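import Pool.Agent.Work.MP_b30479_gt.G2.S2Poly

/-!
# Linear inequalities over a polygon
-/

namespace Pool.Agent.Work.MP_b30479_gt.G2.SQ

/-- the triangle is positively oriented -/
def triD (a b c : ℤ × ℤ) : Bool :=
  decide (0 < (b.1 - a.1) * (c.2 - a.2) - (b.2 - a.2) * (c.1 - a.1))

/-- all triangles of the fan are positively oriented -/
def fanD (a : ℤ × ℤ) : List (ℤ × ℤ) → Bool
  | b :: c :: l => triD a b c && fanD a (c :: l)
  | _ => true

/-- the check of `α x + β y ≥ μ` (units `1 / 1000`) -/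
def linOK (al be mu : ℤ) : List (ℤ × ℤ) → Bool
  | a :: b :: c :: l => fanD a (b :: c :: l) &&
      (a :: b :: c :: l).all fun p => decide (0 ≤ al * p.1 + be * p.2 - mu)
  | _ => false

lemma cr_swapL (p q : ℤ × ℤ) (z : ℂ) : cr p q z = -cr q p z := by
  simp only [cr, Int.cast_sub]
  ring

lemma tri_lin {al be mu : ℤ} {a b c : ℤ × ℤ} (h : triD a b c = true)
    (ha : 0 ≤ al * a.1 + be * a.2 - mu) (hb : 0 ≤ al * b.1 + be * b.2 - mu)
    (hc : 0 ≤ al * c.1 + be * c.2 - mu) {z : ℂ}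
    (h0 : 0 ≤ cr b c z) (h1 : cr a c z ≤ 0) (h2 : 0 ≤ cr a b z) :
    0 ≤ (al : ℝ) * (1000 * z.re) + be * (1000 * z.im) - mu := by
  rw [triD, decide_eq_true_eq] at h
  obtain ⟨a1, a2⟩ := a
  obtain ⟨b1, b2⟩ := b
  obtain ⟨e1, e2⟩ := c
  simp only at h ha hb hc
  have hD : (0 : ℝ) < (b1 - a1) * (e2 - a2) - (b2 - a2) * (e1 - a1) := by exact_mod_cast h
  rify at ha hb hc
  simp only [cr, Int.cast_sub] at h0 h1 h2
  have q0 := mul_nonneg h0 ha
  have q1 := mul_nonneg (neg_nonneg.mpr h1) hb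
  have q2 := mul_nonneg h2 hc
  have key : 0 ≤ (((b1 : ℝ) - a1) * (e2 - a2) - (b2 - a2) * (e1 - a1)) *
      ((al : ℝ) * (1000 * z.re) + be * (1000 * z.im) - mu) := by
    refine (add_nonneg (add_nonneg q0 q1) q2).trans (le_of_eq ?_)
    ring
  exact nonneg_of_mul_nonneg_right key hD

lemma fan_lin {al be mu : ℤ} {a : ℤ × ℤ} (ha : 0 ≤ al * a.1 + be * a.2 - mu) {z : ℂ}
    (t : List (ℤ × ℤ)) :
    ∀ x : ℤ × ℤ, (∀ e ∈ (x :: t).zip (t ++ [a]), 0 ≤ cr e.1 e.2 z) →
      (∀ p ∈ x :: t, 0 ≤ al * p.1 + be * p.2 - mu) →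
      fanD a (x :: t) = true → 0 ≤ cr a x z → (t ≠ [] ∨ 0 < cr a x z) →
      0 ≤ (al : ℝ) * (1000 * z.re) + be * (1000 * z.im) - mu := by
  induction t with
  | nil =>
    intro x h1 _ _ _ h4
    have h5 := h1 (x, a) (by simp)
    rw [cr_swapL] at h5
    rcases h4 with h4 | h4
    · exact absurd rfl h4
    · simp only at h5
      linarith
  | cons y t ih =>
    intro x h1 hp h2 h3 _
    rw [fanD, Bool.and_eq_true] at h2
    by_cases hy : cr a y z ≤ 0
    · exact tri_lin h2.1 ha (hp x (by simp)) (hp y (by simp)) (h1 (x, y) (by simp)) hy h3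
    · push Not at hy
      exact ih y (fun e he => h1 e (by simp [he])) (fun p h => hp p (List.mem_cons_of_mem _ h))
        h2.2 hy.le (Or.inr hy)

/-- soundness of the check -/
theorem lin_sound {al be mu : ℤ} {V : List (ℤ × ℤ)} (h : linOK al be mu V = true) {z : ℂ}
    (hz : z ∈ Poly V) : 0 ≤ (al : ℝ) * (1000 * z.re) + be * (1000 * z.im) - mu := by
  match V, h, hz with
  | [], h, _ => simp [linOK] at h
  | [_], h, _ => simp [linOK] at h
  | [_, _], h, _ => simp [linOK] at h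
  | a :: b :: c :: l, h, hz =>
    rw [linOK, Bool.and_eq_true, List.all_eq_true] at h
    have hv : ∀ p ∈ a :: b :: c :: l, 0 ≤ al * p.1 + be * p.2 - mu := by
      intro p hp
      have := h.2 p hp
      rwa [decide_eq_true_eq] at this
    have hz' : ∀ e ∈ (a :: b :: c :: l).zip ((b :: c :: l) ++ [a]), 0 ≤ cr e.1 e.2 z := by
      intro e he
      apply hz e
      rw [edges, List.rotate_cons_succ, List.rotate_zero]
      exact he
    refine fan_lin (hv a (by simp)) (c :: l) b (fun e he => hz' e ?_)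
      (fun p hp => hv p (List.mem_cons_of_mem _ hp)) h.1 (hz' (a, b) (by simp))
      (Or.inl (List.cons_ne_nil _ _))
    rw [List.cons_append, List.zip_cons_cons]
    exact List.mem_cons_of_mem _ he

end Pool.Agent.Work.MP_b30479_gt.G2.SQ
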