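import Pool.Agent.Work.MP_b30479_gt.G2.SKapB
import Pool.Agent.Work.MP_b30479_gt.G2.SLin

/-!
# Diagonal dominance for all rings: two crossings, and the summary
-/

namespace Pool.Agent.Work.MP_b30479_gt.G2.KB

open Complex SQ

lemma lin_of {al be mu : ℤ} {V : List (ℤ × ℤ)} (h : linOK al be mu V = true) {z : ℂ}
    (hz : z ∈ Poly V) : (mu : ℝ) ≤ al * (1000 * z.re) + be * (1000 * z.im) := by
  have := lin_sound h hz
  linarith only [this]

lemma pA_re {k : ℂ} (hk : k ∈ Poly pA) : 42 / 100 ≤ k.re := by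
  have := lin_of (al := 1) (be := 0) (mu := 420) (V := pA) (by decide) hk
  push_cast at this
  linarith only [this]

lemma pA_im0 {k : ℂ} (hk : k ∈ Poly pA) : 0 ≤ k.im := by
  have := lin_of (al := 0) (be := 1) (mu := 0) (V := pA) (by decide) hk
  push_cast at this
  linarith only [this]

lemma pA_im1 {k : ℂ} (hk : k ∈ Poly pA) : k.im ≤ 676 / 1000 := by
  have := lin_of (al := 0) (be := -1) (mu := -676) (V := pA) (by decide) hk
  push_cast at this
  linarith only [this]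

lemma pA_sec {k : ℂ} (hk : k ∈ Poly pA) : k.im ≤ 106 / 100 * k.re := by
  have := lin_of (al := 106) (be := -100) (mu := 0) (V := pA) (by decide) hk
  push_cast at this
  linarith only [this]

lemma pA_n {k : ℂ} (hk : k ∈ Poly pA) : k.re ^ 2 + k.im ^ 2 ≤ 1148 / 1000 := by
  have h : polyOK 0 0 1000 (-1317) pA = true := by decide
  have := poly_sound h hk
  simp only [quart, Int.cast_ofNat, Int.cast_zero, Int.cast_neg] at this
  apply le_of_sq_le_sq _ (by norm_num)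
  norm_num at this ⊢
  linarith only [this]

lemma pT_re {k : ℂ} (hk : k ∈ Poly pT) : 1 / 2 ≤ k.re := by
  have := lin_of (al := 1) (be := 0) (mu := 500) (V := pT) (by decide) hk
  push_cast at this
  linarith only [this]

lemma pT_im0 {k : ℂ} (hk : k ∈ Poly pT) : 0 ≤ k.im := by
  have := lin_of (al := 0) (be := 1) (mu := 0) (V := pT) (by decide) hk
  push_cast at this
  linarith only [this]

lemma pT_sec {k : ℂ} (hk : k ∈ Poly pT) : k.im ≤ 3 / 4 * k.re := by
  have := lin_of (al := 3) (be := -4) (mu := 0) (V := pT) (by decide) hk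
  push_cast at this
  linarith only [this]

lemma pT_n {k : ℂ} (hk : k ∈ Poly pT) : k.re ^ 2 + k.im ^ 2 ≤ 1 := by
  have h : polyOK 0 0 1000 (-1000) pT = true := by decide
  have := poly_sound h hk
  simp only [quart, Int.cast_ofNat, Int.cast_zero, Int.cast_neg] at this
  apply le_of_sq_le_sq _ (by norm_num)
  norm_num at this ⊢
  linarith only [this]

/-- the condition of `kap_two` in terms of `k`, `k'` -/
lemma hP_of {k k' : ℂ} (hk : k ≠ 0) (hk' : k' ≠ 0)
    (h : 2 * (‖k‖ ^ 2 * ‖k'‖ ^ 2) < ‖k + k'‖ ^ 2) : 1 < ‖(1 / k + 1 / k') ^ 2 - 1‖ := by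
  have n1 : 0 < ‖k‖ := norm_pos_iff.mpr hk
  have n2 : 0 < ‖k'‖ := norm_pos_iff.mpr hk'
  have e : 1 / k + 1 / k' = (k + k') / (k * k') := by field_simp; ring
  have h1 : ‖(1 / k + 1 / k') ^ 2‖ = ‖k + k'‖ ^ 2 / (‖k‖ ^ 2 * ‖k'‖ ^ 2) := by
    rw [e, norm_pow, norm_div, norm_mul, div_pow, mul_pow]
  have h2 : 2 < ‖(1 / k + 1 / k') ^ 2‖ := by
    rw [h1, lt_div_iff₀ (by positivity)]
    exact h
  have h3 := norm_sub_norm_le ((1 / k + 1 / k') ^ 2) 1
  rw [norm_one] at h3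
  linarith only [h2, h3]

lemma hd_of {k k' : ℂ} (h : 0 ≤ k.re * k'.re + k.im * k'.im) :
    0 ≤ (1 / k * starRingEnd ℂ (1 / k')).re := by
  have e : 1 / k * starRingEnd ℂ (1 / k') = starRingEnd ℂ k * k' /
      ((Complex.normSq k : ℂ) * (Complex.normSq k' : ℂ)) := by
    by_cases hk : k = 0
    · simp [hk]
    by_cases hk' : k' = 0
    · simp [hk']
    have h1 : (starRingEnd ℂ) k' ≠ 0 := by simpa using hk'
    have h2 : (starRingEnd ℂ) k ≠ 0 := by simpa using hk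
    rw [← Complex.mul_conj k, ← Complex.mul_conj k', map_div₀, map_one]
    field_simp
  rw [e, ← Complex.ofReal_mul, Complex.div_ofReal_re]
  apply div_nonneg _ (mul_nonneg (Complex.normSq_nonneg _) (Complex.normSq_nonneg _))
  rw [Complex.mul_re, Complex.conj_re, Complex.conj_im]
  linarith only [h]

lemma norm_add_sq' (k k' : ℂ) : ‖k + k'‖ ^ 2 = ‖k‖ ^ 2 + ‖k'‖ ^ 2 +
    2 * (k.re * k'.re + k.im * k'.im) := by
  rw [norm_sq_re_im, norm_sq_re_im, norm_sq_re_im, Complex.add_re, Complex.add_im]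
  ring

/-- `tan w ≠ 0` if the value is in the open upper half plane -/
lemma tan_ne {V : List (ℤ × ℤ)} (h0 : polyOK 0 0 (-1000) 20 V = true)
    (h1 : polyOK 0 1000 0 20 V = true) {w : ℂ} (hw : Complex.cos w ∈ Poly V) :
    Complex.tan w ≠ 0 := by
  intro h
  have hc := cos_ne_of_n (n_pos h0 hw)
  have h2 := tan_sq_eq w
  rw [h] at h2
  have h3 : Complex.cos w ^ 2 = 1 := by
    have h4 : (1 - Complex.cos w ^ 2) / Complex.cos w ^ 2 = 0 := by rw [← h2]; norm_num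
    have h5 := (div_eq_zero_iff.mp h4).resolve_right (pow_ne_zero 2 hc)
    linear_combination -h5
  have h6 := poly_sound h1 hw
  have h7 : (Complex.cos w ^ 2).im = 0 := by rw [h3]; simp
  rw [sq_im] at h7
  simp only [quart, Int.cast_ofNat, Int.cast_zero] at h6
  linarith only [h7, h6]

lemma kap2_two {w k k' : ℂ} (hc : Complex.cos w ≠ 0) (hT : Complex.tan w ≠ 0) (hk : k ≠ 0)
    (hk' : k' ≠ 0) (hR : 0 < (RR w k).re) (hR' : 0 < (RR w k').re)
    (hring : ((2 : ℝ) : ℂ) * w - Real.pi + I * (QQ w k + QQ w k') = 0)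
    (hd : 0 ≤ k.re * k'.re + k.im * k'.im)
    (hP : 2 * (‖k‖ ^ 2 * ‖k'‖ ^ 2) < ‖k + k'‖ ^ 2) : Kap2 2 w k k' := by
  have h1 := kap_two_ring (w := w) (T := Complex.tan w) (R := RR w k) (R' := RR w k') hk hk'
    (Complex.tan_mul_cos hc) hT rfl
    (by rw [RR_sq, ZZ0, one_div]) (by rw [RR_sq, ZZ0, one_div]) (RR_ne hR) (RR_ne hR')
    (exp_QQ hk) (exp_QQ hk') (by push_cast at hring; linear_combination hring) (hd_of hd)
    (hP_of hk hk' hP)
  have hq : 1 + Complex.tan w ^ 2 = 1 / Complex.cos w ^ 2 := by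
    rw [tan_sq_eq]
    field_simp
    ring
  unfold Kap2
  have n1 := norm_pos_iff.mpr (RR_ne hR)
  have n2 := norm_pos_iff.mpr (RR_ne hR')
  have e1 : ‖Complex.tan w ^ 2 / RR w k‖ + ‖Complex.tan w ^ 2 / RR w k'‖ =
      ‖(1 + Complex.tan w ^ 2) - 1‖ * (1 / ‖RR w k‖ + 1 / ‖RR w k'‖) := by
    rw [norm_div, norm_div, add_sub_cancel_left]
    ring
  have e2 : (((2 : ℝ) : ℂ) + I * (1 / (Complex.cos w ^ 2 * RR w k) +
      1 / (Complex.cos w ^ 2 * RR w k'))) =
      2 + I * (1 + Complex.tan w ^ 2) * (1 / RR w k + 1 / RR w k') := by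
    rw [hq]
    push_cast
    have := RR_ne hR
    have := RR_ne hR'
    field_simp
  rw [e1, e2]
  exact h1

lemma kap1_two {w k : ℂ} (hc : Complex.cos w ≠ 0) (hT : Complex.tan w ≠ 0) (hk : k ≠ 0)
    (hR : 0 < (RR w k).re)
    (hring : ((2 : ℝ) : ℂ) * w - Real.pi + I * QQ w k = 0) : Kap1 2 w k := by
  have h1 := kap_two_end_ring (w := w) (T := Complex.tan w) (R := RR w k) hk
    (Complex.tan_mul_cos hc) hc hT rfl
    (by rw [RR_sq, ZZ0, one_div]) (RR_ne hR)
    (exp_QQ hk) (by push_cast at hring; linear_combination hring)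
  have hq : 1 + Complex.tan w ^ 2 = 1 / Complex.cos w ^ 2 := by
    rw [tan_sq_eq]
    field_simp
    ring
  unfold Kap1
  have n1 := norm_pos_iff.mpr (RR_ne hR)
  have e1 : ‖Complex.tan w ^ 2 / RR w k‖ = ‖(1 + Complex.tan w ^ 2) - 1‖ * (1 / ‖RR w k‖) := by
    rw [norm_div, add_sub_cancel_left]
    ring
  have e2 : (((2 : ℝ) : ℂ) + I * (1 / (Complex.cos w ^ 2 * RR w k))) =
      2 + I * (1 + Complex.tan w ^ 2) * (1 / RR w k) := by
    rw [hq]
    push_cast
    have := RR_ne hR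
    field_simp
  rw [e1, e2]
  exact h1

lemma ne_of_pA {k : ℂ} (hk : starRingEnd ℂ k ∈ Poly pA) : k ≠ 0 := by
  rintro rfl
  have := pA_re hk
  simp at this
  norm_num at this

/-- two crossings, end ring -/
theorem kap_end_a2 {w k : ℂ} (hw : Complex.cos w ∈ Poly (vt .t2e))
    (hk : k ∈ frS (-1) (Poly pA)) (hR : 0 < (RR w k).re)
    (hring : ((2 : ℝ) : ℂ) * w - Real.pi + I * QQ w k = 0) : Kap1 2 w k :=
  kap1_two (cos_ne_of_n (own_n hw)) (tan_ne (by decide) (by decide) hw)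
    (ne_of_pA (frS_mem hk)) hR hring

/-- two crossings, two neighbours of opposite sign -/
theorem kap_aa2 {w k k' : ℂ} (hw : Complex.cos w ∈ Poly (vt .t2aa))
    (hk : k ∈ frS (-1) (Poly pA)) (hk' : k' ∈ frS (-1) (Poly pA)) (hR : 0 < (RR w k).re)
    (hR' : 0 < (RR w k').re)
    (hring : ((2 : ℝ) : ℂ) * w - Real.pi + I * (QQ w k + QQ w k') = 0) : Kap2 2 w k k' := by
  have h := frS_mem hk
  have h' := frS_mem hk'
  have a1 := pA_re h
  have a2 := pA_im0 h
  have a3 := pA_n h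
  have b1 := pA_re h'
  have b2 := pA_im0 h'
  have b3 := pA_n h'
  rw [Complex.conj_re] at a1 b1
  rw [Complex.conj_im] at a2 b2
  rw [Complex.conj_re, Complex.conj_im, neg_sq] at a3 b3
  have h1 : 1764 / 10000 ≤ k.re * k'.re := by nlinarith only [a1, b1]
  have h2 : 0 ≤ k.im * k'.im := by nlinarith only [a2, b2]
  refine kap2_two (cos_ne_of_n (own_n hw)) (tan_ne (by decide) (by decide) hw)
    (ne_of_pA h) (ne_of_pA h') hR hR' hring (by linarith only [h1, h2]) ?_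
  rw [norm_add_sq', norm_sq_re_im, norm_sq_re_im]
  have p1 : 0 ≤ k.re ^ 2 + k.im ^ 2 := by positivity
  have p2 : 0 ≤ k'.re ^ 2 + k'.im ^ 2 := by positivity
  nlinarith only [a3, h1, h2, p1, b3, p2, mul_nonneg p1 (sub_nonneg.mpr b3), mul_nonneg p2 (sub_nonneg.mpr a3)]

/-- two crossings, neighbours of both signs -/
theorem kap_as2 {w k k' : ℂ} (hw : Complex.cos w ∈ Poly (vt .t2as))
    (hk : k ∈ frS (-1) (Poly pA)) (hk' : k' ∈ Poly pT) (hR : 0 < (RR w k).re)
    (hR' : 0 < (RR w k').re)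
    (hring : ((2 : ℝ) : ℂ) * w - Real.pi + I * (QQ w k + QQ w k') = 0) : Kap2 2 w k k' := by
  have h := frS_mem hk
  have a1 := pA_re h
  have a2 := pA_im0 h
  have a3 := pA_n h
  have a4 := pA_sec h
  have a5 := pA_im1 h
  have b1 := pT_re hk'
  have b2 := pT_im0 hk'
  have b3 := pT_n hk'
  have b4 := pT_sec hk'
  obtain ⟨x, hx⟩ : ∃ x, x = k.re := ⟨_, rfl⟩
  obtain ⟨y, hy⟩ : ∃ y, y = -k.im := ⟨_, rfl⟩
  obtain ⟨s, hs⟩ : ∃ s, s = k'.re := ⟨_, rfl⟩
  obtain ⟨t, ht⟩ : ∃ t, t = k'.im := ⟨_, rfl⟩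
  rw [Complex.conj_re] at a1 a4
  rw [Complex.conj_im] at a2 a4 a5
  rw [Complex.conj_re, Complex.conj_im, neg_sq] at a3
  have ey : k.im = -y := by rw [hy]; ring
  rw [← hx] at a1 a3 a4
  rw [← hy] at a2 a4 a5
  rw [ey, neg_sq] at a3
  rw [← hs] at b1 b3 b4
  rw [← ht] at b2 b3 b4
  have h0' : k' ≠ 0 := by
    rintro rfl
    simp at hs
    linarith only [b1, hs]
  -- `x s - y t >= s (x - 3/4 y)`
  have h1 : y * t ≤ y * (3 / 4 * s) := mul_le_mul_of_nonneg_left b4 a2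
  have h2 : 0 < x - 3 / 4 * y := by linarith only [a1, a4]
  have h3 : 0 < s * (x - 3 / 4 * y) := mul_pos (by linarith only [b1]) h2
  refine kap2_two (cos_ne_of_n (own_n hw)) (tan_ne (by decide) (by decide) hw)
    (ne_of_pA h) h0' hR hR' hring (by rw [← hx, ey, ← hs, ← ht]; linarith only [h1, h3]) ?_
  rw [norm_add_sq', norm_sq_re_im, norm_sq_re_im, ← hx, ey, ← hs, ← ht, neg_sq]
  have p1 : 0 ≤ x ^ 2 + y ^ 2 := by positivity
  have p2 : 0 ≤ s ^ 2 + t ^ 2 := by positivity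
  rcases le_total (x ^ 2 + y ^ 2) 1 with h4 | h4
  · nlinarith only [h1, h3, p1, b3, p2, h4, mul_nonneg p1 (sub_nonneg.mpr b3), mul_nonneg p2 (sub_nonneg.mpr h4)]
  · have h5 : 1 / 10 ≤ x - 3 / 4 * y := by
      by_contra hcon
      push Not at hcon
      nlinarith only [a1, a4, h4, hcon, a5, a2]
    have h6 : s * (1 / 10) ≤ s * (x - 3 / 4 * y) := mul_le_mul_of_nonneg_left h5 (by linarith only [b1])
    have h7 : s ^ 2 + t ^ 2 ≤ 25 / 16 * s ^ 2 := by nlinarith only [b4, b1, b2]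
    have h8 : s ≤ 1 := by nlinarith only [b3, b1]
    have h9 : (s ^ 2 + t ^ 2) ≤ 5 / 4 * s := by
      -- `|k'|^2 <= |k'| <= 5/4 s`
      have h10 : (s ^ 2 + t ^ 2) ^ 2 ≤ (5 / 4 * s) ^ 2 := by
        have : (s ^ 2 + t ^ 2) ^ 2 ≤ 1 * (s ^ 2 + t ^ 2) := by
          rw [pow_two]
          exact mul_le_mul_of_nonneg_right b3 p2
        nlinarith only [h7, this]
      exact le_of_sq_le_sq h10 (by linarith only [b1])
    have h11 : (x ^ 2 + y ^ 2 - 1) * (s ^ 2 + t ^ 2) ≤ 148 / 1000 * (s ^ 2 + t ^ 2) :=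
      mul_le_mul_of_nonneg_right (by linarith only [a3]) p2
    have h12 := mul_nonneg p1 (sub_nonneg.mpr b3)
    nlinarith only [h1, h3, h6, h9, h11, h12]

end Pool.Agent.Work.MP_b30479_gt.G2.KB
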