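import Mathlib

/-!
# Diagonal dominance for twist regions with at least three crossings: core inequalities

Own frame: `c = cos² w`, hinges `R`, `R²  = 1 / c - 1 + 1 / k²`.  The dominance
`‖1 - c‖ ∑ 1 / ‖R‖ < ‖b c + ∑ I / R‖` is tested in the direction `(9, 40) / 41`.
-/

namespace Pool.Agent.Work.MP_b30479_gt.G2.KB

open Complex

/-- the test direction -/
noncomputable def dirN (ζ : ℂ) : ℝ := (9 * ζ.re + 40 * ζ.im) / 41

lemma dirN_add (ζ ξ : ℂ) : dirN (ζ + ξ) = dirN ζ + dirN ξ := by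
  simp only [dirN, Complex.add_re, Complex.add_im]
  ring

lemma dirN_le (ζ : ℂ) : dirN ζ ≤ ‖ζ‖ := by
  apply le_of_sq_le_sq _ (norm_nonneg _)
  rw [Complex.sq_norm, Complex.normSq_apply, dirN]
  nlinarith only [sq_nonneg (40 * ζ.re - 9 * ζ.im)]

lemma norm_sq_re_im (R : ℂ) : ‖R‖ ^ 2 = R.re ^ 2 + R.im ^ 2 := by
  rw [Complex.sq_norm, Complex.normSq_apply]
  ring

lemma dirN_I_div {R : ℂ} (hR : R ≠ 0) :
    dirN (I / R) = (9 * R.im + 40 * R.re) / 41 / ‖R‖ ^ 2 := by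
  have h0 : Complex.normSq R ≠ 0 := by
    rwa [Ne, Complex.normSq_eq_zero]
  rw [dirN, Complex.div_re, Complex.div_im, Complex.sq_norm]
  simp only [Complex.I_re, Complex.I_im]
  field_simp
  ring

/-- a port of alternating type -/
lemma port_A' {m : ℝ} {R : ℂ} (hm : m ^ 2 ≤ 525 / 1000) (hX : 0 < R.re)
    (h1 : -(55 / 100) * R.re ≤ R.im) (h2 : R.im ≤ 136 / 100 * R.re) :
    m * (1 / ‖R‖) ≤ dirN (I / R) := by
  have hR : R ≠ 0 := fun h => by rw [h] at hX; exact lt_irrefl _ hX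
  have hn : 0 < ‖R‖ := norm_pos_iff.mpr hR
  have hsq := norm_sq_re_im R
  have key : m * ‖R‖ ≤ (9 * R.im + 40 * R.re) / 41 := by
    have hnn : 0 ≤ (9 * R.im + 40 * R.re) / 41 := by
      apply div_nonneg _ (by norm_num)
      nlinarith only [hX, h1]
    apply le_of_sq_le_sq _ hnn
    have e : (m * ‖R‖) ^ 2 = m ^ 2 * ‖R‖ ^ 2 := by ring
    rw [e, hsq]
    have h3 : m ^ 2 * (R.re ^ 2 + R.im ^ 2) ≤ 525 / 1000 * (R.re ^ 2 + R.im ^ 2) :=
      mul_le_mul_of_nonneg_right hm (by positivity)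
    refine h3.trans ?_
    have h4 : 0 ≤ (R.im + 55 / 100 * R.re) * (136 / 100 * R.re - R.im) :=
      mul_nonneg (by linarith only [h1]) (by linarith only [h2])
    nlinarith only [h4, mul_pos hX hX]
  rw [dirN_I_div hR, mul_one_div, div_le_div_iff₀ hn (by positivity)]
  calc m * ‖R‖ ^ 2 = m * ‖R‖ * ‖R‖ := by ring
    _ ≤ (9 * R.im + 40 * R.re) / 41 * ‖R‖ := mul_le_mul_of_nonneg_right key hn.le

/-- a port of equal sign -/
lemma port_S' {m ν r1 δ : ℝ} {R : ℂ} (hR : R ≠ 0) (hδ0 : 0 ≤ δ)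
    (hN : ν * ‖R‖ ≤ (9 * R.im + 40 * R.re) / 41) (hr : r1 ≤ ‖R‖) (hδ : m - ν ≤ δ * r1) :
    m * (1 / ‖R‖) - δ ≤ dirN (I / R) := by
  have hn : 0 < ‖R‖ := norm_pos_iff.mpr hR
  rw [dirN_I_div hR, le_div_iff₀ (by positivity)]
  have e : (m * (1 / ‖R‖) - δ) * ‖R‖ ^ 2 = m * ‖R‖ - δ * ‖R‖ * ‖R‖ := by
    field_simp
  rw [e]
  refine le_trans ?_ hN
  have h1 : δ * r1 ≤ δ * ‖R‖ := mul_le_mul_of_nonneg_left hr hδ0
  have h2 : (m - ν) * ‖R‖ ≤ δ * ‖R‖ * ‖R‖ := mul_le_mul_of_nonneg_right (hδ.trans h1) hn.le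
  linarith only [h2]

/-- bound in the test direction in a sector of the fourth quadrant -/
lemma sector_51 {R : ℂ} (hX : 0 < R.re) (h1 : -(1052 / 1000) * R.re ≤ R.im) (h2 : R.im ≤ 0) :
    51 / 100 * ‖R‖ ≤ (9 * R.im + 40 * R.re) / 41 := by
  have hnn : 0 ≤ (9 * R.im + 40 * R.re) / 41 := by
    apply div_nonneg _ (by norm_num)
    nlinarith only [hX, h1]
  apply le_of_sq_le_sq _ hnn
  rw [mul_pow, norm_sq_re_im]
  have h4 : 0 ≤ (R.im + 1052 / 1000 * R.re) * (-R.im) := mul_nonneg (by linarith only [h1]) (by linarith only [h2])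
  nlinarith only [h4, hX, h1, mul_pos hX hX, mul_nonneg hX.le (neg_nonneg.mpr h2)]

/-- bound in the test direction in a larger sector of the fourth quadrant -/
lemma sector_40 {R : ℂ} (hX : 0 < R.re) (h1 : -(1345 / 1000) * R.re ≤ R.im) (h2 : R.im ≤ 0) :
    40 / 100 * ‖R‖ ≤ (9 * R.im + 40 * R.re) / 41 := by
  have hnn : 0 ≤ (9 * R.im + 40 * R.re) / 41 := by
    apply div_nonneg _ (by norm_num)
    nlinarith only [hX, h1]
  apply le_of_sq_le_sq _ hnn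
  rw [mul_pow, norm_sq_re_im]
  have h4 : 0 ≤ (R.im + 1345 / 1000 * R.re) * (-R.im) := mul_nonneg (by linarith only [h1]) (by linarith only [h2])
  nlinarith only [h4, hX, h1, mul_pos hX hX, mul_nonneg hX.le (neg_nonneg.mpr h2)]

/-! ### from the square of `R` to the sector -/

lemma sq_re (R : ℂ) : (R ^ 2).re = R.re ^ 2 - R.im ^ 2 := by
  rw [pow_two, Complex.mul_re]; ring

lemma sq_im (R : ℂ) : (R ^ 2).im = 2 * R.re * R.im := by
  rw [pow_two, Complex.mul_im]; ring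

lemma low_of_sq {R : ℂ} (hX : 0 < R.re) (h : 0 ≤ (R ^ 2).re + 7 / 10 * (R ^ 2).im) :
    -(55 / 100) * R.re ≤ R.im := by
  rw [sq_re, sq_im] at h
  by_contra hc
  push Not at hc
  -- `X² - Y² + 1.4 X Y < 0`
  have h1 : R.im < 0 := by nlinarith only [hX, hc]
  nlinarith only [h, h1, hc, hX, mul_pos hX hX, mul_pos hX (neg_pos.mpr h1), mul_pos (neg_pos.mpr h1) (neg_pos.mpr h1),
    mul_pos (show 0 < -(55 / 100) * R.re - R.im by linarith only [hc]) (neg_pos.mpr h1)]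

lemma high_of_sq {R : ℂ} (hX : 0 < R.re) (h : 0 ≤ (R ^ 2).re + 3 / 10 * (R ^ 2).im) :
    R.im ≤ 136 / 100 * R.re := by
  rw [sq_re, sq_im] at h
  by_contra hc
  push Not at hc
  nlinarith only [h, hX, hc, mul_pos hX hX, mul_pos hX (show 0 < R.im - 136 / 100 * R.re by linarith only [hc]),
    mul_pos (show 0 < R.im - 136 / 100 * R.re by linarith only [hc])
      (show 0 < R.im - 136 / 100 * R.re by linarith only [hc])]

lemma im_nonpos_of_sq {R : ℂ} (hX : 0 < R.re) (h : (R ^ 2).im ≤ 0) : R.im ≤ 0 := by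
  rw [sq_im] at h
  by_contra hc
  push Not at hc
  nlinarith only [h, hX, hc, mul_pos hX hc]

lemma low51_of_sq {R : ℂ} (hX : 0 < R.re)
    (h : 0 ≤ (R ^ 2).re - 5 / 100 * (R ^ 2).im) : -(1052 / 1000) * R.re ≤ R.im := by
  rw [sq_re, sq_im] at h
  by_contra hc
  push Not at hc
  have h1 : 0 < -R.im := by nlinarith only [hX, hc]
  nlinarith only [h, hX, hc, h1, mul_pos hX hX, mul_pos hX h1,
    mul_pos (show 0 < -(1052 / 1000) * R.re - R.im by linarith only [hc]) h1,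
    mul_pos (show 0 < -(1052 / 1000) * R.re - R.im by linarith only [hc]) hX]

lemma low40_of_sq {R : ℂ} (hX : 0 < R.re)
    (h : 0 ≤ (R ^ 2).re - 3 / 10 * (R ^ 2).im) : -(1345 / 1000) * R.re ≤ R.im := by
  rw [sq_re, sq_im] at h
  by_contra hc
  push Not at hc
  have h1 : 0 < -R.im := by nlinarith only [hX, hc]
  nlinarith only [h, hX, hc, h1, mul_pos hX hX, mul_pos hX h1,
    mul_pos (show 0 < -(1345 / 1000) * R.re - R.im by linarith only [hc]) h1,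
    mul_pos (show 0 < -(1345 / 1000) * R.re - R.im by linarith only [hc]) hX]

/-- lower bound for `‖R‖` from a linear functional of the square -/
lemma norm_ge_of_sq {R : ℂ} {r : ℝ}
    (h : 3 / 2 * r ^ 2 ≤ (R ^ 2).re - (R ^ 2).im) : r ≤ ‖R‖ := by
  apply le_of_sq_le_sq _ (norm_nonneg _)
  have h1 : ‖R‖ ^ 2 = ‖R ^ 2‖ := by rw [norm_pow]
  rw [h1]
  have h2 : (3 / 2 * ‖R ^ 2‖) ^ 2 ≥ ((R ^ 2).re - (R ^ 2).im) ^ 2 := by
    rw [mul_pow, norm_sq_re_im]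
    nlinarith only [sq_nonneg ((R ^ 2).re + (R ^ 2).im), sq_nonneg (R ^ 2).re, sq_nonneg (R ^ 2).im]
  have h3 : (R ^ 2).re - (R ^ 2).im ≤ 3 / 2 * ‖R ^ 2‖ := le_of_sq_le_sq h2 (by positivity)
  linarith only [h, h3]

/-! ### the dominance inequality -/

lemma dom_iff2 {c R R' : ℂ} {b : ℝ} (hc : c ≠ 0) (hR : R ≠ 0) (hR' : R' ≠ 0)
    (h : ‖1 - c‖ * (1 / ‖R‖) + ‖1 - c‖ * (1 / ‖R'‖) < ‖(b : ℂ) * c + (I / R + I / R')‖) :
    ‖(1 - c) / c / R‖ + ‖(1 - c) / c / R'‖ <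
      ‖(b : ℂ) + I * (1 / (c * R) + 1 / (c * R'))‖ := by
  have hn : 0 < ‖c‖ := norm_pos_iff.mpr hc
  have e : (b : ℂ) * c + (I / R + I / R') = c * ((b : ℂ) + I * (1 / (c * R) + 1 / (c * R'))) := by
    field_simp
  rw [e, norm_mul] at h
  have e1 : ‖(1 - c) / c / R‖ + ‖(1 - c) / c / R'‖ =
      (‖1 - c‖ * (1 / ‖R‖) + ‖1 - c‖ * (1 / ‖R'‖)) / ‖c‖ := by
    simp only [norm_div]
    have := norm_pos_iff.mpr hR
    have := norm_pos_iff.mpr hR'
    field_simp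
  rw [e1, div_lt_iff₀ hn]
  linarith only [h]

lemma dom_iff1 {c R : ℂ} {b : ℝ} (hc : c ≠ 0) (hR : R ≠ 0)
    (h : ‖1 - c‖ * (1 / ‖R‖) < ‖(b : ℂ) * c + I / R‖) :
    ‖(1 - c) / c / R‖ < ‖(b : ℂ) + I * (1 / (c * R))‖ := by
  have hn : 0 < ‖c‖ := norm_pos_iff.mpr hc
  have e : (b : ℂ) * c + I / R = c * ((b : ℂ) + I * (1 / (c * R))) := by
    field_simp
  rw [e, norm_mul] at h
  have e1 : ‖(1 - c) / c / R‖ = (‖1 - c‖ * (1 / ‖R‖)) / ‖c‖ := by
    simp only [norm_div]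
    have := norm_pos_iff.mpr hR
    field_simp
  rw [e1, div_lt_iff₀ hn]
  linarith only [h]

lemma dom_dir2 {c R R' : ℂ} {b δ δ' : ℝ} (hc : c ≠ 0) (hR : R ≠ 0) (hR' : R' ≠ 0)
    (h1 : ‖1 - c‖ * (1 / ‖R‖) - δ ≤ dirN (I / R)) (h2 : ‖1 - c‖ * (1 / ‖R'‖) - δ' ≤ dirN (I / R'))
    (hb : δ + δ' < b * dirN c) :
    ‖(1 - c) / c / R‖ + ‖(1 - c) / c / R'‖ <
      ‖(b : ℂ) + I * (1 / (c * R) + 1 / (c * R'))‖ := by
  apply dom_iff2 hc hR hR'
  refine lt_of_lt_of_le ?_ (dirN_le _)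
  rw [dirN_add, dirN_add]
  have e : dirN ((b : ℂ) * c) = b * dirN c := by
    simp only [dirN, Complex.mul_re, Complex.mul_im, Complex.ofReal_re, Complex.ofReal_im]
    ring
  rw [e]
  linarith only [h1, h2, hb]

lemma dom_dir1 {c R : ℂ} {b δ : ℝ} (hc : c ≠ 0) (hR : R ≠ 0)
    (h1 : ‖1 - c‖ * (1 / ‖R‖) - δ ≤ dirN (I / R)) (hb : δ < b * dirN c) :
    ‖(1 - c) / c / R‖ < ‖(b : ℂ) + I * (1 / (c * R))‖ := by
  apply dom_iff1 hc hR
  refine lt_of_lt_of_le ?_ (dirN_le _)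
  rw [dirN_add]
  have e : dirN ((b : ℂ) * c) = b * dirN c := by
    simp only [dirN, Complex.mul_re, Complex.mul_im, Complex.ofReal_re, Complex.ofReal_im]
    ring
  rw [e]
  linarith only [h1, hb]

end Pool.Agent.Work.MP_b30479_gt.G2.KB
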