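import Pool.Agent.Work.MP_b30479_gt.G2.S2Poly

/-!
# Quartic inequalities over a polygon

`α Re z² + β Im z² - γ |z|⁴ - μ ≥ 0` on a polygon, by Bernstein coefficients on the fan of triangles
with the first vertex as apex.
-/

namespace Pool.Agent.Work.MP_b30479_gt.G2.SQ

/-- six times the blossom of the quartic (units `1 / 1000`) -/
def bl (al be ga mu : ℤ) (p q r s : ℤ × ℤ) : ℤ :=
  1000000 * al * ((p.1 * q.1 - p.2 * q.2) + (p.1 * r.1 - p.2 * r.2) + (p.1 * s.1 - p.2 * s.2) +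
      (q.1 * r.1 - q.2 * r.2) + (q.1 * s.1 - q.2 * s.2) + (r.1 * s.1 - r.2 * s.2)) +
    1000000 * be * ((p.1 * q.2 + p.2 * q.1) + (p.1 * r.2 + p.2 * r.1) + (p.1 * s.2 + p.2 * s.1) +
      (q.1 * r.2 + q.2 * r.1) + (q.1 * s.2 + q.2 * s.1) + (r.1 * s.2 + r.2 * s.1)) -
    2 * ga * ((p.1 * q.1 + p.2 * q.2) * (r.1 * s.1 + r.2 * s.2) +
      (p.1 * r.1 + p.2 * r.2) * (q.1 * s.1 + q.2 * s.2) +
      (p.1 * s.1 + p.2 * s.2) * (q.1 * r.1 + q.2 * r.2)) -
    6000000000000 * mu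

/-- all Bernstein coefficients on a triangle are nonnegative and the triangle is positively
oriented -/
def triOK (al be ga mu : ℤ) (a b c : ℤ × ℤ) : Bool :=
  decide (0 < (b.1 - a.1) * (c.2 - a.2) - (b.2 - a.2) * (c.1 - a.1)) &&
  decide (0 ≤ bl al be ga mu a a a a) && decide (0 ≤ bl al be ga mu a a a b) &&
  decide (0 ≤ bl al be ga mu a a a c) && decide (0 ≤ bl al be ga mu a a b b) &&
  decide (0 ≤ bl al be ga mu a a b c) && decide (0 ≤ bl al be ga mu a a c c) &&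
  decide (0 ≤ bl al be ga mu a b b b) && decide (0 ≤ bl al be ga mu a b b c) &&
  decide (0 ≤ bl al be ga mu a b c c) && decide (0 ≤ bl al be ga mu a c c c) &&
  decide (0 ≤ bl al be ga mu b b b b) && decide (0 ≤ bl al be ga mu b b b c) &&
  decide (0 ≤ bl al be ga mu b b c c) && decide (0 ≤ bl al be ga mu b c c c) &&
  decide (0 ≤ bl al be ga mu c c c c)

/-- all triangles of the fan -/
def fanOK (al be ga mu : ℤ) (a : ℤ × ℤ) : List (ℤ × ℤ) → Bool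
  | b :: c :: l => triOK al be ga mu a b c && fanOK al be ga mu a (c :: l)
  | _ => true

/-- the check for a polygon -/
def polyOK (al be ga mu : ℤ) : List (ℤ × ℤ) → Bool
  | a :: b :: c :: l => fanOK al be ga mu a (b :: c :: l)
  | _ => false

/-- the quartic -/
noncomputable def quart (al be ga mu : ℤ) (z : ℂ) : ℝ :=
  al * (z.re ^ 2 - z.im ^ 2) + be * (2 * z.re * z.im) - ga * (z.re ^ 2 + z.im ^ 2) ^ 2 - mu

lemma tri_sound {al be ga mu : ℤ} {a b c : ℤ × ℤ} (h : triOK al be ga mu a b c = true) {z : ℂ}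
    (h0 : 0 ≤ cr b c z) (h1 : cr a c z ≤ 0) (h2 : 0 ≤ cr a b z) : 0 ≤ quart al be ga mu z := by
  simp only [triOK, Bool.and_eq_true, decide_eq_true_eq] at h
  obtain ⟨⟨⟨⟨⟨⟨⟨⟨⟨⟨⟨⟨⟨⟨⟨hD, c1⟩, c2⟩, c3⟩, c4⟩, c5⟩, c6⟩, c7⟩, c8⟩, c9⟩, c10⟩, c11⟩, c12⟩, c13⟩,
    c14⟩, c15⟩ := h
  obtain ⟨a1, a2⟩ := a
  obtain ⟨b1, b2⟩ := b
  obtain ⟨e1, e2⟩ := c
  simp only [bl] at c1 c2 c3 c4 c5 c6 c7 c8 c9 c10 c11 c12 c13 c14 c15
  simp only at hD
  have hD' : (0 : ℝ) < (b1 - a1) * (e2 - a2) - (b2 - a2) * (e1 - a1) := by exact_mod_cast hD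
  rify at c1 c2 c3 c4 c5 c6 c7 c8 c9 c10 c11 c12 c13 c14 c15
  simp only [cr, Int.cast_sub] at h0 h1 h2
  generalize hx : z.re = x at *
  generalize hy : z.im = y at *
  obtain ⟨l0, hl0⟩ : ∃ l0 : ℝ, l0 = ((e1 : ℝ) - b1) * (1000 * y - b2) -
    ((e2 : ℝ) - b2) * (1000 * x - b1) := ⟨_, rfl⟩
  obtain ⟨l1, hl1⟩ : ∃ l1 : ℝ, l1 = -(((e1 : ℝ) - a1) * (1000 * y - a2) -
    ((e2 : ℝ) - a2) * (1000 * x - a1)) := ⟨_, rfl⟩
  obtain ⟨l2, hl2⟩ : ∃ l2 : ℝ, l2 = ((b1 : ℝ) - a1) * (1000 * y - a2) -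
    ((b2 : ℝ) - a2) * (1000 * x - a1) := ⟨_, rfl⟩
  have p0 : 0 ≤ l0 := by rw [hl0]; exact h0
  have p1 : 0 ≤ l1 := by rw [hl1]; linarith
  have p2 : 0 ≤ l2 := by rw [hl2]; exact h2
  set D : ℝ := ((b1 : ℝ) - a1) * (e2 - a2) - (b2 - a2) * (e1 - a1) with hDd
  have sD : l0 + l1 + l2 = D := by rw [hl0, hl1, hl2, hDd]; ring
  have sx : D * (1000 * x) = l0 * a1 + l1 * b1 + l2 * e1 := by
    rw [hl0, hl1, hl2, hDd]; ring
  have sy : D * (1000 * y) = l0 * a2 + l1 * b2 + l2 * e2 := by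
    rw [hl0, hl1, hl2, hDd]; ring
  have key : 6 * D ^ 4 * 1000000000000 * quart al be ga mu z =
      6 * (1000000 * al * ((D * (1000 * x)) ^ 2 - (D * (1000 * y)) ^ 2) * D ^ 2 +
        1000000 * be * (2 * (D * (1000 * x)) * (D * (1000 * y))) * D ^ 2 -
        ga * ((D * (1000 * x)) ^ 2 + (D * (1000 * y)) ^ 2) ^ 2 - 1000000000000 * mu * D ^ 4) := by
    rw [quart, hx, hy]
    ring
  have hpos : 0 ≤ 6 * D ^ 4 * 1000000000000 * quart al be ga mu z := by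
    rw [key, sx, sy, ← sD]
    have q1 := mul_nonneg (pow_nonneg p0 4) c1
    have q2 := mul_nonneg (mul_nonneg (pow_nonneg p0 3) p1) c2
    have q3 := mul_nonneg (mul_nonneg (pow_nonneg p0 3) p2) c3
    have q4 := mul_nonneg (mul_nonneg (pow_nonneg p0 2) (pow_nonneg p1 2)) c4
    have q5 := mul_nonneg (mul_nonneg (mul_nonneg (pow_nonneg p0 2) p1) p2) c5
    have q6 := mul_nonneg (mul_nonneg (pow_nonneg p0 2) (pow_nonneg p2 2)) c6
    have q7 := mul_nonneg (mul_nonneg p0 (pow_nonneg p1 3)) c7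
    have q8 := mul_nonneg (mul_nonneg (mul_nonneg p0 (pow_nonneg p1 2)) p2) c8
    have q9 := mul_nonneg (mul_nonneg (mul_nonneg p0 p1) (pow_nonneg p2 2)) c9
    have q10 := mul_nonneg (mul_nonneg p0 (pow_nonneg p2 3)) c10
    have q11 := mul_nonneg (pow_nonneg p1 4) c11
    have q12 := mul_nonneg (mul_nonneg (pow_nonneg p1 3) p2) c12
    have q13 := mul_nonneg (mul_nonneg (pow_nonneg p1 2) (pow_nonneg p2 2)) c13
    have q14 := mul_nonneg (mul_nonneg p1 (pow_nonneg p2 3)) c14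
    have q15 := mul_nonneg (pow_nonneg p2 4) c15
    have hs := add_nonneg (add_nonneg (add_nonneg (add_nonneg q1
      (mul_nonneg (by norm_num : (0 : ℝ) ≤ 4) q2)) (mul_nonneg (by norm_num : (0 : ℝ) ≤ 4) q3))
      (mul_nonneg (by norm_num : (0 : ℝ) ≤ 6) q4)) (mul_nonneg (by norm_num : (0 : ℝ) ≤ 12) q5)
    have hs2 := add_nonneg (add_nonneg (add_nonneg (add_nonneg hs
      (mul_nonneg (by norm_num : (0 : ℝ) ≤ 6) q6)) (mul_nonneg (by norm_num : (0 : ℝ) ≤ 4) q7))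
      (mul_nonneg (by norm_num : (0 : ℝ) ≤ 12) q8)) (mul_nonneg (by norm_num : (0 : ℝ) ≤ 12) q9)
    have hs3 := add_nonneg (add_nonneg (add_nonneg (add_nonneg (add_nonneg (add_nonneg hs2
      (mul_nonneg (by norm_num : (0 : ℝ) ≤ 4) q10)) q11)
      (mul_nonneg (by norm_num : (0 : ℝ) ≤ 4) q12)) (mul_nonneg (by norm_num : (0 : ℝ) ≤ 6) q13))
      (mul_nonneg (by norm_num : (0 : ℝ) ≤ 4) q14)) q15
    refine hs3.trans (le_of_eq ?_)
    ring
  have hD4 : 0 < 6 * D ^ 4 * 1000000000000 := by positivity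
  exact nonneg_of_mul_nonneg_right hpos hD4

lemma cr_swap (p q : ℤ × ℤ) (z : ℂ) : cr p q z = -cr q p z := by
  simp only [cr, Int.cast_sub]
  ring

lemma fan_sound {al be ga mu : ℤ} {a : ℤ × ℤ} {z : ℂ} (t : List (ℤ × ℤ)) :
    ∀ x : ℤ × ℤ, (∀ e ∈ (x :: t).zip (t ++ [a]), 0 ≤ cr e.1 e.2 z) →
      fanOK al be ga mu a (x :: t) = true → 0 ≤ cr a x z → (t ≠ [] ∨ 0 < cr a x z) →
      0 ≤ quart al be ga mu z := by
  induction t with
  | nil =>
    intro x h1 _ _ h4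
    have h5 := h1 (x, a) (by simp)
    rw [cr_swap] at h5
    rcases h4 with h4 | h4
    · exact absurd rfl h4
    · simp only at h5
      linarith
  | cons y t ih =>
    intro x h1 h2 h3 _
    rw [fanOK, Bool.and_eq_true] at h2
    by_cases hy : cr a y z ≤ 0
    · exact tri_sound h2.1 (h1 (x, y) (by simp)) hy h3
    · push Not at hy
      exact ih y (fun e he => h1 e (by simp [he])) h2.2 hy.le (Or.inr hy)

/-- soundness of the check -/
theorem poly_sound {al be ga mu : ℤ} {V : List (ℤ × ℤ)} (h : polyOK al be ga mu V = true) {z : ℂ}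
    (hz : z ∈ Poly V) : 0 ≤ quart al be ga mu z := by
  match V, h, hz with
  | [], h, _ => simp [polyOK] at h
  | [_], h, _ => simp [polyOK] at h
  | [_, _], h, _ => simp [polyOK] at h
  | a :: b :: c :: l, h, hz =>
    rw [polyOK] at h
    have hz' : ∀ e ∈ (a :: b :: c :: l).zip ((b :: c :: l) ++ [a]), 0 ≤ cr e.1 e.2 z := by
      intro e he
      apply hz e
      rw [edges, List.rotate_cons_succ, List.rotate_zero]
      exact he
    refine fan_sound (c :: l) b (fun e he => hz' e ?_) h (hz' (a, b) (by simp))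
      (Or.inl (List.cons_ne_nil _ _))
    rw [List.cons_append, List.zip_cons_cons]
    exact List.mem_cons_of_mem _ he

end Pool.Agent.Work.MP_b30479_gt.G2.SQ
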