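import Pool.Agent.Work.MP_b30479_gt.G2.SKapCore
import Pool.Agent.Work.MP_b30479_gt.G2.SQuart
import Pool.Agent.Work.MP_b30479_gt.G2.S1

/-!
# Diagonal dominance for twist regions with at least three crossings: the static cases

All ring types with `b ≥ 3` except `t3as`: no ring equation is needed.
-/

namespace Pool.Agent.Work.MP_b30479_gt.G2.KB

open Complex SQ

/-- real part of `1 / z²` -/
noncomputable def px (z : ℂ) : ℝ := (z.re ^ 2 - z.im ^ 2) / (z.re ^ 2 + z.im ^ 2) ^ 2

/-- minus the imaginary part of `1 / z²` -/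
noncomputable def py (z : ℂ) : ℝ := (2 * z.re * z.im) / (z.re ^ 2 + z.im ^ 2) ^ 2

lemma inv_sq_re (z : ℂ) : ((z ^ 2)⁻¹).re = px z := by
  rw [Complex.inv_re, map_pow, Complex.normSq_apply, sq_re, px]
  ring

lemma inv_sq_im (z : ℂ) : ((z ^ 2)⁻¹).im = -py z := by
  rw [Complex.inv_im, map_pow, Complex.normSq_apply, sq_im, py]
  ring

lemma quart_div {al be ga : ℤ} {z : ℂ} (hn : 0 < z.re ^ 2 + z.im ^ 2)
    (h : 0 ≤ quart al be ga 0 z) : (ga : ℝ) ≤ al * px z + be * py z := by
  have e : (al : ℝ) * px z + be * py z = (al * (z.re ^ 2 - z.im ^ 2) + be * (2 * z.re * z.im)) /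
      (z.re ^ 2 + z.im ^ 2) ^ 2 := by
    rw [px, py]
    ring
  rw [e, le_div_iff₀ (by positivity)]
  simp only [quart, Int.cast_zero] at h
  linarith only [h]

lemma n_pos {V : List (ℤ × ℤ)} (h : polyOK 0 0 (-1000) 20 V = true) {z : ℂ} (hz : z ∈ Poly V) :
    0 < z.re ^ 2 + z.im ^ 2 := by
  have h1 := poly_sound h hz
  simp only [quart, Int.cast_zero, Int.cast_neg, Int.cast_ofNat] at h1
  by_contra hc
  push Not at hc
  have h2 : 0 ≤ z.re ^ 2 + z.im ^ 2 := by positivity
  have h3 : z.re ^ 2 + z.im ^ 2 = 0 := le_antisymm hc h2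
  rw [h3] at h1
  norm_num at h1

lemma px_py_of {al be ga : ℤ} {V : List (ℤ × ℤ)} (h0 : polyOK 0 0 (-1000) 20 V = true)
    (h : polyOK al be ga 0 V = true) {z : ℂ} (hz : z ∈ Poly V) :
    (ga : ℝ) ≤ al * px z + be * py z :=
  quart_div (n_pos h0 hz) (poly_sound h hz)

/-! ### the ports -/

lemma pA_1 {k : ℂ} (hk : k ∈ Poly pA) : 77 / 100 ≤ px k + 7 / 10 * py k := by
  have := px_py_of (al := 1000) (be := 700) (ga := 770) (V := pA) (by decide) (by decide) hk
  push_cast at this
  linarith only [this]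

lemma pA_2 {k : ℂ} (hk : k ∈ Poly pA) : 37 / 100 ≤ px k + 3 / 10 * py k := by
  have := px_py_of (al := 1000) (be := 300) (ga := 370) (V := pA) (by decide) (by decide) hk
  push_cast at this
  linarith only [this]

lemma pA_3 {k : ℂ} (hk : k ∈ Poly pA) : 222 / 1000 ≤ px k + 145 / 1000 * py k := by
  have := px_py_of (al := 1000) (be := 145) (ga := 222) (V := pA) (by decide) (by decide) hk
  push_cast at this
  linarith only [this]

lemma pA_4 {k : ℂ} (hk : k ∈ Poly pA) : -(16 / 100) ≤ px k := by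
  have := px_py_of (al := 1000) (be := 0) (ga := -160) (V := pA) (by decide) (by decide) hk
  push_cast at this
  linarith only [this]

lemma pA_y {k : ℂ} (hk : k ∈ Poly pA) : 0 ≤ py k := by
  have := px_py_of (al := 0) (be := 1000) (ga := 0) (V := pA) (by decide) (by decide) hk
  push_cast at this
  linarith only [this]

lemma pS_1 {k : ℂ} (hk : k ∈ Poly pS) : 1 ≤ px k + py k := by
  have := px_py_of (al := 1000) (be := 1000) (ga := 1000) (V := pS) (by decide) (by decide) hk
  push_cast at this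
  linarith only [this]

lemma pS_2 {k : ℂ} (hk : k ∈ Poly pS) : 1 / 10 ≤ px k + 5 / 100 * py k := by
  have := px_py_of (al := 1000) (be := 50) (ga := 100) (V := pS) (by decide) (by decide) hk
  push_cast at this
  linarith only [this]

lemma pS_3 {k : ℂ} (hk : k ∈ Poly pS) : 37 / 100 ≤ px k + 3 / 10 * py k := by
  have := px_py_of (al := 1000) (be := 300) (ga := 370) (V := pS) (by decide) (by decide) hk
  push_cast at this
  linarith only [this]

lemma pS_4 {k : ℂ} (hk : k ∈ Poly pS) : 195 / 1000 ≤ px k + 12 / 100 * py k := by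
  have := px_py_of (al := 1000) (be := 120) (ga := 195) (V := pS) (by decide) (by decide) hk
  push_cast at this
  linarith only [this]

lemma pS_5 {k : ℂ} (hk : k ∈ Poly pS) : -(76 / 10) ≤ 784 / 100 * px k - 395 / 100 * py k := by
  have := px_py_of (al := 7840) (be := -3950) (ga := -7600) (V := pS) (by decide) (by decide) hk
  push_cast at this
  linarith only [this]

lemma pS_y {k : ℂ} (hk : k ∈ Poly pS) : 0 ≤ py k := by
  have := px_py_of (al := 0) (be := 1000) (ga := 0) (V := pS) (by decide) (by decide) hk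
  push_cast at this
  linarith only [this]

/-! ### the own values -/

/-- types which can have a neighbour of opposite sign (all but `t3as`), at least three crossings -/
def typA : RT → Bool
  | .t3aa | .t3ae | .t4 | .t5 | .t6 | .t7 | .t8 => true
  | _ => false

/-- types with at least four crossings -/
def typS : RT → Bool
  | .t4 | .t5 | .t6 | .t7 | .t8 => true
  | _ => false

/-- types with at least three crossings -/
def typ3 : RT → Bool
  | .t2aa | .t2as | .t2e => false
  | _ => true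

lemma typA3 {t : RT} (h : typA t = true) : typ3 t = true := by
  cases t <;> simp [typA, typ3] at *

lemma typSA {t : RT} (h : typS t = true) : typA t = true := by
  cases t <;> simp [typA, typS] at *

lemma own_n {t : RT} {z : ℂ} (hz : z ∈ Poly (vt t)) : 0 < z.re ^ 2 + z.im ^ 2 :=
  n_pos (by cases t <;> decide) hz

lemma own_y {t : RT} {z : ℂ} (hz : z ∈ Poly (vt t)) : 0 ≤ py z := by
  have := px_py_of (al := 0) (be := 1000) (ga := 0) (V := vt t) (by cases t <;> decide)
    (by cases t <;> decide) hz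
  push_cast at this
  linarith only [this]

lemma norm_one_sub_sq (z : ℂ) : ‖1 - z ^ 2‖ ^ 2 =
    1 - 2 * (z.re ^ 2 - z.im ^ 2) + (z.re ^ 2 + z.im ^ 2) ^ 2 := by
  rw [norm_sq_re_im, Complex.sub_re, Complex.sub_im, sq_re, sq_im, Complex.one_re, Complex.one_im]
  ring

lemma own_m {t : RT} (ht : typA t = true) {z : ℂ} (hz : z ∈ Poly (vt t)) :
    ‖1 - z ^ 2‖ ^ 2 ≤ 525 / 1000 := by
  have h : polyOK 2000 0 1000 475 (vt t) = true := by
    revert ht; cases t <;> simp only [typA] <;> decide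
  have := poly_sound h hz
  rw [norm_one_sub_sq]
  simp only [quart, Int.cast_ofNat, Int.cast_zero] at this
  linarith only [this]

lemma own_a1 {t : RT} (ht : typA t = true) {z : ℂ} (hz : z ∈ Poly (vt t)) :
    24 / 100 ≤ px z - 7 / 10 * py z := by
  have := px_py_of (al := 1000) (be := -700) (ga := 240) (V := vt t) (by cases t <;> decide)
    (by revert ht; cases t <;> simp only [typA] <;> decide) hz
  push_cast at this
  linarith only [this]

lemma own_a2 {t : RT} (ht : typA t = true) {z : ℂ} (hz : z ∈ Poly (vt t)) :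
    64 / 100 ≤ px z - 3 / 10 * py z := by
  have := px_py_of (al := 1000) (be := -300) (ga := 640) (V := vt t) (by cases t <;> decide)
    (by revert ht; cases t <;> simp only [typA] <;> decide) hz
  push_cast at this
  linarith only [this]

lemma own_dir {t : RT} (ht : typA t = true) {z : ℂ} (hz : z ∈ Poly (vt t)) :
    57 / 10 / 41 ≤ dirN (z ^ 2) := by
  have h : polyOK 9000 40000 0 5700 (vt t) = true := by
    revert ht; cases t <;> simp only [typA] <;> decide
  have := poly_sound h hz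
  rw [dirN, sq_re, sq_im]
  simp only [quart, Int.cast_ofNat, Int.cast_zero] at this
  linarith only [this]

lemma own_s1 {t : RT} (ht : typS t = true ∨ t = .t3se) {z : ℂ} (hz : z ∈ Poly (vt t)) :
    91 / 100 ≤ px z + 5 / 100 * py z := by
  have := px_py_of (al := 1000) (be := 50) (ga := 910) (V := vt t) (by cases t <;> decide)
    (by revert ht; cases t <;> simp only [typS] <;> decide) hz
  push_cast at this
  linarith only [this]

lemma own_s2 {t : RT} (ht : typS t = true ∨ t = .t3se) {z : ℂ} (hz : z ∈ Poly (vt t)) :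
    1 ≤ px z + py z := by
  have := px_py_of (al := 1000) (be := 1000) (ga := 1000) (V := vt t) (by cases t <;> decide)
    (by revert ht; cases t <;> simp only [typS] <;> decide) hz
  push_cast at this
  linarith only [this]

lemma se_m {z : ℂ} (hz : z ∈ Poly (vt .t3se)) : ‖1 - z ^ 2‖ ^ 2 ≤ 833 / 1000 := by
  have h : polyOK 2000 0 1000 167 (vt .t3se) = true := by decide
  have := poly_sound h hz
  rw [norm_one_sub_sq]
  simp only [quart, Int.cast_ofNat, Int.cast_zero] at this
  linarith only [this]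

lemma se_dir {z : ℂ} (hz : z ∈ Poly (vt .t3se)) : 11 / 41 ≤ dirN (z ^ 2) := by
  have h : polyOK 9000 40000 0 11000 (vt .t3se) = true := by decide
  have := poly_sound h hz
  rw [dirN, sq_re, sq_im]
  simp only [quart, Int.cast_ofNat, Int.cast_zero] at this
  linarith only [this]

lemma ss_m {z : ℂ} (hz : z ∈ Poly (vt .t3ss)) : ‖1 - z ^ 2‖ ^ 2 ≤ 1200 / 1000 := by
  have h : polyOK 2000 0 1000 (-200) (vt .t3ss) = true := by decide
  have := poly_sound h hz
  rw [norm_one_sub_sq]
  simp only [quart, Int.cast_ofNat, Int.cast_zero, Int.cast_neg] at this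
  linarith only [this]

lemma ss_dir {z : ℂ} (hz : z ∈ Poly (vt .t3ss)) : 199 / 10 / 41 ≤ dirN (z ^ 2) := by
  have h : polyOK 9000 40000 0 19900 (vt .t3ss) = true := by decide
  have := poly_sound h hz
  rw [dirN, sq_re, sq_im]
  simp only [quart, Int.cast_ofNat, Int.cast_zero] at this
  linarith only [this]

lemma ss_1 {z : ℂ} (hz : z ∈ Poly (vt .t3ss)) : 65 / 100 ≤ px z + 3 / 10 * py z := by
  have := px_py_of (al := 1000) (be := 300) (ga := 650) (V := vt .t3ss) (by decide)
    (by decide) hz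
  push_cast at this
  linarith only [this]

lemma ss_2 {z : ℂ} (hz : z ∈ Poly (vt .t3ss)) : 141 / 100 ≤ px z + py z := by
  have := px_py_of (al := 1000) (be := 1000) (ga := 1410) (V := vt .t3ss) (by decide)
    (by decide) hz
  push_cast at this
  linarith only [this]

/-! ### from `tan` to `cos` -/

lemma cos_ne_of_n {w : ℂ} (h : 0 < (Complex.cos w).re ^ 2 + (Complex.cos w).im ^ 2) :
    Complex.cos w ≠ 0 := fun h0 => by
  rw [h0] at h
  simp at h

lemma tan_sq_eq (w : ℂ) :
    Complex.tan w ^ 2 = (1 - Complex.cos w ^ 2) / Complex.cos w ^ 2 := by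
  rw [Complex.tan, div_pow, ← Complex.sin_sq_add_cos_sq w]
  ring

lemma RR_sq_eq {w k : ℂ} (h : Complex.cos w ≠ 0) :
    RR w k ^ 2 = (Complex.cos w ^ 2)⁻¹ - 1 + (k ^ 2)⁻¹ := by
  rw [RR_sq, ZZ0, tan_sq_eq, sub_div, div_self (pow_ne_zero 2 h), one_div]

/-- the ports of opposite sign -/
lemma RR_a {w k : ℂ} (h : Complex.cos w ≠ 0) :
    (RR w k ^ 2).re = px (Complex.cos w) - 1 + px (starRingEnd ℂ k) ∧
      (RR w k ^ 2).im = -py (Complex.cos w) + py (starRingEnd ℂ k) := by
  have e : (k ^ 2)⁻¹ = starRingEnd ℂ (((starRingEnd ℂ k) ^ 2)⁻¹) := by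
    rw [map_inv₀, map_pow, Complex.conj_conj]
  rw [RR_sq_eq h, e]
  constructor
  · rw [Complex.add_re, Complex.sub_re, inv_sq_re, Complex.one_re, Complex.conj_re, inv_sq_re]
  · rw [Complex.add_im, Complex.sub_im, inv_sq_im, Complex.one_im, Complex.conj_im, inv_sq_im]
    ring

/-- the ports of equal sign -/
lemma RR_s {w k : ℂ} (h : Complex.cos w ≠ 0) :
    (RR w k ^ 2).re = px (Complex.cos w) - 1 + px k ∧
      (RR w k ^ 2).im = -py (Complex.cos w) - py k := by
  rw [RR_sq_eq h]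
  constructor
  · rw [Complex.add_re, Complex.sub_re, inv_sq_re, Complex.one_re, inv_sq_re]
  · rw [Complex.add_im, Complex.sub_im, inv_sq_im, Complex.one_im, inv_sq_im]
    ring

/-! ### the ports in the test direction -/

lemma port_a {t : RT} (ht : typA t = true) {w k : ℂ} (hw : Complex.cos w ∈ Poly (vt t))
    (hk : starRingEnd ℂ k ∈ Poly pA) (hR : 0 < (RR w k).re) :
    ‖1 - Complex.cos w ^ 2‖ * (1 / ‖RR w k‖) - 0 ≤ dirN (I / RR w k) := by
  have hc := cos_ne_of_n (own_n hw)
  obtain ⟨e1, e2⟩ := RR_a (k := k) hc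
  have h1 := own_a1 ht hw
  have h2 := own_a2 ht hw
  have h3 := pA_1 hk
  have h4 := pA_2 hk
  rw [sub_zero]
  exact port_A' (own_m ht hw) hR (low_of_sq hR (by rw [e1, e2]; linarith only [h1, h3]))
    (high_of_sq hR (by rw [e1, e2]; linarith only [h2, h4]))

lemma port_s {t : RT} (ht : typS t = true) {w k : ℂ} (hw : Complex.cos w ∈ Poly (vt t))
    (hk : k ∈ Poly pS) (hR : 0 < (RR w k).re) :
    ‖1 - Complex.cos w ^ 2‖ * (1 / ‖RR w k‖) - 27 / 100 ≤ dirN (I / RR w k) := by
  have hc := cos_ne_of_n (own_n hw)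
  obtain ⟨e1, e2⟩ := RR_s (k := k) hc
  have h1 := own_s1 (Or.inl ht) hw
  have h2 := own_s2 (Or.inl ht) hw
  have h3 := pS_1 hk
  have h4 := pS_2 hk
  have h5 := pS_y hk
  have h6 := own_y hw
  have hY := im_nonpos_of_sq hR (by rw [e2]; linarith only [h5, h6])
  have hlow := low51_of_sq hR (by rw [e1, e2]; linarith only [h1, h4])
  have hr : 816 / 1000 ≤ ‖RR w k‖ := norm_ge_of_sq (by rw [e1, e2]; norm_num; linarith only [h2, h3])
  have hm : ‖1 - Complex.cos w ^ 2‖ ≤ 725 / 1000 := by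
    apply le_of_sq_le_sq _ (by norm_num)
    have := own_m (typSA ht) hw
    norm_num at this ⊢
    linarith only [this]
  exact port_S' (RR_ne hR) (by norm_num) (sector_51 hR hlow hY) hr (by norm_num; linarith only [hm])

lemma port_se {w k : ℂ} (hw : Complex.cos w ∈ Poly (vt .t3se))
    (hk : k ∈ Poly pS) (hR : 0 < (RR w k).re) :
    ‖1 - Complex.cos w ^ 2‖ * (1 / ‖RR w k‖) - 1 / 2 ≤ dirN (I / RR w k) := by
  have hc := cos_ne_of_n (own_n hw)
  obtain ⟨e1, e2⟩ := RR_s (k := k) hc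
  have h1 := own_s1 (Or.inr rfl) hw
  have h2 := own_s2 (Or.inr rfl) hw
  have h3 := pS_1 hk
  have h4 := pS_2 hk
  have h5 := pS_y hk
  have h6 := own_y hw
  have hY := im_nonpos_of_sq hR (by rw [e2]; linarith only [h5, h6])
  have hlow := low51_of_sq hR (by rw [e1, e2]; linarith only [h1, h4])
  have hr : 816 / 1000 ≤ ‖RR w k‖ := norm_ge_of_sq (by rw [e1, e2]; norm_num; linarith only [h2, h3])
  have hm : ‖1 - Complex.cos w ^ 2‖ ≤ 913 / 1000 := by
    apply le_of_sq_le_sq _ (by norm_num)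
    have := se_m hw
    norm_num at this ⊢
    linarith only [this]
  exact port_S' (RR_ne hR) (by norm_num) (sector_51 hR hlow hY) hr (by norm_num; linarith only [hm])

lemma port_ss {w k : ℂ} (hw : Complex.cos w ∈ Poly (vt .t3ss))
    (hk : k ∈ Poly pS) (hR : 0 < (RR w k).re) :
    ‖1 - Complex.cos w ^ 2‖ * (1 / ‖RR w k‖) - 72 / 100 ≤ dirN (I / RR w k) := by
  have hc := cos_ne_of_n (own_n hw)
  obtain ⟨e1, e2⟩ := RR_s (k := k) hc
  have h1 := ss_1 hw
  have h2 := ss_2 hw
  have h3 := pS_1 hk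
  have h4 := pS_3 hk
  have h5 := pS_y hk
  have h6 := own_y hw
  have hY := im_nonpos_of_sq hR (by rw [e2]; linarith only [h5, h6])
  have hlow := low40_of_sq hR (by rw [e1, e2]; linarith only [h1, h4])
  have hr : 969 / 1000 ≤ ‖RR w k‖ := norm_ge_of_sq (by rw [e1, e2]; norm_num; linarith only [h2, h3])
  have hm : ‖1 - Complex.cos w ^ 2‖ ≤ 10955 / 10000 := by
    apply le_of_sq_le_sq _ (by norm_num)
    have := ss_m hw
    norm_num at this ⊢
    linarith only [this]
  exact port_S' (RR_ne hR) (by norm_num) (sector_40 hR hlow hY) hr (by norm_num; linarith only [hm])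

/-! ### the dominance, static cases -/

/-- the last inequality of `Ring1` -/
def Kap1 (b : ℝ) (w k : ℂ) : Prop :=
  ‖Complex.tan w ^ 2 / RR w k‖ < ‖(b : ℂ) + I * (1 / (Complex.cos w ^ 2 * RR w k))‖

/-- the last inequality of `Ring2` -/
def Kap2 (b : ℝ) (w k k' : ℂ) : Prop :=
  ‖Complex.tan w ^ 2 / RR w k‖ + ‖Complex.tan w ^ 2 / RR w k'‖ <
    ‖(b : ℂ) + I * (1 / (Complex.cos w ^ 2 * RR w k) + 1 / (Complex.cos w ^ 2 * RR w k'))‖

lemma Kap2.symm {b : ℝ} {w k k' : ℂ} (h : Kap2 b w k k') : Kap2 b w k' k := by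
  unfold Kap2 at *
  rw [add_comm, add_comm (1 / (Complex.cos w ^ 2 * RR w k'))]
  exact h

lemma kap2_of {b δ δ' : ℝ} {w k k' : ℂ} (hc : Complex.cos w ≠ 0) (hR : 0 < (RR w k).re)
    (hR' : 0 < (RR w k').re)
    (h1 : ‖1 - Complex.cos w ^ 2‖ * (1 / ‖RR w k‖) - δ ≤ dirN (I / RR w k))
    (h2 : ‖1 - Complex.cos w ^ 2‖ * (1 / ‖RR w k'‖) - δ' ≤ dirN (I / RR w k'))
    (hb : δ + δ' < b * dirN (Complex.cos w ^ 2)) : Kap2 b w k k' := by
  unfold Kap2
  rw [tan_sq_eq]
  exact dom_dir2 (pow_ne_zero 2 hc) (RR_ne hR) (RR_ne hR') h1 h2 hb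

lemma kap1_of {b δ : ℝ} {w k : ℂ} (hc : Complex.cos w ≠ 0) (hR : 0 < (RR w k).re)
    (h1 : ‖1 - Complex.cos w ^ 2‖ * (1 / ‖RR w k‖) - δ ≤ dirN (I / RR w k))
    (hb : δ < b * dirN (Complex.cos w ^ 2)) : Kap1 b w k := by
  unfold Kap1
  rw [tan_sq_eq]
  exact dom_dir1 (pow_ne_zero 2 hc) (RR_ne hR) h1 hb

/-- two neighbours of opposite sign -/
theorem kap_aa {t : RT} (ht : typA t = true) {b : ℝ} (hb : 3 ≤ b) {w k k' : ℂ}
    (hw : Complex.cos w ∈ Poly (vt t)) (hk : starRingEnd ℂ k ∈ Poly pA)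
    (hk' : starRingEnd ℂ k' ∈ Poly pA) (hR : 0 < (RR w k).re) (hR' : 0 < (RR w k').re) :
    Kap2 b w k k' := by
  have hd := own_dir ht hw
  refine kap2_of (cos_ne_of_n (own_n hw)) hR hR' (port_a ht hw hk hR) (port_a ht hw hk' hR') ?_
  nlinarith only [hb, hd]

/-- an end ring, the neighbour has the opposite sign -/
theorem kap_a {t : RT} (ht : typA t = true) {b : ℝ} (hb : 3 ≤ b) {w k : ℂ}
    (hw : Complex.cos w ∈ Poly (vt t)) (hk : starRingEnd ℂ k ∈ Poly pA) (hR : 0 < (RR w k).re) :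
    Kap1 b w k := by
  have hd := own_dir ht hw
  refine kap1_of (cos_ne_of_n (own_n hw)) hR (port_a ht hw hk hR) ?_
  nlinarith only [hb, hd]

/-- at least four crossings, neighbours of both signs -/
theorem kap_as4 {t : RT} (ht : typS t = true) {b : ℝ} (hb : 4 ≤ b) {w k k' : ℂ}
    (hw : Complex.cos w ∈ Poly (vt t)) (hk : starRingEnd ℂ k ∈ Poly pA)
    (hk' : k' ∈ Poly pS) (hR : 0 < (RR w k).re) (hR' : 0 < (RR w k').re) :
    Kap2 b w k k' := by
  have hd := own_dir (typSA ht) hw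
  refine kap2_of (cos_ne_of_n (own_n hw)) hR hR' (port_a (typSA ht) hw hk hR)
    (port_s ht hw hk' hR') ?_
  nlinarith only [hb, hd]

/-- at least four crossings, two neighbours of the same sign -/
theorem kap_ss4 {t : RT} (ht : typS t = true) {b : ℝ} (hb : 4 ≤ b) {w k k' : ℂ}
    (hw : Complex.cos w ∈ Poly (vt t)) (hk : k ∈ Poly pS)
    (hk' : k' ∈ Poly pS) (hR : 0 < (RR w k).re) (hR' : 0 < (RR w k').re) :
    Kap2 b w k k' := by
  have hd := own_dir (typSA ht) hw
  refine kap2_of (cos_ne_of_n (own_n hw)) hR hR' (port_s ht hw hk hR)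
    (port_s ht hw hk' hR') ?_
  nlinarith only [hb, hd]

/-- at least four crossings, end ring with a neighbour of the same sign -/
theorem kap_s4 {t : RT} (ht : typS t = true) {b : ℝ} (hb : 4 ≤ b) {w k : ℂ}
    (hw : Complex.cos w ∈ Poly (vt t)) (hk : k ∈ Poly pS) (hR : 0 < (RR w k).re) :
    Kap1 b w k := by
  have hd := own_dir (typSA ht) hw
  refine kap1_of (cos_ne_of_n (own_n hw)) hR (port_s ht hw hk hR) ?_
  nlinarith only [hb, hd]

/-- three crossings, two neighbours of the same sign -/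
theorem kap_ss3 {b : ℝ} (hb : 3 ≤ b) {w k k' : ℂ}
    (hw : Complex.cos w ∈ Poly (vt .t3ss)) (hk : k ∈ Poly pS)
    (hk' : k' ∈ Poly pS) (hR : 0 < (RR w k).re) (hR' : 0 < (RR w k').re) :
    Kap2 b w k k' := by
  have hd := ss_dir hw
  refine kap2_of (cos_ne_of_n (own_n hw)) hR hR' (port_ss hw hk hR)
    (port_ss hw hk' hR') ?_
  nlinarith only [hb, hd]

/-- three crossings, end ring with a neighbour of the same sign -/
theorem kap_s3 {b : ℝ} (hb : 3 ≤ b) {w k : ℂ}
    (hw : Complex.cos w ∈ Poly (vt .t3se)) (hk : k ∈ Poly pS) (hR : 0 < (RR w k).re) :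
    Kap1 b w k := by
  have hd := se_dir hw
  refine kap1_of (cos_ne_of_n (own_n hw)) hR (port_se hw hk hR) ?_
  nlinarith only [hb, hd]

end Pool.Agent.Work.MP_b30479_gt.G2.KB
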