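import Pool.Agent.Work.MP_b30479_gt.G2.ADat
import Pool.Agent.Work.MP_b30479_gt.TB.Asym

/-!
# The critical equations, exponentiated

`ctg w = cot π w`, `jj b = ± i`.  In a twist region with the parameter `q = 1 / cos² π ζ` the
derivative of the potential with respect to a hinge `w` is `log ((1 + cot² π w) / q - 1)`.
-/

namespace Pool.Agent.Work.MP_b30479_gt.G2

open Finset VOL Complex

/-! ### exponentials -/

/-- `i` times the sign of `b` -/
noncomputable def jj (b : ℤ) : ℂ := (if 0 < b then 1 else -1) * I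

theorem jj_sq (b : ℤ) : jj b * jj b = -1 := by
  unfold jj
  split_ifs
  · rw [one_mul, I_mul_I]
  · rw [mul_mul_mul_comm, I_mul_I]
    norm_num

theorem jj_ne (b : ℤ) : jj b ≠ 0 := by
  intro h
  have := jj_sq b
  rw [h, mul_zero] at this
  norm_num at this

theorem un_eq (b : ℤ) : un b = jj b * (Real.pi / 2) := by
  unfold un jj
  ring

/-- `e^{± π i x}` -/
noncomputable def ex (b : ℤ) (x : ℂ) : ℂ := cexp (jj b * (Real.pi * x))

theorem ex_ne (b : ℤ) (x : ℂ) : ex b x ≠ 0 := Complex.exp_ne_zero _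

theorem ex_add (b : ℤ) (x y : ℂ) : ex b (x + y) = ex b x * ex b y := by
  unfold ex
  rw [← Complex.exp_add]
  congr 1
  ring

theorem ex_neg (b : ℤ) (x : ℂ) : ex b (-x) = (ex b x)⁻¹ := by
  unfold ex
  rw [← Complex.exp_neg]
  congr 1
  ring

theorem ex_sub (b : ℤ) (x y : ℂ) : ex b (x - y) = ex b x / ex b y := by
  rw [sub_eq_add_neg, ex_add, ex_neg, div_eq_mul_inv]

theorem ex_half (b : ℤ) : ex b (1 / 2) = jj b := by
  unfold ex jj
  split_ifs
  · rw [show (1 : ℂ) * I * (Real.pi * (1 / 2)) = Real.pi / 2 * I by ring,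
      Complex.exp_pi_div_two_mul_I, one_mul]
  · rw [show (-1 : ℂ) * I * (Real.pi * (1 / 2)) = -(Real.pi / 2 * I) by ring, Complex.exp_neg,
      Complex.exp_pi_div_two_mul_I, Complex.inv_I]
    ring

theorem ex_one (b : ℤ) : ex b 1 = -1 := by
  have h := ex_add b (1 / 2) (1 / 2)
  rw [ex_half, jj_sq] at h
  rw [← h]
  norm_num

theorem two_cos_eq (b : ℤ) (x : ℂ) : 2 * Complex.cos (Real.pi * x) = ex b x + (ex b x)⁻¹ := by
  rw [← ex_neg]
  unfold ex jj
  split_ifs
  · rw [Complex.cos, show (1 : ℂ) * I * (Real.pi * x) = Real.pi * x * I by ring,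
      show (1 : ℂ) * I * (Real.pi * -x) = -(Real.pi * x) * I by ring]
    ring
  · rw [Complex.cos, show (-1 : ℂ) * I * (Real.pi * x) = -(Real.pi * x) * I by ring,
      show (-1 : ℂ) * I * (Real.pi * -x) = Real.pi * x * I by ring]
    ring

theorem two_sin_eq (b : ℤ) (x : ℂ) :
    2 * Complex.sin (Real.pi * x) = -jj b * (ex b x - (ex b x)⁻¹) := by
  rw [← ex_neg]
  unfold ex jj
  split_ifs
  · rw [Complex.sin, show (1 : ℂ) * I * (Real.pi * x) = Real.pi * x * I by ring,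
      show (1 : ℂ) * I * (Real.pi * -x) = -(Real.pi * x) * I by ring]
    ring
  · rw [Complex.sin, show (-1 : ℂ) * I * (Real.pi * x) = -(Real.pi * x) * I by ring,
      show (-1 : ℂ) * I * (Real.pi * -x) = Real.pi * x * I by ring]
    ring

/-- the cotangent of `π w` -/
noncomputable def ctg (w : ℂ) : ℂ := Complex.cos (Real.pi * w) / Complex.sin (Real.pi * w)

theorem sin_strip_ne {w : ℂ} (hw : w ∈ strip) : Complex.sin (Real.pi * w) ≠ 0 := by
  have h := exp_ph hw
  intro h0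
  rw [h0, mul_zero] at h
  exact Complex.exp_ne_zero _ h

theorem ex_sq_ne {b : ℤ} {w : ℂ} (hw : w ∈ strip) : ex b w ^ 2 - 1 ≠ 0 := by
  have h := sin_strip_ne hw
  intro h0
  apply h
  have h1 := two_sin_eq b w
  have h2 : ex b w - (ex b w)⁻¹ = (ex b w ^ 2 - 1) * (ex b w)⁻¹ := by
    have := ex_ne b w
    field_simp
  rw [h2, h0, zero_mul, mul_zero] at h1
  simpa using h1

theorem ctg_eq {b : ℤ} {w : ℂ} (hw : w ∈ strip) :
    ctg w = jj b * (ex b w ^ 2 + 1) / (ex b w ^ 2 - 1) := by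
  have h1 := two_cos_eq b w
  have h2 := two_sin_eq b w
  have h3 := ex_sq_ne (b := b) hw
  have h4 := ex_ne b w
  have h5 := sin_strip_ne hw
  have h6 := jj_sq b
  unfold ctg
  rw [div_eq_div_iff h5 h3]
  have e1 : Complex.cos (Real.pi * w) = (ex b w ^ 2 + 1) * (ex b w)⁻¹ / 2 := by
    have : (ex b w ^ 2 + 1) * (ex b w)⁻¹ = ex b w + (ex b w)⁻¹ := by field_simp
    rw [this, ← h1]
    ring
  have e2 : Complex.sin (Real.pi * w) = -jj b * ((ex b w ^ 2 - 1) * (ex b w)⁻¹) / 2 := by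
    have : (ex b w ^ 2 - 1) * (ex b w)⁻¹ = ex b w - (ex b w)⁻¹ := by field_simp
    rw [this, ← h2]
    ring
  rw [e1, e2]
  linear_combination ((ex b w ^ 2 + 1) * (ex b w ^ 2 - 1) * (ex b w)⁻¹ / 2) * h6

theorem ctg_add {b : ℤ} {w : ℂ} (hw : w ∈ strip) :
    ctg w + jj b = 2 * jj b * ex b w ^ 2 / (ex b w ^ 2 - 1) := by
  have h3 := ex_sq_ne (b := b) hw
  rw [ctg_eq hw (b := b)]
  field_simp
  ring

theorem ctg_sub {b : ℤ} {w : ℂ} (hw : w ∈ strip) :
    ctg w - jj b = 2 * jj b / (ex b w ^ 2 - 1) := by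
  have h3 := ex_sq_ne (b := b) hw
  rw [ctg_eq hw (b := b)]
  field_simp
  ring

theorem ctg_add_ne {b : ℤ} {w : ℂ} (hw : w ∈ strip) : ctg w + jj b ≠ 0 := by
  rw [ctg_add hw]
  exact div_ne_zero (mul_ne_zero (mul_ne_zero two_ne_zero (jj_ne b)) (pow_ne_zero 2 (ex_ne b w)))
    (ex_sq_ne hw)

theorem one_sub_strip {w : ℂ} (hw : w ∈ strip) : 1 - w ∈ strip := by
  refine ⟨?_, ?_⟩
  · have := hw.2
    rw [sub_re, one_re]
    linarith only [this]
  · have := hw.1
    rw [sub_re, one_re]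
    linarith only [this]

theorem exp_ph_one_sub {w : ℂ} (hw : w ∈ strip) :
    cexp (ph (1 - w)) = 2 * Complex.sin (Real.pi * w) := by
  rw [exp_ph (one_sub_strip hw), mul_sub, mul_one, Complex.sin_pi_sub]

theorem one_add_ctg_sq {b : ℤ} {w : ℂ} (hw : w ∈ strip) :
    1 + ctg w ^ 2 = -4 * ex b w ^ 2 / (ex b w ^ 2 - 1) ^ 2 := by
  have h3 := ex_sq_ne (b := b) hw
  have e : 1 + ctg w ^ 2 = (ctg w + jj b) * (ctg w - jj b) := by
    linear_combination jj_sq b
  rw [e, ctg_add hw, ctg_sub hw]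
  field_simp
  linear_combination (4 * ex b w ^ 2) * jj_sq b

theorem eq_zero_of_exp {z : ℂ} (h : cexp z = 1) (h2 : |z.im| < 2 * Real.pi) : z = 0 := by
  obtain ⟨n, hn⟩ := Complex.exp_eq_one_iff.1 h
  have hpi := Real.pi_pos
  have him : z.im = n * (2 * Real.pi) := by
    rw [hn]
    simp
  rw [him, abs_mul, abs_of_pos (by positivity : 0 < 2 * Real.pi)] at h2
  have h3 : |(n : ℝ)| < 1 := by
    by_contra h4
    push Not at h4
    nlinarith only [h2, hpi, h4]
  have h4 : n = 0 := by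
    rw [← Int.cast_abs] at h3
    have : |n| < 1 := by exact_mod_cast h3
    exact Int.abs_lt_one_iff.1 this
  rw [hn, h4]
  simp

theorem ph_im_lt {z : ℂ} (hz : z ∈ strip) : |(ph z).im| < Real.pi / 2 := by
  unfold ph
  rw [Complex.log_im]
  apply Complex.abs_arg_lt_pi_div_two_iff.2
  left
  have h1 : (2 * Complex.sin (Real.pi * z)).re = 2 * (Complex.sin (Real.pi * z)).re := by simp
  rw [h1, sin_pi_re]
  have h2 := VOL.sin_pi_pos hz.1 hz.2
  have h3 := Real.cosh_pos (Real.pi * z.im)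
  positivity

/-- sines through exponentials -/
theorem sin_ratio {b : ℤ} {u v : ℂ} (hv : v ∈ strip) :
    2 * Complex.sin (Real.pi * u) / (2 * Complex.sin (Real.pi * v)) =
      (ex b u ^ 2 - 1) * ex b v / ((ex b v ^ 2 - 1) * ex b u) := by
  have h1 := ex_ne b u
  have h2 := ex_ne b v
  have h3 := ex_sq_ne (b := b) hv
  have h4 := jj_ne b
  have e1 : ex b u - (ex b u)⁻¹ = (ex b u ^ 2 - 1) / ex b u := by field_simp
  have e2 : ex b v - (ex b v)⁻¹ = (ex b v ^ 2 - 1) / ex b v := by field_simp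
  rw [two_sin_eq b u, two_sin_eq b v, e1, e2]
  field_simp

/-- the value of a side -/
def Side (t : Typ) (b : ℤ) (l r : Bool) (x : Fin 3 → ℂ) (q : ℂ) : Prop :=
  (l = true → cexp (ldT t b l r x 0) = (1 + ctg (x 0) ^ 2) / q - 1) ∧
    (r = true → cexp (ldT t b l r x 2) = (1 + ctg (x 2) ^ 2) / q - 1)

/-! ### one crossing -/

section
variable {b : ℤ} {x : Fin 3 → ℂ}

theorem ldT_one_zero (r : Bool) : ldT .one b true r x 0 =
    jj b * (Real.pi * (1 - x 2)) + ph (x 0 + x 2) - ph (1 - x 0) := by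
  have e : ldT .one b true r x 0 = un b * (-(2 * x 2) + 2) + (ph (x 0 + x 2) - ph (1 - x 0)) := by
    cases r <;> simp [ldT, facs, qq2, rr1, Fac.form, Fin.sum_univ_three] <;> ring_nf
  rw [e, un_eq]
  ring

theorem ldT_one_two (l : Bool) : ldT .one b l true x 2 =
    jj b * (Real.pi * (1 - x 0)) + ph (x 0 + x 2) - ph (1 - x 2) := by
  have e : ldT .one b l true x 2 = un b * (-(2 * x 0) + 2) + (ph (x 0 + x 2) - ph (1 - x 2)) := by
    cases l <;> simp [ldT, facs, qq2, rr1, Fac.form, Fin.sum_univ_three] <;> ring_nf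
  rw [e, un_eq]
  ring

theorem side_one {q : ℂ} (h0 : x 0 ∈ strip) (h2 : x 2 ∈ strip) (h02 : x 0 + x 2 ∈ strip)
    (hq : q = -((ctg (x 0) + jj b) * (ctg (x 2) + jj b))) : Side .one b true true x q := by
  have a0 := ex_ne b (x 0)
  have a2 := ex_ne b (x 2)
  have s0 := ex_sq_ne (b := b) h0
  have s2 := ex_sq_ne (b := b) h2
  have hj := jj_ne b
  have hj2 := jj_sq b
  have hq' : q = 4 * ex b (x 0) ^ 2 * ex b (x 2) ^ 2 / ((ex b (x 0) ^ 2 - 1) * (ex b (x 2) ^ 2 - 1)) := by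
    rw [hq, ctg_add h0, ctg_add h2]
    field_simp
    linear_combination (-4 : ℂ) * hj2
  refine ⟨fun _ => ?_, fun _ => ?_⟩
  · have e : cexp (ldT .one b true true x 0) = ex b (1 - x 2) *
        (2 * Complex.sin (Real.pi * (x 0 + x 2)) / (2 * Complex.sin (Real.pi * x 0))) := by
      rw [ldT_one_zero, Complex.exp_sub, Complex.exp_add, exp_ph h02, exp_ph_one_sub h0, mul_div_assoc]
      rfl
    rw [e, sin_ratio (b := b) h0, ex_sub, ex_one, ex_add, one_add_ctg_sq (b := b) h0, hq']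
    field_simp
    ring
  · have e : cexp (ldT .one b true true x 2) = ex b (1 - x 0) *
        (2 * Complex.sin (Real.pi * (x 0 + x 2)) / (2 * Complex.sin (Real.pi * x 2))) := by
      rw [ldT_one_two, Complex.exp_sub, Complex.exp_add, exp_ph h02, exp_ph_one_sub h2, mul_div_assoc]
      rfl
    rw [e, sin_ratio (b := b) h2, ex_sub, ex_one, ex_add, one_add_ctg_sq (b := b) h2, hq']
    field_simp
    ring

/-! ### two crossings -/

theorem ldT_two_zero (r : Bool) : ldT .two b true r x 0 =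
    jj b * (Real.pi * (x 0 - x 2 + 1 / 2)) + ph (x 0 + x 2) - ph (1 - x 0) - ph (1 - x 0) := by
  have e : ldT .two b true r x 0 = un b * (2 * x 0 - 2 * x 2 + 1) +
      (ph (x 0 + x 2) - 2 * ph (1 - x 0)) := by
    cases r <;> simp [ldT, facs, hL, hR, qq2, rr1, Fac.form, Fin.sum_univ_three] <;> ring_nf
  rw [e, un_eq]
  ring

theorem ldT_two_two (l : Bool) : ldT .two b l true x 2 =
    jj b * (Real.pi * (x 2 - x 0 + 1 / 2)) + ph (x 0 + x 2) - ph (1 - x 2) - ph (1 - x 2) := by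
  have e : ldT .two b l true x 2 = un b * (2 * x 2 - 2 * x 0 + 1) +
      (ph (x 0 + x 2) - 2 * ph (1 - x 2)) := by
    cases l <;> simp [ldT, facs, hL, hR, qq2, rr1, Fac.form, Fin.sum_univ_three] <;> ring_nf
  rw [e, un_eq]
  ring

/-- `1 / (2 sin π v)` through exponentials -/
theorem inv_two_sin {b : ℤ} {v : ℂ} (hv : v ∈ strip) :
    (2 * Complex.sin (Real.pi * v))⁻¹ = jj b * ex b v / (ex b v ^ 2 - 1) := by
  have h2 := ex_ne b v
  have h3 := ex_sq_ne (b := b) hv
  have h4 := jj_ne b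
  have hj2 := jj_sq b
  have e2 : ex b v - (ex b v)⁻¹ = (ex b v ^ 2 - 1) / ex b v := by field_simp
  rw [two_sin_eq b v, e2]
  rw [inv_eq_one_div, div_eq_div_iff (by
    apply mul_ne_zero (neg_ne_zero.2 h4)
    exact div_ne_zero h3 h2) h3]
  field_simp
  linear_combination hj2

/-- the relation of a twist region with two crossings, through exponentials -/
theorem two_rel {b : ℤ} {w w' q : ℂ} (h0 : w ∈ strip) (h2 : w' ∈ strip)
    (hq : q * (ctg w + ctg w' + 2 * jj b) = -2 * jj b * ((ctg w + jj b) * (ctg w' + jj b))) :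
    q * (2 * ex b w ^ 2 * ex b w' ^ 2 - ex b w ^ 2 - ex b w' ^ 2) =
      4 * ex b w ^ 2 * ex b w' ^ 2 := by
  have s0 := ex_sq_ne (b := b) h0
  have s2 := ex_sq_ne (b := b) h2
  have hj := jj_ne b
  have hj2 := jj_sq b
  have e1 : ctg w + ctg w' + 2 * jj b = (ctg w + jj b) + (ctg w' + jj b) := by ring
  rw [e1, ctg_add h0, ctg_add h2] at hq
  have e2 : q * (2 * jj b * ex b w ^ 2 / (ex b w ^ 2 - 1) + 2 * jj b * ex b w' ^ 2 / (ex b w' ^ 2 - 1)) *
      ((ex b w ^ 2 - 1) * (ex b w' ^ 2 - 1)) =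
      2 * jj b * (q * (2 * ex b w ^ 2 * ex b w' ^ 2 - ex b w ^ 2 - ex b w' ^ 2)) := by
    field_simp
    ring
  have e3 : -2 * jj b * (2 * jj b * ex b w ^ 2 / (ex b w ^ 2 - 1) *
      (2 * jj b * ex b w' ^ 2 / (ex b w' ^ 2 - 1))) * ((ex b w ^ 2 - 1) * (ex b w' ^ 2 - 1)) =
      2 * jj b * (4 * ex b w ^ 2 * ex b w' ^ 2) := by
    field_simp
    linear_combination (-4 * ex b w ^ 2 * ex b w' ^ 2) * hj2
  have e4 : 2 * jj b * (q * (2 * ex b w ^ 2 * ex b w' ^ 2 - ex b w ^ 2 - ex b w' ^ 2)) =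
      2 * jj b * (4 * ex b w ^ 2 * ex b w' ^ 2) := by
    rw [← e2, ← e3, hq]
  exact mul_left_cancel₀ (mul_ne_zero two_ne_zero hj) e4

theorem side_two {q : ℂ} (hq0 : q ≠ 0) (h0 : x 0 ∈ strip) (h2 : x 2 ∈ strip)
    (h02 : x 0 + x 2 ∈ strip)
    (hq : q * (ctg (x 0) + ctg (x 2) + 2 * jj b) =
      -2 * jj b * ((ctg (x 0) + jj b) * (ctg (x 2) + jj b))) : Side .two b true true x q := by
  have a0 := ex_ne b (x 0)
  have a2 := ex_ne b (x 2)
  have s0 := ex_sq_ne (b := b) h0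
  have s2 := ex_sq_ne (b := b) h2
  have hj := jj_ne b
  have hj2 := jj_sq b
  have hq' := two_rel h0 h2 hq
  refine ⟨fun _ => ?_, fun _ => ?_⟩
  · have e : cexp (ldT .two b true true x 0) = ex b (x 0 - x 2 + 1 / 2) *
        (2 * Complex.sin (Real.pi * (x 0 + x 2)) / (2 * Complex.sin (Real.pi * x 0))) *
        (2 * Complex.sin (Real.pi * x 0))⁻¹ := by
      rw [ldT_two_zero, Complex.exp_sub, Complex.exp_sub, Complex.exp_add, exp_ph h02,
        exp_ph_one_sub h0, mul_div_assoc, div_eq_mul_inv (_ * _) (2 * Complex.sin (Real.pi * x 0))]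
      rfl
    rw [e, sin_ratio (b := b) h0, ex_add b (x 0 - x 2), ex_sub, ex_half, ex_add, inv_two_sin (b := b) h0,
      one_add_ctg_sq (b := b) h0]
    field_simp
    linear_combination (ex b (x 0) ^ 2 * (ex b (x 0) ^ 2 * ex b (x 2) ^ 2 - 1) * q) * hj2 - hq'
  · have e : cexp (ldT .two b true true x 2) = ex b (x 2 - x 0 + 1 / 2) *
        (2 * Complex.sin (Real.pi * (x 0 + x 2)) / (2 * Complex.sin (Real.pi * x 2))) *
        (2 * Complex.sin (Real.pi * x 2))⁻¹ := by
      rw [ldT_two_two, Complex.exp_sub, Complex.exp_sub, Complex.exp_add, exp_ph h02,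
        exp_ph_one_sub h2, mul_div_assoc, div_eq_mul_inv (_ * _) (2 * Complex.sin (Real.pi * x 2))]
      rfl
    rw [e, sin_ratio (b := b) h2, ex_add b (x 2 - x 0), ex_sub, ex_half, ex_add, inv_two_sin (b := b) h2,
      one_add_ctg_sq (b := b) h2]
    field_simp
    linear_combination (ex b (x 2) ^ 2 * (ex b (x 2) ^ 2 * ex b (x 0) ^ 2 - 1) * q) * hj2 - hq'

/-- an end region with two crossings, at the right end -/
theorem side_two_right {q : ℂ} (hx : x 2 = 0) (h0 : x 0 ∈ strip)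
    (hq : q = -2 * jj b * (ctg (x 0) + jj b)) : Side .two b true false x q := by
  have a0 := ex_ne b (x 0)
  have s0 := ex_sq_ne (b := b) h0
  have hj := jj_ne b
  have hj2 := jj_sq b
  have hq' : q = 4 * ex b (x 0) ^ 2 / (ex b (x 0) ^ 2 - 1) := by
    rw [hq, ctg_add h0]
    field_simp
    linear_combination (-4 : ℂ) * hj2
  refine ⟨fun _ => ?_, fun h => absurd h (by decide)⟩
  have e : cexp (ldT .two b true false x 0) = ex b (x 0 + 1 / 2) *
      (2 * Complex.sin (Real.pi * x 0))⁻¹ := by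
    have hs := sin_strip_ne h0
    rw [ldT_two_zero, hx, sub_zero, add_zero, Complex.exp_sub, Complex.exp_sub, Complex.exp_add,
      exp_ph h0, exp_ph_one_sub h0]
    unfold ex
    field_simp
  rw [e, ex_add, ex_half, inv_two_sin (b := b) h0, one_add_ctg_sq (b := b) h0, hq']
  field_simp
  linear_combination (ex b (x 0) ^ 2) * hj2

/-- an end region with two crossings, at the left end -/
theorem side_two_left {q : ℂ} (hx : x 0 = 0) (h2 : x 2 ∈ strip)
    (hq : q = -2 * jj b * (ctg (x 2) + jj b)) : Side .two b false true x q := by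
  have a0 := ex_ne b (x 2)
  have s0 := ex_sq_ne (b := b) h2
  have hj := jj_ne b
  have hj2 := jj_sq b
  have hq' : q = 4 * ex b (x 2) ^ 2 / (ex b (x 2) ^ 2 - 1) := by
    rw [hq, ctg_add h2]
    field_simp
    linear_combination (-4 : ℂ) * hj2
  refine ⟨fun h => absurd h (by decide), fun _ => ?_⟩
  have e : cexp (ldT .two b false true x 2) = ex b (x 2 + 1 / 2) *
      (2 * Complex.sin (Real.pi * x 2))⁻¹ := by
    have hs := sin_strip_ne h2
    rw [ldT_two_two, hx, sub_zero, zero_add, Complex.exp_sub, Complex.exp_sub, Complex.exp_add,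
      exp_ph h2, exp_ph_one_sub h2]
    unfold ex
    field_simp
  rw [e, ex_add, ex_half, inv_two_sin (b := b) h2, one_add_ctg_sq (b := b) h2, hq']
  field_simp
  linear_combination (ex b (x 2) ^ 2) * hj2

/-! ### three crossings -/

theorem ldT_threeL_zero (r : Bool) : ldT .threeL b true r x 0 =
    jj b * (Real.pi * x 1) + ph (1 - (x 1 - x 0)) - ph (1 - x 0) := by
  have e : ldT .threeL b true r x 0 = un b * (2 * x 1) +
      (ph (1 - (x 1 - x 0)) - ph (1 - x 0)) := by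
    cases r <;> simp [ldT, facs, hR, qq2, rr1, Fac.form, Fin.sum_univ_three] <;> ring_nf
  rw [e, un_eq]
  ring

theorem ldT_threeL_one (l r : Bool) : ldT .threeL b l r x 1 =
    jj b * (Real.pi * (x 0 + x 1 - x 2 - 1 / 2)) + ph (x 1 + x 2) - ph (1 - (x 1 - x 0)) -
      ph (1 - x 1) := by
  have e : ldT .threeL b l r x 1 = un b * (2 * x 0 + 2 * x 1 - 2 * x 2 - 1) +
      (ph (x 1 + x 2) - ph (1 - (x 1 - x 0)) - ph (1 - x 1)) := by
    cases l <;> cases r <;> simp [ldT, facs, hR, qq2, rr1, Fac.form, Fin.sum_univ_three] <;> ring_nf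
  rw [e, un_eq]
  ring

theorem ldT_threeL_two (l : Bool) : ldT .threeL b l true x 2 =
    jj b * (Real.pi * (x 2 - x 1 + 1 / 2)) + ph (x 1 + x 2) - ph (1 - x 2) - ph (1 - x 2) := by
  have e : ldT .threeL b l true x 2 = un b * (2 * x 2 - 2 * x 1 + 1) +
      (ph (x 1 + x 2) - 2 * ph (1 - x 2)) := by
    cases l <;> simp [ldT, facs, hR, qq2, rr1, Fac.form, Fin.sum_univ_three] <;> ring_nf
  rw [e, un_eq]
  ring

theorem ex_sub_sq_ne {b : ℤ} {u v : ℂ} (h : u - v ∈ strip) : ex b u ^ 2 - ex b v ^ 2 ≠ 0 := by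
  have h1 := ex_sq_ne (b := b) h
  have h2 := ex_ne b v
  rw [ex_sub] at h1
  intro h3
  apply h1
  rw [div_pow, div_sub_one (pow_ne_zero 2 h2), h3, zero_div]

/-- the relation between the outer hinge and the inner variable -/
theorem mid_rel {b : ℤ} {w l q : ℂ} (h0 : w ∈ strip) (h1 : l ∈ strip)
    (hq : (ctg l - jj b) * (ctg w + jj b) = q) :
    q = -4 * ex b w ^ 2 / ((ex b l ^ 2 - 1) * (ex b w ^ 2 - 1)) := by
  have s0 := ex_sq_ne (b := b) h0
  have s1 := ex_sq_ne (b := b) h1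
  have hj2 := jj_sq b
  rw [← hq, ctg_add h0, ctg_sub h1]
  field_simp
  linear_combination (4 * ex b w ^ 2) * hj2

theorem side_threeL {q : ℂ} (h0 : x 0 ∈ strip) (h1 : x 1 ∈ strip) (h2 : x 2 ∈ strip)
    (h10 : x 1 - x 0 ∈ strip) (h12 : x 1 + x 2 ∈ strip)
    (hq1 : (ctg (x 1) - jj b) * (ctg (x 0) + jj b) = q)
    (hq2 : q * (ctg (x 1) + ctg (x 2) + 2 * jj b) =
      -2 * jj b * ((ctg (x 1) + jj b) * (ctg (x 2) + jj b))) :
    Side .threeL b true true x q ∧ cexp (ldT .threeL b true true x 1) = 1 := by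
  have a0 := ex_ne b (x 0)
  have a1 := ex_ne b (x 1)
  have a2 := ex_ne b (x 2)
  have s0 := ex_sq_ne (b := b) h0
  have s1 := ex_sq_ne (b := b) h1
  have s2 := ex_sq_ne (b := b) h2
  have s10 := ex_sub_sq_ne (b := b) h10
  have hj := jj_ne b
  have hj2 := jj_sq b
  have hr1 := mid_rel h0 h1 hq1
  have hr2 := two_rel h1 h2 hq2
  have hr2' : -(ex b (x 0) ^ 2) * (2 * ex b (x 1) ^ 2 * ex b (x 2) ^ 2 - ex b (x 1) ^ 2 - ex b (x 2) ^ 2) =
      ex b (x 1) ^ 2 * ex b (x 2) ^ 2 * ((ex b (x 1) ^ 2 - 1) * (ex b (x 0) ^ 2 - 1)) := by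
    rw [hr1] at hr2
    field_simp at hr2
    linear_combination hr2
  refine ⟨⟨fun _ => ?_, fun _ => ?_⟩, ?_⟩
  · have e : cexp (ldT .threeL b true true x 0) = ex b (x 1) *
        (2 * Complex.sin (Real.pi * (x 1 - x 0)) / (2 * Complex.sin (Real.pi * x 0))) := by
      rw [ldT_threeL_zero, Complex.exp_sub, Complex.exp_add, exp_ph_one_sub h10, exp_ph_one_sub h0,
        mul_div_assoc]
      rfl
    rw [e, sin_ratio (b := b) h0, ex_sub, one_add_ctg_sq (b := b) h0, hr1]
    field_simp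
    ring
  · have e : cexp (ldT .threeL b true true x 2) = ex b (x 2 - x 1 + 1 / 2) *
        (2 * Complex.sin (Real.pi * (x 1 + x 2)) / (2 * Complex.sin (Real.pi * x 2))) *
        (2 * Complex.sin (Real.pi * x 2))⁻¹ := by
      rw [ldT_threeL_two, Complex.exp_sub, Complex.exp_sub, Complex.exp_add, exp_ph h12,
        exp_ph_one_sub h2, mul_div_assoc, div_eq_mul_inv (_ * _) (2 * Complex.sin (Real.pi * x 2))]
      rfl
    have hq0 : q ≠ 0 := by
      rw [hr1]
      exact div_ne_zero (mul_ne_zero (by norm_num) (pow_ne_zero 2 a0)) (mul_ne_zero s1 s0)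
    rw [e, sin_ratio (b := b) h2, ex_add b (x 2 - x 1), ex_sub, ex_half, ex_add, inv_two_sin (b := b) h2,
      one_add_ctg_sq (b := b) h2]
    field_simp
    linear_combination (ex b (x 2) ^ 2 * (ex b (x 2) ^ 2 * ex b (x 1) ^ 2 - 1) * q) * hj2 - hr2
  · have e : cexp (ldT .threeL b true true x 1) = ex b (x 0 + x 1 - x 2 - 1 / 2) *
        (2 * Complex.sin (Real.pi * (x 1 + x 2)) / (2 * Complex.sin (Real.pi * (x 1 - x 0)))) *
        (2 * Complex.sin (Real.pi * x 1))⁻¹ := by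
      rw [ldT_threeL_one, Complex.exp_sub, Complex.exp_sub, Complex.exp_add, exp_ph h12,
        exp_ph_one_sub h10, exp_ph_one_sub h1, mul_div_assoc,
        div_eq_mul_inv (_ * _) (2 * Complex.sin (Real.pi * x 1))]
      rfl
    have s10' : (ex b (x 1) / ex b (x 0)) ^ 2 - 1 ≠ 0 := by
      have := ex_sq_ne (b := b) h10
      rwa [ex_sub] at this
    rw [e, sin_ratio (b := b) h10, ex_sub b _ (1 / 2), ex_sub b (x 0 + x 1), ex_sub b (x 1) (x 0), ex_half,
      ex_add, ex_add, inv_two_sin (b := b) h1]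
    have e3 : (ex b (x 1) / ex b (x 0)) ^ 2 - 1 = (ex b (x 1) ^ 2 - ex b (x 0) ^ 2) / ex b (x 0) ^ 2 := by
      field_simp
    rw [e3]
    field_simp
    linear_combination -hr2'

/-- three crossings at the right end -/
theorem side_three_right {q : ℂ} (hx : x 2 = 0) (h0 : x 0 ∈ strip) (h1 : x 1 ∈ strip)
    (h10 : x 1 - x 0 ∈ strip) (hq1 : (ctg (x 1) - jj b) * (ctg (x 0) + jj b) = q)
    (hq2 : q = -2 * jj b * (ctg (x 1) + jj b)) :
    Side .threeL b true false x q ∧ cexp (ldT .threeL b true false x 1) = 1 := by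
  have a0 := ex_ne b (x 0)
  have a1 := ex_ne b (x 1)
  have s0 := ex_sq_ne (b := b) h0
  have s1 := ex_sq_ne (b := b) h1
  have s10 := ex_sub_sq_ne (b := b) h10
  have hj := jj_ne b
  have hj2 := jj_sq b
  have hr1 := mid_rel h0 h1 hq1
  have hr2 : q = 4 * ex b (x 1) ^ 2 / (ex b (x 1) ^ 2 - 1) := by
    rw [hq2, ctg_add h1]
    field_simp
    linear_combination (-4 : ℂ) * hj2
  have hr2' : -(ex b (x 0) ^ 2) = ex b (x 1) ^ 2 * (ex b (x 0) ^ 2 - 1) := by
    rw [hr1] at hr2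
    field_simp at hr2
    linear_combination hr2
  refine ⟨⟨fun _ => ?_, fun h => absurd h (by decide)⟩, ?_⟩
  · have e : cexp (ldT .threeL b true false x 0) = ex b (x 1) *
        (2 * Complex.sin (Real.pi * (x 1 - x 0)) / (2 * Complex.sin (Real.pi * x 0))) := by
      rw [ldT_threeL_zero, Complex.exp_sub, Complex.exp_add, exp_ph_one_sub h10, exp_ph_one_sub h0,
        mul_div_assoc]
      rfl
    rw [e, sin_ratio (b := b) h0, ex_sub, one_add_ctg_sq (b := b) h0, hr1]
    field_simp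
    ring
  · have e : cexp (ldT .threeL b true false x 1) = ex b (x 0 + x 1 - 1 / 2) *
        (2 * Complex.sin (Real.pi * (x 1 - x 0)))⁻¹ := by
      have hs := sin_strip_ne h1
      rw [ldT_threeL_one, hx, sub_zero, add_zero, Complex.exp_sub, Complex.exp_sub, Complex.exp_add,
        exp_ph h1, exp_ph_one_sub h10, exp_ph_one_sub h1]
      unfold ex
      field_simp
    rw [e, inv_two_sin (b := b) h10, ex_sub b _ (1 / 2), ex_sub b (x 1) (x 0), ex_half, ex_add]
    have e3 : (ex b (x 1) / ex b (x 0)) ^ 2 - 1 = (ex b (x 1) ^ 2 - ex b (x 0) ^ 2) / ex b (x 0) ^ 2 := by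
      field_simp
    rw [e3]
    field_simp
    linear_combination -hr2'

theorem ldT_threeR_zero (r : Bool) : ldT .threeR b true r x 0 =
    jj b * (Real.pi * (x 0 - x 1 + 1 / 2)) + ph (x 0 + x 1) - ph (1 - x 0) - ph (1 - x 0) := by
  have e : ldT .threeR b true r x 0 = un b * (2 * x 0 - 2 * x 1 + 1) +
      (ph (x 0 + x 1) - 2 * ph (1 - x 0)) := by
    cases r <;> simp [ldT, facs, hL, qq2, rr1, Fac.form, Fin.sum_univ_three] <;> ring_nf
  rw [e, un_eq]
  ring

theorem ldT_threeR_one (l r : Bool) : ldT .threeR b l r x 1 =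
    jj b * (Real.pi * (x 2 + x 1 - x 0 - 1 / 2)) + ph (x 0 + x 1) - ph (1 - (x 1 - x 2)) -
      ph (1 - x 1) := by
  have e : ldT .threeR b l r x 1 = un b * (2 * x 2 + 2 * x 1 - 2 * x 0 - 1) +
      (ph (x 0 + x 1) - ph (1 - (x 1 - x 2)) - ph (1 - x 1)) := by
    cases l <;> cases r <;> simp [ldT, facs, hL, qq2, rr1, Fac.form, Fin.sum_univ_three] <;> ring_nf
  rw [e, un_eq]
  ring

theorem ldT_threeR_two (l : Bool) : ldT .threeR b l true x 2 =
    jj b * (Real.pi * x 1) + ph (1 - (x 1 - x 2)) - ph (1 - x 2) := by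
  have e : ldT .threeR b l true x 2 = un b * (2 * x 1) +
      (ph (1 - (x 1 - x 2)) - ph (1 - x 2)) := by
    cases l <;> simp [ldT, facs, hL, qq2, rr1, Fac.form, Fin.sum_univ_three] <;> ring_nf
  rw [e, un_eq]
  ring

theorem side_threeR {q : ℂ} (h0 : x 0 ∈ strip) (h1 : x 1 ∈ strip) (h2 : x 2 ∈ strip)
    (h12 : x 1 - x 2 ∈ strip) (h01 : x 0 + x 1 ∈ strip)
    (hq1 : (ctg (x 1) - jj b) * (ctg (x 2) + jj b) = q)
    (hq2 : q * (ctg (x 1) + ctg (x 0) + 2 * jj b) =
      -2 * jj b * ((ctg (x 1) + jj b) * (ctg (x 0) + jj b))) :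
    Side .threeR b true true x q ∧ cexp (ldT .threeR b true true x 1) = 1 := by
  have h := side_threeL (b := b) (x := ![x 2, x 1, x 0]) h2 h1 h0 h12
    (show x 1 + x 0 ∈ strip by rw [add_comm]; exact h01) hq1 hq2
  obtain ⟨⟨t0, t2⟩, t1⟩ := h
  have e0 : ldT .threeR b true true x 0 = ldT .threeL b true true ![x 2, x 1, x 0] 2 := by
    rw [ldT_threeR_zero, ldT_threeL_two]
    show _ = jj b * (Real.pi * (x 0 - x 1 + 1 / 2)) + ph (x 1 + x 0) - ph (1 - x 0) - ph (1 - x 0)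
    rw [add_comm (x 1)]
  have e2 : ldT .threeR b true true x 2 = ldT .threeL b true true ![x 2, x 1, x 0] 0 := by
    rw [ldT_threeR_two, ldT_threeL_zero]
    rfl
  have e1 : ldT .threeR b true true x 1 = ldT .threeL b true true ![x 2, x 1, x 0] 1 := by
    rw [ldT_threeR_one, ldT_threeL_one]
    show _ = jj b * (Real.pi * (x 2 + x 1 - x 0 - 1 / 2)) + ph (x 1 + x 0) -
      ph (1 - (x 1 - x 2)) - ph (1 - x 1)
    rw [add_comm (x 1) (x 0)]
  refine ⟨⟨fun _ => ?_, fun _ => ?_⟩, ?_⟩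
  · rw [e0]; exact t2 rfl
  · rw [e2]; exact t0 rfl
  · rw [e1]; exact t1

/-- three crossings at the left end -/
theorem side_three_left {q : ℂ} (hx : x 0 = 0) (h2 : x 2 ∈ strip) (h1 : x 1 ∈ strip)
    (h12 : x 1 - x 2 ∈ strip) (hq1 : (ctg (x 1) - jj b) * (ctg (x 2) + jj b) = q)
    (hq2 : q = -2 * jj b * (ctg (x 1) + jj b)) :
    Side .threeR b false true x q ∧ cexp (ldT .threeR b false true x 1) = 1 := by
  have h := side_three_right (b := b) (x := ![x 2, x 1, x 0]) hx h2 h1 h12 hq1 hq2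
  obtain ⟨⟨t0, _⟩, t1⟩ := h
  have e2 : ldT .threeR b false true x 2 = ldT .threeL b true false ![x 2, x 1, x 0] 0 := by
    rw [ldT_threeR_two, ldT_threeL_zero]
    rfl
  have e1 : ldT .threeR b false true x 1 = ldT .threeL b true false ![x 2, x 1, x 0] 1 := by
    rw [ldT_threeR_one, ldT_threeL_one]
    show _ = jj b * (Real.pi * (x 2 + x 1 - x 0 - 1 / 2)) + ph (x 1 + x 0) -
      ph (1 - (x 1 - x 2)) - ph (1 - x 1)
    rw [add_comm (x 1) (x 0)]
  refine ⟨⟨fun h => absurd h (by decide), fun _ => ?_⟩, ?_⟩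
  · rw [e2]; exact t0 rfl
  · rw [e1]; exact t1

/-! ### rings -/

theorem ldT_ring_zero (r : Bool) : ldT .ring b true r x 0 =
    ph (1 / 2 + x 0 + x 1) + ph (1 / 2 + x 0 - x 1) - ph (1 - x 0) - ph (1 - x 0) := by
  cases r <;> simp [ldT, facs, hL, hR, qq2, rr1, Fac.form, Fin.sum_univ_three] <;> ring_nf

theorem ldT_ring_two (l : Bool) : ldT .ring b l true x 2 =
    ph (1 / 2 + x 2 + x 1) + ph (1 / 2 + x 2 - x 1) - ph (1 - x 2) - ph (1 - x 2) := by
  cases l <;> simp [ldT, facs, hL, hR, qq2, rr1, Fac.form, Fin.sum_univ_three] <;> ring_nf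

theorem ldT_ring_one (l r : Bool) : ldT .ring b l r x 1 =
    (if l then ph (1 / 2 + x 0 + x 1) - ph (1 / 2 + x 0 - x 1) else 0) +
      (if r then ph (1 / 2 + x 2 + x 1) - ph (1 / 2 + x 2 - x 1) else 0) := by
  cases l <;> cases r <;> simp [ldT, facs, hL, hR, qq2, rr1, Fac.form, Fin.sum_univ_three] <;> ring_nf

theorem ring_side {w ζ q : ℂ} (h0 : w ∈ strip) (h1 : 1 / 2 + w + ζ ∈ strip)
    (h2 : 1 / 2 + w - ζ ∈ strip) (hq : q * Complex.cos (Real.pi * ζ) ^ 2 = 1) :
    cexp (ph (1 / 2 + w + ζ) + ph (1 / 2 + w - ζ) - ph (1 - w) - ph (1 - w)) =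
      (1 + ctg w ^ 2) / q - 1 := by
  have hs := sin_strip_ne h0
  have hq0 : q ≠ 0 := by
    intro h
    rw [h, zero_mul] at hq
    exact zero_ne_one hq
  have hc : 1 / q = Complex.cos (Real.pi * ζ) ^ 2 := by
    field_simp
    linear_combination -hq
  rw [Complex.exp_sub, Complex.exp_sub, Complex.exp_add, exp_ph h1, exp_ph h2, exp_ph_one_sub h0,
    show (1 + ctg w ^ 2) / q = (1 + ctg w ^ 2) * (1 / q) by ring, hc]
  have e1 : Complex.sin (Real.pi * (1 / 2 + w + ζ)) = Complex.cos (Real.pi * w + Real.pi * ζ) := by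
    rw [show (Real.pi : ℂ) * (1 / 2 + w + ζ) = (Real.pi * w + Real.pi * ζ) + Real.pi / 2 by ring,
      Complex.sin_add_pi_div_two]
  have e2 : Complex.sin (Real.pi * (1 / 2 + w - ζ)) = Complex.cos (Real.pi * w - Real.pi * ζ) := by
    rw [show (Real.pi : ℂ) * (1 / 2 + w - ζ) = (Real.pi * w - Real.pi * ζ) + Real.pi / 2 by ring,
      Complex.sin_add_pi_div_two]
  rw [e1, e2, Complex.cos_add, Complex.cos_sub]
  unfold ctg
  have t1 := Complex.sin_sq_add_cos_sq ((Real.pi : ℂ) * w)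
  have t2 := Complex.sin_sq_add_cos_sq ((Real.pi : ℂ) * ζ)
  field_simp
  linear_combination (-(Complex.sin (Real.pi * w)) ^ 2) * t2

theorem side_ring {l r : Bool} {q : ℂ} (hq : q * Complex.cos (Real.pi * x 1) ^ 2 = 1)
    (h0 : l = true → x 0 ∈ strip ∧ 1 / 2 + x 0 + x 1 ∈ strip ∧ 1 / 2 + x 0 - x 1 ∈ strip)
    (h2 : r = true → x 2 ∈ strip ∧ 1 / 2 + x 2 + x 1 ∈ strip ∧ 1 / 2 + x 2 - x 1 ∈ strip) :
    Side .ring b l r x q := by
  refine ⟨fun hl => ?_, fun hr => ?_⟩
  · subst hl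
    obtain ⟨a, b', c⟩ := h0 rfl
    rw [ldT_ring_zero]
    exact ring_side a b' c hq
  · subst hr
    obtain ⟨a, b', c⟩ := h2 rfl
    rw [ldT_ring_two]
    exact ring_side a b' c hq

/-- one side of the equation of a ring: `w` with `cot π w = R`, `tan π ζ = τ`, `tanh P = τ / R` -/
theorem ring_mid {w ζ P : ℂ} (h0 : w ∈ strip) (h1 : 1 / 2 + w + ζ ∈ strip)
    (h2 : 1 / 2 + w - ζ ∈ strip)
    (hP : Complex.sinh P * (ctg w * Complex.cos (Real.pi * ζ)) =
      Complex.cosh P * Complex.sin (Real.pi * ζ))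
    (hPi : |P.im| ≤ Real.pi / 2) :
    ph (1 / 2 + w + ζ) - ph (1 / 2 + w - ζ) = -2 * P := by
  have hs := sin_strip_ne h0
  have e1 : Complex.sin (Real.pi * (1 / 2 + w + ζ)) = Complex.cos (Real.pi * w + Real.pi * ζ) := by
    rw [show (Real.pi : ℂ) * (1 / 2 + w + ζ) = (Real.pi * w + Real.pi * ζ) + Real.pi / 2 by ring,
      Complex.sin_add_pi_div_two]
  have e2 : Complex.sin (Real.pi * (1 / 2 + w - ζ)) = Complex.cos (Real.pi * w - Real.pi * ζ) := by
    rw [show (Real.pi : ℂ) * (1 / 2 + w - ζ) = (Real.pi * w - Real.pi * ζ) + Real.pi / 2 by ring,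
      Complex.sin_add_pi_div_two]
  have n1 := sin_strip_ne h1
  have n2 := sin_strip_ne h2
  have h3 : cexp (ph (1 / 2 + w + ζ) - ph (1 / 2 + w - ζ) + 2 * P) = 1 := by
    have e3 : cexp (2 * P) = cexp P / cexp (-P) := by
      rw [← Complex.exp_sub]
      congr 1
      ring
    rw [Complex.exp_add, Complex.exp_sub, exp_ph h1, exp_ph h2, e3, div_mul_div_comm,
      div_eq_one_iff_eq (mul_ne_zero (mul_ne_zero two_ne_zero n2) (Complex.exp_ne_zero _)), e1, e2,
      Complex.cos_add, Complex.cos_sub]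
    have hP2 : Complex.sinh P * (Complex.cos (Real.pi * w) * Complex.cos (Real.pi * ζ)) =
        Complex.cosh P * Complex.sin (Real.pi * ζ) * Complex.sin (Real.pi * w) := by
      unfold ctg at hP
      rw [← hP]
      field_simp
    have e4 : cexp P = Complex.cosh P + Complex.sinh P := (Complex.cosh_add_sinh P).symm
    have e5 : cexp (-P) = Complex.cosh P - Complex.sinh P := (Complex.cosh_sub_sinh P).symm
    rw [e4, e5]
    linear_combination 4 * hP2
  have h4 : |(ph (1 / 2 + w + ζ) - ph (1 / 2 + w - ζ) + 2 * P).im| < 2 * Real.pi := by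
    have i1 := abs_lt.1 (ph_im_lt h1)
    have i2 := abs_lt.1 (ph_im_lt h2)
    have i3 := abs_le.1 hPi
    have e : (ph (1 / 2 + w + ζ) - ph (1 / 2 + w - ζ) + 2 * P).im =
        (ph (1 / 2 + w + ζ)).im - (ph (1 / 2 + w - ζ)).im + 2 * P.im := by
      rw [add_im, sub_im]
      simp
    rw [e, abs_lt]
    constructor <;> linarith only [i1, i2, i3, i1.1, i1.2, i2.1, i2.2, i3.1, i3.2]
  have h5 := eq_zero_of_exp h3 h4
  linear_combination h5

end

/-! ### the inner variable of three crossings -/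

section
variable {b : ℤ} {x : Fin 3 → ℂ} {l r : Bool}

theorem mid_zeroL (h1 : x 1 ∈ strip) (h10 : x 1 - x 0 ∈ strip) (h12 : x 1 + x 2 ∈ strip)
    (he : cexp (ldT .threeL b l r x 1) = 1) (ha : 0 ≤ (x 0 + x 1 - x 2).re)
    (hb : (x 0 + x 1 - x 2).re ≤ 1) : ldT .threeL b l r x 1 = 0 := by
  apply eq_zero_of_exp he
  have hpi := Real.pi_pos
  have i1 := abs_lt.1 (ph_im_lt h12)
  have i2 := abs_lt.1 (ph_im_lt (one_sub_strip h10))
  have i3 := abs_lt.1 (ph_im_lt (one_sub_strip h1))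
  have e : (ldT .threeL b l r x 1).im = (jj b).im * (Real.pi * ((x 0 + x 1 - x 2).re - 1 / 2)) +
      (ph (x 1 + x 2)).im - (ph (1 - (x 1 - x 0))).im - (ph (1 - x 1)).im := by
    rw [ldT_threeL_one, sub_im, sub_im, add_im]
    congr 3
    have hj : jj b = (((jj b).im : ℝ) : ℂ) * I := by
      unfold jj
      split_ifs <;> simp
    rw [hj]
    have e2 : (Real.pi : ℂ) * (x 0 + x 1 - x 2 - 1 / 2) =
        ((Real.pi : ℝ) : ℂ) * (x 0 + x 1 - x 2 - ((1 / 2 : ℝ) : ℂ)) := by push_cast; rfl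
    rw [mul_assoc, im_ofReal_mul, I_mul_im, e2, re_ofReal_mul, sub_re, ofReal_re]
    simp
  have hj : (jj b).im = 1 ∨ (jj b).im = -1 := by
    unfold jj
    split_ifs <;> simp
  have hm : |(jj b).im * (Real.pi * ((x 0 + x 1 - x 2).re - 1 / 2))| ≤ Real.pi / 2 := by
    rw [abs_mul, abs_mul, abs_of_pos hpi]
    have h3 : |(jj b).im| = 1 := by
      rcases hj with h | h <;> rw [h] <;> simp
    have h4 : |(x 0 + x 1 - x 2).re - 1 / 2| ≤ 1 / 2 := by
      rw [abs_le]
      constructor <;> linarith only [ha, hb]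
    rw [h3, one_mul]
    nlinarith only [hpi, h4]
  have i4 := abs_le.1 hm
  rw [e, abs_lt]
  constructor <;> linarith only [i1, i2, i3, i4, i1.1, i1.2, i2.1, i2.2, i3.1, i3.2, i4.1, i4.2]

theorem mid_zeroR (h1 : x 1 ∈ strip) (h12 : x 1 - x 2 ∈ strip) (h01 : x 0 + x 1 ∈ strip)
    (he : cexp (ldT .threeR b l r x 1) = 1) (ha : 0 ≤ (x 2 + x 1 - x 0).re)
    (hb : (x 2 + x 1 - x 0).re ≤ 1) : ldT .threeR b l r x 1 = 0 := by
  have e1 : ldT .threeR b l r x 1 = ldT .threeL b r l ![x 2, x 1, x 0] 1 := by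
    rw [ldT_threeR_one, ldT_threeL_one]
    show _ = jj b * (Real.pi * (x 2 + x 1 - x 0 - 1 / 2)) + ph (x 1 + x 0) -
      ph (1 - (x 1 - x 2)) - ph (1 - x 1)
    rw [add_comm (x 1) (x 0)]
  rw [e1] at he ⊢
  refine mid_zeroL (x := ![x 2, x 1, x 0]) h1 h12 ?_ he ha hb
  show x 1 + x 0 ∈ strip
  rw [add_comm]
  exact h01

end

/-! ### hinges from cotangents -/

/-- `(1 / π)` times the inverse cotangent -/
noncomputable def acot (R : ℂ) : ℂ := Complex.log ((R + I) / (R - I)) / (2 * Real.pi * I)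

theorem acot_spec {R : ℂ} (hR : 0 < R.re) : 0 < (acot R).re ∧ (acot R).re < 1 / 2 ∧
    cexp (2 * Real.pi * I * acot R) = (R + I) / (R - I) ∧ ctg (acot R) = R := by
  have hpi := Real.pi_pos
  have h1 : R - I ≠ 0 := by
    intro h
    have := congrArg Complex.re h
    simp at this
    linarith only [hR, this]
  have h2 : R + I ≠ 0 := by
    intro h
    have := congrArg Complex.re h
    simp at this
    linarith only [hR, this]
  have h3 : (R + I) / (R - I) ≠ 0 := div_ne_zero h2 h1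
  have hpi' : (2 * Real.pi * I : ℂ) ≠ 0 := by
    apply mul_ne_zero _ I_ne_zero
    exact_mod_cast (by positivity : (2 * Real.pi : ℝ) ≠ 0)
  have hexp : cexp (2 * Real.pi * I * acot R) = (R + I) / (R - I) := by
    unfold acot
    rw [mul_div_cancel₀ _ hpi', Complex.exp_log h3]
  have him : 0 < ((R + I) / (R - I)).im := by
    have e : ((R + I) / (R - I)).im = 2 * R.re / Complex.normSq (R - I) := by
      rw [Complex.div_im]
      simp only [add_re, add_im, sub_re, sub_im, I_re, I_im, add_zero, sub_zero]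
      ring
    rw [e]
    have := Complex.normSq_pos.2 h1
    positivity
  have harg : 0 < Complex.arg ((R + I) / (R - I)) ∧ Complex.arg ((R + I) / (R - I)) < Real.pi := by
    constructor
    · rcases lt_or_eq_of_le (Complex.arg_nonneg_iff.2 him.le) with h | h
      · exact h
      · exfalso
        have := Complex.arg_eq_zero_iff.1 h.symm
        linarith only [him, this, this.2]
    · rcases lt_or_eq_of_le (Complex.arg_le_pi ((R + I) / (R - I))) with h | h
      · exact h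
      · exfalso
        have := Complex.arg_eq_pi_iff.1 h
        linarith only [him, this, this.2]
  have hre : (acot R).re = Complex.arg ((R + I) / (R - I)) / (2 * Real.pi) := by
    have e : acot R = (((2 * Real.pi)⁻¹ : ℝ) : ℂ) * (-I * Complex.log ((R + I) / (R - I))) := by
      unfold acot
      rw [div_eq_iff hpi']
      push_cast
      have hc : (Real.pi : ℂ) ≠ 0 := by exact_mod_cast hpi.ne'
      field_simp
      linear_combination (Complex.log ((R + I) / (R - I))) * I_sq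
    rw [e, re_ofReal_mul, neg_mul, neg_re, I_mul_re, neg_neg, Complex.log_im]
    ring
  have r1 : 0 < (acot R).re := by
    rw [hre]
    have := harg.1
    positivity
  have r2 : (acot R).re < 1 / 2 := by
    rw [hre, div_lt_div_iff₀ (by positivity) two_pos]
    linarith only [harg, harg.2]
  refine ⟨r1, r2, hexp, ?_⟩
  have hst : acot R ∈ strip := ⟨r1, by linarith only [r1, r2]⟩
  have e1 : ex 1 (acot R) ^ 2 = (R + I) / (R - I) := by
    rw [← hexp]
    unfold ex jj
    rw [← Complex.exp_nat_mul]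
    congr 1
    simp only [Int.zero_lt_one, if_true]
    push_cast
    ring
  have e2 : jj 1 = I := by
    unfold jj
    simp
  rw [ctg_eq hst (b := 1), e1, e2]
  have e3 : (R + I) / (R - I) + 1 = 2 * R / (R - I) := by
    field_simp
    ring
  have e4 : (R + I) / (R - I) - 1 = 2 * I / (R - I) := by
    field_simp
    ring
  rw [e3, e4]
  have := I_ne_zero
  field_simp

/-! ### the critical point -/

section
variable {M : ℕ} {t : Fin (M + 1) → Typ} {b : Fin (M + 1) → ℤ} {z : DD t ⊕ ZZ t → ℂ}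

/-- the flags of a twist region -/
abbrev fl (i : Fin (M + 1)) : Bool := decide (i ≠ 0)

/-- the flags of a twist region -/
abbrev fr (i : Fin (M + 1)) : Bool := decide (i ≠ Fin.last M)

theorem dT_hinge (h : Fin M) : (wdat t b).dT z (.inl (.inl h)) =
    ldT (t h.castSucc) (b h.castSucc) (fl h.castSucc) (fr h.castSucc) (xx t h.castSucc z) 2 +
      ldT (t h.succ) (b h.succ) (fl h.succ) (fr h.succ) (xx t h.succ z) 0 := by
  rw [wdat_dT]
  simp only [Fin.sum_univ_three, Finset.sum_add_distrib, Sum.elim_inl, add_zero]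
  simp [cf]
  ring

theorem dT_mid (m : {i : Fin (M + 1) // (t i).isMid = true}) :
    (wdat t b).dT z (.inl (.inr m)) =
      ldT (t m.1) (b m.1) (fl m.1) (fr m.1) (xx t m.1 z) 1 := by
  rw [wdat_dT]
  simp only [Fin.sum_univ_three, Finset.sum_add_distrib, Sum.elim_inl, add_zero]
  simp [cf]

theorem dT_ring (v : ZZ t) : (wdat t b).dT z (.inr v) =
    ldT (t v.1) (b v.1) (fl v.1) (fr v.1) (xx t v.1 z) 1 +
      2 * Real.pi * I * (b v.1 * z (.inr v) + 1) := by
  rw [wdat_dT]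
  simp only [Fin.sum_univ_three, Finset.sum_add_distrib, Sum.elim_inr]
  simp [cf]

/-- **The critical point** from the parameters `q` of the twist regions. -/
theorem crit_of {q : Fin (M + 1) → ℂ} (hq : ∀ i, q i ≠ 0)
    (hside : ∀ i, Side (t i) (b i) (fl i) (fr i) (xx t i z) (q i))
    (hh : ∀ h : Fin M, 1 + ctg (z (.inl (.inl h))) ^ 2 = q h.castSucc + q h.succ)
    (him : ∀ h : Fin M, |((wdat t b).dT z (.inl (.inl h))).im| < 2 * Real.pi)
    (hmid : ∀ m : {i : Fin (M + 1) // (t i).isMid = true},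
      ldT (t m.1) (b m.1) (fl m.1) (fr m.1) (xx t m.1 z) 1 = 0)
    (hring : ∀ v : ZZ t, ldT (t v.1) (b v.1) (fl v.1) (fr v.1) (xx t v.1 z) 1 +
      2 * Real.pi * I * (b v.1 * z (.inr v) + 1) = 0) :
    ∀ j, (wdat t b).dT z j = 0 := by
  rintro ((h | m) | v)
  · apply eq_zero_of_exp _ (him h)
    have h1 := (hside h.castSucc).2 (by simp [fr, Fin.castSucc_ne_last])
    have h2 := (hside h.succ).1 (by simp [fl, Fin.succ_ne_zero])
    have hq1 := hq h.castSucc
    have hq2 := hq h.succ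
    rw [xx_right, hh] at h1
    rw [xx_left, hh] at h2
    rw [dT_hinge, Complex.exp_add, h1, h2]
    field_simp
    ring
  · rw [dT_mid]
    exact hmid m
  · rw [dT_ring]
    exact hring v

end

end Pool.Agent.Work.MP_b30479_gt.G2
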