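import Mathlib

/-!
# Positivity of the layers of a ring: real analysis

`φ_l = (x + α l) + i (y - β l)`, `v_l = sin φ_l / sin (α - i β)`.  `Iv`, `Rv`: imaginary and real
part of `v`, up to the factor `‖sin (α - i β)‖ ^ 2`.  `Port`: what is needed at an end of the path;
the lower bound propagates because `tanh` is subadditive and `tan` superadditive.
-/

namespace Pool.Agent.Work.MP_b30479_gt.G2

open Real

/-- imaginary part of `v` -/
noncomputable def Iv (α β X Y : ℝ) : ℝ :=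
  sin X * cosh Y * (cos α * sinh β) + cos X * sinh Y * (sin α * cosh β)

/-- real part of `v` -/
noncomputable def Rv (α β X Y : ℝ) : ℝ :=
  sin X * cosh Y * (sin α * cosh β) - cos X * sinh Y * (cos α * sinh β)

/-- an end of the path, from the index `k` on -/
structure Port (α β x y : ℝ) (k : ℕ) : Prop where
  pos : 0 < x + k * α
  lo : ∀ l : ℕ, k ≤ l → x + l * α < π / 2 → 0 < Iv α β (x + l * α) (y - l * β)
  up : ∀ l : ℕ, k ≤ l → x + l * α < π / 2 → 0 < Rv α β (x + l * α) (y - l * β)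

lemma Iv_mirror (α β X Y : ℝ) : Iv α β (π - X) (-Y) = Iv α β X Y := by
  unfold Iv
  rw [sin_pi_sub, cos_pi_sub, cosh_neg, sinh_neg]
  ring

lemma Rv_mirror (α β X Y : ℝ) : Rv α β (π - X) (-Y) = Rv α β X Y := by
  unfold Rv
  rw [sin_pi_sub, cos_pi_sub, cosh_neg, sinh_neg]
  ring

section
variable {α β : ℝ}

lemma sp_tanh_add {a b : ℝ} (ha : 0 < a) (hb : 0 < b) : tanh (a + b) < tanh a + tanh b := by
  have h1 := cosh_pos a
  have h2 := cosh_pos b
  have h3 := sinh_pos_iff.2 ha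
  have h4 := sinh_pos_iff.2 hb
  rw [tanh_eq_sinh_div_cosh, tanh_eq_sinh_div_cosh, tanh_eq_sinh_div_cosh, div_add_div _ _ h1.ne' h2.ne',
    div_lt_div_iff₀ (cosh_pos _) (by positivity), sinh_add, cosh_add]
  have h5 : 0 < sinh a * cosh b + cosh a * sinh b := by positivity
  nlinarith only [h5, h3, h4, mul_pos h5 (mul_pos h3 h4)]

lemma sp_tan_add {a b : ℝ} (ha : 0 ≤ a) (hb : 0 ≤ b) (h : a + b < π / 2) :
    tan a + tan b ≤ tan (a + b) := by
  have hpi := pi_pos
  have h1 : 0 < cos a := cos_pos_of_mem_Ioo ⟨by linarith only [ha, hb, h], by linarith only [hb, h]⟩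
  have h2 : 0 < cos b := cos_pos_of_mem_Ioo ⟨by linarith only [ha, hb, h], by linarith only [ha, h]⟩
  have h3 : 0 < cos (a + b) := cos_pos_of_mem_Ioo ⟨by linarith only [ha, hb, h], by linarith only [h]⟩
  have h4 : 0 ≤ sin a := sin_nonneg_of_nonneg_of_le_pi ha (by linarith only [ha, hb, h])
  have h5 : 0 ≤ sin b := sin_nonneg_of_nonneg_of_le_pi hb (by linarith only [ha, hb, h])
  have h6 : 0 ≤ sin (a + b) := sin_nonneg_of_nonneg_of_le_pi (by linarith only [ha, hb]) (by linarith only [ha, hb, h])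
  rw [tan_eq_sin_div_cos, tan_eq_sin_div_cos, tan_eq_sin_div_cos, div_add_div _ _ h1.ne' h2.ne',
    div_le_div_iff₀ (by positivity) h3]
  have h7 : sin a * cos b + cos a * sin b = sin (a + b) := (sin_add a b).symm
  rw [h7]
  have h8 : cos (a + b) = cos a * cos b - sin a * sin b := cos_add a b
  nlinarith only [h6, h4, h5, h8, mul_nonneg h6 (mul_nonneg h4 h5)]

lemma sp_tanh_le {a b : ℝ} (h : a ≤ b) : tanh a ≤ tanh b := by
  rw [tanh_eq_sinh_div_cosh, tanh_eq_sinh_div_cosh, div_le_div_iff₀ (cosh_pos _) (cosh_pos _)]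
  have h3 : 0 ≤ sinh (b - a) := sinh_nonneg_iff.2 (by linarith only [h])
  rw [sinh_sub] at h3
  linarith only [h3]

lemma sp_tan_lt {a b : ℝ} (ha : 0 ≤ a) (hab : a < b) (h : b < π / 2) : tan a < tan b :=
  tan_lt_tan_of_nonneg_of_lt_pi_div_two ha h hab

variable (hα : 0 < α) (hα2 : α < π / 2) (hβ : 0 < β)
include hα hα2 hβ
set_option linter.unusedSectionVars false

lemma sp_rho : 0 < tanh β / tan α := by
  have h1 : 0 < tan α := tan_pos_of_pos_of_lt_pi_div_two hα hα2
  have h2 : 0 < tanh β := by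
    rw [tanh_eq_sinh_div_cosh]
    exact div_pos (sinh_pos_iff.2 hβ) (cosh_pos _)
  positivity

lemma Iv_eq {X : ℝ} (Y : ℝ) (h0 : 0 ≤ X) (h1 : X < π / 2) : Iv α β X Y =
    cos X * cosh Y * (sin α * cosh β) * (tanh β / tan α * tan X + tanh Y) := by
  have hpi := pi_pos
  have c1 : 0 < cos X := cos_pos_of_mem_Ioo ⟨by linarith only [hα, hα2, h0], h1⟩
  have c2 : 0 < cos α := cos_pos_of_mem_Ioo ⟨by linarith only [hα, hα2], hα2⟩
  have c3 : 0 < sin α := sin_pos_of_pos_of_lt_pi hα (by linarith only [hα, hα2])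
  have c4 := cosh_pos β
  have c5 := cosh_pos Y
  rw [Iv, tan_eq_sin_div_cos, tan_eq_sin_div_cos, tanh_eq_sinh_div_cosh, tanh_eq_sinh_div_cosh]
  field_simp

lemma Iv_pos_iff {X Y : ℝ} (h0 : 0 ≤ X) (h1 : X < π / 2) :
    0 < Iv α β X Y ↔ -tanh Y < tanh β / tan α * tan X := by
  have hpi := pi_pos
  have c1 : 0 < cos X := cos_pos_of_mem_Ioo ⟨by linarith only [hα, hα2, h0], h1⟩
  have c3 : 0 < sin α := sin_pos_of_pos_of_lt_pi hα (by linarith only [hα, hα2])
  have c4 := cosh_pos β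
  have c5 := cosh_pos Y
  rw [Iv_eq hα hα2 hβ Y h0 h1, mul_pos_iff_of_pos_left (by positivity)]
  constructor <;> intro h <;> linarith only [h]

lemma Iv_nonneg {X Y : ℝ} (h0 : 0 ≤ X) (h1 : X < π / 2) (h : 0 ≤ Iv α β X Y) :
    -tanh Y ≤ tanh β / tan α * tan X := by
  have hpi := pi_pos
  have c1 : 0 < cos X := cos_pos_of_mem_Ioo ⟨by linarith only [hα, hα2, h0], h1⟩
  have c3 : 0 < sin α := sin_pos_of_pos_of_lt_pi hα (by linarith only [hα, hα2])
  have c4 := cosh_pos β
  have c5 := cosh_pos Y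
  rw [Iv_eq hα hα2 hβ Y h0 h1] at h
  have := nonneg_of_mul_nonneg_right h (by positivity : 0 < cos X * cosh Y * (sin α * cosh β))
  linarith only [this]

/-- one step of the lower bound -/
lemma lo_step {X Y : ℝ} (h0 : 0 < X) (h1 : X + α < π / 2)
    (h : -tanh Y ≤ tanh β / tan α * tan X) :
    -tanh (Y - β) < tanh β / tan α * tan (X + α) := by
  have hr := sp_rho hα hα2 hβ
  have ht : 0 < tan α := tan_pos_of_pos_of_lt_pi_div_two hα hα2
  have e : -tanh (Y - β) = tanh (β - Y) := by rw [← tanh_neg]; ring_nf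
  have e2 : tanh β = tanh β / tan α * tan α := by field_simp
  rw [e]
  rcases le_or_gt 0 Y with hY | hY
  · have h2 := sp_tanh_le (by linarith only [hY] : β - Y ≤ β)
    have h3 := mul_lt_mul_of_pos_left (sp_tan_lt hα.le (by linarith only [h0] : α < X + α) h1) hr
    linarith only [e2, h2, h3]
  · have h2 := sp_tanh_add (by linarith only [hY] : 0 < -Y) hβ
    have h3 := mul_le_mul_of_nonneg_left (sp_tan_add h0.le hα.le h1) hr.le
    rw [tanh_neg] at h2
    rw [show β - Y = -Y + β by ring]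
    rw [mul_add] at h3
    linarith only [h, e2, h2, h3]

/-- the lower bound along the path -/
lemma lo_path {X Y : ℝ} (h0 : 0 < X) (h : X < π / 2 → -tanh Y ≤ tanh β / tan α * tan X) (n : ℕ)
    (h1 : X + (n + 1 : ℕ) * α < π / 2) :
    -tanh (Y - (n + 1 : ℕ) * β) < tanh β / tan α * tan (X + (n + 1 : ℕ) * α) := by
  induction n with
  | zero =>
    push_cast at h1 ⊢
    rw [one_mul] at h1
    rw [one_mul, one_mul]
    exact lo_step hα hα2 hβ h0 h1 (h (by linarith only [hα, h1]))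
  | succ n ih =>
    push_cast at h1 ih ⊢
    have h2 := ih (by nlinarith only [hα, h1])
    have h3 := lo_step hα hα2 hβ (X := X + (n + 1) * α) (Y := Y - (n + 1) * β) (by positivity)
      (by linarith only [h1]) h2.le
    rw [show Y - ((n : ℝ) + 1 + 1) * β = Y - (n + 1) * β - β by ring,
      show X + ((n : ℝ) + 1 + 1) * α = X + (n + 1) * α + α by ring]
    exact h3

lemma Rv_of_nonpos {X Y : ℝ} (h0 : 0 < X) (h1 : X ≤ π / 2) (hY : Y ≤ 0) : 0 < Rv α β X Y := by
  have hpi := pi_pos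
  have c1 : 0 ≤ cos X := cos_nonneg_of_mem_Icc ⟨by linarith only [hα, hα2, h0], h1⟩
  have c2 : 0 < cos α := cos_pos_of_mem_Ioo ⟨by linarith only [hα, hα2], hα2⟩
  have c3 : 0 < sin α := sin_pos_of_pos_of_lt_pi hα (by linarith only [hα, hα2])
  have c4 := cosh_pos β
  have c5 := cosh_pos Y
  have c6 : 0 < sin X := sin_pos_of_pos_of_lt_pi h0 (by linarith only [hα, hα2, h1])
  have c7 := sinh_pos_iff.2 hβ
  have c8 : 0 ≤ -sinh Y := by
    have := sinh_nonpos_iff.2 hY
    linarith only [this]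
  unfold Rv
  have h2 : 0 < sin X * cosh Y * (sin α * cosh β) := by positivity
  have h3 : 0 ≤ cos X * (-sinh Y) * (cos α * sinh β) := by positivity
  linarith only [h2, h3]

lemma Iv_of_nonneg {X Y : ℝ} (h0 : 0 < X) (h1 : X ≤ π / 2) (hY : 0 ≤ Y) : 0 < Iv α β X Y := by
  have hpi := pi_pos
  have c1 : 0 ≤ cos X := cos_nonneg_of_mem_Icc ⟨by linarith only [hα, hα2, h0], h1⟩
  have c2 : 0 < cos α := cos_pos_of_mem_Ioo ⟨by linarith only [hα, hα2], hα2⟩
  have c3 : 0 < sin α := sin_pos_of_pos_of_lt_pi hα (by linarith only [hα, hα2])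
  have c4 := cosh_pos β
  have c5 := cosh_pos Y
  have c6 : 0 < sin X := sin_pos_of_pos_of_lt_pi h0 (by linarith only [hα, hα2, h1])
  have c7 := sinh_pos_iff.2 hβ
  have c8 : 0 ≤ sinh Y := sinh_nonneg_iff.2 hY
  unfold Iv
  positivity

/-- the upper bound is monotone -/
lemma Rv_mono {X X' Y Y' : ℝ} (h0 : 0 < X) (h1 : X ≤ X') (h2 : X' < π / 2) (hY : Y' ≤ Y)
    (h : 0 ≤ Y → 0 < Rv α β X Y) : 0 < Rv α β X' Y' := by
  rcases le_or_gt Y' 0 with h3 | h3
  · exact Rv_of_nonpos hα hα2 hβ (by linarith only [h0, h1]) h2.le h3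
  have hpi := pi_pos
  have c1 : 0 < cos X := cos_pos_of_mem_Ioo ⟨by linarith only [hα, hα2, h0], by linarith only [h1, h2]⟩
  have c1' : 0 < cos X' := cos_pos_of_mem_Ioo ⟨by linarith only [hα, hα2, h0, h1], by linarith only [h2]⟩
  have c2 : 0 < cos α := cos_pos_of_mem_Ioo ⟨by linarith only [hα, hα2], hα2⟩
  have c3 : 0 < sin α := sin_pos_of_pos_of_lt_pi hα (by linarith only [hα, hα2])
  have c4 := cosh_pos β
  have c5 := cosh_pos Y
  have c5' := cosh_pos Y'
  have c6 : 0 < sin X := sin_pos_of_pos_of_lt_pi h0 (by linarith only [hα, hα2, h1, h2])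
  have c6' : 0 < sin X' := sin_pos_of_pos_of_lt_pi (by linarith only [h0, h1]) (by linarith only [hα, hα2, h2])
  have c7 := sinh_pos_iff.2 hβ
  have c8 : 0 < sinh Y' := sinh_pos_iff.2 h3
  have h4 := h (by linarith only [hY, h3])
  unfold Rv at h4 ⊢
  -- `cot X' tanh Y' ≤ cot X tanh Y`
  have a1 : cos X' * sin X ≤ cos X * sin X' := by
    have : 0 ≤ sin (X' - X) := sin_nonneg_of_nonneg_of_le_pi (by linarith only [h1]) (by linarith only [hα, hα2, h0, h2])
    rw [sin_sub] at this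
    linarith only [this]
  have a2 : sinh Y' * cosh Y ≤ sinh Y * cosh Y' := by
    have : 0 ≤ sinh (Y - Y') := sinh_nonneg_iff.2 (by linarith only [hY])
    rw [sinh_sub] at this
    linarith only [this]
  have a3 : (cos X' * sin X) * (sinh Y' * cosh Y) ≤ (cos X * sin X') * (sinh Y * cosh Y') :=
    mul_le_mul a1 a2 (by positivity) (by positivity)
  have a4 := mul_le_mul_of_nonneg_right a3 (by positivity : 0 ≤ cos α * sinh β)
  have a5 := mul_lt_mul_of_pos_left h4 (by positivity : 0 < sin X' * cosh Y')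
  rw [mul_zero] at a5
  have a6 : 0 < (sin X * cosh Y) *
      (sin X' * cosh Y' * (sin α * cosh β) - cos X' * sinh Y' * (cos α * sinh β)) := by
    nlinarith only [a4, a5]
  exact (mul_pos_iff_of_pos_left (by positivity)).1 a6

/-- neighbour of opposite sign -/
theorem portA {x y : ℝ} (hx : 0 < x) (h0 : x < π / 2 → 0 ≤ Iv α β x y)
    (h1 : 0 < Iv α β (x + α) (y - β) → 0 < Rv α β (x + α) (y - β)) : Port α β x y 1 := by
  have lo : ∀ l : ℕ, 1 ≤ l → x + l * α < π / 2 → 0 < Iv α β (x + l * α) (y - l * β) := by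
    intro l hl h2
    obtain ⟨n, rfl⟩ : ∃ n, l = n + 1 := ⟨l - 1, by omega⟩
    rw [Iv_pos_iff hα hα2 hβ (by positivity) h2]
    exact lo_path hα hα2 hβ hx (fun h3 => Iv_nonneg hα hα2 hβ hx.le h3 (h0 h3)) n h2
  refine ⟨by positivity, lo, fun l hl h2 => ?_⟩
  have hl' : (1 : ℝ) ≤ l := by exact_mod_cast hl
  refine Rv_mono hα hα2 hβ (X := x + α) (Y := y - β) (by positivity) (by nlinarith only [hα, hl']) h2
    (by nlinarith only [hβ, hl']) fun _ => h1 ?_
  have := lo 1 le_rfl (by push_cast; nlinarith only [h2, hα, hl'])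
  push_cast at this
  rwa [one_mul, one_mul] at this

/-- neighbour of equal sign -/
theorem portS {x y : ℝ} (hx : 0 < x + α) (h0 : 0 < Iv α β (x + α) (y - β))
    (h1 : 0 < Rv α β (x + α) (y - β)) : Port α β x y 1 := by
  refine ⟨by push_cast; linarith only [hx], fun l hl h2 => ?_, fun l hl h2 => ?_⟩
  · obtain ⟨n, rfl⟩ : ∃ n, l = n + 1 := ⟨l - 1, by omega⟩
    rcases n with _ | n
    · push_cast
      rw [one_mul, one_mul]
      exact h0
    · have e1 : x + ((n + 1 + 1 : ℕ) : ℝ) * α = x + α + ((n + 1 : ℕ) : ℝ) * α := by push_cast; ring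
      have e2 : y - ((n + 1 + 1 : ℕ) : ℝ) * β = y - β - ((n + 1 : ℕ) : ℝ) * β := by push_cast; ring
      rw [e1] at h2 ⊢
      rw [e2, Iv_pos_iff hα hα2 hβ (by positivity) h2]
      exact lo_path hα hα2 hβ hx (fun h3 => Iv_nonneg hα hα2 hβ hx.le h3 h0.le) n h2
  · have hl' : (1 : ℝ) ≤ l := by exact_mod_cast hl
    exact Rv_mono hα hα2 hβ (X := x + α) (Y := y - β) hx (by nlinarith only [hα, hl']) h2 (by nlinarith only [hβ, hl'])
      fun _ => h1

/-- free end -/
theorem portF : Port α β 0 0 2 := by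
  have ht : 0 < tan α := tan_pos_of_pos_of_lt_pi_div_two hα hα2
  refine ⟨by positivity, fun l hl h2 => ?_, fun l hl h2 => ?_⟩
  · obtain ⟨n, rfl⟩ : ∃ n, l = n + 2 := ⟨l - 2, by omega⟩
    have e1 : 0 + ((n + 2 : ℕ) : ℝ) * α = α + ((n + 1 : ℕ) : ℝ) * α := by push_cast; ring
    have e2 : 0 - ((n + 2 : ℕ) : ℝ) * β = -β - ((n + 1 : ℕ) : ℝ) * β := by push_cast; ring
    rw [e1] at h2 ⊢
    rw [e2, Iv_pos_iff hα hα2 hβ (by positivity) h2]
    refine lo_path hα hα2 hβ hα (fun h3 => ?_) n h2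
    rw [tanh_neg, neg_neg]
    exact (div_mul_cancel₀ _ ht.ne').ge
  · have hl' : (2 : ℝ) ≤ l := by exact_mod_cast hl
    exact Rv_of_nonpos hα hα2 hβ (by positivity) h2.le (by nlinarith only [hβ])

/-- **All layers between two ports are positive.** -/
theorem path_pos {x y x' y' : ℝ} {k k' B : ℕ} (h : Port α β x y k) (h' : Port α β x' y' k')
    (hX : x + x' + B * α = π) (hY : y + y' = B * β) {l : ℕ} (hl : k ≤ l) (hl' : l + k' ≤ B) :
    0 < Iv α β (x + l * α) (y - l * β) ∧ 0 < Rv α β (x + l * α) (y - l * β) := by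
  have hpi := pi_pos
  have p1 : 0 < x + l * α := by
    have h1 := h.pos
    have h2 : (k : ℝ) ≤ l := by exact_mod_cast hl
    nlinarith only [h1, hα, h2]
  obtain ⟨m, rfl⟩ : ∃ m, B = l + m := ⟨B - l, by omega⟩
  push_cast at hX hY
  have p2 : 0 < x' + m * α := by
    have h1 := h'.pos
    have h2 : (k' : ℝ) ≤ m := by exact_mod_cast (by omega : k' ≤ m)
    nlinarith only [h1, hα, h2]
  rcases lt_trichotomy (x + l * α) (π / 2) with h1 | h1 | h1
  · exact ⟨h.lo l hl h1, h.up l hl h1⟩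
  · exact ⟨by
      have c2 : 0 < cos α := cos_pos_of_mem_Ioo ⟨by linarith only [hα, hα2], hα2⟩
      have c7 := sinh_pos_iff.2 hβ
      have c5 := cosh_pos (y - l * β)
      rw [h1, Iv, cos_pi_div_two, sin_pi_div_two]
      simp only [one_mul, zero_mul, add_zero]
      positivity, by
      have c3 : 0 < sin α := sin_pos_of_pos_of_lt_pi hα (by linarith only [hα, hα2])
      have c4 := cosh_pos β
      have c5 := cosh_pos (y - l * β)
      rw [h1, Rv, cos_pi_div_two, sin_pi_div_two]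
      simp only [one_mul, zero_mul, sub_zero]
      positivity⟩
  · have e1 : x' + m * α = π - (x + l * α) := by linarith only [hX]
    have e2 : y' - m * β = -(y - l * β) := by linarith only [hY]
    have h2 : x' + m * α < π / 2 := by linarith only [hX, h1]
    have h3 := h'.lo m (by omega) h2
    have h4 := h'.up m (by omega) h2
    rw [e1, e2, Iv_mirror] at h3
    rw [e1, e2, Rv_mirror] at h4
    exact ⟨h3, h4⟩

end

end Pool.Agent.Work.MP_b30479_gt.G2
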