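import Mathlib

/-!
# Splitting of a hinge between two rings of equal sign, and the ring relations

`j = ± i` is `i` times the sign of the digit.  A ring with `b` crossings, tangent `τ = tan π ζ`
(`q = 1 + τ²`) and hinge cotangents `R`, `R'` satisfies `RE j b R R' τ`.  A hinge `R` between rings
of equal sign with tangents `τ`, `τ'` (`R² = 1 + τ² + τ'²`) is replaced by the two hinges
`Rs j R τ`, `Rs j R τ'` of a digit `-1` in between; `b` drops by one on both sides.
-/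

namespace Pool.Agent.Work.MP_b30479_gt.G2

/-- the ring relation (exponentiated ring equation), interior ring -/
def RE (j : ℂ) (b : ℕ) (R R' τ : ℂ) : Prop :=
  (R + τ) * (R' + τ) * (1 - j * τ) ^ b = (R - τ) * (R' - τ) * (1 + j * τ) ^ b

/-- the ring relation, end ring -/
def RE1 (j : ℂ) (b : ℕ) (R τ : ℂ) : Prop :=
  (R + τ) * (1 - j * τ) ^ b = (R - τ) * (1 + j * τ) ^ b

/-- the hinge next to the ring with tangent `τ` after the splitting -/
noncomputable def Rs (j R τ : ℂ) : ℂ := (j * R + τ ^ 2) / (R + j)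

variable {j R R' τ τ' q q' : ℂ} {b : ℕ}

theorem RE.symm (h : RE j b R R' τ) : RE j b R' R τ := by
  unfold RE at h ⊢
  linear_combination h

/-! ### the split hinge -/

theorem Rs_add (hj : j * j = -1) (h : R + j ≠ 0) :
    Rs j R τ + τ = (R + τ) * (1 - j * τ) * (j / (R + j)) := by
  unfold Rs
  field_simp
  linear_combination ((R + τ) * τ) * hj

theorem Rs_sub (hj : j * j = -1) (h : R + j ≠ 0) :
    Rs j R τ - τ = (R - τ) * (1 + j * τ) * (j / (R + j)) := by
  unfold Rs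
  field_simp
  linear_combination (-(R - τ) * τ) * hj

/-- `(R₁ - j) (R + j) = q` -/
theorem Rs_sub_j (hj : j * j = -1) (h : R + j ≠ 0) : (Rs j R τ - j) * (R + j) = 1 + τ ^ 2 := by
  unfold Rs
  field_simp
  linear_combination -hj

/-- `R₁ + R₂ = R + j` -/
theorem Rs_add_Rs (hj : j * j = -1) (h : R + j ≠ 0) (hR : R ^ 2 = 1 + τ ^ 2 + τ' ^ 2) :
    Rs j R τ + Rs j R τ' = R + j := by
  unfold Rs
  field_simp
  linear_combination -hR - hj

/-- the value of the digit `-1` in the middle: `q₁ = -(R₁ - j)(R₂ - j) = -q q' / (R + j)²` -/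
theorem Rs_mid (hj : j * j = -1) (h : R + j ≠ 0) :
    -((Rs j R τ - j) * (Rs j R τ' - j)) = -((1 + τ ^ 2) * (1 + τ' ^ 2)) / (R + j) ^ 2 := by
  have h1 := Rs_sub_j (τ := τ) hj h
  have h2 := Rs_sub_j (τ := τ') hj h
  have h3 : (R + j) ^ 2 ≠ 0 := pow_ne_zero 2 h
  rw [eq_div_iff h3, ← h1, ← h2]
  ring

/-- the hinge equation after the splitting -/
theorem Rs_hinge (hj : j * j = -1) (h : R + j ≠ 0) (hR : R ^ 2 = 1 + τ ^ 2 + τ' ^ 2) :
    1 + Rs j R τ ^ 2 = (1 + τ ^ 2) + -((Rs j R τ - j) * (Rs j R τ' - j)) := by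
  have h1 := Rs_sub_j (τ := τ) hj h
  have h2 := Rs_add_Rs hj h hR
  have h3 : Rs j R τ' = R + j - Rs j R τ := by linear_combination h2
  rw [h3]
  linear_combination h1 + hj

/-- the ring next to a split hinge -/
theorem RE_split (hj : j * j = -1) (h : R + j ≠ 0) (hr : RE j (b + 1) R R' τ) :
    RE j b (Rs j R τ) R' τ := by
  unfold RE at hr ⊢
  rw [Rs_add hj h, Rs_sub hj h]
  rw [pow_succ, pow_succ] at hr
  linear_combination (j / (R + j)) * hr

theorem RE_split' (hj : j * j = -1) (h : R' + j ≠ 0) (hr : RE j (b + 1) R R' τ) :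
    RE j b R (Rs j R' τ) τ := (RE_split hj h hr.symm).symm

theorem RE1_split (hj : j * j = -1) (h : R + j ≠ 0) (hr : RE1 j (b + 1) R τ) :
    RE1 j b (Rs j R τ) τ := by
  unfold RE1 at hr ⊢
  rw [Rs_add hj h, Rs_sub hj h]
  rw [pow_succ, pow_succ] at hr
  linear_combination (j / (R + j)) * hr

/-! ### small digits -/

theorem RE_one (hj : j * j = -1) (hτ : τ ≠ 0) (hr : RE j 1 R R' τ) :
    1 + τ ^ 2 = -((R + j) * (R' + j)) := by
  unfold RE at hr
  have e : 2 * τ * (R + R' - j * (R * R') - j * τ ^ 2) = 0 := by linear_combination hr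
  have h2 := (mul_eq_zero.mp e).resolve_left (mul_ne_zero two_ne_zero hτ)
  linear_combination j * h2 + (R * R' + τ ^ 2 + 1) * hj

theorem RE_two (hj : j * j = -1) (hτ : τ ≠ 0) (hr : RE j 2 R R' τ) :
    (1 + τ ^ 2) * (R + R' + 2 * j) = -2 * j * ((R + j) * (R' + j)) := by
  unfold RE at hr
  have e : 2 * τ * (R + R' - 2 * j * (R * R') + τ ^ 2 * ((R + R') * j * j - 2 * j)) = 0 := by
    linear_combination hr
  have h2 := (mul_eq_zero.mp e).resolve_left (mul_ne_zero two_ne_zero hτ)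
  linear_combination -h2 + ((R + R') * (τ ^ 2 + 2) + 2 * j) * hj

theorem RE1_two (hj : j * j = -1) (hτ : τ ≠ 0) (hr : RE1 j 2 R τ) :
    1 + τ ^ 2 = -2 * j * (R + j) := by
  unfold RE1 at hr
  have e : 2 * τ * (1 - 2 * j * R + τ ^ 2 * (j * j)) = 0 := by linear_combination hr
  have h2 := (mul_eq_zero.mp e).resolve_left (mul_ne_zero two_ne_zero hτ)
  linear_combination -h2 + (τ ^ 2 + 2) * hj

/-- a ring with three crossings: `Rs j R τ` is the cotangent of the inner variable -/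
theorem RE_three (hj : j * j = -1) (h : R + j ≠ 0) (hτ : τ ≠ 0) (hr : RE j 3 R R' τ) :
    (Rs j R τ - j) * (R + j) = 1 + τ ^ 2 ∧
      (1 + τ ^ 2) * (Rs j R τ + R' + 2 * j) = -2 * j * ((Rs j R τ + j) * (R' + j)) :=
  ⟨Rs_sub_j hj h, RE_two hj hτ (RE_split hj h hr)⟩

theorem RE1_three (hj : j * j = -1) (h : R + j ≠ 0) (hτ : τ ≠ 0) (hr : RE1 j 3 R τ) :
    (Rs j R τ - j) * (R + j) = 1 + τ ^ 2 ∧ 1 + τ ^ 2 = -2 * j * (Rs j R τ + j) :=
  ⟨Rs_sub_j hj h, RE1_two hj hτ (RE1_split hj h hr)⟩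

end Pool.Agent.Work.MP_b30479_gt.G2
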