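import Pool.Agent.Work.MP_b30479_gt.G2.SWordB
import Pool.Agent.Work.MP_b30479_gt.G2.SKer
import Pool.Agent.Work.MP_b30479_gt.G2.SSplit

/-!
# The hinges of a word from the ring values
-/

namespace Pool.Agent.Work.MP_b30479_gt.G2

open Complex Set Filter Topology
open scoped ComplexConjugate

/-! ### one ring -/

lemma exp_QQ {w k : ℂ} (hR : 0 < (RR w k).re) (h0 : 0 ≤ w.re) (h1 : w.re ≤ 3 / 2)
    (hk : 0 < k.re) : cexp (QQ w k) = (Complex.tan w + RR w k) * k ∧
      cexp (-QQ w k) = (RR w k - Complex.tan w) * k := by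
  have hk0 : k ≠ 0 := fun h => by rw [h] at hk; exact lt_irrefl _ hk
  have hTR : Complex.tan w + RR w k ≠ 0 := fun h => by
    have h2 := congrArg Complex.re h
    rw [Complex.add_re, Complex.zero_re] at h2
    have := tan_re_nonneg h0 h1
    linarith only [hR, h2, this]
  have e1 : cexp (QQ w k) = (Complex.tan w + RR w k) * k := by
    unfold QQ
    rw [Complex.exp_add, Complex.exp_log hTR, Complex.exp_log hk0]
  refine ⟨e1, ?_⟩
  rw [Complex.exp_neg, e1]
  apply inv_eq_of_mul_eq_one_right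
  have e2 : RR w k ^ 2 = Complex.tan w ^ 2 + (k ^ 2)⁻¹ := RR_sq w k
  have e3 : (Complex.tan w + RR w k) * k * ((RR w k - Complex.tan w) * k) =
      (RR w k ^ 2 - Complex.tan w ^ 2) * k ^ 2 := by ring
  rw [e3, e2]
  field_simp
  ring

lemma exp_I_mul {w : ℂ} (hc : Complex.cos w ≠ 0) :
    cexp (I * w) = Complex.cos w * (1 + I * Complex.tan w) ∧
      cexp (-(I * w)) = Complex.cos w * (1 - I * Complex.tan w) := by
  have h1 : Complex.cos w * Complex.tan w = Complex.sin w := by
    rw [mul_comm]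
    exact Complex.tan_mul_cos hc
  constructor
  · rw [mul_comm I w, Complex.exp_mul_I]
    linear_combination (-I) * h1
  · rw [show -(I * w) = (-w) * I by ring, Complex.exp_mul_I, Complex.cos_neg, Complex.sin_neg]
    linear_combination I * h1

lemma RE_of_QQ {B : ℕ} {s : ℝ} (hs : s = 1 ∨ s = -1) {w k k' : ℂ} (hR : 0 < (RR w k).re)
    (hR' : 0 < (RR w k').re) (h0 : 0 ≤ w.re) (h1 : w.re ≤ 3 / 2) (hc : Complex.cos w ≠ 0)
    (hk : 0 < k.re) (hk' : 0 < k'.re)
    (h : (B : ℂ) * w - Real.pi + I * s * (QQ w k + QQ w k') = 0) :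
    RE (s * I) B (RR w k) (RR w k') (-s * Complex.tan w) := by
  obtain ⟨e1, e2⟩ := exp_QQ hR h0 h1 hk
  obtain ⟨e1', e2'⟩ := exp_QQ hR' h0 h1 hk'
  obtain ⟨f1, f2⟩ := exp_I_mul hc
  have hk0 : k ≠ 0 := fun h => by rw [h] at hk; exact lt_irrefl _ hk
  have hk0' : k' ≠ 0 := fun h => by rw [h] at hk'; exact lt_irrefl _ hk'
  have g1 : (Complex.cos w * (1 + I * Complex.tan w)) ^ B = cexp (B * (I * w)) := by
    rw [← f1, ← Complex.exp_nat_mul]
  have g2 : (Complex.cos w * (1 - I * Complex.tan w)) ^ B = cexp (B * (-(I * w))) := by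
    rw [← f2, ← Complex.exp_nat_mul]
  have hcB : Complex.cos w ^ B ≠ 0 := pow_ne_zero _ hc
  rw [mul_pow] at g1 g2
  set T := Complex.tan w
  set R := RR w k
  set R' := RR w k'
  rcases hs with rfl | rfl
  · have h3 : (B : ℂ) * (I * w) = Real.pi * I + (QQ w k + QQ w k') := by
      push_cast at h
      linear_combination I * h - (QQ w k + QQ w k') * Complex.I_sq
    have h4 : (B : ℂ) * (-(I * w)) = -(Real.pi * I) + (-QQ w k + -QQ w k') := by
      linear_combination -h3
    rw [h3, Complex.exp_add, Complex.exp_pi_mul_I, Complex.exp_add, e1, e1'] at g1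
    rw [h4, Complex.exp_add, Complex.exp_neg, Complex.exp_pi_mul_I, Complex.exp_add, e2, e2'] at g2
    unfold RE
    apply mul_left_cancel₀ hcB
    push_cast
    have a1 : Complex.cos w ^ B * ((R + -1 * T) * (R' + -1 * T) * (1 - 1 * I * (-1 * T)) ^ B) =
        (R - T) * (R' - T) * (Complex.cos w ^ B * (1 + I * T) ^ B) := by
      rw [show (1 : ℂ) - 1 * I * (-1 * T) = 1 + I * T by ring]
      ring
    have a2 : Complex.cos w ^ B * ((R - -1 * T) * (R' - -1 * T) * (1 + 1 * I * (-1 * T)) ^ B) =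
        (R + T) * (R' + T) * (Complex.cos w ^ B * (1 - I * T) ^ B) := by
      rw [show (1 : ℂ) + 1 * I * (-1 * T) = 1 - I * T by ring]
      ring
    rw [a1, a2, g1, g2]
    ring
  · have h3 : (B : ℂ) * (I * w) = Real.pi * I + (-QQ w k + -QQ w k') := by
      push_cast at h
      linear_combination I * h + (QQ w k + QQ w k') * Complex.I_sq
    have h4 : (B : ℂ) * (-(I * w)) = -(Real.pi * I) + (QQ w k + QQ w k') := by
      linear_combination -h3
    rw [h3, Complex.exp_add, Complex.exp_pi_mul_I, Complex.exp_add, e2, e2'] at g1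
    rw [h4, Complex.exp_add, Complex.exp_neg, Complex.exp_pi_mul_I, Complex.exp_add, e1, e1'] at g2
    unfold RE
    apply mul_left_cancel₀ hcB
    push_cast
    have a1 : Complex.cos w ^ B * ((R + -(-1) * T) * (R' + -(-1) * T) *
        (1 - -1 * I * (-(-1) * T)) ^ B) =
        (R + T) * (R' + T) * (Complex.cos w ^ B * (1 + I * T) ^ B) := by
      rw [show (1 : ℂ) - -1 * I * (-(-1) * T) = 1 + I * T by ring]
      ring
    have a2 : Complex.cos w ^ B * ((R - -(-1) * T) * (R' - -(-1) * T) *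
        (1 + -1 * I * (-(-1) * T)) ^ B) =
        (R - T) * (R' - T) * (Complex.cos w ^ B * (1 - I * T) ^ B) := by
      rw [show (1 : ℂ) + -1 * I * (-(-1) * T) = 1 - I * T by ring]
      ring
    rw [a1, a2, g1, g2]
    ring

lemma RE1_of_QQ {B : ℕ} {s : ℝ} (hs : s = 1 ∨ s = -1) {w k : ℂ} (hR : 0 < (RR w k).re)
    (h0 : 0 ≤ w.re) (h1 : w.re ≤ 3 / 2) (hc : Complex.cos w ≠ 0) (hk : 0 < k.re)
    (h : (B : ℂ) * w - Real.pi + I * s * QQ w k = 0) :
    RE1 (s * I) B (RR w k) (-s * Complex.tan w) := by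
  obtain ⟨e1, e2⟩ := exp_QQ hR h0 h1 hk
  obtain ⟨f1, f2⟩ := exp_I_mul hc
  have g1 : (Complex.cos w * (1 + I * Complex.tan w)) ^ B = cexp (B * (I * w)) := by
    rw [← f1, ← Complex.exp_nat_mul]
  have g2 : (Complex.cos w * (1 - I * Complex.tan w)) ^ B = cexp (B * (-(I * w))) := by
    rw [← f2, ← Complex.exp_nat_mul]
  have hcB : Complex.cos w ^ B ≠ 0 := pow_ne_zero _ hc
  rw [mul_pow] at g1 g2
  set T := Complex.tan w
  set R := RR w k
  rcases hs with rfl | rfl
  · have h3 : (B : ℂ) * (I * w) = Real.pi * I + QQ w k := by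
      push_cast at h
      linear_combination I * h - QQ w k * Complex.I_sq
    have h4 : (B : ℂ) * (-(I * w)) = -(Real.pi * I) + -QQ w k := by
      linear_combination -h3
    rw [h3, Complex.exp_add, Complex.exp_pi_mul_I, e1] at g1
    rw [h4, Complex.exp_add, Complex.exp_neg, Complex.exp_pi_mul_I, e2] at g2
    unfold RE1
    apply mul_left_cancel₀ hcB
    push_cast
    have a1 : Complex.cos w ^ B * ((R + -1 * T) * (1 - 1 * I * (-1 * T)) ^ B) =
        (R - T) * (Complex.cos w ^ B * (1 + I * T) ^ B) := by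
      rw [show (1 : ℂ) - 1 * I * (-1 * T) = 1 + I * T by ring]
      ring
    have a2 : Complex.cos w ^ B * ((R - -1 * T) * (1 + 1 * I * (-1 * T)) ^ B) =
        (R + T) * (Complex.cos w ^ B * (1 - I * T) ^ B) := by
      rw [show (1 : ℂ) + 1 * I * (-1 * T) = 1 - I * T by ring]
      ring
    rw [a1, a2, g1, g2]
    ring
  · have h3 : (B : ℂ) * (I * w) = Real.pi * I + -QQ w k := by
      push_cast at h
      linear_combination I * h + QQ w k * Complex.I_sq
    have h4 : (B : ℂ) * (-(I * w)) = -(Real.pi * I) + QQ w k := by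
      linear_combination -h3
    rw [h3, Complex.exp_add, Complex.exp_pi_mul_I, e2] at g1
    rw [h4, Complex.exp_add, Complex.exp_neg, Complex.exp_pi_mul_I, e1] at g2
    unfold RE1
    apply mul_left_cancel₀ hcB
    push_cast
    have a1 : Complex.cos w ^ B * ((R + -(-1) * T) * (1 - -1 * I * (-(-1) * T)) ^ B) =
        (R + T) * (Complex.cos w ^ B * (1 + I * T) ^ B) := by
      rw [show (1 : ℂ) - -1 * I * (-(-1) * T) = 1 + I * T by ring]
      ring
    have a2 : Complex.cos w ^ B * ((R - -(-1) * T) * (1 + -1 * I * (-(-1) * T)) ^ B) =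
        (R - T) * (Complex.cos w ^ B * (1 - I * T) ^ B) := by
      rw [show (1 : ℂ) + -1 * I * (-(-1) * T) = 1 - I * T by ring]
      ring
    rw [a1, a2, g1, g2]
    ring

lemma one_add_tan_sq {w : ℂ} (hc : Complex.cos w ≠ 0) :
    1 + Complex.tan w ^ 2 = 1 / Complex.cos w ^ 2 := by
  have h1 : Complex.tan w * Complex.cos w = Complex.sin w := Complex.tan_mul_cos hc
  have h2 := Complex.sin_sq_add_cos_sq w
  rw [eq_div_iff (pow_ne_zero 2 hc)]
  rw [← h1] at h2
  linear_combination h2

lemma RR_symm {w w' : ℂ} (hc : Complex.cos w ≠ 0) (hc' : Complex.cos w' ≠ 0) :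
    RR w (Complex.cos w') = RR w' (Complex.cos w) := by
  unfold RR
  congr 1
  unfold ZZ0
  have h1 := one_add_tan_sq hc
  have h2 := one_add_tan_sq hc'
  rw [← one_div, ← one_div]
  linear_combination h1 - h2

lemma RR_cos_sq {w w' : ℂ} (hc' : Complex.cos w' ≠ 0) :
    RR w (Complex.cos w') ^ 2 = 1 + Complex.tan w ^ 2 + Complex.tan w' ^ 2 := by
  rw [RR_sq]
  unfold ZZ0
  rw [← one_div, ← one_add_tan_sq hc']
  ring

namespace SR

variable {M : ℕ} (b : Fin (M + 1) → ℤ) (w : ℕ → ℂ)

/-- the hinge to the right of the ring `n`, before the splitting -/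
noncomputable def R0 (n : ℕ) : ℂ := RR (w n) (Complex.cos (w (rn b n)))

/-- `tan π ζ` -/
noncomputable def tau (n : ℕ) : ℂ := -(sg b n : ℂ) * Complex.tan (w n)

/-- the cotangent of the hinge variable between the digits `n` and `n + 1` -/
noncomputable def Rh (n : ℕ) : ℂ :=
  if us b (n + 1) then Rs (jj (bb b n)) (R0 b w n) (tau b w n)
  else if us b n then Rs (jj (bb b (n + 1))) (R0 b w (n - 1)) (tau b w (n + 1))
  else R0 b w n

/-- the value of the digit `n` -/
noncomputable def qv (n : ℕ) : ℂ :=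
  if us b n then -((Rh b w (n - 1) + jj (bb b n)) * (Rh b w n + jj (bb b n)))
  else 1 / Complex.cos (w n) ^ 2

variable {b w}

lemma jj_sg (n : ℕ) : jj (bb b n) = sg b n * I := by
  unfold jj sg
  split_ifs <;> simp

lemma sg_sq (n : ℕ) : (sg b n : ℂ) ^ 2 = 1 := by
  rcases sg_or (b := b) n with h | h <;> rw [h] <;> norm_num

lemma tau_sq (n : ℕ) : tau b w n ^ 2 = Complex.tan (w n) ^ 2 := by
  unfold tau
  linear_combination (Complex.tan (w n) ^ 2) * sg_sq (b := b) n

variable (hb : ClassW b) (F : RingFacts) (hw : Sol b w)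
include F hw

lemma cos_re {n : ℕ} (hn : n ≤ M) (hu : us b n = false) : 0 < (Complex.cos (w n)).re := by
  have h := hw.mem n hn hu
  rcases sg_or (b := b) n with h1 | h1
  · rw [h1, frS_one] at h
    exact F.re_pos _ _ (F.sub _ h)
  · rw [h1, frS_neg] at h
    have := F.re_pos _ _ (F.sub _ h)
    rwa [Complex.conj_re] at this

lemma cos_ne {n : ℕ} (hn : n ≤ M) (hu : us b n = false) : Complex.cos (w n) ≠ 0 :=
  cos_ne_of (cos_re F hw hn hu)

omit F in
lemma tan_re {n : ℕ} (hn : n ≤ M) (hu : us b n = false) : 0 < (Complex.tan (w n)).re :=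
  tan_re_pos (hw.re0 n hn hu) (hw.re1 n hn hu).le

omit F in
lemma tau_ne {n : ℕ} (hn : n ≤ M) (hu : us b n = false) : tau b w n ≠ 0 := by
  have h := tan_re hw hn hu
  unfold tau
  rcases sg_or (b := b) n with h1 | h1
  · rw [h1]
    intro h2
    have := congrArg Complex.re h2
    simp at this
    linarith only [h, this]
  · rw [h1]
    intro h2
    have := congrArg Complex.re h2
    simp at this
    linarith only [h, this]

omit F in
lemma R0_re {n : ℕ} (hn : n < M) (hu : us b n = false) : 0 < (R0 b w n).re := by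
  have := hw.hingeR n hn hu
  unfold r0 at this
  unfold R0
  linarith only [this]

omit F hw in
lemma add_j_ne {R : ℂ} (hR : 0 < R.re) (b : ℤ) : R + jj b ≠ 0 := by
  intro h
  have := congrArg Complex.re h
  rw [Complex.add_re] at this
  have h2 : (jj b).re = 0 := by
    unfold jj
    split_ifs <;> simp
  rw [h2] at this
  simp at this
  linarith only [hR, this]

omit F in
lemma R0_add_ne {n : ℕ} (hn : n < M) (hu : us b n = false) (c : ℤ) : R0 b w n + jj c ≠ 0 :=
  add_j_ne (R0_re hw hn hu) c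

include hb

lemma R0_sq {n : ℕ} (hn : n < M) (hu : us b n = false) :
    R0 b w n ^ 2 = 1 + tau b w n ^ 2 + tau b w (rn b n) ^ 2 := by
  have h1 := rn_spec hb hn hu
  unfold R0
  rw [RR_cos_sq (cos_ne F hw h1.2.1 h1.2.2.1), tau_sq, tau_sq]

omit F hw in
/-- signs on the two sides of an absorbed digit -/
lemma jj_abs {n : ℕ} (h : us b (n + 1) = true) :
    jj (bb b (n + 2)) = jj (bb b n) ∧ jj (bb b (n + 1)) = -jj (bb b n) := by
  have h1 := us_lt hb h
  have h2 := (us_true h).2.1
  have h3 := bb_opp hb (n := n) (by omega) (Or.inr (by omega))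
  have h4 := sign_across hb h
  have h0 := bb_ne hb (by omega : n ≤ M)
  unfold jj
  rcases lt_or_gt_of_ne h0 with h5 | h5
  · have h6 : bb b (n + 2) < 0 := by nlinarith only [h4, h5]
    have h7 : 0 < bb b (n + 1) := by
      by_contra hc
      have := bb_ne hb (by omega : n + 1 ≤ M)
      have h8 : bb b (n + 1) < 0 := by omega
      have := mul_pos_of_neg_of_neg h5 h8
      omega
    rw [if_neg (by omega), if_neg (by omega), if_pos h7]
    constructor <;> ring
  · have h6 : 0 < bb b (n + 2) := (mul_pos_iff_of_pos_left h5).1 h4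
    have h7 : ¬ 0 < bb b (n + 1) := by
      intro hc
      have := mul_pos h5 hc
      omega
    rw [if_pos h6, if_pos h5, if_neg h7]
    constructor <;> ring

omit F hw hb in
lemma Rh_true {n : ℕ} (h : us b (n + 1) = true) :
    Rh b w n = Rs (jj (bb b n)) (R0 b w n) (tau b w n) := by
  unfold Rh
  rw [h]
  simp

omit F hw hb in
lemma Rh_left {n : ℕ} (h : us b (n + 1) = true) :
    Rh b w (n + 1) = Rs (jj (bb b (n + 2))) (R0 b w n) (tau b w (n + 2)) := by
  have h2 := (us_true h).2.2.2
  unfold Rh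
  rw [h2, h]
  simp

omit F hw hb in
lemma Rh_false {n : ℕ} (h : us b (n + 1) = false) (h' : us b n = false) :
    Rh b w n = R0 b w n := by
  unfold Rh
  rw [h, h']
  simp

omit F hw hb in
lemma qv_ring {n : ℕ} (h : us b n = false) : qv b w n = 1 / Complex.cos (w n) ^ 2 := by
  unfold qv
  rw [h]
  simp

omit hb in
lemma qv_tau {n : ℕ} (hn : n ≤ M) (h : us b n = false) : qv b w n = 1 + tau b w n ^ 2 := by
  rw [qv_ring h, tau_sq, one_add_tan_sq (cos_ne F hw hn h)]

omit F hw hb in
lemma qv_abs {n : ℕ} (h : us b n = true) :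
    qv b w n = -((Rh b w (n - 1) + jj (bb b n)) * (Rh b w n + jj (bb b n))) := by
  unfold qv
  rw [h]
  simp

/-- the hinge relation -/
theorem hinge_rel {n : ℕ} (hn : n < M) : 1 + Rh b w n ^ 2 = qv b w n + qv b w (n + 1) := by
  by_cases h1 : us b (n + 1) = true
  · have h2 := us_true h1
    have h3 := us_lt hb h1
    have hu : us b n = false := by simpa using h2.2.2.1
    obtain ⟨h4, h5⟩ := jj_abs hb h1
    have hR := R0_sq hb F hw hn hu
    have hrn : rn b n = n + 2 := by
      unfold rn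
      rw [h1]
      simp
    rw [hrn] at hR
    rw [qv_tau F hw hn.le hu, qv_abs h1, Rh_left h1, h4, h5, show n + 1 - 1 = n by omega,
      Rh_true h1]
    rw [Rs_hinge (jj_sq _) (R0_add_ne hw hn hu _) hR]
    ring
  · rw [Bool.not_eq_true] at h1
    by_cases h6 : us b n = true
    · have h2 := us_true h6
      obtain ⟨m, rfl⟩ : ∃ m, n = m + 1 := ⟨n - 1, by omega⟩
      have hu : us b m = false := by simpa using h2.2.2.1
      obtain ⟨h4, h5⟩ := jj_abs hb h6
      have hm : m < M := by omega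
      have hR := R0_sq hb F hw hm hu
      have hrn : rn b m = m + 2 := by
        unfold rn
        rw [h6]
        simp
      rw [hrn] at hR
      have hR' : R0 b w m ^ 2 = 1 + tau b w (m + 2) ^ 2 + tau b w m ^ 2 := by
        rw [hR]
        ring
      rw [show m + 1 + 1 = m + 2 from rfl, qv_tau F hw (by omega : m + 2 ≤ M) h1, qv_abs h6,
        Rh_left h6, h4, h5, show m + 1 - 1 = m by omega, Rh_true h6]
      rw [Rs_hinge (jj_sq _) (R0_add_ne hw hm hu _) hR']
      ring
    · rw [Bool.not_eq_true] at h6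
      have hR := R0_sq hb F hw hn h6
      have hrn : rn b n = n + 1 := by
        unfold rn
        rw [h1]
        simp
      rw [hrn] at hR
      rw [Rh_false h1 h6, qv_tau F hw hn.le h6, qv_tau F hw (by omega) h1, hR]
      ring

/-- the hinge on the left of the ring `n`, before the splitting -/
lemma left_hinge {n : ℕ} (h0 : 0 < n) (hn : n ≤ M) (hu : us b n = false) :
    RR (w n) (Complex.cos (w (ln b n))) = R0 b w (ln b n) := by
  have h1 := ln_spec hb h0 hu
  unfold R0
  rw [h1.2.2]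
  exact RR_symm (cos_ne F hw hn hu) (cos_ne F hw (by omega) h1.2.1)

/-- the ring relation of the first ring -/
theorem ring_first (hM : 1 ≤ M) : RE1 (jj (bb b 0)) (bb b 0).natAbs (Rh b w 0) (tau b w 0) := by
  have hu : us b 0 = false := rfl
  have h1 := rn_spec hb (n := 0) (by omega) hu
  have h2 := RE1_of_QQ (sg_or (b := b) 0) (w := w 0) (k := Complex.cos (w (rn b 0)))
    (R0_re hw (by omega) hu) (hw.re0 0 (by omega) hu).le (hw.re1 0 (by omega) hu).le
    (cos_ne F hw (by omega) hu) (cos_re F hw h1.2.1 h1.2.2.1) hw.first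
  rw [← jj_sg] at h2
  change RE1 (jj (bb b 0)) (BB b 0) (R0 b w 0) (tau b w 0) at h2
  by_cases h3 : us b 1 = true
  · rw [Rh_true h3]
    have hB : BB b 0 = (bb b 0).natAbs + 1 := by
      unfold BB
      rw [show (0 : ℕ) - 1 = 0 by rfl, show (0 : ℕ) + 1 = 1 by rfl, h3]
      rfl
    rw [hB] at h2
    exact RE1_split (jj_sq _) (R0_add_ne hw (by omega) hu _) h2
  · rw [Bool.not_eq_true] at h3
    rw [Rh_false h3 hu]
    have hB : BB b 0 = (bb b 0).natAbs := by
      unfold BB
      rw [show (0 : ℕ) - 1 = 0 by rfl, show (0 : ℕ) + 1 = 1 by rfl, h3]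
      rfl
    rw [hB] at h2
    exact h2

/-- the ring relation of the last ring -/
theorem ring_last (hM : 1 ≤ M) :
    RE1 (jj (bb b M)) (bb b M).natAbs (Rh b w (M - 1)) (tau b w M) := by
  have hu : us b M = false := us_of_ge hb le_rfl
  have h1 := ln_spec hb (n := M) (by omega) hu
  have hlM : ln b M < M := h1.1
  have h6 := hw.hingeL (ln b M) hlM h1.2.1
  rw [h1.2.2] at h6
  have h7 : 0 < (RR (w M) (Complex.cos (w (ln b M)))).re := by
    unfold r0 at h6
    linarith only [h6]
  have h2 := RE1_of_QQ (sg_or (b := b) M) (w := w M) (k := Complex.cos (w (ln b M)))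
    h7 (hw.re0 M le_rfl hu).le (hw.re1 M le_rfl hu).le
    (cos_ne F hw le_rfl hu) (cos_re F hw (by omega) h1.2.1) hw.last
  rw [← jj_sg, left_hinge hb F hw (by omega) le_rfl hu] at h2
  change RE1 (jj (bb b M)) (BB b M) (R0 b w (ln b M)) (tau b w M) at h2
  have hM1 : us b (M + 1) = false := us_of_ge hb (by omega)
  by_cases h3 : us b (M - 1) = true
  · obtain ⟨m, rfl⟩ : ∃ m, M = m + 2 := ⟨M - 2, by have := us_lt hb h3; omega⟩
    rw [show m + 2 - 1 = m + 1 by omega] at h3 ⊢
    have hl : ln b (m + 2) = m := by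
      unfold ln
      rw [show m + 2 - 1 = m + 1 by omega, h3]
      simp
    rw [hl] at h2 hlM h1
    rw [Rh_left h3]
    have hB : BB b (m + 2) = (bb b (m + 2)).natAbs + 1 := by
      unfold BB
      rw [show m + 2 - 1 = m + 1 by omega, h3, hM1]
      rfl
    rw [hB] at h2
    exact RE1_split (jj_sq _) (R0_add_ne hw hlM h1.2.1 _) h2
  · rw [Bool.not_eq_true] at h3
    have hl : ln b M = M - 1 := by
      unfold ln
      rw [h3]
      simp
    rw [hl] at h2
    rw [Rh_false (by rwa [show M - 1 + 1 = M by omega]) h3]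
    have hB : BB b M = (bb b M).natAbs := by
      unfold BB
      rw [h3, hM1]
      rfl
    rw [hB] at h2
    exact h2

/-- the ring relation of an inner ring -/
theorem ring_inner {n : ℕ} (h0 : 0 < n) (hn : n < M) (hu : us b n = false) :
    RE (jj (bb b n)) (bb b n).natAbs (Rh b w (n - 1)) (Rh b w n) (tau b w n) := by
  have h1 := ln_spec hb h0 hu
  have h1' := rn_spec hb hn hu
  have h6 := hw.hingeL (ln b n) (by omega) h1.2.1
  rw [h1.2.2] at h6
  have h7 : 0 < (RR (w n) (Complex.cos (w (ln b n)))).re := by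
    unfold r0 at h6
    linarith only [h6]
  have h2 := RE_of_QQ (sg_or (b := b) n) (w := w n) (k := Complex.cos (w (ln b n)))
    (k' := Complex.cos (w (rn b n))) h7 (R0_re hw hn hu) (hw.re0 n hn.le hu).le
    (hw.re1 n hn.le hu).le (cos_ne F hw hn.le hu) (cos_re F hw (by omega) h1.2.1)
    (cos_re F hw h1'.2.1 h1'.2.2.1) (hw.inner n h0 hn hu)
  rw [← jj_sg, left_hinge hb F hw h0 hn.le hu] at h2
  change RE (jj (bb b n)) (BB b n) (R0 b w (ln b n)) (R0 b w n) (tau b w n) at h2
  -- the right side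
  have h3 : RE (jj (bb b n)) ((bb b n).natAbs + (us b (n - 1)).toNat) (R0 b w (ln b n)) (Rh b w n)
      (tau b w n) := by
    by_cases h4 : us b (n + 1) = true
    · rw [Rh_true h4]
      have hB : BB b n = (bb b n).natAbs + (us b (n - 1)).toNat + 1 := by
        unfold BB
        rw [h4]
        rfl
      rw [hB] at h2
      exact RE_split' (jj_sq _) (R0_add_ne hw hn hu _) h2
    · rw [Bool.not_eq_true] at h4
      rw [Rh_false h4 hu]
      have hB : BB b n = (bb b n).natAbs + (us b (n - 1)).toNat := by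
        unfold BB
        rw [h4]
        rfl
      rw [hB] at h2
      exact h2
  -- the left side
  by_cases h4 : us b (n - 1) = true
  · obtain ⟨m, rfl⟩ : ∃ m, n = m + 2 := ⟨n - 2, by have := us_lt hb h4; omega⟩
    rw [show m + 2 - 1 = m + 1 by omega] at h4 h3 ⊢
    have hl : ln b (m + 2) = m := by
      unfold ln
      rw [show m + 2 - 1 = m + 1 by omega, h4]
      simp
    rw [hl] at h3 h1
    rw [h4] at h3
    rw [Rh_left h4]
    exact RE_split (jj_sq _) (R0_add_ne hw (by omega) h1.2.1 _) h3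
  · rw [Bool.not_eq_true] at h4
    have hl : ln b n = n - 1 := by
      unfold ln
      rw [h4]
      simp
    rw [hl, h4] at h3
    rw [Rh_false (n := n - 1) (by rwa [show n - 1 + 1 = n by omega]) h4]
    exact h3

end SR

end Pool.Agent.Work.MP_b30479_gt.G2
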