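import Pool.Agent.Work.MP_b30479_gt.G2.SPosA
import Pool.Agent.Work.MP_b30479_gt.G2.RunPos
import Pool.Agent.Work.MP_b30479_gt.G2.SWordC

/-!
# Positivity of the layers of a ring

Own frame (positive twist region): `W = α - i β`, `κ = cos W`, neighbour `K`, `Q = QQ W K`,
`v_l = sin (i Q + l W) / sin W`, `v_0 = i K / κ`, `v_1 = K (R + i)`, the shape of the layer `l` is
`1 - 1 / v_l ^ 2`.
-/

namespace Pool.Agent.Work.MP_b30479_gt.G2

open Complex

lemma sp_sin_re (W : ℂ) : (Complex.sin W).re = Real.sin W.re * Real.cosh W.im := by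
  conv_lhs => rw [← re_add_im W]
  exact rp_sin_re _ _

lemma sp_sin_im (W : ℂ) : (Complex.sin W).im = Real.cos W.re * Real.sinh W.im := by
  conv_lhs => rw [← re_add_im W]
  exact rp_sin_im _ _

lemma sp_cos_re (W : ℂ) : (Complex.cos W).re = Real.cos W.re * Real.cosh W.im := by
  conv_lhs => rw [← re_add_im W]
  exact rp_cos_re _ _

lemma sp_cos_im (W : ℂ) : (Complex.cos W).im = -(Real.sin W.re * Real.sinh W.im) := by
  conv_lhs => rw [← re_add_im W]
  exact rp_cos_im _ _

/-- the ring `W` with the neighbour `K` -/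
structure OwnP (W K : ℂ) : Prop where
  w0 : 0 < W.re
  w1 : W.re < 3 / 2
  cr : 0 < (Complex.cos W).re
  ci : 0 < (Complex.cos W).im
  k0 : 0 < K.re
  R0 : 0 < (RR W K).re

/-- the layers -/
noncomputable def vv (W K : ℂ) (l : ℕ) : ℂ := Complex.sin (I * QQ W K + l * W) / Complex.sin W

/-- a positive layer -/
def Lp (v : ℂ) : Prop := 0 < (1 - (v ^ 2)⁻¹).im

lemma lp_of {v : ℂ} (h1 : 0 < v.re) (h2 : 0 < v.im) : Lp v := by
  have h3 : 0 < normSq (v ^ 2) := by
    rw [normSq_pos]
    intro h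
    have := pow_eq_zero_iff (two_ne_zero) |>.1 h
    rw [this] at h1
    simp at h1
  unfold Lp
  rw [sub_im, one_im, inv_im, zero_sub, neg_div, neg_neg]
  apply div_pos _ h3
  rw [pow_two, mul_im]
  positivity

section
set_option linter.unusedSectionVars false
variable {W K : ℂ} (h : OwnP W K)
include h

lemma OwnP.w2 : W.re < Real.pi / 2 := by
  have := Real.pi_gt_three
  linarith only [this, h, h.w1]

lemma OwnP.cne : Complex.cos W ≠ 0 := fun h0 => by
  have := h.cr
  rw [h0] at this
  exact lt_irrefl _ this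

lemma OwnP.im_neg : W.im < 0 := by
  have h1 := h.ci
  have e2 := sp_cos_im W
  have h2 : 0 < Real.sin W.re := Real.sin_pos_of_pos_of_lt_pi h.w0 (by linarith only [h, h.w2, Real.pi_pos])
  by_contra hc
  have h3 : 0 ≤ Real.sinh W.im := Real.sinh_nonneg_iff.2 (not_lt.1 hc)
  have h4 := mul_nonneg h2.le h3
  rw [e2] at h1
  linarith only [h1, h4]

lemma OwnP.kne : K ≠ 0 := fun h0 => by
  have := h.k0
  rw [h0] at this
  exact lt_irrefl _ this

lemma OwnP.sne : Complex.sin W ≠ 0 := by
  intro h0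
  have e2 := sp_sin_re W
  have h2 : 0 < Real.sin W.re := Real.sin_pos_of_pos_of_lt_pi h.w0 (by linarith only [h, h.w2, Real.pi_pos])
  have h3 := Real.cosh_pos W.im
  rw [h0, zero_re] at e2
  have : 0 < Real.sin W.re * Real.cosh W.im := by positivity
  linarith only [e2, this]

lemma OwnP.sq : RR W K ^ 2 = Complex.tan W ^ 2 + (K ^ 2)⁻¹ := RR_sq W K

lemma OwnP.tc : Complex.tan W * Complex.cos W = Complex.sin W := Complex.tan_mul_cos h.cne

/-- `sin (i Q) = i T K`, `cos (i Q) = R K` -/
lemma OwnP.sinQ : Complex.sin (I * QQ W K) = I * (Complex.tan W * K) ∧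
    Complex.cos (I * QQ W K) = RR W K * K := by
  obtain ⟨e1, e2⟩ := exp_QQ h.R0 h.w0.le h.w1.le h.k0
  constructor
  · rw [mul_comm I, Complex.sin_mul_I, Complex.sinh, e1, e2]
    ring
  · rw [mul_comm I, Complex.cos_mul_I, Complex.cosh, e1, e2]
    ring

lemma OwnP.v0 : vv W K 0 = I * K / Complex.cos W := by
  have h1 := h.sne
  have h2 := h.cne
  unfold vv
  rw [Nat.cast_zero, zero_mul, add_zero, h.sinQ.1, ← h.tc]
  have h3 : Complex.tan W ≠ 0 := fun h0 => h1 (by rw [← h.tc, h0, zero_mul])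
  field_simp

lemma OwnP.v1 : vv W K 1 = K * (RR W K + I) := by
  have h1 := h.sne
  unfold vv
  rw [Nat.cast_one, one_mul, Complex.sin_add, h.sinQ.1, h.sinQ.2, div_eq_iff h1]
  linear_combination (I * K) * h.tc

omit h in
lemma vv_add (W K : ℂ) (l : ℕ) :
    vv W K (l + 2) + vv W K l = 2 * Complex.cos W * vv W K (l + 1) := by
  unfold vv
  push_cast
  rw [← add_div, show I * QQ W K + ((l : ℂ) + 2) * W = (I * QQ W K + (l + 1) * W) + W by ring,
    show I * QQ W K + (l : ℂ) * W = (I * QQ W K + (l + 1) * W) - W by ring, Complex.sin_add,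
    Complex.sin_sub]
  ring

lemma OwnP.mul (l : ℕ) : vv W K (l + 2) * vv W K l = vv W K (l + 1) ^ 2 - 1 := by
  have h1 := h.sne
  unfold vv
  push_cast
  rw [show I * QQ W K + ((l : ℂ) + 2) * W = (I * QQ W K + (l + 1) * W) + W by ring,
    show I * QQ W K + (l : ℂ) * W = (I * QQ W K + (l + 1) * W) - W by ring, Complex.sin_add,
    Complex.sin_sub]
  set a := I * QQ W K + ((l : ℂ) + 1) * W
  field_simp
  have e1 := Complex.sin_sq_add_cos_sq a
  have e2 := Complex.sin_sq_add_cos_sq W
  linear_combination (Complex.sin a ^ 2) * e2 - (Complex.sin W ^ 2) * e1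

/-- real and imaginary part -/
lemma OwnP.parts (l : ℕ) :
    (vv W K l).im * normSq (Complex.sin W) =
      Iv W.re (-W.im) (-(QQ W K).im + l * W.re) ((QQ W K).re - l * (-W.im)) ∧
    (vv W K l).re * normSq (Complex.sin W) =
      Rv W.re (-W.im) (-(QQ W K).im + l * W.re) ((QQ W K).re - l * (-W.im)) := by
  have h1 := h.sne
  have hn : normSq (Complex.sin W) ≠ 0 := fun h0 => h1 (normSq_eq_zero.1 h0)
  set X := -(QQ W K).im + l * W.re with hX
  set Y := (QQ W K).re - l * (-W.im) with hY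
  have e0 : I * QQ W K + l * W = (X : ℂ) + (Y : ℂ) * I := by
    apply Complex.ext
    · simp [hX]
    · simp [hY]
  have e3 := sp_sin_re W
  have e4 := sp_sin_im W
  unfold vv
  rw [e0]
  constructor
  · rw [div_im, ← sub_div, div_mul_cancel₀ _ hn, e3, e4, rp_sin_re, rp_sin_im, Iv, Real.cosh_neg,
      Real.sinh_neg]
    ring
  · rw [div_re, ← add_div, div_mul_cancel₀ _ hn, e3, e4, rp_sin_re, rp_sin_im, Rv, Real.cosh_neg,
      Real.sinh_neg]
    ring

lemma OwnP.nsq : 0 < normSq (Complex.sin W) := normSq_pos.2 h.sne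

lemma OwnP.im_iff (l : ℕ) : 0 < (vv W K l).im ↔
    0 < Iv W.re (-W.im) (-(QQ W K).im + l * W.re) ((QQ W K).re - l * (-W.im)) := by
  rw [← (h.parts l).1, mul_pos_iff_of_pos_right h.nsq]

lemma OwnP.re_iff (l : ℕ) : 0 < (vv W K l).re ↔
    0 < Rv W.re (-W.im) (-(QQ W K).im + l * W.re) ((QQ W K).re - l * (-W.im)) := by
  rw [← (h.parts l).2, mul_pos_iff_of_pos_right h.nsq]

/-- a priori bound for `Im Q` -/
lemma OwnP.imQ : |(QQ W K).im| < Real.pi := by
  have h1 : 0 < (Complex.tan W + RR W K).re := by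
    rw [add_re]
    exact add_pos (tan_re_pos h.w0 h.w1.le) h.R0
  have h2 := abs_arg_lt_pi_div_two_iff.2 (Or.inl h1)
  have h3 := abs_arg_lt_pi_div_two_iff.2 (Or.inl h.k0)
  have e : (QQ W K).im = (Complex.tan W + RR W K).arg + K.arg := by
    unfold QQ
    rw [add_im, log_im, log_im]
  rw [e]
  rw [abs_lt] at h2 h3 ⊢
  constructor <;> linarith only [h2, h3, h2.1, h2.2, h3.1, h3.2]

/-- `Im (T K) < 0` for a neighbour of opposite sign -/
lemma OwnP.tan_im_neg : (Complex.tan W).im < 0 := by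
  have h1 := h.im_neg
  have e1 : (Complex.tan W).im * normSq (Complex.cos W) = Real.sinh W.im * Real.cosh W.im := by
    have hn : normSq (Complex.cos W) ≠ 0 := fun h0 => h.cne (normSq_eq_zero.1 h0)
    unfold Complex.tan
    rw [div_im, ← sub_div, div_mul_cancel₀ _ hn, sp_sin_re, sp_sin_im, sp_cos_re, sp_cos_im]
    linear_combination (Real.sinh W.im * Real.cosh W.im) * (Real.sin_sq_add_cos_sq W.re)
  have h2 : 0 < normSq (Complex.cos W) := normSq_pos.2 h.cne
  have h3 := Real.sinh_neg_iff.2 h1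
  have h4 := Real.cosh_pos W.im
  by_contra hc
  have h5 := mul_nonneg (not_lt.1 hc) h2.le
  rw [e1] at h5
  nlinarith only [h5, h3, h4]

lemma OwnP.sinphi (l : ℕ) : Complex.sin (I * QQ W K + l * W) = vv W K l * Complex.sin W := by
  unfold vv
  rw [div_mul_cancel₀ _ h.sne]

/-- **Neighbour of opposite sign.** -/
theorem OwnP.portA (hk : K.im ≤ 0) (ht : 0 ≤ (K * (starRingEnd ℂ) (Complex.cos W)).re) :
    Port W.re (-W.im) (-(QQ W K).im) (QQ W K).re 1 := by
  have hpi := Real.pi_pos
  have hb : 0 < -W.im := by linarith only [h, h.im_neg]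
  refine G2.portA h.w0 h.w2 hb ?_ ?_ ?_
  · -- `Im Q < 0`
    have h1 : (Complex.tan W * K).im < 0 := by
      rw [mul_im]
      have h2 := tan_re_pos h.w0 h.w1.le
      have h3 := h.tan_im_neg
      have h4 := h.k0
      nlinarith only [h2, hk, h3, h4, mul_nonneg h2.le (by linarith only [hk] : 0 ≤ -K.im), mul_pos (by linarith only [h3] : 0 < -(Complex.tan W).im) h4]
    have h2 := h.sinQ.1
    have h3 := congrArg Complex.re h2
    rw [sp_sin_re] at h3
    have e2 : (I * (Complex.tan W * K)).re = -(Complex.tan W * K).im := by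
      rw [mul_re, I_re, I_im]; ring
    have e3 : (I * QQ W K).re = -(QQ W K).im := by rw [mul_re, I_re, I_im]; ring
    rw [e2, e3] at h3
    have h4 : 0 < Real.sin (-(QQ W K).im) * Real.cosh (I * QQ W K).im := by linarith only [h1, h3]
    have h5 : 0 < Real.sin (-(QQ W K).im) := (mul_pos_iff_of_pos_right (Real.cosh_pos _)).1 h4
    by_contra hc
    have h6 := h.imQ
    rw [abs_lt] at h6
    have := Real.sin_nonpos_of_nonpos_of_neg_pi_le (not_lt.1 hc) (by linarith only [h6])
    linarith only [h5, this]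
  · intro _
    have h1 := (h.parts 0).1
    rw [h.v0] at h1
    simp only [Nat.cast_zero, zero_mul, add_zero, sub_zero] at h1
    rw [← h1]
    apply mul_nonneg _ h.nsq.le
    have e : (I * K / Complex.cos W).im =
        (K * (starRingEnd ℂ) (Complex.cos W)).re / normSq (Complex.cos W) := by
      rw [div_im, mul_re, mul_re, mul_im, conj_re, conj_im, I_re, I_im]
      ring
    rw [e]
    exact div_nonneg ht (normSq_nonneg _)
  · intro h1
    have h2 := h.im_iff 1
    have h3 := h.re_iff 1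
    rw [Nat.cast_one, one_mul, one_mul] at h2 h3
    rw [← h2, h.v1, mul_im, add_re, add_im, I_re, I_im, add_zero] at h1
    rw [← h3, h.v1, mul_re, add_re, add_im, I_re, I_im, add_zero]
    have h4 := h.R0
    have h5 := h.k0
    -- `K = a - i c`, `R + i = p + i q`, `a q > c p`
    have h6 : 0 < (RR W K).im + 1 := by
      by_contra hc
      have := mul_nonneg (by linarith only [hc] : 0 ≤ -((RR W K).im + 1)) h5.le
      nlinarith only [h1, this, hk, h4, mul_nonneg (by linarith only [hk] : 0 ≤ -K.im) h4.le]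
    nlinarith only [h5, h4, hk, h6, mul_pos h5 h4, mul_nonneg (by linarith only [hk] : 0 ≤ -K.im) h6.le]

/-- **Neighbour of equal sign.** -/
theorem OwnP.portS (h1 : 0 < (vv W K 1).re) (h2 : 0 < (vv W K 1).im) :
    Port W.re (-W.im) (-(QQ W K).im) (QQ W K).re 1 := by
  have hpi := Real.pi_pos
  have hb : 0 < -W.im := by linarith only [h, h.im_neg]
  have h3 := (h.im_iff 1).1 h2
  have h4 := (h.re_iff 1).1 h1
  rw [Nat.cast_one, one_mul, one_mul] at h3 h4
  refine G2.portS h.w0 h.w2 hb ?_ h3 h4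
  have e := congrArg Complex.re (h.sinphi 1)
  rw [sp_sin_re, mul_re, sp_sin_re, sp_sin_im] at e
  have c2 : 0 < Real.cos W.re := Real.cos_pos_of_mem_Ioo ⟨by linarith only [hpi, h, h.w0], h.w2⟩
  have c3 : 0 < Real.sin W.re := Real.sin_pos_of_pos_of_lt_pi h.w0 (by linarith only [hpi, h, h.w2])
  have c4 := Real.cosh_pos W.im
  have c5 := Real.sinh_neg_iff.2 h.im_neg
  have c6 : 0 < (vv W K 1).re * (Real.sin W.re * Real.cosh W.im) -
      (vv W K 1).im * (Real.cos W.re * Real.sinh W.im) := by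
    have a1 : 0 < (vv W K 1).re * (Real.sin W.re * Real.cosh W.im) := by positivity
    have a2 : 0 < (vv W K 1).im * (Real.cos W.re * -Real.sinh W.im) :=
      mul_pos h2 (mul_pos c2 (by linarith only [c5]))
    linarith only [a1, a2]
  rw [← e] at c6
  have c7 := (mul_pos_iff_of_pos_right (Real.cosh_pos _)).1 c6
  have e3 : (I * QQ W K + (1 : ℕ) * W).re = -(QQ W K).im + W.re := by
    rw [add_re, mul_re, I_re, I_im, Nat.cast_one, one_mul]
    ring_nf
  rw [e3] at c7
  by_contra hc
  have h6 := h.imQ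
  rw [abs_lt] at h6
  have := Real.sin_nonpos_of_nonpos_of_neg_pi_le (not_lt.1 hc) (by linarith only [h6, h, h.w0])
  linarith only [c7, this]

end

/-- **Interior ring.** -/
theorem ring_layers {W K K' : ℂ} (h : OwnP W K) {B : ℕ}
    (hp : Port W.re (-W.im) (-(QQ W K).im) (QQ W K).re 1)
    (hp' : Port W.re (-W.im) (-(QQ W K').im) (QQ W K').re 1)
    (he : (B : ℂ) * W - Real.pi + I * (QQ W K + QQ W K') = 0) {l : ℕ} (hl : 1 ≤ l)
    (hl' : l + 1 ≤ B) : 0 < (vv W K l).re ∧ 0 < (vv W K l).im := by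
  have hb : 0 < -W.im := by linarith only [h, h.im_neg]
  have e1 := congrArg Complex.re he
  have e2 := congrArg Complex.im he
  simp only [sub_re, add_re, mul_re, I_re, I_im, natCast_re, natCast_im, ofReal_re, zero_re,
    add_im] at e1
  simp only [sub_im, add_re, mul_im, I_re, I_im, natCast_re, natCast_im, ofReal_im, zero_im,
    add_im] at e2
  have h1 := path_pos h.w0 h.w2 hb hp hp' (B := B) (by linarith only [e1]) (by linarith only [e2]) hl hl'
  exact ⟨(h.re_iff l).2 h1.2, (h.im_iff l).2 h1.1⟩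

/-- **End ring.** -/
theorem ring_layers_end {W K : ℂ} (h : OwnP W K) {B : ℕ}
    (hp : Port W.re (-W.im) (-(QQ W K).im) (QQ W K).re 1)
    (he : (B : ℂ) * W - Real.pi + I * QQ W K = 0) {l : ℕ} (hl : 1 ≤ l)
    (hl' : l + 2 ≤ B) : 0 < (vv W K l).re ∧ 0 < (vv W K l).im := by
  have hb : 0 < -W.im := by linarith only [h, h.im_neg]
  have e1 := congrArg Complex.re he
  have e2 := congrArg Complex.im he
  simp only [sub_re, add_re, mul_re, I_re, I_im, natCast_re, natCast_im, ofReal_re, zero_re] at e1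
  simp only [sub_im, mul_im, I_re, I_im, natCast_re, natCast_im, ofReal_im, zero_im,
    add_im] at e2
  have h1 := path_pos h.w0 h.w2 hb hp (portF h.w0 h.w2 hb) (B := B) (by linarith only [e1]) (by linarith only [e2]) hl hl'
  exact ⟨(h.re_iff l).2 h1.2, (h.im_iff l).2 h1.1⟩

/-- the same path from the other end -/
lemma vv_mirror {W K K' : ℂ} {B : ℕ}
    (he : (B : ℂ) * W - Real.pi + I * (QQ W K + QQ W K') = 0) {l m : ℕ} (hl : l + m = B) :
    vv W K l = vv W K' m := by
  unfold vv
  congr 1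
  have e : I * QQ W K + l * W = Real.pi - (I * QQ W K' + m * W) := by
    rw [← hl] at he
    push_cast at he
    linear_combination he
  rw [e, Complex.sin_pi_sub]

/-- an end ring: `v_B = 0`, `v_(B - 1) = 1` -/
lemma vv_end {W K : ℂ} (h : OwnP W K) {B : ℕ}
    (he : (B : ℂ) * W - Real.pi + I * QQ W K = 0) : vv W K B = 0 ∧ ∀ m, m + 1 = B → vv W K m = 1 := by
  constructor
  · unfold vv
    rw [show I * QQ W K + B * W = Real.pi by linear_combination he, Complex.sin_pi, zero_div]
  · rintro m rfl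
    unfold vv
    push_cast at he
    rw [show I * QQ W K + m * W = Real.pi - W by linear_combination he, Complex.sin_pi_sub,
      div_self h.sne]

/-- two crossings -/
theorem layer_two {W K K' : ℂ} (h : OwnP W K) (h' : OwnP W K')
    (he : ((2 : ℕ) : ℂ) * W - Real.pi + I * (QQ W K + QQ W K') = 0) : Lp (vv W K 1) := by
  have m0 := vv_mirror he (l := 1) (m := 1) rfl
  have m2 := vv_mirror he (l := 2) (m := 0) rfl
  have r := vv_add W K 0
  rw [zero_add, m2, h'.v0, h.v0, zero_add] at r
  have a1 := h.v1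
  have a2 : vv W K 1 = K' * (RR W K' + I) := m0.trans h'.v1
  set v := vv W K 1 with hv
  set R := RR W K with hR
  set R' := RR W K' with hR'
  have hc := h.cne
  have hk := h.kne
  have hk' := h'.kne
  have p1 : 0 < R.re := h.R0
  have p2 : 0 < R'.re := h'.R0
  have n1 : R + I ≠ 0 := fun h0 => by
    have := congrArg Complex.re h0
    rw [add_re, I_re, zero_re] at this
    linarith only [p1, this]
  have n2 : R' + I ≠ 0 := fun h0 => by
    have := congrArg Complex.re h0
    rw [add_re, I_re, zero_re] at this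
    linarith only [p2, this]
  have n3 : R + R' + 2 * I ≠ 0 := fun h0 => by
    have := congrArg Complex.re h0
    rw [add_re, add_re, mul_re, I_re, zero_re] at this
    simp at this
    linarith only [p1, p2, this]
  have nv : v ≠ 0 := by rw [a1]; exact mul_ne_zero hk n1
  have hT : Complex.tan W ^ 2 = 1 / Complex.cos W ^ 2 - 1 := by
    rw [eq_sub_iff_add_eq, add_comm]
    have := one_add_tan_sq hc
    rw [this]
  have s1 : R ^ 2 = Complex.tan W ^ 2 + (K ^ 2)⁻¹ := h.sq
  -- `2 κ² (R + i) (R' + i) = i (R + R' + 2 i)`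
  have q : 2 * Complex.cos W ^ 2 * ((R + I) * (R' + I)) = I * (R + R' + 2 * I) := by
    have e1 : I * (K + K') = 2 * Complex.cos W ^ 2 * v := by
      field_simp at r
      linear_combination r
    have e2 : v * (2 * Complex.cos W ^ 2 * ((R + I) * (R' + I))) = v * (I * (R + R' + 2 * I)) := by
      linear_combination (-(R + I) * (R' + I)) * e1 + I * (R' + I) * (-a1) + I * (R + I) * (-a2)
    exact mul_left_cancel₀ nv e2
  -- `1 / v² = (R + R') / (R + R' + 2 i)`
  have e3 : (K ^ 2)⁻¹ * v ^ 2 = (R + I) ^ 2 := by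
    rw [a1]
    field_simp
  have e4 : (R + R' + 2 * I) = (R + R') * v ^ 2 := by
    have e5 : (R ^ 2 + 1 - 1 / Complex.cos W ^ 2) * v ^ 2 = (R + I) ^ 2 := by
      rw [← e3, s1, hT]
      ring
    have e6 : 1 / Complex.cos W ^ 2 * (R + R' + 2 * I) = -(2 * I * ((R + I) * (R' + I))) := by
      have hI := Complex.I_sq
      field_simp
      linear_combination I * q + (R + R' + 2 * I) * hI
    have e7 : (R + I) ^ 2 * ((R + R') * v ^ 2) = (R + I) ^ 2 * (R + R' + 2 * I) := by
      have hI := Complex.I_sq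
      have e8 : (R ^ 2 + 1 - 1 / Complex.cos W ^ 2) * (R + R' + 2 * I) = (R + I) ^ 2 * (R + R') := by
        linear_combination (-1) * e6 + (R + R' + 2 * I) * hI
      linear_combination (-v ^ 2) * e8 + (R + R' + 2 * I) * e5
    exact (mul_left_cancel₀ (pow_ne_zero 2 n1) e7).symm
  have e9 : 1 - (v ^ 2)⁻¹ = 2 * I / (R + R' + 2 * I) := by
    rw [eq_div_iff n3, sub_mul, one_mul]
    nth_rewrite 2 [e4]
    have : (v ^ 2)⁻¹ * ((R + R') * v ^ 2) = R + R' := by field_simp
    rw [this]
    ring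
  unfold Lp
  rw [e9, div_im]
  have n4 : 0 < normSq (R + R' + 2 * I) := normSq_pos.2 n3
  have e10 : (2 * I : ℂ).im = 2 := by simp
  have e11 : (2 * I : ℂ).re = 0 := by simp
  have e12 : (R + R' + 2 * I).re = R.re + R'.re := by simp
  rw [e10, e11, e12, zero_mul, zero_div, sub_zero]
  positivity

end Pool.Agent.Work.MP_b30479_gt.G2
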