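import Pool.Agent.Work.MP_b30479_gt.G2.SPosB
import Pool.Agent.Work.MP_b30479_gt.G2.SRingG

/-!
# Positivity of the layers of a word from the ring values
-/

namespace Pool.Agent.Work.MP_b30479_gt.G2

open Complex

/-! ### the polygons -/

/-- own types which need a bound for `κ⁻²` -/
def typQ : RT → Bool
  | .t3as | .t3ss | .t4 | .t5 | .t6 | .t7 | .t8 => true
  | _ => false

lemma vt_facts (t : RT) {z : ℂ} (hz : z ∈ PolyU (vt t)) : 0 < z.re ∧ 0 < z.im ∧ z.re ≤ 1 ∧
    z.im ≤ 68 / 100 ∧ (t ≠ .t2e → z.im < z.re) := by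
  have hz' := KB.polyU_sub _ hz
  refine ⟨KB.poly_re_pos t z hz', ?_, ?_, ?_, ?_⟩
  · by_cases h8 : t = .t8
    · subst h8
      have h1 := hz ((800, 0), (1000, 0)) (by decide)
      simp only [cr] at h1
      push_cast at h1
      linarith only [h1]
    · have := KB.lin_of (al := 0) (be := 1) (mu := 1) (V := vt t)
        (by revert h8; cases t <;> decide) hz'
      push_cast at this
      linarith only [this]
  · have := KB.lin_of (al := -1) (be := 0) (mu := -1000) (V := vt t) (by cases t <;> decide) hz'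
    push_cast at this
    linarith only [this]
  · have := KB.lin_of (al := 0) (be := -1) (mu := -680) (V := vt t) (by cases t <;> decide) hz'
    push_cast at this
    linarith only [this]
  · intro h2
    have := KB.lin_of (al := 1) (be := -1) (mu := 20) (V := vt t)
      (by revert h2; cases t <;> decide) hz'
    push_cast at this
    linarith only [this]

lemma vt_q (t : RT) (ht : typQ t = true) {z : ℂ} (hz : z ∈ Poly (vt t)) :
    7 / 20 ≤ KB.px z ∧ 0 ≤ KB.py z ∧ KB.py z ≤ 17 / 10 := by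
  have h0 : SQ.polyOK 0 0 (-1000) 20 (vt t) = true := by cases t <;> decide
  refine ⟨?_, ?_, ?_⟩
  · have := KB.px_py_of (al := 1000) (be := 0) (ga := 350) (V := vt t) h0
      (by revert ht; cases t <;> decide) hz
    push_cast at this
    linarith only [this]
  · have := KB.px_py_of (al := 0) (be := 1000) (ga := 0) (V := vt t) h0
      (by revert ht; cases t <;> decide) hz
    push_cast at this
    linarith only [this]
  · have := KB.px_py_of (al := 0) (be := -1000) (ga := -1700) (V := vt t) h0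
      (by revert ht; cases t <;> decide) hz
    push_cast at this
    linarith only [this]

/-- the real inequality behind `OwnP.sport` -/
private lemma sport_real {a c x y p q : ℝ} (ha : 0 < a) (k0 : 0 ≤ c) (k1 : c ≤ a) (k2 : a ≤ 1)
    (k3 : c ≤ 68 / 100) (hp1 : -(13 / 20) ≤ p) (h2 : 0 ≤ q) (h3 : q ≤ 17 / 10)
    (hsr : 0 < x * a + y * c)
    (u1 : x ^ 2 - y ^ 2 = 1 + ((a ^ 2 - c ^ 2) * p + 2 * a * c * q))
    (u2 : 2 * x * y = 2 * a * c * p - (a ^ 2 - c ^ 2) * q) :
    0 < x - c ∧ 0 < y + a := by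
  have a2 : a ^ 2 ≤ 1 := pow_le_one₀ ha.le k2
  have c2 : c ^ 2 ≤ (68 / 100) ^ 2 := pow_le_pow_left₀ k0 k3 2
  have ac : c ^ 2 ≤ a ^ 2 := pow_le_pow_left₀ k0 k1 2
  have acq : 0 ≤ 2 * a * c * q := by positivity
  have cc : 0 ≤ c ^ 2 := sq_nonneg c
  have aa : 0 < a ^ 2 := by positivity
  have m1 : 0 ≤ (a ^ 2 - c ^ 2) * (p + 13 / 20) := mul_nonneg (by linarith only [ac]) (by linarith only [hp1])
  have hur : 1 - 13 / 20 * (a ^ 2 - c ^ 2) + 2 * a * c * q ≤
      1 + ((a ^ 2 - c ^ 2) * p + 2 * a * c * q) := by linarith only [m1]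
  -- `Re s > 0`
  have s0 : 0 < x := by
    by_contra hc0
    have hc0 := not_lt.1 hc0
    have h4 : y ^ 2 < x ^ 2 := by linarith only [u1, a2, acq, cc, m1]
    have h5 : |y| < |x| := sq_lt_sq.1 h4
    rw [abs_of_nonpos hc0] at h5
    have h6 : y * c ≤ -x * c := mul_le_mul_of_nonneg_right (le_trans (le_abs_self _) h5.le) k0
    have h7 : -x * c ≤ -x * a := mul_le_mul_of_nonneg_left k1 (by linarith)
    linarith only [hsr, h6, h7]
  constructor
  · have h8 : c ^ 2 < x ^ 2 := by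
      have := sq_nonneg y
      linarith only [u1, a2, c2, acq, m1, this]
    have := lt_of_pow_lt_pow_left₀ 2 s0.le h8
    linarith only [this]
  · by_contra hc0
    have hc0 := not_lt.1 hc0
    -- `y ≤ - a`
    have h4 : a ^ 2 ≤ y ^ 2 := by
      rw [← neg_sq y]
      exact pow_le_pow_left₀ ha.le (by linarith) 2
    have h5 : 4 * a ^ 2 * (1 + ((a ^ 2 - c ^ 2) * p + 2 * a * c * q) + a ^ 2) ≤ (2 * x * y) ^ 2 := by
      rw [← u1]
      have h9 : (2 * x * y) ^ 2 = 4 * (y ^ 2 * x ^ 2) := by ring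
      have h10 : 0 ≤ x ^ 2 - y ^ 2 + a ^ 2 := by
        rw [u1]
        linarith only [ac, acq, cc, m1]
      have h11 : a ^ 2 * (x ^ 2 - y ^ 2 + a ^ 2) ≤ y ^ 2 * x ^ 2 :=
        mul_le_mul h4 (by linarith only [h4]) h10 (sq_nonneg y)
      rw [h9]
      linarith only [h11]
    rw [u2] at h5
    have h6 : 2 * a * c * p - (a ^ 2 - c ^ 2) * q ≤ 0 := by
      rw [← u2]
      have : 0 ≤ x * (-y) := mul_nonneg s0.le (by linarith)
      linarith only [this]
    have h7 : -(2 * a * c * p - (a ^ 2 - c ^ 2) * q) ≤ a * (a * q + 13 / 10 * c) := by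
      have e1 : 0 ≤ a * c * (p + 13 / 20) := mul_nonneg (mul_nonneg ha.le k0) (by linarith only [hp1])
      have e2 : 0 ≤ c ^ 2 * q := mul_nonneg cc h2
      linarith only [e1, e2]
    have h8 : (2 * a * c * p - (a ^ 2 - c ^ 2) * q) ^ 2 ≤ (a * (a * q + 13 / 10 * c)) ^ 2 := by
      rw [← neg_sq]
      exact pow_le_pow_left₀ (by linarith only [h6]) h7 2
    have h9 : a ^ 2 * (4 * (1 + ((a ^ 2 - c ^ 2) * p + 2 * a * c * q) + a ^ 2)) ≤
        a ^ 2 * (a * q + 13 / 10 * c) ^ 2 := by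
      have : (a * (a * q + 13 / 10 * c)) ^ 2 = a ^ 2 * (a * q + 13 / 10 * c) ^ 2 := by ring
      linarith only [h5, h8]
    have h10 := le_of_mul_le_mul_left h9 aa
    have h11 : q ^ 2 ≤ (17 / 10) ^ 2 := pow_le_pow_left₀ h2 h3 2
    have h12 : a ^ 2 * q ^ 2 ≤ 1 * (17 / 10) ^ 2 := mul_le_mul a2 h11 (sq_nonneg q) (by norm_num)
    linarith only [ac, acq, cc, m1, h10, h12]

/-- a port to a neighbour of equal sign -/
theorem OwnP.sport {W K : ℂ} (h : OwnP W K) (h1 : 7 / 20 ≤ KB.px (Complex.cos W))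
    (h2 : 0 ≤ KB.py (Complex.cos W)) (h3 : KB.py (Complex.cos W) ≤ 17 / 10) (k0 : 0 ≤ K.im)
    (k1 : K.im ≤ K.re) (k2 : K.re ≤ 1) (k3 : K.im ≤ 68 / 100) :
    0 < (vv W K 1).re ∧ 0 < (vv W K 1).im := by
  have hK := h.k0
  have hR := h.R0
  have hKn := h.kne
  have hT : Complex.tan W ^ 2 = (Complex.cos W ^ 2)⁻¹ - 1 := by
    rw [eq_sub_iff_add_eq, add_comm, one_add_tan_sq h.cne, one_div]
  have hTr : (Complex.tan W ^ 2).re = KB.px (Complex.cos W) - 1 := by
    rw [hT, sub_re, KB.inv_sq_re, one_re]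
  have hTi : (Complex.tan W ^ 2).im = -KB.py (Complex.cos W) := by
    rw [hT, sub_im, KB.inv_sq_im, one_im, sub_zero]
  obtain ⟨p, hp⟩ : ∃ p, p = KB.px (Complex.cos W) - 1 := ⟨_, rfl⟩
  obtain ⟨q, hq⟩ : ∃ q, q = KB.py (Complex.cos W) := ⟨_, rfl⟩
  rw [← hp] at hTr
  rw [← hq] at hTi h2 h3
  obtain ⟨s, hs⟩ : ∃ s, s = K * RR W K := ⟨_, rfl⟩
  have hs2 : s ^ 2 = 1 + K ^ 2 * Complex.tan W ^ 2 := by
    rw [hs, mul_pow, h.sq]
    field_simp
    ring
  have hv : vv W K 1 = s + I * K := by rw [h.v1, hs]; ring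
  have hRs : RR W K = s / K := by rw [hs]; field_simp
  obtain ⟨T, hTT⟩ : ∃ T, T = Complex.tan W ^ 2 := ⟨_, rfl⟩
  rw [← hTT] at hTr hTi hs2
  have vr : (vv W K 1).re = s.re - K.im := by
    rw [hv, add_re, mul_re, I_re, I_im]; ring
  have vi : (vv W K 1).im = s.im + K.re := by
    rw [hv, add_im, mul_im, I_re, I_im]; ring
  have hn : 0 < normSq K := normSq_pos.2 hKn
  have hsr : 0 < s.re * K.re + s.im * K.im := by
    have e : (RR W K).re * normSq K = s.re * K.re + s.im * K.im := by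
      rw [hRs, div_re, ← add_div, div_mul_cancel₀ _ hn.ne']
    rw [← e]
    positivity
  have u1 : s.re ^ 2 - s.im ^ 2 = 1 + ((K.re ^ 2 - K.im ^ 2) * p + 2 * K.re * K.im * q) := by
    have := congrArg Complex.re hs2
    rw [pow_two, mul_re, add_re, one_re, mul_re, hTr, hTi, pow_two, mul_re, mul_im] at this
    linear_combination this
  have u2 : 2 * s.re * s.im = 2 * K.re * K.im * p - (K.re ^ 2 - K.im ^ 2) * q := by
    have := congrArg Complex.im hs2
    rw [pow_two, mul_im, add_im, one_im, mul_im, hTr, hTi, pow_two, mul_re, mul_im] at this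
    linear_combination this
  rw [vr, vi]
  exact sport_real hK k0 k1 k2 k3 (by linarith only [h1, hp]) h2 h3 hsr u1 u2

end Pool.Agent.Work.MP_b30479_gt.G2
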