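import Pool.Agent.Work.MP_b30479_gt.G2.SPosC
import Pool.Agent.Work.MP_b30479_gt.G2.SWChain

/-!
# Positivity of the layers of a word: all rings
-/

namespace Pool.Agent.Work.MP_b30479_gt.G2

open Complex

/-! ### the own frame -/

/-- identity or conjugation -/
noncomputable def cjz (s : ℤ) : ℂ →+* ℂ := if 0 < s then RingHom.id ℂ else starRingEnd ℂ

lemma cjz_pos {s : ℤ} (h : 0 < s) (z : ℂ) : cjz s z = z := by simp [cjz, h]

lemma cjz_neg {s : ℤ} (h : ¬0 < s) (z : ℂ) : cjz s z = (starRingEnd ℂ) z := by simp [cjz, h]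

lemma cjz_re (s : ℤ) (z : ℂ) : (cjz s z).re = z.re := by
  by_cases h : 0 < s
  · rw [cjz_pos h]
  · rw [cjz_neg h, conj_re]

lemma cjz_im (s : ℤ) (z : ℂ) : (cjz s z).im = sI s * z.im := by
  by_cases h : 0 < s
  · rw [cjz_pos h, sI, if_pos h, one_mul]
  · rw [cjz_neg h, conj_im, sI, if_neg h, neg_one_mul]

lemma cjz_cj (s : ℤ) (z : ℂ) : cjz s (cjz s z) = z := by
  by_cases h : 0 < s
  · rw [cjz_pos h, cjz_pos h]
  · rw [cjz_neg h, cjz_neg h, conj_conj]

lemma cjz_I (s : ℤ) : cjz s I = sI s * I := by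
  by_cases h : 0 < s
  · rw [cjz_pos h, sI, if_pos h]; simp
  · rw [cjz_neg h, conj_I, sI, if_neg h]; simp

lemma cjz_ofReal (s : ℤ) (x : ℝ) : cjz s (x : ℂ) = x := by
  by_cases h : 0 < s
  · rw [cjz_pos h]
  · rw [cjz_neg h, conj_ofReal]

lemma cjz_cos (s : ℤ) (z : ℂ) : cjz s (Complex.cos z) = Complex.cos (cjz s z) := by
  by_cases h : 0 < s
  · rw [cjz_pos h, cjz_pos h]
  · rw [cjz_neg h, cjz_neg h, Complex.cos_conj]

lemma cjz_sin (s : ℤ) (z : ℂ) : cjz s (Complex.sin z) = Complex.sin (cjz s z) := by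
  by_cases h : 0 < s
  · rw [cjz_pos h, cjz_pos h]
  · rw [cjz_neg h, cjz_neg h, Complex.sin_conj]

lemma cjz_tan (s : ℤ) (z : ℂ) : cjz s (Complex.tan z) = Complex.tan (cjz s z) := by
  by_cases h : 0 < s
  · rw [cjz_pos h, cjz_pos h]
  · rw [cjz_neg h, cjz_neg h, Complex.tan_conj]

lemma cjz_RR (s : ℤ) {w k : ℂ} (h : 0 < (RR w k).re) : cjz s (RR w k) = RR (cjz s w) (cjz s k) := by
  by_cases h' : 0 < s
  · rw [cjz_pos h', cjz_pos h', cjz_pos h']
  · rw [cjz_neg h', cjz_neg h', cjz_neg h', RR_conj h]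

lemma cjz_QQ (s : ℤ) {w k : ℂ} (h : 0 < (RR w k).re) (h0 : 0 ≤ w.re) (h1 : w.re ≤ 3 / 2)
    (hk : 0 < k.re) : cjz s (QQ w k) = QQ (cjz s w) (cjz s k) := by
  by_cases h' : 0 < s
  · rw [cjz_pos h', cjz_pos h', cjz_pos h']
  · rw [cjz_neg h', cjz_neg h', cjz_neg h', QQ_conj h h0 h1 hk]

lemma sp_r0 : 0 < r0 := by unfold r0; norm_num

lemma sI_sg {M : ℕ} {b : Fin (M + 1) → ℤ} (n : ℕ) : SR.sg b n = sI (SR.bb b n) := rfl

lemma sI_mul_self (s : ℤ) : (sI s : ℂ) * sI s = 1 := by
  unfold sI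
  split_ifs <;> norm_num

namespace SR

set_option linter.unusedSectionVars false

variable {M : ℕ} (b : Fin (M + 1) → ℤ) (w : ℕ → ℂ)

/-- the ring `n` in its own frame -/
noncomputable def qW (n : ℕ) : ℂ := cjz (bb b n) (w n)

/-- the neighbours of the ring `n` in the frame of the ring `n` -/
noncomputable def qR (n : ℕ) : ℂ := cjz (bb b n) (Complex.cos (w (rn b n)))

noncomputable def qL (n : ℕ) : ℂ := cjz (bb b n) (Complex.cos (w (ln b n)))

variable {b w} (hb : ClassW b) (F : RingFacts) (hw : Sol b w)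

section
include hw

lemma qW_cos (n : ℕ) : Complex.cos (qW b w n) = cjz (bb b n) (Complex.cos (w n)) :=
  (cjz_cos _ _).symm

lemma qW_mem {n : ℕ} (hn : n ≤ M) (hu : us b n = false) :
    Complex.cos (qW b w n) ∈ PolyU (vt (ty b n)) := by
  rw [qW_cos hw]
  have h := hw.mem n hn hu
  by_cases h' : 0 < bb b n
  · have e : sg b n = 1 := if_pos h'
    rw [e, frS_one] at h
    rwa [cjz_pos h']
  · have e : sg b n = -1 := if_neg h'
    rw [e, frS_neg] at h
    rwa [cjz_neg h']

lemma qW_facts {n : ℕ} (hn : n ≤ M) (hu : us b n = false) :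
    0 < (Complex.cos (qW b w n)).re ∧ 0 < (Complex.cos (qW b w n)).im ∧
    (Complex.cos (qW b w n)).re ≤ 1 ∧ (Complex.cos (qW b w n)).im ≤ 68 / 100 ∧
    (ty b n ≠ .t2e → (Complex.cos (qW b w n)).im < (Complex.cos (qW b w n)).re) :=
  vt_facts _ (qW_mem hw hn hu)

include hb

lemma ownR {n : ℕ} (hn : n < M) (hu : us b n = false) : OwnP (qW b w n) (qR b w n) := by
  have h1 := rn_spec hb hn hu
  have h2 := qW_facts hw hn.le hu
  have h3 := qW_facts hw h1.2.1 h1.2.2.1
  have hR : 0 < (RR (w n) (Complex.cos (w (rn b n)))).re := by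
    have := hw.hingeR n hn hu
    have := sp_r0
    linarith
  refine ⟨?_, ?_, h2.1, h2.2.1, ?_, ?_⟩
  · rw [qW, cjz_re]
    exact hw.re0 n hn.le hu
  · rw [qW, cjz_re]
    exact hw.re1 n hn.le hu
  · rw [qR, cjz_re]
    have := h3.1
    rwa [qW_cos hw, cjz_re] at this
  · rw [qW, qR, ← cjz_RR _ hR, cjz_re]
    exact hR

lemma ownL {n : ℕ} (h0 : 0 < n) (hn : n ≤ M) (hu : us b n = false) :
    OwnP (qW b w n) (qL b w n) := by
  have h1 := ln_spec hb h0 hu
  have h2 := qW_facts hw hn hu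
  have h3 := qW_facts hw (by omega : ln b n ≤ M) h1.2.1
  have hR : 0 < (RR (w n) (Complex.cos (w (ln b n)))).re := by
    have h4 := hw.hingeL (ln b n) (by omega) h1.2.1
    rw [h1.2.2] at h4
    have := sp_r0
    linarith only [h4, this]
  refine ⟨?_, ?_, h2.1, h2.2.1, ?_, ?_⟩
  · rw [qW, cjz_re]
    exact hw.re0 n hn hu
  · rw [qW, cjz_re]
    exact hw.re1 n hn hu
  · rw [qL, cjz_re]
    have := h3.1
    rwa [qW_cos hw, cjz_re] at this
  · rw [qW, qL, ← cjz_RR _ hR, cjz_re]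
    exact hR

lemma QQ_cjR {n : ℕ} (hn : n < M) (hu : us b n = false) :
    QQ (qW b w n) (qR b w n) = cjz (bb b n) (QQ (w n) (Complex.cos (w (rn b n)))) := by
  have h := ownR hb hw hn hu
  have hR : 0 < (RR (w n) (Complex.cos (w (rn b n)))).re := by
    have := hw.hingeR n hn hu
    have := sp_r0
    linarith
  have h0 := h.w0
  have h1 := h.w1
  have h2 := h.k0
  rw [qW, cjz_re] at h0 h1
  rw [qR, cjz_re] at h2
  exact (cjz_QQ _ hR h0.le h1.le h2).symm

lemma QQ_cjL {n : ℕ} (h0 : 0 < n) (hn : n ≤ M) (hu : us b n = false) :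
    QQ (qW b w n) (qL b w n) = cjz (bb b n) (QQ (w n) (Complex.cos (w (ln b n)))) := by
  have h := ownL hb hw h0 hn hu
  have h1 := ln_spec hb h0 hu
  have hR : 0 < (RR (w n) (Complex.cos (w (ln b n)))).re := by
    have h4 := hw.hingeL (ln b n) (by omega) h1.2.1
    rw [h1.2.2] at h4
    have := sp_r0
    linarith only [h4, this]
  have h0 := h.w0
  have h1 := h.w1
  have h2 := h.k0
  rw [qW, cjz_re] at h0 h1
  rw [qL, cjz_re] at h2
  exact (cjz_QQ _ hR h0.le h1.le h2).symm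

/-! ### the ring equations in the own frame -/

lemma eqF (hM : 1 ≤ M) : (BB b 0 : ℂ) * qW b w 0 - Real.pi + I * QQ (qW b w 0) (qR b w 0) = 0 := by
  have h := congrArg (cjz (bb b 0)) hw.first
  rw [map_add, map_sub, map_mul, map_mul, map_mul, map_natCast, cjz_ofReal, map_zero, sI_sg, cjz_ofReal,
    cjz_I, ← QQ_cjR hb hw (by omega) rfl] at h
  unfold qW at h ⊢
  linear_combination h - (I * QQ (cjz (bb b 0) (w 0)) (qR b w 0)) * sI_mul_self (bb b 0)

lemma eqM (hM : 1 ≤ M) : (BB b M : ℂ) * qW b w M - Real.pi + I * QQ (qW b w M) (qL b w M) = 0 := by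
  have h := congrArg (cjz (bb b M)) hw.last
  have hu : us b M = false := us_of_ge hb le_rfl
  rw [map_add, map_sub, map_mul, map_mul, map_mul, map_natCast, cjz_ofReal, map_zero, sI_sg, cjz_ofReal,
    cjz_I, ← QQ_cjL hb hw (by omega) le_rfl hu] at h
  unfold qW at h ⊢
  linear_combination h - (I * QQ (cjz (bb b M) (w M)) (qL b w M)) * sI_mul_self (bb b M)

lemma eqM' {n : ℕ} (h : n = M) (hM : 1 ≤ M) :
    (BB b n : ℂ) * qW b w n - Real.pi + I * QQ (qW b w n) (qL b w n) = 0 := by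
  subst h
  exact eqM hb hw hM

lemma eqI {n : ℕ} (h0 : 0 < n) (hn : n < M) (hu : us b n = false) :
    (BB b n : ℂ) * qW b w n - Real.pi + I * (QQ (qW b w n) (qL b w n) + QQ (qW b w n) (qR b w n)) = 0 := by
  have h := congrArg (cjz (bb b n)) (hw.inner n h0 hn hu)
  rw [map_add, map_sub, map_mul, map_mul, map_mul, map_natCast, cjz_ofReal, map_zero, sI_sg, cjz_ofReal,
    cjz_I, map_add, ← QQ_cjL hb hw h0 hn.le hu, ← QQ_cjR hb hw hn hu] at h
  unfold qW at h ⊢
  linear_combination h - (I * (QQ (cjz (bb b n) (w n)) (qL b w n) +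
    QQ (cjz (bb b n) (w n)) (qR b w n))) * sI_mul_self (bb b n)

/-! ### types -/

lemma na_ns_inner {n : ℕ} (h0 : 0 < n) (hn : n < M) : na b n + ns b n = 2 := by
  have h1 := lr_ne_e (b := b) h0
  have h2 := rr_ne_e (b := b) hn
  unfold na ns
  cases h3 : lr b n <;> cases h4 : rr b n <;> simp_all

lemma ty_t2e {n : ℕ} (hn : n ≤ M) (hu : us b n = false) (h : ty b n = .t2e) :
    BB b n = 2 ∧ (n = 0 ∨ n = M) := by
  have h2 := BB_ge hb hn hu
  unfold ty rtype at h
  by_cases h3 : BB b n ≤ 2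
  · refine ⟨by omega, ?_⟩
    by_contra hc
    have h4 := na_ns_inner hb hw (by omega : 0 < n) (by omega : n < M)
    rw [if_pos h3] at h
    by_cases h5 : na b n = 2
    · rw [if_pos h5] at h
      exact absurd h (by decide)
    · rw [if_neg h5] at h
      by_cases h6 : ns b n = 1
      · rw [if_pos h6] at h
        exact absurd h (by decide)
      · -- `ns = 2`
        have h7 : ns b n = 2 := by
          unfold ns na at *
          split_ifs at * <;> omega
        have h8 := BB_two hb hn hu h3 (by omega)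
        omega
  · rw [if_neg h3] at h
    split_ifs at h

lemma typQ_of {n : ℕ} (h3 : 3 ≤ BB b n) (h : 4 ≤ BB b n ∨ (na b n + ns b n = 2 ∧ 1 ≤ ns b n)) :
    typQ (ty b n) = true := by
  unfold ty rtype
  rw [if_neg (by omega)]
  by_cases h4 : BB b n = 3
  · rw [if_pos h4]
    have h5 : na b n + ns b n = 2 ∧ 1 ≤ ns b n := by
      rcases h with h | h
      · omega
      · exact h
    rw [if_neg (by omega : ¬ na b n = 2)]
    by_cases h6 : na b n = 1
    · rw [if_pos h6, if_pos (by omega : ns b n = 1)]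
      rfl
    · rw [if_neg h6, if_pos (by omega : ns b n = 2)]
      rfl
  · rw [if_neg h4]
    split_ifs <;> rfl

/-! ### neighbours -/

omit hb hw in
lemma cjz_opp {s s' : ℤ} (h : s * s' < 0) (z : ℂ) : cjz s z = (starRingEnd ℂ) (cjz s' z) := by
  rcases lt_or_ge 0 s with h1 | h1
  · have h2 : ¬0 < s' := fun h2 => by
      have := mul_pos h1 h2
      omega
    rw [cjz_pos h1, cjz_neg h2, conj_conj]
  · have h2 : 0 < s' := by
      by_contra hc
      have := mul_nonneg_of_nonpos_of_nonpos h1 (not_lt.1 hc)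
      omega
    rw [cjz_neg (by omega), cjz_pos h2]

omit hb hw in
lemma cjz_same {s s' : ℤ} (h : 0 < s * s') (z : ℂ) : cjz s z = cjz s' z := by
  rcases lt_or_ge 0 s with h1 | h1
  · have h2 : 0 < s' := (mul_pos_iff_of_pos_left h1).1 h
    rw [cjz_pos h1, cjz_pos h2]
  · have h2 : ¬0 < s' := fun h2 => by
      have := mul_nonpos_of_nonpos_of_nonneg h1 h2.le
      omega
    rw [cjz_neg (by omega), cjz_neg h2]

lemma qR_opp {n : ℕ} (h : bb b n * bb b (rn b n) < 0) :
    qR b w n = (starRingEnd ℂ) (Complex.cos (qW b w (rn b n))) := by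
  rw [qW_cos hw, qR, cjz_opp h]

lemma qR_same {n : ℕ} (h : 0 < bb b n * bb b (rn b n)) :
    qR b w n = Complex.cos (qW b w (rn b n)) := by
  rw [qW_cos hw, qR, cjz_same h]

lemma qL_opp {n : ℕ} (h : bb b n * bb b (ln b n) < 0) :
    qL b w n = (starRingEnd ℂ) (Complex.cos (qW b w (ln b n))) := by
  rw [qW_cos hw, qL, cjz_opp h]

lemma qL_same {n : ℕ} (h : 0 < bb b n * bb b (ln b n)) :
    qL b w n = Complex.cos (qW b w (ln b n)) := by
  rw [qW_cos hw, qL, cjz_same h]

omit hb hw in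
/-- a two-crossing end ring -/
lemma two_end {W K : ℂ} (h : OwnP W K) (he : ((2 : ℕ) : ℂ) * W - Real.pi + I * QQ W K = 0) :
    0 < (Complex.cos W * (starRingEnd ℂ) K).re := by
  obtain ⟨h1, h2⟩ := vv_end h he
  have h3 := vv_add W K 0
  rw [zero_add, h1, h2 1 rfl, h.v0, zero_add, mul_one] at h3
  have hc := h.cne
  have hK : K = -(2 * I * Complex.cos W ^ 2) := by
    field_simp at h3
    linear_combination (-I) * h3 + K * Complex.I_sq
  have hi := h.ci
  have hn : 0 < normSq (Complex.cos W) := normSq_pos.2 hc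
  rw [normSq_apply] at hn
  have e : (Complex.cos W * (starRingEnd ℂ) K).re =
      2 * ((Complex.cos W).re * (Complex.cos W).re + (Complex.cos W).im * (Complex.cos W).im) *
        (Complex.cos W).im := by
    rw [hK]
    generalize Complex.cos W = c
    simp [pow_two, mul_re, mul_im]
    ring
  rw [e]
  positivity

/-- **the angle at a turn** -/
theorem turn_re {n : ℕ} (hn : n < M) (hu : us b n = false) (h : bb b n * bb b (rn b n) < 0) :
    0 < (Complex.cos (qW b w n) * Complex.cos (qW b w (rn b n))).re := by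
  have h1 := rn_spec hb hn hu
  obtain ⟨a1, a2, -, -, a5⟩ := qW_facts hw hn.le hu
  obtain ⟨b1, b2, -, -, b5⟩ := qW_facts hw h1.2.1 h1.2.2.1
  by_cases t1 : ty b n = .t2e
  · obtain ⟨h2, h3⟩ := ty_t2e hb hw hn.le hu t1
    have h4 : n = 0 := by omega
    subst h4
    have h5 := eqF hb hw (by omega)
    rw [h2] at h5
    have h6 := two_end (ownR hb hw hn hu) h5
    rwa [qR_opp hb hw h, conj_conj] at h6
  · by_cases t2 : ty b (rn b n) = .t2e
    · obtain ⟨h2, h3⟩ := ty_t2e hb hw h1.2.1 h1.2.2.1 t2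
      have h4 : rn b n = M := by omega
      have h5 := eqM' hb hw h4 (by omega : 1 ≤ M)
      rw [h2] at h5
      have h6 := two_end (ownL hb hw (by omega) h1.2.1 h1.2.2.1) h5
      have h7 : bb b (rn b n) * bb b (ln b (rn b n)) < 0 := by rw [h1.2.2.2, mul_comm]; exact h
      rw [qL_opp hb hw h7, conj_conj, h1.2.2.2, mul_comm] at h6
      exact h6
    · have c1 := a5 t1
      have c2 := b5 t2
      rw [mul_re]
      nlinarith only [a2, c2, b1, c1]

lemma portRA {n : ℕ} (hn : n < M) (hu : us b n = false) (h : bb b n * bb b (rn b n) < 0) :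
    Port (qW b w n).re (-(qW b w n).im) (-(QQ (qW b w n) (qR b w n)).im)
      (QQ (qW b w n) (qR b w n)).re 1 := by
  have h1 := rn_spec hb hn hu
  obtain ⟨b1, b2, -, -, b5⟩ := qW_facts hw h1.2.1 h1.2.2.1
  refine (ownR hb hw hn hu).portA ?_ ?_
  · rw [qR_opp hb hw h, conj_im]
    linarith only [b2]
  · rw [qR_opp hb hw h, ← map_mul, conj_re, mul_comm]
    exact (turn_re hb hw hn hu h).le

lemma turn_re' {n : ℕ} (h0 : 0 < n) (hn : n ≤ M) (hu : us b n = false)
    (h : bb b n * bb b (ln b n) < 0) :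
    0 < (Complex.cos (qW b w n) * Complex.cos (qW b w (ln b n))).re := by
  have h1 := ln_spec hb h0 hu
  have h2 := turn_re hb hw (by omega : ln b n < M) h1.2.1 (by rw [h1.2.2, mul_comm]; exact h)
  rwa [h1.2.2, mul_comm] at h2

lemma portLA {n : ℕ} (h0 : 0 < n) (hn : n ≤ M) (hu : us b n = false)
    (h : bb b n * bb b (ln b n) < 0) :
    Port (qW b w n).re (-(qW b w n).im) (-(QQ (qW b w n) (qL b w n)).im)
      (QQ (qW b w n) (qL b w n)).re 1 := by
  have h1 := ln_spec hb h0 hu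
  obtain ⟨b1, b2, -, -, b5⟩ := qW_facts hw (by omega : ln b n ≤ M) h1.2.1
  refine (ownL hb hw h0 hn hu).portA ?_ ?_
  · rw [qL_opp hb hw h, conj_im]
    linarith only [b2]
  · rw [qL_opp hb hw h, ← map_mul, conj_re, mul_comm]
    exact (turn_re' hb hw h0 hn hu h).le

lemma portRS {n : ℕ} (hn : n < M) (hu : us b n = false) (h : 0 < bb b n * bb b (rn b n))
    (ht : typQ (ty b n) = true) :
    Port (qW b w n).re (-(qW b w n).im) (-(QQ (qW b w n) (qR b w n)).im)
      (QQ (qW b w n) (qR b w n)).re 1 := by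
  have h1 := rn_spec hb hn hu
  obtain ⟨b1, b2, b3, b4, b5⟩ := qW_facts hw h1.2.1 h1.2.2.1
  obtain ⟨q1, q2, q3⟩ := vt_q _ ht (KB.polyU_sub _ (qW_mem hw hn.le hu))
  have h2 : ty b (rn b n) ≠ .t2e := fun t2 => by
    obtain ⟨h2, h3⟩ := ty_t2e hb hw h1.2.1 h1.2.2.1 t2
    have h4 : lr b (rn b n) = .s := by rw [lr_rn hb hn hu, rr_eq hn, if_pos h]
    have h5 : 1 ≤ ns b (rn b n) := by
      unfold ns
      rw [h4]
      simp
    have h6 := BB_two hb h1.2.1 h1.2.2.1 (by omega) h5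
    have h7 : rn b n = M := by omega
    have h8 := rr_last (b := b)
    rw [h7] at h6 h4
    unfold na at h6
    rw [h4, h8] at h6
    exact absurd h6.2 (by decide)
  have h3 := (ownR hb hw hn hu).sport q1 q2 q3 (by rw [qR_same hb hw h]; exact b2.le)
    (by rw [qR_same hb hw h]; exact (b5 h2).le) (by rw [qR_same hb hw h]; exact b3)
    (by rw [qR_same hb hw h]; exact b4)
  exact (ownR hb hw hn hu).portS h3.1 h3.2

lemma portLS {n : ℕ} (h0 : 0 < n) (hn : n ≤ M) (hu : us b n = false)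
    (h : 0 < bb b n * bb b (ln b n)) (ht : typQ (ty b n) = true) :
    Port (qW b w n).re (-(qW b w n).im) (-(QQ (qW b w n) (qL b w n)).im)
      (QQ (qW b w n) (qL b w n)).re 1 := by
  have h1 := ln_spec hb h0 hu
  obtain ⟨b1, b2, b3, b4, b5⟩ := qW_facts hw (by omega : ln b n ≤ M) h1.2.1
  obtain ⟨q1, q2, q3⟩ := vt_q _ ht (KB.polyU_sub _ (qW_mem hw hn hu))
  have h4 : rr b (ln b n) = .s := by
    rw [rr_ln hb h0 hn hu, lr_eq h0, if_pos h]
  have h2 : ty b (ln b n) ≠ .t2e := fun t2 => by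
    obtain ⟨h2, h3⟩ := ty_t2e hb hw (by omega : ln b n ≤ M) h1.2.1 t2
    have := BB_of_rr hb h1.2.1 h4
    omega
  have h3 := (ownL hb hw h0 hn hu).sport q1 q2 q3 (by rw [qL_same hb hw h]; exact b2.le)
    (by rw [qL_same hb hw h]; exact (b5 h2).le) (by rw [qL_same hb hw h]; exact b3)
    (by rw [qL_same hb hw h]; exact b4)
  exact (ownL hb hw h0 hn hu).portS h3.1 h3.2

/-! ### the layers -/

lemma opp_or {n : ℕ} (hn : n ≤ M) {m : ℕ} (hm : m ≤ M) :
    bb b n * bb b m < 0 ∨ 0 < bb b n * bb b m := by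
  have := mul_ne_zero (bb_ne hb hn) (bb_ne hb hm)
  omega

lemma portR {n : ℕ} (hn : n < M) (hu : us b n = false) (h3 : 3 ≤ BB b n)
    (h : 4 ≤ BB b n ∨ 0 < n) :
    Port (qW b w n).re (-(qW b w n).im) (-(QQ (qW b w n) (qR b w n)).im)
      (QQ (qW b w n) (qR b w n)).re 1 := by
  have h1 := rn_spec hb hn hu
  rcases opp_or hb hw hn.le h1.2.1 with h2 | h2
  · exact portRA hb hw hn hu h2
  · refine portRS hb hw hn hu h2 (typQ_of hb hw h3 ?_)
    rcases h with h | h
    · exact Or.inl h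
    · right
      refine ⟨na_ns_inner hb hw h hn, ?_⟩
      unfold ns
      rw [rr_eq hn, if_pos h2]
      simp

lemma portL {n : ℕ} (h0 : 0 < n) (hn : n ≤ M) (hu : us b n = false) (h3 : 3 ≤ BB b n)
    (h : 4 ≤ BB b n ∨ n < M) :
    Port (qW b w n).re (-(qW b w n).im) (-(QQ (qW b w n) (qL b w n)).im)
      (QQ (qW b w n) (qL b w n)).re 1 := by
  have h1 := ln_spec hb h0 hu
  rcases opp_or hb hw hn (by omega : ln b n ≤ M) with h2 | h2
  · exact portLA hb hw h0 hn hu h2
  · refine portLS hb hw h0 hn hu h2 (typQ_of hb hw h3 ?_)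
    rcases h with h | h
    · exact Or.inl h
    · right
      refine ⟨na_ns_inner hb hw h0 h, ?_⟩
      unfold ns
      rw [lr_eq h0, if_pos h2]
      simp

omit hb hw in
lemma three_end {W K : ℂ} (h : OwnP W K) (he : ((3 : ℕ) : ℂ) * W - Real.pi + I * QQ W K = 0) :
    Lp (vv W K 1) := by
  obtain ⟨h1, h2⟩ := vv_end h he
  have h3 := vv_add W K 1
  rw [show 1 + 2 = 3 from rfl, h1, show 1 + 1 = 2 from rfl, h2 2 rfl, zero_add, mul_one] at h3
  rw [h3]
  apply lp_of
  · have := h.cr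
    rw [mul_re]
    simp
    exact this
  · have := h.ci
    rw [mul_im]
    simp
    exact this

/-- the first ring, read from its neighbour -/
theorem lay_first (hM : 1 ≤ M) {l : ℕ} (hl : 1 ≤ l) (hl' : l + 2 ≤ BB b 0) :
    Lp (vv (qW b w 0) (qR b w 0) l) := by
  have he := eqF hb hw hM
  have ho := ownR hb hw (by omega : 0 < M) rfl
  by_cases h3 : BB b 0 = 3
  · have : l = 1 := by omega
    subst this
    rw [h3] at he
    exact three_end ho he
  · have hp := portR hb hw (by omega : 0 < M) rfl (by omega) (Or.inl (by omega))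
    have := ring_layers_end ho hp he hl hl'
    exact lp_of this.1 this.2

theorem lay_last (hM : 1 ≤ M) {l : ℕ} (hl : 1 ≤ l) (hl' : l + 2 ≤ BB b M) :
    Lp (vv (qW b w M) (qL b w M) l) := by
  have he := eqM hb hw hM
  have hu : us b M = false := us_of_ge hb le_rfl
  have ho := ownL hb hw (by omega : 0 < M) le_rfl hu
  by_cases h3 : BB b M = 3
  · have : l = 1 := by omega
    subst this
    rw [h3] at he
    exact three_end ho he
  · have hp := portL hb hw (by omega : 0 < M) le_rfl hu (by omega) (Or.inl (by omega))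
    have := ring_layers_end ho hp he hl hl'
    exact lp_of this.1 this.2

theorem lay_inner {n : ℕ} (h0 : 0 < n) (hn : n < M) (hu : us b n = false) {l : ℕ} (hl : 1 ≤ l)
    (hl' : l + 1 ≤ BB b n) : Lp (vv (qW b w n) (qL b w n) l) := by
  have he := eqI hb hw h0 hn hu
  have ho := ownL hb hw h0 hn.le hu
  have ho' := ownR hb hw hn hu
  by_cases h2 : BB b n = 2
  · have : l = 1 := by omega
    subst this
    rw [h2] at he
    exact layer_two ho ho' he
  · have hp := portL hb hw h0 hn.le hu (by omega) (Or.inr hn)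
    have hp' := portR hb hw hn hu (by omega) (Or.inr h0)
    have := ring_layers ho hp hp' he hl hl'
    exact lp_of this.1 this.2

/-- a turn between rings of opposite sign -/
theorem lay_turnR {n : ℕ} (hn : n < M) (hu : us b n = false) (h : bb b n * bb b (rn b n) < 0) :
    Lp (vv (qW b w n) (qR b w n) 0) := by
  have ho := ownR hb hw hn hu
  have h1 := rn_spec hb hn hu
  obtain ⟨a1, a2, -, -, -⟩ := qW_facts hw hn.le hu
  obtain ⟨b1, b2, -, -, -⟩ := qW_facts hw h1.2.1 h1.2.2.1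
  have ht := turn_re hb hw hn hu h
  rw [ho.v0, qR_opp hb hw h]
  have hn2 : 0 < normSq (Complex.cos (qW b w n)) := normSq_pos.2 ho.cne
  generalize Complex.cos (qW b w n) = c at *
  generalize Complex.cos (qW b w (rn b n)) = d at *
  rw [mul_re] at ht
  apply lp_of
  · rw [div_re, ← add_div]
    apply div_pos _ hn2
    simp only [mul_re, mul_im, I_re, I_im, conj_re, conj_im]
    nlinarith only [a1, b2, a2, b1]
  · rw [div_im, ← sub_div]
    apply div_pos _ hn2
    simp only [mul_re, mul_im, I_re, I_im, conj_re, conj_im]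
    nlinarith only [ht]

theorem lay_turnL {n : ℕ} (h0 : 0 < n) (hn : n ≤ M) (hu : us b n = false)
    (h : bb b n * bb b (ln b n) < 0) : Lp (vv (qW b w n) (qL b w n) 0) := by
  have ho := ownL hb hw h0 hn hu
  have h1 := ln_spec hb h0 hu
  obtain ⟨a1, a2, -, -, -⟩ := qW_facts hw hn hu
  obtain ⟨b1, b2, -, -, -⟩ := qW_facts hw (by omega : ln b n ≤ M) h1.2.1
  have ht := turn_re' hb hw h0 hn hu h
  rw [ho.v0, qL_opp hb hw h]
  have hn2 : 0 < normSq (Complex.cos (qW b w n)) := normSq_pos.2 ho.cne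
  generalize Complex.cos (qW b w n) = c at *
  generalize Complex.cos (qW b w (ln b n)) = d at *
  rw [mul_re] at ht
  apply lp_of
  · rw [div_re, ← add_div]
    apply div_pos _ hn2
    simp only [mul_re, mul_im, I_re, I_im, conj_re, conj_im]
    nlinarith only [a1, b2, a2, b1]
  · rw [div_im, ← sub_div]
    apply div_pos _ hn2
    simp only [mul_re, mul_im, I_re, I_im, conj_re, conj_im]
    nlinarith only [ht]

end

end SR

end Pool.Agent.Work.MP_b30479_gt.G2
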