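import Pool.Agent.Work.MP_b30479_gt.G2.S7N

/-!
# Refined location of the value of a ring

All solutions of a ring equation with the ports in star shaped sets `P j` (center `c j`) have
`cos w` in `K`. If no solution lies on the frontier of a closed set `C` and the solution with the
ports `c j` is not in `C`, then no solution is in `C` (move the ports to `c j`).
-/

namespace Pool.Agent.Work.MP_b30479_gt.G2

open Complex Set Filter Topology

/-- solutions of the ring equation with the ports `k j` -/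
structure RSol {J : Type} [Fintype J] (b : ℝ) (K : Set ℂ) (r : ℝ) (k : J → ℂ) (w : ℂ) : Prop where
  re0 : 0 ≤ w.re
  re1 : w.re ≤ 3 / 2
  im : |w.im| ≤ 2
  mem : Complex.cos w ∈ K
  hinge : ∀ j, r ≤ (RR w (k j)).re
  eq : b * w - Real.pi + I * ∑ j, QQ w (k j) = 0

/-- derivative of `QQ` with respect to the ring variable -/
lemma hasDerivAt_QQ1 {w k : ℂ} (h0 : 0 < w.re) (h1 : w.re ≤ 3 / 2) (hc : Complex.cos w ≠ 0)
    (hk : 0 < k.re) (hR : 0 < (RR w k).re) :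
    HasDerivAt (fun z => QQ z k) (1 / (Complex.cos w ^ 2 * RR w k)) w := by
  have h := hasFDerivAt_QQ (f := fun z : ℂ => z) (g := fun _ : ℂ => k)
    (f' := ContinuousLinearMap.id ℂ ℂ) (g' := 0) (x := w) (hasFDerivAt_id w)
    (hasFDerivAt_const k w) h0 h1 hc hk hR
  rw [hasDerivAt_iff_hasFDerivAt]
  refine h.congr_fderiv ?_
  ext
  simp

/-- star shaped about `c` -/
def StarC (c : ℂ) (P : Set ℂ) : Prop :=
  ∀ z ∈ P, ∀ θ : ℝ, 0 ≤ θ → θ ≤ 1 → (θ : ℂ) * c + (1 - θ) * z ∈ P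

theorem no_sol {J : Type} [Fintype J] {b : ℝ} {K U C : Set ℂ} {P : J → Set ℂ} {c : J → ℂ} {r : ℝ}
    (hr : 0 < r)
    (hKc : IsClosed K) (hKr : ∀ z ∈ K, 0 < z.re) (hU : IsOpen U) (hUK : U ⊆ K) (hC : IsClosed C)
    (hP : ∀ j, ∀ z ∈ P j, 0 < z.re) (hst : ∀ j, StarC (c j) (P j))
    (hloc : ∀ k : J → ℂ, (∀ j, k j ∈ P j) → ∀ w : ℂ, RSol b K r k w →
      0 < w.re ∧ w.re < 3 / 2 ∧ |w.im| < 2 ∧ Complex.cos w ∈ U ∧ ∀ j, r < (RR w (k j)).re)
    (hkap : ∀ k : J → ℂ, (∀ j, k j ∈ P j) → ∀ w : ℂ, RSol b K r k w →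
      (b : ℂ) + I * ∑ j, 1 / (Complex.cos w ^ 2 * RR w (k j)) ≠ 0)
    (hcut : ∀ k : J → ℂ, (∀ j, k j ∈ P j) → ∀ w : ℂ, RSol b K r k w → Complex.cos w ∈ C →
      Complex.cos w ∈ interior C)
    (hstart : ∀ w : ℂ, RSol b K r c w → Complex.cos w ∉ C)
    {k : J → ℂ} (hk : ∀ j, k j ∈ P j) {w : ℂ} (hw : RSol b K r k w) : Complex.cos w ∉ C := by
  intro hwC
  -- the ports at the time `θ`
  set kp : ℝ → J → ℂ := fun θ j => θ * c j + (1 - θ) * k j with hkp
  have hkpP : ∀ θ ∈ Icc (0 : ℝ) 1, ∀ j, kp θ j ∈ P j := by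
    intro θ hθ j
    exact hst j _ (hk j) θ hθ.1 hθ.2
  have hkc : ∀ j, Continuous fun p : ℝ × ℂ => kp p.1 j := fun j => by
    simp only [hkp]
    fun_prop
  have hne : ∀ {z : ℂ}, 0 < z.re → z ≠ 0 := fun {z} hz h => by rw [h] at hz; exact lt_irrefl _ hz
  set F : ℝ × ℂ → ℂ := fun p => b * p.2 - Real.pi + I * ∑ j, QQ p.2 (kp p.1 j) with hF
  set F' : ℝ × ℂ → ℂ →L[ℂ] ℂ := fun p => (b + I * ∑ j, 1 / (Complex.cos p.2 ^ 2 *
    RR p.2 (kp p.1 j)) : ℂ) • (1 : ℂ →L[ℂ] ℂ) with hF'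
  set C0 : Set (ℝ × ℂ) := {p | p.1 ∈ Icc (0 : ℝ) 1 ∧ 0 ≤ p.2.re ∧ p.2.re ≤ 3 / 2 ∧
    |p.2.im| ≤ 2 ∧ Complex.cos p.2 ∈ K ∧ Complex.cos p.2 ∈ C} with hC0
  set Kt : Set (ℝ × ℂ) := {p | p ∈ C0 ∧ ∀ j, r ≤ (RR p.2 (kp p.1 j)).re} with hKt
  have hC0cl : IsClosed C0 := by
    have e : C0 = ((Prod.fst : ℝ × ℂ → ℝ) ⁻¹' Icc (0 : ℝ) 1) ∩
        (((fun p : ℝ × ℂ => p.2.re) ⁻¹' Icc 0 (3 / 2)) ∩
          (((fun p : ℝ × ℂ => |p.2.im|) ⁻¹' Iic 2) ∩
            (((fun p : ℝ × ℂ => Complex.cos p.2) ⁻¹' K) ∩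
            ((fun p : ℝ × ℂ => Complex.cos p.2) ⁻¹' C)))) := by
      ext p
      simp only [hC0, mem_inter_iff, mem_preimage, mem_Iic, mem_Icc, and_assoc]
      rfl
    rw [e]
    refine (isClosed_Icc.preimage continuous_fst).inter ?_
    refine IsClosed.inter (isClosed_Icc.preimage (Complex.continuous_re.comp continuous_snd)) ?_
    refine IsClosed.inter (isClosed_Iic.preimage (Complex.continuous_im.comp continuous_snd).abs) ?_
    exact (hKc.preimage (Complex.continuous_cos.comp continuous_snd)).inter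
      (hC.preimage (Complex.continuous_cos.comp continuous_snd))
  have hbig : IsCompact ((Icc (0 : ℝ) 1) ×ˢ ((Icc (0 : ℝ) (3 / 2)) ×ℂ (Icc (-2 : ℝ) 2))) :=
    isCompact_Icc.prod (isCompact_Icc.reProdIm isCompact_Icc)
  have hC0k : IsCompact C0 := by
    refine hbig.of_isClosed_subset hC0cl ?_
    rintro p ⟨h1, h2, h3, h4, _⟩
    exact ⟨h1, ⟨h2, h3⟩, abs_le.1 h4⟩
  have hcos : ∀ p ∈ C0, 0 < (Complex.cos p.2).re := fun p hp => hKr _ hp.2.2.2.2.1
  have hkre : ∀ p ∈ C0, ∀ j, 0 < (kp p.1 j).re := fun p hp j => hP j _ (hkpP _ hp.1 j)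
  have hKtC : Kt ⊆ C0 := fun p hp => hp.1
  have hKtcl : IsClosed Kt := by
    have e : Kt = C0 ∩ ⋂ j, (C0 ∩ (fun p : ℝ × ℂ => (RR p.2 (kp p.1 j)).re) ⁻¹' (Ici r)) := by
      ext p
      simp only [mem_inter_iff, mem_iInter, mem_preimage, mem_Ici]
      constructor
      · intro hp
        exact ⟨hp.1, fun j => ⟨hp.1, hp.2 j⟩⟩
      · rintro ⟨h1, h2⟩
        exact ⟨h1, fun j => (h2 j).2⟩
    rw [e]
    refine hC0cl.inter (isClosed_iInter fun j => ?_)
    refine ContinuousOn.preimage_isClosed_of_isClosed ?_ hC0cl isClosed_Ici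
    intro p hp
    exact (continuousAt_RR_re continuous_snd.continuousAt (hkc j).continuousAt
      (cos_ne_of (hcos p hp)) (hne (hkre p hp j))).continuousWithinAt
  have hKtk : IsCompact Kt := hC0k.of_isClosed_subset hKtcl hKtC
  have hcF : ContinuousOn F Kt := by
    intro p hp
    refine ContinuousAt.continuousWithinAt ?_
    simp only [hF]
    refine ContinuousAt.add ?_ ?_
    · exact ((continuous_const.mul continuous_snd).sub continuous_const).continuousAt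
    · refine continuousAt_const.mul ?_
      refine tendsto_finsetSum _ fun j _ => ?_
      exact continuousAt_QQ continuous_snd.continuousAt (hkc j).continuousAt hp.1.2.1 hp.1.2.2.1
        (cos_ne_of (hcos p hp.1)) (hkre p hp.1 j) (hr.trans_le (hp.2 j))
  have hloc2 : ∀ p ∈ Kt, p.1 ∈ Icc (0 : ℝ) 1 → F p = 0 → ∃ V : Set (ℝ × ℂ), IsOpen V ∧ p ∈ V ∧
      (∀ q ∈ V, q.1 ∈ Icc (0 : ℝ) 1 → q ∈ Kt ∧ HasFDerivAt (fun z => F (q.1, z)) (F' q) q.2) ∧
      ContinuousOn F' (V ∩ {q | q.1 ∈ Icc (0 : ℝ) 1}) ∧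
      ∃ e : ℂ ≃L[ℂ] ℂ, (e : ℂ →L[ℂ] ℂ) = F' p := by
    intro p hp hp1 hp0
    have hsol : RSol b K r (kp p.1) p.2 :=
      ⟨hp.1.2.1, hp.1.2.2.1, hp.1.2.2.2.1, hp.1.2.2.2.2.1, hp.2, hp0⟩
    have hkP := hkpP p.1 hp1
    obtain ⟨l1, l2, l3, l4, l5⟩ := hloc _ hkP _ hsol
    have hd := hkap _ hkP _ hsol
    have hint := hcut _ hkP _ hsol hp.1.2.2.2.2.2
    set G : Set (ℝ × ℂ) := {q | (0 < q.2.re ∧ q.2.re < 3 / 2 ∧ |q.2.im| < 2 ∧
      Complex.cos q.2 ∈ U ∧ Complex.cos q.2 ∈ interior C) ∧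
      (0 < (Complex.cos q.2).re) ∧ ∀ j, 0 < (kp q.1 j).re ∧ r < (RR q.2 (kp q.1 j)).re} with hG
    have hGn : G ∈ 𝓝 p := by
      show ∀ᶠ q in 𝓝 p, (0 < q.2.re ∧ q.2.re < 3 / 2 ∧ |q.2.im| < 2 ∧
        Complex.cos q.2 ∈ U ∧ Complex.cos q.2 ∈ interior C) ∧
        (0 < (Complex.cos q.2).re) ∧ ∀ j, 0 < (kp q.1 j).re ∧ r < (RR q.2 (kp q.1 j)).re
      have hcre : Continuous fun q : ℝ × ℂ => q.2.re := Complex.continuous_re.comp continuous_snd
      have hcim : Continuous fun q : ℝ × ℂ => |q.2.im| :=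
        (Complex.continuous_im.comp continuous_snd).abs
      have hccos : Continuous fun q : ℝ × ℂ => Complex.cos q.2 :=
        Complex.continuous_cos.comp continuous_snd
      refine (((hcre.continuousAt.eventually (lt_mem_nhds l1)).and
        ((hcre.continuousAt.eventually (gt_mem_nhds l2)).and
        ((hcim.continuousAt.eventually (gt_mem_nhds l3)).and
        ((hccos.continuousAt.eventually (hU.mem_nhds l4)).and
        (hccos.continuousAt.eventually (isOpen_interior.mem_nhds hint)))))).and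
        (((Complex.continuous_re.comp hccos).continuousAt.eventually
          (lt_mem_nhds (hcos p hp.1))).and ?_))
      rw [Filter.eventually_all]
      intro j
      refine ((Complex.continuous_re.comp (hkc j)).continuousAt.eventually
        (lt_mem_nhds (hkre p hp.1 j))).and ?_
      have hcont := continuousAt_RR_re (f := fun q : ℝ × ℂ => q.2)
        (g := fun q : ℝ × ℂ => kp q.1 j) (x := p) continuous_snd.continuousAt
        (hkc j).continuousAt (cos_ne_of (hcos p hp.1)) (hne (hkre p hp.1 j))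
      exact hcont.eventually (lt_mem_nhds (l5 j))
    obtain ⟨V, hVG, hVo, hpV⟩ := mem_nhds_iff.1 hGn
    refine ⟨V, hVo, hpV, ?_, ?_, ?_⟩
    · intro q hq hq1
      have hqG := hVG hq
      refine ⟨⟨⟨hq1, hqG.1.1.le, hqG.1.2.1.le, hqG.1.2.2.1.le, hUK hqG.1.2.2.2.1,
        interior_subset hqG.1.2.2.2.2⟩, fun j => (hqG.2.2 j).2.le⟩, ?_⟩
      have hder : HasDerivAt (fun z : ℂ => F (q.1, z)) (b + I * ∑ j, 1 / (Complex.cos q.2 ^ 2 *
          RR q.2 (kp q.1 j)) : ℂ) q.2 := by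
        have h1 : HasDerivAt (fun z : ℂ => ∑ j, QQ z (kp q.1 j))
            (∑ j, 1 / (Complex.cos q.2 ^ 2 * RR q.2 (kp q.1 j))) q.2 := by
          refine HasDerivAt.fun_sum fun j _ => ?_
          exact hasDerivAt_QQ1 hqG.1.1 hqG.1.2.1.le (cos_ne_of hqG.2.1) (hqG.2.2 j).1
            (hr.trans (hqG.2.2 j).2)
        have h2 : HasDerivAt (fun z : ℂ => (b : ℂ) * z - Real.pi) (b : ℂ) q.2 := by
          have := ((hasDerivAt_id q.2).const_mul (b : ℂ)).sub_const (Real.pi : ℂ)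
          simpa using this
        exact h2.add (h1.const_mul I)
      have := hder.hasFDerivAt
      refine this.congr_fderiv ?_
      ext
      simp [hF']
    · intro q hq
      have hqG := hVG hq.1
      have hcc : ContinuousAt (fun q : ℝ × ℂ => ((b : ℂ) + I * ∑ j, 1 / (Complex.cos q.2 ^ 2 *
          RR q.2 (kp q.1 j)))) q := by
        refine continuousAt_const.add (continuousAt_const.mul ?_)
        refine tendsto_finsetSum _ fun j _ => ?_
        have hcw : ContinuousAt (fun q : ℝ × ℂ => Complex.cos q.2) q :=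
          (Complex.continuous_cos.comp continuous_snd).continuousAt
        have hc0 := cos_ne_of hqG.2.1
        have hR := hr.trans (hqG.2.2 j).2
        exact continuousAt_const.div ((hcw.pow 2).mul (continuousAt_RR continuous_snd.continuousAt
          (hkc j).continuousAt hc0 (hne (hqG.2.2 j).1) hR))
          (mul_ne_zero (pow_ne_zero 2 hc0) (RR_ne hR))
      exact (hcc.smul (continuousAt_const (y := (1 : ℂ →L[ℂ] ℂ)))).continuousWithinAt
    · refine ⟨ContinuousLinearEquiv.unitsEquivAut ℂ (Units.mk0 _ hd), ?_⟩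
      ext
      simp [hF']
  have h0 : ∃ z, ((0 : ℝ), z) ∈ Kt ∧ F (0, z) = 0 := by
    have hk0 : kp 0 = k := by
      funext j
      simp [hkp]
    refine ⟨w, ⟨⟨⟨le_rfl, zero_le_one⟩, hw.re0, hw.re1, hw.im, hw.mem, hwC⟩, fun j => ?_⟩, ?_⟩
    · show r ≤ (RR w (kp 0 j)).re
      rw [hk0]
      exact hw.hinge j
    · show b * w - Real.pi + I * ∑ j, QQ w (kp 0 j) = 0
      rw [hk0]
      exact hw.eq
  obtain ⟨z, hz, hz0⟩ := continuation_set hKtk hcF hloc2 h0 (θ := 1) ⟨zero_le_one, le_rfl⟩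
  have hk1 : kp 1 = c := by
    funext j
    simp [hkp]
  have hsol : RSol b K r c z := by
    refine ⟨hz.1.2.1, hz.1.2.2.1, hz.1.2.2.2.1, hz.1.2.2.2.2.1, fun j => ?_, ?_⟩
    · have := hz.2 j
      simp only at this
      rw [hk1] at this
      exact this
    · have h1 : F (1, z) = b * z - Real.pi + I * ∑ j, QQ z (kp 1 j) := rfl
      rw [h1, hk1] at hz0
      exact hz0
  exact hstart z hsol hz.1.2.2.2.2.2

end Pool.Agent.Work.MP_b30479_gt.G2
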