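import Pool.Agent.Work.MP_b30479_gt.G2.SZa
import Pool.Agent.Work.MP_b30479_gt.G2.SWordH

/-!
# Rings with at least eight crossings: location of the ring value, uniformly in the number of
crossings
-/

namespace Pool.Agent.Work.MP_b30479_gt.G2

open Complex Set SQ KB
open scoped ComplexConjugate

namespace Z8

/-! ### elementary bounds -/

lemma sinh_ge {r : ℝ} (hr : 0 ≤ r) : r + r ^ 3 / 6 ≤ Real.sinh r := by
  have h := Real.hasSum_sinh r
  have h2 := sum_le_hasSum (Finset.range 2) (fun n _ => by positivity) h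
  simp only [Finset.sum_range_succ, Finset.sum_range_zero] at h2
  norm_num [Nat.factorial] at h2
  linarith only [h2]

lemma sinh_le {r : ℝ} (h0 : 0 ≤ r) (h1 : r ≤ 1) :
    Real.sinh r ≤ r + r ^ 3 / 6 + r ^ 4 * (5 / 96) := by
  have e1 := Real.exp_bound (x := r) (by rwa [abs_of_nonneg h0]) (n := 4) (by norm_num)
  have e2 := Real.exp_bound (x := -r) (by rwa [abs_neg, abs_of_nonneg h0]) (n := 4) (by norm_num)
  rw [abs_of_nonneg h0] at e1
  rw [abs_neg, abs_of_nonneg h0] at e2
  simp only [Finset.sum_range_succ, Finset.sum_range_zero] at e1 e2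
  norm_num [Nat.factorial] at e1 e2
  rw [Real.sinh_eq]
  have a1 := (abs_le.1 e1).2
  have a2 := (abs_le.1 e2).1
  nlinarith only [a1, a2]

/-- a bound for `r` from a bound for `sinh r` -/
lemma le_of_sinh {r v m : ℝ} (hv : 0 ≤ v) (h : Real.sinh r ^ 2 ≤ m) (h2 : m < (v + v ^ 3 / 6) ^ 2) :
    |r| < v := by
  by_contra hc
  push Not at hc
  have h3 := sinh_ge (abs_nonneg r)
  have h4 : Real.sinh |r| ^ 2 = Real.sinh r ^ 2 := by
    rcases abs_choice r with h | h <;> rw [h]
    rw [Real.sinh_neg]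
    ring
  have h5 : v + v ^ 3 / 6 ≤ |r| + |r| ^ 3 / 6 := by
    have := pow_le_pow_left₀ hv hc 3
    linarith only [hc, this]
  have h6 : (v + v ^ 3 / 6) ^ 2 ≤ Real.sinh |r| ^ 2 :=
    pow_le_pow_left₀ (by positivity) (h5.trans h3) 2
  linarith only [h, h2, h4, h6]

/-! ### `tan` -/

lemma cos_parts (w : ℂ) : (Complex.cos w).re = Real.cos w.re * Real.cosh w.im ∧
    (Complex.cos w).im = -(Real.sin w.re * Real.sinh w.im) := by
  have e : w = (w.re : ℂ) + w.im * I := (Complex.re_add_im w).symm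
  constructor
  · conv_lhs => rw [e, Complex.cos_add, Complex.cos_mul_I, Complex.sin_mul_I]
    simp [Complex.cosh_ofReal_re, Complex.sinh_ofReal_re, Complex.cos_ofReal_re,
      Complex.sin_ofReal_re, Complex.cosh_ofReal_im, Complex.sinh_ofReal_im,
      Complex.cos_ofReal_im, Complex.sin_ofReal_im]
  · conv_lhs => rw [e, Complex.cos_add, Complex.cos_mul_I, Complex.sin_mul_I]
    simp [Complex.cosh_ofReal_re, Complex.sinh_ofReal_re, Complex.cos_ofReal_re,
      Complex.sin_ofReal_re, Complex.cosh_ofReal_im, Complex.sinh_ofReal_im,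
      Complex.cos_ofReal_im, Complex.sin_ofReal_im]

lemma sin_parts (w : ℂ) : (Complex.sin w).re = Real.sin w.re * Real.cosh w.im ∧
    (Complex.sin w).im = Real.cos w.re * Real.sinh w.im := by
  have e : w = (w.re : ℂ) + w.im * I := (Complex.re_add_im w).symm
  constructor
  · conv_lhs => rw [e, Complex.sin_add, Complex.cos_mul_I, Complex.sin_mul_I]
    simp [Complex.cosh_ofReal_re, Complex.sinh_ofReal_re, Complex.cos_ofReal_re,
      Complex.sin_ofReal_re, Complex.cosh_ofReal_im, Complex.sinh_ofReal_im,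
      Complex.cos_ofReal_im, Complex.sin_ofReal_im]
  · conv_lhs => rw [e, Complex.sin_add, Complex.cos_mul_I, Complex.sin_mul_I]
    simp [Complex.cosh_ofReal_re, Complex.sinh_ofReal_re, Complex.cos_ofReal_re,
      Complex.sin_ofReal_re, Complex.cosh_ofReal_im, Complex.sinh_ofReal_im,
      Complex.cos_ofReal_im, Complex.sin_ofReal_im]

lemma tan_parts {w : ℂ} (hc : 0 < Real.cos w.re) :
    (Complex.tan w).re * (Real.cos w.re ^ 2 + Real.sinh w.im ^ 2) =
      Real.sin w.re * Real.cos w.re ∧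
    (Complex.tan w).im * (Real.cos w.re ^ 2 + Real.sinh w.im ^ 2) =
      Real.sinh w.im * Real.cosh w.im := by
  obtain ⟨c1, c2⟩ := cos_parts w
  obtain ⟨s1, s2⟩ := sin_parts w
  have h1 := Real.cosh_sq w.im
  have h2 := Real.sin_sq_add_cos_sq w.re
  have hN : 0 < Real.cos w.re ^ 2 + Real.sinh w.im ^ 2 := by positivity
  have hn : Complex.normSq (Complex.cos w) = Real.cos w.re ^ 2 + Real.sinh w.im ^ 2 := by
    rw [Complex.normSq_apply, c1, c2]
    nlinarith only [h1, h2]
  rw [Complex.tan, Complex.div_re, Complex.div_im, hn, c1, c2, s1, s2]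
  constructor
  · field_simp
    linear_combination (Real.sin w.re) * h1
  · field_simp
    linear_combination (Real.sinh w.im) * h2

/-! ### the sides of a ring -/

/-- a side of a ring in its own frame, with its term `Q` in the ring equation -/
def Sd : SK → ℂ → ℂ → Prop
  | .e, _, Q => Q = 0
  | .a, w, Q => ∃ k, conj k ∈ Poly pA ∧ 0 < (RR w k).re ∧ Q = QQ w k
  | .z, w, Q => ∃ k t, typS t = true ∧ k ∈ Poly (vt t) ∧ 0 < (RR w k).re ∧ Q = QQ w k
  | .s, w, Q => ∃ k, k ∈ Poly pS ∧ 0 < (RR w k).re ∧ Q = QQ w k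

/-- a ring with at least eight crossings in its own frame -/
structure Rg (B : ℕ) (x y : SK) (w Q Q' : ℂ) : Prop where
  B8 : 8 ≤ B
  mem : Complex.cos w ∈ Poly (vt .t8)
  h0 : 0 < w.re
  h1 : w.re ≤ 3 / 2
  sd : Sd x w Q
  sd' : Sd y w Q'
  eq : (B : ℂ) * w - Real.pi + I * (Q + Q') = 0

lemma pA_norm {k : ℂ} (hk : conj k ∈ Poly pA) : 4 / 10 ≤ k.re ∧ -(676 / 1000) ≤ k.im ∧ k.im ≤ 0 ∧
    k.re - 1 / 4 * k.im ≤ 1 := by
  have h1 := pA_re hk
  have h2 := pA_im hk
  have h3 := lin_sound (al := -4) (be := -1) (mu := -4000) (V := pA) (by decide) hk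
  rw [Complex.conj_re] at h1 h3
  rw [Complex.conj_im] at h2 h3
  push_cast at h3
  refine ⟨h1.1, by linarith only [h2, h2.2], by linarith only [h2, h2.1], by linarith only [h3]⟩

lemma pS_norm {k : ℂ} (hk : k ∈ Poly pS) : 5 / 10 ≤ k.re ∧ 0 ≤ k.im ∧ k.im ≤ 676 / 1000 ∧
    k.re + 1 / 4 * k.im ≤ 1 := by
  have h1 := pS_re hk
  have h2 := pS_im hk
  have h3 := lin_sound (al := -4) (be := -1) (mu := -4000) (V := pS) (by decide) hk
  push_cast at h3
  refine ⟨h1.1, h2.1, h2.2, by linarith only [h3]⟩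

lemma z_mem {k : ℂ} {t : RT} (ht : typS t = true) (hk : k ∈ Poly (vt t)) : k ∈ Poly pS := by
  refine starS t ?_ ⟨1, by norm_num, le_rfl, k, hk, by simp⟩
  cases t <;> first | rfl | exact absurd ht (by decide)

lemma z_norm {k : ℂ} {t : RT} (ht : typS t = true) (hk : k ∈ Poly (vt t)) :
    66 / 100 ≤ k.re ∧ k.re + 4 / 10 * k.im ≤ 1 ∧ k.im ≤ 33 / 100 := by
  have h1 := lin_sound (al := 1) (be := 0) (mu := 660) (V := vt t)
    (by revert ht; cases t <;> simp only [typS] <;> decide) hk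
  have h2 := lin_sound (al := -10) (be := -4) (mu := -10000) (V := vt t)
    (by revert ht; cases t <;> simp only [typS] <;> decide) hk
  have h3 := lin_sound (al := 0) (be := -1) (mu := -330) (V := vt t)
    (by revert ht; cases t <;> simp only [typS] <;> decide) hk
  push_cast at h1 h2 h3
  refine ⟨by linarith only [h1], by linarith only [h2], by linarith only [h3]⟩

/-- the port of a side -/
lemma Sd.port {x : SK} {w Q : ℂ} (h : Sd x w Q) (hx : x ≠ .e) : ∃ k, Q = QQ w k ∧
    0 < (RR w k).re ∧ 4 / 10 ≤ k.re ∧ k.re + 1 / 4 * |k.im| ≤ 1 ∧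
    |k.im| ≤ (if x = .z then 33 / 100 else 676 / 1000) ∧
    (x = .a → conj k ∈ Poly pA) ∧ (x ≠ .a → k ∈ Poly pS) ∧
    (x = .z → 66 / 100 ≤ k.re ∧ k.re + 4 / 10 * k.im ≤ 1) := by
  cases x
  · exact absurd rfl hx
  · obtain ⟨k, h1, h2, h3⟩ := h
    obtain ⟨g1, g2, g3, g4⟩ := pA_norm h1
    refine ⟨k, h3, h2, g1, ?_, ?_, fun _ => h1, fun h => absurd rfl h,
      fun h => absurd h (by decide)⟩
    · rw [abs_of_nonpos g3]; linarith only [g4]
    · rw [if_neg (by decide), abs_of_nonpos g3]; linarith only [g2]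
  · obtain ⟨k, t, ht, h1, h2, h3⟩ := h
    have h1' := z_mem ht h1
    obtain ⟨g1, g2, g3, g4⟩ := pS_norm h1'
    obtain ⟨z1, z2, z3⟩ := z_norm ht h1
    refine ⟨k, h3, h2, by linarith only [z1], ?_, ?_, fun h => absurd h (by decide), fun _ => h1',
      fun _ => ⟨z1, z2⟩⟩
    · rw [abs_of_nonneg g2]; linarith only [g4]
    · rw [if_pos rfl, abs_of_nonneg g2]; linarith only [z3]
  · obtain ⟨k, h1, h2, h3⟩ := h
    obtain ⟨g1, g2, g3, g4⟩ := pS_norm h1
    refine ⟨k, h3, h2, by linarith only [g1], ?_, ?_, fun h => absurd h (by decide), fun _ => h1,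
      fun h => absurd h (by decide)⟩
    · rw [abs_of_nonneg g2]; linarith only [g4]
    · rw [if_neg (by decide), abs_of_nonneg g2]; linarith only [g3]

/-- the facts about a side which are used below -/
structure Fa (x : SK) (w Q : ℂ) : Prop where
  half : |Q.im| < Real.pi / 2
  re : Real.sinh Q.re ^ 2 ≤ 1148 / 1000 * ((Complex.tan w).re ^ 2 + (Complex.tan w).im ^ 2)
  nonpos : x = .e ∨ x = .a → Q.im ≤ 0
  le : ∀ θ : ℝ, 0 ≤ θ → θ ≤ Real.pi / 2 →
    (if x = .z then 33 / 100 else 676 / 1000) * (Complex.tan w).re ≤ Real.sin θ → Q.im ≤ θ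

lemma tan_im_nonpos {t : RT} {w : ℂ} (hm : Complex.cos w ∈ Poly (vt t)) (h0 : 0 < w.re)
    (h1 : w.re ≤ 3 / 2) : (Complex.tan w).im ≤ 0 := by
  have hc := cos_ne_of_n (own_n hm)
  have hy := own_y hm
  have u1 : (Complex.tan w ^ 2).im = -py (Complex.cos w) := by
    rw [tan_sq_eq, sub_div, div_self (pow_ne_zero 2 hc), one_div]
    rw [Complex.sub_im, inv_sq_im]
    simp
  rw [sq_im] at u1
  by_contra hc2
  push Not at hc2
  have h3 := tan_re_pos h0 h1
  have : 0 < 2 * (Complex.tan w).re * (Complex.tan w).im := by positivity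
  rw [u1] at this
  linarith only [hy, this]

lemma Sd.fa {x : SK} {t : RT} (ht : typS t = true) {w Q : ℂ} (h : Sd x w Q)
    (hm : Complex.cos w ∈ Poly (vt t)) (h0 : 0 < w.re) (h1 : w.re ≤ 3 / 2) : Fa x w Q := by
  have hpi := Real.pi_pos
  by_cases hx : x = .e
  · subst hx
    have h2 : Q = 0 := h
    subst h2
    refine ⟨by simp; positivity, by simp; positivity, fun _ => by simp, fun θ h3 _ _ => by simpa using h3⟩
  · obtain ⟨k, rfl, hR, g1, g2, g3, g4, g5, g6⟩ := h.port hx
    have g3' : |k.im| ≤ 676 / 1000 := by split_ifs at g3 <;> linarith only [g3]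
    have hk : 0 < k.re := by linarith only [g1]
    have hT := tan_re_nonneg h0.le h1
    have hTi := tan_im_nonpos hm h0 h1
    obtain ⟨e1, e2⟩ := cosh_QQ hR h0.le h1 hk
    have hs := cosh_re_im (QQ w k)
    have hH : |(QQ w k).im| < Real.pi / 2 := by
      apply QQ_im_half hR h0.le h1 hk
      by_cases hxa : x = .a
      · exact RRk_a ht hm (g4 hxa) hR
      · exact RRk_s hm (g5 hxa) hR
    rw [e2] at hs
    obtain ⟨_, hs1, hs2⟩ := hs
    have hC := Real.one_le_cosh (QQ w k).re
    have hC2 := Real.cosh_sq (QQ w k).re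
    have hS2 := Real.sin_sq_add_cos_sq (QQ w k).im
    have hkn : k.re ^ 2 + k.im ^ 2 ≤ 1148 / 1000 := by
      have a1 := abs_nonneg k.im
      rw [← sq_abs k.im]
      have a2 : k.re ^ 2 ≤ (1 - 1 / 4 * |k.im|) ^ 2 := pow_le_pow_left₀ hk.le (by linarith only [g2]) 2
      have a3 : |k.im| * |k.im| ≤ 676 / 1000 * |k.im| := mul_le_mul_of_nonneg_right g3' a1
      linarith only [g2, g3', hk, a2, a3]
    refine ⟨hH, ?_, ?_, ?_⟩
    · have e3 : Real.sinh (QQ w k).re ^ 2 + Real.sin (QQ w k).im ^ 2 =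
          ((Complex.tan w).re ^ 2 + (Complex.tan w).im ^ 2) * (k.re ^ 2 + k.im ^ 2) := by
        have e4 : (Complex.tan w * k).re ^ 2 + (Complex.tan w * k).im ^ 2 =
            ((Complex.tan w).re ^ 2 + (Complex.tan w).im ^ 2) * (k.re ^ 2 + k.im ^ 2) := by
          rw [Complex.mul_re, Complex.mul_im]
          ring
        rw [← e4, hs1, hs2, mul_pow, mul_pow, hC2]
        linear_combination (-(Real.sinh (QQ w k).re ^ 2)) * hS2
      have : 0 ≤ (Complex.tan w).re ^ 2 + (Complex.tan w).im ^ 2 := by positivity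
      have a1 := mul_le_mul_of_nonneg_left hkn this
      have a2 := sq_nonneg (Real.sin (QQ w k).im)
      linarith only [e3, a1, a2]
    · intro hx2
      have hxa : x = .a := by
        rcases hx2 with h | h
        · exact absurd h hx
        · exact h
      obtain ⟨p1, p2, p3, p4⟩ := pA_norm (g4 hxa)
      have h4 : (Complex.tan w * k).im ≤ 0 := by
        rw [Complex.mul_im]
        exact add_nonpos (mul_nonpos_of_nonneg_of_nonpos hT p3)
          (mul_nonpos_of_nonpos_of_nonneg hTi hk.le)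
      rw [hs1] at h4
      by_contra hc
      push Not at hc
      have h5 : 0 < Real.sin (QQ w k).im :=
        Real.sin_pos_of_pos_of_lt_pi hc (by linarith only [hc, hH, (abs_lt.1 hH).2])
      exact absurd h4 (not_le.2 (mul_pos (by linarith only [hC]) h5))
    · intro θ t1 t2 t3
      by_contra hc
      push Not at hc
      have h4 : (Complex.tan w * k).im ≤
          (if x = .z then 33 / 100 else 676 / 1000) * (Complex.tan w).re := by
        rw [Complex.mul_im]
        have h6 := ((abs_le.1 (le_refl |k.im|)).2).trans g3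
        have h7 := mul_le_mul_of_nonneg_left h6 hT
        have h8 : (Complex.tan w).im * k.re ≤ 0 := mul_nonpos_of_nonpos_of_nonneg hTi hk.le
        linarith only [h7, h8]
      rw [hs1] at h4
      have h5 : Real.sin θ < Real.sin (QQ w k).im :=
        Real.sin_lt_sin_of_lt_of_le_pi_div_two (by linarith only [hpi, t1]) (by linarith only [hH, (abs_lt.1 hH).2]) hc
      have h6 : 0 ≤ Real.sin θ := Real.sin_nonneg_of_nonneg_of_le_pi t1 (by linarith only [hpi, t2])
      have h7 : Real.sin (QQ w k).im ≤ Real.cosh (QQ w k).re * Real.sin (QQ w k).im :=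
        le_mul_of_one_le_left (h6.trans h5.le) hC
      linarith only [t3, h4, h5, h7]

/-! ### the bootstrap -/

/-- number of split sides -/
def nS : SK → ℝ
  | .s => 1
  | _ => 0

/-- number of unsplit sides of equal sign -/
def nZ : SK → ℝ
  | .z => 1
  | _ => 0

/-- number of sides -/
def nE : SK → ℝ
  | .e => 0
  | _ => 1

variable {B : ℕ} {x y : SK} {w Q Q' : ℂ}

lemma Rg.re_eq (R : Rg B x y w Q Q') : (B : ℝ) * w.re = Real.pi + (Q.im + Q'.im) := by
  have h := congrArg Complex.re R.eq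
  simp only [Complex.add_re, Complex.sub_re, Complex.mul_re, Complex.natCast_re,
    Complex.natCast_im, Complex.ofReal_re, Complex.I_re, Complex.I_im, Complex.add_im,
    Complex.zero_re] at h
  linarith only [h]

lemma Rg.im_eq (R : Rg B x y w Q Q') : (B : ℝ) * -w.im = Q.re + Q'.re := by
  have h := congrArg Complex.im R.eq
  simp only [Complex.add_im, Complex.sub_im, Complex.mul_im, Complex.natCast_re,
    Complex.natCast_im, Complex.ofReal_im, Complex.I_re, Complex.I_im, Complex.add_re,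
    Complex.zero_im] at h
  linarith only [h]

lemma Rg.cos_pos (R : Rg B x y w Q Q') : 0 < Real.cos w.re :=
  Real.cos_pos_of_mem_Ioo ⟨by linarith only [R, R.h0, Real.pi_pos], by linarith only [R, R.h1, Real.pi_gt_three]⟩

lemma Rg.im_nonpos (R : Rg B x y w Q Q') : w.im ≤ 0 := by
  have h1 := lin_sound (al := 0) (be := 1) (mu := 0) (V := vt .t8) (by decide) R.mem
  have h2 := (cos_parts w).2
  have h3 : 0 < Real.sin w.re :=
    Real.sin_pos_of_pos_of_lt_pi R.h0 (by linarith only [R, R.h1, Real.pi_gt_three])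
  push_cast at h1
  have h4 : 0 ≤ (Complex.cos w).im := by linarith only [h1]
  rw [h2] at h4
  by_contra hc
  push Not at hc
  have := Real.sinh_pos_iff.2 hc
  nlinarith only [h2, h1, h3, this]

lemma fa_re_le {x : SK} {w Q : ℂ} (h : Fa x w Q) (he : x = .e → Q = 0) {τ v : ℝ}
    (hT : (Complex.tan w).re ^ 2 + (Complex.tan w).im ^ 2 ≤ τ) (hv : 0 ≤ v)
    (h2 : 1148 / 1000 * τ < (v + v ^ 3 / 6) ^ 2) : Q.re ≤ nE x * v := by
  by_cases hx : x = .e
  · rw [he hx, hx]
    simp [nE]
  · have h3 := le_of_sinh hv (h.re.trans (by linarith only [hT])) h2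
    have e : nE x = 1 := by
      cases x <;> first | rfl | exact absurd rfl hx
    rw [e, one_mul]
    exact ((le_abs_self _).trans h3.le)

lemma fa_im_le {x : SK} {w Q : ℂ} (h : Fa x w Q) {θ φ : ℝ}
    (h0 : 0 ≤ θ) (h1 : θ ≤ 1) (h2 : 676 / 1000 * (Complex.tan w).re ≤ θ - θ ^ 3 / 6)
    (g0 : 0 ≤ φ) (g1 : φ ≤ 1) (g2 : 33 / 100 * (Complex.tan w).re ≤ φ - φ ^ 3 / 6) :
    Q.im ≤ nS x * θ + nZ x * φ := by
  have hpi := Real.pi_gt_three
  have h3 : ∀ {θ : ℝ}, 0 ≤ θ → θ - θ ^ 3 / 6 ≤ Real.sin θ := by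
    intro θ h0
    rcases h0.eq_or_lt with h4 | h4
    · rw [← h4]; simp
    · exact (Real.sin_gt_sub_cube h4).le
  cases x
  · simp only [nS, nZ, zero_mul, add_zero]; exact h.nonpos (Or.inl rfl)
  · simp only [nS, nZ, zero_mul, add_zero]; exact h.nonpos (Or.inr rfl)
  · have h5 := h.le φ g0 (by linarith) (by rw [if_pos rfl]; linarith [h3 g0])
    simp only [nS, nZ, one_mul, zero_mul, zero_add]; exact h5
  · have h5 := h.le θ h0 (by linarith) (by rw [if_neg (by decide)]; linarith [h3 h0])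
    simp only [nS, nZ, one_mul, zero_mul, add_zero]; exact h5

lemma Rg.bound (R : Rg B x y w Q Q') {τ v χ θ φ : ℝ}
    (hT : (Complex.tan w).re ^ 2 + (Complex.tan w).im ^ 2 ≤ τ) (hX : (Complex.tan w).re ≤ χ)
    (hv : 0 ≤ v) (h2 : 1148 / 1000 * τ < (v + v ^ 3 / 6) ^ 2) (h0 : 0 ≤ θ) (h1 : θ ≤ 1)
    (h3 : 676 / 1000 * χ ≤ θ - θ ^ 3 / 6) (g0 : 0 ≤ φ) (g1 : φ ≤ 1)
    (g3 : 33 / 100 * χ ≤ φ - φ ^ 3 / 6) :
    8 * w.re ≤ Real.pi + ((nS x + nS y) * θ + (nZ x + nZ y) * φ) ∧
      8 * -w.im ≤ (nE x + nE y) * v := by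
  have f1 := R.sd.fa (t := .t8) rfl R.mem R.h0 R.h1
  have f2 := R.sd'.fa (t := .t8) rfl R.mem R.h0 R.h1
  have e1 : x = .e → Q = 0 := fun h => by have := R.sd; rw [h] at this; exact this
  have e2 : y = .e → Q' = 0 := fun h => by have := R.sd'; rw [h] at this; exact this
  have a1 := fa_re_le f1 e1 hT hv h2
  have a2 := fa_re_le f2 e2 hT hv h2
  have b1 := fa_im_le f1 h0 h1 (by linarith only [hX, h3]) g0 g1 (by linarith only [hX, g3])
  have b2 := fa_im_le f2 h0 h1 (by linarith only [hX, h3]) g0 g1 (by linarith only [hX, g3])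
  have hB : (8 : ℝ) ≤ B := by exact_mod_cast R.B8
  have c1 := R.re_eq
  have c2 := R.im_eq
  have c3 := R.im_nonpos
  have c4 := R.h0
  have d1 := mul_le_mul_of_nonneg_right hB c4.le
  have d2 := mul_le_mul_of_nonneg_right hB (neg_nonneg.2 c3)
  constructor <;> linarith only [b1, b2, c1, d1, a1, a2, c2, d2]

lemma tan_norm {w : ℂ} (hc : 0 < Real.cos w.re) :
    ((Complex.tan w).re ^ 2 + (Complex.tan w).im ^ 2) *
      (1 - Real.sin w.re ^ 2 + Real.sinh w.im ^ 2) = Real.sin w.re ^ 2 + Real.sinh w.im ^ 2 := by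
  obtain ⟨h1, h2⟩ := tan_parts hc
  have h3 := Real.cosh_sq w.im
  have h4 := Real.sin_sq_add_cos_sq w.re
  have hN : 0 < Real.cos w.re ^ 2 + Real.sinh w.im ^ 2 := by positivity
  apply mul_right_cancel₀ hN.ne'
  have e : ((Complex.tan w).re ^ 2 + (Complex.tan w).im ^ 2) *
      (1 - Real.sin w.re ^ 2 + Real.sinh w.im ^ 2) * (Real.cos w.re ^ 2 + Real.sinh w.im ^ 2) =
      ((Complex.tan w).re * (Real.cos w.re ^ 2 + Real.sinh w.im ^ 2)) ^ 2 +
      ((Complex.tan w).im * (Real.cos w.re ^ 2 + Real.sinh w.im ^ 2)) ^ 2 := by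
    have : 1 - Real.sin w.re ^ 2 = Real.cos w.re ^ 2 := by linarith only [h4]
    rw [this]
    ring
  rw [e, h1, h2]
  have e2 : Real.cos w.re ^ 2 = 1 - Real.sin w.re ^ 2 := by linarith only [h4]
  rw [mul_pow, mul_pow, h3, e2]
  ring

/-- one round -/
lemma Rg.step (R : Rg B x y w Q Q') {A E S H τ v χ θ φ : ℝ} (hA : w.re ≤ A) (hA1 : A ≤ 1)
    (hE : -w.im ≤ E) (hE1 : E ≤ 1)
    (hS : (A - A ^ 3 / 6 + A ^ 5 / 100) ^ 2 ≤ S) (hS2 : S ≤ 1 / 2)
    (hH : (E + E ^ 3 / 6 + E ^ 4 * (5 / 96)) ^ 2 ≤ H)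
    (hτ : S + H ≤ τ * (1 - S + H)) (hχ : S ≤ χ ^ 2 * (1 - S)) (hχ0 : 0 ≤ χ)
    (hv : 0 ≤ v) (h2 : 1148 / 1000 * τ < (v + v ^ 3 / 6) ^ 2) (h0 : 0 ≤ θ) (h1 : θ ≤ 1)
    (h3 : 676 / 1000 * χ ≤ θ - θ ^ 3 / 6) (g0 : 0 ≤ φ) (g1 : φ ≤ 1)
    (g3 : 33 / 100 * χ ≤ φ - φ ^ 3 / 6) :
    8 * w.re ≤ Real.pi + ((nS x + nS y) * θ + (nZ x + nZ y) * φ) ∧
      8 * -w.im ≤ (nE x + nE y) * v ∧
      (Complex.tan w).re ^ 2 + (Complex.tan w).im ^ 2 ≤ τ ∧ (Complex.tan w).re ≤ χ ∧
      Real.sin w.re ^ 2 ≤ S ∧ Real.sinh w.im ^ 2 ≤ H := by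
  have hpi := Real.pi_gt_three
  have hr0 := R.h0
  have hi0 := R.im_nonpos
  have hc := R.cos_pos
  have hs0 : 0 < Real.sin w.re := Real.sin_pos_of_pos_of_lt_pi hr0 (by linarith only [hA, hA1, hpi])
  have hs : Real.sin w.re ^ 2 ≤ S := by
    have a1 : Real.sin w.re ≤ Real.sin A :=
      Real.sin_le_sin_of_le_of_le_pi_div_two (by linarith only [hpi, hr0]) (by linarith only [hA1, hpi]) hA
    have a2 := (abs_le.1 (Real.sin_bound (x := A) (by rw [abs_of_pos (by linarith only [hA, hr0])]; exact hA1))).2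
    rw [abs_of_pos (by linarith only [hA, hr0] : (0 : ℝ) < A)] at a2
    have a3 : Real.sin w.re ≤ A - A ^ 3 / 6 + A ^ 5 / 100 := by linarith only [a1, a2]
    exact (pow_le_pow_left₀ hs0.le a3 2).trans hS
  have hh : Real.sinh w.im ^ 2 ≤ H := by
    have a1 : Real.sinh (-w.im) ≤ Real.sinh E := Real.sinh_le_sinh.2 hE
    have a2 := sinh_le (r := E) (by linarith only [hE, hi0]) hE1
    have a3 : 0 ≤ Real.sinh (-w.im) := Real.sinh_nonneg_iff.2 (by linarith only [hi0])
    have a4 : Real.sinh w.im ^ 2 = Real.sinh (-w.im) ^ 2 := by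
      rw [Real.sinh_neg]; ring
    rw [a4]
    exact (pow_le_pow_left₀ a3 (a1.trans a2) 2).trans hH
  have hn := tan_norm hc
  set t := (Complex.tan w).re ^ 2 + (Complex.tan w).im ^ 2 with ht
  have hH0 : 0 ≤ H := (sq_nonneg _).trans hH
  have hD : 0 < 1 - S + H := by linarith only [hS2, hH0]
  have hD2 : 0 < 1 - Real.sin w.re ^ 2 + Real.sinh w.im ^ 2 := by
    have := sq_nonneg (Real.sinh w.im)
    linarith only [hS2, hs, this]
  have hT : t ≤ τ := by
    have b1 : (Real.sin w.re ^ 2 + Real.sinh w.im ^ 2) * (1 - S + H) ≤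
        (S + H) * (1 - Real.sin w.re ^ 2 + Real.sinh w.im ^ 2) := by
      have u1 := mul_nonneg (sub_nonneg.2 hh) (by linarith only [hS2] : (0 : ℝ) ≤ 1 - 2 * S)
      have u2 := mul_nonneg (sub_nonneg.2 hs) (by linarith only [hH0] : (0 : ℝ) ≤ 1 + 2 * H)
      linarith only [u1, u2]
    have b2 : t * (1 - Real.sin w.re ^ 2 + Real.sinh w.im ^ 2) * (1 - S + H) ≤
        τ * (1 - Real.sin w.re ^ 2 + Real.sinh w.im ^ 2) * (1 - S + H) := by
      rw [hn]
      calc _ ≤ (S + H) * (1 - Real.sin w.re ^ 2 + Real.sinh w.im ^ 2) := b1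
        _ ≤ (τ * (1 - S + H)) * (1 - Real.sin w.re ^ 2 + Real.sinh w.im ^ 2) :=
          mul_le_mul_of_nonneg_right hτ hD2.le
        _ = _ := by ring
    have b3 := le_of_mul_le_mul_right b2 hD
    exact le_of_mul_le_mul_right b3 hD2
  have hX : (Complex.tan w).re ≤ χ := by
    have h4 := (tan_parts hc).1
    have h5 := Real.sin_sq_add_cos_sq w.re
    have hT0 := tan_re_nonneg hr0.le R.h1
    have h6 : (Complex.tan w).re * Real.cos w.re ≤ Real.sin w.re := by
      have : (Complex.tan w).re * Real.cos w.re * Real.cos w.re ≤ Real.sin w.re * Real.cos w.re := by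
        rw [← h4]
        linarith only [hT0, mul_nonneg hT0 (sq_nonneg (Real.sinh w.im))]
      exact le_of_mul_le_mul_right this hc
    have h7 : ((Complex.tan w).re * Real.cos w.re) ^ 2 ≤ S := 
      (pow_le_pow_left₀ (by positivity) h6 2).trans hs
    have h8 : (Complex.tan w).re ^ 2 * (1 - S) ≤ χ ^ 2 * (1 - S) := by
      have : (Complex.tan w).re ^ 2 * (1 - S) ≤ (Complex.tan w).re ^ 2 * Real.cos w.re ^ 2 :=
        mul_le_mul_of_nonneg_left (by linarith only [hs, h5]) (sq_nonneg _)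
      rw [mul_pow] at h7
      linarith only [hχ, h7, this]
    have h9 := le_of_mul_le_mul_right h8 (by linarith only [hS2] : (0 : ℝ) < 1 - S)
    exact le_of_sq_le_sq h9 hχ0
  obtain ⟨r1, r2⟩ := R.bound hT hX hv h2 h0 h1 h3 g0 g1 g3
  exact ⟨r1, r2, hT, hX, hs, hh⟩

lemma Rg.start (R : Rg B x y w Q Q') :
    8 * w.re ≤ Real.pi + ((nS x + nS y) * (666 / 1000) + (nZ x + nZ y) * (306 / 1000)) ∧
      8 * -w.im ≤ (nE x + nE y) * (87 / 100) := by
  have hc := cos_ne_of_n (own_n R.mem)
  have hT : (Complex.tan w).re ^ 2 + (Complex.tan w).im ^ 2 ≤ 8305 / 10000 := by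
    have h : polyOK 2000 0 311 1000 (vt .t8) = true := by decide
    have h1 := poly_sound h R.mem
    have h2 := norm_one_sub_sq (Complex.cos w)
    simp only [quart, Int.cast_ofNat, Int.cast_zero] at h1
    have h3 : ‖Complex.tan w ^ 2‖ * ((Complex.cos w).re ^ 2 + (Complex.cos w).im ^ 2) =
        ‖1 - Complex.cos w ^ 2‖ := by
      rw [tan_sq_eq, norm_div, norm_pow (Complex.cos w), norm_sq_re_im]
      have := own_n R.mem
      field_simp
    have h4 : ‖Complex.tan w ^ 2‖ = (Complex.tan w).re ^ 2 + (Complex.tan w).im ^ 2 := by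
      rw [norm_pow, norm_sq_re_im]
    have hn := own_n R.mem
    rw [← h4]
    set N := (Complex.cos w).re ^ 2 + (Complex.cos w).im ^ 2
    have h5 : (‖Complex.tan w ^ 2‖ * N) ^ 2 ≤ (8305 / 10000 * N) ^ 2 := by
      rw [h3, h2]
      nlinarith only [h1, sq_nonneg N]
    have h6 := le_of_sq_le_sq h5 (by positivity)
    exact le_of_mul_le_mul_right h6 hn
  have hX : (Complex.tan w).re ≤ 9114 / 10000 := by
    apply le_of_sq_le_sq _ (by norm_num)
    nlinarith only [hT, sq_nonneg (Complex.tan w).im]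
  exact R.bound hT hX (by norm_num) (by norm_num) (by norm_num) (by norm_num) (by norm_num)
    (by norm_num) (by norm_num) (by norm_num)

lemma im_of {a m v E : ℝ} (h : 8 * a ≤ m * v) (hm : m ≤ 2) (hv : 0 ≤ v) (hE : 2 * v ≤ 8 * E) :
    a ≤ E := by
  have := mul_le_mul_of_nonneg_right hm hv
  linarith only [h, hE, this]

lemma nE_le (x y : SK) : nE x + nE y ≤ 2 := by
  cases x <;> cases y <;> norm_num [nE]

lemma Rg.loc00 (R : Rg B x y w Q Q') (hs : nS x + nS y = 0) (hz : nZ x + nZ y = 0) :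
    w.re ≤ 39270 / 100000 ∧ 8 * -w.im ≤ (nE x + nE y) * (4445 / 10000) ∧
      (Complex.tan w).re ^ 2 + (Complex.tan w).im ^ 2 ≤ 18357 / 100000 ∧ (Complex.tan w).re ≤ 41424 / 100000 ∧
      Real.sin w.re ^ 2 ≤ 14646 / 100000 ∧ Real.sinh w.im ^ 2 ≤ 1252 / 100000 := by
  have hpi : Real.pi < 31416 / 10000 := by have := Real.pi_lt_d4; linarith only [this]
  have hm := nE_le x y
  have t0 := R.start
  rw [hs, hz] at t0
  have t1 := R.step (A := 39270 / 100000) (E := 21750 / 100000) (S := 14646 / 100000) (H := 4811 / 100000) (τ := 21580 / 100000) (v := 4794 / 10000)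
    (χ := 41424 / 100000) (θ := 2839 / 10000) (φ := 1372 / 10000)
    (by linarith only [hpi, t0, t0.1]) (by norm_num) (im_of t0.2 hm (by norm_num) (by norm_num)) (by norm_num) (by norm_num)
    (by norm_num) (by norm_num) (by norm_num) (by norm_num) (by norm_num) (by norm_num)
    (by norm_num) (by norm_num) (by norm_num) (by norm_num) (by norm_num) (by norm_num) (by norm_num)
  rw [hs, hz] at t1
  have t2 := R.step (A := 39270 / 100000) (E := 11985 / 100000) (S := 14646 / 100000) (H := 1444 / 100000) (τ := 18538 / 100000) (v := 4465 / 10000)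
    (χ := 41424 / 100000) (θ := 2839 / 10000) (φ := 1372 / 10000)
    (by linarith only [hpi, t0, t1.1]) (by norm_num) (im_of t1.2.1 hm (by norm_num) (by norm_num)) (by norm_num) (by norm_num)
    (by norm_num) (by norm_num) (by norm_num) (by norm_num) (by norm_num) (by norm_num)
    (by norm_num) (by norm_num) (by norm_num) (by norm_num) (by norm_num) (by norm_num) (by norm_num)
  rw [hs, hz] at t2
  have t3 := R.step (A := 39270 / 100000) (E := 11163 / 100000) (S := 14646 / 100000) (H := 1252 / 100000) (τ := 18357 / 100000) (v := 4445 / 10000)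
    (χ := 41424 / 100000) (θ := 2839 / 10000) (φ := 1372 / 10000)
    (by linarith only [hpi, t0, t2.1]) (by norm_num) (im_of t2.2.1 hm (by norm_num) (by norm_num)) (by norm_num) (by norm_num)
    (by norm_num) (by norm_num) (by norm_num) (by norm_num) (by norm_num) (by norm_num)
    (by norm_num) (by norm_num) (by norm_num) (by norm_num) (by norm_num) (by norm_num) (by norm_num)
  rw [hs, hz] at t3
  exact ⟨by linarith only [hpi, t0, t3.1], t3.2.1, t3.2.2.1, t3.2.2.2.1, t3.2.2.2.2.1, t3.2.2.2.2.2⟩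

lemma Rg.loc01 (R : Rg B x y w Q Q') (hs : nS x + nS y = 0) (hz : nZ x + nZ y = 1) :
    w.re ≤ 41074 / 100000 ∧ 8 * -w.im ≤ (nE x + nE y) * (4658 / 10000) ∧
      (Complex.tan w).re ^ 2 + (Complex.tan w).im ^ 2 ≤ 20291 / 100000 ∧ (Complex.tan w).re ≤ 43561 / 100000 ∧
      Real.sin w.re ^ 2 ≤ 15949 / 100000 ∧ Real.sinh w.im ^ 2 ≤ 1387 / 100000 := by
  have hpi : Real.pi < 31416 / 10000 := by have := Real.pi_lt_d4; linarith only [this]
  have hm := nE_le x y
  have t0 := R.start
  rw [hs, hz] at t0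
  have t1 := R.step (A := 43095 / 100000) (E := 21750 / 100000) (S := 17453 / 100000) (H := 4811 / 100000) (τ := 25486 / 100000) (v := 5178 / 10000)
    (χ := 45982 / 100000) (θ := 3162 / 10000) (φ := 1524 / 10000)
    (by linarith only [hpi, t0, t0.1]) (by norm_num) (im_of t0.2 hm (by norm_num) (by norm_num)) (by norm_num) (by norm_num)
    (by norm_num) (by norm_num) (by norm_num) (by norm_num) (by norm_num) (by norm_num)
    (by norm_num) (by norm_num) (by norm_num) (by norm_num) (by norm_num) (by norm_num) (by norm_num)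
  rw [hs, hz] at t1
  have t2 := R.step (A := 41175 / 100000) (E := 12945 / 100000) (S := 16019 / 100000) (H := 1686 / 100000) (τ := 20668 / 100000) (v := 4699 / 10000)
    (χ := 43675 / 100000) (θ := 2998 / 10000) (φ := 1447 / 10000)
    (by linarith only [hpi, t1, t1.1]) (by norm_num) (im_of t1.2.1 hm (by norm_num) (by norm_num)) (by norm_num) (by norm_num)
    (by norm_num) (by norm_num) (by norm_num) (by norm_num) (by norm_num) (by norm_num)
    (by norm_num) (by norm_num) (by norm_num) (by norm_num) (by norm_num) (by norm_num) (by norm_num)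
  rw [hs, hz] at t2
  have t3 := R.step (A := 41079 / 100000) (E := 11748 / 100000) (S := 15949 / 100000) (H := 1387 / 100000) (τ := 20291 / 100000) (v := 4658 / 10000)
    (χ := 43561 / 100000) (θ := 2990 / 10000) (φ := 1443 / 10000)
    (by linarith only [hpi, t2, t2.1]) (by norm_num) (im_of t2.2.1 hm (by norm_num) (by norm_num)) (by norm_num) (by norm_num)
    (by norm_num) (by norm_num) (by norm_num) (by norm_num) (by norm_num) (by norm_num)
    (by norm_num) (by norm_num) (by norm_num) (by norm_num) (by norm_num) (by norm_num) (by norm_num)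
  rw [hs, hz] at t3
  exact ⟨by linarith only [hpi, t3, t3.1], t3.2.1, t3.2.2.1, t3.2.2.2.1, t3.2.2.2.2.1, t3.2.2.2.2.2⟩

lemma Rg.loc02 (R : Rg B x y w Q Q') (hs : nS x + nS y = 0) (hz : nZ x + nZ y = 2) :
    w.re ≤ 43083 / 100000 ∧ 8 * -w.im ≤ (nE x + nE y) * (4901 / 10000) ∧
      (Complex.tan w).re ^ 2 + (Complex.tan w).im ^ 2 ≤ 22628 / 100000 ∧ (Complex.tan w).re ≤ 46009 / 100000 ∧
      Real.sin w.re ^ 2 ≤ 17470 / 100000 ∧ Real.sinh w.im ^ 2 ≤ 1557 / 100000 := by
  have hpi : Real.pi < 31416 / 10000 := by have := Real.pi_lt_d4; linarith only [this]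
  have hm := nE_le x y
  have t0 := R.start
  rw [hs, hz] at t0
  have t1 := R.step (A := 46920 / 100000) (E := 21750 / 100000) (S := 20450 / 100000) (H := 4811 / 100000) (τ := 29944 / 100000) (v := 5575 / 10000)
    (χ := 50703 / 100000) (θ := 3499 / 10000) (φ := 1682 / 10000)
    (by linarith only [hpi, t0, t0.1]) (by norm_num) (im_of t0.2 hm (by norm_num) (by norm_num)) (by norm_num) (by norm_num)
    (by norm_num) (by norm_num) (by norm_num) (by norm_num) (by norm_num) (by norm_num)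
    (by norm_num) (by norm_num) (by norm_num) (by norm_num) (by norm_num) (by norm_num) (by norm_num)
  rw [hs, hz] at t1
  have t2 := R.step (A := 43475 / 100000) (E := 13938 / 100000) (S := 17742 / 100000) (H := 1956 / 100000) (τ := 23391 / 100000) (v := 4977 / 10000)
    (χ := 46443 / 100000) (θ := 3194 / 10000) (φ := 1539 / 10000)
    (by linarith only [hpi, t1, t1.1]) (by norm_num) (im_of t1.2.1 hm (by norm_num) (by norm_num)) (by norm_num) (by norm_num)
    (by norm_num) (by norm_num) (by norm_num) (by norm_num) (by norm_num) (by norm_num)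
    (by norm_num) (by norm_num) (by norm_num) (by norm_num) (by norm_num) (by norm_num) (by norm_num)
  rw [hs, hz] at t2
  have t3 := R.step (A := 43118 / 100000) (E := 12443 / 100000) (S := 17470 / 100000) (H := 1557 / 100000) (τ := 22628 / 100000) (v := 4901 / 10000)
    (χ := 46009 / 100000) (θ := 3163 / 10000) (φ := 1525 / 10000)
    (by linarith only [hpi, t2, t2.1]) (by norm_num) (im_of t2.2.1 hm (by norm_num) (by norm_num)) (by norm_num) (by norm_num)
    (by norm_num) (by norm_num) (by norm_num) (by norm_num) (by norm_num) (by norm_num)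
    (by norm_num) (by norm_num) (by norm_num) (by norm_num) (by norm_num) (by norm_num) (by norm_num)
  rw [hs, hz] at t3
  exact ⟨by linarith only [hpi, t3, t3.1], t3.2.1, t3.2.2.1, t3.2.2.2.1, t3.2.2.2.2.1, t3.2.2.2.2.2⟩

lemma Rg.loc10 (R : Rg B x y w Q Q') (hs : nS x + nS y = 1) (hz : nZ x + nZ y = 0) :
    w.re ≤ 43243 / 100000 ∧ 8 * -w.im ≤ (nE x + nE y) * (4922 / 10000) ∧
      (Complex.tan w).re ^ 2 + (Complex.tan w).im ^ 2 ≤ 22838 / 100000 ∧ (Complex.tan w).re ≤ 46218 / 100000 ∧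
      Real.sin w.re ^ 2 ≤ 17601 / 100000 ∧ Real.sinh w.im ^ 2 ≤ 1577 / 100000 := by
  have hpi : Real.pi < 31416 / 10000 := by have := Real.pi_lt_d4; linarith only [this]
  have hm := nE_le x y
  have t0 := R.start
  rw [hs, hz] at t0
  have t1 := R.step (A := 47595 / 100000) (E := 21750 / 100000) (S := 20998 / 100000) (H := 4811 / 100000) (τ := 30794 / 100000) (v := 5646 / 10000)
    (χ := 51555 / 100000) (θ := 3561 / 10000) (φ := 1710 / 10000)
    (by linarith only [hpi, t0, t0.1]) (by norm_num) (im_of t0.2 hm (by norm_num) (by norm_num)) (by norm_num) (by norm_num)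
    (by norm_num) (by norm_num) (by norm_num) (by norm_num) (by norm_num) (by norm_num)
    (by norm_num) (by norm_num) (by norm_num) (by norm_num) (by norm_num) (by norm_num) (by norm_num)
  rw [hs, hz] at t1
  have t2 := R.step (A := 43722 / 100000) (E := 14115 / 100000) (S := 17931 / 100000) (H := 2007 / 100000) (τ := 23715 / 100000) (v := 5009 / 10000)
    (χ := 46743 / 100000) (θ := 3216 / 10000) (φ := 1549 / 10000)
    (by linarith only [hpi, t1, t1.1]) (by norm_num) (im_of t1.2.1 hm (by norm_num) (by norm_num)) (by norm_num) (by norm_num)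
    (by norm_num) (by norm_num) (by norm_num) (by norm_num) (by norm_num) (by norm_num)
    (by norm_num) (by norm_num) (by norm_num) (by norm_num) (by norm_num) (by norm_num) (by norm_num)
  rw [hs, hz] at t2
  have t3 := R.step (A := 43290 / 100000) (E := 12523 / 100000) (S := 17601 / 100000) (H := 1577 / 100000) (τ := 22838 / 100000) (v := 4922 / 10000)
    (χ := 46218 / 100000) (θ := 3178 / 10000) (φ := 1532 / 10000)
    (by linarith only [hpi, t2, t2.1]) (by norm_num) (im_of t2.2.1 hm (by norm_num) (by norm_num)) (by norm_num) (by norm_num)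
    (by norm_num) (by norm_num) (by norm_num) (by norm_num) (by norm_num) (by norm_num)
    (by norm_num) (by norm_num) (by norm_num) (by norm_num) (by norm_num) (by norm_num) (by norm_num)
  rw [hs, hz] at t3
  exact ⟨by linarith only [hpi, t3, t3.1], t3.2.1, t3.2.2.1, t3.2.2.2.1, t3.2.2.2.2.1, t3.2.2.2.2.2⟩

lemma Rg.loc11 (R : Rg B x y w Q Q') (hs : nS x + nS y = 1) (hz : nZ x + nZ y = 1) :
    w.re ≤ 45543 / 100000 ∧ 8 * -w.im ≤ (nE x + nE y) * (5209 / 10000) ∧
      (Complex.tan w).re ^ 2 + (Complex.tan w).im ^ 2 ≤ 25815 / 100000 ∧ (Complex.tan w).re ≤ 49154 / 100000 ∧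
      Real.sin w.re ^ 2 ≤ 19459 / 100000 ∧ Real.sinh w.im ^ 2 ≤ 1796 / 100000 := by
  have hpi : Real.pi < 31416 / 10000 := by have := Real.pi_lt_d4; linarith only [this]
  have hm := nE_le x y
  have t0 := R.start
  rw [hs, hz] at t0
  have t1 := R.step (A := 51420 / 100000) (E := 21750 / 100000) (S := 24197 / 100000) (H := 4811 / 100000) (τ := 35984 / 100000) (v := 6057 / 10000)
    (χ := 56499 / 100000) (θ := 3920 / 10000) (φ := 1876 / 10000)
    (by linarith only [hpi, t0, t0.1]) (by norm_num) (im_of t0.2 hm (by norm_num) (by norm_num)) (by norm_num) (by norm_num)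
    (by norm_num) (by norm_num) (by norm_num) (by norm_num) (by norm_num) (by norm_num)
    (by norm_num) (by norm_num) (by norm_num) (by norm_num) (by norm_num) (by norm_num) (by norm_num)
  rw [hs, hz] at t1
  have t2 := R.step (A := 46515 / 100000) (E := 15143 / 100000) (S := 20124 / 100000) (H := 2312 / 100000) (τ := 27299 / 100000) (v := 5344 / 10000)
    (χ := 50194 / 100000) (θ := 3463 / 10000) (φ := 1665 / 10000)
    (by linarith only [hpi, t1, t1.1]) (by norm_num) (im_of t1.2.1 hm (by norm_num) (by norm_num)) (by norm_num) (by norm_num)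
    (by norm_num) (by norm_num) (by norm_num) (by norm_num) (by norm_num) (by norm_num)
    (by norm_num) (by norm_num) (by norm_num) (by norm_num) (by norm_num) (by norm_num) (by norm_num)
  rw [hs, hz] at t2
  have t3 := R.step (A := 45680 / 100000) (E := 13360 / 100000) (S := 19459 / 100000) (H := 1796 / 100000) (τ := 25815 / 100000) (v := 5209 / 10000)
    (χ := 49154 / 100000) (θ := 3388 / 10000) (φ := 1630 / 10000)
    (by linarith only [hpi, t2, t2.1]) (by norm_num) (im_of t2.2.1 hm (by norm_num) (by norm_num)) (by norm_num) (by norm_num)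
    (by norm_num) (by norm_num) (by norm_num) (by norm_num) (by norm_num) (by norm_num)
    (by norm_num) (by norm_num) (by norm_num) (by norm_num) (by norm_num) (by norm_num) (by norm_num)
  rw [hs, hz] at t3
  exact ⟨by linarith only [hpi, t3, t3.1], t3.2.1, t3.2.2.1, t3.2.2.2.1, t3.2.2.2.2.1, t3.2.2.2.2.2⟩

lemma Rg.loc20 (R : Rg B x y w Q Q') (hs : nS x + nS y = 2) (hz : nZ x + nZ y = 0) :
    w.re ≤ 48445 / 100000 ∧ 8 * -w.im ≤ (nE x + nE y) * (5584 / 10000) ∧
      (Complex.tan w).re ^ 2 + (Complex.tan w).im ^ 2 ≤ 30047 / 100000 ∧ (Complex.tan w).re ≤ 53063 / 100000 ∧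
      Real.sin w.re ^ 2 ≤ 21970 / 100000 ∧ Real.sinh w.im ^ 2 ≤ 2109 / 100000 := by
  have hpi : Real.pi < 31416 / 10000 := by have := Real.pi_lt_d4; linarith only [this]
  have hm := nE_le x y
  have t0 := R.start
  rw [hs, hz] at t0
  have t1 := R.step (A := 55920 / 100000) (E := 21750 / 100000) (S := 28154 / 100000) (H := 4811 / 100000) (τ := 43004 / 100000) (v := 6557 / 10000)
    (χ := 62600 / 100000) (θ := 4371 / 10000) (φ := 2081 / 10000)
    (by linarith only [hpi, t0, t0.1]) (by norm_num) (im_of t0.2 hm (by norm_num) (by norm_num)) (by norm_num) (by norm_num)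
    (by norm_num) (by norm_num) (by norm_num) (by norm_num) (by norm_num) (by norm_num)
    (by norm_num) (by norm_num) (by norm_num) (by norm_num) (by norm_num) (by norm_num) (by norm_num)
  rw [hs, hz] at t1
  have t2 := R.step (A := 50198 / 100000) (E := 16393 / 100000) (S := 23157 / 100000) (H := 2713 / 100000) (τ := 32518 / 100000) (v := 5787 / 10000)
    (χ := 54896 / 100000) (θ := 3803 / 10000) (φ := 1822 / 10000)
    (by linarith only [hpi, t1, t1.1]) (by norm_num) (im_of t1.2.1 hm (by norm_num) (by norm_num)) (by norm_num) (by norm_num)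
    (by norm_num) (by norm_num) (by norm_num) (by norm_num) (by norm_num) (by norm_num)
    (by norm_num) (by norm_num) (by norm_num) (by norm_num) (by norm_num) (by norm_num) (by norm_num)
  rw [hs, hz] at t2
  have t3 := R.step (A := 48778 / 100000) (E := 14468 / 100000) (S := 21970 / 100000) (H := 2109 / 100000) (τ := 30047 / 100000) (v := 5584 / 10000)
    (χ := 53063 / 100000) (θ := 3670 / 10000) (φ := 1761 / 10000)
    (by linarith only [hpi, t2, t2.1]) (by norm_num) (im_of t2.2.1 hm (by norm_num) (by norm_num)) (by norm_num) (by norm_num)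
    (by norm_num) (by norm_num) (by norm_num) (by norm_num) (by norm_num) (by norm_num)
    (by norm_num) (by norm_num) (by norm_num) (by norm_num) (by norm_num) (by norm_num) (by norm_num)
  rw [hs, hz] at t3
  exact ⟨by linarith only [hpi, t3, t3.1], t3.2.1, t3.2.2.1, t3.2.2.2.1, t3.2.2.2.2.1, t3.2.2.2.2.2⟩

end Z8

end Pool.Agent.Work.MP_b30479_gt.G2
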