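import Pool.Agent.Work.MP_b30479_gt.G2.S2Geo
import Pool.Agent.Work.MP_b30479_gt.G2.SZ8

/-!
# Angle and height of `w` from a polygon for `cos w`
-/

namespace Pool.Agent.Work.MP_b30479_gt.G2

open Complex Set
open scoped ComplexConjugate

namespace SQr

/-! ### convex regions contain a polygon as soon as they contain the vertices -/

lemma poly_convex {V : List (ℤ × ℤ)} (hV : shape V = true) {S : Set ℂ} (hS : Convex ℝ S)
    (h : ∀ v ∈ V, zp v ∈ S) : PolyZ V ⊆ S := by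
  intro Z hZ
  match V, hV with
  | v0 :: v1 :: v2 :: l, hV =>
    obtain ⟨q, hq, r, hr, u, v, w, hu, hv, hw, hs, rfl⟩ := poly_tri hV hZ
    have key := hS.sum_mem (t := Finset.univ) (w := ![u, v, w]) (z := ![zp v0, zp q, zp r])
      (by intro i _; fin_cases i <;> assumption)
      (by rw [Fin.sum_univ_three]; exact hs)
      (by
        intro i _
        fin_cases i
        · exact h v0 (by simp)
        · exact h q (List.mem_cons_of_mem _ hq)
        · exact h r (List.mem_cons_of_mem _ hr))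
    rw [Fin.sum_univ_three] at key
    simpa using key

/-- right side of a branch of a hyperbola -/
def SHyp (A B C : ℝ) : Set ℂ := {Z | 0 ≤ Z.re ∧ C ≤ A * Z.re ^ 2 - B * Z.im ^ 2}

/-- ellipse -/
def SEll (A B C : ℝ) : Set ℂ := {Z | A * Z.re ^ 2 + B * Z.im ^ 2 ≤ C}

lemma convex_hyp {A B C : ℝ} (hA : 0 < A) (hB : 0 < B) (hC : 0 < C) :
    Convex ℝ (SHyp A B C) := by
  intro Z ⟨h1, h2⟩ W ⟨h3, h4⟩ s t hs ht hst
  have e1 : (s • Z + t • W).re = s * Z.re + t * W.re := by simp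
  have e2 : (s • Z + t • W).im = s * Z.im + t * W.im := by simp
  refine ⟨?_, ?_⟩
  · rw [e1]
    positivity
  · rw [e1, e2]
    have k1 : 0 ≤ C + B * Z.im ^ 2 := by positivity
    have k2 : 0 ≤ C + B * W.im ^ 2 := by positivity
    have k3 : (C + B * (Z.im * W.im)) ^ 2 ≤ (A * (Z.re * W.re)) ^ 2 := by
      have e3 : (A * (Z.re * W.re)) ^ 2 = (A * Z.re ^ 2) * (A * W.re ^ 2) := by ring
      rw [e3]
      have k4 : (C + B * Z.im ^ 2) * (C + B * W.im ^ 2) ≤ (A * Z.re ^ 2) * (A * W.re ^ 2) :=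
        mul_le_mul (by linarith) (by linarith) k2 (by positivity)
      have k5 : (C + B * Z.im ^ 2) * (C + B * W.im ^ 2) - (C + B * (Z.im * W.im)) ^ 2 =
          C * B * (Z.im - W.im) ^ 2 := by ring
      have k6 : 0 ≤ C * B * (Z.im - W.im) ^ 2 := by positivity
      linarith
    have k7 : C + B * (Z.im * W.im) ≤ A * (Z.re * W.re) :=
      le_trans (le_abs_self _) (by
        have := sq_le_sq.1 k3
        rwa [abs_of_nonneg (a := A * (Z.re * W.re)) (by positivity)] at this)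
    have e4 : A * (s * Z.re + t * W.re) ^ 2 - B * (s * Z.im + t * W.im) ^ 2 =
        s ^ 2 * (A * Z.re ^ 2 - B * Z.im ^ 2) + t ^ 2 * (A * W.re ^ 2 - B * W.im ^ 2) +
          2 * (s * t) * (A * (Z.re * W.re) - B * (Z.im * W.im)) := by ring
    rw [e4]
    have e5 : C = s ^ 2 * C + t ^ 2 * C + 2 * (s * t) * C := by
      have : (s + t) ^ 2 = 1 := by rw [hst]; norm_num
      linear_combination (-C) * this
    rw [e5]
    have m1 := mul_le_mul_of_nonneg_left h2 (sq_nonneg s)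
    have m2 := mul_le_mul_of_nonneg_left h4 (sq_nonneg t)
    have m3 := mul_le_mul_of_nonneg_left (show C ≤ A * (Z.re * W.re) - B * (Z.im * W.im) by linarith)
      (show 0 ≤ 2 * (s * t) by positivity)
    linarith

lemma convex_ell {A B C : ℝ} (hA : 0 < A) (hB : 0 < B) : Convex ℝ (SEll A B C) := by
  intro Z h1 W h2 s t hs ht hst
  have e1 : (s • Z + t • W).re = s * Z.re + t * W.re := by simp
  have e2 : (s • Z + t • W).im = s * Z.im + t * W.im := by simp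
  show A * (s • Z + t • W).re ^ 2 + B * (s • Z + t • W).im ^ 2 ≤ C
  rw [e1, e2]
  have h1' : A * Z.re ^ 2 + B * Z.im ^ 2 ≤ C := h1
  have h2' : A * W.re ^ 2 + B * W.im ^ 2 ≤ C := h2
  obtain rfl : t = 1 - s := by linarith
  have e3 : A * (s * Z.re + (1 - s) * W.re) ^ 2 + B * (s * Z.im + (1 - s) * W.im) ^ 2 =
      s * (A * Z.re ^ 2 + B * Z.im ^ 2) + (1 - s) * (A * W.re ^ 2 + B * W.im ^ 2) -
        s * (1 - s) * (A * (Z.re - W.re) ^ 2 + B * (Z.im - W.im) ^ 2) := by ring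
  rw [e3]
  have m1 := mul_le_mul_of_nonneg_left h1' hs
  have m2 := mul_le_mul_of_nonneg_left h2' ht
  have m3 : 0 ≤ s * (1 - s) * (A * (Z.re - W.re) ^ 2 + B * (Z.im - W.im) ^ 2) :=
    mul_nonneg (mul_nonneg hs ht) (by positivity)
  linarith

/-! ### the integer checks -/

/-- `cos² (re w) ≥ n / 10⁵` at the vertices -/
def ckU (n : ℤ) (V : List (ℤ × ℤ)) : Bool :=
  V.all fun v => decide (0 ≤ v.1) &&
    decide (10 * n * (100000 - n) ≤ (100000 - n) * v.1 ^ 2 - n * v.2 ^ 2)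

/-- `sinh² (im w) ≤ m / 10⁵` at the vertices -/
def ckS (m : ℤ) (V : List (ℤ × ℤ)) : Bool :=
  V.all fun v => decide (m * v.1 ^ 2 + (100000 + m) * v.2 ^ 2 ≤ 10 * m * (100000 + m))

/-- a linear function at the vertices -/
def ckL (p q c : ℤ) (V : List (ℤ × ℤ)) : Bool := V.all fun v => decide (p * v.1 + q * v.2 < c)

lemma ckL_spec {p q c : ℤ} {V : List (ℤ × ℤ)} (hV : shape V = true) (h : ckL p q c V = true)
    {z : ℂ} (hz : z ∈ Poly V) : (p : ℝ) * (1000 * z.re) + q * (1000 * z.im) < c := by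
  have hZ : 1000 * z ∈ PolyZ V := mem_Poly.1 hz
  have h1 := poly_aff hV hZ (A := ⟨-(p : ℝ), (q : ℝ)⟩) (c := (c : ℝ)) (fun v hv => by
    have h2 := of_decide_eq_true (List.all_eq_true.1 h v hv)
    have h3 : ((p * v.1 + q * v.2 : ℤ) : ℝ) < c := by exact_mod_cast h2
    push_cast at h3
    simp only [zp, Complex.mul_re]
    linarith)
  simp only [Complex.mul_re, Complex.mul_im, Complex.re_ofNat, Complex.im_ofNat] at h1
  linarith

lemma ckU_spec {n : ℤ} {V : List (ℤ × ℤ)} (hV : shape V = true) (h0 : 0 < n) (h1 : n < 100000)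
    (h : ckU n V = true) {z : ℂ} (hz : z ∈ Poly V) :
    10 * (n : ℝ) * (100000 - n) ≤ (100000 - n) * (1000 * z.re) ^ 2 - n * (1000 * z.im) ^ 2 := by
  have hZ : 1000 * z ∈ PolyZ V := mem_Poly.1 hz
  have hn0 : (0 : ℝ) < n := by exact_mod_cast h0
  have hn1 : (0 : ℝ) < 100000 - n := by
    have : (n : ℝ) < 100000 := by exact_mod_cast h1
    linarith
  have h2 := poly_convex hV (convex_hyp (C := 10 * (n : ℝ) * (100000 - n)) hn1 hn0
    (by positivity)) (fun v hv => by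
      have h3 := List.all_eq_true.1 h v hv
      rw [Bool.and_eq_true, decide_eq_true_eq, decide_eq_true_eq] at h3
      refine ⟨?_, ?_⟩
      · show (0 : ℝ) ≤ (v.1 : ℝ)
        exact_mod_cast h3.1
      · show 10 * (n : ℝ) * (100000 - n) ≤ (100000 - n) * (v.1 : ℝ) ^ 2 - n * (v.2 : ℝ) ^ 2
        exact_mod_cast h3.2) hZ
  have h3 := h2.2
  simp only [Complex.mul_re, Complex.mul_im, Complex.re_ofNat, Complex.im_ofNat] at h3
  simpa using h3

lemma ckS_spec {m : ℤ} {V : List (ℤ × ℤ)} (hV : shape V = true) (h0 : 0 < m)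
    (h : ckS m V = true) {z : ℂ} (hz : z ∈ Poly V) :
    m * (1000 * z.re) ^ 2 + (100000 + m) * (1000 * z.im) ^ 2 ≤ 10 * (m : ℝ) * (100000 + m) := by
  have hZ : 1000 * z ∈ PolyZ V := mem_Poly.1 hz
  have hn0 : (0 : ℝ) < m := by exact_mod_cast h0
  have h2 := poly_convex hV (convex_ell (C := 10 * (m : ℝ) * (100000 + m)) hn0
    (show (0 : ℝ) < 100000 + m by linarith)) (fun v hv => by
      have h3 := of_decide_eq_true (List.all_eq_true.1 h v hv)
      show m * (v.1 : ℝ) ^ 2 + (100000 + m) * (v.2 : ℝ) ^ 2 ≤ 10 * (m : ℝ) * (100000 + m)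
      exact_mod_cast h3) hZ
  have h3 : m * (1000 * z).re ^ 2 + (100000 + m) * (1000 * z).im ^ 2 ≤
      10 * (m : ℝ) * (100000 + m) := h2
  simp only [Complex.mul_re, Complex.mul_im, Complex.re_ofNat, Complex.im_ofNat] at h3
  simpa using h3

/-! ### from the polygon to the angle -/

/-- `w` with `cos w = (u cosh², (1 - u) sinh²)` -/
lemma sq_parts (w : ℂ) : (Complex.cos w).re ^ 2 = Real.cos w.re ^ 2 * (1 + Real.sinh w.im ^ 2) ∧
    (Complex.cos w).im ^ 2 = (1 - Real.cos w.re ^ 2) * Real.sinh w.im ^ 2 := by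
  obtain ⟨h1, h2⟩ := Z8.cos_parts w
  have h3 := Real.cosh_sq w.im
  have h4 := Real.sin_sq_add_cos_sq w.re
  rw [h1, h2]
  constructor
  · rw [mul_pow, h3]; ring
  · rw [neg_sq, mul_pow]
    have : Real.sin w.re ^ 2 = 1 - Real.cos w.re ^ 2 := by linarith
    rw [this]

lemma cosq_ge {n : ℤ} {V : List (ℤ × ℤ)} (hV : shape V = true) (h0 : 0 < n) (h1 : n < 100000)
    (h : ckU n V = true) {w : ℂ} (hz : Complex.cos w ∈ Poly V) :
    (n : ℝ) / 100000 ≤ Real.cos w.re ^ 2 := by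
  have h2 := ckU_spec hV h0 h1 h hz
  obtain ⟨e1, e2⟩ := sq_parts w
  rw [mul_pow, mul_pow, e1, e2] at h2
  set u := Real.cos w.re ^ 2 with hu
  set s := Real.sinh w.im ^ 2 with hs
  have hs0 : 0 ≤ s := sq_nonneg _
  have hu0 : 0 ≤ u := sq_nonneg _
  have hu1 : u ≤ 1 := by
    have := Real.sin_sq_add_cos_sq w.re
    have := sq_nonneg (Real.sin w.re)
    linarith
  by_contra hcon
  push Not at hcon
  rw [lt_div_iff₀ (by norm_num)] at hcon
  have hn1 : (n : ℝ) < 100000 := by exact_mod_cast h1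
  have hn0 : (0 : ℝ) < n := by exact_mod_cast h0
  -- (100000 - n) u (1 + s) - n (1 - u) s = s (100000 u - n) + (100000 - n) u
  nlinarith [mul_nonneg hs0 (show (0 : ℝ) ≤ n - u * 100000 by linarith)]

lemma sinhq_le {m : ℤ} {V : List (ℤ × ℤ)} (hV : shape V = true) (h0 : 0 < m)
    (h : ckS m V = true) {w : ℂ} (hz : Complex.cos w ∈ Poly V) :
    Real.sinh w.im ^ 2 ≤ (m : ℝ) / 100000 := by
  have h2 := ckS_spec hV h0 h hz
  obtain ⟨e1, e2⟩ := sq_parts w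
  rw [mul_pow, mul_pow, e1, e2] at h2
  set u := Real.cos w.re ^ 2 with hu
  set s := Real.sinh w.im ^ 2 with hs
  have hs0 : 0 ≤ s := sq_nonneg _
  have hu0 : 0 ≤ u := sq_nonneg _
  have hu1 : u ≤ 1 := by
    have := Real.sin_sq_add_cos_sq w.re
    have := sq_nonneg (Real.sin w.re)
    linarith
  by_contra hcon
  push Not at hcon
  rw [div_lt_iff₀ (by norm_num)] at hcon
  have hn0 : (0 : ℝ) < m := by exact_mod_cast h0
  -- m u (1 + s) + (100000 + m)(1 - u) s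
  nlinarith [mul_nonneg (sub_nonneg.2 hu1) (show (0 : ℝ) ≤ s * 100000 - m by linarith),
    mul_nonneg hs0 hn0.le]

/-- the linear function `p re - q im` is at least one on the left of the hyperbola -/
lemma cosq_le {p q n : ℝ} (hp : 0 < p) (hq : 0 < q) (hn0 : 0 < n) (hn1 : n < 1)
    (hpq : 1 ≤ p ^ 2 * n - q ^ 2 * (1 - n)) {w : ℂ} (hre : 0 < (Complex.cos w).re)
    (him : 0 < (Complex.cos w).im)
    (h : p * (Complex.cos w).re - q * (Complex.cos w).im < 1) : Real.cos w.re ^ 2 ≤ n := by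
  obtain ⟨e1, e2⟩ := sq_parts w
  set u := Real.cos w.re ^ 2 with hu
  set s := Real.sinh w.im ^ 2 with hs
  set a := (Complex.cos w).re with ha
  set b := (Complex.cos w).im with hb
  have hs0 : 0 ≤ s := sq_nonneg _
  have hu0 : 0 ≤ u := sq_nonneg _
  have hu1' : u ≤ 1 := by
    have := Real.sin_sq_add_cos_sq w.re
    have := sq_nonneg (Real.sin w.re)
    linarith
  have hu1 : u < 1 := by
    refine lt_of_le_of_ne hu1' (fun hc => ?_)
    rw [hc] at e2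
    have : 0 < b ^ 2 := by positivity
    rw [e2] at this
    simp at this
  have hs1 : 0 < s := by
    refine lt_of_le_of_ne hs0 (fun hc => ?_)
    rw [← hc] at e2
    have : 0 < b ^ 2 := by positivity
    rw [e2] at this
    simp at this
  by_contra hcon
  push Not at hcon
  -- `Q = q² (1 - u)`, `P = p² u ≥ 1 + Q`, `(q b)² = Q s`
  have hQ : 0 < q ^ 2 * (1 - u) := mul_pos (by positivity) (by linarith)
  have hP : 1 + q ^ 2 * (1 - u) ≤ p ^ 2 * u := by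
    nlinarith [mul_pos (pow_pos hp 2) (sub_pos.2 hcon), mul_pos (pow_pos hq 2) (sub_pos.2 hcon)]
  have h1 : (1 + q * b) ^ 2 ≤ (p * a) ^ 2 := by
    rw [mul_pow p a, e1]
    have e3 : (1 + q * b) ^ 2 = 1 + 2 * (q * b) + q ^ 2 * b ^ 2 := by ring
    rw [e3, e2]
    -- 2 q b ≤ Q + s since (q b)² = Q s
    have h3 : 2 * (q * b) ≤ q ^ 2 * (1 - u) + s := by
      have h4 : (q * b) ^ 2 = q ^ 2 * (1 - u) * s := by rw [mul_pow, e2]; ring
      have h5 : (2 * (q * b)) ^ 2 ≤ (q ^ 2 * (1 - u) + s) ^ 2 := by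
        nlinarith [sq_nonneg (q ^ 2 * (1 - u) - s)]
      exact le_of_sq_le_sq h5 (by positivity)
    have h6 : (1 + q ^ 2 * (1 - u)) * (1 + s) ≤ p ^ 2 * (u * (1 + s)) := by
      rw [← mul_assoc]
      exact mul_le_mul_of_nonneg_right hP (by linarith)
    nlinarith
  have h2 : 1 + q * b ≤ p * a := le_of_sq_le_sq h1 (by positivity)
  linarith

/-- a linear function which is large gives a lower bound of the height -/
lemma sinhq_ge {p q c s : ℝ} (hp : 0 ≤ p) (hq : 0 ≤ q) (hc : 0 ≤ c)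
    (hcs : p ^ 2 * (1 + s) + q ^ 2 * s ≤ c ^ 2) {w : ℂ} (hre : 0 ≤ (Complex.cos w).re)
    (him : 0 ≤ (Complex.cos w).im)
    (h : c < p * (Complex.cos w).re + q * (Complex.cos w).im) : s ≤ Real.sinh w.im ^ 2 := by
  obtain ⟨e1, e2⟩ := sq_parts w
  set u := Real.cos w.re ^ 2 with hu
  set s' := Real.sinh w.im ^ 2 with hs
  set a := (Complex.cos w).re with ha
  set b := (Complex.cos w).im with hb
  have hs0 : 0 ≤ s' := sq_nonneg _
  have hu0 : 0 ≤ u := sq_nonneg _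
  have hu1 : u ≤ 1 := by
    have := Real.sin_sq_add_cos_sq w.re
    have := sq_nonneg (Real.sin w.re)
    linarith
  by_contra hcon
  push Not at hcon
  have hA : 0 ≤ p ^ 2 * (1 + s') := by positivity
  have hB : 0 ≤ q ^ 2 * s' := by positivity
  have k1 : 2 * (p * a * (q * b)) ≤ p ^ 2 * (1 + s') * (1 - u) + q ^ 2 * s' * u := by
    have e3 : (2 * (p * a * (q * b))) ^ 2 = 4 * ((p ^ 2 * (1 + s') * (1 - u)) * (q ^ 2 * s' * u)) := by
      have : (2 * (p * a * (q * b))) ^ 2 = 4 * (p ^ 2 * a ^ 2 * (q ^ 2 * b ^ 2)) := by ring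
      rw [this, e1, e2]
      ring
    refine le_of_sq_le_sq ?_ (add_nonneg (mul_nonneg hA (by linarith)) (mul_nonneg hB hu0))
    rw [e3]
    nlinarith [sq_nonneg (p ^ 2 * (1 + s') * (1 - u) - q ^ 2 * s' * u)]
  have k2 : (p * a + q * b) ^ 2 ≤ p ^ 2 * (1 + s') + q ^ 2 * s' := by
    have : (p * a + q * b) ^ 2 = p ^ 2 * a ^ 2 + q ^ 2 * b ^ 2 + 2 * (p * a * (q * b)) := by ring
    rw [this, e1, e2]
    nlinarith
  have k3 : p ^ 2 * (1 + s') + q ^ 2 * s' ≤ p ^ 2 * (1 + s) + q ^ 2 * s := by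
    nlinarith [mul_nonneg (sq_nonneg p) (sub_nonneg.2 hcon.le),
      mul_nonneg (sq_nonneg q) (sub_nonneg.2 hcon.le)]
  have k4 := pow_lt_pow_left₀ h hc (n := 2) (by norm_num)
  linarith

/-! ### Taylor bounds -/

lemma cos_taylor {y : ℝ} (h0 : 0 ≤ y) (h1 : y ≤ 1) :
    |Real.cos y - (1 - y ^ 2 / 2 + y ^ 4 / 24 - y ^ 6 / 720)| ≤ y ^ 8 / 35000 := by
  have hn : ‖(y : ℂ) * I‖ ≤ 1 := by simpa [abs_of_nonneg h0] using h1
  have h2 := Complex.exp_bound hn (n := 8) (by norm_num)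
  have h3 : ‖((y : ℂ) * I)‖ = y := by simp [abs_of_nonneg h0]
  rw [h3] at h2
  have h4 := (Complex.abs_re_le_norm _).trans h2
  have e : (Complex.exp ((y : ℂ) * I) - ∑ m ∈ Finset.range 8, ((y : ℂ) * I) ^ m / (m.factorial : ℂ)).re
      = Real.cos y - (1 - y ^ 2 / 2 + y ^ 4 / 24 - y ^ 6 / 720) := by
    rw [Complex.sub_re, Complex.exp_ofReal_mul_I_re]
    congr 1
    simp only [Finset.sum_range_succ, Finset.sum_range_zero, Nat.factorial]
    have e1 : ((y : ℂ) * I) ^ 2 = ((-(y ^ 2) : ℝ) : ℂ) := by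
      push_cast; rw [mul_pow, I_sq]; ring
    have e2 : ((y : ℂ) * I) ^ 3 = ((-(y ^ 3) : ℝ) : ℂ) * I := by
      push_cast; rw [mul_pow, I_pow_three]; ring
    have e3 : ((y : ℂ) * I) ^ 4 = ((y ^ 4 : ℝ) : ℂ) := by
      push_cast; rw [mul_pow, I_pow_four]; ring
    have e4 : ((y : ℂ) * I) ^ 5 = ((y ^ 5 : ℝ) : ℂ) * I := by
      push_cast; rw [mul_pow, show (5 : ℕ) = 4 + 1 from rfl, pow_succ I, I_pow_four]; ring
    have e5 : ((y : ℂ) * I) ^ 6 = ((-(y ^ 6) : ℝ) : ℂ) := by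
      push_cast; rw [mul_pow, show (6 : ℕ) = 4 + 2 from rfl, pow_add I, I_pow_four, I_sq]; ring
    have e6 : ((y : ℂ) * I) ^ 7 = ((-(y ^ 7) : ℝ) : ℂ) * I := by
      push_cast; rw [mul_pow, show (7 : ℕ) = 4 + 3 from rfl, pow_add I, I_pow_four, I_pow_three]; ring
    rw [e1, e2, e3, e4, e5, e6]
    have e7 : (0 : ℂ) + ((y : ℂ) * I) ^ 0 / ((1 : ℕ) : ℂ) + ((y : ℂ) * I) ^ 1 / (((0 + 1) * 1 : ℕ) : ℂ) +
        ((-(y ^ 2) : ℝ) : ℂ) / (((1 + 1) * ((0 + 1) * 1) : ℕ) : ℂ) +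
        ((-(y ^ 3) : ℝ) : ℂ) * I / (((2 + 1) * ((1 + 1) * ((0 + 1) * 1)) : ℕ) : ℂ) +
        ((y ^ 4 : ℝ) : ℂ) / (((3 + 1) * ((2 + 1) * ((1 + 1) * ((0 + 1) * 1))) : ℕ) : ℂ) +
        ((y ^ 5 : ℝ) : ℂ) * I / (((4 + 1) * ((3 + 1) * ((2 + 1) * ((1 + 1) * ((0 + 1) * 1)))) : ℕ) : ℂ) +
        ((-(y ^ 6) : ℝ) : ℂ) /
          (((5 + 1) * ((4 + 1) * ((3 + 1) * ((2 + 1) * ((1 + 1) * ((0 + 1) * 1))))) : ℕ) : ℂ) +
        ((-(y ^ 7) : ℝ) : ℂ) * I /
          (((6 + 1) * ((5 + 1) * ((4 + 1) * ((3 + 1) * ((2 + 1) * ((1 + 1) * ((0 + 1) * 1)))))) : ℕ) : ℂ) =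
        ((1 - y ^ 2 / 2 + y ^ 4 / 24 - y ^ 6 / 720 : ℝ) : ℂ) +
          ((y - y ^ 3 / 6 + y ^ 5 / 120 - y ^ 7 / 5040 : ℝ) : ℂ) * I := by
      push_cast
      ring
    refine (congrArg Complex.re e7).trans ?_
    rw [Complex.add_re, Complex.ofReal_re, Complex.re_ofReal_mul, Complex.I_re, mul_zero, add_zero]
  rw [e] at h4
  refine h4.trans ?_
  have : (y : ℝ) ^ 8 * ((Nat.succ 8 : ℕ) * ((Nat.factorial 8 : ℕ) * (8 : ℕ) : ℝ)⁻¹) ≤
      y ^ 8 / 35000 := by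
    rw [div_eq_mul_inv]
    refine mul_le_mul_of_nonneg_left ?_ (by positivity)
    norm_num [Nat.factorial]
  exact_mod_cast this

/-- upper bound of the angle -/
lemma ang_le {α c u : ℝ} (h0 : 0 ≤ α) (h1 : α ≤ 3 / 2) (hc0 : 0 ≤ c) (hc1 : c ≤ 1)
    (hu : u ≤ Real.cos α ^ 2)
    (hT0 : 0 ≤ 1 - c ^ 2 / 2 + c ^ 4 / 24 - c ^ 6 / 720 + c ^ 8 / 35000)
    (hT : (1 - c ^ 2 / 2 + c ^ 4 / 24 - c ^ 6 / 720 + c ^ 8 / 35000) ^ 2 ≤ u) : α ≤ c := by
  by_contra hcon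
  push Not at hcon
  have hpi := Real.pi_gt_d2
  have h2 : Real.cos α < Real.cos c := Real.cos_lt_cos_of_nonneg_of_le_pi_div_two hc0
    (by linarith) hcon
  have h3 : 0 ≤ Real.cos α := Real.cos_nonneg_of_neg_pi_div_two_le_of_le (by linarith)
    (by linarith)
  have h4 := (abs_le.1 (cos_taylor hc0 hc1)).2
  have h5 : Real.cos α < 1 - c ^ 2 / 2 + c ^ 4 / 24 - c ^ 6 / 720 + c ^ 8 / 35000 := by linarith
  have h6 := pow_lt_pow_left₀ h5 h3 (n := 2) (by norm_num)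
  linarith

/-- lower bound of the angle -/
lemma ang_ge {α c u : ℝ} (h0 : 0 ≤ α) (hc0 : 0 ≤ c) (hc1 : c ≤ 1)
    (hu : Real.cos α ^ 2 ≤ u)
    (hT0 : 0 ≤ 1 - c ^ 2 / 2 + c ^ 4 / 24 - c ^ 6 / 720 - c ^ 8 / 35000)
    (hT : u ≤ (1 - c ^ 2 / 2 + c ^ 4 / 24 - c ^ 6 / 720 - c ^ 8 / 35000) ^ 2) : c ≤ α := by
  by_contra hcon
  push Not at hcon
  have hpi := Real.pi_gt_d2
  have h2 : Real.cos c < Real.cos α := Real.cos_lt_cos_of_nonneg_of_le_pi_div_two h0
    (by linarith) hcon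
  have h4 := (abs_le.1 (cos_taylor hc0 hc1)).1
  have h5 : 1 - c ^ 2 / 2 + c ^ 4 / 24 - c ^ 6 / 720 - c ^ 8 / 35000 < Real.cos α := by linarith
  have h6 := pow_lt_pow_left₀ h5 hT0 (n := 2) (by norm_num)
  linarith

lemma sinh_ge {t : ℝ} (h : 0 ≤ t) : t + 5 / 32 * t ^ 3 ≤ Real.sinh t := by
  have h1 : Real.sinh t = 4 * Real.sinh (t / 4) * Real.cosh (t / 4) * Real.cosh (t / 2) := by
    have e1 := Real.sinh_two_mul (t / 2)
    have e2 := Real.sinh_two_mul (t / 4)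
    rw [show 2 * (t / 2) = t by ring] at e1
    rw [show 2 * (t / 4) = t / 2 by ring] at e2
    rw [e1, e2]
    ring
  have h2 : t / 4 ≤ Real.sinh (t / 4) := Real.self_le_sinh_iff.2 (by linarith)
  have h3 : 1 + (t / 4) ^ 2 / 2 ≤ Real.cosh (t / 4) := by
    have e := Real.cosh_two_mul (t / 8)
    rw [show 2 * (t / 8) = t / 4 by ring, Real.cosh_sq (t / 8)] at e
    have h4 : t / 8 ≤ Real.sinh (t / 8) := Real.self_le_sinh_iff.2 (by linarith)
    have h5 := pow_le_pow_left₀ (by positivity) h4 2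
    rw [e]
    nlinarith
  have h4 : 1 + (t / 2) ^ 2 / 2 ≤ Real.cosh (t / 2) := by
    have e := Real.cosh_two_mul (t / 4)
    rw [show 2 * (t / 4) = t / 2 by ring, Real.cosh_sq (t / 4)] at e
    have h5 := pow_le_pow_left₀ (by positivity) h2 2
    rw [e]
    nlinarith
  rw [h1]
  have h5 : (t / 4) * (1 + (t / 4) ^ 2 / 2) ≤ Real.sinh (t / 4) * Real.cosh (t / 4) :=
    mul_le_mul h2 h3 (by positivity) (by linarith)
  have h6 : (t / 4) * (1 + (t / 4) ^ 2 / 2) * (1 + (t / 2) ^ 2 / 2) ≤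
      Real.sinh (t / 4) * Real.cosh (t / 4) * Real.cosh (t / 2) :=
    mul_le_mul h5 h4 (by positivity) (le_trans (by positivity) h5)
  have h7 : 0 ≤ t ^ 5 := by positivity
  nlinarith

lemma sinh_le {t : ℝ} (h : 0 ≤ t) (h1 : t ≤ 1) :
    Real.sinh t ≤ t + t ^ 3 / 6 + t ^ 4 / 16 := by
  have e1 := Real.exp_bound (x := t) (by rwa [abs_of_nonneg h]) (n := 4) (by norm_num)
  have e2 := Real.exp_bound (x := -t) (by rwa [abs_neg, abs_of_nonneg h]) (n := 4) (by norm_num)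
  rw [abs_of_nonneg h] at e1
  rw [abs_neg, abs_of_nonneg h] at e2
  have f1 := (abs_le.1 e1).2
  have f2 := (abs_le.1 e2).1
  norm_num [Finset.sum_range_succ, Nat.factorial] at f1 f2
  rw [Real.sinh_eq]
  have : 0 ≤ t ^ 4 := by positivity
  linarith

/-- lower bound of the height -/
lemma hgt_ge {y s t : ℝ} (hs : s ≤ Real.sinh y ^ 2) (hy : 0 ≤ y) (ht : 0 ≤ t) (ht1 : t ≤ 1)
    (hT : (t + t ^ 3 / 6 + t ^ 4 / 16) ^ 2 ≤ s) : t ≤ y := by
  by_contra hcon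
  push Not at hcon
  have h1 : Real.sinh y < Real.sinh t := Real.sinh_lt_sinh.2 hcon
  have h2 := sinh_le ht ht1
  have h3 : 0 ≤ Real.sinh y := Real.sinh_nonneg_iff.2 hy
  have h4 := pow_lt_pow_left₀ (h1.trans_le h2) h3 (n := 2) (by norm_num)
  linarith

/-- upper bound of the height -/
lemma hgt_le {y s t : ℝ} (hs : Real.sinh y ^ 2 ≤ s) (ht : 0 ≤ t)
    (hT : s ≤ (t + 5 / 32 * t ^ 3) ^ 2) : y ≤ t := by
  by_contra hcon
  push Not at hcon
  have h1 : Real.sinh t < Real.sinh y := Real.sinh_lt_sinh.2 hcon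
  have h2 := sinh_ge ht
  have h3 : 0 ≤ t + 5 / 32 * t ^ 3 := by positivity
  have h4 := pow_lt_pow_left₀ (h2.trans_lt h1) h3 (n := 2) (by norm_num)
  linarith

end SQr

end Pool.Agent.Work.MP_b30479_gt.G2
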