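import Pool.Agent.Work.MP_b30479_gt.G2.SRefK
import Pool.Agent.Work.MP_b30479_gt.G2.SRefQ
import Pool.Agent.Work.MP_b30479_gt.G2.SZ11

/-!
# The boxes of the ring variables with at most seven crossings

`ring_low`, `end_low` for the family `Kr3`; with `ring8`, `end8` they give the fields `ring`,
`ringE` of `BoxRows Kr3`. Bounds of the angle for the digits `4`, `5`.
-/

set_option linter.style.longLine false

namespace Pool.Agent.Work.MP_b30479_gt.G2

open Complex Set SQr
open scoped ComplexConjugate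

namespace SR

/-- integer parameters: `cos²` bounds, `sinh²` bound, linear function -/
structure ZP where
  /-- lower bound of `cos²` -/
  n0 : ℤ
  /-- upper bound of `cos²` -/
  n1 : ℤ
  /-- upper bound of `sinh²` -/
  m : ℤ
  /-- linear function -/
  p : ℤ
  /-- linear function -/
  q : ℤ

/-- check of a polygon -/
def ckA (z : ZP) (V : List (ℤ × ℤ)) : Bool :=
  shape V && ckU z.n0 V && ckS z.m V && ckL z.p (-z.q) 1000000 V && ckL 0 (-1) 0 V &&
    ckL (-1) 0 0 V

/-- numerical facts about the parameters -/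
structure ZN (z : ZP) (x0 x1 t1 : ℝ) : Prop where
  a0 : 0 < z.n0
  a1 : z.n0 < 100000
  a2 : 0 < z.m
  a3 : 0 < z.p
  a4 : 0 < z.q
  a5 : 0 < z.n1
  a6 : z.n1 < 100000
  b0 : 0 ≤ x0 * (31415 / 10000)
  b1 : x0 * (31415 / 10000) ≤ 1
  b2 : 0 ≤ 1 - (x0 * (31415 / 10000)) ^ 2 / 2 + (x0 * (31415 / 10000)) ^ 4 / 24 -
    (x0 * (31415 / 10000)) ^ 6 / 720 + (x0 * (31415 / 10000)) ^ 8 / 35000
  b3 : (1 - (x0 * (31415 / 10000)) ^ 2 / 2 + (x0 * (31415 / 10000)) ^ 4 / 24 -
    (x0 * (31415 / 10000)) ^ 6 / 720 + (x0 * (31415 / 10000)) ^ 8 / 35000) ^ 2 ≤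
    (z.n0 : ℝ) / 100000
  c0 : 0 ≤ x1 * (31416 / 10000)
  c1 : x1 * (31416 / 10000) ≤ 1
  c2 : 0 ≤ 1 - (x1 * (31416 / 10000)) ^ 2 / 2 + (x1 * (31416 / 10000)) ^ 4 / 24 -
    (x1 * (31416 / 10000)) ^ 6 / 720 - (x1 * (31416 / 10000)) ^ 8 / 35000
  c3 : (z.n1 : ℝ) / 100000 ≤ (1 - (x1 * (31416 / 10000)) ^ 2 / 2 +
    (x1 * (31416 / 10000)) ^ 4 / 24 - (x1 * (31416 / 10000)) ^ 6 / 720 -
    (x1 * (31416 / 10000)) ^ 8 / 35000) ^ 2
  c4 : 1 ≤ ((z.p : ℝ) / 1000) ^ 2 * ((z.n1 : ℝ) / 100000) -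
    ((z.q : ℝ) / 1000) ^ 2 * (1 - (z.n1 : ℝ) / 100000)
  d0 : 0 ≤ t1 * (31415 / 10000)
  d1 : (z.m : ℝ) / 100000 ≤ (t1 * (31415 / 10000) + 5 / 32 * (t1 * (31415 / 10000)) ^ 3) ^ 2

theorem im_neg {V : List (ℤ × ℤ)} (hV : shape V = true) (h : ckL 0 (-1) 0 V = true) {w : ℂ}
    (h0 : 0 < w.re) (h1 : w.re < 3 / 2) (hz : Complex.cos w ∈ Poly V) :
    0 < (Complex.cos w).im ∧ 0 < -w.im := by
  have h2 := ckL_spec hV h hz
  push_cast at h2
  have h3 : 0 < (Complex.cos w).im := by linarith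
  refine ⟨h3, ?_⟩
  have hs0 : 0 < Real.sin w.re := Real.sin_pos_of_pos_of_lt_pi h0
    (by linarith [Real.pi_gt_three])
  rw [(Z8.cos_parts w).2] at h3
  by_contra hc
  push Not at hc
  have h4 : 0 ≤ Real.sinh w.im := Real.sinh_nonneg_iff.2 (by linarith)
  have := mul_nonneg hs0.le h4
  linarith

theorem zrow {V : List (ℤ × ℤ)} {z : ZP} {x0 x1 t1 : ℝ} (hc : ckA z V = true)
    (N : ZN z x0 x1 t1) {w : ℂ} (h0 : 0 < w.re) (h1 : w.re < 3 / 2)
    (hz : Complex.cos w ∈ Poly V) :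
    0 < -w.im ∧ w.re ≤ x0 * Real.pi ∧ x1 * Real.pi ≤ w.re ∧ -w.im ≤ t1 * Real.pi := by
  unfold ckA at hc
  simp only [Bool.and_eq_true] at hc
  obtain ⟨⟨⟨⟨⟨hV, c1⟩, c2⟩, c3⟩, c4⟩, c5⟩ := hc
  obtain ⟨him, hw⟩ := im_neg hV c4 h0 h1 hz
  have hpi := Real.pi_gt_d4
  have hpi2 := Real.pi_lt_d4
  have p1 : (3.1415 : ℝ) = 31415 / 10000 := by norm_num
  have p2 : (3.1416 : ℝ) = 31416 / 10000 := by norm_num
  rw [p1] at hpi
  rw [p2] at hpi2
  have x0n : 0 ≤ x0 := by
    have := N.b0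
    by_contra hcon
    push Not at hcon
    linarith
  have x1n : 0 ≤ x1 := by
    have := N.c0
    by_contra hcon
    push Not at hcon
    linarith
  have t1n : 0 ≤ t1 := by
    have := N.d0
    by_contra hcon
    push Not at hcon
    linarith
  refine ⟨hw, ?_, ?_, ?_⟩
  · have k := ang_le h0.le h1.le N.b0 N.b1 (cosq_ge hV N.a0 N.a1 c1 hz) N.b2 N.b3
    exact k.trans (mul_le_mul_of_nonneg_left hpi.le x0n)
  · have hre : 0 < (Complex.cos w).re := by
      have := ckL_spec hV c5 hz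
      push_cast at this
      linarith
    have hp : (0 : ℝ) < z.p := by exact_mod_cast N.a3
    have hq : (0 : ℝ) < z.q := by exact_mod_cast N.a4
    have hn : (0 : ℝ) < z.n1 := by exact_mod_cast N.a5
    have hn' : (z.n1 : ℝ) < 100000 := by exact_mod_cast N.a6
    have hl := ckL_spec hV c3 hz
    push_cast at hl
    have hu := cosq_le (p := (z.p : ℝ) / 1000) (q := (z.q : ℝ) / 1000)
      (n := (z.n1 : ℝ) / 100000) (by positivity) (by positivity) (by positivity)
      (by rw [div_lt_one (by norm_num)]; exact hn') N.c4 hre him (by linarith)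
    have k := ang_ge h0.le N.c0 N.c1 hu N.c2 N.c3
    exact (mul_le_mul_of_nonneg_left hpi2.le x1n).trans k
  · have hs := sinhq_le hV N.a2 c2 hz
    have hs' : Real.sinh (-w.im) ^ 2 ≤ (z.m : ℝ) / 100000 := by
      rw [Real.sinh_neg, neg_sq]
      exact hs
    have k := hgt_le hs' N.d0 N.d1
    exact k.trans (mul_le_mul_of_nonneg_left hpi.le t1n)

/-- parameters of the rings with the digit `d`; `e`: at an end -/
def zn : ℕ → Bool → ZP
  | 4, true => ⟨50631, 69568, 4224, 1207, 210⟩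
  | 4, false => ⟨57514, 80892, 11143, 1128, 390⟩
  | 5, true => ⟨63650, 77319, 1835, 1141, 170⟩
  | 5, false => ⟨67234, 84908, 5271, 1096, 360⟩
  | 6, true => ⟨72981, 82829, 890, 1101, 150⟩
  | 6, false => ⟨74638, 88725, 2690, 1069, 350⟩
  | 7, true => ⟨78106, 86875, 478, 1074, 120⟩
  | 7, false => ⟨79391, 90997, 1586, 1052, 280⟩
  | _, _ => ⟨0, 0, 0, 0, 0⟩

theorem zn_4e : ZN (zn 4 true) (31 / 125) (93 / 500) (13 / 200) := by
  constructor <;> norm_num [zn]

theorem zn_4i : ZN (zn 4 false) (113 / 500) (18 / 125) (209 / 2000) := by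
  constructor <;> norm_num [zn]

theorem zn_5e : ZN (zn 5 true) (103 / 500) (79 / 500) (43 / 1000) := by
  constructor <;> norm_num [zn]

theorem zn_5i : ZN (zn 5 false) (97 / 500) (127 / 1000) (29 / 400) := by
  constructor <;> norm_num [zn]

theorem zn_6e : ZN (zn 6 true) (87 / 500) (17 / 125) (3 / 100) := by
  constructor <;> norm_num [zn]

theorem zn_6i : ZN (zn 6 false) (21 / 125) (109 / 1000) (13 / 250) := by
  constructor <;> norm_num [zn]

theorem zn_7e : ZN (zn 7 true) (31 / 200) (59 / 500) (11 / 500) := by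
  constructor <;> norm_num [zn]

theorem zn_7i : ZN (zn 7 false) (3 / 20) (97 / 1000) (1 / 25) := by
  constructor <;> norm_num [zn]

/-- all polygons pass the check -/
def ztab : Bool :=
  [4, 5, 6, 7].all fun d => allK.all fun l => allK.all fun r =>
    !(decide (ROK d l r) && decide (crs d l r ≤ 7)) ||
      (match q3 (crs d l r) l r with
        | none => false
        | some V => ckA (zn d (decide (l = .e) || decide (r = .e))) V)

theorem ztab_ok : ztab = true := by decide +kernel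

lemma ztab_spec {d : ℕ} {l r : SK} (hd : d ∈ [4, 5, 6, 7]) (h : ROK d l r) (h7 : crs d l r ≤ 7) :
    ∃ V, Kr3.K d l r = PolyU V ∧ ckA (zn d (decide (l = .e) || decide (r = .e))) V = true := by
  have h1 := List.all_eq_true.1 (List.all_eq_true.1 (List.all_eq_true.1 ztab_ok d hd) l
    (mem_allK l)) r (mem_allK r)
  rw [decide_eq_true h, decide_eq_true h7] at h1
  cases h2 : q3 (crs d l r) l r with
  | none =>
    rw [h2] at h1
    exact absurd h1 (by simp)
  | some V =>
    rw [h2] at h1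
    refine ⟨V, Kq_some ?_, h1⟩
    unfold pol
    rw [if_neg (by omega), h2]

/-- the box of the variable of an inner ring with at most seven crossings -/
theorem ring_low {d : ℕ} {l r : SK} {dl : ℕ} {ll : SK} {dr : ℕ} {rr : SK} {w kl kr : ℂ}
    (hd : 4 ≤ d) (h : RDt Kr3 d l r dl ll dr rr w kl kr) (h7 : crs d l r ≤ 7) :
    (zbox d false).In (zeta w) ∧ 0 < (zeta w).im := by
  have hd7 : d ≤ 7 := le_trans (by unfold crs; omega) h7
  have hm : d ∈ [4, 5, 6, 7] := by
    simp only [List.mem_cons, List.not_mem_nil, or_false]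
    omega
  obtain ⟨V, e, hc⟩ := ztab_spec hm h.right.ok.left h7
  rw [decide_eq_false h.left.ok.ne, decide_eq_false h.right.ok.ne, Bool.or_false] at hc
  have hz : Complex.cos w ∈ Poly V := KB.polyU_sub V (by rw [← e]; exact h.right.mem)
  have hpi := Real.pi_pos
  have hd' : d = 4 ∨ d = 5 ∨ d = 6 ∨ d = 7 := by omega
  rcases hd' with rfl | rfl | rfl | rfl
  · obtain ⟨k1, k2, k3, k4⟩ := zrow hc zn_4i h.w0 h.w1 hz
    refine ⟨Z8.in_box ?_ ?_ ?_ ?_ k1.le, by rw [Z8.zeta_im]; exact div_pos k1 hpi⟩ <;>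
      norm_num [zbox] <;> linarith
  · obtain ⟨k1, k2, k3, k4⟩ := zrow hc zn_5i h.w0 h.w1 hz
    refine ⟨Z8.in_box ?_ ?_ ?_ ?_ k1.le, by rw [Z8.zeta_im]; exact div_pos k1 hpi⟩ <;>
      norm_num [zbox] <;> linarith
  · obtain ⟨k1, k2, k3, k4⟩ := zrow hc zn_6i h.w0 h.w1 hz
    refine ⟨Z8.in_box ?_ ?_ ?_ ?_ k1.le, by rw [Z8.zeta_im]; exact div_pos k1 hpi⟩ <;>
      norm_num [zbox] <;> linarith
  · obtain ⟨k1, k2, k3, k4⟩ := zrow hc zn_7i h.w0 h.w1 hz
    refine ⟨Z8.in_box ?_ ?_ ?_ ?_ k1.le, by rw [Z8.zeta_im]; exact div_pos k1 hpi⟩ <;>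
      norm_num [zbox] <;> linarith

/-- the box of the variable of an end ring with at most seven crossings -/
theorem end_low {d : ℕ} {r : SK} {dr : ℕ} {rr : SK} {w kr : ℂ}
    (hd : 4 ≤ d) (h : RDe Kr3 d r dr rr w kr) (h7 : crs d .e r ≤ 7) :
    (zbox d true).In (zeta w) ∧ 0 < (zeta w).im := by
  have hd7 : d ≤ 7 := le_trans (by unfold crs; omega) h7
  have hm : d ∈ [4, 5, 6, 7] := by
    simp only [List.mem_cons, List.not_mem_nil, or_false]
    omega
  obtain ⟨V, e, hc⟩ := ztab_spec hm h.right.ok.left h7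
  rw [decide_eq_true rfl, Bool.true_or] at hc
  have hz : Complex.cos w ∈ Poly V := KB.polyU_sub V (by rw [← e]; exact h.right.mem)
  have hpi := Real.pi_pos
  have hd' : d = 4 ∨ d = 5 ∨ d = 6 ∨ d = 7 := by omega
  rcases hd' with rfl | rfl | rfl | rfl
  · obtain ⟨k1, k2, k3, k4⟩ := zrow hc zn_4e h.w0 h.w1 hz
    refine ⟨Z8.in_box ?_ ?_ ?_ ?_ k1.le, by rw [Z8.zeta_im]; exact div_pos k1 hpi⟩ <;>
      norm_num [zbox] <;> linarith
  · obtain ⟨k1, k2, k3, k4⟩ := zrow hc zn_5e h.w0 h.w1 hz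
    refine ⟨Z8.in_box ?_ ?_ ?_ ?_ k1.le, by rw [Z8.zeta_im]; exact div_pos k1 hpi⟩ <;>
      norm_num [zbox] <;> linarith
  · obtain ⟨k1, k2, k3, k4⟩ := zrow hc zn_6e h.w0 h.w1 hz
    refine ⟨Z8.in_box ?_ ?_ ?_ ?_ k1.le, by rw [Z8.zeta_im]; exact div_pos k1 hpi⟩ <;>
      norm_num [zbox] <;> linarith
  · obtain ⟨k1, k2, k3, k4⟩ := zrow hc zn_7e h.w0 h.w1 hz
    refine ⟨Z8.in_box ?_ ?_ ?_ ?_ k1.le, by rw [Z8.zeta_im]; exact div_pos k1 hpi⟩ <;>
      norm_num [zbox] <;> linarith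

/-- `BoxRows.ring` for the family `Kr3` -/
theorem ring_kr3 (hle : Kr3.Le K0) {d : ℕ} {l r : SK} {dl : ℕ} {ll : SK} {dr : ℕ} {rr : SK}
    {w kl kr : ℂ} (hd : 4 ≤ d) (h : RDt Kr3 d l r dl ll dr rr w kl kr) :
    (zbox d false).In (zeta w) ∧ 0 < (zeta w).im := by
  rcases lt_or_ge (crs d l r) 8 with h8 | h8
  · exact ring_low hd h (by omega)
  · exact ring8 hle h h8

/-- `BoxRows.ringE` for the family `Kr3` -/
theorem end_kr3 (hle : Kr3.Le K0) {d : ℕ} {r : SK} {dr : ℕ} {rr : SK} {w kr : ℂ}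
    (hd : 4 ≤ d) (h : RDe Kr3 d r dr rr w kr) :
    (zbox d true).In (zeta w) ∧ 0 < (zeta w).im := by
  rcases lt_or_ge (crs d .e r) 8 with h8 | h8
  · exact end_low hd h (by omega)
  · exact end8 hle h h8

/-! ### the angle for the digits `4` and `5` -/

lemma sig_le {V : List (ℤ × ℤ)} {n : ℤ} {x : ℝ} (hV : shape V = true) (hc : ckU n V = true)
    (a0 : 0 < n) (a1 : n < 100000) (b0 : 0 ≤ x * (31415 / 10000)) (b1 : x * (31415 / 10000) ≤ 1)
    (b2 : 0 ≤ 1 - (x * (31415 / 10000)) ^ 2 / 2 + (x * (31415 / 10000)) ^ 4 / 24 -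
      (x * (31415 / 10000)) ^ 6 / 720 + (x * (31415 / 10000)) ^ 8 / 35000)
    (b3 : (1 - (x * (31415 / 10000)) ^ 2 / 2 + (x * (31415 / 10000)) ^ 4 / 24 -
      (x * (31415 / 10000)) ^ 6 / 720 + (x * (31415 / 10000)) ^ 8 / 35000) ^ 2 ≤
      (n : ℝ) / 100000) {w : ℂ} (h0 : 0 < w.re) (h1 : w.re < 3 / 2)
    (hz : Complex.cos w ∈ Poly V) : |(zeta w).re| ≤ x := by
  have hpi := Real.pi_gt_d4
  have p1 : (3.1415 : ℝ) = 31415 / 10000 := by norm_num
  rw [p1] at hpi
  have hpi0 := Real.pi_pos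
  have xn : 0 ≤ x := by
    by_contra hcon
    push Not at hcon
    linarith
  have k := ang_le h0.le h1.le b0 b1 (cosq_ge hV a0 a1 hc hz) b2 b3
  have k2 := k.trans (mul_le_mul_of_nonneg_left hpi.le xn)
  rw [Z8.zeta_re, abs_neg, abs_of_pos (div_pos h0 hpi0), div_le_iff₀ hpi0]
  exact k2

/-- the value is in the polygon of the table -/
lemma kr3_mem {d : ℕ} {l r : SK} {V : List (ℤ × ℤ)} {z : ℂ} (hz : z ∈ Kr3.K d l r)
    (e : pol q3 vr d l r = some V) : z ∈ Poly V :=
  KB.polyU_sub V (by rw [← Kq_some (hq := q3_symm) (hv := vr_symm) e]; exact hz)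

theorem sE4a {dr : ℕ} {rr : SK} {w kr : ℂ} (h : RDe Kr3 4 .a dr rr w kr) :
    |(zeta w).re| ≤ 2345 / 10000 :=
  sig_le (V := v3_4ea) (n := 54864) (by decide) (by decide +kernel) (by norm_num)
          (by norm_num) (by norm_num) (by norm_num) (by norm_num) (by norm_num) h.w0 h.w1
          (kr3_mem h.right.mem rfl)

theorem sE4s {dr : ℕ} {rr : SK} {w kr : ℂ} (h : RDe Kr3 4 .s dr rr w kr) :
    |(zeta w).re| ≤ 2185 / 10000 :=
  sig_le (V := v3_5es) (n := 59834) (by decide) (by decide +kernel) (by norm_num)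
          (by norm_num) (by norm_num) (by norm_num) (by norm_num) (by norm_num) h.w0 h.w1
          (kr3_mem h.right.mem rfl)

theorem sE5 {r : SK} {dr : ℕ} {rr : SK} {w kr : ℂ} (h : RDe Kr3 5 r dr rr w kr)
    (hr : r ≠ .z) : |(zeta w).re| ≤ 195 / 1000 := by
  cases r
  · exact absurd rfl h.right.ok.ne
  · exact sig_le (V := v3_5ea) (n := 66939) (by decide) (by decide +kernel) (by norm_num)
          (by norm_num) (by norm_num) (by norm_num) (by norm_num) (by norm_num) h.w0 h.w1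
          (kr3_mem h.right.mem rfl)
  · exact absurd rfl hr
  · exact sig_le (V := v3_6es) (n := 66939) (by decide) (by decide +kernel) (by norm_num)
          (by norm_num) (by norm_num) (by norm_num) (by norm_num) (by norm_num) h.w0 h.w1
          (kr3_mem h.right.mem rfl)

theorem s4s {r : SK} {dl : ℕ} {ll : SK} {dr : ℕ} {rr : SK} {w kl kr : ℂ}
    (h : RDt Kr3 4 .s r dl ll dr rr w kl kr) :
    |(zeta w).re| ≤ (if r = .z then 203 / 1000 else 200 / 1000) := by
  cases r
  · exact absurd rfl h.right.ok.ne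
  · rw [if_neg (by decide)]
    exact sig_le (V := v3_5as) (n := 65453) (by decide) (by decide +kernel) (by norm_num)
          (by norm_num) (by norm_num) (by norm_num) (by norm_num) (by norm_num) h.w0 h.w1
          (kr3_mem h.right.mem rfl)
  · rw [if_pos rfl]
    exact sig_le (V := v3_5zs) (n := 64554) (by decide) (by decide +kernel) (by norm_num)
          (by norm_num) (by norm_num) (by norm_num) (by norm_num) (by norm_num) h.w0 h.w1
          (kr3_mem h.right.mem rfl)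
  · rw [if_neg (by decide)]
    exact sig_le (V := v3_6ss) (n := 65453) (by decide) (by decide +kernel) (by norm_num)
          (by norm_num) (by norm_num) (by norm_num) (by norm_num) (by norm_num) h.w0 h.w1
          (kr3_mem h.right.mem rfl)

theorem s4 {l r : SK} {dl : ℕ} {ll : SK} {dr : ℕ} {rr : SK} {w kl kr : ℂ}
    (h : RDt Kr3 4 l r dl ll dr rr w kl kr) : |(zeta w).re| ≤ 22 / 100 := by
  cases l
  · exact absurd rfl h.left.ok.ne
  · cases r
    · exact absurd rfl h.right.ok.ne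
    · exact sig_le (V := v3_4aa) (n := 59372) (by decide) (by decide +kernel) (by norm_num)
          (by norm_num) (by norm_num) (by norm_num) (by norm_num) (by norm_num) h.w0 h.w1
          (kr3_mem h.right.mem rfl)
    · exact sig_le (V := v3_4az) (n := 59372) (by decide) (by decide +kernel) (by norm_num)
          (by norm_num) (by norm_num) (by norm_num) (by norm_num) (by norm_num) h.w0 h.w1
          (kr3_mem h.right.mem rfl)
    · exact sig_le (V := v3_5as) (n := 59372) (by decide) (by decide +kernel) (by norm_num)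
          (by norm_num) (by norm_num) (by norm_num) (by norm_num) (by norm_num) h.w0 h.w1
          (kr3_mem h.right.mem rfl)
  · cases r
    · exact absurd rfl h.right.ok.ne
    · exact sig_le (V := v3_4az) (n := 59372) (by decide) (by decide +kernel) (by norm_num)
          (by norm_num) (by norm_num) (by norm_num) (by norm_num) (by norm_num) h.w0 h.w1
          (kr3_mem h.right.mem rfl)
    · exact sig_le (V := v3_4zz) (n := 59372) (by decide) (by decide +kernel) (by norm_num)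
          (by norm_num) (by norm_num) (by norm_num) (by norm_num) (by norm_num) h.w0 h.w1
          (kr3_mem h.right.mem rfl)
    · exact sig_le (V := v3_5zs) (n := 59372) (by decide) (by decide +kernel) (by norm_num)
          (by norm_num) (by norm_num) (by norm_num) (by norm_num) (by norm_num) h.w0 h.w1
          (kr3_mem h.right.mem rfl)
  · cases r
    · exact absurd rfl h.right.ok.ne
    · exact sig_le (V := v3_5as) (n := 59372) (by decide) (by decide +kernel) (by norm_num)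
          (by norm_num) (by norm_num) (by norm_num) (by norm_num) (by norm_num) h.w0 h.w1
          (kr3_mem h.right.mem rfl)
    · exact sig_le (V := v3_5zs) (n := 59372) (by decide) (by decide +kernel) (by norm_num)
          (by norm_num) (by norm_num) (by norm_num) (by norm_num) (by norm_num) h.w0 h.w1
          (kr3_mem h.right.mem rfl)
    · exact sig_le (V := v3_6ss) (n := 59372) (by decide) (by decide +kernel) (by norm_num)
          (by norm_num) (by norm_num) (by norm_num) (by norm_num) (by norm_num) h.w0 h.w1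
          (kr3_mem h.right.mem rfl)

/-! ### lower bounds of the height for the digit `4` -/

/-- check -/
def rtab : Bool :=
  allK.all fun l => allK.all fun r => !(decide (ROK 4 l r)) ||
    (match q3 (crs 4 l r) l r with
      | none => false
      | some V => shape V && ckL 0 (-1) 0 V && ckL (-1) 0 0 V &&
        (if l = .e ∨ r = .e then ckL (-37) (-399) (-48764) V
          else ckL (-59) (-330) (-70056) V))

theorem rtab_ok : rtab = true := by decide +kernel

lemma rtab_spec {l r : SK} (h : ROK 4 l r) : ∃ V, Kr3.K 4 l r = PolyU V ∧ shape V = true ∧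
    ckL 0 (-1) 0 V = true ∧ ckL (-1) 0 0 V = true ∧ (if l = .e ∨ r = .e then
      ckL (-37) (-399) (-48764) V else ckL (-59) (-330) (-70056) V) = true := by
  have h1 := List.all_eq_true.1 (List.all_eq_true.1 rtab_ok l (mem_allK l)) r (mem_allK r)
  rw [decide_eq_true h] at h1
  cases h2 : q3 (crs 4 l r) l r with
  | none =>
    rw [h2] at h1
    exact absurd h1 (by simp)
  | some V =>
    rw [h2] at h1
    have h3 : (shape V && ckL 0 (-1) 0 V && ckL (-1) 0 0 V &&
        (if l = .e ∨ r = .e then ckL (-37) (-399) (-48764) V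
          else ckL (-59) (-330) (-70056) V)) = true := h1
    rw [Bool.and_eq_true, Bool.and_eq_true, Bool.and_eq_true] at h3
    refine ⟨V, Kq_some ?_, h3.1.1.1, h3.1.1.2, h3.1.2, h3.2⟩
    have h8 : crs 4 l r < 8 := by cases l <;> cases r <;> decide
    unfold pol
    rw [if_neg (by omega), h2]

lemma rho_ge {V : List (ℤ × ℤ)} (hV : shape V = true) (h1 : ckL 0 (-1) 0 V = true)
    (h2 : ckL (-1) 0 0 V = true) {p q c : ℤ} (hp : 0 ≤ p) (hq : 0 ≤ q) (hc : 0 ≤ c)
    (h3 : ckL (-p) (-q) (-c) V = true) {t s : ℝ} (ht : 0 ≤ t)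
    (ht1 : t * (31416 / 10000) ≤ 1)
    (hs : (t * (31416 / 10000) + (t * (31416 / 10000)) ^ 3 / 6 + (t * (31416 / 10000)) ^ 4 / 16) ^ 2
      ≤ s)
    (hcs : (p : ℝ) ^ 2 * (1 + s) + (q : ℝ) ^ 2 * s ≤ ((c : ℝ) / 1000) ^ 2) {w : ℂ}
    (h0 : 0 < w.re) (h0' : w.re < 3 / 2) (hz : Complex.cos w ∈ Poly V) :
    t ≤ (zeta w).im := by
  obtain ⟨him, hw⟩ := im_neg hV h1 h0 h0' hz
  have hre := ckL_spec hV h2 hz
  have hl := ckL_spec hV h3 hz
  push_cast at hre hl
  have hp' : (0 : ℝ) ≤ p := by exact_mod_cast hp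
  have hq' : (0 : ℝ) ≤ q := by exact_mod_cast hq
  have hc' : (0 : ℝ) ≤ c := by exact_mod_cast hc
  have k := sinhq_ge hp' hq' (show (0 : ℝ) ≤ (c : ℝ) / 1000 by positivity) hcs (w := w)
    (by linarith) him.le (by rw [div_lt_iff₀ (by norm_num)]; linarith)
  have k' : s ≤ Real.sinh (-w.im) ^ 2 := by
    rw [Real.sinh_neg, neg_sq]
    exact k
  have k2 := hgt_ge k' hw.le (by positivity) ht1 hs
  have hpi2 := Real.pi_lt_d4
  have p2 : (3.1416 : ℝ) = 31416 / 10000 := by norm_num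
  rw [p2] at hpi2
  rw [Z8.zeta_im, le_div_iff₀ Real.pi_pos]
  exact (mul_le_mul_of_nonneg_left hpi2.le ht).trans k2

theorem rho4_inner {l r : SK} {dl : ℕ} {ll : SK} {dr : ℕ} {rr : SK} {w kl kr : ℂ}
    (h : RDt Kr3 4 l r dl ll dr rr w kl kr) : 35 / 1000 ≤ (zeta w).im := by
  obtain ⟨V, e, h1, h2, h3, h4⟩ := rtab_spec h.right.ok.left
  rw [if_neg (fun hc => hc.elim h.left.ok.ne h.right.ok.ne)] at h4
  have hz : Complex.cos w ∈ Poly V := KB.polyU_sub V (by rw [← e]; exact h.right.mem)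
  exact rho_ge h1 h2 h3 (p := 59) (q := 330) (c := 70056) (s := 1215 / 100000) (by norm_num)
    (by norm_num) (by norm_num) h4 (by norm_num) (by norm_num) (by norm_num) (by norm_num)
    h.w0 h.w1 hz

theorem rho4_end {r : SK} {dr : ℕ} {rr : SK} {w kr : ℂ} (h : RDe Kr3 4 r dr rr w kr) :
    25 / 1000 ≤ (zeta w).im := by
  obtain ⟨V, e, h1, h2, h3, h4⟩ := rtab_spec h.right.ok.left
  rw [if_pos (Or.inl rfl)] at h4
  have hz : Complex.cos w ∈ Poly V := KB.polyU_sub V (by rw [← e]; exact h.right.mem)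
  exact rho_ge h1 h2 h3 (p := 37) (q := 399) (c := 48764) (s := 619 / 100000) (by norm_num)
    (by norm_num) (by norm_num) h4 (by norm_num) (by norm_num) (by norm_num) (by norm_num)
    h.w0 h.w1 hz

end SR

end Pool.Agent.Work.MP_b30479_gt.G2
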