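import Pool.Agent.Work.MP_b30479_gt.G2.S2Base

/-!
# Refined polygons for the rings with `2, …, 7` crossings (in units of `1 / 1000`)

`v<round>_<crossings><sides>`; sides: `e` end, `a` neighbour of opposite sign, `z` unsplit neighbour
of equal sign, `s` split side. The digit is the number of crossings minus the number of split sides.
Ports `p<round>_`: `A2` neighbours of opposite sign of a digit at least `2`, `A1` of a digit `1`,
    `Z`
unsplit neighbours of equal sign, `S3` neighbours across a split side of a digit at least `3`, `S2`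
of a digit at most `2` with at least `3` crossings, `ST` of a ring with `2` crossings.
-/

namespace Pool.Agent.Work.MP_b30479_gt.G2

/-- ports of the round 1 -/
def p1_A2 : List (ℤ × ℤ) :=
  [(420, 247), (485, 200), (785, 0), (1000, 0), (831, 676), (733, 675), (497, 508), (420, 444)]

/-- ports of the round 1 -/
def p1_A1 : List (ℤ × ℤ) :=
  [(420, 247), (485, 200), (649, 91), (800, 0), (1000, 0), (873, 508), (497, 508), (420, 444)]

/-- ports of the round 1 -/
def p1_Z : List (ℤ × ℤ) :=
  [(660, 115), (800, 0), (1000, 0), (900, 250), (830, 330), (770, 330), (660, 230)]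

/-- ports of the round 1 -/
def p1_S3 : List (ℤ × ℤ) :=
  [(501, 240), (757, 38), (930, 38), (874, 504), (831, 675), (733, 675), (528, 503), (501, 314)]

/-- ports of the round 1 -/
def p1_S2 : List (ℤ × ℤ) :=
  [(501, 240), (800, 0), (1000, 0), (874, 504), (831, 675), (733, 675), (528, 503), (501, 314)]

/-- ports of the round 1 -/
def p1_ST : List (ℤ × ℤ) :=
  [(501, 240), (800, 0), (1000, 0), (789, 539), (733, 539), (637, 455), (501, 314)]

/-- round 1, 2 crossings, sides `ea` -/
def v1_2ea : List (ℤ × ℤ) :=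
  [(427, 244), (514, 201), (647, 283), (662, 314), (500, 501), (441, 442), (428, 355), (424, 280)]

/-- round 1, 2 crossings, sides `aa` -/
def v1_2aa : List (ℤ × ℤ) :=
  [(598, 263), (670, 189), (839, 197), (867, 501), (804, 501), (738, 489), (641, 389), (604, 286)]

/-- round 1, 2 crossings, sides `as` -/
def v1_2as : List (ℤ × ℤ) :=
  [(586, 316), (695, 303), (843, 348), (867, 499), (818, 672), (707, 648), (558, 493), (529, 411)]

/-- round 1, 3 crossings, sides `ea` -/
def v1_3ea : List (ℤ × ℤ) :=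
  [(622, 116), (667, 96), (734, 137), (742, 150), (661, 252), (628, 221), (622, 183), (620, 151)]

/-- round 1, 3 crossings, sides `es` -/
def v1_3es : List (ℤ × ℤ) :=
  [(522, 246), (535, 222), (573, 220), (632, 221), (663, 250), (567, 352), (547, 346), (510, 292)]

/-- round 1, 3 crossings, sides `aa` -/
def v1_3aa : List (ℤ × ℤ) :=
  [(718, 147), (763, 109), (846, 123), (860, 133), (848, 293), (784, 281), (744, 229), (723, 176)]

/-- round 1, 3 crossings, sides `as` -/
def v1_3as : List (ℤ × ℤ) :=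
  [(673, 232), (706, 187), (850, 178), (849, 284), (823, 399), (763, 387), (723, 357), (665, 277)]

/-- round 1, 3 crossings, sides `ss` -/
def v1_3ss : List (ℤ × ℤ) :=
  [(652, 338), (788, 278), (848, 290), (820, 412), (790, 528), (745, 534), (652, 464), (644, 378)]

/-- round 1, 4 crossings, sides `ea` -/
def v1_4ea : List (ℤ × ℤ) :=
  [(753, 55), (777, 47), (813, 73), (814, 79), (764, 130), (748, 109), (748, 88)]

/-- round 1, 4 crossings, sides `ez` -/
def v1_4ez : List (ℤ × ℤ) :=
  [(714, 117), (726, 105), (750, 110), (766, 129), (726, 145), (716, 138)]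

/-- round 1, 4 crossings, sides `es` -/
def v1_4es : List (ℤ × ℤ) :=
  [(683, 112), (696, 98), (744, 109), (758, 125), (699, 182), (686, 177), (669, 137)]

/-- round 1, 4 crossings, sides `aa` -/
def v1_4aa : List (ℤ × ℤ) :=
  [(799, 82), (829, 63), (886, 80), (861, 179), (825, 163), (820, 155), (806, 124)]

/-- round 1, 4 crossings, sides `az` -/
def v1_4az : List (ℤ × ℤ) :=
  [(806, 106), (857, 110), (872, 121), (861, 177), (841, 204), (809, 192), (789, 152), (783, 130)]

/-- round 1, 4 crossings, sides `as` -/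
def v1_4as : List (ℤ × ℤ) :=
  [(765, 126), (786, 105), (856, 110), (871, 124), (836, 238), (802, 228), (780, 205), (753, 153)]

/-- round 1, 4 crossings, sides `zz` -/
def v1_4zz : List (ℤ × ℤ) :=
  [(779, 197), (790, 172), (825, 162), (862, 176), (831, 217), (813, 231), (798, 228)]

/-- round 1, 4 crossings, sides `ss` -/
def v1_4ss : List (ℤ × ℤ) :=
  [(730, 206), (739, 183), (831, 162), (862, 174), (808, 313), (780, 314), (726, 264), (726, 240)]

/-- round 1, 5 crossings, sides `ea` -/
def v1_5ea : List (ℤ × ℤ) :=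
  [(831, 29), (844, 25), (867, 43), (833, 72), (825, 59), (827, 45)]

/-- round 1, 5 crossings, sides `ez` -/
def v1_5ez : List (ℤ × ℤ) :=
  [(805, 60), (814, 54), (827, 60), (834, 72), (811, 77), (807, 76), (804, 72)]

/-- round 1, 5 crossings, sides `es` -/
def v1_5es : List (ℤ × ℤ) :=
  [(778, 63), (797, 47), (824, 59), (829, 69), (787, 97), (780, 90), (778, 71)]

/-- round 1, 5 crossings, sides `aa` -/
def v1_5aa : List (ℤ × ℤ) :=
  [(856, 47), (874, 38), (908, 52), (908, 54), (883, 112), (861, 97), (856, 73), (855, 57)]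

/-- round 1, 5 crossings, sides `az` -/
def v1_5az : List (ℤ × ℤ) :=
  [(841, 75), (857, 62), (886, 69), (896, 77), (884, 110), (868, 125), (849, 114), (842, 87)]

/-- round 1, 5 crossings, sides `as` -/
def v1_5as : List (ℤ × ℤ) :=
  [(821, 79), (844, 59), (887, 70), (893, 76), (878, 114), (860, 146), (838, 135), (824, 105)]

/-- round 1, 5 crossings, sides `zz` -/
def v1_5zz : List (ℤ × ℤ) :=
  [(841, 99), (864, 98), (884, 110), (852, 140), (839, 136), (833, 120), (831, 113)]

/-- round 1, 5 crossings, sides `zs` -/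
def v1_5zs : List (ℤ × ℤ) :=
  [(817, 111), (826, 99), (860, 98), (880, 110), (856, 153), (841, 163), (826, 160), (809, 130)]

/-- round 1, 5 crossings, sides `ss` -/
def v1_5ss : List (ℤ × ℤ) :=
  [(794, 124), (806, 99), (856, 98), (876, 109), (834, 192), (817, 188), (800, 167), (787, 146)]

/-- round 1, 6 crossings, sides `ea` -/
def v1_6ea : List (ℤ × ℤ) :=
  [(878, 17), (886, 15), (899, 26), (900, 27), (877, 44), (873, 34)]

/-- round 1, 6 crossings, sides `ez` -/
def v1_6ez : List (ℤ × ℤ) :=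
  [(861, 34), (866, 31), (876, 36), (879, 43), (865, 45), (859, 43)]

/-- round 1, 6 crossings, sides `es` -/
def v1_6es : List (ℤ × ℤ) :=
  [(843, 53), (845, 33), (858, 26), (872, 34), (876, 41), (844, 56)]

/-- round 1, 6 crossings, sides `aa` -/
def v1_6aa : List (ℤ × ℤ) :=
  [(891, 40), (892, 29), (904, 24), (927, 35), (905, 73), (891, 60)]

/-- round 1, 6 crossings, sides `az` -/
def v1_6az : List (ℤ × ℤ) :=
  [(880, 46), (892, 39), (911, 45), (917, 50), (903, 76), (893, 79), (882, 70)]

/-- round 1, 6 crossings, sides `as` -/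
def v1_6as : List (ℤ × ℤ) :=
  [(869, 46), (884, 36), (909, 45), (916, 53), (887, 93), (872, 82), (867, 52)]

/-- round 1, 6 crossings, sides `zz` -/
def v1_6zz : List (ℤ × ℤ) :=
  [(871, 68), (879, 60), (895, 62), (906, 71), (905, 72), (888, 84), (874, 87)]

/-- round 1, 6 crossings, sides `zs` -/
def v1_6zs : List (ℤ × ℤ) :=
  [(855, 75), (869, 58), (893, 62), (903, 71), (886, 92), (871, 103), (863, 97)]

/-- round 1, 6 crossings, sides `ss` -/
def v1_6ss : List (ℤ × ℤ) :=
  [(851, 65), (859, 56), (892, 62), (901, 70), (864, 119), (851, 114), (839, 82)]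

/-- round 1, 7 crossings, sides `ea` -/
def v1_7ea : List (ℤ × ℤ) :=
  [(908, 11), (913, 9), (921, 16), (922, 18), (907, 28), (904, 24)]

/-- round 1, 7 crossings, sides `ez` -/
def v1_7ez : List (ℤ × ℤ) :=
  [(895, 27), (897, 21), (900, 19), (905, 21), (908, 28), (902, 29)]

/-- round 1, 7 crossings, sides `es` -/
def v1_7es : List (ℤ × ℤ) :=
  [(885, 28), (887, 20), (895, 15), (906, 23), (906, 27), (884, 34)]

/-- round 1, 7 crossings, sides `aa` -/
def v1_7aa : List (ℤ × ℤ) :=
  [(915, 30), (917, 19), (926, 16), (941, 25), (923, 49), (922, 48), (915, 40)]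

/-- round 1, 7 crossings, sides `az` -/
def v1_7az : List (ℤ × ℤ) :=
  [(908, 30), (917, 25), (926, 29), (933, 34), (923, 49), (915, 53), (908, 46)]

/-- round 1, 7 crossings, sides `as` -/
def v1_7as : List (ℤ × ℤ) :=
  [(899, 30), (911, 23), (927, 30), (932, 37), (909, 61), (901, 54), (900, 47)]

/-- round 1, 7 crossings, sides `zz` -/
def v1_7zz : List (ℤ × ℤ) :=
  [(901, 42), (908, 38), (917, 41), (924, 48), (914, 54), (905, 56), (901, 54)]

/-- round 1, 7 crossings, sides `zs` -/
def v1_7zs : List (ℤ × ℤ) :=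
  [(901, 37), (915, 40), (922, 48), (910, 59), (899, 66), (891, 60), (891, 43)]

/-- round 1, 7 crossings, sides `ss` -/
def v1_7ss : List (ℤ × ℤ) :=
  [(893, 34), (916, 41), (921, 47), (890, 76), (884, 72), (882, 67), (879, 49)]

/-- ports of the round 2 -/
def p2_A2 : List (ℤ × ℤ) :=
  [(422, 247), (669, 85), (907, 0), (1000, 0), (821, 675), (707, 648), (500, 501), (432, 433)]

/-- ports of the round 2 -/
def p2_A1 : List (ℤ × ℤ) :=
  [(422, 247), (622, 116), (753, 55), (907, 0), (1000, 0), (867, 501), (500, 501), (432, 433)]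

/-- ports of the round 2 -/
def p2_Z : List (ℤ × ℤ) :=
  [(714, 117), (726, 105), (897, 0), (1000, 0), (831, 217), (813, 231), (798, 228), (716, 138)]

/-- ports of the round 2 -/
def p2_S3 : List (ℤ × ℤ) :=
  [(510, 292), (528, 223), (862, 155), (867, 499), (818, 672), (707, 648), (558, 493), (529, 411)]

/-- ports of the round 2 -/
def p2_S2 : List (ℤ × ℤ) :=
  [(510, 292), (526, 228), (696, 98), (883, 0), (1000, 0), (821, 673), (707, 648), (539, 474)]

/-- ports of the round 2 -/
def p2_ST : List (ℤ × ℤ) :=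
  [(527, 228), (696, 98), (883, 0), (1000, 0), (790, 528), (745, 534), (652, 464), (506, 300)]

/-- round 2, 2 crossings, sides `ea` -/
def v2_2ea : List (ℤ × ℤ) :=
  [(428, 243), (518, 207), (634, 278), (661, 310), (500, 501), (475, 476), (434, 384), (427, 305)]

/-- round 2, 2 crossings, sides `aa` -/
def v2_2aa : List (ℤ × ℤ) :=
  [(672, 195), (837, 200), (867, 502), (815, 500), (743, 467), (682, 421), (627, 346), (599, 264)]

/-- round 2, 2 crossings, sides `as` -/
def v2_2as : List (ℤ × ℤ) :=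
  [(588, 324), (684, 308), (841, 350), (867, 499), (817, 671), (715, 644), (557, 487), (534, 412)]

/-- round 2, 3 crossings, sides `ea` -/
def v2_3ea : List (ℤ × ℤ) :=
  [(623, 115), (669, 99), (728, 135), (740, 150), (661, 252), (646, 237), (624, 190), (621, 146)]

/-- round 2, 3 crossings, sides `es` -/
def v2_3es : List (ℤ × ℤ) :=
  [(529, 237), (544, 223), (596, 222), (645, 234), (665, 247), (566, 351), (543, 339), (515, 286)]

/-- round 2, 3 crossings, sides `aa` -/
def v2_3aa : List (ℤ × ℤ) :=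
  [(763, 113), (859, 126), (848, 292), (819, 287), (786, 266), (753, 237), (730, 192), (718, 148)]

/-- round 2, 3 crossings, sides `as` -/
def v2_3as : List (ℤ × ℤ) :=
  [(673, 238), (712, 189), (849, 183), (849, 285), (822, 396), (785, 388), (734, 357), (669, 278)]

/-- round 2, 3 crossings, sides `ss` -/
def v2_3ss : List (ℤ × ℤ) :=
  [(663, 337), (742, 302), (814, 284), (851, 289), (786, 528), (734, 523), (658, 452), (649, 370)]

/-- round 2, 4 crossings, sides `ea` -/
def v2_4ea : List (ℤ × ℤ) :=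
  [(754, 54), (778, 49), (808, 70), (813, 78), (764, 130), (758, 123), (748, 91)]

/-- round 2, 4 crossings, sides `ez` -/
def v2_4ez : List (ℤ × ℤ) :=
  [(729, 116), (730, 110), (757, 119), (765, 128), (765, 129), (728, 133)]

/-- round 2, 4 crossings, sides `es` -/
def v2_4es : List (ℤ × ℤ) :=
  [(679, 123), (694, 102), (703, 100), (742, 129), (699, 182), (683, 170), (675, 138)]

/-- round 2, 4 crossings, sides `aa` -/
def v2_4aa : List (ℤ × ℤ) :=
  [(801, 81), (829, 65), (852, 71), (885, 80), (861, 177), (844, 171), (814, 141), (803, 106)]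

/-- round 2, 4 crossings, sides `az` -/
def v2_4az : List (ℤ × ℤ) :=
  [(809, 111), (835, 111), (872, 116), (861, 177), (836, 195), (810, 171), (796, 144), (793, 128)]

/-- round 2, 4 crossings, sides `as` -/
def v2_4as : List (ℤ × ℤ) :=
  [(763, 130), (791, 106), (830, 114), (860, 124), (837, 236), (814, 230), (784, 205), (758, 154)]

/-- round 2, 4 crossings, sides `zz` -/
def v2_4zz : List (ℤ × ℤ) :=
  [(799, 177), (849, 169), (862, 176), (840, 192), (814, 210), (810, 207), (800, 183)]

/-- round 2, 4 crossings, sides `ss` -/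
def v2_4ss : List (ℤ × ℤ) :=
  [(732, 218), (738, 185), (803, 171), (839, 168), (862, 175), (806, 312), (775, 307), (730, 257)]

/-- round 2, 5 crossings, sides `ea` -/
def v2_5ea : List (ℤ × ℤ) :=
  [(831, 29), (844, 26), (862, 40), (864, 45), (833, 72), (829, 66), (826, 52)]

/-- round 2, 5 crossings, sides `ez` -/
def v2_5ez : List (ℤ × ℤ) :=
  [(811, 70), (814, 57), (831, 66), (834, 72), (817, 71)]

/-- round 2, 5 crossings, sides `es` -/
def v2_5es : List (ℤ × ℤ) :=
  [(780, 77), (781, 63), (794, 51), (801, 49), (821, 69), (788, 97), (780, 87)]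

/-- round 2, 5 crossings, sides `aa` -/
def v2_5aa : List (ℤ × ℤ) :=
  [(855, 48), (856, 47), (875, 39), (906, 52), (907, 55), (883, 112), (872, 104), (857, 80)]

/-- round 2, 5 crossings, sides `az` -/
def v2_5az : List (ℤ × ℤ) :=
  [(846, 75), (859, 65), (897, 74), (883, 112), (868, 118), (863, 115), (851, 99)]

/-- round 2, 5 crossings, sides `as` -/
def v2_5as : List (ℤ × ℤ) :=
  [(829, 72), (847, 61), (866, 67), (888, 79), (861, 146), (847, 138), (833, 122), (822, 87)]

/-- round 2, 5 crossings, sides `zz` -/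
def v2_5zz : List (ℤ × ℤ) :=
  [(848, 103), (873, 104), (886, 110), (850, 126), (848, 122), (845, 106)]

/-- round 2, 5 crossings, sides `zs` -/
def v2_5zs : List (ℤ × ℤ) :=
  [(821, 120), (827, 106), (835, 100), (874, 113), (862, 144), (841, 155), (831, 150), (823, 133)]

/-- round 2, 5 crossings, sides `ss` -/
def v2_5ss : List (ℤ × ℤ) :=
  [(794, 133), (803, 109), (813, 99), (863, 119), (863, 120), (834, 191), (812, 182), (794, 149)]

/-- round 2, 6 crossings, sides `ea` -/
def v2_6ea : List (ℤ × ℤ) :=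
  [(874, 30), (879, 16), (887, 16), (896, 24), (899, 27), (876, 45)]

/-- round 2, 6 crossings, sides `ez` -/
def v2_6ez : List (ℤ × ℤ) :=
  [(864, 40), (867, 33), (878, 40), (878, 44), (865, 41)]

/-- round 2, 6 crossings, sides `es` -/
def v2_6es : List (ℤ × ℤ) :=
  [(847, 34), (855, 28), (860, 27), (870, 41), (848, 55), (843, 48)]

/-- round 2, 6 crossings, sides `aa` -/
def v2_6aa : List (ℤ × ℤ) :=
  [(892, 29), (904, 25), (914, 29), (926, 36), (904, 74), (899, 67), (891, 51)]

/-- round 2, 6 crossings, sides `az` -/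
def v2_6az : List (ℤ × ℤ) :=
  [(884, 47), (891, 40), (917, 49), (905, 73), (894, 75), (890, 71), (886, 62)]

/-- round 2, 6 crossings, sides `as` -/
def v2_6as : List (ℤ × ℤ) :=
  [(878, 40), (888, 37), (911, 50), (888, 92), (879, 87), (871, 74), (868, 49)]

/-- round 2, 6 crossings, sides `zz` -/
def v2_6zz : List (ℤ × ℤ) :=
  [(881, 63), (899, 66), (906, 71), (905, 72), (881, 79)]

/-- round 2, 6 crossings, sides `zs` -/
def v2_6zs : List (ℤ × ℤ) :=
  [(870, 60), (887, 65), (899, 73), (888, 90), (879, 94), (868, 97), (863, 75)]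

/-- round 2, 6 crossings, sides `ss` -/
def v2_6ss : List (ℤ × ℤ) :=
  [(847, 74), (855, 62), (863, 57), (891, 74), (865, 119), (851, 111), (843, 86)]

/-- round 2, 7 crossings, sides `ea` -/
def v2_7ea : List (ℤ × ℤ) :=
  [(905, 23), (906, 17), (909, 10), (915, 10), (922, 18), (907, 28)]

/-- round 2, 7 crossings, sides `ez` -/
def v2_7ez : List (ℤ × ℤ) :=
  [(901, 20), (906, 24), (908, 28), (899, 26), (898, 25)]

/-- round 2, 7 crossings, sides `es` -/
def v2_7es : List (ℤ × ℤ) :=
  [(889, 18), (896, 16), (897, 17), (903, 26), (887, 34), (885, 28)]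

/-- round 2, 7 crossings, sides `aa` -/
def v2_7aa : List (ℤ × ℤ) :=
  [(915, 34), (917, 19), (925, 16), (940, 25), (922, 51)]

/-- round 2, 7 crossings, sides `az` -/
def v2_7az : List (ℤ × ℤ) :=
  [(912, 29), (917, 27), (920, 28), (933, 34), (923, 49), (913, 50), (910, 36)]

/-- round 2, 7 crossings, sides `as` -/
def v2_7as : List (ℤ × ℤ) :=
  [(900, 35), (902, 28), (915, 23), (928, 35), (910, 61), (904, 56), (900, 47)]

/-- round 2, 7 crossings, sides `zz` -/
def v2_7zz : List (ℤ × ℤ) :=
  [(906, 47), (908, 41), (913, 42), (922, 45), (924, 49), (907, 51)]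

/-- round 2, 7 crossings, sides `zs` -/
def v2_7zs : List (ℤ × ℤ) :=
  [(895, 48), (897, 43), (902, 38), (909, 41), (919, 48), (911, 59), (896, 62)]

/-- round 2, 7 crossings, sides `ss` -/
def v2_7ss : List (ℤ × ℤ) :=
  [(886, 43), (891, 38), (896, 35), (914, 49), (891, 76), (883, 69), (881, 51)]

/-- ports of the round 3 -/
def p3_A2 : List (ℤ × ℤ) :=
  [(428, 243), (670, 84), (905, 0), (1000, 0), (822, 673), (715, 644), (480, 488), (426, 366)]

/-- ports of the round 3 -/
def p3_A1 : List (ℤ × ℤ) :=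
  [(428, 243), (623, 115), (754, 54), (907, 0), (1000, 0), (867, 502), (486, 501), (426, 366)]

/-- ports of the round 3 -/
def p3_Z : List (ℤ × ℤ) :=
  [(728, 133), (729, 116), (730, 110), (897, 0), (1000, 0), (859, 180), (814, 210), (810, 207)]

/-- ports of the round 3 -/
def p3_S3 : List (ℤ × ℤ) :=
  [(515, 286), (532, 225), (862, 159), (867, 499), (817, 671), (715, 644), (557, 487), (534, 412)]

/-- ports of the round 3 -/
def p3_S2 : List (ℤ × ℤ) :=
  [(509, 251), (694, 102), (883, 0), (1000, 0), (867, 499), (817, 671), (714, 644), (543, 473)]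

/-- ports of the round 3 -/
def p3_ST : List (ℤ × ℤ) :=
  [(515, 286), (529, 235), (694, 102), (883, 0), (1000, 0), (786, 528), (730, 523), (543, 339)]

/-- round 3, 2 crossings, sides `ea` -/
def v3_2ea : List (ℤ × ℤ) :=
  [(482, 220), (542, 221), (636, 283), (661, 310), (500, 501), (474, 475), (430, 375), (426, 249)]

/-- round 3, 2 crossings, sides `aa` -/
def v3_2aa : List (ℤ × ℤ) :=
  [(646, 218), (707, 194), (837, 204), (867, 503), (809, 498), (704, 448), (632, 356), (600, 269)]

/-- round 3, 2 crossings, sides `as` -/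
def v3_2as : List (ℤ × ℤ) :=
  [(569, 354), (653, 300), (841, 349), (867, 499), (817, 668), (714, 644), (568, 497), (537, 420)]

/-- round 3, 3 crossings, sides `ea` -/
def v3_3ea : List (ℤ × ℤ) :=
  [(623, 118), (650, 105), (678, 104), (743, 146), (661, 252), (646, 237), (625, 192), (621, 159)]

/-- round 3, 3 crossings, sides `es` -/
def v3_3es : List (ℤ × ℤ) :=
  [(535, 226), (593, 222), (648, 235), (662, 250), (565, 350), (545, 340), (517, 286), (525, 256)]

/-- round 3, 3 crossings, sides `aa` -/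
def v3_3aa : List (ℤ × ℤ) :=
  [(748, 124), (778, 114), (859, 129), (847, 296), (807, 283), (756, 241), (733, 199), (718, 151)]

/-- round 3, 3 crossings, sides `as` -/
def v3_3as : List (ℤ × ℤ) :=
  [(684, 213), (728, 188), (849, 185), (848, 289), (822, 393), (789, 389), (731, 354), (669, 274)]

/-- round 3, 3 crossings, sides `ss` -/
def v3_3ss : List (ℤ × ℤ) :=
  [(651, 346), (743, 303), (814, 284), (851, 290), (784, 527), (740, 521), (700, 488), (658, 448)]

/-- round 3, 4 crossings, sides `ea` -/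
def v3_4ea : List (ℤ × ℤ) :=
  [(754, 55), (768, 51), (780, 50), (815, 76), (764, 130), (757, 121), (748, 90)]

/-- round 3, 4 crossings, sides `ez` -/
def v3_4ez : List (ℤ × ℤ) :=
  [(731, 114), (733, 112), (757, 119), (766, 129), (732, 132), (731, 128)]

/-- round 3, 4 crossings, sides `es` -/
def v3_4es : List (ℤ × ℤ) :=
  [(693, 105), (702, 100), (742, 129), (699, 182), (685, 171), (675, 136), (681, 122)]

/-- round 3, 4 crossings, sides `aa` -/
def v3_4aa : List (ℤ × ℤ) :=
  [(820, 70), (839, 67), (885, 82), (861, 177), (841, 170), (814, 139), (806, 118), (800, 83)]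

/-- round 3, 4 crossings, sides `az` -/
def v3_4az : List (ℤ × ℤ) :=
  [(795, 129), (805, 117), (818, 111), (872, 116), (861, 177), (838, 193), (812, 170), (798, 142)]

/-- round 3, 4 crossings, sides `as` -/
def v3_4as : List (ℤ × ℤ) :=
  [(767, 129), (781, 114), (797, 107), (860, 123), (837, 236), (813, 228), (783, 203), (758, 150)]

/-- round 3, 4 crossings, sides `zz` -/
def v3_4zz : List (ℤ × ℤ) :=
  [(803, 178), (845, 169), (862, 176), (841, 191), (826, 201), (815, 205), (802, 182)]

/-- round 3, 4 crossings, sides `ss` -/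
def v3_4ss : List (ℤ × ℤ) :=
  [(734, 216), (740, 187), (805, 171), (842, 169), (862, 174), (804, 313), (776, 305), (731, 256)]

/-- round 3, 5 crossings, sides `ea` -/
def v3_5ea : List (ℤ × ℤ) :=
  [(831, 30), (838, 27), (849, 29), (865, 44), (833, 72), (829, 66), (826, 52)]

/-- round 3, 5 crossings, sides `ez` -/
def v3_5ez : List (ℤ × ℤ) :=
  [(813, 70), (815, 60), (817, 59), (831, 66), (834, 72), (821, 71)]

/-- round 3, 5 crossings, sides `es` -/
def v3_5es : List (ℤ × ℤ) :=
  [(780, 65), (793, 52), (801, 49), (820, 70), (790, 95), (787, 95), (781, 87)]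

/-- round 3, 5 crossings, sides `aa` -/
def v3_5aa : List (ℤ × ℤ) :=
  [(856, 48), (869, 41), (880, 41), (900, 50), (907, 55), (883, 112), (871, 103), (855, 76)]

/-- round 3, 5 crossings, sides `az` -/
def v3_5az : List (ℤ × ℤ) :=
  [(847, 76), (855, 69), (861, 66), (891, 73), (896, 75), (883, 112), (867, 118), (854, 101)]

/-- round 3, 5 crossings, sides `as` -/
def v3_5as : List (ℤ × ℤ) :=
  [(824, 82), (835, 67), (853, 61), (887, 79), (861, 147), (844, 135), (833, 120), (824, 91)]

/-- round 3, 5 crossings, sides `zz` -/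
def v3_5zz : List (ℤ × ℤ) :=
  [(847, 107), (849, 104), (873, 104), (885, 110), (852, 125)]

/-- round 3, 5 crossings, sides `zs` -/
def v3_5zs : List (ℤ × ℤ) :=
  [(828, 107), (833, 103), (846, 104), (874, 113), (863, 142), (842, 154), (834, 150), (821, 124)]

/-- round 3, 5 crossings, sides `ss` -/
def v3_5ss : List (ℤ × ℤ) :=
  [(796, 130), (805, 108), (814, 100), (862, 119), (835, 191), (813, 181), (794, 147)]

/-- round 3, 6 crossings, sides `ea` -/
def v3_6ea : List (ℤ × ℤ) :=
  [(874, 34), (876, 24), (878, 17), (887, 16), (899, 27), (877, 44)]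

/-- round 3, 6 crossings, sides `ez` -/
def v3_6ez : List (ℤ × ℤ) :=
  [(867, 35), (868, 34), (875, 38), (876, 39), (879, 44), (865, 41)]

/-- round 3, 6 crossings, sides `es` -/
def v3_6es : List (ℤ × ℤ) :=
  [(847, 34), (858, 27), (860, 27), (870, 41), (848, 55), (844, 49)]

/-- round 3, 6 crossings, sides `aa` -/
def v3_6aa : List (ℤ × ℤ) :=
  [(892, 30), (901, 26), (908, 26), (926, 36), (904, 74), (896, 62), (891, 49)]

/-- round 3, 6 crossings, sides `az` -/
def v3_6az : List (ℤ × ℤ) :=
  [(885, 47), (890, 43), (896, 42), (917, 49), (905, 73), (894, 75), (887, 63)]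

/-- round 3, 6 crossings, sides `as` -/
def v3_6as : List (ℤ × ℤ) :=
  [(870, 48), (879, 40), (888, 38), (911, 50), (887, 93), (873, 80), (869, 57)]

/-- round 3, 6 crossings, sides `zz` -/
def v3_6zz : List (ℤ × ℤ) :=
  [(882, 64), (902, 67), (906, 72), (886, 77), (883, 76)]

/-- round 3, 6 crossings, sides `zs` -/
def v3_6zs : List (ℤ × ℤ) :=
  [(872, 61), (884, 64), (899, 73), (888, 90), (874, 95), (869, 93), (864, 73)]

/-- round 3, 6 crossings, sides `ss` -/
def v3_6ss : List (ℤ × ℤ) :=
  [(844, 80), (856, 61), (863, 58), (891, 75), (864, 119), (852, 110), (846, 93)]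

/-- round 3, 7 crossings, sides `ea` -/
def v3_7ea : List (ℤ × ℤ) :=
  [(907, 12), (910, 10), (915, 11), (922, 18), (907, 28), (905, 24)]

/-- round 3, 7 crossings, sides `ez` -/
def v3_7ez : List (ℤ × ℤ) :=
  [(899, 25), (901, 21), (908, 26), (908, 28), (900, 26)]

/-- round 3, 7 crossings, sides `es` -/
def v3_7es : List (ℤ × ℤ) :=
  [(885, 30), (888, 20), (896, 16), (903, 26), (893, 31), (887, 33)]

/-- round 3, 7 crossings, sides `aa` -/
def v3_7aa : List (ℤ × ℤ) :=
  [(917, 19), (925, 17), (928, 18), (940, 25), (923, 49), (920, 46), (915, 34)]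

/-- round 3, 7 crossings, sides `az` -/
def v3_7az : List (ℤ × ℤ) :=
  [(911, 30), (917, 27), (927, 31), (932, 35), (923, 49), (916, 50), (912, 44)]

/-- round 3, 7 crossings, sides `as` -/
def v3_7as : List (ℤ × ℤ) :=
  [(901, 31), (907, 25), (916, 25), (928, 35), (909, 62), (903, 54), (899, 42)]

/-- round 3, 7 crossings, sides `zz` -/
def v3_7zz : List (ℤ × ℤ) :=
  [(908, 41), (919, 44), (926, 48), (908, 51)]

/-- round 3, 7 crossings, sides `zs` -/
def v3_7zs : List (ℤ × ℤ) :=
  [(896, 47), (898, 42), (903, 39), (911, 42), (919, 49), (910, 59), (897, 62)]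

/-- round 3, 7 crossings, sides `ss` -/
def v3_7ss : List (ℤ × ℤ) :=
  [(882, 49), (889, 40), (896, 35), (913, 49), (891, 77), (883, 68)]

namespace SC

/-- scaled ports -/
def n1_A2 : List (ℕ × ℕ) :=
  [(6720, 3952), (7760, 3200), (12560, 0), (16000, 0), (13296, 10816), (11728, 10800), (7952, 8128),
      (6720, 7104)]

lemma rg1_A2 {k : ℂ} (h : k ∈ Poly p1_A2) : 16000 * k ∈ Rg n1_A2 := rg_of_poly (by decide) h

/-- scaled ports -/
def n1_A1 : List (ℕ × ℕ) :=
  [(6720, 3952), (7760, 3200), (10384, 1456), (12800, 0), (16000, 0), (13968, 8128), (7952, 8128),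
      (6720, 7104)]

lemma rg1_A1 {k : ℂ} (h : k ∈ Poly p1_A1) : 16000 * k ∈ Rg n1_A1 := rg_of_poly (by decide) h

/-- scaled ports -/
def n1_Z : List (ℕ × ℕ) :=
  [(10560, 1840), (12800, 0), (16000, 0), (14400, 4000), (13280, 5280), (12320, 5280), (10560,
      3680)]

lemma rg1_Z {k : ℂ} (h : k ∈ Poly p1_Z) : 16000 * k ∈ Rg n1_Z := rg_of_poly (by decide) h

/-- scaled ports -/
def n1_S3 : List (ℕ × ℕ) :=
  [(8016, 3840), (12112, 608), (14880, 608), (13984, 8064), (13296, 10800), (11728, 10800), (8448,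
      8048), (8016, 5024)]

lemma rg1_S3 {k : ℂ} (h : k ∈ Poly p1_S3) : 16000 * k ∈ Rg n1_S3 := rg_of_poly (by decide) h

/-- scaled ports -/
def n1_S2 : List (ℕ × ℕ) :=
  [(8016, 3840), (12800, 0), (16000, 0), (13984, 8064), (13296, 10800), (11728, 10800), (8448,
      8048), (8016, 5024)]

lemma rg1_S2 {k : ℂ} (h : k ∈ Poly p1_S2) : 16000 * k ∈ Rg n1_S2 := rg_of_poly (by decide) h

/-- scaled ports -/
def n1_ST : List (ℕ × ℕ) :=
  [(8016, 3840), (12800, 0), (16000, 0), (12624, 8624), (11728, 8624), (10192, 7280), (8016, 5024)]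

lemma rg1_ST {k : ℂ} (h : k ∈ Poly p1_ST) : 16000 * k ∈ Rg n1_ST := rg_of_poly (by decide) h

/-- scaled ports -/
def n2_A2 : List (ℕ × ℕ) :=
  [(6752, 3952), (10704, 1360), (14512, 0), (16000, 0), (13136, 10800), (11312, 10368), (8000,
      8016), (6912, 6928)]

lemma rg2_A2 {k : ℂ} (h : k ∈ Poly p2_A2) : 16000 * k ∈ Rg n2_A2 := rg_of_poly (by decide) h

/-- scaled ports -/
def n2_A1 : List (ℕ × ℕ) :=
  [(6752, 3952), (9952, 1856), (12048, 880), (14512, 0), (16000, 0), (13872, 8016), (8000, 8016),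
      (6912, 6928)]

lemma rg2_A1 {k : ℂ} (h : k ∈ Poly p2_A1) : 16000 * k ∈ Rg n2_A1 := rg_of_poly (by decide) h

/-- scaled ports -/
def n2_Z : List (ℕ × ℕ) :=
  [(11424, 1872), (11616, 1680), (14352, 0), (16000, 0), (13296, 3472), (13008, 3696), (12768,
      3648), (11456, 2208)]

lemma rg2_Z {k : ℂ} (h : k ∈ Poly p2_Z) : 16000 * k ∈ Rg n2_Z := rg_of_poly (by decide) h

/-- scaled ports -/
def n2_S3 : List (ℕ × ℕ) :=
  [(8160, 4672), (8448, 3568), (13792, 2480), (13872, 7984), (13088, 10752), (11312, 10368), (8928,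
      7888), (8464, 6576)]

lemma rg2_S3 {k : ℂ} (h : k ∈ Poly p2_S3) : 16000 * k ∈ Rg n2_S3 := rg_of_poly (by decide) h

/-- scaled ports -/
def n2_S2 : List (ℕ × ℕ) :=
  [(8160, 4672), (8416, 3648), (11136, 1568), (14128, 0), (16000, 0), (13136, 10768), (11312,
      10368), (8624, 7584)]

lemma rg2_S2 {k : ℂ} (h : k ∈ Poly p2_S2) : 16000 * k ∈ Rg n2_S2 := rg_of_poly (by decide) h

/-- scaled ports -/
def n2_ST : List (ℕ × ℕ) :=
  [(8432, 3648), (11136, 1568), (14128, 0), (16000, 0), (12640, 8448), (11920, 8544), (10432, 7424),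
      (8096, 4800)]

lemma rg2_ST {k : ℂ} (h : k ∈ Poly p2_ST) : 16000 * k ∈ Rg n2_ST := rg_of_poly (by decide) h

/-- scaled ports -/
def n3_A2 : List (ℕ × ℕ) :=
  [(6848, 3888), (10720, 1344), (14480, 0), (16000, 0), (13152, 10768), (11440, 10304), (7680,
      7808), (6816, 5856)]

lemma rg3_A2 {k : ℂ} (h : k ∈ Poly p3_A2) : 16000 * k ∈ Rg n3_A2 := rg_of_poly (by decide) h

/-- scaled ports -/
def n3_A1 : List (ℕ × ℕ) :=
  [(6848, 3888), (9968, 1840), (12064, 864), (14512, 0), (16000, 0), (13872, 8032), (7776, 8016),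
      (6816, 5856)]

lemma rg3_A1 {k : ℂ} (h : k ∈ Poly p3_A1) : 16000 * k ∈ Rg n3_A1 := rg_of_poly (by decide) h

/-- scaled ports -/
def n3_Z : List (ℕ × ℕ) :=
  [(11648, 2128), (11664, 1856), (11680, 1760), (14352, 0), (16000, 0), (13744, 2880), (13024,
      3360), (12960, 3312)]

lemma rg3_Z {k : ℂ} (h : k ∈ Poly p3_Z) : 16000 * k ∈ Rg n3_Z := rg_of_poly (by decide) h

/-- scaled ports -/
def n3_S3 : List (ℕ × ℕ) :=
  [(8240, 4576), (8512, 3600), (13792, 2544), (13872, 7984), (13072, 10736), (11440, 10304), (8912,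
      7792), (8544, 6592)]

lemma rg3_S3 {k : ℂ} (h : k ∈ Poly p3_S3) : 16000 * k ∈ Rg n3_S3 := rg_of_poly (by decide) h

/-- scaled ports -/
def n3_S2 : List (ℕ × ℕ) :=
  [(8144, 4016), (11104, 1632), (14128, 0), (16000, 0), (13872, 7984), (13072, 10736), (11424,
      10304), (8688, 7568)]

lemma rg3_S2 {k : ℂ} (h : k ∈ Poly p3_S2) : 16000 * k ∈ Rg n3_S2 := rg_of_poly (by decide) h

/-- scaled ports -/
def n3_ST : List (ℕ × ℕ) :=
  [(8240, 4576), (8464, 3760), (11104, 1632), (14128, 0), (16000, 0), (12576, 8448), (11680, 8368),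
      (8688, 5424)]

lemma rg3_ST {k : ℂ} (h : k ∈ Poly p3_ST) : 16000 * k ∈ Rg n3_ST := rg_of_poly (by decide) h

end SC

end Pool.Agent.Work.MP_b30479_gt.G2
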