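import Mathlib

/-!
# Decoupled rings

For `1 ≤ m ≤ 2`, `b > 2` (in the application `m = 1` for an end ring, `m = 2` for an interior ring)
the equations `b w = π + i m P`, `sinh P = -tan w`, `cosh P cos w = 1` have a solution with
`0 < Re w < π / b`, `Im w < 0`, `Re P < 0`, `0 < Im P < π / 2`; for `b ≥ 3` the number
`c = cos² w` satisfies `1 / 4 < |c| < 1`, `0 < Re c`, `0 < Im c`.
-/

namespace Pool.Agent.Work.MP_b30479_gt.G2

open Complex

theorem tanh_lt {x y : ℝ} (h : x < y) : Real.tanh x < Real.tanh y := by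
  rw [Real.tanh_eq_sinh_div_cosh, Real.tanh_eq_sinh_div_cosh,
    div_lt_div_iff₀ (Real.cosh_pos _) (Real.cosh_pos _)]
  have h1 : 0 < Real.sinh (y - x) := Real.sinh_pos_iff.2 (by linarith only [h])
  rw [Real.sinh_sub] at h1
  linarith only [h1]

/-- the two real equations -/
theorem start_real {b m : ℝ} (hm : 0 < m) (hm2 : m ≤ 2) (hb : 2 < b) :
    ∃ α η : ℝ, 0 < α ∧ α < Real.pi / b ∧ 0 < η ∧ Real.sinh η < Real.sin α ∧
      0 < (Real.pi - b * α) / m ∧ (Real.pi - b * α) / m < Real.pi / 2 ∧
      Real.sin α / Real.cosh η = Real.tanh (b * η / m) ∧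
      Real.sinh η = Real.cos α * Real.tan ((Real.pi - b * α) / m) := by
  have hpi := Real.pi_pos
  have hb0 : 0 < b := by linarith only [hb]
  have hmb : m < b := by linarith only [hm2, hb]
  -- parameter `y`, `α = (π - m y) / b`
  set A : ℝ → ℝ := fun y => (Real.pi - m * y) / b with hA
  set S : ℝ → ℝ := fun y => Real.cos (A y) * Real.tan y with hS
  set E : ℝ → ℝ := fun y => Real.arsinh (S y) with hE
  set f : ℝ → ℝ := fun y => Real.sin (A y) / Real.cosh (E y) - Real.tanh (b * E y / m) with hf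
  have hcb : 0 < Real.cos (Real.pi / b) := by
    apply Real.cos_pos_of_mem_Ioo
    constructor
    · have : 0 < Real.pi / b := by positivity
      linarith only [hpi, this]
    · rw [div_lt_div_iff₀ hb0 two_pos]
      nlinarith only [hb, hpi]
  set y₁ : ℝ := Real.arctan (1 / Real.cos (Real.pi / b)) with hy₁
  have hy0 : 0 < y₁ := Real.arctan_pos.2 (by positivity)
  have hy2 : y₁ < Real.pi / 2 := Real.arctan_lt_pi_div_two _
  have hAle : ∀ y, 0 ≤ y → A y ≤ Real.pi / b := by
    intro y hy
    simp only [hA]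
    apply div_le_div_of_nonneg_right _ hb0.le
    have := mul_nonneg hm.le hy
    linarith only [this]
  have hA0 : ∀ y, y < Real.pi / 2 → 0 < A y := by
    intro y hy
    simp only [hA]
    apply div_pos _ hb0
    have := mul_lt_mul_of_pos_left hy hm
    nlinarith only [this, hm2, hpi]
  have hpb : Real.pi / b < Real.pi / 2 := by
    rw [div_lt_div_iff₀ hb0 two_pos]
    nlinarith only [hb, hpi]
  have hcos : ∀ y, 0 ≤ y → y < Real.pi / 2 → Real.cos (Real.pi / b) ≤ Real.cos (A y) := by
    intro y h1 h2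
    apply Real.cos_le_cos_of_nonneg_of_le_pi (hA0 y h2).le (by linarith only [hy0, hy2, hpb]) (hAle y h1)
  -- key: `sinh η ≥ sin α` gives `f < 0`
  have hkey : ∀ y, 0 < y → y < Real.pi / 2 → Real.sin (A y) ≤ S y → f y < 0 := by
    intro y h1 h2 h3
    have hsp : 0 < Real.sin (A y) :=
      Real.sin_pos_of_pos_of_lt_pi (hA0 y h2) (by linarith only [hy0, hy2, hpb, hAle, h1, hAle y h1.le])
    have hSp : 0 < S y := hsp.trans_le h3
    have hEp : 0 < E y := Real.arsinh_pos_iff.2 hSp
    have e1 : Real.sinh (E y) = S y := Real.sinh_arsinh _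
    have h4 : Real.tanh (E y) < Real.tanh (b * E y / m) := by
      apply tanh_lt
      rw [lt_div_iff₀ hm]
      nlinarith only [hm2, hEp, hb]
    have h5 : Real.sin (A y) / Real.cosh (E y) ≤ Real.tanh (E y) := by
      rw [Real.tanh_eq_sinh_div_cosh, e1]
      exact div_le_div_of_nonneg_right h3 (Real.cosh_pos _).le
    simp only [hf]
    linarith only [h4, h5]
  have hf1 : f y₁ < 0 := by
    apply hkey y₁ hy0 hy2
    have e : S y₁ = Real.cos (A y₁) * (1 / Real.cos (Real.pi / b)) := by
      simp only [hS]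
      rw [hy₁, Real.tan_arctan]
    have h1 : 1 ≤ S y₁ := by
      rw [e, mul_one_div, le_div_iff₀ hcb, one_mul]
      exact hcos y₁ hy0.le hy2
    exact (Real.sin_le_one _).trans h1
  have hf0 : 0 < f 0 := by
    have e1 : S 0 = 0 := by simp only [hS]; rw [Real.tan_zero, mul_zero]
    have e2 : E 0 = 0 := by simp only [hE]; rw [e1, Real.arsinh_zero]
    have e3 : A 0 = Real.pi / b := by simp only [hA]; rw [mul_zero, sub_zero]
    simp only [hf]
    rw [e2, e3, Real.cosh_zero, mul_zero, zero_div, Real.tanh_zero, sub_zero, div_one]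
    exact Real.sin_pos_of_pos_of_lt_pi (by positivity) (by linarith only [hy0, hy2, hpb])
  have hcont : ContinuousOn f (Set.Icc 0 y₁) := by
    have hAc : Continuous A := by simp only [hA]; fun_prop
    have hSc : ContinuousOn S (Set.Icc 0 y₁) := by
      simp only [hS]
      refine (Real.continuous_cos.comp hAc).continuousOn.mul ?_
      intro y hy
      apply (Real.continuousAt_tan.2 _).continuousWithinAt
      exact (Real.cos_pos_of_mem_Ioo ⟨by linarith only [hy0, hy2, hy, hy.1], by linarith only [hy2, hy, hy.2]⟩).ne'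
    have hEc : ContinuousOn E (Set.Icc 0 y₁) := Real.continuous_arsinh.comp_continuousOn hSc
    simp only [hf]
    refine ContinuousOn.sub (ContinuousOn.div ?_ ?_ ?_) ?_
    · exact (Real.continuous_sin.comp hAc).continuousOn
    · exact Real.continuous_cosh.comp_continuousOn hEc
    · intro y _
      exact (Real.cosh_pos _).ne'
    · have hT : Continuous Real.tanh := by
        have e : Real.tanh = fun x => Real.sinh x / Real.cosh x :=
          funext fun x => Real.tanh_eq_sinh_div_cosh x
        rw [e]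
        exact Real.continuous_sinh.div Real.continuous_cosh fun x => (Real.cosh_pos x).ne'
      exact hT.comp_continuousOn ((hEc.const_mul b |>.congr fun _ _ => rfl).div_const m)
  obtain ⟨y, hy, hfy⟩ := intermediate_value_Icc' hy0.le hcont ⟨hf1.le, hf0.le⟩
  have hyp : 0 < y := by
    rcases eq_or_lt_of_le hy.1 with h | h
    · rw [← h] at hfy
      linarith only [hf0, hfy]
    · exact h
  have hyl : y < Real.pi / 2 := hy.2.trans_lt hy2
  have hyy : (Real.pi - b * A y) / m = y := by
    simp only [hA]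
    field_simp
    ring
  have hEp : 0 < E y := by
    apply Real.arsinh_pos_iff.2
    simp only [hS]
    exact mul_pos (hcb.trans_le (hcos y hyp.le hyl)) (Real.tan_pos_of_pos_of_lt_pi_div_two hyp hyl)
  refine ⟨A y, E y, hA0 y hyl, ?_, hEp, ?_, by rw [hyy]; exact hyp, by rw [hyy]; exact hyl, ?_, ?_⟩
  · simp only [hA]
    apply div_lt_div_of_pos_right _ hb0
    have := mul_pos hm hyp
    linarith only [this]
  · by_contra h
    push Not at h
    rw [Real.sinh_arsinh] at h
    have := hkey y hyp hyl h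
    linarith only [hfy, this]
  · simp only [hf] at hfy
    linarith only [hfy]
  · rw [hyy]
    exact Real.sinh_arsinh _

/-- **The decoupled ring**: existence and location. -/
theorem start_ring {b m : ℝ} (hm : 0 < m) (hm2 : m ≤ 2) (hb : 2 < b) :
    ∃ w P : ℂ, 0 < w.re ∧ w.re < Real.pi / b ∧ w.im < 0 ∧ P.re < 0 ∧ 0 < P.im ∧
      P.im < Real.pi / 2 ∧ (b : ℂ) * w = Real.pi + I * m * P ∧
      Complex.sinh P * Complex.cos w = -Complex.sin w ∧ Complex.cosh P * Complex.cos w = 1 ∧
      Real.sinh (-w.im) < Real.sin w.re ∧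
      Real.sinh (-w.im) = Real.cos w.re * Real.tan P.im := by
  obtain ⟨α, η, hα, hαb, hη, hse, hy0, hy1, h1, h2⟩ := start_real hm hm2 hb
  have hpi := Real.pi_pos
  have hb0 : 0 < b := by linarith only [hb]
  have hpb : Real.pi / b < Real.pi / 2 := by
    rw [div_lt_div_iff₀ hb0 two_pos]
    nlinarith only [hb, hy0, hy1]
  set y : ℝ := (Real.pi - b * α) / m with hy
  set A : ℝ := b * η / m with hA
  have hA0 : 0 < A := by positivity
  have hcα : 0 < Real.cos α := Real.cos_pos_of_mem_Ioo ⟨by linarith only [hα, hαb, hpb], by linarith only [hαb, hpb]⟩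
  have hsα : 0 < Real.sin α := Real.sin_pos_of_pos_of_lt_pi hα (by linarith only [hα, hαb, hpb])
  have hcη := Real.cosh_pos η
  have hcA := Real.cosh_pos A
  have hcy : 0 < Real.cos y := Real.cos_pos_of_mem_Ioo ⟨by linarith only [hα, hαb, hpb, hy0], by linarith only [hy1]⟩
  have hsη : 0 < Real.sinh η := Real.sinh_pos_iff.2 hη
  have q1 : Real.sinh A * Real.cosh η = Real.sin α * Real.cosh A := by
    rw [Real.tanh_eq_sinh_div_cosh] at h1
    rw [div_eq_div_iff hcη.ne' hcA.ne'] at h1
    linarith only [h1]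
  have q2 : Real.sinh η * Real.cos y = Real.cos α * Real.sin y := by
    rw [Real.tan_eq_sin_div_cos] at h2
    rw [h2]
    field_simp
  have t1 := Real.cos_sq_add_sin_sq α
  have t2 := Real.cosh_sq η
  have t3 := Real.cosh_sq A
  have t4 := Real.cos_sq_add_sin_sq y
  set ρ : ℝ := √(Real.cos α ^ 2 + Real.sinh η ^ 2) with hρ
  have hρ0 : 0 < ρ := Real.sqrt_pos.2 (by positivity)
  have hρ2 : ρ ^ 2 = Real.cos α ^ 2 + Real.sinh η ^ 2 := Real.sq_sqrt (by positivity)
  have r1 : Real.cosh A * ρ = Real.cosh η := by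
    have h : (Real.cosh A * ρ) ^ 2 = Real.cosh η ^ 2 := by
      have e : Real.cosh η ^ 2 * Real.cosh A ^ 2 = Real.cosh η ^ 2 + (Real.sin α * Real.cosh A) ^ 2 := by
        rw [← q1]
        linear_combination (Real.cosh η ^ 2) * t3
      rw [mul_pow, hρ2]
      linear_combination e + (Real.cosh A ^ 2) * t1 - (Real.cosh A ^ 2) * t2
    have h3 : 0 ≤ Real.cosh A * ρ := by positivity
    calc Real.cosh A * ρ = √((Real.cosh A * ρ) ^ 2) := (Real.sqrt_sq h3).symm
      _ = √(Real.cosh η ^ 2) := by rw [h]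
      _ = _ := Real.sqrt_sq hcη.le
  have r2 : Real.sinh A * ρ = Real.sin α := by
    have : Real.sinh A * ρ * Real.cosh η = Real.sin α * Real.cosh η := by
      linear_combination ρ * q1 + (Real.sin α) * r1
    exact mul_right_cancel₀ hcη.ne' this
  have r3 : Real.cos y * ρ = Real.cos α := by
    have h : (Real.cos y * ρ) ^ 2 = Real.cos α ^ 2 := by
      have e : Real.cos y ^ 2 * Real.sinh η ^ 2 = Real.cos α ^ 2 * Real.sin y ^ 2 := by
        linear_combination (Real.sinh η * Real.cos y + Real.cos α * Real.sin y) * q2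
      rw [mul_pow, hρ2]
      linear_combination e + (Real.cos α ^ 2) * t4
    have h3 : 0 ≤ Real.cos y * ρ := by positivity
    calc Real.cos y * ρ = √((Real.cos y * ρ) ^ 2) := (Real.sqrt_sq h3).symm
      _ = √(Real.cos α ^ 2) := by rw [h]
      _ = _ := Real.sqrt_sq hcα.le
  have r4 : Real.sin y * ρ = Real.sinh η := by
    have : Real.sin y * ρ * Real.cos α = Real.sinh η * Real.cos α := by
      linear_combination (-ρ) * q2 + (Real.sinh η) * r3
    exact mul_right_cancel₀ hcα.ne' this
  set w : ℂ := (α : ℂ) - (η : ℂ) * I with hw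
  set P : ℂ := -(A : ℂ) + (y : ℂ) * I with hP
  have hwre : w.re = α := by rw [hw]; simp
  have hwim : w.im = -η := by rw [hw]; simp
  have hPre : P.re = -A := by rw [hP]; simp
  have hPim : P.im = y := by rw [hP]; simp
  have hcw : Complex.cos w = (Real.cos α * Real.cosh η : ℝ) + (Real.sin α * Real.sinh η : ℝ) * I := by
    rw [hw, Complex.cos_sub, Complex.cos_mul_I, Complex.sin_mul_I]
    push_cast
    ring
  have hsw : Complex.sin w = (Real.sin α * Real.cosh η : ℝ) - (Real.cos α * Real.sinh η : ℝ) * I := by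
    rw [hw, Complex.sin_sub, Complex.cos_mul_I, Complex.sin_mul_I]
    push_cast
    ring
  have hcP : Complex.cosh P = (Real.cosh A * Real.cos y : ℝ) - (Real.sinh A * Real.sin y : ℝ) * I := by
    rw [hP, Complex.cosh_add, Complex.cosh_mul_I, Complex.sinh_mul_I, Complex.cosh_neg,
      Complex.sinh_neg]
    push_cast
    ring
  have hsP : Complex.sinh P = -(Real.sinh A * Real.cos y : ℝ) + (Real.cosh A * Real.sin y : ℝ) * I := by
    rw [hP, Complex.sinh_add, Complex.cosh_mul_I, Complex.sinh_mul_I, Complex.cosh_neg,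
      Complex.sinh_neg]
    push_cast
    ring
  have hρc : (ρ : ℂ) ≠ 0 := by exact_mod_cast hρ0.ne'
  -- the two products, multiplied by `ρ²`
  have k1 : (Real.cosh A * Real.cos y) * ρ ^ 2 = Real.cosh η * Real.cos α := by
    linear_combination (Real.cos y * ρ) * r1 + (Real.cosh η) * r3
  have k2 : (Real.sinh A * Real.sin y) * ρ ^ 2 = Real.sin α * Real.sinh η := by
    linear_combination (Real.sin y * ρ) * r2 + (Real.sin α) * r4
  have k3 : (Real.sinh A * Real.cos y) * ρ ^ 2 = Real.sin α * Real.cos α := by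
    linear_combination (Real.cos y * ρ) * r2 + (Real.sin α) * r3
  have k4 : (Real.cosh A * Real.sin y) * ρ ^ 2 = Real.cosh η * Real.sinh η := by
    linear_combination (Real.sin y * ρ) * r1 + (Real.cosh η) * r4
  have hcc : Complex.cosh P * Complex.cos w = 1 := by
    have e : ((ρ : ℂ) ^ 2) * (Complex.cosh P * Complex.cos w) = (ρ : ℂ) ^ 2 := by
      rw [hcP, hcw]
      have k1' : ((Real.cosh A : ℂ) * Real.cos y) * ρ ^ 2 = Real.cosh η * Real.cos α := by
        exact_mod_cast congrArg (fun x : ℝ => (x : ℂ)) k1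
      have k2' : ((Real.sinh A : ℂ) * Real.sin y) * ρ ^ 2 = Real.sin α * Real.sinh η := by
        exact_mod_cast congrArg (fun x : ℝ => (x : ℂ)) k2
      have hρ2' : (ρ : ℂ) ^ 2 = (Real.cos α : ℂ) ^ 2 + (Real.sinh η : ℂ) ^ 2 := by
        exact_mod_cast congrArg (fun x : ℝ => (x : ℂ)) hρ2
      have t1' : (Real.cos α : ℂ) ^ 2 + (Real.sin α : ℂ) ^ 2 = 1 := by
        exact_mod_cast congrArg (fun x : ℝ => (x : ℂ)) t1
      have t2' : (Real.cosh η : ℂ) ^ 2 = (Real.sinh η : ℂ) ^ 2 + 1 := by
        exact_mod_cast congrArg (fun x : ℝ => (x : ℂ)) t2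
      rw [hρ2'] at k1' k2' ⊢
      simp only [Complex.ofReal_mul]
      linear_combination ((Real.cos α : ℂ) * Real.cosh η + (Real.sin α : ℂ) * Real.sinh η * I) * k1' -
        I * ((Real.cos α : ℂ) * Real.cosh η + (Real.sin α : ℂ) * Real.sinh η * I) * k2' -
        ((Real.sin α : ℂ) ^ 2 * (Real.sinh η : ℂ) ^ 2) * I_sq + (Real.cos α : ℂ) ^ 2 * t2' +
        (Real.sinh η : ℂ) ^ 2 * t1'
    have hρ2c : (ρ : ℂ) ^ 2 ≠ 0 := pow_ne_zero 2 hρc
    exact mul_left_cancel₀ hρ2c (by rw [e, mul_one])
  have hsc : Complex.sinh P * Complex.cos w = -Complex.sin w := by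
    have e : ((ρ : ℂ) ^ 2) * (Complex.sinh P * Complex.cos w) = (ρ : ℂ) ^ 2 * (-Complex.sin w) := by
      rw [hsP, hcw, hsw]
      have k3' : ((Real.sinh A : ℂ) * Real.cos y) * ρ ^ 2 = Real.sin α * Real.cos α := by
        exact_mod_cast congrArg (fun x : ℝ => (x : ℂ)) k3
      have k4' : ((Real.cosh A : ℂ) * Real.sin y) * ρ ^ 2 = Real.cosh η * Real.sinh η := by
        exact_mod_cast congrArg (fun x : ℝ => (x : ℂ)) k4
      have hρ2' : (ρ : ℂ) ^ 2 = (Real.cos α : ℂ) ^ 2 + (Real.sinh η : ℂ) ^ 2 := by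
        exact_mod_cast congrArg (fun x : ℝ => (x : ℂ)) hρ2
      have t1' : (Real.cos α : ℂ) ^ 2 + (Real.sin α : ℂ) ^ 2 = 1 := by
        exact_mod_cast congrArg (fun x : ℝ => (x : ℂ)) t1
      have t2' : (Real.cosh η : ℂ) ^ 2 = (Real.sinh η : ℂ) ^ 2 + 1 := by
        exact_mod_cast congrArg (fun x : ℝ => (x : ℂ)) t2
      rw [hρ2'] at k3' k4' ⊢
      simp only [Complex.ofReal_mul]
      linear_combination (-((Real.cos α : ℂ) * Real.cosh η + (Real.sin α : ℂ) * Real.sinh η * I)) * k3' +
        I * ((Real.cos α : ℂ) * Real.cosh η + (Real.sin α : ℂ) * Real.sinh η * I) * k4' +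
        ((Real.cosh η : ℂ) * (Real.sinh η : ℂ) ^ 2 * (Real.sin α : ℂ)) * I_sq +
        ((Real.cos α : ℂ) * (Real.sinh η : ℂ) * I) * t2' - ((Real.cos α : ℂ) * (Real.sinh η : ℂ) * I) * t1'
    have hρ2c : (ρ : ℂ) ^ 2 ≠ 0 := pow_ne_zero 2 hρc
    exact mul_left_cancel₀ hρ2c e
  refine ⟨w, P, by rw [hwre]; exact hα, by rw [hwre]; exact hαb, by rw [hwim]; linarith only [hη],
    by rw [hPre]; linarith only [hA0], by rw [hPim]; exact hy0, by rw [hPim]; exact hy1, ?_, hsc, hcc,
    by rw [hwre, hwim, neg_neg]; exact hse, by rw [hwre, hwim, hPim, neg_neg]; exact h2⟩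
  have hmc : (m : ℂ) ≠ 0 := by exact_mod_cast hm.ne'
  rw [hw, hP, hA, hy]
  push_cast
  field_simp
  linear_combination ((b : ℂ) * α - Real.pi) * I_sq

/-- the location for `b ≥ 3`, `m ≥ 1` -/
theorem start_domain {b m : ℝ} (hm : 1 ≤ m) (hb : 3 ≤ b) {w P : ℂ} (h0 : 0 < w.re)
    (h1 : w.re < Real.pi / b) (h2 : w.im < 0) (h3 : 0 < P.im)
    (h5 : (b : ℂ) * w = Real.pi + I * m * P)
    (h6 : Real.sinh (-w.im) < Real.sin w.re)
    (h7 : Real.sinh (-w.im) = Real.cos w.re * Real.tan P.im) :
    1 / 4 < ‖Complex.cos w ^ 2‖ ∧ ‖Complex.cos w ^ 2‖ < 1 ∧ 0 < (Complex.cos w ^ 2).re ∧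
      0 < (Complex.cos w ^ 2).im := by
  have hpi := Real.pi_pos
  have hb0 : 0 < b := by linarith only [hb]
  have hm0 : 0 < m := by linarith only [hm]
  set α := w.re with hα
  set η := -w.im with hη
  have hη0 : 0 < η := by rw [hη]; linarith only [h2]
  have hαb : α < Real.pi / 3 := h1.trans_le (div_le_div_of_nonneg_left hpi.le (by norm_num) hb)
  have hw : w = (α : ℂ) - (η : ℂ) * I := by
    apply Complex.ext
    · simp [hα]
    · simp [hη]
  have hcα : 1 / 2 < Real.cos α := by
    have := Real.cos_lt_cos_of_nonneg_of_le_pi h0.le (by linarith only [h0, hαb] : Real.pi / 3 ≤ Real.pi) hαb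
    rwa [Real.cos_pi_div_three] at this
  have hsα : 0 < Real.sin α := Real.sin_pos_of_pos_of_lt_pi h0 (by linarith only [h0, hαb])
  have hsη : 0 < Real.sinh η := Real.sinh_pos_iff.2 hη0
  have hcη := Real.cosh_pos η
  have hc1 : 1 ≤ Real.cosh η := Real.one_le_cosh η
  have t1 := Real.cos_sq_add_sin_sq α
  have t2 := Real.cosh_sq η
  have hcw : Complex.cos w = ((Real.cos α * Real.cosh η : ℝ) : ℂ) +
      ((Real.sin α * Real.sinh η : ℝ) : ℂ) * I := by
    rw [hw, Complex.cos_sub, Complex.cos_mul_I, Complex.sin_mul_I]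
    push_cast
    ring
  have hre : (Complex.cos w).re = Real.cos α * Real.cosh η := by
    rw [hcw, add_re, ofReal_re, re_ofReal_mul, I_re, mul_zero, add_zero]
  have him : (Complex.cos w).im = Real.sin α * Real.sinh η := by
    rw [hcw, add_im, ofReal_im, im_ofReal_mul, I_im, mul_one, zero_add]
  have hn : ‖Complex.cos w ^ 2‖ = Real.cos α ^ 2 + Real.sinh η ^ 2 := by
    rw [norm_pow, ← Complex.normSq_eq_norm_sq, Complex.normSq_apply, hre, him]
    linear_combination (Real.cos α ^ 2) * t2 + (Real.sinh η ^ 2) * t1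
  -- real part
  have hy : b * α = Real.pi - m * P.im := by
    have := congrArg Complex.re h5
    rw [Complex.re_ofReal_mul, add_re, ofReal_re, mul_assoc, I_mul_re, Complex.im_ofReal_mul] at this
    linarith only [this]
  have hlt : Real.sin α * Real.sinh η < Real.cos α * Real.cosh η := by
    rcases le_or_gt α (Real.pi / 4) with h | h
    · have hsc : Real.sin α ≤ Real.cos α := by
        rw [← Real.cos_pi_div_two_sub]
        apply Real.cos_le_cos_of_nonneg_of_le_pi h0.le (by linarith only [h0, hαb]) (by linarith only [h])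
      have h8 : Real.sinh η < Real.cosh η := Real.sinh_lt_cosh η
      calc Real.sin α * Real.sinh η ≤ Real.cos α * Real.sinh η :=
            mul_le_mul_of_nonneg_right hsc hsη.le
        _ < Real.cos α * Real.cosh η := mul_lt_mul_of_pos_left h8 (by linarith only [h6, hsη, hsc])
    · have hP : P.im < Real.pi / 4 := by
        have h9 : m * P.im < Real.pi / 4 := by nlinarith only [hy, h, hb, h0]
        nlinarith only [h9, hm, h3]
      have htan : Real.tan P.im < 1 := by
        rw [← Real.tan_pi_div_four]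
        exact Real.tan_lt_tan_of_lt_of_lt_pi_div_two (by linarith only [h3, hαb, h]) (by linarith only [hαb, h]) hP
      have h8 : Real.sinh η < Real.cos α := by
        rw [h7]
        exact mul_lt_of_lt_one_right (by linarith only [hcα]) htan
      calc Real.sin α * Real.sinh η ≤ 1 * Real.sinh η :=
            mul_le_mul_of_nonneg_right (Real.sin_le_one α) hsη.le
        _ < Real.cos α := by rw [one_mul]; exact h8
        _ ≤ Real.cos α * Real.cosh η := le_mul_of_one_le_right (by linarith only [hsη, h8]) hc1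
  refine ⟨?_, ?_, ?_, ?_⟩
  · rw [hn]
    have : (1 / 2 : ℝ) ^ 2 < Real.cos α ^ 2 := pow_lt_pow_left₀ hcα (by norm_num) two_ne_zero
    have := sq_nonneg (Real.sinh η)
    norm_num at *
    linarith
  · rw [hn]
    have : Real.sinh η ^ 2 < Real.sin α ^ 2 := pow_lt_pow_left₀ h6 hsη.le two_ne_zero
    linarith only [t1, this]
  · rw [sq, mul_re, hre, him]
    have h10 : (Real.sin α * Real.sinh η) * (Real.sin α * Real.sinh η) <
        (Real.cos α * Real.cosh η) * (Real.cos α * Real.cosh η) :=
      mul_self_lt_mul_self (by positivity) hlt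
    linarith only [h10]
  · rw [sq, mul_im, hre, him]
    have hc0 : 0 < Real.cos α := by linarith only [hcα]
    positivity

end Pool.Agent.Work.MP_b30479_gt.G2
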