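import Pool.Agent.Work.MP_b30479_gt.G2.SStart
import Pool.Agent.Work.MP_b30479_gt.G2.S1

/-!
# The start of the continuation: all neighbour values are `1`
-/

namespace Pool.Agent.Work.MP_b30479_gt.G2

open Complex

/-- `RR` and `QQ` at `k = 1` -/
theorem RQ_one {w P : ℂ} (hc : 0 < (Complex.cos w).re) (h1 : Complex.cosh P * Complex.cos w = 1)
    (h2 : Complex.sinh P * Complex.cos w = -Complex.sin w) (h3 : |P.im| < Real.pi / 2) :
    RR w 1 = 1 / Complex.cos w ∧ 0 < (RR w 1).re ∧ QQ w 1 = -P := by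
  have hc0 : Complex.cos w ≠ 0 := cos_ne_of hc
  have hre : 0 < (1 / Complex.cos w).re := by
    rw [one_div, Complex.inv_re]
    exact div_pos hc (Complex.normSq_pos.2 hc0)
  have hZ : ZZ0 w 1 = (1 / Complex.cos w) ^ 2 := by
    unfold ZZ0
    rw [Complex.tan_eq_sin_div_cos, div_pow, div_pow, one_pow, inv_one]
    have := Complex.sin_sq_add_cos_sq w
    field_simp
    linear_combination this
  have hR : RR w 1 = 1 / Complex.cos w := by
    unfold RR
    rw [hZ, Complex.sq_cpow_two_inv hre]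
  refine ⟨hR, by rw [hR]; exact hre, ?_⟩
  have hT : Complex.tan w + RR w 1 = cexp (-P) := by
    rw [hR, Complex.tan_eq_sin_div_cos, ← Complex.cosh_sub_sinh]
    field_simp
    linear_combination h2 - h1
  have hpi := Real.pi_pos
  obtain ⟨i1, i2⟩ := abs_lt.1 h3
  unfold QQ
  rw [hT, Complex.log_one, add_zero, Complex.log_exp]
  · rw [neg_im]; linarith only [hpi, i2]
  · rw [neg_im]; linarith only [hpi, i1]

/-- the start, `b ≥ 3`: frame `s = 1`; `m = 1` (end ring) or `m = 2` -/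
theorem ring_start {b m : ℝ} (hm : 1 ≤ m) (hm2 : m ≤ 2) (hb : 3 ≤ b) :
    ∃ w : ℂ, 0 < w.re ∧ w.re < Real.pi / b ∧ w.im < 0 ∧ Real.sinh (-w.im) < Real.sin w.re ∧
      0 < (Complex.cos w).re ∧ RR w 1 = 1 / Complex.cos w ∧ 0 < (RR w 1).re ∧
      b * w - Real.pi + I * (m * QQ w 1) = 0 ∧
      1 / 4 < ‖Complex.cos w ^ 2‖ ∧ ‖Complex.cos w ^ 2‖ < 1 ∧ 0 < (Complex.cos w ^ 2).re ∧
      0 < (Complex.cos w ^ 2).im ∧
      Real.sinh (-w.im) = Real.cos w.re * Real.tan ((Real.pi - b * w.re) / m) ∧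
      0 < (Real.pi - b * w.re) / m ∧ (Real.pi - b * w.re) / m < Real.pi / 2 := by
  have hm0 : 0 < m := by linarith only [hm]
  obtain ⟨w, P, h0, h1, h2, h3, h4, h5, h6, h7, h8, h9, h10⟩ :=
    start_ring hm0 hm2 (by linarith only [hb] : (2 : ℝ) < b)
  have hpi := Real.pi_pos
  have hb0 : 0 < b := by linarith only [hb]
  have hw2 : w.re < Real.pi / 3 := h1.trans_le (div_le_div_of_nonneg_left hpi.le (by norm_num) hb)
  have hc : 0 < (Complex.cos w).re := by
    have e : w = (w.re : ℂ) + (w.im : ℂ) * I := (re_add_im w).symm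
    rw [e, Complex.cos_add_mul_I, ← ofReal_cos, ← ofReal_cosh, ← ofReal_sin, ← ofReal_sinh]
    have h11 : 0 < Real.cos w.re := Real.cos_pos_of_mem_Ioo ⟨by linarith only [h0, hw2], by linarith only [h0, hw2]⟩
    have h12 := Real.cosh_pos w.im
    have e2 : ((Real.cos w.re : ℂ) * (Real.cosh w.im : ℂ) -
        (Real.sin w.re : ℂ) * (Real.sinh w.im : ℂ) * I).re = Real.cos w.re * Real.cosh w.im := by
      simp
      norm_cast
      simp
    rw [e2]
    positivity
  have hPi : |P.im| < Real.pi / 2 := by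
    rw [abs_of_pos h4]
    exact h5
  obtain ⟨q1, q2, q3⟩ := RQ_one hc h8 h7 hPi
  obtain ⟨d1, d2, d3, d4⟩ := start_domain hm hb h0 h1 h2 h4 h6 h9 h10
  have hP : (Real.pi - b * w.re) / m = P.im := by
    have := congrArg Complex.re h6
    rw [Complex.re_ofReal_mul, add_re, ofReal_re, mul_assoc, I_mul_re, Complex.im_ofReal_mul] at this
    rw [div_eq_iff hm0.ne']
    linarith only [this]
  refine ⟨w, h0, h1, h2, h9, hc, q1, q2, ?_, d1, d2, d3, d4, by rw [hP]; exact h10,
    by rw [hP]; exact h4, by rw [hP]; exact h5⟩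
  rw [q3, h6]
  ring

/-- the start, `b = 2`, two neighbours -/
theorem two_start : ∃ w : ℂ, w.re = Real.pi / 4 ∧ w.im < 0 ∧ -1 < w.im ∧
    Complex.cos w = ((√3 / 2 : ℝ) : ℂ) + ((1 / 2 : ℝ) : ℂ) * I ∧ RR w 1 = 1 / Complex.cos w ∧
    0 < (RR w 1).re ∧ 2 * w - Real.pi + I * (2 * QQ w 1) = 0 := by
  have hpi := Real.pi_pos
  set a : ℝ := Real.arsinh (1 / √2) with ha
  have h2 : (√2 : ℝ) * √2 = 2 := Real.mul_self_sqrt (by norm_num)
  have h20 : (0 : ℝ) < √2 := by positivity
  have hsa : Real.sinh a = 1 / √2 := Real.sinh_arsinh _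
  have hca : Real.cosh a = √3 / √2 := by
    have h := Real.cosh_sq a
    rw [hsa] at h
    have e : (1 / √2 : ℝ) ^ 2 + 1 = (√3 / √2) ^ 2 := by
      rw [div_pow, div_pow, Real.sq_sqrt (by norm_num), Real.sq_sqrt (by norm_num)]
      norm_num
    rw [e] at h
    calc Real.cosh a = √(Real.cosh a ^ 2) := (Real.sqrt_sq (Real.cosh_pos a).le).symm
      _ = √((√3 / √2) ^ 2) := by rw [h]
      _ = _ := Real.sqrt_sq (by positivity)
  have ha0 : 0 < a := Real.arsinh_pos_iff.2 (by positivity)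
  have ha1 : a < 1 := by
    by_contra hc
    push Not at hc
    have h3 : Real.sinh 1 ≤ Real.sinh a := Real.sinh_le_sinh.2 hc
    have h4 : (1 : ℝ) < Real.sinh 1 := Real.self_lt_sinh_iff.2 one_pos
    rw [hsa] at h3
    have h5 : 1 / √2 ≤ (1 : ℝ) := by
      rw [div_le_one h20]
      exact Real.one_le_sqrt.2 (by norm_num)
    linarith only [h3, h4, h5]
  have hc4 : Real.cos (Real.pi / 4) = √2 / 2 := Real.cos_pi_div_four
  have hs4 : Real.sin (Real.pi / 4) = √2 / 2 := Real.sin_pi_div_four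
  set w : ℂ := ((Real.pi / 4 : ℝ) : ℂ) - (a : ℂ) * I with hw
  set P : ℂ := -(a : ℂ) + ((Real.pi / 4 : ℝ) : ℂ) * I with hP
  have hwre : w.re = Real.pi / 4 := by rw [hw]; simp
  have hwim : w.im = -a := by rw [hw]; simp
  have hPim : P.im = Real.pi / 4 := by rw [hP]; simp
  have r1 : Real.cos (Real.pi / 4) * Real.cosh a = √3 / 2 := by
    rw [hc4, hca]
    field_simp
  have r2 : Real.sin (Real.pi / 4) * Real.sinh a = 1 / 2 := by
    rw [hs4, hsa]
    field_simp
  have hcw : Complex.cos w = ((√3 / 2 : ℝ) : ℂ) + ((1 / 2 : ℝ) : ℂ) * I := by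
    rw [hw, Complex.cos_sub, Complex.cos_mul_I, Complex.sin_mul_I, ← ofReal_cos, ← ofReal_cosh,
      ← ofReal_sin, ← ofReal_sinh, ← r1, ← r2]
    push_cast
    ring
  have hsw : Complex.sin w = ((√3 / 2 : ℝ) : ℂ) - ((1 / 2 : ℝ) : ℂ) * I := by
    have r1' : Real.sin (Real.pi / 4) * Real.cosh a = √3 / 2 := by rw [hs4, ← hc4]; exact r1
    have r2' : Real.cos (Real.pi / 4) * Real.sinh a = 1 / 2 := by rw [hc4, ← hs4]; exact r2
    rw [hw, Complex.sin_sub, Complex.cos_mul_I, Complex.sin_mul_I, ← ofReal_cos, ← ofReal_cosh,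
      ← ofReal_sin, ← ofReal_sinh, ← r1', ← r2']
    push_cast
    ring
  have hcP : Complex.cosh P = ((√3 / 2 : ℝ) : ℂ) - ((1 / 2 : ℝ) : ℂ) * I := by
    rw [hP, Complex.cosh_add, Complex.cosh_mul_I, Complex.sinh_mul_I, Complex.cosh_neg,
      Complex.sinh_neg, ← ofReal_cos, ← ofReal_cosh, ← ofReal_sin, ← ofReal_sinh, ← r1, ← r2]
    push_cast
    ring
  have hsP : Complex.sinh P = -((1 / 2 : ℝ) : ℂ) + ((√3 / 2 : ℝ) : ℂ) * I := by
    have r1' : Real.sin (Real.pi / 4) * Real.cosh a = √3 / 2 := by rw [hs4, ← hc4]; exact r1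
    have r2' : Real.cos (Real.pi / 4) * Real.sinh a = 1 / 2 := by rw [hc4, ← hs4]; exact r2
    rw [hP, Complex.sinh_add, Complex.cosh_mul_I, Complex.sinh_mul_I, Complex.cosh_neg,
      Complex.sinh_neg, ← ofReal_cos, ← ofReal_cosh, ← ofReal_sin, ← ofReal_sinh, ← r1', ← r2']
    push_cast
    ring
  have h3 : ((√3 : ℝ) : ℂ) ^ 2 = 3 := by
    rw [← ofReal_pow, Real.sq_sqrt (by norm_num)]
    norm_num
  have k1 : Complex.cosh P * Complex.cos w = 1 := by
    rw [hcP, hcw]
    push_cast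
    linear_combination (1 / 4 : ℂ) * h3 - (1 / 4 : ℂ) * I_sq
  have k2 : Complex.sinh P * Complex.cos w = -Complex.sin w := by
    rw [hsP, hcw, hsw]
    push_cast
    linear_combination (I / 4) * h3 + (((√3 : ℝ) : ℂ) / 4) * I_sq
  have hc : 0 < (Complex.cos w).re := by
    rw [hcw, add_re, ofReal_re, re_ofReal_mul, I_re, mul_zero, add_zero]
    positivity
  obtain ⟨q1, q2, q3⟩ := RQ_one hc k1 k2 (by rw [hPim, abs_of_pos (by positivity)]; linarith only [hpi])
  refine ⟨w, hwre, by rw [hwim]; linarith only [ha0], by rw [hwim]; linarith only [ha1], hcw, q1, q2, ?_⟩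
  rw [q3, hw, hP]
  push_cast
  linear_combination (-(Real.pi : ℂ) / 2) * I_sq

/-- the start, `b = 2`, one neighbour -/
theorem two_end_start : ∃ w : ℂ, 0 < w.re ∧ w.re < Real.pi / 2 ∧ w.im < 0 ∧ -1 < w.im ∧
    Complex.cos w = (1 + I) / 2 ∧ RR w 1 = 1 / Complex.cos w ∧
    0 < (RR w 1).re ∧ 2 * w - Real.pi + I * (1 * QQ w 1) = 0 := by
  have hpi := Real.pi_pos
  set g : ℝ := Real.goldenRatio with hg
  have hg2 : g ^ 2 = g + 1 := Real.goldenRatio_sq
  have hg1 : 1 < g := Real.one_lt_goldenRatio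
  have hgl : g < 2 := Real.goldenRatio_lt_two
  have hg0 : 0 < g := by linarith only [hg1, hgl]
  set a : ℝ := Real.arsinh (√g) with ha
  set y : ℝ := Real.arccos (1 / g) with hy
  have hsa : Real.sinh a = √g := Real.sinh_arsinh _
  have hsq : √g ^ 2 = g := Real.sq_sqrt hg0.le
  have hca : Real.cosh a = g := by
    have h := Real.cosh_sq a
    rw [hsa, hsq, ← hg2] at h
    calc Real.cosh a = √(Real.cosh a ^ 2) := (Real.sqrt_sq (Real.cosh_pos a).le).symm
      _ = √(g ^ 2) := by rw [h]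
      _ = _ := Real.sqrt_sq hg0.le
  have h1g : 1 / g ≤ 1 := by rw [div_le_one hg0]; exact hg1.le
  have h1g0 : 0 < 1 / g := by positivity
  have hcy : Real.cos y = 1 / g := Real.cos_arccos (by linarith only [hg1, hgl, h1g0]) h1g
  have hy0 : 0 < y := Real.arccos_pos.2 (by rw [div_lt_one hg0]; exact hg1)
  have hy1 : y < Real.pi / 2 := Real.arccos_lt_pi_div_two.2 h1g0
  have hsy : √g * Real.sin y = 1 := by
    have h0 : 0 ≤ Real.sin y := (Real.sin_pos_of_pos_of_lt_pi hy0 (by linarith only [hy0, hy1])).le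
    have h1 : (√g * Real.sin y) ^ 2 = 1 := by
      have h2 := Real.sin_sq_add_cos_sq y
      rw [hcy] at h2
      have h3 : Real.sin y ^ 2 = 1 - 1 / g ^ 2 := by
        rw [div_pow, one_pow] at h2
        linarith only [h2]
      rw [mul_pow, hsq, h3]
      field_simp
      linarith only [hg2]
    have h2 : 0 ≤ √g * Real.sin y := by positivity
    calc √g * Real.sin y = √((√g * Real.sin y) ^ 2) := (Real.sqrt_sq h2).symm
      _ = √1 := by rw [h1]
      _ = 1 := Real.sqrt_one
  have ha0 : 0 < a := Real.arsinh_pos_iff.2 (by positivity)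
  have ha1 : a < 2 := by
    by_contra hc
    push Not at hc
    have h3 : Real.sinh 2 ≤ Real.sinh a := Real.sinh_le_sinh.2 hc
    have h4 : (2 : ℝ) < Real.sinh 2 := Real.self_lt_sinh_iff.2 two_pos
    rw [hsa] at h3
    have h5 : √g < 2 := by
      rw [Real.sqrt_lt' two_pos]
      linarith only [hg1, hgl]
    linarith only [h3, h4, h5]
  set P : ℂ := -(a : ℂ) + (y : ℂ) * I with hP
  set w : ℂ := ((Real.pi : ℂ) + I * P) / 2 with hw
  have hwre : w.re = (Real.pi - y) / 2 := by
    rw [hw, hP]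
    simp
    ring
  have hwim : w.im = -a / 2 := by
    rw [hw, hP]
    simp
  have hPim : P.im = y := by rw [hP]; simp
  have hcP : Complex.cosh P = 1 - I := by
    rw [hP, Complex.cosh_add, Complex.cosh_mul_I, Complex.sinh_mul_I, Complex.cosh_neg,
      Complex.sinh_neg, ← ofReal_cos, ← ofReal_cosh, ← ofReal_sin, ← ofReal_sinh, hca, hcy, hsa]
    have e1 : (g : ℂ) * ((1 / g : ℝ) : ℂ) = 1 := by
      rw [← ofReal_mul]
      have : g * (1 / g) = 1 := by field_simp
      rw [this, ofReal_one]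
    have e2 : ((√g : ℝ) : ℂ) * ((Real.sin y : ℝ) : ℂ) = 1 := by
      rw [← ofReal_mul, hsy, ofReal_one]
    linear_combination e1 - I * e2
  have hw0 : 0 < w.re := by rw [hwre]; linarith only [hy0, hy1]
  have hw1 : w.re < Real.pi / 2 := by rw [hwre]; linarith only [hy0]
  have e : w = (w.re : ℂ) + (w.im : ℂ) * I := (re_add_im w).symm
  have hcre : 0 < (Complex.cos w).re := by
    rw [e, Complex.cos_add_mul_I, ← ofReal_cos, ← ofReal_cosh, ← ofReal_sin, ← ofReal_sinh]
    have h11 : 0 < Real.cos w.re := Real.cos_pos_of_mem_Ioo ⟨by linarith only [hy0, hy1, hwre], by linarith only [hy0, hwre]⟩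
    have h12 := Real.cosh_pos w.im
    have e2 : ((Real.cos w.re : ℂ) * (Real.cosh w.im : ℂ) -
        (Real.sin w.re : ℂ) * (Real.sinh w.im : ℂ) * I).re = Real.cos w.re * Real.cosh w.im := by
      simp
      norm_cast
      simp
    rw [e2]
    positivity
  have hsre : 0 < (Complex.sin w).re := by
    rw [e, Complex.sin_add_mul_I, ← ofReal_cos, ← ofReal_cosh, ← ofReal_sin, ← ofReal_sinh]
    have h11 : 0 < Real.sin w.re := Real.sin_pos_of_pos_of_lt_pi hw0 (by linarith only [hy0, hy1, hwre])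
    have h12 := Real.cosh_pos w.im
    have e2 : ((Real.sin w.re : ℂ) * (Real.cosh w.im : ℂ) +
        (Real.cos w.re : ℂ) * (Real.sinh w.im : ℂ) * I).re = Real.sin w.re * Real.cosh w.im := by
      simp
      norm_cast
      simp
    rw [e2]
    positivity
  have h2w : 2 * w = Real.pi + I * P := by rw [hw]; ring
  have hcc : Complex.cos w ^ 2 = ((1 + I) / 2) ^ 2 := by
    have h1 := Complex.cos_sq w
    have h2 : Complex.cos (2 * w) = -Complex.cosh P := by
      rw [h2w, add_comm, Complex.cos_add_pi, mul_comm, Complex.cos_mul_I]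
    rw [h1, h2, hcP]
    linear_combination (-1 / 4 : ℂ) * I_sq
  have hcw : Complex.cos w = (1 + I) / 2 := by
    rcases sq_eq_sq_iff_eq_or_eq_neg.1 hcc with h | h
    · exact h
    · exfalso
      rw [h] at hcre
      simp at hcre
      linarith only [hg1, hgl, hcre]
  have k1 : Complex.cosh P * Complex.cos w = 1 := by
    rw [hcP, hcw]
    linear_combination (-1 / 2 : ℂ) * I_sq
  have k2 : Complex.sinh P * Complex.cos w = -Complex.sin w := by
    have h1 : (Complex.sinh P * Complex.cos w) ^ 2 = Complex.sin w ^ 2 := by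
      have h2 := Complex.sin_sq_add_cos_sq w
      have h3 := Complex.cosh_sq_sub_sinh_sq P
      rw [hcP] at h3
      have h4 : Complex.sin w ^ 2 = 1 - ((1 + I) / 2) ^ 2 := by
        rw [← hcc]
        linear_combination h2
      have h5 : Complex.sinh P ^ 2 = (1 - I) ^ 2 - 1 := by linear_combination -h3
      rw [mul_pow, h5, h4, hcc]
      linear_combination (1 / 4 * I ^ 2 - 3 / 4 : ℂ) * I_sq
    rcases sq_eq_sq_iff_eq_or_eq_neg.1 h1 with h | h
    · exfalso
      have h3 : (Complex.sinh P * Complex.cos w).re < 0 := by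
        have h4 : Complex.sinh P = ((-(√g * (1 / g)) : ℝ) : ℂ) + ((g * Real.sin y : ℝ) : ℂ) * I := by
          rw [hP, Complex.sinh_add, Complex.cosh_mul_I, Complex.sinh_mul_I, Complex.cosh_neg,
            Complex.sinh_neg, ← ofReal_cos, ← ofReal_cosh, ← ofReal_sin, ← ofReal_sinh, hca, hcy, hsa]
          push_cast
          ring
        have h5 : 0 < Real.sin y := Real.sin_pos_of_pos_of_lt_pi hy0 (by linarith only [hy0, hy1])
        have h6 : (Complex.sinh P * Complex.cos w).re = (-(√g * (1 / g)) - g * Real.sin y) / 2 := by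
          rw [h4, hcw]
          generalize -(√g * (1 / g)) = X
          generalize g * Real.sin y = Y
          simp
          ring
        rw [h6]
        have h7 : 0 < √g * (1 / g) := by positivity
        have h8 : 0 < g * Real.sin y := by positivity
        linarith only [h7, h8]
      rw [h] at h3
      linarith only [hsre, h3]
    · exact h
  obtain ⟨q1, q2, q3⟩ := RQ_one hcre k1 k2 (by rw [hPim, abs_of_pos hy0]; exact hy1)
  refine ⟨w, hw0, hw1, by rw [hwim]; linarith only [ha0], by rw [hwim]; linarith only [ha1], hcw, q1, q2, ?_⟩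
  rw [q3, h2w]
  ring

end Pool.Agent.Work.MP_b30479_gt.G2
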