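import Pool.Agent.Work.MP_b30479_gt.G2.Words

/-!
# Markoff maps of words: invariance under the merging of digits `±1`
-/

namespace Pool.Agent.Work.MP_b30479_gt.G2

open Finset
open Pool.Agent.Work.MP_b30479_gt.LT

/-- the values in a fan -/
noncomputable def fan (p q0 q1 : ℂ) : ℕ → ℂ
  | 0 => q0
  | 1 => q1
  | l + 2 => p * fan p q0 q1 (l + 1) - fan p q0 q1 l

/-- a layer: the values at the edge `{p, q}` and at the third vertices of the two triangles -/
structure Lay where
  p : ℂ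
  q : ℂ
  t : ℂ
  u : ℂ

/-- the layer `l` of a fan -/
noncomputable def lay (b : ℤ) (p q0 q1 : ℂ) (l : ℕ) : Lay :=
  if 0 < b then ⟨p, fan p q0 q1 l, fan p q0 q1 (l - 1), fan p q0 q1 (l + 1)⟩
  else ⟨fan p q0 q1 l, p, fan p q0 q1 (l - 1), fan p q0 q1 (l + 1)⟩

/-- the value `q 1` of the next fan; between digits of equal signs the path turns back -/
noncomputable def nq (b c : ℤ) (p q0 q1 : ℂ) : ℂ :=
  if b * c < 0 then fan p q0 q1 (b.natAbs + 1) else fan p q0 q1 (b.natAbs - 1)

/-- the value at the end of the path -/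
noncomputable def fin : ℂ → ℂ → ℂ → List ℤ → ℂ
  | _, _, _, [] => 1
  | p, q0, q1, [b] => fan p q0 q1 b.natAbs
  | p, q0, q1, b :: c :: w => fin (fan p q0 q1 b.natAbs) p (nq b c p q0 q1) (c :: w)

/-- the layers of the path -/
noncomputable def Lys : ℕ → ℂ → ℂ → ℂ → List ℤ → List Lay
  | _, _, _, _, [] => []
  | k, p, q0, q1, [b] => (List.range' k (b.natAbs - 1 - k)).map (lay b p q0 q1)
  | k, p, q0, q1, b :: c :: w => (List.range' k (b.natAbs - k)).map (lay b p q0 q1) ++
      (if b * c < 0 then [lay b p q0 q1 b.natAbs] else []) ++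
      Lys 1 (fan p q0 q1 b.natAbs) p (nq b c p q0 q1) (c :: w)

lemma fan_shift (p a b : ℂ) : ∀ l, fan p b (p * b - a) l = fan p a b (l + 1) := by
  intro l
  induction l using Nat.twoStepInduction with
  | zero => rfl
  | one => rfl
  | more l ih1 ih2 =>
    show p * fan p b (p * b - a) (l + 1) - fan p b (p * b - a) l =
      p * fan p a b (l + 2) - fan p a b (l + 1)
    rw [ih1, ih2]

lemma lay_shift (z : ℤ) (p a b : ℂ) {l : ℕ} (hl : 1 ≤ l) :
    lay z p b (p * b - a) l = lay z p a b (l + 1) := by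
  obtain ⟨m, rfl⟩ : ∃ m, l = m + 1 := ⟨l - 1, by omega⟩
  unfold lay
  simp only [fan_shift, Nat.add_sub_cancel]

lemma sign_pos_iff {z : ℤ} (hz : z ≠ 0) : 0 < z + z.sign ↔ 0 < z := by
  rcases lt_trichotomy z 0 with h | h | h
  · rw [Int.sign_eq_neg_one_of_neg h]
    constructor <;> intro <;> omega
  · exact absurd h hz
  · rw [Int.sign_eq_one_of_pos h]
    constructor <;> intro <;> omega

lemma sign_mul_iff {z c : ℤ} (hz : z ≠ 0) : (z + z.sign) * c < 0 ↔ z * c < 0 := by
  rw [mul_neg_iff', mul_neg_iff']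
  rcases lt_trichotomy z 0 with h | h | h
  · rw [Int.sign_eq_neg_one_of_neg h]
    constructor <;> (rintro (⟨a, b⟩ | ⟨a, b⟩) <;> omega)
  · exact absurd h hz
  · rw [Int.sign_eq_one_of_pos h]
    constructor <;> (rintro (⟨a, b⟩ | ⟨a, b⟩) <;> omega)

lemma lay_sign {z : ℤ} (hz : z ≠ 0) (p a b : ℂ) (l : ℕ) : lay (z + z.sign) p a b l = lay z p a b l := by
  unfold lay
  simp only [sign_pos_iff hz]

lemma nq_sign {z c : ℤ} (hz : z ≠ 0) (p a b : ℂ) :
    nq (z + z.sign) c p a b = nq z c p b (p * b - a) := by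
  unfold nq
  simp only [sign_mul_iff hz, fan_shift, (sign_abs hz).1]
  have : 1 ≤ z.natAbs := by omega
  rw [show z.natAbs + 1 - 1 = z.natAbs - 1 + 1 by omega]

/-- one more triangle in the first fan -/
lemma Lys_shift {z : ℤ} (w : List ℤ) (hz : 2 ≤ z.natAbs) (p a b : ℂ) :
    Lys 1 p a b ((z + z.sign) :: w) = lay z p a b 1 :: Lys 1 p b (p * b - a) (z :: w) ∧
    fin p a b ((z + z.sign) :: w) = fin p b (p * b - a) (z :: w) := by
  have hz0 : z ≠ 0 := by omega
  have ha := (sign_abs hz0).1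
  have h1 : ∀ n, (List.range' 1 (n + 1)).map (lay (z + z.sign) p a b) =
      lay z p a b 1 :: (List.range' 1 n).map (lay z p b (p * b - a)) := by
    intro n
    rw [List.range'_succ, List.map_cons, lay_sign hz0]
    congr 1
    apply List.ext_getElem
    · simp
    · intro i h1 h2
      simp only [List.getElem_map, List.getElem_range', lay_sign hz0]
      rw [lay_shift _ _ _ _ (by omega)]
      congr 1
      omega
  cases w with
  | nil =>
    refine ⟨?_, ?_⟩
    · show (List.range' 1 ((z + z.sign).natAbs - 1 - 1)).map _ =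
        _ :: (List.range' 1 (z.natAbs - 1 - 1)).map _
      rw [ha, show z.natAbs + 1 - 1 - 1 = z.natAbs - 1 - 1 + 1 by omega]
      exact h1 _
    · show fan p a b (z + z.sign).natAbs = fan p b (p * b - a) z.natAbs
      rw [ha, fan_shift]
  | cons c w =>
    refine ⟨?_, ?_⟩
    · show (List.range' 1 ((z + z.sign).natAbs - 1)).map _ ++
        (if (z + z.sign) * c < 0 then [lay (z + z.sign) p a b (z + z.sign).natAbs] else []) ++
        Lys 1 (fan p a b (z + z.sign).natAbs) p (nq (z + z.sign) c p a b) (c :: w) =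
        _ :: ((List.range' 1 (z.natAbs - 1)).map _ ++
        (if z * c < 0 then [lay z p b (p * b - a) z.natAbs] else []) ++
        Lys 1 (fan p b (p * b - a) z.natAbs) p (nq z c p b (p * b - a)) (c :: w))
      rw [nq_sign hz0, fan_shift, ha, lay_sign hz0, lay_shift _ _ _ _ (by omega)]
      simp only [sign_mul_iff hz0]
      rw [show z.natAbs + 1 - 1 = z.natAbs - 1 + 1 by omega, h1]
      simp
    · show fin (fan p a b (z + z.sign).natAbs) p (nq (z + z.sign) c p a b) (c :: w) =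
        fin (fan p b (p * b - a) z.natAbs) p (nq z c p b (p * b - a)) (c :: w)
      rw [nq_sign hz0, fan_shift, ha]

/-- merging a digit `±1` -/
lemma Lys_merge {x y z : ℤ} (w : List ℤ) (hxy : x * y < 0) (hyz : y * z < 0) (hy : y.natAbs = 1)
    (hz : 2 ≤ z.natAbs) {k : ℕ} (hk : k ≤ x.natAbs) (p q0 q1 : ℂ) :
    Lys k p q0 q1 (x :: y :: z :: w) = Lys k p q0 q1 ((x + x.sign) :: (z + z.sign) :: w) ∧
    fin p q0 q1 (x :: y :: z :: w) = fin p q0 q1 ((x + x.sign) :: (z + z.sign) :: w) := by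
  have hx0 : x ≠ 0 := by rintro rfl; simp at hxy
  have hz0 : z ≠ 0 := by omega
  have hxa := (sign_abs hx0).1
  have hsame : ¬ (x + x.sign) * (z + z.sign) < 0 := by
    rw [sign_mul_iff hx0, mul_comm, sign_mul_iff hz0, mul_neg_iff']
    rw [mul_neg_iff'] at hxy hyz
    omega
  set F := fan p q0 q1 with hF
  have e1 : nq x y p q0 q1 = F (x.natAbs + 1) := if_pos hxy
  have e2 : nq (x + x.sign) (z + z.sign) p q0 q1 = F x.natAbs := by
    rw [nq, if_neg hsame, hxa, Nat.add_sub_cancel]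
  have e3 : nq y z (F x.natAbs) p (F (x.natAbs + 1)) = F (x.natAbs + 1) * F x.natAbs - p := by
    rw [nq, if_pos hyz, hy]
    show F x.natAbs * F (x.natAbs + 1) - p = _
    rw [mul_comm]
  have e4 : fan (F x.natAbs) p (F (x.natAbs + 1)) y.natAbs = F (x.natAbs + 1) := by
    rw [hy]
    rfl
  have e5 : lay y (F x.natAbs) p (F (x.natAbs + 1)) y.natAbs = lay z (F (x.natAbs + 1)) p (F x.natAbs) 1 := by
    rw [hy]
    unfold lay
    rw [mul_neg_iff'] at hyz
    rcases hyz with ⟨h1, h2⟩ | ⟨h1, h2⟩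
    · rw [if_pos h1, if_neg (by omega)]
      show Lay.mk (F x.natAbs) (F (x.natAbs + 1)) p (F x.natAbs * F (x.natAbs + 1) - p) =
        Lay.mk (F x.natAbs) (F (x.natAbs + 1)) p (F (x.natAbs + 1) * F x.natAbs - p)
      rw [mul_comm]
    · rw [if_neg (by omega), if_pos h2]
      show Lay.mk (F (x.natAbs + 1)) (F x.natAbs) p (F x.natAbs * F (x.natAbs + 1) - p) =
        Lay.mk (F (x.natAbs + 1)) (F x.natAbs) p (F (x.natAbs + 1) * F x.natAbs - p)
      rw [mul_comm]
  have hs := Lys_shift w hz (F (x.natAbs + 1)) p (F x.natAbs)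
  refine ⟨?_, ?_⟩
  · show (List.range' k (x.natAbs - k)).map (lay x p q0 q1) ++
      (if x * y < 0 then [lay x p q0 q1 x.natAbs] else []) ++
      ((List.range' 1 (y.natAbs - 1)).map (lay y (F x.natAbs) p (nq x y p q0 q1)) ++
      (if y * z < 0 then [lay y (F x.natAbs) p (nq x y p q0 q1) y.natAbs] else []) ++
      Lys 1 (fan (F x.natAbs) p (nq x y p q0 q1) y.natAbs) (F x.natAbs)
        (nq y z (F x.natAbs) p (nq x y p q0 q1)) (z :: w)) =
      (List.range' k ((x + x.sign).natAbs - k)).map (lay (x + x.sign) p q0 q1) ++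
      (if (x + x.sign) * (z + z.sign) < 0 then [lay (x + x.sign) p q0 q1 (x + x.sign).natAbs] else []) ++
      Lys 1 (F (x + x.sign).natAbs) p (nq (x + x.sign) (z + z.sign) p q0 q1) ((z + z.sign) :: w)
    rw [if_pos hxy, if_pos hyz, if_neg hsame, e1, e2, e3, e4, e5, hxa, hs.1, hy, Nat.sub_self]
    rw [show x.natAbs + 1 - k = (x.natAbs - k) + 1 by omega, List.range'_1_concat, List.map_append]
    have e6 : (List.range' k (x.natAbs - k)).map (lay (x + x.sign) p q0 q1) =
        (List.range' k (x.natAbs - k)).map (lay x p q0 q1) :=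
      List.map_congr_left fun l _ => lay_sign hx0 _ _ _ _
    rw [e6]
    simp [lay_sign hx0, show k + (x.natAbs - k) = x.natAbs by omega]
  · show fin (fan (F x.natAbs) p (nq x y p q0 q1) y.natAbs) (F x.natAbs)
        (nq y z (F x.natAbs) p (nq x y p q0 q1)) (z :: w) =
      fin (F (x + x.sign).natAbs) p (nq (x + x.sign) (z + z.sign) p q0 q1) ((z + z.sign) :: w)
    rw [e1, e2, e3, e4, hxa, hs.2]

/-- only the sign of the next digit matters -/
lemma Lys_congr {x c c' : ℤ} {w w' : List ℤ} (hc : x * c < 0 ↔ x * c' < 0)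
    (h : ∀ p q0 q1, Lys 1 p q0 q1 (c :: w) = Lys 1 p q0 q1 (c' :: w') ∧
      fin p q0 q1 (c :: w) = fin p q0 q1 (c' :: w')) (k : ℕ) (p q0 q1 : ℂ) :
    Lys k p q0 q1 (x :: c :: w) = Lys k p q0 q1 (x :: c' :: w') ∧
      fin p q0 q1 (x :: c :: w) = fin p q0 q1 (x :: c' :: w') := by
  have e : nq x c p q0 q1 = nq x c' p q0 q1 := by
    unfold nq
    simp only [hc]
  refine ⟨?_, ?_⟩
  · show (List.range' k (x.natAbs - k)).map (lay x p q0 q1) ++
      (if x * c < 0 then [lay x p q0 q1 x.natAbs] else []) ++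
      Lys 1 (fan p q0 q1 x.natAbs) p (nq x c p q0 q1) (c :: w) =
      (List.range' k (x.natAbs - k)).map (lay x p q0 q1) ++
      (if x * c' < 0 then [lay x p q0 q1 x.natAbs] else []) ++
      Lys 1 (fan p q0 q1 x.natAbs) p (nq x c' p q0 q1) (c' :: w')
    rw [e, (h _ _ _).1]
    simp only [hc]
  · show fin (fan p q0 q1 x.natAbs) p (nq x c p q0 q1) (c :: w) =
      fin (fan p q0 q1 x.natAbs) p (nq x c' p q0 q1) (c' :: w')
    rw [e, (h _ _ _).2]

lemma mg_head {x : ℤ} {l : List ℤ} (h : AL (x :: l)) : ∃ c r, mg (x :: l) = c :: r ∧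
    ∀ b : ℤ, b * c < 0 ↔ b * x < 0 := by
  obtain ⟨r, h1 | h1⟩ := (mg_spec l.length x l le_rfl h).head
  · exact ⟨x, r, h1, fun b => Iff.rfl⟩
  · refine ⟨x + x.sign, r, h1.2, fun b => ?_⟩
    rw [mul_comm b, mul_comm b, sign_mul_iff h.head]

/-- The layers of the path of an alternating word and of the merged word are the same. -/
theorem Lys_mg : ∀ (n : ℕ) (x : ℤ) (l : List ℤ), l.length ≤ n → AL (x :: l) → ∀ (k : ℕ), k ≤ x.natAbs →
    ∀ p q0 q1, Lys k p q0 q1 (mg (x :: l)) = Lys k p q0 q1 (x :: l) ∧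
      fin p q0 q1 (mg (x :: l)) = fin p q0 q1 (x :: l) := by
  intro n
  induction n with
  | zero =>
    intro x l hl h k hk p q0 q1
    have : l = [] := List.length_eq_zero_iff.mp (by omega)
    subst this
    rw [mg]
    exact ⟨rfl, rfl⟩
  | succ n ih =>
    intro x l hl h k hk p q0 q1
    match l, hl, h with
    | [], _, h => rw [mg]; exact ⟨rfl, rfl⟩
    | [y], _, h => rw [mg]; exact ⟨rfl, rfl⟩
    | y :: z :: l, hl, h =>
      simp only [List.length_cons] at hl
      by_cases hc : y.natAbs = 1 ∧ 3 ≤ x.natAbs ∧ 3 ≤ z.natAbs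
      · have hz : AL (z :: l) := h.tail.tail
        rw [mg_pos hc]
        have h1 := Lys_merge l h.1 h.2.1 hc.1 (by omega) hk p q0 q1
        rw [h1.1, h1.2]
        obtain ⟨c, r, h2, h3⟩ := mg_head (AL_sign hz)
        rw [h2]
        have ha := (sign_abs hz.head).1
        refine Lys_congr (h3 _) (fun p q0 q1 => ?_) k p q0 q1
        rw [← h2]
        exact ih (z + z.sign) l (by omega) (AL_sign hz) 1 (by omega) p q0 q1
      · have hyz : AL (y :: z :: l) := h.2
        rw [mg_neg hc]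
        obtain ⟨c, r, h2, h3⟩ := mg_head hyz
        rw [h2]
        have := hyz.head
        refine Lys_congr (h3 _) (fun p q0 q1 => ?_) k p q0 q1
        rw [← h2]
        exact ih y (z :: l) (by simpa using (by omega : l.length + 1 ≤ n)) hyz 1 (by omega) p q0 q1

end Pool.Agent.Work.MP_b30479_gt.G2
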