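import Pool.Agent.Work.MP_b30479_gt.G2.Words

/-!
# Words of the class: the digits `±1` which are absorbed by their neighbours

`us b n`: the digit number `n` is `±1` and is absorbed (every second digit of a string of `±1`,
starting from the left); `BB b n`: the number of crossings of the ring `n`; `rn b n`, `ln b n`: the
next ring to the right and to the left.
-/

namespace Pool.Agent.Work.MP_b30479_gt.G2.SR

open Complex Set Filter Topology
open scoped ComplexConjugate

/-- relation to a neighbour: there is none, opposite sign, equal sign -/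
inductive Rel
  | e | a | s
  deriving DecidableEq

section
variable {M : ℕ} (b : Fin (M + 1) → ℤ)

/-- the digits as a function on the natural numbers -/
def bb (n : ℕ) : ℤ := if h : n < M + 1 then b ⟨n, h⟩ else 0

/-- absorbed digits -/
def us : ℕ → Bool
  | 0 => false
  | n + 1 => decide ((bb b (n + 1)).natAbs = 1) && !(us n)

/-- the number of crossings of the ring -/
def BB (n : ℕ) : ℕ := (bb b n).natAbs + (us b (n - 1)).toNat + (us b (n + 1)).toNat

/-- the next ring to the right -/
def rn (n : ℕ) : ℕ := if us b (n + 1) then n + 2 else n + 1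

/-- the next ring to the left -/
def ln (n : ℕ) : ℕ := if us b (n - 1) then n - 2 else n - 1

/-- the sign -/
noncomputable def sg (n : ℕ) : ℝ := if 0 < bb b n then 1 else -1

/-- relation to the ring on the right -/
def rr (n : ℕ) : Rel :=
  if M ≤ n then .e else if 0 < bb b n * bb b (rn b n) then .s else .a

/-- relation to the ring on the left -/
def lr (n : ℕ) : Rel :=
  if n = 0 then .e else if 0 < bb b n * bb b (ln b n) then .s else .a

/-- possible types of rings -/
def RAdm (B : ℕ) (l r : Rel) : Prop :=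
  2 ≤ B ∧ ¬(l = .e ∧ r = .e) ∧
    (B = 2 → ¬(l = .s ∧ r = .s) ∧ ¬(l = .s ∧ r = .e) ∧ ¬(l = .e ∧ r = .s))

end

section
variable {M : ℕ} {b : Fin (M + 1) → ℤ}

lemma sg_or (n : ℕ) : sg b n = 1 ∨ sg b n = -1 := by
  unfold sg
  split_ifs
  · exact Or.inl rfl
  · exact Or.inr rfl

lemma bb_lt {n : ℕ} (h : n < M + 1) : bb b n = b ⟨n, h⟩ := by simp [bb, h]

lemma bb_ge {n : ℕ} (h : M < n) : bb b n = 0 := by
  unfold bb
  rw [dif_neg (by omega)]

lemma us_succ (n : ℕ) : us b (n + 1) = (decide ((bb b (n + 1)).natAbs = 1) && !(us b n)) := rfl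

lemma us_true {n : ℕ} (h : us b n = true) : 1 ≤ n ∧ (bb b n).natAbs = 1 ∧ us b (n - 1) = false ∧
    us b (n + 1) = false := by
  cases n with
  | zero => simp [us] at h
  | succ n =>
    rw [us_succ, Bool.and_eq_true, decide_eq_true_eq, Bool.not_eq_true'] at h
    refine ⟨by omega, h.1, by simpa using h.2, ?_⟩
    rw [us_succ, us_succ, decide_eq_true h.1, h.2]
    simp

variable (hb : ClassW b)
include hb

lemma bb_zero : 2 ≤ (bb b 0).natAbs := by
  rw [bb_lt (by omega : 0 < M + 1)]
  exact hb.first

lemma bb_last : 2 ≤ (bb b M).natAbs := by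
  rw [bb_lt (by omega : M < M + 1)]
  exact hb.last

lemma bb_ne {n : ℕ} (h : n ≤ M) : bb b n ≠ 0 := by
  rw [bb_lt (by omega : n < M + 1)]
  exact hb.ne _

lemma us_lt {n : ℕ} (h : us b n = true) : 1 ≤ n ∧ n < M := by
  have h1 := us_true h
  refine ⟨h1.1, ?_⟩
  by_contra hc
  rcases (not_lt.1 hc).eq_or_lt with h2 | h2
  · have h3 := bb_last hb
    have h4 := h1.2.1
    rw [← h2] at h4
    omega
  · rw [bb_ge h2] at h1
    simp at h1

lemma us_of_ge {n : ℕ} (h : M ≤ n) : us b n = false := by
  by_contra hc
  rw [Bool.not_eq_false] at hc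
  have := us_lt hb hc
  omega

lemma bb_same {n : ℕ} (h : n < M) (hs : 0 < bb b n * bb b (n + 1)) :
    4 ≤ (bb b n).natAbs ∧ 4 ≤ (bb b (n + 1)).natAbs := by
  have h1 := hb.same ⟨n, h⟩
  rw [bb_lt (by omega : n < M + 1), bb_lt (by omega : n + 1 < M + 1)] at hs ⊢
  exact h1 hs

lemma bb_opp {n : ℕ} (h : n < M) (h1 : (bb b n).natAbs < 4 ∨ (bb b (n + 1)).natAbs < 4) :
    bb b n * bb b (n + 1) < 0 := by
  have h2 := mul_ne_zero (bb_ne hb h.le) (bb_ne hb (by omega : n + 1 ≤ M))
  by_contra hc
  have h3 : 0 < bb b n * bb b (n + 1) := by omega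
  have := bb_same hb h h3
  omega

/-- the ring on the right -/
lemma rn_spec {n : ℕ} (hn : n < M) (hu : us b n = false) :
    n < rn b n ∧ rn b n ≤ M ∧ us b (rn b n) = false ∧ ln b (rn b n) = n := by
  unfold rn
  split_ifs with h
  · have h1 := us_lt hb h
    have h2 := us_true h
    refine ⟨by omega, by omega, h2.2.2.2, ?_⟩
    unfold ln
    rw [show n + 2 - 1 = n + 1 by omega, h]
    simp
  · rw [Bool.not_eq_true] at h
    refine ⟨by omega, by omega, h, ?_⟩
    unfold ln
    rw [show n + 1 - 1 = n by omega, hu]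
    simp

/-- the ring on the left -/
lemma ln_spec {n : ℕ} (hn : 0 < n) (hu : us b n = false) :
    ln b n < n ∧ us b (ln b n) = false ∧ rn b (ln b n) = n := by
  unfold ln
  split_ifs with h
  · have h1 := us_lt hb h
    have h2 := us_true h
    refine ⟨by omega, ?_, ?_⟩
    · have := h2.2.2.1
      rwa [show n - 1 - 1 = n - 2 by omega] at this
    · unfold rn
      rw [show n - 2 + 1 = n - 1 by omega, h, if_pos rfl]
      omega
  · rw [Bool.not_eq_true] at h
    refine ⟨by omega, h, ?_⟩
    unfold rn
    rw [show n - 1 + 1 = n by omega, hu, if_neg (by decide)]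

/-- equal sign across an absorbed digit -/
lemma sign_across {n : ℕ} (h : us b (n + 1) = true) : 0 < bb b n * bb b (n + 2) := by
  have h1 := us_lt hb h
  have h2 := (us_true h).2.1
  have h3 := bb_opp hb (n := n) (by omega) (Or.inr (by omega))
  have h4 := bb_opp hb (n := n + 1) (by omega) (Or.inl (by omega))
  have h5 : 0 < (bb b n * bb b (n + 1)) * (bb b (n + 1) * bb b (n + 1 + 1)) :=
    mul_pos_of_neg_of_neg h3 h4
  have h6 : 0 < bb b (n + 1) * bb b (n + 1) :=
    mul_self_pos.2 (bb_ne hb (by omega : n + 1 ≤ M))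
  have h7 : (bb b n * bb b (n + 1)) * (bb b (n + 1) * bb b (n + 1 + 1)) =
      (bb b (n + 1) * bb b (n + 1)) * (bb b n * bb b (n + 2)) := by ring
  rw [h7] at h5
  exact (mul_pos_iff_of_pos_left h6).1 h5

/-- the number of crossings of a ring -/
lemma BB_ge {n : ℕ} (hn : n ≤ M) (hu : us b n = false) : 2 ≤ BB b n := by
  have h0 : (bb b n).natAbs ≠ 0 := Int.natAbs_ne_zero.2 (bb_ne hb hn)
  by_cases h1 : (bb b n).natAbs = 1
  · have hn0 : n ≠ 0 := by
      rintro rfl
      have := bb_zero hb
      omega
    obtain ⟨m, rfl⟩ := Nat.exists_eq_succ_of_ne_zero hn0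
    have h2 : us b m = true := by
      by_contra hc
      rw [Bool.not_eq_true] at hc
      have := us_succ (b := b) m
      rw [decide_eq_true (by exact h1), hc] at this
      simp only [Nat.succ_eq_add_one] at hu
      rw [hu] at this
      simp at this
    unfold BB
    rw [show m.succ - 1 = m by omega, h2, h1]
    simp
  · unfold BB
    omega

/-- a ring with an absorbed digit on the right has at least three crossings unless ... -/
lemma BB_ge_right {n : ℕ} (hn : n ≤ M) (hu : us b n = false) (h : us b (n + 1) = true) :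
    3 ≤ BB b n := by
  have h0 : (bb b n).natAbs ≠ 0 := Int.natAbs_ne_zero.2 (bb_ne hb hn)
  by_cases h1 : (bb b n).natAbs = 1
  · have hn0 : n ≠ 0 := by
      rintro rfl
      have := bb_zero hb
      omega
    obtain ⟨m, rfl⟩ := Nat.exists_eq_succ_of_ne_zero hn0
    have h2 : us b m = true := by
      by_contra hc
      rw [Bool.not_eq_true] at hc
      have := us_succ (b := b) m
      rw [decide_eq_true (by exact h1), hc] at this
      simp only [Nat.succ_eq_add_one] at hu
      rw [hu] at this
      simp at this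
    unfold BB
    rw [show m.succ - 1 = m by omega, h2, h1, h]
    simp
  · unfold BB
    rw [h]
    simp
    omega

/-- two neighbouring rings of equal sign do not both have two crossings -/
lemma BB_same {n : ℕ} (hn : n < M) (hu : us b n = false) (h : 0 < bb b n * bb b (rn b n)) :
    3 ≤ BB b n := by
  by_cases h1 : us b (n + 1) = true
  · exact BB_ge_right hb hn.le hu h1
  · rw [Bool.not_eq_true] at h1
    have h2 : rn b n = n + 1 := by
      unfold rn
      rw [h1]
      simp
    rw [h2] at h
    have := bb_same hb hn h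
    unfold BB
    omega

end

end Pool.Agent.Work.MP_b30479_gt.G2.SR
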