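import Pool.Agent.Work.MP_b30479_gt.G2.SIm
import Pool.Agent.Work.MP_b30479_gt.G2.Hess

/-!
# The saddle point structure from local conditions
-/

namespace Pool.Agent.Work.MP_b30479_gt.G2

open Finset VOL

/-- the condition at a hinge `w` of a kernel with one crossing with the other variable `w'` -/
def K1s (b : ℤ) (w w' : ℂ) : Prop :=
  |(jj b * (Real.pi * (1 - w')) + ph (w + w') - ph (1 - w)).im| < Real.pi

/-- the local conditions at the saddle point; `b`: the digit (only its sign is used) -/
def RunOk (b : ℤ) : Typ → Bool → Bool → (Fin 3 → ℂ) → Prop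
  | .one, true, true, x => 0 < (x 0).re ∧ (x 0).re < 1 / 2 ∧ 0 < (x 2).re ∧ (x 2).re < 1 / 2 ∧
      K1s b (x 0) (x 2) ∧ K1s b (x 2) (x 0) ∧ ((Hg (x 0) ∧ Hg (x 2)) ∨ 1 / 2 < (x 0).re + (x 2).re)
  | .two, true, true, x => Hg (x 0) ∧ Hg (x 2) ∧ K2 (x 0) (x 2) ∧ K2 (x 2) (x 0)
  | .two, true, false, x => x 2 = 0 ∧ 0 < (x 0).re ∧ (x 0).re < 1 / 2
  | .two, false, true, x => x 0 = 0 ∧ 0 < (x 2).re ∧ (x 2).re < 1 / 2
  | .threeL, true, true, x => Hl (x 0) (x 1) ∧ (x 0).re < 1 / 2 ∧ 0 < (x 2).re ∧
      (x 2).re < 1 / 2 ∧ 1 / 2 ≤ (x 1).re + (x 2).re ∧ (x 1).re + (x 2).re < 1 ∧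
      (x 1).re ≤ (x 2).re + 1 / 2
  | .threeL, true, false, x => x 2 = 0 ∧ 0 < (x 0).re ∧ (x 0).re < 1 / 2 ∧
      0 < (x 1).re - (x 0).re ∧ (x 1).re - (x 0).re < 1 / 2
  | .threeR, true, true, x => Hl (x 2) (x 1) ∧ (x 2).re < 1 / 2 ∧ 0 < (x 0).re ∧
      (x 0).re < 1 / 2 ∧ 1 / 2 ≤ (x 1).re + (x 0).re ∧ (x 1).re + (x 0).re < 1 ∧
      (x 1).re ≤ (x 0).re + 1 / 2
  | .threeR, false, true, x => x 0 = 0 ∧ 0 < (x 2).re ∧ (x 2).re < 1 / 2 ∧
      0 < (x 1).re - (x 2).re ∧ (x 1).re - (x 2).re < 1 / 2
  | .ring, l, r, x => (l = true ∨ r = true) ∧ (l = true → KZ (x 0) (x 1) ∧ Hr (x 0) (x 1)) ∧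
      (r = true → KZ (x 2) (x 1) ∧ Hr (x 2) (x 1))
  | _, _, _, _ => False

variable {T : Typ} {b : ℤ} {l r : Bool} {x : Fin 3 → ℂ}

theorem RunOk.sideIm (h : RunOk b T l r x) : SideIm T b l r x := by
  cases T
  case one =>
    cases l <;> cases r <;> simp only [RunOk] at h
    obtain ⟨h1, h2, h3, h4, h5, h6, _⟩ := h
    refine ⟨fun _ => ?_, fun _ => ?_⟩
    · rw [ldT_one_zero]
      exact h5
    · rw [ldT_one_two, add_comm (x 0) (x 2)]
      exact h6
  case two =>
    cases l <;> cases r <;> simp only [RunOk] at h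
    · exact sideIm_two_left h.1 h.2.1 h.2.2
    · exact sideIm_two_right h.1 h.2.1 h.2.2
    · obtain ⟨h1, h2, h3, h4⟩ := h
      exact sideIm_two h1.1 h1.2.1 h2.1 h2.2.1 h3 h4
  case threeL =>
    cases l <;> cases r <;> simp only [RunOk] at h
    · obtain ⟨h0, h1, h2, h3, h4⟩ := h
      exact sideIm_threeL h1 h2 h3 h4.le fun h => absurd h (by decide)
    · obtain ⟨h1, h2, h3, h4, h5, h6, h7⟩ := h
      exact sideIm_threeL h1.1 h2 h1.2.2.1 h1.2.2.2.1 fun _ => ⟨h3, h4, h6, h7, Or.inl (by linarith only [h5])⟩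
  case threeR =>
    cases l <;> cases r <;> simp only [RunOk] at h
    · obtain ⟨h0, h1, h2, h3, h4⟩ := h
      exact sideIm_threeR h1 h2 h3 h4.le fun h => absurd h (by decide)
    · obtain ⟨h1, h2, h3, h4, h5, h6, h7⟩ := h
      exact sideIm_threeR h1.1 h2 h1.2.2.1 h1.2.2.2.1 fun _ => ⟨h3, h4, by linarith only [h6], h7,
        Or.inl (by linarith only [h5])⟩
  case ring =>
    obtain ⟨_, h1, h2⟩ := h
    exact sideIm_ring (fun hl => (h1 hl).1) fun hr => (h2 hr).1
  all_goals cases l <;> cases r <;> simp only [RunOk] at h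

theorem RunOk.neg {c : ℤ} (h : RunOk c T l r x) : Neg T b l r x := by
  cases T
  case one =>
    cases l <;> cases r <;> simp only [RunOk] at h
    obtain ⟨h1, h2, h3, h4, h5, h6, h7⟩ := h
    rcases h7 with ⟨h7, h8⟩ | h7
    · exact neg_one h7 h8
    · exact neg_one' h1 h2.le h3 h4.le h7 (by linarith only [h2, h4])
  case two =>
    cases l <;> cases r <;> simp only [RunOk] at h
    · exact neg_two_left h.1 h.2.1 h.2.2
    · exact neg_two_right h.1 h.2.1 h.2.2
    · exact neg_two h.1 h.2.1
  case threeL =>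
    cases l <;> cases r <;> simp only [RunOk] at h
    · obtain ⟨h0, h1, h2, h3, h4⟩ := h
      exact neg_three_right h0 h1 h2 h3 h4
    · obtain ⟨h1, h2, h3, h4, h5, h6, h7⟩ := h
      exact neg_threeL h1 h3 h4 h5 h6
  case threeR =>
    cases l <;> cases r <;> simp only [RunOk] at h
    · obtain ⟨h0, h1, h2, h3, h4⟩ := h
      exact neg_three_left h0 h1 h2 h3 h4
    · obtain ⟨h1, h2, h3, h4, h5, h6, h7⟩ := h
      exact neg_threeR h1 h3 h4 h5 h6
  case ring =>
    obtain ⟨h0, h1, h2⟩ := h
    exact neg_ring h0 (fun hl => (h1 hl).2) fun hr => (h2 hr).2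
  all_goals cases l <;> cases r <;> simp only [RunOk] at h

theorem RunOk.inn (h : RunOk b T l r x) :
    ∀ f ∈ facs T l r, 0 < (f.form x).re ∧ (f.form x).re < 1 := by
  have key : ∀ f ∈ facs T l r, 0 < f.a + (f.α 0 * (x 0).re + f.α 1 * (x 1).re +
      f.α 2 * (x 2).re) ∧ f.a + (f.α 0 * (x 0).re + f.α 1 * (x 1).re + f.α 2 * (x 2).re) < 1 := by
    cases T
    case one =>
      cases l <;> cases r <;> simp only [RunOk] at h
      obtain ⟨h1, h2, h3, h4, h5, h6, h7⟩ := h
      simp only [facs, if_true, Bool.or_self, List.nil_append, List.cons_append,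
        List.forall_mem_cons, Matrix.cons_val]
      push_cast
      refine ⟨⟨by linarith only [h1, h3], by linarith only [h2, h4]⟩, ⟨by linarith only [h1, h2], by linarith only [h1]⟩, ⟨by linarith only [h1, h2, h4], by linarith only [h3]⟩,
        by simp⟩
    case two =>
      cases l <;> cases r <;> simp only [RunOk] at h
      · obtain ⟨h0, h1, h2⟩ := h
        have h0' : (x 0).re = 0 := by rw [h0]; simp
        simp only [facs, hL, hR, if_true, Bool.false_eq_true, if_false, Bool.or_true,
          List.append_nil, List.nil_append, List.cons_append, List.forall_mem_cons, Matrix.cons_val,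
          h0']
        push_cast
        refine ⟨⟨by linarith only [h1], by linarith only [h1, h2]⟩, ⟨by linarith only [h1, h2], by linarith only [h1]⟩, ⟨by linarith only [h1, h2], by linarith only [h1]⟩,
          by simp⟩
      · obtain ⟨h0, h1, h2⟩ := h
        have h0' : (x 2).re = 0 := by rw [h0]; simp
        simp only [facs, hL, hR, if_true, Bool.false_eq_true, if_false, Bool.or_false,
          List.append_nil, List.nil_append, List.cons_append, List.forall_mem_cons, Matrix.cons_val,
          h0']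
        push_cast
        refine ⟨⟨by linarith only [h1], by linarith only [h1, h2]⟩, ⟨by linarith only [h1, h2], by linarith only [h1]⟩, ⟨by linarith only [h1, h2], by linarith only [h1]⟩,
          by simp⟩
      · obtain ⟨h1, h2, _, _⟩ := h
        obtain ⟨a1, a2, _⟩ := h1
        obtain ⟨b1, b2, _⟩ := h2
        simp only [facs, hL, hR, if_true, Bool.or_self, List.nil_append, List.cons_append,
          List.forall_mem_cons, Matrix.cons_val]
        push_cast
        refine ⟨⟨by linarith only [a1, b1], by linarith only [a2, b2]⟩, ⟨by linarith only [a1, a2], by linarith only [a1]⟩, ⟨by linarith only [a1, a2], by linarith only [a1]⟩,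
          ⟨by linarith only [a1, a2, b2], by linarith only [b1]⟩, ⟨by linarith only [a1, a2, b2], by linarith only [b1]⟩, by simp⟩
    case threeL =>
      cases l <;> cases r <;> simp only [RunOk] at h
      · obtain ⟨h0, h1, h2, h3, h4⟩ := h
        have h0' : (x 2).re = 0 := by rw [h0]; simp
        simp only [facs, hR, if_true, Bool.false_eq_true, if_false,
          List.append_nil, List.nil_append, List.cons_append, List.forall_mem_cons, Matrix.cons_val,
          h0']
        push_cast
        refine ⟨⟨by linarith only [h1, h3], by linarith only [h2, h4]⟩, ⟨by linarith only [h1, h2, h4], by linarith only [h3]⟩, ⟨by linarith only [h2, h4], by linarith only [h1, h3]⟩,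
          ⟨by linarith only [h1, h2], by linarith only [h1]⟩, by simp⟩
      · obtain ⟨h1, h2, h3, h4, h5, h6, h7⟩ := h
        obtain ⟨a1, a2, a3, a4, _⟩ := h1
        simp only [facs, hR, if_true, List.nil_append, List.cons_append,
          List.forall_mem_cons, Matrix.cons_val]
        push_cast
        refine ⟨⟨by linarith only [h3, a1, a3], by linarith only [h6]⟩, ⟨by linarith only [h3, h6, a1], by linarith only [a3]⟩, ⟨by linarith only [h3, h6], by linarith only [a1, a3]⟩,
          ⟨by linarith only [h2, a1], by linarith only [a1]⟩, ⟨by linarith only [h2, h4, a1], by linarith only [h3]⟩, ⟨by linarith only [h2, h4, a1], by linarith only [h3]⟩,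
          by simp⟩
    case threeR =>
      cases l <;> cases r <;> simp only [RunOk] at h
      · obtain ⟨h0, h1, h2, h3, h4⟩ := h
        have h0' : (x 0).re = 0 := by rw [h0]; simp
        simp only [facs, hL, if_true, Bool.false_eq_true, if_false,
          List.append_nil, List.nil_append, List.cons_append, List.forall_mem_cons, Matrix.cons_val,
          h0']
        push_cast
        refine ⟨⟨by linarith only [h1, h3], by linarith only [h2, h4]⟩, ⟨by linarith only [h1, h2, h4], by linarith only [h3]⟩, ⟨by linarith only [h2, h4], by linarith only [h1, h3]⟩,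
          ⟨by linarith only [h1, h2], by linarith only [h1]⟩, by simp⟩
      · obtain ⟨h1, h2, h3, h4, h5, h6, h7⟩ := h
        obtain ⟨a1, a2, a3, a4, _⟩ := h1
        simp only [facs, hL, if_true, List.nil_append, List.cons_append,
          List.forall_mem_cons, Matrix.cons_val]
        push_cast
        refine ⟨⟨by linarith only [h3, a1, a3], by linarith only [h6]⟩, ⟨by linarith only [h3, h6, a1], by linarith only [a3]⟩, ⟨by linarith only [h3, h6], by linarith only [a1, a3]⟩,
          ⟨by linarith only [h2, h4, a1], by linarith only [h3]⟩, ⟨by linarith only [h2, h4, a1], by linarith only [h3]⟩, ⟨by linarith only [h2, a1], by linarith only [a1]⟩,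
          by simp⟩
    case ring =>
      obtain ⟨_, h1, h2⟩ := h
      have kz : ∀ {w ζ : ℂ}, KZ w ζ → 0 < w.re ∧ w.re < 1 / 2 ∧ w.re + ζ.re < 1 / 2 ∧
          w.re - ζ.re < 1 / 2 ∧ -(1 / 2) < ζ.re ∧ ζ.re < 1 / 2 := by
        intro w ζ h
        obtain ⟨a1, a2, _⟩ := h
        have a3 := abs_le.1 (le_refl |ζ.re|)
        have a4 := abs_nonneg ζ.re
        refine ⟨a1, by linarith only [a2, a3], by linarith only [a2, a3], by linarith only [a2, a3], by linarith only [a1, a2, a3], by linarith only [a1, a2, a3]⟩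
      cases l <;> cases r
      · simp [facs, hL, hR]
      · obtain ⟨a1, a2, a3, a4, a5, a6⟩ := kz (h2 rfl).1
        simp only [facs, hL, hR, if_true, Bool.false_eq_true, if_false,
          List.append_nil, List.nil_append, List.cons_append, List.forall_mem_cons, Matrix.cons_val]
        push_cast
        refine ⟨⟨by linarith only [a1, a4], by linarith only [a3]⟩, ⟨by linarith only [a1, a3], by linarith only [a4]⟩, ⟨by linarith only [a1, a2], by linarith only [a1]⟩,
          ⟨by linarith only [a1, a2], by linarith only [a1]⟩, by simp⟩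
      · obtain ⟨a1, a2, a3, a4, a5, a6⟩ := kz (h1 rfl).1
        simp only [facs, hL, hR, if_true, Bool.false_eq_true, if_false,
          List.append_nil, List.nil_append, List.cons_append, List.forall_mem_cons, Matrix.cons_val]
        push_cast
        refine ⟨⟨by linarith only [a1, a4], by linarith only [a3]⟩, ⟨by linarith only [a1, a3], by linarith only [a4]⟩, ⟨by linarith only [a1, a2], by linarith only [a1]⟩,
          ⟨by linarith only [a1, a2], by linarith only [a1]⟩, by simp⟩
      · obtain ⟨a1, a2, a3, a4, a5, a6⟩ := kz (h1 rfl).1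
        obtain ⟨b1, b2, b3, b4, b5, b6⟩ := kz (h2 rfl).1
        simp only [facs, hL, hR, if_true, List.nil_append, List.cons_append,
          List.forall_mem_cons, Matrix.cons_val]
        push_cast
        refine ⟨⟨by linarith only [a1, a4], by linarith only [a3]⟩, ⟨by linarith only [a1, a3], by linarith only [a4]⟩, ⟨by linarith only [a1, a2], by linarith only [a1]⟩,
          ⟨by linarith only [a1, a2], by linarith only [a1]⟩, ⟨by linarith only [a1, a4, b1], by linarith only [b3]⟩, ⟨by linarith only [a1, a3, b1], by linarith only [b4]⟩,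
          ⟨by linarith only [a1, a2, b2], by linarith only [b1]⟩, ⟨by linarith only [a1, a2, b2], by linarith only [b1]⟩, by simp⟩
    all_goals cases l <;> cases r <;> simp only [RunOk] at h
  intro f hf
  have e : (f.form x).re = f.a + (f.α 0 * (x 0).re + f.α 1 * (x 1).re + f.α 2 * (x 2).re) := by
    unfold Fac.form
    rw [Fin.sum_univ_three]
    simp
  rw [e]
  exact key f hf

section
variable {M : ℕ} {t : Fin (M + 1) → Typ} {b : Fin (M + 1) → ℤ} {z : DD t ⊕ ZZ t → ℂ}

/-- **The saddle point structure** from the algebraic equations, the local conditions and the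
domination. -/
theorem sadl_of {P : Par (DD t)} {nb : Finset (DD t) → Finset (DD t ⊕ ZZ t)}
    {q : Fin (M + 1) → ℂ} (hq : ∀ i, q i ≠ 0)
    (hrun : ∀ i, RunOk (b i) (t i) (fl i) (fr i) (xx t i z))
    (hside : ∀ i, Side (t i) (b i) (fl i) (fr i) (xx t i z) (q i))
    (hh : ∀ h : Fin M, 1 + ctg (z (.inl (.inl h))) ^ 2 = q h.castSucc + q h.succ)
    (hmid : ∀ m : {i : Fin (M + 1) // (t i).isMid = true},
      ldT (t m.1) (b m.1) (fl m.1) (fr m.1) (xx t m.1 z) 1 = 0)
    (hring : ∀ v : ZZ t, ldT (t v.1) (b v.1) (fl v.1) (fr v.1) (xx t v.1 z) 1 +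
      2 * Real.pi * Complex.I * (b v.1 * z (.inr v) + 1) = 0)
    (hpar : ∀ i, 0 < P.XM i ∧ P.XM i ≤ 1 ∧ 0 < P.cl i ∧ 0 < P.cr i ∧ P.cl i + P.cr i < P.XM i ∧
      0 < P.hu i ∧ 0 < P.hd i)
    (hnb : nb ∅ = ∅) (hnb' : ∀ R : Finset (DD t), ∀ i ∈ R, .inl i ∈ nb R)
    (hD : ∀ i, P.cl i < (z (.inl i)).re ∧ (z (.inl i)).re < P.XM i - P.cr i)
    (hZ : ∀ v, |(z (.inr v)).re| < 1 / 4 ∧ 0 < (z (.inr v)).im)
    (hdom : (∀ k, 0 < ((wdat t b).form k z).re ∧ ((wdat t b).form k z).re < 1) →
      (∀ i, (wdat t b).dT z i = 0) → (∀ X : DD t ⊕ ZZ t → ℝ, X ≠ 0 → ((wdat t b).Q2 z X).re < 0) →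
      ∀ R : Finset (DD t), (∀ i ∈ R, P.XM i < 1) → ∀ (y : DD t ⊕ ZZ t → ℂ) (p : DD t → ℝ),
      Adm (wdat t b) P z R (nb R) y p → (R = ∅ → p = 0 → y ≠ z) →
      (wdat t b).V y - 2 * Real.pi * ∑ i, p i < ((wdat t b).T z).re) :
    Sadl (wdat t b) P nb z := by
  have inner : ∀ k, 0 < ((wdat t b).form k z).re ∧ ((wdat t b).form k z).re < 1 := by
    intro k
    rw [wdat_form]
    exact (hrun k.1).inn _ (List.get_mem _ _)
  have crit : ∀ i, (wdat t b).dT z i = 0 :=
    crit_of hq hside hh (dT_hinge_im fun i => (hrun i).sideIm) hmid hring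
  have hess : ∀ X : DD t ⊕ ZZ t → ℝ, X ≠ 0 → ((wdat t b).Q2 z X).re < 0 :=
    hess_of t b z fun i => (hrun i).neg
  exact ⟨hpar, hnb, hnb', hD, hZ, inner, crit, hess, hdom inner crit hess⟩

end

end Pool.Agent.Work.MP_b30479_gt.G2
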