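import Pool.Agent.Work.MP_b30479_gt.G2.SWordC
import Pool.Agent.Work.MP_b30479_gt.G2.SadlOf

/-!
# The saddle point of a word
-/

namespace Pool.Agent.Work.MP_b30479_gt.G2

open Complex Set Filter Topology VOL
open scoped ComplexConjugate

/-- the variable with cotangent `R`, with real part in `[0, 1)`; it is `acot R` if `Re R > 0` -/
noncomputable def acot2 (R : ℂ) : ℂ := 1 / 2 - Complex.arctan R / Real.pi

lemma arctan_re (z : ℂ) : (Complex.arctan z).re = ((1 + z * I) / (1 - z * I)).arg / 2 := by
  unfold Complex.arctan
  rw [Complex.mul_re]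
  have h1 : (-I / 2 : ℂ).re = 0 := by simp
  have h2 : (-I / 2 : ℂ).im = -(1 / 2) := by norm_num
  rw [h1, h2, Complex.log_im]
  ring

theorem acot2_spec {R : ℂ} (h1 : R ≠ I) (h2 : R ≠ -I) :
    ctg (acot2 R) = R ∧ (acot2 R).re < 1 := by
  have hpi := Real.pi_pos
  have hpi' : (Real.pi : ℂ) ≠ 0 := by exact_mod_cast hpi.ne'
  constructor
  · unfold ctg acot2
    rw [show (Real.pi : ℂ) * (1 / 2 - Complex.arctan R / Real.pi) =
      Real.pi / 2 - Complex.arctan R by field_simp, Complex.cos_pi_div_two_sub,
      Complex.sin_pi_div_two_sub]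
    exact Complex.tan_arctan h1 h2
  · unfold acot2
    have h3 := Complex.neg_pi_lt_arg ((1 + R * I) / (1 - R * I))
    have h4 := arctan_re R
    have e : (1 / 2 - Complex.arctan R / Real.pi : ℂ).re = 1 / 2 - (Complex.arctan R).re / Real.pi := by
      rw [Complex.sub_re, Complex.div_ofReal_re]
      norm_num
    rw [e, h4]
    have h5 : -(1 / 2) < ((1 + R * I) / (1 - R * I)).arg / 2 / Real.pi := by
      rw [lt_div_iff₀ hpi]
      linarith only [h3]
    linarith only [h5]

theorem acot2_re_pos {R : ℂ} (h : 0 < R.re) : 0 < (acot2 R).re ∧ (acot2 R).re < 1 / 2 := by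
  have hpi := Real.pi_pos
  have h4 := arctan_re R
  have e : (acot2 R).re = 1 / 2 - (Complex.arctan R).re / Real.pi := by
    unfold acot2
    rw [Complex.sub_re, Complex.div_ofReal_re]
    norm_num
  have hn : 0 < Complex.normSq (1 - R * I) := by
    rw [Complex.normSq_pos]
    intro h5
    have := congrArg Complex.im h5
    simp at this
    linarith only [h, this]
  have him : 0 < ((1 + R * I) / (1 - R * I)).im := by
    rw [Complex.div_im]
    simp only [Complex.add_im, Complex.one_im, Complex.mul_im, Complex.I_re, mul_zero,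
      Complex.I_im, mul_one, zero_add, Complex.sub_re, Complex.one_re, Complex.mul_re, zero_sub,
      sub_neg_eq_add, Complex.add_re, Complex.sub_im]
    rw [← sub_div]
    apply div_pos _ hn
    nlinarith only [h]
  have h6 : 0 < ((1 + R * I) / (1 - R * I)).arg := by
    rcases lt_or_eq_of_le (Complex.arg_nonneg_iff.2 him.le) with h7 | h7
    · exact h7
    · exfalso
      have := (Complex.arg_eq_zero_iff.1 h7.symm).2
      linarith only [him, this]
  have h7 : ((1 + R * I) / (1 - R * I)).arg < Real.pi := by
    rcases lt_or_eq_of_le (Complex.arg_le_pi ((1 + R * I) / (1 - R * I))) with h8 | h8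
    · exact h8
    · exfalso
      have := (Complex.arg_eq_pi_iff.1 h8).2
      linarith only [him, this]
  rw [e, h4]
  have h8 : 0 < ((1 + R * I) / (1 - R * I)).arg / 2 / Real.pi := by positivity
  have h9 : ((1 + R * I) / (1 - R * I)).arg / 2 / Real.pi < 1 / 2 := by
    rw [div_lt_iff₀ hpi]
    linarith only [h7]
  constructor <;> linarith only [h9, h8]

lemma ne_I_of_re {R : ℂ} (h : 0 < R.re) : R ≠ I ∧ R ≠ -I := by
  constructor <;> rintro rfl <;> simp at h

/-- for `Re R > 0` this is helper function `acot` -/
theorem acot2_eq {R : ℂ} (h : 0 < R.re) : acot2 R = acot R := by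
  obtain ⟨a1, a2, a3, a4⟩ := acot_spec h
  obtain ⟨b1, b2⟩ := acot2_re_pos h
  obtain ⟨c1, _⟩ := acot2_spec (ne_I_of_re h).1 (ne_I_of_re h).2
  have hs : ∀ z : ℂ, 0 < z.re → z.re < 1 / 2 → z ∈ strip := fun z h1 h2 => ⟨h1, by linarith only [a1, a2, h2]⟩
  have hx : ex 1 (acot2 R) ^ 2 = ex 1 (acot R) ^ 2 := by
    have e1 := ctg_eq (b := 1) (hs _ b1 b2)
    have e2 := ctg_eq (b := 1) (hs _ a1 a2)
    rw [c1] at e1
    rw [a4] at e2
    have n1 := ex_sq_ne (b := 1) (hs _ b1 b2)
    have n2 := ex_sq_ne (b := 1) (hs _ a1 a2)
    have hj := jj_ne 1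
    have e3 := e1.symm.trans e2
    rw [div_eq_div_iff n1 n2] at e3
    have e4 : jj 1 * (2 * (ex 1 (acot R) ^ 2 - ex 1 (acot2 R) ^ 2)) = 0 := by
      linear_combination e3
    have e5 := (mul_eq_zero.1 e4).resolve_left hj
    linear_combination (-(1 : ℂ) / 2) * e5
  have hx2 : cexp (2 * (Real.pi * I * acot2 R)) = cexp (2 * (Real.pi * I * acot R)) := by
    have e : ∀ z, ex 1 z ^ 2 = cexp (2 * (Real.pi * I * z)) := fun z => by
      unfold ex jj
      rw [← Complex.exp_nat_mul]
      congr 1
      simp only [one_pos, if_true]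
      push_cast
      ring
    rw [← e, ← e, hx]
  obtain ⟨n, hn⟩ := Complex.exp_eq_exp_iff_exists_int.1 hx2
  have hpi := Real.pi_pos
  have hpi' : (Real.pi : ℂ) ≠ 0 := by exact_mod_cast hpi.ne'
  have hn2 : acot2 R = acot R + n := by
    have h3 : (2 * Real.pi * I : ℂ) ≠ 0 :=
      mul_ne_zero (mul_ne_zero two_ne_zero hpi') Complex.I_ne_zero
    apply mul_left_cancel₀ h3
    linear_combination hn
  have hre := congrArg Complex.re hn2
  rw [Complex.add_re, Complex.intCast_re] at hre
  have h5 : (n : ℝ) < 1 := by linarith only [a1, a2, b2, hre]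
  have h6 : (-1 : ℝ) < n := by linarith only [a1, a2, b1, hre]
  have h7 : n = 0 := by
    have : n < 1 := by exact_mod_cast h5
    have : -1 < n := by exact_mod_cast h6
    omega
  rw [hn2, h7]
  simp

namespace SR

variable {M : ℕ} (b : Fin (M + 1) → ℤ) (w : ℕ → ℂ)

/-- the types of the twist regions -/
def tyW (i : Fin (M + 1)) : Typ :=
  if (b i).natAbs = 1 then .one else if (b i).natAbs = 2 then .two
  else if (b i).natAbs = 3 then (if i = 0 then .threeR else .threeL) else .ring

/-- the cotangent of the inner variable of a region with three crossings -/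
noncomputable def Rm (n : ℕ) : ℂ :=
  Rs (jj (bb b n)) (Rh b w (if n = 0 then 0 else n - 1)) (tau b w n)

/-- the saddle point -/
noncomputable def zsW : DD (tyW b) ⊕ ZZ (tyW b) → ℂ
  | .inl (.inl h) => acot2 (Rh b w h.val)
  | .inl (.inr m) => acot2 (Rm b w m.1.val)
  | .inr v => -(sg b v.1.val : ℂ) * w v.1.val / Real.pi

/-- `P` on the left side of the ring `n` -/
noncomputable def PL (n : ℕ) : ℂ := -(sg b n : ℂ) * QQ (w n) (Complex.cos (w (ln b n))) +
  if us b (n - 1) then I * w n else 0

/-- `P` on the right side of the ring `n` -/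
noncomputable def PR (n : ℕ) : ℂ := -(sg b n : ℂ) * QQ (w n) (Complex.cos (w (rn b n))) +
  if us b (n + 1) then I * w n else 0

/-- the location of the saddle point: everything the critical point equations and the Hessian need -/
structure LocOK : Prop where
  hinge : ∀ n < M, Rh b w n ≠ I ∧ Rh b w n ≠ -I
  mid : ∀ i : Fin (M + 1), (b i).natAbs = 3 → Rm b w i.val ≠ I ∧ Rm b w i.val ≠ -I
  run : ∀ i, RunOk (b i) (tyW b i) (fl i) (fr i) (xx (tyW b) i (zsW b w))
  midL : ∀ i, tyW b i = .threeL →
    0 ≤ (xx (tyW b) i (zsW b w) 0 + xx (tyW b) i (zsW b w) 1 - xx (tyW b) i (zsW b w) 2).re ∧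
    (xx (tyW b) i (zsW b w) 0 + xx (tyW b) i (zsW b w) 1 - xx (tyW b) i (zsW b w) 2).re ≤ 1
  midR : ∀ i, tyW b i = .threeR →
    0 ≤ (xx (tyW b) i (zsW b w) 2 + xx (tyW b) i (zsW b w) 1 - xx (tyW b) i (zsW b w) 0).re ∧
    (xx (tyW b) i (zsW b w) 2 + xx (tyW b) i (zsW b w) 1 - xx (tyW b) i (zsW b w) 0).re ≤ 1
  pl : ∀ n, 0 < n → n ≤ M → 4 ≤ (bb b n).natAbs → |(PL b w n).im| ≤ Real.pi / 2
  pr : ∀ n < M, 4 ≤ (bb b n).natAbs → |(PR b w n).im| ≤ Real.pi / 2

variable {b w}

lemma tyW_ok (hb : ClassW b) (i : Fin (M + 1)) : (tyW b i).IsOk (b i) := by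
  unfold tyW
  split_ifs with h1 h2 h3 h4
  · exact h1
  · exact h2
  · exact h3
  · exact h3
  · exact hb.ne i

lemma x_left {i : Fin (M + 1)} (hi : 0 < i.val) :
    xx (tyW b) i (zsW b w) 0 = acot2 (Rh b w (i.val - 1)) := by
  have hM := i.2
  have e : i = (⟨i.val - 1, by omega⟩ : Fin M).succ := Fin.ext (by simp; omega)
  conv_lhs => rw [e, xx_left]
  rfl

lemma x_left0 : xx (tyW b) 0 (zsW b w) 0 = 0 := xx_left_zero _ _

lemma x_right {i : Fin (M + 1)} (hi : i.val < M) :
    xx (tyW b) i (zsW b w) 2 = acot2 (Rh b w i.val) := by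
  have e : i = (⟨i.val, hi⟩ : Fin M).castSucc := Fin.ext rfl
  conv_lhs => rw [e, xx_right]
  rfl

lemma x_rightM : xx (tyW b) (Fin.last M) (zsW b w) 2 = 0 := xx_right_last _ _

lemma x_mid {i : Fin (M + 1)} (hi : (tyW b i).isMid = true) :
    xx (tyW b) i (zsW b w) 1 = acot2 (Rm b w i.val) := by
  rw [xx_mid (tyW b) hi]
  rfl

lemma x_ring {i : Fin (M + 1)} (hi : (tyW b i).isRing = true) :
    xx (tyW b) i (zsW b w) 1 = -(sg b i.val : ℂ) * w i.val / Real.pi := by
  rw [xx_ring (tyW b) hi]
  rfl

lemma bb_val (i : Fin (M + 1)) : bb b i.val = b i := bb_lt i.2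

lemma us_of_abs {i : Fin (M + 1)} (h : (b i).natAbs ≠ 1) : us b i.val = false := by
  by_contra hc
  rw [Bool.not_eq_false] at hc
  have := (us_true hc).2.1
  rw [bb_val] at this
  exact h this

lemma cos_ring (n : ℕ) : Complex.cos (Real.pi * (-(sg b n : ℂ) * w n / Real.pi)) =
    Complex.cos (w n) := by
  have hpi' : (Real.pi : ℂ) ≠ 0 := by exact_mod_cast Real.pi_pos.ne'
  rcases sg_or (b := b) n with h | h
  · rw [h]
    rw [show (Real.pi : ℂ) * (-((1 : ℝ) : ℂ) * w n / Real.pi) = -w n by
      push_cast
      field_simp, Complex.cos_neg]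
  · rw [h]
    rw [show (Real.pi : ℂ) * (-((-1 : ℝ) : ℂ) * w n / Real.pi) = w n by
      push_cast
      field_simp]

lemma sin_ring (n : ℕ) : Complex.sin (Real.pi * (-(sg b n : ℂ) * w n / Real.pi)) =
    -(sg b n : ℂ) * Complex.sin (w n) := by
  have hpi' : (Real.pi : ℂ) ≠ 0 := by exact_mod_cast Real.pi_pos.ne'
  rcases sg_or (b := b) n with h | h
  · rw [h]
    rw [show (Real.pi : ℂ) * (-((1 : ℝ) : ℂ) * w n / Real.pi) = -w n by
      push_cast
      field_simp, Complex.sin_neg]
    push_cast
    ring
  · rw [h]
    rw [show (Real.pi : ℂ) * (-((-1 : ℝ) : ℂ) * w n / Real.pi) = w n by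
      push_cast
      field_simp]
    push_cast
    ring

variable (hb : ClassW b) (F : RingFacts) (hw : Sol b w) (L : LocOK b w)
include L

lemma ctg_left {i : Fin (M + 1)} (hi : 0 < i.val) :
    ctg (xx (tyW b) i (zsW b w) 0) = Rh b w (i.val - 1) := by
  have h2 := i.2
  have h := L.hinge (i.val - 1) (by omega)
  rw [x_left hi]
  exact (acot2_spec h.1 h.2).1

lemma ctg_right {i : Fin (M + 1)} (hi : i.val < M) :
    ctg (xx (tyW b) i (zsW b w) 2) = Rh b w i.val := by
  have h := L.hinge i.val hi
  rw [x_right hi]
  exact (acot2_spec h.1 h.2).1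

lemma ctg_mid {i : Fin (M + 1)} (h3 : (b i).natAbs = 3) :
    ctg (xx (tyW b) i (zsW b w) 1) = Rm b w i.val ∧ (xx (tyW b) i (zsW b w) 1).re < 1 := by
  have hm : (tyW b i).isMid = true := by
    unfold tyW
    rw [if_neg (by omega), if_neg (by omega), if_pos h3]
    split_ifs <;> rfl
  have h := L.mid i h3
  rw [x_mid hm]
  exact acot2_spec h.1 h.2

/-- hinge cotangents next to a ring are not `-j` -/
lemma Rh_add_ne {n : ℕ} (hn : n < M) (c : ℤ) : Rh b w n + jj c ≠ 0 := by
  obtain ⟨h1, h2⟩ := L.hinge n hn
  intro h
  have h3 : Rh b w n = -jj c := by linear_combination h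
  unfold jj at h3
  split_ifs at h3
  · apply h2
    rw [h3]
    ring
  · apply h1
    rw [h3]
    ring

include hb F hw

lemma qv_ne {n : ℕ} (hn : n ≤ M) : qv b w n ≠ 0 := by
  by_cases h : us b n = true
  · have h1 := us_lt hb h
    rw [qv_abs h]
    exact neg_ne_zero.2 (mul_ne_zero (Rh_add_ne L (by omega) _)
      (Rh_add_ne L (by omega) _))
  · rw [Bool.not_eq_true] at h
    rw [qv_ring h]
    exact one_div_ne_zero (pow_ne_zero 2 (cos_ne F hw hn h))

/-- the sides -/
theorem side_all (hM : 1 ≤ M) (i : Fin (M + 1)) :
    Side (tyW b i) (b i) (fl i) (fr i) (xx (tyW b) i (zsW b w)) (qv b w i.val) ∧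
      (tyW b i = .threeL → cexp (ldT .threeL (b i) (fl i) (fr i) (xx (tyW b) i (zsW b w)) 1) = 1) ∧
      (tyW b i = .threeR → cexp (ldT .threeR (b i) (fl i) (fr i) (xx (tyW b) i (zsW b w)) 1) = 1) := by
  have hi := i.2
  have hrun := L.run i
  have hqne := qv_ne hb F hw L (n := i.val) (by omega)
  have hfl0 : i.val = 0 → fl i = false := fun h => by
    have : i = 0 := Fin.ext h
    simp [fl, this]
  have hfl1 : 0 < i.val → fl i = true := fun h => by
    have : i ≠ 0 := fun h2 => by rw [h2] at h; simp at h
    simp [fl, this]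
  have hfr0 : i.val = M → fr i = false := fun h => by
    have : i = Fin.last M := Fin.ext h
    simp [fr, this]
  have hfr1 : i.val < M → fr i = true := fun h => by
    have : i ≠ Fin.last M := fun h2 => by rw [h2] at h; simp at h
    simp [fr, this]
  have hstr : ∀ z : ℂ, 0 < z.re → z.re < 1 → z ∈ strip := fun z h1 h2 => ⟨h1, h2⟩
  by_cases h1 : (b i).natAbs = 1
  · -- one crossing
    have ht : tyW b i = .one := by unfold tyW; rw [if_pos h1]
    have hi0 : 0 < i.val := by
      by_contra hc
      have h2 := hb.first
      have h3 : i = 0 := Fin.ext (by show i.val = 0; omega)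
      rw [h3] at h1
      omega
    have hiM : i.val < M := by
      by_contra hc
      have h2 := hb.last
      have h3 : i = Fin.last M := Fin.ext (by show i.val = M; omega)
      rw [h3] at h1
      omega
    have hcl := ctg_left L hi0
    have hcr := ctg_right L hiM
    rw [ht] at hrun ⊢
    rw [hfl1 hi0, hfr1 hiM] at hrun ⊢
    simp only [RunOk] at hrun
    obtain ⟨r1, r2, r3, r4, _⟩ := hrun
    refine ⟨?_, fun h => absurd h (by decide), fun h => absurd h (by decide)⟩
    refine side_one (hstr _ r1 (by linarith only [r1, r2])) (hstr _ r3 (by linarith only [r1, r2, r4]))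
      (hstr _ (by rw [Complex.add_re]; linarith only [r1, r3]) (by rw [Complex.add_re]; linarith only [r2, r4])) ?_
    rw [hcl, hcr]
    by_cases hu : us b i.val = true
    · rw [qv_abs hu, bb_val]
    · rw [Bool.not_eq_true] at hu
      have hr := ring_inner hb F hw hi0 hiM hu
      rw [bb_val, h1] at hr
      rw [qv_tau F hw (by omega) hu]
      exact RE_one (jj_sq _) (tau_ne hw (by omega) hu) hr
  · have hu := us_of_abs h1
    have hτ := tau_ne hw (n := i.val) (by omega) hu
    by_cases h2 : (b i).natAbs = 2
    · -- two crossings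
      have ht : tyW b i = .two := by unfold tyW; rw [if_neg h1, if_pos h2]
      rw [ht] at hrun ⊢
      refine ⟨?_, fun h => absurd h (by decide), fun h => absurd h (by decide)⟩
      by_cases hi0 : i.val = 0
      · have e0 : i = 0 := Fin.ext (by show i.val = 0; omega)
        have hiM : i.val < M := by omega
        have hcr := ctg_right L hiM
        rw [hfl0 hi0, hfr1 hiM] at hrun ⊢
        simp only [RunOk] at hrun
        obtain ⟨r0', r1, r2⟩ := hrun
        refine side_two_left r0' (hstr _ r1 (by linarith only [r1, r2])) ?_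
        rw [hcr, qv_tau F hw (by omega) hu]
        have hr := ring_first hb F hw hM
        rw [← hi0, bb_val, h2] at hr
        exact RE1_two (jj_sq _) hτ hr
      · by_cases hiM : i.val = M
        · have hi0' : 0 < i.val := by omega
          have hcl := ctg_left L hi0'
          rw [hfl1 hi0', hfr0 hiM] at hrun ⊢
          simp only [RunOk] at hrun
          obtain ⟨r0', r1, r2⟩ := hrun
          refine side_two_right r0' (hstr _ r1 (by linarith only [r1, r2])) ?_
          rw [hcl, qv_tau F hw (by omega) hu]
          have hr : RE1 (jj (bb b i.val)) (bb b i.val).natAbs (Rh b w (i.val - 1))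
              (tau b w i.val) := by
            have h := ring_last hb F hw hM
            rw [hiM]
            exact h
          rw [bb_val, h2] at hr
          exact RE1_two (jj_sq _) hτ hr
        · have hi0' : 0 < i.val := by omega
          have hiM' : i.val < M := by omega
          have hcl := ctg_left L hi0'
          have hcr := ctg_right L hiM'
          rw [hfl1 hi0', hfr1 hiM'] at hrun ⊢
          simp only [RunOk] at hrun
          obtain ⟨g1, g2, _, _⟩ := hrun
          refine side_two hqne (hstr _ g1.1 (by linarith only [g1, g1.2.1])) (hstr _ g2.1 (by linarith only [g2, g2.2.1]))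
            (hstr _ (by rw [Complex.add_re]; linarith only [g1, g2, g1.1, g2.1])
              (by rw [Complex.add_re]; linarith only [g1, g2, g1.2.1, g2.2.1])) ?_
          rw [hcl, hcr, qv_tau F hw (by omega) hu]
          have hr := ring_inner hb F hw hi0' hiM' hu
          rw [bb_val, h2] at hr
          exact RE_two (jj_sq _) hτ hr
    · by_cases h3 : (b i).natAbs = 3
      · -- three crossings
        obtain ⟨hcm, hm1⟩ := ctg_mid L h3
        by_cases hi0 : i.val = 0
        · have e0 : i = 0 := Fin.ext (by show i.val = 0; omega)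
          have ht : tyW b i = .threeR := by
            unfold tyW
            rw [if_neg h1, if_neg h2, if_pos h3, if_pos e0]
          have hiM : i.val < M := by omega
          have hcr := ctg_right L hiM
          rw [ht] at hrun ⊢
          rw [hfl0 hi0, hfr1 hiM] at hrun ⊢
          simp only [RunOk] at hrun
          obtain ⟨r0', r1, r2, r3, r4⟩ := hrun
          have hRm : Rm b w i.val = Rs (jj (bb b i.val)) (Rh b w 0) (tau b w i.val) := by
            unfold Rm
            rw [if_pos hi0]
          have hr := ring_first hb F hw hM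
          rw [← hi0, bb_val, h3] at hr
          have hne := Rh_add_ne L (n := i.val) hiM (b i)
          obtain ⟨q1, q2⟩ := RE1_three (jj_sq _) hne hτ hr
          rw [hi0] at hcr
          have hx := side_three_left (b := b i) (x := xx (tyW b) i (zsW b w)) (q := qv b w i.val)
            r0' (hstr _ r1 (by linarith only [r1, r2])) (hstr _ (by linarith only [r1, r3]) hm1)
            (hstr _ (by rw [Complex.sub_re]; linarith only [r3]) (by rw [Complex.sub_re]; linarith only [hm1, r1]))
            (by rw [hcm, hRm, bb_val, qv_tau F hw (by omega) hu, hcr]; rw [hi0] at q1 ⊢; exact q1)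
            (by rw [hcm, hRm, bb_val, qv_tau F hw (by omega) hu]; rw [hi0] at q2 ⊢; exact q2)
          exact ⟨hx.1, fun h => absurd h (by decide), fun _ => hx.2⟩
        · have e0 : i ≠ 0 := fun h => hi0 (by rw [h]; simp)
          have ht : tyW b i = .threeL := by
            unfold tyW
            rw [if_neg h1, if_neg h2, if_pos h3, if_neg e0]
          have hi0' : 0 < i.val := by omega
          have hcl := ctg_left L hi0'
          have hRm : Rm b w i.val =
              Rs (jj (bb b i.val)) (Rh b w (i.val - 1)) (tau b w i.val) := by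
            unfold Rm
            rw [if_neg hi0]
          have hne := Rh_add_ne L (n := i.val - 1) (by omega) (b i)
          by_cases hiM : i.val = M
          · rw [ht] at hrun ⊢
            rw [hfl1 hi0', hfr0 hiM] at hrun ⊢
            simp only [RunOk] at hrun
            obtain ⟨r0', r1, r2, r3, r4⟩ := hrun
            have hr : RE1 (jj (bb b i.val)) (bb b i.val).natAbs (Rh b w (i.val - 1))
                (tau b w i.val) := by
              have h := ring_last hb F hw hM
              rw [hiM]
              exact h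
            rw [bb_val, h3] at hr
            obtain ⟨q1, q2⟩ := RE1_three (jj_sq _) hne hτ hr
            have hx := side_three_right (b := b i) (x := xx (tyW b) i (zsW b w))
              (q := qv b w i.val)
              r0' (hstr _ r1 (by linarith only [r1, r2])) (hstr _ (by linarith only [r1, r3]) hm1)
              (hstr _ (by rw [Complex.sub_re]; linarith only [r3]) (by rw [Complex.sub_re]; linarith only [hm1, r1]))
              (by rw [hcm, hRm, bb_val, qv_tau F hw (by omega) hu, hcl]; exact q1)
              (by rw [hcm, hRm, bb_val, qv_tau F hw (by omega) hu]; exact q2)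
            exact ⟨hx.1, fun _ => hx.2, fun h => absurd h (by decide)⟩
          · have hiM' : i.val < M := by omega
            have hcr := ctg_right L hiM'
            rw [ht] at hrun ⊢
            rw [hfl1 hi0', hfr1 hiM'] at hrun ⊢
            simp only [RunOk] at hrun
            obtain ⟨g1, g2, g3, g4, g5, g6, g7⟩ := hrun
            have hr := ring_inner hb F hw hi0' hiM' hu
            rw [bb_val, h3] at hr
            obtain ⟨q1, q2⟩ := RE_three (jj_sq _) hne hτ hr
            have hx := side_threeL (b := b i) (x := xx (tyW b) i (zsW b w)) (q := qv b w i.val)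
              (hstr _ g1.1 (by linarith only [g2, g3, g4])) (hstr _ (by linarith only [g4, g5, g1.1, g1.2.2.1]) hm1)
              (hstr _ g3 (by linarith only [g3, g4]))
              (hstr _ (by rw [Complex.sub_re]; exact g1.2.2.1)
                (by rw [Complex.sub_re]; linarith only [g3, g4, g1, g1.2.2.2.1]))
              (hstr _ (by rw [Complex.add_re]; linarith only [g3, g4, g5]) (by rw [Complex.add_re]; exact g6))
              (by rw [hcm, hRm, bb_val, qv_tau F hw (by omega) hu, hcl]; exact q1)
              (by rw [hcm, hRm, bb_val, qv_tau F hw (by omega) hu, hcr]; exact q2)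
            exact ⟨hx.1, fun _ => hx.2, fun h => absurd h (by decide)⟩
      · -- a ring
        have ht : tyW b i = .ring := by
          unfold tyW
          rw [if_neg h1, if_neg h2, if_neg h3]
        have hring : (tyW b i).isRing = true := by rw [ht]; rfl
        have hx1 := x_ring (w := w) hring
        rw [ht] at hrun ⊢
        simp only [RunOk] at hrun
        obtain ⟨_, hl, hr⟩ := hrun
        refine ⟨side_ring ?_ ?_ ?_, fun h => absurd h (by decide), fun h => absurd h (by decide)⟩
        · rw [hx1, cos_ring, qv_ring hu]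
          have := cos_ne F hw (n := i.val) (by omega) hu
          field_simp
        · intro h
          obtain ⟨⟨k1, k2, _⟩, _⟩ := hl h
          have := abs_le.1 (le_refl |(xx (tyW b) i (zsW b w) 1).re|)
          refine ⟨hstr _ k1 (by linarith only [k1, k2, this, abs_nonneg (xx (tyW b) i (zsW b w) 1).re]), hstr _ ?_ ?_,
            hstr _ ?_ ?_⟩
          · simp only [Complex.add_re, Complex.one_re, Complex.div_ofNat_re]
            linarith only [k1, k2, this, this.1]
          · simp only [Complex.add_re, Complex.one_re, Complex.div_ofNat_re]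
            linarith only [k2, this, this.2]
          · simp only [Complex.add_re, Complex.sub_re, Complex.one_re, Complex.div_ofNat_re]
            linarith only [k1, k2, this, this.2]
          · simp only [Complex.add_re, Complex.sub_re, Complex.one_re, Complex.div_ofNat_re]
            linarith only [k2, this, this.1]
        · intro h
          obtain ⟨⟨k1, k2, _⟩, _⟩ := hr h
          have := abs_le.1 (le_refl |(xx (tyW b) i (zsW b w) 1).re|)
          refine ⟨hstr _ k1 (by linarith only [k1, k2, this, abs_nonneg (xx (tyW b) i (zsW b w) 1).re]), hstr _ ?_ ?_,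
            hstr _ ?_ ?_⟩
          · simp only [Complex.add_re, Complex.one_re, Complex.div_ofNat_re]
            linarith only [k1, k2, this, this.1]
          · simp only [Complex.add_re, Complex.one_re, Complex.div_ofNat_re]
            linarith only [k2, this, this.2]
          · simp only [Complex.add_re, Complex.sub_re, Complex.one_re, Complex.div_ofNat_re]
            linarith only [k1, k2, this, this.2]
          · simp only [Complex.add_re, Complex.sub_re, Complex.one_re, Complex.div_ofNat_re]
            linarith only [k2, this, this.1]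

end SR

end Pool.Agent.Work.MP_b30479_gt.G2
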