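import Pool.Agent.Work.MP_b30479_gt.G2.SWordL
import Pool.Agent.Work.MP_b30479_gt.G2.WLocP

/-!
# Two adjacent digits `±1`: one of them is absorbed, the other is a ring

`Adj.one_view`: the three hinges as hinges of the ring; `locP_of_rows`.
-/

namespace Pool.Agent.Work.MP_b30479_gt.G2

open Complex Set Filter Topology VOL
open scoped ComplexConjugate

namespace SR

section view

variable {M : ℕ} {b : Fin (M + 1) → ℤ} {w : ℕ → ℂ}

/-- one of two adjacent digits `±1` is absorbed -/
lemma us_or {n : ℕ} (h1 : (bb b (n + 1)).natAbs = 1) : us b n = true ∨ us b (n + 1) = true := by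
  by_cases h : us b n = true
  · exact Or.inl h
  · right
    rw [us_succ, decide_eq_true h1]
    simpa using h

lemma abs_one {i : Fin (M + 1)} (h : clsW b i = .one) : (b i).natAbs = 1 := by
  unfold clsW cls at h
  split_ifs at h with h1
  exact h1

/-- an absorbed digit has neighbours which are not absorbed -/
lemma us_next {h : Fin M} {i j : Fin (M + 1)} {p : Fin 3} (A : Adj h i p j)
    (hu : us b i.val = true) : us b j.val = false := by
  have h1 := us_true hu
  rcases A.elim with ⟨-, e1, e2⟩ | ⟨-, e1, e2⟩
  · rw [show j.val = i.val + 1 by omega]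
    exact h1.2.2.2
  · rw [show j.val = i.val - 1 by omega]
    exact h1.2.2.1

/-- one of two adjacent digits `±1` is absorbed -/
lemma us_pair {h : Fin M} {i j : Fin (M + 1)} {p : Fin 3} (A : Adj h i p j)
    (hi : clsW b i = .one) (hj : clsW b j = .one) :
    us b i.val = true ∨ us b j.val = true := by
  have h1 := abs_one hi
  have h2 := abs_one hj
  rcases A.elim with ⟨-, e1, e2⟩ | ⟨-, e1, e2⟩
  · rw [e1, e2]
    apply us_or
    rw [← e2, bb_val]
    exact h2
  · rw [e1, e2]
    refine (us_or ?_).symm
    rw [← e1, bb_val]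
    exact h1

section
variable (hb : ClassW b) (F : RingFacts) (hw : Sol b w) {K : KFam} (hK : Snd K b w)
variable {h h' h'' : Fin M} {i j k l : Fin (M + 1)} {p : Fin 3}
include hb F hw hK

omit hb F hw hK in
lemma cls_lk {i : Fin (M + 1)} (hi : i.val < M) : clsW b i = cK (dg b i.val) (lk b i.val) := by
  refine clsW_eq _ ⟨fun h5 => ?_, ?_⟩
  · left
    by_contra hc
    exact lk_ne_e (by omega) h5
  · rintro (h5 | h5)
    · rw [h5]
      exact lk_e
    · omega

omit hb F hw hK in
lemma cls_rk {i : Fin (M + 1)} (hi : 0 < i.val) : clsW b i = cK (dg b i.val) (rk b i.val) := by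
  have := i.2
  refine clsW_eq _ ⟨fun h5 => ?_, ?_⟩
  · right
    by_contra hc
    exact rk_ne_e (by omega) h5
  · rintro (h5 | h5)
    · omega
    · exact rk_e (by omega)

omit hK in
/-- the values of the two rings at an absorbed digit, seen from both -/
theorem absd_eqs {m : ℕ} (hu : us b (m + 1) = true) :
    RR (oW b w (m + 2)) (oL b w (m + 2)) = RR (oW b w m) (oR b w m) ∧
    Complex.cos (oW b w (m + 2)) = oR b w m ∧ oL b w (m + 2) = Complex.cos (oW b w m) := by
  obtain ⟨h1, h2, h3, h4⟩ := us_true hu
  have h5 := us_lt hb hu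
  rw [show m + 1 - 1 = m by omega] at h3
  have hrk : rk b m = .s := rk_s (by omega) hu
  have hrn : rn b m = m + 2 := by
    unfold rn
    rw [if_pos hu]
  have hln : ln b (m + 2) = m := by
    unfold ln
    rw [show m + 2 - 1 = m + 1 by omega, if_pos hu]
    omega
  have hsg : sg b m * sg b (m + 2) = 1 := by
    have := sg_rk hb (n := m) (by omega) h3
    rw [hrk, hrn] at this
    exact this
  have hss : sg b (m + 2) = sg b m := by
    rcases sg_or (b := b) m with h | h <;> rcases sg_or (b := b) (m + 2) with h' | h' <;>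
      rw [h, h'] at hsg ⊢ <;> norm_num at hsg
  refine ⟨?_, ?_, ?_⟩
  · unfold oW oL oR
    rw [← fz_R0_left hb F hw (by omega) (by omega) (by simpa using h4), hln, hss,
      fz_R0_right hw (by omega) h3]
  · unfold oW oR
    rw [hrn, hss, ← fz_cos]
  · unfold oL oW
    rw [hln, hss, ← fz_cos]

/-- the three hinges at two adjacent digits `±1`, `i` absorbed and `j` a ring -/
theorem Adj.one_view (A : Adj h i p j) (A' : Adj h' i p.rev k) (A'' : Adj h'' j p l)
    (hu : us b i.val = true) :
    ∃ (x : SK) (dl : ℕ) (ll : SK) (dr : ℕ) (rr : SK) (kl kr : ℂ),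
      RDt K (b j).natAbs .s x dl ll dr rr (oW b w j.val) kl kr ∧
      ofr (b i) (zsW b w (.inl (.inl h))) =
        conj (acot2 (Sp (RR (oW b w j.val) kl) (Complex.cos (oW b w j.val)))) ∧
      ofr (b i) (zsW b w (.inl (.inl h'))) = conj (acot2 (Sp (RR (oW b w j.val) kl) kl)) ∧
      ofr (b j) (zsW b w (.inl (.inl h''))) =
        yH x (RR (oW b w j.val) kr) (Complex.cos (oW b w j.val)) ∧
      clsW b k = cK dl ll ∧ clsW b l = nC x dr rr ∧
      (us b l.val = true → x = .s ∧ ∀ {h3 : Fin M} {m : Fin (M + 1)}, Adj h3 l p m →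
        clsW b m = cK dr rr) := by
  have hj := us_next A hu
  obtain ⟨m, hm⟩ : ∃ m, i.val = m + 1 := ⟨i.val - 1, by have := (us_true hu).1; omega⟩
  have hu' := hu
  rw [hm] at hu'
  obtain ⟨-, e1, e2⟩ := absd_nat hb F hw hK hu'
  obtain ⟨g1, g2, g3⟩ := absd_eqs hb F hw hu'
  obtain ⟨-, -, h3, h4⟩ := us_true hu'
  have hk2 := k.2
  have hl2 := l.2
  rcases A.elim with ⟨rfl, f1, f2⟩ | ⟨rfl, f1, f2⟩
  · have f3 : i.val = h'.val + 1 ∧ k.val = h'.val := by
      rcases A'.elim with ⟨h0, -⟩ | ⟨-, h1⟩
      · exact absurd h0 (by decide)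
      · exact h1
    have f4 : j.val = h''.val ∧ l.val = h''.val + 1 := by
      rcases A''.elim with ⟨-, h1⟩ | ⟨h0, -⟩
      · exact h1
      · exact absurd h0 (by decide)
    have hE := rdt hb F hw hK (n := m + 2) (by omega) (by omega) (by simpa using h4)
    have hlk : lk b (m + 2) = .s := lk_s (by omega) (by rwa [show m + 2 - 1 = m + 1 by omega])
    have hln : ln b (m + 2) = m := by
      unfold ln
      rw [show m + 2 - 1 = m + 1 by omega, if_pos hu']
      omega
    have hjv : j.val = m + 2 := by omega
    rw [hlk] at hE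
    have hcl := cls_lk (b := b) (i := k) (by omega)
    have hcr := cls_right (b := b) (i := j) (j := l) (by omega)
    have hkv : k.val = m := by omega
    rw [hkv] at hcl
    rw [hjv] at hcr ⊢
    refine ⟨rk b (m + 2), dg b m, lk b m, _, _, oL b w (m + 2), oR b w (m + 2), ?_, ?_, ?_, ?_,
      hcl, hcr, ?_⟩
    · have hd : (b j).natAbs = dg b (m + 2) := by rw [← dg_val, hjv]
      rw [hd]
      unfold oL
      rw [hln] at hE ⊢
      exact hE
    · rw [ofr_fz, zsW_val h (n := m + 1) (by omega), hm, e2, g1, g2]
    · rw [ofr_fz, zsW_val h' (n := m) (by omega), hm, e1, g1, g3]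
    · have ey := own_y_right F hw (n := m + 2) (by omega) (by simpa using h4)
      rw [ofr_fz, zsW_val h'' (n := m + 2) (by omega), hjv]
      exact ey
    · intro hul
      have hlv : l.val = m + 3 := by omega
      rw [hlv] at hul
      refine ⟨rk_s (by omega) hul, ?_⟩
      intro h3 m' A3
      have f5 : l.val = h3.val ∧ m'.val = h3.val + 1 := by
        rcases A3.elim with ⟨-, h1⟩ | ⟨h0, -⟩
        · exact h1
        · exact absurd h0 (by decide)
      have hrn : rn b (m + 2) = m + 4 := by
        unfold rn
        rw [if_pos hul]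
      rw [hrn, cls_rk (b := b) (i := m') (by omega), show m'.val = m + 4 by omega]
  · have f3 : i.val = h'.val ∧ k.val = h'.val + 1 := by
      rcases A'.elim with ⟨-, h1⟩ | ⟨h0, -⟩
      · exact h1
      · exact absurd h0 (by decide)
    have f4 : j.val = h''.val + 1 ∧ l.val = h''.val := by
      rcases A''.elim with ⟨h0, -⟩ | ⟨-, h1⟩
      · exact absurd h0 (by decide)
      · exact h1
    have h3' : us b m = false := by simpa using h3
    have hE := (rdt hb F hw hK (n := m) (by omega) (by omega) h3').symm
    have hrk : rk b m = .s := rk_s (by omega) hu'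
    have hrn : rn b m = m + 2 := by
      unfold rn
      rw [if_pos hu']
    have hjv : j.val = m := by omega
    rw [hrk] at hE
    have hcr := cls_rk (b := b) (i := k) (by omega)
    have hcl := cls_left (b := b) (i := j) (j := l) (by omega)
    have hkv : k.val = m + 2 := by omega
    rw [hkv] at hcr
    rw [hjv] at hcl ⊢
    refine ⟨lk b m, dg b (m + 2), rk b (m + 2), _, _, oR b w m, oL b w m, ?_, ?_, ?_, ?_,
      hcr, hcl, ?_⟩
    · have hd : (b j).natAbs = dg b m := by rw [← dg_val, hjv]
      rw [hd]
      unfold oR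
      rw [hrn] at hE ⊢
      exact hE
    · rw [ofr_fz, zsW_val h (n := m) (by omega), hm, e1]
    · rw [ofr_fz, zsW_val h' (n := m + 1) (by omega), hm, e2]
    · have ey := own_y_left hb F hw (n := m) (by omega) (by omega) h3'
      rw [ofr_fz, zsW_val h'' (n := m - 1) (by omega), hjv]
      exact ey
    · intro hul
      have hlv : l.val = m - 1 := by omega
      rw [hlv] at hul
      refine ⟨lk_s (by omega) hul, ?_⟩
      intro h3 m' A3
      have f5 : l.val = h3.val + 1 ∧ m'.val = h3.val := by
        rcases A3.elim with ⟨h0, -⟩ | ⟨-, h1⟩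
        · exact absurd h0 (by decide)
        · exact h1
      have hln : ln b m = m - 2 := by
        unfold ln
        rw [if_pos hul]
      rw [hln, cls_lk (b := b) (i := m') (by omega), show m'.val = m - 2 by omega]


end

end view

/-! ### the rows -/

/-- Statements about rings which give the location facts at pairs of digits `±1`. -/
structure PRows (K : KFam) : Prop where
  /-- a ring with the digit `1` and an absorbed digit on one side -/
  pair : ∀ {r dl ll dr rr w kl kr}, RDt K 1 .s r dl ll dr rr w kl kr →
    (pcw (cK dl ll) (nC r dr rr)).In (-(acot2 (Sp (RR w kl) (Complex.cos w))).im)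
      (-(acot2 (Sp (RR w kl) kl)).im) (yH r (RR w kr) (Complex.cos w)).im
  /-- a ring with the digit `1` between two absorbed digits; the other side: by symmetry -/
  three : ∀ {dl ll dr rr w kl kr}, RDt K 1 .s .s dl ll dr rr w kl kr → 2 ≤ dl → 2 ≤ dr →
    -(acot2 (Sp (RR w kl) kl)).im + (acot2 (Sp (RR w kr) (Complex.cos w))).im ≤
      kcw (cK dr rr) (cK dl ll)

section word

variable {M : ℕ} {b : Fin (M + 1) → ℤ} {w : ℕ → ℂ}

theorem Win6.In.symm' {P Q : Cl} {T k q : ℝ} (h : (pcw P Q).In (-T) k q) : (pcw Q P).In T q k := by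
  have := pcw_symm h
  rwa [neg_neg] at this

/-- **The location facts at pairs of digits `±1`.** -/
theorem locP_of_rows (hb : ClassW b) (F : RingFacts) (hw : Sol b w) {K : KFam} (hK : Snd K b w)
    (X : PRows K) : LocP b (zsW b w) where
  pair := by
    intro h h' h'' i j k l p A A' A'' hi hj
    have hop := A.opp hb (Or.inl (by rw [hi]; decide))
    rcases us_pair A hi hj with hu | hu
    · obtain ⟨x, dl, ll, dr, rr, kl, kr, hE, y1, y2, y3, c1, c2, -⟩ :=
        A.one_view hb F hw hK A' A'' hu
      rw [abs_one hj] at hE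
      have := X.pair hE
      rw [← ofr_im, ← ofr_im, ← ofr_im, y1, y2, y3, c1, c2, Complex.conj_im, Complex.conj_im]
      exact this
    · have A3 : Adj h'' j p.rev.rev l := by rw [Fin.rev_rev]; exact A''
      obtain ⟨x, dl, ll, dr, rr, kl, kr, hE, y1, y2, y3, c1, c2, -⟩ :=
        A.symm.one_view hb F hw hK A3 A' hu
      rw [abs_one hi] at hE
      have := X.pair hE
      rw [← Complex.conj_im, ← Complex.conj_im, ← y1, ← y2, ← y3, ← c1, ← c2, ofr_im, ofr_im,
        ofr_im, ofs_opp hop] at this
      exact this.symm'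
  three := by
    intro h h' h'' h3 i j k l m p A A' A'' A3 hi hj hk hl hm
    have g1 := us_pair A hi hj
    have g2 := us_pair A' hi hk
    have hui : us b i.val = false := by
      by_contra hc
      rw [Bool.not_eq_false] at hc
      have hnj := us_next A hc
      have hnk := us_next A' hc
      rcases A.elim with ⟨rfl, f1, f2⟩ | ⟨rfl, f1, f2⟩
      · have f0 : i.val = h'.val + 1 ∧ k.val = h'.val := by
          rcases A'.elim with ⟨h0, -⟩ | ⟨-, h1⟩
          · exact absurd h0 (by decide)
          · exact h1
        have f3 : k.val = h3.val + 1 ∧ m.val = h3.val := by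
          rcases A3.elim with ⟨h0, -⟩ | ⟨-, h1⟩
          · exact absurd h0 (by decide)
          · exact h1
        have h5 := us_of_one hb (n := k.val) (by have := k.2; omega) hnk
          (by rw [dg_val]; exact abs_one hk)
        rw [show k.val - 1 = m.val by omega] at h5
        have h6 := (us_true h5.2).2.1
        rw [bb_val] at h6
        exact hm (clsW_one h6)
      · have f3 : j.val = h''.val + 1 ∧ l.val = h''.val := by
          rcases A''.elim with ⟨h0, -⟩ | ⟨-, h1⟩
          · exact absurd h0 (by decide)
          · exact h1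
        have h5 := us_of_one hb (n := j.val) (by have := j.2; omega) hnj
          (by rw [dg_val]; exact abs_one hj)
        rw [show j.val - 1 = l.val by omega] at h5
        have h6 := (us_true h5.2).2.1
        rw [bb_val] at h6
        exact hl (clsW_one h6)
    have huj : us b j.val = true := by
      rcases g1 with h1 | h1
      · rw [hui] at h1
        exact absurd h1 (by decide)
      · exact h1
    have huk : us b k.val = true := by
      rcases g2 with h1 | h1
      · rw [hui] at h1
        exact absurd h1 (by decide)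
      · exact h1
    have A4 : Adj h'' j p.rev.rev l := by rw [Fin.rev_rev]; exact A''
    obtain ⟨x, dl, ll, dr, rr, kl, kr, hE, y1, y2, y3, c1, c2, c3⟩ :=
      A.symm.one_view hb F hw hK A4 A' huj
    obtain ⟨rfl, c4⟩ := c3 huk
    rw [abs_one hi] at hE
    have c5 := c4 A3
    have d1 : 2 ≤ dl := by
      have h5 := hE.left.ok.right.pos
      by_contra hc
      have h6 : dl = 1 := by omega
      rw [c1, h6] at hl
      exact hl (by simp [cK])
    have d2 : 2 ≤ dr := by
      have h5 := hE.right.ok.right.pos
      by_contra hc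
      have h6 : dr = 1 := by omega
      rw [c5, h6] at hm
      exact hm (by simp [cK])
    have := X.three hE d1 d2
    rw [yH, Hq_s] at y3
    rw [← ofr_im, ← ofr_im, y2, y3, c1, c5, Complex.conj_im]
    linarith

end word

end SR

end Pool.Agent.Work.MP_b30479_gt.G2
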