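import Pool.Agent.Work.MP_b30479_gt.G2.SWordN

/-!
# Two adjacent digits `±1`: the rings behind absorbed digits

`Adj.one_view2`: as `Adj.one_view`, with the data of the rings behind absorbed digits if they have
the digit `1`; `locP_of_rows2`.
-/

namespace Pool.Agent.Work.MP_b30479_gt.G2

open Complex Set Filter Topology VOL
open scoped ComplexConjugate

namespace SR

/-- the ring behind the absorbed digit has the digit `1` and a side `a`: its data -/
def FarX (K : KFam) (r : SK) (w k : ℂ) : Prop :=
  ∃ dX lX wP kX, RDt K 1 .s .a 1 r dX lX wP (Complex.cos w) kX ∧ Complex.cos wP = k ∧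
    RR wP (Complex.cos w) = RR w k

section view

variable {M : ℕ} {b : Fin (M + 1) → ℤ} {w : ℕ → ℂ}

section
variable (hb : ClassW b) (F : RingFacts) (hw : Sol b w) {K : KFam} (hK : Snd K b w)
variable {h h' h'' : Fin M} {i j k l : Fin (M + 1)} {p : Fin 3}
include hb F hw hK

/-- the ring to the left of the absorbed digit `m + 1`, seen from the ring `m + 2` -/
theorem far_left {m : ℕ} (hu : us b (m + 1) = true) (hd : dg b (m + 2) = 1)
    (h1 : dg b m = 1) (h2 : lk b m = .a) :
    FarX K (rk b (m + 2)) (oW b w (m + 2)) (oL b w (m + 2)) := by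
  obtain ⟨g1, g2, g3⟩ := absd_eqs hb F hw hu
  obtain ⟨-, -, h3, h4⟩ := us_true hu
  have h5 := us_lt hb hu
  have hm : 0 < m := by
    by_contra hc
    rw [show m = 0 by omega, lk, if_pos rfl] at h2
    exact absurd h2 (by decide)
  have hE := (rdt hb F hw hK (n := m) hm (by omega) (by simpa using h3)).symm
  have hrk : rk b m = .s := rk_s (by omega) hu
  have hrn : rn b m = m + 2 := by
    unfold rn
    rw [if_pos hu]
  rw [hrk, hrn, h1, h2, hd] at hE
  refine ⟨dg b (ln b m), lk b (ln b m), oW b w m, fz (sg b m) (Complex.cos (w (ln b m))), ?_,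
    g3.symm, ?_⟩
  · rw [g2]
    unfold oR
    rw [hrn]
    exact hE
  · rw [g2]
    exact g1.symm

/-- the ring to the right of the absorbed digit `m + 1`, seen from the ring `m` -/
theorem far_right' {m : ℕ} (hu : us b (m + 1) = true) (hd : dg b m = 1)
    (h1 : dg b (m + 2) = 1) (h2 : rk b (m + 2) = .a) :
    FarX K (lk b m) (oW b w m) (oR b w m) := by
  obtain ⟨g1, g2, g3⟩ := absd_eqs hb F hw hu
  obtain ⟨-, -, h3, h4⟩ := us_true hu
  have h5 := us_lt hb hu
  have hm : m + 2 < M := by
    by_contra hc
    rw [rk, if_pos (by omega)] at h2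
    exact absurd h2 (by decide)
  have hE := rdt hb F hw hK (n := m + 2) (by omega) hm (by simpa using h4)
  have hlk : lk b (m + 2) = .s := lk_s (by omega) (by rwa [show m + 2 - 1 = m + 1 by omega])
  have hln : ln b (m + 2) = m := by
    unfold ln
    rw [show m + 2 - 1 = m + 1 by omega, if_pos hu]
    omega
  rw [hlk, hln, h1, h2, hd] at hE
  refine ⟨dg b (rn b (m + 2)), rk b (rn b (m + 2)), oW b w (m + 2),
    fz (sg b (m + 2)) (Complex.cos (w (rn b (m + 2)))), ?_, g2, ?_⟩
  · rw [← g3]
    unfold oL
    rw [hln]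
    exact hE
  · rw [← g3]
    exact g1

/-- a ring with absorbed digits on both sides, to the right -/
theorem far_right {n : ℕ} (hn : n < M) (hd : dg b n = 1) (hl : lk b n = .s) (h0 : rk b n = .s)
    (h1 : dg b (rn b n) = 1) (h2 : rk b (rn b n) = .a) :
    FarX K .s (oW b w n) (oR b w n) := by
  have hu : us b (n + 1) = true := by
    by_contra hc
    rw [rk, if_neg (by omega), if_neg hc] at h0
    split_ifs at h0
  have hrn : rn b n = n + 2 := by
    unfold rn
    rw [if_pos hu]
  rw [hrn] at h1 h2
  have h3 := far_right' hb F hw hK hu hd h1 h2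
  rwa [hl] at h3

/-- a ring with absorbed digits on both sides, to the left -/
theorem far_left' {n : ℕ} (hn : 0 < n) (hd : dg b n = 1) (hr : rk b n = .s) (h0 : lk b n = .s)
    (h1 : dg b (ln b n) = 1) (h2 : lk b (ln b n) = .a) :
    FarX K .s (oW b w n) (oL b w n) := by
  have hu : us b (n - 1) = true := by
    by_contra hc
    rw [lk, if_neg (by omega), if_neg hc] at h0
    split_ifs at h0
  have h3 := us_lt hb hu
  obtain ⟨m, rfl⟩ : ∃ m, n = m + 2 := ⟨n - 2, by omega⟩
  rw [show m + 2 - 1 = m + 1 by omega] at hu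
  have hln : ln b (m + 2) = m := by
    unfold ln
    rw [show m + 2 - 1 = m + 1 by omega, if_pos hu]
    omega
  rw [hln] at h1 h2
  have h4 := far_left hb F hw hK hu hd h1 h2
  rwa [hr] at h4

/-- the three hinges at two adjacent digits `±1`, `i` absorbed and `j` a ring, with the data of the
rings behind absorbed digits -/
theorem Adj.one_view2 (A : Adj h i p j) (A' : Adj h' i p.rev k) (A'' : Adj h'' j p l)
    (hu : us b i.val = true)
    (hj1 : clsW b j = .one) :
    ∃ (x : SK) (dl : ℕ) (ll : SK) (dr : ℕ) (rr : SK) (kl kr : ℂ),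
      RDt K 1 .s x dl ll dr rr (oW b w j.val) kl kr ∧
      ofr (b i) (zsW b w (.inl (.inl h))) =
        conj (acot2 (Sp (RR (oW b w j.val) kl) (Complex.cos (oW b w j.val)))) ∧
      ofr (b i) (zsW b w (.inl (.inl h'))) = conj (acot2 (Sp (RR (oW b w j.val) kl) kl)) ∧
      ofr (b j) (zsW b w (.inl (.inl h''))) =
        yH x (RR (oW b w j.val) kr) (Complex.cos (oW b w j.val)) ∧
      clsW b k = cK dl ll ∧ clsW b l = nC x dr rr ∧
      (us b l.val = true → x = .s ∧ ∀ {h3 : Fin M} {m : Fin (M + 1)}, Adj h3 l p m →
        clsW b m = cK dr rr) ∧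
      (dl = 1 → ll = .a → FarX K x (oW b w j.val) kl) ∧
      (x = .s → dr = 1 → rr = .a → FarX K .s (oW b w j.val) kr) := by
  have hd1 := abs_one hj1
  have hj := us_next A hu
  obtain ⟨m, hm⟩ : ∃ m, i.val = m + 1 := ⟨i.val - 1, by have := (us_true hu).1; omega⟩
  have hu' := hu
  rw [hm] at hu'
  obtain ⟨-, e1, e2⟩ := absd_nat hb F hw hK hu'
  obtain ⟨g1, g2, g3⟩ := absd_eqs hb F hw hu'
  obtain ⟨-, -, h3, h4⟩ := us_true hu'
  have hk2 := k.2
  have hl2 := l.2
  rcases A.elim with ⟨rfl, f1, f2⟩ | ⟨rfl, f1, f2⟩
  · have f3 : i.val = h'.val + 1 ∧ k.val = h'.val := by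
      rcases A'.elim with ⟨h0, -⟩ | ⟨-, h1⟩
      · exact absurd h0 (by decide)
      · exact h1
    have f4 : j.val = h''.val ∧ l.val = h''.val + 1 := by
      rcases A''.elim with ⟨-, h1⟩ | ⟨h0, -⟩
      · exact h1
      · exact absurd h0 (by decide)
    have hE := rdt hb F hw hK (n := m + 2) (by omega) (by omega) (by simpa using h4)
    have hlk : lk b (m + 2) = .s := lk_s (by omega) (by rwa [show m + 2 - 1 = m + 1 by omega])
    have hln : ln b (m + 2) = m := by
      unfold ln
      rw [show m + 2 - 1 = m + 1 by omega, if_pos hu']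
      omega
    have hjv : j.val = m + 2 := by omega
    rw [hlk] at hE
    have hcl := cls_lk (b := b) (i := k) (by omega)
    have hcr := cls_right (b := b) (i := j) (j := l) (by omega)
    have hkv : k.val = m := by omega
    rw [hkv] at hcl
    rw [hjv] at hcr ⊢
    have hd : dg b (m + 2) = 1 := by rw [← hd1, ← dg_val, hjv]
    rw [hd] at hE
    refine ⟨rk b (m + 2), dg b m, lk b m, _, _, oL b w (m + 2), oR b w (m + 2), ?_, ?_, ?_, ?_,
      hcl, hcr, ?_, far_left hb F hw hK hu' hd,
      far_right hb F hw hK (by omega) hd hlk⟩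
    · unfold oL
      rw [hln] at hE ⊢
      exact hE
    · rw [ofr_fz, zsW_val h (n := m + 1) (by omega), hm, e2, g1, g2]
    · rw [ofr_fz, zsW_val h' (n := m) (by omega), hm, e1, g1, g3]
    · have ey := own_y_right F hw (n := m + 2) (by omega) (by simpa using h4)
      rw [ofr_fz, zsW_val h'' (n := m + 2) (by omega), hjv]
      exact ey
    · intro hul
      have hlv : l.val = m + 3 := by omega
      rw [hlv] at hul
      refine ⟨rk_s (by omega) hul, ?_⟩
      intro h3 m' A3
      have f5 : l.val = h3.val ∧ m'.val = h3.val + 1 := by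
        rcases A3.elim with ⟨-, h1⟩ | ⟨h0, -⟩
        · exact h1
        · exact absurd h0 (by decide)
      have hrn : rn b (m + 2) = m + 4 := by
        unfold rn
        rw [if_pos hul]
      rw [hrn, cls_rk (b := b) (i := m') (by omega), show m'.val = m + 4 by omega]
  · have f3 : i.val = h'.val ∧ k.val = h'.val + 1 := by
      rcases A'.elim with ⟨-, h1⟩ | ⟨h0, -⟩
      · exact h1
      · exact absurd h0 (by decide)
    have f4 : j.val = h''.val + 1 ∧ l.val = h''.val := by
      rcases A''.elim with ⟨h0, -⟩ | ⟨-, h1⟩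
      · exact absurd h0 (by decide)
      · exact h1
    have h3' : us b m = false := by simpa using h3
    have hE := (rdt hb F hw hK (n := m) (by omega) (by omega) h3').symm
    have hrk : rk b m = .s := rk_s (by omega) hu'
    have hrn : rn b m = m + 2 := by
      unfold rn
      rw [if_pos hu']
    have hjv : j.val = m := by omega
    rw [hrk] at hE
    have hcr := cls_rk (b := b) (i := k) (by omega)
    have hcl := cls_left (b := b) (i := j) (j := l) (by omega)
    have hkv : k.val = m + 2 := by omega
    rw [hkv] at hcr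
    rw [hjv] at hcl ⊢
    have hd : dg b m = 1 := by rw [← hd1, ← dg_val, hjv]
    rw [hd] at hE
    refine ⟨lk b m, dg b (m + 2), rk b (m + 2), _, _, oR b w m, oL b w m, ?_, ?_, ?_, ?_,
      hcr, hcl, ?_, far_right' hb F hw hK hu' hd,
      far_left' hb F hw hK (by omega) hd hrk⟩
    · unfold oR
      rw [hrn] at hE ⊢
      exact hE
    · rw [ofr_fz, zsW_val h (n := m) (by omega), hm, e1]
    · rw [ofr_fz, zsW_val h' (n := m + 1) (by omega), hm, e2]
    · have ey := own_y_left hb F hw (n := m) (by omega) (by omega) h3'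
      rw [ofr_fz, zsW_val h'' (n := m - 1) (by omega), hjv]
      exact ey
    · intro hul
      have hlv : l.val = m - 1 := by omega
      rw [hlv] at hul
      refine ⟨lk_s (by omega) hul, ?_⟩
      intro h3 m' A3
      have f5 : l.val = h3.val + 1 ∧ m'.val = h3.val := by
        rcases A3.elim with ⟨h0, -⟩ | ⟨-, h1⟩
        · exact absurd h0 (by decide)
        · exact h1
      have hln : ln b m = m - 2 := by
        unfold ln
        rw [if_pos hul]
      rw [hln, cls_lk (b := b) (i := m') (by omega), show m'.val = m - 2 by omega]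

end

end view

/-! ### the rows -/

/-- Statements about rings which give the location facts at pairs of digits `±1`. -/
structure PRows2 (K : KFam) : Prop where
  /-- a ring with the digit `1` and an absorbed digit on one side -/
  pair : ∀ {r dl ll dr rr w kl kr}, RDt K 1 .s r dl ll dr rr w kl kr →
    (dl = 1 → ll = .a → FarX K r w kl) → (r = .s → dr = 1 → rr = .a → FarX K .s w kr) →
    (pcw (cK dl ll) (nC r dr rr)).In (-(acot2 (Sp (RR w kl) (Complex.cos w))).im)
      (-(acot2 (Sp (RR w kl) kl)).im) (yH r (RR w kr) (Complex.cos w)).im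
  /-- a ring with the digit `1` between two absorbed digits; the other side: by symmetry -/
  three : ∀ {dl ll dr rr w kl kr}, RDt K 1 .s .s dl ll dr rr w kl kr → 2 ≤ dl → 2 ≤ dr →
    -(acot2 (Sp (RR w kl) kl)).im + (acot2 (Sp (RR w kr) (Complex.cos w))).im ≤
      kcw (cK dr rr) (cK dl ll)

section word

variable {M : ℕ} {b : Fin (M + 1) → ℤ} {w : ℕ → ℂ}

/-- **The location facts at pairs of digits `±1`.** -/
theorem locP_of_rows2 (hb : ClassW b) (F : RingFacts) (hw : Sol b w) {K : KFam} (hK : Snd K b w)
    (X : PRows2 K) : LocP b (zsW b w) where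
  pair := by
    intro h h' h'' i j k l p A A' A'' hi hj
    have hop := A.opp hb (Or.inl (by rw [hi]; decide))
    rcases us_pair A hi hj with hu | hu
    · obtain ⟨x, dl, ll, dr, rr, kl, kr, hE, y1, y2, y3, c1, c2, -, x1, x2⟩ :=
        A.one_view2 hb F hw hK A' A'' hu hj
      have := X.pair hE x1 x2
      rw [← ofr_im, ← ofr_im, ← ofr_im, y1, y2, y3, c1, c2, Complex.conj_im, Complex.conj_im]
      exact this
    · have A3 : Adj h'' j p.rev.rev l := by rw [Fin.rev_rev]; exact A''
      obtain ⟨x, dl, ll, dr, rr, kl, kr, hE, y1, y2, y3, c1, c2, -, x1, x2⟩ :=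
        A.symm.one_view2 hb F hw hK A3 A' hu hi
      have := X.pair hE x1 x2
      rw [← Complex.conj_im, ← Complex.conj_im, ← y1, ← y2, ← y3, ← c1, ← c2, ofr_im, ofr_im,
        ofr_im, ofs_opp hop] at this
      exact this.symm'
  three := by
    intro h h' h'' h3 i j k l m p A A' A'' A3 hi hj hk hl hm
    have g1 := us_pair A hi hj
    have g2 := us_pair A' hi hk
    have hui : us b i.val = false := by
      by_contra hc
      rw [Bool.not_eq_false] at hc
      have hnj := us_next A hc
      have hnk := us_next A' hc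
      rcases A.elim with ⟨rfl, f1, f2⟩ | ⟨rfl, f1, f2⟩
      · have f0 : i.val = h'.val + 1 ∧ k.val = h'.val := by
          rcases A'.elim with ⟨h0, -⟩ | ⟨-, h1⟩
          · exact absurd h0 (by decide)
          · exact h1
        have f3 : k.val = h3.val + 1 ∧ m.val = h3.val := by
          rcases A3.elim with ⟨h0, -⟩ | ⟨-, h1⟩
          · exact absurd h0 (by decide)
          · exact h1
        have h5 := us_of_one hb (n := k.val) (by have := k.2; omega) hnk
          (by rw [dg_val]; exact abs_one hk)
        rw [show k.val - 1 = m.val by omega] at h5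
        have h6 := (us_true h5.2).2.1
        rw [bb_val] at h6
        exact hm (clsW_one h6)
      · have f3 : j.val = h''.val + 1 ∧ l.val = h''.val := by
          rcases A''.elim with ⟨h0, -⟩ | ⟨-, h1⟩
          · exact absurd h0 (by decide)
          · exact h1
        have h5 := us_of_one hb (n := j.val) (by have := j.2; omega) hnj
          (by rw [dg_val]; exact abs_one hj)
        rw [show j.val - 1 = l.val by omega] at h5
        have h6 := (us_true h5.2).2.1
        rw [bb_val] at h6
        exact hl (clsW_one h6)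
    have huj : us b j.val = true := by
      rcases g1 with h1 | h1
      · rw [hui] at h1
        exact absurd h1 (by decide)
      · exact h1
    have huk : us b k.val = true := by
      rcases g2 with h1 | h1
      · rw [hui] at h1
        exact absurd h1 (by decide)
      · exact h1
    have A4 : Adj h'' j p.rev.rev l := by rw [Fin.rev_rev]; exact A''
    obtain ⟨x, dl, ll, dr, rr, kl, kr, hE, y1, y2, y3, c1, c2, c3⟩ :=
      A.symm.one_view hb F hw hK A4 A' huj
    obtain ⟨rfl, c4⟩ := c3 huk
    rw [abs_one hi] at hE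
    have c5 := c4 A3
    have d1 : 2 ≤ dl := by
      have h5 := hE.left.ok.right.pos
      by_contra hc
      have h6 : dl = 1 := by omega
      rw [c1, h6] at hl
      exact hl (by simp [cK])
    have d2 : 2 ≤ dr := by
      have h5 := hE.right.ok.right.pos
      by_contra hc
      have h6 : dr = 1 := by omega
      rw [c5, h6] at hm
      exact hm (by simp [cK])
    have := X.three hE d1 d2
    rw [yH, Hq_s] at y3
    rw [← ofr_im, ← ofr_im, y2, y3, c1, c5, Complex.conj_im]
    linarith

end word

end SR

end Pool.Agent.Work.MP_b30479_gt.G2
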