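import Pool.Agent.Work.MP_b30479_gt.G2.SZ9

/-!
# Rings with at least eight crossings: the height of the ring variable
-/

namespace Pool.Agent.Work.MP_b30479_gt.G2

open Complex Set SQ KB
open scoped ComplexConjugate

namespace Z8

open SR

lemma cos_ge_sin (q : ℝ) (h : |q| < Real.pi / 2) : 1 - Real.sin q ^ 2 ≤ Real.cos q ∧ 0 < Real.cos q := by
  have h1 := Real.sin_sq_add_cos_sq q
  have h2 := Real.cos_pos_of_mem_Ioo (abs_lt.1 h)
  have h3 := Real.cos_le_one q
  exact ⟨by nlinarith only [h1, h2, h3], h2⟩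

section side
variable {w Q : ℂ} {κ lam r χ ψ C c c0 : ℝ}

/-- sides of opposite sign -/
lemma side_A (h : Sd .a w Q) (hm : Complex.cos w ∈ Poly (vt .t8)) (h0 : 0 < w.re)
    (h1 : w.re ≤ 3 / 2) (hXα : (Complex.tan w).re ≤ κ * w.re) (hX : (Complex.tan w).re ≤ χ)
    (hY : -(Complex.tan w).im ≤ ψ) (hC : 0 ≤ C) (hc : 0 ≤ c)
    (hn : ∀ m : ℝ, 0 ≤ m → m ≤ 676 / 1000 →
      κ * (1 - m / 4) ≤ C * (1 - (ψ + (χ - ψ / 4) * m) ^ 2)) :
    Q.re + c * Q.im ≤ C * w.re := by
  have hq := (h.fa (t := .t8) rfl hm h0 h1).nonpos (Or.inr rfl)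
  obtain ⟨k, hH, s1, s2, g1, g2, g3, g4, g5, g6⟩ := h.parts (t := .t8) rfl hm h0 h1 (by decide)
  have hT := tan_re_nonneg h0.le h1
  have hTi := tan_im_nonpos hm h0 h1
  have hk := (g4 rfl).2
  rw [if_neg (by decide), abs_of_nonpos hk] at g3
  rw [abs_of_nonpos hk] at g2
  obtain ⟨c1, c2⟩ := cos_ge_sin _ hH
  have hCh := Real.one_le_cosh Q.re
  set m := -k.im with hmdef
  have hm0 : 0 ≤ m := by rw [hmdef]; linarith only [hk]
  set X := (Complex.tan w).re
  set Y := -(Complex.tan w).im with hYdef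
  have hY0 : 0 ≤ Y := by rw [hYdef]; linarith only [hTi]
  have e1 : (Complex.tan w * k).re = X * k.re - Y * m := by
    rw [Complex.mul_re, hYdef, hmdef]; ring
  have e2 : (Complex.tan w * k).im = -(X * m + Y * k.re) := by
    rw [Complex.mul_im, hYdef, hmdef]; ring
  have hs : Real.sin Q.im ^ 2 ≤ (ψ + (χ - ψ / 4) * m) ^ 2 := by
    have b1 : Real.sin Q.im ^ 2 ≤ (Complex.tan w * k).im ^ 2 := by
      rw [s1, mul_pow]
      exact le_mul_of_one_le_left (sq_nonneg _) (one_le_pow₀ hCh)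
    refine b1.trans ?_
    rw [e2, neg_sq]
    apply pow_le_pow_left₀ (by positivity)
    have u1 := mul_le_mul_of_nonneg_right hX hm0
    have u2 := mul_le_mul_of_nonneg_right hY (by linarith only [g1] : 0 ≤ k.re)
    have u3 := mul_nonneg (hY0.trans hY) (by linarith only [g2] : 0 ≤ 1 - m / 4 - k.re)
    linarith only [u1, u2, u3]
  have hp : Q.re ≤ C * w.re := by
    by_contra hcon
    push Not at hcon
    have hp0 : 0 < Q.re := lt_of_le_of_lt (by positivity) hcon
    have b2 : Q.re ≤ Real.sinh Q.re := Real.self_le_sinh_iff.2 hp0.le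
    have b3 : (C * w.re) * Real.cos Q.im < (Complex.tan w * k).re := by
      rw [s2]
      exact mul_lt_mul_of_pos_right (by linarith only [hcon, b2]) c2
    have b4 : (Complex.tan w * k).re ≤ κ * w.re * (1 - m / 4) := by
      rw [e1]
      have u1 : X * k.re ≤ X * (1 - m / 4) := mul_le_mul_of_nonneg_left (by linarith only [g2]) hT
      have u2 : X * (1 - m / 4) ≤ κ * w.re * (1 - m / 4) :=
        mul_le_mul_of_nonneg_right hXα (by linarith only [g1, g2])
      linarith only [u1, u2, hY0, hm0, mul_nonneg hY0 hm0]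
    have b5 := mul_le_mul_of_nonneg_right (hn m hm0 g3) h0.le
    have b6 : C * w.re * (1 - (ψ + (χ - ψ / 4) * m) ^ 2) ≤ C * w.re * Real.cos Q.im :=
      mul_le_mul_of_nonneg_left (by linarith only [c1, hs]) (by positivity)
    linarith only [b3, b4, b5, b6]
  linarith only [hp, hc, hq, mul_nonneg hc (neg_nonneg.2 hq)]

/-- split sides -/
lemma side_S (h : Sd .s w Q) (hm : Complex.cos w ∈ Poly (vt .t8)) (h0 : 0 < w.re)
    (h1 : w.re ≤ 3 / 2) (hXc : (Complex.tan w).re * Real.cos w.re ≤ Real.sin w.re)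
    (hcs : 7 / 10 ≤ Real.cos w.re)
    (hXα : (Complex.tan w).re ≤ κ * w.re) (hX : (Complex.tan w).re ≤ χ)
    (hYη : -(Complex.tan w).im ≤ lam * -w.im)
    (hY : -(Complex.tan w).im ≤ ψ) (hη0 : 0 ≤ -w.im) (hη : -w.im ≤ r * w.re)
    (hr : 0 < r) (hC : 0 ≤ C) (hc : 0 ≤ c)
    (hn : ∀ m : ℝ, 0 ≤ m → m ≤ 676 / 1000 →
      κ * (1 - m / 4) ≤ C * (1 - χ ^ 2 * m ^ 2 - ψ ^ 2) ∧
      κ * (1 - m / 4) + lam * r * m ≤ (C + r) * (1 - χ ^ 2 * m ^ 2 - ψ ^ 2)) :
    (Q.re - -w.im) + c * (Q.im - w.re) ≤ C * w.re := by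
  have hpi := Real.pi_gt_three
  obtain ⟨k, hH, s1, s2, g1, g2, g3, g4, g5, g6⟩ := h.parts (t := .t8) rfl hm h0 h1 (by decide)
  have hT := tan_re_nonneg h0.le h1
  have hTi := tan_im_nonpos hm h0 h1
  have hk := (g5 (by decide)).2
  rw [if_neg (by decide), abs_of_nonneg hk] at g3
  rw [abs_of_nonneg hk] at g2
  obtain ⟨c1, c2⟩ := cos_ge_sin _ hH
  have hCh := Real.one_le_cosh Q.re
  set m := k.im
  set X := (Complex.tan w).re
  set Y := -(Complex.tan w).im with hYdef
  have hY0 : 0 ≤ Y := by rw [hYdef]; linarith only [hTi]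
  have e1 : (Complex.tan w * k).re = X * k.re + Y * m := by
    rw [Complex.mul_re, hYdef]; ring
  have e2 : (Complex.tan w * k).im = X * m - Y * k.re := by
    rw [Complex.mul_im, hYdef]; ring
  have hXm : X * m ≤ χ * m := mul_le_mul_of_nonneg_right hX hk
  have hYk : Y * k.re ≤ ψ := by
    calc Y * k.re ≤ Y * 1 := mul_le_mul_of_nonneg_left (by linarith only [g2, hk]) hY0
      _ ≤ ψ := by linarith only [hY]
  have hs : Real.sin Q.im ^ 2 ≤ χ ^ 2 * m ^ 2 + ψ ^ 2 := by
    have b1 : Real.sin Q.im ^ 2 ≤ (Complex.tan w * k).im ^ 2 := by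
      rw [s1, mul_pow]
      exact le_mul_of_one_le_left (sq_nonneg _) (one_le_pow₀ hCh)
    refine b1.trans ?_
    rw [e2]
    have b2 : 0 ≤ X * m := by positivity
    have b3 : 0 ≤ Y * k.re := by
      have : 0 ≤ k.re := by linarith only [g1]
      positivity
    have b4 : (X * m) ^ 2 ≤ (χ * m) ^ 2 := pow_le_pow_left₀ b2 hXm 2
    have b5 : (Y * k.re) ^ 2 ≤ ψ ^ 2 := pow_le_pow_left₀ b3 hYk 2
    linarith only [b4, b5, b2, b3, mul_nonneg b2 b3]
  have hq : Q.im ≤ w.re := by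
    by_contra hcon
    push Not at hcon
    have b1 : Real.sin w.re < Real.sin Q.im :=
      Real.sin_lt_sin_of_lt_of_le_pi_div_two (by linarith only [h0, hpi]) (by linarith only [hH, (abs_lt.1 hH).2]) hcon
    have b0 : 0 < Real.sin w.re := Real.sin_pos_of_pos_of_lt_pi h0 (by linarith only [h1, hpi])
    have b2 : Real.sin Q.im ≤ (Complex.tan w * k).im := by
      rw [s1]; exact le_mul_of_one_le_left (b0.trans b1).le hCh
    rw [e2] at b2
    have b3 : 0 ≤ Y * k.re := by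
      have : 0 ≤ k.re := by linarith only [g1]
      positivity
    have b4 : X * m ≤ X * Real.cos w.re := mul_le_mul_of_nonneg_left (by linarith only [hcs, g3]) hT
    linarith only [hXc, b1, b2, b3, b4]
  have hp : Q.re - -w.im ≤ C * w.re := by
    by_contra hcon
    push Not at hcon
    have hp0 : 0 < Q.re := by
      have : 0 ≤ C * w.re := by positivity
      linarith only [hη0, hcon, this]
    have b2 : Q.re ≤ Real.sinh Q.re := Real.self_le_sinh_iff.2 hp0.le
    have b3 : (C * w.re + -w.im) * Real.cos Q.im < (Complex.tan w * k).re := by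
      rw [s2]
      exact mul_lt_mul_of_pos_right (by linarith only [hcon, b2]) c2
    have b4 : (Complex.tan w * k).re ≤ κ * w.re * (1 - m / 4) + lam * -w.im * m := by
      rw [e1]
      have u1 : X * k.re ≤ X * (1 - m / 4) := mul_le_mul_of_nonneg_left (by linarith only [g2]) hT
      have u2 : X * (1 - m / 4) ≤ κ * w.re * (1 - m / 4) :=
        mul_le_mul_of_nonneg_right hXα (by linarith only [g3])
      have u3 : Y * m ≤ lam * -w.im * m := mul_le_mul_of_nonneg_right hYη hk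
      linarith only [u1, u2, u3]
    have b6 : (C * w.re + -w.im) * (1 - χ ^ 2 * m ^ 2 - ψ ^ 2) ≤ (C * w.re + -w.im) * Real.cos Q.im :=
      mul_le_mul_of_nonneg_left (by linarith only [c1, hs]) (by positivity)
    obtain ⟨n1, n2⟩ := hn m hk g3
    set D := 1 - χ ^ 2 * m ^ 2 - ψ ^ 2
    set η := -w.im
    have b7 : 0 ≤ r * ((C * w.re + η) * D - κ * w.re * (1 - m / 4) - lam * η * m) := by
      have t1 := mul_nonneg (sub_nonneg.2 hη) (sub_nonneg.2 n1)
      have t2 := mul_nonneg hη0 (sub_nonneg.2 n2)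
      have e3 : r * ((C * w.re + η) * D - κ * w.re * (1 - m / 4) - lam * η * m) =
          (r * w.re - η) * (C * D - κ * (1 - m / 4)) +
          η * ((C + r) * D - (κ * (1 - m / 4) + lam * r * m)) := by ring
      rw [e3]
      linarith only [t1, t2]
    have b8 := nonneg_of_mul_nonneg_right b7 hr
    linarith only [b3, b4, b6, b8]
  linarith only [hp, hc, hq, mul_nonneg hc (sub_nonneg.2 hq)]

/-- unsplit sides of equal sign -/
lemma side_Z (h : Sd .z w Q) (hm : Complex.cos w ∈ Poly (vt .t8)) (h0 : 0 < w.re)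
    (h1 : w.re ≤ 3 / 2)
    (hXα : (Complex.tan w).re ≤ κ * w.re) (hX : (Complex.tan w).re ≤ χ)
    (hYη : -(Complex.tan w).im ≤ lam * -w.im)
    (hY : -(Complex.tan w).im ≤ ψ) (hη : -w.im ≤ r * w.re)
    (hr : 0 < r) (hlam : 0 < lam) (hC : 0 ≤ C) (hc : 0 ≤ c) (hcc : c ≤ c0)
    (hn1 : ∀ m : ℝ, 0 ≤ m → m ≤ 33 / 100 →
      κ * (1 - 4 / 10 * m) + lam * r * m ≤ C * (1 - ψ ^ 2))
    (hn2 : ∀ m : ℝ, 0 ≤ m → m ≤ 33 / 100 →
      κ * (1 - (4 / 10 - c0) * m) ≤ C * (1 - χ ^ 2 * m ^ 2) ∧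
      κ * (1 - (4 / 10 - c0) * m) + lam * r * (m - 66 / 100 * c0) ≤ C * (1 - χ ^ 2 * m ^ 2)) :
    Q.re + c * Q.im ≤ C * w.re := by
  have hpi := Real.pi_gt_three
  obtain ⟨k, hH, s1, s2, g1, g2, g3, g4, g5, g6⟩ := h.parts (t := .t8) rfl hm h0 h1 (by decide)
  have hT := tan_re_nonneg h0.le h1
  have hTi := tan_im_nonpos hm h0 h1
  have hk := (g5 (by decide)).2
  obtain ⟨z1, z2⟩ := g6 rfl
  rw [if_pos rfl, abs_of_nonneg hk] at g3
  rw [abs_of_nonneg hk] at g2
  obtain ⟨c1, c2⟩ := cos_ge_sin _ hH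
  have hCh := Real.one_le_cosh Q.re
  set m := k.im
  set X := (Complex.tan w).re
  set Y := -(Complex.tan w).im with hYdef
  have hY0 : 0 ≤ Y := by rw [hYdef]; linarith only [hTi]
  have e1 : (Complex.tan w * k).re = X * k.re + Y * m := by
    rw [Complex.mul_re, hYdef]; ring
  have e2 : (Complex.tan w * k).im = X * m - Y * k.re := by
    rw [Complex.mul_im, hYdef]; ring
  have hXm : X * m ≤ χ * m := mul_le_mul_of_nonneg_right hX hk
  have hXm0 : 0 ≤ X * m := by positivity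
  have hk0 : 0 ≤ k.re := by linarith only [g1]
  have hYk0 : 0 ≤ Y * k.re := by positivity
  have hYk : Y * k.re ≤ ψ := by
    calc Y * k.re ≤ Y * 1 := mul_le_mul_of_nonneg_left (by linarith only [g2, hk]) hY0
      _ ≤ ψ := by linarith only [hY]
  have hYr : Y ≤ lam * r * w.re := by
    have := mul_le_mul_of_nonneg_left hη hlam.le
    linarith only [hYη, this]
  have hRe : (Complex.tan w * k).re ≤ κ * w.re * (1 - 4 / 10 * m) + Y * m := by
    rw [e1]
    have u1 : X * k.re ≤ X * (1 - 4 / 10 * m) := mul_le_mul_of_nonneg_left (by linarith only [z2]) hT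
    have u2 : X * (1 - 4 / 10 * m) ≤ κ * w.re * (1 - 4 / 10 * m) :=
      mul_le_mul_of_nonneg_right hXα (by linarith only [g3])
    linarith only [u1, u2]
  by_cases hq : Q.im ≤ 0
  · have hp : Q.re ≤ C * w.re := by
      by_contra hcon
      push Not at hcon
      have hp0 : 0 < Q.re := lt_of_le_of_lt (by positivity) hcon
      have b2 : Q.re ≤ Real.sinh Q.re := Real.self_le_sinh_iff.2 hp0.le
      have b3 : (C * w.re) * Real.cos Q.im < (Complex.tan w * k).re := by
        rw [s2]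
        exact mul_lt_mul_of_pos_right (by linarith only [hcon, b2]) c2
      have hs0 : Real.sin Q.im ≤ 0 :=
        Real.sin_nonpos_of_nonpos_of_neg_pi_le hq (by linarith only [hpi, hH, (abs_lt.1 hH).1])
      have hs : Real.sin Q.im ^ 2 ≤ ψ ^ 2 := by
        have b5 : -Real.sin Q.im ≤ ψ := by
          have : -Real.sin Q.im ≤ -(Complex.tan w * k).im := by
            rw [s1, ← mul_neg]; exact le_mul_of_one_le_left (by linarith only [hs0]) hCh
          rw [e2] at this
          linarith only [hXm0, hYk, this]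
        have := pow_le_pow_left₀ (by linarith only [hs0]) b5 2
        rwa [neg_sq] at this
      have b6 : C * w.re * (1 - ψ ^ 2) ≤ C * w.re * Real.cos Q.im :=
        mul_le_mul_of_nonneg_left (by linarith only [c1, hs]) (by positivity)
      have b7 := mul_le_mul_of_nonneg_right (hn1 m hk g3) h0.le
      have b8 := mul_le_mul_of_nonneg_right hYr hk
      linarith only [hRe, b3, b6, b7, b8]
    linarith only [hp, hc, hq, mul_nonneg hc (neg_nonneg.2 hq)]
  · push Not at hq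
    have hqc : Q.im * Real.cos Q.im ≤ Real.sin Q.im := by
      have b1 := Real.lt_tan hq (abs_lt.1 hH).2
      have b2 : Real.tan Q.im * Real.cos Q.im = Real.sin Q.im := Real.tan_mul_cos c2.ne'
      rw [← b2]
      exact mul_le_mul_of_nonneg_right b1.le c2.le
    have hs0 : 0 ≤ Real.sin Q.im := Real.sin_nonneg_of_nonneg_of_le_pi hq.le (by linarith only [hpi, hH, (abs_lt.1 hH).2])
    have hs1 : Real.sin Q.im ≤ X * m - Y * k.re := by
      rw [← e2, s1]; exact le_mul_of_one_le_left hs0 hCh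
    have hs : Real.sin Q.im ^ 2 ≤ χ ^ 2 * m ^ 2 := by
      have b5 : Real.sin Q.im ≤ χ * m := by linarith only [hXm, hYk0, hs1]
      have := pow_le_pow_left₀ hs0 b5 2
      rwa [mul_pow] at this
    have hc00 : 0 ≤ c0 := hc.trans hcc
    have hp : Q.re + c0 * Q.im ≤ C * w.re := by
      by_contra hcon
      push Not at hcon
      have b3 : (C * w.re) * Real.cos Q.im < (Q.re + c0 * Q.im) * Real.cos Q.im :=
        mul_lt_mul_of_pos_right hcon c2
      have b4 : Q.re * Real.cos Q.im ≤ (Complex.tan w * k).re := by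
        rw [s2]
        by_cases hp0 : 0 ≤ Q.re
        · exact mul_le_mul_of_nonneg_right (Real.self_le_sinh_iff.2 hp0) c2.le
        · push Not at hp0
          exfalso
          have b1 : 0 ≤ (Complex.tan w * k).re := by rw [e1]; positivity
          have b2 : Real.sinh Q.re < 0 := Real.sinh_neg_iff.2 hp0
          rw [s2] at b1
          exact absurd b1 (not_le.2 (mul_neg_of_neg_of_pos b2 c2))
      have b5 : c0 * (Q.im * Real.cos Q.im) ≤ c0 * (X * m - 66 / 100 * Y) := by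
        apply mul_le_mul_of_nonneg_left _ hc00
        have u1 : 66 / 100 * Y ≤ Y * k.re := by
          rw [mul_comm]
          exact mul_le_mul_of_nonneg_left z1 hY0
        linarith only [hqc, hs1, u1]
      have b6 : C * w.re * (1 - χ ^ 2 * m ^ 2) ≤ C * w.re * Real.cos Q.im :=
        mul_le_mul_of_nonneg_left (by linarith only [c1, hs]) (by positivity)
      obtain ⟨n1, n2⟩ := hn2 m hk g3
      have b7 : c0 * (X * m) ≤ c0 * (κ * w.re * m) :=
        mul_le_mul_of_nonneg_left (mul_le_mul_of_nonneg_right hXα hk) hc00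
      set D := C * (1 - χ ^ 2 * m ^ 2)
      have b8 : κ * w.re * (1 - (4 / 10 - c0) * m) + Y * (m - 66 / 100 * c0) ≤ w.re * D := by
        have t1 := mul_nonneg (sub_nonneg.2 hYr) (sub_nonneg.2 n1)
        have t2 := mul_nonneg hY0 (sub_nonneg.2 n2)
        have hlr : 0 < lam * r := by positivity
        have e3 : (lam * r) * (w.re * D - (κ * w.re * (1 - (4 / 10 - c0) * m) + Y * (m - 66 / 100 * c0))) =
            (lam * r * w.re - Y) * (D - κ * (1 - (4 / 10 - c0) * m)) +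
            Y * (D - (κ * (1 - (4 / 10 - c0) * m) + lam * r * (m - 66 / 100 * c0))) := by ring
        have t3 : 0 ≤ (lam * r) * (w.re * D - (κ * w.re * (1 - (4 / 10 - c0) * m) + Y * (m - 66 / 100 * c0))) := by
          rw [e3]; linarith only [t1, t2]
        have := nonneg_of_mul_nonneg_right t3 hlr
        linarith only [hRe, b3, b4, b5, b6, b7, this]
      linarith only [hRe, b3, b4, b5, b6, b7, b8]
    linarith only [hp, hcc, hq, mul_le_mul_of_nonneg_right hcc hq.le]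

end side

/-! ### the two constants -/

section
variable {B : ℕ} {x y : SK} {w Q Q' : ℂ}

lemma Rg.Xc (R : Rg B x y w Q Q') :
    (Complex.tan w).re * Real.cos w.re ≤ Real.sin w.re := by
  have hc := R.cos_pos
  have h4 := (tan_parts hc).1
  have hT0 := tan_re_nonneg R.h0.le R.h1
  have : (Complex.tan w).re * Real.cos w.re * Real.cos w.re ≤ Real.sin w.re * Real.cos w.re := by
    rw [← h4]
    nlinarith only [hT0, mul_nonneg hT0 (sq_nonneg (Real.sinh w.im))]
  exact le_of_mul_le_mul_right this hc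

lemma Rg.Xk (R : Rg B x y w Q Q') {A κ : ℝ} (hA : w.re ≤ A) (hA1 : A ≤ 1)
    (hn : ∀ u : ℝ, 0 ≤ u → u ≤ A ^ 2 → 1 - u / 6 + u ^ 2 / 100 ≤ κ * (1 - u / 2)) :
    (Complex.tan w).re ≤ κ * w.re := by
  have h0 := R.h0
  have hc := R.cos_pos
  have h1 := R.Xc
  have a2 := (abs_le.1 (Real.sin_bound (x := w.re) (by rw [abs_of_pos h0]; linarith only [hA, hA1]))).2
  rw [abs_of_pos h0] at a2
  have a3 := Real.one_sub_sq_div_two_le_cos (x := w.re)
  have a4 := hn (w.re ^ 2) (sq_nonneg _) (pow_le_pow_left₀ h0.le hA 2)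
  have hu1 : w.re ^ 2 ≤ 1 := by nlinarith only [hA, hA1, h0]
  have hκ : 0 ≤ κ := by
    by_contra hcon
    push Not at hcon
    have : 0 ≤ w.re ^ 2 := sq_nonneg _
    nlinarith only [a4, hu1, hcon]
  have a5 : Real.sin w.re ≤ κ * w.re * Real.cos w.re := by
    calc Real.sin w.re ≤ w.re * (1 - w.re ^ 2 / 6 + (w.re ^ 2) ^ 2 / 100) := by linarith only [a2]
      _ ≤ w.re * (κ * (1 - w.re ^ 2 / 2)) := mul_le_mul_of_nonneg_left a4 h0.le
      _ = κ * w.re * (1 - w.re ^ 2 / 2) := by ring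
      _ ≤ κ * w.re * Real.cos w.re := mul_le_mul_of_nonneg_left a3 (by positivity)
  exact le_of_mul_le_mul_right (h1.trans a5) hc

lemma Rg.Yl (R : Rg B x y w Q Q') {S lam : ℝ} (hS : Real.sin w.re ^ 2 ≤ S) (hS1 : S ≤ 1 / 2)
    (hη : -w.im ≤ 14 / 100) (hl : 102 / 100 ≤ lam * (1 - S)) :
    -(Complex.tan w).im ≤ lam * -w.im := by
  have hi := R.im_nonpos
  have h1 := (tan_parts R.cos_pos).2
  have h3 := Real.sin_sq_add_cos_sq w.re
  have hTi := tan_im_nonpos (t := .t8) R.mem R.h0 R.h1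
  have b1 := sinh_le_lin (η := -w.im) (by linarith only [hi]) (by linarith only [hη])
  have b0 : 0 ≤ Real.sinh (-w.im) := Real.sinh_nonneg_iff.2 (by linarith only [hi])
  have b2 := cosh_le (r := -w.im)
  have b3 : Real.sinh (-w.im) ^ 2 ≤ (1007 / 1000 * (14 / 100)) ^ 2 :=
    pow_le_pow_left₀ b0 (by linarith only [hη, b1]) 2
  have b4 : Real.sinh (-w.im) * Real.cosh (-w.im) ≤ 102 / 100 * -w.im := by
    calc _ ≤ (1007 / 1000 * -w.im) * (101 / 100) :=
          mul_le_mul b1 (by linarith only [b2, b3]) (Real.cosh_pos _).le (by linarith only [hi])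
      _ ≤ _ := by linarith only [hi]
  rw [Real.sinh_neg, Real.cosh_neg] at b4
  have b5 : -(Complex.tan w).im * (1 - S) ≤ 102 / 100 * -w.im := by
    have : -(Complex.tan w).im * (1 - S) ≤
        -(Complex.tan w).im * (Real.cos w.re ^ 2 + Real.sinh w.im ^ 2) := by
      apply mul_le_mul_of_nonneg_left _ (by linarith only [hTi])
      have := sq_nonneg (Real.sinh w.im)
      linarith only [hS, h3, this]
    linarith only [h1, b4, this]
  have b6 : -(Complex.tan w).im * (1 - S) ≤ lam * -w.im * (1 - S) := by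
    have := mul_le_mul_of_nonneg_right hl (by linarith only [hi] : 0 ≤ -w.im)
    linarith only [b5, this]
  exact le_of_mul_le_mul_right b6 (by linarith only [hS1])

lemma Rg.rho_of (R : Rg B x y w Q Q') {d : ℕ} (hd : 0 < d) (hB : (B : ℝ) = d + nS x + nS y)
    {C n a b : ℝ} (hn : a + b = n)
    (h1 : (Q.re - nS x * -w.im) + (n * C / d) * (Q.im - nS x * w.re) ≤ a * (C * w.re))
    (h2 : (Q'.re - nS y * -w.im) + (n * C / d) * (Q'.im - nS y * w.re) ≤ b * (C * w.re)) :
    (d : ℝ) ^ 2 * -w.im ≤ n * C * Real.pi := by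
  have hd' : (0 : ℝ) < d := by exact_mod_cast hd
  have c1 := R.re_eq
  have c2 := R.im_eq
  have e1 : (d : ℝ) * -w.im = (Q.re - nS x * -w.im) + (Q'.re - nS y * -w.im) := by
    rw [hB] at c2; linarith only [c2]
  have e2 : (d : ℝ) * w.re - Real.pi = (Q.im - nS x * w.re) + (Q'.im - nS y * w.re) := by
    rw [hB] at c1; linarith only [c1]
  have e3 : (d : ℝ) * -w.im + (n * C / d) * (d * w.re - Real.pi) ≤ n * (C * w.re) := by
    rw [e1, e2, ← hn]
    rw [← hn] at h1 h2
    linarith only [h1, h2]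
  have e4 : (n * C / d) * (d * w.re - Real.pi) = n * (C * w.re) - n * C * Real.pi / d := by
    field_simp
  rw [e4] at e3
  have e5 : (d : ℝ) * -w.im ≤ n * C * Real.pi / d := by linarith only [e3]
  rw [le_div_iff₀ hd'] at e5
  linarith only [e5]

end

lemma rho_ea {B : ℕ} {w Q Q' : ℂ} (R : Rg B .e .a w Q Q') {d : ℕ} (hd : 8 ≤ d)
    (hB : B = d + SK.u .e + SK.u .a) : (d : ℝ) ^ 2 * -w.im ≤ 1 * (11 / 10) * Real.pi := by
  have F := fin_ea R
  have hd' : (8 : ℝ) ≤ d := by exact_mod_cast hd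
  have hi := R.im_nonpos
  have hi2 := F.im_le
  norm_num [nE] at hi2
  have hXα := R.Xk (κ := (1056 / 1000)) F.re_le (by norm_num) (fun u h0 h1 => by linarith only [h1, h0, mul_nonneg h0 (sub_nonneg.2 h1)])
  have hYη := R.Yl (lam := (1196 / 1000)) F.sn (by norm_num) (by linarith only [hi2]) (by norm_num)
  have hc0 : 0 ≤ 1 * (11 / 10) / (d : ℝ) := by positivity
  have hc1 : 1 * (11 / 10) / (d : ℝ) ≤ (11 / 80) := by
    rw [div_le_iff₀ (by linarith only [hd'])]
    linarith only [hd']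
  have hQ : Q = 0 := R.sd
  have l1 : Q.re + 1 * (11 / 10) / (d : ℝ) * Q.im ≤ 0 := by rw [hQ]; simp
  have l2 := side_A (C := (11 / 10)) R.sd' R.mem R.h0 R.h1 hXα F.tr F.ti (by norm_num) hc0
      (fun m h0 h1 => by linarith only [h0, h1, mul_nonneg h0 (sub_nonneg.2 h1)])
  refine R.rho_of (C := (11 / 10)) (n := 1) (a := 0) (b := 1) (by omega) (by rw [hB]; norm_num [nS, SK.u]) (by norm_num) ?_ ?_
  · norm_num [nS] at l1 ⊢
    linarith only [l1]
  · norm_num [nS] at l2 ⊢
    linarith only [l2]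

lemma rho_ez {B : ℕ} {w Q Q' : ℂ} (R : Rg B .e .z w Q Q') {d : ℕ} (hd : 8 ≤ d)
    (hB : B = d + SK.u .e + SK.u .z) : (d : ℝ) ^ 2 * -w.im ≤ 1 * (11 / 10) * Real.pi := by
  have F := fin_ez R
  have hd' : (8 : ℝ) ≤ d := by exact_mod_cast hd
  have hi := R.im_nonpos
  have hi2 := F.im_le
  norm_num [nE] at hi2
  have hXα := R.Xk (κ := (1062 / 1000)) F.re_le (by norm_num) (fun u h0 h1 => by linarith only [h1, h0, mul_nonneg h0 (sub_nonneg.2 h1)])
  have hYη := R.Yl (lam := (1214 / 1000)) F.sn (by norm_num) (by linarith only [hi2]) (by norm_num)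
  have hc0 : 0 ≤ 1 * (11 / 10) / (d : ℝ) := by positivity
  have hc1 : 1 * (11 / 10) / (d : ℝ) ≤ (11 / 80) := by
    rw [div_le_iff₀ (by linarith only [hd'])]
    linarith only [hd']
  have hQ : Q = 0 := R.sd
  have l1 : Q.re + 1 * (11 / 10) / (d : ℝ) * Q.im ≤ 0 := by rw [hQ]; simp
  have l2 := side_Z (C := (11 / 10)) (r := (21 / 100)) (c0 := (11 / 80)) R.sd' R.mem R.h0 R.h1 hXα F.tr hYη F.ti F.ratio
      (by norm_num) (by norm_num) (by norm_num) hc0 hc1
      (fun m h0 h1 => by linarith only [h0, mul_nonneg h0 (sub_nonneg.2 h1)])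
      (fun m h0 h1 => ⟨by linarith only [h0, h1, mul_nonneg h0 (sub_nonneg.2 h1)], by linarith only [h1, h0, mul_nonneg h0 (sub_nonneg.2 h1)]⟩)
  refine R.rho_of (C := (11 / 10)) (n := 1) (a := 0) (b := 1) (by omega) (by rw [hB]; norm_num [nS, SK.u]) (by norm_num) ?_ ?_
  · norm_num [nS] at l1 ⊢
    linarith only [l1]
  · norm_num [nS] at l2 ⊢
    linarith only [l2]

lemma rho_es {B : ℕ} {w Q Q' : ℂ} (R : Rg B .e .s w Q Q') {d : ℕ} (hd : 8 ≤ d)
    (hB : B = d + SK.u .e + SK.u .s) : (d : ℝ) ^ 2 * -w.im ≤ 1 * (11 / 10) * Real.pi := by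
  have F := fin_es R
  have hd' : (8 : ℝ) ≤ d := by exact_mod_cast hd
  have hi := R.im_nonpos
  have hi2 := F.im_le
  norm_num [nE] at hi2
  have hXα := R.Xk (κ := (1070 / 1000)) F.re_le (by norm_num) (fun u h0 h1 => by linarith only [h1, h0, mul_nonneg h0 (sub_nonneg.2 h1)])
  have hYη := R.Yl (lam := (1238 / 1000)) F.sn (by norm_num) (by linarith only [hi2]) (by norm_num)
  have hcs : 7 / 10 ≤ Real.cos w.re := by
    have h1 := Real.sin_sq_add_cos_sq w.re
    have h2 := F.sn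
    have h3 := R.cos_pos
    nlinarith only [h1, h2, h3]
  have hc0 : 0 ≤ 1 * (11 / 10) / (d : ℝ) := by positivity
  have hc1 : 1 * (11 / 10) / (d : ℝ) ≤ (11 / 80) := by
    rw [div_le_iff₀ (by linarith only [hd'])]
    linarith only [hd']
  have hQ : Q = 0 := R.sd
  have l1 : Q.re + 1 * (11 / 10) / (d : ℝ) * Q.im ≤ 0 := by rw [hQ]; simp
  have l2 := side_S (C := (11 / 10)) (r := (21 / 100)) R.sd' R.mem R.h0 R.h1 R.Xc hcs hXα F.tr hYη F.ti (by linarith only [hi]) F.ratio
      (by norm_num) (by norm_num) hc0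
      (fun m h0 h1 => ⟨by linarith only [h0, h1, mul_nonneg h0 (sub_nonneg.2 h1)], by linarith only [h1, h0, mul_nonneg h0 (sub_nonneg.2 h1)]⟩)
  refine R.rho_of (C := (11 / 10)) (n := 1) (a := 0) (b := 1) (by omega) (by rw [hB]; norm_num [nS, SK.u]) (by norm_num) ?_ ?_
  · norm_num [nS] at l1 ⊢
    linarith only [l1]
  · norm_num [nS] at l2 ⊢
    linarith only [l2]

lemma rho_aa {B : ℕ} {w Q Q' : ℂ} (R : Rg B .a .a w Q Q') {d : ℕ} (hd : 8 ≤ d)
    (hB : B = d + SK.u .a + SK.u .a) : (d : ℝ) ^ 2 * -w.im ≤ 2 * (115 / 100) * Real.pi := by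
  have F := fin_aa R
  have hd' : (8 : ℝ) ≤ d := by exact_mod_cast hd
  have hi := R.im_nonpos
  have hi2 := F.im_le
  norm_num [nE] at hi2
  have hXα := R.Xk (κ := (1056 / 1000)) F.re_le (by norm_num) (fun u h0 h1 => by linarith only [h1, h0, mul_nonneg h0 (sub_nonneg.2 h1)])
  have hYη := R.Yl (lam := (1196 / 1000)) F.sn (by norm_num) (by linarith only [hi2]) (by norm_num)
  have hc0 : 0 ≤ 2 * (115 / 100) / (d : ℝ) := by positivity
  have hc1 : 2 * (115 / 100) / (d : ℝ) ≤ (23 / 80) := by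
    rw [div_le_iff₀ (by linarith only [hd'])]
    linarith only [hd']
  have l1 := side_A (C := (115 / 100)) R.sd R.mem R.h0 R.h1 hXα F.tr F.ti (by norm_num) hc0
      (fun m h0 h1 => by linarith only [h0, h1, mul_nonneg h0 (sub_nonneg.2 h1)])
  have l2 := side_A (C := (115 / 100)) R.sd' R.mem R.h0 R.h1 hXα F.tr F.ti (by norm_num) hc0
      (fun m h0 h1 => by linarith only [h0, h1, mul_nonneg h0 (sub_nonneg.2 h1)])
  refine R.rho_of (C := (115 / 100)) (n := 2) (a := 1) (b := 1) (by omega) (by rw [hB]; norm_num [nS, SK.u]) (by norm_num) ?_ ?_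
  · norm_num [nS] at l1 ⊢
    linarith only [l1]
  · norm_num [nS] at l2 ⊢
    linarith only [l2]

lemma rho_az {B : ℕ} {w Q Q' : ℂ} (R : Rg B .a .z w Q Q') {d : ℕ} (hd : 8 ≤ d)
    (hB : B = d + SK.u .a + SK.u .z) : (d : ℝ) ^ 2 * -w.im ≤ 2 * (115 / 100) * Real.pi := by
  have F := fin_az R
  have hd' : (8 : ℝ) ≤ d := by exact_mod_cast hd
  have hi := R.im_nonpos
  have hi2 := F.im_le
  norm_num [nE] at hi2
  have hXα := R.Xk (κ := (1062 / 1000)) F.re_le (by norm_num) (fun u h0 h1 => by linarith only [h1, h0, mul_nonneg h0 (sub_nonneg.2 h1)])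
  have hYη := R.Yl (lam := (1214 / 1000)) F.sn (by norm_num) (by linarith only [hi2]) (by norm_num)
  have hc0 : 0 ≤ 2 * (115 / 100) / (d : ℝ) := by positivity
  have hc1 : 2 * (115 / 100) / (d : ℝ) ≤ (23 / 80) := by
    rw [div_le_iff₀ (by linarith only [hd'])]
    linarith only [hd']
  have l1 := side_A (C := (115 / 100)) R.sd R.mem R.h0 R.h1 hXα F.tr F.ti (by norm_num) hc0
      (fun m h0 h1 => by linarith only [h0, h1, mul_nonneg h0 (sub_nonneg.2 h1)])
  have l2 := side_Z (C := (115 / 100)) (r := (405 / 1000)) (c0 := (23 / 80)) R.sd' R.mem R.h0 R.h1 hXα F.tr hYη F.ti F.ratio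
      (by norm_num) (by norm_num) (by norm_num) hc0 hc1
      (fun m h0 h1 => by linarith only [h1, mul_nonneg h0 (sub_nonneg.2 h1)])
      (fun m h0 h1 => ⟨by linarith only [h0, h1, mul_nonneg h0 (sub_nonneg.2 h1)], by linarith only [h1, h0, mul_nonneg h0 (sub_nonneg.2 h1)]⟩)
  refine R.rho_of (C := (115 / 100)) (n := 2) (a := 1) (b := 1) (by omega) (by rw [hB]; norm_num [nS, SK.u]) (by norm_num) ?_ ?_
  · norm_num [nS] at l1 ⊢
    linarith only [l1]
  · norm_num [nS] at l2 ⊢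
    linarith only [l2]

lemma rho_zz {B : ℕ} {w Q Q' : ℂ} (R : Rg B .z .z w Q Q') {d : ℕ} (hd : 8 ≤ d)
    (hB : B = d + SK.u .z + SK.u .z) : (d : ℝ) ^ 2 * -w.im ≤ 2 * (115 / 100) * Real.pi := by
  have F := fin_zz R
  have hd' : (8 : ℝ) ≤ d := by exact_mod_cast hd
  have hi := R.im_nonpos
  have hi2 := F.im_le
  norm_num [nE] at hi2
  have hXα := R.Xk (κ := (1070 / 1000)) F.re_le (by norm_num) (fun u h0 h1 => by linarith only [h1, h0, mul_nonneg h0 (sub_nonneg.2 h1)])
  have hYη := R.Yl (lam := (1236 / 1000)) F.sn (by norm_num) (by linarith only [hi2]) (by norm_num)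
  have hc0 : 0 ≤ 2 * (115 / 100) / (d : ℝ) := by positivity
  have hc1 : 2 * (115 / 100) / (d : ℝ) ≤ (23 / 80) := by
    rw [div_le_iff₀ (by linarith only [hd'])]
    linarith only [hd']
  have l1 := side_Z (C := (115 / 100)) (r := (405 / 1000)) (c0 := (23 / 80)) R.sd R.mem R.h0 R.h1 hXα F.tr hYη F.ti F.ratio
      (by norm_num) (by norm_num) (by norm_num) hc0 hc1
      (fun m h0 h1 => by linarith only [h1, mul_nonneg h0 (sub_nonneg.2 h1)])
      (fun m h0 h1 => ⟨by linarith only [h0, h1, mul_nonneg h0 (sub_nonneg.2 h1)], by linarith only [h1, h0, mul_nonneg h0 (sub_nonneg.2 h1)]⟩)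
  have l2 := side_Z (C := (115 / 100)) (r := (405 / 1000)) (c0 := (23 / 80)) R.sd' R.mem R.h0 R.h1 hXα F.tr hYη F.ti F.ratio
      (by norm_num) (by norm_num) (by norm_num) hc0 hc1
      (fun m h0 h1 => by linarith only [h1, mul_nonneg h0 (sub_nonneg.2 h1)])
      (fun m h0 h1 => ⟨by linarith only [h0, h1, mul_nonneg h0 (sub_nonneg.2 h1)], by linarith only [h1, h0, mul_nonneg h0 (sub_nonneg.2 h1)]⟩)
  refine R.rho_of (C := (115 / 100)) (n := 2) (a := 1) (b := 1) (by omega) (by rw [hB]; norm_num [nS, SK.u]) (by norm_num) ?_ ?_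
  · norm_num [nS] at l1 ⊢
    linarith only [l1]
  · norm_num [nS] at l2 ⊢
    linarith only [l2]

lemma rho_as {B : ℕ} {w Q Q' : ℂ} (R : Rg B .a .s w Q Q') {d : ℕ} (hd : 8 ≤ d)
    (hB : B = d + SK.u .a + SK.u .s) : (d : ℝ) ^ 2 * -w.im ≤ 2 * (115 / 100) * Real.pi := by
  have F := fin_as R
  have hd' : (8 : ℝ) ≤ d := by exact_mod_cast hd
  have hi := R.im_nonpos
  have hi2 := F.im_le
  norm_num [nE] at hi2
  have hXα := R.Xk (κ := (1070 / 1000)) F.re_le (by norm_num) (fun u h0 h1 => by linarith only [h1, h0, mul_nonneg h0 (sub_nonneg.2 h1)])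
  have hYη := R.Yl (lam := (1238 / 1000)) F.sn (by norm_num) (by linarith only [hi2]) (by norm_num)
  have hcs : 7 / 10 ≤ Real.cos w.re := by
    have h1 := Real.sin_sq_add_cos_sq w.re
    have h2 := F.sn
    have h3 := R.cos_pos
    nlinarith only [h1, h2, h3]
  have hc0 : 0 ≤ 2 * (115 / 100) / (d : ℝ) := by positivity
  have hc1 : 2 * (115 / 100) / (d : ℝ) ≤ (23 / 80) := by
    rw [div_le_iff₀ (by linarith only [hd'])]
    linarith only [hd']
  have l1 := side_A (C := (115 / 100)) R.sd R.mem R.h0 R.h1 hXα F.tr F.ti (by norm_num) hc0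
      (fun m h0 h1 => by linarith only [h1, h0, mul_nonneg h0 (sub_nonneg.2 h1)])
  have l2 := side_S (C := (115 / 100)) (r := (405 / 1000)) R.sd' R.mem R.h0 R.h1 R.Xc hcs hXα F.tr hYη F.ti (by linarith only [hi]) F.ratio
      (by norm_num) (by norm_num) hc0
      (fun m h0 h1 => ⟨by linarith only [h0, h1, mul_nonneg h0 (sub_nonneg.2 h1)], by linarith only [h1, h0, mul_nonneg h0 (sub_nonneg.2 h1)]⟩)
  refine R.rho_of (C := (115 / 100)) (n := 2) (a := 1) (b := 1) (by omega) (by rw [hB]; norm_num [nS, SK.u]) (by norm_num) ?_ ?_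
  · norm_num [nS] at l1 ⊢
    linarith only [l1]
  · norm_num [nS] at l2 ⊢
    linarith only [l2]

lemma rho_zs {B : ℕ} {w Q Q' : ℂ} (R : Rg B .z .s w Q Q') {d : ℕ} (hd : 8 ≤ d)
    (hB : B = d + SK.u .z + SK.u .s) : (d : ℝ) ^ 2 * -w.im ≤ 2 * (115 / 100) * Real.pi := by
  have F := fin_zs R
  have hd' : (8 : ℝ) ≤ d := by exact_mod_cast hd
  have hi := R.im_nonpos
  have hi2 := F.im_le
  norm_num [nE] at hi2
  have hXα := R.Xk (κ := (1078 / 1000)) F.re_le (by norm_num) (fun u h0 h1 => by linarith only [h1, h0, mul_nonneg h0 (sub_nonneg.2 h1)])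
  have hYη := R.Yl (lam := (1267 / 1000)) F.sn (by norm_num) (by linarith only [hi2]) (by norm_num)
  have hcs : 7 / 10 ≤ Real.cos w.re := by
    have h1 := Real.sin_sq_add_cos_sq w.re
    have h2 := F.sn
    have h3 := R.cos_pos
    nlinarith only [h1, h2, h3]
  have hc0 : 0 ≤ 2 * (115 / 100) / (d : ℝ) := by positivity
  have hc1 : 2 * (115 / 100) / (d : ℝ) ≤ (23 / 80) := by
    rw [div_le_iff₀ (by linarith only [hd'])]
    linarith only [hd']
  have l1 := side_Z (C := (115 / 100)) (r := (405 / 1000)) (c0 := (23 / 80)) R.sd R.mem R.h0 R.h1 hXα F.tr hYη F.ti F.ratio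
      (by norm_num) (by norm_num) (by norm_num) hc0 hc1
      (fun m h0 h1 => by linarith only [h1, mul_nonneg h0 (sub_nonneg.2 h1)])
      (fun m h0 h1 => ⟨by linarith only [h0, h1, mul_nonneg h0 (sub_nonneg.2 h1)], by linarith only [h1, h0, mul_nonneg h0 (sub_nonneg.2 h1)]⟩)
  have l2 := side_S (C := (115 / 100)) (r := (405 / 1000)) R.sd' R.mem R.h0 R.h1 R.Xc hcs hXα F.tr hYη F.ti (by linarith only [hi]) F.ratio
      (by norm_num) (by norm_num) hc0
      (fun m h0 h1 => ⟨by linarith only [h0, h1, mul_nonneg h0 (sub_nonneg.2 h1)], by linarith only [h1, h0, mul_nonneg h0 (sub_nonneg.2 h1)]⟩)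
  refine R.rho_of (C := (115 / 100)) (n := 2) (a := 1) (b := 1) (by omega) (by rw [hB]; norm_num [nS, SK.u]) (by norm_num) ?_ ?_
  · norm_num [nS] at l1 ⊢
    linarith only [l1]
  · norm_num [nS] at l2 ⊢
    linarith only [l2]

lemma rho_ss {B : ℕ} {w Q Q' : ℂ} (R : Rg B .s .s w Q Q') {d : ℕ} (hd : 8 ≤ d)
    (hB : B = d + SK.u .s + SK.u .s) : (d : ℝ) ^ 2 * -w.im ≤ 2 * (115 / 100) * Real.pi := by
  have F := fin_ss R
  have hd' : (8 : ℝ) ≤ d := by exact_mod_cast hd
  have hi := R.im_nonpos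
  have hi2 := F.im_le
  norm_num [nE] at hi2
  have hXα := R.Xk (κ := (1090 / 1000)) F.re_le (by norm_num) (fun u h0 h1 => by linarith only [h1, h0, mul_nonneg h0 (sub_nonneg.2 h1)])
  have hYη := R.Yl (lam := (1308 / 1000)) F.sn (by norm_num) (by linarith only [hi2]) (by norm_num)
  have hcs : 7 / 10 ≤ Real.cos w.re := by
    have h1 := Real.sin_sq_add_cos_sq w.re
    have h2 := F.sn
    have h3 := R.cos_pos
    nlinarith only [h1, h2, h3]
  have hc0 : 0 ≤ 2 * (115 / 100) / (d : ℝ) := by positivity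
  have hc1 : 2 * (115 / 100) / (d : ℝ) ≤ (23 / 80) := by
    rw [div_le_iff₀ (by linarith only [hd'])]
    linarith only [hd']
  have l1 := side_S (C := (115 / 100)) (r := (405 / 1000)) R.sd R.mem R.h0 R.h1 R.Xc hcs hXα F.tr hYη F.ti (by linarith only [hi]) F.ratio
      (by norm_num) (by norm_num) hc0
      (fun m h0 h1 => ⟨by linarith only [h0, h1, mul_nonneg h0 (sub_nonneg.2 h1)], by linarith only [h1, h0, mul_nonneg h0 (sub_nonneg.2 h1)]⟩)
  have l2 := side_S (C := (115 / 100)) (r := (405 / 1000)) R.sd' R.mem R.h0 R.h1 R.Xc hcs hXα F.tr hYη F.ti (by linarith only [hi]) F.ratio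
      (by norm_num) (by norm_num) hc0
      (fun m h0 h1 => ⟨by linarith only [h0, h1, mul_nonneg h0 (sub_nonneg.2 h1)], by linarith only [h1, h0, mul_nonneg h0 (sub_nonneg.2 h1)]⟩)
  refine R.rho_of (C := (115 / 100)) (n := 2) (a := 1) (b := 1) (by omega) (by rw [hB]; norm_num [nS, SK.u]) (by norm_num) ?_ ?_
  · norm_num [nS] at l1 ⊢
    linarith only [l1]
  · norm_num [nS] at l2 ⊢
    linarith only [l2]

end Z8

end Pool.Agent.Work.MP_b30479_gt.G2
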