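import Pool.Agent.Work.MP_b30479_gt.G2.SZZ

/-!
# Hinges between two rings of equal sign: sharper bounds of the height
-/

namespace Pool.Agent.Work.MP_b30479_gt.G2

open Complex Set SQ KB
open scoped ComplexConjugate

namespace Z8

open SR

lemma y_im_le' {R : ℂ} {t T : ℝ} (h : 0 < R.re) (hT : 0 < T)
    (ht : (1 + t) ≤ (1 - t) * Real.exp (4 * (31415 / 10000 * T))) (_ht0 : 0 ≤ t) (ht1 : t < 1)
    (hq : 2 * -R.im ≤ t * (R.re ^ 2 + R.im ^ 2 + 1)) : (acot2 R).im ≤ T := by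
  obtain ⟨D, hD, h1, _, _, h4⟩ := y_eqs h
  have hpi := Real.pi_gt_d4
  by_contra hc
  push Not at hc
  set u := 2 * (Real.pi * (acot2 R).im) with hu
  have hu1 : 2 * (31415 / 10000 * T) < u := by
    rw [hu]
    nlinarith only [hc, hT, hpi]
  have h3 : Real.exp u * Real.exp u = Real.exp (2 * u) := by rw [← Real.exp_add]; ring_nf
  have h4' : Real.exp u * Real.exp (-u) = 1 := by rw [← Real.exp_add]; simp
  have h6 := Real.exp_pos (-u)
  have h7 : Real.exp (4 * (31415 / 10000 * T)) < Real.exp (2 * u) := Real.exp_lt_exp.2 (by linarith only [hu1])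
  have h8 : (1 + t) < (1 - t) * (Real.exp u * Real.exp u) := by
    rw [h3]
    exact lt_of_le_of_lt ht (mul_lt_mul_of_pos_left h7 (by linarith only [ht1]))
  have h9 : (1 + t) * Real.exp (-u) < (1 - t) * Real.exp u := by
    have := mul_lt_mul_of_pos_right h8 h6
    have e : (1 - t) * (Real.exp u * Real.exp u) * Real.exp (-u) = (1 - t) * Real.exp u := by
      rw [mul_assoc (1 - t), mul_assoc (Real.exp u), h4', mul_one]
    rwa [e] at this
  have h10 : t * Real.cosh u < Real.sinh u := by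
    rw [Real.cosh_eq, Real.sinh_eq]
    linarith only [h9]
  rw [← h1] at h10
  have h5 := mul_le_mul_of_nonneg_right hq hD.le
  linarith only [h4, h10, h5]

lemma reg_gen {N A b t2 n1 n2 al be : ℝ} (hN0 : 0 < N) (hN : N ^ 2 = A ^ 2 + b ^ 2)
    (hA0 : 0 < A) (hb0 : 0 ≤ b)
    (hn1 : 0 ≤ n1) (hn2 : 0 ≤ n2) (hn : n1 ^ 2 + n2 ^ 2 ≤ 1) (hA : al + be * b ≤ A)
    (hal : 0 ≤ al) (hbe : 0 ≤ be) (ht : 0 ≤ t2)
    (hp : 2 * b ^ 2 ≤ t2 * ((1 + n1 * al + (n1 * be + n2) * b) ^ 2 *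
      (n1 * al + al + (n1 * be + n2 + be) * b))) :
    2 * (N - A) ≤ t2 * (N + 1) ^ 2 := by
  have h1 : n1 * A + n2 * b ≤ N := by
    apply le_of_sq_le_sq _ hN0.le
    rw [hN]
    nlinarith only [hn, sq_nonneg (n2 * A - n1 * b), mul_nonneg (sub_nonneg.2 hn) (sq_nonneg A),
      mul_nonneg (sub_nonneg.2 hn) (sq_nonneg b)]
  have h2 : n1 * al + (n1 * be + n2) * b ≤ N := by
    have := mul_le_mul_of_nonneg_left hA hn1
    linarith only [h1, this]
  have h4 : (1 + n1 * al + (n1 * be + n2) * b) ^ 2 * (n1 * al + al + (n1 * be + n2 + be) * b) ≤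
      (N + 1) ^ 2 * (N + A) := by
    apply mul_le_mul (pow_le_pow_left₀ (by positivity) (by linarith only [h2]) 2) (by linarith only [hA, h2])
      (by positivity) (by positivity)
  have h5 : 2 * (N - A) * (N + A) ≤ t2 * (N + 1) ^ 2 * (N + A) := by
    have e : 2 * (N - A) * (N + A) = 2 * b ^ 2 := by linear_combination 2 * hN
    rw [e]
    have := mul_le_mul_of_nonneg_left h4 ht
    linarith only [hp, this]
  exact le_of_mul_le_mul_right h5 (by linarith only [hN0, hA0])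

lemma reg44 {N A b : ℝ} (hN0 : 0 < N) (hN : N ^ 2 = A ^ 2 + b ^ 2) (hA0 : 0 < A) (hb0 : 0 ≤ b)
    (h1 : b ≤ 134 / 100) (h2 : 1 + 3597 / 10000 * b ≤ A) (h3 : 7697 / 10000 + 5405 / 10000 * b ≤ A) :
    2 * (N - A) ≤ (338 / 1000) ^ 2 * (N + 1) ^ 2 := by
  by_cases h : b ≤ 12704 / 10000
  · refine reg_gen (n1 := 753 / 1000) (n2 := 657 / 1000) hN0 hN hA0 hb0 (by norm_num) (by norm_num)
      (by norm_num) h2 (by norm_num) (by norm_num) (by norm_num) ?_
    nlinarith only [hb0, h, mul_nonneg hb0 (sub_nonneg.2 h), mul_nonneg (mul_nonneg hb0 hb0) (sub_nonneg.2 h),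
      mul_nonneg hb0 (mul_nonneg (sub_nonneg.2 h) (sub_nonneg.2 h))]
  · push Not at h
    refine reg_gen (n1 := 744 / 1000) (n2 := 667 / 1000) hN0 hN hA0 hb0 (by norm_num) (by norm_num)
      (by norm_num) h3 (by norm_num) (by norm_num) (by norm_num) ?_
    nlinarith only [h1, h, mul_nonneg (sub_nonneg.2 h.le) (sub_nonneg.2 h1),
      mul_nonneg (mul_nonneg hb0 (sub_nonneg.2 h.le)) (sub_nonneg.2 h1)]

lemma reg45 {N A b : ℝ} (hN0 : 0 < N) (hN : N ^ 2 = A ^ 2 + b ^ 2) (hA0 : 0 < A) (hb0 : 0 ≤ b)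
    (h1 : b ≤ 10575 / 10000) (h2 : 1 + 3597 / 10000 * b ≤ A)
    (h3 : 77519 / 100000 + 7042 / 10000 * b ≤ A) (h4 : 52201 / 100000 + 96153 / 100000 * b ≤ A) :
    2 * (N - A) ≤ (2841 / 10000) ^ 2 * (N + 1) ^ 2 := by
  by_cases h : b ≤ 64 / 100
  · refine reg_gen (n1 := 88 / 100) (n2 := 47 / 100) hN0 hN hA0 hb0 (by norm_num) (by norm_num)
      (by norm_num) h2 (by norm_num) (by norm_num) (by norm_num) ?_
    nlinarith only [hb0, h, mul_nonneg hb0 (sub_nonneg.2 h), mul_nonneg (mul_nonneg hb0 hb0) (sub_nonneg.2 h),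
      mul_nonneg hb0 (mul_nonneg (sub_nonneg.2 h) (sub_nonneg.2 h))]
  · push Not at h
    by_cases h' : b ≤ 984 / 1000
    · refine reg_gen (n1 := 83 / 100) (n2 := 556 / 1000) hN0 hN hA0 hb0 (by norm_num) (by norm_num)
        (by norm_num) h3 (by norm_num) (by norm_num) (by norm_num) ?_
      nlinarith only [h', h, hb0, mul_nonneg (sub_nonneg.2 h.le) (sub_nonneg.2 h'),
        mul_nonneg (mul_nonneg hb0 (sub_nonneg.2 h.le)) (sub_nonneg.2 h')]
    · push Not at h'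
      refine reg_gen (n1 := 823 / 1000) (n2 := 566 / 1000) hN0 hN hA0 hb0 (by norm_num)
        (by norm_num) (by norm_num) h4 (by norm_num) (by norm_num) (by norm_num) ?_
      nlinarith only [h1, h', mul_nonneg (sub_nonneg.2 h'.le) (sub_nonneg.2 h1),
        mul_nonneg (mul_nonneg hb0 (sub_nonneg.2 h'.le)) (sub_nonneg.2 h1)]

lemma reg55 {N A b : ℝ} (hN0 : 0 < N) (hN : N ^ 2 = A ^ 2 + b ^ 2) (hA0 : 0 < A) (hb0 : 0 ≤ b)
    (h1 : b ≤ 775 / 1000) (h2 : 1 + 7042 / 10000 * b ≤ A)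
    (h3 : 83846 / 100000 + 96153 / 100000 * b ≤ A) :
    2 * (N - A) ≤ (2176 / 10000) ^ 2 * (N + 1) ^ 2 := by
  by_cases h : b ≤ 628 / 1000
  · refine reg_gen (n1 := 915 / 1000) (n2 := 4 / 10) hN0 hN hA0 hb0 (by norm_num) (by norm_num)
      (by norm_num) h2 (by norm_num) (by norm_num) (by norm_num) ?_
    nlinarith only [hb0, h, mul_nonneg hb0 (sub_nonneg.2 h), mul_nonneg (mul_nonneg hb0 hb0) (sub_nonneg.2 h),
      mul_nonneg hb0 (mul_nonneg (sub_nonneg.2 h) (sub_nonneg.2 h))]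
  · push Not at h
    refine reg_gen (n1 := 897 / 1000) (n2 := 439 / 1000) hN0 hN hA0 hb0 (by norm_num) (by norm_num)
      (by norm_num) h3 (by norm_num) (by norm_num) (by norm_num) ?_
    nlinarith only [h1, h, mul_nonneg (sub_nonneg.2 h.le) (sub_nonneg.2 h1),
      mul_nonneg (mul_nonneg hb0 (sub_nonneg.2 h.le)) (sub_nonneg.2 h1)]

/-! ### bounds for the digits -/

/-- bounds of `1 / k ^ 2` for the digit `4` -/
structure QB4 (k : ℂ) : Prop where
  b0 : 0 ≤ py k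
  ba : py k ≤ 278 / 100 * (px k - 1)
  bc : 1637 / 1000 ≤ 185 / 100 * px k - py k
  b1 : py k ≤ 67 / 100

/-- bounds of `1 / k ^ 2` for the digits at least `5` -/
structure QB5 (k : ℂ) : Prop where
  b0 : 0 ≤ py k
  ba : py k ≤ 142 / 100 * (px k - 1)
  bc : 956 / 1000 ≤ 104 / 100 * px k - py k
  b1 : py k ≤ 3875 / 10000

def qb4OK (V : List (ℤ × ℤ)) : Bool :=
  polyOK 0 0 (-1000) 20 V && polyOK 0 1000 0 0 V && polyOK 2780 (-1000) 2780 0 V &&
    polyOK 1850 (-1000) 1637 0 V && polyOK 0 (-1000) (-670) 0 V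

def qb5OK (V : List (ℤ × ℤ)) : Bool :=
  polyOK 0 0 (-1000) 20 V && polyOK 0 1000 0 0 V && polyOK 1420 (-1000) 1420 0 V &&
    polyOK 1040 (-1000) 956 0 V && polyOK 0 (-10000) (-3875) 0 V

lemma qb4_of {V : List (ℤ × ℤ)} (h : qb4OK V = true) {k : ℂ} (hk : k ∈ PolyU V) : QB4 k := by
  have hk' : k ∈ Poly V := fun e he => (hk e he).le
  simp only [qb4OK, Bool.and_eq_true] at h
  obtain ⟨⟨⟨⟨h0, h1⟩, h2⟩, h3⟩, h4⟩ := h
  have g1 := px_py_of h0 h1 hk'
  have g2 := px_py_of h0 h2 hk'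
  have g3 := px_py_of h0 h3 hk'
  have g4 := px_py_of h0 h4 hk'
  push_cast at g1 g2 g3 g4
  exact ⟨by linarith only [g1], by linarith only [g2], by linarith only [g3], by linarith only [g4]⟩

lemma qb5_of {V : List (ℤ × ℤ)} (h : qb5OK V = true) {k : ℂ} (hk : k ∈ PolyU V) : QB5 k := by
  have hk' : k ∈ Poly V := fun e he => (hk e he).le
  simp only [qb5OK, Bool.and_eq_true] at h
  obtain ⟨⟨⟨⟨h0, h1⟩, h2⟩, h3⟩, h4⟩ := h
  have g1 := px_py_of h0 h1 hk'
  have g2 := px_py_of h0 h2 hk'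
  have g3 := px_py_of h0 h3 hk'
  have g4 := px_py_of h0 h4 hk'
  push_cast at g1 g2 g3 g4
  exact ⟨by linarith only [g1], by linarith only [g2], by linarith only [g3], by linarith only [g4]⟩

/-- from the region of `R ^ 2` to the height -/
lemma T_of {R k k' : ℂ} (hR : 0 < R.re) (h : R ^ 2 + 1 = 1 / k ^ 2 + 1 / k' ^ 2) {t T : ℝ}
    (hT : 0 < T) (ht : (1 + t) ≤ (1 - t) * Real.exp (4 * (31415 / 10000 * T))) (ht0 : 0 ≤ t)
    (ht1 : t < 1)
    (hr : ∀ N : ℝ, 0 < N → N ^ 2 = (px k + px k' - 1) ^ 2 + (py k + py k') ^ 2 →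
      2 * (N - (px k + px k' - 1)) ≤ t ^ 2 * (N + 1) ^ 2) : (acot2 R).im ≤ T := by
  have e1 : (R ^ 2).re = px k + px k' - 1 := by
    have := congrArg Complex.re h
    rw [Complex.add_re, Complex.add_re, one_div, one_div, inv_sq_re, inv_sq_re, Complex.one_re] at this
    linarith only [this]
  have e2 : (R ^ 2).im = -(py k + py k') := by
    have := congrArg Complex.im h
    rw [Complex.add_im, Complex.add_im, one_div, one_div, inv_sq_im, inv_sq_im, Complex.one_im] at this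
    linarith only [this]
  rw [sq_re] at e1
  rw [sq_im] at e2
  have hN0 : 0 < R.re ^ 2 + R.im ^ 2 := by positivity
  have r1 := hr (R.re ^ 2 + R.im ^ 2) hN0 (by
    have e3 : py k + py k' = -(2 * R.re * R.im) := by linarith only [e2]
    rw [e3, ← e1]; ring)
  apply y_im_le' hR hT ht ht0 ht1
  apply le_of_sq_le_sq _ (by positivity)
  calc (2 * -R.im) ^ 2 = 2 * ((R.re ^ 2 + R.im ^ 2) - (px k + px k' - 1)) := by rw [← e1]; ring
    _ ≤ _ := r1
    _ = _ := by ring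

lemma exp_ge {x y : ℝ} (hx : 0 ≤ x)
    (h : y ≤ ∑ i ∈ Finset.range 7, x ^ i / (Nat.factorial i)) : y ≤ Real.exp x :=
  h.trans (Real.sum_le_exp_of_nonneg hx 7)

theorem T44 {R k k' : ℂ} (hR : 0 < R.re) (h : R ^ 2 + 1 = 1 / k ^ 2 + 1 / k' ^ 2)
    (q : QB4 k) (q' : QB4 k') : (acot2 R).im ≤ 56 / 1000 := by
  have := q.b0
  have := q.ba
  have := q.bc
  have := q.b1
  have := q'.b0
  have := q'.ba
  have := q'.bc
  have := q'.b1
  refine T_of hR h (t := 338 / 1000) (by norm_num) ?_ (by norm_num) (by norm_num)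
    fun N h0 h1 => reg44 h0 h1 (by linarith) (by linarith) (by linarith) (by linarith) (by linarith)
  have h2 : (202117 / 100000 : ℝ) ≤ Real.exp (4 * (31415 / 10000 * (56 / 1000))) := by
    apply exp_ge (by norm_num)
    simp only [Finset.sum_range_succ, Finset.sum_range_zero]
    norm_num [Nat.factorial]
  linarith only [h2]

theorem T45 {R k k' : ℂ} (hR : 0 < R.re) (h : R ^ 2 + 1 = 1 / k ^ 2 + 1 / k' ^ 2)
    (q : QB4 k) (q' : QB5 k') : (acot2 R).im ≤ 465 / 10000 := by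
  have := q.b0
  have := q.ba
  have := q.bc
  have := q.b1
  have := q'.b0
  have := q'.ba
  have := q'.bc
  have := q'.b1
  refine T_of hR h (t := 2841 / 10000) (by norm_num) ?_ (by norm_num) (by norm_num)
    fun N h0 h1 => reg45 h0 h1 (by linarith) (by linarith) (by linarith) (by linarith) (by linarith)
      (by linarith)
  have h2 : (17937 / 10000 : ℝ) ≤ Real.exp (4 * (31415 / 10000 * (465 / 10000))) := by
    apply exp_ge (by norm_num)
    simp only [Finset.sum_range_succ, Finset.sum_range_zero]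
    norm_num [Nat.factorial]
  linarith only [h2]

theorem T55 {R k k' : ℂ} (hR : 0 < R.re) (h : R ^ 2 + 1 = 1 / k ^ 2 + 1 / k' ^ 2)
    (q : QB5 k) (q' : QB5 k') : (acot2 R).im ≤ 352 / 10000 := by
  have := q.b0
  have := q.ba
  have := q.bc
  have := q.b1
  have := q'.b0
  have := q'.ba
  have := q'.bc
  have := q'.b1
  refine T_of hR h (t := 2176 / 10000) (by norm_num) ?_ (by norm_num) (by norm_num)
    fun N h0 h1 => reg55 h0 h1 (by linarith) (by linarith) (by linarith) (by linarith) (by linarith)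
  have h2 : (15563 / 10000 : ℝ) ≤ Real.exp (4 * (31415 / 10000 * (352 / 10000))) := by
    apply exp_ge (by norm_num)
    simp only [Finset.sum_range_succ, Finset.sum_range_zero]
    norm_num [Nat.factorial]
  linarith only [h2]

end Z8

end Pool.Agent.Work.MP_b30479_gt.G2
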