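import Pool.Agent.Work.MP_b30479_gt.G2.SWordJ
import Pool.Agent.Work.MP_b30479_gt.G2.SZ8

/-!
# Hinges between two rings of equal sign with digits at least four

`R ^ 2 = q + q' - 1` with `q = 1 / k ^ 2`, `q' = 1 / k' ^ 2`.
-/

namespace Pool.Agent.Work.MP_b30479_gt.G2

open Complex Set SQ KB
open scoped ComplexConjugate

namespace Z8

open SR

/-- the real and imaginary part of `acot2 R` -/
lemma y_eqs {R : ℂ} (h : 0 < R.re) : ∃ D : ℝ, 0 < D ∧
    (R.re ^ 2 + R.im ^ 2 + 1) * D = Real.cosh (2 * (Real.pi * (acot2 R).im)) ∧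
    (R.re ^ 2 + R.im ^ 2 - 1) * D = Real.cos (2 * (Real.pi * (acot2 R).re)) ∧
    2 * R.re * D = Real.sin (2 * (Real.pi * (acot2 R).re)) ∧
    2 * R.im * D = -Real.sinh (2 * (Real.pi * (acot2 R).im)) := by
  have n1 : R ≠ I := by
    intro h1
    rw [h1] at h
    simp at h
  have n2 : R ≠ -I := by
    intro h1
    rw [h1] at h
    simp at h
  have h1 := (acot2_spec n1 n2).1
  obtain ⟨x0, x1⟩ := acot2_re_pos h
  have hpi := Real.pi_pos
  set y := acot2 R
  have hw1 : ((Real.pi : ℂ) * y).re = Real.pi * y.re := by simp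
  have hw2 : ((Real.pi : ℂ) * y).im = Real.pi * y.im := by simp
  have hs : 0 < Real.sin (Real.pi * y.re) := Real.sin_pos_of_pos_of_lt_pi (by positivity)
    (by nlinarith only [hpi, x1])
  obtain ⟨c1, c2⟩ := cos_parts ((Real.pi : ℂ) * y)
  obtain ⟨s1, s2⟩ := sin_parts ((Real.pi : ℂ) * y)
  rw [hw1, hw2] at c1 c2 s1 s2
  have hC := Real.cosh_pos (Real.pi * y.im)
  have hsn : Complex.sin ((Real.pi : ℂ) * y) ≠ 0 := by
    intro h2
    rw [h2, Complex.zero_re] at s1
    exact (mul_pos hs hC).ne s1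
  have e1 : Complex.cos ((Real.pi : ℂ) * y) = R * Complex.sin ((Real.pi : ℂ) * y) := by
    rw [← h1]
    unfold ctg
    field_simp
  have er := congrArg Complex.re e1
  have ei := congrArg Complex.im e1
  rw [Complex.mul_re, c1, s1, s2] at er
  rw [Complex.mul_im, c2, s1, s2] at ei
  have q1 := Real.sin_sq_add_cos_sq (Real.pi * y.re)
  have q2 := Real.cosh_sq (Real.pi * y.im)
  rw [Real.cosh_two_mul, Real.cos_two_mul, Real.sin_two_mul, Real.sinh_two_mul]
  set s := Real.sin (Real.pi * y.re)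
  set c := Real.cos (Real.pi * y.re)
  set C := Real.cosh (Real.pi * y.im)
  set S := Real.sinh (Real.pi * y.im)
  have hD : 0 < (s * C) ^ 2 + (c * S) ^ 2 := by positivity
  refine ⟨(s * C) ^ 2 + (c * S) ^ 2, hD, ?_, ?_, ?_, ?_⟩
  · linear_combination (-(c * C + R.re * (s * C) - R.im * (c * S))) * er +
      (s * S - R.re * (c * S) - R.im * (s * C)) * ei + (C ^ 2 + S ^ 2) * q1
  · linear_combination (-(c * C + R.re * (s * C) - R.im * (c * S))) * er +
      (s * S - R.re * (c * S) - R.im * (s * C)) * ei + (C ^ 2 + S ^ 2) * q1 * 0 +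
      (c ^ 2 - s ^ 2) * q2 - q1
  · linear_combination (-2 * (s * C)) * er - 2 * (c * S) * ei + 2 * s * c * q2
  · linear_combination (2 * (c * S)) * er - 2 * (s * C) * ei - 2 * (C * S) * q1

/-- the real part is at most `1 / 4` -/
lemma y_quarter {R : ℂ} (h : 0 < R.re) (hN : 1 ≤ R.re ^ 2 + R.im ^ 2) : (acot2 R).re ≤ 1 / 4 := by
  obtain ⟨D, hD, _, h2, _, _⟩ := y_eqs h
  obtain ⟨x0, x1⟩ := acot2_re_pos h
  have hpi := Real.pi_pos
  by_contra hc
  push Not at hc
  have h3 : Real.cos (2 * (Real.pi * (acot2 R).re)) < 0 :=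
    Real.cos_neg_of_pi_div_two_lt_of_lt (by nlinarith only [hpi, hc]) (by nlinarith only [x0, hpi, x1])
  rw [← h2] at h3
  have : 0 ≤ (R.re ^ 2 + R.im ^ 2 - 1) * D := mul_nonneg (by linarith only [hN]) hD.le
  linarith only [h3, this]

lemma y_im_nonneg {R : ℂ} (h : 0 < R.re) (hi : R.im ≤ 0) : 0 ≤ (acot2 R).im := by
  obtain ⟨D, hD, _, _, _, h4⟩ := y_eqs h
  have hpi := Real.pi_pos
  by_contra hc
  push Not at hc
  have h3 : Real.sinh (2 * (Real.pi * (acot2 R).im)) < 0 := Real.sinh_neg_iff.2 (by nlinarith only [hpi, hc])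
  have h5 : R.im * D ≤ 0 := mul_nonpos_of_nonpos_of_nonneg hi hD.le
  linarith only [h4, h3, h5]

/-- `tanh (2 π 59 / 1000) ≥ 354 / 1000` -/
lemma tanh_59 {u : ℝ} (h : 3706 / 10000 ≤ u) : 354 / 1000 * Real.cosh u < Real.sinh u := by
  have h1 : Real.exp (7412 / 10000) ≤ Real.exp (2 * u) := Real.exp_le_exp.2 (by linarith only [h])
  have h2 : (2098 / 1000 : ℝ) ≤ Real.exp (7412 / 10000) := by
    refine le_trans ?_ (Real.sum_le_exp_of_nonneg (x := 7412 / 10000) (by norm_num) 7)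
    simp only [Finset.sum_range_succ, Finset.sum_range_zero]
    norm_num [Nat.factorial]
  have h3 : Real.exp (2 * u) = Real.exp u * Real.exp u := by rw [← Real.exp_add]; ring_nf
  have h4 : Real.exp u * Real.exp (-u) = 1 := by rw [← Real.exp_add]; simp
  have h5 := Real.exp_pos u
  have h6 := Real.exp_pos (-u)
  rw [Real.cosh_eq, Real.sinh_eq]
  have h7 : (1354 / 646 : ℝ) < Real.exp u * Real.exp u := by
    rw [← h3]
    refine lt_of_lt_of_le ?_ (h2.trans h1)
    norm_num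
  have h8 : 1354 / 646 * Real.exp (-u) < Real.exp u := by
    have := mul_lt_mul_of_pos_right h7 h6
    rw [mul_assoc, h4, mul_one] at this
    exact this
  linarith only [h8]

lemma y_im_le {R : ℂ} (h : 0 < R.re)
    (hq : 2 * -R.im ≤ 354 / 1000 * (R.re ^ 2 + R.im ^ 2 + 1)) : (acot2 R).im ≤ 59 / 1000 := by
  obtain ⟨D, hD, h1, _, _, h4⟩ := y_eqs h
  have hpi := Real.pi_gt_d4
  by_contra hc
  push Not at hc
  have h3 := tanh_59 (u := 2 * (Real.pi * (acot2 R).im)) (by nlinarith only [hpi, hc])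
  rw [← h1] at h3
  have h5 := mul_le_mul_of_nonneg_right hq hD.le
  linarith only [h4, h3, h5]

/-- `sin (16 π / 100)` and `cos (16 π / 100)` -/
lemma sc_16 {x : ℝ} (h0 : 0 < x) (h1 : x < 17 / 100) :
    Real.sin (2 * (Real.pi * x)) < 18215 / 10000 * Real.cos (2 * (Real.pi * x)) := by
  have hpi := Real.pi_gt_d4
  have hpi2 := Real.pi_lt_d4
  have a1 : Real.sin (2 * (Real.pi * x)) < Real.sin (34 / 100 * Real.pi) :=
    Real.sin_lt_sin_of_lt_of_le_pi_div_two (by nlinarith only [h1, hpi, h0]) (by linarith only [hpi, hpi2]) (by nlinarith only [h0, h1, hpi])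
  have a2 : Real.cos (34 / 100 * Real.pi) < Real.cos (2 * (Real.pi * x)) :=
    Real.cos_lt_cos_of_nonneg_of_le_pi (by nlinarith only [h0, h1, hpi]) (by linarith only [hpi, hpi2]) (by nlinarith only [h0, h1, hpi])
  have e1 : Real.sin (34 / 100 * Real.pi) = Real.cos (16 / 100 * Real.pi) := by
    rw [← Real.cos_pi_div_two_sub]; congr 1; ring
  have e2 : Real.cos (34 / 100 * Real.pi) = Real.sin (16 / 100 * Real.pi) := by
    rw [← Real.sin_pi_div_two_sub]; congr 1; ring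
  have l1 : (50264 / 100000 : ℝ) ≤ 16 / 100 * Real.pi := by linarith only [hpi]
  have l2 : 16 / 100 * Real.pi ≤ (50267 / 100000 : ℝ) := by linarith only [hpi, hpi2]
  have b1 := (abs_le.1 (Real.cos_bound (x := 50264 / 100000)
    (by rw [abs_of_pos (by norm_num)]; norm_num))).2
  have b2 := Real.sin_gt_sub_cube (x := 50264 / 100000) (by norm_num)
  have b3 : Real.cos (16 / 100 * Real.pi) ≤ Real.cos (50264 / 100000) :=
    Real.cos_le_cos_of_nonneg_of_le_pi (by norm_num) (by linarith only [hpi, hpi2]) l1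
  have b4 : Real.sin (50264 / 100000) ≤ Real.sin (16 / 100 * Real.pi) :=
    Real.sin_le_sin_of_le_of_le_pi_div_two (by linarith only [hpi, hpi2]) (by linarith only [hpi, hpi2]) l1
  rw [abs_of_pos (by norm_num)] at b1
  rw [e1] at a1
  rw [e2] at a2
  norm_num at b1 b2
  linarith only [hpi, hpi2, a1, a2, b3, b4, b1, b2]

lemma y_re_ge {R : ℂ} (h : 0 < R.re)
    (hq : 18215 / 10000 * (R.re ^ 2 + R.im ^ 2 - 1) ≤ 2 * R.re) : 17 / 100 ≤ (acot2 R).re := by
  obtain ⟨D, hD, _, h2, h3, _⟩ := y_eqs h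
  obtain ⟨x0, x1⟩ := acot2_re_pos h
  by_contra hc
  push Not at hc
  have h4 := sc_16 x0 hc
  rw [← h2, ← h3] at h4
  have h5 := mul_le_mul_of_nonneg_right hq hD.le
  linarith only [h4, h5]

/-! ### the region of `R ^ 2` -/

lemma reg_T {N A b : ℝ} (hN0 : 0 < N) (hN : N ^ 2 = A ^ 2 + b ^ 2) (hb0 : 0 ≤ b)
    (hb1 : b ≤ 1344 / 1000) (hbA : b ≤ 278 / 100 * (A - 1)) :
    2 * (N - A) ≤ (354 / 1000) ^ 2 * (N + 1) ^ 2 := by
  have hA : 1 + b * (100 / 278) ≤ A := by linarith only [hbA]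
  have hA0 : 0 < A := by linarith only [hb0, hbA]
  have h1 : 741 / 1000 * A + 671 / 1000 * b ≤ N := by
    apply le_of_sq_le_sq _ hN0.le
    rw [hN]
    nlinarith only [sq_nonneg (671 / 1000 * A - 741 / 1000 * b)]
  have h2 : 741 / 1000 + 9375 / 10000 * b ≤ N := by linarith only [hb0, hbA, h1]
  have h3 : 2 * b ^ 2 ≤ (354 / 1000) ^ 2 * ((1741 / 1000 + 9375 / 10000 * b) ^ 2 *
      (1741 / 1000 + 1297 / 1000 * b)) := by
    nlinarith only [hb0, hb1, mul_nonneg hb0 (sub_nonneg.2 hb1), mul_nonneg (mul_nonneg hb0 hb0) (sub_nonneg.2 hb1),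
      mul_nonneg hb0 (mul_nonneg (sub_nonneg.2 hb1) (sub_nonneg.2 hb1))]
  have h4 : (1741 / 1000 + 9375 / 10000 * b) ^ 2 * (1741 / 1000 + 1297 / 1000 * b) ≤
      (N + 1) ^ 2 * (N + A) := by
    apply mul_le_mul (pow_le_pow_left₀ (by positivity) (by linarith only [hb0, hbA, h1]) 2) (by linarith only [hb0, hbA, h1])
      (by positivity) (by positivity)
  have h5 : 2 * (N - A) * (N + A) ≤ (354 / 1000) ^ 2 * (N + 1) ^ 2 * (N + A) := by
    have e : 2 * (N - A) * (N + A) = 2 * b ^ 2 := by linear_combination 2 * hN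
    rw [e]
    have := mul_le_mul_of_nonneg_left h4 (by norm_num : (0 : ℝ) ≤ (354 / 1000) ^ 2)
    linarith only [h3, h4]
  exact le_of_mul_le_mul_right h5 (by linarith only [hN0, hb0, hbA])

lemma reg_x {N A b : ℝ} (hN0 : 0 < N) (hN : N ^ 2 = A ^ 2 + b ^ 2) (hb0 : 0 ≤ b)
    (hb1 : b ≤ 1344 / 1000) (hA1 : 1 ≤ A) (hA2 : A ≤ 2481 / 1000)
    (hAb : 16 / 10 * A + b ≤ 51 / 10) :
    (18215 / 10000) ^ 2 * (N - 1) ^ 2 ≤ 2 * (N + A) := by
  have hNA : A ≤ N := by
    apply le_of_sq_le_sq _ hN0.le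
    rw [hN]; nlinarith only []
  have hN1 : 1 ≤ N := by linarith only [hA1, hNA]
  have hN2 : N ≤ 2727 / 1000 := by
    apply le_of_sq_le_sq _ (by norm_num)
    rw [hN]
    nlinarith only [hA2, hAb, hb0, hb1, hA1, mul_nonneg (sub_nonneg.2 hA2) (sub_nonneg.2 hAb), mul_nonneg (sub_nonneg.2 hA2) (by linarith only [hA1] : 0 ≤ A),
      mul_nonneg hb0 (sub_nonneg.2 hb1), mul_nonneg hb0 (sub_nonneg.2 hAb), mul_nonneg (sub_nonneg.2 hb1) (sub_nonneg.2 hAb),
      mul_nonneg (sub_nonneg.2 hb1) (sub_nonneg.2 hA2)]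
  by_cases h22 : N ≤ 22 / 10
  · nlinarith only [hA1, hN2, h22, hN1, mul_nonneg (sub_nonneg.2 h22) (sub_nonneg.2 hN1)]
  · push Not at h22
    have hA3 : 1741 / 1000 + 1198 / 1000 * (N - 22 / 10) ≤ A := by
      apply le_of_sq_le_sq _ (by linarith only [hA1])
      have : b ^ 2 ≤ (1344 / 1000) ^ 2 := pow_le_pow_left₀ hb0 hb1 2
      nlinarith only [hN, hN2, this, h22, mul_nonneg (sub_nonneg.2 h22.le) (sub_nonneg.2 hN2)]
    nlinarith only [hN2, hA3, h22, mul_nonneg (sub_nonneg.2 h22.le) (sub_nonneg.2 hN2)]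

/-- linear bounds for `1 / k ^ 2` -/
structure QB (k : ℂ) : Prop where
  n : 0 < k.re ^ 2 + k.im ^ 2
  b0 : 0 ≤ py k
  ba : py k ≤ 278 / 100 * (px k - 1)
  b1 : py k ≤ 672 / 1000
  a1 : px k ≤ 17405 / 10000
  ab : 16 / 10 * px k + py k ≤ 335 / 100

/-- the check of `QB` on a polygon -/
def qbOK (V : List (ℤ × ℤ)) : Bool :=
  polyOK 0 0 (-1000) 20 V && polyOK 0 1000 0 0 V && polyOK 2780 (-1000) 2780 0 V &&
    polyOK 0 (-1000) (-672) 0 V && polyOK (-10000) 0 (-17405) 0 V && polyOK (-1600) (-1000) (-3350) 0 V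

lemma qb_of {V : List (ℤ × ℤ)} (h : qbOK V = true) {k : ℂ} (hk : k ∈ PolyU V) : QB k := by
  have hk' : k ∈ Poly V := fun e he => (hk e he).le
  simp only [qbOK, Bool.and_eq_true] at h
  obtain ⟨⟨⟨⟨⟨h0, h1⟩, h2⟩, h3⟩, h4⟩, h5⟩ := h
  have g1 := px_py_of h0 h1 hk'
  have g2 := px_py_of h0 h2 hk'
  have g3 := px_py_of h0 h3 hk'
  have g4 := px_py_of h0 h4 hk'
  have g5 := px_py_of h0 h5 hk'
  push_cast at g1 g2 g3 g4 g5
  exact ⟨n_pos h0 hk', by linarith only [g1], by linarith only [g2], by linarith only [g3], by linarith only [g4], by linarith only [g5]⟩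

/-- **The box of a hinge between two rings of equal sign.** -/
theorem box_zz {R k k' : ℂ} (hR : 0 < R.re) (h : R ^ 2 + 1 = 1 / k ^ 2 + 1 / k' ^ 2)
    (q : QB k) (q' : QB k') : (hbox .ring .ring true).In (acot2 R) ∧ 0 ≤ (acot2 R).im ∧
      (acot2 R).re ≤ 1 / 4 := by
  have e1 : (R ^ 2).re = px k + px k' - 1 := by
    have := congrArg Complex.re h
    rw [Complex.add_re, Complex.add_re, one_div, one_div, inv_sq_re, inv_sq_re, Complex.one_re] at this
    linarith only [this]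
  have e2 : (R ^ 2).im = -(py k + py k') := by
    have := congrArg Complex.im h
    rw [Complex.add_im, Complex.add_im, one_div, one_div, inv_sq_im, inv_sq_im, Complex.one_im] at this
    linarith only [this]
  rw [sq_re] at e1
  rw [sq_im] at e2
  have := q.b0
  have := q.ba
  have := q.b1
  have := q.a1
  have := q.ab
  have := q'.b0
  have := q'.ba
  have := q'.b1
  have := q'.a1
  have := q'.ab
  set A := px k + px k' - 1
  set b := py k + py k'
  set N := R.re ^ 2 + R.im ^ 2 with hNd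
  have hN0 : 0 < N := by positivity
  have hN : N ^ 2 = A ^ 2 + b ^ 2 := by
    have e3 : b = -(2 * R.re * R.im) := by linarith only [e2]
    rw [e3, ← e1, hNd]; ring
  have r1 := reg_T hN0 hN (by linarith) (by linarith) (by linarith)
  have r2 := reg_x hN0 hN (by linarith) (by linarith) (by linarith) (by linarith) (by linarith)
  have hA1 : 1 ≤ A := by linarith
  have hN1 : 1 ≤ N := by
    apply le_of_sq_le_sq _ hN0.le
    rw [hN]; nlinarith
  have hi : R.im ≤ 0 := by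
    by_contra hc
    push Not at hc
    have := mul_pos hR hc
    linarith
  have x2 : 2 * R.re ^ 2 = N + A := by rw [← e1, hNd]; ring
  have y2 : 2 * R.im ^ 2 = N - A := by rw [← e1, hNd]; ring
  have h1 := y_quarter hR hN1
  have h2 := y_im_nonneg hR hi
  have h3 : (acot2 R).im ≤ 59 / 1000 := by
    apply y_im_le hR
    apply le_of_sq_le_sq _ (by positivity)
    calc (2 * -R.im) ^ 2 = 2 * (N - A) := by rw [← y2]; ring
      _ ≤ _ := r1
      _ = _ := by ring
  have h4 : 17 / 100 ≤ (acot2 R).re := by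
    apply y_re_ge hR
    apply le_of_sq_le_sq _ (by positivity)
    calc _ = (18215 / 10000) ^ 2 * (N - 1) ^ 2 := by ring
      _ ≤ _ := r2
      _ = (2 * R.re) ^ 2 := by rw [← x2]; ring
  refine ⟨⟨?_, ?_, ?_, ?_⟩, h2, h1⟩ <;> simp only [hbox] <;> linarith only [h4, h1, h2, h3]

lemma y_re_le24 {R : ℂ} (h : 0 < R.re) (hN : 3 / 2 ≤ R.re ^ 2 + R.im ^ 2) :
    (acot2 R).re ≤ 24 / 100 := by
  obtain ⟨D, hD, h1, h2, _, _⟩ := y_eqs h
  obtain ⟨x0, x1⟩ := acot2_re_pos h
  have hpi := Real.pi_pos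
  have hpi2 := Real.pi_lt_d4
  by_contra hc
  push Not at hc
  have a1 := Real.one_le_cosh (2 * (Real.pi * (acot2 R).im))
  rw [← h1] at a1
  have a2 : Real.cos (2 * (Real.pi * (acot2 R).re)) < Real.cos (48 / 100 * Real.pi) :=
    Real.cos_lt_cos_of_nonneg_of_le_pi (by positivity) (by nlinarith only [x1, hpi]) (by nlinarith only [hpi, hc])
  have e1 : Real.cos (48 / 100 * Real.pi) = Real.sin (2 / 100 * Real.pi) := by
    rw [← Real.sin_pi_div_two_sub]; congr 1; ring
  have a3 : Real.sin (2 / 100 * Real.pi) ≤ 2 / 100 * Real.pi := Real.sin_le (by positivity)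
  rw [← h2, e1] at a2
  set N := R.re ^ 2 + R.im ^ 2
  have a4 : (N + 1) * (1 / 5) * D ≤ (N - 1) * D := mul_le_mul_of_nonneg_right (by linarith only [hN]) hD.le
  linarith only [x0, x1, hpi2, a3, a1, a2, a4]

/-- all values of rings with an unsplit side of equal sign -/
def ZQ (K : KFam) : Prop := ∀ d l, ROK d l .z → ∀ k ∈ K.K d l .z, QB k

theorem un_z {K : KFam} (hK : ZQ K) {d : ℕ} {l : SK} {d' : ℕ} {l' : SK} {R k k' : ℂ}
    (h : HDt K .z d l d' l' R k k') : (hbox (cK d l) (cK d' l') true).In (acot2 R) ∧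
      0 ≤ (acot2 R).im ∧ (acot2 R).re ≤ 1 / 4 := by
  have h4 : 4 ≤ d := h.ok.left.zr rfl
  have h4' : 4 ≤ d' := h.ok.right.zl rfl
  have c1 : cK d l = .ring := by
    unfold cK
    rw [if_neg (by omega), if_neg (by omega), if_neg (by omega)]
  have c2 : cK d' l' = .ring := by
    unfold cK
    rw [if_neg (by omega), if_neg (by omega), if_neg (by omega)]
  have m1 := h.mem'
  rw [show SK.z.sgn = 1 from rfl, frS_one, K.symm] at m1
  rw [c1, c2]
  exact box_zz (r0_pos.trans h.Rre) h.hinge (hK d l h.ok.left k h.mem) (hK d' l' h.ok.right.symm k' m1)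

/-- a sharper bound if the real part of `1 / k ^ 2` is at least `3 / 2` -/
theorem un_z24 {K : KFam} (hK : ZQ K) {d : ℕ} {l : SK} {d' : ℕ} {l' : SK} {R k k' : ℂ}
    (h : HDt K .z d l d' l' R k k') (hk : 3 / 2 ≤ px k) : (acot2 R).re ≤ 24 / 100 := by
  have m1 := h.mem'
  rw [show SK.z.sgn = 1 from rfl, frS_one, K.symm] at m1
  have q' := hK d' l' h.ok.right.symm k' m1
  have hR := r0_pos.trans h.Rre
  apply y_re_le24 hR
  have e1 : (R ^ 2).re = px k + px k' - 1 := by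
    have := congrArg Complex.re h.hinge
    rw [Complex.add_re, Complex.add_re, one_div, one_div, inv_sq_re, inv_sq_re, Complex.one_re] at this
    linarith only [this]
  rw [sq_re] at e1
  have := q'.b0
  have := q'.ba
  have := sq_nonneg R.im
  linarith

end Z8

end Pool.Agent.Work.MP_b30479_gt.G2
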