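import Pool.Agent.Work.MP_b30479_gt.G2.SRingG
import Pool.Agent.Work.MP_b30479_gt.G2.SIm
import Pool.Agent.Work.MP_b30479_gt.G2.SWordC

/-!
# Rings with at least four crossings: imaginary parts of `QQ`
-/

namespace Pool.Agent.Work.MP_b30479_gt.G2

open Complex Set SQ KB
open scoped ComplexConjugate

lemma tan_re_nonneg' {w : ℂ} (h0 : 0 ≤ w.re) (h1 : w.re ≤ 3 / 2) : 0 ≤ (Complex.tan w).re :=
  tan_re_nonneg h0 h1

lemma QQ_im_lt {w k : ℂ} (hR : 0 < (RR w k).re) (h0 : 0 ≤ w.re) (h1 : w.re ≤ 3 / 2)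
    (hk : 0 < k.re) : |(QQ w k).im| < Real.pi := by
  have hT := tan_re_nonneg h0 h1
  have a1 : |(Complex.tan w + RR w k).arg| < Real.pi / 2 :=
    Complex.abs_arg_lt_pi_div_two_iff.2 (Or.inl (by rw [Complex.add_re]; linarith only [hR, hT]))
  have a2 : |k.arg| < Real.pi / 2 := Complex.abs_arg_lt_pi_div_two_iff.2 (Or.inl hk)
  have e : (QQ w k).im = (Complex.tan w + RR w k).arg + k.arg := by
    unfold QQ
    rw [Complex.add_im, Complex.log_im, Complex.log_im]
  rw [abs_lt] at *
  rw [e]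
  constructor <;> linarith only [a1, a2, a1.1, a1.2, a2.1, a2.2]

lemma cosh_QQ {w k : ℂ} (hR : 0 < (RR w k).re) (h0 : 0 ≤ w.re) (h1 : w.re ≤ 3 / 2)
    (hk : 0 < k.re) : Complex.cosh (QQ w k) = RR w k * k ∧
      Complex.sinh (QQ w k) = Complex.tan w * k := by
  obtain ⟨e1, e2⟩ := exp_QQ hR h0 h1 hk
  rw [Complex.cosh, Complex.sinh, e1, e2]
  constructor <;> ring

lemma cosh_re_im (z : ℂ) : (Complex.cosh z).re = Real.cosh z.re * Real.cos z.im ∧
    (Complex.sinh z).im = Real.cosh z.re * Real.sin z.im ∧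
    (Complex.sinh z).re = Real.sinh z.re * Real.cos z.im := by
  have e : z = (z.re : ℂ) + z.im * I := (Complex.re_add_im z).symm
  refine ⟨?_, ?_, ?_⟩
  · conv_lhs => rw [e, Complex.cosh_add, Complex.cosh_mul_I, Complex.sinh_mul_I]
    simp [Complex.cosh_ofReal_re, Complex.sinh_ofReal_re, Complex.cos_ofReal_re,
      Complex.sin_ofReal_re, Complex.cosh_ofReal_im, Complex.sinh_ofReal_im,
      Complex.cos_ofReal_im, Complex.sin_ofReal_im]
  · conv_lhs => rw [e, Complex.sinh_add, Complex.cosh_mul_I, Complex.sinh_mul_I]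
    simp [Complex.cosh_ofReal_re, Complex.sinh_ofReal_re, Complex.cos_ofReal_re,
      Complex.sin_ofReal_re, Complex.cosh_ofReal_im, Complex.sinh_ofReal_im,
      Complex.cos_ofReal_im, Complex.sin_ofReal_im]
  · conv_lhs => rw [e, Complex.sinh_add, Complex.cosh_mul_I, Complex.sinh_mul_I]
    simp [Complex.cosh_ofReal_re, Complex.sinh_ofReal_re, Complex.cos_ofReal_re,
      Complex.sin_ofReal_re, Complex.cosh_ofReal_im, Complex.sinh_ofReal_im,
      Complex.cos_ofReal_im, Complex.sin_ofReal_im]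

lemma QQ_im_half {w k : ℂ} (hR : 0 < (RR w k).re) (h0 : 0 ≤ w.re) (h1 : w.re ≤ 3 / 2)
    (hk : 0 < k.re) (h : 0 < (RR w k * k).re) : |(QQ w k).im| < Real.pi / 2 := by
  have h2 := QQ_im_lt hR h0 h1 hk
  rw [← (cosh_QQ hR h0 h1 hk).1, (cosh_re_im _).1] at h
  have h3 := Real.cosh_pos (QQ w k).re
  have h4 : 0 < Real.cos (QQ w k).im := by
    by_contra hc
    push Not at hc
    nlinarith only [h, h3, hc]
  by_contra hc
  push Not at hc
  rw [← Real.cos_abs] at h4
  have := Real.cos_nonpos_of_pi_div_two_le_of_le hc (by linarith only [h2, hc])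
  linarith only [h4, this]

/-! ### polygons -/

lemma own_h {t : RT} (ht : typS t = true) {z : ℂ} (hz : z ∈ Poly (vt t)) :
    46 / 100 ≤ px z - 1 / 2 * py z := by
  have := px_py_of (al := 1000) (be := -500) (ga := 460) (V := vt t) (by cases t <;> decide)
    (by revert ht; cases t <;> simp only [typS] <;> decide) hz
  push_cast at this
  linarith only [this]

lemma pA_h {k : ℂ} (hk : k ∈ Poly pA) : 57 / 100 ≤ px k + 1 / 2 * py k := by
  have := px_py_of (al := 1000) (be := 500) (ga := 570) (V := pA) (by decide) (by decide) hk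
  push_cast at this
  linarith only [this]

lemma pA_slope {k : ℂ} (hk : k ∈ Poly pA) : k.im ≤ 106 / 100 * k.re := by
  have := lin_sound (al := 1060) (be := -1000) (mu := 0) (V := pA) (by decide) hk
  push_cast at this
  linarith only [this]

lemma pA_re {k : ℂ} (hk : k ∈ Poly pA) : 4 / 10 ≤ k.re ∧ k.re ≤ 1 := by
  have h1 := lin_sound (al := 1) (be := 0) (mu := 400) (V := pA) (by decide) hk
  have h2 := lin_sound (al := -1) (be := 0) (mu := -1000) (V := pA) (by decide) hk
  push_cast at h1 h2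
  constructor <;> linarith only [h1, h2]

lemma pA_im {k : ℂ} (hk : k ∈ Poly pA) : 0 ≤ k.im ∧ k.im ≤ 676 / 1000 := by
  have h1 := lin_sound (al := 0) (be := 1) (mu := 0) (V := pA) (by decide) hk
  have h2 := lin_sound (al := 0) (be := -1) (mu := -676) (V := pA) (by decide) hk
  push_cast at h1 h2
  constructor <;> linarith only [h1, h2]

lemma pS_re {k : ℂ} (hk : k ∈ Poly pS) : 5 / 10 ≤ k.re ∧ k.re ≤ 1 := by
  have h1 := lin_sound (al := 1) (be := 0) (mu := 500) (V := pS) (by decide) hk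
  have h2 := lin_sound (al := -1) (be := 0) (mu := -1000) (V := pS) (by decide) hk
  push_cast at h1 h2
  constructor <;> linarith only [h1, h2]

lemma pS_im {k : ℂ} (hk : k ∈ Poly pS) : 0 ≤ k.im ∧ k.im ≤ 676 / 1000 := by
  have h1 := lin_sound (al := 0) (be := 1) (mu := 0) (V := pS) (by decide) hk
  have h2 := lin_sound (al := 0) (be := -1) (mu := -676) (V := pS) (by decide) hk
  push_cast at h1 h2
  constructor <;> linarith only [h1, h2]

/-- ports of opposite sign -/
lemma RRk_a {t : RT} (ht : typS t = true) {w k : ℂ} (hw : Complex.cos w ∈ Poly (vt t))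
    (hk : conj k ∈ Poly pA) (hR : 0 < (RR w k).re) : 0 < (RR w k * k).re := by
  have hc := cos_ne_of_n (own_n hw)
  obtain ⟨e1, e2⟩ := RR_a (k := k) hc
  have h1 := own_h ht hw
  have h2 := pA_h hk
  have h3 := pA_slope hk
  have h4 := (pA_re hk).1
  have h5 := (pA_im hk).1
  rw [Complex.conj_re] at h3 h4
  rw [Complex.conj_im] at h3 h5
  rw [sq_re] at e1
  rw [sq_im] at e2
  set R := RR w k
  have h6 : 0 < R.re ^ 2 - R.im ^ 2 + R.re * R.im := by nlinarith only [h1, h2, e1, e2]
  rw [Complex.mul_re]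
  rcases le_or_gt 0 R.im with h7 | h7
  · nlinarith only [h7, h5, hR, h4, mul_nonneg h7 h5, mul_pos hR (lt_of_lt_of_le (by norm_num) h4 : 0 < k.re)]
  · have h8 : -R.im < 62 / 100 * R.re := by
      by_contra hc
      push Not at hc
      nlinarith only [h1, h2, e1, e2, hR, hc, h7]
    nlinarith only [h8, hR, h4, h3, h7, mul_pos hR (lt_of_lt_of_le (by norm_num) h4 : 0 < k.re)]

/-- ports of equal sign -/
lemma RRk_s {t : RT} {w k : ℂ} (hw : Complex.cos w ∈ Poly (vt t))
    (hk : k ∈ Poly pS) (hR : 0 < (RR w k).re) : 0 < (RR w k * k).re := by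
  have hc := cos_ne_of_n (own_n hw)
  obtain ⟨e1, e2⟩ := RR_s (k := k) hc
  have h2 := own_y hw
  have h3 := pS_y hk
  have h4 := (pS_re hk).1
  have h5 := (pS_im hk).1
  have h6 := im_nonpos_of_sq hR (by rw [e2]; linarith only [h2, h3])
  rw [Complex.mul_re]
  nlinarith only [h6, h5, hR, h4, mul_nonneg (neg_nonneg.2 h6) h5,
    mul_pos hR (lt_of_lt_of_le (by norm_num) h4 : 0 < k.re)]

/-! ### a split hinge -/

/-- at least five crossings -/
def typ5 : RT → Bool
  | .t5 | .t6 | .t7 | .t8 => true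
  | _ => false

lemma own5_1 {t : RT} (ht : typ5 t = true) {z : ℂ} (hz : z ∈ Poly (vt t)) :
    -(9 / 100) ≤ 7 / 10 * px z - py z := by
  have := px_py_of (al := 700) (be := -1000) (ga := -90) (V := vt t) (by cases t <;> decide)
    (by revert ht; cases t <;> simp only [typ5] <;> decide) hz
  push_cast at this
  linarith only [this]

lemma own5_2 {t : RT} (ht : typ5 t = true) {z : ℂ} (hz : z ∈ Poly (vt t)) :
    97 / 100 ≤ px z ∧ px z ≤ 2 := by
  have h1 := px_py_of (al := 1000) (be := 0) (ga := 970) (V := vt t) (by cases t <;> decide)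
    (by revert ht; cases t <;> simp only [typ5] <;> decide) hz
  have h2 := px_py_of (al := -1000) (be := 0) (ga := -2000) (V := vt t) (by cases t <;> decide)
    (by revert ht; cases t <;> simp only [typ5] <;> decide) hz
  push_cast at h1 h2
  constructor <;> linarith only [h1, h2]

lemma own5_3 {t : RT} (ht : typ5 t = true) {z : ℂ} (hz : z ∈ Poly (vt t)) :
    ‖1 - z ^ 2‖ ^ 2 ≤ 1123 / 1000 * (z.re ^ 2 + z.im ^ 2) ^ 2 := by
  have h : polyOK 2000 0 (-123) 1000 (vt t) = true := by
    revert ht; cases t <;> simp only [typ5] <;> decide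
  have := poly_sound h hz
  rw [norm_one_sub_sq]
  simp only [quart, Int.cast_ofNat, Int.cast_zero, Int.cast_neg] at this
  linarith only [this]

lemma own5_4 {t : RT} (ht : typ5 t = true) {z : ℂ} (hz : z ∈ Poly (vt t)) :
    z.re ^ 2 + z.im ^ 2 ≤ 1 := by
  have h1 : z.re ≤ 1 ∧ z.im ≤ 25 / 100 ∧ 0 ≤ z.im ∧ z.re + 4 / 10 * z.im ≤ 1 ∧ 0 < z.re := by
    have h1 := lin_sound (al := -1) (be := 0) (mu := -1000) (V := vt t)
      (by revert ht; cases t <;> simp only [typ5] <;> decide) hz
    have h2 := lin_sound (al := 0) (be := -1) (mu := -250) (V := vt t)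
      (by revert ht; cases t <;> simp only [typ5] <;> decide) hz
    have h3 := lin_sound (al := 0) (be := 1) (mu := 0) (V := vt t)
      (by revert ht; cases t <;> simp only [typ5] <;> decide) hz
    have h4 := lin_sound (al := -10) (be := -4) (mu := -10000) (V := vt t)
      (by revert ht; cases t <;> simp only [typ5] <;> decide) hz
    have h5 := poly_re_pos t z hz
    push_cast at h1 h2 h3 h4
    refine ⟨by linarith only [h1], by linarith only [h2], by linarith only [h3], by linarith only [h4], h5⟩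
  obtain ⟨h1, h2, h3, h4, h5⟩ := h1
  nlinarith only [h1, h4, h5, h2, h3]

lemma cos_sq_add (w : ℂ) : (Complex.cos w).re ^ 2 + (Complex.cos w).im ^ 2 =
    Real.cos w.re ^ 2 + Real.sinh w.im ^ 2 ∧
    ‖1 - Complex.cos w ^ 2‖ = Real.sin w.re ^ 2 + Real.sinh w.im ^ 2 := by
  have e : w = (w.re : ℂ) + w.im * I := (Complex.re_add_im w).symm
  have h1 : (Complex.cos w).re = Real.cos w.re * Real.cosh w.im ∧
      (Complex.cos w).im = -(Real.sin w.re * Real.sinh w.im) := by
    constructor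
    · conv_lhs => rw [e, Complex.cos_add, Complex.cos_mul_I, Complex.sin_mul_I]
      simp [Complex.cosh_ofReal_re, Complex.sinh_ofReal_re, Complex.cos_ofReal_re,
        Complex.sin_ofReal_re, Complex.cosh_ofReal_im, Complex.sinh_ofReal_im,
        Complex.cos_ofReal_im, Complex.sin_ofReal_im]
    · conv_lhs => rw [e, Complex.cos_add, Complex.cos_mul_I, Complex.sin_mul_I]
      simp [Complex.cosh_ofReal_re, Complex.sinh_ofReal_re, Complex.cos_ofReal_re,
        Complex.sin_ofReal_re, Complex.cosh_ofReal_im, Complex.sinh_ofReal_im,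
        Complex.cos_ofReal_im, Complex.sin_ofReal_im]
  have h2 : (Complex.sin w).re = Real.sin w.re * Real.cosh w.im ∧
      (Complex.sin w).im = Real.cos w.re * Real.sinh w.im := by
    constructor
    · conv_lhs => rw [e, Complex.sin_add, Complex.cos_mul_I, Complex.sin_mul_I]
      simp [Complex.cosh_ofReal_re, Complex.sinh_ofReal_re, Complex.cos_ofReal_re,
        Complex.sin_ofReal_re, Complex.cosh_ofReal_im, Complex.sinh_ofReal_im,
        Complex.cos_ofReal_im, Complex.sin_ofReal_im]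
    · conv_lhs => rw [e, Complex.sin_add, Complex.cos_mul_I, Complex.sin_mul_I]
      simp [Complex.cosh_ofReal_re, Complex.sinh_ofReal_re, Complex.cos_ofReal_re,
        Complex.sin_ofReal_re, Complex.cosh_ofReal_im, Complex.sinh_ofReal_im,
        Complex.cos_ofReal_im, Complex.sin_ofReal_im]
  have h3 := Real.cosh_sq w.im
  have h4 := Real.sin_sq_add_cos_sq w.re
  constructor
  · rw [h1.1, h1.2]
    nlinarith only [h3, h4]
  · have e2 : 1 - Complex.cos w ^ 2 = Complex.sin w ^ 2 := by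
      rw [← Complex.sin_sq_add_cos_sq w]
      ring
    rw [e2, norm_pow, norm_sq_re_im, h2.1, h2.2]
    nlinarith only [h3, h4]

lemma split_aux {a b x y n c s m : ℝ} (u1 : a ^ 2 - b ^ 2 = x) (u2 : 2 * a * b = -y)
    (hx1 : -(3 / 100) ≤ x) (hx2 : x ≤ 1) (hy0 : 0 ≤ y) (hy : y ≤ 79 / 100 + 7 / 10 * x)
    (hn0 : 0 ≤ n) (hn : n ≤ 1) (hs : m ^ 2 ≤ 1123 / 1000 * n ^ 2) (c1 : n = c ^ 2 + s)
    (c2 : m = 1 - c ^ 2 + s) : b ^ 2 ≤ c ^ 2 := by
  have t1 : (a ^ 2 + b ^ 2) ^ 2 = x ^ 2 + y ^ 2 := by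
    have h : (a ^ 2 + b ^ 2) ^ 2 = (a ^ 2 - b ^ 2) ^ 2 + (2 * a * b) ^ 2 := by ring
    rw [h, u1, u2]
    ring
  have t2 : y ^ 2 ≤ 64 / 100 + 16 / 10 * x := by
    have : y ^ 2 ≤ (79 / 100 + 7 / 10 * x) ^ 2 := pow_le_pow_left₀ hy0 hy 2
    nlinarith only [hx1, this, hx2]
  have t3 : a ^ 2 + b ^ 2 ≤ 8 / 10 + x := by
    apply le_of_sq_le_sq _ (by linarith only [hx1])
    rw [t1]
    nlinarith only [t2]
  have t4 : b ^ 2 ≤ 4 / 10 := by linarith only [u1, t3]
  have s1 : m ≤ 106 / 100 * n := by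
    apply le_of_sq_le_sq _ (by positivity)
    nlinarith only [hs, sq_nonneg n]
  nlinarith only [u1, hn, c1, c2, t3, s1]

/-- next to a split hinge -/
lemma split_im {t : RT} (ht : typ5 t = true) {w k : ℂ} (hw : Complex.cos w ∈ Poly (vt t))
    (hk : k ∈ Poly pS) (hR : 0 < (RR w k).re) (h0 : 0 < w.re) (h1 : w.re ≤ 3 / 2) :
    |(-QQ w k + I * w).im| ≤ Real.pi / 2 := by
  have hpi := Real.pi_gt_three
  have hk1 := pS_re hk
  have hk2 := pS_im hk
  have hkr : 0 < k.re := by linarith only [hk1, hk1.1]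
  have hRk := RRk_s hw hk hR
  have hQ := QQ_im_half hR h0.le h1 hkr hRk
  obtain ⟨_, hs⟩ := cosh_QQ hR h0.le h1 hkr
  have hs2 := (cosh_re_im (QQ w k)).2.1
  rw [hs, Complex.mul_im] at hs2
  have hT := tan_re_nonneg h0.le h1
  have hc := cos_ne_of_n (own_n hw)
  have e1 : (-QQ w k + I * w).im = w.re - (QQ w k).im := by
    rw [Complex.add_im, Complex.neg_im, Complex.I_mul_im]
    ring
  rw [abs_lt] at hQ
  rw [e1, abs_le]
  constructor
  · linarith only [h0, hQ, hQ.2]
  -- bounds for tan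
  have u1 : (Complex.tan w ^ 2).re = px (Complex.cos w) - 1 ∧
      (Complex.tan w ^ 2).im = -py (Complex.cos w) := by
    rw [tan_sq_eq, sub_div, div_self (pow_ne_zero 2 hc), one_div]
    rw [Complex.sub_re, Complex.sub_im, inv_sq_re, inv_sq_im]
    simp
  rw [sq_re, sq_im] at u1
  have g1 := own5_1 ht hw
  have g2 := own5_2 ht hw
  have g3 := own5_3 ht hw
  have g4 := own5_4 ht hw
  have g5 := own_y hw
  obtain ⟨c1, c2⟩ := cos_sq_add w
  have hsc := Real.sin_sq_add_cos_sq w.re
  have hcp : 0 < Real.cos w.re := Real.cos_pos_of_mem_Ioo ⟨by linarith only [h0, hpi], by linarith only [h1, hpi]⟩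
  have hx1 : -(3 / 100) ≤ px (Complex.cos w) - 1 := by linarith only [g2, g2.1]
  have hx2 : px (Complex.cos w) - 1 ≤ 1 := by linarith only [g2, g2.2]
  have hy : py (Complex.cos w) ≤ 79 / 100 + 7 / 10 * (px (Complex.cos w) - 1) := by linarith only [g1]
  have key := split_aux u1.1 u1.2 hx1 hx2 g5 hy (by positivity) g4 g3 c1
    (by rw [c2]; linarith only [hsc])
  have s3 : -Real.cos w.re ≤ (Complex.tan w).im := by
    have : |(Complex.tan w).im| ≤ |Real.cos w.re| := sq_le_sq.1 key
    rw [abs_of_pos hcp] at this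
    linarith only [this, (abs_le.1 this).1]
  -- the sine of the imaginary part
  have hTi : (Complex.tan w).im ≤ 0 := by
    by_contra hc2
    push Not at hc2
    have h3 := tan_re_pos h0 h1
    have : 0 < 2 * (Complex.tan w).re * (Complex.tan w).im := by positivity
    rw [u1.2] at this
    linarith only [g5, this]
  have k1 : (Complex.tan w).im ≤ Real.cosh (QQ w k).re * Real.sin (QQ w k).im := by
    rw [← hs2]
    nlinarith only [hT, hk2, hk1, hTi, mul_nonneg hT hk2.1]
  by_contra hcon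
  push Not at hcon
  have k2 : (QQ w k).im < w.re - Real.pi / 2 := by linarith only [hcon]
  have k3 : Real.sin (QQ w k).im < Real.sin (w.re - Real.pi / 2) := by
    apply Real.sin_lt_sin_of_lt_of_le_pi_div_two (by linarith only [hQ, hQ.1]) (by linarith only [h1, hpi]) k2
  rw [Real.sin_sub_pi_div_two] at k3
  have k4 := Real.one_le_cosh (QQ w k).re
  have k5 : (Real.cosh (QQ w k).re - 1) * Real.sin (QQ w k).im ≤ 0 :=
    mul_nonpos_of_nonneg_of_nonpos (by linarith only [k4]) (by linarith only [hcp, k3])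
  linarith only [s3, k1, k3, k5]

end Pool.Agent.Work.MP_b30479_gt.G2
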