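import Pool.Agent.Work.MP_b30479_gt.G2.SZa
import Pool.Agent.Work.MP_b30479_gt.G2.SWordH

/-!
# Own frames of the rings of a word, and the fields `pl`, `pr` of `LocOK`
-/

namespace Pool.Agent.Work.MP_b30479_gt.G2

open Complex Set SQ KB
open scoped ComplexConjugate

lemma fz_RR {s : ℝ} (hs : s = 1 ∨ s = -1) {w k : ℂ} (hR : 0 < (RR w k).re) :
    RR (fz s w) (fz s k) = fz s (RR w k) := by
  rcases hs with rfl | rfl
  · rw [fz_one, fz_one, fz_one]
  · rw [fz_neg, fz_neg, fz_neg, RR_conj hR]

lemma Star1_self {K : Set ℂ} : K ⊆ Star1 K := fun z hz => ⟨1, by norm_num, le_rfl, z, hz, by simp⟩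

/-- the imaginary part of `P` in the own frame -/
lemma P_im {s : ℝ} (hs : s = 1 ∨ s = -1) {w k : ℂ} (hR : 0 < (RR w k).re) (h0 : 0 ≤ w.re)
    (h1 : w.re ≤ 3 / 2) (hk : 0 < k.re) (c : Prop) [Decidable c] :
    |(-(s : ℂ) * QQ w k + if c then I * w else 0).im| =
      |(-QQ (fz s w) (fz s k) + if c then I * fz s w else 0).im| := by
  rw [SR.fz_QQ hs hR h0 h1 hk]
  rcases hs with rfl | rfl
  · rw [fz_one, fz_one]
    push_cast
    rw [neg_one_mul]
  · rw [fz_neg, fz_neg]
    by_cases h : c
    · rw [if_pos h, if_pos h]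
      have e : (-conj (QQ w k) + I * conj w) = -conj (QQ w k + I * w) := by
        rw [map_add, map_mul, Complex.conj_I]
        ring
      rw [e, Complex.neg_im, Complex.conj_im, neg_neg]
      push_cast
      rw [neg_neg, one_mul]
    · rw [if_neg h, if_neg h, add_zero, add_zero, Complex.neg_im, Complex.conj_im, neg_neg]
      push_cast
      rw [neg_neg, one_mul]

namespace SR

variable {M : ℕ} {b : Fin (M + 1) → ℤ} {w : ℕ → ℂ}
variable (hb : ClassW b) (F : RingFacts) (hw : Sol b w)
include hb F hw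

omit hb F in
lemma own_mem {n : ℕ} (hn : n ≤ M) (hu : us b n = false) :
    Complex.cos (fz (sg b n) (w n)) ∈ PolyU (vt (ty b n)) := by
  have hs := sg_or (b := b) n
  have h := fz_mem hs hs (hw.mem n hn hu)
  rw [← fz_cos]
  have e : sg b n * sg b n = 1 := by rcases hs with h | h <;> rw [h] <;> norm_num
  rwa [e, frS_one] at h

/-- the port on the right, in the own frame -/
lemma port_mem_right {n : ℕ} (hn : n < M) (hu : us b n = false) :
    fz (sg b n) (Complex.cos (w (rn b n))) ∈
      (if rr b n = .s then Poly pS else frS (-1) (Poly pA)) := by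
  have h1 := rn_spec hb hn hu
  have h2 := hw.mem (rn b n) h1.2.1 h1.2.2.1
  have h3 := fz_mem (sg_or (b := b) n) (sg_or (b := b) (rn b n)) h2
  exact port_right hb F hn hu (frS_mono ((F.sub _).trans Star1_self) h3)

/-- the port on the left, in the own frame -/
lemma port_mem_left {n : ℕ} (hn : 0 < n) (hn' : n ≤ M) (hu : us b n = false) :
    fz (sg b n) (Complex.cos (w (ln b n))) ∈
      (if lr b n = .s then Poly pS else frS (-1) (Poly pA)) := by
  have h1 := ln_spec hb hn hu
  have h2 := hw.mem (ln b n) (by omega) h1.2.1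
  have h3 := fz_mem (sg_or (b := b) n) (sg_or (b := b) (ln b n)) h2
  exact port_left' hb F hn hn' hu (frS_mono ((F.sub _).trans Star1_self) h3)

lemma RR_left {n : ℕ} (h0 : 0 < n) (hn : n ≤ M) (hu : us b n = false) :
    0 < (RR (w n) (Complex.cos (w (ln b n)))).re := by
  have h1 := ln_spec hb h0 hu
  rw [left_hinge hb F hw h0 hn hu]
  exact R0_re hw (by omega) h1.2.1

omit hb F hw in
lemma typ_of {n : ℕ} (h4 : 4 ≤ BB b n) : typS (ty b n) = true := by
  unfold ty rtype
  rw [if_neg (by omega), if_neg (by omega)]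
  split_ifs <;> rfl

omit hb F hw in
lemma typ5_of {n : ℕ} (h4 : 5 ≤ BB b n) : typ5 (ty b n) = true := by
  unfold ty rtype
  rw [if_neg (by omega), if_neg (by omega), if_neg (by omega)]
  split_ifs <;> rfl

omit F hw in
/-- equal sign across an absorbed digit on the right -/
lemma rr_of_us {n : ℕ} (h : us b (n + 1) = true) : rr b n = .s ∧ BB b n ≥ (bb b n).natAbs + 1 := by
  have h1 := us_lt hb h
  have h2 := sign_across hb h
  have h3 : rn b n = n + 2 := by unfold rn; rw [h]; simp
  constructor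
  · rw [rr_eq (by omega), h3, if_pos h2]
  · unfold BB
    rw [h]
    have : (true.toNat) = 1 := rfl
    rw [this]
    omega

omit F hw in
lemma lr_of_us {n : ℕ} (h0 : 0 < n) (h : us b (n - 1) = true) :
    lr b n = .s ∧ BB b n ≥ (bb b n).natAbs + 1 := by
  have h1 := us_lt hb h
  obtain ⟨m, rfl⟩ : ∃ m, n = m + 2 := ⟨n - 2, by omega⟩
  rw [show m + 2 - 1 = m + 1 by omega] at h
  have h2 := sign_across hb h
  have h3 : ln b (m + 2) = m := by
    unfold ln
    rw [show m + 2 - 1 = m + 1 by omega, h]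
    simp
  constructor
  · rw [lr_eq (by omega), h3, if_pos (by rw [mul_comm]; exact h2)]
  · unfold BB
    rw [show m + 2 - 1 = m + 1 by omega, h]
    have : (true.toNat) = 1 := rfl
    rw [this]
    omega

omit hb F hw in
lemma cos_re_of_mem {z : ℂ} {t : RT} (h : z ∈ Poly (vt t)) : 0 < z.re := poly_re_pos t z h

theorem pr_all : ∀ n < M, 4 ≤ (bb b n).natAbs → |(PR b w n).im| ≤ Real.pi / 2 := by
  intro n hn h4
  have hu : us b n = false := by
    by_contra hc
    rw [Bool.not_eq_false] at hc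
    have := (us_true hc).2.1
    omega
  have hs := sg_or (b := b) n
  have hr := rn_spec hb hn hu
  have hR : 0 < (RR (w n) (Complex.cos (w (rn b n)))).re := R0_re hw hn hu
  have hk := cos_re F hw hr.2.1 hr.2.2.1
  have h0 := hw.re0 n hn.le hu
  have h1 := (hw.re1 n hn.le hu).le
  have hm := F.sub _ (own_mem hw hn.le hu)
  have hp := port_mem_right hb F hw hn hu
  have hB := BB_ge hb (n := n)
  have hR' : 0 < (RR (fz (sg b n) (w n)) (fz (sg b n) (Complex.cos (w (rn b n))))).re := by
    rw [fz_RR hs hR, fz_re]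
    exact hR
  have hk' : 0 < (fz (sg b n) (Complex.cos (w (rn b n)))).re := by rwa [fz_re]
  have h0' : 0 < (fz (sg b n) (w n)).re := by rwa [fz_re]
  have h1' : (fz (sg b n) (w n)).re ≤ 3 / 2 := by rwa [fz_re]
  unfold PR
  rw [P_im hs hR h0.le h1 hk]
  by_cases h : us b (n + 1) = true
  · obtain ⟨h2, h3⟩ := rr_of_us hb h
    rw [if_pos h2] at hp
    rw [if_pos h]
    exact split_im (typ5_of (by omega)) hm hp hR' h0' h1'
  · rw [if_neg h, add_zero, Complex.neg_im, abs_neg]
    have hBB : 4 ≤ BB b n := by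
      unfold BB
      omega
    have ht := typ_of hBB
    by_cases h2 : rr b n = .s
    · rw [if_pos h2] at hp
      exact (QQ_im_half hR' h0'.le h1' hk' (RRk_s hm hp hR')).le
    · rw [if_neg h2, frS_neg] at hp
      exact (QQ_im_half hR' h0'.le h1' hk' (RRk_a ht hm hp hR')).le

theorem pl_all : ∀ n, 0 < n → n ≤ M → 4 ≤ (bb b n).natAbs → |(PL b w n).im| ≤ Real.pi / 2 := by
  intro n hn0 hn h4
  have hu : us b n = false := by
    by_contra hc
    rw [Bool.not_eq_false] at hc
    have := (us_true hc).2.1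
    omega
  have hs := sg_or (b := b) n
  have hr := ln_spec hb hn0 hu
  have hR := RR_left hb F hw hn0 hn hu
  have hk := cos_re F hw (by omega : ln b n ≤ M) hr.2.1
  have h0 := hw.re0 n hn hu
  have h1 := (hw.re1 n hn hu).le
  have hm := F.sub _ (own_mem hw hn hu)
  have hp := port_mem_left hb F hw hn0 hn hu
  have hR' : 0 < (RR (fz (sg b n) (w n)) (fz (sg b n) (Complex.cos (w (ln b n))))).re := by
    rw [fz_RR hs hR, fz_re]
    exact hR
  have hk' : 0 < (fz (sg b n) (Complex.cos (w (ln b n)))).re := by rwa [fz_re]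
  have h0' : 0 < (fz (sg b n) (w n)).re := by rwa [fz_re]
  have h1' : (fz (sg b n) (w n)).re ≤ 3 / 2 := by rwa [fz_re]
  unfold PL
  rw [P_im hs hR h0.le h1 hk]
  by_cases h : us b (n - 1) = true
  · obtain ⟨h2, h3⟩ := lr_of_us hb hn0 h
    rw [if_pos h2] at hp
    rw [if_pos h]
    exact split_im (typ5_of (by omega)) hm hp hR' h0' h1'
  · rw [if_neg h, add_zero, Complex.neg_im, abs_neg]
    have hBB : 4 ≤ BB b n := by
      unfold BB
      omega
    have ht := typ_of hBB
    by_cases h2 : lr b n = .s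
    · rw [if_pos h2] at hp
      exact (QQ_im_half hR' h0'.le h1' hk' (RRk_s hm hp hR')).le
    · rw [if_neg h2, frS_neg] at hp
      exact (QQ_im_half hR' h0'.le h1' hk' (RRk_a ht hm hp hR')).le

end SR

end Pool.Agent.Work.MP_b30479_gt.G2
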