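import Mathlib.Topology.Sion
import Mathlib

/-!
# Critical points of holomorphic functions from the minimax theorem

`T : (ι → ℂ) → ℂ`, `V x η = re (T (x + i η))` for `x` in a convex compact set `X` of real parts and
`η` in a box of heights.  `V` is concave in `x` and convex in `η`; then there is a saddle point, and
at this point no coordinate can be moved with profit.
-/

namespace Pool.Agent.Work.MP_b30479_gt.G2

open Set Filter Topology

variable {ι : Type*} [Fintype ι] [DecidableEq ι]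

/-- the complex point with real parts `x` and heights `η` -/
noncomputable def cz (x η : ι → ℝ) : ι → ℂ := fun i => (x i : ℂ) + η i * Complex.I

omit [Fintype ι] in
theorem cz_update_left (x η : ι → ℝ) (i : ι) (t : ℝ) :
    cz (Function.update x i t) η = Function.update (cz x η) i ((t : ℂ) + η i * Complex.I) := by
  funext j
  by_cases h : j = i
  · subst h
    simp [cz]
  · simp [cz, h]

omit [Fintype ι] in
theorem cz_update_right (x η : ι → ℝ) (i : ι) (t : ℝ) :
    cz x (Function.update η i t) = Function.update (cz x η) i ((x i : ℂ) + t * Complex.I) := by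
  funext j
  by_cases h : j = i
  · subst h
    simp [cz]
  · simp [cz, h]

omit [Fintype ι] in
/-- derivative of `V` with respect to a real coordinate -/
theorem hasDerivAt_re {T : (ι → ℂ) → ℂ} {x η : ι → ℝ} {i : ι} {g : ℂ}
    (h : HasDerivAt (fun t : ℂ => T (Function.update (cz x η) i t)) g (cz x η i)) :
    HasDerivAt (fun t : ℝ => (T (cz (Function.update x i t) η)).re) g.re (x i) := by
  have h1 : HasDerivAt (fun t : ℝ => (t : ℂ) + η i * Complex.I) 1 (x i) :=
    (Complex.ofRealCLM.hasDerivAt (x := x i)).add_const _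
  have h2 := h.comp_of_eq (x i) h1 rfl
  have h3 := Complex.reCLM.hasFDerivAt.comp_hasDerivAt (x i) h2
  simp only [mul_one] at h3
  refine h3.congr_of_eventuallyEq (Eventually.of_forall fun t => ?_)
  simp only [Function.comp, cz_update_left]
  rfl

omit [Fintype ι] in
/-- derivative of `V` with respect to a height -/
theorem hasDerivAt_im {T : (ι → ℂ) → ℂ} {x η : ι → ℝ} {i : ι} {g : ℂ}
    (h : HasDerivAt (fun t : ℂ => T (Function.update (cz x η) i t)) g (cz x η i)) :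
    HasDerivAt (fun t : ℝ => (T (cz x (Function.update η i t))).re) (-g.im) (η i) := by
  have h1 : HasDerivAt (fun t : ℝ => (x i : ℂ) + t * Complex.I) Complex.I (η i) := by
    have := ((Complex.ofRealCLM.hasDerivAt (x := η i)).mul_const Complex.I).const_add (x i : ℂ)
    simpa using this
  have h2 := h.comp_of_eq (η i) h1 rfl
  have h3 := Complex.reCLM.hasFDerivAt.comp_hasDerivAt (η i) h2
  have e : Complex.reCLM (g * Complex.I) = -g.im := by simp
  rw [e] at h3
  refine h3.congr_of_eventuallyEq (Eventually.of_forall fun t => ?_)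
  simp only [Function.comp, cz_update_right]
  rfl

/-- one-sided optimality -/
theorem deriv_nonpos_of_max {f : ℝ → ℝ} {f' a ε : ℝ} (hε : 0 < ε) (h : HasDerivAt f f' a)
    (hm : ∀ t ∈ Ioo 0 ε, f (a + t) ≤ f a) : f' ≤ 0 := by
  by_contra hcon
  rw [not_le] at hcon
  have h1 := h.tendsto_slope
  have h2 : ∀ᶠ y in 𝓝[≠] a, 0 < slope f a y := h1.eventually (lt_mem_nhds hcon)
  have h3 : ∀ᶠ y in 𝓝[>] a, 0 < slope f a y :=
    h2.filter_mono (nhdsWithin_mono a fun y (hy : a < y) => ne_of_gt hy)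
  have h4 : ∀ᶠ y in 𝓝[>] a, y ∈ Ioo a (a + ε) := Ioo_mem_nhdsGT (by linarith)
  obtain ⟨y, h5, h6⟩ := (h3.and h4).exists
  have h7 := hm (y - a) ⟨by linarith [h6.1], by linarith [h6.2]⟩
  rw [add_sub_cancel] at h7
  rw [slope_def_field] at h5
  have h8 : 0 < y - a := by linarith [h6.1]
  have h9 : f y - f a > 0 := by
    by_contra hc
    rw [gt_iff_lt, not_lt] at hc
    exact absurd h5 (not_lt.mpr (div_nonpos_of_nonpos_of_nonneg hc h8.le))
  linarith

theorem deriv_nonneg_of_max {f : ℝ → ℝ} {f' a ε : ℝ} (hε : 0 < ε) (h : HasDerivAt f f' a)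
    (hm : ∀ t ∈ Ioo 0 ε, f (a - t) ≤ f a) : 0 ≤ f' := by
  have h1 : HasDerivAt (fun u : ℝ => f (-u)) (-f') (-a) := by
    have h2 : HasDerivAt f f' (-(-a)) := by rwa [neg_neg]
    refine (h2.comp (-a) (hasDerivAt_neg (-a))).congr_deriv ?_
    ring
  have h2 := deriv_nonpos_of_max hε h1 (fun t ht => by
    have := hm t ht
    rw [neg_add, neg_neg, ← sub_eq_add_neg]
    exact this)
  linarith

/-- `G i z` is the partial derivative of `T` at the points `x + i η` -/
def PD (T : (ι → ℂ) → ℂ) (G : ι → (ι → ℂ) → ℂ) (X H : Set (ι → ℝ)) : Prop :=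
  ∀ x ∈ X, ∀ η ∈ H, ∀ i,
    HasDerivAt (fun t : ℂ => T (Function.update (cz x η) i t)) (G i (cz x η)) (cz x η i)

/-- saddle point of `V x η = re (T (x + i η))` -/
def Sad (T : (ι → ℂ) → ℂ) (X H : Set (ι → ℝ)) (x₀ η₀ : ι → ℝ) : Prop :=
  ∀ x ∈ X, ∀ η ∈ H, (T (cz x η₀)).re ≤ (T (cz x₀ η)).re

omit [Fintype ι] in
/-- The minimax theorem, with coordinate optimality. -/
theorem exists_sad {X : Set (ι → ℝ)} (hXc : Convex ℝ X) (hXk : IsCompact X) (hXn : X.Nonempty)
    {c d : ι → ℝ} (hcd : c ≤ d) {T : (ι → ℂ) → ℂ} {G : ι → (ι → ℂ) → ℂ}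
    (hG : PD T G X (Icc c d))
    (hcx : ∀ η ∈ Icc c d, ContinuousOn (fun x => (T (cz x η)).re) X)
    (hch : ∀ x ∈ X, ContinuousOn (fun η => (T (cz x η)).re) (Icc c d))
    (hconc : ∀ η ∈ Icc c d, ConcaveOn ℝ X fun x => (T (cz x η)).re)
    (hconv : ∀ x ∈ X, ConvexOn ℝ (Icc c d) fun η => (T (cz x η)).re) :
    ∃ x₀ ∈ X, ∃ η₀ ∈ Icc c d, Sad T X (Icc c d) x₀ η₀ ∧
      (∀ i, (∃ ε > 0, ∀ t ∈ Ioo 0 ε, Function.update x₀ i (x₀ i + t) ∈ X) →
        (G i (cz x₀ η₀)).re ≤ 0) ∧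
      (∀ i, (∃ ε > 0, ∀ t ∈ Ioo 0 ε, Function.update x₀ i (x₀ i - t) ∈ X) →
        0 ≤ (G i (cz x₀ η₀)).re) ∧
      (∀ i, η₀ i < d i → (G i (cz x₀ η₀)).im ≤ 0) ∧
      (∀ i, c i < η₀ i → 0 ≤ (G i (cz x₀ η₀)).im) := by
  obtain ⟨η₀, hη₀, x₀, hx₀, hs⟩ := Sion.exists_isSaddlePointOn' (X := Icc c d) (Y := X)
    (f := fun (η x : ι → ℝ) => (T (cz x η)).re)
    (ne_X := nonempty_Icc.mpr hcd) (cX := convex_Icc c d) (kX := isCompact_Icc)
    (hfy := fun x hx => (hch x hx).lowerSemicontinuousOn)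
    (hfy' := fun x hx => (hconv x hx).quasiconvexOn)
    (cY := hXc) (ne_Y := hXn) (kY := hXk)
    (hfx := fun η hη => (hcx η hη).upperSemicontinuousOn)
    (hfx' := fun η hη => (hconc η hη).quasiconcaveOn)
  have hsad : Sad T X (Icc c d) x₀ η₀ := fun x hx η hη => hs η hη x hx
  refine ⟨x₀, hx₀, η₀, hη₀, hsad, ?_, ?_, ?_, ?_⟩
  · rintro i ⟨ε, hε, hm⟩
    refine deriv_nonpos_of_max hε (hasDerivAt_re (hG x₀ hx₀ η₀ hη₀ i)) fun t ht => ?_
    have := hsad _ (hm t ht) η₀ hη₀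
    simpa using this
  · rintro i ⟨ε, hε, hm⟩
    refine deriv_nonneg_of_max hε (hasDerivAt_re (hG x₀ hx₀ η₀ hη₀ i)) fun t ht => ?_
    have := hsad _ (hm t ht) η₀ hη₀
    simpa using this
  · intro i hi
    have h1 := (hasDerivAt_im (hG x₀ hx₀ η₀ hη₀ i)).neg
    rw [neg_neg] at h1
    refine deriv_nonpos_of_max (ε := d i - η₀ i) (by linarith) h1 fun t ht => ?_
    have h2 : Function.update η₀ i (η₀ i + t) ∈ Icc c d := by
      constructor
      · intro j
        by_cases hj : j = i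
        · subst hj
          simp only [Function.update_self]
          linarith [hη₀.1 j, ht.1]
        · simp only [Function.update_of_ne hj]
          exact hη₀.1 j
      · intro j
        by_cases hj : j = i
        · subst hj
          simp only [Function.update_self]
          linarith [ht.2]
        · simp only [Function.update_of_ne hj]
          exact hη₀.2 j
    have := hsad x₀ hx₀ _ h2
    simp only [Function.update_eq_self, Pi.neg_apply, neg_le_neg_iff]
    exact this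
  · intro i hi
    have h1 := (hasDerivAt_im (hG x₀ hx₀ η₀ hη₀ i)).neg
    rw [neg_neg] at h1
    refine deriv_nonneg_of_max (ε := η₀ i - c i) (by linarith) h1 fun t ht => ?_
    have h2 : Function.update η₀ i (η₀ i - t) ∈ Icc c d := by
      constructor
      · intro j
        by_cases hj : j = i
        · subst hj
          simp only [Function.update_self]
          linarith [ht.2]
        · simp only [Function.update_of_ne hj]
          exact hη₀.1 j
      · intro j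
        by_cases hj : j = i
        · subst hj
          simp only [Function.update_self]
          linarith [hη₀.2 j, ht.1]
        · simp only [Function.update_of_ne hj]
          exact hη₀.2 j
    have := hsad x₀ hx₀ _ h2
    simp only [Function.update_eq_self, Pi.neg_apply, neg_le_neg_iff]
    exact this

omit [Fintype ι] in
/-- Box version: no critical direction on the faces. -/
theorem exists_crit_box {a b c d : ι → ℝ} (hab : a ≤ b) (hcd : c ≤ d) {T : (ι → ℂ) → ℂ}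
    {G : ι → (ι → ℂ) → ℂ} (hG : PD T G (Icc a b) (Icc c d))
    (hcx : ∀ η ∈ Icc c d, ContinuousOn (fun x => (T (cz x η)).re) (Icc a b))
    (hch : ∀ x ∈ Icc a b, ContinuousOn (fun η => (T (cz x η)).re) (Icc c d))
    (hconc : ∀ η ∈ Icc c d, ConcaveOn ℝ (Icc a b) fun x => (T (cz x η)).re)
    (hconv : ∀ x ∈ Icc a b, ConvexOn ℝ (Icc c d) fun η => (T (cz x η)).re)
    (hl : ∀ x ∈ Icc a b, ∀ η ∈ Icc c d, ∀ i, x i = a i → 0 < (G i (cz x η)).re)
    (hr : ∀ x ∈ Icc a b, ∀ η ∈ Icc c d, ∀ i, x i = b i → (G i (cz x η)).re < 0)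
    (hlo : ∀ x ∈ Icc a b, ∀ η ∈ Icc c d, ∀ i, η i = c i → 0 < (G i (cz x η)).im)
    (hup : ∀ x ∈ Icc a b, ∀ η ∈ Icc c d, ∀ i, η i = d i → (G i (cz x η)).im < 0) :
    ∃ x₀ ∈ Icc a b, ∃ η₀ ∈ Icc c d, Sad T (Icc a b) (Icc c d) x₀ η₀ ∧
      (∀ i, a i < x₀ i ∧ x₀ i < b i) ∧ (∀ i, c i < η₀ i ∧ η₀ i < d i) ∧
      ∀ i, G i (cz x₀ η₀) = 0 := by
  obtain ⟨x₀, hx₀, η₀, hη₀, hs, h1, h2, h3, h4⟩ := exists_sad (convex_Icc a b) isCompact_Icc
    (nonempty_Icc.mpr hab) hcd hG hcx hch hconc hconv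
  have hupd : ∀ i t, a i ≤ t → t ≤ b i → Function.update x₀ i t ∈ Icc a b := by
    intro i t ht1 ht2
    constructor
    · intro j
      by_cases hj : j = i
      · subst hj
        simpa using ht1
      · simpa [hj] using hx₀.1 j
    · intro j
      by_cases hj : j = i
      · subst hj
        simpa using ht2
      · simpa [hj] using hx₀.2 j
  have e1 : ∀ i, a i ≤ b i := fun i => hab i
  have e2 : ∀ i, c i ≤ d i := fun i => hcd i
  -- the real coordinates
  have k1 : ∀ i, a i < b i := by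
    intro i
    rcases (e1 i).eq_or_lt with h | h
    · have l1 := hl x₀ hx₀ η₀ hη₀ i (le_antisymm (by rw [h]; exact hx₀.2 i) (hx₀.1 i))
      have l2 := hr x₀ hx₀ η₀ hη₀ i (le_antisymm (hx₀.2 i) (by rw [← h]; exact hx₀.1 i))
      exact absurd l1 (not_lt.mpr l2.le)
    · exact h
  have k2 : ∀ i, c i < d i := by
    intro i
    rcases (e2 i).eq_or_lt with h | h
    · have l1 := hlo x₀ hx₀ η₀ hη₀ i (le_antisymm (by rw [h]; exact hη₀.2 i) (hη₀.1 i))
      have l2 := hup x₀ hx₀ η₀ hη₀ i (le_antisymm (hη₀.2 i) (by rw [← h]; exact hη₀.1 i))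
      exact absurd l1 (not_lt.mpr l2.le)
    · exact h
  have m1 : ∀ i, a i < x₀ i := by
    intro i
    refine lt_of_le_of_ne (hx₀.1 i) fun he => ?_
    have l1 := hl x₀ hx₀ η₀ hη₀ i he.symm
    refine absurd l1 (not_lt.mpr (h1 i ⟨b i - a i, by linarith [k1 i], fun t ht => ?_⟩))
    exact hupd i _ (by linarith [ht.1]) (by linarith [ht.2])
  have m2 : ∀ i, x₀ i < b i := by
    intro i
    refine lt_of_le_of_ne (hx₀.2 i) fun he => ?_
    have l1 := hr x₀ hx₀ η₀ hη₀ i he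
    refine absurd l1 (not_lt.mpr (h2 i ⟨b i - a i, by linarith [k1 i], fun t ht => ?_⟩))
    exact hupd i _ (by linarith [ht.2]) (by linarith [ht.1])
  have m3 : ∀ i, c i < η₀ i := by
    intro i
    refine lt_of_le_of_ne (hη₀.1 i) fun he => ?_
    exact absurd (hlo x₀ hx₀ η₀ hη₀ i he.symm) (not_lt.mpr (h3 i (by rw [← he]; exact k2 i)))
  have m4 : ∀ i, η₀ i < d i := by
    intro i
    refine lt_of_le_of_ne (hη₀.2 i) fun he => ?_
    exact absurd (hup x₀ hx₀ η₀ hη₀ i he) (not_lt.mpr (h4 i (by rw [he]; exact k2 i)))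
  refine ⟨x₀, hx₀, η₀, hη₀, hs, fun i => ⟨m1 i, m2 i⟩, fun i => ⟨m3 i, m4 i⟩, fun i => ?_⟩
  apply Complex.ext
  · apply le_antisymm
    · exact h1 i ⟨b i - x₀ i, by linarith [m2 i], fun t ht =>
        hupd i _ (by linarith [ht.1, m1 i]) (by linarith [ht.2])⟩
    · exact h2 i ⟨x₀ i - a i, by linarith [m1 i], fun t ht =>
        hupd i _ (by linarith [ht.2]) (by linarith [ht.1, m2 i])⟩
  · apply le_antisymm
    · exact h3 i (m4 i)
    · exact h4 i (m3 i)

omit [Fintype ι] [DecidableEq ι] in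
/-- two saddle points have the same value, and are mutually optimal -/
theorem Sad.value_eq {T : (ι → ℂ) → ℂ} {X H : Set (ι → ℝ)} {x₀ η₀ x₁ η₁ : ι → ℝ}
    (hx₀ : x₀ ∈ X) (hη₀ : η₀ ∈ H) (hx₁ : x₁ ∈ X) (hη₁ : η₁ ∈ H) (h : Sad T X H x₀ η₀)
    (h' : Sad T X H x₁ η₁) : (T (cz x₁ η₀)).re = (T (cz x₀ η₀)).re ∧
      (T (cz x₀ η₁)).re = (T (cz x₀ η₀)).re ∧ (T (cz x₁ η₁)).re = (T (cz x₀ η₀)).re := by
  have a1 := h x₁ hx₁ η₀ hη₀
  have a2 := h x₁ hx₁ η₁ hη₁
  have a3 := h x₀ hx₀ η₁ hη₁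
  have b1 := h' x₀ hx₀ η₁ hη₁
  have b2 := h' x₀ hx₀ η₀ hη₀
  have b3 := h' x₁ hx₁ η₀ hη₀
  refine ⟨?_, ?_, ?_⟩ <;> linarith

omit [Fintype ι] [DecidableEq ι] in
/-- uniqueness of the saddle point for strictly concave-convex functions -/
theorem Sad.unique {T : (ι → ℂ) → ℂ} {X H : Set (ι → ℝ)} {x₀ η₀ x₁ η₁ : ι → ℝ}
    (hx₀ : x₀ ∈ X) (hη₀ : η₀ ∈ H) (hx₁ : x₁ ∈ X) (hη₁ : η₁ ∈ H) (h : Sad T X H x₀ η₀)
    (h' : Sad T X H x₁ η₁)
    (hconc : StrictConcaveOn ℝ X fun x => (T (cz x η₀)).re)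
    (hconv : StrictConvexOn ℝ H fun η => (T (cz x₀ η)).re) : x₁ = x₀ ∧ η₁ = η₀ := by
  obtain ⟨e1, e2, -⟩ := Sad.value_eq hx₀ hη₀ hx₁ hη₁ h h'
  constructor
  · refine hconc.eq_of_isMaxOn (s := X) ?_ ?_ hx₁ hx₀
    · intro x hx
      show (T (cz x η₀)).re ≤ (T (cz x₁ η₀)).re
      rw [e1]
      exact h x hx η₀ hη₀
    · intro x hx
      exact h x hx η₀ hη₀
  · refine hconv.eq_of_isMinOn (s := H) ?_ ?_ hη₁ hη₀
    · intro η hη
      show (T (cz x₀ η₁)).re ≤ (T (cz x₀ η)).re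
      rw [e2]
      exact h x₀ hx₀ η hη
    · intro η hη
      exact h x₀ hx₀ η hη

end Pool.Agent.Work.MP_b30479_gt.G2
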