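import Pool.Agent.Work.MP_b30479_gt.G2.RngKd
import Pool.Agent.Work.MP_b30479_gt.G2.WPar

/-!
# Tails: targets, gauges, minorants of the gains of the untouched regions
-/

namespace Pool.Agent.Work.MP_b30479_gt.G2

open VOL SR

namespace TL

/-- what is behind a real neighbour hinge (seen from the touched region) -/
inductive Ct
  | one | two | twoE | threeA | threeK | threeE | ring | touched
  deriving DecidableEq

/-- compatibility with the class of the region behind the hinge (`threeA`: the hinge is in the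
slot `0` of the interior three, `threeK`: in its slot `2`) -/
def Ct.ok : Ct → Cl → Prop
  | .one, c => c = .one
  | .two, c => c = .two
  | .twoE, c => c = .twoE
  | .threeA, c => c = .three
  | .threeK, c => c = .three
  | .threeE, c => c = .threeE
  | .ring, c => c = .ring
  | .touched, _ => True

/-- the classes with at least three crossings -/
def big (c : Cl) : Prop := c = .three ∨ c = .threeE ∨ c = .ring

/-- target (real part) of a real neighbour hinge -/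
noncomputable def cN : Ct → ℝ
  | .one => 9 / 50
  | .two => 1 / 4
  | .twoE => 11 / 50
  | .threeA => 3 / 20
  | .threeK => 9 / 50
  | .threeE => 11 / 50
  | .ring => 9 / 50
  | .touched => 1 / 5

/-- target (real part) of a hinge in the tail between the classes `K` and `B` -/
noncomputable def cT : Cl → Cl → ℝ
  | .one, .one => 42 / 100
  | .one, .ring => 1 / 4
  | .ring, .one => 1 / 4
  | .one, _ => 28 / 100
  | _, .one => 28 / 100
  | _, _ => 1 / 4

/-- slope of the gauge at a hinge in the tail -/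
noncomputable def be : Cl → Cl → ℝ
  | .one, .one => 245 / 100
  | .one, .two => 215 / 100
  | .two, .one => 215 / 100
  | .one, .twoE => 235 / 100
  | .twoE, .one => 235 / 100
  | .one, .three => 19 / 10
  | .three, .one => 19 / 10
  | .one, .threeE => 205 / 100
  | .threeE, .one => 205 / 100
  | .one, .ring => 21 / 10
  | .ring, .one => 21 / 10
  | .ring, .ring => 0
  | _, _ => 17 / 10

/-- constant of the gauge of the touched region of class `K` at its hinge in the tail at `x`; `B` is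
the class on the other side of this hinge, `C` the class behind the other hinge of the region -/
noncomputable def al (K B C : Cl) (x : ℝ) : ℝ :=
  match K, B with
  | .one, .one => if C = .one then 26 / 1000 else if 86 / 100 ≤ x then 5 / 1000 else -(255 / 10000)
  | .one, .two => -(13 / 100)
  | .one, .twoE => if 95 / 100 ≤ x then -(1 / 10) else -(225 / 1000)
  | .one, .three => -(115 / 1000)
  | .one, .threeE => -(15 / 100)
  | .one, .ring => if 95 / 100 ≤ x then 2 / 100 else -(135 / 1000)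
  | .two, .one => 14 / 100
  | .twoE, .one => if 95 / 100 ≤ x then 12 / 100 else 23 / 100
  | .three, .one => 1155 / 10000
  | .threeE, .one => 155 / 1000
  | .ring, .one => if 95 / 100 ≤ x then 1 / 100 else 14 / 100
  | .two, _ => 1 / 100
  | .twoE, _ => 5 / 100
  | .three, _ => 2 / 100
  | .threeE, _ => 15 / 100
  | .ring, .ring => 1 / 100
  | .ring, _ => 6 / 100

/-- the start of the tail between the classes `K` and `B` (`8/10` for `1 | 1`) -/
noncomputable def X0 : Cl → Cl → ℝ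
  | .one, .one => 80 / 100
  | .one, .two => 80 / 100
  | .two, .one => 80 / 100
  | .one, .twoE => 70 / 100
  | .twoE, .one => 70 / 100
  | .one, .three => 65 / 100
  | .three, .one => 65 / 100
  | .one, .ring => 65 / 100
  | .ring, .one => 65 / 100
  | .ring, .ring => 50 / 100
  | _, _ => 60 / 100

/-- lower bounds for the gain `G` of the untouched region behind the real neighbour hinge (old
position `w`, new height `τ` in its own frame), seen from the touched region of class `K` -/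
def EB (K : Cl) (C : Ct) (w τ G : ℝ) : Prop :=
  match C with
  | .one => match K with
    | .one => (w ≤ 9 / 50 → -(11 / 1000) - 3927 / 1250 * τ ≤ G ∨
          UU ⟨w, 0⟩ - 163 / 5000 + 779 / 1000 * w - 821 / 500 * τ ≤ G) ∧
        (9 / 50 ≤ w → UU ⟨w, 0⟩ + 164 / 625 - 921 / 1000 * w - 1849 / 1000 * τ ≤ G ∨
          UU ⟨w, 0⟩ + 1451 / 5000 - 1021 / 1000 * w - 1309 / 500 * τ ≤ G)
    | .two => (w ≤ 9 / 50 → -(3 / 100) - 3927 / 1250 * τ ≤ G ∨
          UU ⟨w, 0⟩ - 2039 / 10000 + 653 / 500 * w - 643 / 500 * τ ≤ G) ∧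
        (9 / 50 ≤ w → UU ⟨w, 0⟩ + 137 / 625 - 1019 / 1000 * w - 1071 / 500 * τ ≤ G)
    | _ => (w ≤ 4 / 25 → (τ ≤ 47 / 500 ∧ -(9 / 1000) - 3927 / 1250 * τ ≤ G) ∨
          UU ⟨w, 0⟩ - 247 / 10000 + 293 / 1000 * w - 163 / 100 * τ ≤ G) ∧
        (4 / 25 ≤ w → UU ⟨w, 0⟩ + 1283 / 10000 - 719 / 1000 * w - 429 / 250 * τ ≤ G)
  | .two => UU ⟨w, 0⟩ + 53 / 625 - 37 / 250 * w - 1571 / 1000 * τ ≤ G
  | .twoE => UU ⟨w, 0⟩ + 1545 / 10000 - 2262 / 1000 * τ ≤ G
  | .threeA => (w ≤ 4 / 25 → UU ⟨w, 0⟩ + 62 / 625 - 227 / 1000 * w - 851 / 1000 * τ ≤ G) ∧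
      (4 / 25 ≤ w → UU ⟨w, 0⟩ + 1289 / 5000 - 553 / 500 * w - 113 / 200 * τ ≤ G)
  | .threeK => UU ⟨w, 0⟩ + 7 / 625 + 97 / 1000 * w - 353 / 250 * τ ≤ G
  | .threeE => UU ⟨w, 0⟩ + 1345 / 10000 - 1215 / 1000 * τ ≤ G
  | .ring => (w ≤ 7 / 50 → UU ⟨w, 0⟩ - 67 / 1250 + 543 / 1000 * w - 839 / 500 * τ ≤ G) ∧
      (7 / 50 ≤ w → UU ⟨w, 0⟩ + 1291 / 10000 - 18 / 25 * w - 1397 / 1000 * τ ≤ G)
  | .touched => -(59 / 25) * τ ≤ G

/-- a slot of a touched ring with `n` crossings: old value `w`, new value `w1`, share `g`; `hi`: the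
ring variable goes to `-1/4 + i ρ` instead of `-3/20 + i ρ` -/
inductive RSlot (n : ℝ) (hi : Bool) : ℂ → ℂ → ℝ → Prop
  | tailOne {x t : ℝ} (h0 : 65 / 100 ≤ x) (h1 : x ≤ 1) (h2 : -(158 / 1000) ≤ t)
      (h3 : t ≤ -(38 / 1000)) (h4 : n < 5 → -(128 / 1000) ≤ t) (h5 : n < 6 → -(138 / 1000) ≤ t) :
      RSlot n hi ⟨x, 0⟩ ⟨1 / 4, t⟩ (al .ring .one .ring x - be .ring .one * t)
  | tailLo {x t : ℝ} (h0 : 60 / 100 ≤ x) (h1 : x ≤ 1) (h2 : -(131 / 1000) ≤ t)
      (h3 : t ≤ 4 / 1000) (h4 : n < 5 → -(115 / 1000) ≤ t) :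
      RSlot n hi ⟨x, 0⟩ ⟨1 / 4, t⟩ (6 / 100 - 17 / 10 * t)
  | tailRing {x t : ℝ} (h0 : 1 / 2 ≤ x) (h1 : x ≤ 1) (h2 : -(385 / 10000) ≤ t)
      (h3 : t ≤ 59 / 1000) (h4 : n < 5 → -(25 / 1000) ≤ t) :
      RSlot n hi ⟨x, 0⟩ ⟨1 / 4, t⟩ (1 / 100)
  | path {w : ℂ} {k : RKe} (h : k.ok n w) (h0 : hi = false → w.re ≤ 1 / 2)
      (h1 : hi = true → 1 / 2 ≤ w.re) : RSlot n hi w w 0
  | nbOne {x t : ℝ} (h0 : 0 ≤ x) (h1 : x ≤ 65 / 100) (h2 : -(158 / 1000) ≤ t)
      (h3 : t ≤ -(38 / 1000)) (h4 : n < 5 → -(128 / 1000) ≤ t) (h5 : n < 6 → -(138 / 1000) ≤ t)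
      (h6 : hi = false → x ≤ 1 / 2) (h7 : hi = true → 1 / 2 ≤ x) :
      RSlot n hi ⟨x, 0⟩ ⟨1 / 5, t⟩ (-(59 / 25) * t)
  | nbLo {x t : ℝ} (h0 : 0 ≤ x) (h1 : x ≤ 60 / 100) (h2 : -(131 / 1000) ≤ t)
      (h3 : t ≤ 4 / 1000) (h4 : n < 5 → -(115 / 1000) ≤ t)
      (h6 : hi = false → x ≤ 1 / 2) (h7 : hi = true → 1 / 2 ≤ x) :
      RSlot n hi ⟨x, 0⟩ ⟨1 / 5, t⟩ (-(59 / 25) * t)

/-- the slot is in the tail -/
inductive RTail (n : ℝ) (hi : Bool) : ℂ → ℂ → ℝ → Prop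
  | one {x t : ℝ} (h0 : 65 / 100 ≤ x) (h1 : x ≤ 1) (h2 : -(158 / 1000) ≤ t)
      (h3 : t ≤ -(38 / 1000)) (h4 : n < 5 → -(128 / 1000) ≤ t) (h5 : n < 6 → -(138 / 1000) ≤ t) :
      RTail n hi ⟨x, 0⟩ ⟨1 / 4, t⟩ (al .ring .one .ring x - be .ring .one * t)
  | lo {x t : ℝ} (h0 : 60 / 100 ≤ x) (h1 : x ≤ 1) (h2 : -(131 / 1000) ≤ t)
      (h3 : t ≤ 4 / 1000) (h4 : n < 5 → -(115 / 1000) ≤ t) :
      RTail n hi ⟨x, 0⟩ ⟨1 / 4, t⟩ (6 / 100 - 17 / 10 * t)
  | ring {x t : ℝ} (h0 : 1 / 2 ≤ x) (h1 : x ≤ 1) (h2 : -(385 / 10000) ≤ t)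
      (h3 : t ≤ 59 / 1000) (h4 : n < 5 → -(25 / 1000) ≤ t) :
      RTail n hi ⟨x, 0⟩ ⟨1 / 4, t⟩ (1 / 100)

/-- real part of the target of the ring variable -/
noncomputable def sR (hi : Bool) : ℝ := if hi then -(1 / 4) else -(3 / 20)

end TL

end Pool.Agent.Work.MP_b30479_gt.G2
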