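import Mathlib

/-!
# Tails: regions and minorants

`RgA .. RgK`: regions which contain all positions `(X, Y)` (in the own frame of the untouched region
`C`) of the second variable of `C`.
-/

namespace Pool.Agent.Work.MP_b30479_gt.G2



namespace TL

/-- class one next to class one -/
def RgA (X Y : ℝ) : Prop := 0 ≤ X ∧ X ≤ 8 / 10 ∧ Y ≤ 85 / 100 * X ∧ Y ≤ 136 / 1000 ∧
  Y ≤ 3091 / 10000 * (8 / 10 - X) ∧ -(64 / 100) * X ≤ Y ∧ -(96 / 1000) ≤ Y ∧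
  -(48 / 100) * (8 / 10 - X) ≤ Y

/-- class one next to class two -/
def RgB (X Y : ℝ) : Prop := 0 ≤ X ∧ X ≤ 86 / 100 ∧ Y ≤ 907 / 1000 * X ∧ Y ≤ 145 / 1000 ∧
  Y ≤ 29 / 100 * (86 / 100 - X) ∧ -(62 / 100) * X ≤ Y ∧ -(93 / 1000) ≤ Y ∧
  -(465 / 1000) * (86 / 100 - X) ≤ Y

/-- class one next to class three, the other neighbour is of class one or two -/
def RgC (X Y : ℝ) : Prop := 0 ≤ X ∧ X ≤ 86 / 100 ∧ Y ≤ 52 / 100 * X ∧ Y ≤ 77 / 1000 ∧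
  Y ≤ 25 / 100 * (86 / 100 - X) ∧ -(607 / 1000) * X ≤ Y ∧ -(91 / 1000) ≤ Y ∧
  -(455 / 1000) * (86 / 100 - X) ≤ Y

/-- class one between class three and class two at an end -/
def RgE (X Y : ℝ) : Prop := 8 / 100 ≤ X ∧ X ≤ 7 / 10 ∧ Y ≤ 0 ∧ -(322 / 1000) * X ≤ Y ∧
  -(45 / 1000) ≤ Y ∧ -(129 / 1000) * (7 / 10 - X) ≤ Y

/-- class two -/
def RgD (X Y : ℝ) : Prop := 0 ≤ X ∧ X ≤ 6 / 10 ∧ Y ≤ 77 / 100 * X ∧ Y ≤ 96 / 1000 ∧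
  Y ≤ 32 / 100 * (6 / 10 - X) + 125 / 10000 ∧ -(85 / 100) * X ≤ Y ∧ -(985 / 10000) ≤ Y ∧
  -(34 / 100) * (8 / 10 - X) ≤ Y

/-- inner variable of an interior three, the slot `0` is moved -/
def RgL (X Y : ℝ) : Prop := 2 / 10 ≤ X ∧ X ≤ 8 / 10 ∧ Y ≤ 5 / 1000 ∧ Y ≤ 1 / 10 * (8 / 10 - X) ∧
  -(123 / 1000) ≤ Y ∧ -(246 / 100) * (8 / 10 - X) ≤ Y

/-- inner variable of an interior three, the slot `2` is moved -/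
def RgK (X Y : ℝ) : Prop := 0 ≤ X ∧ X ≤ 8 / 10 ∧ Y ≤ 5 / 1000 ∧ Y ≤ 1 / 10 * X ∧
  Y ≤ 1 / 10 * (8 / 10 - X) ∧ -(123 / 1000) ≤ Y ∧ -(246 / 100) * X ≤ Y ∧
  -(246 / 100) * (8 / 10 - X) ≤ Y

end TL

end Pool.Agent.Work.MP_b30479_gt.G2
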