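import Pool.Agent.Work.MP_b30479_gt.G2.TDef2
import Pool.Agent.Work.MP_b30479_gt.G2.TDefs
import Pool.Agent.Work.MP_b30479_gt.G2.WLocX
import Pool.Agent.Work.MP_b30479_gt.G2.WVal

/-!
# Tails: the gains of the untouched regions

`K` is the class of the touched region, `C` the kind of the untouched region behind the real hinge,
`w` its old position, `⟨c, τ⟩` the new one in the own frame of the untouched region, `G` the gain of
the untouched region.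
-/

namespace Pool.Agent.Work.MP_b30479_gt.G2

open VOL SR

namespace TL

/-- end of the path of a hinge between a digit one (its other neighbour is of class `K`) and a
region of class `D` -/
noncomputable def pM (K D : Cl) : ℝ :=
  match D with
  | .one => if K = .one then 80 / 100 else 86 / 100
  | .two => 80 / 100
  | .twoE => 70 / 100
  | .three => 65 / 100
  | .threeE => 60 / 100
  | .ring => 65 / 100

/-- left ramp -/
noncomputable def pa : Cl → ℝ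
  | .one => 15 / 100
  | .two => 16 / 100
  | .twoE => 14 / 100
  | .three => 13 / 100
  | .threeE => 14 / 100
  | .ring => 16 / 100

/-- right ramp -/
noncomputable def pb : Cl → ℝ
  | .one => 20 / 100
  | .two => 29 / 100
  | .twoE => 35 / 100
  | .three => 15 / 100
  | .threeE => 25 / 100
  | .ring => 29 / 100

/-- positions `(X, Y)` of the other hinge of a digit one between the classes `K` (the hinge of this
side has the height `τ`) and `D` -/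
def RgO (K D : Cl) (τ X Y : ℝ) : Prop :=
  0 ≤ X ∧ X ≤ pM K D ∧ ∃ T : ℝ, (cw K D).t0 ≤ T ∧ T ≤ (cw K D).t1 ∧ (cw K D).s0 ≤ τ + T ∧
    τ + T ≤ (cw K D).s1 ∧
    ((0 ≤ Y ∧ Y ≤ T ∧ pa D * Y ≤ T * X ∧ pb D * Y ≤ T * (pM K D - X)) ∨
      (Y ≤ 0 ∧ T ≤ Y ∧ T * X ≤ pa D * Y ∧ T * (pM K D - X) ≤ pb D * Y))

/-- the other hinge of a two far to the right -/
def RgF (X Y : ℝ) : Prop := 6 / 10 ≤ X ∧ X ≤ 8 / 10 ∧ Y ≤ 34 / 100 * (8 / 10 - X) ∧
  -(34 / 100) * (8 / 10 - X) ≤ Y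

/-- the other hinge (slot `2`) of an interior three -/
def RgW (X Y : ℝ) : Prop := 0 ≤ X ∧ X ≤ 65 / 100 ∧ Y ≤ 475 / 1000 * X ∧ Y ≤ 57 / 1000 ∧
  Y ≤ 38 / 100 * (65 / 100 - X) ∧ -(955 / 1000) * X ≤ Y ∧ -(1145 / 10000) ≤ Y ∧
  -(764 / 1000) * (65 / 100 - X) ≤ Y

/-- **The gains of the untouched regions.** -/
inductive Gn (K : Cl) (c w τ : ℝ) : Ct → ℝ → Prop
  | one {D : Cl} {X Y : ℝ} (h0 : (cw D K).t0 ≤ τ) (h1 : τ ≤ (cw D K).t1)
      (h2 : K = .one → |τ| ≤ 2 / 25) (hb : ¬ (big K ∧ big D)) (hR : RgO K D τ X Y)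
      (hX : D = .twoE → K = .three ∨ K = .threeE → 8 / 100 ≤ X) :
      Gn K c w τ .one (V1 ⟨c, τ⟩ ⟨X, Y⟩ - V1 ⟨w, 0⟩ ⟨X, Y⟩)
  | two {X Y : ℝ} (h0 : (hbox .two K false).t0 ≤ τ) (h1 : τ ≤ (hbox .two K false).t1)
      (hR : RgD X Y ∨ (27 / 100 ≤ w ∧ RgF X Y)) :
      Gn K c w τ .two (V2 ⟨c, τ⟩ ⟨X, Y⟩ - V2 ⟨w, 0⟩ ⟨X, Y⟩)
  | twoE (h0 : (hbox .twoE K false).t0 ≤ τ) (h1 : τ ≤ (hbox .twoE K false).t1) :
      Gn K c w τ .twoE (V2 ⟨c, τ⟩ 0 - V2 ⟨w, 0⟩ 0)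
  | threeA {X Y : ℝ} (h0 : (hbox .three K false).t0 ≤ τ) (h1 : τ ≤ (hbox .three K false).t1)
      (hR : RgL X Y) :
      Gn K c w τ .threeA (V1 ⟨c, τ⟩ ⟨1 - X, -Y⟩ - V1 ⟨w, 0⟩ ⟨1 - X, -Y⟩)
  | threeS {D : Cl} {X T Xo Yo : ℝ} (h0 : (hbox .three K false).t0 ≤ τ)
      (h1 : τ ≤ (hbox .three K false).t1) (hX0 : 0 ≤ X) (hX1 : X ≤ 2 / 10)
      (t0 : (mw K D).t0 ≤ T) (t1 : T ≤ (mw K D).t1) (s0 : (mw K D).s0 ≤ T - τ)
      (s1 : T - τ ≤ (mw K D).s1) (ho : RgW Xo Yo) :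
      Gn K c w τ .threeA (V3 ⟨c, τ⟩ ⟨1 / 4, T⟩ ⟨Xo, Yo⟩ -
        V3 ⟨w, 0⟩ ⟨X, T * min 1 (X / (5 / 100))⟩ ⟨Xo, Yo⟩)
  | threeK {X Y : ℝ} (h0 : (hbox .three K false).t0 ≤ τ) (h1 : τ ≤ (hbox .three K false).t1)
      (hR : RgK X Y) :
      Gn K c w τ .threeK (V2 ⟨c, τ⟩ ⟨X, Y⟩ - V2 ⟨w, 0⟩ ⟨X, Y⟩)
  | threeE {l m : ℝ} (h0 : (hbox .threeE K false).t0 ≤ τ) (h1 : τ ≤ (hbox .threeE K false).t1)
      (hm0 : -(45 / 1000) ≤ m) (hm1 : m ≤ 59 / 1000) (hl : w ≤ l) (hl1 : l ≤ 1) :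
      Gn K c w τ .threeE (V3 ⟨c, τ⟩ ⟨c + 1 / 6, m⟩ 0 - V3 ⟨w, 0⟩ ⟨l, 0⟩ 0)
  | ring {ρ σ : ℝ} (h0 : K ≠ .ring → (hbox .ring K false).t0 ≤ τ)
      (h1 : K ≠ .ring → τ ≤ (hbox .ring K false).t1) (h2 : K = .ring → |τ| ≤ 59 / 1000)
      (hρ : 0 ≤ ρ) (hρ1 : ρ ≤ 1045 / 10000) (hσ : |σ| ≤ 1 / 2) (hσ1 : σ ≤ 1 / 8) :
      Gn K c w τ .ring (fR ⟨c, τ⟩ (LT.zt ρ σ) - fR ⟨w, 0⟩ (LT.zt ρ σ))
  | touched : Gn K c w τ .touched (-(59 / 25) * τ)

/-! ### targets of the real hinges -/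

/-- target of the real hinge in the slot `0` of a region with three crossings (or at the end) whose
inner variable is in the tail -/
noncomputable def cU (C : Ct) (u : ℝ) : ℝ :=
  match C with
  | .one => if u < 3 / 10 then 23 / 100 else 27 / 100
  | .threeA => 11 / 50
  | C => cN C

/-- target of the real hinge in the slot `2` of an interior region with three crossings whose inner
variable is in the tail -/
noncomputable def cW (C : Ct) : ℝ :=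
  match C with
  | .one => 21 / 100
  | C => cN C

/-- distance of the target of the inner variable of a region with three crossings at an end -/
noncomputable def dE : Ct → ℝ
  | .one => 13 / 100
  | .threeA => 13 / 100
  | _ => 1 / 6

/-- target of the real hinge of a touched ring -/
noncomputable def cZ : Ct → ℝ
  | .one => 1 / 4
  | .two => 1 / 4
  | .twoE => 11 / 50
  | .threeA => 11 / 50
  | .threeK => 9 / 50
  | .threeE => 11 / 50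
  | .ring => 9 / 50
  | .touched => 1 / 5

/-! ### touched rings -/

/-- share of a touched ring at its hinge in the tail, `B` is the class on the other side -/
noncomputable def gR (B : Cl) (x t : ℝ) : ℝ :=
  match B with
  | .one => if 95 / 100 ≤ x then -(1 / 100) - 17 / 10 * t else 14 / 100 - 21 / 10 * t
  | .ring => 1 / 100
  | _ => if 95 / 100 ≤ x then -(4 / 100) - 17 / 10 * t else 6 / 100 - 17 / 10 * t

/-- share of a touched digit of class `K` at its hinge in the tail next to a ring -/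
noncomputable def gD (K : Cl) (x t : ℝ) : ℝ :=
  match K with
  | .one => if 95 / 100 ≤ x then 15 / 1000 - 17 / 10 * t else -(135 / 1000) - 21 / 10 * t
  | .two => if 95 / 100 ≤ x then 5 / 100 - 17 / 10 * t else 1 / 100 - 17 / 10 * t
  | .twoE => 5 / 100 - 17 / 10 * t
  | .three => if 95 / 100 ≤ x then 5 / 100 - 17 / 10 * t else 2 / 100 - 17 / 10 * t
  | .threeE => 15 / 100 - 17 / 10 * t
  | .ring => 1 / 100

/-- a slot of a touched ring which is in the tail: old value, new value, share -/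
inductive RT (n : ℝ) : ℂ → ℂ → ℝ → Prop
  | one {x t : ℝ} (h0 : 65 / 100 ≤ x) (h1 : x ≤ 1) (h2 : -(158 / 1000) ≤ t)
      (h3 : t ≤ -(38 / 1000)) (h4 : n < 5 → -(128 / 1000) ≤ t) (h5 : n < 6 → -(138 / 1000) ≤ t) :
      RT n ⟨x, 0⟩ ⟨1 / 4, t⟩ (gR .one x t)
  | lo {x t : ℝ} (h0 : 60 / 100 ≤ x) (h1 : x ≤ 1) (h2 : -(131 / 1000) ≤ t)
      (h3 : t ≤ 4 / 1000) (h4 : n < 5 → -(115 / 1000) ≤ t) :
      RT n ⟨x, 0⟩ ⟨1 / 4, t⟩ (gR .two x t)
  | ring {x t : ℝ} (h0 : 1 / 2 ≤ x) (h1 : x ≤ 1) (h2 : -(385 / 10000) ≤ t)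
      (h3 : t ≤ 59 / 1000) (h4 : n < 5 → -(25 / 1000) ≤ t) :
      RT n ⟨x, 0⟩ ⟨1 / 4, t⟩ (gR .ring x t)

/-- the other slot of a touched ring: old value, new value, share -/
inductive RN (n : ℝ) : ℂ → ℂ → ℝ → Prop
  /-- no hinge -/
  | no : RN n 0 0 0
  /-- in the tail -/
  | tail {w w1 : ℂ} {g : ℝ} (h : RT n w w1 g) : RN n w w1 g
  /-- real, the region behind it is untouched; `G` its gain -/
  | un {C : Ct} {k t τ G : ℝ} (h0 : 0 ≤ k) (h1 : k ≤ 65 / 100) (hC : C ≠ .touched)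
      (hR : C = .ring → k ≤ 1 / 2) (hτ : C ≠ .ring → τ = -t) (hτ' : C = .ring → τ = t ∨ τ = -t)
      (h4 : C = .one → n < 5 → -(128 / 1000) ≤ t) (h5 : C = .one → n < 6 → -(138 / 1000) ≤ t)
      (h6 : C ≠ .one → C ≠ .ring → n < 5 → -(115 / 1000) ≤ t)
      (h7 : C = .ring → n < 5 → -(25 / 1000) ≤ t) (h8 : C = .ring → -(385 / 10000) ≤ t)
      (hG : Gn .ring (cZ C) k τ C G) : RN n ⟨k, 0⟩ ⟨cZ C, t⟩ (-G)
  /-- real, the region behind it is touched, of class one -/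
  | nbOne {x t : ℝ} (h0 : 0 ≤ x) (h1 : x ≤ 65 / 100) (h2 : -(158 / 1000) ≤ t)
      (h3 : t ≤ -(38 / 1000)) (h4 : n < 5 → -(128 / 1000) ≤ t) (h5 : n < 6 → -(138 / 1000) ≤ t) :
      RN n ⟨x, 0⟩ ⟨1 / 5, t⟩ (-(59 / 25) * t)
  | nbLo {x t : ℝ} (h0 : 0 ≤ x) (h1 : x ≤ 60 / 100) (h2 : -(131 / 1000) ≤ t)
      (h3 : t ≤ 4 / 1000) (h4 : n < 5 → -(115 / 1000) ≤ t) :
      RN n ⟨x, 0⟩ ⟨1 / 5, t⟩ (-(59 / 25) * t)
  /-- real, behind it is a touched ring -/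
  | nbRing {x t : ℝ} (h0 : 0 ≤ x) (h1 : x ≤ 1 / 2) (h2 : -(385 / 10000) ≤ t)
      (h3 : t ≤ 59 / 1000) (h4 : n < 5 → -(25 / 1000) ≤ t) : RN n ⟨x, 0⟩ ⟨1 / 5, t⟩ 0

end TL

end Pool.Agent.Work.MP_b30479_gt.G2
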