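import Pool.Agent.Work.NumU.TreeS

/-!
# Pieces of the certificates of `TE1A`, part 6
-/

set_option linter.unusedVariables false
set_option linter.unusedSimpArgs false
set_option linter.unusedTactic false
set_option linter.unreachableTactic false
namespace Pool.Agent.Work.MP_b30479_gt.G2
open NumU
open NumU.E
open NumI (V)
namespace TL
namespace E1

theorem k_axAw_p7 : Pool.Agent.Work.NumU.runT [(.sub (.add (.add (.sub (.add (.mul .pi (.add (.mul (.sub (.q 18 100) (.var 0)) (.var 3)) (.mul (.var 1) (.sub (.sub (.var 2) (.var 0)) (.q 1 1))))) (.uu (.add (.q 18 100) (.sub (.var 2) (.var 0))) (.add (.var 1) (.var 3)))) (.uu (.q 18 100) (.var 1))) (.neg (.uu (.var 2) (.var 3)))) (.uu (.var 0) (.q 0 1))) (.add (.add (.q (-11) 1000) (.mul (.q 0 1) (.var 0))) (.mul (.q (-3927) 1250) (.var 1)))), (.sub (.add (.sub (.add (.mul .pi (.add (.mul (.sub (.q 18 100) (.var 0)) (.var 3)) (.mul (.var 1) (.sub (.sub (.var 2) (.var 0)) (.q 1 1))))) (.uu (.add (.q 18 100) (.sub (.var 2) (.var 0))) (.add (.var 1) (.var 3)))) (.uu (.q 18 100) (.var 1))) (.neg (.uu (.var 2) (.var 3)))) (.add (.add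 (.q (-163) 5000) (.mul (.q 779 1000) (.var 0))) (.mul (.q (-821) 500) (.var 1)))), (.sub (.var 0) (.var 2)), (.sub (.sub (.var 2) (.var 0)) (.q 8 10)), (.sub (.var 3) (.mul (.q 85 100) (.sub (.var 2) (.var 0)))), (.sub (.var 3) (.mul (.q 3091 10000) (.sub (.q 8 10) (.sub (.var 2) (.var 0))))), (.sub (.neg (.mul (.q 64 100) (.sub (.var 2) (.var 0)))) (.var 3)), (.sub (.neg (.mul (.q 48 100) (.sub (.q 8 10) (.sub (.var 2) (.var 0))))) (.var 3))] 26
    11261159336363668331588648587264660996281544539549586140434922892391635522025566690663489122589335958844791725767384992233769421133658706175475101683306916493881331571568479242995128649351696747358642503087901196524790900290136895259252179317400994022400967457628993714735294100760719659651679081367523040042091613980758615363964830418002352228122244492959731436141253288988533130745765733560687798731348639179053330445966490367221502894436867689313917423232338159473454922739931919435379443590712731574782871404007763930598134389605853205758748214443405405892081806953945569297625940676462993868655750228314141727178308182966432455953669462031370020900870533541817867313887129796911904498610252218270623068025412034480753278020445586011406447688164901296598434791100091849929294789768129125188388438104206624586366271164052009707236829494115024108373035164955390141630018154399364566918143996111010425042890085175391523221797174927018489573298080003652649826294721540934765206000609324789624561716411776690839571126295542640432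
    (Pool.Agent.Work.NumI.setR 2 (Pool.Agent.Work.NumI.setR 3 (Pool.Agent.Work.NumI.setL 1 (Pool.Agent.Work.NumI.setR 0 (Pool.Agent.Work.NumI.setR 2 (Pool.Agent.Work.NumI.setL 3 (Pool.Agent.Work.NumI.setR 2 (Pool.Agent.Work.NumI.setR 2 ([V.of 10000 200 1800, V.of 10000 (-800) 800, V.of 10000 1600 9800, V.of 10000 (-960) 1360]))))))))) =
    27968489872938762625373805898989520666961857763595773769339531216481909943371229815850086667412349562133721787518132034761569118343706378946802730013136657910809695959253563233900545591690024144724213512476077529536787061612638645312988736298154705103401497689803086363242634033618953678593518644100721449099227109412350606395893412066706376842588971702062075247283204213841415336739484633640433871825984651388631347773282711597400367354334861541519345503266958938744526818347292897528001207579947747661996337684959013450845355753190074484568744679827347874509740019815154989340508391232224153849381504358498820091940 := by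
  decide +kernel

theorem k_axAw_p8 : Pool.Agent.Work.NumU.runT [(.sub (.add (.add (.sub (.add (.mul .pi (.add (.mul (.sub (.q 18 100) (.var 0)) (.var 3)) (.mul (.var 1) (.sub (.sub (.var 2) (.var 0)) (.q 1 1))))) (.uu (.add (.q 18 100) (.sub (.var 2) (.var 0))) (.add (.var 1) (.var 3)))) (.uu (.q 18 100) (.var 1))) (.neg (.uu (.var 2) (.var 3)))) (.uu (.var 0) (.q 0 1))) (.add (.add (.q (-11) 1000) (.mul (.q 0 1) (.var 0))) (.mul (.q (-3927) 1250) (.var 1)))), (.sub (.add (.sub (.add (.mul .pi (.add (.mul (.sub (.q 18 100) (.var 0)) (.var 3)) (.mul (.var 1) (.sub (.sub (.var 2) (.var 0)) (.q 1 1))))) (.uu (.add (.q 18 100) (.sub (.var 2) (.var 0))) (.add (.var 1) (.var 3)))) (.uu (.q 18 100) (.var 1))) (.neg (.uu (.var 2) (.var 3)))) (.add (.add (.q (-163) 5000) (.mul (.q 779 1000) (.var 0))) (.mul (.q (-821) 500) (.var 1)))), (.sub (.var 0) (.var 2)), (.sub (.sub (.var 2) (.var 0)) (.q 8 10)), (.sub (.var 3) (.mul (.q 85 100) (.sub (.var 2) (.var 0)))), (.sub (.var 3) (.mul (.q 3091 10000) (.sub (.q 8 10) (.sub (.var 2) (.var 0))))), (.sub (.neg (.mul (.q 64 100) (.sub (.var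 2) (.var 0)))) (.var 3)), (.sub (.neg (.mul (.q 48 100) (.sub (.q 8 10) (.sub (.var 2) (.var 0))))) (.var 3))] 28
    27968489872938762625373805898989520666961857763595773769339531216481909943371229815850086667412349562133721787518132034761569118343706378946802730013136657910809695959253563233900545591690024144724213512476077529536787061612638645312988736298154705103401497689803086363242634033618953678593518644100721449099227109412350606395893412066706376842588971702062075247283204213841415336739484633640433871825984651388631347773282711597400367354334861541519345503266958938744526818347292897528001207579947747661996337684959013450845355753190074484568744679827347874509740019815154989340508391232224153849381504358498820091939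
    (Pool.Agent.Work.NumI.setR 1 (Pool.Agent.Work.NumI.setR 0 (Pool.Agent.Work.NumI.setR 2 (Pool.Agent.Work.NumI.setL 3 (Pool.Agent.Work.NumI.setR 2 (Pool.Agent.Work.NumI.setR 2 ([V.of 10000 200 1800, V.of 10000 (-800) 800, V.of 10000 1600 9800, V.of 10000 (-960) 1360]))))))) =
    876749139587104840921361973963364525532029890263623353011641031603090589870310331035093769527820397944492066968737129334292743630307408407344426813637922704689045183275030622244 := by
  decide +kernel

theorem k_axAw_p9 : Pool.Agent.Work.NumU.runT [(.sub (.add (.add (.sub (.add (.mul .pi (.add (.mul (.sub (.q 18 100) (.var 0)) (.var 3)) (.mul (.var 1) (.sub (.sub (.var 2) (.var 0)) (.q 1 1))))) (.uu (.add (.q 18 100) (.sub (.var 2) (.var 0))) (.add (.var 1) (.var 3)))) (.uu (.q 18 100) (.var 1))) (.neg (.uu (.var 2) (.var 3)))) (.uu (.var 0) (.q 0 1))) (.add (.add (.q (-11) 1000) (.mul (.q 0 1) (.var 0))) (.mul (.q (-3927) 1250) (.var 1)))), (.sub (.add (.sub (.add (.mul .pi (.add (.mul (.sub (.q 18 100) (.var 0)) (.var 3)) (.mul (.var 1) (.sub (.sub (.var 2) (.var 0)) (.q 1 1))))) (.uu (.add (.q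 18 100) (.sub (.var 2) (.var 0))) (.add (.var 1) (.var 3)))) (.uu (.q 18 100) (.var 1))) (.neg (.uu (.var 2) (.var 3)))) (.add (.add (.q (-163) 5000) (.mul (.q 779 1000) (.var 0))) (.mul (.q (-821) 500) (.var 1)))), (.sub (.var 0) (.var 2)), (.sub (.sub (.var 2) (.var 0)) (.q 8 10)), (.sub (.var 3) (.mul (.q 85 100) (.sub (.var 2) (.var 0)))), (.sub (.var 3) (.mul (.q 3091 10000) (.sub (.q 8 10) (.sub (.var 2) (.var 0))))), (.sub (.neg (.mul (.q 64 100) (.sub (.var 2) (.var 0)))) (.var 3)), (.sub (.neg (.mul (.q 48 100) (.sub (.q 8 10) (.sub (.var 2) (.var 0))))) (.var 3))] 31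
    876749139587104840921361973963364525532029890263623353011641031603090589870310331035093769527820397944492066968737129334292743630307408407344426813637922704689045183275030622243
    (Pool.Agent.Work.NumI.setR 3 (Pool.Agent.Work.NumI.setR 2 (Pool.Agent.Work.NumI.setR 2 ([V.of 10000 200 1800, V.of 10000 (-800) 800, V.of 10000 1600 9800, V.of 10000 (-960) 1360])))) =
    1 := by
  decide +kernel

theorem k_axAv_p1 : Pool.Agent.Work.NumU.runT [(.sub (.add (.add (.sub (.add (.mul .pi (.add (.mul (.sub (.q 18 100) (.var 0)) (.var 3)) (.mul (.var 1) (.sub (.sub (.var 2) (.var 0)) (.q 1 1))))) (.uu (.add (.q 18 100) (.sub (.var 2) (.var 0))) (.add (.var 1) (.var 3)))) (.uu (.q 18 100) (.var 1))) (.neg (.uu (.var 2) (.var 3)))) (.uu (.q 2 100) (.q 0 1))) (.add (.add (.q (-11) 1000) (.mul (.q 0 1) (.var 0))) (.mul (.q (-3927) 1250) (.var 1)))), (.sub (.add (.sub (.add (.mul .pi (.add (.mul (.sub (.q 18 100) (.var 0)) (.var 3)) (.mul (.var 1) (.sub (.sub (.var 2) (.var 0)) (.q 1 1))))) (.uu (.add (.q 18 100) (.sub (.var 2) (.var 0))) (.add (.var 1) (.var 3)))) (.uu (.q 18 100) (.var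 1))) (.neg (.uu (.var 2) (.var 3)))) (.add (.add (.q (-163) 5000) (.mul (.q 779 1000) (.var 0))) (.mul (.q (-821) 500) (.var 1)))), (.sub (.var 0) (.var 2)), (.sub (.sub (.var 2) (.var 0)) (.q 8 10)), (.sub (.var 3) (.mul (.q 85 100) (.sub (.var 2) (.var 0)))), (.sub (.var 3) (.mul (.q 3091 10000) (.sub (.q 8 10) (.sub (.var 2) (.var 0))))), (.sub (.neg (.mul (.q 64 100) (.sub (.var 2) (.var 0)))) (.var 3)), (.sub (.neg (.mul (.q 48 100) (.sub (.q 8 10) (.sub (.var 2) (.var 0))))) (.var 3))] 34
    12166259245121920097241309935438221091973716976858848823172791339676385090749806440941292966606244268981214304507709825728174495368823210080425086183933969273634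
    ([V.of 10000 0 200, V.of 10000 (-800) 800, V.of 10000 1600 8200, V.of 10000 (-960) 1360]) =
    1 := by
  decide +kernel

end E1
end TL
end Pool.Agent.Work.MP_b30479_gt.G2
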