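import Pool.Agent.Work.MP_b30479_gt.G2.TE1As1
import Pool.Agent.Work.MP_b30479_gt.G2.TE1As2
import Pool.Agent.Work.MP_b30479_gt.G2.TE1As3
import Pool.Agent.Work.MP_b30479_gt.G2.TE1As4
import Pool.Agent.Work.MP_b30479_gt.G2.TE1As5
import Pool.Agent.Work.MP_b30479_gt.G2.TE1As6

/-!
# Tails, rows `E1`, `E2`: certificates (class one)

Variables: `w`, `t`, `s = w + X`, `Y`.  `U`, `S`, `W` stand for `uu (18/100 + X) (t + Y)`, `-uu s Y`,
`uu w 0`.
-/

set_option linter.unusedVariables false
set_option linter.unusedSimpArgs false
set_option linter.unusedTactic false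
set_option linter.unreachableTactic false

namespace Pool.Agent.Work.MP_b30479_gt.G2

open NumU
open NumU.E
open NumI (V)

namespace TL

namespace E1

/-- 536 boxes -/
theorem k_bxA0 {w t s Y U S : ℝ}
    (a0 : 1800 / 10000 ≤ w) (b0 : w ≤ 4000 / 10000)
    (a1 : -(800 / 10000) ≤ t) (b1 : t ≤ 800 / 10000)
    (a2 : 1800 / 10000 ≤ s) (b2 : s ≤ 9950 / 10000)
    (a3 : -(960 / 10000) ≤ Y) (b3 : Y ≤ 1360 / 10000)
    (r1 : w ≤ s) (r2 : s - w ≤ 8 / 10)
    (r3 : Y ≤ 85 / 100 * (s - w)) (r4 : Y ≤ 3091 / 10000 * (8 / 10 - (s - w)))
    (r5 : -(64 / 100 * (s - w)) ≤ Y) (r6 : -(48 / 100 * (8 / 10 - (s - w))) ≤ Y)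
    (u0 : uu (18 / 100 + (s - w)) (t + Y) ≤ U)
    (hS : -uu s Y ≤ S)
    (h1 : Real.pi * ((18 / 100 - w) * Y + t * (s - w - 1)) + U - uu (18 / 100) t + S < 164 / 625
      - 921 / 1000 * w - 1849 / 1000 * t)
    (h2 : Real.pi * ((18 / 100 - w) * Y + t * (s - w - 1)) + U - uu (18 / 100) t + S < 1451 /
      5000 - 1021 / 1000 * w - 1309 / 500 * t) : False := by
  have h : chkT [(.sub (.add (.sub (.add (.mul .pi (.add (.mul (.sub (.q 18 100) (.var 0)) (.var 3)) (.mul
      (.var 1) (.sub (.sub (.var 2) (.var 0)) (.q 1 1))))) (.uu (.add (.q 18 100) (.sub (.var 2)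
      (.var 0))) (.add (.var 1) (.var 3)))) (.uu (.q 18 100) (.var 1))) (.neg (.uu (.var 2) (.var
      3)))) (.add (.add (.q 164 625) (.mul (.q (-921) 1000) (.var 0))) (.mul (.q (-1849) 1000)
      (.var 1)))), (.sub (.add (.sub (.add (.mul .pi (.add (.mul (.sub (.q 18 100) (.var 0)) (.var
      3)) (.mul (.var 1) (.sub (.sub (.var 2) (.var 0)) (.q 1 1))))) (.uu (.add (.q 18 100) (.sub
      (.var 2) (.var 0))) (.add (.var 1) (.var 3)))) (.uu (.q 18 100) (.var 1))) (.neg (.uu (.var
      2) (.var 3)))) (.add (.add (.q 1451 5000) (.mul (.q (-1021) 1000) (.var 0))) (.mul (.q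
      (-1309) 500) (.var 1)))), (.sub (.var 0) (.var 2)), (.sub (.sub (.var 2) (.var 0)) (.q 8
      10)), (.sub (.var 3) (.mul (.q 85 100) (.sub (.var 2) (.var 0)))), (.sub (.var 3) (.mul (.q
      3091 10000) (.sub (.q 8 10) (.sub (.var 2) (.var 0))))), (.sub (.neg (.mul (.q 64 100) (.sub
      (.var 2) (.var 0)))) (.var 3)), (.sub (.neg (.mul (.q 48 100) (.sub (.q 8 10) (.sub (.var 2)
      (.var 0))))) (.var 3))] 34
      3465632991099818708612609438218810030975154222959231650079375076882591280718279459422931278087646026257428634312843363753446788193153036769888797117754319160309896337915791571741260728448513531181925987182825901754631385168374152755858677494059742733717956441105354238337739388082231864297819698507825254384716433366074383955575767605682183538881730704689717839594308384258189449948974990450292196823715767441777505218026230159591580114703441571601089016420217025772673698788461346982139850714078656827604818480299799792407921761765009877508212779996184230204401405977573903481642407154579002955669230419874196047674744454514285463565546125022505462033550936348274182782722751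76735505713058046793495356335035023842170986916457189335912880606129044100177631817881197581526233972448921255324160018245492754668450414179513569284349130089387614851254648541532979225271851775669628716843658844932252677155947979048816059492826468742980061533064928327941369621693236516530508072070783413474493352984037641173175640004667146045107610353610645221461150890508264210345335751421325332771881697252913764172536751315198057721043503275073411609165205537549455631130155743654678603434364228163438007245921276721102070528607074551479240158186735257345484101455396492706689733598498816604975776584063524898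
      [V.of 10000 1800 4000, V.of 10000 (-800) 800, V.of 10000 1800 9950, V.of 10000 (-960) 1360] = true :=
      Pool.Agent.Work.NumU.chkT_of (Pool.Agent.Work.NumU.runT_split rfl rfl rfl
        k_bxA0_p1
        (Pool.Agent.Work.NumU.runT_split rfl rfl rfl
          k_bxA0_p2
          k_bxA0_p3))
  obtain ⟨e, he, hp⟩ := chkT4 h (by norm_num) (x := w) (y := t) (z := s) (w := Y)
    (le_trans (by norm_num) a0) (le_trans b0 (by norm_num))
    (le_trans (by norm_num) a1) (le_trans b1 (by norm_num))
    (le_trans (by norm_num) a2) (le_trans b2 (by norm_num))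
    (le_trans (by norm_num) a3) (le_trans b3 (by norm_num))
  simp only [List.mem_cons, List.not_mem_nil, or_false] at he
  rcases he with rfl | rfl | rfl | rfl | rfl | rfl | rfl | rfl
  · simp only [E.val, NumI.lkR] at hp
    push_cast at hp
    try simp only [zero_div, div_one] at hp
    linarith only [u0, hS, h1, hp]
  · simp only [E.val, NumI.lkR] at hp
    push_cast at hp
    try simp only [zero_div, div_one] at hp
    linarith only [u0, hS, h2, hp]
  · simp only [E.val, NumI.lkR] at hp
    push_cast at hp
    try simp only [zero_div, div_one] at hp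
    linarith only [r1, hp]
  · simp only [E.val, NumI.lkR] at hp
    push_cast at hp
    try simp only [zero_div, div_one] at hp
    linarith only [r2, hp]
  · simp only [E.val, NumI.lkR] at hp
    push_cast at hp
    try simp only [zero_div, div_one] at hp
    linarith only [r3, hp]
  · simp only [E.val, NumI.lkR] at hp
    push_cast at hp
    try simp only [zero_div, div_one] at hp
    linarith only [r4, hp]
  · simp only [E.val, NumI.lkR] at hp
    push_cast at hp
    try simp only [zero_div, div_one] at hp
    linarith only [r5, hp]
  · simp only [E.val, NumI.lkR] at hp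
    push_cast at hp
    try simp only [zero_div, div_one] at hp
    linarith only [r6, hp]

/-- 42 boxes -/
theorem k_bxc0 {w t s Y U S : ℝ}
    (a0 : 1800 / 10000 ≤ w) (b0 : w ≤ 4000 / 10000)
    (a1 : -(800 / 10000) ≤ t) (b1 : t ≤ 800 / 10000)
    (a2 : 9950 / 10000 ≤ s) (b2 : s ≤ 10050 / 10000)
    (a3 : -(960 / 10000) ≤ Y) (b3 : Y ≤ 1360 / 10000)
    (r1 : w ≤ s) (r2 : s - w ≤ 8 / 10)
    (r3 : Y ≤ 85 / 100 * (s - w)) (r4 : Y ≤ 3091 / 10000 * (8 / 10 - (s - w)))
    (r5 : -(64 / 100 * (s - w)) ≤ Y) (r6 : -(48 / 100 * (8 / 10 - (s - w))) ≤ Y)
    (u0 : uu (18 / 100 + (s - w)) (t + Y) ≤ U)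
    (hS : uu (5 / 1000) Y ≤ S)
    (h1 : Real.pi * ((18 / 100 - w) * Y + t * (s - w - 1)) + U - uu (18 / 100) t + S < 164 / 625
      - 921 / 1000 * w - 1849 / 1000 * t)
    (h2 : Real.pi * ((18 / 100 - w) * Y + t * (s - w - 1)) + U - uu (18 / 100) t + S < 1451 /
      5000 - 1021 / 1000 * w - 1309 / 500 * t) : False := by
  have h : chkT [(.sub (.add (.sub (.add (.mul .pi (.add (.mul (.sub (.q 18 100) (.var 0)) (.var 3)) (.mul
      (.var 1) (.sub (.sub (.var 2) (.var 0)) (.q 1 1))))) (.uu (.add (.q 18 100) (.sub (.var 2)
      (.var 0))) (.add (.var 1) (.var 3)))) (.uu (.q 18 100) (.var 1))) (.uu (.q 5 1000) (.var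
      3))) (.add (.add (.q 164 625) (.mul (.q (-921) 1000) (.var 0))) (.mul (.q (-1849) 1000)
      (.var 1)))), (.sub (.add (.sub (.add (.mul .pi (.add (.mul (.sub (.q 18 100) (.var 0)) (.var
      3)) (.mul (.var 1) (.sub (.sub (.var 2) (.var 0)) (.q 1 1))))) (.uu (.add (.q 18 100) (.sub
      (.var 2) (.var 0))) (.add (.var 1) (.var 3)))) (.uu (.q 18 100) (.var 1))) (.uu (.q 5 1000)
      (.var 3))) (.add (.add (.q 1451 5000) (.mul (.q (-1021) 1000) (.var 0))) (.mul (.q (-1309)
      500) (.var 1)))), (.sub (.var 0) (.var 2)), (.sub (.sub (.var 2) (.var 0)) (.q 8 10)), (.sub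
      (.var 3) (.mul (.q 85 100) (.sub (.var 2) (.var 0)))), (.sub (.var 3) (.mul (.q 3091 10000)
      (.sub (.q 8 10) (.sub (.var 2) (.var 0))))), (.sub (.neg (.mul (.q 64 100) (.sub (.var 2)
      (.var 0)))) (.var 3)), (.sub (.neg (.mul (.q 48 100) (.sub (.q 8 10) (.sub (.var 2) (.var
      0))))) (.var 3))] 34
      7399222058389477993299100812644931117684039675047190420788762581690896442604578785535297890246669056
      [V.of 10000 1800 4000, V.of 10000 (-800) 800, V.of 10000 9950 10050, V.of 10000 (-960) 1360] = true :=
      Pool.Agent.Work.NumU.chkT_of k_bxc0_p1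
  obtain ⟨e, he, hp⟩ := chkT4 h (by norm_num) (x := w) (y := t) (z := s) (w := Y)
    (le_trans (by norm_num) a0) (le_trans b0 (by norm_num))
    (le_trans (by norm_num) a1) (le_trans b1 (by norm_num))
    (le_trans (by norm_num) a2) (le_trans b2 (by norm_num))
    (le_trans (by norm_num) a3) (le_trans b3 (by norm_num))
  simp only [List.mem_cons, List.not_mem_nil, or_false] at he
  rcases he with rfl | rfl | rfl | rfl | rfl | rfl | rfl | rfl
  · simp only [E.val, NumI.lkR] at hp
    push_cast at hp
    try simp only [zero_div, div_one] at hp
    linarith only [u0, hS, h1, hp]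
  · simp only [E.val, NumI.lkR] at hp
    push_cast at hp
    try simp only [zero_div, div_one] at hp
    linarith only [u0, hS, h2, hp]
  · simp only [E.val, NumI.lkR] at hp
    push_cast at hp
    try simp only [zero_div, div_one] at hp
    linarith only [b0, a2, hp]
  · simp only [E.val, NumI.lkR] at hp
    push_cast at hp
    try simp only [zero_div, div_one] at hp
    linarith only [r2, hp]
  · simp only [E.val, NumI.lkR] at hp
    push_cast at hp
    try simp only [zero_div, div_one] at hp
    linarith only [b0, a2, b3, hp]
  · simp only [E.val, NumI.lkR] at hp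
    push_cast at hp
    try simp only [zero_div, div_one] at hp
    linarith only [r4, hp]
  · simp only [E.val, NumI.lkR] at hp
    push_cast at hp
    try simp only [zero_div, div_one] at hp
    linarith only [b0, a2, r6, hp]
  · simp only [E.val, NumI.lkR] at hp
    push_cast at hp
    try simp only [zero_div, div_one] at hp
    linarith only [r6, hp]

/-- 442 boxes -/
theorem k_bxp0 {w t s Y U S : ℝ}
    (a0 : 1800 / 10000 ≤ w) (b0 : w ≤ 4000 / 10000)
    (a1 : -(800 / 10000) ≤ t) (b1 : t ≤ 800 / 10000)
    (a2 : 10050 / 10000 ≤ s) (b2 : s ≤ 12000 / 10000)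
    (a3 : 0 ≤ Y) (b3 : Y ≤ 1360 / 10000)
    (r1 : w ≤ s) (r2 : s - w ≤ 8 / 10)
    (r3 : Y ≤ 85 / 100 * (s - w)) (r4 : Y ≤ 3091 / 10000 * (8 / 10 - (s - w)))
    (r5 : -(64 / 100 * (s - w)) ≤ Y) (r6 : -(48 / 100 * (8 / 10 - (s - w))) ≤ Y)
    (u0 : uu (18 / 100 + (s - w)) (t + Y) ≤ U)
    (hS : -uu (5 / 1000) Y - Real.pi * Y ≤ S)
    (h1 : Real.pi * ((18 / 100 - w) * Y + t * (s - w - 1)) + U - uu (18 / 100) t + S < 164 / 625
      - 921 / 1000 * w - 1849 / 1000 * t)
    (h2 : Real.pi * ((18 / 100 - w) * Y + t * (s - w - 1)) + U - uu (18 / 100) t + S < 1451 /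
      5000 - 1021 / 1000 * w - 1309 / 500 * t) : False := by
  have h : chkT [(.sub (.add (.sub (.add (.mul .pi (.add (.mul (.sub (.q 18 100) (.var 0)) (.var 3)) (.mul
      (.var 1) (.sub (.sub (.var 2) (.var 0)) (.q 1 1))))) (.uu (.add (.q 18 100) (.sub (.var 2)
      (.var 0))) (.add (.var 1) (.var 3)))) (.uu (.q 18 100) (.var 1))) (.sub (.neg (.uu (.q 5
      1000) (.var 3))) (.mul .pi (.var 3)))) (.add (.add (.q 164 625) (.mul (.q (-921) 1000) (.var
      0))) (.mul (.q (-1849) 1000) (.var 1)))), (.sub (.add (.sub (.add (.mul .pi (.add (.mul
      (.sub (.q 18 100) (.var 0)) (.var 3)) (.mul (.var 1) (.sub (.sub (.var 2) (.var 0)) (.q 1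
      1))))) (.uu (.add (.q 18 100) (.sub (.var 2) (.var 0))) (.add (.var 1) (.var 3)))) (.uu (.q
      18 100) (.var 1))) (.sub (.neg (.uu (.q 5 1000) (.var 3))) (.mul .pi (.var 3)))) (.add (.add
      (.q 1451 5000) (.mul (.q (-1021) 1000) (.var 0))) (.mul (.q (-1309) 500) (.var 1)))), (.sub
      (.var 0) (.var 2)), (.sub (.sub (.var 2) (.var 0)) (.q 8 10)), (.sub (.var 3) (.mul (.q 85
      100) (.sub (.var 2) (.var 0)))), (.sub (.var 3) (.mul (.q 3091 10000) (.sub (.q 8 10) (.sub
      (.var 2) (.var 0))))), (.sub (.neg (.mul (.q 64 100) (.sub (.var 2) (.var 0)))) (.var 3)),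
      (.sub (.neg (.mul (.q 48 100) (.sub (.q 8 10) (.sub (.var 2) (.var 0))))) (.var 3))] 34
      14988473963508176034539449543921527584675457020908065339581451048032831153790881890886009661454959364088829969576522369626347646420358658497772450049529994681466629196678775178957042304862380131317249068241671343112996835984797004763614410926537693539292950041756464314754148696955601508778556787996782377755028680311400804083403219647189817284356524785706277878608734153048770734873422149613406082326375098132971787567591426845316199548960637846318973395575011669330401441117944708573125436311050442394806464268248106334569123939545082677602839324820123498023662671820182570288076880762218918658000511485034844357039237654382642074978241713697682167309948694799109007855478227815592837251194105159999878244422451181934337573185940165538476817896486492692308566816440013731811349707026127705091852860806304178806598381436209024161338807143797739106289464598942854077753640631673297020661801881004067113596801572363647576581624774938946807589444876821631651608694094516121022234444229041846022560409710062815070826229655981029371595138182610748401621881261712814595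
      [V.of 10000 1800 4000, V.of 10000 (-800) 800, V.of 10000 10050 12000, V.of 10000 0 1360] = true :=
      Pool.Agent.Work.NumU.chkT_of (Pool.Agent.Work.NumU.runT_split rfl rfl rfl
        (Pool.Agent.Work.NumU.runT_split rfl rfl rfl
          k_bxp0_p1
          k_bxp0_p2)
        k_bxp0_p3)
  obtain ⟨e, he, hp⟩ := chkT4 h (by norm_num) (x := w) (y := t) (z := s) (w := Y)
    (le_trans (by norm_num) a0) (le_trans b0 (by norm_num))
    (le_trans (by norm_num) a1) (le_trans b1 (by norm_num))
    (le_trans (by norm_num) a2) (le_trans b2 (by norm_num))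
    (le_trans (by norm_num) a3) (le_trans b3 (by norm_num))
  simp only [List.mem_cons, List.not_mem_nil, or_false] at he
  rcases he with rfl | rfl | rfl | rfl | rfl | rfl | rfl | rfl
  · simp only [E.val, NumI.lkR] at hp
    push_cast at hp
    try simp only [zero_div, div_one] at hp
    linarith only [u0, hS, h1, hp]
  · simp only [E.val, NumI.lkR] at hp
    push_cast at hp
    try simp only [zero_div, div_one] at hp
    linarith only [u0, hS, h2, hp]
  · simp only [E.val, NumI.lkR] at hp
    push_cast at hp
    try simp only [zero_div, div_one] at hp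
    linarith only [b0, a2, hp]
  · simp only [E.val, NumI.lkR] at hp
    push_cast at hp
    try simp only [zero_div, div_one] at hp
    linarith only [r2, hp]
  · simp only [E.val, NumI.lkR] at hp
    push_cast at hp
    try simp only [zero_div, div_one] at hp
    linarith only [b0, a2, b3, hp]
  · simp only [E.val, NumI.lkR] at hp
    push_cast at hp
    try simp only [zero_div, div_one] at hp
    linarith only [r4, hp]
  · simp only [E.val, NumI.lkR] at hp
    push_cast at hp
    try simp only [zero_div, div_one] at hp
    linarith only [b0, a2, a3, hp]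
  · simp only [E.val, NumI.lkR] at hp
    push_cast at hp
    try simp only [zero_div, div_one] at hp
    linarith only [a3, r2, hp]

/-- 453 boxes -/
theorem k_bxn0 {w t s Y U S : ℝ}
    (a0 : 1800 / 10000 ≤ w) (b0 : w ≤ 4000 / 10000)
    (a1 : -(800 / 10000) ≤ t) (b1 : t ≤ 800 / 10000)
    (a2 : 10050 / 10000 ≤ s) (b2 : s ≤ 12000 / 10000)
    (a3 : -(960 / 10000) ≤ Y) (b3 : Y ≤ 0)
    (r1 : w ≤ s) (r2 : s - w ≤ 8 / 10)
    (r3 : Y ≤ 85 / 100 * (s - w)) (r4 : Y ≤ 3091 / 10000 * (8 / 10 - (s - w)))
    (r5 : -(64 / 100 * (s - w)) ≤ Y) (r6 : -(48 / 100 * (8 / 10 - (s - w))) ≤ Y)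
    (u0 : uu (18 / 100 + (s - w)) (t + Y) ≤ U)
    (hS : -uu (5 / 1000) Y + Real.pi * Y ≤ S)
    (h1 : Real.pi * ((18 / 100 - w) * Y + t * (s - w - 1)) + U - uu (18 / 100) t + S < 164 / 625
      - 921 / 1000 * w - 1849 / 1000 * t)
    (h2 : Real.pi * ((18 / 100 - w) * Y + t * (s - w - 1)) + U - uu (18 / 100) t + S < 1451 /
      5000 - 1021 / 1000 * w - 1309 / 500 * t) : False := by
  have h : chkT [(.sub (.add (.sub (.add (.mul .pi (.add (.mul (.sub (.q 18 100) (.var 0)) (.var 3)) (.mul
      (.var 1) (.sub (.sub (.var 2) (.var 0)) (.q 1 1))))) (.uu (.add (.q 18 100) (.sub (.var 2)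
      (.var 0))) (.add (.var 1) (.var 3)))) (.uu (.q 18 100) (.var 1))) (.add (.neg (.uu (.q 5
      1000) (.var 3))) (.mul .pi (.var 3)))) (.add (.add (.q 164 625) (.mul (.q (-921) 1000) (.var
      0))) (.mul (.q (-1849) 1000) (.var 1)))), (.sub (.add (.sub (.add (.mul .pi (.add (.mul
      (.sub (.q 18 100) (.var 0)) (.var 3)) (.mul (.var 1) (.sub (.sub (.var 2) (.var 0)) (.q 1
      1))))) (.uu (.add (.q 18 100) (.sub (.var 2) (.var 0))) (.add (.var 1) (.var 3)))) (.uu (.q
      18 100) (.var 1))) (.add (.neg (.uu (.q 5 1000) (.var 3))) (.mul .pi (.var 3)))) (.add (.add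
      (.q 1451 5000) (.mul (.q (-1021) 1000) (.var 0))) (.mul (.q (-1309) 500) (.var 1)))), (.sub
      (.var 0) (.var 2)), (.sub (.sub (.var 2) (.var 0)) (.q 8 10)), (.sub (.var 3) (.mul (.q 85
      100) (.sub (.var 2) (.var 0)))), (.sub (.var 3) (.mul (.q 3091 10000) (.sub (.q 8 10) (.sub
      (.var 2) (.var 0))))), (.sub (.neg (.mul (.q 64 100) (.sub (.var 2) (.var 0)))) (.var 3)),
      (.sub (.neg (.mul (.q 48 100) (.sub (.q 8 10) (.sub (.var 2) (.var 0))))) (.var 3))] 34
      2917045849777972109362409001553342097649770467370647164552585404550587951688166737291078529223930621209960298229363259891954876343840580281355470092298767251947021699271667266070855640840003350714710256062670996705277774260144144188161253058878654664812759642612789596854613943724205056956455452634184638914233934364916723310608365133239594559683399380340843858594239919948208768681570027794968228496385556591776379075564137092265432249083424558077939753024221689361675181663439797854501450656001949917044325511667382905852085675666197597626950690843636102608468000764136114466904019045260357414641515645528796145377597787713672887313282528578058655985591030835039569980585538045828032145326531000814024497396362132911035240223657513857695388061247655385507463379893884833396517660090468339062731674923482506705533616082834671829382814371111253454705182410102089808229737063743576901492394045885296241809329512550780129208662719699578362000119097541551254611063037870533157745026791894205510423010880504923116166949586469367170014091789213196885719503784360720006463563699323338696903750432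
      [V.of 10000 1800 4000, V.of 10000 (-800) 800, V.of 10000 10050 12000, V.of 10000 (-960) 0] = true :=
      Pool.Agent.Work.NumU.chkT_of (Pool.Agent.Work.NumU.runT_split rfl rfl rfl
        k_bxn0_p1
        k_bxn0_p2)
  obtain ⟨e, he, hp⟩ := chkT4 h (by norm_num) (x := w) (y := t) (z := s) (w := Y)
    (le_trans (by norm_num) a0) (le_trans b0 (by norm_num))
    (le_trans (by norm_num) a1) (le_trans b1 (by norm_num))
    (le_trans (by norm_num) a2) (le_trans b2 (by norm_num))
    (le_trans (by norm_num) a3) (le_trans b3 (by norm_num))
  simp only [List.mem_cons, List.not_mem_nil, or_false] at he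
  rcases he with rfl | rfl | rfl | rfl | rfl | rfl | rfl | rfl
  · simp only [E.val, NumI.lkR] at hp
    push_cast at hp
    try simp only [zero_div, div_one] at hp
    linarith only [u0, hS, h1, hp]
  · simp only [E.val, NumI.lkR] at hp
    push_cast at hp
    try simp only [zero_div, div_one] at hp
    linarith only [u0, hS, h2, hp]
  · simp only [E.val, NumI.lkR] at hp
    push_cast at hp
    try simp only [zero_div, div_one] at hp
    linarith only [b0, a2, hp]
  · simp only [E.val, NumI.lkR] at hp
    push_cast at hp
    try simp only [zero_div, div_one] at hp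
    linarith only [r2, hp]
  · simp only [E.val, NumI.lkR] at hp
    push_cast at hp
    try simp only [zero_div, div_one] at hp
    linarith only [b0, a2, b3, hp]
  · simp only [E.val, NumI.lkR] at hp
    push_cast at hp
    try simp only [zero_div, div_one] at hp
    linarith only [b3, r2, hp]
  · simp only [E.val, NumI.lkR] at hp
    push_cast at hp
    try simp only [zero_div, div_one] at hp
    linarith only [b0, a2, r6, hp]
  · simp only [E.val, NumI.lkR] at hp
    push_cast at hp
    try simp only [zero_div, div_one] at hp
    linarith only [r6, hp]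

/-- 346 boxes -/
theorem k_axlo {w t s Y U S W : ℝ}
    (a0 : 0 ≤ w) (b0 : w ≤ 1600 / 10000)
    (a1 : -(800 / 10000) ≤ t) (b1 : t ≤ 800 / 10000)
    (a2 : 0 ≤ s) (b2 : s ≤ 1600 / 10000)
    (a3 : -(960 / 10000) ≤ Y) (b3 : Y ≤ 1360 / 10000)
    (r1 : w ≤ s) (r2 : s - w ≤ 8 / 10)
    (r3 : Y ≤ 85 / 100 * (s - w)) (r4 : Y ≤ 3091 / 10000 * (8 / 10 - (s - w)))
    (r5 : -(64 / 100 * (s - w)) ≤ Y) (r6 : -(48 / 100 * (8 / 10 - (s - w))) ≤ Y)
    (u0 : uu (18 / 100 + (s - w)) (t + Y) ≤ U)
    (hS : -uu s Y ≤ S) (hW : 0 ≤ S + W)
    (h1 : Real.pi * ((18 / 100 - w) * Y + t * (s - w - 1)) + U - uu (18 / 100) t + S + W < -(11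
      / 1000) - 3927 / 1250 * t)
    (h2 : Real.pi * ((18 / 100 - w) * Y + t * (s - w - 1)) + U - uu (18 / 100) t + S < -(163 /
      5000) + 779 / 1000 * w - 821 / 500 * t) : False := by
  have h : chkT [(.sub (.sub (.add (.mul .pi (.add (.mul (.sub (.q 18 100) (.var 0)) (.var 3)) (.mul (.var 1)
      (.sub (.sub (.var 2) (.var 0)) (.q 1 1))))) (.uu (.add (.q 18 100) (.sub (.var 2) (.var 0)))
      (.add (.var 1) (.var 3)))) (.uu (.q 18 100) (.var 1))) (.add (.add (.q (-11) 1000) (.mul (.q
      0 1) (.var 0))) (.mul (.q (-3927) 1250) (.var 1)))), (.sub (.add (.sub (.add (.mul .pi (.add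
      (.mul (.sub (.q 18 100) (.var 0)) (.var 3)) (.mul (.var 1) (.sub (.sub (.var 2) (.var 0))
      (.q 1 1))))) (.uu (.add (.q 18 100) (.sub (.var 2) (.var 0))) (.add (.var 1) (.var 3))))
      (.uu (.q 18 100) (.var 1))) (.neg (.uu (.var 2) (.var 3)))) (.add (.add (.q (-163) 5000)
      (.mul (.q 779 1000) (.var 0))) (.mul (.q (-821) 500) (.var 1)))), (.sub (.var 0) (.var 2)),
      (.sub (.sub (.var 2) (.var 0)) (.q 8 10)), (.sub (.var 3) (.mul (.q 85 100) (.sub (.var 2)
      (.var 0)))), (.sub (.var 3) (.mul (.q 3091 10000) (.sub (.q 8 10) (.sub (.var 2) (.var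
      0))))), (.sub (.neg (.mul (.q 64 100) (.sub (.var 2) (.var 0)))) (.var 3)), (.sub (.neg
      (.mul (.q 48 100) (.sub (.q 8 10) (.sub (.var 2) (.var 0))))) (.var 3))] 34
      8912425686931269132414003946769945941670736743757433107836849667919502835550137825007798212101690944016546004142129108721741541711075696142687622142974077934398484773958430381778391782627428399109102640647185820168829839844367204701754091825467631953802260701802701661317109410122206734959004151338435253794407400472442753869429288622256180163680786600054769127363777369988816737902854794034656197668802910619709943490832870718644481221696425414614424923157209977785143462654644634122310252639842999074250175042309401869215096123437753730537447886289009656781850068475871520401793411189697574541403889382779417548693132545440864752266556898745308168763536992441017967520242982985901854760999911125277100304203903526932546683058204218550784847215854833439320216697380343174737450480159597319493637245124455066402321331629580665099040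
      [V.of 10000 0 1600, V.of 10000 (-800) 800, V.of 10000 0 1600, V.of 10000 (-960) 1360] = true :=
      Pool.Agent.Work.NumU.chkT_of (Pool.Agent.Work.NumU.runT_split rfl rfl rfl
        k_axlo_p1
        k_axlo_p2)
  obtain ⟨e, he, hp⟩ := chkT4 h (by norm_num) (x := w) (y := t) (z := s) (w := Y)
    (le_trans (by norm_num) a0) (le_trans b0 (by norm_num))
    (le_trans (by norm_num) a1) (le_trans b1 (by norm_num))
    (le_trans (by norm_num) a2) (le_trans b2 (by norm_num))
    (le_trans (by norm_num) a3) (le_trans b3 (by norm_num))
  simp only [List.mem_cons, List.not_mem_nil, or_false] at he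
  rcases he with rfl | rfl | rfl | rfl | rfl | rfl | rfl | rfl
  · simp only [E.val, NumI.lkR] at hp
    push_cast at hp
    try simp only [zero_div, div_one] at hp
    linarith only [u0, hW, h1, hp]
  · simp only [E.val, NumI.lkR] at hp
    push_cast at hp
    try simp only [zero_div, div_one] at hp
    linarith only [u0, hS, h2, hp]
  · simp only [E.val, NumI.lkR] at hp
    push_cast at hp
    try simp only [zero_div, div_one] at hp
    linarith only [r1, hp]
  · simp only [E.val, NumI.lkR] at hp
    push_cast at hp
    try simp only [zero_div, div_one] at hp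
    linarith only [a0, b2, hp]
  · simp only [E.val, NumI.lkR] at hp
    push_cast at hp
    try simp only [zero_div, div_one] at hp
    linarith only [r3, hp]
  · simp only [E.val, NumI.lkR] at hp
    push_cast at hp
    try simp only [zero_div, div_one] at hp
    linarith only [a0, b2, b3, hp]
  · simp only [E.val, NumI.lkR] at hp
    push_cast at hp
    try simp only [zero_div, div_one] at hp
    linarith only [r5, hp]
  · simp only [E.val, NumI.lkR] at hp
    push_cast at hp
    try simp only [zero_div, div_one] at hp
    linarith only [a0, b2, a3, hp]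

/-- 1300 boxes -/
theorem k_axAw {w t s Y U S W : ℝ}
    (a0 : 200 / 10000 ≤ w) (b0 : w ≤ 1800 / 10000)
    (a1 : -(800 / 10000) ≤ t) (b1 : t ≤ 800 / 10000)
    (a2 : 1600 / 10000 ≤ s) (b2 : s ≤ 9800 / 10000)
    (a3 : -(960 / 10000) ≤ Y) (b3 : Y ≤ 1360 / 10000)
    (r1 : w ≤ s) (r2 : s - w ≤ 8 / 10)
    (r3 : Y ≤ 85 / 100 * (s - w)) (r4 : Y ≤ 3091 / 10000 * (8 / 10 - (s - w)))
    (r5 : -(64 / 100 * (s - w)) ≤ Y) (r6 : -(48 / 100 * (8 / 10 - (s - w))) ≤ Y)
    (u0 : uu (18 / 100 + (s - w)) (t + Y) ≤ U)
    (hS : -uu s Y ≤ S) (hW : uu w 0 ≤ W)
    (h1 : Real.pi * ((18 / 100 - w) * Y + t * (s - w - 1)) + U - uu (18 / 100) t + S + W < -(11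
      / 1000) - 3927 / 1250 * t)
    (h2 : Real.pi * ((18 / 100 - w) * Y + t * (s - w - 1)) + U - uu (18 / 100) t + S < -(163 /
      5000) + 779 / 1000 * w - 821 / 500 * t) : False := by
  have h : chkT [(.sub (.add (.add (.sub (.add (.mul .pi (.add (.mul (.sub (.q 18 100) (.var 0)) (.var 3))
      (.mul (.var 1) (.sub (.sub (.var 2) (.var 0)) (.q 1 1))))) (.uu (.add (.q 18 100) (.sub
      (.var 2) (.var 0))) (.add (.var 1) (.var 3)))) (.uu (.q 18 100) (.var 1))) (.neg (.uu (.var
      2) (.var 3)))) (.uu (.var 0) (.q 0 1))) (.add (.add (.q (-11) 1000) (.mul (.q 0 1) (.var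
      0))) (.mul (.q (-3927) 1250) (.var 1)))), (.sub (.add (.sub (.add (.mul .pi (.add (.mul
      (.sub (.q 18 100) (.var 0)) (.var 3)) (.mul (.var 1) (.sub (.sub (.var 2) (.var 0)) (.q 1
      1))))) (.uu (.add (.q 18 100) (.sub (.var 2) (.var 0))) (.add (.var 1) (.var 3)))) (.uu (.q
      18 100) (.var 1))) (.neg (.uu (.var 2) (.var 3)))) (.add (.add (.q (-163) 5000) (.mul (.q
      779 1000) (.var 0))) (.mul (.q (-821) 500) (.var 1)))), (.sub (.var 0) (.var 2)), (.sub
      (.sub (.var 2) (.var 0)) (.q 8 10)), (.sub (.var 3) (.mul (.q 85 100) (.sub (.var 2) (.var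
      0)))), (.sub (.var 3) (.mul (.q 3091 10000) (.sub (.q 8 10) (.sub (.var 2) (.var 0))))),
      (.sub (.neg (.mul (.q 64 100) (.sub (.var 2) (.var 0)))) (.var 3)), (.sub (.neg (.mul (.q 48
      100) (.sub (.q 8 10) (.sub (.var 2) (.var 0))))) (.var 3))] 34
      278658837292115432222558623276706749292298829400971014985317995667836075208450760365512885248587101838259234278697378056163621367315782543015717859535612323660558595933327772383495813757015408077977801564368512398842532625451574445062616908586628844855448409499627003414768793564428983587918043913645320043239321550943596665930978314998762724610659181796909711154266781464902145419255559652193079579638143038970930710356432362042215224991299402705443436642828804123171639032441161526490065357672118725144651456531086002792780591604033889158170613752121941743283070446620422982143830407775919474877580262812588178154042264980945342000542009802975784261119975955452010334660717663636283047424857748218590591287777090441128033848881219433689485673621109541545269778408407209014145324875552595603555108390530364605742787430549395525775379244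445946974303440277707796393223475822400379516903448871061214448352826940084724594629108591002161164322255445520020296563721775275547614934625768119993270797376715365193457957019926042036254851039736218710040900948530921801451765050999601528046428771547500972968776701991535299692722522027515468360084773999310561280245256545147528482719717088974976326388151922104697553151108527240327394780594260533229766894979846941745204612677506206953533986576535817427013047860541601446896454795966099984592772388228590641136566494403462151478756409034647602514213019077741971413991127455185145073010503622176422750633229260821564962251826041786985558486044696289088341146429605574815189845070240981201167055356150066945894530374116511805280628357092907649646426127165897553528496237949091947820529444858613272247630577050538629891267403438837490670159793034811962482446578155555991962430453922171246863678552409872963852473518567936901779780535707799076937092025016110783174668107982170790860503231503488515739337359628971469529649039174904571708104838861010649922051125948563923570277223395145815026018860338809996404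3961934687269637132647220885620279508808817309664931125507524456848943787172718663156100630080578000669459767305761880335355240812693563936955746591378823233823332300204801616360239773289566671719324779132922077234724326382076948151583648455305165105368130329692647000465772610343064018456965931016483555376238267307555383618695403142300116887977680026965288794097193506334729901966170323672096222808896040162368768140635123311451558083515439021763623570002754919371112739295703921233841628358978015683393623467767774142741637888131469749988060005874614746405528358612177665227646605058327078755905999688983880781010608906802743195271944016670947603788439693336859952880827483236795875144747327761376247742535422767422819859501344173478702811429917788467540864785847090546986001377487957136560265082304127235694831365803866693740581879230660790532865177097181239677182555099484375448798385389112699887209443854809602702261505104707181600255438936104019756836879571432261910682706207593959669010233988891001502914095214449196513116429173278876340151398887053637342075949775164049274591420785456028123777278780079896467304197836624594683510566610440381086032972737030631405956623632630306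
      [V.of 10000 200 1800, V.of 10000 (-800) 800, V.of 10000 1600 9800, V.of 10000 (-960) 1360] = true :=
      Pool.Agent.Work.NumU.chkT_of (Pool.Agent.Work.NumU.runT_split rfl rfl rfl
        k_axAw_p1
        (Pool.Agent.Work.NumU.runT_split rfl rfl rfl
          k_axAw_p2
          (Pool.Agent.Work.NumU.runT_split rfl rfl rfl
            (Pool.Agent.Work.NumU.runT_split rfl rfl rfl
              k_axAw_p3
              (Pool.Agent.Work.NumU.runT_split rfl rfl rfl
                k_axAw_p4
                (Pool.Agent.Work.NumU.runT_split rfl rfl rfl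
                  (Pool.Agent.Work.NumU.runT_split rfl rfl rfl
                    k_axAw_p5
                    (Pool.Agent.Work.NumU.runT_split rfl rfl rfl
                      k_axAw_p6
                      k_axAw_p7))
                  k_axAw_p8)))
            k_axAw_p9)))
  obtain ⟨e, he, hp⟩ := chkT4 h (by norm_num) (x := w) (y := t) (z := s) (w := Y)
    (le_trans (by norm_num) a0) (le_trans b0 (by norm_num))
    (le_trans (by norm_num) a1) (le_trans b1 (by norm_num))
    (le_trans (by norm_num) a2) (le_trans b2 (by norm_num))
    (le_trans (by norm_num) a3) (le_trans b3 (by norm_num))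
  simp only [List.mem_cons, List.not_mem_nil, or_false] at he
  rcases he with rfl | rfl | rfl | rfl | rfl | rfl | rfl | rfl
  · simp only [E.val, NumI.lkR] at hp
    push_cast at hp
    try simp only [zero_div, div_one] at hp
    linarith only [u0, hS, hW, h1, hp]
  · simp only [E.val, NumI.lkR] at hp
    push_cast at hp
    try simp only [zero_div, div_one] at hp
    linarith only [u0, hS, h2, hp]
  · simp only [E.val, NumI.lkR] at hp
    push_cast at hp
    try simp only [zero_div, div_one] at hp
    linarith only [r1, hp]
  · simp only [E.val, NumI.lkR] at hp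
    push_cast at hp
    try simp only [zero_div, div_one] at hp
    linarith only [r2, hp]
  · simp only [E.val, NumI.lkR] at hp
    push_cast at hp
    try simp only [zero_div, div_one] at hp
    linarith only [r3, hp]
  · simp only [E.val, NumI.lkR] at hp
    push_cast at hp
    try simp only [zero_div, div_one] at hp
    linarith only [r4, hp]
  · simp only [E.val, NumI.lkR] at hp
    push_cast at hp
    try simp only [zero_div, div_one] at hp
    linarith only [r5, hp]
  · simp only [E.val, NumI.lkR] at hp
    push_cast at hp
    try simp only [zero_div, div_one] at hp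
    linarith only [r6, hp]

/-- 67 boxes -/
theorem k_axAv {w t s Y U S W : ℝ}
    (a0 : 0 ≤ w) (b0 : w ≤ 200 / 10000)
    (a1 : -(800 / 10000) ≤ t) (b1 : t ≤ 800 / 10000)
    (a2 : 1600 / 10000 ≤ s) (b2 : s ≤ 8200 / 10000)
    (a3 : -(960 / 10000) ≤ Y) (b3 : Y ≤ 1360 / 10000)
    (r1 : w ≤ s) (r2 : s - w ≤ 8 / 10)
    (r3 : Y ≤ 85 / 100 * (s - w)) (r4 : Y ≤ 3091 / 10000 * (8 / 10 - (s - w)))
    (r5 : -(64 / 100 * (s - w)) ≤ Y) (r6 : -(48 / 100 * (8 / 10 - (s - w))) ≤ Y)
    (u0 : uu (18 / 100 + (s - w)) (t + Y) ≤ U)
    (hS : -uu s Y ≤ S) (hW : uu (2 / 100) 0 ≤ W)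
    (h1 : Real.pi * ((18 / 100 - w) * Y + t * (s - w - 1)) + U - uu (18 / 100) t + S + W < -(11
      / 1000) - 3927 / 1250 * t)
    (h2 : Real.pi * ((18 / 100 - w) * Y + t * (s - w - 1)) + U - uu (18 / 100) t + S < -(163 /
      5000) + 779 / 1000 * w - 821 / 500 * t) : False := by
  have h : chkT [(.sub (.add (.add (.sub (.add (.mul .pi (.add (.mul (.sub (.q 18 100) (.var 0)) (.var 3))
      (.mul (.var 1) (.sub (.sub (.var 2) (.var 0)) (.q 1 1))))) (.uu (.add (.q 18 100) (.sub
      (.var 2) (.var 0))) (.add (.var 1) (.var 3)))) (.uu (.q 18 100) (.var 1))) (.neg (.uu (.var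
      2) (.var 3)))) (.uu (.q 2 100) (.q 0 1))) (.add (.add (.q (-11) 1000) (.mul (.q 0 1) (.var
      0))) (.mul (.q (-3927) 1250) (.var 1)))), (.sub (.add (.sub (.add (.mul .pi (.add (.mul
      (.sub (.q 18 100) (.var 0)) (.var 3)) (.mul (.var 1) (.sub (.sub (.var 2) (.var 0)) (.q 1
      1))))) (.uu (.add (.q 18 100) (.sub (.var 2) (.var 0))) (.add (.var 1) (.var 3)))) (.uu (.q
      18 100) (.var 1))) (.neg (.uu (.var 2) (.var 3)))) (.add (.add (.q (-163) 5000) (.mul (.q
      779 1000) (.var 0))) (.mul (.q (-821) 500) (.var 1)))), (.sub (.var 0) (.var 2)), (.sub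
      (.sub (.var 2) (.var 0)) (.q 8 10)), (.sub (.var 3) (.mul (.q 85 100) (.sub (.var 2) (.var
      0)))), (.sub (.var 3) (.mul (.q 3091 10000) (.sub (.q 8 10) (.sub (.var 2) (.var 0))))),
      (.sub (.neg (.mul (.q 64 100) (.sub (.var 2) (.var 0)))) (.var 3)), (.sub (.neg (.mul (.q 48
      100) (.sub (.q 8 10) (.sub (.var 2) (.var 0))))) (.var 3))] 34
      12166259245121920097241309935438221091973716976858848823172791339676385090749806440941292966606244268981214304507709825728174495368823210080425086183933969273634
      [V.of 10000 0 200, V.of 10000 (-800) 800, V.of 10000 1600 8200, V.of 10000 (-960) 1360] = true :=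
      Pool.Agent.Work.NumU.chkT_of k_axAv_p1
  obtain ⟨e, he, hp⟩ := chkT4 h (by norm_num) (x := w) (y := t) (z := s) (w := Y)
    (le_trans (by norm_num) a0) (le_trans b0 (by norm_num))
    (le_trans (by norm_num) a1) (le_trans b1 (by norm_num))
    (le_trans (by norm_num) a2) (le_trans b2 (by norm_num))
    (le_trans (by norm_num) a3) (le_trans b3 (by norm_num))
  simp only [List.mem_cons, List.not_mem_nil, or_false] at he
  rcases he with rfl | rfl | rfl | rfl | rfl | rfl | rfl | rfl
  · simp only [E.val, NumI.lkR] at hp
    push_cast at hp
    try simp only [zero_div, div_one] at hp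
    linarith only [u0, hS, hW, h1, hp]
  · simp only [E.val, NumI.lkR] at hp
    push_cast at hp
    try simp only [zero_div, div_one] at hp
    linarith only [u0, hS, h2, hp]
  · simp only [E.val, NumI.lkR] at hp
    push_cast at hp
    try simp only [zero_div, div_one] at hp
    linarith only [b0, a2, hp]
  · simp only [E.val, NumI.lkR] at hp
    push_cast at hp
    try simp only [zero_div, div_one] at hp
    linarith only [r2, hp]
  · simp only [E.val, NumI.lkR] at hp
    push_cast at hp
    try simp only [zero_div, div_one] at hp
    linarith only [r3, hp]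
  · simp only [E.val, NumI.lkR] at hp
    push_cast at hp
    try simp only [zero_div, div_one] at hp
    linarith only [r4, hp]
  · simp only [E.val, NumI.lkR] at hp
    push_cast at hp
    try simp only [zero_div, div_one] at hp
    linarith only [r5, hp]
  · simp only [E.val, NumI.lkR] at hp
    push_cast at hp
    try simp only [zero_div, div_one] at hp
    linarith only [r6, hp]

end E1

end TL

end Pool.Agent.Work.MP_b30479_gt.G2
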