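import Pool.Agent.Work.MP_b30479_gt.G2.TE1T
import Pool.Agent.Work.MP_b30479_gt.G2.TE1A
import Pool.Agent.Work.MP_b30479_gt.G2.TDefs

/-!
# Tails: the change of the value of an untouched region of class one, `E1a`
-/

namespace Pool.Agent.Work.MP_b30479_gt.G2

open VOL NumU

namespace TL

open E1

/-- margin .0109 -/
theorem E1a {w τ X Y : ℝ} (h0 : 0 ≤ w) (h1 : w ≤ 9 / 50) (h2 : -(2 / 25) ≤ τ)
    (h3 : τ ≤ 2 / 25) (hG : RgA X Y) :
    -(11 / 1000) - 3927 / 1250 * τ ≤
      V1 ⟨9 / 50, τ⟩ ⟨X, Y⟩ - V1 ⟨w, 0⟩ ⟨X, Y⟩ ∨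
    UU ⟨w, 0⟩ - 163 / 5000 + 779 / 1000 * w - 821 / 500 * τ ≤
      V1 ⟨9 / 50, τ⟩ ⟨X, Y⟩ - V1 ⟨w, 0⟩ ⟨X, Y⟩ := by
  obtain ⟨g0, g1, g2, g3, g4, g5, g6, g7⟩ := hG
  by_contra hcon
  obtain ⟨c1, c2⟩ := not_or.1 hcon
  rw [not_le, V1_diff] at c1 c2
  rw [UU_uu] at c2
  simp only at c1 c2
  rcases le_total (w + X) (16 / 100) with h16 | h16
  · exact k_axlo (S := -uu (w + X) Y) (U := uu (18 / 100 + (w + X - w)) (τ + Y)) (w := w) (s := w + X)
      (t := τ) (Y := Y) (W := uu w 0) (by linarith only [h0]) (by linarith only [g0, h16]) (by linarith only [h2]) (by linarith only [h3])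
      (by linarith only [h0, g0]) (by linarith only [h16]) (by linarith only [g6]) (by linarith only [g3]) (by linarith only [g0]) (by linarith only [g1])
      (by linarith only [g2]) (by linarith only [g4]) (by linarith only [g5]) (by linarith only [g7]) le_rfl le_rfl (W_lo h0 (by linarith only [g0])
      h16) (by linarith only [c1]) (by linarith only [c2])
  rcases le_total w (2 / 100) with hw | hw
  · have hW := W_v h0 hw
    exact k_axAv (S := -uu (w + X) Y) (U := uu (18 / 100 + (w + X - w)) (τ + Y)) (w := w) (s := w + X)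
      (t := τ) (Y := Y) (W := uu w 0) (by linarith only [h0]) (by linarith only [hw]) (by linarith only [h2]) (by linarith only [h3])
      (by linarith only [h16]) (by linarith only [g1, hw]) (by linarith only [g6]) (by linarith only [g3]) (by linarith only [h16, hw]) (by linarith only [g1])
      (by linarith only [g2]) (by linarith only [g4]) (by linarith only [g5]) (by linarith only [g7]) le_rfl le_rfl hW (by linarith only [c1])
      (by linarith only [c2])
  · exact k_axAw (S := -uu (w + X) Y) (U := uu (18 / 100 + (w + X - w)) (τ + Y)) (w := w) (s := w + X)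
      (t := τ) (Y := Y) (W := uu w 0) (by linarith only [hw]) (by linarith only [h1]) (by linarith only [h2]) (by linarith only [h3])
      (by linarith only [h16]) (by linarith only [h1, g1]) (by linarith only [g6]) (by linarith only [g3]) (by linarith only [g0]) (by linarith only [g1])
      (by linarith only [g2]) (by linarith only [g4]) (by linarith only [g5]) (by linarith only [g7]) le_rfl le_rfl le_rfl (by linarith only [c1])
      (by linarith only [c2])

end TL

end Pool.Agent.Work.MP_b30479_gt.G2
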