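import Pool.Agent.Work.NumU.TreeS

/-!
# Tails, rows `E1`, `E2`: certificates (class two, `w ≥ 18/100`)

Variables: `w`, `t`, `s = w + X`, `Y`.  `U`, `S`, `W` stand for `uu (18/100 + X) (t + Y)`, `-uu s Y`,
`uu w 0`.
-/

set_option linter.unusedVariables false
set_option linter.unusedSimpArgs false
set_option linter.unusedTactic false
set_option linter.unreachableTactic false

namespace Pool.Agent.Work.MP_b30479_gt.G2

open NumU
open NumU.E
open NumI (V)

namespace TL

namespace E1

/-- 4 boxes -/
theorem k_dbp0 {w t s Y U S : ℝ}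
    (a0 : 1800 / 10000 ≤ w) (b0 : w ≤ 4000 / 10000)
    (a1 : -(180 / 10000) ≤ t) (b1 : t ≤ 985 / 10000)
    (a2 : 10050 / 10000 ≤ s) (b2 : s ≤ 12150 / 10000)
    (a3 : 0 ≤ Y) (b3 : Y ≤ 203 / 10000)
    (r1 : w ≤ s) (r2 : s - w ≤ 86 / 100)
    (r3 : Y ≤ 907 / 1000 * (s - w)) (r4 : Y ≤ 29 / 100 * (86 / 100 - (s - w)))
    (r5 : -(62 / 100 * (s - w)) ≤ Y) (r6 : -(465 / 1000 * (86 / 100 - (s - w))) ≤ Y)
    (x0 : 790 / 1000 ≤ s - w) (x1 : s - w ≤ 815 / 1000)
    (u0 : uu (995 / 1000) (t + Y) ≤ U)
    (hS : -uu (5 / 1000) Y - Real.pi * Y ≤ S)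
    (h1 : Real.pi * ((18 / 100 - w) * Y + t * (s - w - 1)) + U - uu (18 / 100) t + S < 137 / 625
      - 1019 / 1000 * w - 1071 / 500 * t) : False := by
  have h : chkT [(.sub (.add (.sub (.add (.mul .pi (.add (.mul (.sub (.q 18 100) (.var 0)) (.var 3)) (.mul
      (.var 1) (.sub (.sub (.var 2) (.var 0)) (.q 1 1))))) (.uu (.q 995 1000) (.add (.var 1) (.var
      3)))) (.uu (.q 18 100) (.var 1))) (.sub (.neg (.uu (.q 5 1000) (.var 3))) (.mul .pi (.var
      3)))) (.add (.add (.q 137 625) (.mul (.q (-1019) 1000) (.var 0))) (.mul (.q (-1071) 500)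
      (.var 1)))), (.sub (.var 0) (.var 2)), (.sub (.sub (.var 2) (.var 0)) (.q 86 100)), (.sub
      (.var 3) (.mul (.q 907 1000) (.sub (.var 2) (.var 0)))), (.sub (.var 3) (.mul (.q 29 100)
      (.sub (.q 86 100) (.sub (.var 2) (.var 0))))), (.sub (.neg (.mul (.q 62 100) (.sub (.var 2)
      (.var 0)))) (.var 3)), (.sub (.neg (.mul (.q 465 1000) (.sub (.q 86 100) (.sub (.var 2)
      (.var 0))))) (.var 3)), (.sub (.sub (.var 2) (.var 0)) (.q 815 1000)), (.sub (.q 790 1000)
      (.sub (.var 2) (.var 0)))] 34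
      143163665
      [V.of 10000 1800 4000, V.of 10000 (-180) 985, V.of 10000 10050 12150, V.of 10000 0 203] = true := by
    decide +kernel
  obtain ⟨e, he, hp⟩ := chkT4 h (by norm_num) (x := w) (y := t) (z := s) (w := Y)
    (le_trans (by norm_num) a0) (le_trans b0 (by norm_num))
    (le_trans (by norm_num) a1) (le_trans b1 (by norm_num))
    (le_trans (by norm_num) a2) (le_trans b2 (by norm_num))
    (le_trans (by norm_num) a3) (le_trans b3 (by norm_num))
  simp only [List.mem_cons, List.not_mem_nil, or_false] at he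
  rcases he with rfl | rfl | rfl | rfl | rfl | rfl | rfl | rfl | rfl
  · simp only [E.val, NumI.lkR] at hp
    push_cast at hp
    try simp only [zero_div, div_one] at hp
    linarith only [u0, hS, h1, hp]
  · simp only [E.val, NumI.lkR] at hp
    push_cast at hp
    try simp only [zero_div, div_one] at hp
    linarith only [b0, a2, hp]
  · simp only [E.val, NumI.lkR] at hp
    push_cast at hp
    try simp only [zero_div, div_one] at hp
    linarith only [x1, hp]
  · simp only [E.val, NumI.lkR] at hp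
    push_cast at hp
    try simp only [zero_div, div_one] at hp
    linarith only [b0, a2, b3, hp]
  · simp only [E.val, NumI.lkR] at hp
    push_cast at hp
    try simp only [zero_div, div_one] at hp
    linarith only [r4, hp]
  · simp only [E.val, NumI.lkR] at hp
    push_cast at hp
    try simp only [zero_div, div_one] at hp
    linarith only [b0, a2, a3, hp]
  · simp only [E.val, NumI.lkR] at hp
    push_cast at hp
    try simp only [zero_div, div_one] at hp
    linarith only [a3, x1, hp]
  · simp only [E.val, NumI.lkR] at hp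
    push_cast at hp
    try simp only [zero_div, div_one] at hp
    linarith only [x1, hp]
  · simp only [E.val, NumI.lkR] at hp
    push_cast at hp
    try simp only [zero_div, div_one] at hp
    linarith only [x0, hp]

/-- 8 boxes -/
theorem k_dbn0 {w t s Y U S : ℝ}
    (a0 : 1800 / 10000 ≤ w) (b0 : w ≤ 4000 / 10000)
    (a1 : -(180 / 10000) ≤ t) (b1 : t ≤ 985 / 10000)
    (a2 : 10050 / 10000 ≤ s) (b2 : s ≤ 12150 / 10000)
    (a3 : -(326 / 10000) ≤ Y) (b3 : Y ≤ 0)
    (r1 : w ≤ s) (r2 : s - w ≤ 86 / 100)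
    (r3 : Y ≤ 907 / 1000 * (s - w)) (r4 : Y ≤ 29 / 100 * (86 / 100 - (s - w)))
    (r5 : -(62 / 100 * (s - w)) ≤ Y) (r6 : -(465 / 1000 * (86 / 100 - (s - w))) ≤ Y)
    (x0 : 790 / 1000 ≤ s - w) (x1 : s - w ≤ 815 / 1000)
    (u0 : uu (995 / 1000) (t + Y) ≤ U)
    (hS : -uu (5 / 1000) Y + Real.pi * Y ≤ S)
    (h1 : Real.pi * ((18 / 100 - w) * Y + t * (s - w - 1)) + U - uu (18 / 100) t + S < 137 / 625
      - 1019 / 1000 * w - 1071 / 500 * t) : False := by
  have h : chkT [(.sub (.add (.sub (.add (.mul .pi (.add (.mul (.sub (.q 18 100) (.var 0)) (.var 3)) (.mul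
      (.var 1) (.sub (.sub (.var 2) (.var 0)) (.q 1 1))))) (.uu (.q 995 1000) (.add (.var 1) (.var
      3)))) (.uu (.q 18 100) (.var 1))) (.add (.neg (.uu (.q 5 1000) (.var 3))) (.mul .pi (.var
      3)))) (.add (.add (.q 137 625) (.mul (.q (-1019) 1000) (.var 0))) (.mul (.q (-1071) 500)
      (.var 1)))), (.sub (.var 0) (.var 2)), (.sub (.sub (.var 2) (.var 0)) (.q 86 100)), (.sub
      (.var 3) (.mul (.q 907 1000) (.sub (.var 2) (.var 0)))), (.sub (.var 3) (.mul (.q 29 100)
      (.sub (.q 86 100) (.sub (.var 2) (.var 0))))), (.sub (.neg (.mul (.q 62 100) (.sub (.var 2)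
      (.var 0)))) (.var 3)), (.sub (.neg (.mul (.q 465 1000) (.sub (.q 86 100) (.sub (.var 2)
      (.var 0))))) (.var 3)), (.sub (.sub (.var 2) (.var 0)) (.q 815 1000)), (.sub (.q 790 1000)
      (.sub (.var 2) (.var 0)))] 34
      614795811489350417
      [V.of 10000 1800 4000, V.of 10000 (-180) 985, V.of 10000 10050 12150, V.of 10000 (-326) 0] = true := by
    decide +kernel
  obtain ⟨e, he, hp⟩ := chkT4 h (by norm_num) (x := w) (y := t) (z := s) (w := Y)
    (le_trans (by norm_num) a0) (le_trans b0 (by norm_num))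
    (le_trans (by norm_num) a1) (le_trans b1 (by norm_num))
    (le_trans (by norm_num) a2) (le_trans b2 (by norm_num))
    (le_trans (by norm_num) a3) (le_trans b3 (by norm_num))
  simp only [List.mem_cons, List.not_mem_nil, or_false] at he
  rcases he with rfl | rfl | rfl | rfl | rfl | rfl | rfl | rfl | rfl
  · simp only [E.val, NumI.lkR] at hp
    push_cast at hp
    try simp only [zero_div, div_one] at hp
    linarith only [u0, hS, h1, hp]
  · simp only [E.val, NumI.lkR] at hp
    push_cast at hp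
    try simp only [zero_div, div_one] at hp
    linarith only [x0, hp]
  · simp only [E.val, NumI.lkR] at hp
    push_cast at hp
    try simp only [zero_div, div_one] at hp
    linarith only [b3, r6, hp]
  · simp only [E.val, NumI.lkR] at hp
    push_cast at hp
    try simp only [zero_div, div_one] at hp
    linarith only [b3, x0, hp]
  · simp only [E.val, NumI.lkR] at hp
    push_cast at hp
    try simp only [zero_div, div_one] at hp
    linarith only [b3, r2, hp]
  · simp only [E.val, NumI.lkR] at hp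
    push_cast at hp
    try simp only [zero_div, div_one] at hp
    linarith only [r6, x0, hp]
  · simp only [E.val, NumI.lkR] at hp
    push_cast at hp
    try simp only [zero_div, div_one] at hp
    linarith only [r6, hp]
  · simp only [E.val, NumI.lkR] at hp
    push_cast at hp
    try simp only [zero_div, div_one] at hp
    linarith only [x1, hp]
  · simp only [E.val, NumI.lkR] at hp
    push_cast at hp
    try simp only [zero_div, div_one] at hp
    linarith only [x0, hp]

/-- 8 boxes -/
theorem k_dDc0 {w t s Y U S : ℝ}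
    (a0 : 1800 / 10000 ≤ w) (b0 : w ≤ 4000 / 10000)
    (a1 : -(180 / 10000) ≤ t) (b1 : t ≤ 985 / 10000)
    (a2 : 9950 / 10000 ≤ s) (b2 : s ≤ 10050 / 10000)
    (a3 : -(210 / 10000) ≤ Y) (b3 : Y ≤ 131 / 10000)
    (r1 : w ≤ s) (r2 : s - w ≤ 86 / 100)
    (r3 : Y ≤ 907 / 1000 * (s - w)) (r4 : Y ≤ 29 / 100 * (86 / 100 - (s - w)))
    (r5 : -(62 / 100 * (s - w)) ≤ Y) (r6 : -(465 / 1000 * (86 / 100 - (s - w))) ≤ Y)
    (x0 : 815 / 1000 ≤ s - w) (x1 : s - w ≤ 835 / 1000)
    (u0 : uu (15 / 1000) (t + Y) + Real.pi * (t + Y) ≤ U) (u1 : uu (15 / 1000) (t + Y) - Real.pi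
      * (t + Y) ≤ U)
    (hS : uu (5 / 1000) Y ≤ S)
    (h1 : Real.pi * ((18 / 100 - w) * Y + t * (s - w - 1)) + U - uu (18 / 100) t + S < 137 / 625
      - 1019 / 1000 * w - 1071 / 500 * t) : False := by
  have h : chkT [(.sub (.add (.sub (.add (.mul .pi (.add (.mul (.sub (.q 18 100) (.var 0)) (.var 3)) (.mul
      (.var 1) (.sub (.sub (.var 2) (.var 0)) (.q 1 1))))) (.add (.uu (.q 15 1000) (.add (.var 1)
      (.var 3))) (.mul .pi (.add (.var 1) (.var 3))))) (.uu (.q 18 100) (.var 1))) (.uu (.q 5
      1000) (.var 3))) (.add (.add (.q 137 625) (.mul (.q (-1019) 1000) (.var 0))) (.mul (.q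
      (-1071) 500) (.var 1)))), (.sub (.add (.sub (.add (.mul .pi (.add (.mul (.sub (.q 18 100)
      (.var 0)) (.var 3)) (.mul (.var 1) (.sub (.sub (.var 2) (.var 0)) (.q 1 1))))) (.sub (.uu
      (.q 15 1000) (.add (.var 1) (.var 3))) (.mul .pi (.add (.var 1) (.var 3))))) (.uu (.q 18
      100) (.var 1))) (.uu (.q 5 1000) (.var 3))) (.add (.add (.q 137 625) (.mul (.q (-1019) 1000)
      (.var 0))) (.mul (.q (-1071) 500) (.var 1)))), (.sub (.var 0) (.var 2)), (.sub (.sub (.var
      2) (.var 0)) (.q 86 100)), (.sub (.var 3) (.mul (.q 907 1000) (.sub (.var 2) (.var 0)))),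
      (.sub (.var 3) (.mul (.q 29 100) (.sub (.q 86 100) (.sub (.var 2) (.var 0))))), (.sub (.neg
      (.mul (.q 62 100) (.sub (.var 2) (.var 0)))) (.var 3)), (.sub (.neg (.mul (.q 465 1000)
      (.sub (.q 86 100) (.sub (.var 2) (.var 0))))) (.var 3)), (.sub (.sub (.var 2) (.var 0)) (.q
      835 1000)), (.sub (.q 815 1000) (.sub (.var 2) (.var 0)))] 34
      614803510620427025
      [V.of 10000 1800 4000, V.of 10000 (-180) 985, V.of 10000 9950 10050, V.of 10000 (-210) 131] = true := by
    decide +kernel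
  obtain ⟨e, he, hp⟩ := chkT4 h (by norm_num) (x := w) (y := t) (z := s) (w := Y)
    (le_trans (by norm_num) a0) (le_trans b0 (by norm_num))
    (le_trans (by norm_num) a1) (le_trans b1 (by norm_num))
    (le_trans (by norm_num) a2) (le_trans b2 (by norm_num))
    (le_trans (by norm_num) a3) (le_trans b3 (by norm_num))
  simp only [List.mem_cons, List.not_mem_nil, or_false] at he
  rcases he with rfl | rfl | rfl | rfl | rfl | rfl | rfl | rfl | rfl | rfl
  · simp only [E.val, NumI.lkR] at hp
    push_cast at hp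
    try simp only [zero_div, div_one] at hp
    linarith only [u0, hS, h1, hp]
  · simp only [E.val, NumI.lkR] at hp
    push_cast at hp
    try simp only [zero_div, div_one] at hp
    linarith only [u1, hS, h1, hp]
  · simp only [E.val, NumI.lkR] at hp
    push_cast at hp
    try simp only [zero_div, div_one] at hp
    linarith only [x0, hp]
  · simp only [E.val, NumI.lkR] at hp
    push_cast at hp
    try simp only [zero_div, div_one] at hp
    linarith only [a0, b2, hp]
  · simp only [E.val, NumI.lkR] at hp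
    push_cast at hp
    try simp only [zero_div, div_one] at hp
    linarith only [b3, x0, hp]
  · simp only [E.val, NumI.lkR] at hp
    push_cast at hp
    try simp only [zero_div, div_one] at hp
    linarith only [r4, hp]
  · simp only [E.val, NumI.lkR] at hp
    push_cast at hp
    try simp only [zero_div, div_one] at hp
    linarith only [r6, x0, hp]
  · simp only [E.val, NumI.lkR] at hp
    push_cast at hp
    try simp only [zero_div, div_one] at hp
    linarith only [r6, hp]
  · simp only [E.val, NumI.lkR] at hp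
    push_cast at hp
    try simp only [zero_div, div_one] at hp
    linarith only [a0, b2, hp]
  · simp only [E.val, NumI.lkR] at hp
    push_cast at hp
    try simp only [zero_div, div_one] at hp
    linarith only [x0, hp]

/-- 4 boxes -/
theorem k_dDp0 {w t s Y U S : ℝ}
    (a0 : 1800 / 10000 ≤ w) (b0 : w ≤ 4000 / 10000)
    (a1 : -(180 / 10000) ≤ t) (b1 : t ≤ 985 / 10000)
    (a2 : 10050 / 10000 ≤ s) (b2 : s ≤ 12350 / 10000)
    (a3 : 0 ≤ Y) (b3 : Y ≤ 131 / 10000)
    (r1 : w ≤ s) (r2 : s - w ≤ 86 / 100)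
    (r3 : Y ≤ 907 / 1000 * (s - w)) (r4 : Y ≤ 29 / 100 * (86 / 100 - (s - w)))
    (r5 : -(62 / 100 * (s - w)) ≤ Y) (r6 : -(465 / 1000 * (86 / 100 - (s - w))) ≤ Y)
    (x0 : 815 / 1000 ≤ s - w) (x1 : s - w ≤ 835 / 1000)
    (u0 : uu (15 / 1000) (t + Y) + Real.pi * (t + Y) ≤ U) (u1 : uu (15 / 1000) (t + Y) - Real.pi
      * (t + Y) ≤ U)
    (hS : -uu (5 / 1000) Y - Real.pi * Y ≤ S)
    (h1 : Real.pi * ((18 / 100 - w) * Y + t * (s - w - 1)) + U - uu (18 / 100) t + S < 137 / 625
      - 1019 / 1000 * w - 1071 / 500 * t) : False := by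
  have h : chkT [(.sub (.add (.sub (.add (.mul .pi (.add (.mul (.sub (.q 18 100) (.var 0)) (.var 3)) (.mul
      (.var 1) (.sub (.sub (.var 2) (.var 0)) (.q 1 1))))) (.add (.uu (.q 15 1000) (.add (.var 1)
      (.var 3))) (.mul .pi (.add (.var 1) (.var 3))))) (.uu (.q 18 100) (.var 1))) (.sub (.neg
      (.uu (.q 5 1000) (.var 3))) (.mul .pi (.var 3)))) (.add (.add (.q 137 625) (.mul (.q (-1019)
      1000) (.var 0))) (.mul (.q (-1071) 500) (.var 1)))), (.sub (.add (.sub (.add (.mul .pi (.add
      (.mul (.sub (.q 18 100) (.var 0)) (.var 3)) (.mul (.var 1) (.sub (.sub (.var 2) (.var 0))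
      (.q 1 1))))) (.sub (.uu (.q 15 1000) (.add (.var 1) (.var 3))) (.mul .pi (.add (.var 1)
      (.var 3))))) (.uu (.q 18 100) (.var 1))) (.sub (.neg (.uu (.q 5 1000) (.var 3))) (.mul .pi
      (.var 3)))) (.add (.add (.q 137 625) (.mul (.q (-1019) 1000) (.var 0))) (.mul (.q (-1071)
      500) (.var 1)))), (.sub (.var 0) (.var 2)), (.sub (.sub (.var 2) (.var 0)) (.q 86 100)),
      (.sub (.var 3) (.mul (.q 907 1000) (.sub (.var 2) (.var 0)))), (.sub (.var 3) (.mul (.q 29
      100) (.sub (.q 86 100) (.sub (.var 2) (.var 0))))), (.sub (.neg (.mul (.q 62 100) (.sub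
      (.var 2) (.var 0)))) (.var 3)), (.sub (.neg (.mul (.q 465 1000) (.sub (.q 86 100) (.sub
      (.var 2) (.var 0))))) (.var 3)), (.sub (.sub (.var 2) (.var 0)) (.q 835 1000)), (.sub (.q
      815 1000) (.sub (.var 2) (.var 0)))] 34
      143167761
      [V.of 10000 1800 4000, V.of 10000 (-180) 985, V.of 10000 10050 12350, V.of 10000 0 131] = true := by
    decide +kernel
  obtain ⟨e, he, hp⟩ := chkT4 h (by norm_num) (x := w) (y := t) (z := s) (w := Y)
    (le_trans (by norm_num) a0) (le_trans b0 (by norm_num))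
    (le_trans (by norm_num) a1) (le_trans b1 (by norm_num))
    (le_trans (by norm_num) a2) (le_trans b2 (by norm_num))
    (le_trans (by norm_num) a3) (le_trans b3 (by norm_num))
  simp only [List.mem_cons, List.not_mem_nil, or_false] at he
  rcases he with rfl | rfl | rfl | rfl | rfl | rfl | rfl | rfl | rfl | rfl
  · simp only [E.val, NumI.lkR] at hp
    push_cast at hp
    try simp only [zero_div, div_one] at hp
    linarith only [u0, hS, h1, hp]
  · simp only [E.val, NumI.lkR] at hp
    push_cast at hp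
    try simp only [zero_div, div_one] at hp
    linarith only [u1, hS, h1, hp]
  · simp only [E.val, NumI.lkR] at hp
    push_cast at hp
    try simp only [zero_div, div_one] at hp
    linarith only [b0, a2, hp]
  · simp only [E.val, NumI.lkR] at hp
    push_cast at hp
    try simp only [zero_div, div_one] at hp
    linarith only [r2, hp]
  · simp only [E.val, NumI.lkR] at hp
    push_cast at hp
    try simp only [zero_div, div_one] at hp
    linarith only [b0, a2, b3, hp]
  · simp only [E.val, NumI.lkR] at hp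
    push_cast at hp
    try simp only [zero_div, div_one] at hp
    linarith only [r4, hp]
  · simp only [E.val, NumI.lkR] at hp
    push_cast at hp
    try simp only [zero_div, div_one] at hp
    linarith only [b0, a2, a3, hp]
  · simp only [E.val, NumI.lkR] at hp
    push_cast at hp
    try simp only [zero_div, div_one] at hp
    linarith only [a3, r2, hp]
  · simp only [E.val, NumI.lkR] at hp
    push_cast at hp
    try simp only [zero_div, div_one] at hp
    linarith only [x1, hp]
  · simp only [E.val, NumI.lkR] at hp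
    push_cast at hp
    try simp only [zero_div, div_one] at hp
    linarith only [x0, hp]

/-- 3 boxes -/
theorem k_dDn0 {w t s Y U S : ℝ}
    (a0 : 1800 / 10000 ≤ w) (b0 : w ≤ 4000 / 10000)
    (a1 : -(180 / 10000) ≤ t) (b1 : t ≤ 985 / 10000)
    (a2 : 10050 / 10000 ≤ s) (b2 : s ≤ 12350 / 10000)
    (a3 : -(210 / 10000) ≤ Y) (b3 : Y ≤ 0)
    (r1 : w ≤ s) (r2 : s - w ≤ 86 / 100)
    (r3 : Y ≤ 907 / 1000 * (s - w)) (r4 : Y ≤ 29 / 100 * (86 / 100 - (s - w)))
    (r5 : -(62 / 100 * (s - w)) ≤ Y) (r6 : -(465 / 1000 * (86 / 100 - (s - w))) ≤ Y)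
    (x0 : 815 / 1000 ≤ s - w) (x1 : s - w ≤ 835 / 1000)
    (u0 : uu (15 / 1000) (t + Y) + Real.pi * (t + Y) ≤ U) (u1 : uu (15 / 1000) (t + Y) - Real.pi
      * (t + Y) ≤ U)
    (hS : -uu (5 / 1000) Y + Real.pi * Y ≤ S)
    (h1 : Real.pi * ((18 / 100 - w) * Y + t * (s - w - 1)) + U - uu (18 / 100) t + S < 137 / 625
      - 1019 / 1000 * w - 1071 / 500 * t) : False := by
  have h : chkT [(.sub (.add (.sub (.add (.mul .pi (.add (.mul (.sub (.q 18 100) (.var 0)) (.var 3)) (.mul
      (.var 1) (.sub (.sub (.var 2) (.var 0)) (.q 1 1))))) (.add (.uu (.q 15 1000) (.add (.var 1)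
      (.var 3))) (.mul .pi (.add (.var 1) (.var 3))))) (.uu (.q 18 100) (.var 1))) (.add (.neg
      (.uu (.q 5 1000) (.var 3))) (.mul .pi (.var 3)))) (.add (.add (.q 137 625) (.mul (.q (-1019)
      1000) (.var 0))) (.mul (.q (-1071) 500) (.var 1)))), (.sub (.add (.sub (.add (.mul .pi (.add
      (.mul (.sub (.q 18 100) (.var 0)) (.var 3)) (.mul (.var 1) (.sub (.sub (.var 2) (.var 0))
      (.q 1 1))))) (.sub (.uu (.q 15 1000) (.add (.var 1) (.var 3))) (.mul .pi (.add (.var 1)
      (.var 3))))) (.uu (.q 18 100) (.var 1))) (.add (.neg (.uu (.q 5 1000) (.var 3))) (.mul .pi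
      (.var 3)))) (.add (.add (.q 137 625) (.mul (.q (-1019) 1000) (.var 0))) (.mul (.q (-1071)
      500) (.var 1)))), (.sub (.var 0) (.var 2)), (.sub (.sub (.var 2) (.var 0)) (.q 86 100)),
      (.sub (.var 3) (.mul (.q 907 1000) (.sub (.var 2) (.var 0)))), (.sub (.var 3) (.mul (.q 29
      100) (.sub (.q 86 100) (.sub (.var 2) (.var 0))))), (.sub (.neg (.mul (.q 62 100) (.sub
      (.var 2) (.var 0)))) (.var 3)), (.sub (.neg (.mul (.q 465 1000) (.sub (.q 86 100) (.sub
      (.var 2) (.var 0))))) (.var 3)), (.sub (.sub (.var 2) (.var 0)) (.q 835 1000)), (.sub (.q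
      815 1000) (.sub (.var 2) (.var 0)))] 34
      559377
      [V.of 10000 1800 4000, V.of 10000 (-180) 985, V.of 10000 10050 12350, V.of 10000 (-210) 0] = true := by
    decide +kernel
  obtain ⟨e, he, hp⟩ := chkT4 h (by norm_num) (x := w) (y := t) (z := s) (w := Y)
    (le_trans (by norm_num) a0) (le_trans b0 (by norm_num))
    (le_trans (by norm_num) a1) (le_trans b1 (by norm_num))
    (le_trans (by norm_num) a2) (le_trans b2 (by norm_num))
    (le_trans (by norm_num) a3) (le_trans b3 (by norm_num))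
  simp only [List.mem_cons, List.not_mem_nil, or_false] at he
  rcases he with rfl | rfl | rfl | rfl | rfl | rfl | rfl | rfl | rfl | rfl
  · simp only [E.val, NumI.lkR] at hp
    push_cast at hp
    try simp only [zero_div, div_one] at hp
    linarith only [u0, hS, h1, hp]
  · simp only [E.val, NumI.lkR] at hp
    push_cast at hp
    try simp only [zero_div, div_one] at hp
    linarith only [u1, hS, h1, hp]
  · simp only [E.val, NumI.lkR] at hp
    push_cast at hp
    try simp only [zero_div, div_one] at hp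
    linarith only [x0, hp]
  · simp only [E.val, NumI.lkR] at hp
    push_cast at hp
    try simp only [zero_div, div_one] at hp
    linarith only [b3, r6, hp]
  · simp only [E.val, NumI.lkR] at hp
    push_cast at hp
    try simp only [zero_div, div_one] at hp
    linarith only [b3, x0, hp]
  · simp only [E.val, NumI.lkR] at hp
    push_cast at hp
    try simp only [zero_div, div_one] at hp
    linarith only [b3, r2, hp]
  · simp only [E.val, NumI.lkR] at hp
    push_cast at hp
    try simp only [zero_div, div_one] at hp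
    linarith only [r6, x0, hp]
  · simp only [E.val, NumI.lkR] at hp
    push_cast at hp
    try simp only [zero_div, div_one] at hp
    linarith only [r6, hp]
  · simp only [E.val, NumI.lkR] at hp
    push_cast at hp
    try simp only [zero_div, div_one] at hp
    linarith only [x1, hp]
  · simp only [E.val, NumI.lkR] at hp
    push_cast at hp
    try simp only [zero_div, div_one] at hp
    linarith only [x0, hp]

/-- 5 boxes -/
theorem k_dGp0 {w t s Y U S : ℝ}
    (a0 : 1800 / 10000 ≤ w) (b0 : w ≤ 4000 / 10000)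
    (a1 : -(180 / 10000) ≤ t) (b1 : t ≤ 985 / 10000)
    (a2 : 10150 / 10000 ≤ s) (b2 : s ≤ 12600 / 10000)
    (a3 : 0 ≤ Y) (b3 : Y ≤ 73 / 10000)
    (r1 : w ≤ s) (r2 : s - w ≤ 86 / 100)
    (r3 : Y ≤ 907 / 1000 * (s - w)) (r4 : Y ≤ 29 / 100 * (86 / 100 - (s - w)))
    (r5 : -(62 / 100 * (s - w)) ≤ Y) (r6 : -(465 / 1000 * (86 / 100 - (s - w))) ≤ Y)
    (x0 : 835 / 1000 ≤ s - w) (x1 : s - w ≤ 860 / 1000)
    (u0 : uu (40 / 1000) (t + Y) + Real.pi * (t + Y) ≤ U) (u1 : uu (40 / 1000) (t + Y) - Real.pi
      * (t + Y) ≤ U)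
    (hS : -uu (5 / 1000) Y - Real.pi * Y ≤ S)
    (h1 : Real.pi * ((18 / 100 - w) * Y + t * (s - w - 1)) + U - uu (18 / 100) t + S < 137 / 625
      - 1019 / 1000 * w - 1071 / 500 * t) : False := by
  have h : chkT [(.sub (.add (.sub (.add (.mul .pi (.add (.mul (.sub (.q 18 100) (.var 0)) (.var 3)) (.mul
      (.var 1) (.sub (.sub (.var 2) (.var 0)) (.q 1 1))))) (.add (.uu (.q 40 1000) (.add (.var 1)
      (.var 3))) (.mul .pi (.add (.var 1) (.var 3))))) (.uu (.q 18 100) (.var 1))) (.sub (.neg
      (.uu (.q 5 1000) (.var 3))) (.mul .pi (.var 3)))) (.add (.add (.q 137 625) (.mul (.q (-1019)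
      1000) (.var 0))) (.mul (.q (-1071) 500) (.var 1)))), (.sub (.add (.sub (.add (.mul .pi (.add
      (.mul (.sub (.q 18 100) (.var 0)) (.var 3)) (.mul (.var 1) (.sub (.sub (.var 2) (.var 0))
      (.q 1 1))))) (.sub (.uu (.q 40 1000) (.add (.var 1) (.var 3))) (.mul .pi (.add (.var 1)
      (.var 3))))) (.uu (.q 18 100) (.var 1))) (.sub (.neg (.uu (.q 5 1000) (.var 3))) (.mul .pi
      (.var 3)))) (.add (.add (.q 137 625) (.mul (.q (-1019) 1000) (.var 0))) (.mul (.q (-1071)
      500) (.var 1)))), (.sub (.var 0) (.var 2)), (.sub (.sub (.var 2) (.var 0)) (.q 86 100)),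
      (.sub (.var 3) (.mul (.q 907 1000) (.sub (.var 2) (.var 0)))), (.sub (.var 3) (.mul (.q 29
      100) (.sub (.q 86 100) (.sub (.var 2) (.var 0))))), (.sub (.neg (.mul (.q 62 100) (.sub
      (.var 2) (.var 0)))) (.var 3)), (.sub (.neg (.mul (.q 465 1000) (.sub (.q 86 100) (.sub
      (.var 2) (.var 0))))) (.var 3)), (.sub (.sub (.var 2) (.var 0)) (.q 860 1000)), (.sub (.q
      835 1000) (.sub (.var 2) (.var 0)))] 34
      36651475217
      [V.of 10000 1800 4000, V.of 10000 (-180) 985, V.of 10000 10150 12600, V.of 10000 0 73] = true := by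
    decide +kernel
  obtain ⟨e, he, hp⟩ := chkT4 h (by norm_num) (x := w) (y := t) (z := s) (w := Y)
    (le_trans (by norm_num) a0) (le_trans b0 (by norm_num))
    (le_trans (by norm_num) a1) (le_trans b1 (by norm_num))
    (le_trans (by norm_num) a2) (le_trans b2 (by norm_num))
    (le_trans (by norm_num) a3) (le_trans b3 (by norm_num))
  simp only [List.mem_cons, List.not_mem_nil, or_false] at he
  rcases he with rfl | rfl | rfl | rfl | rfl | rfl | rfl | rfl | rfl | rfl
  · simp only [E.val, NumI.lkR] at hp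
    push_cast at hp
    try simp only [zero_div, div_one] at hp
    linarith only [u0, hS, h1, hp]
  · simp only [E.val, NumI.lkR] at hp
    push_cast at hp
    try simp only [zero_div, div_one] at hp
    linarith only [u1, hS, h1, hp]
  · simp only [E.val, NumI.lkR] at hp
    push_cast at hp
    try simp only [zero_div, div_one] at hp
    linarith only [b0, a2, hp]
  · simp only [E.val, NumI.lkR] at hp
    push_cast at hp
    try simp only [zero_div, div_one] at hp
    linarith only [r2, hp]
  · simp only [E.val, NumI.lkR] at hp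
    push_cast at hp
    try simp only [zero_div, div_one] at hp
    linarith only [b0, a2, b3, hp]
  · simp only [E.val, NumI.lkR] at hp
    push_cast at hp
    try simp only [zero_div, div_one] at hp
    linarith only [r4, hp]
  · simp only [E.val, NumI.lkR] at hp
    push_cast at hp
    try simp only [zero_div, div_one] at hp
    linarith only [b0, a2, a3, hp]
  · simp only [E.val, NumI.lkR] at hp
    push_cast at hp
    try simp only [zero_div, div_one] at hp
    linarith only [a3, r2, hp]
  · simp only [E.val, NumI.lkR] at hp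
    push_cast at hp
    try simp only [zero_div, div_one] at hp
    linarith only [r2, hp]
  · simp only [E.val, NumI.lkR] at hp
    push_cast at hp
    try simp only [zero_div, div_one] at hp
    linarith only [x0, hp]

/-- 3 boxes -/
theorem k_dGn0 {w t s Y U S : ℝ}
    (a0 : 1800 / 10000 ≤ w) (b0 : w ≤ 4000 / 10000)
    (a1 : -(180 / 10000) ≤ t) (b1 : t ≤ 985 / 10000)
    (a2 : 10150 / 10000 ≤ s) (b2 : s ≤ 12600 / 10000)
    (a3 : -(117 / 10000) ≤ Y) (b3 : Y ≤ 0)
    (r1 : w ≤ s) (r2 : s - w ≤ 86 / 100)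
    (r3 : Y ≤ 907 / 1000 * (s - w)) (r4 : Y ≤ 29 / 100 * (86 / 100 - (s - w)))
    (r5 : -(62 / 100 * (s - w)) ≤ Y) (r6 : -(465 / 1000 * (86 / 100 - (s - w))) ≤ Y)
    (x0 : 835 / 1000 ≤ s - w) (x1 : s - w ≤ 860 / 1000)
    (u0 : uu (40 / 1000) (t + Y) + Real.pi * (t + Y) ≤ U) (u1 : uu (40 / 1000) (t + Y) - Real.pi
      * (t + Y) ≤ U)
    (hS : -uu (5 / 1000) Y + Real.pi * Y ≤ S)
    (h1 : Real.pi * ((18 / 100 - w) * Y + t * (s - w - 1)) + U - uu (18 / 100) t + S < 137 / 625
      - 1019 / 1000 * w - 1071 / 500 * t) : False := by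
  have h : chkT [(.sub (.add (.sub (.add (.mul .pi (.add (.mul (.sub (.q 18 100) (.var 0)) (.var 3)) (.mul
      (.var 1) (.sub (.sub (.var 2) (.var 0)) (.q 1 1))))) (.add (.uu (.q 40 1000) (.add (.var 1)
      (.var 3))) (.mul .pi (.add (.var 1) (.var 3))))) (.uu (.q 18 100) (.var 1))) (.add (.neg
      (.uu (.q 5 1000) (.var 3))) (.mul .pi (.var 3)))) (.add (.add (.q 137 625) (.mul (.q (-1019)
      1000) (.var 0))) (.mul (.q (-1071) 500) (.var 1)))), (.sub (.add (.sub (.add (.mul .pi (.add
      (.mul (.sub (.q 18 100) (.var 0)) (.var 3)) (.mul (.var 1) (.sub (.sub (.var 2) (.var 0))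
      (.q 1 1))))) (.sub (.uu (.q 40 1000) (.add (.var 1) (.var 3))) (.mul .pi (.add (.var 1)
      (.var 3))))) (.uu (.q 18 100) (.var 1))) (.add (.neg (.uu (.q 5 1000) (.var 3))) (.mul .pi
      (.var 3)))) (.add (.add (.q 137 625) (.mul (.q (-1019) 1000) (.var 0))) (.mul (.q (-1071)
      500) (.var 1)))), (.sub (.var 0) (.var 2)), (.sub (.sub (.var 2) (.var 0)) (.q 86 100)),
      (.sub (.var 3) (.mul (.q 907 1000) (.sub (.var 2) (.var 0)))), (.sub (.var 3) (.mul (.q 29
      100) (.sub (.q 86 100) (.sub (.var 2) (.var 0))))), (.sub (.neg (.mul (.q 62 100) (.sub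
      (.var 2) (.var 0)))) (.var 3)), (.sub (.neg (.mul (.q 465 1000) (.sub (.q 86 100) (.sub
      (.var 2) (.var 0))))) (.var 3)), (.sub (.sub (.var 2) (.var 0)) (.q 860 1000)), (.sub (.q
      835 1000) (.sub (.var 2) (.var 0)))] 34
      559377
      [V.of 10000 1800 4000, V.of 10000 (-180) 985, V.of 10000 10150 12600, V.of 10000 (-117) 0] = true := by
    decide +kernel
  obtain ⟨e, he, hp⟩ := chkT4 h (by norm_num) (x := w) (y := t) (z := s) (w := Y)
    (le_trans (by norm_num) a0) (le_trans b0 (by norm_num))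
    (le_trans (by norm_num) a1) (le_trans b1 (by norm_num))
    (le_trans (by norm_num) a2) (le_trans b2 (by norm_num))
    (le_trans (by norm_num) a3) (le_trans b3 (by norm_num))
  simp only [List.mem_cons, List.not_mem_nil, or_false] at he
  rcases he with rfl | rfl | rfl | rfl | rfl | rfl | rfl | rfl | rfl | rfl
  · simp only [E.val, NumI.lkR] at hp
    push_cast at hp
    try simp only [zero_div, div_one] at hp
    linarith only [u0, hS, h1, hp]
  · simp only [E.val, NumI.lkR] at hp
    push_cast at hp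
    try simp only [zero_div, div_one] at hp
    linarith only [u1, hS, h1, hp]
  · simp only [E.val, NumI.lkR] at hp
    push_cast at hp
    try simp only [zero_div, div_one] at hp
    linarith only [x0, hp]
  · simp only [E.val, NumI.lkR] at hp
    push_cast at hp
    try simp only [zero_div, div_one] at hp
    linarith only [b3, r6, hp]
  · simp only [E.val, NumI.lkR] at hp
    push_cast at hp
    try simp only [zero_div, div_one] at hp
    linarith only [b3, x0, hp]
  · simp only [E.val, NumI.lkR] at hp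
    push_cast at hp
    try simp only [zero_div, div_one] at hp
    linarith only [b3, r2, hp]
  · simp only [E.val, NumI.lkR] at hp
    push_cast at hp
    try simp only [zero_div, div_one] at hp
    linarith only [r6, x0, hp]
  · simp only [E.val, NumI.lkR] at hp
    push_cast at hp
    try simp only [zero_div, div_one] at hp
    linarith only [r6, hp]
  · simp only [E.val, NumI.lkR] at hp
    push_cast at hp
    try simp only [zero_div, div_one] at hp
    linarith only [b3, r6, hp]
  · simp only [E.val, NumI.lkR] at hp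
    push_cast at hp
    try simp only [zero_div, div_one] at hp
    linarith only [x0, hp]

end E1

end TL

end Pool.Agent.Work.MP_b30479_gt.G2
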