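import Pool.Agent.Work.NumU.TreeS

/-!
# Pieces of the certificates of `TE1C`, part 3
-/

set_option linter.unusedVariables false
set_option linter.unusedSimpArgs false
set_option linter.unusedTactic false
set_option linter.unreachableTactic false
namespace Pool.Agent.Work.MP_b30479_gt.G2
open NumU
open NumU.E
open NumI (V)
namespace TL
namespace E1

theorem k_cfaw_p1 : Pool.Agent.Work.NumU.runT [(.sub (.add (.add (.sub (.add (.mul .pi (.add (.mul (.sub (.q 18 100) (.var 0)) (.var 3)) (.mul (.var 1) (.sub (.sub (.var 2) (.var 0)) (.q 1 1))))) (.add (.uu (.q 30 1000) (.add (.var 1) (.var 3))) (.mul .pi (.add (.var 1) (.var 3))))) (.uu (.q 18 100) (.var 1))) (.neg (.uu (.var 2) (.var 3)))) (.uu (.var 0) (.q 0 1))) (.add (.add (.q (-30) 1000) (.mul (.q 0 1) (.var 0))) (.mul (.q (-3927) 1250) (.var 1)))), (.sub (.add (.sub (.add (.mul .pi (.add (.mul (.sub (.q 18 100) (.var 0)) (.var 3)) (.mul (.var 1) (.sub (.sub (.var 2) (.var 0)) (.q 1 1))))) (.add (.uu (.q 30 1000) (.add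 (.var 1) (.var 3))) (.mul .pi (.add (.var 1) (.var 3))))) (.uu (.q 18 100) (.var 1))) (.neg (.uu (.var 2) (.var 3)))) (.add (.add (.q (-2039) 10000) (.mul (.q 653 500) (.var 0))) (.mul (.q (-643) 500) (.var 1)))), (.sub (.add (.add (.sub (.add (.mul .pi (.add (.mul (.sub (.q 18 100) (.var 0)) (.var 3)) (.mul (.var 1) (.sub (.sub (.var 2) (.var 0)) (.q 1 1))))) (.sub (.uu (.q 30 1000) (.add (.var 1) (.var 3))) (.mul .pi (.add (.var 1) (.var 3))))) (.uu (.q 18 100) (.var 1))) (.neg (.uu (.var 2) (.var 3)))) (.uu (.var 0) (.q 0 1))) (.add (.add (.q (-30) 1000) (.mul (.q 0 1) (.var 0))) (.mul (.q (-3927) 1250) (.var 1)))), (.sub (.add (.sub (.add (.mul .pi (.add (.mul (.sub (.q 18 100) (.var 0)) (.var 3)) (.mul (.var 1) (.sub (.sub (.var 2) (.var 0)) (.q 1 1))))) (.sub (.uu (.q 30 1000) (.add (.var 1) (.var 3))) (.mul .pi (.add (.var 1) (.var 3))))) (.uu (.q 18 100) (.var 1))) (.neg (.uu (.var 2) (.var 3)))) (.add (.add (.q (-2039) 10000) (.mul (.q 653 500) (.var 0))) (.mul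 (.q (-643) 500) (.var 1)))), (.sub (.var 3) (.mul (.q 29 100) (.sub (.q 86 100) (.sub (.var 2) (.var 0))))), (.sub (.neg (.mul (.q 465 1000) (.sub (.q 86 100) (.sub (.var 2) (.var 0))))) (.var 3)), (.sub (.sub (.var 2) (.var 0)) (.q 850 1000)), (.sub (.q 835 1000) (.sub (.var 2) (.var 0)))] 34
    1661250437726730780466599184563576535256542736942602404505696856554238924755481493437488626329002578208105639637608912361183188106858553579244170966181681585526079501702039651738476207228210179495053294843078196175658251945175622982798476472740127969306197984288235196242311370542964134620929450146843163723306920975755395534852332073381301531069500071595488503415482494095650711713304227743098769550786390675601090577006971228001919887053953469859526849715240693616893657213833474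
    ([V.of 10000 200 1800, V.of 10000 (-180) 985, V.of 10000 8550 9850, V.of 10000 (-117) 73]) =
    1 := by
  decide +kernel

theorem k_cfbw_p1 : Pool.Agent.Work.NumU.runT [(.sub (.add (.add (.sub (.add (.mul .pi (.add (.mul (.sub (.q 18 100) (.var 0)) (.var 3)) (.mul (.var 1) (.sub (.sub (.var 2) (.var 0)) (.q 1 1))))) (.add (.uu (.q 30 1000) (.add (.var 1) (.var 3))) (.mul .pi (.add (.var 1) (.var 3))))) (.uu (.q 18 100) (.var 1))) (.uu (.q 15 1000) (.var 3))) (.uu (.var 0) (.q 0 1))) (.add (.add (.q (-30) 1000) (.mul (.q 0 1) (.var 0))) (.mul (.q (-3927) 1250) (.var 1)))), (.sub (.add (.sub (.add (.mul .pi (.add (.mul (.sub (.q 18 100) (.var 0)) (.var 3)) (.mul (.var 1) (.sub (.sub (.var 2) (.var 0)) (.q 1 1))))) (.add (.uu (.q 30 1000) (.add (.var 1) (.var 3))) (.mul .pi (.add (.var 1) (.var 3))))) (.uu (.q 18 100) (.var 1))) (.uu (.q 15 1000) (.var 3))) (.add (.add (.q (-2039) 10000) (.mul (.q 653 500) (.var 0))) (.mul (.q (-643) 500) (.var 1)))), (.sub (.add (.add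 (.sub (.add (.mul .pi (.add (.mul (.sub (.q 18 100) (.var 0)) (.var 3)) (.mul (.var 1) (.sub (.sub (.var 2) (.var 0)) (.q 1 1))))) (.sub (.uu (.q 30 1000) (.add (.var 1) (.var 3))) (.mul .pi (.add (.var 1) (.var 3))))) (.uu (.q 18 100) (.var 1))) (.uu (.q 15 1000) (.var 3))) (.uu (.var 0) (.q 0 1))) (.add (.add (.q (-30) 1000) (.mul (.q 0 1) (.var 0))) (.mul (.q (-3927) 1250) (.var 1)))), (.sub (.add (.sub (.add (.mul .pi (.add (.mul (.sub (.q 18 100) (.var 0)) (.var 3)) (.mul (.var 1) (.sub (.sub (.var 2) (.var 0)) (.q 1 1))))) (.sub (.uu (.q 30 1000) (.add (.var 1) (.var 3))) (.mul .pi (.add (.var 1) (.var 3))))) (.uu (.q 18 100) (.var 1))) (.uu (.q 15 1000) (.var 3))) (.add (.add (.q (-2039) 10000) (.mul (.q 653 500) (.var 0))) (.mul (.q (-643) 500) (.var 1)))), (.sub (.var 3) (.mul (.q 29 100) (.sub (.q 86 100) (.sub (.var 2) (.var 0))))), (.sub (.neg (.mul (.q 465 1000) (.sub (.q 86 100) (.sub (.var 2) (.var 0))))) (.var 3)), (.sub (.sub (.var 2) (.var 0)) (.q 850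 1000)), (.sub (.q 835 1000) (.sub (.var 2) (.var 0)))] 34
    258815472735044418578276539064708393584949369203731057800688983650321
    ([V.of 10000 200 1800, V.of 10000 (-180) 985, V.of 10000 9850 9950, V.of 10000 (-117) 73]) =
    1 := by
  decide +kernel

theorem k_cgaw_p1 : Pool.Agent.Work.NumU.runT [(.sub (.add (.add (.sub (.add (.mul .pi (.add (.mul (.sub (.q 18 100) (.var 0)) (.var 3)) (.mul (.var 1) (.sub (.sub (.var 2) (.var 0)) (.q 1 1))))) (.add (.uu (.q 40 1000) (.add (.var 1) (.var 3))) (.mul .pi (.add (.var 1) (.var 3))))) (.uu (.q 18 100) (.var 1))) (.neg (.uu (.var 2) (.var 3)))) (.uu (.var 0) (.q 0 1))) (.add (.add (.q (-30) 1000) (.mul (.q 0 1) (.var 0))) (.mul (.q (-3927) 1250) (.var 1)))), (.sub (.add (.sub (.add (.mul .pi (.add (.mul (.sub (.q 18 100) (.var 0)) (.var 3)) (.mul (.var 1) (.sub (.sub (.var 2) (.var 0)) (.q 1 1))))) (.add (.uu (.q 40 1000) (.add (.var 1) (.var 3))) (.mul .pi (.add (.var 1) (.var 3))))) (.uu (.q 18 100) (.var 1))) (.neg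 (.uu (.var 2) (.var 3)))) (.add (.add (.q (-2039) 10000) (.mul (.q 653 500) (.var 0))) (.mul (.q (-643) 500) (.var 1)))), (.sub (.add (.add (.sub (.add (.mul .pi (.add (.mul (.sub (.q 18 100) (.var 0)) (.var 3)) (.mul (.var 1) (.sub (.sub (.var 2) (.var 0)) (.q 1 1))))) (.sub (.uu (.q 40 1000) (.add (.var 1) (.var 3))) (.mul .pi (.add (.var 1) (.var 3))))) (.uu (.q 18 100) (.var 1))) (.neg (.uu (.var 2) (.var 3)))) (.uu (.var 0) (.q 0 1))) (.add (.add (.q (-30) 1000) (.mul (.q 0 1) (.var 0))) (.mul (.q (-3927) 1250) (.var 1)))), (.sub (.add (.sub (.add (.mul .pi (.add (.mul (.sub (.q 18 100) (.var 0)) (.var 3)) (.mul (.var 1) (.sub (.sub (.var 2) (.var 0)) (.q 1 1))))) (.sub (.uu (.q 40 1000) (.add (.var 1) (.var 3))) (.mul .pi (.add (.var 1) (.var 3))))) (.uu (.q 18 100) (.var 1))) (.neg (.uu (.var 2) (.var 3)))) (.add (.add (.q (-2039) 10000) (.mul (.q 653 500) (.var 0))) (.mul (.q (-643) 500) (.var 1)))), (.sub (.var 3) (.mul (.q 29 100) (.sub (.q 86 100) (.sub (.var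 2) (.var 0))))), (.sub (.neg (.mul (.q 465 1000) (.sub (.q 86 100) (.sub (.var 2) (.var 0))))) (.var 3)), (.sub (.sub (.var 2) (.var 0)) (.q 860 1000)), (.sub (.q 850 1000) (.sub (.var 2) (.var 0)))] 34
    607693670557682864098686329665116860271472871981160509667494122589870927328474947611383670629139827949250413506665678838163408796995973763555167290050123478560432087156121407746
    ([V.of 10000 200 1800, V.of 10000 (-180) 985, V.of 10000 8700 9850, V.of 10000 (-47) 29]) =
    1 := by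
  decide +kernel

end E1
end TL
end Pool.Agent.Work.MP_b30479_gt.G2
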