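import Pool.Agent.Work.MP_b30479_gt.G2.TE1Cs2
import Pool.Agent.Work.MP_b30479_gt.G2.TE1Cs3

/-!
# Tails, rows `E1`, `E2`: certificates (class two, `w ≤ 18/100`)

Variables: `w`, `t`, `s = w + X`, `Y`.  `U`, `S`, `W` stand for `uu (18/100 + X) (t + Y)`, `-uu s Y`,
`uu w 0`.
-/

set_option linter.unusedVariables false
set_option linter.unusedSimpArgs false
set_option linter.unusedTactic false
set_option linter.unreachableTactic false

namespace Pool.Agent.Work.MP_b30479_gt.G2

open NumU
open NumU.E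
open NumI (V)

namespace TL

namespace E1

/-- 141 boxes -/
theorem k_ceaw {w t s Y U S W : ℝ}
    (a0 : 200 / 10000 ≤ w) (b0 : w ≤ 1800 / 10000)
    (a1 : -(180 / 10000) ≤ t) (b1 : t ≤ 985 / 10000)
    (a2 : 8450 / 10000 ≤ s) (b2 : s ≤ 9850 / 10000)
    (a3 : -(163 / 10000) ≤ Y) (b3 : Y ≤ 102 / 10000)
    (r1 : w ≤ s) (r2 : s - w ≤ 86 / 100)
    (r3 : Y ≤ 907 / 1000 * (s - w)) (r4 : Y ≤ 29 / 100 * (86 / 100 - (s - w)))
    (r5 : -(62 / 100 * (s - w)) ≤ Y) (r6 : -(465 / 1000 * (86 / 100 - (s - w))) ≤ Y)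
    (x0 : 825 / 1000 ≤ s - w) (x1 : s - w ≤ 835 / 1000)
    (u0 : uu (15 / 1000) (t + Y) + Real.pi * (t + Y) ≤ U) (u1 : uu (15 / 1000) (t + Y) - Real.pi
      * (t + Y) ≤ U)
    (hS : -uu s Y ≤ S) (hW : uu w 0 ≤ W)
    (h1 : Real.pi * ((18 / 100 - w) * Y + t * (s - w - 1)) + U - uu (18 / 100) t + S + W < -(30
      / 1000) - 3927 / 1250 * t)
    (h2 : Real.pi * ((18 / 100 - w) * Y + t * (s - w - 1)) + U - uu (18 / 100) t + S < -(2039 /
      10000) + 653 / 500 * w - 643 / 500 * t) : False := by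
  have h : chkT [(.sub (.add (.add (.sub (.add (.mul .pi (.add (.mul (.sub (.q 18 100) (.var 0)) (.var 3))
      (.mul (.var 1) (.sub (.sub (.var 2) (.var 0)) (.q 1 1))))) (.add (.uu (.q 15 1000) (.add
      (.var 1) (.var 3))) (.mul .pi (.add (.var 1) (.var 3))))) (.uu (.q 18 100) (.var 1))) (.neg
      (.uu (.var 2) (.var 3)))) (.uu (.var 0) (.q 0 1))) (.add (.add (.q (-30) 1000) (.mul (.q 0
      1) (.var 0))) (.mul (.q (-3927) 1250) (.var 1)))), (.sub (.add (.sub (.add (.mul .pi (.add
      (.mul (.sub (.q 18 100) (.var 0)) (.var 3)) (.mul (.var 1) (.sub (.sub (.var 2) (.var 0))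
      (.q 1 1))))) (.add (.uu (.q 15 1000) (.add (.var 1) (.var 3))) (.mul .pi (.add (.var 1)
      (.var 3))))) (.uu (.q 18 100) (.var 1))) (.neg (.uu (.var 2) (.var 3)))) (.add (.add (.q
      (-2039) 10000) (.mul (.q 653 500) (.var 0))) (.mul (.q (-643) 500) (.var 1)))), (.sub (.add
      (.add (.sub (.add (.mul .pi (.add (.mul (.sub (.q 18 100) (.var 0)) (.var 3)) (.mul (.var 1)
      (.sub (.sub (.var 2) (.var 0)) (.q 1 1))))) (.sub (.uu (.q 15 1000) (.add (.var 1) (.var
      3))) (.mul .pi (.add (.var 1) (.var 3))))) (.uu (.q 18 100) (.var 1))) (.neg (.uu (.var 2)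
      (.var 3)))) (.uu (.var 0) (.q 0 1))) (.add (.add (.q (-30) 1000) (.mul (.q 0 1) (.var 0)))
      (.mul (.q (-3927) 1250) (.var 1)))), (.sub (.add (.sub (.add (.mul .pi (.add (.mul (.sub (.q
      18 100) (.var 0)) (.var 3)) (.mul (.var 1) (.sub (.sub (.var 2) (.var 0)) (.q 1 1))))) (.sub
      (.uu (.q 15 1000) (.add (.var 1) (.var 3))) (.mul .pi (.add (.var 1) (.var 3))))) (.uu (.q
      18 100) (.var 1))) (.neg (.uu (.var 2) (.var 3)))) (.add (.add (.q (-2039) 10000) (.mul (.q
      653 500) (.var 0))) (.mul (.q (-643) 500) (.var 1)))), (.sub (.var 3) (.mul (.q 29 100)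
      (.sub (.q 86 100) (.sub (.var 2) (.var 0))))), (.sub (.neg (.mul (.q 465 1000) (.sub (.q 86
      100) (.sub (.var 2) (.var 0))))) (.var 3)), (.sub (.sub (.var 2) (.var 0)) (.q 835 1000)),
      (.sub (.q 825 1000) (.sub (.var 2) (.var 0)))] 34
      136285719602087468298815039572216000195130135313267155925163883289023798319947083529218225062047819636394274424680031817627663625659535556607911072992747568991165521326260850794018578013704836352781734538084140280606015059465644055126404320825307731420021115190965052244451795244106082141658618940096954963272157315071321162177658717540610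
      [V.of 10000 200 1800, V.of 10000 (-180) 985, V.of 10000 8450 9850, V.of 10000 (-163) 102] = true :=
      Pool.Agent.Work.NumU.chkT_of k_ceaw_p1
  obtain ⟨e, he, hp⟩ := chkT4 h (by norm_num) (x := w) (y := t) (z := s) (w := Y)
    (le_trans (by norm_num) a0) (le_trans b0 (by norm_num))
    (le_trans (by norm_num) a1) (le_trans b1 (by norm_num))
    (le_trans (by norm_num) a2) (le_trans b2 (by norm_num))
    (le_trans (by norm_num) a3) (le_trans b3 (by norm_num))
  simp only [List.mem_cons, List.not_mem_nil, or_false] at he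
  rcases he with rfl | rfl | rfl | rfl | rfl | rfl | rfl | rfl
  · simp only [E.val, NumI.lkR] at hp
    push_cast at hp
    try simp only [zero_div, div_one] at hp
    linarith only [u0, hS, hW, h1, hp]
  · simp only [E.val, NumI.lkR] at hp
    push_cast at hp
    try simp only [zero_div, div_one] at hp
    linarith only [u0, hS, h2, hp]
  · simp only [E.val, NumI.lkR] at hp
    push_cast at hp
    try simp only [zero_div, div_one] at hp
    linarith only [u1, hS, hW, h1, hp]
  · simp only [E.val, NumI.lkR] at hp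
    push_cast at hp
    try simp only [zero_div, div_one] at hp
    linarith only [u1, hS, h2, hp]
  · simp only [E.val, NumI.lkR] at hp
    push_cast at hp
    try simp only [zero_div, div_one] at hp
    linarith only [r4, hp]
  · simp only [E.val, NumI.lkR] at hp
    push_cast at hp
    try simp only [zero_div, div_one] at hp
    linarith only [r6, hp]
  · simp only [E.val, NumI.lkR] at hp
    push_cast at hp
    try simp only [zero_div, div_one] at hp
    linarith only [x1, hp]
  · simp only [E.val, NumI.lkR] at hp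
    push_cast at hp
    try simp only [zero_div, div_one] at hp
    linarith only [x0, hp]

/-- 11 boxes -/
theorem k_cebw {w t s Y U S W : ℝ}
    (a0 : 200 / 10000 ≤ w) (b0 : w ≤ 1800 / 10000)
    (a1 : -(180 / 10000) ≤ t) (b1 : t ≤ 985 / 10000)
    (a2 : 9850 / 10000 ≤ s) (b2 : s ≤ 9950 / 10000)
    (a3 : -(163 / 10000) ≤ Y) (b3 : Y ≤ 102 / 10000)
    (r1 : w ≤ s) (r2 : s - w ≤ 86 / 100)
    (r3 : Y ≤ 907 / 1000 * (s - w)) (r4 : Y ≤ 29 / 100 * (86 / 100 - (s - w)))
    (r5 : -(62 / 100 * (s - w)) ≤ Y) (r6 : -(465 / 1000 * (86 / 100 - (s - w))) ≤ Y)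
    (x0 : 825 / 1000 ≤ s - w) (x1 : s - w ≤ 835 / 1000)
    (u0 : uu (15 / 1000) (t + Y) + Real.pi * (t + Y) ≤ U) (u1 : uu (15 / 1000) (t + Y) - Real.pi
      * (t + Y) ≤ U)
    (hS : uu (15 / 1000) Y ≤ S) (hW : uu w 0 ≤ W)
    (h1 : Real.pi * ((18 / 100 - w) * Y + t * (s - w - 1)) + U - uu (18 / 100) t + S + W < -(30
      / 1000) - 3927 / 1250 * t)
    (h2 : Real.pi * ((18 / 100 - w) * Y + t * (s - w - 1)) + U - uu (18 / 100) t + S < -(2039 /
      10000) + 653 / 500 * w - 643 / 500 * t) : False := by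
  have h : chkT [(.sub (.add (.add (.sub (.add (.mul .pi (.add (.mul (.sub (.q 18 100) (.var 0)) (.var 3))
      (.mul (.var 1) (.sub (.sub (.var 2) (.var 0)) (.q 1 1))))) (.add (.uu (.q 15 1000) (.add
      (.var 1) (.var 3))) (.mul .pi (.add (.var 1) (.var 3))))) (.uu (.q 18 100) (.var 1))) (.uu
      (.q 15 1000) (.var 3))) (.uu (.var 0) (.q 0 1))) (.add (.add (.q (-30) 1000) (.mul (.q 0 1)
      (.var 0))) (.mul (.q (-3927) 1250) (.var 1)))), (.sub (.add (.sub (.add (.mul .pi (.add
      (.mul (.sub (.q 18 100) (.var 0)) (.var 3)) (.mul (.var 1) (.sub (.sub (.var 2) (.var 0))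
      (.q 1 1))))) (.add (.uu (.q 15 1000) (.add (.var 1) (.var 3))) (.mul .pi (.add (.var 1)
      (.var 3))))) (.uu (.q 18 100) (.var 1))) (.uu (.q 15 1000) (.var 3))) (.add (.add (.q
      (-2039) 10000) (.mul (.q 653 500) (.var 0))) (.mul (.q (-643) 500) (.var 1)))), (.sub (.add
      (.add (.sub (.add (.mul .pi (.add (.mul (.sub (.q 18 100) (.var 0)) (.var 3)) (.mul (.var 1)
      (.sub (.sub (.var 2) (.var 0)) (.q 1 1))))) (.sub (.uu (.q 15 1000) (.add (.var 1) (.var
      3))) (.mul .pi (.add (.var 1) (.var 3))))) (.uu (.q 18 100) (.var 1))) (.uu (.q 15 1000)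
      (.var 3))) (.uu (.var 0) (.q 0 1))) (.add (.add (.q (-30) 1000) (.mul (.q 0 1) (.var 0)))
      (.mul (.q (-3927) 1250) (.var 1)))), (.sub (.add (.sub (.add (.mul .pi (.add (.mul (.sub (.q
      18 100) (.var 0)) (.var 3)) (.mul (.var 1) (.sub (.sub (.var 2) (.var 0)) (.q 1 1))))) (.sub
      (.uu (.q 15 1000) (.add (.var 1) (.var 3))) (.mul .pi (.add (.var 1) (.var 3))))) (.uu (.q
      18 100) (.var 1))) (.uu (.q 15 1000) (.var 3))) (.add (.add (.q (-2039) 10000) (.mul (.q 653
      500) (.var 0))) (.mul (.q (-643) 500) (.var 1)))), (.sub (.var 3) (.mul (.q 29 100) (.sub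
      (.q 86 100) (.sub (.var 2) (.var 0))))), (.sub (.neg (.mul (.q 465 1000) (.sub (.q 86 100)
      (.sub (.var 2) (.var 0))))) (.var 3)), (.sub (.sub (.var 2) (.var 0)) (.q 835 1000)), (.sub
      (.q 825 1000) (.sub (.var 2) (.var 0)))] 34
      11605514927531723098010385
      [V.of 10000 200 1800, V.of 10000 (-180) 985, V.of 10000 9850 9950, V.of 10000 (-163) 102] = true := by
    decide +kernel
  obtain ⟨e, he, hp⟩ := chkT4 h (by norm_num) (x := w) (y := t) (z := s) (w := Y)
    (le_trans (by norm_num) a0) (le_trans b0 (by norm_num))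
    (le_trans (by norm_num) a1) (le_trans b1 (by norm_num))
    (le_trans (by norm_num) a2) (le_trans b2 (by norm_num))
    (le_trans (by norm_num) a3) (le_trans b3 (by norm_num))
  simp only [List.mem_cons, List.not_mem_nil, or_false] at he
  rcases he with rfl | rfl | rfl | rfl | rfl | rfl | rfl | rfl
  · simp only [E.val, NumI.lkR] at hp
    push_cast at hp
    try simp only [zero_div, div_one] at hp
    linarith only [u0, hS, hW, h1, hp]
  · simp only [E.val, NumI.lkR] at hp
    push_cast at hp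
    try simp only [zero_div, div_one] at hp
    linarith only [u0, hS, h2, hp]
  · simp only [E.val, NumI.lkR] at hp
    push_cast at hp
    try simp only [zero_div, div_one] at hp
    linarith only [u1, hS, hW, h1, hp]
  · simp only [E.val, NumI.lkR] at hp
    push_cast at hp
    try simp only [zero_div, div_one] at hp
    linarith only [u1, hS, h2, hp]
  · simp only [E.val, NumI.lkR] at hp
    push_cast at hp
    try simp only [zero_div, div_one] at hp
    linarith only [r4, hp]
  · simp only [E.val, NumI.lkR] at hp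
    push_cast at hp
    try simp only [zero_div, div_one] at hp
    linarith only [r6, hp]
  · simp only [E.val, NumI.lkR] at hp
    push_cast at hp
    try simp only [zero_div, div_one] at hp
    linarith only [x1, hp]
  · simp only [E.val, NumI.lkR] at hp
    push_cast at hp
    try simp only [zero_div, div_one] at hp
    linarith only [x0, hp]

/-- 6 boxes -/
theorem k_cecw {w t s Y U S W : ℝ}
    (a0 : 200 / 10000 ≤ w) (b0 : w ≤ 1800 / 10000)
    (a1 : -(180 / 10000) ≤ t) (b1 : t ≤ 985 / 10000)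
    (a2 : 9950 / 10000 ≤ s) (b2 : s ≤ 10050 / 10000)
    (a3 : -(163 / 10000) ≤ Y) (b3 : Y ≤ 102 / 10000)
    (r1 : w ≤ s) (r2 : s - w ≤ 86 / 100)
    (r3 : Y ≤ 907 / 1000 * (s - w)) (r4 : Y ≤ 29 / 100 * (86 / 100 - (s - w)))
    (r5 : -(62 / 100 * (s - w)) ≤ Y) (r6 : -(465 / 1000 * (86 / 100 - (s - w))) ≤ Y)
    (x0 : 825 / 1000 ≤ s - w) (x1 : s - w ≤ 835 / 1000)
    (u0 : uu (15 / 1000) (t + Y) + Real.pi * (t + Y) ≤ U) (u1 : uu (15 / 1000) (t + Y) - Real.pi
      * (t + Y) ≤ U)
    (hS : uu (5 / 1000) Y ≤ S) (hW : uu w 0 ≤ W)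
    (h1 : Real.pi * ((18 / 100 - w) * Y + t * (s - w - 1)) + U - uu (18 / 100) t + S + W < -(30
      / 1000) - 3927 / 1250 * t)
    (h2 : Real.pi * ((18 / 100 - w) * Y + t * (s - w - 1)) + U - uu (18 / 100) t + S < -(2039 /
      10000) + 653 / 500 * w - 643 / 500 * t) : False := by
  have h : chkT [(.sub (.add (.add (.sub (.add (.mul .pi (.add (.mul (.sub (.q 18 100) (.var 0)) (.var 3))
      (.mul (.var 1) (.sub (.sub (.var 2) (.var 0)) (.q 1 1))))) (.add (.uu (.q 15 1000) (.add
      (.var 1) (.var 3))) (.mul .pi (.add (.var 1) (.var 3))))) (.uu (.q 18 100) (.var 1))) (.uu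
      (.q 5 1000) (.var 3))) (.uu (.var 0) (.q 0 1))) (.add (.add (.q (-30) 1000) (.mul (.q 0 1)
      (.var 0))) (.mul (.q (-3927) 1250) (.var 1)))), (.sub (.add (.sub (.add (.mul .pi (.add
      (.mul (.sub (.q 18 100) (.var 0)) (.var 3)) (.mul (.var 1) (.sub (.sub (.var 2) (.var 0))
      (.q 1 1))))) (.add (.uu (.q 15 1000) (.add (.var 1) (.var 3))) (.mul .pi (.add (.var 1)
      (.var 3))))) (.uu (.q 18 100) (.var 1))) (.uu (.q 5 1000) (.var 3))) (.add (.add (.q (-2039)
      10000) (.mul (.q 653 500) (.var 0))) (.mul (.q (-643) 500) (.var 1)))), (.sub (.add (.add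
      (.sub (.add (.mul .pi (.add (.mul (.sub (.q 18 100) (.var 0)) (.var 3)) (.mul (.var 1) (.sub
      (.sub (.var 2) (.var 0)) (.q 1 1))))) (.sub (.uu (.q 15 1000) (.add (.var 1) (.var 3)))
      (.mul .pi (.add (.var 1) (.var 3))))) (.uu (.q 18 100) (.var 1))) (.uu (.q 5 1000) (.var
      3))) (.uu (.var 0) (.q 0 1))) (.add (.add (.q (-30) 1000) (.mul (.q 0 1) (.var 0))) (.mul
      (.q (-3927) 1250) (.var 1)))), (.sub (.add (.sub (.add (.mul .pi (.add (.mul (.sub (.q 18
      100) (.var 0)) (.var 3)) (.mul (.var 1) (.sub (.sub (.var 2) (.var 0)) (.q 1 1))))) (.sub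
      (.uu (.q 15 1000) (.add (.var 1) (.var 3))) (.mul .pi (.add (.var 1) (.var 3))))) (.uu (.q
      18 100) (.var 1))) (.uu (.q 5 1000) (.var 3))) (.add (.add (.q (-2039) 10000) (.mul (.q 653
      500) (.var 0))) (.mul (.q (-643) 500) (.var 1)))), (.sub (.var 3) (.mul (.q 29 100) (.sub
      (.q 86 100) (.sub (.var 2) (.var 0))))), (.sub (.neg (.mul (.q 465 1000) (.sub (.q 86 100)
      (.sub (.var 2) (.var 0))))) (.var 3)), (.sub (.sub (.var 2) (.var 0)) (.q 835 1000)), (.sub
      (.q 825 1000) (.sub (.var 2) (.var 0)))] 34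
      10553702593297
      [V.of 10000 200 1800, V.of 10000 (-180) 985, V.of 10000 9950 10050, V.of 10000 (-163) 102] = true := by
    decide +kernel
  obtain ⟨e, he, hp⟩ := chkT4 h (by norm_num) (x := w) (y := t) (z := s) (w := Y)
    (le_trans (by norm_num) a0) (le_trans b0 (by norm_num))
    (le_trans (by norm_num) a1) (le_trans b1 (by norm_num))
    (le_trans (by norm_num) a2) (le_trans b2 (by norm_num))
    (le_trans (by norm_num) a3) (le_trans b3 (by norm_num))
  simp only [List.mem_cons, List.not_mem_nil, or_false] at he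
  rcases he with rfl | rfl | rfl | rfl | rfl | rfl | rfl | rfl
  · simp only [E.val, NumI.lkR] at hp
    push_cast at hp
    try simp only [zero_div, div_one] at hp
    linarith only [u0, hS, hW, h1, hp]
  · simp only [E.val, NumI.lkR] at hp
    push_cast at hp
    try simp only [zero_div, div_one] at hp
    linarith only [u0, hS, h2, hp]
  · simp only [E.val, NumI.lkR] at hp
    push_cast at hp
    try simp only [zero_div, div_one] at hp
    linarith only [u1, hS, hW, h1, hp]
  · simp only [E.val, NumI.lkR] at hp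
    push_cast at hp
    try simp only [zero_div, div_one] at hp
    linarith only [u1, hS, h2, hp]
  · simp only [E.val, NumI.lkR] at hp
    push_cast at hp
    try simp only [zero_div, div_one] at hp
    linarith only [r4, hp]
  · simp only [E.val, NumI.lkR] at hp
    push_cast at hp
    try simp only [zero_div, div_one] at hp
    linarith only [r6, hp]
  · simp only [E.val, NumI.lkR] at hp
    push_cast at hp
    try simp only [zero_div, div_one] at hp
    linarith only [x1, hp]
  · simp only [E.val, NumI.lkR] at hp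
    push_cast at hp
    try simp only [zero_div, div_one] at hp
    linarith only [x0, hp]

/-- 3 boxes -/
theorem k_cepw {w t s Y U S W : ℝ}
    (a0 : 200 / 10000 ≤ w) (b0 : w ≤ 1800 / 10000)
    (a1 : -(180 / 10000) ≤ t) (b1 : t ≤ 985 / 10000)
    (a2 : 10050 / 10000 ≤ s) (b2 : s ≤ 10150 / 10000)
    (a3 : 0 ≤ Y) (b3 : Y ≤ 102 / 10000)
    (r1 : w ≤ s) (r2 : s - w ≤ 86 / 100)
    (r3 : Y ≤ 907 / 1000 * (s - w)) (r4 : Y ≤ 29 / 100 * (86 / 100 - (s - w)))
    (r5 : -(62 / 100 * (s - w)) ≤ Y) (r6 : -(465 / 1000 * (86 / 100 - (s - w))) ≤ Y)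
    (x0 : 825 / 1000 ≤ s - w) (x1 : s - w ≤ 835 / 1000)
    (u0 : uu (15 / 1000) (t + Y) + Real.pi * (t + Y) ≤ U) (u1 : uu (15 / 1000) (t + Y) - Real.pi
      * (t + Y) ≤ U)
    (hS : -uu (5 / 1000) Y - Real.pi * Y ≤ S) (hW : uu w 0 ≤ W)
    (h1 : Real.pi * ((18 / 100 - w) * Y + t * (s - w - 1)) + U - uu (18 / 100) t + S + W < -(30
      / 1000) - 3927 / 1250 * t)
    (h2 : Real.pi * ((18 / 100 - w) * Y + t * (s - w - 1)) + U - uu (18 / 100) t + S < -(2039 /
      10000) + 653 / 500 * w - 643 / 500 * t) : False := by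
  have h : chkT [(.sub (.add (.add (.sub (.add (.mul .pi (.add (.mul (.sub (.q 18 100) (.var 0)) (.var 3))
      (.mul (.var 1) (.sub (.sub (.var 2) (.var 0)) (.q 1 1))))) (.add (.uu (.q 15 1000) (.add
      (.var 1) (.var 3))) (.mul .pi (.add (.var 1) (.var 3))))) (.uu (.q 18 100) (.var 1))) (.sub
      (.neg (.uu (.q 5 1000) (.var 3))) (.mul .pi (.var 3)))) (.uu (.var 0) (.q 0 1))) (.add (.add
      (.q (-30) 1000) (.mul (.q 0 1) (.var 0))) (.mul (.q (-3927) 1250) (.var 1)))), (.sub (.add
      (.sub (.add (.mul .pi (.add (.mul (.sub (.q 18 100) (.var 0)) (.var 3)) (.mul (.var 1) (.sub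
      (.sub (.var 2) (.var 0)) (.q 1 1))))) (.add (.uu (.q 15 1000) (.add (.var 1) (.var 3)))
      (.mul .pi (.add (.var 1) (.var 3))))) (.uu (.q 18 100) (.var 1))) (.sub (.neg (.uu (.q 5
      1000) (.var 3))) (.mul .pi (.var 3)))) (.add (.add (.q (-2039) 10000) (.mul (.q 653 500)
      (.var 0))) (.mul (.q (-643) 500) (.var 1)))), (.sub (.add (.add (.sub (.add (.mul .pi (.add
      (.mul (.sub (.q 18 100) (.var 0)) (.var 3)) (.mul (.var 1) (.sub (.sub (.var 2) (.var 0))
      (.q 1 1))))) (.sub (.uu (.q 15 1000) (.add (.var 1) (.var 3))) (.mul .pi (.add (.var 1)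
      (.var 3))))) (.uu (.q 18 100) (.var 1))) (.sub (.neg (.uu (.q 5 1000) (.var 3))) (.mul .pi
      (.var 3)))) (.uu (.var 0) (.q 0 1))) (.add (.add (.q (-30) 1000) (.mul (.q 0 1) (.var 0)))
      (.mul (.q (-3927) 1250) (.var 1)))), (.sub (.add (.sub (.add (.mul .pi (.add (.mul (.sub (.q
      18 100) (.var 0)) (.var 3)) (.mul (.var 1) (.sub (.sub (.var 2) (.var 0)) (.q 1 1))))) (.sub
      (.uu (.q 15 1000) (.add (.var 1) (.var 3))) (.mul .pi (.add (.var 1) (.var 3))))) (.uu (.q
      18 100) (.var 1))) (.sub (.neg (.uu (.q 5 1000) (.var 3))) (.mul .pi (.var 3)))) (.add (.add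
      (.q (-2039) 10000) (.mul (.q 653 500) (.var 0))) (.mul (.q (-643) 500) (.var 1)))), (.sub
      (.var 3) (.mul (.q 29 100) (.sub (.q 86 100) (.sub (.var 2) (.var 0))))), (.sub (.neg (.mul
      (.q 465 1000) (.sub (.q 86 100) (.sub (.var 2) (.var 0))))) (.var 3)), (.sub (.sub (.var 2)
      (.var 0)) (.q 835 1000)), (.sub (.q 825 1000) (.sub (.var 2) (.var 0)))] 34
      629009
      [V.of 10000 200 1800, V.of 10000 (-180) 985, V.of 10000 10050 10150, V.of 10000 0 102] = true := by
    decide +kernel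
  obtain ⟨e, he, hp⟩ := chkT4 h (by norm_num) (x := w) (y := t) (z := s) (w := Y)
    (le_trans (by norm_num) a0) (le_trans b0 (by norm_num))
    (le_trans (by norm_num) a1) (le_trans b1 (by norm_num))
    (le_trans (by norm_num) a2) (le_trans b2 (by norm_num))
    (le_trans (by norm_num) a3) (le_trans b3 (by norm_num))
  simp only [List.mem_cons, List.not_mem_nil, or_false] at he
  rcases he with rfl | rfl | rfl | rfl | rfl | rfl | rfl | rfl
  · simp only [E.val, NumI.lkR] at hp
    push_cast at hp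
    try simp only [zero_div, div_one] at hp
    linarith only [u0, hS, hW, h1, hp]
  · simp only [E.val, NumI.lkR] at hp
    push_cast at hp
    try simp only [zero_div, div_one] at hp
    linarith only [u0, hS, h2, hp]
  · simp only [E.val, NumI.lkR] at hp
    push_cast at hp
    try simp only [zero_div, div_one] at hp
    linarith only [u1, hS, hW, h1, hp]
  · simp only [E.val, NumI.lkR] at hp
    push_cast at hp
    try simp only [zero_div, div_one] at hp
    linarith only [u1, hS, h2, hp]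
  · simp only [E.val, NumI.lkR] at hp
    push_cast at hp
    try simp only [zero_div, div_one] at hp
    linarith only [r4, hp]
  · simp only [E.val, NumI.lkR] at hp
    push_cast at hp
    try simp only [zero_div, div_one] at hp
    linarith only [a3, x1, hp]
  · simp only [E.val, NumI.lkR] at hp
    push_cast at hp
    try simp only [zero_div, div_one] at hp
    linarith only [x1, hp]
  · simp only [E.val, NumI.lkR] at hp
    push_cast at hp
    try simp only [zero_div, div_one] at hp
    linarith only [b0, a2, hp]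

/-- 3 boxes -/
theorem k_cenw {w t s Y U S W : ℝ}
    (a0 : 200 / 10000 ≤ w) (b0 : w ≤ 1800 / 10000)
    (a1 : -(180 / 10000) ≤ t) (b1 : t ≤ 985 / 10000)
    (a2 : 10050 / 10000 ≤ s) (b2 : s ≤ 10150 / 10000)
    (a3 : -(163 / 10000) ≤ Y) (b3 : Y ≤ 0)
    (r1 : w ≤ s) (r2 : s - w ≤ 86 / 100)
    (r3 : Y ≤ 907 / 1000 * (s - w)) (r4 : Y ≤ 29 / 100 * (86 / 100 - (s - w)))
    (r5 : -(62 / 100 * (s - w)) ≤ Y) (r6 : -(465 / 1000 * (86 / 100 - (s - w))) ≤ Y)
    (x0 : 825 / 1000 ≤ s - w) (x1 : s - w ≤ 835 / 1000)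
    (u0 : uu (15 / 1000) (t + Y) + Real.pi * (t + Y) ≤ U) (u1 : uu (15 / 1000) (t + Y) - Real.pi
      * (t + Y) ≤ U)
    (hS : -uu (5 / 1000) Y + Real.pi * Y ≤ S) (hW : uu w 0 ≤ W)
    (h1 : Real.pi * ((18 / 100 - w) * Y + t * (s - w - 1)) + U - uu (18 / 100) t + S + W < -(30
      / 1000) - 3927 / 1250 * t)
    (h2 : Real.pi * ((18 / 100 - w) * Y + t * (s - w - 1)) + U - uu (18 / 100) t + S < -(2039 /
      10000) + 653 / 500 * w - 643 / 500 * t) : False := by
  have h : chkT [(.sub (.add (.add (.sub (.add (.mul .pi (.add (.mul (.sub (.q 18 100) (.var 0)) (.var 3))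
      (.mul (.var 1) (.sub (.sub (.var 2) (.var 0)) (.q 1 1))))) (.add (.uu (.q 15 1000) (.add
      (.var 1) (.var 3))) (.mul .pi (.add (.var 1) (.var 3))))) (.uu (.q 18 100) (.var 1))) (.add
      (.neg (.uu (.q 5 1000) (.var 3))) (.mul .pi (.var 3)))) (.uu (.var 0) (.q 0 1))) (.add (.add
      (.q (-30) 1000) (.mul (.q 0 1) (.var 0))) (.mul (.q (-3927) 1250) (.var 1)))), (.sub (.add
      (.sub (.add (.mul .pi (.add (.mul (.sub (.q 18 100) (.var 0)) (.var 3)) (.mul (.var 1) (.sub
      (.sub (.var 2) (.var 0)) (.q 1 1))))) (.add (.uu (.q 15 1000) (.add (.var 1) (.var 3)))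
      (.mul .pi (.add (.var 1) (.var 3))))) (.uu (.q 18 100) (.var 1))) (.add (.neg (.uu (.q 5
      1000) (.var 3))) (.mul .pi (.var 3)))) (.add (.add (.q (-2039) 10000) (.mul (.q 653 500)
      (.var 0))) (.mul (.q (-643) 500) (.var 1)))), (.sub (.add (.add (.sub (.add (.mul .pi (.add
      (.mul (.sub (.q 18 100) (.var 0)) (.var 3)) (.mul (.var 1) (.sub (.sub (.var 2) (.var 0))
      (.q 1 1))))) (.sub (.uu (.q 15 1000) (.add (.var 1) (.var 3))) (.mul .pi (.add (.var 1)
      (.var 3))))) (.uu (.q 18 100) (.var 1))) (.add (.neg (.uu (.q 5 1000) (.var 3))) (.mul .pi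
      (.var 3)))) (.uu (.var 0) (.q 0 1))) (.add (.add (.q (-30) 1000) (.mul (.q 0 1) (.var 0)))
      (.mul (.q (-3927) 1250) (.var 1)))), (.sub (.add (.sub (.add (.mul .pi (.add (.mul (.sub (.q
      18 100) (.var 0)) (.var 3)) (.mul (.var 1) (.sub (.sub (.var 2) (.var 0)) (.q 1 1))))) (.sub
      (.uu (.q 15 1000) (.add (.var 1) (.var 3))) (.mul .pi (.add (.var 1) (.var 3))))) (.uu (.q
      18 100) (.var 1))) (.add (.neg (.uu (.q 5 1000) (.var 3))) (.mul .pi (.var 3)))) (.add (.add
      (.q (-2039) 10000) (.mul (.q 653 500) (.var 0))) (.mul (.q (-643) 500) (.var 1)))), (.sub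
      (.var 3) (.mul (.q 29 100) (.sub (.q 86 100) (.sub (.var 2) (.var 0))))), (.sub (.neg (.mul
      (.q 465 1000) (.sub (.q 86 100) (.sub (.var 2) (.var 0))))) (.var 3)), (.sub (.sub (.var 2)
      (.var 0)) (.q 835 1000)), (.sub (.q 825 1000) (.sub (.var 2) (.var 0)))] 34
      629521
      [V.of 10000 200 1800, V.of 10000 (-180) 985, V.of 10000 10050 10150, V.of 10000 (-163) 0] = true := by
    decide +kernel
  obtain ⟨e, he, hp⟩ := chkT4 h (by norm_num) (x := w) (y := t) (z := s) (w := Y)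
    (le_trans (by norm_num) a0) (le_trans b0 (by norm_num))
    (le_trans (by norm_num) a1) (le_trans b1 (by norm_num))
    (le_trans (by norm_num) a2) (le_trans b2 (by norm_num))
    (le_trans (by norm_num) a3) (le_trans b3 (by norm_num))
  simp only [List.mem_cons, List.not_mem_nil, or_false] at he
  rcases he with rfl | rfl | rfl | rfl | rfl | rfl | rfl | rfl
  · simp only [E.val, NumI.lkR] at hp
    push_cast at hp
    try simp only [zero_div, div_one] at hp
    linarith only [u0, hS, hW, h1, hp]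
  · simp only [E.val, NumI.lkR] at hp
    push_cast at hp
    try simp only [zero_div, div_one] at hp
    linarith only [u0, hS, h2, hp]
  · simp only [E.val, NumI.lkR] at hp
    push_cast at hp
    try simp only [zero_div, div_one] at hp
    linarith only [u1, hS, hW, h1, hp]
  · simp only [E.val, NumI.lkR] at hp
    push_cast at hp
    try simp only [zero_div, div_one] at hp
    linarith only [u1, hS, h2, hp]
  · simp only [E.val, NumI.lkR] at hp
    push_cast at hp
    try simp only [zero_div, div_one] at hp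
    linarith only [b3, x1, hp]
  · simp only [E.val, NumI.lkR] at hp
    push_cast at hp
    try simp only [zero_div, div_one] at hp
    linarith only [r6, hp]
  · simp only [E.val, NumI.lkR] at hp
    push_cast at hp
    try simp only [zero_div, div_one] at hp
    linarith only [x1, hp]
  · simp only [E.val, NumI.lkR] at hp
    push_cast at hp
    try simp only [zero_div, div_one] at hp
    linarith only [b0, a2, hp]

/-- 3 boxes -/
theorem k_ceav {w t s Y U S W : ℝ}
    (a0 : 0 ≤ w) (b0 : w ≤ 200 / 10000)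
    (a1 : -(180 / 10000) ≤ t) (b1 : t ≤ 985 / 10000)
    (a2 : 8250 / 10000 ≤ s) (b2 : s ≤ 8550 / 10000)
    (a3 : -(163 / 10000) ≤ Y) (b3 : Y ≤ 102 / 10000)
    (r1 : w ≤ s) (r2 : s - w ≤ 86 / 100)
    (r3 : Y ≤ 907 / 1000 * (s - w)) (r4 : Y ≤ 29 / 100 * (86 / 100 - (s - w)))
    (r5 : -(62 / 100 * (s - w)) ≤ Y) (r6 : -(465 / 1000 * (86 / 100 - (s - w))) ≤ Y)
    (x0 : 825 / 1000 ≤ s - w) (x1 : s - w ≤ 835 / 1000)
    (u0 : uu (15 / 1000) (t + Y) + Real.pi * (t + Y) ≤ U) (u1 : uu (15 / 1000) (t + Y) - Real.pi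
      * (t + Y) ≤ U)
    (hS : -uu s Y ≤ S) (hW : uu (2 / 100) 0 ≤ W)
    (h1 : Real.pi * ((18 / 100 - w) * Y + t * (s - w - 1)) + U - uu (18 / 100) t + S + W < -(30
      / 1000) - 3927 / 1250 * t)
    (h2 : Real.pi * ((18 / 100 - w) * Y + t * (s - w - 1)) + U - uu (18 / 100) t + S < -(2039 /
      10000) + 653 / 500 * w - 643 / 500 * t) : False := by
  have h : chkT [(.sub (.add (.add (.sub (.add (.mul .pi (.add (.mul (.sub (.q 18 100) (.var 0)) (.var 3))
      (.mul (.var 1) (.sub (.sub (.var 2) (.var 0)) (.q 1 1))))) (.add (.uu (.q 15 1000) (.add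
      (.var 1) (.var 3))) (.mul .pi (.add (.var 1) (.var 3))))) (.uu (.q 18 100) (.var 1))) (.neg
      (.uu (.var 2) (.var 3)))) (.uu (.q 2 100) (.q 0 1))) (.add (.add (.q (-30) 1000) (.mul (.q 0
      1) (.var 0))) (.mul (.q (-3927) 1250) (.var 1)))), (.sub (.add (.sub (.add (.mul .pi (.add
      (.mul (.sub (.q 18 100) (.var 0)) (.var 3)) (.mul (.var 1) (.sub (.sub (.var 2) (.var 0))
      (.q 1 1))))) (.add (.uu (.q 15 1000) (.add (.var 1) (.var 3))) (.mul .pi (.add (.var 1)
      (.var 3))))) (.uu (.q 18 100) (.var 1))) (.neg (.uu (.var 2) (.var 3)))) (.add (.add (.q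
      (-2039) 10000) (.mul (.q 653 500) (.var 0))) (.mul (.q (-643) 500) (.var 1)))), (.sub (.add
      (.add (.sub (.add (.mul .pi (.add (.mul (.sub (.q 18 100) (.var 0)) (.var 3)) (.mul (.var 1)
      (.sub (.sub (.var 2) (.var 0)) (.q 1 1))))) (.sub (.uu (.q 15 1000) (.add (.var 1) (.var
      3))) (.mul .pi (.add (.var 1) (.var 3))))) (.uu (.q 18 100) (.var 1))) (.neg (.uu (.var 2)
      (.var 3)))) (.uu (.q 2 100) (.q 0 1))) (.add (.add (.q (-30) 1000) (.mul (.q 0 1) (.var 0)))
      (.mul (.q (-3927) 1250) (.var 1)))), (.sub (.add (.sub (.add (.mul .pi (.add (.mul (.sub (.q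
      18 100) (.var 0)) (.var 3)) (.mul (.var 1) (.sub (.sub (.var 2) (.var 0)) (.q 1 1))))) (.sub
      (.uu (.q 15 1000) (.add (.var 1) (.var 3))) (.mul .pi (.add (.var 1) (.var 3))))) (.uu (.q
      18 100) (.var 1))) (.neg (.uu (.var 2) (.var 3)))) (.add (.add (.q (-2039) 10000) (.mul (.q
      653 500) (.var 0))) (.mul (.q (-643) 500) (.var 1)))), (.sub (.var 3) (.mul (.q 29 100)
      (.sub (.q 86 100) (.sub (.var 2) (.var 0))))), (.sub (.neg (.mul (.q 465 1000) (.sub (.q 86
      100) (.sub (.var 2) (.var 0))))) (.var 3)), (.sub (.sub (.var 2) (.var 0)) (.q 835 1000)),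
      (.sub (.q 825 1000) (.sub (.var 2) (.var 0)))] 34
      563985
      [V.of 10000 0 200, V.of 10000 (-180) 985, V.of 10000 8250 8550, V.of 10000 (-163) 102] = true := by
    decide +kernel
  obtain ⟨e, he, hp⟩ := chkT4 h (by norm_num) (x := w) (y := t) (z := s) (w := Y)
    (le_trans (by norm_num) a0) (le_trans b0 (by norm_num))
    (le_trans (by norm_num) a1) (le_trans b1 (by norm_num))
    (le_trans (by norm_num) a2) (le_trans b2 (by norm_num))
    (le_trans (by norm_num) a3) (le_trans b3 (by norm_num))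
  simp only [List.mem_cons, List.not_mem_nil, or_false] at he
  rcases he with rfl | rfl | rfl | rfl | rfl | rfl | rfl | rfl
  · simp only [E.val, NumI.lkR] at hp
    push_cast at hp
    try simp only [zero_div, div_one] at hp
    linarith only [u0, hS, hW, h1, hp]
  · simp only [E.val, NumI.lkR] at hp
    push_cast at hp
    try simp only [zero_div, div_one] at hp
    linarith only [u0, hS, h2, hp]
  · simp only [E.val, NumI.lkR] at hp
    push_cast at hp
    try simp only [zero_div, div_one] at hp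
    linarith only [u1, hS, hW, h1, hp]
  · simp only [E.val, NumI.lkR] at hp
    push_cast at hp
    try simp only [zero_div, div_one] at hp
    linarith only [u1, hS, h2, hp]
  · simp only [E.val, NumI.lkR] at hp
    push_cast at hp
    try simp only [zero_div, div_one] at hp
    linarith only [r4, hp]
  · simp only [E.val, NumI.lkR] at hp
    push_cast at hp
    try simp only [zero_div, div_one] at hp
    linarith only [r6, hp]
  · simp only [E.val, NumI.lkR] at hp
    push_cast at hp
    try simp only [zero_div, div_one] at hp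
    linarith only [x1, hp]
  · simp only [E.val, NumI.lkR] at hp
    push_cast at hp
    try simp only [zero_div, div_one] at hp
    linarith only [x0, hp]

/-- 200 boxes -/
theorem k_cfaw {w t s Y U S W : ℝ}
    (a0 : 200 / 10000 ≤ w) (b0 : w ≤ 1800 / 10000)
    (a1 : -(180 / 10000) ≤ t) (b1 : t ≤ 985 / 10000)
    (a2 : 8550 / 10000 ≤ s) (b2 : s ≤ 9850 / 10000)
    (a3 : -(117 / 10000) ≤ Y) (b3 : Y ≤ 73 / 10000)
    (r1 : w ≤ s) (r2 : s - w ≤ 86 / 100)
    (r3 : Y ≤ 907 / 1000 * (s - w)) (r4 : Y ≤ 29 / 100 * (86 / 100 - (s - w)))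
    (r5 : -(62 / 100 * (s - w)) ≤ Y) (r6 : -(465 / 1000 * (86 / 100 - (s - w))) ≤ Y)
    (x0 : 835 / 1000 ≤ s - w) (x1 : s - w ≤ 850 / 1000)
    (u0 : uu (30 / 1000) (t + Y) + Real.pi * (t + Y) ≤ U) (u1 : uu (30 / 1000) (t + Y) - Real.pi
      * (t + Y) ≤ U)
    (hS : -uu s Y ≤ S) (hW : uu w 0 ≤ W)
    (h1 : Real.pi * ((18 / 100 - w) * Y + t * (s - w - 1)) + U - uu (18 / 100) t + S + W < -(30
      / 1000) - 3927 / 1250 * t)
    (h2 : Real.pi * ((18 / 100 - w) * Y + t * (s - w - 1)) + U - uu (18 / 100) t + S < -(2039 /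
      10000) + 653 / 500 * w - 643 / 500 * t) : False := by
  have h : chkT [(.sub (.add (.add (.sub (.add (.mul .pi (.add (.mul (.sub (.q 18 100) (.var 0)) (.var 3))
      (.mul (.var 1) (.sub (.sub (.var 2) (.var 0)) (.q 1 1))))) (.add (.uu (.q 30 1000) (.add
      (.var 1) (.var 3))) (.mul .pi (.add (.var 1) (.var 3))))) (.uu (.q 18 100) (.var 1))) (.neg
      (.uu (.var 2) (.var 3)))) (.uu (.var 0) (.q 0 1))) (.add (.add (.q (-30) 1000) (.mul (.q 0
      1) (.var 0))) (.mul (.q (-3927) 1250) (.var 1)))), (.sub (.add (.sub (.add (.mul .pi (.add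
      (.mul (.sub (.q 18 100) (.var 0)) (.var 3)) (.mul (.var 1) (.sub (.sub (.var 2) (.var 0))
      (.q 1 1))))) (.add (.uu (.q 30 1000) (.add (.var 1) (.var 3))) (.mul .pi (.add (.var 1)
      (.var 3))))) (.uu (.q 18 100) (.var 1))) (.neg (.uu (.var 2) (.var 3)))) (.add (.add (.q
      (-2039) 10000) (.mul (.q 653 500) (.var 0))) (.mul (.q (-643) 500) (.var 1)))), (.sub (.add
      (.add (.sub (.add (.mul .pi (.add (.mul (.sub (.q 18 100) (.var 0)) (.var 3)) (.mul (.var 1)
      (.sub (.sub (.var 2) (.var 0)) (.q 1 1))))) (.sub (.uu (.q 30 1000) (.add (.var 1) (.var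
      3))) (.mul .pi (.add (.var 1) (.var 3))))) (.uu (.q 18 100) (.var 1))) (.neg (.uu (.var 2)
      (.var 3)))) (.uu (.var 0) (.q 0 1))) (.add (.add (.q (-30) 1000) (.mul (.q 0 1) (.var 0)))
      (.mul (.q (-3927) 1250) (.var 1)))), (.sub (.add (.sub (.add (.mul .pi (.add (.mul (.sub (.q
      18 100) (.var 0)) (.var 3)) (.mul (.var 1) (.sub (.sub (.var 2) (.var 0)) (.q 1 1))))) (.sub
      (.uu (.q 30 1000) (.add (.var 1) (.var 3))) (.mul .pi (.add (.var 1) (.var 3))))) (.uu (.q
      18 100) (.var 1))) (.neg (.uu (.var 2) (.var 3)))) (.add (.add (.q (-2039) 10000) (.mul (.q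
      653 500) (.var 0))) (.mul (.q (-643) 500) (.var 1)))), (.sub (.var 3) (.mul (.q 29 100)
      (.sub (.q 86 100) (.sub (.var 2) (.var 0))))), (.sub (.neg (.mul (.q 465 1000) (.sub (.q 86
      100) (.sub (.var 2) (.var 0))))) (.var 3)), (.sub (.sub (.var 2) (.var 0)) (.q 850 1000)),
      (.sub (.q 835 1000) (.sub (.var 2) (.var 0)))] 34
      1661250437726730780466599184563576535256542736942602404505696856554238924755481493437488626329002578208105639637608912361183188106858553579244170966181681585526079501702039651738476207228210179495053294843078196175658251945175622982798476472740127969306197984288235196242311370542964134620929450146843163723306920975755395534852332073381301531069500071595488503415482494095650711713304227743098769550786390675601090577006971228001919887053953469859526849715240693616893657213833474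
      [V.of 10000 200 1800, V.of 10000 (-180) 985, V.of 10000 8550 9850, V.of 10000 (-117) 73] = true :=
      Pool.Agent.Work.NumU.chkT_of k_cfaw_p1
  obtain ⟨e, he, hp⟩ := chkT4 h (by norm_num) (x := w) (y := t) (z := s) (w := Y)
    (le_trans (by norm_num) a0) (le_trans b0 (by norm_num))
    (le_trans (by norm_num) a1) (le_trans b1 (by norm_num))
    (le_trans (by norm_num) a2) (le_trans b2 (by norm_num))
    (le_trans (by norm_num) a3) (le_trans b3 (by norm_num))
  simp only [List.mem_cons, List.not_mem_nil, or_false] at he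
  rcases he with rfl | rfl | rfl | rfl | rfl | rfl | rfl | rfl
  · simp only [E.val, NumI.lkR] at hp
    push_cast at hp
    try simp only [zero_div, div_one] at hp
    linarith only [u0, hS, hW, h1, hp]
  · simp only [E.val, NumI.lkR] at hp
    push_cast at hp
    try simp only [zero_div, div_one] at hp
    linarith only [u0, hS, h2, hp]
  · simp only [E.val, NumI.lkR] at hp
    push_cast at hp
    try simp only [zero_div, div_one] at hp
    linarith only [u1, hS, hW, h1, hp]
  · simp only [E.val, NumI.lkR] at hp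
    push_cast at hp
    try simp only [zero_div, div_one] at hp
    linarith only [u1, hS, h2, hp]
  · simp only [E.val, NumI.lkR] at hp
    push_cast at hp
    try simp only [zero_div, div_one] at hp
    linarith only [r4, hp]
  · simp only [E.val, NumI.lkR] at hp
    push_cast at hp
    try simp only [zero_div, div_one] at hp
    linarith only [r6, hp]
  · simp only [E.val, NumI.lkR] at hp
    push_cast at hp
    try simp only [zero_div, div_one] at hp
    linarith only [x1, hp]
  · simp only [E.val, NumI.lkR] at hp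
    push_cast at hp
    try simp only [zero_div, div_one] at hp
    linarith only [x0, hp]

/-- 29 boxes -/
theorem k_cfbw {w t s Y U S W : ℝ}
    (a0 : 200 / 10000 ≤ w) (b0 : w ≤ 1800 / 10000)
    (a1 : -(180 / 10000) ≤ t) (b1 : t ≤ 985 / 10000)
    (a2 : 9850 / 10000 ≤ s) (b2 : s ≤ 9950 / 10000)
    (a3 : -(117 / 10000) ≤ Y) (b3 : Y ≤ 73 / 10000)
    (r1 : w ≤ s) (r2 : s - w ≤ 86 / 100)
    (r3 : Y ≤ 907 / 1000 * (s - w)) (r4 : Y ≤ 29 / 100 * (86 / 100 - (s - w)))
    (r5 : -(62 / 100 * (s - w)) ≤ Y) (r6 : -(465 / 1000 * (86 / 100 - (s - w))) ≤ Y)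
    (x0 : 835 / 1000 ≤ s - w) (x1 : s - w ≤ 850 / 1000)
    (u0 : uu (30 / 1000) (t + Y) + Real.pi * (t + Y) ≤ U) (u1 : uu (30 / 1000) (t + Y) - Real.pi
      * (t + Y) ≤ U)
    (hS : uu (15 / 1000) Y ≤ S) (hW : uu w 0 ≤ W)
    (h1 : Real.pi * ((18 / 100 - w) * Y + t * (s - w - 1)) + U - uu (18 / 100) t + S + W < -(30
      / 1000) - 3927 / 1250 * t)
    (h2 : Real.pi * ((18 / 100 - w) * Y + t * (s - w - 1)) + U - uu (18 / 100) t + S < -(2039 /
      10000) + 653 / 500 * w - 643 / 500 * t) : False := by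
  have h : chkT [(.sub (.add (.add (.sub (.add (.mul .pi (.add (.mul (.sub (.q 18 100) (.var 0)) (.var 3))
      (.mul (.var 1) (.sub (.sub (.var 2) (.var 0)) (.q 1 1))))) (.add (.uu (.q 30 1000) (.add
      (.var 1) (.var 3))) (.mul .pi (.add (.var 1) (.var 3))))) (.uu (.q 18 100) (.var 1))) (.uu
      (.q 15 1000) (.var 3))) (.uu (.var 0) (.q 0 1))) (.add (.add (.q (-30) 1000) (.mul (.q 0 1)
      (.var 0))) (.mul (.q (-3927) 1250) (.var 1)))), (.sub (.add (.sub (.add (.mul .pi (.add
      (.mul (.sub (.q 18 100) (.var 0)) (.var 3)) (.mul (.var 1) (.sub (.sub (.var 2) (.var 0))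
      (.q 1 1))))) (.add (.uu (.q 30 1000) (.add (.var 1) (.var 3))) (.mul .pi (.add (.var 1)
      (.var 3))))) (.uu (.q 18 100) (.var 1))) (.uu (.q 15 1000) (.var 3))) (.add (.add (.q
      (-2039) 10000) (.mul (.q 653 500) (.var 0))) (.mul (.q (-643) 500) (.var 1)))), (.sub (.add
      (.add (.sub (.add (.mul .pi (.add (.mul (.sub (.q 18 100) (.var 0)) (.var 3)) (.mul (.var 1)
      (.sub (.sub (.var 2) (.var 0)) (.q 1 1))))) (.sub (.uu (.q 30 1000) (.add (.var 1) (.var
      3))) (.mul .pi (.add (.var 1) (.var 3))))) (.uu (.q 18 100) (.var 1))) (.uu (.q 15 1000)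
      (.var 3))) (.uu (.var 0) (.q 0 1))) (.add (.add (.q (-30) 1000) (.mul (.q 0 1) (.var 0)))
      (.mul (.q (-3927) 1250) (.var 1)))), (.sub (.add (.sub (.add (.mul .pi (.add (.mul (.sub (.q
      18 100) (.var 0)) (.var 3)) (.mul (.var 1) (.sub (.sub (.var 2) (.var 0)) (.q 1 1))))) (.sub
      (.uu (.q 30 1000) (.add (.var 1) (.var 3))) (.mul .pi (.add (.var 1) (.var 3))))) (.uu (.q
      18 100) (.var 1))) (.uu (.q 15 1000) (.var 3))) (.add (.add (.q (-2039) 10000) (.mul (.q 653
      500) (.var 0))) (.mul (.q (-643) 500) (.var 1)))), (.sub (.var 3) (.mul (.q 29 100) (.sub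
      (.q 86 100) (.sub (.var 2) (.var 0))))), (.sub (.neg (.mul (.q 465 1000) (.sub (.q 86 100)
      (.sub (.var 2) (.var 0))))) (.var 3)), (.sub (.sub (.var 2) (.var 0)) (.q 850 1000)), (.sub
      (.q 835 1000) (.sub (.var 2) (.var 0)))] 34
      258815472735044418578276539064708393584949369203731057800688983650321
      [V.of 10000 200 1800, V.of 10000 (-180) 985, V.of 10000 9850 9950, V.of 10000 (-117) 73] = true :=
      Pool.Agent.Work.NumU.chkT_of k_cfbw_p1
  obtain ⟨e, he, hp⟩ := chkT4 h (by norm_num) (x := w) (y := t) (z := s) (w := Y)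
    (le_trans (by norm_num) a0) (le_trans b0 (by norm_num))
    (le_trans (by norm_num) a1) (le_trans b1 (by norm_num))
    (le_trans (by norm_num) a2) (le_trans b2 (by norm_num))
    (le_trans (by norm_num) a3) (le_trans b3 (by norm_num))
  simp only [List.mem_cons, List.not_mem_nil, or_false] at he
  rcases he with rfl | rfl | rfl | rfl | rfl | rfl | rfl | rfl
  · simp only [E.val, NumI.lkR] at hp
    push_cast at hp
    try simp only [zero_div, div_one] at hp
    linarith only [u0, hS, hW, h1, hp]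
  · simp only [E.val, NumI.lkR] at hp
    push_cast at hp
    try simp only [zero_div, div_one] at hp
    linarith only [u0, hS, h2, hp]
  · simp only [E.val, NumI.lkR] at hp
    push_cast at hp
    try simp only [zero_div, div_one] at hp
    linarith only [u1, hS, hW, h1, hp]
  · simp only [E.val, NumI.lkR] at hp
    push_cast at hp
    try simp only [zero_div, div_one] at hp
    linarith only [u1, hS, h2, hp]
  · simp only [E.val, NumI.lkR] at hp
    push_cast at hp
    try simp only [zero_div, div_one] at hp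
    linarith only [r4, hp]
  · simp only [E.val, NumI.lkR] at hp
    push_cast at hp
    try simp only [zero_div, div_one] at hp
    linarith only [r6, hp]
  · simp only [E.val, NumI.lkR] at hp
    push_cast at hp
    try simp only [zero_div, div_one] at hp
    linarith only [x1, hp]
  · simp only [E.val, NumI.lkR] at hp
    push_cast at hp
    try simp only [zero_div, div_one] at hp
    linarith only [x0, hp]

/-- 6 boxes -/
theorem k_cfcw {w t s Y U S W : ℝ}
    (a0 : 200 / 10000 ≤ w) (b0 : w ≤ 1800 / 10000)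
    (a1 : -(180 / 10000) ≤ t) (b1 : t ≤ 985 / 10000)
    (a2 : 9950 / 10000 ≤ s) (b2 : s ≤ 10050 / 10000)
    (a3 : -(117 / 10000) ≤ Y) (b3 : Y ≤ 73 / 10000)
    (r1 : w ≤ s) (r2 : s - w ≤ 86 / 100)
    (r3 : Y ≤ 907 / 1000 * (s - w)) (r4 : Y ≤ 29 / 100 * (86 / 100 - (s - w)))
    (r5 : -(62 / 100 * (s - w)) ≤ Y) (r6 : -(465 / 1000 * (86 / 100 - (s - w))) ≤ Y)
    (x0 : 835 / 1000 ≤ s - w) (x1 : s - w ≤ 850 / 1000)
    (u0 : uu (30 / 1000) (t + Y) + Real.pi * (t + Y) ≤ U) (u1 : uu (30 / 1000) (t + Y) - Real.pi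
      * (t + Y) ≤ U)
    (hS : uu (5 / 1000) Y ≤ S) (hW : uu w 0 ≤ W)
    (h1 : Real.pi * ((18 / 100 - w) * Y + t * (s - w - 1)) + U - uu (18 / 100) t + S + W < -(30
      / 1000) - 3927 / 1250 * t)
    (h2 : Real.pi * ((18 / 100 - w) * Y + t * (s - w - 1)) + U - uu (18 / 100) t + S < -(2039 /
      10000) + 653 / 500 * w - 643 / 500 * t) : False := by
  have h : chkT [(.sub (.add (.add (.sub (.add (.mul .pi (.add (.mul (.sub (.q 18 100) (.var 0)) (.var 3))
      (.mul (.var 1) (.sub (.sub (.var 2) (.var 0)) (.q 1 1))))) (.add (.uu (.q 30 1000) (.add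
      (.var 1) (.var 3))) (.mul .pi (.add (.var 1) (.var 3))))) (.uu (.q 18 100) (.var 1))) (.uu
      (.q 5 1000) (.var 3))) (.uu (.var 0) (.q 0 1))) (.add (.add (.q (-30) 1000) (.mul (.q 0 1)
      (.var 0))) (.mul (.q (-3927) 1250) (.var 1)))), (.sub (.add (.sub (.add (.mul .pi (.add
      (.mul (.sub (.q 18 100) (.var 0)) (.var 3)) (.mul (.var 1) (.sub (.sub (.var 2) (.var 0))
      (.q 1 1))))) (.add (.uu (.q 30 1000) (.add (.var 1) (.var 3))) (.mul .pi (.add (.var 1)
      (.var 3))))) (.uu (.q 18 100) (.var 1))) (.uu (.q 5 1000) (.var 3))) (.add (.add (.q (-2039)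
      10000) (.mul (.q 653 500) (.var 0))) (.mul (.q (-643) 500) (.var 1)))), (.sub (.add (.add
      (.sub (.add (.mul .pi (.add (.mul (.sub (.q 18 100) (.var 0)) (.var 3)) (.mul (.var 1) (.sub
      (.sub (.var 2) (.var 0)) (.q 1 1))))) (.sub (.uu (.q 30 1000) (.add (.var 1) (.var 3)))
      (.mul .pi (.add (.var 1) (.var 3))))) (.uu (.q 18 100) (.var 1))) (.uu (.q 5 1000) (.var
      3))) (.uu (.var 0) (.q 0 1))) (.add (.add (.q (-30) 1000) (.mul (.q 0 1) (.var 0))) (.mul
      (.q (-3927) 1250) (.var 1)))), (.sub (.add (.sub (.add (.mul .pi (.add (.mul (.sub (.q 18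
      100) (.var 0)) (.var 3)) (.mul (.var 1) (.sub (.sub (.var 2) (.var 0)) (.q 1 1))))) (.sub
      (.uu (.q 30 1000) (.add (.var 1) (.var 3))) (.mul .pi (.add (.var 1) (.var 3))))) (.uu (.q
      18 100) (.var 1))) (.uu (.q 5 1000) (.var 3))) (.add (.add (.q (-2039) 10000) (.mul (.q 653
      500) (.var 0))) (.mul (.q (-643) 500) (.var 1)))), (.sub (.var 3) (.mul (.q 29 100) (.sub
      (.q 86 100) (.sub (.var 2) (.var 0))))), (.sub (.neg (.mul (.q 465 1000) (.sub (.q 86 100)
      (.sub (.var 2) (.var 0))))) (.var 3)), (.sub (.sub (.var 2) (.var 0)) (.q 850 1000)), (.sub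
      (.q 835 1000) (.sub (.var 2) (.var 0)))] 34
      10555162211089
      [V.of 10000 200 1800, V.of 10000 (-180) 985, V.of 10000 9950 10050, V.of 10000 (-117) 73] = true := by
    decide +kernel
  obtain ⟨e, he, hp⟩ := chkT4 h (by norm_num) (x := w) (y := t) (z := s) (w := Y)
    (le_trans (by norm_num) a0) (le_trans b0 (by norm_num))
    (le_trans (by norm_num) a1) (le_trans b1 (by norm_num))
    (le_trans (by norm_num) a2) (le_trans b2 (by norm_num))
    (le_trans (by norm_num) a3) (le_trans b3 (by norm_num))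
  simp only [List.mem_cons, List.not_mem_nil, or_false] at he
  rcases he with rfl | rfl | rfl | rfl | rfl | rfl | rfl | rfl
  · simp only [E.val, NumI.lkR] at hp
    push_cast at hp
    try simp only [zero_div, div_one] at hp
    linarith only [u0, hS, hW, h1, hp]
  · simp only [E.val, NumI.lkR] at hp
    push_cast at hp
    try simp only [zero_div, div_one] at hp
    linarith only [u0, hS, h2, hp]
  · simp only [E.val, NumI.lkR] at hp
    push_cast at hp
    try simp only [zero_div, div_one] at hp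
    linarith only [u1, hS, hW, h1, hp]
  · simp only [E.val, NumI.lkR] at hp
    push_cast at hp
    try simp only [zero_div, div_one] at hp
    linarith only [u1, hS, h2, hp]
  · simp only [E.val, NumI.lkR] at hp
    push_cast at hp
    try simp only [zero_div, div_one] at hp
    linarith only [r4, hp]
  · simp only [E.val, NumI.lkR] at hp
    push_cast at hp
    try simp only [zero_div, div_one] at hp
    linarith only [r6, hp]
  · simp only [E.val, NumI.lkR] at hp
    push_cast at hp
    try simp only [zero_div, div_one] at hp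
    linarith only [x1, hp]
  · simp only [E.val, NumI.lkR] at hp
    push_cast at hp
    try simp only [zero_div, div_one] at hp
    linarith only [x0, hp]

end E1

end TL

end Pool.Agent.Work.MP_b30479_gt.G2
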