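import Pool.Agent.Work.MP_b30479_gt.G2.TE1Cs3

/-!
# Tails, rows `E1`, `E2`: certificates (class two, `w ≤ 18/100`)

Variables: `w`, `t`, `s = w + X`, `Y`.  `U`, `S`, `W` stand for `uu (18/100 + X) (t + Y)`, `-uu s Y`,
`uu w 0`.
-/

set_option linter.unusedVariables false
set_option linter.unusedSimpArgs false
set_option linter.unusedTactic false
set_option linter.unreachableTactic false

namespace Pool.Agent.Work.MP_b30479_gt.G2

open NumU
open NumU.E
open NumI (V)

namespace TL

namespace E1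

/-- 4 boxes -/
theorem k_cfpw {w t s Y U S W : ℝ}
    (a0 : 200 / 10000 ≤ w) (b0 : w ≤ 1800 / 10000)
    (a1 : -(180 / 10000) ≤ t) (b1 : t ≤ 985 / 10000)
    (a2 : 10050 / 10000 ≤ s) (b2 : s ≤ 10300 / 10000)
    (a3 : 0 ≤ Y) (b3 : Y ≤ 73 / 10000)
    (r1 : w ≤ s) (r2 : s - w ≤ 86 / 100)
    (r3 : Y ≤ 907 / 1000 * (s - w)) (r4 : Y ≤ 29 / 100 * (86 / 100 - (s - w)))
    (r5 : -(62 / 100 * (s - w)) ≤ Y) (r6 : -(465 / 1000 * (86 / 100 - (s - w))) ≤ Y)
    (x0 : 835 / 1000 ≤ s - w) (x1 : s - w ≤ 850 / 1000)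
    (u0 : uu (30 / 1000) (t + Y) + Real.pi * (t + Y) ≤ U) (u1 : uu (30 / 1000) (t + Y) - Real.pi
      * (t + Y) ≤ U)
    (hS : -uu (5 / 1000) Y - Real.pi * Y ≤ S) (hW : uu w 0 ≤ W)
    (h1 : Real.pi * ((18 / 100 - w) * Y + t * (s - w - 1)) + U - uu (18 / 100) t + S + W < -(30
      / 1000) - 3927 / 1250 * t)
    (h2 : Real.pi * ((18 / 100 - w) * Y + t * (s - w - 1)) + U - uu (18 / 100) t + S < -(2039 /
      10000) + 653 / 500 * w - 643 / 500 * t) : False := by
  have h : chkT [(.sub (.add (.add (.sub (.add (.mul .pi (.add (.mul (.sub (.q 18 100) (.var 0)) (.var 3))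
      (.mul (.var 1) (.sub (.sub (.var 2) (.var 0)) (.q 1 1))))) (.add (.uu (.q 30 1000) (.add
      (.var 1) (.var 3))) (.mul .pi (.add (.var 1) (.var 3))))) (.uu (.q 18 100) (.var 1))) (.sub
      (.neg (.uu (.q 5 1000) (.var 3))) (.mul .pi (.var 3)))) (.uu (.var 0) (.q 0 1))) (.add (.add
      (.q (-30) 1000) (.mul (.q 0 1) (.var 0))) (.mul (.q (-3927) 1250) (.var 1)))), (.sub (.add
      (.sub (.add (.mul .pi (.add (.mul (.sub (.q 18 100) (.var 0)) (.var 3)) (.mul (.var 1) (.sub
      (.sub (.var 2) (.var 0)) (.q 1 1))))) (.add (.uu (.q 30 1000) (.add (.var 1) (.var 3)))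
      (.mul .pi (.add (.var 1) (.var 3))))) (.uu (.q 18 100) (.var 1))) (.sub (.neg (.uu (.q 5
      1000) (.var 3))) (.mul .pi (.var 3)))) (.add (.add (.q (-2039) 10000) (.mul (.q 653 500)
      (.var 0))) (.mul (.q (-643) 500) (.var 1)))), (.sub (.add (.add (.sub (.add (.mul .pi (.add
      (.mul (.sub (.q 18 100) (.var 0)) (.var 3)) (.mul (.var 1) (.sub (.sub (.var 2) (.var 0))
      (.q 1 1))))) (.sub (.uu (.q 30 1000) (.add (.var 1) (.var 3))) (.mul .pi (.add (.var 1)
      (.var 3))))) (.uu (.q 18 100) (.var 1))) (.sub (.neg (.uu (.q 5 1000) (.var 3))) (.mul .pi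
      (.var 3)))) (.uu (.var 0) (.q 0 1))) (.add (.add (.q (-30) 1000) (.mul (.q 0 1) (.var 0)))
      (.mul (.q (-3927) 1250) (.var 1)))), (.sub (.add (.sub (.add (.mul .pi (.add (.mul (.sub (.q
      18 100) (.var 0)) (.var 3)) (.mul (.var 1) (.sub (.sub (.var 2) (.var 0)) (.q 1 1))))) (.sub
      (.uu (.q 30 1000) (.add (.var 1) (.var 3))) (.mul .pi (.add (.var 1) (.var 3))))) (.uu (.q
      18 100) (.var 1))) (.sub (.neg (.uu (.q 5 1000) (.var 3))) (.mul .pi (.var 3)))) (.add (.add
      (.q (-2039) 10000) (.mul (.q 653 500) (.var 0))) (.mul (.q (-643) 500) (.var 1)))), (.sub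
      (.var 3) (.mul (.q 29 100) (.sub (.q 86 100) (.sub (.var 2) (.var 0))))), (.sub (.neg (.mul
      (.q 465 1000) (.sub (.q 86 100) (.sub (.var 2) (.var 0))))) (.var 3)), (.sub (.sub (.var 2)
      (.var 0)) (.q 850 1000)), (.sub (.q 835 1000) (.sub (.var 2) (.var 0)))] 34
      161067281
      [V.of 10000 200 1800, V.of 10000 (-180) 985, V.of 10000 10050 10300, V.of 10000 0 73] = true := by
    decide +kernel
  obtain ⟨e, he, hp⟩ := chkT4 h (by norm_num) (x := w) (y := t) (z := s) (w := Y)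
    (le_trans (by norm_num) a0) (le_trans b0 (by norm_num))
    (le_trans (by norm_num) a1) (le_trans b1 (by norm_num))
    (le_trans (by norm_num) a2) (le_trans b2 (by norm_num))
    (le_trans (by norm_num) a3) (le_trans b3 (by norm_num))
  simp only [List.mem_cons, List.not_mem_nil, or_false] at he
  rcases he with rfl | rfl | rfl | rfl | rfl | rfl | rfl | rfl
  · simp only [E.val, NumI.lkR] at hp
    push_cast at hp
    try simp only [zero_div, div_one] at hp
    linarith only [u0, hS, hW, h1, hp]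
  · simp only [E.val, NumI.lkR] at hp
    push_cast at hp
    try simp only [zero_div, div_one] at hp
    linarith only [u0, hS, h2, hp]
  · simp only [E.val, NumI.lkR] at hp
    push_cast at hp
    try simp only [zero_div, div_one] at hp
    linarith only [u1, hS, hW, h1, hp]
  · simp only [E.val, NumI.lkR] at hp
    push_cast at hp
    try simp only [zero_div, div_one] at hp
    linarith only [u1, hS, h2, hp]
  · simp only [E.val, NumI.lkR] at hp
    push_cast at hp
    try simp only [zero_div, div_one] at hp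
    linarith only [r4, hp]
  · simp only [E.val, NumI.lkR] at hp
    push_cast at hp
    try simp only [zero_div, div_one] at hp
    linarith only [a3, x1, hp]
  · simp only [E.val, NumI.lkR] at hp
    push_cast at hp
    try simp only [zero_div, div_one] at hp
    linarith only [x1, hp]
  · simp only [E.val, NumI.lkR] at hp
    push_cast at hp
    try simp only [zero_div, div_one] at hp
    linarith only [x0, hp]

/-- 3 boxes -/
theorem k_cfnw {w t s Y U S W : ℝ}
    (a0 : 200 / 10000 ≤ w) (b0 : w ≤ 1800 / 10000)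
    (a1 : -(180 / 10000) ≤ t) (b1 : t ≤ 985 / 10000)
    (a2 : 10050 / 10000 ≤ s) (b2 : s ≤ 10300 / 10000)
    (a3 : -(117 / 10000) ≤ Y) (b3 : Y ≤ 0)
    (r1 : w ≤ s) (r2 : s - w ≤ 86 / 100)
    (r3 : Y ≤ 907 / 1000 * (s - w)) (r4 : Y ≤ 29 / 100 * (86 / 100 - (s - w)))
    (r5 : -(62 / 100 * (s - w)) ≤ Y) (r6 : -(465 / 1000 * (86 / 100 - (s - w))) ≤ Y)
    (x0 : 835 / 1000 ≤ s - w) (x1 : s - w ≤ 850 / 1000)
    (u0 : uu (30 / 1000) (t + Y) + Real.pi * (t + Y) ≤ U) (u1 : uu (30 / 1000) (t + Y) - Real.pi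
      * (t + Y) ≤ U)
    (hS : -uu (5 / 1000) Y + Real.pi * Y ≤ S) (hW : uu w 0 ≤ W)
    (h1 : Real.pi * ((18 / 100 - w) * Y + t * (s - w - 1)) + U - uu (18 / 100) t + S + W < -(30
      / 1000) - 3927 / 1250 * t)
    (h2 : Real.pi * ((18 / 100 - w) * Y + t * (s - w - 1)) + U - uu (18 / 100) t + S < -(2039 /
      10000) + 653 / 500 * w - 643 / 500 * t) : False := by
  have h : chkT [(.sub (.add (.add (.sub (.add (.mul .pi (.add (.mul (.sub (.q 18 100) (.var 0)) (.var 3))
      (.mul (.var 1) (.sub (.sub (.var 2) (.var 0)) (.q 1 1))))) (.add (.uu (.q 30 1000) (.add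
      (.var 1) (.var 3))) (.mul .pi (.add (.var 1) (.var 3))))) (.uu (.q 18 100) (.var 1))) (.add
      (.neg (.uu (.q 5 1000) (.var 3))) (.mul .pi (.var 3)))) (.uu (.var 0) (.q 0 1))) (.add (.add
      (.q (-30) 1000) (.mul (.q 0 1) (.var 0))) (.mul (.q (-3927) 1250) (.var 1)))), (.sub (.add
      (.sub (.add (.mul .pi (.add (.mul (.sub (.q 18 100) (.var 0)) (.var 3)) (.mul (.var 1) (.sub
      (.sub (.var 2) (.var 0)) (.q 1 1))))) (.add (.uu (.q 30 1000) (.add (.var 1) (.var 3)))
      (.mul .pi (.add (.var 1) (.var 3))))) (.uu (.q 18 100) (.var 1))) (.add (.neg (.uu (.q 5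
      1000) (.var 3))) (.mul .pi (.var 3)))) (.add (.add (.q (-2039) 10000) (.mul (.q 653 500)
      (.var 0))) (.mul (.q (-643) 500) (.var 1)))), (.sub (.add (.add (.sub (.add (.mul .pi (.add
      (.mul (.sub (.q 18 100) (.var 0)) (.var 3)) (.mul (.var 1) (.sub (.sub (.var 2) (.var 0))
      (.q 1 1))))) (.sub (.uu (.q 30 1000) (.add (.var 1) (.var 3))) (.mul .pi (.add (.var 1)
      (.var 3))))) (.uu (.q 18 100) (.var 1))) (.add (.neg (.uu (.q 5 1000) (.var 3))) (.mul .pi
      (.var 3)))) (.uu (.var 0) (.q 0 1))) (.add (.add (.q (-30) 1000) (.mul (.q 0 1) (.var 0)))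
      (.mul (.q (-3927) 1250) (.var 1)))), (.sub (.add (.sub (.add (.mul .pi (.add (.mul (.sub (.q
      18 100) (.var 0)) (.var 3)) (.mul (.var 1) (.sub (.sub (.var 2) (.var 0)) (.q 1 1))))) (.sub
      (.uu (.q 30 1000) (.add (.var 1) (.var 3))) (.mul .pi (.add (.var 1) (.var 3))))) (.uu (.q
      18 100) (.var 1))) (.add (.neg (.uu (.q 5 1000) (.var 3))) (.mul .pi (.var 3)))) (.add (.add
      (.q (-2039) 10000) (.mul (.q 653 500) (.var 0))) (.mul (.q (-643) 500) (.var 1)))), (.sub
      (.var 3) (.mul (.q 29 100) (.sub (.q 86 100) (.sub (.var 2) (.var 0))))), (.sub (.neg (.mul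
      (.q 465 1000) (.sub (.q 86 100) (.sub (.var 2) (.var 0))))) (.var 3)), (.sub (.sub (.var 2)
      (.var 0)) (.q 850 1000)), (.sub (.q 835 1000) (.sub (.var 2) (.var 0)))] 34
      629521
      [V.of 10000 200 1800, V.of 10000 (-180) 985, V.of 10000 10050 10300, V.of 10000 (-117) 0] = true := by
    decide +kernel
  obtain ⟨e, he, hp⟩ := chkT4 h (by norm_num) (x := w) (y := t) (z := s) (w := Y)
    (le_trans (by norm_num) a0) (le_trans b0 (by norm_num))
    (le_trans (by norm_num) a1) (le_trans b1 (by norm_num))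
    (le_trans (by norm_num) a2) (le_trans b2 (by norm_num))
    (le_trans (by norm_num) a3) (le_trans b3 (by norm_num))
  simp only [List.mem_cons, List.not_mem_nil, or_false] at he
  rcases he with rfl | rfl | rfl | rfl | rfl | rfl | rfl | rfl
  · simp only [E.val, NumI.lkR] at hp
    push_cast at hp
    try simp only [zero_div, div_one] at hp
    linarith only [u0, hS, hW, h1, hp]
  · simp only [E.val, NumI.lkR] at hp
    push_cast at hp
    try simp only [zero_div, div_one] at hp
    linarith only [u0, hS, h2, hp]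
  · simp only [E.val, NumI.lkR] at hp
    push_cast at hp
    try simp only [zero_div, div_one] at hp
    linarith only [u1, hS, hW, h1, hp]
  · simp only [E.val, NumI.lkR] at hp
    push_cast at hp
    try simp only [zero_div, div_one] at hp
    linarith only [u1, hS, h2, hp]
  · simp only [E.val, NumI.lkR] at hp
    push_cast at hp
    try simp only [zero_div, div_one] at hp
    linarith only [b3, x1, hp]
  · simp only [E.val, NumI.lkR] at hp
    push_cast at hp
    try simp only [zero_div, div_one] at hp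
    linarith only [r6, hp]
  · simp only [E.val, NumI.lkR] at hp
    push_cast at hp
    try simp only [zero_div, div_one] at hp
    linarith only [x1, hp]
  · simp only [E.val, NumI.lkR] at hp
    push_cast at hp
    try simp only [zero_div, div_one] at hp
    linarith only [x0, hp]

/-- 3 boxes -/
theorem k_cfav {w t s Y U S W : ℝ}
    (a0 : 0 ≤ w) (b0 : w ≤ 200 / 10000)
    (a1 : -(180 / 10000) ≤ t) (b1 : t ≤ 985 / 10000)
    (a2 : 8350 / 10000 ≤ s) (b2 : s ≤ 8700 / 10000)
    (a3 : -(117 / 10000) ≤ Y) (b3 : Y ≤ 73 / 10000)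
    (r1 : w ≤ s) (r2 : s - w ≤ 86 / 100)
    (r3 : Y ≤ 907 / 1000 * (s - w)) (r4 : Y ≤ 29 / 100 * (86 / 100 - (s - w)))
    (r5 : -(62 / 100 * (s - w)) ≤ Y) (r6 : -(465 / 1000 * (86 / 100 - (s - w))) ≤ Y)
    (x0 : 835 / 1000 ≤ s - w) (x1 : s - w ≤ 850 / 1000)
    (u0 : uu (30 / 1000) (t + Y) + Real.pi * (t + Y) ≤ U) (u1 : uu (30 / 1000) (t + Y) - Real.pi
      * (t + Y) ≤ U)
    (hS : -uu s Y ≤ S) (hW : uu (2 / 100) 0 ≤ W)
    (h1 : Real.pi * ((18 / 100 - w) * Y + t * (s - w - 1)) + U - uu (18 / 100) t + S + W < -(30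
      / 1000) - 3927 / 1250 * t)
    (h2 : Real.pi * ((18 / 100 - w) * Y + t * (s - w - 1)) + U - uu (18 / 100) t + S < -(2039 /
      10000) + 653 / 500 * w - 643 / 500 * t) : False := by
  have h : chkT [(.sub (.add (.add (.sub (.add (.mul .pi (.add (.mul (.sub (.q 18 100) (.var 0)) (.var 3))
      (.mul (.var 1) (.sub (.sub (.var 2) (.var 0)) (.q 1 1))))) (.add (.uu (.q 30 1000) (.add
      (.var 1) (.var 3))) (.mul .pi (.add (.var 1) (.var 3))))) (.uu (.q 18 100) (.var 1))) (.neg
      (.uu (.var 2) (.var 3)))) (.uu (.q 2 100) (.q 0 1))) (.add (.add (.q (-30) 1000) (.mul (.q 0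
      1) (.var 0))) (.mul (.q (-3927) 1250) (.var 1)))), (.sub (.add (.sub (.add (.mul .pi (.add
      (.mul (.sub (.q 18 100) (.var 0)) (.var 3)) (.mul (.var 1) (.sub (.sub (.var 2) (.var 0))
      (.q 1 1))))) (.add (.uu (.q 30 1000) (.add (.var 1) (.var 3))) (.mul .pi (.add (.var 1)
      (.var 3))))) (.uu (.q 18 100) (.var 1))) (.neg (.uu (.var 2) (.var 3)))) (.add (.add (.q
      (-2039) 10000) (.mul (.q 653 500) (.var 0))) (.mul (.q (-643) 500) (.var 1)))), (.sub (.add
      (.add (.sub (.add (.mul .pi (.add (.mul (.sub (.q 18 100) (.var 0)) (.var 3)) (.mul (.var 1)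
      (.sub (.sub (.var 2) (.var 0)) (.q 1 1))))) (.sub (.uu (.q 30 1000) (.add (.var 1) (.var
      3))) (.mul .pi (.add (.var 1) (.var 3))))) (.uu (.q 18 100) (.var 1))) (.neg (.uu (.var 2)
      (.var 3)))) (.uu (.q 2 100) (.q 0 1))) (.add (.add (.q (-30) 1000) (.mul (.q 0 1) (.var 0)))
      (.mul (.q (-3927) 1250) (.var 1)))), (.sub (.add (.sub (.add (.mul .pi (.add (.mul (.sub (.q
      18 100) (.var 0)) (.var 3)) (.mul (.var 1) (.sub (.sub (.var 2) (.var 0)) (.q 1 1))))) (.sub
      (.uu (.q 30 1000) (.add (.var 1) (.var 3))) (.mul .pi (.add (.var 1) (.var 3))))) (.uu (.q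
      18 100) (.var 1))) (.neg (.uu (.var 2) (.var 3)))) (.add (.add (.q (-2039) 10000) (.mul (.q
      653 500) (.var 0))) (.mul (.q (-643) 500) (.var 1)))), (.sub (.var 3) (.mul (.q 29 100)
      (.sub (.q 86 100) (.sub (.var 2) (.var 0))))), (.sub (.neg (.mul (.q 465 1000) (.sub (.q 86
      100) (.sub (.var 2) (.var 0))))) (.var 3)), (.sub (.sub (.var 2) (.var 0)) (.q 850 1000)),
      (.sub (.q 835 1000) (.sub (.var 2) (.var 0)))] 34
      563985
      [V.of 10000 0 200, V.of 10000 (-180) 985, V.of 10000 8350 8700, V.of 10000 (-117) 73] = true := by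
    decide +kernel
  obtain ⟨e, he, hp⟩ := chkT4 h (by norm_num) (x := w) (y := t) (z := s) (w := Y)
    (le_trans (by norm_num) a0) (le_trans b0 (by norm_num))
    (le_trans (by norm_num) a1) (le_trans b1 (by norm_num))
    (le_trans (by norm_num) a2) (le_trans b2 (by norm_num))
    (le_trans (by norm_num) a3) (le_trans b3 (by norm_num))
  simp only [List.mem_cons, List.not_mem_nil, or_false] at he
  rcases he with rfl | rfl | rfl | rfl | rfl | rfl | rfl | rfl
  · simp only [E.val, NumI.lkR] at hp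
    push_cast at hp
    try simp only [zero_div, div_one] at hp
    linarith only [u0, hS, hW, h1, hp]
  · simp only [E.val, NumI.lkR] at hp
    push_cast at hp
    try simp only [zero_div, div_one] at hp
    linarith only [u0, hS, h2, hp]
  · simp only [E.val, NumI.lkR] at hp
    push_cast at hp
    try simp only [zero_div, div_one] at hp
    linarith only [u1, hS, hW, h1, hp]
  · simp only [E.val, NumI.lkR] at hp
    push_cast at hp
    try simp only [zero_div, div_one] at hp
    linarith only [u1, hS, h2, hp]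
  · simp only [E.val, NumI.lkR] at hp
    push_cast at hp
    try simp only [zero_div, div_one] at hp
    linarith only [r4, hp]
  · simp only [E.val, NumI.lkR] at hp
    push_cast at hp
    try simp only [zero_div, div_one] at hp
    linarith only [r6, hp]
  · simp only [E.val, NumI.lkR] at hp
    push_cast at hp
    try simp only [zero_div, div_one] at hp
    linarith only [x1, hp]
  · simp only [E.val, NumI.lkR] at hp
    push_cast at hp
    try simp only [zero_div, div_one] at hp
    linarith only [x0, hp]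

/-- 74 boxes -/
theorem k_cgaw {w t s Y U S W : ℝ}
    (a0 : 200 / 10000 ≤ w) (b0 : w ≤ 1800 / 10000)
    (a1 : -(180 / 10000) ≤ t) (b1 : t ≤ 985 / 10000)
    (a2 : 8700 / 10000 ≤ s) (b2 : s ≤ 9850 / 10000)
    (a3 : -(47 / 10000) ≤ Y) (b3 : Y ≤ 29 / 10000)
    (r1 : w ≤ s) (r2 : s - w ≤ 86 / 100)
    (r3 : Y ≤ 907 / 1000 * (s - w)) (r4 : Y ≤ 29 / 100 * (86 / 100 - (s - w)))
    (r5 : -(62 / 100 * (s - w)) ≤ Y) (r6 : -(465 / 1000 * (86 / 100 - (s - w))) ≤ Y)
    (x0 : 850 / 1000 ≤ s - w) (x1 : s - w ≤ 860 / 1000)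
    (u0 : uu (40 / 1000) (t + Y) + Real.pi * (t + Y) ≤ U) (u1 : uu (40 / 1000) (t + Y) - Real.pi
      * (t + Y) ≤ U)
    (hS : -uu s Y ≤ S) (hW : uu w 0 ≤ W)
    (h1 : Real.pi * ((18 / 100 - w) * Y + t * (s - w - 1)) + U - uu (18 / 100) t + S + W < -(30
      / 1000) - 3927 / 1250 * t)
    (h2 : Real.pi * ((18 / 100 - w) * Y + t * (s - w - 1)) + U - uu (18 / 100) t + S < -(2039 /
      10000) + 653 / 500 * w - 643 / 500 * t) : False := by
  have h : chkT [(.sub (.add (.add (.sub (.add (.mul .pi (.add (.mul (.sub (.q 18 100) (.var 0)) (.var 3))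
      (.mul (.var 1) (.sub (.sub (.var 2) (.var 0)) (.q 1 1))))) (.add (.uu (.q 40 1000) (.add
      (.var 1) (.var 3))) (.mul .pi (.add (.var 1) (.var 3))))) (.uu (.q 18 100) (.var 1))) (.neg
      (.uu (.var 2) (.var 3)))) (.uu (.var 0) (.q 0 1))) (.add (.add (.q (-30) 1000) (.mul (.q 0
      1) (.var 0))) (.mul (.q (-3927) 1250) (.var 1)))), (.sub (.add (.sub (.add (.mul .pi (.add
      (.mul (.sub (.q 18 100) (.var 0)) (.var 3)) (.mul (.var 1) (.sub (.sub (.var 2) (.var 0))
      (.q 1 1))))) (.add (.uu (.q 40 1000) (.add (.var 1) (.var 3))) (.mul .pi (.add (.var 1)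
      (.var 3))))) (.uu (.q 18 100) (.var 1))) (.neg (.uu (.var 2) (.var 3)))) (.add (.add (.q
      (-2039) 10000) (.mul (.q 653 500) (.var 0))) (.mul (.q (-643) 500) (.var 1)))), (.sub (.add
      (.add (.sub (.add (.mul .pi (.add (.mul (.sub (.q 18 100) (.var 0)) (.var 3)) (.mul (.var 1)
      (.sub (.sub (.var 2) (.var 0)) (.q 1 1))))) (.sub (.uu (.q 40 1000) (.add (.var 1) (.var
      3))) (.mul .pi (.add (.var 1) (.var 3))))) (.uu (.q 18 100) (.var 1))) (.neg (.uu (.var 2)
      (.var 3)))) (.uu (.var 0) (.q 0 1))) (.add (.add (.q (-30) 1000) (.mul (.q 0 1) (.var 0)))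
      (.mul (.q (-3927) 1250) (.var 1)))), (.sub (.add (.sub (.add (.mul .pi (.add (.mul (.sub (.q
      18 100) (.var 0)) (.var 3)) (.mul (.var 1) (.sub (.sub (.var 2) (.var 0)) (.q 1 1))))) (.sub
      (.uu (.q 40 1000) (.add (.var 1) (.var 3))) (.mul .pi (.add (.var 1) (.var 3))))) (.uu (.q
      18 100) (.var 1))) (.neg (.uu (.var 2) (.var 3)))) (.add (.add (.q (-2039) 10000) (.mul (.q
      653 500) (.var 0))) (.mul (.q (-643) 500) (.var 1)))), (.sub (.var 3) (.mul (.q 29 100)
      (.sub (.q 86 100) (.sub (.var 2) (.var 0))))), (.sub (.neg (.mul (.q 465 1000) (.sub (.q 86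
      100) (.sub (.var 2) (.var 0))))) (.var 3)), (.sub (.sub (.var 2) (.var 0)) (.q 860 1000)),
      (.sub (.q 850 1000) (.sub (.var 2) (.var 0)))] 34
      607693670557682864098686329665116860271472871981160509667494122589870927328474947611383670629139827949250413506665678838163408796995973763555167290050123478560432087156121407746
      [V.of 10000 200 1800, V.of 10000 (-180) 985, V.of 10000 8700 9850, V.of 10000 (-47) 29] = true :=
      Pool.Agent.Work.NumU.chkT_of k_cgaw_p1
  obtain ⟨e, he, hp⟩ := chkT4 h (by norm_num) (x := w) (y := t) (z := s) (w := Y)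
    (le_trans (by norm_num) a0) (le_trans b0 (by norm_num))
    (le_trans (by norm_num) a1) (le_trans b1 (by norm_num))
    (le_trans (by norm_num) a2) (le_trans b2 (by norm_num))
    (le_trans (by norm_num) a3) (le_trans b3 (by norm_num))
  simp only [List.mem_cons, List.not_mem_nil, or_false] at he
  rcases he with rfl | rfl | rfl | rfl | rfl | rfl | rfl | rfl
  · simp only [E.val, NumI.lkR] at hp
    push_cast at hp
    try simp only [zero_div, div_one] at hp
    linarith only [u0, hS, hW, h1, hp]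
  · simp only [E.val, NumI.lkR] at hp
    push_cast at hp
    try simp only [zero_div, div_one] at hp
    linarith only [u0, hS, h2, hp]
  · simp only [E.val, NumI.lkR] at hp
    push_cast at hp
    try simp only [zero_div, div_one] at hp
    linarith only [u1, hS, hW, h1, hp]
  · simp only [E.val, NumI.lkR] at hp
    push_cast at hp
    try simp only [zero_div, div_one] at hp
    linarith only [u1, hS, h2, hp]
  · simp only [E.val, NumI.lkR] at hp
    push_cast at hp
    try simp only [zero_div, div_one] at hp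
    linarith only [r4, hp]
  · simp only [E.val, NumI.lkR] at hp
    push_cast at hp
    try simp only [zero_div, div_one] at hp
    linarith only [r6, hp]
  · simp only [E.val, NumI.lkR] at hp
    push_cast at hp
    try simp only [zero_div, div_one] at hp
    linarith only [r2, hp]
  · simp only [E.val, NumI.lkR] at hp
    push_cast at hp
    try simp only [zero_div, div_one] at hp
    linarith only [x0, hp]

/-- 11 boxes -/
theorem k_cgbw {w t s Y U S W : ℝ}
    (a0 : 200 / 10000 ≤ w) (b0 : w ≤ 1800 / 10000)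
    (a1 : -(180 / 10000) ≤ t) (b1 : t ≤ 985 / 10000)
    (a2 : 9850 / 10000 ≤ s) (b2 : s ≤ 9950 / 10000)
    (a3 : -(47 / 10000) ≤ Y) (b3 : Y ≤ 29 / 10000)
    (r1 : w ≤ s) (r2 : s - w ≤ 86 / 100)
    (r3 : Y ≤ 907 / 1000 * (s - w)) (r4 : Y ≤ 29 / 100 * (86 / 100 - (s - w)))
    (r5 : -(62 / 100 * (s - w)) ≤ Y) (r6 : -(465 / 1000 * (86 / 100 - (s - w))) ≤ Y)
    (x0 : 850 / 1000 ≤ s - w) (x1 : s - w ≤ 860 / 1000)
    (u0 : uu (40 / 1000) (t + Y) + Real.pi * (t + Y) ≤ U) (u1 : uu (40 / 1000) (t + Y) - Real.pi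
      * (t + Y) ≤ U)
    (hS : uu (15 / 1000) Y ≤ S) (hW : uu w 0 ≤ W)
    (h1 : Real.pi * ((18 / 100 - w) * Y + t * (s - w - 1)) + U - uu (18 / 100) t + S + W < -(30
      / 1000) - 3927 / 1250 * t)
    (h2 : Real.pi * ((18 / 100 - w) * Y + t * (s - w - 1)) + U - uu (18 / 100) t + S < -(2039 /
      10000) + 653 / 500 * w - 643 / 500 * t) : False := by
  have h : chkT [(.sub (.add (.add (.sub (.add (.mul .pi (.add (.mul (.sub (.q 18 100) (.var 0)) (.var 3))
      (.mul (.var 1) (.sub (.sub (.var 2) (.var 0)) (.q 1 1))))) (.add (.uu (.q 40 1000) (.add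
      (.var 1) (.var 3))) (.mul .pi (.add (.var 1) (.var 3))))) (.uu (.q 18 100) (.var 1))) (.uu
      (.q 15 1000) (.var 3))) (.uu (.var 0) (.q 0 1))) (.add (.add (.q (-30) 1000) (.mul (.q 0 1)
      (.var 0))) (.mul (.q (-3927) 1250) (.var 1)))), (.sub (.add (.sub (.add (.mul .pi (.add
      (.mul (.sub (.q 18 100) (.var 0)) (.var 3)) (.mul (.var 1) (.sub (.sub (.var 2) (.var 0))
      (.q 1 1))))) (.add (.uu (.q 40 1000) (.add (.var 1) (.var 3))) (.mul .pi (.add (.var 1)
      (.var 3))))) (.uu (.q 18 100) (.var 1))) (.uu (.q 15 1000) (.var 3))) (.add (.add (.q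
      (-2039) 10000) (.mul (.q 653 500) (.var 0))) (.mul (.q (-643) 500) (.var 1)))), (.sub (.add
      (.add (.sub (.add (.mul .pi (.add (.mul (.sub (.q 18 100) (.var 0)) (.var 3)) (.mul (.var 1)
      (.sub (.sub (.var 2) (.var 0)) (.q 1 1))))) (.sub (.uu (.q 40 1000) (.add (.var 1) (.var
      3))) (.mul .pi (.add (.var 1) (.var 3))))) (.uu (.q 18 100) (.var 1))) (.uu (.q 15 1000)
      (.var 3))) (.uu (.var 0) (.q 0 1))) (.add (.add (.q (-30) 1000) (.mul (.q 0 1) (.var 0)))
      (.mul (.q (-3927) 1250) (.var 1)))), (.sub (.add (.sub (.add (.mul .pi (.add (.mul (.sub (.q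
      18 100) (.var 0)) (.var 3)) (.mul (.var 1) (.sub (.sub (.var 2) (.var 0)) (.q 1 1))))) (.sub
      (.uu (.q 40 1000) (.add (.var 1) (.var 3))) (.mul .pi (.add (.var 1) (.var 3))))) (.uu (.q
      18 100) (.var 1))) (.uu (.q 15 1000) (.var 3))) (.add (.add (.q (-2039) 10000) (.mul (.q 653
      500) (.var 0))) (.mul (.q (-643) 500) (.var 1)))), (.sub (.var 3) (.mul (.q 29 100) (.sub
      (.q 86 100) (.sub (.var 2) (.var 0))))), (.sub (.neg (.mul (.q 465 1000) (.sub (.q 86 100)
      (.sub (.var 2) (.var 0))))) (.var 3)), (.sub (.sub (.var 2) (.var 0)) (.q 860 1000)), (.sub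
      (.q 850 1000) (.sub (.var 2) (.var 0)))] 34
      11603149141928426414845969
      [V.of 10000 200 1800, V.of 10000 (-180) 985, V.of 10000 9850 9950, V.of 10000 (-47) 29] = true := by
    decide +kernel
  obtain ⟨e, he, hp⟩ := chkT4 h (by norm_num) (x := w) (y := t) (z := s) (w := Y)
    (le_trans (by norm_num) a0) (le_trans b0 (by norm_num))
    (le_trans (by norm_num) a1) (le_trans b1 (by norm_num))
    (le_trans (by norm_num) a2) (le_trans b2 (by norm_num))
    (le_trans (by norm_num) a3) (le_trans b3 (by norm_num))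
  simp only [List.mem_cons, List.not_mem_nil, or_false] at he
  rcases he with rfl | rfl | rfl | rfl | rfl | rfl | rfl | rfl
  · simp only [E.val, NumI.lkR] at hp
    push_cast at hp
    try simp only [zero_div, div_one] at hp
    linarith only [u0, hS, hW, h1, hp]
  · simp only [E.val, NumI.lkR] at hp
    push_cast at hp
    try simp only [zero_div, div_one] at hp
    linarith only [u0, hS, h2, hp]
  · simp only [E.val, NumI.lkR] at hp
    push_cast at hp
    try simp only [zero_div, div_one] at hp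
    linarith only [u1, hS, hW, h1, hp]
  · simp only [E.val, NumI.lkR] at hp
    push_cast at hp
    try simp only [zero_div, div_one] at hp
    linarith only [u1, hS, h2, hp]
  · simp only [E.val, NumI.lkR] at hp
    push_cast at hp
    try simp only [zero_div, div_one] at hp
    linarith only [r4, hp]
  · simp only [E.val, NumI.lkR] at hp
    push_cast at hp
    try simp only [zero_div, div_one] at hp
    linarith only [r6, hp]
  · simp only [E.val, NumI.lkR] at hp
    push_cast at hp
    try simp only [zero_div, div_one] at hp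
    linarith only [r2, hp]
  · simp only [E.val, NumI.lkR] at hp
    push_cast at hp
    try simp only [zero_div, div_one] at hp
    linarith only [x0, hp]

/-- 7 boxes -/
theorem k_cgcw {w t s Y U S W : ℝ}
    (a0 : 200 / 10000 ≤ w) (b0 : w ≤ 1800 / 10000)
    (a1 : -(180 / 10000) ≤ t) (b1 : t ≤ 985 / 10000)
    (a2 : 9950 / 10000 ≤ s) (b2 : s ≤ 10050 / 10000)
    (a3 : -(47 / 10000) ≤ Y) (b3 : Y ≤ 29 / 10000)
    (r1 : w ≤ s) (r2 : s - w ≤ 86 / 100)
    (r3 : Y ≤ 907 / 1000 * (s - w)) (r4 : Y ≤ 29 / 100 * (86 / 100 - (s - w)))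
    (r5 : -(62 / 100 * (s - w)) ≤ Y) (r6 : -(465 / 1000 * (86 / 100 - (s - w))) ≤ Y)
    (x0 : 850 / 1000 ≤ s - w) (x1 : s - w ≤ 860 / 1000)
    (u0 : uu (40 / 1000) (t + Y) + Real.pi * (t + Y) ≤ U) (u1 : uu (40 / 1000) (t + Y) - Real.pi
      * (t + Y) ≤ U)
    (hS : uu (5 / 1000) Y ≤ S) (hW : uu w 0 ≤ W)
    (h1 : Real.pi * ((18 / 100 - w) * Y + t * (s - w - 1)) + U - uu (18 / 100) t + S + W < -(30
      / 1000) - 3927 / 1250 * t)
    (h2 : Real.pi * ((18 / 100 - w) * Y + t * (s - w - 1)) + U - uu (18 / 100) t + S < -(2039 /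
      10000) + 653 / 500 * w - 643 / 500 * t) : False := by
  have h : chkT [(.sub (.add (.add (.sub (.add (.mul .pi (.add (.mul (.sub (.q 18 100) (.var 0)) (.var 3))
      (.mul (.var 1) (.sub (.sub (.var 2) (.var 0)) (.q 1 1))))) (.add (.uu (.q 40 1000) (.add
      (.var 1) (.var 3))) (.mul .pi (.add (.var 1) (.var 3))))) (.uu (.q 18 100) (.var 1))) (.uu
      (.q 5 1000) (.var 3))) (.uu (.var 0) (.q 0 1))) (.add (.add (.q (-30) 1000) (.mul (.q 0 1)
      (.var 0))) (.mul (.q (-3927) 1250) (.var 1)))), (.sub (.add (.sub (.add (.mul .pi (.add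
      (.mul (.sub (.q 18 100) (.var 0)) (.var 3)) (.mul (.var 1) (.sub (.sub (.var 2) (.var 0))
      (.q 1 1))))) (.add (.uu (.q 40 1000) (.add (.var 1) (.var 3))) (.mul .pi (.add (.var 1)
      (.var 3))))) (.uu (.q 18 100) (.var 1))) (.uu (.q 5 1000) (.var 3))) (.add (.add (.q (-2039)
      10000) (.mul (.q 653 500) (.var 0))) (.mul (.q (-643) 500) (.var 1)))), (.sub (.add (.add
      (.sub (.add (.mul .pi (.add (.mul (.sub (.q 18 100) (.var 0)) (.var 3)) (.mul (.var 1) (.sub
      (.sub (.var 2) (.var 0)) (.q 1 1))))) (.sub (.uu (.q 40 1000) (.add (.var 1) (.var 3)))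
      (.mul .pi (.add (.var 1) (.var 3))))) (.uu (.q 18 100) (.var 1))) (.uu (.q 5 1000) (.var
      3))) (.uu (.var 0) (.q 0 1))) (.add (.add (.q (-30) 1000) (.mul (.q 0 1) (.var 0))) (.mul
      (.q (-3927) 1250) (.var 1)))), (.sub (.add (.sub (.add (.mul .pi (.add (.mul (.sub (.q 18
      100) (.var 0)) (.var 3)) (.mul (.var 1) (.sub (.sub (.var 2) (.var 0)) (.q 1 1))))) (.sub
      (.uu (.q 40 1000) (.add (.var 1) (.var 3))) (.mul .pi (.add (.var 1) (.var 3))))) (.uu (.q
      18 100) (.var 1))) (.uu (.q 5 1000) (.var 3))) (.add (.add (.q (-2039) 10000) (.mul (.q 653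
      500) (.var 0))) (.mul (.q (-643) 500) (.var 1)))), (.sub (.var 3) (.mul (.q 29 100) (.sub
      (.q 86 100) (.sub (.var 2) (.var 0))))), (.sub (.neg (.mul (.q 465 1000) (.sub (.q 86 100)
      (.sub (.var 2) (.var 0))))) (.var 3)), (.sub (.sub (.var 2) (.var 0)) (.q 860 1000)), (.sub
      (.q 850 1000) (.sub (.var 2) (.var 0)))] 34
      2702166245617937
      [V.of 10000 200 1800, V.of 10000 (-180) 985, V.of 10000 9950 10050, V.of 10000 (-47) 29] = true := by
    decide +kernel
  obtain ⟨e, he, hp⟩ := chkT4 h (by norm_num) (x := w) (y := t) (z := s) (w := Y)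
    (le_trans (by norm_num) a0) (le_trans b0 (by norm_num))
    (le_trans (by norm_num) a1) (le_trans b1 (by norm_num))
    (le_trans (by norm_num) a2) (le_trans b2 (by norm_num))
    (le_trans (by norm_num) a3) (le_trans b3 (by norm_num))
  simp only [List.mem_cons, List.not_mem_nil, or_false] at he
  rcases he with rfl | rfl | rfl | rfl | rfl | rfl | rfl | rfl
  · simp only [E.val, NumI.lkR] at hp
    push_cast at hp
    try simp only [zero_div, div_one] at hp
    linarith only [u0, hS, hW, h1, hp]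
  · simp only [E.val, NumI.lkR] at hp
    push_cast at hp
    try simp only [zero_div, div_one] at hp
    linarith only [u0, hS, h2, hp]
  · simp only [E.val, NumI.lkR] at hp
    push_cast at hp
    try simp only [zero_div, div_one] at hp
    linarith only [u1, hS, hW, h1, hp]
  · simp only [E.val, NumI.lkR] at hp
    push_cast at hp
    try simp only [zero_div, div_one] at hp
    linarith only [u1, hS, h2, hp]
  · simp only [E.val, NumI.lkR] at hp
    push_cast at hp
    try simp only [zero_div, div_one] at hp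
    linarith only [r4, hp]
  · simp only [E.val, NumI.lkR] at hp
    push_cast at hp
    try simp only [zero_div, div_one] at hp
    linarith only [r6, hp]
  · simp only [E.val, NumI.lkR] at hp
    push_cast at hp
    try simp only [zero_div, div_one] at hp
    linarith only [r2, hp]
  · simp only [E.val, NumI.lkR] at hp
    push_cast at hp
    try simp only [zero_div, div_one] at hp
    linarith only [x0, hp]

/-- 3 boxes -/
theorem k_cgpw {w t s Y U S W : ℝ}
    (a0 : 200 / 10000 ≤ w) (b0 : w ≤ 1800 / 10000)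
    (a1 : -(180 / 10000) ≤ t) (b1 : t ≤ 985 / 10000)
    (a2 : 10050 / 10000 ≤ s) (b2 : s ≤ 10400 / 10000)
    (a3 : 0 ≤ Y) (b3 : Y ≤ 29 / 10000)
    (r1 : w ≤ s) (r2 : s - w ≤ 86 / 100)
    (r3 : Y ≤ 907 / 1000 * (s - w)) (r4 : Y ≤ 29 / 100 * (86 / 100 - (s - w)))
    (r5 : -(62 / 100 * (s - w)) ≤ Y) (r6 : -(465 / 1000 * (86 / 100 - (s - w))) ≤ Y)
    (x0 : 850 / 1000 ≤ s - w) (x1 : s - w ≤ 860 / 1000)
    (u0 : uu (40 / 1000) (t + Y) + Real.pi * (t + Y) ≤ U) (u1 : uu (40 / 1000) (t + Y) - Real.pi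
      * (t + Y) ≤ U)
    (hS : -uu (5 / 1000) Y - Real.pi * Y ≤ S) (hW : uu w 0 ≤ W)
    (h1 : Real.pi * ((18 / 100 - w) * Y + t * (s - w - 1)) + U - uu (18 / 100) t + S + W < -(30
      / 1000) - 3927 / 1250 * t)
    (h2 : Real.pi * ((18 / 100 - w) * Y + t * (s - w - 1)) + U - uu (18 / 100) t + S < -(2039 /
      10000) + 653 / 500 * w - 643 / 500 * t) : False := by
  have h : chkT [(.sub (.add (.add (.sub (.add (.mul .pi (.add (.mul (.sub (.q 18 100) (.var 0)) (.var 3))
      (.mul (.var 1) (.sub (.sub (.var 2) (.var 0)) (.q 1 1))))) (.add (.uu (.q 40 1000) (.add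
      (.var 1) (.var 3))) (.mul .pi (.add (.var 1) (.var 3))))) (.uu (.q 18 100) (.var 1))) (.sub
      (.neg (.uu (.q 5 1000) (.var 3))) (.mul .pi (.var 3)))) (.uu (.var 0) (.q 0 1))) (.add (.add
      (.q (-30) 1000) (.mul (.q 0 1) (.var 0))) (.mul (.q (-3927) 1250) (.var 1)))), (.sub (.add
      (.sub (.add (.mul .pi (.add (.mul (.sub (.q 18 100) (.var 0)) (.var 3)) (.mul (.var 1) (.sub
      (.sub (.var 2) (.var 0)) (.q 1 1))))) (.add (.uu (.q 40 1000) (.add (.var 1) (.var 3)))
      (.mul .pi (.add (.var 1) (.var 3))))) (.uu (.q 18 100) (.var 1))) (.sub (.neg (.uu (.q 5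
      1000) (.var 3))) (.mul .pi (.var 3)))) (.add (.add (.q (-2039) 10000) (.mul (.q 653 500)
      (.var 0))) (.mul (.q (-643) 500) (.var 1)))), (.sub (.add (.add (.sub (.add (.mul .pi (.add
      (.mul (.sub (.q 18 100) (.var 0)) (.var 3)) (.mul (.var 1) (.sub (.sub (.var 2) (.var 0))
      (.q 1 1))))) (.sub (.uu (.q 40 1000) (.add (.var 1) (.var 3))) (.mul .pi (.add (.var 1)
      (.var 3))))) (.uu (.q 18 100) (.var 1))) (.sub (.neg (.uu (.q 5 1000) (.var 3))) (.mul .pi
      (.var 3)))) (.uu (.var 0) (.q 0 1))) (.add (.add (.q (-30) 1000) (.mul (.q 0 1) (.var 0)))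
      (.mul (.q (-3927) 1250) (.var 1)))), (.sub (.add (.sub (.add (.mul .pi (.add (.mul (.sub (.q
      18 100) (.var 0)) (.var 3)) (.mul (.var 1) (.sub (.sub (.var 2) (.var 0)) (.q 1 1))))) (.sub
      (.uu (.q 40 1000) (.add (.var 1) (.var 3))) (.mul .pi (.add (.var 1) (.var 3))))) (.uu (.q
      18 100) (.var 1))) (.sub (.neg (.uu (.q 5 1000) (.var 3))) (.mul .pi (.var 3)))) (.add (.add
      (.q (-2039) 10000) (.mul (.q 653 500) (.var 0))) (.mul (.q (-643) 500) (.var 1)))), (.sub
      (.var 3) (.mul (.q 29 100) (.sub (.q 86 100) (.sub (.var 2) (.var 0))))), (.sub (.neg (.mul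
      (.q 465 1000) (.sub (.q 86 100) (.sub (.var 2) (.var 0))))) (.var 3)), (.sub (.sub (.var 2)
      (.var 0)) (.q 860 1000)), (.sub (.q 850 1000) (.sub (.var 2) (.var 0)))] 34
      629521
      [V.of 10000 200 1800, V.of 10000 (-180) 985, V.of 10000 10050 10400, V.of 10000 0 29] = true := by
    decide +kernel
  obtain ⟨e, he, hp⟩ := chkT4 h (by norm_num) (x := w) (y := t) (z := s) (w := Y)
    (le_trans (by norm_num) a0) (le_trans b0 (by norm_num))
    (le_trans (by norm_num) a1) (le_trans b1 (by norm_num))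
    (le_trans (by norm_num) a2) (le_trans b2 (by norm_num))
    (le_trans (by norm_num) a3) (le_trans b3 (by norm_num))
  simp only [List.mem_cons, List.not_mem_nil, or_false] at he
  rcases he with rfl | rfl | rfl | rfl | rfl | rfl | rfl | rfl
  · simp only [E.val, NumI.lkR] at hp
    push_cast at hp
    try simp only [zero_div, div_one] at hp
    linarith only [u0, hS, hW, h1, hp]
  · simp only [E.val, NumI.lkR] at hp
    push_cast at hp
    try simp only [zero_div, div_one] at hp
    linarith only [u0, hS, h2, hp]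
  · simp only [E.val, NumI.lkR] at hp
    push_cast at hp
    try simp only [zero_div, div_one] at hp
    linarith only [u1, hS, hW, h1, hp]
  · simp only [E.val, NumI.lkR] at hp
    push_cast at hp
    try simp only [zero_div, div_one] at hp
    linarith only [u1, hS, h2, hp]
  · simp only [E.val, NumI.lkR] at hp
    push_cast at hp
    try simp only [zero_div, div_one] at hp
    linarith only [r4, hp]
  · simp only [E.val, NumI.lkR] at hp
    push_cast at hp
    try simp only [zero_div, div_one] at hp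
    linarith only [a3, r2, hp]
  · simp only [E.val, NumI.lkR] at hp
    push_cast at hp
    try simp only [zero_div, div_one] at hp
    linarith only [r2, hp]
  · simp only [E.val, NumI.lkR] at hp
    push_cast at hp
    try simp only [zero_div, div_one] at hp
    linarith only [x0, hp]

/-- 3 boxes -/
theorem k_cgnw {w t s Y U S W : ℝ}
    (a0 : 200 / 10000 ≤ w) (b0 : w ≤ 1800 / 10000)
    (a1 : -(180 / 10000) ≤ t) (b1 : t ≤ 985 / 10000)
    (a2 : 10050 / 10000 ≤ s) (b2 : s ≤ 10400 / 10000)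
    (a3 : -(47 / 10000) ≤ Y) (b3 : Y ≤ 0)
    (r1 : w ≤ s) (r2 : s - w ≤ 86 / 100)
    (r3 : Y ≤ 907 / 1000 * (s - w)) (r4 : Y ≤ 29 / 100 * (86 / 100 - (s - w)))
    (r5 : -(62 / 100 * (s - w)) ≤ Y) (r6 : -(465 / 1000 * (86 / 100 - (s - w))) ≤ Y)
    (x0 : 850 / 1000 ≤ s - w) (x1 : s - w ≤ 860 / 1000)
    (u0 : uu (40 / 1000) (t + Y) + Real.pi * (t + Y) ≤ U) (u1 : uu (40 / 1000) (t + Y) - Real.pi
      * (t + Y) ≤ U)
    (hS : -uu (5 / 1000) Y + Real.pi * Y ≤ S) (hW : uu w 0 ≤ W)
    (h1 : Real.pi * ((18 / 100 - w) * Y + t * (s - w - 1)) + U - uu (18 / 100) t + S + W < -(30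
      / 1000) - 3927 / 1250 * t)
    (h2 : Real.pi * ((18 / 100 - w) * Y + t * (s - w - 1)) + U - uu (18 / 100) t + S < -(2039 /
      10000) + 653 / 500 * w - 643 / 500 * t) : False := by
  have h : chkT [(.sub (.add (.add (.sub (.add (.mul .pi (.add (.mul (.sub (.q 18 100) (.var 0)) (.var 3))
      (.mul (.var 1) (.sub (.sub (.var 2) (.var 0)) (.q 1 1))))) (.add (.uu (.q 40 1000) (.add
      (.var 1) (.var 3))) (.mul .pi (.add (.var 1) (.var 3))))) (.uu (.q 18 100) (.var 1))) (.add
      (.neg (.uu (.q 5 1000) (.var 3))) (.mul .pi (.var 3)))) (.uu (.var 0) (.q 0 1))) (.add (.add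
      (.q (-30) 1000) (.mul (.q 0 1) (.var 0))) (.mul (.q (-3927) 1250) (.var 1)))), (.sub (.add
      (.sub (.add (.mul .pi (.add (.mul (.sub (.q 18 100) (.var 0)) (.var 3)) (.mul (.var 1) (.sub
      (.sub (.var 2) (.var 0)) (.q 1 1))))) (.add (.uu (.q 40 1000) (.add (.var 1) (.var 3)))
      (.mul .pi (.add (.var 1) (.var 3))))) (.uu (.q 18 100) (.var 1))) (.add (.neg (.uu (.q 5
      1000) (.var 3))) (.mul .pi (.var 3)))) (.add (.add (.q (-2039) 10000) (.mul (.q 653 500)
      (.var 0))) (.mul (.q (-643) 500) (.var 1)))), (.sub (.add (.add (.sub (.add (.mul .pi (.add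
      (.mul (.sub (.q 18 100) (.var 0)) (.var 3)) (.mul (.var 1) (.sub (.sub (.var 2) (.var 0))
      (.q 1 1))))) (.sub (.uu (.q 40 1000) (.add (.var 1) (.var 3))) (.mul .pi (.add (.var 1)
      (.var 3))))) (.uu (.q 18 100) (.var 1))) (.add (.neg (.uu (.q 5 1000) (.var 3))) (.mul .pi
      (.var 3)))) (.uu (.var 0) (.q 0 1))) (.add (.add (.q (-30) 1000) (.mul (.q 0 1) (.var 0)))
      (.mul (.q (-3927) 1250) (.var 1)))), (.sub (.add (.sub (.add (.mul .pi (.add (.mul (.sub (.q
      18 100) (.var 0)) (.var 3)) (.mul (.var 1) (.sub (.sub (.var 2) (.var 0)) (.q 1 1))))) (.sub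
      (.uu (.q 40 1000) (.add (.var 1) (.var 3))) (.mul .pi (.add (.var 1) (.var 3))))) (.uu (.q
      18 100) (.var 1))) (.add (.neg (.uu (.q 5 1000) (.var 3))) (.mul .pi (.var 3)))) (.add (.add
      (.q (-2039) 10000) (.mul (.q 653 500) (.var 0))) (.mul (.q (-643) 500) (.var 1)))), (.sub
      (.var 3) (.mul (.q 29 100) (.sub (.q 86 100) (.sub (.var 2) (.var 0))))), (.sub (.neg (.mul
      (.q 465 1000) (.sub (.q 86 100) (.sub (.var 2) (.var 0))))) (.var 3)), (.sub (.sub (.var 2)
      (.var 0)) (.q 860 1000)), (.sub (.q 850 1000) (.sub (.var 2) (.var 0)))] 34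
      629521
      [V.of 10000 200 1800, V.of 10000 (-180) 985, V.of 10000 10050 10400, V.of 10000 (-47) 0] = true := by
    decide +kernel
  obtain ⟨e, he, hp⟩ := chkT4 h (by norm_num) (x := w) (y := t) (z := s) (w := Y)
    (le_trans (by norm_num) a0) (le_trans b0 (by norm_num))
    (le_trans (by norm_num) a1) (le_trans b1 (by norm_num))
    (le_trans (by norm_num) a2) (le_trans b2 (by norm_num))
    (le_trans (by norm_num) a3) (le_trans b3 (by norm_num))
  simp only [List.mem_cons, List.not_mem_nil, or_false] at he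
  rcases he with rfl | rfl | rfl | rfl | rfl | rfl | rfl | rfl
  · simp only [E.val, NumI.lkR] at hp
    push_cast at hp
    try simp only [zero_div, div_one] at hp
    linarith only [u0, hS, hW, h1, hp]
  · simp only [E.val, NumI.lkR] at hp
    push_cast at hp
    try simp only [zero_div, div_one] at hp
    linarith only [u0, hS, h2, hp]
  · simp only [E.val, NumI.lkR] at hp
    push_cast at hp
    try simp only [zero_div, div_one] at hp
    linarith only [u1, hS, hW, h1, hp]
  · simp only [E.val, NumI.lkR] at hp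
    push_cast at hp
    try simp only [zero_div, div_one] at hp
    linarith only [u1, hS, h2, hp]
  · simp only [E.val, NumI.lkR] at hp
    push_cast at hp
    try simp only [zero_div, div_one] at hp
    linarith only [b3, r2, hp]
  · simp only [E.val, NumI.lkR] at hp
    push_cast at hp
    try simp only [zero_div, div_one] at hp
    linarith only [r6, hp]
  · simp only [E.val, NumI.lkR] at hp
    push_cast at hp
    try simp only [zero_div, div_one] at hp
    linarith only [r2, hp]
  · simp only [E.val, NumI.lkR] at hp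
    push_cast at hp
    try simp only [zero_div, div_one] at hp
    linarith only [x0, hp]

/-- 3 boxes -/
theorem k_cgav {w t s Y U S W : ℝ}
    (a0 : 0 ≤ w) (b0 : w ≤ 200 / 10000)
    (a1 : -(180 / 10000) ≤ t) (b1 : t ≤ 985 / 10000)
    (a2 : 8500 / 10000 ≤ s) (b2 : s ≤ 8800 / 10000)
    (a3 : -(47 / 10000) ≤ Y) (b3 : Y ≤ 29 / 10000)
    (r1 : w ≤ s) (r2 : s - w ≤ 86 / 100)
    (r3 : Y ≤ 907 / 1000 * (s - w)) (r4 : Y ≤ 29 / 100 * (86 / 100 - (s - w)))
    (r5 : -(62 / 100 * (s - w)) ≤ Y) (r6 : -(465 / 1000 * (86 / 100 - (s - w))) ≤ Y)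
    (x0 : 850 / 1000 ≤ s - w) (x1 : s - w ≤ 860 / 1000)
    (u0 : uu (40 / 1000) (t + Y) + Real.pi * (t + Y) ≤ U) (u1 : uu (40 / 1000) (t + Y) - Real.pi
      * (t + Y) ≤ U)
    (hS : -uu s Y ≤ S) (hW : uu (2 / 100) 0 ≤ W)
    (h1 : Real.pi * ((18 / 100 - w) * Y + t * (s - w - 1)) + U - uu (18 / 100) t + S + W < -(30
      / 1000) - 3927 / 1250 * t)
    (h2 : Real.pi * ((18 / 100 - w) * Y + t * (s - w - 1)) + U - uu (18 / 100) t + S < -(2039 /
      10000) + 653 / 500 * w - 643 / 500 * t) : False := by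
  have h : chkT [(.sub (.add (.add (.sub (.add (.mul .pi (.add (.mul (.sub (.q 18 100) (.var 0)) (.var 3))
      (.mul (.var 1) (.sub (.sub (.var 2) (.var 0)) (.q 1 1))))) (.add (.uu (.q 40 1000) (.add
      (.var 1) (.var 3))) (.mul .pi (.add (.var 1) (.var 3))))) (.uu (.q 18 100) (.var 1))) (.neg
      (.uu (.var 2) (.var 3)))) (.uu (.q 2 100) (.q 0 1))) (.add (.add (.q (-30) 1000) (.mul (.q 0
      1) (.var 0))) (.mul (.q (-3927) 1250) (.var 1)))), (.sub (.add (.sub (.add (.mul .pi (.add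
      (.mul (.sub (.q 18 100) (.var 0)) (.var 3)) (.mul (.var 1) (.sub (.sub (.var 2) (.var 0))
      (.q 1 1))))) (.add (.uu (.q 40 1000) (.add (.var 1) (.var 3))) (.mul .pi (.add (.var 1)
      (.var 3))))) (.uu (.q 18 100) (.var 1))) (.neg (.uu (.var 2) (.var 3)))) (.add (.add (.q
      (-2039) 10000) (.mul (.q 653 500) (.var 0))) (.mul (.q (-643) 500) (.var 1)))), (.sub (.add
      (.add (.sub (.add (.mul .pi (.add (.mul (.sub (.q 18 100) (.var 0)) (.var 3)) (.mul (.var 1)
      (.sub (.sub (.var 2) (.var 0)) (.q 1 1))))) (.sub (.uu (.q 40 1000) (.add (.var 1) (.var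
      3))) (.mul .pi (.add (.var 1) (.var 3))))) (.uu (.q 18 100) (.var 1))) (.neg (.uu (.var 2)
      (.var 3)))) (.uu (.q 2 100) (.q 0 1))) (.add (.add (.q (-30) 1000) (.mul (.q 0 1) (.var 0)))
      (.mul (.q (-3927) 1250) (.var 1)))), (.sub (.add (.sub (.add (.mul .pi (.add (.mul (.sub (.q
      18 100) (.var 0)) (.var 3)) (.mul (.var 1) (.sub (.sub (.var 2) (.var 0)) (.q 1 1))))) (.sub
      (.uu (.q 40 1000) (.add (.var 1) (.var 3))) (.mul .pi (.add (.var 1) (.var 3))))) (.uu (.q
      18 100) (.var 1))) (.neg (.uu (.var 2) (.var 3)))) (.add (.add (.q (-2039) 10000) (.mul (.q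
      653 500) (.var 0))) (.mul (.q (-643) 500) (.var 1)))), (.sub (.var 3) (.mul (.q 29 100)
      (.sub (.q 86 100) (.sub (.var 2) (.var 0))))), (.sub (.neg (.mul (.q 465 1000) (.sub (.q 86
      100) (.sub (.var 2) (.var 0))))) (.var 3)), (.sub (.sub (.var 2) (.var 0)) (.q 860 1000)),
      (.sub (.q 850 1000) (.sub (.var 2) (.var 0)))] 34
      563985
      [V.of 10000 0 200, V.of 10000 (-180) 985, V.of 10000 8500 8800, V.of 10000 (-47) 29] = true := by
    decide +kernel
  obtain ⟨e, he, hp⟩ := chkT4 h (by norm_num) (x := w) (y := t) (z := s) (w := Y)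
    (le_trans (by norm_num) a0) (le_trans b0 (by norm_num))
    (le_trans (by norm_num) a1) (le_trans b1 (by norm_num))
    (le_trans (by norm_num) a2) (le_trans b2 (by norm_num))
    (le_trans (by norm_num) a3) (le_trans b3 (by norm_num))
  simp only [List.mem_cons, List.not_mem_nil, or_false] at he
  rcases he with rfl | rfl | rfl | rfl | rfl | rfl | rfl | rfl
  · simp only [E.val, NumI.lkR] at hp
    push_cast at hp
    try simp only [zero_div, div_one] at hp
    linarith only [u0, hS, hW, h1, hp]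
  · simp only [E.val, NumI.lkR] at hp
    push_cast at hp
    try simp only [zero_div, div_one] at hp
    linarith only [u0, hS, h2, hp]
  · simp only [E.val, NumI.lkR] at hp
    push_cast at hp
    try simp only [zero_div, div_one] at hp
    linarith only [u1, hS, hW, h1, hp]
  · simp only [E.val, NumI.lkR] at hp
    push_cast at hp
    try simp only [zero_div, div_one] at hp
    linarith only [u1, hS, h2, hp]
  · simp only [E.val, NumI.lkR] at hp
    push_cast at hp
    try simp only [zero_div, div_one] at hp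
    linarith only [r4, hp]
  · simp only [E.val, NumI.lkR] at hp
    push_cast at hp
    try simp only [zero_div, div_one] at hp
    linarith only [r6, hp]
  · simp only [E.val, NumI.lkR] at hp
    push_cast at hp
    try simp only [zero_div, div_one] at hp
    linarith only [r2, hp]
  · simp only [E.val, NumI.lkR] at hp
    push_cast at hp
    try simp only [zero_div, div_one] at hp
    linarith only [x0, hp]

end E1

end TL

end Pool.Agent.Work.MP_b30479_gt.G2
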