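import Pool.Agent.Work.MP_b30479_gt.G2.TE1Cg1
import Pool.Agent.Work.MP_b30479_gt.G2.TE1Cg2
import Pool.Agent.Work.MP_b30479_gt.G2.TE1Cg3

/-!
# Tails, rows `E1`, `E2`: certificates (class two, `w ≤ 18/100`)

Variables: `w`, `t`, `s = w + X`, `Y`.  `U`, `S`, `W` stand for `uu (18/100 + X) (t + Y)`, `-uu s Y`,
`uu w 0`.
-/
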