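import Pool.Agent.Work.MP_b30479_gt.G2.TE1u
import Pool.Agent.Work.MP_b30479_gt.G2.TE1v
import Pool.Agent.Work.MP_b30479_gt.G2.TE1w
import Pool.Agent.Work.MP_b30479_gt.G2.TE1x

/-!
# Tails: the change of the value of an untouched region of class one next to class one or two
-/
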