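import Pool.Agent.Work.NumU.TreeS

/-!
# Pieces of the certificates of `TE1B`, part 2
-/

set_option linter.unusedVariables false
set_option linter.unusedSimpArgs false
set_option linter.unusedTactic false
set_option linter.unreachableTactic false
namespace Pool.Agent.Work.MP_b30479_gt.G2
open NumU
open NumU.E
open NumI (V)
namespace TL
namespace E1

theorem k_dxn0_p1 : Pool.Agent.Work.NumU.runT [(.sub (.add (.sub (.add (.mul .pi (.add (.mul (.sub (.q 18 100) (.var 0)) (.var 3)) (.mul (.var 1) (.sub (.sub (.var 2) (.var 0)) (.q 1 1))))) (.uu (.add (.q 18 100) (.sub (.var 2) (.var 0))) (.add (.var 1) (.var 3)))) (.uu (.q 18 100) (.var 1))) (.add (.neg (.uu (.q 5 1000) (.var 3))) (.mul .pi (.var 3)))) (.add (.add (.q 137 625) (.mul (.q (-1019) 1000) (.var 0))) (.mul (.q (-1071) 500) (.var 1)))), (.sub (.var 0) (.var 2)), (.sub (.sub (.var 2) (.var 0)) (.q 86 100)), (.sub (.var 3) (.mul (.q 907 1000) (.sub (.var 2) (.var 0)))), (.sub (.var 3) (.mul (.q 29 100) (.sub (.q 86 100) (.sub (.var 2) (.var 0))))), (.sub (.neg (.mul (.q 62 100) (.sub (.var 2)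 (.var 0)))) (.var 3)), (.sub (.neg (.mul (.q 465 1000) (.sub (.q 86 100) (.sub (.var 2) (.var 0))))) (.var 3)), (.sub (.sub (.var 2) (.var 0)) (.q 790 1000))] 34
    10751474543100214227464382706809140316441994877812786027072175561929987193739247767336104480872055050866991662794728068572538321938469479705077378868226299450115955018211681304454697273821629039977739948182682047334400228113778505207190539949866897842928031691719745246413455998308394327513433486181722856025617179278907387773539748021443690138818835452731735933613271727508826275816407705262319724497984098954618925222381023319094652976034916566211574252562104191833798311645607667166170876211660930151307728861123496356544080024544153463090432901408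
    ([V.of 10000 1800 4000, V.of 10000 (-180) 985, V.of 10000 10050 11900, V.of 10000 (-930) 0]) =
    1 := by
  decide +kernel

theorem k_dba0_p1 : Pool.Agent.Work.NumU.runT [(.sub (.add (.sub (.add (.mul .pi (.add (.mul (.sub (.q 18 100) (.var 0)) (.var 3)) (.mul (.var 1) (.sub (.sub (.var 2) (.var 0)) (.q 1 1))))) (.uu (.q 995 1000) (.add (.var 1) (.var 3)))) (.uu (.q 18 100) (.var 1))) (.neg (.uu (.var 2) (.var 3)))) (.add (.add (.q 137 625) (.mul (.q (-1019) 1000) (.var 0))) (.mul (.q (-1071) 500) (.var 1)))), (.sub (.var 0) (.var 2)), (.sub (.sub (.var 2) (.var 0)) (.q 86 100)), (.sub (.var 3) (.mul (.q 907 1000) (.sub (.var 2) (.var 0)))), (.sub (.var 3) (.mul (.q 29 100) (.sub (.q 86 100) (.sub (.var 2) (.var 0))))), (.sub (.neg (.mul (.q 62 100) (.sub (.var 2) (.var 0)))) (.var 3)), (.sub (.neg (.mul (.q 465 1000) (.sub (.q 86 100) (.sub (.var 2) (.var 0))))) (.var 3)), (.sub (.sub (.var 2) (.var 0)) (.q 815 1000)), (.sub (.q 790 1000) (.sub (.var 2) (.var 0)))] 34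
    2903704753709700226643428791790356402961
    ([V.of 10000 1800 4000, V.of 10000 (-180) 985, V.of 10000 9700 9850, V.of 10000 (-326) 203]) =
    1 := by
  decide +kernel

end E1
end TL
end Pool.Agent.Work.MP_b30479_gt.G2
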