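import Pool.Agent.Work.MP_b30479_gt.G2.TE1Bs1
import Pool.Agent.Work.MP_b30479_gt.G2.TE1Bs2

/-!
# Tails, rows `E1`, `E2`: certificates (class two, `w ≥ 18/100`)

Variables: `w`, `t`, `s = w + X`, `Y`.  `U`, `S`, `W` stand for `uu (18/100 + X) (t + Y)`, `-uu s Y`,
`uu w 0`.
-/

set_option linter.unusedVariables false
set_option linter.unusedSimpArgs false
set_option linter.unusedTactic false
set_option linter.unreachableTactic false

namespace Pool.Agent.Work.MP_b30479_gt.G2

open NumU
open NumU.E
open NumI (V)

namespace TL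

namespace E1

/-- 204 boxes -/
theorem k_dxa0 {w t s Y U S : ℝ}
    (a0 : 1800 / 10000 ≤ w) (b0 : w ≤ 4000 / 10000)
    (a1 : -(180 / 10000) ≤ t) (b1 : t ≤ 985 / 10000)
    (a2 : 1800 / 10000 ≤ s) (b2 : s ≤ 9850 / 10000)
    (a3 : -(930 / 10000) ≤ Y) (b3 : Y ≤ 1450 / 10000)
    (r1 : w ≤ s) (r2 : s - w ≤ 86 / 100)
    (r3 : Y ≤ 907 / 1000 * (s - w)) (r4 : Y ≤ 29 / 100 * (86 / 100 - (s - w)))
    (r5 : -(62 / 100 * (s - w)) ≤ Y) (r6 : -(465 / 1000 * (86 / 100 - (s - w))) ≤ Y)
    (x1 : s - w ≤ 790 / 1000)
    (u0 : uu (18 / 100 + (s - w)) (t + Y) ≤ U)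
    (hS : -uu s Y ≤ S)
    (h1 : Real.pi * ((18 / 100 - w) * Y + t * (s - w - 1)) + U - uu (18 / 100) t + S < 137 / 625
      - 1019 / 1000 * w - 1071 / 500 * t) : False := by
  have h : chkT [(.sub (.add (.sub (.add (.mul .pi (.add (.mul (.sub (.q 18 100) (.var 0)) (.var 3)) (.mul
      (.var 1) (.sub (.sub (.var 2) (.var 0)) (.q 1 1))))) (.uu (.add (.q 18 100) (.sub (.var 2)
      (.var 0))) (.add (.var 1) (.var 3)))) (.uu (.q 18 100) (.var 1))) (.neg (.uu (.var 2) (.var
      3)))) (.add (.add (.q 137 625) (.mul (.q (-1019) 1000) (.var 0))) (.mul (.q (-1071) 500)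
      (.var 1)))), (.sub (.var 0) (.var 2)), (.sub (.sub (.var 2) (.var 0)) (.q 86 100)), (.sub
      (.var 3) (.mul (.q 907 1000) (.sub (.var 2) (.var 0)))), (.sub (.var 3) (.mul (.q 29 100)
      (.sub (.q 86 100) (.sub (.var 2) (.var 0))))), (.sub (.neg (.mul (.q 62 100) (.sub (.var 2)
      (.var 0)))) (.var 3)), (.sub (.neg (.mul (.q 465 1000) (.sub (.q 86 100) (.sub (.var 2)
      (.var 0))))) (.var 3)), (.sub (.sub (.var 2) (.var 0)) (.q 790 1000))] 34
      6350914472664305375967182286866784674923646796849868177127330949893944302732252637286576395823770235318882106848383157358160199383764319640260970022889415309303598496535518538739802926579626242394304770217026127739172195457360662512715787116580210478668966487952738622550330671846419034310419943327264520704521984703631086814002888943315551541933311072522310120412378640919792715488592955572993436430761959559362055056498770039561456008933448816671839327930596217317379187350733052265373730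
      [V.of 10000 1800 4000, V.of 10000 (-180) 985, V.of 10000 1800 9850, V.of 10000 (-930) 1450] = true :=
      Pool.Agent.Work.NumU.chkT_of k_dxa0_p1
  obtain ⟨e, he, hp⟩ := chkT4 h (by norm_num) (x := w) (y := t) (z := s) (w := Y)
    (le_trans (by norm_num) a0) (le_trans b0 (by norm_num))
    (le_trans (by norm_num) a1) (le_trans b1 (by norm_num))
    (le_trans (by norm_num) a2) (le_trans b2 (by norm_num))
    (le_trans (by norm_num) a3) (le_trans b3 (by norm_num))
  simp only [List.mem_cons, List.not_mem_nil, or_false] at he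
  rcases he with rfl | rfl | rfl | rfl | rfl | rfl | rfl | rfl
  · simp only [E.val, NumI.lkR] at hp
    push_cast at hp
    try simp only [zero_div, div_one] at hp
    linarith only [u0, hS, h1, hp]
  · simp only [E.val, NumI.lkR] at hp
    push_cast at hp
    try simp only [zero_div, div_one] at hp
    linarith only [r1, hp]
  · simp only [E.val, NumI.lkR] at hp
    push_cast at hp
    try simp only [zero_div, div_one] at hp
    linarith only [a0, b2, hp]
  · simp only [E.val, NumI.lkR] at hp
    push_cast at hp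
    try simp only [zero_div, div_one] at hp
    linarith only [r3, hp]
  · simp only [E.val, NumI.lkR] at hp
    push_cast at hp
    try simp only [zero_div, div_one] at hp
    linarith only [r4, hp]
  · simp only [E.val, NumI.lkR] at hp
    push_cast at hp
    try simp only [zero_div, div_one] at hp
    linarith only [r5, hp]
  · simp only [E.val, NumI.lkR] at hp
    push_cast at hp
    try simp only [zero_div, div_one] at hp
    linarith only [r6, hp]
  · simp only [E.val, NumI.lkR] at hp
    push_cast at hp
    try simp only [zero_div, div_one] at hp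
    linarith only [x1, hp]

/-- 28 boxes -/
theorem k_dxb0 {w t s Y U S : ℝ}
    (a0 : 1800 / 10000 ≤ w) (b0 : w ≤ 4000 / 10000)
    (a1 : -(180 / 10000) ≤ t) (b1 : t ≤ 985 / 10000)
    (a2 : 9850 / 10000 ≤ s) (b2 : s ≤ 9950 / 10000)
    (a3 : -(930 / 10000) ≤ Y) (b3 : Y ≤ 1450 / 10000)
    (r1 : w ≤ s) (r2 : s - w ≤ 86 / 100)
    (r3 : Y ≤ 907 / 1000 * (s - w)) (r4 : Y ≤ 29 / 100 * (86 / 100 - (s - w)))
    (r5 : -(62 / 100 * (s - w)) ≤ Y) (r6 : -(465 / 1000 * (86 / 100 - (s - w))) ≤ Y)
    (x1 : s - w ≤ 790 / 1000)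
    (u0 : uu (18 / 100 + (s - w)) (t + Y) ≤ U)
    (hS : uu (15 / 1000) Y ≤ S)
    (h1 : Real.pi * ((18 / 100 - w) * Y + t * (s - w - 1)) + U - uu (18 / 100) t + S < 137 / 625
      - 1019 / 1000 * w - 1071 / 500 * t) : False := by
  have h : chkT [(.sub (.add (.sub (.add (.mul .pi (.add (.mul (.sub (.q 18 100) (.var 0)) (.var 3)) (.mul
      (.var 1) (.sub (.sub (.var 2) (.var 0)) (.q 1 1))))) (.uu (.add (.q 18 100) (.sub (.var 2)
      (.var 0))) (.add (.var 1) (.var 3)))) (.uu (.q 18 100) (.var 1))) (.uu (.q 15 1000) (.var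
      3))) (.add (.add (.q 137 625) (.mul (.q (-1019) 1000) (.var 0))) (.mul (.q (-1071) 500)
      (.var 1)))), (.sub (.var 0) (.var 2)), (.sub (.sub (.var 2) (.var 0)) (.q 86 100)), (.sub
      (.var 3) (.mul (.q 907 1000) (.sub (.var 2) (.var 0)))), (.sub (.var 3) (.mul (.q 29 100)
      (.sub (.q 86 100) (.sub (.var 2) (.var 0))))), (.sub (.neg (.mul (.q 62 100) (.sub (.var 2)
      (.var 0)))) (.var 3)), (.sub (.neg (.mul (.q 465 1000) (.sub (.q 86 100) (.sub (.var 2)
      (.var 0))))) (.var 3)), (.sub (.sub (.var 2) (.var 0)) (.q 790 1000))] 34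
      896607474647057851565183011345656357618712134872546102906737065984
      [V.of 10000 1800 4000, V.of 10000 (-180) 985, V.of 10000 9850 9950, V.of 10000 (-930) 1450] = true :=
      Pool.Agent.Work.NumU.chkT_of k_dxb0_p1
  obtain ⟨e, he, hp⟩ := chkT4 h (by norm_num) (x := w) (y := t) (z := s) (w := Y)
    (le_trans (by norm_num) a0) (le_trans b0 (by norm_num))
    (le_trans (by norm_num) a1) (le_trans b1 (by norm_num))
    (le_trans (by norm_num) a2) (le_trans b2 (by norm_num))
    (le_trans (by norm_num) a3) (le_trans b3 (by norm_num))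
  simp only [List.mem_cons, List.not_mem_nil, or_false] at he
  rcases he with rfl | rfl | rfl | rfl | rfl | rfl | rfl | rfl
  · simp only [E.val, NumI.lkR] at hp
    push_cast at hp
    try simp only [zero_div, div_one] at hp
    linarith only [u0, hS, h1, hp]
  · simp only [E.val, NumI.lkR] at hp
    push_cast at hp
    try simp only [zero_div, div_one] at hp
    linarith only [b0, a2, hp]
  · simp only [E.val, NumI.lkR] at hp
    push_cast at hp
    try simp only [zero_div, div_one] at hp
    linarith only [a0, b2, hp]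
  · simp only [E.val, NumI.lkR] at hp
    push_cast at hp
    try simp only [zero_div, div_one] at hp
    linarith only [b0, a2, b3, hp]
  · simp only [E.val, NumI.lkR] at hp
    push_cast at hp
    try simp only [zero_div, div_one] at hp
    linarith only [r4, hp]
  · simp only [E.val, NumI.lkR] at hp
    push_cast at hp
    try simp only [zero_div, div_one] at hp
    linarith only [b0, a2, a3, hp]
  · simp only [E.val, NumI.lkR] at hp
    push_cast at hp
    try simp only [zero_div, div_one] at hp
    linarith only [r6, hp]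
  · simp only [E.val, NumI.lkR] at hp
    push_cast at hp
    try simp only [zero_div, div_one] at hp
    linarith only [x1, hp]

/-- 35 boxes -/
theorem k_dxc0 {w t s Y U S : ℝ}
    (a0 : 1800 / 10000 ≤ w) (b0 : w ≤ 4000 / 10000)
    (a1 : -(180 / 10000) ≤ t) (b1 : t ≤ 985 / 10000)
    (a2 : 9950 / 10000 ≤ s) (b2 : s ≤ 10050 / 10000)
    (a3 : -(930 / 10000) ≤ Y) (b3 : Y ≤ 1450 / 10000)
    (r1 : w ≤ s) (r2 : s - w ≤ 86 / 100)
    (r3 : Y ≤ 907 / 1000 * (s - w)) (r4 : Y ≤ 29 / 100 * (86 / 100 - (s - w)))
    (r5 : -(62 / 100 * (s - w)) ≤ Y) (r6 : -(465 / 1000 * (86 / 100 - (s - w))) ≤ Y)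
    (x1 : s - w ≤ 790 / 1000)
    (u0 : uu (18 / 100 + (s - w)) (t + Y) ≤ U)
    (hS : uu (5 / 1000) Y ≤ S)
    (h1 : Real.pi * ((18 / 100 - w) * Y + t * (s - w - 1)) + U - uu (18 / 100) t + S < 137 / 625
      - 1019 / 1000 * w - 1071 / 500 * t) : False := by
  have h : chkT [(.sub (.add (.sub (.add (.mul .pi (.add (.mul (.sub (.q 18 100) (.var 0)) (.var 3)) (.mul
      (.var 1) (.sub (.sub (.var 2) (.var 0)) (.q 1 1))))) (.uu (.add (.q 18 100) (.sub (.var 2)
      (.var 0))) (.add (.var 1) (.var 3)))) (.uu (.q 18 100) (.var 1))) (.uu (.q 5 1000) (.var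
      3))) (.add (.add (.q 137 625) (.mul (.q (-1019) 1000) (.var 0))) (.mul (.q (-1071) 500)
      (.var 1)))), (.sub (.var 0) (.var 2)), (.sub (.sub (.var 2) (.var 0)) (.q 86 100)), (.sub
      (.var 3) (.mul (.q 907 1000) (.sub (.var 2) (.var 0)))), (.sub (.var 3) (.mul (.q 29 100)
      (.sub (.q 86 100) (.sub (.var 2) (.var 0))))), (.sub (.neg (.mul (.q 62 100) (.sub (.var 2)
      (.var 0)))) (.var 3)), (.sub (.neg (.mul (.q 465 1000) (.sub (.q 86 100) (.sub (.var 2)
      (.var 0))))) (.var 3)), (.sub (.sub (.var 2) (.var 0)) (.q 790 1000))] 34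
      64607377419991271842619361138966712242878521683942448129407942854127844900504272896
      [V.of 10000 1800 4000, V.of 10000 (-180) 985, V.of 10000 9950 10050, V.of 10000 (-930) 1450] = true :=
      Pool.Agent.Work.NumU.chkT_of k_dxc0_p1
  obtain ⟨e, he, hp⟩ := chkT4 h (by norm_num) (x := w) (y := t) (z := s) (w := Y)
    (le_trans (by norm_num) a0) (le_trans b0 (by norm_num))
    (le_trans (by norm_num) a1) (le_trans b1 (by norm_num))
    (le_trans (by norm_num) a2) (le_trans b2 (by norm_num))
    (le_trans (by norm_num) a3) (le_trans b3 (by norm_num))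
  simp only [List.mem_cons, List.not_mem_nil, or_false] at he
  rcases he with rfl | rfl | rfl | rfl | rfl | rfl | rfl | rfl
  · simp only [E.val, NumI.lkR] at hp
    push_cast at hp
    try simp only [zero_div, div_one] at hp
    linarith only [u0, hS, h1, hp]
  · simp only [E.val, NumI.lkR] at hp
    push_cast at hp
    try simp only [zero_div, div_one] at hp
    linarith only [b0, a2, hp]
  · simp only [E.val, NumI.lkR] at hp
    push_cast at hp
    try simp only [zero_div, div_one] at hp
    linarith only [a0, b2, hp]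
  · simp only [E.val, NumI.lkR] at hp
    push_cast at hp
    try simp only [zero_div, div_one] at hp
    linarith only [b0, a2, b3, hp]
  · simp only [E.val, NumI.lkR] at hp
    push_cast at hp
    try simp only [zero_div, div_one] at hp
    linarith only [r4, hp]
  · simp only [E.val, NumI.lkR] at hp
    push_cast at hp
    try simp only [zero_div, div_one] at hp
    linarith only [b0, a2, a3, hp]
  · simp only [E.val, NumI.lkR] at hp
    push_cast at hp
    try simp only [zero_div, div_one] at hp
    linarith only [r6, hp]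
  · simp only [E.val, NumI.lkR] at hp
    push_cast at hp
    try simp only [zero_div, div_one] at hp
    linarith only [x1, hp]

/-- 183 boxes -/
theorem k_dxp0 {w t s Y U S : ℝ}
    (a0 : 1800 / 10000 ≤ w) (b0 : w ≤ 4000 / 10000)
    (a1 : -(180 / 10000) ≤ t) (b1 : t ≤ 985 / 10000)
    (a2 : 10050 / 10000 ≤ s) (b2 : s ≤ 11900 / 10000)
    (a3 : 0 ≤ Y) (b3 : Y ≤ 1450 / 10000)
    (r1 : w ≤ s) (r2 : s - w ≤ 86 / 100)
    (r3 : Y ≤ 907 / 1000 * (s - w)) (r4 : Y ≤ 29 / 100 * (86 / 100 - (s - w)))
    (r5 : -(62 / 100 * (s - w)) ≤ Y) (r6 : -(465 / 1000 * (86 / 100 - (s - w))) ≤ Y)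
    (x1 : s - w ≤ 790 / 1000)
    (u0 : uu (18 / 100 + (s - w)) (t + Y) ≤ U)
    (hS : -uu (5 / 1000) Y - Real.pi * Y ≤ S)
    (h1 : Real.pi * ((18 / 100 - w) * Y + t * (s - w - 1)) + U - uu (18 / 100) t + S < 137 / 625
      - 1019 / 1000 * w - 1071 / 500 * t) : False := by
  have h : chkT [(.sub (.add (.sub (.add (.mul .pi (.add (.mul (.sub (.q 18 100) (.var 0)) (.var 3)) (.mul
      (.var 1) (.sub (.sub (.var 2) (.var 0)) (.q 1 1))))) (.uu (.add (.q 18 100) (.sub (.var 2)
      (.var 0))) (.add (.var 1) (.var 3)))) (.uu (.q 18 100) (.var 1))) (.sub (.neg (.uu (.q 5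
      1000) (.var 3))) (.mul .pi (.var 3)))) (.add (.add (.q 137 625) (.mul (.q (-1019) 1000)
      (.var 0))) (.mul (.q (-1071) 500) (.var 1)))), (.sub (.var 0) (.var 2)), (.sub (.sub (.var
      2) (.var 0)) (.q 86 100)), (.sub (.var 3) (.mul (.q 907 1000) (.sub (.var 2) (.var 0)))),
      (.sub (.var 3) (.mul (.q 29 100) (.sub (.q 86 100) (.sub (.var 2) (.var 0))))), (.sub (.neg
      (.mul (.q 62 100) (.sub (.var 2) (.var 0)))) (.var 3)), (.sub (.neg (.mul (.q 465 1000)
      (.sub (.q 86 100) (.sub (.var 2) (.var 0))))) (.var 3)), (.sub (.sub (.var 2) (.var 0)) (.q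
      790 1000))] 34
      25490341038907876301887853985551229215886392995015457659049016969653368638586486437826106074409944087985246460599645719628971441297830634273227257897704357609695479618927582301569795911562173559442838694056276294996846600778922676985396592604099364966082661102927818886915820286758919346956444767358180814526451031997249208259497918901997586871619579341029891978686564828263549574030340236662074292716990359348239363613145170512788217402144
      [V.of 10000 1800 4000, V.of 10000 (-180) 985, V.of 10000 10050 11900, V.of 10000 0 1450] = true :=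
      Pool.Agent.Work.NumU.chkT_of k_dxp0_p1
  obtain ⟨e, he, hp⟩ := chkT4 h (by norm_num) (x := w) (y := t) (z := s) (w := Y)
    (le_trans (by norm_num) a0) (le_trans b0 (by norm_num))
    (le_trans (by norm_num) a1) (le_trans b1 (by norm_num))
    (le_trans (by norm_num) a2) (le_trans b2 (by norm_num))
    (le_trans (by norm_num) a3) (le_trans b3 (by norm_num))
  simp only [List.mem_cons, List.not_mem_nil, or_false] at he
  rcases he with rfl | rfl | rfl | rfl | rfl | rfl | rfl | rfl
  · simp only [E.val, NumI.lkR] at hp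
    push_cast at hp
    try simp only [zero_div, div_one] at hp
    linarith only [u0, hS, h1, hp]
  · simp only [E.val, NumI.lkR] at hp
    push_cast at hp
    try simp only [zero_div, div_one] at hp
    linarith only [b0, a2, hp]
  · simp only [E.val, NumI.lkR] at hp
    push_cast at hp
    try simp only [zero_div, div_one] at hp
    linarith only [x1, hp]
  · simp only [E.val, NumI.lkR] at hp
    push_cast at hp
    try simp only [zero_div, div_one] at hp
    linarith only [b0, a2, b3, hp]
  · simp only [E.val, NumI.lkR] at hp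
    push_cast at hp
    try simp only [zero_div, div_one] at hp
    linarith only [r4, hp]
  · simp only [E.val, NumI.lkR] at hp
    push_cast at hp
    try simp only [zero_div, div_one] at hp
    linarith only [b0, a2, a3, hp]
  · simp only [E.val, NumI.lkR] at hp
    push_cast at hp
    try simp only [zero_div, div_one] at hp
    linarith only [a3, x1, hp]
  · simp only [E.val, NumI.lkR] at hp
    push_cast at hp
    try simp only [zero_div, div_one] at hp
    linarith only [x1, hp]

/-- 229 boxes -/
theorem k_dxn0 {w t s Y U S : ℝ}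
    (a0 : 1800 / 10000 ≤ w) (b0 : w ≤ 4000 / 10000)
    (a1 : -(180 / 10000) ≤ t) (b1 : t ≤ 985 / 10000)
    (a2 : 10050 / 10000 ≤ s) (b2 : s ≤ 11900 / 10000)
    (a3 : -(930 / 10000) ≤ Y) (b3 : Y ≤ 0)
    (r1 : w ≤ s) (r2 : s - w ≤ 86 / 100)
    (r3 : Y ≤ 907 / 1000 * (s - w)) (r4 : Y ≤ 29 / 100 * (86 / 100 - (s - w)))
    (r5 : -(62 / 100 * (s - w)) ≤ Y) (r6 : -(465 / 1000 * (86 / 100 - (s - w))) ≤ Y)
    (x1 : s - w ≤ 790 / 1000)
    (u0 : uu (18 / 100 + (s - w)) (t + Y) ≤ U)
    (hS : -uu (5 / 1000) Y + Real.pi * Y ≤ S)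
    (h1 : Real.pi * ((18 / 100 - w) * Y + t * (s - w - 1)) + U - uu (18 / 100) t + S < 137 / 625
      - 1019 / 1000 * w - 1071 / 500 * t) : False := by
  have h : chkT [(.sub (.add (.sub (.add (.mul .pi (.add (.mul (.sub (.q 18 100) (.var 0)) (.var 3)) (.mul
      (.var 1) (.sub (.sub (.var 2) (.var 0)) (.q 1 1))))) (.uu (.add (.q 18 100) (.sub (.var 2)
      (.var 0))) (.add (.var 1) (.var 3)))) (.uu (.q 18 100) (.var 1))) (.add (.neg (.uu (.q 5
      1000) (.var 3))) (.mul .pi (.var 3)))) (.add (.add (.q 137 625) (.mul (.q (-1019) 1000)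
      (.var 0))) (.mul (.q (-1071) 500) (.var 1)))), (.sub (.var 0) (.var 2)), (.sub (.sub (.var
      2) (.var 0)) (.q 86 100)), (.sub (.var 3) (.mul (.q 907 1000) (.sub (.var 2) (.var 0)))),
      (.sub (.var 3) (.mul (.q 29 100) (.sub (.q 86 100) (.sub (.var 2) (.var 0))))), (.sub (.neg
      (.mul (.q 62 100) (.sub (.var 2) (.var 0)))) (.var 3)), (.sub (.neg (.mul (.q 465 1000)
      (.sub (.q 86 100) (.sub (.var 2) (.var 0))))) (.var 3)), (.sub (.sub (.var 2) (.var 0)) (.q
      790 1000))] 34
      10751474543100214227464382706809140316441994877812786027072175561929987193739247767336104480872055050866991662794728068572538321938469479705077378868226299450115955018211681304454697273821629039977739948182682047334400228113778505207190539949866897842928031691719745246413455998308394327513433486181722856025617179278907387773539748021443690138818835452731735933613271727508826275816407705262319724497984098954618925222381023319094652976034916566211574252562104191833798311645607667166170876211660930151307728861123496356544080024544153463090432901408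
      [V.of 10000 1800 4000, V.of 10000 (-180) 985, V.of 10000 10050 11900, V.of 10000 (-930) 0] = true :=
      Pool.Agent.Work.NumU.chkT_of k_dxn0_p1
  obtain ⟨e, he, hp⟩ := chkT4 h (by norm_num) (x := w) (y := t) (z := s) (w := Y)
    (le_trans (by norm_num) a0) (le_trans b0 (by norm_num))
    (le_trans (by norm_num) a1) (le_trans b1 (by norm_num))
    (le_trans (by norm_num) a2) (le_trans b2 (by norm_num))
    (le_trans (by norm_num) a3) (le_trans b3 (by norm_num))
  simp only [List.mem_cons, List.not_mem_nil, or_false] at he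
  rcases he with rfl | rfl | rfl | rfl | rfl | rfl | rfl | rfl
  · simp only [E.val, NumI.lkR] at hp
    push_cast at hp
    try simp only [zero_div, div_one] at hp
    linarith only [u0, hS, h1, hp]
  · simp only [E.val, NumI.lkR] at hp
    push_cast at hp
    try simp only [zero_div, div_one] at hp
    linarith only [b0, a2, hp]
  · simp only [E.val, NumI.lkR] at hp
    push_cast at hp
    try simp only [zero_div, div_one] at hp
    linarith only [b3, r6, hp]
  · simp only [E.val, NumI.lkR] at hp
    push_cast at hp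
    try simp only [zero_div, div_one] at hp
    linarith only [b0, a2, b3, hp]
  · simp only [E.val, NumI.lkR] at hp
    push_cast at hp
    try simp only [zero_div, div_one] at hp
    linarith only [b3, r6, hp]
  · simp only [E.val, NumI.lkR] at hp
    push_cast at hp
    try simp only [zero_div, div_one] at hp
    linarith only [b0, a2, a3, hp]
  · simp only [E.val, NumI.lkR] at hp
    push_cast at hp
    try simp only [zero_div, div_one] at hp
    linarith only [r6, hp]
  · simp only [E.val, NumI.lkR] at hp
    push_cast at hp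
    try simp only [zero_div, div_one] at hp
    linarith only [x1, hp]

/-- 17 boxes -/
theorem k_dba0 {w t s Y U S : ℝ}
    (a0 : 1800 / 10000 ≤ w) (b0 : w ≤ 4000 / 10000)
    (a1 : -(180 / 10000) ≤ t) (b1 : t ≤ 985 / 10000)
    (a2 : 9700 / 10000 ≤ s) (b2 : s ≤ 9850 / 10000)
    (a3 : -(326 / 10000) ≤ Y) (b3 : Y ≤ 203 / 10000)
    (r1 : w ≤ s) (r2 : s - w ≤ 86 / 100)
    (r3 : Y ≤ 907 / 1000 * (s - w)) (r4 : Y ≤ 29 / 100 * (86 / 100 - (s - w)))
    (r5 : -(62 / 100 * (s - w)) ≤ Y) (r6 : -(465 / 1000 * (86 / 100 - (s - w))) ≤ Y)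
    (x0 : 790 / 1000 ≤ s - w) (x1 : s - w ≤ 815 / 1000)
    (u0 : uu (995 / 1000) (t + Y) ≤ U)
    (hS : -uu s Y ≤ S)
    (h1 : Real.pi * ((18 / 100 - w) * Y + t * (s - w - 1)) + U - uu (18 / 100) t + S < 137 / 625
      - 1019 / 1000 * w - 1071 / 500 * t) : False := by
  have h : chkT [(.sub (.add (.sub (.add (.mul .pi (.add (.mul (.sub (.q 18 100) (.var 0)) (.var 3)) (.mul
      (.var 1) (.sub (.sub (.var 2) (.var 0)) (.q 1 1))))) (.uu (.q 995 1000) (.add (.var 1) (.var
      3)))) (.uu (.q 18 100) (.var 1))) (.neg (.uu (.var 2) (.var 3)))) (.add (.add (.q 137 625)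
      (.mul (.q (-1019) 1000) (.var 0))) (.mul (.q (-1071) 500) (.var 1)))), (.sub (.var 0) (.var
      2)), (.sub (.sub (.var 2) (.var 0)) (.q 86 100)), (.sub (.var 3) (.mul (.q 907 1000) (.sub
      (.var 2) (.var 0)))), (.sub (.var 3) (.mul (.q 29 100) (.sub (.q 86 100) (.sub (.var 2)
      (.var 0))))), (.sub (.neg (.mul (.q 62 100) (.sub (.var 2) (.var 0)))) (.var 3)), (.sub
      (.neg (.mul (.q 465 1000) (.sub (.q 86 100) (.sub (.var 2) (.var 0))))) (.var 3)), (.sub
      (.sub (.var 2) (.var 0)) (.q 815 1000)), (.sub (.q 790 1000) (.sub (.var 2) (.var 0)))] 34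
      2903704753709700226643428791790356402961
      [V.of 10000 1800 4000, V.of 10000 (-180) 985, V.of 10000 9700 9850, V.of 10000 (-326) 203] = true :=
      Pool.Agent.Work.NumU.chkT_of k_dba0_p1
  obtain ⟨e, he, hp⟩ := chkT4 h (by norm_num) (x := w) (y := t) (z := s) (w := Y)
    (le_trans (by norm_num) a0) (le_trans b0 (by norm_num))
    (le_trans (by norm_num) a1) (le_trans b1 (by norm_num))
    (le_trans (by norm_num) a2) (le_trans b2 (by norm_num))
    (le_trans (by norm_num) a3) (le_trans b3 (by norm_num))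
  simp only [List.mem_cons, List.not_mem_nil, or_false] at he
  rcases he with rfl | rfl | rfl | rfl | rfl | rfl | rfl | rfl | rfl
  · simp only [E.val, NumI.lkR] at hp
    push_cast at hp
    try simp only [zero_div, div_one] at hp
    linarith only [u0, hS, h1, hp]
  · simp only [E.val, NumI.lkR] at hp
    push_cast at hp
    try simp only [zero_div, div_one] at hp
    linarith only [x0, hp]
  · simp only [E.val, NumI.lkR] at hp
    push_cast at hp
    try simp only [zero_div, div_one] at hp
    linarith only [a0, b2, hp]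
  · simp only [E.val, NumI.lkR] at hp
    push_cast at hp
    try simp only [zero_div, div_one] at hp
    linarith only [b3, x0, hp]
  · simp only [E.val, NumI.lkR] at hp
    push_cast at hp
    try simp only [zero_div, div_one] at hp
    linarith only [r4, hp]
  · simp only [E.val, NumI.lkR] at hp
    push_cast at hp
    try simp only [zero_div, div_one] at hp
    linarith only [r6, x0, hp]
  · simp only [E.val, NumI.lkR] at hp
    push_cast at hp
    try simp only [zero_div, div_one] at hp
    linarith only [r6, hp]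
  · simp only [E.val, NumI.lkR] at hp
    push_cast at hp
    try simp only [zero_div, div_one] at hp
    linarith only [a0, b2, hp]
  · simp only [E.val, NumI.lkR] at hp
    push_cast at hp
    try simp only [zero_div, div_one] at hp
    linarith only [x0, hp]

/-- 14 boxes -/
theorem k_dbb0 {w t s Y U S : ℝ}
    (a0 : 1800 / 10000 ≤ w) (b0 : w ≤ 4000 / 10000)
    (a1 : -(180 / 10000) ≤ t) (b1 : t ≤ 985 / 10000)
    (a2 : 9850 / 10000 ≤ s) (b2 : s ≤ 9950 / 10000)
    (a3 : -(326 / 10000) ≤ Y) (b3 : Y ≤ 203 / 10000)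
    (r1 : w ≤ s) (r2 : s - w ≤ 86 / 100)
    (r3 : Y ≤ 907 / 1000 * (s - w)) (r4 : Y ≤ 29 / 100 * (86 / 100 - (s - w)))
    (r5 : -(62 / 100 * (s - w)) ≤ Y) (r6 : -(465 / 1000 * (86 / 100 - (s - w))) ≤ Y)
    (x0 : 790 / 1000 ≤ s - w) (x1 : s - w ≤ 815 / 1000)
    (u0 : uu (995 / 1000) (t + Y) ≤ U)
    (hS : uu (15 / 1000) Y ≤ S)
    (h1 : Real.pi * ((18 / 100 - w) * Y + t * (s - w - 1)) + U - uu (18 / 100) t + S < 137 / 625
      - 1019 / 1000 * w - 1071 / 500 * t) : False := by
  have h : chkT [(.sub (.add (.sub (.add (.mul .pi (.add (.mul (.sub (.q 18 100) (.var 0)) (.var 3)) (.mul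
      (.var 1) (.sub (.sub (.var 2) (.var 0)) (.q 1 1))))) (.uu (.q 995 1000) (.add (.var 1) (.var
      3)))) (.uu (.q 18 100) (.var 1))) (.uu (.q 15 1000) (.var 3))) (.add (.add (.q 137 625)
      (.mul (.q (-1019) 1000) (.var 0))) (.mul (.q (-1071) 500) (.var 1)))), (.sub (.var 0) (.var
      2)), (.sub (.sub (.var 2) (.var 0)) (.q 86 100)), (.sub (.var 3) (.mul (.q 907 1000) (.sub
      (.var 2) (.var 0)))), (.sub (.var 3) (.mul (.q 29 100) (.sub (.q 86 100) (.sub (.var 2)
      (.var 0))))), (.sub (.neg (.mul (.q 62 100) (.sub (.var 2) (.var 0)))) (.var 3)), (.sub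
      (.neg (.mul (.q 465 1000) (.sub (.q 86 100) (.sub (.var 2) (.var 0))))) (.var 3)), (.sub
      (.sub (.var 2) (.var 0)) (.q 815 1000)), (.sub (.q 790 1000) (.sub (.var 2) (.var 0)))] 34
      173074290377479805150256437924625
      [V.of 10000 1800 4000, V.of 10000 (-180) 985, V.of 10000 9850 9950, V.of 10000 (-326) 203] = true := by
    decide +kernel
  obtain ⟨e, he, hp⟩ := chkT4 h (by norm_num) (x := w) (y := t) (z := s) (w := Y)
    (le_trans (by norm_num) a0) (le_trans b0 (by norm_num))
    (le_trans (by norm_num) a1) (le_trans b1 (by norm_num))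
    (le_trans (by norm_num) a2) (le_trans b2 (by norm_num))
    (le_trans (by norm_num) a3) (le_trans b3 (by norm_num))
  simp only [List.mem_cons, List.not_mem_nil, or_false] at he
  rcases he with rfl | rfl | rfl | rfl | rfl | rfl | rfl | rfl | rfl
  · simp only [E.val, NumI.lkR] at hp
    push_cast at hp
    try simp only [zero_div, div_one] at hp
    linarith only [u0, hS, h1, hp]
  · simp only [E.val, NumI.lkR] at hp
    push_cast at hp
    try simp only [zero_div, div_one] at hp
    linarith only [x0, hp]
  · simp only [E.val, NumI.lkR] at hp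
    push_cast at hp
    try simp only [zero_div, div_one] at hp
    linarith only [a0, b2, hp]
  · simp only [E.val, NumI.lkR] at hp
    push_cast at hp
    try simp only [zero_div, div_one] at hp
    linarith only [b3, x0, hp]
  · simp only [E.val, NumI.lkR] at hp
    push_cast at hp
    try simp only [zero_div, div_one] at hp
    linarith only [r4, hp]
  · simp only [E.val, NumI.lkR] at hp
    push_cast at hp
    try simp only [zero_div, div_one] at hp
    linarith only [r6, x0, hp]
  · simp only [E.val, NumI.lkR] at hp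
    push_cast at hp
    try simp only [zero_div, div_one] at hp
    linarith only [r6, hp]
  · simp only [E.val, NumI.lkR] at hp
    push_cast at hp
    try simp only [zero_div, div_one] at hp
    linarith only [a0, b2, hp]
  · simp only [E.val, NumI.lkR] at hp
    push_cast at hp
    try simp only [zero_div, div_one] at hp
    linarith only [x0, hp]

/-- 15 boxes -/
theorem k_dbc0 {w t s Y U S : ℝ}
    (a0 : 1800 / 10000 ≤ w) (b0 : w ≤ 4000 / 10000)
    (a1 : -(180 / 10000) ≤ t) (b1 : t ≤ 985 / 10000)
    (a2 : 9950 / 10000 ≤ s) (b2 : s ≤ 10050 / 10000)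
    (a3 : -(326 / 10000) ≤ Y) (b3 : Y ≤ 203 / 10000)
    (r1 : w ≤ s) (r2 : s - w ≤ 86 / 100)
    (r3 : Y ≤ 907 / 1000 * (s - w)) (r4 : Y ≤ 29 / 100 * (86 / 100 - (s - w)))
    (r5 : -(62 / 100 * (s - w)) ≤ Y) (r6 : -(465 / 1000 * (86 / 100 - (s - w))) ≤ Y)
    (x0 : 790 / 1000 ≤ s - w) (x1 : s - w ≤ 815 / 1000)
    (u0 : uu (995 / 1000) (t + Y) ≤ U)
    (hS : uu (5 / 1000) Y ≤ S)
    (h1 : Real.pi * ((18 / 100 - w) * Y + t * (s - w - 1)) + U - uu (18 / 100) t + S < 137 / 625
      - 1019 / 1000 * w - 1071 / 500 * t) : False := by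
  have h : chkT [(.sub (.add (.sub (.add (.mul .pi (.add (.mul (.sub (.q 18 100) (.var 0)) (.var 3)) (.mul
      (.var 1) (.sub (.sub (.var 2) (.var 0)) (.q 1 1))))) (.uu (.q 995 1000) (.add (.var 1) (.var
      3)))) (.uu (.q 18 100) (.var 1))) (.uu (.q 5 1000) (.var 3))) (.add (.add (.q 137 625) (.mul
      (.q (-1019) 1000) (.var 0))) (.mul (.q (-1071) 500) (.var 1)))), (.sub (.var 0) (.var 2)),
      (.sub (.sub (.var 2) (.var 0)) (.q 86 100)), (.sub (.var 3) (.mul (.q 907 1000) (.sub (.var
      2) (.var 0)))), (.sub (.var 3) (.mul (.q 29 100) (.sub (.q 86 100) (.sub (.var 2) (.var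
      0))))), (.sub (.neg (.mul (.q 62 100) (.sub (.var 2) (.var 0)))) (.var 3)), (.sub (.neg
      (.mul (.q 465 1000) (.sub (.q 86 100) (.sub (.var 2) (.var 0))))) (.var 3)), (.sub (.sub
      (.var 2) (.var 0)) (.q 815 1000)), (.sub (.q 790 1000) (.sub (.var 2) (.var 0)))] 34
      44307009052084412609378404467740977
      [V.of 10000 1800 4000, V.of 10000 (-180) 985, V.of 10000 9950 10050, V.of 10000 (-326) 203] = true := by
    decide +kernel
  obtain ⟨e, he, hp⟩ := chkT4 h (by norm_num) (x := w) (y := t) (z := s) (w := Y)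
    (le_trans (by norm_num) a0) (le_trans b0 (by norm_num))
    (le_trans (by norm_num) a1) (le_trans b1 (by norm_num))
    (le_trans (by norm_num) a2) (le_trans b2 (by norm_num))
    (le_trans (by norm_num) a3) (le_trans b3 (by norm_num))
  simp only [List.mem_cons, List.not_mem_nil, or_false] at he
  rcases he with rfl | rfl | rfl | rfl | rfl | rfl | rfl | rfl | rfl
  · simp only [E.val, NumI.lkR] at hp
    push_cast at hp
    try simp only [zero_div, div_one] at hp
    linarith only [u0, hS, h1, hp]
  · simp only [E.val, NumI.lkR] at hp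
    push_cast at hp
    try simp only [zero_div, div_one] at hp
    linarith only [x0, hp]
  · simp only [E.val, NumI.lkR] at hp
    push_cast at hp
    try simp only [zero_div, div_one] at hp
    linarith only [a0, b2, hp]
  · simp only [E.val, NumI.lkR] at hp
    push_cast at hp
    try simp only [zero_div, div_one] at hp
    linarith only [b3, x0, hp]
  · simp only [E.val, NumI.lkR] at hp
    push_cast at hp
    try simp only [zero_div, div_one] at hp
    linarith only [r4, hp]
  · simp only [E.val, NumI.lkR] at hp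
    push_cast at hp
    try simp only [zero_div, div_one] at hp
    linarith only [r6, x0, hp]
  · simp only [E.val, NumI.lkR] at hp
    push_cast at hp
    try simp only [zero_div, div_one] at hp
    linarith only [r6, hp]
  · simp only [E.val, NumI.lkR] at hp
    push_cast at hp
    try simp only [zero_div, div_one] at hp
    linarith only [x1, hp]
  · simp only [E.val, NumI.lkR] at hp
    push_cast at hp
    try simp only [zero_div, div_one] at hp
    linarith only [x0, hp]

end E1

end TL

end Pool.Agent.Work.MP_b30479_gt.G2
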