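import Pool.Agent.Work.NumU.TreeS

/-!
# Pieces of the certificates of `TE1B`, part 1
-/

set_option linter.unusedVariables false
set_option linter.unusedSimpArgs false
set_option linter.unusedTactic false
set_option linter.unreachableTactic false
namespace Pool.Agent.Work.MP_b30479_gt.G2
open NumU
open NumU.E
open NumI (V)
namespace TL
namespace E1

theorem k_dxa0_p1_q1 : Pool.Agent.Work.NumU.runT [(.sub (.add (.sub (.add (.mul .pi (.add (.mul (.sub (.q 18 100) (.var 0)) (.var 3)) (.mul (.var 1) (.sub (.sub (.var 2) (.var 0)) (.q 1 1))))) (.uu (.add (.q 18 100) (.sub (.var 2) (.var 0))) (.add (.var 1) (.var 3)))) (.uu (.q 18 100) (.var 1))) (.neg (.uu (.var 2) (.var 3)))) (.add (.add (.q 137 625) (.mul (.q (-1019) 1000) (.var 0))) (.mul (.q (-1071) 500) (.var 1)))), (.sub (.var 0) (.var 2)), (.sub (.sub (.var 2) (.var 0)) (.q 86 100)), (.sub (.var 3) (.mul (.q 907 1000) (.sub (.var 2) (.var 0)))), (.sub (.var 3) (.mul (.q 29 100) (.sub (.q 86 100) (.sub (.var 2) (.var 0))))), (.sub (.neg (.mul (.q 62 100) (.sub (.var 2) (.var 0)))) (.var 3)), (.sub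 (.neg (.mul (.q 465 1000) (.sub (.q 86 100) (.sub (.var 2) (.var 0))))) (.var 3)), (.sub (.sub (.var 2) (.var 0)) (.q 790 1000))] 33
    396932154541519085997948892929174042182727924803116761070458184368371518920765789830411024738985639707430131678023947334885012461485269977516310626430588456831474906033469908671237682911226640149644048138564132983698262216085041407044736694786263154916810405497046163909395666990401189644401246457954032544032624043976942925875180558957221971370831942032644382525773665057487044718037059723312089776922622472460128441031173127472591000558340551041989957995662263582336199209420815766585858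
    (Pool.Agent.Work.NumI.setL 2 (([V.of 10000 1800 4000, V.of 10000 (-180) 985, V.of 10000 1800 9850, V.of 10000 (-930) 1450]))) =
    3720486796866527337622765119630676593563812733631000949549875134074376970262245982877897741210492504500427992796344345488170849871785251062845783128839768336689944240689289966860273753145844059658908314389794552060412460325220475145074904342737411 := by
  decide +kernel

theorem k_dxa0_p1_q2 : Pool.Agent.Work.NumU.runT [(.sub (.add (.sub (.add (.mul .pi (.add (.mul (.sub (.q 18 100) (.var 0)) (.var 3)) (.mul (.var 1) (.sub (.sub (.var 2) (.var 0)) (.q 1 1))))) (.uu (.add (.q 18 100) (.sub (.var 2) (.var 0))) (.add (.var 1) (.var 3)))) (.uu (.q 18 100) (.var 1))) (.neg (.uu (.var 2) (.var 3)))) (.add (.add (.q 137 625) (.mul (.q (-1019) 1000) (.var 0))) (.mul (.q (-1071) 500) (.var 1)))), (.sub (.var 0) (.var 2)), (.sub (.sub (.var 2) (.var 0)) (.q 86 100)), (.sub (.var 3) (.mul (.q 907 1000) (.sub (.var 2) (.var 0)))), (.sub (.var 3) (.mul (.q 29 100) (.sub (.q 86 100) (.sub (.var 2) (.var 0))))), (.sub (.neg (.mul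 (.q 62 100) (.sub (.var 2) (.var 0)))) (.var 3)), (.sub (.neg (.mul (.q 465 1000) (.sub (.q 86 100) (.sub (.var 2) (.var 0))))) (.var 3)), (.sub (.sub (.var 2) (.var 0)) (.q 790 1000))] 33
    3720486796866527337622765119630676593563812733631000949549875134074376970262245982877897741210492504500427992796344345488170849871785251062845783128839768336689944240689289966860273753145844059658908314389794552060412460325220475145074904342737410
    (Pool.Agent.Work.NumI.setR 2 (([V.of 10000 1800 4000, V.of 10000 (-180) 985, V.of 10000 1800 9850, V.of 10000 (-930) 1450]))) =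
    1 := by
  decide +kernel

theorem k_dxa0_p1 : Pool.Agent.Work.NumU.runT [(.sub (.add (.sub (.add (.mul .pi (.add (.mul (.sub (.q 18 100) (.var 0)) (.var 3)) (.mul (.var 1) (.sub (.sub (.var 2) (.var 0)) (.q 1 1))))) (.uu (.add (.q 18 100) (.sub (.var 2) (.var 0))) (.add (.var 1) (.var 3)))) (.uu (.q 18 100) (.var 1))) (.neg (.uu (.var 2) (.var 3)))) (.add (.add (.q 137 625) (.mul (.q (-1019) 1000) (.var 0))) (.mul (.q (-1071) 500) (.var 1)))), (.sub (.var 0) (.var 2)), (.sub (.sub (.var 2) (.var 0)) (.q 86 100)), (.sub (.var 3) (.mul (.q 907 1000) (.sub (.var 2) (.var 0)))), (.sub (.var 3) (.mul (.q 29 100) (.sub (.q 86 100) (.sub (.var 2) (.var 0))))), (.sub (.neg (.mul (.q 62 100) (.sub (.var 2) (.var 0)))) (.var 3)), (.sub (.neg (.mul (.q 465 1000) (.sub (.q 86 100) (.sub (.var 2) (.var 0))))) (.var 3)), (.sub (.sub (.var 2) (.var 0)) (.q 790 1000))] 34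
    6350914472664305375967182286866784674923646796849868177127330949893944302732252637286576395823770235318882106848383157358160199383764319640260970022889415309303598496535518538739802926579626242394304770217026127739172195457360662512715787116580210478668966487952738622550330671846419034310419943327264520704521984703631086814002888943315551541933311072522310120412378640919792715488592955572993436430761959559362055056498770039561456008933448816671839327930596217317379187350733052265373730
    ([V.of 10000 1800 4000, V.of 10000 (-180) 985, V.of 10000 1800 9850, V.of 10000 (-930) 1450]) =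
    1 :=
      Pool.Agent.Work.NumU.runT_split rfl rfl rfl
        k_dxa0_p1_q1
        k_dxa0_p1_q2

theorem k_dxb0_p1 : Pool.Agent.Work.NumU.runT [(.sub (.add (.sub (.add (.mul .pi (.add (.mul (.sub (.q 18 100) (.var 0)) (.var 3)) (.mul (.var 1) (.sub (.sub (.var 2) (.var 0)) (.q 1 1))))) (.uu (.add (.q 18 100) (.sub (.var 2) (.var 0))) (.add (.var 1) (.var 3)))) (.uu (.q 18 100) (.var 1))) (.uu (.q 15 1000) (.var 3))) (.add (.add (.q 137 625) (.mul (.q (-1019) 1000) (.var 0))) (.mul (.q (-1071) 500) (.var 1)))), (.sub (.var 0) (.var 2)), (.sub (.sub (.var 2) (.var 0)) (.q 86 100)), (.sub (.var 3) (.mul (.q 907 1000) (.sub (.var 2) (.var 0)))), (.sub (.var 3) (.mul (.q 29 100) (.sub (.q 86 100) (.sub (.var 2) (.var 0))))), (.sub (.neg (.mul (.q 62 100) (.sub (.var 2) (.var 0)))) (.var 3)), (.sub (.neg (.mul (.q 465 1000) (.sub (.q 86 100) (.sub (.var 2) (.var 0))))) (.var 3)), (.sub (.sub (.var 2) (.var 0)) (.q 790 1000))] 34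
    896607474647057851565183011345656357618712134872546102906737065984
    ([V.of 10000 1800 4000, V.of 10000 (-180) 985, V.of 10000 9850 9950, V.of 10000 (-930) 1450]) =
    1 := by
  decide +kernel

theorem k_dxc0_p1 : Pool.Agent.Work.NumU.runT [(.sub (.add (.sub (.add (.mul .pi (.add (.mul (.sub (.q 18 100) (.var 0)) (.var 3)) (.mul (.var 1) (.sub (.sub (.var 2) (.var 0)) (.q 1 1))))) (.uu (.add (.q 18 100) (.sub (.var 2) (.var 0))) (.add (.var 1) (.var 3)))) (.uu (.q 18 100) (.var 1))) (.uu (.q 5 1000) (.var 3))) (.add (.add (.q 137 625) (.mul (.q (-1019) 1000) (.var 0))) (.mul (.q (-1071) 500) (.var 1)))), (.sub (.var 0) (.var 2)), (.sub (.sub (.var 2) (.var 0)) (.q 86 100)), (.sub (.var 3) (.mul (.q 907 1000) (.sub (.var 2) (.var 0)))), (.sub (.var 3) (.mul (.q 29 100) (.sub (.q 86 100) (.sub (.var 2) (.var 0))))), (.sub (.neg (.mul (.q 62 100) (.sub (.var 2) (.var 0)))) (.var 3)), (.sub (.neg (.mul (.q 465 1000) (.sub (.q 86 100) (.sub (.var 2) (.var 0))))) (.var 3)), (.sub (.sub (.var 2) (.var 0)) (.q 790 1000))] 34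
    64607377419991271842619361138966712242878521683942448129407942854127844900504272896
    ([V.of 10000 1800 4000, V.of 10000 (-180) 985, V.of 10000 9950 10050, V.of 10000 (-930) 1450]) =
    1 := by
  decide +kernel

theorem k_dxp0_p1 : Pool.Agent.Work.NumU.runT [(.sub (.add (.sub (.add (.mul .pi (.add (.mul (.sub (.q 18 100) (.var 0)) (.var 3)) (.mul (.var 1) (.sub (.sub (.var 2) (.var 0)) (.q 1 1))))) (.uu (.add (.q 18 100) (.sub (.var 2) (.var 0))) (.add (.var 1) (.var 3)))) (.uu (.q 18 100) (.var 1))) (.sub (.neg (.uu (.q 5 1000) (.var 3))) (.mul .pi (.var 3)))) (.add (.add (.q 137 625) (.mul (.q (-1019) 1000) (.var 0))) (.mul (.q (-1071) 500) (.var 1)))), (.sub (.var 0) (.var 2)), (.sub (.sub (.var 2) (.var 0)) (.q 86 100)), (.sub (.var 3) (.mul (.q 907 1000) (.sub (.var 2) (.var 0)))), (.sub (.var 3) (.mul (.q 29 100) (.sub (.q 86 100) (.sub (.var 2) (.var 0))))), (.sub (.neg (.mul (.q 62 100) (.sub (.var 2) (.var 0)))) (.var 3)), (.sub (.neg (.mul (.q 465 1000) (.sub (.q 86 100) (.sub (.var 2) (.var 0))))) (.var 3)), (.sub (.sub (.var 2) (.var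 0)) (.q 790 1000))] 34
    25490341038907876301887853985551229215886392995015457659049016969653368638586486437826106074409944087985246460599645719628971441297830634273227257897704357609695479618927582301569795911562173559442838694056276294996846600778922676985396592604099364966082661102927818886915820286758919346956444767358180814526451031997249208259497918901997586871619579341029891978686564828263549574030340236662074292716990359348239363613145170512788217402144
    ([V.of 10000 1800 4000, V.of 10000 (-180) 985, V.of 10000 10050 11900, V.of 10000 0 1450]) =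
    1 := by
  decide +kernel

end E1
end TL
end Pool.Agent.Work.MP_b30479_gt.G2
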