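import Pool.Agent.Work.NumU.TreeS

/-!
# Pieces of the certificates of `TE1C`, part 2
-/

set_option linter.unusedVariables false
set_option linter.unusedSimpArgs false
set_option linter.unusedTactic false
set_option linter.unreachableTactic false
namespace Pool.Agent.Work.MP_b30479_gt.G2
open NumU
open NumU.E
open NumI (V)
namespace TL
namespace E1

theorem k_cxav_p1 : Pool.Agent.Work.NumU.runT [(.sub (.add (.add (.sub (.add (.mul .pi (.add (.mul (.sub (.q 18 100) (.var 0)) (.var 3)) (.mul (.var 1) (.sub (.sub (.var 2) (.var 0)) (.q 1 1))))) (.uu (.add (.q 18 100) (.sub (.var 2) (.var 0))) (.add (.var 1) (.var 3)))) (.uu (.q 18 100) (.var 1))) (.neg (.uu (.var 2) (.var 3)))) (.uu (.q 2 100) (.q 0 1))) (.add (.add (.q (-30) 1000) (.mul (.q 0 1) (.var 0))) (.mul (.q (-3927) 1250) (.var 1)))), (.sub (.add (.sub (.add (.mul .pi (.add (.mul (.sub (.q 18 100) (.var 0)) (.var 3)) (.mul (.var 1) (.sub (.sub (.var 2) (.var 0)) (.q 1 1))))) (.uu (.add (.q 18 100) (.sub (.var 2) (.var 0))) (.add (.var 1) (.var 3)))) (.uu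 (.q 18 100) (.var 1))) (.neg (.uu (.var 2) (.var 3)))) (.add (.add (.q (-2039) 10000) (.mul (.q 653 500) (.var 0))) (.mul (.q (-643) 500) (.var 1)))), (.sub (.var 0) (.var 2)), (.sub (.var 3) (.mul (.q 907 1000) (.sub (.var 2) (.var 0)))), (.sub (.var 3) (.mul (.q 29 100) (.sub (.q 86 100) (.sub (.var 2) (.var 0))))), (.sub (.neg (.mul (.q 62 100) (.sub (.var 2) (.var 0)))) (.var 3)), (.sub (.neg (.mul (.q 465 1000) (.sub (.q 86 100) (.sub (.var 2) (.var 0))))) (.var 3)), (.sub (.sub (.var 2) (.var 0)) (.q 790 1000))] 34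
    24353436973387827301544493564991753858376674018687532303512940078539205089400001300770
    ([V.of 10000 0 200, V.of 10000 (-180) 985, V.of 10000 1600 8100, V.of 10000 (-930) 1450]) =
    1 := by
  decide +kernel

theorem k_cbaw_p1_q1 : Pool.Agent.Work.NumU.runT [(.sub (.add (.add (.sub (.add (.mul .pi (.add (.mul (.sub (.q 18 100) (.var 0)) (.var 3)) (.mul (.var 1) (.sub (.sub (.var 2) (.var 0)) (.q 1 1))))) (.uu (.q 995 1000) (.add (.var 1) (.var 3)))) (.uu (.q 18 100) (.var 1))) (.neg (.uu (.var 2) (.var 3)))) (.uu (.var 0) (.q 0 1))) (.add (.add (.q (-30) 1000) (.mul (.q 0 1) (.var 0))) (.mul (.q (-3927) 1250) (.var 1)))), (.sub (.add (.sub (.add (.mul .pi (.add (.mul (.sub (.q 18 100) (.var 0)) (.var 3)) (.mul (.var 1) (.sub (.sub (.var 2) (.var 0)) (.q 1 1))))) (.uu (.q 995 1000) (.add (.var 1) (.var 3)))) (.uu (.q 18 100) (.var 1))) (.neg (.uu (.var 2) (.var 3)))) (.add (.add (.q (-2039) 10000) (.mul (.q 653 500) (.var 0))) (.mul (.q (-643) 500) (.var 1)))), (.sub (.var 3) (.mul (.q 29 100) (.sub (.q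 86 100) (.sub (.var 2) (.var 0))))), (.sub (.neg (.mul (.q 465 1000) (.sub (.q 86 100) (.sub (.var 2) (.var 0))))) (.var 3)), (.sub (.sub (.var 2) (.var 0)) (.q 815 1000)), (.sub (.q 790 1000) (.sub (.var 2) (.var 0)))] 33
    1084448879008317798474037861488029594812569106437178451430760469005001490963589477404395338119603513532477452801777691422735189702024862633732369575833950797995461499079171378716004143900623739928534361294253900590152615086930288203654056161838915957224984556028536824684619242999942985128892669032772961747921436749668942310333475631710045623929387362366231680824091987064714384757027663799874656067176303152086932385654051601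
    (Pool.Agent.Work.NumI.setL 2 (([V.of 10000 200 1800, V.of 10000 (-180) 985, V.of 10000 8100 9850, V.of 10000 (-326) 203]))) =
    364259660708394537690475940736137450406251280553218998386255214644738363793762876363993146990339846409457886241409664730295691711335356755894762253459820174416639979060979262325680338127119560365143386621023719219663680019908731003737082667016753562141046836252955109578608252342429102355 := by
  decide +kernel

theorem k_cbaw_p1_q2 : Pool.Agent.Work.NumU.runT [(.sub (.add (.add (.sub (.add (.mul .pi (.add (.mul (.sub (.q 18 100) (.var 0)) (.var 3)) (.mul (.var 1) (.sub (.sub (.var 2) (.var 0)) (.q 1 1))))) (.uu (.q 995 1000) (.add (.var 1) (.var 3)))) (.uu (.q 18 100) (.var 1))) (.neg (.uu (.var 2) (.var 3)))) (.uu (.var 0) (.q 0 1))) (.add (.add (.q (-30) 1000) (.mul (.q 0 1) (.var 0))) (.mul (.q (-3927) 1250) (.var 1)))), (.sub (.add (.sub (.add (.mul .pi (.add (.mul (.sub (.q 18 100) (.var 0)) (.var 3)) (.mul (.var 1) (.sub (.sub (.var 2) (.var 0)) (.q 1 1))))) (.uu (.q 995 1000)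 (.add (.var 1) (.var 3)))) (.uu (.q 18 100) (.var 1))) (.neg (.uu (.var 2) (.var 3)))) (.add (.add (.q (-2039) 10000) (.mul (.q 653 500) (.var 0))) (.mul (.q (-643) 500) (.var 1)))), (.sub (.var 3) (.mul (.q 29 100) (.sub (.q 86 100) (.sub (.var 2) (.var 0))))), (.sub (.neg (.mul (.q 465 1000) (.sub (.q 86 100) (.sub (.var 2) (.var 0))))) (.var 3)), (.sub (.sub (.var 2) (.var 0)) (.q 815 1000)), (.sub (.q 790 1000) (.sub (.var 2) (.var 0)))] 33
    364259660708394537690475940736137450406251280553218998386255214644738363793762876363993146990339846409457886241409664730295691711335356755894762253459820174416639979060979262325680338127119560365143386621023719219663680019908731003737082667016753562141046836252955109578608252342429102354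
    (Pool.Agent.Work.NumI.setR 2 (([V.of 10000 200 1800, V.of 10000 (-180) 985, V.of 10000 8100 9850, V.of 10000 (-326) 203]))) =
    1 := by
  decide +kernel

theorem k_cbaw_p1 : Pool.Agent.Work.NumU.runT [(.sub (.add (.add (.sub (.add (.mul .pi (.add (.mul (.sub (.q 18 100) (.var 0)) (.var 3)) (.mul (.var 1) (.sub (.sub (.var 2) (.var 0)) (.q 1 1))))) (.uu (.q 995 1000) (.add (.var 1) (.var 3)))) (.uu (.q 18 100) (.var 1))) (.neg (.uu (.var 2) (.var 3)))) (.uu (.var 0) (.q 0 1))) (.add (.add (.q (-30) 1000) (.mul (.q 0 1) (.var 0))) (.mul (.q (-3927) 1250) (.var 1)))), (.sub (.add (.sub (.add (.mul .pi (.add (.mul (.sub (.q 18 100) (.var 0)) (.var 3)) (.mul (.var 1) (.sub (.sub (.var 2) (.var 0)) (.q 1 1))))) (.uu (.q 995 1000) (.add (.var 1) (.var 3)))) (.uu (.q 18 100) (.var 1))) (.neg (.uu (.var 2) (.var 3)))) (.add (.add (.q (-2039) 10000) (.mul (.q 653 500) (.var 0))) (.mul (.q (-643) 500) (.var 1)))), (.sub (.var 3) (.mul (.q 29 100) (.sub (.q 86 100) (.sub (.var 2) (.var 0))))), (.sub (.neg (.mul (.q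 465 1000) (.sub (.q 86 100) (.sub (.var 2) (.var 0))))) (.var 3)), (.sub (.sub (.var 2) (.var 0)) (.q 815 1000)), (.sub (.q 790 1000) (.sub (.var 2) (.var 0)))] 34
    17351182064133084775584605783808473517001105702994855222892167504080023855417431638470325409913656216519639244828443062763763035232397802139717913213343212767927383985266742059456066302409979838856549780708062409442441841390884611258464898589422655315599752896456589194953907887999087762062282704524367387966742987994703076965335610107360729982870197797859706893185471793035430156112442620797994497074820850433390918170464825618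
    ([V.of 10000 200 1800, V.of 10000 (-180) 985, V.of 10000 8100 9850, V.of 10000 (-326) 203]) =
    1 :=
      Pool.Agent.Work.NumU.runT_split rfl rfl rfl
        k_cbaw_p1_q1
        k_cbaw_p1_q2

theorem k_cdaw_p1 : Pool.Agent.Work.NumU.runT [(.sub (.add (.add (.sub (.add (.mul .pi (.add (.mul (.sub (.q 18 100) (.var 0)) (.var 3)) (.mul (.var 1) (.sub (.sub (.var 2) (.var 0)) (.q 1 1))))) (.add (.uu (.q 5 1000) (.add (.var 1) (.var 3))) (.mul .pi (.add (.var 1) (.var 3))))) (.uu (.q 18 100) (.var 1))) (.neg (.uu (.var 2) (.var 3)))) (.uu (.var 0) (.q 0 1))) (.add (.add (.q (-30) 1000) (.mul (.q 0 1) (.var 0))) (.mul (.q (-3927) 1250) (.var 1)))), (.sub (.add (.sub (.add (.mul .pi (.add (.mul (.sub (.q 18 100) (.var 0)) (.var 3)) (.mul (.var 1) (.sub (.sub (.var 2) (.var 0)) (.q 1 1))))) (.add (.uu (.q 5 1000) (.add (.var 1) (.var 3))) (.mul .pi (.add (.var 1) (.var 3))))) (.uu (.q 18 100) (.var 1))) (.neg (.uu (.var 2) (.var 3)))) (.add (.add (.q (-2039) 10000) (.mul (.q 653 500) (.var 0))) (.mul (.q (-643)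 500) (.var 1)))), (.sub (.add (.add (.sub (.add (.mul .pi (.add (.mul (.sub (.q 18 100) (.var 0)) (.var 3)) (.mul (.var 1) (.sub (.sub (.var 2) (.var 0)) (.q 1 1))))) (.sub (.uu (.q 5 1000) (.add (.var 1) (.var 3))) (.mul .pi (.add (.var 1) (.var 3))))) (.uu (.q 18 100) (.var 1))) (.neg (.uu (.var 2) (.var 3)))) (.uu (.var 0) (.q 0 1))) (.add (.add (.q (-30) 1000) (.mul (.q 0 1) (.var 0))) (.mul (.q (-3927) 1250) (.var 1)))), (.sub (.add (.sub (.add (.mul .pi (.add (.mul (.sub (.q 18 100) (.var 0)) (.var 3)) (.mul (.var 1) (.sub (.sub (.var 2) (.var 0)) (.q 1 1))))) (.sub (.uu (.q 5 1000) (.add (.var 1) (.var 3))) (.mul .pi (.add (.var 1) (.var 3))))) (.uu (.q 18 100) (.var 1))) (.neg (.uu (.var 2) (.var 3)))) (.add (.add (.q (-2039) 10000) (.mul (.q 653 500) (.var 0))) (.mul (.q (-643) 500) (.var 1)))), (.sub (.var 3) (.mul (.q 29 100) (.sub (.q 86 100) (.sub (.var 2) (.var 0))))), (.sub (.neg (.mul (.q 465 1000) (.sub (.q 86 100) (.sub (.var 2) (.var 0))))) (.var 3)), (.sub (.sub (.var 2) (.var 0)) (.q 825 1000)),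 (.sub (.q 815 1000) (.sub (.var 2) (.var 0)))] 34
    3048617296579624117532096304921758433291117725162796969536855994676484263220813783629616876838735086341002443510585859814948652977497130973108296399071966514723091095281073932190356342069427480155107364762601575207875560590364721318668369886740308631322321806399628994088180229147401048794240536717595288281548566848276325928768860871885217448305564105501527699518629032126441521426
    ([V.of 10000 200 1800, V.of 10000 (-180) 985, V.of 10000 8350 9850, V.of 10000 (-210) 131]) =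
    1 := by
  decide +kernel

theorem k_ceaw_p1 : Pool.Agent.Work.NumU.runT [(.sub (.add (.add (.sub (.add (.mul .pi (.add (.mul (.sub (.q 18 100) (.var 0)) (.var 3)) (.mul (.var 1) (.sub (.sub (.var 2) (.var 0)) (.q 1 1))))) (.add (.uu (.q 15 1000) (.add (.var 1) (.var 3))) (.mul .pi (.add (.var 1) (.var 3))))) (.uu (.q 18 100) (.var 1))) (.neg (.uu (.var 2) (.var 3)))) (.uu (.var 0) (.q 0 1))) (.add (.add (.q (-30) 1000) (.mul (.q 0 1) (.var 0))) (.mul (.q (-3927) 1250) (.var 1)))), (.sub (.add (.sub (.add (.mul .pi (.add (.mul (.sub (.q 18 100) (.var 0)) (.var 3)) (.mul (.var 1) (.sub (.sub (.var 2) (.var 0)) (.q 1 1))))) (.add (.uu (.q 15 1000) (.add (.var 1) (.var 3))) (.mul .pi (.add (.var 1) (.var 3))))) (.uu (.q 18 100) (.var 1))) (.neg (.uu (.var 2) (.var 3)))) (.add (.add (.q (-2039) 10000) (.mul (.q 653 500) (.var 0))) (.mul (.q (-643) 500) (.var 1)))), (.sub (.add (.add (.sub (.add (.mul .pi (.add (.mul (.sub (.q 18 100) (.var 0)) (.var 3)) (.mul (.var 1) (.sub (.sub (.var 2) (.var 0)) (.q 1 1)))))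 (.sub (.uu (.q 15 1000) (.add (.var 1) (.var 3))) (.mul .pi (.add (.var 1) (.var 3))))) (.uu (.q 18 100) (.var 1))) (.neg (.uu (.var 2) (.var 3)))) (.uu (.var 0) (.q 0 1))) (.add (.add (.q (-30) 1000) (.mul (.q 0 1) (.var 0))) (.mul (.q (-3927) 1250) (.var 1)))), (.sub (.add (.sub (.add (.mul .pi (.add (.mul (.sub (.q 18 100) (.var 0)) (.var 3)) (.mul (.var 1) (.sub (.sub (.var 2) (.var 0)) (.q 1 1))))) (.sub (.uu (.q 15 1000) (.add (.var 1) (.var 3))) (.mul .pi (.add (.var 1) (.var 3))))) (.uu (.q 18 100) (.var 1))) (.neg (.uu (.var 2) (.var 3)))) (.add (.add (.q (-2039) 10000) (.mul (.q 653 500) (.var 0))) (.mul (.q (-643) 500) (.var 1)))), (.sub (.var 3) (.mul (.q 29 100) (.sub (.q 86 100) (.sub (.var 2) (.var 0))))), (.sub (.neg (.mul (.q 465 1000) (.sub (.q 86 100) (.sub (.var 2) (.var 0))))) (.var 3)), (.sub (.sub (.var 2) (.var 0)) (.q 835 1000)), (.sub (.q 825 1000) (.sub (.var 2) (.var 0)))] 34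
    136285719602087468298815039572216000195130135313267155925163883289023798319947083529218225062047819636394274424680031817627663625659535556607911072992747568991165521326260850794018578013704836352781734538084140280606015059465644055126404320825307731420021115190965052244451795244106082141658618940096954963272157315071321162177658717540610
    ([V.of 10000 200 1800, V.of 10000 (-180) 985, V.of 10000 8450 9850, V.of 10000 (-163) 102]) =
    1 := by
  decide +kernel

end E1
end TL
end Pool.Agent.Work.MP_b30479_gt.G2
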