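import Pool.Agent.Work.MP_b30479_gt.G2.TE1Cs1
import Pool.Agent.Work.MP_b30479_gt.G2.TE1Cs2

/-!
# Tails, rows `E1`, `E2`: certificates (class two, `w ≤ 18/100`)

Variables: `w`, `t`, `s = w + X`, `Y`.  `U`, `S`, `W` stand for `uu (18/100 + X) (t + Y)`, `-uu s Y`,
`uu w 0`.
-/

set_option linter.unusedVariables false
set_option linter.unusedSimpArgs false
set_option linter.unusedTactic false
set_option linter.unreachableTactic false

namespace Pool.Agent.Work.MP_b30479_gt.G2

open NumU
open NumU.E
open NumI (V)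

namespace TL

namespace E1

/-- 96 boxes -/
theorem k_cxlo {w t s Y U S W : ℝ}
    (a0 : 0 ≤ w) (b0 : w ≤ 1600 / 10000)
    (a1 : -(180 / 10000) ≤ t) (b1 : t ≤ 985 / 10000)
    (a2 : 0 ≤ s) (b2 : s ≤ 1600 / 10000)
    (a3 : -(930 / 10000) ≤ Y) (b3 : Y ≤ 1450 / 10000)
    (r1 : w ≤ s) (r2 : s - w ≤ 86 / 100)
    (r3 : Y ≤ 907 / 1000 * (s - w)) (r4 : Y ≤ 29 / 100 * (86 / 100 - (s - w)))
    (r5 : -(62 / 100 * (s - w)) ≤ Y) (r6 : -(465 / 1000 * (86 / 100 - (s - w))) ≤ Y)
    (u0 : uu (18 / 100 + (s - w)) (t + Y) ≤ U)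
    (hS : -uu s Y ≤ S) (hW : 0 ≤ S + W)
    (h1 : Real.pi * ((18 / 100 - w) * Y + t * (s - w - 1)) + U - uu (18 / 100) t + S + W < -(30
      / 1000) - 3927 / 1250 * t)
    (h2 : Real.pi * ((18 / 100 - w) * Y + t * (s - w - 1)) + U - uu (18 / 100) t + S < -(2039 /
      10000) + 653 / 500 * w - 643 / 500 * t) : False := by
  have h : chkT [(.sub (.sub (.add (.mul .pi (.add (.mul (.sub (.q 18 100) (.var 0)) (.var 3)) (.mul (.var 1)
      (.sub (.sub (.var 2) (.var 0)) (.q 1 1))))) (.uu (.add (.q 18 100) (.sub (.var 2) (.var 0)))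
      (.add (.var 1) (.var 3)))) (.uu (.q 18 100) (.var 1))) (.add (.add (.q (-30) 1000) (.mul (.q
      0 1) (.var 0))) (.mul (.q (-3927) 1250) (.var 1)))), (.sub (.add (.sub (.add (.mul .pi (.add
      (.mul (.sub (.q 18 100) (.var 0)) (.var 3)) (.mul (.var 1) (.sub (.sub (.var 2) (.var 0))
      (.q 1 1))))) (.uu (.add (.q 18 100) (.sub (.var 2) (.var 0))) (.add (.var 1) (.var 3))))
      (.uu (.q 18 100) (.var 1))) (.neg (.uu (.var 2) (.var 3)))) (.add (.add (.q (-2039) 10000)
      (.mul (.q 653 500) (.var 0))) (.mul (.q (-643) 500) (.var 1)))), (.sub (.var 0) (.var 2)),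
      (.sub (.sub (.var 2) (.var 0)) (.q 86 100)), (.sub (.var 3) (.mul (.q 907 1000) (.sub (.var
      2) (.var 0)))), (.sub (.var 3) (.mul (.q 29 100) (.sub (.q 86 100) (.sub (.var 2) (.var
      0))))), (.sub (.neg (.mul (.q 62 100) (.sub (.var 2) (.var 0)))) (.var 3)), (.sub (.neg
      (.mul (.q 465 1000) (.sub (.q 86 100) (.sub (.var 2) (.var 0))))) (.var 3))] 34
      77619919850792969541513957996938899338219103692268673453294600779827405067559466163190917196870980372402926809913314482720329130430677633154040608787759572863476054007066736115783113110261729382757032854052360427415502746801996576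
      [V.of 10000 0 1600, V.of 10000 (-180) 985, V.of 10000 0 1600, V.of 10000 (-930) 1450] = true :=
      Pool.Agent.Work.NumU.chkT_of k_cxlo_p1
  obtain ⟨e, he, hp⟩ := chkT4 h (by norm_num) (x := w) (y := t) (z := s) (w := Y)
    (le_trans (by norm_num) a0) (le_trans b0 (by norm_num))
    (le_trans (by norm_num) a1) (le_trans b1 (by norm_num))
    (le_trans (by norm_num) a2) (le_trans b2 (by norm_num))
    (le_trans (by norm_num) a3) (le_trans b3 (by norm_num))
  simp only [List.mem_cons, List.not_mem_nil, or_false] at he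
  rcases he with rfl | rfl | rfl | rfl | rfl | rfl | rfl | rfl
  · simp only [E.val, NumI.lkR] at hp
    push_cast at hp
    try simp only [zero_div, div_one] at hp
    linarith only [u0, hW, h1, hp]
  · simp only [E.val, NumI.lkR] at hp
    push_cast at hp
    try simp only [zero_div, div_one] at hp
    linarith only [u0, hS, h2, hp]
  · simp only [E.val, NumI.lkR] at hp
    push_cast at hp
    try simp only [zero_div, div_one] at hp
    linarith only [r1, hp]
  · simp only [E.val, NumI.lkR] at hp
    push_cast at hp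
    try simp only [zero_div, div_one] at hp
    linarith only [a0, b2, hp]
  · simp only [E.val, NumI.lkR] at hp
    push_cast at hp
    try simp only [zero_div, div_one] at hp
    linarith only [r3, hp]
  · simp only [E.val, NumI.lkR] at hp
    push_cast at hp
    try simp only [zero_div, div_one] at hp
    linarith only [a0, b2, b3, hp]
  · simp only [E.val, NumI.lkR] at hp
    push_cast at hp
    try simp only [zero_div, div_one] at hp
    linarith only [r5, hp]
  · simp only [E.val, NumI.lkR] at hp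
    push_cast at hp
    try simp only [zero_div, div_one] at hp
    linarith only [a0, b2, a3, hp]

/-- 518 boxes -/
theorem k_cxaw {w t s Y U S W : ℝ}
    (a0 : 200 / 10000 ≤ w) (b0 : w ≤ 1800 / 10000)
    (a1 : -(180 / 10000) ≤ t) (b1 : t ≤ 985 / 10000)
    (a2 : 1600 / 10000 ≤ s) (b2 : s ≤ 9700 / 10000)
    (a3 : -(930 / 10000) ≤ Y) (b3 : Y ≤ 1450 / 10000)
    (r1 : w ≤ s) (r2 : s - w ≤ 86 / 100)
    (r3 : Y ≤ 907 / 1000 * (s - w)) (r4 : Y ≤ 29 / 100 * (86 / 100 - (s - w)))
    (r5 : -(62 / 100 * (s - w)) ≤ Y) (r6 : -(465 / 1000 * (86 / 100 - (s - w))) ≤ Y)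
    (x1 : s - w ≤ 790 / 1000)
    (u0 : uu (18 / 100 + (s - w)) (t + Y) ≤ U)
    (hS : -uu s Y ≤ S) (hW : uu w 0 ≤ W)
    (h1 : Real.pi * ((18 / 100 - w) * Y + t * (s - w - 1)) + U - uu (18 / 100) t + S + W < -(30
      / 1000) - 3927 / 1250 * t)
    (h2 : Real.pi * ((18 / 100 - w) * Y + t * (s - w - 1)) + U - uu (18 / 100) t + S < -(2039 /
      10000) + 653 / 500 * w - 643 / 500 * t) : False := by
  have h : chkT [(.sub (.add (.add (.sub (.add (.mul .pi (.add (.mul (.sub (.q 18 100) (.var 0)) (.var 3))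
      (.mul (.var 1) (.sub (.sub (.var 2) (.var 0)) (.q 1 1))))) (.uu (.add (.q 18 100) (.sub
      (.var 2) (.var 0))) (.add (.var 1) (.var 3)))) (.uu (.q 18 100) (.var 1))) (.neg (.uu (.var
      2) (.var 3)))) (.uu (.var 0) (.q 0 1))) (.add (.add (.q (-30) 1000) (.mul (.q 0 1) (.var
      0))) (.mul (.q (-3927) 1250) (.var 1)))), (.sub (.add (.sub (.add (.mul .pi (.add (.mul
      (.sub (.q 18 100) (.var 0)) (.var 3)) (.mul (.var 1) (.sub (.sub (.var 2) (.var 0)) (.q 1
      1))))) (.uu (.add (.q 18 100) (.sub (.var 2) (.var 0))) (.add (.var 1) (.var 3)))) (.uu (.q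
      18 100) (.var 1))) (.neg (.uu (.var 2) (.var 3)))) (.add (.add (.q (-2039) 10000) (.mul (.q
      653 500) (.var 0))) (.mul (.q (-643) 500) (.var 1)))), (.sub (.var 0) (.var 2)), (.sub (.var
      3) (.mul (.q 907 1000) (.sub (.var 2) (.var 0)))), (.sub (.var 3) (.mul (.q 29 100) (.sub
      (.q 86 100) (.sub (.var 2) (.var 0))))), (.sub (.neg (.mul (.q 62 100) (.sub (.var 2) (.var
      0)))) (.var 3)), (.sub (.neg (.mul (.q 465 1000) (.sub (.q 86 100) (.sub (.var 2) (.var
      0))))) (.var 3)), (.sub (.sub (.var 2) (.var 0)) (.q 790 1000))] 34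
      14680309007803047564639449179929292465991232188492920213135884442660659029312678046886809041563810919402535621359930779896475718968662599941833933278750665630367389995412446956201290211624129899819320234803421735240095834346243811270120059893395333231565632417933711158534382846916095814900196623711381626061814011402925713307601500184313428920157451595015306473092924756123261111603894608075053517356605022693682363672505576949779100882367824606597460518204063466029475410503659657357990095082579658078761599355276584844266161558040332314027235001059539170273955910612235104817323382571336142953846674654817442219759671995051151960511140424549095836063556194167522293112665353976981859253108572675426497556299545913004658820336846954328544348687392160719965158469613614567957453663022045694719094480811853200888467041027148334587542245221700541754483944571272498554665385119077041359019878660647253072060392678239497460767156346643065211021752475064443577362428177644934277457921665202933674408563598345671418891834871924935156134055867743634114097378392313121168667916197778599313651230081526121969409590231634044718928529274943647179133043321502781976915330097474538274754592726027320873676751051212854149599167712057723057380411603497287615010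
      [V.of 10000 200 1800, V.of 10000 (-180) 985, V.of 10000 1600 9700, V.of 10000 (-930) 1450] = true :=
      Pool.Agent.Work.NumU.chkT_of (Pool.Agent.Work.NumU.runT_split rfl rfl rfl
        k_cxaw_p1
        (Pool.Agent.Work.NumU.runT_split rfl rfl rfl
          k_cxaw_p2
          (Pool.Agent.Work.NumU.runT_split rfl rfl rfl
            (Pool.Agent.Work.NumU.runT_split rfl rfl rfl
              k_cxaw_p3
              k_cxaw_p4)
            k_cxaw_p5)))
  obtain ⟨e, he, hp⟩ := chkT4 h (by norm_num) (x := w) (y := t) (z := s) (w := Y)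
    (le_trans (by norm_num) a0) (le_trans b0 (by norm_num))
    (le_trans (by norm_num) a1) (le_trans b1 (by norm_num))
    (le_trans (by norm_num) a2) (le_trans b2 (by norm_num))
    (le_trans (by norm_num) a3) (le_trans b3 (by norm_num))
  simp only [List.mem_cons, List.not_mem_nil, or_false] at he
  rcases he with rfl | rfl | rfl | rfl | rfl | rfl | rfl | rfl
  · simp only [E.val, NumI.lkR] at hp
    push_cast at hp
    try simp only [zero_div, div_one] at hp
    linarith only [u0, hS, hW, h1, hp]
  · simp only [E.val, NumI.lkR] at hp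
    push_cast at hp
    try simp only [zero_div, div_one] at hp
    linarith only [u0, hS, h2, hp]
  · simp only [E.val, NumI.lkR] at hp
    push_cast at hp
    try simp only [zero_div, div_one] at hp
    linarith only [r1, hp]
  · simp only [E.val, NumI.lkR] at hp
    push_cast at hp
    try simp only [zero_div, div_one] at hp
    linarith only [r3, hp]
  · simp only [E.val, NumI.lkR] at hp
    push_cast at hp
    try simp only [zero_div, div_one] at hp
    linarith only [r4, hp]
  · simp only [E.val, NumI.lkR] at hp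
    push_cast at hp
    try simp only [zero_div, div_one] at hp
    linarith only [r5, hp]
  · simp only [E.val, NumI.lkR] at hp
    push_cast at hp
    try simp only [zero_div, div_one] at hp
    linarith only [r6, hp]
  · simp only [E.val, NumI.lkR] at hp
    push_cast at hp
    try simp only [zero_div, div_one] at hp
    linarith only [x1, hp]

/-- 36 boxes -/
theorem k_cxav {w t s Y U S W : ℝ}
    (a0 : 0 ≤ w) (b0 : w ≤ 200 / 10000)
    (a1 : -(180 / 10000) ≤ t) (b1 : t ≤ 985 / 10000)
    (a2 : 1600 / 10000 ≤ s) (b2 : s ≤ 8100 / 10000)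
    (a3 : -(930 / 10000) ≤ Y) (b3 : Y ≤ 1450 / 10000)
    (r1 : w ≤ s) (r2 : s - w ≤ 86 / 100)
    (r3 : Y ≤ 907 / 1000 * (s - w)) (r4 : Y ≤ 29 / 100 * (86 / 100 - (s - w)))
    (r5 : -(62 / 100 * (s - w)) ≤ Y) (r6 : -(465 / 1000 * (86 / 100 - (s - w))) ≤ Y)
    (x1 : s - w ≤ 790 / 1000)
    (u0 : uu (18 / 100 + (s - w)) (t + Y) ≤ U)
    (hS : -uu s Y ≤ S) (hW : uu (2 / 100) 0 ≤ W)
    (h1 : Real.pi * ((18 / 100 - w) * Y + t * (s - w - 1)) + U - uu (18 / 100) t + S + W < -(30
      / 1000) - 3927 / 1250 * t)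
    (h2 : Real.pi * ((18 / 100 - w) * Y + t * (s - w - 1)) + U - uu (18 / 100) t + S < -(2039 /
      10000) + 653 / 500 * w - 643 / 500 * t) : False := by
  have h : chkT [(.sub (.add (.add (.sub (.add (.mul .pi (.add (.mul (.sub (.q 18 100) (.var 0)) (.var 3))
      (.mul (.var 1) (.sub (.sub (.var 2) (.var 0)) (.q 1 1))))) (.uu (.add (.q 18 100) (.sub
      (.var 2) (.var 0))) (.add (.var 1) (.var 3)))) (.uu (.q 18 100) (.var 1))) (.neg (.uu (.var
      2) (.var 3)))) (.uu (.q 2 100) (.q 0 1))) (.add (.add (.q (-30) 1000) (.mul (.q 0 1) (.var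
      0))) (.mul (.q (-3927) 1250) (.var 1)))), (.sub (.add (.sub (.add (.mul .pi (.add (.mul
      (.sub (.q 18 100) (.var 0)) (.var 3)) (.mul (.var 1) (.sub (.sub (.var 2) (.var 0)) (.q 1
      1))))) (.uu (.add (.q 18 100) (.sub (.var 2) (.var 0))) (.add (.var 1) (.var 3)))) (.uu (.q
      18 100) (.var 1))) (.neg (.uu (.var 2) (.var 3)))) (.add (.add (.q (-2039) 10000) (.mul (.q
      653 500) (.var 0))) (.mul (.q (-643) 500) (.var 1)))), (.sub (.var 0) (.var 2)), (.sub (.var
      3) (.mul (.q 907 1000) (.sub (.var 2) (.var 0)))), (.sub (.var 3) (.mul (.q 29 100) (.sub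
      (.q 86 100) (.sub (.var 2) (.var 0))))), (.sub (.neg (.mul (.q 62 100) (.sub (.var 2) (.var
      0)))) (.var 3)), (.sub (.neg (.mul (.q 465 1000) (.sub (.q 86 100) (.sub (.var 2) (.var
      0))))) (.var 3)), (.sub (.sub (.var 2) (.var 0)) (.q 790 1000))] 34
      24353436973387827301544493564991753858376674018687532303512940078539205089400001300770
      [V.of 10000 0 200, V.of 10000 (-180) 985, V.of 10000 1600 8100, V.of 10000 (-930) 1450] = true :=
      Pool.Agent.Work.NumU.chkT_of k_cxav_p1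
  obtain ⟨e, he, hp⟩ := chkT4 h (by norm_num) (x := w) (y := t) (z := s) (w := Y)
    (le_trans (by norm_num) a0) (le_trans b0 (by norm_num))
    (le_trans (by norm_num) a1) (le_trans b1 (by norm_num))
    (le_trans (by norm_num) a2) (le_trans b2 (by norm_num))
    (le_trans (by norm_num) a3) (le_trans b3 (by norm_num))
  simp only [List.mem_cons, List.not_mem_nil, or_false] at he
  rcases he with rfl | rfl | rfl | rfl | rfl | rfl | rfl | rfl
  · simp only [E.val, NumI.lkR] at hp
    push_cast at hp
    try simp only [zero_div, div_one] at hp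
    linarith only [u0, hS, hW, h1, hp]
  · simp only [E.val, NumI.lkR] at hp
    push_cast at hp
    try simp only [zero_div, div_one] at hp
    linarith only [u0, hS, h2, hp]
  · simp only [E.val, NumI.lkR] at hp
    push_cast at hp
    try simp only [zero_div, div_one] at hp
    linarith only [b0, a2, hp]
  · simp only [E.val, NumI.lkR] at hp
    push_cast at hp
    try simp only [zero_div, div_one] at hp
    linarith only [r3, hp]
  · simp only [E.val, NumI.lkR] at hp
    push_cast at hp
    try simp only [zero_div, div_one] at hp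
    linarith only [r4, hp]
  · simp only [E.val, NumI.lkR] at hp
    push_cast at hp
    try simp only [zero_div, div_one] at hp
    linarith only [r5, hp]
  · simp only [E.val, NumI.lkR] at hp
    push_cast at hp
    try simp only [zero_div, div_one] at hp
    linarith only [r6, hp]
  · simp only [E.val, NumI.lkR] at hp
    push_cast at hp
    try simp only [zero_div, div_one] at hp
    linarith only [x1, hp]

/-- 178 boxes -/
theorem k_cbaw {w t s Y U S W : ℝ}
    (a0 : 200 / 10000 ≤ w) (b0 : w ≤ 1800 / 10000)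
    (a1 : -(180 / 10000) ≤ t) (b1 : t ≤ 985 / 10000)
    (a2 : 8100 / 10000 ≤ s) (b2 : s ≤ 9850 / 10000)
    (a3 : -(326 / 10000) ≤ Y) (b3 : Y ≤ 203 / 10000)
    (r1 : w ≤ s) (r2 : s - w ≤ 86 / 100)
    (r3 : Y ≤ 907 / 1000 * (s - w)) (r4 : Y ≤ 29 / 100 * (86 / 100 - (s - w)))
    (r5 : -(62 / 100 * (s - w)) ≤ Y) (r6 : -(465 / 1000 * (86 / 100 - (s - w))) ≤ Y)
    (x0 : 790 / 1000 ≤ s - w) (x1 : s - w ≤ 815 / 1000)
    (u0 : uu (995 / 1000) (t + Y) ≤ U)
    (hS : -uu s Y ≤ S) (hW : uu w 0 ≤ W)
    (h1 : Real.pi * ((18 / 100 - w) * Y + t * (s - w - 1)) + U - uu (18 / 100) t + S + W < -(30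
      / 1000) - 3927 / 1250 * t)
    (h2 : Real.pi * ((18 / 100 - w) * Y + t * (s - w - 1)) + U - uu (18 / 100) t + S < -(2039 /
      10000) + 653 / 500 * w - 643 / 500 * t) : False := by
  have h : chkT [(.sub (.add (.add (.sub (.add (.mul .pi (.add (.mul (.sub (.q 18 100) (.var 0)) (.var 3))
      (.mul (.var 1) (.sub (.sub (.var 2) (.var 0)) (.q 1 1))))) (.uu (.q 995 1000) (.add (.var 1)
      (.var 3)))) (.uu (.q 18 100) (.var 1))) (.neg (.uu (.var 2) (.var 3)))) (.uu (.var 0) (.q 0
      1))) (.add (.add (.q (-30) 1000) (.mul (.q 0 1) (.var 0))) (.mul (.q (-3927) 1250) (.var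
      1)))), (.sub (.add (.sub (.add (.mul .pi (.add (.mul (.sub (.q 18 100) (.var 0)) (.var 3))
      (.mul (.var 1) (.sub (.sub (.var 2) (.var 0)) (.q 1 1))))) (.uu (.q 995 1000) (.add (.var 1)
      (.var 3)))) (.uu (.q 18 100) (.var 1))) (.neg (.uu (.var 2) (.var 3)))) (.add (.add (.q
      (-2039) 10000) (.mul (.q 653 500) (.var 0))) (.mul (.q (-643) 500) (.var 1)))), (.sub (.var
      3) (.mul (.q 29 100) (.sub (.q 86 100) (.sub (.var 2) (.var 0))))), (.sub (.neg (.mul (.q
      465 1000) (.sub (.q 86 100) (.sub (.var 2) (.var 0))))) (.var 3)), (.sub (.sub (.var 2)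
      (.var 0)) (.q 815 1000)), (.sub (.q 790 1000) (.sub (.var 2) (.var 0)))] 34
      17351182064133084775584605783808473517001105702994855222892167504080023855417431638470325409913656216519639244828443062763763035232397802139717913213343212767927383985266742059456066302409979838856549780708062409442441841390884611258464898589422655315599752896456589194953907887999087762062282704524367387966742987994703076965335610107360729982870197797859706893185471793035430156112442620797994497074820850433390918170464825618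
      [V.of 10000 200 1800, V.of 10000 (-180) 985, V.of 10000 8100 9850, V.of 10000 (-326) 203] = true :=
      Pool.Agent.Work.NumU.chkT_of k_cbaw_p1
  obtain ⟨e, he, hp⟩ := chkT4 h (by norm_num) (x := w) (y := t) (z := s) (w := Y)
    (le_trans (by norm_num) a0) (le_trans b0 (by norm_num))
    (le_trans (by norm_num) a1) (le_trans b1 (by norm_num))
    (le_trans (by norm_num) a2) (le_trans b2 (by norm_num))
    (le_trans (by norm_num) a3) (le_trans b3 (by norm_num))
  simp only [List.mem_cons, List.not_mem_nil, or_false] at he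
  rcases he with rfl | rfl | rfl | rfl | rfl | rfl
  · simp only [E.val, NumI.lkR] at hp
    push_cast at hp
    try simp only [zero_div, div_one] at hp
    linarith only [u0, hS, hW, h1, hp]
  · simp only [E.val, NumI.lkR] at hp
    push_cast at hp
    try simp only [zero_div, div_one] at hp
    linarith only [u0, hS, h2, hp]
  · simp only [E.val, NumI.lkR] at hp
    push_cast at hp
    try simp only [zero_div, div_one] at hp
    linarith only [r4, hp]
  · simp only [E.val, NumI.lkR] at hp
    push_cast at hp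
    try simp only [zero_div, div_one] at hp
    linarith only [r6, hp]
  · simp only [E.val, NumI.lkR] at hp
    push_cast at hp
    try simp only [zero_div, div_one] at hp
    linarith only [x1, hp]
  · simp only [E.val, NumI.lkR] at hp
    push_cast at hp
    try simp only [zero_div, div_one] at hp
    linarith only [x0, hp]

/-- 14 boxes -/
theorem k_cbbw {w t s Y U S W : ℝ}
    (a0 : 200 / 10000 ≤ w) (b0 : w ≤ 1800 / 10000)
    (a1 : -(180 / 10000) ≤ t) (b1 : t ≤ 985 / 10000)
    (a2 : 9850 / 10000 ≤ s) (b2 : s ≤ 9950 / 10000)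
    (a3 : -(326 / 10000) ≤ Y) (b3 : Y ≤ 203 / 10000)
    (r1 : w ≤ s) (r2 : s - w ≤ 86 / 100)
    (r3 : Y ≤ 907 / 1000 * (s - w)) (r4 : Y ≤ 29 / 100 * (86 / 100 - (s - w)))
    (r5 : -(62 / 100 * (s - w)) ≤ Y) (r6 : -(465 / 1000 * (86 / 100 - (s - w))) ≤ Y)
    (x0 : 790 / 1000 ≤ s - w) (x1 : s - w ≤ 815 / 1000)
    (u0 : uu (995 / 1000) (t + Y) ≤ U)
    (hS : uu (15 / 1000) Y ≤ S) (hW : uu w 0 ≤ W)
    (h1 : Real.pi * ((18 / 100 - w) * Y + t * (s - w - 1)) + U - uu (18 / 100) t + S + W < -(30
      / 1000) - 3927 / 1250 * t)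
    (h2 : Real.pi * ((18 / 100 - w) * Y + t * (s - w - 1)) + U - uu (18 / 100) t + S < -(2039 /
      10000) + 653 / 500 * w - 643 / 500 * t) : False := by
  have h : chkT [(.sub (.add (.add (.sub (.add (.mul .pi (.add (.mul (.sub (.q 18 100) (.var 0)) (.var 3))
      (.mul (.var 1) (.sub (.sub (.var 2) (.var 0)) (.q 1 1))))) (.uu (.q 995 1000) (.add (.var 1)
      (.var 3)))) (.uu (.q 18 100) (.var 1))) (.uu (.q 15 1000) (.var 3))) (.uu (.var 0) (.q 0
      1))) (.add (.add (.q (-30) 1000) (.mul (.q 0 1) (.var 0))) (.mul (.q (-3927) 1250) (.var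
      1)))), (.sub (.add (.sub (.add (.mul .pi (.add (.mul (.sub (.q 18 100) (.var 0)) (.var 3))
      (.mul (.var 1) (.sub (.sub (.var 2) (.var 0)) (.q 1 1))))) (.uu (.q 995 1000) (.add (.var 1)
      (.var 3)))) (.uu (.q 18 100) (.var 1))) (.uu (.q 15 1000) (.var 3))) (.add (.add (.q (-2039)
      10000) (.mul (.q 653 500) (.var 0))) (.mul (.q (-643) 500) (.var 1)))), (.sub (.var 3) (.mul
      (.q 29 100) (.sub (.q 86 100) (.sub (.var 2) (.var 0))))), (.sub (.neg (.mul (.q 465 1000)
      (.sub (.q 86 100) (.sub (.var 2) (.var 0))))) (.var 3)), (.sub (.sub (.var 2) (.var 0)) (.q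
      815 1000)), (.sub (.q 790 1000) (.sub (.var 2) (.var 0)))] 34
      194708530584331012767522383008529
      [V.of 10000 200 1800, V.of 10000 (-180) 985, V.of 10000 9850 9950, V.of 10000 (-326) 203] = true := by
    decide +kernel
  obtain ⟨e, he, hp⟩ := chkT4 h (by norm_num) (x := w) (y := t) (z := s) (w := Y)
    (le_trans (by norm_num) a0) (le_trans b0 (by norm_num))
    (le_trans (by norm_num) a1) (le_trans b1 (by norm_num))
    (le_trans (by norm_num) a2) (le_trans b2 (by norm_num))
    (le_trans (by norm_num) a3) (le_trans b3 (by norm_num))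
  simp only [List.mem_cons, List.not_mem_nil, or_false] at he
  rcases he with rfl | rfl | rfl | rfl | rfl | rfl
  · simp only [E.val, NumI.lkR] at hp
    push_cast at hp
    try simp only [zero_div, div_one] at hp
    linarith only [u0, hS, hW, h1, hp]
  · simp only [E.val, NumI.lkR] at hp
    push_cast at hp
    try simp only [zero_div, div_one] at hp
    linarith only [u0, hS, h2, hp]
  · simp only [E.val, NumI.lkR] at hp
    push_cast at hp
    try simp only [zero_div, div_one] at hp
    linarith only [r4, hp]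
  · simp only [E.val, NumI.lkR] at hp
    push_cast at hp
    try simp only [zero_div, div_one] at hp
    linarith only [r6, hp]
  · simp only [E.val, NumI.lkR] at hp
    push_cast at hp
    try simp only [zero_div, div_one] at hp
    linarith only [x1, hp]
  · simp only [E.val, NumI.lkR] at hp
    push_cast at hp
    try simp only [zero_div, div_one] at hp
    linarith only [b0, a2, hp]

/-- 9 boxes -/
theorem k_cbav {w t s Y U S W : ℝ}
    (a0 : 0 ≤ w) (b0 : w ≤ 200 / 10000)
    (a1 : -(180 / 10000) ≤ t) (b1 : t ≤ 985 / 10000)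
    (a2 : 7900 / 10000 ≤ s) (b2 : s ≤ 8350 / 10000)
    (a3 : -(326 / 10000) ≤ Y) (b3 : Y ≤ 203 / 10000)
    (r1 : w ≤ s) (r2 : s - w ≤ 86 / 100)
    (r3 : Y ≤ 907 / 1000 * (s - w)) (r4 : Y ≤ 29 / 100 * (86 / 100 - (s - w)))
    (r5 : -(62 / 100 * (s - w)) ≤ Y) (r6 : -(465 / 1000 * (86 / 100 - (s - w))) ≤ Y)
    (x0 : 790 / 1000 ≤ s - w) (x1 : s - w ≤ 815 / 1000)
    (u0 : uu (995 / 1000) (t + Y) ≤ U)
    (hS : -uu s Y ≤ S) (hW : uu (2 / 100) 0 ≤ W)
    (h1 : Real.pi * ((18 / 100 - w) * Y + t * (s - w - 1)) + U - uu (18 / 100) t + S + W < -(30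
      / 1000) - 3927 / 1250 * t)
    (h2 : Real.pi * ((18 / 100 - w) * Y + t * (s - w - 1)) + U - uu (18 / 100) t + S < -(2039 /
      10000) + 653 / 500 * w - 643 / 500 * t) : False := by
  have h : chkT [(.sub (.add (.add (.sub (.add (.mul .pi (.add (.mul (.sub (.q 18 100) (.var 0)) (.var 3))
      (.mul (.var 1) (.sub (.sub (.var 2) (.var 0)) (.q 1 1))))) (.uu (.q 995 1000) (.add (.var 1)
      (.var 3)))) (.uu (.q 18 100) (.var 1))) (.neg (.uu (.var 2) (.var 3)))) (.uu (.q 2 100) (.q
      0 1))) (.add (.add (.q (-30) 1000) (.mul (.q 0 1) (.var 0))) (.mul (.q (-3927) 1250) (.var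
      1)))), (.sub (.add (.sub (.add (.mul .pi (.add (.mul (.sub (.q 18 100) (.var 0)) (.var 3))
      (.mul (.var 1) (.sub (.sub (.var 2) (.var 0)) (.q 1 1))))) (.uu (.q 995 1000) (.add (.var 1)
      (.var 3)))) (.uu (.q 18 100) (.var 1))) (.neg (.uu (.var 2) (.var 3)))) (.add (.add (.q
      (-2039) 10000) (.mul (.q 653 500) (.var 0))) (.mul (.q (-643) 500) (.var 1)))), (.sub (.var
      3) (.mul (.q 29 100) (.sub (.q 86 100) (.sub (.var 2) (.var 0))))), (.sub (.neg (.mul (.q
      465 1000) (.sub (.q 86 100) (.sub (.var 2) (.var 0))))) (.var 3)), (.sub (.sub (.var 2)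
      (.var 0)) (.q 815 1000)), (.sub (.q 790 1000) (.sub (.var 2) (.var 0)))] 34
      157459804095746511633
      [V.of 10000 0 200, V.of 10000 (-180) 985, V.of 10000 7900 8350, V.of 10000 (-326) 203] = true := by
    decide +kernel
  obtain ⟨e, he, hp⟩ := chkT4 h (by norm_num) (x := w) (y := t) (z := s) (w := Y)
    (le_trans (by norm_num) a0) (le_trans b0 (by norm_num))
    (le_trans (by norm_num) a1) (le_trans b1 (by norm_num))
    (le_trans (by norm_num) a2) (le_trans b2 (by norm_num))
    (le_trans (by norm_num) a3) (le_trans b3 (by norm_num))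
  simp only [List.mem_cons, List.not_mem_nil, or_false] at he
  rcases he with rfl | rfl | rfl | rfl | rfl | rfl
  · simp only [E.val, NumI.lkR] at hp
    push_cast at hp
    try simp only [zero_div, div_one] at hp
    linarith only [u0, hS, hW, h1, hp]
  · simp only [E.val, NumI.lkR] at hp
    push_cast at hp
    try simp only [zero_div, div_one] at hp
    linarith only [u0, hS, h2, hp]
  · simp only [E.val, NumI.lkR] at hp
    push_cast at hp
    try simp only [zero_div, div_one] at hp
    linarith only [r4, hp]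
  · simp only [E.val, NumI.lkR] at hp
    push_cast at hp
    try simp only [zero_div, div_one] at hp
    linarith only [r6, hp]
  · simp only [E.val, NumI.lkR] at hp
    push_cast at hp
    try simp only [zero_div, div_one] at hp
    linarith only [x1, hp]
  · simp only [E.val, NumI.lkR] at hp
    push_cast at hp
    try simp only [zero_div, div_one] at hp
    linarith only [x0, hp]

/-- 159 boxes -/
theorem k_cdaw {w t s Y U S W : ℝ}
    (a0 : 200 / 10000 ≤ w) (b0 : w ≤ 1800 / 10000)
    (a1 : -(180 / 10000) ≤ t) (b1 : t ≤ 985 / 10000)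
    (a2 : 8350 / 10000 ≤ s) (b2 : s ≤ 9850 / 10000)
    (a3 : -(210 / 10000) ≤ Y) (b3 : Y ≤ 131 / 10000)
    (r1 : w ≤ s) (r2 : s - w ≤ 86 / 100)
    (r3 : Y ≤ 907 / 1000 * (s - w)) (r4 : Y ≤ 29 / 100 * (86 / 100 - (s - w)))
    (r5 : -(62 / 100 * (s - w)) ≤ Y) (r6 : -(465 / 1000 * (86 / 100 - (s - w))) ≤ Y)
    (x0 : 815 / 1000 ≤ s - w) (x1 : s - w ≤ 825 / 1000)
    (u0 : uu (5 / 1000) (t + Y) + Real.pi * (t + Y) ≤ U) (u1 : uu (5 / 1000) (t + Y) - Real.pi *
      (t + Y) ≤ U)
    (hS : -uu s Y ≤ S) (hW : uu w 0 ≤ W)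
    (h1 : Real.pi * ((18 / 100 - w) * Y + t * (s - w - 1)) + U - uu (18 / 100) t + S + W < -(30
      / 1000) - 3927 / 1250 * t)
    (h2 : Real.pi * ((18 / 100 - w) * Y + t * (s - w - 1)) + U - uu (18 / 100) t + S < -(2039 /
      10000) + 653 / 500 * w - 643 / 500 * t) : False := by
  have h : chkT [(.sub (.add (.add (.sub (.add (.mul .pi (.add (.mul (.sub (.q 18 100) (.var 0)) (.var 3))
      (.mul (.var 1) (.sub (.sub (.var 2) (.var 0)) (.q 1 1))))) (.add (.uu (.q 5 1000) (.add
      (.var 1) (.var 3))) (.mul .pi (.add (.var 1) (.var 3))))) (.uu (.q 18 100) (.var 1))) (.neg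
      (.uu (.var 2) (.var 3)))) (.uu (.var 0) (.q 0 1))) (.add (.add (.q (-30) 1000) (.mul (.q 0
      1) (.var 0))) (.mul (.q (-3927) 1250) (.var 1)))), (.sub (.add (.sub (.add (.mul .pi (.add
      (.mul (.sub (.q 18 100) (.var 0)) (.var 3)) (.mul (.var 1) (.sub (.sub (.var 2) (.var 0))
      (.q 1 1))))) (.add (.uu (.q 5 1000) (.add (.var 1) (.var 3))) (.mul .pi (.add (.var 1) (.var
      3))))) (.uu (.q 18 100) (.var 1))) (.neg (.uu (.var 2) (.var 3)))) (.add (.add (.q (-2039)
      10000) (.mul (.q 653 500) (.var 0))) (.mul (.q (-643) 500) (.var 1)))), (.sub (.add (.add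
      (.sub (.add (.mul .pi (.add (.mul (.sub (.q 18 100) (.var 0)) (.var 3)) (.mul (.var 1) (.sub
      (.sub (.var 2) (.var 0)) (.q 1 1))))) (.sub (.uu (.q 5 1000) (.add (.var 1) (.var 3))) (.mul
      .pi (.add (.var 1) (.var 3))))) (.uu (.q 18 100) (.var 1))) (.neg (.uu (.var 2) (.var 3))))
      (.uu (.var 0) (.q 0 1))) (.add (.add (.q (-30) 1000) (.mul (.q 0 1) (.var 0))) (.mul (.q
      (-3927) 1250) (.var 1)))), (.sub (.add (.sub (.add (.mul .pi (.add (.mul (.sub (.q 18 100)
      (.var 0)) (.var 3)) (.mul (.var 1) (.sub (.sub (.var 2) (.var 0)) (.q 1 1))))) (.sub (.uu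
      (.q 5 1000) (.add (.var 1) (.var 3))) (.mul .pi (.add (.var 1) (.var 3))))) (.uu (.q 18 100)
      (.var 1))) (.neg (.uu (.var 2) (.var 3)))) (.add (.add (.q (-2039) 10000) (.mul (.q 653 500)
      (.var 0))) (.mul (.q (-643) 500) (.var 1)))), (.sub (.var 3) (.mul (.q 29 100) (.sub (.q 86
      100) (.sub (.var 2) (.var 0))))), (.sub (.neg (.mul (.q 465 1000) (.sub (.q 86 100) (.sub
      (.var 2) (.var 0))))) (.var 3)), (.sub (.sub (.var 2) (.var 0)) (.q 825 1000)), (.sub (.q
      815 1000) (.sub (.var 2) (.var 0)))] 34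
      3048617296579624117532096304921758433291117725162796969536855994676484263220813783629616876838735086341002443510585859814948652977497130973108296399071966514723091095281073932190356342069427480155107364762601575207875560590364721318668369886740308631322321806399628994088180229147401048794240536717595288281548566848276325928768860871885217448305564105501527699518629032126441521426
      [V.of 10000 200 1800, V.of 10000 (-180) 985, V.of 10000 8350 9850, V.of 10000 (-210) 131] = true :=
      Pool.Agent.Work.NumU.chkT_of k_cdaw_p1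
  obtain ⟨e, he, hp⟩ := chkT4 h (by norm_num) (x := w) (y := t) (z := s) (w := Y)
    (le_trans (by norm_num) a0) (le_trans b0 (by norm_num))
    (le_trans (by norm_num) a1) (le_trans b1 (by norm_num))
    (le_trans (by norm_num) a2) (le_trans b2 (by norm_num))
    (le_trans (by norm_num) a3) (le_trans b3 (by norm_num))
  simp only [List.mem_cons, List.not_mem_nil, or_false] at he
  rcases he with rfl | rfl | rfl | rfl | rfl | rfl | rfl | rfl
  · simp only [E.val, NumI.lkR] at hp
    push_cast at hp
    try simp only [zero_div, div_one] at hp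
    linarith only [u0, hS, hW, h1, hp]
  · simp only [E.val, NumI.lkR] at hp
    push_cast at hp
    try simp only [zero_div, div_one] at hp
    linarith only [u0, hS, h2, hp]
  · simp only [E.val, NumI.lkR] at hp
    push_cast at hp
    try simp only [zero_div, div_one] at hp
    linarith only [u1, hS, hW, h1, hp]
  · simp only [E.val, NumI.lkR] at hp
    push_cast at hp
    try simp only [zero_div, div_one] at hp
    linarith only [u1, hS, h2, hp]
  · simp only [E.val, NumI.lkR] at hp
    push_cast at hp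
    try simp only [zero_div, div_one] at hp
    linarith only [r4, hp]
  · simp only [E.val, NumI.lkR] at hp
    push_cast at hp
    try simp only [zero_div, div_one] at hp
    linarith only [r6, hp]
  · simp only [E.val, NumI.lkR] at hp
    push_cast at hp
    try simp only [zero_div, div_one] at hp
    linarith only [x1, hp]
  · simp only [E.val, NumI.lkR] at hp
    push_cast at hp
    try simp only [zero_div, div_one] at hp
    linarith only [x0, hp]

/-- 12 boxes -/
theorem k_cdbw {w t s Y U S W : ℝ}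
    (a0 : 200 / 10000 ≤ w) (b0 : w ≤ 1800 / 10000)
    (a1 : -(180 / 10000) ≤ t) (b1 : t ≤ 985 / 10000)
    (a2 : 9850 / 10000 ≤ s) (b2 : s ≤ 9950 / 10000)
    (a3 : -(210 / 10000) ≤ Y) (b3 : Y ≤ 131 / 10000)
    (r1 : w ≤ s) (r2 : s - w ≤ 86 / 100)
    (r3 : Y ≤ 907 / 1000 * (s - w)) (r4 : Y ≤ 29 / 100 * (86 / 100 - (s - w)))
    (r5 : -(62 / 100 * (s - w)) ≤ Y) (r6 : -(465 / 1000 * (86 / 100 - (s - w))) ≤ Y)
    (x0 : 815 / 1000 ≤ s - w) (x1 : s - w ≤ 825 / 1000)
    (u0 : uu (5 / 1000) (t + Y) + Real.pi * (t + Y) ≤ U) (u1 : uu (5 / 1000) (t + Y) - Real.pi *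
      (t + Y) ≤ U)
    (hS : uu (15 / 1000) Y ≤ S) (hW : uu w 0 ≤ W)
    (h1 : Real.pi * ((18 / 100 - w) * Y + t * (s - w - 1)) + U - uu (18 / 100) t + S + W < -(30
      / 1000) - 3927 / 1250 * t)
    (h2 : Real.pi * ((18 / 100 - w) * Y + t * (s - w - 1)) + U - uu (18 / 100) t + S < -(2039 /
      10000) + 653 / 500 * w - 643 / 500 * t) : False := by
  have h : chkT [(.sub (.add (.add (.sub (.add (.mul .pi (.add (.mul (.sub (.q 18 100) (.var 0)) (.var 3))
      (.mul (.var 1) (.sub (.sub (.var 2) (.var 0)) (.q 1 1))))) (.add (.uu (.q 5 1000) (.add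
      (.var 1) (.var 3))) (.mul .pi (.add (.var 1) (.var 3))))) (.uu (.q 18 100) (.var 1))) (.uu
      (.q 15 1000) (.var 3))) (.uu (.var 0) (.q 0 1))) (.add (.add (.q (-30) 1000) (.mul (.q 0 1)
      (.var 0))) (.mul (.q (-3927) 1250) (.var 1)))), (.sub (.add (.sub (.add (.mul .pi (.add
      (.mul (.sub (.q 18 100) (.var 0)) (.var 3)) (.mul (.var 1) (.sub (.sub (.var 2) (.var 0))
      (.q 1 1))))) (.add (.uu (.q 5 1000) (.add (.var 1) (.var 3))) (.mul .pi (.add (.var 1) (.var
      3))))) (.uu (.q 18 100) (.var 1))) (.uu (.q 15 1000) (.var 3))) (.add (.add (.q (-2039)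
      10000) (.mul (.q 653 500) (.var 0))) (.mul (.q (-643) 500) (.var 1)))), (.sub (.add (.add
      (.sub (.add (.mul .pi (.add (.mul (.sub (.q 18 100) (.var 0)) (.var 3)) (.mul (.var 1) (.sub
      (.sub (.var 2) (.var 0)) (.q 1 1))))) (.sub (.uu (.q 5 1000) (.add (.var 1) (.var 3))) (.mul
      .pi (.add (.var 1) (.var 3))))) (.uu (.q 18 100) (.var 1))) (.uu (.q 15 1000) (.var 3)))
      (.uu (.var 0) (.q 0 1))) (.add (.add (.q (-30) 1000) (.mul (.q 0 1) (.var 0))) (.mul (.q
      (-3927) 1250) (.var 1)))), (.sub (.add (.sub (.add (.mul .pi (.add (.mul (.sub (.q 18 100)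
      (.var 0)) (.var 3)) (.mul (.var 1) (.sub (.sub (.var 2) (.var 0)) (.q 1 1))))) (.sub (.uu
      (.q 5 1000) (.add (.var 1) (.var 3))) (.mul .pi (.add (.var 1) (.var 3))))) (.uu (.q 18 100)
      (.var 1))) (.uu (.q 15 1000) (.var 3))) (.add (.add (.q (-2039) 10000) (.mul (.q 653 500)
      (.var 0))) (.mul (.q (-643) 500) (.var 1)))), (.sub (.var 3) (.mul (.q 29 100) (.sub (.q 86
      100) (.sub (.var 2) (.var 0))))), (.sub (.neg (.mul (.q 465 1000) (.sub (.q 86 100) (.sub
      (.var 2) (.var 0))))) (.var 3)), (.sub (.sub (.var 2) (.var 0)) (.q 825 1000)), (.sub (.q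
      815 1000) (.sub (.var 2) (.var 0)))] 34
      2961382326659490573205574417
      [V.of 10000 200 1800, V.of 10000 (-180) 985, V.of 10000 9850 9950, V.of 10000 (-210) 131] = true := by
    decide +kernel
  obtain ⟨e, he, hp⟩ := chkT4 h (by norm_num) (x := w) (y := t) (z := s) (w := Y)
    (le_trans (by norm_num) a0) (le_trans b0 (by norm_num))
    (le_trans (by norm_num) a1) (le_trans b1 (by norm_num))
    (le_trans (by norm_num) a2) (le_trans b2 (by norm_num))
    (le_trans (by norm_num) a3) (le_trans b3 (by norm_num))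
  simp only [List.mem_cons, List.not_mem_nil, or_false] at he
  rcases he with rfl | rfl | rfl | rfl | rfl | rfl | rfl | rfl
  · simp only [E.val, NumI.lkR] at hp
    push_cast at hp
    try simp only [zero_div, div_one] at hp
    linarith only [u0, hS, hW, h1, hp]
  · simp only [E.val, NumI.lkR] at hp
    push_cast at hp
    try simp only [zero_div, div_one] at hp
    linarith only [u0, hS, h2, hp]
  · simp only [E.val, NumI.lkR] at hp
    push_cast at hp
    try simp only [zero_div, div_one] at hp
    linarith only [u1, hS, hW, h1, hp]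
  · simp only [E.val, NumI.lkR] at hp
    push_cast at hp
    try simp only [zero_div, div_one] at hp
    linarith only [u1, hS, h2, hp]
  · simp only [E.val, NumI.lkR] at hp
    push_cast at hp
    try simp only [zero_div, div_one] at hp
    linarith only [r4, hp]
  · simp only [E.val, NumI.lkR] at hp
    push_cast at hp
    try simp only [zero_div, div_one] at hp
    linarith only [r6, hp]
  · simp only [E.val, NumI.lkR] at hp
    push_cast at hp
    try simp only [zero_div, div_one] at hp
    linarith only [x1, hp]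
  · simp only [E.val, NumI.lkR] at hp
    push_cast at hp
    try simp only [zero_div, div_one] at hp
    linarith only [x0, hp]

/-- 9 boxes -/
theorem k_cdcw {w t s Y U S W : ℝ}
    (a0 : 200 / 10000 ≤ w) (b0 : w ≤ 1800 / 10000)
    (a1 : -(180 / 10000) ≤ t) (b1 : t ≤ 985 / 10000)
    (a2 : 9950 / 10000 ≤ s) (b2 : s ≤ 10050 / 10000)
    (a3 : -(210 / 10000) ≤ Y) (b3 : Y ≤ 131 / 10000)
    (r1 : w ≤ s) (r2 : s - w ≤ 86 / 100)
    (r3 : Y ≤ 907 / 1000 * (s - w)) (r4 : Y ≤ 29 / 100 * (86 / 100 - (s - w)))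
    (r5 : -(62 / 100 * (s - w)) ≤ Y) (r6 : -(465 / 1000 * (86 / 100 - (s - w))) ≤ Y)
    (x0 : 815 / 1000 ≤ s - w) (x1 : s - w ≤ 825 / 1000)
    (u0 : uu (5 / 1000) (t + Y) + Real.pi * (t + Y) ≤ U) (u1 : uu (5 / 1000) (t + Y) - Real.pi *
      (t + Y) ≤ U)
    (hS : uu (5 / 1000) Y ≤ S) (hW : uu w 0 ≤ W)
    (h1 : Real.pi * ((18 / 100 - w) * Y + t * (s - w - 1)) + U - uu (18 / 100) t + S + W < -(30
      / 1000) - 3927 / 1250 * t)
    (h2 : Real.pi * ((18 / 100 - w) * Y + t * (s - w - 1)) + U - uu (18 / 100) t + S < -(2039 /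
      10000) + 653 / 500 * w - 643 / 500 * t) : False := by
  have h : chkT [(.sub (.add (.add (.sub (.add (.mul .pi (.add (.mul (.sub (.q 18 100) (.var 0)) (.var 3))
      (.mul (.var 1) (.sub (.sub (.var 2) (.var 0)) (.q 1 1))))) (.add (.uu (.q 5 1000) (.add
      (.var 1) (.var 3))) (.mul .pi (.add (.var 1) (.var 3))))) (.uu (.q 18 100) (.var 1))) (.uu
      (.q 5 1000) (.var 3))) (.uu (.var 0) (.q 0 1))) (.add (.add (.q (-30) 1000) (.mul (.q 0 1)
      (.var 0))) (.mul (.q (-3927) 1250) (.var 1)))), (.sub (.add (.sub (.add (.mul .pi (.add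
      (.mul (.sub (.q 18 100) (.var 0)) (.var 3)) (.mul (.var 1) (.sub (.sub (.var 2) (.var 0))
      (.q 1 1))))) (.add (.uu (.q 5 1000) (.add (.var 1) (.var 3))) (.mul .pi (.add (.var 1) (.var
      3))))) (.uu (.q 18 100) (.var 1))) (.uu (.q 5 1000) (.var 3))) (.add (.add (.q (-2039)
      10000) (.mul (.q 653 500) (.var 0))) (.mul (.q (-643) 500) (.var 1)))), (.sub (.add (.add
      (.sub (.add (.mul .pi (.add (.mul (.sub (.q 18 100) (.var 0)) (.var 3)) (.mul (.var 1) (.sub
      (.sub (.var 2) (.var 0)) (.q 1 1))))) (.sub (.uu (.q 5 1000) (.add (.var 1) (.var 3))) (.mul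
      .pi (.add (.var 1) (.var 3))))) (.uu (.q 18 100) (.var 1))) (.uu (.q 5 1000) (.var 3))) (.uu
      (.var 0) (.q 0 1))) (.add (.add (.q (-30) 1000) (.mul (.q 0 1) (.var 0))) (.mul (.q (-3927)
      1250) (.var 1)))), (.sub (.add (.sub (.add (.mul .pi (.add (.mul (.sub (.q 18 100) (.var 0))
      (.var 3)) (.mul (.var 1) (.sub (.sub (.var 2) (.var 0)) (.q 1 1))))) (.sub (.uu (.q 5 1000)
      (.add (.var 1) (.var 3))) (.mul .pi (.add (.var 1) (.var 3))))) (.uu (.q 18 100) (.var 1)))
      (.uu (.q 5 1000) (.var 3))) (.add (.add (.q (-2039) 10000) (.mul (.q 653 500) (.var 0)))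
      (.mul (.q (-643) 500) (.var 1)))), (.sub (.var 3) (.mul (.q 29 100) (.sub (.q 86 100) (.sub
      (.var 2) (.var 0))))), (.sub (.neg (.mul (.q 465 1000) (.sub (.q 86 100) (.sub (.var 2)
      (.var 0))))) (.var 3)), (.sub (.sub (.var 2) (.var 0)) (.q 825 1000)), (.sub (.q 815 1000)
      (.sub (.var 2) (.var 0)))] 34
      176512273147303236369
      [V.of 10000 200 1800, V.of 10000 (-180) 985, V.of 10000 9950 10050, V.of 10000 (-210) 131] = true := by
    decide +kernel
  obtain ⟨e, he, hp⟩ := chkT4 h (by norm_num) (x := w) (y := t) (z := s) (w := Y)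
    (le_trans (by norm_num) a0) (le_trans b0 (by norm_num))
    (le_trans (by norm_num) a1) (le_trans b1 (by norm_num))
    (le_trans (by norm_num) a2) (le_trans b2 (by norm_num))
    (le_trans (by norm_num) a3) (le_trans b3 (by norm_num))
  simp only [List.mem_cons, List.not_mem_nil, or_false] at he
  rcases he with rfl | rfl | rfl | rfl | rfl | rfl | rfl | rfl
  · simp only [E.val, NumI.lkR] at hp
    push_cast at hp
    try simp only [zero_div, div_one] at hp
    linarith only [u0, hS, hW, h1, hp]
  · simp only [E.val, NumI.lkR] at hp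
    push_cast at hp
    try simp only [zero_div, div_one] at hp
    linarith only [u0, hS, h2, hp]
  · simp only [E.val, NumI.lkR] at hp
    push_cast at hp
    try simp only [zero_div, div_one] at hp
    linarith only [u1, hS, hW, h1, hp]
  · simp only [E.val, NumI.lkR] at hp
    push_cast at hp
    try simp only [zero_div, div_one] at hp
    linarith only [u1, hS, h2, hp]
  · simp only [E.val, NumI.lkR] at hp
    push_cast at hp
    try simp only [zero_div, div_one] at hp
    linarith only [r4, hp]
  · simp only [E.val, NumI.lkR] at hp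
    push_cast at hp
    try simp only [zero_div, div_one] at hp
    linarith only [r6, hp]
  · simp only [E.val, NumI.lkR] at hp
    push_cast at hp
    try simp only [zero_div, div_one] at hp
    linarith only [x1, hp]
  · simp only [E.val, NumI.lkR] at hp
    push_cast at hp
    try simp only [zero_div, div_one] at hp
    linarith only [b0, a2, hp]

/-- 7 boxes -/
theorem k_cdav {w t s Y U S W : ℝ}
    (a0 : 0 ≤ w) (b0 : w ≤ 200 / 10000)
    (a1 : -(180 / 10000) ≤ t) (b1 : t ≤ 985 / 10000)
    (a2 : 8150 / 10000 ≤ s) (b2 : s ≤ 8450 / 10000)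
    (a3 : -(210 / 10000) ≤ Y) (b3 : Y ≤ 131 / 10000)
    (r1 : w ≤ s) (r2 : s - w ≤ 86 / 100)
    (r3 : Y ≤ 907 / 1000 * (s - w)) (r4 : Y ≤ 29 / 100 * (86 / 100 - (s - w)))
    (r5 : -(62 / 100 * (s - w)) ≤ Y) (r6 : -(465 / 1000 * (86 / 100 - (s - w))) ≤ Y)
    (x0 : 815 / 1000 ≤ s - w) (x1 : s - w ≤ 825 / 1000)
    (u0 : uu (5 / 1000) (t + Y) + Real.pi * (t + Y) ≤ U) (u1 : uu (5 / 1000) (t + Y) - Real.pi *
      (t + Y) ≤ U)
    (hS : -uu s Y ≤ S) (hW : uu (2 / 100) 0 ≤ W)
    (h1 : Real.pi * ((18 / 100 - w) * Y + t * (s - w - 1)) + U - uu (18 / 100) t + S + W < -(30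
      / 1000) - 3927 / 1250 * t)
    (h2 : Real.pi * ((18 / 100 - w) * Y + t * (s - w - 1)) + U - uu (18 / 100) t + S < -(2039 /
      10000) + 653 / 500 * w - 643 / 500 * t) : False := by
  have h : chkT [(.sub (.add (.add (.sub (.add (.mul .pi (.add (.mul (.sub (.q 18 100) (.var 0)) (.var 3))
      (.mul (.var 1) (.sub (.sub (.var 2) (.var 0)) (.q 1 1))))) (.add (.uu (.q 5 1000) (.add
      (.var 1) (.var 3))) (.mul .pi (.add (.var 1) (.var 3))))) (.uu (.q 18 100) (.var 1))) (.neg
      (.uu (.var 2) (.var 3)))) (.uu (.q 2 100) (.q 0 1))) (.add (.add (.q (-30) 1000) (.mul (.q 0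
      1) (.var 0))) (.mul (.q (-3927) 1250) (.var 1)))), (.sub (.add (.sub (.add (.mul .pi (.add
      (.mul (.sub (.q 18 100) (.var 0)) (.var 3)) (.mul (.var 1) (.sub (.sub (.var 2) (.var 0))
      (.q 1 1))))) (.add (.uu (.q 5 1000) (.add (.var 1) (.var 3))) (.mul .pi (.add (.var 1) (.var
      3))))) (.uu (.q 18 100) (.var 1))) (.neg (.uu (.var 2) (.var 3)))) (.add (.add (.q (-2039)
      10000) (.mul (.q 653 500) (.var 0))) (.mul (.q (-643) 500) (.var 1)))), (.sub (.add (.add
      (.sub (.add (.mul .pi (.add (.mul (.sub (.q 18 100) (.var 0)) (.var 3)) (.mul (.var 1) (.sub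
      (.sub (.var 2) (.var 0)) (.q 1 1))))) (.sub (.uu (.q 5 1000) (.add (.var 1) (.var 3))) (.mul
      .pi (.add (.var 1) (.var 3))))) (.uu (.q 18 100) (.var 1))) (.neg (.uu (.var 2) (.var 3))))
      (.uu (.q 2 100) (.q 0 1))) (.add (.add (.q (-30) 1000) (.mul (.q 0 1) (.var 0))) (.mul (.q
      (-3927) 1250) (.var 1)))), (.sub (.add (.sub (.add (.mul .pi (.add (.mul (.sub (.q 18 100)
      (.var 0)) (.var 3)) (.mul (.var 1) (.sub (.sub (.var 2) (.var 0)) (.q 1 1))))) (.sub (.uu
      (.q 5 1000) (.add (.var 1) (.var 3))) (.mul .pi (.add (.var 1) (.var 3))))) (.uu (.q 18 100)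
      (.var 1))) (.neg (.uu (.var 2) (.var 3)))) (.add (.add (.q (-2039) 10000) (.mul (.q 653 500)
      (.var 0))) (.mul (.q (-643) 500) (.var 1)))), (.sub (.var 3) (.mul (.q 29 100) (.sub (.q 86
      100) (.sub (.var 2) (.var 0))))), (.sub (.neg (.mul (.q 465 1000) (.sub (.q 86 100) (.sub
      (.var 2) (.var 0))))) (.var 3)), (.sub (.sub (.var 2) (.var 0)) (.q 825 1000)), (.sub (.q
      815 1000) (.sub (.var 2) (.var 0)))] 34
      2394294909514513
      [V.of 10000 0 200, V.of 10000 (-180) 985, V.of 10000 8150 8450, V.of 10000 (-210) 131] = true := by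
    decide +kernel
  obtain ⟨e, he, hp⟩ := chkT4 h (by norm_num) (x := w) (y := t) (z := s) (w := Y)
    (le_trans (by norm_num) a0) (le_trans b0 (by norm_num))
    (le_trans (by norm_num) a1) (le_trans b1 (by norm_num))
    (le_trans (by norm_num) a2) (le_trans b2 (by norm_num))
    (le_trans (by norm_num) a3) (le_trans b3 (by norm_num))
  simp only [List.mem_cons, List.not_mem_nil, or_false] at he
  rcases he with rfl | rfl | rfl | rfl | rfl | rfl | rfl | rfl
  · simp only [E.val, NumI.lkR] at hp
    push_cast at hp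
    try simp only [zero_div, div_one] at hp
    linarith only [u0, hS, hW, h1, hp]
  · simp only [E.val, NumI.lkR] at hp
    push_cast at hp
    try simp only [zero_div, div_one] at hp
    linarith only [u0, hS, h2, hp]
  · simp only [E.val, NumI.lkR] at hp
    push_cast at hp
    try simp only [zero_div, div_one] at hp
    linarith only [u1, hS, hW, h1, hp]
  · simp only [E.val, NumI.lkR] at hp
    push_cast at hp
    try simp only [zero_div, div_one] at hp
    linarith only [u1, hS, h2, hp]
  · simp only [E.val, NumI.lkR] at hp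
    push_cast at hp
    try simp only [zero_div, div_one] at hp
    linarith only [r4, hp]
  · simp only [E.val, NumI.lkR] at hp
    push_cast at hp
    try simp only [zero_div, div_one] at hp
    linarith only [r6, hp]
  · simp only [E.val, NumI.lkR] at hp
    push_cast at hp
    try simp only [zero_div, div_one] at hp
    linarith only [x1, hp]
  · simp only [E.val, NumI.lkR] at hp
    push_cast at hp
    try simp only [zero_div, div_one] at hp
    linarith only [x0, hp]

end E1

end TL

end Pool.Agent.Work.MP_b30479_gt.G2
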