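import Pool.Agent.Work.MP_b30479_gt.G2.TE3a
import Pool.Agent.Work.MP_b30479_gt.G2.MRBase
import Pool.Agent.Work.NumU.Tree

/-!
# Tails, rows `E1`, `E2`: tools

`uu` near `0` and near `1`, and the difference of the values of a region of class one.
-/

namespace Pool.Agent.Work.MP_b30479_gt.G2

open VOL NumU

namespace TL

namespace E1

theorem smallK : 2 * Real.cosh (Real.pi * (2 * (13 / 100))) - 2 * Real.cos (Real.pi * (2 * (5 / 100)))
    < 1 := by
  have h : NumI.chk [NumI.E.sub (NumI.E.q 1 1) (NumI.E.sub (NumI.E.mul (NumI.E.q 2 1)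
      (NumI.E.cosh (NumI.E.mul NumI.E.pi (NumI.E.q 26 100))))
      (NumI.E.mul (NumI.E.q 2 1) (NumI.E.cosPi (NumI.E.q 1 10))))] 1 [NumI.V.of 1 0 0] = true := by
    decide +kernel
  have hp := NumI.pos_of_chk (NumI.chk1 h (by norm_num) (x := 0) (by norm_num) (by norm_num))
  simp only [NumI.E.val] at hp
  norm_num at hp ⊢
  linarith

theorem anti0 {a b y : ℝ} (hab : a ≤ b) (h : ∀ s ∈ Set.Ioo a b, s ≠ 0 ∧ |s| ≤ 5 / 100)
    (hy : |y| ≤ 13 / 100) : uu b y ≤ uu a y := by
  have hp := Real.pi_pos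
  have hpt : ∀ s : ℝ, (y : ℂ) * Complex.I + ((1 * s : ℝ) : ℂ) = ⟨s, y⟩ := by
    intro s
    apply Complex.ext <;> simp
  have hd : ∀ s ∈ Set.Ioo a b, HasDerivAt
      (fun s : ℝ => UU ((y : ℂ) * Complex.I + ((1 * s : ℝ) : ℂ))) (1 * LL ⟨s, y⟩) s := by
    intro s hs
    have h2 := hasDerivAt_UU_level ((y : ℂ) * Complex.I) 1 s (by
      rw [hpt]
      intro hc
      rw [Complex.sin_eq_zero_iff] at hc
      obtain ⟨k, hk⟩ := hc
      have hk1 : (⟨s, y⟩ : ℂ) = k := by
        have : (Real.pi : ℂ) ≠ 0 := by exact_mod_cast hp.ne'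
        apply mul_left_cancel₀ this
        rw [hk]
        ring
      have hk2 := congrArg Complex.re hk1
      simp only [Complex.intCast_re] at hk2
      obtain ⟨a1, a2⟩ := h s hs
      rw [hk2, abs_le] at a2
      have a3 : (-1 : ℤ) < k := by
        have : (-1 : ℝ) < k := by linarith
        exact_mod_cast this
      have a4 : k < (1 : ℤ) := by
        have : (k : ℝ) < 1 := by linarith
        exact_mod_cast this
      apply a1
      rw [hk2]
      have : k = 0 := by omega
      simp [this])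
    rw [hpt] at h2
    exact h2
  have hanti : AntitoneOn (fun s : ℝ => UU ((y : ℂ) * Complex.I + ((1 * s : ℝ) : ℂ)))
      (Set.Icc a b) := by
    apply antitoneOn_of_deriv_nonpos (convex_Icc _ _)
    · apply Continuous.continuousOn
      exact continuous_UU.comp (by fun_prop)
    · rw [interior_Icc]
      exact fun s hs => (hd s hs).differentiableAt.differentiableWithinAt
    · rw [interior_Icc]
      intro s hs
      rw [(hd s hs).deriv, one_mul]
      have h3 : LL ⟨s, y⟩ ≤ Real.log 1 / 2 := by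
        apply MR.LL_le_log le_rfl
        have h4 := MR.cosh_le_of (t := y) (r := 13 / 100) hy
        have h5 : Real.cos (Real.pi * (2 * (5 / 100))) ≤ Real.cos (2 * Real.pi * s) := by
          rw [← Real.cos_abs (2 * Real.pi * s), abs_mul, abs_of_pos (by positivity : 0 < 2 * Real.pi)]
          have h6 := (h s hs).2
          apply Real.cos_le_cos_of_nonneg_of_le_pi
          · positivity
          · nlinarith
          · nlinarith
        have h6 := smallK
        simp only
        linarith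
      rw [Real.log_one] at h3
      linarith
  have h2 := hanti (Set.left_mem_Icc.2 hab) (Set.right_mem_Icc.2 hab) hab
  simp only [hpt] at h2
  exact h2

/-- `uu` decreases near `0` -/
theorem anti {a b y : ℝ} (ha : -(5 / 100) ≤ a) (hab : a ≤ b) (hb : b ≤ 5 / 100)
    (hy : |y| ≤ 13 / 100) : uu b y ≤ uu a y := by
  rcases le_or_gt 0 a with h | h
  · exact anti0 hab (fun s hs => ⟨(lt_of_le_of_lt h hs.1).ne', by
      rw [abs_le]; constructor <;> linarith [hs.1, hs.2]⟩) hy
  · rcases le_or_gt b 0 with h' | h'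
    · exact anti0 hab (fun s hs => ⟨(lt_of_lt_of_le hs.2 h').ne, by
        rw [abs_le]; constructor <;> linarith [hs.1, hs.2]⟩) hy
    · exact (anti0 h'.le (fun s hs => ⟨hs.1.ne', by
        rw [abs_le]; constructor <;> linarith [hs.1, hs.2]⟩) hy).trans
        (anti0 h.le (fun s hs => ⟨hs.2.ne, by
        rw [abs_le]; constructor <;> linarith [hs.1, hs.2]⟩) hy)

/-- `uu` decreases near `1` -/
theorem anti1 {a b y : ℝ} (ha : 95 / 100 ≤ a) (hab : a ≤ b) (hb : b ≤ 105 / 100)
    (hy : |y| ≤ 13 / 100) : uu b y ≤ uu a y := by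
  have h1 := uu_add_one (a - 1) y
  have h2 := uu_add_one (b - 1) y
  rw [sub_add_cancel] at h1 h2
  rw [h1, h2]
  have := anti (a := a - 1) (b := b - 1) (y := y) (by linarith) (by linarith) (by linarith) hy
  linarith

/-- lower bound of `uu` near `1` by the value at the right end, left of `1` -/
theorem U_b {x t : ℝ} (h0 : 95 / 100 ≤ x) (h1 : x ≤ 995 / 1000) (ht : |t| ≤ 13 / 100) :
    uu (995 / 1000) t ≤ uu x t := anti1 h0 h1 (by norm_num) ht

/-- the same, right end `1 + d` -/
theorem U_d {x t d : ℝ} (h0 : 95 / 100 ≤ x) (h1 : x ≤ 1 + d) (hd : d ≤ 5 / 100)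
    (ht : |t| ≤ 13 / 100) :
    uu d t + Real.pi * t ≤ uu x t ∧ uu d t - Real.pi * t ≤ uu x t := by
  have h := anti1 h0 h1 (by linarith) ht
  rw [show (1 : ℝ) + d = d + 1 by ring, uu_add_one] at h
  have hp := Real.pi_pos
  have h2 := mul_le_mul_of_nonneg_left (le_abs_self t) hp.le
  have h3 := mul_le_mul_of_nonneg_left (neg_le_abs t) hp.le
  constructor <;> linarith

/-- `-uu s Y` left of `1` -/
theorem S_b {s Y d : ℝ} (hd : d ≤ 5 / 100) (h0 : 1 - d ≤ s) (h1 : s ≤ 105 / 100)
    (hY : |Y| ≤ 13 / 100) : uu d Y ≤ -uu s Y := by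
  have h := anti1 (a := 1 - d) (b := s) (by linarith) h0 h1 hY
  rw [uu_one_sub] at h
  linarith

section
open NumU.E NumI

theorem c_near {x y : ℝ} (h0 : 400 / 10000 ≤ x) (h1 : x ≤ 2600 / 10000)
    (h2 : -1000 / 10000 ≤ y) (h3 : y ≤ 1000 / 10000) (h4 : y ≤ 48 / 100 * (26 / 100 - x))
    (h5 : -y ≤ 48 / 100 * (26 / 100 - x)) : uu x y < uu (5 / 1000) y := by
  have h : chkT [NumU.E.sub (.uu (.q 5 1000) (.var 1)) (.uu (.var 0) (.var 1)),
      .sub (.var 1) (.mul (.q 48 100) (.sub (.q 26 100) (.var 0))),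
      .sub (.neg (.var 1)) (.mul (.q 48 100) (.sub (.q 26 100) (.var 0)))] 20
      3555148795702544774738144749577034877926085102670096
      [NumI.V.of 10000 400 2600, NumI.V.of 10000 (-1000) 1000] = true := by
    decide +kernel
  obtain ⟨e, he, hp⟩ := chkT2 h (by norm_num) (x := x) (y := y)
    (le_trans (by norm_num) h0) (le_trans h1 (by norm_num))
    (le_trans (by norm_num) h2) (le_trans h3 (by norm_num))
  simp only [List.mem_cons, List.not_mem_nil, or_false] at he
  rcases he with rfl | rfl | rfl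
  all_goals
    simp only [NumU.E.val, NumI.lkR] at hp
    push_cast at hp
    linarith

end

/-- `-uu s Y` right of `1` -/
theorem S_p {s Y : ℝ} (h0 : 1005 / 1000 ≤ s) (h1 : s ≤ 126 / 100) (hY : |Y| ≤ 10 / 100)
    (hY2 : |Y| ≤ 48 / 100 * (126 / 100 - s)) :
    -uu (5 / 1000) Y - Real.pi * |Y| ≤ -uu s Y := by
  have e := uu_add_one (s - 1) Y
  rw [sub_add_cancel] at e
  have h : uu (s - 1) Y ≤ uu (5 / 1000) Y := by
    rcases le_total (s - 1) (4 / 100) with h2 | h2
    · exact anti (by norm_num) (by linarith) (by linarith) (by linarith)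
    · have h3 := abs_le.1 hY
      have h4 := abs_le.1 hY2
      exact (c_near (by linarith) (by linarith) (by linarith) (by linarith) (by linarith)
        (by linarith)).le
  linarith

/-- `uu w 0` near `0` -/
theorem W_v {w : ℝ} (h0 : 0 ≤ w) (h1 : w ≤ 2 / 100) : uu (2 / 100) 0 ≤ uu w 0 :=
  anti (by linarith) h1 (by norm_num) (by norm_num)

/-- `uu x y ≤ uu x 0` for `x ≤ 1/2` -/
theorem uu_le_real {x y : ℝ} (h1 : x ≤ 1 / 2) : uu x y ≤ uu x 0 := by
  have a2 := Lr_diff_mono (a := 1 / 2) (b := x) (s := 0) (s' := |y|) h1 le_rfl (abs_nonneg y)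
  have a3 := uu_one_sub (1 / 2) y
  have a4 := uu_one_sub (1 / 2) 0
  have e : (1 : ℝ) - 1 / 2 = 1 / 2 := by norm_num
  rw [e] at a3 a4
  have b3 : uu (1 / 2) y = 0 := by linarith
  have b4 : uu (1 / 2) 0 = 0 := by linarith
  rw [uu_Lr] at b3 b4
  rw [uu_Lr, uu_Lr]
  rw [abs_zero] at b4 ⊢
  linarith

/-- `uu w 0 - uu s Y ≥ 0` for `0 ≤ w ≤ s ≤ 16/100` -/
theorem W_lo {w s Y : ℝ} (h0 : 0 ≤ w) (h1 : w ≤ s) (h2 : s ≤ 16 / 100) : 0 ≤ -uu s Y + uu w 0 := by
  have hpi := Real.pi_pos
  have a1 := uu_le_real (x := s) (y := Y) (by linarith)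
  have hm : AntitoneOn (fun x => uu x 0) (Set.Icc 0 (16 / 100)) := by
    apply antitoneOn_of_deriv_nonpos (convex_Icc _ _)
    · exact cont_uu_real.continuousOn
    · intro x hx
      rw [interior_Icc] at hx
      exact (uu_real_deriv hx.1 (by linarith [hx.2])).differentiableAt.differentiableWithinAt
    · intro x hx
      rw [interior_Icc] at hx
      rw [(uu_real_deriv hx.1 (by linarith [hx.2])).deriv]
      apply Real.log_nonpos
      · have := Real.sin_nonneg_of_nonneg_of_le_pi (x := Real.pi * x)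
          (mul_nonneg hpi.le hx.1.le) (by nlinarith [hx.2])
        linarith
      · have h3 : Real.sin (Real.pi * x) ≤ Real.sin (Real.pi / 6) := by
          apply Real.sin_le_sin_of_le_of_le_pi_div_two
          · nlinarith [hx.1]
          · linarith
          · nlinarith [hx.2]
        rw [Real.sin_pi_div_six] at h3
        linarith
  have := hm ⟨h0, by linarith⟩ ⟨by linarith, h2⟩ h1
  simp only at this
  linarith

/-- the difference of the values of a region of class one -/
theorem V1_diff (w τ X Y : ℝ) :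
    V1 ⟨9 / 50, τ⟩ ⟨X, Y⟩ - V1 ⟨w, 0⟩ ⟨X, Y⟩ =
      Real.pi * ((18 / 100 - w) * Y + τ * (w + X - w - 1)) + uu (18 / 100 + (w + X - w)) (τ + Y) -
        uu (18 / 100) τ - uu (w + X) Y + uu w 0 := by
  unfold V1
  rw [UU_uu, UU_uu, UU_uu, UU_uu, UU_uu]
  simp only [Complex.sub_im, Complex.mul_im, Complex.add_re, Complex.add_im]
  rw [show (18 : ℝ) / 100 + (w + X - w) = 9 / 50 + X by ring, show (18 : ℝ) / 100 = 9 / 50 by norm_num,
    zero_add]
  ring

end E1

end TL

end Pool.Agent.Work.MP_b30479_gt.G2
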