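import Pool.Agent.Work.MP_b30479_gt.G2.TE1T
import Pool.Agent.Work.MP_b30479_gt.G2.TE1A
import Pool.Agent.Work.MP_b30479_gt.G2.TDefs

/-!
# Tails: the change of the value of an untouched region of class one, `E1b`
-/

namespace Pool.Agent.Work.MP_b30479_gt.G2

open VOL NumU

namespace TL

open E1

/-- margin .0114 -/
theorem E1b {w τ X Y : ℝ} (h0 : 9 / 50 ≤ w) (h1 : w ≤ 2 / 5) (h2 : -(2 / 25) ≤ τ)
    (h3 : τ ≤ 2 / 25) (hG : RgA X Y) :
    UU ⟨w, 0⟩ + 164 / 625 - 921 / 1000 * w - 1849 / 1000 * τ ≤
      V1 ⟨9 / 50, τ⟩ ⟨X, Y⟩ - V1 ⟨w, 0⟩ ⟨X, Y⟩ ∨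
    UU ⟨w, 0⟩ + 1451 / 5000 - 1021 / 1000 * w - 1309 / 500 * τ ≤
      V1 ⟨9 / 50, τ⟩ ⟨X, Y⟩ - V1 ⟨w, 0⟩ ⟨X, Y⟩ := by
  obtain ⟨g0, g1, g2, g3, g4, g5, g6, g7⟩ := hG
  by_contra hcon
  obtain ⟨c1, c2⟩ := not_or.1 hcon
  rw [not_le, V1_diff, UU_uu] at c1 c2
  simp only at c1 c2
  rcases le_or_gt (w + X) (995 / 1000) with hs0 | hs0
  · exact k_bxA0 (S := -uu (w + X) Y) (U := uu (18 / 100 + (w + X - w)) (τ + Y)) (w := w) (s := w + X)
      (t := τ) (Y := Y) (by linarith only [h0]) (by linarith only [h1]) (by linarith only [h2]) (by linarith only [h3]) (by linarith only [h0, g0])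
      (by linarith only [hs0]) (by linarith only [g6]) (by linarith only [g3]) (by linarith only [g0]) (by linarith only [g1]) (by linarith only [g2])
      (by linarith only [g4]) (by linarith only [g5]) (by linarith only [g7]) le_rfl le_rfl (by linarith only [c1]) (by linarith only [c2])
  · skip
    rcases le_or_gt (w + X) (1005 / 1000) with hs1 | hs1
    · exact k_bxc0 (S := -uu (w + X) Y) (U := uu (18 / 100 + (w + X - w)) (τ + Y)) (w := w) (s := w + X)
        (t := τ) (Y := Y) (by linarith only [h0]) (by linarith only [h1]) (by linarith only [h2]) (by linarith only [h3]) (by linarith only [hs0])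
        (by linarith only [hs1]) (by linarith only [g6]) (by linarith only [h1, g4, hs0]) (by linarith only [h1, hs0]) (by linarith only [g1]) (by linarith only [h1, g4, hs0])
        (by linarith only [g4]) (by linarith only [g5]) (by linarith only [g7]) le_rfl (S_b (d := 5 / 1000) (by norm_num)
        (by linarith only [hs0]) (by linarith only [hs1]) (abs_le.2 ⟨by linarith only [g6], by linarith only [h1, g4, hs0]⟩)) (by linarith only [c1]) (by linarith only [c2])
    · skip
      have hS := S_p (s := w + X) (Y := Y) (by linarith only [hs1]) (by linarith only [h1, g1]) (abs_le.2 ⟨by linarith only [g6], by linarith only [h1, g4, hs1]⟩)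
        (abs_le.2 ⟨by linarith only [h1, g7], by linarith only [h1, g1, g4]⟩)
      rcases le_total 0 Y with hy | hy
      · rw [abs_of_nonneg hy] at hS
        exact k_bxp0 (S := -uu (w + X) Y) (U := uu (18 / 100 + (w + X - w)) (τ + Y)) (w := w) (s := w +
          X) (t := τ) (Y := Y) (by linarith only [h0]) (by linarith only [h1]) (by linarith only [h2]) (by linarith only [h3]) (by linarith only [hs1])
          (by linarith only [h1, g1]) (by linarith only [hy]) (by linarith only [h1, g4, hs1]) (by linarith only [h1, hs1]) (by linarith only [g1]) (by linarith only [h1, g4, hs1])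
          (by linarith only [g4]) (by linarith only [g5]) (by linarith only [g7]) le_rfl hS (by linarith only [c1]) (by linarith only [c2])
      · rw [abs_of_nonpos hy] at hS
        exact k_bxn0 (S := -uu (w + X) Y) (U := uu (18 / 100 + (w + X - w)) (τ + Y)) (w := w) (s := w +
          X) (t := τ) (Y := Y) (by linarith only [h0]) (by linarith only [h1]) (by linarith only [h2]) (by linarith only [h3]) (by linarith only [hs1])
          (by linarith only [h1, g1]) (by linarith only [g6]) (by linarith only [hy]) (by linarith only [h1, hs1]) (by linarith only [g1]) (by linarith only [h1, hs1, hy])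
          (by linarith only [g4]) (by linarith only [g5]) (by linarith only [g7]) le_rfl (by linarith only [hS]) (by linarith only [c1]) (by linarith only [c2])

end TL

end Pool.Agent.Work.MP_b30479_gt.G2
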