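import Pool.Agent.Work.MP_b30479_gt.G2.TRb
import Pool.Agent.Work.MP_b30479_gt.G2.WVal

/-!
# Tails, rows `E4` - `E7`: tools

Values of `uu` near `0` and near `1`.
-/

namespace Pool.Agent.Work.MP_b30479_gt.G2

open VOL NumU

namespace TL

variable {w w0 x X Y τ c d ρ r s : ℝ}

theorem lnA_real {x : ℝ} (h0 : 0 < x) (h1 : x < 1) :
    NumI.lnA x 0 = Real.log (2 * Real.sin (Real.pi * x)) := by
  have hpi := Real.pi_pos
  have hs : 0 < Real.sin (Real.pi * x) := by
    apply Real.sin_pos_of_pos_of_lt_pi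
    · positivity
    · nlinarith
  unfold NumI.lnA
  rw [mul_zero, Real.sinh_zero]
  have e : 4 * (Real.sin (Real.pi * x) ^ 2 + 0 ^ 2) = (2 * Real.sin (Real.pi * x)) ^ 2 := by ring
  rw [e, Real.log_pow]
  push_cast
  ring

theorem uu_real_deriv {x : ℝ} (h0 : 0 < x) (h1 : x < 1) :
    HasDerivAt (fun x => uu x 0) (Real.log (2 * Real.sin (Real.pi * x))) x := by
  have h := uu_line (x := 0) (t := 0) (a := 1) (b := 0) (τ := x) (by linarith) (by linarith)
  have e : (fun τ : ℝ => uu (0 + τ * 1) (0 + τ * 0)) = fun x => uu x 0 := by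
    funext s
    simp
  rw [e] at h
  refine h.congr_deriv ?_
  simp only [zero_add, mul_one, mul_zero, zero_mul, sub_zero, one_mul]
  exact lnA_real h0 h1

theorem cont_uu_real : Continuous fun x => uu x 0 := by
  have h : (fun x => uu x 0) = fun x : ℝ => UU (x : ℂ) := by
    funext x
    rw [UU_uu]
    simp
  rw [h]
  exact continuous_UU.comp Complex.continuous_ofReal

/-- horizontal differences on the real axis -/
theorem uu_incr_real (h0 : 0 ≤ w) (h1 : w ≤ w0) (hX : 0 ≤ X) (h2 : 2 * w0 + X ≤ 1) :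
    uu w0 0 - uu (w0 + X) 0 ≤ uu w 0 - uu (w + X) 0 := by
  have hpi := Real.pi_pos
  rcases eq_or_lt_of_le h1 with rfl | h1
  · exact le_rfl
  have hm : AntitoneOn (fun s => uu s 0 - uu (s + X) 0) (Set.Icc 0 w0) := by
    have hd : ∀ s ∈ interior (Set.Icc 0 w0), HasDerivAt (fun s => uu s 0 - uu (s + X) 0)
        (Real.log (2 * Real.sin (Real.pi * s)) - Real.log (2 * Real.sin (Real.pi * (s + X)))) s := by
      intro s hs
      rw [interior_Icc] at hs
      have a2 := (uu_real_deriv (x := s + X) (by linarith [hs.1]) (by linarith [hs.2])).comp s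
        ((hasDerivAt_id s).add_const X)
      rw [mul_one] at a2
      exact (uu_real_deriv hs.1 (by linarith [hs.2])).sub a2
    apply antitoneOn_of_deriv_nonpos (convex_Icc _ _)
    · exact (cont_uu_real.sub (cont_uu_real.comp (by fun_prop))).continuousOn
    · exact fun s hs => (hd s hs).differentiableAt.differentiableWithinAt
    · intro s hs
      rw [(hd s hs).deriv]
      rw [interior_Icc] at hs
      have s1 : 0 < Real.sin (Real.pi * s) := by
        apply Real.sin_pos_of_pos_of_lt_pi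
        · exact mul_pos hpi hs.1
        · nlinarith [hs.2]
      have s2 : Real.sin (Real.pi * s) ≤ Real.sin (Real.pi * (s + X)) := by
        rcases le_total (s + X) (1 / 2) with h3 | h3
        · apply Real.sin_le_sin_of_le_of_le_pi_div_two
          · nlinarith [hs.1]
          · nlinarith
          · nlinarith
        · rw [← Real.sin_pi_sub (Real.pi * (s + X))]
          apply Real.sin_le_sin_of_le_of_le_pi_div_two
          · nlinarith [hs.1]
          · nlinarith
          · nlinarith [hs.2]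
      have := Real.log_le_log (show 0 < 2 * Real.sin (Real.pi * s) by linarith)
        (show 2 * Real.sin (Real.pi * s) ≤ 2 * Real.sin (Real.pi * (s + X)) by linarith)
      linarith
  exact hm ⟨h0, h1.le⟩ ⟨by linarith, le_rfl⟩ h1.le

/-- horizontal differences -/
theorem uu_incr (h0 : 0 ≤ w) (h1 : w ≤ w0) (hX : 0 ≤ X) (h2 : 2 * w0 + X ≤ 1) :
    uu w0 0 - uu (w0 + X) Y ≤ uu w 0 - uu (w + X) Y := by
  have a1 := uu_incr_real h0 h1 hX h2
  have a2 := Lr_diff_mono (a := w0 + X) (b := w + X) (s := 0) (s' := |Y|) (by linarith) le_rfl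
    (abs_nonneg Y)
  rw [uu_Lr (w0 + X) Y, uu_Lr (w + X) Y]
  rw [uu_Lr (w0 + X) 0, uu_Lr (w + X) 0] at a1
  rw [abs_zero] at a1
  linarith

/-- values at a small real part -/
theorem uu_near_zero (h0 : 0 ≤ x) (h1 : x ≤ 2 / 100) :
    uu (2 / 100) 0 - Real.pi / 2 * |Y| ≤ uu x Y := by
  have a1 := Lr_le_left (ε := x) le_rfl (abs_nonneg Y) h0
  have a2 := Lr_anti (s := 0) le_rfl (by norm_num) h0 h1 le_rfl
  rw [uu_Lr, uu_Lr, abs_zero]
  linarith

/-- values at a real part close to `1`, to the left -/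
theorem uu_near_one (h0 : 98 / 100 ≤ x) (h1 : x ≤ 1) :
    uu x Y ≤ -uu (2 / 100) 0 + Real.pi / 2 * |Y| := by
  have e1 : uu x Y = -uu (1 - x) Y := by
    rw [← uu_one_sub]
    ring_nf
  have := uu_near_zero (x := 1 - x) (Y := Y) (by linarith) (by linarith)
  linarith

/-! ### `Lr` near `0` -/

theorem cosh_quarter : Real.cosh (Real.pi * (1 / 4)) ≤ 133 / 100 := by
  have h : NumI.chk [NumI.E.sub (NumI.E.q 133 100)
      (NumI.E.cosh (NumI.E.mul NumI.E.pi (NumI.E.q 1 4)))] 1 [NumI.V.of 1 0 0] = true := by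
    decide +kernel
  have hp := NumI.pos_of_chk (NumI.chk1 h (by norm_num) (x := 0) (by norm_num) (by norm_num))
  simp only [NumI.E.val] at hp
  norm_num at hp ⊢
  linarith

theorem Lr_nonpos' (h0 : 0 ≤ ρ) (h1 : ρ ≤ 1 / 8) (h2 : 0 ≤ x) (h3 : x ≤ 7 / 100) :
    DT.Lr ρ x ≤ 0 := by
  have hpi := Real.pi_pos
  have hpi4 : Real.pi < 3.15 := Real.pi_lt_d2
  refine (Lr_le_left h0 h1 h2).trans ?_
  have hm : AntitoneOn (fun x => DT.Lr (1 / 8) x) (Set.Icc 0 (7 / 100)) := by
    have hs : (0 : ℝ) < 1 / 8 := by norm_num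
    apply antitoneOn_of_deriv_nonpos (convex_Icc _ _)
    · exact fun r _ => (DT.hasDerivAt_Lr hs).continuousAt.continuousWithinAt
    · exact fun r _ => (DT.hasDerivAt_Lr hs).differentiableAt.differentiableWithinAt
    · intro r hr
      rw [interior_Icc] at hr
      rw [(DT.hasDerivAt_Lr hs).deriv]
      unfold DT.el
      have a1 := DT.LrDer.cosh_gt_cos (v := r) hs
      have a2 := cosh_quarter
      rw [show Real.pi * (1 / 4) = 2 * Real.pi * (1 / 8) by ring] at a2
      have a3 : 9 / 10 ≤ Real.cos (2 * Real.pi * r) := by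
        have h3 := Real.one_sub_sq_div_two_le_cos (x := 2 * Real.pi * r)
        have h4 : 2 * Real.pi * r ≤ 2 * 3.15 * (7 / 100) := by
          apply mul_le_mul _ hr.2.le hr.1.le (by norm_num)
          linarith
        have h5 : 0 ≤ 2 * Real.pi * r := by have := hr.1.le; positivity
        nlinarith
      have a4 : Real.log (2 * Real.cosh (2 * Real.pi * (1 / 8)) - 2 * Real.cos (2 * Real.pi * r)) ≤ 0 := by
        apply Real.log_nonpos
        · linarith
        · linarith
      linarith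
  have := hm ⟨le_rfl, by norm_num⟩ ⟨h2, h3⟩ h2
  simp only at this
  rwa [DT.Lr_zero_right] at this

theorem V2_diff (c τ w X Y : ℝ) : V2 ⟨c, τ⟩ ⟨X, Y⟩ - V2 ⟨w, 0⟩ ⟨X, Y⟩ =
    uu (c + X) (τ + Y) - 2 * uu c τ - Real.pi * ((c - X) * (τ - Y) + 1 / 2 * τ) +
      (2 * uu w 0 - uu (w + X) Y - Real.pi * ((w - X) * Y)) := by
  unfold V2
  simp only [UU_uu, Complex.add_re, Complex.add_im, Complex.sub_re, Complex.sub_im, pow_two,
    Complex.mul_im]
  rw [zero_add]
  ring

end TL

end Pool.Agent.Work.MP_b30479_gt.G2
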