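import Pool.Agent.Work.MP_b30479_gt.G2.TE4b
import Pool.Agent.Work.MP_b30479_gt.G2.TE4c
import Pool.Agent.Work.MP_b30479_gt.G2.TRc

/-!
# Tails, row `E7`: the change of the value of an untouched ring region
-/

namespace Pool.Agent.Work.MP_b30479_gt.G2

open VOL NumU

namespace TL

variable {w τ ρ σ η : ℝ}

theorem e7_zt_re (ρ σ : ℝ) : (LT.zt ρ σ).re = σ := by
  simp [LT.zt]

theorem e7_zt_im (ρ σ : ℝ) : (LT.zt ρ σ).im = ρ * LT.th σ := by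
  simp [LT.zt]

theorem fR_diff (w τ ρ σ : ℝ) : fR ⟨9 / 50, τ⟩ (LT.zt ρ σ) - fR ⟨w, 0⟩ (LT.zt ρ σ) =
    uu (17 / 25 + σ) (τ + ρ * LT.th σ) + uu (17 / 25 - σ) (τ - ρ * LT.th σ) - 2 * uu (9 / 50) τ -
      uu (w + 1 / 2 + σ) (ρ * LT.th σ) - uu (w + 1 / 2 - σ) (ρ * LT.th σ) + 2 * uu w 0 := by
  rw [fR_uu, fR_uu]
  rw [e7_zt_re, e7_zt_im]
  simp only [zero_add, zero_sub]
  rw [uu_neg, show (9 : ℝ) / 50 + 1 / 2 + σ = 17 / 25 + σ by ring,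
    show (9 : ℝ) / 50 + 1 / 2 - σ = 17 / 25 - σ by ring]
  ring

theorem E7a_main (h0 : 0 ≤ w) (h1 : w ≤ 7 / 50) (h2 : -(79 / 500) ≤ τ) (h3 : τ ≤ 1 / 250)
    (h4 : -(1 / 2) ≤ σ) (h5 : σ ≤ 1 / 8) (h6 : 0 ≤ η) (h7 : η ≤ 1045 / 10000)
    (h8 : η ≤ 1045 / 10000 * (2 + 4 * σ)) :
    0 < fA (1678 / 1000) τ σ η + fB ((-536) / 10000) (543 / 1000) w σ η := by
  rcases le_total σ (-(15 / 32)) with g0 | g0
  · exact ba0 h0 h1 h2 h3 h4 g0 h6 (by linarith only [h8, g0])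
  rcases le_total σ (-(7 / 16)) with g1 | g1
  · exact ba1 h0 h1 h2 h3 g0 g1 h6 (by linarith only [h8, g1])
  rcases le_total σ (-(13 / 32)) with g2 | g2
  · exact ba2 h0 h1 h2 h3 g1 g2 h6 (by linarith only [h8, g2])
  rcases le_total σ (-(3 / 8)) with g3 | g3
  · exact ba3 h0 h1 h2 h3 g2 g3 h6 (by linarith only [h8, g3])
  rcases le_total σ (-(23 / 64)) with g4 | g4
  · exact ba4 h0 h1 h2 h3 g3 g4 h6 (by linarith only [h8, g4])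
  rcases le_total σ (-(11 / 32)) with g5 | g5
  · exact ba5 h0 h1 h2 h3 g4 g5 h6 (by linarith only [h8, g5])
  rcases le_total σ (-(21 / 64)) with g6 | g6
  · exact ba6 h0 h1 h2 h3 g5 g6 h6 (by linarith only [h8, g6])
  rcases le_total σ (-(5 / 16)) with g7 | g7
  · exact ba7 h0 h1 h2 h3 g6 g7 h6 (by linarith only [h8, g7])
  rcases le_total σ (-(9 / 32)) with g8 | g8
  · exact ba8 h0 h1 h2 h3 g7 g8 h6 (by linarith only [h8, g8])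
  rcases le_total σ (-(1 / 4)) with g9 | g9
  · exact ba9 h0 h1 h2 h3 g8 g9 h6 (by linarith only [h7])
  rcases le_total σ (-(3 / 16)) with g10 | g10
  · exact ba10 h0 h1 h2 h3 g9 g10 h6 (by linarith only [h7])
  rcases le_total σ (-(1 / 8)) with g11 | g11
  · exact ba11 h0 h1 h2 h3 g10 g11 h6 (by linarith only [h7])
  rcases le_total σ (-(1 / 16)) with g12 | g12
  · exact ba12 h0 h1 h2 h3 g11 g12 h6 (by linarith only [h7])
  rcases le_total σ (0 / 1) with g13 | g13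
  · exact ba13 h0 h1 h2 h3 g12 g13 h6 (by linarith only [h7])
  rcases le_total σ (1 / 16) with g14 | g14
  · exact ba14 h0 h1 h2 h3 g13 g14 h6 (by linarith only [h7])
  exact ba15 h0 h1 h2 h3 g14 h5 h6 (by linarith only [h7])

theorem E7b_main (h0 : 7 / 50 ≤ w) (h1 : w ≤ 2 / 5) (h2 : -(79 / 500) ≤ τ) (h3 : τ ≤ 1 / 250)
    (h4 : -(1 / 2) ≤ σ) (h5 : σ ≤ 1 / 8) (h6 : 0 ≤ η) (h7 : η ≤ 1045 / 10000)
    (h8 : η ≤ 1045 / 10000 * (2 + 4 * σ)) :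
    0 < fA (1397 / 1000) τ σ η + fB (1291 / 10000) ((-720) / 1000) w σ η := by
  rcases le_total σ (-(15 / 32)) with g0 | g0
  · exact bb0 h0 h1 h2 h3 h4 g0 h6 (by linarith only [h8, g0])
  rcases le_total σ (-(7 / 16)) with g1 | g1
  · exact bb1 h0 h1 h2 h3 g0 g1 h6 (by linarith only [h8, g1])
  rcases le_total σ (-(13 / 32)) with g2 | g2
  · exact bb2 h0 h1 h2 h3 g1 g2 h6 (by linarith only [h8, g2])
  rcases le_total σ (-(3 / 8)) with g3 | g3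
  · exact bb3 h0 h1 h2 h3 g2 g3 h6 (by linarith only [h8, g3])
  rcases le_total σ (-(23 / 64)) with g4 | g4
  · exact bb4 h0 h1 h2 h3 g3 g4 h6 (by linarith only [h8, g4])
  rcases le_total σ (-(11 / 32)) with g5 | g5
  · exact bb5 h0 h1 h2 h3 g4 g5 h6 (by linarith only [h8, g5])
  rcases le_total σ (-(21 / 64)) with g6 | g6
  · exact bb6 h0 h1 h2 h3 g5 g6 h6 (by linarith only [h8, g6])
  rcases le_total σ (-(5 / 16)) with g7 | g7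
  · exact bb7 h0 h1 h2 h3 g6 g7 h6 (by linarith only [h8, g7])
  rcases le_total σ (-(9 / 32)) with g8 | g8
  · exact bb8 h0 h1 h2 h3 g7 g8 h6 (by linarith only [h8, g8])
  rcases le_total σ (-(1 / 4)) with g9 | g9
  · exact bb9 h0 h1 h2 h3 g8 g9 h6 (by linarith only [h7])
  rcases le_total σ (-(3 / 16)) with g10 | g10
  · exact bb10 h0 h1 h2 h3 g9 g10 h6 (by linarith only [h7])
  rcases le_total σ (-(1 / 8)) with g11 | g11
  · exact bb11 h0 h1 h2 h3 g10 g11 h6 (by linarith only [h7])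
  rcases le_total σ (-(1 / 16)) with g12 | g12
  · exact bb12 h0 h1 h2 h3 g11 g12 h6 (by linarith only [h7])
  rcases le_total σ (0 / 1) with g13 | g13
  · exact bb13 h0 h1 h2 h3 g12 g13 h6 (by linarith only [h7])
  rcases le_total σ (1 / 16) with g14 | g14
  · exact bb14 h0 h1 h2 h3 g13 g14 h6 (by linarith only [h7])
  exact bb15 h0 h1 h2 h3 g14 h5 h6 (by linarith only [h7])

theorem e7_th_nonneg {σ : ℝ} (h : |σ| ≤ 1 / 2) : 0 ≤ LT.th σ := by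
  unfold LT.th
  exact le_min zero_le_one (by linarith only [h])

theorem e7_th_le_one (σ : ℝ) : LT.th σ ≤ 1 := min_le_left _ _

theorem e7_th_le_ramp (σ : ℝ) : LT.th σ ≤ 2 + 4 * σ := by
  unfold LT.th
  refine (min_le_right _ _).trans ?_
  linarith only [neg_abs_le σ]

/-- margin .0171 -/
theorem E7a {w τ ρ σ : ℝ} (h0 : 0 ≤ w) (h1 : w ≤ 7 / 50) (h2 : -(79 / 500) ≤ τ)
    (h3 : τ ≤ 1 / 250) (hρ : 0 ≤ ρ) (hρ1 : ρ ≤ 1045 / 10000) (hσ : |σ| ≤ 1 / 2) (hσ1 : σ ≤ 1 / 8) :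
    UU ⟨w, 0⟩ - 67 / 1250 + 543 / 1000 * w - 839 / 500 * τ ≤
      fR ⟨9 / 50, τ⟩ (LT.zt ρ σ) - fR ⟨w, 0⟩ (LT.zt ρ σ) := by
  have t0 := e7_th_nonneg hσ
  have t1 := e7_th_le_one σ
  have t2 := e7_th_le_ramp σ
  have m := E7a_main (η := ρ * LT.th σ) h0 h1 h2 h3 (abs_le.1 hσ).1 hσ1 (mul_nonneg hρ t0)
    (by nlinarith only [hρ, hρ1, t1]) (by nlinarith only [hρ1, t0, t2])
  rw [fR_diff]
  unfold fA fB at m
  rw [show UU ⟨w, 0⟩ = uu w 0 from rfl]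
  linarith only [m]

/-- margin .0389 -/
theorem E7b {w τ ρ σ : ℝ} (h0 : 7 / 50 ≤ w) (h1 : w ≤ 2 / 5) (h2 : -(79 / 500) ≤ τ)
    (h3 : τ ≤ 1 / 250) (hρ : 0 ≤ ρ) (hρ1 : ρ ≤ 1045 / 10000) (hσ : |σ| ≤ 1 / 2) (hσ1 : σ ≤ 1 / 8) :
    UU ⟨w, 0⟩ + 1291 / 10000 - 18 / 25 * w - 1397 / 1000 * τ ≤
      fR ⟨9 / 50, τ⟩ (LT.zt ρ σ) - fR ⟨w, 0⟩ (LT.zt ρ σ) := by
  have t0 := e7_th_nonneg hσ
  have t1 := e7_th_le_one σ
  have t2 := e7_th_le_ramp σ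
  have m := E7b_main (η := ρ * LT.th σ) h0 h1 h2 h3 (abs_le.1 hσ).1 hσ1 (mul_nonneg hρ t0)
    (by nlinarith only [hρ, hρ1, t1]) (by nlinarith only [hρ1, t0, t2])
  rw [fR_diff]
  unfold fA fB at m
  rw [show UU ⟨w, 0⟩ = uu w 0 from rfl]
  linarith only [m]

end TL

end Pool.Agent.Work.MP_b30479_gt.G2
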