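import Pool.Agent.Work.MP_b30479_gt.G2.TRb
import Pool.Agent.Work.MP_b30479_gt.G2.WCrit
import Pool.Agent.Work.NumU.Tree

/-!
# Tails, row `E7`: tools

The difference is a function of the new position plus a function of the old one; on every block
of the plane `(σ, η)` (`η` the height of the ring variable) a linear function separates them.
-/

namespace Pool.Agent.Work.MP_b30479_gt.G2

open VOL NumU

namespace TL

/-! ### the slope in the direction of the real part -/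

theorem Lr_slope {s x x' κ : ℝ} (hs : 0 < s) (hx : x ≤ x')
    (hκ : 2 * Real.cosh (2 * Real.pi * s) + 2 ≤ Real.exp (2 * κ)) :
    DT.Lr s x' - DT.Lr s x ≤ κ * (x' - x) := by
  have hd : ∀ r, HasDerivAt (fun x => κ * x - DT.Lr s x) (κ * 1 - DT.el s r) r := fun r =>
    ((hasDerivAt_id r).const_mul κ).sub (DT.hasDerivAt_Lr hs)
  have hm : Monotone (fun x => κ * x - DT.Lr s x) := by
    apply monotone_of_deriv_nonneg
    · exact fun r => (hd r).differentiableAt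
    · intro r
      rw [(hd r).deriv]
      unfold DT.el
      have a1 := DT.LrDer.cosh_gt_cos (v := r) hs
      have a2 := Real.neg_one_le_cos (2 * Real.pi * r)
      have a3 := Real.log_le_log (by linarith only [a1] : 0 < 2 * Real.cosh (2 * Real.pi * s) -
        2 * Real.cos (2 * Real.pi * r)) (by linarith only [hκ, a2] : 2 * Real.cosh (2 * Real.pi * s) -
        2 * Real.cos (2 * Real.pi * r) ≤ Real.exp (2 * κ))
      rw [Real.log_exp] at a3
      linarith only [a3]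
  have := hm hx
  simp only at this
  linarith

theorem uu_slope {u v t κ T : ℝ} (huv : u ≤ v) (hT : 0 < T) (ht : |t| ≤ T)
    (hκ : 2 * Real.cosh (2 * Real.pi * T) + 2 ≤ Real.exp (2 * κ)) :
    uu v t - uu u t ≤ κ * (v - u) := by
  have a1 := Lr_diff_mono huv (abs_nonneg t) ht
  have a2 := Lr_slope hT huv hκ
  rw [uu_Lr, uu_Lr]
  linarith only [a1, a2]

theorem exp34 : 2 * Real.cosh (2 * Real.pi * (1045 / 10000)) + 2 ≤ Real.exp (2 * (3 / 4)) := by
  have h : NumI.chk [NumI.E.sub (NumI.E.exp (NumI.E.q 3 2)) (NumI.E.add (NumI.E.q 2 1)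
      (NumI.E.mul (NumI.E.q 2 1) (NumI.E.cosh (NumI.E.mul NumI.E.pi (NumI.E.q 2090 10000)))))] 1
      [NumI.V.of 1 0 0] = true := by
    decide +kernel
  have hp := NumI.pos_of_chk (NumI.chk1 h (by norm_num) (x := 0) (by norm_num) (by norm_num))
  simp only [NumI.E.val] at hp
  rw [show 2 * Real.pi * (1045 / 10000) = Real.pi * (((2090 : ℤ) : ℝ) / ((10000 : ℕ) : ℝ)) by
    push_cast; ring, show (2 : ℝ) * (3 / 4) = ((3 : ℤ) : ℝ) / ((2 : ℕ) : ℝ) by norm_num]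
  have e2 : (((2 : ℤ) : ℝ) / ((1 : ℕ) : ℝ)) = 2 := by norm_num
  rw [e2] at hp
  linarith only [hp]

theorem exp101 : 2 * Real.cosh (2 * Real.pi * (2625 / 10000)) + 2 ≤ Real.exp (2 * (101 / 100)) := by
  have h : NumI.chk [NumI.E.sub (NumI.E.exp (NumI.E.q 101 50)) (NumI.E.add (NumI.E.q 2 1)
      (NumI.E.mul (NumI.E.q 2 1) (NumI.E.cosh (NumI.E.mul NumI.E.pi (NumI.E.q 5250 10000)))))] 1
      [NumI.V.of 1 0 0] = true := by
    decide +kernel
  have hp := NumI.pos_of_chk (NumI.chk1 h (by norm_num) (x := 0) (by norm_num) (by norm_num))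
  simp only [NumI.E.val] at hp
  rw [show 2 * Real.pi * (2625 / 10000) = Real.pi * (((5250 : ℤ) : ℝ) / ((10000 : ℕ) : ℝ)) by
    push_cast; ring, show (2 : ℝ) * (101 / 100) = ((101 : ℤ) : ℝ) / ((50 : ℕ) : ℝ) by norm_num]
  have e2 : (((2 : ℤ) : ℝ) / ((1 : ℕ) : ℝ)) = 2 := by norm_num
  rw [e2] at hp
  linarith only [hp]

variable {w τ c d σ η x t : ℝ}

theorem uu_slope34 {u v : ℝ} (huv : u ≤ v) (ht : |t| ≤ 1045 / 10000) :
    uu v t - uu u t ≤ 3 / 4 * (v - u) := uu_slope huv (by norm_num) ht exp34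

theorem uu_slope101 {u v : ℝ} (huv : u ≤ v) (ht : |t| ≤ 2625 / 10000) :
    uu v t - uu u t ≤ 101 / 100 * (v - u) := uu_slope huv (by norm_num) ht exp101

theorem uu_zero (t : ℝ) : uu 0 t = -(Real.pi / 2 * |t|) := by
  have a1 := uu_one_sub 0 t
  have a2 := uu_add_one 0 t
  rw [sub_zero] at a1
  rw [zero_add] at a2
  linarith only [a1, a2]

theorem uu_sub_one (x t : ℝ) : uu (x - 1) t = uu x t - Real.pi * |t| := by
  have a2 := uu_add_one (x - 1) t
  rw [sub_add_cancel] at a2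
  linarith only [a2]

/-! ### expressions -/

/-- the separating linear function -/
def gE (g0 g1 g2 : ℤ) : E :=
  .add (.q g0 10000) (.add (.mul (.q g1 1000) (.var 1)) (.mul (.q g2 1000) (.var 2)))

/-- lower bounds of `uu (17 / 25 - σ) (τ - η)`, variables `τ, σ, η` -/
def xA (d : ℤ) : ℕ → E
  | 0 => .uu (.sub (.q 17 25) (.var 1)) (.sub (.var 0) (.var 2))
  | 1 => .sub (.uu (.sub (.q (-8) 25) (.var 1)) (.sub (.var 0) (.var 2)))
      (.mul .pi (.sub (.var 0) (.var 2)))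
  | 2 => .sub (.sub (.uu (.sub (.add (.q (-8) 25) (.q d 1000)) (.var 1)) (.sub (.var 0) (.var 2)))
      (.mul .pi (.sub (.var 0) (.var 2)))) (.q (101 * d) 100000)
  | 3 => .add (.uu (.sub (.q (-8) 25) (.var 1)) (.sub (.var 0) (.var 2)))
      (.mul .pi (.sub (.var 0) (.var 2)))
  | _ => .sub (.add (.uu (.sub (.add (.q (-8) 25) (.q d 1000)) (.var 1)) (.sub (.var 0) (.var 2)))
      (.mul .pi (.sub (.var 0) (.var 2)))) (.q (101 * d) 100000)

def e7A (c g0 g1 g2 d : ℤ) (k : ℕ) : E :=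
  .sub (.add (.add (.uu (.add (.q 17 25) (.var 1)) (.add (.var 0) (.var 2))) (xA d k))
    (.sub (.mul (.q c 1000) (.var 0)) (.mul (.q 2 1) (.uu (.q 9 50) (.var 0))))) (gE g0 g1 g2)

/-- lower bounds of `uu w 0`, variables `w, σ, η` -/
def wB (d : ℤ) : ℕ → E
  | 0 => .uu (.var 0) (.q 0 1)
  | _ => .sub (.uu (.add (.var 0) (.q d 1000)) (.q 0 1)) (.q (3 * d) 4000)

/-- upper bounds of `uu (w + 1 / 2 - σ) η` -/
def aB (d : ℤ) : ℕ → E
  | 0 => .uu (.sub (.add (.var 0) (.q 1 2)) (.var 1)) (.var 2)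
  | 1 => .add (.uu (.sub (.sub (.var 0) (.q 1 2)) (.var 1)) (.var 2)) (.mul .pi (.var 2))
  | _ => .add (.uu (.sub (.sub (.add (.var 0) (.q 1 2)) (.var 1)) (.q d 1000)) (.var 2))
      (.q (3 * d) 4000)

/-- upper bounds of `uu (w + 1 / 2 + σ) η` -/
def bB (d : ℤ) : ℕ → E
  | 0 => .uu (.add (.add (.var 0) (.q 1 2)) (.var 1)) (.var 2)
  | 1 => .sub (.mul (.q 3 4) (.add (.add (.var 0) (.q 1 2)) (.var 1)))
      (.mul (.q 1 2) (.mul .pi (.var 2)))
  | 2 => .add (.uu (.sub (.add (.add (.var 0) (.q 1 2)) (.var 1)) (.q d 1000)) (.var 2))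
      (.q (3 * d) 4000)
  | _ => .add (.uu (.add (.sub (.var 0) (.q 1 2)) (.var 1)) (.var 2)) (.mul .pi (.var 2))

def e7B (c0 c1 g0 g1 g2 d : ℤ) (k : ℕ × ℕ × ℕ) : E :=
  .sub (.sub (.sub (.add (wB d k.1) (gE g0 g1 g2)) (aB d k.2.1)) (bB d k.2.2))
    (.add (.q c0 10000) (.mul (.q c1 1000) (.var 0)))

/-- the part of the new position -/
noncomputable def fA (c τ σ η : ℝ) : ℝ :=
  uu (17 / 25 + σ) (τ + η) + uu (17 / 25 - σ) (τ - η) - 2 * uu (9 / 50) τ + c * τ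

/-- the part of the old position -/
noncomputable def fB (c0 c1 w σ η : ℝ) : ℝ :=
  uu w 0 - uu (w + 1 / 2 + σ) η - uu (w + 1 / 2 - σ) η - (c0 + c1 * w)

theorem xA_le {d : ℤ} (hd : 0 ≤ d) (ht : |τ - η| ≤ 2625 / 10000) (k : ℕ) :
    (xA d k).val [τ, σ, η] ≤ uu (17 / 25 - σ) (τ - η) := by
  have hpi := Real.pi_pos
  have hd' : (0 : ℝ) ≤ d := by exact_mod_cast hd
  have e1 : uu (17 / 25 - σ) (τ - η) = uu (-8 / 25 - σ) (τ - η) + Real.pi * |τ - η| := by
    rw [← uu_add_one]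
    ring_nf
  have a1 : Real.pi * (τ - η) ≤ Real.pi * |τ - η| :=
    mul_le_mul_of_nonneg_left (le_abs_self _) hpi.le
  have a2 : Real.pi * -(τ - η) ≤ Real.pi * |τ - η| :=
    mul_le_mul_of_nonneg_left (neg_le_abs _) hpi.le
  have a3 := uu_slope101 (t := τ - η) (show -8 / 25 - σ ≤ -8 / 25 + (d : ℝ) / 1000 - σ by
    linarith only [hd', div_nonneg hd' (show (0 : ℝ) ≤ 1000 by norm_num)]) ht
  have e2 : (-8 / 25 + (d : ℝ) / 1000 - σ) - (-8 / 25 - σ) = (d : ℝ) / 1000 := by ring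
  rw [e2] at a3
  rcases k with _ | _ | _ | _ | k <;>
    simp only [xA, E.val, NumI.lkR] <;> push_cast <;> linarith only [e1, a2, a3, a1]

theorem gE_val (g0 g1 g2 : ℤ) (x : ℝ) : (gE g0 g1 g2).val [x, σ, η] =
    g0 / 10000 + (g1 / 1000 * σ + g2 / 1000 * η) := by
  simp only [gE, E.val, NumI.lkR]
  push_cast
  ring

theorem blkA {c g0 g1 g2 d s0 s1 e1 : ℤ} {ks : List ℕ} {cert : ℕ}
    (h : chkT (ks.map (e7A c g0 g1 g2 d)) 40 cert
      [NumI.V.of 64000 (-10112) 256 0, NumI.V.of 64000 s0 s1 0, NumI.V.of 64000 0 e1 0] = true)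
    (hd : 0 ≤ d) (h0 : -(79 / 500) ≤ τ) (h1 : τ ≤ 1 / 250) (h2 : (s0 : ℝ) / 64000 ≤ σ)
    (h3 : σ ≤ (s1 : ℝ) / 64000) (h4 : 0 ≤ η) (h5 : η ≤ (e1 : ℝ) / 64000)
    (h6 : η ≤ 1045 / 10000) :
    g0 / 10000 + (g1 / 1000 * σ + g2 / 1000 * η) < fA (c / 1000) τ σ η := by
  obtain ⟨e, he, hp⟩ := chkT3 h (by norm_num) (x := τ) (y := σ) (z := η)
    (by push_cast; linarith only [h0]) (by push_cast; linarith only [h1]) (by push_cast; linarith only [h2])
    (by push_cast; linarith only [h3]) (by push_cast; linarith only [h4]) (by push_cast; linarith only [h5])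
  obtain ⟨k, -, rfl⟩ := List.mem_map.1 he
  have a1 := xA_le (σ := σ) hd (show |τ - η| ≤ 2625 / 10000 by rw [abs_le]; constructor <;> linarith only [h0, h6, h1, h4]) k
  have hp' : 0 < (uu (17 / 25 + σ) (τ + η) + (xA d k).val [τ, σ, η] +
      (c / 1000 * τ - 2 * uu (9 / 50) τ)) - (gE g0 g1 g2).val [τ, σ, η] := by
    simp only [e7A, E.val, NumI.lkR] at hp
    push_cast at hp
    norm_num at hp ⊢
    linarith only [hp]
  rw [gE_val] at hp'
  unfold fA
  linarith only [a1, hp']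

theorem wB_le {d : ℤ} (hd : 0 ≤ d) (k : ℕ) : (wB d k).val [w, σ, η] ≤ uu w 0 := by
  have hd' : (0 : ℝ) ≤ d := by exact_mod_cast hd
  have a3 := uu_slope34 (t := 0) (show w ≤ w + (d : ℝ) / 1000 by
    linarith only [hd', div_nonneg hd' (show (0 : ℝ) ≤ 1000 by norm_num)]) (by norm_num)
  rcases k with _ | k <;>
    simp only [wB, E.val, NumI.lkR] <;> push_cast
  · norm_num
  · norm_num
    linarith only [a3]

theorem aB_ge {d : ℤ} (hd : 0 ≤ d) (h4 : 0 ≤ η) (h6 : η ≤ 1045 / 10000) (k : ℕ) :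
    uu (w + 1 / 2 - σ) η ≤ (aB d k).val [w, σ, η] := by
  have hd' : (0 : ℝ) ≤ d := by exact_mod_cast hd
  have a3 := uu_slope34 (t := η) (show w + 1 / 2 - σ - (d : ℝ) / 1000 ≤ w + 1 / 2 - σ by
    linarith only [hd', div_nonneg hd' (show (0 : ℝ) ≤ 1000 by norm_num)]) (by rwa [abs_of_nonneg h4])
  have e1 : uu (w + 1 / 2 - σ) η = uu (w - 1 / 2 - σ) η + Real.pi * η := by
    have := uu_add_one (w - 1 / 2 - σ) η
    rw [abs_of_nonneg h4] at this
    rw [← this]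
    ring_nf
  rcases k with _ | _ | k <;>
    simp only [aB, E.val, NumI.lkR] <;> push_cast <;> linarith only [e1, a3]

theorem bB_ge {d : ℤ} (hd : 0 ≤ d) (h4 : 0 ≤ η) (h6 : η ≤ 1045 / 10000)
    (h7 : 0 ≤ w + 1 / 2 + σ) (k : ℕ) :
    uu (w + 1 / 2 + σ) η ≤ (bB d k).val [w, σ, η] := by
  have hd' : (0 : ℝ) ≤ d := by exact_mod_cast hd
  have a3 := uu_slope34 (t := η) (show w + 1 / 2 + σ - (d : ℝ) / 1000 ≤ w + 1 / 2 + σ by
    linarith only [hd', div_nonneg hd' (show (0 : ℝ) ≤ 1000 by norm_num)]) (by rwa [abs_of_nonneg h4])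
  have a4 := uu_slope34 (t := η) h7 (by rwa [abs_of_nonneg h4])
  rw [uu_zero, abs_of_nonneg h4] at a4
  have e1 : uu (w + 1 / 2 + σ) η = uu (w - 1 / 2 + σ) η + Real.pi * η := by
    have := uu_add_one (w - 1 / 2 + σ) η
    rw [abs_of_nonneg h4] at this
    rw [← this]
    ring_nf
  rcases k with _ | _ | _ | k <;>
    simp only [bB, E.val, NumI.lkR] <;> push_cast <;> linarith only [a4, a3, e1]

theorem blkB {c0 c1 g0 g1 g2 d w0 w1 s0 s1 e1 : ℤ} {ks : List (ℕ × ℕ × ℕ)} {cert : ℕ}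
    (h : chkT (ks.map (e7B c0 c1 g0 g1 g2 d)) 40 cert
      [NumI.V.of 64000 w0 w1 0, NumI.V.of 64000 s0 s1 0, NumI.V.of 64000 0 e1 0] = true)
    (hd : 0 ≤ d) (h0 : (w0 : ℝ) / 64000 ≤ w) (h1 : w ≤ (w1 : ℝ) / 64000) (h2 : (s0 : ℝ) / 64000 ≤ σ)
    (h3 : σ ≤ (s1 : ℝ) / 64000) (h4 : 0 ≤ η) (h5 : η ≤ (e1 : ℝ) / 64000)
    (h6 : η ≤ 1045 / 10000) (h7 : 0 ≤ w + 1 / 2 + σ) :
    -(g0 / 10000 + (g1 / 1000 * σ + g2 / 1000 * η)) < fB (c0 / 10000) (c1 / 1000) w σ η := by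
  obtain ⟨e, he, hp⟩ := chkT3 h (by norm_num) (x := w) (y := σ) (z := η)
    (by push_cast; linarith only [h0]) (by push_cast; linarith only [h1]) (by push_cast; linarith only [h2])
    (by push_cast; linarith only [h3]) (by push_cast; linarith only [h4]) (by push_cast; linarith only [h5])
  obtain ⟨k, -, rfl⟩ := List.mem_map.1 he
  have a1 := wB_le (w := w) (σ := σ) (η := η) hd k.1
  have a2 := aB_ge (w := w) (σ := σ) hd h4 h6 k.2.1
  have a3 := bB_ge (w := w) (σ := σ) hd h4 h6 h7 k.2.2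
  have hp' : 0 < ((wB d k.1).val [w, σ, η] + (gE g0 g1 g2).val [w, σ, η] -
      (aB d k.2.1).val [w, σ, η] - (bB d k.2.2).val [w, σ, η]) - (c0 / 10000 + c1 / 1000 * w) := by
    simp only [e7B, E.val, NumI.lkR] at hp
    push_cast at hp
    exact hp
  rw [gE_val] at hp'
  unfold fB
  linarith only [a1, a2, a3, hp']

end TL

end Pool.Agent.Work.MP_b30479_gt.G2
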