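import Pool.Agent.Work.MP_b30479_gt.G2.V3MidA
import Pool.Agent.Work.MP_b30479_gt.G2.WVal

/-!
# Tails: side of a digit `1`, real and two-variable parts
-/

set_option linter.unusedSimpArgs false

namespace Pool.Agent.Work.MP_b30479_gt.G2

open VOL SR NumU

namespace TL.K1b

/-- derivative of `UU` on the real line -/
theorem hasDeriv {s : ℝ} (h0 : 0 < s) (h1 : s < 1) :
    HasDerivAt (fun s : ℝ => UU ⟨s, 0⟩) (LL ⟨s, 0⟩) s := by
  have hp := Real.pi_pos
  have hpt : ∀ s : ℝ, ((0 : ℝ) : ℂ) * Complex.I + ((1 * s : ℝ) : ℂ) = ⟨s, 0⟩ := by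
    intro s
    apply Complex.ext <;> simp
  have h2 := hasDerivAt_UU_level (((0 : ℝ) : ℂ) * Complex.I) 1 s (by
    rw [hpt]
    intro hc
    rw [Complex.sin_eq_zero_iff] at hc
    obtain ⟨k, hk⟩ := hc
    have hk1 : (⟨s, 0⟩ : ℂ) = k := by
      have : (Real.pi : ℂ) ≠ 0 := by exact_mod_cast hp.ne'
      apply mul_left_cancel₀ this
      rw [hk]
      ring
    have hk2 := congrArg Complex.re hk1
    simp only [Complex.intCast_re] at hk2
    rw [hk2] at h0 h1
    have a3 : (0 : ℤ) < k := by exact_mod_cast h0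
    have a4 : k < (1 : ℤ) := by exact_mod_cast h1
    omega)
  simp only [hpt] at h2
  rwa [one_mul] at h2

theorem cont : Continuous (fun s : ℝ => UU ⟨s, 0⟩) := by
  have : (fun s : ℝ => UU ⟨s, 0⟩) = fun s : ℝ => UU (s : ℂ) := rfl
  rw [this]
  exact continuous_UU.comp Complex.continuous_ofReal

/-- `UU (x + w) - UU x` decreases in `x` -/
theorem anti {X x w : ℝ} (hX : 1 / 2 ≤ X) (hx : X ≤ x) (hw : 0 ≤ w) (hxw : x + w ≤ 1) :
    uu (x + w) 0 - uu x 0 ≤ uu (X + w) 0 - uu X 0 := by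
  have hd : ∀ s ∈ Set.Ioo X x, HasDerivAt (fun s : ℝ => UU ⟨s + w, 0⟩ - UU ⟨s, 0⟩)
      (LL ⟨s + w, 0⟩ - LL ⟨s, 0⟩) s := by
    intro s hs
    have h1 := hasDeriv (s := s) (by linarith [hs.1]) (by linarith [hs.2])
    have h2 := (hasDeriv (s := s + w) (by linarith [hs.1]) (by linarith [hs.2])).comp_add_const s w
    exact h2.sub h1
  have hanti : AntitoneOn (fun s : ℝ => UU ⟨s + w, 0⟩ - UU ⟨s, 0⟩) (Set.Icc X x) := by
    apply antitoneOn_of_deriv_nonpos (convex_Icc _ _)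
    · apply Continuous.continuousOn
      exact (cont.comp (continuous_id.add continuous_const)).sub cont
    · rw [interior_Icc]
      exact fun s hs => (hd s hs).differentiableAt.differentiableWithinAt
    · rw [interior_Icc]
      intro s hs
      rw [(hd s hs).deriv]
      have := VM.LL_anti (p := s) (q := s + w) (y := 0) (by linarith [hs.1]) (by linarith)
        (by linarith [hs.2])
      linarith
  exact hanti (Set.left_mem_Icc.2 hx) (Set.right_mem_Icc.2 hx) hx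

theorem LL_real_nonpos {s : ℝ} (h0 : 0 ≤ s) (h1 : s ≤ 1 / 6) : LL ⟨s, 0⟩ ≤ 0 := by
  have hp := Real.pi_pos
  rcases h0.eq_or_lt with h0 | h0
  · rw [← h0, LL_eq']
    simp
  rw [LL_eq']
  simp only [mul_zero, Real.cosh_zero]
  have h3 : Real.cos (Real.pi / 3) ≤ Real.cos (2 * Real.pi * s) := by
    apply Real.cos_le_cos_of_nonneg_of_le_pi <;> nlinarith
  rw [Real.cos_pi_div_three] at h3
  have h4 : Real.cos (2 * Real.pi * s) < 1 := by
    have := Real.cos_lt_cos_of_nonneg_of_le_pi (x := 0) (y := 2 * Real.pi * s) le_rfl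
      (by nlinarith) (by positivity)
    rwa [Real.cos_zero] at this
  have h5 : Real.log (2 * 1 - 2 * Real.cos (2 * Real.pi * s)) ≤ 0 :=
    Real.log_nonpos (by linarith) (by linarith)
  exact div_nonpos_of_nonpos_of_nonneg h5 (by norm_num)

/-- `UU` decreases on `[0, 1/6]` -/
theorem anti_l {a b : ℝ} (ha : 0 ≤ a) (hab : a ≤ b) (hb : b ≤ 1 / 6) : uu b 0 ≤ uu a 0 := by
  have hd : ∀ s ∈ Set.Ioo a b, HasDerivAt (fun s : ℝ => UU ⟨s, 0⟩) (LL ⟨s, 0⟩) s :=
    fun s hs => hasDeriv (by linarith [hs.1]) (by linarith [hs.2])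
  have hanti : AntitoneOn (fun s : ℝ => UU ⟨s, 0⟩) (Set.Icc a b) := by
    apply antitoneOn_of_deriv_nonpos (convex_Icc _ _)
    · exact cont.continuousOn
    · rw [interior_Icc]
      exact fun s hs => (hd s hs).differentiableAt.differentiableWithinAt
    · rw [interior_Icc]
      intro s hs
      rw [(hd s hs).deriv]
      exact LL_real_nonpos (by linarith [hs.1]) (by linarith [hs.2])
  exact hanti (Set.left_mem_Icc.2 hab) (Set.right_mem_Icc.2 hab) hab

/-- `UU` decreases on `[5/6, 1]` -/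
theorem anti_r {a b : ℝ} (ha : 5 / 6 ≤ a) (hab : a ≤ b) (hb : b ≤ 1) : uu b 0 ≤ uu a 0 := by
  have h := anti_l (a := 1 - b) (b := 1 - a) (by linarith) (by linarith) (by linarith)
  rw [uu_one_sub, uu_one_sub] at h
  linarith

/-- new value -/
noncomputable def rF (c c' t k : ℝ) : ℝ :=
  Real.pi * (c * k + t * c' - t - k) + uu (c + c') (t + k) - uu c t - uu c' k

theorem V1_rF (c c' t k : ℝ) : V1 ⟨c, t⟩ ⟨c', k⟩ = rF c c' t k := by
  unfold V1 rF
  have e : ((⟨c, t⟩ : ℂ) * ⟨c', k⟩ - ⟨c, t⟩ - ⟨c', k⟩).im = c * k + t * c' - t - k := by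
    simp only [Complex.sub_im, Complex.mul_im]
  rw [e]
  rfl

theorem V1_real (x w : ℝ) : V1 ⟨x, 0⟩ ⟨w, 0⟩ = uu (x + w) 0 - uu x 0 - uu w 0 := by
  rw [V1_rF]
  unfold rF
  ring_nf

/-- the two parts together -/
theorem core {c c' X x w t k G β γ a a0 a1 c1 : ℝ} {U : ℝ} (hX : 1 / 2 ≤ X) (hx : X ≤ x)
    (hw : 0 ≤ w) (hxw : x + w ≤ 1) (hF : c1 < rF c c' t k + β * t + γ * k)
    (hR : -c1 < U * uu w 0 + a0 + a1 * w - (uu (X + w) 0 - uu X 0 - uu w 0) - a)
    (hG : U * uu w 0 + a0 + a1 * w + γ * k ≤ G) :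
    a ≤ V1 ⟨c, t⟩ ⟨c', k⟩ - V1 ⟨x, 0⟩ ⟨w, 0⟩ + G + β * t := by
  rw [V1_rF, V1_real]
  have := anti hX hx hw hxw
  linarith

end TL.K1b

end Pool.Agent.Work.MP_b30479_gt.G2
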