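import Pool.Agent.Work.MP_b30479_gt.G2.TK1bB
import Pool.Agent.Work.MP_b30479_gt.G2.TDef2
import Pool.Agent.Work.MP_b30479_gt.G2.TK1bA
import Pool.Agent.Work.MP_b30479_gt.G2.WLocX

/-!
# Tails: the side of a digit `1` next to `2`, `2e`, `3e`, ring
-/

set_option linter.unusedVariables false
set_option linter.unusedSimpArgs false
set_option linter.unusedTactic false
set_option linter.unreachableTactic false

namespace Pool.Agent.Work.MP_b30479_gt.G2

open VOL SR NumU

namespace TL

theorem K1b.R_t_one_0_0 {w : ℝ} (h0 : 0 / 1 ≤ w) (h1 : w ≤ 9 / 50) :
    -(3 / 20) < 0 * uu w 0 + (-11 / 1000) + (0 / 1) * w - (uu (4 / 5 + w) 0 - uu (4 / 5) 0 - uu w 0) - (-13 / 100) := by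
  rcases le_total w (1 / 100) with g0 | g0
  · have a1 := K1b.r_t_one_0_0_0 (w := w) (by first | (refine le_trans ?_ h0; norm_num; done) | (refine le_trans ?_ g0; norm_num; done) | (refine le_trans ?_ g1; norm_num; done) | linarith)
        (by first | (refine le_trans g0 ?_; norm_num; done) | (refine le_trans g1 ?_; norm_num; done) | (refine le_trans h1 ?_; norm_num; done) | linarith)
    have a2 := K1b.anti_l (a := w) (b := 1 / 100) (by first | (refine le_trans ?_ h0; norm_num; done) | (refine le_trans ?_ g0; norm_num; done) | (refine le_trans ?_ g1; norm_num; done) | linarith) g0 (by norm_num)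
    first | with_reducible exact a1 | linarith only [a1, a2] | linarith only [a1, a3] | linarith
  have a1 := K1b.r_t_one_0_0_1 (w := w) (by first | (refine le_trans ?_ h0; norm_num; done) | (refine le_trans ?_ g0; norm_num; done) | (refine le_trans ?_ g1; norm_num; done) | linarith)
        (by first | (refine le_trans g0 ?_; norm_num; done) | (refine le_trans g1 ?_; norm_num; done) | (refine le_trans h1 ?_; norm_num; done) | linarith)
  first | with_reducible exact a1 | linarith only [a1, a2] | linarith only [a1, a3] | linarith

theorem K1b.R_t_one_1_0 {w : ℝ} (h0 : 0 / 1 ≤ w) (h1 : w ≤ 9 / 50) :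
    -(19 / 100) < 1 * uu w 0 + (-163 / 5000) + (779 / 1000) * w - (uu (4 / 5 + w) 0 - uu (4 / 5) 0 - uu w 0) - (-13 / 100) := by
  rcases le_total w (1 / 100) with g0 | g0
  · have a1 := K1b.r_t_one_1_0_0 (w := w) (by first | (refine le_trans ?_ h0; norm_num; done) | (refine le_trans ?_ g0; norm_num; done) | (refine le_trans ?_ g1; norm_num; done) | linarith)
        (by first | (refine le_trans g0 ?_; norm_num; done) | (refine le_trans g1 ?_; norm_num; done) | (refine le_trans h1 ?_; norm_num; done) | linarith)
    have a2 := K1b.anti_l (a := w) (b := 1 / 100) (by first | (refine le_trans ?_ h0; norm_num; done) | (refine le_trans ?_ g0; norm_num; done) | (refine le_trans ?_ g1; norm_num; done) | linarith) g0 (by norm_num)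
    first | with_reducible exact a1 | linarith only [a1, a2] | linarith only [a1, a3] | linarith
  have a1 := K1b.r_t_one_1_0_1 (w := w) (by first | (refine le_trans ?_ h0; norm_num; done) | (refine le_trans ?_ g0; norm_num; done) | (refine le_trans ?_ g1; norm_num; done) | linarith)
        (by first | (refine le_trans g0 ?_; norm_num; done) | (refine le_trans g1 ?_; norm_num; done) | (refine le_trans h1 ?_; norm_num; done) | linarith)
  first | with_reducible exact a1 | linarith only [a1, a2] | linarith only [a1, a3] | linarith

theorem K1b.R_t_one_2_0 {w : ℝ} (h0 : 9 / 50 ≤ w) (h1 : w ≤ 1 / 5) :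
    -(1 / 5) < 1 * uu w 0 + (164 / 625) + (-921 / 1000) * w - (uu (4 / 5 + w) 0 - uu (4 / 5) 0 - uu w 0) - (-13 / 100) := by
  have a1 := K1b.r_t_one_2_0_0 (w := w) (by first | (refine le_trans ?_ h0; norm_num; done) | (refine le_trans ?_ g0; norm_num; done) | (refine le_trans ?_ g1; norm_num; done) | linarith)
        (by first | (refine le_trans g0 ?_; norm_num; done) | (refine le_trans g1 ?_; norm_num; done) | (refine le_trans h1 ?_; norm_num; done) | linarith)
  have a3 := K1b.anti_r (a := 49 / 50) (b := 4 / 5 + w) (by norm_num)
        (by first | linarith only [g1] | linarith only [h0] | linarith) (by linarith only [h1])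
  first | with_reducible exact a1 | linarith only [a1, a2] | linarith only [a1, a3] | linarith

theorem K1b.R_t_one_3_0 {w : ℝ} (h0 : 9 / 50 ≤ w) (h1 : w ≤ 1 / 5) :
    -(19 / 100) < 1 * uu w 0 + (1451 / 5000) + (-1021 / 1000) * w - (uu (4 / 5 + w) 0 - uu (4 / 5) 0 - uu w 0) - (-13 / 100) := by
  have a1 := K1b.r_t_one_3_0_0 (w := w) (by first | (refine le_trans ?_ h0; norm_num; done) | (refine le_trans ?_ g0; norm_num; done) | (refine le_trans ?_ g1; norm_num; done) | linarith)
        (by first | (refine le_trans g0 ?_; norm_num; done) | (refine le_trans g1 ?_; norm_num; done) | (refine le_trans h1 ?_; norm_num; done) | linarith)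
  have a3 := K1b.anti_r (a := 49 / 50) (b := 4 / 5 + w) (by norm_num)
        (by first | linarith only [g1] | linarith only [h0] | linarith) (by linarith only [h1])
  first | with_reducible exact a1 | linarith only [a1, a2] | linarith only [a1, a3] | linarith

theorem K1b.R_t_two_0_0 {w : ℝ} (h0 : 0 / 1 ≤ w) (h1 : w ≤ 1 / 5) :
    -(11 / 50) < 1 * uu w 0 + (53 / 625) + (-37 / 250) * w - (uu (4 / 5 + w) 0 - uu (4 / 5) 0 - uu w 0) - (-13 / 100) := by
  rcases le_total w (1 / 100) with g0 | g0
  · have a1 := K1b.r_t_two_0_0_0 (w := w) (by first | (refine le_trans ?_ h0; norm_num; done) | (refine le_trans ?_ g0; norm_num; done) | (refine le_trans ?_ g1; norm_num; done) | linarith)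
        (by first | (refine le_trans g0 ?_; norm_num; done) | (refine le_trans g1 ?_; norm_num; done) | (refine le_trans h1 ?_; norm_num; done) | linarith)
    have a2 := K1b.anti_l (a := w) (b := 1 / 100) (by first | (refine le_trans ?_ h0; norm_num; done) | (refine le_trans ?_ g0; norm_num; done) | (refine le_trans ?_ g1; norm_num; done) | linarith) g0 (by norm_num)
    first | with_reducible exact a1 | linarith only [a1, a2] | linarith only [a1, a3] | linarith
  rcases le_total w (9 / 50) with g1 | g1
  · have a1 := K1b.r_t_two_0_0_1 (w := w) (by first | (refine le_trans ?_ h0; norm_num; done) | (refine le_trans ?_ g0; norm_num; done) | (refine le_trans ?_ g1; norm_num; done) | linarith)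
        (by first | (refine le_trans g0 ?_; norm_num; done) | (refine le_trans g1 ?_; norm_num; done) | (refine le_trans h1 ?_; norm_num; done) | linarith)
    first | with_reducible exact a1 | linarith only [a1, a2] | linarith only [a1, a3] | linarith
  have a1 := K1b.r_t_two_0_0_2 (w := w) (by first | (refine le_trans ?_ h0; norm_num; done) | (refine le_trans ?_ g0; norm_num; done) | (refine le_trans ?_ g1; norm_num; done) | linarith)
        (by first | (refine le_trans g0 ?_; norm_num; done) | (refine le_trans g1 ?_; norm_num; done) | (refine le_trans h1 ?_; norm_num; done) | linarith)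
  have a3 := K1b.anti_r (a := 49 / 50) (b := 4 / 5 + w) (by norm_num)
        (by first | linarith only [g1] | linarith only [h0] | linarith) (by linarith only [h1])
  first | with_reducible exact a1 | linarith only [a1, a2] | linarith only [a1, a3] | linarith

theorem K1b.R_t_twoE_0_0 {w : ℝ} (h0 : 0 / 1 ≤ w) (h1 : w ≤ 1 / 5) :
    -(6 / 25) < 1 * uu w 0 + (309 / 2000) + (0 / 1) * w - (uu (4 / 5 + w) 0 - uu (4 / 5) 0 - uu w 0) - (-13 / 100) := by
  rcases le_total w (1 / 100) with g0 | g0
  · have a1 := K1b.r_t_twoE_0_0_0 (w := w) (by first | (refine le_trans ?_ h0; norm_num; done) | (refine le_trans ?_ g0; norm_num; done) | (refine le_trans ?_ g1; norm_num; done) | linarith)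
        (by first | (refine le_trans g0 ?_; norm_num; done) | (refine le_trans g1 ?_; norm_num; done) | (refine le_trans h1 ?_; norm_num; done) | linarith)
    have a2 := K1b.anti_l (a := w) (b := 1 / 100) (by first | (refine le_trans ?_ h0; norm_num; done) | (refine le_trans ?_ g0; norm_num; done) | (refine le_trans ?_ g1; norm_num; done) | linarith) g0 (by norm_num)
    first | with_reducible exact a1 | linarith only [a1, a2] | linarith only [a1, a3] | linarith
  rcases le_total w (9 / 50) with g1 | g1
  · have a1 := K1b.r_t_twoE_0_0_1 (w := w) (by first | (refine le_trans ?_ h0; norm_num; done) | (refine le_trans ?_ g0; norm_num; done) | (refine le_trans ?_ g1; norm_num; done) | linarith)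
        (by first | (refine le_trans g0 ?_; norm_num; done) | (refine le_trans g1 ?_; norm_num; done) | (refine le_trans h1 ?_; norm_num; done) | linarith)
    first | with_reducible exact a1 | linarith only [a1, a2] | linarith only [a1, a3] | linarith
  have a1 := K1b.r_t_twoE_0_0_2 (w := w) (by first | (refine le_trans ?_ h0; norm_num; done) | (refine le_trans ?_ g0; norm_num; done) | (refine le_trans ?_ g1; norm_num; done) | linarith)
        (by first | (refine le_trans g0 ?_; norm_num; done) | (refine le_trans g1 ?_; norm_num; done) | (refine le_trans h1 ?_; norm_num; done) | linarith)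
  have a3 := K1b.anti_r (a := 49 / 50) (b := 4 / 5 + w) (by norm_num)
        (by first | linarith only [g1] | linarith only [h0] | linarith) (by linarith only [h1])
  first | with_reducible exact a1 | linarith only [a1, a2] | linarith only [a1, a3] | linarith

theorem K1b.R_t_threeA_0_0 {w : ℝ} (h0 : 0 / 1 ≤ w) (h1 : w ≤ 4 / 25) :
    -(97 / 1000) < 1 * uu w 0 + (62 / 625) + (-227 / 1000) * w - (uu (4 / 5 + w) 0 - uu (4 / 5) 0 - uu w 0) - (-13 / 100) := by
  rcases le_total w (1 / 100) with g0 | g0
  · have a1 := K1b.r_t_threeA_0_0_0 (w := w) (by first | (refine le_trans ?_ h0; norm_num; done) | (refine le_trans ?_ g0; norm_num; done) | (refine le_trans ?_ g1; norm_num; done) | linarith)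
        (by first | (refine le_trans g0 ?_; norm_num; done) | (refine le_trans g1 ?_; norm_num; done) | (refine le_trans h1 ?_; norm_num; done) | linarith)
    have a2 := K1b.anti_l (a := w) (b := 1 / 100) (by first | (refine le_trans ?_ h0; norm_num; done) | (refine le_trans ?_ g0; norm_num; done) | (refine le_trans ?_ g1; norm_num; done) | linarith) g0 (by norm_num)
    first | with_reducible exact a1 | linarith only [a1, a2] | linarith only [a1, a3] | linarith
  have a1 := K1b.r_t_threeA_0_0_1 (w := w) (by first | (refine le_trans ?_ h0; norm_num; done) | (refine le_trans ?_ g0; norm_num; done) | (refine le_trans ?_ g1; norm_num; done) | linarith)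
        (by first | (refine le_trans g0 ?_; norm_num; done) | (refine le_trans g1 ?_; norm_num; done) | (refine le_trans h1 ?_; norm_num; done) | linarith)
  first | with_reducible exact a1 | linarith only [a1, a2] | linarith only [a1, a3] | linarith

theorem K1b.R_t_threeA_1_0 {w : ℝ} (h0 : 4 / 25 ≤ w) (h1 : w ≤ 1 / 5) :
    -(13 / 200) < 1 * uu w 0 + (1289 / 5000) + (-553 / 500) * w - (uu (4 / 5 + w) 0 - uu (4 / 5) 0 - uu w 0) - (-13 / 100) := by
  rcases le_total w (9 / 50) with g0 | g0
  · have a1 := K1b.r_t_threeA_1_0_0 (w := w) (by first | (refine le_trans ?_ h0; norm_num; done) | (refine le_trans ?_ g0; norm_num; done) | (refine le_trans ?_ g1; norm_num; done) | linarith)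
        (by first | (refine le_trans g0 ?_; norm_num; done) | (refine le_trans g1 ?_; norm_num; done) | (refine le_trans h1 ?_; norm_num; done) | linarith)
    first | with_reducible exact a1 | linarith only [a1, a2] | linarith only [a1, a3] | linarith
  have a1 := K1b.r_t_threeA_1_0_1 (w := w) (by first | (refine le_trans ?_ h0; norm_num; done) | (refine le_trans ?_ g0; norm_num; done) | (refine le_trans ?_ g1; norm_num; done) | linarith)
        (by first | (refine le_trans g0 ?_; norm_num; done) | (refine le_trans g1 ?_; norm_num; done) | (refine le_trans h1 ?_; norm_num; done) | linarith)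
  have a3 := K1b.anti_r (a := 49 / 50) (b := 4 / 5 + w) (by norm_num)
        (by first | linarith only [g1] | linarith only [h0] | linarith) (by linarith only [h1])
  first | with_reducible exact a1 | linarith only [a1, a2] | linarith only [a1, a3] | linarith

theorem K1b.R_t_threeK_0_0 {w : ℝ} (h0 : 0 / 1 ≤ w) (h1 : w ≤ 1 / 5) :
    -(4 / 25) < 1 * uu w 0 + (7 / 625) + (97 / 1000) * w - (uu (4 / 5 + w) 0 - uu (4 / 5) 0 - uu w 0) - (-13 / 100) := by
  rcases le_total w (1 / 100) with g0 | g0
  · have a1 := K1b.r_t_threeK_0_0_0 (w := w) (by first | (refine le_trans ?_ h0; norm_num; done) | (refine le_trans ?_ g0; norm_num; done) | (refine le_trans ?_ g1; norm_num; done) | linarith)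
        (by first | (refine le_trans g0 ?_; norm_num; done) | (refine le_trans g1 ?_; norm_num; done) | (refine le_trans h1 ?_; norm_num; done) | linarith)
    have a2 := K1b.anti_l (a := w) (b := 1 / 100) (by first | (refine le_trans ?_ h0; norm_num; done) | (refine le_trans ?_ g0; norm_num; done) | (refine le_trans ?_ g1; norm_num; done) | linarith) g0 (by norm_num)
    first | with_reducible exact a1 | linarith only [a1, a2] | linarith only [a1, a3] | linarith
  rcases le_total w (9 / 50) with g1 | g1
  · have a1 := K1b.r_t_threeK_0_0_1 (w := w) (by first | (refine le_trans ?_ h0; norm_num; done) | (refine le_trans ?_ g0; norm_num; done) | (refine le_trans ?_ g1; norm_num; done) | linarith)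
        (by first | (refine le_trans g0 ?_; norm_num; done) | (refine le_trans g1 ?_; norm_num; done) | (refine le_trans h1 ?_; norm_num; done) | linarith)
    first | with_reducible exact a1 | linarith only [a1, a2] | linarith only [a1, a3] | linarith
  have a1 := K1b.r_t_threeK_0_0_2 (w := w) (by first | (refine le_trans ?_ h0; norm_num; done) | (refine le_trans ?_ g0; norm_num; done) | (refine le_trans ?_ g1; norm_num; done) | linarith)
        (by first | (refine le_trans g0 ?_; norm_num; done) | (refine le_trans g1 ?_; norm_num; done) | (refine le_trans h1 ?_; norm_num; done) | linarith)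
  have a3 := K1b.anti_r (a := 49 / 50) (b := 4 / 5 + w) (by norm_num)
        (by first | linarith only [g1] | linarith only [h0] | linarith) (by linarith only [h1])
  first | with_reducible exact a1 | linarith only [a1, a2] | linarith only [a1, a3] | linarith

theorem K1b.R_t_threeE_0_0 {w : ℝ} (h0 : 0 / 1 ≤ w) (h1 : w ≤ 1 / 5) :
    -(9 / 50) < 1 * uu w 0 + (269 / 2000) + (0 / 1) * w - (uu (4 / 5 + w) 0 - uu (4 / 5) 0 - uu w 0) - (-13 / 100) := by
  rcases le_total w (1 / 100) with g0 | g0
  · have a1 := K1b.r_t_threeE_0_0_0 (w := w) (by first | (refine le_trans ?_ h0; norm_num; done) | (refine le_trans ?_ g0; norm_num; done) | (refine le_trans ?_ g1; norm_num; done) | linarith)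
        (by first | (refine le_trans g0 ?_; norm_num; done) | (refine le_trans g1 ?_; norm_num; done) | (refine le_trans h1 ?_; norm_num; done) | linarith)
    have a2 := K1b.anti_l (a := w) (b := 1 / 100) (by first | (refine le_trans ?_ h0; norm_num; done) | (refine le_trans ?_ g0; norm_num; done) | (refine le_trans ?_ g1; norm_num; done) | linarith) g0 (by norm_num)
    first | with_reducible exact a1 | linarith only [a1, a2] | linarith only [a1, a3] | linarith
  rcases le_total w (9 / 50) with g1 | g1
  · have a1 := K1b.r_t_threeE_0_0_1 (w := w) (by first | (refine le_trans ?_ h0; norm_num; done) | (refine le_trans ?_ g0; norm_num; done) | (refine le_trans ?_ g1; norm_num; done) | linarith)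
        (by first | (refine le_trans g0 ?_; norm_num; done) | (refine le_trans g1 ?_; norm_num; done) | (refine le_trans h1 ?_; norm_num; done) | linarith)
    first | with_reducible exact a1 | linarith only [a1, a2] | linarith only [a1, a3] | linarith
  have a1 := K1b.r_t_threeE_0_0_2 (w := w) (by first | (refine le_trans ?_ h0; norm_num; done) | (refine le_trans ?_ g0; norm_num; done) | (refine le_trans ?_ g1; norm_num; done) | linarith)
        (by first | (refine le_trans g0 ?_; norm_num; done) | (refine le_trans g1 ?_; norm_num; done) | (refine le_trans h1 ?_; norm_num; done) | linarith)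
  have a3 := K1b.anti_r (a := 49 / 50) (b := 4 / 5 + w) (by norm_num)
        (by first | linarith only [g1] | linarith only [h0] | linarith) (by linarith only [h1])
  first | with_reducible exact a1 | linarith only [a1, a2] | linarith only [a1, a3] | linarith

theorem K1b.R_t_ring_0_0 {w : ℝ} (h0 : 0 / 1 ≤ w) (h1 : w ≤ 7 / 50) :
    -(7 / 40) < 1 * uu w 0 + (-67 / 1250) + (543 / 1000) * w - (uu (4 / 5 + w) 0 - uu (4 / 5) 0 - uu w 0) - (-13 / 100) := by
  rcases le_total w (1 / 100) with g0 | g0
  · have a1 := K1b.r_t_ring_0_0_0 (w := w) (by first | (refine le_trans ?_ h0; norm_num; done) | (refine le_trans ?_ g0; norm_num; done) | (refine le_trans ?_ g1; norm_num; done) | linarith)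
        (by first | (refine le_trans g0 ?_; norm_num; done) | (refine le_trans g1 ?_; norm_num; done) | (refine le_trans h1 ?_; norm_num; done) | linarith)
    have a2 := K1b.anti_l (a := w) (b := 1 / 100) (by first | (refine le_trans ?_ h0; norm_num; done) | (refine le_trans ?_ g0; norm_num; done) | (refine le_trans ?_ g1; norm_num; done) | linarith) g0 (by norm_num)
    first | with_reducible exact a1 | linarith only [a1, a2] | linarith only [a1, a3] | linarith
  have a1 := K1b.r_t_ring_0_0_1 (w := w) (by first | (refine le_trans ?_ h0; norm_num; done) | (refine le_trans ?_ g0; norm_num; done) | (refine le_trans ?_ g1; norm_num; done) | linarith)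
        (by first | (refine le_trans g0 ?_; norm_num; done) | (refine le_trans g1 ?_; norm_num; done) | (refine le_trans h1 ?_; norm_num; done) | linarith)
  first | with_reducible exact a1 | linarith only [a1, a2] | linarith only [a1, a3] | linarith

theorem K1b.R_t_ring_1_0 {w : ℝ} (h0 : 7 / 50 ≤ w) (h1 : w ≤ 1 / 5) :
    -(18 / 125) < 1 * uu w 0 + (1291 / 10000) + (-18 / 25) * w - (uu (4 / 5 + w) 0 - uu (4 / 5) 0 - uu w 0) - (-13 / 100) := by
  rcases le_total w (9 / 50) with g0 | g0
  · have a1 := K1b.r_t_ring_1_0_0 (w := w) (by first | (refine le_trans ?_ h0; norm_num; done) | (refine le_trans ?_ g0; norm_num; done) | (refine le_trans ?_ g1; norm_num; done) | linarith)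
        (by first | (refine le_trans g0 ?_; norm_num; done) | (refine le_trans g1 ?_; norm_num; done) | (refine le_trans h1 ?_; norm_num; done) | linarith)
    first | with_reducible exact a1 | linarith only [a1, a2] | linarith only [a1, a3] | linarith
  have a1 := K1b.r_t_ring_1_0_1 (w := w) (by first | (refine le_trans ?_ h0; norm_num; done) | (refine le_trans ?_ g0; norm_num; done) | (refine le_trans ?_ g1; norm_num; done) | linarith)
        (by first | (refine le_trans g0 ?_; norm_num; done) | (refine le_trans g1 ?_; norm_num; done) | (refine le_trans h1 ?_; norm_num; done) | linarith)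
  have a3 := K1b.anti_r (a := 49 / 50) (b := 4 / 5 + w) (by norm_num)
        (by first | linarith only [g1] | linarith only [h0] | linarith) (by linarith only [h1])
  first | with_reducible exact a1 | linarith only [a1, a2] | linarith only [a1, a3] | linarith

theorem K1b.R_t_touched_0_0 {w : ℝ} (h0 : 0 / 1 ≤ w) (h1 : w ≤ 1 / 5) :
    -(11 / 50) < 0 * uu w 0 + (0 / 1) + (0 / 1) * w - (uu (4 / 5 + w) 0 - uu (4 / 5) 0 - uu w 0) - (-13 / 100) := by
  rcases le_total w (1 / 100) with g0 | g0
  · have a1 := K1b.r_t_touched_0_0_0 (w := w) (by first | (refine le_trans ?_ h0; norm_num; done) | (refine le_trans ?_ g0; norm_num; done) | (refine le_trans ?_ g1; norm_num; done) | linarith)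
        (by first | (refine le_trans g0 ?_; norm_num; done) | (refine le_trans g1 ?_; norm_num; done) | (refine le_trans h1 ?_; norm_num; done) | linarith)
    have a2 := K1b.anti_l (a := w) (b := 1 / 100) (by first | (refine le_trans ?_ h0; norm_num; done) | (refine le_trans ?_ g0; norm_num; done) | (refine le_trans ?_ g1; norm_num; done) | linarith) g0 (by norm_num)
    first | with_reducible exact a1 | linarith only [a1, a2] | linarith only [a1, a3] | linarith
  rcases le_total w (9 / 50) with g1 | g1
  · have a1 := K1b.r_t_touched_0_0_1 (w := w) (by first | (refine le_trans ?_ h0; norm_num; done) | (refine le_trans ?_ g0; norm_num; done) | (refine le_trans ?_ g1; norm_num; done) | linarith)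
        (by first | (refine le_trans g0 ?_; norm_num; done) | (refine le_trans g1 ?_; norm_num; done) | (refine le_trans h1 ?_; norm_num; done) | linarith)
    first | with_reducible exact a1 | linarith only [a1, a2] | linarith only [a1, a3] | linarith
  have a1 := K1b.r_t_touched_0_0_2 (w := w) (by first | (refine le_trans ?_ h0; norm_num; done) | (refine le_trans ?_ g0; norm_num; done) | (refine le_trans ?_ g1; norm_num; done) | linarith)
        (by first | (refine le_trans g0 ?_; norm_num; done) | (refine le_trans g1 ?_; norm_num; done) | (refine le_trans h1 ?_; norm_num; done) | linarith)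
  have a3 := K1b.anti_r (a := 49 / 50) (b := 4 / 5 + w) (by norm_num)
        (by first | linarith only [g1] | linarith only [h0] | linarith) (by linarith only [h1])
  first | with_reducible exact a1 | linarith only [a1, a2] | linarith only [a1, a3] | linarith

theorem K1b.R_e_one_0_0 {w : ℝ} (h0 : 0 / 1 ≤ w) (h1 : w ≤ 9 / 50) :
    -(21 / 100) < 0 * uu w 0 + (-11 / 1000) + (0 / 1) * w - (uu (7 / 10 + w) 0 - uu (7 / 10) 0 - uu w 0) - (-9 / 40) := by
  rcases le_total w (1 / 100) with g0 | g0
  · have a1 := K1b.r_e_one_0_0_0 (w := w) (by first | (refine le_trans ?_ h0; norm_num; done) | (refine le_trans ?_ g0; norm_num; done) | (refine le_trans ?_ g1; norm_num; done) | linarith)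
        (by first | (refine le_trans g0 ?_; norm_num; done) | (refine le_trans g1 ?_; norm_num; done) | (refine le_trans h1 ?_; norm_num; done) | linarith)
    have a2 := K1b.anti_l (a := w) (b := 1 / 100) (by first | (refine le_trans ?_ h0; norm_num; done) | (refine le_trans ?_ g0; norm_num; done) | (refine le_trans ?_ g1; norm_num; done) | linarith) g0 (by norm_num)
    first | with_reducible exact a1 | linarith only [a1, a2] | linarith only [a1, a3] | linarith
  have a1 := K1b.r_e_one_0_0_1 (w := w) (by first | (refine le_trans ?_ h0; norm_num; done) | (refine le_trans ?_ g0; norm_num; done) | (refine le_trans ?_ g1; norm_num; done) | linarith)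
        (by first | (refine le_trans g0 ?_; norm_num; done) | (refine le_trans g1 ?_; norm_num; done) | (refine le_trans h1 ?_; norm_num; done) | linarith)
  first | with_reducible exact a1 | linarith only [a1, a2] | linarith only [a1, a3] | linarith

theorem K1b.R_e_one_0_1 {w : ℝ} (h0 : 0 / 1 ≤ w) (h1 : w ≤ 1 / 20) :
    -(21 / 100) < 0 * uu w 0 + (-11 / 1000) + (0 / 1) * w - (uu (19 / 20 + w) 0 - uu (19 / 20) 0 - uu w 0) - (-1 / 10) := by
  rcases le_total w (1 / 100) with g0 | g0
  · have a1 := K1b.r_e_one_0_1_0 (w := w) (by first | (refine le_trans ?_ h0; norm_num; done) | (refine le_trans ?_ g0; norm_num; done) | (refine le_trans ?_ g1; norm_num; done) | linarith)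
        (by first | (refine le_trans g0 ?_; norm_num; done) | (refine le_trans g1 ?_; norm_num; done) | (refine le_trans h1 ?_; norm_num; done) | linarith)
    have a2 := K1b.anti_l (a := w) (b := 1 / 100) (by first | (refine le_trans ?_ h0; norm_num; done) | (refine le_trans ?_ g0; norm_num; done) | (refine le_trans ?_ g1; norm_num; done) | linarith) g0 (by norm_num)
    first | with_reducible exact a1 | linarith only [a1, a2] | linarith only [a1, a3] | linarith
  rcases le_total w (1 / 25) with g1 | g1
  · have a1 := K1b.r_e_one_0_1_1 (w := w) (by first | (refine le_trans ?_ h0; norm_num; done) | (refine le_trans ?_ g0; norm_num; done) | (refine le_trans ?_ g1; norm_num; done) | linarith)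
        (by first | (refine le_trans g0 ?_; norm_num; done) | (refine le_trans g1 ?_; norm_num; done) | (refine le_trans h1 ?_; norm_num; done) | linarith)
    first | with_reducible exact a1 | linarith only [a1, a2] | linarith only [a1, a3] | linarith
  have a1 := K1b.r_e_one_0_1_2 (w := w) (by first | (refine le_trans ?_ h0; norm_num; done) | (refine le_trans ?_ g0; norm_num; done) | (refine le_trans ?_ g1; norm_num; done) | linarith)
        (by first | (refine le_trans g0 ?_; norm_num; done) | (refine le_trans g1 ?_; norm_num; done) | (refine le_trans h1 ?_; norm_num; done) | linarith)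
  have a3 := K1b.anti_r (a := 99 / 100) (b := 19 / 20 + w) (by norm_num)
        (by first | linarith only [g1] | linarith only [h0] | linarith) (by linarith only [h1])
  first | with_reducible exact a1 | linarith only [a1, a2] | linarith only [a1, a3] | linarith

theorem K1b.R_e_one_1_0 {w : ℝ} (h0 : 0 / 1 ≤ w) (h1 : w ≤ 9 / 50) :
    -(21 / 100) < 1 * uu w 0 + (-163 / 5000) + (779 / 1000) * w - (uu (7 / 10 + w) 0 - uu (7 / 10) 0 - uu w 0) - (-9 / 40) := by
  rcases le_total w (1 / 100) with g0 | g0
  · have a1 := K1b.r_e_one_1_0_0 (w := w) (by first | (refine le_trans ?_ h0; norm_num; done) | (refine le_trans ?_ g0; norm_num; done) | (refine le_trans ?_ g1; norm_num; done) | linarith)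
        (by first | (refine le_trans g0 ?_; norm_num; done) | (refine le_trans g1 ?_; norm_num; done) | (refine le_trans h1 ?_; norm_num; done) | linarith)
    have a2 := K1b.anti_l (a := w) (b := 1 / 100) (by first | (refine le_trans ?_ h0; norm_num; done) | (refine le_trans ?_ g0; norm_num; done) | (refine le_trans ?_ g1; norm_num; done) | linarith) g0 (by norm_num)
    first | with_reducible exact a1 | linarith only [a1, a2] | linarith only [a1, a3] | linarith
  have a1 := K1b.r_e_one_1_0_1 (w := w) (by first | (refine le_trans ?_ h0; norm_num; done) | (refine le_trans ?_ g0; norm_num; done) | (refine le_trans ?_ g1; norm_num; done) | linarith)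
        (by first | (refine le_trans g0 ?_; norm_num; done) | (refine le_trans g1 ?_; norm_num; done) | (refine le_trans h1 ?_; norm_num; done) | linarith)
  first | with_reducible exact a1 | linarith only [a1, a2] | linarith only [a1, a3] | linarith

theorem K1b.R_e_one_1_1 {w : ℝ} (h0 : 0 / 1 ≤ w) (h1 : w ≤ 1 / 20) :
    -(21 / 100) < 1 * uu w 0 + (-163 / 5000) + (779 / 1000) * w - (uu (19 / 20 + w) 0 - uu (19 / 20) 0 - uu w 0) - (-1 / 10) := by
  rcases le_total w (1 / 100) with g0 | g0
  · have a1 := K1b.r_e_one_1_1_0 (w := w) (by first | (refine le_trans ?_ h0; norm_num; done) | (refine le_trans ?_ g0; norm_num; done) | (refine le_trans ?_ g1; norm_num; done) | linarith)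
        (by first | (refine le_trans g0 ?_; norm_num; done) | (refine le_trans g1 ?_; norm_num; done) | (refine le_trans h1 ?_; norm_num; done) | linarith)
    have a2 := K1b.anti_l (a := w) (b := 1 / 100) (by first | (refine le_trans ?_ h0; norm_num; done) | (refine le_trans ?_ g0; norm_num; done) | (refine le_trans ?_ g1; norm_num; done) | linarith) g0 (by norm_num)
    first | with_reducible exact a1 | linarith only [a1, a2] | linarith only [a1, a3] | linarith
  rcases le_total w (1 / 25) with g1 | g1
  · have a1 := K1b.r_e_one_1_1_1 (w := w) (by first | (refine le_trans ?_ h0; norm_num; done) | (refine le_trans ?_ g0; norm_num; done) | (refine le_trans ?_ g1; norm_num; done) | linarith)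
        (by first | (refine le_trans g0 ?_; norm_num; done) | (refine le_trans g1 ?_; norm_num; done) | (refine le_trans h1 ?_; norm_num; done) | linarith)
    first | with_reducible exact a1 | linarith only [a1, a2] | linarith only [a1, a3] | linarith
  have a1 := K1b.r_e_one_1_1_2 (w := w) (by first | (refine le_trans ?_ h0; norm_num; done) | (refine le_trans ?_ g0; norm_num; done) | (refine le_trans ?_ g1; norm_num; done) | linarith)
        (by first | (refine le_trans g0 ?_; norm_num; done) | (refine le_trans g1 ?_; norm_num; done) | (refine le_trans h1 ?_; norm_num; done) | linarith)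
  have a3 := K1b.anti_r (a := 99 / 100) (b := 19 / 20 + w) (by norm_num)
        (by first | linarith only [g1] | linarith only [h0] | linarith) (by linarith only [h1])
  first | with_reducible exact a1 | linarith only [a1, a2] | linarith only [a1, a3] | linarith

theorem K1b.R_e_one_2_0 {w : ℝ} (h0 : 9 / 50 ≤ w) (h1 : w ≤ 3 / 10) :
    -(11 / 50) < 1 * uu w 0 + (164 / 625) + (-921 / 1000) * w - (uu (7 / 10 + w) 0 - uu (7 / 10) 0 - uu w 0) - (-9 / 40) := by
  rcases le_total w (7 / 25) with g0 | g0
  · have a1 := K1b.r_e_one_2_0_0 (w := w) (by first | (refine le_trans ?_ h0; norm_num; done) | (refine le_trans ?_ g0; norm_num; done) | (refine le_trans ?_ g1; norm_num; done) | linarith)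
        (by first | (refine le_trans g0 ?_; norm_num; done) | (refine le_trans g1 ?_; norm_num; done) | (refine le_trans h1 ?_; norm_num; done) | linarith)
    first | with_reducible exact a1 | linarith only [a1, a2] | linarith only [a1, a3] | linarith
  have a1 := K1b.r_e_one_2_0_1 (w := w) (by first | (refine le_trans ?_ h0; norm_num; done) | (refine le_trans ?_ g0; norm_num; done) | (refine le_trans ?_ g1; norm_num; done) | linarith)
        (by first | (refine le_trans g0 ?_; norm_num; done) | (refine le_trans g1 ?_; norm_num; done) | (refine le_trans h1 ?_; norm_num; done) | linarith)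
  have a3 := K1b.anti_r (a := 49 / 50) (b := 7 / 10 + w) (by norm_num)
        (by first | linarith only [g1] | linarith only [h0] | linarith) (by linarith only [h1])
  first | with_reducible exact a1 | linarith only [a1, a2] | linarith only [a1, a3] | linarith

theorem K1b.R_e_one_3_0 {w : ℝ} (h0 : 9 / 50 ≤ w) (h1 : w ≤ 3 / 10) :
    -(23 / 100) < 1 * uu w 0 + (1451 / 5000) + (-1021 / 1000) * w - (uu (7 / 10 + w) 0 - uu (7 / 10) 0 - uu w 0) - (-9 / 40) := by
  rcases le_total w (7 / 25) with g0 | g0
  · have a1 := K1b.r_e_one_3_0_0 (w := w) (by first | (refine le_trans ?_ h0; norm_num; done) | (refine le_trans ?_ g0; norm_num; done) | (refine le_trans ?_ g1; norm_num; done) | linarith)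
        (by first | (refine le_trans g0 ?_; norm_num; done) | (refine le_trans g1 ?_; norm_num; done) | (refine le_trans h1 ?_; norm_num; done) | linarith)
    first | with_reducible exact a1 | linarith only [a1, a2] | linarith only [a1, a3] | linarith
  have a1 := K1b.r_e_one_3_0_1 (w := w) (by first | (refine le_trans ?_ h0; norm_num; done) | (refine le_trans ?_ g0; norm_num; done) | (refine le_trans ?_ g1; norm_num; done) | linarith)
        (by first | (refine le_trans g0 ?_; norm_num; done) | (refine le_trans g1 ?_; norm_num; done) | (refine le_trans h1 ?_; norm_num; done) | linarith)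
  have a3 := K1b.anti_r (a := 49 / 50) (b := 7 / 10 + w) (by norm_num)
        (by first | linarith only [g1] | linarith only [h0] | linarith) (by linarith only [h1])
  first | with_reducible exact a1 | linarith only [a1, a2] | linarith only [a1, a3] | linarith

theorem K1b.R_e_two_0_0 {w : ℝ} (h0 : 0 / 1 ≤ w) (h1 : w ≤ 3 / 10) :
    -(21 / 100) < 1 * uu w 0 + (53 / 625) + (-37 / 250) * w - (uu (7 / 10 + w) 0 - uu (7 / 10) 0 - uu w 0) - (-9 / 40) := by
  rcases le_total w (1 / 100) with g0 | g0
  · have a1 := K1b.r_e_two_0_0_0 (w := w) (by first | (refine le_trans ?_ h0; norm_num; done) | (refine le_trans ?_ g0; norm_num; done) | (refine le_trans ?_ g1; norm_num; done) | linarith)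
        (by first | (refine le_trans g0 ?_; norm_num; done) | (refine le_trans g1 ?_; norm_num; done) | (refine le_trans h1 ?_; norm_num; done) | linarith)
    have a2 := K1b.anti_l (a := w) (b := 1 / 100) (by first | (refine le_trans ?_ h0; norm_num; done) | (refine le_trans ?_ g0; norm_num; done) | (refine le_trans ?_ g1; norm_num; done) | linarith) g0 (by norm_num)
    first | with_reducible exact a1 | linarith only [a1, a2] | linarith only [a1, a3] | linarith
  rcases le_total w (7 / 25) with g1 | g1
  · have a1 := K1b.r_e_two_0_0_1 (w := w) (by first | (refine le_trans ?_ h0; norm_num; done) | (refine le_trans ?_ g0; norm_num; done) | (refine le_trans ?_ g1; norm_num; done) | linarith)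
        (by first | (refine le_trans g0 ?_; norm_num; done) | (refine le_trans g1 ?_; norm_num; done) | (refine le_trans h1 ?_; norm_num; done) | linarith)
    first | with_reducible exact a1 | linarith only [a1, a2] | linarith only [a1, a3] | linarith
  have a1 := K1b.r_e_two_0_0_2 (w := w) (by first | (refine le_trans ?_ h0; norm_num; done) | (refine le_trans ?_ g0; norm_num; done) | (refine le_trans ?_ g1; norm_num; done) | linarith)
        (by first | (refine le_trans g0 ?_; norm_num; done) | (refine le_trans g1 ?_; norm_num; done) | (refine le_trans h1 ?_; norm_num; done) | linarith)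
  have a3 := K1b.anti_r (a := 49 / 50) (b := 7 / 10 + w) (by norm_num)
        (by first | linarith only [g1] | linarith only [h0] | linarith) (by linarith only [h1])
  first | with_reducible exact a1 | linarith only [a1, a2] | linarith only [a1, a3] | linarith

theorem K1b.R_e_two_0_1 {w : ℝ} (h0 : 0 / 1 ≤ w) (h1 : w ≤ 1 / 20) :
    -(21 / 100) < 1 * uu w 0 + (53 / 625) + (-37 / 250) * w - (uu (19 / 20 + w) 0 - uu (19 / 20) 0 - uu w 0) - (-1 / 10) := by
  rcases le_total w (1 / 100) with g0 | g0
  · have a1 := K1b.r_e_two_0_1_0 (w := w) (by first | (refine le_trans ?_ h0; norm_num; done) | (refine le_trans ?_ g0; norm_num; done) | (refine le_trans ?_ g1; norm_num; done) | linarith)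
        (by first | (refine le_trans g0 ?_; norm_num; done) | (refine le_trans g1 ?_; norm_num; done) | (refine le_trans h1 ?_; norm_num; done) | linarith)
    have a2 := K1b.anti_l (a := w) (b := 1 / 100) (by first | (refine le_trans ?_ h0; norm_num; done) | (refine le_trans ?_ g0; norm_num; done) | (refine le_trans ?_ g1; norm_num; done) | linarith) g0 (by norm_num)
    first | with_reducible exact a1 | linarith only [a1, a2] | linarith only [a1, a3] | linarith
  rcases le_total w (1 / 25) with g1 | g1
  · have a1 := K1b.r_e_two_0_1_1 (w := w) (by first | (refine le_trans ?_ h0; norm_num; done) | (refine le_trans ?_ g0; norm_num; done) | (refine le_trans ?_ g1; norm_num; done) | linarith)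
        (by first | (refine le_trans g0 ?_; norm_num; done) | (refine le_trans g1 ?_; norm_num; done) | (refine le_trans h1 ?_; norm_num; done) | linarith)
    first | with_reducible exact a1 | linarith only [a1, a2] | linarith only [a1, a3] | linarith
  have a1 := K1b.r_e_two_0_1_2 (w := w) (by first | (refine le_trans ?_ h0; norm_num; done) | (refine le_trans ?_ g0; norm_num; done) | (refine le_trans ?_ g1; norm_num; done) | linarith)
        (by first | (refine le_trans g0 ?_; norm_num; done) | (refine le_trans g1 ?_; norm_num; done) | (refine le_trans h1 ?_; norm_num; done) | linarith)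
  have a3 := K1b.anti_r (a := 99 / 100) (b := 19 / 20 + w) (by norm_num)
        (by first | linarith only [g1] | linarith only [h0] | linarith) (by linarith only [h1])
  first | with_reducible exact a1 | linarith only [a1, a2] | linarith only [a1, a3] | linarith

theorem K1b.R_e_twoE_0_0 {w : ℝ} (h0 : 0 / 1 ≤ w) (h1 : w ≤ 3 / 10) :
    -(1 / 4) < 1 * uu w 0 + (309 / 2000) + (0 / 1) * w - (uu (7 / 10 + w) 0 - uu (7 / 10) 0 - uu w 0) - (-9 / 40) := by
  rcases le_total w (1 / 100) with g0 | g0
  · have a1 := K1b.r_e_twoE_0_0_0 (w := w) (by first | (refine le_trans ?_ h0; norm_num; done) | (refine le_trans ?_ g0; norm_num; done) | (refine le_trans ?_ g1; norm_num; done) | linarith)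
        (by first | (refine le_trans g0 ?_; norm_num; done) | (refine le_trans g1 ?_; norm_num; done) | (refine le_trans h1 ?_; norm_num; done) | linarith)
    have a2 := K1b.anti_l (a := w) (b := 1 / 100) (by first | (refine le_trans ?_ h0; norm_num; done) | (refine le_trans ?_ g0; norm_num; done) | (refine le_trans ?_ g1; norm_num; done) | linarith) g0 (by norm_num)
    first | with_reducible exact a1 | linarith only [a1, a2] | linarith only [a1, a3] | linarith
  rcases le_total w (7 / 25) with g1 | g1
  · have a1 := K1b.r_e_twoE_0_0_1 (w := w) (by first | (refine le_trans ?_ h0; norm_num; done) | (refine le_trans ?_ g0; norm_num; done) | (refine le_trans ?_ g1; norm_num; done) | linarith)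
        (by first | (refine le_trans g0 ?_; norm_num; done) | (refine le_trans g1 ?_; norm_num; done) | (refine le_trans h1 ?_; norm_num; done) | linarith)
    first | with_reducible exact a1 | linarith only [a1, a2] | linarith only [a1, a3] | linarith
  have a1 := K1b.r_e_twoE_0_0_2 (w := w) (by first | (refine le_trans ?_ h0; norm_num; done) | (refine le_trans ?_ g0; norm_num; done) | (refine le_trans ?_ g1; norm_num; done) | linarith)
        (by first | (refine le_trans g0 ?_; norm_num; done) | (refine le_trans g1 ?_; norm_num; done) | (refine le_trans h1 ?_; norm_num; done) | linarith)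
  have a3 := K1b.anti_r (a := 49 / 50) (b := 7 / 10 + w) (by norm_num)
        (by first | linarith only [g1] | linarith only [h0] | linarith) (by linarith only [h1])
  first | with_reducible exact a1 | linarith only [a1, a2] | linarith only [a1, a3] | linarith

theorem K1b.R_e_twoE_0_1 {w : ℝ} (h0 : 0 / 1 ≤ w) (h1 : w ≤ 1 / 20) :
    -(1 / 4) < 1 * uu w 0 + (309 / 2000) + (0 / 1) * w - (uu (19 / 20 + w) 0 - uu (19 / 20) 0 - uu w 0) - (-1 / 10) := by
  rcases le_total w (1 / 100) with g0 | g0
  · have a1 := K1b.r_e_twoE_0_1_0 (w := w) (by first | (refine le_trans ?_ h0; norm_num; done) | (refine le_trans ?_ g0; norm_num; done) | (refine le_trans ?_ g1; norm_num; done) | linarith)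
        (by first | (refine le_trans g0 ?_; norm_num; done) | (refine le_trans g1 ?_; norm_num; done) | (refine le_trans h1 ?_; norm_num; done) | linarith)
    have a2 := K1b.anti_l (a := w) (b := 1 / 100) (by first | (refine le_trans ?_ h0; norm_num; done) | (refine le_trans ?_ g0; norm_num; done) | (refine le_trans ?_ g1; norm_num; done) | linarith) g0 (by norm_num)
    first | with_reducible exact a1 | linarith only [a1, a2] | linarith only [a1, a3] | linarith
  rcases le_total w (1 / 25) with g1 | g1
  · have a1 := K1b.r_e_twoE_0_1_1 (w := w) (by first | (refine le_trans ?_ h0; norm_num; done) | (refine le_trans ?_ g0; norm_num; done) | (refine le_trans ?_ g1; norm_num; done) | linarith)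
        (by first | (refine le_trans g0 ?_; norm_num; done) | (refine le_trans g1 ?_; norm_num; done) | (refine le_trans h1 ?_; norm_num; done) | linarith)
    first | with_reducible exact a1 | linarith only [a1, a2] | linarith only [a1, a3] | linarith
  have a1 := K1b.r_e_twoE_0_1_2 (w := w) (by first | (refine le_trans ?_ h0; norm_num; done) | (refine le_trans ?_ g0; norm_num; done) | (refine le_trans ?_ g1; norm_num; done) | linarith)
        (by first | (refine le_trans g0 ?_; norm_num; done) | (refine le_trans g1 ?_; norm_num; done) | (refine le_trans h1 ?_; norm_num; done) | linarith)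
  have a3 := K1b.anti_r (a := 99 / 100) (b := 19 / 20 + w) (by norm_num)
        (by first | linarith only [g1] | linarith only [h0] | linarith) (by linarith only [h1])
  first | with_reducible exact a1 | linarith only [a1, a2] | linarith only [a1, a3] | linarith

theorem K1b.R_e_threeA_0_0 {w : ℝ} (h0 : 0 / 1 ≤ w) (h1 : w ≤ 4 / 25) :
    -(51 / 500) < 1 * uu w 0 + (62 / 625) + (-227 / 1000) * w - (uu (7 / 10 + w) 0 - uu (7 / 10) 0 - uu w 0) - (-9 / 40) := by
  rcases le_total w (1 / 100) with g0 | g0
  · have a1 := K1b.r_e_threeA_0_0_0 (w := w) (by first | (refine le_trans ?_ h0; norm_num; done) | (refine le_trans ?_ g0; norm_num; done) | (refine le_trans ?_ g1; norm_num; done) | linarith)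
        (by first | (refine le_trans g0 ?_; norm_num; done) | (refine le_trans g1 ?_; norm_num; done) | (refine le_trans h1 ?_; norm_num; done) | linarith)
    have a2 := K1b.anti_l (a := w) (b := 1 / 100) (by first | (refine le_trans ?_ h0; norm_num; done) | (refine le_trans ?_ g0; norm_num; done) | (refine le_trans ?_ g1; norm_num; done) | linarith) g0 (by norm_num)
    first | with_reducible exact a1 | linarith only [a1, a2] | linarith only [a1, a3] | linarith
  have a1 := K1b.r_e_threeA_0_0_1 (w := w) (by first | (refine le_trans ?_ h0; norm_num; done) | (refine le_trans ?_ g0; norm_num; done) | (refine le_trans ?_ g1; norm_num; done) | linarith)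
        (by first | (refine le_trans g0 ?_; norm_num; done) | (refine le_trans g1 ?_; norm_num; done) | (refine le_trans h1 ?_; norm_num; done) | linarith)
  first | with_reducible exact a1 | linarith only [a1, a2] | linarith only [a1, a3] | linarith

theorem K1b.R_e_threeA_0_1 {w : ℝ} (h0 : 0 / 1 ≤ w) (h1 : w ≤ 1 / 20) :
    -(51 / 500) < 1 * uu w 0 + (62 / 625) + (-227 / 1000) * w - (uu (19 / 20 + w) 0 - uu (19 / 20) 0 - uu w 0) - (-1 / 10) := by
  rcases le_total w (1 / 100) with g0 | g0
  · have a1 := K1b.r_e_threeA_0_1_0 (w := w) (by first | (refine le_trans ?_ h0; norm_num; done) | (refine le_trans ?_ g0; norm_num; done) | (refine le_trans ?_ g1; norm_num; done) | linarith)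
        (by first | (refine le_trans g0 ?_; norm_num; done) | (refine le_trans g1 ?_; norm_num; done) | (refine le_trans h1 ?_; norm_num; done) | linarith)
    have a2 := K1b.anti_l (a := w) (b := 1 / 100) (by first | (refine le_trans ?_ h0; norm_num; done) | (refine le_trans ?_ g0; norm_num; done) | (refine le_trans ?_ g1; norm_num; done) | linarith) g0 (by norm_num)
    first | with_reducible exact a1 | linarith only [a1, a2] | linarith only [a1, a3] | linarith
  rcases le_total w (1 / 25) with g1 | g1
  · have a1 := K1b.r_e_threeA_0_1_1 (w := w) (by first | (refine le_trans ?_ h0; norm_num; done) | (refine le_trans ?_ g0; norm_num; done) | (refine le_trans ?_ g1; norm_num; done) | linarith)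
        (by first | (refine le_trans g0 ?_; norm_num; done) | (refine le_trans g1 ?_; norm_num; done) | (refine le_trans h1 ?_; norm_num; done) | linarith)
    first | with_reducible exact a1 | linarith only [a1, a2] | linarith only [a1, a3] | linarith
  have a1 := K1b.r_e_threeA_0_1_2 (w := w) (by first | (refine le_trans ?_ h0; norm_num; done) | (refine le_trans ?_ g0; norm_num; done) | (refine le_trans ?_ g1; norm_num; done) | linarith)
        (by first | (refine le_trans g0 ?_; norm_num; done) | (refine le_trans g1 ?_; norm_num; done) | (refine le_trans h1 ?_; norm_num; done) | linarith)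
  have a3 := K1b.anti_r (a := 99 / 100) (b := 19 / 20 + w) (by norm_num)
        (by first | linarith only [g1] | linarith only [h0] | linarith) (by linarith only [h1])
  first | with_reducible exact a1 | linarith only [a1, a2] | linarith only [a1, a3] | linarith

theorem K1b.R_e_threeA_1_0 {w : ℝ} (h0 : 4 / 25 ≤ w) (h1 : w ≤ 3 / 10) :
    -(91 / 1000) < 1 * uu w 0 + (1289 / 5000) + (-553 / 500) * w - (uu (7 / 10 + w) 0 - uu (7 / 10) 0 - uu w 0) - (-9 / 40) := by
  rcases le_total w (7 / 25) with g0 | g0
  · have a1 := K1b.r_e_threeA_1_0_0 (w := w) (by first | (refine le_trans ?_ h0; norm_num; done) | (refine le_trans ?_ g0; norm_num; done) | (refine le_trans ?_ g1; norm_num; done) | linarith)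
        (by first | (refine le_trans g0 ?_; norm_num; done) | (refine le_trans g1 ?_; norm_num; done) | (refine le_trans h1 ?_; norm_num; done) | linarith)
    first | with_reducible exact a1 | linarith only [a1, a2] | linarith only [a1, a3] | linarith
  have a1 := K1b.r_e_threeA_1_0_1 (w := w) (by first | (refine le_trans ?_ h0; norm_num; done) | (refine le_trans ?_ g0; norm_num; done) | (refine le_trans ?_ g1; norm_num; done) | linarith)
        (by first | (refine le_trans g0 ?_; norm_num; done) | (refine le_trans g1 ?_; norm_num; done) | (refine le_trans h1 ?_; norm_num; done) | linarith)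
  have a3 := K1b.anti_r (a := 49 / 50) (b := 7 / 10 + w) (by norm_num)
        (by first | linarith only [g1] | linarith only [h0] | linarith) (by linarith only [h1])
  first | with_reducible exact a1 | linarith only [a1, a2] | linarith only [a1, a3] | linarith

theorem K1b.R_e_threeK_0_0 {w : ℝ} (h0 : 0 / 1 ≤ w) (h1 : w ≤ 3 / 10) :
    -(17 / 100) < 1 * uu w 0 + (7 / 625) + (97 / 1000) * w - (uu (7 / 10 + w) 0 - uu (7 / 10) 0 - uu w 0) - (-9 / 40) := by
  rcases le_total w (1 / 100) with g0 | g0
  · have a1 := K1b.r_e_threeK_0_0_0 (w := w) (by first | (refine le_trans ?_ h0; norm_num; done) | (refine le_trans ?_ g0; norm_num; done) | (refine le_trans ?_ g1; norm_num; done) | linarith)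
        (by first | (refine le_trans g0 ?_; norm_num; done) | (refine le_trans g1 ?_; norm_num; done) | (refine le_trans h1 ?_; norm_num; done) | linarith)
    have a2 := K1b.anti_l (a := w) (b := 1 / 100) (by first | (refine le_trans ?_ h0; norm_num; done) | (refine le_trans ?_ g0; norm_num; done) | (refine le_trans ?_ g1; norm_num; done) | linarith) g0 (by norm_num)
    first | with_reducible exact a1 | linarith only [a1, a2] | linarith only [a1, a3] | linarith
  rcases le_total w (7 / 25) with g1 | g1
  · have a1 := K1b.r_e_threeK_0_0_1 (w := w) (by first | (refine le_trans ?_ h0; norm_num; done) | (refine le_trans ?_ g0; norm_num; done) | (refine le_trans ?_ g1; norm_num; done) | linarith)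
        (by first | (refine le_trans g0 ?_; norm_num; done) | (refine le_trans g1 ?_; norm_num; done) | (refine le_trans h1 ?_; norm_num; done) | linarith)
    first | with_reducible exact a1 | linarith only [a1, a2] | linarith only [a1, a3] | linarith
  have a1 := K1b.r_e_threeK_0_0_2 (w := w) (by first | (refine le_trans ?_ h0; norm_num; done) | (refine le_trans ?_ g0; norm_num; done) | (refine le_trans ?_ g1; norm_num; done) | linarith)
        (by first | (refine le_trans g0 ?_; norm_num; done) | (refine le_trans g1 ?_; norm_num; done) | (refine le_trans h1 ?_; norm_num; done) | linarith)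
  have a3 := K1b.anti_r (a := 49 / 50) (b := 7 / 10 + w) (by norm_num)
        (by first | linarith only [g1] | linarith only [h0] | linarith) (by linarith only [h1])
  first | with_reducible exact a1 | linarith only [a1, a2] | linarith only [a1, a3] | linarith

theorem K1b.R_e_threeK_0_1 {w : ℝ} (h0 : 0 / 1 ≤ w) (h1 : w ≤ 1 / 20) :
    -(17 / 100) < 1 * uu w 0 + (7 / 625) + (97 / 1000) * w - (uu (19 / 20 + w) 0 - uu (19 / 20) 0 - uu w 0) - (-1 / 10) := by
  rcases le_total w (1 / 100) with g0 | g0
  · have a1 := K1b.r_e_threeK_0_1_0 (w := w) (by first | (refine le_trans ?_ h0; norm_num; done) | (refine le_trans ?_ g0; norm_num; done) | (refine le_trans ?_ g1; norm_num; done) | linarith)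
        (by first | (refine le_trans g0 ?_; norm_num; done) | (refine le_trans g1 ?_; norm_num; done) | (refine le_trans h1 ?_; norm_num; done) | linarith)
    have a2 := K1b.anti_l (a := w) (b := 1 / 100) (by first | (refine le_trans ?_ h0; norm_num; done) | (refine le_trans ?_ g0; norm_num; done) | (refine le_trans ?_ g1; norm_num; done) | linarith) g0 (by norm_num)
    first | with_reducible exact a1 | linarith only [a1, a2] | linarith only [a1, a3] | linarith
  rcases le_total w (1 / 25) with g1 | g1
  · have a1 := K1b.r_e_threeK_0_1_1 (w := w) (by first | (refine le_trans ?_ h0; norm_num; done) | (refine le_trans ?_ g0; norm_num; done) | (refine le_trans ?_ g1; norm_num; done) | linarith)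
        (by first | (refine le_trans g0 ?_; norm_num; done) | (refine le_trans g1 ?_; norm_num; done) | (refine le_trans h1 ?_; norm_num; done) | linarith)
    first | with_reducible exact a1 | linarith only [a1, a2] | linarith only [a1, a3] | linarith
  have a1 := K1b.r_e_threeK_0_1_2 (w := w) (by first | (refine le_trans ?_ h0; norm_num; done) | (refine le_trans ?_ g0; norm_num; done) | (refine le_trans ?_ g1; norm_num; done) | linarith)
        (by first | (refine le_trans g0 ?_; norm_num; done) | (refine le_trans g1 ?_; norm_num; done) | (refine le_trans h1 ?_; norm_num; done) | linarith)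
  have a3 := K1b.anti_r (a := 99 / 100) (b := 19 / 20 + w) (by norm_num)
        (by first | linarith only [g1] | linarith only [h0] | linarith) (by linarith only [h1])
  first | with_reducible exact a1 | linarith only [a1, a2] | linarith only [a1, a3] | linarith

theorem K1b.R_e_threeE_0_0 {w : ℝ} (h0 : 0 / 1 ≤ w) (h1 : w ≤ 3 / 10) :
    -(19 / 100) < 1 * uu w 0 + (269 / 2000) + (0 / 1) * w - (uu (7 / 10 + w) 0 - uu (7 / 10) 0 - uu w 0) - (-9 / 40) := by
  rcases le_total w (1 / 100) with g0 | g0
  · have a1 := K1b.r_e_threeE_0_0_0 (w := w) (by first | (refine le_trans ?_ h0; norm_num; done) | (refine le_trans ?_ g0; norm_num; done) | (refine le_trans ?_ g1; norm_num; done) | linarith)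
        (by first | (refine le_trans g0 ?_; norm_num; done) | (refine le_trans g1 ?_; norm_num; done) | (refine le_trans h1 ?_; norm_num; done) | linarith)
    have a2 := K1b.anti_l (a := w) (b := 1 / 100) (by first | (refine le_trans ?_ h0; norm_num; done) | (refine le_trans ?_ g0; norm_num; done) | (refine le_trans ?_ g1; norm_num; done) | linarith) g0 (by norm_num)
    first | with_reducible exact a1 | linarith only [a1, a2] | linarith only [a1, a3] | linarith
  rcases le_total w (7 / 25) with g1 | g1
  · have a1 := K1b.r_e_threeE_0_0_1 (w := w) (by first | (refine le_trans ?_ h0; norm_num; done) | (refine le_trans ?_ g0; norm_num; done) | (refine le_trans ?_ g1; norm_num; done) | linarith)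
        (by first | (refine le_trans g0 ?_; norm_num; done) | (refine le_trans g1 ?_; norm_num; done) | (refine le_trans h1 ?_; norm_num; done) | linarith)
    first | with_reducible exact a1 | linarith only [a1, a2] | linarith only [a1, a3] | linarith
  have a1 := K1b.r_e_threeE_0_0_2 (w := w) (by first | (refine le_trans ?_ h0; norm_num; done) | (refine le_trans ?_ g0; norm_num; done) | (refine le_trans ?_ g1; norm_num; done) | linarith)
        (by first | (refine le_trans g0 ?_; norm_num; done) | (refine le_trans g1 ?_; norm_num; done) | (refine le_trans h1 ?_; norm_num; done) | linarith)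
  have a3 := K1b.anti_r (a := 49 / 50) (b := 7 / 10 + w) (by norm_num)
        (by first | linarith only [g1] | linarith only [h0] | linarith) (by linarith only [h1])
  first | with_reducible exact a1 | linarith only [a1, a2] | linarith only [a1, a3] | linarith

theorem K1b.R_e_threeE_0_1 {w : ℝ} (h0 : 0 / 1 ≤ w) (h1 : w ≤ 1 / 20) :
    -(19 / 100) < 1 * uu w 0 + (269 / 2000) + (0 / 1) * w - (uu (19 / 20 + w) 0 - uu (19 / 20) 0 - uu w 0) - (-1 / 10) := by
  rcases le_total w (1 / 100) with g0 | g0
  · have a1 := K1b.r_e_threeE_0_1_0 (w := w) (by first | (refine le_trans ?_ h0; norm_num; done) | (refine le_trans ?_ g0; norm_num; done) | (refine le_trans ?_ g1; norm_num; done) | linarith)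
        (by first | (refine le_trans g0 ?_; norm_num; done) | (refine le_trans g1 ?_; norm_num; done) | (refine le_trans h1 ?_; norm_num; done) | linarith)
    have a2 := K1b.anti_l (a := w) (b := 1 / 100) (by first | (refine le_trans ?_ h0; norm_num; done) | (refine le_trans ?_ g0; norm_num; done) | (refine le_trans ?_ g1; norm_num; done) | linarith) g0 (by norm_num)
    first | with_reducible exact a1 | linarith only [a1, a2] | linarith only [a1, a3] | linarith
  rcases le_total w (1 / 25) with g1 | g1
  · have a1 := K1b.r_e_threeE_0_1_1 (w := w) (by first | (refine le_trans ?_ h0; norm_num; done) | (refine le_trans ?_ g0; norm_num; done) | (refine le_trans ?_ g1; norm_num; done) | linarith)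
        (by first | (refine le_trans g0 ?_; norm_num; done) | (refine le_trans g1 ?_; norm_num; done) | (refine le_trans h1 ?_; norm_num; done) | linarith)
    first | with_reducible exact a1 | linarith only [a1, a2] | linarith only [a1, a3] | linarith
  have a1 := K1b.r_e_threeE_0_1_2 (w := w) (by first | (refine le_trans ?_ h0; norm_num; done) | (refine le_trans ?_ g0; norm_num; done) | (refine le_trans ?_ g1; norm_num; done) | linarith)
        (by first | (refine le_trans g0 ?_; norm_num; done) | (refine le_trans g1 ?_; norm_num; done) | (refine le_trans h1 ?_; norm_num; done) | linarith)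
  have a3 := K1b.anti_r (a := 99 / 100) (b := 19 / 20 + w) (by norm_num)
        (by first | linarith only [g1] | linarith only [h0] | linarith) (by linarith only [h1])
  first | with_reducible exact a1 | linarith only [a1, a2] | linarith only [a1, a3] | linarith

theorem K1b.R_e_ring_0_0 {w : ℝ} (h0 : 0 / 1 ≤ w) (h1 : w ≤ 7 / 50) :
    -(1 / 5) < 1 * uu w 0 + (-67 / 1250) + (543 / 1000) * w - (uu (7 / 10 + w) 0 - uu (7 / 10) 0 - uu w 0) - (-9 / 40) := by
  rcases le_total w (1 / 100) with g0 | g0
  · have a1 := K1b.r_e_ring_0_0_0 (w := w) (by first | (refine le_trans ?_ h0; norm_num; done) | (refine le_trans ?_ g0; norm_num; done) | (refine le_trans ?_ g1; norm_num; done) | linarith)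
        (by first | (refine le_trans g0 ?_; norm_num; done) | (refine le_trans g1 ?_; norm_num; done) | (refine le_trans h1 ?_; norm_num; done) | linarith)
    have a2 := K1b.anti_l (a := w) (b := 1 / 100) (by first | (refine le_trans ?_ h0; norm_num; done) | (refine le_trans ?_ g0; norm_num; done) | (refine le_trans ?_ g1; norm_num; done) | linarith) g0 (by norm_num)
    first | with_reducible exact a1 | linarith only [a1, a2] | linarith only [a1, a3] | linarith
  have a1 := K1b.r_e_ring_0_0_1 (w := w) (by first | (refine le_trans ?_ h0; norm_num; done) | (refine le_trans ?_ g0; norm_num; done) | (refine le_trans ?_ g1; norm_num; done) | linarith)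
        (by first | (refine le_trans g0 ?_; norm_num; done) | (refine le_trans g1 ?_; norm_num; done) | (refine le_trans h1 ?_; norm_num; done) | linarith)
  first | with_reducible exact a1 | linarith only [a1, a2] | linarith only [a1, a3] | linarith

theorem K1b.R_e_ring_0_1 {w : ℝ} (h0 : 0 / 1 ≤ w) (h1 : w ≤ 1 / 20) :
    -(1 / 5) < 1 * uu w 0 + (-67 / 1250) + (543 / 1000) * w - (uu (19 / 20 + w) 0 - uu (19 / 20) 0 - uu w 0) - (-1 / 10) := by
  rcases le_total w (1 / 100) with g0 | g0
  · have a1 := K1b.r_e_ring_0_1_0 (w := w) (by first | (refine le_trans ?_ h0; norm_num; done) | (refine le_trans ?_ g0; norm_num; done) | (refine le_trans ?_ g1; norm_num; done) | linarith)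
        (by first | (refine le_trans g0 ?_; norm_num; done) | (refine le_trans g1 ?_; norm_num; done) | (refine le_trans h1 ?_; norm_num; done) | linarith)
    have a2 := K1b.anti_l (a := w) (b := 1 / 100) (by first | (refine le_trans ?_ h0; norm_num; done) | (refine le_trans ?_ g0; norm_num; done) | (refine le_trans ?_ g1; norm_num; done) | linarith) g0 (by norm_num)
    first | with_reducible exact a1 | linarith only [a1, a2] | linarith only [a1, a3] | linarith
  rcases le_total w (1 / 25) with g1 | g1
  · have a1 := K1b.r_e_ring_0_1_1 (w := w) (by first | (refine le_trans ?_ h0; norm_num; done) | (refine le_trans ?_ g0; norm_num; done) | (refine le_trans ?_ g1; norm_num; done) | linarith)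
        (by first | (refine le_trans g0 ?_; norm_num; done) | (refine le_trans g1 ?_; norm_num; done) | (refine le_trans h1 ?_; norm_num; done) | linarith)
    first | with_reducible exact a1 | linarith only [a1, a2] | linarith only [a1, a3] | linarith
  have a1 := K1b.r_e_ring_0_1_2 (w := w) (by first | (refine le_trans ?_ h0; norm_num; done) | (refine le_trans ?_ g0; norm_num; done) | (refine le_trans ?_ g1; norm_num; done) | linarith)
        (by first | (refine le_trans g0 ?_; norm_num; done) | (refine le_trans g1 ?_; norm_num; done) | (refine le_trans h1 ?_; norm_num; done) | linarith)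
  have a3 := K1b.anti_r (a := 99 / 100) (b := 19 / 20 + w) (by norm_num)
        (by first | linarith only [g1] | linarith only [h0] | linarith) (by linarith only [h1])
  first | with_reducible exact a1 | linarith only [a1, a2] | linarith only [a1, a3] | linarith

theorem K1b.R_e_ring_1_0 {w : ℝ} (h0 : 7 / 50 ≤ w) (h1 : w ≤ 3 / 10) :
    -(41 / 250) < 1 * uu w 0 + (1291 / 10000) + (-18 / 25) * w - (uu (7 / 10 + w) 0 - uu (7 / 10) 0 - uu w 0) - (-9 / 40) := by
  rcases le_total w (7 / 25) with g0 | g0
  · have a1 := K1b.r_e_ring_1_0_0 (w := w) (by first | (refine le_trans ?_ h0; norm_num; done) | (refine le_trans ?_ g0; norm_num; done) | (refine le_trans ?_ g1; norm_num; done) | linarith)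
        (by first | (refine le_trans g0 ?_; norm_num; done) | (refine le_trans g1 ?_; norm_num; done) | (refine le_trans h1 ?_; norm_num; done) | linarith)
    first | with_reducible exact a1 | linarith only [a1, a2] | linarith only [a1, a3] | linarith
  have a1 := K1b.r_e_ring_1_0_1 (w := w) (by first | (refine le_trans ?_ h0; norm_num; done) | (refine le_trans ?_ g0; norm_num; done) | (refine le_trans ?_ g1; norm_num; done) | linarith)
        (by first | (refine le_trans g0 ?_; norm_num; done) | (refine le_trans g1 ?_; norm_num; done) | (refine le_trans h1 ?_; norm_num; done) | linarith)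
  have a3 := K1b.anti_r (a := 49 / 50) (b := 7 / 10 + w) (by norm_num)
        (by first | linarith only [g1] | linarith only [h0] | linarith) (by linarith only [h1])
  first | with_reducible exact a1 | linarith only [a1, a2] | linarith only [a1, a3] | linarith

theorem K1b.R_e_touched_0_0 {w : ℝ} (h0 : 0 / 1 ≤ w) (h1 : w ≤ 3 / 10) :
    -(6 / 25) < 0 * uu w 0 + (0 / 1) + (0 / 1) * w - (uu (7 / 10 + w) 0 - uu (7 / 10) 0 - uu w 0) - (-9 / 40) := by
  rcases le_total w (1 / 100) with g0 | g0
  · have a1 := K1b.r_e_touched_0_0_0 (w := w) (by first | (refine le_trans ?_ h0; norm_num; done) | (refine le_trans ?_ g0; norm_num; done) | (refine le_trans ?_ g1; norm_num; done) | linarith)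
        (by first | (refine le_trans g0 ?_; norm_num; done) | (refine le_trans g1 ?_; norm_num; done) | (refine le_trans h1 ?_; norm_num; done) | linarith)
    have a2 := K1b.anti_l (a := w) (b := 1 / 100) (by first | (refine le_trans ?_ h0; norm_num; done) | (refine le_trans ?_ g0; norm_num; done) | (refine le_trans ?_ g1; norm_num; done) | linarith) g0 (by norm_num)
    first | with_reducible exact a1 | linarith only [a1, a2] | linarith only [a1, a3] | linarith
  rcases le_total w (7 / 25) with g1 | g1
  · have a1 := K1b.r_e_touched_0_0_1 (w := w) (by first | (refine le_trans ?_ h0; norm_num; done) | (refine le_trans ?_ g0; norm_num; done) | (refine le_trans ?_ g1; norm_num; done) | linarith)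
        (by first | (refine le_trans g0 ?_; norm_num; done) | (refine le_trans g1 ?_; norm_num; done) | (refine le_trans h1 ?_; norm_num; done) | linarith)
    first | with_reducible exact a1 | linarith only [a1, a2] | linarith only [a1, a3] | linarith
  have a1 := K1b.r_e_touched_0_0_2 (w := w) (by first | (refine le_trans ?_ h0; norm_num; done) | (refine le_trans ?_ g0; norm_num; done) | (refine le_trans ?_ g1; norm_num; done) | linarith)
        (by first | (refine le_trans g0 ?_; norm_num; done) | (refine le_trans g1 ?_; norm_num; done) | (refine le_trans h1 ?_; norm_num; done) | linarith)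
  have a3 := K1b.anti_r (a := 49 / 50) (b := 7 / 10 + w) (by norm_num)
        (by first | linarith only [g1] | linarith only [h0] | linarith) (by linarith only [h1])
  first | with_reducible exact a1 | linarith only [a1, a2] | linarith only [a1, a3] | linarith

theorem K1b.R_e_touched_0_1 {w : ℝ} (h0 : 0 / 1 ≤ w) (h1 : w ≤ 1 / 20) :
    -(6 / 25) < 0 * uu w 0 + (0 / 1) + (0 / 1) * w - (uu (19 / 20 + w) 0 - uu (19 / 20) 0 - uu w 0) - (-1 / 10) := by
  rcases le_total w (1 / 100) with g0 | g0
  · have a1 := K1b.r_e_touched_0_1_0 (w := w) (by first | (refine le_trans ?_ h0; norm_num; done) | (refine le_trans ?_ g0; norm_num; done) | (refine le_trans ?_ g1; norm_num; done) | linarith)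
        (by first | (refine le_trans g0 ?_; norm_num; done) | (refine le_trans g1 ?_; norm_num; done) | (refine le_trans h1 ?_; norm_num; done) | linarith)
    have a2 := K1b.anti_l (a := w) (b := 1 / 100) (by first | (refine le_trans ?_ h0; norm_num; done) | (refine le_trans ?_ g0; norm_num; done) | (refine le_trans ?_ g1; norm_num; done) | linarith) g0 (by norm_num)
    first | with_reducible exact a1 | linarith only [a1, a2] | linarith only [a1, a3] | linarith
  rcases le_total w (1 / 25) with g1 | g1
  · have a1 := K1b.r_e_touched_0_1_1 (w := w) (by first | (refine le_trans ?_ h0; norm_num; done) | (refine le_trans ?_ g0; norm_num; done) | (refine le_trans ?_ g1; norm_num; done) | linarith)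
        (by first | (refine le_trans g0 ?_; norm_num; done) | (refine le_trans g1 ?_; norm_num; done) | (refine le_trans h1 ?_; norm_num; done) | linarith)
    first | with_reducible exact a1 | linarith only [a1, a2] | linarith only [a1, a3] | linarith
  have a1 := K1b.r_e_touched_0_1_2 (w := w) (by first | (refine le_trans ?_ h0; norm_num; done) | (refine le_trans ?_ g0; norm_num; done) | (refine le_trans ?_ g1; norm_num; done) | linarith)
        (by first | (refine le_trans g0 ?_; norm_num; done) | (refine le_trans g1 ?_; norm_num; done) | (refine le_trans h1 ?_; norm_num; done) | linarith)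
  have a3 := K1b.anti_r (a := 99 / 100) (b := 19 / 20 + w) (by norm_num)
        (by first | linarith only [g1] | linarith only [h0] | linarith) (by linarith only [h1])
  first | with_reducible exact a1 | linarith only [a1, a2] | linarith only [a1, a3] | linarith

theorem K1b.R_h_one_0_0 {w : ℝ} (h0 : 0 / 1 ≤ w) (h1 : w ≤ 9 / 50) :
    -(153 / 1000) < 0 * uu w 0 + (-11 / 1000) + (0 / 1) * w - (uu (3 / 5 + w) 0 - uu (3 / 5) 0 - uu w 0) - (-3 / 20) := by
  rcases le_total w (1 / 100) with g0 | g0
  · have a1 := K1b.r_h_one_0_0_0 (w := w) (by first | (refine le_trans ?_ h0; norm_num; done) | (refine le_trans ?_ g0; norm_num; done) | (refine le_trans ?_ g1; norm_num; done) | linarith)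
        (by first | (refine le_trans g0 ?_; norm_num; done) | (refine le_trans g1 ?_; norm_num; done) | (refine le_trans h1 ?_; norm_num; done) | linarith)
    have a2 := K1b.anti_l (a := w) (b := 1 / 100) (by first | (refine le_trans ?_ h0; norm_num; done) | (refine le_trans ?_ g0; norm_num; done) | (refine le_trans ?_ g1; norm_num; done) | linarith) g0 (by norm_num)
    first | with_reducible exact a1 | linarith only [a1, a2] | linarith only [a1, a3] | linarith
  have a1 := K1b.r_h_one_0_0_1 (w := w) (by first | (refine le_trans ?_ h0; norm_num; done) | (refine le_trans ?_ g0; norm_num; done) | (refine le_trans ?_ g1; norm_num; done) | linarith)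
        (by first | (refine le_trans g0 ?_; norm_num; done) | (refine le_trans g1 ?_; norm_num; done) | (refine le_trans h1 ?_; norm_num; done) | linarith)
  first | with_reducible exact a1 | linarith only [a1, a2] | linarith only [a1, a3] | linarith

theorem K1b.R_h_one_1_0 {w : ℝ} (h0 : 0 / 1 ≤ w) (h1 : w ≤ 9 / 50) :
    -(24 / 125) < 1 * uu w 0 + (-163 / 5000) + (779 / 1000) * w - (uu (3 / 5 + w) 0 - uu (3 / 5) 0 - uu w 0) - (-3 / 20) := by
  rcases le_total w (1 / 100) with g0 | g0
  · have a1 := K1b.r_h_one_1_0_0 (w := w) (by first | (refine le_trans ?_ h0; norm_num; done) | (refine le_trans ?_ g0; norm_num; done) | (refine le_trans ?_ g1; norm_num; done) | linarith)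
        (by first | (refine le_trans g0 ?_; norm_num; done) | (refine le_trans g1 ?_; norm_num; done) | (refine le_trans h1 ?_; norm_num; done) | linarith)
    have a2 := K1b.anti_l (a := w) (b := 1 / 100) (by first | (refine le_trans ?_ h0; norm_num; done) | (refine le_trans ?_ g0; norm_num; done) | (refine le_trans ?_ g1; norm_num; done) | linarith) g0 (by norm_num)
    first | with_reducible exact a1 | linarith only [a1, a2] | linarith only [a1, a3] | linarith
  have a1 := K1b.r_h_one_1_0_1 (w := w) (by first | (refine le_trans ?_ h0; norm_num; done) | (refine le_trans ?_ g0; norm_num; done) | (refine le_trans ?_ g1; norm_num; done) | linarith)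
        (by first | (refine le_trans g0 ?_; norm_num; done) | (refine le_trans g1 ?_; norm_num; done) | (refine le_trans h1 ?_; norm_num; done) | linarith)
  first | with_reducible exact a1 | linarith only [a1, a2] | linarith only [a1, a3] | linarith

theorem K1b.R_h_one_2_0 {w : ℝ} (h0 : 9 / 50 ≤ w) (h1 : w ≤ 2 / 5) :
    -(43 / 200) < 1 * uu w 0 + (164 / 625) + (-921 / 1000) * w - (uu (3 / 5 + w) 0 - uu (3 / 5) 0 - uu w 0) - (-3 / 20) := by
  rcases le_total w (19 / 50) with g0 | g0
  · have a1 := K1b.r_h_one_2_0_0 (w := w) (by first | (refine le_trans ?_ h0; norm_num; done) | (refine le_trans ?_ g0; norm_num; done) | (refine le_trans ?_ g1; norm_num; done) | linarith)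
        (by first | (refine le_trans g0 ?_; norm_num; done) | (refine le_trans g1 ?_; norm_num; done) | (refine le_trans h1 ?_; norm_num; done) | linarith)
    first | with_reducible exact a1 | linarith only [a1, a2] | linarith only [a1, a3] | linarith
  have a1 := K1b.r_h_one_2_0_1 (w := w) (by first | (refine le_trans ?_ h0; norm_num; done) | (refine le_trans ?_ g0; norm_num; done) | (refine le_trans ?_ g1; norm_num; done) | linarith)
        (by first | (refine le_trans g0 ?_; norm_num; done) | (refine le_trans g1 ?_; norm_num; done) | (refine le_trans h1 ?_; norm_num; done) | linarith)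
  have a3 := K1b.anti_r (a := 49 / 50) (b := 3 / 5 + w) (by norm_num)
        (by first | linarith only [g1] | linarith only [h0] | linarith) (by linarith only [h1])
  first | with_reducible exact a1 | linarith only [a1, a2] | linarith only [a1, a3] | linarith

theorem K1b.R_h_one_3_0 {w : ℝ} (h0 : 9 / 50 ≤ w) (h1 : w ≤ 2 / 5) :
    -(43 / 200) < 1 * uu w 0 + (1451 / 5000) + (-1021 / 1000) * w - (uu (3 / 5 + w) 0 - uu (3 / 5) 0 - uu w 0) - (-3 / 20) := by
  rcases le_total w (19 / 50) with g0 | g0
  · have a1 := K1b.r_h_one_3_0_0 (w := w) (by first | (refine le_trans ?_ h0; norm_num; done) | (refine le_trans ?_ g0; norm_num; done) | (refine le_trans ?_ g1; norm_num; done) | linarith)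
        (by first | (refine le_trans g0 ?_; norm_num; done) | (refine le_trans g1 ?_; norm_num; done) | (refine le_trans h1 ?_; norm_num; done) | linarith)
    first | with_reducible exact a1 | linarith only [a1, a2] | linarith only [a1, a3] | linarith
  have a1 := K1b.r_h_one_3_0_1 (w := w) (by first | (refine le_trans ?_ h0; norm_num; done) | (refine le_trans ?_ g0; norm_num; done) | (refine le_trans ?_ g1; norm_num; done) | linarith)
        (by first | (refine le_trans g0 ?_; norm_num; done) | (refine le_trans g1 ?_; norm_num; done) | (refine le_trans h1 ?_; norm_num; done) | linarith)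
  have a3 := K1b.anti_r (a := 49 / 50) (b := 3 / 5 + w) (by norm_num)
        (by first | linarith only [g1] | linarith only [h0] | linarith) (by linarith only [h1])
  first | with_reducible exact a1 | linarith only [a1, a2] | linarith only [a1, a3] | linarith

theorem K1b.R_h_two_0_0 {w : ℝ} (h0 : 0 / 1 ≤ w) (h1 : w ≤ 2 / 5) :
    -(223 / 1000) < 1 * uu w 0 + (53 / 625) + (-37 / 250) * w - (uu (3 / 5 + w) 0 - uu (3 / 5) 0 - uu w 0) - (-3 / 20) := by
  rcases le_total w (1 / 100) with g0 | g0
  · have a1 := K1b.r_h_two_0_0_0 (w := w) (by first | (refine le_trans ?_ h0; norm_num; done) | (refine le_trans ?_ g0; norm_num; done) | (refine le_trans ?_ g1; norm_num; done) | linarith)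
        (by first | (refine le_trans g0 ?_; norm_num; done) | (refine le_trans g1 ?_; norm_num; done) | (refine le_trans h1 ?_; norm_num; done) | linarith)
    have a2 := K1b.anti_l (a := w) (b := 1 / 100) (by first | (refine le_trans ?_ h0; norm_num; done) | (refine le_trans ?_ g0; norm_num; done) | (refine le_trans ?_ g1; norm_num; done) | linarith) g0 (by norm_num)
    first | with_reducible exact a1 | linarith only [a1, a2] | linarith only [a1, a3] | linarith
  rcases le_total w (19 / 50) with g1 | g1
  · have a1 := K1b.r_h_two_0_0_1 (w := w) (by first | (refine le_trans ?_ h0; norm_num; done) | (refine le_trans ?_ g0; norm_num; done) | (refine le_trans ?_ g1; norm_num; done) | linarith)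
        (by first | (refine le_trans g0 ?_; norm_num; done) | (refine le_trans g1 ?_; norm_num; done) | (refine le_trans h1 ?_; norm_num; done) | linarith)
    first | with_reducible exact a1 | linarith only [a1, a2] | linarith only [a1, a3] | linarith
  have a1 := K1b.r_h_two_0_0_2 (w := w) (by first | (refine le_trans ?_ h0; norm_num; done) | (refine le_trans ?_ g0; norm_num; done) | (refine le_trans ?_ g1; norm_num; done) | linarith)
        (by first | (refine le_trans g0 ?_; norm_num; done) | (refine le_trans g1 ?_; norm_num; done) | (refine le_trans h1 ?_; norm_num; done) | linarith)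
  have a3 := K1b.anti_r (a := 49 / 50) (b := 3 / 5 + w) (by norm_num)
        (by first | linarith only [g1] | linarith only [h0] | linarith) (by linarith only [h1])
  first | with_reducible exact a1 | linarith only [a1, a2] | linarith only [a1, a3] | linarith

theorem K1b.R_h_twoE_0_0 {w : ℝ} (h0 : 0 / 1 ≤ w) (h1 : w ≤ 2 / 5) :
    -(23 / 100) < 1 * uu w 0 + (309 / 2000) + (0 / 1) * w - (uu (3 / 5 + w) 0 - uu (3 / 5) 0 - uu w 0) - (-3 / 20) := by
  rcases le_total w (1 / 100) with g0 | g0
  · have a1 := K1b.r_h_twoE_0_0_0 (w := w) (by first | (refine le_trans ?_ h0; norm_num; done) | (refine le_trans ?_ g0; norm_num; done) | (refine le_trans ?_ g1; norm_num; done) | linarith)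
        (by first | (refine le_trans g0 ?_; norm_num; done) | (refine le_trans g1 ?_; norm_num; done) | (refine le_trans h1 ?_; norm_num; done) | linarith)
    have a2 := K1b.anti_l (a := w) (b := 1 / 100) (by first | (refine le_trans ?_ h0; norm_num; done) | (refine le_trans ?_ g0; norm_num; done) | (refine le_trans ?_ g1; norm_num; done) | linarith) g0 (by norm_num)
    first | with_reducible exact a1 | linarith only [a1, a2] | linarith only [a1, a3] | linarith
  rcases le_total w (19 / 50) with g1 | g1
  · have a1 := K1b.r_h_twoE_0_0_1 (w := w) (by first | (refine le_trans ?_ h0; norm_num; done) | (refine le_trans ?_ g0; norm_num; done) | (refine le_trans ?_ g1; norm_num; done) | linarith)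
        (by first | (refine le_trans g0 ?_; norm_num; done) | (refine le_trans g1 ?_; norm_num; done) | (refine le_trans h1 ?_; norm_num; done) | linarith)
    first | with_reducible exact a1 | linarith only [a1, a2] | linarith only [a1, a3] | linarith
  have a1 := K1b.r_h_twoE_0_0_2 (w := w) (by first | (refine le_trans ?_ h0; norm_num; done) | (refine le_trans ?_ g0; norm_num; done) | (refine le_trans ?_ g1; norm_num; done) | linarith)
        (by first | (refine le_trans g0 ?_; norm_num; done) | (refine le_trans g1 ?_; norm_num; done) | (refine le_trans h1 ?_; norm_num; done) | linarith)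
  have a3 := K1b.anti_r (a := 49 / 50) (b := 3 / 5 + w) (by norm_num)
        (by first | linarith only [g1] | linarith only [h0] | linarith) (by linarith only [h1])
  first | with_reducible exact a1 | linarith only [a1, a2] | linarith only [a1, a3] | linarith

theorem K1b.R_h_touched_0_0 {w : ℝ} (h0 : 0 / 1 ≤ w) (h1 : w ≤ 2 / 5) :
    -(21 / 100) < 0 * uu w 0 + (0 / 1) + (0 / 1) * w - (uu (3 / 5 + w) 0 - uu (3 / 5) 0 - uu w 0) - (-3 / 20) := by
  rcases le_total w (1 / 100) with g0 | g0
  · have a1 := K1b.r_h_touched_0_0_0 (w := w) (by first | (refine le_trans ?_ h0; norm_num; done) | (refine le_trans ?_ g0; norm_num; done) | (refine le_trans ?_ g1; norm_num; done) | linarith)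
        (by first | (refine le_trans g0 ?_; norm_num; done) | (refine le_trans g1 ?_; norm_num; done) | (refine le_trans h1 ?_; norm_num; done) | linarith)
    have a2 := K1b.anti_l (a := w) (b := 1 / 100) (by first | (refine le_trans ?_ h0; norm_num; done) | (refine le_trans ?_ g0; norm_num; done) | (refine le_trans ?_ g1; norm_num; done) | linarith) g0 (by norm_num)
    first | with_reducible exact a1 | linarith only [a1, a2] | linarith only [a1, a3] | linarith
  rcases le_total w (19 / 50) with g1 | g1
  · have a1 := K1b.r_h_touched_0_0_1 (w := w) (by first | (refine le_trans ?_ h0; norm_num; done) | (refine le_trans ?_ g0; norm_num; done) | (refine le_trans ?_ g1; norm_num; done) | linarith)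
        (by first | (refine le_trans g0 ?_; norm_num; done) | (refine le_trans g1 ?_; norm_num; done) | (refine le_trans h1 ?_; norm_num; done) | linarith)
    first | with_reducible exact a1 | linarith only [a1, a2] | linarith only [a1, a3] | linarith
  have a1 := K1b.r_h_touched_0_0_2 (w := w) (by first | (refine le_trans ?_ h0; norm_num; done) | (refine le_trans ?_ g0; norm_num; done) | (refine le_trans ?_ g1; norm_num; done) | linarith)
        (by first | (refine le_trans g0 ?_; norm_num; done) | (refine le_trans g1 ?_; norm_num; done) | (refine le_trans h1 ?_; norm_num; done) | linarith)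
  have a3 := K1b.anti_r (a := 49 / 50) (b := 3 / 5 + w) (by norm_num)
        (by first | linarith only [g1] | linarith only [h0] | linarith) (by linarith only [h1])
  first | with_reducible exact a1 | linarith only [a1, a2] | linarith only [a1, a3] | linarith

theorem K1b.R_r_one_0_0 {w : ℝ} (h0 : 0 / 1 ≤ w) (h1 : w ≤ 9 / 50) :
    -(137 / 1000) < 0 * uu w 0 + (-11 / 1000) + (0 / 1) * w - (uu (13 / 20 + w) 0 - uu (13 / 20) 0 - uu w 0) - (-27 / 200) := by
  rcases le_total w (1 / 100) with g0 | g0
  · have a1 := K1b.r_r_one_0_0_0 (w := w) (by first | (refine le_trans ?_ h0; norm_num; done) | (refine le_trans ?_ g0; norm_num; done) | (refine le_trans ?_ g1; norm_num; done) | linarith)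
        (by first | (refine le_trans g0 ?_; norm_num; done) | (refine le_trans g1 ?_; norm_num; done) | (refine le_trans h1 ?_; norm_num; done) | linarith)
    have a2 := K1b.anti_l (a := w) (b := 1 / 100) (by first | (refine le_trans ?_ h0; norm_num; done) | (refine le_trans ?_ g0; norm_num; done) | (refine le_trans ?_ g1; norm_num; done) | linarith) g0 (by norm_num)
    first | with_reducible exact a1 | linarith only [a1, a2] | linarith only [a1, a3] | linarith
  have a1 := K1b.r_r_one_0_0_1 (w := w) (by first | (refine le_trans ?_ h0; norm_num; done) | (refine le_trans ?_ g0; norm_num; done) | (refine le_trans ?_ g1; norm_num; done) | linarith)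
        (by first | (refine le_trans g0 ?_; norm_num; done) | (refine le_trans g1 ?_; norm_num; done) | (refine le_trans h1 ?_; norm_num; done) | linarith)
  first | with_reducible exact a1 | linarith only [a1, a2] | linarith only [a1, a3] | linarith

theorem K1b.R_r_one_0_1 {w : ℝ} (h0 : 0 / 1 ≤ w) (h1 : w ≤ 1 / 20) :
    -(137 / 1000) < 0 * uu w 0 + (-11 / 1000) + (0 / 1) * w - (uu (19 / 20 + w) 0 - uu (19 / 20) 0 - uu w 0) - (1 / 50) := by
  rcases le_total w (1 / 100) with g0 | g0
  · have a1 := K1b.r_r_one_0_1_0 (w := w) (by first | (refine le_trans ?_ h0; norm_num; done) | (refine le_trans ?_ g0; norm_num; done) | (refine le_trans ?_ g1; norm_num; done) | linarith)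
        (by first | (refine le_trans g0 ?_; norm_num; done) | (refine le_trans g1 ?_; norm_num; done) | (refine le_trans h1 ?_; norm_num; done) | linarith)
    have a2 := K1b.anti_l (a := w) (b := 1 / 100) (by first | (refine le_trans ?_ h0; norm_num; done) | (refine le_trans ?_ g0; norm_num; done) | (refine le_trans ?_ g1; norm_num; done) | linarith) g0 (by norm_num)
    first | with_reducible exact a1 | linarith only [a1, a2] | linarith only [a1, a3] | linarith
  rcases le_total w (1 / 25) with g1 | g1
  · have a1 := K1b.r_r_one_0_1_1 (w := w) (by first | (refine le_trans ?_ h0; norm_num; done) | (refine le_trans ?_ g0; norm_num; done) | (refine le_trans ?_ g1; norm_num; done) | linarith)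
        (by first | (refine le_trans g0 ?_; norm_num; done) | (refine le_trans g1 ?_; norm_num; done) | (refine le_trans h1 ?_; norm_num; done) | linarith)
    first | with_reducible exact a1 | linarith only [a1, a2] | linarith only [a1, a3] | linarith
  have a1 := K1b.r_r_one_0_1_2 (w := w) (by first | (refine le_trans ?_ h0; norm_num; done) | (refine le_trans ?_ g0; norm_num; done) | (refine le_trans ?_ g1; norm_num; done) | linarith)
        (by first | (refine le_trans g0 ?_; norm_num; done) | (refine le_trans g1 ?_; norm_num; done) | (refine le_trans h1 ?_; norm_num; done) | linarith)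
  have a3 := K1b.anti_r (a := 99 / 100) (b := 19 / 20 + w) (by norm_num)
        (by first | linarith only [g1] | linarith only [h0] | linarith) (by linarith only [h1])
  first | with_reducible exact a1 | linarith only [a1, a2] | linarith only [a1, a3] | linarith

theorem K1b.R_r_one_1_0 {w : ℝ} (h0 : 0 / 1 ≤ w) (h1 : w ≤ 9 / 50) :
    -(9 / 50) < 1 * uu w 0 + (-163 / 5000) + (779 / 1000) * w - (uu (13 / 20 + w) 0 - uu (13 / 20) 0 - uu w 0) - (-27 / 200) := by
  rcases le_total w (1 / 100) with g0 | g0
  · have a1 := K1b.r_r_one_1_0_0 (w := w) (by first | (refine le_trans ?_ h0; norm_num; done) | (refine le_trans ?_ g0; norm_num; done) | (refine le_trans ?_ g1; norm_num; done) | linarith)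
        (by first | (refine le_trans g0 ?_; norm_num; done) | (refine le_trans g1 ?_; norm_num; done) | (refine le_trans h1 ?_; norm_num; done) | linarith)
    have a2 := K1b.anti_l (a := w) (b := 1 / 100) (by first | (refine le_trans ?_ h0; norm_num; done) | (refine le_trans ?_ g0; norm_num; done) | (refine le_trans ?_ g1; norm_num; done) | linarith) g0 (by norm_num)
    first | with_reducible exact a1 | linarith only [a1, a2] | linarith only [a1, a3] | linarith
  have a1 := K1b.r_r_one_1_0_1 (w := w) (by first | (refine le_trans ?_ h0; norm_num; done) | (refine le_trans ?_ g0; norm_num; done) | (refine le_trans ?_ g1; norm_num; done) | linarith)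
        (by first | (refine le_trans g0 ?_; norm_num; done) | (refine le_trans g1 ?_; norm_num; done) | (refine le_trans h1 ?_; norm_num; done) | linarith)
  first | with_reducible exact a1 | linarith only [a1, a2] | linarith only [a1, a3] | linarith

theorem K1b.R_r_one_1_1 {w : ℝ} (h0 : 0 / 1 ≤ w) (h1 : w ≤ 1 / 20) :
    -(9 / 50) < 1 * uu w 0 + (-163 / 5000) + (779 / 1000) * w - (uu (19 / 20 + w) 0 - uu (19 / 20) 0 - uu w 0) - (1 / 50) := by
  rcases le_total w (1 / 100) with g0 | g0
  · have a1 := K1b.r_r_one_1_1_0 (w := w) (by first | (refine le_trans ?_ h0; norm_num; done) | (refine le_trans ?_ g0; norm_num; done) | (refine le_trans ?_ g1; norm_num; done) | linarith)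
        (by first | (refine le_trans g0 ?_; norm_num; done) | (refine le_trans g1 ?_; norm_num; done) | (refine le_trans h1 ?_; norm_num; done) | linarith)
    have a2 := K1b.anti_l (a := w) (b := 1 / 100) (by first | (refine le_trans ?_ h0; norm_num; done) | (refine le_trans ?_ g0; norm_num; done) | (refine le_trans ?_ g1; norm_num; done) | linarith) g0 (by norm_num)
    first | with_reducible exact a1 | linarith only [a1, a2] | linarith only [a1, a3] | linarith
  rcases le_total w (1 / 25) with g1 | g1
  · have a1 := K1b.r_r_one_1_1_1 (w := w) (by first | (refine le_trans ?_ h0; norm_num; done) | (refine le_trans ?_ g0; norm_num; done) | (refine le_trans ?_ g1; norm_num; done) | linarith)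
        (by first | (refine le_trans g0 ?_; norm_num; done) | (refine le_trans g1 ?_; norm_num; done) | (refine le_trans h1 ?_; norm_num; done) | linarith)
    first | with_reducible exact a1 | linarith only [a1, a2] | linarith only [a1, a3] | linarith
  have a1 := K1b.r_r_one_1_1_2 (w := w) (by first | (refine le_trans ?_ h0; norm_num; done) | (refine le_trans ?_ g0; norm_num; done) | (refine le_trans ?_ g1; norm_num; done) | linarith)
        (by first | (refine le_trans g0 ?_; norm_num; done) | (refine le_trans g1 ?_; norm_num; done) | (refine le_trans h1 ?_; norm_num; done) | linarith)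
  have a3 := K1b.anti_r (a := 99 / 100) (b := 19 / 20 + w) (by norm_num)
        (by first | linarith only [g1] | linarith only [h0] | linarith) (by linarith only [h1])
  first | with_reducible exact a1 | linarith only [a1, a2] | linarith only [a1, a3] | linarith

theorem K1b.R_r_one_2_0 {w : ℝ} (h0 : 9 / 50 ≤ w) (h1 : w ≤ 7 / 20) :
    -(189 / 1000) < 1 * uu w 0 + (164 / 625) + (-921 / 1000) * w - (uu (13 / 20 + w) 0 - uu (13 / 20) 0 - uu w 0) - (-27 / 200) := by
  rcases le_total w (33 / 100) with g0 | g0
  · have a1 := K1b.r_r_one_2_0_0 (w := w) (by first | (refine le_trans ?_ h0; norm_num; done) | (refine le_trans ?_ g0; norm_num; done) | (refine le_trans ?_ g1; norm_num; done) | linarith)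
        (by first | (refine le_trans g0 ?_; norm_num; done) | (refine le_trans g1 ?_; norm_num; done) | (refine le_trans h1 ?_; norm_num; done) | linarith)
    first | with_reducible exact a1 | linarith only [a1, a2] | linarith only [a1, a3] | linarith
  have a1 := K1b.r_r_one_2_0_1 (w := w) (by first | (refine le_trans ?_ h0; norm_num; done) | (refine le_trans ?_ g0; norm_num; done) | (refine le_trans ?_ g1; norm_num; done) | linarith)
        (by first | (refine le_trans g0 ?_; norm_num; done) | (refine le_trans g1 ?_; norm_num; done) | (refine le_trans h1 ?_; norm_num; done) | linarith)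
  have a3 := K1b.anti_r (a := 49 / 50) (b := 13 / 20 + w) (by norm_num)
        (by first | linarith only [g1] | linarith only [h0] | linarith) (by linarith only [h1])
  first | with_reducible exact a1 | linarith only [a1, a2] | linarith only [a1, a3] | linarith

theorem K1b.R_r_one_3_0 {w : ℝ} (h0 : 9 / 50 ≤ w) (h1 : w ≤ 7 / 20) :
    -(24 / 125) < 1 * uu w 0 + (1451 / 5000) + (-1021 / 1000) * w - (uu (13 / 20 + w) 0 - uu (13 / 20) 0 - uu w 0) - (-27 / 200) := by
  rcases le_total w (33 / 100) with g0 | g0
  · have a1 := K1b.r_r_one_3_0_0 (w := w) (by first | (refine le_trans ?_ h0; norm_num; done) | (refine le_trans ?_ g0; norm_num; done) | (refine le_trans ?_ g1; norm_num; done) | linarith)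
        (by first | (refine le_trans g0 ?_; norm_num; done) | (refine le_trans g1 ?_; norm_num; done) | (refine le_trans h1 ?_; norm_num; done) | linarith)
    first | with_reducible exact a1 | linarith only [a1, a2] | linarith only [a1, a3] | linarith
  have a1 := K1b.r_r_one_3_0_1 (w := w) (by first | (refine le_trans ?_ h0; norm_num; done) | (refine le_trans ?_ g0; norm_num; done) | (refine le_trans ?_ g1; norm_num; done) | linarith)
        (by first | (refine le_trans g0 ?_; norm_num; done) | (refine le_trans g1 ?_; norm_num; done) | (refine le_trans h1 ?_; norm_num; done) | linarith)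
  have a3 := K1b.anti_r (a := 49 / 50) (b := 13 / 20 + w) (by norm_num)
        (by first | linarith only [g1] | linarith only [h0] | linarith) (by linarith only [h1])
  first | with_reducible exact a1 | linarith only [a1, a2] | linarith only [a1, a3] | linarith

theorem K1b.R_r_two_0_0 {w : ℝ} (h0 : 0 / 1 ≤ w) (h1 : w ≤ 7 / 20) :
    -(21 / 100) < 1 * uu w 0 + (53 / 625) + (-37 / 250) * w - (uu (13 / 20 + w) 0 - uu (13 / 20) 0 - uu w 0) - (-27 / 200) := by
  rcases le_total w (1 / 100) with g0 | g0
  · have a1 := K1b.r_r_two_0_0_0 (w := w) (by first | (refine le_trans ?_ h0; norm_num; done) | (refine le_trans ?_ g0; norm_num; done) | (refine le_trans ?_ g1; norm_num; done) | linarith)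
        (by first | (refine le_trans g0 ?_; norm_num; done) | (refine le_trans g1 ?_; norm_num; done) | (refine le_trans h1 ?_; norm_num; done) | linarith)
    have a2 := K1b.anti_l (a := w) (b := 1 / 100) (by first | (refine le_trans ?_ h0; norm_num; done) | (refine le_trans ?_ g0; norm_num; done) | (refine le_trans ?_ g1; norm_num; done) | linarith) g0 (by norm_num)
    first | with_reducible exact a1 | linarith only [a1, a2] | linarith only [a1, a3] | linarith
  rcases le_total w (33 / 100) with g1 | g1
  · have a1 := K1b.r_r_two_0_0_1 (w := w) (by first | (refine le_trans ?_ h0; norm_num; done) | (refine le_trans ?_ g0; norm_num; done) | (refine le_trans ?_ g1; norm_num; done) | linarith)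
        (by first | (refine le_trans g0 ?_; norm_num; done) | (refine le_trans g1 ?_; norm_num; done) | (refine le_trans h1 ?_; norm_num; done) | linarith)
    first | with_reducible exact a1 | linarith only [a1, a2] | linarith only [a1, a3] | linarith
  have a1 := K1b.r_r_two_0_0_2 (w := w) (by first | (refine le_trans ?_ h0; norm_num; done) | (refine le_trans ?_ g0; norm_num; done) | (refine le_trans ?_ g1; norm_num; done) | linarith)
        (by first | (refine le_trans g0 ?_; norm_num; done) | (refine le_trans g1 ?_; norm_num; done) | (refine le_trans h1 ?_; norm_num; done) | linarith)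
  have a3 := K1b.anti_r (a := 49 / 50) (b := 13 / 20 + w) (by norm_num)
        (by first | linarith only [g1] | linarith only [h0] | linarith) (by linarith only [h1])
  first | with_reducible exact a1 | linarith only [a1, a2] | linarith only [a1, a3] | linarith

theorem K1b.R_r_two_0_1 {w : ℝ} (h0 : 0 / 1 ≤ w) (h1 : w ≤ 1 / 20) :
    -(21 / 100) < 1 * uu w 0 + (53 / 625) + (-37 / 250) * w - (uu (19 / 20 + w) 0 - uu (19 / 20) 0 - uu w 0) - (1 / 50) := by
  rcases le_total w (1 / 100) with g0 | g0
  · have a1 := K1b.r_r_two_0_1_0 (w := w) (by first | (refine le_trans ?_ h0; norm_num; done) | (refine le_trans ?_ g0; norm_num; done) | (refine le_trans ?_ g1; norm_num; done) | linarith)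
        (by first | (refine le_trans g0 ?_; norm_num; done) | (refine le_trans g1 ?_; norm_num; done) | (refine le_trans h1 ?_; norm_num; done) | linarith)
    have a2 := K1b.anti_l (a := w) (b := 1 / 100) (by first | (refine le_trans ?_ h0; norm_num; done) | (refine le_trans ?_ g0; norm_num; done) | (refine le_trans ?_ g1; norm_num; done) | linarith) g0 (by norm_num)
    first | with_reducible exact a1 | linarith only [a1, a2] | linarith only [a1, a3] | linarith
  rcases le_total w (1 / 25) with g1 | g1
  · have a1 := K1b.r_r_two_0_1_1 (w := w) (by first | (refine le_trans ?_ h0; norm_num; done) | (refine le_trans ?_ g0; norm_num; done) | (refine le_trans ?_ g1; norm_num; done) | linarith)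
        (by first | (refine le_trans g0 ?_; norm_num; done) | (refine le_trans g1 ?_; norm_num; done) | (refine le_trans h1 ?_; norm_num; done) | linarith)
    first | with_reducible exact a1 | linarith only [a1, a2] | linarith only [a1, a3] | linarith
  have a1 := K1b.r_r_two_0_1_2 (w := w) (by first | (refine le_trans ?_ h0; norm_num; done) | (refine le_trans ?_ g0; norm_num; done) | (refine le_trans ?_ g1; norm_num; done) | linarith)
        (by first | (refine le_trans g0 ?_; norm_num; done) | (refine le_trans g1 ?_; norm_num; done) | (refine le_trans h1 ?_; norm_num; done) | linarith)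
  have a3 := K1b.anti_r (a := 99 / 100) (b := 19 / 20 + w) (by norm_num)
        (by first | linarith only [g1] | linarith only [h0] | linarith) (by linarith only [h1])
  first | with_reducible exact a1 | linarith only [a1, a2] | linarith only [a1, a3] | linarith

theorem K1b.R_r_twoE_0_0 {w : ℝ} (h0 : 0 / 1 ≤ w) (h1 : w ≤ 7 / 20) :
    -(23 / 100) < 1 * uu w 0 + (309 / 2000) + (0 / 1) * w - (uu (13 / 20 + w) 0 - uu (13 / 20) 0 - uu w 0) - (-27 / 200) := by
  rcases le_total w (1 / 100) with g0 | g0
  · have a1 := K1b.r_r_twoE_0_0_0 (w := w) (by first | (refine le_trans ?_ h0; norm_num; done) | (refine le_trans ?_ g0; norm_num; done) | (refine le_trans ?_ g1; norm_num; done) | linarith)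
        (by first | (refine le_trans g0 ?_; norm_num; done) | (refine le_trans g1 ?_; norm_num; done) | (refine le_trans h1 ?_; norm_num; done) | linarith)
    have a2 := K1b.anti_l (a := w) (b := 1 / 100) (by first | (refine le_trans ?_ h0; norm_num; done) | (refine le_trans ?_ g0; norm_num; done) | (refine le_trans ?_ g1; norm_num; done) | linarith) g0 (by norm_num)
    first | with_reducible exact a1 | linarith only [a1, a2] | linarith only [a1, a3] | linarith
  rcases le_total w (33 / 100) with g1 | g1
  · have a1 := K1b.r_r_twoE_0_0_1 (w := w) (by first | (refine le_trans ?_ h0; norm_num; done) | (refine le_trans ?_ g0; norm_num; done) | (refine le_trans ?_ g1; norm_num; done) | linarith)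
        (by first | (refine le_trans g0 ?_; norm_num; done) | (refine le_trans g1 ?_; norm_num; done) | (refine le_trans h1 ?_; norm_num; done) | linarith)
    first | with_reducible exact a1 | linarith only [a1, a2] | linarith only [a1, a3] | linarith
  have a1 := K1b.r_r_twoE_0_0_2 (w := w) (by first | (refine le_trans ?_ h0; norm_num; done) | (refine le_trans ?_ g0; norm_num; done) | (refine le_trans ?_ g1; norm_num; done) | linarith)
        (by first | (refine le_trans g0 ?_; norm_num; done) | (refine le_trans g1 ?_; norm_num; done) | (refine le_trans h1 ?_; norm_num; done) | linarith)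
  have a3 := K1b.anti_r (a := 49 / 50) (b := 13 / 20 + w) (by norm_num)
        (by first | linarith only [g1] | linarith only [h0] | linarith) (by linarith only [h1])
  first | with_reducible exact a1 | linarith only [a1, a2] | linarith only [a1, a3] | linarith

theorem K1b.R_r_twoE_0_1 {w : ℝ} (h0 : 0 / 1 ≤ w) (h1 : w ≤ 1 / 20) :
    -(23 / 100) < 1 * uu w 0 + (309 / 2000) + (0 / 1) * w - (uu (19 / 20 + w) 0 - uu (19 / 20) 0 - uu w 0) - (1 / 50) := by
  rcases le_total w (1 / 100) with g0 | g0
  · have a1 := K1b.r_r_twoE_0_1_0 (w := w) (by first | (refine le_trans ?_ h0; norm_num; done) | (refine le_trans ?_ g0; norm_num; done) | (refine le_trans ?_ g1; norm_num; done) | linarith)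
        (by first | (refine le_trans g0 ?_; norm_num; done) | (refine le_trans g1 ?_; norm_num; done) | (refine le_trans h1 ?_; norm_num; done) | linarith)
    have a2 := K1b.anti_l (a := w) (b := 1 / 100) (by first | (refine le_trans ?_ h0; norm_num; done) | (refine le_trans ?_ g0; norm_num; done) | (refine le_trans ?_ g1; norm_num; done) | linarith) g0 (by norm_num)
    first | with_reducible exact a1 | linarith only [a1, a2] | linarith only [a1, a3] | linarith
  rcases le_total w (1 / 25) with g1 | g1
  · have a1 := K1b.r_r_twoE_0_1_1 (w := w) (by first | (refine le_trans ?_ h0; norm_num; done) | (refine le_trans ?_ g0; norm_num; done) | (refine le_trans ?_ g1; norm_num; done) | linarith)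
        (by first | (refine le_trans g0 ?_; norm_num; done) | (refine le_trans g1 ?_; norm_num; done) | (refine le_trans h1 ?_; norm_num; done) | linarith)
    first | with_reducible exact a1 | linarith only [a1, a2] | linarith only [a1, a3] | linarith
  have a1 := K1b.r_r_twoE_0_1_2 (w := w) (by first | (refine le_trans ?_ h0; norm_num; done) | (refine le_trans ?_ g0; norm_num; done) | (refine le_trans ?_ g1; norm_num; done) | linarith)
        (by first | (refine le_trans g0 ?_; norm_num; done) | (refine le_trans g1 ?_; norm_num; done) | (refine le_trans h1 ?_; norm_num; done) | linarith)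
  have a3 := K1b.anti_r (a := 99 / 100) (b := 19 / 20 + w) (by norm_num)
        (by first | linarith only [g1] | linarith only [h0] | linarith) (by linarith only [h1])
  first | with_reducible exact a1 | linarith only [a1, a2] | linarith only [a1, a3] | linarith

theorem K1b.R_r_touched_0_0 {w : ℝ} (h0 : 0 / 1 ≤ w) (h1 : w ≤ 7 / 20) :
    -(1 / 5) < 0 * uu w 0 + (0 / 1) + (0 / 1) * w - (uu (13 / 20 + w) 0 - uu (13 / 20) 0 - uu w 0) - (-27 / 200) := by
  rcases le_total w (1 / 100) with g0 | g0
  · have a1 := K1b.r_r_touched_0_0_0 (w := w) (by first | (refine le_trans ?_ h0; norm_num; done) | (refine le_trans ?_ g0; norm_num; done) | (refine le_trans ?_ g1; norm_num; done) | linarith)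
        (by first | (refine le_trans g0 ?_; norm_num; done) | (refine le_trans g1 ?_; norm_num; done) | (refine le_trans h1 ?_; norm_num; done) | linarith)
    have a2 := K1b.anti_l (a := w) (b := 1 / 100) (by first | (refine le_trans ?_ h0; norm_num; done) | (refine le_trans ?_ g0; norm_num; done) | (refine le_trans ?_ g1; norm_num; done) | linarith) g0 (by norm_num)
    first | with_reducible exact a1 | linarith only [a1, a2] | linarith only [a1, a3] | linarith
  rcases le_total w (33 / 100) with g1 | g1
  · have a1 := K1b.r_r_touched_0_0_1 (w := w) (by first | (refine le_trans ?_ h0; norm_num; done) | (refine le_trans ?_ g0; norm_num; done) | (refine le_trans ?_ g1; norm_num; done) | linarith)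
        (by first | (refine le_trans g0 ?_; norm_num; done) | (refine le_trans g1 ?_; norm_num; done) | (refine le_trans h1 ?_; norm_num; done) | linarith)
    first | with_reducible exact a1 | linarith only [a1, a2] | linarith only [a1, a3] | linarith
  have a1 := K1b.r_r_touched_0_0_2 (w := w) (by first | (refine le_trans ?_ h0; norm_num; done) | (refine le_trans ?_ g0; norm_num; done) | (refine le_trans ?_ g1; norm_num; done) | linarith)
        (by first | (refine le_trans g0 ?_; norm_num; done) | (refine le_trans g1 ?_; norm_num; done) | (refine le_trans h1 ?_; norm_num; done) | linarith)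
  have a3 := K1b.anti_r (a := 49 / 50) (b := 13 / 20 + w) (by norm_num)
        (by first | linarith only [g1] | linarith only [h0] | linarith) (by linarith only [h1])
  first | with_reducible exact a1 | linarith only [a1, a2] | linarith only [a1, a3] | linarith

theorem K1b.R_r_touched_0_1 {w : ℝ} (h0 : 0 / 1 ≤ w) (h1 : w ≤ 1 / 20) :
    -(1 / 5) < 0 * uu w 0 + (0 / 1) + (0 / 1) * w - (uu (19 / 20 + w) 0 - uu (19 / 20) 0 - uu w 0) - (1 / 50) := by
  rcases le_total w (1 / 100) with g0 | g0
  · have a1 := K1b.r_r_touched_0_1_0 (w := w) (by first | (refine le_trans ?_ h0; norm_num; done) | (refine le_trans ?_ g0; norm_num; done) | (refine le_trans ?_ g1; norm_num; done) | linarith)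
        (by first | (refine le_trans g0 ?_; norm_num; done) | (refine le_trans g1 ?_; norm_num; done) | (refine le_trans h1 ?_; norm_num; done) | linarith)
    have a2 := K1b.anti_l (a := w) (b := 1 / 100) (by first | (refine le_trans ?_ h0; norm_num; done) | (refine le_trans ?_ g0; norm_num; done) | (refine le_trans ?_ g1; norm_num; done) | linarith) g0 (by norm_num)
    first | with_reducible exact a1 | linarith only [a1, a2] | linarith only [a1, a3] | linarith
  rcases le_total w (1 / 25) with g1 | g1
  · have a1 := K1b.r_r_touched_0_1_1 (w := w) (by first | (refine le_trans ?_ h0; norm_num; done) | (refine le_trans ?_ g0; norm_num; done) | (refine le_trans ?_ g1; norm_num; done) | linarith)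
        (by first | (refine le_trans g0 ?_; norm_num; done) | (refine le_trans g1 ?_; norm_num; done) | (refine le_trans h1 ?_; norm_num; done) | linarith)
    first | with_reducible exact a1 | linarith only [a1, a2] | linarith only [a1, a3] | linarith
  have a1 := K1b.r_r_touched_0_1_2 (w := w) (by first | (refine le_trans ?_ h0; norm_num; done) | (refine le_trans ?_ g0; norm_num; done) | (refine le_trans ?_ g1; norm_num; done) | linarith)
        (by first | (refine le_trans g0 ?_; norm_num; done) | (refine le_trans g1 ?_; norm_num; done) | (refine le_trans h1 ?_; norm_num; done) | linarith)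
  have a3 := K1b.anti_r (a := 99 / 100) (b := 19 / 20 + w) (by norm_num)
        (by first | linarith only [g1] | linarith only [h0] | linarith) (by linarith only [h1])
  first | with_reducible exact a1 | linarith only [a1, a2] | linarith only [a1, a3] | linarith

/-- the two parts together, numerals in any form -/
theorem K1b.core2 {c c' X x w t k G β γ a a0 a1 c1 s C A B : ℝ} {U : ℝ} (hX : 1 / 2 ≤ X)
    (hx : X ≤ x) (hw : 0 ≤ w) (hxw : x + w ≤ 1)
    (hF : c1 < Real.pi * (c * k + t * c' - t - k) + uu s (t + k) - uu c t - uu c' k + β * t +
      γ * k)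
    (hR : -c1 < U * uu w 0 + a0 + a1 * w - (uu (X + w) 0 - uu X 0 - uu w 0) - a)
    (hG : U * uu w 0 + a0 + a1 * w + γ * k ≤ G) (hs : c + c' = s) (hC : C = c) (hA : A = a)
    (hB : B = β) : A ≤ V1 ⟨C, t⟩ ⟨c', k⟩ - V1 ⟨x, 0⟩ ⟨w, 0⟩ + G + B * t := by
  subst hs hC hA hB
  refine K1b.core hX hx hw hxw ?_ hR hG
  unfold K1b.rF
  linarith

/-- **K1, `B = .two`** -/
theorem side_one_two {Cc : Cl} {C : Ct} (hC : C.ok Cc) {x w t k G : ℝ}
    (hx : X0 .one .two ≤ x) (hw : 0 ≤ w) (hxw : x + w ≤ 1)
    (t0 : (cw Cc .two).t0 ≤ t) (t1 : t ≤ (cw Cc .two).t1)
    (s0 : (cw Cc .two).s0 ≤ t + k) (s1 : t + k ≤ (cw Cc .two).s1)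
    (k0 : (cw .two Cc).t0 ≤ k) (k1 : k ≤ (cw .two Cc).t1)
    (hbig : ¬ (big .two ∧ big Cc)) (hCo : Cc = .one → -(2 / 25) ≤ k)
    (hE : EB .one C w (-k) G) :
    al .one .two Cc x ≤ V1 ⟨cT .one .two, t⟩ ⟨cN C, k⟩ - V1 ⟨x, 0⟩ ⟨w, 0⟩ + G +
      be .one .two * t := by
  have eU : UU ⟨w, 0⟩ = uu w 0 := rfl
  simp only [X0] at hx
  cases C
  · obtain rfl : Cc = .one := hC
    simp only [cw, EB, eU] at t0 t1 s0 s1 k0 k1 hE
    simp only [cT, cN, be, al]
    have k0 := hCo rfl
    rw [show (28 : ℝ) / 100 = 7 / 25 by norm_num]
    rcases le_total w (9 / 50) with h | h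
    · rcases hE.1 h with hE | hE
      · have hF := K1b.f_t_one_0 (t := t) (k := k) (by first | (refine le_trans ?_ t0; norm_num; done) | linarith only [t0, t1, s0, s1, k0, k1] | linarith) (by first | (refine le_trans t1 ?_; norm_num; done) | linarith only [t0, t1, s0, s1, k0, k1] | linarith) (by first | (refine le_trans ?_ k0; norm_num; done) | linarith only [t0, t1, s0, s1, k0, k1] | linarith) (by first | (refine le_trans k1 ?_; norm_num; done) | linarith only [t0, t1, s0, s1, k0, k1] | linarith) (by first | (refine le_trans s1 ?_; norm_num; done) | linarith only [t0, t1, s0, s1, k0, k1] | linarith) (by first | (refine le_trans ?_ s0; norm_num; done) | linarith only [t0, t1, s0, s1, k0, k1] | linarith)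
        exact K1b.core2 (c := 7 / 25) (c' := 9 / 50) (X := 4 / 5) (x := x) (w := w) (t := t) (k := k) (G := G) (s := 23 / 50)
          (β := 43 / 20) (γ := 3927 / 1250) (a := -13 / 100) (a0 := -11 / 1000) (a1 := 0 / 1) (c1 := 3 / 20) (U := 0)
          (by norm_num) (by first | (refine le_trans ?_ hx; norm_num; done) | (refine le_trans ?_ h95; norm_num; done) | linarith) hw hxw hF
          (K1b.R_t_one_0_0 (w := w) (by first | (refine le_trans ?_ hw; norm_num; done) | (refine le_trans ?_ h; norm_num; done) | linarith)
            (by first | (refine le_trans h ?_; norm_num; done) | linarith only [hxw, h95] | linarith only [hxw, hx] | linarith))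
          (le_trans (le_of_eq (by ring)) hE) (by norm_num) (by norm_num) (by norm_num) (by norm_num)
      · have hF := K1b.f_t_one_1 (t := t) (k := k) (by first | (refine le_trans ?_ t0; norm_num; done) | linarith only [t0, t1, s0, s1, k0, k1] | linarith) (by first | (refine le_trans t1 ?_; norm_num; done) | linarith only [t0, t1, s0, s1, k0, k1] | linarith) (by first | (refine le_trans ?_ k0; norm_num; done) | linarith only [t0, t1, s0, s1, k0, k1] | linarith) (by first | (refine le_trans k1 ?_; norm_num; done) | linarith only [t0, t1, s0, s1, k0, k1] | linarith) (by first | (refine le_trans s1 ?_; norm_num; done) | linarith only [t0, t1, s0, s1, k0, k1] | linarith) (by first | (refine le_trans ?_ s0; norm_num; done) | linarith only [t0, t1, s0, s1, k0, k1] | linarith)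
        exact K1b.core2 (c := 7 / 25) (c' := 9 / 50) (X := 4 / 5) (x := x) (w := w) (t := t) (k := k) (G := G) (s := 23 / 50)
          (β := 43 / 20) (γ := 821 / 500) (a := -13 / 100) (a0 := -163 / 5000) (a1 := 779 / 1000) (c1 := 19 / 100) (U := 1)
          (by norm_num) (by first | (refine le_trans ?_ hx; norm_num; done) | (refine le_trans ?_ h95; norm_num; done) | linarith) hw hxw hF
          (K1b.R_t_one_1_0 (w := w) (by first | (refine le_trans ?_ hw; norm_num; done) | (refine le_trans ?_ h; norm_num; done) | linarith)
            (by first | (refine le_trans h ?_; norm_num; done) | linarith only [hxw, h95] | linarith only [hxw, hx] | linarith))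
          (le_trans (le_of_eq (by ring)) hE) (by norm_num) (by norm_num) (by norm_num) (by norm_num)
    · rcases hE.2 h with hE | hE
      · have hF := K1b.f_t_one_2 (t := t) (k := k) (by first | (refine le_trans ?_ t0; norm_num; done) | linarith only [t0, t1, s0, s1, k0, k1] | linarith) (by first | (refine le_trans t1 ?_; norm_num; done) | linarith only [t0, t1, s0, s1, k0, k1] | linarith) (by first | (refine le_trans ?_ k0; norm_num; done) | linarith only [t0, t1, s0, s1, k0, k1] | linarith) (by first | (refine le_trans k1 ?_; norm_num; done) | linarith only [t0, t1, s0, s1, k0, k1] | linarith) (by first | (refine le_trans s1 ?_; norm_num; done) | linarith only [t0, t1, s0, s1, k0, k1] | linarith) (by first | (refine le_trans ?_ s0; norm_num; done) | linarith only [t0, t1, s0, s1, k0, k1] | linarith)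
        exact K1b.core2 (c := 7 / 25) (c' := 9 / 50) (X := 4 / 5) (x := x) (w := w) (t := t) (k := k) (G := G) (s := 23 / 50)
          (β := 43 / 20) (γ := 1849 / 1000) (a := -13 / 100) (a0 := 164 / 625) (a1 := -921 / 1000) (c1 := 1 / 5) (U := 1)
          (by norm_num) (by first | (refine le_trans ?_ hx; norm_num; done) | (refine le_trans ?_ h95; norm_num; done) | linarith) hw hxw hF
          (K1b.R_t_one_2_0 (w := w) (by first | (refine le_trans ?_ hw; norm_num; done) | (refine le_trans ?_ h; norm_num; done) | linarith)
            (by first | (refine le_trans h ?_; norm_num; done) | linarith only [hxw, h95] | linarith only [hxw, hx] | linarith))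
          (le_trans (le_of_eq (by ring)) hE) (by norm_num) (by norm_num) (by norm_num) (by norm_num)
      · have hF := K1b.f_t_one_3 (t := t) (k := k) (by first | (refine le_trans ?_ t0; norm_num; done) | linarith only [t0, t1, s0, s1, k0, k1] | linarith) (by first | (refine le_trans t1 ?_; norm_num; done) | linarith only [t0, t1, s0, s1, k0, k1] | linarith) (by first | (refine le_trans ?_ k0; norm_num; done) | linarith only [t0, t1, s0, s1, k0, k1] | linarith) (by first | (refine le_trans k1 ?_; norm_num; done) | linarith only [t0, t1, s0, s1, k0, k1] | linarith) (by first | (refine le_trans s1 ?_; norm_num; done) | linarith only [t0, t1, s0, s1, k0, k1] | linarith) (by first | (refine le_trans ?_ s0; norm_num; done) | linarith only [t0, t1, s0, s1, k0, k1] | linarith)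
        exact K1b.core2 (c := 7 / 25) (c' := 9 / 50) (X := 4 / 5) (x := x) (w := w) (t := t) (k := k) (G := G) (s := 23 / 50)
          (β := 43 / 20) (γ := 1309 / 500) (a := -13 / 100) (a0 := 1451 / 5000) (a1 := -1021 / 1000) (c1 := 19 / 100) (U := 1)
          (by norm_num) (by first | (refine le_trans ?_ hx; norm_num; done) | (refine le_trans ?_ h95; norm_num; done) | linarith) hw hxw hF
          (K1b.R_t_one_3_0 (w := w) (by first | (refine le_trans ?_ hw; norm_num; done) | (refine le_trans ?_ h; norm_num; done) | linarith)
            (by first | (refine le_trans h ?_; norm_num; done) | linarith only [hxw, h95] | linarith only [hxw, hx] | linarith))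
          (le_trans (le_of_eq (by ring)) hE) (by norm_num) (by norm_num) (by norm_num) (by norm_num)
  · obtain rfl : Cc = .two := hC
    simp only [cw, EB, eU] at t0 t1 s0 s1 k0 k1 hE
    simp only [cT, cN, be, al]
    rw [show (28 : ℝ) / 100 = 7 / 25 by norm_num]
    have hF := K1b.f_t_two_0 (t := t) (k := k) (by first | (refine le_trans ?_ t0; norm_num; done) | linarith only [t0, t1, s0, s1, k0, k1] | linarith) (by first | (refine le_trans t1 ?_; norm_num; done) | linarith only [t0, t1, s0, s1, k0, k1] | linarith) (by first | (refine le_trans ?_ k0; norm_num; done) | linarith only [t0, t1, s0, s1, k0, k1] | linarith) (by first | (refine le_trans k1 ?_; norm_num; done) | linarith only [t0, t1, s0, s1, k0, k1] | linarith) (by first | (refine le_trans s1 ?_; norm_num; done) | linarith only [t0, t1, s0, s1, k0, k1] | linarith) (by first | (refine le_trans ?_ s0; norm_num; done) | linarith only [t0, t1, s0, s1, k0, k1] | linarith)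
    exact K1b.core2 (c := 7 / 25) (c' := 1 / 4) (X := 4 / 5) (x := x) (w := w) (t := t) (k := k) (G := G) (s := 53 / 100)
      (β := 43 / 20) (γ := 1571 / 1000) (a := -13 / 100) (a0 := 53 / 625) (a1 := -37 / 250) (c1 := 11 / 50) (U := 1)
      (by norm_num) (by first | (refine le_trans ?_ hx; norm_num; done) | (refine le_trans ?_ h95; norm_num; done) | linarith) hw hxw hF
      (K1b.R_t_two_0_0 (w := w) (by first | (refine le_trans ?_ hw; norm_num; done) | (refine le_trans ?_ h; norm_num; done) | linarith)
        (by first | (refine le_trans h ?_; norm_num; done) | linarith only [hxw, h95] | linarith only [hxw, hx] | linarith))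
      (le_trans (le_of_eq (by ring)) hE) (by norm_num) (by norm_num) (by norm_num) (by norm_num)
  · obtain rfl : Cc = .twoE := hC
    simp only [cw, EB, eU] at t0 t1 s0 s1 k0 k1 hE
    simp only [cT, cN, be, al]
    rw [show (28 : ℝ) / 100 = 7 / 25 by norm_num]
    have hF := K1b.f_t_twoE_0 (t := t) (k := k) (by first | (refine le_trans ?_ t0; norm_num; done) | linarith only [t0, t1, s0, s1, k0, k1] | linarith) (by first | (refine le_trans t1 ?_; norm_num; done) | linarith only [t0, t1, s0, s1, k0, k1] | linarith) (by first | (refine le_trans ?_ k0; norm_num; done) | linarith only [t0, t1, s0, s1, k0, k1] | linarith) (by first | (refine le_trans k1 ?_; norm_num; done) | linarith only [t0, t1, s0, s1, k0, k1] | linarith) (by first | (refine le_trans s1 ?_; norm_num; done) | linarith only [t0, t1, s0, s1, k0, k1] | linarith) (by first | (refine le_trans ?_ s0; norm_num; done) | linarith only [t0, t1, s0, s1, k0, k1] | linarith)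
    exact K1b.core2 (c := 7 / 25) (c' := 11 / 50) (X := 4 / 5) (x := x) (w := w) (t := t) (k := k) (G := G) (s := 1 / 2)
      (β := 43 / 20) (γ := 1131 / 500) (a := -13 / 100) (a0 := 309 / 2000) (a1 := 0 / 1) (c1 := 6 / 25) (U := 1)
      (by norm_num) (by first | (refine le_trans ?_ hx; norm_num; done) | (refine le_trans ?_ h95; norm_num; done) | linarith) hw hxw hF
      (K1b.R_t_twoE_0_0 (w := w) (by first | (refine le_trans ?_ hw; norm_num; done) | (refine le_trans ?_ h; norm_num; done) | linarith)
        (by first | (refine le_trans h ?_; norm_num; done) | linarith only [hxw, h95] | linarith only [hxw, hx] | linarith))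
      (le_trans (le_of_eq (by ring)) hE) (by norm_num) (by norm_num) (by norm_num) (by norm_num)
  · obtain rfl : Cc = .three := hC
    simp only [cw, EB, eU] at t0 t1 s0 s1 k0 k1 hE
    simp only [cT, cN, be, al]
    rw [show (28 : ℝ) / 100 = 7 / 25 by norm_num]
    rcases le_total w (4 / 25) with h | h
    · replace hE := hE.1 h
      have hF := K1b.f_t_threeA_0 (t := t) (k := k) (by first | (refine le_trans ?_ t0; norm_num; done) | linarith only [t0, t1, s0, s1, k0, k1] | linarith) (by first | (refine le_trans t1 ?_; norm_num; done) | linarith only [t0, t1, s0, s1, k0, k1] | linarith) (by first | (refine le_trans ?_ k0; norm_num; done) | linarith only [t0, t1, s0, s1, k0, k1] | linarith) (by first | (refine le_trans k1 ?_; norm_num; done) | linarith only [t0, t1, s0, s1, k0, k1] | linarith) (by first | (refine le_trans s1 ?_; norm_num; done) | linarith only [t0, t1, s0, s1, k0, k1] | linarith) (by first | (refine le_trans ?_ s0; norm_num; done) | linarith only [t0, t1, s0, s1, k0, k1] | linarith)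
      exact K1b.core2 (c := 7 / 25) (c' := 3 / 20) (X := 4 / 5) (x := x) (w := w) (t := t) (k := k) (G := G) (s := 43 / 100)
        (β := 43 / 20) (γ := 851 / 1000) (a := -13 / 100) (a0 := 62 / 625) (a1 := -227 / 1000) (c1 := 97 / 1000) (U := 1)
        (by norm_num) (by first | (refine le_trans ?_ hx; norm_num; done) | (refine le_trans ?_ h95; norm_num; done) | linarith) hw hxw hF
        (K1b.R_t_threeA_0_0 (w := w) (by first | (refine le_trans ?_ hw; norm_num; done) | (refine le_trans ?_ h; norm_num; done) | linarith)
          (by first | (refine le_trans h ?_; norm_num; done) | linarith only [hxw, h95] | linarith only [hxw, hx] | linarith))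
        (le_trans (le_of_eq (by ring)) hE) (by norm_num) (by norm_num) (by norm_num) (by norm_num)
    · replace hE := hE.2 h
      have hF := K1b.f_t_threeA_1 (t := t) (k := k) (by first | (refine le_trans ?_ t0; norm_num; done) | linarith only [t0, t1, s0, s1, k0, k1] | linarith) (by first | (refine le_trans t1 ?_; norm_num; done) | linarith only [t0, t1, s0, s1, k0, k1] | linarith) (by first | (refine le_trans ?_ k0; norm_num; done) | linarith only [t0, t1, s0, s1, k0, k1] | linarith) (by first | (refine le_trans k1 ?_; norm_num; done) | linarith only [t0, t1, s0, s1, k0, k1] | linarith) (by first | (refine le_trans s1 ?_; norm_num; done) | linarith only [t0, t1, s0, s1, k0, k1] | linarith) (by first | (refine le_trans ?_ s0; norm_num; done) | linarith only [t0, t1, s0, s1, k0, k1] | linarith)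
      exact K1b.core2 (c := 7 / 25) (c' := 3 / 20) (X := 4 / 5) (x := x) (w := w) (t := t) (k := k) (G := G) (s := 43 / 100)
        (β := 43 / 20) (γ := 113 / 200) (a := -13 / 100) (a0 := 1289 / 5000) (a1 := -553 / 500) (c1 := 13 / 200) (U := 1)
        (by norm_num) (by first | (refine le_trans ?_ hx; norm_num; done) | (refine le_trans ?_ h95; norm_num; done) | linarith) hw hxw hF
        (K1b.R_t_threeA_1_0 (w := w) (by first | (refine le_trans ?_ hw; norm_num; done) | (refine le_trans ?_ h; norm_num; done) | linarith)
          (by first | (refine le_trans h ?_; norm_num; done) | linarith only [hxw, h95] | linarith only [hxw, hx] | linarith))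
        (le_trans (le_of_eq (by ring)) hE) (by norm_num) (by norm_num) (by norm_num) (by norm_num)
  · obtain rfl : Cc = .three := hC
    simp only [cw, EB, eU] at t0 t1 s0 s1 k0 k1 hE
    simp only [cT, cN, be, al]
    rw [show (28 : ℝ) / 100 = 7 / 25 by norm_num]
    have hF := K1b.f_t_threeK_0 (t := t) (k := k) (by first | (refine le_trans ?_ t0; norm_num; done) | linarith only [t0, t1, s0, s1, k0, k1] | linarith) (by first | (refine le_trans t1 ?_; norm_num; done) | linarith only [t0, t1, s0, s1, k0, k1] | linarith) (by first | (refine le_trans ?_ k0; norm_num; done) | linarith only [t0, t1, s0, s1, k0, k1] | linarith) (by first | (refine le_trans k1 ?_; norm_num; done) | linarith only [t0, t1, s0, s1, k0, k1] | linarith) (by first | (refine le_trans s1 ?_; norm_num; done) | linarith only [t0, t1, s0, s1, k0, k1] | linarith) (by first | (refine le_trans ?_ s0; norm_num; done) | linarith only [t0, t1, s0, s1, k0, k1] | linarith)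
    exact K1b.core2 (c := 7 / 25) (c' := 9 / 50) (X := 4 / 5) (x := x) (w := w) (t := t) (k := k) (G := G) (s := 23 / 50)
      (β := 43 / 20) (γ := 353 / 250) (a := -13 / 100) (a0 := 7 / 625) (a1 := 97 / 1000) (c1 := 4 / 25) (U := 1)
      (by norm_num) (by first | (refine le_trans ?_ hx; norm_num; done) | (refine le_trans ?_ h95; norm_num; done) | linarith) hw hxw hF
      (K1b.R_t_threeK_0_0 (w := w) (by first | (refine le_trans ?_ hw; norm_num; done) | (refine le_trans ?_ h; norm_num; done) | linarith)
        (by first | (refine le_trans h ?_; norm_num; done) | linarith only [hxw, h95] | linarith only [hxw, hx] | linarith))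
      (le_trans (le_of_eq (by ring)) hE) (by norm_num) (by norm_num) (by norm_num) (by norm_num)
  · obtain rfl : Cc = .threeE := hC
    simp only [cw, EB, eU] at t0 t1 s0 s1 k0 k1 hE
    simp only [cT, cN, be, al]
    rw [show (28 : ℝ) / 100 = 7 / 25 by norm_num]
    have hF := K1b.f_t_threeE_0 (t := t) (k := k) (by first | (refine le_trans ?_ t0; norm_num; done) | linarith only [t0, t1, s0, s1, k0, k1] | linarith) (by first | (refine le_trans t1 ?_; norm_num; done) | linarith only [t0, t1, s0, s1, k0, k1] | linarith) (by first | (refine le_trans ?_ k0; norm_num; done) | linarith only [t0, t1, s0, s1, k0, k1] | linarith) (by first | (refine le_trans k1 ?_; norm_num; done) | linarith only [t0, t1, s0, s1, k0, k1] | linarith) (by first | (refine le_trans s1 ?_; norm_num; done) | linarith only [t0, t1, s0, s1, k0, k1] | linarith) (by first | (refine le_trans ?_ s0; norm_num; done) | linarith only [t0, t1, s0, s1, k0, k1] | linarith)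
    exact K1b.core2 (c := 7 / 25) (c' := 11 / 50) (X := 4 / 5) (x := x) (w := w) (t := t) (k := k) (G := G) (s := 1 / 2)
      (β := 43 / 20) (γ := 243 / 200) (a := -13 / 100) (a0 := 269 / 2000) (a1 := 0 / 1) (c1 := 9 / 50) (U := 1)
      (by norm_num) (by first | (refine le_trans ?_ hx; norm_num; done) | (refine le_trans ?_ h95; norm_num; done) | linarith) hw hxw hF
      (K1b.R_t_threeE_0_0 (w := w) (by first | (refine le_trans ?_ hw; norm_num; done) | (refine le_trans ?_ h; norm_num; done) | linarith)
        (by first | (refine le_trans h ?_; norm_num; done) | linarith only [hxw, h95] | linarith only [hxw, hx] | linarith))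
      (le_trans (le_of_eq (by ring)) hE) (by norm_num) (by norm_num) (by norm_num) (by norm_num)
  · obtain rfl : Cc = .ring := hC
    simp only [cw, EB, eU] at t0 t1 s0 s1 k0 k1 hE
    simp only [cT, cN, be, al]
    rw [show (28 : ℝ) / 100 = 7 / 25 by norm_num]
    rcases le_total w (7 / 50) with h | h
    · replace hE := hE.1 h
      have hF := K1b.f_t_ring_0 (t := t) (k := k) (by first | (refine le_trans ?_ t0; norm_num; done) | linarith only [t0, t1, s0, s1, k0, k1] | linarith) (by first | (refine le_trans t1 ?_; norm_num; done) | linarith only [t0, t1, s0, s1, k0, k1] | linarith) (by first | (refine le_trans ?_ k0; norm_num; done) | linarith only [t0, t1, s0, s1, k0, k1] | linarith) (by first | (refine le_trans k1 ?_; norm_num; done) | linarith only [t0, t1, s0, s1, k0, k1] | linarith) (by first | (refine le_trans s1 ?_; norm_num; done) | linarith only [t0, t1, s0, s1, k0, k1] | linarith) (by first | (refine le_trans ?_ s0; norm_num; done) | linarith only [t0, t1, s0, s1, k0, k1] | linarith)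
      exact K1b.core2 (c := 7 / 25) (c' := 9 / 50) (X := 4 / 5) (x := x) (w := w) (t := t) (k := k) (G := G) (s := 23 / 50)
        (β := 43 / 20) (γ := 839 / 500) (a := -13 / 100) (a0 := -67 / 1250) (a1 := 543 / 1000) (c1 := 7 / 40) (U := 1)
        (by norm_num) (by first | (refine le_trans ?_ hx; norm_num; done) | (refine le_trans ?_ h95; norm_num; done) | linarith) hw hxw hF
        (K1b.R_t_ring_0_0 (w := w) (by first | (refine le_trans ?_ hw; norm_num; done) | (refine le_trans ?_ h; norm_num; done) | linarith)
          (by first | (refine le_trans h ?_; norm_num; done) | linarith only [hxw, h95] | linarith only [hxw, hx] | linarith))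
        (le_trans (le_of_eq (by ring)) hE) (by norm_num) (by norm_num) (by norm_num) (by norm_num)
    · replace hE := hE.2 h
      have hF := K1b.f_t_ring_1 (t := t) (k := k) (by first | (refine le_trans ?_ t0; norm_num; done) | linarith only [t0, t1, s0, s1, k0, k1] | linarith) (by first | (refine le_trans t1 ?_; norm_num; done) | linarith only [t0, t1, s0, s1, k0, k1] | linarith) (by first | (refine le_trans ?_ k0; norm_num; done) | linarith only [t0, t1, s0, s1, k0, k1] | linarith) (by first | (refine le_trans k1 ?_; norm_num; done) | linarith only [t0, t1, s0, s1, k0, k1] | linarith) (by first | (refine le_trans s1 ?_; norm_num; done) | linarith only [t0, t1, s0, s1, k0, k1] | linarith) (by first | (refine le_trans ?_ s0; norm_num; done) | linarith only [t0, t1, s0, s1, k0, k1] | linarith)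
      exact K1b.core2 (c := 7 / 25) (c' := 9 / 50) (X := 4 / 5) (x := x) (w := w) (t := t) (k := k) (G := G) (s := 23 / 50)
        (β := 43 / 20) (γ := 1397 / 1000) (a := -13 / 100) (a0 := 1291 / 10000) (a1 := -18 / 25) (c1 := 18 / 125) (U := 1)
        (by norm_num) (by first | (refine le_trans ?_ hx; norm_num; done) | (refine le_trans ?_ h95; norm_num; done) | linarith) hw hxw hF
        (K1b.R_t_ring_1_0 (w := w) (by first | (refine le_trans ?_ hw; norm_num; done) | (refine le_trans ?_ h; norm_num; done) | linarith)
          (by first | (refine le_trans h ?_; norm_num; done) | linarith only [hxw, h95] | linarith only [hxw, hx] | linarith))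
        (le_trans (le_of_eq (by ring)) hE) (by norm_num) (by norm_num) (by norm_num) (by norm_num)
  · have hh : -9 / 500 ≤ t ∧ t ≤ 197 / 2000 ∧ -93 / 1000 ≤ k ∧ k ≤ 29 / 200 := by
      clear hE hx
      cases Cc
      · simp only [cw, hbox] at t0 t1 k0 k1
        exact ⟨by linarith, by linarith, by linarith, by linarith⟩
      · simp only [cw, hbox] at t0 t1 k0 k1
        exact ⟨by linarith, by linarith, by linarith, by linarith⟩
      · simp only [cw, hbox] at t0 t1 k0 k1
        exact ⟨by linarith, by linarith, by linarith, by linarith⟩
      · simp only [cw, hbox] at t0 t1 k0 k1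
        exact ⟨by linarith, by linarith, by linarith, by linarith⟩
      · simp only [cw, hbox] at t0 t1 k0 k1
        exact ⟨by linarith, by linarith, by linarith, by linarith⟩
      · simp only [cw, hbox] at t0 t1 k0 k1
        exact ⟨by linarith, by linarith, by linarith, by linarith⟩
    obtain ⟨t0, t1, k0, k1⟩ := hh
    simp only [EB, eU] at hE
    simp only [cT, cN, be, al]
    rw [show (28 : ℝ) / 100 = 7 / 25 by norm_num]
    have hF := K1b.f_t_touched_0 (t := t) (k := k) (by first | (refine le_trans ?_ t0; norm_num; done) | linarith only [t0, t1, s0, s1, k0, k1] | linarith) (by first | (refine le_trans t1 ?_; norm_num; done) | linarith only [t0, t1, s0, s1, k0, k1] | linarith) (by first | (refine le_trans ?_ k0; norm_num; done) | linarith only [t0, t1, s0, s1, k0, k1] | linarith) (by first | (refine le_trans k1 ?_; norm_num; done) | linarith only [t0, t1, s0, s1, k0, k1] | linarith)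
    exact K1b.core2 (c := 7 / 25) (c' := 1 / 5) (X := 4 / 5) (x := x) (w := w) (t := t) (k := k) (G := G) (s := 12 / 25)
      (β := 43 / 20) (γ := 59 / 25) (a := -13 / 100) (a0 := 0 / 1) (a1 := 0 / 1) (c1 := 11 / 50) (U := 0)
      (by norm_num) (by first | (refine le_trans ?_ hx; norm_num; done) | (refine le_trans ?_ h95; norm_num; done) | linarith) hw hxw hF
      (K1b.R_t_touched_0_0 (w := w) (by first | (refine le_trans ?_ hw; norm_num; done) | (refine le_trans ?_ h; norm_num; done) | linarith)
        (by first | (refine le_trans h ?_; norm_num; done) | linarith only [hxw, h95] | linarith only [hxw, hx] | linarith))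
      (le_trans (le_of_eq (by ring)) hE) (by norm_num) (by norm_num) (by norm_num) (by norm_num)

/-- **K1, `B = .twoE`** -/
theorem side_one_twoE {Cc : Cl} {C : Ct} (hC : C.ok Cc) {x w t k G : ℝ}
    (hx : X0 .one .twoE ≤ x) (hw : 0 ≤ w) (hxw : x + w ≤ 1)
    (t0 : (cw Cc .twoE).t0 ≤ t) (t1 : t ≤ (cw Cc .twoE).t1)
    (s0 : (cw Cc .twoE).s0 ≤ t + k) (s1 : t + k ≤ (cw Cc .twoE).s1)
    (k0 : (cw .twoE Cc).t0 ≤ k) (k1 : k ≤ (cw .twoE Cc).t1)
    (hbig : ¬ (big .twoE ∧ big Cc)) (hCo : Cc = .one → -(2 / 25) ≤ k)
    (hE : EB .one C w (-k) G) :
    al .one .twoE Cc x ≤ V1 ⟨cT .one .twoE, t⟩ ⟨cN C, k⟩ - V1 ⟨x, 0⟩ ⟨w, 0⟩ + G +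
      be .one .twoE * t := by
  have eU : UU ⟨w, 0⟩ = uu w 0 := rfl
  simp only [X0] at hx
  cases C
  · obtain rfl : Cc = .one := hC
    simp only [cw, EB, eU] at t0 t1 s0 s1 k0 k1 hE
    simp only [cT, cN, be, al]
    have k0 := hCo rfl
    rw [show (28 : ℝ) / 100 = 7 / 25 by norm_num]
    rcases le_total w (9 / 50) with h | h
    · rcases hE.1 h with hE | hE
      · have hF := K1b.f_e_one_0 (t := t) (k := k) (by first | (refine le_trans ?_ t0; norm_num; done) | linarith only [t0, t1, s0, s1, k0, k1] | linarith) (by first | (refine le_trans t1 ?_; norm_num; done) | linarith only [t0, t1, s0, s1, k0, k1] | linarith) (by first | (refine le_trans ?_ k0; norm_num; done) | linarith only [t0, t1, s0, s1, k0, k1] | linarith) (by first | (refine le_trans k1 ?_; norm_num; done) | linarith only [t0, t1, s0, s1, k0, k1] | linarith) (by first | (refine le_trans s1 ?_; norm_num; done) | linarith only [t0, t1, s0, s1, k0, k1] | linarith) (by first | (refine le_trans ?_ s0; norm_num; done) | linarith only [t0, t1, s0, s1, k0, k1] | linarith)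
        split_ifs with h95
        · exact K1b.core2 (c := 7 / 25) (c' := 9 / 50) (X := 19 / 20) (x := x) (w := w) (t := t) (k := k) (G := G) (s := 23 / 50)
            (β := 47 / 20) (γ := 3927 / 1250) (a := -1 / 10) (a0 := -11 / 1000) (a1 := 0 / 1) (c1 := 21 / 100) (U := 0)
            (by norm_num) (by first | (refine le_trans ?_ hx; norm_num; done) | (refine le_trans ?_ h95; norm_num; done) | linarith) hw hxw hF
            (K1b.R_e_one_0_1 (w := w) (by first | (refine le_trans ?_ hw; norm_num; done) | (refine le_trans ?_ h; norm_num; done) | linarith)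
              (by first | (refine le_trans h ?_; norm_num; done) | linarith only [hxw, h95] | linarith only [hxw, hx] | linarith))
            (le_trans (le_of_eq (by ring)) hE) (by norm_num) (by norm_num) (by norm_num) (by norm_num)
        · exact K1b.core2 (c := 7 / 25) (c' := 9 / 50) (X := 7 / 10) (x := x) (w := w) (t := t) (k := k) (G := G) (s := 23 / 50)
            (β := 47 / 20) (γ := 3927 / 1250) (a := -9 / 40) (a0 := -11 / 1000) (a1 := 0 / 1) (c1 := 21 / 100) (U := 0)
            (by norm_num) (by first | (refine le_trans ?_ hx; norm_num; done) | (refine le_trans ?_ h95; norm_num; done) | linarith) hw hxw hF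
            (K1b.R_e_one_0_0 (w := w) (by first | (refine le_trans ?_ hw; norm_num; done) | (refine le_trans ?_ h; norm_num; done) | linarith)
              (by first | (refine le_trans h ?_; norm_num; done) | linarith only [hxw, h95] | linarith only [hxw, hx] | linarith))
            (le_trans (le_of_eq (by ring)) hE) (by norm_num) (by norm_num) (by norm_num) (by norm_num)
      · have hF := K1b.f_e_one_1 (t := t) (k := k) (by first | (refine le_trans ?_ t0; norm_num; done) | linarith only [t0, t1, s0, s1, k0, k1] | linarith) (by first | (refine le_trans t1 ?_; norm_num; done) | linarith only [t0, t1, s0, s1, k0, k1] | linarith) (by first | (refine le_trans ?_ k0; norm_num; done) | linarith only [t0, t1, s0, s1, k0, k1] | linarith) (by first | (refine le_trans k1 ?_; norm_num; done) | linarith only [t0, t1, s0, s1, k0, k1] | linarith) (by first | (refine le_trans s1 ?_; norm_num; done) | linarith only [t0, t1, s0, s1, k0, k1] | linarith) (by first | (refine le_trans ?_ s0; norm_num; done) | linarith only [t0, t1, s0, s1, k0, k1] | linarith)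
        split_ifs with h95
        · exact K1b.core2 (c := 7 / 25) (c' := 9 / 50) (X := 19 / 20) (x := x) (w := w) (t := t) (k := k) (G := G) (s := 23 / 50)
            (β := 47 / 20) (γ := 821 / 500) (a := -1 / 10) (a0 := -163 / 5000) (a1 := 779 / 1000) (c1 := 21 / 100) (U := 1)
            (by norm_num) (by first | (refine le_trans ?_ hx; norm_num; done) | (refine le_trans ?_ h95; norm_num; done) | linarith) hw hxw hF
            (K1b.R_e_one_1_1 (w := w) (by first | (refine le_trans ?_ hw; norm_num; done) | (refine le_trans ?_ h; norm_num; done) | linarith)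
              (by first | (refine le_trans h ?_; norm_num; done) | linarith only [hxw, h95] | linarith only [hxw, hx] | linarith))
            (le_trans (le_of_eq (by ring)) hE) (by norm_num) (by norm_num) (by norm_num) (by norm_num)
        · exact K1b.core2 (c := 7 / 25) (c' := 9 / 50) (X := 7 / 10) (x := x) (w := w) (t := t) (k := k) (G := G) (s := 23 / 50)
            (β := 47 / 20) (γ := 821 / 500) (a := -9 / 40) (a0 := -163 / 5000) (a1 := 779 / 1000) (c1 := 21 / 100) (U := 1)
            (by norm_num) (by first | (refine le_trans ?_ hx; norm_num; done) | (refine le_trans ?_ h95; norm_num; done) | linarith) hw hxw hF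
            (K1b.R_e_one_1_0 (w := w) (by first | (refine le_trans ?_ hw; norm_num; done) | (refine le_trans ?_ h; norm_num; done) | linarith)
              (by first | (refine le_trans h ?_; norm_num; done) | linarith only [hxw, h95] | linarith only [hxw, hx] | linarith))
            (le_trans (le_of_eq (by ring)) hE) (by norm_num) (by norm_num) (by norm_num) (by norm_num)
    · rcases hE.2 h with hE | hE
      · have hF := K1b.f_e_one_2 (t := t) (k := k) (by first | (refine le_trans ?_ t0; norm_num; done) | linarith only [t0, t1, s0, s1, k0, k1] | linarith) (by first | (refine le_trans t1 ?_; norm_num; done) | linarith only [t0, t1, s0, s1, k0, k1] | linarith) (by first | (refine le_trans ?_ k0; norm_num; done) | linarith only [t0, t1, s0, s1, k0, k1] | linarith) (by first | (refine le_trans k1 ?_; norm_num; done) | linarith only [t0, t1, s0, s1, k0, k1] | linarith) (by first | (refine le_trans s1 ?_; norm_num; done) | linarith only [t0, t1, s0, s1, k0, k1] | linarith) (by first | (refine le_trans ?_ s0; norm_num; done) | linarith only [t0, t1, s0, s1, k0, k1] | linarith)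
        split_ifs with h95
        · exfalso
          linarith
        · exact K1b.core2 (c := 7 / 25) (c' := 9 / 50) (X := 7 / 10) (x := x) (w := w) (t := t) (k := k) (G := G) (s := 23 / 50)
            (β := 47 / 20) (γ := 1849 / 1000) (a := -9 / 40) (a0 := 164 / 625) (a1 := -921 / 1000) (c1 := 11 / 50) (U := 1)
            (by norm_num) (by first | (refine le_trans ?_ hx; norm_num; done) | (refine le_trans ?_ h95; norm_num; done) | linarith) hw hxw hF
            (K1b.R_e_one_2_0 (w := w) (by first | (refine le_trans ?_ hw; norm_num; done) | (refine le_trans ?_ h; norm_num; done) | linarith)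
              (by first | (refine le_trans h ?_; norm_num; done) | linarith only [hxw, h95] | linarith only [hxw, hx] | linarith))
            (le_trans (le_of_eq (by ring)) hE) (by norm_num) (by norm_num) (by norm_num) (by norm_num)
      · have hF := K1b.f_e_one_3 (t := t) (k := k) (by first | (refine le_trans ?_ t0; norm_num; done) | linarith only [t0, t1, s0, s1, k0, k1] | linarith) (by first | (refine le_trans t1 ?_; norm_num; done) | linarith only [t0, t1, s0, s1, k0, k1] | linarith) (by first | (refine le_trans ?_ k0; norm_num; done) | linarith only [t0, t1, s0, s1, k0, k1] | linarith) (by first | (refine le_trans k1 ?_; norm_num; done) | linarith only [t0, t1, s0, s1, k0, k1] | linarith) (by first | (refine le_trans s1 ?_; norm_num; done) | linarith only [t0, t1, s0, s1, k0, k1] | linarith) (by first | (refine le_trans ?_ s0; norm_num; done) | linarith only [t0, t1, s0, s1, k0, k1] | linarith)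
        split_ifs with h95
        · exfalso
          linarith
        · exact K1b.core2 (c := 7 / 25) (c' := 9 / 50) (X := 7 / 10) (x := x) (w := w) (t := t) (k := k) (G := G) (s := 23 / 50)
            (β := 47 / 20) (γ := 1309 / 500) (a := -9 / 40) (a0 := 1451 / 5000) (a1 := -1021 / 1000) (c1 := 23 / 100) (U := 1)
            (by norm_num) (by first | (refine le_trans ?_ hx; norm_num; done) | (refine le_trans ?_ h95; norm_num; done) | linarith) hw hxw hF
            (K1b.R_e_one_3_0 (w := w) (by first | (refine le_trans ?_ hw; norm_num; done) | (refine le_trans ?_ h; norm_num; done) | linarith)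
              (by first | (refine le_trans h ?_; norm_num; done) | linarith only [hxw, h95] | linarith only [hxw, hx] | linarith))
            (le_trans (le_of_eq (by ring)) hE) (by norm_num) (by norm_num) (by norm_num) (by norm_num)
  · obtain rfl : Cc = .two := hC
    simp only [cw, EB, eU] at t0 t1 s0 s1 k0 k1 hE
    simp only [cT, cN, be, al]
    rw [show (28 : ℝ) / 100 = 7 / 25 by norm_num]
    have hF := K1b.f_e_two_0 (t := t) (k := k) (by first | (refine le_trans ?_ t0; norm_num; done) | linarith only [t0, t1, s0, s1, k0, k1] | linarith) (by first | (refine le_trans t1 ?_; norm_num; done) | linarith only [t0, t1, s0, s1, k0, k1] | linarith) (by first | (refine le_trans ?_ k0; norm_num; done) | linarith only [t0, t1, s0, s1, k0, k1] | linarith) (by first | (refine le_trans k1 ?_; norm_num; done) | linarith only [t0, t1, s0, s1, k0, k1] | linarith) (by first | (refine le_trans s1 ?_; norm_num; done) | linarith only [t0, t1, s0, s1, k0, k1] | linarith) (by first | (refine le_trans ?_ s0; norm_num; done) | linarith only [t0, t1, s0, s1, k0, k1] | linarith)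
    split_ifs with h95
    · exact K1b.core2 (c := 7 / 25) (c' := 1 / 4) (X := 19 / 20) (x := x) (w := w) (t := t) (k := k) (G := G) (s := 53 / 100)
        (β := 47 / 20) (γ := 1571 / 1000) (a := -1 / 10) (a0 := 53 / 625) (a1 := -37 / 250) (c1 := 21 / 100) (U := 1)
        (by norm_num) (by first | (refine le_trans ?_ hx; norm_num; done) | (refine le_trans ?_ h95; norm_num; done) | linarith) hw hxw hF
        (K1b.R_e_two_0_1 (w := w) (by first | (refine le_trans ?_ hw; norm_num; done) | (refine le_trans ?_ h; norm_num; done) | linarith)
          (by first | (refine le_trans h ?_; norm_num; done) | linarith only [hxw, h95] | linarith only [hxw, hx] | linarith))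
        (le_trans (le_of_eq (by ring)) hE) (by norm_num) (by norm_num) (by norm_num) (by norm_num)
    · exact K1b.core2 (c := 7 / 25) (c' := 1 / 4) (X := 7 / 10) (x := x) (w := w) (t := t) (k := k) (G := G) (s := 53 / 100)
        (β := 47 / 20) (γ := 1571 / 1000) (a := -9 / 40) (a0 := 53 / 625) (a1 := -37 / 250) (c1 := 21 / 100) (U := 1)
        (by norm_num) (by first | (refine le_trans ?_ hx; norm_num; done) | (refine le_trans ?_ h95; norm_num; done) | linarith) hw hxw hF
        (K1b.R_e_two_0_0 (w := w) (by first | (refine le_trans ?_ hw; norm_num; done) | (refine le_trans ?_ h; norm_num; done) | linarith)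
          (by first | (refine le_trans h ?_; norm_num; done) | linarith only [hxw, h95] | linarith only [hxw, hx] | linarith))
        (le_trans (le_of_eq (by ring)) hE) (by norm_num) (by norm_num) (by norm_num) (by norm_num)
  · obtain rfl : Cc = .twoE := hC
    simp only [cw, EB, eU] at t0 t1 s0 s1 k0 k1 hE
    simp only [cT, cN, be, al]
    rw [show (28 : ℝ) / 100 = 7 / 25 by norm_num]
    have hF := K1b.f_e_twoE_0 (t := t) (k := k) (by first | (refine le_trans ?_ t0; norm_num; done) | linarith only [t0, t1, s0, s1, k0, k1] | linarith) (by first | (refine le_trans t1 ?_; norm_num; done) | linarith only [t0, t1, s0, s1, k0, k1] | linarith) (by first | (refine le_trans ?_ k0; norm_num; done) | linarith only [t0, t1, s0, s1, k0, k1] | linarith) (by first | (refine le_trans k1 ?_; norm_num; done) | linarith only [t0, t1, s0, s1, k0, k1] | linarith) (by first | (refine le_trans s1 ?_; norm_num; done) | linarith only [t0, t1, s0, s1, k0, k1] | linarith) (by first | (refine le_trans ?_ s0; norm_num; done) | linarith only [t0, t1, s0, s1, k0, k1] | linarith)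
    split_ifs with h95
    · exact K1b.core2 (c := 7 / 25) (c' := 11 / 50) (X := 19 / 20) (x := x) (w := w) (t := t) (k := k) (G := G) (s := 1 / 2)
        (β := 47 / 20) (γ := 1131 / 500) (a := -1 / 10) (a0 := 309 / 2000) (a1 := 0 / 1) (c1 := 1 / 4) (U := 1)
        (by norm_num) (by first | (refine le_trans ?_ hx; norm_num; done) | (refine le_trans ?_ h95; norm_num; done) | linarith) hw hxw hF
        (K1b.R_e_twoE_0_1 (w := w) (by first | (refine le_trans ?_ hw; norm_num; done) | (refine le_trans ?_ h; norm_num; done) | linarith)
          (by first | (refine le_trans h ?_; norm_num; done) | linarith only [hxw, h95] | linarith only [hxw, hx] | linarith))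
        (le_trans (le_of_eq (by ring)) hE) (by norm_num) (by norm_num) (by norm_num) (by norm_num)
    · exact K1b.core2 (c := 7 / 25) (c' := 11 / 50) (X := 7 / 10) (x := x) (w := w) (t := t) (k := k) (G := G) (s := 1 / 2)
        (β := 47 / 20) (γ := 1131 / 500) (a := -9 / 40) (a0 := 309 / 2000) (a1 := 0 / 1) (c1 := 1 / 4) (U := 1)
        (by norm_num) (by first | (refine le_trans ?_ hx; norm_num; done) | (refine le_trans ?_ h95; norm_num; done) | linarith) hw hxw hF
        (K1b.R_e_twoE_0_0 (w := w) (by first | (refine le_trans ?_ hw; norm_num; done) | (refine le_trans ?_ h; norm_num; done) | linarith)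
          (by first | (refine le_trans h ?_; norm_num; done) | linarith only [hxw, h95] | linarith only [hxw, hx] | linarith))
        (le_trans (le_of_eq (by ring)) hE) (by norm_num) (by norm_num) (by norm_num) (by norm_num)
  · obtain rfl : Cc = .three := hC
    simp only [cw, EB, eU] at t0 t1 s0 s1 k0 k1 hE
    simp only [cT, cN, be, al]
    rw [show (28 : ℝ) / 100 = 7 / 25 by norm_num]
    rcases le_total w (4 / 25) with h | h
    · replace hE := hE.1 h
      have hF := K1b.f_e_threeA_0 (t := t) (k := k) (by first | (refine le_trans ?_ t0; norm_num; done) | linarith only [t0, t1, s0, s1, k0, k1] | linarith) (by first | (refine le_trans t1 ?_; norm_num; done) | linarith only [t0, t1, s0, s1, k0, k1] | linarith) (by first | (refine le_trans ?_ k0; norm_num; done) | linarith only [t0, t1, s0, s1, k0, k1] | linarith) (by first | (refine le_trans k1 ?_; norm_num; done) | linarith only [t0, t1, s0, s1, k0, k1] | linarith) (by first | (refine le_trans s1 ?_; norm_num; done) | linarith only [t0, t1, s0, s1, k0, k1] | linarith) (by first | (refine le_trans ?_ s0; norm_num; done) | linarith only [t0, t1,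 s0, s1, k0, k1] | linarith)
      split_ifs with h95
      · exact K1b.core2 (c := 7 / 25) (c' := 3 / 20) (X := 19 / 20) (x := x) (w := w) (t := t) (k := k) (G := G) (s := 43 / 100)
          (β := 47 / 20) (γ := 851 / 1000) (a := -1 / 10) (a0 := 62 / 625) (a1 := -227 / 1000) (c1 := 51 / 500) (U := 1)
          (by norm_num) (by first | (refine le_trans ?_ hx; norm_num; done) | (refine le_trans ?_ h95; norm_num; done) | linarith) hw hxw hF
          (K1b.R_e_threeA_0_1 (w := w) (by first | (refine le_trans ?_ hw; norm_num; done) | (refine le_trans ?_ h; norm_num; done) | linarith)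
            (by first | (refine le_trans h ?_; norm_num; done) | linarith only [hxw, h95] | linarith only [hxw, hx] | linarith))
          (le_trans (le_of_eq (by ring)) hE) (by norm_num) (by norm_num) (by norm_num) (by norm_num)
      · exact K1b.core2 (c := 7 / 25) (c' := 3 / 20) (X := 7 / 10) (x := x) (w := w) (t := t) (k := k) (G := G) (s := 43 / 100)
          (β := 47 / 20) (γ := 851 / 1000) (a := -9 / 40) (a0 := 62 / 625) (a1 := -227 / 1000) (c1 := 51 / 500) (U := 1)
          (by norm_num) (by first | (refine le_trans ?_ hx; norm_num; done) | (refine le_trans ?_ h95; norm_num; done) | linarith) hw hxw hF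
          (K1b.R_e_threeA_0_0 (w := w) (by first | (refine le_trans ?_ hw; norm_num; done) | (refine le_trans ?_ h; norm_num; done) | linarith)
            (by first | (refine le_trans h ?_; norm_num; done) | linarith only [hxw, h95] | linarith only [hxw, hx] | linarith))
          (le_trans (le_of_eq (by ring)) hE) (by norm_num) (by norm_num) (by norm_num) (by norm_num)
    · replace hE := hE.2 h
      have hF := K1b.f_e_threeA_1 (t := t) (k := k) (by first | (refine le_trans ?_ t0; norm_num; done) | linarith only [t0, t1, s0, s1, k0, k1] | linarith) (by first | (refine le_trans t1 ?_; norm_num; done) | linarith only [t0, t1, s0, s1, k0, k1] | linarith) (by first | (refine le_trans ?_ k0; norm_num; done) | linarith only [t0, t1, s0, s1, k0, k1] | linarith) (by first | (refine le_trans k1 ?_; norm_num; done) | linarith only [t0, t1, s0, s1, k0, k1] | linarith) (by first | (refine le_trans s1 ?_; norm_num; done) | linarith only [t0, t1, s0, s1, k0, k1] | linarith) (by first | (refine le_trans ?_ s0; norm_num; done) | linarith only [t0, t1, s0, s1, k0, k1] | linarith)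
      split_ifs with h95
      · exfalso
        linarith
      · exact K1b.core2 (c := 7 / 25) (c' := 3 / 20) (X := 7 / 10) (x := x) (w := w) (t := t) (k := k) (G := G) (s := 43 / 100)
          (β := 47 / 20) (γ := 113 / 200) (a := -9 / 40) (a0 := 1289 / 5000) (a1 := -553 / 500) (c1 := 91 / 1000) (U := 1)
          (by norm_num) (by first | (refine le_trans ?_ hx; norm_num; done) | (refine le_trans ?_ h95; norm_num; done) | linarith) hw hxw hF
          (K1b.R_e_threeA_1_0 (w := w) (by first | (refine le_trans ?_ hw; norm_num; done) | (refine le_trans ?_ h; norm_num; done) | linarith)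
            (by first | (refine le_trans h ?_; norm_num; done) | linarith only [hxw, h95] | linarith only [hxw, hx] | linarith))
          (le_trans (le_of_eq (by ring)) hE) (by norm_num) (by norm_num) (by norm_num) (by norm_num)
  · obtain rfl : Cc = .three := hC
    simp only [cw, EB, eU] at t0 t1 s0 s1 k0 k1 hE
    simp only [cT, cN, be, al]
    rw [show (28 : ℝ) / 100 = 7 / 25 by norm_num]
    have hF := K1b.f_e_threeK_0 (t := t) (k := k) (by first | (refine le_trans ?_ t0; norm_num; done) | linarith only [t0, t1, s0, s1, k0, k1] | linarith) (by first | (refine le_trans t1 ?_; norm_num; done) | linarith only [t0, t1, s0, s1, k0, k1] | linarith) (by first | (refine le_trans ?_ k0; norm_num; done) | linarith only [t0, t1, s0, s1, k0, k1] | linarith) (by first | (refine le_trans k1 ?_; norm_num; done) | linarith only [t0, t1, s0, s1, k0, k1] | linarith) (by first | (refine le_trans s1 ?_; norm_num; done) | linarith only [t0, t1, s0, s1, k0, k1] | linarith) (by first | (refine le_trans ?_ s0; norm_num; done) | linarith only [t0, t1, s0, s1, k0, k1] | linarith)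
    split_ifs with h95
    · exact K1b.core2 (c := 7 / 25) (c' := 9 / 50) (X := 19 / 20) (x := x) (w := w) (t := t) (k := k) (G := G) (s := 23 / 50)
        (β := 47 / 20) (γ := 353 / 250) (a := -1 / 10) (a0 := 7 / 625) (a1 := 97 / 1000) (c1 := 17 / 100) (U := 1)
        (by norm_num) (by first | (refine le_trans ?_ hx; norm_num; done) | (refine le_trans ?_ h95; norm_num; done) | linarith) hw hxw hF
        (K1b.R_e_threeK_0_1 (w := w) (by first | (refine le_trans ?_ hw; norm_num; done) | (refine le_trans ?_ h; norm_num; done) | linarith)
          (by first | (refine le_trans h ?_; norm_num; done) | linarith only [hxw, h95] | linarith only [hxw, hx] | linarith))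
        (le_trans (le_of_eq (by ring)) hE) (by norm_num) (by norm_num) (by norm_num) (by norm_num)
    · exact K1b.core2 (c := 7 / 25) (c' := 9 / 50) (X := 7 / 10) (x := x) (w := w) (t := t) (k := k) (G := G) (s := 23 / 50)
        (β := 47 / 20) (γ := 353 / 250) (a := -9 / 40) (a0 := 7 / 625) (a1 := 97 / 1000) (c1 := 17 / 100) (U := 1)
        (by norm_num) (by first | (refine le_trans ?_ hx; norm_num; done) | (refine le_trans ?_ h95; norm_num; done) | linarith) hw hxw hF
        (K1b.R_e_threeK_0_0 (w := w) (by first | (refine le_trans ?_ hw; norm_num; done) | (refine le_trans ?_ h; norm_num; done) | linarith)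
          (by first | (refine le_trans h ?_; norm_num; done) | linarith only [hxw, h95] | linarith only [hxw, hx] | linarith))
        (le_trans (le_of_eq (by ring)) hE) (by norm_num) (by norm_num) (by norm_num) (by norm_num)
  · obtain rfl : Cc = .threeE := hC
    simp only [cw, EB, eU] at t0 t1 s0 s1 k0 k1 hE
    simp only [cT, cN, be, al]
    rw [show (28 : ℝ) / 100 = 7 / 25 by norm_num]
    have hF := K1b.f_e_threeE_0 (t := t) (k := k) (by first | (refine le_trans ?_ t0; norm_num; done) | linarith only [t0, t1, s0, s1, k0, k1] | linarith) (by first | (refine le_trans t1 ?_; norm_num; done) | linarith only [t0, t1, s0, s1, k0, k1] | linarith) (by first | (refine le_trans ?_ k0; norm_num; done) | linarith only [t0, t1, s0, s1, k0, k1] | linarith) (by first | (refine le_trans k1 ?_; norm_num; done) | linarith only [t0, t1, s0, s1, k0, k1] | linarith) (by first | (refine le_trans s1 ?_; norm_num; done) | linarith only [t0, t1, s0, s1, k0, k1] | linarith) (by first | (refine le_trans ?_ s0; norm_num; done) | linarith only [t0, t1, s0, s1, k0, k1] | linarith)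
    split_ifs with h95
    · exact K1b.core2 (c := 7 / 25) (c' := 11 / 50) (X := 19 / 20) (x := x) (w := w) (t := t) (k := k) (G := G) (s := 1 / 2)
        (β := 47 / 20) (γ := 243 / 200) (a := -1 / 10) (a0 := 269 / 2000) (a1 := 0 / 1) (c1 := 19 / 100) (U := 1)
        (by norm_num) (by first | (refine le_trans ?_ hx; norm_num; done) | (refine le_trans ?_ h95; norm_num; done) | linarith) hw hxw hF
        (K1b.R_e_threeE_0_1 (w := w) (by first | (refine le_trans ?_ hw; norm_num; done) | (refine le_trans ?_ h; norm_num; done) | linarith)
          (by first | (refine le_trans h ?_; norm_num; done) | linarith only [hxw, h95] | linarith only [hxw, hx] | linarith))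
        (le_trans (le_of_eq (by ring)) hE) (by norm_num) (by norm_num) (by norm_num) (by norm_num)
    · exact K1b.core2 (c := 7 / 25) (c' := 11 / 50) (X := 7 / 10) (x := x) (w := w) (t := t) (k := k) (G := G) (s := 1 / 2)
        (β := 47 / 20) (γ := 243 / 200) (a := -9 / 40) (a0 := 269 / 2000) (a1 := 0 / 1) (c1 := 19 / 100) (U := 1)
        (by norm_num) (by first | (refine le_trans ?_ hx; norm_num; done) | (refine le_trans ?_ h95; norm_num; done) | linarith) hw hxw hF
        (K1b.R_e_threeE_0_0 (w := w) (by first | (refine le_trans ?_ hw; norm_num; done) | (refine le_trans ?_ h; norm_num; done) | linarith)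
          (by first | (refine le_trans h ?_; norm_num; done) | linarith only [hxw, h95] | linarith only [hxw, hx] | linarith))
        (le_trans (le_of_eq (by ring)) hE) (by norm_num) (by norm_num) (by norm_num) (by norm_num)
  · obtain rfl : Cc = .ring := hC
    simp only [cw, EB, eU] at t0 t1 s0 s1 k0 k1 hE
    simp only [cT, cN, be, al]
    rw [show (28 : ℝ) / 100 = 7 / 25 by norm_num]
    rcases le_total w (7 / 50) with h | h
    · replace hE := hE.1 h
      have hF := K1b.f_e_ring_0 (t := t) (k := k) (by first | (refine le_trans ?_ t0; norm_num; done) | linarith only [t0, t1, s0, s1, k0, k1] | linarith) (by first | (refine le_trans t1 ?_; norm_num; done) | linarith only [t0, t1, s0, s1, k0, k1] | linarith) (by first | (refine le_trans ?_ k0; norm_num; done) | linarith only [t0, t1, s0, s1, k0, k1] | linarith) (by first | (refine le_trans k1 ?_; norm_num; done) | linarith only [t0, t1, s0, s1, k0, k1] | linarith) (by first | (refine le_trans s1 ?_; norm_num; done) | linarith only [t0, t1, s0, s1, k0, k1] | linarith) (by first | (refine le_trans ?_ s0; norm_num; done) | linarith only [t0, t1, s0,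 s1, k0, k1] | linarith)
      split_ifs with h95
      · exact K1b.core2 (c := 7 / 25) (c' := 9 / 50) (X := 19 / 20) (x := x) (w := w) (t := t) (k := k) (G := G) (s := 23 / 50)
          (β := 47 / 20) (γ := 839 / 500) (a := -1 / 10) (a0 := -67 / 1250) (a1 := 543 / 1000) (c1 := 1 / 5) (U := 1)
          (by norm_num) (by first | (refine le_trans ?_ hx; norm_num; done) | (refine le_trans ?_ h95; norm_num; done) | linarith) hw hxw hF
          (K1b.R_e_ring_0_1 (w := w) (by first | (refine le_trans ?_ hw; norm_num; done) | (refine le_trans ?_ h; norm_num; done) | linarith)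
            (by first | (refine le_trans h ?_; norm_num; done) | linarith only [hxw, h95] | linarith only [hxw, hx] | linarith))
          (le_trans (le_of_eq (by ring)) hE) (by norm_num) (by norm_num) (by norm_num) (by norm_num)
      · exact K1b.core2 (c := 7 / 25) (c' := 9 / 50) (X := 7 / 10) (x := x) (w := w) (t := t) (k := k) (G := G) (s := 23 / 50)
          (β := 47 / 20) (γ := 839 / 500) (a := -9 / 40) (a0 := -67 / 1250) (a1 := 543 / 1000) (c1 := 1 / 5) (U := 1)
          (by norm_num) (by first | (refine le_trans ?_ hx; norm_num; done) | (refine le_trans ?_ h95; norm_num; done) | linarith) hw hxw hF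
          (K1b.R_e_ring_0_0 (w := w) (by first | (refine le_trans ?_ hw; norm_num; done) | (refine le_trans ?_ h; norm_num; done) | linarith)
            (by first | (refine le_trans h ?_; norm_num; done) | linarith only [hxw, h95] | linarith only [hxw, hx] | linarith))
          (le_trans (le_of_eq (by ring)) hE) (by norm_num) (by norm_num) (by norm_num) (by norm_num)
    · replace hE := hE.2 h
      have hF := K1b.f_e_ring_1 (t := t) (k := k) (by first | (refine le_trans ?_ t0; norm_num; done) | linarith only [t0, t1, s0, s1, k0, k1] | linarith) (by first | (refine le_trans t1 ?_; norm_num; done) | linarith only [t0, t1, s0, s1, k0, k1] | linarith) (by first | (refine le_trans ?_ k0; norm_num; done) | linarith only [t0, t1, s0, s1, k0, k1] | linarith) (by first | (refine le_trans k1 ?_; norm_num; done) | linarith only [t0, t1, s0, s1, k0, k1] | linarith) (by first | (refine le_trans s1 ?_; norm_num; done) | linarith only [t0, t1, s0, s1, k0, k1] | linarith) (by first | (refine le_trans ?_ s0; norm_num; done) | linarith only [t0, t1, s0, s1, k0, k1] | linarith)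
      split_ifs with h95
      · exfalso
        linarith
      · exact K1b.core2 (c := 7 / 25) (c' := 9 / 50) (X := 7 / 10) (x := x) (w := w) (t := t) (k := k) (G := G) (s := 23 / 50)
          (β := 47 / 20) (γ := 1397 / 1000) (a := -9 / 40) (a0 := 1291 / 10000) (a1 := -18 / 25) (c1 := 41 / 250) (U := 1)
          (by norm_num) (by first | (refine le_trans ?_ hx; norm_num; done) | (refine le_trans ?_ h95; norm_num; done) | linarith) hw hxw hF
          (K1b.R_e_ring_1_0 (w := w) (by first | (refine le_trans ?_ hw; norm_num; done) | (refine le_trans ?_ h; norm_num; done) | linarith)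
            (by first | (refine le_trans h ?_; norm_num; done) | linarith only [hxw, h95] | linarith only [hxw, hx] | linarith))
          (le_trans (le_of_eq (by ring)) hE) (by norm_num) (by norm_num) (by norm_num) (by norm_num)
  · have hh : -33 / 500 ≤ t ∧ t ≤ 1 / 1000 ∧ -33 / 1000 ≤ k ∧ k ≤ 79 / 500 := by
      clear hE hx
      cases Cc
      · simp only [cw, hbox] at t0 t1 k0 k1
        exact ⟨by linarith, by linarith, by linarith, by linarith⟩
      · simp only [cw, hbox] at t0 t1 k0 k1
        exact ⟨by linarith, by linarith, by linarith, by linarith⟩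
      · simp only [cw, hbox] at t0 t1 k0 k1
        exact ⟨by linarith, by linarith, by linarith, by linarith⟩
      · simp only [cw, hbox] at t0 t1 k0 k1
        exact ⟨by linarith, by linarith, by linarith, by linarith⟩
      · simp only [cw, hbox] at t0 t1 k0 k1
        exact ⟨by linarith, by linarith, by linarith, by linarith⟩
      · simp only [cw, hbox] at t0 t1 k0 k1
        exact ⟨by linarith, by linarith, by linarith, by linarith⟩
    obtain ⟨t0, t1, k0, k1⟩ := hh
    simp only [EB, eU] at hE
    simp only [cT, cN, be, al]
    rw [show (28 : ℝ) / 100 = 7 / 25 by norm_num]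
    have hF := K1b.f_e_touched_0 (t := t) (k := k) (by first | (refine le_trans ?_ t0; norm_num; done) | linarith only [t0, t1, s0, s1, k0, k1] | linarith) (by first | (refine le_trans t1 ?_; norm_num; done) | linarith only [t0, t1, s0, s1, k0, k1] | linarith) (by first | (refine le_trans ?_ k0; norm_num; done) | linarith only [t0, t1, s0, s1, k0, k1] | linarith) (by first | (refine le_trans k1 ?_; norm_num; done) | linarith only [t0, t1, s0, s1, k0, k1] | linarith)
    split_ifs with h95
    · exact K1b.core2 (c := 7 / 25) (c' := 1 / 5) (X := 19 / 20) (x := x) (w := w) (t := t) (k := k) (G := G) (s := 12 / 25)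
        (β := 47 / 20) (γ := 59 / 25) (a := -1 / 10) (a0 := 0 / 1) (a1 := 0 / 1) (c1 := 6 / 25) (U := 0)
        (by norm_num) (by first | (refine le_trans ?_ hx; norm_num; done) | (refine le_trans ?_ h95; norm_num; done) | linarith) hw hxw hF
        (K1b.R_e_touched_0_1 (w := w) (by first | (refine le_trans ?_ hw; norm_num; done) | (refine le_trans ?_ h; norm_num; done) | linarith)
          (by first | (refine le_trans h ?_; norm_num; done) | linarith only [hxw, h95] | linarith only [hxw, hx] | linarith))
        (le_trans (le_of_eq (by ring)) hE) (by norm_num) (by norm_num) (by norm_num) (by norm_num)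
    · exact K1b.core2 (c := 7 / 25) (c' := 1 / 5) (X := 7 / 10) (x := x) (w := w) (t := t) (k := k) (G := G) (s := 12 / 25)
        (β := 47 / 20) (γ := 59 / 25) (a := -9 / 40) (a0 := 0 / 1) (a1 := 0 / 1) (c1 := 6 / 25) (U := 0)
        (by norm_num) (by first | (refine le_trans ?_ hx; norm_num; done) | (refine le_trans ?_ h95; norm_num; done) | linarith) hw hxw hF
        (K1b.R_e_touched_0_0 (w := w) (by first | (refine le_trans ?_ hw; norm_num; done) | (refine le_trans ?_ h; norm_num; done) | linarith)
          (by first | (refine le_trans h ?_; norm_num; done) | linarith only [hxw, h95] | linarith only [hxw, hx] | linarith))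
        (le_trans (le_of_eq (by ring)) hE) (by norm_num) (by norm_num) (by norm_num) (by norm_num)

/-- **K1, `B = .threeE`** -/
theorem side_one_threeE {Cc : Cl} {C : Ct} (hC : C.ok Cc) {x w t k G : ℝ}
    (hx : X0 .one .threeE ≤ x) (hw : 0 ≤ w) (hxw : x + w ≤ 1)
    (t0 : (cw Cc .threeE).t0 ≤ t) (t1 : t ≤ (cw Cc .threeE).t1)
    (s0 : (cw Cc .threeE).s0 ≤ t + k) (s1 : t + k ≤ (cw Cc .threeE).s1)
    (k0 : (cw .threeE Cc).t0 ≤ k) (k1 : k ≤ (cw .threeE Cc).t1)
    (hbig : ¬ (big .threeE ∧ big Cc)) (hCo : Cc = .one → -(2 / 25) ≤ k)
    (hE : EB .one C w (-k) G) :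
    al .one .threeE Cc x ≤ V1 ⟨cT .one .threeE, t⟩ ⟨cN C, k⟩ - V1 ⟨x, 0⟩ ⟨w, 0⟩ + G +
      be .one .threeE * t := by
  have eU : UU ⟨w, 0⟩ = uu w 0 := rfl
  simp only [X0] at hx
  cases C
  · obtain rfl : Cc = .one := hC
    simp only [cw, EB, eU] at t0 t1 s0 s1 k0 k1 hE
    simp only [cT, cN, be, al]
    have k0 := hCo rfl
    rw [show (28 : ℝ) / 100 = 7 / 25 by norm_num]
    rcases le_total w (9 / 50) with h | h
    · rcases hE.1 h with hE | hE
      · have hF := K1b.f_h_one_0 (t := t) (k := k) (by first | (refine le_trans ?_ t0; norm_num; done) | linarith only [t0, t1, s0, s1, k0, k1] | linarith) (by first | (refine le_trans t1 ?_; norm_num; done) | linarith only [t0, t1, s0, s1, k0, k1] | linarith) (by first | (refine le_trans ?_ k0; norm_num; done) | linarith only [t0, t1, s0, s1, k0, k1] | linarith) (by first | (refine le_trans k1 ?_; norm_num; done) | linarith only [t0, t1, s0, s1, k0, k1] | linarith) (by first | (refine le_trans s1 ?_; norm_num; done) | linarith only [t0, t1, s0, s1, k0, k1] | linarith) (by first | (refine le_trans ?_ s0; norm_num; done) | linarith only [t0, t1, s0, s1, k0,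 k1] | linarith)
        exact K1b.core2 (c := 7 / 25) (c' := 9 / 50) (X := 3 / 5) (x := x) (w := w) (t := t) (k := k) (G := G) (s := 23 / 50)
          (β := 41 / 20) (γ := 3927 / 1250) (a := -3 / 20) (a0 := -11 / 1000) (a1 := 0 / 1) (c1 := 153 / 1000) (U := 0)
          (by norm_num) (by first | (refine le_trans ?_ hx; norm_num; done) | (refine le_trans ?_ h95; norm_num; done) | linarith) hw hxw hF
          (K1b.R_h_one_0_0 (w := w) (by first | (refine le_trans ?_ hw; norm_num; done) | (refine le_trans ?_ h; norm_num; done) | linarith)
            (by first | (refine le_trans h ?_; norm_num; done) | linarith only [hxw, h95] | linarith only [hxw, hx] | linarith))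
          (le_trans (le_of_eq (by ring)) hE) (by norm_num) (by norm_num) (by norm_num) (by norm_num)
      · have hF := K1b.f_h_one_1 (t := t) (k := k) (by first | (refine le_trans ?_ t0; norm_num; done) | linarith only [t0, t1, s0, s1, k0, k1] | linarith) (by first | (refine le_trans t1 ?_; norm_num; done) | linarith only [t0, t1, s0, s1, k0, k1] | linarith) (by first | (refine le_trans ?_ k0; norm_num; done) | linarith only [t0, t1, s0, s1, k0, k1] | linarith) (by first | (refine le_trans k1 ?_; norm_num; done) | linarith only [t0, t1, s0, s1, k0, k1] | linarith) (by first | (refine le_trans s1 ?_; norm_num; done) | linarith only [t0, t1, s0, s1, k0, k1] | linarith) (by first | (refine le_trans ?_ s0; norm_num; done) | linarith only [t0, t1, s0, s1, k0, k1] | linarith)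
        exact K1b.core2 (c := 7 / 25) (c' := 9 / 50) (X := 3 / 5) (x := x) (w := w) (t := t) (k := k) (G := G) (s := 23 / 50)
          (β := 41 / 20) (γ := 821 / 500) (a := -3 / 20) (a0 := -163 / 5000) (a1 := 779 / 1000) (c1 := 24 / 125) (U := 1)
          (by norm_num) (by first | (refine le_trans ?_ hx; norm_num; done) | (refine le_trans ?_ h95; norm_num; done) | linarith) hw hxw hF
          (K1b.R_h_one_1_0 (w := w) (by first | (refine le_trans ?_ hw; norm_num; done) | (refine le_trans ?_ h; norm_num; done) | linarith)
            (by first | (refine le_trans h ?_; norm_num; done) | linarith only [hxw, h95] | linarith only [hxw, hx] | linarith))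
          (le_trans (le_of_eq (by ring)) hE) (by norm_num) (by norm_num) (by norm_num) (by norm_num)
    · rcases hE.2 h with hE | hE
      · have hF := K1b.f_h_one_2 (t := t) (k := k) (by first | (refine le_trans ?_ t0; norm_num; done) | linarith only [t0, t1, s0, s1, k0, k1] | linarith) (by first | (refine le_trans t1 ?_; norm_num; done) | linarith only [t0, t1, s0, s1, k0, k1] | linarith) (by first | (refine le_trans ?_ k0; norm_num; done) | linarith only [t0, t1, s0, s1, k0, k1] | linarith) (by first | (refine le_trans k1 ?_; norm_num; done) | linarith only [t0, t1, s0, s1, k0, k1] | linarith) (by first | (refine le_trans s1 ?_; norm_num; done) | linarith only [t0, t1, s0, s1, k0, k1] | linarith) (by first | (refine le_trans ?_ s0; norm_num; done) | linarith only [t0, t1, s0, s1, k0, k1] | linarith)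
        exact K1b.core2 (c := 7 / 25) (c' := 9 / 50) (X := 3 / 5) (x := x) (w := w) (t := t) (k := k) (G := G) (s := 23 / 50)
          (β := 41 / 20) (γ := 1849 / 1000) (a := -3 / 20) (a0 := 164 / 625) (a1 := -921 / 1000) (c1 := 43 / 200) (U := 1)
          (by norm_num) (by first | (refine le_trans ?_ hx; norm_num; done) | (refine le_trans ?_ h95; norm_num; done) | linarith) hw hxw hF
          (K1b.R_h_one_2_0 (w := w) (by first | (refine le_trans ?_ hw; norm_num; done) | (refine le_trans ?_ h; norm_num; done) | linarith)
            (by first | (refine le_trans h ?_; norm_num; done) | linarith only [hxw, h95] | linarith only [hxw, hx] | linarith))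
          (le_trans (le_of_eq (by ring)) hE) (by norm_num) (by norm_num) (by norm_num) (by norm_num)
      · have hF := K1b.f_h_one_3 (t := t) (k := k) (by first | (refine le_trans ?_ t0; norm_num; done) | linarith only [t0, t1, s0, s1, k0, k1] | linarith) (by first | (refine le_trans t1 ?_; norm_num; done) | linarith only [t0, t1, s0, s1, k0, k1] | linarith) (by first | (refine le_trans ?_ k0; norm_num; done) | linarith only [t0, t1, s0, s1, k0, k1] | linarith) (by first | (refine le_trans k1 ?_; norm_num; done) | linarith only [t0, t1, s0, s1, k0, k1] | linarith) (by first | (refine le_trans s1 ?_; norm_num; done) | linarith only [t0, t1, s0, s1, k0, k1] | linarith) (by first | (refine le_trans ?_ s0; norm_num; done) | linarith only [t0, t1, s0, s1, k0, k1] | linarith)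
        exact K1b.core2 (c := 7 / 25) (c' := 9 / 50) (X := 3 / 5) (x := x) (w := w) (t := t) (k := k) (G := G) (s := 23 / 50)
          (β := 41 / 20) (γ := 1309 / 500) (a := -3 / 20) (a0 := 1451 / 5000) (a1 := -1021 / 1000) (c1 := 43 / 200) (U := 1)
          (by norm_num) (by first | (refine le_trans ?_ hx; norm_num; done) | (refine le_trans ?_ h95; norm_num; done) | linarith) hw hxw hF
          (K1b.R_h_one_3_0 (w := w) (by first | (refine le_trans ?_ hw; norm_num; done) | (refine le_trans ?_ h; norm_num; done) | linarith)
            (by first | (refine le_trans h ?_; norm_num; done) | linarith only [hxw, h95] | linarith only [hxw, hx] | linarith))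
          (le_trans (le_of_eq (by ring)) hE) (by norm_num) (by norm_num) (by norm_num) (by norm_num)
  · obtain rfl : Cc = .two := hC
    simp only [cw, EB, eU] at t0 t1 s0 s1 k0 k1 hE
    simp only [cT, cN, be, al]
    rw [show (28 : ℝ) / 100 = 7 / 25 by norm_num]
    have hF := K1b.f_h_two_0 (t := t) (k := k) (by first | (refine le_trans ?_ t0; norm_num; done) | linarith only [t0, t1, s0, s1, k0, k1] | linarith) (by first | (refine le_trans t1 ?_; norm_num; done) | linarith only [t0, t1, s0, s1, k0, k1] | linarith) (by first | (refine le_trans ?_ k0; norm_num; done) | linarith only [t0, t1, s0, s1, k0, k1] | linarith) (by first | (refine le_trans k1 ?_; norm_num; done) | linarith only [t0, t1, s0, s1, k0, k1] | linarith) (by first | (refine le_trans s1 ?_; norm_num; done) | linarith only [t0, t1, s0, s1, k0, k1] | linarith) (by first | (refine le_trans ?_ s0; norm_num; done) | linarith only [t0, t1, s0, s1, k0, k1] | linarith)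
    exact K1b.core2 (c := 7 / 25) (c' := 1 / 4) (X := 3 / 5) (x := x) (w := w) (t := t) (k := k) (G := G) (s := 53 / 100)
      (β := 41 / 20) (γ := 1571 / 1000) (a := -3 / 20) (a0 := 53 / 625) (a1 := -37 / 250) (c1 := 223 / 1000) (U := 1)
      (by norm_num) (by first | (refine le_trans ?_ hx; norm_num; done) | (refine le_trans ?_ h95; norm_num; done) | linarith) hw hxw hF
      (K1b.R_h_two_0_0 (w := w) (by first | (refine le_trans ?_ hw; norm_num; done) | (refine le_trans ?_ h; norm_num; done) | linarith)
        (by first | (refine le_trans h ?_; norm_num; done) | linarith only [hxw, h95] | linarith only [hxw, hx] | linarith))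
      (le_trans (le_of_eq (by ring)) hE) (by norm_num) (by norm_num) (by norm_num) (by norm_num)
  · obtain rfl : Cc = .twoE := hC
    simp only [cw, EB, eU] at t0 t1 s0 s1 k0 k1 hE
    simp only [cT, cN, be, al]
    rw [show (28 : ℝ) / 100 = 7 / 25 by norm_num]
    have hF := K1b.f_h_twoE_0 (t := t) (k := k) (by first | (refine le_trans ?_ t0; norm_num; done) | linarith only [t0, t1, s0, s1, k0, k1] | linarith) (by first | (refine le_trans t1 ?_; norm_num; done) | linarith only [t0, t1, s0, s1, k0, k1] | linarith) (by first | (refine le_trans ?_ k0; norm_num; done) | linarith only [t0, t1, s0, s1, k0, k1] | linarith) (by first | (refine le_trans k1 ?_; norm_num; done) | linarith only [t0, t1, s0, s1, k0, k1] | linarith) (by first | (refine le_trans s1 ?_; norm_num; done) | linarith only [t0, t1, s0, s1, k0, k1] | linarith) (by first | (refine le_trans ?_ s0; norm_num; done) | linarith only [t0, t1, s0, s1, k0, k1] | linarith)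
    exact K1b.core2 (c := 7 / 25) (c' := 11 / 50) (X := 3 / 5) (x := x) (w := w) (t := t) (k := k) (G := G) (s := 1 / 2)
      (β := 41 / 20) (γ := 1131 / 500) (a := -3 / 20) (a0 := 309 / 2000) (a1 := 0 / 1) (c1 := 23 / 100) (U := 1)
      (by norm_num) (by first | (refine le_trans ?_ hx; norm_num; done) | (refine le_trans ?_ h95; norm_num; done) | linarith) hw hxw hF
      (K1b.R_h_twoE_0_0 (w := w) (by first | (refine le_trans ?_ hw; norm_num; done) | (refine le_trans ?_ h; norm_num; done) | linarith)
        (by first | (refine le_trans h ?_; norm_num; done) | linarith only [hxw, h95] | linarith only [hxw, hx] | linarith))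
      (le_trans (le_of_eq (by ring)) hE) (by norm_num) (by norm_num) (by norm_num) (by norm_num)
  · exact absurd ⟨by simp [big], by rw [show Cc = .three from hC]; simp [big]⟩ hbig
  · exact absurd ⟨by simp [big], by rw [show Cc = .three from hC]; simp [big]⟩ hbig
  · exact absurd ⟨by simp [big], by rw [show Cc = .threeE from hC]; simp [big]⟩ hbig
  · exact absurd ⟨by simp [big], by rw [show Cc = .ring from hC]; simp [big]⟩ hbig
  · have hh : 1 / 100 ≤ t ∧ t ≤ 39 / 500 ∧ -61 / 1000 ≤ k ∧ k ≤ 91 / 1000 := by
      clear hE hx
      cases Cc
      · simp only [cw, hbox] at t0 t1 k0 k1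
        exact ⟨by linarith, by linarith, by linarith, by linarith⟩
      · simp only [cw, hbox] at t0 t1 k0 k1
        exact ⟨by linarith, by linarith, by linarith, by linarith⟩
      · simp only [cw, hbox] at t0 t1 k0 k1
        exact ⟨by linarith, by linarith, by linarith, by linarith⟩
      · exact absurd ⟨by simp [big], by simp [big]⟩ hbig
      · exact absurd ⟨by simp [big], by simp [big]⟩ hbig
      · exact absurd ⟨by simp [big], by simp [big]⟩ hbig
    obtain ⟨t0, t1, k0, k1⟩ := hh
    simp only [EB, eU] at hE
    simp only [cT, cN, be, al]
    rw [show (28 : ℝ) / 100 = 7 / 25 by norm_num]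
    have hF := K1b.f_h_touched_0 (t := t) (k := k) (by first | (refine le_trans ?_ t0; norm_num; done) | linarith only [t0, t1, s0, s1, k0, k1] | linarith) (by first | (refine le_trans t1 ?_; norm_num; done) | linarith only [t0, t1, s0, s1, k0, k1] | linarith) (by first | (refine le_trans ?_ k0; norm_num; done) | linarith only [t0, t1, s0, s1, k0, k1] | linarith) (by first | (refine le_trans k1 ?_; norm_num; done) | linarith only [t0, t1, s0, s1, k0, k1] | linarith)
    exact K1b.core2 (c := 7 / 25) (c' := 1 / 5) (X := 3 / 5) (x := x) (w := w) (t := t) (k := k) (G := G) (s := 12 / 25)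
      (β := 41 / 20) (γ := 59 / 25) (a := -3 / 20) (a0 := 0 / 1) (a1 := 0 / 1) (c1 := 21 / 100) (U := 0)
      (by norm_num) (by first | (refine le_trans ?_ hx; norm_num; done) | (refine le_trans ?_ h95; norm_num; done) | linarith) hw hxw hF
      (K1b.R_h_touched_0_0 (w := w) (by first | (refine le_trans ?_ hw; norm_num; done) | (refine le_trans ?_ h; norm_num; done) | linarith)
        (by first | (refine le_trans h ?_; norm_num; done) | linarith only [hxw, h95] | linarith only [hxw, hx] | linarith))
      (le_trans (le_of_eq (by ring)) hE) (by norm_num) (by norm_num) (by norm_num) (by norm_num)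

/-- **K1, `B = .ring`** -/
theorem side_one_ring {Cc : Cl} {C : Ct} (hC : C.ok Cc) {x w t k G : ℝ}
    (hx : X0 .one .ring ≤ x) (hw : 0 ≤ w) (hxw : x + w ≤ 1)
    (t0 : (cw Cc .ring).t0 ≤ t) (t1 : t ≤ (cw Cc .ring).t1)
    (s0 : (cw Cc .ring).s0 ≤ t + k) (s1 : t + k ≤ (cw Cc .ring).s1)
    (k0 : (cw .ring Cc).t0 ≤ k) (k1 : k ≤ (cw .ring Cc).t1)
    (hbig : ¬ (big .ring ∧ big Cc)) (hCo : Cc = .one → -(2 / 25) ≤ k)
    (hE : EB .one C w (-k) G) :
    al .one .ring Cc x ≤ V1 ⟨cT .one .ring, t⟩ ⟨cN C, k⟩ - V1 ⟨x, 0⟩ ⟨w, 0⟩ + G +
      be .one .ring * t := by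
  have eU : UU ⟨w, 0⟩ = uu w 0 := rfl
  simp only [X0] at hx
  cases C
  · obtain rfl : Cc = .one := hC
    simp only [cw, EB, eU] at t0 t1 s0 s1 k0 k1 hE
    simp only [cT, cN, be, al]
    have k0 := hCo rfl
    rcases le_total w (9 / 50) with h | h
    · rcases hE.1 h with hE | hE
      · have hF := K1b.f_r_one_0 (t := t) (k := k) (by first | (refine le_trans ?_ t0; norm_num; done) | linarith only [t0, t1, s0, s1, k0, k1] | linarith) (by first | (refine le_trans t1 ?_; norm_num; done) | linarith only [t0, t1, s0, s1, k0, k1] | linarith) (by first | (refine le_trans ?_ k0; norm_num; done) | linarith only [t0, t1, s0, s1, k0, k1] | linarith) (by first | (refine le_trans k1 ?_; norm_num; done) | linarith only [t0, t1, s0, s1, k0, k1] | linarith) (by first | (refine le_trans s1 ?_; norm_num; done) | linarith only [t0, t1, s0, s1, k0, k1] | linarith) (by first | (refine le_trans ?_ s0; norm_num; done) | linarith only [t0, t1, s0, s1, k0, k1] | linarith)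
        split_ifs with h95
        · exact K1b.core2 (c := 1 / 4) (c' := 9 / 50) (X := 19 / 20) (x := x) (w := w) (t := t) (k := k) (G := G) (s := 43 / 100)
            (β := 21 / 10) (γ := 3927 / 1250) (a := 1 / 50) (a0 := -11 / 1000) (a1 := 0 / 1) (c1 := 137 / 1000) (U := 0)
            (by norm_num) (by first | (refine le_trans ?_ hx; norm_num; done) | (refine le_trans ?_ h95; norm_num; done) | linarith) hw hxw hF
            (K1b.R_r_one_0_1 (w := w) (by first | (refine le_trans ?_ hw; norm_num; done) | (refine le_trans ?_ h; norm_num; done) | linarith)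
              (by first | (refine le_trans h ?_; norm_num; done) | linarith only [hxw, h95] | linarith only [hxw, hx] | linarith))
            (le_trans (le_of_eq (by ring)) hE) (by norm_num) (by norm_num) (by norm_num) (by norm_num)
        · exact K1b.core2 (c := 1 / 4) (c' := 9 / 50) (X := 13 / 20) (x := x) (w := w) (t := t) (k := k) (G := G) (s := 43 / 100)
            (β := 21 / 10) (γ := 3927 / 1250) (a := -27 / 200) (a0 := -11 / 1000) (a1 := 0 / 1) (c1 := 137 / 1000) (U := 0)
            (by norm_num) (by first | (refine le_trans ?_ hx; norm_num; done) | (refine le_trans ?_ h95; norm_num; done) | linarith) hw hxw hF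
            (K1b.R_r_one_0_0 (w := w) (by first | (refine le_trans ?_ hw; norm_num; done) | (refine le_trans ?_ h; norm_num; done) | linarith)
              (by first | (refine le_trans h ?_; norm_num; done) | linarith only [hxw, h95] | linarith only [hxw, hx] | linarith))
            (le_trans (le_of_eq (by ring)) hE) (by norm_num) (by norm_num) (by norm_num) (by norm_num)
      · have hF := K1b.f_r_one_1 (t := t) (k := k) (by first | (refine le_trans ?_ t0; norm_num; done) | linarith only [t0, t1, s0, s1, k0, k1] | linarith) (by first | (refine le_trans t1 ?_; norm_num; done) | linarith only [t0, t1, s0, s1, k0, k1] | linarith) (by first | (refine le_trans ?_ k0; norm_num; done) | linarith only [t0, t1, s0, s1, k0, k1] | linarith) (by first | (refine le_trans k1 ?_; norm_num; done) | linarith only [t0, t1, s0, s1, k0, k1] | linarith) (by first | (refine le_trans s1 ?_; norm_num; done) | linarith only [t0, t1, s0, s1, k0, k1] | linarith) (by first | (refine le_trans ?_ s0; norm_num; done) | linarith only [t0, t1, s0, s1, k0, k1] | linarith)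
        split_ifs with h95
        · exact K1b.core2 (c := 1 / 4) (c' := 9 / 50) (X := 19 / 20) (x := x) (w := w) (t := t) (k := k) (G := G) (s := 43 / 100)
            (β := 21 / 10) (γ := 821 / 500) (a := 1 / 50) (a0 := -163 / 5000) (a1 := 779 / 1000) (c1 := 9 / 50) (U := 1)
            (by norm_num) (by first | (refine le_trans ?_ hx; norm_num; done) | (refine le_trans ?_ h95; norm_num; done) | linarith) hw hxw hF
            (K1b.R_r_one_1_1 (w := w) (by first | (refine le_trans ?_ hw; norm_num; done) | (refine le_trans ?_ h; norm_num; done) | linarith)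
              (by first | (refine le_trans h ?_; norm_num; done) | linarith only [hxw, h95] | linarith only [hxw, hx] | linarith))
            (le_trans (le_of_eq (by ring)) hE) (by norm_num) (by norm_num) (by norm_num) (by norm_num)
        · exact K1b.core2 (c := 1 / 4) (c' := 9 / 50) (X := 13 / 20) (x := x) (w := w) (t := t) (k := k) (G := G) (s := 43 / 100)
            (β := 21 / 10) (γ := 821 / 500) (a := -27 / 200) (a0 := -163 / 5000) (a1 := 779 / 1000) (c1 := 9 / 50) (U := 1)
            (by norm_num) (by first | (refine le_trans ?_ hx; norm_num; done) | (refine le_trans ?_ h95; norm_num; done) | linarith) hw hxw hF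
            (K1b.R_r_one_1_0 (w := w) (by first | (refine le_trans ?_ hw; norm_num; done) | (refine le_trans ?_ h; norm_num; done) | linarith)
              (by first | (refine le_trans h ?_; norm_num; done) | linarith only [hxw, h95] | linarith only [hxw, hx] | linarith))
            (le_trans (le_of_eq (by ring)) hE) (by norm_num) (by norm_num) (by norm_num) (by norm_num)
    · rcases hE.2 h with hE | hE
      · have hF := K1b.f_r_one_2 (t := t) (k := k) (by first | (refine le_trans ?_ t0; norm_num; done) | linarith only [t0, t1, s0, s1, k0, k1] | linarith) (by first | (refine le_trans t1 ?_; norm_num; done) | linarith only [t0, t1, s0, s1, k0, k1] | linarith) (by first | (refine le_trans ?_ k0; norm_num; done) | linarith only [t0, t1, s0, s1, k0, k1] | linarith) (by first | (refine le_trans k1 ?_; norm_num; done) | linarith only [t0, t1, s0, s1, k0, k1] | linarith) (by first | (refine le_trans s1 ?_; norm_num; done) | linarith only [t0, t1, s0, s1, k0, k1] | linarith) (by first | (refine le_trans ?_ s0; norm_num; done) | linarith only [t0, t1, s0, s1, k0, k1] | linarith)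
        split_ifs with h95
        · exfalso
          linarith
        · exact K1b.core2 (c := 1 / 4) (c' := 9 / 50) (X := 13 / 20) (x := x) (w := w) (t := t) (k := k) (G := G) (s := 43 / 100)
            (β := 21 / 10) (γ := 1849 / 1000) (a := -27 / 200) (a0 := 164 / 625) (a1 := -921 / 1000) (c1 := 189 / 1000) (U := 1)
            (by norm_num) (by first | (refine le_trans ?_ hx; norm_num; done) | (refine le_trans ?_ h95; norm_num; done) | linarith) hw hxw hF
            (K1b.R_r_one_2_0 (w := w) (by first | (refine le_trans ?_ hw; norm_num; done) | (refine le_trans ?_ h; norm_num; done) | linarith)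
              (by first | (refine le_trans h ?_; norm_num; done) | linarith only [hxw, h95] | linarith only [hxw, hx] | linarith))
            (le_trans (le_of_eq (by ring)) hE) (by norm_num) (by norm_num) (by norm_num) (by norm_num)
      · have hF := K1b.f_r_one_3 (t := t) (k := k) (by first | (refine le_trans ?_ t0; norm_num; done) | linarith only [t0, t1, s0, s1, k0, k1] | linarith) (by first | (refine le_trans t1 ?_; norm_num; done) | linarith only [t0, t1, s0, s1, k0, k1] | linarith) (by first | (refine le_trans ?_ k0; norm_num; done) | linarith only [t0, t1, s0, s1, k0, k1] | linarith) (by first | (refine le_trans k1 ?_; norm_num; done) | linarith only [t0, t1, s0, s1, k0, k1] | linarith) (by first | (refine le_trans s1 ?_; norm_num; done) | linarith only [t0, t1, s0, s1, k0, k1] | linarith) (by first | (refine le_trans ?_ s0; norm_num; done) | linarith only [t0, t1, s0, s1, k0, k1] | linarith)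
        split_ifs with h95
        · exfalso
          linarith
        · exact K1b.core2 (c := 1 / 4) (c' := 9 / 50) (X := 13 / 20) (x := x) (w := w) (t := t) (k := k) (G := G) (s := 43 / 100)
            (β := 21 / 10) (γ := 1309 / 500) (a := -27 / 200) (a0 := 1451 / 5000) (a1 := -1021 / 1000) (c1 := 24 / 125) (U := 1)
            (by norm_num) (by first | (refine le_trans ?_ hx; norm_num; done) | (refine le_trans ?_ h95; norm_num; done) | linarith) hw hxw hF
            (K1b.R_r_one_3_0 (w := w) (by first | (refine le_trans ?_ hw; norm_num; done) | (refine le_trans ?_ h; norm_num; done) | linarith)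
              (by first | (refine le_trans h ?_; norm_num; done) | linarith only [hxw, h95] | linarith only [hxw, hx] | linarith))
            (le_trans (le_of_eq (by ring)) hE) (by norm_num) (by norm_num) (by norm_num) (by norm_num)
  · obtain rfl : Cc = .two := hC
    simp only [cw, EB, eU] at t0 t1 s0 s1 k0 k1 hE
    simp only [cT, cN, be, al]
    have hF := K1b.f_r_two_0 (t := t) (k := k) (by first | (refine le_trans ?_ t0; norm_num; done) | linarith only [t0, t1, s0, s1, k0, k1] | linarith) (by first | (refine le_trans t1 ?_; norm_num; done) | linarith only [t0, t1, s0, s1, k0, k1] | linarith) (by first | (refine le_trans ?_ k0; norm_num; done) | linarith only [t0, t1, s0, s1, k0, k1] | linarith) (by first | (refine le_trans k1 ?_; norm_num; done) | linarith only [t0, t1, s0, s1, k0, k1] | linarith) (by first | (refine le_trans s1 ?_; norm_num; done) | linarith only [t0, t1, s0, s1, k0, k1] | linarith) (by first | (refine le_trans ?_ s0; norm_num; done) | linarith only [t0, t1, s0, s1, k0, k1] | linarith)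
    split_ifs with h95
    · exact K1b.core2 (c := 1 / 4) (c' := 1 / 4) (X := 19 / 20) (x := x) (w := w) (t := t) (k := k) (G := G) (s := 1 / 2)
        (β := 21 / 10) (γ := 1571 / 1000) (a := 1 / 50) (a0 := 53 / 625) (a1 := -37 / 250) (c1 := 21 / 100) (U := 1)
        (by norm_num) (by first | (refine le_trans ?_ hx; norm_num; done) | (refine le_trans ?_ h95; norm_num; done) | linarith) hw hxw hF
        (K1b.R_r_two_0_1 (w := w) (by first | (refine le_trans ?_ hw; norm_num; done) | (refine le_trans ?_ h; norm_num; done) | linarith)
          (by first | (refine le_trans h ?_; norm_num; done) | linarith only [hxw, h95] | linarith only [hxw, hx] | linarith))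
        (le_trans (le_of_eq (by ring)) hE) (by norm_num) (by norm_num) (by norm_num) (by norm_num)
    · exact K1b.core2 (c := 1 / 4) (c' := 1 / 4) (X := 13 / 20) (x := x) (w := w) (t := t) (k := k) (G := G) (s := 1 / 2)
        (β := 21 / 10) (γ := 1571 / 1000) (a := -27 / 200) (a0 := 53 / 625) (a1 := -37 / 250) (c1 := 21 / 100) (U := 1)
        (by norm_num) (by first | (refine le_trans ?_ hx; norm_num; done) | (refine le_trans ?_ h95; norm_num; done) | linarith) hw hxw hF
        (K1b.R_r_two_0_0 (w := w) (by first | (refine le_trans ?_ hw; norm_num; done) | (refine le_trans ?_ h; norm_num; done) | linarith)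
          (by first | (refine le_trans h ?_; norm_num; done) | linarith only [hxw, h95] | linarith only [hxw, hx] | linarith))
        (le_trans (le_of_eq (by ring)) hE) (by norm_num) (by norm_num) (by norm_num) (by norm_num)
  · obtain rfl : Cc = .twoE := hC
    simp only [cw, EB, eU] at t0 t1 s0 s1 k0 k1 hE
    simp only [cT, cN, be, al]
    have hF := K1b.f_r_twoE_0 (t := t) (k := k) (by first | (refine le_trans ?_ t0; norm_num; done) | linarith only [t0, t1, s0, s1, k0, k1] | linarith) (by first | (refine le_trans t1 ?_; norm_num; done) | linarith only [t0, t1, s0, s1, k0, k1] | linarith) (by first | (refine le_trans ?_ k0; norm_num; done) | linarith only [t0, t1, s0, s1, k0, k1] | linarith) (by first | (refine le_trans k1 ?_; norm_num; done) | linarith only [t0, t1, s0, s1, k0, k1] | linarith) (by first | (refine le_trans s1 ?_; norm_num; done) | linarith only [t0, t1, s0, s1, k0, k1] | linarith) (by first | (refine le_trans ?_ s0; norm_num; done) | linarith only [t0, t1, s0, s1, k0, k1] | linarith)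
    split_ifs with h95
    · exact K1b.core2 (c := 1 / 4) (c' := 11 / 50) (X := 19 / 20) (x := x) (w := w) (t := t) (k := k) (G := G) (s := 47 / 100)
        (β := 21 / 10) (γ := 1131 / 500) (a := 1 / 50) (a0 := 309 / 2000) (a1 := 0 / 1) (c1 := 23 / 100) (U := 1)
        (by norm_num) (by first | (refine le_trans ?_ hx; norm_num; done) | (refine le_trans ?_ h95; norm_num; done) | linarith) hw hxw hF
        (K1b.R_r_twoE_0_1 (w := w) (by first | (refine le_trans ?_ hw; norm_num; done) | (refine le_trans ?_ h; norm_num; done) | linarith)
          (by first | (refine le_trans h ?_; norm_num; done) | linarith only [hxw, h95] | linarith only [hxw, hx] | linarith))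
        (le_trans (le_of_eq (by ring)) hE) (by norm_num) (by norm_num) (by norm_num) (by norm_num)
    · exact K1b.core2 (c := 1 / 4) (c' := 11 / 50) (X := 13 / 20) (x := x) (w := w) (t := t) (k := k) (G := G) (s := 47 / 100)
        (β := 21 / 10) (γ := 1131 / 500) (a := -27 / 200) (a0 := 309 / 2000) (a1 := 0 / 1) (c1 := 23 / 100) (U := 1)
        (by norm_num) (by first | (refine le_trans ?_ hx; norm_num; done) | (refine le_trans ?_ h95; norm_num; done) | linarith) hw hxw hF
        (K1b.R_r_twoE_0_0 (w := w) (by first | (refine le_trans ?_ hw; norm_num; done) | (refine le_trans ?_ h; norm_num; done) | linarith)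
          (by first | (refine le_trans h ?_; norm_num; done) | linarith only [hxw, h95] | linarith only [hxw, hx] | linarith))
        (le_trans (le_of_eq (by ring)) hE) (by norm_num) (by norm_num) (by norm_num) (by norm_num)
  · exact absurd ⟨by simp [big], by rw [show Cc = .three from hC]; simp [big]⟩ hbig
  · exact absurd ⟨by simp [big], by rw [show Cc = .three from hC]; simp [big]⟩ hbig
  · exact absurd ⟨by simp [big], by rw [show Cc = .threeE from hC]; simp [big]⟩ hbig
  · exact absurd ⟨by simp [big], by rw [show Cc = .ring from hC]; simp [big]⟩ hbig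
  · have hh : 19 / 500 ≤ t ∧ t ≤ 79 / 500 ∧ -117 / 1000 ≤ k ∧ k ≤ 2 / 25 := by
      clear hE hx
      cases Cc
      · simp only [cw, hbox] at t0 t1 k0 k1
        exact ⟨by linarith, by linarith, by linarith, by linarith⟩
      · simp only [cw, hbox] at t0 t1 k0 k1
        exact ⟨by linarith, by linarith, by linarith, by linarith⟩
      · simp only [cw, hbox] at t0 t1 k0 k1
        exact ⟨by linarith, by linarith, by linarith, by linarith⟩
      · exact absurd ⟨by simp [big], by simp [big]⟩ hbig
      · exact absurd ⟨by simp [big], by simp [big]⟩ hbig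
      · exact absurd ⟨by simp [big], by simp [big]⟩ hbig
    obtain ⟨t0, t1, k0, k1⟩ := hh
    simp only [EB, eU] at hE
    simp only [cT, cN, be, al]
    have hF := K1b.f_r_touched_0 (t := t) (k := k) (by first | (refine le_trans ?_ t0; norm_num; done) | linarith only [t0, t1, s0, s1, k0, k1] | linarith) (by first | (refine le_trans t1 ?_; norm_num; done) | linarith only [t0, t1, s0, s1, k0, k1] | linarith) (by first | (refine le_trans ?_ k0; norm_num; done) | linarith only [t0, t1, s0, s1, k0, k1] | linarith) (by first | (refine le_trans k1 ?_; norm_num; done) | linarith only [t0, t1, s0, s1, k0, k1] | linarith)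
    split_ifs with h95
    · exact K1b.core2 (c := 1 / 4) (c' := 1 / 5) (X := 19 / 20) (x := x) (w := w) (t := t) (k := k) (G := G) (s := 9 / 20)
        (β := 21 / 10) (γ := 59 / 25) (a := 1 / 50) (a0 := 0 / 1) (a1 := 0 / 1) (c1 := 1 / 5) (U := 0)
        (by norm_num) (by first | (refine le_trans ?_ hx; norm_num; done) | (refine le_trans ?_ h95; norm_num; done) | linarith) hw hxw hF
        (K1b.R_r_touched_0_1 (w := w) (by first | (refine le_trans ?_ hw; norm_num; done) | (refine le_trans ?_ h; norm_num; done) | linarith)
          (by first | (refine le_trans h ?_; norm_num; done) | linarith only [hxw, h95] | linarith only [hxw, hx] | linarith))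
        (le_trans (le_of_eq (by ring)) hE) (by norm_num) (by norm_num) (by norm_num) (by norm_num)
    · exact K1b.core2 (c := 1 / 4) (c' := 1 / 5) (X := 13 / 20) (x := x) (w := w) (t := t) (k := k) (G := G) (s := 9 / 20)
        (β := 21 / 10) (γ := 59 / 25) (a := -27 / 200) (a0 := 0 / 1) (a1 := 0 / 1) (c1 := 1 / 5) (U := 0)
        (by norm_num) (by first | (refine le_trans ?_ hx; norm_num; done) | (refine le_trans ?_ h95; norm_num; done) | linarith) hw hxw hF
        (K1b.R_r_touched_0_0 (w := w) (by first | (refine le_trans ?_ hw; norm_num; done) | (refine le_trans ?_ h; norm_num; done) | linarith)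
          (by first | (refine le_trans h ?_; norm_num; done) | linarith only [hxw, h95] | linarith only [hxw, hx] | linarith))
        (le_trans (le_of_eq (by ring)) hE) (by norm_num) (by norm_num) (by norm_num) (by norm_num)

end TL

end Pool.Agent.Work.MP_b30479_gt.G2
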