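import Pool.Agent.Work.MP_b30479_gt.G2.TK1a
import Pool.Agent.Work.MP_b30479_gt.G2.TK1b
import Pool.Agent.Work.MP_b30479_gt.G2.TK1c

/-!
# Tails, sides of a digit `1`
-/

namespace Pool.Agent.Work.MP_b30479_gt.G2

open VOL SR

namespace TL

/-- K1.  margins: B = one: C = one .0140, threeA .0117, others >= .024; (x >= .86) .035; B = two
.026; twoE .0239; three .0129 (C = one); threeE .0236; ring .0251; touched >= .10. -/
theorem side_one {B Cc : Cl} {C : Ct} (hC : C.ok Cc) {x w t k G : ℝ}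
    (hx : X0 .one B ≤ x) (hw : 0 ≤ w) (hxw : x + w ≤ 1)
    (t0 : (cw Cc B).t0 ≤ t) (t1 : t ≤ (cw Cc B).t1)
    (s0 : (cw Cc B).s0 ≤ t + k) (s1 : t + k ≤ (cw Cc B).s1)
    (k0 : (cw B Cc).t0 ≤ k) (k1 : k ≤ (cw B Cc).t1)
    (hbig : ¬ (big B ∧ big Cc)) (hB : B = .one → -(2 / 25) ≤ t) (hCo : Cc = .one → -(2 / 25) ≤ k)
    (hE : EB .one C w (-k) G) :
    al .one B Cc x ≤ V1 ⟨cT .one B, t⟩ ⟨cN C, k⟩ - V1 ⟨x, 0⟩ ⟨w, 0⟩ + G + be .one B * t := by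
  cases B with
  | one => exact side_one_one hC hx hw hxw t0 t1 s0 s1 k0 k1 hbig (hB rfl) hCo hE
  | two => exact side_one_two hC hx hw hxw t0 t1 s0 s1 k0 k1 hbig hCo hE
  | twoE => exact side_one_twoE hC hx hw hxw t0 t1 s0 s1 k0 k1 hbig hCo hE
  | three => exact side_one_three hC hx hw hxw t0 t1 s0 s1 k0 k1 hbig hCo hE
  | threeE => exact side_one_threeE hC hx hw hxw t0 t1 s0 s1 k0 k1 hbig hCo hE
  | ring => exact side_one_ring hC hx hw hxw t0 t1 s0 s1 k0 k1 hbig hCo hE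

end TL

end Pool.Agent.Work.MP_b30479_gt.G2
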