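import Pool.Agent.Work.MP_b30479_gt.G2.TK1t
import Pool.Agent.Work.MP_b30479_gt.G2.TDef2
import Pool.Agent.Work.MP_b30479_gt.G2.WLocX

/-!
# Tails, sides of a digit `1`: the rows `K1`
-/

namespace Pool.Agent.Work.MP_b30479_gt.G2

open VOL SR NumU

namespace TL

/-! ### the digit `1` next to the class `one` -/

open NumI (V) in
theorem k1n_one_one_a1 : chk [nE1 42 18 245 31416 1800, s0E (-850), s1E 600] 30
    [V.of 10000 (-800) (560) 0, V.of 10000 (-800) (560) 0] = true := by decide +kernel

theorem k1o_one_one_a1_8000 : oldOK1 8000 (-110) (0) (1540) 1 0 1800 50 = true := by decide +kernel

open NumI (V) in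
theorem k1n_one_one_a2 : chk [nE1 42 18 245 16420 2713, s0E (-850), s1E 600] 30
    [V.of 10000 (-800) (560) 0, V.of 10000 (-800) (560) 0] = true := by decide +kernel

theorem k1o_one_one_a2_8000 : oldOK1 8000 (-326) (779) (2453) 2 0 1800 50 = true := by decide +kernel

open NumI (V) in
theorem k1n_one_one_b1 : chk [nE1 42 18 245 18490 2290, s0E (-850), s1E 600] 30
    [V.of 10000 (-800) (560) 0, V.of 10000 (-800) (560) 0] = true := by decide +kernel

theorem k1o_one_one_b1_8000 : oldOK1 8000 (2624) (-921) (2030) 2 1800 10000 200 = true := by decide +kernel

open NumI (V) in
theorem k1n_one_one_b2 : chk [nE1 42 18 245 26180 1950, s0E (-850), s1E 600] 30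
    [V.of 10000 (-800) (560) 0, V.of 10000 (-800) (560) 0] = true := by decide +kernel

theorem k1o_one_one_b2_8000 : oldOK1 8000 (2902) (-1021) (1690) 2 1800 10000 200 = true := by decide +kernel

open NumI (V) in
theorem k1n_one_two : chk [nE1 42 25 245 15710 2540, s0E (-490), s1E 950] 30
    [V.of 10000 (-800) (540) 0, V.of 10000 (-180) (790) 0] = true := by decide +kernel

theorem k1o_one_two_8000 : oldOK1 8000 (848) (-148) (2795) 2 0 10000 200 = true := by decide +kernel

theorem k1o_one_two_8600 : oldOK1 8600 (848) (-148) (2490) 2 0 10000 200 = true := by decide +kernel

open NumI (V) in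
theorem k1n_one_twoE : chk [nE1 42 22 245 22620 2120, s0E (-560), s1E 370] 30
    [V.of 10000 (-330) (800) 0, V.of 10000 (-660) (-160) 0] = true := by decide +kernel

theorem k1o_one_twoE_8000 : oldOK1 8000 (1545) (0) (2375) 2 0 10000 200 = true := by decide +kernel

theorem k1o_one_twoE_8600 : oldOK1 8600 (1545) (0) (2070) 2 0 10000 200 = true := by decide +kernel

open NumI (V) in
theorem k1n_one_threeA_a : chk [nE1 42 15 245 8510 1939, s0E (-220), s1E 1110] 30
    [V.of 10000 (-800) (490) 0, V.of 10000 (210) (920) 0] = true := by decide +kernel

theorem k1o_one_threeA_a_8000 : oldOK1 8000 (992) (-227) (2194) 2 0 1600 50 = true := by decide +kernel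

theorem k1o_one_threeA_a_8600 : oldOK1 8600 (992) (-227) (1889) 2 0 1600 50 = true := by decide +kernel

open NumI (V) in
theorem k1n_one_threeA_b : chk [nE1 42 15 245 5650 1627, s0E (-220), s1E 1110] 30
    [V.of 10000 (-800) (490) 0, V.of 10000 (210) (920) 0] = true := by decide +kernel

theorem k1o_one_threeA_b_8000 : oldOK1 8000 (2578) (-1106) (1882) 2 1600 10000 50 = true := by decide +kernel

open NumI (V) in
theorem k1n_one_threeK : chk [nE1 42 18 245 14120 2533, s0E (-220), s1E 1110] 30
    [V.of 10000 (-800) (490) 0, V.of 10000 (210) (920) 0] = true := by decide +kernel

theorem k1o_one_threeK_8000 : oldOK1 8000 (112) (97) (2788) 2 0 10000 50 = true := by decide +kernel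

theorem k1o_one_threeK_8600 : oldOK1 8600 (112) (97) (2483) 2 0 10000 50 = true := by decide +kernel

open NumI (V) in
theorem k1n_one_threeE : chk [nE1 42 22 245 12150 2150, s0E (-110), s1E 1010] 30
    [V.of 10000 (-610) (650) 0, V.of 10000 (100) (580) 0] = true := by decide +kernel

theorem k1o_one_threeE_8000 : oldOK1 8000 (1345) (0) (2405) 2 0 10000 200 = true := by decide +kernel

theorem k1o_one_threeE_8600 : oldOK1 8600 (1345) (0) (2100) 2 0 10000 200 = true := by decide +kernel

open NumI (V) in
theorem k1n_one_ring_a : chk [nE1 42 18 245 16780 2681, s0E (-100), s1E 1430] 30
    [V.of 10000 (-800) (510) 0, V.of 10000 (380) (1360) 0] = true := by decide +kernel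

theorem k1o_one_ring_a_8000 : oldOK1 8000 (-536) (543) (2936) 2 0 1400 50 = true := by decide +kernel

theorem k1o_one_ring_a_8600 : oldOK1 8600 (-536) (543) (2631) 2 0 1400 50 = true := by decide +kernel

open NumI (V) in
theorem k1n_one_ring_b : chk [nE1 42 18 245 13970 2460, s0E (-100), s1E 1430] 30
    [V.of 10000 (-800) (510) 0, V.of 10000 (380) (1360) 0] = true := by decide +kernel

theorem k1o_one_ring_b_8000 : oldOK1 8000 (1291) (-720) (2715) 2 1400 10000 50 = true := by decide +kernel

theorem k1o_one_ring_b_8600 : oldOK1 8600 (1291) (-720) (2410) 2 1400 10000 50 = true := by decide +kernel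

open NumI (V) in
theorem k1n_one_touched_one : chk [nE1 42 20 245 23600 2220, s0E (-850), s1E 600] 30
    [V.of 10000 (-800) (560) 0, V.of 10000 (-800) (560) 0] = true := by decide +kernel

theorem k1o_one_touched_one_8000 : oldOK1 8000 (0) (0) (1960) 1 0 10000 200 = true := by decide +kernel

open NumI (V) in
theorem k1n_one_touched_two : chk [nE1 42 20 245 23600 2140, s0E (-490), s1E 950] 30
    [V.of 10000 (-800) (540) 0, V.of 10000 (-180) (790) 0] = true := by decide +kernel

theorem k1o_one_touched_two_8000 : oldOK1 8000 (0) (0) (2395) 1 0 10000 200 = true := by decide +kernel

theorem k1o_one_touched_two_8600 : oldOK1 8600 (0) (0) (2090) 1 0 10000 200 = true := by decide +kernel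

open NumI (V) in
theorem k1n_one_touched_twoE : chk [nE1 42 20 245 23600 2030, s0E (-560), s1E 370] 30
    [V.of 10000 (-330) (800) 0, V.of 10000 (-660) (-160) 0] = true := by decide +kernel

theorem k1o_one_touched_twoE_8000 : oldOK1 8000 (0) (0) (2285) 1 0 10000 200 = true := by decide +kernel

theorem k1o_one_touched_twoE_8600 : oldOK1 8600 (0) (0) (1980) 1 0 10000 200 = true := by decide +kernel

open NumI (V) in
theorem k1n_one_touched_three : chk [nE1 42 20 245 23600 2270, s0E (-220), s1E 1110] 30
    [V.of 10000 (-800) (490) 0, V.of 10000 (210) (920) 0] = true := by decide +kernel

theorem k1o_one_touched_three_8000 : oldOK1 8000 (0) (0) (2525) 1 0 10000 200 = true := by decide +kernel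

theorem k1o_one_touched_three_8600 : oldOK1 8600 (0) (0) (2220) 1 0 10000 200 = true := by decide +kernel

open NumI (V) in
theorem k1n_one_touched_threeE : chk [nE1 42 20 245 23600 2230, s0E (-110), s1E 1010] 30
    [V.of 10000 (-610) (650) 0, V.of 10000 (100) (580) 0] = true := by decide +kernel

theorem k1o_one_touched_threeE_8000 : oldOK1 8000 (0) (0) (2485) 1 0 10000 200 = true := by decide +kernel

theorem k1o_one_touched_threeE_8600 : oldOK1 8600 (0) (0) (2180) 1 0 10000 200 = true := by decide +kernel

open NumI (V) in
theorem k1n_one_touched_ring : chk [nE1 42 20 245 23600 2350, s0E (-100), s1E 1430] 30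
    [V.of 10000 (-800) (510) 0, V.of 10000 (380) (1360) 0] = true := by decide +kernel

theorem k1o_one_touched_ring_8000 : oldOK1 8000 (0) (0) (2605) 1 0 10000 200 = true := by decide +kernel

theorem k1o_one_touched_ring_8600 : oldOK1 8600 (0) (0) (2300) 1 0 10000 200 = true := by decide +kernel

theorem side_one_one {Cc : Cl} {C : Ct} (hC : C.ok Cc) {x w t k G : ℝ}
    (hx : X0 .one .one ≤ x) (hw : 0 ≤ w) (hxw : x + w ≤ 1)
    (t0 : (cw Cc .one).t0 ≤ t) (t1 : t ≤ (cw Cc .one).t1)
    (s0 : (cw Cc .one).s0 ≤ t + k) (s1 : t + k ≤ (cw Cc .one).s1)
    (k0 : (cw .one Cc).t0 ≤ k) (k1 : k ≤ (cw .one Cc).t1)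
    (hbig : ¬ (big .one ∧ big Cc)) (hB : -(2 / 25) ≤ t) (hCo : Cc = .one → -(2 / 25) ≤ k)
    (hE : EB .one C w (-k) G) :
    al .one .one Cc x ≤ V1 ⟨cT .one .one, t⟩ ⟨cN C, k⟩ - V1 ⟨x, 0⟩ ⟨w, 0⟩ + G +
      be .one .one * t := by
  have e1 : cT .one .one = 42 / 100 := rfl
  have e2 : be .one .one = 245 / 100 := rfl
  have e3 : X0 .one .one = 80 / 100 := rfl
  rw [e1, e2]
  rw [e3] at hx
  have hw1 : w ≤ 1 := by linarith only [hx, hxw]
  cases C with
  | one =>
    have hC : Cc = .one := hC
    subst hC
    have hCo := hCo rfl
    simp only [cw] at t0 t1 s0 s1 k0 k1
    simp only [EB] at hE
    simp only [cN]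
    rcases le_total w (9 / 50) with h | h
    · rcases hE.1 h with hE | hE
      · rw [show al .one .one .one x = 26 / 1000 from rfl]
        exact k1_gen k1n_one_one_a1 k1o_one_one_a1_8000 (by norm_num) (by norm_num) (by norm_num)
            (by norm_num) (by norm_num) (by norm_num) (by norm_num) (by norm_num)
            (by norm_num; linarith only [hx]) hw (by norm_num; linarith only [hw]) (by norm_num; linarith only [h]) hxw
            (by norm_num; linarith only [hB]) (by norm_num; linarith only [t1]) (by norm_num; linarith only [hCo])
            (by norm_num; linarith only [k1]) (by norm_num; linarith only [s0]) (by norm_num; linarith only [s1])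
            (by norm_num; linarith only [hE])
      · rw [show al .one .one .one x = 26 / 1000 from rfl]
        exact k1_gen k1n_one_one_a2 k1o_one_one_a2_8000 (by norm_num) (by norm_num) (by norm_num)
            (by norm_num) (by norm_num) (by norm_num) (by norm_num) (by norm_num)
            (by norm_num; linarith only [hx]) hw (by norm_num; linarith only [hw]) (by norm_num; linarith only [h]) hxw
            (by norm_num; linarith only [hB]) (by norm_num; linarith only [t1]) (by norm_num; linarith only [hCo])
            (by norm_num; linarith only [k1]) (by norm_num; linarith only [s0]) (by norm_num; linarith only [s1])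
            (by norm_num; linarith only [hE])
    · rcases hE.2 h with hE | hE
      · rw [show al .one .one .one x = 26 / 1000 from rfl]
        exact k1_gen k1n_one_one_b1 k1o_one_one_b1_8000 (by norm_num) (by norm_num) (by norm_num)
            (by norm_num) (by norm_num) (by norm_num) (by norm_num) (by norm_num)
            (by norm_num; linarith only [hx]) hw (by norm_num; linarith only [h]) (by norm_num; linarith only [hx, hxw]) hxw
            (by norm_num; linarith only [hB]) (by norm_num; linarith only [t1]) (by norm_num; linarith only [hCo])
            (by norm_num; linarith only [k1]) (by norm_num; linarith only [s0]) (by norm_num; linarith only [s1])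
            (by norm_num; linarith only [hE])
      · rw [show al .one .one .one x = 26 / 1000 from rfl]
        exact k1_gen k1n_one_one_b2 k1o_one_one_b2_8000 (by norm_num) (by norm_num) (by norm_num)
            (by norm_num) (by norm_num) (by norm_num) (by norm_num) (by norm_num)
            (by norm_num; linarith only [hx]) hw (by norm_num; linarith only [h]) (by norm_num; linarith only [hx, hxw]) hxw
            (by norm_num; linarith only [hB]) (by norm_num; linarith only [t1]) (by norm_num; linarith only [hCo])
            (by norm_num; linarith only [k1]) (by norm_num; linarith only [s0]) (by norm_num; linarith only [s1])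
            (by norm_num; linarith only [hE])
  | two =>
    have hC : Cc = .two := hC
    subst hC
    simp only [cw] at t0 t1 s0 s1 k0 k1
    simp only [EB] at hE
    simp only [cN]
    rw [show al .one .one .two x = if 86 / 100 ≤ x then 5 / 1000 else -(255 / 10000) from rfl]
    split_ifs with hq
    · exact k1_gen k1n_one_two k1o_one_two_8600 (by norm_num) (by norm_num) (by norm_num)
          (by norm_num) (by norm_num) (by norm_num) (by norm_num) (by norm_num)
          (by norm_num; linarith only [hq]) hw (by norm_num; linarith only [hw]) (by norm_num; linarith only [hxw, hq]) hxw
          (by norm_num; linarith only [hB]) (by norm_num; linarith only [t1]) (by norm_num; linarith only [k0])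
          (by norm_num; linarith only [k1]) (by norm_num; linarith only [s0]) (by norm_num; linarith only [s1])
          (by norm_num; linarith only [hE])
    · exact k1_gen k1n_one_two k1o_one_two_8000 (by norm_num) (by norm_num) (by norm_num)
          (by norm_num) (by norm_num) (by norm_num) (by norm_num) (by norm_num)
          (by norm_num; linarith only [hx]) hw (by norm_num; linarith only [hw]) (by norm_num; linarith only [hx, hxw]) hxw
          (by norm_num; linarith only [hB]) (by norm_num; linarith only [t1]) (by norm_num; linarith only [k0])
          (by norm_num; linarith only [k1]) (by norm_num; linarith only [s0]) (by norm_num; linarith only [s1])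
          (by norm_num; linarith only [hE])
  | twoE =>
    have hC : Cc = .twoE := hC
    subst hC
    simp only [cw] at t0 t1 s0 s1 k0 k1
    simp only [EB] at hE
    simp only [cN]
    rw [show al .one .one .twoE x = if 86 / 100 ≤ x then 5 / 1000 else -(255 / 10000) from rfl]
    split_ifs with hq
    · exact k1_gen k1n_one_twoE k1o_one_twoE_8600 (by norm_num) (by norm_num) (by norm_num)
          (by norm_num) (by norm_num) (by norm_num) (by norm_num) (by norm_num)
          (by norm_num; linarith only [hq]) hw (by norm_num; linarith only [hw]) (by norm_num; linarith only [hxw, hq]) hxw
          (by norm_num; linarith only [t0]) (by norm_num; linarith only [t1]) (by norm_num; linarith only [k0])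
          (by norm_num; linarith only [k1]) (by norm_num; linarith only [s0]) (by norm_num; linarith only [s1])
          (by norm_num; linarith only [hE])
    · exact k1_gen k1n_one_twoE k1o_one_twoE_8000 (by norm_num) (by norm_num) (by norm_num)
          (by norm_num) (by norm_num) (by norm_num) (by norm_num) (by norm_num)
          (by norm_num; linarith only [hx]) hw (by norm_num; linarith only [hw]) (by norm_num; linarith only [hx, hxw]) hxw
          (by norm_num; linarith only [t0]) (by norm_num; linarith only [t1]) (by norm_num; linarith only [k0])
          (by norm_num; linarith only [k1]) (by norm_num; linarith only [s0]) (by norm_num; linarith only [s1])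
          (by norm_num; linarith only [hE])
  | threeA =>
    have hC : Cc = .three := hC
    subst hC
    simp only [cw] at t0 t1 s0 s1 k0 k1
    simp only [EB] at hE
    simp only [cN]
    rcases le_total w (4 / 25) with h | h
    · have hE := hE.1 h
      rw [show al .one .one .three x = if 86 / 100 ≤ x then 5 / 1000 else -(255 / 10000) from rfl]
      split_ifs with hq
      · exact k1_gen k1n_one_threeA_a k1o_one_threeA_a_8600 (by norm_num) (by norm_num) (by norm_num)
            (by norm_num) (by norm_num) (by norm_num) (by norm_num) (by norm_num)
            (by norm_num; linarith only [hq]) hw (by norm_num; linarith only [hw]) (by norm_num; linarith only [hxw, hq]) hxw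
            (by norm_num; linarith only [hB]) (by norm_num; linarith only [t1]) (by norm_num; linarith only [k0])
            (by norm_num; linarith only [k1]) (by norm_num; linarith only [s0]) (by norm_num; linarith only [s1])
            (by norm_num; linarith only [hE])
      · exact k1_gen k1n_one_threeA_a k1o_one_threeA_a_8000 (by norm_num) (by norm_num) (by norm_num)
            (by norm_num) (by norm_num) (by norm_num) (by norm_num) (by norm_num)
            (by norm_num; linarith only [hx]) hw (by norm_num; linarith only [hw]) (by norm_num; linarith only [h]) hxw
            (by norm_num; linarith only [hB]) (by norm_num; linarith only [t1]) (by norm_num; linarith only [k0])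
            (by norm_num; linarith only [k1]) (by norm_num; linarith only [s0]) (by norm_num; linarith only [s1])
            (by norm_num; linarith only [hE])
    · have hE := hE.2 h
      rw [show al .one .one .three x = if 86 / 100 ≤ x then 5 / 1000 else -(255 / 10000) from rfl]
      split_ifs with hq
      · exfalso
        linarith only [hxw, h, hq]
      · exact k1_gen k1n_one_threeA_b k1o_one_threeA_b_8000 (by norm_num) (by norm_num) (by norm_num)
            (by norm_num) (by norm_num) (by norm_num) (by norm_num) (by norm_num)
            (by norm_num; linarith only [hx]) hw (by norm_num; linarith only [h]) (by norm_num; linarith only [hx, hxw]) hxw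
            (by norm_num; linarith only [hB]) (by norm_num; linarith only [t1]) (by norm_num; linarith only [k0])
            (by norm_num; linarith only [k1]) (by norm_num; linarith only [s0]) (by norm_num; linarith only [s1])
            (by norm_num; linarith only [hE])
  | threeK =>
    have hC : Cc = .three := hC
    subst hC
    simp only [cw] at t0 t1 s0 s1 k0 k1
    simp only [EB] at hE
    simp only [cN]
    rw [show al .one .one .three x = if 86 / 100 ≤ x then 5 / 1000 else -(255 / 10000) from rfl]
    split_ifs with hq
    · exact k1_gen k1n_one_threeK k1o_one_threeK_8600 (by norm_num) (by norm_num) (by norm_num)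
          (by norm_num) (by norm_num) (by norm_num) (by norm_num) (by norm_num)
          (by norm_num; linarith only [hq]) hw (by norm_num; linarith only [hw]) (by norm_num; linarith only [hxw, hq]) hxw
          (by norm_num; linarith only [hB]) (by norm_num; linarith only [t1]) (by norm_num; linarith only [k0])
          (by norm_num; linarith only [k1]) (by norm_num; linarith only [s0]) (by norm_num; linarith only [s1])
          (by norm_num; linarith only [hE])
    · exact k1_gen k1n_one_threeK k1o_one_threeK_8000 (by norm_num) (by norm_num) (by norm_num)
          (by norm_num) (by norm_num) (by norm_num) (by norm_num) (by norm_num)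
          (by norm_num; linarith only [hx]) hw (by norm_num; linarith only [hw]) (by norm_num; linarith only [hx, hxw]) hxw
          (by norm_num; linarith only [hB]) (by norm_num; linarith only [t1]) (by norm_num; linarith only [k0])
          (by norm_num; linarith only [k1]) (by norm_num; linarith only [s0]) (by norm_num; linarith only [s1])
          (by norm_num; linarith only [hE])
  | threeE =>
    have hC : Cc = .threeE := hC
    subst hC
    simp only [cw] at t0 t1 s0 s1 k0 k1
    simp only [EB] at hE
    simp only [cN]
    rw [show al .one .one .threeE x = if 86 / 100 ≤ x then 5 / 1000 else -(255 / 10000) from rfl]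
    split_ifs with hq
    · exact k1_gen k1n_one_threeE k1o_one_threeE_8600 (by norm_num) (by norm_num) (by norm_num)
          (by norm_num) (by norm_num) (by norm_num) (by norm_num) (by norm_num)
          (by norm_num; linarith only [hq]) hw (by norm_num; linarith only [hw]) (by norm_num; linarith only [hxw, hq]) hxw
          (by norm_num; linarith only [t0]) (by norm_num; linarith only [t1]) (by norm_num; linarith only [k0])
          (by norm_num; linarith only [k1]) (by norm_num; linarith only [s0]) (by norm_num; linarith only [s1])
          (by norm_num; linarith only [hE])
    · exact k1_gen k1n_one_threeE k1o_one_threeE_8000 (by norm_num) (by norm_num) (by norm_num)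
          (by norm_num) (by norm_num) (by norm_num) (by norm_num) (by norm_num)
          (by norm_num; linarith only [hx]) hw (by norm_num; linarith only [hw]) (by norm_num; linarith only [hx, hxw]) hxw
          (by norm_num; linarith only [t0]) (by norm_num; linarith only [t1]) (by norm_num; linarith only [k0])
          (by norm_num; linarith only [k1]) (by norm_num; linarith only [s0]) (by norm_num; linarith only [s1])
          (by norm_num; linarith only [hE])
  | ring =>
    have hC : Cc = .ring := hC
    subst hC
    simp only [cw] at t0 t1 s0 s1 k0 k1
    simp only [EB] at hE
    simp only [cN]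
    rcases le_total w (7 / 50) with h | h
    · have hE := hE.1 h
      rw [show al .one .one .ring x = if 86 / 100 ≤ x then 5 / 1000 else -(255 / 10000) from rfl]
      split_ifs with hq
      · exact k1_gen k1n_one_ring_a k1o_one_ring_a_8600 (by norm_num) (by norm_num) (by norm_num)
            (by norm_num) (by norm_num) (by norm_num) (by norm_num) (by norm_num)
            (by norm_num; linarith only [hq]) hw (by norm_num; linarith only [hw]) (by norm_num; linarith only [hxw, hq]) hxw
            (by norm_num; linarith only [hB]) (by norm_num; linarith only [t1]) (by norm_num; linarith only [k0])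
            (by norm_num; linarith only [k1]) (by norm_num; linarith only [s0]) (by norm_num; linarith only [s1])
            (by norm_num; linarith only [hE])
      · exact k1_gen k1n_one_ring_a k1o_one_ring_a_8000 (by norm_num) (by norm_num) (by norm_num)
            (by norm_num) (by norm_num) (by norm_num) (by norm_num) (by norm_num)
            (by norm_num; linarith only [hx]) hw (by norm_num; linarith only [hw]) (by norm_num; linarith only [h]) hxw
            (by norm_num; linarith only [hB]) (by norm_num; linarith only [t1]) (by norm_num; linarith only [k0])
            (by norm_num; linarith only [k1]) (by norm_num; linarith only [s0]) (by norm_num; linarith only [s1])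
            (by norm_num; linarith only [hE])
    · have hE := hE.2 h
      rw [show al .one .one .ring x = if 86 / 100 ≤ x then 5 / 1000 else -(255 / 10000) from rfl]
      split_ifs with hq
      · exact k1_gen k1n_one_ring_b k1o_one_ring_b_8600 (by norm_num) (by norm_num) (by norm_num)
            (by norm_num) (by norm_num) (by norm_num) (by norm_num) (by norm_num)
            (by norm_num; linarith only [hq]) hw (by norm_num; linarith only [h]) (by norm_num; linarith only [hxw, hq]) hxw
            (by norm_num; linarith only [hB]) (by norm_num; linarith only [t1]) (by norm_num; linarith only [k0])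
            (by norm_num; linarith only [k1]) (by norm_num; linarith only [s0]) (by norm_num; linarith only [s1])
            (by norm_num; linarith only [hE])
      · exact k1_gen k1n_one_ring_b k1o_one_ring_b_8000 (by norm_num) (by norm_num) (by norm_num)
            (by norm_num) (by norm_num) (by norm_num) (by norm_num) (by norm_num)
            (by norm_num; linarith only [hx]) hw (by norm_num; linarith only [h]) (by norm_num; linarith only [hx, hxw]) hxw
            (by norm_num; linarith only [hB]) (by norm_num; linarith only [t1]) (by norm_num; linarith only [k0])
            (by norm_num; linarith only [k1]) (by norm_num; linarith only [s0]) (by norm_num; linarith only [s1])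
            (by norm_num; linarith only [hE])
  | touched =>
    simp only [EB] at hE
    simp only [cN]
    cases Cc with
    | one =>
      have hCo := hCo rfl
      simp only [cw] at t0 t1 s0 s1 k0 k1
      rw [show al .one .one .one x = 26 / 1000 from rfl]
      exact k1_gen k1n_one_touched_one k1o_one_touched_one_8000 (by norm_num) (by norm_num) (by norm_num)
          (by norm_num) (by norm_num) (by norm_num) (by norm_num) (by norm_num)
          (by norm_num; linarith only [hx]) hw (by norm_num; linarith only [hw]) (by norm_num; linarith only [hx, hxw]) hxw
          (by norm_num; linarith only [hB]) (by norm_num; linarith only [t1]) (by norm_num; linarith only [hCo])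
          (by norm_num; linarith only [k1]) (by norm_num; linarith only [s0]) (by norm_num; linarith only [s1])
          (by norm_num; linarith only [hE])
    | two =>
      simp only [cw] at t0 t1 s0 s1 k0 k1
      rw [show al .one .one .two x = if 86 / 100 ≤ x then 5 / 1000 else -(255 / 10000) from rfl]
      split_ifs with hq
      · exact k1_gen k1n_one_touched_two k1o_one_touched_two_8600 (by norm_num) (by norm_num) (by norm_num)
            (by norm_num) (by norm_num) (by norm_num) (by norm_num) (by norm_num)
            (by norm_num; linarith only [hq]) hw (by norm_num; linarith only [hw]) (by norm_num; linarith only [hxw, hq]) hxw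
            (by norm_num; linarith only [hB]) (by norm_num; linarith only [t1]) (by norm_num; linarith only [k0])
            (by norm_num; linarith only [k1]) (by norm_num; linarith only [s0]) (by norm_num; linarith only [s1])
            (by norm_num; linarith only [hE])
      · exact k1_gen k1n_one_touched_two k1o_one_touched_two_8000 (by norm_num) (by norm_num) (by norm_num)
            (by norm_num) (by norm_num) (by norm_num) (by norm_num) (by norm_num)
            (by norm_num; linarith only [hx]) hw (by norm_num; linarith only [hw]) (by norm_num; linarith only [hx, hxw]) hxw
            (by norm_num; linarith only [hB]) (by norm_num; linarith only [t1]) (by norm_num; linarith only [k0])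
            (by norm_num; linarith only [k1]) (by norm_num; linarith only [s0]) (by norm_num; linarith only [s1])
            (by norm_num; linarith only [hE])
    | twoE =>
      simp only [cw] at t0 t1 s0 s1 k0 k1
      rw [show al .one .one .twoE x = if 86 / 100 ≤ x then 5 / 1000 else -(255 / 10000) from rfl]
      split_ifs with hq
      · exact k1_gen k1n_one_touched_twoE k1o_one_touched_twoE_8600 (by norm_num) (by norm_num) (by norm_num)
            (by norm_num) (by norm_num) (by norm_num) (by norm_num) (by norm_num)
            (by norm_num; linarith only [hq]) hw (by norm_num; linarith only [hw]) (by norm_num; linarith only [hxw, hq]) hxw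
            (by norm_num; linarith only [t0]) (by norm_num; linarith only [t1]) (by norm_num; linarith only [k0])
            (by norm_num; linarith only [k1]) (by norm_num; linarith only [s0]) (by norm_num; linarith only [s1])
            (by norm_num; linarith only [hE])
      · exact k1_gen k1n_one_touched_twoE k1o_one_touched_twoE_8000 (by norm_num) (by norm_num) (by norm_num)
            (by norm_num) (by norm_num) (by norm_num) (by norm_num) (by norm_num)
            (by norm_num; linarith only [hx]) hw (by norm_num; linarith only [hw]) (by norm_num; linarith only [hx, hxw]) hxw
            (by norm_num; linarith only [t0]) (by norm_num; linarith only [t1]) (by norm_num; linarith only [k0])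
            (by norm_num; linarith only [k1]) (by norm_num; linarith only [s0]) (by norm_num; linarith only [s1])
            (by norm_num; linarith only [hE])
    | three =>
      simp only [cw] at t0 t1 s0 s1 k0 k1
      rw [show al .one .one .three x = if 86 / 100 ≤ x then 5 / 1000 else -(255 / 10000) from rfl]
      split_ifs with hq
      · exact k1_gen k1n_one_touched_three k1o_one_touched_three_8600 (by norm_num) (by norm_num) (by norm_num)
            (by norm_num) (by norm_num) (by norm_num) (by norm_num) (by norm_num)
            (by norm_num; linarith only [hq]) hw (by norm_num; linarith only [hw]) (by norm_num; linarith only [hxw, hq]) hxw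
            (by norm_num; linarith only [hB]) (by norm_num; linarith only [t1]) (by norm_num; linarith only [k0])
            (by norm_num; linarith only [k1]) (by norm_num; linarith only [s0]) (by norm_num; linarith only [s1])
            (by norm_num; linarith only [hE])
      · exact k1_gen k1n_one_touched_three k1o_one_touched_three_8000 (by norm_num) (by norm_num) (by norm_num)
            (by norm_num) (by norm_num) (by norm_num) (by norm_num) (by norm_num)
            (by norm_num; linarith only [hx]) hw (by norm_num; linarith only [hw]) (by norm_num; linarith only [hx, hxw]) hxw
            (by norm_num; linarith only [hB]) (by norm_num; linarith only [t1]) (by norm_num; linarith only [k0])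
            (by norm_num; linarith only [k1]) (by norm_num; linarith only [s0]) (by norm_num; linarith only [s1])
            (by norm_num; linarith only [hE])
    | threeE =>
      simp only [cw] at t0 t1 s0 s1 k0 k1
      rw [show al .one .one .threeE x = if 86 / 100 ≤ x then 5 / 1000 else -(255 / 10000) from rfl]
      split_ifs with hq
      · exact k1_gen k1n_one_touched_threeE k1o_one_touched_threeE_8600 (by norm_num) (by norm_num) (by norm_num)
            (by norm_num) (by norm_num) (by norm_num) (by norm_num) (by norm_num)
            (by norm_num; linarith only [hq]) hw (by norm_num; linarith only [hw]) (by norm_num; linarith only [hxw, hq]) hxw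
            (by norm_num; linarith only [t0]) (by norm_num; linarith only [t1]) (by norm_num; linarith only [k0])
            (by norm_num; linarith only [k1]) (by norm_num; linarith only [s0]) (by norm_num; linarith only [s1])
            (by norm_num; linarith only [hE])
      · exact k1_gen k1n_one_touched_threeE k1o_one_touched_threeE_8000 (by norm_num) (by norm_num) (by norm_num)
            (by norm_num) (by norm_num) (by norm_num) (by norm_num) (by norm_num)
            (by norm_num; linarith only [hx]) hw (by norm_num; linarith only [hw]) (by norm_num; linarith only [hx, hxw]) hxw
            (by norm_num; linarith only [t0]) (by norm_num; linarith only [t1]) (by norm_num; linarith only [k0])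
            (by norm_num; linarith only [k1]) (by norm_num; linarith only [s0]) (by norm_num; linarith only [s1])
            (by norm_num; linarith only [hE])
    | ring =>
      simp only [cw] at t0 t1 s0 s1 k0 k1
      rw [show al .one .one .ring x = if 86 / 100 ≤ x then 5 / 1000 else -(255 / 10000) from rfl]
      split_ifs with hq
      · exact k1_gen k1n_one_touched_ring k1o_one_touched_ring_8600 (by norm_num) (by norm_num) (by norm_num)
            (by norm_num) (by norm_num) (by norm_num) (by norm_num) (by norm_num)
            (by norm_num; linarith only [hq]) hw (by norm_num; linarith only [hw]) (by norm_num; linarith only [hxw, hq]) hxw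
            (by norm_num; linarith only [hB]) (by norm_num; linarith only [t1]) (by norm_num; linarith only [k0])
            (by norm_num; linarith only [k1]) (by norm_num; linarith only [s0]) (by norm_num; linarith only [s1])
            (by norm_num; linarith only [hE])
      · exact k1_gen k1n_one_touched_ring k1o_one_touched_ring_8000 (by norm_num) (by norm_num) (by norm_num)
            (by norm_num) (by norm_num) (by norm_num) (by norm_num) (by norm_num)
            (by norm_num; linarith only [hx]) hw (by norm_num; linarith only [hw]) (by norm_num; linarith only [hx, hxw]) hxw
            (by norm_num; linarith only [hB]) (by norm_num; linarith only [t1]) (by norm_num; linarith only [k0])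
            (by norm_num; linarith only [k1]) (by norm_num; linarith only [s0]) (by norm_num; linarith only [s1])
            (by norm_num; linarith only [hE])

end TL

end Pool.Agent.Work.MP_b30479_gt.G2
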