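import Pool.Agent.Work.NumU.Tree

/-!
# Tails: side of a digit `1`: rows
-/

set_option linter.unusedSimpArgs false
set_option linter.unusedVariables false

namespace Pool.Agent.Work.MP_b30479_gt.G2

open VOL NumU

namespace TL.K1b

open NumU.E 

def QQ.t : E := var 0
def QQ.k : E := var 1
def QQ.w : E := var 0

theorem add_le_of_le_neg {a c : ℝ} (h : a ≤ -c) : a + c ≤ 0 := by linarith

theorem f_t_one_0 {t k : ℝ} (b1 : -(180 / 10000) ≤ t) (b2 : t ≤ 790 / 10000) (b3 : -(800 / 10000) ≤ k) (b4 : k ≤ 540 / 10000) (b5 : t + k ≤ 19 / 200) (b6 : -49 / 1000 ≤ t + k) :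
    3 / 20 < Real.pi * (7 / 25 * k + t * (9 / 50) - t - k) + uu (23 / 50) (t + k) - uu (7 / 25) t - uu (9 / 50) k + 43 / 20 * t + 3927 / 1250 * k := by
  have h : chkT [sub (add (add (sub (sub (add (mul pi (sub (sub (add (mul (q 7 25) QQ.k) (mul QQ.t (q 9 50))) QQ.t) QQ.k)) (E.uu (q 23 50) (add QQ.t QQ.k))) (E.uu (q 7 25) QQ.t)) (E.uu (q 9 50) QQ.k)) (mul (q 43 20) QQ.t)) (mul (q 3927 1250) QQ.k)) (q 3 20), sub (add QQ.t QQ.k) (q 19 200), sub (q (-49) 1000) (add QQ.t QQ.k)] 30
    8
    [NumI.V.of 10000 (-180) 790, NumI.V.of 10000 (-800) 540] = true := by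
    decide +kernel
  obtain ⟨f, hf, hp⟩ := chkT2 h (by norm_num) (x := t) (y := k)
    (le_trans (by norm_num) b1) (le_trans b2 (by norm_num)) (le_trans (by norm_num) b3) (le_trans b4 (by norm_num))
  by_contra hc
  have hc := not_lt.1 hc
  simp only [List.mem_cons, List.not_mem_nil, or_false] at hf
  rcases hf with rfl | rfl | rfl
  · simp only [E.val, NumI.lkR, QQ.t, QQ.k, QQ.w] at hp
    push_cast at hp
    try simp only [zero_div, div_one] at hp hc
    first
      | with_reducible exact absurd (sub_pos.1 hp) (not_lt.2 hc)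
      | with_reducible exact absurd hp (not_lt.2 (add_le_of_le_neg hc))
      | with_reducible exact absurd (sub_pos.1 hp) (not_lt.2 b5)
      | with_reducible exact absurd (sub_pos.1 hp) (not_lt.2 b6)
      | linarith
  · simp only [E.val, NumI.lkR, QQ.t, QQ.k, QQ.w] at hp
    push_cast at hp
    try simp only [zero_div, div_one] at hp hc
    first
      | with_reducible exact absurd (sub_pos.1 hp) (not_lt.2 hc)
      | with_reducible exact absurd hp (not_lt.2 (add_le_of_le_neg hc))
      | with_reducible exact absurd (sub_pos.1 hp) (not_lt.2 b5)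
      | with_reducible exact absurd (sub_pos.1 hp) (not_lt.2 b6)
      | linarith
  · simp only [E.val, NumI.lkR, QQ.t, QQ.k, QQ.w] at hp
    push_cast at hp
    try simp only [zero_div, div_one] at hp hc
    first
      | with_reducible exact absurd (sub_pos.1 hp) (not_lt.2 hc)
      | with_reducible exact absurd hp (not_lt.2 (add_le_of_le_neg hc))
      | with_reducible exact absurd (sub_pos.1 hp) (not_lt.2 b5)
      | with_reducible exact absurd (sub_pos.1 hp) (not_lt.2 b6)
      | linarith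

theorem f_t_one_1 {t k : ℝ} (b1 : -(180 / 10000) ≤ t) (b2 : t ≤ 790 / 10000) (b3 : -(800 / 10000) ≤ k) (b4 : k ≤ 540 / 10000) (b5 : t + k ≤ 19 / 200) (b6 : -49 / 1000 ≤ t + k) :
    19 / 100 < Real.pi * (7 / 25 * k + t * (9 / 50) - t - k) + uu (23 / 50) (t + k) - uu (7 / 25) t - uu (9 / 50) k + 43 / 20 * t + 821 / 500 * k := by
  have h : chkT [sub (add (add (sub (sub (add (mul pi (sub (sub (add (mul (q 7 25) QQ.k) (mul QQ.t (q 9 50))) QQ.t) QQ.k)) (E.uu (q 23 50) (add QQ.t QQ.k))) (E.uu (q 7 25) QQ.t)) (E.uu (q 9 50) QQ.k)) (mul (q 43 20) QQ.t)) (mul (q 821 500) QQ.k)) (q 19 100), sub (add QQ.t QQ.k) (q 19 200), sub (q (-49) 1000) (add QQ.t QQ.k)] 30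
    2177
    [NumI.V.of 10000 (-180) 790, NumI.V.of 10000 (-800) 540] = true := by
    decide +kernel
  obtain ⟨f, hf, hp⟩ := chkT2 h (by norm_num) (x := t) (y := k)
    (le_trans (by norm_num) b1) (le_trans b2 (by norm_num)) (le_trans (by norm_num) b3) (le_trans b4 (by norm_num))
  by_contra hc
  have hc := not_lt.1 hc
  simp only [List.mem_cons, List.not_mem_nil, or_false] at hf
  rcases hf with rfl | rfl | rfl
  · simp only [E.val, NumI.lkR, QQ.t, QQ.k, QQ.w] at hp
    push_cast at hp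
    try simp only [zero_div, div_one] at hp hc
    first
      | with_reducible exact absurd (sub_pos.1 hp) (not_lt.2 hc)
      | with_reducible exact absurd hp (not_lt.2 (add_le_of_le_neg hc))
      | with_reducible exact absurd (sub_pos.1 hp) (not_lt.2 b5)
      | with_reducible exact absurd (sub_pos.1 hp) (not_lt.2 b6)
      | linarith
  · simp only [E.val, NumI.lkR, QQ.t, QQ.k, QQ.w] at hp
    push_cast at hp
    try simp only [zero_div, div_one] at hp hc
    first
      | with_reducible exact absurd (sub_pos.1 hp) (not_lt.2 hc)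
      | with_reducible exact absurd hp (not_lt.2 (add_le_of_le_neg hc))
      | with_reducible exact absurd (sub_pos.1 hp) (not_lt.2 b5)
      | with_reducible exact absurd (sub_pos.1 hp) (not_lt.2 b6)
      | linarith
  · simp only [E.val, NumI.lkR, QQ.t, QQ.k, QQ.w] at hp
    push_cast at hp
    try simp only [zero_div, div_one] at hp hc
    first
      | with_reducible exact absurd (sub_pos.1 hp) (not_lt.2 hc)
      | with_reducible exact absurd hp (not_lt.2 (add_le_of_le_neg hc))
      | with_reducible exact absurd (sub_pos.1 hp) (not_lt.2 b5)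
      | with_reducible exact absurd (sub_pos.1 hp) (not_lt.2 b6)
      | linarith

theorem f_t_one_2 {t k : ℝ} (b1 : -(180 / 10000) ≤ t) (b2 : t ≤ 790 / 10000) (b3 : -(800 / 10000) ≤ k) (b4 : k ≤ 540 / 10000) (b5 : t + k ≤ 19 / 200) (b6 : -49 / 1000 ≤ t + k) :
    1 / 5 < Real.pi * (7 / 25 * k + t * (9 / 50) - t - k) + uu (23 / 50) (t + k) - uu (7 / 25) t - uu (9 / 50) k + 43 / 20 * t + 1849 / 1000 * k := by
  have h : chkT [sub (add (add (sub (sub (add (mul pi (sub (sub (add (mul (q 7 25) QQ.k) (mul QQ.t (q 9 50))) QQ.t) QQ.k)) (E.uu (q 23 50) (add QQ.t QQ.k))) (E.uu (q 7 25) QQ.t)) (E.uu (q 9 50) QQ.k)) (mul (q 43 20) QQ.t)) (mul (q 1849 1000) QQ.k)) (q 1 5), sub (add QQ.t QQ.k) (q 19 200), sub (q (-49) 1000) (add QQ.t QQ.k)] 30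
    2177
    [NumI.V.of 10000 (-180) 790, NumI.V.of 10000 (-800) 540] = true := by
    decide +kernel
  obtain ⟨f, hf, hp⟩ := chkT2 h (by norm_num) (x := t) (y := k)
    (le_trans (by norm_num) b1) (le_trans b2 (by norm_num)) (le_trans (by norm_num) b3) (le_trans b4 (by norm_num))
  by_contra hc
  have hc := not_lt.1 hc
  simp only [List.mem_cons, List.not_mem_nil, or_false] at hf
  rcases hf with rfl | rfl | rfl
  · simp only [E.val, NumI.lkR, QQ.t, QQ.k, QQ.w] at hp
    push_cast at hp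
    try simp only [zero_div, div_one] at hp hc
    first
      | with_reducible exact absurd (sub_pos.1 hp) (not_lt.2 hc)
      | with_reducible exact absurd hp (not_lt.2 (add_le_of_le_neg hc))
      | with_reducible exact absurd (sub_pos.1 hp) (not_lt.2 b5)
      | with_reducible exact absurd (sub_pos.1 hp) (not_lt.2 b6)
      | linarith
  · simp only [E.val, NumI.lkR, QQ.t, QQ.k, QQ.w] at hp
    push_cast at hp
    try simp only [zero_div, div_one] at hp hc
    first
      | with_reducible exact absurd (sub_pos.1 hp) (not_lt.2 hc)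
      | with_reducible exact absurd hp (not_lt.2 (add_le_of_le_neg hc))
      | with_reducible exact absurd (sub_pos.1 hp) (not_lt.2 b5)
      | with_reducible exact absurd (sub_pos.1 hp) (not_lt.2 b6)
      | linarith
  · simp only [E.val, NumI.lkR, QQ.t, QQ.k, QQ.w] at hp
    push_cast at hp
    try simp only [zero_div, div_one] at hp hc
    first
      | with_reducible exact absurd (sub_pos.1 hp) (not_lt.2 hc)
      | with_reducible exact absurd hp (not_lt.2 (add_le_of_le_neg hc))
      | with_reducible exact absurd (sub_pos.1 hp) (not_lt.2 b5)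
      | with_reducible exact absurd (sub_pos.1 hp) (not_lt.2 b6)
      | linarith

theorem f_t_one_3 {t k : ℝ} (b1 : -(180 / 10000) ≤ t) (b2 : t ≤ 790 / 10000) (b3 : -(800 / 10000) ≤ k) (b4 : k ≤ 540 / 10000) (b5 : t + k ≤ 19 / 200) (b6 : -49 / 1000 ≤ t + k) :
    19 / 100 < Real.pi * (7 / 25 * k + t * (9 / 50) - t - k) + uu (23 / 50) (t + k) - uu (7 / 25) t - uu (9 / 50) k + 43 / 20 * t + 1309 / 500 * k := by
  have h : chkT [sub (add (add (sub (sub (add (mul pi (sub (sub (add (mul (q 7 25) QQ.k) (mul QQ.t (q 9 50))) QQ.t) QQ.k)) (E.uu (q 23 50) (add QQ.t QQ.k))) (E.uu (q 7 25) QQ.t)) (E.uu (q 9 50) QQ.k)) (mul (q 43 20) QQ.t)) (mul (q 1309 500) QQ.k)) (q 19 100), sub (add QQ.t QQ.k) (q 19 200), sub (q (-49) 1000) (add QQ.t QQ.k)] 30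
    8
    [NumI.V.of 10000 (-180) 790, NumI.V.of 10000 (-800) 540] = true := by
    decide +kernel
  obtain ⟨f, hf, hp⟩ := chkT2 h (by norm_num) (x := t) (y := k)
    (le_trans (by norm_num) b1) (le_trans b2 (by norm_num)) (le_trans (by norm_num) b3) (le_trans b4 (by norm_num))
  by_contra hc
  have hc := not_lt.1 hc
  simp only [List.mem_cons, List.not_mem_nil, or_false] at hf
  rcases hf with rfl | rfl | rfl
  · simp only [E.val, NumI.lkR, QQ.t, QQ.k, QQ.w] at hp
    push_cast at hp
    try simp only [zero_div, div_one] at hp hc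
    first
      | with_reducible exact absurd (sub_pos.1 hp) (not_lt.2 hc)
      | with_reducible exact absurd hp (not_lt.2 (add_le_of_le_neg hc))
      | with_reducible exact absurd (sub_pos.1 hp) (not_lt.2 b5)
      | with_reducible exact absurd (sub_pos.1 hp) (not_lt.2 b6)
      | linarith
  · simp only [E.val, NumI.lkR, QQ.t, QQ.k, QQ.w] at hp
    push_cast at hp
    try simp only [zero_div, div_one] at hp hc
    first
      | with_reducible exact absurd (sub_pos.1 hp) (not_lt.2 hc)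
      | with_reducible exact absurd hp (not_lt.2 (add_le_of_le_neg hc))
      | with_reducible exact absurd (sub_pos.1 hp) (not_lt.2 b5)
      | with_reducible exact absurd (sub_pos.1 hp) (not_lt.2 b6)
      | linarith
  · simp only [E.val, NumI.lkR, QQ.t, QQ.k, QQ.w] at hp
    push_cast at hp
    try simp only [zero_div, div_one] at hp hc
    first
      | with_reducible exact absurd (sub_pos.1 hp) (not_lt.2 hc)
      | with_reducible exact absurd hp (not_lt.2 (add_le_of_le_neg hc))
      | with_reducible exact absurd (sub_pos.1 hp) (not_lt.2 b5)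
      | with_reducible exact absurd (sub_pos.1 hp) (not_lt.2 b6)
      | linarith

theorem f_t_two_0 {t k : ℝ} (b1 : 50 / 10000 ≤ t) (b2 : t ≤ 790 / 10000) (b3 : 50 / 10000 ≤ k) (b4 : k ≤ 790 / 10000) (b5 : t + k ≤ 13 / 100) (b6 : 21 / 500 ≤ t + k) :
    11 / 50 < Real.pi * (7 / 25 * k + t * (1 / 4) - t - k) + uu (53 / 100) (t + k) - uu (7 / 25) t - uu (1 / 4) k + 43 / 20 * t + 1571 / 1000 * k := by
  have h : chkT [sub (add (add (sub (sub (add (mul pi (sub (sub (add (mul (q 7 25) QQ.k) (mul QQ.t (q 1 4))) QQ.t) QQ.k)) (E.uu (q 53 100) (add QQ.t QQ.k))) (E.uu (q 7 25) QQ.t)) (E.uu (q 1 4) QQ.k)) (mul (q 43 20) QQ.t)) (mul (q 1571 1000) QQ.k)) (q 11 50), sub (add QQ.t QQ.k) (q 13 100), sub (q 21 500) (add QQ.t QQ.k)] 30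
    8
    [NumI.V.of 10000 50 790, NumI.V.of 10000 50 790] = true := by
    decide +kernel
  obtain ⟨f, hf, hp⟩ := chkT2 h (by norm_num) (x := t) (y := k)
    (le_trans (by norm_num) b1) (le_trans b2 (by norm_num)) (le_trans (by norm_num) b3) (le_trans b4 (by norm_num))
  by_contra hc
  have hc := not_lt.1 hc
  simp only [List.mem_cons, List.not_mem_nil, or_false] at hf
  rcases hf with rfl | rfl | rfl
  · simp only [E.val, NumI.lkR, QQ.t, QQ.k, QQ.w] at hp
    push_cast at hp
    try simp only [zero_div, div_one] at hp hc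
    first
      | with_reducible exact absurd (sub_pos.1 hp) (not_lt.2 hc)
      | with_reducible exact absurd hp (not_lt.2 (add_le_of_le_neg hc))
      | with_reducible exact absurd (sub_pos.1 hp) (not_lt.2 b5)
      | with_reducible exact absurd (sub_pos.1 hp) (not_lt.2 b6)
      | linarith
  · simp only [E.val, NumI.lkR, QQ.t, QQ.k, QQ.w] at hp
    push_cast at hp
    try simp only [zero_div, div_one] at hp hc
    first
      | with_reducible exact absurd (sub_pos.1 hp) (not_lt.2 hc)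
      | with_reducible exact absurd hp (not_lt.2 (add_le_of_le_neg hc))
      | with_reducible exact absurd (sub_pos.1 hp) (not_lt.2 b5)
      | with_reducible exact absurd (sub_pos.1 hp) (not_lt.2 b6)
      | linarith
  · simp only [E.val, NumI.lkR, QQ.t, QQ.k, QQ.w] at hp
    push_cast at hp
    try simp only [zero_div, div_one] at hp hc
    first
      | with_reducible exact absurd (sub_pos.1 hp) (not_lt.2 hc)
      | with_reducible exact absurd hp (not_lt.2 (add_le_of_le_neg hc))
      | with_reducible exact absurd (sub_pos.1 hp) (not_lt.2 b5)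
      | with_reducible exact absurd (sub_pos.1 hp) (not_lt.2 b6)
      | linarith

theorem f_t_twoE_0 {t k : ℝ} (b1 : 480 / 10000 ≤ t) (b2 : t ≤ 985 / 10000) (b3 : -(490 / 10000) ≤ k) (b4 : k ≤ -(200 / 10000)) (b5 : t + k ≤ 8 / 125) (b6 : 21 / 1000 ≤ t + k) :
    6 / 25 < Real.pi * (7 / 25 * k + t * (11 / 50) - t - k) + uu (1 / 2) (t + k) - uu (7 / 25) t - uu (11 / 50) k + 43 / 20 * t + 1131 / 500 * k := by
  have h : chkT [sub (add (add (sub (sub (add (mul pi (sub (sub (add (mul (q 7 25) QQ.k) (mul QQ.t (q 11 50))) QQ.t) QQ.k)) (E.uu (q 1 2) (add QQ.t QQ.k))) (E.uu (q 7 25) QQ.t)) (E.uu (q 11 50) QQ.k)) (mul (q 43 20) QQ.t)) (mul (q 1131 500) QQ.k)) (q 6 25), sub (add QQ.t QQ.k) (q 8 125), sub (q 21 1000) (add QQ.t QQ.k)] 30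
    8
    [NumI.V.of 10000 480 985, NumI.V.of 10000 (-490) (-200)] = true := by
    decide +kernel
  obtain ⟨f, hf, hp⟩ := chkT2 h (by norm_num) (x := t) (y := k)
    (le_trans (by norm_num) b1) (le_trans b2 (by norm_num)) (le_trans (by norm_num) b3) (le_trans b4 (by norm_num))
  by_contra hc
  have hc := not_lt.1 hc
  simp only [List.mem_cons, List.not_mem_nil, or_false] at hf
  rcases hf with rfl | rfl | rfl
  · simp only [E.val, NumI.lkR, QQ.t, QQ.k, QQ.w] at hp
    push_cast at hp
    try simp only [zero_div, div_one] at hp hc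
    first
      | with_reducible exact absurd (sub_pos.1 hp) (not_lt.2 hc)
      | with_reducible exact absurd hp (not_lt.2 (add_le_of_le_neg hc))
      | with_reducible exact absurd (sub_pos.1 hp) (not_lt.2 b5)
      | with_reducible exact absurd (sub_pos.1 hp) (not_lt.2 b6)
      | linarith
  · simp only [E.val, NumI.lkR, QQ.t, QQ.k, QQ.w] at hp
    push_cast at hp
    try simp only [zero_div, div_one] at hp hc
    first
      | with_reducible exact absurd (sub_pos.1 hp) (not_lt.2 hc)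
      | with_reducible exact absurd hp (not_lt.2 (add_le_of_le_neg hc))
      | with_reducible exact absurd (sub_pos.1 hp) (not_lt.2 b5)
      | with_reducible exact absurd (sub_pos.1 hp) (not_lt.2 b6)
      | linarith
  · simp only [E.val, NumI.lkR, QQ.t, QQ.k, QQ.w] at hp
    push_cast at hp
    try simp only [zero_div, div_one] at hp hc
    first
      | with_reducible exact absurd (sub_pos.1 hp) (not_lt.2 hc)
      | with_reducible exact absurd hp (not_lt.2 (add_le_of_le_neg hc))
      | with_reducible exact absurd (sub_pos.1 hp) (not_lt.2 b5)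
      | with_reducible exact absurd (sub_pos.1 hp) (not_lt.2 b6)
      | linarith

theorem f_t_threeA_0 {t k : ℝ} (b1 : 100 / 10000 ≤ t) (b2 : t ≤ 770 / 10000) (b3 : 460 / 10000 ≤ k) (b4 : k ≤ 940 / 10000) (b5 : t + k ≤ 37 / 250) (b6 : 39 / 500 ≤ t + k) :
    97 / 1000 < Real.pi * (7 / 25 * k + t * (3 / 20) - t - k) + uu (43 / 100) (t + k) - uu (7 / 25) t - uu (3 / 20) k + 43 / 20 * t + 851 / 1000 * k := by
  have h : chkT [sub (add (add (sub (sub (add (mul pi (sub (sub (add (mul (q 7 25) QQ.k) (mul QQ.t (q 3 20))) QQ.t) QQ.k)) (E.uu (q 43 100) (add QQ.t QQ.k))) (E.uu (q 7 25) QQ.t)) (E.uu (q 3 20) QQ.k)) (mul (q 43 20) QQ.t)) (mul (q 851 1000) QQ.k)) (q 97 1000), sub (add QQ.t QQ.k) (q 37 250), sub (q 39 500) (add QQ.t QQ.k)] 30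
    36532420992
    [NumI.V.of 10000 100 770, NumI.V.of 10000 460 940] = true := by
    decide +kernel
  obtain ⟨f, hf, hp⟩ := chkT2 h (by norm_num) (x := t) (y := k)
    (le_trans (by norm_num) b1) (le_trans b2 (by norm_num)) (le_trans (by norm_num) b3) (le_trans b4 (by norm_num))
  by_contra hc
  have hc := not_lt.1 hc
  simp only [List.mem_cons, List.not_mem_nil, or_false] at hf
  rcases hf with rfl | rfl | rfl
  · simp only [E.val, NumI.lkR, QQ.t, QQ.k, QQ.w] at hp
    push_cast at hp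
    try simp only [zero_div, div_one] at hp hc
    first
      | with_reducible exact absurd (sub_pos.1 hp) (not_lt.2 hc)
      | with_reducible exact absurd hp (not_lt.2 (add_le_of_le_neg hc))
      | with_reducible exact absurd (sub_pos.1 hp) (not_lt.2 b5)
      | with_reducible exact absurd (sub_pos.1 hp) (not_lt.2 b6)
      | linarith
  · simp only [E.val, NumI.lkR, QQ.t, QQ.k, QQ.w] at hp
    push_cast at hp
    try simp only [zero_div, div_one] at hp hc
    first
      | with_reducible exact absurd (sub_pos.1 hp) (not_lt.2 hc)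
      | with_reducible exact absurd hp (not_lt.2 (add_le_of_le_neg hc))
      | with_reducible exact absurd (sub_pos.1 hp) (not_lt.2 b5)
      | with_reducible exact absurd (sub_pos.1 hp) (not_lt.2 b6)
      | linarith
  · simp only [E.val, NumI.lkR, QQ.t, QQ.k, QQ.w] at hp
    push_cast at hp
    try simp only [zero_div, div_one] at hp hc
    first
      | with_reducible exact absurd (sub_pos.1 hp) (not_lt.2 hc)
      | with_reducible exact absurd hp (not_lt.2 (add_le_of_le_neg hc))
      | with_reducible exact absurd (sub_pos.1 hp) (not_lt.2 b5)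
      | with_reducible exact absurd (sub_pos.1 hp) (not_lt.2 b6)
      | linarith

theorem f_t_threeA_1 {t k : ℝ} (b1 : 100 / 10000 ≤ t) (b2 : t ≤ 770 / 10000) (b3 : 460 / 10000 ≤ k) (b4 : k ≤ 940 / 10000) (b5 : t + k ≤ 37 / 250) (b6 : 39 / 500 ≤ t + k) :
    13 / 200 < Real.pi * (7 / 25 * k + t * (3 / 20) - t - k) + uu (43 / 100) (t + k) - uu (7 / 25) t - uu (3 / 20) k + 43 / 20 * t + 113 / 200 * k := by
  have h : chkT [sub (add (add (sub (sub (add (mul pi (sub (sub (add (mul (q 7 25) QQ.k) (mul QQ.t (q 3 20))) QQ.t) QQ.k)) (E.uu (q 43 100) (add QQ.t QQ.k))) (E.uu (q 7 25) QQ.t)) (E.uu (q 3 20) QQ.k)) (mul (q 43 20) QQ.t)) (mul (q 113 200) QQ.k)) (q 13 200), sub (add QQ.t QQ.k) (q 37 250), sub (q 39 500) (add QQ.t QQ.k)] 30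
    2176
    [NumI.V.of 10000 100 770, NumI.V.of 10000 460 940] = true := by
    decide +kernel
  obtain ⟨f, hf, hp⟩ := chkT2 h (by norm_num) (x := t) (y := k)
    (le_trans (by norm_num) b1) (le_trans b2 (by norm_num)) (le_trans (by norm_num) b3) (le_trans b4 (by norm_num))
  by_contra hc
  have hc := not_lt.1 hc
  simp only [List.mem_cons, List.not_mem_nil, or_false] at hf
  rcases hf with rfl | rfl | rfl
  · simp only [E.val, NumI.lkR, QQ.t, QQ.k, QQ.w] at hp
    push_cast at hp
    try simp only [zero_div, div_one] at hp hc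
    first
      | with_reducible exact absurd (sub_pos.1 hp) (not_lt.2 hc)
      | with_reducible exact absurd hp (not_lt.2 (add_le_of_le_neg hc))
      | with_reducible exact absurd (sub_pos.1 hp) (not_lt.2 b5)
      | with_reducible exact absurd (sub_pos.1 hp) (not_lt.2 b6)
      | linarith
  · simp only [E.val, NumI.lkR, QQ.t, QQ.k, QQ.w] at hp
    push_cast at hp
    try simp only [zero_div, div_one] at hp hc
    first
      | with_reducible exact absurd (sub_pos.1 hp) (not_lt.2 hc)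
      | with_reducible exact absurd hp (not_lt.2 (add_le_of_le_neg hc))
      | with_reducible exact absurd (sub_pos.1 hp) (not_lt.2 b5)
      | with_reducible exact absurd (sub_pos.1 hp) (not_lt.2 b6)
      | linarith
  · simp only [E.val, NumI.lkR, QQ.t, QQ.k, QQ.w] at hp
    push_cast at hp
    try simp only [zero_div, div_one] at hp hc
    first
      | with_reducible exact absurd (sub_pos.1 hp) (not_lt.2 hc)
      | with_reducible exact absurd hp (not_lt.2 (add_le_of_le_neg hc))
      | with_reducible exact absurd (sub_pos.1 hp) (not_lt.2 b5)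
      | with_reducible exact absurd (sub_pos.1 hp) (not_lt.2 b6)
      | linarith

theorem f_t_threeK_0 {t k : ℝ} (b1 : 100 / 10000 ≤ t) (b2 : t ≤ 770 / 10000) (b3 : 460 / 10000 ≤ k) (b4 : k ≤ 940 / 10000) (b5 : t + k ≤ 37 / 250) (b6 : 39 / 500 ≤ t + k) :
    4 / 25 < Real.pi * (7 / 25 * k + t * (9 / 50) - t - k) + uu (23 / 50) (t + k) - uu (7 / 25) t - uu (9 / 50) k + 43 / 20 * t + 353 / 250 * k := by
  have h : chkT [sub (add (add (sub (sub (add (mul pi (sub (sub (add (mul (q 7 25) QQ.k) (mul QQ.t (q 9 50))) QQ.t) QQ.k)) (E.uu (q 23 50) (add QQ.t QQ.k))) (E.uu (q 7 25) QQ.t)) (E.uu (q 9 50) QQ.k)) (mul (q 43 20) QQ.t)) (mul (q 353 250) QQ.k)) (q 4 25), sub (add QQ.t QQ.k) (q 37 250), sub (q 39 500) (add QQ.t QQ.k)] 30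
    8
    [NumI.V.of 10000 100 770, NumI.V.of 10000 460 940] = true := by
    decide +kernel
  obtain ⟨f, hf, hp⟩ := chkT2 h (by norm_num) (x := t) (y := k)
    (le_trans (by norm_num) b1) (le_trans b2 (by norm_num)) (le_trans (by norm_num) b3) (le_trans b4 (by norm_num))
  by_contra hc
  have hc := not_lt.1 hc
  simp only [List.mem_cons, List.not_mem_nil, or_false] at hf
  rcases hf with rfl | rfl | rfl
  · simp only [E.val, NumI.lkR, QQ.t, QQ.k, QQ.w] at hp
    push_cast at hp
    try simp only [zero_div, div_one] at hp hc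
    first
      | with_reducible exact absurd (sub_pos.1 hp) (not_lt.2 hc)
      | with_reducible exact absurd hp (not_lt.2 (add_le_of_le_neg hc))
      | with_reducible exact absurd (sub_pos.1 hp) (not_lt.2 b5)
      | with_reducible exact absurd (sub_pos.1 hp) (not_lt.2 b6)
      | linarith
  · simp only [E.val, NumI.lkR, QQ.t, QQ.k, QQ.w] at hp
    push_cast at hp
    try simp only [zero_div, div_one] at hp hc
    first
      | with_reducible exact absurd (sub_pos.1 hp) (not_lt.2 hc)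
      | with_reducible exact absurd hp (not_lt.2 (add_le_of_le_neg hc))
      | with_reducible exact absurd (sub_pos.1 hp) (not_lt.2 b5)
      | with_reducible exact absurd (sub_pos.1 hp) (not_lt.2 b6)
      | linarith
  · simp only [E.val, NumI.lkR, QQ.t, QQ.k, QQ.w] at hp
    push_cast at hp
    try simp only [zero_div, div_one] at hp hc
    first
      | with_reducible exact absurd (sub_pos.1 hp) (not_lt.2 hc)
      | with_reducible exact absurd hp (not_lt.2 (add_le_of_le_neg hc))
      | with_reducible exact absurd (sub_pos.1 hp) (not_lt.2 b5)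
      | with_reducible exact absurd (sub_pos.1 hp) (not_lt.2 b6)
      | linarith

theorem f_t_threeE_0 {t k : ℝ} (b1 : 320 / 10000 ≤ t) (b2 : t ≤ 910 / 10000) (b3 : 300 / 10000 ≤ k) (b4 : k ≤ 590 / 10000) (b5 : t + k ≤ 67 / 500) (b6 : 83 / 1000 ≤ t + k) :
    9 / 50 < Real.pi * (7 / 25 * k + t * (11 / 50) - t - k) + uu (1 / 2) (t + k) - uu (7 / 25) t - uu (11 / 50) k + 43 / 20 * t + 243 / 200 * k := by
  have h : chkT [sub (add (add (sub (sub (add (mul pi (sub (sub (add (mul (q 7 25) QQ.k) (mul QQ.t (q 11 50))) QQ.t) QQ.k)) (E.uu (q 1 2) (add QQ.t QQ.k))) (E.uu (q 7 25) QQ.t)) (E.uu (q 11 50) QQ.k)) (mul (q 43 20) QQ.t)) (mul (q 243 200) QQ.k)) (q 9 50), sub (add QQ.t QQ.k) (q 67 500), sub (q 83 1000) (add QQ.t QQ.k)] 30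
    8
    [NumI.V.of 10000 320 910, NumI.V.of 10000 300 590] = true := by
    decide +kernel
  obtain ⟨f, hf, hp⟩ := chkT2 h (by norm_num) (x := t) (y := k)
    (le_trans (by norm_num) b1) (le_trans b2 (by norm_num)) (le_trans (by norm_num) b3) (le_trans b4 (by norm_num))
  by_contra hc
  have hc := not_lt.1 hc
  simp only [List.mem_cons, List.not_mem_nil, or_false] at hf
  rcases hf with rfl | rfl | rfl
  · simp only [E.val, NumI.lkR, QQ.t, QQ.k, QQ.w] at hp
    push_cast at hp
    try simp only [zero_div, div_one] at hp hc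
    first
      | with_reducible exact absurd (sub_pos.1 hp) (not_lt.2 hc)
      | with_reducible exact absurd hp (not_lt.2 (add_le_of_le_neg hc))
      | with_reducible exact absurd (sub_pos.1 hp) (not_lt.2 b5)
      | with_reducible exact absurd (sub_pos.1 hp) (not_lt.2 b6)
      | linarith
  · simp only [E.val, NumI.lkR, QQ.t, QQ.k, QQ.w] at hp
    push_cast at hp
    try simp only [zero_div, div_one] at hp hc
    first
      | with_reducible exact absurd (sub_pos.1 hp) (not_lt.2 hc)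
      | with_reducible exact absurd hp (not_lt.2 (add_le_of_le_neg hc))
      | with_reducible exact absurd (sub_pos.1 hp) (not_lt.2 b5)
      | with_reducible exact absurd (sub_pos.1 hp) (not_lt.2 b6)
      | linarith
  · simp only [E.val, NumI.lkR, QQ.t, QQ.k, QQ.w] at hp
    push_cast at hp
    try simp only [zero_div, div_one] at hp hc
    first
      | with_reducible exact absurd (sub_pos.1 hp) (not_lt.2 hc)
      | with_reducible exact absurd hp (not_lt.2 (add_le_of_le_neg hc))
      | with_reducible exact absurd (sub_pos.1 hp) (not_lt.2 b5)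
      | with_reducible exact absurd (sub_pos.1 hp) (not_lt.2 b6)
      | linarith

theorem f_t_ring_0 {t k : ℝ} (b1 : -(80 / 10000) ≤ t) (b2 : t ≤ 800 / 10000) (b3 : 630 / 10000 ≤ k) (b4 : k ≤ 1450 / 10000) (b5 : t + k ≤ 187 / 1000) (b6 : 47 / 500 ≤ t + k) :
    7 / 40 < Real.pi * (7 / 25 * k + t * (9 / 50) - t - k) + uu (23 / 50) (t + k) - uu (7 / 25) t - uu (9 / 50) k + 43 / 20 * t + 839 / 500 * k := by
  have h : chkT [sub (add (add (sub (sub (add (mul pi (sub (sub (add (mul (q 7 25) QQ.k) (mul QQ.t (q 9 50))) QQ.t) QQ.k)) (E.uu (q 23 50) (add QQ.t QQ.k))) (E.uu (q 7 25) QQ.t)) (E.uu (q 9 50) QQ.k)) (mul (q 43 20) QQ.t)) (mul (q 839 500) QQ.k)) (q 7 40), sub (add QQ.t QQ.k) (q 187 1000), sub (q 47 500) (add QQ.t QQ.k)] 30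
    8
    [NumI.V.of 10000 (-80) 800, NumI.V.of 10000 630 1450] = true := by
    decide +kernel
  obtain ⟨f, hf, hp⟩ := chkT2 h (by norm_num) (x := t) (y := k)
    (le_trans (by norm_num) b1) (le_trans b2 (by norm_num)) (le_trans (by norm_num) b3) (le_trans b4 (by norm_num))
  by_contra hc
  have hc := not_lt.1 hc
  simp only [List.mem_cons, List.not_mem_nil, or_false] at hf
  rcases hf with rfl | rfl | rfl
  · simp only [E.val, NumI.lkR, QQ.t, QQ.k, QQ.w] at hp
    push_cast at hp
    try simp only [zero_div, div_one] at hp hc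
    first
      | with_reducible exact absurd (sub_pos.1 hp) (not_lt.2 hc)
      | with_reducible exact absurd hp (not_lt.2 (add_le_of_le_neg hc))
      | with_reducible exact absurd (sub_pos.1 hp) (not_lt.2 b5)
      | with_reducible exact absurd (sub_pos.1 hp) (not_lt.2 b6)
      | linarith
  · simp only [E.val, NumI.lkR, QQ.t, QQ.k, QQ.w] at hp
    push_cast at hp
    try simp only [zero_div, div_one] at hp hc
    first
      | with_reducible exact absurd (sub_pos.1 hp) (not_lt.2 hc)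
      | with_reducible exact absurd hp (not_lt.2 (add_le_of_le_neg hc))
      | with_reducible exact absurd (sub_pos.1 hp) (not_lt.2 b5)
      | with_reducible exact absurd (sub_pos.1 hp) (not_lt.2 b6)
      | linarith
  · simp only [E.val, NumI.lkR, QQ.t, QQ.k, QQ.w] at hp
    push_cast at hp
    try simp only [zero_div, div_one] at hp hc
    first
      | with_reducible exact absurd (sub_pos.1 hp) (not_lt.2 hc)
      | with_reducible exact absurd hp (not_lt.2 (add_le_of_le_neg hc))
      | with_reducible exact absurd (sub_pos.1 hp) (not_lt.2 b5)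
      | with_reducible exact absurd (sub_pos.1 hp) (not_lt.2 b6)
      | linarith

theorem f_t_ring_1 {t k : ℝ} (b1 : -(80 / 10000) ≤ t) (b2 : t ≤ 800 / 10000) (b3 : 630 / 10000 ≤ k) (b4 : k ≤ 1450 / 10000) (b5 : t + k ≤ 187 / 1000) (b6 : 47 / 500 ≤ t + k) :
    18 / 125 < Real.pi * (7 / 25 * k + t * (9 / 50) - t - k) + uu (23 / 50) (t + k) - uu (7 / 25) t - uu (9 / 50) k + 43 / 20 * t + 1397 / 1000 * k := by
  have h : chkT [sub (add (add (sub (sub (add (mul pi (sub (sub (add (mul (q 7 25) QQ.k) (mul QQ.t (q 9 50))) QQ.t) QQ.k)) (E.uu (q 23 50) (add QQ.t QQ.k))) (E.uu (q 7 25) QQ.t)) (E.uu (q 9 50) QQ.k)) (mul (q 43 20) QQ.t)) (mul (q 1397 1000) QQ.k)) (q 18 125), sub (add QQ.t QQ.k) (q 187 1000), sub (q 47 500) (add QQ.t QQ.k)] 30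
    2176
    [NumI.V.of 10000 (-80) 800, NumI.V.of 10000 630 1450] = true := by
    decide +kernel
  obtain ⟨f, hf, hp⟩ := chkT2 h (by norm_num) (x := t) (y := k)
    (le_trans (by norm_num) b1) (le_trans b2 (by norm_num)) (le_trans (by norm_num) b3) (le_trans b4 (by norm_num))
  by_contra hc
  have hc := not_lt.1 hc
  simp only [List.mem_cons, List.not_mem_nil, or_false] at hf
  rcases hf with rfl | rfl | rfl
  · simp only [E.val, NumI.lkR, QQ.t, QQ.k, QQ.w] at hp
    push_cast at hp
    try simp only [zero_div, div_one] at hp hc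
    first
      | with_reducible exact absurd (sub_pos.1 hp) (not_lt.2 hc)
      | with_reducible exact absurd hp (not_lt.2 (add_le_of_le_neg hc))
      | with_reducible exact absurd (sub_pos.1 hp) (not_lt.2 b5)
      | with_reducible exact absurd (sub_pos.1 hp) (not_lt.2 b6)
      | linarith
  · simp only [E.val, NumI.lkR, QQ.t, QQ.k, QQ.w] at hp
    push_cast at hp
    try simp only [zero_div, div_one] at hp hc
    first
      | with_reducible exact absurd (sub_pos.1 hp) (not_lt.2 hc)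
      | with_reducible exact absurd hp (not_lt.2 (add_le_of_le_neg hc))
      | with_reducible exact absurd (sub_pos.1 hp) (not_lt.2 b5)
      | with_reducible exact absurd (sub_pos.1 hp) (not_lt.2 b6)
      | linarith
  · simp only [E.val, NumI.lkR, QQ.t, QQ.k, QQ.w] at hp
    push_cast at hp
    try simp only [zero_div, div_one] at hp hc
    first
      | with_reducible exact absurd (sub_pos.1 hp) (not_lt.2 hc)
      | with_reducible exact absurd hp (not_lt.2 (add_le_of_le_neg hc))
      | with_reducible exact absurd (sub_pos.1 hp) (not_lt.2 b5)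
      | with_reducible exact absurd (sub_pos.1 hp) (not_lt.2 b6)
      | linarith

theorem f_t_touched_0 {t k : ℝ} (b1 : -(180 / 10000) ≤ t) (b2 : t ≤ 985 / 10000) (b3 : -(930 / 10000) ≤ k) (b4 : k ≤ 1450 / 10000) :
    11 / 50 < Real.pi * (7 / 25 * k + t * (1 / 5) - t - k) + uu (12 / 25) (t + k) - uu (7 / 25) t - uu (1 / 5) k + 43 / 20 * t + 59 / 25 * k := by
  have h : chkT [sub (add (add (sub (sub (add (mul pi (sub (sub (add (mul (q 7 25) QQ.k) (mul QQ.t (q 1 5))) QQ.t) QQ.k)) (E.uu (q 12 25) (add QQ.t QQ.k))) (E.uu (q 7 25) QQ.t)) (E.uu (q 1 5) QQ.k)) (mul (q 43 20) QQ.t)) (mul (q 59 25) QQ.k)) (q 11 50)] 30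
    2177
    [NumI.V.of 10000 (-180) 985, NumI.V.of 10000 (-930) 1450] = true := by
    decide +kernel
  obtain ⟨f, hf, hp⟩ := chkT2 h (by norm_num) (x := t) (y := k)
    (le_trans (by norm_num) b1) (le_trans b2 (by norm_num)) (le_trans (by norm_num) b3) (le_trans b4 (by norm_num))
  by_contra hc
  have hc := not_lt.1 hc
  simp only [List.mem_cons, List.not_mem_nil, or_false] at hf
  rcases hf with rfl
  · simp only [E.val, NumI.lkR, QQ.t, QQ.k, QQ.w] at hp
    push_cast at hp
    try simp only [zero_div, div_one] at hp hc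
    first
      | with_reducible exact absurd (sub_pos.1 hp) (not_lt.2 hc)
      | with_reducible exact absurd hp (not_lt.2 (add_le_of_le_neg hc))
      | linarith

theorem f_e_one_0 {t k : ℝ} (b1 : -(660 / 10000) ≤ t) (b2 : t ≤ -(160 / 10000)) (b3 : -(330 / 10000) ≤ k) (b4 : k ≤ 800 / 10000) (b5 : t + k ≤ 37 / 1000) (b6 : -7 / 125 ≤ t + k) :
    21 / 100 < Real.pi * (7 / 25 * k + t * (9 / 50) - t - k) + uu (23 / 50) (t + k) - uu (7 / 25) t - uu (9 / 50) k + 47 / 20 * t + 3927 / 1250 * k := by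
  have h : chkT [sub (add (add (sub (sub (add (mul pi (sub (sub (add (mul (q 7 25) QQ.k) (mul QQ.t (q 9 50))) QQ.t) QQ.k)) (E.uu (q 23 50) (add QQ.t QQ.k))) (E.uu (q 7 25) QQ.t)) (E.uu (q 9 50) QQ.k)) (mul (q 47 20) QQ.t)) (mul (q 3927 1250) QQ.k)) (q 21 100), sub (add QQ.t QQ.k) (q 37 1000), sub (q (-7) 125) (add QQ.t QQ.k)] 30
    8
    [NumI.V.of 10000 (-660) (-160), NumI.V.of 10000 (-330) 800] = true := by
    decide +kernel
  obtain ⟨f, hf, hp⟩ := chkT2 h (by norm_num) (x := t) (y := k)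
    (le_trans (by norm_num) b1) (le_trans b2 (by norm_num)) (le_trans (by norm_num) b3) (le_trans b4 (by norm_num))
  by_contra hc
  have hc := not_lt.1 hc
  simp only [List.mem_cons, List.not_mem_nil, or_false] at hf
  rcases hf with rfl | rfl | rfl
  · simp only [E.val, NumI.lkR, QQ.t, QQ.k, QQ.w] at hp
    push_cast at hp
    try simp only [zero_div, div_one] at hp hc
    first
      | with_reducible exact absurd (sub_pos.1 hp) (not_lt.2 hc)
      | with_reducible exact absurd hp (not_lt.2 (add_le_of_le_neg hc))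
      | with_reducible exact absurd (sub_pos.1 hp) (not_lt.2 b5)
      | with_reducible exact absurd (sub_pos.1 hp) (not_lt.2 b6)
      | linarith
  · simp only [E.val, NumI.lkR, QQ.t, QQ.k, QQ.w] at hp
    push_cast at hp
    try simp only [zero_div, div_one] at hp hc
    first
      | with_reducible exact absurd (sub_pos.1 hp) (not_lt.2 hc)
      | with_reducible exact absurd hp (not_lt.2 (add_le_of_le_neg hc))
      | with_reducible exact absurd (sub_pos.1 hp) (not_lt.2 b5)
      | with_reducible exact absurd (sub_pos.1 hp) (not_lt.2 b6)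
      | linarith
  · simp only [E.val, NumI.lkR, QQ.t, QQ.k, QQ.w] at hp
    push_cast at hp
    try simp only [zero_div, div_one] at hp hc
    first
      | with_reducible exact absurd (sub_pos.1 hp) (not_lt.2 hc)
      | with_reducible exact absurd hp (not_lt.2 (add_le_of_le_neg hc))
      | with_reducible exact absurd (sub_pos.1 hp) (not_lt.2 b5)
      | with_reducible exact absurd (sub_pos.1 hp) (not_lt.2 b6)
      | linarith

theorem f_e_one_1 {t k : ℝ} (b1 : -(660 / 10000) ≤ t) (b2 : t ≤ -(160 / 10000)) (b3 : -(330 / 10000) ≤ k) (b4 : k ≤ 800 / 10000) (b5 : t + k ≤ 37 / 1000) (b6 : -7 / 125 ≤ t + k) :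
    21 / 100 < Real.pi * (7 / 25 * k + t * (9 / 50) - t - k) + uu (23 / 50) (t + k) - uu (7 / 25) t - uu (9 / 50) k + 47 / 20 * t + 821 / 500 * k := by
  have h : chkT [sub (add (add (sub (sub (add (mul pi (sub (sub (add (mul (q 7 25) QQ.k) (mul QQ.t (q 9 50))) QQ.t) QQ.k)) (E.uu (q 23 50) (add QQ.t QQ.k))) (E.uu (q 7 25) QQ.t)) (E.uu (q 9 50) QQ.k)) (mul (q 47 20) QQ.t)) (mul (q 821 500) QQ.k)) (q 21 100), sub (add QQ.t QQ.k) (q 37 1000), sub (q (-7) 125) (add QQ.t QQ.k)] 30
    8
    [NumI.V.of 10000 (-660) (-160), NumI.V.of 10000 (-330) 800] = true := by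
    decide +kernel
  obtain ⟨f, hf, hp⟩ := chkT2 h (by norm_num) (x := t) (y := k)
    (le_trans (by norm_num) b1) (le_trans b2 (by norm_num)) (le_trans (by norm_num) b3) (le_trans b4 (by norm_num))
  by_contra hc
  have hc := not_lt.1 hc
  simp only [List.mem_cons, List.not_mem_nil, or_false] at hf
  rcases hf with rfl | rfl | rfl
  · simp only [E.val, NumI.lkR, QQ.t, QQ.k, QQ.w] at hp
    push_cast at hp
    try simp only [zero_div, div_one] at hp hc
    first
      | with_reducible exact absurd (sub_pos.1 hp) (not_lt.2 hc)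
      | with_reducible exact absurd hp (not_lt.2 (add_le_of_le_neg hc))
      | with_reducible exact absurd (sub_pos.1 hp) (not_lt.2 b5)
      | with_reducible exact absurd (sub_pos.1 hp) (not_lt.2 b6)
      | linarith
  · simp only [E.val, NumI.lkR, QQ.t, QQ.k, QQ.w] at hp
    push_cast at hp
    try simp only [zero_div, div_one] at hp hc
    first
      | with_reducible exact absurd (sub_pos.1 hp) (not_lt.2 hc)
      | with_reducible exact absurd hp (not_lt.2 (add_le_of_le_neg hc))
      | with_reducible exact absurd (sub_pos.1 hp) (not_lt.2 b5)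
      | with_reducible exact absurd (sub_pos.1 hp) (not_lt.2 b6)
      | linarith
  · simp only [E.val, NumI.lkR, QQ.t, QQ.k, QQ.w] at hp
    push_cast at hp
    try simp only [zero_div, div_one] at hp hc
    first
      | with_reducible exact absurd (sub_pos.1 hp) (not_lt.2 hc)
      | with_reducible exact absurd hp (not_lt.2 (add_le_of_le_neg hc))
      | with_reducible exact absurd (sub_pos.1 hp) (not_lt.2 b5)
      | with_reducible exact absurd (sub_pos.1 hp) (not_lt.2 b6)
      | linarith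

theorem f_e_one_2 {t k : ℝ} (b1 : -(660 / 10000) ≤ t) (b2 : t ≤ -(160 / 10000)) (b3 : -(330 / 10000) ≤ k) (b4 : k ≤ 800 / 10000) (b5 : t + k ≤ 37 / 1000) (b6 : -7 / 125 ≤ t + k) :
    11 / 50 < Real.pi * (7 / 25 * k + t * (9 / 50) - t - k) + uu (23 / 50) (t + k) - uu (7 / 25) t - uu (9 / 50) k + 47 / 20 * t + 1849 / 1000 * k := by
  have h : chkT [sub (add (add (sub (sub (add (mul pi (sub (sub (add (mul (q 7 25) QQ.k) (mul QQ.t (q 9 50))) QQ.t) QQ.k)) (E.uu (q 23 50) (add QQ.t QQ.k))) (E.uu (q 7 25) QQ.t)) (E.uu (q 9 50) QQ.k)) (mul (q 47 20) QQ.t)) (mul (q 1849 1000) QQ.k)) (q 11 50), sub (add QQ.t QQ.k) (q 37 1000), sub (q (-7) 125) (add QQ.t QQ.k)] 30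
    8
    [NumI.V.of 10000 (-660) (-160), NumI.V.of 10000 (-330) 800] = true := by
    decide +kernel
  obtain ⟨f, hf, hp⟩ := chkT2 h (by norm_num) (x := t) (y := k)
    (le_trans (by norm_num) b1) (le_trans b2 (by norm_num)) (le_trans (by norm_num) b3) (le_trans b4 (by norm_num))
  by_contra hc
  have hc := not_lt.1 hc
  simp only [List.mem_cons, List.not_mem_nil, or_false] at hf
  rcases hf with rfl | rfl | rfl
  · simp only [E.val, NumI.lkR, QQ.t, QQ.k, QQ.w] at hp
    push_cast at hp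
    try simp only [zero_div, div_one] at hp hc
    first
      | with_reducible exact absurd (sub_pos.1 hp) (not_lt.2 hc)
      | with_reducible exact absurd hp (not_lt.2 (add_le_of_le_neg hc))
      | with_reducible exact absurd (sub_pos.1 hp) (not_lt.2 b5)
      | with_reducible exact absurd (sub_pos.1 hp) (not_lt.2 b6)
      | linarith
  · simp only [E.val, NumI.lkR, QQ.t, QQ.k, QQ.w] at hp
    push_cast at hp
    try simp only [zero_div, div_one] at hp hc
    first
      | with_reducible exact absurd (sub_pos.1 hp) (not_lt.2 hc)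
      | with_reducible exact absurd hp (not_lt.2 (add_le_of_le_neg hc))
      | with_reducible exact absurd (sub_pos.1 hp) (not_lt.2 b5)
      | with_reducible exact absurd (sub_pos.1 hp) (not_lt.2 b6)
      | linarith
  · simp only [E.val, NumI.lkR, QQ.t, QQ.k, QQ.w] at hp
    push_cast at hp
    try simp only [zero_div, div_one] at hp hc
    first
      | with_reducible exact absurd (sub_pos.1 hp) (not_lt.2 hc)
      | with_reducible exact absurd hp (not_lt.2 (add_le_of_le_neg hc))
      | with_reducible exact absurd (sub_pos.1 hp) (not_lt.2 b5)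
      | with_reducible exact absurd (sub_pos.1 hp) (not_lt.2 b6)
      | linarith

theorem f_e_one_3 {t k : ℝ} (b1 : -(660 / 10000) ≤ t) (b2 : t ≤ -(160 / 10000)) (b3 : -(330 / 10000) ≤ k) (b4 : k ≤ 800 / 10000) (b5 : t + k ≤ 37 / 1000) (b6 : -7 / 125 ≤ t + k) :
    23 / 100 < Real.pi * (7 / 25 * k + t * (9 / 50) - t - k) + uu (23 / 50) (t + k) - uu (7 / 25) t - uu (9 / 50) k + 47 / 20 * t + 1309 / 500 * k := by
  have h : chkT [sub (add (add (sub (sub (add (mul pi (sub (sub (add (mul (q 7 25) QQ.k) (mul QQ.t (q 9 50))) QQ.t) QQ.k)) (E.uu (q 23 50) (add QQ.t QQ.k))) (E.uu (q 7 25) QQ.t)) (E.uu (q 9 50) QQ.k)) (mul (q 47 20) QQ.t)) (mul (q 1309 500) QQ.k)) (q 23 100), sub (add QQ.t QQ.k) (q 37 1000), sub (q (-7) 125) (add QQ.t QQ.k)] 30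
    8
    [NumI.V.of 10000 (-660) (-160), NumI.V.of 10000 (-330) 800] = true := by
    decide +kernel
  obtain ⟨f, hf, hp⟩ := chkT2 h (by norm_num) (x := t) (y := k)
    (le_trans (by norm_num) b1) (le_trans b2 (by norm_num)) (le_trans (by norm_num) b3) (le_trans b4 (by norm_num))
  by_contra hc
  have hc := not_lt.1 hc
  simp only [List.mem_cons, List.not_mem_nil, or_false] at hf
  rcases hf with rfl | rfl | rfl
  · simp only [E.val, NumI.lkR, QQ.t, QQ.k, QQ.w] at hp
    push_cast at hp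
    try simp only [zero_div, div_one] at hp hc
    first
      | with_reducible exact absurd (sub_pos.1 hp) (not_lt.2 hc)
      | with_reducible exact absurd hp (not_lt.2 (add_le_of_le_neg hc))
      | with_reducible exact absurd (sub_pos.1 hp) (not_lt.2 b5)
      | with_reducible exact absurd (sub_pos.1 hp) (not_lt.2 b6)
      | linarith
  · simp only [E.val, NumI.lkR, QQ.t, QQ.k, QQ.w] at hp
    push_cast at hp
    try simp only [zero_div, div_one] at hp hc
    first
      | with_reducible exact absurd (sub_pos.1 hp) (not_lt.2 hc)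
      | with_reducible exact absurd hp (not_lt.2 (add_le_of_le_neg hc))
      | with_reducible exact absurd (sub_pos.1 hp) (not_lt.2 b5)
      | with_reducible exact absurd (sub_pos.1 hp) (not_lt.2 b6)
      | linarith
  · simp only [E.val, NumI.lkR, QQ.t, QQ.k, QQ.w] at hp
    push_cast at hp
    try simp only [zero_div, div_one] at hp hc
    first
      | with_reducible exact absurd (sub_pos.1 hp) (not_lt.2 hc)
      | with_reducible exact absurd hp (not_lt.2 (add_le_of_le_neg hc))
      | with_reducible exact absurd (sub_pos.1 hp) (not_lt.2 b5)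
      | with_reducible exact absurd (sub_pos.1 hp) (not_lt.2 b6)
      | linarith

theorem f_e_two_0 {t k : ℝ} (b1 : -(490 / 10000) ≤ t) (b2 : t ≤ -(200 / 10000)) (b3 : 480 / 10000 ≤ k) (b4 : k ≤ 985 / 10000) (b5 : t + k ≤ 8 / 125) (b6 : 21 / 1000 ≤ t + k) :
    21 / 100 < Real.pi * (7 / 25 * k + t * (1 / 4) - t - k) + uu (53 / 100) (t + k) - uu (7 / 25) t - uu (1 / 4) k + 47 / 20 * t + 1571 / 1000 * k := by
  have h : chkT [sub (add (add (sub (sub (add (mul pi (sub (sub (add (mul (q 7 25) QQ.k) (mul QQ.t (q 1 4))) QQ.t) QQ.k)) (E.uu (q 53 100) (add QQ.t QQ.k))) (E.uu (q 7 25) QQ.t)) (E.uu (q 1 4) QQ.k)) (mul (q 47 20) QQ.t)) (mul (q 1571 1000) QQ.k)) (q 21 100), sub (add QQ.t QQ.k) (q 8 125), sub (q 21 1000) (add QQ.t QQ.k)] 30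
    8
    [NumI.V.of 10000 (-490) (-200), NumI.V.of 10000 480 985] = true := by
    decide +kernel
  obtain ⟨f, hf, hp⟩ := chkT2 h (by norm_num) (x := t) (y := k)
    (le_trans (by norm_num) b1) (le_trans b2 (by norm_num)) (le_trans (by norm_num) b3) (le_trans b4 (by norm_num))
  by_contra hc
  have hc := not_lt.1 hc
  simp only [List.mem_cons, List.not_mem_nil, or_false] at hf
  rcases hf with rfl | rfl | rfl
  · simp only [E.val, NumI.lkR, QQ.t, QQ.k, QQ.w] at hp
    push_cast at hp
    try simp only [zero_div, div_one] at hp hc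
    first
      | with_reducible exact absurd (sub_pos.1 hp) (not_lt.2 hc)
      | with_reducible exact absurd hp (not_lt.2 (add_le_of_le_neg hc))
      | with_reducible exact absurd (sub_pos.1 hp) (not_lt.2 b5)
      | with_reducible exact absurd (sub_pos.1 hp) (not_lt.2 b6)
      | linarith
  · simp only [E.val, NumI.lkR, QQ.t, QQ.k, QQ.w] at hp
    push_cast at hp
    try simp only [zero_div, div_one] at hp hc
    first
      | with_reducible exact absurd (sub_pos.1 hp) (not_lt.2 hc)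
      | with_reducible exact absurd hp (not_lt.2 (add_le_of_le_neg hc))
      | with_reducible exact absurd (sub_pos.1 hp) (not_lt.2 b5)
      | with_reducible exact absurd (sub_pos.1 hp) (not_lt.2 b6)
      | linarith
  · simp only [E.val, NumI.lkR, QQ.t, QQ.k, QQ.w] at hp
    push_cast at hp
    try simp only [zero_div, div_one] at hp hc
    first
      | with_reducible exact absurd (sub_pos.1 hp) (not_lt.2 hc)
      | with_reducible exact absurd hp (not_lt.2 (add_le_of_le_neg hc))
      | with_reducible exact absurd (sub_pos.1 hp) (not_lt.2 b5)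
      | with_reducible exact absurd (sub_pos.1 hp) (not_lt.2 b6)
      | linarith

theorem f_e_twoE_0 {t k : ℝ} (b1 : -(60 / 10000) ≤ t) (b2 : t ≤ 10 / 10000) (b3 : -(60 / 10000) ≤ k) (b4 : k ≤ 10 / 10000) (b5 : t + k ≤ 3 / 500) (b6 : -3 / 500 ≤ t + k) :
    1 / 4 < Real.pi * (7 / 25 * k + t * (11 / 50) - t - k) + uu (1 / 2) (t + k) - uu (7 / 25) t - uu (11 / 50) k + 47 / 20 * t + 1131 / 500 * k := by
  have h : chkT [sub (add (add (sub (sub (add (mul pi (sub (sub (add (mul (q 7 25) QQ.k) (mul QQ.t (q 11 50))) QQ.t) QQ.k)) (E.uu (q 1 2) (add QQ.t QQ.k))) (E.uu (q 7 25) QQ.t)) (E.uu (q 11 50) QQ.k)) (mul (q 47 20) QQ.t)) (mul (q 1131 500) QQ.k)) (q 1 4), sub (add QQ.t QQ.k) (q 3 500), sub (q (-3) 500) (add QQ.t QQ.k)] 30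
    8
    [NumI.V.of 10000 (-60) 10, NumI.V.of 10000 (-60) 10] = true := by
    decide +kernel
  obtain ⟨f, hf, hp⟩ := chkT2 h (by norm_num) (x := t) (y := k)
    (le_trans (by norm_num) b1) (le_trans b2 (by norm_num)) (le_trans (by norm_num) b3) (le_trans b4 (by norm_num))
  by_contra hc
  have hc := not_lt.1 hc
  simp only [List.mem_cons, List.not_mem_nil, or_false] at hf
  rcases hf with rfl | rfl | rfl
  · simp only [E.val, NumI.lkR, QQ.t, QQ.k, QQ.w] at hp
    push_cast at hp
    try simp only [zero_div, div_one] at hp hc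
    first
      | with_reducible exact absurd (sub_pos.1 hp) (not_lt.2 hc)
      | with_reducible exact absurd hp (not_lt.2 (add_le_of_le_neg hc))
      | with_reducible exact absurd (sub_pos.1 hp) (not_lt.2 b5)
      | with_reducible exact absurd (sub_pos.1 hp) (not_lt.2 b6)
      | linarith
  · simp only [E.val, NumI.lkR, QQ.t, QQ.k, QQ.w] at hp
    push_cast at hp
    try simp only [zero_div, div_one] at hp hc
    first
      | with_reducible exact absurd (sub_pos.1 hp) (not_lt.2 hc)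
      | with_reducible exact absurd hp (not_lt.2 (add_le_of_le_neg hc))
      | with_reducible exact absurd (sub_pos.1 hp) (not_lt.2 b5)
      | with_reducible exact absurd (sub_pos.1 hp) (not_lt.2 b6)
      | linarith
  · simp only [E.val, NumI.lkR, QQ.t, QQ.k, QQ.w] at hp
    push_cast at hp
    try simp only [zero_div, div_one] at hp hc
    first
      | with_reducible exact absurd (sub_pos.1 hp) (not_lt.2 hc)
      | with_reducible exact absurd hp (not_lt.2 (add_le_of_le_neg hc))
      | with_reducible exact absurd (sub_pos.1 hp) (not_lt.2 b5)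
      | with_reducible exact absurd (sub_pos.1 hp) (not_lt.2 b6)
      | linarith

theorem f_e_threeA_0 {t k : ℝ} (b1 : -(450 / 10000) ≤ t) (b2 : t ≤ -(250 / 10000)) (b3 : 870 / 10000 ≤ k) (b4 : k ≤ 1145 / 10000) (b5 : t + k ≤ 77 / 1000) (b6 : 51 / 1000 ≤ t + k) :
    51 / 500 < Real.pi * (7 / 25 * k + t * (3 / 20) - t - k) + uu (43 / 100) (t + k) - uu (7 / 25) t - uu (3 / 20) k + 47 / 20 * t + 851 / 1000 * k := by
  have h : chkT [sub (add (add (sub (sub (add (mul pi (sub (sub (add (mul (q 7 25) QQ.k) (mul QQ.t (q 3 20))) QQ.t) QQ.k)) (E.uu (q 43 100) (add QQ.t QQ.k))) (E.uu (q 7 25) QQ.t)) (E.uu (q 3 20) QQ.k)) (mul (q 47 20) QQ.t)) (mul (q 851 1000) QQ.k)) (q 51 500), sub (add QQ.t QQ.k) (q 77 1000), sub (q 51 1000) (add QQ.t QQ.k)] 30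
    8
    [NumI.V.of 10000 (-450) (-250), NumI.V.of 10000 870 1145] = true := by
    decide +kernel
  obtain ⟨f, hf, hp⟩ := chkT2 h (by norm_num) (x := t) (y := k)
    (le_trans (by norm_num) b1) (le_trans b2 (by norm_num)) (le_trans (by norm_num) b3) (le_trans b4 (by norm_num))
  by_contra hc
  have hc := not_lt.1 hc
  simp only [List.mem_cons, List.not_mem_nil, or_false] at hf
  rcases hf with rfl | rfl | rfl
  · simp only [E.val, NumI.lkR, QQ.t, QQ.k, QQ.w] at hp
    push_cast at hp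
    try simp only [zero_div, div_one] at hp hc
    first
      | with_reducible exact absurd (sub_pos.1 hp) (not_lt.2 hc)
      | with_reducible exact absurd hp (not_lt.2 (add_le_of_le_neg hc))
      | with_reducible exact absurd (sub_pos.1 hp) (not_lt.2 b5)
      | with_reducible exact absurd (sub_pos.1 hp) (not_lt.2 b6)
      | linarith
  · simp only [E.val, NumI.lkR, QQ.t, QQ.k, QQ.w] at hp
    push_cast at hp
    try simp only [zero_div, div_one] at hp hc
    first
      | with_reducible exact absurd (sub_pos.1 hp) (not_lt.2 hc)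
      | with_reducible exact absurd hp (not_lt.2 (add_le_of_le_neg hc))
      | with_reducible exact absurd (sub_pos.1 hp) (not_lt.2 b5)
      | with_reducible exact absurd (sub_pos.1 hp) (not_lt.2 b6)
      | linarith
  · simp only [E.val, NumI.lkR, QQ.t, QQ.k, QQ.w] at hp
    push_cast at hp
    try simp only [zero_div, div_one] at hp hc
    first
      | with_reducible exact absurd (sub_pos.1 hp) (not_lt.2 hc)
      | with_reducible exact absurd hp (not_lt.2 (add_le_of_le_neg hc))
      | with_reducible exact absurd (sub_pos.1 hp) (not_lt.2 b5)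
      | with_reducible exact absurd (sub_pos.1 hp) (not_lt.2 b6)
      | linarith

theorem f_e_threeA_1 {t k : ℝ} (b1 : -(450 / 10000) ≤ t) (b2 : t ≤ -(250 / 10000)) (b3 : 870 / 10000 ≤ k) (b4 : k ≤ 1145 / 10000) (b5 : t + k ≤ 77 / 1000) (b6 : 51 / 1000 ≤ t + k) :
    91 / 1000 < Real.pi * (7 / 25 * k + t * (3 / 20) - t - k) + uu (43 / 100) (t + k) - uu (7 / 25) t - uu (3 / 20) k + 47 / 20 * t + 113 / 200 * k := by
  have h : chkT [sub (add (add (sub (sub (add (mul pi (sub (sub (add (mul (q 7 25) QQ.k) (mul QQ.t (q 3 20))) QQ.t) QQ.k)) (E.uu (q 43 100) (add QQ.t QQ.k))) (E.uu (q 7 25) QQ.t)) (E.uu (q 3 20) QQ.k)) (mul (q 47 20) QQ.t)) (mul (q 113 200) QQ.k)) (q 91 1000), sub (add QQ.t QQ.k) (q 77 1000), sub (q 51 1000) (add QQ.t QQ.k)] 30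
    8
    [NumI.V.of 10000 (-450) (-250), NumI.V.of 10000 870 1145] = true := by
    decide +kernel
  obtain ⟨f, hf, hp⟩ := chkT2 h (by norm_num) (x := t) (y := k)
    (le_trans (by norm_num) b1) (le_trans b2 (by norm_num)) (le_trans (by norm_num) b3) (le_trans b4 (by norm_num))
  by_contra hc
  have hc := not_lt.1 hc
  simp only [List.mem_cons, List.not_mem_nil, or_false] at hf
  rcases hf with rfl | rfl | rfl
  · simp only [E.val, NumI.lkR, QQ.t, QQ.k, QQ.w] at hp
    push_cast at hp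
    try simp only [zero_div, div_one] at hp hc
    first
      | with_reducible exact absurd (sub_pos.1 hp) (not_lt.2 hc)
      | with_reducible exact absurd hp (not_lt.2 (add_le_of_le_neg hc))
      | with_reducible exact absurd (sub_pos.1 hp) (not_lt.2 b5)
      | with_reducible exact absurd (sub_pos.1 hp) (not_lt.2 b6)
      | linarith
  · simp only [E.val, NumI.lkR, QQ.t, QQ.k, QQ.w] at hp
    push_cast at hp
    try simp only [zero_div, div_one] at hp hc
    first
      | with_reducible exact absurd (sub_pos.1 hp) (not_lt.2 hc)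
      | with_reducible exact absurd hp (not_lt.2 (add_le_of_le_neg hc))
      | with_reducible exact absurd (sub_pos.1 hp) (not_lt.2 b5)
      | with_reducible exact absurd (sub_pos.1 hp) (not_lt.2 b6)
      | linarith
  · simp only [E.val, NumI.lkR, QQ.t, QQ.k, QQ.w] at hp
    push_cast at hp
    try simp only [zero_div, div_one] at hp hc
    first
      | with_reducible exact absurd (sub_pos.1 hp) (not_lt.2 hc)
      | with_reducible exact absurd hp (not_lt.2 (add_le_of_le_neg hc))
      | with_reducible exact absurd (sub_pos.1 hp) (not_lt.2 b5)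
      | with_reducible exact absurd (sub_pos.1 hp) (not_lt.2 b6)
      | linarith

theorem f_e_threeK_0 {t k : ℝ} (b1 : -(450 / 10000) ≤ t) (b2 : t ≤ -(250 / 10000)) (b3 : 870 / 10000 ≤ k) (b4 : k ≤ 1145 / 10000) (b5 : t + k ≤ 77 / 1000) (b6 : 51 / 1000 ≤ t + k) :
    17 / 100 < Real.pi * (7 / 25 * k + t * (9 / 50) - t - k) + uu (23 / 50) (t + k) - uu (7 / 25) t - uu (9 / 50) k + 47 / 20 * t + 353 / 250 * k := by
  have h : chkT [sub (add (add (sub (sub (add (mul pi (sub (sub (add (mul (q 7 25) QQ.k) (mul QQ.t (q 9 50))) QQ.t) QQ.k)) (E.uu (q 23 50) (add QQ.t QQ.k))) (E.uu (q 7 25) QQ.t)) (E.uu (q 9 50) QQ.k)) (mul (q 47 20) QQ.t)) (mul (q 353 250) QQ.k)) (q 17 100), sub (add QQ.t QQ.k) (q 77 1000), sub (q 51 1000) (add QQ.t QQ.k)] 30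
    8
    [NumI.V.of 10000 (-450) (-250), NumI.V.of 10000 870 1145] = true := by
    decide +kernel
  obtain ⟨f, hf, hp⟩ := chkT2 h (by norm_num) (x := t) (y := k)
    (le_trans (by norm_num) b1) (le_trans b2 (by norm_num)) (le_trans (by norm_num) b3) (le_trans b4 (by norm_num))
  by_contra hc
  have hc := not_lt.1 hc
  simp only [List.mem_cons, List.not_mem_nil, or_false] at hf
  rcases hf with rfl | rfl | rfl
  · simp only [E.val, NumI.lkR, QQ.t, QQ.k, QQ.w] at hp
    push_cast at hp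
    try simp only [zero_div, div_one] at hp hc
    first
      | with_reducible exact absurd (sub_pos.1 hp) (not_lt.2 hc)
      | with_reducible exact absurd hp (not_lt.2 (add_le_of_le_neg hc))
      | with_reducible exact absurd (sub_pos.1 hp) (not_lt.2 b5)
      | with_reducible exact absurd (sub_pos.1 hp) (not_lt.2 b6)
      | linarith
  · simp only [E.val, NumI.lkR, QQ.t, QQ.k, QQ.w] at hp
    push_cast at hp
    try simp only [zero_div, div_one] at hp hc
    first
      | with_reducible exact absurd (sub_pos.1 hp) (not_lt.2 hc)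
      | with_reducible exact absurd hp (not_lt.2 (add_le_of_le_neg hc))
      | with_reducible exact absurd (sub_pos.1 hp) (not_lt.2 b5)
      | with_reducible exact absurd (sub_pos.1 hp) (not_lt.2 b6)
      | linarith
  · simp only [E.val, NumI.lkR, QQ.t, QQ.k, QQ.w] at hp
    push_cast at hp
    try simp only [zero_div, div_one] at hp hc
    first
      | with_reducible exact absurd (sub_pos.1 hp) (not_lt.2 hc)
      | with_reducible exact absurd hp (not_lt.2 (add_le_of_le_neg hc))
      | with_reducible exact absurd (sub_pos.1 hp) (not_lt.2 b5)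
      | with_reducible exact absurd (sub_pos.1 hp) (not_lt.2 b6)
      | linarith

theorem f_e_threeE_0 {t k : ℝ} (b1 : -(240 / 10000) ≤ t) (b2 : t ≤ -(110 / 10000)) (b3 : 690 / 10000 ≤ k) (b4 : k ≤ 780 / 10000) (b5 : t + k ≤ 8 / 125) (b6 : 51 / 1000 ≤ t + k) :
    19 / 100 < Real.pi * (7 / 25 * k + t * (11 / 50) - t - k) + uu (1 / 2) (t + k) - uu (7 / 25) t - uu (11 / 50) k + 47 / 20 * t + 243 / 200 * k := by
  have h : chkT [sub (add (add (sub (sub (add (mul pi (sub (sub (add (mul (q 7 25) QQ.k) (mul QQ.t (q 11 50))) QQ.t) QQ.k)) (E.uu (q 1 2) (add QQ.t QQ.k))) (E.uu (q 7 25) QQ.t)) (E.uu (q 11 50) QQ.k)) (mul (q 47 20) QQ.t)) (mul (q 243 200) QQ.k)) (q 19 100), sub (add QQ.t QQ.k) (q 8 125), sub (q 51 1000) (add QQ.t QQ.k)] 30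
    8
    [NumI.V.of 10000 (-240) (-110), NumI.V.of 10000 690 780] = true := by
    decide +kernel
  obtain ⟨f, hf, hp⟩ := chkT2 h (by norm_num) (x := t) (y := k)
    (le_trans (by norm_num) b1) (le_trans b2 (by norm_num)) (le_trans (by norm_num) b3) (le_trans b4 (by norm_num))
  by_contra hc
  have hc := not_lt.1 hc
  simp only [List.mem_cons, List.not_mem_nil, or_false] at hf
  rcases hf with rfl | rfl | rfl
  · simp only [E.val, NumI.lkR, QQ.t, QQ.k, QQ.w] at hp
    push_cast at hp
    try simp only [zero_div, div_one] at hp hc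
    first
      | with_reducible exact absurd (sub_pos.1 hp) (not_lt.2 hc)
      | with_reducible exact absurd hp (not_lt.2 (add_le_of_le_neg hc))
      | with_reducible exact absurd (sub_pos.1 hp) (not_lt.2 b5)
      | with_reducible exact absurd (sub_pos.1 hp) (not_lt.2 b6)
      | linarith
  · simp only [E.val, NumI.lkR, QQ.t, QQ.k, QQ.w] at hp
    push_cast at hp
    try simp only [zero_div, div_one] at hp hc
    first
      | with_reducible exact absurd (sub_pos.1 hp) (not_lt.2 hc)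
      | with_reducible exact absurd hp (not_lt.2 (add_le_of_le_neg hc))
      | with_reducible exact absurd (sub_pos.1 hp) (not_lt.2 b5)
      | with_reducible exact absurd (sub_pos.1 hp) (not_lt.2 b6)
      | linarith
  · simp only [E.val, NumI.lkR, QQ.t, QQ.k, QQ.w] at hp
    push_cast at hp
    try simp only [zero_div, div_one] at hp hc
    first
      | with_reducible exact absurd (sub_pos.1 hp) (not_lt.2 hc)
      | with_reducible exact absurd hp (not_lt.2 (add_le_of_le_neg hc))
      | with_reducible exact absurd (sub_pos.1 hp) (not_lt.2 b5)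
      | with_reducible exact absurd (sub_pos.1 hp) (not_lt.2 b6)
      | linarith

theorem f_e_ring_0 {t k : ℝ} (b1 : -(610 / 10000) ≤ t) (b2 : t ≤ -(240 / 10000)) (b3 : 1000 / 10000 ≤ k) (b4 : k ≤ 1580 / 10000) (b5 : t + k ≤ 53 / 500) (b6 : 8 / 125 ≤ t + k) :
    1 / 5 < Real.pi * (7 / 25 * k + t * (9 / 50) - t - k) + uu (23 / 50) (t + k) - uu (7 / 25) t - uu (9 / 50) k + 47 / 20 * t + 839 / 500 * k := by
  have h : chkT [sub (add (add (sub (sub (add (mul pi (sub (sub (add (mul (q 7 25) QQ.k) (mul QQ.t (q 9 50))) QQ.t) QQ.k)) (E.uu (q 23 50) (add QQ.t QQ.k))) (E.uu (q 7 25) QQ.t)) (E.uu (q 9 50) QQ.k)) (mul (q 47 20) QQ.t)) (mul (q 839 500) QQ.k)) (q 1 5), sub (add QQ.t QQ.k) (q 53 500), sub (q 8 125) (add QQ.t QQ.k)] 30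
    8
    [NumI.V.of 10000 (-610) (-240), NumI.V.of 10000 1000 1580] = true := by
    decide +kernel
  obtain ⟨f, hf, hp⟩ := chkT2 h (by norm_num) (x := t) (y := k)
    (le_trans (by norm_num) b1) (le_trans b2 (by norm_num)) (le_trans (by norm_num) b3) (le_trans b4 (by norm_num))
  by_contra hc
  have hc := not_lt.1 hc
  simp only [List.mem_cons, List.not_mem_nil, or_false] at hf
  rcases hf with rfl | rfl | rfl
  · simp only [E.val, NumI.lkR, QQ.t, QQ.k, QQ.w] at hp
    push_cast at hp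
    try simp only [zero_div, div_one] at hp hc
    first
      | with_reducible exact absurd (sub_pos.1 hp) (not_lt.2 hc)
      | with_reducible exact absurd hp (not_lt.2 (add_le_of_le_neg hc))
      | with_reducible exact absurd (sub_pos.1 hp) (not_lt.2 b5)
      | with_reducible exact absurd (sub_pos.1 hp) (not_lt.2 b6)
      | linarith
  · simp only [E.val, NumI.lkR, QQ.t, QQ.k, QQ.w] at hp
    push_cast at hp
    try simp only [zero_div, div_one] at hp hc
    first
      | with_reducible exact absurd (sub_pos.1 hp) (not_lt.2 hc)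
      | with_reducible exact absurd hp (not_lt.2 (add_le_of_le_neg hc))
      | with_reducible exact absurd (sub_pos.1 hp) (not_lt.2 b5)
      | with_reducible exact absurd (sub_pos.1 hp) (not_lt.2 b6)
      | linarith
  · simp only [E.val, NumI.lkR, QQ.t, QQ.k, QQ.w] at hp
    push_cast at hp
    try simp only [zero_div, div_one] at hp hc
    first
      | with_reducible exact absurd (sub_pos.1 hp) (not_lt.2 hc)
      | with_reducible exact absurd hp (not_lt.2 (add_le_of_le_neg hc))
      | with_reducible exact absurd (sub_pos.1 hp) (not_lt.2 b5)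
      | with_reducible exact absurd (sub_pos.1 hp) (not_lt.2 b6)
      | linarith

theorem f_e_ring_1 {t k : ℝ} (b1 : -(610 / 10000) ≤ t) (b2 : t ≤ -(240 / 10000)) (b3 : 1000 / 10000 ≤ k) (b4 : k ≤ 1580 / 10000) (b5 : t + k ≤ 53 / 500) (b6 : 8 / 125 ≤ t + k) :
    41 / 250 < Real.pi * (7 / 25 * k + t * (9 / 50) - t - k) + uu (23 / 50) (t + k) - uu (7 / 25) t - uu (9 / 50) k + 47 / 20 * t + 1397 / 1000 * k := by
  have h : chkT [sub (add (add (sub (sub (add (mul pi (sub (sub (add (mul (q 7 25) QQ.k) (mul QQ.t (q 9 50))) QQ.t) QQ.k)) (E.uu (q 23 50) (add QQ.t QQ.k))) (E.uu (q 7 25) QQ.t)) (E.uu (q 9 50) QQ.k)) (mul (q 47 20) QQ.t)) (mul (q 1397 1000) QQ.k)) (q 41 250), sub (add QQ.t QQ.k) (q 53 500), sub (q 8 125) (add QQ.t QQ.k)] 30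
    8
    [NumI.V.of 10000 (-610) (-240), NumI.V.of 10000 1000 1580] = true := by
    decide +kernel
  obtain ⟨f, hf, hp⟩ := chkT2 h (by norm_num) (x := t) (y := k)
    (le_trans (by norm_num) b1) (le_trans b2 (by norm_num)) (le_trans (by norm_num) b3) (le_trans b4 (by norm_num))
  by_contra hc
  have hc := not_lt.1 hc
  simp only [List.mem_cons, List.not_mem_nil, or_false] at hf
  rcases hf with rfl | rfl | rfl
  · simp only [E.val, NumI.lkR, QQ.t, QQ.k, QQ.w] at hp
    push_cast at hp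
    try simp only [zero_div, div_one] at hp hc
    first
      | with_reducible exact absurd (sub_pos.1 hp) (not_lt.2 hc)
      | with_reducible exact absurd hp (not_lt.2 (add_le_of_le_neg hc))
      | with_reducible exact absurd (sub_pos.1 hp) (not_lt.2 b5)
      | with_reducible exact absurd (sub_pos.1 hp) (not_lt.2 b6)
      | linarith
  · simp only [E.val, NumI.lkR, QQ.t, QQ.k, QQ.w] at hp
    push_cast at hp
    try simp only [zero_div, div_one] at hp hc
    first
      | with_reducible exact absurd (sub_pos.1 hp) (not_lt.2 hc)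
      | with_reducible exact absurd hp (not_lt.2 (add_le_of_le_neg hc))
      | with_reducible exact absurd (sub_pos.1 hp) (not_lt.2 b5)
      | with_reducible exact absurd (sub_pos.1 hp) (not_lt.2 b6)
      | linarith
  · simp only [E.val, NumI.lkR, QQ.t, QQ.k, QQ.w] at hp
    push_cast at hp
    try simp only [zero_div, div_one] at hp hc
    first
      | with_reducible exact absurd (sub_pos.1 hp) (not_lt.2 hc)
      | with_reducible exact absurd hp (not_lt.2 (add_le_of_le_neg hc))
      | with_reducible exact absurd (sub_pos.1 hp) (not_lt.2 b5)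
      | with_reducible exact absurd (sub_pos.1 hp) (not_lt.2 b6)
      | linarith

theorem f_e_touched_0 {t k : ℝ} (b1 : -(660 / 10000) ≤ t) (b2 : t ≤ 10 / 10000) (b3 : -(330 / 10000) ≤ k) (b4 : k ≤ 1580 / 10000) :
    6 / 25 < Real.pi * (7 / 25 * k + t * (1 / 5) - t - k) + uu (12 / 25) (t + k) - uu (7 / 25) t - uu (1 / 5) k + 47 / 20 * t + 59 / 25 * k := by
  have h : chkT [sub (add (add (sub (sub (add (mul pi (sub (sub (add (mul (q 7 25) QQ.k) (mul QQ.t (q 1 5))) QQ.t) QQ.k)) (E.uu (q 12 25) (add QQ.t QQ.k))) (E.uu (q 7 25) QQ.t)) (E.uu (q 1 5) QQ.k)) (mul (q 47 20) QQ.t)) (mul (q 59 25) QQ.k)) (q 6 25)] 30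
    2177
    [NumI.V.of 10000 (-660) 10, NumI.V.of 10000 (-330) 1580] = true := by
    decide +kernel
  obtain ⟨f, hf, hp⟩ := chkT2 h (by norm_num) (x := t) (y := k)
    (le_trans (by norm_num) b1) (le_trans b2 (by norm_num)) (le_trans (by norm_num) b3) (le_trans b4 (by norm_num))
  by_contra hc
  have hc := not_lt.1 hc
  simp only [List.mem_cons, List.not_mem_nil, or_false] at hf
  rcases hf with rfl
  · simp only [E.val, NumI.lkR, QQ.t, QQ.k, QQ.w] at hp
    push_cast at hp
    try simp only [zero_div, div_one] at hp hc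
    first
      | with_reducible exact absurd (sub_pos.1 hp) (not_lt.2 hc)
      | with_reducible exact absurd hp (not_lt.2 (add_le_of_le_neg hc))
      | linarith

theorem f_h_one_0 {t k : ℝ} (b1 : 100 / 10000 ≤ t) (b2 : t ≤ 580 / 10000) (b3 : -(610 / 10000) ≤ k) (b4 : k ≤ 650 / 10000) (b5 : t + k ≤ 101 / 1000) (b6 : -11 / 1000 ≤ t + k) :
    153 / 1000 < Real.pi * (7 / 25 * k + t * (9 / 50) - t - k) + uu (23 / 50) (t + k) - uu (7 / 25) t - uu (9 / 50) k + 41 / 20 * t + 3927 / 1250 * k := by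
  have h : chkT [sub (add (add (sub (sub (add (mul pi (sub (sub (add (mul (q 7 25) QQ.k) (mul QQ.t (q 9 50))) QQ.t) QQ.k)) (E.uu (q 23 50) (add QQ.t QQ.k))) (E.uu (q 7 25) QQ.t)) (E.uu (q 9 50) QQ.k)) (mul (q 41 20) QQ.t)) (mul (q 3927 1250) QQ.k)) (q 153 1000), sub (add QQ.t QQ.k) (q 101 1000), sub (q (-11) 1000) (add QQ.t QQ.k)] 30
    8
    [NumI.V.of 10000 100 580, NumI.V.of 10000 (-610) 650] = true := by
    decide +kernel
  obtain ⟨f, hf, hp⟩ := chkT2 h (by norm_num) (x := t) (y := k)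
    (le_trans (by norm_num) b1) (le_trans b2 (by norm_num)) (le_trans (by norm_num) b3) (le_trans b4 (by norm_num))
  by_contra hc
  have hc := not_lt.1 hc
  simp only [List.mem_cons, List.not_mem_nil, or_false] at hf
  rcases hf with rfl | rfl | rfl
  · simp only [E.val, NumI.lkR, QQ.t, QQ.k, QQ.w] at hp
    push_cast at hp
    try simp only [zero_div, div_one] at hp hc
    first
      | with_reducible exact absurd (sub_pos.1 hp) (not_lt.2 hc)
      | with_reducible exact absurd hp (not_lt.2 (add_le_of_le_neg hc))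
      | with_reducible exact absurd (sub_pos.1 hp) (not_lt.2 b5)
      | with_reducible exact absurd (sub_pos.1 hp) (not_lt.2 b6)
      | linarith
  · simp only [E.val, NumI.lkR, QQ.t, QQ.k, QQ.w] at hp
    push_cast at hp
    try simp only [zero_div, div_one] at hp hc
    first
      | with_reducible exact absurd (sub_pos.1 hp) (not_lt.2 hc)
      | with_reducible exact absurd hp (not_lt.2 (add_le_of_le_neg hc))
      | with_reducible exact absurd (sub_pos.1 hp) (not_lt.2 b5)
      | with_reducible exact absurd (sub_pos.1 hp) (not_lt.2 b6)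
      | linarith
  · simp only [E.val, NumI.lkR, QQ.t, QQ.k, QQ.w] at hp
    push_cast at hp
    try simp only [zero_div, div_one] at hp hc
    first
      | with_reducible exact absurd (sub_pos.1 hp) (not_lt.2 hc)
      | with_reducible exact absurd hp (not_lt.2 (add_le_of_le_neg hc))
      | with_reducible exact absurd (sub_pos.1 hp) (not_lt.2 b5)
      | with_reducible exact absurd (sub_pos.1 hp) (not_lt.2 b6)
      | linarith

theorem f_h_one_1 {t k : ℝ} (b1 : 100 / 10000 ≤ t) (b2 : t ≤ 580 / 10000) (b3 : -(610 / 10000) ≤ k) (b4 : k ≤ 650 / 10000) (b5 : t + k ≤ 101 / 1000) (b6 : -11 / 1000 ≤ t + k) :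
    24 / 125 < Real.pi * (7 / 25 * k + t * (9 / 50) - t - k) + uu (23 / 50) (t + k) - uu (7 / 25) t - uu (9 / 50) k + 41 / 20 * t + 821 / 500 * k := by
  have h : chkT [sub (add (add (sub (sub (add (mul pi (sub (sub (add (mul (q 7 25) QQ.k) (mul QQ.t (q 9 50))) QQ.t) QQ.k)) (E.uu (q 23 50) (add QQ.t QQ.k))) (E.uu (q 7 25) QQ.t)) (E.uu (q 9 50) QQ.k)) (mul (q 41 20) QQ.t)) (mul (q 821 500) QQ.k)) (q 24 125), sub (add QQ.t QQ.k) (q 101 1000), sub (q (-11) 1000) (add QQ.t QQ.k)] 30
    2177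
    [NumI.V.of 10000 100 580, NumI.V.of 10000 (-610) 650] = true := by
    decide +kernel
  obtain ⟨f, hf, hp⟩ := chkT2 h (by norm_num) (x := t) (y := k)
    (le_trans (by norm_num) b1) (le_trans b2 (by norm_num)) (le_trans (by norm_num) b3) (le_trans b4 (by norm_num))
  by_contra hc
  have hc := not_lt.1 hc
  simp only [List.mem_cons, List.not_mem_nil, or_false] at hf
  rcases hf with rfl | rfl | rfl
  · simp only [E.val, NumI.lkR, QQ.t, QQ.k, QQ.w] at hp
    push_cast at hp
    try simp only [zero_div, div_one] at hp hc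
    first
      | with_reducible exact absurd (sub_pos.1 hp) (not_lt.2 hc)
      | with_reducible exact absurd hp (not_lt.2 (add_le_of_le_neg hc))
      | with_reducible exact absurd (sub_pos.1 hp) (not_lt.2 b5)
      | with_reducible exact absurd (sub_pos.1 hp) (not_lt.2 b6)
      | linarith
  · simp only [E.val, NumI.lkR, QQ.t, QQ.k, QQ.w] at hp
    push_cast at hp
    try simp only [zero_div, div_one] at hp hc
    first
      | with_reducible exact absurd (sub_pos.1 hp) (not_lt.2 hc)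
      | with_reducible exact absurd hp (not_lt.2 (add_le_of_le_neg hc))
      | with_reducible exact absurd (sub_pos.1 hp) (not_lt.2 b5)
      | with_reducible exact absurd (sub_pos.1 hp) (not_lt.2 b6)
      | linarith
  · simp only [E.val, NumI.lkR, QQ.t, QQ.k, QQ.w] at hp
    push_cast at hp
    try simp only [zero_div, div_one] at hp hc
    first
      | with_reducible exact absurd (sub_pos.1 hp) (not_lt.2 hc)
      | with_reducible exact absurd hp (not_lt.2 (add_le_of_le_neg hc))
      | with_reducible exact absurd (sub_pos.1 hp) (not_lt.2 b5)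
      | with_reducible exact absurd (sub_pos.1 hp) (not_lt.2 b6)
      | linarith

theorem f_h_one_2 {t k : ℝ} (b1 : 100 / 10000 ≤ t) (b2 : t ≤ 580 / 10000) (b3 : -(610 / 10000) ≤ k) (b4 : k ≤ 650 / 10000) (b5 : t + k ≤ 101 / 1000) (b6 : -11 / 1000 ≤ t + k) :
    43 / 200 < Real.pi * (7 / 25 * k + t * (9 / 50) - t - k) + uu (23 / 50) (t + k) - uu (7 / 25) t - uu (9 / 50) k + 41 / 20 * t + 1849 / 1000 * k := by
  have h : chkT [sub (add (add (sub (sub (add (mul pi (sub (sub (add (mul (q 7 25) QQ.k) (mul QQ.t (q 9 50))) QQ.t) QQ.k)) (E.uu (q 23 50) (add QQ.t QQ.k))) (E.uu (q 7 25) QQ.t)) (E.uu (q 9 50) QQ.k)) (mul (q 41 20) QQ.t)) (mul (q 1849 1000) QQ.k)) (q 43 200), sub (add QQ.t QQ.k) (q 101 1000), sub (q (-11) 1000) (add QQ.t QQ.k)] 30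
    2177
    [NumI.V.of 10000 100 580, NumI.V.of 10000 (-610) 650] = true := by
    decide +kernel
  obtain ⟨f, hf, hp⟩ := chkT2 h (by norm_num) (x := t) (y := k)
    (le_trans (by norm_num) b1) (le_trans b2 (by norm_num)) (le_trans (by norm_num) b3) (le_trans b4 (by norm_num))
  by_contra hc
  have hc := not_lt.1 hc
  simp only [List.mem_cons, List.not_mem_nil, or_false] at hf
  rcases hf with rfl | rfl | rfl
  · simp only [E.val, NumI.lkR, QQ.t, QQ.k, QQ.w] at hp
    push_cast at hp
    try simp only [zero_div, div_one] at hp hc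
    first
      | with_reducible exact absurd (sub_pos.1 hp) (not_lt.2 hc)
      | with_reducible exact absurd hp (not_lt.2 (add_le_of_le_neg hc))
      | with_reducible exact absurd (sub_pos.1 hp) (not_lt.2 b5)
      | with_reducible exact absurd (sub_pos.1 hp) (not_lt.2 b6)
      | linarith
  · simp only [E.val, NumI.lkR, QQ.t, QQ.k, QQ.w] at hp
    push_cast at hp
    try simp only [zero_div, div_one] at hp hc
    first
      | with_reducible exact absurd (sub_pos.1 hp) (not_lt.2 hc)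
      | with_reducible exact absurd hp (not_lt.2 (add_le_of_le_neg hc))
      | with_reducible exact absurd (sub_pos.1 hp) (not_lt.2 b5)
      | with_reducible exact absurd (sub_pos.1 hp) (not_lt.2 b6)
      | linarith
  · simp only [E.val, NumI.lkR, QQ.t, QQ.k, QQ.w] at hp
    push_cast at hp
    try simp only [zero_div, div_one] at hp hc
    first
      | with_reducible exact absurd (sub_pos.1 hp) (not_lt.2 hc)
      | with_reducible exact absurd hp (not_lt.2 (add_le_of_le_neg hc))
      | with_reducible exact absurd (sub_pos.1 hp) (not_lt.2 b5)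
      | with_reducible exact absurd (sub_pos.1 hp) (not_lt.2 b6)
      | linarith

theorem f_h_one_3 {t k : ℝ} (b1 : 100 / 10000 ≤ t) (b2 : t ≤ 580 / 10000) (b3 : -(610 / 10000) ≤ k) (b4 : k ≤ 650 / 10000) (b5 : t + k ≤ 101 / 1000) (b6 : -11 / 1000 ≤ t + k) :
    43 / 200 < Real.pi * (7 / 25 * k + t * (9 / 50) - t - k) + uu (23 / 50) (t + k) - uu (7 / 25) t - uu (9 / 50) k + 41 / 20 * t + 1309 / 500 * k := by
  have h : chkT [sub (add (add (sub (sub (add (mul pi (sub (sub (add (mul (q 7 25) QQ.k) (mul QQ.t (q 9 50))) QQ.t) QQ.k)) (E.uu (q 23 50) (add QQ.t QQ.k))) (E.uu (q 7 25) QQ.t)) (E.uu (q 9 50) QQ.k)) (mul (q 41 20) QQ.t)) (mul (q 1309 500) QQ.k)) (q 43 200), sub (add QQ.t QQ.k) (q 101 1000), sub (q (-11) 1000) (add QQ.t QQ.k)] 30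
    2177
    [NumI.V.of 10000 100 580, NumI.V.of 10000 (-610) 650] = true := by
    decide +kernel
  obtain ⟨f, hf, hp⟩ := chkT2 h (by norm_num) (x := t) (y := k)
    (le_trans (by norm_num) b1) (le_trans b2 (by norm_num)) (le_trans (by norm_num) b3) (le_trans b4 (by norm_num))
  by_contra hc
  have hc := not_lt.1 hc
  simp only [List.mem_cons, List.not_mem_nil, or_false] at hf
  rcases hf with rfl | rfl | rfl
  · simp only [E.val, NumI.lkR, QQ.t, QQ.k, QQ.w] at hp
    push_cast at hp
    try simp only [zero_div, div_one] at hp hc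
    first
      | with_reducible exact absurd (sub_pos.1 hp) (not_lt.2 hc)
      | with_reducible exact absurd hp (not_lt.2 (add_le_of_le_neg hc))
      | with_reducible exact absurd (sub_pos.1 hp) (not_lt.2 b5)
      | with_reducible exact absurd (sub_pos.1 hp) (not_lt.2 b6)
      | linarith
  · simp only [E.val, NumI.lkR, QQ.t, QQ.k, QQ.w] at hp
    push_cast at hp
    try simp only [zero_div, div_one] at hp hc
    first
      | with_reducible exact absurd (sub_pos.1 hp) (not_lt.2 hc)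
      | with_reducible exact absurd hp (not_lt.2 (add_le_of_le_neg hc))
      | with_reducible exact absurd (sub_pos.1 hp) (not_lt.2 b5)
      | with_reducible exact absurd (sub_pos.1 hp) (not_lt.2 b6)
      | linarith
  · simp only [E.val, NumI.lkR, QQ.t, QQ.k, QQ.w] at hp
    push_cast at hp
    try simp only [zero_div, div_one] at hp hc
    first
      | with_reducible exact absurd (sub_pos.1 hp) (not_lt.2 hc)
      | with_reducible exact absurd hp (not_lt.2 (add_le_of_le_neg hc))
      | with_reducible exact absurd (sub_pos.1 hp) (not_lt.2 b5)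
      | with_reducible exact absurd (sub_pos.1 hp) (not_lt.2 b6)
      | linarith

theorem f_h_two_0 {t k : ℝ} (b1 : 300 / 10000 ≤ t) (b2 : t ≤ 590 / 10000) (b3 : 320 / 10000 ≤ k) (b4 : k ≤ 910 / 10000) (b5 : t + k ≤ 67 / 500) (b6 : 83 / 1000 ≤ t + k) :
    223 / 1000 < Real.pi * (7 / 25 * k + t * (1 / 4) - t - k) + uu (53 / 100) (t + k) - uu (7 / 25) t - uu (1 / 4) k + 41 / 20 * t + 1571 / 1000 * k := by
  have h : chkT [sub (add (add (sub (sub (add (mul pi (sub (sub (add (mul (q 7 25) QQ.k) (mul QQ.t (q 1 4))) QQ.t) QQ.k)) (E.uu (q 53 100) (add QQ.t QQ.k))) (E.uu (q 7 25) QQ.t)) (E.uu (q 1 4) QQ.k)) (mul (q 41 20) QQ.t)) (mul (q 1571 1000) QQ.k)) (q 223 1000), sub (add QQ.t QQ.k) (q 67 500), sub (q 83 1000) (add QQ.t QQ.k)] 30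
    8
    [NumI.V.of 10000 300 590, NumI.V.of 10000 320 910] = true := by
    decide +kernel
  obtain ⟨f, hf, hp⟩ := chkT2 h (by norm_num) (x := t) (y := k)
    (le_trans (by norm_num) b1) (le_trans b2 (by norm_num)) (le_trans (by norm_num) b3) (le_trans b4 (by norm_num))
  by_contra hc
  have hc := not_lt.1 hc
  simp only [List.mem_cons, List.not_mem_nil, or_false] at hf
  rcases hf with rfl | rfl | rfl
  · simp only [E.val, NumI.lkR, QQ.t, QQ.k, QQ.w] at hp
    push_cast at hp
    try simp only [zero_div, div_one] at hp hc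
    first
      | with_reducible exact absurd (sub_pos.1 hp) (not_lt.2 hc)
      | with_reducible exact absurd hp (not_lt.2 (add_le_of_le_neg hc))
      | with_reducible exact absurd (sub_pos.1 hp) (not_lt.2 b5)
      | with_reducible exact absurd (sub_pos.1 hp) (not_lt.2 b6)
      | linarith
  · simp only [E.val, NumI.lkR, QQ.t, QQ.k, QQ.w] at hp
    push_cast at hp
    try simp only [zero_div, div_one] at hp hc
    first
      | with_reducible exact absurd (sub_pos.1 hp) (not_lt.2 hc)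
      | with_reducible exact absurd hp (not_lt.2 (add_le_of_le_neg hc))
      | with_reducible exact absurd (sub_pos.1 hp) (not_lt.2 b5)
      | with_reducible exact absurd (sub_pos.1 hp) (not_lt.2 b6)
      | linarith
  · simp only [E.val, NumI.lkR, QQ.t, QQ.k, QQ.w] at hp
    push_cast at hp
    try simp only [zero_div, div_one] at hp hc
    first
      | with_reducible exact absurd (sub_pos.1 hp) (not_lt.2 hc)
      | with_reducible exact absurd hp (not_lt.2 (add_le_of_le_neg hc))
      | with_reducible exact absurd (sub_pos.1 hp) (not_lt.2 b5)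
      | with_reducible exact absurd (sub_pos.1 hp) (not_lt.2 b6)
      | linarith

theorem f_h_twoE_0 {t k : ℝ} (b1 : 690 / 10000 ≤ t) (b2 : t ≤ 780 / 10000) (b3 : -(240 / 10000) ≤ k) (b4 : k ≤ -(110 / 10000)) (b5 : t + k ≤ 8 / 125) (b6 : 51 / 1000 ≤ t + k) :
    23 / 100 < Real.pi * (7 / 25 * k + t * (11 / 50) - t - k) + uu (1 / 2) (t + k) - uu (7 / 25) t - uu (11 / 50) k + 41 / 20 * t + 1131 / 500 * k := by
  have h : chkT [sub (add (add (sub (sub (add (mul pi (sub (sub (add (mul (q 7 25) QQ.k) (mul QQ.t (q 11 50))) QQ.t) QQ.k)) (E.uu (q 1 2) (add QQ.t QQ.k))) (E.uu (q 7 25) QQ.t)) (E.uu (q 11 50) QQ.k)) (mul (q 41 20) QQ.t)) (mul (q 1131 500) QQ.k)) (q 23 100), sub (add QQ.t QQ.k) (q 8 125), sub (q 51 1000) (add QQ.t QQ.k)] 30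
    8
    [NumI.V.of 10000 690 780, NumI.V.of 10000 (-240) (-110)] = true := by
    decide +kernel
  obtain ⟨f, hf, hp⟩ := chkT2 h (by norm_num) (x := t) (y := k)
    (le_trans (by norm_num) b1) (le_trans b2 (by norm_num)) (le_trans (by norm_num) b3) (le_trans b4 (by norm_num))
  by_contra hc
  have hc := not_lt.1 hc
  simp only [List.mem_cons, List.not_mem_nil, or_false] at hf
  rcases hf with rfl | rfl | rfl
  · simp only [E.val, NumI.lkR, QQ.t, QQ.k, QQ.w] at hp
    push_cast at hp
    try simp only [zero_div, div_one] at hp hc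
    first
      | with_reducible exact absurd (sub_pos.1 hp) (not_lt.2 hc)
      | with_reducible exact absurd hp (not_lt.2 (add_le_of_le_neg hc))
      | with_reducible exact absurd (sub_pos.1 hp) (not_lt.2 b5)
      | with_reducible exact absurd (sub_pos.1 hp) (not_lt.2 b6)
      | linarith
  · simp only [E.val, NumI.lkR, QQ.t, QQ.k, QQ.w] at hp
    push_cast at hp
    try simp only [zero_div, div_one] at hp hc
    first
      | with_reducible exact absurd (sub_pos.1 hp) (not_lt.2 hc)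
      | with_reducible exact absurd hp (not_lt.2 (add_le_of_le_neg hc))
      | with_reducible exact absurd (sub_pos.1 hp) (not_lt.2 b5)
      | with_reducible exact absurd (sub_pos.1 hp) (not_lt.2 b6)
      | linarith
  · simp only [E.val, NumI.lkR, QQ.t, QQ.k, QQ.w] at hp
    push_cast at hp
    try simp only [zero_div, div_one] at hp hc
    first
      | with_reducible exact absurd (sub_pos.1 hp) (not_lt.2 hc)
      | with_reducible exact absurd hp (not_lt.2 (add_le_of_le_neg hc))
      | with_reducible exact absurd (sub_pos.1 hp) (not_lt.2 b5)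
      | with_reducible exact absurd (sub_pos.1 hp) (not_lt.2 b6)
      | linarith

theorem f_h_touched_0 {t k : ℝ} (b1 : 100 / 10000 ≤ t) (b2 : t ≤ 780 / 10000) (b3 : -(610 / 10000) ≤ k) (b4 : k ≤ 910 / 10000) :
    21 / 100 < Real.pi * (7 / 25 * k + t * (1 / 5) - t - k) + uu (12 / 25) (t + k) - uu (7 / 25) t - uu (1 / 5) k + 41 / 20 * t + 59 / 25 * k := by
  have h : chkT [sub (add (add (sub (sub (add (mul pi (sub (sub (add (mul (q 7 25) QQ.k) (mul QQ.t (q 1 5))) QQ.t) QQ.k)) (E.uu (q 12 25) (add QQ.t QQ.k))) (E.uu (q 7 25) QQ.t)) (E.uu (q 1 5) QQ.k)) (mul (q 41 20) QQ.t)) (mul (q 59 25) QQ.k)) (q 21 100)] 30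
    8
    [NumI.V.of 10000 100 780, NumI.V.of 10000 (-610) 910] = true := by
    decide +kernel
  obtain ⟨f, hf, hp⟩ := chkT2 h (by norm_num) (x := t) (y := k)
    (le_trans (by norm_num) b1) (le_trans b2 (by norm_num)) (le_trans (by norm_num) b3) (le_trans b4 (by norm_num))
  by_contra hc
  have hc := not_lt.1 hc
  simp only [List.mem_cons, List.not_mem_nil, or_false] at hf
  rcases hf with rfl
  · simp only [E.val, NumI.lkR, QQ.t, QQ.k, QQ.w] at hp
    push_cast at hp
    try simp only [zero_div, div_one] at hp hc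
    first
      | with_reducible exact absurd (sub_pos.1 hp) (not_lt.2 hc)
      | with_reducible exact absurd hp (not_lt.2 (add_le_of_le_neg hc))
      | linarith

theorem f_r_one_0 {t k : ℝ} (b1 : 380 / 10000 ≤ t) (b2 : t ≤ 1360 / 10000) (b3 : -(800 / 10000) ≤ k) (b4 : k ≤ 510 / 10000) (b5 : t + k ≤ 143 / 1000) (b6 : -1 / 100 ≤ t + k) :
    137 / 1000 < Real.pi * (1 / 4 * k + t * (9 / 50) - t - k) + uu (43 / 100) (t + k) - uu (1 / 4) t - uu (9 / 50) k + 21 / 10 * t + 3927 / 1250 * k := by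
  have h : chkT [sub (add (add (sub (sub (add (mul pi (sub (sub (add (mul (q 1 4) QQ.k) (mul QQ.t (q 9 50))) QQ.t) QQ.k)) (E.uu (q 43 100) (add QQ.t QQ.k))) (E.uu (q 1 4) QQ.t)) (E.uu (q 9 50) QQ.k)) (mul (q 21 10) QQ.t)) (mul (q 3927 1250) QQ.k)) (q 137 1000), sub (add QQ.t QQ.k) (q 143 1000), sub (q (-1) 100) (add QQ.t QQ.k)] 30
    8
    [NumI.V.of 10000 380 1360, NumI.V.of 10000 (-800) 510] = true := by
    decide +kernel
  obtain ⟨f, hf, hp⟩ := chkT2 h (by norm_num) (x := t) (y := k)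
    (le_trans (by norm_num) b1) (le_trans b2 (by norm_num)) (le_trans (by norm_num) b3) (le_trans b4 (by norm_num))
  by_contra hc
  have hc := not_lt.1 hc
  simp only [List.mem_cons, List.not_mem_nil, or_false] at hf
  rcases hf with rfl | rfl | rfl
  · simp only [E.val, NumI.lkR, QQ.t, QQ.k, QQ.w] at hp
    push_cast at hp
    try simp only [zero_div, div_one] at hp hc
    first
      | with_reducible exact absurd (sub_pos.1 hp) (not_lt.2 hc)
      | with_reducible exact absurd hp (not_lt.2 (add_le_of_le_neg hc))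
      | with_reducible exact absurd (sub_pos.1 hp) (not_lt.2 b5)
      | with_reducible exact absurd (sub_pos.1 hp) (not_lt.2 b6)
      | linarith
  · simp only [E.val, NumI.lkR, QQ.t, QQ.k, QQ.w] at hp
    push_cast at hp
    try simp only [zero_div, div_one] at hp hc
    first
      | with_reducible exact absurd (sub_pos.1 hp) (not_lt.2 hc)
      | with_reducible exact absurd hp (not_lt.2 (add_le_of_le_neg hc))
      | with_reducible exact absurd (sub_pos.1 hp) (not_lt.2 b5)
      | with_reducible exact absurd (sub_pos.1 hp) (not_lt.2 b6)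
      | linarith
  · simp only [E.val, NumI.lkR, QQ.t, QQ.k, QQ.w] at hp
    push_cast at hp
    try simp only [zero_div, div_one] at hp hc
    first
      | with_reducible exact absurd (sub_pos.1 hp) (not_lt.2 hc)
      | with_reducible exact absurd hp (not_lt.2 (add_le_of_le_neg hc))
      | with_reducible exact absurd (sub_pos.1 hp) (not_lt.2 b5)
      | with_reducible exact absurd (sub_pos.1 hp) (not_lt.2 b6)
      | linarith

theorem f_r_one_1 {t k : ℝ} (b1 : 380 / 10000 ≤ t) (b2 : t ≤ 1360 / 10000) (b3 : -(800 / 10000) ≤ k) (b4 : k ≤ 510 / 10000) (b5 : t + k ≤ 143 / 1000) (b6 : -1 / 100 ≤ t + k) :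
    9 / 50 < Real.pi * (1 / 4 * k + t * (9 / 50) - t - k) + uu (43 / 100) (t + k) - uu (1 / 4) t - uu (9 / 50) k + 21 / 10 * t + 821 / 500 * k := by
  have h : chkT [sub (add (add (sub (sub (add (mul pi (sub (sub (add (mul (q 1 4) QQ.k) (mul QQ.t (q 9 50))) QQ.t) QQ.k)) (E.uu (q 43 100) (add QQ.t QQ.k))) (E.uu (q 1 4) QQ.t)) (E.uu (q 9 50) QQ.k)) (mul (q 21 10) QQ.t)) (mul (q 821 500) QQ.k)) (q 9 50), sub (add QQ.t QQ.k) (q 143 1000), sub (q (-1) 100) (add QQ.t QQ.k)] 30
    10451811401857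
    [NumI.V.of 10000 380 1360, NumI.V.of 10000 (-800) 510] = true := by
    decide +kernel
  obtain ⟨f, hf, hp⟩ := chkT2 h (by norm_num) (x := t) (y := k)
    (le_trans (by norm_num) b1) (le_trans b2 (by norm_num)) (le_trans (by norm_num) b3) (le_trans b4 (by norm_num))
  by_contra hc
  have hc := not_lt.1 hc
  simp only [List.mem_cons, List.not_mem_nil, or_false] at hf
  rcases hf with rfl | rfl | rfl
  · simp only [E.val, NumI.lkR, QQ.t, QQ.k, QQ.w] at hp
    push_cast at hp
    try simp only [zero_div, div_one] at hp hc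
    first
      | with_reducible exact absurd (sub_pos.1 hp) (not_lt.2 hc)
      | with_reducible exact absurd hp (not_lt.2 (add_le_of_le_neg hc))
      | with_reducible exact absurd (sub_pos.1 hp) (not_lt.2 b5)
      | with_reducible exact absurd (sub_pos.1 hp) (not_lt.2 b6)
      | linarith
  · simp only [E.val, NumI.lkR, QQ.t, QQ.k, QQ.w] at hp
    push_cast at hp
    try simp only [zero_div, div_one] at hp hc
    first
      | with_reducible exact absurd (sub_pos.1 hp) (not_lt.2 hc)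
      | with_reducible exact absurd hp (not_lt.2 (add_le_of_le_neg hc))
      | with_reducible exact absurd (sub_pos.1 hp) (not_lt.2 b5)
      | with_reducible exact absurd (sub_pos.1 hp) (not_lt.2 b6)
      | linarith
  · simp only [E.val, NumI.lkR, QQ.t, QQ.k, QQ.w] at hp
    push_cast at hp
    try simp only [zero_div, div_one] at hp hc
    first
      | with_reducible exact absurd (sub_pos.1 hp) (not_lt.2 hc)
      | with_reducible exact absurd hp (not_lt.2 (add_le_of_le_neg hc))
      | with_reducible exact absurd (sub_pos.1 hp) (not_lt.2 b5)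
      | with_reducible exact absurd (sub_pos.1 hp) (not_lt.2 b6)
      | linarith

theorem f_r_one_2 {t k : ℝ} (b1 : 380 / 10000 ≤ t) (b2 : t ≤ 1360 / 10000) (b3 : -(800 / 10000) ≤ k) (b4 : k ≤ 510 / 10000) (b5 : t + k ≤ 143 / 1000) (b6 : -1 / 100 ≤ t + k) :
    189 / 1000 < Real.pi * (1 / 4 * k + t * (9 / 50) - t - k) + uu (43 / 100) (t + k) - uu (1 / 4) t - uu (9 / 50) k + 21 / 10 * t + 1849 / 1000 * k := by
  have h : chkT [sub (add (add (sub (sub (add (mul pi (sub (sub (add (mul (q 1 4) QQ.k) (mul QQ.t (q 9 50))) QQ.t) QQ.k)) (E.uu (q 43 100) (add QQ.t QQ.k))) (E.uu (q 1 4) QQ.t)) (E.uu (q 9 50) QQ.k)) (mul (q 21 10) QQ.t)) (mul (q 1849 1000) QQ.k)) (q 189 1000), sub (add QQ.t QQ.k) (q 143 1000), sub (q (-1) 100) (add QQ.t QQ.k)] 30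
    9352299774081
    [NumI.V.of 10000 380 1360, NumI.V.of 10000 (-800) 510] = true := by
    decide +kernel
  obtain ⟨f, hf, hp⟩ := chkT2 h (by norm_num) (x := t) (y := k)
    (le_trans (by norm_num) b1) (le_trans b2 (by norm_num)) (le_trans (by norm_num) b3) (le_trans b4 (by norm_num))
  by_contra hc
  have hc := not_lt.1 hc
  simp only [List.mem_cons, List.not_mem_nil, or_false] at hf
  rcases hf with rfl | rfl | rfl
  · simp only [E.val, NumI.lkR, QQ.t, QQ.k, QQ.w] at hp
    push_cast at hp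
    try simp only [zero_div, div_one] at hp hc
    first
      | with_reducible exact absurd (sub_pos.1 hp) (not_lt.2 hc)
      | with_reducible exact absurd hp (not_lt.2 (add_le_of_le_neg hc))
      | with_reducible exact absurd (sub_pos.1 hp) (not_lt.2 b5)
      | with_reducible exact absurd (sub_pos.1 hp) (not_lt.2 b6)
      | linarith
  · simp only [E.val, NumI.lkR, QQ.t, QQ.k, QQ.w] at hp
    push_cast at hp
    try simp only [zero_div, div_one] at hp hc
    first
      | with_reducible exact absurd (sub_pos.1 hp) (not_lt.2 hc)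
      | with_reducible exact absurd hp (not_lt.2 (add_le_of_le_neg hc))
      | with_reducible exact absurd (sub_pos.1 hp) (not_lt.2 b5)
      | with_reducible exact absurd (sub_pos.1 hp) (not_lt.2 b6)
      | linarith
  · simp only [E.val, NumI.lkR, QQ.t, QQ.k, QQ.w] at hp
    push_cast at hp
    try simp only [zero_div, div_one] at hp hc
    first
      | with_reducible exact absurd (sub_pos.1 hp) (not_lt.2 hc)
      | with_reducible exact absurd hp (not_lt.2 (add_le_of_le_neg hc))
      | with_reducible exact absurd (sub_pos.1 hp) (not_lt.2 b5)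
      | with_reducible exact absurd (sub_pos.1 hp) (not_lt.2 b6)
      | linarith

theorem f_r_one_3 {t k : ℝ} (b1 : 380 / 10000 ≤ t) (b2 : t ≤ 1360 / 10000) (b3 : -(800 / 10000) ≤ k) (b4 : k ≤ 510 / 10000) (b5 : t + k ≤ 143 / 1000) (b6 : -1 / 100 ≤ t + k) :
    24 / 125 < Real.pi * (1 / 4 * k + t * (9 / 50) - t - k) + uu (43 / 100) (t + k) - uu (1 / 4) t - uu (9 / 50) k + 21 / 10 * t + 1309 / 500 * k := by
  have h : chkT [sub (add (add (sub (sub (add (mul pi (sub (sub (add (mul (q 1 4) QQ.k) (mul QQ.t (q 9 50))) QQ.t) QQ.k)) (E.uu (q 43 100) (add QQ.t QQ.k))) (E.uu (q 1 4) QQ.t)) (E.uu (q 9 50) QQ.k)) (mul (q 21 10) QQ.t)) (mul (q 1309 500) QQ.k)) (q 24 125), sub (add QQ.t QQ.k) (q 143 1000), sub (q (-1) 100) (add QQ.t QQ.k)] 30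
    2177
    [NumI.V.of 10000 380 1360, NumI.V.of 10000 (-800) 510] = true := by
    decide +kernel
  obtain ⟨f, hf, hp⟩ := chkT2 h (by norm_num) (x := t) (y := k)
    (le_trans (by norm_num) b1) (le_trans b2 (by norm_num)) (le_trans (by norm_num) b3) (le_trans b4 (by norm_num))
  by_contra hc
  have hc := not_lt.1 hc
  simp only [List.mem_cons, List.not_mem_nil, or_false] at hf
  rcases hf with rfl | rfl | rfl
  · simp only [E.val, NumI.lkR, QQ.t, QQ.k, QQ.w] at hp
    push_cast at hp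
    try simp only [zero_div, div_one] at hp hc
    first
      | with_reducible exact absurd (sub_pos.1 hp) (not_lt.2 hc)
      | with_reducible exact absurd hp (not_lt.2 (add_le_of_le_neg hc))
      | with_reducible exact absurd (sub_pos.1 hp) (not_lt.2 b5)
      | with_reducible exact absurd (sub_pos.1 hp) (not_lt.2 b6)
      | linarith
  · simp only [E.val, NumI.lkR, QQ.t, QQ.k, QQ.w] at hp
    push_cast at hp
    try simp only [zero_div, div_one] at hp hc
    first
      | with_reducible exact absurd (sub_pos.1 hp) (not_lt.2 hc)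
      | with_reducible exact absurd hp (not_lt.2 (add_le_of_le_neg hc))
      | with_reducible exact absurd (sub_pos.1 hp) (not_lt.2 b5)
      | with_reducible exact absurd (sub_pos.1 hp) (not_lt.2 b6)
      | linarith
  · simp only [E.val, NumI.lkR, QQ.t, QQ.k, QQ.w] at hp
    push_cast at hp
    try simp only [zero_div, div_one] at hp hc
    first
      | with_reducible exact absurd (sub_pos.1 hp) (not_lt.2 hc)
      | with_reducible exact absurd hp (not_lt.2 (add_le_of_le_neg hc))
      | with_reducible exact absurd (sub_pos.1 hp) (not_lt.2 b5)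
      | with_reducible exact absurd (sub_pos.1 hp) (not_lt.2 b6)
      | linarith

theorem f_r_two_0 {t k : ℝ} (b1 : 630 / 10000 ≤ t) (b2 : t ≤ 1450 / 10000) (b3 : -(80 / 10000) ≤ k) (b4 : k ≤ 800 / 10000) (b5 : t + k ≤ 187 / 1000) (b6 : 47 / 500 ≤ t + k) :
    21 / 100 < Real.pi * (1 / 4 * k + t * (1 / 4) - t - k) + uu (1 / 2) (t + k) - uu (1 / 4) t - uu (1 / 4) k + 21 / 10 * t + 1571 / 1000 * k := by
  have h : chkT [sub (add (add (sub (sub (add (mul pi (sub (sub (add (mul (q 1 4) QQ.k) (mul QQ.t (q 1 4))) QQ.t) QQ.k)) (E.uu (q 1 2) (add QQ.t QQ.k))) (E.uu (q 1 4) QQ.t)) (E.uu (q 1 4) QQ.k)) (mul (q 21 10) QQ.t)) (mul (q 1571 1000) QQ.k)) (q 21 100), sub (add QQ.t QQ.k) (q 187 1000), sub (q 47 500) (add QQ.t QQ.k)] 30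
    8
    [NumI.V.of 10000 630 1450, NumI.V.of 10000 (-80) 800] = true := by
    decide +kernel
  obtain ⟨f, hf, hp⟩ := chkT2 h (by norm_num) (x := t) (y := k)
    (le_trans (by norm_num) b1) (le_trans b2 (by norm_num)) (le_trans (by norm_num) b3) (le_trans b4 (by norm_num))
  by_contra hc
  have hc := not_lt.1 hc
  simp only [List.mem_cons, List.not_mem_nil, or_false] at hf
  rcases hf with rfl | rfl | rfl
  · simp only [E.val, NumI.lkR, QQ.t, QQ.k, QQ.w] at hp
    push_cast at hp
    try simp only [zero_div, div_one] at hp hc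
    first
      | with_reducible exact absurd (sub_pos.1 hp) (not_lt.2 hc)
      | with_reducible exact absurd hp (not_lt.2 (add_le_of_le_neg hc))
      | with_reducible exact absurd (sub_pos.1 hp) (not_lt.2 b5)
      | with_reducible exact absurd (sub_pos.1 hp) (not_lt.2 b6)
      | linarith
  · simp only [E.val, NumI.lkR, QQ.t, QQ.k, QQ.w] at hp
    push_cast at hp
    try simp only [zero_div, div_one] at hp hc
    first
      | with_reducible exact absurd (sub_pos.1 hp) (not_lt.2 hc)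
      | with_reducible exact absurd hp (not_lt.2 (add_le_of_le_neg hc))
      | with_reducible exact absurd (sub_pos.1 hp) (not_lt.2 b5)
      | with_reducible exact absurd (sub_pos.1 hp) (not_lt.2 b6)
      | linarith
  · simp only [E.val, NumI.lkR, QQ.t, QQ.k, QQ.w] at hp
    push_cast at hp
    try simp only [zero_div, div_one] at hp hc
    first
      | with_reducible exact absurd (sub_pos.1 hp) (not_lt.2 hc)
      | with_reducible exact absurd hp (not_lt.2 (add_le_of_le_neg hc))
      | with_reducible exact absurd (sub_pos.1 hp) (not_lt.2 b5)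
      | with_reducible exact absurd (sub_pos.1 hp) (not_lt.2 b6)
      | linarith

theorem f_r_twoE_0 {t k : ℝ} (b1 : 1000 / 10000 ≤ t) (b2 : t ≤ 1580 / 10000) (b3 : -(610 / 10000) ≤ k) (b4 : k ≤ -(240 / 10000)) (b5 : t + k ≤ 53 / 500) (b6 : 8 / 125 ≤ t + k) :
    23 / 100 < Real.pi * (1 / 4 * k + t * (11 / 50) - t - k) + uu (47 / 100) (t + k) - uu (1 / 4) t - uu (11 / 50) k + 21 / 10 * t + 1131 / 500 * k := by
  have h : chkT [sub (add (add (sub (sub (add (mul pi (sub (sub (add (mul (q 1 4) QQ.k) (mul QQ.t (q 11 50))) QQ.t) QQ.k)) (E.uu (q 47 100) (add QQ.t QQ.k))) (E.uu (q 1 4) QQ.t)) (E.uu (q 11 50) QQ.k)) (mul (q 21 10) QQ.t)) (mul (q 1131 500) QQ.k)) (q 23 100), sub (add QQ.t QQ.k) (q 53 500), sub (q 8 125) (add QQ.t QQ.k)] 30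
    8
    [NumI.V.of 10000 1000 1580, NumI.V.of 10000 (-610) (-240)] = true := by
    decide +kernel
  obtain ⟨f, hf, hp⟩ := chkT2 h (by norm_num) (x := t) (y := k)
    (le_trans (by norm_num) b1) (le_trans b2 (by norm_num)) (le_trans (by norm_num) b3) (le_trans b4 (by norm_num))
  by_contra hc
  have hc := not_lt.1 hc
  simp only [List.mem_cons, List.not_mem_nil, or_false] at hf
  rcases hf with rfl | rfl | rfl
  · simp only [E.val, NumI.lkR, QQ.t, QQ.k, QQ.w] at hp
    push_cast at hp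
    try simp only [zero_div, div_one] at hp hc
    first
      | with_reducible exact absurd (sub_pos.1 hp) (not_lt.2 hc)
      | with_reducible exact absurd hp (not_lt.2 (add_le_of_le_neg hc))
      | with_reducible exact absurd (sub_pos.1 hp) (not_lt.2 b5)
      | with_reducible exact absurd (sub_pos.1 hp) (not_lt.2 b6)
      | linarith
  · simp only [E.val, NumI.lkR, QQ.t, QQ.k, QQ.w] at hp
    push_cast at hp
    try simp only [zero_div, div_one] at hp hc
    first
      | with_reducible exact absurd (sub_pos.1 hp) (not_lt.2 hc)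
      | with_reducible exact absurd hp (not_lt.2 (add_le_of_le_neg hc))
      | with_reducible exact absurd (sub_pos.1 hp) (not_lt.2 b5)
      | with_reducible exact absurd (sub_pos.1 hp) (not_lt.2 b6)
      | linarith
  · simp only [E.val, NumI.lkR, QQ.t, QQ.k, QQ.w] at hp
    push_cast at hp
    try simp only [zero_div, div_one] at hp hc
    first
      | with_reducible exact absurd (sub_pos.1 hp) (not_lt.2 hc)
      | with_reducible exact absurd hp (not_lt.2 (add_le_of_le_neg hc))
      | with_reducible exact absurd (sub_pos.1 hp) (not_lt.2 b5)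
      | with_reducible exact absurd (sub_pos.1 hp) (not_lt.2 b6)
      | linarith

theorem f_r_touched_0 {t k : ℝ} (b1 : 380 / 10000 ≤ t) (b2 : t ≤ 1580 / 10000) (b3 : -(1170 / 10000) ≤ k) (b4 : k ≤ 800 / 10000) :
    1 / 5 < Real.pi * (1 / 4 * k + t * (1 / 5) - t - k) + uu (9 / 20) (t + k) - uu (1 / 4) t - uu (1 / 5) k + 21 / 10 * t + 59 / 25 * k := by
  have h : chkT [sub (add (add (sub (sub (add (mul pi (sub (sub (add (mul (q 1 4) QQ.k) (mul QQ.t (q 1 5))) QQ.t) QQ.k)) (E.uu (q 9 20) (add QQ.t QQ.k))) (E.uu (q 1 4) QQ.t)) (E.uu (q 1 5) QQ.k)) (mul (q 21 10) QQ.t)) (mul (q 59 25) QQ.k)) (q 1 5)] 30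
    2177
    [NumI.V.of 10000 380 1580, NumI.V.of 10000 (-1170) 800] = true := by
    decide +kernel
  obtain ⟨f, hf, hp⟩ := chkT2 h (by norm_num) (x := t) (y := k)
    (le_trans (by norm_num) b1) (le_trans b2 (by norm_num)) (le_trans (by norm_num) b3) (le_trans b4 (by norm_num))
  by_contra hc
  have hc := not_lt.1 hc
  simp only [List.mem_cons, List.not_mem_nil, or_false] at hf
  rcases hf with rfl
  · simp only [E.val, NumI.lkR, QQ.t, QQ.k, QQ.w] at hp
    push_cast at hp
    try simp only [zero_div, div_one] at hp hc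
    first
      | with_reducible exact absurd (sub_pos.1 hp) (not_lt.2 hc)
      | with_reducible exact absurd hp (not_lt.2 (add_le_of_le_neg hc))
      | linarith

theorem r_t_one_0_0_0 {w : ℝ} (b1 : 0 / 10000 ≤ w) (b2 : w ≤ 100 / 10000) :
    -(3 / 20) < 0 * uu (1 / 100) 0 + (-11 / 1000) + (0 / 1) * w - (uu (4 / 5 + w) 0 - uu (4 / 5) 0 - uu (1 / 100) 0) - (-13 / 100) := by
  have h : chkT [add (sub (sub (add (add (mul (q 0 1) (E.uu (q 1 100) (q 0 1))) (q (-11) 1000)) (mul (q 0 1) QQ.w)) (sub (sub (E.uu (add (q 4 5) QQ.w) (q 0 1)) (E.uu (q 4 5) (q 0 1))) (E.uu (q 1 100) (q 0 1)))) (q (-13) 100)) (q 3 20)] 30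
    8
    [NumI.V.of 10000 0 100] = true := by
    decide +kernel
  obtain ⟨f, hf, hp⟩ := chkT_sound h (xs := [w])
    (List.Forall₂.cons (NumI.V.of_mem (by norm_num) (le_trans (by norm_num) b1) (le_trans b2 (by norm_num))) List.Forall₂.nil)
  by_contra hc
  have hc := not_lt.1 hc
  simp only [List.mem_cons, List.not_mem_nil, or_false] at hf
  rcases hf with rfl
  · simp only [E.val, NumI.lkR, QQ.t, QQ.k, QQ.w] at hp
    push_cast at hp
    try simp only [zero_div, div_one] at hp hc
    first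
      | with_reducible exact absurd (sub_pos.1 hp) (not_lt.2 hc)
      | with_reducible exact absurd hp (not_lt.2 (add_le_of_le_neg hc))
      | linarith

theorem r_t_one_0_0_1 {w : ℝ} (b1 : 100 / 10000 ≤ w) (b2 : w ≤ 1800 / 10000) :
    -(3 / 20) < 0 * uu w 0 + (-11 / 1000) + (0 / 1) * w - (uu (4 / 5 + w) 0 - uu (4 / 5) 0 - uu w 0) - (-13 / 100) := by
  have h : chkT [add (sub (sub (add (add (mul (q 0 1) (E.uu QQ.w (q 0 1))) (q (-11) 1000)) (mul (q 0 1) QQ.w)) (sub (sub (E.uu (add (q 4 5) QQ.w) (q 0 1)) (E.uu (q 4 5) (q 0 1))) (E.uu QQ.w (q 0 1)))) (q (-13) 100)) (q 3 20)] 30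
    142641152
    [NumI.V.of 10000 100 1800] = true := by
    decide +kernel
  obtain ⟨f, hf, hp⟩ := chkT_sound h (xs := [w])
    (List.Forall₂.cons (NumI.V.of_mem (by norm_num) (le_trans (by norm_num) b1) (le_trans b2 (by norm_num))) List.Forall₂.nil)
  by_contra hc
  have hc := not_lt.1 hc
  simp only [List.mem_cons, List.not_mem_nil, or_false] at hf
  rcases hf with rfl
  · simp only [E.val, NumI.lkR, QQ.t, QQ.k, QQ.w] at hp
    push_cast at hp
    try simp only [zero_div, div_one] at hp hc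
    first
      | with_reducible exact absurd (sub_pos.1 hp) (not_lt.2 hc)
      | with_reducible exact absurd hp (not_lt.2 (add_le_of_le_neg hc))
      | linarith

theorem r_t_one_1_0_0 {w : ℝ} (b1 : 0 / 10000 ≤ w) (b2 : w ≤ 100 / 10000) :
    -(19 / 100) < 1 * uu (1 / 100) 0 + (-163 / 5000) + (779 / 1000) * w - (uu (4 / 5 + w) 0 - uu (4 / 5) 0 - uu (1 / 100) 0) - (-13 / 100) := by
  have h : chkT [add (sub (sub (add (add (mul (q 1 1) (E.uu (q 1 100) (q 0 1))) (q (-163) 5000)) (mul (q 779 1000) QQ.w)) (sub (sub (E.uu (add (q 4 5) QQ.w) (q 0 1)) (E.uu (q 4 5) (q 0 1))) (E.uu (q 1 100) (q 0 1)))) (q (-13) 100)) (q 19 100)] 30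
    8
    [NumI.V.of 10000 0 100] = true := by
    decide +kernel
  obtain ⟨f, hf, hp⟩ := chkT_sound h (xs := [w])
    (List.Forall₂.cons (NumI.V.of_mem (by norm_num) (le_trans (by norm_num) b1) (le_trans b2 (by norm_num))) List.Forall₂.nil)
  by_contra hc
  have hc := not_lt.1 hc
  simp only [List.mem_cons, List.not_mem_nil, or_false] at hf
  rcases hf with rfl
  · simp only [E.val, NumI.lkR, QQ.t, QQ.k, QQ.w] at hp
    push_cast at hp
    try simp only [zero_div, div_one] at hp hc
    first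
      | with_reducible exact absurd (sub_pos.1 hp) (not_lt.2 hc)
      | with_reducible exact absurd hp (not_lt.2 (add_le_of_le_neg hc))
      | linarith

theorem r_t_one_1_0_1 {w : ℝ} (b1 : 100 / 10000 ≤ w) (b2 : w ≤ 1800 / 10000) :
    -(19 / 100) < 1 * uu w 0 + (-163 / 5000) + (779 / 1000) * w - (uu (4 / 5 + w) 0 - uu (4 / 5) 0 - uu w 0) - (-13 / 100) := by
  have h : chkT [add (sub (sub (add (add (mul (q 1 1) (E.uu QQ.w (q 0 1))) (q (-163) 5000)) (mul (q 779 1000) QQ.w)) (sub (sub (E.uu (add (q 4 5) QQ.w) (q 0 1)) (E.uu (q 4 5) (q 0 1))) (E.uu QQ.w (q 0 1)))) (q (-13) 100)) (q 19 100)] 30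
    36516167680
    [NumI.V.of 10000 100 1800] = true := by
    decide +kernel
  obtain ⟨f, hf, hp⟩ := chkT_sound h (xs := [w])
    (List.Forall₂.cons (NumI.V.of_mem (by norm_num) (le_trans (by norm_num) b1) (le_trans b2 (by norm_num))) List.Forall₂.nil)
  by_contra hc
  have hc := not_lt.1 hc
  simp only [List.mem_cons, List.not_mem_nil, or_false] at hf
  rcases hf with rfl
  · simp only [E.val, NumI.lkR, QQ.t, QQ.k, QQ.w] at hp
    push_cast at hp
    try simp only [zero_div, div_one] at hp hc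
    first
      | with_reducible exact absurd (sub_pos.1 hp) (not_lt.2 hc)
      | with_reducible exact absurd hp (not_lt.2 (add_le_of_le_neg hc))
      | linarith

theorem r_t_one_2_0_0 {w : ℝ} (b1 : 1800 / 10000 ≤ w) (b2 : w ≤ 2000 / 10000) :
    -(1 / 5) < 1 * uu w 0 + (164 / 625) + (-921 / 1000) * w - (uu (49 / 50) 0 - uu (4 / 5) 0 - uu w 0) - (-13 / 100) := by
  have h : chkT [add (sub (sub (add (add (mul (q 1 1) (E.uu QQ.w (q 0 1))) (q 164 625)) (mul (q (-921) 1000) QQ.w)) (sub (sub (E.uu (q 49 50) (q 0 1)) (E.uu (q 4 5) (q 0 1))) (E.uu QQ.w (q 0 1)))) (q (-13) 100)) (q 1 5)] 30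
    8
    [NumI.V.of 10000 1800 2000] = true := by
    decide +kernel
  obtain ⟨f, hf, hp⟩ := chkT_sound h (xs := [w])
    (List.Forall₂.cons (NumI.V.of_mem (by norm_num) (le_trans (by norm_num) b1) (le_trans b2 (by norm_num))) List.Forall₂.nil)
  by_contra hc
  have hc := not_lt.1 hc
  simp only [List.mem_cons, List.not_mem_nil, or_false] at hf
  rcases hf with rfl
  · simp only [E.val, NumI.lkR, QQ.t, QQ.k, QQ.w] at hp
    push_cast at hp
    try simp only [zero_div, div_one] at hp hc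
    first
      | with_reducible exact absurd (sub_pos.1 hp) (not_lt.2 hc)
      | with_reducible exact absurd hp (not_lt.2 (add_le_of_le_neg hc))
      | linarith

theorem r_t_one_3_0_0 {w : ℝ} (b1 : 1800 / 10000 ≤ w) (b2 : w ≤ 2000 / 10000) :
    -(19 / 100) < 1 * uu w 0 + (1451 / 5000) + (-1021 / 1000) * w - (uu (49 / 50) 0 - uu (4 / 5) 0 - uu w 0) - (-13 / 100) := by
  have h : chkT [add (sub (sub (add (add (mul (q 1 1) (E.uu QQ.w (q 0 1))) (q 1451 5000)) (mul (q (-1021) 1000) QQ.w)) (sub (sub (E.uu (q 49 50) (q 0 1)) (E.uu (q 4 5) (q 0 1))) (E.uu QQ.w (q 0 1)))) (q (-13) 100)) (q 19 100)] 30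
    8
    [NumI.V.of 10000 1800 2000] = true := by
    decide +kernel
  obtain ⟨f, hf, hp⟩ := chkT_sound h (xs := [w])
    (List.Forall₂.cons (NumI.V.of_mem (by norm_num) (le_trans (by norm_num) b1) (le_trans b2 (by norm_num))) List.Forall₂.nil)
  by_contra hc
  have hc := not_lt.1 hc
  simp only [List.mem_cons, List.not_mem_nil, or_false] at hf
  rcases hf with rfl
  · simp only [E.val, NumI.lkR, QQ.t, QQ.k, QQ.w] at hp
    push_cast at hp
    try simp only [zero_div, div_one] at hp hc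
    first
      | with_reducible exact absurd (sub_pos.1 hp) (not_lt.2 hc)
      | with_reducible exact absurd hp (not_lt.2 (add_le_of_le_neg hc))
      | linarith

theorem r_t_two_0_0_0 {w : ℝ} (b1 : 0 / 10000 ≤ w) (b2 : w ≤ 100 / 10000) :
    -(11 / 50) < 1 * uu (1 / 100) 0 + (53 / 625) + (-37 / 250) * w - (uu (4 / 5 + w) 0 - uu (4 / 5) 0 - uu (1 / 100) 0) - (-13 / 100) := by
  have h : chkT [add (sub (sub (add (add (mul (q 1 1) (E.uu (q 1 100) (q 0 1))) (q 53 625)) (mul (q (-37) 250) QQ.w)) (sub (sub (E.uu (add (q 4 5) QQ.w) (q 0 1)) (E.uu (q 4 5) (q 0 1))) (E.uu (q 1 100) (q 0 1)))) (q (-13) 100)) (q 11 50)] 30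
    8
    [NumI.V.of 10000 0 100] = true := by
    decide +kernel
  obtain ⟨f, hf, hp⟩ := chkT_sound h (xs := [w])
    (List.Forall₂.cons (NumI.V.of_mem (by norm_num) (le_trans (by norm_num) b1) (le_trans b2 (by norm_num))) List.Forall₂.nil)
  by_contra hc
  have hc := not_lt.1 hc
  simp only [List.mem_cons, List.not_mem_nil, or_false] at hf
  rcases hf with rfl
  · simp only [E.val, NumI.lkR, QQ.t, QQ.k, QQ.w] at hp
    push_cast at hp
    try simp only [zero_div, div_one] at hp hc
    first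
      | with_reducible exact absurd (sub_pos.1 hp) (not_lt.2 hc)
      | with_reducible exact absurd hp (not_lt.2 (add_le_of_le_neg hc))
      | linarith

theorem r_t_two_0_0_1 {w : ℝ} (b1 : 100 / 10000 ≤ w) (b2 : w ≤ 1800 / 10000) :
    -(11 / 50) < 1 * uu w 0 + (53 / 625) + (-37 / 250) * w - (uu (4 / 5 + w) 0 - uu (4 / 5) 0 - uu w 0) - (-13 / 100) := by
  have h : chkT [add (sub (sub (add (add (mul (q 1 1) (E.uu QQ.w (q 0 1))) (q 53 625)) (mul (q (-37) 250) QQ.w)) (sub (sub (E.uu (add (q 4 5) QQ.w) (q 0 1)) (E.uu (q 4 5) (q 0 1))) (E.uu QQ.w (q 0 1)))) (q (-13) 100)) (q 11 50)] 30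
    36516167680
    [NumI.V.of 10000 100 1800] = true := by
    decide +kernel
  obtain ⟨f, hf, hp⟩ := chkT_sound h (xs := [w])
    (List.Forall₂.cons (NumI.V.of_mem (by norm_num) (le_trans (by norm_num) b1) (le_trans b2 (by norm_num))) List.Forall₂.nil)
  by_contra hc
  have hc := not_lt.1 hc
  simp only [List.mem_cons, List.not_mem_nil, or_false] at hf
  rcases hf with rfl
  · simp only [E.val, NumI.lkR, QQ.t, QQ.k, QQ.w] at hp
    push_cast at hp
    try simp only [zero_div, div_one] at hp hc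
    first
      | with_reducible exact absurd (sub_pos.1 hp) (not_lt.2 hc)
      | with_reducible exact absurd hp (not_lt.2 (add_le_of_le_neg hc))
      | linarith

theorem r_t_two_0_0_2 {w : ℝ} (b1 : 1800 / 10000 ≤ w) (b2 : w ≤ 2000 / 10000) :
    -(11 / 50) < 1 * uu w 0 + (53 / 625) + (-37 / 250) * w - (uu (49 / 50) 0 - uu (4 / 5) 0 - uu w 0) - (-13 / 100) := by
  have h : chkT [add (sub (sub (add (add (mul (q 1 1) (E.uu QQ.w (q 0 1))) (q 53 625)) (mul (q (-37) 250) QQ.w)) (sub (sub (E.uu (q 49 50) (q 0 1)) (E.uu (q 4 5) (q 0 1))) (E.uu QQ.w (q 0 1)))) (q (-13) 100)) (q 11 50)] 30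
    8
    [NumI.V.of 10000 1800 2000] = true := by
    decide +kernel
  obtain ⟨f, hf, hp⟩ := chkT_sound h (xs := [w])
    (List.Forall₂.cons (NumI.V.of_mem (by norm_num) (le_trans (by norm_num) b1) (le_trans b2 (by norm_num))) List.Forall₂.nil)
  by_contra hc
  have hc := not_lt.1 hc
  simp only [List.mem_cons, List.not_mem_nil, or_false] at hf
  rcases hf with rfl
  · simp only [E.val, NumI.lkR, QQ.t, QQ.k, QQ.w] at hp
    push_cast at hp
    try simp only [zero_div, div_one] at hp hc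
    first
      | with_reducible exact absurd (sub_pos.1 hp) (not_lt.2 hc)
      | with_reducible exact absurd hp (not_lt.2 (add_le_of_le_neg hc))
      | linarith

theorem r_t_twoE_0_0_0 {w : ℝ} (b1 : 0 / 10000 ≤ w) (b2 : w ≤ 100 / 10000) :
    -(6 / 25) < 1 * uu (1 / 100) 0 + (309 / 2000) + (0 / 1) * w - (uu (4 / 5 + w) 0 - uu (4 / 5) 0 - uu (1 / 100) 0) - (-13 / 100) := by
  have h : chkT [add (sub (sub (add (add (mul (q 1 1) (E.uu (q 1 100) (q 0 1))) (q 309 2000)) (mul (q 0 1) QQ.w)) (sub (sub (E.uu (add (q 4 5) QQ.w) (q 0 1)) (E.uu (q 4 5) (q 0 1))) (E.uu (q 1 100) (q 0 1)))) (q (-13) 100)) (q 6 25)] 30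
    8
    [NumI.V.of 10000 0 100] = true := by
    decide +kernel
  obtain ⟨f, hf, hp⟩ := chkT_sound h (xs := [w])
    (List.Forall₂.cons (NumI.V.of_mem (by norm_num) (le_trans (by norm_num) b1) (le_trans b2 (by norm_num))) List.Forall₂.nil)
  by_contra hc
  have hc := not_lt.1 hc
  simp only [List.mem_cons, List.not_mem_nil, or_false] at hf
  rcases hf with rfl
  · simp only [E.val, NumI.lkR, QQ.t, QQ.k, QQ.w] at hp
    push_cast at hp
    try simp only [zero_div, div_one] at hp hc
    first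
      | with_reducible exact absurd (sub_pos.1 hp) (not_lt.2 hc)
      | with_reducible exact absurd hp (not_lt.2 (add_le_of_le_neg hc))
      | linarith

theorem r_t_twoE_0_0_1 {w : ℝ} (b1 : 100 / 10000 ≤ w) (b2 : w ≤ 1800 / 10000) :
    -(6 / 25) < 1 * uu w 0 + (309 / 2000) + (0 / 1) * w - (uu (4 / 5 + w) 0 - uu (4 / 5) 0 - uu w 0) - (-13 / 100) := by
  have h : chkT [add (sub (sub (add (add (mul (q 1 1) (E.uu QQ.w (q 0 1))) (q 309 2000)) (mul (q 0 1) QQ.w)) (sub (sub (E.uu (add (q 4 5) QQ.w) (q 0 1)) (E.uu (q 4 5) (q 0 1))) (E.uu QQ.w (q 0 1)))) (q (-13) 100)) (q 6 25)] 30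
    142641152
    [NumI.V.of 10000 100 1800] = true := by
    decide +kernel
  obtain ⟨f, hf, hp⟩ := chkT_sound h (xs := [w])
    (List.Forall₂.cons (NumI.V.of_mem (by norm_num) (le_trans (by norm_num) b1) (le_trans b2 (by norm_num))) List.Forall₂.nil)
  by_contra hc
  have hc := not_lt.1 hc
  simp only [List.mem_cons, List.not_mem_nil, or_false] at hf
  rcases hf with rfl
  · simp only [E.val, NumI.lkR, QQ.t, QQ.k, QQ.w] at hp
    push_cast at hp
    try simp only [zero_div, div_one] at hp hc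
    first
      | with_reducible exact absurd (sub_pos.1 hp) (not_lt.2 hc)
      | with_reducible exact absurd hp (not_lt.2 (add_le_of_le_neg hc))
      | linarith

theorem r_t_twoE_0_0_2 {w : ℝ} (b1 : 1800 / 10000 ≤ w) (b2 : w ≤ 2000 / 10000) :
    -(6 / 25) < 1 * uu w 0 + (309 / 2000) + (0 / 1) * w - (uu (49 / 50) 0 - uu (4 / 5) 0 - uu w 0) - (-13 / 100) := by
  have h : chkT [add (sub (sub (add (add (mul (q 1 1) (E.uu QQ.w (q 0 1))) (q 309 2000)) (mul (q 0 1) QQ.w)) (sub (sub (E.uu (q 49 50) (q 0 1)) (E.uu (q 4 5) (q 0 1))) (E.uu QQ.w (q 0 1)))) (q (-13) 100)) (q 6 25)] 30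
    8
    [NumI.V.of 10000 1800 2000] = true := by
    decide +kernel
  obtain ⟨f, hf, hp⟩ := chkT_sound h (xs := [w])
    (List.Forall₂.cons (NumI.V.of_mem (by norm_num) (le_trans (by norm_num) b1) (le_trans b2 (by norm_num))) List.Forall₂.nil)
  by_contra hc
  have hc := not_lt.1 hc
  simp only [List.mem_cons, List.not_mem_nil, or_false] at hf
  rcases hf with rfl
  · simp only [E.val, NumI.lkR, QQ.t, QQ.k, QQ.w] at hp
    push_cast at hp
    try simp only [zero_div, div_one] at hp hc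
    first
      | with_reducible exact absurd (sub_pos.1 hp) (not_lt.2 hc)
      | with_reducible exact absurd hp (not_lt.2 (add_le_of_le_neg hc))
      | linarith

theorem r_t_threeA_0_0_0 {w : ℝ} (b1 : 0 / 10000 ≤ w) (b2 : w ≤ 100 / 10000) :
    -(97 / 1000) < 1 * uu (1 / 100) 0 + (62 / 625) + (-227 / 1000) * w - (uu (4 / 5 + w) 0 - uu (4 / 5) 0 - uu (1 / 100) 0) - (-13 / 100) := by
  have h : chkT [add (sub (sub (add (add (mul (q 1 1) (E.uu (q 1 100) (q 0 1))) (q 62 625)) (mul (q (-227) 1000) QQ.w)) (sub (sub (E.uu (add (q 4 5) QQ.w) (q 0 1)) (E.uu (q 4 5) (q 0 1))) (E.uu (q 1 100) (q 0 1)))) (q (-13) 100)) (q 97 1000)] 30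
    8
    [NumI.V.of 10000 0 100] = true := by
    decide +kernel
  obtain ⟨f, hf, hp⟩ := chkT_sound h (xs := [w])
    (List.Forall₂.cons (NumI.V.of_mem (by norm_num) (le_trans (by norm_num) b1) (le_trans b2 (by norm_num))) List.Forall₂.nil)
  by_contra hc
  have hc := not_lt.1 hc
  simp only [List.mem_cons, List.not_mem_nil, or_false] at hf
  rcases hf with rfl
  · simp only [E.val, NumI.lkR, QQ.t, QQ.k, QQ.w] at hp
    push_cast at hp
    try simp only [zero_div, div_one] at hp hc
    first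
      | with_reducible exact absurd (sub_pos.1 hp) (not_lt.2 hc)
      | with_reducible exact absurd hp (not_lt.2 (add_le_of_le_neg hc))
      | linarith

theorem r_t_threeA_0_0_1 {w : ℝ} (b1 : 100 / 10000 ≤ w) (b2 : w ≤ 1600 / 10000) :
    -(97 / 1000) < 1 * uu w 0 + (62 / 625) + (-227 / 1000) * w - (uu (4 / 5 + w) 0 - uu (4 / 5) 0 - uu w 0) - (-13 / 100) := by
  have h : chkT [add (sub (sub (add (add (mul (q 1 1) (E.uu QQ.w (q 0 1))) (q 62 625)) (mul (q (-227) 1000) QQ.w)) (sub (sub (E.uu (add (q 4 5) QQ.w) (q 0 1)) (E.uu (q 4 5) (q 0 1))) (E.uu QQ.w (q 0 1)))) (q (-13) 100)) (q 97 1000)] 30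
    36516167680
    [NumI.V.of 10000 100 1600] = true := by
    decide +kernel
  obtain ⟨f, hf, hp⟩ := chkT_sound h (xs := [w])
    (List.Forall₂.cons (NumI.V.of_mem (by norm_num) (le_trans (by norm_num) b1) (le_trans b2 (by norm_num))) List.Forall₂.nil)
  by_contra hc
  have hc := not_lt.1 hc
  simp only [List.mem_cons, List.not_mem_nil, or_false] at hf
  rcases hf with rfl
  · simp only [E.val, NumI.lkR, QQ.t, QQ.k, QQ.w] at hp
    push_cast at hp
    try simp only [zero_div, div_one] at hp hc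
    first
      | with_reducible exact absurd (sub_pos.1 hp) (not_lt.2 hc)
      | with_reducible exact absurd hp (not_lt.2 (add_le_of_le_neg hc))
      | linarith

theorem r_t_threeA_1_0_0 {w : ℝ} (b1 : 1600 / 10000 ≤ w) (b2 : w ≤ 1800 / 10000) :
    -(13 / 200) < 1 * uu w 0 + (1289 / 5000) + (-553 / 500) * w - (uu (4 / 5 + w) 0 - uu (4 / 5) 0 - uu w 0) - (-13 / 100) := by
  have h : chkT [add (sub (sub (add (add (mul (q 1 1) (E.uu QQ.w (q 0 1))) (q 1289 5000)) (mul (q (-553) 500) QQ.w)) (sub (sub (E.uu (add (q 4 5) QQ.w) (q 0 1)) (E.uu (q 4 5) (q 0 1))) (E.uu QQ.w (q 0 1)))) (q (-13) 100)) (q 13 200)] 30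
    8
    [NumI.V.of 10000 1600 1800] = true := by
    decide +kernel
  obtain ⟨f, hf, hp⟩ := chkT_sound h (xs := [w])
    (List.Forall₂.cons (NumI.V.of_mem (by norm_num) (le_trans (by norm_num) b1) (le_trans b2 (by norm_num))) List.Forall₂.nil)
  by_contra hc
  have hc := not_lt.1 hc
  simp only [List.mem_cons, List.not_mem_nil, or_false] at hf
  rcases hf with rfl
  · simp only [E.val, NumI.lkR, QQ.t, QQ.k, QQ.w] at hp
    push_cast at hp
    try simp only [zero_div, div_one] at hp hc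
    first
      | with_reducible exact absurd (sub_pos.1 hp) (not_lt.2 hc)
      | with_reducible exact absurd hp (not_lt.2 (add_le_of_le_neg hc))
      | linarith

theorem r_t_threeA_1_0_1 {w : ℝ} (b1 : 1800 / 10000 ≤ w) (b2 : w ≤ 2000 / 10000) :
    -(13 / 200) < 1 * uu w 0 + (1289 / 5000) + (-553 / 500) * w - (uu (49 / 50) 0 - uu (4 / 5) 0 - uu w 0) - (-13 / 100) := by
  have h : chkT [add (sub (sub (add (add (mul (q 1 1) (E.uu QQ.w (q 0 1))) (q 1289 5000)) (mul (q (-553) 500) QQ.w)) (sub (sub (E.uu (q 49 50) (q 0 1)) (E.uu (q 4 5) (q 0 1))) (E.uu QQ.w (q 0 1)))) (q (-13) 100)) (q 13 200)] 30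
    8
    [NumI.V.of 10000 1800 2000] = true := by
    decide +kernel
  obtain ⟨f, hf, hp⟩ := chkT_sound h (xs := [w])
    (List.Forall₂.cons (NumI.V.of_mem (by norm_num) (le_trans (by norm_num) b1) (le_trans b2 (by norm_num))) List.Forall₂.nil)
  by_contra hc
  have hc := not_lt.1 hc
  simp only [List.mem_cons, List.not_mem_nil, or_false] at hf
  rcases hf with rfl
  · simp only [E.val, NumI.lkR, QQ.t, QQ.k, QQ.w] at hp
    push_cast at hp
    try simp only [zero_div, div_one] at hp hc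
    first
      | with_reducible exact absurd (sub_pos.1 hp) (not_lt.2 hc)
      | with_reducible exact absurd hp (not_lt.2 (add_le_of_le_neg hc))
      | linarith

theorem r_t_threeK_0_0_0 {w : ℝ} (b1 : 0 / 10000 ≤ w) (b2 : w ≤ 100 / 10000) :
    -(4 / 25) < 1 * uu (1 / 100) 0 + (7 / 625) + (97 / 1000) * w - (uu (4 / 5 + w) 0 - uu (4 / 5) 0 - uu (1 / 100) 0) - (-13 / 100) := by
  have h : chkT [add (sub (sub (add (add (mul (q 1 1) (E.uu (q 1 100) (q 0 1))) (q 7 625)) (mul (q 97 1000) QQ.w)) (sub (sub (E.uu (add (q 4 5) QQ.w) (q 0 1)) (E.uu (q 4 5) (q 0 1))) (E.uu (q 1 100) (q 0 1)))) (q (-13) 100)) (q 4 25)] 30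
    8
    [NumI.V.of 10000 0 100] = true := by
    decide +kernel
  obtain ⟨f, hf, hp⟩ := chkT_sound h (xs := [w])
    (List.Forall₂.cons (NumI.V.of_mem (by norm_num) (le_trans (by norm_num) b1) (le_trans b2 (by norm_num))) List.Forall₂.nil)
  by_contra hc
  have hc := not_lt.1 hc
  simp only [List.mem_cons, List.not_mem_nil, or_false] at hf
  rcases hf with rfl
  · simp only [E.val, NumI.lkR, QQ.t, QQ.k, QQ.w] at hp
    push_cast at hp
    try simp only [zero_div, div_one] at hp hc
    first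
      | with_reducible exact absurd (sub_pos.1 hp) (not_lt.2 hc)
      | with_reducible exact absurd hp (not_lt.2 (add_le_of_le_neg hc))
      | linarith

theorem r_t_threeK_0_0_1 {w : ℝ} (b1 : 100 / 10000 ≤ w) (b2 : w ≤ 1800 / 10000) :
    -(4 / 25) < 1 * uu w 0 + (7 / 625) + (97 / 1000) * w - (uu (4 / 5 + w) 0 - uu (4 / 5) 0 - uu w 0) - (-13 / 100) := by
  have h : chkT [add (sub (sub (add (add (mul (q 1 1) (E.uu QQ.w (q 0 1))) (q 7 625)) (mul (q 97 1000) QQ.w)) (sub (sub (E.uu (add (q 4 5) QQ.w) (q 0 1)) (E.uu (q 4 5) (q 0 1))) (E.uu QQ.w (q 0 1)))) (q (-13) 100)) (q 4 25)] 30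
    36516167680
    [NumI.V.of 10000 100 1800] = true := by
    decide +kernel
  obtain ⟨f, hf, hp⟩ := chkT_sound h (xs := [w])
    (List.Forall₂.cons (NumI.V.of_mem (by norm_num) (le_trans (by norm_num) b1) (le_trans b2 (by norm_num))) List.Forall₂.nil)
  by_contra hc
  have hc := not_lt.1 hc
  simp only [List.mem_cons, List.not_mem_nil, or_false] at hf
  rcases hf with rfl
  · simp only [E.val, NumI.lkR, QQ.t, QQ.k, QQ.w] at hp
    push_cast at hp
    try simp only [zero_div, div_one] at hp hc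
    first
      | with_reducible exact absurd (sub_pos.1 hp) (not_lt.2 hc)
      | with_reducible exact absurd hp (not_lt.2 (add_le_of_le_neg hc))
      | linarith

theorem r_t_threeK_0_0_2 {w : ℝ} (b1 : 1800 / 10000 ≤ w) (b2 : w ≤ 2000 / 10000) :
    -(4 / 25) < 1 * uu w 0 + (7 / 625) + (97 / 1000) * w - (uu (49 / 50) 0 - uu (4 / 5) 0 - uu w 0) - (-13 / 100) := by
  have h : chkT [add (sub (sub (add (add (mul (q 1 1) (E.uu QQ.w (q 0 1))) (q 7 625)) (mul (q 97 1000) QQ.w)) (sub (sub (E.uu (q 49 50) (q 0 1)) (E.uu (q 4 5) (q 0 1))) (E.uu QQ.w (q 0 1)))) (q (-13) 100)) (q 4 25)] 30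
    8
    [NumI.V.of 10000 1800 2000] = true := by
    decide +kernel
  obtain ⟨f, hf, hp⟩ := chkT_sound h (xs := [w])
    (List.Forall₂.cons (NumI.V.of_mem (by norm_num) (le_trans (by norm_num) b1) (le_trans b2 (by norm_num))) List.Forall₂.nil)
  by_contra hc
  have hc := not_lt.1 hc
  simp only [List.mem_cons, List.not_mem_nil, or_false] at hf
  rcases hf with rfl
  · simp only [E.val, NumI.lkR, QQ.t, QQ.k, QQ.w] at hp
    push_cast at hp
    try simp only [zero_div, div_one] at hp hc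
    first
      | with_reducible exact absurd (sub_pos.1 hp) (not_lt.2 hc)
      | with_reducible exact absurd hp (not_lt.2 (add_le_of_le_neg hc))
      | linarith

theorem r_t_threeE_0_0_0 {w : ℝ} (b1 : 0 / 10000 ≤ w) (b2 : w ≤ 100 / 10000) :
    -(9 / 50) < 1 * uu (1 / 100) 0 + (269 / 2000) + (0 / 1) * w - (uu (4 / 5 + w) 0 - uu (4 / 5) 0 - uu (1 / 100) 0) - (-13 / 100) := by
  have h : chkT [add (sub (sub (add (add (mul (q 1 1) (E.uu (q 1 100) (q 0 1))) (q 269 2000)) (mul (q 0 1) QQ.w)) (sub (sub (E.uu (add (q 4 5) QQ.w) (q 0 1)) (E.uu (q 4 5) (q 0 1))) (E.uu (q 1 100) (q 0 1)))) (q (-13) 100)) (q 9 50)] 30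
    8
    [NumI.V.of 10000 0 100] = true := by
    decide +kernel
  obtain ⟨f, hf, hp⟩ := chkT_sound h (xs := [w])
    (List.Forall₂.cons (NumI.V.of_mem (by norm_num) (le_trans (by norm_num) b1) (le_trans b2 (by norm_num))) List.Forall₂.nil)
  by_contra hc
  have hc := not_lt.1 hc
  simp only [List.mem_cons, List.not_mem_nil, or_false] at hf
  rcases hf with rfl
  · simp only [E.val, NumI.lkR, QQ.t, QQ.k, QQ.w] at hp
    push_cast at hp
    try simp only [zero_div, div_one] at hp hc
    first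
      | with_reducible exact absurd (sub_pos.1 hp) (not_lt.2 hc)
      | with_reducible exact absurd hp (not_lt.2 (add_le_of_le_neg hc))
      | linarith

theorem r_t_threeE_0_0_1 {w : ℝ} (b1 : 100 / 10000 ≤ w) (b2 : w ≤ 1800 / 10000) :
    -(9 / 50) < 1 * uu w 0 + (269 / 2000) + (0 / 1) * w - (uu (4 / 5 + w) 0 - uu (4 / 5) 0 - uu w 0) - (-13 / 100) := by
  have h : chkT [add (sub (sub (add (add (mul (q 1 1) (E.uu QQ.w (q 0 1))) (q 269 2000)) (mul (q 0 1) QQ.w)) (sub (sub (E.uu (add (q 4 5) QQ.w) (q 0 1)) (E.uu (q 4 5) (q 0 1))) (E.uu QQ.w (q 0 1)))) (q (-13) 100)) (q 9 50)] 30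
    142641152
    [NumI.V.of 10000 100 1800] = true := by
    decide +kernel
  obtain ⟨f, hf, hp⟩ := chkT_sound h (xs := [w])
    (List.Forall₂.cons (NumI.V.of_mem (by norm_num) (le_trans (by norm_num) b1) (le_trans b2 (by norm_num))) List.Forall₂.nil)
  by_contra hc
  have hc := not_lt.1 hc
  simp only [List.mem_cons, List.not_mem_nil, or_false] at hf
  rcases hf with rfl
  · simp only [E.val, NumI.lkR, QQ.t, QQ.k, QQ.w] at hp
    push_cast at hp
    try simp only [zero_div, div_one] at hp hc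
    first
      | with_reducible exact absurd (sub_pos.1 hp) (not_lt.2 hc)
      | with_reducible exact absurd hp (not_lt.2 (add_le_of_le_neg hc))
      | linarith

theorem r_t_threeE_0_0_2 {w : ℝ} (b1 : 1800 / 10000 ≤ w) (b2 : w ≤ 2000 / 10000) :
    -(9 / 50) < 1 * uu w 0 + (269 / 2000) + (0 / 1) * w - (uu (49 / 50) 0 - uu (4 / 5) 0 - uu w 0) - (-13 / 100) := by
  have h : chkT [add (sub (sub (add (add (mul (q 1 1) (E.uu QQ.w (q 0 1))) (q 269 2000)) (mul (q 0 1) QQ.w)) (sub (sub (E.uu (q 49 50) (q 0 1)) (E.uu (q 4 5) (q 0 1))) (E.uu QQ.w (q 0 1)))) (q (-13) 100)) (q 9 50)] 30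
    8
    [NumI.V.of 10000 1800 2000] = true := by
    decide +kernel
  obtain ⟨f, hf, hp⟩ := chkT_sound h (xs := [w])
    (List.Forall₂.cons (NumI.V.of_mem (by norm_num) (le_trans (by norm_num) b1) (le_trans b2 (by norm_num))) List.Forall₂.nil)
  by_contra hc
  have hc := not_lt.1 hc
  simp only [List.mem_cons, List.not_mem_nil, or_false] at hf
  rcases hf with rfl
  · simp only [E.val, NumI.lkR, QQ.t, QQ.k, QQ.w] at hp
    push_cast at hp
    try simp only [zero_div, div_one] at hp hc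
    first
      | with_reducible exact absurd (sub_pos.1 hp) (not_lt.2 hc)
      | with_reducible exact absurd hp (not_lt.2 (add_le_of_le_neg hc))
      | linarith

theorem r_t_ring_0_0_0 {w : ℝ} (b1 : 0 / 10000 ≤ w) (b2 : w ≤ 100 / 10000) :
    -(7 / 40) < 1 * uu (1 / 100) 0 + (-67 / 1250) + (543 / 1000) * w - (uu (4 / 5 + w) 0 - uu (4 / 5) 0 - uu (1 / 100) 0) - (-13 / 100) := by
  have h : chkT [add (sub (sub (add (add (mul (q 1 1) (E.uu (q 1 100) (q 0 1))) (q (-67) 1250)) (mul (q 543 1000) QQ.w)) (sub (sub (E.uu (add (q 4 5) QQ.w) (q 0 1)) (E.uu (q 4 5) (q 0 1))) (E.uu (q 1 100) (q 0 1)))) (q (-13) 100)) (q 7 40)] 30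
    8
    [NumI.V.of 10000 0 100] = true := by
    decide +kernel
  obtain ⟨f, hf, hp⟩ := chkT_sound h (xs := [w])
    (List.Forall₂.cons (NumI.V.of_mem (by norm_num) (le_trans (by norm_num) b1) (le_trans b2 (by norm_num))) List.Forall₂.nil)
  by_contra hc
  have hc := not_lt.1 hc
  simp only [List.mem_cons, List.not_mem_nil, or_false] at hf
  rcases hf with rfl
  · simp only [E.val, NumI.lkR, QQ.t, QQ.k, QQ.w] at hp
    push_cast at hp
    try simp only [zero_div, div_one] at hp hc
    first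
      | with_reducible exact absurd (sub_pos.1 hp) (not_lt.2 hc)
      | with_reducible exact absurd hp (not_lt.2 (add_le_of_le_neg hc))
      | linarith

theorem r_t_ring_0_0_1 {w : ℝ} (b1 : 100 / 10000 ≤ w) (b2 : w ≤ 1400 / 10000) :
    -(7 / 40) < 1 * uu w 0 + (-67 / 1250) + (543 / 1000) * w - (uu (4 / 5 + w) 0 - uu (4 / 5) 0 - uu w 0) - (-13 / 100) := by
  have h : chkT [add (sub (sub (add (add (mul (q 1 1) (E.uu QQ.w (q 0 1))) (q (-67) 1250)) (mul (q 543 1000) QQ.w)) (sub (sub (E.uu (add (q 4 5) QQ.w) (q 0 1)) (E.uu (q 4 5) (q 0 1))) (E.uu QQ.w (q 0 1)))) (q (-13) 100)) (q 7 40)] 30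
    142641152
    [NumI.V.of 10000 100 1400] = true := by
    decide +kernel
  obtain ⟨f, hf, hp⟩ := chkT_sound h (xs := [w])
    (List.Forall₂.cons (NumI.V.of_mem (by norm_num) (le_trans (by norm_num) b1) (le_trans b2 (by norm_num))) List.Forall₂.nil)
  by_contra hc
  have hc := not_lt.1 hc
  simp only [List.mem_cons, List.not_mem_nil, or_false] at hf
  rcases hf with rfl
  · simp only [E.val, NumI.lkR, QQ.t, QQ.k, QQ.w] at hp
    push_cast at hp
    try simp only [zero_div, div_one] at hp hc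
    first
      | with_reducible exact absurd (sub_pos.1 hp) (not_lt.2 hc)
      | with_reducible exact absurd hp (not_lt.2 (add_le_of_le_neg hc))
      | linarith

theorem r_t_ring_1_0_0 {w : ℝ} (b1 : 1400 / 10000 ≤ w) (b2 : w ≤ 1800 / 10000) :
    -(18 / 125) < 1 * uu w 0 + (1291 / 10000) + (-18 / 25) * w - (uu (4 / 5 + w) 0 - uu (4 / 5) 0 - uu w 0) - (-13 / 100) := by
  have h : chkT [add (sub (sub (add (add (mul (q 1 1) (E.uu QQ.w (q 0 1))) (q 1291 10000)) (mul (q (-18) 25) QQ.w)) (sub (sub (E.uu (add (q 4 5) QQ.w) (q 0 1)) (E.uu (q 4 5) (q 0 1))) (E.uu QQ.w (q 0 1)))) (q (-13) 100)) (q 18 125)] 30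
    8
    [NumI.V.of 10000 1400 1800] = true := by
    decide +kernel
  obtain ⟨f, hf, hp⟩ := chkT_sound h (xs := [w])
    (List.Forall₂.cons (NumI.V.of_mem (by norm_num) (le_trans (by norm_num) b1) (le_trans b2 (by norm_num))) List.Forall₂.nil)
  by_contra hc
  have hc := not_lt.1 hc
  simp only [List.mem_cons, List.not_mem_nil, or_false] at hf
  rcases hf with rfl
  · simp only [E.val, NumI.lkR, QQ.t, QQ.k, QQ.w] at hp
    push_cast at hp
    try simp only [zero_div, div_one] at hp hc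
    first
      | with_reducible exact absurd (sub_pos.1 hp) (not_lt.2 hc)
      | with_reducible exact absurd hp (not_lt.2 (add_le_of_le_neg hc))
      | linarith

theorem r_t_ring_1_0_1 {w : ℝ} (b1 : 1800 / 10000 ≤ w) (b2 : w ≤ 2000 / 10000) :
    -(18 / 125) < 1 * uu w 0 + (1291 / 10000) + (-18 / 25) * w - (uu (49 / 50) 0 - uu (4 / 5) 0 - uu w 0) - (-13 / 100) := by
  have h : chkT [add (sub (sub (add (add (mul (q 1 1) (E.uu QQ.w (q 0 1))) (q 1291 10000)) (mul (q (-18) 25) QQ.w)) (sub (sub (E.uu (q 49 50) (q 0 1)) (E.uu (q 4 5) (q 0 1))) (E.uu QQ.w (q 0 1)))) (q (-13) 100)) (q 18 125)] 30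
    8
    [NumI.V.of 10000 1800 2000] = true := by
    decide +kernel
  obtain ⟨f, hf, hp⟩ := chkT_sound h (xs := [w])
    (List.Forall₂.cons (NumI.V.of_mem (by norm_num) (le_trans (by norm_num) b1) (le_trans b2 (by norm_num))) List.Forall₂.nil)
  by_contra hc
  have hc := not_lt.1 hc
  simp only [List.mem_cons, List.not_mem_nil, or_false] at hf
  rcases hf with rfl
  · simp only [E.val, NumI.lkR, QQ.t, QQ.k, QQ.w] at hp
    push_cast at hp
    try simp only [zero_div, div_one] at hp hc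
    first
      | with_reducible exact absurd (sub_pos.1 hp) (not_lt.2 hc)
      | with_reducible exact absurd hp (not_lt.2 (add_le_of_le_neg hc))
      | linarith

theorem r_t_touched_0_0_0 {w : ℝ} (b1 : 0 / 10000 ≤ w) (b2 : w ≤ 100 / 10000) :
    -(11 / 50) < 0 * uu (1 / 100) 0 + (0 / 1) + (0 / 1) * w - (uu (4 / 5 + w) 0 - uu (4 / 5) 0 - uu (1 / 100) 0) - (-13 / 100) := by
  have h : chkT [add (sub (sub (add (add (mul (q 0 1) (E.uu (q 1 100) (q 0 1))) (q 0 1)) (mul (q 0 1) QQ.w)) (sub (sub (E.uu (add (q 4 5) QQ.w) (q 0 1)) (E.uu (q 4 5) (q 0 1))) (E.uu (q 1 100) (q 0 1)))) (q (-13) 100)) (q 11 50)] 30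
    8
    [NumI.V.of 10000 0 100] = true := by
    decide +kernel
  obtain ⟨f, hf, hp⟩ := chkT_sound h (xs := [w])
    (List.Forall₂.cons (NumI.V.of_mem (by norm_num) (le_trans (by norm_num) b1) (le_trans b2 (by norm_num))) List.Forall₂.nil)
  by_contra hc
  have hc := not_lt.1 hc
  simp only [List.mem_cons, List.not_mem_nil, or_false] at hf
  rcases hf with rfl
  · simp only [E.val, NumI.lkR, QQ.t, QQ.k, QQ.w] at hp
    push_cast at hp
    try simp only [zero_div, div_one] at hp hc
    first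
      | with_reducible exact absurd (sub_pos.1 hp) (not_lt.2 hc)
      | with_reducible exact absurd hp (not_lt.2 (add_le_of_le_neg hc))
      | linarith

theorem r_t_touched_0_0_1 {w : ℝ} (b1 : 100 / 10000 ≤ w) (b2 : w ≤ 1800 / 10000) :
    -(11 / 50) < 0 * uu w 0 + (0 / 1) + (0 / 1) * w - (uu (4 / 5 + w) 0 - uu (4 / 5) 0 - uu w 0) - (-13 / 100) := by
  have h : chkT [add (sub (sub (add (add (mul (q 0 1) (E.uu QQ.w (q 0 1))) (q 0 1)) (mul (q 0 1) QQ.w)) (sub (sub (E.uu (add (q 4 5) QQ.w) (q 0 1)) (E.uu (q 4 5) (q 0 1))) (E.uu QQ.w (q 0 1)))) (q (-13) 100)) (q 11 50)] 30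
    142641152
    [NumI.V.of 10000 100 1800] = true := by
    decide +kernel
  obtain ⟨f, hf, hp⟩ := chkT_sound h (xs := [w])
    (List.Forall₂.cons (NumI.V.of_mem (by norm_num) (le_trans (by norm_num) b1) (le_trans b2 (by norm_num))) List.Forall₂.nil)
  by_contra hc
  have hc := not_lt.1 hc
  simp only [List.mem_cons, List.not_mem_nil, or_false] at hf
  rcases hf with rfl
  · simp only [E.val, NumI.lkR, QQ.t, QQ.k, QQ.w] at hp
    push_cast at hp
    try simp only [zero_div, div_one] at hp hc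
    first
      | with_reducible exact absurd (sub_pos.1 hp) (not_lt.2 hc)
      | with_reducible exact absurd hp (not_lt.2 (add_le_of_le_neg hc))
      | linarith

theorem r_t_touched_0_0_2 {w : ℝ} (b1 : 1800 / 10000 ≤ w) (b2 : w ≤ 2000 / 10000) :
    -(11 / 50) < 0 * uu w 0 + (0 / 1) + (0 / 1) * w - (uu (49 / 50) 0 - uu (4 / 5) 0 - uu w 0) - (-13 / 100) := by
  have h : chkT [add (sub (sub (add (add (mul (q 0 1) (E.uu QQ.w (q 0 1))) (q 0 1)) (mul (q 0 1) QQ.w)) (sub (sub (E.uu (q 49 50) (q 0 1)) (E.uu (q 4 5) (q 0 1))) (E.uu QQ.w (q 0 1)))) (q (-13) 100)) (q 11 50)] 30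
    8
    [NumI.V.of 10000 1800 2000] = true := by
    decide +kernel
  obtain ⟨f, hf, hp⟩ := chkT_sound h (xs := [w])
    (List.Forall₂.cons (NumI.V.of_mem (by norm_num) (le_trans (by norm_num) b1) (le_trans b2 (by norm_num))) List.Forall₂.nil)
  by_contra hc
  have hc := not_lt.1 hc
  simp only [List.mem_cons, List.not_mem_nil, or_false] at hf
  rcases hf with rfl
  · simp only [E.val, NumI.lkR, QQ.t, QQ.k, QQ.w] at hp
    push_cast at hp
    try simp only [zero_div, div_one] at hp hc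
    first
      | with_reducible exact absurd (sub_pos.1 hp) (not_lt.2 hc)
      | with_reducible exact absurd hp (not_lt.2 (add_le_of_le_neg hc))
      | linarith

theorem r_e_one_0_0_0 {w : ℝ} (b1 : 0 / 10000 ≤ w) (b2 : w ≤ 100 / 10000) :
    -(21 / 100) < 0 * uu (1 / 100) 0 + (-11 / 1000) + (0 / 1) * w - (uu (7 / 10 + w) 0 - uu (7 / 10) 0 - uu (1 / 100) 0) - (-9 / 40) := by
  have h : chkT [add (sub (sub (add (add (mul (q 0 1) (E.uu (q 1 100) (q 0 1))) (q (-11) 1000)) (mul (q 0 1) QQ.w)) (sub (sub (E.uu (add (q 7 10) QQ.w) (q 0 1)) (E.uu (q 7 10) (q 0 1))) (E.uu (q 1 100) (q 0 1)))) (q (-9) 40)) (q 21 100)] 30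
    8
    [NumI.V.of 10000 0 100] = true := by
    decide +kernel
  obtain ⟨f, hf, hp⟩ := chkT_sound h (xs := [w])
    (List.Forall₂.cons (NumI.V.of_mem (by norm_num) (le_trans (by norm_num) b1) (le_trans b2 (by norm_num))) List.Forall₂.nil)
  by_contra hc
  have hc := not_lt.1 hc
  simp only [List.mem_cons, List.not_mem_nil, or_false] at hf
  rcases hf with rfl
  · simp only [E.val, NumI.lkR, QQ.t, QQ.k, QQ.w] at hp
    push_cast at hp
    try simp only [zero_div, div_one] at hp hc
    first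
      | with_reducible exact absurd (sub_pos.1 hp) (not_lt.2 hc)
      | with_reducible exact absurd hp (not_lt.2 (add_le_of_le_neg hc))
      | linarith

theorem r_e_one_0_0_1 {w : ℝ} (b1 : 100 / 10000 ≤ w) (b2 : w ≤ 1800 / 10000) :
    -(21 / 100) < 0 * uu w 0 + (-11 / 1000) + (0 / 1) * w - (uu (7 / 10 + w) 0 - uu (7 / 10) 0 - uu w 0) - (-9 / 40) := by
  have h : chkT [add (sub (sub (add (add (mul (q 0 1) (E.uu QQ.w (q 0 1))) (q (-11) 1000)) (mul (q 0 1) QQ.w)) (sub (sub (E.uu (add (q 7 10) QQ.w) (q 0 1)) (E.uu (q 7 10) (q 0 1))) (E.uu QQ.w (q 0 1)))) (q (-9) 40)) (q 21 100)] 30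
    559104
    [NumI.V.of 10000 100 1800] = true := by
    decide +kernel
  obtain ⟨f, hf, hp⟩ := chkT_sound h (xs := [w])
    (List.Forall₂.cons (NumI.V.of_mem (by norm_num) (le_trans (by norm_num) b1) (le_trans b2 (by norm_num))) List.Forall₂.nil)
  by_contra hc
  have hc := not_lt.1 hc
  simp only [List.mem_cons, List.not_mem_nil, or_false] at hf
  rcases hf with rfl
  · simp only [E.val, NumI.lkR, QQ.t, QQ.k, QQ.w] at hp
    push_cast at hp
    try simp only [zero_div, div_one] at hp hc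
    first
      | with_reducible exact absurd (sub_pos.1 hp) (not_lt.2 hc)
      | with_reducible exact absurd hp (not_lt.2 (add_le_of_le_neg hc))
      | linarith

theorem r_e_one_0_1_0 {w : ℝ} (b1 : 0 / 10000 ≤ w) (b2 : w ≤ 100 / 10000) :
    -(21 / 100) < 0 * uu (1 / 100) 0 + (-11 / 1000) + (0 / 1) * w - (uu (19 / 20 + w) 0 - uu (19 / 20) 0 - uu (1 / 100) 0) - (-1 / 10) := by
  have h : chkT [add (sub (sub (add (add (mul (q 0 1) (E.uu (q 1 100) (q 0 1))) (q (-11) 1000)) (mul (q 0 1) QQ.w)) (sub (sub (E.uu (add (q 19 20) QQ.w) (q 0 1)) (E.uu (q 19 20) (q 0 1))) (E.uu (q 1 100) (q 0 1)))) (q (-1) 10)) (q 21 100)] 30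
    8
    [NumI.V.of 10000 0 100] = true := by
    decide +kernel
  obtain ⟨f, hf, hp⟩ := chkT_sound h (xs := [w])
    (List.Forall₂.cons (NumI.V.of_mem (by norm_num) (le_trans (by norm_num) b1) (le_trans b2 (by norm_num))) List.Forall₂.nil)
  by_contra hc
  have hc := not_lt.1 hc
  simp only [List.mem_cons, List.not_mem_nil, or_false] at hf
  rcases hf with rfl
  · simp only [E.val, NumI.lkR, QQ.t, QQ.k, QQ.w] at hp
    push_cast at hp
    try simp only [zero_div, div_one] at hp hc
    first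
      | with_reducible exact absurd (sub_pos.1 hp) (not_lt.2 hc)
      | with_reducible exact absurd hp (not_lt.2 (add_le_of_le_neg hc))
      | linarith

theorem r_e_one_0_1_1 {w : ℝ} (b1 : 100 / 10000 ≤ w) (b2 : w ≤ 400 / 10000) :
    -(21 / 100) < 0 * uu w 0 + (-11 / 1000) + (0 / 1) * w - (uu (19 / 20 + w) 0 - uu (19 / 20) 0 - uu w 0) - (-1 / 10) := by
  have h : chkT [add (sub (sub (add (add (mul (q 0 1) (E.uu QQ.w (q 0 1))) (q (-11) 1000)) (mul (q 0 1) QQ.w)) (sub (sub (E.uu (add (q 19 20) QQ.w) (q 0 1)) (E.uu (q 19 20) (q 0 1))) (E.uu QQ.w (q 0 1)))) (q (-1) 10)) (q 21 100)] 30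
    8
    [NumI.V.of 10000 100 400] = true := by
    decide +kernel
  obtain ⟨f, hf, hp⟩ := chkT_sound h (xs := [w])
    (List.Forall₂.cons (NumI.V.of_mem (by norm_num) (le_trans (by norm_num) b1) (le_trans b2 (by norm_num))) List.Forall₂.nil)
  by_contra hc
  have hc := not_lt.1 hc
  simp only [List.mem_cons, List.not_mem_nil, or_false] at hf
  rcases hf with rfl
  · simp only [E.val, NumI.lkR, QQ.t, QQ.k, QQ.w] at hp
    push_cast at hp
    try simp only [zero_div, div_one] at hp hc
    first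
      | with_reducible exact absurd (sub_pos.1 hp) (not_lt.2 hc)
      | with_reducible exact absurd hp (not_lt.2 (add_le_of_le_neg hc))
      | linarith

theorem r_e_one_0_1_2 {w : ℝ} (b1 : 400 / 10000 ≤ w) (b2 : w ≤ 500 / 10000) :
    -(21 / 100) < 0 * uu w 0 + (-11 / 1000) + (0 / 1) * w - (uu (99 / 100) 0 - uu (19 / 20) 0 - uu w 0) - (-1 / 10) := by
  have h : chkT [add (sub (sub (add (add (mul (q 0 1) (E.uu QQ.w (q 0 1))) (q (-11) 1000)) (mul (q 0 1) QQ.w)) (sub (sub (E.uu (q 99 100) (q 0 1)) (E.uu (q 19 20) (q 0 1))) (E.uu QQ.w (q 0 1)))) (q (-1) 10)) (q 21 100)] 30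
    8
    [NumI.V.of 10000 400 500] = true := by
    decide +kernel
  obtain ⟨f, hf, hp⟩ := chkT_sound h (xs := [w])
    (List.Forall₂.cons (NumI.V.of_mem (by norm_num) (le_trans (by norm_num) b1) (le_trans b2 (by norm_num))) List.Forall₂.nil)
  by_contra hc
  have hc := not_lt.1 hc
  simp only [List.mem_cons, List.not_mem_nil, or_false] at hf
  rcases hf with rfl
  · simp only [E.val, NumI.lkR, QQ.t, QQ.k, QQ.w] at hp
    push_cast at hp
    try simp only [zero_div, div_one] at hp hc
    first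
      | with_reducible exact absurd (sub_pos.1 hp) (not_lt.2 hc)
      | with_reducible exact absurd hp (not_lt.2 (add_le_of_le_neg hc))
      | linarith

theorem r_e_one_1_0_0 {w : ℝ} (b1 : 0 / 10000 ≤ w) (b2 : w ≤ 100 / 10000) :
    -(21 / 100) < 1 * uu (1 / 100) 0 + (-163 / 5000) + (779 / 1000) * w - (uu (7 / 10 + w) 0 - uu (7 / 10) 0 - uu (1 / 100) 0) - (-9 / 40) := by
  have h : chkT [add (sub (sub (add (add (mul (q 1 1) (E.uu (q 1 100) (q 0 1))) (q (-163) 5000)) (mul (q 779 1000) QQ.w)) (sub (sub (E.uu (add (q 7 10) QQ.w) (q 0 1)) (E.uu (q 7 10) (q 0 1))) (E.uu (q 1 100) (q 0 1)))) (q (-9) 40)) (q 21 100)] 30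
    8
    [NumI.V.of 10000 0 100] = true := by
    decide +kernel
  obtain ⟨f, hf, hp⟩ := chkT_sound h (xs := [w])
    (List.Forall₂.cons (NumI.V.of_mem (by norm_num) (le_trans (by norm_num) b1) (le_trans b2 (by norm_num))) List.Forall₂.nil)
  by_contra hc
  have hc := not_lt.1 hc
  simp only [List.mem_cons, List.not_mem_nil, or_false] at hf
  rcases hf with rfl
  · simp only [E.val, NumI.lkR, QQ.t, QQ.k, QQ.w] at hp
    push_cast at hp
    try simp only [zero_div, div_one] at hp hc
    first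
      | with_reducible exact absurd (sub_pos.1 hp) (not_lt.2 hc)
      | with_reducible exact absurd hp (not_lt.2 (add_le_of_le_neg hc))
      | linarith

theorem r_e_one_1_0_1 {w : ℝ} (b1 : 100 / 10000 ≤ w) (b2 : w ≤ 1800 / 10000) :
    -(21 / 100) < 1 * uu w 0 + (-163 / 5000) + (779 / 1000) * w - (uu (7 / 10 + w) 0 - uu (7 / 10) 0 - uu w 0) - (-9 / 40) := by
  have h : chkT [add (sub (sub (add (add (mul (q 1 1) (E.uu QQ.w (q 0 1))) (q (-163) 5000)) (mul (q 779 1000) QQ.w)) (sub (sub (E.uu (add (q 7 10) QQ.w) (q 0 1)) (E.uu (q 7 10) (q 0 1))) (E.uu QQ.w (q 0 1)))) (q (-9) 40)) (q 21 100)] 30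
    143163392
    [NumI.V.of 10000 100 1800] = true := by
    decide +kernel
  obtain ⟨f, hf, hp⟩ := chkT_sound h (xs := [w])
    (List.Forall₂.cons (NumI.V.of_mem (by norm_num) (le_trans (by norm_num) b1) (le_trans b2 (by norm_num))) List.Forall₂.nil)
  by_contra hc
  have hc := not_lt.1 hc
  simp only [List.mem_cons, List.not_mem_nil, or_false] at hf
  rcases hf with rfl
  · simp only [E.val, NumI.lkR, QQ.t, QQ.k, QQ.w] at hp
    push_cast at hp
    try simp only [zero_div, div_one] at hp hc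
    first
      | with_reducible exact absurd (sub_pos.1 hp) (not_lt.2 hc)
      | with_reducible exact absurd hp (not_lt.2 (add_le_of_le_neg hc))
      | linarith

theorem r_e_one_1_1_0 {w : ℝ} (b1 : 0 / 10000 ≤ w) (b2 : w ≤ 100 / 10000) :
    -(21 / 100) < 1 * uu (1 / 100) 0 + (-163 / 5000) + (779 / 1000) * w - (uu (19 / 20 + w) 0 - uu (19 / 20) 0 - uu (1 / 100) 0) - (-1 / 10) := by
  have h : chkT [add (sub (sub (add (add (mul (q 1 1) (E.uu (q 1 100) (q 0 1))) (q (-163) 5000)) (mul (q 779 1000) QQ.w)) (sub (sub (E.uu (add (q 19 20) QQ.w) (q 0 1)) (E.uu (q 19 20) (q 0 1))) (E.uu (q 1 100) (q 0 1)))) (q (-1) 10)) (q 21 100)] 30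
    8
    [NumI.V.of 10000 0 100] = true := by
    decide +kernel
  obtain ⟨f, hf, hp⟩ := chkT_sound h (xs := [w])
    (List.Forall₂.cons (NumI.V.of_mem (by norm_num) (le_trans (by norm_num) b1) (le_trans b2 (by norm_num))) List.Forall₂.nil)
  by_contra hc
  have hc := not_lt.1 hc
  simp only [List.mem_cons, List.not_mem_nil, or_false] at hf
  rcases hf with rfl
  · simp only [E.val, NumI.lkR, QQ.t, QQ.k, QQ.w] at hp
    push_cast at hp
    try simp only [zero_div, div_one] at hp hc
    first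
      | with_reducible exact absurd (sub_pos.1 hp) (not_lt.2 hc)
      | with_reducible exact absurd hp (not_lt.2 (add_le_of_le_neg hc))
      | linarith

theorem r_e_one_1_1_1 {w : ℝ} (b1 : 100 / 10000 ≤ w) (b2 : w ≤ 400 / 10000) :
    -(21 / 100) < 1 * uu w 0 + (-163 / 5000) + (779 / 1000) * w - (uu (19 / 20 + w) 0 - uu (19 / 20) 0 - uu w 0) - (-1 / 10) := by
  have h : chkT [add (sub (sub (add (add (mul (q 1 1) (E.uu QQ.w (q 0 1))) (q (-163) 5000)) (mul (q 779 1000) QQ.w)) (sub (sub (E.uu (add (q 19 20) QQ.w) (q 0 1)) (E.uu (q 19 20) (q 0 1))) (E.uu QQ.w (q 0 1)))) (q (-1) 10)) (q 21 100)] 30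
    8
    [NumI.V.of 10000 100 400] = true := by
    decide +kernel
  obtain ⟨f, hf, hp⟩ := chkT_sound h (xs := [w])
    (List.Forall₂.cons (NumI.V.of_mem (by norm_num) (le_trans (by norm_num) b1) (le_trans b2 (by norm_num))) List.Forall₂.nil)
  by_contra hc
  have hc := not_lt.1 hc
  simp only [List.mem_cons, List.not_mem_nil, or_false] at hf
  rcases hf with rfl
  · simp only [E.val, NumI.lkR, QQ.t, QQ.k, QQ.w] at hp
    push_cast at hp
    try simp only [zero_div, div_one] at hp hc
    first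
      | with_reducible exact absurd (sub_pos.1 hp) (not_lt.2 hc)
      | with_reducible exact absurd hp (not_lt.2 (add_le_of_le_neg hc))
      | linarith

theorem r_e_one_1_1_2 {w : ℝ} (b1 : 400 / 10000 ≤ w) (b2 : w ≤ 500 / 10000) :
    -(21 / 100) < 1 * uu w 0 + (-163 / 5000) + (779 / 1000) * w - (uu (99 / 100) 0 - uu (19 / 20) 0 - uu w 0) - (-1 / 10) := by
  have h : chkT [add (sub (sub (add (add (mul (q 1 1) (E.uu QQ.w (q 0 1))) (q (-163) 5000)) (mul (q 779 1000) QQ.w)) (sub (sub (E.uu (q 99 100) (q 0 1)) (E.uu (q 19 20) (q 0 1))) (E.uu QQ.w (q 0 1)))) (q (-1) 10)) (q 21 100)] 30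
    8
    [NumI.V.of 10000 400 500] = true := by
    decide +kernel
  obtain ⟨f, hf, hp⟩ := chkT_sound h (xs := [w])
    (List.Forall₂.cons (NumI.V.of_mem (by norm_num) (le_trans (by norm_num) b1) (le_trans b2 (by norm_num))) List.Forall₂.nil)
  by_contra hc
  have hc := not_lt.1 hc
  simp only [List.mem_cons, List.not_mem_nil, or_false] at hf
  rcases hf with rfl
  · simp only [E.val, NumI.lkR, QQ.t, QQ.k, QQ.w] at hp
    push_cast at hp
    try simp only [zero_div, div_one] at hp hc
    first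
      | with_reducible exact absurd (sub_pos.1 hp) (not_lt.2 hc)
      | with_reducible exact absurd hp (not_lt.2 (add_le_of_le_neg hc))
      | linarith

theorem r_e_one_2_0_0 {w : ℝ} (b1 : 1800 / 10000 ≤ w) (b2 : w ≤ 2800 / 10000) :
    -(11 / 50) < 1 * uu w 0 + (164 / 625) + (-921 / 1000) * w - (uu (7 / 10 + w) 0 - uu (7 / 10) 0 - uu w 0) - (-9 / 40) := by
  have h : chkT [add (sub (sub (add (add (mul (q 1 1) (E.uu QQ.w (q 0 1))) (q 164 625)) (mul (q (-921) 1000) QQ.w)) (sub (sub (E.uu (add (q 7 10) QQ.w) (q 0 1)) (E.uu (q 7 10) (q 0 1))) (E.uu QQ.w (q 0 1)))) (q (-9) 40)) (q 11 50)] 30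
    2176
    [NumI.V.of 10000 1800 2800] = true := by
    decide +kernel
  obtain ⟨f, hf, hp⟩ := chkT_sound h (xs := [w])
    (List.Forall₂.cons (NumI.V.of_mem (by norm_num) (le_trans (by norm_num) b1) (le_trans b2 (by norm_num))) List.Forall₂.nil)
  by_contra hc
  have hc := not_lt.1 hc
  simp only [List.mem_cons, List.not_mem_nil, or_false] at hf
  rcases hf with rfl
  · simp only [E.val, NumI.lkR, QQ.t, QQ.k, QQ.w] at hp
    push_cast at hp
    try simp only [zero_div, div_one] at hp hc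
    first
      | with_reducible exact absurd (sub_pos.1 hp) (not_lt.2 hc)
      | with_reducible exact absurd hp (not_lt.2 (add_le_of_le_neg hc))
      | linarith

theorem r_e_one_2_0_1 {w : ℝ} (b1 : 2800 / 10000 ≤ w) (b2 : w ≤ 3000 / 10000) :
    -(11 / 50) < 1 * uu w 0 + (164 / 625) + (-921 / 1000) * w - (uu (49 / 50) 0 - uu (7 / 10) 0 - uu w 0) - (-9 / 40) := by
  have h : chkT [add (sub (sub (add (add (mul (q 1 1) (E.uu QQ.w (q 0 1))) (q 164 625)) (mul (q (-921) 1000) QQ.w)) (sub (sub (E.uu (q 49 50) (q 0 1)) (E.uu (q 7 10) (q 0 1))) (E.uu QQ.w (q 0 1)))) (q (-9) 40)) (q 11 50)] 30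
    8
    [NumI.V.of 10000 2800 3000] = true := by
    decide +kernel
  obtain ⟨f, hf, hp⟩ := chkT_sound h (xs := [w])
    (List.Forall₂.cons (NumI.V.of_mem (by norm_num) (le_trans (by norm_num) b1) (le_trans b2 (by norm_num))) List.Forall₂.nil)
  by_contra hc
  have hc := not_lt.1 hc
  simp only [List.mem_cons, List.not_mem_nil, or_false] at hf
  rcases hf with rfl
  · simp only [E.val, NumI.lkR, QQ.t, QQ.k, QQ.w] at hp
    push_cast at hp
    try simp only [zero_div, div_one] at hp hc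
    first
      | with_reducible exact absurd (sub_pos.1 hp) (not_lt.2 hc)
      | with_reducible exact absurd hp (not_lt.2 (add_le_of_le_neg hc))
      | linarith

theorem r_e_one_3_0_0 {w : ℝ} (b1 : 1800 / 10000 ≤ w) (b2 : w ≤ 2800 / 10000) :
    -(23 / 100) < 1 * uu w 0 + (1451 / 5000) + (-1021 / 1000) * w - (uu (7 / 10 + w) 0 - uu (7 / 10) 0 - uu w 0) - (-9 / 40) := by
  have h : chkT [add (sub (sub (add (add (mul (q 1 1) (E.uu QQ.w (q 0 1))) (q 1451 5000)) (mul (q (-1021) 1000) QQ.w)) (sub (sub (E.uu (add (q 7 10) QQ.w) (q 0 1)) (E.uu (q 7 10) (q 0 1))) (E.uu QQ.w (q 0 1)))) (q (-9) 40)) (q 23 100)] 30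
    2176
    [NumI.V.of 10000 1800 2800] = true := by
    decide +kernel
  obtain ⟨f, hf, hp⟩ := chkT_sound h (xs := [w])
    (List.Forall₂.cons (NumI.V.of_mem (by norm_num) (le_trans (by norm_num) b1) (le_trans b2 (by norm_num))) List.Forall₂.nil)
  by_contra hc
  have hc := not_lt.1 hc
  simp only [List.mem_cons, List.not_mem_nil, or_false] at hf
  rcases hf with rfl
  · simp only [E.val, NumI.lkR, QQ.t, QQ.k, QQ.w] at hp
    push_cast at hp
    try simp only [zero_div, div_one] at hp hc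
    first
      | with_reducible exact absurd (sub_pos.1 hp) (not_lt.2 hc)
      | with_reducible exact absurd hp (not_lt.2 (add_le_of_le_neg hc))
      | linarith

theorem r_e_one_3_0_1 {w : ℝ} (b1 : 2800 / 10000 ≤ w) (b2 : w ≤ 3000 / 10000) :
    -(23 / 100) < 1 * uu w 0 + (1451 / 5000) + (-1021 / 1000) * w - (uu (49 / 50) 0 - uu (7 / 10) 0 - uu w 0) - (-9 / 40) := by
  have h : chkT [add (sub (sub (add (add (mul (q 1 1) (E.uu QQ.w (q 0 1))) (q 1451 5000)) (mul (q (-1021) 1000) QQ.w)) (sub (sub (E.uu (q 49 50) (q 0 1)) (E.uu (q 7 10) (q 0 1))) (E.uu QQ.w (q 0 1)))) (q (-9) 40)) (q 23 100)] 30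
    8
    [NumI.V.of 10000 2800 3000] = true := by
    decide +kernel
  obtain ⟨f, hf, hp⟩ := chkT_sound h (xs := [w])
    (List.Forall₂.cons (NumI.V.of_mem (by norm_num) (le_trans (by norm_num) b1) (le_trans b2 (by norm_num))) List.Forall₂.nil)
  by_contra hc
  have hc := not_lt.1 hc
  simp only [List.mem_cons, List.not_mem_nil, or_false] at hf
  rcases hf with rfl
  · simp only [E.val, NumI.lkR, QQ.t, QQ.k, QQ.w] at hp
    push_cast at hp
    try simp only [zero_div, div_one] at hp hc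
    first
      | with_reducible exact absurd (sub_pos.1 hp) (not_lt.2 hc)
      | with_reducible exact absurd hp (not_lt.2 (add_le_of_le_neg hc))
      | linarith

theorem r_e_two_0_0_0 {w : ℝ} (b1 : 0 / 10000 ≤ w) (b2 : w ≤ 100 / 10000) :
    -(21 / 100) < 1 * uu (1 / 100) 0 + (53 / 625) + (-37 / 250) * w - (uu (7 / 10 + w) 0 - uu (7 / 10) 0 - uu (1 / 100) 0) - (-9 / 40) := by
  have h : chkT [add (sub (sub (add (add (mul (q 1 1) (E.uu (q 1 100) (q 0 1))) (q 53 625)) (mul (q (-37) 250) QQ.w)) (sub (sub (E.uu (add (q 7 10) QQ.w) (q 0 1)) (E.uu (q 7 10) (q 0 1))) (E.uu (q 1 100) (q 0 1)))) (q (-9) 40)) (q 21 100)] 30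
    8
    [NumI.V.of 10000 0 100] = true := by
    decide +kernel
  obtain ⟨f, hf, hp⟩ := chkT_sound h (xs := [w])
    (List.Forall₂.cons (NumI.V.of_mem (by norm_num) (le_trans (by norm_num) b1) (le_trans b2 (by norm_num))) List.Forall₂.nil)
  by_contra hc
  have hc := not_lt.1 hc
  simp only [List.mem_cons, List.not_mem_nil, or_false] at hf
  rcases hf with rfl
  · simp only [E.val, NumI.lkR, QQ.t, QQ.k, QQ.w] at hp
    push_cast at hp
    try simp only [zero_div, div_one] at hp hc
    first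
      | with_reducible exact absurd (sub_pos.1 hp) (not_lt.2 hc)
      | with_reducible exact absurd hp (not_lt.2 (add_le_of_le_neg hc))
      | linarith

theorem r_e_two_0_0_1 {w : ℝ} (b1 : 100 / 10000 ≤ w) (b2 : w ≤ 2800 / 10000) :
    -(21 / 100) < 1 * uu w 0 + (53 / 625) + (-37 / 250) * w - (uu (7 / 10 + w) 0 - uu (7 / 10) 0 - uu w 0) - (-9 / 40) := by
  have h : chkT [add (sub (sub (add (add (mul (q 1 1) (E.uu QQ.w (q 0 1))) (q 53 625)) (mul (q (-37) 250) QQ.w)) (sub (sub (E.uu (add (q 7 10) QQ.w) (q 0 1)) (E.uu (q 7 10) (q 0 1))) (E.uu QQ.w (q 0 1)))) (q (-9) 40)) (q 21 100)] 30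
    36516167680
    [NumI.V.of 10000 100 2800] = true := by
    decide +kernel
  obtain ⟨f, hf, hp⟩ := chkT_sound h (xs := [w])
    (List.Forall₂.cons (NumI.V.of_mem (by norm_num) (le_trans (by norm_num) b1) (le_trans b2 (by norm_num))) List.Forall₂.nil)
  by_contra hc
  have hc := not_lt.1 hc
  simp only [List.mem_cons, List.not_mem_nil, or_false] at hf
  rcases hf with rfl
  · simp only [E.val, NumI.lkR, QQ.t, QQ.k, QQ.w] at hp
    push_cast at hp
    try simp only [zero_div, div_one] at hp hc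
    first
      | with_reducible exact absurd (sub_pos.1 hp) (not_lt.2 hc)
      | with_reducible exact absurd hp (not_lt.2 (add_le_of_le_neg hc))
      | linarith

theorem r_e_two_0_0_2 {w : ℝ} (b1 : 2800 / 10000 ≤ w) (b2 : w ≤ 3000 / 10000) :
    -(21 / 100) < 1 * uu w 0 + (53 / 625) + (-37 / 250) * w - (uu (49 / 50) 0 - uu (7 / 10) 0 - uu w 0) - (-9 / 40) := by
  have h : chkT [add (sub (sub (add (add (mul (q 1 1) (E.uu QQ.w (q 0 1))) (q 53 625)) (mul (q (-37) 250) QQ.w)) (sub (sub (E.uu (q 49 50) (q 0 1)) (E.uu (q 7 10) (q 0 1))) (E.uu QQ.w (q 0 1)))) (q (-9) 40)) (q 21 100)] 30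
    8
    [NumI.V.of 10000 2800 3000] = true := by
    decide +kernel
  obtain ⟨f, hf, hp⟩ := chkT_sound h (xs := [w])
    (List.Forall₂.cons (NumI.V.of_mem (by norm_num) (le_trans (by norm_num) b1) (le_trans b2 (by norm_num))) List.Forall₂.nil)
  by_contra hc
  have hc := not_lt.1 hc
  simp only [List.mem_cons, List.not_mem_nil, or_false] at hf
  rcases hf with rfl
  · simp only [E.val, NumI.lkR, QQ.t, QQ.k, QQ.w] at hp
    push_cast at hp
    try simp only [zero_div, div_one] at hp hc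
    first
      | with_reducible exact absurd (sub_pos.1 hp) (not_lt.2 hc)
      | with_reducible exact absurd hp (not_lt.2 (add_le_of_le_neg hc))
      | linarith

theorem r_e_two_0_1_0 {w : ℝ} (b1 : 0 / 10000 ≤ w) (b2 : w ≤ 100 / 10000) :
    -(21 / 100) < 1 * uu (1 / 100) 0 + (53 / 625) + (-37 / 250) * w - (uu (19 / 20 + w) 0 - uu (19 / 20) 0 - uu (1 / 100) 0) - (-1 / 10) := by
  have h : chkT [add (sub (sub (add (add (mul (q 1 1) (E.uu (q 1 100) (q 0 1))) (q 53 625)) (mul (q (-37) 250) QQ.w)) (sub (sub (E.uu (add (q 19 20) QQ.w) (q 0 1)) (E.uu (q 19 20) (q 0 1))) (E.uu (q 1 100) (q 0 1)))) (q (-1) 10)) (q 21 100)] 30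
    8
    [NumI.V.of 10000 0 100] = true := by
    decide +kernel
  obtain ⟨f, hf, hp⟩ := chkT_sound h (xs := [w])
    (List.Forall₂.cons (NumI.V.of_mem (by norm_num) (le_trans (by norm_num) b1) (le_trans b2 (by norm_num))) List.Forall₂.nil)
  by_contra hc
  have hc := not_lt.1 hc
  simp only [List.mem_cons, List.not_mem_nil, or_false] at hf
  rcases hf with rfl
  · simp only [E.val, NumI.lkR, QQ.t, QQ.k, QQ.w] at hp
    push_cast at hp
    try simp only [zero_div, div_one] at hp hc
    first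
      | with_reducible exact absurd (sub_pos.1 hp) (not_lt.2 hc)
      | with_reducible exact absurd hp (not_lt.2 (add_le_of_le_neg hc))
      | linarith

theorem r_e_two_0_1_1 {w : ℝ} (b1 : 100 / 10000 ≤ w) (b2 : w ≤ 400 / 10000) :
    -(21 / 100) < 1 * uu w 0 + (53 / 625) + (-37 / 250) * w - (uu (19 / 20 + w) 0 - uu (19 / 20) 0 - uu w 0) - (-1 / 10) := by
  have h : chkT [add (sub (sub (add (add (mul (q 1 1) (E.uu QQ.w (q 0 1))) (q 53 625)) (mul (q (-37) 250) QQ.w)) (sub (sub (E.uu (add (q 19 20) QQ.w) (q 0 1)) (E.uu (q 19 20) (q 0 1))) (E.uu QQ.w (q 0 1)))) (q (-1) 10)) (q 21 100)] 30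
    8
    [NumI.V.of 10000 100 400] = true := by
    decide +kernel
  obtain ⟨f, hf, hp⟩ := chkT_sound h (xs := [w])
    (List.Forall₂.cons (NumI.V.of_mem (by norm_num) (le_trans (by norm_num) b1) (le_trans b2 (by norm_num))) List.Forall₂.nil)
  by_contra hc
  have hc := not_lt.1 hc
  simp only [List.mem_cons, List.not_mem_nil, or_false] at hf
  rcases hf with rfl
  · simp only [E.val, NumI.lkR, QQ.t, QQ.k, QQ.w] at hp
    push_cast at hp
    try simp only [zero_div, div_one] at hp hc
    first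
      | with_reducible exact absurd (sub_pos.1 hp) (not_lt.2 hc)
      | with_reducible exact absurd hp (not_lt.2 (add_le_of_le_neg hc))
      | linarith

theorem r_e_two_0_1_2 {w : ℝ} (b1 : 400 / 10000 ≤ w) (b2 : w ≤ 500 / 10000) :
    -(21 / 100) < 1 * uu w 0 + (53 / 625) + (-37 / 250) * w - (uu (99 / 100) 0 - uu (19 / 20) 0 - uu w 0) - (-1 / 10) := by
  have h : chkT [add (sub (sub (add (add (mul (q 1 1) (E.uu QQ.w (q 0 1))) (q 53 625)) (mul (q (-37) 250) QQ.w)) (sub (sub (E.uu (q 99 100) (q 0 1)) (E.uu (q 19 20) (q 0 1))) (E.uu QQ.w (q 0 1)))) (q (-1) 10)) (q 21 100)] 30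
    8
    [NumI.V.of 10000 400 500] = true := by
    decide +kernel
  obtain ⟨f, hf, hp⟩ := chkT_sound h (xs := [w])
    (List.Forall₂.cons (NumI.V.of_mem (by norm_num) (le_trans (by norm_num) b1) (le_trans b2 (by norm_num))) List.Forall₂.nil)
  by_contra hc
  have hc := not_lt.1 hc
  simp only [List.mem_cons, List.not_mem_nil, or_false] at hf
  rcases hf with rfl
  · simp only [E.val, NumI.lkR, QQ.t, QQ.k, QQ.w] at hp
    push_cast at hp
    try simp only [zero_div, div_one] at hp hc
    first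
      | with_reducible exact absurd (sub_pos.1 hp) (not_lt.2 hc)
      | with_reducible exact absurd hp (not_lt.2 (add_le_of_le_neg hc))
      | linarith

theorem r_e_twoE_0_0_0 {w : ℝ} (b1 : 0 / 10000 ≤ w) (b2 : w ≤ 100 / 10000) :
    -(1 / 4) < 1 * uu (1 / 100) 0 + (309 / 2000) + (0 / 1) * w - (uu (7 / 10 + w) 0 - uu (7 / 10) 0 - uu (1 / 100) 0) - (-9 / 40) := by
  have h : chkT [add (sub (sub (add (add (mul (q 1 1) (E.uu (q 1 100) (q 0 1))) (q 309 2000)) (mul (q 0 1) QQ.w)) (sub (sub (E.uu (add (q 7 10) QQ.w) (q 0 1)) (E.uu (q 7 10) (q 0 1))) (E.uu (q 1 100) (q 0 1)))) (q (-9) 40)) (q 1 4)] 30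
    8
    [NumI.V.of 10000 0 100] = true := by
    decide +kernel
  obtain ⟨f, hf, hp⟩ := chkT_sound h (xs := [w])
    (List.Forall₂.cons (NumI.V.of_mem (by norm_num) (le_trans (by norm_num) b1) (le_trans b2 (by norm_num))) List.Forall₂.nil)
  by_contra hc
  have hc := not_lt.1 hc
  simp only [List.mem_cons, List.not_mem_nil, or_false] at hf
  rcases hf with rfl
  · simp only [E.val, NumI.lkR, QQ.t, QQ.k, QQ.w] at hp
    push_cast at hp
    try simp only [zero_div, div_one] at hp hc
    first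
      | with_reducible exact absurd (sub_pos.1 hp) (not_lt.2 hc)
      | with_reducible exact absurd hp (not_lt.2 (add_le_of_le_neg hc))
      | linarith

theorem r_e_twoE_0_0_1 {w : ℝ} (b1 : 100 / 10000 ≤ w) (b2 : w ≤ 2800 / 10000) :
    -(1 / 4) < 1 * uu w 0 + (309 / 2000) + (0 / 1) * w - (uu (7 / 10 + w) 0 - uu (7 / 10) 0 - uu w 0) - (-9 / 40) := by
  have h : chkT [add (sub (sub (add (add (mul (q 1 1) (E.uu QQ.w (q 0 1))) (q 309 2000)) (mul (q 0 1) QQ.w)) (sub (sub (E.uu (add (q 7 10) QQ.w) (q 0 1)) (E.uu (q 7 10) (q 0 1))) (E.uu QQ.w (q 0 1)))) (q (-9) 40)) (q 1 4)] 30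
    36516167680
    [NumI.V.of 10000 100 2800] = true := by
    decide +kernel
  obtain ⟨f, hf, hp⟩ := chkT_sound h (xs := [w])
    (List.Forall₂.cons (NumI.V.of_mem (by norm_num) (le_trans (by norm_num) b1) (le_trans b2 (by norm_num))) List.Forall₂.nil)
  by_contra hc
  have hc := not_lt.1 hc
  simp only [List.mem_cons, List.not_mem_nil, or_false] at hf
  rcases hf with rfl
  · simp only [E.val, NumI.lkR, QQ.t, QQ.k, QQ.w] at hp
    push_cast at hp
    try simp only [zero_div, div_one] at hp hc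
    first
      | with_reducible exact absurd (sub_pos.1 hp) (not_lt.2 hc)
      | with_reducible exact absurd hp (not_lt.2 (add_le_of_le_neg hc))
      | linarith

theorem r_e_twoE_0_0_2 {w : ℝ} (b1 : 2800 / 10000 ≤ w) (b2 : w ≤ 3000 / 10000) :
    -(1 / 4) < 1 * uu w 0 + (309 / 2000) + (0 / 1) * w - (uu (49 / 50) 0 - uu (7 / 10) 0 - uu w 0) - (-9 / 40) := by
  have h : chkT [add (sub (sub (add (add (mul (q 1 1) (E.uu QQ.w (q 0 1))) (q 309 2000)) (mul (q 0 1) QQ.w)) (sub (sub (E.uu (q 49 50) (q 0 1)) (E.uu (q 7 10) (q 0 1))) (E.uu QQ.w (q 0 1)))) (q (-9) 40)) (q 1 4)] 30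
    8
    [NumI.V.of 10000 2800 3000] = true := by
    decide +kernel
  obtain ⟨f, hf, hp⟩ := chkT_sound h (xs := [w])
    (List.Forall₂.cons (NumI.V.of_mem (by norm_num) (le_trans (by norm_num) b1) (le_trans b2 (by norm_num))) List.Forall₂.nil)
  by_contra hc
  have hc := not_lt.1 hc
  simp only [List.mem_cons, List.not_mem_nil, or_false] at hf
  rcases hf with rfl
  · simp only [E.val, NumI.lkR, QQ.t, QQ.k, QQ.w] at hp
    push_cast at hp
    try simp only [zero_div, div_one] at hp hc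
    first
      | with_reducible exact absurd (sub_pos.1 hp) (not_lt.2 hc)
      | with_reducible exact absurd hp (not_lt.2 (add_le_of_le_neg hc))
      | linarith

theorem r_e_twoE_0_1_0 {w : ℝ} (b1 : 0 / 10000 ≤ w) (b2 : w ≤ 100 / 10000) :
    -(1 / 4) < 1 * uu (1 / 100) 0 + (309 / 2000) + (0 / 1) * w - (uu (19 / 20 + w) 0 - uu (19 / 20) 0 - uu (1 / 100) 0) - (-1 / 10) := by
  have h : chkT [add (sub (sub (add (add (mul (q 1 1) (E.uu (q 1 100) (q 0 1))) (q 309 2000)) (mul (q 0 1) QQ.w)) (sub (sub (E.uu (add (q 19 20) QQ.w) (q 0 1)) (E.uu (q 19 20) (q 0 1))) (E.uu (q 1 100) (q 0 1)))) (q (-1) 10)) (q 1 4)] 30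
    8
    [NumI.V.of 10000 0 100] = true := by
    decide +kernel
  obtain ⟨f, hf, hp⟩ := chkT_sound h (xs := [w])
    (List.Forall₂.cons (NumI.V.of_mem (by norm_num) (le_trans (by norm_num) b1) (le_trans b2 (by norm_num))) List.Forall₂.nil)
  by_contra hc
  have hc := not_lt.1 hc
  simp only [List.mem_cons, List.not_mem_nil, or_false] at hf
  rcases hf with rfl
  · simp only [E.val, NumI.lkR, QQ.t, QQ.k, QQ.w] at hp
    push_cast at hp
    try simp only [zero_div, div_one] at hp hc
    first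
      | with_reducible exact absurd (sub_pos.1 hp) (not_lt.2 hc)
      | with_reducible exact absurd hp (not_lt.2 (add_le_of_le_neg hc))
      | linarith

theorem r_e_twoE_0_1_1 {w : ℝ} (b1 : 100 / 10000 ≤ w) (b2 : w ≤ 400 / 10000) :
    -(1 / 4) < 1 * uu w 0 + (309 / 2000) + (0 / 1) * w - (uu (19 / 20 + w) 0 - uu (19 / 20) 0 - uu w 0) - (-1 / 10) := by
  have h : chkT [add (sub (sub (add (add (mul (q 1 1) (E.uu QQ.w (q 0 1))) (q 309 2000)) (mul (q 0 1) QQ.w)) (sub (sub (E.uu (add (q 19 20) QQ.w) (q 0 1)) (E.uu (q 19 20) (q 0 1))) (E.uu QQ.w (q 0 1)))) (q (-1) 10)) (q 1 4)] 30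
    8
    [NumI.V.of 10000 100 400] = true := by
    decide +kernel
  obtain ⟨f, hf, hp⟩ := chkT_sound h (xs := [w])
    (List.Forall₂.cons (NumI.V.of_mem (by norm_num) (le_trans (by norm_num) b1) (le_trans b2 (by norm_num))) List.Forall₂.nil)
  by_contra hc
  have hc := not_lt.1 hc
  simp only [List.mem_cons, List.not_mem_nil, or_false] at hf
  rcases hf with rfl
  · simp only [E.val, NumI.lkR, QQ.t, QQ.k, QQ.w] at hp
    push_cast at hp
    try simp only [zero_div, div_one] at hp hc
    first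
      | with_reducible exact absurd (sub_pos.1 hp) (not_lt.2 hc)
      | with_reducible exact absurd hp (not_lt.2 (add_le_of_le_neg hc))
      | linarith

theorem r_e_twoE_0_1_2 {w : ℝ} (b1 : 400 / 10000 ≤ w) (b2 : w ≤ 500 / 10000) :
    -(1 / 4) < 1 * uu w 0 + (309 / 2000) + (0 / 1) * w - (uu (99 / 100) 0 - uu (19 / 20) 0 - uu w 0) - (-1 / 10) := by
  have h : chkT [add (sub (sub (add (add (mul (q 1 1) (E.uu QQ.w (q 0 1))) (q 309 2000)) (mul (q 0 1) QQ.w)) (sub (sub (E.uu (q 99 100) (q 0 1)) (E.uu (q 19 20) (q 0 1))) (E.uu QQ.w (q 0 1)))) (q (-1) 10)) (q 1 4)] 30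
    8
    [NumI.V.of 10000 400 500] = true := by
    decide +kernel
  obtain ⟨f, hf, hp⟩ := chkT_sound h (xs := [w])
    (List.Forall₂.cons (NumI.V.of_mem (by norm_num) (le_trans (by norm_num) b1) (le_trans b2 (by norm_num))) List.Forall₂.nil)
  by_contra hc
  have hc := not_lt.1 hc
  simp only [List.mem_cons, List.not_mem_nil, or_false] at hf
  rcases hf with rfl
  · simp only [E.val, NumI.lkR, QQ.t, QQ.k, QQ.w] at hp
    push_cast at hp
    try simp only [zero_div, div_one] at hp hc
    first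
      | with_reducible exact absurd (sub_pos.1 hp) (not_lt.2 hc)
      | with_reducible exact absurd hp (not_lt.2 (add_le_of_le_neg hc))
      | linarith

theorem r_e_threeA_0_0_0 {w : ℝ} (b1 : 0 / 10000 ≤ w) (b2 : w ≤ 100 / 10000) :
    -(51 / 500) < 1 * uu (1 / 100) 0 + (62 / 625) + (-227 / 1000) * w - (uu (7 / 10 + w) 0 - uu (7 / 10) 0 - uu (1 / 100) 0) - (-9 / 40) := by
  have h : chkT [add (sub (sub (add (add (mul (q 1 1) (E.uu (q 1 100) (q 0 1))) (q 62 625)) (mul (q (-227) 1000) QQ.w)) (sub (sub (E.uu (add (q 7 10) QQ.w) (q 0 1)) (E.uu (q 7 10) (q 0 1))) (E.uu (q 1 100) (q 0 1)))) (q (-9) 40)) (q 51 500)] 30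
    8
    [NumI.V.of 10000 0 100] = true := by
    decide +kernel
  obtain ⟨f, hf, hp⟩ := chkT_sound h (xs := [w])
    (List.Forall₂.cons (NumI.V.of_mem (by norm_num) (le_trans (by norm_num) b1) (le_trans b2 (by norm_num))) List.Forall₂.nil)
  by_contra hc
  have hc := not_lt.1 hc
  simp only [List.mem_cons, List.not_mem_nil, or_false] at hf
  rcases hf with rfl
  · simp only [E.val, NumI.lkR, QQ.t, QQ.k, QQ.w] at hp
    push_cast at hp
    try simp only [zero_div, div_one] at hp hc
    first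
      | with_reducible exact absurd (sub_pos.1 hp) (not_lt.2 hc)
      | with_reducible exact absurd hp (not_lt.2 (add_le_of_le_neg hc))
      | linarith

theorem r_e_threeA_0_0_1 {w : ℝ} (b1 : 100 / 10000 ≤ w) (b2 : w ≤ 1600 / 10000) :
    -(51 / 500) < 1 * uu w 0 + (62 / 625) + (-227 / 1000) * w - (uu (7 / 10 + w) 0 - uu (7 / 10) 0 - uu w 0) - (-9 / 40) := by
  have h : chkT [add (sub (sub (add (add (mul (q 1 1) (E.uu QQ.w (q 0 1))) (q 62 625)) (mul (q (-227) 1000) QQ.w)) (sub (sub (E.uu (add (q 7 10) QQ.w) (q 0 1)) (E.uu (q 7 10) (q 0 1))) (E.uu QQ.w (q 0 1)))) (q (-9) 40)) (q 51 500)] 30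
    559104
    [NumI.V.of 10000 100 1600] = true := by
    decide +kernel
  obtain ⟨f, hf, hp⟩ := chkT_sound h (xs := [w])
    (List.Forall₂.cons (NumI.V.of_mem (by norm_num) (le_trans (by norm_num) b1) (le_trans b2 (by norm_num))) List.Forall₂.nil)
  by_contra hc
  have hc := not_lt.1 hc
  simp only [List.mem_cons, List.not_mem_nil, or_false] at hf
  rcases hf with rfl
  · simp only [E.val, NumI.lkR, QQ.t, QQ.k, QQ.w] at hp
    push_cast at hp
    try simp only [zero_div, div_one] at hp hc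
    first
      | with_reducible exact absurd (sub_pos.1 hp) (not_lt.2 hc)
      | with_reducible exact absurd hp (not_lt.2 (add_le_of_le_neg hc))
      | linarith

theorem r_e_threeA_0_1_0 {w : ℝ} (b1 : 0 / 10000 ≤ w) (b2 : w ≤ 100 / 10000) :
    -(51 / 500) < 1 * uu (1 / 100) 0 + (62 / 625) + (-227 / 1000) * w - (uu (19 / 20 + w) 0 - uu (19 / 20) 0 - uu (1 / 100) 0) - (-1 / 10) := by
  have h : chkT [add (sub (sub (add (add (mul (q 1 1) (E.uu (q 1 100) (q 0 1))) (q 62 625)) (mul (q (-227) 1000) QQ.w)) (sub (sub (E.uu (add (q 19 20) QQ.w) (q 0 1)) (E.uu (q 19 20) (q 0 1))) (E.uu (q 1 100) (q 0 1)))) (q (-1) 10)) (q 51 500)] 30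
    8
    [NumI.V.of 10000 0 100] = true := by
    decide +kernel
  obtain ⟨f, hf, hp⟩ := chkT_sound h (xs := [w])
    (List.Forall₂.cons (NumI.V.of_mem (by norm_num) (le_trans (by norm_num) b1) (le_trans b2 (by norm_num))) List.Forall₂.nil)
  by_contra hc
  have hc := not_lt.1 hc
  simp only [List.mem_cons, List.not_mem_nil, or_false] at hf
  rcases hf with rfl
  · simp only [E.val, NumI.lkR, QQ.t, QQ.k, QQ.w] at hp
    push_cast at hp
    try simp only [zero_div, div_one] at hp hc
    first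
      | with_reducible exact absurd (sub_pos.1 hp) (not_lt.2 hc)
      | with_reducible exact absurd hp (not_lt.2 (add_le_of_le_neg hc))
      | linarith

theorem r_e_threeA_0_1_1 {w : ℝ} (b1 : 100 / 10000 ≤ w) (b2 : w ≤ 400 / 10000) :
    -(51 / 500) < 1 * uu w 0 + (62 / 625) + (-227 / 1000) * w - (uu (19 / 20 + w) 0 - uu (19 / 20) 0 - uu w 0) - (-1 / 10) := by
  have h : chkT [add (sub (sub (add (add (mul (q 1 1) (E.uu QQ.w (q 0 1))) (q 62 625)) (mul (q (-227) 1000) QQ.w)) (sub (sub (E.uu (add (q 19 20) QQ.w) (q 0 1)) (E.uu (q 19 20) (q 0 1))) (E.uu QQ.w (q 0 1)))) (q (-1) 10)) (q 51 500)] 30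
    8
    [NumI.V.of 10000 100 400] = true := by
    decide +kernel
  obtain ⟨f, hf, hp⟩ := chkT_sound h (xs := [w])
    (List.Forall₂.cons (NumI.V.of_mem (by norm_num) (le_trans (by norm_num) b1) (le_trans b2 (by norm_num))) List.Forall₂.nil)
  by_contra hc
  have hc := not_lt.1 hc
  simp only [List.mem_cons, List.not_mem_nil, or_false] at hf
  rcases hf with rfl
  · simp only [E.val, NumI.lkR, QQ.t, QQ.k, QQ.w] at hp
    push_cast at hp
    try simp only [zero_div, div_one] at hp hc
    first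
      | with_reducible exact absurd (sub_pos.1 hp) (not_lt.2 hc)
      | with_reducible exact absurd hp (not_lt.2 (add_le_of_le_neg hc))
      | linarith

theorem r_e_threeA_0_1_2 {w : ℝ} (b1 : 400 / 10000 ≤ w) (b2 : w ≤ 500 / 10000) :
    -(51 / 500) < 1 * uu w 0 + (62 / 625) + (-227 / 1000) * w - (uu (99 / 100) 0 - uu (19 / 20) 0 - uu w 0) - (-1 / 10) := by
  have h : chkT [add (sub (sub (add (add (mul (q 1 1) (E.uu QQ.w (q 0 1))) (q 62 625)) (mul (q (-227) 1000) QQ.w)) (sub (sub (E.uu (q 99 100) (q 0 1)) (E.uu (q 19 20) (q 0 1))) (E.uu QQ.w (q 0 1)))) (q (-1) 10)) (q 51 500)] 30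
    8
    [NumI.V.of 10000 400 500] = true := by
    decide +kernel
  obtain ⟨f, hf, hp⟩ := chkT_sound h (xs := [w])
    (List.Forall₂.cons (NumI.V.of_mem (by norm_num) (le_trans (by norm_num) b1) (le_trans b2 (by norm_num))) List.Forall₂.nil)
  by_contra hc
  have hc := not_lt.1 hc
  simp only [List.mem_cons, List.not_mem_nil, or_false] at hf
  rcases hf with rfl
  · simp only [E.val, NumI.lkR, QQ.t, QQ.k, QQ.w] at hp
    push_cast at hp
    try simp only [zero_div, div_one] at hp hc
    first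
      | with_reducible exact absurd (sub_pos.1 hp) (not_lt.2 hc)
      | with_reducible exact absurd hp (not_lt.2 (add_le_of_le_neg hc))
      | linarith

theorem r_e_threeA_1_0_0 {w : ℝ} (b1 : 1600 / 10000 ≤ w) (b2 : w ≤ 2800 / 10000) :
    -(91 / 1000) < 1 * uu w 0 + (1289 / 5000) + (-553 / 500) * w - (uu (7 / 10 + w) 0 - uu (7 / 10) 0 - uu w 0) - (-9 / 40) := by
  have h : chkT [add (sub (sub (add (add (mul (q 1 1) (E.uu QQ.w (q 0 1))) (q 1289 5000)) (mul (q (-553) 500) QQ.w)) (sub (sub (E.uu (add (q 7 10) QQ.w) (q 0 1)) (E.uu (q 7 10) (q 0 1))) (E.uu QQ.w (q 0 1)))) (q (-9) 40)) (q 91 1000)] 30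
    142641152
    [NumI.V.of 10000 1600 2800] = true := by
    decide +kernel
  obtain ⟨f, hf, hp⟩ := chkT_sound h (xs := [w])
    (List.Forall₂.cons (NumI.V.of_mem (by norm_num) (le_trans (by norm_num) b1) (le_trans b2 (by norm_num))) List.Forall₂.nil)
  by_contra hc
  have hc := not_lt.1 hc
  simp only [List.mem_cons, List.not_mem_nil, or_false] at hf
  rcases hf with rfl
  · simp only [E.val, NumI.lkR, QQ.t, QQ.k, QQ.w] at hp
    push_cast at hp
    try simp only [zero_div, div_one] at hp hc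
    first
      | with_reducible exact absurd (sub_pos.1 hp) (not_lt.2 hc)
      | with_reducible exact absurd hp (not_lt.2 (add_le_of_le_neg hc))
      | linarith

theorem r_e_threeA_1_0_1 {w : ℝ} (b1 : 2800 / 10000 ≤ w) (b2 : w ≤ 3000 / 10000) :
    -(91 / 1000) < 1 * uu w 0 + (1289 / 5000) + (-553 / 500) * w - (uu (49 / 50) 0 - uu (7 / 10) 0 - uu w 0) - (-9 / 40) := by
  have h : chkT [add (sub (sub (add (add (mul (q 1 1) (E.uu QQ.w (q 0 1))) (q 1289 5000)) (mul (q (-553) 500) QQ.w)) (sub (sub (E.uu (q 49 50) (q 0 1)) (E.uu (q 7 10) (q 0 1))) (E.uu QQ.w (q 0 1)))) (q (-9) 40)) (q 91 1000)] 30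
    8
    [NumI.V.of 10000 2800 3000] = true := by
    decide +kernel
  obtain ⟨f, hf, hp⟩ := chkT_sound h (xs := [w])
    (List.Forall₂.cons (NumI.V.of_mem (by norm_num) (le_trans (by norm_num) b1) (le_trans b2 (by norm_num))) List.Forall₂.nil)
  by_contra hc
  have hc := not_lt.1 hc
  simp only [List.mem_cons, List.not_mem_nil, or_false] at hf
  rcases hf with rfl
  · simp only [E.val, NumI.lkR, QQ.t, QQ.k, QQ.w] at hp
    push_cast at hp
    try simp only [zero_div, div_one] at hp hc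
    first
      | with_reducible exact absurd (sub_pos.1 hp) (not_lt.2 hc)
      | with_reducible exact absurd hp (not_lt.2 (add_le_of_le_neg hc))
      | linarith

theorem r_e_threeK_0_0_0 {w : ℝ} (b1 : 0 / 10000 ≤ w) (b2 : w ≤ 100 / 10000) :
    -(17 / 100) < 1 * uu (1 / 100) 0 + (7 / 625) + (97 / 1000) * w - (uu (7 / 10 + w) 0 - uu (7 / 10) 0 - uu (1 / 100) 0) - (-9 / 40) := by
  have h : chkT [add (sub (sub (add (add (mul (q 1 1) (E.uu (q 1 100) (q 0 1))) (q 7 625)) (mul (q 97 1000) QQ.w)) (sub (sub (E.uu (add (q 7 10) QQ.w) (q 0 1)) (E.uu (q 7 10) (q 0 1))) (E.uu (q 1 100) (q 0 1)))) (q (-9) 40)) (q 17 100)] 30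
    8
    [NumI.V.of 10000 0 100] = true := by
    decide +kernel
  obtain ⟨f, hf, hp⟩ := chkT_sound h (xs := [w])
    (List.Forall₂.cons (NumI.V.of_mem (by norm_num) (le_trans (by norm_num) b1) (le_trans b2 (by norm_num))) List.Forall₂.nil)
  by_contra hc
  have hc := not_lt.1 hc
  simp only [List.mem_cons, List.not_mem_nil, or_false] at hf
  rcases hf with rfl
  · simp only [E.val, NumI.lkR, QQ.t, QQ.k, QQ.w] at hp
    push_cast at hp
    try simp only [zero_div, div_one] at hp hc
    first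
      | with_reducible exact absurd (sub_pos.1 hp) (not_lt.2 hc)
      | with_reducible exact absurd hp (not_lt.2 (add_le_of_le_neg hc))
      | linarith

theorem r_e_threeK_0_0_1 {w : ℝ} (b1 : 100 / 10000 ≤ w) (b2 : w ≤ 2800 / 10000) :
    -(17 / 100) < 1 * uu w 0 + (7 / 625) + (97 / 1000) * w - (uu (7 / 10 + w) 0 - uu (7 / 10) 0 - uu w 0) - (-9 / 40) := by
  have h : chkT [add (sub (sub (add (add (mul (q 1 1) (E.uu QQ.w (q 0 1))) (q 7 625)) (mul (q 97 1000) QQ.w)) (sub (sub (E.uu (add (q 7 10) QQ.w) (q 0 1)) (E.uu (q 7 10) (q 0 1))) (E.uu QQ.w (q 0 1)))) (q (-9) 40)) (q 17 100)] 30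
    36516167680
    [NumI.V.of 10000 100 2800] = true := by
    decide +kernel
  obtain ⟨f, hf, hp⟩ := chkT_sound h (xs := [w])
    (List.Forall₂.cons (NumI.V.of_mem (by norm_num) (le_trans (by norm_num) b1) (le_trans b2 (by norm_num))) List.Forall₂.nil)
  by_contra hc
  have hc := not_lt.1 hc
  simp only [List.mem_cons, List.not_mem_nil, or_false] at hf
  rcases hf with rfl
  · simp only [E.val, NumI.lkR, QQ.t, QQ.k, QQ.w] at hp
    push_cast at hp
    try simp only [zero_div, div_one] at hp hc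
    first
      | with_reducible exact absurd (sub_pos.1 hp) (not_lt.2 hc)
      | with_reducible exact absurd hp (not_lt.2 (add_le_of_le_neg hc))
      | linarith

theorem r_e_threeK_0_0_2 {w : ℝ} (b1 : 2800 / 10000 ≤ w) (b2 : w ≤ 3000 / 10000) :
    -(17 / 100) < 1 * uu w 0 + (7 / 625) + (97 / 1000) * w - (uu (49 / 50) 0 - uu (7 / 10) 0 - uu w 0) - (-9 / 40) := by
  have h : chkT [add (sub (sub (add (add (mul (q 1 1) (E.uu QQ.w (q 0 1))) (q 7 625)) (mul (q 97 1000) QQ.w)) (sub (sub (E.uu (q 49 50) (q 0 1)) (E.uu (q 7 10) (q 0 1))) (E.uu QQ.w (q 0 1)))) (q (-9) 40)) (q 17 100)] 30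
    8
    [NumI.V.of 10000 2800 3000] = true := by
    decide +kernel
  obtain ⟨f, hf, hp⟩ := chkT_sound h (xs := [w])
    (List.Forall₂.cons (NumI.V.of_mem (by norm_num) (le_trans (by norm_num) b1) (le_trans b2 (by norm_num))) List.Forall₂.nil)
  by_contra hc
  have hc := not_lt.1 hc
  simp only [List.mem_cons, List.not_mem_nil, or_false] at hf
  rcases hf with rfl
  · simp only [E.val, NumI.lkR, QQ.t, QQ.k, QQ.w] at hp
    push_cast at hp
    try simp only [zero_div, div_one] at hp hc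
    first
      | with_reducible exact absurd (sub_pos.1 hp) (not_lt.2 hc)
      | with_reducible exact absurd hp (not_lt.2 (add_le_of_le_neg hc))
      | linarith

theorem r_e_threeK_0_1_0 {w : ℝ} (b1 : 0 / 10000 ≤ w) (b2 : w ≤ 100 / 10000) :
    -(17 / 100) < 1 * uu (1 / 100) 0 + (7 / 625) + (97 / 1000) * w - (uu (19 / 20 + w) 0 - uu (19 / 20) 0 - uu (1 / 100) 0) - (-1 / 10) := by
  have h : chkT [add (sub (sub (add (add (mul (q 1 1) (E.uu (q 1 100) (q 0 1))) (q 7 625)) (mul (q 97 1000) QQ.w)) (sub (sub (E.uu (add (q 19 20) QQ.w) (q 0 1)) (E.uu (q 19 20) (q 0 1))) (E.uu (q 1 100) (q 0 1)))) (q (-1) 10)) (q 17 100)] 30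
    8
    [NumI.V.of 10000 0 100] = true := by
    decide +kernel
  obtain ⟨f, hf, hp⟩ := chkT_sound h (xs := [w])
    (List.Forall₂.cons (NumI.V.of_mem (by norm_num) (le_trans (by norm_num) b1) (le_trans b2 (by norm_num))) List.Forall₂.nil)
  by_contra hc
  have hc := not_lt.1 hc
  simp only [List.mem_cons, List.not_mem_nil, or_false] at hf
  rcases hf with rfl
  · simp only [E.val, NumI.lkR, QQ.t, QQ.k, QQ.w] at hp
    push_cast at hp
    try simp only [zero_div, div_one] at hp hc
    first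
      | with_reducible exact absurd (sub_pos.1 hp) (not_lt.2 hc)
      | with_reducible exact absurd hp (not_lt.2 (add_le_of_le_neg hc))
      | linarith

theorem r_e_threeK_0_1_1 {w : ℝ} (b1 : 100 / 10000 ≤ w) (b2 : w ≤ 400 / 10000) :
    -(17 / 100) < 1 * uu w 0 + (7 / 625) + (97 / 1000) * w - (uu (19 / 20 + w) 0 - uu (19 / 20) 0 - uu w 0) - (-1 / 10) := by
  have h : chkT [add (sub (sub (add (add (mul (q 1 1) (E.uu QQ.w (q 0 1))) (q 7 625)) (mul (q 97 1000) QQ.w)) (sub (sub (E.uu (add (q 19 20) QQ.w) (q 0 1)) (E.uu (q 19 20) (q 0 1))) (E.uu QQ.w (q 0 1)))) (q (-1) 10)) (q 17 100)] 30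
    8
    [NumI.V.of 10000 100 400] = true := by
    decide +kernel
  obtain ⟨f, hf, hp⟩ := chkT_sound h (xs := [w])
    (List.Forall₂.cons (NumI.V.of_mem (by norm_num) (le_trans (by norm_num) b1) (le_trans b2 (by norm_num))) List.Forall₂.nil)
  by_contra hc
  have hc := not_lt.1 hc
  simp only [List.mem_cons, List.not_mem_nil, or_false] at hf
  rcases hf with rfl
  · simp only [E.val, NumI.lkR, QQ.t, QQ.k, QQ.w] at hp
    push_cast at hp
    try simp only [zero_div, div_one] at hp hc
    first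
      | with_reducible exact absurd (sub_pos.1 hp) (not_lt.2 hc)
      | with_reducible exact absurd hp (not_lt.2 (add_le_of_le_neg hc))
      | linarith

theorem r_e_threeK_0_1_2 {w : ℝ} (b1 : 400 / 10000 ≤ w) (b2 : w ≤ 500 / 10000) :
    -(17 / 100) < 1 * uu w 0 + (7 / 625) + (97 / 1000) * w - (uu (99 / 100) 0 - uu (19 / 20) 0 - uu w 0) - (-1 / 10) := by
  have h : chkT [add (sub (sub (add (add (mul (q 1 1) (E.uu QQ.w (q 0 1))) (q 7 625)) (mul (q 97 1000) QQ.w)) (sub (sub (E.uu (q 99 100) (q 0 1)) (E.uu (q 19 20) (q 0 1))) (E.uu QQ.w (q 0 1)))) (q (-1) 10)) (q 17 100)] 30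
    8
    [NumI.V.of 10000 400 500] = true := by
    decide +kernel
  obtain ⟨f, hf, hp⟩ := chkT_sound h (xs := [w])
    (List.Forall₂.cons (NumI.V.of_mem (by norm_num) (le_trans (by norm_num) b1) (le_trans b2 (by norm_num))) List.Forall₂.nil)
  by_contra hc
  have hc := not_lt.1 hc
  simp only [List.mem_cons, List.not_mem_nil, or_false] at hf
  rcases hf with rfl
  · simp only [E.val, NumI.lkR, QQ.t, QQ.k, QQ.w] at hp
    push_cast at hp
    try simp only [zero_div, div_one] at hp hc
    first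
      | with_reducible exact absurd (sub_pos.1 hp) (not_lt.2 hc)
      | with_reducible exact absurd hp (not_lt.2 (add_le_of_le_neg hc))
      | linarith

theorem r_e_threeE_0_0_0 {w : ℝ} (b1 : 0 / 10000 ≤ w) (b2 : w ≤ 100 / 10000) :
    -(19 / 100) < 1 * uu (1 / 100) 0 + (269 / 2000) + (0 / 1) * w - (uu (7 / 10 + w) 0 - uu (7 / 10) 0 - uu (1 / 100) 0) - (-9 / 40) := by
  have h : chkT [add (sub (sub (add (add (mul (q 1 1) (E.uu (q 1 100) (q 0 1))) (q 269 2000)) (mul (q 0 1) QQ.w)) (sub (sub (E.uu (add (q 7 10) QQ.w) (q 0 1)) (E.uu (q 7 10) (q 0 1))) (E.uu (q 1 100) (q 0 1)))) (q (-9) 40)) (q 19 100)] 30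
    8
    [NumI.V.of 10000 0 100] = true := by
    decide +kernel
  obtain ⟨f, hf, hp⟩ := chkT_sound h (xs := [w])
    (List.Forall₂.cons (NumI.V.of_mem (by norm_num) (le_trans (by norm_num) b1) (le_trans b2 (by norm_num))) List.Forall₂.nil)
  by_contra hc
  have hc := not_lt.1 hc
  simp only [List.mem_cons, List.not_mem_nil, or_false] at hf
  rcases hf with rfl
  · simp only [E.val, NumI.lkR, QQ.t, QQ.k, QQ.w] at hp
    push_cast at hp
    try simp only [zero_div, div_one] at hp hc
    first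
      | with_reducible exact absurd (sub_pos.1 hp) (not_lt.2 hc)
      | with_reducible exact absurd hp (not_lt.2 (add_le_of_le_neg hc))
      | linarith

theorem r_e_threeE_0_0_1 {w : ℝ} (b1 : 100 / 10000 ≤ w) (b2 : w ≤ 2800 / 10000) :
    -(19 / 100) < 1 * uu w 0 + (269 / 2000) + (0 / 1) * w - (uu (7 / 10 + w) 0 - uu (7 / 10) 0 - uu w 0) - (-9 / 40) := by
  have h : chkT [add (sub (sub (add (add (mul (q 1 1) (E.uu QQ.w (q 0 1))) (q 269 2000)) (mul (q 0 1) QQ.w)) (sub (sub (E.uu (add (q 7 10) QQ.w) (q 0 1)) (E.uu (q 7 10) (q 0 1))) (E.uu QQ.w (q 0 1)))) (q (-9) 40)) (q 19 100)] 30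
    36516167680
    [NumI.V.of 10000 100 2800] = true := by
    decide +kernel
  obtain ⟨f, hf, hp⟩ := chkT_sound h (xs := [w])
    (List.Forall₂.cons (NumI.V.of_mem (by norm_num) (le_trans (by norm_num) b1) (le_trans b2 (by norm_num))) List.Forall₂.nil)
  by_contra hc
  have hc := not_lt.1 hc
  simp only [List.mem_cons, List.not_mem_nil, or_false] at hf
  rcases hf with rfl
  · simp only [E.val, NumI.lkR, QQ.t, QQ.k, QQ.w] at hp
    push_cast at hp
    try simp only [zero_div, div_one] at hp hc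
    first
      | with_reducible exact absurd (sub_pos.1 hp) (not_lt.2 hc)
      | with_reducible exact absurd hp (not_lt.2 (add_le_of_le_neg hc))
      | linarith

theorem r_e_threeE_0_0_2 {w : ℝ} (b1 : 2800 / 10000 ≤ w) (b2 : w ≤ 3000 / 10000) :
    -(19 / 100) < 1 * uu w 0 + (269 / 2000) + (0 / 1) * w - (uu (49 / 50) 0 - uu (7 / 10) 0 - uu w 0) - (-9 / 40) := by
  have h : chkT [add (sub (sub (add (add (mul (q 1 1) (E.uu QQ.w (q 0 1))) (q 269 2000)) (mul (q 0 1) QQ.w)) (sub (sub (E.uu (q 49 50) (q 0 1)) (E.uu (q 7 10) (q 0 1))) (E.uu QQ.w (q 0 1)))) (q (-9) 40)) (q 19 100)] 30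
    8
    [NumI.V.of 10000 2800 3000] = true := by
    decide +kernel
  obtain ⟨f, hf, hp⟩ := chkT_sound h (xs := [w])
    (List.Forall₂.cons (NumI.V.of_mem (by norm_num) (le_trans (by norm_num) b1) (le_trans b2 (by norm_num))) List.Forall₂.nil)
  by_contra hc
  have hc := not_lt.1 hc
  simp only [List.mem_cons, List.not_mem_nil, or_false] at hf
  rcases hf with rfl
  · simp only [E.val, NumI.lkR, QQ.t, QQ.k, QQ.w] at hp
    push_cast at hp
    try simp only [zero_div, div_one] at hp hc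
    first
      | with_reducible exact absurd (sub_pos.1 hp) (not_lt.2 hc)
      | with_reducible exact absurd hp (not_lt.2 (add_le_of_le_neg hc))
      | linarith

theorem r_e_threeE_0_1_0 {w : ℝ} (b1 : 0 / 10000 ≤ w) (b2 : w ≤ 100 / 10000) :
    -(19 / 100) < 1 * uu (1 / 100) 0 + (269 / 2000) + (0 / 1) * w - (uu (19 / 20 + w) 0 - uu (19 / 20) 0 - uu (1 / 100) 0) - (-1 / 10) := by
  have h : chkT [add (sub (sub (add (add (mul (q 1 1) (E.uu (q 1 100) (q 0 1))) (q 269 2000)) (mul (q 0 1) QQ.w)) (sub (sub (E.uu (add (q 19 20) QQ.w) (q 0 1)) (E.uu (q 19 20) (q 0 1))) (E.uu (q 1 100) (q 0 1)))) (q (-1) 10)) (q 19 100)] 30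
    8
    [NumI.V.of 10000 0 100] = true := by
    decide +kernel
  obtain ⟨f, hf, hp⟩ := chkT_sound h (xs := [w])
    (List.Forall₂.cons (NumI.V.of_mem (by norm_num) (le_trans (by norm_num) b1) (le_trans b2 (by norm_num))) List.Forall₂.nil)
  by_contra hc
  have hc := not_lt.1 hc
  simp only [List.mem_cons, List.not_mem_nil, or_false] at hf
  rcases hf with rfl
  · simp only [E.val, NumI.lkR, QQ.t, QQ.k, QQ.w] at hp
    push_cast at hp
    try simp only [zero_div, div_one] at hp hc
    first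
      | with_reducible exact absurd (sub_pos.1 hp) (not_lt.2 hc)
      | with_reducible exact absurd hp (not_lt.2 (add_le_of_le_neg hc))
      | linarith

theorem r_e_threeE_0_1_1 {w : ℝ} (b1 : 100 / 10000 ≤ w) (b2 : w ≤ 400 / 10000) :
    -(19 / 100) < 1 * uu w 0 + (269 / 2000) + (0 / 1) * w - (uu (19 / 20 + w) 0 - uu (19 / 20) 0 - uu w 0) - (-1 / 10) := by
  have h : chkT [add (sub (sub (add (add (mul (q 1 1) (E.uu QQ.w (q 0 1))) (q 269 2000)) (mul (q 0 1) QQ.w)) (sub (sub (E.uu (add (q 19 20) QQ.w) (q 0 1)) (E.uu (q 19 20) (q 0 1))) (E.uu QQ.w (q 0 1)))) (q (-1) 10)) (q 19 100)] 30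
    8
    [NumI.V.of 10000 100 400] = true := by
    decide +kernel
  obtain ⟨f, hf, hp⟩ := chkT_sound h (xs := [w])
    (List.Forall₂.cons (NumI.V.of_mem (by norm_num) (le_trans (by norm_num) b1) (le_trans b2 (by norm_num))) List.Forall₂.nil)
  by_contra hc
  have hc := not_lt.1 hc
  simp only [List.mem_cons, List.not_mem_nil, or_false] at hf
  rcases hf with rfl
  · simp only [E.val, NumI.lkR, QQ.t, QQ.k, QQ.w] at hp
    push_cast at hp
    try simp only [zero_div, div_one] at hp hc
    first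
      | with_reducible exact absurd (sub_pos.1 hp) (not_lt.2 hc)
      | with_reducible exact absurd hp (not_lt.2 (add_le_of_le_neg hc))
      | linarith

theorem r_e_threeE_0_1_2 {w : ℝ} (b1 : 400 / 10000 ≤ w) (b2 : w ≤ 500 / 10000) :
    -(19 / 100) < 1 * uu w 0 + (269 / 2000) + (0 / 1) * w - (uu (99 / 100) 0 - uu (19 / 20) 0 - uu w 0) - (-1 / 10) := by
  have h : chkT [add (sub (sub (add (add (mul (q 1 1) (E.uu QQ.w (q 0 1))) (q 269 2000)) (mul (q 0 1) QQ.w)) (sub (sub (E.uu (q 99 100) (q 0 1)) (E.uu (q 19 20) (q 0 1))) (E.uu QQ.w (q 0 1)))) (q (-1) 10)) (q 19 100)] 30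
    8
    [NumI.V.of 10000 400 500] = true := by
    decide +kernel
  obtain ⟨f, hf, hp⟩ := chkT_sound h (xs := [w])
    (List.Forall₂.cons (NumI.V.of_mem (by norm_num) (le_trans (by norm_num) b1) (le_trans b2 (by norm_num))) List.Forall₂.nil)
  by_contra hc
  have hc := not_lt.1 hc
  simp only [List.mem_cons, List.not_mem_nil, or_false] at hf
  rcases hf with rfl
  · simp only [E.val, NumI.lkR, QQ.t, QQ.k, QQ.w] at hp
    push_cast at hp
    try simp only [zero_div, div_one] at hp hc
    first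
      | with_reducible exact absurd (sub_pos.1 hp) (not_lt.2 hc)
      | with_reducible exact absurd hp (not_lt.2 (add_le_of_le_neg hc))
      | linarith

theorem r_e_ring_0_0_0 {w : ℝ} (b1 : 0 / 10000 ≤ w) (b2 : w ≤ 100 / 10000) :
    -(1 / 5) < 1 * uu (1 / 100) 0 + (-67 / 1250) + (543 / 1000) * w - (uu (7 / 10 + w) 0 - uu (7 / 10) 0 - uu (1 / 100) 0) - (-9 / 40) := by
  have h : chkT [add (sub (sub (add (add (mul (q 1 1) (E.uu (q 1 100) (q 0 1))) (q (-67) 1250)) (mul (q 543 1000) QQ.w)) (sub (sub (E.uu (add (q 7 10) QQ.w) (q 0 1)) (E.uu (q 7 10) (q 0 1))) (E.uu (q 1 100) (q 0 1)))) (q (-9) 40)) (q 1 5)] 30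
    8
    [NumI.V.of 10000 0 100] = true := by
    decide +kernel
  obtain ⟨f, hf, hp⟩ := chkT_sound h (xs := [w])
    (List.Forall₂.cons (NumI.V.of_mem (by norm_num) (le_trans (by norm_num) b1) (le_trans b2 (by norm_num))) List.Forall₂.nil)
  by_contra hc
  have hc := not_lt.1 hc
  simp only [List.mem_cons, List.not_mem_nil, or_false] at hf
  rcases hf with rfl
  · simp only [E.val, NumI.lkR, QQ.t, QQ.k, QQ.w] at hp
    push_cast at hp
    try simp only [zero_div, div_one] at hp hc
    first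
      | with_reducible exact absurd (sub_pos.1 hp) (not_lt.2 hc)
      | with_reducible exact absurd hp (not_lt.2 (add_le_of_le_neg hc))
      | linarith

theorem r_e_ring_0_0_1 {w : ℝ} (b1 : 100 / 10000 ≤ w) (b2 : w ≤ 1400 / 10000) :
    -(1 / 5) < 1 * uu w 0 + (-67 / 1250) + (543 / 1000) * w - (uu (7 / 10 + w) 0 - uu (7 / 10) 0 - uu w 0) - (-9 / 40) := by
  have h : chkT [add (sub (sub (add (add (mul (q 1 1) (E.uu QQ.w (q 0 1))) (q (-67) 1250)) (mul (q 543 1000) QQ.w)) (sub (sub (E.uu (add (q 7 10) QQ.w) (q 0 1)) (E.uu (q 7 10) (q 0 1))) (E.uu QQ.w (q 0 1)))) (q (-9) 40)) (q 1 5)] 30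
    559104
    [NumI.V.of 10000 100 1400] = true := by
    decide +kernel
  obtain ⟨f, hf, hp⟩ := chkT_sound h (xs := [w])
    (List.Forall₂.cons (NumI.V.of_mem (by norm_num) (le_trans (by norm_num) b1) (le_trans b2 (by norm_num))) List.Forall₂.nil)
  by_contra hc
  have hc := not_lt.1 hc
  simp only [List.mem_cons, List.not_mem_nil, or_false] at hf
  rcases hf with rfl
  · simp only [E.val, NumI.lkR, QQ.t, QQ.k, QQ.w] at hp
    push_cast at hp
    try simp only [zero_div, div_one] at hp hc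
    first
      | with_reducible exact absurd (sub_pos.1 hp) (not_lt.2 hc)
      | with_reducible exact absurd hp (not_lt.2 (add_le_of_le_neg hc))
      | linarith

theorem r_e_ring_0_1_0 {w : ℝ} (b1 : 0 / 10000 ≤ w) (b2 : w ≤ 100 / 10000) :
    -(1 / 5) < 1 * uu (1 / 100) 0 + (-67 / 1250) + (543 / 1000) * w - (uu (19 / 20 + w) 0 - uu (19 / 20) 0 - uu (1 / 100) 0) - (-1 / 10) := by
  have h : chkT [add (sub (sub (add (add (mul (q 1 1) (E.uu (q 1 100) (q 0 1))) (q (-67) 1250)) (mul (q 543 1000) QQ.w)) (sub (sub (E.uu (add (q 19 20) QQ.w) (q 0 1)) (E.uu (q 19 20) (q 0 1))) (E.uu (q 1 100) (q 0 1)))) (q (-1) 10)) (q 1 5)] 30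
    8
    [NumI.V.of 10000 0 100] = true := by
    decide +kernel
  obtain ⟨f, hf, hp⟩ := chkT_sound h (xs := [w])
    (List.Forall₂.cons (NumI.V.of_mem (by norm_num) (le_trans (by norm_num) b1) (le_trans b2 (by norm_num))) List.Forall₂.nil)
  by_contra hc
  have hc := not_lt.1 hc
  simp only [List.mem_cons, List.not_mem_nil, or_false] at hf
  rcases hf with rfl
  · simp only [E.val, NumI.lkR, QQ.t, QQ.k, QQ.w] at hp
    push_cast at hp
    try simp only [zero_div, div_one] at hp hc
    first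
      | with_reducible exact absurd (sub_pos.1 hp) (not_lt.2 hc)
      | with_reducible exact absurd hp (not_lt.2 (add_le_of_le_neg hc))
      | linarith

theorem r_e_ring_0_1_1 {w : ℝ} (b1 : 100 / 10000 ≤ w) (b2 : w ≤ 400 / 10000) :
    -(1 / 5) < 1 * uu w 0 + (-67 / 1250) + (543 / 1000) * w - (uu (19 / 20 + w) 0 - uu (19 / 20) 0 - uu w 0) - (-1 / 10) := by
  have h : chkT [add (sub (sub (add (add (mul (q 1 1) (E.uu QQ.w (q 0 1))) (q (-67) 1250)) (mul (q 543 1000) QQ.w)) (sub (sub (E.uu (add (q 19 20) QQ.w) (q 0 1)) (E.uu (q 19 20) (q 0 1))) (E.uu QQ.w (q 0 1)))) (q (-1) 10)) (q 1 5)] 30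
    8
    [NumI.V.of 10000 100 400] = true := by
    decide +kernel
  obtain ⟨f, hf, hp⟩ := chkT_sound h (xs := [w])
    (List.Forall₂.cons (NumI.V.of_mem (by norm_num) (le_trans (by norm_num) b1) (le_trans b2 (by norm_num))) List.Forall₂.nil)
  by_contra hc
  have hc := not_lt.1 hc
  simp only [List.mem_cons, List.not_mem_nil, or_false] at hf
  rcases hf with rfl
  · simp only [E.val, NumI.lkR, QQ.t, QQ.k, QQ.w] at hp
    push_cast at hp
    try simp only [zero_div, div_one] at hp hc
    first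
      | with_reducible exact absurd (sub_pos.1 hp) (not_lt.2 hc)
      | with_reducible exact absurd hp (not_lt.2 (add_le_of_le_neg hc))
      | linarith

theorem r_e_ring_0_1_2 {w : ℝ} (b1 : 400 / 10000 ≤ w) (b2 : w ≤ 500 / 10000) :
    -(1 / 5) < 1 * uu w 0 + (-67 / 1250) + (543 / 1000) * w - (uu (99 / 100) 0 - uu (19 / 20) 0 - uu w 0) - (-1 / 10) := by
  have h : chkT [add (sub (sub (add (add (mul (q 1 1) (E.uu QQ.w (q 0 1))) (q (-67) 1250)) (mul (q 543 1000) QQ.w)) (sub (sub (E.uu (q 99 100) (q 0 1)) (E.uu (q 19 20) (q 0 1))) (E.uu QQ.w (q 0 1)))) (q (-1) 10)) (q 1 5)] 30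
    8
    [NumI.V.of 10000 400 500] = true := by
    decide +kernel
  obtain ⟨f, hf, hp⟩ := chkT_sound h (xs := [w])
    (List.Forall₂.cons (NumI.V.of_mem (by norm_num) (le_trans (by norm_num) b1) (le_trans b2 (by norm_num))) List.Forall₂.nil)
  by_contra hc
  have hc := not_lt.1 hc
  simp only [List.mem_cons, List.not_mem_nil, or_false] at hf
  rcases hf with rfl
  · simp only [E.val, NumI.lkR, QQ.t, QQ.k, QQ.w] at hp
    push_cast at hp
    try simp only [zero_div, div_one] at hp hc
    first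
      | with_reducible exact absurd (sub_pos.1 hp) (not_lt.2 hc)
      | with_reducible exact absurd hp (not_lt.2 (add_le_of_le_neg hc))
      | linarith

theorem r_e_ring_1_0_0 {w : ℝ} (b1 : 1400 / 10000 ≤ w) (b2 : w ≤ 2800 / 10000) :
    -(41 / 250) < 1 * uu w 0 + (1291 / 10000) + (-18 / 25) * w - (uu (7 / 10 + w) 0 - uu (7 / 10) 0 - uu w 0) - (-9 / 40) := by
  have h : chkT [add (sub (sub (add (add (mul (q 1 1) (E.uu QQ.w (q 0 1))) (q 1291 10000)) (mul (q (-18) 25) QQ.w)) (sub (sub (E.uu (add (q 7 10) QQ.w) (q 0 1)) (E.uu (q 7 10) (q 0 1))) (E.uu QQ.w (q 0 1)))) (q (-9) 40)) (q 41 250)] 30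
    557184
    [NumI.V.of 10000 1400 2800] = true := by
    decide +kernel
  obtain ⟨f, hf, hp⟩ := chkT_sound h (xs := [w])
    (List.Forall₂.cons (NumI.V.of_mem (by norm_num) (le_trans (by norm_num) b1) (le_trans b2 (by norm_num))) List.Forall₂.nil)
  by_contra hc
  have hc := not_lt.1 hc
  simp only [List.mem_cons, List.not_mem_nil, or_false] at hf
  rcases hf with rfl
  · simp only [E.val, NumI.lkR, QQ.t, QQ.k, QQ.w] at hp
    push_cast at hp
    try simp only [zero_div, div_one] at hp hc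
    first
      | with_reducible exact absurd (sub_pos.1 hp) (not_lt.2 hc)
      | with_reducible exact absurd hp (not_lt.2 (add_le_of_le_neg hc))
      | linarith

theorem r_e_ring_1_0_1 {w : ℝ} (b1 : 2800 / 10000 ≤ w) (b2 : w ≤ 3000 / 10000) :
    -(41 / 250) < 1 * uu w 0 + (1291 / 10000) + (-18 / 25) * w - (uu (49 / 50) 0 - uu (7 / 10) 0 - uu w 0) - (-9 / 40) := by
  have h : chkT [add (sub (sub (add (add (mul (q 1 1) (E.uu QQ.w (q 0 1))) (q 1291 10000)) (mul (q (-18) 25) QQ.w)) (sub (sub (E.uu (q 49 50) (q 0 1)) (E.uu (q 7 10) (q 0 1))) (E.uu QQ.w (q 0 1)))) (q (-9) 40)) (q 41 250)] 30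
    8
    [NumI.V.of 10000 2800 3000] = true := by
    decide +kernel
  obtain ⟨f, hf, hp⟩ := chkT_sound h (xs := [w])
    (List.Forall₂.cons (NumI.V.of_mem (by norm_num) (le_trans (by norm_num) b1) (le_trans b2 (by norm_num))) List.Forall₂.nil)
  by_contra hc
  have hc := not_lt.1 hc
  simp only [List.mem_cons, List.not_mem_nil, or_false] at hf
  rcases hf with rfl
  · simp only [E.val, NumI.lkR, QQ.t, QQ.k, QQ.w] at hp
    push_cast at hp
    try simp only [zero_div, div_one] at hp hc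
    first
      | with_reducible exact absurd (sub_pos.1 hp) (not_lt.2 hc)
      | with_reducible exact absurd hp (not_lt.2 (add_le_of_le_neg hc))
      | linarith

theorem r_e_touched_0_0_0 {w : ℝ} (b1 : 0 / 10000 ≤ w) (b2 : w ≤ 100 / 10000) :
    -(6 / 25) < 0 * uu (1 / 100) 0 + (0 / 1) + (0 / 1) * w - (uu (7 / 10 + w) 0 - uu (7 / 10) 0 - uu (1 / 100) 0) - (-9 / 40) := by
  have h : chkT [add (sub (sub (add (add (mul (q 0 1) (E.uu (q 1 100) (q 0 1))) (q 0 1)) (mul (q 0 1) QQ.w)) (sub (sub (E.uu (add (q 7 10) QQ.w) (q 0 1)) (E.uu (q 7 10) (q 0 1))) (E.uu (q 1 100) (q 0 1)))) (q (-9) 40)) (q 6 25)] 30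
    8
    [NumI.V.of 10000 0 100] = true := by
    decide +kernel
  obtain ⟨f, hf, hp⟩ := chkT_sound h (xs := [w])
    (List.Forall₂.cons (NumI.V.of_mem (by norm_num) (le_trans (by norm_num) b1) (le_trans b2 (by norm_num))) List.Forall₂.nil)
  by_contra hc
  have hc := not_lt.1 hc
  simp only [List.mem_cons, List.not_mem_nil, or_false] at hf
  rcases hf with rfl
  · simp only [E.val, NumI.lkR, QQ.t, QQ.k, QQ.w] at hp
    push_cast at hp
    try simp only [zero_div, div_one] at hp hc
    first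
      | with_reducible exact absurd (sub_pos.1 hp) (not_lt.2 hc)
      | with_reducible exact absurd hp (not_lt.2 (add_le_of_le_neg hc))
      | linarith

theorem r_e_touched_0_0_1 {w : ℝ} (b1 : 100 / 10000 ≤ w) (b2 : w ≤ 2800 / 10000) :
    -(6 / 25) < 0 * uu w 0 + (0 / 1) + (0 / 1) * w - (uu (7 / 10 + w) 0 - uu (7 / 10) 0 - uu w 0) - (-9 / 40) := by
  have h : chkT [add (sub (sub (add (add (mul (q 0 1) (E.uu QQ.w (q 0 1))) (q 0 1)) (mul (q 0 1) QQ.w)) (sub (sub (E.uu (add (q 7 10) QQ.w) (q 0 1)) (E.uu (q 7 10) (q 0 1))) (E.uu QQ.w (q 0 1)))) (q (-9) 40)) (q 6 25)] 30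
    36516167680
    [NumI.V.of 10000 100 2800] = true := by
    decide +kernel
  obtain ⟨f, hf, hp⟩ := chkT_sound h (xs := [w])
    (List.Forall₂.cons (NumI.V.of_mem (by norm_num) (le_trans (by norm_num) b1) (le_trans b2 (by norm_num))) List.Forall₂.nil)
  by_contra hc
  have hc := not_lt.1 hc
  simp only [List.mem_cons, List.not_mem_nil, or_false] at hf
  rcases hf with rfl
  · simp only [E.val, NumI.lkR, QQ.t, QQ.k, QQ.w] at hp
    push_cast at hp
    try simp only [zero_div, div_one] at hp hc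
    first
      | with_reducible exact absurd (sub_pos.1 hp) (not_lt.2 hc)
      | with_reducible exact absurd hp (not_lt.2 (add_le_of_le_neg hc))
      | linarith

theorem r_e_touched_0_0_2 {w : ℝ} (b1 : 2800 / 10000 ≤ w) (b2 : w ≤ 3000 / 10000) :
    -(6 / 25) < 0 * uu w 0 + (0 / 1) + (0 / 1) * w - (uu (49 / 50) 0 - uu (7 / 10) 0 - uu w 0) - (-9 / 40) := by
  have h : chkT [add (sub (sub (add (add (mul (q 0 1) (E.uu QQ.w (q 0 1))) (q 0 1)) (mul (q 0 1) QQ.w)) (sub (sub (E.uu (q 49 50) (q 0 1)) (E.uu (q 7 10) (q 0 1))) (E.uu QQ.w (q 0 1)))) (q (-9) 40)) (q 6 25)] 30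
    8
    [NumI.V.of 10000 2800 3000] = true := by
    decide +kernel
  obtain ⟨f, hf, hp⟩ := chkT_sound h (xs := [w])
    (List.Forall₂.cons (NumI.V.of_mem (by norm_num) (le_trans (by norm_num) b1) (le_trans b2 (by norm_num))) List.Forall₂.nil)
  by_contra hc
  have hc := not_lt.1 hc
  simp only [List.mem_cons, List.not_mem_nil, or_false] at hf
  rcases hf with rfl
  · simp only [E.val, NumI.lkR, QQ.t, QQ.k, QQ.w] at hp
    push_cast at hp
    try simp only [zero_div, div_one] at hp hc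
    first
      | with_reducible exact absurd (sub_pos.1 hp) (not_lt.2 hc)
      | with_reducible exact absurd hp (not_lt.2 (add_le_of_le_neg hc))
      | linarith

theorem r_e_touched_0_1_0 {w : ℝ} (b1 : 0 / 10000 ≤ w) (b2 : w ≤ 100 / 10000) :
    -(6 / 25) < 0 * uu (1 / 100) 0 + (0 / 1) + (0 / 1) * w - (uu (19 / 20 + w) 0 - uu (19 / 20) 0 - uu (1 / 100) 0) - (-1 / 10) := by
  have h : chkT [add (sub (sub (add (add (mul (q 0 1) (E.uu (q 1 100) (q 0 1))) (q 0 1)) (mul (q 0 1) QQ.w)) (sub (sub (E.uu (add (q 19 20) QQ.w) (q 0 1)) (E.uu (q 19 20) (q 0 1))) (E.uu (q 1 100) (q 0 1)))) (q (-1) 10)) (q 6 25)] 30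
    8
    [NumI.V.of 10000 0 100] = true := by
    decide +kernel
  obtain ⟨f, hf, hp⟩ := chkT_sound h (xs := [w])
    (List.Forall₂.cons (NumI.V.of_mem (by norm_num) (le_trans (by norm_num) b1) (le_trans b2 (by norm_num))) List.Forall₂.nil)
  by_contra hc
  have hc := not_lt.1 hc
  simp only [List.mem_cons, List.not_mem_nil, or_false] at hf
  rcases hf with rfl
  · simp only [E.val, NumI.lkR, QQ.t, QQ.k, QQ.w] at hp
    push_cast at hp
    try simp only [zero_div, div_one] at hp hc
    first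
      | with_reducible exact absurd (sub_pos.1 hp) (not_lt.2 hc)
      | with_reducible exact absurd hp (not_lt.2 (add_le_of_le_neg hc))
      | linarith

theorem r_e_touched_0_1_1 {w : ℝ} (b1 : 100 / 10000 ≤ w) (b2 : w ≤ 400 / 10000) :
    -(6 / 25) < 0 * uu w 0 + (0 / 1) + (0 / 1) * w - (uu (19 / 20 + w) 0 - uu (19 / 20) 0 - uu w 0) - (-1 / 10) := by
  have h : chkT [add (sub (sub (add (add (mul (q 0 1) (E.uu QQ.w (q 0 1))) (q 0 1)) (mul (q 0 1) QQ.w)) (sub (sub (E.uu (add (q 19 20) QQ.w) (q 0 1)) (E.uu (q 19 20) (q 0 1))) (E.uu QQ.w (q 0 1)))) (q (-1) 10)) (q 6 25)] 30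
    8
    [NumI.V.of 10000 100 400] = true := by
    decide +kernel
  obtain ⟨f, hf, hp⟩ := chkT_sound h (xs := [w])
    (List.Forall₂.cons (NumI.V.of_mem (by norm_num) (le_trans (by norm_num) b1) (le_trans b2 (by norm_num))) List.Forall₂.nil)
  by_contra hc
  have hc := not_lt.1 hc
  simp only [List.mem_cons, List.not_mem_nil, or_false] at hf
  rcases hf with rfl
  · simp only [E.val, NumI.lkR, QQ.t, QQ.k, QQ.w] at hp
    push_cast at hp
    try simp only [zero_div, div_one] at hp hc
    first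
      | with_reducible exact absurd (sub_pos.1 hp) (not_lt.2 hc)
      | with_reducible exact absurd hp (not_lt.2 (add_le_of_le_neg hc))
      | linarith

theorem r_e_touched_0_1_2 {w : ℝ} (b1 : 400 / 10000 ≤ w) (b2 : w ≤ 500 / 10000) :
    -(6 / 25) < 0 * uu w 0 + (0 / 1) + (0 / 1) * w - (uu (99 / 100) 0 - uu (19 / 20) 0 - uu w 0) - (-1 / 10) := by
  have h : chkT [add (sub (sub (add (add (mul (q 0 1) (E.uu QQ.w (q 0 1))) (q 0 1)) (mul (q 0 1) QQ.w)) (sub (sub (E.uu (q 99 100) (q 0 1)) (E.uu (q 19 20) (q 0 1))) (E.uu QQ.w (q 0 1)))) (q (-1) 10)) (q 6 25)] 30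
    8
    [NumI.V.of 10000 400 500] = true := by
    decide +kernel
  obtain ⟨f, hf, hp⟩ := chkT_sound h (xs := [w])
    (List.Forall₂.cons (NumI.V.of_mem (by norm_num) (le_trans (by norm_num) b1) (le_trans b2 (by norm_num))) List.Forall₂.nil)
  by_contra hc
  have hc := not_lt.1 hc
  simp only [List.mem_cons, List.not_mem_nil, or_false] at hf
  rcases hf with rfl
  · simp only [E.val, NumI.lkR, QQ.t, QQ.k, QQ.w] at hp
    push_cast at hp
    try simp only [zero_div, div_one] at hp hc
    first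
      | with_reducible exact absurd (sub_pos.1 hp) (not_lt.2 hc)
      | with_reducible exact absurd hp (not_lt.2 (add_le_of_le_neg hc))
      | linarith

theorem r_h_one_0_0_0 {w : ℝ} (b1 : 0 / 10000 ≤ w) (b2 : w ≤ 100 / 10000) :
    -(153 / 1000) < 0 * uu (1 / 100) 0 + (-11 / 1000) + (0 / 1) * w - (uu (3 / 5 + w) 0 - uu (3 / 5) 0 - uu (1 / 100) 0) - (-3 / 20) := by
  have h : chkT [add (sub (sub (add (add (mul (q 0 1) (E.uu (q 1 100) (q 0 1))) (q (-11) 1000)) (mul (q 0 1) QQ.w)) (sub (sub (E.uu (add (q 3 5) QQ.w) (q 0 1)) (E.uu (q 3 5) (q 0 1))) (E.uu (q 1 100) (q 0 1)))) (q (-3) 20)) (q 153 1000)] 30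
    8
    [NumI.V.of 10000 0 100] = true := by
    decide +kernel
  obtain ⟨f, hf, hp⟩ := chkT_sound h (xs := [w])
    (List.Forall₂.cons (NumI.V.of_mem (by norm_num) (le_trans (by norm_num) b1) (le_trans b2 (by norm_num))) List.Forall₂.nil)
  by_contra hc
  have hc := not_lt.1 hc
  simp only [List.mem_cons, List.not_mem_nil, or_false] at hf
  rcases hf with rfl
  · simp only [E.val, NumI.lkR, QQ.t, QQ.k, QQ.w] at hp
    push_cast at hp
    try simp only [zero_div, div_one] at hp hc
    first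
      | with_reducible exact absurd (sub_pos.1 hp) (not_lt.2 hc)
      | with_reducible exact absurd hp (not_lt.2 (add_le_of_le_neg hc))
      | linarith

theorem r_h_one_0_0_1 {w : ℝ} (b1 : 100 / 10000 ≤ w) (b2 : w ≤ 1800 / 10000) :
    -(153 / 1000) < 0 * uu w 0 + (-11 / 1000) + (0 / 1) * w - (uu (3 / 5 + w) 0 - uu (3 / 5) 0 - uu w 0) - (-3 / 20) := by
  have h : chkT [add (sub (sub (add (add (mul (q 0 1) (E.uu QQ.w (q 0 1))) (q (-11) 1000)) (mul (q 0 1) QQ.w)) (sub (sub (E.uu (add (q 3 5) QQ.w) (q 0 1)) (E.uu (q 3 5) (q 0 1))) (E.uu QQ.w (q 0 1)))) (q (-3) 20)) (q 153 1000)] 30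
    559104
    [NumI.V.of 10000 100 1800] = true := by
    decide +kernel
  obtain ⟨f, hf, hp⟩ := chkT_sound h (xs := [w])
    (List.Forall₂.cons (NumI.V.of_mem (by norm_num) (le_trans (by norm_num) b1) (le_trans b2 (by norm_num))) List.Forall₂.nil)
  by_contra hc
  have hc := not_lt.1 hc
  simp only [List.mem_cons, List.not_mem_nil, or_false] at hf
  rcases hf with rfl
  · simp only [E.val, NumI.lkR, QQ.t, QQ.k, QQ.w] at hp
    push_cast at hp
    try simp only [zero_div, div_one] at hp hc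
    first
      | with_reducible exact absurd (sub_pos.1 hp) (not_lt.2 hc)
      | with_reducible exact absurd hp (not_lt.2 (add_le_of_le_neg hc))
      | linarith

theorem r_h_one_1_0_0 {w : ℝ} (b1 : 0 / 10000 ≤ w) (b2 : w ≤ 100 / 10000) :
    -(24 / 125) < 1 * uu (1 / 100) 0 + (-163 / 5000) + (779 / 1000) * w - (uu (3 / 5 + w) 0 - uu (3 / 5) 0 - uu (1 / 100) 0) - (-3 / 20) := by
  have h : chkT [add (sub (sub (add (add (mul (q 1 1) (E.uu (q 1 100) (q 0 1))) (q (-163) 5000)) (mul (q 779 1000) QQ.w)) (sub (sub (E.uu (add (q 3 5) QQ.w) (q 0 1)) (E.uu (q 3 5) (q 0 1))) (E.uu (q 1 100) (q 0 1)))) (q (-3) 20)) (q 24 125)] 30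
    8
    [NumI.V.of 10000 0 100] = true := by
    decide +kernel
  obtain ⟨f, hf, hp⟩ := chkT_sound h (xs := [w])
    (List.Forall₂.cons (NumI.V.of_mem (by norm_num) (le_trans (by norm_num) b1) (le_trans b2 (by norm_num))) List.Forall₂.nil)
  by_contra hc
  have hc := not_lt.1 hc
  simp only [List.mem_cons, List.not_mem_nil, or_false] at hf
  rcases hf with rfl
  · simp only [E.val, NumI.lkR, QQ.t, QQ.k, QQ.w] at hp
    push_cast at hp
    try simp only [zero_div, div_one] at hp hc
    first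
      | with_reducible exact absurd (sub_pos.1 hp) (not_lt.2 hc)
      | with_reducible exact absurd hp (not_lt.2 (add_le_of_le_neg hc))
      | linarith

theorem r_h_one_1_0_1 {w : ℝ} (b1 : 100 / 10000 ≤ w) (b2 : w ≤ 1800 / 10000) :
    -(24 / 125) < 1 * uu w 0 + (-163 / 5000) + (779 / 1000) * w - (uu (3 / 5 + w) 0 - uu (3 / 5) 0 - uu w 0) - (-3 / 20) := by
  have h : chkT [add (sub (sub (add (add (mul (q 1 1) (E.uu QQ.w (q 0 1))) (q (-163) 5000)) (mul (q 779 1000) QQ.w)) (sub (sub (E.uu (add (q 3 5) QQ.w) (q 0 1)) (E.uu (q 3 5) (q 0 1))) (E.uu QQ.w (q 0 1)))) (q (-3) 20)) (q 24 125)] 30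
    143163392
    [NumI.V.of 10000 100 1800] = true := by
    decide +kernel
  obtain ⟨f, hf, hp⟩ := chkT_sound h (xs := [w])
    (List.Forall₂.cons (NumI.V.of_mem (by norm_num) (le_trans (by norm_num) b1) (le_trans b2 (by norm_num))) List.Forall₂.nil)
  by_contra hc
  have hc := not_lt.1 hc
  simp only [List.mem_cons, List.not_mem_nil, or_false] at hf
  rcases hf with rfl
  · simp only [E.val, NumI.lkR, QQ.t, QQ.k, QQ.w] at hp
    push_cast at hp
    try simp only [zero_div, div_one] at hp hc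
    first
      | with_reducible exact absurd (sub_pos.1 hp) (not_lt.2 hc)
      | with_reducible exact absurd hp (not_lt.2 (add_le_of_le_neg hc))
      | linarith

theorem r_h_one_2_0_0 {w : ℝ} (b1 : 1800 / 10000 ≤ w) (b2 : w ≤ 3800 / 10000) :
    -(43 / 200) < 1 * uu w 0 + (164 / 625) + (-921 / 1000) * w - (uu (3 / 5 + w) 0 - uu (3 / 5) 0 - uu w 0) - (-3 / 20) := by
  have h : chkT [add (sub (sub (add (add (mul (q 1 1) (E.uu QQ.w (q 0 1))) (q 164 625)) (mul (q (-921) 1000) QQ.w)) (sub (sub (E.uu (add (q 3 5) QQ.w) (q 0 1)) (E.uu (q 3 5) (q 0 1))) (E.uu QQ.w (q 0 1)))) (q (-3) 20)) (q 43 200)] 30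
    142641152
    [NumI.V.of 10000 1800 3800] = true := by
    decide +kernel
  obtain ⟨f, hf, hp⟩ := chkT_sound h (xs := [w])
    (List.Forall₂.cons (NumI.V.of_mem (by norm_num) (le_trans (by norm_num) b1) (le_trans b2 (by norm_num))) List.Forall₂.nil)
  by_contra hc
  have hc := not_lt.1 hc
  simp only [List.mem_cons, List.not_mem_nil, or_false] at hf
  rcases hf with rfl
  · simp only [E.val, NumI.lkR, QQ.t, QQ.k, QQ.w] at hp
    push_cast at hp
    try simp only [zero_div, div_one] at hp hc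
    first
      | with_reducible exact absurd (sub_pos.1 hp) (not_lt.2 hc)
      | with_reducible exact absurd hp (not_lt.2 (add_le_of_le_neg hc))
      | linarith

theorem r_h_one_2_0_1 {w : ℝ} (b1 : 3800 / 10000 ≤ w) (b2 : w ≤ 4000 / 10000) :
    -(43 / 200) < 1 * uu w 0 + (164 / 625) + (-921 / 1000) * w - (uu (49 / 50) 0 - uu (3 / 5) 0 - uu w 0) - (-3 / 20) := by
  have h : chkT [add (sub (sub (add (add (mul (q 1 1) (E.uu QQ.w (q 0 1))) (q 164 625)) (mul (q (-921) 1000) QQ.w)) (sub (sub (E.uu (q 49 50) (q 0 1)) (E.uu (q 3 5) (q 0 1))) (E.uu QQ.w (q 0 1)))) (q (-3) 20)) (q 43 200)] 30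
    8
    [NumI.V.of 10000 3800 4000] = true := by
    decide +kernel
  obtain ⟨f, hf, hp⟩ := chkT_sound h (xs := [w])
    (List.Forall₂.cons (NumI.V.of_mem (by norm_num) (le_trans (by norm_num) b1) (le_trans b2 (by norm_num))) List.Forall₂.nil)
  by_contra hc
  have hc := not_lt.1 hc
  simp only [List.mem_cons, List.not_mem_nil, or_false] at hf
  rcases hf with rfl
  · simp only [E.val, NumI.lkR, QQ.t, QQ.k, QQ.w] at hp
    push_cast at hp
    try simp only [zero_div, div_one] at hp hc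
    first
      | with_reducible exact absurd (sub_pos.1 hp) (not_lt.2 hc)
      | with_reducible exact absurd hp (not_lt.2 (add_le_of_le_neg hc))
      | linarith

theorem r_h_one_3_0_0 {w : ℝ} (b1 : 1800 / 10000 ≤ w) (b2 : w ≤ 3800 / 10000) :
    -(43 / 200) < 1 * uu w 0 + (1451 / 5000) + (-1021 / 1000) * w - (uu (3 / 5 + w) 0 - uu (3 / 5) 0 - uu w 0) - (-3 / 20) := by
  have h : chkT [add (sub (sub (add (add (mul (q 1 1) (E.uu QQ.w (q 0 1))) (q 1451 5000)) (mul (q (-1021) 1000) QQ.w)) (sub (sub (E.uu (add (q 3 5) QQ.w) (q 0 1)) (E.uu (q 3 5) (q 0 1))) (E.uu QQ.w (q 0 1)))) (q (-3) 20)) (q 43 200)] 30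
    142641152
    [NumI.V.of 10000 1800 3800] = true := by
    decide +kernel
  obtain ⟨f, hf, hp⟩ := chkT_sound h (xs := [w])
    (List.Forall₂.cons (NumI.V.of_mem (by norm_num) (le_trans (by norm_num) b1) (le_trans b2 (by norm_num))) List.Forall₂.nil)
  by_contra hc
  have hc := not_lt.1 hc
  simp only [List.mem_cons, List.not_mem_nil, or_false] at hf
  rcases hf with rfl
  · simp only [E.val, NumI.lkR, QQ.t, QQ.k, QQ.w] at hp
    push_cast at hp
    try simp only [zero_div, div_one] at hp hc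
    first
      | with_reducible exact absurd (sub_pos.1 hp) (not_lt.2 hc)
      | with_reducible exact absurd hp (not_lt.2 (add_le_of_le_neg hc))
      | linarith

theorem r_h_one_3_0_1 {w : ℝ} (b1 : 3800 / 10000 ≤ w) (b2 : w ≤ 4000 / 10000) :
    -(43 / 200) < 1 * uu w 0 + (1451 / 5000) + (-1021 / 1000) * w - (uu (49 / 50) 0 - uu (3 / 5) 0 - uu w 0) - (-3 / 20) := by
  have h : chkT [add (sub (sub (add (add (mul (q 1 1) (E.uu QQ.w (q 0 1))) (q 1451 5000)) (mul (q (-1021) 1000) QQ.w)) (sub (sub (E.uu (q 49 50) (q 0 1)) (E.uu (q 3 5) (q 0 1))) (E.uu QQ.w (q 0 1)))) (q (-3) 20)) (q 43 200)] 30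
    8
    [NumI.V.of 10000 3800 4000] = true := by
    decide +kernel
  obtain ⟨f, hf, hp⟩ := chkT_sound h (xs := [w])
    (List.Forall₂.cons (NumI.V.of_mem (by norm_num) (le_trans (by norm_num) b1) (le_trans b2 (by norm_num))) List.Forall₂.nil)
  by_contra hc
  have hc := not_lt.1 hc
  simp only [List.mem_cons, List.not_mem_nil, or_false] at hf
  rcases hf with rfl
  · simp only [E.val, NumI.lkR, QQ.t, QQ.k, QQ.w] at hp
    push_cast at hp
    try simp only [zero_div, div_one] at hp hc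
    first
      | with_reducible exact absurd (sub_pos.1 hp) (not_lt.2 hc)
      | with_reducible exact absurd hp (not_lt.2 (add_le_of_le_neg hc))
      | linarith

theorem r_h_two_0_0_0 {w : ℝ} (b1 : 0 / 10000 ≤ w) (b2 : w ≤ 100 / 10000) :
    -(223 / 1000) < 1 * uu (1 / 100) 0 + (53 / 625) + (-37 / 250) * w - (uu (3 / 5 + w) 0 - uu (3 / 5) 0 - uu (1 / 100) 0) - (-3 / 20) := by
  have h : chkT [add (sub (sub (add (add (mul (q 1 1) (E.uu (q 1 100) (q 0 1))) (q 53 625)) (mul (q (-37) 250) QQ.w)) (sub (sub (E.uu (add (q 3 5) QQ.w) (q 0 1)) (E.uu (q 3 5) (q 0 1))) (E.uu (q 1 100) (q 0 1)))) (q (-3) 20)) (q 223 1000)] 30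
    8
    [NumI.V.of 10000 0 100] = true := by
    decide +kernel
  obtain ⟨f, hf, hp⟩ := chkT_sound h (xs := [w])
    (List.Forall₂.cons (NumI.V.of_mem (by norm_num) (le_trans (by norm_num) b1) (le_trans b2 (by norm_num))) List.Forall₂.nil)
  by_contra hc
  have hc := not_lt.1 hc
  simp only [List.mem_cons, List.not_mem_nil, or_false] at hf
  rcases hf with rfl
  · simp only [E.val, NumI.lkR, QQ.t, QQ.k, QQ.w] at hp
    push_cast at hp
    try simp only [zero_div, div_one] at hp hc
    first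
      | with_reducible exact absurd (sub_pos.1 hp) (not_lt.2 hc)
      | with_reducible exact absurd hp (not_lt.2 (add_le_of_le_neg hc))
      | linarith

theorem r_h_two_0_0_1 {w : ℝ} (b1 : 100 / 10000 ≤ w) (b2 : w ≤ 3800 / 10000) :
    -(223 / 1000) < 1 * uu w 0 + (53 / 625) + (-37 / 250) * w - (uu (3 / 5 + w) 0 - uu (3 / 5) 0 - uu w 0) - (-3 / 20) := by
  have h : chkT [add (sub (sub (add (add (mul (q 1 1) (E.uu QQ.w (q 0 1))) (q 53 625)) (mul (q (-37) 250) QQ.w)) (sub (sub (E.uu (add (q 3 5) QQ.w) (q 0 1)) (E.uu (q 3 5) (q 0 1))) (E.uu QQ.w (q 0 1)))) (q (-3) 20)) (q 223 1000)] 30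
    156835605807622520832
    [NumI.V.of 10000 100 3800] = true := by
    decide +kernel
  obtain ⟨f, hf, hp⟩ := chkT_sound h (xs := [w])
    (List.Forall₂.cons (NumI.V.of_mem (by norm_num) (le_trans (by norm_num) b1) (le_trans b2 (by norm_num))) List.Forall₂.nil)
  by_contra hc
  have hc := not_lt.1 hc
  simp only [List.mem_cons, List.not_mem_nil, or_false] at hf
  rcases hf with rfl
  · simp only [E.val, NumI.lkR, QQ.t, QQ.k, QQ.w] at hp
    push_cast at hp
    try simp only [zero_div, div_one] at hp hc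
    first
      | with_reducible exact absurd (sub_pos.1 hp) (not_lt.2 hc)
      | with_reducible exact absurd hp (not_lt.2 (add_le_of_le_neg hc))
      | linarith

theorem r_h_two_0_0_2 {w : ℝ} (b1 : 3800 / 10000 ≤ w) (b2 : w ≤ 4000 / 10000) :
    -(223 / 1000) < 1 * uu w 0 + (53 / 625) + (-37 / 250) * w - (uu (49 / 50) 0 - uu (3 / 5) 0 - uu w 0) - (-3 / 20) := by
  have h : chkT [add (sub (sub (add (add (mul (q 1 1) (E.uu QQ.w (q 0 1))) (q 53 625)) (mul (q (-37) 250) QQ.w)) (sub (sub (E.uu (q 49 50) (q 0 1)) (E.uu (q 3 5) (q 0 1))) (E.uu QQ.w (q 0 1)))) (q (-3) 20)) (q 223 1000)] 30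
    8
    [NumI.V.of 10000 3800 4000] = true := by
    decide +kernel
  obtain ⟨f, hf, hp⟩ := chkT_sound h (xs := [w])
    (List.Forall₂.cons (NumI.V.of_mem (by norm_num) (le_trans (by norm_num) b1) (le_trans b2 (by norm_num))) List.Forall₂.nil)
  by_contra hc
  have hc := not_lt.1 hc
  simp only [List.mem_cons, List.not_mem_nil, or_false] at hf
  rcases hf with rfl
  · simp only [E.val, NumI.lkR, QQ.t, QQ.k, QQ.w] at hp
    push_cast at hp
    try simp only [zero_div, div_one] at hp hc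
    first
      | with_reducible exact absurd (sub_pos.1 hp) (not_lt.2 hc)
      | with_reducible exact absurd hp (not_lt.2 (add_le_of_le_neg hc))
      | linarith

theorem r_h_twoE_0_0_0 {w : ℝ} (b1 : 0 / 10000 ≤ w) (b2 : w ≤ 100 / 10000) :
    -(23 / 100) < 1 * uu (1 / 100) 0 + (309 / 2000) + (0 / 1) * w - (uu (3 / 5 + w) 0 - uu (3 / 5) 0 - uu (1 / 100) 0) - (-3 / 20) := by
  have h : chkT [add (sub (sub (add (add (mul (q 1 1) (E.uu (q 1 100) (q 0 1))) (q 309 2000)) (mul (q 0 1) QQ.w)) (sub (sub (E.uu (add (q 3 5) QQ.w) (q 0 1)) (E.uu (q 3 5) (q 0 1))) (E.uu (q 1 100) (q 0 1)))) (q (-3) 20)) (q 23 100)] 30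
    8
    [NumI.V.of 10000 0 100] = true := by
    decide +kernel
  obtain ⟨f, hf, hp⟩ := chkT_sound h (xs := [w])
    (List.Forall₂.cons (NumI.V.of_mem (by norm_num) (le_trans (by norm_num) b1) (le_trans b2 (by norm_num))) List.Forall₂.nil)
  by_contra hc
  have hc := not_lt.1 hc
  simp only [List.mem_cons, List.not_mem_nil, or_false] at hf
  rcases hf with rfl
  · simp only [E.val, NumI.lkR, QQ.t, QQ.k, QQ.w] at hp
    push_cast at hp
    try simp only [zero_div, div_one] at hp hc
    first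
      | with_reducible exact absurd (sub_pos.1 hp) (not_lt.2 hc)
      | with_reducible exact absurd hp (not_lt.2 (add_le_of_le_neg hc))
      | linarith

theorem r_h_twoE_0_0_1 {w : ℝ} (b1 : 100 / 10000 ≤ w) (b2 : w ≤ 3800 / 10000) :
    -(23 / 100) < 1 * uu w 0 + (309 / 2000) + (0 / 1) * w - (uu (3 / 5 + w) 0 - uu (3 / 5) 0 - uu w 0) - (-3 / 20) := by
  have h : chkT [add (sub (sub (add (add (mul (q 1 1) (E.uu QQ.w (q 0 1))) (q 309 2000)) (mul (q 0 1) QQ.w)) (sub (sub (E.uu (add (q 3 5) QQ.w) (q 0 1)) (E.uu (q 3 5) (q 0 1))) (E.uu QQ.w (q 0 1)))) (q (-3) 20)) (q 23 100)] 30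
    2393089348468736
    [NumI.V.of 10000 100 3800] = true := by
    decide +kernel
  obtain ⟨f, hf, hp⟩ := chkT_sound h (xs := [w])
    (List.Forall₂.cons (NumI.V.of_mem (by norm_num) (le_trans (by norm_num) b1) (le_trans b2 (by norm_num))) List.Forall₂.nil)
  by_contra hc
  have hc := not_lt.1 hc
  simp only [List.mem_cons, List.not_mem_nil, or_false] at hf
  rcases hf with rfl
  · simp only [E.val, NumI.lkR, QQ.t, QQ.k, QQ.w] at hp
    push_cast at hp
    try simp only [zero_div, div_one] at hp hc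
    first
      | with_reducible exact absurd (sub_pos.1 hp) (not_lt.2 hc)
      | with_reducible exact absurd hp (not_lt.2 (add_le_of_le_neg hc))
      | linarith

theorem r_h_twoE_0_0_2 {w : ℝ} (b1 : 3800 / 10000 ≤ w) (b2 : w ≤ 4000 / 10000) :
    -(23 / 100) < 1 * uu w 0 + (309 / 2000) + (0 / 1) * w - (uu (49 / 50) 0 - uu (3 / 5) 0 - uu w 0) - (-3 / 20) := by
  have h : chkT [add (sub (sub (add (add (mul (q 1 1) (E.uu QQ.w (q 0 1))) (q 309 2000)) (mul (q 0 1) QQ.w)) (sub (sub (E.uu (q 49 50) (q 0 1)) (E.uu (q 3 5) (q 0 1))) (E.uu QQ.w (q 0 1)))) (q (-3) 20)) (q 23 100)] 30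
    8
    [NumI.V.of 10000 3800 4000] = true := by
    decide +kernel
  obtain ⟨f, hf, hp⟩ := chkT_sound h (xs := [w])
    (List.Forall₂.cons (NumI.V.of_mem (by norm_num) (le_trans (by norm_num) b1) (le_trans b2 (by norm_num))) List.Forall₂.nil)
  by_contra hc
  have hc := not_lt.1 hc
  simp only [List.mem_cons, List.not_mem_nil, or_false] at hf
  rcases hf with rfl
  · simp only [E.val, NumI.lkR, QQ.t, QQ.k, QQ.w] at hp
    push_cast at hp
    try simp only [zero_div, div_one] at hp hc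
    first
      | with_reducible exact absurd (sub_pos.1 hp) (not_lt.2 hc)
      | with_reducible exact absurd hp (not_lt.2 (add_le_of_le_neg hc))
      | linarith

theorem r_h_touched_0_0_0 {w : ℝ} (b1 : 0 / 10000 ≤ w) (b2 : w ≤ 100 / 10000) :
    -(21 / 100) < 0 * uu (1 / 100) 0 + (0 / 1) + (0 / 1) * w - (uu (3 / 5 + w) 0 - uu (3 / 5) 0 - uu (1 / 100) 0) - (-3 / 20) := by
  have h : chkT [add (sub (sub (add (add (mul (q 0 1) (E.uu (q 1 100) (q 0 1))) (q 0 1)) (mul (q 0 1) QQ.w)) (sub (sub (E.uu (add (q 3 5) QQ.w) (q 0 1)) (E.uu (q 3 5) (q 0 1))) (E.uu (q 1 100) (q 0 1)))) (q (-3) 20)) (q 21 100)] 30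
    8
    [NumI.V.of 10000 0 100] = true := by
    decide +kernel
  obtain ⟨f, hf, hp⟩ := chkT_sound h (xs := [w])
    (List.Forall₂.cons (NumI.V.of_mem (by norm_num) (le_trans (by norm_num) b1) (le_trans b2 (by norm_num))) List.Forall₂.nil)
  by_contra hc
  have hc := not_lt.1 hc
  simp only [List.mem_cons, List.not_mem_nil, or_false] at hf
  rcases hf with rfl
  · simp only [E.val, NumI.lkR, QQ.t, QQ.k, QQ.w] at hp
    push_cast at hp
    try simp only [zero_div, div_one] at hp hc
    first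
      | with_reducible exact absurd (sub_pos.1 hp) (not_lt.2 hc)
      | with_reducible exact absurd hp (not_lt.2 (add_le_of_le_neg hc))
      | linarith

theorem r_h_touched_0_0_1 {w : ℝ} (b1 : 100 / 10000 ≤ w) (b2 : w ≤ 3800 / 10000) :
    -(21 / 100) < 0 * uu w 0 + (0 / 1) + (0 / 1) * w - (uu (3 / 5 + w) 0 - uu (3 / 5) 0 - uu w 0) - (-3 / 20) := by
  have h : chkT [add (sub (sub (add (add (mul (q 0 1) (E.uu QQ.w (q 0 1))) (q 0 1)) (mul (q 0 1) QQ.w)) (sub (sub (E.uu (add (q 3 5) QQ.w) (q 0 1)) (E.uu (q 3 5) (q 0 1))) (E.uu QQ.w (q 0 1)))) (q (-3) 20)) (q 21 100)] 30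
    9348005265408
    [NumI.V.of 10000 100 3800] = true := by
    decide +kernel
  obtain ⟨f, hf, hp⟩ := chkT_sound h (xs := [w])
    (List.Forall₂.cons (NumI.V.of_mem (by norm_num) (le_trans (by norm_num) b1) (le_trans b2 (by norm_num))) List.Forall₂.nil)
  by_contra hc
  have hc := not_lt.1 hc
  simp only [List.mem_cons, List.not_mem_nil, or_false] at hf
  rcases hf with rfl
  · simp only [E.val, NumI.lkR, QQ.t, QQ.k, QQ.w] at hp
    push_cast at hp
    try simp only [zero_div, div_one] at hp hc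
    first
      | with_reducible exact absurd (sub_pos.1 hp) (not_lt.2 hc)
      | with_reducible exact absurd hp (not_lt.2 (add_le_of_le_neg hc))
      | linarith

theorem r_h_touched_0_0_2 {w : ℝ} (b1 : 3800 / 10000 ≤ w) (b2 : w ≤ 4000 / 10000) :
    -(21 / 100) < 0 * uu w 0 + (0 / 1) + (0 / 1) * w - (uu (49 / 50) 0 - uu (3 / 5) 0 - uu w 0) - (-3 / 20) := by
  have h : chkT [add (sub (sub (add (add (mul (q 0 1) (E.uu QQ.w (q 0 1))) (q 0 1)) (mul (q 0 1) QQ.w)) (sub (sub (E.uu (q 49 50) (q 0 1)) (E.uu (q 3 5) (q 0 1))) (E.uu QQ.w (q 0 1)))) (q (-3) 20)) (q 21 100)] 30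
    8
    [NumI.V.of 10000 3800 4000] = true := by
    decide +kernel
  obtain ⟨f, hf, hp⟩ := chkT_sound h (xs := [w])
    (List.Forall₂.cons (NumI.V.of_mem (by norm_num) (le_trans (by norm_num) b1) (le_trans b2 (by norm_num))) List.Forall₂.nil)
  by_contra hc
  have hc := not_lt.1 hc
  simp only [List.mem_cons, List.not_mem_nil, or_false] at hf
  rcases hf with rfl
  · simp only [E.val, NumI.lkR, QQ.t, QQ.k, QQ.w] at hp
    push_cast at hp
    try simp only [zero_div, div_one] at hp hc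
    first
      | with_reducible exact absurd (sub_pos.1 hp) (not_lt.2 hc)
      | with_reducible exact absurd hp (not_lt.2 (add_le_of_le_neg hc))
      | linarith

theorem r_r_one_0_0_0 {w : ℝ} (b1 : 0 / 10000 ≤ w) (b2 : w ≤ 100 / 10000) :
    -(137 / 1000) < 0 * uu (1 / 100) 0 + (-11 / 1000) + (0 / 1) * w - (uu (13 / 20 + w) 0 - uu (13 / 20) 0 - uu (1 / 100) 0) - (-27 / 200) := by
  have h : chkT [add (sub (sub (add (add (mul (q 0 1) (E.uu (q 1 100) (q 0 1))) (q (-11) 1000)) (mul (q 0 1) QQ.w)) (sub (sub (E.uu (add (q 13 20) QQ.w) (q 0 1)) (E.uu (q 13 20) (q 0 1))) (E.uu (q 1 100) (q 0 1)))) (q (-27) 200)) (q 137 1000)] 30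
    8
    [NumI.V.of 10000 0 100] = true := by
    decide +kernel
  obtain ⟨f, hf, hp⟩ := chkT_sound h (xs := [w])
    (List.Forall₂.cons (NumI.V.of_mem (by norm_num) (le_trans (by norm_num) b1) (le_trans b2 (by norm_num))) List.Forall₂.nil)
  by_contra hc
  have hc := not_lt.1 hc
  simp only [List.mem_cons, List.not_mem_nil, or_false] at hf
  rcases hf with rfl
  · simp only [E.val, NumI.lkR, QQ.t, QQ.k, QQ.w] at hp
    push_cast at hp
    try simp only [zero_div, div_one] at hp hc
    first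
      | with_reducible exact absurd (sub_pos.1 hp) (not_lt.2 hc)
      | with_reducible exact absurd hp (not_lt.2 (add_le_of_le_neg hc))
      | linarith

theorem r_r_one_0_0_1 {w : ℝ} (b1 : 100 / 10000 ≤ w) (b2 : w ≤ 1800 / 10000) :
    -(137 / 1000) < 0 * uu w 0 + (-11 / 1000) + (0 / 1) * w - (uu (13 / 20 + w) 0 - uu (13 / 20) 0 - uu w 0) - (-27 / 200) := by
  have h : chkT [add (sub (sub (add (add (mul (q 0 1) (E.uu QQ.w (q 0 1))) (q (-11) 1000)) (mul (q 0 1) QQ.w)) (sub (sub (E.uu (add (q 13 20) QQ.w) (q 0 1)) (E.uu (q 13 20) (q 0 1))) (E.uu QQ.w (q 0 1)))) (q (-27) 200)) (q 137 1000)] 30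
    559104
    [NumI.V.of 10000 100 1800] = true := by
    decide +kernel
  obtain ⟨f, hf, hp⟩ := chkT_sound h (xs := [w])
    (List.Forall₂.cons (NumI.V.of_mem (by norm_num) (le_trans (by norm_num) b1) (le_trans b2 (by norm_num))) List.Forall₂.nil)
  by_contra hc
  have hc := not_lt.1 hc
  simp only [List.mem_cons, List.not_mem_nil, or_false] at hf
  rcases hf with rfl
  · simp only [E.val, NumI.lkR, QQ.t, QQ.k, QQ.w] at hp
    push_cast at hp
    try simp only [zero_div, div_one] at hp hc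
    first
      | with_reducible exact absurd (sub_pos.1 hp) (not_lt.2 hc)
      | with_reducible exact absurd hp (not_lt.2 (add_le_of_le_neg hc))
      | linarith

theorem r_r_one_0_1_0 {w : ℝ} (b1 : 0 / 10000 ≤ w) (b2 : w ≤ 100 / 10000) :
    -(137 / 1000) < 0 * uu (1 / 100) 0 + (-11 / 1000) + (0 / 1) * w - (uu (19 / 20 + w) 0 - uu (19 / 20) 0 - uu (1 / 100) 0) - (1 / 50) := by
  have h : chkT [add (sub (sub (add (add (mul (q 0 1) (E.uu (q 1 100) (q 0 1))) (q (-11) 1000)) (mul (q 0 1) QQ.w)) (sub (sub (E.uu (add (q 19 20) QQ.w) (q 0 1)) (E.uu (q 19 20) (q 0 1))) (E.uu (q 1 100) (q 0 1)))) (q 1 50)) (q 137 1000)] 30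
    8
    [NumI.V.of 10000 0 100] = true := by
    decide +kernel
  obtain ⟨f, hf, hp⟩ := chkT_sound h (xs := [w])
    (List.Forall₂.cons (NumI.V.of_mem (by norm_num) (le_trans (by norm_num) b1) (le_trans b2 (by norm_num))) List.Forall₂.nil)
  by_contra hc
  have hc := not_lt.1 hc
  simp only [List.mem_cons, List.not_mem_nil, or_false] at hf
  rcases hf with rfl
  · simp only [E.val, NumI.lkR, QQ.t, QQ.k, QQ.w] at hp
    push_cast at hp
    try simp only [zero_div, div_one] at hp hc
    first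
      | with_reducible exact absurd (sub_pos.1 hp) (not_lt.2 hc)
      | with_reducible exact absurd hp (not_lt.2 (add_le_of_le_neg hc))
      | linarith

theorem r_r_one_0_1_1 {w : ℝ} (b1 : 100 / 10000 ≤ w) (b2 : w ≤ 400 / 10000) :
    -(137 / 1000) < 0 * uu w 0 + (-11 / 1000) + (0 / 1) * w - (uu (19 / 20 + w) 0 - uu (19 / 20) 0 - uu w 0) - (1 / 50) := by
  have h : chkT [add (sub (sub (add (add (mul (q 0 1) (E.uu QQ.w (q 0 1))) (q (-11) 1000)) (mul (q 0 1) QQ.w)) (sub (sub (E.uu (add (q 19 20) QQ.w) (q 0 1)) (E.uu (q 19 20) (q 0 1))) (E.uu QQ.w (q 0 1)))) (q 1 50)) (q 137 1000)] 30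
    8
    [NumI.V.of 10000 100 400] = true := by
    decide +kernel
  obtain ⟨f, hf, hp⟩ := chkT_sound h (xs := [w])
    (List.Forall₂.cons (NumI.V.of_mem (by norm_num) (le_trans (by norm_num) b1) (le_trans b2 (by norm_num))) List.Forall₂.nil)
  by_contra hc
  have hc := not_lt.1 hc
  simp only [List.mem_cons, List.not_mem_nil, or_false] at hf
  rcases hf with rfl
  · simp only [E.val, NumI.lkR, QQ.t, QQ.k, QQ.w] at hp
    push_cast at hp
    try simp only [zero_div, div_one] at hp hc
    first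
      | with_reducible exact absurd (sub_pos.1 hp) (not_lt.2 hc)
      | with_reducible exact absurd hp (not_lt.2 (add_le_of_le_neg hc))
      | linarith

theorem r_r_one_0_1_2 {w : ℝ} (b1 : 400 / 10000 ≤ w) (b2 : w ≤ 500 / 10000) :
    -(137 / 1000) < 0 * uu w 0 + (-11 / 1000) + (0 / 1) * w - (uu (99 / 100) 0 - uu (19 / 20) 0 - uu w 0) - (1 / 50) := by
  have h : chkT [add (sub (sub (add (add (mul (q 0 1) (E.uu QQ.w (q 0 1))) (q (-11) 1000)) (mul (q 0 1) QQ.w)) (sub (sub (E.uu (q 99 100) (q 0 1)) (E.uu (q 19 20) (q 0 1))) (E.uu QQ.w (q 0 1)))) (q 1 50)) (q 137 1000)] 30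
    8
    [NumI.V.of 10000 400 500] = true := by
    decide +kernel
  obtain ⟨f, hf, hp⟩ := chkT_sound h (xs := [w])
    (List.Forall₂.cons (NumI.V.of_mem (by norm_num) (le_trans (by norm_num) b1) (le_trans b2 (by norm_num))) List.Forall₂.nil)
  by_contra hc
  have hc := not_lt.1 hc
  simp only [List.mem_cons, List.not_mem_nil, or_false] at hf
  rcases hf with rfl
  · simp only [E.val, NumI.lkR, QQ.t, QQ.k, QQ.w] at hp
    push_cast at hp
    try simp only [zero_div, div_one] at hp hc
    first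
      | with_reducible exact absurd (sub_pos.1 hp) (not_lt.2 hc)
      | with_reducible exact absurd hp (not_lt.2 (add_le_of_le_neg hc))
      | linarith

theorem r_r_one_1_0_0 {w : ℝ} (b1 : 0 / 10000 ≤ w) (b2 : w ≤ 100 / 10000) :
    -(9 / 50) < 1 * uu (1 / 100) 0 + (-163 / 5000) + (779 / 1000) * w - (uu (13 / 20 + w) 0 - uu (13 / 20) 0 - uu (1 / 100) 0) - (-27 / 200) := by
  have h : chkT [add (sub (sub (add (add (mul (q 1 1) (E.uu (q 1 100) (q 0 1))) (q (-163) 5000)) (mul (q 779 1000) QQ.w)) (sub (sub (E.uu (add (q 13 20) QQ.w) (q 0 1)) (E.uu (q 13 20) (q 0 1))) (E.uu (q 1 100) (q 0 1)))) (q (-27) 200)) (q 9 50)] 30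
    8
    [NumI.V.of 10000 0 100] = true := by
    decide +kernel
  obtain ⟨f, hf, hp⟩ := chkT_sound h (xs := [w])
    (List.Forall₂.cons (NumI.V.of_mem (by norm_num) (le_trans (by norm_num) b1) (le_trans b2 (by norm_num))) List.Forall₂.nil)
  by_contra hc
  have hc := not_lt.1 hc
  simp only [List.mem_cons, List.not_mem_nil, or_false] at hf
  rcases hf with rfl
  · simp only [E.val, NumI.lkR, QQ.t, QQ.k, QQ.w] at hp
    push_cast at hp
    try simp only [zero_div, div_one] at hp hc
    first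
      | with_reducible exact absurd (sub_pos.1 hp) (not_lt.2 hc)
      | with_reducible exact absurd hp (not_lt.2 (add_le_of_le_neg hc))
      | linarith

theorem r_r_one_1_0_1 {w : ℝ} (b1 : 100 / 10000 ≤ w) (b2 : w ≤ 1800 / 10000) :
    -(9 / 50) < 1 * uu w 0 + (-163 / 5000) + (779 / 1000) * w - (uu (13 / 20 + w) 0 - uu (13 / 20) 0 - uu w 0) - (-27 / 200) := by
  have h : chkT [add (sub (sub (add (add (mul (q 1 1) (E.uu QQ.w (q 0 1))) (q (-163) 5000)) (mul (q 779 1000) QQ.w)) (sub (sub (E.uu (add (q 13 20) QQ.w) (q 0 1)) (E.uu (q 13 20) (q 0 1))) (E.uu QQ.w (q 0 1)))) (q (-27) 200)) (q 9 50)] 30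
    36516167680
    [NumI.V.of 10000 100 1800] = true := by
    decide +kernel
  obtain ⟨f, hf, hp⟩ := chkT_sound h (xs := [w])
    (List.Forall₂.cons (NumI.V.of_mem (by norm_num) (le_trans (by norm_num) b1) (le_trans b2 (by norm_num))) List.Forall₂.nil)
  by_contra hc
  have hc := not_lt.1 hc
  simp only [List.mem_cons, List.not_mem_nil, or_false] at hf
  rcases hf with rfl
  · simp only [E.val, NumI.lkR, QQ.t, QQ.k, QQ.w] at hp
    push_cast at hp
    try simp only [zero_div, div_one] at hp hc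
    first
      | with_reducible exact absurd (sub_pos.1 hp) (not_lt.2 hc)
      | with_reducible exact absurd hp (not_lt.2 (add_le_of_le_neg hc))
      | linarith

theorem r_r_one_1_1_0 {w : ℝ} (b1 : 0 / 10000 ≤ w) (b2 : w ≤ 100 / 10000) :
    -(9 / 50) < 1 * uu (1 / 100) 0 + (-163 / 5000) + (779 / 1000) * w - (uu (19 / 20 + w) 0 - uu (19 / 20) 0 - uu (1 / 100) 0) - (1 / 50) := by
  have h : chkT [add (sub (sub (add (add (mul (q 1 1) (E.uu (q 1 100) (q 0 1))) (q (-163) 5000)) (mul (q 779 1000) QQ.w)) (sub (sub (E.uu (add (q 19 20) QQ.w) (q 0 1)) (E.uu (q 19 20) (q 0 1))) (E.uu (q 1 100) (q 0 1)))) (q 1 50)) (q 9 50)] 30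
    8
    [NumI.V.of 10000 0 100] = true := by
    decide +kernel
  obtain ⟨f, hf, hp⟩ := chkT_sound h (xs := [w])
    (List.Forall₂.cons (NumI.V.of_mem (by norm_num) (le_trans (by norm_num) b1) (le_trans b2 (by norm_num))) List.Forall₂.nil)
  by_contra hc
  have hc := not_lt.1 hc
  simp only [List.mem_cons, List.not_mem_nil, or_false] at hf
  rcases hf with rfl
  · simp only [E.val, NumI.lkR, QQ.t, QQ.k, QQ.w] at hp
    push_cast at hp
    try simp only [zero_div, div_one] at hp hc
    first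
      | with_reducible exact absurd (sub_pos.1 hp) (not_lt.2 hc)
      | with_reducible exact absurd hp (not_lt.2 (add_le_of_le_neg hc))
      | linarith

theorem r_r_one_1_1_1 {w : ℝ} (b1 : 100 / 10000 ≤ w) (b2 : w ≤ 400 / 10000) :
    -(9 / 50) < 1 * uu w 0 + (-163 / 5000) + (779 / 1000) * w - (uu (19 / 20 + w) 0 - uu (19 / 20) 0 - uu w 0) - (1 / 50) := by
  have h : chkT [add (sub (sub (add (add (mul (q 1 1) (E.uu QQ.w (q 0 1))) (q (-163) 5000)) (mul (q 779 1000) QQ.w)) (sub (sub (E.uu (add (q 19 20) QQ.w) (q 0 1)) (E.uu (q 19 20) (q 0 1))) (E.uu QQ.w (q 0 1)))) (q 1 50)) (q 9 50)] 30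
    2176
    [NumI.V.of 10000 100 400] = true := by
    decide +kernel
  obtain ⟨f, hf, hp⟩ := chkT_sound h (xs := [w])
    (List.Forall₂.cons (NumI.V.of_mem (by norm_num) (le_trans (by norm_num) b1) (le_trans b2 (by norm_num))) List.Forall₂.nil)
  by_contra hc
  have hc := not_lt.1 hc
  simp only [List.mem_cons, List.not_mem_nil, or_false] at hf
  rcases hf with rfl
  · simp only [E.val, NumI.lkR, QQ.t, QQ.k, QQ.w] at hp
    push_cast at hp
    try simp only [zero_div, div_one] at hp hc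
    first
      | with_reducible exact absurd (sub_pos.1 hp) (not_lt.2 hc)
      | with_reducible exact absurd hp (not_lt.2 (add_le_of_le_neg hc))
      | linarith

theorem r_r_one_1_1_2 {w : ℝ} (b1 : 400 / 10000 ≤ w) (b2 : w ≤ 500 / 10000) :
    -(9 / 50) < 1 * uu w 0 + (-163 / 5000) + (779 / 1000) * w - (uu (99 / 100) 0 - uu (19 / 20) 0 - uu w 0) - (1 / 50) := by
  have h : chkT [add (sub (sub (add (add (mul (q 1 1) (E.uu QQ.w (q 0 1))) (q (-163) 5000)) (mul (q 779 1000) QQ.w)) (sub (sub (E.uu (q 99 100) (q 0 1)) (E.uu (q 19 20) (q 0 1))) (E.uu QQ.w (q 0 1)))) (q 1 50)) (q 9 50)] 30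
    8
    [NumI.V.of 10000 400 500] = true := by
    decide +kernel
  obtain ⟨f, hf, hp⟩ := chkT_sound h (xs := [w])
    (List.Forall₂.cons (NumI.V.of_mem (by norm_num) (le_trans (by norm_num) b1) (le_trans b2 (by norm_num))) List.Forall₂.nil)
  by_contra hc
  have hc := not_lt.1 hc
  simp only [List.mem_cons, List.not_mem_nil, or_false] at hf
  rcases hf with rfl
  · simp only [E.val, NumI.lkR, QQ.t, QQ.k, QQ.w] at hp
    push_cast at hp
    try simp only [zero_div, div_one] at hp hc
    first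
      | with_reducible exact absurd (sub_pos.1 hp) (not_lt.2 hc)
      | with_reducible exact absurd hp (not_lt.2 (add_le_of_le_neg hc))
      | linarith

theorem r_r_one_2_0_0 {w : ℝ} (b1 : 1800 / 10000 ≤ w) (b2 : w ≤ 3300 / 10000) :
    -(189 / 1000) < 1 * uu w 0 + (164 / 625) + (-921 / 1000) * w - (uu (13 / 20 + w) 0 - uu (13 / 20) 0 - uu w 0) - (-27 / 200) := by
  have h : chkT [add (sub (sub (add (add (mul (q 1 1) (E.uu QQ.w (q 0 1))) (q 164 625)) (mul (q (-921) 1000) QQ.w)) (sub (sub (E.uu (add (q 13 20) QQ.w) (q 0 1)) (E.uu (q 13 20) (q 0 1))) (E.uu QQ.w (q 0 1)))) (q (-27) 200)) (q 189 1000)] 30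
    142641152
    [NumI.V.of 10000 1800 3300] = true := by
    decide +kernel
  obtain ⟨f, hf, hp⟩ := chkT_sound h (xs := [w])
    (List.Forall₂.cons (NumI.V.of_mem (by norm_num) (le_trans (by norm_num) b1) (le_trans b2 (by norm_num))) List.Forall₂.nil)
  by_contra hc
  have hc := not_lt.1 hc
  simp only [List.mem_cons, List.not_mem_nil, or_false] at hf
  rcases hf with rfl
  · simp only [E.val, NumI.lkR, QQ.t, QQ.k, QQ.w] at hp
    push_cast at hp
    try simp only [zero_div, div_one] at hp hc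
    first
      | with_reducible exact absurd (sub_pos.1 hp) (not_lt.2 hc)
      | with_reducible exact absurd hp (not_lt.2 (add_le_of_le_neg hc))
      | linarith

theorem r_r_one_2_0_1 {w : ℝ} (b1 : 3300 / 10000 ≤ w) (b2 : w ≤ 3500 / 10000) :
    -(189 / 1000) < 1 * uu w 0 + (164 / 625) + (-921 / 1000) * w - (uu (49 / 50) 0 - uu (13 / 20) 0 - uu w 0) - (-27 / 200) := by
  have h : chkT [add (sub (sub (add (add (mul (q 1 1) (E.uu QQ.w (q 0 1))) (q 164 625)) (mul (q (-921) 1000) QQ.w)) (sub (sub (E.uu (q 49 50) (q 0 1)) (E.uu (q 13 20) (q 0 1))) (E.uu QQ.w (q 0 1)))) (q (-27) 200)) (q 189 1000)] 30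
    8
    [NumI.V.of 10000 3300 3500] = true := by
    decide +kernel
  obtain ⟨f, hf, hp⟩ := chkT_sound h (xs := [w])
    (List.Forall₂.cons (NumI.V.of_mem (by norm_num) (le_trans (by norm_num) b1) (le_trans b2 (by norm_num))) List.Forall₂.nil)
  by_contra hc
  have hc := not_lt.1 hc
  simp only [List.mem_cons, List.not_mem_nil, or_false] at hf
  rcases hf with rfl
  · simp only [E.val, NumI.lkR, QQ.t, QQ.k, QQ.w] at hp
    push_cast at hp
    try simp only [zero_div, div_one] at hp hc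
    first
      | with_reducible exact absurd (sub_pos.1 hp) (not_lt.2 hc)
      | with_reducible exact absurd hp (not_lt.2 (add_le_of_le_neg hc))
      | linarith

theorem r_r_one_3_0_0 {w : ℝ} (b1 : 1800 / 10000 ≤ w) (b2 : w ≤ 3300 / 10000) :
    -(24 / 125) < 1 * uu w 0 + (1451 / 5000) + (-1021 / 1000) * w - (uu (13 / 20 + w) 0 - uu (13 / 20) 0 - uu w 0) - (-27 / 200) := by
  have h : chkT [add (sub (sub (add (add (mul (q 1 1) (E.uu QQ.w (q 0 1))) (q 1451 5000)) (mul (q (-1021) 1000) QQ.w)) (sub (sub (E.uu (add (q 13 20) QQ.w) (q 0 1)) (E.uu (q 13 20) (q 0 1))) (E.uu QQ.w (q 0 1)))) (q (-27) 200)) (q 24 125)] 30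
    142641152
    [NumI.V.of 10000 1800 3300] = true := by
    decide +kernel
  obtain ⟨f, hf, hp⟩ := chkT_sound h (xs := [w])
    (List.Forall₂.cons (NumI.V.of_mem (by norm_num) (le_trans (by norm_num) b1) (le_trans b2 (by norm_num))) List.Forall₂.nil)
  by_contra hc
  have hc := not_lt.1 hc
  simp only [List.mem_cons, List.not_mem_nil, or_false] at hf
  rcases hf with rfl
  · simp only [E.val, NumI.lkR, QQ.t, QQ.k, QQ.w] at hp
    push_cast at hp
    try simp only [zero_div, div_one] at hp hc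
    first
      | with_reducible exact absurd (sub_pos.1 hp) (not_lt.2 hc)
      | with_reducible exact absurd hp (not_lt.2 (add_le_of_le_neg hc))
      | linarith

theorem r_r_one_3_0_1 {w : ℝ} (b1 : 3300 / 10000 ≤ w) (b2 : w ≤ 3500 / 10000) :
    -(24 / 125) < 1 * uu w 0 + (1451 / 5000) + (-1021 / 1000) * w - (uu (49 / 50) 0 - uu (13 / 20) 0 - uu w 0) - (-27 / 200) := by
  have h : chkT [add (sub (sub (add (add (mul (q 1 1) (E.uu QQ.w (q 0 1))) (q 1451 5000)) (mul (q (-1021) 1000) QQ.w)) (sub (sub (E.uu (q 49 50) (q 0 1)) (E.uu (q 13 20) (q 0 1))) (E.uu QQ.w (q 0 1)))) (q (-27) 200)) (q 24 125)] 30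
    8
    [NumI.V.of 10000 3300 3500] = true := by
    decide +kernel
  obtain ⟨f, hf, hp⟩ := chkT_sound h (xs := [w])
    (List.Forall₂.cons (NumI.V.of_mem (by norm_num) (le_trans (by norm_num) b1) (le_trans b2 (by norm_num))) List.Forall₂.nil)
  by_contra hc
  have hc := not_lt.1 hc
  simp only [List.mem_cons, List.not_mem_nil, or_false] at hf
  rcases hf with rfl
  · simp only [E.val, NumI.lkR, QQ.t, QQ.k, QQ.w] at hp
    push_cast at hp
    try simp only [zero_div, div_one] at hp hc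
    first
      | with_reducible exact absurd (sub_pos.1 hp) (not_lt.2 hc)
      | with_reducible exact absurd hp (not_lt.2 (add_le_of_le_neg hc))
      | linarith

theorem r_r_two_0_0_0 {w : ℝ} (b1 : 0 / 10000 ≤ w) (b2 : w ≤ 100 / 10000) :
    -(21 / 100) < 1 * uu (1 / 100) 0 + (53 / 625) + (-37 / 250) * w - (uu (13 / 20 + w) 0 - uu (13 / 20) 0 - uu (1 / 100) 0) - (-27 / 200) := by
  have h : chkT [add (sub (sub (add (add (mul (q 1 1) (E.uu (q 1 100) (q 0 1))) (q 53 625)) (mul (q (-37) 250) QQ.w)) (sub (sub (E.uu (add (q 13 20) QQ.w) (q 0 1)) (E.uu (q 13 20) (q 0 1))) (E.uu (q 1 100) (q 0 1)))) (q (-27) 200)) (q 21 100)] 30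
    8
    [NumI.V.of 10000 0 100] = true := by
    decide +kernel
  obtain ⟨f, hf, hp⟩ := chkT_sound h (xs := [w])
    (List.Forall₂.cons (NumI.V.of_mem (by norm_num) (le_trans (by norm_num) b1) (le_trans b2 (by norm_num))) List.Forall₂.nil)
  by_contra hc
  have hc := not_lt.1 hc
  simp only [List.mem_cons, List.not_mem_nil, or_false] at hf
  rcases hf with rfl
  · simp only [E.val, NumI.lkR, QQ.t, QQ.k, QQ.w] at hp
    push_cast at hp
    try simp only [zero_div, div_one] at hp hc
    first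
      | with_reducible exact absurd (sub_pos.1 hp) (not_lt.2 hc)
      | with_reducible exact absurd hp (not_lt.2 (add_le_of_le_neg hc))
      | linarith

theorem r_r_two_0_0_1 {w : ℝ} (b1 : 100 / 10000 ≤ w) (b2 : w ≤ 3300 / 10000) :
    -(21 / 100) < 1 * uu w 0 + (53 / 625) + (-37 / 250) * w - (uu (13 / 20 + w) 0 - uu (13 / 20) 0 - uu w 0) - (-27 / 200) := by
  have h : chkT [add (sub (sub (add (add (mul (q 1 1) (E.uu QQ.w (q 0 1))) (q 53 625)) (mul (q (-37) 250) QQ.w)) (sub (sub (E.uu (add (q 13 20) QQ.w) (q 0 1)) (E.uu (q 13 20) (q 0 1))) (E.uu QQ.w (q 0 1)))) (q (-27) 200)) (q 21 100)] 30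
    612639085186023424
    [NumI.V.of 10000 100 3300] = true := by
    decide +kernel
  obtain ⟨f, hf, hp⟩ := chkT_sound h (xs := [w])
    (List.Forall₂.cons (NumI.V.of_mem (by norm_num) (le_trans (by norm_num) b1) (le_trans b2 (by norm_num))) List.Forall₂.nil)
  by_contra hc
  have hc := not_lt.1 hc
  simp only [List.mem_cons, List.not_mem_nil, or_false] at hf
  rcases hf with rfl
  · simp only [E.val, NumI.lkR, QQ.t, QQ.k, QQ.w] at hp
    push_cast at hp
    try simp only [zero_div, div_one] at hp hc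
    first
      | with_reducible exact absurd (sub_pos.1 hp) (not_lt.2 hc)
      | with_reducible exact absurd hp (not_lt.2 (add_le_of_le_neg hc))
      | linarith

theorem r_r_two_0_0_2 {w : ℝ} (b1 : 3300 / 10000 ≤ w) (b2 : w ≤ 3500 / 10000) :
    -(21 / 100) < 1 * uu w 0 + (53 / 625) + (-37 / 250) * w - (uu (49 / 50) 0 - uu (13 / 20) 0 - uu w 0) - (-27 / 200) := by
  have h : chkT [add (sub (sub (add (add (mul (q 1 1) (E.uu QQ.w (q 0 1))) (q 53 625)) (mul (q (-37) 250) QQ.w)) (sub (sub (E.uu (q 49 50) (q 0 1)) (E.uu (q 13 20) (q 0 1))) (E.uu QQ.w (q 0 1)))) (q (-27) 200)) (q 21 100)] 30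
    8
    [NumI.V.of 10000 3300 3500] = true := by
    decide +kernel
  obtain ⟨f, hf, hp⟩ := chkT_sound h (xs := [w])
    (List.Forall₂.cons (NumI.V.of_mem (by norm_num) (le_trans (by norm_num) b1) (le_trans b2 (by norm_num))) List.Forall₂.nil)
  by_contra hc
  have hc := not_lt.1 hc
  simp only [List.mem_cons, List.not_mem_nil, or_false] at hf
  rcases hf with rfl
  · simp only [E.val, NumI.lkR, QQ.t, QQ.k, QQ.w] at hp
    push_cast at hp
    try simp only [zero_div, div_one] at hp hc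
    first
      | with_reducible exact absurd (sub_pos.1 hp) (not_lt.2 hc)
      | with_reducible exact absurd hp (not_lt.2 (add_le_of_le_neg hc))
      | linarith

theorem r_r_two_0_1_0 {w : ℝ} (b1 : 0 / 10000 ≤ w) (b2 : w ≤ 100 / 10000) :
    -(21 / 100) < 1 * uu (1 / 100) 0 + (53 / 625) + (-37 / 250) * w - (uu (19 / 20 + w) 0 - uu (19 / 20) 0 - uu (1 / 100) 0) - (1 / 50) := by
  have h : chkT [add (sub (sub (add (add (mul (q 1 1) (E.uu (q 1 100) (q 0 1))) (q 53 625)) (mul (q (-37) 250) QQ.w)) (sub (sub (E.uu (add (q 19 20) QQ.w) (q 0 1)) (E.uu (q 19 20) (q 0 1))) (E.uu (q 1 100) (q 0 1)))) (q 1 50)) (q 21 100)] 30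
    8
    [NumI.V.of 10000 0 100] = true := by
    decide +kernel
  obtain ⟨f, hf, hp⟩ := chkT_sound h (xs := [w])
    (List.Forall₂.cons (NumI.V.of_mem (by norm_num) (le_trans (by norm_num) b1) (le_trans b2 (by norm_num))) List.Forall₂.nil)
  by_contra hc
  have hc := not_lt.1 hc
  simp only [List.mem_cons, List.not_mem_nil, or_false] at hf
  rcases hf with rfl
  · simp only [E.val, NumI.lkR, QQ.t, QQ.k, QQ.w] at hp
    push_cast at hp
    try simp only [zero_div, div_one] at hp hc
    first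
      | with_reducible exact absurd (sub_pos.1 hp) (not_lt.2 hc)
      | with_reducible exact absurd hp (not_lt.2 (add_le_of_le_neg hc))
      | linarith

theorem r_r_two_0_1_1 {w : ℝ} (b1 : 100 / 10000 ≤ w) (b2 : w ≤ 400 / 10000) :
    -(21 / 100) < 1 * uu w 0 + (53 / 625) + (-37 / 250) * w - (uu (19 / 20 + w) 0 - uu (19 / 20) 0 - uu w 0) - (1 / 50) := by
  have h : chkT [add (sub (sub (add (add (mul (q 1 1) (E.uu QQ.w (q 0 1))) (q 53 625)) (mul (q (-37) 250) QQ.w)) (sub (sub (E.uu (add (q 19 20) QQ.w) (q 0 1)) (E.uu (q 19 20) (q 0 1))) (E.uu QQ.w (q 0 1)))) (q 1 50)) (q 21 100)] 30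
    8
    [NumI.V.of 10000 100 400] = true := by
    decide +kernel
  obtain ⟨f, hf, hp⟩ := chkT_sound h (xs := [w])
    (List.Forall₂.cons (NumI.V.of_mem (by norm_num) (le_trans (by norm_num) b1) (le_trans b2 (by norm_num))) List.Forall₂.nil)
  by_contra hc
  have hc := not_lt.1 hc
  simp only [List.mem_cons, List.not_mem_nil, or_false] at hf
  rcases hf with rfl
  · simp only [E.val, NumI.lkR, QQ.t, QQ.k, QQ.w] at hp
    push_cast at hp
    try simp only [zero_div, div_one] at hp hc
    first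
      | with_reducible exact absurd (sub_pos.1 hp) (not_lt.2 hc)
      | with_reducible exact absurd hp (not_lt.2 (add_le_of_le_neg hc))
      | linarith

theorem r_r_two_0_1_2 {w : ℝ} (b1 : 400 / 10000 ≤ w) (b2 : w ≤ 500 / 10000) :
    -(21 / 100) < 1 * uu w 0 + (53 / 625) + (-37 / 250) * w - (uu (99 / 100) 0 - uu (19 / 20) 0 - uu w 0) - (1 / 50) := by
  have h : chkT [add (sub (sub (add (add (mul (q 1 1) (E.uu QQ.w (q 0 1))) (q 53 625)) (mul (q (-37) 250) QQ.w)) (sub (sub (E.uu (q 99 100) (q 0 1)) (E.uu (q 19 20) (q 0 1))) (E.uu QQ.w (q 0 1)))) (q 1 50)) (q 21 100)] 30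
    8
    [NumI.V.of 10000 400 500] = true := by
    decide +kernel
  obtain ⟨f, hf, hp⟩ := chkT_sound h (xs := [w])
    (List.Forall₂.cons (NumI.V.of_mem (by norm_num) (le_trans (by norm_num) b1) (le_trans b2 (by norm_num))) List.Forall₂.nil)
  by_contra hc
  have hc := not_lt.1 hc
  simp only [List.mem_cons, List.not_mem_nil, or_false] at hf
  rcases hf with rfl
  · simp only [E.val, NumI.lkR, QQ.t, QQ.k, QQ.w] at hp
    push_cast at hp
    try simp only [zero_div, div_one] at hp hc
    first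
      | with_reducible exact absurd (sub_pos.1 hp) (not_lt.2 hc)
      | with_reducible exact absurd hp (not_lt.2 (add_le_of_le_neg hc))
      | linarith

theorem r_r_twoE_0_0_0 {w : ℝ} (b1 : 0 / 10000 ≤ w) (b2 : w ≤ 100 / 10000) :
    -(23 / 100) < 1 * uu (1 / 100) 0 + (309 / 2000) + (0 / 1) * w - (uu (13 / 20 + w) 0 - uu (13 / 20) 0 - uu (1 / 100) 0) - (-27 / 200) := by
  have h : chkT [add (sub (sub (add (add (mul (q 1 1) (E.uu (q 1 100) (q 0 1))) (q 309 2000)) (mul (q 0 1) QQ.w)) (sub (sub (E.uu (add (q 13 20) QQ.w) (q 0 1)) (E.uu (q 13 20) (q 0 1))) (E.uu (q 1 100) (q 0 1)))) (q (-27) 200)) (q 23 100)] 30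
    8
    [NumI.V.of 10000 0 100] = true := by
    decide +kernel
  obtain ⟨f, hf, hp⟩ := chkT_sound h (xs := [w])
    (List.Forall₂.cons (NumI.V.of_mem (by norm_num) (le_trans (by norm_num) b1) (le_trans b2 (by norm_num))) List.Forall₂.nil)
  by_contra hc
  have hc := not_lt.1 hc
  simp only [List.mem_cons, List.not_mem_nil, or_false] at hf
  rcases hf with rfl
  · simp only [E.val, NumI.lkR, QQ.t, QQ.k, QQ.w] at hp
    push_cast at hp
    try simp only [zero_div, div_one] at hp hc
    first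
      | with_reducible exact absurd (sub_pos.1 hp) (not_lt.2 hc)
      | with_reducible exact absurd hp (not_lt.2 (add_le_of_le_neg hc))
      | linarith

theorem r_r_twoE_0_0_1 {w : ℝ} (b1 : 100 / 10000 ≤ w) (b2 : w ≤ 3300 / 10000) :
    -(23 / 100) < 1 * uu w 0 + (309 / 2000) + (0 / 1) * w - (uu (13 / 20 + w) 0 - uu (13 / 20) 0 - uu w 0) - (-27 / 200) := by
  have h : chkT [add (sub (sub (add (add (mul (q 1 1) (E.uu QQ.w (q 0 1))) (q 309 2000)) (mul (q 0 1) QQ.w)) (sub (sub (E.uu (add (q 13 20) QQ.w) (q 0 1)) (E.uu (q 13 20) (q 0 1))) (E.uu QQ.w (q 0 1)))) (q (-27) 200)) (q 23 100)] 30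
    36516167680
    [NumI.V.of 10000 100 3300] = true := by
    decide +kernel
  obtain ⟨f, hf, hp⟩ := chkT_sound h (xs := [w])
    (List.Forall₂.cons (NumI.V.of_mem (by norm_num) (le_trans (by norm_num) b1) (le_trans b2 (by norm_num))) List.Forall₂.nil)
  by_contra hc
  have hc := not_lt.1 hc
  simp only [List.mem_cons, List.not_mem_nil, or_false] at hf
  rcases hf with rfl
  · simp only [E.val, NumI.lkR, QQ.t, QQ.k, QQ.w] at hp
    push_cast at hp
    try simp only [zero_div, div_one] at hp hc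
    first
      | with_reducible exact absurd (sub_pos.1 hp) (not_lt.2 hc)
      | with_reducible exact absurd hp (not_lt.2 (add_le_of_le_neg hc))
      | linarith

theorem r_r_twoE_0_0_2 {w : ℝ} (b1 : 3300 / 10000 ≤ w) (b2 : w ≤ 3500 / 10000) :
    -(23 / 100) < 1 * uu w 0 + (309 / 2000) + (0 / 1) * w - (uu (49 / 50) 0 - uu (13 / 20) 0 - uu w 0) - (-27 / 200) := by
  have h : chkT [add (sub (sub (add (add (mul (q 1 1) (E.uu QQ.w (q 0 1))) (q 309 2000)) (mul (q 0 1) QQ.w)) (sub (sub (E.uu (q 49 50) (q 0 1)) (E.uu (q 13 20) (q 0 1))) (E.uu QQ.w (q 0 1)))) (q (-27) 200)) (q 23 100)] 30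
    8
    [NumI.V.of 10000 3300 3500] = true := by
    decide +kernel
  obtain ⟨f, hf, hp⟩ := chkT_sound h (xs := [w])
    (List.Forall₂.cons (NumI.V.of_mem (by norm_num) (le_trans (by norm_num) b1) (le_trans b2 (by norm_num))) List.Forall₂.nil)
  by_contra hc
  have hc := not_lt.1 hc
  simp only [List.mem_cons, List.not_mem_nil, or_false] at hf
  rcases hf with rfl
  · simp only [E.val, NumI.lkR, QQ.t, QQ.k, QQ.w] at hp
    push_cast at hp
    try simp only [zero_div, div_one] at hp hc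
    first
      | with_reducible exact absurd (sub_pos.1 hp) (not_lt.2 hc)
      | with_reducible exact absurd hp (not_lt.2 (add_le_of_le_neg hc))
      | linarith

theorem r_r_twoE_0_1_0 {w : ℝ} (b1 : 0 / 10000 ≤ w) (b2 : w ≤ 100 / 10000) :
    -(23 / 100) < 1 * uu (1 / 100) 0 + (309 / 2000) + (0 / 1) * w - (uu (19 / 20 + w) 0 - uu (19 / 20) 0 - uu (1 / 100) 0) - (1 / 50) := by
  have h : chkT [add (sub (sub (add (add (mul (q 1 1) (E.uu (q 1 100) (q 0 1))) (q 309 2000)) (mul (q 0 1) QQ.w)) (sub (sub (E.uu (add (q 19 20) QQ.w) (q 0 1)) (E.uu (q 19 20) (q 0 1))) (E.uu (q 1 100) (q 0 1)))) (q 1 50)) (q 23 100)] 30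
    8
    [NumI.V.of 10000 0 100] = true := by
    decide +kernel
  obtain ⟨f, hf, hp⟩ := chkT_sound h (xs := [w])
    (List.Forall₂.cons (NumI.V.of_mem (by norm_num) (le_trans (by norm_num) b1) (le_trans b2 (by norm_num))) List.Forall₂.nil)
  by_contra hc
  have hc := not_lt.1 hc
  simp only [List.mem_cons, List.not_mem_nil, or_false] at hf
  rcases hf with rfl
  · simp only [E.val, NumI.lkR, QQ.t, QQ.k, QQ.w] at hp
    push_cast at hp
    try simp only [zero_div, div_one] at hp hc
    first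
      | with_reducible exact absurd (sub_pos.1 hp) (not_lt.2 hc)
      | with_reducible exact absurd hp (not_lt.2 (add_le_of_le_neg hc))
      | linarith

theorem r_r_twoE_0_1_1 {w : ℝ} (b1 : 100 / 10000 ≤ w) (b2 : w ≤ 400 / 10000) :
    -(23 / 100) < 1 * uu w 0 + (309 / 2000) + (0 / 1) * w - (uu (19 / 20 + w) 0 - uu (19 / 20) 0 - uu w 0) - (1 / 50) := by
  have h : chkT [add (sub (sub (add (add (mul (q 1 1) (E.uu QQ.w (q 0 1))) (q 309 2000)) (mul (q 0 1) QQ.w)) (sub (sub (E.uu (add (q 19 20) QQ.w) (q 0 1)) (E.uu (q 19 20) (q 0 1))) (E.uu QQ.w (q 0 1)))) (q 1 50)) (q 23 100)] 30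
    8
    [NumI.V.of 10000 100 400] = true := by
    decide +kernel
  obtain ⟨f, hf, hp⟩ := chkT_sound h (xs := [w])
    (List.Forall₂.cons (NumI.V.of_mem (by norm_num) (le_trans (by norm_num) b1) (le_trans b2 (by norm_num))) List.Forall₂.nil)
  by_contra hc
  have hc := not_lt.1 hc
  simp only [List.mem_cons, List.not_mem_nil, or_false] at hf
  rcases hf with rfl
  · simp only [E.val, NumI.lkR, QQ.t, QQ.k, QQ.w] at hp
    push_cast at hp
    try simp only [zero_div, div_one] at hp hc
    first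
      | with_reducible exact absurd (sub_pos.1 hp) (not_lt.2 hc)
      | with_reducible exact absurd hp (not_lt.2 (add_le_of_le_neg hc))
      | linarith

theorem r_r_twoE_0_1_2 {w : ℝ} (b1 : 400 / 10000 ≤ w) (b2 : w ≤ 500 / 10000) :
    -(23 / 100) < 1 * uu w 0 + (309 / 2000) + (0 / 1) * w - (uu (99 / 100) 0 - uu (19 / 20) 0 - uu w 0) - (1 / 50) := by
  have h : chkT [add (sub (sub (add (add (mul (q 1 1) (E.uu QQ.w (q 0 1))) (q 309 2000)) (mul (q 0 1) QQ.w)) (sub (sub (E.uu (q 99 100) (q 0 1)) (E.uu (q 19 20) (q 0 1))) (E.uu QQ.w (q 0 1)))) (q 1 50)) (q 23 100)] 30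
    8
    [NumI.V.of 10000 400 500] = true := by
    decide +kernel
  obtain ⟨f, hf, hp⟩ := chkT_sound h (xs := [w])
    (List.Forall₂.cons (NumI.V.of_mem (by norm_num) (le_trans (by norm_num) b1) (le_trans b2 (by norm_num))) List.Forall₂.nil)
  by_contra hc
  have hc := not_lt.1 hc
  simp only [List.mem_cons, List.not_mem_nil, or_false] at hf
  rcases hf with rfl
  · simp only [E.val, NumI.lkR, QQ.t, QQ.k, QQ.w] at hp
    push_cast at hp
    try simp only [zero_div, div_one] at hp hc
    first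
      | with_reducible exact absurd (sub_pos.1 hp) (not_lt.2 hc)
      | with_reducible exact absurd hp (not_lt.2 (add_le_of_le_neg hc))
      | linarith

theorem r_r_touched_0_0_0 {w : ℝ} (b1 : 0 / 10000 ≤ w) (b2 : w ≤ 100 / 10000) :
    -(1 / 5) < 0 * uu (1 / 100) 0 + (0 / 1) + (0 / 1) * w - (uu (13 / 20 + w) 0 - uu (13 / 20) 0 - uu (1 / 100) 0) - (-27 / 200) := by
  have h : chkT [add (sub (sub (add (add (mul (q 0 1) (E.uu (q 1 100) (q 0 1))) (q 0 1)) (mul (q 0 1) QQ.w)) (sub (sub (E.uu (add (q 13 20) QQ.w) (q 0 1)) (E.uu (q 13 20) (q 0 1))) (E.uu (q 1 100) (q 0 1)))) (q (-27) 200)) (q 1 5)] 30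
    8
    [NumI.V.of 10000 0 100] = true := by
    decide +kernel
  obtain ⟨f, hf, hp⟩ := chkT_sound h (xs := [w])
    (List.Forall₂.cons (NumI.V.of_mem (by norm_num) (le_trans (by norm_num) b1) (le_trans b2 (by norm_num))) List.Forall₂.nil)
  by_contra hc
  have hc := not_lt.1 hc
  simp only [List.mem_cons, List.not_mem_nil, or_false] at hf
  rcases hf with rfl
  · simp only [E.val, NumI.lkR, QQ.t, QQ.k, QQ.w] at hp
    push_cast at hp
    try simp only [zero_div, div_one] at hp hc
    first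
      | with_reducible exact absurd (sub_pos.1 hp) (not_lt.2 hc)
      | with_reducible exact absurd hp (not_lt.2 (add_le_of_le_neg hc))
      | linarith

theorem r_r_touched_0_0_1 {w : ℝ} (b1 : 100 / 10000 ≤ w) (b2 : w ≤ 3300 / 10000) :
    -(1 / 5) < 0 * uu w 0 + (0 / 1) + (0 / 1) * w - (uu (13 / 20 + w) 0 - uu (13 / 20) 0 - uu w 0) - (-27 / 200) := by
  have h : chkT [add (sub (sub (add (add (mul (q 0 1) (E.uu QQ.w (q 0 1))) (q 0 1)) (mul (q 0 1) QQ.w)) (sub (sub (E.uu (add (q 13 20) QQ.w) (q 0 1)) (E.uu (q 13 20) (q 0 1))) (E.uu QQ.w (q 0 1)))) (q (-27) 200)) (q 1 5)] 30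
    9348005265408
    [NumI.V.of 10000 100 3300] = true := by
    decide +kernel
  obtain ⟨f, hf, hp⟩ := chkT_sound h (xs := [w])
    (List.Forall₂.cons (NumI.V.of_mem (by norm_num) (le_trans (by norm_num) b1) (le_trans b2 (by norm_num))) List.Forall₂.nil)
  by_contra hc
  have hc := not_lt.1 hc
  simp only [List.mem_cons, List.not_mem_nil, or_false] at hf
  rcases hf with rfl
  · simp only [E.val, NumI.lkR, QQ.t, QQ.k, QQ.w] at hp
    push_cast at hp
    try simp only [zero_div, div_one] at hp hc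
    first
      | with_reducible exact absurd (sub_pos.1 hp) (not_lt.2 hc)
      | with_reducible exact absurd hp (not_lt.2 (add_le_of_le_neg hc))
      | linarith

theorem r_r_touched_0_0_2 {w : ℝ} (b1 : 3300 / 10000 ≤ w) (b2 : w ≤ 3500 / 10000) :
    -(1 / 5) < 0 * uu w 0 + (0 / 1) + (0 / 1) * w - (uu (49 / 50) 0 - uu (13 / 20) 0 - uu w 0) - (-27 / 200) := by
  have h : chkT [add (sub (sub (add (add (mul (q 0 1) (E.uu QQ.w (q 0 1))) (q 0 1)) (mul (q 0 1) QQ.w)) (sub (sub (E.uu (q 49 50) (q 0 1)) (E.uu (q 13 20) (q 0 1))) (E.uu QQ.w (q 0 1)))) (q (-27) 200)) (q 1 5)] 30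
    8
    [NumI.V.of 10000 3300 3500] = true := by
    decide +kernel
  obtain ⟨f, hf, hp⟩ := chkT_sound h (xs := [w])
    (List.Forall₂.cons (NumI.V.of_mem (by norm_num) (le_trans (by norm_num) b1) (le_trans b2 (by norm_num))) List.Forall₂.nil)
  by_contra hc
  have hc := not_lt.1 hc
  simp only [List.mem_cons, List.not_mem_nil, or_false] at hf
  rcases hf with rfl
  · simp only [E.val, NumI.lkR, QQ.t, QQ.k, QQ.w] at hp
    push_cast at hp
    try simp only [zero_div, div_one] at hp hc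
    first
      | with_reducible exact absurd (sub_pos.1 hp) (not_lt.2 hc)
      | with_reducible exact absurd hp (not_lt.2 (add_le_of_le_neg hc))
      | linarith

theorem r_r_touched_0_1_0 {w : ℝ} (b1 : 0 / 10000 ≤ w) (b2 : w ≤ 100 / 10000) :
    -(1 / 5) < 0 * uu (1 / 100) 0 + (0 / 1) + (0 / 1) * w - (uu (19 / 20 + w) 0 - uu (19 / 20) 0 - uu (1 / 100) 0) - (1 / 50) := by
  have h : chkT [add (sub (sub (add (add (mul (q 0 1) (E.uu (q 1 100) (q 0 1))) (q 0 1)) (mul (q 0 1) QQ.w)) (sub (sub (E.uu (add (q 19 20) QQ.w) (q 0 1)) (E.uu (q 19 20) (q 0 1))) (E.uu (q 1 100) (q 0 1)))) (q 1 50)) (q 1 5)] 30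
    8
    [NumI.V.of 10000 0 100] = true := by
    decide +kernel
  obtain ⟨f, hf, hp⟩ := chkT_sound h (xs := [w])
    (List.Forall₂.cons (NumI.V.of_mem (by norm_num) (le_trans (by norm_num) b1) (le_trans b2 (by norm_num))) List.Forall₂.nil)
  by_contra hc
  have hc := not_lt.1 hc
  simp only [List.mem_cons, List.not_mem_nil, or_false] at hf
  rcases hf with rfl
  · simp only [E.val, NumI.lkR, QQ.t, QQ.k, QQ.w] at hp
    push_cast at hp
    try simp only [zero_div, div_one] at hp hc
    first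
      | with_reducible exact absurd (sub_pos.1 hp) (not_lt.2 hc)
      | with_reducible exact absurd hp (not_lt.2 (add_le_of_le_neg hc))
      | linarith

theorem r_r_touched_0_1_1 {w : ℝ} (b1 : 100 / 10000 ≤ w) (b2 : w ≤ 400 / 10000) :
    -(1 / 5) < 0 * uu w 0 + (0 / 1) + (0 / 1) * w - (uu (19 / 20 + w) 0 - uu (19 / 20) 0 - uu w 0) - (1 / 50) := by
  have h : chkT [add (sub (sub (add (add (mul (q 0 1) (E.uu QQ.w (q 0 1))) (q 0 1)) (mul (q 0 1) QQ.w)) (sub (sub (E.uu (add (q 19 20) QQ.w) (q 0 1)) (E.uu (q 19 20) (q 0 1))) (E.uu QQ.w (q 0 1)))) (q 1 50)) (q 1 5)] 30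
    8
    [NumI.V.of 10000 100 400] = true := by
    decide +kernel
  obtain ⟨f, hf, hp⟩ := chkT_sound h (xs := [w])
    (List.Forall₂.cons (NumI.V.of_mem (by norm_num) (le_trans (by norm_num) b1) (le_trans b2 (by norm_num))) List.Forall₂.nil)
  by_contra hc
  have hc := not_lt.1 hc
  simp only [List.mem_cons, List.not_mem_nil, or_false] at hf
  rcases hf with rfl
  · simp only [E.val, NumI.lkR, QQ.t, QQ.k, QQ.w] at hp
    push_cast at hp
    try simp only [zero_div, div_one] at hp hc
    first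
      | with_reducible exact absurd (sub_pos.1 hp) (not_lt.2 hc)
      | with_reducible exact absurd hp (not_lt.2 (add_le_of_le_neg hc))
      | linarith

theorem r_r_touched_0_1_2 {w : ℝ} (b1 : 400 / 10000 ≤ w) (b2 : w ≤ 500 / 10000) :
    -(1 / 5) < 0 * uu w 0 + (0 / 1) + (0 / 1) * w - (uu (99 / 100) 0 - uu (19 / 20) 0 - uu w 0) - (1 / 50) := by
  have h : chkT [add (sub (sub (add (add (mul (q 0 1) (E.uu QQ.w (q 0 1))) (q 0 1)) (mul (q 0 1) QQ.w)) (sub (sub (E.uu (q 99 100) (q 0 1)) (E.uu (q 19 20) (q 0 1))) (E.uu QQ.w (q 0 1)))) (q 1 50)) (q 1 5)] 30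
    8
    [NumI.V.of 10000 400 500] = true := by
    decide +kernel
  obtain ⟨f, hf, hp⟩ := chkT_sound h (xs := [w])
    (List.Forall₂.cons (NumI.V.of_mem (by norm_num) (le_trans (by norm_num) b1) (le_trans b2 (by norm_num))) List.Forall₂.nil)
  by_contra hc
  have hc := not_lt.1 hc
  simp only [List.mem_cons, List.not_mem_nil, or_false] at hf
  rcases hf with rfl
  · simp only [E.val, NumI.lkR, QQ.t, QQ.k, QQ.w] at hp
    push_cast at hp
    try simp only [zero_div, div_one] at hp hc
    first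
      | with_reducible exact absurd (sub_pos.1 hp) (not_lt.2 hc)
      | with_reducible exact absurd hp (not_lt.2 (add_le_of_le_neg hc))
      | linarith


end TL.K1b

end Pool.Agent.Work.MP_b30479_gt.G2
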