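import Pool.Agent.Work.MP_b30479_gt.G2.TK2a

/-!
# Tails, sides of a digit `1`: tools
-/

namespace Pool.Agent.Work.MP_b30479_gt.G2

open VOL NumU

namespace TL

theorem V1_uu (x t y k : ℝ) : V1 ⟨x, t⟩ ⟨y, k⟩ =
    Real.pi * (x * k + y * t - t - k) + uu (x + y) (t + k) - uu x t - uu y k := by
  unfold V1
  simp only [UU_uu, Complex.add_re, Complex.add_im, Complex.sub_im, Complex.mul_im]
  ring

theorem V1_real (x y : ℝ) : V1 ⟨x, 0⟩ ⟨y, 0⟩ = uu (x + y) 0 - uu x 0 - uu y 0 := by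
  rw [V1_uu]
  rw [show (0 : ℝ) + 0 = 0 by ring]
  ring

/-- the real value of a digit `1` decreases in a hinge to the right of `1/2` -/
theorem V1_old {X x w : ℝ} (hX : 1 / 2 ≤ X) (hx : X ≤ x) (hw : 0 ≤ w) (hxw : x + w ≤ 1) :
    uu (x + w) 0 - uu x 0 ≤ uu (X + w) 0 - uu X 0 := by
  have h1 := uu_incr_real (w := 1 - x - w) (w0 := 1 - X - w) (X := w) (by linarith) (by linarith)
    hw (by linarith)
  rw [show 1 - X - w = 1 - (X + w) by ring, show 1 - x - w = 1 - (x + w) by ring,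
    uu_one_sub, uu_one_sub, show 1 - (X + w) + w = 1 - X by ring,
    show 1 - (x + w) + w = 1 - x by ring, uu_one_sub, uu_one_sub] at h1
  linarith

/-! ### rows -/

/-- old position, a hinge at `X / 10000` -/
def oE1 (X a0 a1 o e : ℤ) (xw w : E) : E :=
  .sub (.add (.q o 10000) (.add (.q a0 10000) (.mul (.q a1 1000) (.var 0))))
    (.sub (.sub (.uu xw (.q 0 1)) (.uu (.q X 10000) (.q 0 1)))
      (.mul (.q e 1) (.uu w (.q 0 1))))

open NumI (V) in
def oldOK1 (X a0 a1 o e wl wh d : ℤ) : Bool :=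
  (decide (d < wl) || chk [oE1 X a0 a1 o e (.add (.q X 10000) (.var 0)) (.q d 10000)] 30
    [V.of 10000 wl d 0]) &&
  ((decide (10000 - X - d < wl) || chk [oE1 X a0 a1 o e (.add (.q X 10000) (.var 0)) (.var 0)] 30
    [V.of 10000 (max wl d) (min wh (10000 - X - d)) 0]) &&
  (decide (wh < 10000 - X - d) || chk [oE1 X a0 a1 o e (.add (.q (X - d) 10000) (.var 0)) (.var 0)]
    30 [V.of 10000 (10000 - X - d) (10000 - X) 0]))

theorem old1_sound {X a0 a1 o e wl wh d : ℤ} (h : oldOK1 X a0 a1 o e wl wh d = true)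
    (hX : 5000 ≤ X) (hd : 0 < d) (hd' : d ≤ 800) (he : 1 ≤ e) {x w : ℝ}
    (h0 : (X : ℝ) / 10000 ≤ x) (hw : 0 ≤ w) (hw0 : (wl : ℝ) / 10000 ≤ w)
    (hw1 : w ≤ (wh : ℝ) / 10000) (hxw : x + w ≤ 1) :
    V1 ⟨x, 0⟩ ⟨w, 0⟩ - (e - 1) * uu w 0 - ((a0 : ℝ) / 10000 + (a1 : ℝ) / 1000 * w) ≤
      (o : ℝ) / 10000 := by
  have hX' : (5000 : ℝ) ≤ X := by exact_mod_cast hX
  have hd1 : (0 : ℝ) < d := by exact_mod_cast hd
  have hd2 : (d : ℝ) ≤ 800 := by exact_mod_cast hd'
  have he' : (1 : ℝ) ≤ e := by exact_mod_cast he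
  unfold oldOK1 at h
  simp only [Bool.and_eq_true, Bool.or_eq_true, decide_eq_true_eq] at h
  obtain ⟨c1, c2, c3⟩ := h
  rw [V1_real]
  have hv := V1_old (X := (X : ℝ) / 10000) (by linarith) h0 hw hxw
  rcases le_total w ((d : ℝ) / 10000) with hs | hs
  · have c1 : NumU.chk _ _ _ = true := c1.resolve_left (by
      intro hc
      have : (d : ℝ) < wl := by exact_mod_cast hc
      linarith)
    have hp := pos_of_chk (chk1 c1 (by norm_num) (x := w) (by push_cast; linarith)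
      (by push_cast; linarith))
    have ha := uu_real_anti (a := w) (b := (d : ℝ) / 10000) hw hs (by linarith)
    simp only [oE1, E.val, NumI.lkR] at hp
    push_cast at hp
    norm_num at hp
    have := mul_le_mul_of_nonneg_left ha (by linarith : (0 : ℝ) ≤ e)
    linarith
  · rcases le_total w ((10000 - X - d : ℝ) / 10000) with hr | hr
    · have c2 : NumU.chk _ _ _ = true := c2.resolve_left (by
        intro hc
        have : (10000 - X - d : ℝ) < wl := by exact_mod_cast hc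
        linarith)
      have hp := pos_of_chk (chk1 c2 (by norm_num) (x := w)
        (by
          push_cast
          rw [div_le_iff₀ (by norm_num)]
          rw [div_le_iff₀ (by norm_num)] at hw0 hs
          exact max_le hw0 hs)
        (by
          push_cast
          rw [le_div_iff₀ (by norm_num)]
          rw [le_div_iff₀ (by norm_num)] at hw1 hr
          exact le_min hw1 hr))
      simp only [oE1, E.val, NumI.lkR] at hp
      push_cast at hp
      norm_num at hp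
      linarith
    · have c3 : NumU.chk _ _ _ = true := c3.resolve_left (by
        intro hc
        have : (wh : ℝ) < 10000 - X - d := by exact_mod_cast hc
        linarith)
      have hp := pos_of_chk (chk1 c3 (by norm_num) (x := w) (by push_cast; linarith)
        (by push_cast; linarith))
      have ha := uu_real_anti1 (a := (X : ℝ) / 10000 + w - (d : ℝ) / 10000)
        (b := (X : ℝ) / 10000 + w) (by linarith) (by linarith) (by linarith)
      simp only [oE1, E.val, NumI.lkR] at hp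
      push_cast at hp
      norm_num at hp
      rw [show ((X : ℝ) - d) / 10000 + w = (X : ℝ) / 10000 + w - (d : ℝ) / 10000 by ring] at hp
      linarith

/-- new position -/
def nE1 (c c' be ck n0 : ℤ) : E :=
  .sub (.add (.sub (.add (.uu (.q (c + c') 100) (.add (.var 0) (.var 1)))
    (.mul .pi (.sub (.add (.mul (.q c 100) (.var 1)) (.mul (.q c' 100) (.var 0)))
      (.add (.var 0) (.var 1)))))
    (.add (.uu (.q c 100) (.var 0)) (.uu (.q c' 100) (.var 1))))
    (.add (.mul (.q be 100) (.var 0)) (.mul (.q ck 10000) (.var 1)))) (.q n0 10000)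

def s0E (s : ℤ) : E := .sub (.q s 10000) (.add (.var 0) (.var 1))
def s1E (s : ℤ) : E := .sub (.add (.var 0) (.var 1)) (.q s 10000)

open NumI (V) in
theorem new1_sound {c c' be ck n0 t0 t1 k0 k1 s0 s1 : ℤ}
    (h : chk [nE1 c c' be ck n0, s0E s0, s1E s1] 30 [V.of 10000 t0 t1 0, V.of 10000 k0 k1 0] = true)
    {t k : ℝ} (h0 : (t0 : ℝ) / 10000 ≤ t) (h1 : t ≤ (t1 : ℝ) / 10000) (h2 : (k0 : ℝ) / 10000 ≤ k)
    (h3 : k ≤ (k1 : ℝ) / 10000) (h4 : (s0 : ℝ) / 10000 ≤ t + k) (h5 : t + k ≤ (s1 : ℝ) / 10000) :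
    (n0 : ℝ) / 10000 < V1 ⟨(c : ℝ) / 100, t⟩ ⟨(c' : ℝ) / 100, k⟩ + (be : ℝ) / 100 * t +
      (ck : ℝ) / 10000 * k := by
  obtain ⟨e, he, hp⟩ := chk2 h (by norm_num) (x := t) (y := k) (by push_cast; linarith)
    (by push_cast; linarith) (by push_cast; linarith) (by push_cast; linarith)
  simp only [List.mem_cons, List.not_mem_nil, or_false] at he
  rcases he with rfl | rfl | rfl
  · simp only [nE1, E.val, NumI.lkR] at hp
    push_cast at hp
    rw [V1_uu]
    rw [show (c : ℝ) / 100 + (c' : ℝ) / 100 = ((c : ℝ) + c') / 100 by ring]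
    linarith
  · exfalso
    simp only [s0E, E.val, NumI.lkR] at hp
    push_cast at hp
    linarith
  · exfalso
    simp only [s1E, E.val, NumI.lkR] at hp
    push_cast at hp
    linarith

open NumI (V) in
/-- new position minus old position -/
theorem k1_gen {X c c' be ck a0 a1 e wl wh d n0 o t0 t1 k0 k1 s0 s1 : ℤ}
    (hn : chk [nE1 c c' be ck n0, s0E s0, s1E s1] 30
      [V.of 10000 t0 t1 0, V.of 10000 k0 k1 0] = true)
    (ho : oldOK1 X a0 a1 o e wl wh d = true) (hX : 5000 ≤ X) (he : 1 ≤ e) (hd : 0 < d)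
    (hd' : d ≤ 800)
    {x w t k G C C' Be A : ℝ} (hC : C = (c : ℝ) / 100) (hC' : C' = (c' : ℝ) / 100)
    (hBe : Be = (be : ℝ) / 100) (hA : A = ((n0 : ℝ) - o) / 10000)
    (h0 : (X : ℝ) / 10000 ≤ x) (hw : 0 ≤ w) (hw0 : (wl : ℝ) / 10000 ≤ w)
    (hw1 : w ≤ (wh : ℝ) / 10000) (hxw : x + w ≤ 1)
    (ht0 : (t0 : ℝ) / 10000 ≤ t) (ht1 : t ≤ (t1 : ℝ) / 10000) (hk0 : (k0 : ℝ) / 10000 ≤ k)
    (hk1 : k ≤ (k1 : ℝ) / 10000) (hs0 : (s0 : ℝ) / 10000 ≤ t + k)
    (hs1 : t + k ≤ (s1 : ℝ) / 10000)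
    (hG : ((e : ℝ) - 1) * UU ⟨w, 0⟩ + ((a0 : ℝ) / 10000 + (a1 : ℝ) / 1000 * w) +
      (ck : ℝ) / 10000 * k ≤ G) :
    A ≤ V1 ⟨C, t⟩ ⟨C', k⟩ - V1 ⟨x, 0⟩ ⟨w, 0⟩ + G + Be * t := by
  have h1 := new1_sound hn ht0 ht1 hk0 hk1 hs0 hs1
  have h2 := old1_sound ho hX hd hd' he h0 hw hw0 hw1 hxw
  rw [UU_uu] at hG
  rw [hC, hC', hBe, hA, sub_div]
  linarith

end TL

end Pool.Agent.Work.MP_b30479_gt.G2
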