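import Pool.Agent.Work.MP_b30479_gt.G2.TK2a
import Pool.Agent.Work.MP_b30479_gt.G2.TDef2

/-!
# Tails, sides of a digit `2`: the rows `K2`
-/

namespace Pool.Agent.Work.MP_b30479_gt.G2

open VOL SR NumU

namespace TL

open NumI (V) in
/-- new position minus old position -/
theorem k2_gen {X c c' be ck a0 a1 e wl wh n0 o t0 t1 k0 k1 : ℤ}
    (hn : chk [nE c c' be ck n0] 30 [V.of 10000 t0 t1 0, V.of 10000 k0 k1 0] = true)
    (ho : oldOK X a0 a1 o e wl wh 200 = true) (hX : 5000 ≤ X) (he : 1 ≤ e)
    {x w t k G C C' Be A : ℝ} (hC : C = (c : ℝ) / 100) (hC' : C' = (c' : ℝ) / 100)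
    (hBe : Be = (be : ℝ) / 100) (hA : A = ((n0 : ℝ) - o) / 10000)
    (h0 : (X : ℝ) / 10000 ≤ x) (hw : 0 ≤ w) (hw0 : (wl : ℝ) / 10000 ≤ w)
    (hw1 : w ≤ (wh : ℝ) / 10000) (hxw : x + w ≤ 1)
    (ht0 : (t0 : ℝ) / 10000 ≤ t) (ht1 : t ≤ (t1 : ℝ) / 10000) (hk0 : (k0 : ℝ) / 10000 ≤ k)
    (hk1 : k ≤ (k1 : ℝ) / 10000)
    (hG : ((e : ℝ) - 2) * UU ⟨w, 0⟩ + ((a0 : ℝ) / 10000 + (a1 : ℝ) / 1000 * w) +
      (ck : ℝ) / 10000 * k ≤ G) :
    A ≤ V2 ⟨C, t⟩ ⟨C', k⟩ - V2 ⟨x, 0⟩ ⟨w, 0⟩ + G + Be * t := by
  have h1 := new_sound hn ht0 ht1 hk0 hk1
  have h2 := old_sound ho hX (by norm_num) (by norm_num) he h0 hw hw0 hw1 hxw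
  rw [UU_uu] at hG
  rw [hC, hC', hBe, hA, sub_div]
  linarith only [hG, h1, h2]

open NumI (V) in
theorem k2n_one_a1_0 : chk [nE 28 18 215 31416 3850] 30 [V.of 10000 (-985) (180) 0, V.of 10000 (-985) (180) 0] = true := by decide +kernel

theorem k2o_one_a1_0 : oldOK 8000 (-300) (0) 2450 2 0 1800 200 = true := by decide +kernel

open NumI (V) in
theorem k2n_one_a2_0 : chk [nE 28 18 215 12860 5370] 30 [V.of 10000 (-985) (180) 0, V.of 10000 (-985) (180) 0] = true := by decide +kernel

theorem k2o_one_a2_0 : oldOK 8000 (-2039) (1306) 3970 3 0 1800 200 = true := by decide +kernel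

open NumI (V) in
theorem k2n_one_b_0 : chk [nE 28 18 215 21420 4800] 30 [V.of 10000 (-985) (180) 0, V.of 10000 (-985) (180) 0] = true := by decide +kernel

theorem k2o_one_b_0 : oldOK 8000 (2192) (-1019) 3400 3 1800 10000 200 = true := by decide +kernel

open NumI (V) in
theorem k2n_two_0 : chk [nE 28 25 215 15710 5200] 30 [V.of 10000 (-985) (180) 0, V.of 10000 (-410) (410) 0] = true := by decide +kernel

theorem k2o_two_0 : oldOK 8000 (848) (-148) 3800 3 0 10000 200 = true := by decide +kernel

open NumI (V) in
theorem k2n_twoE_0 : chk [nE 28 22 215 22620 4700] 30 [V.of 10000 (-985) (180) 0, V.of 10000 (-850) (-450) 0] = true := by decide +kernel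

theorem k2o_twoE_0 : oldOK 8000 (1545) (0) 3300 3 0 10000 200 = true := by decide +kernel

open NumI (V) in
theorem k2n_threeA_a_0 : chk [nE 28 15 215 8510 4900] 30 [V.of 10000 (-985) (180) 0, V.of 10000 (-50) (570) 0] = true := by decide +kernel

theorem k2o_threeA_a_0 : oldOK 8000 (992) (-227) 3500 3 0 1600 200 = true := by decide +kernel

open NumI (V) in
theorem k2n_threeA_b_0 : chk [nE 28 15 215 5650 4800] 30 [V.of 10000 (-985) (180) 0, V.of 10000 (-50) (570) 0] = true := by decide +kernel

theorem k2o_threeA_b_0 : oldOK 8000 (2578) (-1106) 3400 3 1600 10000 200 = true := by decide +kernel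

open NumI (V) in
theorem k2n_threeK_0 : chk [nE 28 18 215 14120 5100] 30 [V.of 10000 (-985) (180) 0, V.of 10000 (-50) (570) 0] = true := by decide +kernel

theorem k2o_threeK_0 : oldOK 8000 (112) (97) 3700 3 0 10000 200 = true := by decide +kernel

open NumI (V) in
theorem k2n_threeE_0 : chk [nE 28 22 215 12150 5100] 30 [V.of 10000 (-985) (180) 0, V.of 10000 (-130) (260) 0] = true := by decide +kernel

theorem k2o_threeE_0 : oldOK 8000 (1345) (0) 3700 3 0 10000 200 = true := by decide +kernel

open NumI (V) in
theorem k2n_ring_a_0 : chk [nE 28 18 215 16780 5200] 30 [V.of 10000 (-985) (180) 0, V.of 10000 (100) (960) 0] = true := by decide +kernel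

theorem k2o_ring_a_0 : oldOK 8000 (-536) (543) 3800 3 0 1400 200 = true := by decide +kernel

open NumI (V) in
theorem k2n_ring_b_0 : chk [nE 28 18 215 13970 5200] 30 [V.of 10000 (-985) (180) 0, V.of 10000 (100) (960) 0] = true := by decide +kernel

theorem k2o_ring_b_0 : oldOK 8000 (1291) (-720) 3800 3 1400 10000 200 = true := by decide +kernel

open NumI (V) in
theorem k2n_touched_0 : chk [nE 28 20 215 23600 4500] 30 [V.of 10000 (-985) (180) 0, V.of 10000 (-985) (960) 0] = true := by decide +kernel

theorem k2o_touched_0 : oldOK 8000 (0) (0) 3100 2 0 10000 200 = true := by decide +kernel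

open NumI (V) in
theorem k2n_one_a1_1 : chk [nE 25 18 170 31416 4000] 30 [V.of 10000 (-850) (960) 0, V.of 10000 (-985) (180) 0] = true := by decide +kernel

theorem k2o_one_a1_1 : oldOK 6000 (-300) (0) 3900 2 0 1800 200 = true := by decide +kernel

open NumI (V) in
theorem k2n_one_a2_1 : chk [nE 25 18 170 12860 5450] 30 [V.of 10000 (-850) (960) 0, V.of 10000 (-985) (180) 0] = true := by decide +kernel

theorem k2o_one_a2_1 : oldOK 6000 (-2039) (1306) 5350 3 0 1800 200 = true := by decide +kernel

open NumI (V) in
theorem k2n_one_b_1 : chk [nE 25 18 170 21420 5200] 30 [V.of 10000 (-850) (960) 0, V.of 10000 (-985) (180) 0] = true := by decide +kernel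

theorem k2o_one_b_1 : oldOK 6000 (2192) (-1019) 5100 3 1800 10000 200 = true := by decide +kernel

open NumI (V) in
theorem k2n_two_1 : chk [nE 25 25 170 15710 5400] 30 [V.of 10000 (-850) (960) 0, V.of 10000 (-410) (410) 0] = true := by decide +kernel

theorem k2o_two_1 : oldOK 6000 (848) (-148) 5300 3 0 10000 200 = true := by decide +kernel

open NumI (V) in
theorem k2n_twoE_1 : chk [nE 25 22 170 22620 5000] 30 [V.of 10000 (-850) (960) 0, V.of 10000 (-850) (-450) 0] = true := by decide +kernel

theorem k2o_twoE_1 : oldOK 6000 (1545) (0) 4900 3 0 10000 200 = true := by decide +kernel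

open NumI (V) in
theorem k2n_threeA_a_1 : chk [nE 25 15 170 8510 5000] 30 [V.of 10000 (-850) (960) 0, V.of 10000 (-50) (570) 0] = true := by decide +kernel

theorem k2o_threeA_a_1 : oldOK 6000 (992) (-227) 4900 3 0 1600 200 = true := by decide +kernel

open NumI (V) in
theorem k2n_threeA_b_1 : chk [nE 25 15 170 5650 5060] 30 [V.of 10000 (-850) (960) 0, V.of 10000 (-50) (570) 0] = true := by decide +kernel

theorem k2o_threeA_b_1 : oldOK 6000 (2578) (-1106) 4960 3 1600 10000 200 = true := by decide +kernel

open NumI (V) in
theorem k2n_threeK_1 : chk [nE 25 18 170 14120 5300] 30 [V.of 10000 (-850) (960) 0, V.of 10000 (-50) (570) 0] = true := by decide +kernel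

theorem k2o_threeK_1 : oldOK 6000 (112) (97) 5200 3 0 10000 200 = true := by decide +kernel

open NumI (V) in
theorem k2n_threeE_1 : chk [nE 25 22 170 12150 5300] 30 [V.of 10000 (-850) (960) 0, V.of 10000 (-130) (260) 0] = true := by decide +kernel

theorem k2o_threeE_1 : oldOK 6000 (1345) (0) 5200 3 0 10000 200 = true := by decide +kernel

open NumI (V) in
theorem k2n_ring_a_1 : chk [nE 25 18 170 16780 5300] 30 [V.of 10000 (-850) (960) 0, V.of 10000 (100) (960) 0] = true := by decide +kernel

theorem k2o_ring_a_1 : oldOK 6000 (-536) (543) 5200 3 0 1400 200 = true := by decide +kernel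

open NumI (V) in
theorem k2n_ring_b_1 : chk [nE 25 18 170 13970 5500] 30 [V.of 10000 (-850) (960) 0, V.of 10000 (100) (960) 0] = true := by decide +kernel

theorem k2o_ring_b_1 : oldOK 6000 (1291) (-720) 5400 3 1400 10000 200 = true := by decide +kernel

open NumI (V) in
theorem k2n_touched_1 : chk [nE 25 20 170 23600 4800] 30 [V.of 10000 (-850) (960) 0, V.of 10000 (-985) (960) 0] = true := by decide +kernel

theorem k2o_touched_1 : oldOK 6000 (0) (0) 4700 2 0 10000 200 = true := by decide +kernel

theorem k2_al_one (Cc : Cl) (x : ℝ) : al .two .one Cc x = 14 / 100 := rfl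

theorem k2_al {B : Cl} (hB : B ≠ .one) (Cc : Cl) (x : ℝ) : al .two B Cc x = 1 / 100 := by
  cases B <;> first | exact absurd rfl hB | rfl

theorem k2_cT {B : Cl} (hB : B ≠ .one) : cT .two B = 1 / 4 := by
  cases B <;> first | exact absurd rfl hB | rfl

theorem k2_be {B : Cl} (hB : B ≠ .one) : be .two B = 17 / 10 := by
  cases B <;> first | exact absurd rfl hB | rfl

theorem k2_X0 {B : Cl} (hB : B ≠ .one) : X0 .two B = 60 / 100 := by
  cases B <;> first | exact absurd rfl hB | rfl

theorem k2_box {B : Cl} : -(985 / 10000) ≤ (hbox .two B false).t0 ∧
    (hbox .two B false).t1 ≤ 96 / 1000 := by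
  cases B <;> simp only [hbox] <;> constructor <;> norm_num

theorem k2_box' {B : Cl} (hB : B ≠ .one) : -(85 / 1000) ≤ (hbox .two B false).t0 := by
  cases B <;> first | exact absurd rfl hB | (simp only [hbox]; norm_num)

/-- K2.  margins: B = one .0699, B <> one .0217 (C = one, w = .23, x = .6), the other C >= .03. -/
theorem side_two {B Cc : Cl} {C : Ct} (hC : C.ok Cc) {x w t k G : ℝ}
    (hx : X0 .two B ≤ x) (hw : 0 ≤ w) (hxw : x + w ≤ 1)
    (t0 : (hbox .two B false).t0 ≤ t) (t1 : t ≤ (hbox .two B false).t1)
    (k0 : (hbox .two Cc false).t0 ≤ k) (k1 : k ≤ (hbox .two Cc false).t1)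
    (hE : EB .two C w (-k) G) :
    al .two B Cc x ≤ V2 ⟨cT .two B, t⟩ ⟨cN C, k⟩ - V2 ⟨x, 0⟩ ⟨w, 0⟩ + G + be .two B * t := by
  by_cases hB : B = .one
  · subst hB
    rw [k2_al_one]
    have e1 : cT .two .one = 28 / 100 := rfl
    have e2 : be .two .one = 215 / 100 := rfl
    have e3 : X0 .two .one = 80 / 100 := rfl
    rw [e1, e2]
    rw [e3] at hx
    simp only [hbox] at t0 t1
    have hw1 : w ≤ 1 := by linarith only [hxw, hx]
    cases C with
    | one =>
      have hC : Cc = .one := hC
      subst hC
      simp only [hbox] at k0 k1
      simp only [EB] at hE
      simp only [cN]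
      rcases le_total w (9 / 50) with h | h
      · rcases hE.1 h with hE | hE
        · exact k2_gen k2n_one_a1_0 k2o_one_a1_0 (by norm_num) (by norm_num) (by norm_num) (by norm_num)
            (by norm_num) (by norm_num) (by norm_num; linarith only [hx]) hw (by norm_num; linarith only [hw])
            (by norm_num; linarith only [h]) hxw (by norm_num; linarith only [t0]) (by norm_num; linarith only [t1])
            (by norm_num; linarith only [k0]) (by norm_num; linarith only [k1]) (by norm_num; linarith only [hE])
        · exact k2_gen k2n_one_a2_0 k2o_one_a2_0 (by norm_num) (by norm_num) (by norm_num) (by norm_num)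
            (by norm_num) (by norm_num) (by norm_num; linarith only [hx]) hw (by norm_num; linarith only [hw])
            (by norm_num; linarith only [h]) hxw (by norm_num; linarith only [t0]) (by norm_num; linarith only [t1])
            (by norm_num; linarith only [k0]) (by norm_num; linarith only [k1]) (by norm_num; linarith only [hE])
      · have hE := hE.2 h
        exact k2_gen k2n_one_b_0 k2o_one_b_0 (by norm_num) (by norm_num) (by norm_num) (by norm_num)
            (by norm_num) (by norm_num) (by norm_num; linarith only [hx]) hw (by norm_num; linarith only [h])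
            (by norm_num; linarith only [hxw, hx]) hxw (by norm_num; linarith only [t0]) (by norm_num; linarith only [t1])
            (by norm_num; linarith only [k0]) (by norm_num; linarith only [k1]) (by norm_num; linarith only [hE])
    | two =>
      have hC : Cc = .two := hC
      subst hC
      simp only [hbox] at k0 k1
      simp only [EB] at hE
      simp only [cN]
      exact k2_gen k2n_two_0 k2o_two_0 (by norm_num) (by norm_num) (by norm_num) (by norm_num)
            (by norm_num) (by norm_num) (by norm_num; linarith only [hx]) hw (by norm_num; linarith only [hw])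
            (by norm_num; linarith only [hxw, hx]) hxw (by norm_num; linarith only [t0]) (by norm_num; linarith only [t1])
            (by norm_num; linarith only [k0]) (by norm_num; linarith only [k1]) (by norm_num; linarith only [hE])
    | twoE =>
      have hC : Cc = .twoE := hC
      subst hC
      simp only [hbox] at k0 k1
      simp only [EB] at hE
      simp only [cN]
      exact k2_gen k2n_twoE_0 k2o_twoE_0 (by norm_num) (by norm_num) (by norm_num) (by norm_num)
            (by norm_num) (by norm_num) (by norm_num; linarith only [hx]) hw (by norm_num; linarith only [hw])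
            (by norm_num; linarith only [hxw, hx]) hxw (by norm_num; linarith only [t0]) (by norm_num; linarith only [t1])
            (by norm_num; linarith only [k0]) (by norm_num; linarith only [k1]) (by norm_num; linarith only [hE])
    | threeA =>
      have hC : Cc = .three := hC
      subst hC
      simp only [hbox] at k0 k1
      simp only [EB] at hE
      simp only [cN]
      rcases le_total w (4 / 25) with h | h
      · have hE := hE.1 h
        exact k2_gen k2n_threeA_a_0 k2o_threeA_a_0 (by norm_num) (by norm_num) (by norm_num) (by norm_num)
            (by norm_num) (by norm_num) (by norm_num; linarith only [hx]) hw (by norm_num; linarith only [hw])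
            (by norm_num; linarith only [h]) hxw (by norm_num; linarith only [t0]) (by norm_num; linarith only [t1])
            (by norm_num; linarith only [k0]) (by norm_num; linarith only [k1]) (by norm_num; linarith only [hE])
      · have hE := hE.2 h
        exact k2_gen k2n_threeA_b_0 k2o_threeA_b_0 (by norm_num) (by norm_num) (by norm_num) (by norm_num)
            (by norm_num) (by norm_num) (by norm_num; linarith only [hx]) hw (by norm_num; linarith only [h])
            (by norm_num; linarith only [hxw, hx]) hxw (by norm_num; linarith only [t0]) (by norm_num; linarith only [t1])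
            (by norm_num; linarith only [k0]) (by norm_num; linarith only [k1]) (by norm_num; linarith only [hE])
    | threeK =>
      have hC : Cc = .three := hC
      subst hC
      simp only [hbox] at k0 k1
      simp only [EB] at hE
      simp only [cN]
      exact k2_gen k2n_threeK_0 k2o_threeK_0 (by norm_num) (by norm_num) (by norm_num) (by norm_num)
            (by norm_num) (by norm_num) (by norm_num; linarith only [hx]) hw (by norm_num; linarith only [hw])
            (by norm_num; linarith only [hxw, hx]) hxw (by norm_num; linarith only [t0]) (by norm_num; linarith only [t1])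
            (by norm_num; linarith only [k0]) (by norm_num; linarith only [k1]) (by norm_num; linarith only [hE])
    | threeE =>
      have hC : Cc = .threeE := hC
      subst hC
      simp only [hbox] at k0 k1
      simp only [EB] at hE
      simp only [cN]
      exact k2_gen k2n_threeE_0 k2o_threeE_0 (by norm_num) (by norm_num) (by norm_num) (by norm_num)
            (by norm_num) (by norm_num) (by norm_num; linarith only [hx]) hw (by norm_num; linarith only [hw])
            (by norm_num; linarith only [hxw, hx]) hxw (by norm_num; linarith only [t0]) (by norm_num; linarith only [t1])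
            (by norm_num; linarith only [k0]) (by norm_num; linarith only [k1]) (by norm_num; linarith only [hE])
    | ring =>
      have hC : Cc = .ring := hC
      subst hC
      simp only [hbox] at k0 k1
      simp only [EB] at hE
      simp only [cN]
      rcases le_total w (7 / 50) with h | h
      · have hE := hE.1 h
        exact k2_gen k2n_ring_a_0 k2o_ring_a_0 (by norm_num) (by norm_num) (by norm_num) (by norm_num)
            (by norm_num) (by norm_num) (by norm_num; linarith only [hx]) hw (by norm_num; linarith only [hw])
            (by norm_num; linarith only [h]) hxw (by norm_num; linarith only [t0]) (by norm_num; linarith only [t1])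
            (by norm_num; linarith only [k0]) (by norm_num; linarith only [k1]) (by norm_num; linarith only [hE])
      · have hE := hE.2 h
        exact k2_gen k2n_ring_b_0 k2o_ring_b_0 (by norm_num) (by norm_num) (by norm_num) (by norm_num)
            (by norm_num) (by norm_num) (by norm_num; linarith only [hx]) hw (by norm_num; linarith only [h])
            (by norm_num; linarith only [hxw, hx]) hxw (by norm_num; linarith only [t0]) (by norm_num; linarith only [t1])
            (by norm_num; linarith only [k0]) (by norm_num; linarith only [k1]) (by norm_num; linarith only [hE])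
    | touched =>
      obtain ⟨b0, b1⟩ := k2_box (B := Cc)
      simp only [EB] at hE
      simp only [cN]
      exact k2_gen k2n_touched_0 k2o_touched_0 (by norm_num) (by norm_num) (by norm_num) (by norm_num)
            (by norm_num) (by norm_num) (by norm_num; linarith only [hx]) hw (by norm_num; linarith only [hw])
            (by norm_num; linarith only [hxw, hx]) hxw (by norm_num; linarith only [t0]) (by norm_num; linarith only [t1])
            (by norm_num; linarith only [k0, b0]) (by norm_num; linarith only [k1, b1]) (by norm_num; linarith only [hE])
  · rw [k2_al hB, k2_cT hB, k2_be hB]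
    rw [k2_X0 hB] at hx
    have t0 := (k2_box' hB).trans t0
    have t1 := t1.trans k2_box.2
    have hw1 : w ≤ 1 := by linarith only [hx, hxw]
    cases C with
    | one =>
      have hC : Cc = .one := hC
      subst hC
      simp only [hbox] at k0 k1
      simp only [EB] at hE
      simp only [cN]
      rcases le_total w (9 / 50) with h | h
      · rcases hE.1 h with hE | hE
        · exact k2_gen k2n_one_a1_1 k2o_one_a1_1 (by norm_num) (by norm_num) (by norm_num) (by norm_num)
            (by norm_num) (by norm_num) (by norm_num; linarith only [hx]) hw (by norm_num; linarith only [hw])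
            (by norm_num; linarith only [h]) hxw (by norm_num; linarith only [t0]) (by norm_num; linarith only [t1])
            (by norm_num; linarith only [k0]) (by norm_num; linarith only [k1]) (by norm_num; linarith only [hE])
        · exact k2_gen k2n_one_a2_1 k2o_one_a2_1 (by norm_num) (by norm_num) (by norm_num) (by norm_num)
            (by norm_num) (by norm_num) (by norm_num; linarith only [hx]) hw (by norm_num; linarith only [hw])
            (by norm_num; linarith only [h]) hxw (by norm_num; linarith only [t0]) (by norm_num; linarith only [t1])
            (by norm_num; linarith only [k0]) (by norm_num; linarith only [k1]) (by norm_num; linarith only [hE])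
      · have hE := hE.2 h
        exact k2_gen k2n_one_b_1 k2o_one_b_1 (by norm_num) (by norm_num) (by norm_num) (by norm_num)
            (by norm_num) (by norm_num) (by norm_num; linarith only [hx]) hw (by norm_num; linarith only [h])
            (by norm_num; linarith only [hx, hxw]) hxw (by norm_num; linarith only [t0]) (by norm_num; linarith only [t1])
            (by norm_num; linarith only [k0]) (by norm_num; linarith only [k1]) (by norm_num; linarith only [hE])
    | two =>
      have hC : Cc = .two := hC
      subst hC
      simp only [hbox] at k0 k1
      simp only [EB] at hE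
      simp only [cN]
      exact k2_gen k2n_two_1 k2o_two_1 (by norm_num) (by norm_num) (by norm_num) (by norm_num)
            (by norm_num) (by norm_num) (by norm_num; linarith only [hx]) hw (by norm_num; linarith only [hw])
            (by norm_num; linarith only [hx, hxw]) hxw (by norm_num; linarith only [t0]) (by norm_num; linarith only [t1])
            (by norm_num; linarith only [k0]) (by norm_num; linarith only [k1]) (by norm_num; linarith only [hE])
    | twoE =>
      have hC : Cc = .twoE := hC
      subst hC
      simp only [hbox] at k0 k1
      simp only [EB] at hE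
      simp only [cN]
      exact k2_gen k2n_twoE_1 k2o_twoE_1 (by norm_num) (by norm_num) (by norm_num) (by norm_num)
            (by norm_num) (by norm_num) (by norm_num; linarith only [hx]) hw (by norm_num; linarith only [hw])
            (by norm_num; linarith only [hx, hxw]) hxw (by norm_num; linarith only [t0]) (by norm_num; linarith only [t1])
            (by norm_num; linarith only [k0]) (by norm_num; linarith only [k1]) (by norm_num; linarith only [hE])
    | threeA =>
      have hC : Cc = .three := hC
      subst hC
      simp only [hbox] at k0 k1
      simp only [EB] at hE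
      simp only [cN]
      rcases le_total w (4 / 25) with h | h
      · have hE := hE.1 h
        exact k2_gen k2n_threeA_a_1 k2o_threeA_a_1 (by norm_num) (by norm_num) (by norm_num) (by norm_num)
            (by norm_num) (by norm_num) (by norm_num; linarith only [hx]) hw (by norm_num; linarith only [hw])
            (by norm_num; linarith only [h]) hxw (by norm_num; linarith only [t0]) (by norm_num; linarith only [t1])
            (by norm_num; linarith only [k0]) (by norm_num; linarith only [k1]) (by norm_num; linarith only [hE])
      · have hE := hE.2 h
        exact k2_gen k2n_threeA_b_1 k2o_threeA_b_1 (by norm_num) (by norm_num) (by norm_num) (by norm_num)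
            (by norm_num) (by norm_num) (by norm_num; linarith only [hx]) hw (by norm_num; linarith only [h])
            (by norm_num; linarith only [hx, hxw]) hxw (by norm_num; linarith only [t0]) (by norm_num; linarith only [t1])
            (by norm_num; linarith only [k0]) (by norm_num; linarith only [k1]) (by norm_num; linarith only [hE])
    | threeK =>
      have hC : Cc = .three := hC
      subst hC
      simp only [hbox] at k0 k1
      simp only [EB] at hE
      simp only [cN]
      exact k2_gen k2n_threeK_1 k2o_threeK_1 (by norm_num) (by norm_num) (by norm_num) (by norm_num)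
            (by norm_num) (by norm_num) (by norm_num; linarith only [hx]) hw (by norm_num; linarith only [hw])
            (by norm_num; linarith only [hx, hxw]) hxw (by norm_num; linarith only [t0]) (by norm_num; linarith only [t1])
            (by norm_num; linarith only [k0]) (by norm_num; linarith only [k1]) (by norm_num; linarith only [hE])
    | threeE =>
      have hC : Cc = .threeE := hC
      subst hC
      simp only [hbox] at k0 k1
      simp only [EB] at hE
      simp only [cN]
      exact k2_gen k2n_threeE_1 k2o_threeE_1 (by norm_num) (by norm_num) (by norm_num) (by norm_num)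
            (by norm_num) (by norm_num) (by norm_num; linarith only [hx]) hw (by norm_num; linarith only [hw])
            (by norm_num; linarith only [hx, hxw]) hxw (by norm_num; linarith only [t0]) (by norm_num; linarith only [t1])
            (by norm_num; linarith only [k0]) (by norm_num; linarith only [k1]) (by norm_num; linarith only [hE])
    | ring =>
      have hC : Cc = .ring := hC
      subst hC
      simp only [hbox] at k0 k1
      simp only [EB] at hE
      simp only [cN]
      rcases le_total w (7 / 50) with h | h
      · have hE := hE.1 h
        exact k2_gen k2n_ring_a_1 k2o_ring_a_1 (by norm_num) (by norm_num) (by norm_num) (by norm_num)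
            (by norm_num) (by norm_num) (by norm_num; linarith only [hx]) hw (by norm_num; linarith only [hw])
            (by norm_num; linarith only [h]) hxw (by norm_num; linarith only [t0]) (by norm_num; linarith only [t1])
            (by norm_num; linarith only [k0]) (by norm_num; linarith only [k1]) (by norm_num; linarith only [hE])
      · have hE := hE.2 h
        exact k2_gen k2n_ring_b_1 k2o_ring_b_1 (by norm_num) (by norm_num) (by norm_num) (by norm_num)
            (by norm_num) (by norm_num) (by norm_num; linarith only [hx]) hw (by norm_num; linarith only [h])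
            (by norm_num; linarith only [hx, hxw]) hxw (by norm_num; linarith only [t0]) (by norm_num; linarith only [t1])
            (by norm_num; linarith only [k0]) (by norm_num; linarith only [k1]) (by norm_num; linarith only [hE])
    | touched =>
      obtain ⟨b0, b1⟩ := k2_box (B := Cc)
      simp only [EB] at hE
      simp only [cN]
      exact k2_gen k2n_touched_1 k2o_touched_1 (by norm_num) (by norm_num) (by norm_num) (by norm_num)
            (by norm_num) (by norm_num) (by norm_num; linarith only [hx]) hw (by norm_num; linarith only [hw])
            (by norm_num; linarith only [hx, hxw]) hxw (by norm_num; linarith only [t0]) (by norm_num; linarith only [t1])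
            (by norm_num; linarith only [k0, b0]) (by norm_num; linarith only [k1, b1]) (by norm_num; linarith only [hE])

end TL

end Pool.Agent.Work.MP_b30479_gt.G2
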