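import Pool.Agent.Work.MP_b30479_gt.G2.TE3a

/-!
# Tails, sides of a digit `2`: tools
-/

namespace Pool.Agent.Work.MP_b30479_gt.G2

open VOL NumU

namespace TL

/-! ### real values -/

/-- on the real axis `uu` increases between `1/6` and `5/6` -/
theorem uu_real_mono {a b : ℝ} (h0 : 1 / 6 ≤ a) (h1 : a ≤ b) (h2 : b ≤ 5 / 6) :
    uu a 0 ≤ uu b 0 := by
  have hpi := Real.pi_pos
  have hm : MonotoneOn (fun x => uu x 0) (Set.Icc (1 / 6) (5 / 6)) := by
    apply monotoneOn_of_deriv_nonneg (convex_Icc _ _) cont_uu_real.continuousOn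
    · intro s hs
      rw [interior_Icc] at hs
      exact (uu_real_deriv (by linarith only [hs, hs.1])
        (by linarith only [hs, hs.2])).differentiableAt.differentiableWithinAt
    · intro s hs
      rw [interior_Icc] at hs
      rw [(uu_real_deriv (by linarith only [hs, hs.1]) (by linarith only [hs, hs.2])).deriv]
      apply Real.log_nonneg
      have : 1 / 2 ≤ Real.sin (Real.pi * s) := by
        rw [← Real.sin_pi_div_six]
        rcases le_total s (1 / 2) with h | h
        · apply Real.sin_le_sin_of_le_of_le_pi_div_two <;> nlinarith only [hpi, h, hs, hs.1]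
        · rw [← Real.sin_pi_sub (Real.pi * s)]
          apply Real.sin_le_sin_of_le_of_le_pi_div_two <;> nlinarith only [hpi, h, hs, hs.2]
      linarith only [this]
  exact hm ⟨h0, by linarith only [h1, h2]⟩ ⟨by linarith only [h0, h1], h2⟩ h1

/-- on the real axis `uu` decreases between `0` and `1/6` -/
theorem uu_real_anti {a b : ℝ} (h0 : 0 ≤ a) (h1 : a ≤ b) (h2 : b ≤ 1 / 6) :
    uu b 0 ≤ uu a 0 := by
  have hpi := Real.pi_pos
  have hm : AntitoneOn (fun x => uu x 0) (Set.Icc 0 (1 / 6)) := by
    apply antitoneOn_of_deriv_nonpos (convex_Icc _ _) cont_uu_real.continuousOn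
    · intro s hs
      rw [interior_Icc] at hs
      exact (uu_real_deriv (by linarith only [hs, hs.1])
        (by linarith only [hs, hs.2])).differentiableAt.differentiableWithinAt
    · intro s hs
      rw [interior_Icc] at hs
      rw [(uu_real_deriv (by linarith only [hs, hs.1]) (by linarith only [hs, hs.2])).deriv]
      have h3 : Real.sin (Real.pi * s) ≤ 1 / 2 := by
        rw [← Real.sin_pi_div_six]
        apply Real.sin_le_sin_of_le_of_le_pi_div_two <;> nlinarith only [hpi, hs, hs.1, hs.2]
      have h4 : 0 ≤ Real.sin (Real.pi * s) := by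
        apply Real.sin_nonneg_of_nonneg_of_le_pi <;> nlinarith only [hpi, hs, hs.1, hs.2]
      exact Real.log_nonpos (by linarith only [h4]) (by linarith only [h3])
  exact hm ⟨h0, by linarith only [h1, h2]⟩ ⟨by linarith only [h0, h1], h2⟩ h1

/-- on the real axis `uu` decreases between `5/6` and `1` -/
theorem uu_real_anti1 {a b : ℝ} (h0 : 5 / 6 ≤ a) (h1 : a ≤ b) (h2 : b ≤ 1) :
    uu b 0 ≤ uu a 0 := by
  have h := uu_real_anti (a := 1 - b) (b := 1 - a) (by linarith only [h2]) (by linarith only [h1]) (by linarith only [h0])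
  rw [uu_one_sub, uu_one_sub] at h
  linarith only [h]

theorem V2_uu (x t y k : ℝ) : V2 ⟨x, t⟩ ⟨y, k⟩ =
    uu (x + y) (t + k) - Real.pi * ((x - y) * (t - k) + 1 / 2 * (t + k)) -
      2 * (uu x t + uu y k) := by
  unfold V2
  simp only [UU_uu, Complex.add_re, Complex.add_im, Complex.sub_re, Complex.sub_im, pow_two,
    Complex.mul_im]
  ring

theorem V2_real (x y : ℝ) : V2 ⟨x, 0⟩ ⟨y, 0⟩ = uu (x + y) 0 - 2 * uu x 0 - 2 * uu y 0 := by
  rw [V2_uu]
  rw [show (0 : ℝ) + 0 = 0 by ring]
  ring

/-- the real value of a digit `2` decreases in a hinge between `1/2` and `5/6` -/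
theorem V2_old_left {X x w : ℝ} (hX : 1 / 2 ≤ X) (hx : X ≤ x) (h5 : x ≤ 5 / 6) (hw : 0 ≤ w)
    (hxw : x + w ≤ 1) : uu (x + w) 0 - 2 * uu x 0 ≤ uu (X + w) 0 - 2 * uu X 0 := by
  have h1 := uu_incr_real (w := 1 - x - w) (w0 := 1 - X - w) (X := w) (by linarith only [hxw]) (by linarith only [hx])
    hw (by linarith only [hX, hw])
  have h2 := uu_real_mono (a := X) (b := x) (by linarith only [hX]) hx h5
  rw [show 1 - X - w = 1 - (X + w) by ring, show 1 - x - w = 1 - (x + w) by ring,
    uu_one_sub, uu_one_sub, show 1 - (X + w) + w = 1 - X by ring,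
    show 1 - (x + w) + w = 1 - x by ring, uu_one_sub, uu_one_sub] at h1
  linarith only [h1, h2]

theorem V2_old_right {x w : ℝ} (h5 : 5 / 6 ≤ x) (hw : 0 ≤ w) (hxw : x + w ≤ 1) :
    uu (x + w) 0 - 2 * uu x 0 - 2 * uu w 0 ≤ -uu w 0 := by
  have h1 := uu_real_anti1 (a := x) (b := x + w) h5 (by linarith only [hw]) hxw
  have h2 := uu_real_anti (a := w) (b := 1 - x) hw (by linarith only [hxw]) (by linarith only [h5])
  rw [uu_one_sub] at h2
  linarith only [h1, h2]

/-! ### rows -/

/-- old position, a hinge at `X / 10000` -/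
def oE (X a0 a1 o e : ℤ) (xw w : E) : E :=
  .sub (.add (.q o 10000) (.add (.q a0 10000) (.mul (.q a1 1000) (.var 0))))
    (.sub (.sub (.uu xw (.q 0 1)) (.mul (.q 2 1) (.uu (.q X 10000) (.q 0 1))))
      (.mul (.q e 1) (.uu w (.q 0 1))))

/-- old position, a hinge to the right of `5 / 6` -/
def pE (a0 a1 o e : ℤ) (w : E) : E :=
  .add (.add (.q o 10000) (.add (.q a0 10000) (.mul (.q a1 1000) (.var 0))))
    (.mul (.q e 1) (.uu w (.q 0 1)))

open NumI (V) in
def oldOK (X a0 a1 o e wl wh d : ℤ) : Bool :=
  (decide (d < wl) || chk [oE X a0 a1 o e (.add (.q X 10000) (.var 0)) (.q d 10000)] 30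
    [V.of 10000 wl d 0]) &&
  (chk [oE X a0 a1 o e (.add (.q X 10000) (.var 0)) (.var 0)] 30
    [V.of 10000 (max wl d) (min wh (10000 - X - d)) 0] &&
  ((decide (wh < 10000 - X - d) || chk [oE X a0 a1 o e (.add (.q (X - d) 10000) (.var 0)) (.var 0)]
    30 [V.of 10000 (10000 - X - d) (10000 - X) 0]) &&
  ((decide (d < wl) || chk [pE a0 a1 o (e - 1) (.q d 10000)] 30 [V.of 10000 wl d 0]) &&
  (decide (1667 < wl) || chk [pE a0 a1 o (e - 1) (.var 0)] 30
    [V.of 10000 (max wl d) (min wh 1667) 0]))))

theorem old_sound {X a0 a1 o e wl wh d : ℤ} (h : oldOK X a0 a1 o e wl wh d = true)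
    (hX : 5000 ≤ X) (hd : 0 < d) (hd' : d ≤ 800) (he : 1 ≤ e) {x w : ℝ}
    (h0 : (X : ℝ) / 10000 ≤ x) (hw : 0 ≤ w) (hw0 : (wl : ℝ) / 10000 ≤ w)
    (hw1 : w ≤ (wh : ℝ) / 10000) (hxw : x + w ≤ 1) :
    V2 ⟨x, 0⟩ ⟨w, 0⟩ - (e - 2) * uu w 0 - ((a0 : ℝ) / 10000 + (a1 : ℝ) / 1000 * w) ≤
      (o : ℝ) / 10000 := by
  have hX' : (5000 : ℝ) ≤ X := by exact_mod_cast hX
  have hd1 : (0 : ℝ) < d := by exact_mod_cast hd
  have hd2 : (d : ℝ) ≤ 800 := by exact_mod_cast hd'
  have he' : (1 : ℝ) ≤ e := by exact_mod_cast he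
  unfold oldOK at h
  simp only [Bool.and_eq_true, Bool.or_eq_true, decide_eq_true_eq] at h
  obtain ⟨c1, c2, c3, c4, c5⟩ := h
  rw [V2_real]
  rcases le_total x (5 / 6) with h5 | h5
  · have hv := V2_old_left (X := (X : ℝ) / 10000) (by linarith only [hX']) h0 h5 hw hxw
    rcases le_total w ((d : ℝ) / 10000) with hs | hs
    · have c1 : NumU.chk _ _ _ = true := c1.resolve_left (by
        intro hc
        have : (d : ℝ) < wl := by exact_mod_cast hc
        linarith only [hw0, hs, this])
      have hp := pos_of_chk (chk1 c1 (by norm_num) (x := w) (by push_cast; linarith only [hw0])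
        (by push_cast; linarith only [hs]))
      have ha := uu_real_anti (a := w) (b := (d : ℝ) / 10000) hw hs (by linarith only [hd2])
      simp only [oE, E.val, NumI.lkR] at hp
      push_cast at hp
      norm_num at hp
      have := mul_le_mul_of_nonneg_left ha (by linarith only [he'] : (0 : ℝ) ≤ e)
      linarith only [hv, hp, this]
    · rcases le_total w ((10000 - X - d : ℝ) / 10000) with hr | hr
      · have hp := pos_of_chk (chk1 c2 (by norm_num) (x := w)
          (by
            push_cast
            rw [div_le_iff₀ (by norm_num)]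
            rw [div_le_iff₀ (by norm_num)] at hw0 hs
            exact max_le hw0 hs)
          (by
            push_cast
            rw [le_div_iff₀ (by norm_num)]
            rw [le_div_iff₀ (by norm_num)] at hw1 hr
            exact le_min hw1 hr))
        simp only [oE, E.val, NumI.lkR] at hp
        push_cast at hp
        norm_num at hp
        linarith only [hv, hp]
      · have c3 : NumU.chk _ _ _ = true := c3.resolve_left (by
          intro hc
          have : (wh : ℝ) < 10000 - X - d := by exact_mod_cast hc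
          linarith only [hw1, hr, this])
        have hp := pos_of_chk (chk1 c3 (by norm_num) (x := w) (by push_cast; linarith only [hr])
          (by push_cast; linarith only [h0, hxw]))
        have ha := uu_real_anti1 (a := (X : ℝ) / 10000 + w - (d : ℝ) / 10000)
          (b := (X : ℝ) / 10000 + w) (by linarith only [hd2, hr]) (by linarith only [hd1]) (by linarith only [h0, hxw])
        simp only [oE, E.val, NumI.lkR] at hp
        push_cast at hp
        norm_num at hp
        rw [show ((X : ℝ) - d) / 10000 + w = (X : ℝ) / 10000 + w - (d : ℝ) / 10000 by ring] at hp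
        linarith only [hv, ha, hp]
  · have hv := V2_old_right h5 hw hxw
    rcases le_total w ((d : ℝ) / 10000) with hs | hs
    · have c4 : NumU.chk _ _ _ = true := c4.resolve_left (by
        intro hc
        have : (d : ℝ) < wl := by exact_mod_cast hc
        linarith only [hw0, hs, this])
      have hp := pos_of_chk (chk1 c4 (by norm_num) (x := w) (by push_cast; linarith only [hw0])
        (by push_cast; linarith only [hs]))
      have ha := uu_real_anti (a := w) (b := (d : ℝ) / 10000) hw hs (by linarith only [hd2])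
      simp only [pE, E.val, NumI.lkR] at hp
      push_cast at hp
      norm_num at hp
      have := mul_le_mul_of_nonneg_left ha (by linarith only [he'] : (0 : ℝ) ≤ (e : ℝ) - 1)
      linarith only [hv, hp, this]
    · have c5 : NumU.chk _ _ _ = true := c5.resolve_left (by
        intro hc
        have : (1667 : ℝ) < wl := by exact_mod_cast hc
        linarith only [hw0, hxw, h5, this])
      have hp := pos_of_chk (chk1 c5 (by norm_num) (x := w)
          (by
            push_cast
            rw [div_le_iff₀ (by norm_num)]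
            rw [div_le_iff₀ (by norm_num)] at hw0 hs
            exact max_le hw0 hs)
          (by
            push_cast
            rw [le_div_iff₀ (by norm_num)]
            rw [le_div_iff₀ (by norm_num)] at hw1
            exact le_min hw1 (by linarith only [hxw, h5])))
      simp only [pE, E.val, NumI.lkR] at hp
      push_cast at hp
      norm_num at hp
      linarith only [hv, hp]

/-- new position -/
def nE (c c' be ck n0 : ℤ) : E :=
  .sub (.add (.sub (.sub (.uu (.q (c + c') 100) (.add (.var 0) (.var 1)))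
    (.mul .pi (.add (.mul (.q (c - c') 100) (.sub (.var 0) (.var 1)))
      (.mul (.q 1 2) (.add (.var 0) (.var 1))))))
    (.mul (.q 2 1) (.add (.uu (.q c 100) (.var 0)) (.uu (.q c' 100) (.var 1)))))
    (.add (.mul (.q be 100) (.var 0)) (.mul (.q ck 10000) (.var 1)))) (.q n0 10000)

open NumI (V) in
theorem new_sound {c c' be ck n0 t0 t1 k0 k1 : ℤ}
    (h : chk [nE c c' be ck n0] 30 [V.of 10000 t0 t1 0, V.of 10000 k0 k1 0] = true) {t k : ℝ}
    (h0 : (t0 : ℝ) / 10000 ≤ t) (h1 : t ≤ (t1 : ℝ) / 10000) (h2 : (k0 : ℝ) / 10000 ≤ k)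
    (h3 : k ≤ (k1 : ℝ) / 10000) :
    (n0 : ℝ) / 10000 < V2 ⟨(c : ℝ) / 100, t⟩ ⟨(c' : ℝ) / 100, k⟩ + (be : ℝ) / 100 * t +
      (ck : ℝ) / 10000 * k := by
  have hp := pos_of_chk (chk2 h (by norm_num) (x := t) (y := k) (by push_cast; linarith only [h0])
    (by push_cast; linarith only [h1]) (by push_cast; linarith only [h2]) (by push_cast; linarith only [h3]))
  simp only [nE, E.val, NumI.lkR] at hp
  push_cast at hp
  rw [V2_uu]
  rw [show (c : ℝ) / 100 + (c' : ℝ) / 100 = ((c : ℝ) + c') / 100 by ring,
    show (c : ℝ) / 100 - (c' : ℝ) / 100 = ((c : ℝ) - c') / 100 by ring]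
  linarith only [hp]

end TL

end Pool.Agent.Work.MP_b30479_gt.G2
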