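import Pool.Agent.Work.MP_b30479_gt.G2.TK3a

/-!
# Tails, sides of an interior digit `3`, the hinge in the tail is not next to a digit `1`
-/

namespace Pool.Agent.Work.MP_b30479_gt.G2

open VOL SR NumU

namespace TL

namespace K3

open NumI (V) in
/-- slot `0` in the tail -/
theorem gen0 {c' ck a0 a1 e wl wh n0 k0 k1 : ℤ} {c : ℕ}
    (hn : chkT [nE3 25 42 c' 17000 ck n0] 34 c
      [V.of 10000 (-980) 570, V.of 10000 (-1230) 50, V.of 10000 k0 k1] = true)
    (ho : (wOK a0 a1 (n0 - 200 - 1179) e wl wh &&
      (decide (700 < wl) || wOK a0 a1 (n0 - 200 - 1791) e wl 700)) = true) (he : 2 ≤ e)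
    {x l w t m k G C' : ℝ} (hC' : C' = (c' : ℝ) / 100)
    (hx : 60 / 100 ≤ x) (hxl : x ≤ l) (hw : 0 ≤ w) (hlw : l + w ≤ 1)
    (hw0 : (wl : ℝ) / 10000 ≤ w) (hw1 : w ≤ (wh : ℝ) / 10000)
    (ht0 : -(98 / 1000) ≤ t) (ht1 : t ≤ 57 / 1000)
    (hm0 : -(123 / 1000) ≤ m) (hm1 : m ≤ 5 / 1000) (hk0 : (k0 : ℝ) / 10000 ≤ k)
    (hk1 : k ≤ (k1 : ℝ) / 10000)
    (hG : ((e : ℝ) - 2) * UU ⟨w, 0⟩ + ((a0 : ℝ) / 10000 + (a1 : ℝ) / 1000 * w) +
      (ck : ℝ) / 10000 * k ≤ G) :
    2 / 100 ≤ V3 ⟨1 / 4, t⟩ ⟨42 / 100, m⟩ ⟨C', k⟩ - V3 ⟨x, 0⟩ ⟨l, 0⟩ ⟨w, 0⟩ + G + 17 / 10 * t := by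
  have h1 := new3 hn (t := t) (m := m) (k := k) (by push_cast; linarith only [ht0]) (by push_cast; linarith only [ht1])
    (by push_cast; linarith only [hm0]) (by push_cast; linarith only [hm1]) hk0 hk1
  rw [Bool.and_eq_true, Bool.or_eq_true, decide_eq_true_eq] at ho
  obtain ⟨o1, o2⟩ := ho
  push_cast at h1
  rw [← hC', show (25 : ℝ) / 100 = 1 / 4 by norm_num] at h1
  rw [UU_uu] at hG
  simp only at hG
  rcases old0 hx hxl hw hlw with h2 | ⟨h3, h2⟩
  · have h4 := w_sound o1 (by linarith only [he]) hw hw0 hw1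
    push_cast at h4
    linarith only [hG, h1, h2, h4]
  · have o2 : wOK _ _ _ _ _ _ = true := o2.resolve_left (by
      intro hc
      have : (700 : ℝ) < wl := by exact_mod_cast hc
      linarith only [hw0, h3, this])
    have h4 := w_sound o2 (by linarith only [he]) hw hw0 (by push_cast; linarith only [h3])
    push_cast at h4
    linarith only [hG, h1, h2, h4]

open NumI (V) in
/-- slot `2` in the tail -/
theorem gen2 {c' ck a0 a1 e wl wh n0 k0 k1 : ℤ} {c : ℕ}
    (hn : chkT [nE3 c' 42 25 ck 17000 n0] 34 c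
      [V.of 10000 k0 k1, V.of 10000 (-1230) 50, V.of 10000 (-980) 570] = true)
    (ho : wOK a0 a1 (n0 - 200 - if 1600 ≤ wl then 3211 else 3498) e wl wh = true) (he : 1 ≤ e)
    {x l w t m k G C' : ℝ} (hC' : C' = (c' : ℝ) / 100)
    (hx : 60 / 100 ≤ x) (hw : 0 ≤ w) (hwl : w ≤ l) (hlx : l + x ≤ 1)
    (hw0 : (wl : ℝ) / 10000 ≤ w) (hw1 : w ≤ (wh : ℝ) / 10000)
    (ht0 : -(98 / 1000) ≤ t) (ht1 : t ≤ 57 / 1000)
    (hm0 : -(123 / 1000) ≤ m) (hm1 : m ≤ 5 / 1000) (hk0 : (k0 : ℝ) / 10000 ≤ k)
    (hk1 : k ≤ (k1 : ℝ) / 10000)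
    (hG : ((e : ℝ) - 1) * UU ⟨w, 0⟩ + ((a0 : ℝ) / 10000 + (a1 : ℝ) / 1000 * w) +
      (ck : ℝ) / 10000 * k ≤ G) :
    2 / 100 ≤ V3 ⟨C', k⟩ ⟨42 / 100, m⟩ ⟨1 / 4, t⟩ - V3 ⟨w, 0⟩ ⟨l, 0⟩ ⟨x, 0⟩ + G + 17 / 10 * t := by
  have h1 := new3 hn (t := k) (m := m) (k := t) hk0 hk1 (by push_cast; linarith only [hm0])
    (by push_cast; linarith only [hm1]) (by push_cast; linarith only [ht0]) (by push_cast; linarith only [ht1])
  push_cast at h1
  rw [← hC', show (25 : ℝ) / 100 = 1 / 4 by norm_num] at h1
  rw [UU_uu] at hG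
  simp only at hG
  obtain ⟨h2, h3⟩ := old2 hx hw hwl hlx
  have h4 := w_sound ho (by linarith only [he]) hw hw0 hw1
  split_ifs at h4 with h5
  · have h6 : (1600 : ℝ) ≤ wl := by exact_mod_cast h5
    have h7 := h3 (by linarith only [hw0, h6])
    push_cast at h4
    linarith only [hG, h1, h7, h4]
  · push_cast at h4
    linarith only [hG, h1, h2, h4]

open NumI (V) in
theorem n_one_a1_0 : chkT [nE3 25 42 18 17000 31416 5081] 34 142706704
    [V.of 10000 (-980) 570, V.of 10000 (-1230) 50, V.of 10000 (-940) (-210)] = true := by decide +kernel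

theorem o_one_a1_0 : (wOK (-90) 0 (5081 - 200 - 1179) 2 0 1600 &&
      (decide (700 < 0) || wOK (-90) 0 (5081 - 200 - 1791) 2 0 700)) = true := by decide +kernel

open NumI (V) in
theorem n_one_a1_2 : chkT [nE3 18 42 25 31416 17000 5474] 34 614778217815351314
    [V.of 10000 (-940) (-210), V.of 10000 (-1230) 50, V.of 10000 (-980) 570] = true := by decide +kernel

theorem o_one_a1_2 : wOK (-90) 0 (5474 - 200 - if (1600 : ℤ) ≤ 0 then 3211 else 3498) 1 0 1600 = true := by decide +kernel

open NumI (V) in
theorem n_one_a2_0 : chkT [nE3 25 42 18 17000 16300 6429] 34 142706704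
    [V.of 10000 (-980) 570, V.of 10000 (-1230) 50, V.of 10000 (-1145) (-210)] = true := by decide +kernel

theorem o_one_a2_0 : (wOK (-247) 293 (6429 - 200 - 1179) 3 0 1600 &&
      (decide (700 < 0) || wOK (-247) 293 (6429 - 200 - 1791) 3 0 700)) = true := by decide +kernel

open NumI (V) in
theorem n_one_a2_2 : chkT [nE3 18 42 25 16300 17000 6861] 34 10278387456729175640514578
    [V.of 10000 (-1145) (-210), V.of 10000 (-1230) 50, V.of 10000 (-980) 570] = true := by decide +kernel

theorem o_one_a2_2 : wOK (-247) 293 (6861 - 200 - if (1600 : ℤ) ≤ 0 then 3211 else 3498) 2 0 1600 = true := by decide +kernel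

open NumI (V) in
theorem n_one_b_0 : chkT [nE3 25 42 18 17000 17160 6587] 34 2395292660433424
    [V.of 10000 (-980) 570, V.of 10000 (-1230) 50, V.of 10000 (-1145) (-210)] = true := by decide +kernel

theorem o_one_b_0 : (wOK 1283 (-719) (6587 - 200 - 1179) 3 1600 4000 &&
      (decide (700 < 1600) || wOK 1283 (-719) (6587 - 200 - 1791) 3 1600 700)) = true := by decide +kernel

open NumI (V) in
theorem n_one_b_2 : chkT [nE3 18 42 25 17160 17000 6882] 34 743178727334503208733927022199184547778578
    [V.of 10000 (-1145) (-210), V.of 10000 (-1230) 50, V.of 10000 (-980) 570] = true := by decide +kernel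

theorem o_one_b_2 : wOK 1283 (-719) (6882 - 200 - if (1600 : ℤ) ≤ 1600 then 3211 else 3498) 2 1600 4000 = true := by decide +kernel

open NumI (V) in
theorem n_two_0 : chkT [nE3 25 42 25 17000 15710 6254] 34 2176
    [V.of 10000 (-980) 570, V.of 10000 (-1230) 50, V.of 10000 (-570) 50] = true := by decide +kernel

theorem o_two_0 : (wOK 848 (-148) (6254 - 200 - 1179) 3 0 4000 &&
      (decide (700 < 0) || wOK 848 (-148) (6254 - 200 - 1791) 3 0 700)) = true := by decide +kernel

open NumI (V) in
theorem n_two_2 : chkT [nE3 25 42 25 15710 17000 6695] 34 559122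
    [V.of 10000 (-570) 50, V.of 10000 (-1230) 50, V.of 10000 (-980) 570] = true := by decide +kernel

theorem o_two_2 : wOK 848 (-148) (6695 - 200 - if (1600 : ℤ) ≤ 0 then 3211 else 3498) 2 0 4000 = true := by decide +kernel

open NumI (V) in
theorem n_twoE_0 : chkT [nE3 25 42 22 17000 22620 5444] 34 2176
    [V.of 10000 (-980) 570, V.of 10000 (-1230) 50, V.of 10000 (-980) (-760)] = true := by decide +kernel

theorem o_twoE_0 : (wOK 1545 0 (5444 - 200 - 1179) 3 0 4000 &&
      (decide (700 < 0) || wOK 1545 0 (5444 - 200 - 1791) 3 0 700)) = true := by decide +kernel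

open NumI (V) in
theorem n_twoE_2 : chkT [nE3 22 42 25 22620 17000 5859] 34 2178
    [V.of 10000 (-980) (-760), V.of 10000 (-1230) 50, V.of 10000 (-980) 570] = true := by decide +kernel

theorem o_twoE_2 : wOK 1545 0 (5859 - 200 - if (1600 : ℤ) ≤ 0 then 3211 else 3498) 2 0 4000 = true := by decide +kernel

open NumI (V) in
theorem n_threeA_a_0 : chkT [nE3 25 42 15 17000 8510 6224] 34 2176
    [V.of 10000 (-980) 570, V.of 10000 (-1230) 50, V.of 10000 (-220) 220] = true := by decide +kernel

theorem o_threeA_a_0 : (wOK 992 (-227) (6224 - 200 - 1179) 3 0 1600 &&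
      (decide (700 < 0) || wOK 992 (-227) (6224 - 200 - 1791) 3 0 700)) = true := by decide +kernel

open NumI (V) in
theorem n_threeA_b_0 : chkT [nE3 25 42 15 17000 5650 6429] 34 2176
    [V.of 10000 (-980) 570, V.of 10000 (-1230) 50, V.of 10000 (-220) 220] = true := by decide +kernel

theorem o_threeA_b_0 : (wOK 2578 (-1106) (6429 - 200 - 1179) 3 1600 4000 &&
      (decide (700 < 1600) || wOK 2578 (-1106) (6429 - 200 - 1791) 3 1600 700)) = true := by decide +kernel

open NumI (V) in
theorem n_threeK_2 : chkT [nE3 18 42 25 14120 17000 6890] 34 142706706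
    [V.of 10000 (-220) 220, V.of 10000 (-1230) 50, V.of 10000 (-980) 570] = true := by decide +kernel

theorem o_threeK_2 : wOK 112 97 (6890 - 200 - if (1600 : ℤ) ≤ 0 then 3211 else 3498) 2 0 4000 = true := by decide +kernel

open NumI (V) in
theorem n_threeE_0 : chkT [nE3 25 42 22 17000 12150 5866] 34 8
    [V.of 10000 (-980) 570, V.of 10000 (-1230) 50, V.of 10000 (-280) (-50)] = true := by decide +kernel

theorem o_threeE_0 : (wOK 1345 0 (5866 - 200 - 1179) 3 0 4000 &&
      (decide (700 < 0) || wOK 1345 0 (5866 - 200 - 1791) 3 0 700)) = true := by decide +kernel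

open NumI (V) in
theorem n_threeE_2 : chkT [nE3 22 42 25 12150 17000 6302] 34 8
    [V.of 10000 (-280) (-50), V.of 10000 (-1230) 50, V.of 10000 (-980) 570] = true := by decide +kernel

theorem o_threeE_2 : wOK 1345 0 (6302 - 200 - if (1600 : ℤ) ≤ 0 then 3211 else 3498) 2 0 4000 = true := by decide +kernel

open NumI (V) in
theorem n_ring_a_0 : chkT [nE3 25 42 18 17000 16780 6481] 34 2176
    [V.of 10000 (-980) 570, V.of 10000 (-1230) 50, V.of 10000 (-40) 570] = true := by decide +kernel

theorem o_ring_a_0 : (wOK (-536) 543 (6481 - 200 - 1179) 3 0 1400 &&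
      (decide (700 < 0) || wOK (-536) 543 (6481 - 200 - 1791) 3 0 700)) = true := by decide +kernel

open NumI (V) in
theorem n_ring_a_2 : chkT [nE3 18 42 25 16780 17000 6912] 34 142706706
    [V.of 10000 (-40) 570, V.of 10000 (-1230) 50, V.of 10000 (-980) 570] = true := by decide +kernel

theorem o_ring_a_2 : wOK (-536) 543 (6912 - 200 - if (1600 : ℤ) ≤ 0 then 3211 else 3498) 2 0 1400 = true := by decide +kernel

open NumI (V) in
theorem n_ring_b_0 : chkT [nE3 25 42 18 17000 13970 6710] 34 142706704
    [V.of 10000 (-980) 570, V.of 10000 (-1230) 50, V.of 10000 (-40) 570] = true := by decide +kernel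

theorem o_ring_b_0 : (wOK 1291 (-720) (6710 - 200 - 1179) 3 1400 4000 &&
      (decide (700 < 1400) || wOK 1291 (-720) (6710 - 200 - 1791) 3 1400 700)) = true := by decide +kernel

open NumI (V) in
theorem n_ring_b_2 : chkT [nE3 18 42 25 13970 17000 7168] 34 2640903517192319662872334354
    [V.of 10000 (-40) 570, V.of 10000 (-1230) 50, V.of 10000 (-980) 570] = true := by decide +kernel

theorem o_ring_b_2 : wOK 1291 (-720) (7168 - 200 - if (1600 : ℤ) ≤ 1400 then 3211 else 3498) 2 1400 4000 = true := by decide +kernel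

open NumI (V) in
theorem n_touched_0 : chkT [nE3 25 42 20 17000 23600 5314] 34 559106
    [V.of 10000 (-980) 570, V.of 10000 (-1230) 50, V.of 10000 (-1145) 570] = true := by decide +kernel

theorem o_touched_0 : (wOK 0 0 (5314 - 200 - 1179) 2 0 4000 &&
      (decide (700 < 0) || wOK 0 0 (5314 - 200 - 1791) 2 0 700)) = true := by decide +kernel

open NumI (V) in
theorem n_touched_2 : chkT [nE3 20 42 25 23600 17000 5718] 34 143136800
    [V.of 10000 (-1145) 570, V.of 10000 (-1230) 50, V.of 10000 (-980) 570] = true := by decide +kernel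

theorem o_touched_2 : wOK 0 0 (5718 - 200 - if (1600 : ℤ) ≤ 0 then 3211 else 3498) 1 0 4000 = true := by decide +kernel

theorem lo_al {B : Cl} (hB : B ≠ .one) (Cc : Cl) (x : ℝ) : al .three B Cc x = 2 / 100 := by
  cases B <;> first | exact absurd rfl hB | rfl

theorem lo_cT {B : Cl} (hB : B ≠ .one) : cT .three B = 1 / 4 := by
  cases B <;> first | exact absurd rfl hB | rfl

theorem lo_be {B : Cl} (hB : B ≠ .one) : be .three B = 17 / 10 := by
  cases B <;> first | exact absurd rfl hB | rfl

theorem lo_X0 {B : Cl} (hB : B ≠ .one) : X0 .three B = 60 / 100 := by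
  cases B <;> first | exact absurd rfl hB | rfl

theorem lo_box {B : Cl} (hB : B ≠ .one) : -(98 / 1000) ≤ (hbox .three B false).t0 ∧
    (hbox .three B false).t1 ≤ 57 / 1000 := by
  cases B <;> first | exact absurd rfl hB | (simp only [hbox]; constructor <;> norm_num)

theorem all_box {B : Cl} : -(1145 / 10000) ≤ (hbox .three B false).t0 ∧
    (hbox .three B false).t1 ≤ 57 / 1000 := by
  cases B <;> simp only [hbox] <;> constructor <;> norm_num

theorem lo_mw {A K : Cl} : -(123 / 1000) ≤ (mw A K).t0 ∧ (mw A K).t1 ≤ 5 / 1000 := by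
  cases A <;> cases K <;> simp only [mw] <;> constructor <;> norm_num

end K3

open K3

/-- K3, slot `0` in the tail, not next to a digit `1` -/
theorem side_three0_lo {B Cc : Cl} (hB : B ≠ .one) {C : Ct} (hC : C.ok Cc) (hC2 : C ≠ .threeK)
    {x l w t m k G : ℝ}
    (hx : X0 .three B ≤ x) (hxl : x ≤ l) (hw : 0 ≤ w) (hlw : l + w ≤ 1)
    (t0 : (hbox .three B false).t0 ≤ t) (t1 : t ≤ (hbox .three B false).t1)
    (k0 : (hbox .three Cc false).t0 ≤ k) (k1 : k ≤ (hbox .three Cc false).t1)
    (m0 : (mw B Cc).t0 ≤ m) (m1 : m ≤ (mw B Cc).t1)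
    (hE : EB .three C w (-k) G) :
    al .three B Cc x ≤ V3 ⟨cT .three B, t⟩ ⟨42 / 100, m⟩ ⟨cN C, k⟩ -
      V3 ⟨x, 0⟩ ⟨l, 0⟩ ⟨w, 0⟩ + G + be .three B * t := by
  rw [lo_al hB, lo_cT hB, lo_be hB]
  rw [lo_X0 hB] at hx
  have T0 := (lo_box hB).1.trans t0
  have T1 := t1.trans (lo_box hB).2
  have M0 := lo_mw.1.trans m0
  have M1 := m1.trans lo_mw.2
  clear t0 t1 m0 m1
  cases C with
  | one =>
    have hC : Cc = .one := hC
    subst hC
    simp only [hbox] at k0 k1
    simp only [EB] at hE
    simp only [cN]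
    rcases le_total w (4 / 25) with h | h
    · rcases hE.1 h with ⟨hτ, hE⟩ | hE
      · exact gen0 n_one_a1_0 o_one_a1_0 (by norm_num) (by norm_num) hx hxl hw hlw
          (by norm_num; linarith only [hw]) (by norm_num; linarith only [h]) T0 T1 M0 M1 (by norm_num; linarith only [hτ])
          (by norm_num; linarith only [k1]) (by norm_num; linarith only [hE])
      · exact gen0 n_one_a2_0 o_one_a2_0 (by norm_num) (by norm_num) hx hxl hw hlw
          (by norm_num; linarith only [hw]) (by norm_num; linarith only [h]) T0 T1 M0 M1 (by norm_num; linarith only [k0])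
          (by norm_num; linarith only [k1]) (by norm_num; linarith only [hE])
    · have hE := hE.2 h
      exact gen0 n_one_b_0 o_one_b_0 (by norm_num) (by norm_num) hx hxl hw hlw
        (by norm_num; linarith only [h]) (by norm_num; linarith only [hx, hxl, hlw]) T0 T1 M0 M1 (by norm_num; linarith only [k0])
        (by norm_num; linarith only [k1]) (by norm_num; linarith only [hE])
  | two =>
    have hC : Cc = .two := hC
    subst hC
    simp only [hbox] at k0 k1
    simp only [EB] at hE
    simp only [cN]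
    exact gen0 n_two_0 o_two_0 (by norm_num) (by norm_num) hx hxl hw hlw
      (by norm_num; linarith only [hw]) (by norm_num; linarith only [hx, hxl, hlw]) T0 T1 M0 M1 (by norm_num; linarith only [k0])
      (by norm_num; linarith only [k1]) (by norm_num; linarith only [hE])
  | twoE =>
    have hC : Cc = .twoE := hC
    subst hC
    simp only [hbox] at k0 k1
    simp only [EB] at hE
    simp only [cN]
    exact gen0 n_twoE_0 o_twoE_0 (by norm_num) (by norm_num) hx hxl hw hlw
      (by norm_num; linarith only [hw]) (by norm_num; linarith only [hx, hxl, hlw]) T0 T1 M0 M1 (by norm_num; linarith only [k0])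
      (by norm_num; linarith only [k1]) (by norm_num; linarith only [hE])
  | threeA =>
    have hC : Cc = .three := hC
    subst hC
    simp only [hbox] at k0 k1
    simp only [EB] at hE
    simp only [cN]
    rcases le_total w (4 / 25) with h | h
    · have hE := hE.1 h
      exact gen0 n_threeA_a_0 o_threeA_a_0 (by norm_num) (by norm_num) hx hxl hw hlw
        (by norm_num; linarith only [hw]) (by norm_num; linarith only [h]) T0 T1 M0 M1 (by norm_num; linarith only [k0])
        (by norm_num; linarith only [k1]) (by norm_num; linarith only [hE])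
    · have hE := hE.2 h
      exact gen0 n_threeA_b_0 o_threeA_b_0 (by norm_num) (by norm_num) hx hxl hw hlw
        (by norm_num; linarith only [h]) (by norm_num; linarith only [hx, hxl, hlw]) T0 T1 M0 M1 (by norm_num; linarith only [k0])
        (by norm_num; linarith only [k1]) (by norm_num; linarith only [hE])
  | threeK => exact absurd rfl hC2
  | threeE =>
    have hC : Cc = .threeE := hC
    subst hC
    simp only [hbox] at k0 k1
    simp only [EB] at hE
    simp only [cN]
    exact gen0 n_threeE_0 o_threeE_0 (by norm_num) (by norm_num) hx hxl hw hlw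
      (by norm_num; linarith only [hw]) (by norm_num; linarith only [hx, hxl, hlw]) T0 T1 M0 M1 (by norm_num; linarith only [k0])
      (by norm_num; linarith only [k1]) (by norm_num; linarith only [hE])
  | ring =>
    have hC : Cc = .ring := hC
    subst hC
    simp only [hbox] at k0 k1
    simp only [EB] at hE
    simp only [cN]
    rcases le_total w (7 / 50) with h | h
    · have hE := hE.1 h
      exact gen0 n_ring_a_0 o_ring_a_0 (by norm_num) (by norm_num) hx hxl hw hlw
        (by norm_num; linarith only [hw]) (by norm_num; linarith only [h]) T0 T1 M0 M1 (by norm_num; linarith only [k0])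
        (by norm_num; linarith only [k1]) (by norm_num; linarith only [hE])
    · have hE := hE.2 h
      exact gen0 n_ring_b_0 o_ring_b_0 (by norm_num) (by norm_num) hx hxl hw hlw
        (by norm_num; linarith only [h]) (by norm_num; linarith only [hx, hxl, hlw]) T0 T1 M0 M1 (by norm_num; linarith only [k0])
        (by norm_num; linarith only [k1]) (by norm_num; linarith only [hE])
  | touched =>
    obtain ⟨b0, b1⟩ := all_box (B := Cc)
    simp only [EB] at hE
    simp only [cN]
    exact gen0 n_touched_0 o_touched_0 (by norm_num) (by norm_num) hx hxl hw hlw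
      (by norm_num; linarith only [hw]) (by norm_num; linarith only [hx, hxl, hlw]) T0 T1 M0 M1 (by norm_num; linarith only [k0, b0])
      (by norm_num; linarith only [k1, b1]) (by norm_num; linarith only [hE])

/-- K3, slot `2` in the tail, not next to a digit `1` -/
theorem side_three2_lo {B Cc : Cl} (hB : B ≠ .one) {C : Ct} (hC : C.ok Cc) (hC2 : C ≠ .threeA)
    {x l w t m k G : ℝ}
    (hx : X0 .three B ≤ x) (hw : 0 ≤ w) (hwl : w ≤ l) (hlx : l + x ≤ 1)
    (t0 : (hbox .three B false).t0 ≤ t) (t1 : t ≤ (hbox .three B false).t1)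
    (k0 : (hbox .three Cc false).t0 ≤ k) (k1 : k ≤ (hbox .three Cc false).t1)
    (m0 : (mw Cc B).t0 ≤ m) (m1 : m ≤ (mw Cc B).t1)
    (hE : EB .three C w (-k) G) :
    al .three B Cc x ≤ V3 ⟨cN C, k⟩ ⟨42 / 100, m⟩ ⟨cT .three B, t⟩ -
      V3 ⟨w, 0⟩ ⟨l, 0⟩ ⟨x, 0⟩ + G + be .three B * t := by
  rw [lo_al hB, lo_cT hB, lo_be hB]
  rw [lo_X0 hB] at hx
  have T0 := (lo_box hB).1.trans t0
  have T1 := t1.trans (lo_box hB).2
  have M0 := lo_mw.1.trans m0
  have M1 := m1.trans lo_mw.2
  clear t0 t1 m0 m1
  cases C with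
  | one =>
    have hC : Cc = .one := hC
    subst hC
    simp only [hbox] at k0 k1
    simp only [EB] at hE
    simp only [cN]
    rcases le_total w (4 / 25) with h | h
    · rcases hE.1 h with ⟨hτ, hE⟩ | hE
      · exact gen2 n_one_a1_2 o_one_a1_2 (by norm_num) (by norm_num) hx hw hwl hlx
          (by norm_num; linarith only [hw]) (by norm_num; linarith only [h]) T0 T1 M0 M1 (by norm_num; linarith only [hτ])
          (by norm_num; linarith only [k1]) (by norm_num; linarith only [hE])
      · exact gen2 n_one_a2_2 o_one_a2_2 (by norm_num) (by norm_num) hx hw hwl hlx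
          (by norm_num; linarith only [hw]) (by norm_num; linarith only [h]) T0 T1 M0 M1 (by norm_num; linarith only [k0])
          (by norm_num; linarith only [k1]) (by norm_num; linarith only [hE])
    · have hE := hE.2 h
      exact gen2 n_one_b_2 o_one_b_2 (by norm_num) (by norm_num) hx hw hwl hlx
        (by norm_num; linarith only [h]) (by norm_num; linarith only [hx, hwl, hlx]) T0 T1 M0 M1 (by norm_num; linarith only [k0])
        (by norm_num; linarith only [k1]) (by norm_num; linarith only [hE])
  | two =>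
    have hC : Cc = .two := hC
    subst hC
    simp only [hbox] at k0 k1
    simp only [EB] at hE
    simp only [cN]
    exact gen2 n_two_2 o_two_2 (by norm_num) (by norm_num) hx hw hwl hlx
      (by norm_num; linarith only [hw]) (by norm_num; linarith only [hx, hwl, hlx]) T0 T1 M0 M1 (by norm_num; linarith only [k0])
      (by norm_num; linarith only [k1]) (by norm_num; linarith only [hE])
  | twoE =>
    have hC : Cc = .twoE := hC
    subst hC
    simp only [hbox] at k0 k1
    simp only [EB] at hE
    simp only [cN]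
    exact gen2 n_twoE_2 o_twoE_2 (by norm_num) (by norm_num) hx hw hwl hlx
      (by norm_num; linarith only [hw]) (by norm_num; linarith only [hx, hwl, hlx]) T0 T1 M0 M1 (by norm_num; linarith only [k0])
      (by norm_num; linarith only [k1]) (by norm_num; linarith only [hE])
  | threeA => exact absurd rfl hC2
  | threeK =>
    have hC : Cc = .three := hC
    subst hC
    simp only [hbox] at k0 k1
    simp only [EB] at hE
    simp only [cN]
    exact gen2 n_threeK_2 o_threeK_2 (by norm_num) (by norm_num) hx hw hwl hlx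
      (by norm_num; linarith only [hw]) (by norm_num; linarith only [hx, hwl, hlx]) T0 T1 M0 M1 (by norm_num; linarith only [k0])
      (by norm_num; linarith only [k1]) (by norm_num; linarith only [hE])
  | threeE =>
    have hC : Cc = .threeE := hC
    subst hC
    simp only [hbox] at k0 k1
    simp only [EB] at hE
    simp only [cN]
    exact gen2 n_threeE_2 o_threeE_2 (by norm_num) (by norm_num) hx hw hwl hlx
      (by norm_num; linarith only [hw]) (by norm_num; linarith only [hx, hwl, hlx]) T0 T1 M0 M1 (by norm_num; linarith only [k0])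
      (by norm_num; linarith only [k1]) (by norm_num; linarith only [hE])
  | ring =>
    have hC : Cc = .ring := hC
    subst hC
    simp only [hbox] at k0 k1
    simp only [EB] at hE
    simp only [cN]
    rcases le_total w (7 / 50) with h | h
    · have hE := hE.1 h
      exact gen2 n_ring_a_2 o_ring_a_2 (by norm_num) (by norm_num) hx hw hwl hlx
        (by norm_num; linarith only [hw]) (by norm_num; linarith only [h]) T0 T1 M0 M1 (by norm_num; linarith only [k0])
        (by norm_num; linarith only [k1]) (by norm_num; linarith only [hE])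
    · have hE := hE.2 h
      exact gen2 n_ring_b_2 o_ring_b_2 (by norm_num) (by norm_num) hx hw hwl hlx
        (by norm_num; linarith only [h]) (by norm_num; linarith only [hx, hwl, hlx]) T0 T1 M0 M1 (by norm_num; linarith only [k0])
        (by norm_num; linarith only [k1]) (by norm_num; linarith only [hE])
  | touched =>
    obtain ⟨b0, b1⟩ := all_box (B := Cc)
    simp only [EB] at hE
    simp only [cN]
    exact gen2 n_touched_2 o_touched_2 (by norm_num) (by norm_num) hx hw hwl hlx
      (by norm_num; linarith only [hw]) (by norm_num; linarith only [hx, hwl, hlx]) T0 T1 M0 M1 (by norm_num; linarith only [k0, b0])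
      (by norm_num; linarith only [k1, b1]) (by norm_num; linarith only [hE])

end TL

end Pool.Agent.Work.MP_b30479_gt.G2
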