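import Pool.Agent.Work.MP_b30479_gt.G2.TK3one
import Pool.Agent.Work.MP_b30479_gt.G2.TK3lo

/-!
# Tails, sides of an interior digit `3`
-/

namespace Pool.Agent.Work.MP_b30479_gt.G2

open VOL SR

namespace TL

/-- K3, slot `0` in the tail: hinge `x`, inner variable `l`, hinge `w` in slot `2`; `m` the height
of the inner variable -/
theorem side_three0 {B Cc : Cl} {C : Ct} (hC : C.ok Cc) (hC2 : C ≠ .threeK) {x l w t m k G : ℝ}
    (hx : X0 .three B ≤ x) (hxl : x ≤ l) (hw : 0 ≤ w) (hlw : l + w ≤ 1)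
    (t0 : (hbox .three B false).t0 ≤ t) (t1 : t ≤ (hbox .three B false).t1)
    (k0 : (hbox .three Cc false).t0 ≤ k) (k1 : k ≤ (hbox .three Cc false).t1)
    (m0 : (mw B Cc).t0 ≤ m) (m1 : m ≤ (mw B Cc).t1)
    (s0 : (mw B Cc).s0 ≤ m - t) (s1 : m - t ≤ (mw B Cc).s1)
    (hE : EB .three C w (-k) G) :
    al .three B Cc x ≤ V3 ⟨cT .three B, t⟩ ⟨42 / 100, m⟩ ⟨cN C, k⟩ -
      V3 ⟨x, 0⟩ ⟨l, 0⟩ ⟨w, 0⟩ + G + be .three B * t := by
  by_cases hB : B = .one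
  · subst hB
    exact side_three0_one hC hC2 hx hxl hw hlw t0 t1 k0 k1 m0 m1 s0 s1 hE
  · exact side_three0_lo hB hC hC2 hx hxl hw hlw t0 t1 k0 k1 m0 m1 hE

/-- K3, slot `2` in the tail: hinge `u` in slot `0`, inner variable `l`, hinge `x` in slot `2` -/
theorem side_three2 {B Cc : Cl} {C : Ct} (hC : C.ok Cc) (hC2 : C ≠ .threeA) {x l u t m k G : ℝ}
    (hx : X0 .three B ≤ x) (hu : 0 ≤ u) (hul : u ≤ l) (hlx : l + x ≤ 1)
    (t0 : (hbox .three B false).t0 ≤ t) (t1 : t ≤ (hbox .three B false).t1)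
    (k0 : (hbox .three Cc false).t0 ≤ k) (k1 : k ≤ (hbox .three Cc false).t1)
    (m0 : (mw Cc B).t0 ≤ m) (m1 : m ≤ (mw Cc B).t1)
    (s0 : (mw Cc B).s0 ≤ m - k) (s1 : m - k ≤ (mw Cc B).s1)
    (hE : EB .three C u (-k) G) :
    al .three B Cc x ≤ V3 ⟨cN C, k⟩ ⟨42 / 100, m⟩ ⟨cT .three B, t⟩ -
      V3 ⟨u, 0⟩ ⟨l, 0⟩ ⟨x, 0⟩ + G + be .three B * t := by
  by_cases hB : B = .one
  · subst hB
    exact side_three2_one hC hC2 hx hu hul hlx t0 t1 k0 k1 m0 m1 s0 s1 hE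
  · exact side_three2_lo hB hC hC2 hx hu hul hlx t0 t1 k0 k1 m0 m1 hE

end TL

end Pool.Agent.Work.MP_b30479_gt.G2
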