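import Pool.Agent.Work.MP_b30479_gt.G2.TDef2
import Pool.Agent.Work.MP_b30479_gt.G2.TE1T

/-!
# Tails: the sides of the regions at an end of the word, positivity of the sums of the gauges
-/

set_option linter.unusedVariables false
set_option linter.unusedSimpArgs false

namespace Pool.Agent.Work.MP_b30479_gt.G2

open VOL SR NumU

namespace TL

namespace K4

open NumU.E NumI

theorem k2o {t : ℝ} (a0 : -(10 / 10000) ≤ t) (b0 : t ≤ 1310 / 10000) :
    5 / 100 < 17 / 10 * t - Real.pi * (3 / 4 * t) - uu (1 / 4) t := by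
  have h : NumU.chkT [(NumU.E.sub (.sub (.sub (.mul (.q 17 10) (.var 0)) (.mul .pi (.mul (.q 6 8) (.var 0)))) (.uu
      (.q 1 4) (.var 0))) (.q 5 100))] 24 8
      [NumI.V.of 10000 (-10) 1310, NumI.V.of 10000 0 0] = true := by
    decide +kernel
  obtain ⟨e, he, hp⟩ := NumU.chkT2 h (by norm_num) (x := t) (y := 0)
    (le_trans (by norm_num) a0) (le_trans b0 (by norm_num)) (by norm_num) (by norm_num)
  simp only [List.mem_cons, List.not_mem_nil, or_false] at he
  subst he
  simp only [NumU.E.val, NumI.lkR] at hp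
  push_cast at hp
  try simp only [zero_div, div_one] at hp
  linarith only [hp]

theorem k2x {x t : ℝ} (a0 : 7000 / 10000 ≤ x) (b0 : x ≤ 9500 / 10000) (a1 : -(10 / 10000) ≤ t) (b1 : t ≤ 660 /
    10000) :
    23 / 100 < 235 / 100 * t - Real.pi * (78 / 100 * t) - uu (28 / 100) t + uu x 0 := by
  have h : NumU.chkT [(NumU.E.sub (.add (.sub (.sub (.mul (.q 235 100) (.var 1)) (.mul .pi (.mul (.q 156 200)
      (.var 1)))) (.uu (.q 28 100) (.var 1))) (.uu (.var 0) (.q 0 1))) (.q 23 100))] 24 557184
      [NumI.V.of 10000 7000 9500, NumI.V.of 10000 (-10) 660] = true := by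
    decide +kernel
  obtain ⟨e, he, hp⟩ := NumU.chkT2 h (by norm_num) (x := x) (y := t)
    (le_trans (by norm_num) a0) (le_trans b0 (by norm_num))
    (le_trans (by norm_num) a1) (le_trans b1 (by norm_num))
  simp only [List.mem_cons, List.not_mem_nil, or_false] at he
  subst he
  simp only [NumU.E.val, NumI.lkR] at hp
  push_cast at hp
  try simp only [zero_div, div_one] at hp
  linarith only [hp]

theorem k2y {t : ℝ} (a0 : -(10 / 10000) ≤ t) (b0 : t ≤ 660 / 10000) :
    12 / 100 < 235 / 100 * t - Real.pi * (78 / 100 * t) - uu (28 / 100) t := by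
  have h : NumU.chkT [(NumU.E.sub (.sub (.sub (.mul (.q 235 100) (.var 0)) (.mul .pi (.mul (.q 156 200) (.var
      0)))) (.uu (.q 28 100) (.var 0))) (.q 12 100))] 24 8
      [NumI.V.of 10000 (-10) 660, NumI.V.of 10000 0 0] = true := by
    decide +kernel
  obtain ⟨e, he, hp⟩ := NumU.chkT2 h (by norm_num) (x := t) (y := 0)
    (le_trans (by norm_num) a0) (le_trans b0 (by norm_num)) (by norm_num) (by norm_num)
  simp only [List.mem_cons, List.not_mem_nil, or_false] at he
  subst he
  simp only [NumU.E.val, NumI.lkR] at hp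
  push_cast at hp
  try simp only [zero_div, div_one] at hp
  linarith only [hp]

theorem k3a {t m : ℝ} (a0 : -(780 / 10000) ≤ t) (b0 : t ≤ -(100 / 10000)) (a1 : -(450 / 10000) ≤ m) (b1 : m ≤ 590 /
    10000) :
    2515 / 10000 < 205 / 100 * t - Real.pi * (68 / 300 * m + 268 / 600 * t) - uu (1 / 6) (m - t) -
    uu (28 / 100) t := by
  have h : NumU.chkT [(NumU.E.sub (.sub (.sub (.sub (.mul (.q 205 100) (.var 0)) (.mul .pi (.add (.mul (.q 68 300)
      (.var 1)) (.mul (.q 268 600) (.var 0))))) (.uu (.q 1 6) (.sub (.var 1) (.var 0)))) (.uu (.q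
      28 100) (.var 0))) (.q 2515 10000))] 24 2393093635606529
      [NumI.V.of 10000 (-780) (-100), NumI.V.of 10000 (-450) 590] = true := by
    decide +kernel
  obtain ⟨e, he, hp⟩ := NumU.chkT2 h (by norm_num) (x := t) (y := m)
    (le_trans (by norm_num) a0) (le_trans b0 (by norm_num))
    (le_trans (by norm_num) a1) (le_trans b1 (by norm_num))
  simp only [List.mem_cons, List.not_mem_nil, or_false] at he
  subst he
  simp only [NumU.E.val, NumI.lkR] at hp
  push_cast at hp
  try simp only [zero_div, div_one] at hp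
  linarith only [hp]

theorem k3b {t m : ℝ} (a0 : -(690 / 10000) ≤ t) (b0 : t ≤ 580 / 10000) (a1 : -(450 / 10000) ≤ m) (b1 : m ≤ 590 /
    10000) :
    264 / 1000 < 17 / 10 * t - Real.pi * (2 / 12 * m + 10 / 24 * t) - uu (1 / 6) (m - t) - uu (1 /
    4) t := by
  have h : NumU.chkT [(NumU.E.sub (.sub (.sub (.sub (.mul (.q 17 10) (.var 0)) (.mul .pi (.add (.mul (.q 2 12)
      (.var 1)) (.mul (.q 10 24) (.var 0))))) (.uu (.q 1 6) (.sub (.var 1) (.var 0)))) (.uu (.q 1
      4) (.var 0))) (.q 264 1000))] 24 36515710992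
      [NumI.V.of 10000 (-690) 580, NumI.V.of 10000 (-450) 590] = true := by
    decide +kernel
  obtain ⟨e, he, hp⟩ := NumU.chkT2 h (by norm_num) (x := t) (y := m)
    (le_trans (by norm_num) a0) (le_trans b0 (by norm_num))
    (le_trans (by norm_num) a1) (le_trans b1 (by norm_num))
  simp only [List.mem_cons, List.not_mem_nil, or_false] at he
  subst he
  simp only [NumU.E.val, NumI.lkR] at hp
  push_cast at hp
  try simp only [zero_div, div_one] at hp
  linarith only [hp]

theorem k3y {x d : ℝ} (a0 : 6000 / 10000 ≤ x) (b0 : x ≤ 8400 / 10000) (a1 : 200 / 10000 ≤ d) (b1 : d ≤ 4000 / 10000) :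
    -(965 / 10000) < uu x 0 + uu d 0 := by
  have h : NumU.chkT [(NumU.E.add (.add (.uu (.var 0) (.q 0 1)) (.uu (.var 1) (.q 0 1))) (.q 965 10000))] 24 676071290956502566153220522257
      [NumI.V.of 10000 6000 8400, NumI.V.of 10000 200 4000] = true := by
    decide +kernel
  obtain ⟨e, he, hp⟩ := NumU.chkT2 h (by norm_num) (x := x) (y := d)
    (le_trans (by norm_num) a0) (le_trans b0 (by norm_num))
    (le_trans (by norm_num) a1) (le_trans b1 (by norm_num))
  simp only [List.mem_cons, List.not_mem_nil, or_false] at he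
  subst he
  simp only [NumU.E.val, NumI.lkR] at hp
  push_cast at hp
  try simp only [zero_div, div_one] at hp
  linarith only [hp]

theorem k3z {x : ℝ} (a0 : 6000 / 10000 ≤ x) (b0 : x ≤ 8400 / 10000) :
    -(80 / 1000) < uu x 0 + uu (2 / 100) 0 := by
  have h : NumU.chkT [(NumU.E.add (.add (.uu (.var 0) (.q 0 1)) (.uu (.q 2 100) (.q 0 1))) (.q 80 1000))] 24 8
      [NumI.V.of 10000 6000 8400, NumI.V.of 10000 0 0] = true := by
    decide +kernel
  obtain ⟨e, he, hp⟩ := NumU.chkT2 h (by norm_num) (x := x) (y := 0)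
    (le_trans (by norm_num) a0) (le_trans b0 (by norm_num)) (by norm_num) (by norm_num)
  simp only [List.mem_cons, List.not_mem_nil, or_false] at he
  subst he
  simp only [NumU.E.val, NumI.lkR] at hp
  push_cast at hp
  try simp only [zero_div, div_one] at hp
  linarith only [hp]

theorem ng {x : ℝ} (a0 : 1600 / 10000 ≤ x) (b0 : x ≤ 4000 / 10000) :
    uu x 0 < 0 := by
  have h : NumU.chkT [(NumU.E.neg (.uu (.var 0) (.q 0 1)))] 24 8
      [NumI.V.of 10000 1600 4000, NumI.V.of 10000 0 0] = true := by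
    decide +kernel
  obtain ⟨e, he, hp⟩ := NumU.chkT2 h (by norm_num) (x := x) (y := 0)
    (le_trans (by norm_num) a0) (le_trans b0 (by norm_num)) (by norm_num) (by norm_num)
  simp only [List.mem_cons, List.not_mem_nil, or_false] at he
  subst he
  simp only [NumU.E.val, NumI.lkR] at hp
  push_cast at hp
  try simp only [zero_div, div_one] at hp
  linarith only [hp]

/-- `uu x 0 ≥ 0` right of `6/10` -/
theorem uu_nn {x : ℝ} (h0 : 60 / 100 ≤ x) (h1 : x ≤ 1) : 0 ≤ uu x 0 := by
  have e := uu_one_sub (1 - x) 0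
  rw [sub_sub_cancel] at e
  rw [e]
  rcases le_total (1 - x) (16 / 100) with h | h
  · have := E1.W_lo (w := 0) (s := 1 - x) (Y := 0) le_rfl (by linarith only [h1]) h
    have e0 : uu 0 0 = 0 := by
      have h2 := uu_one_sub (1 / 2) 0
      have h3 := UU_uu (0 : ℂ)
      rw [UU_zero] at h3
      simpa using h3.symm
    linarith only [this, e0]
  · have := ng (x := 1 - x) (by linarith only [h]) (by linarith only [h0])
    linarith only [this]

/-- the two real values, hinge and inner variable -/
theorem uu_two {x l : ℝ} (hx : 60 / 100 ≤ x) (hxl : x ≤ l) (hl : l ≤ 1) :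
    -(965 / 10000) ≤ uu x 0 + uu (l - x) 0 := by
  rcases le_total (84 / 100) x with h | h
  · have h1 := E1.W_lo (w := l - x) (s := 1 - x) (Y := 0) (by linarith only [hxl]) (by linarith only [hl]) (by linarith only [h])
    have h2 := uu_one_sub x 0
    linarith only [h1, h2]
  rcases le_total (l - x) (2 / 100) with h2 | h2
  · have h3 := E1.W_v (w := l - x) (by linarith only [hxl]) h2
    have h4 := k3z (x := x) (by linarith only [hx]) (by linarith only [h])
    linarith only [h3, h4]
  · have := k3y (x := x) (d := l - x) (by linarith only [hx]) (by linarith only [h]) (by linarith only [h2]) (by linarith only [hx, hl])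
    linarith only [this]

theorem V2_val (c t x : ℝ) : V2 ⟨c, t⟩ 0 - V2 ⟨x, 0⟩ 0 =
    -(Real.pi * ((c + 1 / 2) * t)) - uu c t + uu x 0 := by
  unfold V2
  rw [sub_zero, sub_zero, add_zero, add_zero, add_zero, add_zero, UU_zero, UU_uu, UU_uu]
  simp only [Complex.add_im, pow_two, Complex.mul_im]
  ring

theorem V3_val (c v t m x l : ℝ) : V3 ⟨c, t⟩ ⟨v, m⟩ 0 - V3 ⟨x, 0⟩ ⟨l, 0⟩ 0 =
    -(Real.pi * ((c + v - 1 / 2) * m + v * t)) - uu (v - c) (m - t) - uu c t +
      uu (l - x) 0 + uu x 0 := by
  unfold V3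
  simp only [sub_zero, add_zero]
  rw [UU_zero, UU_uu, UU_uu, UU_uu, UU_uu, UU_uu, UU_uu]
  simp only [Complex.add_im, Complex.sub_im, Complex.sub_re, pow_two, Complex.mul_im, Complex.mul_re,
    Complex.re_ofNat, Complex.im_ofNat]
  ring_nf

end K4

open K4

/-- K2e.  margins .010 (B = one), .035 -/
theorem side_twoE {B Cc : Cl} {x t : ℝ} (hx : X0 .twoE B ≤ x) (hx1 : x ≤ 1)
    (t0 : (hbox .twoE B false).t0 ≤ t) (t1 : t ≤ (hbox .twoE B false).t1) :
    al .twoE B Cc x ≤ V2 ⟨cT .twoE B, t⟩ 0 - V2 ⟨x, 0⟩ 0 + be .twoE B * t := by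
  rw [V2_val]
  have key : B ≠ .one → 60 / 100 ≤ x → -(1 / 1000) ≤ t → t ≤ 131 / 1000 →
      5 / 100 ≤ -(Real.pi * ((1 / 4 + 1 / 2) * t)) - uu (1 / 4) t + uu x 0 + 17 / 10 * t := by
    intro _ h1 h2 h3
    have a := k2o (t := t) (by linarith only [h2]) (by linarith only [h3])
    have b := uu_nn h1 hx1
    linarith only [a, b]
  cases B
  · simp only [X0, hbox, al, cT, be] at *
    split_ifs with h
    · have a := k2y (t := t) (by linarith only [t0]) (by linarith only [t1])
      have b := uu_nn (x := x) (by linarith only [hx]) hx1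
      linarith only [a, b]
    · have a := k2x (x := x) (t := t) (by linarith only [hx]) (by linarith only [h]) (by linarith only [t0]) (by linarith only [t1])
      linarith only [a]
  all_goals
    have := key (by decide)
    simp only [X0, hbox, al, cT, be] at *
    have := this (by linarith only [hx]) (by linarith only [t0]) (by linarith only [t1])
    linarith only [this]

/-- K3e.  margins .006 (B = one), .018 -/
theorem side_threeE {B Cc : Cl} {x l t m : ℝ} (hx : X0 .threeE B ≤ x) (hxl : x ≤ l) (hl1 : l ≤ 1)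
    (t0 : (hbox .threeE B false).t0 ≤ t) (t1 : t ≤ (hbox .threeE B false).t1)
    (m0 : -(45 / 1000) ≤ m) (m1 : m ≤ 59 / 1000) :
    al .threeE B Cc x ≤ V3 ⟨cT .threeE B, t⟩ ⟨cT .threeE B + 1 / 6, m⟩ 0 -
      V3 ⟨x, 0⟩ ⟨l, 0⟩ 0 + be .threeE B * t := by
  rw [V3_val]
  have key : B ≠ .one → 60 / 100 ≤ x → -(69 / 1000) ≤ t → t ≤ 58 / 1000 →
      15 / 100 ≤ -(Real.pi * ((1 / 4 + (1 / 4 + 1 / 6) - 1 / 2) * m + (1 / 4 + 1 / 6) * t)) -
        uu (1 / 4 + 1 / 6 - 1 / 4) (m - t) - uu (1 / 4) t + uu (l - x) 0 + uu x 0 + 17 / 10 * t := by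
    intro _ h1 h2 h3
    have a := k3b (t := t) (m := m) (by linarith only [h2]) (by linarith only [h3]) (by linarith only [m0]) (by linarith only [m1])
    have b := uu_two h1 hxl hl1
    rw [show (1 : ℝ) / 4 + 1 / 6 - 1 / 4 = 1 / 6 by norm_num]
    linarith only [a, b]
  cases B
  · simp only [X0, hbox, al, cT, be] at *
    have a := k3a (t := t) (m := m) (by linarith only [t0]) (by linarith only [t1]) (by linarith only [m0]) (by linarith only [m1])
    have b := uu_two hx hxl hl1
    rw [show (28 : ℝ) / 100 + 1 / 6 - 28 / 100 = 1 / 6 by norm_num]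
    linarith only [a, b]
  all_goals
    have := key (by decide)
    simp only [X0, hbox, al, cT, be] at *
    have := this (by linarith only [hx]) (by linarith only [t0]) (by linarith only [t1])
    linarith only [this]

/-- the two sides of a hinge in the tail -/
theorem al_pos {K B C D : Cl} {x : ℝ} (hx : K = .one → B = .one → C ≠ .one → D ≠ .one →
    86 / 100 ≤ x) : 0 < al K B C x + al B K D x := by
  by_cases h11 : K = .one ∧ B = .one
  · obtain ⟨rfl, rfl⟩ := h11
    have hx' := hx rfl rfl
    simp only [al]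
    by_cases hC : C = .one
    · by_cases hD : D = .one <;> by_cases h : 86 / 100 ≤ x <;>
        simp only [hC, hD, h, if_true, if_false] <;> norm_num
    · by_cases hD : D = .one
      · by_cases h : 86 / 100 ≤ x <;> simp only [hC, hD, h, if_true, if_false] <;> norm_num
      · have h := hx' hC hD
        simp only [hC, hD, h, if_true, if_false]
        norm_num
  · clear hx
    by_cases h : 95 / 100 ≤ x <;> cases K <;> cases B <;>
      first
        | exact absurd ⟨rfl, rfl⟩ h11
        | (simp only [al, h, if_true, if_false]; norm_num)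

end TL

end Pool.Agent.Work.MP_b30479_gt.G2
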