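import Pool.Agent.Work.MP_b30479_gt.G2.TK2a
import Pool.Agent.Work.MP_b30479_gt.G2.TK4
import Pool.Agent.Work.MP_b30479_gt.G2.WLocX

/-!
# Tails, sides of an interior digit `3`: tools
-/

namespace Pool.Agent.Work.MP_b30479_gt.G2

open VOL NumU

namespace TL

namespace K3

/-! ### values -/

theorem V3_uu (u t v m w k : ℝ) : V3 ⟨u, t⟩ ⟨v, m⟩ ⟨w, k⟩ =
    uu (v + w) (m + k) - Real.pi * (u * m + v * t + (v - w - 1 / 2) * (m - k)) -
      uu (v - u) (m - t) - uu v m - uu u t - 2 * uu w k := by
  unfold V3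
  rw [UU_uu, UU_uu, UU_uu, UU_uu, UU_uu]
  simp only [Complex.add_re, Complex.add_im, Complex.sub_re, Complex.sub_im, pow_two,
    Complex.mul_im, Complex.mul_re, Complex.re_ofNat, Complex.im_ofNat]
  ring

theorem V3_real (u v w : ℝ) : V3 ⟨u, 0⟩ ⟨v, 0⟩ ⟨w, 0⟩ =
    uu (v + w) 0 - uu (v - u) 0 - uu v 0 - uu u 0 - 2 * uu w 0 := by
  rw [V3_uu, show (0 : ℝ) + 0 = 0 by ring, show (0 : ℝ) - 0 = 0 by ring]
  ring

/-! ### constants -/

section
open NumI (V)

theorem c_max : uu (5 / 6) 0 < 1616 / 10000 := by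
  have h : chk [.sub (.q 1616 10000) (.uu (.q 5 6) (.q 0 1))] 2 [V.of 1 0 0 0] = true := by
    decide +kernel
  have hp := pos_of_chk (chk1 h (by norm_num) (x := 0) (by norm_num) (by norm_num))
  simp only [E.val] at hp
  push_cast at hp
  norm_num at hp
  linarith only [hp]

theorem c_X : 675 / 10000 < uu (6 / 10) 0 := by
  have h : chk [.sub (.uu (.q 6 10) (.q 0 1)) (.q 675 10000)] 2 [V.of 1 0 0 0] = true := by
    decide +kernel
  have hp := pos_of_chk (chk1 h (by norm_num) (x := 0) (by norm_num) (by norm_num))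
  simp only [E.val] at hp
  push_cast at hp
  norm_num at hp
  linarith only [hp]

theorem c_A1 {p : ℝ} (h0 : 200 / 10000 ≤ p) (h1 : p ≤ 3300 / 10000) :
    -uu p 0 - uu (6 / 10 + p) 0 < 238 / 10000 := by
  have h : chk [.add (.q 238 10000) (.add (.uu (.var 0) (.q 0 1))
      (.uu (.add (.q 6 10) (.var 0)) (.q 0 1)))] 30 [V.of 10000 200 3300 0] = true := by
    decide +kernel
  have hp := pos_of_chk (chk1 h (by norm_num) (x := p) (by push_cast; linarith only [h0])
    (by push_cast; linarith only [h1]))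
  simp only [E.val, NumI.lkR] at hp
  push_cast at hp
  norm_num at hp
  linarith only [hp]

theorem c_A0 {p : ℝ} (h0 : 0 ≤ p) (h1 : p ≤ 200 / 10000) :
    -uu (2 / 100) 0 - uu (6 / 10 + p) 0 < 238 / 10000 := by
  have h : chk [.add (.q 238 10000) (.add (.uu (.q 2 100) (.q 0 1))
      (.uu (.add (.q 6 10) (.var 0)) (.q 0 1)))] 30 [V.of 10000 0 200 0] = true := by
    decide +kernel
  have hp := pos_of_chk (chk1 h (by norm_num) (x := p) (by push_cast; linarith only [h0])
    (by push_cast; linarith only [h1]))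
  simp only [E.val, NumI.lkR] at hp
  push_cast at hp
  norm_num at hp
  linarith only [hp]

theorem c_A2 {p : ℝ} (h0 : 3300 / 10000 ≤ p) (h1 : p ≤ 3800 / 10000) :
    -uu p 0 - uu (6 / 10 + p) 0 < 850 / 10000 := by
  have h : chk [.add (.q 850 10000) (.add (.uu (.var 0) (.q 0 1))
      (.uu (.add (.q 6 10) (.var 0)) (.q 0 1)))] 30 [V.of 10000 3300 3800 0] = true := by
    decide +kernel
  have hp := pos_of_chk (chk1 h (by norm_num) (x := p) (by push_cast; linarith only [h0])
    (by push_cast; linarith only [h1]))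
  simp only [E.val, NumI.lkR] at hp
  push_cast at hp
  norm_num at hp
  linarith only [hp]

theorem c_A3 : -uu (38 / 100) 0 < 850 / 10000 := by
  have h : chk [.add (.uu (.q 38 100) (.q 0 1)) (.q 850 10000)] 2 [V.of 1 0 0 0] = true := by
    decide +kernel
  have hp := pos_of_chk (chk1 h (by norm_num) (x := 0) (by norm_num) (by norm_num))
  simp only [E.val] at hp
  push_cast at hp
  norm_num at hp
  linarith only [hp]

theorem c_B1 {p : ℝ} (h0 : 200 / 10000 ≤ p) (h1 : p ≤ 2400 / 10000) :
    -uu p 0 - uu (16 / 100 + p) 0 < 2945 / 10000 := by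
  have h : chk [.add (.q 2945 10000) (.add (.uu (.var 0) (.q 0 1))
      (.uu (.add (.q 16 100) (.var 0)) (.q 0 1)))] 30 [V.of 10000 200 2400 0] = true := by
    decide +kernel
  have hp := pos_of_chk (chk1 h (by norm_num) (x := p) (by push_cast; linarith only [h0])
    (by push_cast; linarith only [h1]))
  simp only [E.val, NumI.lkR] at hp
  push_cast at hp
  norm_num at hp
  linarith only [hp]

theorem c_B0 : -uu (2 / 100) 0 < 1300 / 10000 := by
  have h : chk [.add (.uu (.q 2 100) (.q 0 1)) (.q 1300 10000)] 2 [V.of 1 0 0 0] = true := by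
    decide +kernel
  have hp := pos_of_chk (chk1 h (by norm_num) (x := 0) (by norm_num) (by norm_num))
  simp only [E.val] at hp
  push_cast at hp
  norm_num at hp
  linarith only [hp]

end

/-! ### real values -/

theorem uu_max {x : ℝ} (h0 : 1 / 2 ≤ x) (h1 : x ≤ 1) : uu x 0 ≤ 1616 / 10000 := by
  have := c_max
  rcases le_total x (5 / 6) with h | h
  · have := uu_real_mono (a := x) (b := 5 / 6) (by linarith only [h0]) h le_rfl
    linarith
  · have := uu_real_anti1 (a := 5 / 6) (b := x) le_rfl h h1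
    linarith

theorem uu_min {x : ℝ} (h0 : 0 ≤ x) (h1 : x ≤ 1 / 2) : -uu x 0 ≤ 1616 / 10000 := by
  have h := uu_one_sub x 0
  have := uu_max (x := 1 - x) (by linarith only [h1]) (by linarith only [h0])
  linarith only [h, this]

/-- slot `0` in the tail: the real value decreases in the hinge of the slot `0` -/
theorem mono0 {X x l : ℝ} (hX : 1 / 2 ≤ X) (hx : X ≤ x) (hxl : x ≤ l) (hl : l ≤ 1) :
    -uu (l - x) 0 - uu x 0 ≤ -uu (l - X) 0 - uu X 0 := by
  have h := uu_incr_real (w := l - x) (w0 := l - X) (X := 1 - l) (by linarith only [hxl]) (by linarith only [hx])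
    (by linarith only [hl]) (by linarith only [hX, hl])
  rw [show l - X + (1 - l) = 1 - X by ring, show l - x + (1 - l) = 1 - x by ring, uu_one_sub,
    uu_one_sub] at h
  linarith only [h]

/-- old value, slot `0` in the tail -/
theorem old0 {x l w : ℝ} (hx : 60 / 100 ≤ x) (hxl : x ≤ l) (hw : 0 ≤ w) (hlw : l + w ≤ 1) :
    V3 ⟨x, 0⟩ ⟨l, 0⟩ ⟨w, 0⟩ ≤ 1179 / 10000 - 2 * uu w 0 ∨
    (w ≤ 700 / 10000 ∧ V3 ⟨x, 0⟩ ⟨l, 0⟩ ⟨w, 0⟩ ≤ 1791 / 10000 - 2 * uu w 0) := by
  have h1 := mono0 (X := 6 / 10) (x := x) (l := l) (by norm_num) (by linarith only [hx]) hxl (by linarith only [hw, hlw])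
  have h2 := uu_max (x := l + w) (by linarith only [hx, hxl, hw]) hlw
  have h3 := c_X
  rw [V3_real]
  rcases le_total (l - 6 / 10) (3300 / 10000) with h4 | h4
  · left
    rcases le_total (l - 6 / 10) (200 / 10000) with h5 | h5
    · have a := c_A0 (p := l - 6 / 10) (by linarith only [hx, hxl]) h5
      have b := uu_real_anti (a := l - 6 / 10) (b := 2 / 100) (by linarith only [hx, hxl]) (by linarith only [h5])
        (by norm_num)
      rw [show (6 : ℝ) / 10 + (l - 6 / 10) = l by ring] at a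
      linarith only [h1, h2, h3, a, b]
    · have a := c_A1 (p := l - 6 / 10) h5 h4
      rw [show (6 : ℝ) / 10 + (l - 6 / 10) = l by ring] at a
      linarith only [h1, h2, h3, a]
  · right
    refine ⟨by linarith only [hlw, h4], ?_⟩
    rcases le_total (l - 6 / 10) (3800 / 10000) with h5 | h5
    · have a := c_A2 (p := l - 6 / 10) h4 h5
      rw [show (6 : ℝ) / 10 + (l - 6 / 10) = l by ring] at a
      linarith only [h1, h2, h3, a]
    · have a := c_A3
      have b := uu_real_mono (a := 38 / 100) (b := l - 6 / 10) (by norm_num) (by linarith only [h5])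
        (by linarith only [hw, hlw])
      have c := K4.uu_nn (x := l) (by linarith only [h5]) (by linarith only [hw, hlw])
      linarith only [h1, h2, h3, a, b, c]

/-- old value, slot `2` in the tail -/
theorem old2 {x l u : ℝ} (hx : 60 / 100 ≤ x) (hu : 0 ≤ u) (hul : u ≤ l) (hlx : l + x ≤ 1) :
    V3 ⟨u, 0⟩ ⟨l, 0⟩ ⟨x, 0⟩ ≤ 3498 / 10000 - uu u 0 ∧
    (16 / 100 ≤ u → V3 ⟨u, 0⟩ ⟨l, 0⟩ ⟨x, 0⟩ ≤ 3211 / 10000 - uu u 0) := by
  rw [V3_real]
  have h3 := c_X
  have h4 := uu_min (x := l - u) (by linarith only [hul]) (by linarith only [hx, hu, hlx])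
  have h5 := uu_min (x := l) (by linarith only [hu, hul]) (by linarith only [hx, hlx])
  rcases le_total x (5 / 6) with h | h
  · have h1 := V2_old_left (X := 6 / 10) (x := x) (w := l) (by norm_num) (by linarith only [hx]) h
      (by linarith only [hu, hul]) (by linarith only [hlx])
    rw [add_comm x l, add_comm (6 / 10) l] at h1
    have h2 := uu_max (x := l + 6 / 10) (by linarith only [hu, hul]) (by linarith only [hx, hlx])
    constructor
    · linarith only [h3, h4, h5, h1, h2]
    · intro h6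
      rcases le_total (l - u) (200 / 10000) with h7 | h7
      · have a := c_B0
        have b := uu_real_anti (a := l - u) (b := 2 / 100) (by linarith only [hul]) (by linarith only [h7])
          (by norm_num)
        linarith only [h3, h5, h1, h2, a, b]
      · have a := c_B1 (p := l - u) h7 (by linarith only [hx, hlx, h6])
        have b := uu_real_mono (a := 16 / 100 + (l - u)) (b := l) (by linarith only [h7]) (by linarith only [h6])
          (by linarith only [hx, hlx])
        linarith only [h3, h1, h2, a, b]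
  · have h1 := V2_old_right (x := x) (w := l) h (by linarith only [hu, hul]) (by linarith only [hlx])
    rw [add_comm x l] at h1
    constructor
    · linarith only [h4, h1]
    · intro _
      linarith only [h4, h1]

/-! ### rows -/

/-- new position: hinge `cu` in slot `0`, inner variable `cv`, hinge `cw` in slot `2`; the variables
are the three heights -/
def nE3 (cu cv cw bu bw n0 : ℤ) : E :=
  .sub (.add (.sub (.sub (.sub (.sub (.sub (.uu (.q (cv + cw) 100) (.add (.var 1) (.var 2)))
    (.mul .pi (.add (.add (.mul (.q cu 100) (.var 1)) (.mul (.q cv 100) (.var 0)))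
      (.mul (.q (2 * (cv - cw) - 100) 200) (.sub (.var 1) (.var 2))))))
    (.uu (.q (cv - cu) 100) (.sub (.var 1) (.var 0)))) (.uu (.q cv 100) (.var 1)))
    (.uu (.q cu 100) (.var 0))) (.mul (.q 2 1) (.uu (.q cw 100) (.var 2))))
    (.add (.mul (.q bu 10000) (.var 0)) (.mul (.q bw 10000) (.var 2)))) (.q n0 10000)

open NumI (V) in
theorem new3 {cu cv cw bu bw n0 t0 t1 m0 m1 k0 k1 : ℤ} {fuel c : ℕ}
    (h : chkT [nE3 cu cv cw bu bw n0] fuel c
      [V.of 10000 t0 t1, V.of 10000 m0 m1, V.of 10000 k0 k1] = true) {t m k : ℝ}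
    (h0 : (t0 : ℝ) / 10000 ≤ t) (h1 : t ≤ (t1 : ℝ) / 10000) (h2 : (m0 : ℝ) / 10000 ≤ m)
    (h3 : m ≤ (m1 : ℝ) / 10000) (h4 : (k0 : ℝ) / 10000 ≤ k) (h5 : k ≤ (k1 : ℝ) / 10000) :
    (n0 : ℝ) / 10000 < V3 ⟨(cu : ℝ) / 100, t⟩ ⟨(cv : ℝ) / 100, m⟩ ⟨(cw : ℝ) / 100, k⟩ +
      (bu : ℝ) / 10000 * t + (bw : ℝ) / 10000 * k := by
  have hp := pos_of_chk (chkT3 h (by norm_num) (x := t) (y := m) (z := k) (by push_cast; linarith only [h0])
    (by push_cast; linarith only [h1]) (by push_cast; linarith only [h2]) (by push_cast; linarith only [h3])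
    (by push_cast; linarith only [h4]) (by push_cast; linarith only [h5]))
  simp only [nE3, E.val, NumI.lkR] at hp
  push_cast at hp
  rw [V3_uu]
  rw [show (cv : ℝ) / 100 + (cw : ℝ) / 100 = ((cv : ℝ) + cw) / 100 by ring,
    show (cv : ℝ) / 100 - (cu : ℝ) / 100 = ((cv : ℝ) - cu) / 100 by ring,
    show ((cv : ℝ) / 100 - (cw : ℝ) / 100 - 1 / 2) = (2 * ((cv : ℝ) - cw) - 100) / 200 by ring]
  linarith only [hp]

/-- a real hinge `w` with `e` times `uu` -/
def wE (a0 a1 o e : ℤ) (w : E) : E :=
  .add (.add (.q o 10000) (.add (.q a0 10000) (.mul (.q a1 1000) (.var 0))))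
    (.mul (.q e 1) (.uu w (.q 0 1)))

open NumI (V) in
def wOK (a0 a1 o e wl wh : ℤ) : Bool :=
  (decide (200 < wl) || chk [wE a0 a1 o e (.q 200 10000)] 30 [V.of 10000 wl (min wh 200) 0]) &&
  (decide (wh < 200) || chk [wE a0 a1 o e (.var 0)] 30 [V.of 10000 (max wl 200) wh 0])

theorem w_sound {a0 a1 o e wl wh : ℤ} (h : wOK a0 a1 o e wl wh = true) (he : 0 ≤ e) {w : ℝ}
    (hw : 0 ≤ w) (hw0 : (wl : ℝ) / 10000 ≤ w) (hw1 : w ≤ (wh : ℝ) / 10000) :
    0 < (o : ℝ) / 10000 + ((a0 : ℝ) / 10000 + (a1 : ℝ) / 1000 * w) + e * uu w 0 := by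
  have he' : (0 : ℝ) ≤ e := by exact_mod_cast he
  unfold wOK at h
  simp only [Bool.and_eq_true, Bool.or_eq_true, decide_eq_true_eq] at h
  obtain ⟨c1, c2⟩ := h
  rcases le_total w (200 / 10000) with hs | hs
  · have c1 : NumU.chk _ _ _ = true := c1.resolve_left (by
      intro hc
      have : (200 : ℝ) < wl := by exact_mod_cast hc
      linarith only [hw0, hs, this])
    have hp := pos_of_chk (chk1 c1 (by norm_num) (x := w) (by push_cast; linarith only [hw0])
      (by
        push_cast
        rw [le_div_iff₀ (by norm_num)]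
        rw [le_div_iff₀ (by norm_num)] at hw1 hs
        exact le_min hw1 hs))
    have ha := uu_real_anti (a := w) (b := 200 / 10000) hw hs (by norm_num)
    simp only [wE, E.val, NumI.lkR] at hp
    push_cast at hp
    rw [zero_div] at hp
    have := mul_le_mul_of_nonneg_left ha he'
    linarith only [hp, this]
  · have c2 : NumU.chk _ _ _ = true := c2.resolve_left (by
      intro hc
      have : (wh : ℝ) < 200 := by exact_mod_cast hc
      linarith only [hw1, hs, this])
    have hp := pos_of_chk (chk1 c2 (by norm_num) (x := w)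
      (by
        push_cast
        rw [div_le_iff₀ (by norm_num)]
        rw [div_le_iff₀ (by norm_num)] at hw0 hs
        exact max_le hw0 hs) (by push_cast; linarith only [hw1]))
    simp only [wE, E.val, NumI.lkR] at hp
    push_cast at hp
    rw [zero_div] at hp
    linarith only [hp]

end K3

end TL

end Pool.Agent.Work.MP_b30479_gt.G2
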