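import Pool.Agent.Work.MP_b30479_gt.G2.TK3oneD

/-!
# Tails: `side_three2_one`
-/

namespace Pool.Agent.Work.MP_b30479_gt.G2

open VOL NumU SR

namespace TL

open K3o

/-- `side_three2` for `B = one` -/
theorem side_three2_one {Cc : Cl} {C : Ct} (hC : C.ok Cc) (hC2 : C ≠ .threeA) {x l u t m k G : ℝ}
    (hx : X0 .three .one ≤ x) (hu : 0 ≤ u) (hul : u ≤ l) (hlx : l + x ≤ 1)
    (t0 : (hbox .three .one false).t0 ≤ t) (t1 : t ≤ (hbox .three .one false).t1)
    (k0 : (hbox .three Cc false).t0 ≤ k) (k1 : k ≤ (hbox .three Cc false).t1)
    (m0 : (mw Cc .one).t0 ≤ m) (m1 : m ≤ (mw Cc .one).t1)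
    (s0 : (mw Cc .one).s0 ≤ m - k) (s1 : m - k ≤ (mw Cc .one).s1)
    (hE : EB .three C u (-k) G) :
    al .three .one Cc x ≤ V3 ⟨cN C, k⟩ ⟨42 / 100, m⟩ ⟨cT .three .one, t⟩ -
      V3 ⟨u, 0⟩ ⟨l, 0⟩ ⟨x, 0⟩ + G + be .three .one * t := by
  simp only [X0] at hx
  simp only [al, be, cT]
  have hU : UU ⟨u, 0⟩ = ur u := rfl
  have hu' : u ≤ 35 / 100 := by linarith only [hx, hul, hlx]
  obtain ⟨Pa, Pb, Pc, Pe, Ph⟩ := old2_all hx hu hul hlx
  generalize V3 ⟨u, 0⟩ ⟨l, 0⟩ ⟨x, 0⟩ = O at *
  simp only [hbox] at t0 t1
  cases C with
  | one =>
    have hc : Cc = .one := hC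
    subst hc
    simp only [hbox] at k0 k1
    simp only [mw] at m0 m1 s0 s1
    simp only [EB] at hE
    simp only [cN]
    rw [hU] at hE
    obtain ⟨E1, E2⟩ := hE
    rcases le_total u (4 / 25) with c | c
    · have Pb := Pb c
      rcases E1 c with ⟨E3, E4⟩ | E4
      · have K := use2' n2_one_1 (cN := 9 / 50) (kk := 3927 / 1250) (cc := 5441 / 10000) (t := t) (m := m) (k := k) (by norm_num) (by norm_num)
          (by norm_num) (by push_cast; linarith only [t0]) (by push_cast; linarith only [t1]) (by push_cast; linarith only [m0]) (by push_cast; linarith only [m1])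
          (by push_cast; linarith only [E3]) (by push_cast; linarith only [k1]) (by push_cast; linarith only [s0]) (by push_cast; linarith only [s1])
        linarith only [Pa, E4, K]
      · have K := use2' n2_one_2 (cN := 9 / 50) (kk := 163 / 100) (cc := 6812 / 10000) (t := t) (m := m) (k := k) (by norm_num) (by norm_num)
          (by norm_num) (by push_cast; linarith only [t0]) (by push_cast; linarith only [t1]) (by push_cast; linarith only [m0]) (by push_cast; linarith only [m1])
          (by push_cast; linarith only [k0]) (by push_cast; linarith only [k1]) (by push_cast; linarith only [s0]) (by push_cast; linarith only [s1])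
        linarith only [Pb, E4, K]
    · have E4 := E2 c
      have K := use2' n2_one_3 (cN := 9 / 50) (kk := 429 / 250) (cc := 6692 / 10000) (t := t) (m := m) (k := k) (by norm_num) (by norm_num)
        (by norm_num) (by push_cast; linarith only [t0]) (by push_cast; linarith only [t1]) (by push_cast; linarith only [m0]) (by push_cast; linarith only [m1])
        (by push_cast; linarith only [k0]) (by push_cast; linarith only [k1]) (by push_cast; linarith only [s0]) (by push_cast; linarith only [s1])
      linarith only [Pc, E4, K]
  | two =>
    have hc : Cc = .two := hC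
    subst hc
    simp only [hbox] at k0 k1
    simp only [mw] at m0 m1 s0 s1
    simp only [EB] at hE
    simp only [cN]
    rw [hU] at hE
    have K := use2' n2_two (cN := 1 / 4) (kk := 1571 / 1000) (cc := 6625 / 10000) (t := t) (m := m) (k := k) (by norm_num) (by norm_num)
      (by norm_num) (by push_cast; linarith only [t0]) (by push_cast; linarith only [t1]) (by push_cast; linarith only [m0]) (by push_cast; linarith only [m1])
      (by push_cast; linarith only [k0]) (by push_cast; linarith only [k1]) (by push_cast; linarith only [s0]) (by push_cast; linarith only [s1])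
    linarith only [Pc, Pe, hE, K]
  | twoE =>
    have hc : Cc = .twoE := hC
    subst hc
    simp only [hbox] at k0 k1
    simp only [mw] at m0 m1 s0 s1
    simp only [EB] at hE
    simp only [cN]
    rw [hU] at hE
    have K := use2' n2_twoE (cN := 11 / 50) (kk := 2262 / 1000) (cc := 5410 / 10000) (t := t) (m := m) (k := k) (by norm_num) (by norm_num)
      (by norm_num) (by push_cast; linarith only [t0]) (by push_cast; linarith only [t1]) (by push_cast; linarith only [m0]) (by push_cast; linarith only [m1])
      (by push_cast; linarith only [k0]) (by push_cast; linarith only [k1]) (by push_cast; linarith only [k1, m0]) (by push_cast; linarith only [s1])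
    linarith only [Pe, hE, K]
  | threeA => exact absurd rfl hC2
  | threeK =>
    have hc : Cc = .three := hC
    subst hc
    simp only [hbox] at k0 k1
    simp only [mw] at m0 m1 s0 s1
    simp only [EB] at hE
    simp only [cN]
    rw [hU] at hE
    have K := use2' n2_thrK (cN := 9 / 50) (kk := 353 / 250) (cc := 6843 / 10000) (t := t) (m := m) (k := k) (by norm_num) (by norm_num)
      (by norm_num) (by push_cast; linarith only [t0]) (by push_cast; linarith only [t1]) (by push_cast; linarith only [m0]) (by push_cast; linarith only [m1])
      (by push_cast; linarith only [k0]) (by push_cast; linarith only [k1]) (by push_cast; linarith only [s0]) (by push_cast; linarith only [k0, m1])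
    linarith only [hu, Pe, hE, K]
  | threeE =>
    have hc : Cc = .threeE := hC
    subst hc
    simp only [hbox] at k0 k1
    simp only [mw] at m0 m1 s0 s1
    simp only [EB] at hE
    simp only [cN]
    rw [hU] at hE
    have K := use2' n2_threeE (cN := 11 / 50) (kk := 1215 / 1000) (cc := 5610 / 10000) (t := t) (m := m) (k := k) (by norm_num) (by norm_num)
      (by norm_num) (by push_cast; linarith only [t0]) (by push_cast; linarith only [t1]) (by push_cast; linarith only [m0]) (by push_cast; linarith only [m1])
      (by push_cast; linarith only [k0]) (by push_cast; linarith only [k1]) (by push_cast; linarith only [s0]) (by push_cast; linarith only [k0, m1])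
    linarith only [Pe, hE, K]
  | ring =>
    have hc : Cc = .ring := hC
    subst hc
    simp only [hbox] at k0 k1
    simp only [mw] at m0 m1 s0 s1
    simp only [EB] at hE
    simp only [cN]
    rw [hU] at hE
    obtain ⟨E1, E2⟩ := hE
    rcases le_total u (7 / 50) with c | c
    · have E4 := E1 c
      have Ph := Ph c
      have K := use2' n2_ring_1 (cN := 9 / 50) (kk := 839 / 500) (cc := 6871 / 10000) (t := t) (m := m) (k := k) (by norm_num) (by norm_num)
        (by norm_num) (by push_cast; linarith only [t0]) (by push_cast; linarith only [t1]) (by push_cast; linarith only [k0, s0]) (by push_cast; linarith only [m1])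
        (by push_cast; linarith only [k0]) (by push_cast; linarith only [k1]) (by push_cast; linarith only [s0]) (by push_cast; linarith only [k0, m1])
      linarith only [E4, Ph, K]
    · have E4 := E2 c
      have K := use2' n2_ring_2 (cN := 9 / 50) (kk := 1397 / 1000) (cc := 6688 / 10000) (t := t) (m := m) (k := k) (by norm_num) (by norm_num)
        (by norm_num) (by push_cast; linarith only [t0]) (by push_cast; linarith only [t1]) (by push_cast; linarith only [k0, s0]) (by push_cast; linarith only [m1])
        (by push_cast; linarith only [k0]) (by push_cast; linarith only [k1]) (by push_cast; linarith only [s0]) (by push_cast; linarith only [k0, m1])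
      linarith only [hx, hul, hlx, Pc, E4, K]
  | touched =>
    have hk : -(1145 / 10000) ≤ k ∧ k ≤ 57 / 1000 := by
      clear m0 m1 s0 s1 hC
      cases Cc <;> simp only [hbox] at k0 k1 <;> constructor <;> linarith only [k0, k1]
    have hm : -1230 / 10000 ≤ m ∧ m ≤ -150 / 10000 := by
      clear k0 k1 s0 s1 hC
      cases Cc <;> simp only [mw] at m0 m1 <;> constructor <;> linarith only [m0, m1]
    have hms : -1050 / 10000 ≤ m - k ∧ m - k ≤ 700 / 10000 := by
      clear m0 m1 k0 k1 hC
      cases Cc <;> simp only [mw] at s0 s1 <;> constructor <;> linarith only [s0, s1]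
    simp only [EB] at hE
    simp only [cN]
    have K := use2' n2_t (cN := 1 / 5) (kk := 59 / 25) (cc := 5351 / 10000) (t := t) (m := m)
      (k := k) (by norm_num) (by norm_num)
      (by norm_num) (by push_cast; linarith only [t0]) (by push_cast; linarith only [t1]) (by push_cast; linarith only [hm, hm.1]) (by push_cast; linarith only [hm, hm.2])
      (by push_cast; linarith only [hk, hk.1]) (by push_cast; linarith only [hk, hk.2]) (by push_cast; linarith only [hms, hms.1])
      (by push_cast; linarith only [hms, hms.2])
    linarith only [Pa, hE, K]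

end TL

end Pool.Agent.Work.MP_b30479_gt.G2
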