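import Pool.Agent.Work.MP_b30479_gt.G2.TK3oneE
import Pool.Agent.Work.MP_b30479_gt.G2.TK3oneF

/-!
# Tails: a region with three crossings next to a digit `1` in the tail

`side_three0_one`, `side_three2_one`: the cases `B = one` of `side_three0`, `side_three2`.
-/
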