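import Pool.Agent.Work.MP_b30479_gt.G2.TDef2
import Pool.Agent.Work.MP_b30479_gt.G2.UAnti
import Pool.Agent.Work.NumU.Tree
import Pool.Agent.Work.MP_b30479_gt.G2.WLocX
import Pool.Agent.Work.MP_b30479_gt.G2.WVal

/-!
# Tails: a region with three crossings next to a digit `1` in the tail, expressions
-/

namespace Pool.Agent.Work.MP_b30479_gt.G2

open VOL NumU SR

namespace TL

namespace K3o

section
open NumI (V)
open NumU NumU.E

def r0 : E := q 0 1
def u1 (e : E) : E := E.uu e r0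
def eps : E := q 1 100
def eE : E := sub (sub (q 7 20) (var 0)) (var 1)

/-- the old value, slot `0`; `fd fw fe`: the terms at `d`, `w`, `e` are replaced by the one at
`1/100` -/
def p0 (fd fw fe zz : Bool) (n : ℤ) : E :=
  sub (add (add (cond fd (u1 eps) (u1 (var 0))) (cond fe (u1 eps) (u1 eE)))
      (mul (q n 1) (cond fw (u1 eps) (u1 (var 1)))))
    (add (cond zz r0 (u1 (sub (q 7 20) (var 0)))) (u1 (q 7 20)))

/-- the old value, slot `2` -/
def p2 (fd fw fe zz : Bool) (n : ℤ) : E :=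
  sub (add (add (add (cond fd (u1 eps) (u1 (var 0))) (cond fe (u1 eps) (u1 eE)))
      (mul (q n 1) (cond fw (u1 eps) (u1 (var 1)))))
    (cond zz (u1 (q 2 100)) (u1 (add (var 0) (var 1))))) (mul (q 2 1) (u1 (q 7 20)))

def rP (p : E) (cw c2 : ℤ) : E := sub (add p (mul (q cw 1000) (var 1))) (q c2 10000)

def es (p : E) (cw c2 : ℤ) (fe : Bool) : List E :=
  [rP p cw c2, cond fe (sub eE eps) (sub eps eE), neg eE]

def rowP (p : E) (cw c2 : ℤ) (fe : Bool) (c : ℕ) (dl dh wl wh : ℤ) : Bool :=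
  chkT (es p cw c2 fe) 30 c [V.of 1000 dl dh 0, V.of 1000 wl wh 0]

/-- the seven rows of an alternative -/
structure R7 (P : Bool → Bool → Bool → Bool → ℤ → E) (s2 : Bool) (n cw c2 wh : ℤ)
    (c1' c2' c3' c4' c5' c6' c7' : ℕ) : Prop where
  h1 : rowP (P false false false false n) cw c2 false c1' 10 350 10 wh = true
  h2 : rowP (P false false true false n) cw c2 true c2' 10 350 10 wh = true
  h3 : rowP (P false true false false n) cw c2 false c3' 10 350 0 10 = true
  h4 : rowP (P false true true (!s2) n) cw c2 true c4' 330 350 0 10 = true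
  h5 : rowP (P true false false false n) cw c2 false c5' 0 10 10 wh = true
  h6 : rowP (P true false true false n) cw c2 true c6' 0 10 10 wh = true
  h7 : rowP (P true true false s2 n) cw c2 false c7' 0 10 0 10 = true

/-- the new value, slot `0`, target `cn / 1000`; the variables are `t m k` -/
def N0 (cn : ℤ) : E :=
  sub (sub (sub (sub (add (neg (mul (mul pi (q 1 2)) (add (sub (add (mul (q 56 100) (var 1))
    (mul (q 84 100) (var 0))) (var 1)) (add (var 2) (mul (q (2 * (420 - cn)) 1000)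
      (sub (var 1) (var 2)))))))
    (E.uu (q (420 + cn) 1000) (add (var 1) (var 2)))) (E.uu (q 140 1000) (sub (var 1) (var 0))))
    (E.uu (q 420 1000) (var 1))) (E.uu (q 280 1000) (var 0))) (mul (q 2 1) (E.uu (q cn 1000) (var 2)))

/-- the new value, slot `2` -/
def N2 (cn : ℤ) : E :=
  sub (sub (sub (sub (add (neg (mul (mul pi (q 1 2)) (add (sub (add (mul (q (2 * cn) 1000) (var 1))
    (mul (q 84 100) (var 2))) (var 1)) (add (var 0) (mul (q 28 100) (sub (var 1) (var 0)))))))
    (E.uu (q 700 1000) (add (var 1) (var 0)))) (E.uu (q (420 - cn) 1000) (sub (var 1) (var 2))))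
    (E.uu (q 420 1000) (var 1))) (E.uu (q cn 1000) (var 2))) (mul (q 2 1) (E.uu (q 280 1000) (var 0)))

def rN (s2 : Bool) (cn : ℤ) (kn : ℤ) (kd : ℕ) (c1 : ℤ) (s0 s1 : ℤ) : List E :=
  [sub (add (add (cond s2 (N2 cn) (N0 cn)) (mul (q 19 10) (var 0))) (mul (q kn kd) (var 2)))
    (q c1 10000),
   sub (q s0 10000) (sub (var 1) (cond s2 (var 2) (var 0))),
   sub (sub (var 1) (cond s2 (var 2) (var 0))) (q s1 10000)]

def rowN (s2 : Bool) (cn kn : ℤ) (kd : ℕ) (c1 s0 s1 m0 m1 k0 k1 : ℤ) (c : ℕ) : Bool :=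
  chkT (rN s2 cn kn kd c1 s0 s1) 30 c
    [V.of 10000 (-1145) (-210) 0, V.of 10000 m0 m1 0, V.of 10000 k0 k1 0]

end

end K3o

end TL

end Pool.Agent.Work.MP_b30479_gt.G2
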