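import Pool.Agent.Work.MP_b30479_gt.G2.TK3oneA

/-!
# Tails: a region with three crossings next to a digit `1` in the tail, rows
-/

namespace Pool.Agent.Work.MP_b30479_gt.G2

open VOL NumU SR

namespace TL

namespace K3o

section
open NumI (V)
open NumU NumU.E

set_option linter.defProp false in
def p2_h_1 : rowP (p2 false false false false 2) 543 (-5180) false
    9852492975050407026022388554869244511322428556860800098733597471278589742746079449387409150431517200398944305970065155938171128908832389689078521078685170487946110302264175570907297893895658638631585825720100605964743034892447837749010592258095637481103902713562533491139442729872995538905257514726942770313625317020923132863968673431944482448514729705728 10 350 10 140 = true := by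
  decide +kernel

set_option linter.defProp false in
def p2_h_2 : rowP (p2 false false true false 2) 543 (-5180) true
    143135120 10 350 10 140 = true := by
  decide +kernel

set_option linter.defProp false in
def p2_h_3 : rowP (p2 false true false false 2) 543 (-5180) false
    49844026736529083479685916931915776 10 350 0 10 = true := by
  decide +kernel

set_option linter.defProp false in
def p2_h_4 : rowP (p2 false true true false 2) 543 (-5180) true
    8 330 350 0 10 = true := by
  decide +kernel

set_option linter.defProp false in
def p2_h_5 : rowP (p2 true false false false 2) 543 (-5180) false
    559121 0 10 10 140 = true := by
  decide +kernel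

set_option linter.defProp false in
def p2_h_6 : rowP (p2 true false true false 2) 543 (-5180) true
    9 0 10 10 140 = true := by
  decide +kernel

set_option linter.defProp false in
def p2_h_7 : rowP (p2 true true false true 2) 543 (-5180) false
    8 0 10 0 10 = true := by
  decide +kernel

set_option linter.defProp false in
def p2_h : R7 p2 true 2 543 (-5180) 140
    9852492975050407026022388554869244511322428556860800098733597471278589742746079449387409150431517200398944305970065155938171128908832389689078521078685170487946110302264175570907297893895658638631585825720100605964743034892447837749010592258095637481103902713562533491139442729872995538905257514726942770313625317020923132863968673431944482448514729705728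
    143135120
    49844026736529083479685916931915776
    8
    559121
    9
    8 :=
  ⟨p2_h_1, p2_h_2, p2_h_3, p2_h_4, p2_h_5, p2_h_6, p2_h_7⟩

set_option linter.defProp false in
def n0_one_1 : rowN false 180 3927 1250 5035 (-450) 700 (-900) (-180) (-940) (-210)
    557696 = true := by
  decide +kernel

set_option linter.defProp false in
def n0_one_2 : rowN false 180 163 100 6392 (-450) 700 (-900) (-180) (-1145) (-210)
    557696 = true := by
  decide +kernel

set_option linter.defProp false in
def n0_one_3 : rowN false 180 429 250 6472 (-450) 700 (-900) (-180) (-1145) (-210)
    9356722669600 = true := by
  decide +kernel

set_option linter.defProp false in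
def n0_two : rowN false 250 1571 1000 6225 (-400) 840 (-820) 50 (-570) 50
    8 = true := by
  decide +kernel

set_option linter.defProp false in
def n0_twoE : rowN false 220 2262 1000 5010 (-200) 750 (-620) (-50) (-980) (-760)
    8 = true := by
  decide +kernel

set_option linter.defProp false in
def n0_thrA_1 : rowN false 150 851 1000 6763 (-400) 840 (-820) 50 (-220) 220
    2401339972288528 = true := by
  decide +kernel

set_option linter.defProp false in
def n0_thrA_2 : rowN false 150 113 200 6532 (-400) 840 (-820) 50 (-220) 220
    2176 = true := by
  decide +kernel

set_option linter.defProp false in
def n0_threeE : rowN false 220 1215 1000 5210 (-400) 840 (-820) 50 (-280) (-50)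
    8 = true := by
  decide +kernel

set_option linter.defProp false in
def n0_ring_1 : rowN false 180 839 500 6681 (-340) 800 (-720) 0 (-40) 570
    2176 = true := by
  decide +kernel

set_option linter.defProp false in
def n0_ring_2 : rowN false 180 1397 1000 6468 (-340) 800 (-720) 0 (-40) 570
    8 = true := by
  decide +kernel

set_option linter.defProp false in
def n0_t : rowN false 200 59 25 4945 (-450) 840 (-900) 50 (-1145) 570
    2178 = true := by
  decide +kernel

end

end K3o

end TL

end Pool.Agent.Work.MP_b30479_gt.G2
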