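import Pool.Agent.Work.MP_b30479_gt.G2.TK3oneA

/-!
# Tails: a region with three crossings next to a digit `1` in the tail, rows
-/

namespace Pool.Agent.Work.MP_b30479_gt.G2

open VOL NumU SR

namespace TL

namespace K3o

section
open NumI (V)
open NumU NumU.E

set_option linter.defProp false in
def n2_one_1 : rowN true 180 3927 1250 5441 (-450) 700 (-900) (-180) (-940) (-210)
    11340149415438172196481363914138914850 = true := by
  decide +kernel

set_option linter.defProp false in
def n2_one_2 : rowN true 180 163 100 6812 (-450) 700 (-900) (-180) (-1145) (-210)
    48705048186874751379181585941730191015034233345 = true := by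
  decide +kernel

set_option linter.defProp false in
def n2_one_3 : rowN true 180 429 250 6692 (-450) 700 (-900) (-180) (-1145) (-210)
    40186817582611833553409 = true := by
  decide +kernel

set_option linter.defProp false in
def n2_two : rowN true 250 1571 1000 6625 (-1050) 140 (-1140) (-150) (-570) 50
    2177 = true := by
  decide +kernel

set_option linter.defProp false in
def n2_twoE : rowN true 220 2262 1000 5410 (-480) 150 (-1230) (-800) (-980) (-760)
    8 = true := by
  decide +kernel

set_option linter.defProp false in
def n2_thrK : rowN true 180 353 250 6843 (-1050) 140 (-1140) (-150) (-220) 220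
    142706704 = true := by
  decide +kernel

set_option linter.defProp false in
def n2_threeE : rowN true 220 1215 1000 5610 (-1050) 140 (-1140) (-150) (-280) (-50)
    8 = true := by
  decide +kernel

set_option linter.defProp false in
def n2_ring_1 : rowN true 180 839 500 6871 (-1050) 140 (-1140) (-150) (-40) 570
    36643045634 = true := by
  decide +kernel

set_option linter.defProp false in
def n2_ring_2 : rowN true 180 1397 1000 6688 (-1050) 140 (-1140) (-150) (-40) 570
    2177 = true := by
  decide +kernel

set_option linter.defProp false in
def n2_t : rowN true 200 59 25 5351 (-1050) 700 (-1230) (-150) (-1145) 570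
    2178 = true := by
  decide +kernel

end

end K3o

end TL

end Pool.Agent.Work.MP_b30479_gt.G2
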