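import Pool.Agent.Work.MP_b30479_gt.G2.TK3oneA

/-!
# Tails: a region with three crossings next to a digit `1` in the tail, values
-/

namespace Pool.Agent.Work.MP_b30479_gt.G2

open VOL NumU SR

namespace TL

namespace K3o


/-! ### the real axis -/

/-- the value on the real axis -/
noncomputable def ur (x : ℝ) : ℝ := uu x 0

theorem continuous_ur : Continuous ur := by
  have e : ur = fun x : ℝ => UU ((x : ℂ)) := by
    funext x
    unfold ur uu
    congr 1
  rw [e]
  exact continuous_UU.comp Complex.continuous_ofReal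

theorem hasDerivAt_ur {x : ℝ} (h0 : 0 < x) (h1 : x < 1) : HasDerivAt ur (NumI.lnA x 0) x := by
  have h := uu_line (x := 0) (t := 0) (a := 1) (b := 0) (τ := x) (by linarith) (by linarith)
  have e : (fun τ : ℝ => uu (0 + τ * 1) (0 + τ * 0)) = ur := by
    funext s
    have e1 : 0 + s * 1 = s := by ring
    have e2 : 0 + s * 0 = 0 := by ring
    rw [e1, e2]
    rfl
  rw [e] at h
  refine h.congr_deriv ?_
  have e1 : 0 + x * 1 = x := by ring
  have e2 : 0 + x * 0 = 0 := by ring
  rw [e1, e2]
  ring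

theorem lnA_re (x : ℝ) : NumI.lnA x 0 = Real.log (4 * Real.sin (Real.pi * x) ^ 2) / 2 := by
  unfold NumI.lnA
  simp

theorem sin_pos' {x : ℝ} (h0 : 0 < x) (h1 : x < 1) : 0 < Real.sin (Real.pi * x) := by
  have hp := Real.pi_pos
  apply Real.sin_pos_of_pos_of_lt_pi
  · positivity
  · nlinarith

theorem lnA_anti {x x' : ℝ} (h0 : 1 / 2 ≤ x) (h : x ≤ x') (h1 : x' < 1) :
    NumI.lnA x' 0 ≤ NumI.lnA x 0 := by
  have hp := Real.pi_pos
  have s1 := sin_pos' (x := x) (by linarith) (by linarith)
  have s2 := sin_pos' (x := x') (by linarith) h1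
  have h3 : Real.sin (Real.pi * x') ≤ Real.sin (Real.pi * x) := by
    rw [← Real.sin_pi_sub (Real.pi * x'), ← Real.sin_pi_sub (Real.pi * x)]
    apply Real.sin_le_sin_of_le_of_le_pi_div_two <;> nlinarith
  rw [lnA_re, lnA_re]
  have h4 : Real.log (4 * Real.sin (Real.pi * x') ^ 2) ≤ Real.log (4 * Real.sin (Real.pi * x) ^ 2) := by
    apply Real.log_le_log (by positivity)
    have := pow_le_pow_left₀ s2.le h3 2
    linarith
  linarith

/-- concavity on `[1/2, 1]` -/
theorem ur_conc {a b s : ℝ} (h1 : 1 / 2 ≤ a) (hab : a ≤ b) (hs : 0 ≤ s) (hb : b + s ≤ 1) :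
    ur a - ur (a + s) ≤ ur b - ur (b + s) := by
  rcases hs.eq_or_lt with rfl | hs
  · simp
  have hm : MonotoneOn (fun x => ur x - ur (x + s)) (Set.Icc (1 / 2) (1 - s)) := by
    apply monotoneOn_of_deriv_nonneg (convex_Icc _ _)
    · exact (continuous_ur.sub (continuous_ur.comp (continuous_id.add continuous_const))).continuousOn
    · intro x hx
      rw [interior_Icc] at hx
      have d1 := hasDerivAt_ur (x := x) (by linarith [hx.1]) (by linarith [hx.2])
      have d2 := (hasDerivAt_ur (x := x + s) (by linarith [hx.1]) (by linarith [hx.2])).comp_add_const x s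
      exact (d1.sub d2).differentiableAt.differentiableWithinAt
    · intro x hx
      rw [interior_Icc] at hx
      have d1 := hasDerivAt_ur (x := x) (by linarith [hx.1]) (by linarith [hx.2])
      have d2 := (hasDerivAt_ur (x := x + s) (by linarith [hx.1]) (by linarith [hx.2])).comp_add_const x s
      have d3 : HasDerivAt (fun x => ur x - ur (x + s)) _ x := d1.sub d2
      rw [d3.deriv]
      have := lnA_anti hx.1.le (by linarith : x ≤ x + s) (by linarith [hx.2])
      linarith
  exact hm ⟨h1, by linarith⟩ ⟨by linarith, by linarith⟩ hab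

theorem ur_mono {a b : ℝ} (h1 : 1 / 2 ≤ a) (hab : a ≤ b) (hb : b ≤ 5 / 6) : ur a ≤ ur b := by
  have hp := Real.pi_pos
  have hm : MonotoneOn ur (Set.Icc (1 / 2) (5 / 6)) := by
    apply monotoneOn_of_deriv_nonneg (convex_Icc _ _) continuous_ur.continuousOn
    · intro x hx
      rw [interior_Icc] at hx
      exact (hasDerivAt_ur (x := x) (by linarith [hx.1]) (by linarith [hx.2])).differentiableAt.differentiableWithinAt
    · intro x hx
      rw [interior_Icc] at hx
      rw [(hasDerivAt_ur (x := x) (by linarith [hx.1]) (by linarith [hx.2])).deriv, lnA_re]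
      have h3 : 1 / 2 ≤ Real.sin (Real.pi * x) := by
        rw [← Real.sin_pi_div_six, ← Real.sin_pi_sub (Real.pi * x)]
        apply Real.sin_le_sin_of_le_of_le_pi_div_two <;> nlinarith [hx.1, hx.2]
      have : 0 ≤ Real.log (4 * Real.sin (Real.pi * x) ^ 2) := by
        apply Real.log_nonneg
        nlinarith
      linarith
  exact hm ⟨h1, by linarith⟩ ⟨by linarith, hb⟩ hab

theorem ur_anti {a b : ℝ} (h1 : 0 ≤ a) (hab : a ≤ b) (hb : b ≤ 1 / 6) : ur b ≤ ur a := by
  have hp := Real.pi_pos
  have hm : AntitoneOn ur (Set.Icc 0 (1 / 6)) := by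
    apply antitoneOn_of_deriv_nonpos (convex_Icc _ _) continuous_ur.continuousOn
    · intro x hx
      rw [interior_Icc] at hx
      exact (hasDerivAt_ur (x := x) hx.1 (by linarith [hx.2])).differentiableAt.differentiableWithinAt
    · intro x hx
      rw [interior_Icc] at hx
      rw [(hasDerivAt_ur (x := x) hx.1 (by linarith [hx.2])).deriv, lnA_re]
      have h3 : Real.sin (Real.pi * x) ≤ 1 / 2 := by
        rw [← Real.sin_pi_div_six]
        apply Real.sin_le_sin_of_le_of_le_pi_div_two <;> nlinarith [hx.1, hx.2]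
      have h4 := sin_pos' (x := x) hx.1 (by linarith [hx.2])
      have : Real.log (4 * Real.sin (Real.pi * x) ^ 2) ≤ 0 := by
        apply Real.log_nonpos (by positivity)
        nlinarith
      linarith
  exact hm ⟨h1, by linarith⟩ ⟨by linarith, hb⟩ hab

theorem ur_zero : ur 0 = 0 := by
  unfold ur
  rw [UA.uu_zero]
  simp

theorem ur_one_sub (x : ℝ) : ur (1 - x) = -ur x := uu_one_sub x 0

section
open NumI (V)
open NumU NumU.E

theorem ur_sixth : -(1616 / 10000) ≤ ur (1 / 6) := by
  have h : chk [add (E.uu (q 1 6) (q 0 1)) (q 1616 10000)] 1 [V.of 1 0 0] = true := by decide +kernel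
  have hp := pos_of_chk (chk1 h (by norm_num) (x := 0) (by norm_num) (by norm_num))
  simp only [val] at hp
  unfold ur
  norm_num at hp ⊢
  linarith

/-! ### soundness of the rows of the old values -/

theorem u1_val (e : E) (xs : List ℝ) : (u1 e).val xs = ur (e.val xs) := by
  unfold u1 ur
  simp only [r0, val]
  norm_num

theorem k0 (a b : ℝ) : NumI.lkR [a, b] 0 = a := rfl
theorem k1 (a b : ℝ) : NumI.lkR [a, b] 1 = b := rfl

/-- the old value, slot `0` -/
noncomputable def PS0 (n d w e : ℝ) : ℝ := ur d + ur e + n * ur w - (ur (7 / 20 - d) + ur (7 / 20))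

/-- the old value, slot `2` -/
noncomputable def PS2 (n d w e : ℝ) : ℝ := ur d + ur e + n * ur w + ur (d + w) - 2 * ur (7 / 20)

theorem flag_le {f : Bool} {a b : E} {xs : List ℝ} {x c : ℝ} (ha : (u1 a).val xs = ur c)
    (hb : (u1 b).val xs = ur x) (h0 : 0 ≤ x) (hc : c ≤ 1 / 6) (hf : f = true → x ≤ c) :
    (cond f (u1 a) (u1 b)).val xs ≤ ur x := by
  cases f
  · exact hb.le
  · rw [cond_true, ha]
    exact ur_anti h0 (hf rfl) hc

theorem eE_val {d w e : ℝ} (hs : d + w + e = 7 / 20) : eE.val [d, w] = e := by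
  simp only [eE, val, k0, k1]
  norm_num
  linarith

theorem eps_val (xs : List ℝ) : eps.val xs = 1 / 100 := by
  simp only [eps, val]
  norm_num

theorem p0_le {fd fw fe zz : Bool} {n : ℤ} (hn : 0 ≤ n) {d w e : ℝ} (hd0 : 0 ≤ d) (hw0 : 0 ≤ w)
    (he0 : 0 ≤ e) (hs : d + w + e = 7 / 20) (hd : fd = true → d ≤ 1 / 100)
    (hw : fw = true → w ≤ 1 / 100) (he : fe = true → e ≤ 1 / 100)
    (hz : zz = true → 7 / 20 - d ≤ 2 / 100) : (p0 fd fw fe zz n).val [d, w] ≤ PS0 n d w e := by
  have hn' : (0 : ℝ) ≤ n := by exact_mod_cast hn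
  have a1 : (cond fd (u1 eps) (u1 (var 0))).val [d, w] ≤ ur d :=
    flag_le (by rw [u1_val, eps_val]) (by rw [u1_val]; rfl) hd0 (by norm_num) hd
  have a2 : (cond fe (u1 eps) (u1 eE)).val [d, w] ≤ ur e :=
    flag_le (by rw [u1_val, eps_val]) (by rw [u1_val, eE_val hs]) he0 (by norm_num) he
  have a3 : (cond fw (u1 eps) (u1 (var 1))).val [d, w] ≤ ur w :=
    flag_le (by rw [u1_val, eps_val]) (by rw [u1_val]; rfl) hw0 (by norm_num) hw
  have a4 : ur (7 / 20 - d) ≤ (cond zz r0 (u1 (sub (q 7 20) (var 0)))).val [d, w] := by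
    cases zz
    · rw [cond_false, u1_val]
      simp only [val, k0]
      norm_num
    · rw [cond_true]
      have := ur_anti le_rfl (by linarith : 0 ≤ 7 / 20 - d) (by linarith [hz rfl])
      rw [ur_zero] at this
      simp only [r0, val]
      norm_num
      linarith
  have a5 : (u1 (q 7 20)).val [d, w] = ur (7 / 20) := by
    rw [u1_val]
    simp only [val]
    norm_num
  have a6 := mul_le_mul_of_nonneg_left a3 hn'
  unfold p0 PS0
  simp only [val] at *
  norm_num at a5 ⊢
  linarith

theorem p2_le {fd fw fe zz : Bool} {n : ℤ} (hn : 0 ≤ n) {d w e : ℝ} (hd0 : 0 ≤ d) (hw0 : 0 ≤ w)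
    (he0 : 0 ≤ e) (hs : d + w + e = 7 / 20) (hd : fd = true → d ≤ 1 / 100)
    (hw : fw = true → w ≤ 1 / 100) (he : fe = true → e ≤ 1 / 100)
    (hz : zz = true → d + w ≤ 2 / 100) : (p2 fd fw fe zz n).val [d, w] ≤ PS2 n d w e := by
  have hn' : (0 : ℝ) ≤ n := by exact_mod_cast hn
  have a1 : (cond fd (u1 eps) (u1 (var 0))).val [d, w] ≤ ur d :=
    flag_le (by rw [u1_val, eps_val]) (by rw [u1_val]; rfl) hd0 (by norm_num) hd
  have a2 : (cond fe (u1 eps) (u1 eE)).val [d, w] ≤ ur e :=
    flag_le (by rw [u1_val, eps_val]) (by rw [u1_val, eE_val hs]) he0 (by norm_num) he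
  have a3 : (cond fw (u1 eps) (u1 (var 1))).val [d, w] ≤ ur w :=
    flag_le (by rw [u1_val, eps_val]) (by rw [u1_val]; rfl) hw0 (by norm_num) hw
  have a4 : (cond zz (u1 (q 2 100)) (u1 (add (var 0) (var 1)))).val [d, w] ≤ ur (d + w) :=
    flag_le (c := 2 / 100) (by rw [u1_val]; simp only [val]; norm_num)
      (by rw [u1_val]; rfl) (by linarith) (by norm_num) hz
  have a5 : (u1 (q 7 20)).val [d, w] = ur (7 / 20) := by
    rw [u1_val]
    simp only [val]
    norm_num
  have a6 := mul_le_mul_of_nonneg_left a3 hn'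
  unfold p2 PS2
  simp only [val] at *
  norm_num at a5 ⊢
  linarith

theorem row_use {p : E} {cw c2 : ℤ} {fe : Bool} {c : ℕ} {dl dh wl wh : ℤ}
    (h : rowP p cw c2 fe c dl dh wl wh = true) {d w e : ℝ} (hs : d + w + e = 7 / 20)
    (he0 : 0 ≤ e) (hfe : fe = true → e ≤ 1 / 100) (hfe' : fe = false → 1 / 100 ≤ e)
    (d1 : (dl : ℝ) / 1000 ≤ d) (d2 : d ≤ (dh : ℝ) / 1000) (w1 : (wl : ℝ) / 1000 ≤ w)
    (w2 : w ≤ (wh : ℝ) / 1000) :
    (c2 : ℝ) / 10000 < p.val [d, w] + (cw : ℝ) / 1000 * w := by
  obtain ⟨a, ha, hp⟩ := chkT2 h (by norm_num) (x := d) (y := w) (by push_cast; exact d1)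
    (by push_cast; exact d2) (by push_cast; exact w1) (by push_cast; exact w2)
  have hE := eE_val hs
  simp only [es, List.mem_cons, List.not_mem_nil, or_false] at ha
  rcases ha with rfl | rfl | rfl
  · simp only [rP, val, k1] at hp
    push_cast at hp
    linarith
  · exfalso
    cases fe
    · simp only [cond_false, val, hE, eps_val] at hp
      linarith [hfe' rfl]
    · simp only [cond_true, val, hE, eps_val] at hp
      linarith [hfe rfl]
  · exfalso
    simp only [val, hE] at hp
    linarith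

theorem sound7 {P : Bool → Bool → Bool → Bool → ℤ → E} {s2 : Bool} {n cw c2 wh : ℤ}
    {c1' c2' c3' c4' c5' c6' c7' : ℕ} (h : R7 P s2 n cw c2 wh c1' c2' c3' c4' c5' c6' c7')
    {Q : ℝ → ℝ → ℝ → ℝ → ℝ} {d w e : ℝ} (hd0 : 0 ≤ d) (hw0 : 0 ≤ w) (he0 : 0 ≤ e)
    (hs : d + w + e = 7 / 20) (hw : w ≤ (wh : ℝ) / 1000)
    (hP : ∀ fd fw fe zz : Bool, (fd = true → d ≤ 1 / 100) → (fw = true → w ≤ 1 / 100) →
      (fe = true → e ≤ 1 / 100) →
      (zz = true → (s2 = false → 7 / 20 - d ≤ 2 / 100) ∧ (s2 = true → d + w ≤ 2 / 100)) →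
      (P fd fw fe zz n).val [d, w] ≤ Q n d w e) :
    (c2 : ℝ) / 10000 ≤ Q n d w e + (cw : ℝ) / 1000 * w := by
  have f0 : (false = true) → False := by decide
  rcases le_total (1 / 100) d with b1 | b1
  · rcases le_total (1 / 100) w with b2 | b2
    · rcases le_total (1 / 100) e with b3 | b3
      · have k := row_use h.h1 hs he0 (fun h => (f0 h).elim) (fun _ => b3) (by push_cast; linarith)
          (by push_cast; linarith) (by push_cast; linarith) hw
        have k' := hP false false false false (fun h => (f0 h).elim) (fun h => (f0 h).elim)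
          (fun h => (f0 h).elim) (fun h => (f0 h).elim)
        linarith
      · have k := row_use h.h2 hs he0 (fun _ => b3) (fun h => by simp at h)
          (by push_cast; linarith) (by push_cast; linarith) (by push_cast; linarith) hw
        have k' := hP false false true false (fun h => (f0 h).elim) (fun h => (f0 h).elim)
          (fun _ => b3) (fun h => (f0 h).elim)
        linarith
    · rcases le_total (1 / 100) e with b3 | b3
      · have k := row_use h.h3 hs he0 (fun h => (f0 h).elim) (fun _ => b3) (by push_cast; linarith)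
          (by push_cast; linarith) (by push_cast; linarith) (by push_cast; linarith)
        have k' := hP false true false false (fun h => (f0 h).elim) (fun _ => b2)
          (fun h => (f0 h).elim) (fun h => (f0 h).elim)
        linarith
      · have k := row_use h.h4 hs he0 (fun _ => b3) (fun h => by simp at h)
          (by push_cast; linarith) (by push_cast; linarith) (by push_cast; linarith)
          (by push_cast; linarith)
        have k' := hP false true true (!s2) (fun h => (f0 h).elim) (fun _ => b2) (fun _ => b3)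
          (fun h => ⟨fun _ => by linarith, fun h' => by rw [h'] at h; simp at h⟩)
        linarith
  · rcases le_total (1 / 100) w with b2 | b2
    · rcases le_total (1 / 100) e with b3 | b3
      · have k := row_use h.h5 hs he0 (fun h => (f0 h).elim) (fun _ => b3) (by push_cast; linarith)
          (by push_cast; linarith) (by push_cast; linarith) hw
        have k' := hP true false false false (fun _ => b1) (fun h => (f0 h).elim)
          (fun h => (f0 h).elim) (fun h => (f0 h).elim)
        linarith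
      · have k := row_use h.h6 hs he0 (fun _ => b3) (fun h => by simp at h)
          (by push_cast; linarith) (by push_cast; linarith) (by push_cast; linarith) hw
        have k' := hP true false true false (fun _ => b1) (fun h => (f0 h).elim)
          (fun _ => b3) (fun h => (f0 h).elim)
        linarith
    · have b3 : 1 / 100 ≤ e := by linarith
      have k := row_use h.h7 hs he0 (fun h => (f0 h).elim) (fun _ => b3) (by push_cast; linarith)
        (by push_cast; linarith) (by push_cast; linarith) (by push_cast; linarith)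
      have k' := hP true true false s2 (fun _ => b1) (fun _ => b2)
        (fun h => (f0 h).elim) (fun h => ⟨fun h' => by rw [h'] at h; simp at h, fun _ => by linarith⟩)
      linarith

theorem sound0 {n cw c2 wh : ℤ} {c1' c2' c3' c4' c5' c6' c7' : ℕ}
    (h : R7 p0 false n cw c2 wh c1' c2' c3' c4' c5' c6' c7') (hn : 0 ≤ n) {d w e : ℝ}
    (hd0 : 0 ≤ d) (hw0 : 0 ≤ w) (he0 : 0 ≤ e) (hs : d + w + e = 7 / 20)
    (hw : w ≤ (wh : ℝ) / 1000) :
    (c2 : ℝ) / 10000 ≤ PS0 n d w e + (cw : ℝ) / 1000 * w :=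
  sound7 h (Q := PS0) hd0 hw0 he0 hs hw fun _ _ _ _ h1 h2 h3 h4 =>
    p0_le hn hd0 hw0 he0 hs h1 h2 h3 fun hz => (h4 hz).1 rfl

theorem sound2 {n cw c2 wh : ℤ} {c1' c2' c3' c4' c5' c6' c7' : ℕ}
    (h : R7 p2 true n cw c2 wh c1' c2' c3' c4' c5' c6' c7') (hn : 0 ≤ n) {d w e : ℝ}
    (hd0 : 0 ≤ d) (hw0 : 0 ≤ w) (he0 : 0 ≤ e) (hs : d + w + e = 7 / 20)
    (hw : w ≤ (wh : ℝ) / 1000) :
    (c2 : ℝ) / 10000 ≤ PS2 n d w e + (cw : ℝ) / 1000 * w :=
  sound7 h (Q := PS2) hd0 hw0 he0 hs hw fun _ _ _ _ h1 h2 h3 h4 =>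
    p2_le hn hd0 hw0 he0 hs h1 h2 h3 fun hz => (h4 hz).2 rfl

end

end K3o

end TL

end Pool.Agent.Work.MP_b30479_gt.G2
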