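import Pool.Agent.Work.MP_b30479_gt.G2.TK3oneB1
import Pool.Agent.Work.MP_b30479_gt.G2.TK3oneB2
import Pool.Agent.Work.MP_b30479_gt.G2.TK3oneB3
import Pool.Agent.Work.MP_b30479_gt.G2.TK3oneB4
import Pool.Agent.Work.MP_b30479_gt.G2.TK3oneB5
import Pool.Agent.Work.MP_b30479_gt.G2.TK3oneB6
import Pool.Agent.Work.MP_b30479_gt.G2.TK3oneC

/-!
# Tails: a region with three crossings next to a digit `1` in the tail, use of the rows
-/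

namespace Pool.Agent.Work.MP_b30479_gt.G2

open VOL NumU SR

namespace TL

namespace K3o


/-! ### the values of a region with three crossings -/

theorem V3_uu (a α b β c γ : ℝ) : V3 ⟨a, α⟩ ⟨b, β⟩ ⟨c, γ⟩ =
    -(Real.pi / 2 * (2 * (a * β + α * b) + 2 * (b - c) * (β - γ) - β + γ)) +
      uu (b + c) (β + γ) - uu (b - a) (β - α) - uu b β - uu a α - 2 * uu c γ := by
  have e1 : (⟨b, β⟩ : ℂ) + ⟨c, γ⟩ = ⟨b + c, β + γ⟩ := by apply Complex.ext <;> simp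
  have e2 : (⟨b, β⟩ : ℂ) - ⟨a, α⟩ = ⟨b - a, β - α⟩ := by apply Complex.ext <;> simp
  unfold V3 uu
  rw [e1, e2]
  have e3 : (2 * (⟨a, α⟩ : ℂ) * (⟨b, β⟩ : ℂ) + ((⟨b, β⟩ : ℂ) - (⟨c, γ⟩ : ℂ)) ^ 2 - (⟨b, β⟩ : ℂ) +
      (⟨c, γ⟩ : ℂ)).im =
      2 * (a * β + α * b) + 2 * (b - c) * (β - γ) - β + γ := by
    simp [pow_two, Complex.mul_im, Complex.mul_re]
    ring
  rw [e3]

theorem V3_re (a b c : ℝ) : V3 ⟨a, 0⟩ ⟨b, 0⟩ ⟨c, 0⟩ =
    ur (b + c) - ur (b - a) - ur b - ur a - 2 * ur c := by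
  rw [V3_uu]
  unfold ur
  norm_num

/-- the old value, slot `0` in the tail -/
theorem old0 {x l w : ℝ} (hx : 65 / 100 ≤ x) (hxl : x ≤ l) (hw : 0 ≤ w) (hlw : l + w ≤ 1) :
    PS0 2 (l - 65 / 100) w (1 - l - w) ≤ -V3 ⟨x, 0⟩ ⟨l, 0⟩ ⟨w, 0⟩ := by
  rw [V3_re]
  have h := ur_conc (a := 65 / 100) (b := x) (s := 1 - l) (by norm_num) hx (by linarith)
    (by linarith)
  have e1 : ur (65 / 100 + (1 - l)) = -ur (l - 65 / 100) := by
    rw [← ur_one_sub]; congr 1; ring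
  have e2 : ur (x + (1 - l)) = -ur (l - x) := by
    rw [← ur_one_sub]; congr 1; ring
  have e3 : ur (65 / 100) = -ur (7 / 20) := by
    rw [← ur_one_sub]; congr 1; norm_num
  have e4 : ur l = -ur (1 - l) := by rw [ur_one_sub, neg_neg]
  have e5 : ur (l + w) = -ur (1 - l - w) := by
    rw [← ur_one_sub]; congr 1; ring
  have e6 : (7 : ℝ) / 20 - (l - 65 / 100) = 1 - l := by ring
  unfold PS0
  rw [e6]
  rw [e1, e2, e3] at h
  rw [e4, e5]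
  linarith

/-- the old value, slot `2` in the tail, `x ≤ 5/6` -/
theorem old2 {x l w : ℝ} (hx : 65 / 100 ≤ x) (hx1 : x ≤ 5 / 6) (hl : 0 ≤ l) (hlx : l + x ≤ 1) :
    PS2 1 (l - w) w (7 / 20 - l) ≤ -V3 ⟨w, 0⟩ ⟨l, 0⟩ ⟨x, 0⟩ := by
  rw [V3_re]
  have h := ur_conc (a := 65 / 100) (b := x) (s := l) (by norm_num) hx hl (by linarith)
  have h' := ur_mono (a := 65 / 100) (b := x) (by norm_num) hx hx1
  have e1 : ur (65 / 100 + l) = -ur (7 / 20 - l) := by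
    rw [← ur_one_sub]; congr 1; ring
  have e2 : ur (65 / 100) = -ur (7 / 20) := by
    rw [← ur_one_sub]; congr 1; norm_num
  have e3 : l - w + w = l := by ring
  have e4 : ur (l + x) = ur (x + l) := by rw [add_comm]
  unfold PS2
  rw [e3]
  rw [e1, e2] at h
  rw [e2] at h'
  rw [e4]
  linarith

/-- the old value, slot `2` in the tail, `5/6 ≤ x` -/
theorem old2' {x l w : ℝ} (hx : 5 / 6 ≤ x) (hw : 0 ≤ w) (hwl : w ≤ l) (hlx : l + x ≤ 1) :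
    -(3232 / 10000) ≤ -V3 ⟨w, 0⟩ ⟨l, 0⟩ ⟨x, 0⟩ ∧ -(1616 / 10000) ≤ ur w := by
  rw [V3_re]
  have e1 : ur x = -ur (1 - x) := by rw [ur_one_sub, neg_neg]
  have e2 : ur (l + x) = -ur (1 - x - l) := by
    rw [← ur_one_sub]; congr 1; ring
  have h1 := ur_anti (a := l) (b := 1 - x) (by linarith) (by linarith) (by linarith)
  have h2 := ur_anti (a := 1 - x - l) (b := 1 - x) (by linarith) (by linarith) (by linarith)
  have h3 := ur_anti (a := l - w) (b := 1 / 6) (by linarith) (by linarith) le_rfl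
  have h4 := ur_anti (a := w) (b := 1 / 6) (by linarith) (by linarith) le_rfl
  have h5 := ur_sixth
  rw [e1, e2]
  constructor <;> linarith

section
open NumI (V)
open NumU NumU.E

theorem l30 (a b c : ℝ) : NumI.lkR [a, b, c] 0 = a := rfl
theorem l31 (a b c : ℝ) : NumI.lkR [a, b, c] 1 = b := rfl
theorem l32 (a b c : ℝ) : NumI.lkR [a, b, c] 2 = c := rfl

theorem N0_val (cn : ℤ) (t m k : ℝ) : (N0 cn).val [t, m, k] =
    V3 ⟨28 / 100, t⟩ ⟨42 / 100, m⟩ ⟨(cn : ℝ) / 1000, k⟩ := by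
  rw [V3_uu]
  simp only [N0, val, l30, l31, l32]
  have e1 : ((420 + cn : ℤ) : ℝ) / (1000 : ℕ) = 42 / 100 + (cn : ℝ) / 1000 := by push_cast; ring
  have e2 : ((2 * (420 - cn) : ℤ) : ℝ) / (1000 : ℕ) = 2 * (42 / 100 - (cn : ℝ) / 1000) := by
    push_cast; ring
  rw [e1, e2]
  norm_num
  ring

theorem N2_val (cn : ℤ) (t m k : ℝ) : (N2 cn).val [t, m, k] =
    V3 ⟨(cn : ℝ) / 1000, k⟩ ⟨42 / 100, m⟩ ⟨28 / 100, t⟩ := by
  rw [V3_uu]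
  simp only [N2, val, l30, l31, l32]
  have e1 : ((420 - cn : ℤ) : ℝ) / (1000 : ℕ) = 42 / 100 - (cn : ℝ) / 1000 := by push_cast; ring
  have e2 : ((2 * cn : ℤ) : ℝ) / (1000 : ℕ) = 2 * ((cn : ℝ) / 1000) := by push_cast; ring
  rw [e1, e2]
  norm_num
  ring

theorem useN {s2 : Bool} {cn kn : ℤ} {kd : ℕ} {c1 s0 s1 m0 m1 k0 k1 : ℤ} {c : ℕ}
    (h : rowN s2 cn kn kd c1 s0 s1 m0 m1 k0 k1 c = true) {t m k : ℝ}
    (t0 : -(1145 / 10000) ≤ t) (t1 : t ≤ -(21 / 1000)) (a0 : (m0 : ℝ) / 10000 ≤ m)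
    (a1 : m ≤ (m1 : ℝ) / 10000) (b0 : (k0 : ℝ) / 10000 ≤ k) (b1 : k ≤ (k1 : ℝ) / 10000)
    (d0 : (s0 : ℝ) / 10000 ≤ m - (if s2 = true then k else t))
    (d1 : m - (if s2 = true then k else t) ≤ (s1 : ℝ) / 10000) :
    (c1 : ℝ) / 10000 ≤ (cond s2 (N2 cn) (N0 cn)).val [t, m, k] + 19 / 10 * t +
      (kn : ℝ) / kd * k := by
  obtain ⟨a, ha, hp⟩ := chkT3 h (by norm_num) (x := t) (y := m) (z := k) (by push_cast; linarith)
    (by push_cast; linarith) (by push_cast; exact a0) (by push_cast; exact a1)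
    (by push_cast; exact b0) (by push_cast; exact b1)
  simp only [rN, List.mem_cons, List.not_mem_nil, or_false] at ha
  rcases ha with rfl | rfl | rfl
  · simp only [val, l30, l32] at hp
    push_cast at hp
    linarith
  · exfalso
    cases s2
    · simp only [cond_false, val, l30, l31] at hp
      push_cast at hp
      simp only [Bool.false_eq_true, if_false] at d0
      linarith
    · simp only [cond_true, val, l32, l31] at hp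
      push_cast at hp
      simp only [if_true] at d0
      linarith
  · exfalso
    cases s2
    · simp only [cond_false, val, l30, l31] at hp
      push_cast at hp
      simp only [Bool.false_eq_true, if_false] at d1
      linarith
    · simp only [cond_true, val, l32, l31] at hp
      push_cast at hp
      simp only [if_true] at d1
      linarith

theorem use0 {cn kn : ℤ} {kd : ℕ} {c1 s0 s1 m0 m1 k0 k1 : ℤ} {c : ℕ}
    (h : rowN false cn kn kd c1 s0 s1 m0 m1 k0 k1 c = true) {t m k : ℝ}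
    (t0 : -(1145 / 10000) ≤ t) (t1 : t ≤ -(21 / 1000)) (a0 : (m0 : ℝ) / 10000 ≤ m)
    (a1 : m ≤ (m1 : ℝ) / 10000) (b0 : (k0 : ℝ) / 10000 ≤ k) (b1 : k ≤ (k1 : ℝ) / 10000)
    (d0 : (s0 : ℝ) / 10000 ≤ m - t) (d1 : m - t ≤ (s1 : ℝ) / 10000) :
    (c1 : ℝ) / 10000 ≤ V3 ⟨28 / 100, t⟩ ⟨42 / 100, m⟩ ⟨(cn : ℝ) / 1000, k⟩ + 19 / 10 * t +
      (kn : ℝ) / kd * k := by
  have := useN h t0 t1 a0 a1 b0 b1 (by simpa using d0) (by simpa using d1)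
  rwa [cond_false, N0_val] at this

theorem use2 {cn kn : ℤ} {kd : ℕ} {c1 s0 s1 m0 m1 k0 k1 : ℤ} {c : ℕ}
    (h : rowN true cn kn kd c1 s0 s1 m0 m1 k0 k1 c = true) {t m k : ℝ}
    (t0 : -(1145 / 10000) ≤ t) (t1 : t ≤ -(21 / 1000)) (a0 : (m0 : ℝ) / 10000 ≤ m)
    (a1 : m ≤ (m1 : ℝ) / 10000) (b0 : (k0 : ℝ) / 10000 ≤ k) (b1 : k ≤ (k1 : ℝ) / 10000)
    (d0 : (s0 : ℝ) / 10000 ≤ m - k) (d1 : m - k ≤ (s1 : ℝ) / 10000) :
    (c1 : ℝ) / 10000 ≤ V3 ⟨(cn : ℝ) / 1000, k⟩ ⟨42 / 100, m⟩ ⟨28 / 100, t⟩ + 19 / 10 * t +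
      (kn : ℝ) / kd * k := by
  have := useN h t0 t1 a0 a1 b0 b1 (by simpa using d0) (by simpa using d1)
  rwa [cond_true, N2_val] at this

end

theorem use0' {cn kn : ℤ} {kd : ℕ} {c1 s0 s1 m0 m1 k0 k1 : ℤ} {c : ℕ}
    (h : rowN false cn kn kd c1 s0 s1 m0 m1 k0 k1 c = true) {cN kk cc : ℝ}
    (e1 : (cn : ℝ) / 1000 = cN) (e2 : (kn : ℝ) / kd = kk) (e3 : (c1 : ℝ) / 10000 = cc) {t m k : ℝ}
    (t0 : -(1145 / 10000) ≤ t) (t1 : t ≤ -(21 / 1000)) (a0 : (m0 : ℝ) / 10000 ≤ m)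
    (a1 : m ≤ (m1 : ℝ) / 10000) (b0 : (k0 : ℝ) / 10000 ≤ k) (b1 : k ≤ (k1 : ℝ) / 10000)
    (d0 : (s0 : ℝ) / 10000 ≤ m - t) (d1 : m - t ≤ (s1 : ℝ) / 10000) :
    cc ≤ V3 ⟨28 / 100, t⟩ ⟨42 / 100, m⟩ ⟨cN, k⟩ + 19 / 10 * t + kk * k := by
  subst e1 e2 e3
  exact use0 h t0 t1 a0 a1 b0 b1 d0 d1

theorem use2' {cn kn : ℤ} {kd : ℕ} {c1 s0 s1 m0 m1 k0 k1 : ℤ} {c : ℕ}
    (h : rowN true cn kn kd c1 s0 s1 m0 m1 k0 k1 c = true) {cN kk cc : ℝ}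
    (e1 : (cn : ℝ) / 1000 = cN) (e2 : (kn : ℝ) / kd = kk) (e3 : (c1 : ℝ) / 10000 = cc) {t m k : ℝ}
    (t0 : -(1145 / 10000) ≤ t) (t1 : t ≤ -(21 / 1000)) (a0 : (m0 : ℝ) / 10000 ≤ m)
    (a1 : m ≤ (m1 : ℝ) / 10000) (b0 : (k0 : ℝ) / 10000 ≤ k) (b1 : k ≤ (k1 : ℝ) / 10000)
    (d0 : (s0 : ℝ) / 10000 ≤ m - k) (d1 : m - k ≤ (s1 : ℝ) / 10000) :
    cc ≤ V3 ⟨cN, k⟩ ⟨42 / 100, m⟩ ⟨28 / 100, t⟩ + 19 / 10 * t + kk * k := by
  subst e1 e2 e3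
  exact use2 h t0 t1 a0 a1 b0 b1 d0 d1

/-- the old value, slot `2`, all alternatives -/
theorem old2_all {x l u : ℝ} (hx : 65 / 100 ≤ x) (hu : 0 ≤ u) (hul : u ≤ l) (hlx : l + x ≤ 1) :
    -(4196 / 10000) ≤ -V3 ⟨u, 0⟩ ⟨l, 0⟩ ⟨x, 0⟩ ∧
    (u ≤ 4 / 25 → -(5410 / 10000) ≤ -V3 ⟨u, 0⟩ ⟨l, 0⟩ ⟨x, 0⟩ + ur u + 293 / 1000 * u) ∧
    -(6820 / 10000) ≤ -V3 ⟨u, 0⟩ ⟨l, 0⟩ ⟨x, 0⟩ + ur u - 719 / 1000 * u ∧
    -(5800 / 10000) ≤ -V3 ⟨u, 0⟩ ⟨l, 0⟩ ⟨x, 0⟩ + ur u ∧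
    (u ≤ 7 / 50 → -(5180 / 10000) ≤ -V3 ⟨u, 0⟩ ⟨l, 0⟩ ⟨x, 0⟩ + ur u + 543 / 1000 * u) := by
  rcases le_total x (5 / 6) with c | c
  · have hO := old2 (w := u) hx c (by linarith) hlx
    have hd0 : 0 ≤ l - u := by linarith
    have he0 : 0 ≤ 7 / 20 - l := by linarith
    have hs : l - u + u + (7 / 20 - l) = 7 / 20 := by ring
    have Pa := sound2 p2_a (by norm_num) hd0 hu he0 hs (by push_cast; linarith)
    have Pc := sound2 p2_c (by norm_num) hd0 hu he0 hs (by push_cast; linarith)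
    have Pe := sound2 p2_e (by norm_num) hd0 hu he0 hs (by push_cast; linarith)
    have Pb : u ≤ 4 / 25 → _ := fun h => sound2 p2_b (by norm_num) hd0 hu he0 hs
      (by push_cast; linarith)
    have Ph : u ≤ 7 / 50 → _ := fun h => sound2 p2_h (by norm_num) hd0 hu he0 hs
      (by push_cast; linarith)
    have eU : PS2 2 (l - u) u (7 / 20 - l) = PS2 1 (l - u) u (7 / 20 - l) + ur u := by
      unfold PS2; ring
    push_cast at Pa Pb Pc Pe Ph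
    rw [eU] at Pb Pc Pe Ph
    refine ⟨by linarith, fun h => ?_, by linarith, by linarith, fun h => ?_⟩
    · linarith [Pb h]
    · linarith [Ph h]
  · obtain ⟨h1, h2⟩ := old2' c hu hul hlx
    have h3 : u ≤ 1 / 6 := by linarith
    refine ⟨by linarith, fun h => ?_, by linarith, by linarith, fun h => ?_⟩
    · linarith
    · linarith

end K3o

end TL

end Pool.Agent.Work.MP_b30479_gt.G2
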