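import Pool.Agent.Work.MP_b30479_gt.G2.TK3oneD

/-!
# Tails: `side_three0_one`
-/

namespace Pool.Agent.Work.MP_b30479_gt.G2

open VOL NumU SR

namespace TL

open K3o

/-- `side_three0` for `B = one` -/
theorem side_three0_one {Cc : Cl} {C : Ct} (hC : C.ok Cc) (hC2 : C ≠ .threeK) {x l w t m k G : ℝ}
    (hx : X0 .three .one ≤ x) (hxl : x ≤ l) (hw : 0 ≤ w) (hlw : l + w ≤ 1)
    (t0 : (hbox .three .one false).t0 ≤ t) (t1 : t ≤ (hbox .three .one false).t1)
    (k0 : (hbox .three Cc false).t0 ≤ k) (k1 : k ≤ (hbox .three Cc false).t1)
    (m0 : (mw .one Cc).t0 ≤ m) (m1 : m ≤ (mw .one Cc).t1)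
    (s0 : (mw .one Cc).s0 ≤ m - t) (s1 : m - t ≤ (mw .one Cc).s1)
    (hE : EB .three C w (-k) G) :
    al .three .one Cc x ≤ V3 ⟨cT .three .one, t⟩ ⟨42 / 100, m⟩ ⟨cN C, k⟩ -
      V3 ⟨x, 0⟩ ⟨l, 0⟩ ⟨w, 0⟩ + G + be .three .one * t := by
  simp only [X0] at hx
  simp only [al, be, cT]
  have hO := old0 hx hxl hw hlw
  have hd0 : 0 ≤ l - 65 / 100 := by linarith only [hx, hxl]
  have he0 : 0 ≤ 1 - l - w := by linarith only [hlw]
  have hs : l - 65 / 100 + w + (1 - l - w) = 7 / 20 := by ring
  have hU : UU ⟨w, 0⟩ = ur w := rfl
  have hw' : w ≤ 35 / 100 := by linarith only [hx, hxl, hlw]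
  have Pa := sound0 p0_a (by norm_num) hd0 hw he0 hs (by push_cast; linarith only [hx, hxl, hlw])
  have Pc := sound0 p0_c (by norm_num) hd0 hw he0 hs (by push_cast; linarith only [hx, hxl, hlw])
  have Pe := sound0 p0_e (by norm_num) hd0 hw he0 hs (by push_cast; linarith only [hx, hxl, hlw])
  have Pb : w ≤ 4 / 25 → _ := fun h => sound0 p0_b (by norm_num) hd0 hw he0 hs
    (by push_cast; linarith only [h])
  have eU : PS0 3 (l - 65 / 100) w (1 - l - w) = PS0 2 (l - 65 / 100) w (1 - l - w) + ur w := by
    unfold PS0; ring
  push_cast at Pa Pb Pc Pe
  rw [eU] at Pb Pc Pe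
  generalize V3 ⟨x, 0⟩ ⟨l, 0⟩ ⟨w, 0⟩ = O at hO ⊢
  generalize PS0 2 (l - 65 / 100) w (1 - l - w) = Q at *
  simp only [hbox] at t0 t1
  cases C with
  | one =>
    have hc : Cc = .one := hC
    subst hc
    simp only [hbox] at k0 k1
    simp only [mw] at m0 m1 s0 s1
    simp only [EB] at hE
    simp only [cN]
    rw [hU] at hE
    obtain ⟨E1, E2⟩ := hE
    rcases le_total w (4 / 25) with c | c
    · have Pb := Pb c
      rcases E1 c with ⟨E3, E4⟩ | E4
      · have K := use0' n0_one_1 (cN := 9 / 50) (kk := 3927 / 1250) (cc := 5035 / 10000) (t := t) (m := m) (k := k) (by norm_num) (by norm_num)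
          (by norm_num) (by push_cast; linarith only [t0]) (by push_cast; linarith only [t1]) (by push_cast; linarith only [m0]) (by push_cast; linarith only [m1])
          (by push_cast; linarith only [E3]) (by push_cast; linarith only [k1]) (by push_cast; linarith only [s0]) (by push_cast; linarith only [s1])
        linarith only [Pa, hO, E4, K]
      · have K := use0' n0_one_2 (cN := 9 / 50) (kk := 163 / 100) (cc := 6392 / 10000) (t := t) (m := m) (k := k) (by norm_num) (by norm_num)
          (by norm_num) (by push_cast; linarith only [t0]) (by push_cast; linarith only [t1]) (by push_cast; linarith only [m0]) (by push_cast; linarith only [m1])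
          (by push_cast; linarith only [k0]) (by push_cast; linarith only [k1]) (by push_cast; linarith only [s0]) (by push_cast; linarith only [s1])
        linarith only [hO, Pb, E4, K]
    · have E4 := E2 c
      have K := use0' n0_one_3 (cN := 9 / 50) (kk := 429 / 250) (cc := 6472 / 10000) (t := t) (m := m) (k := k) (by norm_num) (by norm_num)
        (by norm_num) (by push_cast; linarith only [t0]) (by push_cast; linarith only [t1]) (by push_cast; linarith only [m0]) (by push_cast; linarith only [m1])
        (by push_cast; linarith only [k0]) (by push_cast; linarith only [k1]) (by push_cast; linarith only [s0]) (by push_cast; linarith only [s1])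
      linarith only [Pc, hO, E4, K]
  | two =>
    have hc : Cc = .two := hC
    subst hc
    simp only [hbox] at k0 k1
    simp only [mw] at m0 m1 s0 s1
    simp only [EB] at hE
    simp only [cN]
    rw [hU] at hE
    have K := use0' n0_two (cN := 1 / 4) (kk := 1571 / 1000) (cc := 6225 / 10000) (t := t) (m := m) (k := k) (by norm_num) (by norm_num)
      (by norm_num) (by push_cast; linarith only [t0]) (by push_cast; linarith only [t1]) (by push_cast; linarith only [m0]) (by push_cast; linarith only [m1])
      (by push_cast; linarith only [k0]) (by push_cast; linarith only [k1]) (by push_cast; linarith only [s0]) (by push_cast; linarith only [s1])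
    linarith only [Pc, Pe, hO, hE, K]
  | twoE =>
    have hc : Cc = .twoE := hC
    subst hc
    simp only [hbox] at k0 k1
    simp only [mw] at m0 m1 s0 s1
    simp only [EB] at hE
    simp only [cN]
    rw [hU] at hE
    have K := use0' n0_twoE (cN := 11 / 50) (kk := 2262 / 1000) (cc := 5010 / 10000) (t := t) (m := m) (k := k) (by norm_num) (by norm_num)
      (by norm_num) (by push_cast; linarith only [t0]) (by push_cast; linarith only [t1]) (by push_cast; linarith only [m0]) (by push_cast; linarith only [m1])
      (by push_cast; linarith only [k0]) (by push_cast; linarith only [k1]) (by push_cast; linarith only [s0]) (by push_cast; linarith only [s1])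
    linarith only [Pe, hO, hE, K]
  | threeA =>
    have hc : Cc = .three := hC
    subst hc
    simp only [hbox] at k0 k1
    simp only [mw] at m0 m1 s0 s1
    simp only [EB] at hE
    simp only [cN]
    rw [hU] at hE
    obtain ⟨E1, E2⟩ := hE
    rcases le_total w (4 / 25) with c | c
    · have E4 := E1 c
      have K := use0' n0_thrA_1 (cN := 3 / 20) (kk := 851 / 1000) (cc := 6763 / 10000) (t := t) (m := m) (k := k) (by norm_num) (by norm_num)
        (by norm_num) (by push_cast; linarith only [t0]) (by push_cast; linarith only [t1]) (by push_cast; linarith only [m0]) (by push_cast; linarith only [m1])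
        (by push_cast; linarith only [k0]) (by push_cast; linarith only [k1]) (by push_cast; linarith only [s0]) (by push_cast; linarith only [s1])
      linarith only [Pe, hO, c, E4, K]
    · have E4 := E2 c
      have K := use0' n0_thrA_2 (cN := 3 / 20) (kk := 113 / 200) (cc := 6532 / 10000) (t := t) (m := m) (k := k) (by norm_num) (by norm_num)
        (by norm_num) (by push_cast; linarith only [t0]) (by push_cast; linarith only [t1]) (by push_cast; linarith only [m0]) (by push_cast; linarith only [m1])
        (by push_cast; linarith only [k0]) (by push_cast; linarith only [k1]) (by push_cast; linarith only [s0]) (by push_cast; linarith only [s1])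
      linarith only [hx, hxl, hlw, Pc, hO, E4, K]
  | threeK => exact absurd rfl hC2
  | threeE =>
    have hc : Cc = .threeE := hC
    subst hc
    simp only [hbox] at k0 k1
    simp only [mw] at m0 m1 s0 s1
    simp only [EB] at hE
    simp only [cN]
    rw [hU] at hE
    have K := use0' n0_threeE (cN := 11 / 50) (kk := 1215 / 1000) (cc := 5210 / 10000) (t := t) (m := m) (k := k) (by norm_num) (by norm_num)
      (by norm_num) (by push_cast; linarith only [t0]) (by push_cast; linarith only [t1]) (by push_cast; linarith only [m0]) (by push_cast; linarith only [m1])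
      (by push_cast; linarith only [k0]) (by push_cast; linarith only [k1]) (by push_cast; linarith only [s0]) (by push_cast; linarith only [s1])
    linarith only [Pe, hO, hE, K]
  | ring =>
    have hc : Cc = .ring := hC
    subst hc
    simp only [hbox] at k0 k1
    simp only [mw] at m0 m1 s0 s1
    simp only [EB] at hE
    simp only [cN]
    rw [hU] at hE
    obtain ⟨E1, E2⟩ := hE
    rcases le_total w (7 / 50) with c | c
    · have E4 := E1 c
      have Pb := Pb (by linarith only [c])
      have K := use0' n0_ring_1 (cN := 9 / 50) (kk := 839 / 500) (cc := 6681 / 10000) (t := t) (m := m) (k := k) (by norm_num) (by norm_num)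
        (by norm_num) (by push_cast; linarith only [t0]) (by push_cast; linarith only [t1]) (by push_cast; linarith only [m0]) (by push_cast; linarith only [m1])
        (by push_cast; linarith only [k0]) (by push_cast; linarith only [k1]) (by push_cast; linarith only [s0]) (by push_cast; linarith only [s1])
      linarith only [hw, hO, E4, Pb, K]
    · have E4 := E2 c
      have K := use0' n0_ring_2 (cN := 9 / 50) (kk := 1397 / 1000) (cc := 6468 / 10000) (t := t) (m := m) (k := k) (by norm_num) (by norm_num)
        (by norm_num) (by push_cast; linarith only [t0]) (by push_cast; linarith only [t1]) (by push_cast; linarith only [m0]) (by push_cast; linarith only [m1])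
        (by push_cast; linarith only [k0]) (by push_cast; linarith only [k1]) (by push_cast; linarith only [s0]) (by push_cast; linarith only [s1])
      linarith only [hx, hxl, hlw, Pc, hO, E4, K]
  | touched =>
    have hk : -(1145 / 10000) ≤ k ∧ k ≤ 57 / 1000 := by
      clear m0 m1 s0 s1 hC
      cases Cc <;> simp only [hbox] at k0 k1 <;> constructor <;> linarith only [k0, k1]
    have hm : -900 / 10000 ≤ m ∧ m ≤ 50 / 10000 := by
      clear k0 k1 s0 s1 hC
      cases Cc <;> simp only [mw] at m0 m1 <;> constructor <;> linarith only [m0, m1]
    have hms : -450 / 10000 ≤ m - t ∧ m - t ≤ 840 / 10000 := by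
      clear m0 m1 k0 k1 hC
      cases Cc <;> simp only [mw] at s0 s1 <;> constructor <;> linarith only [s0, s1]
    simp only [EB] at hE
    simp only [cN]
    have K := use0' n0_t (cN := 1 / 5) (kk := 59 / 25) (cc := 4945 / 10000) (t := t) (m := m)
      (k := k) (by norm_num) (by norm_num)
      (by norm_num) (by push_cast; linarith only [t0]) (by push_cast; linarith only [t1]) (by push_cast; linarith only [hm, hm.1]) (by push_cast; linarith only [hm, hm.2])
      (by push_cast; linarith only [hk, hk.1]) (by push_cast; linarith only [hk, hk.2]) (by push_cast; linarith only [hms, hms.1])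
      (by push_cast; linarith only [hms, hms.2])
    linarith only [Pa, hO, hE, K]

end TL

end Pool.Agent.Work.MP_b30479_gt.G2
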