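import Pool.Agent.Work.MP_b30479_gt.G2.TK5R
import Pool.Agent.Work.MP_b30479_gt.G2.TDef2
import Pool.Agent.Work.MP_b30479_gt.G2.RngM
import Pool.Agent.Work.MP_b30479_gt.G2.TRc

/-!
# Tails, row `KZ`: a touched ring

`side_ring`: the first slot of the ring is in the tail, the other slot is in the tail, on its path,
or a real neighbour.  The target of the ring variable is `c + i ρ` with `-1/4 ≤ c ≤ 0`; `c` depends on
the other slot.
-/

namespace Pool.Agent.Work.MP_b30479_gt.G2

open VOL SR NumU

namespace TL

namespace K5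

/-! ### `uu` near `1` -/

theorem uu_le_near {x y : ℝ} (h0 : 99 / 100 ≤ x) (h1 : x ≤ 101 / 100) (hy : |y| ≤ 165 / 1000) :
    uu x y ≤ Real.pi * |y| / 2 + 38 / 1000 := by
  have h := uu_ge_near (x := 2 - x) (y := y) (by linarith only [h1]) (by linarith only [h0]) hy
  have e1 := uu_add_one (1 - x) y
  have e2 := uu_one_sub x y
  rw [show 1 - x + 1 = 2 - x by ring] at e1
  linarith only [h, e1, e2]

theorem uu0_ge {x : ℝ} (h0 : 0 ≤ x) (h1 : x ≤ 1 / 100) : -(38 / 1000) ≤ uu x 0 := by
  have h := uu_ge_near (x := x + 1) (y := 0) (by linarith only [h0]) (by linarith only [h1]) (by norm_num)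
  rw [uu_add_one] at h
  norm_num at h ⊢
  linarith only [h]

theorem uu0_le {x : ℝ} (h0 : 99 / 100 ≤ x) (h1 : x ≤ 101 / 100) : uu x 0 ≤ 38 / 1000 := by
  have h := uu_le_near (x := x) (y := 0) h0 h1 (by norm_num)
  norm_num at h ⊢
  linarith only [h]

theorem uu0_add (x : ℝ) : uu (x + 1) 0 = uu x 0 := by
  rw [uu_add_one]
  simp

/-! ### old values -/

theorem pr2_235 (x : ℝ) : pr2 x 0 (235 / 1000) = uu (x - 265 / 1000) 0 + uu (x + 265 / 1000) 0 := by
  unfold pr2
  rw [UU_uu, UU_uu]
  simp only
  rw [show x + 1 / 2 + 235 / 1000 = (x - 265 / 1000) + 1 by ring, uu0_add,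
    show x + 1 / 2 - 235 / 1000 = x + 265 / 1000 by ring]

/-- a hinge in the tail, `|s| ≤ .235` -/
theorem old_tail {x s : ℝ} (h0 : 65 / 100 ≤ x) (h1 : x ≤ 95 / 100) (hs : |s| ≤ 235 / 1000) :
    fR ⟨x, 0⟩ s ≤ -(13 / 100) := by
  have a1 := pair_mono (x := x) 0 (by linarith only [h0]) (by linarith only [h1]) (abs_nonneg s) hs (by norm_num)
  rw [pr2_235] at a1
  rw [fR_real, UU_uu]
  simp only
  rcases le_total x (7250 / 10000) with c1 | c1
  · have h := pos_of_chk (chk1 kh1 (by norm_num) (x := x) (by norm_num; linarith only [h0])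
      (by norm_num; linarith only [c1]))
    simp only [E.val, NumI.lkR] at h
    push_cast at h
    rw [zero_div] at h
    linarith only [a1, h]
  rcases le_total x (7450 / 10000) with c2 | c2
  · have h := pos_of_chk (chk1 kh2 (by norm_num) (x := x) (by norm_num; linarith only [c1])
      (by norm_num; linarith only [c2]))
    have hn := uu0_le (x := x + 265 / 1000) (by linarith only [c1]) (by linarith only [c2])
    simp only [E.val, NumI.lkR] at h
    push_cast at h
    rw [zero_div] at h
    linarith only [a1, hn, h]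
  · have h := pos_of_chk (chk1 kh3 (by norm_num) (x := x) (by norm_num; linarith only [c2])
      (by norm_num; linarith only [h1]))
    have hn := uu0_add (x - 735 / 1000)
    rw [show x - 735 / 1000 + 1 = x + 265 / 1000 by ring] at hn
    simp only [E.val, NumI.lkR] at h
    push_cast at h
    rw [zero_div] at h
    linarith only [a1, hn, h]

/-- a real neighbour hinge -/
theorem old_nb0 {x s : ℝ} (h0 : 0 ≤ x) (h1 : x ≤ 1 / 2) (hs : |s| ≤ 1 / 2) :
    fR ⟨x, 0⟩ s ≤ 584 / 1000 := by
  have a1 := fR_real_le_zero (w := ⟨x, 0⟩) h0 h1 hs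
  rw [fR_uu ⟨x, 0⟩ 0] at a1
  simp only [Complex.zero_re, Complex.zero_im, add_zero, sub_zero] at a1
  refine a1.trans ?_
  rcases le_total x (100 / 10000) with c1 | c1
  · have h := pos_of_chk (chk1 kf1 (by norm_num) (x := x) (by norm_num; linarith only [h0])
      (by norm_num; linarith only [c1]))
    have hn := uu0_ge h0 (by linarith only [c1])
    simp only [E.val, NumI.lkR] at h
    push_cast at h
    rw [zero_div] at h
    linarith only [hn, h]
  rcases le_total x (4900 / 10000) with c2 | c2
  · have h := pos_of_chk (chk1 kf2 (by norm_num) (x := x) (by norm_num; linarith only [c1])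
      (by norm_num; linarith only [c2]))
    simp only [E.val, NumI.lkR] at h
    push_cast at h
    rw [zero_div] at h
    linarith only [h]
  · have h := pos_of_chk (chk1 kf3 (by norm_num) (x := x) (by norm_num; linarith only [c2])
      (by norm_num; linarith only [h1]))
    have hn := uu0_le (x := x + 1 / 2) (by linarith only [c2]) (by linarith only [h1])
    simp only [E.val, NumI.lkR] at h
    push_cast at h
    rw [zero_div] at h
    linarith only [hn, h]

/-- a real neighbour hinge, `|s| ≥ .235` -/
theorem old_nb1 {x s : ℝ} (h0 : 0 ≤ x) (h1 : x ≤ 1 / 2) (hs : |s| ≤ 1 / 2)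
    (hs' : 235 / 1000 ≤ |s|) : fR ⟨x, 0⟩ s ≤ 43 / 100 := by
  have a1 := pair_anti (x := x) 0 h0 h1 (by norm_num) hs' hs
  rw [pr2_235] at a1
  rw [fR_real, UU_uu]
  simp only
  have e : uu (x - 265 / 1000) 0 = uu (x + 735 / 1000) 0 := by
    rw [← uu0_add]
    ring_nf
  rcases le_total x (100 / 10000) with c1 | c1
  · have h := pos_of_chk (chk1 kg1 (by norm_num) (x := x) (by norm_num; linarith only [h0])
      (by norm_num; linarith only [c1]))
    have hn := uu0_ge h0 (by linarith only [c1])
    simp only [E.val, NumI.lkR] at h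
    push_cast at h
    rw [zero_div] at h
    linarith only [a1, e, hn, h]
  rcases le_total x (2550 / 10000) with c2 | c2
  · have h := pos_of_chk (chk1 kg2 (by norm_num) (x := x) (by norm_num; linarith only [c1])
      (by norm_num; linarith only [c2]))
    simp only [E.val, NumI.lkR] at h
    push_cast at h
    rw [zero_div] at h
    linarith only [a1, e, h]
  rcases le_total x (2750 / 10000) with c3 | c3
  · have h := pos_of_chk (chk1 kg3 (by norm_num) (x := x) (by norm_num; linarith only [c2])
      (by norm_num; linarith only [c3]))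
    have hn := uu0_le (x := x + 735 / 1000) (by linarith only [c2]) (by linarith only [c3])
    simp only [E.val, NumI.lkR] at h
    push_cast at h
    rw [zero_div] at h
    linarith only [a1, e, hn, h]
  · have h := pos_of_chk (chk1 kg4 (by norm_num) (x := x) (by norm_num; linarith only [c3])
      (by norm_num; linarith only [h1]))
    simp only [E.val, NumI.lkR] at h
    push_cast at h
    rw [zero_div] at h
    linarith only [a1, h]

/-! ### the new value of a tail slot and of a neighbour slot -/

/-- the new value with the target `-c + i ρ` of the ring variable -/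
theorem fR_new (w t c ρ : ℝ) : fR ⟨w, t⟩ ⟨-c, ρ⟩ =
    uu (w + 1 / 2 - c) (t + ρ) + uu (w + 1 / 2 + c) (t - ρ) - 2 * uu w t := by
  rw [fR_uu]
  simp only
  rw [show w + 1 / 2 + -c = w + 1 / 2 - c by ring, show w + 1 / 2 - -c = w + 1 / 2 + c by ring]

/-- the lower bounds for a slot in the tail: `A` for a real ring variable near `0`, `B` for all -/
structure Ld (c lA sA lB sB : ℝ) : Prop where
  c0 : 0 ≤ c
  c1 : c ≤ 1 / 4
  one : ∀ {t ρ : ℝ}, -(158 / 1000) ≤ t → t ≤ -(38 / 1000) → 0 ≤ ρ → ρ ≤ 1045 / 10000 →
    lA + sA * ρ ≤ fR ⟨1 / 4, t⟩ ⟨-c, ρ⟩ + 21 / 10 * t - 1 / 100 ∧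
      lB + sB * ρ ≤ fR ⟨1 / 4, t⟩ ⟨-c, ρ⟩ + 21 / 10 * t - 14 / 100
  lo : ∀ {t ρ : ℝ}, -(131 / 1000) ≤ t → t ≤ 4 / 1000 → 0 ≤ ρ → ρ ≤ 1045 / 10000 →
    lA + sA * ρ ≤ fR ⟨1 / 4, t⟩ ⟨-c, ρ⟩ + 17 / 10 * t - 6 / 100
  rr : ∀ {t ρ : ℝ}, -(385 / 10000) ≤ t → t ≤ 59 / 1000 → 0 ≤ ρ → ρ ≤ 1045 / 10000 →
    lA + sA * ρ ≤ fR ⟨1 / 4, t⟩ ⟨-c, ρ⟩ - 1 / 100
  AB : ∀ {ρ : ℝ}, 0 ≤ ρ → ρ ≤ 1045 / 10000 → lB + sB * ρ ≤ lA + sA * ρ

theorem ld235 : Ld (235 / 1000) (2592 / 10000) (12800 / 10000) (1460 / 10000) (14200 / 10000) := by
  refine ⟨by norm_num, by norm_num, ?_, ?_, ?_, ?_⟩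
  · intro t ρ h0 h1 h2 h3
    rw [fR_new, show (1 : ℝ) / 4 + 1 / 2 - 235 / 1000 = 515 / 1000 by norm_num,
      show (1 : ℝ) / 4 + 1 / 2 + 235 / 1000 = 985 / 1000 by norm_num,
      show (1 : ℝ) / 4 = 250 / 1000 by norm_num]
    constructor
    · obtain ⟨e, he, hp⟩ := chkT2 ks1A0 (by norm_num) (x := t) (y := ρ) (by norm_num; linarith only [h0])
        (by norm_num; linarith only [h1]) (by norm_num; linarith only [h2]) (by norm_num; linarith only [h3])
      simp only [List.mem_singleton] at he
      subst he
      simp only [E.val, NumI.lkR] at hp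
      push_cast at hp
      linarith only [hp]
    · obtain ⟨e, he, hp⟩ := chkT2 ks1B0 (by norm_num) (x := t) (y := ρ) (by norm_num; linarith only [h0])
        (by norm_num; linarith only [h1]) (by norm_num; linarith only [h2]) (by norm_num; linarith only [h3])
      simp only [List.mem_singleton] at he
      subst he
      simp only [E.val, NumI.lkR] at hp
      push_cast at hp
      linarith only [hp]
  · intro t ρ h0 h1 h2 h3
    rw [fR_new, show (1 : ℝ) / 4 + 1 / 2 - 235 / 1000 = 515 / 1000 by norm_num,
      show (1 : ℝ) / 4 + 1 / 2 + 235 / 1000 = 985 / 1000 by norm_num,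
      show (1 : ℝ) / 4 = 250 / 1000 by norm_num]
    obtain ⟨e, he, hp⟩ := chkT2 ks2A0 (by norm_num) (x := t) (y := ρ) (by norm_num; linarith only [h0])
      (by norm_num; linarith only [h1]) (by norm_num; linarith only [h2]) (by norm_num; linarith only [h3])
    simp only [List.mem_singleton] at he
    subst he
    simp only [E.val, NumI.lkR] at hp
    push_cast at hp
    linarith only [hp]
  · intro t ρ h0 h1 h2 h3
    rw [fR_new, show (1 : ℝ) / 4 + 1 / 2 - 235 / 1000 = 515 / 1000 by norm_num,
      show (1 : ℝ) / 4 + 1 / 2 + 235 / 1000 = 985 / 1000 by norm_num,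
      show (1 : ℝ) / 4 = 250 / 1000 by norm_num]
    obtain ⟨e, he, hp⟩ := chkT2 ks3A0 (by norm_num) (x := t) (y := ρ) (by norm_num; linarith only [h0])
      (by norm_num; linarith only [h1]) (by norm_num; linarith only [h2]) (by norm_num; linarith only [h3])
    simp only [List.mem_singleton] at he
    subst he
    simp only [E.val, NumI.lkR] at hp
    push_cast at hp
    linarith only [hp]
  · intro ρ h0 h1
    linarith only [h1]

theorem ld170 : Ld (170 / 1000) (3285 / 10000) (9600 / 10000) (1985 / 10000) (9600 / 10000) := by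
  refine ⟨by norm_num, by norm_num, ?_, ?_, ?_, ?_⟩
  · intro t ρ h0 h1 h2 h3
    rw [fR_new, show (1 : ℝ) / 4 + 1 / 2 - 170 / 1000 = 580 / 1000 by norm_num,
      show (1 : ℝ) / 4 + 1 / 2 + 170 / 1000 = 920 / 1000 by norm_num,
      show (1 : ℝ) / 4 = 250 / 1000 by norm_num]
    obtain ⟨e, he, hp⟩ := chkT2 ks1A1 (by norm_num) (x := t) (y := ρ) (by norm_num; linarith only [h0])
      (by norm_num; linarith only [h1]) (by norm_num; linarith only [h2]) (by norm_num; linarith only [h3])
    simp only [List.mem_singleton] at he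
    subst he
    simp only [E.val, NumI.lkR] at hp
    push_cast at hp
    constructor <;> linarith only [hp]
  · intro t ρ h0 h1 h2 h3
    rw [fR_new, show (1 : ℝ) / 4 + 1 / 2 - 170 / 1000 = 580 / 1000 by norm_num,
      show (1 : ℝ) / 4 + 1 / 2 + 170 / 1000 = 920 / 1000 by norm_num,
      show (1 : ℝ) / 4 = 250 / 1000 by norm_num]
    obtain ⟨e, he, hp⟩ := chkT2 ks2A1 (by norm_num) (x := t) (y := ρ) (by norm_num; linarith only [h0])
      (by norm_num; linarith only [h1]) (by norm_num; linarith only [h2]) (by norm_num; linarith only [h3])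
    simp only [List.mem_singleton] at he
    subst he
    simp only [E.val, NumI.lkR] at hp
    push_cast at hp
    linarith only [hp]
  · intro t ρ h0 h1 h2 h3
    rw [fR_new, show (1 : ℝ) / 4 + 1 / 2 - 170 / 1000 = 580 / 1000 by norm_num,
      show (1 : ℝ) / 4 + 1 / 2 + 170 / 1000 = 920 / 1000 by norm_num,
      show (1 : ℝ) / 4 = 250 / 1000 by norm_num]
    obtain ⟨e, he, hp⟩ := chkT2 ks3A1 (by norm_num) (x := t) (y := ρ) (by norm_num; linarith only [h0])
      (by norm_num; linarith only [h1]) (by norm_num; linarith only [h2]) (by norm_num; linarith only [h3])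
    simp only [List.mem_singleton] at he
    subst he
    simp only [E.val, NumI.lkR] at hp
    push_cast at hp
    linarith only [hp]
  · intro ρ h0 h1
    linarith

theorem ld90 : Ld (90 / 1000) (3695 / 10000) (5300 / 10000) (2395 / 10000) (5300 / 10000) := by
  refine ⟨by norm_num, by norm_num, ?_, ?_, ?_, ?_⟩
  · intro t ρ h0 h1 h2 h3
    rw [fR_new, show (1 : ℝ) / 4 + 1 / 2 - 90 / 1000 = 660 / 1000 by norm_num,
      show (1 : ℝ) / 4 + 1 / 2 + 90 / 1000 = 840 / 1000 by norm_num,
      show (1 : ℝ) / 4 = 250 / 1000 by norm_num]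
    obtain ⟨e, he, hp⟩ := chkT2 ks1A2 (by norm_num) (x := t) (y := ρ) (by norm_num; linarith only [h0])
      (by norm_num; linarith only [h1]) (by norm_num; linarith only [h2]) (by norm_num; linarith only [h3])
    simp only [List.mem_singleton] at he
    subst he
    simp only [E.val, NumI.lkR] at hp
    push_cast at hp
    constructor <;> linarith only [hp]
  · intro t ρ h0 h1 h2 h3
    rw [fR_new, show (1 : ℝ) / 4 + 1 / 2 - 90 / 1000 = 660 / 1000 by norm_num,
      show (1 : ℝ) / 4 + 1 / 2 + 90 / 1000 = 840 / 1000 by norm_num,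
      show (1 : ℝ) / 4 = 250 / 1000 by norm_num]
    obtain ⟨e, he, hp⟩ := chkT2 ks2A2 (by norm_num) (x := t) (y := ρ) (by norm_num; linarith only [h0])
      (by norm_num; linarith only [h1]) (by norm_num; linarith only [h2]) (by norm_num; linarith only [h3])
    simp only [List.mem_singleton] at he
    subst he
    simp only [E.val, NumI.lkR] at hp
    push_cast at hp
    linarith only [hp]
  · intro t ρ h0 h1 h2 h3
    rw [fR_new, show (1 : ℝ) / 4 + 1 / 2 - 90 / 1000 = 660 / 1000 by norm_num,
      show (1 : ℝ) / 4 + 1 / 2 + 90 / 1000 = 840 / 1000 by norm_num,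
      show (1 : ℝ) / 4 = 250 / 1000 by norm_num]
    obtain ⟨e, he, hp⟩ := chkT2 ks3A2 (by norm_num) (x := t) (y := ρ) (by norm_num; linarith only [h0])
      (by norm_num; linarith only [h1]) (by norm_num; linarith only [h2]) (by norm_num; linarith only [h3])
    simp only [List.mem_singleton] at he
    subst he
    simp only [E.val, NumI.lkR] at hp
    push_cast at hp
    linarith only [hp]
  · intro ρ h0 h1
    linarith

theorem ld40 : Ld (40 / 1000) (3822 / 10000) (3000 / 10000) (2522 / 10000) (3000 / 10000) := by
  refine ⟨by norm_num, by norm_num, ?_, ?_, ?_, ?_⟩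
  · intro t ρ h0 h1 h2 h3
    rw [fR_new, show (1 : ℝ) / 4 + 1 / 2 - 40 / 1000 = 710 / 1000 by norm_num,
      show (1 : ℝ) / 4 + 1 / 2 + 40 / 1000 = 790 / 1000 by norm_num,
      show (1 : ℝ) / 4 = 250 / 1000 by norm_num]
    obtain ⟨e, he, hp⟩ := chkT2 ks1A3 (by norm_num) (x := t) (y := ρ) (by norm_num; linarith only [h0])
      (by norm_num; linarith only [h1]) (by norm_num; linarith only [h2]) (by norm_num; linarith only [h3])
    simp only [List.mem_singleton] at he
    subst he
    simp only [E.val, NumI.lkR] at hp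
    push_cast at hp
    constructor <;> linarith only [hp]
  · intro t ρ h0 h1 h2 h3
    rw [fR_new, show (1 : ℝ) / 4 + 1 / 2 - 40 / 1000 = 710 / 1000 by norm_num,
      show (1 : ℝ) / 4 + 1 / 2 + 40 / 1000 = 790 / 1000 by norm_num,
      show (1 : ℝ) / 4 = 250 / 1000 by norm_num]
    obtain ⟨e, he, hp⟩ := chkT2 ks2A3 (by norm_num) (x := t) (y := ρ) (by norm_num; linarith only [h0])
      (by norm_num; linarith only [h1]) (by norm_num; linarith only [h2]) (by norm_num; linarith only [h3])
    simp only [List.mem_singleton] at he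
    subst he
    simp only [E.val, NumI.lkR] at hp
    push_cast at hp
    linarith only [hp]
  · intro t ρ h0 h1 h2 h3
    rw [fR_new, show (1 : ℝ) / 4 + 1 / 2 - 40 / 1000 = 710 / 1000 by norm_num,
      show (1 : ℝ) / 4 + 1 / 2 + 40 / 1000 = 790 / 1000 by norm_num,
      show (1 : ℝ) / 4 = 250 / 1000 by norm_num]
    obtain ⟨e, he, hp⟩ := chkT2 ks3A3 (by norm_num) (x := t) (y := ρ) (by norm_num; linarith only [h0])
      (by norm_num; linarith only [h1]) (by norm_num; linarith only [h2]) (by norm_num; linarith only [h3])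
    simp only [List.mem_singleton] at he
    subst he
    simp only [E.val, NumI.lkR] at hp
    push_cast at hp
    linarith only [hp]
  · intro ρ h0 h1
    linarith

/-- the new value of a real neighbour slot -/
theorem nb_new {t ρ : ℝ} (h0 : -(158 / 1000) ≤ t) (h1 : t ≤ 4 / 1000) (h2 : 0 ≤ ρ)
    (h3 : ρ ≤ 1045 / 10000) :
    2975 / 10000 + 8300 / 10000 * ρ ≤ fR ⟨1 / 5, t⟩ ⟨-(170 / 1000), ρ⟩ + 59 / 25 * t := by
  rw [fR_new, show (1 : ℝ) / 5 + 1 / 2 - 170 / 1000 = 530 / 1000 by norm_num,
    show (1 : ℝ) / 5 + 1 / 2 + 170 / 1000 = 870 / 1000 by norm_num,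
    show (1 : ℝ) / 5 = 200 / 1000 by norm_num]
  obtain ⟨e, he, hp⟩ := chkT2 knb (by norm_num) (x := t) (y := ρ) (by norm_num; linarith only [h0])
    (by norm_num; linarith only [h1]) (by norm_num; linarith only [h2]) (by norm_num; linarith only [h3])
  simp only [List.mem_singleton] at he
  subst he
  simp only [E.val, NumI.lkR] at hp
  push_cast at hp
  linarith only [hp]

/-! ### a hinge on its path -/

/-- a target with positive margin -/
def VA (o p q l m a y ρ : ℝ) : Prop := o < uu (a + p) (y + ρ) + uu (a + q) (y - ρ) + (l + m * ρ)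

/-- one of the four targets is good (`|s| ≤ .235`) -/
def FA (o a y ρ : ℝ) : Prop :=
    VA o (265 / 1000) (735 / 1000) (2592 / 10000) (9030 / 10000) a y ρ ∨
    VA o (330 / 1000) (670 / 1000) (3285 / 10000) ((-10507) / 10000) a y ρ ∨
    VA o (410 / 1000) (590 / 1000) (3695 / 10000) ((-34913) / 10000) a y ρ ∨
    VA o (460 / 1000) (540 / 1000) (3822 / 10000) ((-49779) / 10000) a y ρ

/-- one of the four targets is good (all `s`) -/
def FB (o a y ρ : ℝ) : Prop :=
    VA o (265 / 1000) (735 / 1000) (1460 / 10000) (10430 / 10000) a y ρ ∨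
    VA o (330 / 1000) (670 / 1000) (1985 / 10000) ((-10507) / 10000) a y ρ ∨
    VA o (410 / 1000) (590 / 1000) (2395 / 10000) ((-34913) / 10000) a y ρ ∨
    VA o (460 / 1000) (540 / 1000) (2522 / 10000) ((-49779) / 10000) a y ρ

theorem pathA {a y ρ : ℝ} (h0 : 0 ≤ a) (h1 : a ≤ 1 / 2) (y0 : -(158 / 1000) ≤ y)
    (y1 : y ≤ 56 / 1000) (y2 : -(158 / 290 * (65 / 100 - a)) ≤ y) (r0 : 0 ≤ ρ)
    (r1 : ρ ≤ 1045 / 10000) : FA (2 * uu (a + 1 / 2) y) a y ρ := by
  have hpi := Real.pi_pos
  have p1 : Real.pi * (y - ρ) ≤ Real.pi * |y - ρ| :=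
    mul_le_mul_of_nonneg_left (le_abs_self _) hpi.le
  have p2 : Real.pi * (ρ - y) ≤ Real.pi * |y - ρ| := by
    rw [abs_sub_comm]
    exact mul_le_mul_of_nonneg_left (le_abs_self _) hpi.le
  have s235 : uu (a + 735 / 1000) (y - ρ) =
      uu (a - 265 / 1000) (y - ρ) + Real.pi * |y - ρ| := by
    rw [← uu_add_one]
    congr 1
    ring
  have s170 : uu (a + 670 / 1000) (y - ρ) =
      uu (a - 330 / 1000) (y - ρ) + Real.pi * |y - ρ| := by
    rw [← uu_add_one]
    congr 1
    ring
  have s90 : uu (a + 590 / 1000) (y - ρ) =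
      uu (a - 410 / 1000) (y - ρ) + Real.pi * |y - ρ| := by
    rw [← uu_add_one]
    congr 1
    ring
  have s40 : uu (a + 540 / 1000) (y - ρ) =
      uu (a - 460 / 1000) (y - ρ) + Real.pi * |y - ρ| := by
    rw [← uu_add_one]
    congr 1
    ring
  unfold FA
  rcases le_total y 0 with hy | hy
  · rcases le_total a (2500 / 10000) with c1 | c1
    · obtain ⟨e, he, hp⟩ := chkT3 kAn1 (by norm_num) (x := a) (y := y) (z := ρ)
        (by norm_num; linarith only [h0]) (by norm_num; linarith only [c1]) (by norm_num; linarith only [y0])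
        (by norm_num; linarith only [hy]) (by norm_num; linarith only [r0]) (by norm_num; linarith only [r1])
      simp only [List.mem_cons, List.not_mem_nil, or_false] at he
      rcases he with rfl | rfl | rfl | rfl
      all_goals
        simp only [E.val, NumI.lkR] at hp
        push_cast at hp
      · left; unfold VA; linarith only [hp]
      · right; left; unfold VA; linarith only [hp]
      · right; right; left; unfold VA; linarith only [hp]
      · right; right; right; unfold VA; linarith only [hp]
    rcases le_total a (4900 / 10000) with c2 | c2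
    · obtain ⟨e, he, hp⟩ := chkT3 kAn2 (by norm_num) (x := a) (y := y) (z := ρ)
        (by norm_num; linarith only [c1]) (by norm_num; linarith only [c2]) (by norm_num; linarith only [y0])
        (by norm_num; linarith only [hy]) (by norm_num; linarith only [r0]) (by norm_num; linarith only [r1])
      simp only [List.mem_cons, List.not_mem_nil, or_false] at he
      rcases he with rfl | rfl | rfl | rfl | rfl | rfl | rfl
      all_goals
        simp only [E.val, NumI.lkR] at hp
        push_cast at hp
      · right; left; unfold VA; linarith only [hp]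
      · right; right; left; unfold VA; linarith only [hp]
      · right; right; right; unfold VA; linarith only [hp]
      · left; unfold VA; linarith only [p2, s235, hp]
      · right; left; unfold VA; linarith only [p2, s170, hp]
      · right; right; left; unfold VA; linarith only [p2, s90, hp]
      · right; right; right; unfold VA; linarith only [p2, s40, hp]
    · have hn := uu_le_near (x := a + 1 / 2) (y := y) (by linarith only [c2]) (by linarith only [h1])
        (by rw [abs_of_nonpos hy]; linarith only [y2, c2])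
      rw [abs_of_nonpos hy] at hn
      obtain ⟨e, he, hp⟩ := chkT3 kAn3 (by norm_num) (x := a) (y := y) (z := ρ)
        (by norm_num; linarith only [c2]) (by norm_num; linarith only [h1]) (by norm_num; linarith only [y2, c2])
        (by norm_num; linarith only [hy]) (by norm_num; linarith only [r0]) (by norm_num; linarith only [r1])
      simp only [List.mem_cons, List.not_mem_nil, or_false] at he
      rcases he with rfl | rfl | rfl | rfl
      all_goals
        simp only [E.val, NumI.lkR] at hp
        push_cast at hp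
      · left; unfold VA; linarith only [p2, s235, hn, hp]
      · right; left; unfold VA; linarith only [p2, s170, hn, hp]
      · right; right; left; unfold VA; linarith only [p2, s90, hn, hp]
      · right; right; right; unfold VA; linarith only [p2, s40, hn, hp]
  · rcases le_total a (2600 / 10000) with c1 | c1
    · obtain ⟨e, he, hp⟩ := chkT3 kAp1 (by norm_num) (x := a) (y := y) (z := ρ)
        (by norm_num; linarith only [h0]) (by norm_num; linarith only [c1]) (by norm_num; linarith only [hy])
        (by norm_num; linarith only [y1]) (by norm_num; linarith only [r0]) (by norm_num; linarith only [r1])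
      simp only [List.mem_cons, List.not_mem_nil, or_false] at he
      rcases he with rfl | rfl | rfl | rfl
      all_goals
        simp only [E.val, NumI.lkR] at hp
        push_cast at hp
      · left; unfold VA; linarith only [hp]
      · right; left; unfold VA; linarith only [hp]
      · right; right; left; unfold VA; linarith only [hp]
      · right; right; right; unfold VA; linarith only [hp]
    rcases le_total a (3800 / 10000) with c2 | c2
    · obtain ⟨e, he, hp⟩ := chkT3 kAp2 (by norm_num) (x := a) (y := y) (z := ρ)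
        (by norm_num; linarith only [c1]) (by norm_num; linarith only [c2]) (by norm_num; linarith only [hy])
        (by norm_num; linarith only [y1]) (by norm_num; linarith only [r0]) (by norm_num; linarith only [r1])
      simp only [List.mem_cons, List.not_mem_nil, or_false] at he
      rcases he with rfl | rfl | rfl | rfl | rfl | rfl | rfl
      all_goals
        simp only [E.val, NumI.lkR] at hp
        push_cast at hp
      · right; left; unfold VA; linarith only [hp]
      · right; right; left; unfold VA; linarith only [hp]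
      · right; right; right; unfold VA; linarith only [hp]
      · left; unfold VA; linarith only [p2, s235, hp]
      · left; unfold VA; linarith only [p1, s235, hp]
      · right; left; unfold VA; linarith only [p2, s170, hp]
      · right; left; unfold VA; linarith only [p1, s170, hp]
    rcases le_total a (4900 / 10000) with c3 | c3
    · obtain ⟨e, he, hp⟩ := chkT3 kAp3 (by norm_num) (x := a) (y := y) (z := ρ)
        (by norm_num; linarith only [c2]) (by norm_num; linarith only [c3]) (by norm_num; linarith only [hy])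
        (by norm_num; linarith only [y1]) (by norm_num; linarith only [r0]) (by norm_num; linarith only [r1])
      simp only [List.mem_cons, List.not_mem_nil, or_false] at he
      rcases he with rfl | rfl | rfl | rfl | rfl | rfl | rfl | rfl
      all_goals
        simp only [E.val, NumI.lkR] at hp
        push_cast at hp
      · right; right; left; unfold VA; linarith only [hp]
      · right; right; right; unfold VA; linarith only [hp]
      · left; unfold VA; linarith only [p2, s235, hp]
      · left; unfold VA; linarith only [p1, s235, hp]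
      · right; right; left; unfold VA; linarith only [p2, s90, hp]
      · right; right; left; unfold VA; linarith only [p1, s90, hp]
      · right; right; right; unfold VA; linarith only [p2, s40, hp]
      · right; right; right; unfold VA; linarith only [p1, s40, hp]
    · have hn := uu_le_near (x := a + 1 / 2) (y := y) (by linarith only [c3]) (by linarith only [h1])
        (by rw [abs_of_nonneg hy]; linarith only [y1])
      rw [abs_of_nonneg hy] at hn
      obtain ⟨e, he, hp⟩ := chkT3 kAp4 (by norm_num) (x := a) (y := y) (z := ρ)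
        (by norm_num; linarith only [c3]) (by norm_num; linarith only [h1]) (by norm_num; linarith only [hy])
        (by norm_num; linarith only [y1]) (by norm_num; linarith only [r0]) (by norm_num; linarith only [r1])
      simp only [List.mem_cons, List.not_mem_nil, or_false] at he
      rcases he with rfl | rfl | rfl | rfl | rfl | rfl
      all_goals
        simp only [E.val, NumI.lkR] at hp
        push_cast at hp
      · left; unfold VA; linarith only [p2, s235, hn, hp]
      · left; unfold VA; linarith only [p1, s235, hn, hp]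
      · right; left; unfold VA; linarith only [p2, s170, hn, hp]
      · right; left; unfold VA; linarith only [p1, s170, hn, hp]
      · right; right; right; unfold VA; linarith only [p2, s40, hn, hp]
      · right; right; right; unfold VA; linarith only [p1, s40, hn, hp]

theorem pathB {a y ρ : ℝ} (h0 : 0 ≤ a) (h1 : a ≤ 1 / 2) (y0 : -(158 / 1000) ≤ y)
    (y1 : y ≤ 56 / 1000) (r0 : 0 ≤ ρ) (r1 : ρ ≤ 1045 / 10000) :
    FB (uu (a + 265 / 1000) y + uu (a + 735 / 1000) y) a y ρ := by
  have hpi := Real.pi_pos
  have p1 : Real.pi * (y - ρ) ≤ Real.pi * |y - ρ| :=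
    mul_le_mul_of_nonneg_left (le_abs_self _) hpi.le
  have p2 : Real.pi * (ρ - y) ≤ Real.pi * |y - ρ| := by
    rw [abs_sub_comm]
    exact mul_le_mul_of_nonneg_left (le_abs_self _) hpi.le
  have s235 : uu (a + 735 / 1000) (y - ρ) =
      uu (a - 265 / 1000) (y - ρ) + Real.pi * |y - ρ| := by
    rw [← uu_add_one]
    congr 1
    ring
  have s170 : uu (a + 670 / 1000) (y - ρ) =
      uu (a - 330 / 1000) (y - ρ) + Real.pi * |y - ρ| := by
    rw [← uu_add_one]
    congr 1
    ring
  have s90 : uu (a + 590 / 1000) (y - ρ) =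
      uu (a - 410 / 1000) (y - ρ) + Real.pi * |y - ρ| := by
    rw [← uu_add_one]
    congr 1
    ring
  have s40 : uu (a + 540 / 1000) (y - ρ) =
      uu (a - 460 / 1000) (y - ρ) + Real.pi * |y - ρ| := by
    rw [← uu_add_one]
    congr 1
    ring
  have e : uu (a + 735 / 1000) y = uu (a - 265 / 1000) y + Real.pi * |y| := by
    rw [← uu_add_one]
    congr 1
    ring
  unfold FB
  rcases le_total y 0 with hy | hy
  · rw [abs_of_nonpos hy] at e
    rcases le_total a (2550 / 10000) with c1 | c1
    · obtain ⟨e, he, hp⟩ := chkT3 kBn1 (by norm_num) (x := a) (y := y) (z := ρ)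
        (by norm_num; linarith only [h0]) (by norm_num; linarith only [c1]) (by norm_num; linarith only [y0])
        (by norm_num; linarith only [hy]) (by norm_num; linarith only [r0]) (by norm_num; linarith only [r1])
      simp only [List.mem_cons, List.not_mem_nil, or_false] at he
      rcases he with rfl | rfl | rfl | rfl
      all_goals
        simp only [E.val, NumI.lkR] at hp
        push_cast at hp
      · left; unfold VA; linarith only [hp]
      · right; left; unfold VA; linarith only [hp]
      · right; right; left; unfold VA; linarith only [hp]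
      · right; right; right; unfold VA; linarith only [hp]
    rcases le_total a (2750 / 10000) with c2 | c2
    · have hn := uu_le_near (x := a + 735 / 1000) (y := y) (by linarith only [c1]) (by linarith only [c2])
        (by rw [abs_of_nonpos hy]; linarith only [y0])
      rw [abs_of_nonpos hy] at hn
      obtain ⟨e, he, hp⟩ := chkT3 kBn2 (by norm_num) (x := a) (y := y) (z := ρ)
        (by norm_num; linarith only [c1]) (by norm_num; linarith only [c2]) (by norm_num; linarith only [y0])
        (by norm_num; linarith only [hy]) (by norm_num; linarith only [r0]) (by norm_num; linarith only [r1])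
      simp only [List.mem_cons, List.not_mem_nil, or_false] at he
      rcases he with rfl | rfl | rfl
      all_goals
        simp only [E.val, NumI.lkR] at hp
        push_cast at hp
      · right; left; unfold VA; linarith only [hn, hp]
      · right; right; left; unfold VA; linarith only [hn, hp]
      · right; right; right; unfold VA; linarith only [hn, hp]
    · obtain ⟨e, he, hp⟩ := chkT3 kBn3 (by norm_num) (x := a) (y := y) (z := ρ)
        (by norm_num; linarith only [c2]) (by norm_num; linarith only [h1]) (by norm_num; linarith only [y0])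
        (by norm_num; linarith only [hy]) (by norm_num; linarith only [r0]) (by norm_num; linarith only [r1])
      simp only [List.mem_cons, List.not_mem_nil, or_false] at he
      rcases he with rfl | rfl | rfl | rfl | rfl | rfl | rfl
      all_goals
        simp only [E.val, NumI.lkR] at hp
        push_cast at hp
      · right; left; unfold VA; linarith only [e, hp]
      · right; right; left; unfold VA; linarith only [e, hp]
      · right; right; right; unfold VA; linarith only [e, hp]
      · left; unfold VA; linarith only [p2, s235, e, hp]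
      · right; left; unfold VA; linarith only [p2, s170, e, hp]
      · right; right; left; unfold VA; linarith only [p2, s90, e, hp]
      · right; right; right; unfold VA; linarith only [p2, s40, e, hp]
  · rw [abs_of_nonneg hy] at e
    rcases le_total a (2550 / 10000) with c1 | c1
    · obtain ⟨e, he, hp⟩ := chkT3 kBp1 (by norm_num) (x := a) (y := y) (z := ρ)
        (by norm_num; linarith only [h0]) (by norm_num; linarith only [c1]) (by norm_num; linarith only [hy])
        (by norm_num; linarith only [y1]) (by norm_num; linarith only [r0]) (by norm_num; linarith only [r1])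
      simp only [List.mem_cons, List.not_mem_nil, or_false] at he
      rcases he with rfl | rfl | rfl | rfl
      all_goals
        simp only [E.val, NumI.lkR] at hp
        push_cast at hp
      · left; unfold VA; linarith only [hp]
      · right; left; unfold VA; linarith only [hp]
      · right; right; left; unfold VA; linarith only [hp]
      · right; right; right; unfold VA; linarith only [hp]
    rcases le_total a (2750 / 10000) with c2 | c2
    · have hn := uu_le_near (x := a + 735 / 1000) (y := y) (by linarith only [c1]) (by linarith only [c2])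
        (by rw [abs_of_nonneg hy]; linarith only [y1])
      rw [abs_of_nonneg hy] at hn
      obtain ⟨e, he, hp⟩ := chkT3 kBp2 (by norm_num) (x := a) (y := y) (z := ρ)
        (by norm_num; linarith only [c1]) (by norm_num; linarith only [c2]) (by norm_num; linarith only [hy])
        (by norm_num; linarith only [y1]) (by norm_num; linarith only [r0]) (by norm_num; linarith only [r1])
      simp only [List.mem_cons, List.not_mem_nil, or_false] at he
      rcases he with rfl | rfl | rfl
      all_goals
        simp only [E.val, NumI.lkR] at hp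
        push_cast at hp
      · right; left; unfold VA; linarith only [hn, hp]
      · right; right; left; unfold VA; linarith only [hn, hp]
      · right; right; right; unfold VA; linarith only [hn, hp]
    rcases le_total a (3800 / 10000) with c3 | c3
    · obtain ⟨e, he, hp⟩ := chkT3 kBp3 (by norm_num) (x := a) (y := y) (z := ρ)
        (by norm_num; linarith only [c2]) (by norm_num; linarith only [c3]) (by norm_num; linarith only [hy])
        (by norm_num; linarith only [y1]) (by norm_num; linarith only [r0]) (by norm_num; linarith only [r1])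
      simp only [List.mem_cons, List.not_mem_nil, or_false] at he
      rcases he with rfl | rfl | rfl | rfl | rfl | rfl | rfl
      all_goals
        simp only [E.val, NumI.lkR] at hp
        push_cast at hp
      · right; left; unfold VA; linarith only [e, hp]
      · right; right; left; unfold VA; linarith only [e, hp]
      · right; right; right; unfold VA; linarith only [e, hp]
      · left; unfold VA; linarith only [p2, s235, e, hp]
      · left; unfold VA; linarith only [p1, s235, e, hp]
      · right; left; unfold VA; linarith only [p2, s170, e, hp]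
      · right; left; unfold VA; linarith only [p1, s170, e, hp]
    · obtain ⟨e, he, hp⟩ := chkT3 kBp4 (by norm_num) (x := a) (y := y) (z := ρ)
        (by norm_num; linarith only [c3]) (by norm_num; linarith only [h1]) (by norm_num; linarith only [hy])
        (by norm_num; linarith only [y1]) (by norm_num; linarith only [r0]) (by norm_num; linarith only [r1])
      simp only [List.mem_cons, List.not_mem_nil, or_false] at he
      rcases he with rfl | rfl | rfl | rfl | rfl | rfl | rfl | rfl
      all_goals
        simp only [E.val, NumI.lkR] at hp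
        push_cast at hp
      · right; right; left; unfold VA; linarith only [e, hp]
      · right; right; right; unfold VA; linarith only [e, hp]
      · left; unfold VA; linarith only [p2, s235, e, hp]
      · left; unfold VA; linarith only [p1, s235, e, hp]
      · right; right; left; unfold VA; linarith only [p2, s90, e, hp]
      · right; right; left; unfold VA; linarith only [p1, s90, e, hp]
      · right; right; right; unfold VA; linarith only [p2, s40, e, hp]
      · right; right; right; unfold VA; linarith only [p1, s40, e, hp]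

theorem pathC {a y ρ : ℝ} (h0 : 1 / 2 ≤ a) (h1 : a ≤ 65 / 100)
    (y1 : y ≤ 0) (y2 : -(158 / 290 * (65 / 100 - a)) ≤ y) (r0 : 0 ≤ ρ)
    (r1 : ρ ≤ 1045 / 10000) : 0 < uu (a + 265 / 1000) (y + ρ) + uu (a + 735 / 1000) (y - ρ) -
      2 * uu a y + (1460 / 10000 + 10430 / 10000 * ρ) + Real.pi * y := by
  have hpi := Real.pi_pos
  have p1 : Real.pi * (y - ρ) ≤ Real.pi * |y - ρ| :=
    mul_le_mul_of_nonneg_left (le_abs_self _) hpi.le
  have p2 : Real.pi * (ρ - y) ≤ Real.pi * |y - ρ| := by
    rw [abs_sub_comm]
    exact mul_le_mul_of_nonneg_left (le_abs_self _) hpi.le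
  have s235 : uu (a + 735 / 1000) (y - ρ) =
      uu (a - 265 / 1000) (y - ρ) + Real.pi * |y - ρ| := by
    rw [← uu_add_one]
    congr 1
    ring
  have s170 : uu (a + 670 / 1000) (y - ρ) =
      uu (a - 330 / 1000) (y - ρ) + Real.pi * |y - ρ| := by
    rw [← uu_add_one]
    congr 1
    ring
  have s90 : uu (a + 590 / 1000) (y - ρ) =
      uu (a - 410 / 1000) (y - ρ) + Real.pi * |y - ρ| := by
    rw [← uu_add_one]
    congr 1
    ring
  have s40 : uu (a + 540 / 1000) (y - ρ) =
      uu (a - 460 / 1000) (y - ρ) + Real.pi * |y - ρ| := by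
    rw [← uu_add_one]
    congr 1
    ring
  obtain ⟨e, he, hp⟩ := chkT3 kC (by norm_num) (x := a) (y := y) (z := ρ)
    (by norm_num; linarith only [h0]) (by norm_num; linarith only [h1]) (by norm_num; linarith only [h0, y2])
    (by norm_num; linarith only [y1]) (by norm_num; linarith only [r0]) (by norm_num; linarith only [r1])
  simp only [List.mem_cons, List.not_mem_nil, or_false] at he
  rcases he with rfl | rfl
  all_goals
    simp only [E.val, NumI.lkR] at hp
    push_cast at hp
    linarith only [p2, s235, hp, y2]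

/-! ### the second slot -/

theorem path_bd {k : RKe} {n : ℝ} {w : ℂ} (h : k.ok n w) : -(158 / 1000) ≤ w.im ∧
    -(158 / 290 * (65 / 100 - w.re)) ≤ w.im := by
  have key : ∀ {T XM cl cr : ℝ}, RH w T XM cl cr → T ≤ 0 → XM ≤ 65 / 100 → 0 < cr →
      -(158 / 290 * cr) ≤ T → -(158 / 290 * (65 / 100 - w.re)) ≤ w.im := by
    intro T XM cl cr hw hT hX hcr hT2
    have h1 : tr 0 XM cl cr w.re ≤ (XM - w.re) / cr := by
      have h2 := hw.reM
      have h3 : 0 ≤ (XM - w.re) / cr := div_nonneg (by linarith only [h2]) hcr.le
      unfold tr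
      exact max_le h3 ((min_le_right _ _).trans (min_le_right _ _))
    have h2 := (tr_mem XM cl cr w.re).1
    have h3 : T * ((XM - w.re) / cr) ≤ w.im := by
      rw [hw.im]
      nlinarith only [hT, h1]
    have h4 : -(158 / 290 * (XM - w.re)) ≤ T * ((XM - w.re) / cr) := by
      have h5 : 0 ≤ (XM - w.re) / cr := div_nonneg (by linarith only [hw, hw.reM]) hcr.le
      have h6 : (XM - w.re) = cr * ((XM - w.re) / cr) := by field_simp
      have h7 := mul_le_mul_of_nonneg_right hT2 h5
      linarith only [h6, h7]
    have h5 := hw.reM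
    linarith only [hX, h3, h4]
  cases k with
  | no =>
    have h0 : w = 0 := h
    rw [h0]
    norm_num
  | one =>
    obtain ⟨T, cr, t0, t1, -, -, ⟨r1, r2⟩, hw⟩ := h
    exact ⟨t0.trans (hw.im_ge (by linarith only [t1])), key hw (by linarith only [t1]) le_rfl (by linarith only [r1])
      (by linarith only [t0, r1])⟩
  | lo =>
    obtain ⟨T, cl, cr, t0, t1, -, ⟨l1, l2⟩, ⟨r1, r2⟩, hw⟩ := h
    exact ⟨by linarith only [t0, t1, hw, hw.im_ge t1], key hw t1 (by norm_num) (by linarith only [r1]) (by linarith only [t0, r1])⟩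
  | rr =>
    obtain ⟨T, t0, t1, -, -, hw⟩ := h
    have hM := hw.reM
    have h2 := tr_mem (1 / 2) (1 / 10) (2 / 100) w.re
    have h3 : -(385 / 10000) ≤ w.im := by
      rw [hw.im]
      nlinarith only [t0, h2]
    constructor <;> linarith only [h3, hM]
  | ps =>
    obtain ⟨-, h1, -, -, h2⟩ := h
    constructor <;> linarith only [h1, h2]

theorem path_hi {k : RKe} {n : ℝ} {w : ℂ} (h : k.ok n w) (hw : 1 / 2 < w.re) : w.im ≤ 0 := by
  by_cases hk : k = .rr
  · subst hk
    obtain ⟨T, t0, t1, -, -, hw'⟩ := h
    have hM := hw'.reM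
    exact absurd hM (not_le.2 hw)
  · by_cases hk' : k = .ps
    · subst hk'
      exact absurd h.2.2.2.2 (not_le.2 hw)
    · apply h.im_nonpos
      cases k <;> simp_all [RKe.up]

/-- the bounds for the first slot -/
theorem tail_bd {c lA sA lB sB : ℝ} (L : Ld c lA sA lB sB) {n ρ s g : ℝ} {hi : Bool} {w w1 : ℂ}
    (hρ : 0 ≤ ρ) (hρ' : ρ ≤ 1045 / 10000) (hs : |s| ≤ 1 / 2) (h : RTail n hi w w1 g) :
    lB + sB * ρ ≤ fR w1 ⟨-c, ρ⟩ - fR w s - g ∧
      (|s| ≤ 235 / 1000 → lA + sA * ρ ≤ fR w1 ⟨-c, ρ⟩ - fR w s - g) := by
  have hAB := L.AB hρ hρ'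
  cases h with
  | @one x t h0 h1 h2 h3 h4 h5 =>
    have a1 := fR_tail_nonpos (w := ⟨x, 0⟩) rfl (by simp only; linarith only [h0]) h1 hs
    obtain ⟨b1, b2⟩ := L.one h2 h3 hρ hρ'
    by_cases hx : 95 / 100 ≤ x
    · have e1 : al .ring .one .ring x = 2 / 100 - 1 / 100 := by
        simp only [al, if_pos hx]
        norm_num
      have e2 : be .ring .one = 21 / 10 := rfl
      rw [e1, e2]
      constructor
      · linarith only [a1, b2]
      · intro _
        linarith only [a1, b1]
    · have e1 : al .ring .one .ring x = 14 / 100 := by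
        simp only [al, if_neg hx]
      have e2 : be .ring .one = 21 / 10 := rfl
      rw [e1, e2]
      constructor
      · linarith only [a1, b2]
      · intro hs'
        have a2 := old_tail h0 (le_of_lt (not_le.mp hx)) hs'
        linarith only [b1, a2]
  | @lo x t h0 h1 h2 h3 h4 =>
    have a1 := fR_tail_nonpos (w := ⟨x, 0⟩) rfl (by simp only; linarith only [h0]) h1 hs
    have b1 := L.lo h2 h3 hρ hρ'
    constructor
    · linarith only [hAB, a1, b1]
    · intro _
      linarith only [a1, b1]
  | @ring x t h0 h1 h2 h3 h4 =>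
    have a1 := fR_tail_nonpos (w := ⟨x, 0⟩) rfl h0 h1 hs
    have b1 := L.rr h2 h3 hρ hρ'
    constructor
    · linarith only [hAB, a1, b1]
    · intro _
      linarith only [a1, b1]

theorem slot_cases {n g : ℝ} {hi : Bool} {w w1 : ℂ} (h : RSlot n hi w w1 g) :
    RTail n hi w w1 g ∨ (∃ k : RKe, k.ok n w ∧ w = w1 ∧ g = 0) ∨
      (∃ x t : ℝ, w = ⟨x, 0⟩ ∧ w1 = ⟨1 / 5, t⟩ ∧ g = -(59 / 25) * t ∧ 0 ≤ x ∧ x ≤ 65 / 100 ∧
        -(158 / 1000) ≤ t ∧ t ≤ 4 / 1000) := by
  cases h with
  | tailOne h0 h1 h2 h3 h4 h5 => exact Or.inl (.one h0 h1 h2 h3 h4 h5)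
  | tailLo h0 h1 h2 h3 h4 => exact Or.inl (.lo h0 h1 h2 h3 h4)
  | tailRing h0 h1 h2 h3 h4 => exact Or.inl (.ring h0 h1 h2 h3 h4)
  | @path w k h h0 h1 => exact Or.inr (Or.inl ⟨k, h, rfl, rfl⟩)
  | @nbOne x t h0 h1 h2 h3 h4 h5 h6 h7 =>
    exact Or.inr (Or.inr ⟨x, t, rfl, rfl, rfl, h0, h1, h2, by linarith only [h3]⟩)
  | @nbLo x t h0 h1 h2 h3 h4 h6 h7 =>
    exact Or.inr (Or.inr ⟨x, t, rfl, rfl, rfl, h0, by linarith only [h1], by linarith only [h2], h3⟩)

theorem VR_re_c (n c ρ : ℝ) : (Real.pi * Complex.I * n * (⟨-c, ρ⟩ : ℂ) ^ 2 +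
    2 * Real.pi * Complex.I * (⟨-c, ρ⟩ : ℂ)).re = -(2 * Real.pi * ρ * (1 - n * c)) := by
  simp [pow_two]
  ring

/-- the term with the number of crossings -/
theorem nterm {n c ρ : ℝ} (hn : 4 ≤ n) (hρ : 0 ≤ ρ) (c0 : 0 ≤ c) (c1 : c ≤ 1 / 4) :
    2 * Real.pi * ρ * (1 - n * c) ≤ 62832 / 10000 * (1 - 4 * c) * ρ := by
  have hpi := Real.pi_pos
  have hpi4 : Real.pi < 3.1416 := Real.pi_lt_d4
  have h1 : 1 - n * c ≤ 1 - 4 * c := by nlinarith only [hn, c0]
  have h2 : 0 ≤ 1 - 4 * c := by linarith only [c1]
  have h3 : 2 * Real.pi * ρ * (1 - n * c) ≤ 2 * Real.pi * ρ * (1 - 4 * c) :=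
    mul_le_mul_of_nonneg_left h1 (by positivity)
  have h4 : ρ * (1 - 4 * c) * (2 * Real.pi) ≤ ρ * (1 - 4 * c) * (62832 / 10000) :=
    mul_le_mul_of_nonneg_left (by linarith only [hpi4]) (mul_nonneg hρ h2)
  linarith only [h3, h4]

/-- assembling the parts -/
theorem fin {n ρ s g g' c X Y : ℝ} {w w1 w' w1' : ℂ} (hn : 4 ≤ n) (hρ : 0 ≤ ρ) (c0 : 0 ≤ c)
    (c1 : c ≤ 1 / 4) (h1 : X ≤ fR w1 ⟨-c, ρ⟩ - fR w s - g) (h2 : Y ≤ fR w1' ⟨-c, ρ⟩ - fR w' s - g')
    (h3 : 62832 / 10000 * (1 - 4 * c) * ρ ≤ X + Y) :
    ∃ c : ℝ, -(1 / 4) ≤ c ∧ c ≤ 0 ∧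
      g + g' ≤ VR n w1 w1' ⟨c, ρ⟩ - VR n w w' ⟨s, 0⟩ := by
  refine ⟨-c, by linarith only [c1], by linarith only [c0], ?_⟩
  have e : (⟨s, 0⟩ : ℂ) = (s : ℂ) := by apply Complex.ext <;> simp
  have h4 := nterm hn hρ c0 c1
  rw [e, VR_fR, VR_fR, VR_re_c, VR_re_real]
  linarith only [h1, h2, h3, h4]

/-- the value of a hinge on its path with the new ring variable -/
theorem path_new (w : ℂ) (c ρ : ℝ) : fR w ⟨-c, ρ⟩ =
    uu (w.re + (1 / 2 - c)) (w.im + ρ) + uu (w.re + (1 / 2 + c)) (w.im - ρ) - 2 * UU w := by
  have h := fR_new w.re w.im c ρ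
  rw [UU_uu, h, show w.re + 1 / 2 - c = w.re + (1 / 2 - c) by ring,
    show w.re + 1 / 2 + c = w.re + (1 / 2 + c) by ring]

end K5

open K5

/-- **KZ.**  A touched ring: the first slot is in the tail. -/
theorem side_ring {n ρ s g g' : ℝ} {hi hi' : Bool} {w w1 w' w1' : ℂ} (hn : 4 ≤ n) (hρ : 0 ≤ ρ)
    (hc : RCap n ρ) (hs : |s| ≤ 1 / 2) (h : RTail n hi w w1 g) (h' : RSlot n hi' w' w1' g') :
    ∃ c : ℝ, -(1 / 4) ≤ c ∧ c ≤ 0 ∧
      g + g' ≤ VR n w1 w1' ⟨c, ρ⟩ - VR n w w' ⟨s, 0⟩ := by
  have hρ' : ρ ≤ 1045 / 10000 := hc.1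
  have b235 := tail_bd ld235 hρ hρ' hs h
  have b170 := tail_bd ld170 hρ hρ' hs h
  have b90 := tail_bd ld90 hρ hρ' hs h
  have b40 := tail_bd ld40 hρ hρ' hs h
  rcases slot_cases h' with h' | ⟨k, hk, rfl, rfl⟩ | ⟨x, t, rfl, rfl, rfl, x0, x1, t0, t1⟩
  · have b' := tail_bd ld170 hρ hρ' hs h'
    exact fin hn hρ (by norm_num) (by norm_num) b170.1 b'.1 (by linarith only [hρ'])
  · obtain ⟨y0, y2⟩ := path_bd hk
    have y1 := hk.im_le
    have a0 := hk.re_nonneg
    rcases le_or_gt w'.re (1 / 2) with a1 | a1
    · rcases le_total |s| (235 / 1000) with hs' | hs'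
      · have old := fR_real_le_zero a0 a1 hs
        rw [fR_uu w' 0] at old
        simp only [Complex.zero_re, Complex.zero_im, add_zero, sub_zero] at old
        rw [← UU_uu] at old
        rcases pathA a0 a1 y0 y1 y2 hρ hρ' with v | v | v | v
        · refine fin hn hρ (by norm_num) (by norm_num) (b235.2 hs') le_rfl ?_
          unfold VA at v
          rw [path_new, show (1 : ℝ) / 2 - 235 / 1000 = 265 / 1000 by norm_num,
            show (1 : ℝ) / 2 + 235 / 1000 = 735 / 1000 by norm_num]
          linarith only [hρ, old, v]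
        · refine fin hn hρ (by norm_num) (by norm_num) (b170.2 hs') le_rfl ?_
          unfold VA at v
          rw [path_new, show (1 : ℝ) / 2 - 170 / 1000 = 330 / 1000 by norm_num,
            show (1 : ℝ) / 2 + 170 / 1000 = 670 / 1000 by norm_num]
          linarith only [hρ, old, v]
        · refine fin hn hρ (by norm_num) (by norm_num) (b90.2 hs') le_rfl ?_
          unfold VA at v
          rw [path_new, show (1 : ℝ) / 2 - 90 / 1000 = 410 / 1000 by norm_num,
            show (1 : ℝ) / 2 + 90 / 1000 = 590 / 1000 by norm_num]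
          linarith only [hρ, old, v]
        · refine fin hn hρ (by norm_num) (by norm_num) (b40.2 hs') le_rfl ?_
          unfold VA at v
          rw [path_new, show (1 : ℝ) / 2 - 40 / 1000 = 460 / 1000 by norm_num,
            show (1 : ℝ) / 2 + 40 / 1000 = 540 / 1000 by norm_num]
          linarith only [hρ, old, v]
      · have old := pair_anti w'.im a0 a1 (by norm_num) hs' hs
        unfold pr2 at old
        rw [UU_uu ⟨w'.re + 1 / 2 + 235 / 1000, w'.im⟩, UU_uu ⟨w'.re + 1 / 2 - 235 / 1000, w'.im⟩]
          at old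
        simp only at old
        rw [show w'.re + 1 / 2 + 235 / 1000 = w'.re + 735 / 1000 by ring,
          show w'.re + 1 / 2 - 235 / 1000 = w'.re + 265 / 1000 by ring] at old
        have e := fR_real w' s
        unfold pr2 at e
        rcases pathB a0 a1 y0 y1 hρ hρ' with v | v | v | v
        · refine fin hn hρ (by norm_num) (by norm_num) b235.1 le_rfl ?_
          unfold VA at v
          rw [path_new, e, show (1 : ℝ) / 2 - 235 / 1000 = 265 / 1000 by norm_num,
            show (1 : ℝ) / 2 + 235 / 1000 = 735 / 1000 by norm_num]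
          linarith only [hρ, old, v]
        · refine fin hn hρ (by norm_num) (by norm_num) b170.1 le_rfl ?_
          unfold VA at v
          rw [path_new, e, show (1 : ℝ) / 2 - 170 / 1000 = 330 / 1000 by norm_num,
            show (1 : ℝ) / 2 + 170 / 1000 = 670 / 1000 by norm_num]
          linarith only [hρ, old, v]
        · refine fin hn hρ (by norm_num) (by norm_num) b90.1 le_rfl ?_
          unfold VA at v
          rw [path_new, e, show (1 : ℝ) / 2 - 90 / 1000 = 410 / 1000 by norm_num,
            show (1 : ℝ) / 2 + 90 / 1000 = 590 / 1000 by norm_num]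
          linarith only [hρ, old, v]
        · refine fin hn hρ (by norm_num) (by norm_num) b40.1 le_rfl ?_
          unfold VA at v
          rw [path_new, e, show (1 : ℝ) / 2 - 40 / 1000 = 460 / 1000 by norm_num,
            show (1 : ℝ) / 2 + 40 / 1000 = 540 / 1000 by norm_num]
          linarith only [hρ, old, v]
    · have a2 := hk.re_le
      have y3 := path_hi hk a1
      have v := pathC a1.le a2 y3 y2 hρ hρ'
      have old := pair_mono w'.im a1.le (by linarith only [a1, a2]) (abs_nonneg s) hs le_rfl
      have e := fR_real w' s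
      have e' := fR_half w'
      rw [show (1 / 2 : ℂ) = ((1 / 2 : ℝ) : ℂ) by norm_num, fR_real,
        abs_of_pos (by norm_num : (0 : ℝ) < 1 / 2), abs_of_nonpos y3] at e'
      refine fin hn hρ (by norm_num) (by norm_num) b235.1 le_rfl ?_
      rw [path_new, show (1 : ℝ) / 2 - 235 / 1000 = 265 / 1000 by norm_num,
        show (1 : ℝ) / 2 + 235 / 1000 = 735 / 1000 by norm_num, UU_uu w']
      rw [UU_uu w'] at e e'
      linarith only [hρ, v, old, e, e']
  · have b := nb_new t0 t1 hρ hρ'
    rcases le_total x (1 / 2) with a1 | a1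
    · rcases le_total |s| (235 / 1000) with hs' | hs'
      · have old := old_nb0 x0 a1 hs
        exact fin hn hρ (by norm_num) (by norm_num) (b170.2 hs') le_rfl (by linarith only [hρ', b, old])
      · have old := old_nb1 x0 a1 hs hs'
        exact fin hn hρ (by norm_num) (by norm_num) b170.1 le_rfl (by linarith only [hρ', b, old])
    · have old := fR_tail_nonpos (w := ⟨x, 0⟩) rfl a1 (by simp only; linarith only [x1]) hs
      exact fin hn hρ (by norm_num) (by norm_num) b170.1 le_rfl (by linarith only [hρ', b, old])

end TL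

end Pool.Agent.Work.MP_b30479_gt.G2
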