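import Pool.Agent.Work.NumU.Tree

/-!
# Tails, row `KZ` (a touched ring): certificates
-/

namespace Pool.Agent.Work.MP_b30479_gt.G2

namespace TL.K5

section
open NumU NumU.E
open NumI (V)

theorem kAn1 : chkT [(sub (add (add (E.uu (add (var 0) (q 265 1000)) (add (var 1) (var 2))) (E.uu (add (var 0) (q 735 1000)) (sub (var 1) (var 2)))) (add (q 2592 10000) (mul (q 9030 10000) (var 2)))) (mul (q 2 1) (E.uu (add (var 0) (q 1 2)) (var 1)))),
  (sub (add (add (E.uu (add (var 0) (q 330 1000)) (add (var 1) (var 2))) (E.uu (add (var 0) (q 670 1000)) (sub (var 1) (var 2)))) (add (q 3285 10000) (mul (q (-10507) 10000) (var 2)))) (mul (q 2 1) (E.uu (add (var 0) (q 1 2)) (var 1)))),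
  (sub (add (add (E.uu (add (var 0) (q 410 1000)) (add (var 1) (var 2))) (E.uu (add (var 0) (q 590 1000)) (sub (var 1) (var 2)))) (add (q 3695 10000) (mul (q (-34913) 10000) (var 2)))) (mul (q 2 1) (E.uu (add (var 0) (q 1 2)) (var 1)))),
  (sub (add (add (E.uu (add (var 0) (q 460 1000)) (add (var 1) (var 2))) (E.uu (add (var 0) (q 540 1000)) (sub (var 1) (var 2)))) (add (q 3822 10000) (mul (q (-49779) 10000) (var 2)))) (mul (q 2 1) (E.uu (add (var 0) (q 1 2)) (var 1))))] 40
  0x99180
  [V.of 10000 0 2500, V.of 10000 (-1580) 0, V.of 10000 0 1045] = true := by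
  decide +kernel

theorem kAn2 : chkT [(sub (add (add (E.uu (add (var 0) (q 330 1000)) (add (var 1) (var 2))) (E.uu (add (var 0) (q 670 1000)) (sub (var 1) (var 2)))) (add (q 3285 10000) (mul (q (-10507) 10000) (var 2)))) (mul (q 2 1) (E.uu (add (var 0) (q 1 2)) (var 1)))),
  (sub (add (add (E.uu (add (var 0) (q 410 1000)) (add (var 1) (var 2))) (E.uu (add (var 0) (q 590 1000)) (sub (var 1) (var 2)))) (add (q 3695 10000) (mul (q (-34913) 10000) (var 2)))) (mul (q 2 1) (E.uu (add (var 0) (q 1 2)) (var 1)))),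
  (sub (add (add (E.uu (add (var 0) (q 460 1000)) (add (var 1) (var 2))) (E.uu (add (var 0) (q 540 1000)) (sub (var 1) (var 2)))) (add (q 3822 10000) (mul (q (-49779) 10000) (var 2)))) (mul (q 2 1) (E.uu (add (var 0) (q 1 2)) (var 1)))),
  (sub (add (add (E.uu (add (var 0) (q 265 1000)) (add (var 1) (var 2))) (add (E.uu (sub (var 0) (q 265 1000)) (sub (var 1) (var 2))) (mul pi (sub (var 2) (var 1))))) (add (q 2592 10000) (mul (q 9030 10000) (var 2)))) (mul (q 2 1) (E.uu (add (var 0) (q 1 2)) (var 1)))),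
  (sub (add (add (E.uu (add (var 0) (q 330 1000)) (add (var 1) (var 2))) (add (E.uu (sub (var 0) (q 330 1000)) (sub (var 1) (var 2))) (mul pi (sub (var 2) (var 1))))) (add (q 3285 10000) (mul (q (-10507) 10000) (var 2)))) (mul (q 2 1) (E.uu (add (var 0) (q 1 2)) (var 1)))),
  (sub (add (add (E.uu (add (var 0) (q 410 1000)) (add (var 1) (var 2))) (add (E.uu (sub (var 0) (q 410 1000)) (sub (var 1) (var 2))) (mul pi (sub (var 2) (var 1))))) (add (q 3695 10000) (mul (q (-34913) 10000) (var 2)))) (mul (q 2 1) (E.uu (add (var 0) (q 1 2)) (var 1)))),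
  (sub (add (add (E.uu (add (var 0) (q 460 1000)) (add (var 1) (var 2))) (add (E.uu (sub (var 0) (q 460 1000)) (sub (var 1) (var 2))) (mul pi (sub (var 2) (var 1))))) (add (q 3822 10000) (mul (q (-49779) 10000) (var 2)))) (mul (q 2 1) (E.uu (add (var 0) (q 1 2)) (var 1))))] 40
  0xbb1c0c0b1cc1ba20b10bb080a2bb08010
  [V.of 10000 2500 4900, V.of 10000 (-1580) 0, V.of 10000 0 1045] = true := by
  decide +kernel

theorem kAn3 : chkT [(sub (add (add (E.uu (add (var 0) (q 265 1000)) (add (var 1) (var 2))) (add (E.uu (sub (var 0) (q 265 1000)) (sub (var 1) (var 2))) (mul pi (sub (var 2) (var 1))))) (add (q 2592 10000) (mul (q 9030 10000) (var 2)))) (add (mul pi (neg (var 1))) (q 76 1000))),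
  (sub (add (add (E.uu (add (var 0) (q 330 1000)) (add (var 1) (var 2))) (add (E.uu (sub (var 0) (q 330 1000)) (sub (var 1) (var 2))) (mul pi (sub (var 2) (var 1))))) (add (q 3285 10000) (mul (q (-10507) 10000) (var 2)))) (add (mul pi (neg (var 1))) (q 76 1000))),
  (sub (add (add (E.uu (add (var 0) (q 410 1000)) (add (var 1) (var 2))) (add (E.uu (sub (var 0) (q 410 1000)) (sub (var 1) (var 2))) (mul pi (sub (var 2) (var 1))))) (add (q 3695 10000) (mul (q (-34913) 10000) (var 2)))) (add (mul pi (neg (var 1))) (q 76 1000))),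
  (sub (add (add (E.uu (add (var 0) (q 460 1000)) (add (var 1) (var 2))) (add (E.uu (sub (var 0) (q 460 1000)) (sub (var 1) (var 2))) (mul pi (sub (var 2) (var 1))))) (add (q 3822 10000) (mul (q (-49779) 10000) (var 2)))) (add (mul pi (neg (var 1))) (q 76 1000)))] 40
  0x8
  [V.of 10000 4900 5000, V.of 10000 (-1580) 0, V.of 10000 0 1045] = true := by
  decide +kernel

theorem kAp1 : chkT [(sub (add (add (E.uu (add (var 0) (q 265 1000)) (add (var 1) (var 2))) (E.uu (add (var 0) (q 735 1000)) (sub (var 1) (var 2)))) (add (q 2592 10000) (mul (q 9030 10000) (var 2)))) (mul (q 2 1) (E.uu (add (var 0) (q 1 2)) (var 1)))),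
  (sub (add (add (E.uu (add (var 0) (q 330 1000)) (add (var 1) (var 2))) (E.uu (add (var 0) (q 670 1000)) (sub (var 1) (var 2)))) (add (q 3285 10000) (mul (q (-10507) 10000) (var 2)))) (mul (q 2 1) (E.uu (add (var 0) (q 1 2)) (var 1)))),
  (sub (add (add (E.uu (add (var 0) (q 410 1000)) (add (var 1) (var 2))) (E.uu (add (var 0) (q 590 1000)) (sub (var 1) (var 2)))) (add (q 3695 10000) (mul (q (-34913) 10000) (var 2)))) (mul (q 2 1) (E.uu (add (var 0) (q 1 2)) (var 1)))),
  (sub (add (add (E.uu (add (var 0) (q 460 1000)) (add (var 1) (var 2))) (E.uu (add (var 0) (q 540 1000)) (sub (var 1) (var 2)))) (add (q 3822 10000) (mul (q (-49779) 10000) (var 2)))) (mul (q 2 1) (E.uu (add (var 0) (q 1 2)) (var 1))))] 40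
  0x98080
  [V.of 10000 0 2600, V.of 10000 0 560, V.of 10000 0 1045] = true := by
  decide +kernel

theorem kAp2 : chkT [(sub (add (add (E.uu (add (var 0) (q 330 1000)) (add (var 1) (var 2))) (E.uu (add (var 0) (q 670 1000)) (sub (var 1) (var 2)))) (add (q 3285 10000) (mul (q (-10507) 10000) (var 2)))) (mul (q 2 1) (E.uu (add (var 0) (q 1 2)) (var 1)))),
  (sub (add (add (E.uu (add (var 0) (q 410 1000)) (add (var 1) (var 2))) (E.uu (add (var 0) (q 590 1000)) (sub (var 1) (var 2)))) (add (q 3695 10000) (mul (q (-34913) 10000) (var 2)))) (mul (q 2 1) (E.uu (add (var 0) (q 1 2)) (var 1)))),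
  (sub (add (add (E.uu (add (var 0) (q 460 1000)) (add (var 1) (var 2))) (E.uu (add (var 0) (q 540 1000)) (sub (var 1) (var 2)))) (add (q 3822 10000) (mul (q (-49779) 10000) (var 2)))) (mul (q 2 1) (E.uu (add (var 0) (q 1 2)) (var 1)))),
  (sub (add (add (E.uu (add (var 0) (q 265 1000)) (add (var 1) (var 2))) (add (E.uu (sub (var 0) (q 265 1000)) (sub (var 1) (var 2))) (mul pi (sub (var 2) (var 1))))) (add (q 2592 10000) (mul (q 9030 10000) (var 2)))) (mul (q 2 1) (E.uu (add (var 0) (q 1 2)) (var 1)))),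
  (sub (add (add (E.uu (add (var 0) (q 265 1000)) (add (var 1) (var 2))) (add (E.uu (sub (var 0) (q 265 1000)) (sub (var 1) (var 2))) (mul pi (sub (var 1) (var 2))))) (add (q 2592 10000) (mul (q 9030 10000) (var 2)))) (mul (q 2 1) (E.uu (add (var 0) (q 1 2)) (var 1)))),
  (sub (add (add (E.uu (add (var 0) (q 330 1000)) (add (var 1) (var 2))) (add (E.uu (sub (var 0) (q 330 1000)) (sub (var 1) (var 2))) (mul pi (sub (var 2) (var 1))))) (add (q 3285 10000) (mul (q (-10507) 10000) (var 2)))) (mul (q 2 1) (E.uu (add (var 0) (q 1 2)) (var 1)))),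
  (sub (add (add (E.uu (add (var 0) (q 330 1000)) (add (var 1) (var 2))) (add (E.uu (sub (var 0) (q 330 1000)) (sub (var 1) (var 2))) (mul pi (sub (var 1) (var 2))))) (add (q 3285 10000) (mul (q (-10507) 10000) (var 2)))) (mul (q 2 1) (E.uu (add (var 0) (q 1 2)) (var 1))))] 40
  0xd92bb0920b921b9280800a2
  [V.of 10000 2600 3800, V.of 10000 0 560, V.of 10000 0 1045] = true := by
  decide +kernel

theorem kAp3 : chkT [(sub (add (add (E.uu (add (var 0) (q 410 1000)) (add (var 1) (var 2))) (E.uu (add (var 0) (q 590 1000)) (sub (var 1) (var 2)))) (add (q 3695 10000) (mul (q (-34913) 10000) (var 2)))) (mul (q 2 1) (E.uu (add (var 0) (q 1 2)) (var 1)))),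
  (sub (add (add (E.uu (add (var 0) (q 460 1000)) (add (var 1) (var 2))) (E.uu (add (var 0) (q 540 1000)) (sub (var 1) (var 2)))) (add (q 3822 10000) (mul (q (-49779) 10000) (var 2)))) (mul (q 2 1) (E.uu (add (var 0) (q 1 2)) (var 1)))),
  (sub (add (add (E.uu (add (var 0) (q 265 1000)) (add (var 1) (var 2))) (add (E.uu (sub (var 0) (q 265 1000)) (sub (var 1) (var 2))) (mul pi (sub (var 2) (var 1))))) (add (q 2592 10000) (mul (q 9030 10000) (var 2)))) (mul (q 2 1) (E.uu (add (var 0) (q 1 2)) (var 1)))),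
  (sub (add (add (E.uu (add (var 0) (q 265 1000)) (add (var 1) (var 2))) (add (E.uu (sub (var 0) (q 265 1000)) (sub (var 1) (var 2))) (mul pi (sub (var 1) (var 2))))) (add (q 2592 10000) (mul (q 9030 10000) (var 2)))) (mul (q 2 1) (E.uu (add (var 0) (q 1 2)) (var 1)))),
  (sub (add (add (E.uu (add (var 0) (q 410 1000)) (add (var 1) (var 2))) (add (E.uu (sub (var 0) (q 410 1000)) (sub (var 1) (var 2))) (mul pi (sub (var 2) (var 1))))) (add (q 3695 10000) (mul (q (-34913) 10000) (var 2)))) (mul (q 2 1) (E.uu (add (var 0) (q 1 2)) (var 1)))),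
  (sub (add (add (E.uu (add (var 0) (q 410 1000)) (add (var 1) (var 2))) (add (E.uu (sub (var 0) (q 410 1000)) (sub (var 1) (var 2))) (mul pi (sub (var 1) (var 2))))) (add (q 3695 10000) (mul (q (-34913) 10000) (var 2)))) (mul (q 2 1) (E.uu (add (var 0) (q 1 2)) (var 1)))),
  (sub (add (add (E.uu (add (var 0) (q 460 1000)) (add (var 1) (var 2))) (add (E.uu (sub (var 0) (q 460 1000)) (sub (var 1) (var 2))) (mul pi (sub (var 2) (var 1))))) (add (q 3822 10000) (mul (q (-49779) 10000) (var 2)))) (mul (q 2 1) (E.uu (add (var 0) (q 1 2)) (var 1)))),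
  (sub (add (add (E.uu (add (var 0) (q 460 1000)) (add (var 1) (var 2))) (add (E.uu (sub (var 0) (q 460 1000)) (sub (var 1) (var 2))) (mul pi (sub (var 1) (var 2))))) (add (q 3822 10000) (mul (q (-49779) 10000) (var 2)))) (mul (q 2 1) (E.uu (add (var 0) (q 1 2)) (var 1))))] 40
  0xab2c1ab2c10aaa9220a1bc199202ac210aa9292292a921a99280912a19200
  [V.of 10000 3800 4900, V.of 10000 0 560, V.of 10000 0 1045] = true := by
  decide +kernel

theorem kAp4 : chkT [(sub (add (add (E.uu (add (var 0) (q 265 1000)) (add (var 1) (var 2))) (add (E.uu (sub (var 0) (q 265 1000)) (sub (var 1) (var 2))) (mul pi (sub (var 2) (var 1))))) (add (q 2592 10000) (mul (q 9030 10000) (var 2)))) (add (mul pi (var 1)) (q 76 1000))),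
  (sub (add (add (E.uu (add (var 0) (q 265 1000)) (add (var 1) (var 2))) (add (E.uu (sub (var 0) (q 265 1000)) (sub (var 1) (var 2))) (mul pi (sub (var 1) (var 2))))) (add (q 2592 10000) (mul (q 9030 10000) (var 2)))) (add (mul pi (var 1)) (q 76 1000))),
  (sub (add (add (E.uu (add (var 0) (q 330 1000)) (add (var 1) (var 2))) (add (E.uu (sub (var 0) (q 330 1000)) (sub (var 1) (var 2))) (mul pi (sub (var 2) (var 1))))) (add (q 3285 10000) (mul (q (-10507) 10000) (var 2)))) (add (mul pi (var 1)) (q 76 1000))),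
  (sub (add (add (E.uu (add (var 0) (q 330 1000)) (add (var 1) (var 2))) (add (E.uu (sub (var 0) (q 330 1000)) (sub (var 1) (var 2))) (mul pi (sub (var 1) (var 2))))) (add (q 3285 10000) (mul (q (-10507) 10000) (var 2)))) (add (mul pi (var 1)) (q 76 1000))),
  (sub (add (add (E.uu (add (var 0) (q 460 1000)) (add (var 1) (var 2))) (add (E.uu (sub (var 0) (q 460 1000)) (sub (var 1) (var 2))) (mul pi (sub (var 2) (var 1))))) (add (q 3822 10000) (mul (q (-49779) 10000) (var 2)))) (add (mul pi (var 1)) (q 76 1000))),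
  (sub (add (add (E.uu (add (var 0) (q 460 1000)) (add (var 1) (var 2))) (add (E.uu (sub (var 0) (q 460 1000)) (sub (var 1) (var 2))) (mul pi (sub (var 1) (var 2))))) (add (q 3822 10000) (mul (q (-49779) 10000) (var 2)))) (add (mul pi (var 1)) (q 76 1000)))] 40
  0x892
  [V.of 10000 4900 5000, V.of 10000 0 560, V.of 10000 0 1045] = true := by
  decide +kernel

theorem kBn1 : chkT [(sub (add (add (E.uu (add (var 0) (q 265 1000)) (add (var 1) (var 2))) (E.uu (add (var 0) (q 735 1000)) (sub (var 1) (var 2)))) (add (q 1460 10000) (mul (q 10430 10000) (var 2)))) (add (E.uu (add (var 0) (q 265 1000)) (var 1)) (E.uu (add (var 0) (q 735 1000)) (var 1)))),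
  (sub (add (add (E.uu (add (var 0) (q 330 1000)) (add (var 1) (var 2))) (E.uu (add (var 0) (q 670 1000)) (sub (var 1) (var 2)))) (add (q 1985 10000) (mul (q (-10507) 10000) (var 2)))) (add (E.uu (add (var 0) (q 265 1000)) (var 1)) (E.uu (add (var 0) (q 735 1000)) (var 1)))),
  (sub (add (add (E.uu (add (var 0) (q 410 1000)) (add (var 1) (var 2))) (E.uu (add (var 0) (q 590 1000)) (sub (var 1) (var 2)))) (add (q 2395 10000) (mul (q (-34913) 10000) (var 2)))) (add (E.uu (add (var 0) (q 265 1000)) (var 1)) (E.uu (add (var 0) (q 735 1000)) (var 1)))),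
  (sub (add (add (E.uu (add (var 0) (q 460 1000)) (add (var 1) (var 2))) (E.uu (add (var 0) (q 540 1000)) (sub (var 1) (var 2)))) (add (q 2522 10000) (mul (q (-49779) 10000) (var 2)))) (add (E.uu (add (var 0) (q 265 1000)) (var 1)) (E.uu (add (var 0) (q 735 1000)) (var 1))))] 40
  0x9918190909800
  [V.of 10000 0 2550, V.of 10000 (-1580) 0, V.of 10000 0 1045] = true := by
  decide +kernel

theorem kBn2 : chkT [(sub (add (add (E.uu (add (var 0) (q 330 1000)) (add (var 1) (var 2))) (E.uu (add (var 0) (q 670 1000)) (sub (var 1) (var 2)))) (add (q 1985 10000) (mul (q (-10507) 10000) (var 2)))) (add (E.uu (add (var 0) (q 265 1000)) (var 1)) (add (mul pi (mul (q 1 2) (neg (var 1)))) (q 38 1000)))),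
  (sub (add (add (E.uu (add (var 0) (q 410 1000)) (add (var 1) (var 2))) (E.uu (add (var 0) (q 590 1000)) (sub (var 1) (var 2)))) (add (q 2395 10000) (mul (q (-34913) 10000) (var 2)))) (add (E.uu (add (var 0) (q 265 1000)) (var 1)) (add (mul pi (mul (q 1 2) (neg (var 1)))) (q 38 1000)))),
  (sub (add (add (E.uu (add (var 0) (q 460 1000)) (add (var 1) (var 2))) (E.uu (add (var 0) (q 540 1000)) (sub (var 1) (var 2)))) (add (q 2522 10000) (mul (q (-49779) 10000) (var 2)))) (add (E.uu (add (var 0) (q 265 1000)) (var 1)) (add (mul pi (mul (q 1 2) (neg (var 1)))) (q 38 1000))))] 40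
  0x880
  [V.of 10000 2550 2750, V.of 10000 (-1580) 0, V.of 10000 0 1045] = true := by
  decide +kernel

theorem kBn3 : chkT [(sub (add (add (E.uu (add (var 0) (q 330 1000)) (add (var 1) (var 2))) (E.uu (add (var 0) (q 670 1000)) (sub (var 1) (var 2)))) (add (q 1985 10000) (mul (q (-10507) 10000) (var 2)))) (add (E.uu (add (var 0) (q 265 1000)) (var 1)) (add (E.uu (sub (var 0) (q 265 1000)) (var 1)) (mul pi (neg (var 1)))))),
  (sub (add (add (E.uu (add (var 0) (q 410 1000)) (add (var 1) (var 2))) (E.uu (add (var 0) (q 590 1000)) (sub (var 1) (var 2)))) (add (q 2395 10000) (mul (q (-34913) 10000) (var 2)))) (add (E.uu (add (var 0) (q 265 1000)) (var 1)) (add (E.uu (sub (var 0) (q 265 1000)) (var 1)) (mul pi (neg (var 1)))))),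
  (sub (add (add (E.uu (add (var 0) (q 460 1000)) (add (var 1) (var 2))) (E.uu (add (var 0) (q 540 1000)) (sub (var 1) (var 2)))) (add (q 2522 10000) (mul (q (-49779) 10000) (var 2)))) (add (E.uu (add (var 0) (q 265 1000)) (var 1)) (add (E.uu (sub (var 0) (q 265 1000)) (var 1)) (mul pi (neg (var 1)))))),
  (sub (add (add (E.uu (add (var 0) (q 265 1000)) (add (var 1) (var 2))) (add (E.uu (sub (var 0) (q 265 1000)) (sub (var 1) (var 2))) (mul pi (sub (var 2) (var 1))))) (add (q 1460 10000) (mul (q 10430 10000) (var 2)))) (add (E.uu (add (var 0) (q 265 1000)) (var 1)) (add (E.uu (sub (var 0) (q 265 1000)) (var 1)) (mul pi (neg (var 1)))))),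
  (sub (add (add (E.uu (add (var 0) (q 330 1000)) (add (var 1) (var 2))) (add (E.uu (sub (var 0) (q 330 1000)) (sub (var 1) (var 2))) (mul pi (sub (var 2) (var 1))))) (add (q 1985 10000) (mul (q (-10507) 10000) (var 2)))) (add (E.uu (add (var 0) (q 265 1000)) (var 1)) (add (E.uu (sub (var 0) (q 265 1000)) (var 1)) (mul pi (neg (var 1)))))),
  (sub (add (add (E.uu (add (var 0) (q 410 1000)) (add (var 1) (var 2))) (add (E.uu (sub (var 0) (q 410 1000)) (sub (var 1) (var 2))) (mul pi (sub (var 2) (var 1))))) (add (q 2395 10000) (mul (q (-34913) 10000) (var 2)))) (add (E.uu (add (var 0) (q 265 1000)) (var 1)) (add (E.uu (sub (var 0) (q 265 1000)) (var 1)) (mul pi (neg (var 1)))))),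
  (sub (add (add (E.uu (add (var 0) (q 460 1000)) (add (var 1) (var 2))) (add (E.uu (sub (var 0) (q 460 1000)) (sub (var 1) (var 2))) (mul pi (sub (var 2) (var 1))))) (add (q 2522 10000) (mul (q (-49779) 10000) (var 2)))) (add (E.uu (add (var 0) (q 265 1000)) (var 1)) (add (E.uu (sub (var 0) (q 265 1000)) (var 1)) (mul pi (neg (var 1))))))] 40
  0xbb1bb198091b100
  [V.of 10000 2750 5000, V.of 10000 (-1580) 0, V.of 10000 0 1045] = true := by
  decide +kernel

theorem kBp1 : chkT [(sub (add (add (E.uu (add (var 0) (q 265 1000)) (add (var 1) (var 2))) (E.uu (add (var 0) (q 735 1000)) (sub (var 1) (var 2)))) (add (q 1460 10000) (mul (q 10430 10000) (var 2)))) (add (E.uu (add (var 0) (q 265 1000)) (var 1)) (E.uu (add (var 0) (q 735 1000)) (var 1)))),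
  (sub (add (add (E.uu (add (var 0) (q 330 1000)) (add (var 1) (var 2))) (E.uu (add (var 0) (q 670 1000)) (sub (var 1) (var 2)))) (add (q 1985 10000) (mul (q (-10507) 10000) (var 2)))) (add (E.uu (add (var 0) (q 265 1000)) (var 1)) (E.uu (add (var 0) (q 735 1000)) (var 1)))),
  (sub (add (add (E.uu (add (var 0) (q 410 1000)) (add (var 1) (var 2))) (E.uu (add (var 0) (q 590 1000)) (sub (var 1) (var 2)))) (add (q 2395 10000) (mul (q (-34913) 10000) (var 2)))) (add (E.uu (add (var 0) (q 265 1000)) (var 1)) (E.uu (add (var 0) (q 735 1000)) (var 1)))),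
  (sub (add (add (E.uu (add (var 0) (q 460 1000)) (add (var 1) (var 2))) (E.uu (add (var 0) (q 540 1000)) (sub (var 1) (var 2)))) (add (q 2522 10000) (mul (q (-49779) 10000) (var 2)))) (add (E.uu (add (var 0) (q 265 1000)) (var 1)) (E.uu (add (var 0) (q 735 1000)) (var 1))))] 40
  0x990908080
  [V.of 10000 0 2550, V.of 10000 0 560, V.of 10000 0 1045] = true := by
  decide +kernel

theorem kBp2 : chkT [(sub (add (add (E.uu (add (var 0) (q 330 1000)) (add (var 1) (var 2))) (E.uu (add (var 0) (q 670 1000)) (sub (var 1) (var 2)))) (add (q 1985 10000) (mul (q (-10507) 10000) (var 2)))) (add (E.uu (add (var 0) (q 265 1000)) (var 1)) (add (mul pi (mul (q 1 2) (var 1))) (q 38 1000)))),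
  (sub (add (add (E.uu (add (var 0) (q 410 1000)) (add (var 1) (var 2))) (E.uu (add (var 0) (q 590 1000)) (sub (var 1) (var 2)))) (add (q 2395 10000) (mul (q (-34913) 10000) (var 2)))) (add (E.uu (add (var 0) (q 265 1000)) (var 1)) (add (mul pi (mul (q 1 2) (var 1))) (q 38 1000)))),
  (sub (add (add (E.uu (add (var 0) (q 460 1000)) (add (var 1) (var 2))) (E.uu (add (var 0) (q 540 1000)) (sub (var 1) (var 2)))) (add (q 2522 10000) (mul (q (-49779) 10000) (var 2)))) (add (E.uu (add (var 0) (q 265 1000)) (var 1)) (add (mul pi (mul (q 1 2) (var 1))) (q 38 1000))))] 40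
  0x8
  [V.of 10000 2550 2750, V.of 10000 0 560, V.of 10000 0 1045] = true := by
  decide +kernel

theorem kBp3 : chkT [(sub (add (add (E.uu (add (var 0) (q 330 1000)) (add (var 1) (var 2))) (E.uu (add (var 0) (q 670 1000)) (sub (var 1) (var 2)))) (add (q 1985 10000) (mul (q (-10507) 10000) (var 2)))) (add (E.uu (add (var 0) (q 265 1000)) (var 1)) (add (E.uu (sub (var 0) (q 265 1000)) (var 1)) (mul pi (var 1))))),
  (sub (add (add (E.uu (add (var 0) (q 410 1000)) (add (var 1) (var 2))) (E.uu (add (var 0) (q 590 1000)) (sub (var 1) (var 2)))) (add (q 2395 10000) (mul (q (-34913) 10000) (var 2)))) (add (E.uu (add (var 0) (q 265 1000)) (var 1)) (add (E.uu (sub (var 0) (q 265 1000)) (var 1)) (mul pi (var 1))))),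
  (sub (add (add (E.uu (add (var 0) (q 460 1000)) (add (var 1) (var 2))) (E.uu (add (var 0) (q 540 1000)) (sub (var 1) (var 2)))) (add (q 2522 10000) (mul (q (-49779) 10000) (var 2)))) (add (E.uu (add (var 0) (q 265 1000)) (var 1)) (add (E.uu (sub (var 0) (q 265 1000)) (var 1)) (mul pi (var 1))))),
  (sub (add (add (E.uu (add (var 0) (q 265 1000)) (add (var 1) (var 2))) (add (E.uu (sub (var 0) (q 265 1000)) (sub (var 1) (var 2))) (mul pi (sub (var 2) (var 1))))) (add (q 1460 10000) (mul (q 10430 10000) (var 2)))) (add (E.uu (add (var 0) (q 265 1000)) (var 1)) (add (E.uu (sub (var 0) (q 265 1000)) (var 1)) (mul pi (var 1))))),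
  (sub (add (add (E.uu (add (var 0) (q 265 1000)) (add (var 1) (var 2))) (add (E.uu (sub (var 0) (q 265 1000)) (sub (var 1) (var 2))) (mul pi (sub (var 1) (var 2))))) (add (q 1460 10000) (mul (q 10430 10000) (var 2)))) (add (E.uu (add (var 0) (q 265 1000)) (var 1)) (add (E.uu (sub (var 0) (q 265 1000)) (var 1)) (mul pi (var 1))))),
  (sub (add (add (E.uu (add (var 0) (q 330 1000)) (add (var 1) (var 2))) (add (E.uu (sub (var 0) (q 330 1000)) (sub (var 1) (var 2))) (mul pi (sub (var 2) (var 1))))) (add (q 1985 10000) (mul (q (-10507) 10000) (var 2)))) (add (E.uu (add (var 0) (q 265 1000)) (var 1)) (add (E.uu (sub (var 0) (q 265 1000)) (var 1)) (mul pi (var 1))))),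
  (sub (add (add (E.uu (add (var 0) (q 330 1000)) (add (var 1) (var 2))) (add (E.uu (sub (var 0) (q 330 1000)) (sub (var 1) (var 2))) (mul pi (sub (var 1) (var 2))))) (add (q 1985 10000) (mul (q (-10507) 10000) (var 2)))) (add (E.uu (add (var 0) (q 265 1000)) (var 1)) (add (E.uu (sub (var 0) (q 265 1000)) (var 1)) (mul pi (var 1)))))] 40
  0xb9092988100
  [V.of 10000 2750 3800, V.of 10000 0 560, V.of 10000 0 1045] = true := by
  decide +kernel

theorem kBp4 : chkT [(sub (add (add (E.uu (add (var 0) (q 410 1000)) (add (var 1) (var 2))) (E.uu (add (var 0) (q 590 1000)) (sub (var 1) (var 2)))) (add (q 2395 10000) (mul (q (-34913) 10000) (var 2)))) (add (E.uu (add (var 0) (q 265 1000)) (var 1)) (add (E.uu (sub (var 0) (q 265 1000)) (var 1)) (mul pi (var 1))))),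
  (sub (add (add (E.uu (add (var 0) (q 460 1000)) (add (var 1) (var 2))) (E.uu (add (var 0) (q 540 1000)) (sub (var 1) (var 2)))) (add (q 2522 10000) (mul (q (-49779) 10000) (var 2)))) (add (E.uu (add (var 0) (q 265 1000)) (var 1)) (add (E.uu (sub (var 0) (q 265 1000)) (var 1)) (mul pi (var 1))))),
  (sub (add (add (E.uu (add (var 0) (q 265 1000)) (add (var 1) (var 2))) (add (E.uu (sub (var 0) (q 265 1000)) (sub (var 1) (var 2))) (mul pi (sub (var 2) (var 1))))) (add (q 1460 10000) (mul (q 10430 10000) (var 2)))) (add (E.uu (add (var 0) (q 265 1000)) (var 1)) (add (E.uu (sub (var 0) (q 265 1000)) (var 1)) (mul pi (var 1))))),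
  (sub (add (add (E.uu (add (var 0) (q 265 1000)) (add (var 1) (var 2))) (add (E.uu (sub (var 0) (q 265 1000)) (sub (var 1) (var 2))) (mul pi (sub (var 1) (var 2))))) (add (q 1460 10000) (mul (q 10430 10000) (var 2)))) (add (E.uu (add (var 0) (q 265 1000)) (var 1)) (add (E.uu (sub (var 0) (q 265 1000)) (var 1)) (mul pi (var 1))))),
  (sub (add (add (E.uu (add (var 0) (q 410 1000)) (add (var 1) (var 2))) (add (E.uu (sub (var 0) (q 410 1000)) (sub (var 1) (var 2))) (mul pi (sub (var 2) (var 1))))) (add (q 2395 10000) (mul (q (-34913) 10000) (var 2)))) (add (E.uu (add (var 0) (q 265 1000)) (var 1)) (add (E.uu (sub (var 0) (q 265 1000)) (var 1)) (mul pi (var 1))))),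
  (sub (add (add (E.uu (add (var 0) (q 410 1000)) (add (var 1) (var 2))) (add (E.uu (sub (var 0) (q 410 1000)) (sub (var 1) (var 2))) (mul pi (sub (var 1) (var 2))))) (add (q 2395 10000) (mul (q (-34913) 10000) (var 2)))) (add (E.uu (add (var 0) (q 265 1000)) (var 1)) (add (E.uu (sub (var 0) (q 265 1000)) (var 1)) (mul pi (var 1))))),
  (sub (add (add (E.uu (add (var 0) (q 460 1000)) (add (var 1) (var 2))) (add (E.uu (sub (var 0) (q 460 1000)) (sub (var 1) (var 2))) (mul pi (sub (var 2) (var 1))))) (add (q 2522 10000) (mul (q (-49779) 10000) (var 2)))) (add (E.uu (add (var 0) (q 265 1000)) (var 1)) (add (E.uu (sub (var 0) (q 265 1000)) (var 1)) (mul pi (var 1))))),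
  (sub (add (add (E.uu (add (var 0) (q 460 1000)) (add (var 1) (var 2))) (add (E.uu (sub (var 0) (q 460 1000)) (sub (var 1) (var 2))) (mul pi (sub (var 1) (var 2))))) (add (q 2522 10000) (mul (q (-49779) 10000) (var 2)))) (add (E.uu (add (var 0) (q 265 1000)) (var 1)) (add (E.uu (sub (var 0) (q 265 1000)) (var 1)) (mul pi (var 1)))))] 40
  0xab2ab20
  [V.of 10000 3800 5000, V.of 10000 0 560, V.of 10000 0 1045] = true := by
  decide +kernel

theorem kC : chkT [(add (add (sub (add (E.uu (add (var 0) (q 265 1000)) (add (var 1) (var 2))) (add (E.uu (sub (var 0) (q 265 1000)) (sub (var 1) (var 2))) (mul pi (sub (var 2) (var 1))))) (mul (q 2 1) (E.uu (var 0) (var 1)))) (add (q 1460 10000) (mul (q 10430 10000) (var 2)))) (mul pi (var 1))),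
  (sub (neg (mul (q 158 290) (sub (q 65 100) (var 0)))) (var 1))] 40
  0x88822809180
  [V.of 10000 5000 6500, V.of 10000 (-818) 0, V.of 10000 0 1045] = true := by
  decide +kernel

theorem ks1A0 : chkT [(sub (add (sub (add (E.uu (q 515 1000) (add (var 0) (var 1))) (E.uu (q 985 1000) (sub (var 0) (var 1)))) (mul (q 2 1) (E.uu (q 250 1000) (var 0)))) (sub (mul (q 21 10) (var 0)) (q 1 100))) (add (q 2592 10000) (mul (q 12800 10000) (var 1))))] 40
  0x888018800
  [V.of 10000 (-1580) (-380), V.of 10000 0 1045] = true := by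
  decide +kernel

theorem ks1B0 : chkT [(sub (add (sub (add (E.uu (q 515 1000) (add (var 0) (var 1))) (E.uu (q 985 1000) (sub (var 0) (var 1)))) (mul (q 2 1) (E.uu (q 250 1000) (var 0)))) (sub (mul (q 21 10) (var 0)) (q 14 100))) (add (q 1460 10000) (mul (q 14200 10000) (var 1))))] 40
  0x8818810888018888101008881881018881881010888080100
  [V.of 10000 (-1580) (-380), V.of 10000 0 1045] = true := by
  decide +kernel

theorem ks2A0 : chkT [(sub (add (sub (add (E.uu (q 515 1000) (add (var 0) (var 1))) (E.uu (q 985 1000) (sub (var 0) (var 1)))) (mul (q 2 1) (E.uu (q 250 1000) (var 0)))) (sub (mul (q 17 10) (var 0)) (q 6 100))) (add (q 2592 10000) (mul (q 12800 10000) (var 1))))] 40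
  0x88880118881881010888188108888011010888808018800188100
  [V.of 10000 (-1310) 40, V.of 10000 0 1045] = true := by
  decide +kernel

theorem ks3A0 : chkT [(sub (sub (sub (add (E.uu (q 515 1000) (add (var 0) (var 1))) (E.uu (q 985 1000) (sub (var 0) (var 1)))) (mul (q 2 1) (E.uu (q 250 1000) (var 0)))) (q 1 100)) (add (q 2592 10000) (mul (q 12800 10000) (var 1))))] 40
  0x881881188118818811088088110888110
  [V.of 10000 (-385) 590, V.of 10000 0 1045] = true := by
  decide +kernel

theorem ks1A1 : chkT [(sub (add (sub (add (E.uu (q 580 1000) (add (var 0) (var 1))) (E.uu (q 920 1000) (sub (var 0) (var 1)))) (mul (q 2 1) (E.uu (q 250 1000) (var 0)))) (sub (mul (q 21 10) (var 0)) (q 1 100))) (add (q 3285 10000) (mul (q 9600 10000) (var 1))))] 40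
  0x8880088801888018888011000
  [V.of 10000 (-1580) (-380), V.of 10000 0 1045] = true := by
  decide +kernel

theorem ks2A1 : chkT [(sub (add (sub (add (E.uu (q 580 1000) (add (var 0) (var 1))) (E.uu (q 920 1000) (sub (var 0) (var 1)))) (mul (q 2 1) (E.uu (q 250 1000) (var 0)))) (sub (mul (q 17 10) (var 0)) (q 6 100))) (add (q 3285 10000) (mul (q 9600 10000) (var 1))))] 40
  0x881888010881888010881881000
  [V.of 10000 (-1310) 40, V.of 10000 0 1045] = true := by
  decide +kernel

theorem ks3A1 : chkT [(sub (sub (sub (add (E.uu (q 580 1000) (add (var 0) (var 1))) (E.uu (q 920 1000) (sub (var 0) (var 1)))) (mul (q 2 1) (E.uu (q 250 1000) (var 0)))) (q 1 100)) (add (q 3285 10000) (mul (q 9600 10000) (var 1))))] 40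
  0x880
  [V.of 10000 (-385) 590, V.of 10000 0 1045] = true := by
  decide +kernel

theorem ks1A2 : chkT [(sub (add (sub (add (E.uu (q 660 1000) (add (var 0) (var 1))) (E.uu (q 840 1000) (sub (var 0) (var 1)))) (mul (q 2 1) (E.uu (q 250 1000) (var 0)))) (sub (mul (q 21 10) (var 0)) (q 1 100))) (add (q 3695 10000) (mul (q 5300 10000) (var 1))))] 40
  0x888188188188811881881888101100000
  [V.of 10000 (-1580) (-380), V.of 10000 0 1045] = true := by
  decide +kernel

theorem ks2A2 : chkT [(sub (add (sub (add (E.uu (q 660 1000) (add (var 0) (var 1))) (E.uu (q 840 1000) (sub (var 0) (var 1)))) (mul (q 2 1) (E.uu (q 250 1000) (var 0)))) (sub (mul (q 17 10) (var 0)) (q 6 100))) (add (q 3695 10000) (mul (q 5300 10000) (var 1))))] 40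
  0x880888100
  [V.of 10000 (-1310) 40, V.of 10000 0 1045] = true := by
  decide +kernel

theorem ks3A2 : chkT [(sub (sub (sub (add (E.uu (q 660 1000) (add (var 0) (var 1))) (E.uu (q 840 1000) (sub (var 0) (var 1)))) (mul (q 2 1) (E.uu (q 250 1000) (var 0)))) (q 1 100)) (add (q 3695 10000) (mul (q 5300 10000) (var 1))))] 40
  0x8
  [V.of 10000 (-385) 590, V.of 10000 0 1045] = true := by
  decide +kernel

theorem ks1A3 : chkT [(sub (add (sub (add (E.uu (q 710 1000) (add (var 0) (var 1))) (E.uu (q 790 1000) (sub (var 0) (var 1)))) (mul (q 2 1) (E.uu (q 250 1000) (var 0)))) (sub (mul (q 21 10) (var 0)) (q 1 100))) (add (q 3822 10000) (mul (q 3000 10000) (var 1))))] 40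
  0x888088188188188188811881811010000
  [V.of 10000 (-1580) (-380), V.of 10000 0 1045] = true := by
  decide +kernel

theorem ks2A3 : chkT [(sub (add (sub (add (E.uu (q 710 1000) (add (var 0) (var 1))) (E.uu (q 790 1000) (sub (var 0) (var 1)))) (mul (q 2 1) (E.uu (q 250 1000) (var 0)))) (sub (mul (q 17 10) (var 0)) (q 6 100))) (add (q 3822 10000) (mul (q 3000 10000) (var 1))))] 40
  0x8888000
  [V.of 10000 (-1310) 40, V.of 10000 0 1045] = true := by
  decide +kernel

theorem ks3A3 : chkT [(sub (sub (sub (add (E.uu (q 710 1000) (add (var 0) (var 1))) (E.uu (q 790 1000) (sub (var 0) (var 1)))) (mul (q 2 1) (E.uu (q 250 1000) (var 0)))) (q 1 100)) (add (q 3822 10000) (mul (q 3000 10000) (var 1))))] 40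
  0x8
  [V.of 10000 (-385) 590, V.of 10000 0 1045] = true := by
  decide +kernel

theorem ks2B0 : chkT [(sub (add (sub (add (E.uu (q 515 1000) (add (var 0) (var 1))) (E.uu (q 985 1000) (sub (var 0) (var 1)))) (mul (q 2 1) (E.uu (q 250 1000) (var 0)))) (sub (mul (q 17 10) (var 0)) (q 6 100))) (add (q 1460 10000) (mul (q 14200 10000) (var 1))))] 40
  0x8880180
  [V.of 10000 (-1310) 40, V.of 10000 0 1045] = true := by
  decide +kernel

theorem ks3B0 : chkT [(sub (sub (sub (add (E.uu (q 515 1000) (add (var 0) (var 1))) (E.uu (q 985 1000) (sub (var 0) (var 1)))) (mul (q 2 1) (E.uu (q 250 1000) (var 0)))) (q 1 100)) (add (q 1460 10000) (mul (q 14200 10000) (var 1))))] 40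
  0x88188108810
  [V.of 10000 (-385) 590, V.of 10000 0 1045] = true := by
  decide +kernel

theorem knb : chkT [(sub (add (sub (add (E.uu (q 530 1000) (add (var 0) (var 1))) (E.uu (q 870 1000) (sub (var 0) (var 1)))) (mul (q 2 1) (E.uu (q 200 1000) (var 0)))) (mul (q 236 100) (var 0))) (add (q 2975 10000) (mul (q 8300 10000) (var 1))))] 40
  0x8808888188881010000
  [V.of 10000 (-1580) 40, V.of 10000 0 1045] = true := by
  decide +kernel

theorem kh1 : chk [(sub (mul (q 2 1) (E.uu (var 0) (q 0 1))) (add (q 13 100) (add (E.uu (sub (var 0) (q 265 1000)) (q 0 1)) (E.uu (add (var 0) (q 265 1000)) (q 0 1)))))] 40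
  [V.of 10000 6500 7250] = true := by
  decide +kernel

theorem kh2 : chk [(sub (mul (q 2 1) (E.uu (var 0) (q 0 1))) (add (q 13 100) (add (E.uu (sub (var 0) (q 265 1000)) (q 0 1)) (q 38 1000))))] 40
  [V.of 10000 7250 7450] = true := by
  decide +kernel

theorem kh3 : chk [(sub (mul (q 2 1) (E.uu (var 0) (q 0 1))) (add (q 13 100) (add (E.uu (sub (var 0) (q 265 1000)) (q 0 1)) (E.uu (sub (var 0) (q 735 1000)) (q 0 1)))))] 40
  [V.of 10000 7450 9500] = true := by
  decide +kernel

theorem kf1 : chk [(add (sub (q 584 1000) (mul (q 2 1) (E.uu (add (var 0) (q 1 2)) (q 0 1)))) (mul (q 2 1) (neg (q 38 1000))))] 40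
  [V.of 10000 0 100] = true := by
  decide +kernel

theorem kf2 : chk [(add (sub (q 584 1000) (mul (q 2 1) (E.uu (add (var 0) (q 1 2)) (q 0 1)))) (mul (q 2 1) (E.uu (var 0) (q 0 1))))] 40
  [V.of 10000 100 4900] = true := by
  decide +kernel

theorem kf3 : chk [(add (sub (q 584 1000) (mul (q 2 1) (q 38 1000))) (mul (q 2 1) (E.uu (var 0) (q 0 1))))] 40
  [V.of 10000 4900 5000] = true := by
  decide +kernel

theorem kg1 : chk [(add (sub (q 43 100) (add (E.uu (add (var 0) (q 265 1000)) (q 0 1)) (E.uu (add (var 0) (q 735 1000)) (q 0 1)))) (mul (q 2 1) (neg (q 38 1000))))] 40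
  [V.of 10000 0 100] = true := by
  decide +kernel

theorem kg2 : chk [(add (sub (q 43 100) (add (E.uu (add (var 0) (q 265 1000)) (q 0 1)) (E.uu (add (var 0) (q 735 1000)) (q 0 1)))) (mul (q 2 1) (E.uu (var 0) (q 0 1))))] 40
  [V.of 10000 100 2550] = true := by
  decide +kernel

theorem kg3 : chk [(add (sub (q 43 100) (add (E.uu (add (var 0) (q 265 1000)) (q 0 1)) (q 38 1000))) (mul (q 2 1) (E.uu (var 0) (q 0 1))))] 40
  [V.of 10000 2550 2750] = true := by
  decide +kernel

theorem kg4 : chk [(add (sub (q 43 100) (add (E.uu (add (var 0) (q 265 1000)) (q 0 1)) (E.uu (sub (var 0) (q 265 1000)) (q 0 1)))) (mul (q 2 1) (E.uu (var 0) (q 0 1))))] 40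
  [V.of 10000 2750 5000] = true := by
  decide +kernel

end

end TL.K5

end Pool.Agent.Work.MP_b30479_gt.G2
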