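import Pool.Agent.Work.MP_b30479_gt.G2.TK1t
import Pool.Agent.Work.MP_b30479_gt.G2.TK2
import Pool.Agent.Work.MP_b30479_gt.G2.TDef3
import Pool.Agent.Work.NumU.ChkS

/-!
# Tails: the sides of a touched digit `1` or `2` next to an untouched digit `1`, `w ≤ 1/20`

The slack is at least `1/100`.
-/

namespace Pool.Agent.Work.MP_b30479_gt.G2

open VOL SR NumU

namespace TL

open NumI (V) in
theorem k6n_one_a : chk [nE1 42 18 245 31416 1850, s0E (-850), s1E 600] 30
    [V.of 10000 (-800) 560 0, V.of 10000 (-800) 560 0] = true := by decide +kernel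

theorem k6o_one_a : oldOK1 8000 (-110) 0 1250 1 0 500 50 = true := by decide +kernel

open NumI (V) in
theorem k6n_one_b : chk [nE1 42 18 245 16420 2750, s0E (-850), s1E 600] 30
    [V.of 10000 (-800) 560 0, V.of 10000 (-800) 560 0] = true := by decide +kernel

theorem k6o_one_b : oldOK1 8000 (-326) 779 2150 2 0 500 50 = true := by decide +kernel

open NumI (V) in
theorem k6n_two_a : chk [nE1 28 18 215 31416 1700, s0E (-490), s1E 950] 30
    [V.of 10000 (-180) 790 0, V.of 10000 (-800) 540 0] = true := by decide +kernel

theorem k6o_two_a : oldOK1 8000 (-110) 0 1300 1 0 500 50 = true := by decide +kernel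

open NumI (V) in
theorem k6n_two_b : chk [nE1 28 18 215 16420 2100, s0E (-490), s1E 950] 30
    [V.of 10000 (-180) 790 0, V.of 10000 (-800) 540 0] = true := by decide +kernel

theorem k6o_two_b : oldOK1 8000 (-326) 779 2200 2 0 500 50 = true := by decide +kernel

open NumI (V) in
theorem k6n_twoE_a : chk [nE1 28 18 235 31416 2300, s0E (-560), s1E 370] 30
    [V.of 10000 (-660) (-160) 0, V.of 10000 (-330) 800 0] = true := by decide +kernel

theorem k6o_twoE_a : oldOK1 7000 (-110) 0 1500 1 0 500 50 = true := by decide +kernel

open NumI (V) in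
theorem k6n_twoE_b : chk [nE1 28 18 235 16420 2300, s0E (-560), s1E 370] 30
    [V.of 10000 (-660) (-160) 0, V.of 10000 (-330) 800 0] = true := by decide +kernel

theorem k6o_twoE_b : oldOK1 7000 (-326) 779 2400 2 0 500 50 = true := by decide +kernel

open NumI (V) in
theorem k6n_three_a : chk [nE1 28 18 190 31416 1500, s0E (-220), s1E 1110] 30
    [V.of 10000 210 920 0, V.of 10000 (-800) 490 0] = true := by decide +kernel

theorem k6o_three_a : oldOK1 6500 (-110) 0 1550 1 0 500 50 = true := by decide +kernel

open NumI (V) in
theorem k6n_three_b : chk [nE1 28 18 190 16420 1950, s0E (-220), s1E 1110] 30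
    [V.of 10000 210 920 0, V.of 10000 (-800) 490 0] = true := by decide +kernel

theorem k6o_three_b : oldOK1 6500 (-326) 779 2450 2 0 500 50 = true := by decide +kernel

open NumI (V) in
theorem k6n_threeE_a : chk [nE1 28 18 205 31416 1850, s0E (-110), s1E 1010] 30
    [V.of 10000 100 580 0, V.of 10000 (-610) 650 0] = true := by decide +kernel

theorem k6o_threeE_a : oldOK1 6000 (-110) 0 1600 1 0 500 50 = true := by decide +kernel

open NumI (V) in
theorem k6n_threeE_b : chk [nE1 28 18 205 16420 2100, s0E (-110), s1E 1010] 30
    [V.of 10000 100 580 0, V.of 10000 (-610) 650 0] = true := by decide +kernel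

theorem k6o_threeE_b : oldOK1 6000 (-326) 779 2500 2 0 500 50 = true := by decide +kernel

open NumI (V) in
theorem k6n_ring_a : chk [nE1 25 18 210 31416 1600, s0E (-100), s1E 1430] 30
    [V.of 10000 380 1360 0, V.of 10000 (-800) 510 0] = true := by decide +kernel

theorem k6o_ring_a : oldOK1 6500 (-110) 0 1550 1 0 500 50 = true := by decide +kernel

open NumI (V) in
theorem k6n_ring_b : chk [nE1 25 18 210 16420 1850, s0E (-100), s1E 1430] 30
    [V.of 10000 380 1360 0, V.of 10000 (-800) 510 0] = true := by decide +kernel

theorem k6o_ring_b : oldOK1 6500 (-326) 779 2450 2 0 500 50 = true := by decide +kernel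

open NumI (V) in
theorem k6n_ringR_a : chk [nE1 25 18 170 31416 1150, s0E (-100), s1E 1430] 30
    [V.of 10000 380 1360 0, V.of 10000 (-800) 510 0] = true := by decide +kernel

theorem k6o_ringR_a : oldOK1 9500 (-110) 0 500 1 0 500 20 = true := by decide +kernel

theorem k6n_ringR_b_h1_q1 : chk [nE1 25 18 170 16420 1525, s0E (-100), s1E 1430] 29
    (NumI.setL 1 [NumI.V.of 10000 380 1360 0, NumI.V.of 10000 (-800) 510 0]) = true := by
  decide +kernel

theorem k6n_ringR_b_h1_q2 : chk [nE1 25 18 170 16420 1525, s0E (-100), s1E 1430] 28
    (NumI.setL 0 (NumI.setR 1 [NumI.V.of 10000 380 1360 0, NumI.V.of 10000 (-800) 510 0])) = true := by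
  decide +kernel

theorem k6n_ringR_b_h1_q3 : chk [nE1 25 18 170 16420 1525, s0E (-100), s1E 1430] 27
    (NumI.setL 1 (NumI.setR 0 (NumI.setR 1 [NumI.V.of 10000 380 1360 0, NumI.V.of 10000 (-800) 510 0]))) = true := by
  decide +kernel

theorem k6n_ringR_b_h1_q4 : chk [nE1 25 18 170 16420 1525, s0E (-100), s1E 1430] 25
    (NumI.setL 1 (NumI.setL 0 (NumI.setR 1 (NumI.setR 0 (NumI.setR 1 [NumI.V.of 10000 380 1360 0, NumI.V.of 10000 (-800) 510 0]))))) = true := by
  decide +kernel

theorem k6n_ringR_b_h1_q5 : chk [nE1 25 18 170 16420 1525, s0E (-100), s1E 1430] 24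
    (NumI.setL 0 (NumI.setR 1 (NumI.setL 0 (NumI.setR 1 (NumI.setR 0 (NumI.setR 1 [NumI.V.of 10000 380 1360 0, NumI.V.of 10000 (-800) 510 0])))))) = true := by
  decide +kernel

theorem k6n_ringR_b_h1_q6 : chk [nE1 25 18 170 16420 1525, s0E (-100), s1E 1430] 23
    (NumI.setL 1 (NumI.setR 0 (NumI.setR 1 (NumI.setL 0 (NumI.setR 1 (NumI.setR 0 (NumI.setR 1 [NumI.V.of 10000 380 1360 0, NumI.V.of 10000 (-800) 510 0]))))))) = true := by
  decide +kernel

theorem k6n_ringR_b_h1_q7 : chk [nE1 25 18 170 16420 1525, s0E (-100), s1E 1430] 23
    (NumI.setR 1 (NumI.setR 0 (NumI.setR 1 (NumI.setL 0 (NumI.setR 1 (NumI.setR 0 (NumI.setR 1 [NumI.V.of 10000 380 1360 0, NumI.V.of 10000 (-800) 510 0]))))))) = true := by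
  decide +kernel

theorem k6n_ringR_b_h1_q8 : chk [nE1 25 18 170 16420 1525, s0E (-100), s1E 1430] 23
    (NumI.setL 1 (NumI.setL 0 (NumI.setL 1 (NumI.setR 0 (NumI.setR 1 (NumI.setR 0 (NumI.setR 1 [NumI.V.of 10000 380 1360 0, NumI.V.of 10000 (-800) 510 0]))))))) = true := by
  decide +kernel

theorem k6n_ringR_b_h1_q9 : chk [nE1 25 18 170 16420 1525, s0E (-100), s1E 1430] 23
    (NumI.setR 1 (NumI.setL 0 (NumI.setL 1 (NumI.setR 0 (NumI.setR 1 (NumI.setR 0 (NumI.setR 1 [NumI.V.of 10000 380 1360 0, NumI.V.of 10000 (-800) 510 0]))))))) = true := by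
  decide +kernel

theorem k6n_ringR_b_h1_q10 : chk [nE1 25 18 170 16420 1525, s0E (-100), s1E 1430] 24
    (NumI.setR 0 (NumI.setL 1 (NumI.setR 0 (NumI.setR 1 (NumI.setR 0 (NumI.setR 1 [NumI.V.of 10000 380 1360 0, NumI.V.of 10000 (-800) 510 0])))))) = true := by
  decide +kernel

theorem k6n_ringR_b_h1_q11 : chk [nE1 25 18 170 16420 1525, s0E (-100), s1E 1430] 25
    (NumI.setR 1 (NumI.setR 0 (NumI.setR 1 (NumI.setR 0 (NumI.setR 1 [NumI.V.of 10000 380 1360 0, NumI.V.of 10000 (-800) 510 0]))))) = true := by
  decide +kernel

open NumI (V) in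
theorem k6n_ringR_b : chk [nE1 25 18 170 16420 1525, s0E (-100), s1E 1430] 30
    [V.of 10000 380 1360 0, V.of 10000 (-800) 510 0] = true :=
  NumU.chk_node (i := 1) (by decide +kernel)
    k6n_ringR_b_h1_q1
    (NumU.chk_node (i := 0) (by decide +kernel)
      k6n_ringR_b_h1_q2
      (NumU.chk_node (i := 1) (by decide +kernel)
        k6n_ringR_b_h1_q3
        (NumU.chk_node (i := 0) (by decide +kernel)
          (NumU.chk_node (i := 1) (by decide +kernel)
            k6n_ringR_b_h1_q4
            (NumU.chk_node (i := 0) (by decide +kernel)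
              k6n_ringR_b_h1_q5
              (NumU.chk_node (i := 1) (by decide +kernel)
                k6n_ringR_b_h1_q6
                k6n_ringR_b_h1_q7)))
          (NumU.chk_node (i := 1) (by decide +kernel)
            (NumU.chk_node (i := 0) (by decide +kernel)
              (NumU.chk_node (i := 1) (by decide +kernel)
                k6n_ringR_b_h1_q8
                k6n_ringR_b_h1_q9)
              k6n_ringR_b_h1_q10)
            k6n_ringR_b_h1_q11))))

theorem k6o_ringR_b : oldOK1 9500 (-326) 779 1254 2 0 500 20 = true := by decide +kernel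

open NumI (V) in
theorem k7n_one_a : chk [nE 28 18 215 31416 3850] 30
    [V.of 10000 (-985) 180 0, V.of 10000 (-985) 180 0] = true := by decide +kernel

theorem k7o_one_a : oldOK 8000 (-300) 0 1450 2 0 500 200 = true := by decide +kernel

open NumI (V) in
theorem k7n_one_b : chk [nE 28 18 215 12860 5370] 30
    [V.of 10000 (-985) 180 0, V.of 10000 (-985) 180 0] = true := by decide +kernel

theorem k7o_one_b : oldOK 8000 (-2039) 1306 3650 3 0 500 200 = true := by decide +kernel

open NumI (V) in
theorem k7n_oth_a : chk [nE 25 18 170 31416 4000] 30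
    [V.of 10000 (-850) 960 0, V.of 10000 (-985) 180 0] = true := by decide +kernel

theorem k7o_oth_a : oldOK 6000 (-300) 0 2150 2 0 500 200 = true := by decide +kernel

open NumI (V) in
theorem k7n_oth_b : chk [nE 25 18 170 12860 5450] 30
    [V.of 10000 (-850) 960 0, V.of 10000 (-985) 180 0] = true := by decide +kernel

theorem k7o_oth_b : oldOK 6000 (-2039) 1306 4350 3 0 500 200 = true := by decide +kernel

theorem side_one5 {B : Cl} {x w t k G : ℝ} (hx : X0 .one B ≤ x) (hx5 : B = .ring → x < 95 / 100)
    (hw : 0 ≤ w) (hw5 : w ≤ 1 / 20) (hxw : x + w ≤ 1)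
    (t0 : (cw .one B).t0 ≤ t) (t1 : t ≤ (cw .one B).t1)
    (s0 : (cw .one B).s0 ≤ t + k) (s1 : t + k ≤ (cw .one B).s1)
    (k0 : (cw B .one).t0 ≤ k) (k1 : k ≤ (cw B .one).t1)
    (hB : B = .one → -(2 / 25) ≤ t) (hCo : -(2 / 25) ≤ k) (hE : EB .one .one w (-k) G) :
    al .one B .one x + 1 / 100 ≤
      V1 ⟨cT .one B, t⟩ ⟨9 / 50, k⟩ - V1 ⟨x, 0⟩ ⟨w, 0⟩ + G + be .one B * t := by
  have hE := hE.1 (by linarith only [hw5])
  cases B with
  | one =>
    simp only [cw, X0] at t0 t1 s0 s1 k0 k1 hx
    simp only [cT, be, al]
    have hB := hB rfl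
    rcases hE with hE | hE
    · have := (k1_gen (A := ((1850 : ℝ) - 1250) / 10000) (C := 42 / 100) (C' := 9 / 50) (Be := 245 / 100) (x := x) (w := w) (t := t) (k := k) (G := G) k6n_one_a k6o_one_a
        (by norm_num) (by norm_num) (by norm_num)
        (by norm_num) (by norm_num) (by norm_num) (by norm_num) (by norm_num)
        (by norm_num; linarith only [hx]) hw (by norm_num; linarith only [hw]) (by norm_num; linarith only [hw5]) hxw
        (by norm_num; linarith only [hB]) (by norm_num; linarith only [t1]) (by norm_num; linarith only [hCo])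
        (by norm_num; linarith only [k1]) (by norm_num; linarith only [s0]) (by norm_num; linarith only [s1])
        (by norm_num; linarith only [hE]))
      norm_num at this ⊢
      linarith only [this]
    · have := (k1_gen (A := ((2750 : ℝ) - 2150) / 10000) (C := 42 / 100) (C' := 9 / 50) (Be := 245 / 100) (x := x) (w := w) (t := t) (k := k) (G := G) k6n_one_b k6o_one_b
        (by norm_num) (by norm_num) (by norm_num)
        (by norm_num) (by norm_num) (by norm_num) (by norm_num) (by norm_num)
        (by norm_num; linarith only [hx]) hw (by norm_num; linarith only [hw]) (by norm_num; linarith only [hw5]) hxw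
        (by norm_num; linarith only [hB]) (by norm_num; linarith only [t1]) (by norm_num; linarith only [hCo])
        (by norm_num; linarith only [k1]) (by norm_num; linarith only [s0]) (by norm_num; linarith only [s1])
        (by norm_num; linarith only [hE]))
      norm_num at this ⊢
      linarith only [this]
  | two =>
    simp only [cw, X0] at t0 t1 s0 s1 k0 k1 hx
    simp only [cT, be, al]
    rcases hE with hE | hE
    · have := (k1_gen (A := ((1700 : ℝ) - 1300) / 10000) (C := 28 / 100) (C' := 9 / 50) (Be := 215 / 100) (x := x) (w := w) (t := t) (k := k) (G := G) k6n_two_a k6o_two_a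
        (by norm_num) (by norm_num) (by norm_num)
        (by norm_num) (by norm_num) (by norm_num) (by norm_num) (by norm_num)
        (by norm_num; linarith only [hx]) hw (by norm_num; linarith only [hw]) (by norm_num; linarith only [hw5]) hxw
        (by norm_num; linarith only [t0]) (by norm_num; linarith only [t1]) (by norm_num; linarith only [hCo])
        (by norm_num; linarith only [k1]) (by norm_num; linarith only [s0]) (by norm_num; linarith only [s1])
        (by norm_num; linarith only [hE]))
      linarith only [this]
    · have := (k1_gen (A := ((2100 : ℝ) - 2200) / 10000) (C := 28 / 100) (C' := 9 / 50) (Be := 215 / 100) (x := x) (w := w) (t := t) (k := k) (G := G) k6n_two_b k6o_two_b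
        (by norm_num) (by norm_num) (by norm_num)
        (by norm_num) (by norm_num) (by norm_num) (by norm_num) (by norm_num)
        (by norm_num; linarith only [hx]) hw (by norm_num; linarith only [hw]) (by norm_num; linarith only [hw5]) hxw
        (by norm_num; linarith only [t0]) (by norm_num; linarith only [t1]) (by norm_num; linarith only [hCo])
        (by norm_num; linarith only [k1]) (by norm_num; linarith only [s0]) (by norm_num; linarith only [s1])
        (by norm_num; linarith only [hE]))
      linarith only [this]
  | twoE =>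
    simp only [cw, X0] at t0 t1 s0 s1 k0 k1 hx
    simp only [cT, be, al]
    rcases hE with hE | hE
    · have := (k1_gen (A := ((2300 : ℝ) - 1500) / 10000) (C := 28 / 100) (C' := 9 / 50) (Be := 235 / 100) (x := x) (w := w) (t := t) (k := k) (G := G) k6n_twoE_a k6o_twoE_a
        (by norm_num) (by norm_num) (by norm_num)
        (by norm_num) (by norm_num) (by norm_num) (by norm_num) (by norm_num)
        (by norm_num; linarith only [hx]) hw (by norm_num; linarith only [hw]) (by norm_num; linarith only [hw5]) hxw
        (by norm_num; linarith only [t0]) (by norm_num; linarith only [t1]) (by norm_num; linarith only [k0])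
        (by norm_num; linarith only [k1]) (by norm_num; linarith only [s0]) (by norm_num; linarith only [s1])
        (by norm_num; linarith only [hE]))
      split_ifs <;> linarith only [this]
    · have := (k1_gen (A := ((2300 : ℝ) - 2400) / 10000) (C := 28 / 100) (C' := 9 / 50) (Be := 235 / 100) (x := x) (w := w) (t := t) (k := k) (G := G) k6n_twoE_b k6o_twoE_b
        (by norm_num) (by norm_num) (by norm_num)
        (by norm_num) (by norm_num) (by norm_num) (by norm_num) (by norm_num)
        (by norm_num; linarith only [hx]) hw (by norm_num; linarith only [hw]) (by norm_num; linarith only [hw5]) hxw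
        (by norm_num; linarith only [t0]) (by norm_num; linarith only [t1]) (by norm_num; linarith only [k0])
        (by norm_num; linarith only [k1]) (by norm_num; linarith only [s0]) (by norm_num; linarith only [s1])
        (by norm_num; linarith only [hE]))
      split_ifs <;> linarith only [this]
  | three =>
    simp only [cw, X0] at t0 t1 s0 s1 k0 k1 hx
    simp only [cT, be, al]
    rcases hE with hE | hE
    · have := (k1_gen (A := ((1500 : ℝ) - 1550) / 10000) (C := 28 / 100) (C' := 9 / 50) (Be := 19 / 10) (x := x) (w := w) (t := t) (k := k) (G := G) k6n_three_a k6o_three_a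
        (by norm_num) (by norm_num) (by norm_num)
        (by norm_num) (by norm_num) (by norm_num) (by norm_num) (by norm_num)
        (by norm_num; linarith only [hx]) hw (by norm_num; linarith only [hw]) (by norm_num; linarith only [hw5]) hxw
        (by norm_num; linarith only [t0]) (by norm_num; linarith only [t1]) (by norm_num; linarith only [hCo])
        (by norm_num; linarith only [k1]) (by norm_num; linarith only [s0]) (by norm_num; linarith only [s1])
        (by norm_num; linarith only [hE]))
      linarith only [this]
    · have := (k1_gen (A := ((1950 : ℝ) - 2450) / 10000) (C := 28 / 100) (C' := 9 / 50) (Be := 19 / 10) (x := x) (w := w) (t := t) (k := k) (G := G) k6n_three_b k6o_three_b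
        (by norm_num) (by norm_num) (by norm_num)
        (by norm_num) (by norm_num) (by norm_num) (by norm_num) (by norm_num)
        (by norm_num; linarith only [hx]) hw (by norm_num; linarith only [hw]) (by norm_num; linarith only [hw5]) hxw
        (by norm_num; linarith only [t0]) (by norm_num; linarith only [t1]) (by norm_num; linarith only [hCo])
        (by norm_num; linarith only [k1]) (by norm_num; linarith only [s0]) (by norm_num; linarith only [s1])
        (by norm_num; linarith only [hE]))
      linarith only [this]
  | threeE =>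
    simp only [cw, X0] at t0 t1 s0 s1 k0 k1 hx
    simp only [cT, be, al]
    rcases hE with hE | hE
    · have := (k1_gen (A := ((1850 : ℝ) - 1600) / 10000) (C := 28 / 100) (C' := 9 / 50) (Be := 205 / 100) (x := x) (w := w) (t := t) (k := k) (G := G) k6n_threeE_a k6o_threeE_a
        (by norm_num) (by norm_num) (by norm_num)
        (by norm_num) (by norm_num) (by norm_num) (by norm_num) (by norm_num)
        (by norm_num; linarith only [hx]) hw (by norm_num; linarith only [hw]) (by norm_num; linarith only [hw5]) hxw
        (by norm_num; linarith only [t0]) (by norm_num; linarith only [t1]) (by norm_num; linarith only [k0])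
        (by norm_num; linarith only [k1]) (by norm_num; linarith only [s0]) (by norm_num; linarith only [s1])
        (by norm_num; linarith only [hE]))
      linarith only [this]
    · have := (k1_gen (A := ((2100 : ℝ) - 2500) / 10000) (C := 28 / 100) (C' := 9 / 50) (Be := 205 / 100) (x := x) (w := w) (t := t) (k := k) (G := G) k6n_threeE_b k6o_threeE_b
        (by norm_num) (by norm_num) (by norm_num)
        (by norm_num) (by norm_num) (by norm_num) (by norm_num) (by norm_num)
        (by norm_num; linarith only [hx]) hw (by norm_num; linarith only [hw]) (by norm_num; linarith only [hw5]) hxw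
        (by norm_num; linarith only [t0]) (by norm_num; linarith only [t1]) (by norm_num; linarith only [k0])
        (by norm_num; linarith only [k1]) (by norm_num; linarith only [s0]) (by norm_num; linarith only [s1])
        (by norm_num; linarith only [hE]))
      linarith only [this]
  | ring =>
    simp only [cw, X0] at t0 t1 s0 s1 k0 k1 hx
    simp only [cT, be, al]
    have hx5 := hx5 rfl
    rw [if_neg (not_le.2 hx5)]
    rcases hE with hE | hE
    · have := (k1_gen (A := ((1600 : ℝ) - 1550) / 10000) (C := 1 / 4) (C' := 9 / 50) (Be := 21 / 10) (x := x) (w := w) (t := t) (k := k) (G := G) k6n_ring_a k6o_ring_a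
        (by norm_num) (by norm_num) (by norm_num)
        (by norm_num) (by norm_num) (by norm_num) (by norm_num) (by norm_num)
        (by norm_num; linarith only [hx]) hw (by norm_num; linarith only [hw]) (by norm_num; linarith only [hw5]) hxw
        (by norm_num; linarith only [t0]) (by norm_num; linarith only [t1]) (by norm_num; linarith only [hCo])
        (by norm_num; linarith only [k1]) (by norm_num; linarith only [s0]) (by norm_num; linarith only [s1])
        (by norm_num; linarith only [hE]))
      linarith only [this]
    · have := (k1_gen (A := ((1850 : ℝ) - 2450) / 10000) (C := 1 / 4) (C' := 9 / 50) (Be := 21 / 10) (x := x) (w := w) (t := t) (k := k) (G := G) k6n_ring_b k6o_ring_b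
        (by norm_num) (by norm_num) (by norm_num)
        (by norm_num) (by norm_num) (by norm_num) (by norm_num) (by norm_num)
        (by norm_num; linarith only [hx]) hw (by norm_num; linarith only [hw]) (by norm_num; linarith only [hw5]) hxw
        (by norm_num; linarith only [t0]) (by norm_num; linarith only [t1]) (by norm_num; linarith only [hCo])
        (by norm_num; linarith only [k1]) (by norm_num; linarith only [s0]) (by norm_num; linarith only [s1])
        (by norm_num; linarith only [hE]))
      linarith only [this]

/-- next to a ring, `x ≥ 95/100` -/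
theorem side_one_ring5 {x w t k G : ℝ} (hx : 95 / 100 ≤ x) (hw : 0 ≤ w) (hw5 : w ≤ 1 / 20)
    (hxw : x + w ≤ 1)
    (t0 : (cw .one .ring).t0 ≤ t) (t1 : t ≤ (cw .one .ring).t1)
    (s0 : (cw .one .ring).s0 ≤ t + k) (s1 : t + k ≤ (cw .one .ring).s1)
    (k0 : (cw .ring .one).t0 ≤ k) (k1 : k ≤ (cw .ring .one).t1)
    (hCo : -(2 / 25) ≤ k) (hE : EB .one .one w (-k) G) :
    gD .one x t + 1 / 100 ≤ V1 ⟨1 / 4, t⟩ ⟨9 / 50, k⟩ - V1 ⟨x, 0⟩ ⟨w, 0⟩ + G := by
  have hE := hE.1 (by linarith only [hw5])
  simp only [cw] at t0 t1 s0 s1 k0 k1
  simp only [gD]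
  rw [if_pos hx]
  rcases hE with hE | hE
  · have := (k1_gen (A := ((1150 : ℝ) - 500) / 10000) (C := 1 / 4) (C' := 9 / 50) (Be := 17 / 10) (x := x) (w := w) (t := t) (k := k) (G := G) k6n_ringR_a k6o_ringR_a
      (by norm_num) (by norm_num) (by norm_num)
      (by norm_num) (by norm_num) (by norm_num) (by norm_num) (by norm_num)
      (by norm_num; linarith only [hx]) hw (by norm_num; linarith only [hw]) (by norm_num; linarith only [hw5]) hxw
      (by norm_num; linarith only [t0]) (by norm_num; linarith only [t1]) (by norm_num; linarith only [hCo])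
      (by norm_num; linarith only [k1]) (by norm_num; linarith only [s0]) (by norm_num; linarith only [s1])
      (by norm_num; linarith only [hE]))
    linarith only [this]
  · have := (k1_gen (A := ((1525 : ℝ) - 1254) / 10000) (C := 1 / 4) (C' := 9 / 50) (Be := 17 / 10) (x := x) (w := w) (t := t) (k := k) (G := G) k6n_ringR_b k6o_ringR_b
      (by norm_num) (by norm_num) (by norm_num)
      (by norm_num) (by norm_num) (by norm_num) (by norm_num) (by norm_num)
      (by norm_num; linarith only [hx]) hw (by norm_num; linarith only [hw]) (by norm_num; linarith only [hw5]) hxw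
      (by norm_num; linarith only [t0]) (by norm_num; linarith only [t1]) (by norm_num; linarith only [hCo])
      (by norm_num; linarith only [k1]) (by norm_num; linarith only [s0]) (by norm_num; linarith only [s1])
      (by norm_num; linarith only [hE]))
    linarith only [this]

theorem side_two5 {B : Cl} {x w t k G : ℝ} (hx : X0 .two B ≤ x) (hw : 0 ≤ w) (hw5 : w ≤ 1 / 20)
    (hxw : x + w ≤ 1) (t0 : (hbox .two B false).t0 ≤ t) (t1 : t ≤ (hbox .two B false).t1)
    (k0 : (hbox .two .one false).t0 ≤ k) (k1 : k ≤ (hbox .two .one false).t1)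
    (hE : EB .two .one w (-k) G) :
    al .two B .one x + 1 / 100 ≤
      V2 ⟨cT .two B, t⟩ ⟨9 / 50, k⟩ - V2 ⟨x, 0⟩ ⟨w, 0⟩ + G + be .two B * t := by
  have hE := hE.1 (by linarith only [hw5])
  simp only [hbox] at k0 k1
  by_cases hB : B = .one
  · subst hB
    simp only [hbox, X0] at t0 t1 hx
    simp only [cT, be, al]
    rcases hE with hE | hE
    · have := (k2_gen (A := ((3850 : ℝ) - 1450) / 10000) (C := 28 / 100) (C' := 9 / 50) (Be := 215 / 100) (x := x) (w := w) (t := t) (k := k) (G := G) k7n_one_a k7o_one_a
        (by norm_num) (by norm_num) (by norm_num) (by norm_num)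
        (by norm_num) (by norm_num) (by norm_num; linarith only [hx]) hw (by norm_num; linarith only [hw])
        (by norm_num; linarith only [hw5]) hxw (by norm_num; linarith only [t0]) (by norm_num; linarith only [t1])
        (by norm_num; linarith only [k0]) (by norm_num; linarith only [k1]) (by norm_num; linarith only [hE]))
      linarith only [this]
    · have := (k2_gen (A := ((5370 : ℝ) - 3650) / 10000) (C := 28 / 100) (C' := 9 / 50) (Be := 215 / 100) (x := x) (w := w) (t := t) (k := k) (G := G) k7n_one_b k7o_one_b
        (by norm_num) (by norm_num) (by norm_num) (by norm_num)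
        (by norm_num) (by norm_num) (by norm_num; linarith only [hx]) hw (by norm_num; linarith only [hw])
        (by norm_num; linarith only [hw5]) hxw (by norm_num; linarith only [t0]) (by norm_num; linarith only [t1])
        (by norm_num; linarith only [k0]) (by norm_num; linarith only [k1]) (by norm_num; linarith only [hE]))
      linarith only [this]
  · rw [k2_al hB, k2_cT hB, k2_be hB]
    rw [k2_X0 hB] at hx
    have hb := k2_box' hB
    have ht1 : (hbox .two B false).t1 ≤ 96 / 1000 := by
      rcases B <;> simp only [hbox] <;> norm_num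
    rcases hE with hE | hE
    · have := (k2_gen (A := ((4000 : ℝ) - 2150) / 10000) (C := 1 / 4) (C' := 9 / 50) (Be := 17 / 10) (x := x) (w := w) (t := t) (k := k) (G := G) k7n_oth_a k7o_oth_a
        (by norm_num) (by norm_num) (by norm_num) (by norm_num)
        (by norm_num) (by norm_num) (by norm_num; linarith only [hx]) hw (by norm_num; linarith only [hw])
        (by norm_num; linarith only [hw5]) hxw (by norm_num; linarith only [t0, hb]) (by norm_num; linarith only [t1, ht1])
        (by norm_num; linarith only [k0]) (by norm_num; linarith only [k1]) (by norm_num; linarith only [hE]))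
      linarith only [this]
    · have := (k2_gen (A := ((5450 : ℝ) - 4350) / 10000) (C := 1 / 4) (C' := 9 / 50) (Be := 17 / 10) (x := x) (w := w) (t := t) (k := k) (G := G) k7n_oth_b k7o_oth_b
        (by norm_num) (by norm_num) (by norm_num) (by norm_num)
        (by norm_num) (by norm_num) (by norm_num; linarith only [hx]) hw (by norm_num; linarith only [hw])
        (by norm_num; linarith only [hw5]) hxw (by norm_num; linarith only [t0, hb]) (by norm_num; linarith only [t1, ht1])
        (by norm_num; linarith only [k0]) (by norm_num; linarith only [k1]) (by norm_num; linarith only [hE]))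
      linarith only [this]

/-- next to a ring -/
theorem side_two_ring5 {x w t k G : ℝ} (hx : 60 / 100 ≤ x) (hw : 0 ≤ w) (hw5 : w ≤ 1 / 20)
    (hxw : x + w ≤ 1) (t0 : (hbox .two .ring false).t0 ≤ t) (t1 : t ≤ (hbox .two .ring false).t1)
    (k0 : (hbox .two .one false).t0 ≤ k) (k1 : k ≤ (hbox .two .one false).t1)
    (hE : EB .two .one w (-k) G) :
    gD .two x t + 1 / 100 ≤ V2 ⟨1 / 4, t⟩ ⟨9 / 50, k⟩ - V2 ⟨x, 0⟩ ⟨w, 0⟩ + G := by
  have hE := hE.1 (by linarith only [hw5])
  simp only [hbox] at t0 t1 k0 k1
  simp only [gD]
  rcases hE with hE | hE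
  · have := (k2_gen (A := ((4000 : ℝ) - 2150) / 10000) (C := 1 / 4) (C' := 9 / 50) (Be := 17 / 10) (x := x) (w := w) (t := t) (k := k) (G := G) k7n_oth_a k7o_oth_a
      (by norm_num) (by norm_num) (by norm_num) (by norm_num)
      (by norm_num) (by norm_num) (by norm_num; linarith only [hx]) hw (by norm_num; linarith only [hw])
      (by norm_num; linarith only [hw5]) hxw (by norm_num; linarith only [t0]) (by norm_num; linarith only [t1])
      (by norm_num; linarith only [k0]) (by norm_num; linarith only [k1]) (by norm_num; linarith only [hE]))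
    split_ifs <;> linarith only [this]
  · have := (k2_gen (A := ((5450 : ℝ) - 4350) / 10000) (C := 1 / 4) (C' := 9 / 50) (Be := 17 / 10) (x := x) (w := w) (t := t) (k := k) (G := G) k7n_oth_b k7o_oth_b
      (by norm_num) (by norm_num) (by norm_num) (by norm_num)
      (by norm_num) (by norm_num) (by norm_num; linarith only [hx]) hw (by norm_num; linarith only [hw])
      (by norm_num; linarith only [hw5]) hxw (by norm_num; linarith only [t0]) (by norm_num; linarith only [t1])
      (by norm_num; linarith only [k0]) (by norm_num; linarith only [k1]) (by norm_num; linarith only [hE]))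
    split_ifs <;> linarith only [this]

end TL

end Pool.Agent.Work.MP_b30479_gt.G2
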