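import Pool.Agent.Work.MP_b30479_gt.G2.TL1b
import Pool.Agent.Work.MP_b30479_gt.G2.TE1
import Pool.Agent.Work.MP_b30479_gt.G2.TE4
import Pool.Agent.Work.MP_b30479_gt.G2.TE5

/-!
# Tails: the gains of the untouched regions imply the lower bounds
-/

namespace Pool.Agent.Work.MP_b30479_gt.G2

open VOL NumU SR

namespace TL

theorem RgO.lin {K D : Cl} {τ X Y : ℝ} (h : RgO K D τ X Y) :
    0 ≤ X ∧ X ≤ pM K D ∧
      ((0 ≤ Y ∧ Y ≤ (cw K D).t1 ∧ pa D * Y ≤ (cw K D).t1 * X ∧
          pb D * Y ≤ (cw K D).t1 * (pM K D - X)) ∨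
        (Y ≤ 0 ∧ (cw K D).t0 ≤ Y ∧ (cw K D).t0 * X ≤ pa D * Y ∧
          (cw K D).t0 * (pM K D - X) ≤ pb D * Y)) := by
  obtain ⟨x0, x1, T, a0, a1, -, -, h⟩ := h
  have x2 : 0 ≤ pM K D - X := by linarith only [x1]
  refine ⟨x0, x1, ?_⟩
  rcases h with ⟨y0, y1, y2, y3⟩ | ⟨y0, y1, y2, y3⟩
  · exact Or.inl ⟨y0, y1.trans a1, y2.trans (mul_le_mul_of_nonneg_right a1 x0),
      y3.trans (mul_le_mul_of_nonneg_right a1 x2)⟩
  · exact Or.inr ⟨y0, a0.trans y1, (mul_le_mul_of_nonneg_right a0 x0).trans y2,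
      (mul_le_mul_of_nonneg_right a0 x2).trans y3⟩

theorem RgO.A {D : Cl} {τ X Y : ℝ} (h : RgO .one D τ X Y) : RgA X Y := by
  obtain ⟨x0, x1, h⟩ := h.lin
  cases D <;> simp only [cw, pM, pa, pb, if_true] at x1 h <;>
    rcases h with ⟨y0, y1, y2, y3⟩ | ⟨y0, y1, y2, y3⟩ <;>
    refine ⟨?_, ?_, ?_, ?_, ?_, ?_, ?_, ?_⟩ <;> linarith only [x0, x1, y2, y1, y3, y0]

theorem RgO.B {D : Cl} {τ X Y : ℝ} (h : RgO .two D τ X Y) : RgB X Y := by
  obtain ⟨x0, x1, h⟩ := h.lin
  cases D <;> simp only [cw, pM, pa, pb, show ¬ Cl.two = Cl.one by decide, if_false] at x1 h <;>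
    rcases h with ⟨y0, y1, y2, y3⟩ | ⟨y0, y1, y2, y3⟩ <;>
    refine ⟨?_, ?_, ?_, ?_, ?_, ?_, ?_, ?_⟩ <;> linarith only [x0, x1, y2, y1, y3, y0]

theorem RgO.C1 {τ X Y : ℝ} (h : RgO .three .one τ X Y) : RgC X Y := by
  obtain ⟨x0, x1, h⟩ := h.lin
  simp only [cw, pM, pa, pb, show ¬ Cl.three = Cl.one by decide, if_false] at x1 h
  rcases h with ⟨y0, y1, y2, y3⟩ | ⟨y0, y1, y2, y3⟩ <;>
    refine ⟨?_, ?_, ?_, ?_, ?_, ?_, ?_, ?_⟩ <;> linarith only [x0, x1, y2, y1, y3, y0]

theorem RgO.C2 {τ X Y : ℝ} (h : RgO .three .two τ X Y) : RgC X Y := by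
  obtain ⟨x0, x1, h⟩ := h.lin
  simp only [cw, pM, pa, pb] at x1 h
  rcases h with ⟨y0, y1, y2, y3⟩ | ⟨y0, y1, y2, y3⟩ <;>
    refine ⟨?_, ?_, ?_, ?_, ?_, ?_, ?_, ?_⟩ <;> linarith only [x0, x1, y2, y1, y3, y0]

theorem RgO.E {τ X Y : ℝ} (h : RgO .three .twoE τ X Y) (hX : 8 / 100 ≤ X) : RgE X Y := by
  obtain ⟨x0, x1, h⟩ := h.lin
  simp only [cw, pM, pa, pb] at x1 h
  rcases h with ⟨y0, y1, y2, y3⟩ | ⟨y0, y1, y2, y3⟩ <;>
    refine ⟨?_, ?_, ?_, ?_, ?_, ?_⟩ <;> linarith only [y0, y1, hX, x1, y2, y3]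

/-- **The gains of the untouched regions imply the lower bounds.** -/
theorem EB_of_Gn {K : Cl} {C : Ct} {w τ G : ℝ} (hK : K = .one ∨ K = .two ∨ K = .three)
    (hw : 0 ≤ w) (hw1 : w ≤ 2 / 5) (h : Gn K (cN C) w τ C G) : EB K C w τ G := by
  cases h with
  | one h0 h1 h2 hb hR hX =>
    rename_i D X Y
    rcases hK with rfl | rfl | rfl
    · obtain ⟨a, b⟩ := abs_le.1 (h2 rfl)
      exact ⟨fun h => E1a hw h a b hR.A, fun h => E1b h hw1 a b hR.A⟩
    · have a : -(9 / 500) ≤ τ := by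
        refine le_trans ?_ h0
        cases D <;> simp only [cw] <;> norm_num
      have b : τ ≤ 197 / 2000 := by
        refine h1.trans ?_
        cases D <;> simp only [cw] <;> norm_num
      exact ⟨fun h => E2a hw h a b hR.B, fun h => E2b h hw1 a b hR.B⟩
    · rcases D with _ | _ | _ | _ | _ | _
      · simp only [cw] at h0 h1
        refine ⟨fun h => ?_, fun h => E3b h hw1 h0 (by linarith only [h1]) hR.C1⟩
        rcases E3a (τ := τ) hw h h0 (by linarith only [h1]) hR.C1 with h' | h'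
        · exact Or.inl ⟨by linarith only [h1], h'⟩
        · exact Or.inr h'
      · simp only [cw] at h0 h1
        refine ⟨fun h => ?_, fun h => E3b h hw1 (by linarith only [h0]) (by linarith only [h1]) hR.C2⟩
        rcases E3a (τ := τ) hw h (by linarith only [h0]) (by linarith only [h1]) hR.C2 with h' | h'
        · exact Or.inl ⟨by linarith only [h1], h'⟩
        · exact Or.inr h'
      · simp only [cw] at h0 h1
        have hX' := hX rfl (Or.inl rfl)
        exact ⟨fun h => Or.inr (E3c hw h h0 (by linarith only [h1]) (hR.E hX')),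
          fun h => E3d h hw1 h0 (by linarith only [h1]) (hR.E hX')⟩
      · exact absurd ⟨Or.inl rfl, Or.inl rfl⟩ hb
      · exact absurd ⟨Or.inl rfl, Or.inr (Or.inl rfl)⟩ hb
      · exact absurd ⟨Or.inl rfl, Or.inr (Or.inr rfl)⟩ hb
  | two h0 h1 hR =>
    have a : -(197 / 2000) ≤ τ := by
      refine le_trans ?_ h0
      rcases hK with rfl | rfl | rfl <;> simp only [hbox] <;> norm_num
    have b : τ ≤ 57 / 1000 := by
      refine h1.trans ?_
      rcases hK with rfl | rfl | rfl <;> simp only [hbox] <;> norm_num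
    rcases hR with hR | ⟨h27, hR⟩
    · exact E4 hw hw1 a b hR
    · exact P1.E4f h27 hw1 a b hR
  | twoE h0 h1 =>
    have a : -(1 / 1000) ≤ τ := by
      refine le_trans ?_ h0
      rcases hK with rfl | rfl | rfl <;> simp only [hbox] <;> norm_num
    have b : τ ≤ 98 / 1000 := by
      refine h1.trans ?_
      rcases hK with rfl | rfl | rfl <;> simp only [hbox] <;> norm_num
    exact P1.R2 a b
  | threeA h0 h1 hR =>
    have a : -(229 / 2000) ≤ τ := by
      refine le_trans ?_ h0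
      rcases hK with rfl | rfl | rfl <;> simp only [hbox] <;> norm_num
    have b : τ ≤ 11 / 500 := by
      refine h1.trans ?_
      rcases hK with rfl | rfl | rfl <;> simp only [hbox] <;> norm_num
    exact ⟨fun h => E5a hw h a b hR, fun h => E5b h hw1 a b hR⟩
  | threeS h0 h1 hX0 hX1 t0 t1 s0 s1 ho =>
    rename_i D X T Xo Yo
    have a : -(1145 / 10000) ≤ τ := by
      refine le_trans ?_ h0
      rcases hK with rfl | rfl | rfl <;> simp only [hbox] <;> norm_num
    have b : τ ≤ 22 / 1000 := by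
      refine h1.trans ?_
      rcases hK with rfl | rfl | rfl <;> simp only [hbox] <;> norm_num
    refine P1.threeS hw hw1 a b hX0 hX1 (le_trans ?_ t0) (t1.trans ?_) (le_trans ?_ s0)
      (s1.trans ?_) ho
    all_goals
      rcases hK with rfl | rfl | rfl <;> cases D <;> simp only [mw] <;> norm_num
  | threeK h0 h1 hR =>
    have a : -(229 / 2000) ≤ τ := by
      refine le_trans ?_ h0
      rcases hK with rfl | rfl | rfl <;> simp only [hbox] <;> norm_num
    have b : τ ≤ 11 / 500 := by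
      refine h1.trans ?_
      rcases hK with rfl | rfl | rfl <;> simp only [hbox] <;> norm_num
    exact E6 hw hw1 a b hR
  | threeE h0 h1 hm0 hm1 hl hl1 =>
    have a : -(78 / 1000) ≤ τ := by
      refine le_trans ?_ h0
      rcases hK with rfl | rfl | rfl <;> simp only [hbox] <;> norm_num
    have b : τ ≤ 28 / 1000 := by
      refine h1.trans ?_
      rcases hK with rfl | rfl | rfl <;> simp only [hbox] <;> norm_num
    exact P1.R3 a b hm0 hm1 hw hl hl1
  | ring h0 h1 h2 hρ hρ1 hσ hσ1 =>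
    have hr : K ≠ .ring := by
      rcases hK with rfl | rfl | rfl <;> decide
    have a : -(79 / 500) ≤ τ := by
      refine le_trans ?_ (h0 hr)
      rcases hK with rfl | rfl | rfl <;> simp only [hbox] <;> norm_num
    have b : τ ≤ 1 / 250 := by
      refine (h1 hr).trans ?_
      rcases hK with rfl | rfl | rfl <;> simp only [hbox] <;> norm_num
    exact ⟨fun h => E7a hw h a b hρ hρ1 hσ hσ1, fun h => E7b h hw1 a b hρ hρ1 hσ hσ1⟩
  | touched => exact le_rfl

end TL

end Pool.Agent.Work.MP_b30479_gt.G2
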