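import Pool.Agent.Work.MP_b30479_gt.G2.TDef3
import Pool.Agent.Work.MP_b30479_gt.G2.TE3b
import Pool.Agent.Work.NumU.TreeS

/-!
# Tails, the gains of the untouched regions: the new rows, part 1

`E4f`: a two whose other hinge is far to the right.  `R2`, `R3`: a two, a three at an end.
Certificates generated.
-/

namespace Pool.Agent.Work.MP_b30479_gt.G2

open VOL NumU

namespace TL

namespace P1

section

open NumI (V)

def Pa : E := E.uu (E.add (E.q 1 4) vX) (E.add vt vY)
def hY : E := E.mul E.pi (E.mul (E.q 1 2) (E.add vt vY))
def Pd : E := E.uu (E.sub vX (E.q 3 4)) (E.add vt vY)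
/-- `pi/2 * .34 (.8 - X)` -/
def yb : E := E.mul E.pi (E.mul (E.q 17 100) (E.sub (E.q 8 10) vX))
def nN : E → E := fun a => E.sub (E.q 0 1) a

def ef (P W : E) : E := E.add (E.sub (E.sub P (E.mul (E.q 2 1) (E.uu (E.q 1 4) vt)))
    (E.mul E.pi (E.add (E.mul (E.sub (E.q 1 4) vX) (E.sub vt vY)) (E.mul (E.q 1 2) vt))))
  (E.add (E.sub (E.sub eU W) (E.mul E.pi (E.mul (E.sub vw vX) vY))) (eK (-848) 1480 15710))

def V1e : E := E.uu eS vY
def V2e : E := E.sub yb e2
def V4e : E := E.add (E.uu (E.sub eS (E.q 1 1)) vY) (E.mul (E.q 2 1) yb)
def c1 : E := E.sub vY (E.mul (E.q 34 100) (E.sub (E.q 8 10) vX))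
def c2 : E := E.sub (nN (E.mul (E.q 34 100) (E.sub (E.q 8 10) vX))) vY

theorem ka1_q1 : Pool.Agent.Work.NumU.runT [ef Pa V1e, c1, c2, E.sub eS (E.q 98 100)] 38
    860318793869225354154548970198482798062337810800138609112052527081196104281254689569725154267193412924971654307997381762616203227056451625682929040705708710470314227699074952935510678537158814842970002766874451725750658393297544876463991685701930582625690723685562805261025571245931107434375274316792037367687188223355893133327467473855730093614420994049069418753483990266306790206612643906492387873154094178153285667300988874349042103086304496592290942866648493908810405837426460884813162585010108558169536981059383391001045042430677674600181724163700664315445105568086926615051651465987534623173181394698717558520064557890217096597321582539623086019420611761883238753398140260080039946271305727140687864233691826412292180333118541729160924981325920000862037741960396005369816548879366371441519865830236224256450341698888671692043087144343366440153158982869440192936163626341577874398531037963008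
    (Pool.Agent.Work.NumI.setL 3 (Pool.Agent.Work.NumI.setL 1 ([V.of 10000 2700 3800 4, V.of 10000 (-985) 570 4, V.of 10000 6000 7100 4, V.of 10000 (-680) 680 4]))) =
    10718706423234614860852210036906826402703358041418104409873742146685525022224017897071019723069630107855409678156507361251455244736465986636523745246096109117163641532760114056241561870873647234764343583312326042120472073177399096373760638257408586258558871598556274867501565737350664460408763397355363187170644139657737254900211765370463806357889205174221290494458528739035169639356098155154679155074525567886404121713474671351985466919649448940998796563117583713175948929869065569918369139930769802176127541179907629771971279729938266347148673872579858650875909304952545111966488623215407736605428916627287025821659548780168836912350454646598175642742107556652382355619465566462724418904833 := by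
  decide +kernel

theorem ka1_q2 : Pool.Agent.Work.NumU.runT [ef Pa V1e, c1, c2, E.sub eS (E.q 98 100)] 38
    10718706423234614860852210036906826402703358041418104409873742146685525022224017897071019723069630107855409678156507361251455244736465986636523745246096109117163641532760114056241561870873647234764343583312326042120472073177399096373760638257408586258558871598556274867501565737350664460408763397355363187170644139657737254900211765370463806357889205174221290494458528739035169639356098155154679155074525567886404121713474671351985466919649448940998796563117583713175948929869065569918369139930769802176127541179907629771971279729938266347148673872579858650875909304952545111966488623215407736605428916627287025821659548780168836912350454646598175642742107556652382355619465566462724418904832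
    (Pool.Agent.Work.NumI.setR 3 (Pool.Agent.Work.NumI.setL 1 ([V.of 10000 2700 3800 4, V.of 10000 (-985) 570 4, V.of 10000 6000 7100 4, V.of 10000 (-680) 680 4]))) =
    47035660802469149947161164503858847922308560604739263237690131112930485243778580589760589429507469318039160353226446894494747202313986241921813399764981130810163936131587377751680544336970513157627587414312036440835630384828672253990877728796518238183793290457216303202939221691973628085222820755864806975577811324322576792668451515377648674484900606465 := by
  decide +kernel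

theorem ka1_q3 : Pool.Agent.Work.NumU.runT [ef Pa V1e, c1, c2, E.sub eS (E.q 98 100)] 39
    47035660802469149947161164503858847922308560604739263237690131112930485243778580589760589429507469318039160353226446894494747202313986241921813399764981130810163936131587377751680544336970513157627587414312036440835630384828672253990877728796518238183793290457216303202939221691973628085222820755864806975577811324322576792668451515377648674484900606464
    (Pool.Agent.Work.NumI.setR 1 ([V.of 10000 2700 3800 4, V.of 10000 (-985) 570 4, V.of 10000 6000 7100 4, V.of 10000 (-680) 680 4])) =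
    1 := by
  decide +kernel

theorem ka1 : chkT [ef Pa V1e, c1, c2, E.sub eS (E.q 98 100)] 40
    0xbbb88388332bb883208832022bbbbbb88322000883883388308832220bbbbbbb8832220000bbbb8832000888080388380328880803b8082803883208838803220bbbbbb8832000088808038808083322883883288322bbbbbb8830222008882803880808338808322883881220bbb883883320088838038828083328888033880838338838813208880388083328838803200bbbbbb822008880803222bbbb8200822bb882802bb822820230bbb80082822bbbb8220088220bb8802b82820822bbbb822208828280822030b9bb8008232888012bb8832bb8208202882239b82bb8208203888212bbbb82200883808228812309888298388021129bb8208288103888810128882123bbbb820008880328812881880803881288120888012300bbb8832bb82082022bbbbb822008838082220bb8832bb820820822bbbbb822200b8082808282200bbb80822bb8208202880822bbbbb822000880808382288220b8822b828208282882808282820bb8008280828230031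
    [V.of 10000 2700 3800 4,
      V.of 10000 (-985) 570 4,
      V.of 10000 6000 7100 4,
      V.of 10000 (-680) 680 4] = true :=
      Pool.Agent.Work.NumU.chkT_of (Pool.Agent.Work.NumU.runT_split rfl rfl rfl
        (Pool.Agent.Work.NumU.runT_split rfl rfl rfl
          ka1_q1
          ka1_q2)
        ka1_q3)

theorem ka2 : chkT [ef Pa V2e, c1, c2, E.sub (E.q 98 100) eS, E.sub eS (E.q 1 1)] 40
    0x8818833881282982888313c8818303883288321cc88183228818329c8830c98308383138a33883982831832883832998813c80383399881338813283988138383218881183b0201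
    [V.of 10000 2700 4000 4,
      V.of 10000 (-985) 570 4,
      V.of 10000 6000 7300 4,
      V.of 10000 (-680) 680 4] = true := by decide +kernel

theorem ka3 : chkT [ef Pa yb, c1, c2, E.sub (E.q 1 1) eS, E.sub eS (E.q 107 100)] 40
    0x883883188388331883288129828813883388329828388028318808321
    [V.of 10000 2700 4000 4,
      V.of 10000 (-985) 570 4,
      V.of 10000 6000 7300 4,
      V.of 10000 (-680) 680 4] = true := by decide +kernel

theorem ka4 : chkT [ef Pa V4e, c1, c2, E.sub (E.q 107 100) eS] 40
    0x882883188388311881881b2b002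
    [V.of 10000 3400 4000 4,
      V.of 10000 (-985) 570 4,
      V.of 10000 6700 7300 4,
      V.of 10000 (-442) 442 4] = true := by decide +kernel

theorem kb3 : chkT [ef hY yb, ef (nN hY) yb, c1, c2, E.sub (E.q 1 1) eS, E.sub eS (E.q 107 100)] 40
    0x991
    [V.of 10000 2700 3400 4,
      V.of 10000 (-985) 570 4,
      V.of 10000 7300 7500 4,
      V.of 10000 (-238) 238 4] = true := by decide +kernel

theorem kb4 : chkT [ef hY V4e, ef (nN hY) V4e, c1, c2, E.sub (E.q 107 100) eS] 40
    0x9
    [V.of 10000 3200 4000 4,
      V.of 10000 (-985) 570 4,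
      V.of 10000 7300 7500 4,
      V.of 10000 (-238) 238 4] = true := by decide +kernel

theorem kc4 : chkT [ef (E.add e2 hY) V4e, ef (E.sub e2 hY) V4e, c1, c2] 40
    0x99999910000
    [V.of 10000 2700 4000 4,
      V.of 10000 (-985) 570 4,
      V.of 10000 7500 7700 4,
      V.of 10000 (-170) 170 4] = true := by decide +kernel

theorem kd4 : chkT [ef (E.add Pd (E.mul (E.q 2 1) hY)) V4e, ef (E.sub Pd (E.mul (E.q 2 1) hY)) V4e, c1, c2] 40
    0x891918891199110
    [V.of 10000 2700 4000 4,
      V.of 10000 (-985) 570 4,
      V.of 10000 7700 8000 4,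
      V.of 10000 (-102) 102 4] = true := by decide +kernel

/-! one and two variables -/

def t0 : E := E.var 0
def t1 : E := E.var 1

theorem kR2 : chkT [E.add (E.sub (nN (E.mul E.pi (E.mul (E.q 72 100) t0))) (E.uu (E.q 22 100) t0))
    (E.add (E.q (-1545) 10000) (E.mul (E.q 22620 10000) t0))] 40
    0x8888000
    [V.of 10000 (-10) 980 4] = true := by decide +kernel

theorem kL1 : chkT [E.sub (nN (E.uu t0 (E.q 114 1000))) (E.mul E.pi (E.q 57 1000))] 40
    0x8
    [V.of 10000 700 1600 4] = true := by decide +kernel

theorem kL2 : chkT [E.add (E.uu t0 (E.q 0 1)) (E.q 1616 10000)] 40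
    0x880880888008808000880880000
    [V.of 10000 200 5000 4] = true := by decide +kernel

theorem kL3 : chkT [E.sub (E.q 1616 10000) (E.uu t0 (E.q 0 1))] 40
    0x8888000
    [V.of 10000 200 5000 4] = true := by decide +kernel

theorem kR3 : chkT [E.add (E.sub (E.sub (nN (E.mul (E.mul E.pi (E.q 1 2)) (E.add (E.mul (E.q 64 300) t1)
    (E.mul (E.q 232 300) t0)))) (E.uu (E.q 1 6) (E.sub t1 t0))) (E.uu (E.q 22 100) t0))
    (E.add (E.q (-2961) 10000) (E.mul (E.q 12150 10000) t0))] 40
    0x88180818800
    [V.of 10000 (-780) 280 4,
      V.of 10000 (-450) 590 4] = true := by decide +kernel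

end

variable {w τ X Y x y ρ : ℝ}

theorem nN_val (a : E) (xs : List ℝ) : (nN a).val xs = -a.val xs := by
  simp only [nN, E.val]
  norm_num

theorem ef_val (P W : E) : (ef P W).val [w, τ, X, Y] =
    P.val [w, τ, X, Y] - 2 * uu (1 / 4) τ - Real.pi * ((1 / 4 - X) * (τ - Y) + 1 / 2 * τ) +
      (uu w 0 - W.val [w, τ, X, Y] - Real.pi * ((w - X) * Y)) +
      (-(53 / 625) + 37 / 250 * w + 1571 / 1000 * τ) := by
  simp only [ef, eK, eU, vw, vt, vX, vY, E.val, NumI.lkR]
  push_cast
  rw [zero_div]
  ring

theorem hY_val : hY.val [w, τ, X, Y] = Real.pi / 2 * (τ + Y) := by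
  simp only [hY, vt, vY, E.val, NumI.lkR]
  push_cast
  ring

theorem yb_val : yb.val [w, τ, X, Y] = Real.pi / 2 * (34 / 100 * (8 / 10 - X)) := by
  simp only [yb, vX, E.val, NumI.lkR]
  push_cast
  ring

/-- the other hinge of a two is far to the right -/
theorem E4f (h0 : 27 / 100 ≤ w) (h1 : w ≤ 2 / 5) (h2 : -(197 / 2000) ≤ τ)
    (h3 : τ ≤ 57 / 1000) (hG : RgF X Y) :
    UU ⟨w, 0⟩ + 53 / 625 - 37 / 250 * w - 1571 / 1000 * τ ≤
      V2 ⟨1 / 4, τ⟩ ⟨X, Y⟩ - V2 ⟨w, 0⟩ ⟨X, Y⟩ := by
  have hpi := Real.pi_pos
  obtain ⟨x0, x1, g1, g2⟩ := hG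
  have hc1 : ¬ 0 < c1.val [w, τ, X, Y] := by
    simp only [c1, vX, vY, E.val, NumI.lkR]
    push_cast
    linarith only [g1]
  have hc2 : ¬ 0 < c2.val [w, τ, X, Y] := by
    simp only [c2, nN_val, vX, vY, E.val, NumI.lkR]
    push_cast
    linarith only [g2]
  have hYa : |Y| ≤ 34 / 100 * (8 / 10 - X) := abs_le.2 ⟨by linarith only [g2], g1⟩
  have hYp : Real.pi / 2 * |Y| ≤ Real.pi / 2 * (34 / 100 * (8 / 10 - X)) :=
    mul_le_mul_of_nonneg_left hYa (by positivity)
  have hT1 : Real.pi / 2 * (τ + Y) ≤ Real.pi / 2 * |τ + Y| :=
    mul_le_mul_of_nonneg_left (le_abs_self _) (by positivity)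
  have hT2 : -(Real.pi / 2 * (τ + Y)) ≤ Real.pi / 2 * |τ + Y| := by
    have := mul_le_mul_of_nonneg_left (neg_le_abs (τ + Y)) (show 0 ≤ Real.pi / 2 by positivity)
    linarith only [this]
  -- the claim from the two bounds
  have fin : ∀ {P W : E}, 0 < (ef P W).val [w, τ, X, Y] →
      P.val [w, τ, X, Y] ≤ uu (1 / 4 + X) (τ + Y) → uu (w + X) Y ≤ W.val [w, τ, X, Y] →
      UU ⟨w, 0⟩ + 53 / 625 - 37 / 250 * w - 1571 / 1000 * τ ≤
      V2 ⟨1 / 4, τ⟩ ⟨X, Y⟩ - V2 ⟨w, 0⟩ ⟨X, Y⟩ := by
    intro P W hp hP hW
    rw [ef_val] at hp
    rw [V2_diff, UU_uu]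
    simp only
    linarith only [hp, hP, hW]
  have vPa : Pa.val [w, τ, X, Y] = uu (1 / 4 + X) (τ + Y) := by
    simp only [Pa, vt, vX, vY, E.val, NumI.lkR]
    push_cast
    rfl
  have vV1 : V1e.val [w, τ, X, Y] = uu (w + X) Y := by
    simp only [V1e, eS, vw, vX, vY, E.val, NumI.lkR]
  have ve2 : e2.val [w, τ, X, Y] = uu (2 / 100) 0 := by
    simp only [e2, E.val, NumI.lkR]
    push_cast
    rw [zero_div]
  -- upper bounds of `uu (w + X) Y`
  have wV2 : 98 / 100 ≤ w + X → w + X ≤ 1 → uu (w + X) Y ≤ V2e.val [w, τ, X, Y] := by
    intro a b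
    have := uu_near_one (x := w + X) (Y := Y) a b
    have e : V2e.val [w, τ, X, Y] = yb.val [w, τ, X, Y] - e2.val [w, τ, X, Y] := rfl
    rw [e, yb_val, ve2]
    linarith only [hYp, this]
  have a0 := uu_add_one (w + X - 1) Y
  rw [sub_add_cancel] at a0
  have wV3 : 1 ≤ w + X → w + X ≤ 107 / 100 → uu (w + X) Y ≤ yb.val [w, τ, X, Y] := by
    intro a b
    have a1 := Lr_nonpos' (ρ := |Y|) (x := w + X - 1) (abs_nonneg Y)
      (by rw [abs_le]; constructor <;> linarith only [h1, g2, a, x0, g1]) (by linarith only [a]) (by linarith only [b])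
    rw [uu_Lr (w + X - 1) Y] at a0
    rw [yb_val]
    linarith only [hYp, a0, a1]
  have wV4 : uu (w + X) Y ≤ V4e.val [w, τ, X, Y] := by
    have e : V4e.val [w, τ, X, Y] = uu (w + X - 1) Y + 2 * yb.val [w, τ, X, Y] := by
      simp only [V4e, eS, vw, vX, vY, E.val, NumI.lkR]
      push_cast
      norm_num
    rw [e, yb_val]
    linarith only [hYp, a0]
  rcases le_total X (73 / 100) with hX | hX
  · rcases le_total (w + X) (98 / 100) with hs | hs
    · obtain ⟨e, he, hp⟩ := chkT4 ka1 (by norm_num) (x := w) (y := τ) (z := X) (w := Y)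
        (by norm_num; linarith only [h0]) (by norm_num; linarith only [x0, hs]) (by norm_num; linarith only [h2])
        (by norm_num; linarith only [h3]) (by norm_num; linarith only [x0]) (by norm_num; linarith only [h0, hs])
        (by norm_num; linarith only [x0, g2]) (by norm_num; linarith only [x0, g1])
      simp only [List.mem_cons, List.not_mem_nil, or_false] at he
      rcases he with rfl | rfl | rfl | rfl
      · exact fin hp vPa.le vV1.ge
      · exact absurd hp hc1
      · exact absurd hp hc2
      · simp only [eS, vw, vX, E.val, NumI.lkR] at hp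
        push_cast at hp
        linarith only [hs, hp]
    rcases le_total (w + X) 1 with hs1 | hs1
    · obtain ⟨e, he, hp⟩ := chkT4 ka2 (by norm_num) (x := w) (y := τ) (z := X) (w := Y)
        (by norm_num; linarith only [h0]) (by norm_num; linarith only [h1]) (by norm_num; linarith only [h2])
        (by norm_num; linarith only [h3]) (by norm_num; linarith only [x0]) (by norm_num; linarith only [hX])
        (by norm_num; linarith only [x0, g2]) (by norm_num; linarith only [x0, g1])
      simp only [List.mem_cons, List.not_mem_nil, or_false] at he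
      rcases he with rfl | rfl | rfl | rfl | rfl
      · exact fin hp vPa.le (wV2 hs hs1)
      · exact absurd hp hc1
      · exact absurd hp hc2
      all_goals
        simp only [eS, vw, vX, E.val, NumI.lkR] at hp
        push_cast at hp
        linarith only [hs, hp, hs1]
    rcases le_total (w + X) (107 / 100) with hs2 | hs2
    · obtain ⟨e, he, hp⟩ := chkT4 ka3 (by norm_num) (x := w) (y := τ) (z := X) (w := Y)
        (by norm_num; linarith only [h0]) (by norm_num; linarith only [h1]) (by norm_num; linarith only [h2])
        (by norm_num; linarith only [h3]) (by norm_num; linarith only [x0]) (by norm_num; linarith only [hX])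
        (by norm_num; linarith only [h1, g2, hs1]) (by norm_num; linarith only [x0, g1])
      simp only [List.mem_cons, List.not_mem_nil, or_false] at he
      rcases he with rfl | rfl | rfl | rfl | rfl
      · exact fin hp vPa.le (wV3 hs1 hs2)
      · exact absurd hp hc1
      · exact absurd hp hc2
      all_goals
        simp only [eS, vw, vX, E.val, NumI.lkR] at hp
        push_cast at hp
        linarith only [hs1, hp, hs2]
    · obtain ⟨e, he, hp⟩ := chkT4 ka4 (by norm_num) (x := w) (y := τ) (z := X) (w := Y)
        (by norm_num; linarith only [hX, hs2]) (by norm_num; linarith only [h1]) (by norm_num; linarith only [h2])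
        (by norm_num; linarith only [h3]) (by norm_num; linarith only [h1, hs2]) (by norm_num; linarith only [hX])
        (by norm_num; linarith only [h1, g2, hs2]) (by norm_num; linarith only [h1, g1, hs2])
      simp only [List.mem_cons, List.not_mem_nil, or_false] at he
      rcases he with rfl | rfl | rfl | rfl
      · exact fin hp vPa.le wV4
      · exact absurd hp hc1
      · exact absurd hp hc2
      · simp only [eS, vw, vX, E.val, NumI.lkR] at hp
        push_cast at hp
        linarith only [hs2, hp]
  have p0 := uu_add_one (1 / 4 + X - 1) (τ + Y)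
  rw [sub_add_cancel] at p0
  rcases le_total X (75 / 100) with hX1 | hX1
  · -- `uu (1/4 + X) (τ + Y) ≥ pi/2 |τ + Y|`
    have lo : Real.pi / 2 * |τ + Y| ≤ uu (1 / 4 + X) (τ + Y) := by
      have a1 := Lr_nonpos' (ρ := |τ + Y|) (x := 3 / 4 - X) (abs_nonneg _)
        (by rw [abs_le]; constructor <;> linarith only [h2, g2, hX, h3, g1]) (by linarith only [hX1]) (by linarith only [hX])
      have a2 := uu_one_sub (3 / 4 - X) (τ + Y)
      rw [show (1 : ℝ) - (3 / 4 - X) = 1 / 4 + X by ring, uu_Lr (3 / 4 - X)] at a2
      linarith only [a1, a2]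
    have w1 : hY.val [w, τ, X, Y] ≤ uu (1 / 4 + X) (τ + Y) := by rw [hY_val]; linarith only [hT1, lo]
    have w2 : (nN hY).val [w, τ, X, Y] ≤ uu (1 / 4 + X) (τ + Y) := by
      rw [nN_val, hY_val]
      linarith only [hT2, lo]
    rcases le_total (w + X) (107 / 100) with hs2 | hs2
    · obtain ⟨e, he, hp⟩ := chkT4 kb3 (by norm_num) (x := w) (y := τ) (z := X) (w := Y)
        (by norm_num; linarith only [h0]) (by norm_num; linarith only [hX, hs2]) (by norm_num; linarith only [h2])
        (by norm_num; linarith only [h3]) (by norm_num; linarith only [hX]) (by norm_num; linarith only [hX1])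
        (by norm_num; linarith only [g2, hX]) (by norm_num; linarith only [g1, hX])
      simp only [List.mem_cons, List.not_mem_nil, or_false] at he
      rcases he with rfl | rfl | rfl | rfl | rfl | rfl
      · exact fin hp w1 (wV3 (by linarith only [h0, hX]) hs2)
      · exact fin hp w2 (wV3 (by linarith only [h0, hX]) hs2)
      · exact absurd hp hc1
      · exact absurd hp hc2
      all_goals
        simp only [eS, vw, vX, E.val, NumI.lkR] at hp
        push_cast at hp
        linarith only [h0, hX, hp, hs2]
    · obtain ⟨e, he, hp⟩ := chkT4 kb4 (by norm_num) (x := w) (y := τ) (z := X) (w := Y)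
        (by norm_num; linarith only [hX1, hs2]) (by norm_num; linarith only [h1]) (by norm_num; linarith only [h2])
        (by norm_num; linarith only [h3]) (by norm_num; linarith only [hX]) (by norm_num; linarith only [hX1])
        (by norm_num; linarith only [g2, hX]) (by norm_num; linarith only [g1, hX])
      simp only [List.mem_cons, List.not_mem_nil, or_false] at he
      rcases he with rfl | rfl | rfl | rfl | rfl
      · exact fin hp w1 wV4
      · exact fin hp w2 wV4
      · exact absurd hp hc1
      · exact absurd hp hc2
      · simp only [eS, vw, vX, E.val, NumI.lkR] at hp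
        push_cast at hp
        linarith only [hs2, hp]
  rcases le_total X (77 / 100) with hX2 | hX2
  · have lo : uu (2 / 100) 0 + Real.pi / 2 * |τ + Y| ≤ uu (1 / 4 + X) (τ + Y) := by
      have a1 := uu_near_zero (x := 1 / 4 + X - 1) (Y := τ + Y) (by linarith only [hX1]) (by linarith only [hX2])
      linarith only [p0, a1]
    have w1 : (E.add e2 hY).val [w, τ, X, Y] ≤ uu (1 / 4 + X) (τ + Y) := by
      have e : (E.add e2 hY).val [w, τ, X, Y] = e2.val [w, τ, X, Y] + hY.val [w, τ, X, Y] := rfl
      rw [e, hY_val, ve2]
      linarith only [hT1, lo]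
    have w2 : (E.sub e2 hY).val [w, τ, X, Y] ≤ uu (1 / 4 + X) (τ + Y) := by
      have e : (E.sub e2 hY).val [w, τ, X, Y] = e2.val [w, τ, X, Y] - hY.val [w, τ, X, Y] := rfl
      rw [e, hY_val, ve2]
      linarith only [hT2, lo]
    obtain ⟨e, he, hp⟩ := chkT4 kc4 (by norm_num) (x := w) (y := τ) (z := X) (w := Y)
      (by norm_num; linarith only [h0]) (by norm_num; linarith only [h1]) (by norm_num; linarith only [h2])
      (by norm_num; linarith only [h3]) (by norm_num; linarith only [hX1]) (by norm_num; linarith only [hX2])
      (by norm_num; linarith only [g2, hX1]) (by norm_num; linarith only [g1, hX1])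
    simp only [List.mem_cons, List.not_mem_nil, or_false] at he
    rcases he with rfl | rfl | rfl | rfl
    · exact fin hp w1 wV4
    · exact fin hp w2 wV4
    · exact absurd hp hc1
    · exact absurd hp hc2
  · have vPd : Pd.val [w, τ, X, Y] = uu (1 / 4 + X - 1) (τ + Y) := by
      simp only [Pd, vt, vX, vY, E.val, NumI.lkR]
      push_cast
      congr 1
      ring
    have w1 : (E.add Pd (E.mul (E.q 2 1) hY)).val [w, τ, X, Y] ≤ uu (1 / 4 + X) (τ + Y) := by
      have e : (E.add Pd (E.mul (E.q 2 1) hY)).val [w, τ, X, Y] =
        Pd.val [w, τ, X, Y] + ((2 : ℤ) : ℝ) / ((1 : ℕ) : ℝ) * hY.val [w, τ, X, Y] := rfl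
      rw [e, hY_val, vPd]
      push_cast
      linarith only [hT1, p0]
    have w2 : (E.sub Pd (E.mul (E.q 2 1) hY)).val [w, τ, X, Y] ≤ uu (1 / 4 + X) (τ + Y) := by
      have e : (E.sub Pd (E.mul (E.q 2 1) hY)).val [w, τ, X, Y] =
        Pd.val [w, τ, X, Y] - ((2 : ℤ) : ℝ) / ((1 : ℕ) : ℝ) * hY.val [w, τ, X, Y] := rfl
      rw [e, hY_val, vPd]
      push_cast
      linarith only [hT2, p0]
    obtain ⟨e, he, hp⟩ := chkT4 kd4 (by norm_num) (x := w) (y := τ) (z := X) (w := Y)
      (by norm_num; linarith only [h0]) (by norm_num; linarith only [h1]) (by norm_num; linarith only [h2])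
      (by norm_num; linarith only [h3]) (by norm_num; linarith only [hX2]) (by norm_num; linarith only [x1])
      (by norm_num; linarith only [g2, hX2]) (by norm_num; linarith only [g1, hX2])
    simp only [List.mem_cons, List.not_mem_nil, or_false] at he
    rcases he with rfl | rfl | rfl | rfl
    · exact fin hp w1 wV4
    · exact fin hp w2 wV4
    · exact absurd hp hc1
    · exact absurd hp hc2

/-! ### one and two variables -/

theorem one_of {es : List E} {c N : ℕ} {l h : ℤ} {k : ℕ} (H : chkT es 40 c [NumI.V.of N l h k] = true)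
    (hN : 0 < N) {x : ℝ} (a1 : (l : ℝ) / N ≤ x) (b1 : x ≤ (h : ℝ) / N) :
    ∃ e ∈ es, 0 < e.val [x] :=
  chkT_sound H (List.Forall₂.cons (NumI.V.of_mem hN a1 b1) List.Forall₂.nil)

/-- `Lr` up to `16/100` -/
theorem Lr_neg (h0 : 0 ≤ ρ) (h1 : ρ ≤ 114 / 1000) (h2 : 0 ≤ x) (h3 : x ≤ 16 / 100) :
    DT.Lr ρ x ≤ 0 := by
  rcases le_total x (7 / 100) with h | h
  · exact Lr_nonpos' h0 (by linarith only [h1]) h2 h
  · refine (Lr_le_left h0 h1 h2).trans ?_
    obtain ⟨e, he, hp⟩ := one_of kL1 (by norm_num) (x := x) (by norm_num; linarith only [h])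
      (by norm_num; linarith only [h3])
    simp only [List.mem_cons, List.not_mem_nil, or_false] at he
    subst he
    simp only [nN, t0, E.val, NumI.lkR] at hp
    push_cast at hp
    have e1 := uu_Lr x (114 / 1000)
    rw [abs_of_pos (by norm_num)] at e1
    linarith only [hp, e1]

/-- values on the real axis -/
theorem uu_real_abs (h0 : 0 ≤ x) (h1 : x ≤ 1) : -(1616 / 10000) ≤ uu x 0 ∧ uu x 0 ≤ 1616 / 10000 := by
  have key : ∀ {s : ℝ}, 0 ≤ s → s ≤ 1 / 2 → -(1616 / 10000) ≤ uu s 0 ∧ uu s 0 ≤ 1616 / 10000 := by
    intro s s0 s1
    rcases le_total s (2 / 100) with h | h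
    · constructor
      · have a1 := uu_near_zero (Y := 0) s0 h
        obtain ⟨e, he, hp⟩ := one_of kL2 (by norm_num) (x := 2 / 100) (by norm_num) (by norm_num)
        simp only [List.mem_cons, List.not_mem_nil, or_false] at he
        subst he
        simp only [t0, E.val, NumI.lkR] at hp
        push_cast at hp
        rw [zero_div] at hp
        rw [abs_zero] at a1
        linarith only [a1, hp]
      · have a1 := Lr_nonpos' (ρ := 0) le_rfl (by norm_num) s0 (by linarith only [h])
        rw [uu_Lr, abs_zero]
        linarith only [a1]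
    · constructor
      · obtain ⟨e, he, hp⟩ := one_of kL2 (by norm_num) (x := s) (by norm_num; linarith only [h])
          (by norm_num; linarith only [s1])
        simp only [List.mem_cons, List.not_mem_nil, or_false] at he
        subst he
        simp only [t0, E.val, NumI.lkR] at hp
        push_cast at hp
        rw [zero_div] at hp
        linarith only [hp]
      · obtain ⟨e, he, hp⟩ := one_of kL3 (by norm_num) (x := s) (by norm_num; linarith only [h])
          (by norm_num; linarith only [s1])
        simp only [List.mem_cons, List.not_mem_nil, or_false] at he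
        subst he
        simp only [t0, E.val, NumI.lkR] at hp
        push_cast at hp
        rw [zero_div] at hp
        linarith only [hp]
  rcases le_total x (1 / 2) with h | h
  · exact key h0 h
  · obtain ⟨a, b⟩ := key (s := 1 - x) (by linarith only [h1]) (by linarith only [h])
    rw [uu_one_sub] at a b
    exact ⟨by linarith only [b], by linarith only [a]⟩

/-- an untouched two at an end -/
theorem R2 (h2 : -(1 / 1000) ≤ τ) (h3 : τ ≤ 98 / 1000) :
    UU ⟨w, 0⟩ + 1545 / 10000 - 2262 / 1000 * τ ≤ V2 ⟨11 / 50, τ⟩ 0 - V2 ⟨w, 0⟩ 0 := by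
  obtain ⟨e, he, hp⟩ := one_of kR2 (by norm_num) (x := τ) (by norm_num; linarith only [h2])
    (by norm_num; linarith only [h3])
  simp only [List.mem_cons, List.not_mem_nil, or_false] at he
  subst he
  simp only [nN, t0, E.val, NumI.lkR] at hp
  push_cast at hp
  unfold V2
  simp only [add_zero, sub_zero, UU_zero, UU_uu, pow_two, Complex.add_im, Complex.mul_im]
  rw [show (22 : ℝ) / 100 = 11 / 50 by norm_num] at hp
  linarith only [hp]

/-- an untouched three at an end -/
theorem R3 {l m : ℝ} (h2 : -(78 / 1000) ≤ τ) (h3 : τ ≤ 28 / 1000) (m0 : -(45 / 1000) ≤ m)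
    (m1 : m ≤ 59 / 1000) (h0 : 0 ≤ w) (hl : w ≤ l) (hl1 : l ≤ 1) :
    UU ⟨w, 0⟩ + 1345 / 10000 - 1215 / 1000 * τ ≤
      V3 ⟨11 / 50, τ⟩ ⟨11 / 50 + 1 / 6, m⟩ 0 - V3 ⟨w, 0⟩ ⟨l, 0⟩ 0 := by
  obtain ⟨e, he, hp⟩ := chkT2 kR3 (by norm_num) (x := τ) (y := m) (by norm_num; linarith only [h2])
    (by norm_num; linarith only [h3]) (by norm_num; linarith only [m0]) (by norm_num; linarith only [m1])
  simp only [List.mem_cons, List.not_mem_nil, or_false] at he
  subst he
  simp only [nN, t0, t1, E.val, NumI.lkR] at hp
  push_cast at hp
  have hr := (uu_real_abs (x := l - w) (by linarith only [hl]) (by linarith only [h0, hl1])).1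
  unfold V3
  simp only [add_zero, sub_zero, UU_zero, UU_uu, pow_two, Complex.add_im, Complex.mul_im,
    Complex.sub_im, Complex.sub_re, Complex.add_re, Complex.re_ofNat, Complex.im_ofNat,
    Complex.mul_re]
  rw [show (22 : ℝ) / 100 = 11 / 50 by norm_num] at hp
  rw [show (11 : ℝ) / 50 + 1 / 6 - 11 / 50 = 1 / 6 by ring]
  linarith only [hp, hr]

end P1

end TL

end Pool.Agent.Work.MP_b30479_gt.G2
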