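import Pool.Agent.Work.MP_b30479_gt.G2.TL1a
import Pool.Agent.Work.MP_b30479_gt.G2.UAnti
import Pool.Agent.Work.NumU.TreeS

/-!
# Tails, the gains of the untouched regions: the new rows, part 2

An untouched interior three whose inner variable is far to the left.  Certificates generated.
-/

namespace Pool.Agent.Work.MP_b30479_gt.G2

open VOL NumU

namespace TL

namespace P1

section

open NumI (V)

/-! variables `X T Xo Yo` -/

def sX : E := E.var 0
def sT : E := E.var 1
def sZ : E := E.var 2
def sY : E := E.var 3
def sH : E := E.mul E.pi (E.q 1 2)

def sD (Tp W U : E) : E := E.add (E.sub (E.sub (E.sub (E.uu (E.add sZ (E.q 1 4)) (E.add sY sT)) W)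
    (E.mul (E.q 2 1) (E.uu (E.q 1 4) sT)))
  (E.mul sH (E.add (E.sub (E.mul (E.mul (E.q 2 1) (E.sub sZ (E.q 1 4))) (E.sub sY sT))
    (E.mul (E.mul (E.q 2 1) (E.sub sZ sX)) (E.sub sY Tp))) (E.sub sT Tp)))) U

def sJ : E := E.add (sD sT (E.uu (E.add sZ sX) (E.add sY sT)) (E.mul (E.q 2 1) (E.uu sX sT)))
  (E.add (E.q 51 1000) (E.mul (E.q 2 10) sT))
def sTp : E := E.mul (E.mul (E.q 20 1) sX) sT
def sR (W U : E) : E := E.add (E.sub (sD sTp W U) (E.mul E.pi sTp))
  (E.add (E.q 343 10000) (E.mul (E.q 3089 1000) sT))
def sUa : E := E.sub (E.mul (E.q 2 1) (E.uu (E.q 5 1000) (E.q 0 1)))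
  (E.mul E.pi (E.add (nN sTp) (E.mul (E.q 2 10) sX)))
def sUb : E := E.mul (E.q 2 1) (E.uu sX sTp)
def sVp : E := E.mul sH (E.add sY sTp)
def sV : E := E.uu (E.add sZ sX) (E.add sY sTp)
def rg : List E := [E.sub sY (E.mul (E.q 475 1000) sZ),
  E.sub sY (E.mul (E.q 38 100) (E.sub (E.q 65 100) sZ)),
  E.sub (nN (E.mul (E.q 955 1000) sZ)) sY,
  E.sub (nN (E.mul (E.q 764 1000) (E.sub (E.q 65 100) sZ))) sY]
def rgl : List E := rg ++ [E.sub (E.add sZ sX) (E.q 2 100)]
def rgr : List E := rg ++ [E.sub (E.q 2 100) (E.add sZ sX)]

theorem kJ1_q1 : Pool.Agent.Work.NumU.runT (sJ :: rg) 38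
    1172116804738267689491242844504108178060308861553817384168550004409137675023033432572368019486869857485894468066475616932715731932158966840464873355537044475819311676316336141219817626754437375946756630033428562671037093309992637111235267139995490826365239302369290861445176862579561619712190134528599542174670165533658766912414484234664969615437720219860475063696270775950614523175081180525193905756238462872967721247784284053799866228090418394581483500880200550905778169220010982067391930279117940608936382903941591401649237620255294862664020712135357580993783012625941021346467218395077365250797325834578232094039034023594725509382120114298841586956484607706292306737131638489652362337106502528683722858492470232671615716228479604294400291957517729107720501018950933597353868285197271322885940559531052274506365038811793686969622589169337369438885005784225433881511606694646406100474202020935211513243696940426722970985456638374659968742943955765829972876988494411444174816222588305356708091303584751329533240911484997435859799456532059685527372984557842330485145268087458988084803635210759843014865515288034002343823875132168644850368176402268650199011496416260058614822663946606718334736461690561424302800936482467791859070065808020356171884149001865425260814985594982506422874521930784810607106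
    (Pool.Agent.Work.NumI.setL 1 (Pool.Agent.Work.NumI.setL 0 ([V.of 10000 500 2000 4, V.of 10000 (-1140) 50 4, V.of 10000 0 6500 4, V.of 10000 (-1145) 570 4]))) =
    269385106273619616883964684071491233989198643309026301020104042527426635059124640741927410704829487501488568768576922989627324720307296519711392207180479277019733958735849440618844583444896522430707383951936347119630914196171992689144487430130608223277654280869714719339629071648397841883062365918542699649983595634468748795370596753520352288523856432953735927094343433743519584002351259025920175074324189807363829779000033455739909246266486026427409974543194437808875515954949355356087554220391633429305723395286799597644700276268616757088120496288053262853678897673903407352073126421347690214142358511214052009769090639234504727186045408477200562488889145326011444756942035303070583721623372236801170861677652840731552343123461879414117441012671667052626605258069534754311238170956714403070162703051736876520780360467190420036653246210419116590547715107413081063290116112008494477301438815381790337743262547945843251075567021992858622698334380435114925749510359743119700304669432645905792609471899646311102132446584604536734502070511178365500474075480149658354654781558598456261042358832199736138674573491184131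 := by
  decide +kernel

theorem kJ1_q2 : Pool.Agent.Work.NumU.runT (sJ :: rg) 38
    269385106273619616883964684071491233989198643309026301020104042527426635059124640741927410704829487501488568768576922989627324720307296519711392207180479277019733958735849440618844583444896522430707383951936347119630914196171992689144487430130608223277654280869714719339629071648397841883062365918542699649983595634468748795370596753520352288523856432953735927094343433743519584002351259025920175074324189807363829779000033455739909246266486026427409974543194437808875515954949355356087554220391633429305723395286799597644700276268616757088120496288053262853678897673903407352073126421347690214142358511214052009769090639234504727186045408477200562488889145326011444756942035303070583721623372236801170861677652840731552343123461879414117441012671667052626605258069534754311238170956714403070162703051736876520780360467190420036653246210419116590547715107413081063290116112008494477301438815381790337743262547945843251075567021992858622698334380435114925749510359743119700304669432645905792609471899646311102132446584604536734502070511178365500474075480149658354654781558598456261042358832199736138674573491184130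
    (Pool.Agent.Work.NumI.setR 1 (Pool.Agent.Work.NumI.setL 0 ([V.of 10000 500 2000 4, V.of 10000 (-1140) 50 4, V.of 10000 0 6500 4, V.of 10000 (-1145) 570 4]))) =
    51212575362230360237556705200346353763094014844444392791282174903484267718431992011184193766473193319947317559649086055731143478275800711290531692907875855439218096231200289967708647421281909202273521345730073537984355206551946480460772387494884648950296823802832718655660489584850184705759719352214509637961958164075546263793030715783970170193209572235843579007952774098729678123352446871132767107257290291522228852535329108056589068339317690696737241591585970903758788842413311902531045837983262876419660108463990329994823934207389557401168419548098207276106958340892387940312090706774278327882024274311711884489824870219147103022649793677662239310829892461974110527515117778040237870462428594567684374957934699695072768469779146356718319547692218283995817776511556884029795663279956795091525091478663899202527927903744683707710988764428967521791868419993343029883297197818807148158803411583449047059 := by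
  decide +kernel

theorem kJ1_q3 : Pool.Agent.Work.NumU.runT (sJ :: rg) 38
    3200785960139397514847294075021647110193375927777774549455135931467766732401999500699012110404574582496707347478067878483196467392237544455658230806742240964951131014450018122981790463830119325142095084108129596124022200409496655028798274218430290559393551487677044915978780599053136544109982459513406852372622385254721641487064419736498135637075598264740223687997048381170604882709527929445797944203580643220139303283458069253536816771207355668546077599474123181484924302650831993908190364873953929776228756778999395624676495887961847337573026221756137954756684896305774246269505669173392395492626517144481992780614054388696693938915612104853889956926868278873381907969694861127514866903901787160480273434870918730942048029361196647294894971730763642749738611031972305251862228954997299693220318217416493700157995493984042731731936797776810470111991776249583939367706074863675446759925213223965565441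
    (Pool.Agent.Work.NumI.setL 2 (Pool.Agent.Work.NumI.setR 0 ([V.of 10000 500 2000 4, V.of 10000 (-1140) 50 4, V.of 10000 0 6500 4, V.of 10000 (-1145) 570 4]))) =
    1626373903438675913895227717756261507999872647655656862057276738191164429925585825259684399434917874337427359597013663506779538863752732486778418485637932580873783625371557572025787354117151268373696775239642850424830846670346551512316674795775918347561496354307205029597478802682070598203184128476609144747228043000664098358863273935407256907523503945394402172896898016483717827315491368643061154031584136953976760418959037956061242452916423986592589554189206553061133534324421638170838737734761467642713807540225289254893946958675585753911979366503943098705613674456380428236609956075200665196344748693439437918486099686646795738243342595 := by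
  decide +kernel

theorem kJ1_q4 : Pool.Agent.Work.NumU.runT (sJ :: rg) 37
    101648368964917244618451732359766344249992040478478553878579796136947776870349114078730274964682367146089209974813353969173721178984545780423651155352370786304611476585722348251611709632321954273356048452477678151551927916896659469519792174735994896722593522144200314349842425167629412387699008029788071546701752687541506147428954620962953556720218996587150135806056126030232364207218210540191322126974008559623547526184939872253827653307276499162036847136825409566320845895276352385677421108422591727669612971264080578430871684917224109619498710406496443669100854653523776764788122254700041574771546793339964869905381230415424733640208912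
    (Pool.Agent.Work.NumI.setL 2 (Pool.Agent.Work.NumI.setR 2 (Pool.Agent.Work.NumI.setR 0 ([V.of 10000 500 2000 4, V.of 10000 (-1140) 50 4, V.of 10000 0 6500 4, V.of 10000 (-1145) 570 4])))) =
    2974279784225508441579221903876685001734428678658278811279048647293974714761063532952901897150956496485154127564694836496756697838117721217296828539676337393759151333702246456542365236629031378427922198334369631562319660659728373686355531946272314651866371645980203294907391895445808643259710355831512739698806492346405918782237951639987244884526295792954920313866271523962585934237773563395340044636224382114513922299739715498846763615106826957638329376890100166498174604565818466409017091005006644233084071055362267361681366706165648601347 := by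
  decide +kernel

theorem kJ1_q5 : Pool.Agent.Work.NumU.runT (sJ :: rg) 36
    185892486514094277598701368992292812608401792416142425704940540455873419672566470809556368571934781030322132972793427281047293614882357576081051783729771087109946958356390403533897827289314461151745137395898101972644978791233023355397220746642019665741648227873762705931711993465363040203731897239469546231175405771650369923889871977499202805282893487059682519616641970247661620889860847712208752789764023882157120143733732218677922725944176684852395586055631260406135912785363654150563568187812915264567754440960141710105085419135353037584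
    (Pool.Agent.Work.NumI.setL 2 (Pool.Agent.Work.NumI.setR 2 (Pool.Agent.Work.NumI.setR 2 (Pool.Agent.Work.NumI.setR 0 ([V.of 10000 500 2000 4, V.of 10000 (-1140) 50 4, V.of 10000 0 6500 4, V.of 10000 (-1145) 570 4]))))) =
    4092076666812075882480723194145184566381538473602322586626214087557274229128910397273693037724453483834456590591367882371093316683100593270690329923418317109043707396835462381613987751994333906070820532865850571793595342236269058186380499108442691949421786811491500724770165978629369766350699279985028314946432560429053221378843792328351959609095827320741007200996504982535230661998101275949175515342713395 := by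
  decide +kernel

theorem kJ1_q6 : Pool.Agent.Work.NumU.runT (sJ :: rg) 35
    255754791675754742655045199634074035398846154600145161664138380472329639320556899829605814857778342739653536911960492648193332292693787079418145620213644819315231712302216398850874234499645869129426283304115660737099708889766816136648781194277668246838861675718218795298135373664335610396918704999064269684152035026815826336177737020521997475568489207546312950062281561408451916374881329746823469708919587
    (Pool.Agent.Work.NumI.setL 2 (Pool.Agent.Work.NumI.setR 2 (Pool.Agent.Work.NumI.setR 2 (Pool.Agent.Work.NumI.setR 2 (Pool.Agent.Work.NumI.setR 0 ([V.of 10000 500 2000 4, V.of 10000 (-1140) 50 4, V.of 10000 0 6500 4, V.of 10000 (-1145) 570 4])))))) =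
    1584694301483999270694505900696888303049881259120066279073470333548525646785101965696325615668269238575516274995391030037100789375651430732484015210923551033081197771268626451413999600822014333349162666099278246707233390313476925665293115094957029119237973500997396465827115491190317619 := by
  decide +kernel

theorem kJ1_q7 : Pool.Agent.Work.NumU.runT (sJ :: rg) 34
    99043393842749954418406618793555518940617578695004142442091895846782852924068872856020350979266827410969767187211939377318799335978214420780250950682721939567574860704289153213374975051375895834322666631204890419202086894592307854080819693434814319952373343812337279114194718199394851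
    (Pool.Agent.Work.NumI.setL 2 (Pool.Agent.Work.NumI.setR 2 (Pool.Agent.Work.NumI.setR 2 (Pool.Agent.Work.NumI.setR 2 (Pool.Agent.Work.NumI.setR 2 (Pool.Agent.Work.NumI.setR 0 ([V.of 10000 500 2000 4, V.of 10000 (-1140) 50 4, V.of 10000 0 6500 4, V.of 10000 (-1145) 570 4]))))))) =
    2397216538841688907482190036917110743229508835924886483180902735635017092051775384719645737888326131576727490934546497809444058367686885675946671429135203258479556 := by
  decide +kernel

theorem kJ1_q8 : Pool.Agent.Work.NumU.runT (sJ :: rg) 34
    2397216538841688907482190036917110743229508835924886483180902735635017092051775384719645737888326131576727490934546497809444058367686885675946671429135203258479555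
    (Pool.Agent.Work.NumI.setR 2 (Pool.Agent.Work.NumI.setR 2 (Pool.Agent.Work.NumI.setR 2 (Pool.Agent.Work.NumI.setR 2 (Pool.Agent.Work.NumI.setR 2 (Pool.Agent.Work.NumI.setR 0 ([V.of 10000 500 2000 4, V.of 10000 (-1140) 50 4, V.of 10000 0 6500 4, V.of 10000 (-1145) 570 4]))))))) =
    1 := by
  decide +kernel

theorem kJ1 : chkT (sJ :: rg) 40
    0xaa828818810388128818818201881881188188110188181881088118818810188181881100ccc881880810c3c32288188101c328880081881188081881088110c3233c3a88188103888138818810188081880188081003aa8818810328818811881881108818810031cc8818810c3c388188001c32232a8818818810188088110388188018818810881218818811881881100388188118808188010c3c388188118808188010c3232883883388803288388338880321883883388388302888038808338838833211883883828830388088338832188388382188188108812310288823888231888132883883288803288388308832888232118880813888032888038880318881321028880388813288388813208882388823188823888031088188812388188388312088b2388388010880b3b3b22322883888032888038882321883883288388803218838830883883218838831881b332228880388388312888038838832188803883883018838831881b332220128881803883188813088180088180802c8812c38812881800c338883388803188803028880388128808202880883288803883188833888031888038831881b3b232228880288803888038830888038983218b3b3b2322202a88182388108818288108810388288218800c338880388803188803028880388328880302883888032883888031883883188388318b3b23222882883188388308838831883883198803b322220210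
    [V.of 10000 500 2000 4,
      V.of 10000 (-1140) 50 4,
      V.of 10000 0 6500 4,
      V.of 10000 (-1145) 570 4] = true :=
      Pool.Agent.Work.NumU.chkT_of (Pool.Agent.Work.NumU.runT_split rfl rfl rfl
        (Pool.Agent.Work.NumU.runT_split rfl rfl rfl
          kJ1_q1
          kJ1_q2)
        (Pool.Agent.Work.NumU.runT_split rfl rfl rfl
          kJ1_q3
          (Pool.Agent.Work.NumU.runT_split rfl rfl rfl
            kJ1_q4
            (Pool.Agent.Work.NumU.runT_split rfl rfl rfl
              kJ1_q5
              (Pool.Agent.Work.NumU.runT_split rfl rfl rfl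
                kJ1_q6
                (Pool.Agent.Work.NumU.runT_split rfl rfl rfl
                  kJ1_q7
                  kJ1_q8))))))

theorem kJ2a1 : chkT (sR (E.q 0 1) sUa :: rgl) 40
    0x881
    [V.of 10000 0 50 4,
      V.of 10000 (-1140) 50 4,
      V.of 10000 0 200 4,
      V.of 10000 (-200) 100 4] = true := by decide +kernel

theorem kJ2a2 : chkT (sR sV sUa :: rgr) 40
    0x8838288382821888188388083888038b2322222
    [V.of 10000 0 50 4,
      V.of 10000 (-1140) 50 4,
      V.of 10000 150 6500 4,
      V.of 10000 (-1145) 570 4] = true := by decide +kernel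

theorem kJ2b1 : chkT (sR sVp sUb :: sR (nN sVp) sUb :: rgl) 40
    0x880888001
    [V.of 10000 50 200 4,
      V.of 10000 (-1140) 50 4,
      V.of 10000 0 150 4,
      V.of 10000 (-150) 80 4] = true := by decide +kernel

theorem kJ2b2_q1 : Pool.Agent.Work.NumU.runT (sR sV sUb :: rgr) 38
    503166134964654052996622193393346265351238241430963235723312061280325750922047541285898148336290306447134903998229319805435616768807595301798528749239332391942196828266016451292923144089478837211247368826813609788849531399394784442042755180732940987232360622218995432488113218771328526827038479511181297773856288349182227051283256011169558148097334535953367743696166949034997006713825998373549502409530965369144522341244981446829972111854045975419367470132602740968214652420748166508080924193826851256029882071203848736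
    (Pool.Agent.Work.NumI.setL 1 (Pool.Agent.Work.NumI.setL 0 ([V.of 10000 50 500 4, V.of 10000 (-1140) 50 4, V.of 10000 0 6500 4, V.of 10000 (-1145) 570 4]))) =
    127149283905200055023533733147076413176743329815006049434003599487611609431776192290977591164549768372646472471565759158009256988853631680640053884626066694255494225926975119669184003488320944575248678442769988131458841846644655752198924718375875186001827361064936637490297212927755974206340861724652498132427722645036615263818169225050669064737 := by
  decide +kernel

theorem kJ2b2_q2 : Pool.Agent.Work.NumU.runT (sR sV sUb :: rgr) 38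
    127149283905200055023533733147076413176743329815006049434003599487611609431776192290977591164549768372646472471565759158009256988853631680640053884626066694255494225926975119669184003488320944575248678442769988131458841846644655752198924718375875186001827361064936637490297212927755974206340861724652498132427722645036615263818169225050669064736
    (Pool.Agent.Work.NumI.setR 1 (Pool.Agent.Work.NumI.setL 0 ([V.of 10000 50 500 4, V.of 10000 (-1140) 50 4, V.of 10000 0 6500 4, V.of 10000 (-1145) 570 4]))) =
    787835662128253257332649194357394280551334133132654776433254268508477616335578697455547058521520083803845008829179914527133998579072601823240152184387603075038457066030765683903639258397943879321813539280149353319266615697922 := by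
  decide +kernel

theorem kJ2b2_q3 : Pool.Agent.Work.NumU.runT (sR sV sUb :: rgr) 39
    787835662128253257332649194357394280551334133132654776433254268508477616335578697455547058521520083803845008829179914527133998579072601823240152184387603075038457066030765683903639258397943879321813539280149353319266615697921
    (Pool.Agent.Work.NumI.setR 0 ([V.of 10000 50 500 4, V.of 10000 (-1140) 50 4, V.of 10000 0 6500 4, V.of 10000 (-1145) 570 4])) =
    1 := by
  decide +kernel

theorem kJ2b2 : chkT (sR sV sUb :: rgr) 40
    0x88382828838288021881880088388308838830880830883883188388310988188103b32222288388318812881288802880883883983b3222882883883983b32221228838831880288128880188803883883088388083198813b3222220188382828808838838838b33988088103b322222888018802880288088088388308808388083098808838d2d0023b322222088388318802881288801883883088388308808388183098808880103b322222881828282883828828282108880088388308838830883838838b330988808328808d2d0203b322222010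
    [V.of 10000 50 500 4,
      V.of 10000 (-1140) 50 4,
      V.of 10000 0 6500 4,
      V.of 10000 (-1145) 570 4] = true :=
      Pool.Agent.Work.NumU.chkT_of (Pool.Agent.Work.NumU.runT_split rfl rfl rfl
        (Pool.Agent.Work.NumU.runT_split rfl rfl rfl
          kJ2b2_q1
          kJ2b2_q2)
        kJ2b2_q3)

/-! variables `w X T` -/

def bW : E := E.var 0
def bX : E := E.var 1
def bT : E := E.var 2
def bd : E := E.sub bX bW
def bB (U : E) (a b c : ℤ) : E := E.add (E.sub (E.sub U (E.uu bX bT))
  (E.mul E.pi (E.mul (E.sub (E.q 1 1) bW) bT)))
  (E.add (E.q a 10000) (E.add (E.mul (E.q b 10000) bW) (E.mul (E.q c 10000) bT)))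
def bp : E := E.uu bd bT
def bq : E := E.uu (E.q 2 100) bT
def bm : E := E.sub (E.mul sH bT) (E.q 158 10000)
def bn : E := E.sub (E.mul (E.q 2 1) bm) (E.uu (nN bd) bT)
def bTp : E := E.mul (E.mul (E.q 20 1) bX) bT
def bC : E := E.add (E.sub (E.sub (E.mul E.pi (E.mul bW bTp)) (E.uu (E.sub bW bX) bTp))
  (E.mul sH (E.add (nN bTp) (E.mul (E.q 2 10) bX))))
  (E.add (E.q (-1911) 10000) (E.sub (E.mul (E.q 11060 10000) bW) (E.mul (E.q 889 1000) bT)))

theorem kB1p : chkT [bB bp 43 2270 28890, E.sub (E.q 2 100) bd] 40
    0x8808882228829188282088288120199882919191001918818880812288291918828291019188088808122881829882919101191008808881812288289891018218828818210198808282919191018888122882881218818080828298828291019110088822882882118888211829188811828828291911018828821882880821880808282988282910111088088108288028818828818200821888018288082880808282118828882182082888820082828828818282082110100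
    [V.of 10000 0 1600 4,
      V.of 10000 500 2000 4,
      V.of 10000 (-1140) 50 4] = true := by decide +kernel

theorem kB1q : chkT [bB bq 43 2270 28890, E.sub bd (E.q 2 100), nN bd] 40
    0x888018822
    [V.of 10000 300 1600 4,
      V.of 10000 500 1800 4,
      V.of 10000 (-1140) 50 4] = true := by decide +kernel

theorem kB1m : chkT [bB bm 43 2270 28890, bd] 40
    0x882888221
    [V.of 10000 500 1600 4,
      V.of 10000 500 1600 4,
      V.of 10000 (-1140) 50 4] = true := by decide +kernel

theorem kB2p : chkT [bB bp (-2078) 11060 20000, E.sub (E.q 2 100) bd] 40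
    0x88282998829100188821820
    [V.of 10000 1600 1800 4,
      V.of 10000 1800 2000 4,
      V.of 10000 (-1140) 50 4] = true := by decide +kernel

theorem kB2q : chkT [bB bq (-2078) 11060 20000, E.sub bd (E.q 2 100), nN bd] 40
    0x882
    [V.of 10000 1600 2000 4,
      V.of 10000 1600 2000 4,
      V.of 10000 (-1140) 50 4] = true := by decide +kernel

theorem kB2m : chkT [bB bm (-2078) 11060 20000, bd, E.sub (nN bd) (E.q 16 100)] 40
    0x88288288021
    [V.of 10000 1600 3600 4,
      V.of 10000 500 2000 4,
      V.of 10000 (-1140) 50 4] = true := by decide +kernel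

theorem kB2n : chkT [bB bn (-2078) 11060 20000, E.sub (E.q 16 100) (nN bd)] 40
    0x88811890908880210
    [V.of 10000 2100 4000 4,
      V.of 10000 500 2000 4,
      V.of 10000 (-1140) 50 4] = true := by decide +kernel

theorem kC2 : chkT [bC] 40
    0x88882818100
    [V.of 10000 1600 4000 4,
      V.of 10000 0 500 4,
      V.of 10000 (-1140) 50 4] = true := by decide +kernel

/-! variables `τ T` -/

def aA (c a b : ℤ) : E := E.add (E.sub (E.sub (E.add (E.mul E.pi (E.sub (E.mul (E.q 85 100) t1)
    (E.mul (E.q 25 100) t0))) (E.uu (E.q 25 100) t1)) (E.uu (E.q 10 100) (E.sub t1 t0)))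
    (E.uu (E.q 15 100) t0))
  (E.add (nN (E.q a 10000)) (E.sub (E.mul (E.q c 10000) t0) (E.mul (E.q b 10000) t1)))
def aK : List E := [E.sub (E.q (-105) 1000) (E.sub t1 t0), E.sub (E.sub t1 t0) (E.q 84 1000)]

theorem kA1 : chkT (aA 8510 1545 30890 :: aK) 40
    0x8808081818818081088188000
    [V.of 10000 (-1145) 220 4,
      V.of 10000 (-1140) 50 4] = true := by decide +kernel

theorem kA2 : chkT (aA 5650 1010 22000 :: aK) 40
    0x881888010
    [V.of 10000 (-1145) 220 4,
      V.of 10000 (-1140) 50 4] = true := by decide +kernel

end

variable {w τ X T Z Y S x y : ℝ}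

/-! ### the value -/

noncomputable def Af (τ T : ℝ) : ℝ := Real.pi * (85 / 100 * T - 25 / 100 * τ) -
  uu (1 / 10) (T - τ) - uu (3 / 20) τ + uu (1 / 4) T

noncomputable def Bf (w X S : ℝ) : ℝ := -(Real.pi * ((1 - w) * S)) + uu (X - w) S - uu X S

noncomputable def Df (X T S Z Y : ℝ) : ℝ :=
  -(Real.pi / 2 * (2 * (Z - 1 / 4) * (Y - T) + T - 2 * (Z - X) * (Y - S) - S)) +
    uu (Z + 1 / 4) (Y + T) - uu (Z + X) (Y + S) - 2 * uu (1 / 4) T + 2 * uu X S

theorem V3_S : V3 ⟨3 / 20, τ⟩ ⟨1 / 4, T⟩ ⟨Z, Y⟩ - V3 ⟨w, 0⟩ ⟨X, S⟩ ⟨Z, Y⟩ =
    Af τ T + Bf w X S + uu w 0 + Df X T S Z Y := by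
  unfold V3 Af Bf Df
  simp only [UU_uu, pow_two, Complex.add_im, Complex.mul_im, Complex.sub_im, Complex.sub_re,
    Complex.add_re, Complex.re_ofNat, Complex.im_ofNat, Complex.mul_re]
  rw [show (1 : ℝ) / 4 - 3 / 20 = 1 / 10 by norm_num, sub_zero S, add_comm (1 / 4) Z, add_comm T Y,
    add_comm X Z, add_comm S Y]
  ring

/-! ### values near `0` -/

theorem uu_neg_re (x y : ℝ) : uu (-x) y = -uu x y - Real.pi * |y| := by
  have h1 := uu_one_sub x y
  have h2 := uu_add_one (-x) y
  rw [show -x + 1 = 1 - x by ring] at h2
  linarith only [h1, h2]

/-- to the left of `0` -/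
theorem uu_left_ge (h0 : 0 ≤ x) (h1 : x ≤ 16 / 100) (hy : |y| ≤ 114 / 1000) :
    -(Real.pi / 2 * |y|) ≤ uu (-x) y := by
  have h := Lr_neg (abs_nonneg y) hy h0 h1
  rw [uu_neg_re, uu_Lr]
  linarith only [h]

theorem uu_le_half (h0 : 0 ≤ x) (h1 : x ≤ 16 / 100) (hy : |y| ≤ 114 / 1000) :
    uu x y ≤ -(Real.pi / 2 * |y|) := by
  have h := Lr_neg (abs_nonneg y) hy h0 h1
  rw [uu_Lr]
  linarith only [h]

theorem abs_T (T0 : -(114 / 1000) ≤ T) (T1 : T ≤ 5 / 1000) :
    |T| ≤ 114 / 1000 ∧ Real.pi / 2 * |T| ≤ -(Real.pi / 2 * T) + 158 / 10000 := by
  have hpi := Real.pi_pos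
  have hpi4 : Real.pi < 3.1416 := Real.pi_lt_d4
  constructor
  · rw [abs_le]
    constructor <;> linarith only [T0, T1]
  · rcases le_total T 0 with h | h
    · rw [abs_of_nonpos h]
      linarith
    · rw [abs_of_nonneg h]
      have := mul_le_mul_of_nonneg_left T1 hpi.le
      linarith only [hpi4, this]

/-! ### the new part -/

theorem aK_val (s0 : -(105 / 1000) ≤ T - τ) (s1 : T - τ ≤ 84 / 1000) :
    ∀ e ∈ aK, ¬ 0 < e.val [τ, T] := by
  intro e he hp
  simp only [aK, List.mem_cons, List.not_mem_nil, or_false] at he
  rcases he with rfl | rfl <;>
  · simp only [t0, t1, E.val, NumI.lkR] at hp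
    push_cast at hp
    linarith only [s0, hp, s1]

theorem aA_val (c a b : ℤ) : (aA c a b).val [τ, T] =
    Af τ T - (a : ℝ) / 10000 + (c : ℝ) / 10000 * τ - (b : ℝ) / 10000 * T := by
  simp only [aA, nN, t0, t1, E.val, NumI.lkR, Af]
  push_cast
  rw [show (10 : ℝ) / 100 = 1 / 10 by norm_num, show (15 : ℝ) / 100 = 3 / 20 by norm_num,
    show (25 : ℝ) / 100 = 1 / 4 by norm_num]
  ring

theorem A1 (h0 : -(1145 / 10000) ≤ τ) (h1 : τ ≤ 22 / 1000) (T0 : -(114 / 1000) ≤ T)
    (T1 : T ≤ 5 / 1000) (s0 : -(105 / 1000) ≤ T - τ) (s1 : T - τ ≤ 84 / 1000) :
    1545 / 10000 + 30890 / 10000 * T ≤ Af τ T + 851 / 1000 * τ := by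
  obtain ⟨e, he, hp⟩ := chkT2 kA1 (by norm_num) (x := τ) (y := T) (by norm_num; linarith only [h0])
    (by norm_num; linarith only [h1]) (by norm_num; linarith only [T0]) (by norm_num; linarith only [T1])
  rcases List.mem_cons.1 he with rfl | he
  · rw [aA_val] at hp
    push_cast at hp
    linarith only [hp]
  · exact absurd hp (aK_val s0 s1 e he)

theorem A2 (h0 : -(1145 / 10000) ≤ τ) (h1 : τ ≤ 22 / 1000) (T0 : -(114 / 1000) ≤ T)
    (T1 : T ≤ 5 / 1000) (s0 : -(105 / 1000) ≤ T - τ) (s1 : T - τ ≤ 84 / 1000) :
    1010 / 10000 + 22000 / 10000 * T ≤ Af τ T + 565 / 1000 * τ := by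
  obtain ⟨e, he, hp⟩ := chkT2 kA2 (by norm_num) (x := τ) (y := T) (by norm_num; linarith only [h0])
    (by norm_num; linarith only [h1]) (by norm_num; linarith only [T0]) (by norm_num; linarith only [T1])
  rcases List.mem_cons.1 he with rfl | he
  · rw [aA_val] at hp
    push_cast at hp
    linarith only [hp]
  · exact absurd hp (aK_val s0 s1 e he)

/-! ### the old part, `w` -/

theorem bB_val (U : E) (a b c : ℤ) : (bB U a b c).val [w, X, T] =
    U.val [w, X, T] - uu X T - Real.pi * ((1 - w) * T) +
      ((a : ℝ) / 10000 + (b : ℝ) / 10000 * w + (c : ℝ) / 10000 * T) := by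
  simp only [bB, bX, bT, bW, E.val, NumI.lkR]
  push_cast
  norm_num
  ring

theorem bm_val : bm.val [w, X, T] = Real.pi / 2 * T - 158 / 10000 := by
  simp only [bm, sH, bT, E.val, NumI.lkR]
  push_cast
  ring

theorem bd_val : bd.val [w, X, T] = X - w := by
  simp only [bd, bX, bW, E.val, NumI.lkR]

theorem Bbound (a b c : ℤ) (h0 : 0 ≤ w) (X0 : 5 / 100 ≤ X)
    (X1 : X ≤ 2 / 10) (T0 : -(114 / 1000) ≤ T) (T1 : T ≤ 5 / 1000)
    (kp : 2 / 100 ≤ X - w → 0 < (bB bp a b c).val [w, X, T])
    (kq : 0 ≤ X - w → X - w ≤ 2 / 100 → 0 < (bB bq a b c).val [w, X, T])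
    (km : X - w ≤ 0 → w - X ≤ 16 / 100 → 0 < (bB bm a b c).val [w, X, T])
    (kn : 16 / 100 ≤ w - X → 0 < (bB bn a b c).val [w, X, T]) :
    0 ≤ Bf w X T + ((a : ℝ) / 10000 + (b : ℝ) / 10000 * w + (c : ℝ) / 10000 * T) := by
  obtain ⟨hT, hT2⟩ := abs_T T0 T1
  unfold Bf
  rcases le_total (2 / 100) (X - w) with h | h
  · have := kp h
    rw [bB_val] at this
    have e : bp.val [w, X, T] = uu (X - w) T := rfl
    rw [e] at this
    linarith only [this]
  rcases le_total 0 (X - w) with h' | h'
  · have := kq h' h
    rw [bB_val] at this
    have e : bq.val [w, X, T] = uu (2 / 100) T := by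
      simp only [bq, bT, E.val, NumI.lkR]
      push_cast
      rfl
    rw [e] at this
    have h2 := UA.anti UA.kc_7_13 (by norm_num) (a := X - w) (b := 2 / 100) (y := T) (by linarith only [h'])
      h (by norm_num) (by linarith only [hT])
    linarith only [this, h2]
  rcases le_total (w - X) (16 / 100) with h3 | h3
  · have := km h' h3
    rw [bB_val, bm_val] at this
    have h4 := uu_left_ge (x := w - X) (by linarith only [h']) h3 hT
    rw [neg_sub] at h4
    linarith only [hT2, this, h4]
  · have := kn h3
    rw [bB_val] at this
    have e : bn.val [w, X, T] = 2 * (Real.pi / 2 * T - 158 / 10000) - uu (w - X) T := by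
      have e1 : bn.val [w, X, T] = ((2 : ℤ) : ℝ) / ((1 : ℕ) : ℝ) * bm.val [w, X, T] -
        uu ((nN bd).val [w, X, T]) T := rfl
      rw [e1, bm_val, nN_val, bd_val, neg_sub]
      norm_num
    rw [e] at this
    have h4 := uu_neg_re (w - X) T
    rw [neg_sub] at h4
    linarith only [hT2, this, h4]

theorem B1 (h0 : 0 ≤ w) (h1 : w ≤ 16 / 100) (X0 : 5 / 100 ≤ X)
    (X1 : X ≤ 2 / 10) (T0 : -(114 / 1000) ≤ T) (T1 : T ≤ 5 / 1000) :
    0 ≤ Bf w X T + (43 / 10000 + 2270 / 10000 * w + 28890 / 10000 * T) := by
  have := Bbound (w := w) (X := X) (T := T) 43 2270 28890 h0 X0 X1 T0 T1 ?_ ?_ ?_ ?_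
  · push_cast at this
    exact this
  · intro h
    obtain ⟨e, he, hp⟩ := chkT3 kB1p (by norm_num) (x := w) (y := X) (z := T)
      (by norm_num; linarith only [h0]) (by norm_num; linarith only [h1]) (by norm_num; linarith only [X0])
      (by norm_num; linarith only [X1]) (by norm_num; linarith only [T0]) (by norm_num; linarith only [T1])
    simp only [List.mem_cons, List.not_mem_nil, or_false] at he
    rcases he with rfl | rfl
    · exact hp
    · simp only [bd, bX, bW, E.val, NumI.lkR] at hp
      push_cast at hp
      linarith only [h, hp]
  · intro h h'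
    obtain ⟨e, he, hp⟩ := chkT3 kB1q (by norm_num) (x := w) (y := X) (z := T)
      (by norm_num; linarith only [X0, h']) (by norm_num; linarith only [h1]) (by norm_num; linarith only [X0])
      (by norm_num; linarith only [h1, h']) (by norm_num; linarith only [T0]) (by norm_num; linarith only [T1])
    simp only [List.mem_cons, List.not_mem_nil, or_false] at he
    rcases he with rfl | rfl | rfl
    · exact hp
    all_goals
      simp only [nN, bd, bX, bW, E.val, NumI.lkR] at hp
      push_cast at hp
      linarith only [h', hp, h]
  · intro h h'
    obtain ⟨e, he, hp⟩ := chkT3 kB1m (by norm_num) (x := w) (y := X) (z := T)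
      (by norm_num; linarith only [X0, h]) (by norm_num; linarith only [h1]) (by norm_num; linarith only [X0])
      (by norm_num; linarith only [h1, h]) (by norm_num; linarith only [T0]) (by norm_num; linarith only [T1])
    simp only [List.mem_cons, List.not_mem_nil, or_false] at he
    rcases he with rfl | rfl
    · exact hp
    all_goals
      simp only [nN, bd, bX, bW, E.val, NumI.lkR] at hp
      linarith only [h, hp]
  · intro h
    linarith only [h1, X0, h]

theorem B2 (h0 : 16 / 100 ≤ w) (h1 : w ≤ 2 / 5) (X0 : 5 / 100 ≤ X)
    (X1 : X ≤ 2 / 10) (T0 : -(114 / 1000) ≤ T) (T1 : T ≤ 5 / 1000) :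
    0 ≤ Bf w X T + (-2078 / 10000 + 11060 / 10000 * w + 20000 / 10000 * T) := by
  have := Bbound (w := w) (X := X) (T := T) (-2078) 11060 20000 (by linarith only [h0]) X0 X1 T0 T1 ?_ ?_ ?_ ?_
  · push_cast at this
    exact this
  · intro h
    obtain ⟨e, he, hp⟩ := chkT3 kB2p (by norm_num) (x := w) (y := X) (z := T)
      (by norm_num; linarith only [h0]) (by norm_num; linarith only [X1, h]) (by norm_num; linarith only [h0, h])
      (by norm_num; linarith only [X1]) (by norm_num; linarith only [T0]) (by norm_num; linarith only [T1])
    simp only [List.mem_cons, List.not_mem_nil, or_false] at he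
    rcases he with rfl | rfl
    · exact hp
    · simp only [bd, bX, bW, E.val, NumI.lkR] at hp
      push_cast at hp
      linarith only [h, hp]
  · intro h h'
    obtain ⟨e, he, hp⟩ := chkT3 kB2q (by norm_num) (x := w) (y := X) (z := T)
      (by norm_num; linarith only [h0]) (by norm_num; linarith only [X1, h]) (by norm_num; linarith only [h0, h])
      (by norm_num; linarith only [X1]) (by norm_num; linarith only [T0]) (by norm_num; linarith only [T1])
    simp only [List.mem_cons, List.not_mem_nil, or_false] at he
    rcases he with rfl | rfl | rfl
    · exact hp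
    all_goals
      simp only [nN, bd, bX, bW, E.val, NumI.lkR] at hp
      push_cast at hp
      linarith only [h', hp, h]
  · intro h h'
    obtain ⟨e, he, hp⟩ := chkT3 kB2m (by norm_num) (x := w) (y := X) (z := T)
      (by norm_num; linarith only [h0]) (by norm_num; linarith only [X1, h']) (by norm_num; linarith only [X0])
      (by norm_num; linarith only [X1]) (by norm_num; linarith only [T0]) (by norm_num; linarith only [T1])
    simp only [List.mem_cons, List.not_mem_nil, or_false] at he
    rcases he with rfl | rfl | rfl
    · exact hp
    all_goals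
      simp only [nN, bd, bX, bW, E.val, NumI.lkR] at hp
      push_cast at hp
      linarith only [h, hp, h']
  · intro h
    obtain ⟨e, he, hp⟩ := chkT3 kB2n (by norm_num) (x := w) (y := X) (z := T)
      (by norm_num; linarith only [X0, h]) (by norm_num; linarith only [h1]) (by norm_num; linarith only [X0])
      (by norm_num; linarith only [X1]) (by norm_num; linarith only [T0]) (by norm_num; linarith only [T1])
    simp only [List.mem_cons, List.not_mem_nil, or_false] at he
    rcases he with rfl | rfl
    · exact hp
    · simp only [nN, bd, bX, bW, E.val, NumI.lkR] at hp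
      push_cast at hp
      linarith only [h, hp]

/-! ### the old part, the other hinge -/

theorem rg_val (ho : RgW Z Y) : ∀ e ∈ rg, ¬ 0 < e.val [X, T, Z, Y] := by
  obtain ⟨g1, g2, g3, g4, g5, g6, g7, g8⟩ := ho
  intro e he hp
  simp only [rg, List.mem_cons, List.not_mem_nil, or_false] at he
  rcases he with rfl | rfl | rfl | rfl <;>
  · simp only [nN, sY, sZ, E.val, NumI.lkR] at hp
    push_cast at hp
    linarith only [g3, hp, g5, g6, g8]

theorem rgl_val (ho : RgW Z Y) (h : Z + X ≤ 2 / 100) : ∀ e ∈ rgl, ¬ 0 < e.val [X, T, Z, Y] := by
  intro e he hp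
  simp only [rgl, List.mem_append, List.mem_cons, List.not_mem_nil, or_false] at he
  rcases he with he | rfl
  · exact rg_val ho e he hp
  · simp only [sX, sZ, E.val, NumI.lkR] at hp
    push_cast at hp
    linarith only [h, hp]

theorem rgr_val (ho : RgW Z Y) (h : 2 / 100 ≤ Z + X) : ∀ e ∈ rgr, ¬ 0 < e.val [X, T, Z, Y] := by
  intro e he hp
  simp only [rgr, List.mem_append, List.mem_cons, List.not_mem_nil, or_false] at he
  rcases he with he | rfl
  · exact rg_val ho e he hp
  · simp only [sX, sZ, E.val, NumI.lkR] at hp
    push_cast at hp
    linarith only [h, hp]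

theorem sD_val (P W U : E) : (sD P W U).val [X, T, Z, Y] =
    uu (Z + 1 / 4) (Y + T) - W.val [X, T, Z, Y] - 2 * uu (1 / 4) T -
      Real.pi / 2 * (2 * (Z - 1 / 4) * (Y - T) - 2 * (Z - X) * (Y - P.val [X, T, Z, Y]) +
        (T - P.val [X, T, Z, Y])) + U.val [X, T, Z, Y] := by
  simp only [sD, sH, sX, sT, sZ, sY, E.val, NumI.lkR]
  push_cast
  ring

theorem sTp_val : sTp.val [X, T, Z, Y] = 20 * X * T := by
  simp only [sTp, sX, sT, E.val, NumI.lkR]
  push_cast
  ring

theorem J1 (X0 : 5 / 100 ≤ X) (X1 : X ≤ 2 / 10) (T0 : -(114 / 1000) ≤ T) (T1 : T ≤ 5 / 1000)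
    (ho : RgW Z Y) : -(51 / 1000) - 2 / 10 * T ≤ Df X T T Z Y := by
  have ho' := ho
  obtain ⟨g1, g2, g3, g4, g5, g6, g7, g8⟩ := ho'
  obtain ⟨e, he, hp⟩ := chkT4 kJ1 (by norm_num) (x := X) (y := T) (z := Z) (w := Y)
    (by norm_num; linarith only [X0]) (by norm_num; linarith only [X1]) (by norm_num; linarith only [T0])
    (by norm_num; linarith only [T1]) (by norm_num; linarith only [g1]) (by norm_num; linarith only [g2])
    (by norm_num; linarith only [g7]) (by norm_num; linarith only [g4])
  rcases List.mem_cons.1 he with rfl | he
  · have e1 : sJ.val [X, T, Z, Y] = (sD sT (E.uu (E.add sZ sX) (E.add sY sT))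
        (E.mul (E.q 2 1) (E.uu sX sT))).val [X, T, Z, Y] + (51 / 1000 + 2 / 10 * T) := by
      simp only [sJ, sT, E.val, NumI.lkR]
      push_cast
      rfl
    rw [e1, sD_val] at hp
    unfold Df
    simp only [sX, sT, sZ, sY, E.val, NumI.lkR] at hp
    push_cast at hp
    norm_num at hp
    linarith only [hp]
  · exact absurd hp (rg_val ho e he)

theorem ramp (X0 : 0 ≤ X) (X1 : X ≤ 5 / 100) (T0 : -(114 / 1000) ≤ T) (T1 : T ≤ 5 / 1000) :
    -(228 / 100 * X) ≤ 20 * X * T ∧ 20 * X * T ≤ 1 / 10 * X ∧
      |20 * X * T| ≤ -(20 * X * T) + 2 / 10 * X ∧ |20 * X * T| ≤ 114 / 1000 := by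
  have h1 : X * (-(114 / 1000)) ≤ X * T := mul_le_mul_of_nonneg_left T0 X0
  have h2 : X * T ≤ X * (5 / 1000) := mul_le_mul_of_nonneg_left T1 X0
  have h3 : 20 * X * T = 20 * (X * T) := by ring
  refine ⟨by linarith only [h1], by linarith only [h2], ?_, ?_⟩
  · rw [abs_le]
    constructor <;> linarith only [X0, h2]
  · rw [abs_le]
    constructor <;> linarith only [X1, h1, h2]

theorem J2 (X0 : 0 ≤ X) (X1 : X ≤ 5 / 100) (T0 : -(114 / 1000) ≤ T) (T1 : T ≤ 5 / 1000)
    (ho : RgW Z Y) : -(343 / 10000) - 3089 / 1000 * T ≤
      Df X T (20 * X * T) Z Y - Real.pi * (20 * X * T) := by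
  have hpi := Real.pi_pos
  have ho' := ho
  obtain ⟨g1, g2, g3, g4, g5, g6, g7, g8⟩ := ho'
  obtain ⟨r1, r2, r3, r4⟩ := ramp X0 X1 T0 T1
  have r5 := mul_le_mul_of_nonneg_left r3 hpi.le
  have fin : ∀ {W U : E}, 0 < (sR W U).val [X, T, Z, Y] →
      uu (Z + X) (Y + 20 * X * T) ≤ W.val [X, T, Z, Y] →
      U.val [X, T, Z, Y] ≤ 2 * uu X (20 * X * T) →
      -(343 / 10000) - 3089 / 1000 * T ≤
      Df X T (20 * X * T) Z Y - Real.pi * (20 * X * T) := by
    intro W U hp h1 h2
    have e1 : (sR W U).val [X, T, Z, Y] = (sD sTp W U).val [X, T, Z, Y] -
        Real.pi * sTp.val [X, T, Z, Y] + (343 / 10000 + 3089 / 1000 * T) := by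
      simp only [sR, sT, E.val, NumI.lkR]
      push_cast
      rfl
    rw [e1, sD_val, sTp_val] at hp
    unfold Df
    linarith only [hp, h1, h2]
  have vU : X ≤ 5 / 1000 → sUa.val [X, T, Z, Y] ≤ 2 * uu X (20 * X * T) := by
    intro hx
    have e1 : sUa.val [X, T, Z, Y] = 2 * uu (5 / 1000) 0 -
        Real.pi * (-(20 * X * T) + 2 / 10 * X) := by
      have e2 : sUa.val [X, T, Z, Y] = ((2 : ℤ) : ℝ) / ((1 : ℕ) : ℝ) *
        uu (((5 : ℤ) : ℝ) / ((1000 : ℕ) : ℝ)) (((0 : ℤ) : ℝ) / ((1 : ℕ) : ℝ)) -
        Real.pi * ((nN sTp).val [X, T, Z, Y] + ((2 : ℤ) : ℝ) / ((10 : ℕ) : ℝ) * X) := rfl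
      rw [e2, nN_val, sTp_val]
      push_cast
      rw [zero_div]
      norm_num
    have a1 := Lr_le_left (ε := X) le_rfl (abs_nonneg (20 * X * T)) X0
    have a2 := Lr_anti (s := 0) le_rfl (by norm_num) X0 hx (by norm_num)
    have a3 := uu_Lr (5 / 1000) 0
    rw [abs_zero] at a3
    rw [e1, uu_Lr X]
    linarith only [r5, a1, a2, a3]
  have vUb : sUb.val [X, T, Z, Y] = 2 * uu X (20 * X * T) := by
    have e2 : sUb.val [X, T, Z, Y] = ((2 : ℤ) : ℝ) / ((1 : ℕ) : ℝ) *
      uu X (sTp.val [X, T, Z, Y]) := rfl
    rw [e2, sTp_val]
    norm_num
  have vV : sV.val [X, T, Z, Y] = uu (Z + X) (Y + 20 * X * T) := by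
    have e2 : sV.val [X, T, Z, Y] = uu (Z + X) (Y + sTp.val [X, T, Z, Y]) := rfl
    rw [e2, sTp_val]
  have vVp : sVp.val [X, T, Z, Y] = Real.pi / 2 * (Y + 20 * X * T) := by
    have e2 : sVp.val [X, T, Z, Y] = Real.pi * (((1 : ℤ) : ℝ) / ((2 : ℕ) : ℝ)) *
      (Y + sTp.val [X, T, Z, Y]) := rfl
    rw [e2, sTp_val]
    push_cast
    ring
  rcases le_total (Z + X) (2 / 100) with hs | hs
  · have hlo := uu_le_half (x := Z + X) (y := Y + 20 * X * T) (by linarith only [X0, g1]) (by linarith only [hs])
      (by rw [abs_le]; constructor <;> linarith only [X1, g6, r1, hs, g4, r2])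
    have hab : 0 ≤ Real.pi / 2 * |Y + 20 * X * T| := by positivity
    rcases le_total X (5 / 1000) with hx | hx
    · obtain ⟨e, he, hp⟩ := chkT4 kJ2a1 (by norm_num) (x := X) (y := T) (z := Z) (w := Y)
        (by norm_num; linarith only [X0]) (by norm_num; linarith only [hx]) (by norm_num; linarith only [T0])
        (by norm_num; linarith only [T1]) (by norm_num; linarith only [g1]) (by norm_num; linarith only [X0, hs])
        (by norm_num; linarith only [X0, g6, hs]) (by norm_num; linarith only [X0, g3, hs])
      rcases List.mem_cons.1 he with rfl | he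
      · refine fin hp ?_ (vU hx)
        have e0 : (E.q 0 1).val [X, T, Z, Y] = 0 := by
          simp only [E.val]
          norm_num
        rw [e0]
        linarith only [hlo, hab]
      · exact absurd hp (rgl_val ho hs e he)
    · obtain ⟨e, he, hp⟩ := chkT4 kJ2b1 (by norm_num) (x := X) (y := T) (z := Z) (w := Y)
        (by norm_num; linarith only [hx]) (by norm_num; linarith only [g1, hs]) (by norm_num; linarith only [T0])
        (by norm_num; linarith only [T1]) (by norm_num; linarith only [g1]) (by norm_num; linarith only [hs, hx])
        (by norm_num; linarith only [g6, hs, hx]) (by norm_num; linarith only [g3, hs, hx])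
      have h1 := mul_le_mul_of_nonneg_left (neg_le_abs (Y + 20 * X * T))
        (show 0 ≤ Real.pi / 2 by positivity)
      have h2 := mul_le_mul_of_nonneg_left (le_abs_self (Y + 20 * X * T))
        (show 0 ≤ Real.pi / 2 by positivity)
      rcases List.mem_cons.1 he with rfl | he
      · refine fin hp ?_ vUb.le
        rw [vVp]
        linarith only [hlo, h1]
      rcases List.mem_cons.1 he with rfl | he
      · refine fin hp ?_ vUb.le
        rw [nN_val, vVp]
        linarith only [hlo, h2]
      · exact absurd hp (rgl_val ho hs e he)
  · rcases le_total X (5 / 1000) with hx | hx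
    · obtain ⟨e, he, hp⟩ := chkT4 kJ2a2 (by norm_num) (x := X) (y := T) (z := Z) (w := Y)
        (by norm_num; linarith only [X0]) (by norm_num; linarith only [hx]) (by norm_num; linarith only [T0])
        (by norm_num; linarith only [T1]) (by norm_num; linarith only [hs, hx]) (by norm_num; linarith only [g2])
        (by norm_num; linarith only [g7]) (by norm_num; linarith only [g4])
      rcases List.mem_cons.1 he with rfl | he
      · exact fin hp vV.ge (vU hx)
      · exact absurd hp (rgr_val ho hs e he)
    · obtain ⟨e, he, hp⟩ := chkT4 kJ2b2 (by norm_num) (x := X) (y := T) (z := Z) (w := Y)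
        (by norm_num; linarith only [hx]) (by norm_num; linarith only [X1]) (by norm_num; linarith only [T0])
        (by norm_num; linarith only [T1]) (by norm_num; linarith only [g1]) (by norm_num; linarith only [g2])
        (by norm_num; linarith only [g7]) (by norm_num; linarith only [g4])
      rcases List.mem_cons.1 he with rfl | he
      · exact fin hp vV.ge vUb.le
      · exact absurd hp (rgr_val ho hs e he)

/-! ### the ramp, `w` -/

theorem C1 (h0 : 0 ≤ w) (h1 : w ≤ 16 / 100) (X0 : 0 ≤ X) (X1 : X ≤ 5 / 100)
    (T0 : -(114 / 1000) ≤ T) (T1 : T ≤ 5 / 1000) :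
    -(210 / 10000) ≤ Bf w X (20 * X * T) + Real.pi * (20 * X * T) + 227 / 1000 * w := by
  have hpi := Real.pi_pos
  have hpi4 : Real.pi < 3.1416 := Real.pi_lt_d4
  obtain ⟨r1, r2, r3, r4⟩ := ramp X0 X1 T0 T1
  set S := 20 * X * T with hS
  have key : uu X S ≤ uu (X - w) S := by
    rcases le_total (w - X) (7 / 100) with h | h
    · exact UA.anti UA.kc_7_13 (by norm_num) (a := X - w) (b := X) (y := S) (by linarith only [h])
        (by linarith only [h0]) (by linarith only [X1]) (by linarith only [X1, r1, r3])
    · have a1 := uu_left_ge (x := w - X) (by linarith only [h]) (by linarith only [h1, X0]) r4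
      have a2 := uu_le_half (x := X) X0 (by linarith only [h1, h]) r4
      rw [neg_sub] at a1
      linarith only [a1, a2]
  have hm : -(358143 / 1000000) ≤ Real.pi * S := by
    have h3 : Real.pi * (-(114 / 1000)) ≤ Real.pi * S :=
      mul_le_mul_of_nonneg_left (by linarith only [X1, r1]) hpi.le
    linarith only [hpi4, h3]
  have hw := mul_le_mul_of_nonneg_left hm h0
  unfold Bf
  have e : Real.pi * ((1 - w) * S) = Real.pi * S - w * (Real.pi * S) := by ring
  rw [e]
  linarith only [h1, key, hw]

theorem C2 (h0 : 16 / 100 ≤ w) (h1 : w ≤ 2 / 5) (X0 : 0 ≤ X) (X1 : X ≤ 5 / 100)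
    (T0 : -(114 / 1000) ≤ T) (T1 : T ≤ 5 / 1000) :
    1911 / 10000 + 889 / 1000 * T ≤
      Bf w X (20 * X * T) + Real.pi * (20 * X * T) + 11060 / 10000 * w := by
  have hpi := Real.pi_pos
  obtain ⟨r1, r2, r3, r4⟩ := ramp X0 X1 T0 T1
  have r5 := mul_le_mul_of_nonneg_left r3 hpi.le
  obtain ⟨e, he, hp⟩ := chkT3 kC2 (by norm_num) (x := w) (y := X) (z := T)
    (by norm_num; linarith only [h0]) (by norm_num; linarith only [h1]) (by norm_num; linarith only [X0])
    (by norm_num; linarith only [X1]) (by norm_num; linarith only [T0]) (by norm_num; linarith only [T1])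
  simp only [List.mem_cons, List.not_mem_nil, or_false] at he
  subst he
  have e1 : bTp.val [w, X, T] = 20 * X * T := by
    simp only [bTp, bX, bT, E.val, NumI.lkR]
    push_cast
    ring
  have e2 : bC.val [w, X, T] = Real.pi * (w * bTp.val [w, X, T]) -
      uu (w - X) (bTp.val [w, X, T]) -
      Real.pi * (((1 : ℤ) : ℝ) / ((2 : ℕ) : ℝ)) * ((nN bTp).val [w, X, T] +
        ((2 : ℤ) : ℝ) / ((10 : ℕ) : ℝ) * X) +
      (((-1911 : ℤ) : ℝ) / ((10000 : ℕ) : ℝ) + (((11060 : ℤ) : ℝ) / ((10000 : ℕ) : ℝ) * w -
        ((889 : ℤ) : ℝ) / ((1000 : ℕ) : ℝ) * T)) := rfl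
  rw [e2, nN_val, e1] at hp
  push_cast at hp
  have a1 := uu_neg_re (w - X) (20 * X * T)
  rw [neg_sub] at a1
  have a2 := uu_le_half (x := X) X0 (by linarith only [X1]) r4
  unfold Bf
  have e : Real.pi * ((1 - w) * (20 * X * T)) =
    Real.pi * (20 * X * T) - Real.pi * (w * (20 * X * T)) := by ring
  rw [e]
  linarith only [r5, hp, a1, a2]

/-- **An untouched interior three whose inner variable is far to the left.** -/
theorem threeS (h0 : 0 ≤ w) (h1 : w ≤ 2 / 5) (t0 : -(1145 / 10000) ≤ τ) (t1 : τ ≤ 22 / 1000)
    (X0 : 0 ≤ X) (X1 : X ≤ 2 / 10) (T0 : -(114 / 1000) ≤ T) (T1 : T ≤ 5 / 1000)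
    (s0 : -(105 / 1000) ≤ T - τ) (s1 : T - τ ≤ 84 / 1000) (ho : RgW Z Y) :
    (w ≤ 4 / 25 → UU ⟨w, 0⟩ + 62 / 625 - 227 / 1000 * w - 851 / 1000 * τ ≤
      V3 ⟨3 / 20, τ⟩ ⟨1 / 4, T⟩ ⟨Z, Y⟩ -
        V3 ⟨w, 0⟩ ⟨X, T * min 1 (X / (5 / 100))⟩ ⟨Z, Y⟩) ∧
    (4 / 25 ≤ w → UU ⟨w, 0⟩ + 1289 / 5000 - 553 / 500 * w - 113 / 200 * τ ≤
      V3 ⟨3 / 20, τ⟩ ⟨1 / 4, T⟩ ⟨Z, Y⟩ -
        V3 ⟨w, 0⟩ ⟨X, T * min 1 (X / (5 / 100))⟩ ⟨Z, Y⟩) := by
  rw [V3_S, UU_uu]
  simp only
  have a1 := A1 t0 t1 T0 T1 s0 s1
  have a2 := A2 t0 t1 T0 T1 s0 s1
  rcases le_total X (5 / 100) with h | h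
  · have e : T * min 1 (X / (5 / 100)) = 20 * X * T := by
      rw [min_eq_right (by rw [div_le_one (by norm_num)]; exact h)]
      ring
    rw [e]
    have d := J2 X0 h T0 T1 ho
    constructor
    · intro hw
      have := C1 h0 (by linarith only [hw]) X0 h T0 T1
      linarith only [a1, d, this]
    · intro hw
      have := C2 (by linarith only [hw]) h1 X0 h T0 T1
      linarith only [a2, d, this]
  · have e : T * min 1 (X / (5 / 100)) = T := by
      rw [min_eq_left (by rw [le_div_iff₀ (by norm_num)]; linarith only [h]), mul_one]
    rw [e]
    have d := J1 h X1 T0 T1 ho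
    constructor
    · intro hw
      have := B1 h0 (by linarith only [hw]) h X1 T0 T1
      linarith only [a1, d, this]
    · intro hw
      have := B2 (by linarith only [hw]) h1 h X1 T0 T1
      linarith only [a2, d, this]

end P1

end TL

end Pool.Agent.Work.MP_b30479_gt.G2
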