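import Pool.Agent.Work.MP_b30479_gt.G2.TL2uA
import Pool.Agent.Work.MP_b30479_gt.G2.TE4
import Pool.Agent.Work.MP_b30479_gt.G2.TDef3
import Pool.Agent.Work.NumU.GenD

/-!
# Tails, PART 2: the lines of the slot `0` of an interior three whose inner variable is in the tail

`G + UU ⟨u, 0⟩ + UU ⟨l - u, 0⟩` is bounded below by lines `a - e τ`, `G` the gain of the untouched
region behind the real hinge `u` in the slot `0`.
-/

set_option linter.unusedVariables false

namespace Pool.Agent.Work.MP_b30479_gt.G2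

open VOL NumU SR

namespace TL

namespace L2

/-! ### two real functions -/

theorem m2 {u l : ℝ} (h8 : 8 / 10 ≤ l) (h1 : l ≤ 1) (hu : 0 ≤ u) (hu1 : u ≤ 65 / 100) :
    -(2580 / 10000) ≤ 2 * uu u 0 + uu (l - u) 0 := by
  have c0 := c02
  rcases le_total u (2 / 100) with h2 | h2
  · have hW := E1.W_v hu h2
    have c1 := c78
    have hm := uu_real_mono (a := 78 / 100) (b := 8 / 10 - u) (by norm_num) (by linarith only [h2])
      (by linarith only [hu])
    rcases lu_or (u := u) h8 h1 hu (by linarith only [hu1, h2]) with h | ⟨_, h⟩ <;> linarith only [c0, hW, c1, hm, h]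
  rcases le_total u (19 / 30) with h3 | h3
  · rcases lu_or h8 h1 hu h3 with h | ⟨h6, h⟩
    · have hc : NumG.chkF [.sub (.add (.mul (.q 2 1) (.uw (.var 0) (.q 0 1)))
          (.uw (.sub (.q 8 10) (.var 0)) (.q 0 1))) (.q (-2580) 10000)] 10000 0 0 0 0 60 200 6334
          0 0 0 0 0 0 0x4081000008102000010200080000408002040000000 = true := by decide +kernel
      obtain ⟨e, he, hp⟩ := NumG.chkF4 hc (by norm_num) (x := u) (y := 0) (z := 0) (w := 0)
        (by norm_num; linarith only [h2]) (by norm_num; linarith only [h3]) (by norm_num) (by norm_num) (by norm_num)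
        (by norm_num) (by norm_num) (by norm_num)
      simp only [List.mem_singleton] at he
      subst he
      simp only [NumG.E.val, NumI.lkR] at hp
      push_cast at hp
      simp only [zero_div] at hp
      linarith only [h, hp]
    · have := real_ge (x := u) (by linarith only [h2]) (by linarith only [hu1])
      linarith only [h, this]
  · have h5 := uu_real_mono (a := 1 / 2) (b := u) (by norm_num) (by linarith only [h3]) (by linarith only [hu1])
    have h6 := uu_one_sub (1 / 2) 0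
    rw [show (1 : ℝ) - 1 / 2 = 1 / 2 by norm_num] at h6
    have := real_ge (x := l - u) (by linarith only [h8, hu1]) (by linarith only [h1, h3])
    linarith only [h5, h6, this]

theorem m1 {u l : ℝ} (h8 : 8 / 10 ≤ l) (h1 : l ≤ 1) (hu : 0 ≤ u) (hu1 : u ≤ 65 / 100) :
    -(1403 / 10000) ≤ uu u 0 + uu (l - u) 0 := by
  have c0 := c02
  rcases le_total u (2 / 100) with h2 | h2
  · have hW := E1.W_v hu h2
    have c1 := c78
    have hm := uu_real_mono (a := 78 / 100) (b := 8 / 10 - u) (by norm_num) (by linarith only [h2])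
      (by linarith only [hu])
    rcases lu_or (u := u) h8 h1 hu (by linarith only [hu1, h2]) with h | ⟨_, h⟩ <;> linarith only [c0, hW, c1, hm, h]
  rcases le_total u (19 / 30) with h3 | h3
  · rcases lu_or h8 h1 hu h3 with h | ⟨h6, h⟩
    · have hc : NumG.chkF [.sub (.add (.uw (.var 0) (.q 0 1))
          (.uw (.sub (.q 8 10) (.var 0)) (.q 0 1))) (.q (-1403) 10000)] 10000 0 0 0 0 60 200 6334
          0 0 0 0 0 0 0x40800204000020400102040000000 = true := by decide +kernel
      obtain ⟨e, he, hp⟩ := NumG.chkF4 hc (by norm_num) (x := u) (y := 0) (z := 0) (w := 0)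
        (by norm_num; linarith only [h2]) (by norm_num; linarith only [h3]) (by norm_num) (by norm_num) (by norm_num)
        (by norm_num) (by norm_num) (by norm_num)
      simp only [List.mem_singleton] at he
      subst he
      simp only [NumG.E.val, NumI.lkR] at hp
      push_cast at hp
      simp only [zero_div] at hp
      linarith only [h, hp]
    · linarith only [h]
  · have h5 := uu_real_mono (a := 1 / 2) (b := u) (by norm_num) (by linarith only [h3]) (by linarith only [hu1])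
    have h6 := uu_one_sub (1 / 2) 0
    rw [show (1 : ℝ) - 1 / 2 = 1 / 2 by norm_num] at h6
    have h7 : 5 / 100 ≤ uu (19 / 30) 0 := by
      have hc : NumG.chkF [.sub (.uw (.var 0) (.q 0 1)) (.q 5 100)] 10000 0 0 0 0 60 6333 6334
          0 0 0 0 0 0 0x4 = true := by decide +kernel
      obtain ⟨e, he, hp⟩ := NumG.chkF4 hc (by norm_num) (x := 19 / 30) (y := 0) (z := 0) (w := 0)
        (by norm_num) (by norm_num) (by norm_num) (by norm_num) (by norm_num)
        (by norm_num) (by norm_num) (by norm_num)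
      simp only [List.mem_singleton] at he
      subst he
      simp only [NumG.E.val, NumI.lkR] at hp
      push_cast at hp
      simp only [zero_div] at hp
      linarith only [hp]
    have h8' := uu_real_mono (a := 19 / 30) (b := u) (by norm_num) (by linarith only [h3]) (by linarith only [hu1])
    have := real_ge (x := l - u) (by linarith only [h8, hu1]) (by linarith only [h1, h3])
    linarith only [h7, h8', this]

/-! ### class one -/

/-- the gain of class one -/
theorem V1_gain (c u τ X Y : ℝ) : V1 ⟨c, τ⟩ ⟨X, Y⟩ - V1 ⟨u, 0⟩ ⟨X, Y⟩ =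
    Real.pi * ((c - u) * Y + τ * (X - 1)) + uu (c + X) (τ + Y) - uu c τ - uu (u + X) Y +
      uu u 0 := by
  unfold V1
  rw [UU_uu, UU_uu, UU_uu, UU_uu, UU_uu]
  simp only [Complex.sub_im, Complex.mul_im, Complex.add_re, Complex.add_im]
  rw [zero_add]
  ring

theorem V2_gain (c u τ X Y : ℝ) : V2 ⟨c, τ⟩ ⟨X, Y⟩ - V2 ⟨u, 0⟩ ⟨X, Y⟩ =
    Real.pi * (τ * (X - (c + 1 / 2)) + (c - u) * Y) + uu (c + X) (τ + Y) - uu (u + X) Y -
      2 * uu c τ + 2 * uu u 0 := by
  rw [V2_uu, V2_uu, zero_add]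
  ring

theorem UU_re (x : ℝ) : UU (⟨x, 0⟩ : ℂ) = uu x 0 := by rw [UU_uu]

/-- the region `RgO` next to a three -/
theorem RO0_of {τ X Y : ℝ} (h0 : 21 / 1000 ≤ τ) (h1 : τ ≤ 92 / 1000)
    (h : RgO .three .one τ X Y) : RO0 τ X Y := by
  obtain ⟨x0, x1, T, t0, t1, s0, s1, hh⟩ := h
  simp only [pM, cw, pa, pb, reduceCtorEq, if_false] at x1 t0 t1 s0 s1 hh
  have hx := mul_nonneg x0 (sub_nonneg.2 t1)
  have hx2 := mul_nonneg x0 (by linarith only [s1] : (0 : ℝ) ≤ 111 / 1000 - τ - T)
  have hx3 := mul_nonneg x0 (by linarith only [t0] : (0 : ℝ) ≤ T + 91 / 1000)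
  have hx4 := mul_nonneg x0 (by linarith only [s0] : (0 : ℝ) ≤ T + 22 / 1000 + τ)
  have hz : (0 : ℝ) ≤ 86 / 100 - X := by linarith only [x1]
  have hz1 := mul_nonneg hz (sub_nonneg.2 t1)
  have hz2 := mul_nonneg hz (by linarith only [s1] : (0 : ℝ) ≤ 111 / 1000 - τ - T)
  have hz3 := mul_nonneg hz (by linarith only [t0] : (0 : ℝ) ≤ T + 91 / 1000)
  have hz4 := mul_nonneg hz (by linarith only [s0] : (0 : ℝ) ≤ T + 22 / 1000 + τ)
  have hw1 := mul_nonneg x0 (by linarith only [h1] : (0 : ℝ) ≤ 111 / 1000 - τ)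
  have hw2 := mul_nonneg x0 (by linarith only [h0] : (0 : ℝ) ≤ 22 / 1000 + τ)
  have hw3 := mul_nonneg hz (by linarith only [h1] : (0 : ℝ) ≤ 111 / 1000 - τ)
  have hw4 := mul_nonneg hz (by linarith only [h0] : (0 : ℝ) ≤ 22 / 1000 + τ)
  rcases hh with ⟨y0, y1, a, b⟩ | ⟨y0, y1, a, b⟩
  · constructor <;> linarith only [x0, x1, s1, y1, hx, a, hx2, hz1, b, hz2, h0, y0, hw2, hw4, t1]
  · constructor <;> linarith only [x0, x1, h1, y0, hw1, hw3, s0, y1, hx3, a, hx4, hz3, b, hz4, t0]

theorem RO1_of {τ X Y : ℝ} (h0 : 46 / 1000 ≤ τ) (h1 : τ ≤ 94 / 1000)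
    (h : RgO .three .two τ X Y) : RO1 τ X Y := by
  obtain ⟨x0, x1, T, t0, t1, s0, s1, hh⟩ := h
  simp only [pM, cw, pa, pb] at x1 t0 t1 s0 s1 hh
  have hx := mul_nonneg x0 (sub_nonneg.2 t1)
  have hx2 := mul_nonneg x0 (by linarith only [s1] : (0 : ℝ) ≤ 148 / 1000 - τ - T)
  have hz : (0 : ℝ) ≤ 80 / 100 - X := by linarith only [x1]
  have hz1 := mul_nonneg hz (sub_nonneg.2 t1)
  have hz2 := mul_nonneg hz (by linarith only [s1] : (0 : ℝ) ≤ 148 / 1000 - τ - T)
  rcases hh with ⟨y0, y1, a, b⟩ | ⟨y0, y1, a, b⟩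
  · constructor <;> linarith only [x0, x1, s1, y1, hx, a, hx2, hz1, b, hz2, y0, t1]
  · exfalso
    linarith only [t0, y0, y1]

theorem RO2_of {τ X Y : ℝ} (h0 : 87 / 1000 ≤ τ) (h1 : τ ≤ 1145 / 10000) (h8 : 8 / 100 ≤ X)
    (h : RgO .three .twoE τ X Y) : RO2 τ X Y := by
  obtain ⟨x0, x1, T, t0, t1, s0, s1, hh⟩ := h
  simp only [pM, cw, pa, pb] at x1 t0 t1 s0 s1 hh
  have hx3 := mul_nonneg x0 (by linarith only [t0] : (0 : ℝ) ≤ T + 45 / 1000)
  have hx4 := mul_nonneg x0 (by linarith only [s0] : (0 : ℝ) ≤ T - (51 / 1000 - τ))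
  have hz : (0 : ℝ) ≤ 70 / 100 - X := by linarith only [x1]
  have hz3 := mul_nonneg hz (by linarith only [t0] : (0 : ℝ) ≤ T + 45 / 1000)
  have hz4 := mul_nonneg hz (by linarith only [s0] : (0 : ℝ) ≤ T - (51 / 1000 - τ))
  rcases hh with ⟨y0, y1, a, b⟩ | ⟨y0, y1, a, b⟩
  · exfalso
    linarith only [t1, y0, y1]
  · constructor <;> linarith only [h8, x1, s0, y1, hx3, a, hx4, hz3, b, hz4, t0, y0]

/-- **Class one, the old position is at most `3/10`.** -/
theorem Pu_one_lo {u l τ G : ℝ} (hl : 8 / 10 ≤ l) (hl1 : l ≤ 1) (hu : 0 ≤ u) (hu3 : u < 3 / 10)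
    (hG : Gn .three (cU .one u) u τ .one G) :
    (21 / 1000 ≤ τ ∧ τ ≤ 92 / 1000 ∧
      -(2490 / 10000) - 1957 / 1000 * τ ≤ G + UU ⟨u, 0⟩ + UU ⟨l - u, 0⟩) ∨
    (46 / 1000 ≤ τ ∧ τ ≤ 94 / 1000 ∧
      -(2108 / 10000) - 2375 / 1000 * τ ≤ G + UU ⟨u, 0⟩ + UU ⟨l - u, 0⟩) ∨
    (87 / 1000 ≤ τ ∧ τ ≤ 1145 / 10000 ∧
      -(1899 / 10000) - 2473 / 1000 * τ ≤ G + UU ⟨u, 0⟩ + UU ⟨l - u, 0⟩) := by
  have hc : cU .one u = 23 / 100 := by
    simp only [cU]
    rw [if_pos hu3]
  rw [hc] at hG
  rw [UU_re, UU_re]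
  cases hG with
  | @one D X Y h0 h1 h2 hb hR hX =>
    rw [V1_gain]
    cases D with
    | one =>
      left
      simp only [cw] at h0 h1
      refine ⟨h0, h1, ?_⟩
      have := one0_23_210 (u := u) hl hl1 (by linarith only [hu]) (by linarith only [hu3]) (by linarith only [h0]) (by linarith only [h1])
        (RO0_of h0 h1 hR)
      unfold PO at this
      linarith only [this]
    | two =>
      right; left
      simp only [cw] at h0 h1
      refine ⟨h0, h1, ?_⟩
      have := one1_23_460 (u := u) hl hl1 (by linarith only [hu]) (by linarith only [hu3]) (by linarith only [h0]) (by linarith only [h1])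
        (RO1_of h0 h1 hR)
      unfold PO at this
      linarith only [this]
    | twoE =>
      right; right
      simp only [cw] at h0 h1
      refine ⟨h0, h1, ?_⟩
      have := one2_23_870 (u := u) hl hl1 (by linarith only [hu]) (by linarith only [hu3]) (by linarith only [h0]) (by linarith only [h1])
        (RO2_of h0 h1 (hX rfl (Or.inl rfl)) hR)
      unfold PO at this
      linarith only [this]
    | three => exact absurd ⟨Or.inl rfl, Or.inl rfl⟩ hb
    | threeE => exact absurd ⟨Or.inl rfl, Or.inr (Or.inl rfl)⟩ hb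
    | ring => exact absurd ⟨Or.inl rfl, Or.inr (Or.inr rfl)⟩ hb

/-- **Class one, the old position is at least `3/10`.** -/
theorem Pu_one_hi {u l τ G : ℝ} (hl : 8 / 10 ≤ l) (hl1 : l ≤ 1) (hu3 : 3 / 10 ≤ u)
    (hu1 : u ≤ 65 / 100) (hG : Gn .three (cU .one u) u τ .one G) :
    (21 / 1000 ≤ τ ∧ τ ≤ 92 / 1000 ∧
      -(2283 / 10000) - 2225 / 1000 * τ ≤ G + UU ⟨u, 0⟩ + UU ⟨l - u, 0⟩) ∨
    (46 / 1000 ≤ τ ∧ τ ≤ 94 / 1000 ∧
      (τ ≤ 70 / 1000 →
        -(2394 / 10000) - 2188 / 1000 * τ ≤ G + UU ⟨u, 0⟩ + UU ⟨l - u, 0⟩) ∧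
      (70 / 1000 ≤ τ →
        -(2630 / 10000) - 1850 / 1000 * τ ≤ G + UU ⟨u, 0⟩ + UU ⟨l - u, 0⟩ ∨
        -(2432 / 10000) - 2092 / 1000 * τ ≤ G + UU ⟨u, 0⟩ + UU ⟨l - u, 0⟩)) ∨
    (87 / 1000 ≤ τ ∧ τ ≤ 1145 / 10000 ∧
      -(2084 / 10000) - 2363 / 1000 * τ ≤ G + UU ⟨u, 0⟩ + UU ⟨l - u, 0⟩) := by
  have hc : cU .one u = 27 / 100 := by
    simp only [cU]
    rw [if_neg (not_lt.2 hu3)]
  rw [hc] at hG
  rw [UU_re, UU_re]
  cases hG with
  | @one D X Y h0 h1 h2 hb hR hX =>
    rw [V1_gain]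
    cases D with
    | one =>
      left
      simp only [cw] at h0 h1
      refine ⟨h0, h1, ?_⟩
      have := one0_27_210 (u := u) hl hl1 (by linarith only [hu3]) (by linarith only [hu1]) (by linarith only [h0]) (by linarith only [h1])
        (RO0_of h0 h1 hR)
      unfold PO at this
      linarith only [this]
    | two =>
      right; left
      simp only [cw] at h0 h1
      refine ⟨h0, h1, fun h7 => ?_, fun h7 => ?_⟩
      · have := one1_27_460 (u := u) hl hl1 (by linarith only [hu3]) (by linarith only [hu1]) (by linarith only [h0]) (by linarith only [h7])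
          (RO1_of h0 h1 hR)
        unfold PO at this
        linarith only [this]
      · have := one1_27_700 (u := u) hl hl1 (by linarith only [hu3]) (by linarith only [hu1]) (by linarith only [h7]) (by linarith only [h1])
          (RO1_of h0 h1 hR)
        unfold PO at this
        rcases this with this | this
        · left; linarith only [this]
        · right; linarith only [this]
    | twoE =>
      right; right
      simp only [cw] at h0 h1
      refine ⟨h0, h1, ?_⟩
      have := one2_27_870 (u := u) hl hl1 (by linarith only [hu3]) (by linarith only [hu1]) (by linarith only [h0]) (by linarith only [h1])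
        (RO2_of h0 h1 (hX rfl (Or.inl rfl)) hR)
      unfold PO at this
      linarith only [this]
    | three => exact absurd ⟨Or.inl rfl, Or.inl rfl⟩ hb
    | threeE => exact absurd ⟨Or.inl rfl, Or.inr (Or.inl rfl)⟩ hb
    | ring => exact absurd ⟨Or.inl rfl, Or.inr (Or.inr rfl)⟩ hb

/-! ### the other classes -/

theorem Pu_two {u l τ G : ℝ} (hl : 8 / 10 ≤ l) (hl1 : l ≤ 1) (hu : 0 ≤ u) (hu1 : u ≤ 65 / 100)
    (hG : Gn .three (cU .two u) u τ .two G) :
    -(1620 / 10000) - 1875 / 1000 * τ ≤ G + UU ⟨u, 0⟩ + UU ⟨l - u, 0⟩ := by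
  have hc : cU .two u = 25 / 100 := by
    simp only [cU, cN]
    norm_num
  rw [hc] at hG
  rw [UU_re, UU_re]
  cases hG with
  | @two X Y h0 h1 hR =>
    rw [V2_gain]
    simp only [hbox] at h0 h1
    rcases hR with ⟨g0, g1, g2, g3, g4, g5, g6, g7⟩ | ⟨g, g0, g1, g2, g3⟩
    · have := two_D (u := u) hl hl1 (by linarith only [hu]) (by linarith only [hu1]) (by linarith only [h0]) (by linarith only [h1])
        (RTw.mk (t := τ) (X := X) (Y := Y) (by linarith only [g0]) (by linarith only [g1]) (by linarith only [g2]) (by linarith only [g4])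
          (by linarith only [g5]) (by linarith only [g7]) (by linarith only [g6]) (by linarith only [g3]))
      unfold PT at this
      linarith only [this]
    · have := two_F (u := u) hl hl1 (by linarith only [g]) (by linarith only [hu1]) (by linarith only [h0]) (by linarith only [h1])
        (RTf.mk (t := τ) (X := X) (Y := Y) (by linarith only [g0]) (by linarith only [g1]) (by linarith only [g0]) (by linarith only [g2])
          (by linarith only [g3]) (by linarith only [g0, g3]) (by linarith only [g0, g2]))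
      unfold PT at this
      linarith only [this]

theorem Pu_threeK {u l τ G : ℝ} (hl : 8 / 10 ≤ l) (hl1 : l ≤ 1) (hu : 0 ≤ u)
    (hu1 : u ≤ 65 / 100) (hG : Gn .three (cU .threeK u) u τ .threeK G) :
    -(1572 / 10000) - 1308 / 1000 * τ ≤ G + UU ⟨u, 0⟩ + UU ⟨l - u, 0⟩ := by
  have hc : cU .threeK u = 18 / 100 := by
    simp only [cU, cN]
    norm_num
  rw [hc] at hG
  rw [UU_re, UU_re]
  cases hG with
  | @threeK X Y h0 h1 hR =>
    rw [V2_gain]
    simp only [hbox] at h0 h1
    obtain ⟨g0, g1, g2, g3, g4, g5, g6, g7⟩ := hR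
    have := three_K (u := u) hl hl1 (by linarith only [hu]) (by linarith only [hu1]) (by linarith only [h0]) (by linarith only [h1])
      (RTk.mk (t := τ) (X := X) (Y := Y) (by linarith only [g0]) (by linarith only [g1]) (by linarith only [g3]) (by linarith only [g4])
        (by linarith only [g6]) (by linarith only [g7]) (by linarith only [g5]) (by linarith only [g2]))
    unfold PT at this
    linarith only [this]

theorem Pu_twoE {u l τ G : ℝ} (hl : 8 / 10 ≤ l) (hl1 : l ≤ 1) (hu : 0 ≤ u)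
    (hu1 : u ≤ 65 / 100) (hG : Gn .three (cU .twoE u) u τ .twoE G) :
    -(1206 / 10000) - 1950 / 1000 * τ ≤ G + UU ⟨u, 0⟩ + UU ⟨l - u, 0⟩ := by
  have hc : cU .twoE u = 22 / 100 := by
    simp only [cU, cN]
    norm_num
  rw [hc] at hG
  rw [UU_re, UU_re]
  cases hG with
  | twoE h0 h1 =>
    simp only [hbox] at h0 h1
    have hm := m2 (u := u) hl hl1 hu hu1
    have hc : NumG.chkF [.add (.add (.sub (.neg (.mul .pi (.mul (.q 72 100) (.var 1))))
        (.uw (.q 22 100) (.var 1))) (.mul (.q 195 100) (.var 1))) (.q (-1374) 10000)]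
        10000 0 0 0 0 60 0 0 760 980 0 0 0 0 0x4 = true := by decide +kernel
    obtain ⟨e, he, hp⟩ := NumG.chkF4 hc (by norm_num) (x := 0) (y := τ) (z := 0) (w := 0)
      (by norm_num) (by norm_num) (by norm_num; linarith only [h0]) (by norm_num; linarith only [h1]) (by norm_num)
      (by norm_num) (by norm_num) (by norm_num)
    simp only [List.mem_singleton] at he
    subst he
    simp only [NumG.E.val, NumI.lkR] at hp
    push_cast at hp
    have e1 : V2 ⟨22 / 100, τ⟩ 0 - V2 ⟨u, 0⟩ 0 =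
        -(Real.pi * (72 / 100 * τ)) - uu (22 / 100) τ + uu u 0 := by
      have f1 := NumG.E.V2e_val (x := .q 22 100) (t := .var 0) (xs := [τ])
      have f2 := NumG.E.V2e_val (x := .var 0) (t := .q 0 1) (xs := [u])
      simp only [NumG.E.V2e, NumG.E.val, NumI.lkR] at f1 f2
      push_cast at f1 f2
      rw [zero_div] at f2
      rw [← f1, ← f2]
      ring
    rw [e1]
    linarith only [hm, hp]

theorem Pu_threeE {u l τ G : ℝ} (hl : 8 / 10 ≤ l) (hl1 : l ≤ 1) (hu : 0 ≤ u)
    (hu1 : u ≤ 65 / 100) (hG : Gn .three (cU .threeE u) u τ .threeE G) :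
    -(1190 / 10000) - 1378 / 1000 * τ ≤ G + UU ⟨u, 0⟩ + UU ⟨l - u, 0⟩ := by
  have hc : cU .threeE u = 22 / 100 := by
    simp only [cU, cN]
    norm_num
  rw [hc] at hG
  rw [UU_re, UU_re]
  cases hG with
  | @threeE l' m h0 h1 hm0 hm1 hl' hl1' =>
    simp only [hbox] at h0 h1
    have hm := m2 (u := u) hl hl1 hu hu1
    have hr := real_ge (x := l' - u) (by linarith only [hl']) (by linarith only [hu, hl1'])
    have hc : NumG.chkF [.add (.add (.sub (.sub (.neg (.mul .pi (.add (.add (.mul (.q 22 100)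
        (.var 2)) (.mul (.add (.q 22 100) (.q 1 6)) (.var 1))) (.mul (.sub (.add (.q 22 100)
        (.q 1 6)) (.q 1 2)) (.var 2))))) (.uw (.q 1 6) (.sub (.var 2) (.var 1))))
        (.uw (.q 22 100) (.var 1))) (.mul (.q 1378 1000) (.var 1))) (.q (-3006) 10000)]
        10000 0 0 450 0 60 0 0 50 280 0 1040 0 0 0x40808202 = true := by decide +kernel
    obtain ⟨e, he, hp⟩ := NumG.chkF4 hc (by norm_num) (x := 0) (y := τ) (z := m) (w := 0)
      (by norm_num) (by norm_num) (by norm_num; linarith only [h0]) (by norm_num; linarith only [h1])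
      (by norm_num; linarith only [hm0]) (by norm_num; linarith only [hm1]) (by norm_num) (by norm_num)
    simp only [List.mem_singleton] at he
    subst he
    simp only [NumG.E.val, NumI.lkR] at hp
    push_cast at hp
    have e1 : V3 ⟨22 / 100, τ⟩ ⟨22 / 100 + 1 / 6, m⟩ 0 - V3 ⟨u, 0⟩ ⟨l', 0⟩ 0 =
        -(Real.pi * (22 / 100 * m + (22 / 100 + 1 / 6) * τ + (22 / 100 + 1 / 6 - 1 / 2) * m)) -
          uu (1 / 6) (m - τ) - uu (22 / 100) τ + uu (l' - u) 0 + uu u 0 := by
      have f1 := NumG.E.V3e_val (x := .q 22 100) (t := .var 0) (y := .add (.q 22 100) (.q 1 6))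
        (s := .var 1) (xs := [τ, m])
      have f2 := NumG.E.V3e_val (x := .var 0) (t := .q 0 1) (y := .var 1) (s := .q 0 1)
        (xs := [u, l'])
      simp only [NumG.E.V3e, NumG.E.val, NumI.lkR] at f1 f2
      push_cast at f1 f2
      rw [zero_div] at f2
      rw [← f1, ← f2, show (22 : ℝ) / 100 + 1 / 6 - 22 / 100 = 1 / 6 by ring, sub_zero]
      ring
    rw [e1]
    linarith only [hm, hr, hp]

theorem Pu_touched {u l τ G : ℝ} (hl : 8 / 10 ≤ l) (hl1 : l ≤ 1) (hu : 0 ≤ u)
    (hu1 : u ≤ 65 / 100) (hG : Gn .three (cU .touched u) u τ .touched G) :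
    -(1403 / 10000) - 2360 / 1000 * τ ≤ G + UU ⟨u, 0⟩ + UU ⟨l - u, 0⟩ := by
  rw [UU_re, UU_re]
  cases hG with
  | touched =>
    have hm := m1 (u := u) hl hl1 hu hu1
    linarith only [hm]

theorem Pu_ring {u l τ G : ℝ} (hl : 8 / 10 ≤ l) (hl1 : l ≤ 1) (hu : 0 ≤ u)
    (hu1 : u ≤ 65 / 100) (hG : Gn .three (cU .ring u) u τ .ring G) :
    -(1886 / 10000) - 281 / 1000 * τ ≤ G + UU ⟨u, 0⟩ + UU ⟨l - u, 0⟩ := by
  have hc : cU .ring u = 18 / 100 := by
    simp only [cU, cN]
    norm_num
  rw [hc] at hG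
  rw [UU_re, UU_re]
  cases hG with
  | @ring ρ σ h0 h1 h2 hρ hρ1 hσ hσ1 =>
    have h0 := h0 (by decide)
    have h1 := h1 (by decide)
    simp only [hbox] at h0 h1
    rw [show (18 : ℝ) / 100 = 9 / 50 by norm_num, fR_diff]
    have t0 := e7_th_nonneg hσ
    have t1 := e7_th_le_one σ
    have t2 := e7_th_le_ramp σ
    have k0 : 0 ≤ ρ * LT.th σ := mul_nonneg hρ t0
    have k1 : ρ * LT.th σ ≤ 1045 / 10000 :=
      (mul_le_mul hρ1 t1 t0 (by norm_num)).trans (by norm_num)
    have k2 : ρ * LT.th σ ≤ 1045 / 10000 * (2 + 4 * σ) := mul_le_mul hρ1 t2 t0 (by norm_num)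
    have h3 := (abs_le.1 hσ).1
    have key : -(1886 / 10000) - (2810 / 10000) * τ < PR u l τ σ (ρ * LT.th σ) := by
      rcases le_total σ (-(1 / 4)) with g | g
      · exact ring_0 (u := u) (t := τ) hl hl1 hu hu1 (by linarith only [h0]) (by linarith only [h1]) (by linarith only [t0, t2]) (by linarith only [g]) k0 k1 k2
      · rcases le_total σ 0 with g' | g'
        · exact ring_25 (u := u) (t := τ) hl hl1 hu hu1 (by linarith only [h0]) (by linarith only [h1]) (by linarith only [g]) (by linarith only [g']) k0 k1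
            k2
        · exact ring_50 (u := u) (t := τ) hl hl1 hu hu1 (by linarith only [h0]) (by linarith only [h1]) (by linarith only [g']) (by linarith only [hσ1]) k0 k1
            k2
    unfold PR at key
    rw [show (68 : ℝ) / 100 = 17 / 25 by norm_num, show (18 : ℝ) / 100 = 9 / 50 by norm_num] at key
    linarith only [key]

end L2

end TL

end Pool.Agent.Work.MP_b30479_gt.G2
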