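import Pool.Agent.Work.MP_b30479_gt.G2.TK3a

/-!
# Tails, interior three with its inner variable in the tail: the final rows

A line `a - e τ` (`τ = -t`) is a lower bound of the part of the old value and of the gain which
belong to one slot; all pairs of lines are checked.
-/

namespace Pool.Agent.Work.MP_b30479_gt.G2

open VOL SR NumU

namespace TL

namespace L2

/-- a line: class behind the hinge, target of the hinge (hundredths), window of the height `t` in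
the frame of the three (ten thousandths), lower bound `a / 10000 + e / 1000 * t` -/
structure Ln where
  cl : Cl
  c : ℤ
  t0 : ℤ
  t1 : ℤ
  a : ℤ
  e : ℤ

/-- windows of the inner variable, ten thousandths -/
structure Wz where
  t0 : ℤ
  t1 : ℤ
  s0 : ℤ
  s1 : ℤ

def mwZ (A K : Cl) : Wz :=
  match A, K with
  | .one, .one => ⟨-900, -180, -450, 700⟩
  | .one, .twoE => ⟨-620, -50, -200, 750⟩
  | .one, .ring => ⟨-720, 0, -340, 800⟩
  | .one, _ => ⟨-820, 50, -400, 840⟩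
  | .twoE, .one => ⟨-1230, -800, -480, 150⟩
  | .twoE, .twoE => ⟨-950, -670, -180, 290⟩
  | .twoE, .ring => ⟨-1060, -670, -310, 290⟩
  | .twoE, _ => ⟨-1160, -640, -400, 320⟩
  | _, .one => ⟨-1140, -150, -1050, 140⟩
  | _, .twoE => ⟨-820, -50, -750, 190⟩
  | _, .ring => ⟨-920, 0, -930, 240⟩
  | _, _ => ⟨-1040, 50, -1000, 280⟩

theorem mwZ_eq (A K : Cl) : (mw A K).t0 = ((mwZ A K).t0 : ℝ) / 10000 ∧
    (mw A K).t1 = ((mwZ A K).t1 : ℝ) / 10000 ∧ (mw A K).s0 = ((mwZ A K).s0 : ℝ) / 10000 ∧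
    (mw A K).s1 = ((mwZ A K).s1 : ℝ) / 10000 := by
  cases A <;> cases K <;> refine ⟨?_, ?_, ?_, ?_⟩ <;> norm_num [mw, mwZ]

/-- the slot `2` -/
def TW : List Ln :=
  [⟨.one, 21, -920, -210, -4970, -1128⟩, ⟨.one, 21, -920, -210, -2935, 3142⟩,
   ⟨.one, 21, -940, -460, -2911, 3142⟩, ⟨.one, 21, -1145, -870, -2705, 2721⟩,
   ⟨.two, 25, -570, 50, -3764, 1571⟩, ⟨.twoE, 22, -980, -760, -2878, 2262⟩,
   ⟨.three, 15, -220, 220, -3724, 851⟩, ⟨.three, 15, -220, 220, -3404, 565⟩,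
   ⟨.threeE, 22, -280, -50, -3078, 1215⟩,
   ⟨.ring, 18, -40, 570, -4315, 1678⟩, ⟨.ring, 18, -40, 570, -4112, 1397⟩,
   ⟨.one, 20, -1145, -210, -2869, 2360⟩, ⟨.two, 20, -570, 50, -2869, 2360⟩,
   ⟨.twoE, 20, -980, -760, -2869, 2360⟩, ⟨.three, 20, -220, 220, -2869, 2360⟩,
   ⟨.threeE, 20, -280, -50, -2869, 2360⟩, ⟨.ring, 20, -40, 570, -2869, 2360⟩]

/-- variables `tu, m, tw` -/
def fE (cu cw a eu ew : ℤ) : E :=
  .add (.sub (.sub (.sub (.sub (.sub (.uu (.q (45 + cw) 100) (.add (.var 1) (.var 2)))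
    (.mul .pi (.add (.add (.mul (.q cu 100) (.var 1)) (.mul (.q 45 100) (.var 0)))
      (.mul (.q (45 - cw - 50) 100) (.sub (.var 1) (.var 2))))))
    (.uu (.q (45 - cu) 100) (.sub (.var 1) (.var 0)))) (.uu (.q 45 100) (.var 1)))
    (.uu (.q cu 100) (.var 0))) (.mul (.q 2 1) (.uu (.q cw 100) (.var 2))))
    (.add (.q a 10000) (.add (.mul (.q eu 1000) (.var 0)) (.mul (.q ew 1000) (.var 2))))

def w0E (s : ℤ) : E := .sub (.q s 10000) (.sub (.var 1) (.var 0))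
def w1E (s : ℤ) : E := .sub (.sub (.var 1) (.var 0)) (.q s 10000)

/-- check of a pair of lines -/
def okP (u w : Ln) : Bool :=
  chk [fE u.c w.c (u.a + w.a) u.e w.e, w0E (mwZ u.cl w.cl).s0, w1E (mwZ u.cl w.cl).s1] 30
    [NumI.V.of 10000 u.t0 u.t1 0, NumI.V.of 10000 (mwZ u.cl w.cl).t0 (mwZ u.cl w.cl).t1 0,
      NumI.V.of 10000 w.t0 w.t1 0]

theorem okP_sound {u w : Ln} (h : okP u w = true) {tu m tw : ℝ}
    (tu0 : (u.t0 : ℝ) / 10000 ≤ tu) (tu1 : tu ≤ (u.t1 : ℝ) / 10000)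
    (tw0 : (w.t0 : ℝ) / 10000 ≤ tw) (tw1 : tw ≤ (w.t1 : ℝ) / 10000)
    (m0 : (mw u.cl w.cl).t0 ≤ m) (m1 : m ≤ (mw u.cl w.cl).t1)
    (s0 : (mw u.cl w.cl).s0 ≤ m - tu) (s1 : m - tu ≤ (mw u.cl w.cl).s1) :
    0 < V3 ⟨(u.c : ℝ) / 100, tu⟩ ⟨9 / 20, m⟩ ⟨(w.c : ℝ) / 100, tw⟩ +
      ((u.a : ℝ) / 10000 + (u.e : ℝ) / 1000 * tu) + ((w.a : ℝ) / 10000 + (w.e : ℝ) / 1000 * tw) := by
  obtain ⟨e1, e2, e3, e4⟩ := mwZ_eq u.cl w.cl
  rw [e1] at m0
  rw [e2] at m1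
  rw [e3] at s0
  rw [e4] at s1
  obtain ⟨e, he, hp⟩ := chk3 h (by norm_num) (x := tu) (y := m) (z := tw) (by push_cast; linarith)
    (by push_cast; linarith) (by push_cast; linarith) (by push_cast; linarith)
    (by push_cast; linarith) (by push_cast; linarith)
  simp only [List.mem_cons, List.not_mem_nil, or_false] at he
  rcases he with rfl | rfl | rfl
  · simp only [fE, E.val, NumI.lkR] at hp
    push_cast at hp
    rw [K3.V3_uu]
    rw [show (9 : ℝ) / 20 + (w.c : ℝ) / 100 = (45 + (w.c : ℝ)) / 100 by ring,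
      show (9 : ℝ) / 20 - (u.c : ℝ) / 100 = (45 - (u.c : ℝ)) / 100 by ring,
      show (9 : ℝ) / 20 = 45 / 100 by norm_num]
    linarith
  · exfalso
    simp only [w0E, E.val, NumI.lkR] at hp
    push_cast at hp
    linarith
  · exfalso
    simp only [w1E, E.val, NumI.lkR] at hp
    push_cast at hp
    linarith

end L2

end TL

end Pool.Agent.Work.MP_b30479_gt.G2
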