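import Pool.Agent.Work.NumU.TreeS

/-!
# Pieces of the certificates of `TL2wA`, part 4
-/

set_option linter.unusedVariables false
set_option linter.unusedSimpArgs false
set_option linter.unusedTactic false
set_option linter.unreachableTactic false
namespace Pool.Agent.Work.MP_b30479_gt.G2
open NumU
open NumU.E
open NumI (V)
namespace TL
namespace L2

theorem w_one_A3_p9_q1 : Pool.Agent.Work.NumU.runT [(.sub (.add (.sub (.add (.add (.sub (.add (.mul .pi (.sub (.add (.mul (.sub (.q 21 100) (.var 0)) (.var 3)) (.mul (.var 1) (.var 2))) (.var 1))) (.add (.uu (.sub (.add (.q 21 100) (.var 2)) (.q 1 1)) (.add (.var 1) (.var 3))) (.mul .pi (.add (.var 1) (.var 3))))) (.uu (.q 21 100) (.var 1))) (.neg (.uu (.add (.var 0) (.var 2)) (.var 3)))) (.mul (.uu (.var 0) (.q 0 1)) (.q 3 1))) (.uu (.add (.var 0) (.q 4 5)) (.q 0 1))) (.uu (.q 4 5) (.q 0 1))) (.sub (.q (-497) 1000) (.mul (.q (-141) 125) (.var 1)))), (.sub (.add (.sub (.add (.add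 (.sub (.add (.mul .pi (.sub (.add (.mul (.sub (.q 21 100) (.var 0)) (.var 3)) (.mul (.var 1) (.var 2))) (.var 1))) (.sub (.uu (.sub (.add (.q 21 100) (.var 2)) (.q 1 1)) (.add (.var 1) (.var 3))) (.mul .pi (.add (.var 1) (.var 3))))) (.uu (.q 21 100) (.var 1))) (.neg (.uu (.add (.var 0) (.var 2)) (.var 3)))) (.mul (.uu (.var 0) (.q 0 1)) (.q 3 1))) (.uu (.add (.var 0) (.q 4 5)) (.q 0 1))) (.uu (.q 4 5) (.q 0 1))) (.sub (.q (-497) 1000) (.mul (.q (-141) 125) (.var 1)))), (.sub (.add (.sub (.add (.add (.sub (.add (.mul .pi (.sub (.add (.mul (.sub (.q 21 100) (.var 0)) (.var 3)) (.mul (.var 1) (.var 2))) (.var 1))) (.add (.uu (.sub (.add (.q 21 100) (.var 2)) (.q 1 1)) (.add (.var 1) (.var 3))) (.mul .pi (.add (.var 1) (.var 3))))) (.uu (.q 21 100) (.var 1))) (.neg (.uu (.add (.var 0) (.var 2)) (.var 3)))) (.mul (.uu (.var 0) (.q 0 1)) (.q 3 1))) (.uu (.add (.var 0) (.q 4 5)) (.q 0 1))) (.uu (.q 4 5) (.q 0 1))) (.sub (.q (-587)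 2000) (.mul (.q 1571 500) (.var 1)))), (.sub (.add (.sub (.add (.add (.sub (.add (.mul .pi (.sub (.add (.mul (.sub (.q 21 100) (.var 0)) (.var 3)) (.mul (.var 1) (.var 2))) (.var 1))) (.sub (.uu (.sub (.add (.q 21 100) (.var 2)) (.q 1 1)) (.add (.var 1) (.var 3))) (.mul .pi (.add (.var 1) (.var 3))))) (.uu (.q 21 100) (.var 1))) (.neg (.uu (.add (.var 0) (.var 2)) (.var 3)))) (.mul (.uu (.var 0) (.q 0 1)) (.q 3 1))) (.uu (.add (.var 0) (.q 4 5)) (.q 0 1))) (.uu (.q 4 5) (.q 0 1))) (.sub (.q (-587) 2000) (.mul (.q 1571 500) (.var 1)))), (.sub (.mul (.q 1 5) (.var 3)) (.mul (.q 49 1000) (.sub (.q 43 50) (.var 2)))), (.sub (.mul (.q 1 5) (.neg (.var 3))) (.mul (.add (.var 1) (.q 11 500)) (.sub (.q 43 50) (.var 2)))), (.sub (.mul (.q 1 5) (.neg (.var 3))) (.mul (.q 91 1000) (.sub (.q 43 50) (.var 2)))), (.sub (.add (.var 0) (.var 2)) (.q 49 50))] 36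
    3207175405066116739018981084211383789841384680586625653222960693515454772932360298463220967026672347236835704421139394574931624472695094639718595730114781856000486859248877160725135423738635791590206510442718597893266765683977611893799392892352745875961520728061335732351034960734154748880353367481210157472673707263678088841070810891156065465969811491
    (Pool.Agent.Work.NumI.setL 1 ((Pool.Agent.Work.NumI.setR 0 (Pool.Agent.Work.NumI.setR 3 (Pool.Agent.Work.NumI.setR 0 ([V.of 10000 200 1800 0, V.of 10000 210 920 0, V.of 10000 7910 8600 0, V.of 10000 (-910) 490 0])))))) =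
    8461473347266070715119173801960985065199407925163862877414326557827105894949606179829271330907969463045386305585999327141924 := by
  decide +kernel

theorem w_one_A3_p9_q2 : Pool.Agent.Work.NumU.runT [(.sub (.add (.sub (.add (.add (.sub (.add (.mul .pi (.sub (.add (.mul (.sub (.q 21 100) (.var 0)) (.var 3)) (.mul (.var 1) (.var 2))) (.var 1))) (.add (.uu (.sub (.add (.q 21 100) (.var 2)) (.q 1 1)) (.add (.var 1) (.var 3))) (.mul .pi (.add (.var 1) (.var 3))))) (.uu (.q 21 100) (.var 1))) (.neg (.uu (.add (.var 0) (.var 2)) (.var 3)))) (.mul (.uu (.var 0) (.q 0 1)) (.q 3 1))) (.uu (.add (.var 0) (.q 4 5)) (.q 0 1))) (.uu (.q 4 5) (.q 0 1))) (.sub (.q (-497) 1000) (.mul (.q (-141) 125) (.var 1)))), (.sub (.add (.sub (.add (.add (.sub (.add (.mul .pi (.sub (.add (.mul (.sub (.q 21 100) (.var 0)) (.var 3)) (.mul (.var 1) (.var 2))) (.var 1))) (.sub (.uu (.sub (.add (.q 21 100) (.var 2)) (.q 1 1)) (.add (.var 1) (.var 3))) (.mul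 .pi (.add (.var 1) (.var 3))))) (.uu (.q 21 100) (.var 1))) (.neg (.uu (.add (.var 0) (.var 2)) (.var 3)))) (.mul (.uu (.var 0) (.q 0 1)) (.q 3 1))) (.uu (.add (.var 0) (.q 4 5)) (.q 0 1))) (.uu (.q 4 5) (.q 0 1))) (.sub (.q (-497) 1000) (.mul (.q (-141) 125) (.var 1)))), (.sub (.add (.sub (.add (.add (.sub (.add (.mul .pi (.sub (.add (.mul (.sub (.q 21 100) (.var 0)) (.var 3)) (.mul (.var 1) (.var 2))) (.var 1))) (.add (.uu (.sub (.add (.q 21 100) (.var 2)) (.q 1 1)) (.add (.var 1) (.var 3))) (.mul .pi (.add (.var 1) (.var 3))))) (.uu (.q 21 100) (.var 1))) (.neg (.uu (.add (.var 0) (.var 2)) (.var 3)))) (.mul (.uu (.var 0) (.q 0 1)) (.q 3 1))) (.uu (.add (.var 0) (.q 4 5)) (.q 0 1))) (.uu (.q 4 5) (.q 0 1))) (.sub (.q (-587) 2000) (.mul (.q 1571 500) (.var 1)))), (.sub (.add (.sub (.add (.add (.sub (.add (.mul .pi (.sub (.add (.mul (.sub (.q 21 100) (.var 0)) (.var 3)) (.mul (.var 1) (.var 2))) (.var 1))) (.sub (.uu (.sub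 (.add (.q 21 100) (.var 2)) (.q 1 1)) (.add (.var 1) (.var 3))) (.mul .pi (.add (.var 1) (.var 3))))) (.uu (.q 21 100) (.var 1))) (.neg (.uu (.add (.var 0) (.var 2)) (.var 3)))) (.mul (.uu (.var 0) (.q 0 1)) (.q 3 1))) (.uu (.add (.var 0) (.q 4 5)) (.q 0 1))) (.uu (.q 4 5) (.q 0 1))) (.sub (.q (-587) 2000) (.mul (.q 1571 500) (.var 1)))), (.sub (.mul (.q 1 5) (.var 3)) (.mul (.q 49 1000) (.sub (.q 43 50) (.var 2)))), (.sub (.mul (.q 1 5) (.neg (.var 3))) (.mul (.add (.var 1) (.q 11 500)) (.sub (.q 43 50) (.var 2)))), (.sub (.mul (.q 1 5) (.neg (.var 3))) (.mul (.q 91 1000) (.sub (.q 43 50) (.var 2)))), (.sub (.add (.var 0) (.var 2)) (.q 49 50))] 36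
    8461473347266070715119173801960985065199407925163862877414326557827105894949606179829271330907969463045386305585999327141923
    (Pool.Agent.Work.NumI.setR 1 ((Pool.Agent.Work.NumI.setR 0 (Pool.Agent.Work.NumI.setR 3 (Pool.Agent.Work.NumI.setR 0 ([V.of 10000 200 1800 0, V.of 10000 210 920 0, V.of 10000 7910 8600 0, V.of 10000 (-910) 490 0])))))) =
    1 := by
  decide +kernel

theorem w_one_A3_p9 : Pool.Agent.Work.NumU.runT [(.sub (.add (.sub (.add (.add (.sub (.add (.mul .pi (.sub (.add (.mul (.sub (.q 21 100) (.var 0)) (.var 3)) (.mul (.var 1) (.var 2))) (.var 1))) (.add (.uu (.sub (.add (.q 21 100) (.var 2)) (.q 1 1)) (.add (.var 1) (.var 3))) (.mul .pi (.add (.var 1) (.var 3))))) (.uu (.q 21 100) (.var 1))) (.neg (.uu (.add (.var 0) (.var 2)) (.var 3)))) (.mul (.uu (.var 0) (.q 0 1)) (.q 3 1))) (.uu (.add (.var 0) (.q 4 5)) (.q 0 1))) (.uu (.q 4 5) (.q 0 1))) (.sub (.q (-497) 1000) (.mul (.q (-141) 125) (.var 1)))),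 (.sub (.add (.sub (.add (.add (.sub (.add (.mul .pi (.sub (.add (.mul (.sub (.q 21 100) (.var 0)) (.var 3)) (.mul (.var 1) (.var 2))) (.var 1))) (.sub (.uu (.sub (.add (.q 21 100) (.var 2)) (.q 1 1)) (.add (.var 1) (.var 3))) (.mul .pi (.add (.var 1) (.var 3))))) (.uu (.q 21 100) (.var 1))) (.neg (.uu (.add (.var 0) (.var 2)) (.var 3)))) (.mul (.uu (.var 0) (.q 0 1)) (.q 3 1))) (.uu (.add (.var 0) (.q 4 5)) (.q 0 1))) (.uu (.q 4 5) (.q 0 1))) (.sub (.q (-497) 1000) (.mul (.q (-141) 125) (.var 1)))), (.sub (.add (.sub (.add (.add (.sub (.add (.mul .pi (.sub (.add (.mul (.sub (.q 21 100) (.var 0)) (.var 3)) (.mul (.var 1) (.var 2))) (.var 1))) (.add (.uu (.sub (.add (.q 21 100) (.var 2)) (.q 1 1)) (.add (.var 1) (.var 3))) (.mul .pi (.add (.var 1) (.var 3))))) (.uu (.q 21 100) (.var 1))) (.neg (.uu (.add (.var 0) (.var 2)) (.var 3)))) (.mul (.uu (.var 0) (.q 0 1)) (.q 3 1))) (.uu (.add (.var 0) (.q 4 5)) (.q 0 1))) (.uu (.q 4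 5) (.q 0 1))) (.sub (.q (-587) 2000) (.mul (.q 1571 500) (.var 1)))), (.sub (.add (.sub (.add (.add (.sub (.add (.mul .pi (.sub (.add (.mul (.sub (.q 21 100) (.var 0)) (.var 3)) (.mul (.var 1) (.var 2))) (.var 1))) (.sub (.uu (.sub (.add (.q 21 100) (.var 2)) (.q 1 1)) (.add (.var 1) (.var 3))) (.mul .pi (.add (.var 1) (.var 3))))) (.uu (.q 21 100) (.var 1))) (.neg (.uu (.add (.var 0) (.var 2)) (.var 3)))) (.mul (.uu (.var 0) (.q 0 1)) (.q 3 1))) (.uu (.add (.var 0) (.q 4 5)) (.q 0 1))) (.uu (.q 4 5) (.q 0 1))) (.sub (.q (-587) 2000) (.mul (.q 1571 500) (.var 1)))), (.sub (.mul (.q 1 5) (.var 3)) (.mul (.q 49 1000) (.sub (.q 43 50) (.var 2)))), (.sub (.mul (.q 1 5) (.neg (.var 3))) (.mul (.add (.var 1) (.q 11 500)) (.sub (.q 43 50) (.var 2)))), (.sub (.mul (.q 1 5) (.neg (.var 3))) (.mul (.q 91 1000) (.sub (.q 43 50) (.var 2)))), (.sub (.add (.var 0) (.var 2)) (.q 49 50))] 37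
    51314806481057867824303697347382140637462154889386010451567371096247276366917764775411535472426757555789371270738230313198905991563121514235497531681836509696007789747982034571602166779818172665443304167083497566292268250943641790300790286277643934015384331648981371717616559371746475982085653879699362519562779316218849421457132974258497047455516983857
    (Pool.Agent.Work.NumI.setR 0 (Pool.Agent.Work.NumI.setR 3 (Pool.Agent.Work.NumI.setR 0 ([V.of 10000 200 1800 0, V.of 10000 210 920 0, V.of 10000 7910 8600 0, V.of 10000 (-910) 490 0])))) =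
    1 :=
      Pool.Agent.Work.NumU.runT_split rfl rfl rfl
        w_one_A3_p9_q1
        w_one_A3_p9_q2

theorem w_one_A4_p1 : Pool.Agent.Work.NumU.runT [(.sub (.add (.sub (.add (.add (.sub (.add (.mul .pi (.sub (.add (.mul (.sub (.q 21 100) (.var 0)) (.var 3)) (.mul (.var 1) (.var 2))) (.var 1))) (.add (.uu (.sub (.add (.q 21 100) (.var 2)) (.q 1 1)) (.add (.var 1) (.var 3))) (.mul .pi (.add (.var 1) (.var 3))))) (.uu (.q 21 100) (.var 1))) (.uu (.q 1 50) (.var 3))) (.mul (.uu (.var 0) (.q 0 1)) (.q 3 1))) (.uu (.add (.var 0) (.q 4 5)) (.q 0 1))) (.uu (.q 4 5) (.q 0 1))) (.sub (.q (-497) 1000) (.mul (.q (-141) 125) (.var 1)))), (.sub (.add (.sub (.add (.add (.sub (.add (.mul .pi (.sub (.add (.mul (.sub (.q 21 100) (.var 0)) (.var 3)) (.mul (.var 1) (.var 2))) (.var 1))) (.sub (.uu (.sub (.add (.q 21 100) (.var 2)) (.q 1 1)) (.add (.var 1) (.var 3))) (.mul .pi (.add (.var 1) (.var 3))))) (.uu (.q 21 100) (.var 1))) (.uu (.q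 1 50) (.var 3))) (.mul (.uu (.var 0) (.q 0 1)) (.q 3 1))) (.uu (.add (.var 0) (.q 4 5)) (.q 0 1))) (.uu (.q 4 5) (.q 0 1))) (.sub (.q (-497) 1000) (.mul (.q (-141) 125) (.var 1)))), (.sub (.add (.sub (.add (.add (.sub (.add (.mul .pi (.sub (.add (.mul (.sub (.q 21 100) (.var 0)) (.var 3)) (.mul (.var 1) (.var 2))) (.var 1))) (.add (.uu (.sub (.add (.q 21 100) (.var 2)) (.q 1 1)) (.add (.var 1) (.var 3))) (.mul .pi (.add (.var 1) (.var 3))))) (.uu (.q 21 100) (.var 1))) (.uu (.q 1 50) (.var 3))) (.mul (.uu (.var 0) (.q 0 1)) (.q 3 1))) (.uu (.add (.var 0) (.q 4 5)) (.q 0 1))) (.uu (.q 4 5) (.q 0 1))) (.sub (.q (-587) 2000) (.mul (.q 1571 500) (.var 1)))), (.sub (.add (.sub (.add (.add (.sub (.add (.mul .pi (.sub (.add (.mul (.sub (.q 21 100) (.var 0)) (.var 3)) (.mul (.var 1) (.var 2))) (.var 1))) (.sub (.uu (.sub (.add (.q 21 100) (.var 2)) (.q 1 1)) (.add (.var 1) (.var 3))) (.mul .pi (.add (.var 1) (.var 3))))) (.uu (.q 21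 100) (.var 1))) (.uu (.q 1 50) (.var 3))) (.mul (.uu (.var 0) (.q 0 1)) (.q 3 1))) (.uu (.add (.var 0) (.q 4 5)) (.q 0 1))) (.uu (.q 4 5) (.q 0 1))) (.sub (.q (-587) 2000) (.mul (.q 1571 500) (.var 1)))), (.sub (.mul (.q 1 5) (.var 3)) (.mul (.q 49 1000) (.sub (.q 43 50) (.var 2)))), (.sub (.mul (.q 1 5) (.neg (.var 3))) (.mul (.add (.var 1) (.q 11 500)) (.sub (.q 43 50) (.var 2)))), (.sub (.mul (.q 1 5) (.neg (.var 3))) (.mul (.q 91 1000) (.sub (.q 43 50) (.var 2))))] 40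
    296862708936619447681169888456072005426538975355561160265720927411527756623696605295338219068088282887809727207152287801724680249086693284141666519678047080044794118984439827767124238818298696316906788273015689324286682212737570
    ([V.of 10000 1200 1800 0, V.of 10000 210 920 0, V.of 10000 7910 8600 0, V.of 10000 (-910) 490 0]) =
    1 := by
  decide +kernel

theorem w_one_B3_p1 : Pool.Agent.Work.NumU.runT [(.sub (.add (.sub (.add (.add (.sub (.add (.mul .pi (.sub (.add (.mul (.sub (.q 21 100) (.var 0)) (.var 3)) (.mul (.var 1) (.var 2))) (.var 1))) (.add (.uu (.sub (.add (.q 21 100) (.var 2)) (.q 1 1)) (.add (.var 1) (.var 3))) (.mul .pi (.add (.var 1) (.var 3))))) (.uu (.q 21 100) (.var 1))) (.uu (.q 3 100) (.var 3))) (.mul (.uu (.var 0) (.q 0 1)) (.q 3 1))) (.uu (.q 49 50) (.q 0 1))) (.uu (.q 4 5) (.q 0 1))) (.sub (.q (-497) 1000) (.mul (.q (-141) 125) (.var 1)))), (.sub (.add (.sub (.add (.add (.sub (.add (.mul .pi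 (.sub (.add (.mul (.sub (.q 21 100) (.var 0)) (.var 3)) (.mul (.var 1) (.var 2))) (.var 1))) (.sub (.uu (.sub (.add (.q 21 100) (.var 2)) (.q 1 1)) (.add (.var 1) (.var 3))) (.mul .pi (.add (.var 1) (.var 3))))) (.uu (.q 21 100) (.var 1))) (.uu (.q 3 100) (.var 3))) (.mul (.uu (.var 0) (.q 0 1)) (.q 3 1))) (.uu (.q 49 50) (.q 0 1))) (.uu (.q 4 5) (.q 0 1))) (.sub (.q (-497) 1000) (.mul (.q (-141) 125) (.var 1)))), (.sub (.add (.sub (.add (.add (.sub (.add (.mul .pi (.sub (.add (.mul (.sub (.q 21 100) (.var 0)) (.var 3)) (.mul (.var 1) (.var 2))) (.var 1))) (.add (.uu (.sub (.add (.q 21 100) (.var 2)) (.q 1 1)) (.add (.var 1) (.var 3))) (.mul .pi (.add (.var 1) (.var 3))))) (.uu (.q 21 100) (.var 1))) (.uu (.q 3 100) (.var 3))) (.mul (.uu (.var 0) (.q 0 1)) (.q 3 1))) (.uu (.q 49 50) (.q 0 1))) (.uu (.q 4 5) (.q 0 1))) (.sub (.q (-587) 2000) (.mul (.q 1571 500) (.var 1)))), (.sub (.add (.sub (.add (.add (.sub (.add (.mul .pi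 (.sub (.add (.mul (.sub (.q 21 100) (.var 0)) (.var 3)) (.mul (.var 1) (.var 2))) (.var 1))) (.sub (.uu (.sub (.add (.q 21 100) (.var 2)) (.q 1 1)) (.add (.var 1) (.var 3))) (.mul .pi (.add (.var 1) (.var 3))))) (.uu (.q 21 100) (.var 1))) (.uu (.q 3 100) (.var 3))) (.mul (.uu (.var 0) (.q 0 1)) (.q 3 1))) (.uu (.q 49 50) (.q 0 1))) (.uu (.q 4 5) (.q 0 1))) (.sub (.q (-587) 2000) (.mul (.q 1571 500) (.var 1)))), (.sub (.mul (.q 1 5) (.var 3)) (.mul (.q 49 1000) (.sub (.q 43 50) (.var 2)))), (.sub (.mul (.q 1 5) (.neg (.var 3))) (.mul (.add (.var 1) (.q 11 500)) (.sub (.q 43 50) (.var 2)))), (.sub (.mul (.q 1 5) (.neg (.var 3))) (.mul (.q 91 1000) (.sub (.q 43 50) (.var 2))))] 40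
    6201063446958457139960596270424420018631788151277726782365769435477380006940785122464114624623821329563595765895865174519940266541064738
    ([V.of 10000 1800 2000 0, V.of 10000 210 920 0, V.of 10000 7910 8500 0, V.of 10000 (-910) 490 0]) =
    1 := by
  decide +kernel

theorem w_one_C3_p1 : Pool.Agent.Work.NumU.runT [(.sub (.add (.sub (.add (.add (.sub (.add (.mul .pi (.sub (.add (.mul (.sub (.q 21 100) (.var 0)) (.var 3)) (.mul (.var 1) (.var 2))) (.var 1))) (.add (.uu (.sub (.add (.q 21 100) (.var 2)) (.q 1 1)) (.add (.var 1) (.var 3))) (.mul .pi (.add (.var 1) (.var 3))))) (.uu (.q 21 100) (.var 1))) (.neg (.uu (.add (.var 0) (.var 2)) (.var 3)))) (.mul (.uu (.q 1 50) (.q 0 1)) (.q 3 1))) (.uu (.add (.var 0) (.q 4 5)) (.q 0 1))) (.uu (.q 4 5) (.q 0 1))) (.sub (.q (-497) 1000) (.mul (.q (-141) 125) (.var 1)))), (.sub (.add (.sub (.add (.add (.sub (.add (.mul .pi (.sub (.add (.mul (.sub (.q 21 100) (.var 0)) (.var 3))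 (.mul (.var 1) (.var 2))) (.var 1))) (.sub (.uu (.sub (.add (.q 21 100) (.var 2)) (.q 1 1)) (.add (.var 1) (.var 3))) (.mul .pi (.add (.var 1) (.var 3))))) (.uu (.q 21 100) (.var 1))) (.neg (.uu (.add (.var 0) (.var 2)) (.var 3)))) (.mul (.uu (.q 1 50) (.q 0 1)) (.q 3 1))) (.uu (.add (.var 0) (.q 4 5)) (.q 0 1))) (.uu (.q 4 5) (.q 0 1))) (.sub (.q (-497) 1000) (.mul (.q (-141) 125) (.var 1)))), (.sub (.add (.sub (.add (.add (.sub (.add (.mul .pi (.sub (.add (.mul (.sub (.q 21 100) (.var 0)) (.var 3)) (.mul (.var 1) (.var 2))) (.var 1))) (.add (.uu (.sub (.add (.q 21 100) (.var 2)) (.q 1 1)) (.add (.var 1) (.var 3))) (.mul .pi (.add (.var 1) (.var 3))))) (.uu (.q 21 100) (.var 1))) (.neg (.uu (.add (.var 0) (.var 2)) (.var 3)))) (.mul (.uu (.q 1 50) (.q 0 1)) (.q 3 1))) (.uu (.add (.var 0) (.q 4 5)) (.q 0 1))) (.uu (.q 4 5) (.q 0 1))) (.sub (.q (-587) 2000) (.mul (.q 1571 500) (.var 1)))), (.sub (.add (.sub (.add (.add (.sub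 (.add (.mul .pi (.sub (.add (.mul (.sub (.q 21 100) (.var 0)) (.var 3)) (.mul (.var 1) (.var 2))) (.var 1))) (.sub (.uu (.sub (.add (.q 21 100) (.var 2)) (.q 1 1)) (.add (.var 1) (.var 3))) (.mul .pi (.add (.var 1) (.var 3))))) (.uu (.q 21 100) (.var 1))) (.neg (.uu (.add (.var 0) (.var 2)) (.var 3)))) (.mul (.uu (.q 1 50) (.q 0 1)) (.q 3 1))) (.uu (.add (.var 0) (.q 4 5)) (.q 0 1))) (.uu (.q 4 5) (.q 0 1))) (.sub (.q (-587) 2000) (.mul (.q 1571 500) (.var 1)))), (.sub (.mul (.q 1 5) (.var 3)) (.mul (.q 49 1000) (.sub (.q 43 50) (.var 2)))), (.sub (.mul (.q 1 5) (.neg (.var 3))) (.mul (.add (.var 1) (.q 11 500)) (.sub (.q 43 50) (.var 2)))), (.sub (.mul (.q 1 5) (.neg (.var 3))) (.mul (.q 91 1000) (.sub (.q 43 50) (.var 2))))] 40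
    5306606247167332779042831144650128869459891565542495885961209867020822523299767213686716816488780330917931655714
    ([V.of 10000 0 200 0, V.of 10000 210 920 0, V.of 10000 7910 8600 0, V.of 10000 (-910) 490 0]) =
    1 := by
  decide +kernel

theorem w_two_A1_p1 : Pool.Agent.Work.NumU.runT [(.sub (.add (.sub (.add (.add (.sub (.add (.mul .pi (.sub (.add (.mul (.sub (.q 21 100) (.var 0)) (.var 3)) (.mul (.var 1) (.var 2))) (.var 1))) (.uu (.add (.q 21 100) (.var 2)) (.add (.var 1) (.var 3)))) (.uu (.q 21 100) (.var 1))) (.neg (.uu (.add (.var 0) (.var 2)) (.var 3)))) (.mul (.uu (.var 0) (.q 0 1)) (.q 3 1))) (.uu (.add (.var 0) (.q 4 5)) (.q 0 1))) (.uu (.q 4 5) (.q 0 1))) (.sub (.q (-2911) 10000) (.mul (.q 1571 500) (.var 1)))), (.sub (.mul (.q 4 25) (.var 3)) (.mul (.q 77 1000) (.var 2))), (.sub (.mul (.q 29 100) (.var 3)) (.mul (.q 77 1000) (.sub (.q 4 5) (.var 2))))] 40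
    2369041786485726713565861418003987895361224665890486724997838214760709724151338218609045477098877920802230735671878256113505810561474450288929990252158197692506146
    ([V.of 10000 200 1800 0, V.of 10000 460 940 0, V.of 10000 0 7850 0, V.of 10000 0 770 0]) =
    1 := by
  decide +kernel

theorem w_twoE_A1_p1 : Pool.Agent.Work.NumU.runT [(.sub (.add (.sub (.add (.add (.sub (.add (.mul .pi (.sub (.add (.mul (.sub (.q 21 100) (.var 0)) (.var 3)) (.mul (.var 1) (.var 2))) (.var 1))) (.uu (.add (.q 21 100) (.var 2)) (.add (.var 1) (.var 3)))) (.uu (.q 21 100) (.var 1))) (.neg (.uu (.add (.var 0) (.var 2)) (.var 3)))) (.mul (.uu (.var 0) (.q 0 1)) (.q 3 1))) (.uu (.add (.var 0) (.q 4 5)) (.q 0 1))) (.uu (.q 4 5) (.q 0 1))) (.sub (.q (-541) 2000) (.mul (.q 2721 1000) (.var 1)))), (.sub (.mul (.q 7 50) (.neg (.var 3))) (.mul (.q 9 200) (.var 2))), (.sub (.mul (.q 7 20) (.neg (.var 3))) (.mul (.q 9 200) (.sub (.q 7 10) (.var 2))))]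 40
    277355443874971216272278103157670460132506778590279630229043527880925117578033171430381847042
    ([V.of 10000 200 1800 0, V.of 10000 870 1145 0, V.of 10000 800 7000 0, V.of 10000 (-450) 0 0]) =
    1 := by
  decide +kernel

end L2
end TL
end Pool.Agent.Work.MP_b30479_gt.G2
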