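import Pool.Agent.Work.MP_b30479_gt.G2.TL2wAs2
import Pool.Agent.Work.MP_b30479_gt.G2.TL2wAs3
import Pool.Agent.Work.MP_b30479_gt.G2.TL2wAs4

/-!
# Tails, interior three with its inner variable in the tail: the slot `2`, certificates

Variables `w`, `t`, `X`, `Y`.
-/

set_option linter.unusedVariables false
set_option linter.unusedSimpArgs false
set_option linter.unusedTactic false
set_option linter.unreachableTactic false

namespace Pool.Agent.Work.MP_b30479_gt.G2

open NumU
open NumU.E
open NumI (V)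

namespace TL

namespace L2

/-- 1098 boxes -/
theorem w_one_A3 {w t X Y : ℝ}
    (a0 : 200 / 10000 ≤ w) (b0 : w ≤ 1800 / 10000)
    (a1 : 210 / 10000 ≤ t) (b1 : t ≤ 920 / 10000)
    (a2 : 7910 / 10000 ≤ X) (b2 : X ≤ 8600 / 10000)
    (a3 : -(910 / 10000) ≤ Y) (b3 : Y ≤ 490 / 10000)
    (r0 : 1 / 5 * Y ≤ 49 / 1000 * (43 / 50 - X))
    (r1 : 1 / 5 * (-Y) ≤ (t + 11 / 500) * (43 / 50 - X))
    (r2 : 1 / 5 * (-Y) ≤ 91 / 1000 * (43 / 50 - X))
    (r3 : w + X ≤ 49 / 50)
    (g0 : Real.pi * ((21 / 100 - w) * Y + t * X - t) + (uu (21 / 100 + X - 1) (t + Y) + Real.pi *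
        (t + Y)) - uu (21 / 100) t + (-uu (w + X) Y) + uu w 0 * 3 - uu (w + 4 / 5) 0 + uu (4 / 5)
        0 - ((-(497 / 1000)) - (-(141 / 125)) * t) ≤ 0)
    (g1 : Real.pi * ((21 / 100 - w) * Y + t * X - t) + (uu (21 / 100 + X - 1) (t + Y) - Real.pi *
        (t + Y)) - uu (21 / 100) t + (-uu (w + X) Y) + uu w 0 * 3 - uu (w + 4 / 5) 0 + uu (4 / 5)
        0 - ((-(497 / 1000)) - (-(141 / 125)) * t) ≤ 0)
    (g2 : Real.pi * ((21 / 100 - w) * Y + t * X - t) + (uu (21 / 100 + X - 1) (t + Y) + Real.pi *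
        (t + Y)) - uu (21 / 100) t + (-uu (w + X) Y) + uu w 0 * 3 - uu (w + 4 / 5) 0 + uu (4 / 5)
        0 - ((-(587 / 2000)) - 1571 / 500 * t) ≤ 0)
    (g3 : Real.pi * ((21 / 100 - w) * Y + t * X - t) + (uu (21 / 100 + X - 1) (t + Y) - Real.pi *
        (t + Y)) - uu (21 / 100) t + (-uu (w + X) Y) + uu w 0 * 3 - uu (w + 4 / 5) 0 + uu (4 / 5)
        0 - ((-(587 / 2000)) - 1571 / 500 * t) ≤ 0) : False := by
  have h : chkT [(.sub (.add (.sub (.add (.add (.sub (.add (.mul .pi (.sub (.add (.mul (.sub (.q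
      21 100) (.var 0)) (.var 3)) (.mul (.var 1) (.var 2))) (.var 1))) (.add (.uu (.sub (.add (.q
      21 100) (.var 2)) (.q 1 1)) (.add (.var 1) (.var 3))) (.mul .pi (.add (.var 1) (.var 3)))))
      (.uu (.q 21 100) (.var 1))) (.neg (.uu (.add (.var 0) (.var 2)) (.var 3)))) (.mul (.uu
      (.var 0) (.q 0 1)) (.q 3 1))) (.uu (.add (.var 0) (.q 4 5)) (.q 0 1))) (.uu (.q 4 5) (.q 0
      1))) (.sub (.q (-497) 1000) (.mul (.q (-141) 125) (.var 1)))), (.sub (.add (.sub (.add
      (.add (.sub (.add (.mul .pi (.sub (.add (.mul (.sub (.q 21 100) (.var 0)) (.var 3)) (.mul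
      (.var 1) (.var 2))) (.var 1))) (.sub (.uu (.sub (.add (.q 21 100) (.var 2)) (.q 1 1)) (.add
      (.var 1) (.var 3))) (.mul .pi (.add (.var 1) (.var 3))))) (.uu (.q 21 100) (.var 1))) (.neg
      (.uu (.add (.var 0) (.var 2)) (.var 3)))) (.mul (.uu (.var 0) (.q 0 1)) (.q 3 1))) (.uu
      (.add (.var 0) (.q 4 5)) (.q 0 1))) (.uu (.q 4 5) (.q 0 1))) (.sub (.q (-497) 1000) (.mul
      (.q (-141) 125) (.var 1)))), (.sub (.add (.sub (.add (.add (.sub (.add (.mul .pi (.sub
      (.add (.mul (.sub (.q 21 100) (.var 0)) (.var 3)) (.mul (.var 1) (.var 2))) (.var 1)))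
      (.add (.uu (.sub (.add (.q 21 100) (.var 2)) (.q 1 1)) (.add (.var 1) (.var 3))) (.mul .pi
      (.add (.var 1) (.var 3))))) (.uu (.q 21 100) (.var 1))) (.neg (.uu (.add (.var 0) (.var 2))
      (.var 3)))) (.mul (.uu (.var 0) (.q 0 1)) (.q 3 1))) (.uu (.add (.var 0) (.q 4 5)) (.q 0
      1))) (.uu (.q 4 5) (.q 0 1))) (.sub (.q (-587) 2000) (.mul (.q 1571 500) (.var 1)))), (.sub
      (.add (.sub (.add (.add (.sub (.add (.mul .pi (.sub (.add (.mul (.sub (.q 21 100) (.var 0))
      (.var 3)) (.mul (.var 1) (.var 2))) (.var 1))) (.sub (.uu (.sub (.add (.q 21 100) (.var 2))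
      (.q 1 1)) (.add (.var 1) (.var 3))) (.mul .pi (.add (.var 1) (.var 3))))) (.uu (.q 21 100)
      (.var 1))) (.neg (.uu (.add (.var 0) (.var 2)) (.var 3)))) (.mul (.uu (.var 0) (.q 0 1))
      (.q 3 1))) (.uu (.add (.var 0) (.q 4 5)) (.q 0 1))) (.uu (.q 4 5) (.q 0 1))) (.sub (.q
      (-587) 2000) (.mul (.q 1571 500) (.var 1)))), (.sub (.mul (.q 1 5) (.var 3)) (.mul (.q 49
      1000) (.sub (.q 43 50) (.var 2)))), (.sub (.mul (.q 1 5) (.neg (.var 3))) (.mul (.add (.var
      1) (.q 11 500)) (.sub (.q 43 50) (.var 2)))), (.sub (.mul (.q 1 5) (.neg (.var 3))) (.mul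
      (.q 91 1000) (.sub (.q 43 50) (.var 2)))), (.sub (.add (.var 0) (.var 2)) (.q 49 50))] 40
      8839947932110357521296000851688326789798404723607857177099583476926266099366886901591849531148015541818828250854197126405887500344909222012632008019053675035698619224883481836106645386851507817271483922972120913720258269740986410267472895130912823527451494056413402222581434717002530354844624798583092300632090957028314555298576480805573503312105934697706229865683484860539091371264922186440763281722219726581627795350997148372355544569546131719974647862779073889143784802130478459234387124167488053650883588398185171715923699171621563944176443715230746991304078998568697358131950004411206316222482569137076895360648510301554874262949569914654373240065618196982179345599091298800229513359198079521593329061980646911161952697637220057457312063135666178875074300145856420117747964258823870423630340246380639929078593976031270627798040900628761681395026432687216600409486551155276304041048231150033259078739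84193719639171475757562630995317079563357300248026512384811997749944962653716020777789221904220307000515181276667594164472099407601995542253454591752671273721130473337233465461676848394542296096622287021598453272412193597939653960749983342264712705577592734671030866508691300802029247447658927587210531845383450792640984260796295503741782770053456925581100933246456236314462232315581181597717497104345709987113150977578465981826524285730699853688203167435468477847766705327200573377031652500276360841595838432984487741070898991433675546630779583692648090764541832377614688856595539509503400582604426522181502565811732494660365439082292294991657145791361358614168023616286601355341691761764629952903459927228771312815442814219203636717762448553926680916696043667862651978667191773761376141636089848409577078320361536869431004405813315725758185267674599863755313328538453727353918600022149303883869262023530946832343121499108674605381744473669927239550243771592693628794248099339176264567482511507907923208711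304862081574111963597113193114363416570971513648299086452095338003754333902927914265150472501653065051734165745321234871355529359202195766837078023848272380660171155567689716038637815865340624308964563669996361706492518768475624345066821799087104173167961338760216158918104105994646127195840533685152670398299243335953679669586478288675179480823523685078445932274079259658787559303940223448570039123673169079315724180173623466145958148353927496584310924930674828480171197180304763404296748895341771233249599803191461752267864070004829345464942689644587913722956623132908554233584841474040531565731247833080077597127954433875126649922301865140029389861702610742255792575719902500359523791225921814264772201172511259473991698030404128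
      [V.of 10000 200 1800 0, V.of 10000 210 920 0, V.of 10000 7910 8600 0, V.of 10000 (-910) 490
          0] = true :=
      Pool.Agent.Work.NumU.chkT_of (Pool.Agent.Work.NumU.runT_split rfl rfl rfl
        (Pool.Agent.Work.NumU.runT_split rfl rfl rfl
          (Pool.Agent.Work.NumU.runT_split rfl rfl rfl
            w_one_A3_p1
            w_one_A3_p2)
          w_one_A3_p3)
        (Pool.Agent.Work.NumU.runT_split rfl rfl rfl
          w_one_A3_p4
          (Pool.Agent.Work.NumU.runT_split rfl rfl rfl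
            (Pool.Agent.Work.NumU.runT_split rfl rfl rfl
              (Pool.Agent.Work.NumU.runT_split rfl rfl rfl
                (Pool.Agent.Work.NumU.runT_split rfl rfl rfl
                  w_one_A3_p5
                  w_one_A3_p6)
                w_one_A3_p7)
              w_one_A3_p8)
            w_one_A3_p9)))
  obtain ⟨e, he, hp⟩ := chkT4 h (by norm_num) (x := w) (y := t) (z := X) (w := Y)
    (le_trans (by norm_num) a0) (le_trans b0 (by norm_num))
    (le_trans (by norm_num) a1) (le_trans b1 (by norm_num))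
    (le_trans (by norm_num) a2) (le_trans b2 (by norm_num))
    (le_trans (by norm_num) a3) (le_trans b3 (by norm_num))
  simp only [List.mem_cons, List.not_mem_nil, or_false] at he
  rcases he with rfl | rfl | rfl | rfl | rfl | rfl | rfl | rfl
  · simp only [E.val, NumI.lkR] at hp
    push_cast at hp
    try simp only [zero_div, div_one] at hp
    linarith only [g0, hp]
  · simp only [E.val, NumI.lkR] at hp
    push_cast at hp
    try simp only [zero_div, div_one] at hp
    linarith only [g1, hp]
  · simp only [E.val, NumI.lkR] at hp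
    push_cast at hp
    try simp only [zero_div, div_one] at hp
    linarith only [g2, hp]
  · simp only [E.val, NumI.lkR] at hp
    push_cast at hp
    try simp only [zero_div, div_one] at hp
    linarith only [g3, hp]
  · simp only [E.val, NumI.lkR] at hp
    push_cast at hp
    try simp only [zero_div, div_one] at hp
    linarith only [r0, hp]
  · simp only [E.val, NumI.lkR] at hp
    push_cast at hp
    try simp only [zero_div, div_one] at hp
    linarith only [r1, hp]
  · simp only [E.val, NumI.lkR] at hp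
    push_cast at hp
    try simp only [zero_div, div_one] at hp
    linarith only [r2, hp]
  · simp only [E.val, NumI.lkR] at hp
    push_cast at hp
    try simp only [zero_div, div_one] at hp
    linarith only [r3, hp]

/-- 95 boxes -/
theorem w_one_A4 {w t X Y : ℝ}
    (a0 : 1200 / 10000 ≤ w) (b0 : w ≤ 1800 / 10000)
    (a1 : 210 / 10000 ≤ t) (b1 : t ≤ 920 / 10000)
    (a2 : 7910 / 10000 ≤ X) (b2 : X ≤ 8600 / 10000)
    (a3 : -(910 / 10000) ≤ Y) (b3 : Y ≤ 490 / 10000)
    (r0 : 1 / 5 * Y ≤ 49 / 1000 * (43 / 50 - X))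
    (r1 : 1 / 5 * (-Y) ≤ (t + 11 / 500) * (43 / 50 - X))
    (r2 : 1 / 5 * (-Y) ≤ 91 / 1000 * (43 / 50 - X))
    (g0 : Real.pi * ((21 / 100 - w) * Y + t * X - t) + (uu (21 / 100 + X - 1) (t + Y) + Real.pi *
        (t + Y)) - uu (21 / 100) t + uu (1 / 50) Y + uu w 0 * 3 - uu (w + 4 / 5) 0 + uu (4 / 5) 0
        - ((-(497 / 1000)) - (-(141 / 125)) * t) ≤ 0)
    (g1 : Real.pi * ((21 / 100 - w) * Y + t * X - t) + (uu (21 / 100 + X - 1) (t + Y) - Real.pi *
        (t + Y)) - uu (21 / 100) t + uu (1 / 50) Y + uu w 0 * 3 - uu (w + 4 / 5) 0 + uu (4 / 5) 0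
        - ((-(497 / 1000)) - (-(141 / 125)) * t) ≤ 0)
    (g2 : Real.pi * ((21 / 100 - w) * Y + t * X - t) + (uu (21 / 100 + X - 1) (t + Y) + Real.pi *
        (t + Y)) - uu (21 / 100) t + uu (1 / 50) Y + uu w 0 * 3 - uu (w + 4 / 5) 0 + uu (4 / 5) 0
        - ((-(587 / 2000)) - 1571 / 500 * t) ≤ 0)
    (g3 : Real.pi * ((21 / 100 - w) * Y + t * X - t) + (uu (21 / 100 + X - 1) (t + Y) - Real.pi *
        (t + Y)) - uu (21 / 100) t + uu (1 / 50) Y + uu w 0 * 3 - uu (w + 4 / 5) 0 + uu (4 / 5) 0
        - ((-(587 / 2000)) - 1571 / 500 * t) ≤ 0) : False := by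
  have h : chkT [(.sub (.add (.sub (.add (.add (.sub (.add (.mul .pi (.sub (.add (.mul (.sub (.q
      21 100) (.var 0)) (.var 3)) (.mul (.var 1) (.var 2))) (.var 1))) (.add (.uu (.sub (.add (.q
      21 100) (.var 2)) (.q 1 1)) (.add (.var 1) (.var 3))) (.mul .pi (.add (.var 1) (.var 3)))))
      (.uu (.q 21 100) (.var 1))) (.uu (.q 1 50) (.var 3))) (.mul (.uu (.var 0) (.q 0 1)) (.q 3
      1))) (.uu (.add (.var 0) (.q 4 5)) (.q 0 1))) (.uu (.q 4 5) (.q 0 1))) (.sub (.q (-497)
      1000) (.mul (.q (-141) 125) (.var 1)))), (.sub (.add (.sub (.add (.add (.sub (.add (.mul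
      .pi (.sub (.add (.mul (.sub (.q 21 100) (.var 0)) (.var 3)) (.mul (.var 1) (.var 2))) (.var
      1))) (.sub (.uu (.sub (.add (.q 21 100) (.var 2)) (.q 1 1)) (.add (.var 1) (.var 3))) (.mul
      .pi (.add (.var 1) (.var 3))))) (.uu (.q 21 100) (.var 1))) (.uu (.q 1 50) (.var 3))) (.mul
      (.uu (.var 0) (.q 0 1)) (.q 3 1))) (.uu (.add (.var 0) (.q 4 5)) (.q 0 1))) (.uu (.q 4 5)
      (.q 0 1))) (.sub (.q (-497) 1000) (.mul (.q (-141) 125) (.var 1)))), (.sub (.add (.sub
      (.add (.add (.sub (.add (.mul .pi (.sub (.add (.mul (.sub (.q 21 100) (.var 0)) (.var 3))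
      (.mul (.var 1) (.var 2))) (.var 1))) (.add (.uu (.sub (.add (.q 21 100) (.var 2)) (.q 1 1))
      (.add (.var 1) (.var 3))) (.mul .pi (.add (.var 1) (.var 3))))) (.uu (.q 21 100) (.var 1)))
      (.uu (.q 1 50) (.var 3))) (.mul (.uu (.var 0) (.q 0 1)) (.q 3 1))) (.uu (.add (.var 0) (.q
      4 5)) (.q 0 1))) (.uu (.q 4 5) (.q 0 1))) (.sub (.q (-587) 2000) (.mul (.q 1571 500) (.var
      1)))), (.sub (.add (.sub (.add (.add (.sub (.add (.mul .pi (.sub (.add (.mul (.sub (.q 21
      100) (.var 0)) (.var 3)) (.mul (.var 1) (.var 2))) (.var 1))) (.sub (.uu (.sub (.add (.q 21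
      100) (.var 2)) (.q 1 1)) (.add (.var 1) (.var 3))) (.mul .pi (.add (.var 1) (.var 3)))))
      (.uu (.q 21 100) (.var 1))) (.uu (.q 1 50) (.var 3))) (.mul (.uu (.var 0) (.q 0 1)) (.q 3
      1))) (.uu (.add (.var 0) (.q 4 5)) (.q 0 1))) (.uu (.q 4 5) (.q 0 1))) (.sub (.q (-587)
      2000) (.mul (.q 1571 500) (.var 1)))), (.sub (.mul (.q 1 5) (.var 3)) (.mul (.q 49 1000)
      (.sub (.q 43 50) (.var 2)))), (.sub (.mul (.q 1 5) (.neg (.var 3))) (.mul (.add (.var 1)
      (.q 11 500)) (.sub (.q 43 50) (.var 2)))), (.sub (.mul (.q 1 5) (.neg (.var 3))) (.mul (.q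
      91 1000) (.sub (.q 43 50) (.var 2))))] 40
      296862708936619447681169888456072005426538975355561160265720927411527756623696605295338219068088282887809727207152287801724680249086693284141666519678047080044794118984439827767124238818298696316906788273015689324286682212737570
      [V.of 10000 1200 1800 0, V.of 10000 210 920 0, V.of 10000 7910 8600 0, V.of 10000 (-910)
          490 0] = true :=
      Pool.Agent.Work.NumU.chkT_of w_one_A4_p1
  obtain ⟨e, he, hp⟩ := chkT4 h (by norm_num) (x := w) (y := t) (z := X) (w := Y)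
    (le_trans (by norm_num) a0) (le_trans b0 (by norm_num))
    (le_trans (by norm_num) a1) (le_trans b1 (by norm_num))
    (le_trans (by norm_num) a2) (le_trans b2 (by norm_num))
    (le_trans (by norm_num) a3) (le_trans b3 (by norm_num))
  simp only [List.mem_cons, List.not_mem_nil, or_false] at he
  rcases he with rfl | rfl | rfl | rfl | rfl | rfl | rfl
  · simp only [E.val, NumI.lkR] at hp
    push_cast at hp
    try simp only [zero_div, div_one] at hp
    linarith only [g0, hp]
  · simp only [E.val, NumI.lkR] at hp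
    push_cast at hp
    try simp only [zero_div, div_one] at hp
    linarith only [g1, hp]
  · simp only [E.val, NumI.lkR] at hp
    push_cast at hp
    try simp only [zero_div, div_one] at hp
    linarith only [g2, hp]
  · simp only [E.val, NumI.lkR] at hp
    push_cast at hp
    try simp only [zero_div, div_one] at hp
    linarith only [g3, hp]
  · simp only [E.val, NumI.lkR] at hp
    push_cast at hp
    try simp only [zero_div, div_one] at hp
    linarith only [r0, hp]
  · simp only [E.val, NumI.lkR] at hp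
    push_cast at hp
    try simp only [zero_div, div_one] at hp
    linarith only [r1, hp]
  · simp only [E.val, NumI.lkR] at hp
    push_cast at hp
    try simp only [zero_div, div_one] at hp
    linarith only [r2, hp]

/-- 57 boxes -/
theorem w_one_B3 {w t X Y : ℝ}
    (a0 : 1800 / 10000 ≤ w) (b0 : w ≤ 2000 / 10000)
    (a1 : 210 / 10000 ≤ t) (b1 : t ≤ 920 / 10000)
    (a2 : 7910 / 10000 ≤ X) (b2 : X ≤ 8500 / 10000)
    (a3 : -(910 / 10000) ≤ Y) (b3 : Y ≤ 490 / 10000)
    (r0 : 1 / 5 * Y ≤ 49 / 1000 * (43 / 50 - X))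
    (r1 : 1 / 5 * (-Y) ≤ (t + 11 / 500) * (43 / 50 - X))
    (r2 : 1 / 5 * (-Y) ≤ 91 / 1000 * (43 / 50 - X))
    (g0 : Real.pi * ((21 / 100 - w) * Y + t * X - t) + (uu (21 / 100 + X - 1) (t + Y) + Real.pi *
        (t + Y)) - uu (21 / 100) t + uu (3 / 100) Y + uu w 0 * 3 - uu (49 / 50) 0 + uu (4 / 5) 0
        - ((-(497 / 1000)) - (-(141 / 125)) * t) ≤ 0)
    (g1 : Real.pi * ((21 / 100 - w) * Y + t * X - t) + (uu (21 / 100 + X - 1) (t + Y) - Real.pi *
        (t + Y)) - uu (21 / 100) t + uu (3 / 100) Y + uu w 0 * 3 - uu (49 / 50) 0 + uu (4 / 5) 0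
        - ((-(497 / 1000)) - (-(141 / 125)) * t) ≤ 0)
    (g2 : Real.pi * ((21 / 100 - w) * Y + t * X - t) + (uu (21 / 100 + X - 1) (t + Y) + Real.pi *
        (t + Y)) - uu (21 / 100) t + uu (3 / 100) Y + uu w 0 * 3 - uu (49 / 50) 0 + uu (4 / 5) 0
        - ((-(587 / 2000)) - 1571 / 500 * t) ≤ 0)
    (g3 : Real.pi * ((21 / 100 - w) * Y + t * X - t) + (uu (21 / 100 + X - 1) (t + Y) - Real.pi *
        (t + Y)) - uu (21 / 100) t + uu (3 / 100) Y + uu w 0 * 3 - uu (49 / 50) 0 + uu (4 / 5) 0
        - ((-(587 / 2000)) - 1571 / 500 * t) ≤ 0) : False := by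
  have h : chkT [(.sub (.add (.sub (.add (.add (.sub (.add (.mul .pi (.sub (.add (.mul (.sub (.q
      21 100) (.var 0)) (.var 3)) (.mul (.var 1) (.var 2))) (.var 1))) (.add (.uu (.sub (.add (.q
      21 100) (.var 2)) (.q 1 1)) (.add (.var 1) (.var 3))) (.mul .pi (.add (.var 1) (.var 3)))))
      (.uu (.q 21 100) (.var 1))) (.uu (.q 3 100) (.var 3))) (.mul (.uu (.var 0) (.q 0 1)) (.q 3
      1))) (.uu (.q 49 50) (.q 0 1))) (.uu (.q 4 5) (.q 0 1))) (.sub (.q (-497) 1000) (.mul (.q
      (-141) 125) (.var 1)))), (.sub (.add (.sub (.add (.add (.sub (.add (.mul .pi (.sub (.add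
      (.mul (.sub (.q 21 100) (.var 0)) (.var 3)) (.mul (.var 1) (.var 2))) (.var 1))) (.sub (.uu
      (.sub (.add (.q 21 100) (.var 2)) (.q 1 1)) (.add (.var 1) (.var 3))) (.mul .pi (.add (.var
      1) (.var 3))))) (.uu (.q 21 100) (.var 1))) (.uu (.q 3 100) (.var 3))) (.mul (.uu (.var 0)
      (.q 0 1)) (.q 3 1))) (.uu (.q 49 50) (.q 0 1))) (.uu (.q 4 5) (.q 0 1))) (.sub (.q (-497)
      1000) (.mul (.q (-141) 125) (.var 1)))), (.sub (.add (.sub (.add (.add (.sub (.add (.mul
      .pi (.sub (.add (.mul (.sub (.q 21 100) (.var 0)) (.var 3)) (.mul (.var 1) (.var 2))) (.var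
      1))) (.add (.uu (.sub (.add (.q 21 100) (.var 2)) (.q 1 1)) (.add (.var 1) (.var 3))) (.mul
      .pi (.add (.var 1) (.var 3))))) (.uu (.q 21 100) (.var 1))) (.uu (.q 3 100) (.var 3)))
      (.mul (.uu (.var 0) (.q 0 1)) (.q 3 1))) (.uu (.q 49 50) (.q 0 1))) (.uu (.q 4 5) (.q 0
      1))) (.sub (.q (-587) 2000) (.mul (.q 1571 500) (.var 1)))), (.sub (.add (.sub (.add (.add
      (.sub (.add (.mul .pi (.sub (.add (.mul (.sub (.q 21 100) (.var 0)) (.var 3)) (.mul (.var
      1) (.var 2))) (.var 1))) (.sub (.uu (.sub (.add (.q 21 100) (.var 2)) (.q 1 1)) (.add (.var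
      1) (.var 3))) (.mul .pi (.add (.var 1) (.var 3))))) (.uu (.q 21 100) (.var 1))) (.uu (.q 3
      100) (.var 3))) (.mul (.uu (.var 0) (.q 0 1)) (.q 3 1))) (.uu (.q 49 50) (.q 0 1))) (.uu
      (.q 4 5) (.q 0 1))) (.sub (.q (-587) 2000) (.mul (.q 1571 500) (.var 1)))), (.sub (.mul (.q
      1 5) (.var 3)) (.mul (.q 49 1000) (.sub (.q 43 50) (.var 2)))), (.sub (.mul (.q 1 5) (.neg
      (.var 3))) (.mul (.add (.var 1) (.q 11 500)) (.sub (.q 43 50) (.var 2)))), (.sub (.mul (.q
      1 5) (.neg (.var 3))) (.mul (.q 91 1000) (.sub (.q 43 50) (.var 2))))] 40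
      6201063446958457139960596270424420018631788151277726782365769435477380006940785122464114624623821329563595765895865174519940266541064738
      [V.of 10000 1800 2000 0, V.of 10000 210 920 0, V.of 10000 7910 8500 0, V.of 10000 (-910)
          490 0] = true :=
      Pool.Agent.Work.NumU.chkT_of w_one_B3_p1
  obtain ⟨e, he, hp⟩ := chkT4 h (by norm_num) (x := w) (y := t) (z := X) (w := Y)
    (le_trans (by norm_num) a0) (le_trans b0 (by norm_num))
    (le_trans (by norm_num) a1) (le_trans b1 (by norm_num))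
    (le_trans (by norm_num) a2) (le_trans b2 (by norm_num))
    (le_trans (by norm_num) a3) (le_trans b3 (by norm_num))
  simp only [List.mem_cons, List.not_mem_nil, or_false] at he
  rcases he with rfl | rfl | rfl | rfl | rfl | rfl | rfl
  · simp only [E.val, NumI.lkR] at hp
    push_cast at hp
    try simp only [zero_div, div_one] at hp
    linarith only [g0, hp]
  · simp only [E.val, NumI.lkR] at hp
    push_cast at hp
    try simp only [zero_div, div_one] at hp
    linarith only [g1, hp]
  · simp only [E.val, NumI.lkR] at hp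
    push_cast at hp
    try simp only [zero_div, div_one] at hp
    linarith only [g2, hp]
  · simp only [E.val, NumI.lkR] at hp
    push_cast at hp
    try simp only [zero_div, div_one] at hp
    linarith only [g3, hp]
  · simp only [E.val, NumI.lkR] at hp
    push_cast at hp
    try simp only [zero_div, div_one] at hp
    linarith only [r0, hp]
  · simp only [E.val, NumI.lkR] at hp
    push_cast at hp
    try simp only [zero_div, div_one] at hp
    linarith only [r1, hp]
  · simp only [E.val, NumI.lkR] at hp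
    push_cast at hp
    try simp only [zero_div, div_one] at hp
    linarith only [r2, hp]

/-- 2 boxes -/
theorem w_one_B4 {w t X Y : ℝ}
    (a0 : 1800 / 10000 ≤ w) (b0 : w ≤ 2000 / 10000)
    (a1 : 210 / 10000 ≤ t) (b1 : t ≤ 920 / 10000)
    (a2 : 8500 / 10000 ≤ X) (b2 : X ≤ 8600 / 10000)
    (a3 : -(910 / 10000) ≤ Y) (b3 : Y ≤ 490 / 10000)
    (r0 : 1 / 5 * Y ≤ 49 / 1000 * (43 / 50 - X))
    (r1 : 1 / 5 * (-Y) ≤ (t + 11 / 500) * (43 / 50 - X))
    (r2 : 1 / 5 * (-Y) ≤ 91 / 1000 * (43 / 50 - X))
    (g0 : Real.pi * ((21 / 100 - w) * Y + t * X - t) + (uu (21 / 100 + X - 1) (t + Y) + Real.pi *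
        (t + Y)) - uu (21 / 100) t + (-(2 / 125)) + uu w 0 * 3 - uu (49 / 50) 0 + uu (4 / 5) 0 -
        ((-(497 / 1000)) - (-(141 / 125)) * t) ≤ 0)
    (g1 : Real.pi * ((21 / 100 - w) * Y + t * X - t) + (uu (21 / 100 + X - 1) (t + Y) - Real.pi *
        (t + Y)) - uu (21 / 100) t + (-(2 / 125)) + uu w 0 * 3 - uu (49 / 50) 0 + uu (4 / 5) 0 -
        ((-(497 / 1000)) - (-(141 / 125)) * t) ≤ 0)
    (g2 : Real.pi * ((21 / 100 - w) * Y + t * X - t) + (uu (21 / 100 + X - 1) (t + Y) + Real.pi *
        (t + Y)) - uu (21 / 100) t + (-(2 / 125)) + uu w 0 * 3 - uu (49 / 50) 0 + uu (4 / 5) 0 -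
        ((-(587 / 2000)) - 1571 / 500 * t) ≤ 0)
    (g3 : Real.pi * ((21 / 100 - w) * Y + t * X - t) + (uu (21 / 100 + X - 1) (t + Y) - Real.pi *
        (t + Y)) - uu (21 / 100) t + (-(2 / 125)) + uu w 0 * 3 - uu (49 / 50) 0 + uu (4 / 5) 0 -
        ((-(587 / 2000)) - 1571 / 500 * t) ≤ 0) : False := by
  have h : chkT [(.sub (.add (.sub (.add (.add (.sub (.add (.mul .pi (.sub (.add (.mul (.sub (.q
      21 100) (.var 0)) (.var 3)) (.mul (.var 1) (.var 2))) (.var 1))) (.add (.uu (.sub (.add (.q
      21 100) (.var 2)) (.q 1 1)) (.add (.var 1) (.var 3))) (.mul .pi (.add (.var 1) (.var 3)))))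
      (.uu (.q 21 100) (.var 1))) (.q (-2) 125)) (.mul (.uu (.var 0) (.q 0 1)) (.q 3 1))) (.uu
      (.q 49 50) (.q 0 1))) (.uu (.q 4 5) (.q 0 1))) (.sub (.q (-497) 1000) (.mul (.q (-141) 125)
      (.var 1)))), (.sub (.add (.sub (.add (.add (.sub (.add (.mul .pi (.sub (.add (.mul (.sub
      (.q 21 100) (.var 0)) (.var 3)) (.mul (.var 1) (.var 2))) (.var 1))) (.sub (.uu (.sub (.add
      (.q 21 100) (.var 2)) (.q 1 1)) (.add (.var 1) (.var 3))) (.mul .pi (.add (.var 1) (.var
      3))))) (.uu (.q 21 100) (.var 1))) (.q (-2) 125)) (.mul (.uu (.var 0) (.q 0 1)) (.q 3 1)))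
      (.uu (.q 49 50) (.q 0 1))) (.uu (.q 4 5) (.q 0 1))) (.sub (.q (-497) 1000) (.mul (.q (-141)
      125) (.var 1)))), (.sub (.add (.sub (.add (.add (.sub (.add (.mul .pi (.sub (.add (.mul
      (.sub (.q 21 100) (.var 0)) (.var 3)) (.mul (.var 1) (.var 2))) (.var 1))) (.add (.uu (.sub
      (.add (.q 21 100) (.var 2)) (.q 1 1)) (.add (.var 1) (.var 3))) (.mul .pi (.add (.var 1)
      (.var 3))))) (.uu (.q 21 100) (.var 1))) (.q (-2) 125)) (.mul (.uu (.var 0) (.q 0 1)) (.q 3
      1))) (.uu (.q 49 50) (.q 0 1))) (.uu (.q 4 5) (.q 0 1))) (.sub (.q (-587) 2000) (.mul (.q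
      1571 500) (.var 1)))), (.sub (.add (.sub (.add (.add (.sub (.add (.mul .pi (.sub (.add
      (.mul (.sub (.q 21 100) (.var 0)) (.var 3)) (.mul (.var 1) (.var 2))) (.var 1))) (.sub (.uu
      (.sub (.add (.q 21 100) (.var 2)) (.q 1 1)) (.add (.var 1) (.var 3))) (.mul .pi (.add (.var
      1) (.var 3))))) (.uu (.q 21 100) (.var 1))) (.q (-2) 125)) (.mul (.uu (.var 0) (.q 0 1))
      (.q 3 1))) (.uu (.q 49 50) (.q 0 1))) (.uu (.q 4 5) (.q 0 1))) (.sub (.q (-587) 2000) (.mul
      (.q 1571 500) (.var 1)))), (.sub (.mul (.q 1 5) (.var 3)) (.mul (.q 49 1000) (.sub (.q 43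
      50) (.var 2)))), (.sub (.mul (.q 1 5) (.neg (.var 3))) (.mul (.add (.var 1) (.q 11 500))
      (.sub (.q 43 50) (.var 2)))), (.sub (.mul (.q 1 5) (.neg (.var 3))) (.mul (.q 91 1000)
      (.sub (.q 43 50) (.var 2))))] 40
      2259
      [V.of 10000 1800 2000 0, V.of 10000 210 920 0, V.of 10000 8500 8600 0, V.of 10000 (-910)
          490 0] = true := by
    decide +kernel
  obtain ⟨e, he, hp⟩ := chkT4 h (by norm_num) (x := w) (y := t) (z := X) (w := Y)
    (le_trans (by norm_num) a0) (le_trans b0 (by norm_num))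
    (le_trans (by norm_num) a1) (le_trans b1 (by norm_num))
    (le_trans (by norm_num) a2) (le_trans b2 (by norm_num))
    (le_trans (by norm_num) a3) (le_trans b3 (by norm_num))
  simp only [List.mem_cons, List.not_mem_nil, or_false] at he
  rcases he with rfl | rfl | rfl | rfl | rfl | rfl | rfl
  · simp only [E.val, NumI.lkR] at hp
    push_cast at hp
    try simp only [zero_div, div_one] at hp
    linarith only [g0, hp]
  · simp only [E.val, NumI.lkR] at hp
    push_cast at hp
    try simp only [zero_div, div_one] at hp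
    linarith only [g1, hp]
  · simp only [E.val, NumI.lkR] at hp
    push_cast at hp
    try simp only [zero_div, div_one] at hp
    linarith only [g2, hp]
  · simp only [E.val, NumI.lkR] at hp
    push_cast at hp
    try simp only [zero_div, div_one] at hp
    linarith only [g3, hp]
  · simp only [E.val, NumI.lkR] at hp
    push_cast at hp
    try simp only [zero_div, div_one] at hp
    linarith only [r0, hp]
  · simp only [E.val, NumI.lkR] at hp
    push_cast at hp
    try simp only [zero_div, div_one] at hp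
    linarith only [r1, hp]
  · simp only [E.val, NumI.lkR] at hp
    push_cast at hp
    try simp only [zero_div, div_one] at hp
    linarith only [r2, hp]

/-- 47 boxes -/
theorem w_one_C3 {w t X Y : ℝ}
    (a0 : 0 / 10000 ≤ w) (b0 : w ≤ 200 / 10000)
    (a1 : 210 / 10000 ≤ t) (b1 : t ≤ 920 / 10000)
    (a2 : 7910 / 10000 ≤ X) (b2 : X ≤ 8600 / 10000)
    (a3 : -(910 / 10000) ≤ Y) (b3 : Y ≤ 490 / 10000)
    (r0 : 1 / 5 * Y ≤ 49 / 1000 * (43 / 50 - X))
    (r1 : 1 / 5 * (-Y) ≤ (t + 11 / 500) * (43 / 50 - X))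
    (r2 : 1 / 5 * (-Y) ≤ 91 / 1000 * (43 / 50 - X))
    (g0 : Real.pi * ((21 / 100 - w) * Y + t * X - t) + (uu (21 / 100 + X - 1) (t + Y) + Real.pi *
        (t + Y)) - uu (21 / 100) t + (-uu (w + X) Y) + uu (1 / 50) 0 * 3 - uu (w + 4 / 5) 0 + uu
        (4 / 5) 0 - ((-(497 / 1000)) - (-(141 / 125)) * t) ≤ 0)
    (g1 : Real.pi * ((21 / 100 - w) * Y + t * X - t) + (uu (21 / 100 + X - 1) (t + Y) - Real.pi *
        (t + Y)) - uu (21 / 100) t + (-uu (w + X) Y) + uu (1 / 50) 0 * 3 - uu (w + 4 / 5) 0 + uu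
        (4 / 5) 0 - ((-(497 / 1000)) - (-(141 / 125)) * t) ≤ 0)
    (g2 : Real.pi * ((21 / 100 - w) * Y + t * X - t) + (uu (21 / 100 + X - 1) (t + Y) + Real.pi *
        (t + Y)) - uu (21 / 100) t + (-uu (w + X) Y) + uu (1 / 50) 0 * 3 - uu (w + 4 / 5) 0 + uu
        (4 / 5) 0 - ((-(587 / 2000)) - 1571 / 500 * t) ≤ 0)
    (g3 : Real.pi * ((21 / 100 - w) * Y + t * X - t) + (uu (21 / 100 + X - 1) (t + Y) - Real.pi *
        (t + Y)) - uu (21 / 100) t + (-uu (w + X) Y) + uu (1 / 50) 0 * 3 - uu (w + 4 / 5) 0 + uu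
        (4 / 5) 0 - ((-(587 / 2000)) - 1571 / 500 * t) ≤ 0) : False := by
  have h : chkT [(.sub (.add (.sub (.add (.add (.sub (.add (.mul .pi (.sub (.add (.mul (.sub (.q
      21 100) (.var 0)) (.var 3)) (.mul (.var 1) (.var 2))) (.var 1))) (.add (.uu (.sub (.add (.q
      21 100) (.var 2)) (.q 1 1)) (.add (.var 1) (.var 3))) (.mul .pi (.add (.var 1) (.var 3)))))
      (.uu (.q 21 100) (.var 1))) (.neg (.uu (.add (.var 0) (.var 2)) (.var 3)))) (.mul (.uu (.q
      1 50) (.q 0 1)) (.q 3 1))) (.uu (.add (.var 0) (.q 4 5)) (.q 0 1))) (.uu (.q 4 5) (.q 0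
      1))) (.sub (.q (-497) 1000) (.mul (.q (-141) 125) (.var 1)))), (.sub (.add (.sub (.add
      (.add (.sub (.add (.mul .pi (.sub (.add (.mul (.sub (.q 21 100) (.var 0)) (.var 3)) (.mul
      (.var 1) (.var 2))) (.var 1))) (.sub (.uu (.sub (.add (.q 21 100) (.var 2)) (.q 1 1)) (.add
      (.var 1) (.var 3))) (.mul .pi (.add (.var 1) (.var 3))))) (.uu (.q 21 100) (.var 1))) (.neg
      (.uu (.add (.var 0) (.var 2)) (.var 3)))) (.mul (.uu (.q 1 50) (.q 0 1)) (.q 3 1))) (.uu
      (.add (.var 0) (.q 4 5)) (.q 0 1))) (.uu (.q 4 5) (.q 0 1))) (.sub (.q (-497) 1000) (.mul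
      (.q (-141) 125) (.var 1)))), (.sub (.add (.sub (.add (.add (.sub (.add (.mul .pi (.sub
      (.add (.mul (.sub (.q 21 100) (.var 0)) (.var 3)) (.mul (.var 1) (.var 2))) (.var 1)))
      (.add (.uu (.sub (.add (.q 21 100) (.var 2)) (.q 1 1)) (.add (.var 1) (.var 3))) (.mul .pi
      (.add (.var 1) (.var 3))))) (.uu (.q 21 100) (.var 1))) (.neg (.uu (.add (.var 0) (.var 2))
      (.var 3)))) (.mul (.uu (.q 1 50) (.q 0 1)) (.q 3 1))) (.uu (.add (.var 0) (.q 4 5)) (.q 0
      1))) (.uu (.q 4 5) (.q 0 1))) (.sub (.q (-587) 2000) (.mul (.q 1571 500) (.var 1)))), (.sub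
      (.add (.sub (.add (.add (.sub (.add (.mul .pi (.sub (.add (.mul (.sub (.q 21 100) (.var 0))
      (.var 3)) (.mul (.var 1) (.var 2))) (.var 1))) (.sub (.uu (.sub (.add (.q 21 100) (.var 2))
      (.q 1 1)) (.add (.var 1) (.var 3))) (.mul .pi (.add (.var 1) (.var 3))))) (.uu (.q 21 100)
      (.var 1))) (.neg (.uu (.add (.var 0) (.var 2)) (.var 3)))) (.mul (.uu (.q 1 50) (.q 0 1))
      (.q 3 1))) (.uu (.add (.var 0) (.q 4 5)) (.q 0 1))) (.uu (.q 4 5) (.q 0 1))) (.sub (.q
      (-587) 2000) (.mul (.q 1571 500) (.var 1)))), (.sub (.mul (.q 1 5) (.var 3)) (.mul (.q 49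
      1000) (.sub (.q 43 50) (.var 2)))), (.sub (.mul (.q 1 5) (.neg (.var 3))) (.mul (.add (.var
      1) (.q 11 500)) (.sub (.q 43 50) (.var 2)))), (.sub (.mul (.q 1 5) (.neg (.var 3))) (.mul
      (.q 91 1000) (.sub (.q 43 50) (.var 2))))] 40
      5306606247167332779042831144650128869459891565542495885961209867020822523299767213686716816488780330917931655714
      [V.of 10000 0 200 0, V.of 10000 210 920 0, V.of 10000 7910 8600 0, V.of 10000 (-910) 490 0] = true :=
      Pool.Agent.Work.NumU.chkT_of w_one_C3_p1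
  obtain ⟨e, he, hp⟩ := chkT4 h (by norm_num) (x := w) (y := t) (z := X) (w := Y)
    (le_trans (by norm_num) a0) (le_trans b0 (by norm_num))
    (le_trans (by norm_num) a1) (le_trans b1 (by norm_num))
    (le_trans (by norm_num) a2) (le_trans b2 (by norm_num))
    (le_trans (by norm_num) a3) (le_trans b3 (by norm_num))
  simp only [List.mem_cons, List.not_mem_nil, or_false] at he
  rcases he with rfl | rfl | rfl | rfl | rfl | rfl | rfl
  · simp only [E.val, NumI.lkR] at hp
    push_cast at hp
    try simp only [zero_div, div_one] at hp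
    linarith only [g0, hp]
  · simp only [E.val, NumI.lkR] at hp
    push_cast at hp
    try simp only [zero_div, div_one] at hp
    linarith only [g1, hp]
  · simp only [E.val, NumI.lkR] at hp
    push_cast at hp
    try simp only [zero_div, div_one] at hp
    linarith only [g2, hp]
  · simp only [E.val, NumI.lkR] at hp
    push_cast at hp
    try simp only [zero_div, div_one] at hp
    linarith only [g3, hp]
  · simp only [E.val, NumI.lkR] at hp
    push_cast at hp
    try simp only [zero_div, div_one] at hp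
    linarith only [r0, hp]
  · simp only [E.val, NumI.lkR] at hp
    push_cast at hp
    try simp only [zero_div, div_one] at hp
    linarith only [r1, hp]
  · simp only [E.val, NumI.lkR] at hp
    push_cast at hp
    try simp only [zero_div, div_one] at hp
    linarith only [r2, hp]

/-- 68 boxes -/
theorem w_two_A1 {w t X Y : ℝ}
    (a0 : 200 / 10000 ≤ w) (b0 : w ≤ 1800 / 10000)
    (a1 : 460 / 10000 ≤ t) (b1 : t ≤ 940 / 10000)
    (a2 : 0 / 10000 ≤ X) (b2 : X ≤ 7850 / 10000)
    (a3 : 0 / 10000 ≤ Y) (b3 : Y ≤ 770 / 10000)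
    (r0 : 4 / 25 * Y ≤ 77 / 1000 * X)
    (r1 : 29 / 100 * Y ≤ 77 / 1000 * (4 / 5 - X))
    (g0 : Real.pi * ((21 / 100 - w) * Y + t * X - t) + uu (21 / 100 + X) (t + Y) - uu (21 / 100)
        t + (-uu (w + X) Y) + uu w 0 * 3 - uu (w + 4 / 5) 0 + uu (4 / 5) 0 - ((-(2911 / 10000)) -
        1571 / 500 * t) ≤ 0) : False := by
  have h : chkT [(.sub (.add (.sub (.add (.add (.sub (.add (.mul .pi (.sub (.add (.mul (.sub (.q
      21 100) (.var 0)) (.var 3)) (.mul (.var 1) (.var 2))) (.var 1))) (.uu (.add (.q 21 100)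
      (.var 2)) (.add (.var 1) (.var 3)))) (.uu (.q 21 100) (.var 1))) (.neg (.uu (.add (.var 0)
      (.var 2)) (.var 3)))) (.mul (.uu (.var 0) (.q 0 1)) (.q 3 1))) (.uu (.add (.var 0) (.q 4
      5)) (.q 0 1))) (.uu (.q 4 5) (.q 0 1))) (.sub (.q (-2911) 10000) (.mul (.q 1571 500) (.var
      1)))), (.sub (.mul (.q 4 25) (.var 3)) (.mul (.q 77 1000) (.var 2))), (.sub (.mul (.q 29
      100) (.var 3)) (.mul (.q 77 1000) (.sub (.q 4 5) (.var 2))))] 40
      2369041786485726713565861418003987895361224665890486724997838214760709724151338218609045477098877920802230735671878256113505810561474450288929990252158197692506146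
      [V.of 10000 200 1800 0, V.of 10000 460 940 0, V.of 10000 0 7850 0, V.of 10000 0 770 0] = true :=
      Pool.Agent.Work.NumU.chkT_of w_two_A1_p1
  obtain ⟨e, he, hp⟩ := chkT4 h (by norm_num) (x := w) (y := t) (z := X) (w := Y)
    (le_trans (by norm_num) a0) (le_trans b0 (by norm_num))
    (le_trans (by norm_num) a1) (le_trans b1 (by norm_num))
    (le_trans (by norm_num) a2) (le_trans b2 (by norm_num))
    (le_trans (by norm_num) a3) (le_trans b3 (by norm_num))
  simp only [List.mem_cons, List.not_mem_nil, or_false] at he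
  rcases he with rfl | rfl | rfl
  · simp only [E.val, NumI.lkR] at hp
    push_cast at hp
    try simp only [zero_div, div_one] at hp
    linarith only [g0, hp]
  · simp only [E.val, NumI.lkR] at hp
    push_cast at hp
    try simp only [zero_div, div_one] at hp
    linarith only [r0, hp]
  · simp only [E.val, NumI.lkR] at hp
    push_cast at hp
    try simp only [zero_div, div_one] at hp
    linarith only [r1, hp]

end L2

end TL

end Pool.Agent.Work.MP_b30479_gt.G2
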