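import Pool.Agent.Work.MP_b30479_gt.G2.TL2wAs4

/-!
# Tails, interior three with its inner variable in the tail: the slot `2`, certificates

Variables `w`, `t`, `X`, `Y`.
-/

set_option linter.unusedVariables false
set_option linter.unusedSimpArgs false
set_option linter.unusedTactic false
set_option linter.unreachableTactic false

namespace Pool.Agent.Work.MP_b30479_gt.G2

open NumU
open NumU.E
open NumI (V)

namespace TL

namespace L2

/-- 9 boxes -/
theorem w_two_B1 {w t X Y : ℝ}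
    (a0 : 1800 / 10000 ≤ w) (b0 : w ≤ 2000 / 10000)
    (a1 : 460 / 10000 ≤ t) (b1 : t ≤ 940 / 10000)
    (a2 : 0 / 10000 ≤ X) (b2 : X ≤ 7850 / 10000)
    (a3 : 0 / 10000 ≤ Y) (b3 : Y ≤ 770 / 10000)
    (r0 : 4 / 25 * Y ≤ 77 / 1000 * X)
    (r1 : 29 / 100 * Y ≤ 77 / 1000 * (4 / 5 - X))
    (g0 : Real.pi * ((21 / 100 - w) * Y + t * X - t) + uu (21 / 100 + X) (t + Y) - uu (21 / 100)
        t + (-uu (w + X) Y) + uu w 0 * 3 - uu (49 / 50) 0 + uu (4 / 5) 0 - ((-(2911 / 10000)) -
        1571 / 500 * t) ≤ 0) : False := by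
  have h : chkT [(.sub (.add (.sub (.add (.add (.sub (.add (.mul .pi (.sub (.add (.mul (.sub (.q
      21 100) (.var 0)) (.var 3)) (.mul (.var 1) (.var 2))) (.var 1))) (.uu (.add (.q 21 100)
      (.var 2)) (.add (.var 1) (.var 3)))) (.uu (.q 21 100) (.var 1))) (.neg (.uu (.add (.var 0)
      (.var 2)) (.var 3)))) (.mul (.uu (.var 0) (.q 0 1)) (.q 3 1))) (.uu (.q 49 50) (.q 0 1)))
      (.uu (.q 4 5) (.q 0 1))) (.sub (.q (-2911) 10000) (.mul (.q 1571 500) (.var 1)))), (.sub
      (.mul (.q 4 25) (.var 3)) (.mul (.q 77 1000) (.var 2))), (.sub (.mul (.q 29 100) (.var 3))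
      (.mul (.q 77 1000) (.sub (.q 4 5) (.var 2))))] 40
      157050232652664701474
      [V.of 10000 1800 2000 0, V.of 10000 460 940 0, V.of 10000 0 7850 0, V.of 10000 0 770 0] =
          true := by
    decide +kernel
  obtain ⟨e, he, hp⟩ := chkT4 h (by norm_num) (x := w) (y := t) (z := X) (w := Y)
    (le_trans (by norm_num) a0) (le_trans b0 (by norm_num))
    (le_trans (by norm_num) a1) (le_trans b1 (by norm_num))
    (le_trans (by norm_num) a2) (le_trans b2 (by norm_num))
    (le_trans (by norm_num) a3) (le_trans b3 (by norm_num))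
  simp only [List.mem_cons, List.not_mem_nil, or_false] at he
  rcases he with rfl | rfl | rfl
  · simp only [E.val, NumI.lkR] at hp
    push_cast at hp
    try simp only [zero_div, div_one] at hp
    linarith only [g0, hp]
  · simp only [E.val, NumI.lkR] at hp
    push_cast at hp
    try simp only [zero_div, div_one] at hp
    linarith only [r0, hp]
  · simp only [E.val, NumI.lkR] at hp
    push_cast at hp
    try simp only [zero_div, div_one] at hp
    linarith only [r1, hp]

/-- 7 boxes -/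
theorem w_two_C1 {w t X Y : ℝ}
    (a0 : 0 / 10000 ≤ w) (b0 : w ≤ 200 / 10000)
    (a1 : 460 / 10000 ≤ t) (b1 : t ≤ 940 / 10000)
    (a2 : 1400 / 10000 ≤ X) (b2 : X ≤ 7850 / 10000)
    (a3 : 0 / 10000 ≤ Y) (b3 : Y ≤ 770 / 10000)
    (r0 : 4 / 25 * Y ≤ 77 / 1000 * X)
    (r1 : 29 / 100 * Y ≤ 77 / 1000 * (4 / 5 - X))
    (g0 : Real.pi * ((21 / 100 - w) * Y + t * X - t) + uu (21 / 100 + X) (t + Y) - uu (21 / 100)
        t + (-uu (w + X) Y) + uu (1 / 50) 0 * 3 - uu (w + 4 / 5) 0 + uu (4 / 5) 0 - ((-(2911 /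
        10000)) - 1571 / 500 * t) ≤ 0) : False := by
  have h : chkT [(.sub (.add (.sub (.add (.add (.sub (.add (.mul .pi (.sub (.add (.mul (.sub (.q
      21 100) (.var 0)) (.var 3)) (.mul (.var 1) (.var 2))) (.var 1))) (.uu (.add (.q 21 100)
      (.var 2)) (.add (.var 1) (.var 3)))) (.uu (.q 21 100) (.var 1))) (.neg (.uu (.add (.var 0)
      (.var 2)) (.var 3)))) (.mul (.uu (.q 1 50) (.q 0 1)) (.q 3 1))) (.uu (.add (.var 0) (.q 4
      5)) (.q 0 1))) (.uu (.q 4 5) (.q 0 1))) (.sub (.q (-2911) 10000) (.mul (.q 1571 500) (.var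
      1)))), (.sub (.mul (.q 4 25) (.var 3)) (.mul (.q 77 1000) (.var 2))), (.sub (.mul (.q 29
      100) (.var 3)) (.mul (.q 77 1000) (.sub (.q 4 5) (.var 2))))] 40
      2395296860637218
      [V.of 10000 0 200 0, V.of 10000 460 940 0, V.of 10000 1400 7850 0, V.of 10000 0 770 0] =
          true := by
    decide +kernel
  obtain ⟨e, he, hp⟩ := chkT4 h (by norm_num) (x := w) (y := t) (z := X) (w := Y)
    (le_trans (by norm_num) a0) (le_trans b0 (by norm_num))
    (le_trans (by norm_num) a1) (le_trans b1 (by norm_num))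
    (le_trans (by norm_num) a2) (le_trans b2 (by norm_num))
    (le_trans (by norm_num) a3) (le_trans b3 (by norm_num))
  simp only [List.mem_cons, List.not_mem_nil, or_false] at he
  rcases he with rfl | rfl | rfl
  · simp only [E.val, NumI.lkR] at hp
    push_cast at hp
    try simp only [zero_div, div_one] at hp
    linarith only [g0, hp]
  · simp only [E.val, NumI.lkR] at hp
    push_cast at hp
    try simp only [zero_div, div_one] at hp
    linarith only [r0, hp]
  · simp only [E.val, NumI.lkR] at hp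
    push_cast at hp
    try simp only [zero_div, div_one] at hp
    linarith only [r1, hp]

/-- 1 boxes -/
theorem w_two_E {w t X Y : ℝ}
    (a0 : 0 / 10000 ≤ w) (b0 : w ≤ 200 / 10000)
    (a1 : 460 / 10000 ≤ t) (b1 : t ≤ 940 / 10000)
    (a2 : 0 / 10000 ≤ X) (b2 : X ≤ 1400 / 10000)
    (a3 : 0 / 10000 ≤ Y) (b3 : Y ≤ 770 / 10000)
    (r0 : 4 / 25 * Y ≤ 77 / 1000 * X)
    (r1 : 29 / 100 * Y ≤ 77 / 1000 * (4 / 5 - X))
    (g0 : Real.pi * ((21 / 100 - w) * Y + t * X - t) + uu (21 / 100 + X) (t + Y) - uu (21 / 100)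
        t + 0 + uu (1 / 50) 0 * 2 - uu (w + 4 / 5) 0 + uu (4 / 5) 0 - ((-(2911 / 10000)) - 1571 /
        500 * t) ≤ 0) : False := by
  have h : chkT [(.sub (.add (.sub (.add (.add (.sub (.add (.mul .pi (.sub (.add (.mul (.sub (.q
      21 100) (.var 0)) (.var 3)) (.mul (.var 1) (.var 2))) (.var 1))) (.uu (.add (.q 21 100)
      (.var 2)) (.add (.var 1) (.var 3)))) (.uu (.q 21 100) (.var 1))) (.q 0 1)) (.mul (.uu (.q 1
      50) (.q 0 1)) (.q 2 1))) (.uu (.add (.var 0) (.q 4 5)) (.q 0 1))) (.uu (.q 4 5) (.q 0 1)))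
      (.sub (.q (-2911) 10000) (.mul (.q 1571 500) (.var 1)))), (.sub (.mul (.q 4 25) (.var 3))
      (.mul (.q 77 1000) (.var 2))), (.sub (.mul (.q 29 100) (.var 3)) (.mul (.q 77 1000) (.sub
      (.q 4 5) (.var 2))))] 40
      8
      [V.of 10000 0 200 0, V.of 10000 460 940 0, V.of 10000 0 1400 0, V.of 10000 0 770 0] = true
          := by
    decide +kernel
  obtain ⟨e, he, hp⟩ := chkT4 h (by norm_num) (x := w) (y := t) (z := X) (w := Y)
    (le_trans (by norm_num) a0) (le_trans b0 (by norm_num))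
    (le_trans (by norm_num) a1) (le_trans b1 (by norm_num))
    (le_trans (by norm_num) a2) (le_trans b2 (by norm_num))
    (le_trans (by norm_num) a3) (le_trans b3 (by norm_num))
  simp only [List.mem_cons, List.not_mem_nil, or_false] at he
  rcases he with rfl | rfl | rfl
  · simp only [E.val, NumI.lkR] at hp
    push_cast at hp
    try simp only [zero_div, div_one] at hp
    linarith only [g0, hp]
  · simp only [E.val, NumI.lkR] at hp
    push_cast at hp
    try simp only [zero_div, div_one] at hp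
    linarith only [r0, hp]
  · simp only [E.val, NumI.lkR] at hp
    push_cast at hp
    try simp only [zero_div, div_one] at hp
    linarith only [b2, b3, hp]

/-- 9 boxes -/
theorem w_two_A2 {w t X Y : ℝ}
    (a0 : 200 / 10000 ≤ w) (b0 : w ≤ 1800 / 10000)
    (a1 : 460 / 10000 ≤ t) (b1 : t ≤ 940 / 10000)
    (a2 : 7850 / 10000 ≤ X) (b2 : X ≤ 8000 / 10000)
    (a3 : 0 / 10000 ≤ Y) (b3 : Y ≤ 770 / 10000)
    (r0 : 4 / 25 * Y ≤ 77 / 1000 * X)
    (r1 : 29 / 100 * Y ≤ 77 / 1000 * (4 / 5 - X))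
    (g0 : Real.pi * ((21 / 100 - w) * Y + t * X - t) + (uu (1 / 100) (t + Y) + Real.pi * (t + Y))
        - uu (21 / 100) t + (-uu (w + X) Y) + uu w 0 * 3 - uu (w + 4 / 5) 0 + uu (4 / 5) 0 -
        ((-(2911 / 10000)) - 1571 / 500 * t) ≤ 0)
    (g1 : Real.pi * ((21 / 100 - w) * Y + t * X - t) + (uu (1 / 100) (t + Y) - Real.pi * (t + Y))
        - uu (21 / 100) t + (-uu (w + X) Y) + uu w 0 * 3 - uu (w + 4 / 5) 0 + uu (4 / 5) 0 -
        ((-(2911 / 10000)) - 1571 / 500 * t) ≤ 0) : False := by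
  have h : chkT [(.sub (.add (.sub (.add (.add (.sub (.add (.mul .pi (.sub (.add (.mul (.sub (.q
      21 100) (.var 0)) (.var 3)) (.mul (.var 1) (.var 2))) (.var 1))) (.add (.uu (.q 1 100)
      (.add (.var 1) (.var 3))) (.mul .pi (.add (.var 1) (.var 3))))) (.uu (.q 21 100) (.var 1)))
      (.neg (.uu (.add (.var 0) (.var 2)) (.var 3)))) (.mul (.uu (.var 0) (.q 0 1)) (.q 3 1)))
      (.uu (.add (.var 0) (.q 4 5)) (.q 0 1))) (.uu (.q 4 5) (.q 0 1))) (.sub (.q (-2911) 10000)
      (.mul (.q 1571 500) (.var 1)))), (.sub (.add (.sub (.add (.add (.sub (.add (.mul .pi (.sub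
      (.add (.mul (.sub (.q 21 100) (.var 0)) (.var 3)) (.mul (.var 1) (.var 2))) (.var 1)))
      (.sub (.uu (.q 1 100) (.add (.var 1) (.var 3))) (.mul .pi (.add (.var 1) (.var 3))))) (.uu
      (.q 21 100) (.var 1))) (.neg (.uu (.add (.var 0) (.var 2)) (.var 3)))) (.mul (.uu (.var 0)
      (.q 0 1)) (.q 3 1))) (.uu (.add (.var 0) (.q 4 5)) (.q 0 1))) (.uu (.q 4 5) (.q 0 1)))
      (.sub (.q (-2911) 10000) (.mul (.q 1571 500) (.var 1)))), (.sub (.mul (.q 4 25) (.var 3))
      (.mul (.q 77 1000) (.var 2))), (.sub (.mul (.q 29 100) (.var 3)) (.mul (.q 77 1000) (.sub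
      (.q 4 5) (.var 2))))] 40
      157051831366965540864
      [V.of 10000 200 1800 0, V.of 10000 460 940 0, V.of 10000 7850 8000 0, V.of 10000 0 770 0] =
          true := by
    decide +kernel
  obtain ⟨e, he, hp⟩ := chkT4 h (by norm_num) (x := w) (y := t) (z := X) (w := Y)
    (le_trans (by norm_num) a0) (le_trans b0 (by norm_num))
    (le_trans (by norm_num) a1) (le_trans b1 (by norm_num))
    (le_trans (by norm_num) a2) (le_trans b2 (by norm_num))
    (le_trans (by norm_num) a3) (le_trans b3 (by norm_num))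
  simp only [List.mem_cons, List.not_mem_nil, or_false] at he
  rcases he with rfl | rfl | rfl | rfl
  · simp only [E.val, NumI.lkR] at hp
    push_cast at hp
    try simp only [zero_div, div_one] at hp
    linarith only [g0, hp]
  · simp only [E.val, NumI.lkR] at hp
    push_cast at hp
    try simp only [zero_div, div_one] at hp
    linarith only [g1, hp]
  · simp only [E.val, NumI.lkR] at hp
    push_cast at hp
    try simp only [zero_div, div_one] at hp
    linarith only [a2, b3, hp]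
  · simp only [E.val, NumI.lkR] at hp
    push_cast at hp
    try simp only [zero_div, div_one] at hp
    linarith only [r1, hp]

/-- 1 boxes -/
theorem w_two_B2 {w t X Y : ℝ}
    (a0 : 1800 / 10000 ≤ w) (b0 : w ≤ 2000 / 10000)
    (a1 : 460 / 10000 ≤ t) (b1 : t ≤ 940 / 10000)
    (a2 : 7850 / 10000 ≤ X) (b2 : X ≤ 8000 / 10000)
    (a3 : 0 / 10000 ≤ Y) (b3 : Y ≤ 770 / 10000)
    (r0 : 4 / 25 * Y ≤ 77 / 1000 * X)
    (r1 : 29 / 100 * Y ≤ 77 / 1000 * (4 / 5 - X))
    (g0 : Real.pi * ((21 / 100 - w) * Y + t * X - t) + (uu (1 / 100) (t + Y) + Real.pi * (t + Y))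
        - uu (21 / 100) t + uu (1 / 25) Y + uu w 0 * 3 - uu (49 / 50) 0 + uu (4 / 5) 0 - ((-(2911
        / 10000)) - 1571 / 500 * t) ≤ 0)
    (g1 : Real.pi * ((21 / 100 - w) * Y + t * X - t) + (uu (1 / 100) (t + Y) - Real.pi * (t + Y))
        - uu (21 / 100) t + uu (1 / 25) Y + uu w 0 * 3 - uu (49 / 50) 0 + uu (4 / 5) 0 - ((-(2911
        / 10000)) - 1571 / 500 * t) ≤ 0) : False := by
  have h : chkT [(.sub (.add (.sub (.add (.add (.sub (.add (.mul .pi (.sub (.add (.mul (.sub (.q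
      21 100) (.var 0)) (.var 3)) (.mul (.var 1) (.var 2))) (.var 1))) (.add (.uu (.q 1 100)
      (.add (.var 1) (.var 3))) (.mul .pi (.add (.var 1) (.var 3))))) (.uu (.q 21 100) (.var 1)))
      (.uu (.q 1 25) (.var 3))) (.mul (.uu (.var 0) (.q 0 1)) (.q 3 1))) (.uu (.q 49 50) (.q 0
      1))) (.uu (.q 4 5) (.q 0 1))) (.sub (.q (-2911) 10000) (.mul (.q 1571 500) (.var 1)))),
      (.sub (.add (.sub (.add (.add (.sub (.add (.mul .pi (.sub (.add (.mul (.sub (.q 21 100)
      (.var 0)) (.var 3)) (.mul (.var 1) (.var 2))) (.var 1))) (.sub (.uu (.q 1 100) (.add (.var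
      1) (.var 3))) (.mul .pi (.add (.var 1) (.var 3))))) (.uu (.q 21 100) (.var 1))) (.uu (.q 1
      25) (.var 3))) (.mul (.uu (.var 0) (.q 0 1)) (.q 3 1))) (.uu (.q 49 50) (.q 0 1))) (.uu (.q
      4 5) (.q 0 1))) (.sub (.q (-2911) 10000) (.mul (.q 1571 500) (.var 1)))), (.sub (.mul (.q 4
      25) (.var 3)) (.mul (.q 77 1000) (.var 2))), (.sub (.mul (.q 29 100) (.var 3)) (.mul (.q 77
      1000) (.sub (.q 4 5) (.var 2))))] 40
      8
      [V.of 10000 1800 2000 0, V.of 10000 460 940 0, V.of 10000 7850 8000 0, V.of 10000 0 770 0]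
          = true := by
    decide +kernel
  obtain ⟨e, he, hp⟩ := chkT4 h (by norm_num) (x := w) (y := t) (z := X) (w := Y)
    (le_trans (by norm_num) a0) (le_trans b0 (by norm_num))
    (le_trans (by norm_num) a1) (le_trans b1 (by norm_num))
    (le_trans (by norm_num) a2) (le_trans b2 (by norm_num))
    (le_trans (by norm_num) a3) (le_trans b3 (by norm_num))
  simp only [List.mem_cons, List.not_mem_nil, or_false] at he
  rcases he with rfl | rfl | rfl | rfl
  · simp only [E.val, NumI.lkR] at hp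
    push_cast at hp
    try simp only [zero_div, div_one] at hp
    linarith only [g0, hp]
  · simp only [E.val, NumI.lkR] at hp
    push_cast at hp
    try simp only [zero_div, div_one] at hp
    linarith only [g1, hp]
  · simp only [E.val, NumI.lkR] at hp
    push_cast at hp
    try simp only [zero_div, div_one] at hp
    linarith only [a2, b3, hp]
  · simp only [E.val, NumI.lkR] at hp
    push_cast at hp
    try simp only [zero_div, div_one] at hp
    linarith only [r1, hp]

/-- 1 boxes -/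
theorem w_two_C2 {w t X Y : ℝ}
    (a0 : 0 / 10000 ≤ w) (b0 : w ≤ 200 / 10000)
    (a1 : 460 / 10000 ≤ t) (b1 : t ≤ 940 / 10000)
    (a2 : 7850 / 10000 ≤ X) (b2 : X ≤ 8000 / 10000)
    (a3 : 0 / 10000 ≤ Y) (b3 : Y ≤ 770 / 10000)
    (r0 : 4 / 25 * Y ≤ 77 / 1000 * X)
    (r1 : 29 / 100 * Y ≤ 77 / 1000 * (4 / 5 - X))
    (g0 : Real.pi * ((21 / 100 - w) * Y + t * X - t) + (uu (1 / 100) (t + Y) + Real.pi * (t + Y))
        - uu (21 / 100) t + (-uu (w + X) Y) + uu (1 / 50) 0 * 3 - uu (w + 4 / 5) 0 + uu (4 / 5) 0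
        - ((-(2911 / 10000)) - 1571 / 500 * t) ≤ 0)
    (g1 : Real.pi * ((21 / 100 - w) * Y + t * X - t) + (uu (1 / 100) (t + Y) - Real.pi * (t + Y))
        - uu (21 / 100) t + (-uu (w + X) Y) + uu (1 / 50) 0 * 3 - uu (w + 4 / 5) 0 + uu (4 / 5) 0
        - ((-(2911 / 10000)) - 1571 / 500 * t) ≤ 0) : False := by
  have h : chkT [(.sub (.add (.sub (.add (.add (.sub (.add (.mul .pi (.sub (.add (.mul (.sub (.q
      21 100) (.var 0)) (.var 3)) (.mul (.var 1) (.var 2))) (.var 1))) (.add (.uu (.q 1 100)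
      (.add (.var 1) (.var 3))) (.mul .pi (.add (.var 1) (.var 3))))) (.uu (.q 21 100) (.var 1)))
      (.neg (.uu (.add (.var 0) (.var 2)) (.var 3)))) (.mul (.uu (.q 1 50) (.q 0 1)) (.q 3 1)))
      (.uu (.add (.var 0) (.q 4 5)) (.q 0 1))) (.uu (.q 4 5) (.q 0 1))) (.sub (.q (-2911) 10000)
      (.mul (.q 1571 500) (.var 1)))), (.sub (.add (.sub (.add (.add (.sub (.add (.mul .pi (.sub
      (.add (.mul (.sub (.q 21 100) (.var 0)) (.var 3)) (.mul (.var 1) (.var 2))) (.var 1)))
      (.sub (.uu (.q 1 100) (.add (.var 1) (.var 3))) (.mul .pi (.add (.var 1) (.var 3))))) (.uu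
      (.q 21 100) (.var 1))) (.neg (.uu (.add (.var 0) (.var 2)) (.var 3)))) (.mul (.uu (.q 1 50)
      (.q 0 1)) (.q 3 1))) (.uu (.add (.var 0) (.q 4 5)) (.q 0 1))) (.uu (.q 4 5) (.q 0 1)))
      (.sub (.q (-2911) 10000) (.mul (.q 1571 500) (.var 1)))), (.sub (.mul (.q 4 25) (.var 3))
      (.mul (.q 77 1000) (.var 2))), (.sub (.mul (.q 29 100) (.var 3)) (.mul (.q 77 1000) (.sub
      (.q 4 5) (.var 2))))] 40
      8
      [V.of 10000 0 200 0, V.of 10000 460 940 0, V.of 10000 7850 8000 0, V.of 10000 0 770 0] =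
          true := by
    decide +kernel
  obtain ⟨e, he, hp⟩ := chkT4 h (by norm_num) (x := w) (y := t) (z := X) (w := Y)
    (le_trans (by norm_num) a0) (le_trans b0 (by norm_num))
    (le_trans (by norm_num) a1) (le_trans b1 (by norm_num))
    (le_trans (by norm_num) a2) (le_trans b2 (by norm_num))
    (le_trans (by norm_num) a3) (le_trans b3 (by norm_num))
  simp only [List.mem_cons, List.not_mem_nil, or_false] at he
  rcases he with rfl | rfl | rfl | rfl
  · simp only [E.val, NumI.lkR] at hp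
    push_cast at hp
    try simp only [zero_div, div_one] at hp
    linarith only [g0, hp]
  · simp only [E.val, NumI.lkR] at hp
    push_cast at hp
    try simp only [zero_div, div_one] at hp
    linarith only [g1, hp]
  · simp only [E.val, NumI.lkR] at hp
    push_cast at hp
    try simp only [zero_div, div_one] at hp
    linarith only [a2, b3, hp]
  · simp only [E.val, NumI.lkR] at hp
    push_cast at hp
    try simp only [zero_div, div_one] at hp
    linarith only [r1, hp]

/-- 39 boxes -/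
theorem w_twoE_A1 {w t X Y : ℝ}
    (a0 : 200 / 10000 ≤ w) (b0 : w ≤ 1800 / 10000)
    (a1 : 870 / 10000 ≤ t) (b1 : t ≤ 1145 / 10000)
    (a2 : 800 / 10000 ≤ X) (b2 : X ≤ 7000 / 10000)
    (a3 : -(450 / 10000) ≤ Y) (b3 : Y ≤ 0 / 10000)
    (r0 : 7 / 50 * (-Y) ≤ 9 / 200 * X)
    (r1 : 7 / 20 * (-Y) ≤ 9 / 200 * (7 / 10 - X))
    (g0 : Real.pi * ((21 / 100 - w) * Y + t * X - t) + uu (21 / 100 + X) (t + Y) - uu (21 / 100)
        t + (-uu (w + X) Y) + uu w 0 * 3 - uu (w + 4 / 5) 0 + uu (4 / 5) 0 - ((-(541 / 2000)) -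
        2721 / 1000 * t) ≤ 0) : False := by
  have h : chkT [(.sub (.add (.sub (.add (.add (.sub (.add (.mul .pi (.sub (.add (.mul (.sub (.q
      21 100) (.var 0)) (.var 3)) (.mul (.var 1) (.var 2))) (.var 1))) (.uu (.add (.q 21 100)
      (.var 2)) (.add (.var 1) (.var 3)))) (.uu (.q 21 100) (.var 1))) (.neg (.uu (.add (.var 0)
      (.var 2)) (.var 3)))) (.mul (.uu (.var 0) (.q 0 1)) (.q 3 1))) (.uu (.add (.var 0) (.q 4
      5)) (.q 0 1))) (.uu (.q 4 5) (.q 0 1))) (.sub (.q (-541) 2000) (.mul (.q 2721 1000) (.var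
      1)))), (.sub (.mul (.q 7 50) (.neg (.var 3))) (.mul (.q 9 200) (.var 2))), (.sub (.mul (.q
      7 20) (.neg (.var 3))) (.mul (.q 9 200) (.sub (.q 7 10) (.var 2))))] 40
      277355443874971216272278103157670460132506778590279630229043527880925117578033171430381847042
      [V.of 10000 200 1800 0, V.of 10000 870 1145 0, V.of 10000 800 7000 0, V.of 10000 (-450) 0
          0] = true :=
      Pool.Agent.Work.NumU.chkT_of w_twoE_A1_p1
  obtain ⟨e, he, hp⟩ := chkT4 h (by norm_num) (x := w) (y := t) (z := X) (w := Y)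
    (le_trans (by norm_num) a0) (le_trans b0 (by norm_num))
    (le_trans (by norm_num) a1) (le_trans b1 (by norm_num))
    (le_trans (by norm_num) a2) (le_trans b2 (by norm_num))
    (le_trans (by norm_num) a3) (le_trans b3 (by norm_num))
  simp only [List.mem_cons, List.not_mem_nil, or_false] at he
  rcases he with rfl | rfl | rfl
  · simp only [E.val, NumI.lkR] at hp
    push_cast at hp
    try simp only [zero_div, div_one] at hp
    linarith only [g0, hp]
  · simp only [E.val, NumI.lkR] at hp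
    push_cast at hp
    try simp only [zero_div, div_one] at hp
    linarith only [r0, hp]
  · simp only [E.val, NumI.lkR] at hp
    push_cast at hp
    try simp only [zero_div, div_one] at hp
    linarith only [r1, hp]

/-- 4 boxes -/
theorem w_twoE_B1 {w t X Y : ℝ}
    (a0 : 1800 / 10000 ≤ w) (b0 : w ≤ 2000 / 10000)
    (a1 : 870 / 10000 ≤ t) (b1 : t ≤ 1145 / 10000)
    (a2 : 800 / 10000 ≤ X) (b2 : X ≤ 7000 / 10000)
    (a3 : -(450 / 10000) ≤ Y) (b3 : Y ≤ 0 / 10000)
    (r0 : 7 / 50 * (-Y) ≤ 9 / 200 * X)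
    (r1 : 7 / 20 * (-Y) ≤ 9 / 200 * (7 / 10 - X))
    (g0 : Real.pi * ((21 / 100 - w) * Y + t * X - t) + uu (21 / 100 + X) (t + Y) - uu (21 / 100)
        t + (-uu (w + X) Y) + uu w 0 * 3 - uu (49 / 50) 0 + uu (4 / 5) 0 - ((-(541 / 2000)) -
        2721 / 1000 * t) ≤ 0) : False := by
  have h : chkT [(.sub (.add (.sub (.add (.add (.sub (.add (.mul .pi (.sub (.add (.mul (.sub (.q
      21 100) (.var 0)) (.var 3)) (.mul (.var 1) (.var 2))) (.var 1))) (.uu (.add (.q 21 100)
      (.var 2)) (.add (.var 1) (.var 3)))) (.uu (.q 21 100) (.var 1))) (.neg (.uu (.add (.var 0)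
      (.var 2)) (.var 3)))) (.mul (.uu (.var 0) (.q 0 1)) (.q 3 1))) (.uu (.q 49 50) (.q 0 1)))
      (.uu (.q 4 5) (.q 0 1))) (.sub (.q (-541) 2000) (.mul (.q 2721 1000) (.var 1)))), (.sub
      (.mul (.q 7 50) (.neg (.var 3))) (.mul (.q 9 200) (.var 2))), (.sub (.mul (.q 7 20) (.neg
      (.var 3))) (.mul (.q 9 200) (.sub (.q 7 10) (.var 2))))] 40
      142772258
      [V.of 10000 1800 2000 0, V.of 10000 870 1145 0, V.of 10000 800 7000 0, V.of 10000 (-450) 0
          0] = true := by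
    decide +kernel
  obtain ⟨e, he, hp⟩ := chkT4 h (by norm_num) (x := w) (y := t) (z := X) (w := Y)
    (le_trans (by norm_num) a0) (le_trans b0 (by norm_num))
    (le_trans (by norm_num) a1) (le_trans b1 (by norm_num))
    (le_trans (by norm_num) a2) (le_trans b2 (by norm_num))
    (le_trans (by norm_num) a3) (le_trans b3 (by norm_num))
  simp only [List.mem_cons, List.not_mem_nil, or_false] at he
  rcases he with rfl | rfl | rfl
  · simp only [E.val, NumI.lkR] at hp
    push_cast at hp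
    try simp only [zero_div, div_one] at hp
    linarith only [g0, hp]
  · simp only [E.val, NumI.lkR] at hp
    push_cast at hp
    try simp only [zero_div, div_one] at hp
    linarith only [r0, hp]
  · simp only [E.val, NumI.lkR] at hp
    push_cast at hp
    try simp only [zero_div, div_one] at hp
    linarith only [r1, hp]

/-- 2 boxes -/
theorem w_twoE_C1 {w t X Y : ℝ}
    (a0 : 0 / 10000 ≤ w) (b0 : w ≤ 200 / 10000)
    (a1 : 870 / 10000 ≤ t) (b1 : t ≤ 1145 / 10000)
    (a2 : 1400 / 10000 ≤ X) (b2 : X ≤ 7000 / 10000)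
    (a3 : -(450 / 10000) ≤ Y) (b3 : Y ≤ 0 / 10000)
    (r0 : 7 / 50 * (-Y) ≤ 9 / 200 * X)
    (r1 : 7 / 20 * (-Y) ≤ 9 / 200 * (7 / 10 - X))
    (g0 : Real.pi * ((21 / 100 - w) * Y + t * X - t) + uu (21 / 100 + X) (t + Y) - uu (21 / 100)
        t + (-uu (w + X) Y) + uu (1 / 50) 0 * 3 - uu (w + 4 / 5) 0 + uu (4 / 5) 0 - ((-(541 /
        2000)) - 2721 / 1000 * t) ≤ 0) : False := by
  have h : chkT [(.sub (.add (.sub (.add (.add (.sub (.add (.mul .pi (.sub (.add (.mul (.sub (.q
      21 100) (.var 0)) (.var 3)) (.mul (.var 1) (.var 2))) (.var 1))) (.uu (.add (.q 21 100)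
      (.var 2)) (.add (.var 1) (.var 3)))) (.uu (.q 21 100) (.var 1))) (.neg (.uu (.add (.var 0)
      (.var 2)) (.var 3)))) (.mul (.uu (.q 1 50) (.q 0 1)) (.q 3 1))) (.uu (.add (.var 0) (.q 4
      5)) (.q 0 1))) (.uu (.q 4 5) (.q 0 1))) (.sub (.q (-541) 2000) (.mul (.q 2721 1000) (.var
      1)))), (.sub (.mul (.q 7 50) (.neg (.var 3))) (.mul (.q 9 200) (.var 2))), (.sub (.mul (.q
      7 20) (.neg (.var 3))) (.mul (.q 9 200) (.sub (.q 7 10) (.var 2))))] 40
      2178
      [V.of 10000 0 200 0, V.of 10000 870 1145 0, V.of 10000 1400 7000 0, V.of 10000 (-450) 0 0]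
          = true := by
    decide +kernel
  obtain ⟨e, he, hp⟩ := chkT4 h (by norm_num) (x := w) (y := t) (z := X) (w := Y)
    (le_trans (by norm_num) a0) (le_trans b0 (by norm_num))
    (le_trans (by norm_num) a1) (le_trans b1 (by norm_num))
    (le_trans (by norm_num) a2) (le_trans b2 (by norm_num))
    (le_trans (by norm_num) a3) (le_trans b3 (by norm_num))
  simp only [List.mem_cons, List.not_mem_nil, or_false] at he
  rcases he with rfl | rfl | rfl
  · simp only [E.val, NumI.lkR] at hp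
    push_cast at hp
    try simp only [zero_div, div_one] at hp
    linarith only [g0, hp]
  · simp only [E.val, NumI.lkR] at hp
    push_cast at hp
    try simp only [zero_div, div_one] at hp
    linarith only [a2, a3, hp]
  · simp only [E.val, NumI.lkR] at hp
    push_cast at hp
    try simp only [zero_div, div_one] at hp
    linarith only [r1, hp]

/-- 1 boxes -/
theorem w_twoE_E {w t X Y : ℝ}
    (a0 : 0 / 10000 ≤ w) (b0 : w ≤ 200 / 10000)
    (a1 : 870 / 10000 ≤ t) (b1 : t ≤ 1145 / 10000)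
    (a2 : 800 / 10000 ≤ X) (b2 : X ≤ 1400 / 10000)
    (a3 : -(450 / 10000) ≤ Y) (b3 : Y ≤ 0 / 10000)
    (r0 : 7 / 50 * (-Y) ≤ 9 / 200 * X)
    (r1 : 7 / 20 * (-Y) ≤ 9 / 200 * (7 / 10 - X))
    (g0 : Real.pi * ((21 / 100 - w) * Y + t * X - t) + uu (21 / 100 + X) (t + Y) - uu (21 / 100)
        t + 0 + uu (1 / 50) 0 * 2 - uu (w + 4 / 5) 0 + uu (4 / 5) 0 - ((-(541 / 2000)) - 2721 /
        1000 * t) ≤ 0) : False := by
  have h : chkT [(.sub (.add (.sub (.add (.add (.sub (.add (.mul .pi (.sub (.add (.mul (.sub (.q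
      21 100) (.var 0)) (.var 3)) (.mul (.var 1) (.var 2))) (.var 1))) (.uu (.add (.q 21 100)
      (.var 2)) (.add (.var 1) (.var 3)))) (.uu (.q 21 100) (.var 1))) (.q 0 1)) (.mul (.uu (.q 1
      50) (.q 0 1)) (.q 2 1))) (.uu (.add (.var 0) (.q 4 5)) (.q 0 1))) (.uu (.q 4 5) (.q 0 1)))
      (.sub (.q (-541) 2000) (.mul (.q 2721 1000) (.var 1)))), (.sub (.mul (.q 7 50) (.neg (.var
      3))) (.mul (.q 9 200) (.var 2))), (.sub (.mul (.q 7 20) (.neg (.var 3))) (.mul (.q 9 200)
      (.sub (.q 7 10) (.var 2))))] 40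
      8
      [V.of 10000 0 200 0, V.of 10000 870 1145 0, V.of 10000 800 1400 0, V.of 10000 (-450) 0 0] =
          true := by
    decide +kernel
  obtain ⟨e, he, hp⟩ := chkT4 h (by norm_num) (x := w) (y := t) (z := X) (w := Y)
    (le_trans (by norm_num) a0) (le_trans b0 (by norm_num))
    (le_trans (by norm_num) a1) (le_trans b1 (by norm_num))
    (le_trans (by norm_num) a2) (le_trans b2 (by norm_num))
    (le_trans (by norm_num) a3) (le_trans b3 (by norm_num))
  simp only [List.mem_cons, List.not_mem_nil, or_false] at he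
  rcases he with rfl | rfl | rfl
  · simp only [E.val, NumI.lkR] at hp
    push_cast at hp
    try simp only [zero_div, div_one] at hp
    linarith only [g0, hp]
  · simp only [E.val, NumI.lkR] at hp
    push_cast at hp
    try simp only [zero_div, div_one] at hp
    linarith only [r0, hp]
  · simp only [E.val, NumI.lkR] at hp
    push_cast at hp
    try simp only [zero_div, div_one] at hp
    linarith only [b2, a3, hp]

end L2

end TL

end Pool.Agent.Work.MP_b30479_gt.G2
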