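import Pool.Agent.Work.MP_b30479_gt.G2.TL2wAg1
import Pool.Agent.Work.MP_b30479_gt.G2.TL2wAg2
import Pool.Agent.Work.MP_b30479_gt.G2.TL2wAg3

/-!
# Tails, interior three with its inner variable in the tail: the slot `2`, certificates

Variables `w`, `t`, `X`, `Y`.
-/
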