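import Pool.Agent.Work.MP_b30479_gt.G2.TL1
import Pool.Agent.Work.MP_b30479_gt.G2.TL2wA
import Pool.Agent.Work.MP_b30479_gt.G2.TL2f
import Pool.Agent.Work.MP_b30479_gt.G2.TK1t

/-!
# Tails, interior three with its inner variable in the tail: the slot `2`
-/

set_option linter.unusedVariables false
set_option linter.unusedSimpArgs false
set_option linter.unusedTactic false
set_option linter.unreachableTactic false

namespace Pool.Agent.Work.MP_b30479_gt.G2

open VOL SR NumU

namespace TL

namespace L2

section
open NumU.E
open NumI (V)

/-- 1 boxes -/
theorem h_two_a {w : ℝ}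
    (a0 : 0 / 10000 ≤ w) (b0 : w ≤ 200 / 10000)
    (g0 : uu (1 / 50) 0 * 3 - uu (w + 4 / 5) 0 + uu (4 / 5) 0 + (53 / 625 - 37 / 250 * w) -
        (-(941 / 2500)) ≤ 0) : False := by
  have h : chk [(.sub (.add (.add (.sub (.mul (.uu (.q 1 50) (.q 0 1)) (.q 3 1)) (.uu (.add (.var
      0) (.q 4 5)) (.q 0 1))) (.uu (.q 4 5) (.q 0 1))) (.sub (.q 53 625) (.mul (.q 37 250) (.var
      0)))) (.q (-941) 2500))] 40
      [V.of 10000 0 200 0] = true := by
    decide +kernel
  obtain ⟨e, he, hp⟩ := chk1 h (by norm_num) (x := w)
    (le_trans (by norm_num) a0) (le_trans b0 (by norm_num))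
  simp only [List.mem_singleton] at he
  subst he
  all_goals
    simp only [E.val, NumI.lkR] at hp
    push_cast at hp
    try simp only [zero_div, div_one] at hp
    linarith

/-- 11 boxes -/
theorem h_two_b {w : ℝ}
    (a0 : 200 / 10000 ≤ w) (b0 : w ≤ 1900 / 10000)
    (g0 : uu w 0 * 3 - uu (w + 4 / 5) 0 + uu (4 / 5) 0 + (53 / 625 - 37 / 250 * w) - (-(941 /
        2500)) ≤ 0) : False := by
  have h : chk [(.sub (.add (.add (.sub (.mul (.uu (.var 0) (.q 0 1)) (.q 3 1)) (.uu (.add (.var
      0) (.q 4 5)) (.q 0 1))) (.uu (.q 4 5) (.q 0 1))) (.sub (.q 53 625) (.mul (.q 37 250) (.var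
      0)))) (.q (-941) 2500))] 40
      [V.of 10000 200 1900 0] = true := by
    decide +kernel
  obtain ⟨e, he, hp⟩ := chk1 h (by norm_num) (x := w)
    (le_trans (by norm_num) a0) (le_trans b0 (by norm_num))
  simp only [List.mem_singleton] at he
  subst he
  all_goals
    simp only [E.val, NumI.lkR] at hp
    push_cast at hp
    try simp only [zero_div, div_one] at hp
    linarith

/-- 1 boxes -/
theorem h_two_c {w : ℝ}
    (a0 : 1900 / 10000 ≤ w) (b0 : w ≤ 2000 / 10000)
    (g0 : uu w 0 * 3 - uu (99 / 100) 0 + uu (4 / 5) 0 + (53 / 625 - 37 / 250 * w) - (-(941 /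
        2500)) ≤ 0) : False := by
  have h : chk [(.sub (.add (.add (.sub (.mul (.uu (.var 0) (.q 0 1)) (.q 3 1)) (.uu (.q 99 100)
      (.q 0 1))) (.uu (.q 4 5) (.q 0 1))) (.sub (.q 53 625) (.mul (.q 37 250) (.var 0)))) (.q
      (-941) 2500))] 40
      [V.of 10000 1900 2000 0] = true := by
    decide +kernel
  obtain ⟨e, he, hp⟩ := chk1 h (by norm_num) (x := w)
    (le_trans (by norm_num) a0) (le_trans b0 (by norm_num))
  simp only [List.mem_singleton] at he
  subst he
  all_goals
    simp only [E.val, NumI.lkR] at hp
    push_cast at hp
    try simp only [zero_div, div_one] at hp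
    linarith

/-- 1 boxes -/
theorem h_twoE_a {w : ℝ}
    (a0 : 0 / 10000 ≤ w) (b0 : w ≤ 200 / 10000)
    (g0 : uu (1 / 50) 0 * 3 - uu (w + 4 / 5) 0 + uu (4 / 5) 0 + (309 / 2000 - 0 * w) - (-(1439 /
        5000)) ≤ 0) : False := by
  have h : chk [(.sub (.add (.add (.sub (.mul (.uu (.q 1 50) (.q 0 1)) (.q 3 1)) (.uu (.add (.var
      0) (.q 4 5)) (.q 0 1))) (.uu (.q 4 5) (.q 0 1))) (.sub (.q 309 2000) (.mul (.q 0 1) (.var
      0)))) (.q (-1439) 5000))] 40
      [V.of 10000 0 200 0] = true := by
    decide +kernel
  obtain ⟨e, he, hp⟩ := chk1 h (by norm_num) (x := w)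
    (le_trans (by norm_num) a0) (le_trans b0 (by norm_num))
  simp only [List.mem_singleton] at he
  subst he
  all_goals
    simp only [E.val, NumI.lkR] at hp
    push_cast at hp
    try simp only [zero_div, div_one] at hp
    linarith

/-- 11 boxes -/
theorem h_twoE_b {w : ℝ}
    (a0 : 200 / 10000 ≤ w) (b0 : w ≤ 1900 / 10000)
    (g0 : uu w 0 * 3 - uu (w + 4 / 5) 0 + uu (4 / 5) 0 + (309 / 2000 - 0 * w) - (-(1439 / 5000))
        ≤ 0) : False := by
  have h : chk [(.sub (.add (.add (.sub (.mul (.uu (.var 0) (.q 0 1)) (.q 3 1)) (.uu (.add (.var
      0) (.q 4 5)) (.q 0 1))) (.uu (.q 4 5) (.q 0 1))) (.sub (.q 309 2000) (.mul (.q 0 1) (.var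
      0)))) (.q (-1439) 5000))] 40
      [V.of 10000 200 1900 0] = true := by
    decide +kernel
  obtain ⟨e, he, hp⟩ := chk1 h (by norm_num) (x := w)
    (le_trans (by norm_num) a0) (le_trans b0 (by norm_num))
  simp only [List.mem_singleton] at he
  subst he
  all_goals
    simp only [E.val, NumI.lkR] at hp
    push_cast at hp
    try simp only [zero_div, div_one] at hp
    linarith

/-- 1 boxes -/
theorem h_twoE_c {w : ℝ}
    (a0 : 1900 / 10000 ≤ w) (b0 : w ≤ 2000 / 10000)
    (g0 : uu w 0 * 3 - uu (99 / 100) 0 + uu (4 / 5) 0 + (309 / 2000 - 0 * w) - (-(1439 / 5000)) ≤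
        0) : False := by
  have h : chk [(.sub (.add (.add (.sub (.mul (.uu (.var 0) (.q 0 1)) (.q 3 1)) (.uu (.q 99 100)
      (.q 0 1))) (.uu (.q 4 5) (.q 0 1))) (.sub (.q 309 2000) (.mul (.q 0 1) (.var 0)))) (.q
      (-1439) 5000))] 40
      [V.of 10000 1900 2000 0] = true := by
    decide +kernel
  obtain ⟨e, he, hp⟩ := chk1 h (by norm_num) (x := w)
    (le_trans (by norm_num) a0) (le_trans b0 (by norm_num))
  simp only [List.mem_singleton] at he
  subst he
  all_goals
    simp only [E.val, NumI.lkR] at hp
    push_cast at hp
    try simp only [zero_div, div_one] at hp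
    linarith

/-- 1 boxes -/
theorem h_tAa_a {w : ℝ}
    (a0 : 0 / 10000 ≤ w) (b0 : w ≤ 200 / 10000)
    (g0 : uu (1 / 50) 0 * 3 - uu (w + 4 / 5) 0 + uu (4 / 5) 0 + (62 / 625 - 227 / 1000 * w) -
        (-(931 / 2500)) ≤ 0) : False := by
  have h : chk [(.sub (.add (.add (.sub (.mul (.uu (.q 1 50) (.q 0 1)) (.q 3 1)) (.uu (.add (.var
      0) (.q 4 5)) (.q 0 1))) (.uu (.q 4 5) (.q 0 1))) (.sub (.q 62 625) (.mul (.q 227 1000)
      (.var 0)))) (.q (-931) 2500))] 40
      [V.of 10000 0 200 0] = true := by
    decide +kernel
  obtain ⟨e, he, hp⟩ := chk1 h (by norm_num) (x := w)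
    (le_trans (by norm_num) a0) (le_trans b0 (by norm_num))
  simp only [List.mem_singleton] at he
  subst he
  all_goals
    simp only [E.val, NumI.lkR] at hp
    push_cast at hp
    try simp only [zero_div, div_one] at hp
    linarith

/-- 11 boxes -/
theorem h_tAa_b {w : ℝ}
    (a0 : 200 / 10000 ≤ w) (b0 : w ≤ 1600 / 10000)
    (g0 : uu w 0 * 3 - uu (w + 4 / 5) 0 + uu (4 / 5) 0 + (62 / 625 - 227 / 1000 * w) - (-(931 /
        2500)) ≤ 0) : False := by
  have h : chk [(.sub (.add (.add (.sub (.mul (.uu (.var 0) (.q 0 1)) (.q 3 1)) (.uu (.add (.var
      0) (.q 4 5)) (.q 0 1))) (.uu (.q 4 5) (.q 0 1))) (.sub (.q 62 625) (.mul (.q 227 1000)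
      (.var 0)))) (.q (-931) 2500))] 40
      [V.of 10000 200 1600 0] = true := by
    decide +kernel
  obtain ⟨e, he, hp⟩ := chk1 h (by norm_num) (x := w)
    (le_trans (by norm_num) a0) (le_trans b0 (by norm_num))
  simp only [List.mem_singleton] at he
  subst he
  all_goals
    simp only [E.val, NumI.lkR] at hp
    push_cast at hp
    try simp only [zero_div, div_one] at hp
    linarith

/-- 4 boxes -/
theorem h_tAb_b {w : ℝ}
    (a0 : 1600 / 10000 ≤ w) (b0 : w ≤ 1900 / 10000)
    (g0 : uu w 0 * 3 - uu (w + 4 / 5) 0 + uu (4 / 5) 0 + (1289 / 5000 - 553 / 500 * w) - (-(851 /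
        2500)) ≤ 0) : False := by
  have h : chk [(.sub (.add (.add (.sub (.mul (.uu (.var 0) (.q 0 1)) (.q 3 1)) (.uu (.add (.var
      0) (.q 4 5)) (.q 0 1))) (.uu (.q 4 5) (.q 0 1))) (.sub (.q 1289 5000) (.mul (.q 553 500)
      (.var 0)))) (.q (-851) 2500))] 40
      [V.of 10000 1600 1900 0] = true := by
    decide +kernel
  obtain ⟨e, he, hp⟩ := chk1 h (by norm_num) (x := w)
    (le_trans (by norm_num) a0) (le_trans b0 (by norm_num))
  simp only [List.mem_singleton] at he
  subst he
  all_goals
    simp only [E.val, NumI.lkR] at hp
    push_cast at hp
    try simp only [zero_div, div_one] at hp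
    linarith

/-- 1 boxes -/
theorem h_tAb_c {w : ℝ}
    (a0 : 1900 / 10000 ≤ w) (b0 : w ≤ 2000 / 10000)
    (g0 : uu w 0 * 3 - uu (99 / 100) 0 + uu (4 / 5) 0 + (1289 / 5000 - 553 / 500 * w) - (-(851 /
        2500)) ≤ 0) : False := by
  have h : chk [(.sub (.add (.add (.sub (.mul (.uu (.var 0) (.q 0 1)) (.q 3 1)) (.uu (.q 99 100)
      (.q 0 1))) (.uu (.q 4 5) (.q 0 1))) (.sub (.q 1289 5000) (.mul (.q 553 500) (.var 0)))) (.q
      (-851) 2500))] 40
      [V.of 10000 1900 2000 0] = true := by
    decide +kernel
  obtain ⟨e, he, hp⟩ := chk1 h (by norm_num) (x := w)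
    (le_trans (by norm_num) a0) (le_trans b0 (by norm_num))
  simp only [List.mem_singleton] at he
  subst he
  all_goals
    simp only [E.val, NumI.lkR] at hp
    push_cast at hp
    try simp only [zero_div, div_one] at hp
    linarith

/-- 1 boxes -/
theorem h_tE_a {w : ℝ}
    (a0 : 0 / 10000 ≤ w) (b0 : w ≤ 200 / 10000)
    (g0 : uu (1 / 50) 0 * 3 - uu (w + 4 / 5) 0 + uu (4 / 5) 0 + (269 / 2000 - 0 * w) - (-(1539 /
        5000)) ≤ 0) : False := by
  have h : chk [(.sub (.add (.add (.sub (.mul (.uu (.q 1 50) (.q 0 1)) (.q 3 1)) (.uu (.add (.var
      0) (.q 4 5)) (.q 0 1))) (.uu (.q 4 5) (.q 0 1))) (.sub (.q 269 2000) (.mul (.q 0 1) (.var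
      0)))) (.q (-1539) 5000))] 40
      [V.of 10000 0 200 0] = true := by
    decide +kernel
  obtain ⟨e, he, hp⟩ := chk1 h (by norm_num) (x := w)
    (le_trans (by norm_num) a0) (le_trans b0 (by norm_num))
  simp only [List.mem_singleton] at he
  subst he
  all_goals
    simp only [E.val, NumI.lkR] at hp
    push_cast at hp
    try simp only [zero_div, div_one] at hp
    linarith

/-- 11 boxes -/
theorem h_tE_b {w : ℝ}
    (a0 : 200 / 10000 ≤ w) (b0 : w ≤ 1900 / 10000)
    (g0 : uu w 0 * 3 - uu (w + 4 / 5) 0 + uu (4 / 5) 0 + (269 / 2000 - 0 * w) - (-(1539 / 5000))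
        ≤ 0) : False := by
  have h : chk [(.sub (.add (.add (.sub (.mul (.uu (.var 0) (.q 0 1)) (.q 3 1)) (.uu (.add (.var
      0) (.q 4 5)) (.q 0 1))) (.uu (.q 4 5) (.q 0 1))) (.sub (.q 269 2000) (.mul (.q 0 1) (.var
      0)))) (.q (-1539) 5000))] 40
      [V.of 10000 200 1900 0] = true := by
    decide +kernel
  obtain ⟨e, he, hp⟩ := chk1 h (by norm_num) (x := w)
    (le_trans (by norm_num) a0) (le_trans b0 (by norm_num))
  simp only [List.mem_singleton] at he
  subst he
  all_goals
    simp only [E.val, NumI.lkR] at hp
    push_cast at hp
    try simp only [zero_div, div_one] at hp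
    linarith

/-- 1 boxes -/
theorem h_tE_c {w : ℝ}
    (a0 : 1900 / 10000 ≤ w) (b0 : w ≤ 2000 / 10000)
    (g0 : uu w 0 * 3 - uu (99 / 100) 0 + uu (4 / 5) 0 + (269 / 2000 - 0 * w) - (-(1539 / 5000)) ≤
        0) : False := by
  have h : chk [(.sub (.add (.add (.sub (.mul (.uu (.var 0) (.q 0 1)) (.q 3 1)) (.uu (.q 99 100)
      (.q 0 1))) (.uu (.q 4 5) (.q 0 1))) (.sub (.q 269 2000) (.mul (.q 0 1) (.var 0)))) (.q
      (-1539) 5000))] 40
      [V.of 10000 1900 2000 0] = true := by
    decide +kernel
  obtain ⟨e, he, hp⟩ := chk1 h (by norm_num) (x := w)
    (le_trans (by norm_num) a0) (le_trans b0 (by norm_num))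
  simp only [List.mem_singleton] at he
  subst he
  all_goals
    simp only [E.val, NumI.lkR] at hp
    push_cast at hp
    try simp only [zero_div, div_one] at hp
    linarith

/-- 1 boxes -/
theorem h_ra_a {w : ℝ}
    (a0 : 0 / 10000 ≤ w) (b0 : w ≤ 200 / 10000)
    (g0 : uu (1 / 50) 0 * 3 - uu (w + 4 / 5) 0 + uu (4 / 5) 0 + ((-(67 / 1250)) - (-(543 / 1000))
        * w) - (-(863 / 2000)) ≤ 0) : False := by
  have h : chk [(.sub (.add (.add (.sub (.mul (.uu (.q 1 50) (.q 0 1)) (.q 3 1)) (.uu (.add (.var
      0) (.q 4 5)) (.q 0 1))) (.uu (.q 4 5) (.q 0 1))) (.sub (.q (-67) 1250) (.mul (.q (-543)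
      1000) (.var 0)))) (.q (-863) 2000))] 40
      [V.of 10000 0 200 0] = true := by
    decide +kernel
  obtain ⟨e, he, hp⟩ := chk1 h (by norm_num) (x := w)
    (le_trans (by norm_num) a0) (le_trans b0 (by norm_num))
  simp only [List.mem_singleton] at he
  subst he
  all_goals
    simp only [E.val, NumI.lkR] at hp
    push_cast at hp
    try simp only [zero_div, div_one] at hp
    linarith

/-- 8 boxes -/
theorem h_ra_b {w : ℝ}
    (a0 : 200 / 10000 ≤ w) (b0 : w ≤ 1400 / 10000)
    (g0 : uu w 0 * 3 - uu (w + 4 / 5) 0 + uu (4 / 5) 0 + ((-(67 / 1250)) - (-(543 / 1000)) * w) -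
        (-(863 / 2000)) ≤ 0) : False := by
  have h : chk [(.sub (.add (.add (.sub (.mul (.uu (.var 0) (.q 0 1)) (.q 3 1)) (.uu (.add (.var
      0) (.q 4 5)) (.q 0 1))) (.uu (.q 4 5) (.q 0 1))) (.sub (.q (-67) 1250) (.mul (.q (-543)
      1000) (.var 0)))) (.q (-863) 2000))] 40
      [V.of 10000 200 1400 0] = true := by
    decide +kernel
  obtain ⟨e, he, hp⟩ := chk1 h (by norm_num) (x := w)
    (le_trans (by norm_num) a0) (le_trans b0 (by norm_num))
  simp only [List.mem_singleton] at he
  subst he
  all_goals
    simp only [E.val, NumI.lkR] at hp
    push_cast at hp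
    try simp only [zero_div, div_one] at hp
    linarith

/-- 6 boxes -/
theorem h_rb_b {w : ℝ}
    (a0 : 1400 / 10000 ≤ w) (b0 : w ≤ 1900 / 10000)
    (g0 : uu w 0 * 3 - uu (w + 4 / 5) 0 + uu (4 / 5) 0 + (1291 / 10000 - 18 / 25 * w) - (-(257 /
        625)) ≤ 0) : False := by
  have h : chk [(.sub (.add (.add (.sub (.mul (.uu (.var 0) (.q 0 1)) (.q 3 1)) (.uu (.add (.var
      0) (.q 4 5)) (.q 0 1))) (.uu (.q 4 5) (.q 0 1))) (.sub (.q 1291 10000) (.mul (.q 18 25)
      (.var 0)))) (.q (-257) 625))] 40
      [V.of 10000 1400 1900 0] = true := by
    decide +kernel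
  obtain ⟨e, he, hp⟩ := chk1 h (by norm_num) (x := w)
    (le_trans (by norm_num) a0) (le_trans b0 (by norm_num))
  simp only [List.mem_singleton] at he
  subst he
  all_goals
    simp only [E.val, NumI.lkR] at hp
    push_cast at hp
    try simp only [zero_div, div_one] at hp
    linarith

/-- 1 boxes -/
theorem h_rb_c {w : ℝ}
    (a0 : 1900 / 10000 ≤ w) (b0 : w ≤ 2000 / 10000)
    (g0 : uu w 0 * 3 - uu (99 / 100) 0 + uu (4 / 5) 0 + (1291 / 10000 - 18 / 25 * w) - (-(257 /
        625)) ≤ 0) : False := by
  have h : chk [(.sub (.add (.add (.sub (.mul (.uu (.var 0) (.q 0 1)) (.q 3 1)) (.uu (.q 99 100)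
      (.q 0 1))) (.uu (.q 4 5) (.q 0 1))) (.sub (.q 1291 10000) (.mul (.q 18 25) (.var 0)))) (.q
      (-257) 625))] 40
      [V.of 10000 1900 2000 0] = true := by
    decide +kernel
  obtain ⟨e, he, hp⟩ := chk1 h (by norm_num) (x := w)
    (le_trans (by norm_num) a0) (le_trans b0 (by norm_num))
  simp only [List.mem_singleton] at he
  subst he
  all_goals
    simp only [E.val, NumI.lkR] at hp
    push_cast at hp
    try simp only [zero_div, div_one] at hp
    linarith

/-- 1 boxes -/
theorem h_to_a {w : ℝ}
    (a0 : 0 / 10000 ≤ w) (b0 : w ≤ 200 / 10000)
    (g0 : uu (1 / 50) 0 * 2 - uu (w + 4 / 5) 0 + uu (4 / 5) 0 + (0 - 0 * w) - (-(2869 / 10000)) ≤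
        0) : False := by
  have h : chk [(.sub (.add (.add (.sub (.mul (.uu (.q 1 50) (.q 0 1)) (.q 2 1)) (.uu (.add (.var
      0) (.q 4 5)) (.q 0 1))) (.uu (.q 4 5) (.q 0 1))) (.sub (.q 0 1) (.mul (.q 0 1) (.var 0))))
      (.q (-2869) 10000))] 40
      [V.of 10000 0 200 0] = true := by
    decide +kernel
  obtain ⟨e, he, hp⟩ := chk1 h (by norm_num) (x := w)
    (le_trans (by norm_num) a0) (le_trans b0 (by norm_num))
  simp only [List.mem_singleton] at he
  subst he
  all_goals
    simp only [E.val, NumI.lkR] at hp
    push_cast at hp
    try simp only [zero_div, div_one] at hp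
    linarith

/-- 12 boxes -/
theorem h_to_b {w : ℝ}
    (a0 : 200 / 10000 ≤ w) (b0 : w ≤ 1900 / 10000)
    (g0 : uu w 0 * 2 - uu (w + 4 / 5) 0 + uu (4 / 5) 0 + (0 - 0 * w) - (-(2869 / 10000)) ≤ 0) :
        False := by
  have h : chk [(.sub (.add (.add (.sub (.mul (.uu (.var 0) (.q 0 1)) (.q 2 1)) (.uu (.add (.var
      0) (.q 4 5)) (.q 0 1))) (.uu (.q 4 5) (.q 0 1))) (.sub (.q 0 1) (.mul (.q 0 1) (.var 0))))
      (.q (-2869) 10000))] 40
      [V.of 10000 200 1900 0] = true := by
    decide +kernel
  obtain ⟨e, he, hp⟩ := chk1 h (by norm_num) (x := w)
    (le_trans (by norm_num) a0) (le_trans b0 (by norm_num))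
  simp only [List.mem_singleton] at he
  subst he
  all_goals
    simp only [E.val, NumI.lkR] at hp
    push_cast at hp
    try simp only [zero_div, div_one] at hp
    linarith

/-- 1 boxes -/
theorem h_to_c {w : ℝ}
    (a0 : 1900 / 10000 ≤ w) (b0 : w ≤ 2000 / 10000)
    (g0 : uu w 0 * 2 - uu (99 / 100) 0 + uu (4 / 5) 0 + (0 - 0 * w) - (-(2869 / 10000)) ≤ 0) :
        False := by
  have h : chk [(.sub (.add (.add (.sub (.mul (.uu (.var 0) (.q 0 1)) (.q 2 1)) (.uu (.q 99 100)
      (.q 0 1))) (.uu (.q 4 5) (.q 0 1))) (.sub (.q 0 1) (.mul (.q 0 1) (.var 0)))) (.q (-2869)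
      10000))] 40
      [V.of 10000 1900 2000 0] = true := by
    decide +kernel
  obtain ⟨e, he, hp⟩ := chk1 h (by norm_num) (x := w)
    (le_trans (by norm_num) a0) (le_trans b0 (by norm_num))
  simp only [List.mem_singleton] at he
  subst he
  all_goals
    simp only [E.val, NumI.lkR] at hp
    push_cast at hp
    try simp only [zero_div, div_one] at hp
    linarith

end


/-! ### one variable -/

theorem near99 {w : ℝ} (h0 : 19 / 100 ≤ w) (h1 : w ≤ 2 / 10) : uu (w + 4 / 5) 0 ≤ uu (99 / 100) 0 :=
  E1.anti1 (by norm_num) (by linarith) (by linarith) (by norm_num)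

theorem near98 {w : ℝ} (h0 : 18 / 100 ≤ w) (h1 : w ≤ 2 / 10) : uu (w + 4 / 5) 0 ≤ uu (49 / 50) 0 :=
  E1.anti1 (by norm_num) (by linarith) (by linarith) (by norm_num)

theorem near2 {w : ℝ} (h0 : 0 ≤ w) (h1 : w ≤ 2 / 100) : uu (1 / 50) 0 ≤ uu w 0 := by
  have := E1.W_v h0 h1
  rwa [show (2 : ℝ) / 100 = 1 / 50 by norm_num] at this

theorem H_two {w : ℝ} (h0 : 0 / 10000 ≤ w) (h1 : w ≤ 2000 / 10000) :
    -(941 / 2500) ≤ 3 * uu w 0 - uu (w + 4 / 5) 0 + uu (4 / 5) 0 + 53 / 625 - 37 / 250 * w := by
  by_contra hc
  rw [not_le] at hc
  rcases le_total w (2 / 100) with hw | hw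
  · have h2 := near2 (by linarith) hw
    exact h_two_a (w := w) (by linarith) (by linarith) (by linarith)
  rcases le_total w (19 / 100) with hw2 | hw2
  · exact h_two_b (w := w) (by linarith) (by linarith) (by linarith)
  · have h2 := near99 hw2 (by linarith)
    exact h_two_c (w := w) (by linarith) (by linarith) (by linarith)

theorem H_twoE {w : ℝ} (h0 : 0 / 10000 ≤ w) (h1 : w ≤ 2000 / 10000) :
    -(1439 / 5000) ≤ 3 * uu w 0 - uu (w + 4 / 5) 0 + uu (4 / 5) 0 + 309 / 2000 := by
  by_contra hc
  rw [not_le] at hc
  rcases le_total w (2 / 100) with hw | hw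
  · have h2 := near2 (by linarith) hw
    exact h_twoE_a (w := w) (by linarith) (by linarith) (by linarith)
  rcases le_total w (19 / 100) with hw2 | hw2
  · exact h_twoE_b (w := w) (by linarith) (by linarith) (by linarith)
  · have h2 := near99 hw2 (by linarith)
    exact h_twoE_c (w := w) (by linarith) (by linarith) (by linarith)

theorem H_tAa {w : ℝ} (h0 : 0 / 10000 ≤ w) (h1 : w ≤ 1600 / 10000) :
    -(931 / 2500) ≤ 3 * uu w 0 - uu (w + 4 / 5) 0 + uu (4 / 5) 0 + 62 / 625 - 227 / 1000 * w := by
  by_contra hc
  rw [not_le] at hc
  rcases le_total w (2 / 100) with hw | hw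
  · have h2 := near2 (by linarith) hw
    exact h_tAa_a (w := w) (by linarith) (by linarith) (by linarith)
  exact h_tAa_b (w := w) (by linarith) (by linarith) (by linarith)

theorem H_tAb {w : ℝ} (h0 : 1600 / 10000 ≤ w) (h1 : w ≤ 2000 / 10000) :
    -(851 / 2500) ≤ 3 * uu w 0 - uu (w + 4 / 5) 0 + uu (4 / 5) 0 + 1289 / 5000 - 553 / 500 * w := by
  by_contra hc
  rw [not_le] at hc
  rcases le_total w (19 / 100) with hw2 | hw2
  · exact h_tAb_b (w := w) (by linarith) (by linarith) (by linarith)
  · have h2 := near99 hw2 (by linarith)
    exact h_tAb_c (w := w) (by linarith) (by linarith) (by linarith)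

theorem H_tE {w : ℝ} (h0 : 0 / 10000 ≤ w) (h1 : w ≤ 2000 / 10000) :
    -(1539 / 5000) ≤ 3 * uu w 0 - uu (w + 4 / 5) 0 + uu (4 / 5) 0 + 269 / 2000 := by
  by_contra hc
  rw [not_le] at hc
  rcases le_total w (2 / 100) with hw | hw
  · have h2 := near2 (by linarith) hw
    exact h_tE_a (w := w) (by linarith) (by linarith) (by linarith)
  rcases le_total w (19 / 100) with hw2 | hw2
  · exact h_tE_b (w := w) (by linarith) (by linarith) (by linarith)
  · have h2 := near99 hw2 (by linarith)
    exact h_tE_c (w := w) (by linarith) (by linarith) (by linarith)

theorem H_ra {w : ℝ} (h0 : 0 / 10000 ≤ w) (h1 : w ≤ 1400 / 10000) :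
    -(863 / 2000) ≤ 3 * uu w 0 - uu (w + 4 / 5) 0 + uu (4 / 5) 0 - 67 / 1250 + 543 / 1000 * w := by
  by_contra hc
  rw [not_le] at hc
  rcases le_total w (2 / 100) with hw | hw
  · have h2 := near2 (by linarith) hw
    exact h_ra_a (w := w) (by linarith) (by linarith) (by linarith)
  exact h_ra_b (w := w) (by linarith) (by linarith) (by linarith)

theorem H_rb {w : ℝ} (h0 : 1400 / 10000 ≤ w) (h1 : w ≤ 2000 / 10000) :
    -(257 / 625) ≤ 3 * uu w 0 - uu (w + 4 / 5) 0 + uu (4 / 5) 0 + 1291 / 10000 - 18 / 25 * w := by
  by_contra hc
  rw [not_le] at hc
  rcases le_total w (19 / 100) with hw2 | hw2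
  · exact h_rb_b (w := w) (by linarith) (by linarith) (by linarith)
  · have h2 := near99 hw2 (by linarith)
    exact h_rb_c (w := w) (by linarith) (by linarith) (by linarith)

theorem H_to {w : ℝ} (h0 : 0 / 10000 ≤ w) (h1 : w ≤ 2000 / 10000) :
    -(2869 / 10000) ≤ 2 * uu w 0 - uu (w + 4 / 5) 0 + uu (4 / 5) 0 := by
  by_contra hc
  rw [not_le] at hc
  rcases le_total w (2 / 100) with hw | hw
  · have h2 := near2 (by linarith) hw
    exact h_to_a (w := w) (by linarith) (by linarith) (by linarith)
  rcases le_total w (19 / 100) with hw2 | hw2
  · exact h_to_b (w := w) (by linarith) (by linarith) (by linarith)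
  · have h2 := near99 hw2 (by linarith)
    exact h_to_c (w := w) (by linarith) (by linarith) (by linarith)

/-! ### class one -/

theorem Pw_eq (w t X Y : ℝ) : V1 ⟨21 / 100, t⟩ ⟨X, Y⟩ - V1 ⟨w, 0⟩ ⟨X, Y⟩ =
    Real.pi * ((21 / 100 - w) * Y + t * X - t) + uu (21 / 100 + X) (t + Y) - uu (21 / 100) t +
      (-uu (w + X) Y) + uu w 0 := by
  rw [V1_uu, V1_uu, zero_add]
  ring

/-- the part of the slot `2` -/
noncomputable def PW (G w : ℝ) : ℝ := G + 2 * uu w 0 - uu (w + 4 / 5) 0 + uu (4 / 5) 0

theorem uu_ge_add (x y : ℝ) : uu (x - 1) y + Real.pi * y ≤ uu x y ∧
    uu (x - 1) y - Real.pi * y ≤ uu x y := by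
  have e := uu_add_one (x - 1) y
  rw [sub_add_cancel] at e
  have hp := Real.pi_pos
  have h2 := mul_le_mul_of_nonneg_left (le_abs_self y) hp.le
  have h3 := mul_le_mul_of_nonneg_left (neg_le_abs y) hp.le
  constructor <;> linarith

theorem pw_two {w t X Y : ℝ} (h0 : 0 ≤ w) (h1 : w ≤ 2 / 10) (t0 : 46 / 1000 ≤ t)
    (t1 : t ≤ 94 / 1000) (x0 : 0 ≤ X) (x1 : X ≤ 8 / 10) (y0 : 0 ≤ Y) (y1 : Y ≤ 77 / 1000)
    (c1 : 16 / 100 * Y ≤ 77 / 1000 * X) (c2 : 29 / 100 * Y ≤ 77 / 1000 * (8 / 10 - X)) :
    -(2911 / 10000) - 3142 / 1000 * t ≤ PW (V1 ⟨21 / 100, t⟩ ⟨X, Y⟩ - V1 ⟨w, 0⟩ ⟨X, Y⟩) w := by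
  unfold PW
  rw [Pw_eq]
  by_contra hc
  rw [not_le] at hc
  rcases le_total X (7850 / 10000) with hx | hx
  · rcases le_total w (2 / 100) with hw | hw
    · have hW := near2 h0 hw
      rcases le_total X (14 / 100) with hx2 | hx2
      · have hS := E1.W_lo (w := w) (s := w + X) (Y := Y) h0 (by linarith) (by linarith)
        exact w_two_E (w := w) (t := t) (X := X) (Y := Y)
          (by first | (refine le_trans ?_ hw; norm_num; done) | (refine le_trans ?_ h0; norm_num; done) | linarith)
          (by first | (refine le_trans hw ?_; norm_num; done) | (refine le_trans h1 ?_; norm_num; done) | linarith)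
          (by first | (refine le_trans ?_ t0; norm_num; done) | linarith)
          (by first | (refine le_trans t1 ?_; norm_num; done) | linarith)
          (by first | (refine le_trans ?_ hx; norm_num; done) | (refine le_trans ?_ hx2; norm_num; done) | (refine le_trans ?_ x0; norm_num; done) | linarith)
          (by first | (refine le_trans hx ?_; norm_num; done) | (refine le_trans hx2 ?_; norm_num; done) | (refine le_trans x1 ?_; norm_num; done) | linarith)
          (by first | linarith only [y0, y1] | linarith)
          (by first | linarith only [y0, y1] | linarith)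
          (by first | linarith only [c1] | linarith only [c2] | linarith)
          (by first | linarith only [c1] | linarith only [c2] | linarith)
          (by first | linarith only [hc, hW, hS] | linarith)
      · exact w_two_C1 (w := w) (t := t) (X := X) (Y := Y)
          (by first | (refine le_trans ?_ hw; norm_num; done) | (refine le_trans ?_ h0; norm_num; done) | linarith)
          (by first | (refine le_trans hw ?_; norm_num; done) | (refine le_trans h1 ?_; norm_num; done) | linarith)
          (by first | (refine le_trans ?_ t0; norm_num; done) | linarith)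
          (by first | (refine le_trans t1 ?_; norm_num; done) | linarith)
          (by first | (refine le_trans ?_ hx; norm_num; done) | (refine le_trans ?_ hx2; norm_num; done) | (refine le_trans ?_ x0; norm_num; done) | linarith)
          (by first | (refine le_trans hx ?_; norm_num; done) | (refine le_trans hx2 ?_; norm_num; done) | (refine le_trans x1 ?_; norm_num; done) | linarith)
          (by first | linarith only [y0, y1] | linarith)
          (by first | linarith only [y0, y1] | linarith)
          (by first | linarith only [c1] | linarith only [c2] | linarith)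
          (by first | linarith only [c1] | linarith only [c2] | linarith)
          (by first | linarith only [hc, hW] | linarith)
    · rcases le_total w (18 / 100) with hw2 | hw2
      · exact w_two_A1 (w := w) (t := t) (X := X) (Y := Y)
          (by first | (refine le_trans ?_ hw; norm_num; done) | (refine le_trans ?_ hw2; norm_num; done) | (refine le_trans ?_ h0; norm_num; done) | linarith)
          (by first | (refine le_trans hw ?_; norm_num; done) | (refine le_trans hw2 ?_; norm_num; done) | (refine le_trans h1 ?_; norm_num; done) | linarith)
          (by first | (refine le_trans ?_ t0; norm_num; done) | linarith)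
          (by first | (refine le_trans t1 ?_; norm_num; done) | linarith)
          (by first | (refine le_trans ?_ hx; norm_num; done) | (refine le_trans ?_ x0; norm_num; done) | linarith)
          (by first | (refine le_trans hx ?_; norm_num; done) | (refine le_trans x1 ?_; norm_num; done) | linarith)
          (by first | linarith only [y0, y1] | linarith)
          (by first | linarith only [y0, y1] | linarith)
          (by first | linarith only [c1] | linarith only [c2] | linarith)
          (by first | linarith only [c1] | linarith only [c2] | linarith)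
          (by first | linarith only [hc] | linarith)
      · have hB := near98 hw2 h1
        exact w_two_B1 (w := w) (t := t) (X := X) (Y := Y)
          (by first | (refine le_trans ?_ hw; norm_num; done) | (refine le_trans ?_ hw2; norm_num; done) | (refine le_trans ?_ h0; norm_num; done) | linarith)
          (by first | (refine le_trans hw ?_; norm_num; done) | (refine le_trans hw2 ?_; norm_num; done) | (refine le_trans h1 ?_; norm_num; done) | linarith)
          (by first | (refine le_trans ?_ t0; norm_num; done) | linarith)
          (by first | (refine le_trans t1 ?_; norm_num; done) | linarith)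
          (by first | (refine le_trans ?_ hx; norm_num; done) | (refine le_trans ?_ x0; norm_num; done) | linarith)
          (by first | (refine le_trans hx ?_; norm_num; done) | (refine le_trans x1 ?_; norm_num; done) | linarith)
          (by first | linarith only [y0, y1] | linarith)
          (by first | linarith only [y0, y1] | linarith)
          (by first | linarith only [c1] | linarith only [c2] | linarith)
          (by first | linarith only [c1] | linarith only [c2] | linarith)
          (by first | linarith only [hc, hB] | linarith)
  · obtain ⟨hU1, hU2⟩ := E1.U_d (x := 21 / 100 + X) (t := t + Y) (d := 1 / 100) (by linarith)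
      (by linarith) (by norm_num) (by rw [abs_le]; constructor <;> linarith)
    rcases le_total w (2 / 100) with hw | hw
    · have hW := near2 h0 hw
      exact w_two_C2 (w := w) (t := t) (X := X) (Y := Y)
        (by first | (refine le_trans ?_ hw; norm_num; done) | (refine le_trans ?_ h0; norm_num; done) | linarith)
        (by first | (refine le_trans hw ?_; norm_num; done) | (refine le_trans h1 ?_; norm_num; done) | linarith)
        (by first | (refine le_trans ?_ t0; norm_num; done) | linarith)
        (by first | (refine le_trans t1 ?_; norm_num; done) | linarith)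
        (by first | (refine le_trans ?_ hx; norm_num; done) | (refine le_trans ?_ x0; norm_num; done) | linarith)
        (by first | (refine le_trans hx ?_; norm_num; done) | (refine le_trans x1 ?_; norm_num; done) | linarith)
        (by first | linarith only [y0, y1] | linarith)
        (by first | linarith only [y0, y1] | linarith)
        (by first | linarith only [c1] | linarith only [c2] | linarith)
        (by first | linarith only [c1] | linarith only [c2] | linarith)
        (by first | linarith only [hc, hU1, hU2, hW] | linarith)
        (by first | linarith only [hc, hU1, hU2, hW] | linarith)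
    · rcases le_total w (18 / 100) with hw2 | hw2
      · exact w_two_A2 (w := w) (t := t) (X := X) (Y := Y)
          (by first | (refine le_trans ?_ hw; norm_num; done) | (refine le_trans ?_ hw2; norm_num; done) | (refine le_trans ?_ h0; norm_num; done) | linarith)
          (by first | (refine le_trans hw ?_; norm_num; done) | (refine le_trans hw2 ?_; norm_num; done) | (refine le_trans h1 ?_; norm_num; done) | linarith)
          (by first | (refine le_trans ?_ t0; norm_num; done) | linarith)
          (by first | (refine le_trans t1 ?_; norm_num; done) | linarith)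
          (by first | (refine le_trans ?_ hx; norm_num; done) | (refine le_trans ?_ x0; norm_num; done) | linarith)
          (by first | (refine le_trans hx ?_; norm_num; done) | (refine le_trans x1 ?_; norm_num; done) | linarith)
          (by first | linarith only [y0, y1] | linarith)
          (by first | linarith only [y0, y1] | linarith)
          (by first | linarith only [c1] | linarith only [c2] | linarith)
          (by first | linarith only [c1] | linarith only [c2] | linarith)
          (by first | linarith only [hc, hU1, hU2] | linarith)
          (by first | linarith only [hc, hU1, hU2] | linarith)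
      · have hB := near98 hw2 h1
        have hS := E1.S_b (s := w + X) (Y := Y) (d := 1 / 25) (by norm_num) (by linarith)
          (by linarith) (by rw [abs_le]; constructor <;> linarith)
        exact w_two_B2 (w := w) (t := t) (X := X) (Y := Y)
          (by first | (refine le_trans ?_ hw; norm_num; done) | (refine le_trans ?_ hw2; norm_num; done) | (refine le_trans ?_ h0; norm_num; done) | linarith)
          (by first | (refine le_trans hw ?_; norm_num; done) | (refine le_trans hw2 ?_; norm_num; done) | (refine le_trans h1 ?_; norm_num; done) | linarith)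
          (by first | (refine le_trans ?_ t0; norm_num; done) | linarith)
          (by first | (refine le_trans t1 ?_; norm_num; done) | linarith)
          (by first | (refine le_trans ?_ hx; norm_num; done) | (refine le_trans ?_ x0; norm_num; done) | linarith)
          (by first | (refine le_trans hx ?_; norm_num; done) | (refine le_trans x1 ?_; norm_num; done) | linarith)
          (by first | linarith only [y0, y1] | linarith)
          (by first | linarith only [y0, y1] | linarith)
          (by first | linarith only [c1] | linarith only [c2] | linarith)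
          (by first | linarith only [c1] | linarith only [c2] | linarith)
          (by first | linarith only [hc, hU1, hU2, hB, hS] | linarith)
          (by first | linarith only [hc, hU1, hU2, hB, hS] | linarith)

theorem pw_twoE {w t X Y : ℝ} (h0 : 0 ≤ w) (h1 : w ≤ 2 / 10) (t0 : 87 / 1000 ≤ t)
    (t1 : t ≤ 1145 / 10000) (x0 : 8 / 100 ≤ X) (x1 : X ≤ 7 / 10) (y0 : Y ≤ 0)
    (y1 : -(45 / 1000) ≤ Y) (c1 : 14 / 100 * (-Y) ≤ 45 / 1000 * X)
    (c2 : 35 / 100 * (-Y) ≤ 45 / 1000 * (7 / 10 - X)) :
    -(2705 / 10000) - 2721 / 1000 * t ≤ PW (V1 ⟨21 / 100, t⟩ ⟨X, Y⟩ - V1 ⟨w, 0⟩ ⟨X, Y⟩) w := by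
  unfold PW
  rw [Pw_eq]
  by_contra hc
  rw [not_le] at hc
  rcases le_total w (2 / 100) with hw | hw
  · have hW := near2 h0 hw
    rcases le_total X (14 / 100) with hx2 | hx2
    · have hS := E1.W_lo (w := w) (s := w + X) (Y := Y) h0 (by linarith) (by linarith)
      exact w_twoE_E (w := w) (t := t) (X := X) (Y := Y)
        (by first | (refine le_trans ?_ hw; norm_num; done) | (refine le_trans ?_ h0; norm_num; done) | linarith)
        (by first | (refine le_trans hw ?_; norm_num; done) | (refine le_trans h1 ?_; norm_num; done) | linarith)
        (by first | (refine le_trans ?_ t0; norm_num; done) | linarith)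
        (by first | (refine le_trans t1 ?_; norm_num; done) | linarith)
        (by first | (refine le_trans ?_ hx2; norm_num; done) | (refine le_trans ?_ x0; norm_num; done) | linarith)
        (by first | (refine le_trans hx2 ?_; norm_num; done) | (refine le_trans x1 ?_; norm_num; done) | linarith)
        (by first | linarith only [y0, y1] | linarith)
        (by first | linarith only [y0, y1] | linarith)
        (by first | linarith only [c1] | linarith only [c2] | linarith)
        (by first | linarith only [c1] | linarith only [c2] | linarith)
        (by first | linarith only [hc, hW, hS] | linarith)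
    · exact w_twoE_C1 (w := w) (t := t) (X := X) (Y := Y)
        (by first | (refine le_trans ?_ hw; norm_num; done) | (refine le_trans ?_ h0; norm_num; done) | linarith)
        (by first | (refine le_trans hw ?_; norm_num; done) | (refine le_trans h1 ?_; norm_num; done) | linarith)
        (by first | (refine le_trans ?_ t0; norm_num; done) | linarith)
        (by first | (refine le_trans t1 ?_; norm_num; done) | linarith)
        (by first | (refine le_trans ?_ hx2; norm_num; done) | (refine le_trans ?_ x0; norm_num; done) | linarith)
        (by first | (refine le_trans hx2 ?_; norm_num; done) | (refine le_trans x1 ?_; norm_num; done) | linarith)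
        (by first | linarith only [y0, y1] | linarith)
        (by first | linarith only [y0, y1] | linarith)
        (by first | linarith only [c1] | linarith only [c2] | linarith)
        (by first | linarith only [c1] | linarith only [c2] | linarith)
        (by first | linarith only [hc, hW] | linarith)
  · rcases le_total w (18 / 100) with hw2 | hw2
    · exact w_twoE_A1 (w := w) (t := t) (X := X) (Y := Y)
        (by first | (refine le_trans ?_ hw; norm_num; done) | (refine le_trans ?_ hw2; norm_num; done) | (refine le_trans ?_ h0; norm_num; done) | linarith)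
        (by first | (refine le_trans hw ?_; norm_num; done) | (refine le_trans hw2 ?_; norm_num; done) | (refine le_trans h1 ?_; norm_num; done) | linarith)
        (by first | (refine le_trans ?_ t0; norm_num; done) | linarith)
        (by first | (refine le_trans t1 ?_; norm_num; done) | linarith)
        (by first | (refine le_trans ?_ x0; norm_num; done) | linarith)
        (by first | (refine le_trans x1 ?_; norm_num; done) | linarith)
        (by first | linarith only [y0, y1] | linarith)
        (by first | linarith only [y0, y1] | linarith)
        (by first | linarith only [c1] | linarith only [c2] | linarith)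
        (by first | linarith only [c1] | linarith only [c2] | linarith)
        (by first | linarith only [hc] | linarith)
    · have hB := near98 hw2 h1
      exact w_twoE_B1 (w := w) (t := t) (X := X) (Y := Y)
        (by first | (refine le_trans ?_ hw; norm_num; done) | (refine le_trans ?_ hw2; norm_num; done) | (refine le_trans ?_ h0; norm_num; done) | linarith)
        (by first | (refine le_trans hw ?_; norm_num; done) | (refine le_trans hw2 ?_; norm_num; done) | (refine le_trans h1 ?_; norm_num; done) | linarith)
        (by first | (refine le_trans ?_ t0; norm_num; done) | linarith)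
        (by first | (refine le_trans t1 ?_; norm_num; done) | linarith)
        (by first | (refine le_trans ?_ x0; norm_num; done) | linarith)
        (by first | (refine le_trans x1 ?_; norm_num; done) | linarith)
        (by first | linarith only [y0, y1] | linarith)
        (by first | linarith only [y0, y1] | linarith)
        (by first | linarith only [c1] | linarith only [c2] | linarith)
        (by first | linarith only [c1] | linarith only [c2] | linarith)
        (by first | linarith only [hc, hB] | linarith)

theorem pw_one {w t X Y : ℝ} (h0 : 0 ≤ w) (h1 : w ≤ 2 / 10) (t0 : 21 / 1000 ≤ t)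
    (t1 : t ≤ 92 / 1000) (x0 : 0 ≤ X) (x1 : X ≤ 86 / 100) (y0 : -(91 / 1000) ≤ Y)
    (y1 : Y ≤ 49 / 1000) (c0 : 15 / 100 * Y ≤ 49 / 1000 * X)
    (c1 : 20 / 100 * Y ≤ 49 / 1000 * (86 / 100 - X))
    (c2 : 15 / 100 * (-Y) ≤ (t + 22 / 1000) * X)
    (c3 : 20 / 100 * (-Y) ≤ (t + 22 / 1000) * (86 / 100 - X))
    (c4 : 15 / 100 * (-Y) ≤ 91 / 1000 * X) (c5 : 20 / 100 * (-Y) ≤ 91 / 1000 * (86 / 100 - X)) :
    -(4970 / 10000) + 1128 / 1000 * t ≤ PW (V1 ⟨21 / 100, t⟩ ⟨X, Y⟩ - V1 ⟨w, 0⟩ ⟨X, Y⟩) w ∨
    -(2935 / 10000) - 3142 / 1000 * t ≤ PW (V1 ⟨21 / 100, t⟩ ⟨X, Y⟩ - V1 ⟨w, 0⟩ ⟨X, Y⟩) w := by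
  unfold PW
  rw [Pw_eq]
  by_contra hc
  obtain ⟨hc, hd⟩ := not_or.1 hc
  rw [not_le] at hc hd
  rcases le_total X (7890 / 10000) with hx | hx
  · rcases le_total w (2 / 100) with hw | hw
    · have hW := near2 h0 hw
      rcases le_total X (14 / 100) with hx2 | hx2
      · have hS := E1.W_lo (w := w) (s := w + X) (Y := Y) h0 (by linarith) (by linarith)
        exact w_one_E (w := w) (t := t) (X := X) (Y := Y)
          (by first | (refine le_trans ?_ hw; norm_num; done) | (refine le_trans ?_ h0; norm_num; done) | linarith)
          (by first | (refine le_trans hw ?_; norm_num; done) | (refine le_trans h1 ?_; norm_num; done) | linarith)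
          (by first | (refine le_trans ?_ t0; norm_num; done) | linarith)
          (by first | (refine le_trans t1 ?_; norm_num; done) | linarith)
          (by first | (refine le_trans ?_ hx; norm_num; done) | (refine le_trans ?_ hx2; norm_num; done) | (refine le_trans ?_ x0; norm_num; done) | linarith)
          (by first | (refine le_trans hx ?_; norm_num; done) | (refine le_trans hx2 ?_; norm_num; done) | (refine le_trans x1 ?_; norm_num; done) | linarith)
          (by first | linarith only [y0, y1] | linarith)
          (by first | linarith only [y0, y1] | linarith)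
          (by first | linarith only [c0] | linarith only [c1] | linarith only [c2] | linarith only [c3] | linarith only [c4] | linarith only [c5] | linarith)
          (by first | linarith only [c0] | linarith only [c1] | linarith only [c2] | linarith only [c3] | linarith only [c4] | linarith only [c5] | linarith)
          (by first | linarith only [c0] | linarith only [c1] | linarith only [c2] | linarith only [c3] | linarith only [c4] | linarith only [c5] | linarith)
          (by first | linarith only [c0] | linarith only [c1] | linarith only [c2] | linarith only [c3] | linarith only [c4] | linarith only [c5] | linarith)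
          (by first | linarith only [c0] | linarith only [c1] | linarith only [c2] | linarith only [c3] | linarith only [c4] | linarith only [c5] | linarith)
          (by first | linarith only [c0] | linarith only [c1] | linarith only [c2] | linarith only [c3] | linarith only [c4] | linarith only [c5] | linarith)
          (by first | linarith only [hc, hW, hS] | linarith)
          (by first | linarith only [hd, hW, hS] | linarith)
      · exact w_one_C1 (w := w) (t := t) (X := X) (Y := Y)
          (by first | (refine le_trans ?_ hw; norm_num; done) | (refine le_trans ?_ h0; norm_num; done) | linarith)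
          (by first | (refine le_trans hw ?_; norm_num; done) | (refine le_trans h1 ?_; norm_num; done) | linarith)
          (by first | (refine le_trans ?_ t0; norm_num; done) | linarith)
          (by first | (refine le_trans t1 ?_; norm_num; done) | linarith)
          (by first | (refine le_trans ?_ hx; norm_num; done) | (refine le_trans ?_ hx2; norm_num; done) | (refine le_trans ?_ x0; norm_num; done) | linarith)
          (by first | (refine le_trans hx ?_; norm_num; done) | (refine le_trans hx2 ?_; norm_num; done) | (refine le_trans x1 ?_; norm_num; done) | linarith)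
          (by first | linarith only [y0, y1] | linarith)
          (by first | linarith only [y0, y1] | linarith)
          (by first | linarith only [c0] | linarith only [c1] | linarith only [c2] | linarith only [c3] | linarith only [c4] | linarith only [c5] | linarith)
          (by first | linarith only [c0] | linarith only [c1] | linarith only [c2] | linarith only [c3] | linarith only [c4] | linarith only [c5] | linarith)
          (by first | linarith only [c0] | linarith only [c1] | linarith only [c2] | linarith only [c3] | linarith only [c4] | linarith only [c5] | linarith)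
          (by first | linarith only [c0] | linarith only [c1] | linarith only [c2] | linarith only [c3] | linarith only [c4] | linarith only [c5] | linarith)
          (by first | linarith only [c0] | linarith only [c1] | linarith only [c2] | linarith only [c3] | linarith only [c4] | linarith only [c5] | linarith)
          (by first | linarith only [c0] | linarith only [c1] | linarith only [c2] | linarith only [c3] | linarith only [c4] | linarith only [c5] | linarith)
          (by first | linarith only [hc, hW] | linarith)
          (by first | linarith only [hd, hW] | linarith)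
    · rcases le_total w (18 / 100) with hw2 | hw2
      · exact w_one_A1 (w := w) (t := t) (X := X) (Y := Y)
          (by first | (refine le_trans ?_ hw; norm_num; done) | (refine le_trans ?_ hw2; norm_num; done) | (refine le_trans ?_ h0; norm_num; done) | linarith)
          (by first | (refine le_trans hw ?_; norm_num; done) | (refine le_trans hw2 ?_; norm_num; done) | (refine le_trans h1 ?_; norm_num; done) | linarith)
          (by first | (refine le_trans ?_ t0; norm_num; done) | linarith)
          (by first | (refine le_trans t1 ?_; norm_num; done) | linarith)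
          (by first | (refine le_trans ?_ hx; norm_num; done) | (refine le_trans ?_ x0; norm_num; done) | linarith)
          (by first | (refine le_trans hx ?_; norm_num; done) | (refine le_trans x1 ?_; norm_num; done) | linarith)
          (by first | linarith only [y0, y1] | linarith)
          (by first | linarith only [y0, y1] | linarith)
          (by first | linarith only [c0] | linarith only [c1] | linarith only [c2] | linarith only [c3] | linarith only [c4] | linarith only [c5] | linarith)
          (by first | linarith only [c0] | linarith only [c1] | linarith only [c2] | linarith only [c3] | linarith only [c4] | linarith only [c5] | linarith)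
          (by first | linarith only [c0] | linarith only [c1] | linarith only [c2] | linarith only [c3] | linarith only [c4] | linarith only [c5] | linarith)
          (by first | linarith only [c0] | linarith only [c1] | linarith only [c2] | linarith only [c3] | linarith only [c4] | linarith only [c5] | linarith)
          (by first | linarith only [c0] | linarith only [c1] | linarith only [c2] | linarith only [c3] | linarith only [c4] | linarith only [c5] | linarith)
          (by first | linarith only [c0] | linarith only [c1] | linarith only [c2] | linarith only [c3] | linarith only [c4] | linarith only [c5] | linarith)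
          (by first | linarith only [hc] | linarith)
          (by first | linarith only [hd] | linarith)
      · have hB := near98 hw2 h1
        exact w_one_B1 (w := w) (t := t) (X := X) (Y := Y)
          (by first | (refine le_trans ?_ hw; norm_num; done) | (refine le_trans ?_ hw2; norm_num; done) | (refine le_trans ?_ h0; norm_num; done) | linarith)
          (by first | (refine le_trans hw ?_; norm_num; done) | (refine le_trans hw2 ?_; norm_num; done) | (refine le_trans h1 ?_; norm_num; done) | linarith)
          (by first | (refine le_trans ?_ t0; norm_num; done) | linarith)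
          (by first | (refine le_trans t1 ?_; norm_num; done) | linarith)
          (by first | (refine le_trans ?_ hx; norm_num; done) | (refine le_trans ?_ x0; norm_num; done) | linarith)
          (by first | (refine le_trans hx ?_; norm_num; done) | (refine le_trans x1 ?_; norm_num; done) | linarith)
          (by first | linarith only [y0, y1] | linarith)
          (by first | linarith only [y0, y1] | linarith)
          (by first | linarith only [c0] | linarith only [c1] | linarith only [c2] | linarith only [c3] | linarith only [c4] | linarith only [c5] | linarith)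
          (by first | linarith only [c0] | linarith only [c1] | linarith only [c2] | linarith only [c3] | linarith only [c4] | linarith only [c5] | linarith)
          (by first | linarith only [c0] | linarith only [c1] | linarith only [c2] | linarith only [c3] | linarith only [c4] | linarith only [c5] | linarith)
          (by first | linarith only [c0] | linarith only [c1] | linarith only [c2] | linarith only [c3] | linarith only [c4] | linarith only [c5] | linarith)
          (by first | linarith only [c0] | linarith only [c1] | linarith only [c2] | linarith only [c3] | linarith only [c4] | linarith only [c5] | linarith)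
          (by first | linarith only [c0] | linarith only [c1] | linarith only [c2] | linarith only [c3] | linarith only [c4] | linarith only [c5] | linarith)
          (by first | linarith only [hc, hB] | linarith)
          (by first | linarith only [hd, hB] | linarith)
  rcases le_total X (7910 / 10000) with hx' | hx'
  · obtain ⟨hU1, hU2⟩ := E1.U_d (x := 21 / 100 + X) (t := t + Y) (d := 1 / 1000) (by linarith)
      (by linarith) (by norm_num) (by rw [abs_le]; constructor <;> linarith)
    rcases le_total w (2 / 100) with hw | hw
    · have hW := near2 h0 hw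
      exact w_one_C2 (w := w) (t := t) (X := X) (Y := Y)
        (by first | (refine le_trans ?_ hw; norm_num; done) | (refine le_trans ?_ h0; norm_num; done) | linarith)
        (by first | (refine le_trans hw ?_; norm_num; done) | (refine le_trans h1 ?_; norm_num; done) | linarith)
        (by first | (refine le_trans ?_ t0; norm_num; done) | linarith)
        (by first | (refine le_trans t1 ?_; norm_num; done) | linarith)
        (by first | (refine le_trans ?_ hx; norm_num; done) | (refine le_trans ?_ hx'; norm_num; done) | (refine le_trans ?_ x0; norm_num; done) | linarith)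
        (by first | (refine le_trans hx ?_; norm_num; done) | (refine le_trans hx' ?_; norm_num; done) | (refine le_trans x1 ?_; norm_num; done) | linarith)
        (by first | linarith only [y0, y1] | linarith)
        (by first | linarith only [y0, y1] | linarith)
        (by first | linarith only [c0] | linarith only [c1] | linarith only [c2] | linarith only [c3] | linarith only [c4] | linarith only [c5] | linarith)
        (by first | linarith only [c0] | linarith only [c1] | linarith only [c2] | linarith only [c3] | linarith only [c4] | linarith only [c5] | linarith)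
        (by first | linarith only [c0] | linarith only [c1] | linarith only [c2] | linarith only [c3] | linarith only [c4] | linarith only [c5] | linarith)
        (by first | linarith only [hc, hU1, hU2, hW] | linarith)
        (by first | linarith only [hc, hU1, hU2, hW] | linarith)
        (by first | linarith only [hd, hU1, hU2, hW] | linarith)
        (by first | linarith only [hd, hU1, hU2, hW] | linarith)
    · rcases le_total w (18 / 100) with hw2 | hw2
      · exact w_one_A2 (w := w) (t := t) (X := X) (Y := Y)
          (by first | (refine le_trans ?_ hw; norm_num; done) | (refine le_trans ?_ hw2; norm_num; done) | (refine le_trans ?_ h0; norm_num; done) | linarith)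
          (by first | (refine le_trans hw ?_; norm_num; done) | (refine le_trans hw2 ?_; norm_num; done) | (refine le_trans h1 ?_; norm_num; done) | linarith)
          (by first | (refine le_trans ?_ t0; norm_num; done) | linarith)
          (by first | (refine le_trans t1 ?_; norm_num; done) | linarith)
          (by first | (refine le_trans ?_ hx; norm_num; done) | (refine le_trans ?_ hx'; norm_num; done) | (refine le_trans ?_ x0; norm_num; done) | linarith)
          (by first | (refine le_trans hx ?_; norm_num; done) | (refine le_trans hx' ?_; norm_num; done) | (refine le_trans x1 ?_; norm_num; done) | linarith)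
          (by first | linarith only [y0, y1] | linarith)
          (by first | linarith only [y0, y1] | linarith)
          (by first | linarith only [c0] | linarith only [c1] | linarith only [c2] | linarith only [c3] | linarith only [c4] | linarith only [c5] | linarith)
          (by first | linarith only [c0] | linarith only [c1] | linarith only [c2] | linarith only [c3] | linarith only [c4] | linarith only [c5] | linarith)
          (by first | linarith only [c0] | linarith only [c1] | linarith only [c2] | linarith only [c3] | linarith only [c4] | linarith only [c5] | linarith)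
          (by first | linarith only [hc, hU1, hU2] | linarith)
          (by first | linarith only [hc, hU1, hU2] | linarith)
          (by first | linarith only [hd, hU1, hU2] | linarith)
          (by first | linarith only [hd, hU1, hU2] | linarith)
      · have hB := near98 hw2 h1
        have hS := E1.S_b (s := w + X) (Y := Y) (d := 1 / 25) (by norm_num) (by linarith)
          (by linarith) (by rw [abs_le]; constructor <;> linarith)
        exact w_one_B2 (w := w) (t := t) (X := X) (Y := Y)
          (by first | (refine le_trans ?_ hw; norm_num; done) | (refine le_trans ?_ hw2; norm_num; done) | (refine le_trans ?_ h0; norm_num; done) | linarith)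
          (by first | (refine le_trans hw ?_; norm_num; done) | (refine le_trans hw2 ?_; norm_num; done) | (refine le_trans h1 ?_; norm_num; done) | linarith)
          (by first | (refine le_trans ?_ t0; norm_num; done) | linarith)
          (by first | (refine le_trans t1 ?_; norm_num; done) | linarith)
          (by first | (refine le_trans ?_ hx; norm_num; done) | (refine le_trans ?_ hx'; norm_num; done) | (refine le_trans ?_ x0; norm_num; done) | linarith)
          (by first | (refine le_trans hx ?_; norm_num; done) | (refine le_trans hx' ?_; norm_num; done) | (refine le_trans x1 ?_; norm_num; done) | linarith)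
          (by first | linarith only [y0, y1] | linarith)
          (by first | linarith only [y0, y1] | linarith)
          (by first | linarith only [c0] | linarith only [c1] | linarith only [c2] | linarith only [c3] | linarith only [c4] | linarith only [c5] | linarith)
          (by first | linarith only [c0] | linarith only [c1] | linarith only [c2] | linarith only [c3] | linarith only [c4] | linarith only [c5] | linarith)
          (by first | linarith only [c0] | linarith only [c1] | linarith only [c2] | linarith only [c3] | linarith only [c4] | linarith only [c5] | linarith)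
          (by first | linarith only [hc, hU1, hU2, hB, hS] | linarith)
          (by first | linarith only [hc, hU1, hU2, hB, hS] | linarith)
          (by first | linarith only [hd, hU1, hU2, hB, hS] | linarith)
          (by first | linarith only [hd, hU1, hU2, hB, hS] | linarith)
  · obtain ⟨hU1, hU2⟩ := uu_ge_add (21 / 100 + X) (t + Y)
    rcases le_total w (2 / 100) with hw | hw
    · have hW := near2 h0 hw
      exact w_one_C3 (w := w) (t := t) (X := X) (Y := Y)
        (by first | (refine le_trans ?_ hw; norm_num; done) | (refine le_trans ?_ h0; norm_num; done) | linarith)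
        (by first | (refine le_trans hw ?_; norm_num; done) | (refine le_trans h1 ?_; norm_num; done) | linarith)
        (by first | (refine le_trans ?_ t0; norm_num; done) | linarith)
        (by first | (refine le_trans t1 ?_; norm_num; done) | linarith)
        (by first | (refine le_trans ?_ hx; norm_num; done) | (refine le_trans ?_ hx'; norm_num; done) | (refine le_trans ?_ x0; norm_num; done) | linarith)
        (by first | (refine le_trans hx ?_; norm_num; done) | (refine le_trans hx' ?_; norm_num; done) | (refine le_trans x1 ?_; norm_num; done) | linarith)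
        (by first | linarith only [y0, y1] | linarith)
        (by first | linarith only [y0, y1] | linarith)
        (by first | linarith only [c0] | linarith only [c1] | linarith only [c2] | linarith only [c3] | linarith only [c4] | linarith only [c5] | linarith)
        (by first | linarith only [c0] | linarith only [c1] | linarith only [c2] | linarith only [c3] | linarith only [c4] | linarith only [c5] | linarith)
        (by first | linarith only [c0] | linarith only [c1] | linarith only [c2] | linarith only [c3] | linarith only [c4] | linarith only [c5] | linarith)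
        (by first | linarith only [hc, hU1, hU2, hW] | linarith)
        (by first | linarith only [hc, hU1, hU2, hW] | linarith)
        (by first | linarith only [hd, hU1, hU2, hW] | linarith)
        (by first | linarith only [hd, hU1, hU2, hW] | linarith)
    · rcases le_total w (18 / 100) with hw2 | hw2
      · rcases le_total (w + X) (98 / 100) with hs | hs
        · exact w_one_A3 (w := w) (t := t) (X := X) (Y := Y)
            (by first | (refine le_trans ?_ hw; norm_num; done) | (refine le_trans ?_ hw2; norm_num; done) | (refine le_trans ?_ h0; norm_num; done) | linarith)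
            (by first | (refine le_trans hw ?_; norm_num; done) | (refine le_trans hw2 ?_; norm_num; done) | (refine le_trans h1 ?_; norm_num; done) | linarith)
            (by first | (refine le_trans ?_ t0; norm_num; done) | linarith)
            (by first | (refine le_trans t1 ?_; norm_num; done) | linarith)
            (by first | (refine le_trans ?_ hx; norm_num; done) | (refine le_trans ?_ hx'; norm_num; done) | (refine le_trans ?_ hs; norm_num; done) | (refine le_trans ?_ x0; norm_num; done) | linarith)
            (by first | (refine le_trans hx ?_; norm_num; done) | (refine le_trans hx' ?_; norm_num; done) | (refine le_trans hs ?_; norm_num; done) | (refine le_trans x1 ?_; norm_num; done) | linarith)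
            (by first | linarith only [y0, y1] | linarith)
            (by first | linarith only [y0, y1] | linarith)
            (by first | linarith only [c0] | linarith only [c1] | linarith only [c2] | linarith only [c3] | linarith only [c4] | linarith only [c5] | linarith only [hs] | linarith)
            (by first | linarith only [c0] | linarith only [c1] | linarith only [c2] | linarith only [c3] | linarith only [c4] | linarith only [c5] | linarith only [hs] | linarith)
            (by first | linarith only [c0] | linarith only [c1] | linarith only [c2] | linarith only [c3] | linarith only [c4] | linarith only [c5] | linarith only [hs] | linarith)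
            (by first | linarith only [c0] | linarith only [c1] | linarith only [c2] | linarith only [c3] | linarith only [c4] | linarith only [c5] | linarith only [hs] | linarith)
            (by first | linarith only [hc, hU1, hU2] | linarith)
            (by first | linarith only [hc, hU1, hU2] | linarith)
            (by first | linarith only [hd, hU1, hU2] | linarith)
            (by first | linarith only [hd, hU1, hU2] | linarith)
        · have hS := E1.S_b (s := w + X) (Y := Y) (d := 1 / 50) (by norm_num) (by linarith)
            (by linarith) (by rw [abs_le]; constructor <;> linarith)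
          exact w_one_A4 (w := w) (t := t) (X := X) (Y := Y)
            (by first | (refine le_trans ?_ hw; norm_num; done) | (refine le_trans ?_ hw2; norm_num; done) | (refine le_trans ?_ h0; norm_num; done) | linarith)
            (by first | (refine le_trans hw ?_; norm_num; done) | (refine le_trans hw2 ?_; norm_num; done) | (refine le_trans h1 ?_; norm_num; done) | linarith)
            (by first | (refine le_trans ?_ t0; norm_num; done) | linarith)
            (by first | (refine le_trans t1 ?_; norm_num; done) | linarith)
            (by first | (refine le_trans ?_ hx; norm_num; done) | (refine le_trans ?_ hx'; norm_num; done) | (refine le_trans ?_ hs; norm_num; done) | (refine le_trans ?_ x0; norm_num; done) | linarith)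
            (by first | (refine le_trans hx ?_; norm_num; done) | (refine le_trans hx' ?_; norm_num; done) | (refine le_trans hs ?_; norm_num; done) | (refine le_trans x1 ?_; norm_num; done) | linarith)
            (by first | linarith only [y0, y1] | linarith)
            (by first | linarith only [y0, y1] | linarith)
            (by first | linarith only [c0] | linarith only [c1] | linarith only [c2] | linarith only [c3] | linarith only [c4] | linarith only [c5] | linarith only [hs] | linarith)
            (by first | linarith only [c0] | linarith only [c1] | linarith only [c2] | linarith only [c3] | linarith only [c4] | linarith only [c5] | linarith only [hs] | linarith)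
            (by first | linarith only [c0] | linarith only [c1] | linarith only [c2] | linarith only [c3] | linarith only [c4] | linarith only [c5] | linarith only [hs] | linarith)
            (by first | linarith only [hc, hU1, hU2, hS] | linarith)
            (by first | linarith only [hc, hU1, hU2, hS] | linarith)
            (by first | linarith only [hd, hU1, hU2, hS] | linarith)
            (by first | linarith only [hd, hU1, hU2, hS] | linarith)
      · have hB := near98 hw2 h1
        rcases le_total X (85 / 100) with hs | hs
        · have hS := E1.S_b (s := w + X) (Y := Y) (d := 3 / 100) (by norm_num) (by linarith)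
            (by linarith) (by rw [abs_le]; constructor <;> linarith)
          exact w_one_B3 (w := w) (t := t) (X := X) (Y := Y)
            (by first | (refine le_trans ?_ hw; norm_num; done) | (refine le_trans ?_ hw2; norm_num; done) | (refine le_trans ?_ h0; norm_num; done) | linarith)
            (by first | (refine le_trans hw ?_; norm_num; done) | (refine le_trans hw2 ?_; norm_num; done) | (refine le_trans h1 ?_; norm_num; done) | linarith)
            (by first | (refine le_trans ?_ t0; norm_num; done) | linarith)
            (by first | (refine le_trans t1 ?_; norm_num; done) | linarith)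
            (by first | (refine le_trans ?_ hx; norm_num; done) | (refine le_trans ?_ hx'; norm_num; done) | (refine le_trans ?_ hs; norm_num; done) | (refine le_trans ?_ x0; norm_num; done) | linarith)
            (by first | (refine le_trans hx ?_; norm_num; done) | (refine le_trans hx' ?_; norm_num; done) | (refine le_trans hs ?_; norm_num; done) | (refine le_trans x1 ?_; norm_num; done) | linarith)
            (by first | linarith only [y0, y1] | linarith)
            (by first | linarith only [y0, y1] | linarith)
            (by first | linarith only [c0] | linarith only [c1] | linarith only [c2] | linarith only [c3] | linarith only [c4] | linarith only [c5] | linarith only [hs] | linarith)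
            (by first | linarith only [c0] | linarith only [c1] | linarith only [c2] | linarith only [c3] | linarith only [c4] | linarith only [c5] | linarith only [hs] | linarith)
            (by first | linarith only [c0] | linarith only [c1] | linarith only [c2] | linarith only [c3] | linarith only [c4] | linarith only [c5] | linarith only [hs] | linarith)
            (by first | linarith only [hc, hU1, hU2, hB, hS] | linarith)
            (by first | linarith only [hc, hU1, hU2, hB, hS] | linarith)
            (by first | linarith only [hd, hU1, hU2, hB, hS] | linarith)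
            (by first | linarith only [hd, hU1, hU2, hB, hS] | linarith)
        · have hS : -(16 / 1000) ≤ -uu (w + X) Y := by
            have e := uu_add_one (w + X - 1) Y
            rw [sub_add_cancel] at e
            have h2 := E1.uu_le_real (x := w + X - 1) (y := Y) (by linarith)
            have h3 : uu (w + X - 1) 0 ≤ 0 := by
              have := E1.W_lo (w := 0) (s := w + X - 1) (Y := 0) le_rfl (by linarith) (by linarith)
              have h4 : uu 0 0 = 0 := by
                have := uu_one_sub 0 0
                have h5 := uu_add_one 0 0
                simp only [zero_add, sub_zero, abs_zero, mul_zero, add_zero] at this h5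
                linarith
              linarith
            have h6 : |Y| ≤ 46 / 10000 := by rw [abs_le]; constructor <;> linarith
            have h7 := mul_le_mul Real.pi_lt_d2.le h6 (abs_nonneg Y) (by norm_num)
            linarith
          exact w_one_B4 (w := w) (t := t) (X := X) (Y := Y)
            (by first | (refine le_trans ?_ hw; norm_num; done) | (refine le_trans ?_ hw2; norm_num; done) | (refine le_trans ?_ h0; norm_num; done) | linarith)
            (by first | (refine le_trans hw ?_; norm_num; done) | (refine le_trans hw2 ?_; norm_num; done) | (refine le_trans h1 ?_; norm_num; done) | linarith)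
            (by first | (refine le_trans ?_ t0; norm_num; done) | linarith)
            (by first | (refine le_trans t1 ?_; norm_num; done) | linarith)
            (by first | (refine le_trans ?_ hx; norm_num; done) | (refine le_trans ?_ hx'; norm_num; done) | (refine le_trans ?_ hs; norm_num; done) | (refine le_trans ?_ x0; norm_num; done) | linarith)
            (by first | (refine le_trans hx ?_; norm_num; done) | (refine le_trans hx' ?_; norm_num; done) | (refine le_trans hs ?_; norm_num; done) | (refine le_trans x1 ?_; norm_num; done) | linarith)
            (by first | linarith only [y0, y1] | linarith)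
            (by first | linarith only [y0, y1] | linarith)
            (by first | linarith only [c0] | linarith only [c1] | linarith only [c2] | linarith only [c3] | linarith only [c4] | linarith only [c5] | linarith only [hs] | linarith)
            (by first | linarith only [c0] | linarith only [c1] | linarith only [c2] | linarith only [c3] | linarith only [c4] | linarith only [c5] | linarith only [hs] | linarith)
            (by first | linarith only [c0] | linarith only [c1] | linarith only [c2] | linarith only [c3] | linarith only [c4] | linarith only [c5] | linarith only [hs] | linarith)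
            (by first | linarith only [hc, hU1, hU2, hB, hS] | linarith)
            (by first | linarith only [hc, hU1, hU2, hB, hS] | linarith)
            (by first | linarith only [hd, hU1, hU2, hB, hS] | linarith)
            (by first | linarith only [hd, hU1, hU2, hB, hS] | linarith)

/-! ### the slot `2` -/

theorem PW_ge {G l w : ℝ} (hl : 8 / 10 ≤ l) (hw : 0 ≤ w) (hlw : l + w ≤ 1) :
    PW G w ≤ G + 2 * UU ⟨w, 0⟩ - UU ⟨l + w, 0⟩ + UU ⟨l, 0⟩ := by
  have h := V1_old (X := 4 / 5) (x := l) (w := w) (by norm_num) (by linarith) hw hlw
  unfold PW
  rw [UU_uu, UU_uu, UU_uu]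
  simp only
  rw [add_comm (4 / 5) w] at h
  linarith

theorem Pw_one {w τ G : ℝ} (hw : 0 ≤ w) (hw1 : w ≤ 2 / 10) (hG : Gn .three (21 / 100) w τ .one G) :
    ∃ r ∈ TW, r.cl = .one ∧ r.c = 21 ∧ (r.t0 : ℝ) / 10000 ≤ -τ ∧ -τ ≤ (r.t1 : ℝ) / 10000 ∧
      (r.a : ℝ) / 10000 + (r.e : ℝ) / 1000 * (-τ) ≤ PW G w := by
  cases hG with
  | @one D X Y h0 h1 h2 hb hR hX =>
    have hD : D = .one ∨ D = .two ∨ D = .twoE := by
      cases D
      · exact Or.inl rfl
      · exact Or.inr (Or.inl rfl)
      · exact Or.inr (Or.inr rfl)
      · exact absurd ⟨Or.inl rfl, Or.inl rfl⟩ hb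
      · exact absurd ⟨Or.inl rfl, Or.inr (Or.inl rfl)⟩ hb
      · exact absurd ⟨Or.inl rfl, Or.inr (Or.inr rfl)⟩ hb
    obtain ⟨x0, x1, T, T0, T1, S0, S1, hY⟩ := hR
    rcases hD with rfl | rfl | rfl
    · simp only [cw, pM, pa, pb, show ¬ (Cl.three = Cl.one) by decide, if_false, hbox] at *
      have q1 : (0 : ℝ) ≤ 86 / 100 - X := by linarith
      have key : -(4970 / 10000) + 1128 / 1000 * τ ≤
            PW (V1 ⟨21 / 100, τ⟩ ⟨X, Y⟩ - V1 ⟨w, 0⟩ ⟨X, Y⟩) w ∨
          -(2935 / 10000) - 3142 / 1000 * τ ≤
            PW (V1 ⟨21 / 100, τ⟩ ⟨X, Y⟩ - V1 ⟨w, 0⟩ ⟨X, Y⟩) w := by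
        rcases hY with ⟨y0, y1, y2, y3⟩ | ⟨y0, y1, y2, y3⟩
        · have e1 := mul_le_mul_of_nonneg_right T1 x0
          have e2 := mul_le_mul_of_nonneg_right T1 q1
          have e3 : 0 ≤ (τ + 22 / 1000) * X := mul_nonneg (by linarith) x0
          have e4 : 0 ≤ (τ + 22 / 1000) * (86 / 100 - X) := mul_nonneg (by linarith) q1
          apply pw_one <;> linarith
        · have e1 := mul_le_mul_of_nonneg_right T0 x0
          have e2 := mul_le_mul_of_nonneg_right T0 q1
          have e3 : -(22 / 1000) - τ ≤ T := by linarith
          have e4 := mul_le_mul_of_nonneg_right e3 x0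
          have e5 := mul_le_mul_of_nonneg_right e3 q1
          apply pw_one <;> linarith
      rcases key with key | key
      · refine ⟨⟨.one, 21, -920, -210, -4970, -1128⟩, by simp [TW], rfl, rfl, ?_, ?_, ?_⟩ <;>
          push_cast <;> linarith
      · refine ⟨⟨.one, 21, -920, -210, -2935, 3142⟩, by simp [TW], rfl, rfl, ?_, ?_, ?_⟩ <;>
          push_cast <;> linarith
    · simp only [cw, pM, pa, pb, hbox] at *
      have q1 : (0 : ℝ) ≤ 80 / 100 - X := by linarith
      have key : -(2911 / 10000) - 3142 / 1000 * τ ≤
          PW (V1 ⟨21 / 100, τ⟩ ⟨X, Y⟩ - V1 ⟨w, 0⟩ ⟨X, Y⟩) w := by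
        rcases hY with ⟨y0, y1, y2, y3⟩ | ⟨y0, y1, y2, y3⟩
        · have e1 := mul_le_mul_of_nonneg_right T1 x0
          have e2 := mul_le_mul_of_nonneg_right T1 q1
          apply pw_two <;> linarith
        · exfalso
          linarith
      refine ⟨⟨.one, 21, -940, -460, -2911, 3142⟩, by simp [TW], rfl, rfl, ?_, ?_, ?_⟩ <;>
        push_cast <;> linarith
    · have hX := hX rfl (Or.inl rfl)
      simp only [cw, pM, pa, pb, hbox] at *
      have q1 : (0 : ℝ) ≤ 70 / 100 - X := by linarith
      have key : -(2705 / 10000) - 2721 / 1000 * τ ≤
          PW (V1 ⟨21 / 100, τ⟩ ⟨X, Y⟩ - V1 ⟨w, 0⟩ ⟨X, Y⟩) w := by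
        rcases hY with ⟨y0, y1, y2, y3⟩ | ⟨y0, y1, y2, y3⟩
        · exfalso
          linarith
        · have e1 := mul_le_mul_of_nonneg_right T0 x0
          have e2 := mul_le_mul_of_nonneg_right T0 q1
          apply pw_twoE <;> linarith
      refine ⟨⟨.one, 21, -1145, -870, -2705, 2721⟩, by simp [TW], rfl, rfl, ?_, ?_, ?_⟩ <;>
        push_cast <;> linarith

theorem Pw_all {C : Ct} {c : Cl} (hC : C.ok c) (h3 : C ≠ .threeK) {w t G : ℝ} (hw : 0 ≤ w)
    (hw1 : w ≤ 2 / 10) (t0 : (hbox .three c false).t0 ≤ t) (t1 : t ≤ (hbox .three c false).t1)
    (hG : Gn .three (cW C) w (-t) C G) :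
    ∃ r ∈ TW, r.cl = c ∧ (r.c : ℝ) / 100 = cW C ∧ (r.t0 : ℝ) / 10000 ≤ t ∧
      t ≤ (r.t1 : ℝ) / 10000 ∧ (r.a : ℝ) / 10000 + (r.e : ℝ) / 1000 * t ≤ PW G w := by
  have hE : C ≠ .one → EB .three C w (-t) G := by
    intro h
    have e : cW C = cN C := by
      cases C <;> first | rfl | exact absurd rfl h
    rw [e] at hG
    exact EB_of_Gn (Or.inr (Or.inr rfl)) hw (by linarith) hG
  cases C with
  | one =>
    have hc : c = .one := hC
    subst hc
    obtain ⟨r, hr, h1, h2, h4, h5, h6⟩ := Pw_one hw hw1 hG
    rw [neg_neg] at h4 h5 h6
    refine ⟨r, hr, h1, ?_, h4, h5, h6⟩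
    rw [h2]
    norm_num [cW]
  | two =>
    have hc : c = .two := hC
    subst hc
    have hE := hE (by decide)
    have hH := H_two (w := w) (by linarith) (by linarith)
    simp only [EB, UU_uu, hbox] at hE t0 t1
    refine ⟨⟨.two, 25, -570, 50, -3764, 1571⟩, by simp [TW], rfl, by norm_num [cW, cN], ?_, ?_, ?_⟩
      <;> (try unfold PW) <;> push_cast <;> linarith
  | twoE =>
    have hc : c = .twoE := hC
    subst hc
    have hE := hE (by decide)
    have hH := H_twoE (w := w) (by linarith) (by linarith)
    simp only [EB, UU_uu, hbox] at hE t0 t1
    refine ⟨⟨.twoE, 22, -980, -760, -2878, 2262⟩, by simp [TW], rfl, by norm_num [cW, cN], ?_, ?_,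
      ?_⟩ <;> (try unfold PW) <;> push_cast <;> linarith
  | threeA =>
    have hc : c = .three := hC
    subst hc
    have hE := hE (by decide)
    simp only [EB, UU_uu, hbox] at hE t0 t1
    rcases le_total w (4 / 25) with hw2 | hw2
    · have hE := hE.1 hw2
      have hH := H_tAa (w := w) (by linarith) (by linarith)
      refine ⟨⟨.three, 15, -220, 220, -3724, 851⟩, by simp [TW], rfl, by norm_num [cW, cN], ?_,
        ?_, ?_⟩ <;> (try unfold PW) <;> push_cast <;> linarith
    · have hE := hE.2 hw2
      have hH := H_tAb (w := w) (by linarith) (by linarith)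
      refine ⟨⟨.three, 15, -220, 220, -3404, 565⟩, by simp [TW], rfl, by norm_num [cW, cN], ?_,
        ?_, ?_⟩ <;> (try unfold PW) <;> push_cast <;> linarith
  | threeK => exact absurd rfl h3
  | threeE =>
    have hc : c = .threeE := hC
    subst hc
    have hE := hE (by decide)
    have hH := H_tE (w := w) (by linarith) (by linarith)
    simp only [EB, UU_uu, hbox] at hE t0 t1
    refine ⟨⟨.threeE, 22, -280, -50, -3078, 1215⟩, by simp [TW], rfl, by norm_num [cW, cN], ?_, ?_,
      ?_⟩ <;> (try unfold PW) <;> push_cast <;> linarith
  | ring =>
    have hc : c = .ring := hC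
    subst hc
    have hE := hE (by decide)
    simp only [EB, UU_uu, hbox] at hE t0 t1
    rcases le_total w (7 / 50) with hw2 | hw2
    · have hE := hE.1 hw2
      have hH := H_ra (w := w) (by linarith) (by linarith)
      refine ⟨⟨.ring, 18, -40, 570, -4315, 1678⟩, by simp [TW], rfl, by norm_num [cW, cN], ?_,
        ?_, ?_⟩ <;> (try unfold PW) <;> push_cast <;> linarith
    · have hE := hE.2 hw2
      have hH := H_rb (w := w) (by linarith) (by linarith)
      refine ⟨⟨.ring, 18, -40, 570, -4112, 1397⟩, by simp [TW], rfl, by norm_num [cW, cN], ?_,
        ?_, ?_⟩ <;> (try unfold PW) <;> push_cast <;> linarith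
  | touched =>
    have hE := hE (by decide)
    have hH := H_to (w := w) (by linarith) (by linarith)
    simp only [EB] at hE
    cases c with
    | one =>
      simp only [hbox] at t0 t1
      refine ⟨⟨.one, 20, -1145, -210, -2869, 2360⟩, by simp [TW], rfl, by norm_num [cW, cN], ?_,
        ?_, ?_⟩ <;> (try unfold PW) <;> push_cast <;> linarith
    | two =>
      simp only [hbox] at t0 t1
      refine ⟨⟨.two, 20, -570, 50, -2869, 2360⟩, by simp [TW], rfl, by norm_num [cW, cN], ?_,
        ?_, ?_⟩ <;> (try unfold PW) <;> push_cast <;> linarith
    | twoE =>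
      simp only [hbox] at t0 t1
      refine ⟨⟨.twoE, 20, -980, -760, -2869, 2360⟩, by simp [TW], rfl, by norm_num [cW, cN], ?_,
        ?_, ?_⟩ <;> (try unfold PW) <;> push_cast <;> linarith
    | three =>
      simp only [hbox] at t0 t1
      refine ⟨⟨.three, 20, -220, 220, -2869, 2360⟩, by simp [TW], rfl, by norm_num [cW, cN], ?_,
        ?_, ?_⟩ <;> (try unfold PW) <;> push_cast <;> linarith
    | threeE =>
      simp only [hbox] at t0 t1
      refine ⟨⟨.threeE, 20, -280, -50, -2869, 2360⟩, by simp [TW], rfl, by norm_num [cW, cN], ?_,
        ?_, ?_⟩ <;> (try unfold PW) <;> push_cast <;> linarith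
    | ring =>
      simp only [hbox] at t0 t1
      refine ⟨⟨.ring, 20, -40, 570, -2869, 2360⟩, by simp [TW], rfl, by norm_num [cW, cN], ?_,
        ?_, ?_⟩ <;> (try unfold PW) <;> push_cast <;> linarith

end L2

end TL

end Pool.Agent.Work.MP_b30479_gt.G2
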