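import Pool.Agent.Work.MP_b30479_gt.G2.TL2g
import Pool.Agent.Work.MP_b30479_gt.G2.TL2w
import Pool.Agent.Work.MP_b30479_gt.G2.TL2u

/-!
# Tails: an interior three whose inner variable is in the tail
-/

namespace Pool.Agent.Work.MP_b30479_gt.G2

open VOL SR NumU

namespace TL

namespace L2

/-- the slot `0` -/
theorem Pu_all {C : Ct} {c : Cl} (hC : C.ok c) (h3 : C ≠ .threeA) {u l t G : ℝ}
    (hl : 8 / 10 ≤ l) (hl1 : l ≤ 1) (hu : 0 ≤ u) (hu1 : u ≤ 65 / 100)
    (t0 : (hbox .three c false).t0 ≤ t) (t1 : t ≤ (hbox .three c false).t1)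
    (hG : Gn .three (cU C u) u (-t) C G) :
    ∃ r ∈ TU, r.cl = c ∧ (r.c : ℝ) / 100 = cU C u ∧ (r.t0 : ℝ) / 10000 ≤ t ∧
      t ≤ (r.t1 : ℝ) / 10000 ∧ (r.a : ℝ) / 10000 + (r.e : ℝ) / 1000 * t ≤
        G + UU ⟨u, 0⟩ + UU ⟨l - u, 0⟩ := by
  cases C with
  | one =>
    have hc : c = .one := hC
    subst hc
    rcases lt_or_ge u (3 / 10) with hu3 | hu3
    · rcases Pu_one_lo hl hl1 hu hu3 hG with ⟨w0, w1, h⟩ | ⟨w0, w1, h⟩ | ⟨w0, w1, h⟩
      · exact ⟨⟨.one, 23, -920, -210, -2490, 1957⟩, by simp [TU], rfl, by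
          simp only [cU]; rw [if_pos hu3]; norm_num, by push_cast; linarith only [w1], by
          push_cast; linarith only [w0], by push_cast; linarith only [h]⟩
      · exact ⟨⟨.one, 23, -940, -460, -2108, 2375⟩, by simp [TU], rfl, by
          simp only [cU]; rw [if_pos hu3]; norm_num, by push_cast; linarith only [w1], by
          push_cast; linarith only [w0], by push_cast; linarith only [h]⟩
      · exact ⟨⟨.one, 23, -1145, -870, -1899, 2473⟩, by simp [TU], rfl, by
          simp only [cU]; rw [if_pos hu3]; norm_num, by push_cast; linarith only [w1], by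
          push_cast; linarith only [w0], by push_cast; linarith only [h]⟩
    · have hn : ¬ u < 3 / 10 := not_lt.2 hu3
      rcases Pu_one_hi hl hl1 hu3 hu1 hG with ⟨w0, w1, h⟩ | ⟨w0, w1, h, h'⟩ | ⟨w0, w1, h⟩
      · exact ⟨⟨.one, 27, -920, -210, -2283, 2225⟩, by simp [TU], rfl, by
          simp only [cU]; rw [if_neg hn]; norm_num, by push_cast; linarith only [w1], by
          push_cast; linarith only [w0], by push_cast; linarith only [h]⟩
      · rcases le_total (-t) (70 / 1000) with ht | ht
        · have h := h ht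
          exact ⟨⟨.one, 27, -700, -460, -2394, 2188⟩, by simp [TU], rfl, by
            simp only [cU]; rw [if_neg hn]; norm_num, by push_cast; linarith only [ht], by
            push_cast; linarith only [w0], by push_cast; linarith only [h]⟩
        · rcases h' ht with h | h
          · exact ⟨⟨.one, 27, -940, -700, -2630, 1850⟩, by simp [TU], rfl, by
              simp only [cU]; rw [if_neg hn]; norm_num, by push_cast; linarith only [w1], by
              push_cast; linarith only [ht], by push_cast; linarith only [h]⟩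
          · exact ⟨⟨.one, 27, -940, -700, -2432, 2092⟩, by simp [TU], rfl, by
              simp only [cU]; rw [if_neg hn]; norm_num, by push_cast; linarith only [w1], by
              push_cast; linarith only [ht], by push_cast; linarith only [h]⟩
      · exact ⟨⟨.one, 27, -1145, -870, -2084, 2363⟩, by simp [TU], rfl, by
          simp only [cU]; rw [if_neg hn]; norm_num, by push_cast; linarith only [w1], by
          push_cast; linarith only [w0], by push_cast; linarith only [h]⟩
  | two =>
    have hc : c = .two := hC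
    subst hc
    have h := Pu_two hl hl1 hu hu1 hG
    simp only [hbox] at t0 t1
    refine ⟨⟨.two, 25, -570, 50, -1620, 1875⟩, by simp [TU], rfl, by norm_num [cU, cN], ?_, ?_, ?_⟩
      <;> push_cast <;> linarith only [t0, t1, h]
  | twoE =>
    have hc : c = .twoE := hC
    subst hc
    have h := Pu_twoE hl hl1 hu hu1 hG
    simp only [hbox] at t0 t1
    refine ⟨⟨.twoE, 22, -980, -760, -1206, 1950⟩, by simp [TU], rfl, by norm_num [cU, cN], ?_, ?_,
      ?_⟩ <;> push_cast <;> linarith only [t0, t1, h]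
  | threeA => exact absurd rfl h3
  | threeK =>
    have hc : c = .three := hC
    subst hc
    have h := Pu_threeK hl hl1 hu hu1 hG
    simp only [hbox] at t0 t1
    refine ⟨⟨.three, 18, -220, 220, -1572, 1308⟩, by simp [TU], rfl, by norm_num [cU, cN], ?_, ?_,
      ?_⟩ <;> push_cast <;> linarith only [t0, t1, h]
  | threeE =>
    have hc : c = .threeE := hC
    subst hc
    have h := Pu_threeE hl hl1 hu hu1 hG
    simp only [hbox] at t0 t1
    refine ⟨⟨.threeE, 22, -280, -50, -1190, 1378⟩, by simp [TU], rfl, by norm_num [cU, cN], ?_, ?_,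
      ?_⟩ <;> push_cast <;> linarith only [t0, t1, h]
  | ring =>
    have hc : c = .ring := hC
    subst hc
    have h := Pu_ring hl hl1 hu hu1 hG
    simp only [hbox] at t0 t1
    refine ⟨⟨.ring, 18, -40, 570, -1886, 281⟩, by simp [TU], rfl, by norm_num [cU, cN], ?_, ?_,
      ?_⟩ <;> push_cast <;> linarith only [t0, t1, h]
  | touched =>
    have h := Pu_touched hl hl1 hu hu1 hG
    cases c <;> simp only [hbox] at t0 t1
    · exact ⟨⟨.one, 20, -1145, -210, -1403, 2360⟩, by simp [TU], rfl, by norm_num [cU, cN],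
        by push_cast; linarith only [t0], by push_cast; linarith only [t1], by push_cast; linarith only [h]⟩
    · exact ⟨⟨.two, 20, -570, 50, -1403, 2360⟩, by simp [TU], rfl, by norm_num [cU, cN],
        by push_cast; linarith only [t0], by push_cast; linarith only [t1], by push_cast; linarith only [h]⟩
    · exact ⟨⟨.twoE, 20, -980, -760, -1403, 2360⟩, by simp [TU], rfl, by norm_num [cU, cN],
        by push_cast; linarith only [t0], by push_cast; linarith only [t1], by push_cast; linarith only [h]⟩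
    · exact ⟨⟨.three, 20, -220, 220, -1403, 2360⟩, by simp [TU], rfl, by norm_num [cU, cN],
        by push_cast; linarith only [t0], by push_cast; linarith only [t1], by push_cast; linarith only [h]⟩
    · exact ⟨⟨.threeE, 20, -280, -50, -1403, 2360⟩, by simp [TU], rfl, by norm_num [cU, cN],
        by push_cast; linarith only [t0], by push_cast; linarith only [t1], by push_cast; linarith only [h]⟩
    · exact ⟨⟨.ring, 20, -40, 570, -1403, 2360⟩, by simp [TU], rfl, by norm_num [cU, cN],
        by push_cast; linarith only [t0], by push_cast; linarith only [t1], by push_cast; linarith only [h]⟩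

end L2

theorem side_threeL {Cu Cw : Ct} {cu cw' : Cl} (hCu : Cu.ok cu) (hCw : Cw.ok cw')
    (hu3 : Cu ≠ .threeA) (hw3 : Cw ≠ .threeK) {u l w tu m tw G G' : ℝ}
    (hl : 8 / 10 ≤ l) (hu : 0 ≤ u) (hu1 : u ≤ 65 / 100) (hw : 0 ≤ w) (hlw : l + w ≤ 1)
    (tu0 : (hbox .three cu false).t0 ≤ tu) (tu1 : tu ≤ (hbox .three cu false).t1)
    (tw0 : (hbox .three cw' false).t0 ≤ tw) (tw1 : tw ≤ (hbox .three cw' false).t1)
    (m0 : (mw cu cw').t0 ≤ m) (m1 : m ≤ (mw cu cw').t1)
    (s0 : (mw cu cw').s0 ≤ m - tu) (s1 : m - tu ≤ (mw cu cw').s1)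
    (hG : Gn .three (cU Cu u) u (-tu) Cu G) (hG' : Gn .three (cW Cw) w (-tw) Cw G') :
    0 < V3 ⟨cU Cu u, tu⟩ ⟨9 / 20, m⟩ ⟨cW Cw, tw⟩ - V3 ⟨u, 0⟩ ⟨l, 0⟩ ⟨w, 0⟩ + G + G' := by
  obtain ⟨r, hr, e1, e2, r0, r1, r2⟩ := L2.Pu_all hCu hu3 hl (by linarith only [hw, hlw]) hu hu1 tu0 tu1 hG
  obtain ⟨q, hq, f1, f2, q0, q1, q2⟩ := L2.Pw_all hCw hw3 hw (by linarith only [hl, hlw]) tw0 tw1 hG'
  subst e1 f1
  have h := L2.pair_pos hr hq r0 r1 q0 q1 m0 m1 s0 s1
  rw [e2, f2] at h
  have hP := L2.PW_ge (G := G') hl hw hlw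
  rw [K3.V3_real]
  simp only [UU_uu] at r2 hP
  linarith only [r2, q2, h, hP]

end TL

end Pool.Agent.Work.MP_b30479_gt.G2
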