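import Pool.Agent.Work.MP_b30479_gt.G2.TL2f

/-!
# Tails, interior three with its inner variable in the tail: all pairs of lines
-/

namespace Pool.Agent.Work.MP_b30479_gt.G2

open VOL SR NumU

namespace TL

namespace L2

/-- the slot `0` -/
def TU : List Ln :=
  [⟨.one, 23, -920, -210, -2490, 1957⟩, ⟨.one, 23, -940, -460, -2108, 2375⟩,
   ⟨.one, 23, -1145, -870, -1899, 2473⟩,
   ⟨.one, 27, -920, -210, -2283, 2225⟩, ⟨.one, 27, -700, -460, -2394, 2188⟩,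
   ⟨.one, 27, -940, -700, -2630, 1850⟩, ⟨.one, 27, -940, -700, -2432, 2092⟩,
   ⟨.one, 27, -1145, -870, -2084, 2363⟩,
   ⟨.two, 25, -570, 50, -1620, 1875⟩, ⟨.twoE, 22, -980, -760, -1206, 1950⟩,
   ⟨.three, 18, -220, 220, -1572, 1308⟩, ⟨.threeE, 22, -280, -50, -1190, 1378⟩,
   ⟨.ring, 18, -40, 570, -1886, 281⟩,
   ⟨.one, 20, -1145, -210, -1403, 2360⟩, ⟨.two, 20, -570, 50, -1403, 2360⟩,
   ⟨.twoE, 20, -980, -760, -1403, 2360⟩, ⟨.three, 20, -220, 220, -1403, 2360⟩,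
   ⟨.threeE, 20, -280, -50, -1403, 2360⟩, ⟨.ring, 20, -40, 570, -1403, 2360⟩]

theorem okP_all : (TU.all fun u => TW.all fun w => okP u w) = true := by decide +kernel

/-- all pairs of lines -/
theorem pair_pos {u w : Ln} (hu : u ∈ TU) (hw : w ∈ TW) {tu m tw : ℝ}
    (tu0 : (u.t0 : ℝ) / 10000 ≤ tu) (tu1 : tu ≤ (u.t1 : ℝ) / 10000)
    (tw0 : (w.t0 : ℝ) / 10000 ≤ tw) (tw1 : tw ≤ (w.t1 : ℝ) / 10000)
    (m0 : (mw u.cl w.cl).t0 ≤ m) (m1 : m ≤ (mw u.cl w.cl).t1)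
    (s0 : (mw u.cl w.cl).s0 ≤ m - tu) (s1 : m - tu ≤ (mw u.cl w.cl).s1) :
    0 < V3 ⟨(u.c : ℝ) / 100, tu⟩ ⟨9 / 20, m⟩ ⟨(w.c : ℝ) / 100, tw⟩ +
      ((u.a : ℝ) / 10000 + (u.e : ℝ) / 1000 * tu) + ((w.a : ℝ) / 10000 + (w.e : ℝ) / 1000 * tw) := by
  have h := okP_all
  rw [List.all_eq_true] at h
  have h2 := h u hu
  rw [List.all_eq_true] at h2
  exact okP_sound (h2 w hw) tu0 tu1 tw0 tw1 m0 m1 s0 s1

end L2

end TL

end Pool.Agent.Work.MP_b30479_gt.G2
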