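import Pool.Agent.Work.NumU.GenF

/-!
# Tails, an interior three whose inner variable is in the tail: tools for the slot `0`

`eO`, `eT`, `eR`: the gain of the untouched region of class one, two (or three), ring.
-/

namespace Pool.Agent.Work.MP_b30479_gt.G2

open VOL NumU

namespace TL

namespace L2

/-! ### real values -/

theorem uu_1_0 : uu 1 0 = 0 := by
  have h := uu_one_sub 0 0
  rw [sub_zero] at h
  have h0 : uu 0 0 = 0 := by
    have h := uu_zero 0
    rw [abs_zero, mul_zero, neg_zero] at h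
    exact h
  rw [h, h0, neg_zero]

/-- the inner variable is at least `8/10` -/
theorem lu_or {u l : ℝ} (h8 : 8 / 10 ≤ l) (h1 : l ≤ 1) (hu : 0 ≤ u) (hu1 : u ≤ 19 / 30) :
    uu (8 / 10 - u) 0 ≤ uu (l - u) 0 ∨ (u ≤ 1 / 6 ∧ -uu u 0 ≤ uu (l - u) 0) := by
  rcases le_total (l - u) (5 / 6) with h | h
  · exact Or.inl (uu_real_mono (by linarith) (by linarith) h)
  · refine Or.inr ⟨by linarith, ?_⟩
    have h2 := uu_real_anti1 (a := l - u) (b := 1 - u) h (by linarith) (by linarith)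
    rw [uu_one_sub] at h2
    exact h2

/-- lower bound of all real values -/
theorem real_ge {x : ℝ} (h0 : 0 ≤ x) (h1 : x ≤ 1) : -(1616 / 10000) ≤ uu x 0 := by
  have hc : -(1616 / 10000) ≤ uu (1 / 6) 0 := by
    have h : NumG.chkF [.add (.uw (.var 0) (.q 0 1)) (.q 1616 10000)] 10000 0 0 0 0 20 1666 1667
        0 0 0 0 0 0 4 = true := by decide +kernel
    obtain ⟨e, he, hp⟩ := NumG.chkF4 h (by norm_num) (x := 1 / 6) (y := 0) (z := 0) (w := 0)
      (by norm_num) (by norm_num) (by norm_num) (by norm_num) (by norm_num) (by norm_num)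
      (by norm_num) (by norm_num)
    simp only [List.mem_cons, List.not_mem_nil, or_false] at he
    subst he
    simp only [NumG.E.val, NumI.lkR] at hp
    push_cast at hp
    rw [zero_div] at hp
    linarith
  rcases le_total x (1 / 6) with h | h
  · exact hc.trans (uu_real_anti h0 h le_rfl)
  · rcases le_total x (5 / 6) with h' | h'
    · exact hc.trans (uu_real_mono le_rfl h h')
    · have := uu_real_anti1 h' h1 le_rfl
      rw [uu_1_0] at this
      linarith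

/-! ### expressions -/

section


/-- class one: `c / 100` the target, `a` the function of the height, `b` the function of the old
position -/
def eO (c a0 a2 b0 b1 b2 : ℤ) : NumG.E :=
  .add (.add (.sub (.add (.mul .pi (.add (.mul (.sub (.q c 100) (.var 0)) (.var 3))
    (.mul (.var 1) (.sub (.sub (.var 2) (.var 0)) (.q 1 1)))))
    (.uw (.add (.q c 100) (.sub (.var 2) (.var 0))) (.add (.var 1) (.var 3))))
    (.uw (.var 2) (.var 3))) (.add (.q a0 100000) (.mul (.q a2 1000) (.sq (.var 1)))))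
    (.add (.q b0 100000) (.mul (.var 0) (.add (.q b1 1000) (.mul (.q b2 1000) (.var 0)))))

/-- class two, or three with the slot `2` -/
def eT (c a0 a2 b0 b1 b2 : ℤ) : NumG.E :=
  .add (.add (.sub (.add (.mul .pi (.add (.mul (.var 1) (.sub (.sub (.var 2) (.var 0))
    (.add (.q c 100) (.q 1 2)))) (.mul (.sub (.q c 100) (.var 0)) (.var 3))))
    (.uw (.add (.q c 100) (.sub (.var 2) (.var 0))) (.add (.var 1) (.var 3))))
    (.uw (.var 2) (.var 3)))
    (.mul (.q 2 1) (.add (.q a0 100000) (.mul (.q a2 1000) (.sq (.var 1))))))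
    (.add (.q b0 100000) (.mul (.var 0) (.add (.q b1 1000) (.mul (.q b2 1000) (.var 0)))))

/-- ring -/
def eR (a0 a2 b0 b1 b2 : ℤ) : NumG.E :=
  .add (.add (.sub (.sub (.add (.uw (.add (.q 68 100) (.var 2)) (.add (.var 1) (.var 3)))
    (.uw (.sub (.q 68 100) (.var 2)) (.sub (.var 1) (.var 3))))
    (.uw (.add (.add (.var 0) (.q 1 2)) (.var 2)) (.var 3)))
    (.uw (.sub (.add (.var 0) (.q 1 2)) (.var 2)) (.var 3)))
    (.mul (.q 2 1) (.add (.q a0 100000) (.mul (.q a2 1000) (.sq (.var 1))))))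
    (.add (.q b0 100000) (.mul (.var 0) (.add (.q b1 1000) (.mul (.q b2 1000) (.var 0)))))

/-- minus the line `a - e t` -/
def eL (a e : ℤ) (x : NumG.E) : NumG.E := .add (.sub x (.q a 10000)) (.mul (.q e 10000) (.var 1))

end

/-- the real function of `eO` -/
noncomputable def fO (c a0 a2 b0 b1 b2 : ℤ) (w t X Y : ℝ) : ℝ :=
  Real.pi * (((c : ℝ) / 100 - w) * Y + t * (X - 1)) + uu ((c : ℝ) / 100 + X) (t + Y) -
    uu (w + X) Y + ((a0 : ℝ) / 100000 + (a2 : ℝ) / 1000 * t ^ 2) +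
    ((b0 : ℝ) / 100000 + w * ((b1 : ℝ) / 1000 + (b2 : ℝ) / 1000 * w))

/-- the real function of `eT` -/
noncomputable def fT (c a0 a2 b0 b1 b2 : ℤ) (w t X Y : ℝ) : ℝ :=
  Real.pi * (t * (X - ((c : ℝ) / 100 + 1 / 2)) + ((c : ℝ) / 100 - w) * Y) +
    uu ((c : ℝ) / 100 + X) (t + Y) - uu (w + X) Y +
    2 * ((a0 : ℝ) / 100000 + (a2 : ℝ) / 1000 * t ^ 2) +
    ((b0 : ℝ) / 100000 + w * ((b1 : ℝ) / 1000 + (b2 : ℝ) / 1000 * w))

/-- the real function of `eR` -/
noncomputable def fRr (a0 a2 b0 b1 b2 : ℤ) (w t σ η : ℝ) : ℝ :=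
  uu (68 / 100 + σ) (t + η) + uu (68 / 100 - σ) (t - η) - uu (w + 1 / 2 + σ) η -
    uu (w + 1 / 2 - σ) η + 2 * ((a0 : ℝ) / 100000 + (a2 : ℝ) / 1000 * t ^ 2) +
    ((b0 : ℝ) / 100000 + w * ((b1 : ℝ) / 1000 + (b2 : ℝ) / 1000 * w))

theorem eO_val (c a0 a2 b0 b1 b2 a e : ℤ) (w t X Y : ℝ) :
    (eL a e (eO c a0 a2 b0 b1 b2)).val [w, t, w + X, Y] =
      fO c a0 a2 b0 b1 b2 w t X Y - ((a : ℝ) / 10000 - (e : ℝ) / 10000 * t) := by
  simp only [eL, eO, fO, NumG.E.val, NumI.lkR, add_sub_cancel_left]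
  push_cast
  ring

theorem eT_val (c a0 a2 b0 b1 b2 a e : ℤ) (w t X Y : ℝ) :
    (eL a e (eT c a0 a2 b0 b1 b2)).val [w, t, w + X, Y] =
      fT c a0 a2 b0 b1 b2 w t X Y - ((a : ℝ) / 10000 - (e : ℝ) / 10000 * t) := by
  simp only [eL, eT, fT, NumG.E.val, NumI.lkR, add_sub_cancel_left]
  push_cast
  ring

theorem eR_val (a0 a2 b0 b1 b2 a e : ℤ) (w t σ η : ℝ) :
    (eL a e (eR a0 a2 b0 b1 b2)).val [w, t, σ, η] =
      fRr a0 a2 b0 b1 b2 w t σ η - ((a : ℝ) / 10000 - (e : ℝ) / 10000 * t) := by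
  simp only [eL, eR, fRr, NumG.E.val, NumI.lkR]
  push_cast
  ring

end L2

end TL

end Pool.Agent.Work.MP_b30479_gt.G2
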