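import Pool.Agent.Work.MP_b30479_gt.G2.TL2uR
import Pool.Agent.Work.MP_b30479_gt.G2.TL2uT

/-!
# Tails, slot `0` of an interior three: rows WE
-/

set_option linter.unusedVariables false
set_option linter.unusedSimpArgs false
set_option linter.unusedTactic false

namespace Pool.Agent.Work.MP_b30479_gt.G2

open VOL NumU

namespace TL

namespace L2

theorem ri_0_1600_2000 {w t σ η : ℝ} (a0 : 1600 / 10000 ≤ w) (b0 : w ≤ 2000 / 10000) (a1 : -(570 / 10000) ≤ t)
    (b1 : t ≤ 40 / 10000) (a2 : -(5000 / 10000) ≤ σ) (b2 : σ ≤ -(2500 / 10000)) (a3 : 0 ≤ η) (b3 : η ≤ 1045 / 10000)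
    (r1 : η ≤ 1045 / 10000 * (2 + 4 * σ)) :
    -(1886 / 10000) - (2810 / 10000) * t < fRr 16096 2430 (-10692) (-2872) 6816 w t σ η := by
  have h : NumG.chkF [eL (-1886) 2810 (eR 16096 2430 (-10692) (-2872) 6816),
      .sub (.var 3) (.mul (.q 1045 10000) (.add (.q 2 1) (.mul (.q 4 1) (.var 2))))] 10000 0 570 5000 0 60 1600 2000 0 610 0 2500 0 1045
      0x1020408001830810200041020004100040800204000c20008100040010200081000408100000610204000c0820608182081000408100000410200080820402100000010200081020000082040808202001020200102040410204040c000040c204080020404001840810183041020008101040810003040c0000810200061000408082040410000041020008100000004184080c20408001840810003000820400000840a10200080020106002040810004040018408002020810004080020400081840804084080c1030810084081020000002040208204081000208041840208180000c1040810004040020400102030810204000c20208081800010200040c1020810204000c18408002040010202060c104080c2040800184020c20008100040800204001000308041820810200001020408080000808182040420400102000808185080c102 = true := by decide +kernel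
  obtain ⟨e, he, hp⟩ := NumG.chkF4 h (by norm_num) (x := w) (y := t) (z := σ) (w := η)
    (by norm_num; linarith) (by norm_num; linarith) (by norm_num; linarith) (by norm_num; linarith)
    (by norm_num; linarith) (by norm_num; linarith) (by norm_num; linarith) (by norm_num; linarith)
  simp only [List.mem_cons, List.not_mem_nil, or_false] at he
  rcases he with rfl | rfl
  · rw [eR_val] at hp
    push_cast at hp
    linarith
  · exfalso
    simp only [NumG.E.val, NumI.lkR] at hp
    push_cast at hp
    linarith

theorem o0_10_12_21 {w t X Y : ℝ} (a0 : 1000 / 10000 ≤ w) (b0 : w ≤ 1200 / 10000) (a1 : 210 / 10000 ≤ t)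
    (b1 : t ≤ 920 / 10000) (hR : RO0 t X Y) :
    -(2490 / 10000) - (19570 / 10000) * t < fO 23 15198 1725 5118 (-2971) 7667 w t X Y := by
  have h : NumG.chkF ([eL (-2490) 19570 (eO 23 15198 1725 5118 (-2971) 7667)] ++ eRO0) 10000 0 0 0 910 60 1000 1200 210 920 1000 9800 0 1400
      0xa0810210060c08408102040840183020c081040c7841e0c20f003c190020410f060c204080020400102040010104080020200102040208204020020400001030210204081010208000810810202000010302102001e0c20208102000800104080010f08100100640082064021002102100004104200401006401820810200004020408401900204803024018206102040410002201020208001030810200080011008101040008184200020404100020240804044000206048042004104040080302088030204783060820400102000810004080420404100000808083080808408100040010101083c004043c18f060c20400102040040084040c0040800204001020002101100600084080411006042040208184080c102081010208102040208102 = true := by decide +kernel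
  obtain ⟨e, he, hp⟩ := NumG.chkF4 h (by norm_num) (x := w) (y := t) (z := w + X) (w := Y)
    (by norm_num; linarith) (by norm_num; linarith) (by norm_num; linarith) (by norm_num; linarith)
    (by norm_num; linarith [hR.h0, hR.h1]) (by norm_num; linarith [hR.h0, hR.h1])
    (by norm_num; linarith [hR.h12]) (by norm_num; linarith [hR.h13])
  rw [List.mem_append] at he
  rcases he with he | he
  · simp only [List.mem_singleton] at he
    subst he
    rw [eO_val] at hp
    push_cast at hp
    linarith
  · exact absurd hp (not_lt.2 (hR.neg he))

theorem tw_0_2 {w t X Y : ℝ} (a0 : 0 / 10000 ≤ w) (b0 : w ≤ 200 / 10000) (a1 : -(50 / 10000) ≤ t)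
    (b1 : t ≤ 570 / 10000) (hR : RTw t X Y) :
    -(1620 / 10000) - (18750 / 10000) * t < fT 25 14568 1554 (-12308) 0 0 w t X Y := by
  have h : NumG.chkF ([eL (-1620) 18750 (eT 25 14568 1554 (-12308) 0 0)] ++ eRTw) 10000 0 50 0 985 60 0 200 0 620 0 6200 0 1945
      0x10202081020404102020608102 = true := by decide +kernel
  obtain ⟨e, he, hp⟩ := NumG.chkF4 h (by norm_num) (x := w) (y := t) (z := w + X) (w := Y)
    (by norm_num; linarith) (by norm_num; linarith) (by norm_num; linarith) (by norm_num; linarith)
    (by norm_num; linarith [hR.h0, hR.h1]) (by norm_num; linarith [hR.h0, hR.h1])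
    (by norm_num; linarith [hR.h6]) (by norm_num; linarith [hR.h7])
  rw [List.mem_append] at he
  rcases he with he | he
  · simp only [List.mem_singleton] at he
    subst he
    rw [eT_val] at hp
    push_cast at hp
    linarith
  · exact absurd hp (not_lt.2 (hR.neg he))

end L2

end TL

end Pool.Agent.Work.MP_b30479_gt.G2
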