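import Pool.Agent.Work.MP_b30479_gt.G2.TL2uR
import Pool.Agent.Work.MP_b30479_gt.G2.TL2uT

/-!
# Tails, slot `0` of an interior three: rows WI
-/

set_option linter.unusedVariables false
set_option linter.unusedSimpArgs false
set_option linter.unusedTactic false

namespace Pool.Agent.Work.MP_b30479_gt.G2

open VOL NumU

namespace TL

namespace L2

theorem ri_25_3000_4000 {w t σ η : ℝ} (a0 : 3000 / 10000 ≤ w) (b0 : w ≤ 4000 / 10000) (a1 : -(570 / 10000) ≤ t)
    (b1 : t ≤ 40 / 10000) (a2 : -(2500 / 10000) ≤ σ) (b2 : σ ≤ 0 / 10000) (a3 : 0 ≤ η) (b3 : η ≤ 1045 / 10000)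
    (r1 : η ≤ 1045 / 10000 * (2 + 4 * σ)) :
    -(1886 / 10000) - (2810 / 10000) * t < fRr 16096 2430 (-36880) (-819) 2660 w t σ η := by
  have h : NumG.chkF [eL (-1886) 2810 (eR 16096 2430 (-36880) (-819) 2660),
      .sub (.var 3) (.mul (.q 1045 10000) (.add (.q 2 1) (.mul (.q 4 1) (.var 2))))] 10000 0 570 2500 0 60 3000 4000 0 610 0 2500 0 1045
      0x408100000810003081010408002040008004080018008100040010204001010008100810810104000010408002000810200000818408101000610200081000308100040800182000820400101040808200081008000102000610204000010408082000800204081000004102000800204080000200102020800204001000404001840808200081000400101000810084001020008002020004204001020008002020010200020c08408002040010100080418200102040010102080c20400101840400184080c20408002000810004040820408100000810200000410108102000808104061008300101040810003080020408000020600102 = true := by decide +kernel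
  obtain ⟨e, he, hp⟩ := NumG.chkF4 h (by norm_num) (x := w) (y := t) (z := σ) (w := η)
    (by norm_num; linarith) (by norm_num; linarith) (by norm_num; linarith) (by norm_num; linarith)
    (by norm_num; linarith) (by norm_num; linarith) (by norm_num; linarith) (by norm_num; linarith)
  simp only [List.mem_cons, List.not_mem_nil, or_false] at he
  rcases he with rfl | rfl
  · rw [eR_val] at hp
    push_cast at hp
    linarith
  · exfalso
    simp only [NumG.E.val, NumI.lkR] at hp
    push_cast at hp
    linarith

theorem o0_14_16_21 {w t X Y : ℝ} (a0 : 1400 / 10000 ≤ w) (b0 : w ≤ 1600 / 10000) (a1 : 210 / 10000 ≤ t)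
    (b1 : t ≤ 920 / 10000) (hR : RO0 t X Y) :
    -(2490 / 10000) - (19570 / 10000) * t < fO 23 15198 1725 1336 (-2383) 5368 w t X Y := by
  have h : NumG.chkF ([eL (-2490) 19570 (eO 23 15198 1725 1336 (-2383) 5368)] ++ eRO0) 10000 0 0 0 910 60 1400 1600 210 920 1400 10200 0 1400
      0xa08102040408204200c104080820408102000008082040c083081000408100040810004081000408082040208001001020408000820810100081020400002040008080040c08106102040810004080820400101040410200081010400080010810202080020408000020210002060408304087840840090020478304102001e0c2040010200040820400102040008204000020400001100840084084000104108010040190060808f0610200081000404002040800104000880408100020800110064008308101040808004081000208001100810200044021000088030210800004018206102010810000081000220102000440080200c2040840081200c184080020002102040400104080020208400040404002200c0900604101043c1830810104081000008102020010204000020408002040010101000c202020c20400080840800204001020408001000610101083c00f001010f060c2040210204001010108401900210200040c0040810204040c004081008404401800210200040080302102040004110060420402102010208184080c102081010208102040208102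 = true := by decide +kernel
  obtain ⟨e, he, hp⟩ := NumG.chkF4 h (by norm_num) (x := w) (y := t) (z := w + X) (w := Y)
    (by norm_num; linarith) (by norm_num; linarith) (by norm_num; linarith) (by norm_num; linarith)
    (by norm_num; linarith [hR.h0, hR.h1]) (by norm_num; linarith [hR.h0, hR.h1])
    (by norm_num; linarith [hR.h12]) (by norm_num; linarith [hR.h13])
  rw [List.mem_append] at he
  rcases he with he | he
  · simp only [List.mem_singleton] at he
    subst he
    rw [eO_val] at hp
    push_cast at hp
    linarith
  · exact absurd hp (not_lt.2 (hR.neg he))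

theorem o1_2_10_46 {w t X Y : ℝ} (a0 : 200 / 10000 ≤ w) (b0 : w ≤ 1000 / 10000) (a1 : 460 / 10000 ≤ t)
    (b1 : t ≤ 940 / 10000) (hR : RO1 t X Y) :
    -(2108 / 10000) - (23750 / 10000) * t < fO 23 15207 1713 (-3828) (-1498) 1753 w t X Y := by
  have h : NumG.chkF ([eL (-2108) 23750 (eO 23 15207 1713 (-3828) (-1498) 1753)] ++ eRO1) 10000 0 0 0 0 60 200 1000 460 940 200 9000 0 770
      0x102020810000081000404082040008204082020508001030408102 = true := by decide +kernel
  obtain ⟨e, he, hp⟩ := NumG.chkF4 h (by norm_num) (x := w) (y := t) (z := w + X) (w := Y)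
    (by norm_num; linarith) (by norm_num; linarith) (by norm_num; linarith) (by norm_num; linarith)
    (by norm_num; linarith [hR.h0, hR.h1]) (by norm_num; linarith [hR.h0, hR.h1])
    (by norm_num; linarith [hR.h7]) (by norm_num; linarith [hR.h8])
  rw [List.mem_append] at he
  rcases he with he | he
  · simp only [List.mem_singleton] at he
    subst he
    rw [eO_val] at hp
    push_cast at hp
    linarith
  · exact absurd hp (not_lt.2 (hR.neg he))

theorem ri_50_500_1000 {w t σ η : ℝ} (a0 : 500 / 10000 ≤ w) (b0 : w ≤ 1000 / 10000) (a1 : -(570 / 10000) ≤ t)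
    (b1 : t ≤ 40 / 10000) (a2 : 0 / 10000 ≤ σ) (b2 : σ ≤ 1250 / 10000) (a3 : 0 ≤ η) (b3 : η ≤ 1045 / 10000)
    (r1 : η ≤ 1045 / 10000 * (2 + 4 * σ)) :
    -(1886 / 10000) - (2810 / 10000) * t < fRr 16096 2430 (-15534) (-964) (-6827) w t σ η := by
  have h : NumG.chkF [eL (-1886) 2810 (eR 16096 2430 (-15534) (-964) (-6827)),
      .sub (.var 3) (.mul (.q 1045 10000) (.add (.q 2 1) (.mul (.q 4 1) (.var 2))))] 10000 0 570 0 0 60 500 1000 0 610 0 1250 0 1045
      0x4 = true := by decide +kernel
  obtain ⟨e, he, hp⟩ := NumG.chkF4 h (by norm_num) (x := w) (y := t) (z := σ) (w := η)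
    (by norm_num; linarith) (by norm_num; linarith) (by norm_num; linarith) (by norm_num; linarith)
    (by norm_num; linarith) (by norm_num; linarith) (by norm_num; linarith) (by norm_num; linarith)
  simp only [List.mem_cons, List.not_mem_nil, or_false] at he
  rcases he with rfl | rfl
  · rw [eR_val] at hp
    push_cast at hp
    linarith
  · exfalso
    simp only [NumG.E.val, NumI.lkR] at hp
    push_cast at hp
    linarith

end L2

end TL

end Pool.Agent.Work.MP_b30479_gt.G2
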