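import Pool.Agent.Work.MP_b30479_gt.G2.TL2uR
import Pool.Agent.Work.MP_b30479_gt.G2.TL2uT

/-!
# Tails, slot `0` of an interior three: rows WM
-/

set_option linter.unusedVariables false
set_option linter.unusedSimpArgs false
set_option linter.unusedTactic false

namespace Pool.Agent.Work.MP_b30479_gt.G2

open VOL NumU

namespace TL

namespace L2

theorem tk_20_30 {w t X Y : ℝ} (a0 : 2000 / 10000 ≤ w) (b0 : w ≤ 3000 / 10000) (a1 : -(220 / 10000) ≤ t)
    (b1 : t ≤ 220 / 10000) (hR : RTk t X Y) :
    -(1572 / 10000) - (13080 / 10000) * t < fT 18 16096 2468 (-20828) (-1903) 4492 w t X Y := by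
  have h : NumG.chkF ([eL (-1572) 13080 (eT 18 16096 2468 (-20828) (-1903) 4492)] ++ eRTk) 10000 0 220 0 1230 60 2000 3000 0 440 2000 11000 0 1280
      0x1020600002040010300001020208002060000181081010408000040c003000010202080050006102000818000020c20404100040c003000010200081800006042040410200080000a000c20a001010a0808500140c00a000c2040010200061020006102030810004060c1040810002081030006102040804180040420400180040810184021008004042040010104081008100102020810080061020208000840808200020c204080c0840804204020820402180040800203041030008100840608080081010408002030208002081008a001020104280040800204000420a0010500041020208100010400103081000a00280040804204020c5040804203040010300082040610104061020008082040800003081018308101840800182001020308100040800180040820406102030010200081000304102020810003081010408001800408204001018408002030010202080c204000010408002040008204000c2040010200040020400101850800483041020208101820008102 = true := by decide +kernel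
  obtain ⟨e, he, hp⟩ := NumG.chkF4 h (by norm_num) (x := w) (y := t) (z := w + X) (w := Y)
    (by norm_num; linarith) (by norm_num; linarith) (by norm_num; linarith) (by norm_num; linarith)
    (by norm_num; linarith [hR.h0, hR.h1]) (by norm_num; linarith [hR.h0, hR.h1])
    (by norm_num; linarith [hR.h6]) (by norm_num; linarith [hR.h7])
  rw [List.mem_append] at he
  rcases he with he | he
  · simp only [List.mem_singleton] at he
    subst he
    rw [eT_val] at hp
    push_cast at hp
    linarith
  · exact absurd hp (not_lt.2 (hR.neg he))

theorem ri_25_2000_3000 {w t σ η : ℝ} (a0 : 2000 / 10000 ≤ w) (b0 : w ≤ 3000 / 10000) (a1 : -(570 / 10000) ≤ t)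
    (b1 : t ≤ 40 / 10000) (a2 : -(2500 / 10000) ≤ σ) (b2 : σ ≤ 0 / 10000) (a3 : 0 ≤ η) (b3 : η ≤ 1045 / 10000)
    (r1 : η ≤ 1045 / 10000 * (2 + 4 * σ)) :
    -(1886 / 10000) - (2810 / 10000) * t < fRr 16096 2430 (-20828) (-1903) 4492 w t σ η := by
  have h : NumG.chkF [eL (-1886) 2810 (eR 16096 2430 (-20828) (-1903) 4492),
      .sub (.var 3) (.mul (.q 1045 10000) (.add (.q 2 1) (.mul (.q 4 1) (.var 2))))] 10000 0 570 2500 0 60 2000 3000 0 610 0 2500 0 1045
      0x102000810002081000308100040600204001020004102020610200080c00208100040800184080020406100030410200081000300102040010002081000406100820810000081020208040040410200081000008100040410200000800408002020810200001010006102000808204081010008040000810004000c08208102040800104000820004002040810002001020008002040004204000c1040800204001018408000840800002000c102 = true := by decide +kernel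
  obtain ⟨e, he, hp⟩ := NumG.chkF4 h (by norm_num) (x := w) (y := t) (z := σ) (w := η)
    (by norm_num; linarith) (by norm_num; linarith) (by norm_num; linarith) (by norm_num; linarith)
    (by norm_num; linarith) (by norm_num; linarith) (by norm_num; linarith) (by norm_num; linarith)
  simp only [List.mem_cons, List.not_mem_nil, or_false] at he
  rcases he with rfl | rfl
  · rw [eR_val] at hp
    push_cast at hp
    linarith
  · exfalso
    simp only [NumG.E.val, NumI.lkR] at hp
    push_cast at hp
    linarith

theorem o0_50_65_21 {w t X Y : ℝ} (a0 : 5000 / 10000 ≤ w) (b0 : w ≤ 6500 / 10000) (a1 : 210 / 10000 ≤ t)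
    (b1 : t ≤ 920 / 10000) (hR : RO0 t X Y) :
    -(2283 / 10000) - (22250 / 10000) * t < fO 27 13816 1350 (-30650) (-182) 1088 w t X Y := by
  have h : NumG.chkF ([eL (-2283) 22250 (eO 27 13816 1350 (-30650) (-182) 1088)] ++ eRO0) 10000 0 0 0 910 60 5000 6500 210 920 5000 15100 0 1400
      0x4081008f000c20408041840800204023c1830008304083c00f063c003040020408100030610204023c18308102011e0c1800810204020c182000820406101040810004080018308102000810003000800408002040608102081018408001040810002041020008100001210402021020006102000210182080c20408002000e24200061020002101820810001080c10406004081020200060018408001840614109101020010101820020101081000400202031210184020010408000830810004080000108100031020409080420110081800610200081020000001881010003080c08208100030008102 = true := by decide +kernel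
  obtain ⟨e, he, hp⟩ := NumG.chkF4 h (by norm_num) (x := w) (y := t) (z := w + X) (w := Y)
    (by norm_num; linarith) (by norm_num; linarith) (by norm_num; linarith) (by norm_num; linarith)
    (by norm_num; linarith [hR.h0, hR.h1]) (by norm_num; linarith [hR.h0, hR.h1])
    (by norm_num; linarith [hR.h12]) (by norm_num; linarith [hR.h13])
  rw [List.mem_append] at he
  rcases he with he | he
  · simp only [List.mem_singleton] at he
    subst he
    rw [eO_val] at hp
    push_cast at hp
    linarith
  · exact absurd hp (not_lt.2 (hR.neg he))

end L2

end TL

end Pool.Agent.Work.MP_b30479_gt.G2
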