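import Pool.Agent.Work.MP_b30479_gt.G2.TL2uR
import Pool.Agent.Work.MP_b30479_gt.G2.TL2uT

/-!
# Tails, slot `0` of an interior three: rows WO
-/

set_option linter.unusedVariables false
set_option linter.unusedSimpArgs false
set_option linter.unusedTactic false

namespace Pool.Agent.Work.MP_b30479_gt.G2

open VOL NumU

namespace TL

namespace L2

theorem tk_5_10 {w t X Y : ℝ} (a0 : 500 / 10000 ≤ w) (b0 : w ≤ 1000 / 10000) (a1 : -(220 / 10000) ≤ t)
    (b1 : t ≤ 220 / 10000) (hR : RTk t X Y) :
    -(1572 / 10000) - (13080 / 10000) * t < fT 18 16096 2468 (-15534) (-964) (-6827) w t X Y := by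
  have h : NumG.chkF ([eL (-1572) 13080 (eT 18 16096 2468 (-15534) (-964) (-6827))] ++ eRTk) 10000 0 220 0 1230 60 500 1000 0 440 500 9000 0 1280
      0x408101000c103000428184040020400101080c10300040c50308080010810004042820200102040400504040008308083040c10300041800104281840808204040020410102010604204020c004080010108280040800104080850404000830400204080420200203040c00103081000200102040010100141020004001840800201141010006101060c103000c00106000820408042020020203080c5030804201081008200080010828004021010a14105000408004080010a082800404102010804002000c5041400104042820a00080030810184080c203080800208102000008204000820408101040608102 = true := by decide +kernel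
  obtain ⟨e, he, hp⟩ := NumG.chkF4 h (by norm_num) (x := w) (y := t) (z := w + X) (w := Y)
    (by norm_num; linarith) (by norm_num; linarith) (by norm_num; linarith) (by norm_num; linarith)
    (by norm_num; linarith [hR.h0, hR.h1]) (by norm_num; linarith [hR.h0, hR.h1])
    (by norm_num; linarith [hR.h6]) (by norm_num; linarith [hR.h7])
  rw [List.mem_append] at he
  rcases he with he | he
  · simp only [List.mem_singleton] at he
    subst he
    rw [eT_val] at hp
    push_cast at hp
    linarith
  · exact absurd hp (not_lt.2 (hR.neg he))

theorem ri_0_785_1000 {w t σ η : ℝ} (a0 : 785 / 10000 ≤ w) (b0 : w ≤ 1000 / 10000) (a1 : -(570 / 10000) ≤ t)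
    (b1 : t ≤ 40 / 10000) (a2 : -(5000 / 10000) ≤ σ) (b2 : σ ≤ -(2500 / 10000)) (a3 : 0 ≤ η) (b3 : η ≤ 1045 / 10000)
    (r1 : η ≤ 1045 / 10000 * (2 + 4 * σ)) :
    -(1886 / 10000) - (2810 / 10000) * t < fRr 16096 2430 2603 (-4944) 15169 w t σ η := by
  have h : NumG.chkF [eL (-1886) 2810 (eR 16096 2430 2603 (-4944) 15169),
      .sub (.var 3) (.mul (.q 1045 10000) (.add (.q 2 1) (.mul (.q 4 1) (.var 2))))] 10000 0 570 5000 0 60 785 1000 0 610 0 2500 0 1045
      0x408002040810104020818208102040800201060818408102010810082060c10208141040808204041000408002000410202020c20408102040000104020c201080018408002040800202000c1020810101061420308100020808102 = true := by decide +kernel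
  obtain ⟨e, he, hp⟩ := NumG.chkF4 h (by norm_num) (x := w) (y := t) (z := σ) (w := η)
    (by norm_num; linarith) (by norm_num; linarith) (by norm_num; linarith) (by norm_num; linarith)
    (by norm_num; linarith) (by norm_num; linarith) (by norm_num; linarith) (by norm_num; linarith)
  simp only [List.mem_cons, List.not_mem_nil, or_false] at he
  rcases he with rfl | rfl
  · rw [eR_val] at hp
    push_cast at hp
    linarith
  · exfalso
    simp only [NumG.E.val, NumI.lkR] at hp
    push_cast at hp
    linarith

theorem tw_20_30 {w t X Y : ℝ} (a0 : 2000 / 10000 ≤ w) (b0 : w ≤ 3000 / 10000) (a1 : -(50 / 10000) ≤ t)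
    (b1 : t ≤ 570 / 10000) (hR : RTw t X Y) :
    -(1620 / 10000) - (18750 / 10000) * t < fT 25 14568 1554 (-20828) (-1903) 4492 w t X Y := by
  have h : NumG.chkF ([eL (-1620) 18750 (eT 25 14568 1554 (-20828) (-1903) 4492)] ++ eRTw) 10000 0 50 0 985 60 2000 3000 0 620 2000 9000 0 1945
      0x20204021010308100040800184080c1030c202040800083081000408100800810200000c08304002040800084082000408001810010204000c2040810003020018208102000210200001020400001840810181081000406001020810004080008408000040800203081000004102000e082040800100081000308100000810004000c38408002010a08184080c3840800182080420704102000600004120c282081000408001800608102 = true := by decide +kernel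
  obtain ⟨e, he, hp⟩ := NumG.chkF4 h (by norm_num) (x := w) (y := t) (z := w + X) (w := Y)
    (by norm_num; linarith) (by norm_num; linarith) (by norm_num; linarith) (by norm_num; linarith)
    (by norm_num; linarith [hR.h0, hR.h1]) (by norm_num; linarith [hR.h0, hR.h1])
    (by norm_num; linarith [hR.h6]) (by norm_num; linarith [hR.h7])
  rw [List.mem_append] at he
  rcases he with he | he
  · simp only [List.mem_singleton] at he
    subst he
    rw [eT_val] at hp
    push_cast at hp
    linarith
  · exact absurd hp (not_lt.2 (hR.neg he))

theorem o1_50_65_46 {w t X Y : ℝ} (a0 : 5000 / 10000 ≤ w) (b0 : w ≤ 6500 / 10000) (a1 : 460 / 10000 ≤ t)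
    (b1 : t ≤ 700 / 10000) (hR : RO1 t X Y) :
    -(2394 / 10000) - (21880 / 10000) * t < fO 27 13818 1357 (-30650) (-182) 1088 w t X Y := by
  have h : NumG.chkF ([eL (-2394) 21880 (eO 27 13818 1357 (-30650) (-182) 1088)] ++ eRO1) 10000 0 0 0 0 60 5000 6500 460 700 5000 14500 0 770
      0x28204001010408000030810104000820408002020010202040820400101040810004000810408004080800182080c40808004020608204000c204101018406104040610184000800402082030800108102020000201030820200040c208080c20004100080820103101000804104040010002001018004104040008200021018010204080820200041008000201031010184002040808001840610080041008300082040800104000c2030400404080028206204080800184080040406084020810003081000100201030810200041020400080030008102 = true := by decide +kernel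
  obtain ⟨e, he, hp⟩ := NumG.chkF4 h (by norm_num) (x := w) (y := t) (z := w + X) (w := Y)
    (by norm_num; linarith) (by norm_num; linarith) (by norm_num; linarith) (by norm_num; linarith)
    (by norm_num; linarith [hR.h0, hR.h1]) (by norm_num; linarith [hR.h0, hR.h1])
    (by norm_num; linarith [hR.h7]) (by norm_num; linarith [hR.h8])
  rw [List.mem_append] at he
  rcases he with he | he
  · simp only [List.mem_singleton] at he
    subst he
    rw [eO_val] at hp
    push_cast at hp
    linarith
  · exact absurd hp (not_lt.2 (hR.neg he))

theorem ri_50_3000_4000 {w t σ η : ℝ} (a0 : 3000 / 10000 ≤ w) (b0 : w ≤ 4000 / 10000) (a1 : -(570 / 10000) ≤ t)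
    (b1 : t ≤ 40 / 10000) (a2 : 0 / 10000 ≤ σ) (b2 : σ ≤ 1250 / 10000) (a3 : 0 ≤ η) (b3 : η ≤ 1045 / 10000)
    (r1 : η ≤ 1045 / 10000 * (2 + 4 * σ)) :
    -(1886 / 10000) - (2810 / 10000) * t < fRr 16096 2430 (-36880) (-819) 2660 w t σ η := by
  have h : NumG.chkF [eL (-1886) 2810 (eR 16096 2430 (-36880) (-819) 2660),
      .sub (.var 3) (.mul (.q 1045 10000) (.add (.q 2 1) (.mul (.q 4 1) (.var 2))))] 10000 0 570 0 0 60 3000 4000 0 610 0 1250 0 1045
      0x102040800100081000404100000810004000820408000040800200040c204080010308100040800004080020006102040000204000c10008102000010200061020208100040400204000c002 = true := by decide +kernel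
  obtain ⟨e, he, hp⟩ := NumG.chkF4 h (by norm_num) (x := w) (y := t) (z := σ) (w := η)
    (by norm_num; linarith) (by norm_num; linarith) (by norm_num; linarith) (by norm_num; linarith)
    (by norm_num; linarith) (by norm_num; linarith) (by norm_num; linarith) (by norm_num; linarith)
  simp only [List.mem_cons, List.not_mem_nil, or_false] at he
  rcases he with rfl | rfl
  · rw [eR_val] at hp
    push_cast at hp
    linarith
  · exfalso
    simp only [NumG.E.val, NumI.lkR] at hp
    push_cast at hp
    linarith

theorem o1_30_40_46 {w t X Y : ℝ} (a0 : 3000 / 10000 ≤ w) (b0 : w ≤ 4000 / 10000) (a1 : 460 / 10000 ≤ t)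
    (b1 : t ≤ 700 / 10000) (hR : RO1 t X Y) :
    -(2394 / 10000) - (21880 / 10000) * t < fO 27 13818 1357 (-16810) (-830) 1856 w t X Y := by
  have h : NumG.chkF ([eL (-2394) 21880 (eO 27 13818 1357 (-16810) (-830) 1856)] ++ eRO1) 10000 0 0 0 0 60 3000 4000 460 700 3000 12000 0 770
      0x10200080820404102040010100040820400101040408204080020004104040610004060820010104020800184060820010102840008184080c20010101820008102 = true := by decide +kernel
  obtain ⟨e, he, hp⟩ := NumG.chkF4 h (by norm_num) (x := w) (y := t) (z := w + X) (w := Y)
    (by norm_num; linarith) (by norm_num; linarith) (by norm_num; linarith) (by norm_num; linarith)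
    (by norm_num; linarith [hR.h0, hR.h1]) (by norm_num; linarith [hR.h0, hR.h1])
    (by norm_num; linarith [hR.h7]) (by norm_num; linarith [hR.h8])
  rw [List.mem_append] at he
  rcases he with he | he
  · simp only [List.mem_singleton] at he
    subst he
    rw [eO_val] at hp
    push_cast at hp
    linarith
  · exact absurd hp (not_lt.2 (hR.neg he))

end L2

end TL

end Pool.Agent.Work.MP_b30479_gt.G2
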