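import Pool.Agent.Work.MP_b30479_gt.G2.TL2uR
import Pool.Agent.Work.MP_b30479_gt.G2.TL2uT

/-!
# Tails, slot `0` of an interior three: rows WP
-/

set_option linter.unusedVariables false
set_option linter.unusedSimpArgs false
set_option linter.unusedTactic false

namespace Pool.Agent.Work.MP_b30479_gt.G2

open VOL NumU

namespace TL

namespace L2

theorem tw_30_40 {w t X Y : ℝ} (a0 : 3000 / 10000 ≤ w) (b0 : w ≤ 4000 / 10000) (a1 : -(50 / 10000) ≤ t)
    (b1 : t ≤ 570 / 10000) (hR : RTw t X Y) :
    -(1620 / 10000) - (18750 / 10000) * t < fT 25 14568 1554 (-36880) (-819) 2660 w t X Y := by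
  have h : NumG.chkF ([eL (-1620) 18750 (eT 25 14568 1554 (-36880) (-819) 2660)] ++ eRTw) 10000 0 50 0 985 60 3000 4000 0 620 3000 10000 0 1945
      0x20204040c204040c308080c204060c1000810108080c2040208004080020400081820810200041020008100020010200061020404042040808080081000304082040010200021020400040040800184080020308100040200204000c1040800382081020004102000200204000c2040800201041018008100030e102000a0818708100030e082040010003001020008100000608102 = true := by decide +kernel
  obtain ⟨e, he, hp⟩ := NumG.chkF4 h (by norm_num) (x := w) (y := t) (z := w + X) (w := Y)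
    (by norm_num; linarith) (by norm_num; linarith) (by norm_num; linarith) (by norm_num; linarith)
    (by norm_num; linarith [hR.h0, hR.h1]) (by norm_num; linarith [hR.h0, hR.h1])
    (by norm_num; linarith [hR.h6]) (by norm_num; linarith [hR.h7])
  rw [List.mem_append] at he
  rcases he with he | he
  · simp only [List.mem_singleton] at he
    subst he
    rw [eT_val] at hp
    push_cast at hp
    linarith
  · exact absurd hp (not_lt.2 (hR.neg he))

theorem o1_55_65_70 {w t X Y : ℝ} (a0 : 5500 / 10000 ≤ w) (b0 : w ≤ 6500 / 10000) (a1 : 700 / 10000 ≤ t)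
    (b1 : t ≤ 940 / 10000) (hR : RO1 t X Y) :
    -(2630 / 10000) - (18500 / 10000) * t < fO 27 13831 1332 (-31368) (-156) 1065 w t X Y ∨
    -(2432 / 10000) - (20920 / 10000) * t < fO 27 13831 1332 (-31368) (-156) 1065 w t X Y := by
  have h : NumG.chkF ([eL (-2630) 18500 (eO 27 13831 1332 (-31368) (-156) 1065), eL (-2432) 20920 (eO 27 13831 1332 (-31368) (-156) 1065)] ++ eRO1) 10000 0 0 0 0 60 5500 6500 700 940 5500 14500 0 770
      0x1020008082040800102081010208101040808105080040a080408506144040610088080c20108000020008203080c48812101841410082080000910242001208084141008206001011410085001000a141400a04141800810001040c4881228484002410106241011428505000418a04102001410184020848a0804182020c00200142800a004890a0018a0a282830400204000428300081840800182122450908282010400482022828a0a0410008041891428201020c1000624105120848208100030a2428a0804100080c20104101891214009040c204000c1000608102 = true := by decide +kernel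
  obtain ⟨e, he, hp⟩ := NumG.chkF4 h (by norm_num) (x := w) (y := t) (z := w + X) (w := Y)
    (by norm_num; linarith) (by norm_num; linarith) (by norm_num; linarith) (by norm_num; linarith)
    (by norm_num; linarith [hR.h0, hR.h1]) (by norm_num; linarith [hR.h0, hR.h1])
    (by norm_num; linarith [hR.h7]) (by norm_num; linarith [hR.h8])
  rw [List.mem_append] at he
  rcases he with he | he
  · simp only [List.mem_cons, List.not_mem_nil, or_false] at he
    rcases he with rfl | rfl
    · rw [eO_val] at hp
      push_cast at hp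
      left
      linarith
    · rw [eO_val] at hp
      push_cast at hp
      right
      linarith
  · exact absurd hp (not_lt.2 (hR.neg he))

theorem ri_0_3000_4000 {w t σ η : ℝ} (a0 : 3000 / 10000 ≤ w) (b0 : w ≤ 4000 / 10000) (a1 : -(570 / 10000) ≤ t)
    (b1 : t ≤ 40 / 10000) (a2 : -(5000 / 10000) ≤ σ) (b2 : σ ≤ -(2500 / 10000)) (a3 : 0 ≤ η) (b3 : η ≤ 1045 / 10000)
    (r1 : η ≤ 1045 / 10000 * (2 + 4 * σ)) :
    -(1886 / 10000) - (2810 / 10000) * t < fRr 16096 2430 (-36880) (-819) 2660 w t σ η := by
  have h : NumG.chkF [eL (-1886) 2810 (eR 16096 2430 (-36880) (-819) 2660),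
      .sub (.var 3) (.mul (.q 1045 10000) (.add (.q 2 1) (.mul (.q 4 1) (.var 2))))] 10000 0 570 5000 0 60 3000 4000 0 610 0 2500 0 1045
      0x4080c20406082040610204040c10008100040800105080c1040800204001020006081820a102820610200081000206142040010200060c102 = true := by decide +kernel
  obtain ⟨e, he, hp⟩ := NumG.chkF4 h (by norm_num) (x := w) (y := t) (z := σ) (w := η)
    (by norm_num; linarith) (by norm_num; linarith) (by norm_num; linarith) (by norm_num; linarith)
    (by norm_num; linarith) (by norm_num; linarith) (by norm_num; linarith) (by norm_num; linarith)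
  simp only [List.mem_cons, List.not_mem_nil, or_false] at he
  rcases he with rfl | rfl
  · rw [eR_val] at hp
    push_cast at hp
    linarith
  · exfalso
    simp only [NumG.E.val, NumI.lkR] at hp
    push_cast at hp
    linarith

theorem o1_20_30_46 {w t X Y : ℝ} (a0 : 2000 / 10000 ≤ w) (b0 : w ≤ 3000 / 10000) (a1 : 460 / 10000 ≤ t)
    (b1 : t ≤ 940 / 10000) (hR : RO1 t X Y) :
    -(2108 / 10000) - (23750 / 10000) * t < fO 23 15207 1713 (-7608) (-1453) 2911 w t X Y := by
  have h : NumG.chkF ([eL (-2108) 23750 (eO 23 15207 1713 (-7608) (-1453) 2911)] ++ eRO1) 10000 0 0 0 0 60 2000 3000 460 940 2000 11000 0 770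
      0x102001410204000818208101040810002001020004082040010200040820400102000800104101018208002030800408082010306201041010200061018402082000620203080c00208004081010184001000508141000410083082020304002880a100030a080020620200080c2001020205080010308001820008102 = true := by decide +kernel
  obtain ⟨e, he, hp⟩ := NumG.chkF4 h (by norm_num) (x := w) (y := t) (z := w + X) (w := Y)
    (by norm_num; linarith) (by norm_num; linarith) (by norm_num; linarith) (by norm_num; linarith)
    (by norm_num; linarith [hR.h0, hR.h1]) (by norm_num; linarith [hR.h0, hR.h1])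
    (by norm_num; linarith [hR.h7]) (by norm_num; linarith [hR.h8])
  rw [List.mem_append] at he
  rcases he with he | he
  · simp only [List.mem_singleton] at he
    subst he
    rw [eO_val] at hp
    push_cast at hp
    linarith
  · exact absurd hp (not_lt.2 (hR.neg he))

theorem ri_25_4000_5000 {w t σ η : ℝ} (a0 : 4000 / 10000 ≤ w) (b0 : w ≤ 5000 / 10000) (a1 : -(570 / 10000) ≤ t)
    (b1 : t ≤ 40 / 10000) (a2 : -(2500 / 10000) ≤ σ) (b2 : σ ≤ 0 / 10000) (a3 : 0 ≤ η) (b3 : η ≤ 1045 / 10000)
    (r1 : η ≤ 1045 / 10000 * (2 + 4 * σ)) :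
    -(1886 / 10000) - (2810 / 10000) * t < fRr 16096 2430 (-54403) 62 1552 w t σ η := by
  have h : NumG.chkF [eL (-1886) 2810 (eR 16096 2430 (-54403) 62 1552),
      .sub (.var 3) (.mul (.q 1045 10000) (.add (.q 2 1) (.mul (.q 4 1) (.var 2))))] 10000 0 570 2500 0 60 4000 5000 0 610 0 2500 0 1045
      0x1020208002030810203000820404100040810100061020208101040804000080c10008102030808004080c102 = true := by decide +kernel
  obtain ⟨e, he, hp⟩ := NumG.chkF4 h (by norm_num) (x := w) (y := t) (z := σ) (w := η)
    (by norm_num; linarith) (by norm_num; linarith) (by norm_num; linarith) (by norm_num; linarith)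
    (by norm_num; linarith) (by norm_num; linarith) (by norm_num; linarith) (by norm_num; linarith)
  simp only [List.mem_cons, List.not_mem_nil, or_false] at he
  rcases he with rfl | rfl
  · rw [eR_val] at hp
    push_cast at hp
    linarith
  · exfalso
    simp only [NumG.E.val, NumI.lkR] at hp
    push_cast at hp
    linarith

theorem ri_0_5000_6500 {w t σ η : ℝ} (a0 : 5000 / 10000 ≤ w) (b0 : w ≤ 6500 / 10000) (a1 : -(570 / 10000) ≤ t)
    (b1 : t ≤ 40 / 10000) (a2 : -(5000 / 10000) ≤ σ) (b2 : σ ≤ -(2500 / 10000)) (a3 : 0 ≤ η) (b3 : η ≤ 1045 / 10000)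
    (r1 : η ≤ 1045 / 10000 * (2 + 4 * σ)) :
    -(1886 / 10000) - (2810 / 10000) * t < fRr 16096 2430 (-75876) 912 708 w t σ η := by
  have h : NumG.chkF [eL (-1886) 2810 (eR 16096 2430 (-75876) 912 708),
      .sub (.var 3) (.mul (.q 1045 10000) (.add (.q 2 1) (.mul (.q 4 1) (.var 2))))] 10000 0 570 5000 0 60 5000 6500 0 610 0 2500 0 1045
      0x10204000820404101820810084080c1040800204000820304002840a08184080020400081850810202000c102 = true := by decide +kernel
  obtain ⟨e, he, hp⟩ := NumG.chkF4 h (by norm_num) (x := w) (y := t) (z := σ) (w := η)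
    (by norm_num; linarith) (by norm_num; linarith) (by norm_num; linarith) (by norm_num; linarith)
    (by norm_num; linarith) (by norm_num; linarith) (by norm_num; linarith) (by norm_num; linarith)
  simp only [List.mem_cons, List.not_mem_nil, or_false] at he
  rcases he with rfl | rfl
  · rw [eR_val] at hp
    push_cast at hp
    linarith
  · exfalso
    simp only [NumG.E.val, NumI.lkR] at hp
    push_cast at hp
    linarith

theorem ri_0_700_785 {w t σ η : ℝ} (a0 : 700 / 10000 ≤ w) (b0 : w ≤ 785 / 10000) (a1 : -(570 / 10000) ≤ t)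
    (b1 : t ≤ 40 / 10000) (a2 : -(5000 / 10000) ≤ σ) (b2 : σ ≤ -(2500 / 10000)) (a3 : 0 ≤ η) (b3 : η ≤ 1045 / 10000)
    (r1 : η ≤ 1045 / 10000 * (2 + 4 * σ)) :
    -(1886 / 10000) - (2810 / 10000) * t < fRr 16096 2430 (-7466) (-3509) 13228 w t σ η := by
  have h : NumG.chkF [eL (-1886) 2810 (eR 16096 2430 (-7466) (-3509) 13228),
      .sub (.var 3) (.mul (.q 1045 10000) (.add (.q 2 1) (.mul (.q 4 1) (.var 2))))] 10000 0 570 5000 0 60 700 785 0 610 0 2500 0 1045
      0x102040608204081008402102010804004000818208102020810200040c201061420406101030808102 = true := by decide +kernel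
  obtain ⟨e, he, hp⟩ := NumG.chkF4 h (by norm_num) (x := w) (y := t) (z := σ) (w := η)
    (by norm_num; linarith) (by norm_num; linarith) (by norm_num; linarith) (by norm_num; linarith)
    (by norm_num; linarith) (by norm_num; linarith) (by norm_num; linarith) (by norm_num; linarith)
  simp only [List.mem_cons, List.not_mem_nil, or_false] at he
  rcases he with rfl | rfl
  · rw [eR_val] at hp
    push_cast at hp
    linarith
  · exfalso
    simp only [NumG.E.val, NumI.lkR] at hp
    push_cast at hp
    linarith

theorem ri_50_4000_5000 {w t σ η : ℝ} (a0 : 4000 / 10000 ≤ w) (b0 : w ≤ 5000 / 10000) (a1 : -(570 / 10000) ≤ t)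
    (b1 : t ≤ 40 / 10000) (a2 : 0 / 10000 ≤ σ) (b2 : σ ≤ 1250 / 10000) (a3 : 0 ≤ η) (b3 : η ≤ 1045 / 10000)
    (r1 : η ≤ 1045 / 10000 * (2 + 4 * σ)) :
    -(1886 / 10000) - (2810 / 10000) * t < fRr 16096 2430 (-54403) 62 1552 w t σ η := by
  have h : NumG.chkF [eL (-1886) 2810 (eR 16096 2430 (-54403) 62 1552),
      .sub (.var 3) (.mul (.q 1045 10000) (.add (.q 2 1) (.mul (.q 4 1) (.var 2))))] 10000 0 570 0 0 60 4000 5000 0 610 0 1250 0 1045
      0x40810182081010400102000608204081000004102040800100041018408082000810202000c100 = true := by decide +kernel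
  obtain ⟨e, he, hp⟩ := NumG.chkF4 h (by norm_num) (x := w) (y := t) (z := σ) (w := η)
    (by norm_num; linarith) (by norm_num; linarith) (by norm_num; linarith) (by norm_num; linarith)
    (by norm_num; linarith) (by norm_num; linarith) (by norm_num; linarith) (by norm_num; linarith)
  simp only [List.mem_cons, List.not_mem_nil, or_false] at he
  rcases he with rfl | rfl
  · rw [eR_val] at hp
    push_cast at hp
    linarith
  · exfalso
    simp only [NumG.E.val, NumI.lkR] at hp
    push_cast at hp
    linarith

theorem ri_50_2000_3000 {w t σ η : ℝ} (a0 : 2000 / 10000 ≤ w) (b0 : w ≤ 3000 / 10000) (a1 : -(570 / 10000) ≤ t)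
    (b1 : t ≤ 40 / 10000) (a2 : 0 / 10000 ≤ σ) (b2 : σ ≤ 1250 / 10000) (a3 : 0 ≤ η) (b3 : η ≤ 1045 / 10000)
    (r1 : η ≤ 1045 / 10000 * (2 + 4 * σ)) :
    -(1886 / 10000) - (2810 / 10000) * t < fRr 16096 2430 (-20828) (-1903) 4492 w t σ η := by
  have h : NumG.chkF [eL (-1886) 2810 (eR 16096 2430 (-20828) (-1903) 4492),
      .sub (.var 3) (.mul (.q 1045 10000) (.add (.q 2 1) (.mul (.q 4 1) (.var 2))))] 10000 0 570 0 0 60 2000 3000 0 610 0 1250 0 1045
      0x4080020308100040608204040c20404101800810004001020004102000610200080c002 = true := by decide +kernel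
  obtain ⟨e, he, hp⟩ := NumG.chkF4 h (by norm_num) (x := w) (y := t) (z := σ) (w := η)
    (by norm_num; linarith) (by norm_num; linarith) (by norm_num; linarith) (by norm_num; linarith)
    (by norm_num; linarith) (by norm_num; linarith) (by norm_num; linarith) (by norm_num; linarith)
  simp only [List.mem_cons, List.not_mem_nil, or_false] at he
  rcases he with rfl | rfl
  · rw [eR_val] at hp
    push_cast at hp
    linarith
  · exfalso
    simp only [NumG.E.val, NumI.lkR] at hp
    push_cast at hp
    linarith

theorem o2_2_10_87 {w t X Y : ℝ} (a0 : 200 / 10000 ≤ w) (b0 : w ≤ 1000 / 10000) (a1 : 870 / 10000 ≤ t)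
    (b1 : t ≤ 1145 / 10000) (hR : RO2 t X Y) :
    -(1899 / 10000) - (24730 / 10000) * t < fO 23 15253 1657 (-3828) (-1498) 1753 w t X Y := by
  have h : NumG.chkF ([eL (-1899) 24730 (eO 23 15253 1657 (-3828) (-1498) 1753)] ++ eRO2) 10000 0 0 0 450 60 200 1000 870 1145 1000 8000 0 450
      0x4080020208082040800102 = true := by decide +kernel
  obtain ⟨e, he, hp⟩ := NumG.chkF4 h (by norm_num) (x := w) (y := t) (z := w + X) (w := Y)
    (by norm_num; linarith) (by norm_num; linarith) (by norm_num; linarith) (by norm_num; linarith)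
    (by norm_num; linarith [hR.h0, hR.h1, hR.h7]) (by norm_num; linarith [hR.h0, hR.h1])
    (by norm_num; linarith [hR.h8]) (by norm_num; linarith [hR.h9])
  rw [List.mem_append] at he
  rcases he with he | he
  · simp only [List.mem_singleton] at he
    subst he
    rw [eO_val] at hp
    push_cast at hp
    linarith
  · exact absurd hp (not_lt.2 (hR.neg he))

end L2

end TL

end Pool.Agent.Work.MP_b30479_gt.G2
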