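import Pool.Agent.Work.MP_b30479_gt.G2.TL2uR
import Pool.Agent.Work.MP_b30479_gt.G2.TL2uT

/-!
# Tails, slot `0` of an interior three: rows WR
-/

set_option linter.unusedVariables false
set_option linter.unusedSimpArgs false
set_option linter.unusedTactic false

namespace Pool.Agent.Work.MP_b30479_gt.G2

open VOL NumU

namespace TL

namespace L2

theorem o2_20_30_87 {w t X Y : ℝ} (a0 : 2000 / 10000 ≤ w) (b0 : w ≤ 3000 / 10000) (a1 : 870 / 10000 ≤ t)
    (b1 : t ≤ 1145 / 10000) (hR : RO2 t X Y) :
    -(1899 / 10000) - (24730 / 10000) * t < fO 23 15253 1657 (-7608) (-1453) 2911 w t X Y := by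
  have h : NumG.chkF ([eL (-1899) 24730 (eO 23 15253 1657 (-7608) (-1453) 2911)] ++ eRO2) 10000 0 0 0 450 60 2000 3000 870 1145 2800 10000 0 450
      0x102000c101000810002081000208100040800200081000c041000c04102000008102 = true := by decide +kernel
  obtain ⟨e, he, hp⟩ := NumG.chkF4 h (by norm_num) (x := w) (y := t) (z := w + X) (w := Y)
    (by norm_num; linarith) (by norm_num; linarith) (by norm_num; linarith) (by norm_num; linarith)
    (by norm_num; linarith [hR.h0, hR.h1, hR.h7]) (by norm_num; linarith [hR.h0, hR.h1])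
    (by norm_num; linarith [hR.h8]) (by norm_num; linarith [hR.h9])
  rw [List.mem_append] at he
  rcases he with he | he
  · simp only [List.mem_singleton] at he
    subst he
    rw [eO_val] at hp
    push_cast at hp
    linarith
  · exact absurd hp (not_lt.2 (hR.neg he))

theorem o2_50_65_87 {w t X Y : ℝ} (a0 : 5000 / 10000 ≤ w) (b0 : w ≤ 6500 / 10000) (a1 : 870 / 10000 ≤ t)
    (b1 : t ≤ 1145 / 10000) (hR : RO2 t X Y) :
    -(2084 / 10000) - (23630 / 10000) * t < fO 27 13851 1307 (-30650) (-182) 1088 w t X Y := by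
  have h : NumG.chkF ([eL (-2084) 23630 (eO 27 13851 1307 (-30650) (-182) 1088)] ++ eRO2) 10000 0 0 0 450 60 5000 6500 870 1145 5800 13500 0 450
      0x1020400082000810202000820404082040410200181000408002000008102 = true := by decide +kernel
  obtain ⟨e, he, hp⟩ := NumG.chkF4 h (by norm_num) (x := w) (y := t) (z := w + X) (w := Y)
    (by norm_num; linarith) (by norm_num; linarith) (by norm_num; linarith) (by norm_num; linarith)
    (by norm_num; linarith [hR.h0, hR.h1, hR.h7]) (by norm_num; linarith [hR.h0, hR.h1])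
    (by norm_num; linarith [hR.h8]) (by norm_num; linarith [hR.h9])
  rw [List.mem_append] at he
  rcases he with he | he
  · simp only [List.mem_singleton] at he
    subst he
    rw [eO_val] at hp
    push_cast at hp
    linarith
  · exact absurd hp (not_lt.2 (hR.neg he))

theorem tw_5_10 {w t X Y : ℝ} (a0 : 500 / 10000 ≤ w) (b0 : w ≤ 1000 / 10000) (a1 : -(50 / 10000) ≤ t)
    (b1 : t ≤ 570 / 10000) (hR : RTw t X Y) :
    -(1620 / 10000) - (18750 / 10000) * t < fT 25 14568 1554 (-15534) (-964) (-6827) w t X Y := by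
  have h : NumG.chkF ([eL (-1620) 18750 (eT 25 14568 1554 (-15534) (-964) (-6827))] ++ eRTw) 10000 0 50 0 985 60 500 1000 0 620 500 7000 0 1945
      0x102030808202081020406102030608102 = true := by decide +kernel
  obtain ⟨e, he, hp⟩ := NumG.chkF4 h (by norm_num) (x := w) (y := t) (z := w + X) (w := Y)
    (by norm_num; linarith) (by norm_num; linarith) (by norm_num; linarith) (by norm_num; linarith)
    (by norm_num; linarith [hR.h0, hR.h1]) (by norm_num; linarith [hR.h0, hR.h1])
    (by norm_num; linarith [hR.h6]) (by norm_num; linarith [hR.h7])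
  rw [List.mem_append] at he
  rcases he with he | he
  · simp only [List.mem_singleton] at he
    subst he
    rw [eT_val] at hp
    push_cast at hp
    linarith
  · exact absurd hp (not_lt.2 (hR.neg he))

theorem tw_2_5 {w t X Y : ℝ} (a0 : 200 / 10000 ≤ w) (b0 : w ≤ 500 / 10000) (a1 : -(50 / 10000) ≤ t)
    (b1 : t ≤ 570 / 10000) (hR : RTw t X Y) :
    -(1620 / 10000) - (18750 / 10000) * t < fT 25 14568 1554 (-3288) (-5122) 29151 w t X Y := by
  have h : NumG.chkF ([eL (-1620) 18750 (eT 25 14568 1554 (-3288) (-5122) 29151)] ++ eRTw) 10000 0 50 0 985 60 200 500 0 620 200 6500 0 1945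
      0x408002020810204061c20308241830408102 = true := by decide +kernel
  obtain ⟨e, he, hp⟩ := NumG.chkF4 h (by norm_num) (x := w) (y := t) (z := w + X) (w := Y)
    (by norm_num; linarith) (by norm_num; linarith) (by norm_num; linarith) (by norm_num; linarith)
    (by norm_num; linarith [hR.h0, hR.h1]) (by norm_num; linarith [hR.h0, hR.h1])
    (by norm_num; linarith [hR.h6]) (by norm_num; linarith [hR.h7])
  rw [List.mem_append] at he
  rcases he with he | he
  · simp only [List.mem_singleton] at he
    subst he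
    rw [eT_val] at hp
    push_cast at hp
    linarith
  · exact absurd hp (not_lt.2 (hR.neg he))

theorem ri_50_1000_2000 {w t σ η : ℝ} (a0 : 1000 / 10000 ≤ w) (b0 : w ≤ 2000 / 10000) (a1 : -(570 / 10000) ≤ t)
    (b1 : t ≤ 40 / 10000) (a2 : 0 / 10000 ≤ σ) (b2 : σ ≤ 1250 / 10000) (a3 : 0 ≤ η) (b3 : η ≤ 1045 / 10000)
    (r1 : η ≤ 1045 / 10000 * (2 + 4 * σ)) :
    -(1886 / 10000) - (2810 / 10000) * t < fRr 16096 2430 (-5515) (-3486) 8588 w t σ η := by
  have h : NumG.chkF [eL (-1886) 2810 (eR 16096 2430 (-5515) (-3486) 8588),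
      .sub (.var 3) (.mul (.q 1045 10000) (.add (.q 2 1) (.mul (.q 4 1) (.var 2))))] 10000 0 570 0 0 60 1000 2000 0 610 0 1250 0 1045
      0x40808200 = true := by decide +kernel
  obtain ⟨e, he, hp⟩ := NumG.chkF4 h (by norm_num) (x := w) (y := t) (z := σ) (w := η)
    (by norm_num; linarith) (by norm_num; linarith) (by norm_num; linarith) (by norm_num; linarith)
    (by norm_num; linarith) (by norm_num; linarith) (by norm_num; linarith) (by norm_num; linarith)
  simp only [List.mem_cons, List.not_mem_nil, or_false] at he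
  rcases he with rfl | rfl
  · rw [eR_val] at hp
    push_cast at hp
    linarith
  · exfalso
    simp only [NumG.E.val, NumI.lkR] at hp
    push_cast at hp
    linarith

theorem ri_25_0_200 {w t σ η : ℝ} (a0 : 0 / 10000 ≤ w) (b0 : w ≤ 200 / 10000) (a1 : -(570 / 10000) ≤ t)
    (b1 : t ≤ 40 / 10000) (a2 : -(2500 / 10000) ≤ σ) (b2 : σ ≤ 0 / 10000) (a3 : 0 ≤ η) (b3 : η ≤ 1045 / 10000)
    (r1 : η ≤ 1045 / 10000 * (2 + 4 * σ)) :
    -(1886 / 10000) - (2810 / 10000) * t < fRr 16096 2430 (-12308) 0 0 w t σ η := by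
  have h : NumG.chkF [eL (-1886) 2810 (eR 16096 2430 (-12308) 0 0),
      .sub (.var 3) (.mul (.q 1045 10000) (.add (.q 2 1) (.mul (.q 4 1) (.var 2))))] 10000 0 570 2500 0 60 0 200 0 610 0 2500 0 1045
      0x10202 = true := by decide +kernel
  obtain ⟨e, he, hp⟩ := NumG.chkF4 h (by norm_num) (x := w) (y := t) (z := σ) (w := η)
    (by norm_num; linarith) (by norm_num; linarith) (by norm_num; linarith) (by norm_num; linarith)
    (by norm_num; linarith) (by norm_num; linarith) (by norm_num; linarith) (by norm_num; linarith)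
  simp only [List.mem_cons, List.not_mem_nil, or_false] at he
  rcases he with rfl | rfl
  · rw [eR_val] at hp
    push_cast at hp
    linarith
  · exfalso
    simp only [NumG.E.val, NumI.lkR] at hp
    push_cast at hp
    linarith

theorem ri_25_200_500 {w t σ η : ℝ} (a0 : 200 / 10000 ≤ w) (b0 : w ≤ 500 / 10000) (a1 : -(570 / 10000) ≤ t)
    (b1 : t ≤ 40 / 10000) (a2 : -(2500 / 10000) ≤ σ) (b2 : σ ≤ 0 / 10000) (a3 : 0 ≤ η) (b3 : η ≤ 1045 / 10000)
    (r1 : η ≤ 1045 / 10000 * (2 + 4 * σ)) :
    -(1886 / 10000) - (2810 / 10000) * t < fRr 16096 2430 (-3288) (-5122) 29151 w t σ η := by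
  have h : NumG.chkF [eL (-1886) 2810 (eR 16096 2430 (-3288) (-5122) 29151),
      .sub (.var 3) (.mul (.q 1045 10000) (.add (.q 2 1) (.mul (.q 4 1) (.var 2))))] 10000 0 570 2500 0 60 200 500 0 610 0 2500 0 1045
      0x10202 = true := by decide +kernel
  obtain ⟨e, he, hp⟩ := NumG.chkF4 h (by norm_num) (x := w) (y := t) (z := σ) (w := η)
    (by norm_num; linarith) (by norm_num; linarith) (by norm_num; linarith) (by norm_num; linarith)
    (by norm_num; linarith) (by norm_num; linarith) (by norm_num; linarith) (by norm_num; linarith)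
  simp only [List.mem_cons, List.not_mem_nil, or_false] at he
  rcases he with rfl | rfl
  · rw [eR_val] at hp
    push_cast at hp
    linarith
  · exfalso
    simp only [NumG.E.val, NumI.lkR] at hp
    push_cast at hp
    linarith

end L2

end TL

end Pool.Agent.Work.MP_b30479_gt.G2
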