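import Pool.Agent.Work.MP_b30479_gt.G2.TL2uG
import Pool.Agent.Work.MP_b30479_gt.G2.TL2uWA
import Pool.Agent.Work.MP_b30479_gt.G2.TL2uWB
import Pool.Agent.Work.MP_b30479_gt.G2.TL2uWC
import Pool.Agent.Work.MP_b30479_gt.G2.TL2uWD
import Pool.Agent.Work.MP_b30479_gt.G2.TL2uWE
import Pool.Agent.Work.MP_b30479_gt.G2.TL2uWF
import Pool.Agent.Work.MP_b30479_gt.G2.TL2uWG
import Pool.Agent.Work.MP_b30479_gt.G2.TL2uWH
import Pool.Agent.Work.MP_b30479_gt.G2.TL2uWI
import Pool.Agent.Work.MP_b30479_gt.G2.TL2uWJ
import Pool.Agent.Work.MP_b30479_gt.G2.TL2uWK
import Pool.Agent.Work.MP_b30479_gt.G2.TL2uWL
import Pool.Agent.Work.MP_b30479_gt.G2.TL2uWM
import Pool.Agent.Work.MP_b30479_gt.G2.TL2uWN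
import Pool.Agent.Work.MP_b30479_gt.G2.TL2uWO
import Pool.Agent.Work.MP_b30479_gt.G2.TL2uWP
import Pool.Agent.Work.MP_b30479_gt.G2.TL2uWQ
import Pool.Agent.Work.MP_b30479_gt.G2.TL2uWR

/-!
# Tails, slot `0` of an interior three whose inner variable is in the tail: assembly of the rows
-/

set_option linter.unusedVariables false

namespace Pool.Agent.Work.MP_b30479_gt.G2

open VOL NumU

namespace TL

namespace L2

/-- class one -/
noncomputable def PO (c u l t X Y : ℝ) : ℝ :=
  Real.pi * ((c - u) * Y + t * (X - 1)) + uu (c + X) (t + Y) - uu c t - uu (u + X) Y +
    2 * uu u 0 + uu (l - u) 0

/-- class two, or three in the slot `2` -/
noncomputable def PT (c u l t X Y : ℝ) : ℝ :=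
  Real.pi * (t * (X - (c + 1 / 2)) + (c - u) * Y) + uu (c + X) (t + Y) - uu (u + X) Y -
    2 * uu c t + 3 * uu u 0 + uu (l - u) 0

/-- ring -/
noncomputable def PR (u l t σ η : ℝ) : ℝ :=
  uu (68 / 100 + σ) (t + η) + uu (68 / 100 - σ) (t - η) - uu (u + 1 / 2 + σ) η -
    uu (u + 1 / 2 - σ) η - 2 * uu (18 / 100) t + 3 * uu u 0 + uu (l - u) 0

theorem one0_23_210 {u l t X Y : ℝ} (h8 : 8 / 10 ≤ l) (h1 : l ≤ 1) (hu : 0 / 10000 ≤ u)
    (hu1 : u ≤ 3000 / 10000) (t0 : 210 / 10000 ≤ t) (t1 : t ≤ 920 / 10000) (hR : RO0 t X Y) :
    -(2490 / 10000) - (19570 / 10000) * t < PO (23 / 100) u l t X Y := by
  have hT := h23_210_920 t0 t1
  unfold PO
  rcases le_total u (200 / 10000) with hh0 | hh0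
  · have h := o0_0_2_21 (w := u) (by first | with_reducible assumption | linarith) (by first | with_reducible assumption | linarith) (by first | with_reducible assumption | linarith) (by first | with_reducible assumption | linarith) hR
    have g := G2_0_200 h8 h1 (u := u) (by first | with_reducible assumption | linarith) (by first | with_reducible assumption | linarith)
    unfold fO at h
    push_cast at h
    linarith only [h, g, hT]
  rcases le_total u (1000 / 10000) with hh1 | hh1
  · have h := o0_2_10_21 (w := u) (by first | with_reducible assumption | linarith) (by first | with_reducible assumption | linarith) (by first | with_reducible assumption | linarith) (by first | with_reducible assumption | linarith) hR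
    have g := G2_200_1000 h8 h1 (u := u) (by first | with_reducible assumption | linarith) (by first | with_reducible assumption | linarith)
    unfold fO at h
    push_cast at h
    linarith only [h, g, hT]
  rcases le_total u (1200 / 10000) with hh2 | hh2
  · have h := o0_10_12_21 (w := u) (by first | with_reducible assumption | linarith) (by first | with_reducible assumption | linarith) (by first | with_reducible assumption | linarith) (by first | with_reducible assumption | linarith) hR
    have g := G2_1000_1200 h8 h1 (u := u) (by first | with_reducible assumption | linarith) (by first | with_reducible assumption | linarith)
    unfold fO at h
    push_cast at h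
    linarith only [h, g, hT]
  rcases le_total u (1400 / 10000) with hh3 | hh3
  · have h := o0_12_14_21 (w := u) (by first | with_reducible assumption | linarith) (by first | with_reducible assumption | linarith) (by first | with_reducible assumption | linarith) (by first | with_reducible assumption | linarith) hR
    have g := G2_1200_1400 h8 h1 (u := u) (by first | with_reducible assumption | linarith) (by first | with_reducible assumption | linarith)
    unfold fO at h
    push_cast at h
    linarith only [h, g, hT]
  rcases le_total u (1600 / 10000) with hh4 | hh4
  · have h := o0_14_16_21 (w := u) (by first | with_reducible assumption | linarith) (by first | with_reducible assumption | linarith) (by first | with_reducible assumption | linarith) (by first | with_reducible assumption | linarith) hR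
    have g := G2_1400_1600 h8 h1 (u := u) (by first | with_reducible assumption | linarith) (by first | with_reducible assumption | linarith)
    unfold fO at h
    push_cast at h
    linarith only [h, g, hT]
  rcases le_total u (2000 / 10000) with hh5 | hh5
  · have h := o0_16_20_21 (w := u) (by first | with_reducible assumption | linarith) (by first | with_reducible assumption | linarith) (by first | with_reducible assumption | linarith) (by first | with_reducible assumption | linarith) hR
    have g := G2_1600_2000 h8 h1 (u := u) (by first | with_reducible assumption | linarith) (by first | with_reducible assumption | linarith)
    unfold fO at h
    push_cast at h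
    linarith only [h, g, hT]
  have h := o0_20_30_21 (w := u) (by first | with_reducible assumption | linarith) (by first | with_reducible assumption | linarith) (by first | with_reducible assumption | linarith) (by first | with_reducible assumption | linarith) hR
  have g := G2_2000_3000 h8 h1 (u := u) (by first | with_reducible assumption | linarith) (by first | with_reducible assumption | linarith)
  unfold fO at h
  push_cast at h
  linarith only [h, g, hT]

theorem one1_23_460 {u l t X Y : ℝ} (h8 : 8 / 10 ≤ l) (h1 : l ≤ 1) (hu : 0 / 10000 ≤ u)
    (hu1 : u ≤ 3000 / 10000) (t0 : 460 / 10000 ≤ t) (t1 : t ≤ 940 / 10000) (hR : RO1 t X Y) :
    -(2108 / 10000) - (23750 / 10000) * t < PO (23 / 100) u l t X Y := by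
  have hT := h23_460_940 t0 t1
  unfold PO
  rcases le_total u (200 / 10000) with hh0 | hh0
  · have h := o1_0_2_46 (w := u) (by first | with_reducible assumption | linarith) (by first | with_reducible assumption | linarith) (by first | with_reducible assumption | linarith) (by first | with_reducible assumption | linarith) hR
    have g := G2_0_200 h8 h1 (u := u) (by first | with_reducible assumption | linarith) (by first | with_reducible assumption | linarith)
    unfold fO at h
    push_cast at h
    linarith only [h, g, hT]
  rcases le_total u (1000 / 10000) with hh1 | hh1
  · have h := o1_2_10_46 (w := u) (by first | with_reducible assumption | linarith) (by first | with_reducible assumption | linarith) (by first | with_reducible assumption | linarith) (by first | with_reducible assumption | linarith) hR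
    have g := G2_200_1000 h8 h1 (u := u) (by first | with_reducible assumption | linarith) (by first | with_reducible assumption | linarith)
    unfold fO at h
    push_cast at h
    linarith only [h, g, hT]
  rcases le_total u (2000 / 10000) with hh2 | hh2
  · have h := o1_10_20_46 (w := u) (by first | with_reducible assumption | linarith) (by first | with_reducible assumption | linarith) (by first | with_reducible assumption | linarith) (by first | with_reducible assumption | linarith) hR
    have g := G2_1000_2000 h8 h1 (u := u) (by first | with_reducible assumption | linarith) (by first | with_reducible assumption | linarith)
    unfold fO at h
    push_cast at h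
    linarith only [h, g, hT]
  have h := o1_20_30_46 (w := u) (by first | with_reducible assumption | linarith) (by first | with_reducible assumption | linarith) (by first | with_reducible assumption | linarith) (by first | with_reducible assumption | linarith) hR
  have g := G2_2000_3000 h8 h1 (u := u) (by first | with_reducible assumption | linarith) (by first | with_reducible assumption | linarith)
  unfold fO at h
  push_cast at h
  linarith only [h, g, hT]

theorem one2_23_870 {u l t X Y : ℝ} (h8 : 8 / 10 ≤ l) (h1 : l ≤ 1) (hu : 0 / 10000 ≤ u)
    (hu1 : u ≤ 3000 / 10000) (t0 : 870 / 10000 ≤ t) (t1 : t ≤ 1145 / 10000) (hR : RO2 t X Y) :
    -(1899 / 10000) - (24730 / 10000) * t < PO (23 / 100) u l t X Y := by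
  have hT := h23_870_1145 t0 t1
  unfold PO
  rcases le_total u (200 / 10000) with hh0 | hh0
  · have h := o2_0_2_87 (w := u) (by first | with_reducible assumption | linarith) (by first | with_reducible assumption | linarith) (by first | with_reducible assumption | linarith) (by first | with_reducible assumption | linarith) hR
    have g := G2_0_200 h8 h1 (u := u) (by first | with_reducible assumption | linarith) (by first | with_reducible assumption | linarith)
    unfold fO at h
    push_cast at h
    linarith only [h, g, hT]
  rcases le_total u (1000 / 10000) with hh1 | hh1
  · have h := o2_2_10_87 (w := u) (by first | with_reducible assumption | linarith) (by first | with_reducible assumption | linarith) (by first | with_reducible assumption | linarith) (by first | with_reducible assumption | linarith) hR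
    have g := G2_200_1000 h8 h1 (u := u) (by first | with_reducible assumption | linarith) (by first | with_reducible assumption | linarith)
    unfold fO at h
    push_cast at h
    linarith only [h, g, hT]
  rcases le_total u (2000 / 10000) with hh2 | hh2
  · have h := o2_10_20_87 (w := u) (by first | with_reducible assumption | linarith) (by first | with_reducible assumption | linarith) (by first | with_reducible assumption | linarith) (by first | with_reducible assumption | linarith) hR
    have g := G2_1000_2000 h8 h1 (u := u) (by first | with_reducible assumption | linarith) (by first | with_reducible assumption | linarith)
    unfold fO at h
    push_cast at h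
    linarith only [h, g, hT]
  have h := o2_20_30_87 (w := u) (by first | with_reducible assumption | linarith) (by first | with_reducible assumption | linarith) (by first | with_reducible assumption | linarith) (by first | with_reducible assumption | linarith) hR
  have g := G2_2000_3000 h8 h1 (u := u) (by first | with_reducible assumption | linarith) (by first | with_reducible assumption | linarith)
  unfold fO at h
  push_cast at h
  linarith only [h, g, hT]

theorem one0_27_210 {u l t X Y : ℝ} (h8 : 8 / 10 ≤ l) (h1 : l ≤ 1) (hu : 3000 / 10000 ≤ u)
    (hu1 : u ≤ 6500 / 10000) (t0 : 210 / 10000 ≤ t) (t1 : t ≤ 920 / 10000) (hR : RO0 t X Y) :
    -(2283 / 10000) - (22250 / 10000) * t < PO (27 / 100) u l t X Y := by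
  have hT := h27_210_920 t0 t1
  unfold PO
  rcases le_total u (4000 / 10000) with hh0 | hh0
  · have h := o0_30_40_21 (w := u) (by first | with_reducible assumption | linarith) (by first | with_reducible assumption | linarith) (by first | with_reducible assumption | linarith) (by first | with_reducible assumption | linarith) hR
    have g := G2_3000_4000 h8 h1 (u := u) (by first | with_reducible assumption | linarith) (by first | with_reducible assumption | linarith)
    unfold fO at h
    push_cast at h
    linarith only [h, g, hT]
  rcases le_total u (5000 / 10000) with hh1 | hh1
  · have h := o0_40_50_21 (w := u) (by first | with_reducible assumption | linarith) (by first | with_reducible assumption | linarith) (by first | with_reducible assumption | linarith) (by first | with_reducible assumption | linarith) hR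
    have g := G2_4000_5000 h8 h1 (u := u) (by first | with_reducible assumption | linarith) (by first | with_reducible assumption | linarith)
    unfold fO at h
    push_cast at h
    linarith only [h, g, hT]
  have h := o0_50_65_21 (w := u) (by first | with_reducible assumption | linarith) (by first | with_reducible assumption | linarith) (by first | with_reducible assumption | linarith) (by first | with_reducible assumption | linarith) hR
  have g := G2_5000_6500 h8 h1 (u := u) (by first | with_reducible assumption | linarith) (by first | with_reducible assumption | linarith)
  unfold fO at h
  push_cast at h
  linarith only [h, g, hT]

theorem one1_27_460 {u l t X Y : ℝ} (h8 : 8 / 10 ≤ l) (h1 : l ≤ 1) (hu : 3000 / 10000 ≤ u)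
    (hu1 : u ≤ 6500 / 10000) (t0 : 460 / 10000 ≤ t) (t1 : t ≤ 700 / 10000) (hR : RO1 t X Y) :
    -(2394 / 10000) - (21880 / 10000) * t < PO (27 / 100) u l t X Y := by
  have hT := h27_460_700 t0 t1
  unfold PO
  rcases le_total u (4000 / 10000) with hh0 | hh0
  · have h := o1_30_40_46 (w := u) (by first | with_reducible assumption | linarith) (by first | with_reducible assumption | linarith) (by first | with_reducible assumption | linarith) (by first | with_reducible assumption | linarith) hR
    have g := G2_3000_4000 h8 h1 (u := u) (by first | with_reducible assumption | linarith) (by first | with_reducible assumption | linarith)
    unfold fO at h
    push_cast at h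
    linarith only [h, g, hT]
  rcases le_total u (5000 / 10000) with hh1 | hh1
  · have h := o1_40_50_46 (w := u) (by first | with_reducible assumption | linarith) (by first | with_reducible assumption | linarith) (by first | with_reducible assumption | linarith) (by first | with_reducible assumption | linarith) hR
    have g := G2_4000_5000 h8 h1 (u := u) (by first | with_reducible assumption | linarith) (by first | with_reducible assumption | linarith)
    unfold fO at h
    push_cast at h
    linarith only [h, g, hT]
  have h := o1_50_65_46 (w := u) (by first | with_reducible assumption | linarith) (by first | with_reducible assumption | linarith) (by first | with_reducible assumption | linarith) (by first | with_reducible assumption | linarith) hR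
  have g := G2_5000_6500 h8 h1 (u := u) (by first | with_reducible assumption | linarith) (by first | with_reducible assumption | linarith)
  unfold fO at h
  push_cast at h
  linarith only [h, g, hT]

theorem one1_27_700 {u l t X Y : ℝ} (h8 : 8 / 10 ≤ l) (h1 : l ≤ 1) (hu : 3000 / 10000 ≤ u)
    (hu1 : u ≤ 6500 / 10000) (t0 : 700 / 10000 ≤ t) (t1 : t ≤ 940 / 10000) (hR : RO1 t X Y) :
    -(2630 / 10000) - (18500 / 10000) * t < PO (27 / 100) u l t X Y ∨ -(2432 / 10000) - (20920 / 10000) * t < PO (27 / 100) u l t X Y := by
  have hT := h27_700_940 t0 t1
  unfold PO
  rcases le_total u (4000 / 10000) with hh0 | hh0
  · have h := o1_30_40_70 (w := u) (by first | with_reducible assumption | linarith) (by first | with_reducible assumption | linarith) (by first | with_reducible assumption | linarith) (by first | with_reducible assumption | linarith) hR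
    have g := G2_3000_4000 h8 h1 (u := u) (by first | with_reducible assumption | linarith) (by first | with_reducible assumption | linarith)
    unfold fO at h
    push_cast at h
    rcases h with h | h
    · left; linarith only [h, g, hT]
    · right; linarith only [h, g, hT]
  rcases le_total u (4200 / 10000) with hh1 | hh1
  · have h := o1_40_42_70 (w := u) (by first | with_reducible assumption | linarith) (by first | with_reducible assumption | linarith) (by first | with_reducible assumption | linarith) (by first | with_reducible assumption | linarith) hR
    have g := G2_4000_4200 h8 h1 (u := u) (by first | with_reducible assumption | linarith) (by first | with_reducible assumption | linarith)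
    unfold fO at h
    push_cast at h
    rcases h with h | h
    · left; linarith only [h, g, hT]
    · right; linarith only [h, g, hT]
  rcases le_total u (4500 / 10000) with hh2 | hh2
  · have h := o1_42_45_70 (w := u) (by first | with_reducible assumption | linarith) (by first | with_reducible assumption | linarith) (by first | with_reducible assumption | linarith) (by first | with_reducible assumption | linarith) hR
    have g := G2_4200_4500 h8 h1 (u := u) (by first | with_reducible assumption | linarith) (by first | with_reducible assumption | linarith)
    unfold fO at h
    push_cast at h
    rcases h with h | h
    · left; linarith only [h, g, hT]
    · right; linarith only [h, g, hT]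
  rcases le_total u (4700 / 10000) with hh3 | hh3
  · have h := o1_45_47_70 (w := u) (by first | with_reducible assumption | linarith) (by first | with_reducible assumption | linarith) (by first | with_reducible assumption | linarith) (by first | with_reducible assumption | linarith) hR
    have g := G2_4500_4700 h8 h1 (u := u) (by first | with_reducible assumption | linarith) (by first | with_reducible assumption | linarith)
    unfold fO at h
    push_cast at h
    rcases h with h | h
    · left; linarith only [h, g, hT]
    · right; linarith only [h, g, hT]
  rcases le_total u (5000 / 10000) with hh4 | hh4
  · have h := o1_47_50_70 (w := u) (by first | with_reducible assumption | linarith) (by first | with_reducible assumption | linarith) (by first | with_reducible assumption | linarith) (by first | with_reducible assumption | linarith) hR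
    have g := G2_4700_5000 h8 h1 (u := u) (by first | with_reducible assumption | linarith) (by first | with_reducible assumption | linarith)
    unfold fO at h
    push_cast at h
    rcases h with h | h
    · left; linarith only [h, g, hT]
    · right; linarith only [h, g, hT]
  rcases le_total u (5200 / 10000) with hh5 | hh5
  · have h := o1_50_52_70 (w := u) (by first | with_reducible assumption | linarith) (by first | with_reducible assumption | linarith) (by first | with_reducible assumption | linarith) (by first | with_reducible assumption | linarith) hR
    have g := G2_5000_5200 h8 h1 (u := u) (by first | with_reducible assumption | linarith) (by first | with_reducible assumption | linarith)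
    unfold fO at h
    push_cast at h
    rcases h with h | h
    · left; linarith only [h, g, hT]
    · right; linarith only [h, g, hT]
  rcases le_total u (5500 / 10000) with hh6 | hh6
  · have h := o1_52_55_70 (w := u) (by first | with_reducible assumption | linarith) (by first | with_reducible assumption | linarith) (by first | with_reducible assumption | linarith) (by first | with_reducible assumption | linarith) hR
    have g := G2_5200_5500 h8 h1 (u := u) (by first | with_reducible assumption | linarith) (by first | with_reducible assumption | linarith)
    unfold fO at h
    push_cast at h
    rcases h with h | h
    · left; linarith only [h, g, hT]
    · right; linarith only [h, g, hT]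
  have h := o1_55_65_70 (w := u) (by first | with_reducible assumption | linarith) (by first | with_reducible assumption | linarith) (by first | with_reducible assumption | linarith) (by first | with_reducible assumption | linarith) hR
  have g := G2_5500_6500 h8 h1 (u := u) (by first | with_reducible assumption | linarith) (by first | with_reducible assumption | linarith)
  unfold fO at h
  push_cast at h
  rcases h with h | h
  · left; linarith only [h, g, hT]
  · right; linarith only [h, g, hT]

theorem one2_27_870 {u l t X Y : ℝ} (h8 : 8 / 10 ≤ l) (h1 : l ≤ 1) (hu : 3000 / 10000 ≤ u)
    (hu1 : u ≤ 6500 / 10000) (t0 : 870 / 10000 ≤ t) (t1 : t ≤ 1145 / 10000) (hR : RO2 t X Y) :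
    -(2084 / 10000) - (23630 / 10000) * t < PO (27 / 100) u l t X Y := by
  have hT := h27_870_1145 t0 t1
  unfold PO
  rcases le_total u (4000 / 10000) with hh0 | hh0
  · have h := o2_30_40_87 (w := u) (by first | with_reducible assumption | linarith) (by first | with_reducible assumption | linarith) (by first | with_reducible assumption | linarith) (by first | with_reducible assumption | linarith) hR
    have g := G2_3000_4000 h8 h1 (u := u) (by first | with_reducible assumption | linarith) (by first | with_reducible assumption | linarith)
    unfold fO at h
    push_cast at h
    linarith only [h, g, hT]
  rcases le_total u (5000 / 10000) with hh1 | hh1
  · have h := o2_40_50_87 (w := u) (by first | with_reducible assumption | linarith) (by first | with_reducible assumption | linarith) (by first | with_reducible assumption | linarith) (by first | with_reducible assumption | linarith) hR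
    have g := G2_4000_5000 h8 h1 (u := u) (by first | with_reducible assumption | linarith) (by first | with_reducible assumption | linarith)
    unfold fO at h
    push_cast at h
    linarith only [h, g, hT]
  have h := o2_50_65_87 (w := u) (by first | with_reducible assumption | linarith) (by first | with_reducible assumption | linarith) (by first | with_reducible assumption | linarith) (by first | with_reducible assumption | linarith) hR
  have g := G2_5000_6500 h8 h1 (u := u) (by first | with_reducible assumption | linarith) (by first | with_reducible assumption | linarith)
  unfold fO at h
  push_cast at h
  linarith only [h, g, hT]

theorem two_D {u l t X Y : ℝ} (h8 : 8 / 10 ≤ l) (h1 : l ≤ 1) (hu : 0 / 10000 ≤ u)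
    (hu1 : u ≤ 6500 / 10000) (t0 : -(50 / 10000) ≤ t) (t1 : t ≤ 570 / 10000) (hR : RTw t X Y) :
    -(1620 / 10000) - (18750 / 10000) * t < PT (25 / 100) u l t X Y := by
  have hT := h25_50_570 t0 t1
  unfold PT
  rcases le_total u (200 / 10000) with hh0 | hh0
  · have h := tw_0_2 (w := u) (by first | with_reducible assumption | linarith) (by first | with_reducible assumption | linarith) (by first | with_reducible assumption | linarith) (by first | with_reducible assumption | linarith) hR
    have g := G3_0_200 h8 h1 (u := u) (by first | with_reducible assumption | linarith) (by first | with_reducible assumption | linarith)
    unfold fT at h
    push_cast at h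
    linarith only [h, g, hT]
  rcases le_total u (500 / 10000) with hh1 | hh1
  · have h := tw_2_5 (w := u) (by first | with_reducible assumption | linarith) (by first | with_reducible assumption | linarith) (by first | with_reducible assumption | linarith) (by first | with_reducible assumption | linarith) hR
    have g := G3_200_500 h8 h1 (u := u) (by first | with_reducible assumption | linarith) (by first | with_reducible assumption | linarith)
    unfold fT at h
    push_cast at h
    linarith only [h, g, hT]
  rcases le_total u (1000 / 10000) with hh2 | hh2
  · have h := tw_5_10 (w := u) (by first | with_reducible assumption | linarith) (by first | with_reducible assumption | linarith) (by first | with_reducible assumption | linarith) (by first | with_reducible assumption | linarith) hR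
    have g := G3_500_1000 h8 h1 (u := u) (by first | with_reducible assumption | linarith) (by first | with_reducible assumption | linarith)
    unfold fT at h
    push_cast at h
    linarith only [h, g, hT]
  rcases le_total u (2000 / 10000) with hh3 | hh3
  · have h := tw_10_20 (w := u) (by first | with_reducible assumption | linarith) (by first | with_reducible assumption | linarith) (by first | with_reducible assumption | linarith) (by first | with_reducible assumption | linarith) hR
    have g := G3_1000_2000 h8 h1 (u := u) (by first | with_reducible assumption | linarith) (by first | with_reducible assumption | linarith)
    unfold fT at h
    push_cast at h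
    linarith only [h, g, hT]
  rcases le_total u (3000 / 10000) with hh4 | hh4
  · have h := tw_20_30 (w := u) (by first | with_reducible assumption | linarith) (by first | with_reducible assumption | linarith) (by first | with_reducible assumption | linarith) (by first | with_reducible assumption | linarith) hR
    have g := G3_2000_3000 h8 h1 (u := u) (by first | with_reducible assumption | linarith) (by first | with_reducible assumption | linarith)
    unfold fT at h
    push_cast at h
    linarith only [h, g, hT]
  rcases le_total u (4000 / 10000) with hh5 | hh5
  · have h := tw_30_40 (w := u) (by first | with_reducible assumption | linarith) (by first | with_reducible assumption | linarith) (by first | with_reducible assumption | linarith) (by first | with_reducible assumption | linarith) hR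
    have g := G3_3000_4000 h8 h1 (u := u) (by first | with_reducible assumption | linarith) (by first | with_reducible assumption | linarith)
    unfold fT at h
    push_cast at h
    linarith only [h, g, hT]
  rcases le_total u (5000 / 10000) with hh6 | hh6
  · have h := tw_40_50 (w := u) (by first | with_reducible assumption | linarith) (by first | with_reducible assumption | linarith) (by first | with_reducible assumption | linarith) (by first | with_reducible assumption | linarith) hR
    have g := G3_4000_5000 h8 h1 (u := u) (by first | with_reducible assumption | linarith) (by first | with_reducible assumption | linarith)
    unfold fT at h
    push_cast at h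
    linarith only [h, g, hT]
  have h := tw_50_65 (w := u) (by first | with_reducible assumption | linarith) (by first | with_reducible assumption | linarith) (by first | with_reducible assumption | linarith) (by first | with_reducible assumption | linarith) hR
  have g := G3_5000_6500 h8 h1 (u := u) (by first | with_reducible assumption | linarith) (by first | with_reducible assumption | linarith)
  unfold fT at h
  push_cast at h
  linarith only [h, g, hT]

theorem two_F {u l t X Y : ℝ} (h8 : 8 / 10 ≤ l) (h1 : l ≤ 1) (hu : 2700 / 10000 ≤ u)
    (hu1 : u ≤ 6500 / 10000) (t0 : -(50 / 10000) ≤ t) (t1 : t ≤ 570 / 10000) (hR : RTf t X Y) :
    -(1620 / 10000) - (18750 / 10000) * t < PT (25 / 100) u l t X Y := by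
  have hT := h25_50_570 t0 t1
  unfold PT
  rcases le_total u (4000 / 10000) with hh0 | hh0
  · have h := tf_27_40 (w := u) (by first | with_reducible assumption | linarith) (by first | with_reducible assumption | linarith) (by first | with_reducible assumption | linarith) (by first | with_reducible assumption | linarith) hR
    have g := G3_2700_4000 h8 h1 (u := u) (by first | with_reducible assumption | linarith) (by first | with_reducible assumption | linarith)
    unfold fT at h
    push_cast at h
    linarith only [h, g, hT]
  rcases le_total u (5000 / 10000) with hh1 | hh1
  · have h := tf_40_50 (w := u) (by first | with_reducible assumption | linarith) (by first | with_reducible assumption | linarith) (by first | with_reducible assumption | linarith) (by first | with_reducible assumption | linarith) hR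
    have g := G3_4000_5000 h8 h1 (u := u) (by first | with_reducible assumption | linarith) (by first | with_reducible assumption | linarith)
    unfold fT at h
    push_cast at h
    linarith only [h, g, hT]
  have h := tf_50_65 (w := u) (by first | with_reducible assumption | linarith) (by first | with_reducible assumption | linarith) (by first | with_reducible assumption | linarith) (by first | with_reducible assumption | linarith) hR
  have g := G3_5000_6500 h8 h1 (u := u) (by first | with_reducible assumption | linarith) (by first | with_reducible assumption | linarith)
  unfold fT at h
  push_cast at h
  linarith only [h, g, hT]

theorem three_K {u l t X Y : ℝ} (h8 : 8 / 10 ≤ l) (h1 : l ≤ 1) (hu : 0 / 10000 ≤ u)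
    (hu1 : u ≤ 6500 / 10000) (t0 : -(220 / 10000) ≤ t) (t1 : t ≤ 220 / 10000) (hR : RTk t X Y) :
    -(1572 / 10000) - (13080 / 10000) * t < PT (18 / 100) u l t X Y := by
  have hT := h18_220_220 t0 t1
  unfold PT
  rcases le_total u (200 / 10000) with hh0 | hh0
  · have h := tk_0_2 (w := u) (by first | with_reducible assumption | linarith) (by first | with_reducible assumption | linarith) (by first | with_reducible assumption | linarith) (by first | with_reducible assumption | linarith) hR
    have g := G3_0_200 h8 h1 (u := u) (by first | with_reducible assumption | linarith) (by first | with_reducible assumption | linarith)
    unfold fT at h
    push_cast at h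
    linarith only [h, g, hT]
  rcases le_total u (500 / 10000) with hh1 | hh1
  · have h := tk_2_5 (w := u) (by first | with_reducible assumption | linarith) (by first | with_reducible assumption | linarith) (by first | with_reducible assumption | linarith) (by first | with_reducible assumption | linarith) hR
    have g := G3_200_500 h8 h1 (u := u) (by first | with_reducible assumption | linarith) (by first | with_reducible assumption | linarith)
    unfold fT at h
    push_cast at h
    linarith only [h, g, hT]
  rcases le_total u (1000 / 10000) with hh2 | hh2
  · have h := tk_5_10 (w := u) (by first | with_reducible assumption | linarith) (by first | with_reducible assumption | linarith) (by first | with_reducible assumption | linarith) (by first | with_reducible assumption | linarith) hR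
    have g := G3_500_1000 h8 h1 (u := u) (by first | with_reducible assumption | linarith) (by first | with_reducible assumption | linarith)
    unfold fT at h
    push_cast at h
    linarith only [h, g, hT]
  rcases le_total u (2000 / 10000) with hh3 | hh3
  · have h := tk_10_20 (w := u) (by first | with_reducible assumption | linarith) (by first | with_reducible assumption | linarith) (by first | with_reducible assumption | linarith) (by first | with_reducible assumption | linarith) hR
    have g := G3_1000_2000 h8 h1 (u := u) (by first | with_reducible assumption | linarith) (by first | with_reducible assumption | linarith)
    unfold fT at h
    push_cast at h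
    linarith only [h, g, hT]
  rcases le_total u (3000 / 10000) with hh4 | hh4
  · have h := tk_20_30 (w := u) (by first | with_reducible assumption | linarith) (by first | with_reducible assumption | linarith) (by first | with_reducible assumption | linarith) (by first | with_reducible assumption | linarith) hR
    have g := G3_2000_3000 h8 h1 (u := u) (by first | with_reducible assumption | linarith) (by first | with_reducible assumption | linarith)
    unfold fT at h
    push_cast at h
    linarith only [h, g, hT]
  rcases le_total u (4000 / 10000) with hh5 | hh5
  · have h := tk_30_40 (w := u) (by first | with_reducible assumption | linarith) (by first | with_reducible assumption | linarith) (by first | with_reducible assumption | linarith) (by first | with_reducible assumption | linarith) hR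
    have g := G3_3000_4000 h8 h1 (u := u) (by first | with_reducible assumption | linarith) (by first | with_reducible assumption | linarith)
    unfold fT at h
    push_cast at h
    linarith only [h, g, hT]
  rcases le_total u (5000 / 10000) with hh6 | hh6
  · have h := tk_40_50 (w := u) (by first | with_reducible assumption | linarith) (by first | with_reducible assumption | linarith) (by first | with_reducible assumption | linarith) (by first | with_reducible assumption | linarith) hR
    have g := G3_4000_5000 h8 h1 (u := u) (by first | with_reducible assumption | linarith) (by first | with_reducible assumption | linarith)
    unfold fT at h
    push_cast at h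
    linarith only [h, g, hT]
  have h := tk_50_65 (w := u) (by first | with_reducible assumption | linarith) (by first | with_reducible assumption | linarith) (by first | with_reducible assumption | linarith) (by first | with_reducible assumption | linarith) hR
  have g := G3_5000_6500 h8 h1 (u := u) (by first | with_reducible assumption | linarith) (by first | with_reducible assumption | linarith)
  unfold fT at h
  push_cast at h
  linarith only [h, g, hT]

theorem ring_0 {u l t σ η : ℝ} (h8 : 8 / 10 ≤ l) (h1 : l ≤ 1) (hu : 0 ≤ u)
    (hu1 : u ≤ 65 / 100) (t0 : -(570 / 10000) ≤ t) (t1 : t ≤ 40 / 10000) (s0 : -(5000 / 10000) ≤ σ)
    (s1 : σ ≤ -(2500 / 10000)) (e0 : 0 ≤ η) (e1 : η ≤ 1045 / 10000)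
    (e2 : η ≤ 1045 / 10000 * (2 + 4 * σ)) :
    -(1886 / 10000) - (2810 / 10000) * t < PR u l t σ η := by
  have hT := h18_570_40 t0 t1
  unfold PR
  rcases le_total u (200 / 10000) with hh0 | hh0
  · have h := ri_0_0_200 (w := u) (t := t) (σ := σ) (by first | with_reducible assumption | linarith) (by first | with_reducible assumption | linarith) (by first | with_reducible assumption | linarith) (by first | with_reducible assumption | linarith)
      (by first | with_reducible assumption | linarith) (by first | with_reducible assumption | linarith) e0 e1 e2
    have g := G3_0_200 h8 h1 (u := u) (by first | with_reducible assumption | linarith) (by first | with_reducible assumption | linarith)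
    unfold fRr at h
    push_cast at h
    linarith only [h, g, hT]
  rcases le_total u (500 / 10000) with hh1 | hh1
  · have h := ri_0_200_500 (w := u) (t := t) (σ := σ) (by first | with_reducible assumption | linarith) (by first | with_reducible assumption | linarith) (by first | with_reducible assumption | linarith) (by first | with_reducible assumption | linarith)
      (by first | with_reducible assumption | linarith) (by first | with_reducible assumption | linarith) e0 e1 e2
    have g := G3_200_500 h8 h1 (u := u) (by first | with_reducible assumption | linarith) (by first | with_reducible assumption | linarith)
    unfold fRr at h
    push_cast at h
    linarith only [h, g, hT]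
  rcases le_total u (600 / 10000) with hh2 | hh2
  · have h := ri_0_500_600 (w := u) (t := t) (σ := σ) (by first | with_reducible assumption | linarith) (by first | with_reducible assumption | linarith) (by first | with_reducible assumption | linarith) (by first | with_reducible assumption | linarith)
      (by first | with_reducible assumption | linarith) (by first | with_reducible assumption | linarith) e0 e1 e2
    have g := G3_500_600 h8 h1 (u := u) (by first | with_reducible assumption | linarith) (by first | with_reducible assumption | linarith)
    unfold fRr at h
    push_cast at h
    linarith only [h, g, hT]
  rcases le_total u (700 / 10000) with hh3 | hh3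
  · have h := ri_0_600_700 (w := u) (t := t) (σ := σ) (by first | with_reducible assumption | linarith) (by first | with_reducible assumption | linarith) (by first | with_reducible assumption | linarith) (by first | with_reducible assumption | linarith)
      (by first | with_reducible assumption | linarith) (by first | with_reducible assumption | linarith) e0 e1 e2
    have g := G3_600_700 h8 h1 (u := u) (by first | with_reducible assumption | linarith) (by first | with_reducible assumption | linarith)
    unfold fRr at h
    push_cast at h
    linarith only [h, g, hT]
  rcases le_total u (785 / 10000) with hh4 | hh4
  · have h := ri_0_700_785 (w := u) (t := t) (σ := σ) (by first | with_reducible assumption | linarith) (by first | with_reducible assumption | linarith) (by first | with_reducible assumption | linarith) (by first | with_reducible assumption | linarith)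
      (by first | with_reducible assumption | linarith) (by first | with_reducible assumption | linarith) e0 e1 e2
    have g := G3_700_785 h8 h1 (u := u) (by first | with_reducible assumption | linarith) (by first | with_reducible assumption | linarith)
    unfold fRr at h
    push_cast at h
    linarith only [h, g, hT]
  rcases le_total u (1000 / 10000) with hh5 | hh5
  · have h := ri_0_785_1000 (w := u) (t := t) (σ := σ) (by first | with_reducible assumption | linarith) (by first | with_reducible assumption | linarith) (by first | with_reducible assumption | linarith) (by first | with_reducible assumption | linarith)
      (by first | with_reducible assumption | linarith) (by first | with_reducible assumption | linarith) e0 e1 e2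
    have g := G3_785_1000 h8 h1 (u := u) (by first | with_reducible assumption | linarith) (by first | with_reducible assumption | linarith)
    unfold fRr at h
    push_cast at h
    linarith only [h, g, hT]
  rcases le_total u (1200 / 10000) with hh6 | hh6
  · have h := ri_0_1000_1200 (w := u) (t := t) (σ := σ) (by first | with_reducible assumption | linarith) (by first | with_reducible assumption | linarith) (by first | with_reducible assumption | linarith) (by first | with_reducible assumption | linarith)
      (by first | with_reducible assumption | linarith) (by first | with_reducible assumption | linarith) e0 e1 e2
    have g := G3_1000_1200 h8 h1 (u := u) (by first | with_reducible assumption | linarith) (by first | with_reducible assumption | linarith)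
    unfold fRr at h
    push_cast at h
    linarith only [h, g, hT]
  rcases le_total u (1600 / 10000) with hh7 | hh7
  · have h := ri_0_1200_1600 (w := u) (t := t) (σ := σ) (by first | with_reducible assumption | linarith) (by first | with_reducible assumption | linarith) (by first | with_reducible assumption | linarith) (by first | with_reducible assumption | linarith)
      (by first | with_reducible assumption | linarith) (by first | with_reducible assumption | linarith) e0 e1 e2
    have g := G3_1200_1600 h8 h1 (u := u) (by first | with_reducible assumption | linarith) (by first | with_reducible assumption | linarith)
    unfold fRr at h
    push_cast at h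
    linarith only [h, g, hT]
  rcases le_total u (2000 / 10000) with hh8 | hh8
  · have h := ri_0_1600_2000 (w := u) (t := t) (σ := σ) (by first | with_reducible assumption | linarith) (by first | with_reducible assumption | linarith) (by first | with_reducible assumption | linarith) (by first | with_reducible assumption | linarith)
      (by first | with_reducible assumption | linarith) (by first | with_reducible assumption | linarith) e0 e1 e2
    have g := G3_1600_2000 h8 h1 (u := u) (by first | with_reducible assumption | linarith) (by first | with_reducible assumption | linarith)
    unfold fRr at h
    push_cast at h
    linarith only [h, g, hT]
  rcases le_total u (3000 / 10000) with hh9 | hh9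
  · have h := ri_0_2000_3000 (w := u) (t := t) (σ := σ) (by first | with_reducible assumption | linarith) (by first | with_reducible assumption | linarith) (by first | with_reducible assumption | linarith) (by first | with_reducible assumption | linarith)
      (by first | with_reducible assumption | linarith) (by first | with_reducible assumption | linarith) e0 e1 e2
    have g := G3_2000_3000 h8 h1 (u := u) (by first | with_reducible assumption | linarith) (by first | with_reducible assumption | linarith)
    unfold fRr at h
    push_cast at h
    linarith only [h, g, hT]
  rcases le_total u (4000 / 10000) with hh10 | hh10
  · have h := ri_0_3000_4000 (w := u) (t := t) (σ := σ) (by first | with_reducible assumption | linarith) (by first | with_reducible assumption | linarith) (by first | with_reducible assumption | linarith) (by first | with_reducible assumption | linarith)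
      (by first | with_reducible assumption | linarith) (by first | with_reducible assumption | linarith) e0 e1 e2
    have g := G3_3000_4000 h8 h1 (u := u) (by first | with_reducible assumption | linarith) (by first | with_reducible assumption | linarith)
    unfold fRr at h
    push_cast at h
    linarith only [h, g, hT]
  rcases le_total u (5000 / 10000) with hh11 | hh11
  · have h := ri_0_4000_5000 (w := u) (t := t) (σ := σ) (by first | with_reducible assumption | linarith) (by first | with_reducible assumption | linarith) (by first | with_reducible assumption | linarith) (by first | with_reducible assumption | linarith)
      (by first | with_reducible assumption | linarith) (by first | with_reducible assumption | linarith) e0 e1 e2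
    have g := G3_4000_5000 h8 h1 (u := u) (by first | with_reducible assumption | linarith) (by first | with_reducible assumption | linarith)
    unfold fRr at h
    push_cast at h
    linarith only [h, g, hT]
  have h := ri_0_5000_6500 (w := u) (t := t) (σ := σ) (by first | with_reducible assumption | linarith) (by first | with_reducible assumption | linarith) (by first | with_reducible assumption | linarith) (by first | with_reducible assumption | linarith)
    (by first | with_reducible assumption | linarith) (by first | with_reducible assumption | linarith) e0 e1 e2
  have g := G3_5000_6500 h8 h1 (u := u) (by first | with_reducible assumption | linarith) (by first | with_reducible assumption | linarith)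
  unfold fRr at h
  push_cast at h
  linarith only [h, g, hT]

theorem ring_25 {u l t σ η : ℝ} (h8 : 8 / 10 ≤ l) (h1 : l ≤ 1) (hu : 0 ≤ u)
    (hu1 : u ≤ 65 / 100) (t0 : -(570 / 10000) ≤ t) (t1 : t ≤ 40 / 10000) (s0 : -(2500 / 10000) ≤ σ)
    (s1 : σ ≤ 0 / 10000) (e0 : 0 ≤ η) (e1 : η ≤ 1045 / 10000)
    (e2 : η ≤ 1045 / 10000 * (2 + 4 * σ)) :
    -(1886 / 10000) - (2810 / 10000) * t < PR u l t σ η := by
  have hT := h18_570_40 t0 t1
  unfold PR
  rcases le_total u (200 / 10000) with hh0 | hh0
  · have h := ri_25_0_200 (w := u) (t := t) (σ := σ) (by first | with_reducible assumption | linarith) (by first | with_reducible assumption | linarith) (by first | with_reducible assumption | linarith) (by first | with_reducible assumption | linarith)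
      (by first | with_reducible assumption | linarith) (by first | with_reducible assumption | linarith) e0 e1 e2
    have g := G3_0_200 h8 h1 (u := u) (by first | with_reducible assumption | linarith) (by first | with_reducible assumption | linarith)
    unfold fRr at h
    push_cast at h
    linarith only [h, g, hT]
  rcases le_total u (500 / 10000) with hh1 | hh1
  · have h := ri_25_200_500 (w := u) (t := t) (σ := σ) (by first | with_reducible assumption | linarith) (by first | with_reducible assumption | linarith) (by first | with_reducible assumption | linarith) (by first | with_reducible assumption | linarith)
      (by first | with_reducible assumption | linarith) (by first | with_reducible assumption | linarith) e0 e1 e2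
    have g := G3_200_500 h8 h1 (u := u) (by first | with_reducible assumption | linarith) (by first | with_reducible assumption | linarith)
    unfold fRr at h
    push_cast at h
    linarith only [h, g, hT]
  rcases le_total u (1000 / 10000) with hh2 | hh2
  · have h := ri_25_500_1000 (w := u) (t := t) (σ := σ) (by first | with_reducible assumption | linarith) (by first | with_reducible assumption | linarith) (by first | with_reducible assumption | linarith) (by first | with_reducible assumption | linarith)
      (by first | with_reducible assumption | linarith) (by first | with_reducible assumption | linarith) e0 e1 e2
    have g := G3_500_1000 h8 h1 (u := u) (by first | with_reducible assumption | linarith) (by first | with_reducible assumption | linarith)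
    unfold fRr at h
    push_cast at h
    linarith only [h, g, hT]
  rcases le_total u (2000 / 10000) with hh3 | hh3
  · have h := ri_25_1000_2000 (w := u) (t := t) (σ := σ) (by first | with_reducible assumption | linarith) (by first | with_reducible assumption | linarith) (by first | with_reducible assumption | linarith) (by first | with_reducible assumption | linarith)
      (by first | with_reducible assumption | linarith) (by first | with_reducible assumption | linarith) e0 e1 e2
    have g := G3_1000_2000 h8 h1 (u := u) (by first | with_reducible assumption | linarith) (by first | with_reducible assumption | linarith)
    unfold fRr at h
    push_cast at h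
    linarith only [h, g, hT]
  rcases le_total u (3000 / 10000) with hh4 | hh4
  · have h := ri_25_2000_3000 (w := u) (t := t) (σ := σ) (by first | with_reducible assumption | linarith) (by first | with_reducible assumption | linarith) (by first | with_reducible assumption | linarith) (by first | with_reducible assumption | linarith)
      (by first | with_reducible assumption | linarith) (by first | with_reducible assumption | linarith) e0 e1 e2
    have g := G3_2000_3000 h8 h1 (u := u) (by first | with_reducible assumption | linarith) (by first | with_reducible assumption | linarith)
    unfold fRr at h
    push_cast at h
    linarith only [h, g, hT]
  rcases le_total u (4000 / 10000) with hh5 | hh5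
  · have h := ri_25_3000_4000 (w := u) (t := t) (σ := σ) (by first | with_reducible assumption | linarith) (by first | with_reducible assumption | linarith) (by first | with_reducible assumption | linarith) (by first | with_reducible assumption | linarith)
      (by first | with_reducible assumption | linarith) (by first | with_reducible assumption | linarith) e0 e1 e2
    have g := G3_3000_4000 h8 h1 (u := u) (by first | with_reducible assumption | linarith) (by first | with_reducible assumption | linarith)
    unfold fRr at h
    push_cast at h
    linarith only [h, g, hT]
  rcases le_total u (5000 / 10000) with hh6 | hh6
  · have h := ri_25_4000_5000 (w := u) (t := t) (σ := σ) (by first | with_reducible assumption | linarith) (by first | with_reducible assumption | linarith) (by first | with_reducible assumption | linarith) (by first | with_reducible assumption | linarith)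
      (by first | with_reducible assumption | linarith) (by first | with_reducible assumption | linarith) e0 e1 e2
    have g := G3_4000_5000 h8 h1 (u := u) (by first | with_reducible assumption | linarith) (by first | with_reducible assumption | linarith)
    unfold fRr at h
    push_cast at h
    linarith only [h, g, hT]
  have h := ri_25_5000_6500 (w := u) (t := t) (σ := σ) (by first | with_reducible assumption | linarith) (by first | with_reducible assumption | linarith) (by first | with_reducible assumption | linarith) (by first | with_reducible assumption | linarith)
    (by first | with_reducible assumption | linarith) (by first | with_reducible assumption | linarith) e0 e1 e2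
  have g := G3_5000_6500 h8 h1 (u := u) (by first | with_reducible assumption | linarith) (by first | with_reducible assumption | linarith)
  unfold fRr at h
  push_cast at h
  linarith only [h, g, hT]

theorem ring_50 {u l t σ η : ℝ} (h8 : 8 / 10 ≤ l) (h1 : l ≤ 1) (hu : 0 ≤ u)
    (hu1 : u ≤ 65 / 100) (t0 : -(570 / 10000) ≤ t) (t1 : t ≤ 40 / 10000) (s0 : 0 / 10000 ≤ σ)
    (s1 : σ ≤ 1250 / 10000) (e0 : 0 ≤ η) (e1 : η ≤ 1045 / 10000)
    (e2 : η ≤ 1045 / 10000 * (2 + 4 * σ)) :
    -(1886 / 10000) - (2810 / 10000) * t < PR u l t σ η := by
  have hT := h18_570_40 t0 t1
  unfold PR
  rcases le_total u (200 / 10000) with hh0 | hh0
  · have h := ri_50_0_200 (w := u) (t := t) (σ := σ) (by first | with_reducible assumption | linarith) (by first | with_reducible assumption | linarith) (by first | with_reducible assumption | linarith) (by first | with_reducible assumption | linarith)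
      (by first | with_reducible assumption | linarith) (by first | with_reducible assumption | linarith) e0 e1 e2
    have g := G3_0_200 h8 h1 (u := u) (by first | with_reducible assumption | linarith) (by first | with_reducible assumption | linarith)
    unfold fRr at h
    push_cast at h
    linarith only [h, g, hT]
  rcases le_total u (500 / 10000) with hh1 | hh1
  · have h := ri_50_200_500 (w := u) (t := t) (σ := σ) (by first | with_reducible assumption | linarith) (by first | with_reducible assumption | linarith) (by first | with_reducible assumption | linarith) (by first | with_reducible assumption | linarith)
      (by first | with_reducible assumption | linarith) (by first | with_reducible assumption | linarith) e0 e1 e2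
    have g := G3_200_500 h8 h1 (u := u) (by first | with_reducible assumption | linarith) (by first | with_reducible assumption | linarith)
    unfold fRr at h
    push_cast at h
    linarith only [h, g, hT]
  rcases le_total u (1000 / 10000) with hh2 | hh2
  · have h := ri_50_500_1000 (w := u) (t := t) (σ := σ) (by first | with_reducible assumption | linarith) (by first | with_reducible assumption | linarith) (by first | with_reducible assumption | linarith) (by first | with_reducible assumption | linarith)
      (by first | with_reducible assumption | linarith) (by first | with_reducible assumption | linarith) e0 e1 e2
    have g := G3_500_1000 h8 h1 (u := u) (by first | with_reducible assumption | linarith) (by first | with_reducible assumption | linarith)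
    unfold fRr at h
    push_cast at h
    linarith only [h, g, hT]
  rcases le_total u (2000 / 10000) with hh3 | hh3
  · have h := ri_50_1000_2000 (w := u) (t := t) (σ := σ) (by first | with_reducible assumption | linarith) (by first | with_reducible assumption | linarith) (by first | with_reducible assumption | linarith) (by first | with_reducible assumption | linarith)
      (by first | with_reducible assumption | linarith) (by first | with_reducible assumption | linarith) e0 e1 e2
    have g := G3_1000_2000 h8 h1 (u := u) (by first | with_reducible assumption | linarith) (by first | with_reducible assumption | linarith)
    unfold fRr at h
    push_cast at h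
    linarith only [h, g, hT]
  rcases le_total u (3000 / 10000) with hh4 | hh4
  · have h := ri_50_2000_3000 (w := u) (t := t) (σ := σ) (by first | with_reducible assumption | linarith) (by first | with_reducible assumption | linarith) (by first | with_reducible assumption | linarith) (by first | with_reducible assumption | linarith)
      (by first | with_reducible assumption | linarith) (by first | with_reducible assumption | linarith) e0 e1 e2
    have g := G3_2000_3000 h8 h1 (u := u) (by first | with_reducible assumption | linarith) (by first | with_reducible assumption | linarith)
    unfold fRr at h
    push_cast at h
    linarith only [h, g, hT]
  rcases le_total u (4000 / 10000) with hh5 | hh5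
  · have h := ri_50_3000_4000 (w := u) (t := t) (σ := σ) (by first | with_reducible assumption | linarith) (by first | with_reducible assumption | linarith) (by first | with_reducible assumption | linarith) (by first | with_reducible assumption | linarith)
      (by first | with_reducible assumption | linarith) (by first | with_reducible assumption | linarith) e0 e1 e2
    have g := G3_3000_4000 h8 h1 (u := u) (by first | with_reducible assumption | linarith) (by first | with_reducible assumption | linarith)
    unfold fRr at h
    push_cast at h
    linarith only [h, g, hT]
  rcases le_total u (5000 / 10000) with hh6 | hh6
  · have h := ri_50_4000_5000 (w := u) (t := t) (σ := σ) (by first | with_reducible assumption | linarith) (by first | with_reducible assumption | linarith) (by first | with_reducible assumption | linarith) (by first | with_reducible assumption | linarith)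
      (by first | with_reducible assumption | linarith) (by first | with_reducible assumption | linarith) e0 e1 e2
    have g := G3_4000_5000 h8 h1 (u := u) (by first | with_reducible assumption | linarith) (by first | with_reducible assumption | linarith)
    unfold fRr at h
    push_cast at h
    linarith only [h, g, hT]
  have h := ri_50_5000_6500 (w := u) (t := t) (σ := σ) (by first | with_reducible assumption | linarith) (by first | with_reducible assumption | linarith) (by first | with_reducible assumption | linarith) (by first | with_reducible assumption | linarith)
    (by first | with_reducible assumption | linarith) (by first | with_reducible assumption | linarith) e0 e1 e2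
  have g := G3_5000_6500 h8 h1 (u := u) (by first | with_reducible assumption | linarith) (by first | with_reducible assumption | linarith)
  unfold fRr at h
  push_cast at h
  linarith only [h, g, hT]

end L2

end TL

end Pool.Agent.Work.MP_b30479_gt.G2
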