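import Pool.Agent.Work.MP_b30479_gt.G2.TL2uQ
import Pool.Agent.Work.MP_b30479_gt.G2.TE1T
import Pool.Agent.Work.MP_b30479_gt.G2.TL2uT

/-!
# Tails, slot `0` of an interior three: the real functions of the old position
-/

set_option linter.unusedVariables false

namespace Pool.Agent.Work.MP_b30479_gt.G2

open VOL NumU

namespace TL

namespace L2

theorem c02 : -(615 / 10000) < uu (2 / 100) 0 := by
  have h : NumG.chkF [.add (.uw (.var 0) (.q 0 1)) (.q 615 10000)] 10000 0 0 0 0 60 200 200 0 0 0 0 0 0 4 = true := by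
    decide +kernel
  obtain ⟨e, he, hp⟩ := NumG.chkF4 h (by norm_num) (x := 2 / 100) (y := 0) (z := 0) (w := 0)
    (by norm_num) (by norm_num) (by norm_num) (by norm_num) (by norm_num) (by norm_num)
    (by norm_num) (by norm_num)
  simp only [List.mem_singleton] at he
  subst he
  simp only [NumG.E.val, NumI.lkR] at hp
  push_cast at hp
  simp only [zero_div] at hp
  linarith only [hp]

theorem c78 : 616 / 10000 < uu (78 / 100) 0 := by
  have h : NumG.chkF [.sub (.uw (.var 0) (.q 0 1)) (.q 616 10000)] 10000 0 0 0 0 60 7800 7800 0 0 0 0 0 0 4 = true := by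
    decide +kernel
  obtain ⟨e, he, hp⟩ := NumG.chkF4 h (by norm_num) (x := 78 / 100) (y := 0) (z := 0) (w := 0)
    (by norm_num) (by norm_num) (by norm_num) (by norm_num) (by norm_num) (by norm_num)
    (by norm_num) (by norm_num)
  simp only [List.mem_singleton] at he
  subst he
  simp only [NumG.E.val, NumI.lkR] at hp
  push_cast at hp
  simp only [zero_div] at hp
  linarith only [hp]

theorem G2_0_200 {u l : ℝ} (h8 : 8 / 10 ≤ l) (h1 : l ≤ 1) (a0 : 0 / 10000 ≤ u) (b0 : u ≤ 200 / 10000) :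
    -(6159 / 100000) + u * ((0 / 1000) + (0 / 1000) * u) ≤ 2 * uu u 0 + uu (l - u) 0 := by
  have hW := E1.W_v (w := u) (by linarith only [a0]) (by linarith only [b0])
  have c0 := c02
  have c1 := c78
  have hm := uu_real_mono (a := 78 / 100) (b := 8 / 10 - u) (by norm_num) (by linarith only [b0]) (by linarith only [a0])
  rcases lu_or (u := u) h8 h1 (by linarith only [a0]) (by linarith only [b0]) with h | ⟨_, h⟩ <;> linarith only [hW, c0, c1, hm, h]

theorem G2_200_1000 {u l : ℝ} (h8 : 8 / 10 ≤ l) (h1 : l ≤ 1) (a0 : 200 / 10000 ≤ u) (b0 : u ≤ 1000 / 10000) :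
    -(3828 / 100000) + u * ((-(1498 / 1000)) + (1753 / 1000) * u) ≤ 2 * uu u 0 + uu (l - u) 0 := by
  rcases lu_or (u := u) h8 h1 (by linarith only [a0]) (by linarith only [b0]) with h | ⟨h6, h⟩
  · have := g2_200_1000_a (w := u) (by linarith only [a0]) (by linarith only [b0])
    linarith only [h, this]
  · have := g2_200_1000_b (w := u) (by linarith only [a0]) (by linarith only [b0])
    linarith only [h, this]

theorem G2_1000_1200 {u l : ℝ} (h8 : 8 / 10 ≤ l) (h1 : l ≤ 1) (a0 : 1000 / 10000 ≤ u) (b0 : u ≤ 1200 / 10000) :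
    5118 / 100000 + u * ((-(2971 / 1000)) + (7667 / 1000) * u) ≤ 2 * uu u 0 + uu (l - u) 0 := by
  rcases lu_or (u := u) h8 h1 (by linarith only [a0]) (by linarith only [b0]) with h | ⟨h6, h⟩
  · have := g2_1000_1200_a (w := u) (by linarith only [a0]) (by linarith only [b0])
    linarith only [h, this]
  · have := g2_1000_1200_b (w := u) (by linarith only [a0]) (by linarith only [b0])
    linarith only [h, this]

theorem G2_1000_2000 {u l : ℝ} (h8 : 8 / 10 ≤ l) (h1 : l ≤ 1) (a0 : 1000 / 10000 ≤ u) (b0 : u ≤ 2000 / 10000) :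
    1867 / 100000 + u * ((-(2435 / 1000)) + (5457 / 1000) * u) ≤ 2 * uu u 0 + uu (l - u) 0 := by
  rcases lu_or (u := u) h8 h1 (by linarith only [a0]) (by linarith only [b0]) with h | ⟨h6, h⟩
  · have := g2_1000_2000_a (w := u) (by linarith only [a0]) (by linarith only [b0])
    linarith only [h, this]
  · have := g2_1000_2000_b (w := u) (by linarith only [a0]) (by linarith only [h6])
    linarith only [h, this]

theorem G2_1200_1400 {u l : ℝ} (h8 : 8 / 10 ≤ l) (h1 : l ≤ 1) (a0 : 1200 / 10000 ≤ u) (b0 : u ≤ 1400 / 10000) :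
    3218 / 100000 + u * ((-(2653 / 1000)) + (6336 / 1000) * u) ≤ 2 * uu u 0 + uu (l - u) 0 := by
  rcases lu_or (u := u) h8 h1 (by linarith only [a0]) (by linarith only [b0]) with h | ⟨h6, h⟩
  · have := g2_1200_1400_a (w := u) (by linarith only [a0]) (by linarith only [b0])
    linarith only [h, this]
  · have := g2_1200_1400_b (w := u) (by linarith only [a0]) (by linarith only [b0])
    linarith only [h, this]

theorem G2_1400_1600 {u l : ℝ} (h8 : 8 / 10 ≤ l) (h1 : l ≤ 1) (a0 : 1400 / 10000 ≤ u) (b0 : u ≤ 1600 / 10000) :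
    1336 / 100000 + u * ((-(2383 / 1000)) + (5368 / 1000) * u) ≤ 2 * uu u 0 + uu (l - u) 0 := by
  rcases lu_or (u := u) h8 h1 (by linarith only [a0]) (by linarith only [b0]) with h | ⟨h6, h⟩
  · have := g2_1400_1600_a (w := u) (by linarith only [a0]) (by linarith only [b0])
    linarith only [h, this]
  · have := g2_1400_1600_b (w := u) (by linarith only [a0]) (by linarith only [b0])
    linarith only [h, this]

theorem G2_1600_2000 {u l : ℝ} (h8 : 8 / 10 ≤ l) (h1 : l ≤ 1) (a0 : 1600 / 10000 ≤ u) (b0 : u ≤ 2000 / 10000) :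
    -(1417 / 100000) + u * ((-(2046 / 1000)) + (4336 / 1000) * u) ≤ 2 * uu u 0 + uu (l - u) 0 := by
  rcases lu_or (u := u) h8 h1 (by linarith only [a0]) (by linarith only [b0]) with h | ⟨h6, h⟩
  · have := g2_1600_2000_a (w := u) (by linarith only [a0]) (by linarith only [b0])
    linarith only [h, this]
  · have := g2_1600_2000_b (w := u) (by linarith only [a0]) (by linarith only [h6])
    linarith only [h, this]

theorem G2_2000_3000 {u l : ℝ} (h8 : 8 / 10 ≤ l) (h1 : l ≤ 1) (a0 : 2000 / 10000 ≤ u) (b0 : u ≤ 3000 / 10000) :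
    -(7608 / 100000) + u * ((-(1453 / 1000)) + (2911 / 1000) * u) ≤ 2 * uu u 0 + uu (l - u) 0 := by
  rcases lu_or (u := u) h8 h1 (by linarith only [a0]) (by linarith only [b0]) with h | ⟨h6, h⟩
  · have := g2_2000_3000_a (w := u) (by linarith only [a0]) (by linarith only [b0])
    linarith only [h, this]
  · exfalso
    linarith only [a0, h6]

theorem G2_3000_4000 {u l : ℝ} (h8 : 8 / 10 ≤ l) (h1 : l ≤ 1) (a0 : 3000 / 10000 ≤ u) (b0 : u ≤ 4000 / 10000) :
    -(16810 / 100000) + u * ((-(830 / 1000)) + (1856 / 1000) * u) ≤ 2 * uu u 0 + uu (l - u) 0 := by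
  rcases lu_or (u := u) h8 h1 (by linarith only [a0]) (by linarith only [b0]) with h | ⟨h6, h⟩
  · have := g2_3000_4000_a (w := u) (by linarith only [a0]) (by linarith only [b0])
    linarith only [h, this]
  · exfalso
    linarith only [a0, h6]

theorem G2_4000_4200 {u l : ℝ} (h8 : 8 / 10 ≤ l) (h1 : l ≤ 1) (a0 : 4000 / 10000 ≤ u) (b0 : u ≤ 4200 / 10000) :
    -(22354 / 100000) + u * ((-(540 / 1000)) + (1478 / 1000) * u) ≤ 2 * uu u 0 + uu (l - u) 0 := by
  rcases lu_or (u := u) h8 h1 (by linarith only [a0]) (by linarith only [b0]) with h | ⟨h6, h⟩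
  · have := g2_4000_4200_a (w := u) (by linarith only [a0]) (by linarith only [b0])
    linarith only [h, this]
  · exfalso
    linarith only [a0, h6]

theorem G2_4000_5000 {u l : ℝ} (h8 : 8 / 10 ≤ l) (h1 : l ≤ 1) (a0 : 4000 / 10000 ≤ u) (b0 : u ≤ 5000 / 10000) :
    -(25506 / 100000) + u * ((-(391 / 1000)) + (1302 / 1000) * u) ≤ 2 * uu u 0 + uu (l - u) 0 := by
  rcases lu_or (u := u) h8 h1 (by linarith only [a0]) (by linarith only [b0]) with h | ⟨h6, h⟩
  · have := g2_4000_5000_a (w := u) (by linarith only [a0]) (by linarith only [b0])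
    linarith only [h, this]
  · exfalso
    linarith only [a0, h6]

theorem G2_4200_4500 {u l : ℝ} (h8 : 8 / 10 ≤ l) (h1 : l ≤ 1) (a0 : 4200 / 10000 ≤ u) (b0 : u ≤ 4500 / 10000) :
    -(24471 / 100000) + u * ((-(440 / 1000)) + (1360 / 1000) * u) ≤ 2 * uu u 0 + uu (l - u) 0 := by
  rcases lu_or (u := u) h8 h1 (by linarith only [a0]) (by linarith only [b0]) with h | ⟨h6, h⟩
  · have := g2_4200_4500_a (w := u) (by linarith only [a0]) (by linarith only [b0])
    linarith only [h, this]
  · exfalso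
    linarith only [a0, h6]

theorem G2_4500_4700 {u l : ℝ} (h8 : 8 / 10 ≤ l) (h1 : l ≤ 1) (a0 : 4500 / 10000 ≤ u) (b0 : u ≤ 4700 / 10000) :
    -(26495 / 100000) + u * ((-(350 / 1000)) + (1260 / 1000) * u) ≤ 2 * uu u 0 + uu (l - u) 0 := by
  rcases lu_or (u := u) h8 h1 (by linarith only [a0]) (by linarith only [b0]) with h | ⟨h6, h⟩
  · have := g2_4500_4700_a (w := u) (by linarith only [a0]) (by linarith only [b0])
    linarith only [h, this]
  · exfalso
    linarith only [a0, h6]

theorem G2_4700_5000 {u l : ℝ} (h8 : 8 / 10 ≤ l) (h1 : l ≤ 1) (a0 : 4700 / 10000 ≤ u) (b0 : u ≤ 5000 / 10000) :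
    -(28253 / 100000) + u * ((-(275 / 1000)) + (1180 / 1000) * u) ≤ 2 * uu u 0 + uu (l - u) 0 := by
  rcases lu_or (u := u) h8 h1 (by linarith only [a0]) (by linarith only [b0]) with h | ⟨h6, h⟩
  · have := g2_4700_5000_a (w := u) (by linarith only [a0]) (by linarith only [b0])
    linarith only [h, this]
  · exfalso
    linarith only [a0, h6]

theorem G2_5000_5200 {u l : ℝ} (h8 : 8 / 10 ≤ l) (h1 : l ≤ 1) (a0 : 5000 / 10000 ≤ u) (b0 : u ≤ 5200 / 10000) :
    -(29776 / 100000) + u * ((-(214 / 1000)) + (1119 / 1000) * u) ≤ 2 * uu u 0 + uu (l - u) 0 := by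
  rcases lu_or (u := u) h8 h1 (by linarith only [a0]) (by linarith only [b0]) with h | ⟨h6, h⟩
  · have := g2_5000_5200_a (w := u) (by linarith only [a0]) (by linarith only [b0])
    linarith only [h, this]
  · exfalso
    linarith only [a0, h6]

theorem G2_5000_6500 {u l : ℝ} (h8 : 8 / 10 ≤ l) (h1 : l ≤ 1) (a0 : 5000 / 10000 ≤ u) (b0 : u ≤ 6500 / 10000) :
    -(30650 / 100000) + u * ((-(182 / 1000)) + (1088 / 1000) * u) ≤ 2 * uu u 0 + uu (l - u) 0 := by
  rcases le_total u (19 / 30) with h30 | h30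
  · rcases lu_or (u := u) h8 h1 (by linarith only [a0]) (by linarith only [h30]) with h | ⟨h6, h⟩
    · have := g2_5000_6500_a (w := u) (by linarith only [a0]) (by linarith only [h30])
      linarith only [h, this]
    · exfalso
      linarith only [a0, h6]
  · have := g2_5000_6500_c (w := u) (by linarith only [h30]) (by linarith only [b0])
    have := real_ge (x := l - u) (by linarith only [h8, b0]) (by linarith only [h1, h30])
    linarith

theorem G2_5200_5500 {u l : ℝ} (h8 : 8 / 10 ≤ l) (h1 : l ≤ 1) (a0 : 5200 / 10000 ≤ u) (b0 : u ≤ 5500 / 10000) :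
    -(30726 / 100000) + u * ((-(177 / 1000)) + (1083 / 1000) * u) ≤ 2 * uu u 0 + uu (l - u) 0 := by
  rcases lu_or (u := u) h8 h1 (by linarith only [a0]) (by linarith only [b0]) with h | ⟨h6, h⟩
  · have := g2_5200_5500_a (w := u) (by linarith only [a0]) (by linarith only [b0])
    linarith only [h, this]
  · exfalso
    linarith only [a0, h6]

theorem G2_5500_6500 {u l : ℝ} (h8 : 8 / 10 ≤ l) (h1 : l ≤ 1) (a0 : 5500 / 10000 ≤ u) (b0 : u ≤ 6500 / 10000) :
    -(31368 / 100000) + u * ((-(156 / 1000)) + (1065 / 1000) * u) ≤ 2 * uu u 0 + uu (l - u) 0 := by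
  rcases le_total u (19 / 30) with h30 | h30
  · rcases lu_or (u := u) h8 h1 (by linarith only [a0]) (by linarith only [h30]) with h | ⟨h6, h⟩
    · have := g2_5500_6500_a (w := u) (by linarith only [a0]) (by linarith only [h30])
      linarith only [h, this]
    · exfalso
      linarith only [a0, h6]
  · have := g2_5500_6500_c (w := u) (by linarith only [h30]) (by linarith only [b0])
    have := real_ge (x := l - u) (by linarith only [h8, b0]) (by linarith only [h1, h30])
    linarith

theorem G3_0_200 {u l : ℝ} (h8 : 8 / 10 ≤ l) (h1 : l ≤ 1) (a0 : 0 / 10000 ≤ u) (b0 : u ≤ 200 / 10000) :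
    -(12308 / 100000) + u * ((0 / 1000) + (0 / 1000) * u) ≤ 3 * uu u 0 + uu (l - u) 0 := by
  have hW := E1.W_v (w := u) (by linarith only [a0]) (by linarith only [b0])
  have c0 := c02
  have c1 := c78
  have hm := uu_real_mono (a := 78 / 100) (b := 8 / 10 - u) (by norm_num) (by linarith only [b0]) (by linarith only [a0])
  rcases lu_or (u := u) h8 h1 (by linarith only [a0]) (by linarith only [b0]) with h | ⟨_, h⟩ <;> linarith only [hW, c0, c1, hm, h]

theorem G3_200_500 {u l : ℝ} (h8 : 8 / 10 ≤ l) (h1 : l ≤ 1) (a0 : 200 / 10000 ≤ u) (b0 : u ≤ 500 / 10000) :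
    -(3288 / 100000) + u * ((-(5122 / 1000)) + (29151 / 1000) * u) ≤ 3 * uu u 0 + uu (l - u) 0 := by
  rcases lu_or (u := u) h8 h1 (by linarith only [a0]) (by linarith only [b0]) with h | ⟨h6, h⟩
  · have := g3_200_500_a (w := u) (by linarith only [a0]) (by linarith only [b0])
    linarith only [h, this]
  · have := g3_200_500_b (w := u) (by linarith only [a0]) (by linarith only [b0])
    linarith only [h, this]

theorem G3_500_600 {u l : ℝ} (h8 : 8 / 10 ≤ l) (h1 : l ≤ 1) (a0 : 500 / 10000 ≤ u) (b0 : u ≤ 600 / 10000) :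
    -(5508 / 100000) + u * ((-(4120 / 1000)) + (18019 / 1000) * u) ≤ 3 * uu u 0 + uu (l - u) 0 := by
  rcases lu_or (u := u) h8 h1 (by linarith only [a0]) (by linarith only [b0]) with h | ⟨h6, h⟩
  · have := g3_500_600_a (w := u) (by linarith only [a0]) (by linarith only [b0])
    linarith only [h, this]
  · have := g3_500_600_b (w := u) (by linarith only [a0]) (by linarith only [b0])
    linarith only [h, this]

theorem G3_500_1000 {u l : ℝ} (h8 : 8 / 10 ≤ l) (h1 : l ≤ 1) (a0 : 500 / 10000 ≤ u) (b0 : u ≤ 1000 / 10000) :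
    -(15534 / 100000) + u * ((-(964 / 1000)) + (-(6827 / 1000)) * u) ≤ 3 * uu u 0 + uu (l - u) 0 := by
  rcases lu_or (u := u) h8 h1 (by linarith only [a0]) (by linarith only [b0]) with h | ⟨h6, h⟩
  · have := g3_500_1000_a (w := u) (by linarith only [a0]) (by linarith only [b0])
    linarith only [h, this]
  · have := g3_500_1000_b (w := u) (by linarith only [a0]) (by linarith only [b0])
    linarith only [h, this]

theorem G3_600_700 {u l : ℝ} (h8 : 8 / 10 ≤ l) (h1 : l ≤ 1) (a0 : 600 / 10000 ≤ u) (b0 : u ≤ 700 / 10000) :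
    -(6526 / 100000) + u * ((-(3780 / 1000)) + (15181 / 1000) * u) ≤ 3 * uu u 0 + uu (l - u) 0 := by
  rcases lu_or (u := u) h8 h1 (by linarith only [a0]) (by linarith only [b0]) with h | ⟨h6, h⟩
  · have := g3_600_700_a (w := u) (by linarith only [a0]) (by linarith only [b0])
    linarith only [h, this]
  · have := g3_600_700_b (w := u) (by linarith only [a0]) (by linarith only [b0])
    linarith only [h, this]

theorem G3_700_785 {u l : ℝ} (h8 : 8 / 10 ≤ l) (h1 : l ≤ 1) (a0 : 700 / 10000 ≤ u) (b0 : u ≤ 785 / 10000) :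
    -(7466 / 100000) + u * ((-(3509 / 1000)) + (13228 / 1000) * u) ≤ 3 * uu u 0 + uu (l - u) 0 := by
  rcases lu_or (u := u) h8 h1 (by linarith only [a0]) (by linarith only [b0]) with h | ⟨h6, h⟩
  · have := g3_700_785_a (w := u) (by linarith only [a0]) (by linarith only [b0])
    linarith only [h, this]
  · have := g3_700_785_b (w := u) (by linarith only [a0]) (by linarith only [b0])
    linarith only [h, this]

theorem G3_785_1000 {u l : ℝ} (h8 : 8 / 10 ≤ l) (h1 : l ≤ 1) (a0 : 785 / 10000 ≤ u) (b0 : u ≤ 1000 / 10000) :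
    2603 / 100000 + u * ((-(4944 / 1000)) + (15169 / 1000) * u) ≤ 3 * uu u 0 + uu (l - u) 0 := by
  rcases lu_or (u := u) h8 h1 (by linarith only [a0]) (by linarith only [b0]) with h | ⟨h6, h⟩
  · have := g3_785_1000_a (w := u) (by linarith only [a0]) (by linarith only [b0])
    linarith only [h, this]
  · have := g3_785_1000_b (w := u) (by linarith only [a0]) (by linarith only [b0])
    linarith only [h, this]

theorem G3_1000_1200 {u l : ℝ} (h8 : 8 / 10 ≤ l) (h1 : l ≤ 1) (a0 : 1000 / 10000 ≤ u) (b0 : u ≤ 1200 / 10000) :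
    -(433 / 100000) + u * ((-(4323 / 1000)) + (12035 / 1000) * u) ≤ 3 * uu u 0 + uu (l - u) 0 := by
  rcases lu_or (u := u) h8 h1 (by linarith only [a0]) (by linarith only [b0]) with h | ⟨h6, h⟩
  · have := g3_1000_1200_a (w := u) (by linarith only [a0]) (by linarith only [b0])
    linarith only [h, this]
  · have := g3_1000_1200_b (w := u) (by linarith only [a0]) (by linarith only [b0])
    linarith only [h, this]

theorem G3_1000_2000 {u l : ℝ} (h8 : 8 / 10 ≤ l) (h1 : l ≤ 1) (a0 : 1000 / 10000 ≤ u) (b0 : u ≤ 2000 / 10000) :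
    -(5515 / 100000) + u * ((-(3486 / 1000)) + (8588 / 1000) * u) ≤ 3 * uu u 0 + uu (l - u) 0 := by
  rcases lu_or (u := u) h8 h1 (by linarith only [a0]) (by linarith only [b0]) with h | ⟨h6, h⟩
  · have := g3_1000_2000_a (w := u) (by linarith only [a0]) (by linarith only [b0])
    linarith only [h, this]
  · have := g3_1000_2000_b (w := u) (by linarith only [a0]) (by linarith only [h6])
    linarith only [h, this]

theorem G3_1200_1600 {u l : ℝ} (h8 : 8 / 10 ≤ l) (h1 : l ≤ 1) (a0 : 1200 / 10000 ≤ u) (b0 : u ≤ 1600 / 10000) :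
    -(4750 / 100000) + u * ((-(3621 / 1000)) + (9177 / 1000) * u) ≤ 3 * uu u 0 + uu (l - u) 0 := by
  rcases lu_or (u := u) h8 h1 (by linarith only [a0]) (by linarith only [b0]) with h | ⟨h6, h⟩
  · have := g3_1200_1600_a (w := u) (by linarith only [a0]) (by linarith only [b0])
    linarith only [h, this]
  · have := g3_1200_1600_b (w := u) (by linarith only [a0]) (by linarith only [b0])
    linarith only [h, this]

theorem G3_1600_2000 {u l : ℝ} (h8 : 8 / 10 ≤ l) (h1 : l ≤ 1) (a0 : 1600 / 10000 ≤ u) (b0 : u ≤ 2000 / 10000) :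
    -(10692 / 100000) + u * ((-(2872 / 1000)) + (6816 / 1000) * u) ≤ 3 * uu u 0 + uu (l - u) 0 := by
  rcases lu_or (u := u) h8 h1 (by linarith only [a0]) (by linarith only [b0]) with h | ⟨h6, h⟩
  · have := g3_1600_2000_a (w := u) (by linarith only [a0]) (by linarith only [b0])
    linarith only [h, this]
  · have := g3_1600_2000_b (w := u) (by linarith only [a0]) (by linarith only [h6])
    linarith only [h, this]

theorem G3_2000_3000 {u l : ℝ} (h8 : 8 / 10 ≤ l) (h1 : l ≤ 1) (a0 : 2000 / 10000 ≤ u) (b0 : u ≤ 3000 / 10000) :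
    -(20828 / 100000) + u * ((-(1903 / 1000)) + (4492 / 1000) * u) ≤ 3 * uu u 0 + uu (l - u) 0 := by
  rcases lu_or (u := u) h8 h1 (by linarith only [a0]) (by linarith only [b0]) with h | ⟨h6, h⟩
  · have := g3_2000_3000_a (w := u) (by linarith only [a0]) (by linarith only [b0])
    linarith only [h, this]
  · exfalso
    linarith only [a0, h6]

theorem G3_2700_4000 {u l : ℝ} (h8 : 8 / 10 ≤ l) (h1 : l ≤ 1) (a0 : 2700 / 10000 ≤ u) (b0 : u ≤ 4000 / 10000) :
    -(34132 / 100000) + u * ((-(976 / 1000)) + (2881 / 1000) * u) ≤ 3 * uu u 0 + uu (l - u) 0 := by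
  rcases lu_or (u := u) h8 h1 (by linarith only [a0]) (by linarith only [b0]) with h | ⟨h6, h⟩
  · have := g3_2700_4000_a (w := u) (by linarith only [a0]) (by linarith only [b0])
    linarith only [h, this]
  · exfalso
    linarith only [a0, h6]

theorem G3_3000_4000 {u l : ℝ} (h8 : 8 / 10 ≤ l) (h1 : l ≤ 1) (a0 : 3000 / 10000 ≤ u) (b0 : u ≤ 4000 / 10000) :
    -(36880 / 100000) + u * ((-(819 / 1000)) + (2660 / 1000) * u) ≤ 3 * uu u 0 + uu (l - u) 0 := by
  rcases lu_or (u := u) h8 h1 (by linarith only [a0]) (by linarith only [b0]) with h | ⟨h6, h⟩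
  · have := g3_3000_4000_a (w := u) (by linarith only [a0]) (by linarith only [b0])
    linarith only [h, this]
  · exfalso
    linarith only [a0, h6]

theorem G3_4000_5000 {u l : ℝ} (h8 : 8 / 10 ≤ l) (h1 : l ≤ 1) (a0 : 4000 / 10000 ≤ u) (b0 : u ≤ 5000 / 10000) :
    -(54403 / 100000) + u * ((62 / 1000) + (1552 / 1000) * u) ≤ 3 * uu u 0 + uu (l - u) 0 := by
  rcases lu_or (u := u) h8 h1 (by linarith only [a0]) (by linarith only [b0]) with h | ⟨h6, h⟩
  · have := g3_4000_5000_a (w := u) (by linarith only [a0]) (by linarith only [b0])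
    linarith only [h, this]
  · exfalso
    linarith only [a0, h6]

theorem G3_5000_6500 {u l : ℝ} (h8 : 8 / 10 ≤ l) (h1 : l ≤ 1) (a0 : 5000 / 10000 ≤ u) (b0 : u ≤ 6500 / 10000) :
    -(75876 / 100000) + u * ((912 / 1000) + (708 / 1000) * u) ≤ 3 * uu u 0 + uu (l - u) 0 := by
  rcases le_total u (19 / 30) with h30 | h30
  · rcases lu_or (u := u) h8 h1 (by linarith only [a0]) (by linarith only [h30]) with h | ⟨h6, h⟩
    · have := g3_5000_6500_a (w := u) (by linarith only [a0]) (by linarith only [h30])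
      linarith only [h, this]
    · exfalso
      linarith only [a0, h6]
  · have := g3_5000_6500_c (w := u) (by linarith only [h30]) (by linarith only [b0])
    have := real_ge (x := l - u) (by linarith only [h8, b0]) (by linarith only [h1, h30])
    linarith

end L2

end TL

end Pool.Agent.Work.MP_b30479_gt.G2
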