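import Pool.Agent.Work.NumU.GenC

/-!
# Tails, slot `0` of an interior three: the regions of the rows
-/

set_option linter.unusedSimpArgs false
set_option linter.unusedTactic false

namespace Pool.Agent.Work.MP_b30479_gt.G2

namespace TL

namespace L2

/-- constraints of the rows `o0` -/
structure RO0 (t X Y : ℝ) : Prop where
  h0 : 0 ≤ X
  h1 : X ≤ 860 / 1000
  h2 : Y ≤ (111 / 1000) - t
  h3 : (150 / 1000) * Y ≤ (49 / 1000) * X
  h4 : (150 / 1000) * Y ≤ ((111 / 1000) - t) * X
  h5 : (200 / 1000) * Y ≤ (49 / 1000) * ((860 / 1000) - X)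
  h6 : (200 / 1000) * Y ≤ ((111 / 1000) - t) * ((860 / 1000) - X)
  h7 : (-(22 / 1000)) - t ≤ Y
  h8 : (-(91 / 1000)) * X ≤ (150 / 1000) * Y
  h9 : ((-(22 / 1000)) - t) * X ≤ (150 / 1000) * Y
  h10 : (-(91 / 1000)) * ((860 / 1000) - X) ≤ (200 / 1000) * Y
  h11 : ((-(22 / 1000)) - t) * ((860 / 1000) - X) ≤ (200 / 1000) * Y
  h12 : -(91 / 1000) ≤ Y
  h13 : Y ≤ 49 / 1000

/-- the same as expressions -/
def eRO0 : List NumG.E :=
  [.sub (.var 0) (.var 2),
   .sub (.sub (.var 2) (.var 0)) (.q 860 1000),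
   .sub (.var 3) (.sub (.q 111 1000) (.var 1)),
   .sub (.mul (.q 150 1000) (.var 3)) (.mul (.q 49 1000) (.sub (.var 2) (.var 0))),
   .sub (.mul (.q 150 1000) (.var 3)) (.mul (.sub (.q 111 1000) (.var 1)) (.sub (.var 2) (.var
    0))),
   .sub (.mul (.q 200 1000) (.var 3)) (.mul (.q 49 1000) (.sub (.q 860 1000) (.sub (.var 2)
    (.var 0)))),
   .sub (.mul (.q 200 1000) (.var 3)) (.mul (.sub (.q 111 1000) (.var 1)) (.sub (.q 860 1000)
    (.sub (.var 2) (.var 0)))),
   .sub (.sub (.q (-22) 1000) (.var 1)) (.var 3),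
   .sub (.mul (.q (-91) 1000) (.sub (.var 2) (.var 0))) (.mul (.q 150 1000) (.var 3)),
   .sub (.mul (.sub (.q (-22) 1000) (.var 1)) (.sub (.var 2) (.var 0))) (.mul (.q 150 1000)
    (.var 3)),
   .sub (.mul (.q (-91) 1000) (.sub (.q 860 1000) (.sub (.var 2) (.var 0)))) (.mul (.q 200 1000)
    (.var 3)),
   .sub (.mul (.sub (.q (-22) 1000) (.var 1)) (.sub (.q 860 1000) (.sub (.var 2) (.var 0))))
    (.mul (.q 200 1000) (.var 3))]

theorem RO0.neg {t X Y w : ℝ} (h : RO0 t X Y) {e : NumG.E} (he : e ∈ eRO0) :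
    e.val [w, t, w + X, Y] ≤ 0 := by
  obtain ⟨h0, h1, h2, h3, h4, h5, h6, h7, h8, h9, h10, h11, h12, h13⟩ := h
  simp only [eRO0, List.mem_cons, List.not_mem_nil, or_false] at he
  rcases he with rfl | rfl | rfl | rfl | rfl | rfl | rfl | rfl | rfl | rfl | rfl | rfl
  · simp only [NumG.E.val, NumI.lkR, add_sub_cancel_left]
    push_cast
    linarith only [h0]
  · simp only [NumG.E.val, NumI.lkR, add_sub_cancel_left]
    push_cast
    linarith only [h1]
  · simp only [NumG.E.val, NumI.lkR, add_sub_cancel_left]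
    push_cast
    linarith only [h2]
  · simp only [NumG.E.val, NumI.lkR, add_sub_cancel_left]
    push_cast
    linarith only [h3]
  · simp only [NumG.E.val, NumI.lkR, add_sub_cancel_left]
    push_cast
    linarith only [h4]
  · simp only [NumG.E.val, NumI.lkR, add_sub_cancel_left]
    push_cast
    linarith only [h5]
  · simp only [NumG.E.val, NumI.lkR, add_sub_cancel_left]
    push_cast
    linarith only [h6]
  · simp only [NumG.E.val, NumI.lkR, add_sub_cancel_left]
    push_cast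
    linarith only [h7]
  · simp only [NumG.E.val, NumI.lkR, add_sub_cancel_left]
    push_cast
    linarith only [h8]
  · simp only [NumG.E.val, NumI.lkR, add_sub_cancel_left]
    push_cast
    linarith only [h9]
  · simp only [NumG.E.val, NumI.lkR, add_sub_cancel_left]
    push_cast
    linarith only [h10]
  · simp only [NumG.E.val, NumI.lkR, add_sub_cancel_left]
    push_cast
    linarith only [h11]

/-- constraints of the rows `o1` -/
structure RO1 (t X Y : ℝ) : Prop where
  h0 : 0 ≤ X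
  h1 : X ≤ 800 / 1000
  h2 : Y ≤ (148 / 1000) - t
  h3 : (160 / 1000) * Y ≤ (77 / 1000) * X
  h4 : (160 / 1000) * Y ≤ ((148 / 1000) - t) * X
  h5 : (290 / 1000) * Y ≤ (77 / 1000) * ((800 / 1000) - X)
  h6 : (290 / 1000) * Y ≤ ((148 / 1000) - t) * ((800 / 1000) - X)
  h7 : 0 / 1000 ≤ Y
  h8 : Y ≤ 77 / 1000

/-- the same as expressions -/
def eRO1 : List NumG.E :=
  [.sub (.var 0) (.var 2),
   .sub (.sub (.var 2) (.var 0)) (.q 800 1000),
   .sub (.var 3) (.sub (.q 148 1000) (.var 1)),
   .sub (.mul (.q 160 1000) (.var 3)) (.mul (.q 77 1000) (.sub (.var 2) (.var 0))),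
   .sub (.mul (.q 160 1000) (.var 3)) (.mul (.sub (.q 148 1000) (.var 1)) (.sub (.var 2) (.var
    0))),
   .sub (.mul (.q 290 1000) (.var 3)) (.mul (.q 77 1000) (.sub (.q 800 1000) (.sub (.var 2)
    (.var 0)))),
   .sub (.mul (.q 290 1000) (.var 3)) (.mul (.sub (.q 148 1000) (.var 1)) (.sub (.q 800 1000)
    (.sub (.var 2) (.var 0))))]

theorem RO1.neg {t X Y w : ℝ} (h : RO1 t X Y) {e : NumG.E} (he : e ∈ eRO1) :
    e.val [w, t, w + X, Y] ≤ 0 := by
  obtain ⟨h0, h1, h2, h3, h4, h5, h6, h7, h8⟩ := h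
  simp only [eRO1, List.mem_cons, List.not_mem_nil, or_false] at he
  rcases he with rfl | rfl | rfl | rfl | rfl | rfl | rfl
  · simp only [NumG.E.val, NumI.lkR, add_sub_cancel_left]
    push_cast
    linarith only [h0]
  · simp only [NumG.E.val, NumI.lkR, add_sub_cancel_left]
    push_cast
    linarith only [h1]
  · simp only [NumG.E.val, NumI.lkR, add_sub_cancel_left]
    push_cast
    linarith only [h2]
  · simp only [NumG.E.val, NumI.lkR, add_sub_cancel_left]
    push_cast
    linarith only [h3]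
  · simp only [NumG.E.val, NumI.lkR, add_sub_cancel_left]
    push_cast
    linarith only [h4]
  · simp only [NumG.E.val, NumI.lkR, add_sub_cancel_left]
    push_cast
    linarith only [h5]
  · simp only [NumG.E.val, NumI.lkR, add_sub_cancel_left]
    push_cast
    linarith only [h6]

/-- constraints of the rows `o2` -/
structure RO2 (t X Y : ℝ) : Prop where
  h0 : 0 ≤ X
  h1 : X ≤ 700 / 1000
  h2 : (51 / 1000) - t ≤ Y
  h3 : (-(45 / 1000)) * X ≤ (140 / 1000) * Y
  h4 : ((51 / 1000) - t) * X ≤ (140 / 1000) * Y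
  h5 : (-(45 / 1000)) * ((700 / 1000) - X) ≤ (350 / 1000) * Y
  h6 : ((51 / 1000) - t) * ((700 / 1000) - X) ≤ (350 / 1000) * Y
  h7 : 8 / 100 ≤ X
  h8 : -(45 / 1000) ≤ Y
  h9 : Y ≤ 0 / 1000

/-- the same as expressions -/
def eRO2 : List NumG.E :=
  [.sub (.var 0) (.var 2),
   .sub (.sub (.var 2) (.var 0)) (.q 700 1000),
   .sub (.sub (.q 51 1000) (.var 1)) (.var 3),
   .sub (.mul (.q (-45) 1000) (.sub (.var 2) (.var 0))) (.mul (.q 140 1000) (.var 3)),
   .sub (.mul (.sub (.q 51 1000) (.var 1)) (.sub (.var 2) (.var 0))) (.mul (.q 140 1000) (.var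
    3)),
   .sub (.mul (.q (-45) 1000) (.sub (.q 700 1000) (.sub (.var 2) (.var 0)))) (.mul (.q 350 1000)
    (.var 3)),
   .sub (.mul (.sub (.q 51 1000) (.var 1)) (.sub (.q 700 1000) (.sub (.var 2) (.var 0)))) (.mul
    (.q 350 1000) (.var 3)),
   .sub (.q 8 100) (.sub (.var 2) (.var 0))]

theorem RO2.neg {t X Y w : ℝ} (h : RO2 t X Y) {e : NumG.E} (he : e ∈ eRO2) :
    e.val [w, t, w + X, Y] ≤ 0 := by
  obtain ⟨h0, h1, h2, h3, h4, h5, h6, h7, h8, h9⟩ := h
  simp only [eRO2, List.mem_cons, List.not_mem_nil, or_false] at he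
  rcases he with rfl | rfl | rfl | rfl | rfl | rfl | rfl | rfl
  · simp only [NumG.E.val, NumI.lkR, add_sub_cancel_left]
    push_cast
    linarith only [h0]
  · simp only [NumG.E.val, NumI.lkR, add_sub_cancel_left]
    push_cast
    linarith only [h1]
  · simp only [NumG.E.val, NumI.lkR, add_sub_cancel_left]
    push_cast
    linarith only [h2]
  · simp only [NumG.E.val, NumI.lkR, add_sub_cancel_left]
    push_cast
    linarith only [h3]
  · simp only [NumG.E.val, NumI.lkR, add_sub_cancel_left]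
    push_cast
    linarith only [h4]
  · simp only [NumG.E.val, NumI.lkR, add_sub_cancel_left]
    push_cast
    linarith only [h5]
  · simp only [NumG.E.val, NumI.lkR, add_sub_cancel_left]
    push_cast
    linarith only [h6]
  · simp only [NumG.E.val, NumI.lkR, add_sub_cancel_left]
    push_cast
    linarith only [h7]

/-- constraints of the rows `tw` -/
structure RTw (t X Y : ℝ) : Prop where
  h0 : 0 ≤ X
  h1 : X ≤ 6 / 10
  h2 : Y ≤ (0 / 100000) + (7700 / 10000) * X
  h3 : Y ≤ (20450 / 100000) + (-(3200 / 10000)) * X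
  h4 : (0 / 100000) + (-(8500 / 10000)) * X ≤ Y
  h5 : (-(27200 / 100000)) + (3400 / 10000) * X ≤ Y
  h6 : -(985 / 10000) ≤ Y
  h7 : Y ≤ 96 / 1000

/-- the same as expressions -/
def eRTw : List NumG.E :=
  [.sub (.var 0) (.var 2),
   .sub (.sub (.var 2) (.var 0)) (.q 6 10),
   .sub (.var 3) (.add (.q 0 100000) (.mul (.q 7700 10000) (.sub (.var 2) (.var 0)))),
   .sub (.var 3) (.add (.q 20450 100000) (.mul (.q (-3200) 10000) (.sub (.var 2) (.var 0)))),
   .sub (.add (.q 0 100000) (.mul (.q (-8500) 10000) (.sub (.var 2) (.var 0)))) (.var 3),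
   .sub (.add (.q (-27200) 100000) (.mul (.q 3400 10000) (.sub (.var 2) (.var 0)))) (.var 3)]

theorem RTw.neg {t X Y w : ℝ} (h : RTw t X Y) {e : NumG.E} (he : e ∈ eRTw) :
    e.val [w, t, w + X, Y] ≤ 0 := by
  obtain ⟨h0, h1, h2, h3, h4, h5, h6, h7⟩ := h
  simp only [eRTw, List.mem_cons, List.not_mem_nil, or_false] at he
  rcases he with rfl | rfl | rfl | rfl | rfl | rfl
  · simp only [NumG.E.val, NumI.lkR, add_sub_cancel_left]
    push_cast
    linarith only [h0]
  · simp only [NumG.E.val, NumI.lkR, add_sub_cancel_left]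
    push_cast
    linarith only [h1]
  · simp only [NumG.E.val, NumI.lkR, add_sub_cancel_left]
    push_cast
    linarith only [h2]
  · simp only [NumG.E.val, NumI.lkR, add_sub_cancel_left]
    push_cast
    linarith only [h3]
  · simp only [NumG.E.val, NumI.lkR, add_sub_cancel_left]
    push_cast
    linarith only [h4]
  · simp only [NumG.E.val, NumI.lkR, add_sub_cancel_left]
    push_cast
    linarith only [h5]

/-- constraints of the rows `tf` -/
structure RTf (t X Y : ℝ) : Prop where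
  h0 : 0 ≤ X
  h1 : X ≤ 8 / 10
  h2 : 6 / 10 ≤ X
  h3 : Y ≤ (27200 / 100000) + (-(3400 / 10000)) * X
  h4 : (-(27200 / 100000)) + (3400 / 10000) * X ≤ Y
  h5 : -(68 / 1000) ≤ Y
  h6 : Y ≤ 68 / 1000

/-- the same as expressions -/
def eRTf : List NumG.E :=
  [.sub (.var 0) (.var 2),
   .sub (.sub (.var 2) (.var 0)) (.q 8 10),
   .sub (.q 6 10) (.sub (.var 2) (.var 0)),
   .sub (.var 3) (.add (.q 27200 100000) (.mul (.q (-3400) 10000) (.sub (.var 2) (.var 0)))),
   .sub (.add (.q (-27200) 100000) (.mul (.q 3400 10000) (.sub (.var 2) (.var 0)))) (.var 3)]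

theorem RTf.neg {t X Y w : ℝ} (h : RTf t X Y) {e : NumG.E} (he : e ∈ eRTf) :
    e.val [w, t, w + X, Y] ≤ 0 := by
  obtain ⟨h0, h1, h2, h3, h4, h5, h6⟩ := h
  simp only [eRTf, List.mem_cons, List.not_mem_nil, or_false] at he
  rcases he with rfl | rfl | rfl | rfl | rfl
  · simp only [NumG.E.val, NumI.lkR, add_sub_cancel_left]
    push_cast
    linarith only [h0]
  · simp only [NumG.E.val, NumI.lkR, add_sub_cancel_left]
    push_cast
    linarith only [h1]
  · simp only [NumG.E.val, NumI.lkR, add_sub_cancel_left]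
    push_cast
    linarith only [h2]
  · simp only [NumG.E.val, NumI.lkR, add_sub_cancel_left]
    push_cast
    linarith only [h3]
  · simp only [NumG.E.val, NumI.lkR, add_sub_cancel_left]
    push_cast
    linarith only [h4]

/-- constraints of the rows `tk` -/
structure RTk (t X Y : ℝ) : Prop where
  h0 : 0 ≤ X
  h1 : X ≤ 8 / 10
  h2 : Y ≤ (0 / 100000) + (1000 / 10000) * X
  h3 : Y ≤ (8000 / 100000) + (-(1000 / 10000)) * X
  h4 : (0 / 100000) + (-(24600 / 10000)) * X ≤ Y
  h5 : (-(196800 / 100000)) + (24600 / 10000) * X ≤ Y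
  h6 : -(123 / 1000) ≤ Y
  h7 : Y ≤ 5 / 1000

/-- the same as expressions -/
def eRTk : List NumG.E :=
  [.sub (.var 0) (.var 2),
   .sub (.sub (.var 2) (.var 0)) (.q 8 10),
   .sub (.var 3) (.add (.q 0 100000) (.mul (.q 1000 10000) (.sub (.var 2) (.var 0)))),
   .sub (.var 3) (.add (.q 8000 100000) (.mul (.q (-1000) 10000) (.sub (.var 2) (.var 0)))),
   .sub (.add (.q 0 100000) (.mul (.q (-24600) 10000) (.sub (.var 2) (.var 0)))) (.var 3),
   .sub (.add (.q (-196800) 100000) (.mul (.q 24600 10000) (.sub (.var 2) (.var 0)))) (.var 3)]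

theorem RTk.neg {t X Y w : ℝ} (h : RTk t X Y) {e : NumG.E} (he : e ∈ eRTk) :
    e.val [w, t, w + X, Y] ≤ 0 := by
  obtain ⟨h0, h1, h2, h3, h4, h5, h6, h7⟩ := h
  simp only [eRTk, List.mem_cons, List.not_mem_nil, or_false] at he
  rcases he with rfl | rfl | rfl | rfl | rfl | rfl
  · simp only [NumG.E.val, NumI.lkR, add_sub_cancel_left]
    push_cast
    linarith only [h0]
  · simp only [NumG.E.val, NumI.lkR, add_sub_cancel_left]
    push_cast
    linarith only [h1]
  · simp only [NumG.E.val, NumI.lkR, add_sub_cancel_left]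
    push_cast
    linarith only [h2]
  · simp only [NumG.E.val, NumI.lkR, add_sub_cancel_left]
    push_cast
    linarith only [h3]
  · simp only [NumG.E.val, NumI.lkR, add_sub_cancel_left]
    push_cast
    linarith only [h4]
  · simp only [NumG.E.val, NumI.lkR, add_sub_cancel_left]
    push_cast
    linarith only [h5]

end L2

end TL

end Pool.Agent.Work.MP_b30479_gt.G2
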