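import Pool.Agent.Work.MP_b30479_gt.G2.TL2wAs1
import Pool.Agent.Work.MP_b30479_gt.G2.TL2wAs2

/-!
# Tails, interior three with its inner variable in the tail: the slot `2`, certificates

Variables `w`, `t`, `X`, `Y`.
-/

set_option linter.unusedVariables false
set_option linter.unusedSimpArgs false
set_option linter.unusedTactic false
set_option linter.unreachableTactic false

namespace Pool.Agent.Work.MP_b30479_gt.G2

open NumU
open NumU.E
open NumI (V)

namespace TL

namespace L2

/-- 592 boxes -/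
theorem w_one_A1 {w t X Y : ℝ}
    (a0 : 200 / 10000 ≤ w) (b0 : w ≤ 1800 / 10000)
    (a1 : 210 / 10000 ≤ t) (b1 : t ≤ 920 / 10000)
    (a2 : 0 / 10000 ≤ X) (b2 : X ≤ 7890 / 10000)
    (a3 : -(910 / 10000) ≤ Y) (b3 : Y ≤ 490 / 10000)
    (r0 : 3 / 20 * Y ≤ 49 / 1000 * X)
    (r1 : 1 / 5 * Y ≤ 49 / 1000 * (43 / 50 - X))
    (r2 : 3 / 20 * (-Y) ≤ (t + 11 / 500) * X)
    (r3 : 1 / 5 * (-Y) ≤ (t + 11 / 500) * (43 / 50 - X))
    (r4 : 3 / 20 * (-Y) ≤ 91 / 1000 * X)
    (r5 : 1 / 5 * (-Y) ≤ 91 / 1000 * (43 / 50 - X))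
    (g0 : Real.pi * ((21 / 100 - w) * Y + t * X - t) + uu (21 / 100 + X) (t + Y) - uu (21 / 100)
        t + (-uu (w + X) Y) + uu w 0 * 3 - uu (w + 4 / 5) 0 + uu (4 / 5) 0 - ((-(497 / 1000)) -
        (-(141 / 125)) * t) ≤ 0)
    (g1 : Real.pi * ((21 / 100 - w) * Y + t * X - t) + uu (21 / 100 + X) (t + Y) - uu (21 / 100)
        t + (-uu (w + X) Y) + uu w 0 * 3 - uu (w + 4 / 5) 0 + uu (4 / 5) 0 - ((-(587 / 2000)) -
        1571 / 500 * t) ≤ 0) : False := by
  have h : chkT [(.sub (.add (.sub (.add (.add (.sub (.add (.mul .pi (.sub (.add (.mul (.sub (.q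
      21 100) (.var 0)) (.var 3)) (.mul (.var 1) (.var 2))) (.var 1))) (.uu (.add (.q 21 100)
      (.var 2)) (.add (.var 1) (.var 3)))) (.uu (.q 21 100) (.var 1))) (.neg (.uu (.add (.var 0)
      (.var 2)) (.var 3)))) (.mul (.uu (.var 0) (.q 0 1)) (.q 3 1))) (.uu (.add (.var 0) (.q 4
      5)) (.q 0 1))) (.uu (.q 4 5) (.q 0 1))) (.sub (.q (-497) 1000) (.mul (.q (-141) 125) (.var
      1)))), (.sub (.add (.sub (.add (.add (.sub (.add (.mul .pi (.sub (.add (.mul (.sub (.q 21
      100) (.var 0)) (.var 3)) (.mul (.var 1) (.var 2))) (.var 1))) (.uu (.add (.q 21 100) (.var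
      2)) (.add (.var 1) (.var 3)))) (.uu (.q 21 100) (.var 1))) (.neg (.uu (.add (.var 0) (.var
      2)) (.var 3)))) (.mul (.uu (.var 0) (.q 0 1)) (.q 3 1))) (.uu (.add (.var 0) (.q 4 5)) (.q
      0 1))) (.uu (.q 4 5) (.q 0 1))) (.sub (.q (-587) 2000) (.mul (.q 1571 500) (.var 1)))),
      (.sub (.mul (.q 3 20) (.var 3)) (.mul (.q 49 1000) (.var 2))), (.sub (.mul (.q 1 5) (.var
      3)) (.mul (.q 49 1000) (.sub (.q 43 50) (.var 2)))), (.sub (.mul (.q 3 20) (.neg (.var 3)))
      (.mul (.add (.var 1) (.q 11 500)) (.var 2))), (.sub (.mul (.q 1 5) (.neg (.var 3))) (.mul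
      (.add (.var 1) (.q 11 500)) (.sub (.q 43 50) (.var 2)))), (.sub (.mul (.q 3 20) (.neg (.var
      3))) (.mul (.q 91 1000) (.var 2))), (.sub (.mul (.q 1 5) (.neg (.var 3))) (.mul (.q 91
      1000) (.sub (.q 43 50) (.var 2))))] 40
      15963204458005011893561694748345407339899445408020338531107414413550080161359328392761156589462119259776089880054510632540130994200542255017987940809763998773419635425564032054498640012630563181424728970239481769434520948423463607995478331493153040600523276405011631051921366575820167193311907291608713213469205111547233281124879243009576351556179145979241585246881801828554557617368721958339316930388353920067864418446148036255545898992469492281166173740557867231369906504646642711468262945041894717992554470689972180703092493309567768227219655312422363876681602895279402496771375590906234443125737920801645167594537356042621858373498455278908258489160914559776519897706279118043956725333081900624849608508680072279273096230597240281279642290197767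3660962523648031141354761060644266054741227145538679297533171835238021389674485223820343028609310615779114431979227270579663237216836148451314388570325987661154886290459663072819856326225918989390909645431984890074776748428913636077495073242742542882212551414498872641463710536644379489835737345249596524937026029610294110312200652483012307826857376123051587856970610071375791983448089051504530355166893922232865717525568121064072119365776215413504061875945204340526730291578996640221158029641588391366903351392318599367718890095042154388459801843298392300638915475233262960447071213188019445847586134563912781102751945542785572685333280046484960630865249641564883687653384226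
      [V.of 10000 200 1800 0, V.of 10000 210 920 0, V.of 10000 0 7890 0, V.of 10000 (-910) 490 0] = true :=
      Pool.Agent.Work.NumU.chkT_of (Pool.Agent.Work.NumU.runT_split rfl rfl rfl
        w_one_A1_p1
        (Pool.Agent.Work.NumU.runT_split rfl rfl rfl
          w_one_A1_p2
          (Pool.Agent.Work.NumU.runT_split rfl rfl rfl
            w_one_A1_p3
            (Pool.Agent.Work.NumU.runT_split rfl rfl rfl
              w_one_A1_p4
              w_one_A1_p5))))
  obtain ⟨e, he, hp⟩ := chkT4 h (by norm_num) (x := w) (y := t) (z := X) (w := Y)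
    (le_trans (by norm_num) a0) (le_trans b0 (by norm_num))
    (le_trans (by norm_num) a1) (le_trans b1 (by norm_num))
    (le_trans (by norm_num) a2) (le_trans b2 (by norm_num))
    (le_trans (by norm_num) a3) (le_trans b3 (by norm_num))
  simp only [List.mem_cons, List.not_mem_nil, or_false] at he
  rcases he with rfl | rfl | rfl | rfl | rfl | rfl | rfl | rfl
  · simp only [E.val, NumI.lkR] at hp
    push_cast at hp
    try simp only [zero_div, div_one] at hp
    linarith only [g0, hp]
  · simp only [E.val, NumI.lkR] at hp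
    push_cast at hp
    try simp only [zero_div, div_one] at hp
    linarith only [g1, hp]
  · simp only [E.val, NumI.lkR] at hp
    push_cast at hp
    try simp only [zero_div, div_one] at hp
    linarith only [r0, hp]
  · simp only [E.val, NumI.lkR] at hp
    push_cast at hp
    try simp only [zero_div, div_one] at hp
    linarith only [r1, hp]
  · simp only [E.val, NumI.lkR] at hp
    push_cast at hp
    try simp only [zero_div, div_one] at hp
    linarith only [r2, hp]
  · simp only [E.val, NumI.lkR] at hp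
    push_cast at hp
    try simp only [zero_div, div_one] at hp
    linarith only [r3, hp]
  · simp only [E.val, NumI.lkR] at hp
    push_cast at hp
    try simp only [zero_div, div_one] at hp
    linarith only [r4, hp]
  · simp only [E.val, NumI.lkR] at hp
    push_cast at hp
    try simp only [zero_div, div_one] at hp
    linarith only [r5, hp]

/-- 74 boxes -/
theorem w_one_B1 {w t X Y : ℝ}
    (a0 : 1800 / 10000 ≤ w) (b0 : w ≤ 2000 / 10000)
    (a1 : 210 / 10000 ≤ t) (b1 : t ≤ 920 / 10000)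
    (a2 : 0 / 10000 ≤ X) (b2 : X ≤ 7890 / 10000)
    (a3 : -(910 / 10000) ≤ Y) (b3 : Y ≤ 490 / 10000)
    (r0 : 3 / 20 * Y ≤ 49 / 1000 * X)
    (r1 : 1 / 5 * Y ≤ 49 / 1000 * (43 / 50 - X))
    (r2 : 3 / 20 * (-Y) ≤ (t + 11 / 500) * X)
    (r3 : 1 / 5 * (-Y) ≤ (t + 11 / 500) * (43 / 50 - X))
    (r4 : 3 / 20 * (-Y) ≤ 91 / 1000 * X)
    (r5 : 1 / 5 * (-Y) ≤ 91 / 1000 * (43 / 50 - X))
    (g0 : Real.pi * ((21 / 100 - w) * Y + t * X - t) + uu (21 / 100 + X) (t + Y) - uu (21 / 100)
        t + (-uu (w + X) Y) + uu w 0 * 3 - uu (49 / 50) 0 + uu (4 / 5) 0 - ((-(497 / 1000)) -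
        (-(141 / 125)) * t) ≤ 0)
    (g1 : Real.pi * ((21 / 100 - w) * Y + t * X - t) + uu (21 / 100 + X) (t + Y) - uu (21 / 100)
        t + (-uu (w + X) Y) + uu w 0 * 3 - uu (49 / 50) 0 + uu (4 / 5) 0 - ((-(587 / 2000)) -
        1571 / 500 * t) ≤ 0) : False := by
  have h : chkT [(.sub (.add (.sub (.add (.add (.sub (.add (.mul .pi (.sub (.add (.mul (.sub (.q
      21 100) (.var 0)) (.var 3)) (.mul (.var 1) (.var 2))) (.var 1))) (.uu (.add (.q 21 100)
      (.var 2)) (.add (.var 1) (.var 3)))) (.uu (.q 21 100) (.var 1))) (.neg (.uu (.add (.var 0)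
      (.var 2)) (.var 3)))) (.mul (.uu (.var 0) (.q 0 1)) (.q 3 1))) (.uu (.q 49 50) (.q 0 1)))
      (.uu (.q 4 5) (.q 0 1))) (.sub (.q (-497) 1000) (.mul (.q (-141) 125) (.var 1)))), (.sub
      (.add (.sub (.add (.add (.sub (.add (.mul .pi (.sub (.add (.mul (.sub (.q 21 100) (.var 0))
      (.var 3)) (.mul (.var 1) (.var 2))) (.var 1))) (.uu (.add (.q 21 100) (.var 2)) (.add (.var
      1) (.var 3)))) (.uu (.q 21 100) (.var 1))) (.neg (.uu (.add (.var 0) (.var 2)) (.var 3))))
      (.mul (.uu (.var 0) (.q 0 1)) (.q 3 1))) (.uu (.q 49 50) (.q 0 1))) (.uu (.q 4 5) (.q 0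
      1))) (.sub (.q (-587) 2000) (.mul (.q 1571 500) (.var 1)))), (.sub (.mul (.q 3 20) (.var
      3)) (.mul (.q 49 1000) (.var 2))), (.sub (.mul (.q 1 5) (.var 3)) (.mul (.q 49 1000) (.sub
      (.q 43 50) (.var 2)))), (.sub (.mul (.q 3 20) (.neg (.var 3))) (.mul (.add (.var 1) (.q 11
      500)) (.var 2))), (.sub (.mul (.q 1 5) (.neg (.var 3))) (.mul (.add (.var 1) (.q 11 500))
      (.sub (.q 43 50) (.var 2)))), (.sub (.mul (.q 3 20) (.neg (.var 3))) (.mul (.q 91 1000)
      (.var 2))), (.sub (.mul (.q 1 5) (.neg (.var 3))) (.mul (.q 91 1000) (.sub (.q 43 50) (.var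
      2))))] 40
      539064854356924352439997797930370889194225539271691920284081868091736529672626459808516584405722175846896474267986640564199366564651956674448497440118724205578396371644537451042
      [V.of 10000 1800 2000 0, V.of 10000 210 920 0, V.of 10000 0 7890 0, V.of 10000 (-910) 490
          0] = true :=
      Pool.Agent.Work.NumU.chkT_of w_one_B1_p1
  obtain ⟨e, he, hp⟩ := chkT4 h (by norm_num) (x := w) (y := t) (z := X) (w := Y)
    (le_trans (by norm_num) a0) (le_trans b0 (by norm_num))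
    (le_trans (by norm_num) a1) (le_trans b1 (by norm_num))
    (le_trans (by norm_num) a2) (le_trans b2 (by norm_num))
    (le_trans (by norm_num) a3) (le_trans b3 (by norm_num))
  simp only [List.mem_cons, List.not_mem_nil, or_false] at he
  rcases he with rfl | rfl | rfl | rfl | rfl | rfl | rfl | rfl
  · simp only [E.val, NumI.lkR] at hp
    push_cast at hp
    try simp only [zero_div, div_one] at hp
    linarith only [g0, hp]
  · simp only [E.val, NumI.lkR] at hp
    push_cast at hp
    try simp only [zero_div, div_one] at hp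
    linarith only [g1, hp]
  · simp only [E.val, NumI.lkR] at hp
    push_cast at hp
    try simp only [zero_div, div_one] at hp
    linarith only [r0, hp]
  · simp only [E.val, NumI.lkR] at hp
    push_cast at hp
    try simp only [zero_div, div_one] at hp
    linarith only [r1, hp]
  · simp only [E.val, NumI.lkR] at hp
    push_cast at hp
    try simp only [zero_div, div_one] at hp
    linarith only [r2, hp]
  · simp only [E.val, NumI.lkR] at hp
    push_cast at hp
    try simp only [zero_div, div_one] at hp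
    linarith only [r3, hp]
  · simp only [E.val, NumI.lkR] at hp
    push_cast at hp
    try simp only [zero_div, div_one] at hp
    linarith only [r4, hp]
  · simp only [E.val, NumI.lkR] at hp
    push_cast at hp
    try simp only [zero_div, div_one] at hp
    linarith only [r5, hp]

/-- 52 boxes -/
theorem w_one_C1 {w t X Y : ℝ}
    (a0 : 0 / 10000 ≤ w) (b0 : w ≤ 200 / 10000)
    (a1 : 210 / 10000 ≤ t) (b1 : t ≤ 920 / 10000)
    (a2 : 1400 / 10000 ≤ X) (b2 : X ≤ 7890 / 10000)
    (a3 : -(910 / 10000) ≤ Y) (b3 : Y ≤ 490 / 10000)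
    (r0 : 3 / 20 * Y ≤ 49 / 1000 * X)
    (r1 : 1 / 5 * Y ≤ 49 / 1000 * (43 / 50 - X))
    (r2 : 3 / 20 * (-Y) ≤ (t + 11 / 500) * X)
    (r3 : 1 / 5 * (-Y) ≤ (t + 11 / 500) * (43 / 50 - X))
    (r4 : 3 / 20 * (-Y) ≤ 91 / 1000 * X)
    (r5 : 1 / 5 * (-Y) ≤ 91 / 1000 * (43 / 50 - X))
    (g0 : Real.pi * ((21 / 100 - w) * Y + t * X - t) + uu (21 / 100 + X) (t + Y) - uu (21 / 100)
        t + (-uu (w + X) Y) + uu (1 / 50) 0 * 3 - uu (w + 4 / 5) 0 + uu (4 / 5) 0 - ((-(497 /
        1000)) - (-(141 / 125)) * t) ≤ 0)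
    (g1 : Real.pi * ((21 / 100 - w) * Y + t * X - t) + uu (21 / 100 + X) (t + Y) - uu (21 / 100)
        t + (-uu (w + X) Y) + uu (1 / 50) 0 * 3 - uu (w + 4 / 5) 0 + uu (4 / 5) 0 - ((-(587 /
        2000)) - 1571 / 500 * t) ≤ 0) : False := by
  have h : chkT [(.sub (.add (.sub (.add (.add (.sub (.add (.mul .pi (.sub (.add (.mul (.sub (.q
      21 100) (.var 0)) (.var 3)) (.mul (.var 1) (.var 2))) (.var 1))) (.uu (.add (.q 21 100)
      (.var 2)) (.add (.var 1) (.var 3)))) (.uu (.q 21 100) (.var 1))) (.neg (.uu (.add (.var 0)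
      (.var 2)) (.var 3)))) (.mul (.uu (.q 1 50) (.q 0 1)) (.q 3 1))) (.uu (.add (.var 0) (.q 4
      5)) (.q 0 1))) (.uu (.q 4 5) (.q 0 1))) (.sub (.q (-497) 1000) (.mul (.q (-141) 125) (.var
      1)))), (.sub (.add (.sub (.add (.add (.sub (.add (.mul .pi (.sub (.add (.mul (.sub (.q 21
      100) (.var 0)) (.var 3)) (.mul (.var 1) (.var 2))) (.var 1))) (.uu (.add (.q 21 100) (.var
      2)) (.add (.var 1) (.var 3)))) (.uu (.q 21 100) (.var 1))) (.neg (.uu (.add (.var 0) (.var
      2)) (.var 3)))) (.mul (.uu (.q 1 50) (.q 0 1)) (.q 3 1))) (.uu (.add (.var 0) (.q 4 5)) (.q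
      0 1))) (.uu (.q 4 5) (.q 0 1))) (.sub (.q (-587) 2000) (.mul (.q 1571 500) (.var 1)))),
      (.sub (.mul (.q 3 20) (.var 3)) (.mul (.q 49 1000) (.var 2))), (.sub (.mul (.q 1 5) (.var
      3)) (.mul (.q 49 1000) (.sub (.q 43 50) (.var 2)))), (.sub (.mul (.q 3 20) (.neg (.var 3)))
      (.mul (.add (.var 1) (.q 11 500)) (.var 2))), (.sub (.mul (.q 1 5) (.neg (.var 3))) (.mul
      (.add (.var 1) (.q 11 500)) (.sub (.q 43 50) (.var 2)))), (.sub (.mul (.q 3 20) (.neg (.var
      3))) (.mul (.q 91 1000) (.var 2))), (.sub (.mul (.q 1 5) (.neg (.var 3))) (.mul (.q 91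
      1000) (.sub (.q 43 50) (.var 2))))] 40
      5641010932546877575721755826597678422588986424444043317276177890508946182884948667699336977791005367619439192162046922885154
      [V.of 10000 0 200 0, V.of 10000 210 920 0, V.of 10000 1400 7890 0, V.of 10000 (-910) 490 0] = true :=
      Pool.Agent.Work.NumU.chkT_of w_one_C1_p1
  obtain ⟨e, he, hp⟩ := chkT4 h (by norm_num) (x := w) (y := t) (z := X) (w := Y)
    (le_trans (by norm_num) a0) (le_trans b0 (by norm_num))
    (le_trans (by norm_num) a1) (le_trans b1 (by norm_num))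
    (le_trans (by norm_num) a2) (le_trans b2 (by norm_num))
    (le_trans (by norm_num) a3) (le_trans b3 (by norm_num))
  simp only [List.mem_cons, List.not_mem_nil, or_false] at he
  rcases he with rfl | rfl | rfl | rfl | rfl | rfl | rfl | rfl
  · simp only [E.val, NumI.lkR] at hp
    push_cast at hp
    try simp only [zero_div, div_one] at hp
    linarith only [g0, hp]
  · simp only [E.val, NumI.lkR] at hp
    push_cast at hp
    try simp only [zero_div, div_one] at hp
    linarith only [g1, hp]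
  · simp only [E.val, NumI.lkR] at hp
    push_cast at hp
    try simp only [zero_div, div_one] at hp
    linarith only [r0, hp]
  · simp only [E.val, NumI.lkR] at hp
    push_cast at hp
    try simp only [zero_div, div_one] at hp
    linarith only [r1, hp]
  · simp only [E.val, NumI.lkR] at hp
    push_cast at hp
    try simp only [zero_div, div_one] at hp
    linarith only [r2, hp]
  · simp only [E.val, NumI.lkR] at hp
    push_cast at hp
    try simp only [zero_div, div_one] at hp
    linarith only [r3, hp]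
  · simp only [E.val, NumI.lkR] at hp
    push_cast at hp
    try simp only [zero_div, div_one] at hp
    linarith only [r4, hp]
  · simp only [E.val, NumI.lkR] at hp
    push_cast at hp
    try simp only [zero_div, div_one] at hp
    linarith only [r5, hp]

/-- 1 boxes -/
theorem w_one_E {w t X Y : ℝ}
    (a0 : 0 / 10000 ≤ w) (b0 : w ≤ 200 / 10000)
    (a1 : 210 / 10000 ≤ t) (b1 : t ≤ 920 / 10000)
    (a2 : 0 / 10000 ≤ X) (b2 : X ≤ 1400 / 10000)
    (a3 : -(910 / 10000) ≤ Y) (b3 : Y ≤ 490 / 10000)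
    (r0 : 3 / 20 * Y ≤ 49 / 1000 * X)
    (r1 : 1 / 5 * Y ≤ 49 / 1000 * (43 / 50 - X))
    (r2 : 3 / 20 * (-Y) ≤ (t + 11 / 500) * X)
    (r3 : 1 / 5 * (-Y) ≤ (t + 11 / 500) * (43 / 50 - X))
    (r4 : 3 / 20 * (-Y) ≤ 91 / 1000 * X)
    (r5 : 1 / 5 * (-Y) ≤ 91 / 1000 * (43 / 50 - X))
    (g0 : Real.pi * ((21 / 100 - w) * Y + t * X - t) + uu (21 / 100 + X) (t + Y) - uu (21 / 100)
        t + 0 + uu (1 / 50) 0 * 2 - uu (w + 4 / 5) 0 + uu (4 / 5) 0 - ((-(497 / 1000)) - (-(141 /
        125)) * t) ≤ 0)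
    (g1 : Real.pi * ((21 / 100 - w) * Y + t * X - t) + uu (21 / 100 + X) (t + Y) - uu (21 / 100)
        t + 0 + uu (1 / 50) 0 * 2 - uu (w + 4 / 5) 0 + uu (4 / 5) 0 - ((-(587 / 2000)) - 1571 /
        500 * t) ≤ 0) : False := by
  have h : chkT [(.sub (.add (.sub (.add (.add (.sub (.add (.mul .pi (.sub (.add (.mul (.sub (.q
      21 100) (.var 0)) (.var 3)) (.mul (.var 1) (.var 2))) (.var 1))) (.uu (.add (.q 21 100)
      (.var 2)) (.add (.var 1) (.var 3)))) (.uu (.q 21 100) (.var 1))) (.q 0 1)) (.mul (.uu (.q 1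
      50) (.q 0 1)) (.q 2 1))) (.uu (.add (.var 0) (.q 4 5)) (.q 0 1))) (.uu (.q 4 5) (.q 0 1)))
      (.sub (.q (-497) 1000) (.mul (.q (-141) 125) (.var 1)))), (.sub (.add (.sub (.add (.add
      (.sub (.add (.mul .pi (.sub (.add (.mul (.sub (.q 21 100) (.var 0)) (.var 3)) (.mul (.var
      1) (.var 2))) (.var 1))) (.uu (.add (.q 21 100) (.var 2)) (.add (.var 1) (.var 3)))) (.uu
      (.q 21 100) (.var 1))) (.q 0 1)) (.mul (.uu (.q 1 50) (.q 0 1)) (.q 2 1))) (.uu (.add (.var
      0) (.q 4 5)) (.q 0 1))) (.uu (.q 4 5) (.q 0 1))) (.sub (.q (-587) 2000) (.mul (.q 1571 500)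
      (.var 1)))), (.sub (.mul (.q 3 20) (.var 3)) (.mul (.q 49 1000) (.var 2))), (.sub (.mul (.q
      1 5) (.var 3)) (.mul (.q 49 1000) (.sub (.q 43 50) (.var 2)))), (.sub (.mul (.q 3 20) (.neg
      (.var 3))) (.mul (.add (.var 1) (.q 11 500)) (.var 2))), (.sub (.mul (.q 1 5) (.neg (.var
      3))) (.mul (.add (.var 1) (.q 11 500)) (.sub (.q 43 50) (.var 2)))), (.sub (.mul (.q 3 20)
      (.neg (.var 3))) (.mul (.q 91 1000) (.var 2))), (.sub (.mul (.q 1 5) (.neg (.var 3))) (.mul
      (.q 91 1000) (.sub (.q 43 50) (.var 2))))] 40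
      9
      [V.of 10000 0 200 0, V.of 10000 210 920 0, V.of 10000 0 1400 0, V.of 10000 (-910) 490 0] =
          true := by
    decide +kernel
  obtain ⟨e, he, hp⟩ := chkT4 h (by norm_num) (x := w) (y := t) (z := X) (w := Y)
    (le_trans (by norm_num) a0) (le_trans b0 (by norm_num))
    (le_trans (by norm_num) a1) (le_trans b1 (by norm_num))
    (le_trans (by norm_num) a2) (le_trans b2 (by norm_num))
    (le_trans (by norm_num) a3) (le_trans b3 (by norm_num))
  simp only [List.mem_cons, List.not_mem_nil, or_false] at he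
  rcases he with rfl | rfl | rfl | rfl | rfl | rfl | rfl | rfl
  · simp only [E.val, NumI.lkR] at hp
    push_cast at hp
    try simp only [zero_div, div_one] at hp
    linarith only [g0, hp]
  · simp only [E.val, NumI.lkR] at hp
    push_cast at hp
    try simp only [zero_div, div_one] at hp
    linarith only [g1, hp]
  · simp only [E.val, NumI.lkR] at hp
    push_cast at hp
    try simp only [zero_div, div_one] at hp
    linarith only [r0, hp]
  · simp only [E.val, NumI.lkR] at hp
    push_cast at hp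
    try simp only [zero_div, div_one] at hp
    linarith only [b2, b3, hp]
  · simp only [E.val, NumI.lkR] at hp
    push_cast at hp
    try simp only [zero_div, div_one] at hp
    linarith only [r2, hp]
  · simp only [E.val, NumI.lkR] at hp
    push_cast at hp
    try simp only [zero_div, div_one] at hp
    linarith only [r3, hp]
  · simp only [E.val, NumI.lkR] at hp
    push_cast at hp
    try simp only [zero_div, div_one] at hp
    linarith only [r4, hp]
  · simp only [E.val, NumI.lkR] at hp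
    push_cast at hp
    try simp only [zero_div, div_one] at hp
    linarith only [b2, r4, hp]

/-- 95 boxes -/
theorem w_one_A2 {w t X Y : ℝ}
    (a0 : 200 / 10000 ≤ w) (b0 : w ≤ 1800 / 10000)
    (a1 : 210 / 10000 ≤ t) (b1 : t ≤ 920 / 10000)
    (a2 : 7890 / 10000 ≤ X) (b2 : X ≤ 7910 / 10000)
    (a3 : -(910 / 10000) ≤ Y) (b3 : Y ≤ 490 / 10000)
    (r0 : 1 / 5 * Y ≤ 49 / 1000 * (43 / 50 - X))
    (r1 : 1 / 5 * (-Y) ≤ (t + 11 / 500) * (43 / 50 - X))
    (r2 : 1 / 5 * (-Y) ≤ 91 / 1000 * (43 / 50 - X))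
    (g0 : Real.pi * ((21 / 100 - w) * Y + t * X - t) + (uu (1 / 1000) (t + Y) + Real.pi * (t +
        Y)) - uu (21 / 100) t + (-uu (w + X) Y) + uu w 0 * 3 - uu (w + 4 / 5) 0 + uu (4 / 5) 0 -
        ((-(497 / 1000)) - (-(141 / 125)) * t) ≤ 0)
    (g1 : Real.pi * ((21 / 100 - w) * Y + t * X - t) + (uu (1 / 1000) (t + Y) - Real.pi * (t +
        Y)) - uu (21 / 100) t + (-uu (w + X) Y) + uu w 0 * 3 - uu (w + 4 / 5) 0 + uu (4 / 5) 0 -
        ((-(497 / 1000)) - (-(141 / 125)) * t) ≤ 0)
    (g2 : Real.pi * ((21 / 100 - w) * Y + t * X - t) + (uu (1 / 1000) (t + Y) + Real.pi * (t +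
        Y)) - uu (21 / 100) t + (-uu (w + X) Y) + uu w 0 * 3 - uu (w + 4 / 5) 0 + uu (4 / 5) 0 -
        ((-(587 / 2000)) - 1571 / 500 * t) ≤ 0)
    (g3 : Real.pi * ((21 / 100 - w) * Y + t * X - t) + (uu (1 / 1000) (t + Y) - Real.pi * (t +
        Y)) - uu (21 / 100) t + (-uu (w + X) Y) + uu w 0 * 3 - uu (w + 4 / 5) 0 + uu (4 / 5) 0 -
        ((-(587 / 2000)) - 1571 / 500 * t) ≤ 0) : False := by
  have h : chkT [(.sub (.add (.sub (.add (.add (.sub (.add (.mul .pi (.sub (.add (.mul (.sub (.q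
      21 100) (.var 0)) (.var 3)) (.mul (.var 1) (.var 2))) (.var 1))) (.add (.uu (.q 1 1000)
      (.add (.var 1) (.var 3))) (.mul .pi (.add (.var 1) (.var 3))))) (.uu (.q 21 100) (.var 1)))
      (.neg (.uu (.add (.var 0) (.var 2)) (.var 3)))) (.mul (.uu (.var 0) (.q 0 1)) (.q 3 1)))
      (.uu (.add (.var 0) (.q 4 5)) (.q 0 1))) (.uu (.q 4 5) (.q 0 1))) (.sub (.q (-497) 1000)
      (.mul (.q (-141) 125) (.var 1)))), (.sub (.add (.sub (.add (.add (.sub (.add (.mul .pi
      (.sub (.add (.mul (.sub (.q 21 100) (.var 0)) (.var 3)) (.mul (.var 1) (.var 2))) (.var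
      1))) (.sub (.uu (.q 1 1000) (.add (.var 1) (.var 3))) (.mul .pi (.add (.var 1) (.var 3)))))
      (.uu (.q 21 100) (.var 1))) (.neg (.uu (.add (.var 0) (.var 2)) (.var 3)))) (.mul (.uu
      (.var 0) (.q 0 1)) (.q 3 1))) (.uu (.add (.var 0) (.q 4 5)) (.q 0 1))) (.uu (.q 4 5) (.q 0
      1))) (.sub (.q (-497) 1000) (.mul (.q (-141) 125) (.var 1)))), (.sub (.add (.sub (.add
      (.add (.sub (.add (.mul .pi (.sub (.add (.mul (.sub (.q 21 100) (.var 0)) (.var 3)) (.mul
      (.var 1) (.var 2))) (.var 1))) (.add (.uu (.q 1 1000) (.add (.var 1) (.var 3))) (.mul .pi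
      (.add (.var 1) (.var 3))))) (.uu (.q 21 100) (.var 1))) (.neg (.uu (.add (.var 0) (.var 2))
      (.var 3)))) (.mul (.uu (.var 0) (.q 0 1)) (.q 3 1))) (.uu (.add (.var 0) (.q 4 5)) (.q 0
      1))) (.uu (.q 4 5) (.q 0 1))) (.sub (.q (-587) 2000) (.mul (.q 1571 500) (.var 1)))), (.sub
      (.add (.sub (.add (.add (.sub (.add (.mul .pi (.sub (.add (.mul (.sub (.q 21 100) (.var 0))
      (.var 3)) (.mul (.var 1) (.var 2))) (.var 1))) (.sub (.uu (.q 1 1000) (.add (.var 1) (.var
      3))) (.mul .pi (.add (.var 1) (.var 3))))) (.uu (.q 21 100) (.var 1))) (.neg (.uu (.add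
      (.var 0) (.var 2)) (.var 3)))) (.mul (.uu (.var 0) (.q 0 1)) (.q 3 1))) (.uu (.add (.var 0)
      (.q 4 5)) (.q 0 1))) (.uu (.q 4 5) (.q 0 1))) (.sub (.q (-587) 2000) (.mul (.q 1571 500)
      (.var 1)))), (.sub (.mul (.q 1 5) (.var 3)) (.mul (.q 49 1000) (.sub (.q 43 50) (.var
      2)))), (.sub (.mul (.q 1 5) (.neg (.var 3))) (.mul (.add (.var 1) (.q 11 500)) (.sub (.q 43
      50) (.var 2)))), (.sub (.mul (.q 1 5) (.neg (.var 3))) (.mul (.q 91 1000) (.sub (.q 43 50)
      (.var 2))))] 40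
      204649898770293895994978544941313388295680364693785917043708213014296403907056605765969105018379872182865630919744825041662631491691968974261288325019351177770097962060057569624952677191855056003748123205133711784257713558770480
      [V.of 10000 200 1800 0, V.of 10000 210 920 0, V.of 10000 7890 7910 0, V.of 10000 (-910) 490
          0] = true :=
      Pool.Agent.Work.NumU.chkT_of w_one_A2_p1
  obtain ⟨e, he, hp⟩ := chkT4 h (by norm_num) (x := w) (y := t) (z := X) (w := Y)
    (le_trans (by norm_num) a0) (le_trans b0 (by norm_num))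
    (le_trans (by norm_num) a1) (le_trans b1 (by norm_num))
    (le_trans (by norm_num) a2) (le_trans b2 (by norm_num))
    (le_trans (by norm_num) a3) (le_trans b3 (by norm_num))
  simp only [List.mem_cons, List.not_mem_nil, or_false] at he
  rcases he with rfl | rfl | rfl | rfl | rfl | rfl | rfl
  · simp only [E.val, NumI.lkR] at hp
    push_cast at hp
    try simp only [zero_div, div_one] at hp
    linarith only [g0, hp]
  · simp only [E.val, NumI.lkR] at hp
    push_cast at hp
    try simp only [zero_div, div_one] at hp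
    linarith only [g1, hp]
  · simp only [E.val, NumI.lkR] at hp
    push_cast at hp
    try simp only [zero_div, div_one] at hp
    linarith only [g2, hp]
  · simp only [E.val, NumI.lkR] at hp
    push_cast at hp
    try simp only [zero_div, div_one] at hp
    linarith only [g3, hp]
  · simp only [E.val, NumI.lkR] at hp
    push_cast at hp
    try simp only [zero_div, div_one] at hp
    linarith only [r0, hp]
  · simp only [E.val, NumI.lkR] at hp
    push_cast at hp
    try simp only [zero_div, div_one] at hp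
    linarith only [r1, hp]
  · simp only [E.val, NumI.lkR] at hp
    push_cast at hp
    try simp only [zero_div, div_one] at hp
    linarith only [r2, hp]

/-- 15 boxes -/
theorem w_one_B2 {w t X Y : ℝ}
    (a0 : 1800 / 10000 ≤ w) (b0 : w ≤ 2000 / 10000)
    (a1 : 210 / 10000 ≤ t) (b1 : t ≤ 920 / 10000)
    (a2 : 7890 / 10000 ≤ X) (b2 : X ≤ 7910 / 10000)
    (a3 : -(910 / 10000) ≤ Y) (b3 : Y ≤ 490 / 10000)
    (r0 : 1 / 5 * Y ≤ 49 / 1000 * (43 / 50 - X))
    (r1 : 1 / 5 * (-Y) ≤ (t + 11 / 500) * (43 / 50 - X))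
    (r2 : 1 / 5 * (-Y) ≤ 91 / 1000 * (43 / 50 - X))
    (g0 : Real.pi * ((21 / 100 - w) * Y + t * X - t) + (uu (1 / 1000) (t + Y) + Real.pi * (t +
        Y)) - uu (21 / 100) t + uu (1 / 25) Y + uu w 0 * 3 - uu (49 / 50) 0 + uu (4 / 5) 0 -
        ((-(497 / 1000)) - (-(141 / 125)) * t) ≤ 0)
    (g1 : Real.pi * ((21 / 100 - w) * Y + t * X - t) + (uu (1 / 1000) (t + Y) - Real.pi * (t +
        Y)) - uu (21 / 100) t + uu (1 / 25) Y + uu w 0 * 3 - uu (49 / 50) 0 + uu (4 / 5) 0 -
        ((-(497 / 1000)) - (-(141 / 125)) * t) ≤ 0)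
    (g2 : Real.pi * ((21 / 100 - w) * Y + t * X - t) + (uu (1 / 1000) (t + Y) + Real.pi * (t +
        Y)) - uu (21 / 100) t + uu (1 / 25) Y + uu w 0 * 3 - uu (49 / 50) 0 + uu (4 / 5) 0 -
        ((-(587 / 2000)) - 1571 / 500 * t) ≤ 0)
    (g3 : Real.pi * ((21 / 100 - w) * Y + t * X - t) + (uu (1 / 1000) (t + Y) - Real.pi * (t +
        Y)) - uu (21 / 100) t + uu (1 / 25) Y + uu w 0 * 3 - uu (49 / 50) 0 + uu (4 / 5) 0 -
        ((-(587 / 2000)) - 1571 / 500 * t) ≤ 0) : False := by
  have h : chkT [(.sub (.add (.sub (.add (.add (.sub (.add (.mul .pi (.sub (.add (.mul (.sub (.q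
      21 100) (.var 0)) (.var 3)) (.mul (.var 1) (.var 2))) (.var 1))) (.add (.uu (.q 1 1000)
      (.add (.var 1) (.var 3))) (.mul .pi (.add (.var 1) (.var 3))))) (.uu (.q 21 100) (.var 1)))
      (.uu (.q 1 25) (.var 3))) (.mul (.uu (.var 0) (.q 0 1)) (.q 3 1))) (.uu (.q 49 50) (.q 0
      1))) (.uu (.q 4 5) (.q 0 1))) (.sub (.q (-497) 1000) (.mul (.q (-141) 125) (.var 1)))),
      (.sub (.add (.sub (.add (.add (.sub (.add (.mul .pi (.sub (.add (.mul (.sub (.q 21 100)
      (.var 0)) (.var 3)) (.mul (.var 1) (.var 2))) (.var 1))) (.sub (.uu (.q 1 1000) (.add (.var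
      1) (.var 3))) (.mul .pi (.add (.var 1) (.var 3))))) (.uu (.q 21 100) (.var 1))) (.uu (.q 1
      25) (.var 3))) (.mul (.uu (.var 0) (.q 0 1)) (.q 3 1))) (.uu (.q 49 50) (.q 0 1))) (.uu (.q
      4 5) (.q 0 1))) (.sub (.q (-497) 1000) (.mul (.q (-141) 125) (.var 1)))), (.sub (.add (.sub
      (.add (.add (.sub (.add (.mul .pi (.sub (.add (.mul (.sub (.q 21 100) (.var 0)) (.var 3))
      (.mul (.var 1) (.var 2))) (.var 1))) (.add (.uu (.q 1 1000) (.add (.var 1) (.var 3))) (.mul
      .pi (.add (.var 1) (.var 3))))) (.uu (.q 21 100) (.var 1))) (.uu (.q 1 25) (.var 3))) (.mul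
      (.uu (.var 0) (.q 0 1)) (.q 3 1))) (.uu (.q 49 50) (.q 0 1))) (.uu (.q 4 5) (.q 0 1)))
      (.sub (.q (-587) 2000) (.mul (.q 1571 500) (.var 1)))), (.sub (.add (.sub (.add (.add (.sub
      (.add (.mul .pi (.sub (.add (.mul (.sub (.q 21 100) (.var 0)) (.var 3)) (.mul (.var 1)
      (.var 2))) (.var 1))) (.sub (.uu (.q 1 1000) (.add (.var 1) (.var 3))) (.mul .pi (.add
      (.var 1) (.var 3))))) (.uu (.q 21 100) (.var 1))) (.uu (.q 1 25) (.var 3))) (.mul (.uu
      (.var 0) (.q 0 1)) (.q 3 1))) (.uu (.q 49 50) (.q 0 1))) (.uu (.q 4 5) (.q 0 1))) (.sub (.q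
      (-587) 2000) (.mul (.q 1571 500) (.var 1)))), (.sub (.mul (.q 1 5) (.var 3)) (.mul (.q 49
      1000) (.sub (.q 43 50) (.var 2)))), (.sub (.mul (.q 1 5) (.neg (.var 3))) (.mul (.add (.var
      1) (.q 11 500)) (.sub (.q 43 50) (.var 2)))), (.sub (.mul (.q 1 5) (.neg (.var 3))) (.mul
      (.q 91 1000) (.sub (.q 43 50) (.var 2))))] 40
      44307599753908198706125267684703539
      [V.of 10000 1800 2000 0, V.of 10000 210 920 0, V.of 10000 7890 7910 0, V.of 10000 (-910)
          490 0] = true := by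
    decide +kernel
  obtain ⟨e, he, hp⟩ := chkT4 h (by norm_num) (x := w) (y := t) (z := X) (w := Y)
    (le_trans (by norm_num) a0) (le_trans b0 (by norm_num))
    (le_trans (by norm_num) a1) (le_trans b1 (by norm_num))
    (le_trans (by norm_num) a2) (le_trans b2 (by norm_num))
    (le_trans (by norm_num) a3) (le_trans b3 (by norm_num))
  simp only [List.mem_cons, List.not_mem_nil, or_false] at he
  rcases he with rfl | rfl | rfl | rfl | rfl | rfl | rfl
  · simp only [E.val, NumI.lkR] at hp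
    push_cast at hp
    try simp only [zero_div, div_one] at hp
    linarith only [g0, hp]
  · simp only [E.val, NumI.lkR] at hp
    push_cast at hp
    try simp only [zero_div, div_one] at hp
    linarith only [g1, hp]
  · simp only [E.val, NumI.lkR] at hp
    push_cast at hp
    try simp only [zero_div, div_one] at hp
    linarith only [g2, hp]
  · simp only [E.val, NumI.lkR] at hp
    push_cast at hp
    try simp only [zero_div, div_one] at hp
    linarith only [g3, hp]
  · simp only [E.val, NumI.lkR] at hp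
    push_cast at hp
    try simp only [zero_div, div_one] at hp
    linarith only [r0, hp]
  · simp only [E.val, NumI.lkR] at hp
    push_cast at hp
    try simp only [zero_div, div_one] at hp
    linarith only [r1, hp]
  · simp only [E.val, NumI.lkR] at hp
    push_cast at hp
    try simp only [zero_div, div_one] at hp
    linarith only [r2, hp]

/-- 14 boxes -/
theorem w_one_C2 {w t X Y : ℝ}
    (a0 : 0 / 10000 ≤ w) (b0 : w ≤ 200 / 10000)
    (a1 : 210 / 10000 ≤ t) (b1 : t ≤ 920 / 10000)
    (a2 : 7890 / 10000 ≤ X) (b2 : X ≤ 7910 / 10000)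
    (a3 : -(910 / 10000) ≤ Y) (b3 : Y ≤ 490 / 10000)
    (r0 : 1 / 5 * Y ≤ 49 / 1000 * (43 / 50 - X))
    (r1 : 1 / 5 * (-Y) ≤ (t + 11 / 500) * (43 / 50 - X))
    (r2 : 1 / 5 * (-Y) ≤ 91 / 1000 * (43 / 50 - X))
    (g0 : Real.pi * ((21 / 100 - w) * Y + t * X - t) + (uu (1 / 1000) (t + Y) + Real.pi * (t +
        Y)) - uu (21 / 100) t + (-uu (w + X) Y) + uu (1 / 50) 0 * 3 - uu (w + 4 / 5) 0 + uu (4 /
        5) 0 - ((-(497 / 1000)) - (-(141 / 125)) * t) ≤ 0)
    (g1 : Real.pi * ((21 / 100 - w) * Y + t * X - t) + (uu (1 / 1000) (t + Y) - Real.pi * (t +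
        Y)) - uu (21 / 100) t + (-uu (w + X) Y) + uu (1 / 50) 0 * 3 - uu (w + 4 / 5) 0 + uu (4 /
        5) 0 - ((-(497 / 1000)) - (-(141 / 125)) * t) ≤ 0)
    (g2 : Real.pi * ((21 / 100 - w) * Y + t * X - t) + (uu (1 / 1000) (t + Y) + Real.pi * (t +
        Y)) - uu (21 / 100) t + (-uu (w + X) Y) + uu (1 / 50) 0 * 3 - uu (w + 4 / 5) 0 + uu (4 /
        5) 0 - ((-(587 / 2000)) - 1571 / 500 * t) ≤ 0)
    (g3 : Real.pi * ((21 / 100 - w) * Y + t * X - t) + (uu (1 / 1000) (t + Y) - Real.pi * (t +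
        Y)) - uu (21 / 100) t + (-uu (w + X) Y) + uu (1 / 50) 0 * 3 - uu (w + 4 / 5) 0 + uu (4 /
        5) 0 - ((-(587 / 2000)) - 1571 / 500 * t) ≤ 0) : False := by
  have h : chkT [(.sub (.add (.sub (.add (.add (.sub (.add (.mul .pi (.sub (.add (.mul (.sub (.q
      21 100) (.var 0)) (.var 3)) (.mul (.var 1) (.var 2))) (.var 1))) (.add (.uu (.q 1 1000)
      (.add (.var 1) (.var 3))) (.mul .pi (.add (.var 1) (.var 3))))) (.uu (.q 21 100) (.var 1)))
      (.neg (.uu (.add (.var 0) (.var 2)) (.var 3)))) (.mul (.uu (.q 1 50) (.q 0 1)) (.q 3 1)))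
      (.uu (.add (.var 0) (.q 4 5)) (.q 0 1))) (.uu (.q 4 5) (.q 0 1))) (.sub (.q (-497) 1000)
      (.mul (.q (-141) 125) (.var 1)))), (.sub (.add (.sub (.add (.add (.sub (.add (.mul .pi
      (.sub (.add (.mul (.sub (.q 21 100) (.var 0)) (.var 3)) (.mul (.var 1) (.var 2))) (.var
      1))) (.sub (.uu (.q 1 1000) (.add (.var 1) (.var 3))) (.mul .pi (.add (.var 1) (.var 3)))))
      (.uu (.q 21 100) (.var 1))) (.neg (.uu (.add (.var 0) (.var 2)) (.var 3)))) (.mul (.uu (.q
      1 50) (.q 0 1)) (.q 3 1))) (.uu (.add (.var 0) (.q 4 5)) (.q 0 1))) (.uu (.q 4 5) (.q 0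
      1))) (.sub (.q (-497) 1000) (.mul (.q (-141) 125) (.var 1)))), (.sub (.add (.sub (.add
      (.add (.sub (.add (.mul .pi (.sub (.add (.mul (.sub (.q 21 100) (.var 0)) (.var 3)) (.mul
      (.var 1) (.var 2))) (.var 1))) (.add (.uu (.q 1 1000) (.add (.var 1) (.var 3))) (.mul .pi
      (.add (.var 1) (.var 3))))) (.uu (.q 21 100) (.var 1))) (.neg (.uu (.add (.var 0) (.var 2))
      (.var 3)))) (.mul (.uu (.q 1 50) (.q 0 1)) (.q 3 1))) (.uu (.add (.var 0) (.q 4 5)) (.q 0
      1))) (.uu (.q 4 5) (.q 0 1))) (.sub (.q (-587) 2000) (.mul (.q 1571 500) (.var 1)))), (.sub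
      (.add (.sub (.add (.add (.sub (.add (.mul .pi (.sub (.add (.mul (.sub (.q 21 100) (.var 0))
      (.var 3)) (.mul (.var 1) (.var 2))) (.var 1))) (.sub (.uu (.q 1 1000) (.add (.var 1) (.var
      3))) (.mul .pi (.add (.var 1) (.var 3))))) (.uu (.q 21 100) (.var 1))) (.neg (.uu (.add
      (.var 0) (.var 2)) (.var 3)))) (.mul (.uu (.q 1 50) (.q 0 1)) (.q 3 1))) (.uu (.add (.var
      0) (.q 4 5)) (.q 0 1))) (.uu (.q 4 5) (.q 0 1))) (.sub (.q (-587) 2000) (.mul (.q 1571 500)
      (.var 1)))), (.sub (.mul (.q 1 5) (.var 3)) (.mul (.q 49 1000) (.sub (.q 43 50) (.var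
      2)))), (.sub (.mul (.q 1 5) (.neg (.var 3))) (.mul (.add (.var 1) (.q 11 500)) (.sub (.q 43
      50) (.var 2)))), (.sub (.mul (.q 1 5) (.neg (.var 3))) (.mul (.q 91 1000) (.sub (.q 43 50)
      (.var 2))))] 40
      173076561538703901195753530211635
      [V.of 10000 0 200 0, V.of 10000 210 920 0, V.of 10000 7890 7910 0, V.of 10000 (-910) 490 0]
          = true := by
    decide +kernel
  obtain ⟨e, he, hp⟩ := chkT4 h (by norm_num) (x := w) (y := t) (z := X) (w := Y)
    (le_trans (by norm_num) a0) (le_trans b0 (by norm_num))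
    (le_trans (by norm_num) a1) (le_trans b1 (by norm_num))
    (le_trans (by norm_num) a2) (le_trans b2 (by norm_num))
    (le_trans (by norm_num) a3) (le_trans b3 (by norm_num))
  simp only [List.mem_cons, List.not_mem_nil, or_false] at he
  rcases he with rfl | rfl | rfl | rfl | rfl | rfl | rfl
  · simp only [E.val, NumI.lkR] at hp
    push_cast at hp
    try simp only [zero_div, div_one] at hp
    linarith only [g0, hp]
  · simp only [E.val, NumI.lkR] at hp
    push_cast at hp
    try simp only [zero_div, div_one] at hp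
    linarith only [g1, hp]
  · simp only [E.val, NumI.lkR] at hp
    push_cast at hp
    try simp only [zero_div, div_one] at hp
    linarith only [g2, hp]
  · simp only [E.val, NumI.lkR] at hp
    push_cast at hp
    try simp only [zero_div, div_one] at hp
    linarith only [g3, hp]
  · simp only [E.val, NumI.lkR] at hp
    push_cast at hp
    try simp only [zero_div, div_one] at hp
    linarith only [r0, hp]
  · simp only [E.val, NumI.lkR] at hp
    push_cast at hp
    try simp only [zero_div, div_one] at hp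
    linarith only [r1, hp]
  · simp only [E.val, NumI.lkR] at hp
    push_cast at hp
    try simp only [zero_div, div_one] at hp
    linarith only [r2, hp]

end L2

end TL

end Pool.Agent.Work.MP_b30479_gt.G2
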