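import Pool.Agent.Work.MP_b30479_gt.G2.TL3B
import Pool.Agent.Work.MP_b30479_gt.G2.TL3C
import Pool.Agent.Work.MP_b30479_gt.G2.TL3D
import Pool.Agent.Work.MP_b30479_gt.G2.TL1b
import Pool.Agent.Work.MP_b30479_gt.G2.TE4
import Pool.Agent.Work.MP_b30479_gt.G2.TK4

/-!
# Tails: a region with three crossings at an end whose inner variable is in the tail
-/

namespace Pool.Agent.Work.MP_b30479_gt.G2

open VOL SR
open Pool.Agent.Work.NumG (E chkF chkF4)
open NumU (uu UU_uu uu_one_sub)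

namespace TL

namespace L3

variable {u l m τ X Y Z T θ c v η σ ρ : ℝ}

/-! ### the old value -/

/-- `uu u + uu (.77 - u)` -/
noncomputable def pp (u : ℝ) : ℝ := uu u 0 + uu (77 / 100 - u) 0

theorem P4_val (xs : List ℝ) : P4.val xs = -(4 / 100) := by
  simp only [P4, E.c, E.val]
  norm_num

theorem Pp_val (u y z w : ℝ) : Pp.val [u, y, z, w] = pp u := by
  simp only [Pp, u0, E.c, E.val, NumI.lkR, pp]
  norm_num

theorem P_lo (hl : 77 / 100 ≤ l) (hl1 : l ≤ 1) (hu : 0 ≤ u) (hu1 : u ≤ 60 / 100) :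
    (u ≤ 1 / 10 → -(4 / 100) ≤ uu u 0 + uu (l - u) 0) ∧
      (1 / 10 ≤ u → pp u ≤ uu u 0 + uu (l - u) 0) := by
  have hz : u ≤ 1 / 10 → -(4 / 100) < pp u := fun h => by
    obtain ⟨e, he, hp⟩ := chkF4 rPz (by norm_num) (x := u) (y := 0) (z := 0) (w := 0)
      (by norm_num; linarith only [hu]) (by norm_num; linarith only [h]) (by norm_num) (by norm_num) (by norm_num)
      (by norm_num) (by norm_num) (by norm_num)
    simp only [List.mem_cons, List.not_mem_nil, or_false] at he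
    subst he
    have e1 : (E.sub Pp P4).val [u, 0, 0, 0] = Pp.val [u, 0, 0, 0] - P4.val [u, 0, 0, 0] := rfl
    rw [e1, Pp_val, P4_val] at hp
    linarith only [hp]
  have hn : 1 / 10 ≤ u → u ≤ 167 / 1000 → pp u < 0 := fun h h' => by
    obtain ⟨e, he, hp⟩ := chkF4 rPn (by norm_num) (x := u) (y := 0) (z := 0) (w := 0)
      (by norm_num; linarith only [h]) (by norm_num; linarith only [h']) (by norm_num) (by norm_num) (by norm_num)
      (by norm_num) (by norm_num) (by norm_num)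
    simp only [List.mem_cons, List.not_mem_nil, or_false] at he
    subst he
    have e1 : (E.neg Pp).val [u, 0, 0, 0] = -Pp.val [u, 0, 0, 0] := rfl
    rw [e1, Pp_val] at hp
    linarith only [hp]
  rcases le_total (l - u) (5 / 6) with h | h
  · have h1 := uu_real_mono (a := 77 / 100 - u) (b := l - u) (by linarith only [hu1]) (by linarith only [hl]) h
    have e : pp u ≤ uu u 0 + uu (l - u) 0 := by
      unfold pp
      linarith only [h1]
    exact ⟨fun h1 => (hz h1).le.trans e, fun _ => e⟩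
  · have h3 := uu_one_sub (l - u) 0
    have h4 := uu_real_anti (a := u) (b := 1 - (l - u)) hu (by linarith only [hl1]) (by linarith only [h])
    have e : 0 ≤ uu u 0 + uu (l - u) 0 := by linarith only [h3, h4]
    exact ⟨fun _ => by linarith only [h3, h4], fun h1 => by
      have := hn h1 (by linarith only [hl1, h])
      linarith only [h3, h4, this]⟩

theorem pp_lo (hu : 1 / 10 ≤ u) (hu1 : u ≤ 60 / 100) : -(16 / 100) < pp u := by
  obtain ⟨e, he, hp⟩ := chkF4 rM1 (by norm_num) (x := u) (y := 0) (z := 0) (w := 0)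
    (by norm_num; linarith only [hu]) (by norm_num; linarith only [hu1]) (by norm_num) (by norm_num) (by norm_num)
    (by norm_num) (by norm_num) (by norm_num)
  simp only [List.mem_cons, List.not_mem_nil, or_false] at he
  subst he
  have e1 : (E.add Pp (E.c 1600)).val [u, 0, 0, 0] = Pp.val [u, 0, 0, 0] +
    (E.c 1600).val [u, 0, 0, 0] := rfl
  rw [e1, Pp_val] at hp
  simp only [E.c, E.val] at hp
  push_cast at hp
  linarith only [hp]

/-! ### values -/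

theorem V3_real (u l : ℝ) : V3 ⟨u, 0⟩ ⟨l, 0⟩ 0 = -uu (l - u) 0 - uu u 0 := by
  unfold V3
  simp only [sub_zero, add_zero]
  rw [UU_zero, UU_uu, UU_uu, UU_uu]
  simp only [Complex.add_im, Complex.sub_im, Complex.sub_re, pow_two, Complex.mul_im,
    Complex.mul_re, Complex.re_ofNat, Complex.im_ofNat]
  ring_nf

theorem V1_d (c τ w X Y : ℝ) : V1 ⟨c, τ⟩ ⟨X, Y⟩ - V1 ⟨w, 0⟩ ⟨X, Y⟩ =
    uu w 0 + uu (c + X) (τ + Y) - uu (w + X) Y - uu c τ +
      Real.pi * ((c - w) * Y + τ * (X - 1)) := by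
  unfold V1
  simp only [UU_uu, Complex.add_re, Complex.add_im, Complex.sub_im, Complex.mul_im]
  rw [zero_add]
  ring

theorem lin_val (a b : ℤ) (t : E) (xs : List ℝ) :
    (lin a b t).val xs = (a : ℝ) / 10000 + (b : ℝ) / 10000 * t.val xs := by
  simp only [lin, E.c, E.val]
  push_cast
  ring

theorem N0_val (cc cd : E) (τ m z w : ℝ) : (N0 cc cd).val [τ, m, z, w] =
    V3 ⟨cc.val [τ, m, z, w], -τ⟩ ⟨cd.val [τ, m, z, w], m⟩ 0 := by
  unfold N0
  rw [E.V3e_val]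
  rfl

theorem N1_of {cc cd : E} {a b : ℤ}
    (hp : 0 < (E.sub (N1 cc cd) (lin a b u0)).val [τ, m, 0, 0])
    (hc : cc.val [τ, m, 0, 0] = c) (hv : cd.val [τ, m, 0, 0] = v) :
    (a : ℝ) / 10000 + (b : ℝ) / 10000 * τ < V3 ⟨c, -τ⟩ ⟨v, m⟩ 0 - uu c τ := by
  have e : (E.sub (N1 cc cd) (lin a b u0)).val [τ, m, 0, 0] = (N0 cc cd).val [τ, m, 0, 0] -
    uu (cc.val [τ, m, 0, 0]) τ - (lin a b u0).val [τ, m, 0, 0] := rfl
  rw [e, N0_val, lin_val, hc, hv] at hp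
  have e2 : u0.val [τ, m, 0, 0] = τ := rfl
  rw [e2] at hp
  linarith only [hp]

theorem N2_of {cc cd : E} {a b : ℤ}
    (hp : 0 < (E.sub (N2 cc cd) (lin a b u0)).val [τ, m, 0, 0])
    (hc : cc.val [τ, m, 0, 0] = c) (hv : cd.val [τ, m, 0, 0] = v) :
    (a : ℝ) / 10000 + (b : ℝ) / 10000 * τ < V3 ⟨c, -τ⟩ ⟨v, m⟩ 0 - 2 * uu c τ := by
  have e : (E.sub (N2 cc cd) (lin a b u0)).val [τ, m, 0, 0] = (N0 cc cd).val [τ, m, 0, 0] -
    ((2 : ℤ) : ℝ) / ((1 : ℕ) : ℝ) * uu (cc.val [τ, m, 0, 0]) τ -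
      (lin a b u0).val [τ, m, 0, 0] := rfl
  rw [e, N0_val, lin_val, hc, hv] at hp
  have e2 : u0.val [τ, m, 0, 0] = τ := rfl
  rw [e2] at hp
  push_cast at hp
  linarith only [hp]

theorem N23 (t0 : 10 / 1000 ≤ τ) (t1 : τ ≤ 78 / 1000)
    (m0 : -(45 / 1000) ≤ m) (m1 : m ≤ 59 / 1000) :
    ((4485 : ℤ) : ℝ) / 10000 + ((17300 : ℤ) : ℝ) / 10000 * τ <
      V3 ⟨23 / 100, -τ⟩ ⟨23 / 100 + 13 / 100, m⟩ 0 - uu (23 / 100) τ := by
  obtain ⟨e, he, hp⟩ := chkF4 rN23 (by norm_num) (x := τ) (y := m) (z := 0) (w := 0)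
    (by norm_num; linarith only [t0]) (by norm_num; linarith only [t1]) (by norm_num; linarith only [m0])
    (by norm_num; linarith only [m1]) (by norm_num) (by norm_num) (by norm_num) (by norm_num)
  simp only [List.mem_cons, List.not_mem_nil, or_false] at he
  subst he
  refine N1_of hp ?_ ?_
  · simp only [E.c, E.val]
    norm_num
  · simp only [E.c, E.val]
    norm_num

theorem N27 (t0 : 10 / 1000 ≤ τ) (t1 : τ ≤ 78 / 1000)
    (m0 : -(45 / 1000) ≤ m) (m1 : m ≤ 59 / 1000) :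
    ((4078 : ℤ) : ℝ) / 10000 + ((20260 : ℤ) : ℝ) / 10000 * τ <
      V3 ⟨27 / 100, -τ⟩ ⟨27 / 100 + 13 / 100, m⟩ 0 - uu (27 / 100) τ := by
  obtain ⟨e, he, hp⟩ := chkF4 rN27 (by norm_num) (x := τ) (y := m) (z := 0) (w := 0)
    (by norm_num; linarith only [t0]) (by norm_num; linarith only [t1]) (by norm_num; linarith only [m0])
    (by norm_num; linarith only [m1]) (by norm_num) (by norm_num) (by norm_num) (by norm_num)
  simp only [List.mem_cons, List.not_mem_nil, or_false] at he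
  subst he
  refine N1_of hp ?_ ?_
  · simp only [E.c, E.val]
    norm_num
  · simp only [E.c, E.val]
    norm_num

theorem N25 (t0 : -(13 / 1000) ≤ τ) (t1 : τ ≤ 26 / 1000)
    (m0 : -(45 / 1000) ≤ m) (m1 : m ≤ 59 / 1000) :
    ((5760 : ℤ) : ℝ) / 10000 + ((17570 : ℤ) : ℝ) / 10000 * τ <
      V3 ⟨1 / 4, -τ⟩ ⟨1 / 4 + 1 / 6, m⟩ 0 - 2 * uu (1 / 4) τ := by
  obtain ⟨e, he, hp⟩ := chkF4 rN25 (by norm_num) (x := τ) (y := m) (z := 0) (w := 0)
    (by norm_num; linarith only [t0]) (by norm_num; linarith only [t1]) (by norm_num; linarith only [m0])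
    (by norm_num; linarith only [m1]) (by norm_num) (by norm_num) (by norm_num) (by norm_num)
  simp only [List.mem_cons, List.not_mem_nil, or_false] at he
  subst he
  refine N2_of hp ?_ ?_
  · simp only [E.c, E.val]
    norm_num
  · simp only [cd6, E.c, E.val]
    norm_num

theorem N22 (t0 : 65 / 1000 ≤ τ) (t1 : τ ≤ 69 / 1000)
    (m0 : -(45 / 1000) ≤ m) (m1 : m ≤ 59 / 1000) :
    ((4435 : ℤ) : ℝ) / 10000 + ((20410 : ℤ) : ℝ) / 10000 * τ <
      V3 ⟨11 / 50, -τ⟩ ⟨11 / 50 + 1 / 6, m⟩ 0 - uu (11 / 50) τ := by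
  obtain ⟨e, he, hp⟩ := chkF4 rN22 (by norm_num) (x := τ) (y := m) (z := 0) (w := 0)
    (by norm_num; linarith only [t0]) (by norm_num; linarith only [t1]) (by norm_num; linarith only [m0])
    (by norm_num; linarith only [m1]) (by norm_num) (by norm_num) (by norm_num) (by norm_num)
  simp only [List.mem_cons, List.not_mem_nil, or_false] at he
  subst he
  refine N1_of hp ?_ ?_
  · simp only [E.c, E.val]
    norm_num
  · simp only [cd6, E.c, E.val]
    norm_num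

theorem N2a (t0 : -(28 / 1000) ≤ τ) (t1 : τ ≤ -(5 / 1000))
    (m0 : -(45 / 1000) ≤ m) (m1 : m ≤ 59 / 1000) :
    ((4625 : ℤ) : ℝ) / 10000 + ((12280 : ℤ) : ℝ) / 10000 * τ <
      V3 ⟨11 / 50, -τ⟩ ⟨11 / 50 + 13 / 100, m⟩ 0 - uu (11 / 50) τ := by
  obtain ⟨e, he, hp⟩ := chkF4 rN2a (by norm_num) (x := τ) (y := m) (z := 0) (w := 0)
    (by norm_num; linarith only [t0]) (by norm_num; linarith only [t1]) (by norm_num; linarith only [m0])
    (by norm_num; linarith only [m1]) (by norm_num) (by norm_num) (by norm_num) (by norm_num)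
  simp only [List.mem_cons, List.not_mem_nil, or_false] at he
  subst he
  refine N1_of hp ?_ ?_
  · simp only [E.c, E.val]
    norm_num
  · simp only [E.c, E.val]
    norm_num

theorem N18 (t0 : -(28 / 1000) ≤ τ) (t1 : τ ≤ -(5 / 1000))
    (m0 : -(45 / 1000) ≤ m) (m1 : m ≤ 59 / 1000) :
    ((6425 : ℤ) : ℝ) / 10000 + ((9950 : ℤ) : ℝ) / 10000 * τ <
      V3 ⟨9 / 50, -τ⟩ ⟨9 / 50 + 1 / 6, m⟩ 0 - 2 * uu (9 / 50) τ := by
  obtain ⟨e, he, hp⟩ := chkF4 rN18 (by norm_num) (x := τ) (y := m) (z := 0) (w := 0)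
    (by norm_num; linarith only [t0]) (by norm_num; linarith only [t1]) (by norm_num; linarith only [m0])
    (by norm_num; linarith only [m1]) (by norm_num) (by norm_num) (by norm_num) (by norm_num)
  simp only [List.mem_cons, List.not_mem_nil, or_false] at he
  subst he
  refine N2_of hp ?_ ?_
  · simp only [E.c, E.val]
    norm_num
  · simp only [cd6, E.c, E.val]
    norm_num

theorem N1r (t0 : -(58 / 1000) ≤ τ) (t1 : τ ≤ -(18 / 1000))
    (m0 : -(45 / 1000) ≤ m) (m1 : m ≤ 59 / 1000) :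
    ((6315 : ℤ) : ℝ) / 10000 + ((5890 : ℤ) : ℝ) / 10000 * τ <
      V3 ⟨9 / 50, -τ⟩ ⟨9 / 50 + 1 / 6, m⟩ 0 - 2 * uu (9 / 50) τ := by
  obtain ⟨e, he, hp⟩ := chkF4 rN1r (by norm_num) (x := τ) (y := m) (z := 0) (w := 0)
    (by norm_num; linarith only [t0]) (by norm_num; linarith only [t1]) (by norm_num; linarith only [m0])
    (by norm_num; linarith only [m1]) (by norm_num) (by norm_num) (by norm_num) (by norm_num)
  simp only [List.mem_cons, List.not_mem_nil, or_false] at he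
  subst he
  refine N2_of hp ?_ ?_
  · simp only [E.c, E.val]
    norm_num
  · simp only [cd6, E.c, E.val]
    norm_num

theorem N20 (t0 : -(58 / 1000) ≤ τ) (t1 : τ ≤ 78 / 1000)
    (m0 : -(45 / 1000) ≤ m) (m1 : m ≤ 59 / 1000) :
    ((3080 : ℤ) : ℝ) / 10000 + ((16120 : ℤ) : ℝ) / 10000 * τ <
      V3 ⟨1 / 5, -τ⟩ ⟨1 / 5 + 1 / 6, m⟩ 0 := by
  obtain ⟨e, he, hp⟩ := chkF4 rN20 (by norm_num) (x := τ) (y := m) (z := 0) (w := 0)
    (by norm_num; linarith only [t0]) (by norm_num; linarith only [t1]) (by norm_num; linarith only [m0])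
    (by norm_num; linarith only [m1]) (by norm_num) (by norm_num) (by norm_num) (by norm_num)
  simp only [List.mem_cons, List.not_mem_nil, or_false] at he
  subst he
  have e : (E.sub (N0 (E.c 2000) (cd6 2000)) (lin 3080 16120 u0)).val [τ, m, 0, 0] =
    (N0 (E.c 2000) (cd6 2000)).val [τ, m, 0, 0] - (lin 3080 16120 u0).val [τ, m, 0, 0] := rfl
  rw [e, N0_val, lin_val] at hp
  have e1 : (E.c 2000).val [τ, m, 0, 0] = 1 / 5 := by
    simp only [E.c, E.val]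
    norm_num
  have e2 : (cd6 2000).val [τ, m, 0, 0] = 1 / 5 + 1 / 6 := by
    simp only [cd6, E.c, E.val]
    norm_num
  have e3 : u0.val [τ, m, 0, 0] = τ := rfl
  rw [e1, e2, e3] at hp
  linarith only [hp]

theorem N2e (t0 : -(1 / 1000) ≤ τ) (t1 : τ ≤ 1 / 1000) (m0 : -(45 / 1000) ≤ m)
    (m1 : m ≤ 59 / 1000) : 3030 / 10000 < V3 ⟨11 / 50, -τ⟩ ⟨11 / 50 + 1 / 6, m⟩ 0 := by
  obtain ⟨e, he, hp⟩ := chkF4 rN2e (by norm_num) (x := τ) (y := m) (z := 0) (w := 0)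
    (by norm_num; linarith only [t0]) (by norm_num; linarith only [t1]) (by norm_num; linarith only [m0])
    (by norm_num; linarith only [m1]) (by norm_num) (by norm_num) (by norm_num) (by norm_num)
  simp only [List.mem_cons, List.not_mem_nil, or_false] at he
  subst he
  have e : (E.sub (N0 (E.c 2200) (cd6 2200)) (E.c 3030)).val [τ, m, 0, 0] =
    (N0 (E.c 2200) (cd6 2200)).val [τ, m, 0, 0] - (E.c 3030).val [τ, m, 0, 0] := rfl
  rw [e, N0_val] at hp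
  have e1 : (E.c 2200).val [τ, m, 0, 0] = 11 / 50 := by
    simp only [E.c, E.val]
    norm_num
  have e2 : (cd6 2200).val [τ, m, 0, 0] = 11 / 50 + 1 / 6 := by
    simp only [cd6, E.c, E.val]
    norm_num
  have e3 : (E.c 3030).val [τ, m, 0, 0] = 3030 / 10000 := by
    simp only [E.c, E.val]
    norm_num
  rw [e1, e2, e3] at hp
  linarith only [hp]

/-! ### a digit `1` behind the hinge -/

theorem OneE_val (cc P Xe Ye : E) (a b : ℤ) {p q : ℝ} (hc : cc.val [u, τ, p, q] = c)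
    (hX : Xe.val [u, τ, p, q] = X) (hY : Ye.val [u, τ, p, q] = Y) :
    (OneE cc a b P Xe Ye).val [u, τ, p, q] = (a : ℝ) / 10000 + (b : ℝ) / 10000 * τ +
      P.val [u, τ, p, q] + (uu u 0 + uu (c + X) (τ + Y) - uu (u + X) Y) +
        Real.pi * ((c - u) * Y + τ * (X - 1)) := by
  have e : (OneE cc a b P Xe Ye).val [u, τ, p, q] = (lin a b t1).val [u, τ, p, q] +
      P.val [u, τ, p, q] + (uu u (((0 : ℤ) : ℝ) / ((10000 : ℕ) : ℝ)) +
      uu (cc.val [u, τ, p, q] + Xe.val [u, τ, p, q]) (τ + Ye.val [u, τ, p, q]) -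
      uu (u + Xe.val [u, τ, p, q]) (Ye.val [u, τ, p, q]) +
      Real.pi * ((cc.val [u, τ, p, q] - u) * Ye.val [u, τ, p, q] +
        τ * (Xe.val [u, τ, p, q] - ((1 : ℤ) : ℝ) / ((1 : ℕ) : ℝ)))) := rfl
  have e2 : t1.val [u, τ, p, q] = τ := rfl
  rw [e, hc, hX, hY, lin_val, e2]
  push_cast
  rw [zero_div]
  ring

theorem one_fin {a b P0 : ℝ} (hN : a + b * τ < V3 ⟨c, -τ⟩ ⟨v, m⟩ 0 - uu c τ)
    (hP : P0 ≤ uu u 0 + uu (l - u) 0)
    (hM : 0 < a + b * τ + P0 + (uu u 0 + uu (c + X) (τ + Y) - uu (u + X) Y) +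
      Real.pi * ((c - u) * Y + τ * (X - 1))) :
    0 < V3 ⟨c, -τ⟩ ⟨v, m⟩ 0 - V3 ⟨u, 0⟩ ⟨l, 0⟩ 0 +
      (V1 ⟨c, τ⟩ ⟨X, Y⟩ - V1 ⟨u, 0⟩ ⟨X, Y⟩) := by
  rw [V3_real, V1_d]
  linarith only [hN, hP, hM]

/-- the height as a multiple of the ramp function -/
theorem theta {M a b : ℝ} (ha : 0 < a) (hb : 0 < b) (h0 : 0 ≤ X) (h1 : X ≤ M)
    (h : (0 ≤ Y ∧ Y ≤ T ∧ a * Y ≤ T * X ∧ b * Y ≤ T * (M - X)) ∨
      (Y ≤ 0 ∧ T ≤ Y ∧ T * X ≤ a * Y ∧ T * (M - X) ≤ b * Y)) :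
    ∃ θ, Y = θ * tr 0 M a b X ∧ ((0 ≤ θ ∧ θ ≤ T) ∨ (T ≤ θ ∧ θ ≤ 0)) := by
  have e : tr 0 M a b X = min 1 (min (X / a) ((M - X) / b)) := by
    unfold tr
    rw [sub_zero]
    exact max_eq_right (le_min zero_le_one
      (le_min (div_nonneg h0 ha.le) (div_nonneg (by linarith only [h1]) hb.le)))
  have r0 : 0 ≤ tr 0 M a b X := le_max_left _ _
  have key : ∀ {T Y : ℝ}, Y ≤ T → a * Y ≤ T * X → b * Y ≤ T * (M - X) → Y ≤ T * tr 0 M a b X := by
    intro T Y k1 k2 k3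
    rw [e]
    rcases min_choice 1 (min (X / a) ((M - X) / b)) with h2 | h2
    · rw [h2, mul_one]
      exact k1
    rcases min_choice (X / a) ((M - X) / b) with h3 | h3
    · rw [h2, h3, ← mul_div_assoc, le_div_iff₀ ha]
      linarith only [k2]
    · rw [h2, h3, ← mul_div_assoc, le_div_iff₀ hb]
      linarith only [k3]
  rcases h with ⟨k0, k1, k2, k3⟩ | ⟨k0, k1, k2, k3⟩
  · have h4 := key k1 k2 k3
    rcases eq_or_lt_of_le r0 with h5 | h5
    · rw [← h5, mul_zero] at h4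
      exact ⟨0, by linarith only [k0, h4], Or.inl ⟨le_rfl, by linarith only [k0, k1]⟩⟩
    · refine ⟨Y / tr 0 M a b X, ?_, Or.inl ⟨div_nonneg k0 r0, ?_⟩⟩
      · rw [div_mul_cancel₀ _ h5.ne']
      · rw [div_le_iff₀ h5]
        exact h4
  · have h4 := key (T := -T) (Y := -Y) (by linarith only [k1]) (by linarith only [k2]) (by linarith only [k3])
    rcases eq_or_lt_of_le r0 with h5 | h5
    · rw [← h5, mul_zero] at h4
      exact ⟨0, by linarith only [k0, h4], Or.inr ⟨by linarith only [k0, k1], le_rfl⟩⟩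
    · refine ⟨Y / tr 0 M a b X, ?_, Or.inr ⟨?_, div_nonpos_of_nonpos_of_nonneg k0 r0⟩⟩
      · rw [div_mul_cancel₀ _ h5.ne']
      · rw [le_div_iff₀ h5]
        linarith only [h4]

theorem sU_val (s : ℤ) (u τ X θ : ℝ) : (sU s).val [u, τ, X, θ] = θ - ((s : ℝ) / 1000 - τ) := by
  simp only [sU, y3, t1, E.val, NumI.lkR]
  push_cast
  ring

theorem sD_val (s : ℤ) (u τ X θ : ℝ) : (sD s).val [u, τ, X, θ] = (s : ℝ) / 1000 - τ - θ := by
  simp only [sD, y3, t1, E.val, NumI.lkR]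
  push_cast
  ring

theorem one_case {XM : ℤ} {cl cr : ℕ} (h1 : 0 < cl) (h2 : 0 < cr) (h3 : (cl : ℤ) + cr ≤ XM)
    (hl : 77 / 100 ≤ l) (hl1 : l ≤ 1) (hu : 0 ≤ u) (hu1 : u ≤ 60 / 100)
    (t0 : 10 / 1000 ≤ τ) (t1 : τ ≤ 78 / 1000) (m0 : -(45 / 1000) ≤ m) (m1 : m ≤ 59 / 1000)
    (hY : Y = θ * tr 0 ((XM : ℝ) / 1000) ((cl : ℝ) / 1000) ((cr : ℝ) / 1000) X)
    (k0 : u ≤ 1 / 10 → 0 < (oneR (E.c 2300) 4485 17300 P4 XM cl cr).val [u, τ, X, θ])
    (k1 : 1 / 10 ≤ u → u ≤ 3 / 10 →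
      0 < (oneR (E.c 2300) 4485 17300 Pp XM cl cr).val [u, τ, X, θ])
    (k2 : 3 / 10 ≤ u → 0 < (oneR (E.c 2700) 4078 20260 Pp XM cl cr).val [u, τ, X, θ]) :
    0 < V3 ⟨cU .one u, -τ⟩ ⟨cU .one u + dE .one, m⟩ 0 - V3 ⟨u, 0⟩ ⟨l, 0⟩ 0 +
      (V1 ⟨cU .one u, τ⟩ ⟨X, Y⟩ - V1 ⟨u, 0⟩ ⟨X, Y⟩) := by
  obtain ⟨p0, p1⟩ := P_lo hl hl1 hu hu1
  have vY : (E.mul y3 (E.tr XM cl cr x2)).val [u, τ, X, θ] = Y := by
    have e : (E.mul y3 (E.tr XM cl cr x2)).val [u, τ, X, θ] =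
      θ * (E.tr XM cl cr x2).val [u, τ, X, θ] := rfl
    rw [e, E.tr_val h1 h2 h3, hY]
    rfl
  have v1 : (E.c 2300).val [u, τ, X, θ] = 23 / 100 := by
    simp only [E.c, E.val]
    norm_num
  have v2 : (E.c 2700).val [u, τ, X, θ] = 27 / 100 := by
    simp only [E.c, E.val]
    norm_num
  unfold oneR at k0 k1 k2
  rcases lt_or_ge u (3 / 10) with h | h
  · have e1 : cU .one u = 23 / 100 := by
      simp only [cU]
      rw [if_pos h]
    have e2 : dE .one = 13 / 100 := rfl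
    rw [e1, e2]
    rcases le_total u (1 / 10) with h' | h'
    · have k := k0 h'
      rw [OneE_val _ _ _ _ _ _ v1 rfl vY, P4_val] at k
      exact one_fin (N23 t0 t1 m0 m1) (p0 h') k
    · have k := k1 h' h.le
      rw [OneE_val _ _ _ _ _ _ v1 rfl vY, Pp_val] at k
      exact one_fin (N23 t0 t1 m0 m1) (p1 h') k
  · have e1 : cU .one u = 27 / 100 := by
      simp only [cU]
      rw [if_neg (not_lt.2 h)]
    have e2 : dE .one = 13 / 100 := rfl
    rw [e1, e2]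
    have k := k2 h
    rw [OneE_val _ _ _ _ _ _ v2 rfl vY, Pp_val] at k
    exact one_fin (N27 t0 t1 m0 m1) (p1 (by linarith only [h])) k

theorem A0d (hu : 0 ≤ u) (hu1 : u ≤ 1 / 10) (a0 : 10 / 1000 ≤ τ) (a1 : τ ≤ 58 / 1000)
    (X0 : 0 ≤ X) (X1 : X ≤ 1 / 2) (b0 : -(61 / 1000) ≤ θ) (b1 : θ ≤ 65 / 1000)
    (c0 : θ ≤ 101 / 1000 - τ) (c1 : -(11 / 1000) - τ ≤ θ) :
    0 < (oneR (E.c 2300) 4485 17300 P4 860 150 200).val [u, τ, X, θ] := by
  obtain ⟨e, he, hp⟩ := chkF4 rA0d (by norm_num) (x := u) (y := τ) (z := X) (w := θ)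
    (by norm_num; linarith only [hu]) (by norm_num; linarith only [hu1]) (by norm_num; linarith only [a0])
    (by norm_num; linarith only [a1]) (by norm_num; linarith only [X0]) (by norm_num; linarith only [X1])
    (by norm_num; linarith only [b0]) (by norm_num; linarith only [b1])
  simp only [List.mem_cons, List.not_mem_nil, or_false] at he
  rcases he with rfl | rfl | rfl
  · exact hp
  · rw [sU_val] at hp
    push_cast at hp
    linarith only [c0, hp]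
  · rw [sD_val] at hp
    push_cast at hp
    linarith only [c1, hp]

theorem A0e (hu : 0 ≤ u) (hu1 : u ≤ 1 / 10) (a0 : 10 / 1000 ≤ τ) (a1 : τ ≤ 58 / 1000)
    (X0 : 1 / 2 ≤ X) (X1 : X ≤ 86 / 100) (b0 : -(61 / 1000) ≤ θ) (b1 : θ ≤ 65 / 1000)
    (c0 : θ ≤ 101 / 1000 - τ) (c1 : -(11 / 1000) - τ ≤ θ) :
    0 < (oneR (E.c 2300) 4485 17300 P4 860 150 200).val [u, τ, X, θ] := by
  obtain ⟨e, he, hp⟩ := chkF4 rA0e (by norm_num) (x := u) (y := τ) (z := X) (w := θ)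
    (by norm_num; linarith only [hu]) (by norm_num; linarith only [hu1]) (by norm_num; linarith only [a0])
    (by norm_num; linarith only [a1]) (by norm_num; linarith only [X0]) (by norm_num; linarith only [X1])
    (by norm_num; linarith only [b0]) (by norm_num; linarith only [b1])
  simp only [List.mem_cons, List.not_mem_nil, or_false] at he
  rcases he with rfl | rfl | rfl
  · exact hp
  · rw [sU_val] at hp
    push_cast at hp
    linarith only [c0, hp]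
  · rw [sD_val] at hp
    push_cast at hp
    linarith only [c1, hp]

theorem A1 (hu : 1 / 10 ≤ u) (hu1 : u ≤ 3 / 10) (a0 : 10 / 1000 ≤ τ) (a1 : τ ≤ 58 / 1000)
    (X0 : 0 ≤ X) (X1 : X ≤ 86 / 100) (b0 : -(61 / 1000) ≤ θ) (b1 : θ ≤ 65 / 1000)
    (c0 : θ ≤ 101 / 1000 - τ) (c1 : -(11 / 1000) - τ ≤ θ) :
    0 < (oneR (E.c 2300) 4485 17300 Pp 860 150 200).val [u, τ, X, θ] := by
  obtain ⟨e, he, hp⟩ := chkF4 rA1 (by norm_num) (x := u) (y := τ) (z := X) (w := θ)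
    (by norm_num; linarith only [hu]) (by norm_num; linarith only [hu1]) (by norm_num; linarith only [a0])
    (by norm_num; linarith only [a1]) (by norm_num; linarith only [X0]) (by norm_num; linarith only [X1])
    (by norm_num; linarith only [b0]) (by norm_num; linarith only [b1])
  simp only [List.mem_cons, List.not_mem_nil, or_false] at he
  rcases he with rfl | rfl | rfl
  · exact hp
  · rw [sU_val] at hp
    push_cast at hp
    linarith only [c0, hp]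
  · rw [sD_val] at hp
    push_cast at hp
    linarith only [c1, hp]

theorem A2 (hu : 3 / 10 ≤ u) (hu1 : u ≤ 60 / 100) (a0 : 10 / 1000 ≤ τ) (a1 : τ ≤ 58 / 1000)
    (X0 : 0 ≤ X) (X1 : X ≤ 86 / 100) (b0 : -(61 / 1000) ≤ θ) (b1 : θ ≤ 65 / 1000)
    (c0 : θ ≤ 101 / 1000 - τ) (c1 : -(11 / 1000) - τ ≤ θ) :
    0 < (oneR (E.c 2700) 4078 20260 Pp 860 150 200).val [u, τ, X, θ] := by
  obtain ⟨e, he, hp⟩ := chkF4 rA2 (by norm_num) (x := u) (y := τ) (z := X) (w := θ)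
    (by norm_num; linarith only [hu]) (by norm_num; linarith only [hu1]) (by norm_num; linarith only [a0])
    (by norm_num; linarith only [a1]) (by norm_num; linarith only [X0]) (by norm_num; linarith only [X1])
    (by norm_num; linarith only [b0]) (by norm_num; linarith only [b1])
  simp only [List.mem_cons, List.not_mem_nil, or_false] at he
  rcases he with rfl | rfl | rfl
  · exact hp
  · rw [sU_val] at hp
    push_cast at hp
    linarith only [c0, hp]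
  · rw [sD_val] at hp
    push_cast at hp
    linarith only [c1, hp]

theorem B0 (hu : 0 ≤ u) (hu1 : u ≤ 1 / 10) (a0 : 30 / 1000 ≤ τ) (a1 : τ ≤ 59 / 1000)
    (X0 : 0 ≤ X) (X1 : X ≤ 80 / 100) (b0 : 0 ≤ θ) (b1 : θ ≤ 91 / 1000)
    (c0 : θ ≤ 134 / 1000 - τ) :
    0 < (oneR (E.c 2300) 4485 17300 P4 800 160 290).val [u, τ, X, θ] := by
  obtain ⟨e, he, hp⟩ := chkF4 rB0 (by norm_num) (x := u) (y := τ) (z := X) (w := θ)
    (by norm_num; linarith only [hu]) (by norm_num; linarith only [hu1]) (by norm_num; linarith only [a0])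
    (by norm_num; linarith only [a1]) (by norm_num; linarith only [X0]) (by norm_num; linarith only [X1])
    (by norm_num; linarith only [b0]) (by norm_num; linarith only [b1])
  simp only [List.mem_cons, List.not_mem_nil, or_false] at he
  rcases he with rfl | rfl
  · exact hp
  · rw [sU_val] at hp
    push_cast at hp
    linarith only [c0, hp]

theorem B1 (hu : 1 / 10 ≤ u) (hu1 : u ≤ 3 / 10) (a0 : 30 / 1000 ≤ τ) (a1 : τ ≤ 59 / 1000)
    (X0 : 0 ≤ X) (X1 : X ≤ 80 / 100) (b0 : 0 ≤ θ) (b1 : θ ≤ 91 / 1000)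
    (c0 : θ ≤ 134 / 1000 - τ) :
    0 < (oneR (E.c 2300) 4485 17300 Pp 800 160 290).val [u, τ, X, θ] := by
  obtain ⟨e, he, hp⟩ := chkF4 rB1 (by norm_num) (x := u) (y := τ) (z := X) (w := θ)
    (by norm_num; linarith only [hu]) (by norm_num; linarith only [hu1]) (by norm_num; linarith only [a0])
    (by norm_num; linarith only [a1]) (by norm_num; linarith only [X0]) (by norm_num; linarith only [X1])
    (by norm_num; linarith only [b0]) (by norm_num; linarith only [b1])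
  simp only [List.mem_cons, List.not_mem_nil, or_false] at he
  rcases he with rfl | rfl
  · exact hp
  · rw [sU_val] at hp
    push_cast at hp
    linarith only [c0, hp]

theorem B2 (hu : 3 / 10 ≤ u) (hu1 : u ≤ 60 / 100) (a0 : 30 / 1000 ≤ τ) (a1 : τ ≤ 59 / 1000)
    (X0 : 0 ≤ X) (X1 : X ≤ 80 / 100) (b0 : 0 ≤ θ) (b1 : θ ≤ 91 / 1000)
    (c0 : θ ≤ 134 / 1000 - τ) :
    0 < (oneR (E.c 2700) 4078 20260 Pp 800 160 290).val [u, τ, X, θ] := by
  obtain ⟨e, he, hp⟩ := chkF4 rB2 (by norm_num) (x := u) (y := τ) (z := X) (w := θ)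
    (by norm_num; linarith only [hu]) (by norm_num; linarith only [hu1]) (by norm_num; linarith only [a0])
    (by norm_num; linarith only [a1]) (by norm_num; linarith only [X0]) (by norm_num; linarith only [X1])
    (by norm_num; linarith only [b0]) (by norm_num; linarith only [b1])
  simp only [List.mem_cons, List.not_mem_nil, or_false] at he
  rcases he with rfl | rfl
  · exact hp
  · rw [sU_val] at hp
    push_cast at hp
    linarith only [c0, hp]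

theorem C0 (hu : 0 ≤ u) (hu1 : u ≤ 1 / 10) (a0 : 69 / 1000 ≤ τ) (a1 : τ ≤ 78 / 1000)
    (X0 : 8 / 100 ≤ X) (X1 : X ≤ 70 / 100) (b0 : -(24 / 1000) ≤ θ) (b1 : θ ≤ 0)
    (c1 : 51 / 1000 - τ ≤ θ) :
    0 < (oneR (E.c 2300) 4485 17300 P4 700 140 350).val [u, τ, X, θ] := by
  obtain ⟨e, he, hp⟩ := chkF4 rC0 (by norm_num) (x := u) (y := τ) (z := X) (w := θ)
    (by norm_num; linarith only [hu]) (by norm_num; linarith only [hu1]) (by norm_num; linarith only [a0])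
    (by norm_num; linarith only [a1]) (by norm_num; linarith only [X0]) (by norm_num; linarith only [X1])
    (by norm_num; linarith only [b0]) (by norm_num; linarith only [b1])
  simp only [List.mem_cons, List.not_mem_nil, or_false] at he
  rcases he with rfl | rfl
  · exact hp
  · rw [sD_val] at hp
    push_cast at hp
    linarith only [c1, hp]

theorem C1 (hu : 1 / 10 ≤ u) (hu1 : u ≤ 3 / 10) (a0 : 69 / 1000 ≤ τ) (a1 : τ ≤ 78 / 1000)
    (X0 : 8 / 100 ≤ X) (X1 : X ≤ 70 / 100) (b0 : -(24 / 1000) ≤ θ) (b1 : θ ≤ 0)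
    (c1 : 51 / 1000 - τ ≤ θ) :
    0 < (oneR (E.c 2300) 4485 17300 Pp 700 140 350).val [u, τ, X, θ] := by
  obtain ⟨e, he, hp⟩ := chkF4 rC1 (by norm_num) (x := u) (y := τ) (z := X) (w := θ)
    (by norm_num; linarith only [hu]) (by norm_num; linarith only [hu1]) (by norm_num; linarith only [a0])
    (by norm_num; linarith only [a1]) (by norm_num; linarith only [X0]) (by norm_num; linarith only [X1])
    (by norm_num; linarith only [b0]) (by norm_num; linarith only [b1])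
  simp only [List.mem_cons, List.not_mem_nil, or_false] at he
  rcases he with rfl | rfl
  · exact hp
  · rw [sD_val] at hp
    push_cast at hp
    linarith only [c1, hp]

theorem C2 (hu : 3 / 10 ≤ u) (hu1 : u ≤ 60 / 100) (a0 : 69 / 1000 ≤ τ) (a1 : τ ≤ 78 / 1000)
    (X0 : 8 / 100 ≤ X) (X1 : X ≤ 70 / 100) (b0 : -(24 / 1000) ≤ θ) (b1 : θ ≤ 0)
    (c1 : 51 / 1000 - τ ≤ θ) :
    0 < (oneR (E.c 2700) 4078 20260 Pp 700 140 350).val [u, τ, X, θ] := by
  obtain ⟨e, he, hp⟩ := chkF4 rC2 (by norm_num) (x := u) (y := τ) (z := X) (w := θ)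
    (by norm_num; linarith only [hu]) (by norm_num; linarith only [hu1]) (by norm_num; linarith only [a0])
    (by norm_num; linarith only [a1]) (by norm_num; linarith only [X0]) (by norm_num; linarith only [X1])
    (by norm_num; linarith only [b0]) (by norm_num; linarith only [b1])
  simp only [List.mem_cons, List.not_mem_nil, or_false] at he
  rcases he with rfl | rfl
  · exact hp
  · rw [sD_val] at hp
    push_cast at hp
    linarith only [c1, hp]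

/-- a digit `1` behind the hinge -/
theorem case_one {D : Cl} (hl : 77 / 100 ≤ l) (hl1 : l ≤ 1) (hu : 0 ≤ u) (hu1 : u ≤ 60 / 100)
    (m0 : -(45 / 1000) ≤ m) (m1 : m ≤ 59 / 1000)
    (h0 : (cw D .threeE).t0 ≤ τ) (h1 : τ ≤ (cw D .threeE).t1) (hb : ¬ (big .threeE ∧ big D))
    (hR : RgO .threeE D τ X Y) (hX : D = .twoE → 8 / 100 ≤ X) :
    0 < V3 ⟨cU .one u, -τ⟩ ⟨cU .one u + dE .one, m⟩ 0 - V3 ⟨u, 0⟩ ⟨l, 0⟩ 0 +
      (V1 ⟨cU .one u, τ⟩ ⟨X, Y⟩ - V1 ⟨u, 0⟩ ⟨X, Y⟩) := by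
  obtain ⟨x0, x1, T, T0, T1, s0, s1, hT⟩ := hR
  cases D
  · simp only [cw, pM, pa, pb, if_neg (show ¬ Cl.threeE = Cl.one by decide)] at *
    obtain ⟨θ, hY, ht⟩ := theta (by norm_num) (by norm_num) x0 x1 hT
    have b0 : -(61 / 1000) ≤ θ := by rcases ht with ⟨t1, t2⟩ | ⟨t1, t2⟩ <;> linarith only [t1, T0]
    have b1 : θ ≤ 65 / 1000 := by rcases ht with ⟨t1, t2⟩ | ⟨t1, t2⟩ <;> linarith only [T1, t2]
    have c0 : θ ≤ 101 / 1000 - τ := by rcases ht with ⟨t1, t2⟩ | ⟨t1, t2⟩ <;> linarith only [s1, t2, h1]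
    have c1 : -(11 / 1000) - τ ≤ θ := by rcases ht with ⟨t1, t2⟩ | ⟨t1, t2⟩ <;> linarith only [h0, t1, s0]
    refine one_case (XM := 860) (cl := 150) (cr := 200) (θ := θ) (by norm_num) (by norm_num)
      (by norm_num) hl hl1 hu hu1 (by linarith only [h0]) (by linarith only [h1]) m0 m1 ?_ (fun h => ?_)
      (fun h h' => A1 h h' h0 h1 x0 x1 b0 b1 c0 c1) (fun h => A2 h hu1 h0 h1 x0 x1 b0 b1 c0 c1)
    · rw [hY]
      norm_num
    · rcases le_total X (1 / 2) with h2 | h2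
      · exact A0d hu h h0 h1 x0 h2 b0 b1 c0 c1
      · exact A0e hu h h0 h1 h2 x1 b0 b1 c0 c1
  · simp only [cw, pM, pa, pb] at *
    obtain ⟨θ, hY, ht⟩ := theta (by norm_num) (by norm_num) x0 x1 hT
    have b0 : 0 ≤ θ := by rcases ht with ⟨t1, t2⟩ | ⟨t1, t2⟩ <;> linarith only [t1, T0, t2]
    have b1 : θ ≤ 91 / 1000 := by rcases ht with ⟨t1, t2⟩ | ⟨t1, t2⟩ <;> linarith only [T1, t2, T0, t1]
    have c0 : θ ≤ 134 / 1000 - τ := by rcases ht with ⟨t1, t2⟩ | ⟨t1, t2⟩ <;> linarith only [s1, t2, T0, t1]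
    refine one_case (XM := 800) (cl := 160) (cr := 290) (θ := θ) (by norm_num) (by norm_num)
      (by norm_num) hl hl1 hu hu1 (by linarith only [h0]) (by linarith only [h1]) m0 m1 ?_
      (fun h => B0 hu h h0 h1 x0 x1 b0 b1 c0)
      (fun h h' => B1 h h' h0 h1 x0 x1 b0 b1 c0) (fun h => B2 h hu1 h0 h1 x0 x1 b0 b1 c0)
    rw [hY]
    norm_num
  · have hX' := hX rfl
    simp only [cw, pM, pa, pb] at *
    obtain ⟨θ, hY, ht⟩ := theta (by norm_num) (by norm_num) x0 x1 hT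
    have b0 : -(24 / 1000) ≤ θ := by rcases ht with ⟨t1, t2⟩ | ⟨t1, t2⟩ <;> linarith only [T1, t1, t2, T0]
    have b1 : θ ≤ 0 := by rcases ht with ⟨t1, t2⟩ | ⟨t1, t2⟩ <;> linarith only [T1, t1, t2]
    have c1 : 51 / 1000 - τ ≤ θ := by rcases ht with ⟨t1, t2⟩ | ⟨t1, t2⟩ <;> linarith only [T1, t1, t2, s0]
    refine one_case (XM := 700) (cl := 140) (cr := 350) (θ := θ) (by norm_num) (by norm_num)
      (by norm_num) hl hl1 hu hu1 (by linarith only [h0]) (by linarith only [h1]) m0 m1 ?_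
      (fun h => C0 hu h h0 h1 hX' x1 b0 b1 c1)
      (fun h h' => C1 h h' h0 h1 hX' x1 b0 b1 c1) (fun h => C2 h hu1 h0 h1 hX' x1 b0 b1 c1)
    rw [hY]
    norm_num
  · exact absurd ⟨Or.inr (Or.inl rfl), Or.inl rfl⟩ hb
  · exact absurd ⟨Or.inr (Or.inl rfl), Or.inr (Or.inl rfl)⟩ hb
  · exact absurd ⟨Or.inr (Or.inl rfl), Or.inr (Or.inr rfl)⟩ hb

/-! ### a digit `2` behind the hinge, slot `2` of a region with three crossings -/

theorem TwoE_val (cc P : E) (a b : ℤ) (hc : cc.val [u, τ, X, Y] = c) :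
    (TwoE cc a b P).val [u, τ, X, Y] = (a : ℝ) / 10000 + (b : ℝ) / 10000 * τ +
      P.val [u, τ, X, Y] + (uu (c + X) (τ + Y) + 2 * uu u 0 - uu (u + X) Y) -
        Real.pi * ((c - X) * (τ - Y) + 1 / 2 * τ + (u - X) * Y) := by
  have e : (TwoE cc a b P).val [u, τ, X, Y] = (lin a b t1).val [u, τ, X, Y] +
      P.val [u, τ, X, Y] + (uu (cc.val [u, τ, X, Y] + X) (τ + Y) +
      (((2 : ℤ) : ℝ) / ((1 : ℕ) : ℝ) * uu u (((0 : ℤ) : ℝ) / ((10000 : ℕ) : ℝ)) - uu (u + X) Y) -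
      Real.pi * ((cc.val [u, τ, X, Y] - X) * (τ - Y) + ((1 : ℤ) : ℝ) / ((2 : ℕ) : ℝ) * τ +
        (u - X) * Y)) := rfl
  have e2 : t1.val [u, τ, X, Y] = τ := rfl
  rw [e, hc, lin_val, e2]
  push_cast
  rw [zero_div]
  ring

theorem two_fin {a b P0 : ℝ} (hN : a + b * τ < V3 ⟨c, -τ⟩ ⟨v, m⟩ 0 - 2 * uu c τ)
    (hP : P0 ≤ uu u 0 + uu (l - u) 0)
    (hM : 0 < a + b * τ + P0 + (uu (c + X) (τ + Y) + 2 * uu u 0 - uu (u + X) Y) -
      Real.pi * ((c - X) * (τ - Y) + 1 / 2 * τ + (u - X) * Y)) :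
    0 < V3 ⟨c, -τ⟩ ⟨v, m⟩ 0 - V3 ⟨u, 0⟩ ⟨l, 0⟩ 0 +
      (V2 ⟨c, τ⟩ ⟨X, Y⟩ - V2 ⟨u, 0⟩ ⟨X, Y⟩) := by
  rw [V3_real, V2_diff]
  linarith only [hN, hP, hM]

theorem pr_val (n : ℤ) (d : ℕ) (e : E) (xs : List ℝ) : (pr n d e).val xs = (n : ℝ) / d * e.val xs :=
  rfl

theorem rgD_val (u τ : ℝ) (hR : RgD X Y) : ∀ e ∈ rgD, ¬ 0 < e.val [u, τ, X, Y] := by
  obtain ⟨g1, g2, g3, g4, g5, g6, g7, g8⟩ := hR
  intro e he hp
  simp only [rgD, List.mem_cons, List.not_mem_nil, or_false] at he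
  rcases he with rfl | rfl | rfl | rfl <;>
  · simp only [pr, x2, y3, E.c, E.val, NumI.lkR] at hp
    push_cast at hp
    linarith only [g3, hp, g5, g6, g8]

theorem rgF_val (u τ : ℝ) (hR : RgF X Y) : ∀ e ∈ rgF, ¬ 0 < e.val [u, τ, X, Y] := by
  obtain ⟨g1, g2, g3, g4⟩ := hR
  intro e he hp
  simp only [rgF, List.mem_cons, List.not_mem_nil, or_false] at he
  rcases he with rfl | rfl <;>
  · simp only [pr, x2, y3, E.val, NumI.lkR] at hp
    push_cast at hp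
    linarith only [g3, hp, g4]

theorem rgL_val (u τ : ℝ) (hR : RgL X Y) : ∀ e ∈ rgL, ¬ 0 < e.val [u, τ, X, Y] := by
  obtain ⟨g1, g2, g3, g4, g5, g6⟩ := hR
  intro e he hp
  simp only [rgL, List.mem_cons, List.not_mem_nil, or_false] at he
  rcases he with rfl | rfl <;>
  · simp only [pr, x2, y3, E.val, NumI.lkR] at hp
    push_cast at hp
    linarith only [g4, hp, g6]

theorem rgK_val (u τ : ℝ) (hR : RgK X Y) : ∀ e ∈ rgK, ¬ 0 < e.val [u, τ, X, Y] := by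
  obtain ⟨g1, g2, g3, g4, g5, g6, g7, g8⟩ := hR
  intro e he hp
  simp only [rgK, List.mem_cons, List.not_mem_nil, or_false] at he
  rcases he with rfl | rfl | rfl | rfl <;>
  · simp only [pr, x2, y3, E.val, NumI.lkR] at hp
    push_cast at hp
    linarith only [g4, hp, g5, g7, g8]

theorem Da (hu : 0 ≤ u) (hu1 : u ≤ 1 / 10) (a0 : -(13 / 1000) ≤ τ) (a1 : τ ≤ 26 / 1000)
    (hR : RgD X Y) :
    0 < (TwoE (E.c 2500) 5760 17570 P4).val [u, τ, X, Y] := by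
  have hR0 := hR
  obtain ⟨g1, g2, g3, g4, g5, g6, g7, g8⟩ := hR
  obtain ⟨e, he, hp⟩ := chkF4 rD0 (by norm_num) (x := u) (y := τ) (z := X) (w := Y)
    (by norm_num; linarith only [hu]) (by norm_num; linarith only [hu1]) (by norm_num; linarith only [a0])
    (by norm_num; linarith only [a1]) (by norm_num; linarith only [g1]) (by norm_num; linarith only [g2])
    (by norm_num; linarith only [g7]) (by norm_num; linarith only [g4])
  rcases List.mem_cons.1 he with rfl | he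
  · exact hp
  · exact absurd hp (rgD_val u τ hR0 e he)

theorem Db (hu : 1 / 10 ≤ u) (hu1 : u ≤ 60 / 100) (a0 : -(13 / 1000) ≤ τ) (a1 : τ ≤ 26 / 1000)
    (hR : RgD X Y) :
    0 < (TwoE (E.c 2500) 5760 17570 Pp).val [u, τ, X, Y] := by
  have hR0 := hR
  obtain ⟨g1, g2, g3, g4, g5, g6, g7, g8⟩ := hR
  obtain ⟨e, he, hp⟩ := chkF4 rD1 (by norm_num) (x := u) (y := τ) (z := X) (w := Y)
    (by norm_num; linarith only [hu]) (by norm_num; linarith only [hu1]) (by norm_num; linarith only [a0])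
    (by norm_num; linarith only [a1]) (by norm_num; linarith only [g1]) (by norm_num; linarith only [g2])
    (by norm_num; linarith only [g7]) (by norm_num; linarith only [g4])
  rcases List.mem_cons.1 he with rfl | he
  · exact hp
  · exact absurd hp (rgD_val u τ hR0 e he)

theorem F1 (hu : 27 / 100 ≤ u) (hu1 : u ≤ 60 / 100) (a0 : -(13 / 1000) ≤ τ) (a1 : τ ≤ 26 / 1000)
    (hR : RgF X Y) :
    0 < (TwoE (E.c 2500) 5760 17570 Pp).val [u, τ, X, Y] := by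
  have hR0 := hR
  obtain ⟨g1, g2, g3, g4⟩ := hR
  obtain ⟨e, he, hp⟩ := chkF4 rE1 (by norm_num) (x := u) (y := τ) (z := X) (w := Y)
    (by norm_num; linarith only [hu]) (by norm_num; linarith only [hu1]) (by norm_num; linarith only [a0])
    (by norm_num; linarith only [a1]) (by norm_num; linarith only [g1]) (by norm_num; linarith only [g2])
    (by norm_num; linarith only [g1, g4]) (by norm_num; linarith only [g1, g3])
  rcases List.mem_cons.1 he with rfl | he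
  · exact hp
  · exact absurd hp (rgF_val u τ hR0 e he)

theorem K0 (hu : 0 ≤ u) (hu1 : u ≤ 1 / 10) (a0 : -(28 / 1000) ≤ τ) (a1 : τ ≤ -(5 / 1000))
    (hR : RgK X Y) :
    0 < (TwoE (E.c 1800) 6425 9950 P4).val [u, τ, X, Y] := by
  have hR0 := hR
  obtain ⟨g1, g2, g3, g4, g5, g6, g7, g8⟩ := hR
  obtain ⟨e, he, hp⟩ := chkF4 rK0 (by norm_num) (x := u) (y := τ) (z := X) (w := Y)
    (by norm_num; linarith only [hu]) (by norm_num; linarith only [hu1]) (by norm_num; linarith only [a0])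
    (by norm_num; linarith only [a1]) (by norm_num; linarith only [g1]) (by norm_num; linarith only [g2])
    (by norm_num; linarith only [g6]) (by norm_num; linarith only [g3])
  rcases List.mem_cons.1 he with rfl | he
  · exact hp
  · exact absurd hp (rgK_val u τ hR0 e he)

theorem K1 (hu : 1 / 10 ≤ u) (hu1 : u ≤ 60 / 100) (a0 : -(28 / 1000) ≤ τ) (a1 : τ ≤ -(5 / 1000))
    (hR : RgK X Y) :
    0 < (TwoE (E.c 1800) 6425 9950 Pp).val [u, τ, X, Y] := by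
  have hR0 := hR
  obtain ⟨g1, g2, g3, g4, g5, g6, g7, g8⟩ := hR
  obtain ⟨e, he, hp⟩ := chkF4 rK1 (by norm_num) (x := u) (y := τ) (z := X) (w := Y)
    (by norm_num; linarith only [hu]) (by norm_num; linarith only [hu1]) (by norm_num; linarith only [a0])
    (by norm_num; linarith only [a1]) (by norm_num; linarith only [g1]) (by norm_num; linarith only [g2])
    (by norm_num; linarith only [g6]) (by norm_num; linarith only [g3])
  rcases List.mem_cons.1 he with rfl | he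
  · exact hp
  · exact absurd hp (rgK_val u τ hR0 e he)

theorem H0 (hu : 0 ≤ u) (hu1 : u ≤ 1 / 10) (a0 : -(28 / 1000) ≤ τ) (a1 : τ ≤ -(5 / 1000))
    (hR : RgL X Y) :
    0 < (aE P4).val [u, τ, X, Y] := by
  have hR0 := hR
  obtain ⟨g1, g2, g3, g4, g5, g6⟩ := hR
  obtain ⟨e, he, hp⟩ := chkF4 rH0 (by norm_num) (x := u) (y := τ) (z := X) (w := Y)
    (by norm_num; linarith only [hu]) (by norm_num; linarith only [hu1]) (by norm_num; linarith only [a0])
    (by norm_num; linarith only [a1]) (by norm_num; linarith only [g1]) (by norm_num; linarith only [g2])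
    (by norm_num; linarith only [g5]) (by norm_num; linarith only [g3])
  rcases List.mem_cons.1 he with rfl | he
  · exact hp
  · exact absurd hp (rgL_val u τ hR0 e he)

theorem H1 (hu : 1 / 10 ≤ u) (hu1 : u ≤ 60 / 100) (a0 : -(28 / 1000) ≤ τ) (a1 : τ ≤ -(5 / 1000))
    (hR : RgL X Y) :
    0 < (aE Pp).val [u, τ, X, Y] := by
  have hR0 := hR
  obtain ⟨g1, g2, g3, g4, g5, g6⟩ := hR
  obtain ⟨e, he, hp⟩ := chkF4 rH1 (by norm_num) (x := u) (y := τ) (z := X) (w := Y)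
    (by norm_num; linarith only [hu]) (by norm_num; linarith only [hu1]) (by norm_num; linarith only [a0])
    (by norm_num; linarith only [a1]) (by norm_num; linarith only [g1]) (by norm_num; linarith only [g2])
    (by norm_num; linarith only [g5]) (by norm_num; linarith only [g3])
  rcases List.mem_cons.1 he with rfl | he
  · exact hp
  · exact absurd hp (rgL_val u τ hR0 e he)

theorem case_two (hl : 77 / 100 ≤ l) (hl1 : l ≤ 1) (hu : 0 ≤ u) (hu1 : u ≤ 60 / 100)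
    (m0 : -(45 / 1000) ≤ m) (m1 : m ≤ 59 / 1000) (a0 : -(13 / 1000) ≤ τ) (a1 : τ ≤ 26 / 1000)
    (hR : RgD X Y ∨ (27 / 100 ≤ u ∧ RgF X Y)) :
    0 < V3 ⟨1 / 4, -τ⟩ ⟨1 / 4 + 1 / 6, m⟩ 0 - V3 ⟨u, 0⟩ ⟨l, 0⟩ 0 +
      (V2 ⟨1 / 4, τ⟩ ⟨X, Y⟩ - V2 ⟨u, 0⟩ ⟨X, Y⟩) := by
  obtain ⟨p0, p1⟩ := P_lo hl hl1 hu hu1
  have v1 : (E.c 2500).val [u, τ, X, Y] = 1 / 4 := by
    simp only [E.c, E.val]
    norm_num
  rcases le_total u (1 / 10) with h | h
  · have hR' : RgD X Y := by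
      rcases hR with hR | ⟨h1, -⟩
      · exact hR
      · linarith only [h, h1]
    have k := Da hu h a0 a1 hR'
    rw [TwoE_val _ _ _ _ v1, P4_val] at k
    exact two_fin (N25 a0 a1 m0 m1) (p0 h) k
  · have k : 0 < (TwoE (E.c 2500) 5760 17570 Pp).val [u, τ, X, Y] := by
      rcases hR with hR | ⟨h1, hR⟩
      · exact Db h hu1 a0 a1 hR
      · exact F1 h1 hu1 a0 a1 hR
    rw [TwoE_val _ _ _ _ v1, Pp_val] at k
    exact two_fin (N25 a0 a1 m0 m1) (p1 h) k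

theorem case_threeK (hl : 77 / 100 ≤ l) (hl1 : l ≤ 1) (hu : 0 ≤ u) (hu1 : u ≤ 60 / 100)
    (m0 : -(45 / 1000) ≤ m) (m1 : m ≤ 59 / 1000) (a0 : -(28 / 1000) ≤ τ) (a1 : τ ≤ -(5 / 1000))
    (hR : RgK X Y) :
    0 < V3 ⟨9 / 50, -τ⟩ ⟨9 / 50 + 1 / 6, m⟩ 0 - V3 ⟨u, 0⟩ ⟨l, 0⟩ 0 +
      (V2 ⟨9 / 50, τ⟩ ⟨X, Y⟩ - V2 ⟨u, 0⟩ ⟨X, Y⟩) := by
  obtain ⟨p0, p1⟩ := P_lo hl hl1 hu hu1
  have v1 : (E.c 1800).val [u, τ, X, Y] = 9 / 50 := by
    simp only [E.c, E.val]
    norm_num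
  rcases le_total u (1 / 10) with h | h
  · have k := K0 hu h a0 a1 hR
    rw [TwoE_val _ _ _ _ v1, P4_val] at k
    exact two_fin (N18 a0 a1 m0 m1) (p0 h) k
  · have k := K1 h hu1 a0 a1 hR
    rw [TwoE_val _ _ _ _ v1, Pp_val] at k
    exact two_fin (N18 a0 a1 m0 m1) (p1 h) k

theorem case_threeA (hl : 77 / 100 ≤ l) (hl1 : l ≤ 1) (hu : 0 ≤ u) (hu1 : u ≤ 60 / 100)
    (m0 : -(45 / 1000) ≤ m) (m1 : m ≤ 59 / 1000) (a0 : -(28 / 1000) ≤ τ) (a1 : τ ≤ -(5 / 1000))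
    (hR : RgL X Y) :
    0 < V3 ⟨11 / 50, -τ⟩ ⟨11 / 50 + 13 / 100, m⟩ 0 - V3 ⟨u, 0⟩ ⟨l, 0⟩ 0 +
      (V1 ⟨11 / 50, τ⟩ ⟨1 - X, -Y⟩ - V1 ⟨u, 0⟩ ⟨1 - X, -Y⟩) := by
  obtain ⟨p0, p1⟩ := P_lo hl hl1 hu hu1
  have v1 : (E.c 2200).val [u, τ, X, Y] = 11 / 50 := by
    simp only [E.c, E.val]
    norm_num
  have v2 : (E.sub (.q 1 1) x2).val [u, τ, X, Y] = 1 - X := by
    simp only [x2, E.val, NumI.lkR]
    norm_num
  have v3 : (E.neg y3).val [u, τ, X, Y] = -Y := rfl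
  rcases le_total u (1 / 10) with h | h
  · have k := H0 hu h a0 a1 hR
    unfold aE at k
    rw [OneE_val _ _ _ _ _ _ v1 v2 v3, P4_val] at k
    exact one_fin (N2a a0 a1 m0 m1) (p0 h) k
  · have k := H1 h hu1 a0 a1 hR
    unfold aE at k
    rw [OneE_val _ _ _ _ _ _ v1 v2 v3, Pp_val] at k
    exact one_fin (N2a a0 a1 m0 m1) (p1 h) k

/-! ### regions at an end -/

theorem case_twoE (hl : 77 / 100 ≤ l) (hl1 : l ≤ 1) (hu : 0 ≤ u) (hu1 : u ≤ 60 / 100)
    (m0 : -(45 / 1000) ≤ m) (m1 : m ≤ 59 / 1000) (a0 : 65 / 1000 ≤ τ) (a1 : τ ≤ 69 / 1000) :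
    0 < V3 ⟨11 / 50, -τ⟩ ⟨11 / 50 + 1 / 6, m⟩ 0 - V3 ⟨u, 0⟩ ⟨l, 0⟩ 0 +
      (V2 ⟨11 / 50, τ⟩ 0 - V2 ⟨u, 0⟩ 0) := by
  obtain ⟨p0, p1⟩ := P_lo hl hl1 hu hu1
  have hN := N22 a0 a1 m0 m1
  push_cast at hN
  rw [V3_real, K4.V2_val]
  have ev : ∀ P : E, (E2 P).val [u, τ, 0, 0] = 4435 / 10000 + 20410 / 10000 * τ +
      P.val [u, τ, 0, 0] + (uu u 0 - Real.pi * (72 / 100 * τ)) := fun P => by
    have e : (E2 P).val [u, τ, 0, 0] = (lin 4435 20410 t1).val [u, τ, 0, 0] +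
        P.val [u, τ, 0, 0] + (uu u (((0 : ℤ) : ℝ) / ((10000 : ℕ) : ℝ)) -
        Real.pi * (((72 : ℤ) : ℝ) / ((100 : ℕ) : ℝ) * τ)) := rfl
    have e2 : t1.val [u, τ, 0, 0] = τ := rfl
    rw [e, lin_val, e2]
    push_cast
    rw [zero_div]
  rcases le_total u (1 / 10) with h | h
  · obtain ⟨e, he, hp⟩ := chkF4 rF0 (by norm_num) (x := u) (y := τ) (z := 0) (w := 0)
      (by norm_num; linarith only [hu]) (by norm_num; linarith only [h]) (by norm_num; linarith only [a0])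
      (by norm_num; linarith only [a1]) (by norm_num) (by norm_num) (by norm_num) (by norm_num)
    simp only [List.mem_cons, List.not_mem_nil, or_false] at he
    subst he
    rw [ev, P4_val] at hp
    have := p0 h
    linarith only [hN, hp, this]
  · obtain ⟨e, he, hp⟩ := chkF4 rF1 (by norm_num) (x := u) (y := τ) (z := 0) (w := 0)
      (by norm_num; linarith only [h]) (by norm_num; linarith only [hu1]) (by norm_num; linarith only [a0])
      (by norm_num; linarith only [a1]) (by norm_num) (by norm_num) (by norm_num) (by norm_num)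
    simp only [List.mem_cons, List.not_mem_nil, or_false] at he
    subst he
    rw [ev, Pp_val] at hp
    have := p1 h
    linarith only [hN, hp, this]

theorem case_threeE {l' m' : ℝ} (hl : 77 / 100 ≤ l) (hl1 : l ≤ 1) (hu : 0 ≤ u)
    (hu1 : u ≤ 60 / 100) (m0 : -(45 / 1000) ≤ m) (m1 : m ≤ 59 / 1000) (a0 : -(1 / 1000) ≤ τ)
    (a1 : τ ≤ 1 / 1000) (m0' : -(45 / 1000) ≤ m') (m1' : m' ≤ 59 / 1000) (hl' : u ≤ l')
    (hl1' : l' ≤ 1) :
    0 < V3 ⟨11 / 50, -τ⟩ ⟨11 / 50 + 1 / 6, m⟩ 0 - V3 ⟨u, 0⟩ ⟨l, 0⟩ 0 +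
      (V3 ⟨11 / 50, τ⟩ ⟨11 / 50 + 1 / 6, m'⟩ 0 - V3 ⟨u, 0⟩ ⟨l', 0⟩ 0) := by
  obtain ⟨p0, p1⟩ := P_lo hl hl1 hu hu1
  have n1 := N2e a0 a1 m0 m1
  have n2 := N2e (τ := -τ) (m := m') (by linarith only [a1]) (by linarith only [a0]) m0' m1'
  rw [neg_neg] at n2
  have n3 := (P1.uu_real_abs (x := l' - u) (by linarith only [hl']) (by linarith only [hu, hl1'])).1
  rw [V3_real, V3_real]
  have ev : ∀ P : E, (G2e P).val [u, 0, 0, 0] = 2800 / 10000 +
      (P.val [u, 0, 0, 0] + uu u 0) := fun P => by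
    have e : (G2e P).val [u, 0, 0, 0] = ((2800 : ℤ) : ℝ) / ((10000 : ℕ) : ℝ) +
        (P.val [u, 0, 0, 0] + uu u (((0 : ℤ) : ℝ) / ((10000 : ℕ) : ℝ))) := rfl
    rw [e]
    push_cast
    rw [zero_div]
  rcases le_total u (1 / 10) with h | h
  · obtain ⟨e, he, hp⟩ := chkF4 rG0 (by norm_num) (x := u) (y := 0) (z := 0) (w := 0)
      (by norm_num; linarith only [hu]) (by norm_num; linarith only [h]) (by norm_num) (by norm_num)
      (by norm_num) (by norm_num) (by norm_num) (by norm_num)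
    simp only [List.mem_cons, List.not_mem_nil, or_false] at he
    subst he
    rw [ev, P4_val] at hp
    have := p0 h
    linarith only [n1, n2, n3, hp, this]
  · obtain ⟨e, he, hp⟩ := chkF4 rG1 (by norm_num) (x := u) (y := 0) (z := 0) (w := 0)
      (by norm_num; linarith only [h]) (by norm_num; linarith only [hu1]) (by norm_num) (by norm_num)
      (by norm_num) (by norm_num) (by norm_num) (by norm_num)
    simp only [List.mem_cons, List.not_mem_nil, or_false] at he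
    subst he
    rw [ev, Pp_val] at hp
    have := p1 h
    linarith only [n1, n2, n3, hp, this]

/-! ### an interior region with three crossings whose inner variable is far to the left -/

theorem V3_Sc (c τ w X T S Z Y : ℝ) : V3 ⟨c, τ⟩ ⟨1 / 4, T⟩ ⟨Z, Y⟩ - V3 ⟨w, 0⟩ ⟨X, S⟩ ⟨Z, Y⟩ =
    Real.pi * ((1 - c) * T - 1 / 4 * τ) - uu (1 / 4 - c) (T - τ) - uu c τ + uu (1 / 4) T +
      P1.Bf w X S + uu w 0 + P1.Df X T S Z Y := by
  unfold V3 P1.Bf P1.Df
  simp only [UU_uu, pow_two, Complex.add_im, Complex.mul_im, Complex.sub_im, Complex.sub_re,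
    Complex.add_re, Complex.re_ofNat, Complex.im_ofNat, Complex.mul_re]
  rw [sub_zero S, add_comm (1 / 4) Z, add_comm T Y, add_comm X Z, add_comm S Y]
  ring

theorem Sa_val (S D P : E) {s d : ℝ} (hS : S.val [u, τ, X, T] = s) (hD : D.val [u, τ, X, T] = d) :
    (Sa S D P).val [u, τ, X, T] = 4625 / 10000 + 12280 / 10000 * τ + P.val [u, τ, X, T] +
      (Real.pi * (78 / 100 * T - 1 / 4 * τ) + uu (1 / 4) T - uu (3 / 100) (T - τ)) +
      (uu (X - u) s - Real.pi * ((1 - u) * s) + uu u 0 - uu X s) + d := by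
  have e : (Sa S D P).val [u, τ, X, T] = (lin 4625 12280 t1).val [u, τ, X, T] +
      P.val [u, τ, X, T] + (Real.pi * (((78 : ℤ) : ℝ) / ((100 : ℕ) : ℝ) * T -
      ((1 : ℤ) : ℝ) / ((4 : ℕ) : ℝ) * τ) + (uu (((2500 : ℤ) : ℝ) / ((10000 : ℕ) : ℝ)) T -
      uu (((300 : ℤ) : ℝ) / ((10000 : ℕ) : ℝ)) (T - τ)) +
      (uu (X - u) (S.val [u, τ, X, T]) - Real.pi * ((((1 : ℤ) : ℝ) / ((1 : ℕ) : ℝ) - u) *
        S.val [u, τ, X, T]) + (uu u (((0 : ℤ) : ℝ) / ((10000 : ℕ) : ℝ)) -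
        uu X (S.val [u, τ, X, T])) + D.val [u, τ, X, T])) := rfl
  have e2 : t1.val [u, τ, X, T] = τ := rfl
  rw [e, hS, hD, lin_val, e2]
  push_cast
  rw [zero_div, show (2500 : ℝ) / 10000 = 1 / 4 by norm_num,
    show (300 : ℝ) / 10000 = 3 / 100 by norm_num]
  ring

theorem vS_val (s0 : -(105 / 1000) ≤ T - τ) (s1 : T - τ ≤ 28 / 1000) :
    ∀ e ∈ vS, ¬ 0 < e.val [u, τ, X, T] := by
  intro e he hp
  simp only [vS, List.mem_cons, List.not_mem_nil, or_false] at he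
  rcases he with rfl | rfl <;>
  · simp only [y3, t1, E.val, NumI.lkR] at hp
    push_cast at hp
    linarith only [s0, hp, s1]

theorem I0 (hu : 0 ≤ u) (hu1 : u ≤ 1 / 10) (a0 : -(28 / 1000) ≤ τ) (a1 : τ ≤ -(5 / 1000))
    (X0 : 5 / 100 ≤ X) (X1 : X ≤ 2 / 10) (T0 : -(114 / 1000) ≤ T) (T1 : T ≤ 5 / 1000)
    (s0 : -(105 / 1000) ≤ T - τ) (s1 : T - τ ≤ 28 / 1000) :
    0 < (Sa y3 D1 P4).val [u, τ, X, T] := by
  obtain ⟨e, he, hp⟩ := chkF4 rI0 (by norm_num) (x := u) (y := τ) (z := X) (w := T)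
    (by norm_num; linarith only [hu]) (by norm_num; linarith only [hu1]) (by norm_num; linarith only [a0])
    (by norm_num; linarith only [a1]) (by norm_num; linarith only [X0]) (by norm_num; linarith only [X1])
    (by norm_num; linarith only [T0]) (by norm_num; linarith only [T1])
  rcases List.mem_cons.1 he with rfl | he
  · exact hp
  · exact absurd hp (vS_val s0 s1 e he)

theorem I1 (hu : 1 / 10 ≤ u) (hu1 : u ≤ 60 / 100) (a0 : -(28 / 1000) ≤ τ) (a1 : τ ≤ -(5 / 1000))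
    (X0 : 5 / 100 ≤ X) (X1 : X ≤ 2 / 10) (T0 : -(114 / 1000) ≤ T) (T1 : T ≤ 5 / 1000)
    (s0 : -(105 / 1000) ≤ T - τ) (s1 : T - τ ≤ 28 / 1000) :
    0 < (Sa y3 D1 Pp).val [u, τ, X, T] := by
  obtain ⟨e, he, hp⟩ := chkF4 rI1 (by norm_num) (x := u) (y := τ) (z := X) (w := T)
    (by norm_num; linarith only [hu]) (by norm_num; linarith only [hu1]) (by norm_num; linarith only [a0])
    (by norm_num; linarith only [a1]) (by norm_num; linarith only [X0]) (by norm_num; linarith only [X1])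
    (by norm_num; linarith only [T0]) (by norm_num; linarith only [T1])
  rcases List.mem_cons.1 he with rfl | he
  · exact hp
  · exact absurd hp (vS_val s0 s1 e he)

theorem J0 (hu : 0 ≤ u) (hu1 : u ≤ 1 / 10) (a0 : -(28 / 1000) ≤ τ) (a1 : τ ≤ -(5 / 1000))
    (X0 : 0 ≤ X) (X1 : X ≤ 5 / 100) (T0 : -(114 / 1000) ≤ T) (T1 : T ≤ 5 / 1000)
    (s0 : -(105 / 1000) ≤ T - τ) (s1 : T - τ ≤ 28 / 1000) :
    0 < (Sa S2 D2 P4).val [u, τ, X, T] := by
  obtain ⟨e, he, hp⟩ := chkF4 rJ0 (by norm_num) (x := u) (y := τ) (z := X) (w := T)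
    (by norm_num; linarith only [hu]) (by norm_num; linarith only [hu1]) (by norm_num; linarith only [a0])
    (by norm_num; linarith only [a1]) (by norm_num; linarith only [X0]) (by norm_num; linarith only [X1])
    (by norm_num; linarith only [T0]) (by norm_num; linarith only [T1])
  rcases List.mem_cons.1 he with rfl | he
  · exact hp
  · exact absurd hp (vS_val s0 s1 e he)

theorem J1 (hu : 1 / 10 ≤ u) (hu1 : u ≤ 60 / 100) (a0 : -(28 / 1000) ≤ τ) (a1 : τ ≤ -(5 / 1000))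
    (X0 : 0 ≤ X) (X1 : X ≤ 5 / 100) (T0 : -(114 / 1000) ≤ T) (T1 : T ≤ 5 / 1000)
    (s0 : -(105 / 1000) ≤ T - τ) (s1 : T - τ ≤ 28 / 1000) :
    0 < (Sa S2 D2 Pp).val [u, τ, X, T] := by
  obtain ⟨e, he, hp⟩ := chkF4 rJ1 (by norm_num) (x := u) (y := τ) (z := X) (w := T)
    (by norm_num; linarith only [hu]) (by norm_num; linarith only [hu1]) (by norm_num; linarith only [a0])
    (by norm_num; linarith only [a1]) (by norm_num; linarith only [X0]) (by norm_num; linarith only [X1])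
    (by norm_num; linarith only [T0]) (by norm_num; linarith only [T1])
  rcases List.mem_cons.1 he with rfl | he
  · exact hp
  · exact absurd hp (vS_val s0 s1 e he)

theorem case_threeS {Xo Yo : ℝ} (hl : 77 / 100 ≤ l) (hl1 : l ≤ 1) (hu : 0 ≤ u)
    (hu1 : u ≤ 60 / 100) (m0 : -(45 / 1000) ≤ m) (m1 : m ≤ 59 / 1000)
    (a0 : -(28 / 1000) ≤ τ) (a1 : τ ≤ -(5 / 1000)) (X0 : 0 ≤ X) (X1 : X ≤ 2 / 10)
    (T0 : -(114 / 1000) ≤ T) (T1 : T ≤ 5 / 1000)
    (s0 : -(105 / 1000) ≤ T - τ) (s1 : T - τ ≤ 28 / 1000) (ho : RgW Xo Yo) :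
    0 < V3 ⟨11 / 50, -τ⟩ ⟨11 / 50 + 13 / 100, m⟩ 0 - V3 ⟨u, 0⟩ ⟨l, 0⟩ 0 +
      (V3 ⟨11 / 50, τ⟩ ⟨1 / 4, T⟩ ⟨Xo, Yo⟩ -
        V3 ⟨u, 0⟩ ⟨X, T * min 1 (X / (5 / 100))⟩ ⟨Xo, Yo⟩) := by
  obtain ⟨p0, p1⟩ := P_lo hl hl1 hu hu1
  have hN := N2a a0 a1 m0 m1
  push_cast at hN
  rw [V3_real, V3_Sc, show (1 : ℝ) - 11 / 50 = 78 / 100 by norm_num,
    show (1 : ℝ) / 4 - 11 / 50 = 3 / 100 by norm_num]
  unfold P1.Bf
  rcases le_total X (5 / 100) with h | h
  · have e : T * min 1 (X / (5 / 100)) = 20 * X * T := by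
      rw [min_eq_right (by rw [div_le_one (by norm_num)]; exact h)]
      ring
    rw [e]
    have d := P1.J2 X0 h T0 T1 ho
    have v1 : S2.val [u, τ, X, T] = 20 * X * T := by
      simp only [S2, x2, y3, E.val, NumI.lkR]
      push_cast
      ring
    have v2 : D2.val [u, τ, X, T] = -(343 / 10000) - 3089 / 1000 * T +
        Real.pi * (20 * X * T) := by
      have e2 : D2.val [u, τ, X, T] = ((-343 : ℤ) : ℝ) / ((10000 : ℕ) : ℝ) -
        ((3089 : ℤ) : ℝ) / ((1000 : ℕ) : ℝ) * T + Real.pi * S2.val [u, τ, X, T] := rfl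
      rw [e2, v1]
      push_cast
      ring
    rcases le_total u (1 / 10) with h' | h'
    · have k := J0 hu h' a0 a1 X0 h T0 T1 s0 s1
      rw [Sa_val _ _ _ v1 v2, P4_val] at k
      have := p0 h'
      linarith only [hN, d, k, this]
    · have k := J1 h' hu1 a0 a1 X0 h T0 T1 s0 s1
      rw [Sa_val _ _ _ v1 v2, Pp_val] at k
      have := p1 h'
      linarith only [hN, d, k, this]
  · have e : T * min 1 (X / (5 / 100)) = T := by
      rw [min_eq_left (by rw [le_div_iff₀ (by norm_num)]; linarith only [h]), mul_one]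
    rw [e]
    have d := P1.J1 h X1 T0 T1 ho
    have v1 : y3.val [u, τ, X, T] = T := rfl
    have v2 : D1.val [u, τ, X, T] = -(51 / 1000) - 2 / 10 * T := by
      simp only [D1, y3, E.c, E.val, NumI.lkR]
      push_cast
      ring
    rcases le_total u (1 / 10) with h' | h'
    · have k := I0 hu h' a0 a1 h X1 T0 T1 s0 s1
      rw [Sa_val _ _ _ v1 v2, P4_val] at k
      have := p0 h'
      linarith only [hN, d, k, this]
    · have k := I1 h' hu1 a0 a1 h X1 T0 T1 s0 s1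
      rw [Sa_val _ _ _ v1 v2, Pp_val] at k
      have := p1 h'
      linarith only [hN, d, k, this]

/-! ### a ring region -/

theorem Ri_val (P : E) : (Ri P).val [u, τ, σ, η] = 6315 / 10000 + 5890 / 10000 * τ +
    P.val [u, τ, σ, η] + (uu (17 / 25 + σ) (τ + η) + uu (17 / 25 - σ) (τ - η)) +
    (2 * uu u 0 - uu (u + 1 / 2 + σ) η - uu (u + 1 / 2 - σ) η) := by
  have e : (Ri P).val [u, τ, σ, η] = (lin 6315 5890 t1).val [u, τ, σ, η] +
      P.val [u, τ, σ, η] + (uu (((6800 : ℤ) : ℝ) / ((10000 : ℕ) : ℝ) + σ) (τ + η) +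
      uu (((6800 : ℤ) : ℝ) / ((10000 : ℕ) : ℝ) - σ) (τ - η) + (((2 : ℤ) : ℝ) / ((1 : ℕ) : ℝ) *
      uu u (((0 : ℤ) : ℝ) / ((10000 : ℕ) : ℝ)) -
      (uu (u + ((5000 : ℤ) : ℝ) / ((10000 : ℕ) : ℝ) + σ) η +
        uu (u + ((5000 : ℤ) : ℝ) / ((10000 : ℕ) : ℝ) - σ) η))) := rfl
  have e2 : t1.val [u, τ, σ, η] = τ := rfl
  rw [e, lin_val, e2]
  push_cast
  rw [zero_div, show (6800 : ℝ) / 10000 = 17 / 25 by norm_num,
    show (5000 : ℝ) / 10000 = 1 / 2 by norm_num]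
  ring

theorem vR_val (h : η ≤ 1045 / 10000 * (2 + 4 * σ)) : ∀ e ∈ vR, ¬ 0 < e.val [u, τ, σ, η] := by
  intro e he hp
  simp only [vR, List.mem_cons, List.not_mem_nil, or_false] at he
  subst he
  simp only [y3, x2, E.c, E.val, NumI.lkR] at hp
  push_cast at hp
  linarith only [h, hp]

theorem L0 (hu : 0 ≤ u) (hu1 : u ≤ 1 / 10) (a0 : -(58 / 1000) ≤ τ) (a1 : τ ≤ -(18 / 1000))
    (X0 : -(1 / 2) ≤ σ) (X1 : σ ≤ 1 / 8) (T0 : 0 ≤ η) (T1 : η ≤ 1045 / 10000)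
    (s : η ≤ 1045 / 10000 * (2 + 4 * σ)) :
    0 < (Ri P4).val [u, τ, σ, η] := by
  obtain ⟨e, he, hp⟩ := chkF4 rL0 (by norm_num) (x := u) (y := τ) (z := σ) (w := η)
    (by norm_num; linarith only [hu]) (by norm_num; linarith only [hu1]) (by norm_num; linarith only [a0])
    (by norm_num; linarith only [a1]) (by norm_num; linarith only [X0]) (by norm_num; linarith only [X1])
    (by norm_num; linarith only [T0]) (by norm_num; linarith only [T1])
  rcases List.mem_cons.1 he with rfl | he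
  · exact hp
  · exact absurd hp (vR_val s e he)

theorem L1 (hu : 1 / 10 ≤ u) (hu1 : u ≤ 60 / 100) (a0 : -(58 / 1000) ≤ τ) (a1 : τ ≤ -(18 / 1000))
    (X0 : -(1 / 2) ≤ σ) (X1 : σ ≤ 1 / 8) (T0 : 0 ≤ η) (T1 : η ≤ 1045 / 10000)
    (s : η ≤ 1045 / 10000 * (2 + 4 * σ)) :
    0 < (Ri Pp).val [u, τ, σ, η] := by
  obtain ⟨e, he, hp⟩ := chkF4 rL1 (by norm_num) (x := u) (y := τ) (z := σ) (w := η)
    (by norm_num; linarith only [hu]) (by norm_num; linarith only [hu1]) (by norm_num; linarith only [a0])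
    (by norm_num; linarith only [a1]) (by norm_num; linarith only [X0]) (by norm_num; linarith only [X1])
    (by norm_num; linarith only [T0]) (by norm_num; linarith only [T1])
  rcases List.mem_cons.1 he with rfl | he
  · exact hp
  · exact absurd hp (vR_val s e he)

theorem case_ring (hl : 77 / 100 ≤ l) (hl1 : l ≤ 1) (hu : 0 ≤ u)
    (hu1 : u ≤ 60 / 100) (m0 : -(45 / 1000) ≤ m) (m1 : m ≤ 59 / 1000)
    (a0 : -(58 / 1000) ≤ τ) (a1 : τ ≤ -(18 / 1000)) (hρ : 0 ≤ ρ) (hρ1 : ρ ≤ 1045 / 10000)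
    (hσ : |σ| ≤ 1 / 2) (hσ1 : σ ≤ 1 / 8) :
    0 < V3 ⟨9 / 50, -τ⟩ ⟨9 / 50 + 1 / 6, m⟩ 0 - V3 ⟨u, 0⟩ ⟨l, 0⟩ 0 +
      (fR ⟨9 / 50, τ⟩ (LT.zt ρ σ) - fR ⟨u, 0⟩ (LT.zt ρ σ)) := by
  obtain ⟨p0, p1⟩ := P_lo hl hl1 hu hu1
  have hN := N1r a0 a1 m0 m1
  push_cast at hN
  rw [V3_real, fR_diff]
  have t0 := e7_th_nonneg hσ
  have t1 := e7_th_le_one σ
  have t2 := e7_th_le_ramp σ
  have hη0 : 0 ≤ ρ * LT.th σ := mul_nonneg hρ t0
  have hη1 : ρ * LT.th σ ≤ 1045 / 10000 := by nlinarith only [hρ, hρ1, t1]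
  have hη2 : ρ * LT.th σ ≤ 1045 / 10000 * (2 + 4 * σ) := by nlinarith only [hρ1, t0, t2]
  generalize ρ * LT.th σ = η at *
  have hσ0 : -(1 / 2) ≤ σ := (abs_le.1 hσ).1
  rcases le_total u (1 / 10) with h' | h'
  · have k := L0 hu h' a0 a1 hσ0 hσ1 hη0 hη1 hη2
    rw [Ri_val, P4_val] at k
    have := p0 h'
    linarith only [hN, k, this]
  · have k := L1 h' hu1 a0 a1 hσ0 hσ1 hη0 hη1 hη2
    rw [Ri_val, Pp_val] at k
    have := p1 h'
    linarith only [hN, k, this]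

theorem case_touched (hl : 77 / 100 ≤ l) (hl1 : l ≤ 1) (hu : 0 ≤ u)
    (hu1 : u ≤ 60 / 100) (m0 : -(45 / 1000) ≤ m) (m1 : m ≤ 59 / 1000)
    (a0 : -(58 / 1000) ≤ τ) (a1 : τ ≤ 78 / 1000) :
    0 < V3 ⟨1 / 5, -τ⟩ ⟨1 / 5 + 1 / 6, m⟩ 0 - V3 ⟨u, 0⟩ ⟨l, 0⟩ 0 + -(59 / 25) * τ := by
  obtain ⟨p0, p1⟩ := P_lo hl hl1 hu hu1
  have hN := N20 a0 a1 m0 m1
  push_cast at hN
  rw [V3_real]
  rcases le_total u (1 / 10) with h' | h'
  · have := p0 h'
    linarith only [a1, hN, this]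
  · have := p1 h'
    have := pp_lo h' hu1
    linarith

end L3

open L3

/-- **PART 3.**  A region with three crossings at an end whose inner variable is in the tail. -/
theorem side_threeEL {C : Ct} {cc : Cl} (hC : C.ok cc) {u l t m G : ℝ}
    (hl : 77 / 100 ≤ l) (hl1 : l ≤ 1) (hu : 0 ≤ u) (hu1 : u ≤ 60 / 100)
    (t0 : (hbox .threeE cc false).t0 ≤ t) (t1 : t ≤ (hbox .threeE cc false).t1)
    (m0 : -(45 / 1000) ≤ m) (m1 : m ≤ 59 / 1000)
    (hG : Gn .threeE (cU C u) u (-t) C G) :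
    0 < V3 ⟨cU C u, t⟩ ⟨cU C u + dE C, m⟩ 0 - V3 ⟨u, 0⟩ ⟨l, 0⟩ 0 + G := by
  obtain ⟨τ, rfl⟩ : ∃ τ, t = -τ := ⟨-t, by ring⟩
  rw [neg_neg] at hG
  cases hG with
  | one h0 h1 h2 hb hR hX =>
    exact case_one hl hl1 hu hu1 m0 m1 h0 h1 hb hR fun h => hX h (Or.inr rfl)
  | two h0 h1 hR =>
    simp only [hbox] at h0 h1
    exact case_two hl hl1 hu hu1 m0 m1 h0 h1 hR
  | twoE h0 h1 =>
    simp only [hbox] at h0 h1
    exact case_twoE hl hl1 hu hu1 m0 m1 h0 h1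
  | threeA h0 h1 hR =>
    simp only [hbox] at h0 h1
    exact case_threeA hl hl1 hu hu1 m0 m1 h0 h1 hR
  | @threeS D X T Xo Yo h0 h1 hX0 hX1 T0 T1 s0 s1 ho =>
    simp only [hbox] at h0 h1
    have b0 : -(114 / 1000) ≤ (mw .threeE D).t0 := by
      cases D <;> simp only [mw] <;> norm_num
    have b1 : (mw .threeE D).t1 ≤ 5 / 1000 := by
      cases D <;> simp only [mw] <;> norm_num
    have b2 : -(105 / 1000) ≤ (mw .threeE D).s0 := by
      cases D <;> simp only [mw] <;> norm_num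
    have b3 : (mw .threeE D).s1 ≤ 28 / 1000 := by
      cases D <;> simp only [mw] <;> norm_num
    exact case_threeS hl hl1 hu hu1 m0 m1 h0 h1 hX0 hX1 (b0.trans T0) (T1.trans b1) (b2.trans s0)
      (s1.trans b3) ho
  | threeK h0 h1 hR =>
    simp only [hbox] at h0 h1
    exact case_threeK hl hl1 hu hu1 m0 m1 h0 h1 hR
  | threeE h0 h1 hm0 hm1 hl' hl1' =>
    simp only [hbox] at h0 h1
    exact case_threeE hl hl1 hu hu1 m0 m1 h0 h1 hm0 hm1 hl' hl1'
  | ring h0 h1 h2 hρ hρ1 hσ hσ1 =>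
    have h0' := h0 (by decide)
    have h1' := h1 (by decide)
    simp only [hbox] at h0' h1'
    exact case_ring hl hl1 hu hu1 m0 m1 h0' h1' hρ hρ1 hσ hσ1
  | touched =>
    have b0 : -(78 / 1000) ≤ (hbox .threeE cc false).t0 := by
      cases cc <;> simp only [hbox] <;> norm_num
    have b1 : (hbox .threeE cc false).t1 ≤ 58 / 1000 := by
      cases cc <;> simp only [hbox] <;> norm_num
    exact case_touched hl hl1 hu hu1 m0 m1 (by linarith only [t1, b1]) (by linarith only [t0, b0])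

end TL

end Pool.Agent.Work.MP_b30479_gt.G2
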