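import Pool.Agent.Work.NumU.GenF
import Pool.Agent.Work.NumU.GenD

/-!
# Tails, part 3: certificates
-/

namespace Pool.Agent.Work.MP_b30479_gt.G2

open Pool.Agent.Work.NumG (E chkF chkF4)

namespace TL

namespace L3

/-! ### expressions -/

def u0 : E := .var 0
def t1 : E := .var 1
def x2 : E := .var 2
def y3 : E := .var 3

def N0 (cc cd : E) : E := E.V3e cc (.neg u0) cd t1
def N1 (cc cd : E) : E := .sub (N0 cc cd) (.uw cc u0)
def N2 (cc cd : E) : E := .sub (N0 cc cd) (.mul (.q 2 1) (.uw cc u0))
def lin (a b : ℤ) (t : E) : E := .add (E.c a) (.mul (E.c b) t)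
def cd6 (n : ℤ) : E := .add (E.c n) (.q 1 6)

/-- `uu u + uu (.77 - u)` -/
def Pp : E := .add (.uw u0 (E.c 0)) (.uw (.sub (E.c 7700) u0) (E.c 0))
def P4 : E := E.c (-400)

def OneE (cc : E) (a b : ℤ) (P X Y : E) : E :=
  .add (.add (lin a b t1) P) (.add (.sub (.add (.uw u0 (E.c 0)) (.uw (.add cc X) (.add t1 Y)))
    (.uw (.add u0 X) Y)) (.mul .pi (.add (.mul (.sub cc u0) Y) (.mul t1 (.sub X (.q 1 1))))))

def TwoE (cc : E) (a b : ℤ) (P : E) : E :=
  .add (.add (lin a b t1) P) (.sub (.add (.uw (.add cc x2) (.add t1 y3))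
    (.sub (.mul (.q 2 1) (.uw u0 (E.c 0))) (.uw (.add u0 x2) y3)))
    (.mul .pi (.add (.add (.mul (.sub cc x2) (.sub t1 y3)) (.mul (.q 1 2) t1))
      (.mul (.sub u0 x2) y3))))

/-- hinge of a digit one, `Y = th * ramp X` -/
def oneR (cc : E) (a b : ℤ) (P : E) (XM : ℤ) (cl cr : ℕ) : E :=
  OneE cc a b P x2 (.mul y3 (E.tr XM cl cr x2))

def pr (n : ℤ) (d : ℕ) (e : E) : E := .mul (.q n d) e
def sU (s : ℤ) : E := .sub y3 (.sub (.q s 1000) t1)
def sD (s : ℤ) : E := .sub (.sub (.q s 1000) t1) y3

def rgD : List E := [.sub y3 (pr 77 100 x2),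
  .sub y3 (.add (pr 32 100 (.sub (.q 6 10) x2)) (E.c 125)),
  .sub (.neg (pr 85 100 x2)) y3, .sub (.neg (pr 34 100 (.sub (.q 8 10) x2))) y3]
def rgF : List E := [.sub y3 (pr 34 100 (.sub (.q 8 10) x2)),
  .sub (.neg (pr 34 100 (.sub (.q 8 10) x2))) y3]
def rgL : List E := [.sub y3 (pr 1 10 (.sub (.q 8 10) x2)),
  .sub (.neg (pr 246 100 (.sub (.q 8 10) x2))) y3]
def rgK : List E := [.sub y3 (pr 1 10 x2), .sub y3 (pr 1 10 (.sub (.q 8 10) x2)),
  .sub (.neg (pr 246 100 x2)) y3, .sub (.neg (pr 246 100 (.sub (.q 8 10) x2))) y3]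

def aE (P : E) : E := OneE (E.c 2200) 4625 12280 P (.sub (.q 1 1) x2) (.neg y3)

def Sa (S D P : E) : E := .add (.add (lin 4625 12280 t1) P) (.add (.add (.mul .pi
  (.sub (.mul (.q 78 100) y3) (.mul (.q 1 4) t1)))
  (.sub (.uw (E.c 2500) y3) (.uw (E.c 300) (.sub y3 t1))))
  (.add (.add (.sub (.uw (.sub x2 u0) S) (.mul .pi (.mul (.sub (.q 1 1) u0) S)))
    (.sub (.uw u0 (E.c 0)) (.uw x2 S))) D))
def vS : List E := [.sub (.q (-105) 1000) (.sub y3 t1), .sub (.sub y3 t1) (.q 28 1000)]
def S2 : E := .mul (.mul (.q 20 1) x2) y3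
def D1 : E := .sub (E.c (-510)) (.mul (.q 2 10) y3)
def D2 : E := .add (.sub (E.c (-343)) (.mul (.q 3089 1000) y3)) (.mul .pi S2)

def Ri (P : E) : E := .add (.add (lin 6315 5890 t1) P)
  (.add (.add (.uw (.add (E.c 6800) x2) (.add t1 y3))
  (.uw (.sub (E.c 6800) x2) (.sub t1 y3))) (.sub (.mul (.q 2 1) (.uw u0 (E.c 0)))
  (.add (.uw (.add (.add u0 (E.c 5000)) x2) y3) (.uw (.sub (.add u0 (E.c 5000)) x2) y3))))
def vR : List E := [.sub y3 (.mul (E.c 1045) (.add (.q 2 1) (.mul (.q 4 1) x2)))]

def E2 (P : E) : E := .add (.add (lin 4435 20410 t1) P)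
  (.sub (.uw u0 (E.c 0)) (.mul .pi (.mul (.q 72 100) t1)))
def G2e (P : E) : E := .add (E.c 2800) (.add P (.uw u0 (E.c 0)))

theorem rPz : chkF [.sub Pp P4] 1000 0 0 0 0 40 0 100 0 0 0 0 0 0
    1082130944 = true := by
  decide +kernel

theorem rPn : chkF [.neg Pp] 1000 0 0 0 0 40 100 167 0 0 0 0 0 0
    4 = true := by
  decide +kernel

theorem rN23 : chkF [.sub (N1 (E.c 2300) (E.c 3600)) (lin 4485 17300 u0)]
    1000 0 45 0 0 40 10 78 0 104 0 0 0 0
    21204932965029178450388907656286127086217762564310506731577065081790532513485633842613339021018053021914136532307062418595540505986162863661993400436667204478028692815165458424768030371048502689952732023554588673 = true := by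
  decide +kernel

theorem rN27 : chkF [.sub (N1 (E.c 2700) (E.c 4000)) (lin 4078 20260 u0)]
    1000 0 45 0 0 40 10 78 0 104 0 0 0 0
    1096285937977854003609756618506985362559134369801808425656046437670422064757301761441154938801485614906424649856904528560792000497317114257283265724871942606685564024534004533926306004993 = true := by
  decide +kernel

theorem rN25 : chkF [.sub (N2 (E.c 2500) (cd6 2500)) (lin 5760 17570 u0)]
    1000 13 45 0 0 40 0 39 0 104 0 0 0 0
    1508361212027430474088199995525735240343405539164289 = true := by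
  decide +kernel

theorem rN22 : chkF [.sub (N1 (E.c 2200) (cd6 2200)) (lin 4435 20410 u0)]
    1000 0 45 0 0 40 65 69 0 104 0 0 0 0
    77980447029325509748080769 = true := by
  decide +kernel

theorem rN2e : chkF [.sub (N0 (E.c 2200) (cd6 2200)) (E.c 3030)] 1000 1 45 0 0 40 0 2 0 104 0 0 0 0
    1082147329 = true := by
  decide +kernel

theorem rN2a : chkF [.sub (N1 (E.c 2200) (E.c 3500)) (lin 4625 12280 u0)]
    1000 28 45 0 0 40 0 23 0 104 0 0 0 0
    128311398846231023626240482484461639395922021908078631100375250065302134559239504599777409 = true := by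
  decide +kernel

theorem rN18 : chkF [.sub (N2 (E.c 1800) (cd6 1800)) (lin 6425 9950 u0)]
    1000 28 45 0 0 40 0 23 0 104 0 0 0 0
    7831506277179682856316682996563639761682460129124877143307639621941816911962688209025 = true := by
  decide +kernel

theorem rN1r : chkF [.sub (N2 (E.c 1800) (cd6 1800)) (lin 6315 5890 u0)]
    1000 58 45 0 0 40 0 40 0 104 0 0 0 0
    404897629763363773936843065612417298381476539877193089564673 = true := by
  decide +kernel

theorem rN20 : chkF [.sub (N0 (E.c 2000) (cd6 2000)) (lin 3080 16120 u0)]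
    1000 58 45 0 0 40 0 136 0 104 0 0 0 0
    2930247447219791787405091611215186927072685623882692243824803614330696259308518844817607023458960446106814529553087689147380996969086976 = true := by
  decide +kernel

theorem rM1 : chkF [.add Pp (E.c 1600)] 1000 0 0 0 0 40 100 600 0 0 0 0 0 0
    77975752546862243852124160 = true := by
  decide +kernel

theorem rF0 : chkF [E2 P4] 1000 0 0 0 0 40 0 100 65 69 0 0 0 0
    4 = true := by
  decide +kernel

theorem rF1 : chkF [E2 Pp] 1000 0 0 0 0 40 100 600 65 69 0 0 0 0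
    1082195968 = true := by
  decide +kernel

theorem rG0 : chkF [G2e P4] 1000 0 0 0 0 40 0 100 0 0 0 0 0 0
    4 = true := by
  decide +kernel

theorem rG1 : chkF [G2e Pp] 1000 0 0 0 0 40 100 600 0 0 0 0 0 0
    1277554729764682239757181255680 = true := by
  decide +kernel

theorem rA0d : chkF [oneR (E.c 2300) 4485 17300 P4 860 150 200, sU 101, sD (-11)]
    1000 0 0 0 61 40 0 100 10 58 0 500 0 126
    5618915263169444640240032087857831100842242 = true := by
  decide +kernel

theorem rA0e : chkF [oneR (E.c 2300) 4485 17300 P4 860 150 200, sU 101, sD (-11)]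
    1000 0 0 0 61 40 0 100 10 58 500 860 0 126
    4821443545785229616127758932172144531601682880433219528628798823695689615638299061625451510172511068691184527702984424947036033840758542384143693564842073256418886428617051030831161437274807382114562 = true := by
  decide +kernel

theorem rB0 : chkF [oneR (E.c 2300) 4485 17300 P4 800 160 290, sU 134]
    1000 0 0 0 0 40 0 100 30 59 0 800 0 91
    6633443397704265847555529236823587465693209915887548776769945858 = true := by
  decide +kernel

theorem rC0 : chkF [oneR (E.c 2300) 4485 17300 P4 700 140 350, sD 51]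
    1000 0 0 0 24 40 0 100 69 78 80 700 0 24
    290491110579536130 = true := by
  decide +kernel

theorem rC1 : chkF [oneR (E.c 2300) 4485 17300 Pp 700 140 350, sD 51]
    1000 0 0 0 24 40 100 300 69 78 80 700 0 24
    24712250578030325247803332321147009904146626305004142850 = true := by
  decide +kernel

theorem rC2 : chkF [oneR (E.c 2700) 4078 20260 Pp 700 140 350, sD 51]
    1000 0 0 0 24 40 300 600 69 78 80 700 0 24
    786582310414163827646205870154320499982602499803381644725910631399361723565583254055842192869383317378073823618896935952861733889111376844030210 = true := by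
  decide +kernel

end L3

end TL

end Pool.Agent.Work.MP_b30479_gt.G2
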