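import Pool.Agent.Work.MP_b30479_gt.G2.TL3A
import Pool.Agent.Work.NumI.TreeS

/-!
# Pieces of the certificates of `TL3D`, part 2
-/


namespace Pool.Agent.Work.MP_b30479_gt.G2
open Pool.Agent.Work.NumG (E chkF chkF4)
namespace TL
namespace L3

theorem rH1_p10 : Pool.Agent.Work.NumI.runE (Pool.Agent.Work.NumG.tst (aE Pp :: rgL))
    0 1924145349 0 8452495639 38 24051816858 41231686043 0 1580547966 13743895347 34359738368 0 8796093024
    1433978745653195806570944179197947126157988737329926347638473099221628731783201809736663960984439273649473524332288267995147135347113522272722163732230566174484791961830247112546233406135942104226507371976641361875702908945988574122582198752382444736768354795772836897289955211304544328977910775130365169827431302403360629565854272836787352449947389093604059268706498115025704655111432359258161566408236827077943410138430745989423693935773237035244402534486365656841317802017363591426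
    410181685647993299014470921019020510770678476900211963324787247489253892182546996321732366423767815755991999705837811592454471265424013230189744110675188181168662960887617140557629324548378188347923330437538291495202319572914751498354944 = true := by
  decide +kernel

theorem rH1_p11 : Pool.Agent.Work.NumI.runE (Pool.Agent.Work.NumG.tst (aE Pp :: rgL))
    0 1924145349 0 8452495639 39 6871947673 41231686043 0 1580547966 34359738368 54975581390 0 8796093024
    410181685647993299014470921019020510770678476900211963324787247489253892182546996321732366423767815755991999705837811592454471265424013230189744110675188181168662960887617140557629324548378188347923330437538291495202319572914751498354944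
    0 = true := by
  decide +kernel

end L3

end TL

end Pool.Agent.Work.MP_b30479_gt.G2
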