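import Pool.Agent.Work.MP_b30479_gt.G2.TL4d

/-!
# Tails, part 4: rows

Certificates generated.
-/

namespace Pool.Agent.Work.MP_b30479_gt.G2

open VOL SR

namespace TL

namespace R4

open NumG

theorem r_rg6 : chkF [.add (.add gR LR) (pk (v 0))]
    10000 0 0 0 5000 40 2200 2500 0 590 0 1045 0 6250 953042347048369859126137504099558094095823718178811910552355625497792720749294560237092438185740476225789242071363940682502620602368350687047429492687925516716312652604851407862524633174618352052307577000573153398277954500374284834470073204866912450344370721748121849000010882925931754078811273241358240360147649609946079239254947086352022612569298727638788029282265944683297670780190798199987984622788161842855330583197649810067097506234921320610598973473268766349989634026573720527276176802167928857599550217441558915 = true := by decide +kernel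

theorem r_rg7 : chkF [.add (.add gR LR) (pk (v 0))]
    10000 0 0 0 5000 40 2500 2800 0 590 0 1045 0 6250 57418022746792963479534592058030359370063464076715172748012138516527296694464707616850913055663876306250005793651824187075830722489334471298092489375955072735293634624854403616410349667355206989104046448954091790269232462751693706717539323596905509750111689050783645231089971242315331478708903101969912632655764940332617143345065221996931 = true := by decide +kernel

theorem r_rg8 : chkF [.add (.add gR LR) (pk (v 0))]
    10000 0 0 0 5000 40 2800 3100 0 590 0 1045 0 6250 410175475199644727887865167515378598726930709692301412407421961000102350191181817567308060229501854525633613738706558814528203051057329679734300459087593335465468802547514625542385257593368303425060585296134223257268509845551195749400963 = true := by decide +kernel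

theorem r_rg9 : chkF [.add (.add gR LR) (pk (v 0))]
    10000 0 0 0 5000 40 3100 3750 0 590 0 1045 0 6250 93265907065620874560660832258243099185796162531835597549062431684608872972178370245495601678031269992724678380538747195871375221085455186544898342712091042099047483402006722123446037722480125275491459852824098330248944337283 = true := by decide +kernel

theorem r_rg10 : chkF [.add (.add gR LR) (pk (v 0))]
    10000 0 0 0 5000 40 3750 5000 0 590 0 1045 0 6250 786534677060992099752664713798659532761045975387032897600116786396062679367382938435385146813411640189683338880311800506310534920035237200183683 = true := by decide +kernel

end R4

end TL

end Pool.Agent.Work.MP_b30479_gt.G2
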