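import Pool.Agent.Work.MP_b30479_gt.G2.TL4e
import Pool.Agent.Work.MP_b30479_gt.G2.TL4f

/-!
# Tails, part 4: touched rings with the new shares and with real hinges
-/

namespace Pool.Agent.Work.MP_b30479_gt.G2

open VOL SR
open NumU (uu UU_uu uu_neg)

namespace TL

open K5

namespace R4

open NumG

/-! ### class one behind the real hinge -/

theorem fin_val (cc a b : ℤ) (d : E) (F nt : ℤ) (t τ ρ : ℝ) : (fin cc a b d F nt).val [t, τ, ρ, 0] =
    fR ⟨1 / 4, t⟩ ⟨-((cc : ℝ) / 10000), ρ⟩ - ((a : ℝ) / 10000 + (b : ℝ) / 10000 * t) +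
      fR ⟨1 / 4, -τ⟩ ⟨-((cc : ℝ) / 10000), ρ⟩ -
      (Real.pi * τ + d.val [t, τ, ρ, 0] + ((F : ℝ) / 10000 + (nt : ℝ) / 10000 * ρ)) := by
  simp only [fin, E.val, fN_val, c_val, v0, v1, v2]
  norm_num

theorem nterm' {n m c ρ : ℝ} (hn : m ≤ n) (hρ : 0 ≤ ρ) (c0 : 0 ≤ c) (hm : m * c ≤ 1) :
    2 * Real.pi * ρ * (1 - n * c) ≤ 62832 / 10000 * (1 - m * c) * ρ := by
  have hpi := Real.pi_pos
  have hpi4 : Real.pi < 3.1416 := Real.pi_lt_d4
  have h1 : 1 - n * c ≤ 1 - m * c := by nlinarith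
  have h2 : 0 ≤ 1 - m * c := by linarith
  have h3 : 2 * Real.pi * ρ * (1 - n * c) ≤ 2 * Real.pi * ρ * (1 - m * c) :=
    mul_le_mul_of_nonneg_left h1 (by positivity)
  have h4 : ρ * (1 - m * c) * (2 * Real.pi) ≤ ρ * (1 - m * c) * (62832 / 10000) :=
    mul_le_mul_of_nonneg_left (by linarith) (mul_nonneg hρ h2)
  linarith

theorem fin' {n m ρ s g g' c : ℝ} {w w1 w' w1' : ℂ} (hn : m ≤ n) (hρ : 0 ≤ ρ) (c0 : 0 ≤ c)
    (c1 : c ≤ 1 / 4) (hm : m * c ≤ 1)
    (h3 : 62832 / 10000 * (1 - m * c) * ρ ≤ fR w1 ⟨-c, ρ⟩ - fR w s - g + (fR w1' ⟨-c, ρ⟩ - fR w' s - g')) :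
    ∃ c : ℝ, -(1 / 4) ≤ c ∧ c ≤ 0 ∧
      g + g' ≤ VR n w1 w1' ⟨c, ρ⟩ - VR n w w' ⟨s, 0⟩ := by
  refine ⟨-c, by linarith, by linarith, ?_⟩
  have e : (⟨s, 0⟩ : ℂ) = (s : ℂ) := by apply Complex.ext <;> simp
  have h4 := nterm' hn hρ c0 hm
  rw [e, VR_fR, VR_fR, VR_re_c, VR_re_real]
  linarith

theorem asm {n m c ρ s g x t k τ G γ F δ nt : ℝ} (hn : m ≤ n) (hρ : 0 ≤ ρ) (c0 : 0 ≤ c)
    (c1 : c ≤ 1 / 4) (hm : m * c ≤ 1) (hnt : 62832 / 10000 * (1 - m * c) ≤ nt)
    (hG : -(Real.pi * τ) - δ - γ ≤ G) (hF : fR ⟨x, 0⟩ s + (γ + fR ⟨k, 0⟩ s) ≤ F)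
    (hp : 0 < fR ⟨1 / 4, t⟩ ⟨-c, ρ⟩ - g + fR ⟨1 / 4, -τ⟩ ⟨-c, ρ⟩ -
      (Real.pi * τ + δ + (F + nt * ρ))) :
    ∃ c : ℝ, -(1 / 4) ≤ c ∧ c ≤ 0 ∧
      g + -G ≤ VR n ⟨1 / 4, t⟩ ⟨1 / 4, -τ⟩ ⟨c, ρ⟩ - VR n ⟨x, 0⟩ ⟨k, 0⟩ ⟨s, 0⟩ := by
  refine fin' hn hρ c0 c1 hm ?_
  have h := mul_le_mul_of_nonneg_right hnt hρ
  linarith

theorem cell0 {x k γ s : ℝ} (x0 : 1 / 2 ≤ x) (x1 : x ≤ 1) (hs : |s| ≤ 1 / 2) (ho : Old1 k γ) :
    fR ⟨x, 0⟩ s + (γ + fR ⟨k, 0⟩ s) ≤ 584 / 1000 := by
  have h1 := fR_tail_nonpos (w := ⟨x, 0⟩) rfl x0 x1 hs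
  linarith [(ho s hs).1]

theorem cell2 {x k γ s : ℝ} (x0 : 65 / 100 ≤ x) (x1 : x ≤ 95 / 100) (hs : |s| ≤ 1 / 2)
    (ho : Old1 k γ) : fR ⟨x, 0⟩ s + (γ + fR ⟨k, 0⟩ s) ≤ 384 / 1000 := by
  have h1 := fR_tail_nonpos (w := ⟨x, 0⟩) rfl (by simp only; linarith) (by simp only; linarith) hs
  obtain ⟨o1, o2, o3⟩ := ho s hs
  obtain ⟨t1, t2⟩ := tail1 (s := s) x0 x1
  rcases le_total |s| (37 / 200) with c | c
  · linarith [t1 c]
  rcases le_total |s| (53 / 200) with c' | c'
  · linarith [t2 c', o2 c]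
  · linarith [o3 c']

theorem cell4 {x k γ s : ℝ} (x0 : 60 / 100 ≤ x) (x1 : x ≤ 95 / 100) (hs : |s| ≤ 1 / 2)
    (ho : Old1 k γ) : fR ⟨x, 0⟩ s + (γ + fR ⟨k, 0⟩ s) ≤ 4815 / 10000 := by
  have h1 := fR_tail_nonpos (w := ⟨x, 0⟩) rfl (by simp only; linarith) (by simp only; linarith) hs
  obtain ⟨o1, o2, o3⟩ := ho s hs
  rcases le_total |s| (37 / 200) with c | c
  · linarith [tail2 x0 x1 c]
  · linarith [o2 c]

theorem un_1 {n ρ s x t k τ G γ : ℝ} (hn : 4 ≤ n) (hρ : 0 ≤ ρ) (hc : RCap n ρ)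
    (hs : |s| ≤ 1 / 2) (hx : 95 / 100 ≤ x) (hx1 : x ≤ 1) (h2 : -(158 / 1000) ≤ t) (h3 : t ≤ -(38 / 1000))
    (h4 : n < 5 → -(128 / 1000) ≤ t) (h5 : n < 6 → -(138 / 1000) ≤ t)
    (u0 : 38 / 1000 ≤ τ) (u1 : τ ≤ 158 / 1000) (u4 : n < 5 → τ ≤ 128 / 1000)
    (u5 : n < 6 → τ ≤ 138 / 1000) (ho : Old1 k γ)
    (hG1 : τ ≤ 128 / 1000 → -(Real.pi * τ) - (8 / 1000 + 12 / 10 * (128 / 1000 - τ)) - γ ≤ G)
    (hG2 : 128 / 1000 ≤ τ → -(Real.pi * τ) - 2 / 100 - γ ≤ G) :
    ∃ c : ℝ, -(1 / 4) ≤ c ∧ c ≤ 0 ∧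
      (-(1 / 100) - 17 / 10 * t) + -G ≤
        VR n ⟨1 / 4, t⟩ ⟨1 / 4, -τ⟩ ⟨c, ρ⟩ - VR n ⟨x, 0⟩ ⟨k, 0⟩ ⟨s, 0⟩ := by
  have hF := cell0 (by linarith) hx1 hs ho
  rcases lt_or_ge n 5 with n5 | n5
  · have a1 := h4 n5
    have a2 := u4 n5
    have a3 := hc.1
    refine asm (m := 4) (c := 17 / 100) (nt := 20107 / 10000) (by linarith) hρ (by norm_num) (by norm_num)
      (by norm_num) (by norm_num) (hG1 (u4 n5)) hF ?_
    have hp := one_of r_fa1 (by norm_num) (x := t) (y := τ) (z := ρ) (w := 0)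
      (by norm_num; linarith) (by norm_num; linarith) (by norm_num; linarith)
      (by norm_num; linarith) (by norm_num; linarith) (by norm_num; linarith)
      (by norm_num) (by norm_num)
    rw [fin_val] at hp
    simp only [dl, E.val, c_val, v1] at hp
    norm_num at hp ⊢
    linarith
  rcases lt_or_ge n 6 with n6 | n6
  · have a1 := h5 n6
    have a2 := u5 n6
    have a3 := hc.2.1 n5
    rcases le_total τ (128 / 1000) with hτ | hτ
    · refine asm (m := 5) (c := 135 / 1000) (nt := 20421 / 10000) (by linarith) hρ (by norm_num) (by norm_num)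
        (by norm_num) (by norm_num) (hG1 hτ) hF ?_
      have hp := one_of r_fb1 (by norm_num) (x := t) (y := τ) (z := ρ) (w := 0)
        (by norm_num; linarith) (by norm_num; linarith) (by norm_num; linarith)
        (by norm_num; linarith) (by norm_num; linarith) (by norm_num; linarith)
        (by norm_num) (by norm_num)
      rw [fin_val] at hp
      simp only [dl, E.val, c_val, v1] at hp
      norm_num at hp ⊢
      linarith
    · refine asm (m := 5) (c := 135 / 1000) (nt := 20421 / 10000) (by linarith) hρ (by norm_num) (by norm_num)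
        (by norm_num) (by norm_num) (hG2 hτ) hF ?_
      have hp := one_of r_fc1 (by norm_num) (x := t) (y := τ) (z := ρ) (w := 0)
        (by norm_num; linarith) (by norm_num; linarith) (by norm_num; linarith)
        (by norm_num; linarith) (by norm_num; linarith) (by norm_num; linarith)
        (by norm_num) (by norm_num)
      rw [fin_val] at hp
      simp only [dl, E.val, c_val, v1] at hp
      norm_num at hp ⊢
      linarith
  · have a3 := hc.2.2.1 n6
    rcases le_total τ (128 / 1000) with hτ | hτ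
    · refine asm (m := 6) (c := 135 / 1000) (nt := 11939 / 10000) (by linarith) hρ (by norm_num) (by norm_num)
        (by norm_num) (by norm_num) (hG1 hτ) hF ?_
      have hp := one_of r_fd1 (by norm_num) (x := t) (y := τ) (z := ρ) (w := 0)
        (by norm_num; linarith) (by norm_num; linarith) (by norm_num; linarith)
        (by norm_num; linarith) (by norm_num; linarith) (by norm_num; linarith)
        (by norm_num) (by norm_num)
      rw [fin_val] at hp
      simp only [dl, E.val, c_val, v1] at hp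
      norm_num at hp ⊢
      linarith
    · refine asm (m := 6) (c := 135 / 1000) (nt := 11939 / 10000) (by linarith) hρ (by norm_num) (by norm_num)
        (by norm_num) (by norm_num) (hG2 hτ) hF ?_
      have hp := one_of r_fe1 (by norm_num) (x := t) (y := τ) (z := ρ) (w := 0)
        (by norm_num; linarith) (by norm_num; linarith) (by norm_num; linarith)
        (by norm_num; linarith) (by norm_num; linarith) (by norm_num; linarith)
        (by norm_num) (by norm_num)
      rw [fin_val] at hp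
      simp only [dl, E.val, c_val, v1] at hp
      norm_num at hp ⊢
      linarith

theorem un_2 {n ρ s x t k τ G γ : ℝ} (hn : 4 ≤ n) (hρ : 0 ≤ ρ) (hc : RCap n ρ)
    (hs : |s| ≤ 1 / 2) (hx : 65 / 100 ≤ x) (hx1 : x ≤ 95 / 100) (h2 : -(158 / 1000) ≤ t) (h3 : t ≤ -(38 / 1000))
    (h4 : n < 5 → -(128 / 1000) ≤ t) (h5 : n < 6 → -(138 / 1000) ≤ t)
    (u0 : 38 / 1000 ≤ τ) (u1 : τ ≤ 158 / 1000) (u4 : n < 5 → τ ≤ 128 / 1000)
    (u5 : n < 6 → τ ≤ 138 / 1000) (ho : Old1 k γ)
    (hG1 : τ ≤ 128 / 1000 → -(Real.pi * τ) - (8 / 1000 + 12 / 10 * (128 / 1000 - τ)) - γ ≤ G)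
    (hG2 : 128 / 1000 ≤ τ → -(Real.pi * τ) - 2 / 100 - γ ≤ G) :
    ∃ c : ℝ, -(1 / 4) ≤ c ∧ c ≤ 0 ∧
      (14 / 100 - 21 / 10 * t) + -G ≤
        VR n ⟨1 / 4, t⟩ ⟨1 / 4, -τ⟩ ⟨c, ρ⟩ - VR n ⟨x, 0⟩ ⟨k, 0⟩ ⟨s, 0⟩ := by
  have hF := cell2 hx hx1 hs ho
  rcases lt_or_ge n 5 with n5 | n5
  · have a1 := h4 n5
    have a2 := u4 n5
    have a3 := hc.1
    refine asm (m := 4) (c := 17 / 100) (nt := 20107 / 10000) (by linarith) hρ (by norm_num) (by norm_num)
      (by norm_num) (by norm_num) (hG1 (u4 n5)) hF ?_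
    have hp := one_of r_fa2 (by norm_num) (x := t) (y := τ) (z := ρ) (w := 0)
      (by norm_num; linarith) (by norm_num; linarith) (by norm_num; linarith)
      (by norm_num; linarith) (by norm_num; linarith) (by norm_num; linarith)
      (by norm_num) (by norm_num)
    rw [fin_val] at hp
    simp only [dl, E.val, c_val, v1] at hp
    norm_num at hp ⊢
    linarith
  rcases lt_or_ge n 6 with n6 | n6
  · have a1 := h5 n6
    have a2 := u5 n6
    have a3 := hc.2.1 n5
    rcases le_total τ (128 / 1000) with hτ | hτ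
    · refine asm (m := 5) (c := 135 / 1000) (nt := 20421 / 10000) (by linarith) hρ (by norm_num) (by norm_num)
        (by norm_num) (by norm_num) (hG1 hτ) hF ?_
      have hp := one_of r_fb2 (by norm_num) (x := t) (y := τ) (z := ρ) (w := 0)
        (by norm_num; linarith) (by norm_num; linarith) (by norm_num; linarith)
        (by norm_num; linarith) (by norm_num; linarith) (by norm_num; linarith)
        (by norm_num) (by norm_num)
      rw [fin_val] at hp
      simp only [dl, E.val, c_val, v1] at hp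
      norm_num at hp ⊢
      linarith
    · refine asm (m := 5) (c := 135 / 1000) (nt := 20421 / 10000) (by linarith) hρ (by norm_num) (by norm_num)
        (by norm_num) (by norm_num) (hG2 hτ) hF ?_
      have hp := one_of r_fc2 (by norm_num) (x := t) (y := τ) (z := ρ) (w := 0)
        (by norm_num; linarith) (by norm_num; linarith) (by norm_num; linarith)
        (by norm_num; linarith) (by norm_num; linarith) (by norm_num; linarith)
        (by norm_num) (by norm_num)
      rw [fin_val] at hp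
      simp only [dl, E.val, c_val, v1] at hp
      norm_num at hp ⊢
      linarith
  · have a3 := hc.2.2.1 n6
    rcases le_total τ (128 / 1000) with hτ | hτ
    · refine asm (m := 6) (c := 135 / 1000) (nt := 11939 / 10000) (by linarith) hρ (by norm_num) (by norm_num)
        (by norm_num) (by norm_num) (hG1 hτ) hF ?_
      have hp := one_of r_fd2 (by norm_num) (x := t) (y := τ) (z := ρ) (w := 0)
        (by norm_num; linarith) (by norm_num; linarith) (by norm_num; linarith)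
        (by norm_num; linarith) (by norm_num; linarith) (by norm_num; linarith)
        (by norm_num) (by norm_num)
      rw [fin_val] at hp
      simp only [dl, E.val, c_val, v1] at hp
      norm_num at hp ⊢
      linarith
    · refine asm (m := 6) (c := 135 / 1000) (nt := 11939 / 10000) (by linarith) hρ (by norm_num) (by norm_num)
        (by norm_num) (by norm_num) (hG2 hτ) hF ?_
      have hp := one_of r_fe2 (by norm_num) (x := t) (y := τ) (z := ρ) (w := 0)
        (by norm_num; linarith) (by norm_num; linarith) (by norm_num; linarith)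
        (by norm_num; linarith) (by norm_num; linarith) (by norm_num; linarith)
        (by norm_num) (by norm_num)
      rw [fin_val] at hp
      simp only [dl, E.val, c_val, v1] at hp
      norm_num at hp ⊢
      linarith

theorem un_3 {n ρ s x t k τ G γ : ℝ} (hn : 4 ≤ n) (hρ : 0 ≤ ρ) (hc : RCap n ρ)
    (hs : |s| ≤ 1 / 2) (hx : 95 / 100 ≤ x) (hx1 : x ≤ 1) (h2 : -(131 / 1000) ≤ t) (h3 : t ≤ 4 / 1000)
    (h4 : n < 5 → -(115 / 1000) ≤ t)
    (u0 : 38 / 1000 ≤ τ) (u1 : τ ≤ 158 / 1000) (u4 : n < 5 → τ ≤ 128 / 1000)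
    (u5 : n < 6 → τ ≤ 138 / 1000) (ho : Old1 k γ)
    (hG1 : τ ≤ 128 / 1000 → -(Real.pi * τ) - (8 / 1000 + 12 / 10 * (128 / 1000 - τ)) - γ ≤ G)
    (hG2 : 128 / 1000 ≤ τ → -(Real.pi * τ) - 2 / 100 - γ ≤ G) :
    ∃ c : ℝ, -(1 / 4) ≤ c ∧ c ≤ 0 ∧
      (-(4 / 100) - 17 / 10 * t) + -G ≤
        VR n ⟨1 / 4, t⟩ ⟨1 / 4, -τ⟩ ⟨c, ρ⟩ - VR n ⟨x, 0⟩ ⟨k, 0⟩ ⟨s, 0⟩ := by
  have hF := cell0 (by linarith) hx1 hs ho
  rcases lt_or_ge n 5 with n5 | n5
  · have a1 := h4 n5
    have a2 := u4 n5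
    have a3 := hc.1
    refine asm (m := 4) (c := 17 / 100) (nt := 20107 / 10000) (by linarith) hρ (by norm_num) (by norm_num)
      (by norm_num) (by norm_num) (hG1 (u4 n5)) hF ?_
    have hp := one_of r_fa3 (by norm_num) (x := t) (y := τ) (z := ρ) (w := 0)
      (by norm_num; linarith) (by norm_num; linarith) (by norm_num; linarith)
      (by norm_num; linarith) (by norm_num; linarith) (by norm_num; linarith)
      (by norm_num) (by norm_num)
    rw [fin_val] at hp
    simp only [dl, E.val, c_val, v1] at hp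
    norm_num at hp ⊢
    linarith
  rcases lt_or_ge n 6 with n6 | n6
  · have a2 := u5 n6
    have a3 := hc.2.1 n5
    rcases le_total τ (128 / 1000) with hτ | hτ
    · refine asm (m := 5) (c := 135 / 1000) (nt := 20421 / 10000) (by linarith) hρ (by norm_num) (by norm_num)
        (by norm_num) (by norm_num) (hG1 hτ) hF ?_
      have hp := one_of r_fb3 (by norm_num) (x := t) (y := τ) (z := ρ) (w := 0)
        (by norm_num; linarith) (by norm_num; linarith) (by norm_num; linarith)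
        (by norm_num; linarith) (by norm_num; linarith) (by norm_num; linarith)
        (by norm_num) (by norm_num)
      rw [fin_val] at hp
      simp only [dl, E.val, c_val, v1] at hp
      norm_num at hp ⊢
      linarith
    · refine asm (m := 5) (c := 135 / 1000) (nt := 20421 / 10000) (by linarith) hρ (by norm_num) (by norm_num)
        (by norm_num) (by norm_num) (hG2 hτ) hF ?_
      have hp := one_of r_fc3 (by norm_num) (x := t) (y := τ) (z := ρ) (w := 0)
        (by norm_num; linarith) (by norm_num; linarith) (by norm_num; linarith)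
        (by norm_num; linarith) (by norm_num; linarith) (by norm_num; linarith)
        (by norm_num) (by norm_num)
      rw [fin_val] at hp
      simp only [dl, E.val, c_val, v1] at hp
      norm_num at hp ⊢
      linarith
  · have a3 := hc.2.2.1 n6
    rcases le_total τ (128 / 1000) with hτ | hτ
    · refine asm (m := 5) (c := 135 / 1000) (nt := 20421 / 10000) (by linarith) hρ (by norm_num) (by norm_num)
        (by norm_num) (by norm_num) (hG1 hτ) hF ?_
      have hp := one_of r_fb3 (by norm_num) (x := t) (y := τ) (z := ρ) (w := 0)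
        (by norm_num; linarith) (by norm_num; linarith) (by norm_num; linarith)
        (by norm_num; linarith) (by norm_num; linarith) (by norm_num; linarith)
        (by norm_num) (by norm_num)
      rw [fin_val] at hp
      simp only [dl, E.val, c_val, v1] at hp
      norm_num at hp ⊢
      linarith
    · refine asm (m := 6) (c := 135 / 1000) (nt := 11939 / 10000) (by linarith) hρ (by norm_num) (by norm_num)
        (by norm_num) (by norm_num) (hG2 hτ) hF ?_
      have hp := one_of r_fe3 (by norm_num) (x := t) (y := τ) (z := ρ) (w := 0)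
        (by norm_num; linarith) (by norm_num; linarith) (by norm_num; linarith)
        (by norm_num; linarith) (by norm_num; linarith) (by norm_num; linarith)
        (by norm_num) (by norm_num)
      rw [fin_val] at hp
      simp only [dl, E.val, c_val, v1] at hp
      norm_num at hp ⊢
      linarith

theorem un_4 {n ρ s x t k τ G γ : ℝ} (hn : 4 ≤ n) (hρ : 0 ≤ ρ) (hc : RCap n ρ)
    (hs : |s| ≤ 1 / 2) (hx : 60 / 100 ≤ x) (hx1 : x ≤ 95 / 100) (h2 : -(131 / 1000) ≤ t) (h3 : t ≤ 4 / 1000)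
    (h4 : n < 5 → -(115 / 1000) ≤ t)
    (u0 : 38 / 1000 ≤ τ) (u1 : τ ≤ 158 / 1000) (u4 : n < 5 → τ ≤ 128 / 1000)
    (u5 : n < 6 → τ ≤ 138 / 1000) (ho : Old1 k γ)
    (hG1 : τ ≤ 128 / 1000 → -(Real.pi * τ) - (8 / 1000 + 12 / 10 * (128 / 1000 - τ)) - γ ≤ G)
    (hG2 : 128 / 1000 ≤ τ → -(Real.pi * τ) - 2 / 100 - γ ≤ G) :
    ∃ c : ℝ, -(1 / 4) ≤ c ∧ c ≤ 0 ∧
      (6 / 100 - 17 / 10 * t) + -G ≤
        VR n ⟨1 / 4, t⟩ ⟨1 / 4, -τ⟩ ⟨c, ρ⟩ - VR n ⟨x, 0⟩ ⟨k, 0⟩ ⟨s, 0⟩ := by
  have hF := cell4 hx hx1 hs ho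
  rcases lt_or_ge n 5 with n5 | n5
  · have a1 := h4 n5
    have a2 := u4 n5
    have a3 := hc.1
    refine asm (m := 4) (c := 17 / 100) (nt := 20107 / 10000) (by linarith) hρ (by norm_num) (by norm_num)
      (by norm_num) (by norm_num) (hG1 (u4 n5)) hF ?_
    have hp := one_of r_fa4 (by norm_num) (x := t) (y := τ) (z := ρ) (w := 0)
      (by norm_num; linarith) (by norm_num; linarith) (by norm_num; linarith)
      (by norm_num; linarith) (by norm_num; linarith) (by norm_num; linarith)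
      (by norm_num) (by norm_num)
    rw [fin_val] at hp
    simp only [dl, E.val, c_val, v1] at hp
    norm_num at hp ⊢
    linarith
  rcases lt_or_ge n 6 with n6 | n6
  · have a2 := u5 n6
    have a3 := hc.2.1 n5
    rcases le_total τ (128 / 1000) with hτ | hτ
    · refine asm (m := 5) (c := 135 / 1000) (nt := 20421 / 10000) (by linarith) hρ (by norm_num) (by norm_num)
        (by norm_num) (by norm_num) (hG1 hτ) hF ?_
      have hp := one_of r_fb4 (by norm_num) (x := t) (y := τ) (z := ρ) (w := 0)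
        (by norm_num; linarith) (by norm_num; linarith) (by norm_num; linarith)
        (by norm_num; linarith) (by norm_num; linarith) (by norm_num; linarith)
        (by norm_num) (by norm_num)
      rw [fin_val] at hp
      simp only [dl, E.val, c_val, v1] at hp
      norm_num at hp ⊢
      linarith
    · refine asm (m := 5) (c := 135 / 1000) (nt := 20421 / 10000) (by linarith) hρ (by norm_num) (by norm_num)
        (by norm_num) (by norm_num) (hG2 hτ) hF ?_
      have hp := one_of r_fc4 (by norm_num) (x := t) (y := τ) (z := ρ) (w := 0)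
        (by norm_num; linarith) (by norm_num; linarith) (by norm_num; linarith)
        (by norm_num; linarith) (by norm_num; linarith) (by norm_num; linarith)
        (by norm_num) (by norm_num)
      rw [fin_val] at hp
      simp only [dl, E.val, c_val, v1] at hp
      norm_num at hp ⊢
      linarith
  · have a3 := hc.2.2.1 n6
    rcases le_total τ (128 / 1000) with hτ | hτ
    · refine asm (m := 5) (c := 135 / 1000) (nt := 20421 / 10000) (by linarith) hρ (by norm_num) (by norm_num)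
        (by norm_num) (by norm_num) (hG1 hτ) hF ?_
      have hp := one_of r_fb4 (by norm_num) (x := t) (y := τ) (z := ρ) (w := 0)
        (by norm_num; linarith) (by norm_num; linarith) (by norm_num; linarith)
        (by norm_num; linarith) (by norm_num; linarith) (by norm_num; linarith)
        (by norm_num) (by norm_num)
      rw [fin_val] at hp
      simp only [dl, E.val, c_val, v1] at hp
      norm_num at hp ⊢
      linarith
    · refine asm (m := 6) (c := 135 / 1000) (nt := 11939 / 10000) (by linarith) hρ (by norm_num) (by norm_num)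
        (by norm_num) (by norm_num) (hG2 hτ) hF ?_
      have hp := one_of r_fe4 (by norm_num) (x := t) (y := τ) (z := ρ) (w := 0)
        (by norm_num; linarith) (by norm_num; linarith) (by norm_num; linarith)
        (by norm_num; linarith) (by norm_num; linarith) (by norm_num; linarith)
        (by norm_num) (by norm_num)
      rw [fin_val] at hp
      simp only [dl, E.val, c_val, v1] at hp
      norm_num at hp ⊢
      linarith

theorem un_5 {n ρ s x t k τ G γ : ℝ} (hn : 4 ≤ n) (hρ : 0 ≤ ρ) (hc : RCap n ρ)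
    (hs : |s| ≤ 1 / 2) (hx : 1 / 2 ≤ x) (hx1 : x ≤ 1) (h2 : -(385 / 10000) ≤ t) (h3 : t ≤ 59 / 1000)
    (h4 : n < 5 → -(25 / 1000) ≤ t)
    (u0 : 38 / 1000 ≤ τ) (u1 : τ ≤ 158 / 1000) (u4 : n < 5 → τ ≤ 128 / 1000)
    (u5 : n < 6 → τ ≤ 138 / 1000) (ho : Old1 k γ)
    (hG1 : τ ≤ 128 / 1000 → -(Real.pi * τ) - (8 / 1000 + 12 / 10 * (128 / 1000 - τ)) - γ ≤ G)
    (hG2 : 128 / 1000 ≤ τ → -(Real.pi * τ) - 2 / 100 - γ ≤ G) :
    ∃ c : ℝ, -(1 / 4) ≤ c ∧ c ≤ 0 ∧
      (1 / 100) + -G ≤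
        VR n ⟨1 / 4, t⟩ ⟨1 / 4, -τ⟩ ⟨c, ρ⟩ - VR n ⟨x, 0⟩ ⟨k, 0⟩ ⟨s, 0⟩ := by
  have hF := cell0 hx hx1 hs ho
  rcases lt_or_ge n 5 with n5 | n5
  · have a1 := h4 n5
    have a2 := u4 n5
    have a3 := hc.1
    refine asm (m := 4) (c := 17 / 100) (nt := 20107 / 10000) (by linarith) hρ (by norm_num) (by norm_num)
      (by norm_num) (by norm_num) (hG1 (u4 n5)) hF ?_
    have hp := one_of r_fa5 (by norm_num) (x := t) (y := τ) (z := ρ) (w := 0)
      (by norm_num; linarith) (by norm_num; linarith) (by norm_num; linarith)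
      (by norm_num; linarith) (by norm_num; linarith) (by norm_num; linarith)
      (by norm_num) (by norm_num)
    rw [fin_val] at hp
    simp only [dl, E.val, c_val, v1] at hp
    norm_num at hp ⊢
    linarith
  rcases lt_or_ge n 6 with n6 | n6
  · have a2 := u5 n6
    have a3 := hc.2.1 n5
    rcases le_total τ (128 / 1000) with hτ | hτ
    · refine asm (m := 5) (c := 135 / 1000) (nt := 20421 / 10000) (by linarith) hρ (by norm_num) (by norm_num)
        (by norm_num) (by norm_num) (hG1 hτ) hF ?_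
      have hp := one_of r_fb5 (by norm_num) (x := t) (y := τ) (z := ρ) (w := 0)
        (by norm_num; linarith) (by norm_num; linarith) (by norm_num; linarith)
        (by norm_num; linarith) (by norm_num; linarith) (by norm_num; linarith)
        (by norm_num) (by norm_num)
      rw [fin_val] at hp
      simp only [dl, E.val, c_val, v1] at hp
      norm_num at hp ⊢
      linarith
    · refine asm (m := 5) (c := 135 / 1000) (nt := 20421 / 10000) (by linarith) hρ (by norm_num) (by norm_num)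
        (by norm_num) (by norm_num) (hG2 hτ) hF ?_
      have hp := one_of r_fc5 (by norm_num) (x := t) (y := τ) (z := ρ) (w := 0)
        (by norm_num; linarith) (by norm_num; linarith) (by norm_num; linarith)
        (by norm_num; linarith) (by norm_num; linarith) (by norm_num; linarith)
        (by norm_num) (by norm_num)
      rw [fin_val] at hp
      simp only [dl, E.val, c_val, v1] at hp
      norm_num at hp ⊢
      linarith
  · have a3 := hc.2.2.1 n6
    rcases le_total τ (128 / 1000) with hτ | hτ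
    · refine asm (m := 5) (c := 135 / 1000) (nt := 20421 / 10000) (by linarith) hρ (by norm_num) (by norm_num)
        (by norm_num) (by norm_num) (hG1 hτ) hF ?_
      have hp := one_of r_fb5 (by norm_num) (x := t) (y := τ) (z := ρ) (w := 0)
        (by norm_num; linarith) (by norm_num; linarith) (by norm_num; linarith)
        (by norm_num; linarith) (by norm_num; linarith) (by norm_num; linarith)
        (by norm_num) (by norm_num)
      rw [fin_val] at hp
      simp only [dl, E.val, c_val, v1] at hp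
      norm_num at hp ⊢
      linarith
    · refine asm (m := 6) (c := 135 / 1000) (nt := 11939 / 10000) (by linarith) hρ (by norm_num) (by norm_num)
        (by norm_num) (by norm_num) (hG2 hτ) hF ?_
      have hp := one_of r_fe5 (by norm_num) (x := t) (y := τ) (z := ρ) (w := 0)
        (by norm_num; linarith) (by norm_num; linarith) (by norm_num; linarith)
        (by norm_num; linarith) (by norm_num; linarith) (by norm_num; linarith)
        (by norm_num) (by norm_num)
      rw [fin_val] at hp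
      simp only [dl, E.val, c_val, v1] at hp
      norm_num at hp ⊢
      linarith

/-! ### the other classes -/

theorem q_two {τ ρ : ℝ} (h0 : 10 / 1000 ≤ τ) (h1 : τ ≤ 96 / 1000) (r0 : 0 ≤ ρ)
    (r1 : ρ ≤ 1045 / 10000) : Lc .two τ + (2556 / 10000 + 10510 / 10000 * ρ) ≤
      fR ⟨1 / 4, -τ⟩ ⟨-(170 / 1000), ρ⟩ := by
  have hp := one_of r_q2 (by norm_num) (x := ρ) (y := τ) (z := 0) (w := 0)
    (by norm_num; linarith) (by norm_num; linarith) (by norm_num; linarith)
    (by norm_num; linarith) (by norm_num) (by norm_num) (by norm_num) (by norm_num)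
  rw [q_val] at hp
  simp only [L2, E.val, c_val, v0, v1] at hp
  simp only [Lc]
  norm_num at hp ⊢
  linarith

theorem q_twoE {τ ρ : ℝ} (h0 : 88 / 1000 ≤ τ) (h1 : τ ≤ 131 / 1000) (r0 : 0 ≤ ρ)
    (r1 : ρ ≤ 1045 / 10000) : Lc .twoE τ + (2556 / 10000 + 10510 / 10000 * ρ) ≤
      fR ⟨11 / 50, -τ⟩ ⟨-(170 / 1000), ρ⟩ := by
  have hp := one_of r_qE (by norm_num) (x := ρ) (y := τ) (z := 0) (w := 0)
    (by norm_num; linarith) (by norm_num; linarith) (by norm_num; linarith)
    (by norm_num; linarith) (by norm_num) (by norm_num) (by norm_num) (by norm_num)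
  rw [q_val] at hp
  simp only [LB, E.val, c_val, v0, v1] at hp
  simp only [Lc]
  norm_num at hp ⊢
  linarith

theorem q_threeA {τ ρ : ℝ} (h0 : -(4 / 1000) ≤ τ) (h1 : τ ≤ 57 / 1000) (r0 : 0 ≤ ρ)
    (r1 : ρ ≤ 1045 / 10000) : Lc .threeA τ + (2556 / 10000 + 10510 / 10000 * ρ) ≤
      fR ⟨11 / 50, -τ⟩ ⟨-(170 / 1000), ρ⟩ := by
  have hp := one_of r_qA (by norm_num) (x := ρ) (y := τ) (z := 0) (w := 0)
    (by norm_num; linarith) (by norm_num; linarith) (by norm_num; linarith)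
    (by norm_num; linarith) (by norm_num) (by norm_num) (by norm_num) (by norm_num)
  rw [q_val] at hp
  simp only [LA, E.val, c_val, v0, v1] at hp
  simp only [Lc]
  norm_num at hp ⊢
  linarith

theorem q_threeK {τ ρ : ℝ} (h0 : -(4 / 1000) ≤ τ) (h1 : τ ≤ 57 / 1000) (r0 : 0 ≤ ρ)
    (r1 : ρ ≤ 1045 / 10000) : Lc .threeK τ + (2556 / 10000 + 10510 / 10000 * ρ) ≤
      fR ⟨9 / 50, -τ⟩ ⟨-(170 / 1000), ρ⟩ := by
  have hp := one_of r_qK (by norm_num) (x := ρ) (y := τ) (z := 0) (w := 0)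
    (by norm_num; linarith) (by norm_num; linarith) (by norm_num; linarith)
    (by norm_num; linarith) (by norm_num) (by norm_num) (by norm_num) (by norm_num)
  rw [q_val] at hp
  simp only [LK, E.val, c_val, v0, v1] at hp
  simp only [Lc]
  norm_num at hp ⊢
  linarith

theorem q_threeE {τ ρ : ℝ} (h0 : 18 / 1000 ≤ τ) (h1 : τ ≤ 58 / 1000) (r0 : 0 ≤ ρ)
    (r1 : ρ ≤ 1045 / 10000) : Lc .threeE τ + (2556 / 10000 + 10510 / 10000 * ρ) ≤
      fR ⟨11 / 50, -τ⟩ ⟨-(170 / 1000), ρ⟩ := by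
  have hp := one_of r_q3 (by norm_num) (x := ρ) (y := τ) (z := 0) (w := 0)
    (by norm_num; linarith) (by norm_num; linarith) (by norm_num; linarith)
    (by norm_num; linarith) (by norm_num) (by norm_num) (by norm_num) (by norm_num)
  rw [q_val] at hp
  simp only [L3, E.val, c_val, v0, v1] at hp
  simp only [Lc]
  norm_num at hp ⊢
  linarith

theorem q_ring {t τ ρ : ℝ} (h0 : |τ| ≤ 59 / 1000) (h1 : τ = t ∨ τ = -t)
    (h2 : -(385 / 10000) ≤ t) (r0 : 0 ≤ ρ) (r1 : ρ ≤ 1045 / 10000) :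
    Lc .ring τ + (2556 / 10000 + 10510 / 10000 * ρ) ≤ fR ⟨9 / 50, t⟩ ⟨-(170 / 1000), ρ⟩ := by
  obtain ⟨a0, a1⟩ := abs_le.1 h0
  simp only [Lc]
  rcases le_total τ 0 with ht | ht
  · rw [max_eq_right ht]
    have hp := one_of r_qT (by norm_num) (x := ρ) (y := t) (z := 0) (w := 0)
      (by norm_num; linarith) (by norm_num; linarith) (by norm_num; linarith)
      (by norm_num; rcases h1 with h1 | h1 <;> linarith) (by norm_num) (by norm_num)
      (by norm_num) (by norm_num)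
    rw [q_val] at hp
    simp only [E.val, c_val, v0, v1] at hp
    norm_num at hp ⊢
    linarith
  rw [max_eq_left ht]
  rcases h1 with h1 | h1
  · have hp := one_of r_qR (by norm_num) (x := ρ) (y := τ) (z := 0) (w := 0)
      (by norm_num; linarith) (by norm_num; linarith) (by norm_num; linarith)
      (by norm_num; linarith) (by norm_num) (by norm_num) (by norm_num) (by norm_num)
    rw [q_val] at hp
    simp only [LR, E.val, c_val, v0, v1] at hp
    rw [← h1]
    norm_num at hp ⊢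
    linarith
  · have hp := one_of r_qS (by norm_num) (x := ρ) (y := τ) (z := 0) (w := 0)
      (by norm_num; linarith) (by norm_num; linarith) (by norm_num; linarith)
      (by norm_num; linarith) (by norm_num) (by norm_num) (by norm_num) (by norm_num)
    rw [q_val] at hp
    simp only [LR, E.val, c_val, v0, v1] at hp
    rw [show t = -τ by linarith]
    norm_num at hp ⊢
    linarith

theorem q_nb {t ρ : ℝ} (h0 : -(385 / 10000) ≤ t) (h1 : t ≤ 59 / 1000) (r0 : 0 ≤ ρ)
    (r1 : ρ ≤ 1045 / 10000) : 0 + (2556 / 10000 + 10510 / 10000 * ρ) ≤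
      fR ⟨1 / 5, t⟩ ⟨-(170 / 1000), ρ⟩ := by
  have hp := one_of r_qN (by norm_num) (x := ρ) (y := t) (z := 0) (w := 0)
    (by norm_num; linarith) (by norm_num; linarith) (by norm_num; linarith)
    (by norm_num; linarith) (by norm_num) (by norm_num) (by norm_num) (by norm_num)
  rw [q_val] at hp
  simp only [E.val, c_val, v0, v1] at hp
  norm_num at hp ⊢
  linarith

theorem RT.old {n g : ℝ} {w w1 : ℂ} (h : RT n w w1 g) :
    ∃ g0, RTail n false w w1 g0 ∧ g ≤ g0 := by
  cases h with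
  | @one x t h0 h1 h2 h3 h4 h5 =>
    refine ⟨_, .one h0 h1 h2 h3 h4 h5, ?_⟩
    simp only [TL.gR, al, be]
    split_ifs <;> linarith
  | @lo x t h0 h1 h2 h3 h4 =>
    refine ⟨_, .lo h0 h1 h2 h3 h4, ?_⟩
    simp only [TL.gR]
    split_ifs <;> linarith
  | @ring x t h0 h1 h2 h3 h4 =>
    exact ⟨_, .ring h0 h1 h2 h3 h4, by simp only [TL.gR]; exact le_rfl⟩

theorem un_lo {n ρ s g k L G : ℝ} {w w1 w' : ℂ} (hn : 4 ≤ n) (hρ : 0 ≤ ρ) (hc : RCap n ρ)
    (hs : |s| ≤ 1 / 2) (h : RT n w w1 g) (hG : Gs k L G)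
    (hq : L + (2556 / 10000 + 10510 / 10000 * ρ) ≤ fR w' ⟨-(170 / 1000), ρ⟩) :
    ∃ c : ℝ, -(1 / 4) ≤ c ∧ c ≤ 0 ∧
      g + -G ≤ VR n w1 w' ⟨c, ρ⟩ - VR n w ⟨k, 0⟩ ⟨s, 0⟩ := by
  obtain ⟨g0, h', hg⟩ := RT.old h
  obtain ⟨b1, b2⟩ := tail_bd ld170 hρ hc.1 hs h'
  obtain ⟨o1, o2⟩ := hG s hs
  rcases le_total |s| (235 / 1000) with c | c
  · have b3 := b2 c
    exact K5.fin (c := 170 / 1000) (X := 3285 / 10000 + 9600 / 10000 * ρ) (Y := 2556 / 10000 + 10510 / 10000 * ρ -
      584 / 1000) hn hρ (by norm_num) (by norm_num) (by linarith) (by linarith) (by linarith)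
  · have o3 := o2 c
    exact K5.fin (c := 170 / 1000) (X := 1985 / 10000 + 9600 / 10000 * ρ) (Y := 2556 / 10000 + 10510 / 10000 * ρ -
      454 / 1000) hn hρ (by norm_num) (by norm_num) (by linarith) (by linarith) (by linarith)

end R4

open R4

/-- a touched ring: the other slot is real, the region behind it is untouched -/
theorem side_un {n ρ s g k t τ G : ℝ} {C : Ct} {w w1 : ℂ} (hn : 4 ≤ n) (hρ : 0 ≤ ρ)
    (hc : RCap n ρ) (hs : |s| ≤ 1 / 2) (h : RT n w w1 g) (h0 : 0 ≤ k) (h1 : k ≤ 65 / 100)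
    (hR : C = .ring → k ≤ 1 / 2) (hτ : C ≠ .ring → τ = -t)
    (hτ' : C = .ring → τ = t ∨ τ = -t) (h4 : C = .one → n < 5 → -(128 / 1000) ≤ t)
    (h5 : C = .one → n < 6 → -(138 / 1000) ≤ t) (h8 : C = .ring → -(385 / 10000) ≤ t)
    (hC : C ≠ .touched) (hG : Gn .ring (cZ C) k τ C G) :
    ∃ c : ℝ, -(1 / 4) ≤ c ∧ c ≤ 0 ∧
      g + -G ≤ VR n w1 ⟨cZ C, t⟩ ⟨c, ρ⟩ - VR n w ⟨k, 0⟩ ⟨s, 0⟩ := by
  have hρ1 := hc.1
  cases hG with
  | @one D X Y a0 a1 a2 hb hX hX' =>
    have e : t = -τ := by linarith [hτ (by decide)]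
    have u4 : n < 5 → τ ≤ 128 / 1000 := fun hn5 => by linarith [h4 rfl hn5]
    have u5 : n < 6 → τ ≤ 138 / 1000 := fun hn6 => by linarith [h5 rfl hn6]
    have key : 38 / 1000 ≤ τ ∧ τ ≤ 158 / 1000 ∧ ∃ γ, Old1 k γ ∧
        (τ ≤ 128 / 1000 → -(Real.pi * τ) - (8 / 1000 + 12 / 10 * (128 / 1000 - τ)) - γ ≤
          V1 ⟨1 / 4, τ⟩ ⟨X, Y⟩ - V1 ⟨k, 0⟩ ⟨X, Y⟩) ∧
        (128 / 1000 ≤ τ → -(Real.pi * τ) - 2 / 100 - γ ≤
          V1 ⟨1 / 4, τ⟩ ⟨X, Y⟩ - V1 ⟨k, 0⟩ ⟨X, Y⟩) := by
      cases D with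
      | one =>
        simp only [cw] at a0 a1
        exact ⟨by linarith, by linarith, g_1 h0 h1 a0 a1 hX⟩
      | two =>
        simp only [cw] at a0 a1
        exact ⟨by linarith, by linarith, g_2 h0 h1 a0 a1 hX⟩
      | twoE =>
        simp only [cw] at a0 a1
        exact ⟨by linarith, by linarith, g_E h0 h1 a0 a1 hX⟩
      | three => exact absurd ⟨Or.inr (Or.inr rfl), Or.inl rfl⟩ hb
      | threeE => exact absurd ⟨Or.inr (Or.inr rfl), Or.inr (Or.inl rfl)⟩ hb
      | ring => exact absurd ⟨Or.inr (Or.inr rfl), Or.inr (Or.inr rfl)⟩ hb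
    obtain ⟨u0, u1, γ, ho, g1, g2⟩ := key
    rw [e]
    have ec : cZ .one = 1 / 4 := rfl
    rw [ec]
    cases h with
    | @one x t' b0 b1 b2 b3 b4 b5 =>
      simp only [TL.gR]
      split_ifs with hx
      · exact un_1 hn hρ hc hs hx b1 b2 b3 b4 b5 u0 u1 u4 u5 ho g1 g2
      · exact un_2 hn hρ hc hs b0 (le_of_lt (not_le.mp hx)) b2 b3 b4 b5 u0 u1 u4 u5 ho g1 g2
    | @lo x t' b0 b1 b2 b3 b4 =>
      simp only [TL.gR]
      split_ifs with hx
      · exact un_3 hn hρ hc hs hx b1 b2 b3 b4 u0 u1 u4 u5 ho g1 g2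
      · exact un_4 hn hρ hc hs b0 (le_of_lt (not_le.mp hx)) b2 b3 b4 u0 u1 u4 u5 ho g1 g2
    | @ring x t' b0 b1 b2 b3 b4 =>
      simp only [TL.gR]
      exact un_5 hn hρ hc hs b0 b1 b2 b3 b4 u0 u1 u4 u5 ho g1 g2
  | @two X Y a0 a1 hX =>
    have e : t = -τ := by linarith [hτ (by decide)]
    simp only [hbox] at a0 a1
    rw [e]
    exact un_lo hn hρ hc hs h (Gs.const h0 h1 (g_two h0 h1 a0 a1 hX)) (q_two a0 a1 hρ hρ1)
  | twoE a0 a1 =>
    have e : t = -τ := by linarith [hτ (by decide)]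
    simp only [hbox] at a0 a1
    rw [e]
    exact un_lo hn hρ hc hs h (Gs.const h0 h1 (g_twoE h0 h1 a0 a1)) (q_twoE a0 a1 hρ hρ1)
  | @threeA X Y a0 a1 hX =>
    have e : t = -τ := by linarith [hτ (by decide)]
    simp only [hbox] at a0 a1
    rw [e]
    exact un_lo hn hρ hc hs h (g_threeA h0 h1 a0 a1 hX) (q_threeA a0 a1 hρ hρ1)
  | @threeS D X T Xo Yo a0 a1 hX0 hX1 t0 t1 s0 s1 ho =>
    have e : t = -τ := by linarith [hτ (by decide)]
    simp only [hbox] at a0 a1
    rw [e]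
    have hT : -(109 / 1000) ≤ T ∧ T ≤ 5 / 1000 := by
      cases D <;> simp only [mw] at t0 t1 s0 s1 <;> constructor <;> linarith
    exact un_lo hn hρ hc hs h (g_threeS h0 h1 a0 a1 hX0 hX1 hT.1 hT.2 ho) (q_threeA a0 a1 hρ hρ1)
  | @threeK X Y a0 a1 hX =>
    have e : t = -τ := by linarith [hτ (by decide)]
    simp only [hbox] at a0 a1
    rw [e]
    exact un_lo hn hρ hc hs h (Gs.const h0 h1 (g_threeK h0 h1 a0 a1 hX)) (q_threeK a0 a1 hρ hρ1)
  | @threeE l m a0 a1 m0 m1 hl hl1 =>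
    have e : t = -τ := by linarith [hτ (by decide)]
    simp only [hbox] at a0 a1
    rw [e]
    exact un_lo hn hρ hc hs h (Gs.const h0 h1 (g_threeE h0 h1 a0 a1 m0 m1 hl hl1))
      (q_threeE a0 a1 hρ hρ1)
  | @ring ρ' σ a0 a1 a2 b0 b1 c0 c1 =>
    have h2 := a2 rfl
    obtain ⟨d0, d1⟩ := abs_le.1 h2
    exact un_lo hn hρ hc hs h (g_ring h0 (hR rfl) d0 d1 b0 b1 c0 c1)
      (q_ring h2 (hτ' rfl) (h8 rfl) hρ hρ1)
  | touched => exact absurd rfl hC

/-- **KZ, new shares.**  A touched ring: the first slot is in the tail. -/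
theorem side_ringN {n ρ s g g' : ℝ} {w w1 w' w1' : ℂ} (hn : 4 ≤ n) (hρ : 0 ≤ ρ)
    (hc : RCap n ρ) (hs : |s| ≤ 1 / 2) (h : RT n w w1 g) (h' : RN n w' w1' g') :
    ∃ c : ℝ, -(1 / 4) ≤ c ∧ c ≤ 0 ∧
      g + g' ≤ VR n w1 w1' ⟨c, ρ⟩ - VR n w w' ⟨s, 0⟩ := by
  have hold : ∀ {hi' : Bool} {g0' : ℝ}, RSlot n hi' w' w1' g0' → g' ≤ g0' →
      ∃ c : ℝ, -(1 / 4) ≤ c ∧ c ≤ 0 ∧
        g + g' ≤ VR n w1 w1' ⟨c, ρ⟩ - VR n w w' ⟨s, 0⟩ := by
    intro hi' g0' hr hg'
    obtain ⟨g0, h1, hg⟩ := RT.old h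
    obtain ⟨c, c0, c1, hh⟩ := side_ring hn hρ hc hs h1 hr
    exact ⟨c, c0, c1, by linarith⟩
  cases h' with
  | no => exact hold (hi' := false) (.path (k := .no) rfl (fun _ => by norm_num) (by simp)) le_rfl
  | tail h1 =>
    obtain ⟨g0, h2, hg⟩ := RT.old h1
    refine hold (hi' := false) (g0' := g0) ?_ hg
    cases h2 with
    | one b0 b1 b2 b3 b4 b5 => exact .tailOne b0 b1 b2 b3 b4 b5
    | lo b0 b1 b2 b3 b4 => exact .tailLo b0 b1 b2 b3 b4
    | ring b0 b1 b2 b3 b4 => exact .tailRing b0 b1 b2 b3 b4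
  | un h0 h1 hC hR hτ hτ' h4 h5 h6 h7 h8 hG =>
    exact side_un hn hρ hc hs h h0 h1 hR hτ hτ' h4 h5 h8 hC hG
  | @nbOne x t h0 h1 h2 h3 h4 h5 =>
    rcases le_total x (1 / 2) with c | c
    · exact hold (hi' := false) (.nbOne h0 h1 h2 h3 h4 h5 (fun _ => c) (by simp)) le_rfl
    · exact hold (hi' := true) (.nbOne h0 h1 h2 h3 h4 h5 (by simp) (fun _ => c)) le_rfl
  | @nbLo x t h0 h1 h2 h3 h4 =>
    rcases le_total x (1 / 2) with c | c
    · exact hold (hi' := false) (.nbLo h0 h1 h2 h3 h4 (fun _ => c) (by simp)) le_rfl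
    · exact hold (hi' := true) (.nbLo h0 h1 h2 h3 h4 (by simp) (fun _ => c)) le_rfl
  | @nbRing x t h0 h1 h2 h3 h4 =>
    have hG : Gs x 0 0 := Gs.const h0 (by linarith) (by norm_num)
    have := un_lo (w' := ⟨1 / 5, t⟩) hn hρ hc hs h hG (q_nb h2 h3 hρ hc.1)
    rwa [neg_zero] at this

/-- the two shares at a hinge in the tail next to a ring -/
theorem gRD_pos {K : Cl} {x t t' : ℝ} (ht : K ≠ .ring → t' = -t) : 0 < gR K x t + gD K x t' := by
  cases K with
  | ring =>
    simp only [TL.gR, gD]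
    norm_num
  | one =>
    rw [ht (by decide)]
    simp only [TL.gR, gD]
    split_ifs <;> linarith
  | two =>
    rw [ht (by decide)]
    simp only [TL.gR, gD]
    split_ifs <;> linarith
  | twoE =>
    rw [ht (by decide)]
    simp only [TL.gR, gD]
    split_ifs <;> linarith
  | three =>
    rw [ht (by decide)]
    simp only [TL.gR, gD]
    split_ifs <;> linarith
  | threeE =>
    rw [ht (by decide)]
    simp only [TL.gR, gD]
    split_ifs <;> linarith

end TL

end Pool.Agent.Work.MP_b30479_gt.G2
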