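import Pool.Agent.Work.NumU.GenF
import Pool.Agent.Work.MP_b30479_gt.G2.TK5

/-!
# Tails, part 4 (touched rings): expressions
-/

namespace Pool.Agent.Work.MP_b30479_gt.G2

open VOL SR

namespace TL

namespace R4

open NumG

/-- variable -/
def v (i : ℕ) : E := .var i

/-- constant -/
def c (n : ℤ) (d : ℕ := 10000) : E := .q n d

/-- sum of positive parts -/
def pn (K : Int) (l : List E) : E := .mul (.q K 1) (l.foldr (fun e a => .add (.relu e) a) (.q 0 1))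

/-- `2 uu (k + 1/2 + s) ...`: the value of a real hinge `k` with the real ring variable `s` -/
def fS (k : E) (s : Int) : E := .sub (.add (.uw (.add k (c (5000 + s))) (c 0)) (.uw (.add k (c (5000 - s))) (c 0))) (.mul (c 2 1) (.uw k (c 0)))

/-- value of the hinge `w + i t` with the ring variable `-cc + i r` -/
def fN (w : Int) (t : E) (cc : Int) (r : E) : E := .sub (.add (.uw (c (w + 5000 - cc)) (.add t r)) (.uw (c (w + 5000 + cc)) (.sub t r))) (.mul (c 2 1) (.uw (c w) t))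

/-- `V1 (cz, tau) (X, Y) - V1 (k, 0) (X, Y) + pi tau` -/
def G1 (cz : Int) (k t X Y : E) : E := .add (.sub (.sub (.uw (.add (c cz) X) (.add t Y)) (.uw (c cz) t)) (.sub (.uw (.add k X) Y) (.uw k (c 0)))) (.mul .pi (.add (.mul (.sub (c cz) k) Y) (.mul t X)))

/-- the difference of the values of a digit `2` -/
def GT (cz : Int) (k t X Y : E) : E := .sub (.add (.sub (.uw (.add (c cz) X) (.add t Y)) (.uw (.add k X) Y)) (.mul (c 2 1) (.sub (.uw k (c 0)) (.uw (c cz) t)))) (.mul .pi (.add (.sub (.mul (.sub (c cz) X) (.sub t Y)) (.mul (.sub k X) (.sub (c 0) Y))) (.mul (c 1 2) t)))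

/-- `a Y <= T X`, `b Y <= T (P - X)` -/
def up (a b P : Int) (T : E) : List E := [.sub (.mul (c a) (v 3)) (.mul T (v 2)), .sub (.mul (c b) (v 3)) (.mul T (.sub (c P) (v 2)))]
def dn (a b P : Int) (T : E) : List E := [.sub (.mul T (v 2)) (.mul (c a) (v 3)), .sub (.mul T (.sub (c P) (v 2))) (.mul (c b) (v 3))]
def esc1 : List E := up 1500 2000 8600 (c 510) ++ dn 1500 2000 8600 (c (-1170)) ++ dn 1500 2000 8600 (.sub (c (-100)) (v 1))
def esc2 : List E := up 1600 2900 8000 (c 800) ++ up 1600 2900 8000 (.sub (c 1870) (v 1)) ++ dn 1600 2900 8000 (c (-80))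
def escE : List E := dn 1400 3500 7000 (c (-610))
def escD : List E := [.sub (v 3) (.mul (c 77 100) (v 2)), .sub (v 3) (.add (.mul (c 32 100) (.sub (c 6 10) (v 2))) (c 125)), .sub (.mul (c (-85) 100) (v 2)) (v 3), .sub (.mul (c (-34) 100) (.sub (c 8 10) (v 2))) (v 3)]
def escF : List E := [.sub (v 3) (.mul (c 34 100) (.sub (c 8 10) (v 2))), .sub (.mul (c (-34) 100) (.sub (c 8 10) (v 2))) (v 3)]
def escK : List E := [.sub (v 3) (.mul (c 1 10) (v 2)), .sub (v 3) (.mul (c 1 10) (.sub (c 8 10) (v 2))), .sub (.mul (c (-246) 100) (v 2)) (v 3), .sub (.mul (c (-246) 100) (.sub (c 8 10) (v 2))) (v 3)]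
def escL : List E := [.sub (v 3) (.mul (c 1 10) (.sub (c 8 10) (v 2))), .sub (.mul (c (-246) 100) (.sub (c 8 10) (v 2))) (v 3)]
def escW : List E := [.sub (v 3) (.mul (c 475 1000) (v 2)), .sub (v 3) (.mul (c 38 100) (.sub (c 65 100) (v 2))), .sub (.mul (c (-955) 1000) (v 2)) (v 3), .sub (.mul (c (-764) 1000) (.sub (c 65 100) (v 2))) (v 3)]

/-- the allowance for class one -/
def dl : E := .add (c 80) (.mul (c 12 10) (.sub (c 1280) (v 1)))

/-- `min (.584 - f k 0) (.454 - f k .235)` -/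
def ph (k : E) : E := .sub (.sub (c 5840) (fS k 0)) (.relu (.sub (.sub (c 5840) (fS k 0)) (.sub (c 4540) (fS k 2350))))

/-- piecewise linear lower bound of `ph` -/
def pk (k : E) : E := (.add (.add (.add (.add (.add (.add (.add (.add (.add (.add (.add (c 1100) (.mul (.q (-13) 10) (.relu (.sub k (c 800))))) (.mul (.q (1) 15) (.relu (.sub k (c 1000))))) (.mul (.q (2) 3) (.relu (.sub k (c 1300))))) (.mul (.q (4) 15) (.relu (.sub k (c 1600))))) (.mul (.q (-3) 10) (.relu (.sub k (c 1900))))) (.mul (.q (13) 30) (.relu (.sub k (c 2200))))) (.mul (.q (11) 30) (.relu (.sub k (c 2500))))) (.mul (.q (11) 30) (.relu (.sub k (c 2800))))) (.mul (.q (2) 5) (.relu (.sub k (c 3100))))) (.mul (.q (103) 210) (.relu (.sub k (c 3400))))) (.mul (.q (-51) 35) (.relu (.sub k (c 3750)))))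

/-- three old values -/
def k3 (a b d : Int) : E :=
  .sub (.sub (c a) (fS (v 0) 0)) (.relu (.sub (.sub (c a) (fS (v 0) 0))
    (.sub (.sub (c b) (fS (v 0) 1850)) (.relu (.sub (.sub (c b) (fS (v 0) 1850)) (.sub (c d) (fS (v 0) 2650)))))))

/-- the value of a digit `3` with the inner variable in slot `0` -/
def LA : E := .add (c 1550) (v 1)
def L2 : E := .add (c 1400) (.mul (c 13500) (v 1))
def LB : E := .add (c 1200) (.mul (c 15500) (v 1))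
def LK : E := .add (c 1300) (.mul (c 9000) (v 1))
def L3 : E := .add (c 1450) (.mul (c 11000) (v 1))
def LR : E := .add (c 1260) (.mul (c 1700) (v 1))

/-- lower bound of the second part of a three, as a function of `X` -/
def mX (X : E) : E := .add (.sub (c 100) (.mul (c 8125) (.relu (.sub X (c 400))))) (.mul (c 8125) (.relu (.sub X (c 1200))))

/-- ring: `f (cz, tau) z - f (k, 0) z`, `z = s + i r` -/
def fZ (w t s r : E) : E := .sub (.add (.uw (.add (.add w (c 5000)) s) (.add t r)) (.uw (.sub (.add w (c 5000)) s) (.sub t r))) (.mul (c 2 1) (.uw w t))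
def ths (s : E) : E := .sub (c 1 1) (.relu (.sub (.mul (c 4 1) (.add (.relu s) (.relu (.neg s)))) (c 1 1)))
def gR : E := .sub (fZ (c 1800) (v 1) (v 3) (.mul (v 2) (ths (v 3)))) (fZ (v 0) (c 0) (v 3) (.mul (v 2) (ths (v 3))))

/-- final sum: `v0 = t`, `v1 = tau`, `v2 = rho` -/
def fin (cc a b : Int) (d : E) (F nt : Int) : E :=
  .sub (.add (.sub (fN 2500 (v 0) cc (v 2)) (.add (c a) (.mul (c b) (v 0)))) (fN 2500 (.neg (v 1)) cc (v 2))) (.add (.add (.mul .pi (v 1)) d) (.add (c F) (.mul (c nt) (v 2))))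

/-- `f (cz, t') (-.17 + i rho) - L - .2556 - 1.051 rho` -/
def qq (cz : Int) (t : E) (L : E) : E := .sub (fN cz t 1700 (v 0)) (.add L (.add (c 2556) (.mul (c 10510) (v 0))))

/-- `V2 o (1/4, T) - V2 o (X, T min 1 (X / .05))`: `X`, `T`, `o = x + i y` -/
def tX (X T : E) : E := .mul T (.sub (c 1 1) (.relu (.sub (c 1 1) (.mul (c 20 1) X))))
def GQ (X T x y : E) : E := .sub (.add (.sub (.uw (.add (c 2500) x) (.add T y)) (.uw (.add X x) (.add (tX X T) y))) (.mul (c 2 1) (.sub (.uw X (tX X T)) (.uw (c 2500) T)))) (.mul .pi (.add (.sub (.mul (.sub (c 2500) x) (.sub T y)) (.mul (.sub X x) (.sub (tX X T) y))) (.mul (c 1 2) (.sub T (tX X T)))))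

/-- `V1 (.22, tau) (1 - 1/4 - i T) - V1 (k, 0) (1 - X, -tX)` -/
def g3 (k t X T : E) : E := .sub (.sub (.uw (c 9700) (.sub t T)) (.add (.uw (c 2200) t) (.uw (c 7500) T))) (.sub (.sub (.uw (.add k (.sub (c 1 1) X)) (tX X T)) (.add (.uw k (c 0)) (.uw (.sub (c 1 1) X) (tX X T)))) (.sub (.mul .pi (.sub (.mul t (c 7500)) (.add (.mul (c 2200) T) (.sub t T)))) (.mul .pi (.sub (tX X T) (.mul k (tX X T))))))

/-- `V3 (.22, tau) (.22 + 1/6, m) 0` -/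
def v3n (t m : E) : E := .neg (.add (.mul .pi (.sub (.add (.mul (c 2200) m) (.mul (c 116 300) (.add t m))) (.mul (c 1 2) m))) (.add (.uw (c 1 6) (.sub m t)) (.uw (c 2200) t)))

/-! ### values -/

theorem c_val (n : ℤ) (d : ℕ) (xs : List ℝ) : (c n d).val xs = (n : ℝ) / d := rfl

theorem v0 (x y z w : ℝ) : (v 0).val [x, y, z, w] = x := rfl
theorem v1 (x y z w : ℝ) : (v 1).val [x, y, z, w] = y := rfl
theorem v2 (x y z w : ℝ) : (v 2).val [x, y, z, w] = z := rfl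
theorem v3 (x y z w : ℝ) : (v 3).val [x, y, z, w] = w := rfl

/-- one expression -/
theorem one_of {e : E} {N o0 o1 o2 o3 fuel l0 h0 l1 h1 l2 h2 l3 h3 c : ℕ}
    (h : chkF [e] N o0 o1 o2 o3 fuel l0 h0 l1 h1 l2 h2 l3 h3 c = true) (hN : 0 < N) {x y z w : ℝ}
    (hx : ((l0 : ℝ) - o0) / N ≤ x) (hx' : x ≤ ((h0 : ℝ) - o0) / N)
    (hy : ((l1 : ℝ) - o1) / N ≤ y) (hy' : y ≤ ((h1 : ℝ) - o1) / N)
    (hz : ((l2 : ℝ) - o2) / N ≤ z) (hz' : z ≤ ((h2 : ℝ) - o2) / N)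
    (hw : ((l3 : ℝ) - o3) / N ≤ w) (hw' : w ≤ ((h3 : ℝ) - o3) / N) : 0 < e.val [x, y, z, w] := by
  obtain ⟨e', he, hp⟩ := chkF4 h hN hx hx' hy hy' hz hz' hw hw'
  rw [List.mem_singleton] at he
  rwa [he] at hp

/-- the expression is positive on the box -/
def Ps1 (e : E) (N o0 o1 o2 o3 l0 h0 l1 h1 l2 h2 l3 h3 : ℕ) : Prop :=
  ∀ x y z w : ℝ, ((l0 : ℝ) - o0) / N ≤ x → x ≤ ((h0 : ℝ) - o0) / N → ((l1 : ℝ) - o1) / N ≤ y →
    y ≤ ((h1 : ℝ) - o1) / N → ((l2 : ℝ) - o2) / N ≤ z → z ≤ ((h2 : ℝ) - o2) / N →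
    ((l3 : ℝ) - o3) / N ≤ w → w ≤ ((h3 : ℝ) - o3) / N → 0 < e.val [x, y, z, w]

theorem Ps1.of {e : E} {N o0 o1 o2 o3 fuel l0 h0 l1 h1 l2 h2 l3 h3 c : ℕ}
    (h : chkF [e] N o0 o1 o2 o3 fuel l0 h0 l1 h1 l2 h2 l3 h3 c = true) (hN : 0 < N) :
    Ps1 e N o0 o1 o2 o3 l0 h0 l1 h1 l2 h2 l3 h3 :=
  fun _ _ _ _ a1 a2 a3 a4 a5 a6 a7 a8 => one_of h hN a1 a2 a3 a4 a5 a6 a7 a8

section

variable {e : E} {N o0 o1 o2 o3 l0 h0 l1 h1 l2 h2 l3 h3 m : ℕ}

theorem Ps1.cut0 (a : Ps1 e N o0 o1 o2 o3 l0 m l1 h1 l2 h2 l3 h3)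
    (b : Ps1 e N o0 o1 o2 o3 m h0 l1 h1 l2 h2 l3 h3) :
    Ps1 e N o0 o1 o2 o3 l0 h0 l1 h1 l2 h2 l3 h3 := fun x y z w a1 a2 a3 a4 a5 a6 a7 a8 => by
  rcases le_total x (((m : ℝ) - o0) / N) with h | h
  · exact a x y z w a1 h a3 a4 a5 a6 a7 a8
  · exact b x y z w h a2 a3 a4 a5 a6 a7 a8

theorem Ps1.cut1 (a : Ps1 e N o0 o1 o2 o3 l0 h0 l1 m l2 h2 l3 h3)
    (b : Ps1 e N o0 o1 o2 o3 l0 h0 m h1 l2 h2 l3 h3) :
    Ps1 e N o0 o1 o2 o3 l0 h0 l1 h1 l2 h2 l3 h3 := fun x y z w a1 a2 a3 a4 a5 a6 a7 a8 => by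
  rcases le_total y (((m : ℝ) - o1) / N) with h | h
  · exact a x y z w a1 a2 a3 h a5 a6 a7 a8
  · exact b x y z w a1 a2 h a4 a5 a6 a7 a8

theorem Ps1.cut2 (a : Ps1 e N o0 o1 o2 o3 l0 h0 l1 h1 l2 m l3 h3)
    (b : Ps1 e N o0 o1 o2 o3 l0 h0 l1 h1 m h2 l3 h3) :
    Ps1 e N o0 o1 o2 o3 l0 h0 l1 h1 l2 h2 l3 h3 := fun x y z w a1 a2 a3 a4 a5 a6 a7 a8 => by
  rcases le_total z (((m : ℝ) - o2) / N) with h | h
  · exact a x y z w a1 a2 a3 a4 a5 h a7 a8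
  · exact b x y z w a1 a2 a3 a4 h a6 a7 a8

theorem Ps1.cut3 (a : Ps1 e N o0 o1 o2 o3 l0 h0 l1 h1 l2 h2 l3 m)
    (b : Ps1 e N o0 o1 o2 o3 l0 h0 l1 h1 l2 h2 m h3) :
    Ps1 e N o0 o1 o2 o3 l0 h0 l1 h1 l2 h2 l3 h3 := fun x y z w a1 a2 a3 a4 a5 a6 a7 a8 => by
  rcases le_total w (((m : ℝ) - o3) / N) with h | h
  · exact a x y z w a1 a2 a3 a4 a5 a6 a7 h
  · exact b x y z w a1 a2 a3 a4 a5 a6 h a8

theorem ps_of (h : Ps1 e N o0 o1 o2 o3 l0 h0 l1 h1 l2 h2 l3 h3) {x y z w : ℝ}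
    (hx : ((l0 : ℝ) - o0) / N ≤ x) (hx' : x ≤ ((h0 : ℝ) - o0) / N)
    (hy : ((l1 : ℝ) - o1) / N ≤ y) (hy' : y ≤ ((h1 : ℝ) - o1) / N)
    (hz : ((l2 : ℝ) - o2) / N ≤ z) (hz' : z ≤ ((h2 : ℝ) - o2) / N)
    (hw : ((l3 : ℝ) - o3) / N ≤ w) (hw' : w ≤ ((h3 : ℝ) - o3) / N) : 0 < e.val [x, y, z, w] :=
  h x y z w hx hx' hy hy' hz hz' hw hw'

end

theorem pn_val (K : ℤ) {xs : List ℝ} : ∀ {l : List E}, (∀ e ∈ l, e.val xs ≤ 0) →
    (pn K l).val xs = 0 := by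
  intro l h
  have key : ∀ l : List E, (∀ e ∈ l, e.val xs ≤ 0) →
      (l.foldr (fun e a => E.add (.relu e) a) (.q 0 1)).val xs = 0 := by
    intro l
    induction l with
    | nil =>
      intro _
      simp [E.val]
    | cons a l ih =>
      intro h
      rw [List.foldr_cons]
      simp only [E.val]
      rw [ih fun e he => h e (List.mem_cons_of_mem _ he), max_eq_right (h a List.mem_cons_self),
        add_zero]
  simp only [pn, E.val]
  rw [key l h, mul_zero]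

theorem fS_val (k : E) (s : ℤ) (xs : List ℝ) : (fS k s).val xs =
    pr2 (k.val xs) 0 ((s : ℝ) / 10000) - 2 * NumU.uu (k.val xs) 0 := by
  simp only [fS, c, E.val, pr2, NumU.UU_uu]
  push_cast
  rw [show k.val xs + (5000 + (s : ℝ)) / 10000 = k.val xs + 1 / 2 + (s : ℝ) / 10000 by ring,
    show k.val xs + (5000 - (s : ℝ)) / 10000 = k.val xs + 1 / 2 - (s : ℝ) / 10000 by ring]
  norm_num

theorem fN_val (w : ℤ) (t : E) (cc : ℤ) (r : E) (xs : List ℝ) : (fN w t cc r).val xs =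
    fR ⟨(w : ℝ) / 10000, t.val xs⟩ ⟨-((cc : ℝ) / 10000), r.val xs⟩ := by
  rw [K5.fR_new]
  simp only [fN, c, E.val]
  push_cast
  rw [show ((w : ℝ) + 5000 - (cc : ℝ)) / 10000 = (w : ℝ) / 10000 + 1 / 2 - (cc : ℝ) / 10000 by ring,
    show ((w : ℝ) + 5000 + (cc : ℝ)) / 10000 = (w : ℝ) / 10000 + 1 / 2 + (cc : ℝ) / 10000 by ring]
  norm_num

theorem G1_val (cz : ℤ) (k t X Y : E) (xs : List ℝ) : (G1 cz k t X Y).val xs =
    V1 ⟨(cz : ℝ) / 10000, t.val xs⟩ ⟨X.val xs, Y.val xs⟩ - V1 ⟨k.val xs, 0⟩ ⟨X.val xs, Y.val xs⟩ +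
      Real.pi * t.val xs := by
  simp only [G1, c, E.val, V1, NumU.UU_uu, Complex.add_re, Complex.add_im, Complex.sub_im,
    Complex.mul_im]
  push_cast
  norm_num
  ring

theorem GT_val (cz : ℤ) (k t X Y : E) (xs : List ℝ) : (GT cz k t X Y).val xs =
    V2 ⟨(cz : ℝ) / 10000, t.val xs⟩ ⟨X.val xs, Y.val xs⟩ -
      V2 ⟨k.val xs, 0⟩ ⟨X.val xs, Y.val xs⟩ := by
  simp only [GT, c, E.val, V2, NumU.UU_uu, Complex.add_re, Complex.add_im, Complex.sub_im,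
    Complex.sub_re, Complex.mul_im, pow_two]
  push_cast
  norm_num
  ring

end R4

end TL

end Pool.Agent.Work.MP_b30479_gt.G2
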