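import Pool.Agent.Work.MP_b30479_gt.G2.TL4d

/-!
# Tails, part 4: rows

Certificates generated.
-/

namespace Pool.Agent.Work.MP_b30479_gt.G2

open VOL SR

namespace TL

namespace R4

open NumG

theorem r_o2a : chkF [.add (.add (G1 2500 (v 0) (v 1) (v 2) (v 3)) dl) (pn 5 esc2)]
    10000 0 0 0 80 40 600 3000 630 1280 0 8000 0 880 4191587036707233546088724700506062983613273404613075919605999533143930951068033534804334635366922899417681284473995422133335473408146202237492130833892267471301725679991143132785505436552704408695113424610433757075111299377552555825131899984778618512169409092363898917075287594438693018487172232951208380616750323531889644489496905682305421841877668696216045116924117022535180097698566566011584457480628338515427868557582935915988875293726243441929939647740353738780894473056975375650848287469081370964145408582194041772362407346434 = true := by decide +kernel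

theorem r_o2b : chkF [.add (.add (G1 2500 (v 0) (v 1) (v 2) (v 3)) (.add dl (c 158))) (pn 5 esc2)]
    10000 0 0 0 80 40 3000 4000 630 1280 0 8000 0 880 9246230632296863720364880927087699675868628703957429874263011370455433176452967976219334029697015047291138 = true := by decide +kernel

theorem r_o2c : chkF [.add (.add (G1 2500 (v 0) (v 1) (v 2) (v 3)) (.add dl (c 1500))) (pn 5 esc2)]
    10000 0 0 0 80 40 4000 6500 630 1280 0 8000 0 880 786534677788007570867892723822694900041876898635274814099614620159774583034174420486678600414138141199815432979742316565777902728287062608314626 = true := by decide +kernel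

theorem r_oEz : chkF [.add (.add (G1 2500 (v 0) (v 1) (v 2) (v 3)) (.add dl (c 1000))) (pn 5 escE)]
    10000 0 0 0 610 40 0 600 1000 1280 0 7000 0 610 1508316080894590159636509824050996911604466811175170 = true := by decide +kernel

theorem r_oEa : chkF [.add (.add (G1 2500 (v 0) (v 1) (v 2) (v 3)) dl) (pn 5 escE)]
    10000 0 0 0 610 40 600 3000 1000 1280 0 7000 0 610 3459320831220238993465108705279277630775922378981358459686264039150323858238637464120316657367886405098724783870812399198812013241392106758094274867153076482 = true := by decide +kernel

theorem r_oEb : chkF [.add (.add (G1 2500 (v 0) (v 1) (v 2) (v 3)) (.add dl (c 158))) (pn 5 escE)]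
    10000 0 0 0 610 40 3000 4000 1000 1280 0 7000 0 610 20932724303777090983720185728368898 = true := by decide +kernel

theorem r_oEc : chkF [.add (.add (G1 2500 (v 0) (v 1) (v 2) (v 3)) (.add dl (c 1500))) (pn 5 escE)]
    10000 0 0 0 610 40 4000 6500 1000 1280 0 7000 0 610 2482014959497269109403720906248945618481774699927367595393828487672706369078755844463848135843452506543316109623554 = true := by decide +kernel

theorem r_p1z : chkF [.add (.add (G1 2500 (v 0) (v 1) (v 2) (v 3)) (c 1200)) (pn 10 esc1)]
    10000 0 0 0 1170 40 0 600 1280 1360 0 8600 0 1680 564336587930965257161963789379280161851677647924596144427408472815351334357651297306276332790073032962 = true := by decide +kernel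

theorem r_p1a : chkF [.add (.add (G1 2500 (v 0) (v 1) (v 2) (v 3)) (c 200)) (pn 5 esc1)]
    10000 0 0 0 1170 40 600 3000 1280 1360 0 8600 0 1680 351976784485697105787243444486080332979226414941746155610472874549047812127862961292994977164013818429782246577850231834962033488791190467783519158143983203303257156224348000142335838693288161376858955883016994387010506423596769287711772854303059823572249990778414781586361972541172666667933778224554489843251290359233798245752266303418812332294574192720058804241634125755155992288686875083010 = true := by decide +kernel

end R4

end TL

end Pool.Agent.Work.MP_b30479_gt.G2
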