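import Pool.Agent.Work.MP_b30479_gt.G2.TL4d

/-!
# Tails, part 4: rows

Certificates generated.
-/

namespace Pool.Agent.Work.MP_b30479_gt.G2

open VOL SR

namespace TL

namespace R4

open NumG

theorem r_ko1 : chkF [k3 4840 3815 2840]
    10000 0 0 0 0 40 0 600 0 0 0 0 0 0 4759262240547576741888 = true := by decide +kernel

theorem r_ko2 : chkF [k3 5840 4815 3840]
    10000 0 0 0 0 40 600 3000 0 0 0 0 0 0 7831858256410423439136274361690498333385681628923184416008773646666594901042346852352 = true := by decide +kernel

theorem r_ko3 : chkF [k3 5682 4657 3682]
    10000 0 0 0 0 40 3000 4000 0 0 0 0 0 0 17730707128320 = true := by decide +kernel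

theorem r_ko4 : chkF [k3 4340 3315 2340]
    10000 0 0 0 0 40 4000 5000 0 0 0 0 0 0 290482313412804608 = true := by decide +kernel

theorem r_pkc : chkF [.sub (ph (v 0)) (pk (v 0))]
    10000 0 0 0 0 40 0 5000 0 0 0 0 0 0 48006266777383628347934458223236295504221286588225263054411097330909757785854903014400294244561760659558233892911948675621154173735841824768 = true := by decide +kernel

theorem r_tl1 : chkF [.sub (c (-2000)) (fS (v 0) 1850)]
    10000 0 0 0 0 40 6500 9500 0 0 0 0 0 0 4759262240547576741888 = true := by decide +kernel

theorem r_tl2 : chkF [.sub (c (-975)) (fS (v 0) 2650)]
    10000 0 0 0 0 40 6500 9500 0 0 0 0 0 0 290482314486480896 = true := by decide +kernel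

theorem r_tl3 : chkF [.sub (c (-1025)) (fS (v 0) 1850)]
    10000 0 0 0 0 40 6000 9500 0 0 0 0 0 0 17729633452032 = true := by decide +kernel

theorem r_o1z : chkF [.add (.add (G1 2500 (v 0) (v 1) (v 2) (v 3)) (.add dl (c 1000))) (pn 10 esc1)]
    10000 0 0 0 1170 40 0 600 380 1280 0 8600 0 1680 6720516887543849659237821153785719134760514828845381154891612468276853877148381298141098859325427948336647315464366067087822539068427484060586540201664971173372897571399391235346302135488135022761313962593232130145577419168964608230489620738 = true := by decide +kernel

theorem r_o1a_1 : chkF [.add (.add (G1 2500 (v 0) (v 1) (v 2) (v 3)) dl) (pn 30 esc1)]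
    10000 0 0 0 1170 40 600 1800 380 1280 0 537 0 1680 2580576854781573437356104467641167941763916552207195984675179239132150413323167763617540614543422753639264968501802230892249846459652613919036761644992361281726131478022896632018050740344374547330655200406454875940599377770543144017058251526111090860775928471813869688109639139867275244919330160547820612262073895600381672967476000699537645721641134491045589214986024483808469011145786581478158828768582034789091921849082872104251499411988844084439737685962424892963445488426853087456622121730231368099649133891848443358573970824357010398606433183999001521994587181053174669099089704034197001241185963137404896314154661772235299926376571186708739 = true := by decide +kernel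

theorem r_o1a_2 : chkF [.add (.add (G1 2500 (v 0) (v 1) (v 2) (v 3)) dl) (pn 30 esc1)]
    10000 0 0 0 1170 40 600 1800 380 1280 537 1075 0 1680 5692414375076331437723831435705891363504910255771411682582209892504007099844668857365499976809914386324630520717411361348245698959895402784632339212342809838031835878225144993500230984769809571346005940036697045648572803 = true := by decide +kernel

theorem r_o1a_3 : chkF [.add (.add (G1 2500 (v 0) (v 1) (v 2) (v 3)) dl) (pn 30 esc1)]
    10000 0 0 0 1170 40 600 1800 380 1280 1075 2150 0 1680 56679208795909235359226658886064085070269485021463155338799908930605649140884879494969315648422024171793600372275987591183566218022495714782603498677287061078275 = true := by decide +kernel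

end R4

end TL

end Pool.Agent.Work.MP_b30479_gt.G2
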