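import Pool.Agent.Work.MP_b30479_gt.G2.TL4d

/-!
# Tails, part 4: rows

Certificates generated.
-/

namespace Pool.Agent.Work.MP_b30479_gt.G2

open VOL SR

namespace TL

namespace R4

open NumG

theorem r_o1a_4 : chkF [.add (.add (G1 2500 (v 0) (v 1) (v 2) (v 3)) dl) (pn 30 esc1)]
    10000 0 0 0 1170 40 1800 3000 380 1280 0 1075 0 840 21206209653206255767877602717214723482841341579710140622808402414466810526817300222009359195555670074618865962585071415338199436488613238981137104055761437816476090361640922157355492576264992006062021434973159682 = true := by decide +kernel

theorem r_o1a_5 : chkF [.add (.add (G1 2500 (v 0) (v 1) (v 2) (v 3)) dl) (pn 30 esc1)]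
    10000 0 0 0 1170 40 1800 3000 380 1280 0 1075 840 1680 18433961750166750754928651803356930190020181019269297450781809290782844292486355250000771992561744724081952397790071670949893906581025121113244057968593336718774962258341237647436499782117241852144841950187990127472485484645284598920250542317309886643346833391704348790561330110514407520778720763403592006856582606403425378721070974747991195629664051966868384535503292564687371975615570634979007190771930075157048009996277184363267231863647831752085313096925326192943654886826709598380037551209733153379969994945169956045787903484182707178619138 = true := by decide +kernel

theorem r_o1a_6 : chkF [.add (.add (G1 2500 (v 0) (v 1) (v 2) (v 3)) dl) (pn 30 esc1)]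
    10000 0 0 0 1170 40 1800 3000 380 1280 1075 2150 0 1680 211146556593813596332672911866452562112607198641265180168912185527480580508117178031761658674586044531915871550520350109347057890562586071689430111928579 = true := by decide +kernel

theorem r_o1a_7 : chkF [.add (.add (G1 2500 (v 0) (v 1) (v 2) (v 3)) dl) (pn 30 esc1)]
    10000 0 0 0 1170 40 600 3000 380 1280 2150 4300 0 1680 128313341516064060080446323283222785537047471803669753334926587074776402392462912078758144 = true := by decide +kernel

theorem r_o1a_8 : chkF [.add (.add (G1 2500 (v 0) (v 1) (v 2) (v 3)) dl) (pn 30 esc1)]
    10000 0 0 0 1170 40 600 3000 380 1280 4300 6450 0 1680 1096335732180509234379081087457775805675432616279208782844631037554938429037754159477724094166128044859355321621620047013378151828125117475560387675438551663035040226148262467780151886080 = true := by decide +kernel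

theorem r_o1a_9 : chkF [.add (.add (G1 2500 (v 0) (v 1) (v 2) (v 3)) dl) (pn 30 esc1)]
    10000 0 0 0 1170 40 600 1800 380 1280 6450 7525 0 1680 4191587032834005268483089045228038518099279955524255006828006882910642500842317753468453503369241236788509166621861411130633184454441811934130440512799388852846434586978780042544528624067515989812912860818528781079438381457704775929967944647783289937191484600685033988363693315047827648892805186198369757651634713183314995458279338115494326611396686219964914484931270662325482411122272198569896122035102968266094911532187442105531631392299217963490536452493410235722869774234151808986657079563607602105499613288459602717663870108034 = true := by decide +kernel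

end R4

end TL

end Pool.Agent.Work.MP_b30479_gt.G2
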