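import Pool.Agent.Work.MP_b30479_gt.G2.TL4d

/-!
# Tails, part 4: rows

Certificates generated.
-/

namespace Pool.Agent.Work.MP_b30479_gt.G2

open VOL SR

namespace TL

namespace R4

open NumG

theorem r_o1a_10 : chkF [.add (.add (G1 2500 (v 0) (v 1) (v 2) (v 3)) dl) (pn 30 esc1)]
    10000 0 0 0 1170 40 600 1800 380 1280 7525 8600 0 840 57419761208895782688183012544670701291241320718608182030068778416969503877035850841039381430727284219556140312363446057169203514586011902589526915985926847184116321500239365794016010432399957122544254235889561909874509497263258988205035811962699417805705292811133740848037261776137086801160622298014131014941156055391476812050676842545408 = true := by decide +kernel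

theorem r_o1a_11 : chkF [.add (.add (G1 2500 (v 0) (v 1) (v 2) (v 3)) dl) (pn 30 esc1)]
    10000 0 0 0 1170 40 600 1800 380 1280 7525 8600 840 1680 25694359778170005229506356572158579104085983590237244809387950677852747015889279546521081120275377218868990338719853506388209878067809297837479660728065143537688723574683807379155328928762957931361108071963864459439374942229131776218738933816782052043200741270907235614727556380916481920399228847941734264209982111821509580433699560930809159517509594885447564361854719806250678529633139907295863607493085873675865145167576612724467896752919754266990717413424448927025484051009443649270313971039063999348597425722627343346654004192905095427686559586488624923946846107235519622157118259456 = true := by decide +kernel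

theorem r_o1a_12 : chkF [.add (.add (G1 2500 (v 0) (v 1) (v 2) (v 3)) dl) (pn 30 esc1)]
    10000 0 0 0 1170 40 1800 3000 380 1280 6450 7525 0 1680 58169088564544070833737999212128925087987347081108006836794753386185233967975001959094915591431944051499290100320292693006433428929990811619173878451524945680141556098496129573153322181833919209290844831526343123776212840232163598310814401794205339252868195190952232976335989197163481885469168067246981696911339479388403190940025029624026159118164548973250185637207486062468974781117911232920750234988531216174412319863606440108316695310925400961891575920372425332321521473882454399892528656017539780348668589162498 = true := by decide +kernel

end R4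

end TL

end Pool.Agent.Work.MP_b30479_gt.G2
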