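import Pool.Agent.Work.MP_b30479_gt.G2.TL4d

/-!
# Tails, part 4: rows

Certificates generated.
-/

namespace Pool.Agent.Work.MP_b30479_gt.G2

open VOL SR

namespace TL

namespace R4

open NumG

theorem r_o1a_13 : chkF [.add (.add (G1 2500 (v 0) (v 1) (v 2) (v 3)) dl) (pn 30 esc1)]
    10000 0 0 0 1170 40 1800 3000 380 1280 7525 8600 0 1680 1328366954520222474277888944977212476547072597072691901500120186415143274278529320062464612106690513986187990885585743570736198714419612534023437292556368802011668722161002086591269165303519617309884614931385140490831476211435463068825007003117980120177431260266995648823549792297026610673428793865092777366056938502005145622729413706777093768194667341231427680745453990885861118500692932133933520463216345085691398616358342870516004189154230822875426601122757521620079316204530925353706874926076046910228916803100539675420010525438273792008782996938320221618562 = true := by decide +kernel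

theorem r_o1b : chkF [.add (.add (G1 2500 (v 0) (v 1) (v 2) (v 3)) (.add dl (c 158))) (pn 10 esc1)]
    10000 0 0 0 1170 40 3000 4000 380 1280 0 8600 0 1680 213902041723027870488449530886291259411307559997219731514160524822355261940898162868976098488627884950663405530546966991518621185733123957890759387677102548284960916425001354270126284625610708276508952882157948576791192210858800806856247148263991234410983104912329148247033264406972103185872251349415821744723448858272007026934018 = true := by decide +kernel

theorem r_o1c : chkF [.add (.add (G1 2500 (v 0) (v 1) (v 2) (v 3)) (.add dl (c 1500))) (pn 10 esc1)]
    10000 0 0 0 1170 40 4000 6500 380 1280 0 8600 0 1680 29556257903133971154438240020504930248961330682555033499765710606551165500452019145171550380547146152022977033378624727166591574437073445822748501465130752801001001916092515795430231836732626277239131902241595906835063393474181700296893765734322206146818 = true := by decide +kernel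

theorem r_o2z : chkF [.add (.add (G1 2500 (v 0) (v 1) (v 2) (v 3)) (.add dl (c 1000))) (pn 10 esc2)]
    10000 0 0 0 80 40 0 600 630 1280 0 8000 0 880 478011682442079337236622434279551628545882802712933264240244248444317271089774850 = true := by decide +kernel

end R4

end TL

end Pool.Agent.Work.MP_b30479_gt.G2
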