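import Pool.Agent.Work.MP_b30479_gt.G2.TL4d

/-!
# Tails, part 4: rows

Certificates generated.
-/

namespace Pool.Agent.Work.MP_b30479_gt.G2

open VOL SR

namespace TL

namespace R4

open NumG

theorem r_p1b : chkF [.add (.add (G1 2500 (v 0) (v 1) (v 2) (v 3)) (c 358)) (pn 10 esc1)]
    10000 0 0 0 1170 40 3000 4000 1280 1360 0 8600 0 1680 666261053863507853595221021268907988402602616598464341322421150144190347286001109282323800184742788179149037588364157550850 = true := by decide +kernel

theorem r_p1c : chkF [.add (.add (G1 2500 (v 0) (v 1) (v 2) (v 3)) (c 1700)) (pn 10 esc1)]
    10000 0 0 0 1170 40 4000 6500 1280 1360 0 8600 0 1680 17961820751003210759177726986399156631985546563166699014832631215018652230995274051769494829868204927025946335804414402310851699890856815216492658266486121127493107183178085948456247173841154 = true := by decide +kernel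

theorem r_p2z : chkF [.add (.add (G1 2500 (v 0) (v 1) (v 2) (v 3)) (c 1200)) (pn 10 esc2)]
    10000 0 0 0 80 40 0 600 1280 1450 0 8000 0 880 404885514218783359121631965007176978009609916904769480327426 = true := by decide +kernel

theorem r_p2a : chkF [.add (.add (G1 2500 (v 0) (v 1) (v 2) (v 3)) (c 200)) (pn 5 esc2)]
    10000 0 0 0 80 40 600 3000 1280 1450 0 8000 0 880 4084167900756073567816330652763222976128124100462161875363655461424664740738216084383735123551404845253457851603062756630798822544913111965428581965881963619034107657917286056194 = true := by decide +kernel

theorem r_p2b : chkF [.add (.add (G1 2500 (v 0) (v 1) (v 2) (v 3)) (c 358)) (pn 5 esc2)]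
    10000 0 0 0 80 40 3000 4000 1280 1450 0 8000 0 880 404897677653804471831385206325752532384562219118585339478274 = true := by decide +kernel

theorem r_p2c : chkF [.add (.add (G1 2500 (v 0) (v 1) (v 2) (v 3)) (c 1700)) (pn 5 esc2)]
    10000 0 0 0 80 40 4000 6500 1280 1450 0 8000 0 880 786534677788007570867892723822709329487505461066626967068401293846470779227754913203964226009867235092065737134018957532423978747198490816807170 = true := by decide +kernel

theorem r_pEz : chkF [.add (.add (G1 2500 (v 0) (v 1) (v 2) (v 3)) (c 1200)) (pn 5 escE)]
    10000 0 0 0 610 40 0 600 1280 1580 0 7000 0 610 1508316080894590159636509824050996911604466811175170 = true := by decide +kernel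

theorem r_pEa : chkF [.add (.add (G1 2500 (v 0) (v 1) (v 2) (v 3)) (c 200)) (pn 5 escE)]
    10000 0 0 0 610 40 600 3000 1280 1580 0 7000 0 610 40664120947812508480363507782492944655751044173321955640252578080554373141483788632981582828460275328371899879041007874 = true := by decide +kernel

theorem r_pEb : chkF [.add (.add (G1 2500 (v 0) (v 1) (v 2) (v 3)) (c 358)) (pn 5 escE)]
    10000 0 0 0 610 40 3000 4000 1280 1580 0 7000 0 610 20932724303777090983720185728368898 = true := by decide +kernel

theorem r_pEc : chkF [.add (.add (G1 2500 (v 0) (v 1) (v 2) (v 3)) (c 1700)) (pn 5 escE)]
    10000 0 0 0 610 40 4000 6500 1280 1580 0 7000 0 610 2482014959497269109403720906248945618481774699927367595393828487672706369078755844463848135843452506543316109623554 = true := by decide +kernel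

theorem r_two_1 : chkF [.add (.add (GT 2500 (v 0) (v 1) (v 2) (v 3)) L2) (pn 2 escD)]
    10000 0 0 0 985 40 0 3250 100 960 0 6000 0 1945 1125153809106038305473475965018398770397448547472159499783272310863921929911214410134362774498662917218577453218525362308557685615060756973998841681216781416129212099929511284272741145713949472968042707048733961483572383250265163251452824644145515450939301239877971190933632652325586242200007452663548702067085688496990656627535530550174819285843412971300125134351393700168252886898450998696674221317998115113720018265520199010620512863338452818370526835995730155797589655781530528634720765664702018215255064471767981999553891825713816829954 = true := by decide +kernel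

end R4

end TL

end Pool.Agent.Work.MP_b30479_gt.G2
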