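import Pool.Agent.Work.MP_b30479_gt.G2.TL4d

/-!
# Tails, part 4: rows

Certificates generated.
-/

namespace Pool.Agent.Work.MP_b30479_gt.G2

open VOL SR

namespace TL

namespace R4

open NumG

theorem r_two_2 : chkF [.add (.add (GT 2500 (v 0) (v 1) (v 2) (v 3)) L2) (pn 2 escD)]
    10000 0 0 0 985 40 3250 6500 100 960 0 6000 0 1945 1110659712141279382658050751991656840455119964061773503931312011837928028325194122833233338692128807845391241351469409621503448363237516979336148910469875364188140137604178413864217001256031692907803653942196602163335196709244810991618827890705179029089128687383419574253338359095381678108972047849066368697751871676699530693651948048496690559326586834225310236674 = true := by decide +kernel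

theorem r_twF : chkF [.add (.add (GT 2500 (v 0) (v 1) (v 2) (v 3)) L2) (pn 2 escF)]
    10000 0 0 0 680 40 2700 6500 100 960 6000 8000 0 1360 15413266486805187060540180485563596104674569964939950613461899464456420880297170406586402669454970684912836009918527995185367397518670876147804007964101190998247663445073569721555777788122398306781256428982769106339226562029943811664214164919692749384378917565158047662165290280730028246569696702166826143695699736534929019515047929869984711311616 = true := by decide +kernel

theorem r_twE : chkF [.add (GT 2200 (v 0) (v 1) (c 0) (c 0)) LB]
    10000 0 0 0 0 40 0 6500 880 1310 0 0 0 0 1277554729728079233785719160832 = true := by decide +kernel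

theorem r_thK_1 : chkF [.add (.add (GT 1800 (v 0) (v 1) (v 2) (v 3)) LK) (pn 2 escK)]
    10000 0 40 0 1230 40 0 6500 0 610 0 4000 0 1280 4137527893137867075528850763402541572835682521731791071519200587280971303733062005685946257942121273124636273405082242598288613505101996236652817472163204671344392726377181990226056782396974841112654154356290972975364205253053321026572942783013601424960755089381641749639687302607917510548060133597933169368328882605822331721393881260817197274296100061440 = true := by decide +kernel

end R4

end TL

end Pool.Agent.Work.MP_b30479_gt.G2
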