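import Pool.Agent.Work.MP_b30479_gt.G2.TL4d

/-!
# Tails, part 4: rows

Certificates generated.
-/

namespace Pool.Agent.Work.MP_b30479_gt.G2

open VOL SR

namespace TL

namespace R4

open NumG

theorem r_thK_2 : chkF [.add (.add (GT 1800 (v 0) (v 1) (v 2) (v 3)) LK) (pn 2 escK)]
    10000 0 40 0 1230 40 0 6500 0 610 4000 8000 0 1280 69571185829790568742803716610106790287793271510667890797341405627885754249246598789390852391058375640404237877493768768941219449747374801448846602223888848984493554430030341606099579282700550058795313034413248878651998702833553603719833231066699076783620783288503222410715046967079941369139643561129411987757778156749488250704051261347411795940881217841679706845928578898344765710771811739126909141914979179141525128644241933683548843009343982213633676035225681159573297169298455412639865477862467976065673478627910161362881272324557599306259831384614122007677867650090660392123314321620390051216359802370852791263733910946493760095362808080626850814757714050052739420471319365507323563715426595395143579599896832 = true := by decide +kernel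

theorem r_thB : chkF [.add (.add (.sub (G1 2200 (v 0) (v 1) (.sub (c 1 1) (v 2)) (.neg (v 3))) (.mul .pi (v 1))) LA) (.add (c 4540) (pn 5 escL))]
    10000 0 40 0 1230 40 5000 6500 0 610 2000 8000 0 1280 108682336825727464713414553929929162055018158579888829689428501889282 = true := by decide +kernel

theorem r_thM_1 : chkF [.add (.sub (.sub (GQ (v 0) (v 1) (v 2) (v 3)) (mX (v 0))) (c 0)) (pn 2 escW)]
    10000 0 1090 0 1145 40 0 500 0 1140 0 812 0 1715 15818890091257940576927148492532723331066896869218419880397526341012655270088156442949249824951158382559875209533627595354092698355691706272024322254064666224842623021396462528279539547831384790418241949295964456213457025447236835551991085259173413075313697928073539108067236191320230116044660151641583001885466275024392035140668723591950868114030723335816033715508476378788452648611061477468476418359153092805583511695361673218295880086911111161202009419014907816293291109630336783263618781801443931254964611502475503343690508597427254412254941398701945503479317856715373269043536973947311517036524653377691591147027182274279749832665289601651344989846834115612081725948453666370330097022675894419458 = true := by decide +kernel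

theorem r_thM_2 : chkF [.add (.sub (.sub (GQ (v 0) (v 1) (v 2) (v 3)) (mX (v 0))) (c 0)) (pn 2 escW)]
    10000 0 1090 0 1145 40 500 1000 0 1140 0 812 0 1715 1096285937985892241540387223246255507859703287133162505690077996651606199097331924693134966760096967450465085326253794991411189553574735926090633980584192061225968288221141095329378091394 = true := by decide +kernel

end R4

end TL

end Pool.Agent.Work.MP_b30479_gt.G2
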