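import Pool.Agent.Work.MP_b30479_gt.G2.TL4d

/-!
# Tails, part 4: rows

Certificates generated.
-/

namespace Pool.Agent.Work.MP_b30479_gt.G2

open VOL SR

namespace TL

namespace R4

open NumG

theorem r_thM_3 : chkF [.add (.sub (.sub (GQ (v 0) (v 1) (v 2) (v 3)) (mX (v 0))) (c 0)) (pn 2 escW)]
    10000 0 1090 0 1145 40 0 1000 0 1140 812 1625 0 1715 786582125093091221204884138292572914581076440515896973352399971475443560742453218094943733527767520484384877554971519822916090560673434801553408 = true := by decide +kernel

theorem r_thM_4 : chkF [.add (.sub (.sub (GQ (v 0) (v 1) (v 2) (v 3)) (mX (v 0))) (c 0)) (pn 2 escW)]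
    10000 0 1090 0 1145 40 1000 2000 0 1140 0 1625 0 1715 5766700323621853726095682094154626714089751579410691470972658055944427087101404124904484663635069658953234082488506561329478774446379453453112072265363171211918070167227895331864095705628676930490441255471751044918748345789351742830701737798361365845483430282048257168323276154492913939430371954762090845605707520233731609699643295387680138615256414227047273843423573612297202437797146960651633026 = true := by decide +kernel

theorem r_thM_5 : chkF [.add (.sub (.sub (GQ (v 0) (v 1) (v 2) (v 3)) (mX (v 0))) (c 0)) (pn 2 escW)]
    10000 0 1090 0 1145 40 0 2000 0 1140 1625 3250 0 1715 17962362495157813548837631292321488819967507186124591512179050723376075211192744998478010425374921939554627455944684088337609849727772805636181334624339053255072833436785287996280038278299648 = true := by decide +kernel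

theorem r_thM_6 : chkF [.add (.sub (.sub (GQ (v 0) (v 1) (v 2) (v 3)) (mX (v 0))) (c 0)) (pn 2 escW)]
    10000 0 1090 0 1145 40 0 1000 0 1140 3250 6500 0 1715 5766700328867446549612166515679957013119059163939489931794553968960787802044049308976025331212411673713834805409162407809672280928414445481657245667357028659612361458898581342597660222882410162291879988386514168078855283389513927524514726334282254739692380846053025616860879718639811678645639019674298821567745076030154684140881874327091574362913339771445015633830688685199777337888207856860135426 = true := by decide +kernel

theorem r_thM_7 : chkF [.add (.sub (.sub (GQ (v 0) (v 1) (v 2) (v 3)) (mX (v 0))) (c 0)) (pn 2 escW)]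
    10000 0 1090 0 1145 40 1000 2000 0 1140 3250 4875 0 1715 151487949318749843218610482313550236843206623194182748030305219717830467232026652937068301066512663228270526466 = true := by decide +kernel

theorem r_thM_8 : chkF [.add (.sub (.sub (GQ (v 0) (v 1) (v 2) (v 3)) (mX (v 0))) (c 0)) (pn 2 escW)]
    10000 0 1090 0 1145 40 1000 2000 0 1140 4875 5687 0 1715 6720314991783646099439317821684266899667472057950530552525411503560770607207118689218982817072582551168058139283975048939796523457468789801781931362024971150598216772557704501485066002290570183535650048694600060730238804389551015181395427713 = true := by decide +kernel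

end R4

end TL

end Pool.Agent.Work.MP_b30479_gt.G2
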