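import Pool.Agent.Work.MP_b30479_gt.G2.TL4d

/-!
# Tails, part 4: rows

Certificates generated.
-/

namespace Pool.Agent.Work.MP_b30479_gt.G2

open VOL SR

namespace TL

namespace R4

open NumG

theorem r_tA5_1 : chkF [.add (.add (.sub (G1 2200 (v 0) (v 1) (.sub (c 1 1) (v 2)) (.neg (v 3))) (.mul .pi (v 1))) LA) (.add (pk (v 0)) (pn 5 escL))]
    10000 0 40 0 1230 40 2200 3500 0 610 2000 5000 0 1280 1125153804955444730265694140531840040746230311553328072979580482239489470167760644441793236105952479445783549166801877314771181576662909572312217576397411109325214205528406757160594920584970884223424638296429645467897206479968473350084982760474274240312602227144112743059163875449183264308280662570984533480623148192586344046045246757387750338422366872485964333717244519942944309297726607583699443125783151340051849765845831770385212036325348675073038393054172661221791486144317978824334403828730249579684806826766152241073827816474268401922 = true := by decide +kernel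

theorem r_tA5_2 : chkF [.add (.add (.sub (G1 2200 (v 0) (v 1) (.sub (c 1 1) (v 2)) (.neg (v 3))) (.mul .pi (v 1))) LA) (.add (pk (v 0)) (pn 5 escL))]
    10000 0 40 0 1230 40 2200 3500 0 610 5000 8000 0 1280 484235066359176109792138536015769709274406846273095864880047503736760446928185257541517190087199051357165900887819573528806290772623758753221144047760731906240442348031428516918383360409154910296139087791332329774110655983312655436545952947537284601196052738 = true := by decide +kernel

theorem r_tA6 : chkF [.add (.add (.sub (G1 2200 (v 0) (v 1) (.sub (c 1 1) (v 2)) (.neg (v 3))) (.mul .pi (v 1))) LA) (.add (pk (v 0)) (pn 5 escL))]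
    10000 0 40 0 1230 40 3500 5000 0 610 2000 8000 0 1280 5692497879733133936408317553206592195943392086924233461553651107059406222473871963753603401939567770102942540298834676736462821105909556702305803137762144223253920868394693216698900305971488211784417857079092187418886402 = true := by decide +kernel

theorem r_rg0 : chkF [.add (.add gR LR) (pk (v 0))]
    10000 0 0 0 5000 40 0 800 0 590 0 1045 0 6250 181182076829600432613905991450714205700976823038368163217524544703070219992768429962954330325051510032916100034068447264952742567090698553438979496948739617162478712625709428186391760274807314869862905056266981957542598210163835001309726107768738863064820400947244795816195869179418758101749423045157582799235 = true := by decide +kernel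

theorem r_rg1 : chkF [.add (.add gR LR) (pk (v 0))]
    10000 0 0 0 5000 40 800 1000 0 590 0 1045 0 6250 7934067688265628357972254417151584549592803476853973322636994763974346764834290839809493038139663737313840151412946703581762837168468570887572560199378608626649886142020813941878023293171742640403458564140739978707213448540513635077771035223950392868480420462979 = true := by decide +kernel

theorem r_rg2_1 : chkF [.add (.add gR LR) (pk (v 0))]
    10000 0 0 0 5000 40 1000 1300 0 590 0 1045 0 781 290499837147791875 = true := by decide +kernel

end R4

end TL

end Pool.Agent.Work.MP_b30479_gt.G2
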