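import Pool.Agent.Work.MP_b30479_gt.G2.TL5A
import Pool.Agent.Work.MP_b30479_gt.G2.TK1
import Pool.Agent.Work.MP_b30479_gt.G2.TK2
import Pool.Agent.Work.MP_b30479_gt.G2.TK3
import Pool.Agent.Work.MP_b30479_gt.G2.TDef3

/-!
# Tails: digit sides next to a ring, new shares
-/

set_option linter.unusedVariables false
set_option linter.unusedSimpArgs false

namespace Pool.Agent.Work.MP_b30479_gt.G2

open VOL SR NumU

namespace TL

theorem K5.R_one_0 {w : ℝ} (h0 : 0 ≤ w) (h1 : w ≤ 1 / 20) :
    -(9 / 100) < 0 * uu w 0 + (-11 / 1000) + (0 / 1) * w - (uu (19 / 20 + w) 0 - uu (19 / 20) 0 - uu w 0) - (3 / 200) := by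
  rcases le_total w (1 / 100) with g0 | g0
  · have a1 := K5.r5_one_0_0 (w := w) (by linarith only [h0]) (by linarith only [g0])
    have a2 := K1b.anti_l (a := w) (b := 1 / 100) (by linarith only [h0]) (by linarith only [g0]) (by norm_num)
    linarith only [a1, a2]
  rcases le_total w (1 / 25) with g1 | g1
  · have a1 := K5.r5_one_0_1 (w := w) (by linarith only [g0]) (by linarith only [g1])
    linarith only [a1]
  have a1 := K5.r5_one_0_2 (w := w) (by linarith only [g1]) (by linarith only [h1])
  have a3 := K1b.anti_r (a := 99 / 100) (b := 19 / 20 + w) (by norm_num) (by linarith only [g1]) (by linarith only [h1])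
  linarith only [a1, a3]

theorem K5.R_one_1 {w : ℝ} (h0 : 0 ≤ w) (h1 : w ≤ 1 / 20) :
    -(73 / 500) < 1 * uu w 0 + (-163 / 5000) + (779 / 1000) * w - (uu (19 / 20 + w) 0 - uu (19 / 20) 0 - uu w 0) - (3 / 200) := by
  rcases le_total w (1 / 100) with g0 | g0
  · have a1 := K5.r5_one_1_0 (w := w) (by linarith only [h0]) (by linarith only [g0])
    have a2 := K1b.anti_l (a := w) (b := 1 / 100) (by linarith only [h0]) (by linarith only [g0]) (by norm_num)
    linarith only [a1, a2]
  rcases le_total w (19 / 400) with g1 | g1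
  · have a1 := K5.r5_one_1_1 (w := w) (by linarith only [g0]) (by linarith only [g1])
    linarith only [a1]
  have a1 := K5.r5_one_1_2 (w := w) (by linarith only [g1]) (by linarith only [h1])
  have a3 := K1b.anti_r (a := 399 / 400) (b := 19 / 20 + w) (by norm_num) (by linarith only [g1]) (by linarith only [h1])
  linarith only [a1, a3]

theorem K5.R_two_0 {w : ℝ} (h0 : 0 ≤ w) (h1 : w ≤ 1 / 20) :
    -(61 / 500) < 1 * uu w 0 + (53 / 625) + (-37 / 250) * w - (uu (19 / 20 + w) 0 - uu (19 / 20) 0 - uu w 0) - (3 / 200) := by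
  rcases le_total w (1 / 100) with g0 | g0
  · have a1 := K5.r5_two_0_0 (w := w) (by linarith only [h0]) (by linarith only [g0])
    have a2 := K1b.anti_l (a := w) (b := 1 / 100) (by linarith only [h0]) (by linarith only [g0]) (by norm_num)
    linarith only [a1, a2]
  rcases le_total w (1 / 25) with g1 | g1
  · have a1 := K5.r5_two_0_1 (w := w) (by linarith only [g0]) (by linarith only [g1])
    linarith only [a1]
  have a1 := K5.r5_two_0_2 (w := w) (by linarith only [g1]) (by linarith only [h1])
  have a3 := K1b.anti_r (a := 99 / 100) (b := 19 / 20 + w) (by norm_num) (by linarith only [g1]) (by linarith only [h1])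
  linarith only [a1, a3]

theorem K5.R_twoE_0 {w : ℝ} (h0 : 0 ≤ w) (h1 : w ≤ 1 / 20) :
    -(93 / 1000) < 1 * uu w 0 + (309 / 2000) + (0 / 1) * w - (uu (19 / 20 + w) 0 - uu (19 / 20) 0 - uu w 0) - (3 / 200) := by
  rcases le_total w (1 / 100) with g0 | g0
  · have a1 := K5.r5_twoE_0_0 (w := w) (by linarith only [h0]) (by linarith only [g0])
    have a2 := K1b.anti_l (a := w) (b := 1 / 100) (by linarith only [h0]) (by linarith only [g0]) (by norm_num)
    linarith only [a1, a2]
  rcases le_total w (1 / 25) with g1 | g1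
  · have a1 := K5.r5_twoE_0_1 (w := w) (by linarith only [g0]) (by linarith only [g1])
    linarith only [a1]
  have a1 := K5.r5_twoE_0_2 (w := w) (by linarith only [g1]) (by linarith only [h1])
  have a3 := K1b.anti_r (a := 99 / 100) (b := 19 / 20 + w) (by norm_num) (by linarith only [g1]) (by linarith only [h1])
  linarith only [a1, a3]

theorem K5.R_touched_0 {w : ℝ} (h0 : 0 ≤ w) (h1 : w ≤ 1 / 20) :
    -(111 / 1000) < 0 * uu w 0 + (0 / 1) + (0 / 1) * w - (uu (19 / 20 + w) 0 - uu (19 / 20) 0 - uu w 0) - (3 / 200) := by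
  rcases le_total w (1 / 100) with g0 | g0
  · have a1 := K5.r5_touched_0_0 (w := w) (by linarith only [h0]) (by linarith only [g0])
    have a2 := K1b.anti_l (a := w) (b := 1 / 100) (by linarith only [h0]) (by linarith only [g0]) (by norm_num)
    linarith only [a1, a2]
  rcases le_total w (1 / 25) with g1 | g1
  · have a1 := K5.r5_touched_0_1 (w := w) (by linarith only [g0]) (by linarith only [g1])
    linarith only [a1]
  have a1 := K5.r5_touched_0_2 (w := w) (by linarith only [g1]) (by linarith only [h1])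
  have a3 := K1b.anti_r (a := 99 / 100) (b := 19 / 20 + w) (by norm_num) (by linarith only [g1]) (by linarith only [h1])
  linarith only [a1, a3]

/-- `x >= 95/100` -/
theorem side_one_ring_far {Cc : Cl} {C : Ct} (hC : C.ok Cc) {x w t k G : ℝ}
    (hx : 95 / 100 ≤ x) (hw : 0 ≤ w) (hxw : x + w ≤ 1)
    (t0 : (cw Cc .ring).t0 ≤ t) (t1 : t ≤ (cw Cc .ring).t1)
    (s0 : (cw Cc .ring).s0 ≤ t + k) (s1 : t + k ≤ (cw Cc .ring).s1)
    (k0 : (cw .ring Cc).t0 ≤ k) (k1 : k ≤ (cw .ring Cc).t1)
    (hbig : ¬ big Cc) (hCo : Cc = .one → -(2 / 25) ≤ k) (hE : EB .one C w (-k) G) :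
    15 / 1000 ≤ V1 ⟨1 / 4, t⟩ ⟨cN C, k⟩ - V1 ⟨x, 0⟩ ⟨w, 0⟩ + G + 17 / 10 * t := by
  have eU : UU ⟨w, 0⟩ = uu w 0 := rfl
  have hw1 : w ≤ 1 / 20 := by linarith only [hx, hxw]
  cases C
  · obtain rfl : Cc = .one := hC
    simp only [cw, EB, eU] at t0 t1 s0 s1 k0 k1 hE
    simp only [cN]
    have k0 := hCo rfl
    rcases hE.1 (by linarith only [hx, hxw]) with hE | hE
    · have hF := K5.f5_one_0 (t := t) (k := k) (by linarith only [t0]) (by linarith only [t1]) (by linarith only [k0]) (by linarith only [k1]) (by linarith only [s1]) (by linarith only [s0])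
      have hfin := K1b.core (c := 1 / 4) (c' := 9 / 50) (X := 19 / 20) (x := x) (w := w) (t := t) (k := k) (G := G)
        (β := 17 / 10) (γ := 3927 / 1250) (a := 3 / 200) (a0 := -11 / 1000) (a1 := 0 / 1) (c1 := 9 / 100) (U := 0)
        (by norm_num) (by linarith only [hx]) hw hxw
        (by unfold K1b.rF; rw [show (1 / 4 : ℝ) + 9 / 50 = 43 / 100 by norm_num]; linarith only [hF])
        (by have := K5.R_one_0 (w := w) (by linarith only [hw]) (by linarith only [hx, hxw]); linarith only [this])
        (by linarith only [hE])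
      linarith only [hfin]
    · have hF := K5.f5_one_1 (t := t) (k := k) (by linarith only [t0]) (by linarith only [t1]) (by linarith only [k0]) (by linarith only [k1]) (by linarith only [s1]) (by linarith only [s0])
      have hfin := K1b.core (c := 1 / 4) (c' := 9 / 50) (X := 19 / 20) (x := x) (w := w) (t := t) (k := k) (G := G)
        (β := 17 / 10) (γ := 821 / 500) (a := 3 / 200) (a0 := -163 / 5000) (a1 := 779 / 1000) (c1 := 73 / 500) (U := 1)
        (by norm_num) (by linarith only [hx]) hw hxw
        (by unfold K1b.rF; rw [show (1 / 4 : ℝ) + 9 / 50 = 43 / 100 by norm_num]; linarith only [hF])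
        (by have := K5.R_one_1 (w := w) (by linarith only [hw]) (by linarith only [hx, hxw]); linarith only [this])
        (by linarith only [hE])
      linarith only [hfin]
  · obtain rfl : Cc = .two := hC
    simp only [cw, EB, eU] at t0 t1 s0 s1 k0 k1 hE
    simp only [cN]
    have hF := K5.f5_two_0 (t := t) (k := k) (by linarith only [t0]) (by linarith only [t1]) (by linarith only [k0]) (by linarith only [k1]) (by linarith only [s1]) (by linarith only [s0])
    have hfin := K1b.core (c := 1 / 4) (c' := 1 / 4) (X := 19 / 20) (x := x) (w := w) (t := t) (k := k) (G := G)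
      (β := 17 / 10) (γ := 1571 / 1000) (a := 3 / 200) (a0 := 53 / 625) (a1 := -37 / 250) (c1 := 61 / 500) (U := 1)
      (by norm_num) (by linarith only [hx]) hw hxw
      (by unfold K1b.rF; rw [show (1 / 4 : ℝ) + 1 / 4 = 1 / 2 by norm_num]; linarith only [hF])
      (by have := K5.R_two_0 (w := w) (by linarith only [hw]) (by linarith only [hx, hxw]); linarith only [this])
      (by linarith only [hE])
    linarith only [hfin]
  · obtain rfl : Cc = .twoE := hC
    simp only [cw, EB, eU] at t0 t1 s0 s1 k0 k1 hE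
    simp only [cN]
    have hF := K5.f5_twoE_0 (t := t) (k := k) (by linarith only [t0]) (by linarith only [t1]) (by linarith only [k0]) (by linarith only [k1]) (by linarith only [s1]) (by linarith only [s0])
    have hfin := K1b.core (c := 1 / 4) (c' := 11 / 50) (X := 19 / 20) (x := x) (w := w) (t := t) (k := k) (G := G)
      (β := 17 / 10) (γ := 1131 / 500) (a := 3 / 200) (a0 := 309 / 2000) (a1 := 0 / 1) (c1 := 93 / 1000) (U := 1)
      (by norm_num) (by linarith only [hx]) hw hxw
      (by unfold K1b.rF; rw [show (1 / 4 : ℝ) + 11 / 50 = 47 / 100 by norm_num]; linarith only [hF])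
      (by have := K5.R_twoE_0 (w := w) (by linarith only [hw]) (by linarith only [hx, hxw]); linarith only [this])
      (by linarith only [hE])
    linarith only [hfin]
  · exact absurd (by rw [show Cc = .three from hC]; simp [big]) hbig
  · exact absurd (by rw [show Cc = .three from hC]; simp [big]) hbig
  · exact absurd (by rw [show Cc = .threeE from hC]; simp [big]) hbig
  · exact absurd (by rw [show Cc = .ring from hC]; simp [big]) hbig
  · have hh : 19 / 500 ≤ t ∧ t ≤ 79 / 500 ∧ -117 / 1000 ≤ k ∧ k ≤ 2 / 25 := by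
      clear hE hx
      cases Cc
      · simp only [cw, hbox] at t0 t1 k0 k1
        exact ⟨by linarith only [t0], by linarith only [t1], by linarith only [k0], by linarith only [k1]⟩
      · simp only [cw, hbox] at t0 t1 k0 k1
        exact ⟨by linarith only [t0], by linarith only [t1], by linarith only [k0], by linarith only [k1]⟩
      · simp only [cw, hbox] at t0 t1 k0 k1
        exact ⟨by linarith only [t0], by linarith only [t1], by linarith only [k0], by linarith only [k1]⟩
      · exact absurd (by simp [big]) hbig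
      · exact absurd (by simp [big]) hbig
      · exact absurd (by simp [big]) hbig
    obtain ⟨t0, t1, k0, k1⟩ := hh
    simp only [EB, eU] at hE
    simp only [cN]
    have hF := K5.f5_touched_0 (t := t) (k := k) (by linarith only [t0]) (by linarith only [t1]) (by linarith only [k0]) (by linarith only [k1])
    have hfin := K1b.core (c := 1 / 4) (c' := 1 / 5) (X := 19 / 20) (x := x) (w := w) (t := t) (k := k) (G := G)
      (β := 17 / 10) (γ := 59 / 25) (a := 3 / 200) (a0 := 0 / 1) (a1 := 0 / 1) (c1 := 111 / 1000) (U := 0)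
      (by norm_num) (by linarith only [hx]) hw hxw
      (by unfold K1b.rF; rw [show (1 / 4 : ℝ) + 1 / 5 = 9 / 20 by norm_num]; linarith only [hF])
      (by have := K5.R_touched_0 (w := w) (by linarith only [hw]) (by linarith only [hx, hxw]); linarith only [this])
      (by linarith only [hE])
    linarith only [hfin]

/-- **K1 next to a ring** -/
theorem side_one_ring' {Cc : Cl} {C : Ct} (hC : C.ok Cc) {x w t k G : ℝ}
    (hx : 65 / 100 ≤ x) (hw : 0 ≤ w) (hxw : x + w ≤ 1)
    (t0 : (cw Cc .ring).t0 ≤ t) (t1 : t ≤ (cw Cc .ring).t1)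
    (s0 : (cw Cc .ring).s0 ≤ t + k) (s1 : t + k ≤ (cw Cc .ring).s1)
    (k0 : (cw .ring Cc).t0 ≤ k) (k1 : k ≤ (cw .ring Cc).t1)
    (hbig : ¬ big Cc) (hCo : Cc = .one → -(2 / 25) ≤ k) (hE : EB .one C w (-k) G) :
    gD .one x t ≤ V1 ⟨1 / 4, t⟩ ⟨cN C, k⟩ - V1 ⟨x, 0⟩ ⟨w, 0⟩ + G := by
  simp only [gD]
  split_ifs with h
  · have := side_one_ring_far hC h hw hxw t0 t1 s0 s1 k0 k1 hbig hCo hE
    linarith only [this]
  · have h1 := side_one (B := .ring) hC (by simp only [X0]; exact hx) hw hxw t0 t1 s0 s1 k0 k1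
      (fun hh => hbig hh.2) (fun hh => absurd hh (by decide)) hCo hE
    have e1 : al .one .ring Cc x = -(135 / 1000) := by
      simp only [al]
      rw [if_neg h]
    have e2 : be .one .ring = 21 / 10 := rfl
    have e3 : cT .one .ring = 1 / 4 := rfl
    rw [e1, e2, e3] at h1
    linarith only [h1]

/-! ### the other classes -/

namespace K5

section
open NumI (V)

theorem c_20 : -(109 / 1000) < uu (1 / 20) 0 := by
  have h : chk [.add (.uu (.q 1 20) (.q 0 1)) (.q 109 1000)] 2 [V.of 1 0 0 0] = true := by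
    decide +kernel
  have hp := pos_of_chk (chk1 h (by norm_num) (x := 0) (by norm_num) (by norm_num))
  simp only [E.val] at hp
  push_cast at hp
  norm_num at hp
  linarith only [hp]

end

theorem uu_ge {w : ℝ} (h0 : 0 ≤ w) (h1 : w ≤ 1 / 20) : -(109 / 1000) ≤ uu w 0 := by
  have := c_20
  have := uu_real_anti (a := w) (b := 1 / 20) h0 h1 (by norm_num)
  linarith

theorem uu_nn {x : ℝ} (h0 : 95 / 100 ≤ x) (h1 : x ≤ 1) : 0 ≤ uu x 0 := by
  have h := uu_real_anti1 (a := x) (b := 1) (by linarith only [h0]) h1 le_rfl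
  rw [UA.uu_one, abs_zero, mul_zero] at h
  exact h

theorem lin_ge {n a0 a1 c : ℤ} {w : ℝ} (h0 : 0 ≤ w) (h1 : w ≤ 1 / 20) (hc : c ≤ n + a0)
    (hc1 : 2 * c ≤ 2 * (n + a0) + a1) : (c : ℝ) / 10000 ≤ (n : ℝ) / 10000 +
      ((a0 : ℝ) / 10000 + (a1 : ℝ) / 1000 * w) := by
  have hc' : (c : ℝ) ≤ n + a0 := by exact_mod_cast hc
  have hc1' : 2 * (c : ℝ) ≤ 2 * (n + a0) + a1 := by exact_mod_cast hc1
  have e1 : 0 ≤ (1 - 20 * w) * ((n : ℝ) + a0 - c) := mul_nonneg (by linarith only [h1]) (by linarith only [hc'])
  have e2 : 0 ≤ w * (2 * ((n : ℝ) + a0) + a1 - 2 * c) := mul_nonneg h0 (by linarith only [hc1'])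
  linarith only [e1, e2]

open NumI (V) in
/-- two crossings -/
theorem two_far {c' ck a0 a1 e n0 k0 k1 : ℤ}
    (hn : chk [nE 25 c' 170 ck n0] 30 [V.of 10000 (-850) 960 0, V.of 10000 k0 k1 0] = true)
    (he : 1 ≤ e) (hc : 500 + 1090 * (e - 1) ≤ n0 + a0)
    (hc1 : 2 * (500 + 1090 * (e - 1)) ≤ 2 * (n0 + a0) + a1)
    {x w t k G C' : ℝ} (hC' : C' = (c' : ℝ) / 100)
    (h0 : 95 / 100 ≤ x) (hw : 0 ≤ w) (hxw : x + w ≤ 1)
    (ht0 : -(850 / 10000) ≤ t) (ht1 : t ≤ 960 / 10000) (hk0 : (k0 : ℝ) / 10000 ≤ k)
    (hk1 : k ≤ (k1 : ℝ) / 10000)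
    (hG : ((e : ℝ) - 2) * UU ⟨w, 0⟩ + ((a0 : ℝ) / 10000 + (a1 : ℝ) / 1000 * w) +
      (ck : ℝ) / 10000 * k ≤ G) :
    5 / 100 - 17 / 10 * t ≤ V2 ⟨1 / 4, t⟩ ⟨C', k⟩ - V2 ⟨x, 0⟩ ⟨w, 0⟩ + G := by
  have h1 := new_sound hn (t := t) (k := k) (by push_cast; linarith only [ht0]) (by push_cast; linarith only [ht1])
    hk0 hk1
  push_cast at h1
  rw [← hC', show (25 : ℝ) / 100 = 1 / 4 by norm_num] at h1
  rw [UU_uu] at hG
  simp only at hG
  have h2 := V2_old_right (x := x) (w := w) (by linarith only [h0]) hw hxw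
  have h3 := uu_ge hw (by linarith only [h0, hxw])
  have h4 := lin_ge (w := w) hw (by linarith only [h0, hxw]) hc hc1
  have he' : (1 : ℝ) ≤ e := by exact_mod_cast he
  have h5 := mul_le_mul_of_nonneg_left h3 (show 0 ≤ (e : ℝ) - 1 by linarith only [he'])
  push_cast at h4
  rw [V2_real]
  linarith only [hG, h1, h2, h5, h4]

open NumI (V) in
/-- three crossings, slot `0` in the tail -/
theorem three_far0 {c' ck a0 a1 e n0 k0 k1 : ℤ} {c : ℕ}
    (hn : chkT [K3.nE3 25 42 c' 17000 ck n0] 34 c
      [V.of 10000 (-980) 570, V.of 10000 (-1230) 50, V.of 10000 k0 k1] = true)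
    (he : 0 ≤ e) (hc : 1590 + 1090 * e ≤ n0 + a0)
    (hc1 : 2 * (1590 + 1090 * e) ≤ 2 * (n0 + a0) + a1)
    {x l w t m k G C' : ℝ} (hC' : C' = (c' : ℝ) / 100)
    (hx : 95 / 100 ≤ x) (hxl : x ≤ l) (hw : 0 ≤ w) (hlw : l + w ≤ 1)
    (ht0 : -(98 / 1000) ≤ t) (ht1 : t ≤ 57 / 1000)
    (hm0 : -(123 / 1000) ≤ m) (hm1 : m ≤ 5 / 1000) (hk0 : (k0 : ℝ) / 10000 ≤ k)
    (hk1 : k ≤ (k1 : ℝ) / 10000)
    (hG : ((e : ℝ) - 2) * UU ⟨w, 0⟩ + ((a0 : ℝ) / 10000 + (a1 : ℝ) / 1000 * w) +
      (ck : ℝ) / 10000 * k ≤ G) :
    5 / 100 - 17 / 10 * t ≤ V3 ⟨1 / 4, t⟩ ⟨42 / 100, m⟩ ⟨C', k⟩ - V3 ⟨x, 0⟩ ⟨l, 0⟩ ⟨w, 0⟩ + G := by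
  have h1 := K3.new3 hn (t := t) (m := m) (k := k) (by push_cast; linarith only [ht0])
    (by push_cast; linarith only [ht1]) (by push_cast; linarith only [hm0]) (by push_cast; linarith only [hm1]) hk0 hk1
  push_cast at h1
  rw [← hC', show (25 : ℝ) / 100 = 1 / 4 by norm_num] at h1
  rw [UU_uu] at hG
  simp only at hG
  have g1 := uu_real_anti1 (a := l) (b := l + w) (by linarith only [hx, hxl]) (by linarith only [hw]) hlw
  have g2 := uu_ge (w := l - x) (by linarith only [hxl]) (by linarith only [hx, hw, hlw])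
  have g3 := uu_nn (x := x) hx (by linarith only [hxl, hw, hlw])
  have h3 := uu_ge hw (by linarith only [hx, hxl, hlw])
  have h4 := lin_ge (w := w) hw (by linarith only [hx, hxl, hlw]) hc hc1
  have he' : (0 : ℝ) ≤ e := by exact_mod_cast he
  have h5 := mul_le_mul_of_nonneg_left h3 he'
  push_cast at h4
  rw [K3.V3_real]
  linarith only [hG, h1, g1, g2, g3, h5, h4]

open NumI (V) in
/-- three crossings, slot `2` in the tail -/
theorem three_far2 {c' ck a0 a1 e n0 k0 k1 : ℤ} {c : ℕ}
    (hn : chkT [K3.nE3 c' 42 25 ck 17000 n0] 34 c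
      [V.of 10000 k0 k1, V.of 10000 (-1230) 50, V.of 10000 (-980) 570] = true)
    (he : 0 ≤ e) (hc : 2680 + 1090 * e ≤ n0 + a0)
    (hc1 : 2 * (2680 + 1090 * e) ≤ 2 * (n0 + a0) + a1)
    {x l u t m k G C' : ℝ} (hC' : C' = (c' : ℝ) / 100)
    (hx : 95 / 100 ≤ x) (hu : 0 ≤ u) (hul : u ≤ l) (hlx : l + x ≤ 1)
    (ht0 : -(98 / 1000) ≤ t) (ht1 : t ≤ 57 / 1000)
    (hm0 : -(123 / 1000) ≤ m) (hm1 : m ≤ 5 / 1000) (hk0 : (k0 : ℝ) / 10000 ≤ k)
    (hk1 : k ≤ (k1 : ℝ) / 10000)
    (hG : ((e : ℝ) - 1) * UU ⟨u, 0⟩ + ((a0 : ℝ) / 10000 + (a1 : ℝ) / 1000 * u) +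
      (ck : ℝ) / 10000 * k ≤ G) :
    5 / 100 - 17 / 10 * t ≤ V3 ⟨C', k⟩ ⟨42 / 100, m⟩ ⟨1 / 4, t⟩ - V3 ⟨u, 0⟩ ⟨l, 0⟩ ⟨x, 0⟩ + G := by
  have h1 := K3.new3 hn (t := k) (m := m) (k := t) hk0 hk1 (by push_cast; linarith only [hm0])
    (by push_cast; linarith only [hm1]) (by push_cast; linarith only [ht0]) (by push_cast; linarith only [ht1])
  push_cast at h1
  rw [← hC', show (25 : ℝ) / 100 = 1 / 4 by norm_num] at h1
  rw [UU_uu] at hG
  simp only at hG
  have g1 := uu_real_anti1 (a := x) (b := l + x) (by linarith only [hx]) (by linarith only [hu, hul]) hlx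
  have g2 := uu_ge (w := l - u) (by linarith only [hul]) (by linarith only [hx, hu, hlx])
  have g3 := uu_nn (x := x) hx (by linarith only [hu, hul, hlx])
  have g4 := uu_ge (w := l) (by linarith only [hu, hul]) (by linarith only [hx, hlx])
  have h3 := uu_ge hu (by linarith only [hx, hul, hlx])
  have h4 := lin_ge (w := u) hu (by linarith only [hx, hul, hlx]) hc hc1
  have he' : (0 : ℝ) ≤ e := by exact_mod_cast he
  have h5 := mul_le_mul_of_nonneg_left h3 he'
  push_cast at h4
  rw [K3.V3_real]
  linarith only [hG, h1, g1, g2, g3, g4, h5, h4]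

end K5

theorem side_two_ring' {Cc : Cl} {C : Ct} (hC : C.ok Cc) {x w t k G : ℝ}
    (hx : 60 / 100 ≤ x) (hw : 0 ≤ w) (hxw : x + w ≤ 1)
    (t0 : (hbox .two .ring false).t0 ≤ t) (t1 : t ≤ (hbox .two .ring false).t1)
    (k0 : (hbox .two Cc false).t0 ≤ k) (k1 : k ≤ (hbox .two Cc false).t1)
    (hE : EB .two C w (-k) G) :
    gD .two x t ≤ V2 ⟨1 / 4, t⟩ ⟨cN C, k⟩ - V2 ⟨x, 0⟩ ⟨w, 0⟩ + G := by
  simp only [gD]
  split_ifs with h
  swap
  · have h1 := side_two (B := .ring) hC (by simp only [X0]; exact hx) hw hxw t0 t1 k0 k1 hE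
    have e1 : al .two .ring Cc x = 1 / 100 := rfl
    have e2 : be .two .ring = 17 / 10 := rfl
    have e3 : cT .two .ring = 1 / 4 := rfl
    rw [e1, e2, e3] at h1
    linarith only [h1]
  simp only [hbox] at t0 t1
  have hw1 : w ≤ 1 / 20 := by linarith only [hxw, h]
  cases C with
  | one =>
    have hC : Cc = .one := hC
    subst hC
    simp only [hbox] at k0 k1
    simp only [EB] at hE
    simp only [cN]
    rcases hE.1 (by linarith only [hxw, h]) with hE | hE
    · exact K5.two_far (e := 2) (a0 := -300) (a1 := 0)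
        k2n_one_a1_1 (by norm_num) (by norm_num) (by norm_num) (by norm_num) h hw hxw
        (by linarith only [t0]) (by linarith only [t1]) (by norm_num; linarith only [k0]) (by norm_num; linarith only [k1])
        (by norm_num; linarith only [hE])
    · exact K5.two_far (e := 3) (a0 := -2039) (a1 := 1306)
        k2n_one_a2_1 (by norm_num) (by norm_num) (by norm_num) (by norm_num) h hw hxw
        (by linarith only [t0]) (by linarith only [t1]) (by norm_num; linarith only [k0]) (by norm_num; linarith only [k1])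
        (by norm_num; linarith only [hE])
  | two =>
    have hC : Cc = .two := hC
    subst hC
    simp only [hbox] at k0 k1
    simp only [EB] at hE
    simp only [cN]
    exact K5.two_far (e := 3) (a0 := 848) (a1 := -148)
      k2n_two_1 (by norm_num) (by norm_num) (by norm_num) (by norm_num) h hw hxw
      (by linarith only [t0]) (by linarith only [t1]) (by norm_num; linarith only [k0]) (by norm_num; linarith only [k1])
      (by norm_num; linarith only [hE])
  | twoE =>
    have hC : Cc = .twoE := hC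
    subst hC
    simp only [hbox] at k0 k1
    simp only [EB] at hE
    simp only [cN]
    exact K5.two_far (e := 3) (a0 := 1545) (a1 := 0)
      k2n_twoE_1 (by norm_num) (by norm_num) (by norm_num) (by norm_num) h hw hxw
      (by linarith only [t0]) (by linarith only [t1]) (by norm_num; linarith only [k0]) (by norm_num; linarith only [k1])
      (by norm_num; linarith only [hE])
  | threeA =>
    have hC : Cc = .three := hC
    subst hC
    simp only [hbox] at k0 k1
    simp only [EB] at hE
    simp only [cN]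
    have hE := hE.1 (by linarith only [hxw, h])
    exact K5.two_far (e := 3) (a0 := 992) (a1 := -227)
      k2n_threeA_a_1 (by norm_num) (by norm_num) (by norm_num) (by norm_num) h hw hxw
      (by linarith only [t0]) (by linarith only [t1]) (by norm_num; linarith only [k0]) (by norm_num; linarith only [k1])
      (by norm_num; linarith only [hE])
  | threeK =>
    have hC : Cc = .three := hC
    subst hC
    simp only [hbox] at k0 k1
    simp only [EB] at hE
    simp only [cN]
    exact K5.two_far (e := 3) (a0 := 112) (a1 := 97)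
      k2n_threeK_1 (by norm_num) (by norm_num) (by norm_num) (by norm_num) h hw hxw
      (by linarith only [t0]) (by linarith only [t1]) (by norm_num; linarith only [k0]) (by norm_num; linarith only [k1])
      (by norm_num; linarith only [hE])
  | threeE =>
    have hC : Cc = .threeE := hC
    subst hC
    simp only [hbox] at k0 k1
    simp only [EB] at hE
    simp only [cN]
    exact K5.two_far (e := 3) (a0 := 1345) (a1 := 0)
      k2n_threeE_1 (by norm_num) (by norm_num) (by norm_num) (by norm_num) h hw hxw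
      (by linarith only [t0]) (by linarith only [t1]) (by norm_num; linarith only [k0]) (by norm_num; linarith only [k1])
      (by norm_num; linarith only [hE])
  | ring =>
    have hC : Cc = .ring := hC
    subst hC
    simp only [hbox] at k0 k1
    simp only [EB] at hE
    simp only [cN]
    have hE := hE.1 (by linarith only [hxw, h])
    exact K5.two_far (e := 3) (a0 := -536) (a1 := 543)
      k2n_ring_a_1 (by norm_num) (by norm_num) (by norm_num) (by norm_num) h hw hxw
      (by linarith only [t0]) (by linarith only [t1]) (by norm_num; linarith only [k0]) (by norm_num; linarith only [k1])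
      (by norm_num; linarith only [hE])
  | touched =>
    obtain ⟨b0, b1⟩ := k2_box (B := Cc)
    simp only [EB] at hE
    simp only [cN]
    exact K5.two_far (e := 2) (a0 := 0) (a1 := 0)
      k2n_touched_1 (by norm_num) (by norm_num) (by norm_num) (by norm_num) h hw hxw
      (by linarith only [t0]) (by linarith only [t1]) (by norm_num; linarith only [k0, b0]) (by norm_num; linarith only [k1, b1])
      (by norm_num; linarith only [hE])

theorem side_twoE_ring' {x t : ℝ} (hx : 60 / 100 ≤ x) (hx1 : x ≤ 1)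
    (t0 : (hbox .twoE .ring false).t0 ≤ t) (t1 : t ≤ (hbox .twoE .ring false).t1) :
    gD .twoE x t ≤ V2 ⟨1 / 4, t⟩ 0 - V2 ⟨x, 0⟩ 0 := by
  have h1 := side_twoE (B := .ring) (Cc := .one) (by simp only [X0]; exact hx) hx1 t0 t1
  have e1 : al .twoE .ring .one x = 5 / 100 := rfl
  have e2 : be .twoE .ring = 17 / 10 := rfl
  have e3 : cT .twoE .ring = 1 / 4 := rfl
  rw [e1, e2, e3] at h1
  simp only [gD]
  linarith only [h1]

theorem side_three0_ring' {Cc : Cl} {C : Ct} (hC : C.ok Cc) (hC2 : C ≠ .threeK)
    {x l w t m k G : ℝ}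
    (hx : 60 / 100 ≤ x) (hxl : x ≤ l) (hw : 0 ≤ w) (hlw : l + w ≤ 1)
    (t0 : (hbox .three .ring false).t0 ≤ t) (t1 : t ≤ (hbox .three .ring false).t1)
    (k0 : (hbox .three Cc false).t0 ≤ k) (k1 : k ≤ (hbox .three Cc false).t1)
    (m0 : (mw .ring Cc).t0 ≤ m) (m1 : m ≤ (mw .ring Cc).t1)
    (s0 : (mw .ring Cc).s0 ≤ m - t) (s1 : m - t ≤ (mw .ring Cc).s1)
    (hE : EB .three C w (-k) G) :
    gD .three x t ≤ V3 ⟨1 / 4, t⟩ ⟨42 / 100, m⟩ ⟨cN C, k⟩ - V3 ⟨x, 0⟩ ⟨l, 0⟩ ⟨w, 0⟩ + G := by
  simp only [gD]
  split_ifs with h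
  swap
  · have h1 := side_three0 (B := .ring) hC hC2 (by simp only [X0]; exact hx) hxl hw hlw t0 t1 k0 k1
      m0 m1 s0 s1 hE
    have e1 : al .three .ring Cc x = 2 / 100 := rfl
    have e2 : be .three .ring = 17 / 10 := rfl
    have e3 : cT .three .ring = 1 / 4 := rfl
    rw [e1, e2, e3] at h1
    linarith only [h1]
  simp only [hbox] at t0 t1
  have hw1 : w ≤ 1 / 20 := by linarith only [hxl, hlw, h]
  have M0 := K3.lo_mw.1.trans m0
  have M1 := m1.trans K3.lo_mw.2
  clear m0 m1 s0 s1
  cases C with
  | one =>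
    have hC : Cc = .one := hC
    subst hC
    simp only [hbox] at k0 k1
    simp only [EB] at hE
    simp only [cN]
    rcases hE.1 (by linarith only [hxl, hlw, h]) with ⟨hτ, hE⟩ | hE
    · exact K5.three_far0 (e := 2) (a0 := -90) (a1 := 0)
        K3.n_one_a1_0 (by norm_num) (by norm_num) (by norm_num) (by norm_num) h hxl hw hlw
        (by linarith only [t0]) (by linarith only [t1]) M0 M1 (by norm_num; linarith only [hτ]) (by norm_num; linarith only [k1])
        (by norm_num; linarith only [hE])
    · exact K5.three_far0 (e := 3) (a0 := -247) (a1 := 293)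
        K3.n_one_a2_0 (by norm_num) (by norm_num) (by norm_num) (by norm_num) h hxl hw hlw
        (by linarith only [t0]) (by linarith only [t1]) M0 M1 (by norm_num; linarith only [k0]) (by norm_num; linarith only [k1])
        (by norm_num; linarith only [hE])
  | two =>
    have hC : Cc = .two := hC
    subst hC
    simp only [hbox] at k0 k1
    simp only [EB] at hE
    simp only [cN]
    exact K5.three_far0 (e := 3) (a0 := 848) (a1 := -148)
      K3.n_two_0 (by norm_num) (by norm_num) (by norm_num) (by norm_num) h hxl hw hlw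
      (by linarith only [t0]) (by linarith only [t1]) M0 M1 (by norm_num; linarith only [k0]) (by norm_num; linarith only [k1])
      (by norm_num; linarith only [hE])
  | twoE =>
    have hC : Cc = .twoE := hC
    subst hC
    simp only [hbox] at k0 k1
    simp only [EB] at hE
    simp only [cN]
    exact K5.three_far0 (e := 3) (a0 := 1545) (a1 := 0)
      K3.n_twoE_0 (by norm_num) (by norm_num) (by norm_num) (by norm_num) h hxl hw hlw
      (by linarith only [t0]) (by linarith only [t1]) M0 M1 (by norm_num; linarith only [k0]) (by norm_num; linarith only [k1])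
      (by norm_num; linarith only [hE])
  | threeA =>
    have hC : Cc = .three := hC
    subst hC
    simp only [hbox] at k0 k1
    simp only [EB] at hE
    simp only [cN]
    have hE := hE.1 (by linarith only [hxl, hlw, h])
    exact K5.three_far0 (e := 3) (a0 := 992) (a1 := -227)
      K3.n_threeA_a_0 (by norm_num) (by norm_num) (by norm_num) (by norm_num) h hxl hw hlw
      (by linarith only [t0]) (by linarith only [t1]) M0 M1 (by norm_num; linarith only [k0]) (by norm_num; linarith only [k1])
      (by norm_num; linarith only [hE])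
  | threeK => exact absurd rfl hC2
  | threeE =>
    have hC : Cc = .threeE := hC
    subst hC
    simp only [hbox] at k0 k1
    simp only [EB] at hE
    simp only [cN]
    exact K5.three_far0 (e := 3) (a0 := 1345) (a1 := 0)
      K3.n_threeE_0 (by norm_num) (by norm_num) (by norm_num) (by norm_num) h hxl hw hlw
      (by linarith only [t0]) (by linarith only [t1]) M0 M1 (by norm_num; linarith only [k0]) (by norm_num; linarith only [k1])
      (by norm_num; linarith only [hE])
  | ring =>
    have hC : Cc = .ring := hC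
    subst hC
    simp only [hbox] at k0 k1
    simp only [EB] at hE
    simp only [cN]
    have hE := hE.1 (by linarith only [hxl, hlw, h])
    exact K5.three_far0 (e := 3) (a0 := -536) (a1 := 543)
      K3.n_ring_a_0 (by norm_num) (by norm_num) (by norm_num) (by norm_num) h hxl hw hlw
      (by linarith only [t0]) (by linarith only [t1]) M0 M1 (by norm_num; linarith only [k0]) (by norm_num; linarith only [k1])
      (by norm_num; linarith only [hE])
  | touched =>
    obtain ⟨b0, b1⟩ := K3.all_box (B := Cc)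
    simp only [EB] at hE
    simp only [cN]
    exact K5.three_far0 (e := 2) (a0 := 0) (a1 := 0)
      K3.n_touched_0 (by norm_num) (by norm_num) (by norm_num) (by norm_num) h hxl hw hlw
      (by linarith only [t0]) (by linarith only [t1]) M0 M1 (by norm_num; linarith only [k0, b0]) (by norm_num; linarith only [k1, b1])
      (by norm_num; linarith only [hE])

theorem side_three2_ring' {Cc : Cl} {C : Ct} (hC : C.ok Cc) (hC2 : C ≠ .threeA)
    {x l u t m k G : ℝ}
    (hx : 60 / 100 ≤ x) (hu : 0 ≤ u) (hul : u ≤ l) (hlx : l + x ≤ 1)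
    (t0 : (hbox .three .ring false).t0 ≤ t) (t1 : t ≤ (hbox .three .ring false).t1)
    (k0 : (hbox .three Cc false).t0 ≤ k) (k1 : k ≤ (hbox .three Cc false).t1)
    (m0 : (mw Cc .ring).t0 ≤ m) (m1 : m ≤ (mw Cc .ring).t1)
    (s0 : (mw Cc .ring).s0 ≤ m - k) (s1 : m - k ≤ (mw Cc .ring).s1)
    (hE : EB .three C u (-k) G) :
    gD .three x t ≤ V3 ⟨cN C, k⟩ ⟨42 / 100, m⟩ ⟨1 / 4, t⟩ - V3 ⟨u, 0⟩ ⟨l, 0⟩ ⟨x, 0⟩ + G := by
  simp only [gD]
  split_ifs with h
  swap
  · have h1 := side_three2 (B := .ring) hC hC2 (by simp only [X0]; exact hx) hu hul hlx t0 t1 k0 k1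
      m0 m1 s0 s1 hE
    have e1 : al .three .ring Cc x = 2 / 100 := rfl
    have e2 : be .three .ring = 17 / 10 := rfl
    have e3 : cT .three .ring = 1 / 4 := rfl
    rw [e1, e2, e3] at h1
    linarith only [h1]
  simp only [hbox] at t0 t1
  have hw1 : u ≤ 1 / 20 := by linarith only [hul, hlx, h]
  have M0 := K3.lo_mw.1.trans m0
  have M1 := m1.trans K3.lo_mw.2
  clear m0 m1 s0 s1
  cases C with
  | one =>
    have hC : Cc = .one := hC
    subst hC
    simp only [hbox] at k0 k1
    simp only [EB] at hE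
    simp only [cN]
    rcases hE.1 (by linarith only [hul, hlx, h]) with ⟨hτ, hE⟩ | hE
    · exact K5.three_far2 (e := 1) (a0 := -90) (a1 := 0)
        K3.n_one_a1_2 (by norm_num) (by norm_num) (by norm_num) (by norm_num) h hu hul hlx
        (by linarith only [t0]) (by linarith only [t1]) M0 M1 (by norm_num; linarith only [hτ]) (by norm_num; linarith only [k1])
        (by norm_num; linarith only [hE])
    · exact K5.three_far2 (e := 2) (a0 := -247) (a1 := 293)
        K3.n_one_a2_2 (by norm_num) (by norm_num) (by norm_num) (by norm_num) h hu hul hlx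
        (by linarith only [t0]) (by linarith only [t1]) M0 M1 (by norm_num; linarith only [k0]) (by norm_num; linarith only [k1])
        (by norm_num; linarith only [hE])
  | two =>
    have hC : Cc = .two := hC
    subst hC
    simp only [hbox] at k0 k1
    simp only [EB] at hE
    simp only [cN]
    exact K5.three_far2 (e := 2) (a0 := 848) (a1 := -148)
      K3.n_two_2 (by norm_num) (by norm_num) (by norm_num) (by norm_num) h hu hul hlx
      (by linarith only [t0]) (by linarith only [t1]) M0 M1 (by norm_num; linarith only [k0]) (by norm_num; linarith only [k1])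
      (by norm_num; linarith only [hE])
  | twoE =>
    have hC : Cc = .twoE := hC
    subst hC
    simp only [hbox] at k0 k1
    simp only [EB] at hE
    simp only [cN]
    exact K5.three_far2 (e := 2) (a0 := 1545) (a1 := 0)
      K3.n_twoE_2 (by norm_num) (by norm_num) (by norm_num) (by norm_num) h hu hul hlx
      (by linarith only [t0]) (by linarith only [t1]) M0 M1 (by norm_num; linarith only [k0]) (by norm_num; linarith only [k1])
      (by norm_num; linarith only [hE])
  | threeA => exact absurd rfl hC2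
  | threeK =>
    have hC : Cc = .three := hC
    subst hC
    simp only [hbox] at k0 k1
    simp only [EB] at hE
    simp only [cN]
    exact K5.three_far2 (e := 2) (a0 := 112) (a1 := 97)
      K3.n_threeK_2 (by norm_num) (by norm_num) (by norm_num) (by norm_num) h hu hul hlx
      (by linarith only [t0]) (by linarith only [t1]) M0 M1 (by norm_num; linarith only [k0]) (by norm_num; linarith only [k1])
      (by norm_num; linarith only [hE])
  | threeE =>
    have hC : Cc = .threeE := hC
    subst hC
    simp only [hbox] at k0 k1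
    simp only [EB] at hE
    simp only [cN]
    exact K5.three_far2 (e := 2) (a0 := 1345) (a1 := 0)
      K3.n_threeE_2 (by norm_num) (by norm_num) (by norm_num) (by norm_num) h hu hul hlx
      (by linarith only [t0]) (by linarith only [t1]) M0 M1 (by norm_num; linarith only [k0]) (by norm_num; linarith only [k1])
      (by norm_num; linarith only [hE])
  | ring =>
    have hC : Cc = .ring := hC
    subst hC
    simp only [hbox] at k0 k1
    simp only [EB] at hE
    simp only [cN]
    have hE := hE.1 (by linarith only [hul, hlx, h])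
    exact K5.three_far2 (e := 2) (a0 := -536) (a1 := 543)
      K3.n_ring_a_2 (by norm_num) (by norm_num) (by norm_num) (by norm_num) h hu hul hlx
      (by linarith only [t0]) (by linarith only [t1]) M0 M1 (by norm_num; linarith only [k0]) (by norm_num; linarith only [k1])
      (by norm_num; linarith only [hE])
  | touched =>
    obtain ⟨b0, b1⟩ := K3.all_box (B := Cc)
    simp only [EB] at hE
    simp only [cN]
    exact K5.three_far2 (e := 1) (a0 := 0) (a1 := 0)
      K3.n_touched_2 (by norm_num) (by norm_num) (by norm_num) (by norm_num) h hu hul hlx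
      (by linarith only [t0]) (by linarith only [t1]) M0 M1 (by norm_num; linarith only [k0, b0]) (by norm_num; linarith only [k1, b1])
      (by norm_num; linarith only [hE])

theorem side_threeE_ring' {x l t m : ℝ} (hx : 60 / 100 ≤ x) (hxl : x ≤ l) (hl1 : l ≤ 1)
    (t0 : (hbox .threeE .ring false).t0 ≤ t) (t1 : t ≤ (hbox .threeE .ring false).t1)
    (m0 : -(45 / 1000) ≤ m) (m1 : m ≤ 59 / 1000) :
    gD .threeE x t ≤ V3 ⟨1 / 4, t⟩ ⟨1 / 4 + 1 / 6, m⟩ 0 - V3 ⟨x, 0⟩ ⟨l, 0⟩ 0 := by
  have h1 := side_threeE (B := .ring) (Cc := .one) (by simp only [X0]; exact hx) hxl hl1 t0 t1 m0 m1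
  have e1 : al .threeE .ring .one x = 15 / 100 := rfl
  have e2 : be .threeE .ring = 17 / 10 := rfl
  have e3 : cT .threeE .ring = 1 / 4 := rfl
  rw [e1, e2, e3] at h1
  simp only [gD]
  linarith only [h1]

end TL

end Pool.Agent.Work.MP_b30479_gt.G2
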