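import Pool.Agent.Work.NumU.Tree

/-!
# Tails: side of a digit `1` next to a ring, `x >= 95/100`: rows
-/

set_option linter.unusedSimpArgs false
set_option linter.unusedVariables false

namespace Pool.Agent.Work.MP_b30479_gt.G2

open VOL NumU

namespace TL.K5

open NumU.E 

def QR.t : E := var 0
def QR.k : E := var 1
def QR.w : E := var 0

theorem f5_one_0 {t k : ℝ} (_ : 380 / 10000 ≤ t) (_ : t ≤ 1360 / 10000) (_ : -(800 / 10000) ≤ k) (_ : k ≤ 510 / 10000) (_ : t + k ≤ 143 / 1000) (_ : -1 / 100 ≤ t + k) :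
    9 / 100 < Real.pi * (1 / 4 * k + t * (9 / 50) - t - k) + uu (43 / 100) (t + k) - uu (1 / 4) t - uu (9 / 50) k + 17 / 10 * t + 3927 / 1250 * k := by
  have h : chkT [sub (add (add (sub (sub (add (mul pi (sub (sub (add (mul (q 1 4) QR.k) (mul QR.t (q 9 50))) QR.t) QR.k)) (E.uu (q 43 100) (add QR.t QR.k))) (E.uu (q 1 4) QR.t)) (E.uu (q 9 50) QR.k)) (mul (q 17 10) QR.t)) (mul (q 3927 1250) QR.k)) (q 9 100), sub (add QR.t QR.k) (q 143 1000), sub (q (-1) 100) (add QR.t QR.k)] 30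
    2177
    [NumI.V.of 10000 380 1360, NumI.V.of 10000 (-800) 510] = true := by
    decide +kernel
  obtain ⟨f, hf, hp⟩ := chkT2 h (by norm_num) (x := t) (y := k)
    (by norm_num; linarith) (by norm_num; linarith) (by norm_num; linarith) (by norm_num; linarith)
  by_contra hc
  push Not at hc
  simp only [List.mem_cons, List.not_mem_nil, or_false] at hf
  rcases hf with rfl | rfl | rfl
  · simp only [E.val, NumI.lkR, QR.t, QR.k, QR.w] at hp
    push_cast at hp
    linarith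
  · simp only [E.val, NumI.lkR, QR.t, QR.k, QR.w] at hp
    push_cast at hp
    linarith
  · simp only [E.val, NumI.lkR, QR.t, QR.k, QR.w] at hp
    push_cast at hp
    linarith

theorem f5_one_1 {t k : ℝ} (_ : 380 / 10000 ≤ t) (_ : t ≤ 1360 / 10000) (_ : -(800 / 10000) ≤ k) (_ : k ≤ 510 / 10000) (_ : t + k ≤ 143 / 1000) (_ : -1 / 100 ≤ t + k) :
    73 / 500 < Real.pi * (1 / 4 * k + t * (9 / 50) - t - k) + uu (43 / 100) (t + k) - uu (1 / 4) t - uu (9 / 50) k + 17 / 10 * t + 821 / 500 * k := by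
  have h : chkT [sub (add (add (sub (sub (add (mul pi (sub (sub (add (mul (q 1 4) QR.k) (mul QR.t (q 9 50))) QR.t) QR.k)) (E.uu (q 43 100) (add QR.t QR.k))) (E.uu (q 1 4) QR.t)) (E.uu (q 9 50) QR.k)) (mul (q 17 10) QR.t)) (mul (q 821 500) QR.k)) (q 73 500), sub (add QR.t QR.k) (q 143 1000), sub (q (-1) 100) (add QR.t QR.k)] 30
    14030381439658795469145229620471241020517724029057
    [NumI.V.of 10000 380 1360, NumI.V.of 10000 (-800) 510] = true := by
    decide +kernel
  obtain ⟨f, hf, hp⟩ := chkT2 h (by norm_num) (x := t) (y := k)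
    (by norm_num; linarith) (by norm_num; linarith) (by norm_num; linarith) (by norm_num; linarith)
  by_contra hc
  push Not at hc
  simp only [List.mem_cons, List.not_mem_nil, or_false] at hf
  rcases hf with rfl | rfl | rfl
  · simp only [E.val, NumI.lkR, QR.t, QR.k, QR.w] at hp
    push_cast at hp
    linarith
  · simp only [E.val, NumI.lkR, QR.t, QR.k, QR.w] at hp
    push_cast at hp
    linarith
  · simp only [E.val, NumI.lkR, QR.t, QR.k, QR.w] at hp
    push_cast at hp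
    linarith

theorem f5_two_0 {t k : ℝ} (_ : 630 / 10000 ≤ t) (_ : t ≤ 1450 / 10000) (_ : -(80 / 10000) ≤ k) (_ : k ≤ 800 / 10000) (_ : t + k ≤ 187 / 1000) (_ : 47 / 500 ≤ t + k) :
    61 / 500 < Real.pi * (1 / 4 * k + t * (1 / 4) - t - k) + uu (1 / 2) (t + k) - uu (1 / 4) t - uu (1 / 4) k + 17 / 10 * t + 1571 / 1000 * k := by
  have h : chkT [sub (add (add (sub (sub (add (mul pi (sub (sub (add (mul (q 1 4) QR.k) (mul QR.t (q 1 4))) QR.t) QR.k)) (E.uu (q 1 2) (add QR.t QR.k))) (E.uu (q 1 4) QR.t)) (E.uu (q 1 4) QR.k)) (mul (q 17 10) QR.t)) (mul (q 1571 1000) QR.k)) (q 61 500), sub (add QR.t QR.k) (q 187 1000), sub (q 47 500) (add QR.t QR.k)] 30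
    8
    [NumI.V.of 10000 630 1450, NumI.V.of 10000 (-80) 800] = true := by
    decide +kernel
  obtain ⟨f, hf, hp⟩ := chkT2 h (by norm_num) (x := t) (y := k)
    (by norm_num; linarith) (by norm_num; linarith) (by norm_num; linarith) (by norm_num; linarith)
  by_contra hc
  push Not at hc
  simp only [List.mem_cons, List.not_mem_nil, or_false] at hf
  rcases hf with rfl | rfl | rfl
  · simp only [E.val, NumI.lkR, QR.t, QR.k, QR.w] at hp
    push_cast at hp
    linarith
  · simp only [E.val, NumI.lkR, QR.t, QR.k, QR.w] at hp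
    push_cast at hp
    linarith
  · simp only [E.val, NumI.lkR, QR.t, QR.k, QR.w] at hp
    push_cast at hp
    linarith

theorem f5_twoE_0 {t k : ℝ} (_ : 1000 / 10000 ≤ t) (_ : t ≤ 1580 / 10000) (_ : -(610 / 10000) ≤ k) (_ : k ≤ -(240 / 10000)) (_ : t + k ≤ 53 / 500) (_ : 8 / 125 ≤ t + k) :
    93 / 1000 < Real.pi * (1 / 4 * k + t * (11 / 50) - t - k) + uu (47 / 100) (t + k) - uu (1 / 4) t - uu (11 / 50) k + 17 / 10 * t + 1131 / 500 * k := by
  have h : chkT [sub (add (add (sub (sub (add (mul pi (sub (sub (add (mul (q 1 4) QR.k) (mul QR.t (q 11 50))) QR.t) QR.k)) (E.uu (q 47 100) (add QR.t QR.k))) (E.uu (q 1 4) QR.t)) (E.uu (q 11 50) QR.k)) (mul (q 17 10) QR.t)) (mul (q 1131 500) QR.k)) (q 93 1000), sub (add QR.t QR.k) (q 53 500), sub (q 8 125) (add QR.t QR.k)] 30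
    8
    [NumI.V.of 10000 1000 1580, NumI.V.of 10000 (-610) (-240)] = true := by
    decide +kernel
  obtain ⟨f, hf, hp⟩ := chkT2 h (by norm_num) (x := t) (y := k)
    (by norm_num; linarith) (by norm_num; linarith) (by norm_num; linarith) (by norm_num; linarith)
  by_contra hc
  push Not at hc
  simp only [List.mem_cons, List.not_mem_nil, or_false] at hf
  rcases hf with rfl | rfl | rfl
  · simp only [E.val, NumI.lkR, QR.t, QR.k, QR.w] at hp
    push_cast at hp
    linarith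
  · simp only [E.val, NumI.lkR, QR.t, QR.k, QR.w] at hp
    push_cast at hp
    linarith
  · simp only [E.val, NumI.lkR, QR.t, QR.k, QR.w] at hp
    push_cast at hp
    linarith

theorem f5_touched_0 {t k : ℝ} (_ : 380 / 10000 ≤ t) (_ : t ≤ 1580 / 10000) (_ : -(1170 / 10000) ≤ k) (_ : k ≤ 800 / 10000) :
    111 / 1000 < Real.pi * (1 / 4 * k + t * (1 / 5) - t - k) + uu (9 / 20) (t + k) - uu (1 / 4) t - uu (1 / 5) k + 17 / 10 * t + 59 / 25 * k := by
  have h : chkT [sub (add (add (sub (sub (add (mul pi (sub (sub (add (mul (q 1 4) QR.k) (mul QR.t (q 1 5))) QR.t) QR.k)) (E.uu (q 9 20) (add QR.t QR.k))) (E.uu (q 1 4) QR.t)) (E.uu (q 1 5) QR.k)) (mul (q 17 10) QR.t)) (mul (q 59 25) QR.k)) (q 111 1000)] 30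
    8
    [NumI.V.of 10000 380 1580, NumI.V.of 10000 (-1170) 800] = true := by
    decide +kernel
  obtain ⟨f, hf, hp⟩ := chkT2 h (by norm_num) (x := t) (y := k)
    (by norm_num; linarith) (by norm_num; linarith) (by norm_num; linarith) (by norm_num; linarith)
  by_contra hc
  push Not at hc
  simp only [List.mem_cons, List.not_mem_nil, or_false] at hf
  rcases hf with rfl
  · simp only [E.val, NumI.lkR, QR.t, QR.k, QR.w] at hp
    push_cast at hp
    linarith

theorem r5_one_0_0 {w : ℝ} (_ : 0 / 10000 ≤ w) (_ : w ≤ 100 / 10000) :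
    -(9 / 100) < 0 * uu (1 / 100) 0 + (-11 / 1000) + (0 / 1) * w - (uu (19 / 20 + w) 0 - uu (19 / 20) 0 - uu (1 / 100) 0) - (3 / 200) := by
  have h : chkT [add (sub (sub (add (add (mul (q 0 1) (E.uu (q 1 100) (q 0 1))) (q (-11) 1000)) (mul (q 0 1) QR.w)) (sub (sub (E.uu (add (q 19 20) QR.w) (q 0 1)) (E.uu (q 19 20) (q 0 1))) (E.uu (q 1 100) (q 0 1)))) (q 3 200)) (q 9 100)] 30
    8
    [NumI.V.of 10000 0 100] = true := by
    decide +kernel
  obtain ⟨f, hf, hp⟩ := chkT_sound h (xs := [w])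
    (List.Forall₂.cons (NumI.V.of_mem (by norm_num) (by norm_num; linarith) (by norm_num; linarith)) List.Forall₂.nil)
  by_contra hc
  push Not at hc
  simp only [List.mem_cons, List.not_mem_nil, or_false] at hf
  rcases hf with rfl
  · simp only [E.val, NumI.lkR, QR.t, QR.k, QR.w] at hp
    push_cast at hp
    linarith

theorem r5_one_0_1 {w : ℝ} (_ : 100 / 10000 ≤ w) (_ : w ≤ 400 / 10000) :
    -(9 / 100) < 0 * uu w 0 + (-11 / 1000) + (0 / 1) * w - (uu (19 / 20 + w) 0 - uu (19 / 20) 0 - uu w 0) - (3 / 200) := by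
  have h : chkT [add (sub (sub (add (add (mul (q 0 1) (E.uu QR.w (q 0 1))) (q (-11) 1000)) (mul (q 0 1) QR.w)) (sub (sub (E.uu (add (q 19 20) QR.w) (q 0 1)) (E.uu (q 19 20) (q 0 1))) (E.uu QR.w (q 0 1)))) (q 3 200)) (q 9 100)] 30
    2176
    [NumI.V.of 10000 100 400] = true := by
    decide +kernel
  obtain ⟨f, hf, hp⟩ := chkT_sound h (xs := [w])
    (List.Forall₂.cons (NumI.V.of_mem (by norm_num) (by norm_num; linarith) (by norm_num; linarith)) List.Forall₂.nil)
  by_contra hc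
  push Not at hc
  simp only [List.mem_cons, List.not_mem_nil, or_false] at hf
  rcases hf with rfl
  · simp only [E.val, NumI.lkR, QR.t, QR.k, QR.w] at hp
    push_cast at hp
    linarith

theorem r5_one_0_2 {w : ℝ} (_ : 400 / 10000 ≤ w) (_ : w ≤ 500 / 10000) :
    -(9 / 100) < 0 * uu w 0 + (-11 / 1000) + (0 / 1) * w - (uu (99 / 100) 0 - uu (19 / 20) 0 - uu w 0) - (3 / 200) := by
  have h : chkT [add (sub (sub (add (add (mul (q 0 1) (E.uu QR.w (q 0 1))) (q (-11) 1000)) (mul (q 0 1) QR.w)) (sub (sub (E.uu (q 99 100) (q 0 1)) (E.uu (q 19 20) (q 0 1))) (E.uu QR.w (q 0 1)))) (q 3 200)) (q 9 100)] 30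
    8
    [NumI.V.of 10000 400 500] = true := by
    decide +kernel
  obtain ⟨f, hf, hp⟩ := chkT_sound h (xs := [w])
    (List.Forall₂.cons (NumI.V.of_mem (by norm_num) (by norm_num; linarith) (by norm_num; linarith)) List.Forall₂.nil)
  by_contra hc
  push Not at hc
  simp only [List.mem_cons, List.not_mem_nil, or_false] at hf
  rcases hf with rfl
  · simp only [E.val, NumI.lkR, QR.t, QR.k, QR.w] at hp
    push_cast at hp
    linarith

theorem r5_one_1_0 {w : ℝ} (_ : 0 / 10000 ≤ w) (_ : w ≤ 100 / 10000) :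
    -(73 / 500) < 1 * uu (1 / 100) 0 + (-163 / 5000) + (779 / 1000) * w - (uu (19 / 20 + w) 0 - uu (19 / 20) 0 - uu (1 / 100) 0) - (3 / 200) := by
  have h : chkT [add (sub (sub (add (add (mul (q 1 1) (E.uu (q 1 100) (q 0 1))) (q (-163) 5000)) (mul (q 779 1000) QR.w)) (sub (sub (E.uu (add (q 19 20) QR.w) (q 0 1)) (E.uu (q 19 20) (q 0 1))) (E.uu (q 1 100) (q 0 1)))) (q 3 200)) (q 73 500)] 30
    8
    [NumI.V.of 10000 0 100] = true := by
    decide +kernel
  obtain ⟨f, hf, hp⟩ := chkT_sound h (xs := [w])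
    (List.Forall₂.cons (NumI.V.of_mem (by norm_num) (by norm_num; linarith) (by norm_num; linarith)) List.Forall₂.nil)
  by_contra hc
  push Not at hc
  simp only [List.mem_cons, List.not_mem_nil, or_false] at hf
  rcases hf with rfl
  · simp only [E.val, NumI.lkR, QR.t, QR.k, QR.w] at hp
    push_cast at hp
    linarith

theorem r5_one_1_1 {w : ℝ} (_ : 100 / 10000 ≤ w) (_ : w ≤ 475 / 10000) :
    -(73 / 500) < 1 * uu w 0 + (-163 / 5000) + (779 / 1000) * w - (uu (19 / 20 + w) 0 - uu (19 / 20) 0 - uu w 0) - (3 / 200) := by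
  have h : chkT [add (sub (sub (add (add (mul (q 1 1) (E.uu QR.w (q 0 1))) (q (-163) 5000)) (mul (q 779 1000) QR.w)) (sub (sub (E.uu (add (q 19 20) QR.w) (q 0 1)) (E.uu (q 19 20) (q 0 1))) (E.uu QR.w (q 0 1)))) (q 3 200)) (q 73 500)] 30
    36515645440
    [NumI.V.of 10000 100 475] = true := by
    decide +kernel
  obtain ⟨f, hf, hp⟩ := chkT_sound h (xs := [w])
    (List.Forall₂.cons (NumI.V.of_mem (by norm_num) (by norm_num; linarith) (by norm_num; linarith)) List.Forall₂.nil)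
  by_contra hc
  push Not at hc
  simp only [List.mem_cons, List.not_mem_nil, or_false] at hf
  rcases hf with rfl
  · simp only [E.val, NumI.lkR, QR.t, QR.k, QR.w] at hp
    push_cast at hp
    linarith

theorem r5_one_1_2 {w : ℝ} (_ : 475 / 10000 ≤ w) (_ : w ≤ 500 / 10000) :
    -(73 / 500) < 1 * uu w 0 + (-163 / 5000) + (779 / 1000) * w - (uu (399 / 400) 0 - uu (19 / 20) 0 - uu w 0) - (3 / 200) := by
  have h : chkT [add (sub (sub (add (add (mul (q 1 1) (E.uu QR.w (q 0 1))) (q (-163) 5000)) (mul (q 779 1000) QR.w)) (sub (sub (E.uu (q 399 400) (q 0 1)) (E.uu (q 19 20) (q 0 1))) (E.uu QR.w (q 0 1)))) (q 3 200)) (q 73 500)] 30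
    8
    [NumI.V.of 10000 475 500] = true := by
    decide +kernel
  obtain ⟨f, hf, hp⟩ := chkT_sound h (xs := [w])
    (List.Forall₂.cons (NumI.V.of_mem (by norm_num) (by norm_num; linarith) (by norm_num; linarith)) List.Forall₂.nil)
  by_contra hc
  push Not at hc
  simp only [List.mem_cons, List.not_mem_nil, or_false] at hf
  rcases hf with rfl
  · simp only [E.val, NumI.lkR, QR.t, QR.k, QR.w] at hp
    push_cast at hp
    linarith

theorem r5_two_0_0 {w : ℝ} (_ : 0 / 10000 ≤ w) (_ : w ≤ 100 / 10000) :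
    -(61 / 500) < 1 * uu (1 / 100) 0 + (53 / 625) + (-37 / 250) * w - (uu (19 / 20 + w) 0 - uu (19 / 20) 0 - uu (1 / 100) 0) - (3 / 200) := by
  have h : chkT [add (sub (sub (add (add (mul (q 1 1) (E.uu (q 1 100) (q 0 1))) (q 53 625)) (mul (q (-37) 250) QR.w)) (sub (sub (E.uu (add (q 19 20) QR.w) (q 0 1)) (E.uu (q 19 20) (q 0 1))) (E.uu (q 1 100) (q 0 1)))) (q 3 200)) (q 61 500)] 30
    8
    [NumI.V.of 10000 0 100] = true := by
    decide +kernel
  obtain ⟨f, hf, hp⟩ := chkT_sound h (xs := [w])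
    (List.Forall₂.cons (NumI.V.of_mem (by norm_num) (by norm_num; linarith) (by norm_num; linarith)) List.Forall₂.nil)
  by_contra hc
  push Not at hc
  simp only [List.mem_cons, List.not_mem_nil, or_false] at hf
  rcases hf with rfl
  · simp only [E.val, NumI.lkR, QR.t, QR.k, QR.w] at hp
    push_cast at hp
    linarith

theorem r5_two_0_1 {w : ℝ} (_ : 100 / 10000 ≤ w) (_ : w ≤ 400 / 10000) :
    -(61 / 500) < 1 * uu w 0 + (53 / 625) + (-37 / 250) * w - (uu (19 / 20 + w) 0 - uu (19 / 20) 0 - uu w 0) - (3 / 200) := by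
  have h : chkT [add (sub (sub (add (add (mul (q 1 1) (E.uu QR.w (q 0 1))) (q 53 625)) (mul (q (-37) 250) QR.w)) (sub (sub (E.uu (add (q 19 20) QR.w) (q 0 1)) (E.uu (q 19 20) (q 0 1))) (E.uu QR.w (q 0 1)))) (q 3 200)) (q 61 500)] 30
    2176
    [NumI.V.of 10000 100 400] = true := by
    decide +kernel
  obtain ⟨f, hf, hp⟩ := chkT_sound h (xs := [w])
    (List.Forall₂.cons (NumI.V.of_mem (by norm_num) (by norm_num; linarith) (by norm_num; linarith)) List.Forall₂.nil)
  by_contra hc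
  push Not at hc
  simp only [List.mem_cons, List.not_mem_nil, or_false] at hf
  rcases hf with rfl
  · simp only [E.val, NumI.lkR, QR.t, QR.k, QR.w] at hp
    push_cast at hp
    linarith

theorem r5_two_0_2 {w : ℝ} (_ : 400 / 10000 ≤ w) (_ : w ≤ 500 / 10000) :
    -(61 / 500) < 1 * uu w 0 + (53 / 625) + (-37 / 250) * w - (uu (99 / 100) 0 - uu (19 / 20) 0 - uu w 0) - (3 / 200) := by
  have h : chkT [add (sub (sub (add (add (mul (q 1 1) (E.uu QR.w (q 0 1))) (q 53 625)) (mul (q (-37) 250) QR.w)) (sub (sub (E.uu (q 99 100) (q 0 1)) (E.uu (q 19 20) (q 0 1))) (E.uu QR.w (q 0 1)))) (q 3 200)) (q 61 500)] 30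
    8
    [NumI.V.of 10000 400 500] = true := by
    decide +kernel
  obtain ⟨f, hf, hp⟩ := chkT_sound h (xs := [w])
    (List.Forall₂.cons (NumI.V.of_mem (by norm_num) (by norm_num; linarith) (by norm_num; linarith)) List.Forall₂.nil)
  by_contra hc
  push Not at hc
  simp only [List.mem_cons, List.not_mem_nil, or_false] at hf
  rcases hf with rfl
  · simp only [E.val, NumI.lkR, QR.t, QR.k, QR.w] at hp
    push_cast at hp
    linarith

theorem r5_twoE_0_0 {w : ℝ} (_ : 0 / 10000 ≤ w) (_ : w ≤ 100 / 10000) :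
    -(93 / 1000) < 1 * uu (1 / 100) 0 + (309 / 2000) + (0 / 1) * w - (uu (19 / 20 + w) 0 - uu (19 / 20) 0 - uu (1 / 100) 0) - (3 / 200) := by
  have h : chkT [add (sub (sub (add (add (mul (q 1 1) (E.uu (q 1 100) (q 0 1))) (q 309 2000)) (mul (q 0 1) QR.w)) (sub (sub (E.uu (add (q 19 20) QR.w) (q 0 1)) (E.uu (q 19 20) (q 0 1))) (E.uu (q 1 100) (q 0 1)))) (q 3 200)) (q 93 1000)] 30
    8
    [NumI.V.of 10000 0 100] = true := by
    decide +kernel
  obtain ⟨f, hf, hp⟩ := chkT_sound h (xs := [w])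
    (List.Forall₂.cons (NumI.V.of_mem (by norm_num) (by norm_num; linarith) (by norm_num; linarith)) List.Forall₂.nil)
  by_contra hc
  push Not at hc
  simp only [List.mem_cons, List.not_mem_nil, or_false] at hf
  rcases hf with rfl
  · simp only [E.val, NumI.lkR, QR.t, QR.k, QR.w] at hp
    push_cast at hp
    linarith

theorem r5_twoE_0_1 {w : ℝ} (_ : 100 / 10000 ≤ w) (_ : w ≤ 400 / 10000) :
    -(93 / 1000) < 1 * uu w 0 + (309 / 2000) + (0 / 1) * w - (uu (19 / 20 + w) 0 - uu (19 / 20) 0 - uu w 0) - (3 / 200) := by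
  have h : chkT [add (sub (sub (add (add (mul (q 1 1) (E.uu QR.w (q 0 1))) (q 309 2000)) (mul (q 0 1) QR.w)) (sub (sub (E.uu (add (q 19 20) QR.w) (q 0 1)) (E.uu (q 19 20) (q 0 1))) (E.uu QR.w (q 0 1)))) (q 3 200)) (q 93 1000)] 30
    8
    [NumI.V.of 10000 100 400] = true := by
    decide +kernel
  obtain ⟨f, hf, hp⟩ := chkT_sound h (xs := [w])
    (List.Forall₂.cons (NumI.V.of_mem (by norm_num) (by norm_num; linarith) (by norm_num; linarith)) List.Forall₂.nil)
  by_contra hc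
  push Not at hc
  simp only [List.mem_cons, List.not_mem_nil, or_false] at hf
  rcases hf with rfl
  · simp only [E.val, NumI.lkR, QR.t, QR.k, QR.w] at hp
    push_cast at hp
    linarith

theorem r5_twoE_0_2 {w : ℝ} (_ : 400 / 10000 ≤ w) (_ : w ≤ 500 / 10000) :
    -(93 / 1000) < 1 * uu w 0 + (309 / 2000) + (0 / 1) * w - (uu (99 / 100) 0 - uu (19 / 20) 0 - uu w 0) - (3 / 200) := by
  have h : chkT [add (sub (sub (add (add (mul (q 1 1) (E.uu QR.w (q 0 1))) (q 309 2000)) (mul (q 0 1) QR.w)) (sub (sub (E.uu (q 99 100) (q 0 1)) (E.uu (q 19 20) (q 0 1))) (E.uu QR.w (q 0 1)))) (q 3 200)) (q 93 1000)] 30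
    8
    [NumI.V.of 10000 400 500] = true := by
    decide +kernel
  obtain ⟨f, hf, hp⟩ := chkT_sound h (xs := [w])
    (List.Forall₂.cons (NumI.V.of_mem (by norm_num) (by norm_num; linarith) (by norm_num; linarith)) List.Forall₂.nil)
  by_contra hc
  push Not at hc
  simp only [List.mem_cons, List.not_mem_nil, or_false] at hf
  rcases hf with rfl
  · simp only [E.val, NumI.lkR, QR.t, QR.k, QR.w] at hp
    push_cast at hp
    linarith

theorem r5_touched_0_0 {w : ℝ} (_ : 0 / 10000 ≤ w) (_ : w ≤ 100 / 10000) :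
    -(111 / 1000) < 0 * uu (1 / 100) 0 + (0 / 1) + (0 / 1) * w - (uu (19 / 20 + w) 0 - uu (19 / 20) 0 - uu (1 / 100) 0) - (3 / 200) := by
  have h : chkT [add (sub (sub (add (add (mul (q 0 1) (E.uu (q 1 100) (q 0 1))) (q 0 1)) (mul (q 0 1) QR.w)) (sub (sub (E.uu (add (q 19 20) QR.w) (q 0 1)) (E.uu (q 19 20) (q 0 1))) (E.uu (q 1 100) (q 0 1)))) (q 3 200)) (q 111 1000)] 30
    8
    [NumI.V.of 10000 0 100] = true := by
    decide +kernel
  obtain ⟨f, hf, hp⟩ := chkT_sound h (xs := [w])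
    (List.Forall₂.cons (NumI.V.of_mem (by norm_num) (by norm_num; linarith) (by norm_num; linarith)) List.Forall₂.nil)
  by_contra hc
  push Not at hc
  simp only [List.mem_cons, List.not_mem_nil, or_false] at hf
  rcases hf with rfl
  · simp only [E.val, NumI.lkR, QR.t, QR.k, QR.w] at hp
    push_cast at hp
    linarith

theorem r5_touched_0_1 {w : ℝ} (_ : 100 / 10000 ≤ w) (_ : w ≤ 400 / 10000) :
    -(111 / 1000) < 0 * uu w 0 + (0 / 1) + (0 / 1) * w - (uu (19 / 20 + w) 0 - uu (19 / 20) 0 - uu w 0) - (3 / 200) := by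
  have h : chkT [add (sub (sub (add (add (mul (q 0 1) (E.uu QR.w (q 0 1))) (q 0 1)) (mul (q 0 1) QR.w)) (sub (sub (E.uu (add (q 19 20) QR.w) (q 0 1)) (E.uu (q 19 20) (q 0 1))) (E.uu QR.w (q 0 1)))) (q 3 200)) (q 111 1000)] 30
    8
    [NumI.V.of 10000 100 400] = true := by
    decide +kernel
  obtain ⟨f, hf, hp⟩ := chkT_sound h (xs := [w])
    (List.Forall₂.cons (NumI.V.of_mem (by norm_num) (by norm_num; linarith) (by norm_num; linarith)) List.Forall₂.nil)
  by_contra hc
  push Not at hc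
  simp only [List.mem_cons, List.not_mem_nil, or_false] at hf
  rcases hf with rfl
  · simp only [E.val, NumI.lkR, QR.t, QR.k, QR.w] at hp
    push_cast at hp
    linarith

theorem r5_touched_0_2 {w : ℝ} (_ : 400 / 10000 ≤ w) (_ : w ≤ 500 / 10000) :
    -(111 / 1000) < 0 * uu w 0 + (0 / 1) + (0 / 1) * w - (uu (99 / 100) 0 - uu (19 / 20) 0 - uu w 0) - (3 / 200) := by
  have h : chkT [add (sub (sub (add (add (mul (q 0 1) (E.uu QR.w (q 0 1))) (q 0 1)) (mul (q 0 1) QR.w)) (sub (sub (E.uu (q 99 100) (q 0 1)) (E.uu (q 19 20) (q 0 1))) (E.uu QR.w (q 0 1)))) (q 3 200)) (q 111 1000)] 30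
    8
    [NumI.V.of 10000 400 500] = true := by
    decide +kernel
  obtain ⟨f, hf, hp⟩ := chkT_sound h (xs := [w])
    (List.Forall₂.cons (NumI.V.of_mem (by norm_num) (by norm_num; linarith) (by norm_num; linarith)) List.Forall₂.nil)
  by_contra hc
  push Not at hc
  simp only [List.mem_cons, List.not_mem_nil, or_false] at hf
  rcases hf with rfl
  · simp only [E.val, NumI.lkR, QR.t, QR.k, QR.w] at hp
    push_cast at hp
    linarith

end TL.K5

end Pool.Agent.Work.MP_b30479_gt.G2
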