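import Pool.Agent.Work.MP_b30479_gt.G2.TDef3
import Pool.Agent.Work.MP_b30479_gt.G2.TE4a
import Pool.Agent.Work.MP_b30479_gt.G2.UAnti

/-!
# Tails, part 6: `pre_two`

An untouched digit two with a real hinge `w <= 27/100`; its other hinge, next to a digit one, is far
to the right.  It is better at `9/20`.  The certificates are generated.
-/

namespace Pool.Agent.Work.MP_b30479_gt.G2

open VOL SR NumU

namespace TL

namespace P6

section
open E
/-- the height on the ramp -/
def sE : E := mul (mul (q 100 29) (var 1)) (sub (q 8 10) (var 0))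
/-- common part -/
def cE : E := sub (sub (mul (q 2 1) (sub (E.uu (var 0) sE) (E.uu (q 45 100) (var 1)))) (q 3 1000))
   (mul pi (sub (add (mul (sub (add (var 0) (var 2)) (q 1 2)) sE) (mul (sub (var 0) (q 45 100)) (var 3)))
     (mul (sub (var 2) (q 5 100)) (var 1))))
def yN : E := add (var 1) (var 3)
def yO : E := add sE (var 3)
/-- lower bounds of the new term -/
def nwE (j : ℕ) : E :=
  match j with
  | 0 => E.uu (add (var 2) (q 45 100)) yN
  | 1 => sub (add (E.uu (q 5 100) yN) (mul pi yN)) (mul (q 87 100) (sub (q 60 100) (var 2)))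
  | 2 => sub (sub (E.uu (q 5 100) yN) (mul pi yN)) (mul (q 87 100) (sub (q 60 100) (var 2)))
  | 3 => add (E.uu (sub (var 2) (q 55 100)) yN) (mul pi yN)
  | _ => sub (E.uu (sub (var 2) (q 55 100)) yN) (mul pi yN)
/-- upper bounds of the old term -/
def olE (j : ℕ) : E :=
  match j with
  | 0 => E.uu (add (var 0) (var 2)) yO
  | 1 => add (E.uu (q 95 100) yO) (mul (q 87 100) (sub (add (var 0) (var 2)) (q 95 100)))
  | 2 => add (E.uu (sub (add (var 0) (var 2)) (q 1 1)) yO) (mul pi yO)
  | _ => sub (E.uu (sub (add (var 0) (var 2)) (q 1 1)) yO) (mul pi yO)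
/-- violated conditions on `Yv` -/
def rfE (sg : Bool) (a b m t s : ℤ) : List E :=
  bif sg then
    [sub (mul (q a 100) (var 3)) (mul (q t 10000) (var 2)),
     sub (mul (q b 100) (var 3)) (mul (q t 10000) (sub (q m 100) (var 2))),
     sub yN (q s 10000)]
  else
    [sub (mul (q (-a) 100) (var 3)) (mul (q t 10000) (var 2)),
     sub (mul (q (-b) 100) (var 3)) (mul (q t 10000) (sub (q m 100) (var 2))),
     sub (q s 10000) yN]
/-- violated conditions of the part -/
def roE (o : ℕ) : List E :=
  match o with
  | 0 => [sub (add (var 0) (var 2)) (q 95 100)]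
  | 1 => [sub (q 95 100) (add (var 0) (var 2)), sub (add (var 0) (var 2)) (q 105 100)]
  | 2 => [sub (q 105 100) (add (var 0) (var 2)), neg yO]
  | _ => [sub (q 105 100) (add (var 0) (var 2)), yO]
def mkE (sg : Bool) (a b m t s : ℤ) (o : ℕ) (ns : List ℕ) : List E :=
  (ns.map fun n => sub (add cE (nwE n)) (olE o)) ++ (roE o ++ rfE sg a b m t s)
/-- the part in `w`: variables `X, T, w` -/
def wE (o : ℕ) : E := add (sub (sub (sub (E.uu (add (var 2) (q 45 100)) (var 1))
    (match o with
      | 0 => E.uu (add (var 0) (var 2)) sE
      | _ => E.uu (q 93 100) sE))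
    (mul pi (mul (var 2) (sub (var 1) sE)))) (sub (E.uu (q 45 100) (var 1)) (E.uu (var 0) sE))) (q 3 1000)
end

/-- the height on the ramp -/
noncomputable def sR (X T : ℝ) : ℝ := T * ((8 / 10 - X) / (29 / 100))

theorem sE_val (X T Xv Yv : ℝ) : sE.val [X, T, Xv, Yv] = sR X T := by
  simp only [sE, E.val, NumI.lkR]
  unfold sR
  push_cast
  ring

theorem sE_val3 (X T w : ℝ) : sE.val [X, T, w] = sR X T := by
  simp only [sE, E.val, NumI.lkR]
  unfold sR
  push_cast
  ring

/-- the goal without the terms `uu (Xv + 45/100)`, `uu (X + Xv)` -/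
noncomputable def cR (X T Xv Yv : ℝ) : ℝ :=
  2 * (uu X (sR X T) - uu (45 / 100) T) - 3 / 1000 -
    Real.pi * ((X + Xv - 1 / 2) * sR X T + (X - 45 / 100) * Yv - (Xv - 5 / 100) * T)

theorem cE_val (X T Xv Yv : ℝ) : cE.val [X, T, Xv, Yv] = cR X T Xv Yv := by
  simp only [cE, E.val, sE_val, NumI.lkR]
  unfold cR
  norm_num

/-- the goal -/
def Go (X T Xv Yv : ℝ) : Prop :=
  0 < cR X T Xv Yv + uu (Xv + 45 / 100) (T + Yv) - uu (X + Xv) (sR X T + Yv)

/-- conditions on `Yv` -/
def Rf (sg : Bool) (a b m t s : ℤ) (T Xv Yv : ℝ) : Prop :=
  bif sg then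
    (a : ℝ) / 100 * Yv ≤ (t : ℝ) / 10000 * Xv ∧
      (b : ℝ) / 100 * Yv ≤ (t : ℝ) / 10000 * ((m : ℝ) / 100 - Xv) ∧ T + Yv ≤ (s : ℝ) / 10000
  else
    -((a : ℝ) / 100) * Yv ≤ (t : ℝ) / 10000 * Xv ∧
      -((b : ℝ) / 100) * Yv ≤ (t : ℝ) / 10000 * ((m : ℝ) / 100 - Xv) ∧ (s : ℝ) / 10000 ≤ T + Yv

theorem Rf_neg {sg : Bool} {a b m t s : ℤ} {X T Xv Yv : ℝ} (h : Rf sg a b m t s T Xv Yv) :
    ∀ e ∈ rfE sg a b m t s, e.val [X, T, Xv, Yv] ≤ 0 := by
  intro e he
  unfold Rf at h
  unfold rfE at he
  rcases sg with _ | _
  · simp only [cond_false, List.mem_cons, List.not_mem_nil, or_false] at h he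
    obtain ⟨h1, h2, h3⟩ := h
    rcases he with rfl | rfl | rfl
    · simp only [E.val, NumI.lkR]
      push_cast
      linarith only [h1]
    · simp only [E.val, NumI.lkR]
      push_cast
      linarith only [h2]
    · simp only [yN, E.val, NumI.lkR]
      push_cast
      linarith only [h3]
  · simp only [cond_true, List.mem_cons, List.not_mem_nil, or_false] at h he
    obtain ⟨h1, h2, h3⟩ := h
    rcases he with rfl | rfl | rfl
    · simp only [E.val, NumI.lkR]
      push_cast
      linarith only [h1]
    · simp only [E.val, NumI.lkR]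
      push_cast
      linarith only [h2]
    · simp only [yN, E.val, NumI.lkR]
      push_cast
      linarith only [h3]

/-- the part -/
def Ro (o : ℕ) (X T Xv Yv : ℝ) : Prop :=
  match o with
  | 0 => X + Xv ≤ 95 / 100
  | 1 => 95 / 100 ≤ X + Xv ∧ X + Xv ≤ 105 / 100
  | 2 => 105 / 100 ≤ X + Xv ∧ 0 ≤ sR X T + Yv
  | _ => 105 / 100 ≤ X + Xv ∧ sR X T + Yv ≤ 0

theorem Ro_neg {o : ℕ} {X T Xv Yv : ℝ} (h : Ro o X T Xv Yv) :
    ∀ e ∈ roE o, e.val [X, T, Xv, Yv] ≤ 0 := by
  intro e he
  match o, h with
  | 0, h =>
    simp only [Ro, roE, List.mem_cons, List.not_mem_nil, or_false] at h he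
    subst he
    simp only [E.val, NumI.lkR]
    push_cast
    linarith only [h]
  | 1, h =>
    simp only [Ro, roE, List.mem_cons, List.not_mem_nil, or_false] at h he
    obtain ⟨h1, h2⟩ := h
    rcases he with rfl | rfl
    · simp only [E.val, NumI.lkR]
      push_cast
      linarith only [h1]
    · simp only [E.val, NumI.lkR]
      push_cast
      linarith only [h2]
  | 2, h =>
    simp only [Ro, roE, List.mem_cons, List.not_mem_nil, or_false] at h he
    obtain ⟨h1, h2⟩ := h
    rcases he with rfl | rfl
    · simp only [E.val, NumI.lkR]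
      push_cast
      linarith only [h1]
    · simp only [yO, E.val, sE_val, NumI.lkR]
      linarith only [h2]
  | _ + 3, h =>
    simp only [Ro, roE, List.mem_cons, List.not_mem_nil, or_false] at h he
    obtain ⟨h1, h2⟩ := h
    rcases he with rfl | rfl
    · simp only [E.val, NumI.lkR]
      push_cast
      linarith only [h1]
    · simp only [yO, E.val, sE_val, NumI.lkR]
      linarith only [h2]

theorem exp87 : 2 * Real.cosh (2 * Real.pi * (19 / 100)) + 2 ≤ Real.exp (2 * (87 / 100)) := by
  have h : NumI.chk [NumI.E.sub (NumI.E.exp (NumI.E.q 174 100)) (NumI.E.add (NumI.E.q 2 1)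
      (NumI.E.mul (NumI.E.q 2 1) (NumI.E.cosh (NumI.E.mul NumI.E.pi (NumI.E.q 38 100)))))] 1
      [NumI.V.of 1 0 0] = true := by
    decide +kernel
  have hp := NumI.pos_of_chk (NumI.chk1 h (by norm_num) (x := 0) (by norm_num) (by norm_num))
  simp only [NumI.E.val] at hp
  rw [show 2 * Real.pi * (19 / 100) = Real.pi * (38 / 100) by ring,
    show (2 : ℝ) * (87 / 100) = 174 / 100 by norm_num]
  norm_num at hp ⊢
  linarith only [hp]

theorem sl {u v t : ℝ} (huv : u ≤ v) (ht : |t| ≤ 19 / 100) : uu v t - uu u t ≤ 87 / 100 * (v - u) :=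
  uu_slope huv (by norm_num) ht exp87

theorem ol_val {o : ℕ} {X T Xv Yv : ℝ} (h : Ro o X T Xv Yv) (hy : |sR X T + Yv| ≤ 19 / 100) :
    uu (X + Xv) (sR X T + Yv) ≤ (olE o).val [X, T, Xv, Yv] := by
  match o, h with
  | 0, _ =>
    simp only [olE, yO, E.val, sE_val, NumI.lkR]
    exact le_rfl
  | 1, h =>
    have := sl h.1 hy
    simp only [olE, yO, E.val, sE_val, NumI.lkR]
    norm_num
    linarith only [this]
  | 2, h =>
    have e := uu_add_one (X + Xv - 1) (sR X T + Yv)
    rw [sub_add_cancel, abs_of_nonneg h.2] at e
    simp only [olE, yO, E.val, sE_val, NumI.lkR]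
    norm_num
    linarith only [e]
  | _ + 3, h =>
    have e := uu_add_one (X + Xv - 1) (sR X T + Yv)
    rw [sub_add_cancel, abs_of_nonpos h.2] at e
    simp only [olE, yO, E.val, sE_val, NumI.lkR]
    norm_num
    linarith only [e]

theorem nw0 {X T Xv Yv : ℝ} : ∀ n ∈ [0], (nwE n).val [X, T, Xv, Yv] ≤
    uu (Xv + 45 / 100) (T + Yv) := by
  intro n hn
  simp only [List.mem_cons, List.not_mem_nil, or_false] at hn
  subst hn
  simp only [nwE, yN, E.val, NumI.lkR]
  norm_num

theorem nw12 {X T Xv Yv : ℝ} (hx : Xv ≤ 60 / 100) (hy : |T + Yv| ≤ 19 / 100) :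
    ∀ n ∈ [1, 2], (nwE n).val [X, T, Xv, Yv] ≤ uu (Xv + 45 / 100) (T + Yv) := by
  have hp := Real.pi_pos
  have h := sl (u := Xv + 45 / 100) (v := 105 / 100) (by linarith only [hx]) hy
  have e := uu_add_one (5 / 100) (T + Yv)
  rw [show (5 / 100 + 1 : ℝ) = 105 / 100 by norm_num] at e
  have a1 := mul_le_mul_of_nonneg_left (le_abs_self (T + Yv)) hp.le
  have a2 := mul_le_mul_of_nonneg_left (neg_abs_le (T + Yv)) hp.le
  intro n hn
  simp only [List.mem_cons, List.not_mem_nil, or_false] at hn
  rcases hn with rfl | rfl
  · simp only [nwE, yN, E.val, NumI.lkR]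
    norm_num
    norm_num at h e a1 a2
    linarith only [a1, h, e]
  · simp only [nwE, yN, E.val, NumI.lkR]
    norm_num
    norm_num at h e a1 a2
    linarith only [h, e, a2]

theorem nw34 {X T Xv Yv : ℝ} :
    ∀ n ∈ [3, 4], (nwE n).val [X, T, Xv, Yv] ≤ uu (Xv + 45 / 100) (T + Yv) := by
  have hp := Real.pi_pos
  have e := uu_add_one (Xv - 55 / 100) (T + Yv)
  rw [show Xv - 55 / 100 + 1 = Xv + 45 / 100 by ring] at e
  have a1 := mul_le_mul_of_nonneg_left (le_abs_self (T + Yv)) hp.le
  have a2 := mul_le_mul_of_nonneg_left (neg_abs_le (T + Yv)) hp.le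
  intro n hn
  simp only [List.mem_cons, List.not_mem_nil, or_false] at hn
  rcases hn with rfl | rfl
  · simp only [nwE, yN, E.val, NumI.lkR]
    push_cast
    linarith only [e, a1]
  · simp only [nwE, yN, E.val, NumI.lkR]
    push_cast
    linarith only [e, a2]

theorem blk {sg : Bool} {a b m t s : ℤ} {o : ℕ} {ns : List ℕ} {cd : ℕ}
    {l1 h1 l2 h2 l3 h3 l4 h4 : ℤ}
    (h : chkT (mkE sg a b m t s o ns) 40 cd [NumI.V.of 10000 l1 h1 0, NumI.V.of 10000 l2 h2 0,
      NumI.V.of 10000 l3 h3 0, NumI.V.of 10000 l4 h4 0] = true) {X T Xv Yv : ℝ}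
    (p1 : (l1 : ℝ) / 10000 ≤ X) (q1 : X ≤ (h1 : ℝ) / 10000)
    (p2 : (l2 : ℝ) / 10000 ≤ T) (q2 : T ≤ (h2 : ℝ) / 10000)
    (p3 : (l3 : ℝ) / 10000 ≤ Xv) (q3 : Xv ≤ (h3 : ℝ) / 10000)
    (p4 : (l4 : ℝ) / 10000 ≤ Yv) (q4 : Yv ≤ (h4 : ℝ) / 10000)
    (hf : Rf sg a b m t s T Xv Yv) (ho : Ro o X T Xv Yv) (hy : |sR X T + Yv| ≤ 19 / 100)
    (hn : ∀ n ∈ ns, (nwE n).val [X, T, Xv, Yv] ≤ uu (Xv + 45 / 100) (T + Yv)) :
    Go X T Xv Yv := by
  have e : ((10000 : ℕ) : ℝ) = 10000 := by norm_num
  obtain ⟨z, hz, hp⟩ := chkT4 (N := 10000) (x := X) (y := T) (z := Xv) (w := Yv) h (by norm_num)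
    (by rw [e]; exact p1)
    (by rw [e]; exact q1) (by rw [e]; exact p2) (by rw [e]; exact q2) (by rw [e]; exact p3)
    (by rw [e]; exact q3) (by rw [e]; exact p4) (by rw [e]; exact q4)
  unfold mkE at hz
  rw [List.mem_append, List.mem_append, List.mem_map] at hz
  rcases hz with ⟨n, hn', rfl⟩ | hz | hz
  · have h5 := hn n hn'
    have h6 := ol_val ho hy
    simp only [E.val] at hp
    rw [cE_val] at hp
    unfold Go
    linarith only [hp, h5, h6]
  · exact absurd (Ro_neg ho z hz) (not_le.2 hp)
  · exact absurd (Rf_neg hf z hz) (not_le.2 hp)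

/-! ### certificates -/

private theorem c_one_p_000 : chkT (mkE true 15 20 86 540 950 0 [0]) 40
    49337159589092172455023922666541088
    [NumI.V.of 10000 6000 8000 0, NumI.V.of 10000 (-180) 790 0, NumI.V.of 10000 0 1900 0,
      NumI.V.of 10000 0 540 0] = true := by
  decide +kernel

private theorem c_one_p_001 : chkT (mkE true 15 20 86 540 950 0 [0]) 40
    1111602120915309206174203910192171871867128377741192372272018372609514093940768
    [NumI.V.of 10000 6000 8000 0, NumI.V.of 10000 (-180) 790 0, NumI.V.of 10000 1900 3500 0,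
      NumI.V.of 10000 0 540 0] = true := by
  decide +kernel

private theorem c_one_p_101 : chkT (mkE true 15 20 86 540 950 1 [0]) 40
    45139628162
    [NumI.V.of 10000 6000 8000 0, NumI.V.of 10000 (-180) 790 0, NumI.V.of 10000 1500 4500 0,
      NumI.V.of 10000 0 540 0] = true := by
  decide +kernel

private theorem c_one_p_202 : chkT (mkE true 15 20 86 540 950 2 [0]) 40
    78069737010764224241983480743002592233515667667826595660047075577313840890034887204731703325086558087844354
    [NumI.V.of 10000 6000 8000 0, NumI.V.of 10000 (-180) 790 0, NumI.V.of 10000 2500 5000 0,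
      NumI.V.of 10000 0 540 0] = true := by
  decide +kernel

private theorem c_one_p_302 : chkT (mkE true 15 20 86 540 950 3 [0]) 40
    71008340863045794550072507814691143529158982843574877137097024856903540943906626102257951740418
    [NumI.V.of 10000 6000 8000 0, NumI.V.of 10000 (-180) 790 0, NumI.V.of 10000 2500 5000 0,
      NumI.V.of 10000 0 540 0] = true := by
  decide +kernel

private theorem c_one_p_215 : chkT (mkE true 15 20 86 540 950 2 [1, 2]) 40
    36516167936
    [NumI.V.of 10000 6000 8000 0, NumI.V.of 10000 (-180) 790 0, NumI.V.of 10000 5000 6000 0,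
      NumI.V.of 10000 0 540 0] = true := by
  decide +kernel

private theorem c_one_p_315 : chkT (mkE true 15 20 86 540 950 3 [1, 2]) 40
    36650361088
    [NumI.V.of 10000 6000 8000 0, NumI.V.of 10000 (-180) 790 0, NumI.V.of 10000 5000 6000 0,
      NumI.V.of 10000 0 540 0] = true := by
  decide +kernel

private theorem c_one_p_236 : chkT (mkE true 15 20 86 540 950 2 [3, 4]) 40
    190733551680437461437099762743392504576479266
    [NumI.V.of 10000 6000 8000 0, NumI.V.of 10000 (-180) 790 0, NumI.V.of 10000 6000 8600 0,
      NumI.V.of 10000 0 540 0] = true := by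
  decide +kernel

private theorem c_one_p_336 : chkT (mkE true 15 20 86 540 950 3 [3, 4]) 40
    173047172326967226609128414650402
    [NumI.V.of 10000 6000 8000 0, NumI.V.of 10000 (-180) 790 0, NumI.V.of 10000 6000 8600 0,
      NumI.V.of 10000 0 540 0] = true := by
  decide +kernel

private theorem c_one_n_000 : chkT (mkE false 15 20 86 930 (-490) 0 [0]) 40
    752825311112856635361074905120
    [NumI.V.of 10000 6000 8000 0, NumI.V.of 10000 (-180) 790 0, NumI.V.of 10000 0 1900 0,
      NumI.V.of 10000 (-930) 0 0] = true := by
  decide +kernel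

private theorem c_one_n_001 : chkT (mkE false 15 20 86 930 (-490) 0 [0]) 40
    1222219472583946534452523235879479045890383780118663168084513159714616712551518802960453664
    [NumI.V.of 10000 6000 8000 0, NumI.V.of 10000 (-180) 790 0, NumI.V.of 10000 1900 3500 0,
      NumI.V.of 10000 (-930) 0 0] = true := by
  decide +kernel

private theorem c_one_n_101 : chkT (mkE false 15 20 86 930 (-490) 1 [0]) 40
    36516135298
    [NumI.V.of 10000 6000 8000 0, NumI.V.of 10000 (-180) 790 0, NumI.V.of 10000 1500 4500 0,
      NumI.V.of 10000 (-930) 0 0] = true := by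
  decide +kernel

private theorem c_one_n_202 : chkT (mkE false 15 20 86 930 (-490) 2 [0]) 40
    1583442311180820131234237258408045184414981308710751621535847835973997870466659388453553815597593559441995914747748588608656589963652010498
    [NumI.V.of 10000 6000 8000 0, NumI.V.of 10000 (-180) 790 0, NumI.V.of 10000 2500 5000 0,
      NumI.V.of 10000 (-930) 0 0] = true := by
  decide +kernel

private theorem c_one_n_302 : chkT (mkE false 15 20 86 930 (-490) 3 [0]) 40
    103772475305535137511077418436419266826731265936035396606344951362289825100261507713330577149410287942545742714483137050820797445193662502834690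
    [NumI.V.of 10000 6000 8000 0, NumI.V.of 10000 (-180) 790 0, NumI.V.of 10000 2500 5000 0,
      NumI.V.of 10000 (-930) 0 0] = true := by
  decide +kernel

private theorem c_one_n_215 : chkT (mkE false 15 20 86 930 (-490) 2 [1, 2]) 40
    2393121560731664
    [NumI.V.of 10000 6000 8000 0, NumI.V.of 10000 (-180) 790 0, NumI.V.of 10000 5000 6000 0,
      NumI.V.of 10000 (-930) 0 0] = true := by
  decide +kernel

private theorem c_one_n_315 : chkT (mkE false 15 20 86 930 (-490) 3 [1, 2]) 40
    689500548513370368
    [NumI.V.of 10000 6000 8000 0, NumI.V.of 10000 (-180) 790 0, NumI.V.of 10000 5000 6000 0,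
      NumI.V.of 10000 (-930) 0 0] = true := by
  decide +kernel

private theorem c_one_n_236 : chkT (mkE false 15 20 86 930 (-490) 2 [3, 4]) 40
    44623957902178553503126731972673826
    [NumI.V.of 10000 6000 8000 0, NumI.V.of 10000 (-180) 790 0, NumI.V.of 10000 6000 8600 0,
      NumI.V.of 10000 (-930) 0 0] = true := by
  decide +kernel

private theorem c_one_n_336 : chkT (mkE false 15 20 86 930 (-490) 3 [3, 4]) 40
    214045979700229206614730060363292606425796642
    [NumI.V.of 10000 6000 8000 0, NumI.V.of 10000 (-180) 790 0, NumI.V.of 10000 6000 8600 0,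
      NumI.V.of 10000 (-930) 0 0] = true := by
  decide +kernel

private theorem c_two_p_000 : chkT (mkE true 16 29 80 790 1300 0 [0]) 40
    13887175846309637591520266954792245564645407137824
    [NumI.V.of 10000 6000 8000 0, NumI.V.of 10000 50 790 0, NumI.V.of 10000 0 1900 0,
      NumI.V.of 10000 0 790 0] = true := by
  decide +kernel

private theorem c_two_p_001 : chkT (mkE true 16 29 80 790 1300 0 [0]) 40
    18649589120238442046908834311466182022964153772041324376485447463241276044405616680992
    [NumI.V.of 10000 6000 8000 0, NumI.V.of 10000 50 790 0, NumI.V.of 10000 1900 3500 0,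
      NumI.V.of 10000 0 790 0] = true := by
  decide +kernel

private theorem c_two_p_101 : chkT (mkE true 16 29 80 790 1300 1 [0]) 40
    2958271068538882
    [NumI.V.of 10000 6000 8000 0, NumI.V.of 10000 50 790 0, NumI.V.of 10000 1500 4500 0,
      NumI.V.of 10000 0 790 0] = true := by
  decide +kernel

private theorem c_two_p_202 : chkT (mkE true 16 29 80 790 1300 2 [0]) 40
    24161413326187250406916927172894247137244114776344126837120912764932107707154455186613534397632807622777711846020664223376259868037634
    [NumI.V.of 10000 6000 8000 0, NumI.V.of 10000 50 790 0, NumI.V.of 10000 2500 5000 0,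
      NumI.V.of 10000 0 790 0] = true := by
  decide +kernel

private theorem c_two_p_215 : chkT (mkE true 16 29 80 790 1300 2 [1, 2]) 40
    36649992960
    [NumI.V.of 10000 6000 8000 0, NumI.V.of 10000 50 790 0, NumI.V.of 10000 5000 6000 0,
      NumI.V.of 10000 0 790 0] = true := by
  decide +kernel

private theorem c_two_p_236 : chkT (mkE true 16 29 80 790 1300 2 [3, 4]) 40
    2631267187697687803615261186
    [NumI.V.of 10000 6000 8000 0, NumI.V.of 10000 50 790 0, NumI.V.of 10000 6000 8000 0,
      NumI.V.of 10000 0 790 0] = true := by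
  decide +kernel

private theorem c_twoE_n_000 : chkT (mkE false 14 35 70 490 210 0 [0]) 40
    2631238861711113139264192544
    [NumI.V.of 10000 6000 8000 0, NumI.V.of 10000 480 985 0, NumI.V.of 10000 0 1900 0,
      NumI.V.of 10000 (-490) 0 0] = true := by
  decide +kernel

private theorem c_twoE_n_001 : chkT (mkE false 14 35 70 490 210 0 [0]) 40
    3949201682829736458732339444128784361397522777814946197343993888
    [NumI.V.of 10000 6000 8000 0, NumI.V.of 10000 480 985 0, NumI.V.of 10000 1900 3500 0,
      NumI.V.of 10000 (-490) 0 0] = true := by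
  decide +kernel

private theorem c_twoE_n_101 : chkT (mkE false 14 35 70 490 210 1 [0]) 40
    557186
    [NumI.V.of 10000 6000 8000 0, NumI.V.of 10000 480 985 0, NumI.V.of 10000 1500 4500 0,
      NumI.V.of 10000 (-490) 0 0] = true := by
  decide +kernel

private theorem c_twoE_n_202 : chkT (mkE false 14 35 70 490 210 2 [0]) 40
    3849131774016837662338976476087196440990786207599727920152353929530168087042
    [NumI.V.of 10000 6000 8000 0, NumI.V.of 10000 480 985 0, NumI.V.of 10000 2500 5000 0,
      NumI.V.of 10000 (-490) 0 0] = true := by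
  decide +kernel

private theorem c_twoE_n_302 : chkT (mkE false 14 35 70 490 210 3 [0]) 40
    15073643447743667143220899475063261645146151379634781028468472725183173122
    [NumI.V.of 10000 6000 8000 0, NumI.V.of 10000 480 985 0, NumI.V.of 10000 2500 5000 0,
      NumI.V.of 10000 (-490) 0 0] = true := by
  decide +kernel

private theorem c_twoE_n_215 : chkT (mkE false 14 35 70 490 210 2 [1, 2]) 40
    2176
    [NumI.V.of 10000 6000 8000 0, NumI.V.of 10000 480 985 0, NumI.V.of 10000 5000 6000 0,
      NumI.V.of 10000 (-490) 0 0] = true := by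
  decide +kernel

private theorem c_twoE_n_315 : chkT (mkE false 14 35 70 490 210 3 [1, 2]) 40
    559104
    [NumI.V.of 10000 6000 8000 0, NumI.V.of 10000 480 985 0, NumI.V.of 10000 5000 6000 0,
      NumI.V.of 10000 (-490) 0 0] = true := by
  decide +kernel

private theorem c_twoE_n_236 : chkT (mkE false 14 35 70 490 210 2 [3, 4]) 40
    2176
    [NumI.V.of 10000 6000 8000 0, NumI.V.of 10000 480 985 0, NumI.V.of 10000 6000 7000 0,
      NumI.V.of 10000 (-490) 0 0] = true := by
  decide +kernel

private theorem c_twoE_n_336 : chkT (mkE false 14 35 70 490 210 3 [3, 4]) 40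
    2259
    [NumI.V.of 10000 6000 8000 0, NumI.V.of 10000 480 985 0, NumI.V.of 10000 6000 7000 0,
      NumI.V.of 10000 (-490) 0 0] = true := by
  decide +kernel

private theorem c_three_p_000 : chkT (mkE true 13 15 65 940 1480 0 [0]) 40
    3908892686222205659150772573738763824420463194776755272134701088
    [NumI.V.of 10000 6000 8000 0, NumI.V.of 10000 100 770 0, NumI.V.of 10000 0 1900 0,
      NumI.V.of 10000 0 940 0] = true := by
  decide +kernel

private theorem c_three_p_001 : chkT (mkE true 13 15 65 940 1480 0 [0]) 40
    20505440090946949200291569538359113873557352709762535205592157488465822618380822421148551971282976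
    [NumI.V.of 10000 6000 8000 0, NumI.V.of 10000 100 770 0, NumI.V.of 10000 1900 3500 0,
      NumI.V.of 10000 0 940 0] = true := by
  decide +kernel

private theorem c_three_p_101 : chkT (mkE true 13 15 65 940 1480 1 [0]) 40
    757317257476999170
    [NumI.V.of 10000 6000 8000 0, NumI.V.of 10000 100 770 0, NumI.V.of 10000 1500 4500 0,
      NumI.V.of 10000 0 940 0] = true := by
  decide +kernel

private theorem c_three_p_202 : chkT (mkE true 13 15 65 940 1480 2 [0]) 40
    405361250238722008524346533437656789912271096735420670919938897692369526252800643846630358756197889887537222363600223638613835373940168495618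
    [NumI.V.of 10000 6000 8000 0, NumI.V.of 10000 100 770 0, NumI.V.of 10000 2500 5000 0,
      NumI.V.of 10000 0 940 0] = true := by
  decide +kernel

private theorem c_three_p_215 : chkT (mkE true 13 15 65 940 1480 2 [1, 2]) 40
    9348139090688
    [NumI.V.of 10000 6000 8000 0, NumI.V.of 10000 100 770 0, NumI.V.of 10000 5000 6000 0,
      NumI.V.of 10000 0 940 0] = true := by
  decide +kernel

private theorem c_three_p_236 : chkT (mkE true 13 15 65 940 1480 2 [3, 4]) 40
    142641200
    [NumI.V.of 10000 6000 8000 0, NumI.V.of 10000 100 770 0, NumI.V.of 10000 6000 6500 0,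
      NumI.V.of 10000 0 940 0] = true := by
  decide +kernel

private theorem c_threeE_p_000 : chkT (mkE true 14 25 60 590 1340 0 [0]) 40
    49337159589092172455023926961512480
    [NumI.V.of 10000 6000 8000 0, NumI.V.of 10000 320 910 0, NumI.V.of 10000 0 1900 0,
      NumI.V.of 10000 0 590 0] = true := by
  decide +kernel

private theorem c_threeE_p_001 : chkT (mkE true 14 25 60 590 1340 0 [0]) 40
    4342195784825426586617984024188171374459951807868183722397462959479453130784
    [NumI.V.of 10000 6000 8000 0, NumI.V.of 10000 320 910 0, NumI.V.of 10000 1900 3500 0,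
      NumI.V.of 10000 0 590 0] = true := by
  decide +kernel

private theorem c_threeE_p_101 : chkT (mkE true 14 25 60 590 1340 1 [0]) 40
    143138946
    [NumI.V.of 10000 6000 8000 0, NumI.V.of 10000 320 910 0, NumI.V.of 10000 1500 4500 0,
      NumI.V.of 10000 0 590 0] = true := by
  decide +kernel

private theorem c_threeE_p_202 : chkT (mkE true 14 25 60 590 1340 2 [0]) 40
    4232168744665303199148141583359459825986369497011785858331185806237731449547222584168962
    [NumI.V.of 10000 6000 8000 0, NumI.V.of 10000 320 910 0, NumI.V.of 10000 2500 5000 0,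
      NumI.V.of 10000 0 590 0] = true := by
  decide +kernel

private theorem c_threeE_p_215 : chkT (mkE true 14 25 60 590 1340 2 [1, 2]) 40
    559104
    [NumI.V.of 10000 6000 8000 0, NumI.V.of 10000 320 910 0, NumI.V.of 10000 5000 6000 0,
      NumI.V.of 10000 0 590 0] = true := by
  decide +kernel

private theorem c_ring_p_000 : chkT (mkE true 16 29 65 1450 1870 0 [0]) 40
    10125604645792143197582527354966724799489042930111790357759112687544843010884495331750185774612983004433185060721758621369862529693531062189752794573933151228364942272350351654367920928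
    [NumI.V.of 10000 6000 8000 0, NumI.V.of 10000 (-80) 800 0, NumI.V.of 10000 0 1900 0,
      NumI.V.of 10000 0 1450 0] = true := by
  decide +kernel

private theorem c_ring_p_001 : chkT (mkE true 16 29 65 1450 1870 0 [0]) 40
    552825231556514424644519099355463640869872771474870901594711189051322001725364443966416252541409878356936346576468605406392314244515111207470720653034221514214486048
    [NumI.V.of 10000 6000 8000 0, NumI.V.of 10000 (-80) 800 0, NumI.V.of 10000 1900 3500 0,
      NumI.V.of 10000 0 1450 0] = true := by
  decide +kernel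

private theorem c_ring_p_101 : chkT (mkE true 16 29 65 1450 1870 1 [0]) 40
    4333360501995701308882676126482310392680634874432195898682933298
    [NumI.V.of 10000 6000 8000 0, NumI.V.of 10000 (-80) 800 0, NumI.V.of 10000 1500 4500 0,
      NumI.V.of 10000 0 1450 0] = true := by
  decide +kernel

private theorem c_ring_p_202 : chkT (mkE true 16 29 65 1450 1870 2 [0]) 40
    3715334501029745153134385428449324728865256871444412618382441766602477505117096340247798780955659525164789280956243308709622287986782440092854285847867726270949348828340008140621998467377918362844605799643098982345782213553941392838341665664045570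
    [NumI.V.of 10000 6000 8000 0, NumI.V.of 10000 (-80) 800 0, NumI.V.of 10000 2500 5000 0,
      NumI.V.of 10000 0 1450 0] = true := by
  decide +kernel

private theorem c_ring_p_302 : chkT (mkE true 16 29 65 1450 1870 3 [0]) 40
    5828062877357936663291184782205190485208562193014468101360569909793484570082917655944721060963942963
    [NumI.V.of 10000 6000 8000 0, NumI.V.of 10000 (-80) 800 0, NumI.V.of 10000 2500 5000 0,
      NumI.V.of 10000 0 1450 0] = true := by
  decide +kernel

private theorem c_ring_p_215 : chkT (mkE true 16 29 65 1450 1870 2 [1, 2]) 40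
    1072060343111382803187062935600
    [NumI.V.of 10000 6000 8000 0, NumI.V.of 10000 (-80) 800 0, NumI.V.of 10000 5000 6000 0,
      NumI.V.of 10000 0 1450 0] = true := by
  decide +kernel

private theorem c_ring_p_315 : chkT (mkE true 16 29 65 1450 1870 3 [1, 2]) 40
    36650360880
    [NumI.V.of 10000 6000 8000 0, NumI.V.of 10000 (-80) 800 0, NumI.V.of 10000 5000 6000 0,
      NumI.V.of 10000 0 1450 0] = true := by
  decide +kernel

private theorem c_ring_p_236 : chkT (mkE true 16 29 65 1450 1870 2 [3, 4]) 40
    58117882115
    [NumI.V.of 10000 6000 8000 0, NumI.V.of 10000 (-80) 800 0, NumI.V.of 10000 6000 6500 0,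
      NumI.V.of 10000 0 1450 0] = true := by
  decide +kernel

private theorem c_ring_p_336 : chkT (mkE true 16 29 65 1450 1870 3 [3, 4]) 40
    143164161
    [NumI.V.of 10000 6000 8000 0, NumI.V.of 10000 (-80) 800 0, NumI.V.of 10000 6000 6500 0,
      NumI.V.of 10000 0 1450 0] = true := by
  decide +kernel

private theorem c_w0 : chkT (wE 0 :: [E.sub (E.add (E.var 0) (E.var 2)) (E.q 93 100)]) 40
    85050043654955644691114808068862285373570570955650032645002343677639417258147028630235986481713309945818983380142507208178875237897361310270806924147395891626017706569697098562116754573673324287187206733297574754987049246627715979199492133632797042869993356713239857309425926658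
    [NumI.V.of 10000 6000 8000 0, NumI.V.of 10000 (-180) 985 0, NumI.V.of 10000 0 2700 0] = true := by
  decide +kernel

private theorem c_w1 : chkT (wE 1 :: [E.sub (E.q 93 100) (E.add (E.var 0) (E.var 2))]) 40
    559392
    [NumI.V.of 10000 6000 8000 0, NumI.V.of 10000 (-180) 985 0, NumI.V.of 10000 1300 2700 0] = true := by
  decide +kernel

/-! ### the parts -/

theorem k_one_p {X T Xv Yv : ℝ} (hX0 : 6 / 10 ≤ X) (hX1 : X ≤ 8 / 10)
    (hT0 : -(9 / 500) ≤ T) (hT1 : T ≤ 79 / 1000) (hV0 : 0 ≤ Xv)
    (hV1 : Xv ≤ 86 / 100) (hY0 : 0 ≤ Yv) (hY1 : Yv ≤ 27 / 500)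
    (hf : Rf true 15 20 86 540 950 T Xv Yv) (hy : |sR X T + Yv| ≤ 19 / 100)
    (hy2 : |T + Yv| ≤ 19 / 100) (hs : 0 < T → 0 ≤ sR X T) : Go X T Xv Yv := by
  rcases le_total (X + Xv) (95 / 100) with h | h
  · rcases le_total Xv (19 / 100) with h' | h'
    · exact blk c_one_p_000 (by push_cast; linarith only [hX0]) (by push_cast; linarith only [hX1]) (by push_cast; linarith only [hT0])
        (by push_cast; linarith only [hT1]) (by push_cast; linarith only [hV0]) (by push_cast; linarith only [h'])
        (by push_cast; linarith only [hY0]) (by push_cast; linarith only [hY1]) hf h hy nw0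
    · exact blk c_one_p_001 (by push_cast; linarith only [hX0]) (by push_cast; linarith only [hX1]) (by push_cast; linarith only [hT0])
        (by push_cast; linarith only [hT1]) (by push_cast; linarith only [h']) (by push_cast; linarith only [hX0, h])
        (by push_cast; linarith only [hY0]) (by push_cast; linarith only [hY1]) hf h hy nw0
  rcases le_total (X + Xv) (105 / 100) with h2 | h2
  · exact blk c_one_p_101 (by push_cast; linarith only [hX0]) (by push_cast; linarith only [hX1]) (by push_cast; linarith only [hT0])
        (by push_cast; linarith only [hT1]) (by push_cast; linarith only [hX1, h]) (by push_cast; linarith only [hX0, h2])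
        (by push_cast; linarith only [hY0]) (by push_cast; linarith only [hY1]) hf ⟨h, h2⟩ hy nw0
  rcases le_total 0 (sR X T + Yv) with h3 | h3
  · rcases le_total Xv (50 / 100) with h4 | h4
    · exact blk c_one_p_202 (by push_cast; linarith only [hX0]) (by push_cast; linarith only [hX1]) (by push_cast; linarith only [hT0])
        (by push_cast; linarith only [hT1]) (by push_cast; linarith only [hX1, h2]) (by push_cast; linarith only [h4])
        (by push_cast; linarith only [hY0]) (by push_cast; linarith only [hY1]) hf ⟨h2, h3⟩ hy nw0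
    rcases le_total Xv (60 / 100) with h5 | h5
    · exact blk c_one_p_215 (by push_cast; linarith only [hX0]) (by push_cast; linarith only [hX1]) (by push_cast; linarith only [hT0])
        (by push_cast; linarith only [hT1]) (by push_cast; linarith only [h4]) (by push_cast; linarith only [h5])
        (by push_cast; linarith only [hY0]) (by push_cast; linarith only [hY1]) hf ⟨h2, h3⟩ hy (nw12 h5 hy2)
    · exact blk c_one_p_236 (by push_cast; linarith only [hX0]) (by push_cast; linarith only [hX1]) (by push_cast; linarith only [hT0])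
        (by push_cast; linarith only [hT1]) (by push_cast; linarith only [h5]) (by push_cast; linarith only [hV1])
        (by push_cast; linarith only [hY0]) (by push_cast; linarith only [hY1]) hf ⟨h2, h3⟩ hy nw34
  · rcases le_total Xv (50 / 100) with h4 | h4
    · exact blk c_one_p_302 (by push_cast; linarith only [hX0]) (by push_cast; linarith only [hX1]) (by push_cast; linarith only [hT0])
        (by push_cast; linarith only [hT1]) (by push_cast; linarith only [hX1, h2]) (by push_cast; linarith only [h4])
        (by push_cast; linarith only [hY0]) (by push_cast; linarith only [hY1]) hf ⟨h2, h3⟩ hy nw0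
    rcases le_total Xv (60 / 100) with h5 | h5
    · exact blk c_one_p_315 (by push_cast; linarith only [hX0]) (by push_cast; linarith only [hX1]) (by push_cast; linarith only [hT0])
        (by push_cast; linarith only [hT1]) (by push_cast; linarith only [h4]) (by push_cast; linarith only [h5])
        (by push_cast; linarith only [hY0]) (by push_cast; linarith only [hY1]) hf ⟨h2, h3⟩ hy (nw12 h5 hy2)
    · exact blk c_one_p_336 (by push_cast; linarith only [hX0]) (by push_cast; linarith only [hX1]) (by push_cast; linarith only [hT0])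
        (by push_cast; linarith only [hT1]) (by push_cast; linarith only [h5]) (by push_cast; linarith only [hV1])
        (by push_cast; linarith only [hY0]) (by push_cast; linarith only [hY1]) hf ⟨h2, h3⟩ hy nw34

theorem k_one_n {X T Xv Yv : ℝ} (hX0 : 6 / 10 ≤ X) (hX1 : X ≤ 8 / 10)
    (hT0 : -(9 / 500) ≤ T) (hT1 : T ≤ 79 / 1000) (hV0 : 0 ≤ Xv)
    (hV1 : Xv ≤ 86 / 100) (hY0 : -(93 / 1000) ≤ Yv) (hY1 : Yv ≤ 0)
    (hf : Rf false 15 20 86 930 (-490) T Xv Yv) (hy : |sR X T + Yv| ≤ 19 / 100)
    (hy2 : |T + Yv| ≤ 19 / 100) (hs : 0 < T → 0 ≤ sR X T) : Go X T Xv Yv := by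
  rcases le_total (X + Xv) (95 / 100) with h | h
  · rcases le_total Xv (19 / 100) with h' | h'
    · exact blk c_one_n_000 (by push_cast; linarith only [hX0]) (by push_cast; linarith only [hX1]) (by push_cast; linarith only [hT0])
        (by push_cast; linarith only [hT1]) (by push_cast; linarith only [hV0]) (by push_cast; linarith only [h'])
        (by push_cast; linarith only [hY0]) (by push_cast; linarith only [hY1]) hf h hy nw0
    · exact blk c_one_n_001 (by push_cast; linarith only [hX0]) (by push_cast; linarith only [hX1]) (by push_cast; linarith only [hT0])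
        (by push_cast; linarith only [hT1]) (by push_cast; linarith only [h']) (by push_cast; linarith only [hX0, h])
        (by push_cast; linarith only [hY0]) (by push_cast; linarith only [hY1]) hf h hy nw0
  rcases le_total (X + Xv) (105 / 100) with h2 | h2
  · exact blk c_one_n_101 (by push_cast; linarith only [hX0]) (by push_cast; linarith only [hX1]) (by push_cast; linarith only [hT0])
        (by push_cast; linarith only [hT1]) (by push_cast; linarith only [hX1, h]) (by push_cast; linarith only [hX0, h2])
        (by push_cast; linarith only [hY0]) (by push_cast; linarith only [hY1]) hf ⟨h, h2⟩ hy nw0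
  rcases le_total 0 (sR X T + Yv) with h3 | h3
  · rcases le_total Xv (50 / 100) with h4 | h4
    · exact blk c_one_n_202 (by push_cast; linarith only [hX0]) (by push_cast; linarith only [hX1]) (by push_cast; linarith only [hT0])
        (by push_cast; linarith only [hT1]) (by push_cast; linarith only [hX1, h2]) (by push_cast; linarith only [h4])
        (by push_cast; linarith only [hY0]) (by push_cast; linarith only [hY1]) hf ⟨h2, h3⟩ hy nw0
    rcases le_total Xv (60 / 100) with h5 | h5
    · exact blk c_one_n_215 (by push_cast; linarith only [hX0]) (by push_cast; linarith only [hX1]) (by push_cast; linarith only [hT0])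
        (by push_cast; linarith only [hT1]) (by push_cast; linarith only [h4]) (by push_cast; linarith only [h5])
        (by push_cast; linarith only [hY0]) (by push_cast; linarith only [hY1]) hf ⟨h2, h3⟩ hy (nw12 h5 hy2)
    · exact blk c_one_n_236 (by push_cast; linarith only [hX0]) (by push_cast; linarith only [hX1]) (by push_cast; linarith only [hT0])
        (by push_cast; linarith only [hT1]) (by push_cast; linarith only [h5]) (by push_cast; linarith only [hV1])
        (by push_cast; linarith only [hY0]) (by push_cast; linarith only [hY1]) hf ⟨h2, h3⟩ hy nw34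
  · rcases le_total Xv (50 / 100) with h4 | h4
    · exact blk c_one_n_302 (by push_cast; linarith only [hX0]) (by push_cast; linarith only [hX1]) (by push_cast; linarith only [hT0])
        (by push_cast; linarith only [hT1]) (by push_cast; linarith only [hX1, h2]) (by push_cast; linarith only [h4])
        (by push_cast; linarith only [hY0]) (by push_cast; linarith only [hY1]) hf ⟨h2, h3⟩ hy nw0
    rcases le_total Xv (60 / 100) with h5 | h5
    · exact blk c_one_n_315 (by push_cast; linarith only [hX0]) (by push_cast; linarith only [hX1]) (by push_cast; linarith only [hT0])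
        (by push_cast; linarith only [hT1]) (by push_cast; linarith only [h4]) (by push_cast; linarith only [h5])
        (by push_cast; linarith only [hY0]) (by push_cast; linarith only [hY1]) hf ⟨h2, h3⟩ hy (nw12 h5 hy2)
    · exact blk c_one_n_336 (by push_cast; linarith only [hX0]) (by push_cast; linarith only [hX1]) (by push_cast; linarith only [hT0])
        (by push_cast; linarith only [hT1]) (by push_cast; linarith only [h5]) (by push_cast; linarith only [hV1])
        (by push_cast; linarith only [hY0]) (by push_cast; linarith only [hY1]) hf ⟨h2, h3⟩ hy nw34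

theorem k_two_p {X T Xv Yv : ℝ} (hX0 : 6 / 10 ≤ X) (hX1 : X ≤ 8 / 10)
    (hT0 : 1 / 200 ≤ T) (hT1 : T ≤ 79 / 1000) (hV0 : 0 ≤ Xv)
    (hV1 : Xv ≤ 80 / 100) (hY0 : 0 ≤ Yv) (hY1 : Yv ≤ 79 / 1000)
    (hf : Rf true 16 29 80 790 1300 T Xv Yv) (hy : |sR X T + Yv| ≤ 19 / 100)
    (hy2 : |T + Yv| ≤ 19 / 100) (hs : 0 < T → 0 ≤ sR X T) : Go X T Xv Yv := by
  rcases le_total (X + Xv) (95 / 100) with h | h
  · rcases le_total Xv (19 / 100) with h' | h'
    · exact blk c_two_p_000 (by push_cast; linarith only [hX0]) (by push_cast; linarith only [hX1]) (by push_cast; linarith only [hT0])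
        (by push_cast; linarith only [hT1]) (by push_cast; linarith only [hV0]) (by push_cast; linarith only [h'])
        (by push_cast; linarith only [hY0]) (by push_cast; linarith only [hY1]) hf h hy nw0
    · exact blk c_two_p_001 (by push_cast; linarith only [hX0]) (by push_cast; linarith only [hX1]) (by push_cast; linarith only [hT0])
        (by push_cast; linarith only [hT1]) (by push_cast; linarith only [h']) (by push_cast; linarith only [hX0, h])
        (by push_cast; linarith only [hY0]) (by push_cast; linarith only [hY1]) hf h hy nw0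
  rcases le_total (X + Xv) (105 / 100) with h2 | h2
  · exact blk c_two_p_101 (by push_cast; linarith only [hX0]) (by push_cast; linarith only [hX1]) (by push_cast; linarith only [hT0])
        (by push_cast; linarith only [hT1]) (by push_cast; linarith only [hX1, h]) (by push_cast; linarith only [hX0, h2])
        (by push_cast; linarith only [hY0]) (by push_cast; linarith only [hY1]) hf ⟨h, h2⟩ hy nw0
  have h3 : 0 ≤ sR X T + Yv := by
    have := hs (by linarith only [hT0])
    linarith only [hY0, this]
  rcases le_total Xv (50 / 100) with h4 | h4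
  · exact blk c_two_p_202 (by push_cast; linarith only [hX0]) (by push_cast; linarith only [hX1]) (by push_cast; linarith only [hT0])
      (by push_cast; linarith only [hT1]) (by push_cast; linarith only [hX1, h2]) (by push_cast; linarith only [h4])
      (by push_cast; linarith only [hY0]) (by push_cast; linarith only [hY1]) hf ⟨h2, h3⟩ hy nw0
  rcases le_total Xv (60 / 100) with h5 | h5
  · exact blk c_two_p_215 (by push_cast; linarith only [hX0]) (by push_cast; linarith only [hX1]) (by push_cast; linarith only [hT0])
      (by push_cast; linarith only [hT1]) (by push_cast; linarith only [h4]) (by push_cast; linarith only [h5])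
      (by push_cast; linarith only [hY0]) (by push_cast; linarith only [hY1]) hf ⟨h2, h3⟩ hy (nw12 h5 hy2)
  · exact blk c_two_p_236 (by push_cast; linarith only [hX0]) (by push_cast; linarith only [hX1]) (by push_cast; linarith only [hT0])
      (by push_cast; linarith only [hT1]) (by push_cast; linarith only [h5]) (by push_cast; linarith only [hV1])
      (by push_cast; linarith only [hY0]) (by push_cast; linarith only [hY1]) hf ⟨h2, h3⟩ hy nw34

theorem k_twoE_n {X T Xv Yv : ℝ} (hX0 : 6 / 10 ≤ X) (hX1 : X ≤ 8 / 10)
    (hT0 : 6 / 125 ≤ T) (hT1 : T ≤ 197 / 2000) (hV0 : 0 ≤ Xv)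
    (hV1 : Xv ≤ 70 / 100) (hY0 : -(49 / 1000) ≤ Yv) (hY1 : Yv ≤ 0)
    (hf : Rf false 14 35 70 490 210 T Xv Yv) (hy : |sR X T + Yv| ≤ 19 / 100)
    (hy2 : |T + Yv| ≤ 19 / 100) (hs : 0 < T → 0 ≤ sR X T) : Go X T Xv Yv := by
  rcases le_total (X + Xv) (95 / 100) with h | h
  · rcases le_total Xv (19 / 100) with h' | h'
    · exact blk c_twoE_n_000 (by push_cast; linarith only [hX0]) (by push_cast; linarith only [hX1]) (by push_cast; linarith only [hT0])
        (by push_cast; linarith only [hT1]) (by push_cast; linarith only [hV0]) (by push_cast; linarith only [h'])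
        (by push_cast; linarith only [hY0]) (by push_cast; linarith only [hY1]) hf h hy nw0
    · exact blk c_twoE_n_001 (by push_cast; linarith only [hX0]) (by push_cast; linarith only [hX1]) (by push_cast; linarith only [hT0])
        (by push_cast; linarith only [hT1]) (by push_cast; linarith only [h']) (by push_cast; linarith only [hX0, h])
        (by push_cast; linarith only [hY0]) (by push_cast; linarith only [hY1]) hf h hy nw0
  rcases le_total (X + Xv) (105 / 100) with h2 | h2
  · exact blk c_twoE_n_101 (by push_cast; linarith only [hX0]) (by push_cast; linarith only [hX1]) (by push_cast; linarith only [hT0])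
        (by push_cast; linarith only [hT1]) (by push_cast; linarith only [hX1, h]) (by push_cast; linarith only [hX0, h2])
        (by push_cast; linarith only [hY0]) (by push_cast; linarith only [hY1]) hf ⟨h, h2⟩ hy nw0
  rcases le_total 0 (sR X T + Yv) with h3 | h3
  · rcases le_total Xv (50 / 100) with h4 | h4
    · exact blk c_twoE_n_202 (by push_cast; linarith only [hX0]) (by push_cast; linarith only [hX1]) (by push_cast; linarith only [hT0])
        (by push_cast; linarith only [hT1]) (by push_cast; linarith only [hX1, h2]) (by push_cast; linarith only [h4])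
        (by push_cast; linarith only [hY0]) (by push_cast; linarith only [hY1]) hf ⟨h2, h3⟩ hy nw0
    rcases le_total Xv (60 / 100) with h5 | h5
    · exact blk c_twoE_n_215 (by push_cast; linarith only [hX0]) (by push_cast; linarith only [hX1]) (by push_cast; linarith only [hT0])
        (by push_cast; linarith only [hT1]) (by push_cast; linarith only [h4]) (by push_cast; linarith only [h5])
        (by push_cast; linarith only [hY0]) (by push_cast; linarith only [hY1]) hf ⟨h2, h3⟩ hy (nw12 h5 hy2)
    · exact blk c_twoE_n_236 (by push_cast; linarith only [hX0]) (by push_cast; linarith only [hX1]) (by push_cast; linarith only [hT0])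
        (by push_cast; linarith only [hT1]) (by push_cast; linarith only [h5]) (by push_cast; linarith only [hV1])
        (by push_cast; linarith only [hY0]) (by push_cast; linarith only [hY1]) hf ⟨h2, h3⟩ hy nw34
  · rcases le_total Xv (50 / 100) with h4 | h4
    · exact blk c_twoE_n_302 (by push_cast; linarith only [hX0]) (by push_cast; linarith only [hX1]) (by push_cast; linarith only [hT0])
        (by push_cast; linarith only [hT1]) (by push_cast; linarith only [hX1, h2]) (by push_cast; linarith only [h4])
        (by push_cast; linarith only [hY0]) (by push_cast; linarith only [hY1]) hf ⟨h2, h3⟩ hy nw0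
    rcases le_total Xv (60 / 100) with h5 | h5
    · exact blk c_twoE_n_315 (by push_cast; linarith only [hX0]) (by push_cast; linarith only [hX1]) (by push_cast; linarith only [hT0])
        (by push_cast; linarith only [hT1]) (by push_cast; linarith only [h4]) (by push_cast; linarith only [h5])
        (by push_cast; linarith only [hY0]) (by push_cast; linarith only [hY1]) hf ⟨h2, h3⟩ hy (nw12 h5 hy2)
    · exact blk c_twoE_n_336 (by push_cast; linarith only [hX0]) (by push_cast; linarith only [hX1]) (by push_cast; linarith only [hT0])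
        (by push_cast; linarith only [hT1]) (by push_cast; linarith only [h5]) (by push_cast; linarith only [hV1])
        (by push_cast; linarith only [hY0]) (by push_cast; linarith only [hY1]) hf ⟨h2, h3⟩ hy nw34

theorem k_three_p {X T Xv Yv : ℝ} (hX0 : 6 / 10 ≤ X) (hX1 : X ≤ 8 / 10)
    (hT0 : 1 / 100 ≤ T) (hT1 : T ≤ 77 / 1000) (hV0 : 0 ≤ Xv)
    (hV1 : Xv ≤ 65 / 100) (hY0 : 0 ≤ Yv) (hY1 : Yv ≤ 47 / 500)
    (hf : Rf true 13 15 65 940 1480 T Xv Yv) (hy : |sR X T + Yv| ≤ 19 / 100)
    (hy2 : |T + Yv| ≤ 19 / 100) (hs : 0 < T → 0 ≤ sR X T) : Go X T Xv Yv := by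
  rcases le_total (X + Xv) (95 / 100) with h | h
  · rcases le_total Xv (19 / 100) with h' | h'
    · exact blk c_three_p_000 (by push_cast; linarith only [hX0]) (by push_cast; linarith only [hX1]) (by push_cast; linarith only [hT0])
        (by push_cast; linarith only [hT1]) (by push_cast; linarith only [hV0]) (by push_cast; linarith only [h'])
        (by push_cast; linarith only [hY0]) (by push_cast; linarith only [hY1]) hf h hy nw0
    · exact blk c_three_p_001 (by push_cast; linarith only [hX0]) (by push_cast; linarith only [hX1]) (by push_cast; linarith only [hT0])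
        (by push_cast; linarith only [hT1]) (by push_cast; linarith only [h']) (by push_cast; linarith only [hX0, h])
        (by push_cast; linarith only [hY0]) (by push_cast; linarith only [hY1]) hf h hy nw0
  rcases le_total (X + Xv) (105 / 100) with h2 | h2
  · exact blk c_three_p_101 (by push_cast; linarith only [hX0]) (by push_cast; linarith only [hX1]) (by push_cast; linarith only [hT0])
        (by push_cast; linarith only [hT1]) (by push_cast; linarith only [hX1, h]) (by push_cast; linarith only [hX0, h2])
        (by push_cast; linarith only [hY0]) (by push_cast; linarith only [hY1]) hf ⟨h, h2⟩ hy nw0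
  have h3 : 0 ≤ sR X T + Yv := by
    have := hs (by linarith only [hT0])
    linarith only [hY0, this]
  rcases le_total Xv (50 / 100) with h4 | h4
  · exact blk c_three_p_202 (by push_cast; linarith only [hX0]) (by push_cast; linarith only [hX1]) (by push_cast; linarith only [hT0])
      (by push_cast; linarith only [hT1]) (by push_cast; linarith only [hX1, h2]) (by push_cast; linarith only [h4])
      (by push_cast; linarith only [hY0]) (by push_cast; linarith only [hY1]) hf ⟨h2, h3⟩ hy nw0
  rcases le_total Xv (60 / 100) with h5 | h5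
  · exact blk c_three_p_215 (by push_cast; linarith only [hX0]) (by push_cast; linarith only [hX1]) (by push_cast; linarith only [hT0])
      (by push_cast; linarith only [hT1]) (by push_cast; linarith only [h4]) (by push_cast; linarith only [h5])
      (by push_cast; linarith only [hY0]) (by push_cast; linarith only [hY1]) hf ⟨h2, h3⟩ hy (nw12 h5 hy2)
  · exact blk c_three_p_236 (by push_cast; linarith only [hX0]) (by push_cast; linarith only [hX1]) (by push_cast; linarith only [hT0])
      (by push_cast; linarith only [hT1]) (by push_cast; linarith only [h5]) (by push_cast; linarith only [hV1])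
      (by push_cast; linarith only [hY0]) (by push_cast; linarith only [hY1]) hf ⟨h2, h3⟩ hy nw34

theorem k_threeE_p {X T Xv Yv : ℝ} (hX0 : 6 / 10 ≤ X) (hX1 : X ≤ 8 / 10)
    (hT0 : 4 / 125 ≤ T) (hT1 : T ≤ 91 / 1000) (hV0 : 0 ≤ Xv)
    (hV1 : Xv ≤ 60 / 100) (hY0 : 0 ≤ Yv) (hY1 : Yv ≤ 59 / 1000)
    (hf : Rf true 14 25 60 590 1340 T Xv Yv) (hy : |sR X T + Yv| ≤ 19 / 100)
    (hy2 : |T + Yv| ≤ 19 / 100) (hs : 0 < T → 0 ≤ sR X T) : Go X T Xv Yv := by
  rcases le_total (X + Xv) (95 / 100) with h | h
  · rcases le_total Xv (19 / 100) with h' | h'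
    · exact blk c_threeE_p_000 (by push_cast; linarith only [hX0]) (by push_cast; linarith only [hX1]) (by push_cast; linarith only [hT0])
        (by push_cast; linarith only [hT1]) (by push_cast; linarith only [hV0]) (by push_cast; linarith only [h'])
        (by push_cast; linarith only [hY0]) (by push_cast; linarith only [hY1]) hf h hy nw0
    · exact blk c_threeE_p_001 (by push_cast; linarith only [hX0]) (by push_cast; linarith only [hX1]) (by push_cast; linarith only [hT0])
        (by push_cast; linarith only [hT1]) (by push_cast; linarith only [h']) (by push_cast; linarith only [hX0, h])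
        (by push_cast; linarith only [hY0]) (by push_cast; linarith only [hY1]) hf h hy nw0
  rcases le_total (X + Xv) (105 / 100) with h2 | h2
  · exact blk c_threeE_p_101 (by push_cast; linarith only [hX0]) (by push_cast; linarith only [hX1]) (by push_cast; linarith only [hT0])
        (by push_cast; linarith only [hT1]) (by push_cast; linarith only [hX1, h]) (by push_cast; linarith only [hX0, h2])
        (by push_cast; linarith only [hY0]) (by push_cast; linarith only [hY1]) hf ⟨h, h2⟩ hy nw0
  have h3 : 0 ≤ sR X T + Yv := by
    have := hs (by linarith only [hT0])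
    linarith only [hY0, this]
  rcases le_total Xv (50 / 100) with h4 | h4
  · exact blk c_threeE_p_202 (by push_cast; linarith only [hX0]) (by push_cast; linarith only [hX1]) (by push_cast; linarith only [hT0])
      (by push_cast; linarith only [hT1]) (by push_cast; linarith only [hX1, h2]) (by push_cast; linarith only [h4])
      (by push_cast; linarith only [hY0]) (by push_cast; linarith only [hY1]) hf ⟨h2, h3⟩ hy nw0
  exact blk c_threeE_p_215 (by push_cast; linarith only [hX0]) (by push_cast; linarith only [hX1]) (by push_cast; linarith only [hT0])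
      (by push_cast; linarith only [hT1]) (by push_cast; linarith only [h4]) (by push_cast; linarith only [hV1])
      (by push_cast; linarith only [hY0]) (by push_cast; linarith only [hY1]) hf ⟨h2, h3⟩ hy (nw12 (by linarith only [hV1]) hy2)

theorem k_ring_p {X T Xv Yv : ℝ} (hX0 : 6 / 10 ≤ X) (hX1 : X ≤ 8 / 10)
    (hT0 : -(1 / 125) ≤ T) (hT1 : T ≤ 2 / 25) (hV0 : 0 ≤ Xv)
    (hV1 : Xv ≤ 65 / 100) (hY0 : 0 ≤ Yv) (hY1 : Yv ≤ 29 / 200)
    (hf : Rf true 16 29 65 1450 1870 T Xv Yv) (hy : |sR X T + Yv| ≤ 19 / 100)
    (hy2 : |T + Yv| ≤ 19 / 100) (hs : 0 < T → 0 ≤ sR X T) : Go X T Xv Yv := by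
  rcases le_total (X + Xv) (95 / 100) with h | h
  · rcases le_total Xv (19 / 100) with h' | h'
    · exact blk c_ring_p_000 (by push_cast; linarith only [hX0]) (by push_cast; linarith only [hX1]) (by push_cast; linarith only [hT0])
        (by push_cast; linarith only [hT1]) (by push_cast; linarith only [hV0]) (by push_cast; linarith only [h'])
        (by push_cast; linarith only [hY0]) (by push_cast; linarith only [hY1]) hf h hy nw0
    · exact blk c_ring_p_001 (by push_cast; linarith only [hX0]) (by push_cast; linarith only [hX1]) (by push_cast; linarith only [hT0])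
        (by push_cast; linarith only [hT1]) (by push_cast; linarith only [h']) (by push_cast; linarith only [hX0, h])
        (by push_cast; linarith only [hY0]) (by push_cast; linarith only [hY1]) hf h hy nw0
  rcases le_total (X + Xv) (105 / 100) with h2 | h2
  · exact blk c_ring_p_101 (by push_cast; linarith only [hX0]) (by push_cast; linarith only [hX1]) (by push_cast; linarith only [hT0])
        (by push_cast; linarith only [hT1]) (by push_cast; linarith only [hX1, h]) (by push_cast; linarith only [hX0, h2])
        (by push_cast; linarith only [hY0]) (by push_cast; linarith only [hY1]) hf ⟨h, h2⟩ hy nw0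
  rcases le_total 0 (sR X T + Yv) with h3 | h3
  · rcases le_total Xv (50 / 100) with h4 | h4
    · exact blk c_ring_p_202 (by push_cast; linarith only [hX0]) (by push_cast; linarith only [hX1]) (by push_cast; linarith only [hT0])
        (by push_cast; linarith only [hT1]) (by push_cast; linarith only [hX1, h2]) (by push_cast; linarith only [h4])
        (by push_cast; linarith only [hY0]) (by push_cast; linarith only [hY1]) hf ⟨h2, h3⟩ hy nw0
    rcases le_total Xv (60 / 100) with h5 | h5
    · exact blk c_ring_p_215 (by push_cast; linarith only [hX0]) (by push_cast; linarith only [hX1]) (by push_cast; linarith only [hT0])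
        (by push_cast; linarith only [hT1]) (by push_cast; linarith only [h4]) (by push_cast; linarith only [h5])
        (by push_cast; linarith only [hY0]) (by push_cast; linarith only [hY1]) hf ⟨h2, h3⟩ hy (nw12 h5 hy2)
    · exact blk c_ring_p_236 (by push_cast; linarith only [hX0]) (by push_cast; linarith only [hX1]) (by push_cast; linarith only [hT0])
        (by push_cast; linarith only [hT1]) (by push_cast; linarith only [h5]) (by push_cast; linarith only [hV1])
        (by push_cast; linarith only [hY0]) (by push_cast; linarith only [hY1]) hf ⟨h2, h3⟩ hy nw34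
  · rcases le_total Xv (50 / 100) with h4 | h4
    · exact blk c_ring_p_302 (by push_cast; linarith only [hX0]) (by push_cast; linarith only [hX1]) (by push_cast; linarith only [hT0])
        (by push_cast; linarith only [hT1]) (by push_cast; linarith only [hX1, h2]) (by push_cast; linarith only [h4])
        (by push_cast; linarith only [hY0]) (by push_cast; linarith only [hY1]) hf ⟨h2, h3⟩ hy nw0
    rcases le_total Xv (60 / 100) with h5 | h5
    · exact blk c_ring_p_315 (by push_cast; linarith only [hX0]) (by push_cast; linarith only [hX1]) (by push_cast; linarith only [hT0])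
        (by push_cast; linarith only [hT1]) (by push_cast; linarith only [h4]) (by push_cast; linarith only [h5])
        (by push_cast; linarith only [hY0]) (by push_cast; linarith only [hY1]) hf ⟨h2, h3⟩ hy (nw12 h5 hy2)
    · exact blk c_ring_p_336 (by push_cast; linarith only [hX0]) (by push_cast; linarith only [hX1]) (by push_cast; linarith only [hT0])
        (by push_cast; linarith only [hT1]) (by push_cast; linarith only [h5]) (by push_cast; linarith only [hV1])
        (by push_cast; linarith only [hY0]) (by push_cast; linarith only [hY1]) hf ⟨h2, h3⟩ hy nw34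

theorem wrow {X T w : ℝ} (hX0 : 6 / 10 ≤ X) (hX1 : X ≤ 8 / 10) (hT0 : -(18 / 1000) ≤ T)
    (hT1 : T ≤ 985 / 10000) (hw : 0 ≤ w) (hw1 : w ≤ 27 / 100) (hs : |sR X T| ≤ 13 / 100) :
    0 < uu (w + 45 / 100) T - uu (X + w) (sR X T) - Real.pi * (w * (T - sR X T)) -
      (uu (45 / 100) T - uu X (sR X T)) + 3 / 1000 := by
  rcases le_total (X + w) (93 / 100) with h | h
  · obtain ⟨z, hz, hp⟩ := chkT3 (N := 10000) (x := X) (y := T) (z := w) c_w0 (by norm_num)
      (by push_cast; linarith only [hX0]) (by push_cast; linarith only [hX1]) (by push_cast; linarith only [hT0])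
      (by push_cast; linarith only [hT1]) (by push_cast; linarith only [hw]) (by push_cast; linarith only [hw1])
    simp only [List.mem_cons, List.not_mem_nil, or_false] at hz
    rcases hz with rfl | rfl
    · simp only [wE, E.val, sE_val3, NumI.lkR] at hp
      norm_num at hp ⊢
      linarith only [hp]
    · exfalso
      simp only [E.val, NumI.lkR] at hp
      norm_num at hp
      linarith only [h, hp]
  · obtain ⟨z, hz, hp⟩ := chkT3 (N := 10000) (x := X) (y := T) (z := w) c_w1 (by norm_num)
      (by push_cast; linarith only [hX0]) (by push_cast; linarith only [hX1]) (by push_cast; linarith only [hT0])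
      (by push_cast; linarith only [hT1]) (by push_cast; linarith only [hX1, h]) (by push_cast; linarith only [hw1])
    simp only [List.mem_cons, List.not_mem_nil, or_false] at hz
    rcases hz with rfl | rfl
    · have := UA.anti1 UA.kc_7_13 (by norm_num) (a := 93 / 100) (b := X + w) (y := sR X T)
        (by norm_num) h (by linarith only [hX1, hw1]) hs
      simp only [wE, E.val, sE_val3, NumI.lkR] at hp
      norm_num at hp this ⊢
      linarith only [hp, this]
    · exfalso
      simp only [E.val, NumI.lkR] at hp
      norm_num at hp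
      linarith only [h, hp]

theorem sR_bd {X T : ℝ} (hX0 : 6 / 10 ≤ X) (hX1 : X ≤ 8 / 10) : |sR X T| ≤ 7 / 10 * |T| ∧
    (0 ≤ T → 0 ≤ sR X T ∧ sR X T ≤ T) ∧ (T ≤ 0 → sR X T ≤ 0 ∧ T ≤ sR X T) := by
  have h0 : 0 ≤ (8 / 10 - X) / (29 / 100) := by
    apply div_nonneg
    · linarith only [hX1]
    · norm_num
  have h1 : (8 / 10 - X) / (29 / 100) ≤ 7 / 10 := by
    rw [div_le_iff₀ (by norm_num)]
    linarith only [hX0]
  unfold sR
  generalize (8 / 10 - X) / (29 / 100) = r at *
  refine ⟨?_, fun h => ⟨mul_nonneg h h0, ?_⟩, fun h => ⟨mul_nonpos_of_nonpos_of_nonneg h h0, ?_⟩⟩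
  · rw [abs_mul, abs_of_nonneg h0, mul_comm]
    exact mul_le_mul_of_nonneg_right h1 (abs_nonneg _)
  · nlinarith only [h1, h]
  · nlinarith only [h1, h]

theorem pV1 (x t y k : ℝ) : V1 ⟨x, t⟩ ⟨y, k⟩ =
    Real.pi * (x * k + y * t - t - k) + uu (x + y) (t + k) - uu x t - uu y k := by
  unfold V1
  simp only [UU_uu, Complex.add_re, Complex.add_im, Complex.sub_im, Complex.mul_im]
  ring

theorem pV2 (x t y k : ℝ) : V2 ⟨x, t⟩ ⟨y, k⟩ =
    uu (x + y) (t + k) - Real.pi * ((x - y) * (t - k) + 1 / 2 * (t + k)) -
      2 * (uu x t + uu y k) := by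
  unfold V2
  simp only [UU_uu, Complex.add_re, Complex.add_im, Complex.sub_re, Complex.sub_im, pow_two,
    Complex.mul_im]
  ring

theorem main {w X T Xv Yv : ℝ} (hX0 : 6 / 10 ≤ X) (hX1 : X ≤ 8 / 10) (hT0 : -(18 / 1000) ≤ T)
    (hT1 : T ≤ 985 / 10000) (hw : 0 ≤ w) (hw1 : w ≤ 27 / 100) (h : Go X T Xv Yv) :
    V2 ⟨w, 0⟩ ⟨X, -(sR X T)⟩ + V1 ⟨X, sR X T⟩ ⟨Xv, Yv⟩ <
    V2 ⟨w, 0⟩ ⟨9 / 20, -T⟩ + V1 ⟨9 / 20, T⟩ ⟨Xv, Yv⟩ := by
  have hT : |T| ≤ 985 / 10000 := by
    rw [abs_le]
    constructor <;> linarith only [hT0, hT1]
  obtain ⟨h1, -, -⟩ := sR_bd (T := T) hX0 hX1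
  have h2 := wrow hX0 hX1 hT0 hT1 hw hw1 (by linarith only [hT, h1])
  rw [pV1, pV1, pV2, pV2]
  unfold Go cR at h
  rw [zero_add, zero_add, uu_neg, uu_neg, uu_neg, uu_neg]
  have e1 : (9 / 20 : ℝ) = 45 / 100 := by norm_num
  rw [e1, show 45 / 100 + Xv = Xv + 45 / 100 by ring]
  rw [show w + X = X + w by ring]
  have e2 : Real.pi * ((w - X) * (0 - -(sR X T)) + 1 / 2 * -(sR X T)) =
    Real.pi * (w * sR X T) - Real.pi * (X * sR X T) - Real.pi * (1 / 2 * sR X T) := by ring
  have e3 : Real.pi * ((w - 45 / 100) * (0 - -T) + 1 / 2 * -T) =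
    Real.pi * (w * T) - Real.pi * (45 / 100 * T) - Real.pi * (1 / 2 * T) := by ring
  have e4 : Real.pi * (w * (T - sR X T)) = Real.pi * (w * T) - Real.pi * (w * sR X T) := by ring
  have e5 : Real.pi * (X * Yv + Xv * sR X T - sR X T - Yv) = Real.pi * (X * Yv) +
    Real.pi * (Xv * sR X T) - Real.pi * sR X T - Real.pi * Yv := by ring
  have e6 : Real.pi * (45 / 100 * Yv + Xv * T - T - Yv) = Real.pi * (45 / 100 * Yv) +
    Real.pi * (Xv * T) - Real.pi * T - Real.pi * Yv := by ring
  have e7 : Real.pi * ((X + Xv - 1 / 2) * sR X T + (X - 45 / 100) * Yv - (Xv - 5 / 100) * T) =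
    Real.pi * (X * sR X T) + Real.pi * (Xv * sR X T) - Real.pi * (1 / 2 * sR X T) +
    Real.pi * (X * Yv) - Real.pi * (45 / 100 * Yv) - Real.pi * (Xv * T) +
    Real.pi * (5 / 100 * T) := by ring
  rw [e2, e3, e5, e6]
  rw [e4] at h2
  rw [e7] at h
  linarith only [h, h2]

end P6

open P6 in
/-- an untouched two with a real hinge `w`, its other hinge is next to a digit one and far to the
right: move it to `9/20`. -/
theorem pre_two {D : Cl} {w X T Xv Yv : ℝ} (hw : 0 ≤ w) (hw1 : w ≤ 27 / 100)
    (h0 : 6 / 10 ≤ X) (h1 : X ≤ 8 / 10) (t0 : (cw D .two).t0 ≤ T) (t1 : T ≤ (cw D .two).t1)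
    (hv : RgO .two D T Xv Yv) :
    V2 ⟨w, 0⟩ ⟨X, -(T * ((8 / 10 - X) / (29 / 100)))⟩ +
      V1 ⟨X, T * ((8 / 10 - X) / (29 / 100))⟩ ⟨Xv, Yv⟩ <
    V2 ⟨w, 0⟩ ⟨9 / 20, -T⟩ + V1 ⟨9 / 20, T⟩ ⟨Xv, Yv⟩ := by
  obtain ⟨v0, v1, T', a0, a1, b0, b1, hY⟩ := hv
  obtain ⟨r1, r2, r3⟩ := sR_bd (T := T) h0 h1
  rcases D with _ | _ | _ | _ | _ | _
  all_goals simp only [cw, pM, pa, pb, if_neg (show ¬ (Cl.two = Cl.one) by decide)] at t0 t1 a0 a1 b0 b1 v1 hY
  all_goals norm_num at t0 t1 a0 a1 b0 b1 v1
  · rcases hY with ⟨y0, y1, y2, y3⟩ | ⟨y0, y1, y2, y3⟩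
    · refine main h0 h1 (by linarith only [t0]) (by linarith only [t1]) hw hw1 (k_one_p h0 h1 (by linarith only [t0]) (by linarith only [t1]) v0
      (by linarith only [v1]) (by linarith only [y0]) (by linarith only [a1, y1]) ?_ ?_ ?_ fun hh => (r2 hh.le).1)
      · unfold Rf
        rw [cond_true]
        push_cast
        refine ⟨?_, ?_, ?_⟩
        · nlinarith only [v0, a1, y2]
        · nlinarith only [a1, v1, y3]
        · linarith only [b1, y1]
      · rw [abs_le]
        rcases le_total 0 T with g | g
        · have := r2 g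
          constructor <;> linarith only [y0, this, t1, a1, y1]
        · have := r3 g
          constructor <;> linarith only [t0, y0, this, a1, y1]
      · rw [abs_le]
        constructor <;> linarith only [t0, y0, t1, a1, y1]
    · refine main h0 h1 (by linarith only [t0]) (by linarith only [t1]) hw hw1 (k_one_n h0 h1 (by linarith only [t0]) (by linarith only [t1]) v0
      (by linarith only [v1]) (by linarith only [a0, y1]) (by linarith only [y0]) ?_ ?_ ?_ fun hh => (r2 hh.le).1)
      · unfold Rf
        rw [cond_false]
        push_cast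
        refine ⟨?_, ?_, ?_⟩
        · nlinarith only [v0, a0, y2]
        · nlinarith only [a0, v1, y3]
        · linarith only [b0, y1]
      · rw [abs_le]
        rcases le_total 0 T with g | g
        · have := r2 g
          constructor <;> linarith only [a0, y1, this, t1, y0]
        · have := r3 g
          constructor <;> linarith only [b0, y1, this, y0]
      · rw [abs_le]
        constructor <;> linarith only [b0, y1, t1, y0]
  · rcases hY with ⟨y0, y1, y2, y3⟩ | ⟨y0, y1, y2, y3⟩
    · refine main h0 h1 (by linarith only [t0]) (by linarith only [t1]) hw hw1 (k_two_p h0 h1 (by linarith only [t0]) (by linarith only [t1]) v0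
      (by linarith only [v1]) (by linarith only [y0]) (by linarith only [a1, y1]) ?_ ?_ ?_ fun hh => (r2 hh.le).1)
      · unfold Rf
        rw [cond_true]
        push_cast
        refine ⟨?_, ?_, ?_⟩
        · nlinarith only [v0, a1, y2]
        · nlinarith only [a1, v1, y3]
        · linarith only [b1, y1]
      · rw [abs_le]
        rcases le_total 0 T with g | g
        · have := r2 g
          constructor <;> linarith only [y0, this, t1, a1, y1]
        · have := r3 g
          constructor <;> linarith only [t0, g]
      · rw [abs_le]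
        constructor <;> linarith only [t0, y0, t1, a1, y1]
    · exfalso
      linarith only [a0, y0, y1]
  · rcases hY with ⟨y0, y1, y2, y3⟩ | ⟨y0, y1, y2, y3⟩
    · exfalso
      linarith only [a1, y0, y1]
    · refine main h0 h1 (by linarith only [t0]) (by linarith only [t1]) hw hw1 (k_twoE_n h0 h1 (by linarith only [t0]) (by linarith only [t1]) v0
      (by linarith only [v1]) (by linarith only [a0, y1]) (by linarith only [y0]) ?_ ?_ ?_ fun hh => (r2 hh.le).1)
      · unfold Rf
        rw [cond_false]
        push_cast
        refine ⟨?_, ?_, ?_⟩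
        · nlinarith only [v0, a0, y2]
        · nlinarith only [a0, v1, y3]
        · linarith only [b0, y1]
      · rw [abs_le]
        rcases le_total 0 T with g | g
        · have := r2 g
          constructor <;> linarith only [a0, y1, this, t1, y0]
        · have := r3 g
          constructor <;> linarith only [t0, g]
      · rw [abs_le]
        constructor <;> linarith only [b0, y1, t1, y0]
  · rcases hY with ⟨y0, y1, y2, y3⟩ | ⟨y0, y1, y2, y3⟩
    · refine main h0 h1 (by linarith only [t0]) (by linarith only [t1]) hw hw1 (k_three_p h0 h1 (by linarith only [t0]) (by linarith only [t1]) v0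
      (by linarith only [v1]) (by linarith only [y0]) (by linarith only [a1, y1]) ?_ ?_ ?_ fun hh => (r2 hh.le).1)
      · unfold Rf
        rw [cond_true]
        push_cast
        refine ⟨?_, ?_, ?_⟩
        · nlinarith only [v0, a1, y2]
        · nlinarith only [a1, v1, y3]
        · linarith only [b1, y1]
      · rw [abs_le]
        rcases le_total 0 T with g | g
        · have := r2 g
          constructor <;> linarith only [y0, this, t1, a1, y1]
        · have := r3 g
          constructor <;> linarith only [t0, g]
      · rw [abs_le]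
        constructor <;> linarith only [t0, y0, t1, a1, y1]
    · exfalso
      linarith only [a0, y0, y1]
  · rcases hY with ⟨y0, y1, y2, y3⟩ | ⟨y0, y1, y2, y3⟩
    · refine main h0 h1 (by linarith only [t0]) (by linarith only [t1]) hw hw1 (k_threeE_p h0 h1 (by linarith only [t0]) (by linarith only [t1]) v0
      (by linarith only [v1]) (by linarith only [y0]) (by linarith only [a1, y1]) ?_ ?_ ?_ fun hh => (r2 hh.le).1)
      · unfold Rf
        rw [cond_true]
        push_cast
        refine ⟨?_, ?_, ?_⟩
        · nlinarith only [v0, a1, y2]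
        · nlinarith only [a1, v1, y3]
        · linarith only [b1, y1]
      · rw [abs_le]
        rcases le_total 0 T with g | g
        · have := r2 g
          constructor <;> linarith only [y0, this, t1, a1, y1]
        · have := r3 g
          constructor <;> linarith only [t0, g]
      · rw [abs_le]
        constructor <;> linarith only [t0, y0, t1, a1, y1]
    · exfalso
      linarith only [a0, y0, y1]
  · rcases hY with ⟨y0, y1, y2, y3⟩ | ⟨y0, y1, y2, y3⟩
    · refine main h0 h1 (by linarith only [t0]) (by linarith only [t1]) hw hw1 (k_ring_p h0 h1 (by linarith only [t0]) (by linarith only [t1]) v0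
      (by linarith only [v1]) (by linarith only [y0]) (by linarith only [a1, y1]) ?_ ?_ ?_ fun hh => (r2 hh.le).1)
      · unfold Rf
        rw [cond_true]
        push_cast
        refine ⟨?_, ?_, ?_⟩
        · nlinarith only [v0, a1, y2]
        · nlinarith only [a1, v1, y3]
        · linarith only [b1, y1]
      · rw [abs_le]
        rcases le_total 0 T with g | g
        · have := r2 g
          constructor <;> linarith only [y0, this, b1, y1]
        · have := r3 g
          constructor <;> linarith only [t0, y0, this, a1, y1]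
      · rw [abs_le]
        constructor <;> linarith only [t0, y0, b1, y1]
    · exfalso
      linarith only [a0, y0, y1]

end TL

end Pool.Agent.Work.MP_b30479_gt.G2
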