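import Pool.Agent.Work.MP_b30479_gt.G2.TK2a
import Pool.Agent.Work.MP_b30479_gt.G2.WLocX
import Pool.Agent.Work.NumU.ChkS

/-!
# Tails, part 6: a digit `1` with a real hinge next to a two at an end

`pre_twoE`: moving the hinge next to the two to `7/50` increases the value.
-/

namespace Pool.Agent.Work.MP_b30479_gt.G2

open VOL SR NumU

namespace TL

section
open NumI (V)
open NumU.E

/-- variables `w, X, T` -/
private def Y6 : E := mul (mul (var 2) (var 1)) (q 50 7)
private def P61 : E := add (sub (uu (add (var 0) (q 7 50)) (var 2)) (mul (q 2 1) (uu (q 7 50) (var 2))))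
  (mul pi (mul (var 2) (sub (var 0) (q 36 100))))
private def P62 : E := sub (add (mul (q 2 1) (uu (var 1) Y6)) (mul pi (mul Y6
  (sub (q 1 2) (add (var 0) (var 1)))))) (uu (add (var 0) (var 1)) Y6)
private def P63 : E := sub (sub (sub (mul pi (mul Y6 (sub (q 1 2) (add (var 0) (var 1)))))
  (uu (add (var 0) (var 1)) Y6)) (q 216 10000)) (mul (q (-4) 1) Y6)
private def P64 : E := sub (sub (mul pi (mul Y6 (sub (q 1 2) (add (var 0) (var 1)))))
  (q 216 10000)) (mul (q (-4) 1) Y6)

theorem k61_h1_q1 : chk [add P61 P62] 25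
    (NumI.setL 1 (NumI.setL 0 (NumI.setL 0 (NumI.setL 0 (NumI.setL 0 [V.of 100000 0 65000, V.of 100000 200 8000,
    V.of 100000 (-4500) (-1100)]))))) = true := by
  decide +kernel

theorem k61_h1_q2 : chk [add P61 P62] 25
    (NumI.setR 1 (NumI.setL 0 (NumI.setL 0 (NumI.setL 0 (NumI.setL 0 [V.of 100000 0 65000, V.of 100000 200 8000,
    V.of 100000 (-4500) (-1100)]))))) = true := by
  decide +kernel

theorem k61_h1_q3 : chk [add P61 P62] 26
    (NumI.setR 0 (NumI.setL 0 (NumI.setL 0 (NumI.setL 0 [V.of 100000 0 65000, V.of 100000 200 8000,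
    V.of 100000 (-4500) (-1100)])))) = true := by
  decide +kernel

theorem k61_h1_q4 : chk [add P61 P62] 26
    (NumI.setL 0 (NumI.setR 0 (NumI.setL 0 (NumI.setL 0 [V.of 100000 0 65000, V.of 100000 200 8000,
    V.of 100000 (-4500) (-1100)])))) = true := by
  decide +kernel

theorem k61_h1_q5 : chk [add P61 P62] 26
    (NumI.setR 0 (NumI.setR 0 (NumI.setL 0 (NumI.setL 0 [V.of 100000 0 65000, V.of 100000 200 8000,
    V.of 100000 (-4500) (-1100)])))) = true := by
  decide +kernel

theorem k61_h1_q6 : chk [add P61 P62] 26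
    (NumI.setL 0 (NumI.setL 0 (NumI.setR 0 (NumI.setL 0 [V.of 100000 0 65000, V.of 100000 200 8000,
    V.of 100000 (-4500) (-1100)])))) = true := by
  decide +kernel

theorem k61_h1_q7 : chk [add P61 P62] 26
    (NumI.setR 0 (NumI.setL 0 (NumI.setR 0 (NumI.setL 0 [V.of 100000 0 65000, V.of 100000 200 8000,
    V.of 100000 (-4500) (-1100)])))) = true := by
  decide +kernel

theorem k61_h1_q8 : chk [add P61 P62] 26
    (NumI.setL 0 (NumI.setR 0 (NumI.setR 0 (NumI.setL 0 [V.of 100000 0 65000, V.of 100000 200 8000,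
    V.of 100000 (-4500) (-1100)])))) = true := by
  decide +kernel

theorem k61_h1_q9 : chk [add P61 P62] 26
    (NumI.setR 0 (NumI.setR 0 (NumI.setR 0 (NumI.setL 0 [V.of 100000 0 65000, V.of 100000 200 8000,
    V.of 100000 (-4500) (-1100)])))) = true := by
  decide +kernel

theorem k61_h1_q10 : chk [add P61 P62] 26
    (NumI.setL 0 (NumI.setL 0 (NumI.setL 0 (NumI.setR 0 [V.of 100000 0 65000, V.of 100000 200 8000,
    V.of 100000 (-4500) (-1100)])))) = true := by
  decide +kernel

theorem k61_h1_q11 : chk [add P61 P62] 26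
    (NumI.setR 0 (NumI.setL 0 (NumI.setL 0 (NumI.setR 0 [V.of 100000 0 65000, V.of 100000 200 8000,
    V.of 100000 (-4500) (-1100)])))) = true := by
  decide +kernel

theorem k61_h1_q12 : chk [add P61 P62] 26
    (NumI.setL 0 (NumI.setR 0 (NumI.setL 0 (NumI.setR 0 [V.of 100000 0 65000, V.of 100000 200 8000,
    V.of 100000 (-4500) (-1100)])))) = true := by
  decide +kernel

theorem k61_h1_q13 : chk [add P61 P62] 26
    (NumI.setR 0 (NumI.setR 0 (NumI.setL 0 (NumI.setR 0 [V.of 100000 0 65000, V.of 100000 200 8000,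
    V.of 100000 (-4500) (-1100)])))) = true := by
  decide +kernel

theorem k61_h1_q14 : chk [add P61 P62] 26
    (NumI.setL 0 (NumI.setL 0 (NumI.setR 0 (NumI.setR 0 [V.of 100000 0 65000, V.of 100000 200 8000,
    V.of 100000 (-4500) (-1100)])))) = true := by
  decide +kernel

theorem k61_h1_q15 : chk [add P61 P62] 26
    (NumI.setR 0 (NumI.setL 0 (NumI.setR 0 (NumI.setR 0 [V.of 100000 0 65000, V.of 100000 200 8000,
    V.of 100000 (-4500) (-1100)])))) = true := by
  decide +kernel

theorem k61_h1_q16 : chk [add P61 P62] 26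
    (NumI.setL 0 (NumI.setR 0 (NumI.setR 0 (NumI.setR 0 [V.of 100000 0 65000, V.of 100000 200 8000,
    V.of 100000 (-4500) (-1100)])))) = true := by
  decide +kernel

theorem k61_h1_q17 : chk [add P61 P62] 26
    (NumI.setR 0 (NumI.setR 0 (NumI.setR 0 (NumI.setR 0 [V.of 100000 0 65000, V.of 100000 200 8000,
    V.of 100000 (-4500) (-1100)])))) = true := by
  decide +kernel

private theorem k61 : chk [add P61 P62] 30 [V.of 100000 0 65000, V.of 100000 200 8000,
    V.of 100000 (-4500) (-1100)] = true :=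
  NumU.chk_node (i := 0) (by decide +kernel)
    (NumU.chk_node (i := 0) (by decide +kernel)
      (NumU.chk_node (i := 0) (by decide +kernel)
        (NumU.chk_node (i := 0) (by decide +kernel)
          (NumU.chk_node (i := 1) (by decide +kernel)
            k61_h1_q1
            k61_h1_q2)
          k61_h1_q3)
        (NumU.chk_node (i := 0) (by decide +kernel)
          k61_h1_q4
          k61_h1_q5))
      (NumU.chk_node (i := 0) (by decide +kernel)
        (NumU.chk_node (i := 0) (by decide +kernel)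
          k61_h1_q6
          k61_h1_q7)
        (NumU.chk_node (i := 0) (by decide +kernel)
          k61_h1_q8
          k61_h1_q9)))
    (NumU.chk_node (i := 0) (by decide +kernel)
      (NumU.chk_node (i := 0) (by decide +kernel)
        (NumU.chk_node (i := 0) (by decide +kernel)
          k61_h1_q10
          k61_h1_q11)
        (NumU.chk_node (i := 0) (by decide +kernel)
          k61_h1_q12
          k61_h1_q13))
      (NumU.chk_node (i := 0) (by decide +kernel)
        (NumU.chk_node (i := 0) (by decide +kernel)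
          k61_h1_q14
          k61_h1_q15)
        (NumU.chk_node (i := 0) (by decide +kernel)
          k61_h1_q16
          k61_h1_q17)))
private theorem k62 : chk [add P61 P63] 30 [V.of 100000 200 65000, V.of 100000 0 200,
    V.of 100000 (-4500) (-1100)] = true := by decide +kernel
private theorem k63 : chk [add P61 P64] 30 [V.of 100000 0 200, V.of 100000 0 200,
    V.of 100000 (-4500) (-1100)] = true := by decide +kernel
private theorem k64 : chk [add (uu (q 2 1000) (q 0 1)) (q 1080 100000)] 30 [V.of 1 0 0] = true := by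
  decide +kernel

end

private theorem core1 {w X T Y : ℝ} (hY : Y = T * X * (50 / 7)) (w0 : 0 ≤ w) (w1 : w ≤ 65 / 100)
    (x0 : 2 / 1000 ≤ X) (x1 : X ≤ 8 / 100) (t0 : -(45 / 1000) ≤ T) (t1 : T ≤ -(11 / 1000)) :
    0 < uu (w + 7 / 50) T - 2 * uu (7 / 50) T + Real.pi * (T * (w - 36 / 100)) +
      (2 * uu X Y + Real.pi * (Y * (1 / 2 - (w + X))) - uu (w + X) Y) := by
  have h := pos_of_chk (chk3 k61 (by norm_num) (x := w) (y := X) (z := T) (by norm_num; linarith only [w0])
    (by norm_num; linarith only [w1]) (by norm_num; linarith only [x0]) (by norm_num; linarith only [x1])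
    (by norm_num; linarith only [t0]) (by norm_num; linarith only [t1]))
  simp only [P61, P62, Y6, E.val, NumI.lkR] at h
  push_cast at h
  rw [← hY] at h
  norm_num at h ⊢
  linarith only [h]

private theorem core2 {w X T Y : ℝ} (hY : Y = T * X * (50 / 7)) (w0 : 2 / 1000 ≤ w)
    (w1 : w ≤ 65 / 100) (x0 : 0 ≤ X) (x1 : X ≤ 2 / 1000) (t0 : -(45 / 1000) ≤ T)
    (t1 : T ≤ -(11 / 1000)) :
    0 < uu (w + 7 / 50) T - 2 * uu (7 / 50) T + Real.pi * (T * (w - 36 / 100)) +
      (Real.pi * (Y * (1 / 2 - (w + X))) - uu (w + X) Y - 216 / 10000 + 4 * Y) := by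
  have h := pos_of_chk (chk3 k62 (by norm_num) (x := w) (y := X) (z := T) (by norm_num; linarith only [w0])
    (by norm_num; linarith only [w1]) (by norm_num; linarith only [x0]) (by norm_num; linarith only [x1])
    (by norm_num; linarith only [t0]) (by norm_num; linarith only [t1]))
  simp only [P61, P63, Y6, E.val, NumI.lkR] at h
  push_cast at h
  rw [← hY] at h
  norm_num at h ⊢
  linarith only [h]

private theorem core3 {w X T Y : ℝ} (hY : Y = T * X * (50 / 7)) (w0 : 0 ≤ w)
    (w1 : w ≤ 2 / 1000) (x0 : 0 ≤ X) (x1 : X ≤ 2 / 1000) (t0 : -(45 / 1000) ≤ T)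
    (t1 : T ≤ -(11 / 1000)) :
    0 < uu (w + 7 / 50) T - 2 * uu (7 / 50) T + Real.pi * (T * (w - 36 / 100)) +
      (Real.pi * (Y * (1 / 2 - (w + X))) - 216 / 10000 + 4 * Y) := by
  have h := pos_of_chk (chk3 k63 (by norm_num) (x := w) (y := X) (z := T) (by norm_num; linarith only [w0])
    (by norm_num; linarith only [w1]) (by norm_num; linarith only [x0]) (by norm_num; linarith only [x1])
    (by norm_num; linarith only [t0]) (by norm_num; linarith only [t1]))
  simp only [P61, P64, Y6, E.val, NumI.lkR] at h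
  push_cast at h
  rw [← hY] at h
  norm_num at h ⊢
  linarith only [h]

private theorem uu_le_real6 {x y : ℝ} (h1 : x ≤ 1 / 2) : uu x y ≤ uu x 0 := by
  have a2 := Lr_diff_mono (a := 1 / 2) (b := x) (s := 0) (s' := |y|) h1 le_rfl (abs_nonneg y)
  have a3 := uu_one_sub (1 / 2) y
  have a4 := uu_one_sub (1 / 2) 0
  have e : (1 : ℝ) - 1 / 2 = 1 / 2 := by norm_num
  rw [e] at a3 a4
  have b3 : uu (1 / 2) y = 0 := by linarith only [a3]
  have b4 : uu (1 / 2) 0 = 0 := by linarith only [a4]
  rw [uu_Lr] at b3 b4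
  rw [uu_Lr, uu_Lr]
  rw [abs_zero] at b4 ⊢
  linarith only [a2, b3, b4]

private theorem near0 {X Y : ℝ} (x0 : 0 ≤ X) (x1 : X ≤ 2 / 1000) (y : X = 0 → Y = 0)
    (hY : Y ≤ 0) : -(216 / 10000) + 4 * Y ≤ 2 * uu X Y := by
  have h := pos_of_chk (chk1 k64 (by norm_num) (x := 0) (by norm_num) (by norm_num))
  simp only [E.val] at h
  norm_num at h
  have h2 := uu_real_anti (a := X) (b := 1 / 500) x0 (by linarith only [x1]) (by norm_num)
  rcases x0.lt_or_eq with hX | hX
  · have h3 := abs_le.1 (uu_lip (x := X) (t := Y) (y := 0) hX (by linarith only [x1, hX]))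
    rw [sub_zero, abs_of_nonpos hY] at h3
    linarith only [h, h2, h3, h3.1]
  · rw [y hX.symm]
    linarith only [h, h2]

/-- an untouched digit one with a real hinge `w` next to a two at an end: move the hinge next to
the two to `7/50` -/
theorem pre_twoE {K : Cl} (hK : K = .three ∨ K = .threeE) {w X T : ℝ} (hw : 0 ≤ w)
    (hw1 : w ≤ 65 / 100) (h0 : 0 ≤ X) (h1 : X ≤ 8 / 100) (t0 : (cw K .twoE).t0 ≤ T)
    (t1 : T ≤ (cw K .twoE).t1) :
    V1 ⟨w, 0⟩ ⟨X, T * (X / (14 / 100))⟩ + V2 ⟨X, -(T * (X / (14 / 100)))⟩ 0 <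
    V1 ⟨w, 0⟩ ⟨7 / 50, T⟩ + V2 ⟨7 / 50, -T⟩ 0 := by
  have T0 : -(45 / 1000) ≤ T ∧ T ≤ -(11 / 1000) := by
    rcases hK with rfl | rfl
    · simp only [cw] at t0 t1
      constructor <;> linarith only [t0, t1]
    · simp only [cw] at t0 t1
      constructor <;> linarith only [t0, t1]
  obtain ⟨a0, a1⟩ := T0
  have e2 : ∀ x t : ℝ, V2 ⟨x, t⟩ 0 = -uu x t - Real.pi * t * (x + 1 / 2) := by
    intro x t
    have e := V2_uu x t 0 0
    have e0 : uu 0 0 = 0 := UU_zero
    rw [e0, add_zero, add_zero, sub_zero, sub_zero] at e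
    rw [show (0 : ℂ) = ⟨0, 0⟩ from rfl, e]
    ring
  have e1 : ∀ y k : ℝ, V1 ⟨w, 0⟩ ⟨y, k⟩ = Real.pi * (w * k - k) + uu (w + y) k - uu w 0 - uu y k := by
    intro y k
    unfold V1
    simp only [UU_uu, Complex.add_re, Complex.add_im, Complex.sub_im, Complex.mul_im]
    rw [zero_add]
    ring
  rw [e1, e1, e2, e2, uu_neg, uu_neg]
  set Y := T * (X / (14 / 100)) with hYd
  have hY : Y = T * X * (50 / 7) := by rw [hYd]; ring
  have hY0 : Y ≤ 0 := by
    rw [hYd]
    exact mul_nonpos_of_nonpos_of_nonneg (by linarith only [a1]) (by positivity)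
  rcases le_total X (2 / 1000) with c | c
  · have n0 := near0 (Y := Y) h0 c (by intro hX; rw [hYd, hX]; ring) hY0
    rcases le_total w (2 / 1000) with d | d
    · have h := core3 hY hw d h0 c a0 a1
      have h2 : uu (w + X) Y ≤ 0 := by
        have h3 := uu_le_real6 (x := w + X) (y := Y) (by linarith only [h1, d])
        have h4 := uu_real_anti (a := 0) (b := w + X) le_rfl (by linarith only [hw, h0]) (by linarith only [h1, d])
        have h5 : uu 0 0 = 0 := UU_zero
        linarith only [h3, h4, h5]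
      linarith only [n0, h, h2]
    · have h := core2 hY d hw1 h0 c a0 a1
      linarith only [n0, h]
  · have h := core1 hY hw hw1 c h1 a0 a1
    linarith only [h]

end TL

end Pool.Agent.Work.MP_b30479_gt.G2
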