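import Pool.Agent.Work.MP_b30479_gt.G2.CDefs
import Pool.Agent.Work.MP_b30479_gt.VC.AbelPlana
import Pool.Agent.Work.MP_b30479_gt.VC.LapN

/-!
# The potential near the saddle
-/

namespace Pool.Agent.Work.MP_b30479_gt.G2

open Finset VOL MeasureTheory Filter Topology

/-! ### negative definite quadratic forms -/

theorem isQ_neg_bound {ι : Type*} [Fintype ι] {Q : (ι → ℝ) → ℂ} (hQ : VC.IsQ Q)
    (h : ∀ X, X ≠ 0 → (Q X).re < 0) : ∃ c : ℝ, 0 < c ∧ ∀ X, (Q X).re ≤ -(c * ∑ i, X i ^ 2) := by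
  classical
  have hcont : Continuous fun X => (Q X).re := Complex.continuous_re.comp hQ.continuous
  set S : Set (ι → ℝ) := {X | ∑ i, X i ^ 2 = 1} with hS
  have hSc : IsCompact S := by
    refine Metric.isCompact_of_isClosed_isBounded ?_ ?_
    · exact isClosed_eq (by fun_prop) continuous_const
    · refine (Metric.isBounded_closedBall (x := (0 : ι → ℝ)) (r := 1)).subset fun X hX => ?_
      rw [mem_closedBall_zero_iff, pi_norm_le_iff_of_nonneg zero_le_one]
      intro i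
      have h1 : X i ^ 2 ≤ ∑ i, X i ^ 2 :=
        Finset.single_le_sum (f := fun i => X i ^ 2) (fun j _ => sq_nonneg _) (Finset.mem_univ i)
      rw [show ∑ i, X i ^ 2 = 1 from hX] at h1
      rw [Real.norm_eq_abs]
      exact abs_le_one_iff_mul_self_le_one.mpr (by nlinarith)
  have h0 : Q 0 = 0 := by
    have := hQ.homog 0 0
    simpa [Pi.zero_def] using this
  have hzero : ∀ X : ι → ℝ, ∑ i, X i ^ 2 = 0 → X = 0 := by
    intro X hX
    funext i
    have h1 := (Finset.sum_eq_zero_iff_of_nonneg fun j _ => sq_nonneg (X j)).mp hX i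
      (Finset.mem_univ i)
    exact pow_eq_zero_iff (two_ne_zero) |>.mp h1
  rcases S.eq_empty_or_nonempty with he | hne
  · refine ⟨1, one_pos, fun X => ?_⟩
    have hX : X = 0 := by
      by_contra hX
      have hN : 0 < ∑ i, X i ^ 2 := by
        rcases (Finset.sum_nonneg fun i _ => sq_nonneg (X i) :
          (0 : ℝ) ≤ ∑ i, X i ^ 2).eq_or_lt with h1 | h1
        · exact absurd (hzero X h1.symm) hX
        · exact h1
      have : (fun i => X i / √(∑ i, X i ^ 2)) ∈ S := by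
        rw [hS]
        change ∑ i, (X i / √(∑ i, X i ^ 2)) ^ 2 = 1
        simp_rw [div_pow, Real.sq_sqrt hN.le]
        rw [← Finset.sum_div, div_self hN.ne']
      rw [he] at this
      exact this
    subst hX
    rw [h0]
    simp
  · obtain ⟨Y, hY, hmax⟩ := hSc.exists_isMaxOn hne hcont.continuousOn
    have hY0 : Y ≠ 0 := by
      rintro rfl
      have : ∑ i : ι, (0 : ι → ℝ) i ^ 2 = 1 := hY
      simp at this
    refine ⟨-(Q Y).re, neg_pos.mpr (h Y hY0), fun X => ?_⟩
    rcases (Finset.sum_nonneg fun i _ => sq_nonneg (X i) :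
      (0 : ℝ) ≤ ∑ i, X i ^ 2).eq_or_lt with h1 | h1
    · have := hzero X h1.symm
      subst this
      rw [h0]
      simp
    · set N := ∑ i, X i ^ 2 with hN
      have hm : (fun i => (√N)⁻¹ * X i) ∈ S := by
        rw [hS]
        change ∑ i, ((√N)⁻¹ * X i) ^ 2 = 1
        simp_rw [mul_pow, inv_pow, Real.sq_sqrt h1.le]
        rw [← Finset.mul_sum, ← hN, inv_mul_cancel₀ h1.ne']
      have h2 := hmax hm
      rw [Set.mem_setOf_eq] at h2
      have h3 := hQ.homog (√N) fun i => (√N)⁻¹ * X i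
      have h4 : (fun i => √N * ((√N)⁻¹ * X i)) = X := by
        funext i
        rw [← mul_assoc, mul_inv_cancel₀ (Real.sqrt_pos.mpr h1).ne', one_mul]
      rw [h4] at h3
      rw [h3, ← Complex.ofReal_pow, Complex.re_ofReal_mul, Real.sq_sqrt h1.le]
      nlinarith

/-! ### second order Taylor expansion of `Fh` -/

theorem Fh_taylor2 {u : ℂ} (h0 : 0 < u.re) (h1 : u.re < 1) {ε : ℝ} (hε : 0 < ε) :
    ∃ r : ℝ, 0 < r ∧ ∀ w : ℂ, ‖w‖ ≤ r →
      ‖Fh (u + w) - Fh u - ph u * w - ph' u / 2 * w ^ 2‖ ≤ ε * ‖w‖ ^ 2 := by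
  have hu : u ∈ strip := ⟨h0, h1⟩
  have hd := hasDerivAt_ph hu
  rw [hasDerivAt_iff_isLittleO] at hd
  have h2 := hd.def hε
  have h3 : ∀ᶠ x in 𝓝 u, x ∈ strip := strip_open.mem_nhds hu
  obtain ⟨r, hr, hb⟩ := Metric.eventually_nhds_iff_ball.mp (h2.and h3)
  refine ⟨r / 2, by positivity, fun w hw => ?_⟩
  have hin : ∀ v ∈ segment ℝ (0 : ℂ) w, ‖v‖ ≤ ‖w‖ := by
    rintro v ⟨a, b, ha, hb', hab, rfl⟩
    rw [smul_zero, zero_add, norm_smul, Real.norm_of_nonneg hb']
    exact mul_le_of_le_one_left (norm_nonneg _) (by linarith)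
  have hmem : ∀ v ∈ segment ℝ (0 : ℂ) w, u + v ∈ Metric.ball u r := by
    intro v hv
    rw [Metric.mem_ball, dist_eq_norm, add_sub_cancel_left]
    have := hin v hv
    linarith
  have h4 := (convex_segment (0 : ℂ) w).norm_image_sub_le_of_norm_hasDerivWithin_le (𝕜 := ℂ)
    (f := fun v => Fh (u + v) - ph u * v - ph' u / 2 * v ^ 2)
    (f' := fun v => ph (u + v) - ph u - ph' u * v)
    (C := ε * ‖w‖) (x := 0) (y := w)
    (fun v hv => by
      have hs := (hb _ (hmem v hv)).2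
      have d1 : HasDerivAt (fun v => Fh (u + v)) (ph (u + v)) v :=
        HasDerivAt.comp_const_add u v (hasDerivAt_Fh hs)
      have d2 : HasDerivAt (fun v : ℂ => ph u * v) (ph u) v := by
        simpa using (hasDerivAt_id v).const_mul (ph u)
      have d3 : HasDerivAt (fun v : ℂ => ph' u / 2 * v ^ 2) (ph' u * v) v := by
        have := ((hasDerivAt_id v).pow 2).const_mul (ph' u / 2)
        refine this.congr_deriv ?_
        simp only [id]
        push_cast
        ring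
      exact ((d1.sub d2).sub d3).hasDerivWithinAt)
    (fun v hv => by
      have h5 := (hb _ (hmem v hv)).1
      rw [add_sub_cancel_left, smul_eq_mul] at h5
      have h6 : ph (u + v) - ph u - ph' u * v = ph (u + v) - ph u - v * ph' u := by ring
      rw [h6]
      exact h5.trans (mul_le_mul_of_nonneg_left (hin v hv) hε.le))
    (left_mem_segment ℝ 0 w) (right_mem_segment ℝ 0 w)
  have e : Fh (u + w) - Fh u - ph u * w - ph' u / 2 * w ^ 2 =
      Fh (u + w) - ph u * w - ph' u / 2 * w ^ 2 - (Fh (u + 0) - ph u * 0 - ph' u / 2 * 0 ^ 2) := by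
    rw [add_zero]
    ring
  rw [e]
  refine h4.trans (le_of_eq ?_)
  rw [sub_zero]
  ring

/-! ### expansion of the potential -/

variable {D Z K : Type} [Fintype D] [Fintype Z] [Fintype K] [DecidableEq D]

/-- the linear part of a form -/
noncomputable def Dat.lin (S : Dat D Z K) (k : K) (X : D ⊕ Z → ℂ) : ℂ := ∑ i, S.A k i * X i

omit [Fintype K] [DecidableEq D] in
theorem Dat.form_add (S : Dat D Z K) (k : K) (z X : D ⊕ Z → ℂ) :
    S.form k (fun i => z i + X i) = S.form k z + S.lin k X := by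
  unfold Dat.form Dat.lin
  simp_rw [mul_add]
  rw [Finset.sum_add_distrib]
  ring

theorem Dat.T_expand (S : Dat D Z K) (z : D ⊕ Z → ℂ) (X : D ⊕ Z → ℝ) :
    S.T (fun i => z i + X i) = S.T z + ∑ i, S.dT z i * X i + S.Q2 z X +
      ∑ k, (Fh (S.form k z + S.lin k fun i => (X i : ℂ)) - Fh (S.form k z) -
        ph (S.form k z) * S.lin k (fun i => (X i : ℂ)) -
        ph' (S.form k z) / 2 * S.lin k (fun i => (X i : ℂ)) ^ 2) := by
  have hq : S.quad (fun i => z i + X i) = S.quad z +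
      ∑ i, (∑ j, (S.q i j + S.q j i) * z j + S.r i) * X i + ∑ i, ∑ j, S.q i j * X i * X j := by
    unfold Dat.quad
    have e1 : ∑ i, ∑ j, S.q i j * (z i + X i) * (z j + X j) = ∑ i, ∑ j, S.q i j * z i * z j +
        ∑ i, (∑ j, S.q i j * z j) * X i + ∑ i, (∑ j, S.q j i * z j) * X i +
        ∑ i, ∑ j, S.q i j * X i * X j := by
      have e2 : ∑ i, (∑ j, S.q j i * z j) * (X i : ℂ) = ∑ i, ∑ j, S.q i j * z i * X j := by
        simp_rw [Finset.sum_mul]
        rw [Finset.sum_comm]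
      have e3 : ∑ i, (∑ j, S.q i j * z j) * (X i : ℂ) = ∑ i, ∑ j, S.q i j * z j * X i := by
        simp_rw [Finset.sum_mul]
      rw [e2, e3, ← Finset.sum_add_distrib, ← Finset.sum_add_distrib, ← Finset.sum_add_distrib]
      refine Finset.sum_congr rfl fun i _ => ?_
      rw [← Finset.sum_add_distrib, ← Finset.sum_add_distrib, ← Finset.sum_add_distrib]
      exact Finset.sum_congr rfl fun j _ => by ring
    have e4 : ∑ i, (∑ j, (S.q i j + S.q j i) * z j + S.r i) * (X i : ℂ) =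
        ∑ i, (∑ j, S.q i j * z j) * X i + ∑ i, (∑ j, S.q j i * z j) * X i + ∑ i, S.r i * X i := by
      rw [← Finset.sum_add_distrib, ← Finset.sum_add_distrib]
      refine Finset.sum_congr rfl fun i _ => ?_
      simp_rw [add_mul]
      rw [Finset.sum_add_distrib]
      ring
    have e5 : ∑ i, S.r i * (z i + X i) = ∑ i, S.r i * z i + ∑ i, S.r i * X i := by
      rw [← Finset.sum_add_distrib]
      exact Finset.sum_congr rfl fun i _ => by ring
    rw [e1, e4, e5]
    ring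
  have hr : ∑ v, (Real.pi * Complex.I * S.b v * (z (.inr v) + (X (.inr v) : ℂ)) ^ 2 +
      2 * Real.pi * Complex.I * (z (.inr v) + (X (.inr v) : ℂ))) =
      ∑ v, (Real.pi * Complex.I * S.b v * z (.inr v) ^ 2 + 2 * Real.pi * Complex.I * z (.inr v)) +
      ∑ v, 2 * Real.pi * Complex.I * (S.b v * z (.inr v) + 1) * X (.inr v) +
      ∑ v, Real.pi * Complex.I * S.b v * (X (.inr v) : ℂ) ^ 2 := by
    rw [← Finset.sum_add_distrib, ← Finset.sum_add_distrib]
    exact Finset.sum_congr rfl fun v _ => by ring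
  have hd : ∑ i, S.dT z i * X i = ∑ i, (∑ j, (S.q i j + S.q j i) * z j + S.r i) * X i +
      ∑ v, 2 * Real.pi * Complex.I * (S.b v * z (.inr v) + 1) * X (.inr v) +
      ∑ k, ph (S.form k z) * S.lin k fun i => (X i : ℂ) := by
    unfold Dat.dT
    simp_rw [add_mul]
    rw [Finset.sum_add_distrib, Finset.sum_add_distrib]
    congr 1
    · congr 1
      rw [Fintype.sum_sum_type]
      simp
    · simp_rw [Finset.sum_mul, Dat.lin, Finset.mul_sum]
      rw [Finset.sum_comm]
      exact Finset.sum_congr rfl fun k _ => Finset.sum_congr rfl fun i _ => by ring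
  unfold Dat.T
  rw [hq, hr, hd]
  simp_rw [Dat.form_add]
  unfold Dat.Q2
  simp only [Finset.sum_sub_distrib]
  unfold Dat.lin
  ring

theorem Dat.isQ_Q2 [DecidableEq Z] (S : Dat D Z K) (z : D ⊕ Z → ℂ) : VC.IsQ (S.Q2 z) := by
  have h1 : VC.IsQ fun X : D ⊕ Z → ℝ => ∑ i, ∑ j, S.q i j * X i * X j := by
    refine ⟨Matrix.of fun i j => (S.q i j + S.q j i) / 2, ?_, fun X => ?_⟩
    · ext i j
      rw [Matrix.transpose_apply, Matrix.of_apply, Matrix.of_apply, add_comm]
    · simp only [VC.qform, Matrix.of_apply]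
      have e : ∑ i, ∑ j, (S.q i j + S.q j i) / 2 * (X i : ℂ) * X j =
          (∑ i, ∑ j, S.q i j * (X i : ℂ) * X j + ∑ i, ∑ j, S.q j i * (X i : ℂ) * X j) / 2 := by
        rw [← Finset.sum_add_distrib, Finset.sum_div]
        refine Finset.sum_congr rfl fun i _ => ?_
        rw [← Finset.sum_add_distrib, Finset.sum_div]
        exact Finset.sum_congr rfl fun j _ => by ring
      have e2 : ∑ i, ∑ j, S.q j i * (X i : ℂ) * X j = ∑ i, ∑ j, S.q i j * (X i : ℂ) * X j := by
        rw [Finset.sum_comm]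
        exact Finset.sum_congr rfl fun i _ => Finset.sum_congr rfl fun j _ => by ring
      rw [e2] at e
      rw [e]
      ring
  have h2 : VC.IsQ fun X : D ⊕ Z → ℝ =>
      ∑ v, Real.pi * Complex.I * S.b v * (X (.inr v) : ℂ) ^ 2 :=
    VC.IsQ.sum _ fun v _ => (VC.IsQ.apply_sq (Sum.inr v)).const_mul _
  have h3 : VC.IsQ fun X : D ⊕ Z → ℝ =>
      ∑ k, ph' (S.form k z) / 2 * (∑ i, S.A k i * (X i : ℂ)) ^ 2 :=
    VC.IsQ.sum _ fun k _ => (VC.IsQ.sq _).const_mul _
  exact (h1.add h2).add h3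

/-- The potential near the saddle. -/
theorem T_near [DecidableEq Z] {S : Dat D Z K} {P : Par D}
    {nb : Finset D → Finset (D ⊕ Z)} {zs : D ⊕ Z → ℂ} (h : Sadl S P nb zs) :
    ∃ c r : ℝ, 0 < c ∧ 0 < r ∧ ∀ X : D ⊕ Z → ℝ, (∀ i, |X i| ≤ r) →
      (∀ k, 0 < (S.form k fun i => zs i + X i).re ∧ (S.form k fun i => zs i + X i).re < 1) ∧
      (S.T fun i => zs i + X i).re ≤ (S.T zs).re - c * ∑ i, X i ^ 2 := by
  obtain ⟨c0, hc0, hQ⟩ := isQ_neg_bound (S.isQ_Q2 zs) h.hess
  -- the linear forms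
  set B : ℝ := ∑ k, ∑ i, |(S.A k i : ℝ)| + 1 with hB
  have hB0 : 0 < B := by positivity
  have hBk : ∀ k, ∑ i, |(S.A k i : ℝ)| ≤ B := by
    intro k
    have := Finset.single_le_sum (f := fun k => ∑ i, |(S.A k i : ℝ)|)
      (fun k _ => Finset.sum_nonneg fun i _ => abs_nonneg _) (Finset.mem_univ k)
    linarith
  have hlin : ∀ k (X : D ⊕ Z → ℝ), ‖S.lin k fun i => (X i : ℂ)‖ ^ 2 ≤
      B ^ 2 * ∑ i, X i ^ 2 := by
    intro k X
    have h1 : ‖S.lin k fun i => (X i : ℂ)‖ ≤ ∑ i, |(S.A k i : ℝ)| * |X i| := by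
      unfold Dat.lin
      refine (norm_sum_le _ _).trans (le_of_eq ?_)
      refine Finset.sum_congr rfl fun i _ => ?_
      rw [norm_mul, Complex.norm_intCast, Complex.norm_real, Real.norm_eq_abs]
    have h2 : ∀ i, |X i| ≤ √(∑ i, X i ^ 2) := by
      intro i
      rw [← Real.sqrt_sq_eq_abs]
      exact Real.sqrt_le_sqrt (Finset.single_le_sum (f := fun i => X i ^ 2)
        (fun j _ => sq_nonneg _) (Finset.mem_univ i))
    have h3 : ‖S.lin k fun i => (X i : ℂ)‖ ≤ B * √(∑ i, X i ^ 2) := by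
      refine h1.trans ?_
      calc ∑ i, |(S.A k i : ℝ)| * |X i| ≤ ∑ i, |(S.A k i : ℝ)| * √(∑ i, X i ^ 2) :=
            Finset.sum_le_sum fun i _ => mul_le_mul_of_nonneg_left (h2 i) (abs_nonneg _)
        _ = (∑ i, |(S.A k i : ℝ)|) * √(∑ i, X i ^ 2) := by rw [Finset.sum_mul]
        _ ≤ B * √(∑ i, X i ^ 2) := mul_le_mul_of_nonneg_right (hBk k) (Real.sqrt_nonneg _)
    calc ‖S.lin k fun i => (X i : ℂ)‖ ^ 2 ≤ (B * √(∑ i, X i ^ 2)) ^ 2 := by gcongr
      _ = B ^ 2 * ∑ i, X i ^ 2 := by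
        rw [mul_pow, Real.sq_sqrt (Finset.sum_nonneg fun i _ => sq_nonneg _)]
  -- Taylor
  set N : ℝ := (Fintype.card K : ℝ) with hN
  have hN0 : 0 ≤ N := Nat.cast_nonneg _
  set ε : ℝ := c0 / (2 * (N + 1) * B ^ 2) with hε
  have hε0 : 0 < ε := by positivity
  choose rk hrk0 hrk using fun k => Fh_taylor2 (h.inner k).1 (h.inner k).2 hε0
  -- margin of the forms
  have hmar : ∀ k, ∃ d : ℝ, 0 < d ∧ d ≤ (S.form k zs).re ∧ d ≤ 1 - (S.form k zs).re := by
    intro k
    obtain ⟨a1, a2⟩ := h.inner k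
    exact ⟨min (S.form k zs).re (1 - (S.form k zs).re), lt_min a1 (by linarith),
      min_le_left _ _, min_le_right _ _⟩
  choose dk hdk0 hdk1 hdk2 using hmar
  obtain ⟨r0, hr0, hr0k⟩ : ∃ r0 : ℝ, 0 < r0 ∧ ∀ k, r0 ≤ rk k ∧ r0 < dk k := by
    by_cases hK : Nonempty K
    · obtain ⟨k1, hk1⟩ := Finite.exists_min fun k => min (rk k) (dk k / 2)
      refine ⟨min (rk k1) (dk k1 / 2), lt_min (hrk0 _) (half_pos (hdk0 _)), fun k => ?_⟩
      have h1 := hk1 k
      refine ⟨h1.trans (min_le_left _ _), lt_of_le_of_lt (h1.trans (min_le_right _ _)) ?_⟩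
      linarith [hdk0 k]
    · rw [not_nonempty_iff] at hK
      exact ⟨1, one_pos, fun k => (IsEmpty.false k).elim⟩
  refine ⟨c0 / 2, r0 / B, by positivity, by positivity, fun X hX => ?_⟩
  have hlr : ∀ k, ‖S.lin k fun i => (X i : ℂ)‖ ≤ r0 := by
    intro k
    unfold Dat.lin
    refine (norm_sum_le _ _).trans ?_
    calc ∑ i, ‖(S.A k i : ℂ) * (X i : ℂ)‖ ≤ ∑ i, |(S.A k i : ℝ)| * (r0 / B) := by
          refine Finset.sum_le_sum fun i _ => ?_
          rw [norm_mul, Complex.norm_intCast, Complex.norm_real, Real.norm_eq_abs]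
          exact mul_le_mul_of_nonneg_left (hX i) (abs_nonneg _)
      _ = (∑ i, |(S.A k i : ℝ)|) * (r0 / B) := by rw [Finset.sum_mul]
      _ ≤ B * (r0 / B) := mul_le_mul_of_nonneg_right (hBk k) (by positivity)
      _ = r0 := by field_simp
  refine ⟨fun k => ?_, ?_⟩
  · rw [Dat.form_add, Complex.add_re]
    have h1 := Complex.abs_re_le_norm (S.lin k fun i => (X i : ℂ))
    have h2 := abs_le.mp (h1.trans (hlr k))
    have h3 := hdk1 k
    have h4 := hdk2 k
    have h5 := (hr0k k).2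
    constructor
    · linarith [h2.1]
    · linarith [h2.2]
  · rw [S.T_expand, Complex.add_re, Complex.add_re, Complex.add_re]
    have e1 : (∑ i, S.dT zs i * (X i : ℂ)).re = 0 := by
      simp [h.crit]
    have e2 := hQ X
    have e3 : (∑ k, (Fh (S.form k zs + S.lin k fun i => (X i : ℂ)) - Fh (S.form k zs) -
        ph (S.form k zs) * S.lin k (fun i => (X i : ℂ)) -
        ph' (S.form k zs) / 2 * S.lin k (fun i => (X i : ℂ)) ^ 2)).re ≤
        c0 / 2 * ∑ i, X i ^ 2 := by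
      refine (Complex.re_le_norm _).trans ((norm_sum_le _ _).trans ?_)
      calc _ ≤ ∑ k : K, ε * (B ^ 2 * ∑ i, X i ^ 2) := by
            refine Finset.sum_le_sum fun k _ => ?_
            refine (hrk k _ ((hlr k).trans (hr0k k).1)).trans ?_
            exact mul_le_mul_of_nonneg_left (hlin k X) hε0.le
        _ = N * (ε * (B ^ 2 * ∑ i, X i ^ 2)) := by
            rw [Finset.sum_const, Finset.card_univ, nsmul_eq_mul]
        _ ≤ (N + 1) * (ε * (B ^ 2 * ∑ i, X i ^ 2)) := by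
            refine mul_le_mul_of_nonneg_right (by linarith) ?_
            have : 0 ≤ ∑ i, X i ^ 2 := Finset.sum_nonneg fun i _ => sq_nonneg _
            positivity
        _ = c0 / 2 * ∑ i, X i ^ 2 := by
            rw [hε]
            field_simp
    rw [e1]
    linarith

end Pool.Agent.Work.MP_b30479_gt.G2
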