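import Pool.Agent.Work.MP_b30479_gt.G2.RLevS
import Pool.Agent.Work.MP_b30479_gt.G2.RMon
import Pool.Agent.Work.NumU.Expr

/-!
# Tails at rings: the rows

`tr_other`: a hinge on its path; `tr_tail`: a hinge in the tail; the target of the ring variable is
`-1/8 + i ρ`, the target of the hinges in the tail is `1/4 + i t`.
-/

namespace Pool.Agent.Work.MP_b30479_gt.G2

open Finset VOL Filter Topology NumU

/-! ### `Lr` near `0` -/

theorem Lr_le_left {s s' ε : ℝ} (hs : 0 ≤ s) (hss : s ≤ s') (hε : 0 ≤ ε) : DT.Lr s ε ≤ DT.Lr s' ε := by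
  have := Lr_diff_mono hε hs hss
  rw [DT.Lr_zero_right, DT.Lr_zero_right] at this
  linarith only [this]

theorem Lr_anti_pos {s x x' : ℝ} (hs : 0 < s) (hs' : s ≤ 6 / 100) (h0 : 0 ≤ x) (h1 : x ≤ x')
    (h2 : x' ≤ 2 / 100) : DT.Lr s x' ≤ DT.Lr s x := by
  have hpi := Real.pi_pos
  have hpi4 : Real.pi < 3.15 := Real.pi_lt_d2
  have hm : AntitoneOn (fun x => DT.Lr s x) (Set.Icc 0 (2 / 100)) := by
    apply antitoneOn_of_deriv_nonpos (convex_Icc _ _)
    · exact fun r _ => (DT.hasDerivAt_Lr hs).continuousAt.continuousWithinAt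
    · exact fun r _ => (DT.hasDerivAt_Lr hs).differentiableAt.differentiableWithinAt
    · intro r hr
      rw [interior_Icc] at hr
      rw [(DT.hasDerivAt_Lr hs).deriv]
      unfold DT.el
      have a1 := DT.LrDer.cosh_gt_cos (v := r) hs
      have a2 : Real.cosh (2 * Real.pi * s) ≤ 11 / 10 := by
        refine (Real.cosh_le_exp_half_sq _).trans ?_
        have h3 : (2 * Real.pi * s) ^ 2 / 2 ≤ 72 / 1000 := by
          have h4 : 2 * Real.pi * s ≤ 2 * 3.15 * (6 / 100) := by
            apply mul_le_mul _ hs' hs.le (by norm_num)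
            linarith only [hpi4]
          have h5 : 0 ≤ 2 * Real.pi * s := by positivity
          nlinarith only [hs', hpi4, hs, hpi, h4, h5]
        have h6 : Real.exp ((2 * Real.pi * s) ^ 2 / 2) ≤ Real.exp (72 / 1000) := Real.exp_le_exp.mpr h3
        have h7 := Real.add_one_le_exp (-(72 / 1000) : ℝ)
        have h8 : Real.exp (72 / 1000) * Real.exp (-(72 / 1000)) = 1 := by
          rw [← Real.exp_add]
          simp
        have h9 := Real.exp_pos (72 / 1000 : ℝ)
        nlinarith only [h6, h8, hs, hs', h9, h7]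
      have a3 : 9 / 10 ≤ Real.cos (2 * Real.pi * r) := by
        have h3 := Real.one_sub_sq_div_two_le_cos (x := 2 * Real.pi * r)
        have h4 : 2 * Real.pi * r ≤ 2 * 3.15 * (2 / 100) := by
          apply mul_le_mul _ hr.2.le hr.1.le (by norm_num)
          linarith only [hpi4]
        have h5 : 0 ≤ 2 * Real.pi * r := by have := hr.1.le; positivity
        nlinarith only [h3, h4, hs', hs, h5]
      have a4 : Real.log (2 * Real.cosh (2 * Real.pi * s) - 2 * Real.cos (2 * Real.pi * r)) ≤ 0 := by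
        apply Real.log_nonpos
        · linarith only [a1]
        · linarith only [hs, hs', a2, a3]
      linarith only [a4]
  exact hm ⟨h0, by linarith only [h1, h2]⟩ ⟨by linarith only [h0, h1], h2⟩ h1

theorem Lr_anti {s x x' : ℝ} (hs : 0 ≤ s) (hs' : s ≤ 6 / 100) (h0 : 0 ≤ x) (h1 : x ≤ x')
    (h2 : x' ≤ 2 / 100) : DT.Lr s x' ≤ DT.Lr s x := by
  rcases hs.lt_or_eq with h | h
  · exact Lr_anti_pos h hs' h0 h1 h2
  · subst h
    have c1 : ∀ z : ℝ, Tendsto (fun s => DT.Lr s z) (𝓝[>] 0) (𝓝 (DT.Lr 0 z)) := fun z =>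
      (DT.LrCont.continuous_Lr_left z).continuousAt.tendsto.mono_left nhdsWithin_le_nhds
    refine le_of_tendsto_of_tendsto (c1 x') (c1 x) ?_
    filter_upwards [self_mem_nhdsWithin, nhdsWithin_le_nhds (gt_mem_nhds (show (0 : ℝ) < 6 / 100 by
      norm_num))] with s h3 h4
    exact Lr_anti_pos h3 h4.le h0 h1 h2

theorem Lr_incr {s x x' : ℝ} (hs : 165 / 1000 ≤ s) (h1 : x ≤ x') : DT.Lr s x ≤ DT.Lr s x' := by
  have hpi := Real.pi_pos
  have hpi4 : 3.14 < Real.pi := Real.pi_gt_d2
  have hs0 : 0 < s := by linarith only [hs]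
  have hm : Monotone (fun x => DT.Lr s x) := by
    apply monotone_of_deriv_nonneg
    · exact fun r => (DT.hasDerivAt_Lr hs0).differentiableAt
    · intro r
      rw [(DT.hasDerivAt_Lr hs0).deriv]
      unfold DT.el
      have a2 : 3 / 2 ≤ Real.cosh (2 * Real.pi * s) := by
        have h3 : Real.cosh (2 * (Real.pi * s)) = 1 + 2 * Real.sinh (Real.pi * s) ^ 2 := by
          rw [Real.cosh_two_mul, Real.cosh_sq]
          ring
        rw [show 2 * Real.pi * s = 2 * (Real.pi * s) by ring, h3]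
        have h4 : 3.14 * (165 / 1000) ≤ Real.pi * s := by
          apply mul_le_mul hpi4.le hs (by norm_num) hpi.le
        have h5 : Real.pi * s ≤ Real.sinh (Real.pi * s) := Real.self_le_sinh_iff.mpr (by positivity)
        nlinarith only [hs, h5, hpi4, hs0, h4]
      have a3 := Real.cos_le_one (2 * Real.pi * r)
      have a4 : 0 ≤ Real.log (2 * Real.cosh (2 * Real.pi * s) - 2 * Real.cos (2 * Real.pi * r)) :=
        Real.log_nonneg (by linarith only [a2, a3])
      linarith only [a4]
  exact hm h1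

theorem uu_Lr (x y : ℝ) : uu x y = DT.Lr |y| x - Real.pi * |y| / 2 := rfl

/-- near `1`, to the left -/
theorem uu_le_98 {x y : ℝ} (h0 : 98 / 100 ≤ x) (h1 : x ≤ 1) (hy : |y| ≤ 6 / 100) :
    uu x y ≤ uu (98 / 100) y := by
  have e1 : uu x y = -uu (1 - x) y := by
    rw [← uu_one_sub]
    ring_nf
  have e2 : uu (98 / 100) y = -uu (2 / 100) y := by
    rw [← uu_one_sub]
    norm_num
  rw [e1, e2, uu_Lr, uu_Lr]
  have := Lr_anti (abs_nonneg y) hy (show 0 ≤ 1 - x by linarith only [h1]) (show 1 - x ≤ 2 / 100 by linarith only [h0])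
    le_rfl
  linarith only [this]

section
open NumI (V)

private theorem n1 : -(38 / 1000) ≤ DT.Lr 0 (1 / 100) := by
  have g : chk [E.add (E.uu (E.q 1 100) (E.q 0 1)) (E.q 38 1000)] 10 [V.of 1 0 0] = true := by
    decide +kernel
  have h := pos_of_chk (chk1 g (by norm_num) (x := 0) (by norm_num) (by norm_num))
  simp only [E.val, uu_Lr] at h
  norm_num at h ⊢
  linarith only [h]

private theorem n2 : DT.Lr (165 / 1000) (1 / 100) ≤ 38 / 1000 := by
  have g : chk [E.sub (E.q 38 1000) (E.add (E.uu (E.q 1 100) (E.q 165 1000))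
      (E.mul E.pi (E.q 165 2000)))] 10 [V.of 1 0 0] = true := by
    decide +kernel
  have h := pos_of_chk (chk1 g (by norm_num) (x := 0) (by norm_num) (by norm_num))
  simp only [E.val, uu_Lr] at h
  rw [show |((165 : ℤ) : ℝ) / ((1000 : ℕ) : ℝ)| = 165 / 1000 by
    rw [abs_of_pos (by norm_num)]
    norm_num] at h
  norm_num at h ⊢
  linarith only [h]

end

/-- near `1` -/
theorem uu_ge_near {x y : ℝ} (h0 : 99 / 100 ≤ x) (h1 : x ≤ 101 / 100) (hy : |y| ≤ 165 / 1000) :
    Real.pi * |y| / 2 - 38 / 1000 ≤ uu x y := by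
  rcases le_total x 1 with h | h
  · have e1 : uu x y = -uu (1 - x) y := by
      rw [← uu_one_sub]
      ring_nf
    rw [e1, uu_Lr]
    have a1 := Lr_le_left (ε := 1 - x) (abs_nonneg y) hy (by linarith only [h])
    have a2 := Lr_incr (s := 165 / 1000) le_rfl (show 1 - x ≤ 1 / 100 by linarith only [h0])
    have a3 := n2
    linarith only [a1, a2, a3]
  · have e1 : uu x y = uu (x - 1) y + Real.pi * |y| := by
      rw [← uu_add_one]
      ring_nf
    rw [e1, uu_Lr]
    have a1 := Lr_le_left (ε := x - 1) le_rfl (abs_nonneg y) (by linarith only [h])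
    have a2 := Lr_anti (s := 0) le_rfl (by norm_num) (show 0 ≤ x - 1 by linarith only [h])
      (show x - 1 ≤ 1 / 100 by linarith only [h1]) (by norm_num)
    have a3 := n1
    linarith only [a1, a2, a3]

end Pool.Agent.Work.MP_b30479_gt.G2
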