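import Pool.Agent.Work.MP_b30479_gt.G2.WVal

/-!
# The growth rate as the sum of the values of the regions, at arbitrary points
-/

namespace Pool.Agent.Work.MP_b30479_gt.G2

open Finset VOL Filter Topology

namespace SR

variable {M : ℕ} {b : Fin (M + 1) → ℤ} {z z' : DD (tyW b) ⊕ ZZ (tyW b) → ℂ}
variable {h h' : Fin M} {i j j' k : Fin (M + 1)} {p : Fin 3}

/-- value of the region `i` at the point `z` -/
noncomputable def Vr (b : Fin (M + 1) → ℤ) (z : DD (tyW b) ⊕ ZZ (tyW b) → ℂ)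
    (i : Fin (M + 1)) : ℝ := OV b i (Ow b z i)

/-- the hinge variable `h` in the own frame of the region `i` -/
noncomputable def Oh (b : Fin (M + 1) → ℤ) (z : DD (tyW b) ⊕ ZZ (tyW b) → ℂ)
    (i : Fin (M + 1)) (h : Fin M) : ℂ := ofr (b i) (z (.inl (.inl h)))

/-- the inner variable in the own frame -/
noncomputable def Om (b : Fin (M + 1) → ℤ) (z : DD (tyW b) ⊕ ZZ (tyW b) → ℂ)
    (m : {i : Fin (M + 1) // (tyW b i).isMid = true}) : ℂ := ofr (b m.1) (z (.inl (.inr m)))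

/-- the ring variable in the own frame -/
noncomputable def Oz (b : Fin (M + 1) → ℤ) (z : DD (tyW b) ⊕ ZZ (tyW b) → ℂ)
    (v : ZZ (tyW b)) : ℂ := ofz (b v.1) (z (.inr v))

theorem V_eq_Vr (hb : ClassW b) (z : DD (tyW b) ⊕ ZZ (tyW b) → ℂ) :
    (wdat (tyW b) b).V z = ∑ i, Vr b z i := V_eq_OV hb z

theorem Adj.Ow_slot (A : Adj h i p j) (z : DD (tyW b) ⊕ ZZ (tyW b) → ℂ) :
    Ow b z i p = Oh b z i h := by
  unfold Ow Oh
  cases A
  · rw [own_two, xx_right]
  · rw [own_zero, xx_left]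

theorem Ow_end0 (z : DD (tyW b) ⊕ ZZ (tyW b) → ℂ) : Ow b z 0 0 = 0 := (Ow_endOk z 0).1 rfl

theorem Ow_end2 (z : DD (tyW b) ⊕ ZZ (tyW b) → ℂ) : Ow b z (Fin.last M) 2 = 0 :=
  (Ow_endOk z (Fin.last M)).2 rfl

/-- the missing hinge of an end -/
theorem Adj.Ow_no (A : Adj h i p j) (he : isEnd i = true) (z : DD (tyW b) ⊕ ZZ (tyW b) → ℂ) :
    Ow b z i p.rev = 0 := by
  cases A
  · have h0 : h.castSucc = 0 := by
      unfold isEnd at he
      rcases of_decide_eq_true he with h1 | h1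
      · exact h1
      · exact absurd h1 (Fin.castSucc_lt_last h).ne
    have : Ow b z h.castSucc 0 = 0 := (Ow_endOk z _).1 h0
    exact this
  · have h0 : h.succ = Fin.last M := by
      unfold isEnd at he
      rcases of_decide_eq_true he with h1 | h1
      · exact absurd h1 (Fin.succ_ne_zero h)
      · exact h1
    have : Ow b z h.succ 2 = 0 := (Ow_endOk z _).2 h0
    exact this

theorem Ow_mid1 (hc : (tyW b i).isMid = true) (z : DD (tyW b) ⊕ ZZ (tyW b) → ℂ) :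
    Ow b z i 1 = Om b z ⟨i, hc⟩ := by
  unfold Ow Om
  have hne : tyW b i ≠ .ring := by
    intro h0
    rw [h0] at hc
    exact absurd hc (by decide)
  rw [own_one hne, xx_mid _ hc]

theorem Ow_ring1 (v : ZZ (tyW b)) (z : DD (tyW b) ⊕ ZZ (tyW b) → ℂ) :
    Ow b z v.1 1 = Oz b z v := by
  unfold Ow Oz
  have h := v.2
  have hr : tyW b v.1 = .ring := by
    cases h1 : tyW b v.1 <;> rw [h1] at h <;> first | rfl | exact absurd h (by decide)
  rw [hr, own_ring, xx_ring _ v.2]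

/-! ### the values of the regions -/

theorem Adj.Vr_one (A : Adj h i p j) (A' : Adj h' i p.rev j') (hb : ClassW b)
    (hc : clsW b i = .one) (z : DD (tyW b) ⊕ ZZ (tyW b) → ℂ) :
    Vr b z i = V1 (Oh b z i h) (Oh b z i h') := by
  unfold Vr
  rw [OV_one hb hc, ← A.Ow_slot z, ← A'.Ow_slot z]
  rcases A.slot with rfl | rfl
  · rfl
  · exact V1_comm _ _

theorem Adj.Vr_two (A : Adj h i p j) (A' : Adj h' i p.rev j') (hb : ClassW b)
    (hc : clsW b i = .two) (z : DD (tyW b) ⊕ ZZ (tyW b) → ℂ) :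
    Vr b z i = V2 (Oh b z i h) (Oh b z i h') := by
  unfold Vr
  rw [OV_two hb (Or.inl hc) (Ow_endOk z i), ← A.Ow_slot z, ← A'.Ow_slot z]
  rcases A.slot with rfl | rfl
  · rfl
  · exact V2_comm _ _

theorem Adj.Vr_twoE (A : Adj h i p j) (hb : ClassW b) (hc : clsW b i = .twoE)
    (z : DD (tyW b) ⊕ ZZ (tyW b) → ℂ) : Vr b z i = V2 (Oh b z i h) 0 := by
  unfold Vr
  rw [OV_two hb (Or.inr hc) (Ow_endOk z i), ← A.Ow_slot z, ← A.Ow_no (clsW_end (Or.inl hc)) z]
  rcases A.slot with rfl | rfl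
  · rfl
  · exact V2_comm _ _

theorem Adj.Vr_three (A : Adj h i 0 j) (A' : Adj h' i 2 k) (hb : ClassW b)
    (hc : clsW b i = .three) (z : DD (tyW b) ⊕ ZZ (tyW b) → ℂ) :
    Vr b z i = V3 (Oh b z i h) (Om b z ⟨i, tyW_isMid (Or.inl hc)⟩) (Oh b z i h') := by
  unfold Vr
  rw [OV_three hb hc, A.Ow_slot z, A'.Ow_slot z, Ow_mid1 (tyW_isMid (Or.inl hc)) z]

theorem Adj.Vr_threeE (A : Adj h i p j) (hc : clsW b i = .threeE)
    (z : DD (tyW b) ⊕ ZZ (tyW b) → ℂ) :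
    Vr b z i = V3 (Oh b z i h) (Om b z ⟨i, tyW_isMid (Or.inr hc)⟩) 0 := by
  unfold Vr
  rw [A.OV_threeE hc (Ow_endOk z i), A.Ow_slot z, Ow_mid1 (tyW_isMid (Or.inr hc)) z]

theorem Adj.Vr_ring (v : ZZ (tyW b)) (A : Adj h v.1 p j) (A' : Adj h' v.1 p.rev j')
    (hb : ClassW b) (hc : clsW b v.1 = .ring) (z : DD (tyW b) ⊕ ZZ (tyW b) → ℂ) :
    Vr b z v.1 = VR ((b v.1).natAbs : ℝ) (Oh b z v.1 h) (Oh b z v.1 h') (Oz b z v) := by
  unfold Vr
  rw [OV_ring hb hc (Ow_endOk z _), ← A.Ow_slot z, ← A'.Ow_slot z, Ow_ring1]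
  rcases A.slot with hp | hp <;> subst hp
  · rfl
  · exact VR_comm _ _ _ _

theorem Adj.Vr_ringE (v : ZZ (tyW b)) (A : Adj h v.1 p j) (he : isEnd v.1 = true)
    (hb : ClassW b) (hc : clsW b v.1 = .ring) (z : DD (tyW b) ⊕ ZZ (tyW b) → ℂ) :
    Vr b z v.1 = VR ((b v.1).natAbs : ℝ) (Oh b z v.1 h) 0 (Oz b z v) := by
  unfold Vr
  rw [OV_ring hb hc (Ow_endOk z _), ← A.Ow_slot z, ← A.Ow_no he z, Ow_ring1]
  rcases A.slot with hp | hp <;> subst hp
  · rfl
  · exact VR_comm _ _ _ _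

/-- the value of a region depends only on its variables -/
theorem Vr_congr {z z' : DD (tyW b) ⊕ ZZ (tyW b) → ℂ} (i : Fin (M + 1))
    (hh : ∀ {h : Fin M} {p : Fin 3} {j : Fin (M + 1)}, Adj h i p j →
      z (.inl (.inl h)) = z' (.inl (.inl h)))
    (hm : ∀ hi : (tyW b i).isMid = true, z (.inl (.inr ⟨i, hi⟩)) = z' (.inl (.inr ⟨i, hi⟩)))
    (hz : ∀ hi : (tyW b i).isRing = true, z (.inr ⟨i, hi⟩) = z' (.inr ⟨i, hi⟩)) :
    Vr b z i = Vr b z' i := by
  unfold Vr Ow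
  rw [xx_congr' i]
  intro j hj p
  rcases j with (h | m) | v
  · by_contra hcf
    have : i = h.castSucc ∨ i = h.succ := by
      by_contra hcon
      push Not at hcon
      apply hcf
      unfold cf
      simp only
      rw [if_neg]
      rintro (⟨-, h1⟩ | ⟨-, h1⟩)
      · exact hcon.2 h1.symm
      · exact hcon.1 h1.symm
    rcases this with rfl | rfl
    · exact hj (hh .l)
    · exact hj (hh .r)
  · by_contra hcf
    have : m.1 = i := by
      by_contra hcon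
      apply hcf
      unfold cf
      simp only
      split_ifs <;> simp_all
    subst this
    exact hj (hm m.2)
  · by_contra hcf
    have : v.1 = i := by
      by_contra hcon
      apply hcf
      unfold cf
      simp only
      split_ifs <;> simp_all
    subst this
    exact hj (hz v.2)

/-! ### sums over the slots -/

/-- the sum over the regions of the contributions of their hinges -/
theorem sum_slots (f : Fin (M + 1) → Fin 3 → ℝ) (h0 : f 0 0 = 0) (h2 : f (Fin.last M) 2 = 0) :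
    ∑ i, (f i 0 + f i 2) = ∑ h : Fin M, (f h.castSucc 2 + f h.succ 0) := by
  rw [sum_add_distrib, sum_add_distrib, Fin.sum_univ_succ fun i => f i 0,
    Fin.sum_univ_castSucc fun i => f i 2, h0, h2]
  ring

/-- **The comparison of two points, region by region.** `f i p`: contribution of the slot `p` of
the region `i`. -/
theorem V_lt_of_slots (hb : ClassW b) {z z' : DD (tyW b) ⊕ ZZ (tyW b) → ℂ}
    (f : Fin (M + 1) → Fin 3 → ℝ) (h0 : f 0 0 = 0) (h2 : f (Fin.last M) 2 = 0)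
    (hr : ∀ i, f i 0 + f i 2 ≤ Vr b z' i - Vr b z i)
    (hh : ∀ h : Fin M, 0 ≤ f h.castSucc 2 + f h.succ 0)
    (hlt : (∃ i, f i 0 + f i 2 < Vr b z' i - Vr b z i) ∨
      ∃ h : Fin M, 0 < f h.castSucc 2 + f h.succ 0) :
    (wdat (tyW b) b).V z < (wdat (tyW b) b).V z' := by
  rw [V_eq_Vr hb, V_eq_Vr hb, ← sub_pos, ← sum_sub_distrib]
  have e := sum_slots f h0 h2
  have s1 : ∑ i, (f i 0 + f i 2) ≤ ∑ i, (Vr b z' i - Vr b z i) := sum_le_sum fun i _ => hr i
  have s2 : 0 ≤ ∑ h : Fin M, (f h.castSucc 2 + f h.succ 0) := sum_nonneg fun h _ => hh h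
  rcases hlt with ⟨i, hi⟩ | ⟨h, hh'⟩
  · have := sum_lt_sum (fun i _ => hr i) ⟨i, mem_univ i, hi⟩
    linarith
  · have := sum_pos' (fun h _ => hh h) ⟨h, mem_univ h, hh'⟩
    linarith

/-! ### heights -/

theorem Oh_re (b : Fin (M + 1) → ℤ) (z : DD (tyW b) ⊕ ZZ (tyW b) → ℂ) (i : Fin (M + 1))
    (h : Fin M) : (Oh b z i h).re = (z (.inl (.inl h))).re := ofr_re _ _

theorem Oh_im (b : Fin (M + 1) → ℤ) (z : DD (tyW b) ⊕ ZZ (tyW b) → ℂ) (i : Fin (M + 1))
    (h : Fin M) : (Oh b z i h).im = ofs (b i) (z (.inl (.inl h))).im := ofr_im _ _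

/-- a real hinge -/
theorem Oh_real {z : DD (tyW b) ⊕ ZZ (tyW b) → ℂ} (i : Fin (M + 1)) {h : Fin M}
    (hz : (z (.inl (.inl h))).im = 0) : Oh b z i h = ⟨(z (.inl (.inl h))).re, 0⟩ := by
  apply Complex.ext
  · exact Oh_re b z i h
  · rw [Oh_im, hz]
    unfold ofs
    split_ifs <;> simp

/-- a hinge on its main path -/
theorem Oh_path {z : DD (tyW b) ⊕ ZZ (tyW b) → ℂ} (i : Fin (M + 1)) {h : Fin M} {X c1 c2 t x : ℝ}
    (hz : z (.inl (.inl h)) = pt 0 X c1 c2 t x) :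
    Oh b z i h = ⟨x, ofs (b i) t * tr 0 X c1 c2 x⟩ := by
  apply Complex.ext
  · rw [Oh_re, hz]
    simp [pt]
  · rw [Oh_im, hz]
    unfold ofs
    split_ifs <;> simp [pt]

/-- the hinge seen from the other side, opposite signs -/
theorem Adj.Oh_opp (_ : Adj h i p j) (hop : b i * b j < 0)
    (z : DD (tyW b) ⊕ ZZ (tyW b) → ℂ) : Oh b z j h = starRingEnd ℂ (Oh b z i h) :=
  ofr_opp hop _

/-- the hinge seen from the other side, equal signs -/
theorem Adj.Oh_same (_ : Adj h i p j) (hs : 0 < b i * b j)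
    (z : DD (tyW b) ⊕ ZZ (tyW b) → ℂ) : Oh b z j h = Oh b z i h := by
  unfold Oh ofr
  rcases pos_and_pos_or_neg_and_neg_of_mul_pos hs with ⟨h1, h2⟩ | ⟨h1, h2⟩
  · rw [if_pos h1, if_pos h2]
  · rw [if_neg (by omega), if_neg (by omega)]

end SR

end Pool.Agent.Work.MP_b30479_gt.G2
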