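import Pool.Agent.Work.MP_b30479_gt.G2.TWC

/-!
# Tails: the special hinges

A real hinge `k`, to the left of `1/20`, of an untouched digit one whose left neighbour is an
untouched interior three is special in the sense of `Spc`.
-/

namespace Pool.Agent.Work.MP_b30479_gt.G2

open Finset VOL Filter Topology SR

namespace TL

variable {M : ℕ} {b : Fin (M + 1) → ℤ} {zs z : DD (tyW b) ⊕ ZZ (tyW b) → ℂ}
variable {R : Finset (DD (tyW b))} {h k : Fin M} {i j P : Fin (M + 1)}
variable {p : DD (tyW b) → ℝ}

/-- class of a region with an inner variable -/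
theorem mid_cls {i : Fin (M + 1)} (hm : (tyW b i).isMid = true) :
    clsW b i = .three ∨ clsW b i = .threeE := by
  have h3 : (b i).natAbs = 3 := by
    unfold tyW at hm
    split_ifs at hm with h1 h2 h3 h4
    · exact absurd hm (by decide)
    · exact absurd hm (by decide)
    · exact h3
    · exact h3
    · exact absurd hm (by decide)
  unfold clsW cls
  rw [if_neg (by omega), if_neg (by omega), if_pos h3]
  split_ifs
  · exact Or.inr rfl
  · exact Or.inl rfl

/-- the hinge `k` is special -/
theorem spc_of (hb : ClassW b) (hM : MM b zs R (nbT b R) z p) (A : Adj h i 0 j)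
    (hi : clsW b i = .one) (hj : clsW b j = .three) (hn : Sum.inl (Sum.inl h) ∉ nbT b R)
    (A' : Adj k i 2 P) (hk : Sum.inl (Sum.inl k) ∈ nbT b R)
    (hre : (z (.inl (.inl k))).re ≤ 1 / 20) : Spc b R z k := by
  have hni : ¬ Tch b R i := fun h0 => hn (nbH_mem ((nbH_iff A).2 (Or.inl h0)))
  have hnj : ¬ Tch b R j := fun h0 => hn (nbH_mem ((nbH_iff A).2 (Or.inr h0)))
  have hP : Tch b R P := ((nbH_iff A').1 (nbH_of_mem hk)).resolve_left hni
  have hbig : ¬ (big (clsW b j) ∧ big (clsW b P)) := okp_big (okp_of hb A A' hi)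
  have hcl : clsW b P = .one ∨ clsW b P = .two := by
    have hbj : big (clsW b j) := by rw [hj]; exact Or.inl rfl
    have hbP : ¬ big (clsW b P) := fun h0 => hbig ⟨hbj, h0⟩
    rcases hcP : clsW b P
    · exact Or.inl rfl
    · exact Or.inr rfl
    · exfalso
      rcases tch_iff.1 hP with ⟨g, q, m, B, hg⟩ | ⟨m, hm, -⟩
      · have he : isEnd P = true := clsW_end (Or.inl hcP)
        obtain rfl := B.slot_end A'.symm he
        obtain ⟨rfl, rfl⟩ := adj_uniq B A'.symm
        have h1 := hM.tail_re hg
        have h2 := wXM_ge A'.symm (by rw [hcP]; decide)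
        have h3 : wXM b g ≤ (z (.inl (.inl g))).re := h1
        linarith
      · have h3 := m.2
        rw [hm] at h3
        rcases mid_cls h3 with h4 | h4 <;> rw [hcP] at h4 <;> exact absurd h4 (by decide)
    · exact absurd (hcP ▸ Or.inl rfl) hbP
    · exact absurd (hcP ▸ Or.inr (Or.inl rfl)) hbP
    · exact absurd (hcP ▸ Or.inr (Or.inr rfl)) hbP
  cases A' with
  | l =>
    exact ⟨hP, hcl, hni, hi, ⟨h, j, A, hj, hnj⟩, hre⟩

end TL

end Pool.Agent.Work.MP_b30479_gt.G2
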