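import Pool.Agent.Work.MP_b30479_gt.G2.TReg
import Pool.Agent.Work.MP_b30479_gt.G2.WMMN

/-!
# Tails: maximisers over the main paths, the real variables fixed
-/

namespace Pool.Agent.Work.MP_b30479_gt.G2

open Finset VOL Filter Topology SR

namespace TL

variable {M : ℕ} {b : Fin (M + 1) → ℤ} {zs z : DD (tyW b) ⊕ ZZ (tyW b) → ℂ}
variable {R : Finset (DD (tyW b))} {h h' : Fin M} {i j j' k : Fin (M + 1)} {s : Fin 3}

/-- **A maximiser over the main paths**, the real variables fixed. -/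
structure MX (b : Fin (M + 1) → ℤ) (zs : DD (tyW b) ⊕ ZZ (tyW b) → ℂ) (R : Finset (DD (tyW b)))
    (z : DD (tyW b) ⊕ ZZ (tyW b) → ℂ) : Prop where
  adm : Adm (wdat (tyW b) b) (wparM b zs) zs R (nbT b R) z 0
  max : ∀ z', Adm (wdat (tyW b) b) (wparM b zs) zs R (nbT b R) z' 0 →
    (∀ v ∈ nbT b R, z' v = z v) → (wdat (tyW b) b).V z' ≤ (wdat (tyW b) b).V z

/-- there is such a maximiser -/
theorem exists_MX (h : Adm (wdat (tyW b) b) (wparM b zs) zs R (nbT b R) z 0) :
    ∃ z', MX b zs R z' ∧ (∀ v ∈ nbT b R, z' v = z v) ∧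
      (wdat (tyW b) b).V z ≤ (wdat (tyW b) b).V z' := by
  have hX : ∀ i, 0 ≤ (wparM b zs).XM i ∧ (wparM b zs).XM i ≤ 1 := by
    intro i
    have g := par1_good b i
    refine ⟨?_, (g.2.2.2).le⟩
    show 0 ≤ (par1 b i).XM
    linarith only [g, g.1, g.2.1, g.2.2.1]
  have hK := isCompact_AdmSet (wdat (tyW b) b) (wparM b zs) hX zs R (nbT b R) (nbT_ok b R).ok.1
  have hC : IsClosed {q : (DD (tyW b) ⊕ ZZ (tyW b) → ℂ) × (DD (tyW b) → ℝ) |
      q.2 = 0 ∧ ∀ v ∈ nbT b R, q.1 v = z v} := by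
    have h1 : IsClosed {q : (DD (tyW b) ⊕ ZZ (tyW b) → ℂ) × (DD (tyW b) → ℝ) | q.2 = 0} :=
      isClosed_eq continuous_snd continuous_const
    have h2 : IsClosed {q : (DD (tyW b) ⊕ ZZ (tyW b) → ℂ) × (DD (tyW b) → ℝ) |
        ∀ v ∈ nbT b R, q.1 v = z v} := by
      simp only [Set.setOf_forall]
      refine isClosed_iInter fun v => isClosed_iInter fun _ => ?_
      exact isClosed_eq ((continuous_apply v).comp continuous_fst) continuous_const
    exact h1.inter h2
  have hK2 := hK.inter_right hC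
  obtain ⟨q, hq, hm⟩ := hK2.exists_isMaxOn ⟨(z, 0), h, rfl, fun v _ => rfl⟩
    (continuous_pen (wdat (tyW b) b)).continuousOn
  obtain ⟨h1, h2, h3⟩ := hq
  have e : ∀ z1 : DD (tyW b) ⊕ ZZ (tyW b) → ℂ,
      (wdat (tyW b) b).V z1 - 2 * Real.pi * ∑ i, (0 : DD (tyW b) → ℝ) i =
        (wdat (tyW b) b).V z1 := by
    intro z1
    simp
  have hV : ∀ z1, Adm (wdat (tyW b) b) (wparM b zs) zs R (nbT b R) z1 0 →
      (∀ v ∈ nbT b R, z1 v = z v) → (wdat (tyW b) b).V z1 ≤ (wdat (tyW b) b).V q.1 := by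
    intro z1 a1 a2
    have h4 := hm (a := (z1, 0)) ⟨a1, rfl, a2⟩
    have h5 : (wdat (tyW b) b).V z1 - 2 * Real.pi * ∑ i, (0 : DD (tyW b) → ℝ) i ≤
        (wdat (tyW b) b).V q.1 - 2 * Real.pi * ∑ i, q.2 i := h4
    rw [h2, e, e] at h5
    exact h5
  have h1' : Adm (wdat (tyW b) b) (wparM b zs) zs R (nbT b R) q.1 0 := by
    have : Adm (wdat (tyW b) b) (wparM b zs) zs R (nbT b R) q.1 q.2 := h1
    rwa [h2] at this
  exact ⟨q.1, ⟨h1', fun z1 a1 a2 => hV z1 a1 fun v hv => (a2 v hv).trans (h3 v hv)⟩, h3,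
    hV z h fun _ _ => rfl⟩

/-- value step -/
theorem MX.step {z' : DD (tyW b) ⊕ ZZ (tyW b) → ℂ} (hb : ClassW b)
    (hR : ∀ i ∈ R, Sum.inl i ∈ nbT b R) (hM : MX b zs R z)
    (hm : Mv b zs (nbT b R) z 0 z' 0) (S : Finset (Fin (M + 1)))
    (hz : ∀ i, i ∉ S → ∀ j, z j ≠ z' j → ∀ q, cf (tyW b) i q j = 0) :
    ∑ i ∈ S, (OV b i (Ow b z' i) - OV b i (Ow b z i)) ≤
      2 * Real.pi * ∑ i, ((0 : DD (tyW b) → ℝ) i - (0 : DD (tyW b) → ℝ) i) := by
  rw [← V_move hb S hz, Finset.sum_sub_distrib]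
  have h1 := hM.max z' (hm.adm hR hM.adm) fun v hv => by
    by_contra hc
    exact (hm.out v (Or.inl hc)).1 hv
  linarith only [h1]

/-- **The move of one hinge** which is not real to a point of its main path. -/
theorem MX.star (hb : ClassW b) (hM : MX b zs R z) (A : Adj h i s j)
    (hn : Sum.inl (Sum.inl h) ∉ nbT b R) {c : ℝ} (h0 : 0 ≤ c) (h1 : c ≤ wXM b h) :
    ∃ z' : DD (tyW b) ⊕ ZZ (tyW b) → ℂ, z' (.inl (.inl h)) = tg b zs h c ∧
      (∀ v, v ≠ .inl (.inl h) → z' v = z v) ∧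
      (Vr b z' i - Vr b z i) + (Vr b z' j - Vr b z j) ≤ 0 := by
  classical
  set z' := Function.update z (.inl (.inl h)) (tg b zs h c) with hz'
  have e1 : z' (.inl (.inl h)) = tg b zs h c := Function.update_self _ _ _
  have e2 : ∀ v, v ≠ .inl (.inl h) → z' v = z v := fun v hv => Function.update_of_ne hv _ _
  refine ⟨z', e1, e2, ?_⟩
  have hmv : Mv b zs (nbT b R) z 0 z' 0 := by
    refine ⟨fun v hv => ?_⟩
    by_cases hvh : v = .inl (.inl h)
    · subst hvh
      refine ⟨hn, ?_⟩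
      rw [e1]
      exact onP_tg h0 h1
    · exfalso
      rcases hv with hv | hv
      · exact hv (e2 v hvh)
      · exact hv rfl
  have hne : i ≠ j := by
    cases A
    · exact (Fin.castSucc_lt_succ (i := h)).ne
    · exact (Fin.castSucc_lt_succ (i := h)).ne'
  have key := hM.step hb (nbT_ok b R).ok.1 hmv {i, j} (fun k hk v hv q => by
    have hvh : v = .inl (.inl h) := by
      by_contra hc
      exact hv (e2 v hc).symm
    subst hvh
    rw [Finset.mem_insert, Finset.mem_singleton, not_or] at hk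
    cases A
    · exact cf_hinge_zero hk.1 hk.2 q
    · exact cf_hinge_zero hk.2 hk.1 q)
  rw [Finset.sum_pair hne] at key
  have hsum : ∑ i, ((0 : DD (tyW b) → ℝ) i - (0 : DD (tyW b) → ℝ) i) = 0 := by simp
  rw [hsum, mul_zero] at key
  exact key

/-- the other slot of a region does not depend on the hinge `h` -/
theorem Ow_other (A : Adj h i s j) {z z' : DD (tyW b) ⊕ ZZ (tyW b) → ℂ}
    (e : ∀ v, v ≠ .inl (.inl h) → z' v = z v) : Ow b z' i s.rev = Ow b z i s.rev := by
  rcases A.other b z (fun _ => 0) with ⟨he, -⟩ | ⟨-, h2, j2, A2⟩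
  · rw [A.Ow_no he, A.Ow_no he]
  · rw [Ow_adj z' A2, Ow_adj z A2, e]
    intro hc
    have h3 : h2 = h := by simpa using hc
    subst h3
    generalize hs : s.rev = s' at A2
    cases A with
    | l =>
      generalize hi : h2.castSucc = i' at A2
      cases A2 with
      | l => exact absurd hs (by decide)
      | r => exact absurd hi (Fin.castSucc_lt_succ (i := h2)).ne
    | r =>
      generalize hi : h2.succ = i' at A2
      cases A2 with
      | l => exact absurd hi (Fin.castSucc_lt_succ (i := h2)).ne'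
      | r => exact absurd hs (by decide)

theorem Ow_moved (A : Adj h i s j) {z' : DD (tyW b) ⊕ ZZ (tyW b) → ℂ} {c : ℝ}
    (e : z' (.inl (.inl h)) = tg b zs h c) : Ow b z' i s = tgo b zs h i c := by
  rw [Ow_adj z' A, e, ofr_tg]

theorem Vr_one_slot (A : Adj h i s j) (hb : ClassW b) (hc : clsW b i = .one)
    (z : DD (tyW b) ⊕ ZZ (tyW b) → ℂ) :
    Vr b z i = V1 (Ow b z i s) (Ow b z i s.rev) := by
  unfold Vr
  rw [OV_one hb hc]
  rcases A.slot with rfl | rfl
  · rfl
  · exact V1_comm _ _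

theorem Vr_two_slot (A : Adj h i s j) (hb : ClassW b) (hc : clsW b i = .two ∨ clsW b i = .twoE)
    (z : DD (tyW b) ⊕ ZZ (tyW b) → ℂ) :
    Vr b z i = V2 (Ow b z i s) (Ow b z i s.rev) := by
  unfold Vr
  rw [OV_two hb hc (Ow_endOk z i)]
  rcases A.slot with rfl | rfl
  · rfl
  · exact V2_comm _ _

/-- the move of a hinge between a two and a digit one -/
theorem MX.star_two_one (hb : ClassW b) (hM : MX b zs R z) (A : Adj h i s j)
    (hn : Sum.inl (Sum.inl h) ∉ nbT b R) {c : ℝ} (h0 : 0 ≤ c) (h1 : c ≤ wXM b h)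
    (hi : clsW b i = .two ∨ clsW b i = .twoE) (hj : clsW b j = .one) :
    (V2 (tgo b zs h i c) (Ow b z i s.rev) - V2 (Ow b z i s) (Ow b z i s.rev)) +
      (V1 (tgo b zs h j c) (Ow b z j s.rev.rev) - V1 (Ow b z j s.rev) (Ow b z j s.rev.rev)) ≤ 0 := by
  obtain ⟨z', e1, e2, st⟩ := hM.star hb A hn h0 h1
  rw [Vr_two_slot A hb hi, Vr_two_slot A hb hi, Vr_one_slot A.symm hb hj,
    Vr_one_slot A.symm hb hj, Ow_moved A e1, Ow_moved A.symm e1, Ow_other A e2,
    Ow_other A.symm e2] at st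
  exact st

/-! ### positions -/

theorem MX.npos0 (hR : ∀ i ∈ R, Sum.inl i ∈ nbT b R) (hM : MX b zs R z) (A' : Adj h' i s j')
    (hnR : (Sum.inl h' : DD (tyW b)) ∉ R) : NPos b zs (nbT b R) 0 h' i s (Ow b z i s) := by
  have hcx : ∀ {X Y : ℂ}, X.re = Y.re → X.im = Y.im → X = Y := fun h1 h2 => Complex.ext h1 h2
  rw [Ow_adj z A']
  by_cases hn : Sum.inl (Sum.inl h') ∈ nbT b R
  · obtain ⟨e1, e2, e3, e4⟩ := hM.adm.reD _ hnR hn
    refine .real (z (.inl (.inl h'))).re e2 e3 hn (hcx (ofr_re _ _) ?_) e4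
    rw [ofr_im, e1, ofs_zero]
  obtain ⟨x, h0, h1, h2⟩ := hM.adm.onD (.inl h') hn
  have hu : 0 < (wparM b zs).hu (.inl h') := (mh_pos (b := b) (zs := zs) (.inl h')).1
  have hd : 0 < (wparM b zs).hd (.inl h') := (mh_pos (b := b) (zs := zs) (.inl h')).2
  refine .main x h0 h1 hn ?_ rfl
  have e : ∀ H : ℝ, 0 = H * trh b h' x → H ≠ 0 → trh b h' x = 0 := by
    intro H h3 h4
    rcases mul_eq_zero.1 h3.symm with h5 | h5
    · exact absurd h5 h4
    · exact h5
  rcases h2 with ⟨e1, e2⟩ | ⟨e1, e2⟩ | ⟨e1, e2⟩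
  · apply hcx
    · rw [ofr_re, e1, ptm_re]
    · rw [ofr_im, e1, ptm_im, ofs_mulR]
      rfl
  · have h3 : trh b h' x = 0 := e _ e2 hu.ne'
    apply hcx
    · rw [ofr_re, e1, ptm_re]
    · rw [ofr_im, e1, ptm_im, ofs_mulR]
      show _ * trh b h' x = _
      rw [h3]
      simp
  · have h3 : trh b h' x = 0 := e _ e2 hd.ne'
    apply hcx
    · rw [ofr_re, e1, ptm_re]
    · rw [ofr_im, e1, ptm_im, ofs_mulR]
      show _ * trh b h' x = _
      rw [h3]
      simp

theorem MX.npos (hM : MX b zs R z) (A : Adj h i s j)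
    (hn : Sum.inl (Sum.inl h) ∉ nbT b R) (A' : Adj h' i s.rev j') :
    NPos b zs (nbT b R) 0 h' i s.rev (Ow b z i s.rev) :=
  hM.npos0 (nbT_ok b R).ok.1 A' fun hR => (nbT_ok b R).not_tch A hn ⟨_, hR, s.rev, A'.cf_ne⟩

/-! ### walls -/

/-- the walls of a touched region -/
theorem MX.wallR (hM : MX b zs R z) (ht : Tch b R i)
    (hr : ∀ v : ZZ (tyW b), v.1 ≠ i) {f : Fac}
    (hf : f ∈ facs (tyW b i) (decide (i ≠ 0)) (decide (i ≠ Fin.last M))) :
    (f.form (xx (tyW b) i z)).re ≤ 1 := by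
  obtain ⟨n, hn, rfl⟩ := List.mem_iff_getElem.1 hf
  have h1 := hM.adm.wall ⟨i, ⟨n, hn⟩⟩ ?_ ?_
  · rw [wdat_form] at h1
    exact h1
  · intro v
    simp only [wdat]
    refine Finset.sum_eq_zero fun q _ => ?_
    have : cf (tyW b) i q (.inr v) = 0 := by
      simp [cf, hr v]
    rw [this]
    simp
  · intro d hd
    simp only [wdat] at hd
    obtain ⟨q, -, hq⟩ := Finset.exists_ne_zero_of_sum_ne_zero hd
    refine (nbT_ok b R).mem ht (q := q) ?_
    intro h0
    apply hq
    rw [h0]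
    simp

/-- wall of a touched region with one crossing or with two crossings -/
theorem MX.wall12 (hb : ClassW b) (hM : MX b zs R z) (ht : Tch b R i)
    (hc : clsW b i = .one ∨ clsW b i = .two) :
    (Ow b z i 0).re + (Ow b z i 2).re ≤ 1 := by
  rw [Ow_re0, Ow_re2]
  have hr : clsW b i ≠ .ring := by
    rcases hc with h | h <;> rw [h] <;> decide
  have he : isEnd i = false := by
    rcases hc with h | h
    · exact clsW_inner hb (Or.inl h)
    · exact clsW_inner hb (Or.inr (Or.inl h))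
  unfold isEnd at he
  have he' := of_decide_eq_false he
  rw [not_or] at he'
  have e0 : decide (i ≠ 0) = true := by simpa using he'.1
  have e2 : decide (i ≠ Fin.last M) = true := by simpa using he'.2
  have h1 := hM.wallR ht (ring_ne hr) (f := ⟨![1, 0, 1], 0, 1 / 2⟩) (by
    rw [e0, e2]
    rcases hc with h | h
    · rw [tyW_of_one h]; simp [facs]
    · rw [tyW_of_two (Or.inl h)]; simp [facs])
  simp only [Fac.form, Fin.sum_univ_three] at h1
  simpa using h1

/-- walls of a touched interior region with three crossings -/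
theorem MX.wall3 (hM : MX b zs R z) (ht : Tch b R i) (hc : clsW b i = .three) :
    (Ow b z i 1).re + (Ow b z i 2).re ≤ 1 ∧ (Ow b z i 0).re ≤ (Ow b z i 1).re := by
  have hty := tyW_of_three hc
  have hr : clsW b i ≠ .ring := by rw [hc]; decide
  rw [Ow_re0, Ow_re1 z (by rw [hty]; decide), Ow_re2]
  have h1 := hM.wallR ht (ring_ne hr) (f := ⟨![0, 1, 1], 0, 1 / 2⟩) (by
    rw [hty]; simp [facs])
  have h2 := hM.wallR ht (ring_ne hr) (f := ⟨![1, -1, 0], 1, -(1 / 2)⟩) (by
    rw [hty]; simp [facs])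
  simp only [Fac.form, Fin.sum_univ_three] at h1 h2
  constructor
  · simpa using h1
  · simp at h2
    linarith only [h2]

/-- the tail -/
theorem MX.tail_re (hM : MX b zs R z) {d : DD (tyW b)} (hd : d ∈ R) :
    (wpar b zs).XM d ≤ (z (.inl d)).re := (hM.adm.tail d hd).2.1

/-- **A real hinge** of an untouched region: the walls of the region behind. -/
theorem MX.real_le (hb : ClassW b) (hM : MX b zs R z)
    (A' : Adj h' i s j') (hi : ¬ Tch b R i) (hn : Sum.inl (Sum.inl h') ∈ nbT b R)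
    (hc : clsW b j' = .one ∨ clsW b j' = .two ∨ (clsW b j' = .three ∧ s = 0)) :
    (Ow b z i s).re ≤ 2 / 5 := by
  have hN := nbT_ok b R
  obtain ⟨ht, hR⟩ := hN.beyond A' hi hn
  have e1 : (Ow b z i s).re = (Ow b z j' s.rev).re := by
    rw [Ow_adj z A', Ow_adj z A'.symm, ofr_re, ofr_re]
  rw [e1]
  have hnr : clsW b j' ≠ .ring := by
    rcases hc with h | h | ⟨h, -⟩ <;> rw [h] <;> decide
  have hslot := A'.slot
  have key : ∀ {h2 : Fin M} {q : Fin 3} {k}, (Sum.inl h2 : DD (tyW b)) ∈ R → Adj h2 j' q k →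
      q = s ∧ 6 / 10 ≤ (Ow b z j' q).re := by
    intro h2 q k h2R A2
    constructor
    · by_contra hq
      have h3 : q = s.rev := by
        rcases A2.slot with rfl | rfl <;> rcases hslot with rfl | rfl
        · exact absurd rfl hq
        · rfl
        · rfl
        · exact absurd rfl hq
      subst h3
      exact hR (A2.eq_of_slot A'.symm ▸ h2R)
    · rw [Ow_adj z A2, ofr_re]
      exact (wXM_ge A2 hnr).trans (hM.tail_re h2R)
  have ht' := ht
  obtain ⟨d, hd, q, hq⟩ := ht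
  rcases hc with hc | hc
  · have h1 := hM.wall12 hb ht' (Or.inl hc)
    rcases d with h2 | m
    · obtain ⟨k, A2⟩ := adj_of_cf hq
      obtain ⟨rfl, h3⟩ := key hd A2
      rcases hslot with rfl | rfl
      · show (Ow b z j' 2).re ≤ 2 / 5
        linarith only [h1, h3]
      · show (Ow b z j' 0).re ≤ 2 / 5
        linarith only [h1, h3]
    · exfalso
      have h2 := m.2
      rw [cf_inner_ne hq, tyW_of_one hc] at h2
      exact absurd h2 (by decide)
  rcases hc with hc | ⟨hc, rfl⟩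
  · have h1 := hM.wall12 hb ht' (Or.inr hc)
    rcases d with h2 | m
    · obtain ⟨k, A2⟩ := adj_of_cf hq
      obtain ⟨rfl, h3⟩ := key hd A2
      rcases hslot with rfl | rfl
      · show (Ow b z j' 2).re ≤ 2 / 5
        linarith only [h1, h3]
      · show (Ow b z j' 0).re ≤ 2 / 5
        linarith only [h1, h3]
    · exfalso
      have h2 := m.2
      rw [cf_inner_ne hq, tyW_of_two (Or.inl hc)] at h2
      exact absurd h2 (by decide)
  · obtain ⟨h1, h2⟩ := hM.wall3 ht' hc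
    show (Ow b z j' 2).re ≤ 2 / 5
    rcases d with h2' | m
    · obtain ⟨k, A2⟩ := adj_of_cf hq
      obtain ⟨rfl, h3⟩ := key hd A2
      linarith only [h1, h2, h3]
    · have e : m.1 = j' := cf_inner_ne hq
      subst e
      have h3 := hM.tail_re hd
      have h4 : (wpar b zs).XM (.inr m) = 8 / 10 := by
        show (mp (clsW b m.1)).XM = 8 / 10
        rw [hc]
        rfl
      rw [h4] at h3
      rw [Ow_inner, ofr_re] at h1
      linarith only [h1, h3]

end TL

end Pool.Agent.Work.MP_b30479_gt.G2
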