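import Pool.Agent.Work.MP_b30479_gt.G2.TDef3
import Pool.Agent.Work.MP_b30479_gt.G2.TWX
import Pool.Agent.Work.MP_b30479_gt.G2.WLocA

/-!
# Tails: statuses, targets, shares of a word

`R`: the set of the variables in the tail; `Tch b R i`: the region `i` is touched.  The real
variables are those of `nbT b R`.  `zN`: the new point.  `sh`: the shares of the slots.
-/

namespace Pool.Agent.Work.MP_b30479_gt.G2

open Finset VOL Filter Topology SR

namespace TL

variable {M : ℕ}

/-! ### statuses -/

/-- the hinge `h` is in the tail -/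
def isT (b : Fin (M + 1) → ℤ) (R : Finset (DD (tyW b))) (h : Fin M) : Prop :=
  (Sum.inl h : DD (tyW b)) ∈ R

/-- a hinge of the region `i` is in the tail -/
def hT (b : Fin (M + 1) → ℤ) (R : Finset (DD (tyW b))) (i : Fin (M + 1)) : Prop :=
  ∃ (h : Fin M) (p : Fin 3) (j : Fin (M + 1)), Adj h i p j ∧ isT b R h

/-- the hinge `h` belongs to a touched region (it is real) -/
def nbH (b : Fin (M + 1) → ℤ) (R : Finset (DD (tyW b))) (h : Fin M) : Prop :=
  Tch b R h.castSucc ∨ Tch b R h.succ

/-- the inner variable of the region `i` is real -/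
def nbM (b : Fin (M + 1) → ℤ) (R : Finset (DD (tyW b))) (i : Fin (M + 1)) : Prop :=
  Tch b R i ∨ (clsW b i = .threeE ∧ ∃ (h : Fin M) (p : Fin 3) (j : Fin (M + 1)),
    Adj h i p j ∧ Tch b R j)

/-! ### targets -/

/-- kind of the region `i` seen through its slot `p` -/
def kd (b : Fin (M + 1) → ℤ) (i : Fin (M + 1)) (p : Fin 3) : Ct :=
  match clsW b i with
  | .one => .one
  | .two => .two
  | .twoE => .twoE
  | .three => if p = 0 then .threeA else .threeK
  | .threeE => .threeE
  | .ring => .ring

open Classical in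
/-- kind of the region `i` seen through its slot `p`, `touched` if it is touched -/
noncomputable def kb (b : Fin (M + 1) → ℤ) (R : Finset (DD (tyW b))) (i : Fin (M + 1))
    (p : Fin 3) : Ct := if Tch b R i then .touched else kd b i p

open Classical in
/-- real part of the target of the real hinge (not in the tail) in the slot `p` of the touched
region `i`; `C` is the kind of the region behind it, `x` the old position -/
noncomputable def tgK (b : Fin (M + 1) → ℤ) (R : Finset (DD (tyW b))) (i : Fin (M + 1))
    (p : Fin 3) (C : Ct) (x : ℝ) : ℝ :=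
  if clsW b i = .ring then cZ C
  else if hT b R i then cN C
  else if clsW b i = .three ∧ p = 2 then cW C
  else cU C x

open Classical in
/-- real part of the target of the hinge `h`, `x` is the old position -/
noncomputable def tgt (b : Fin (M + 1) → ℤ) (R : Finset (DD (tyW b))) (h : Fin M) (x : ℝ) : ℝ :=
  if isT b R h then cT (clsW b h.castSucc) (clsW b h.succ)
  else if Tch b R h.castSucc then tgK b R h.castSucc 2 (kb b R h.succ 0) x
  else tgK b R h.succ 0 (kb b R h.castSucc 2) x

open Classical in
/-- real part of the target of the inner variable of the region `i` if it is moved; `x`: old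
positions of the hinges -/
noncomputable def tmt (b : Fin (M + 1) → ℤ) (R : Finset (DD (tyW b))) (i : Fin (M + 1))
    (x : Fin M → ℝ) : ℝ :=
  if clsW b i = .threeE then
    (if hx : ∃ (h : Fin M) (q : Fin 3 × Fin (M + 1)), Adj h i q.1 q.2 then
      tgt b R hx.choose (x hx.choose) +
        (if Tch b R i ∧ ¬ hT b R i then
          dE (kb b R hx.choose_spec.choose.2 hx.choose_spec.choose.1.rev) else 1 / 6)
    else 0)
  else if Tch b R i then (if hT b R i then 42 / 100 else 9 / 20) else 1 / 4

/-- the inner variable of an untouched interior three is moved: the hinge in the slot `0` is real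
and the inner variable is to the left of `2/10` -/
def mvM (b : Fin (M + 1) → ℤ) (R : Finset (DD (tyW b)))
    (z : DD (tyW b) ⊕ ZZ (tyW b) → ℂ) (m : {i : Fin (M + 1) // (tyW b i).isMid = true}) : Prop :=
  (∃ (h : Fin M) (j : Fin (M + 1)), Adj h m.1 0 j ∧ nbH b R h) ∧
    (z (.inl (.inr m))).re < 2 / 10

open Classical in
/-- **The new point.**  `c`: real parts (own frame) of the targets of the ring variables. -/
noncomputable def zN (b : Fin (M + 1) → ℤ) (R : Finset (DD (tyW b)))
    (zs z : DD (tyW b) ⊕ ZZ (tyW b) → ℂ) (c : ZZ (tyW b) → ℝ) : DD (tyW b) ⊕ ZZ (tyW b) → ℂ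
  | .inl (.inl h) => if nbH b R h then
      ⟨tgt b R h (z (.inl (.inl h))).re, (zs (.inl (.inl h))).im⟩ else z (.inl (.inl h))
  | .inl (.inr m) => if nbM b R m.1 ∨ mvM b R z m then
      ⟨tmt b R m.1 fun h => (z (.inl (.inl h))).re, (zs (.inl (.inr m))).im⟩ else z (.inl (.inr m))
  | .inr v => if Tch b R v.1 then ⟨ofs (b v.1) (c v), (zs (.inr v)).im⟩ else z (.inr v)

open Classical in
/-- the point with only the hinge in the slot `0` of the region `i` and the inner variable of `i`
moved (the latter only if there is such a hinge) -/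
noncomputable def zH (b : Fin (M + 1) → ℤ) (R : Finset (DD (tyW b)))
    (zs z : DD (tyW b) ⊕ ZZ (tyW b) → ℂ) (i : Fin (M + 1)) : DD (tyW b) ⊕ ZZ (tyW b) → ℂ
  | .inl (.inl h) => if h.succ = i then zN b R zs z 0 (.inl (.inl h)) else z (.inl (.inl h))
  | .inl (.inr m) => if m.1 = i ∧ i ≠ 0 then zN b R zs z 0 (.inl (.inr m)) else z (.inl (.inr m))
  | .inr v => z (.inr v)

/-! ### shares -/

/-- gain of the untouched region `i` by the move of the hinge in its slot `p` -/
noncomputable def pc (b : Fin (M + 1) → ℤ) (R : Finset (DD (tyW b)))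
    (zs z : DD (tyW b) ⊕ ZZ (tyW b) → ℂ) (i : Fin (M + 1)) (p : Fin 3) : ℝ :=
  if p = 0 then Vr b (zH b R zs z i) i - Vr b z i
  else Vr b (zN b R zs z 0) i - Vr b (zH b R zs z i) i

/-- share of the region `i` at its hinge in the tail at `x`, `t` is the height of the saddle point
in the own frame of `i`, `j` the region on the other side, `C` the class behind the other hinge of
`i` -/
noncomputable def shT (b : Fin (M + 1) → ℤ) (i j : Fin (M + 1)) (C : Cl) (x t : ℝ) : ℝ :=
  if clsW b i = .ring then gR (clsW b j) x t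
  else if clsW b j = .ring then gD (clsW b i) x t
  else al (clsW b i) (clsW b j) C x - be (clsW b i) (clsW b j) * t

/-- share of the touched region `i` at its real hinge, the region `j` on the other side is touched
too -/
noncomputable def shN (b : Fin (M + 1) → ℤ) (i j : Fin (M + 1)) (t : ℝ) : ℝ :=
  if clsW b i = .ring ∧ clsW b j = .ring then 0 else -(59 / 25) * t

/-- a special hinge `h`: real, to the left of `1/20`, between an untouched digit one on the left,
whose left neighbour is an untouched interior three, and a touched one or two on the right -/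
def Spc (b : Fin (M + 1) → ℤ) (R : Finset (DD (tyW b))) (z : DD (tyW b) ⊕ ZZ (tyW b) → ℂ)
    (h : Fin M) : Prop :=
  Tch b R h.succ ∧ (clsW b h.succ = .one ∨ clsW b h.succ = .two) ∧ ¬ Tch b R h.castSucc ∧
    clsW b h.castSucc = .one ∧ (∃ (u : Fin M) (m : Fin (M + 1)), Adj u h.castSucc 0 m ∧
      clsW b m = .three ∧ ¬ Tch b R m) ∧ (z (.inl (.inl h))).re ≤ 1 / 20

open Classical in
/-- extra loss at a special hinge -/
noncomputable def ee (b : Fin (M + 1) → ℤ) (R : Finset (DD (tyW b)))
    (z : DD (tyW b) ⊕ ZZ (tyW b) → ℂ) (h : Fin M) : ℝ := if Spc b R z h then 1 / 100 else 0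

open Classical in
/-- share of the region `i` at its slot `p` with the hinge `h` towards `j` -/
noncomputable def shA (b : Fin (M + 1) → ℤ) (R : Finset (DD (tyW b)))
    (zs z : DD (tyW b) ⊕ ZZ (tyW b) → ℂ) (h : Fin M) (i : Fin (M + 1)) (p : Fin 3)
    (j : Fin (M + 1)) : ℝ :=
  if isT b R h then shT b i j (oc b i p.rev) (z (.inl (.inl h))).re (Th b zs h i)
  else if Tch b R i then
    (if Tch b R j then shN b i j (Th b zs h i) else -pc b R zs z j p.rev + ee b R z h)
  else pc b R zs z i p

open Classical in
/-- **The shares.** -/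
noncomputable def sh (b : Fin (M + 1) → ℤ) (R : Finset (DD (tyW b)))
    (zs z : DD (tyW b) ⊕ ZZ (tyW b) → ℂ) (i : Fin (M + 1)) (p : Fin 3) : ℝ :=
  if hx : ∃ (q : Fin M × Fin (M + 1)), Adj q.1 i p q.2 then
    shA b R zs z hx.choose.1 i p hx.choose.2
  else 0

/-! ### the setting -/

/-- **The setting**: a maximiser over the main paths, the real variables fixed. -/
structure Tl (b : Fin (M + 1) → ℤ) (zs : DD (tyW b) ⊕ ZZ (tyW b) → ℂ) (R : Finset (DD (tyW b)))
    (z : DD (tyW b) ⊕ ZZ (tyW b) → ℂ) : Prop where
  hb : ClassW b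
  L : LocA b zs
  mx : MX b zs R z

/-- the gains of all untouched regions behind real hinges -/
def Gains (b : Fin (M + 1) → ℤ) (zs : DD (tyW b) ⊕ ZZ (tyW b) → ℂ) (R : Finset (DD (tyW b)))
    (z : DD (tyW b) ⊕ ZZ (tyW b) → ℂ) : Prop :=
  ∀ {h : Fin M} {i j : Fin (M + 1)} {q : Fin 3}, Adj h j q i → Tch b R i → ¬ Tch b R j →
    Gn (clsW b i) (tgt b R h (z (.inl (.inl h))).re) (z (.inl (.inl h))).re (Th b zs h j)
      (kd b j q) (pc b R zs z j q)

end TL

end Pool.Agent.Work.MP_b30479_gt.G2
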