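import Pool.Agent.Work.MP_b30479_gt.G2.TW
import Pool.Agent.Work.MP_b30479_gt.G2.TL6
import Pool.Agent.Work.MP_b30479_gt.G2.WLocY

/-!
# Tails, word level: the other hinge of an untouched digit two

`Tl.two_le`: it is at most at `6/10` if it is next to a digit one and the real hinge is at most at
`27/100`.
-/

namespace Pool.Agent.Work.MP_b30479_gt.G2

open Finset VOL Filter Topology SR

namespace TL

variable {M : ℕ} {b : Fin (M + 1) → ℤ} {zs z : DD (tyW b) ⊕ ZZ (tyW b) → ℂ}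
variable {R : Finset (DD (tyW b))} {h h' : Fin M} {i j j' k : Fin (M + 1)} {p q : Fin 3}

theorem nn_of (hn : ¬ nbH b R h) : Sum.inl (Sum.inl h) ∉ nbT b R := by
  intro hm
  obtain ⟨m, hm, q, hq⟩ := (nbT_ok b R).conv_hinge hm
  rcases cf_hinge_ne hq with ⟨e, -⟩ | ⟨e, -⟩
  · exact hn (Or.inl (e ▸ hm))
  · exact hn (Or.inr (e ▸ hm))

/-- parameters of a hinge of a digit `1` -/
theorem par1_le (A : Adj h i p j) (hi : clsW b i = .one) (P : Cl) (hP : clsW b j ≠ .one ∨
    P ≠ .one ∨ oc b i p.rev = .one) : wXM b h ≤ pM P (clsW b j) := by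
  rw [A.XM_eq b, hi]
  unfold hpp
  rcases hj : clsW b j with _ | _ | _ | _ | _ | _
  · rw [hj] at hP
    have : P ≠ .one ∨ oc b i p.rev = .one := hP.resolve_left (by simp)
    unfold pM hp
    split_ifs <;> first | norm_num; done | (exfalso; tauto)
  all_goals
    unfold pM hp hp1
    split_ifs <;> norm_num

/-- ramps of a hinge of a digit `1` -/
theorem par1_ramp (A : Adj h i p j) (hi : clsW b i = .one) :
    pa (clsW b j) ≤ wcl b h ∧ pb (clsW b j) ≤ wcr b h ∧ 0 < pa (clsW b j) ∧ 0 < pb (clsW b j) := by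
  rw [A.cl_eq b, A.cr_eq b, hi]
  unfold hpp
  rcases hj : clsW b j with _ | _ | _ | _ | _ | _
  all_goals
    unfold pa pb hp
    split_ifs <;> norm_num [hp1]

theorem par12 (A : Adj h i p j) (hc : clsW b i = .one) (hj : clsW b j = .two) :
    wXM b h = 80 / 100 ∧ wcl b h = 16 / 100 ∧ wcr b h = 29 / 100 := by
  rw [A.XM_eq b, A.cl_eq b, A.cr_eq b, hc, hj]
  unfold hpp hp hp1
  split_ifs <;> norm_num

/-- a position on the trapezoid path is in the region -/
theorem RgO_of {K D : Cl} {τ T x X cl cr : ℝ} (x0 : 0 ≤ x) (x1 : x ≤ X) (hX : X ≤ pM K D)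
    (hl : pa D ≤ cl) (hr : pb D ≤ cr) (la : 0 < pa D) (lb : 0 < pb D)
    (t0 : (cw K D).t0 ≤ T) (t1 : T ≤ (cw K D).t1) (s0 : (cw K D).s0 ≤ τ + T)
    (s1 : τ + T ≤ (cw K D).s1) {Y : ℝ} (hY : Y = T * tr 0 X cl cr x ∨ Y = 0) : RgO K D τ x Y := by
  refine ⟨x0, x1.trans hX, T, t0, t1, s0, s1, ?_⟩
  have hcl : 0 < cl := la.trans_le hl
  have hcr : 0 < cr := lb.trans_le hr
  have h1 : 0 ≤ tr 0 X cl cr x ∧ tr 0 X cl cr x ≤ 1 := SR.tr_mem 0 X cl cr x
  have h2 : tr 0 X cl cr x * cl ≤ x := by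
    have : tr 0 X cl cr x ≤ x / cl := by
      unfold tr
      refine max_le (div_nonneg x0 hcl.le) ?_
      refine (min_le_right _ _).trans ((min_le_left _ _).trans ?_)
      rw [sub_zero]
    calc tr 0 X cl cr x * cl ≤ x / cl * cl := mul_le_mul_of_nonneg_right this hcl.le
      _ = x := div_mul_cancel₀ _ hcl.ne'
  have h3 : tr 0 X cl cr x * cr ≤ X - x := by
    have : tr 0 X cl cr x ≤ (X - x) / cr := by
      unfold tr
      refine max_le (div_nonneg (by linarith) hcr.le) ?_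
      exact (min_le_right _ _).trans (min_le_right _ _)
    calc tr 0 X cl cr x * cr ≤ (X - x) / cr * cr := mul_le_mul_of_nonneg_right this hcr.le
      _ = X - x := div_mul_cancel₀ _ hcr.ne'
  have h4 : pa D * tr 0 X cl cr x ≤ x := by
    have := mul_le_mul_of_nonneg_right hl h1.1
    linarith
  have h5 : pb D * tr 0 X cl cr x ≤ pM K D - x := by
    have := mul_le_mul_of_nonneg_right hr h1.1
    linarith
  rcases le_total 0 T with hT | hT
  · left
    rcases hY with rfl | rfl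
    · have e1 : T * tr 0 X cl cr x ≤ T * 1 := mul_le_mul_of_nonneg_left h1.2 hT
      have e2 := mul_le_mul_of_nonneg_left h4 hT
      have e3 := mul_le_mul_of_nonneg_left h5 hT
      refine ⟨mul_nonneg hT h1.1, by linarith, ?_, ?_⟩
      · linarith
      · linarith
    · refine ⟨le_refl _, hT, ?_, ?_⟩
      · rw [mul_zero]
        exact mul_nonneg hT x0
      · rw [mul_zero]
        exact mul_nonneg hT (by linarith)
  · right
    rcases hY with rfl | rfl
    · have e1 : T * 1 ≤ T * tr 0 X cl cr x := mul_le_mul_of_nonpos_left h1.2 hT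
      have e2 := mul_le_mul_of_nonpos_left h4 hT
      have e3 := mul_le_mul_of_nonpos_left h5 hT
      refine ⟨mul_nonpos_of_nonpos_of_nonneg hT h1.1, by linarith, ?_, ?_⟩
      · linarith
      · linarith
    · refine ⟨le_refl _, hT, ?_, ?_⟩
      · rw [mul_zero]
        exact mul_nonpos_of_nonpos_of_nonneg hT x0
      · rw [mul_zero]
        exact mul_nonpos_of_nonpos_of_nonneg hT (by linarith)

/-- the positions without modes -/
theorem NPos.zero {nb : Finset (DD (tyW b) ⊕ ZZ (tyW b))} {s : Fin 3} {X : ℂ}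
    (h0 : NPos b zs nb 0 h' i s X) : 0 ≤ X.re ∧ X.re ≤ wXM b h' ∧
      (X.im = Th b zs h' i * trh b h' X.re ∨ (Sum.inl (Sum.inl h') ∈ nb ∧ X.im = 0)) := by
  cases h0 with
  | main y y0 y1 hn e hp => rw [e]; exact ⟨y0, y1, Or.inl rfl⟩
  | real y y0 y1 hn e hp => rw [e]; exact ⟨y0, y1, Or.inr ⟨hn, rfl⟩⟩
  | up y y0 y1 hn hr hT e hp =>
    rw [e]
    have h1 : mhs b h' s.rev * trh b h' y = 0 := hp.symm
    refine ⟨y0, y1, Or.inl ?_⟩
    show mhs b h' s.rev * trh b h' y = Th b zs h' i * trh b h' y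
    rcases mul_eq_zero.1 h1 with h2 | h2
    · exact absurd h2 (mhs_pos _ _).ne'
    · rw [h2, mul_zero, mul_zero]
  | dn y y0 y1 hn hr hT e hp =>
    rw [e]
    have h1 : mhs b h' s * trh b h' y = 0 := hp.symm
    refine ⟨y0, y1, Or.inl ?_⟩
    show -(mhs b h' s * trh b h' y) = Th b zs h' i * trh b h' y
    rcases mul_eq_zero.1 h1 with h2 | h2
    · exact absurd h2 (mhs_pos _ _).ne'
    · rw [h2, mul_zero, mul_zero, neg_zero]

theorem Tl.hq (h : Fin M) : RH1 b (.inl h) → (0 : DD (tyW b) → ℝ) (.inl h) = 0 := fun _ => rfl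

/-- the other hinge of a digit one behind a hinge which is not real -/
theorem Tl.rgO (H : Tl b zs R z) (A : Adj h i p j) (hn : ¬ nbH b R h) (hi : clsW b i = .one)
    (hj : clsW b j ≠ .one) : ∃ D : Cl,
      (cw D (clsW b j)).t0 ≤ Th b zs h i ∧ Th b zs h i ≤ (cw D (clsW b j)).t1 ∧
      RgO (clsW b j) D (Th b zs h i) (Ow b z i p.rev).re (Ow b z i p.rev).im := by
  obtain ⟨h2, r, A2⟩ := A.other_one H.hb hi
  obtain ⟨a1, a2, a3, a4⟩ := H.L.X.win A A2 hi
  have A' : Adj h i p.rev.rev j := by rw [Fin.rev_rev]; exact A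
  obtain ⟨b1, b2, b3, b4⟩ := H.L.X.win A2 A' hi
  obtain ⟨n0, n1, n2⟩ := NPos.zero (H.mx.npos A (nn_of hn) A2)
  obtain ⟨c1, c2, c3, c4⟩ := par1_ramp A2 hi
  refine ⟨clsW b r, a1, a2, ?_⟩
  refine RgO_of n0 n1 (par1_le A2 hi _ ?_) c1 c2 c3 c4 b1 b2 ?_ ?_ (n2.imp id fun hh => hh.2)
  · exact Or.inr (Or.inl hj)
  · have : ofs (b i) (zs (.inl (.inl h2))).im + ofs (b i) (zs (.inl (.inl h))).im =
        Th b zs h i + ofs (b i) (zs (.inl (.inl h2))).im := add_comm _ _
    rw [← this]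
    exact b3
  · have : ofs (b i) (zs (.inl (.inl h2))).im + ofs (b i) (zs (.inl (.inl h))).im =
        Th b zs h i + ofs (b i) (zs (.inl (.inl h2))).im := add_comm _ _
    rw [← this]
    exact b4

theorem Tl.two_le (H : Tl b zs R z) (A : Adj h j q i) (A' : Adj h' j q.rev k) (hi : Tch b R i)
    (hj : ¬ Tch b R j) (hn : ¬ nbH b R h') (hc : clsW b j = .two) (hk : clsW b k = .one)
    (hw : (z (.inl (.inl h))).re ≤ 27 / 100) : (z (.inl (.inl h'))).re ≤ 6 / 10 := by
  by_contra hcon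
  push Not at hcon
  have hN := nbT_ok b R
  have hM := H.mx
  have hb := H.hb
  have hnn := nn_of hn
  -- the real hinge
  have hmem : Sum.inl (Sum.inl h) ∈ nbT b R := hN.mem hi A.symm.cf_ne
  have hnR : (Sum.inl h : DD (tyW b)) ∉ R := fun hR => hj ⟨_, hR, q, A.cf_ne⟩
  obtain ⟨r1, r2, r3, -⟩ := hM.adm.reD _ hnR hmem
  have eh : Ow b z j q = ⟨(z (.inl (.inl h))).re, 0⟩ := by
    rw [Ow_adj z A]
    apply Complex.ext
    · rw [ofr_re]
    · rw [ofr_im, r1, ofs_zero]
  -- the other hinge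
  have As := A'.symm
  have hrev : q.rev.rev = q := Fin.rev_rev q
  rw [hrev] at As
  obtain ⟨e1, e2, e3⟩ := par12 As hk hc
  have np := NPos.zero (hM.npos0 hN.ok.1 As fun hR => by
    exact hnn (hN.ok.1 _ hR))
  rw [Ow_adj z As, ofr_re, e1] at np
  obtain ⟨n0, n1, n2⟩ := np
  set X := (z (.inl (.inl h'))).re with hX
  have x1 : (8 : ℝ) / 10 = 80 / 100 := by norm_num
  have x2 : (29 : ℝ) / 100 = 29 / 100 := rfl
  have htr : trh b h' X = (8 / 10 - X) / (29 / 100) := by
    have h1 : (8 / 10 - X) / (29 / 100) ≤ 1 := by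
      rw [div_le_one (by norm_num)]; linarith
    have h2 : (8 / 10 - X) / (29 / 100) ≤ X / (16 / 100) := by
      rw [div_le_div_iff₀ (by norm_num) (by norm_num)]
      linarith
    have h3 : 0 ≤ (8 / 10 - X) / (29 / 100) := div_nonneg (by linarith) (by norm_num)
    unfold trh tr
    rw [e1, e2, e3, sub_zero, ← x1, min_eq_right h2, min_eq_right h1, max_eq_right h3]
  obtain ⟨D, t0, t1, hv⟩ := H.rgO As hn hk (by rw [hc]; decide)
  rw [hc] at t0 t1 hv
  set T := Th b zs h' k with hT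
  have hTj : Th b zs h' j = -T := by
    have hs := sign_adj hb As (by rw [hk]; decide)
    exact ofs_neg_of_opp hs _
  have hre : (Ow b z k q).re = X := by rw [Ow_adj z As, ofr_re]
  have him : (Ow b z k q).im = T * ((8 / 10 - X) / (29 / 100)) := by
    rcases n2 with n2 | ⟨n2, -⟩
    · rw [Ow_adj z As, n2, htr]
    · exact absurd n2 hnn
  have hown : Ow b z k q = ⟨X, T * ((8 / 10 - X) / (29 / 100))⟩ := Complex.ext hre him
  have hopp : Ow b z j q.rev = ⟨X, -(T * ((8 / 10 - X) / (29 / 100)))⟩ := by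
    have hs := sign_adj hb As (by rw [hk]; decide)
    apply Complex.ext
    · rw [Ow_adj z A', ofr_re]
    · rw [← him, Ow_adj z A', Ow_adj z As, ofr_im, ofr_im]
      exact ofs_neg_of_opp hs _
  have hx1 : (9 / 20 : ℝ) ≤ wXM b h' := by rw [e1]; norm_num
  have st := hM.star_two_one hb A' hnn (c := 9 / 20) (by norm_num) hx1 (Or.inl hc) hk
  rw [hrev, hopp, hown, eh] at st
  have htg : ∀ l, tgo b zs h' l (9 / 20) = ⟨9 / 20, Th b zs h' l⟩ := by
    intro l
    have h1 : trh b h' (9 / 20) = 1 := by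
      unfold trh tr
      rw [e1, e2, e3]
      norm_num
    unfold tgo
    rw [h1, mul_one]
  rw [htg, htg, hTj, ← hT] at st
  have key := pre_two (D := D) r2 hw hcon.le (n1.trans_eq x1.symm) t0 t1 hv
  rw [V2_comm _ ⟨9 / 20, -T⟩, V2_comm _ ⟨X, _⟩, Complex.eta] at key
  linarith

end TL

end Pool.Agent.Work.MP_b30479_gt.G2
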