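import Pool.Agent.Work.MP_b30479_gt.G2.TW

/-!
# Tails: basic facts at the word level
-/

namespace Pool.Agent.Work.MP_b30479_gt.G2

open Finset VOL Filter Topology SR

namespace TL

variable {M : ℕ} {b : Fin (M + 1) → ℤ} {zs z : DD (tyW b) ⊕ ZZ (tyW b) → ℂ}
variable {R : Finset (DD (tyW b))} {h h' : Fin M} {i j j' k : Fin (M + 1)} {p q : Fin 3}

/-! ### uniqueness -/

theorem adj_uniq (A : Adj h i p j) (A' : Adj h' i p j') : h = h' ∧ j = j' := by
  have e := A.eq_of_slot A'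
  subst e
  refine ⟨rfl, ?_⟩
  cases A with
  | l =>
    generalize hi : h.castSucc = i' at A'
    generalize hs : (2 : Fin 3) = s' at A'
    cases A' with
    | l => rfl
    | r => exact absurd hs (by decide)
  | r =>
    generalize hi : h.succ = i' at A'
    generalize hs : (0 : Fin 3) = s' at A'
    cases A' with
    | l => exact absurd hs (by decide)
    | r => rfl

theorem adj_l (A : Adj h i 2 j) : h.castSucc = i ∧ h.succ = j := by
  generalize hs : (2 : Fin 3) = s' at A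
  cases A with
  | l => exact ⟨rfl, rfl⟩
  | r => exact absurd hs (by decide)

theorem adj_r (A : Adj h i 0 j) : h.succ = i ∧ h.castSucc = j := by
  generalize hs : (0 : Fin 3) = s' at A
  cases A with
  | l => exact absurd hs (by decide)
  | r => exact ⟨rfl, rfl⟩

/-! ### shares -/

theorem rev_eq0 : ∀ q : Fin 3, q.rev = 0 → q = 2 := by decide

theorem rev_eq2 : ∀ q : Fin 3, q.rev = 2 → q = 0 := by decide

theorem sh_adj (A : Adj h i p j) : sh b R zs z i p = shA b R zs z h i p j := by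
  have hx : ∃ (q : Fin M × Fin (M + 1)), Adj q.1 i p q.2 := ⟨(h, j), A⟩
  unfold sh
  rw [dif_pos hx]
  obtain ⟨e1, e2⟩ := adj_uniq hx.choose_spec A
  rw [e1, e2]

theorem sh_none (hx : ¬ ∃ (q : Fin M × Fin (M + 1)), Adj q.1 i p q.2) :
    sh b R zs z i p = 0 := by
  unfold sh
  rw [dif_neg hx]

theorem sh_T (A : Adj h i p j) (ht : isT b R h) : sh b R zs z i p =
    shT b i j (oc b i p.rev) (z (.inl (.inl h))).re (Th b zs h i) := by
  rw [sh_adj A]
  unfold shA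
  rw [if_pos ht]

/-- an end: no share in the missing slot -/
theorem sh_end (A : Adj h i p j) (he : isEnd i = true) : sh b R zs z i p.rev = 0 := by
  apply sh_none
  rintro ⟨⟨h1, j1⟩, A'⟩
  have e := A.slot_end A' he
  rcases A.slot with rfl | rfl
  · exact absurd e (by decide)
  · exact absurd e (by decide)

theorem nbH_iff (A : Adj h i p j) : nbH b R h ↔ Tch b R i ∨ Tch b R j := by
  cases A
  · exact Iff.rfl
  · exact or_comm

theorem kb_tch (hj : Tch b R j) (q : Fin 3) : kb b R j q = .touched := by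
  unfold kb
  rw [if_pos hj]

theorem kb_un (hj : ¬ Tch b R j) (q : Fin 3) : kb b R j q = kd b j q := by
  unfold kb
  rw [if_neg hj]

theorem kd_ok (b : Fin (M + 1) → ℤ) (j : Fin (M + 1)) (q : Fin 3) :
    (kd b j q).ok (clsW b j) := by
  unfold kd
  rcases hc : clsW b j <;> simp only [Ct.ok]
  split_ifs <;> simp only

theorem kb_ok (b : Fin (M + 1) → ℤ) (R : Finset (DD (tyW b))) (j : Fin (M + 1)) (q : Fin 3) :
    (kb b R j q).ok (clsW b j) := by
  by_cases hj : Tch b R j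
  · rw [kb_tch hj]
    trivial
  · rw [kb_un hj]
    exact kd_ok b j q

theorem cT_comm (A B : Cl) : cT A B = cT B A := by
  cases A <;> cases B <;> rfl

theorem tgt_T (A : Adj h i p j) (ht : isT b R h) (x : ℝ) :
    tgt b R h x = cT (clsW b i) (clsW b j) := by
  unfold tgt
  rw [if_pos ht]
  cases A
  · rfl
  · exact cT_comm _ _

theorem tgK_touched (i : Fin (M + 1)) (p : Fin 3) (x : ℝ) : tgK b R i p .touched x = 1 / 5 := by
  unfold tgK
  split_ifs <;> rfl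

theorem tgt_nb (A : Adj h i p j) (hi : Tch b R i) (ht : ¬ isT b R h) (x : ℝ) :
    tgt b R h x = tgK b R i p (kb b R j p.rev) x := by
  unfold tgt
  rw [if_neg ht]
  cases A
  · rw [if_pos hi]
    rfl
  · by_cases hc : Tch b R h.castSucc
    · rw [if_pos hc, kb_tch hi, kb_tch hc, tgK_touched, tgK_touched]
    · rw [if_neg hc]
      rfl

/-- heights in the two frames -/
theorem Th_opp (hb : ClassW b) (A : Adj h i p j) (hr : clsW b i ≠ .ring ∨ clsW b j ≠ .ring) :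
    Th b zs h j = -Th b zs h i := A.ofs_conj (A.opp hb hr) _

theorem shN_un (hr : ¬ (clsW b i = .ring ∧ clsW b j = .ring)) (t : ℝ) :
    shN b i j t = -(59 / 25) * t := by
  unfold shN
  rw [if_neg hr]

theorem ee_nonneg (b : Fin (M + 1) → ℤ) (R : Finset (DD (tyW b)))
    (z : DD (tyW b) ⊕ ZZ (tyW b) → ℂ) (h : Fin M) : 0 ≤ ee b R z h := by
  unfold ee
  split_ifs <;> norm_num

theorem ee_zero (hs : ¬ Spc b R z h) : ee b R z h = 0 := by
  unfold ee
  rw [if_neg hs]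

/-- no extra loss if the region `i` is touched and no digit one or two -/
theorem ee_zero_cls (A : Adj h i p j) (hi : Tch b R i)
    (hc : clsW b i ≠ .one ∧ clsW b i ≠ .two) : ee b R z h = 0 := by
  apply ee_zero
  rintro ⟨h1, h2, h3, -⟩
  cases A
  · exact h3 hi
  · rcases h2 with h2 | h2
    · exact hc.1 h2
    · exact hc.2 h2

/-- no extra loss if both regions are touched -/
theorem ee_zero_tt (A : Adj h i p j) (hi : Tch b R i) (hj : Tch b R j) : ee b R z h = 0 := by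
  apply ee_zero
  rintro ⟨h1, h2, h3, -⟩
  cases A
  · exact h3 hi
  · exact h3 hj

/-- no extra loss if no region is touched -/
theorem ee_zero_uu (A : Adj h i p j) (hi : ¬ Tch b R i) (hj : ¬ Tch b R j) :
    ee b R z h = 0 := by
  apply ee_zero
  rintro ⟨h1, h2, h3, -⟩
  cases A
  · exact hj h1
  · exact hi h1

/-- the extra loss at a hinge of the touched region `i` -/
theorem ee_or (A : Adj h i p j) (hi : Tch b R i) : ee b R z h = 0 ∨
    (ee b R z h = 1 / 100 ∧ ¬ Tch b R j ∧ clsW b j = .one ∧ kb b R j p.rev = .one ∧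
      (clsW b i = .one ∨ clsW b i = .two) ∧ (z (.inl (.inl h))).re ≤ 1 / 20) := by
  by_cases hs : Spc b R z h
  · right
    have hs' := hs
    obtain ⟨h1, h2, h3, h4, -, h6⟩ := hs
    cases A
    · exact absurd hi h3
    · refine ⟨?_, h3, h4, ?_, h2, h6⟩
      · unfold ee
        rw [if_pos hs']
      · rw [kb_un h3]
        unfold kd
        rw [h4]
  · exact Or.inl (ee_zero hs)

theorem sh_nb (H : Tl b zs R z) (G : Gains b zs R z) (A : Adj h i p j) (hi : Tch b R i)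
    (ht : ¬ isT b R h) (hr : ¬ (clsW b i = .ring ∧ clsW b j = .ring ∧ Tch b R j)) :
    ∃ g, sh b R zs z i p = -g + ee b R z h ∧
      Gn (clsW b i) (tgt b R h (z (.inl (.inl h))).re) (z (.inl (.inl h))).re (Th b zs h j)
        (kb b R j p.rev) g := by
  rw [sh_adj A]
  unfold shA
  rw [if_neg ht, if_pos hi]
  by_cases hj : Tch b R j
  · have hr' : ¬ (clsW b i = .ring ∧ clsW b j = .ring) := fun hc => hr ⟨hc.1, hc.2, hj⟩
    rw [if_pos hj, shN_un hr', kb_tch hj, ee_zero_tt A hi hj]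
    have hr2 : clsW b i ≠ .ring ∨ clsW b j ≠ .ring := by
      by_contra hc
      rw [not_or, not_not, not_not] at hc
      exact hr' hc
    refine ⟨-(59 / 25) * Th b zs h j, ?_, .touched⟩
    rw [Th_opp H.hb A hr2]
    ring
  · rw [if_neg hj, kb_un hj]
    exact ⟨_, rfl, G A.symm hi hj⟩

/-- regions which are no digits one or two -/
theorem sh_nb0 (H : Tl b zs R z) (G : Gains b zs R z) (A : Adj h i p j) (hi : Tch b R i)
    (ht : ¬ isT b R h) (hr : ¬ (clsW b i = .ring ∧ clsW b j = .ring ∧ Tch b R j))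
    (hc : clsW b i ≠ .one ∧ clsW b i ≠ .two) :
    ∃ g, sh b R zs z i p = -g ∧
      Gn (clsW b i) (tgt b R h (z (.inl (.inl h))).re) (z (.inl (.inl h))).re (Th b zs h j)
        (kb b R j p.rev) g := by
  obtain ⟨g, h1, h2⟩ := sh_nb H G A hi ht hr
  rw [ee_zero_cls A hi hc, add_zero] at h1
  exact ⟨g, h1, h2⟩

theorem sh_rr (A : Adj h i p j) (hi : Tch b R i) (ht : ¬ isT b R h) (hri : clsW b i = .ring)
    (hrj : clsW b j = .ring) (hj : Tch b R j) : sh b R zs z i p = 0 := by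
  rw [sh_adj A]
  unfold shA
  rw [if_neg ht, if_pos hi, if_pos hj]
  unfold shN
  rw [if_pos ⟨hri, hrj⟩]

/-! ### the new point in the own frames -/

theorem zN_h (b : Fin (M + 1) → ℤ) (R : Finset (DD (tyW b)))
    (zs z : DD (tyW b) ⊕ ZZ (tyW b) → ℂ) (c : ZZ (tyW b) → ℝ) (hn : nbH b R h) :
    zN b R zs z c (.inl (.inl h)) =
      ⟨tgt b R h (z (.inl (.inl h))).re, (zs (.inl (.inl h))).im⟩ := if_pos hn

theorem zN_h' (b : Fin (M + 1) → ℤ) (R : Finset (DD (tyW b)))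
    (zs z : DD (tyW b) ⊕ ZZ (tyW b) → ℂ) (c : ZZ (tyW b) → ℝ) (hn : ¬ nbH b R h) :
    zN b R zs z c (.inl (.inl h)) = z (.inl (.inl h)) := if_neg hn

theorem zN_m (b : Fin (M + 1) → ℤ) (R : Finset (DD (tyW b)))
    (zs z : DD (tyW b) ⊕ ZZ (tyW b) → ℂ) (c : ZZ (tyW b) → ℝ)
    (m : {i : Fin (M + 1) // (tyW b i).isMid = true}) (hn : nbM b R m.1 ∨ mvM b R z m) :
    zN b R zs z c (.inl (.inr m)) =
      ⟨tmt b R m.1 fun h => (z (.inl (.inl h))).re, (zs (.inl (.inr m))).im⟩ := if_pos hn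

theorem zN_m' (b : Fin (M + 1) → ℤ) (R : Finset (DD (tyW b)))
    (zs z : DD (tyW b) ⊕ ZZ (tyW b) → ℂ) (c : ZZ (tyW b) → ℝ)
    (m : {i : Fin (M + 1) // (tyW b i).isMid = true}) (hn : ¬ (nbM b R m.1 ∨ mvM b R z m)) :
    zN b R zs z c (.inl (.inr m)) = z (.inl (.inr m)) := if_neg hn

theorem zN_z (b : Fin (M + 1) → ℤ) (R : Finset (DD (tyW b)))
    (zs z : DD (tyW b) ⊕ ZZ (tyW b) → ℂ) (c : ZZ (tyW b) → ℝ) (v : ZZ (tyW b))
    (hn : Tch b R v.1) :
    zN b R zs z c (.inr v) = ⟨ofs (b v.1) (c v), (zs (.inr v)).im⟩ := if_pos hn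

theorem zN_z' (b : Fin (M + 1) → ℤ) (R : Finset (DD (tyW b)))
    (zs z : DD (tyW b) ⊕ ZZ (tyW b) → ℂ) (c : ZZ (tyW b) → ℝ) (v : ZZ (tyW b))
    (hn : ¬ Tch b R v.1) :
    zN b R zs z c (.inr v) = z (.inr v) := if_neg hn

theorem Oh_new (hn : nbH b R h) (c : ZZ (tyW b) → ℝ) : Oh b (zN b R zs z c) i h =
    ⟨tgt b R h (z (.inl (.inl h))).re, Th b zs h i⟩ := by
  unfold Oh
  rw [zN_h b R zs z c hn]
  apply Complex.ext
  · rw [ofr_re]
  · rw [ofr_im]
    rfl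

theorem Om_new (m : {i : Fin (M + 1) // (tyW b i).isMid = true}) (hn : nbM b R m.1)
    (c : ZZ (tyW b) → ℝ) : Om b (zN b R zs z c) m =
    ⟨tmt b R m.1 fun h => (z (.inl (.inl h))).re, SR.Tm b zs m⟩ := by
  unfold Om
  rw [zN_m b R zs z c m (Or.inl hn)]
  apply Complex.ext
  · rw [ofr_re]
  · rw [ofr_im]
    rfl

theorem ofs_ofs' (d : ℤ) (x : ℝ) : ofs d (ofs d x) = x := by
  unfold ofs
  split_ifs <;> ring

theorem Oz_new (v : ZZ (tyW b)) (hi : Tch b R v.1) (c : ZZ (tyW b) → ℝ) :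
    Oz b (zN b R zs z c) v = ⟨c v, (zs (.inr v)).im⟩ := by
  unfold Oz
  rw [zN_z b R zs z c v hi]
  apply Complex.ext
  · rw [ofz_re]
    exact ofs_ofs' _ _
  · rw [ofz_im]

open Classical in
theorem tmt_threeE (A : Adj h i p j) (hc : clsW b i = .threeE) (x : Fin M → ℝ) :
    tmt b R i x = tgt b R h (x h) +
      (if Tch b R i ∧ ¬ hT b R i then dE (kb b R j p.rev) else 1 / 6) := by
  have hx : ∃ (h : Fin M) (q : Fin 3 × Fin (M + 1)), Adj h i q.1 q.2 := ⟨h, (p, j), A⟩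
  have hsp := hx.choose_spec.choose_spec
  have e1 : hx.choose_spec.choose.1 = p := (A.slot_end hsp (clsW_end (Or.inr hc))).symm
  have A2 := hsp
  rw [e1] at A2
  obtain ⟨e2, e3⟩ := adj_uniq A2 A
  unfold tmt
  rw [if_pos hc, dif_pos hx, e1, e3, e2]

open Classical in
theorem tmt_three (hc : clsW b i = .three) (x : Fin M → ℝ) :
    tmt b R i x = if Tch b R i then (if hT b R i then 42 / 100 else 9 / 20) else 1 / 4 := by
  have h0 : ¬ clsW b i = .threeE := by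
    rw [hc]
    decide
  unfold tmt
  rw [if_neg h0]

/-! ### positions -/

theorem nbH_mem (hn : nbH b R h) : Sum.inl (Sum.inl h) ∈ nbT b R := by
  rcases hn with h1 | h1
  · exact (nbT_ok b R).mem h1 (Adj.l (h := h)).cf_ne
  · exact (nbT_ok b R).mem h1 (Adj.r (h := h)).cf_ne

theorem nbH_of_mem (hn : Sum.inl (Sum.inl h) ∈ nbT b R) : nbH b R h := by
  obtain ⟨m, hm, q, hq⟩ := (nbT_ok b R).conv_hinge hn
  rcases cf_hinge_ne hq with ⟨rfl, -⟩ | ⟨rfl, -⟩
  · exact Or.inl hm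
  · exact Or.inr hm

theorem cf_mid_ne (m : {i : Fin (M + 1) // (tyW b i).isMid = true}) :
    cf (tyW b) m.1 1 (.inl (.inr m)) ≠ 0 := by simp [cf]

theorem nbM_mem {m : {i : Fin (M + 1) // (tyW b i).isMid = true}} (hn : nbM b R m.1) :
    Sum.inl (Sum.inr m) ∈ nbT b R := by
  rcases hn with h1 | ⟨h1, h, p, j, A, h2⟩
  · exact (nbT_ok b R).mem h1 (cf_mid_ne m)
  · exact (nbT_ok b R).endM _ ⟨m, rfl, h1, h, p, j, A, h2⟩

theorem nbM_of_mem {m : {i : Fin (M + 1) // (tyW b i).isMid = true}}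
    (hn : Sum.inl (Sum.inr m) ∈ nbT b R) : nbM b R m.1 := by
  rcases (nbT_ok b R).conv _ hn with ⟨m', hm, q, hq⟩ | ⟨m', e, h1, h2⟩
  · exact Or.inl (cf_inner_ne hq ▸ hm)
  · have e' : m = m' := by simpa using e
    subst e'
    exact Or.inr ⟨h1, h2⟩

theorem cf_ring_ne {v : ZZ (tyW b)} {k : Fin (M + 1)} {q : Fin 3}
    (h0 : cf (tyW b) k q (.inr v) ≠ 0) : v.1 = k := by
  by_contra hc
  simp [cf, hc] at h0

theorem tch_ring_iff (v : ZZ (tyW b)) : Sum.inr v ∈ nbT b R ↔ Tch b R v.1 := by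
  constructor
  · intro hn
    obtain ⟨m, hm, q, hq⟩ := (nbT_ok b R).conv_ring hn
    exact cf_ring_ne hq ▸ hm
  · intro h1
    refine (nbT_ok b R).mem h1 (q := 1) ?_
    simp [cf]

/-- the regions of a hinge in the tail are touched -/
theorem isT_tch (A : Adj h i p j) (ht : isT b R h) : Tch b R i := ⟨_, ht, p, A.cf_ne⟩

theorem isT_nb (ht : isT b R h) : nbH b R h := Or.inl (isT_tch (Adj.l (h := h)) ht)

theorem hT_tch (hi : hT b R i) : Tch b R i := by
  obtain ⟨h, p, j, A, ht⟩ := hi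
  exact isT_tch A ht

/-- an untouched region has no hinge in the tail -/
theorem not_isT (A : Adj h i p j) (hi : ¬ Tch b R i) : ¬ isT b R h := fun ht => hi (isT_tch A ht)

/-- what touches a region -/
theorem tch_iff : Tch b R i ↔ hT b R i ∨
    ∃ m : {i : Fin (M + 1) // (tyW b i).isMid = true}, m.1 = i ∧ (Sum.inr m : DD (tyW b)) ∈ R := by
  constructor
  · rintro ⟨d, hd, q, hq⟩
    rcases d with h | m
    · left
      obtain ⟨k, A⟩ := adj_of_cf hq
      exact ⟨h, q, k, A, hd⟩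
    · right
      exact ⟨m, cf_inner_ne hq, hd⟩
  · rintro (h1 | ⟨m, rfl, hm⟩)
    · exact hT_tch h1
    · exact ⟨_, hm, 1, cf_mid_ne m⟩

theorem Tl.tail (H : Tl b zs R z) (ht : isT b R h) :
    (z (.inl (.inl h))).im = 0 ∧ wXM b h ≤ (z (.inl (.inl h))).re ∧ (z (.inl (.inl h))).re ≤ 1 := by
  obtain ⟨e1, e2, e3, -⟩ := H.mx.adm.tail _ ht
  exact ⟨e1, e2, e3⟩

theorem Tl.real (H : Tl b zs R z) (hn : nbH b R h) (ht : ¬ isT b R h) :
    (z (.inl (.inl h))).im = 0 ∧ 0 ≤ (z (.inl (.inl h))).re ∧ (z (.inl (.inl h))).re ≤ wXM b h := by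
  obtain ⟨e1, e2, e3, -⟩ := H.mx.adm.reD _ ht (nbH_mem hn)
  exact ⟨e1, e2, e3⟩

/-- a real hinge, in the tail or not -/
theorem Tl.re_mem (H : Tl b zs R z) (hn : nbH b R h) :
    (z (.inl (.inl h))).im = 0 ∧ 0 ≤ (z (.inl (.inl h))).re ∧ (z (.inl (.inl h))).re ≤ 1 := by
  have hX := par1_good b (.inl h)
  have h1 : wXM b h = (par1 b (.inl h)).XM := rfl
  by_cases ht : isT b R h
  · obtain ⟨e1, e2, e3⟩ := H.tail ht
    exact ⟨e1, by linarith only [hX, h1, e2, hX.1, hX.2.1, hX.2.2.1], e3⟩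
  · obtain ⟨e1, e2, e3⟩ := H.real hn ht
    exact ⟨e1, e2, by linarith only [hX, h1, e3, hX.2.2.2]⟩

/-- a discrete variable which is not real is on its main path -/
theorem Tl.path0 (H : Tl b zs R z) {d : DD (tyW b)} (hn : Sum.inl d ∉ nbT b R) :
    0 ≤ (z (.inl d)).re ∧ (z (.inl d)).re ≤ (wpar b zs).XM d ∧
    (z (.inl d)).im = (zs (.inl d)).im * tr 0 ((wpar b zs).XM d) ((wpar b zs).cl d)
      ((wpar b zs).cr d) (z (.inl d)).re := by
  obtain ⟨x, h0, h1, h2⟩ := H.mx.adm.onD d hn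
  have hu : 0 < (wparM b zs).hu d := (mh_pos (b := b) (zs := zs) d).1
  have hd : 0 < (wparM b zs).hd d := (mh_pos (b := b) (zs := zs) d).2
  have e : ∀ {H t : ℝ}, 0 = H * t → H ≠ 0 → t = 0 := by
    intro H t h3 h4
    rcases mul_eq_zero.1 h3.symm with h5 | h5
    · exact absurd h5 h4
    · exact h5
  rcases h2 with ⟨e1, -⟩ | ⟨e1, e2⟩ | ⟨e1, e2⟩
  · rw [e1, ptm_re, ptm_im]
    exact ⟨h0, h1, rfl⟩
  · have h3 := e e2 hu.ne'
    rw [e1, ptm_re, ptm_im, h3, mul_zero]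
    refine ⟨h0, h1, ?_⟩
    have h4 : tr 0 ((wpar b zs).XM d) ((wpar b zs).cl d) ((wpar b zs).cr d) x = 0 := h3
    rw [h4, mul_zero]
  · have h3 := e e2 hd.ne'
    rw [e1, ptm_re, ptm_im, h3, mul_zero]
    refine ⟨h0, h1, ?_⟩
    have h4 : tr 0 ((wpar b zs).XM d) ((wpar b zs).cl d) ((wpar b zs).cr d) x = 0 := h3
    rw [h4, mul_zero]

theorem Tl.path (H : Tl b zs R z) (hn : ¬ nbH b R h) :
    0 ≤ (z (.inl (.inl h))).re ∧ (z (.inl (.inl h))).re ≤ wXM b h ∧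
    (z (.inl (.inl h))).im = (zs (.inl (.inl h))).im * trh b h (z (.inl (.inl h))).re :=
  H.path0 fun hc => hn (nbH_of_mem hc)

theorem Tl.mtail (H : Tl b zs R z) {m : {i : Fin (M + 1) // (tyW b i).isMid = true}}
    (ht : (Sum.inr m : DD (tyW b)) ∈ R) :
    (z (.inl (.inr m))).im = 0 ∧ (mp (clsW b m.1)).XM ≤ (z (.inl (.inr m))).re ∧
      (z (.inl (.inr m))).re ≤ 1 := by
  obtain ⟨e1, e2, e3, -⟩ := H.mx.adm.tail _ ht
  exact ⟨e1, e2, e3⟩

theorem Tl.mreal (H : Tl b zs R z) {m : {i : Fin (M + 1) // (tyW b i).isMid = true}}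
    (hn : nbM b R m.1) : (z (.inl (.inr m))).im = 0 ∧ 0 ≤ (z (.inl (.inr m))).re ∧
      (z (.inl (.inr m))).re ≤ 1 := by
  have hX := mp_good (clsW b m.1)
  by_cases ht : (Sum.inr m : DD (tyW b)) ∈ R
  · obtain ⟨e1, e2, e3⟩ := H.mtail ht
    exact ⟨e1, by linarith only [hX, e2, hX.1, hX.2.1, hX.2.2.1], e3⟩
  · obtain ⟨e1, e2, e3, -⟩ := H.mx.adm.reD _ ht (nbM_mem hn)
    have e4 : (z (.inl (.inr m))).re ≤ (mp (clsW b m.1)).XM := e3
    exact ⟨e1, e2, by linarith only [hX, e4, hX.2.2.2]⟩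

theorem Tl.mpath (H : Tl b zs R z) {m : {i : Fin (M + 1) // (tyW b i).isMid = true}}
    (hn : ¬ nbM b R m.1) : 0 ≤ (z (.inl (.inr m))).re ∧
      (z (.inl (.inr m))).re ≤ (mp (clsW b m.1)).XM ∧
      (z (.inl (.inr m))).im = (zs (.inl (.inr m))).im * trm b m (z (.inl (.inr m))).re :=
  H.path0 fun hc => hn (nbM_of_mem hc)

/-- position `X` of the other hinge `h'` of an untouched region `j` while its hinge `h` is moved, in
the own frame of `j`: on its path, real (old position), or already at its target -/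
inductive OPos (b : Fin (M + 1) → ℤ) (zs : DD (tyW b) ⊕ ZZ (tyW b) → ℂ) (R : Finset (DD (tyW b)))
    (z : DD (tyW b) ⊕ ZZ (tyW b) → ℂ) (h' : Fin M) (j : Fin (M + 1)) : ℂ → Prop
  | path (hn : ¬ nbH b R h') : OPos b zs R z h' j
      ⟨(z (.inl (.inl h'))).re, Th b zs h' j * trh b h' (z (.inl (.inl h'))).re⟩
  | real (hn : nbH b R h') : OPos b zs R z h' j ⟨(z (.inl (.inl h'))).re, 0⟩
  | new (hn : nbH b R h') : OPos b zs R z h' j
      ⟨tgt b R h' (z (.inl (.inl h'))).re, Th b zs h' j⟩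

theorem Tl.Oh_nb (H : Tl b zs R z) (hn : nbH b R h) (i : Fin (M + 1)) :
    Oh b z i h = ⟨(z (.inl (.inl h))).re, 0⟩ := Oh_real i (H.re_mem hn).1

theorem Tl.Oh_pt (H : Tl b zs R z) (hn : ¬ nbH b R h) (i : Fin (M + 1)) :
    Oh b z i h = ⟨(z (.inl (.inl h))).re, Th b zs h i * trh b h (z (.inl (.inl h))).re⟩ := by
  obtain ⟨-, -, e⟩ := H.path hn
  apply Complex.ext
  · exact Oh_re b z i h
  · rw [Oh_im, e, ofs_mulR]
    rfl

theorem Tl.opos_old (H : Tl b zs R z) (h' : Fin M) (j : Fin (M + 1)) :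
    OPos b zs R z h' j (Oh b z j h') := by
  by_cases hn : nbH b R h'
  · rw [H.Oh_nb hn]
    exact .real hn
  · rw [H.Oh_pt hn]
    exact .path hn

theorem Oh_congr {z1 z2 : DD (tyW b) ⊕ ZZ (tyW b) → ℂ} (i : Fin (M + 1))
    (e : z1 (.inl (.inl h)) = z2 (.inl (.inl h))) : Oh b z1 i h = Oh b z2 i h := by
  unfold Oh
  rw [e]

theorem Tl.opos_new (H : Tl b zs R z) (h' : Fin M) (j : Fin (M + 1)) (c : ZZ (tyW b) → ℝ) :
    OPos b zs R z h' j (Oh b (zN b R zs z c) j h') := by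
  by_cases hn : nbH b R h'
  · rw [Oh_new hn]
    exact .new hn
  · rw [Oh_congr j (zN_h' b R zs z c hn), H.Oh_pt hn]
    exact .path hn

/-! ### the two steps at an untouched region -/

theorem zH_r (hs : h.succ = j) : zH b R zs z j (.inl (.inl h)) = zN b R zs z 0 (.inl (.inl h)) :=
  if_pos hs

theorem zH_l (hs : h.succ ≠ j) : zH b R zs z j (.inl (.inl h)) = z (.inl (.inl h)) :=
  if_neg hs

theorem zH_z (j : Fin (M + 1)) (v : ZZ (tyW b)) : zH b R zs z j (.inr v) = z (.inr v) := rfl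

theorem zH_m {m : {i : Fin (M + 1) // (tyW b i).isMid = true}} (hm : m.1 = j) (h0 : j ≠ 0) :
    zH b R zs z j (.inl (.inr m)) = zN b R zs z 0 (.inl (.inr m)) := if_pos ⟨hm, h0⟩

theorem zH_m' (m : {i : Fin (M + 1) // (tyW b i).isMid = true}) :
    zH b R zs z 0 (.inl (.inr m)) = z (.inl (.inr m)) := if_neg fun hc => hc.2 rfl

/-- the base point and the moved point of the step of the slot `q` -/
noncomputable def Zb (b : Fin (M + 1) → ℤ) (R : Finset (DD (tyW b)))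
    (zs z : DD (tyW b) ⊕ ZZ (tyW b) → ℂ) (j : Fin (M + 1)) (q : Fin 3) :
    DD (tyW b) ⊕ ZZ (tyW b) → ℂ := if q = 0 then z else zH b R zs z j

noncomputable def Zm (b : Fin (M + 1) → ℤ) (R : Finset (DD (tyW b)))
    (zs z : DD (tyW b) ⊕ ZZ (tyW b) → ℂ) (j : Fin (M + 1)) (q : Fin 3) :
    DD (tyW b) ⊕ ZZ (tyW b) → ℂ := if q = 0 then zH b R zs z j else zN b R zs z 0

theorem pc_eq (j : Fin (M + 1)) (q : Fin 3) :
    pc b R zs z j q = Vr b (Zm b R zs z j q) j - Vr b (Zb b R zs z j q) j := by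
  unfold pc Zm Zb
  split_ifs <;> rfl

/-- the hinge which is moved -/
theorem Tl.Zb_h (H : Tl b zs R z) (A : Adj h j q i) (hn : nbH b R h) :
    Oh b (Zb b R zs z j q) j h = ⟨(z (.inl (.inl h))).re, 0⟩ := by
  rw [← H.Oh_nb hn j]
  apply Oh_congr
  unfold Zb
  rcases A.slot with rfl | rfl
  · rw [if_pos rfl]
  · rw [if_neg (by decide), zH_l]
    obtain ⟨e1, -⟩ := adj_l A
    rw [← e1]
    exact (Fin.castSucc_lt_succ (i := h)).ne'

theorem Zm_h (A : Adj h j q i) (hn : nbH b R h) :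
    Oh b (Zm b R zs z j q) j h = ⟨tgt b R h (z (.inl (.inl h))).re, Th b zs h j⟩ := by
  rw [← Oh_new (zs := zs) (z := z) (i := j) hn 0]
  apply Oh_congr
  unfold Zm
  rcases A.slot with rfl | rfl
  · rw [if_pos rfl, zH_r]
    exact (adj_r A).1
  · rw [if_neg (by decide)]

/-- the other hinge -/
theorem Z_o (A' : Adj h' j q.rev k) :
    Oh b (Zm b R zs z j q) j h' = Oh b (Zb b R zs z j q) j h' := by
  apply Oh_congr
  unfold Zm Zb
  rcases A'.slot with hq | hq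
  · have hq' : q = 2 := rev_eq0 _ hq
    subst hq'
    rw [if_neg (by decide), if_neg (by decide), zH_r]
    exact (adj_r A').1
  · have hq' : q = 0 := rev_eq2 _ hq
    subst hq'
    rw [if_pos rfl, if_pos rfl, zH_l]
    obtain ⟨e1, -⟩ := adj_l A'
    rw [← e1]
    exact (Fin.castSucc_lt_succ (i := h')).ne'

theorem Tl.Zb_o (H : Tl b zs R z) (A' : Adj h' j q.rev k) :
    OPos b zs R z h' j (Oh b (Zb b R zs z j q) j h') := by
  have h1 := H.opos_old h' j
  have h2 := H.opos_new h' j 0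
  unfold Zb
  split_ifs with hq
  · exact h1
  · by_cases hs : h'.succ = j
    · rw [Oh_congr j (zH_r hs)]
      exact h2
    · rw [Oh_congr j (zH_l hs)]
      exact h1

theorem Z_z (v : ZZ (tyW b)) (hj : ¬ Tch b R v.1) (j : Fin (M + 1)) (q : Fin 3) :
    Zb b R zs z j q (.inr v) = z (.inr v) ∧ Zm b R zs z j q (.inr v) = z (.inr v) := by
  unfold Zb Zm
  split_ifs
  · exact ⟨rfl, rfl⟩
  · exact ⟨rfl, zN_z' b R zs z 0 v hj⟩

theorem pc_one (H : Tl b zs R z) (A : Adj h j q i) (A' : Adj h' j q.rev k) (hi : Tch b R i)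
    (hj : ¬ Tch b R j) (hc : clsW b j = .one) : ∃ X, OPos b zs R z h' j X ∧
      pc b R zs z j q = V1 ⟨tgt b R h (z (.inl (.inl h))).re, Th b zs h j⟩ X -
        V1 ⟨(z (.inl (.inl h))).re, 0⟩ X := by
  have hn : nbH b R h := (nbH_iff A).2 (Or.inr hi)
  refine ⟨_, H.Zb_o A', ?_⟩
  rw [pc_eq, A.Vr_one A' H.hb hc, A.Vr_one A' H.hb hc, Zm_h A hn, H.Zb_h A hn, Z_o A']

theorem pc_two (H : Tl b zs R z) (A : Adj h j q i) (A' : Adj h' j q.rev k) (hi : Tch b R i)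
    (hj : ¬ Tch b R j) (hc : clsW b j = .two) : ∃ X, OPos b zs R z h' j X ∧
      pc b R zs z j q = V2 ⟨tgt b R h (z (.inl (.inl h))).re, Th b zs h j⟩ X -
        V2 ⟨(z (.inl (.inl h))).re, 0⟩ X := by
  have hn : nbH b R h := (nbH_iff A).2 (Or.inr hi)
  refine ⟨_, H.Zb_o A', ?_⟩
  rw [pc_eq, A.Vr_two A' H.hb hc, A.Vr_two A' H.hb hc, Zm_h A hn, H.Zb_h A hn, Z_o A']

theorem pc_twoE (H : Tl b zs R z) (A : Adj h j q i) (hi : Tch b R i) (hj : ¬ Tch b R j)
    (hc : clsW b j = .twoE) :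
      pc b R zs z j q = V2 ⟨tgt b R h (z (.inl (.inl h))).re, Th b zs h j⟩ 0 -
        V2 ⟨(z (.inl (.inl h))).re, 0⟩ 0 := by
  have hn : nbH b R h := (nbH_iff A).2 (Or.inr hi)
  rw [pc_eq, A.Vr_twoE H.hb hc, A.Vr_twoE H.hb hc, Zm_h A hn, H.Zb_h A hn]

theorem pc_ring (H : Tl b zs R z) (A : Adj h j q i) (hi : Tch b R i) (hj : ¬ Tch b R j)
    (v : ZZ (tyW b)) (hv : v.1 = j) :
      pc b R zs z j q = fR ⟨tgt b R h (z (.inl (.inl h))).re, Th b zs h j⟩ (Oz b z v) -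
        fR ⟨(z (.inl (.inl h))).re, 0⟩ (Oz b z v) := by
  subst hv
  have hn : nbH b R h := (nbH_iff A).2 (Or.inr hi)
  have hc : clsW b v.1 = .ring := by
    by_contra hc
    exact ring_ne hc v rfl
  obtain ⟨e1, e2⟩ := Z_z (zs := zs) (z := z) v hj v.1 q
  have e3 : Oz b (Zb b R zs z v.1 q) v = Oz b z v := by unfold Oz; rw [e1]
  have e4 : Oz b (Zm b R zs z v.1 q) v = Oz b z v := by unfold Oz; rw [e2]
  rw [pc_eq]
  rcases A.other b zs (fun _ => 0) with ⟨he, -⟩ | ⟨-, h', k, A'⟩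
  · rw [A.Vr_ringE v he H.hb hc, A.Vr_ringE v he H.hb hc, Zm_h A hn, H.Zb_h A hn, e3, e4]
    unfold VR fR
    ring
  · rw [A.Vr_ring v A' H.hb hc, A.Vr_ring v A' H.hb hc, Zm_h A hn, H.Zb_h A hn, Z_o A', e3, e4]
    unfold VR fR
    ring

/-! ### regions with three crossings -/

theorem Om_congr {z1 z2 : DD (tyW b) ⊕ ZZ (tyW b) → ℂ}
    (m : {i : Fin (M + 1) // (tyW b i).isMid = true})
    (e : z1 (.inl (.inr m)) = z2 (.inl (.inr m))) : Om b z1 m = Om b z2 m := by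
  unfold Om
  rw [e]

theorem Tl.Om_pt (H : Tl b zs R z) {m : {i : Fin (M + 1) // (tyW b i).isMid = true}}
    (hn : ¬ nbM b R m.1) :
    Om b z m = ⟨(z (.inl (.inr m))).re, SR.Tm b zs m * trm b m (z (.inl (.inr m))).re⟩ := by
  obtain ⟨-, -, e⟩ := H.mpath hn
  apply Complex.ext
  · unfold Om
    rw [ofr_re]
  · unfold Om
    rw [ofr_im, e, ofs_mulR]
    rfl

theorem Tl.Om_re (H : Tl b zs R z) {m : {i : Fin (M + 1) // (tyW b i).isMid = true}}
    (hn : nbM b R m.1) : Om b z m = ⟨(z (.inl (.inr m))).re, 0⟩ := by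
  obtain ⟨e, -, -⟩ := H.mreal hn
  apply Complex.ext
  · unfold Om
    rw [ofr_re]
  · unfold Om
    rw [ofr_im, e]
    unfold ofs
    split_ifs <;> simp

theorem not_nbM (hj : ¬ Tch b R j) (hc : clsW b j = .three) : ¬ nbM b R j := by
  rintro (h1 | ⟨h1, -⟩)
  · exact hj h1
  · rw [hc] at h1
    exact absurd h1 (by decide)

/-- the new inner variable of an untouched interior region with three crossings -/
theorem Tl.Om_mv (H : Tl b zs R z) {m : {i : Fin (M + 1) // (tyW b i).isMid = true}}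
    (hj : ¬ Tch b R m.1) (hc : clsW b m.1 = .three) :
    (mvM b R z m ∧ Om b (zN b R zs z 0) m = ⟨1 / 4, SR.Tm b zs m⟩) ∨
    (¬ mvM b R z m ∧ Om b (zN b R zs z 0) m = Om b z m) := by
  by_cases hm : mvM b R z m
  · left
    refine ⟨hm, ?_⟩
    unfold Om
    rw [zN_m b R zs z 0 m (Or.inr hm), tmt_three hc, if_neg hj]
    apply Complex.ext
    · rw [ofr_re]
    · rw [ofr_im]
      rfl
  · right
    refine ⟨hm, Om_congr m (zN_m' b R zs z 0 m ?_)⟩
    rintro (h1 | h1)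
    · exact not_nbM hj hc h1
    · exact hm h1

/-- slot `0` of an interior three -/
theorem pc_three0 (H : Tl b zs R z) (A : Adj h j 0 i) (A' : Adj h' j 2 k) (hi : Tch b R i)
    (hj : ¬ Tch b R j) (hc : clsW b j = .three) (m : {i : Fin (M + 1) // (tyW b i).isMid = true})
    (hm : m.1 = j) : ∃ X, ((¬ nbH b R h' ∧ X = ⟨(z (.inl (.inl h'))).re,
        Th b zs h' j * trh b h' (z (.inl (.inl h'))).re⟩) ∨
        (nbH b R h' ∧ X = ⟨(z (.inl (.inl h'))).re, 0⟩)) ∧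
      ((2 / 10 ≤ (z (.inl (.inr m))).re ∧
        pc b R zs z j 0 = V3 ⟨tgt b R h (z (.inl (.inl h))).re, Th b zs h j⟩
            ⟨(z (.inl (.inr m))).re, SR.Tm b zs m * trm b m (z (.inl (.inr m))).re⟩ X -
          V3 ⟨(z (.inl (.inl h))).re, 0⟩
            ⟨(z (.inl (.inr m))).re, SR.Tm b zs m * trm b m (z (.inl (.inr m))).re⟩ X) ∨
       ((z (.inl (.inr m))).re < 2 / 10 ∧
        pc b R zs z j 0 = V3 ⟨tgt b R h (z (.inl (.inl h))).re, Th b zs h j⟩
            ⟨1 / 4, SR.Tm b zs m⟩ X -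
          V3 ⟨(z (.inl (.inl h))).re, 0⟩
            ⟨(z (.inl (.inr m))).re, SR.Tm b zs m * trm b m (z (.inl (.inr m))).re⟩ X)) := by
  subst hm
  have hn : nbH b R h := (nbH_iff A).2 (Or.inr hi)
  have hn3 := not_nbM hj hc
  have hj0 : m.1 ≠ 0 := by
    rw [← (adj_r A).1]
    exact Fin.succ_ne_zero h
  refine ⟨Oh b z m.1 h', ?_, ?_⟩
  · by_cases hn' : nbH b R h'
    · exact Or.inr ⟨hn', H.Oh_nb hn' _⟩
    · exact Or.inl ⟨hn', H.Oh_pt hn' _⟩
  have e0 : pc b R zs z m.1 0 = Vr b (zH b R zs z m.1) m.1 - Vr b z m.1 := if_pos rfl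
  have e1 : Oh b (zH b R zs z m.1) m.1 h = ⟨tgt b R h (z (.inl (.inl h))).re, Th b zs h m.1⟩ := by
    rw [Oh_congr m.1 (zH_r (adj_r A).1), Oh_new hn]
  have e2 : Oh b (zH b R zs z m.1) m.1 h' = Oh b z m.1 h' := by
    apply Oh_congr
    apply zH_l
    obtain ⟨e1, -⟩ := adj_l A'
    rw [← e1]
    exact (Fin.castSucc_lt_succ (i := h')).ne'
  have e3 : Om b (zH b R zs z m.1) m = Om b (zN b R zs z 0) m := Om_congr m (zH_m rfl hj0)
  have hme : (⟨m.1, tyW_isMid (Or.inl hc)⟩ : {i : Fin (M + 1) // (tyW b i).isMid = true}) = m := rfl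
  rw [e0, A.Vr_three A' H.hb hc, A.Vr_three A' H.hb hc, hme, e1, e2, e3, H.Oh_nb hn, H.Om_pt hn3]
  rcases H.Om_mv hj hc with ⟨h1, h2⟩ | ⟨h1, h2⟩
  · right
    rw [h2]
    exact ⟨h1.2, rfl⟩
  · left
    rw [h2, H.Om_pt hn3]
    refine ⟨?_, rfl⟩
    by_contra hlt
    exact h1 ⟨⟨h, i, A, hn⟩, not_le.1 hlt⟩

theorem V3_sub2 (u l w w' : ℂ) : V3 u l w - V3 u l w' = V2 w l - V2 w' l := by
  have e1 : UU (l + w) = UU (w + l) := by rw [add_comm]
  have e2 : UU (l + w') = UU (w' + l) := by rw [add_comm]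
  unfold V3 V2
  rw [e1, e2]
  simp only [Complex.sub_im, Complex.add_im, Complex.mul_im, pow_two, Complex.sub_re,
    Complex.add_re, Complex.mul_re, Complex.re_ofNat, Complex.im_ofNat]
  ring

theorem trm_flat (m : {i : Fin (M + 1) // (tyW b i).isMid = true}) {x : ℝ}
    (h0 : (mp (clsW b m.1)).cl ≤ x) (h1 : x ≤ (mp (clsW b m.1)).XM - (mp (clsW b m.1)).cr) :
    trm b m x = 1 := by
  have hg := mp_good (clsW b m.1)
  unfold trm tr
  have h2 : 1 ≤ (x - 0) / (mp (clsW b m.1)).cl := by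
    rw [le_div_iff₀ hg.1]
    linarith only [h0]
  have h3 : 1 ≤ ((mp (clsW b m.1)).XM - x) / (mp (clsW b m.1)).cr := by
    rw [le_div_iff₀ hg.2.1]
    linarith only [h1]
  rw [min_eq_left (le_min h2 h3)]
  norm_num

/-- slot `2` of an interior three -/
theorem pc_three2 (H : Tl b zs R z) (A : Adj h j 2 i) (A' : Adj h' j 0 k) (hi : Tch b R i)
    (hj : ¬ Tch b R j) (hc : clsW b j = .three) (m : {i : Fin (M + 1) // (tyW b i).isMid = true})
    (hm : m.1 = j) : ∃ X, (∃ x : ℝ, 0 ≤ x ∧ x ≤ 8 / 10 ∧ X = ⟨x, SR.Tm b zs m * trm b m x⟩) ∧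
      pc b R zs z j 2 = V2 ⟨tgt b R h (z (.inl (.inl h))).re, Th b zs h j⟩ X -
        V2 ⟨(z (.inl (.inl h))).re, 0⟩ X := by
  subst hm
  have hn : nbH b R h := (nbH_iff A).2 (Or.inr hi)
  have hn3 := not_nbM hj hc
  have hmp : (mp (clsW b m.1)) = ⟨8 / 10, 5 / 100, 5 / 100⟩ := by rw [hc]; rfl
  have hj0 : m.1 ≠ 0 := by
    rw [← (adj_r A').1]
    exact Fin.succ_ne_zero h'
  refine ⟨Om b (zN b R zs z 0) m, ?_, ?_⟩
  · rcases H.Om_mv hj hc with ⟨h1, h2⟩ | ⟨h1, h2⟩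
    · refine ⟨1 / 4, by norm_num, by norm_num, ?_⟩
      rw [h2, trm_flat m (by rw [hmp]; norm_num) (by rw [hmp]; norm_num), mul_one]
    · obtain ⟨e1, e2, -⟩ := H.mpath hn3
      rw [hmp] at e2
      refine ⟨(z (.inl (.inr m))).re, e1, e2, ?_⟩
      rw [h2, H.Om_pt hn3]
  have e0 : pc b R zs z m.1 2 = Vr b (zN b R zs z 0) m.1 - Vr b (zH b R zs z m.1) m.1 :=
    if_neg (by decide)
  have e1 : Oh b (zH b R zs z m.1) m.1 h = Oh b z m.1 h := by
    apply Oh_congr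
    apply zH_l
    obtain ⟨e1, -⟩ := adj_l A
    rw [← e1]
    exact (Fin.castSucc_lt_succ (i := h)).ne'
  have e2 : Oh b (zH b R zs z m.1) m.1 h' = Oh b (zN b R zs z 0) m.1 h' :=
    Oh_congr m.1 (zH_r (adj_r A').1)
  have e3 : Om b (zH b R zs z m.1) m = Om b (zN b R zs z 0) m := Om_congr m (zH_m rfl hj0)
  have hme : (⟨m.1, tyW_isMid (Or.inl hc)⟩ : {i : Fin (M + 1) // (tyW b i).isMid = true}) = m := rfl
  rw [e0, A'.Vr_three A H.hb hc, A'.Vr_three A H.hb hc, hme, e1, e2, e3, H.Oh_nb hn, Oh_new hn,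
    V3_sub2]

theorem pc_threeE (H : Tl b zs R z) (A : Adj h j q i) (hi : Tch b R i) (hj : ¬ Tch b R j)
    (hc : clsW b j = .threeE) (m : {i : Fin (M + 1) // (tyW b i).isMid = true}) (hm : m.1 = j) :
      pc b R zs z j q = V3 ⟨tgt b R h (z (.inl (.inl h))).re, Th b zs h j⟩
          ⟨tgt b R h (z (.inl (.inl h))).re + 1 / 6, SR.Tm b zs m⟩ 0 -
        V3 ⟨(z (.inl (.inl h))).re, 0⟩ ⟨(z (.inl (.inr m))).re, 0⟩ 0 := by
  subst hm
  have hn : nbH b R h := (nbH_iff A).2 (Or.inr hi)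
  have hn3 : nbM b R m.1 := Or.inr ⟨hc, h, q, i, A, hi⟩
  have hme : (⟨m.1, tyW_isMid (Or.inr hc)⟩ : {i : Fin (M + 1) // (tyW b i).isMid = true}) = m := rfl
  have e1 : Om b (Zm b R zs z m.1 q) m =
      ⟨tgt b R h (z (.inl (.inl h))).re + 1 / 6, SR.Tm b zs m⟩ := by
    have e2 : Om b (Zm b R zs z m.1 q) m = Om b (zN b R zs z 0) m := by
      apply Om_congr
      unfold Zm
      rcases A.slot with rfl | rfl
      · rw [if_pos rfl]
        apply zH_m rfl
        rw [← (adj_r A).1]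
        exact Fin.succ_ne_zero h
      · rw [if_neg (by decide)]
    rw [e2, Om_new m hn3, tmt_threeE A hc, if_neg fun hc => hj hc.1]
  have e2 : Om b (Zb b R zs z m.1 q) m = ⟨(z (.inl (.inr m))).re, 0⟩ := by
    rw [← H.Om_re hn3]
    apply Om_congr
    unfold Zb
    rcases A.slot with rfl | rfl
    · rw [if_pos rfl]
    · rw [if_neg (by decide)]
      have h0 : m.1 = 0 := by
        have he := clsW_end (Or.inr hc)
        unfold isEnd at he
        rcases of_decide_eq_true he with h1 | h1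
        · exact h1
        · exfalso
          have h2 := (adj_l A).1
          rw [h1] at h2
          exact (Fin.castSucc_lt_last h).ne h2
      exact if_neg fun hc => hc.2 h0
  rw [pc_eq, A.Vr_threeE hc, A.Vr_threeE hc, hme, Zm_h A hn, H.Zb_h A hn, e1, e2]

end TL

end Pool.Agent.Work.MP_b30479_gt.G2
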