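import Pool.Agent.Work.MP_b30479_gt.G2.WLeft
import Pool.Agent.Work.MP_b30479_gt.G2.TWA

/-!
# Tails: windows and tools for the shares of the touched regions
-/

namespace Pool.Agent.Work.MP_b30479_gt.G2

open Finset VOL Filter Topology SR

namespace TL

variable {M : ℕ} {b : Fin (M + 1) → ℤ} {zs z : DD (tyW b) ⊕ ZZ (tyW b) → ℂ}
variable {R : Finset (DD (tyW b))} {h h' : Fin M} {i j j' k : Fin (M + 1)} {p q : Fin 3}

theorem okp_big {A B : Cl} (h : ML.okp A B) : ¬ (big A ∧ big B) := by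
  rintro ⟨h1, h2⟩
  unfold ML.okp at h
  unfold big at h1 h2
  rcases A <;> rcases B <;> simp_all

/-- the two neighbours of a digit one are not both big -/
theorem Tl.not_big (H : Tl b zs R z) (A : Adj h i p j) (A' : Adj h' i p.rev j')
    (hc : clsW b i = .one) : ¬ (big (clsW b j) ∧ big (clsW b j')) :=
  okp_big (okp_of H.hb A A' hc)

/-- the sum of the shares of a region in terms of the slots `p`, `p.rev` -/
theorem sh_sum (A : Adj h i p j) : sh b R zs z i 0 + sh b R zs z i 2 =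
    sh b R zs z i p + sh b R zs z i p.rev := by
  rcases A.slot with rfl | rfl
  · rfl
  · exact add_comm _ _

/-- the target of a real hinge of a region (no ring) with a hinge in the tail -/
theorem tgt_cN (A : Adj h i p j) (hi : hT b R i) (ht : ¬ isT b R h) (hr : clsW b i ≠ .ring)
    (x : ℝ) : tgt b R h x = cN (kb b R j p.rev) := by
  rw [tgt_nb A (hT_tch hi) ht]
  unfold tgK
  rw [if_neg hr, if_pos hi]

/-- the target of a real hinge of a touched ring -/
theorem tgt_cZ (A : Adj h i p j) (hi : Tch b R i) (ht : ¬ isT b R h) (hr : clsW b i = .ring)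
    (x : ℝ) : tgt b R h x = cZ (kb b R j p.rev) := by
  rw [tgt_nb A hi ht]
  unfold tgK
  rw [if_pos hr]

/-- the target of a real hinge of a region touched only by its inner variable: slot `2` of an
interior three -/
theorem tgt_cW (A : Adj h i 2 j) (hi : Tch b R i) (hT' : ¬ hT b R i) (hc : clsW b i = .three)
    (x : ℝ) : tgt b R h x = cW (kb b R j 0) := by
  have ht : ¬ isT b R h := fun hh => hT' ⟨h, 2, j, A, hh⟩
  rw [tgt_nb A hi ht]
  unfold tgK
  rw [if_neg (by rw [hc]; decide), if_neg hT', if_pos ⟨hc, rfl⟩]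
  rfl

/-- the same, slot `0` of an interior three, and the hinge of a 3 at an end -/
theorem tgt_cU (A : Adj h i p j) (hi : Tch b R i) (hT' : ¬ hT b R i)
    (hc : (clsW b i = .three ∧ p = 0) ∨ clsW b i = .threeE)
    (x : ℝ) : tgt b R h x = cU (kb b R j p.rev) x := by
  have ht : ¬ isT b R h := fun hh => hT' ⟨h, p, j, A, hh⟩
  have hr : clsW b i ≠ .ring := by
    rcases hc with ⟨hc, -⟩ | hc <;> rw [hc] <;> decide
  have h2 : ¬ (clsW b i = .three ∧ p = 2) := by
    rintro ⟨h1, h2⟩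
    rcases hc with ⟨-, hc⟩ | hc
    · rw [hc] at h2
      exact absurd h2 (by decide)
    · rw [hc] at h1
      exact absurd h1 (by decide)
  rw [tgt_nb A hi ht]
  unfold tgK
  rw [if_neg hr, if_neg hT', if_neg h2]

/-- the height at a hinge `1 | 1` -/
theorem one_one_ge (H : Tl b zs R z) (A : Adj h i p j) (hi : clsW b i = .one)
    (hj : clsW b j = .one) : -(2 / 25) ≤ Th b zs h i := by
  have A1 := A.symm
  rcases A1.other b zs (fun _ => 0) with ⟨he, -⟩ | ⟨-, h2, k, A2⟩
  · rw [clsW_inner H.hb (Or.inl hj)] at he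
    exact absurd he (by decide)
  · have h3 := (H.L.X.win A1 A2 hj).2.1
    have h4 : ofs (b j) (zs (.inl (.inl h))).im = -Th b zs h i :=
      Th_opp H.hb A (Or.inl (by rw [hi]; decide))
    rw [h4, hi] at h3
    have h5 : (cw (clsW b k) .one).t1 ≤ 2 / 25 := by
      rcases clsW b k <;> simp only [cw] <;> norm_num
    linarith

/-- `LocX.win` -/
theorem Tl.win (H : Tl b zs R z) (A : Adj h i p j) (A' : Adj h' i p.rev j')
    (hc : clsW b i = .one) :
    (cw (clsW b j') (clsW b j)).t0 ≤ Th b zs h i ∧ Th b zs h i ≤ (cw (clsW b j') (clsW b j)).t1 ∧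
    (cw (clsW b j') (clsW b j)).s0 ≤ Th b zs h i + Th b zs h' i ∧
    Th b zs h i + Th b zs h' i ≤ (cw (clsW b j') (clsW b j)).s1 := H.L.X.win A A' hc

/-- the box of a hinge which is no hinge between rings -/
theorem Tl.box (H : Tl b zs R z) (A : Adj h i p j) (hr : clsW b i ≠ .ring ∨ clsW b j ≠ .ring) :
    (hbox (clsW b i) (clsW b j) false).t0 ≤ Th b zs h i ∧
      Th b zs h i ≤ (hbox (clsW b i) (clsW b j) false).t1 := by
  obtain ⟨-, -, h1, h2⟩ := A.box H.hb H.L.L
  rw [A.ss (A.opp H.hb hr)] at h1 h2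
  exact ⟨h1, h2⟩

/-- the window of the inner variable of an interior three -/
theorem Tl.mwin (H : Tl b zs R z) (m : {i : Fin (M + 1) // (tyW b i).isMid = true})
    (A : Adj h m.1 0 j) (A' : Adj h' m.1 2 k) (hc : clsW b m.1 = .three) :
    (mw (clsW b j) (clsW b k)).t0 ≤ SR.Tm b zs m ∧ SR.Tm b zs m ≤ (mw (clsW b j) (clsW b k)).t1 ∧
    (mw (clsW b j) (clsW b k)).s0 ≤ SR.Tm b zs m - Th b zs h m.1 ∧
    SR.Tm b zs m - Th b zs h m.1 ≤ (mw (clsW b j) (clsW b k)).s1 := H.L.X.mid m.2 A A' hc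

/-- the window of the inner variable of a three at an end -/
theorem Tl.mwinE (H : Tl b zs R z) (m : {i : Fin (M + 1) // (tyW b i).isMid = true})
    (hc : clsW b m.1 = .threeE) :
    -(45 / 1000) ≤ SR.Tm b zs m ∧ SR.Tm b zs m ≤ 59 / 1000 := by
  obtain ⟨-, -, h1, h2⟩ := H.L.L.midE m (clsW_end (Or.inr hc))
  rw [ofr_im] at h1 h2
  exact ⟨h1, h2⟩

/-- the start of a tail -/
theorem X0_le (A : Adj h i p j) : X0 (clsW b i) (clsW b j) ≤ wXM b h := by
  rw [A.XM_eq b]
  unfold hpp
  rcases clsW b i <;> rcases clsW b j <;> simp only [X0] <;> split_ifs <;>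
    simp only [hp, hp1] <;> (try split_ifs) <;> norm_num

/-- the end of the path of a hinge of a ring -/
theorem XM_ring (A : Adj h i p j) (hi : clsW b i = .ring) :
    wXM b h ≤ 65 / 100 ∧ (clsW b j ≠ .one → wXM b h ≤ 60 / 100) ∧
      (clsW b j = .ring → wXM b h ≤ 1 / 2) := by
  rw [A.XM_eq b, hi]
  unfold hpp
  rcases clsW b j <;> split_ifs <;> simp only [hp, hp1] <;> norm_num

end TL

end Pool.Agent.Work.MP_b30479_gt.G2
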