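import Pool.Agent.Work.MP_b30479_gt.G2.TW1a
import Pool.Agent.Work.MP_b30479_gt.G2.TL6b
import Pool.Agent.Work.MP_b30479_gt.G2.TWC

/-!
# Tails, word level: the other hinge of an untouched digit one

`Tl.one_ge`: it is at least at `8/100` if it is next to a two at an end and the real hinge is next to
a three.
-/

namespace Pool.Agent.Work.MP_b30479_gt.G2

open Finset VOL Filter Topology SR

namespace TL

variable {M : ℕ} {b : Fin (M + 1) → ℤ} {zs z : DD (tyW b) ⊕ ZZ (tyW b) → ℂ}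
variable {R : Finset (DD (tyW b))} {h h' : Fin M} {i j j' k : Fin (M + 1)} {p q : Fin 3}

theorem par1E (A : Adj h i p j) (hc : clsW b i = .one) (hj : clsW b j = .twoE) :
    wXM b h = 70 / 100 ∧ wcl b h = 14 / 100 ∧ wcr b h = 35 / 100 := by
  rw [A.XM_eq b, A.cl_eq b, A.cr_eq b, hc, hj]
  unfold hpp hp hp1
  split_ifs <;> norm_num

theorem Tl.one_ge (H : Tl b zs R z) (A : Adj h j q i) (A' : Adj h' j q.rev k) (hi : Tch b R i)
    (hj : ¬ Tch b R j) (hn : ¬ nbH b R h') (hc : clsW b j = .one) (hk : clsW b k = .twoE)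
    (h3 : clsW b i = .three ∨ clsW b i = .threeE) : 8 / 100 ≤ (z (.inl (.inl h'))).re := by
  by_contra hcon
  push Not at hcon
  have hN := nbT_ok b R
  have hM := H.mx
  have hb := H.hb
  have hnn := nn_of hn
  have hnh : nbH b R h := (nbH_iff A).2 (Or.inr hi)
  obtain ⟨-, r2, r3⟩ := H.real hnh (not_isT A hj)
  have hrev : q.rev.rev = q := Fin.rev_rev q
  have A2 : Adj h j q.rev.rev i := by rw [hrev]; exact A
  have hXi : wXM b h ≤ 65 / 100 := by
    have h1 := par1_le (b := b) A hc (clsW b i) (Or.inl (by rcases h3 with h3 | h3 <;> rw [h3] <;> decide))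
    rcases h3 with h3 | h3 <;> rw [h3] at h1 <;> simp only [pM] at h1 <;> linarith
  obtain ⟨e1, e2, e3⟩ := par1E A' hc hk
  obtain ⟨t0, t1, -, -⟩ := H.win A' A2 hc
  rw [hk] at t0 t1
  obtain ⟨x0, -, x2⟩ := H.path hn
  set X := (z (.inl (.inl h'))).re with hX
  set T := Th b zs h' j with hT
  have htr : trh b h' X = X / (14 / 100) := by
    have h1 : X / (14 / 100) ≤ 1 := by
      rw [div_le_one (by norm_num)]; linarith
    have h2 : X / (14 / 100) ≤ (70 / 100 - X) / (35 / 100) := by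
      rw [div_le_div_iff₀ (by norm_num) (by norm_num)]
      linarith
    have h3 : 0 ≤ X / (14 / 100) := div_nonneg x0 (by norm_num)
    unfold trh tr
    rw [e1, e2, e3, sub_zero, min_eq_left h2, min_eq_right h1, max_eq_right h3]
  have hTk : Th b zs h' k = -T := Th_opp hb A' (Or.inl (by rw [hc]; decide))
  have hown : Ow b z j q.rev = ⟨X, T * (X / (14 / 100))⟩ := by
    rw [A'.Ow_slot, H.Oh_pt hn, ← hX, htr]
  have hopp : Ow b z k q.rev.rev = ⟨X, -(T * (X / (14 / 100)))⟩ := by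
    rw [A'.symm.Ow_slot, H.Oh_pt hn, ← hX, htr, hTk, neg_mul]
  have eh : Ow b z j q.rev.rev = ⟨(z (.inl (.inl h))).re, 0⟩ := by
    rw [A2.Ow_slot, H.Oh_nb hnh]
  have hx1 : (7 / 50 : ℝ) ≤ wXM b h' := by rw [e1]; norm_num
  have st := hM.star_two_one hb A'.symm hnn (c := 7 / 50) (by norm_num) hx1 (Or.inr hk) hc
  have e0 : Ow b z k q.rev = 0 := by
    have := A'.symm.Ow_no (clsW_end (Or.inl hk)) z
    rwa [Fin.rev_rev] at this
  simp only [Fin.rev_rev] at st hopp eh
  rw [e0, hopp, hown, eh] at st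
  have htg : ∀ l, tgo b zs h' l (7 / 50) = ⟨7 / 50, Th b zs h' l⟩ := by
    intro l
    have h1 : trh b h' (7 / 50) = 1 := by
      unfold trh tr
      rw [e1, e2, e3]
      norm_num
    unfold tgo
    rw [h1, mul_one]
  rw [htg, htg, hTk, ← hT] at st
  have key := pre_twoE (K := clsW b i) h3 r2 (r3.trans hXi) x0 hcon.le t0 t1
  rw [V1_comm _ ⟨7 / 50, T⟩, V1_comm _ ⟨X, _⟩] at key
  linarith

end TL

end Pool.Agent.Work.MP_b30479_gt.G2
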