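import Pool.Agent.Work.MP_b30479_gt.G2.TWA
import Pool.Agent.Work.MP_b30479_gt.G2.WRngB
import Pool.Agent.Work.MP_b30479_gt.G2.MDa

/-!
# Tails, word level: the variable of an untouched ring with a real hinge

`Tl.ring_le`: its own real part is at most `1/8` (up to the symmetry at the end of the path), since
otherwise the opposite value is better.
-/

namespace Pool.Agent.Work.MP_b30479_gt.G2

open Finset VOL Filter Topology SR

/-- the opposite real part is the opposite height -/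
theorem fR_mir (x T σ η : ℝ) : fR ⟨x, T⟩ ⟨-σ, η⟩ = fR ⟨x, -T⟩ ⟨σ, η⟩ := by
  unfold fR UU
  simp only [Complex.add_re, Complex.add_im, Complex.sub_re, Complex.sub_im]
  have e1 : ((1 / 2 : ℂ)).re = 1 / 2 := by norm_num
  have e2 : ((1 / 2 : ℂ)).im = 0 := by norm_num
  rw [e1, e2]
  have a1 : |T + 0 + η| = |-T + 0 - η| := by
    rw [show -T + 0 - η = -(T + 0 + η) by ring, abs_neg]
  have a2 : |T + 0 - η| = |-T + 0 + η| := by
    rw [show -T + 0 + η = -(T + 0 - η) by ring, abs_neg]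
  rw [a1, a2, show x + 1 / 2 + -σ = x + 1 / 2 - σ by ring, show x + 1 / 2 - -σ = x + 1 / 2 + σ by ring,
    abs_neg T]
  ring

/-- the loss of the opposite real part at one hinge -/
theorem fR_opp_le {x T σ η : ℝ} (hη : 0 ≤ η) (hσ : |σ| ≤ 1 / 2) :
    fR ⟨x, T⟩ ⟨σ, η⟩ - fR ⟨x, T⟩ ⟨-σ, η⟩ ≤ 2 * Real.pi * η := by
  obtain ⟨s0, s1⟩ := abs_le.1 hσ
  have hpi := Real.pi_pos
  rcases le_total 0 T with hT | hT
  · have h := flip_le (x := x) (σ := -σ) hT hη (by linarith)
    rw [← fR_mir x T (-σ) η, neg_neg] at h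
    refine h.trans ?_
    have h1 : T - η ≤ |η - T| := by
      rw [abs_sub_comm]
      exact le_abs_self _
    nlinarith
  · have h := flip_le (x := x) (T := -T) (σ := σ) (by linarith) hη s0
    rw [neg_neg, ← fR_mir x T σ η] at h
    refine h.trans ?_
    have h1 : -T - η ≤ |η - -T| := by
      rw [abs_sub_comm]
      exact le_abs_self _
    nlinarith

/-- nothing changes at a real hinge -/
theorem fR_opp_real (x σ η : ℝ) : fR ⟨x, 0⟩ ⟨-σ, η⟩ = fR ⟨x, 0⟩ ⟨σ, η⟩ := by
  rw [fR_mir, neg_zero]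

/-- the two ends of the path of a ring variable -/
theorem fR_ends (w : ℂ) (ρ : ℝ) : fR w (LT.zt ρ (1 / 2)) = fR w (LT.zt ρ (-(1 / 2))) := by
  rw [zt_half, fR_half, zt_neg_half, fR_neg_half]

/-- **The opposite ring variable is better**, one real hinge, `σ > 1/8` -/
theorem rg_opp {n ρ σ x : ℝ} {w' : ℂ} (hn : 4 ≤ n) (hρ : 0 < ρ) (h0 : 1 / 8 < σ) (h1 : σ < 1 / 2) :
    rg n ρ ⟨x, 0⟩ w' σ < rg n ρ ⟨x, 0⟩ w' (-σ) := by
  have hpi := Real.pi_pos
  have hσ : |σ| < 1 / 2 := by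
    rw [abs_of_pos (by linarith)]
    exact h1
  have ht : 0 < LT.th σ := th_pos hσ
  have hη : 0 < ρ * LT.th σ := mul_pos hρ ht
  unfold rg
  have e1 : LT.zt ρ σ = ⟨σ, ρ * LT.th σ⟩ := by
    apply Complex.ext
    · simp [LT.zt]
    · simp [LT.zt]
  have e2 : LT.zt ρ (-σ) = ⟨-σ, ρ * LT.th σ⟩ := by
    apply Complex.ext
    · simp [LT.zt]
    · simp [LT.zt, th_neg]
  rw [e1, e2, th_neg, fR_opp_real]
  have h2 := fR_opp_le (x := w'.re) (T := w'.im) hη.le hσ.le
  rw [Complex.eta] at h2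
  have h3 : 2 * Real.pi * (ρ * LT.th σ) < 4 * Real.pi * (ρ * LT.th σ) * (n * σ) := by
    have : 1 / 2 < n * σ := by nlinarith
    nlinarith [mul_pos hpi hη]
  linarith

namespace TL

variable {M : ℕ} {b : Fin (M + 1) → ℤ} {zs z : DD (tyW b) ⊕ ZZ (tyW b) → ℂ}
variable {R : Finset (DD (tyW b))} {h h' : Fin M} {i j j' k : Fin (M + 1)} {p q : Fin 3}

/-- **An untouched ring with a real hinge.** -/
theorem Tl.ring_le (H : Tl b zs R z) (v : ZZ (tyW b)) (A : Adj h v.1 q i) (hi : Tch b R i)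
    (hj : ¬ Tch b R v.1) : ∃ σ : ℝ, |σ| ≤ 1 / 2 ∧ σ ≤ 1 / 8 ∧
      ∀ w : ℂ, fR w (Oz b z v) = fR w (LT.zt (zs (.inr v)).im σ) := by
  have hv : Sum.inr v ∉ nbT b R := fun hv => hj ((tch_ring_iff v).1 hv)
  obtain ⟨σ0, h0, hz⟩ := H.mx.adm.onZ v hv
  have e0 : Oz b z v = LT.zt (zs (.inr v)).im (ofs (b v.1) σ0) := by
    unfold Oz
    rw [hz]
    exact ofz_zt _ _ _
  have hab : |ofs (b v.1) σ0| ≤ 1 / 2 := by
    rw [abs_ofs]
    exact h0
  rcases le_or_gt (ofs (b v.1) σ0) (1 / 8) with h1 | h1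
  · exact ⟨_, hab, h1, fun w => by rw [e0]⟩
  rcases ((abs_le.1 hab).2).eq_or_lt with h2 | h2
  · refine ⟨-(1 / 2), by rw [abs_neg, abs_of_pos] <;> norm_num, by norm_num, fun w => ?_⟩
    rw [e0, h2]
    exact fR_ends _ _
  exfalso
  have hb := H.hb
  have hc : clsW b v.1 = .ring := clsW_ring hb v
  have hρ : 0 < (zs (.inr v)).im := H.L.L.rpos v
  -- the new point
  let z' := Function.update z (.inr v) (LT.zt (zs (.inr v)).im (-σ0))
  have hmv : Mv b zs (nbT b R) z 0 z' 0 := by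
    refine ⟨fun u hu => ?_⟩
    by_cases huv : u = .inr v
    · subst huv
      refine ⟨hv, -σ0, by rwa [abs_neg], ?_⟩
      exact Function.update_self _ _ _
    · exfalso
      rcases hu with hu | hu
      · exact hu (Function.update_of_ne huv _ _)
      · exact hu rfl
  have key := H.mx.step hb (nbT_ok b R).ok.1 hmv {v.1} (fun k hk u hu q => by
    by_contra hcf
    have huv : u = .inr v := by
      by_contra hne
      exact hu (Function.update_of_ne hne _ _).symm
    subst huv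
    apply hk
    rw [Finset.mem_singleton]
    have : v.1 = k := by
      by_contra hcon
      apply hcf
      unfold cf
      simp only
      split_ifs <;> simp_all
    exact this.symm)
  rw [Finset.sum_singleton] at key
  have e1 : Ow b z' v.1 = Function.update (Ow b z v.1) 1 (LT.zt (zs (.inr v)).im
      (-(ofs (b v.1) σ0))) := by
    unfold Ow
    rw [xx_upd_ring, tyW_ring v.2, own_update_ring, ofz_zt, ofs_neg']
  have e2 : Ow b z v.1 1 = LT.zt (zs (.inr v)).im (ofs (b v.1) σ0) := by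
    rw [Ow_ring1, e0]
  rw [OV_ring hb hc (Ow_endOk z' _), OV_ring hb hc (Ow_endOk z _), e1, e2] at key
  rw [Function.update_self, Function.update_of_ne (by decide), Function.update_of_ne (by decide),
    VR_rg, VR_rg] at key
  have hsum : ∑ i, ((0 : DD (tyW b) → ℝ) i - (0 : DD (tyW b) → ℝ) i) = 0 := by simp
  rw [hsum, mul_zero] at key
  have h4 := ring_four hb (tyW_of_ring hb hc)
  have hn : (4 : ℝ) ≤ ((b v.1).natAbs : ℝ) := by exact_mod_cast h4
  have hre : Ow b z v.1 q = ⟨(z (.inl (.inl h))).re, 0⟩ := by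
    rw [A.Ow_slot z]
    exact H.Oh_nb ((nbH_iff A).2 (Or.inr hi)) _
  rcases A.slot with rfl | rfl
  · rw [hre] at key
    have := rg_opp (w' := Ow b z v.1 2) (x := (z (.inl (.inl h))).re) hn hρ h1 h2
    linarith
  · rw [hre] at key
    have := rg_opp (w' := Ow b z v.1 0) (x := (z (.inl (.inl h))).re) hn hρ h1 h2
    rw [rg_comm, rg_comm _ _ (-(ofs (b v.1) σ0))] at this
    linarith

end TL

end Pool.Agent.Work.MP_b30479_gt.G2
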