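import Pool.Agent.Work.MP_b30479_gt.G2.TW1b
import Pool.Agent.Work.MP_b30479_gt.G2.RngO

/-!
# Tails: the gain of an untouched digit one behind a real hinge
-/

namespace Pool.Agent.Work.MP_b30479_gt.G2

open Finset VOL Filter Topology SR

namespace TL

variable {M : ℕ} {b : Fin (M + 1) → ℤ} {zs z : DD (tyW b) ⊕ ZZ (tyW b) → ℂ}
variable {R : Finset (DD (tyW b))} {h h' : Fin M} {i j j' k : Fin (M + 1)} {p q : Fin 3}

/-- targets of a real hinge of a digit one -/
theorem tgK_one (i : Fin (M + 1)) (p : Fin 3) (x : ℝ) :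
    9 / 50 ≤ tgK b R i p .one x ∧ tgK b R i p .one x ≤ 27 / 100 := by
  unfold tgK
  split_ifs
  · simp only [cZ]; norm_num
  · simp only [cN]; norm_num
  · simp only [cW]; norm_num
  · simp only [cU]; split_ifs <;> norm_num

theorem pab (K D : Cl) : pa D ≤ 16 / 100 ∧ 0 < pa D ∧ 0 < pb D ∧ 35 / 100 ≤ pM K D - pb D := by
  rcases D <;> simp only [pa, pb, pM] <;> (try split_ifs) <;> norm_num

/-- **The gain of an untouched digit one.** -/
theorem Tl.gain_one (H : Tl b zs R z) (A : Adj h j q i) (hi : Tch b R i) (hj : ¬ Tch b R j)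
    (hc : clsW b j = .one) :
    Gn (clsW b i) (tgt b R h (z (.inl (.inl h))).re) (z (.inl (.inl h))).re (Th b zs h j) .one
      (pc b R zs z j q) := by
  obtain ⟨h', k, A'⟩ := A.other_one H.hb hc
  obtain ⟨X, hX, e⟩ := pc_one H A A' hi hj hc
  have A2 : Adj h j q.rev.rev i := by rw [Fin.rev_rev]; exact A
  obtain ⟨t0, t1, s0, s1⟩ := H.win A A' hc
  obtain ⟨u0, u1, r0, r1⟩ := H.win A' A2 hc
  have hb := H.not_big A A' hc
  have hnT : ¬ isT b R h' := not_isT A' hj
  obtain ⟨c1, c2, c3, c4⟩ := par1_ramp A' hc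
  have hle : wXM b h' ≤ pM (clsW b i) (clsW b k) := by
    apply par1_le A' hc
    by_cases h1 : clsW b i = .one
    · right; right
      rw [Fin.rev_rev, A.oc_eq b, h1]
    · exact Or.inr (Or.inl h1)
  have hreal : nbH b R h' → clsW b k = .twoE → False := fun hn hk =>
    MM.real_twoE (nbT_ok b R) A' hj (nbH_mem hn) hk
  have key : RgO (clsW b i) (clsW b k) (Th b zs h j) X.re X.im ∧
      (clsW b k = .twoE → clsW b i = .three ∨ clsW b i = .threeE → 8 / 100 ≤ X.re) := by
    cases hX with
    | path hn =>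
      obtain ⟨x0, x1, -⟩ := H.path hn
      refine ⟨RgO_of x0 x1 hle c1 c2 c3 c4 u0 u1 (by linarith) (by linarith) (Or.inl rfl), ?_⟩
      intro hk h3
      exact H.one_ge A A' hi hj hn hc hk h3
    | real hn =>
      obtain ⟨-, x0, x1⟩ := H.real hn hnT
      refine ⟨RgO_of x0 x1 hle c1 c2 c3 c4 u0 u1 (by linarith) (by linarith) (Or.inr rfl), ?_⟩
      intro hk _
      exact (hreal hn hk).elim
    | new hn =>
      have hk : Tch b R k := ((nbH_iff A').1 hn).resolve_left hj
      have etg : tgt b R h' (z (.inl (.inl h'))).re =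
          tgK b R k q.rev.rev .one (z (.inl (.inl h'))).re := by
        rw [tgt_nb A'.symm hk hnT, kb_un hj]
        unfold kd
        rw [hc]
      obtain ⟨g0, g1⟩ := tgK_one (b := b) (R := R) k q.rev.rev (z (.inl (.inl h'))).re
      rw [← etg] at g0 g1
      obtain ⟨p1, p2, p3, p4⟩ := pab (clsW b i) (clsW b k)
      refine ⟨⟨by show (0 : ℝ) ≤ tgt b R h' _; linarith,
        by show tgt b R h' _ ≤ pM _ _; linarith, Th b zs h' j, u0, u1, by linarith,
        by linarith, ?_⟩, ?_⟩
      · show (0 ≤ Th b zs h' j ∧ Th b zs h' j ≤ Th b zs h' j ∧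
          pa (clsW b k) * Th b zs h' j ≤ Th b zs h' j * tgt b R h' _ ∧
          pb (clsW b k) * Th b zs h' j ≤ Th b zs h' j * (pM _ _ - tgt b R h' _)) ∨
          (Th b zs h' j ≤ 0 ∧ Th b zs h' j ≤ Th b zs h' j ∧
          Th b zs h' j * tgt b R h' _ ≤ pa (clsW b k) * Th b zs h' j ∧
          Th b zs h' j * (pM _ _ - tgt b R h' _) ≤ pb (clsW b k) * Th b zs h' j)
        have q1 : pa (clsW b k) ≤ tgt b R h' (z (.inl (.inl h'))).re := by linarith
        have q2 : pb (clsW b k) ≤ pM (clsW b i) (clsW b k) -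
            tgt b R h' (z (.inl (.inl h'))).re := by linarith
        rcases le_total 0 (Th b zs h' j) with hT | hT
        · left
          refine ⟨hT, le_rfl, ?_, ?_⟩
          · nlinarith
          · nlinarith
        · right
          refine ⟨hT, le_rfl, ?_, ?_⟩
          · nlinarith
          · nlinarith
      · intro hk' _
        exact (hreal hn hk').elim
  rw [e]
  exact Gn.one t0 t1 (fun h1 => by
    have e1 := one_one_ge H A hc h1
    have e2 := one_one_ge H A.symm h1 hc
    rw [Th_opp H.hb A (Or.inl (by rw [hc]; decide))] at e2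
    rw [abs_le]
    constructor <;> linarith) hb key.1 key.2

end TL

end Pool.Agent.Work.MP_b30479_gt.G2
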