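import Pool.Agent.Work.MP_b30479_gt.G2.WMMN

/-!
# Mirrored paths: assembly of the kinds of hinges
-/

namespace Pool.Agent.Work.MP_b30479_gt.G2

open Finset VOL Filter Topology

namespace SR

variable {M : ℕ} {b : Fin (M + 1) → ℤ} {zs : DD (tyW b) ⊕ ZZ (tyW b) → ℂ}
variable {R : Finset (DD (tyW b))} {nb : Finset (DD (tyW b) ⊕ ZZ (tyW b))}
variable {z : DD (tyW b) ⊕ ZZ (tyW b) → ℂ} {p : DD (tyW b) → ℝ}
variable {h h' : Fin M} {i j j' : Fin (M + 1)} {s : Fin 3} {x c : ℝ}

/-- **Window of the height** of the saddle point at a hinge in the frame of a region which is no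
ring. -/
theorem Th_mem (hb : ClassW b) (hL : Loc b zs) (A : Adj h i s j) (hi : clsW b i ≠ .ring) :
    (hbox (clsW b i) (clsW b j) false).t0 ≤ Th b zs h i ∧
      Th b zs h i ≤ (hbox (clsW b i) (clsW b j) false).t1 := by
  have hs := sign_adj hb A hi
  have hss : ssW b h = false := by
    unfold ssW
    cases A
    · exact decide_eq_false (by linarith)
    · rw [mul_comm] at hs
      exact decide_eq_false (by linarith)
  have h1 := hL.hinge h
  rw [hss] at h1
  obtain ⟨-, -, h3, h4⟩ := h1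
  rw [ofr_im] at h3 h4
  cases A with
  | l => exact ⟨h3, h4⟩
  | r =>
    have e : Th b zs h h.succ = -ofs (b h.castSucc) (zs (.inl (.inl h))).im := by
      unfold Th
      rw [mul_comm] at hs
      exact ofs_neg_of_opp hs _
    rw [e, hbox_swap]
    simp only [Box.neg]
    constructor <;> linarith

/-- a kind of modes does not occur -/
def Kd (b : Fin (M + 1) → ℤ) (zs : DD (tyW b) ⊕ ZZ (tyW b) → ℂ) (A B : Cl) (s : Fin 3) : Prop :=
  ∀ {R : Finset (DD (tyW b))} {nb : Finset (DD (tyW b) ⊕ ZZ (tyW b))}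
    {z : DD (tyW b) ⊕ ZZ (tyW b) → ℂ} {p : DD (tyW b) → ℝ} {h : Fin M} {i j : Fin (M + 1)} {x : ℝ},
    NbT b R nb → MM b zs R nb z p → (∀ h : Fin M, RH1 b (.inl h) → p (.inl h) = 0) →
    Md b zs nb z p h i s j x → clsW b i = A → clsW b j = B → False

/-- **The kinds of hinges.** -/
structure Kinds (b : Fin (M + 1) → ℤ) (zs : DD (tyW b) ⊕ ZZ (tyW b) → ℂ) : Prop where
  one_one : ∀ s, Kd b zs .one .one s
  one_two : ∀ s, Kd b zs .one .two s
  two_one : ∀ s, Kd b zs .two .one s
  one_twoE : ∀ s, Kd b zs .one .twoE s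
  twoE_one : ∀ s, Kd b zs .twoE .one s
  /-- the `3` at its slot `0` -/
  one_three : Kd b zs .one .three 2
  /-- the `3` at its slot `2` -/
  one_three' : Kd b zs .one .three 0
  one_threeE : ∀ s, Kd b zs .one .threeE s
  two_two : ∀ s, Kd b zs .two .two s
  twoE_two : ∀ s, Kd b zs .twoE .two s
  /-- the `3` at its slot `0` -/
  two_three : Kd b zs .two .three 2
  /-- the `3` at its slot `2` -/
  two_three' : Kd b zs .two .three 0
  /-- the `3` at its slot `0` -/
  three_two : Kd b zs .three .two 0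
  /-- the `3` at its slot `2` -/
  three_two' : Kd b zs .three .two 2
  two_threeE : ∀ s, Kd b zs .two .threeE s
  threeE_two : ∀ s, Kd b zs .threeE .two s
  twoE_twoE : ∀ s, Kd b zs .twoE .twoE s
  twoE_three : ∀ s, Kd b zs .twoE .three s
  twoE_threeE : ∀ s, Kd b zs .twoE .threeE s
  threeE_three : ∀ s, Kd b zs .threeE .three s
  threeE_threeE : ∀ s, Kd b zs .threeE .threeE s
  three_three : ∀ s, Kd b zs .three .three s

/-- **The inner variables.** -/
structure Inners (b : Fin (M + 1) → ℤ) (zs : DD (tyW b) ⊕ ZZ (tyW b) → ℂ) : Prop where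
  three : ∀ {R : Finset (DD (tyW b))} {nb : Finset (DD (tyW b) ⊕ ZZ (tyW b))}
    {z : DD (tyW b) ⊕ ZZ (tyW b) → ℂ} {p : DD (tyW b) → ℝ}
    (m : {i : Fin (M + 1) // (tyW b i).isMid = true}),
    NbT b R nb → MM b zs R nb z p → (∀ h : Fin M, p (.inl h) = 0) → clsW b m.1 = .three →
    Sum.inl (Sum.inr m) ∉ nb → p (.inr m) = 0
  threeE : ∀ {R : Finset (DD (tyW b))} {nb : Finset (DD (tyW b) ⊕ ZZ (tyW b))}
    {z : DD (tyW b) ⊕ ZZ (tyW b) → ℂ} {p : DD (tyW b) → ℝ}
    (m : {i : Fin (M + 1) // (tyW b i).isMid = true}),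
    NbT b R nb → MM b zs R nb z p → (∀ h : Fin M, p (.inl h) = 0) → clsW b m.1 = .threeE →
    Sum.inl (Sum.inr m) ∉ nb → p (.inr m) = 0

/-- **No modes at the hinges.** -/
theorem Kinds.hinge (hb : ClassW b) (hL : Loc b zs) (K : Kinds b zs) (hN : NbT b R nb)
    (hM : MM b zs R nb z p) (hq : ∀ h : Fin M, RH1 b (.inl h) → p (.inl h) = 0) (h : Fin M) :
    p (.inl h) = 0 := by
  by_cases hr : RH1 b (.inl h)
  · exact hq h hr
  simp only [RH1, not_or] at hr
  rcases hM.md hb hN.ok.1 h hr.1 hr.2 with h0 | ⟨i, s, j, x, D⟩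
  · exact h0
  exfalso
  have hT := Th_mem hb hL D.adj D.ri
  have hT0 := D.T0
  have hri := D.ri
  have hrj := D.rj
  have hs := D.adj.slot
  rcases hi : clsW b i <;> rcases hj : clsW b j <;> first
    | exact hri hi
    | exact hrj hj
    | exact K.one_one _ hN hM hq D hi hj
    | exact K.one_two _ hN hM hq D hi hj
    | exact K.two_one _ hN hM hq D hi hj
    | exact K.one_twoE _ hN hM hq D hi hj
    | exact K.twoE_one _ hN hM hq D hi hj
    | exact K.one_threeE _ hN hM hq D hi hj
    | exact K.two_two _ hN hM hq D hi hj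
    | exact K.twoE_two _ hN hM hq D hi hj
    | exact K.two_threeE _ hN hM hq D hi hj
    | exact K.threeE_two _ hN hM hq D hi hj
    | exact K.twoE_twoE _ hN hM hq D hi hj
    | exact K.twoE_three _ hN hM hq D hi hj
    | exact K.twoE_threeE _ hN hM hq D hi hj
    | exact K.threeE_three _ hN hM hq D hi hj
    | exact K.threeE_threeE _ hN hM hq D hi hj
    | exact K.three_three _ hN hM hq D hi hj
    | (rcases hs with rfl | rfl
       · exact K.one_three' hN hM hq D hi hj
       · exact K.one_three hN hM hq D hi hj)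
    | (rcases hs with rfl | rfl
       · exact K.two_three' hN hM hq D hi hj
       · exact K.two_three hN hM hq D hi hj)
    | (rcases hs with rfl | rfl
       · exact K.three_two hN hM hq D hi hj
       · exact K.three_two' hN hM hq D hi hj)
    | (rw [hi, hj] at hT
       simp only [hbox] at hT
       linarith [hT.2])

/-- **No modes.** -/
theorem Kinds.none (hb : ClassW b) (hL : Loc b zs) (K : Kinds b zs) (I : Inners b zs)
    (hN : NbT b R nb) (hM : MM b zs R nb z p)
    (hq : ∀ h : Fin M, RH1 b (.inl h) → p (.inl h) = 0) : p = 0 := by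
  have hh := K.hinge hb hL hN hM hq
  funext k
  rcases k with h | m
  · exact hh h
  · show p (.inr m) = 0
    by_cases hn : Sum.inl (Sum.inr m) ∈ nb
    · by_cases hr : (Sum.inr m : DD (tyW b)) ∈ R
      · exact (hM.adm.tail _ hr).2.2.2
      · exact (hM.adm.reD _ hr hn).2.2.2
    · have hmid := m.2
      rcases hc : clsW b m.1
      · rw [tyW_of_one hc] at hmid; exact absurd hmid (by decide)
      · rw [tyW_of_two (Or.inl hc)] at hmid; exact absurd hmid (by decide)
      · rw [tyW_of_two (Or.inr hc)] at hmid; exact absurd hmid (by decide)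
      · exact I.three m hN hM hh hc hn
      · exact I.threeE m hN hM hh hc hn
      · rw [tyW_of_ring hb hc] at hmid; exact absurd hmid (by decide)

/-- **Removal of the modes**, all sets of tails. -/
theorem modes_of (hb : ClassW b) (hL : Loc b zs) (K : Kinds b zs) (I : Inners b zs)
    (hq : ∀ {R : Finset (DD (tyW b))} {nb : Finset (DD (tyW b) ⊕ ZZ (tyW b))}
      {z : DD (tyW b) ⊕ ZZ (tyW b) → ℂ} {p : DD (tyW b) → ℝ}, NbT b R nb → MM b zs R nb z p →
      ∀ h : Fin M, RH1 b (.inl h) → p (.inl h) = 0) :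
    ModeOk0 b zs (wparM b zs) ∧ ModeOkR b zs (wparM b zs) (nbT b) :=
  ⟨modeOk0_of fun _ _ hM => K.none hb hL I NbT.empty hM (hq NbT.empty hM),
    modeOkR_of (fun R => (nbT_ok b R).ok) fun R _ _ hM =>
      K.none hb hL I (nbT_ok b R) hM (hq (nbT_ok b R) hM)⟩

end SR

end Pool.Agent.Work.MP_b30479_gt.G2
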