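import Pool.Agent.Work.MP_b30479_gt.G2.TWA
import Pool.Agent.Work.MP_b30479_gt.G2.TW1a
import Pool.Agent.Work.MP_b30479_gt.G2.WMMA
import Pool.Agent.Work.MP_b30479_gt.G2.R3V
import Pool.Agent.Work.MP_b30479_gt.G2.WRnd

/-!
# Tails: the gain of an untouched digit two
-/

namespace Pool.Agent.Work.MP_b30479_gt.G2

open Finset VOL Filter Topology SR

namespace TL

variable {M : ℕ} {b : Fin (M + 1) → ℤ} {zs z : DD (tyW b) ⊕ ZZ (tyW b) → ℂ}
variable {R : Finset (DD (tyW b))} {h h' : Fin M} {i j j' k : Fin (M + 1)} {p q : Fin 3}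

namespace W2b

/-- parameters of the path between a two and a digit one -/
theorem par_one (p : Fin 3) (P Q : Cl) : (hpp p P .two .one Q).XM = 8 / 10 ∧
    (hpp p P .two .one Q).cl = 16 / 100 ∧ (hpp p P .two .one Q).cr = 29 / 100 := by
  unfold hpp
  split_ifs <;> simp only [hp, hp1] <;> norm_num

/-- parameters of the path between a two and a region which is not a digit one -/
theorem par_ne (p : Fin 3) (P Q : Cl) {K : Cl} (hK : K ≠ .one) :
    (hpp p P .two K Q).XM = 6 / 10 ∧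
    (hbox .two K false).t1 ≤ 77 / 100 * (hpp p P .two K Q).cl ∧
    (hbox .two K false).t1 ≤ 32 / 100 * (hpp p P .two K Q).cr ∧
    -(85 / 100) * (hpp p P .two K Q).cl ≤ (hbox .two K false).t0 ∧
    -(34 / 100) * (hpp p P .two K Q).cr ≤ (hbox .two K false).t0 ∧
    (hbox .two K false).t1 ≤ 96 / 1000 ∧ -(985 / 10000) ≤ (hbox .two K false).t0 := by
  unfold hpp
  split_ifs <;> cases K <;> first
    | exact absurd rfl hK
    | (simp only [hp, hbox]; norm_num)

theorem pathD {T t X cl cr : ℝ} (t0 : 0 ≤ t) (t1 : t ≤ 1)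
    (h0 : 0 ≤ X) (h1 : X ≤ 6 / 10) (h2 : t * cl ≤ X) (h3 : t * cr ≤ 6 / 10 - X)
    (a1 : T ≤ 77 / 100 * cl) (a2 : T ≤ 32 / 100 * cr) (a3 : -(85 / 100) * cl ≤ T)
    (a4 : -(34 / 100) * cr ≤ T) (a5 : T ≤ 96 / 1000) (a6 : -(985 / 10000) ≤ T) :
    RgD X (T * t) := by
  have b1 := mul_le_mul_of_nonneg_right a1 t0
  have b2 := mul_le_mul_of_nonneg_right a2 t0
  have b3 := mul_le_mul_of_nonneg_right a3 t0
  have b4 := mul_le_mul_of_nonneg_right a4 t0
  have b5 := mul_le_mul_of_nonneg_right a5 t0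
  have b6 := mul_le_mul_of_nonneg_right a6 t0
  refine ⟨h0, h1, ?_, ?_, ?_, ?_, ?_, ?_⟩ <;> linarith

theorem pathO {T t X : ℝ} (t0 : 0 ≤ t) (t1 : t ≤ 1)
    (h0 : 0 ≤ X) (h1 : X ≤ 6 / 10) (h2 : t * (16 / 100) ≤ X) (h3 : t * (29 / 100) ≤ 8 / 10 - X)
    (a5 : T ≤ 18 / 1000) (a6 : -(985 / 10000) ≤ T) : RgD X (T * t) := by
  have b5 := mul_le_mul_of_nonneg_right a5 t0
  have b6 := mul_le_mul_of_nonneg_right a6 t0
  refine ⟨h0, h1, ?_, ?_, ?_, ?_, ?_, ?_⟩ <;> linarith

theorem pathF {T t X : ℝ} (t0 : 0 ≤ t) (h1 : 6 / 10 ≤ X) (h1' : X ≤ 8 / 10)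
    (h3 : t * (29 / 100) ≤ 8 / 10 - X) (a5 : T ≤ 18 / 1000) (a6 : -(985 / 10000) ≤ T) :
    RgF X (T * t) := by
  have b5 := mul_le_mul_of_nonneg_right a5 t0
  have b6 := mul_le_mul_of_nonneg_right a6 t0
  refine ⟨h1, h1', ?_, ?_⟩ <;> linarith

theorem realD {X : ℝ} (h0 : 0 ≤ X) (h1 : X ≤ 6 / 10) : RgD X 0 := by
  refine ⟨h0, h1, ?_, ?_, ?_, ?_, ?_, ?_⟩ <;> linarith

/-- the ramp -/
theorem trh_le (b : Fin (M + 1) → ℤ) (h : Fin M) {x : ℝ} (h0 : 0 ≤ x) (h1 : x ≤ wXM b h) :
    0 ≤ trh b h x ∧ trh b h x ≤ 1 ∧ trh b h x * wcl b h ≤ x ∧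
      trh b h x * wcr b h ≤ wXM b h - x := by
  have hc := wcl_pos (b := b) h
  have hc' := wcr_pos (b := b) h
  have a0 : 0 ≤ x / wcl b h := div_nonneg h0 hc.le
  have a1 : 0 ≤ (wXM b h - x) / wcr b h := div_nonneg (by linarith) hc'.le
  have e : trh b h x = max 0 (min 1 (min ((x - 0) / wcl b h) ((wXM b h - x) / wcr b h))) := rfl
  rw [sub_zero] at e
  have e1 : trh b h x = min 1 (min (x / wcl b h) ((wXM b h - x) / wcr b h)) := by
    rw [e]
    exact max_eq_right (le_min zero_le_one (le_min a0 a1))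
  have b1 : trh b h x ≤ x / wcl b h := by
    rw [e1]
    exact (min_le_right _ _).trans (min_le_left _ _)
  have b2 : trh b h x ≤ (wXM b h - x) / wcr b h := by
    rw [e1]
    exact (min_le_right _ _).trans (min_le_right _ _)
  refine ⟨?_, ?_, (le_div_iff₀ hc).mp b1, (le_div_iff₀ hc').mp b2⟩
  · rw [e]
    exact le_max_left _ _
  · rw [e1]
    exact min_le_left _ _

end W2b

open W2b in
theorem Tl.gain_two (H : Tl b zs R z) (A : Adj h j q i) (hi : Tch b R i) (hj : ¬ Tch b R j)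
    (hc : clsW b j = .two) :
    Gn (clsW b i) (tgt b R h (z (.inl (.inl h))).re) (z (.inl (.inl h))).re (Th b zs h j) .two
      (pc b R zs z j q) := by
  have hnr : clsW b j ≠ .ring := by rw [hc]; decide
  have he : isEnd j = false := by
    by_contra h0
    have h1 : isEnd j = true := by simpa using h0
    unfold clsW cls at hc
    rw [h1] at hc
    split_ifs at hc
    all_goals first
      | exact absurd hc (by decide)
      | exact absurd rfl ‹¬true = true›
  obtain ⟨h', k, A'⟩ := A.other' b he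
  obtain ⟨X, hX, e⟩ := pc_two H A A' hi hj hc
  have hτ := Th_mem H.hb H.L.L A hnr
  have hT := Th_mem H.hb H.L.L A' hnr
  rw [hc] at hτ hT
  have hpar : wcl b h' = (hpp q.rev (oc b j q.rev.rev) .two (clsW b k) (oc b k q.rev)).cl ∧
      wcr b h' = (hpp q.rev (oc b j q.rev.rev) .two (clsW b k) (oc b k q.rev)).cr ∧
      wXM b h' = (hpp q.rev (oc b j q.rev.rev) .two (clsW b k) (oc b k q.rev)).XM := by
    have h1 := A'.cl_eq b
    have h2 := A'.cr_eq b
    have h3 := A'.XM_eq b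
    rw [hc] at h1 h2 h3
    exact ⟨h1, h2, h3⟩
  obtain ⟨p1, p2, p3⟩ := hpar
  have hp0 : wXM b h' ≤ 8 / 10 ∧ (clsW b k ≠ .one → wXM b h' = 6 / 10) := by
    by_cases hk : clsW b k = .one
    · rw [hk] at p3
      rw [p3, (par_one _ _ _).1]
      exact ⟨le_rfl, fun h0 => absurd hk h0⟩
    · rw [p3, (par_ne _ _ _ hk).1]
      exact ⟨by norm_num, fun _ => rfl⟩
  have hnt : ¬ isT b R h' := fun ht => hj ⟨_, ht, q.rev, A'.cf_ne⟩
  have key : RgD X.re X.im ∨ (27 / 100 ≤ (z (.inl (.inl h))).re ∧ RgF X.re X.im) := by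
    cases hX with
    | path hn =>
      obtain ⟨x0, x1, -⟩ := H.path hn
      obtain ⟨t0, t1, t2, t3⟩ := trh_le b h' x0 x1
      by_cases hk : clsW b k = .one
      · rw [hk] at p1 p2 p3 hT
        obtain ⟨g1, g2, g3⟩ := par_one q.rev (oc b j q.rev.rev) (oc b k q.rev)
        rw [g1] at p3
        rw [g2] at p1
        rw [g3] at p2
        rw [p1] at t2
        rw [p2, p3] at t3
        rw [p3] at x1
        simp only [hbox] at hT
        rcases le_total (z (.inl (.inl h'))).re (6 / 10) with h6 | h6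
        · exact Or.inl (pathO t0 t1 x0 h6 t2 t3 hT.2 hT.1)
        · rcases le_total (z (.inl (.inl h))).re (27 / 100) with h7 | h7
          · have h8 := H.two_le A A' hi hj hn hc hk h7
            exact Or.inl (pathO t0 t1 x0 h8 t2 t3 hT.2 hT.1)
          · exact Or.inr ⟨h7, pathF t0 h6 x1 t3 hT.2 hT.1⟩
      · obtain ⟨g1, g2, g3, g4, g5, g6, g7⟩ := par_ne q.rev (oc b j q.rev.rev) (oc b k q.rev) hk
        rw [← p1] at g2 g4
        rw [← p2] at g3 g5
        rw [g1] at p3
        rw [p3] at t3 x1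
        exact Or.inl (pathD t0 t1 x0 x1 t2 t3 (by linarith)
          (by linarith) (by linarith) (by linarith) (by linarith) (by linarith))
    | real hn =>
      obtain ⟨-, x0, x1⟩ := H.real hn hnt
      left
      by_cases hk : clsW b k = .one
      · have hk' : Tch b R k := by
          rcases (nbH_iff A').mp hn with h1 | h1
          · exact absurd h1 hj
          · exact h1
        have h1 := H.mx.real_le H.hb A' hj
          ((nbT_ok b R).mem hk' A'.symm.cf_ne) (Or.inl hk)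
        rw [Ow_adj z A', ofr_re] at h1
        exact realD x0 (by linarith)
      · rw [hp0.2 hk] at x1
        exact realD x0 x1
    | new hn =>
      left
      have hk' : Tch b R k := by
        rcases (nbH_iff A').mp hn with h1 | h1
        · exact absurd h1 hj
        · exact h1
      have h1 := tgt_nb (R := R) A'.symm hk' hnt (z (.inl (.inl h'))).re
      have h2 : kb b R j q.rev.rev.rev = .two := by
        unfold kb
        rw [if_neg hj]
        unfold kd
        rw [hc]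
      rw [h2] at h1
      have h3 : tgK b R k q.rev.rev .two (z (.inl (.inl h'))).re = 1 / 4 := by
        unfold tgK
        split_ifs <;> rfl
      rw [h3] at h1
      show RgD (tgt b R h' (z (.inl (.inl h'))).re) (Th b zs h' j)
      rw [h1]
      have h4 : -(985 / 10000) ≤ Th b zs h' j ∧ Th b zs h' j ≤ 96 / 1000 := by
        generalize clsW b k = K at hT
        cases K <;> simp only [hbox] at hT <;> constructor <;> linarith
      refine ⟨?_, ?_, ?_, ?_, ?_, ?_, ?_, ?_⟩ <;> linarith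
  have h5 := Gn.two (K := clsW b i) (c := tgt b R h (z (.inl (.inl h))).re) hτ.1 hτ.2 key
  rw [e]
  exact h5

end TL

end Pool.Agent.Work.MP_b30479_gt.G2
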