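import Pool.Agent.Work.MP_b30479_gt.G2.TWA

/-!
# Tails: the gains of the untouched regions at an end and of the untouched rings
-/

namespace Pool.Agent.Work.MP_b30479_gt.G2

open Finset VOL Filter Topology SR

namespace TL

variable {M : ℕ} {b : Fin (M + 1) → ℤ} {zs z : DD (tyW b) ⊕ ZZ (tyW b) → ℂ}
variable {R : Finset (DD (tyW b))} {h h' : Fin M} {i j j' k : Fin (M + 1)} {p q : Fin 3}

/-- the window of the height of a hinge -/
theorem Th_box (hb : ClassW b) (hL : Loc b zs) (A : Adj h i p j)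
    (hc : clsW b i ≠ .ring ∨ clsW b j ≠ .ring) :
    (hbox (clsW b i) (clsW b j) false).t0 ≤ Th b zs h i ∧
      Th b zs h i ≤ (hbox (clsW b i) (clsW b j) false).t1 := by
  obtain ⟨-, -, h3, h4⟩ := A.box hb hL
  rw [A.ss (A.opp hb hc)] at h3 h4
  exact ⟨h3, h4⟩

/-- the window of the height of the inner variable at an end -/
theorem Tm_box (hL : Loc b zs) (m : {i : Fin (M + 1) // (tyW b i).isMid = true})
    (hc : clsW b m.1 = .threeE) :
    -(45 / 1000) ≤ SR.Tm b zs m ∧ SR.Tm b zs m ≤ 59 / 1000 := by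
  obtain ⟨-, -, h3, h4⟩ := hL.midE m (clsW_end (Or.inr hc))
  rw [ofr_im] at h3 h4
  exact ⟨h3, h4⟩

/-- the wall of a region with three crossings at an end with a real hinge -/
private theorem wallE' (H : Tl b zs R z) (m : {i : Fin (M + 1) // (tyW b i).isMid = true})
    (A : Adj h m.1 p j) (hn : nbH b R h) (hc : clsW b m.1 = .threeE) :
    (z (.inl (.inl h))).re ≤ (z (.inl (.inr m))).re := by
  have h3 := clsW_nat3 (Or.inr hc)
  have he := clsW_end (Or.inr hc)
  have hm : nbM b R m.1 := by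
    rcases (nbH_iff A).1 hn with h1 | h1
    · exact Or.inl h1
    · exact Or.inr ⟨hc, h, p, j, A, h1⟩
  have hr : ∀ v : ZZ (tyW b), v.1 ≠ m.1 := ring_ne (by rw [hc]; decide)
  have key : ∀ f : Fac, f ∈ facs (tyW b m.1) (decide (m.1 ≠ 0)) (decide (m.1 ≠ Fin.last M)) →
      (f.form (xx (tyW b) m.1 z)).re ≤ 1 := by
    intro f hf
    obtain ⟨n, hn', rfl⟩ := List.mem_iff_getElem.1 hf
    have h1 := H.mx.adm.wall ⟨m.1, ⟨n, hn'⟩⟩ ?_ ?_
    · rw [wdat_form] at h1
      exact h1
    · intro v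
      simp only [wdat]
      refine Finset.sum_eq_zero fun q _ => ?_
      have : cf (tyW b) m.1 q (.inr v) = 0 := by
        simp [cf, hr v]
      rw [this]
      simp
    · intro d hd
      simp only [wdat] at hd
      obtain ⟨q, -, hq⟩ := Finset.exists_ne_zero_of_sum_ne_zero hd
      have hq' : cf (tyW b) m.1 q (.inl d) ≠ 0 := by
        intro h0
        apply hq
        rw [h0]
        simp
      rcases d with h1 | m1
      · obtain ⟨k, A'⟩ := adj_of_cf hq'
        have e := A.slot_end A' he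
        subst e
        obtain ⟨e, -⟩ := adj_uniq A A'
        subst e
        exact nbH_mem hn
      · have e : m1 = m := by
          have := cf_inner_ne hq'
          exact Subtype.ext this
        subst e
        exact nbM_mem hm
  have e1 : xx (tyW b) m.1 z 1 = z (.inl (.inr m)) := xx_mid (tyW b) m.2 z
  obtain ⟨i, hi⟩ := m
  simp only at *
  cases A with
  | l =>
    have h0 : h.castSucc = 0 := by
      unfold isEnd at he
      rcases of_decide_eq_true he with h1 | h1
      · exact h1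
      · exact absurd h1 (Fin.castSucc_lt_last h).ne
    have hty : tyW b h.castSucc = .threeR := by
      unfold tyW
      rw [if_neg (by omega), if_neg (by omega), if_pos h3, if_pos h0]
    have h2 := key ⟨![0, -1, 1], 1, -(1 / 2)⟩ (by rw [hty]; simp [facs])
    have e2 : xx (tyW b) h.castSucc z 2 = z (.inl (.inl h)) := xx_right _ h z
    simp only [Fac.form, Fin.sum_univ_three, e1, e2] at h2
    simp at h2
    linarith
  | r =>
    have hty : tyW b h.succ = .threeL := by
      unfold tyW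
      rw [if_neg (by omega), if_neg (by omega), if_pos h3, if_neg (Fin.succ_ne_zero h)]
    have h2 := key ⟨![1, -1, 0], 1, -(1 / 2)⟩ (by rw [hty]; simp [facs])
    have e2 : xx (tyW b) h.succ z 0 = z (.inl (.inl h)) := xx_left _ h z
    simp only [Fac.form, Fin.sum_univ_three, e1, e2] at h2
    simp at h2
    linarith

theorem Tl.gain_twoE (H : Tl b zs R z) (A : Adj h j q i) (hi : Tch b R i) (hj : ¬ Tch b R j)
    (hc : clsW b j = .twoE) :
    Gn (clsW b i) (tgt b R h (z (.inl (.inl h))).re) (z (.inl (.inl h))).re (Th b zs h j) .twoE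
      (pc b R zs z j q) := by
  rw [pc_twoE H A hi hj hc]
  obtain ⟨h0, h1⟩ := Th_box H.hb H.L.L A (Or.inl (by rw [hc]; decide))
  rw [hc] at h0 h1
  exact .twoE h0 h1

theorem Tl.gain_threeE (H : Tl b zs R z) (A : Adj h j q i) (hi : Tch b R i) (hj : ¬ Tch b R j)
    (hc : clsW b j = .threeE) :
    Gn (clsW b i) (tgt b R h (z (.inl (.inl h))).re) (z (.inl (.inl h))).re (Th b zs h j) .threeE
      (pc b R zs z j q) := by
  have hn : nbH b R h := (nbH_iff A).2 (Or.inr hi)
  obtain ⟨m, rfl⟩ : ∃ m : {i : Fin (M + 1) // (tyW b i).isMid = true}, m.1 = j :=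
    ⟨⟨j, tyW_isMid (Or.inr hc)⟩, rfl⟩
  rw [pc_threeE H A hi hj hc m rfl]
  obtain ⟨h0, h1⟩ := Th_box H.hb H.L.L A (Or.inl (by rw [hc]; decide))
  rw [hc] at h0 h1
  obtain ⟨m0, m1⟩ := Tm_box H.L.L m hc
  have hnm : nbM b R m.1 := Or.inr ⟨hc, h, q, i, A, hi⟩
  exact .threeE h0 h1 m0 m1 (wallE' H m A hn hc) (H.mreal hnm).2.2

/-- the gain of an untouched ring, the ring variable is not far to the right -/
theorem Tl.gain_ring_of (H : Tl b zs R z) (A : Adj h j q i) (hi : Tch b R i) (hj : ¬ Tch b R j)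
    (v : ZZ (tyW b)) (hv : v.1 = j)
    (hσ : ∃ σ : ℝ, |σ| ≤ 1 / 2 ∧ σ ≤ 1 / 8 ∧
      ∀ w : ℂ, fR w (Oz b z v) = fR w (LT.zt (zs (.inr v)).im σ)) :
    Gn (clsW b i) (tgt b R h (z (.inl (.inl h))).re) (z (.inl (.inl h))).re (Th b zs h j) .ring
      (pc b R zs z j q) := by
  subst hv
  have hc : clsW b v.1 = .ring := by
    by_contra hc
    exact ring_ne hc v rfl
  obtain ⟨σ, s0, s1, hw⟩ := hσ
  rw [pc_ring H A hi hj v rfl, hw, hw]
  refine .ring ?_ ?_ ?_ (H.L.L.rpos v).le (Loc.ring_height H.hb H.L.L v) s0 s1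
  · intro hK
    have := (Th_box H.hb H.L.L A (Or.inr hK)).1
    rwa [hc] at this
  · intro hK
    have := (Th_box H.hb H.L.L A (Or.inr hK)).2
    rwa [hc] at this
  · intro hK
    unfold Th
    rw [abs_ofs]
    exact A.rr_height H.L.L hc hK

end TL

end Pool.Agent.Work.MP_b30479_gt.G2
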