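import Pool.Agent.Work.MP_b30479_gt.G2.TWA
import Pool.Agent.Work.MP_b30479_gt.G2.WMMA
import Pool.Agent.Work.MP_b30479_gt.G2.WRnd

/-!
# Tails: the gain of an untouched interior digit three
-/

namespace Pool.Agent.Work.MP_b30479_gt.G2

open Finset VOL Filter Topology SR

namespace TL

variable {M : ℕ} {b : Fin (M + 1) → ℤ} {zs z : DD (tyW b) ⊕ ZZ (tyW b) → ℂ}
variable {R : Finset (DD (tyW b))} {h h' : Fin M} {i j j' k : Fin (M + 1)} {p q : Fin 3}

namespace W2d

/-- bounds of the ramp function -/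
theorem tr_bd {XM cl cr x : ℝ} (hc : 0 < cl) (hc' : 0 < cr) (h0 : 0 ≤ x) (h1 : x ≤ XM) :
    0 ≤ G2.tr 0 XM cl cr x ∧ G2.tr 0 XM cl cr x ≤ 1 ∧ G2.tr 0 XM cl cr x * cl ≤ x ∧
      G2.tr 0 XM cl cr x * cr ≤ XM - x := by
  have a0 : 0 ≤ x / cl := div_nonneg h0 hc.le
  have a1 : 0 ≤ (XM - x) / cr := div_nonneg (by linarith) hc'.le
  have e : G2.tr 0 XM cl cr x = max 0 (min 1 (min ((x - 0) / cl) ((XM - x) / cr))) := rfl
  rw [sub_zero] at e
  have e1 : G2.tr 0 XM cl cr x = min 1 (min (x / cl) ((XM - x) / cr)) := by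
    rw [e]
    exact max_eq_right (le_min zero_le_one (le_min a0 a1))
  have b1 : G2.tr 0 XM cl cr x ≤ x / cl := by
    rw [e1]
    exact (min_le_right _ _).trans (min_le_left _ _)
  have b2 : G2.tr 0 XM cl cr x ≤ (XM - x) / cr := by
    rw [e1]
    exact (min_le_right _ _).trans (min_le_right _ _)
  refine ⟨?_, ?_, (le_div_iff₀ hc).mp b1, (le_div_iff₀ hc').mp b2⟩
  · rw [e]
    exact le_max_left _ _
  · rw [e1]
    exact min_le_left _ _

/-- the ramp of the inner variable of an interior three, left part -/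
theorem tr_min {x : ℝ} (h0 : 0 ≤ x) (h1 : x ≤ 2 / 10) :
    G2.tr 0 (8 / 10) (5 / 100) (5 / 100) x = min 1 (x / (5 / 100)) := by
  have a0 : 0 ≤ x / (5 / 100) := by positivity
  have a1 : (1 : ℝ) ≤ (8 / 10 - x) / (5 / 100) := by
    rw [le_div_iff₀ (by norm_num)]
    linarith
  have e : G2.tr 0 (8 / 10) (5 / 100) (5 / 100) x =
      max 0 (min 1 (min ((x - 0) / (5 / 100)) ((8 / 10 - x) / (5 / 100)))) := rfl
  rw [sub_zero] at e
  rw [e, max_eq_right (le_min zero_le_one (le_min a0 (by linarith)))]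
  rcases le_total (x / (5 / 100)) 1 with h2 | h2
  · rw [min_eq_left (h2.trans a1)]
  · rw [min_eq_left (le_min h2 a1), min_eq_left h2]

/-- the window of the height of the inner variable -/
theorem mw_le (A K : Cl) : -(123 / 1000) ≤ (mw A K).t0 ∧ (mw A K).t1 ≤ 5 / 1000 := by
  cases A <;> cases K <;> simp only [mw] <;> constructor <;> norm_num

/-- parameters of the path in the slot `2` -/
theorem par (P Q K : Cl) : (hpp 2 P .three K Q).XM ≤ 65 / 100 ∧
    (hbox .three K false).t1 ≤ 475 / 1000 * (hpp 2 P .three K Q).cl ∧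
    (hbox .three K false).t1 ≤ 38 / 100 * (hpp 2 P .three K Q).cr ∧
    -(955 / 1000) * (hpp 2 P .three K Q).cl ≤ (hbox .three K false).t0 ∧
    -(764 / 1000) * (hpp 2 P .three K Q).cr ≤ (hbox .three K false).t0 ∧
    (hbox .three K false).t1 ≤ 57 / 1000 ∧ -(1145 / 10000) ≤ (hbox .three K false).t0 := by
  unfold hpp
  rw [if_pos rfl]
  cases K <;> (simp only [hp, hbox]; norm_num)

theorem pathW {T t X XM cl cr : ℝ} (t0 : 0 ≤ t) (t1 : t ≤ 1)
    (h0 : 0 ≤ X) (h1 : X ≤ XM) (hM : XM ≤ 65 / 100) (h2 : t * cl ≤ X) (h3 : t * cr ≤ XM - X)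
    (a1 : T ≤ 475 / 1000 * cl) (a2 : T ≤ 38 / 100 * cr) (a3 : -(955 / 1000) * cl ≤ T)
    (a4 : -(764 / 1000) * cr ≤ T) (a5 : T ≤ 57 / 1000) (a6 : -(1145 / 10000) ≤ T) :
    RgW X (T * t) := by
  have b1 := mul_le_mul_of_nonneg_right a1 t0
  have b2 := mul_le_mul_of_nonneg_right a2 t0
  have b3 := mul_le_mul_of_nonneg_right a3 t0
  have b4 := mul_le_mul_of_nonneg_right a4 t0
  have b5 := mul_le_mul_of_nonneg_right a5 t0
  have b6 := mul_le_mul_of_nonneg_right a6 t0
  refine ⟨h0, by linarith, ?_, ?_, ?_, ?_, ?_, ?_⟩ <;> linarith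

theorem realW {X : ℝ} (h0 : 0 ≤ X) (h1 : X ≤ 65 / 100) : RgW X 0 := by
  refine ⟨h0, h1, ?_, ?_, ?_, ?_, ?_, ?_⟩ <;> linarith

theorem pathK {T t X : ℝ} (t0 : 0 ≤ t) (t1 : t ≤ 1)
    (h0 : 0 ≤ X) (h1 : X ≤ 8 / 10) (h2 : t * (5 / 100) ≤ X) (h3 : t * (5 / 100) ≤ 8 / 10 - X)
    (a0 : -(123 / 1000) ≤ T) (a1 : T ≤ 5 / 1000) : RgK X (T * t) := by
  have b0 := mul_le_mul_of_nonneg_right a0 t0
  have b1 := mul_le_mul_of_nonneg_right a1 t0
  refine ⟨h0, h1, ?_, ?_, ?_, ?_, ?_, ?_⟩ <;> linarith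

/-- the growth of a region with three crossings in its first variable -/
theorem V3_sub1 (u u' l w : ℂ) : V3 u l w - V3 u' l w = V1 u (1 - l) - V1 u' (1 - l) := by
  have e1 : UU (u + (1 - l)) = -UU (l - u) := by
    rw [← UU_one_sub]
    congr 1
    ring
  have e2 : UU (u' + (1 - l)) = -UU (l - u') := by
    rw [← UU_one_sub]
    congr 1
    ring
  unfold V3 V1
  rw [e1, e2]
  have e0 : ∀ v : ℂ, (2 * v).im = 2 * v.im := fun v => by
    rw [show (2 : ℂ) * v = v + v by ring, Complex.add_im]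
    ring
  have e3 : (2 * u * l + (l - w) ^ 2 - l + w).im = 2 * (u * l).im + ((l - w) ^ 2 - l + w).im := by
    rw [← e0, ← Complex.add_im]
    congr 1
    ring
  have e4 : (2 * u' * l + (l - w) ^ 2 - l + w).im =
      2 * (u' * l).im + ((l - w) ^ 2 - l + w).im := by
    rw [← e0, ← Complex.add_im]
    congr 1
    ring
  have e5 : (u * (1 - l) - u - (1 - l)).im = -(u * l).im + l.im := by
    rw [← Complex.neg_im, ← Complex.add_im]
    have : u * (1 - l) - u - (1 - l) = -(u * l) + l - 1 := by ring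
    rw [this, Complex.sub_im, Complex.one_im, sub_zero]
  have e6 : (u' * (1 - l) - u' - (1 - l)).im = -(u' * l).im + l.im := by
    rw [← Complex.neg_im, ← Complex.add_im]
    have : u' * (1 - l) - u' - (1 - l) = -(u' * l) + l - 1 := by ring
    rw [this, Complex.sub_im, Complex.one_im, sub_zero]
  rw [e3, e4, e5, e6]
  ring

theorem one_sub_mk (x y : ℝ) : (1 : ℂ) - ⟨x, y⟩ = ⟨1 - x, -y⟩ := by
  apply Complex.ext <;> simp

end W2d

open W2d in
theorem Tl.gain_three (H : Tl b zs R z) (A : Adj h j q i) (hi : Tch b R i) (hj : ¬ Tch b R j)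
    (hc : clsW b j = .three) :
    Gn (clsW b i) (tgt b R h (z (.inl (.inl h))).re) (z (.inl (.inl h))).re (Th b zs h j)
      (if q = 0 then .threeA else .threeK) (pc b R zs z j q) := by
  have hnr : clsW b j ≠ .ring := by rw [hc]; decide
  have he : isEnd j = false := by
    by_contra h0
    have h1 : isEnd j = true := by simpa using h0
    unfold clsW cls at hc
    rw [h1] at hc
    split_ifs at hc
    all_goals first
      | exact absurd hc (by decide)
      | exact absurd rfl ‹¬true = true›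
  obtain ⟨h', k, A'⟩ := A.other' b he
  have hτ := Th_mem H.hb H.L.L A hnr
  have hT := Th_mem H.hb H.L.L A' hnr
  rw [hc] at hτ hT
  have hmid : (tyW b j).isMid = true := tyW_isMid (Or.inl hc)
  have hmp : (mp (clsW b j)) = ⟨8 / 10, 5 / 100, 5 / 100⟩ := by rw [hc]; rfl
  have etr : ∀ x : ℝ, trm b ⟨j, hmid⟩ x = G2.tr 0 (8 / 10) (5 / 100) (5 / 100) x := by
    intro x
    unfold trm
    show G2.tr 0 (mp (clsW b j)).XM (mp (clsW b j)).cl (mp (clsW b j)).cr x = _
    rw [hmp]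
  have hnt : ¬ isT b R h' := fun ht => hj ⟨_, ht, q.rev, A'.cf_ne⟩
  rcases A.slot with hq | hq
  · -- slot `0`
    subst hq
    have A2 : Adj h' j 2 k := A'
    have hm := H.L.X.mid hmid A A2 hc
    have hwl := mw_le (clsW b i) (clsW b k)
    have hTm : SR.Tm b zs ⟨j, hmid⟩ = ofs (b j) (zs (.inl (.inr ⟨j, hmid⟩))).im := rfl
    rw [← hTm] at hm
    have hThm : ofs (b j) (zs (.inl (.inl h))).im = Th b zs h j := rfl
    rw [hThm] at hm
    have hn3 : ¬ nbM b R j := by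
      intro h0
      rcases h0 with h0 | ⟨h0, -⟩
      · exact hj h0
      · rw [hc] at h0
        exact absurd h0 (by decide)
    obtain ⟨l0, l1, -⟩ := H.mpath (m := ⟨j, hmid⟩) hn3
    have l1' : (z (.inl (.inr ⟨j, hmid⟩))).re ≤ 8 / 10 := by
      have : (z (.inl (.inr ⟨j, hmid⟩))).re ≤ (mp (clsW b j)).XM := l1
      rw [hmp] at this
      exact this
    obtain ⟨X, hX, hV⟩ := pc_three0 H A A2 hi hj hc ⟨j, hmid⟩ rfl
    rw [if_pos rfl]
    rcases hV with ⟨hl, e⟩ | ⟨hl, e⟩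
    · obtain ⟨g0, g1, g2, g3⟩ := tr_bd (XM := 8 / 10) (cl := 5 / 100) (cr := 5 / 100)
        (by norm_num) (by norm_num) l0 l1'
      have hR : RgL (z (.inl (.inr ⟨j, hmid⟩))).re
          (SR.Tm b zs ⟨j, hmid⟩ * trm b ⟨j, hmid⟩ (z (.inl (.inr ⟨j, hmid⟩))).re) := by
        rw [etr]
        have b0 := mul_le_mul_of_nonneg_right (hwl.1.trans hm.1) g0
        have b1 := mul_le_mul_of_nonneg_right (hm.2.1.trans hwl.2) g0
        refine ⟨hl, l1', ?_, ?_, ?_, ?_⟩ <;> linarith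
      have h5 := Gn.threeA (K := clsW b i) (c := tgt b R h (z (.inl (.inl h))).re)
        (w := (z (.inl (.inl h))).re) hτ.1 hτ.2 hR
      rw [e, V3_sub1, one_sub_mk]
      exact h5
    · have hXW : RgW X.re X.im := by
        have hpar : wcl b h' = (hpp 2 (oc b j (2 : Fin 3).rev) .three (clsW b k)
              (oc b k 2)).cl ∧
            wcr b h' = (hpp 2 (oc b j (2 : Fin 3).rev) .three (clsW b k) (oc b k 2)).cr ∧
            wXM b h' = (hpp 2 (oc b j (2 : Fin 3).rev) .three (clsW b k) (oc b k 2)).XM := by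
          have h1 := A2.cl_eq b
          have h2 := A2.cr_eq b
          have h3 := A2.XM_eq b
          rw [hc] at h1 h2 h3
          exact ⟨h1, h2, h3⟩
        obtain ⟨p1, p2, p3⟩ := hpar
        obtain ⟨c1, c2, c3, c4, c5, c6, c7⟩ :=
          par (oc b j (2 : Fin 3).rev) (oc b k 2) (clsW b k)
        rw [← p1] at c2 c4
        rw [← p2] at c3 c5
        rw [← p3] at c1
        rcases hX with ⟨hn, rfl⟩ | ⟨hn, rfl⟩
        · obtain ⟨x0, x1, -⟩ := H.path hn
          obtain ⟨t0, t1, t2, t3⟩ := tr_bd (wcl_pos (b := b) h') (wcr_pos (b := b) h') x0 x1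
          exact pathW t0 t1 x0 x1 c1 t2 t3 (by linarith) (by linarith) (by linarith)
            (by linarith) (by linarith) (by linarith)
        · obtain ⟨-, x0, x1⟩ := H.real hn hnt
          exact realW x0 (x1.trans c1)
      have h5 := Gn.threeS (K := clsW b i) (D := clsW b k)
        (c := tgt b R h (z (.inl (.inl h))).re)
        (w := (z (.inl (.inl h))).re) hτ.1 hτ.2 l0 hl.le hm.1 hm.2.1 hm.2.2.1 hm.2.2.2 hXW
      rw [e, etr, tr_min l0 hl.le]
      exact h5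
  · -- slot `2`
    subst hq
    have A2 : Adj h' j 0 k := A'
    have hm := H.L.X.mid hmid A2 A hc
    have hwl := mw_le (clsW b k) (clsW b i)
    have hTm : SR.Tm b zs ⟨j, hmid⟩ = ofs (b j) (zs (.inl (.inr ⟨j, hmid⟩))).im := rfl
    rw [← hTm] at hm
    obtain ⟨X, ⟨x, x0, x1, hX⟩, e⟩ := pc_three2 H A A2 hi hj hc ⟨j, hmid⟩ rfl
    rw [if_neg (by decide)]
    obtain ⟨g0, g1, g2, g3⟩ := tr_bd (XM := 8 / 10) (cl := 5 / 100) (cr := 5 / 100)
        (by norm_num) (by norm_num) x0 x1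
    have hR : RgK X.re X.im := by
      rw [hX, etr]
      exact pathK g0 g1 x0 x1 g2 g3 (hwl.1.trans hm.1) (hm.2.1.trans hwl.2)
    have h5 := Gn.threeK (K := clsW b i) (c := tgt b R h (z (.inl (.inl h))).re)
      (w := (z (.inl (.inl h))).re) hτ.1 hτ.2 hR
    rw [e]
    exact h5

end TL

end Pool.Agent.Work.MP_b30479_gt.G2
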