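import Pool.Agent.Work.MP_b30479_gt.G2.TW1c
import Pool.Agent.Work.MP_b30479_gt.G2.TW2c

/-!
# Tails, word level: the gain of an untouched ring
-/

namespace Pool.Agent.Work.MP_b30479_gt.G2

open Finset VOL Filter Topology SR

namespace TL

variable {M : ℕ} {b : Fin (M + 1) → ℤ} {zs z : DD (tyW b) ⊕ ZZ (tyW b) → ℂ}
variable {R : Finset (DD (tyW b))} {h h' : Fin M} {i j j' k : Fin (M + 1)} {p q : Fin 3}

/-- **The gain of an untouched ring.** -/
theorem Tl.gain_ring (H : Tl b zs R z) (A : Adj h j q i) (hi : Tch b R i) (hj : ¬ Tch b R j)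
    (hc : clsW b j = .ring) :
    Gn (clsW b i) (tgt b R h (z (.inl (.inl h))).re) (z (.inl (.inl h))).re (Th b zs h j) .ring
      (pc b R zs z j q) := by
  have hv : (tyW b j).isRing = true := by
    rw [tyW_of_ring H.hb hc]
    rfl
  exact H.gain_ring_of A hi hj ⟨j, hv⟩ rfl (H.ring_le ⟨j, hv⟩ A hi hj)

end TL

end Pool.Agent.Work.MP_b30479_gt.G2
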