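import Pool.Agent.Work.MP_b30479_gt.G2.TWA
import Pool.Agent.Work.MP_b30479_gt.G2.WRnd

/-!
# Tails, word level: touched regions

Which hinges of a touched region are in the tail; the walls.
-/

namespace Pool.Agent.Work.MP_b30479_gt.G2

open Finset VOL Filter Topology SR

namespace TL

variable {M : ℕ} {b : Fin (M + 1) → ℤ} {zs z : DD (tyW b) ⊕ ZZ (tyW b) → ℂ}
variable {R : Finset (DD (tyW b))} {h h' : Fin M} {i j j' k : Fin (M + 1)} {p q : Fin 3}

/-- the tail of a hinge which is not between rings is at least at `6/10` -/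
theorem Tl.tail6 (H : Tl b zs R z) (A : Adj h i p j) (hr : clsW b i ≠ .ring) (ht : isT b R h) :
    6 / 10 ≤ (z (.inl (.inl h))).re := (wXM_ge A hr).trans (H.tail ht).2.1

theorem mid_of_tch {d : DD (tyW b)} (hd : cf (tyW b) i q (.inl d) ≠ 0)
    (hm : (tyW b i).isMid = false) : ∃ (h : Fin M) (k : Fin (M + 1)), d = .inl h ∧ Adj h i q k := by
  rcases d with h | m
  · obtain ⟨k, A⟩ := adj_of_cf hd
    exact ⟨h, k, rfl, A⟩
  · exfalso
    have h2 := m.2
    rw [cf_inner_ne hd, hm] at h2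
    exact absurd h2 (by decide)

/-- a touched region without inner variable has a hinge in the tail -/
theorem tch_hinge (hi : Tch b R i) (hm : (tyW b i).isMid = false) :
    ∃ (h : Fin M) (p : Fin 3) (j : Fin (M + 1)), Adj h i p j ∧ isT b R h := by
  obtain ⟨d, hd, q, hq⟩ := hi
  obtain ⟨h, k, rfl, A⟩ := mid_of_tch hq hm
  exact ⟨h, q, k, A, hd⟩

theorem exists_adj0 (he : isEnd i = false) : ∃ (h : Fin M) (j : Fin (M + 1)), Adj h i 0 j := by
  unfold isEnd at he
  have he' := of_decide_eq_false he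
  rw [not_or] at he'
  obtain ⟨k, hk⟩ := Fin.exists_succ_eq.2 he'.1
  subst hk
  exact ⟨k, _, .r⟩

theorem re_slots (A : Adj h i p j) (A' : Adj h' i p.rev j') :
    (Ow b z i 0).re + (Ow b z i 2).re = (z (.inl (.inl h))).re + (z (.inl (.inl h'))).re := by
  have e1 : (Ow b z i p).re = (z (.inl (.inl h))).re := by rw [Ow_adj z A, ofr_re]
  have e2 : (Ow b z i p.rev).re = (z (.inl (.inl h'))).re := by rw [Ow_adj z A', ofr_re]
  rw [← e1, ← e2]
  rcases A.slot with rfl | rfl
  · rfl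
  · exact add_comm _ _

/-- **A touched digit `1` or `2`.** -/
theorem Tl.tch_one (H : Tl b zs R z) (hi : Tch b R i) (hc : clsW b i = .one ∨ clsW b i = .two) :
    ∃ (h h' : Fin M) (p : Fin 3) (j j' : Fin (M + 1)), Adj h i p j ∧ Adj h' i p.rev j' ∧
      isT b R h ∧ ¬ isT b R h' ∧ (z (.inl (.inl h))).re + (z (.inl (.inl h'))).re ≤ 1 := by
  have hm : (tyW b i).isMid = false := by
    rcases hc with hc | hc
    · rw [tyW_of_one hc]; rfl
    · rw [tyW_of_two (Or.inl hc)]; rfl
  have hr : clsW b i ≠ .ring := by rcases hc with hc | hc <;> rw [hc] <;> decide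
  have he : isEnd i = false := by
    rcases hc with hc | hc
    · exact clsW_inner H.hb (Or.inl hc)
    · exact clsW_inner H.hb (Or.inr (Or.inl hc))
  obtain ⟨h, p, j, A, ht⟩ := tch_hinge hi hm
  obtain ⟨h', j', A'⟩ := A.other' b he
  have hw := H.mx.wall12 H.hb hi hc
  rw [re_slots A A'] at hw
  refine ⟨h, h', p, j, j', A, A', ht, fun ht' => ?_, hw⟩
  have h1 := H.tail6 A hr ht
  have h2 := H.tail6 A' hr ht'
  linarith

/-- **A touched `2` at an end.** -/
theorem Tl.tch_twoE (_ : Tl b zs R z) (hi : Tch b R i) (hc : clsW b i = .twoE) :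
    ∃ (h : Fin M) (p : Fin 3) (j : Fin (M + 1)), Adj h i p j ∧ isT b R h :=
  tch_hinge hi (by rw [tyW_of_two (Or.inr hc)]; rfl)

/-- **A touched interior `3`**: `m` its inner variable -/
theorem Tl.tch_three (H : Tl b zs R z) (m : {i : Fin (M + 1) // (tyW b i).isMid = true})
    (hi : Tch b R m.1) (hc : clsW b m.1 = .three) :
    ∃ (h h' : Fin M) (j j' : Fin (M + 1)), Adj h m.1 0 j ∧ Adj h' m.1 2 j' ∧
      (z (.inl (.inl h))).re ≤ (z (.inl (.inr m))).re ∧
      (z (.inl (.inr m))).re + (z (.inl (.inl h'))).re ≤ 1 ∧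
      ((isT b R h ∧ ¬ isT b R h') ∨ (¬ isT b R h ∧ isT b R h') ∨
        (¬ isT b R h ∧ ¬ isT b R h' ∧ (Sum.inr m : DD (tyW b)) ∈ R)) := by
  have hr : clsW b m.1 ≠ .ring := by rw [hc]; decide
  have he : isEnd m.1 = false := clsW_inner H.hb (Or.inr (Or.inr hc))
  obtain ⟨h, j, A, h', j', A'⟩ : ∃ (h : Fin M) (j : Fin (M + 1)), Adj h m.1 0 j ∧
      ∃ (h' : Fin M) (j' : Fin (M + 1)), Adj h' m.1 2 j' := by
    obtain ⟨h, j, A⟩ := exists_adj0 he
    obtain ⟨h', j', A'⟩ := A.other' b he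
    exact ⟨h, j, A, h', j', A'⟩
  obtain ⟨w1, w2⟩ := H.mx.wall3 hi hc
  rw [Ow_adj z A, Ow_inner, ofr_re, ofr_re] at w2
  rw [Ow_adj z A', Ow_inner, ofr_re, ofr_re] at w1
  refine ⟨h, h', j, j', A, A', w2, w1, ?_⟩
  by_cases t1 : isT b R h
  · left
    refine ⟨t1, fun t2 => ?_⟩
    have h1 := H.tail6 A hr t1
    have h2 := H.tail6 A' hr t2
    linarith
  right
  by_cases t2 : isT b R h'
  · exact Or.inl ⟨t1, t2⟩
  right
  refine ⟨t1, t2, ?_⟩
  obtain ⟨d, hd, q, hq⟩ := hi
  rcases d with g | m'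
  · exfalso
    obtain ⟨k, B⟩ := adj_of_cf hq
    rcases B.slot with rfl | rfl
    · exact t1 ((adj_uniq B A).1 ▸ hd)
    · exact t2 ((adj_uniq B A').1 ▸ hd)
  · obtain rfl : m' = m := Subtype.ext (cf_inner_ne hq)
    exact hd

/-- the walls of a region whose variables are real -/
theorem Tl.wallN (H : Tl b zs R z) (hr : clsW b i ≠ .ring) {f : Fac}
    (hf : f ∈ facs (tyW b i) (decide (i ≠ 0)) (decide (i ≠ Fin.last M)))
    (hn : ∀ (d : DD (tyW b)) (q : Fin 3), cf (tyW b) i q (.inl d) ≠ 0 → Sum.inl d ∈ nbT b R) :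
    (f.form (xx (tyW b) i z)).re ≤ 1 := by
  obtain ⟨n, hn', rfl⟩ := List.mem_iff_getElem.1 hf
  have h1 := H.mx.adm.wall ⟨i, ⟨n, hn'⟩⟩ ?_ ?_
  · rw [wdat_form] at h1
    exact h1
  · intro v
    simp only [wdat]
    refine Finset.sum_eq_zero fun q _ => ?_
    have : cf (tyW b) i q (.inr v) = 0 := by
      simp [cf, ring_ne hr v]
    rw [this]
    simp
  · intro d hd
    simp only [wdat] at hd
    obtain ⟨q, -, hq⟩ := Finset.exists_ne_zero_of_sum_ne_zero hd
    refine hn d q ?_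
    intro h0
    apply hq
    rw [h0]
    simp

theorem nbM_of_nbH (A : Adj h i p j) (hn : nbH b R h) (hc : clsW b i = .threeE) : nbM b R i := by
  rcases (nbH_iff A).1 hn with h1 | h1
  · exact Or.inl h1
  · exact Or.inr ⟨hc, h, p, j, A, h1⟩

/-- **A `3` at an end with a real hinge**: the wall (also if it is not touched) -/
theorem Tl.wallE (H : Tl b zs R z) (m : {i : Fin (M + 1) // (tyW b i).isMid = true})
    (A : Adj h m.1 p j) (hn : nbH b R h) (hc : clsW b m.1 = .threeE) :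
    (z (.inl (.inl h))).re ≤ (z (.inl (.inr m))).re ∧ (z (.inl (.inr m))).re ≤ 1 := by
  have hM := nbM_of_nbH A hn hc
  refine ⟨?_, (H.mreal hM).2.2⟩
  have hr : clsW b m.1 ≠ .ring := by rw [hc]; decide
  have he := clsW_end (b := b) (Or.inr hc)
  have h3 := clsW_nat3 (Or.inr hc)
  have hmem : ∀ (d : DD (tyW b)) (q : Fin 3), cf (tyW b) m.1 q (.inl d) ≠ 0 →
      Sum.inl d ∈ nbT b R := by
    intro d q hq
    rcases d with g | m'
    · obtain ⟨k, B⟩ := adj_of_cf hq
      obtain rfl : q = p := B.slot_end A he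
      rw [(adj_uniq B A).1]
      exact nbH_mem hn
    · obtain rfl : m' = m := Subtype.ext (cf_inner_ne hq)
      exact nbM_mem hM
  have e1 : (Ow b z m.1 p).re = (z (.inl (.inl h))).re := by rw [Ow_adj z A, ofr_re]
  have e2 : (Ow b z m.1 1).re = (z (.inl (.inr m))).re := by rw [Ow_inner, ofr_re]
  rw [← e1, ← e2]
  have hnr : tyW b m.1 ≠ .ring := by
    intro h0
    have := m.2
    rw [h0] at this
    exact absurd this (by decide)
  rcases A.slot with rfl | rfl
  · have h0 : m.1 ≠ 0 := by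
      rw [← (adj_r A).1]
      exact Fin.succ_ne_zero h
    have hty : tyW b m.1 = .threeL := by
      unfold tyW
      rw [if_neg (by omega), if_neg (by omega), if_pos h3, if_neg h0]
    have h2 := H.wallN hr (f := ⟨![1, -1, 0], 1, -(1 / 2)⟩) (by rw [hty]; simp [facs]) hmem
    simp only [Fac.form, Fin.sum_univ_three] at h2
    rw [Ow_re0, Ow_re1 z hnr]
    simp at h2
    linarith
  · have h0 : m.1 = 0 := by
      unfold isEnd at he
      have he' := of_decide_eq_true he
      refine he'.resolve_right ?_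
      rw [← (adj_l A).1]
      exact (Fin.castSucc_lt_last h).ne
    have hty : tyW b m.1 = .threeR := by
      unfold tyW
      rw [if_neg (by omega), if_neg (by omega), if_pos h3, if_pos h0]
    have h2 := H.wallN hr (f := ⟨![0, -1, 1], 1, -(1 / 2)⟩) (by rw [hty]; simp [facs]) hmem
    simp only [Fac.form, Fin.sum_univ_three] at h2
    rw [Ow_re2, Ow_re1 z hnr]
    simp at h2
    linarith

/-- **A touched `3` at an end.** -/
theorem Tl.tch_threeE (_ : Tl b zs R z) (m : {i : Fin (M + 1) // (tyW b i).isMid = true})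
    (A : Adj h m.1 p j) (hi : Tch b R m.1) (hc : clsW b m.1 = .threeE) :
    isT b R h ∨ (¬ isT b R h ∧ (Sum.inr m : DD (tyW b)) ∈ R) := by
  by_cases ht : isT b R h
  · exact Or.inl ht
  right
  refine ⟨ht, ?_⟩
  obtain ⟨d, hd, q, hq⟩ := hi
  rcases d with g | m'
  · exfalso
    obtain ⟨k, B⟩ := adj_of_cf hq
    obtain rfl : q = p := B.slot_end A (clsW_end (Or.inr hc))
    exact ht ((adj_uniq B A).1 ▸ hd)
  · obtain rfl : m' = m := Subtype.ext (cf_inner_ne hq)
    exact hd

/-- **A touched ring.** -/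
theorem Tl.tch_ring (H : Tl b zs R z) (hi : Tch b R i) (hc : clsW b i = .ring) :
    ∃ (h : Fin M) (p : Fin 3) (j : Fin (M + 1)), Adj h i p j ∧ isT b R h :=
  tch_hinge hi (by rw [tyW_of_ring H.hb hc]; rfl)

end TL

end Pool.Agent.Work.MP_b30479_gt.G2
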