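import Pool.Agent.Work.MP_b30479_gt.G2.TWC
import Pool.Agent.Work.MP_b30479_gt.G2.TW3a
import Pool.Agent.Work.MP_b30479_gt.G2.TL1
import Pool.Agent.Work.MP_b30479_gt.G2.TL5
import Pool.Agent.Work.MP_b30479_gt.G2.TK6

/-!
# Tails: the shares of the touched digits two
-/

namespace Pool.Agent.Work.MP_b30479_gt.G2

open Finset VOL Filter Topology SR

namespace TL

variable {M : ℕ} {b : Fin (M + 1) → ℤ} {zs z : DD (tyW b) ⊕ ZZ (tyW b) → ℂ}
variable {R : Finset (DD (tyW b))} {h h' : Fin M} {i j j' k : Fin (M + 1)} {p q : Fin 3}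

theorem Tl.share_two (H : Tl b zs R z) (G : Gains b zs R z) (hi : Tch b R i)
    (hc : clsW b i = .two) (c : ZZ (tyW b) → ℝ) :
    sh b R zs z i 0 + sh b R zs z i 2 ≤ Vr b (zN b R zs z c) i - Vr b z i := by
  obtain ⟨h, h', p, j, j', A, A', ht, ht', hw⟩ := H.tch_one hi (Or.inr hc)
  have hr : clsW b i ≠ .ring := by rw [hc]; decide
  have hn : nbH b R h := isT_nb ht
  have hn' : nbH b R h' := (nbH_iff A').2 (Or.inl hi)
  have hhT : hT b R i := ⟨h, p, j, A, ht⟩
  obtain ⟨g, eg, hG⟩ := sh_nb H G A' hi ht' fun hh => hr hh.1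
  have htg := tgt_cN A' hhT ht' hr (z (.inl (.inl h'))).re
  rw [htg, hc] at hG
  obtain ⟨-, x0, x1⟩ := H.tail ht
  obtain ⟨-, w0, w1⟩ := H.re_mem hn'
  obtain ⟨t0, t1⟩ := H.box A (Or.inl hr)
  obtain ⟨k0, k1⟩ := H.box A' (Or.inl hr)
  have hX := X0_le (b := b) A
  rw [hc] at hX t0 t1 k0 k1
  have hk : Th b zs h' j' = -Th b zs h' i := Th_opp H.hb A' (Or.inl hr)
  have hx6 : (6 : ℝ) / 10 ≤ wXM b h := wXM_ge A hr
  rw [hk] at hG
  have hE := EB_of_Gn (Or.inr (Or.inl rfl)) w0 (by linarith) hG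
  have hok : (kb b R j' p.rev.rev).ok (clsW b j') := kb_ok b R j' _
  rw [sh_sum A, sh_T A ht, eg, A.Vr_two A' H.hb hc, A.Vr_two A' H.hb hc, Oh_new hn, Oh_new hn',
    H.Oh_nb hn, H.Oh_nb hn', tgt_T A ht, htg, hc, A'.oc_eq b]
  unfold shT
  rw [if_neg hr]
  rcases ee_or (z := z) A' hi with he | ⟨he, -, hj1, hkb, -, hw5⟩
  · rw [he, add_zero]
    by_cases hj : clsW b j = .ring
    · rw [if_pos hj, hc]
      rw [hj] at t0 t1 hX ⊢
      by_cases hx : 95 / 100 ≤ (z (.inl (.inl h))).re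
      · have h1 := side_two_ring' hok (x := (z (.inl (.inl h))).re) (by linarith) w0 hw t0 t1
          k0 k1 hE
        have h2 : cT .two .ring = 1 / 4 := rfl
        rw [h2]
        linarith
      · have h1 := side_two (B := .ring) hok (x := (z (.inl (.inl h))).re) (by linarith) w0 hw t0 t1
          k0 k1 hE
        have h2 : gD .two (z (.inl (.inl h))).re (Th b zs h i) =
            al .two .ring (clsW b j') (z (.inl (.inl h))).re - be .two .ring * Th b zs h i := by
          simp only [gD, al, be]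
          rw [if_neg hx]
        rw [h2]
        linarith
    · rw [if_neg hj, hc]
      have h1 := side_two hok (x := (z (.inl (.inl h))).re) (by linarith) w0 hw t0 t1
          k0 k1 hE
      linarith
  · rw [he, hkb]
    rw [hkb] at hE
    rw [hj1] at k0 k1 ⊢
    have hcN : cN .one = 9 / 50 := rfl
    rw [hcN]
    by_cases hj : clsW b j = .ring
    · rw [if_pos hj, hc]
      rw [hj] at t0 t1 hX ⊢
      have h1 := side_two_ring5 (x := (z (.inl (.inl h))).re) (by linarith) w0 hw5 hw t0 t1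
          k0 k1 hE
      have h2 : cT .two .ring = 1 / 4 := rfl
      rw [h2]
      linarith
    · rw [if_neg hj, hc]
      have h1 := side_two5 (B := clsW b j) (x := (z (.inl (.inl h))).re) (by linarith) w0 hw5 hw
          t0 t1 k0 k1 hE
      linarith

theorem Tl.share_twoE (H : Tl b zs R z) (hi : Tch b R i)
    (hc : clsW b i = .twoE) (c : ZZ (tyW b) → ℝ) :
    sh b R zs z i 0 + sh b R zs z i 2 ≤ Vr b (zN b R zs z c) i - Vr b z i := by
  obtain ⟨h, p, j, A, ht⟩ := H.tch_twoE hi hc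
  have hr : clsW b i ≠ .ring := by rw [hc]; decide
  have hn : nbH b R h := isT_nb ht
  obtain ⟨-, x0, x1⟩ := H.tail ht
  obtain ⟨t0, t1⟩ := H.box A (Or.inl hr)
  have hX := X0_le (b := b) A
  rw [hc] at hX t0 t1
  rw [sh_sum A, sh_T A ht, sh_end A (clsW_end (Or.inl hc)), A.Vr_twoE H.hb hc, A.Vr_twoE H.hb hc,
    Oh_new hn, H.Oh_nb hn, tgt_T A ht, hc]
  have h1 := side_twoE (B := clsW b j) (Cc := oc b i p.rev) (x := (z (.inl (.inl h))).re)
    (by linarith) x1 t0 t1
  unfold shT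
  rw [if_neg hr]
  by_cases hj : clsW b j = .ring
  · rw [if_pos hj, hc]
    rw [hj] at h1 ⊢
    have h2 : gD .twoE (z (.inl (.inl h))).re (Th b zs h i) =
        al .twoE .ring (oc b i p.rev) (z (.inl (.inl h))).re - be .twoE .ring * Th b zs h i := by
      simp only [gD, al, be]
    rw [h2]
    linarith
  · rw [if_neg hj, hc]
    linarith

end TL

end Pool.Agent.Work.MP_b30479_gt.G2
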