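import Pool.Agent.Work.MP_b30479_gt.G2.TWA
import Pool.Agent.Work.MP_b30479_gt.G2.TK4

/-!
# Tails: the sums of the shares
-/

namespace Pool.Agent.Work.MP_b30479_gt.G2

open Finset VOL Filter Topology SR

namespace TL

variable {M : ℕ} {b : Fin (M + 1) → ℤ} {zs z : DD (tyW b) ⊕ ZZ (tyW b) → ℂ}
variable {R : Finset (DD (tyW b))} {h h' : Fin M} {i j j' k : Fin (M + 1)} {p q : Fin 3}

/-! ### untouched regions -/

theorem rev_ne {p p' : Fin 3} (h1 : p = 0 ∨ p = 2) (h2 : p' = 0 ∨ p' = 2) (hne : p' ≠ p) :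
    p' = p.rev := by
  rcases h1 with rfl | rfl <;> rcases h2 with rfl | rfl
  · exact absurd rfl hne
  · rfl
  · rfl
  · exact absurd rfl hne

/-- the other hinge, at the level of the variables -/
theorem Z_o' (A' : Adj h' j q.rev k) :
    Zm b R zs z j q (.inl (.inl h')) = Zb b R zs z j q (.inl (.inl h')) := by
  unfold Zm Zb
  rcases A'.slot with hq | hq
  · have hq' : q = 2 := rev_eq0 _ hq
    subst hq'
    rw [if_neg (by decide), if_neg (by decide), zH_r]
    exact (adj_r A').1
  · have hq' : q = 0 := rev_eq2 _ hq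
    subst hq'
    rw [if_pos rfl, if_pos rfl, zH_l]
    obtain ⟨e1, -⟩ := adj_l A'
    rw [← e1]
    exact (Fin.castSucc_lt_succ (i := h')).ne'

/-- a hinge on its path is not moved -/
theorem Z_p (A : Adj h i p j) (hn : ¬ nbH b R h) :
    Zm b R zs z i p (.inl (.inl h)) = Zb b R zs z i p (.inl (.inl h)) := by
  unfold Zm Zb
  rcases A.slot with rfl | rfl
  · rw [if_pos rfl, if_pos rfl, zH_r (adj_r A).1, zN_h' b R zs z 0 hn]
  · rw [if_neg (by decide), if_neg (by decide), zN_h' b R zs z 0 hn, zH_l]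
    obtain ⟨e1, -⟩ := adj_l A
    rw [← e1]
    exact (Fin.castSucc_lt_succ (i := h)).ne'

/-- **No share** of an untouched region at a hinge on its path. -/
theorem pc_zero (A : Adj h i p j) (hn : ¬ nbH b R h) (hi : ¬ Tch b R i) :
    pc b R zs z i p = 0 := by
  have hM' : ∀ hm : (tyW b i).isMid = true, (p = 0 → ¬ mvM b R z ⟨i, hm⟩) ∧
      (i = 0 → ¬ mvM b R z ⟨i, hm⟩) ∧ ¬ nbM b R i := by
    intro hm
    refine ⟨?_, ?_, ?_⟩
    · rintro rfl ⟨⟨h1, j1, A1, hn1⟩, -⟩
      have e := (adj_uniq A1 A).1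
      subst e
      exact hn hn1
    · intro h0
      rintro ⟨⟨h1, j1, A1, hn1⟩, -⟩
      have h2 := (adj_r A1).1
      have h3 : h1.succ = 0 := h2.trans h0
      exact Fin.succ_ne_zero _ h3
    · rintro (h1 | ⟨hc, h1, p1, j1, A1, ht⟩)
      · exact hi h1
      · have e0 := A.slot_end A1 (clsW_end (Or.inr hc))
        subst e0
        obtain ⟨rfl, rfl⟩ := adj_uniq A A1
        exact hn ((nbH_iff A).2 (Or.inr ht))
  rw [pc_eq, sub_eq_zero]
  apply Vr_congr
  · intro h1 p1 j1 A1
    by_cases hp : p1 = p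
    · subst hp
      obtain ⟨rfl, rfl⟩ := adj_uniq A A1
      exact Z_p A hn
    · have e := rev_ne A.slot A1.slot hp
      subst e
      exact Z_o' A1
  · intro hm
    obtain ⟨m1, m2, m3⟩ := hM' hm
    unfold Zm Zb
    rcases A.slot with rfl | rfl
    · have h0 : i ≠ 0 := by
        rw [← (adj_r A).1]
        exact Fin.succ_ne_zero h
      rw [if_pos rfl, if_pos rfl, zH_m (m := ⟨i, hm⟩) rfl h0, zN_m']
      rintro (h1 | h1)
      · exact m3 h1
      · exact m1 rfl h1
    · rw [if_neg (by decide), if_neg (by decide)]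
      by_cases h0 : i = 0
      · have e : zH b R zs z i (.inl (.inr ⟨i, hm⟩)) = z (.inl (.inr ⟨i, hm⟩)) :=
          if_neg fun hc => hc.2 h0
        rw [e, zN_m']
        rintro (h1 | h1)
        · exact m3 h1
        · exact m2 h0 h1
      · exact (zH_m (m := ⟨i, hm⟩) rfl h0).symm
  · intro hz
    obtain ⟨e1, e2⟩ := Z_z (zs := zs) (z := z) ⟨i, hz⟩ hi i p
    rw [e1, e2]

theorem pc_first : pc b R zs z 0 0 = 0 := by
  rw [pc_eq, sub_eq_zero]
  unfold Zm Zb
  rw [if_pos rfl, if_pos rfl]
  apply Vr_congr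
  · intro h1 p1 j1 _
    exact zH_l (Fin.succ_ne_zero h1)
  · intro hm
    exact zH_m' _
  · intro hz
    rfl

theorem pc_last (hM : 1 ≤ M) (hi : ¬ Tch b R (Fin.last M)) :
    pc b R zs z (Fin.last M) 2 = 0 := by
  rw [pc_eq, sub_eq_zero]
  unfold Zm Zb
  rw [if_neg (by decide), if_neg (by decide)]
  have h0 : Fin.last M ≠ 0 := by
    intro h1
    have := congrArg Fin.val h1
    simp at this
    omega
  apply Vr_congr
  · intro h1 p1 j1 A1
    rcases A1.slot with hp | hp
    · subst hp
      exact (zH_r (adj_r A1).1).symm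
    · subst hp
      exact absurd (adj_l A1).1 (Fin.castSucc_lt_last h1).ne
  · intro hm
    exact (zH_m (m := ⟨_, hm⟩) rfl h0).symm
  · intro hz
    exact zN_z' b R zs z 0 ⟨_, hz⟩ hi

theorem no_slot0 (A : Adj h 0 0 j) : False := Fin.succ_ne_zero _ (adj_r A).1

theorem no_slot2 (A : Adj h (Fin.last M) 2 j) : False :=
  (Fin.castSucc_lt_last h).ne (adj_l A).1

theorem sh_first : sh b R zs z 0 0 = 0 := sh_none fun ⟨_, A⟩ => no_slot0 A

theorem sh_last : sh b R zs z (Fin.last M) 2 = 0 := sh_none fun ⟨_, A⟩ => no_slot2 A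

theorem sh_un (A : Adj h i p j) (hi : ¬ Tch b R i) : sh b R zs z i p = pc b R zs z i p := by
  rw [sh_adj A]
  unfold shA
  rw [if_neg (not_isT A hi), if_neg hi]

/-- **The shares of an untouched region.** -/
theorem share_un (hM : 1 ≤ M) (hi : ¬ Tch b R i) (c : ZZ (tyW b) → ℝ) :
    sh b R zs z i 0 + sh b R zs z i 2 = Vr b (zN b R zs z c) i - Vr b z i := by
  have e0 : sh b R zs z i 0 = pc b R zs z i 0 := by
    by_cases h0 : i = 0
    · subst h0
      rw [sh_first, pc_first]
    · obtain ⟨h1, hh⟩ := Fin.eq_succ_of_ne_zero h0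
      subst hh
      exact sh_un (Adj.r (h := h1)) hi
  have e2 : sh b R zs z i 2 = pc b R zs z i 2 := by
    by_cases h0 : i = Fin.last M
    · subst h0
      rw [sh_last, pc_last hM hi]
    · obtain ⟨h1, hh⟩ := Fin.eq_castSucc_of_ne_last h0
      subst hh
      exact sh_un (Adj.l (h := h1)) hi
  have e3 : Vr b (zN b R zs z c) i = Vr b (zN b R zs z 0) i := by
    apply Vr_congr
    · intro h1 p1 j1 _
      rfl
    · intro hm
      rfl
    · intro hz
      rw [zN_z' b R zs z c ⟨i, hz⟩ hi, zN_z' b R zs z 0 ⟨i, hz⟩ hi]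
  have e4 : pc b R zs z i 0 = Vr b (zH b R zs z i) i - Vr b z i := if_pos rfl
  have e5 : pc b R zs z i 2 = Vr b (zN b R zs z 0) i - Vr b (zH b R zs z i) i :=
    if_neg (by decide)
  rw [e0, e2, e3, e4, e5]
  ring

/-! ### hinges -/

theorem be_comm (A B : Cl) : be A B = be B A := by
  cases A <;> cases B <;> rfl

/-- the start of the tail of `1 | 1` -/
theorem XM_one_one (A : Adj h i p j) (hi : clsW b i = .one) (hj : clsW b j = .one)
    (h1 : oc b i p.rev ≠ .one) (h2 : oc b j p ≠ .one) : wXM b h = 86 / 100 := by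
  rw [A.XM_eq b, hi, hj]
  unfold hpp
  have e : ∀ P Q : Cl, P ≠ .one → Q ≠ .one → (hp P .one .one Q).XM = 86 / 100 := by
    intro P Q h3 h4
    have h5 : ¬ (P = .one ∨ Q = .one) := by
      rintro (h6 | h6)
      · exact h3 h6
      · exact h4 h6
    simp only [hp, if_neg h5]
  split_ifs
  · exact e _ _ h1 h2
  · exact e _ _ h2 h1

/-- **The shares at a hinge in the tail.** -/
theorem hinge_T (H : Tl b zs R z) (hRD : ∀ {K : Cl} {x t t' : ℝ}, (K ≠ .ring → t' = -t) →
      0 < gR K x t + gD K x t') (ht : isT b R h) :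
    0 < sh b R zs z h.castSucc 2 + sh b R zs z h.succ 0 := by
  have A := Adj.l (h := h)
  have A' := Adj.r (h := h)
  rw [sh_T A ht, sh_T A' ht]
  unfold shT
  have hopp := fun hr => Th_opp (zs := zs) H.hb A hr
  by_cases h1 : clsW b h.castSucc = .ring
  · rw [if_pos h1]
    by_cases h2 : clsW b h.succ = .ring
    · rw [if_pos h2, h1, h2]
      simp only [gR]
      norm_num
    · rw [if_neg h2, if_pos h1]
      exact hRD fun _ => hopp (Or.inr h2)
  · rw [if_neg h1]
    by_cases h2 : clsW b h.succ = .ring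
    · rw [if_pos h2, if_pos h2]
      have := hRD (K := clsW b h.castSucc) (x := (z (.inl (.inl h))).re)
        (t := Th b zs h h.succ) (t' := Th b zs h h.castSucc) fun _ => by
          rw [hopp (Or.inl h1), neg_neg]
      linarith
    · rw [if_neg h2, if_neg h2, if_neg h1, be_comm (clsW b h.succ), hopp (Or.inl h1)]
      have := al_pos (K := clsW b h.castSucc) (B := clsW b h.succ)
        (C := oc b h.castSucc (Fin.rev 2)) (D := oc b h.succ (Fin.rev 0))
        (x := (z (.inl (.inl h))).re) fun h3 h4 h5 h6 => by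
          have h7 := XM_one_one A h3 h4 h5 h6
          have h8 := (H.tail ht).2.1
          rw [h7] at h8
          exact h8
      linarith

/-- **The shares at a hinge which is not in the tail.** -/
theorem hinge_N (H : Tl b zs R z) (ht : ¬ isT b R h) :
    sh b R zs z h.castSucc 2 + sh b R zs z h.succ 0 = ee b R z h := by
  have A := Adj.l (h := h)
  have A' := Adj.r (h := h)
  rw [sh_adj A, sh_adj A']
  unfold shA
  rw [if_neg ht, if_neg ht]
  by_cases h1 : Tch b R h.castSucc
  · by_cases h2 : Tch b R h.succ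
    · rw [if_pos h1, if_pos h2, if_pos h2, if_pos h1, ee_zero_tt A h1 h2]
      unfold shN
      by_cases h3 : clsW b h.castSucc = .ring ∧ clsW b h.succ = .ring
      · rw [if_pos h3, if_pos h3.symm, add_zero]
      · rw [if_neg h3, if_neg fun hc => h3 hc.symm]
        have h4 : clsW b h.castSucc ≠ .ring ∨ clsW b h.succ ≠ .ring := by
          by_contra hc
          rw [not_or, not_not, not_not] at hc
          exact h3 hc
        rw [Th_opp H.hb A h4]
        ring
    · rw [if_pos h1, if_neg h2, if_neg h2]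
      have : (Fin.rev 2 : Fin 3) = 0 := rfl
      rw [this]
      ring
  · by_cases h2 : Tch b R h.succ
    · rw [if_neg h1, if_pos h2, if_neg h1]
      have : (Fin.rev 0 : Fin 3) = 2 := rfl
      rw [this]
      ring
    · rw [if_neg h1, if_neg h2]
      have hn : ¬ nbH b R h := by
        rintro (h3 | h3)
        · exact h1 h3
        · exact h2 h3
      rw [pc_zero A hn h1, pc_zero A' hn h2, add_zero, ee_zero_uu A h1 h2]

/-- no extra loss at a hinge in the tail -/
theorem ee_T (ht : isT b R h) : ee b R z h = 0 :=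
  ee_zero_tt (Adj.l (h := h)) (isT_tch (Adj.l (h := h)) ht) (isT_tch (Adj.r (h := h)) ht)

end TL

end Pool.Agent.Work.MP_b30479_gt.G2
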