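import Pool.Agent.Work.MP_b30479_gt.G2.V3MidA
import Pool.Agent.Work.MP_b30479_gt.G2.WVal
import Pool.Agent.Work.MP_b30479_gt.G2.MRBase

/-!
# Value row of the inner variable of an inner digit `3`, right ramp: analytic part

`v = r + τ i` is moved to `v' = c + t i`, `c < r`.  The difference of the values is
`FA x T + FB w S + FC`.  `FA x T` increases in `T`; `FB w S` increases in `w` for `w ≤ 1 - r` and is
concave in `w` for `w ≥ 1 - r`.
-/

namespace Pool.Agent.Work.MP_b30479_gt.G2

open VOL NumU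

namespace VN

/-- the part with the hinge `x + i T` on the side `S3` -/
noncomputable def FA (c r t τ x T : ℝ) : ℝ :=
  -(Real.pi * (x * (t - τ) + T * (c - r))) - uu (c - x) (t - T) + uu (r - x) (τ - T)

/-- the part with the hinge `w + i S` on the side `S2` -/
noncomputable def FB (c r t τ w S : ℝ) : ℝ :=
  Real.pi * (w * (t - τ) + S * (c - r)) + uu (c + w) (t + S) - uu (r + w) (τ + S)

/-- the remaining part -/
noncomputable def FC (c r t τ : ℝ) : ℝ :=
  -(Real.pi * (c * t - r * τ)) + Real.pi / 2 * (t - τ) - uu c t + uu r τ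

variable {c r t τ x T w S : ℝ}

theorem V3_diff {u v v' w : ℂ} (h1 : v.re = r) (h2 : v.im = τ) (h3 : v'.re = c)
    (h4 : v'.im = t) :
    V3 u v' w - V3 u v w = FA c r t τ u.re u.im + FB c r t τ w.re w.im + FC c r t τ := by
  have e1 : (2 * u * v' + (v' - w) ^ 2 - v' + w).im =
      2 * (u.re * t + u.im * c) + 2 * (c - w.re) * (t - w.im) - t + w.im := by
    simp only [pow_two, Complex.add_im, Complex.sub_im, Complex.sub_re, Complex.mul_im,
      Complex.mul_re, Complex.re_ofNat, Complex.im_ofNat, h3, h4]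
    ring
  have e2 : (2 * u * v + (v - w) ^ 2 - v + w).im =
      2 * (u.re * τ + u.im * r) + 2 * (r - w.re) * (τ - w.im) - τ + w.im := by
    simp only [pow_two, Complex.add_im, Complex.sub_im, Complex.sub_re, Complex.mul_im,
      Complex.mul_re, Complex.re_ofNat, Complex.im_ofNat, h1, h2]
    ring
  unfold V3 FA FB FC
  rw [e1, e2, UU_uu (v' + w), UU_uu (v' - u), UU_uu v', UU_uu (v + w), UU_uu (v - u), UU_uu v]
  simp only [Complex.add_re, Complex.add_im, Complex.sub_re, Complex.sub_im, h1, h2, h3, h4]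
  ring

/-- `FA` increases in `T` -/
theorem FA_mono {T0 : ℝ} (h : T0 ≤ T) (h1 : 0 < c - x) (h1' : c - x < 1) (h2 : 0 < r - x)
    (h2' : r - x < 1) (hd : ∀ y, T0 ≤ y → y ≤ T →
      0 ≤ Real.pi * (r - c) + YY ⟨c - x, t - y⟩ - YY ⟨r - x, τ - y⟩) :
    FA c r t τ x T0 ≤ FA c r t τ x T := by
  have hD : ∀ y : ℝ, HasDerivAt (fun y => FA c r t τ x y)
      (Real.pi * (r - c) + YY ⟨c - x, t - y⟩ - YY ⟨r - x, τ - y⟩) y := by
    intro y
    have a1 : HasDerivAt (fun y : ℝ => t - y) (-1) y := by
      simpa using (hasDerivAt_id y).const_sub t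
    have a2 : HasDerivAt (fun y : ℝ => τ - y) (-1) y := by
      simpa using (hasDerivAt_id y).const_sub τ
    have b0 : HasDerivAt (fun y : ℝ => Real.pi * (x * (t - τ) + y * (c - r)))
        (Real.pi * (c - r)) y := by
      simpa using (((hasDerivAt_id y).mul_const (c - r)).const_add (x * (t - τ))).const_mul
        Real.pi
    have b1 := VM.deriv_im h1 h1' a1
    have b2 := VM.deriv_im h2 h2' a2
    have := (b0.neg.sub b1).add b2
    refine this.congr_deriv ?_
    ring
  have hm : MonotoneOn (fun y => FA c r t τ x y) (Set.Icc T0 T) := by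
    apply monotoneOn_of_deriv_nonneg (convex_Icc _ _)
    · exact fun y _ => (hD y).continuousAt.continuousWithinAt
    · exact fun y _ => (hD y).differentiableAt.differentiableWithinAt
    · intro y hy
      rw [interior_Icc] at hy
      rw [(hD y).deriv]
      exact hd y hy.1.le hy.2.le
  exact hm (Set.left_mem_Icc.2 h) (Set.right_mem_Icc.2 h) h

theorem FB_cont : Continuous fun w => FB c r t τ w S := by
  unfold FB
  have c1 := VM.cont_uu (f := fun w : ℝ => c + w) (g := fun _ => t + S) (by fun_prop)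
    (by fun_prop)
  have c2 := VM.cont_uu (f := fun w : ℝ => r + w) (g := fun _ => τ + S) (by fun_prop)
    (by fun_prop)
  exact (((by fun_prop : Continuous fun w : ℝ =>
    Real.pi * (w * (t - τ) + S * (c - r))).add c1).sub c2)

theorem FB_lin (w : ℝ) : HasDerivAt (fun w : ℝ => Real.pi * (w * (t - τ) + S * (c - r)))
    (Real.pi * (t - τ)) w := by
  have := (((hasDerivAt_id w).mul_const (t - τ)).add_const (S * (c - r))).const_mul Real.pi
  refine this.congr_deriv ?_
  ring

theorem FB_left {w0 : ℝ} (h : w0 ≤ w) (hw : w ≤ 1 - r) (h0 : 0 < c + w0) (hc : c + w < 1)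
    (h2 : 0 < r + w0) (hd : ∀ y, w0 ≤ y → y < 1 - r →
      0 ≤ Real.pi * (t - τ) + LL ⟨c + y, t + S⟩ - LL ⟨r + y, τ + S⟩) :
    FB c r t τ w0 S ≤ FB c r t τ w S := by
  have hD : ∀ y : ℝ, w0 < y → y < w → HasDerivAt (fun y => FB c r t τ y S)
      (Real.pi * (t - τ) + LL ⟨c + y, t + S⟩ - LL ⟨r + y, τ + S⟩) y := by
    intro y hy hy'
    have a1 : HasDerivAt (fun y : ℝ => c + y) 1 y := by
      simpa using (hasDerivAt_id y).const_add c
    have a2 : HasDerivAt (fun y : ℝ => r + y) 1 y := by
      simpa using (hasDerivAt_id y).const_add r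
    have b1 := VM.deriv_re (y := t + S) a1 (by linarith only [h0, hy]) (by linarith only [hc, hy'])
    have b2 := VM.deriv_re (y := τ + S) a2 (by linarith only [h2, hy]) (by linarith only [hw, hy'])
    have := ((FB_lin (c := c) (r := r) (t := t) (τ := τ) (S := S) y).add b1).sub b2
    refine this.congr_deriv ?_
    ring
  have hm : MonotoneOn (fun y => FB c r t τ y S) (Set.Icc w0 w) := by
    apply monotoneOn_of_deriv_nonneg (convex_Icc _ _)
    · exact FB_cont.continuousOn
    · intro y hy
      rw [interior_Icc] at hy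
      exact (hD y hy.1 hy.2).differentiableAt.differentiableWithinAt
    · intro y hy
      rw [interior_Icc] at hy
      rw [(hD y hy.1 hy.2).deriv]
      exact hd y hy.1.le (hy.2.trans_le hw)
  exact hm (Set.left_mem_Icc.2 h) (Set.right_mem_Icc.2 h) h

theorem FB_right {w1 : ℝ} (hw : 1 - r ≤ w) (h : w ≤ w1) (hc : 1 / 2 ≤ c + (1 - r))
    (hc' : c + w1 < 1) (h2 : r + w1 - 1 ≤ 1 / 2) :
    min (FB c r t τ (1 - r) S) (FB c r t τ w1 S) ≤ FB c r t τ w S := by
  have hD : ∀ y ∈ Set.Ioo (1 - r) w1, HasDerivAt (fun y => FB c r t τ y S)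
      (Real.pi * (t - τ) + LL ⟨c + y, t + S⟩ - LL ⟨r + y - 1, τ + S⟩) y := by
    intro y hy
    have a1 : HasDerivAt (fun y : ℝ => c + y) 1 y := by
      simpa using (hasDerivAt_id y).const_add c
    have a2 : HasDerivAt (fun y : ℝ => r + y - 1) 1 y := by
      simpa using ((hasDerivAt_id y).const_add r).sub_const 1
    have b1 := VM.deriv_re (y := t + S) a1 (by linarith only [hw, h, hc, hc', hy, hy.1]) (by linarith only [hc', hy, hy.2])
    have b2 := VM.deriv_re (y := τ + S) a2 (by linarith only [hy, hy.1]) (by linarith only [hw, h, hc, hc', hy, hy.2])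
    have b3 := (((FB_lin (c := c) (r := r) (t := t) (τ := τ) (S := S) y).add b1).sub b2).sub_const
      (Real.pi * |τ + S|)
    have e : (fun y => FB c r t τ y S) = fun y => Real.pi * (y * (t - τ) + S * (c - r)) +
        uu (c + y) (t + S) - uu (r + y - 1) (τ + S) - Real.pi * |τ + S| := by
      funext y
      have := uu_add_one (r + y - 1) (τ + S)
      rw [sub_add_cancel] at this
      unfold FB
      rw [this]
      ring
    rw [e]
    refine b3.congr_deriv ?_
    ring
  have hcv : ConcaveOn ℝ (Set.Icc (1 - r) w1) fun y => FB c r t τ y S := by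
    apply AntitoneOn.concaveOn_of_deriv (convex_Icc _ _)
    · exact FB_cont.continuousOn
    · rw [interior_Icc]
      exact fun y hy => (hD y hy).differentiableAt.differentiableWithinAt
    · rw [interior_Icc]
      intro y hy z hz hyz
      rw [(hD y hy).deriv, (hD z hz).deriv]
      have a1 := VM.LL_anti (p := c + y) (q := c + z) (y := t + S) (by linarith only [hc, hy, hy.1])
        (by linarith only [hyz]) (by linarith only [hc', hz, hz.2])
      have a2 := VM.LL_mono (p := r + y - 1) (q := r + z - 1) (y := τ + S)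
        (by linarith only [hy, hy.1]) (by linarith only [hyz]) (by linarith only [hc, hc', hz, hz.2])
      linarith only [a1, a2]
  exact hcv.min_le_of_mem_Icc (Set.left_mem_Icc.2 (hw.trans h)) (Set.right_mem_Icc.2 (hw.trans h))
    ⟨hw, h⟩

/-- the minimum of `FB` is at the ends -/
theorem FB_min {w0 w1 : ℝ} (h : w0 ≤ w) (h' : w ≤ w1) (hr : w0 ≤ 1 - r) (h0 : 0 < c + w0)
    (hcr : 1 / 2 ≤ c + (1 - r)) (hc' : c + w1 < 1) (h1 : 0 < r + w0) (h2 : r + w1 - 1 ≤ 1 / 2)
    (hd : ∀ y, w0 ≤ y → y < 1 - r →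
      0 ≤ Real.pi * (t - τ) + LL ⟨c + y, t + S⟩ - LL ⟨r + y, τ + S⟩) :
    min (FB c r t τ w0 S) (FB c r t τ w1 S) ≤ FB c r t τ w S := by
  rcases le_total w (1 - r) with hw | hw
  · exact (min_le_left _ _).trans (FB_left h hw h0 (by linarith only [h', hc']) h1 hd)
  · have a1 := FB_right (c := c) (t := t) (τ := τ) (S := S) hw h' hcr hc' h2
    have a2 := FB_left (c := c) (t := t) (τ := τ) (S := S) hr le_rfl h0 (by linarith only [h', hc', hw]) h1 hd
    exact (min_le_min_right _ a2).trans a1

/-- the condition on `LL` -/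
theorem LL_cond {p q y z d : ℝ} (hp : 0 < p) (hp' : p < 1) (hq : 0 < q) (hq' : q < 1)
    (h : Real.cosh (2 * Real.pi * z) - Real.cos (2 * Real.pi * q) ≤
      Real.exp (2 * Real.pi * d) * (Real.cosh (2 * Real.pi * y) - Real.cos (2 * Real.pi * p))) :
    0 ≤ Real.pi * d + LL ⟨p, y⟩ - LL ⟨q, z⟩ := by
  rw [LL_eq', LL_eq']
  simp only
  have a1 := VM.LL_arg_pos y hp hp'
  have a2 := VM.LL_arg_pos z hq hq'
  have a3 : Real.log (2 * Real.cosh (2 * Real.pi * z) - 2 * Real.cos (2 * Real.pi * q)) ≤
      Real.log (Real.exp (2 * Real.pi * d) *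
        (2 * Real.cosh (2 * Real.pi * y) - 2 * Real.cos (2 * Real.pi * p))) := by
    apply Real.log_le_log a2
    linarith only [h]
  rw [Real.log_mul (Real.exp_pos _).ne' a1.ne', Real.log_exp] at a3
  linarith only [a3]

end VN

end Pool.Agent.Work.MP_b30479_gt.G2
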