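import Pool.Agent.Work.MP_b30479_gt.G2.WExcZ
import Pool.Agent.Work.MP_b30479_gt.G2.RngE

/-!
# Rings in a word: the kinds of the hinges
-/

namespace Pool.Agent.Work.MP_b30479_gt.G2

open Finset VOL Filter Topology

namespace SR

variable {M : ℕ} {b : Fin (M + 1) → ℤ} {zs : DD (tyW b) ⊕ ZZ (tyW b) → ℂ}
variable {y : DD (tyW b) ⊕ ZZ (tyW b) → ℝ}
variable {h h' : Fin M} {i j j' : Fin (M + 1)} {p : Fin 3}

/-- kind of a hinge of a ring -/
def rkd : Cl → RKe
  | .one => .one
  | .ring => .rr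
  | _ => .lo

theorem rkd_rr {B : Cl} : rkd B = .rr ↔ B = .ring := by
  cases B <;> simp [rkd]

theorem rkd_one {B : Cl} : rkd B = .one ↔ B = .one := by
  cases B <;> simp [rkd]

theorem rkd_up {B : Cl} (h : B ≠ .ring) : (rkd B).up = false := by
  cases B <;> first | exact absurd rfl h | rfl

theorem rkd_ps {B : Cl} : rkd B ≠ .ps := by
  cases B <;> simp [rkd]

/-- an exceptional hinge, seen from the ring at `i`; `j`: its neighbour -/
def Exh (b : Fin (M + 1) → ℤ) (zs : DD (tyW b) ⊕ ZZ (tyW b) → ℂ)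
    (y : DD (tyW b) ⊕ ZZ (tyW b) → ℝ) (h : Fin M) (i j : Fin (M + 1)) : Prop :=
  clsW b j = .three ∧ 0 < ofs (b i) (zs (.inl (.inl h))).im ∧ 0 < y (.inl (.inl h))

open Classical in
/-- kind of the hinge `h` of the ring at `i`, `j`: its neighbour -/
noncomputable def rkw (b : Fin (M + 1) → ℤ) (zs : DD (tyW b) ⊕ ZZ (tyW b) → ℂ)
    (y : DD (tyW b) ⊕ ZZ (tyW b) → ℝ) (h : Fin M) (i j : Fin (M + 1)) : RKe :=
  if Exh b zs y h i j then .ps else rkd (clsW b j)

theorem rkw_pos (hE : Exh b zs y h i j) : rkw b zs y h i j = .ps := by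
  unfold rkw
  rw [if_pos hE]

theorem rkw_neg (hE : ¬Exh b zs y h i j) : rkw b zs y h i j = rkd (clsW b j) := by
  unfold rkw
  rw [if_neg hE]

theorem rkw_ps : rkw b zs y h i j = .ps ↔ Exh b zs y h i j := by
  by_cases hE : Exh b zs y h i j
  · exact ⟨fun _ => hE, fun _ => rkw_pos hE⟩
  · rw [rkw_neg hE]
    exact ⟨fun h => absurd h rkd_ps, fun h => absurd h hE⟩

theorem rkw_ne (hj : clsW b j ≠ .three) : rkw b zs y h i j = rkd (clsW b j) :=
  rkw_neg fun hE => hj hE.1

theorem rkw_rr : rkw b zs y h i j = .rr ↔ clsW b j = .ring := by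
  by_cases hE : Exh b zs y h i j
  · rw [rkw_pos hE, hE.1]
    simp
  · rw [rkw_neg hE, rkd_rr]

/-- the range of the height of a hinge between rings -/
theorem Adj.rrt (A : Adj h i p j) (hb : ClassW b) (hL : Loc b zs) (hX : LocX b zs) (hR : LocR b zs)
    (hc : clsW b i = .ring) (hj : clsW b j = .ring) :
    RRT ((b i).natAbs : ℝ) (ofs (b i) (zs (.inl (.inl h))).im) := by
  have h4 := ring_four hb (tyW_of_ring hb hc)
  obtain ⟨r1, r2⟩ := hR.rr A hc hj
  obtain ⟨-, -, t0, -⟩ := A.box hb hL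
  rw [hc, hj] at t0
  refine ⟨?_, r1, ?_, ?_⟩
  · refine le_trans ?_ t0
    cases ssW b h <;> norm_num [hbox]
  · intro h5
    have := natAbs_lt (c := 5) (k := 5) (by norm_num) h5
    exact hX.rr4 A hc hj (by omega)
  · intro h5
    exact r2 (by exact_mod_cast h5)

/-- the exception -/
theorem Adj.exc (A : Adj h i p j) (hb : ClassW b) (hR : LocR b zs) (hc : clsW b i = .ring)
    (hE : Exh b zs y h i j) : Exc3 b zs h j i p.rev := by
  have hop := A.opp hb (Or.inr (by rw [hE.1]; decide))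
  have hop' : b j * b i < 0 := by rwa [mul_comm] at hop
  have eo := ofs_opp hop' (zs (.inl (.inl h))).im
  rcases hR.three A.symm hE.1 hc with h1 | h1
  · exact absurd hE.2.1 (by linarith only [eo, h1])
  · exact h1

/-- **Cap of the exceptional hinges** -/
theorem Adj.exc_cap (A : Adj h i p j) (hb : ClassW b) (hL : Loc b zs) (hX : LocX b zs)
    (hR : LocR b zs) (hy : Mx b zs y) (hc : clsW b i = .ring) (hE : Exh b zs y h i j) :
    y (.inl (.inl h)) ≤ 1 / 2 := by
  have E := A.exc hb hR hc hE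
  have hop := A.opp hb (Or.inr (by rw [hE.1]; decide))
  have hop' : b j * b i < 0 := by rwa [mul_comm] at hop
  have eo := ofs_opp hop' (zs (.inl (.inl h))).im
  have hT := hE.2.1
  have A' := A.symm
  rcases A'.slot with h0 | h2
  · rw [h0] at A' E
    exact A'.exc_cap_zero hb hL hX hy hE.1 hc E (by linarith only [eo, hT])
  · rw [h2] at A' E
    have := A'.exc_cap_two hb hL hX hy hE.1 hc (by linarith only [eo, hT]) E.lo
    linarith only [this]

/-- **The hinges of a ring.** -/
theorem Adj.rk_ok (A : Adj h i p j) (hb : ClassW b) (hL : Loc b zs) (hX : LocX b zs)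
    (hR : LocR b zs) (hy : Mx b zs y) (hc : clsW b i = .ring) :
    (rkw b zs y h i j).ok ((b i).natAbs : ℝ) (Yw b zs y i p) := by
  have h4 := ring_four hb (tyW_of_ring hb hc)
  have hrh := A.rh hy
  by_cases hE : Exh b zs y h i j
  · rw [rkw_pos hE]
    have E := A.exc hb hR hc hE
    have hcap := A.exc_cap hb hL hX hR hy hc hE
    have hop := A.opp hb (Or.inr (by rw [hE.1]; decide))
    have hop' : b j * b i < 0 := by rwa [mul_comm] at hop
    have eo := ofs_opp hop' (zs (.inl (.inl h))).im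
    obtain ⟨e1, ⟨e2, e2'⟩, e3, e4⟩ := A.par_ring_lo hc (by rw [hE.1]; decide) (by rw [hE.1]; decide)
    obtain ⟨-, hT, hy0⟩ := hE
    have hlo := E.lo
    have hT1 : ofs (b i) (zs (.inl (.inl h))).im ≤ 7 / 10000 := by linarith only [eo, hlo]
    have c0 : 0 < wcl b h := by linarith only [e2]
    have c1 : 0 < wcr b h := by linarith only [e3]
    have htr : 0 < tr 0 (wXM b h) (wcl b h) (wcr b h) (y (.inl (.inl h))) := by
      unfold tr
      rw [sub_zero, e1]
      exact lt_max_of_lt_right (lt_min one_pos (lt_min (div_pos hy0 c0) (div_pos (by linarith only [hcap, hy0]) c1)))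
    have htr1 : tr 0 (wXM b h) (wcl b h) (wcr b h) (y (.inl (.inl h))) ≤
        y (.inl (.inl h)) / wcl b h := by
      have h5 : 0 ≤ y (.inl (.inl h)) / wcl b h := div_nonneg hy0.le c0.le
      unfold tr
      rw [sub_zero]
      exact max_le h5 ((min_le_right _ _).trans (min_le_left _ _))
    refine ⟨?_, ?_, ?_, ?_, ?_⟩
    · rw [E.n4]
      norm_num
    · rw [hrh.im, A.re]
      exact mul_pos hT htr
    · have := hrh.im_le hT.le
      linarith only [eo, hT, hlo, this]
    · rw [hrh.im, A.re]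
      calc ofs (b i) (zs (.inl (.inl h))).im * tr 0 (wXM b h) (wcl b h) (wcr b h) (y (.inl (.inl h))) ≤
            ofs (b i) (zs (.inl (.inl h))).im * (y (.inl (.inl h)) / wcl b h) :=
            mul_le_mul_of_nonneg_left htr1 hT.le
        _ = ofs (b i) (zs (.inl (.inl h))).im / wcl b h * y (.inl (.inl h)) := by ring
        _ ≤ 1 / 100 * y (.inl (.inl h)) := by
            apply mul_le_mul_of_nonneg_right _ hy0.le
            rw [div_le_iff₀ c0]
            linarith only [eo, e2, hT, hlo]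
    · rw [A.re]
      exact hcap
  rw [rkw_neg hE]
  by_cases hj : clsW b j = .ring
  · rw [hj]
    obtain ⟨e1, e2, e3⟩ := A.par_rr hc hj
    rw [e1, e2, e3] at hrh
    exact (A.rrt hb hL hX hR hc hj).ok hrh
  · have hop := A.opp hb (Or.inr hj)
    have hop' : b j * b i < 0 := by rwa [mul_comm] at hop
    obtain ⟨-, -, t0, t1⟩ := A.box hb hL
    rw [hc, A.ss hop] at t0 t1
    have eo := ofs_opp hop' (zs (.inl (.inl h))).im
    by_cases hj1 : clsW b j = .one
    · rw [hj1] at t0 t1 ⊢
      obtain ⟨e1, e2, e3⟩ := A.par_ring_one hc hj1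
      rw [e1, e2, e3] at hrh
      simp only [hbox] at t0 t1
      refine ⟨_, _, t0, t1, fun h5 => ?_, fun h6 => ?_, ⟨le_rfl, by norm_num⟩, hrh⟩
      · have := natAbs_lt (c := 5) (k := 5) (by norm_num) h5
        have := hX.one4 A.symm hj1 hc (by omega)
        linarith only [eo, this]
      · have := natAbs_lt (c := 6) (k := 6) (by norm_num) h6
        rcases (show (b i).natAbs = 4 ∨ (b i).natAbs = 5 by omega) with h7 | h7
        · have := hX.one4 A.symm hj1 hc h7
          linarith only [eo, this]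
        · have := hX.one5 A.symm hj1 hc h7
          linarith only [eo, this]
    · obtain ⟨e1, e2, e3⟩ := A.par_ring_lo hc hj1 hj
      rw [e1] at hrh
      have hlo : rkd (clsW b j) = .lo := by
        generalize clsW b j = B at hj hj1
        cases B <;> first | exact absurd rfl hj | exact absurd rfl hj1 | rfl
      rw [hlo]
      by_cases h3 : clsW b j = .three ∧ 0 < ofs (b i) (zs (.inl (.inl h))).im
      · -- the hinge is `0`
        have hy0 : y (.inl (.inl h)) ≤ 0 := by
          by_contra hcon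
          exact hE ⟨h3.1, h3.2, not_le.1 hcon⟩
        have hy1 : (Yw b zs y i p).re = 0 := le_antisymm (by rw [A.re]; exact hy0) hrh.re0
        refine ⟨0, _, _, by norm_num, le_rfl, fun _ => by norm_num, ⟨by linarith only [e2, e2.1], e2.2⟩, e3,
          hrh.re0, hrh.reM, ?_⟩
        rw [hrh.im, hy1, tr_a (by linarith only [e2, e2.1]) (by linarith only [e3, e3.1]) (by linarith only [e2, e3, e2.2, e3.2]) le_rfl
          (by linarith only [e2, e2.1])]
        simp
      refine ⟨_, _, _, ?_, ?_, fun h5 => ?_, ⟨by linarith only [e2, e2.1], e2.2⟩, e3, hrh⟩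
      · refine le_trans ?_ t0
        generalize clsW b j = B at hj hj1
        cases B <;> first | exact absurd rfl hj | exact absurd rfl hj1 | norm_num [hbox]
      · by_cases h3' : clsW b j = .three
        · by_contra hcon
          exact h3 ⟨h3', not_le.1 hcon⟩
        · refine t1.trans ?_
          generalize clsW b j = B at hj hj1 h3'
          cases B <;> first | exact absurd rfl hj | exact absurd rfl hj1 | exact absurd rfl h3' | norm_num [hbox]
      · have := natAbs_lt (c := 5) (k := 5) (by norm_num) h5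
        have := hX.lo4 A.symm hj1 hj hc (by omega)
        linarith only [eo, this]

/-- the exceptional ring is high -/
theorem Adj.rk_rho (A : Adj h i p j) (hb : ClassW b) (hR : LocR b zs) (hc : clsW b i = .ring)
    (hk : rkw b zs y h i j = .ps) (v : ZZ (tyW b)) (hv : v.1 = i) : 84 / 1000 ≤ (zs (.inr v)).im :=
  (A.exc hb hR hc (rkw_ps.1 hk)).r0 v hv

/-- the other neighbour of an exceptional ring is a ring -/
theorem Adj.exc_nxt (A : Adj h i p j) (hb : ClassW b) (hR : LocR b zs) (hc : clsW b i = .ring)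
    (hk : rkw b zs y h i j = .ps) : ∃ (g : Fin M) (k : Fin (M + 1)), Adj g i p.rev k ∧ clsW b k = .ring := by
  obtain ⟨g, k, A', hk', -⟩ := (A.exc hb hR hc (rkw_ps.1 hk)).nxt
  exact ⟨g, k, A', hk'⟩

/-- a slot of a twist region has a hinge or is free -/
theorem slot_cases_r (i : Fin (M + 1)) (b : Fin (M + 1) → ℤ) (zs : DD (tyW b) ⊕ ZZ (tyW b) → ℂ)
    (y : DD (tyW b) ⊕ ZZ (tyW b) → ℝ) (hp : p = 0 ∨ p = 2) :
    (∃ h j, Adj h i p j) ∨ (Yw b zs y i p = 0 ∧ ∀ h j, ¬Adj h i p j) := by
  rcases hp with rfl | rfl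
  · by_cases h0 : i = 0
    · right
      refine ⟨by rw [h0]; exact Yw_zero, fun h j A => ?_⟩
      generalize h3 : (0 : Fin 3) = q at A
      cases A
      · exact absurd h3 (by decide)
      · exact absurd h0 (Fin.succ_ne_zero _)
    · left
      obtain ⟨k, rfl⟩ := Fin.eq_succ_of_ne_zero h0
      exact ⟨k, _, .r⟩
  · by_cases h0 : i = Fin.last M
    · right
      refine ⟨by rw [h0]; exact Yw_last, fun h j A => ?_⟩
      generalize h3 : (2 : Fin 3) = q at A
      cases A
      · exact absurd h0 (Fin.castSucc_lt_last _).ne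
      · exact absurd h3 (by decide)
    · left
      obtain ⟨k, hk⟩ := Fin.eq_castSucc_of_ne_last h0
      subst hk
      exact ⟨k, _, .l⟩

/-- what is known about the kind `k` of the hinge in the slot `p` of a ring, `k'`: the other kind -/
structure RKs (b : Fin (M + 1) → ℤ) (zs : DD (tyW b) ⊕ ZZ (tyW b) → ℂ)
    (y : DD (tyW b) ⊕ ZZ (tyW b) → ℝ) (i : Fin (M + 1)) (p : Fin 3) (k k' : RKe) : Prop where
  ok : k.ok ((b i).natAbs : ℝ) (Yw b zs y i p)
  rr : k = .rr → ∃ h' j', Adj h' i p j' ∧ clsW b j' = .ring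
  rho : k = .ps → ∀ v : ZZ (tyW b), v.1 = i → 84 / 1000 ≤ (zs (.inr v)).im
  oth : k = .ps → k' = .rr

theorem Adj.rks (A : Adj h i p j) (hb : ClassW b) (hL : Loc b zs) (hX : LocX b zs)
    (hR : LocR b zs) (hy : Mx b zs y) (hc : clsW b i = .ring) {k' : RKe}
    (hk' : ∀ {g k}, Adj g i p.rev k → k' = rkw b zs y g i k) :
    RKs b zs y i p (rkw b zs y h i j) k' :=
  ⟨A.rk_ok hb hL hX hR hy hc, fun h => ⟨_, _, A, rkw_rr.1 h⟩, fun h v hv => A.rk_rho hb hR hc h v hv,
    fun h => by
      obtain ⟨g, k, A', hk⟩ := A.exc_nxt hb hR hc h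
      rw [hk' A', rkw_rr]
      exact hk⟩

theorem RKs.no (h0 : Yw b zs y i p = 0) (k' : RKe) : RKs b zs y i p .no k' :=
  ⟨h0, fun h => by simp at h, fun h => by simp at h, fun h => by simp at h⟩

/-- the hinge in the other slot of a ring, or no hinge -/
theorem Adj.rk_other (A : Adj h i p j) (hb : ClassW b) (hL : Loc b zs) (hX : LocX b zs)
    (hR : LocR b zs) (hy : Mx b zs y) (hc : clsW b i = .ring) :
    ∃ k' : RKe, RKs b zs y i p (rkw b zs y h i j) k' ∧ RKs b zs y i p.rev k' (rkw b zs y h i j) := by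
  have hp : p.rev = 0 ∨ p.rev = 2 := by
    rcases A.slot with rfl | rfl
    · right; rfl
    · left; rfl
  rcases slot_cases_r (p := p.rev) i b zs y hp with ⟨h', j', A'⟩ | ⟨h0, hn⟩
  · refine ⟨rkw b zs y h' i j', A.rks hb hL hX hR hy hc fun A'' => ?_,
      A'.rks hb hL hX hR hy hc fun A'' => ?_⟩
    · obtain ⟨rfl, rfl⟩ := A'.eq_of A''
      rfl
    · rw [Fin.rev_rev] at A''
      obtain ⟨rfl, rfl⟩ := A.eq_of A''
      rfl
  · exact ⟨.no, A.rks hb hL hX hR hy hc fun A'' => absurd A'' (hn _ _), RKs.no h0 _⟩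

/-- the kinds of the two hinges of a ring -/
theorem rk_slots (hb : ClassW b) (hL : Loc b zs) (hX : LocX b zs)
    (hR : LocR b zs) (hy : Mx b zs y) (hc : clsW b i = .ring) :
    ∃ k k' : RKe, RKs b zs y i 0 k k' ∧ RKs b zs y i 2 k' k := by
  rcases slot_cases_r (p := 0) i b zs y (Or.inl rfl) with ⟨h, j, A⟩ | ⟨h0, hn⟩
  · obtain ⟨k', h1, h2⟩ := A.rk_other hb hL hX hR hy hc
    exact ⟨_, k', h1, h2⟩
  · rcases slot_cases_r (p := 2) i b zs y (Or.inr rfl) with ⟨h, j, A⟩ | ⟨h0', hn'⟩
    · obtain ⟨k', h1, h2⟩ := A.rk_other hb hL hX hR hy hc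
      exact ⟨k', _, h2, h1⟩
    · exact ⟨.no, .no, RKs.no h0 _, RKs.no h0' _⟩

end SR

end Pool.Agent.Work.MP_b30479_gt.G2
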