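import Pool.Agent.Work.MP_b30479_gt.G2.TWC
import Pool.Agent.Work.MP_b30479_gt.G2.TW3a
import Pool.Agent.Work.MP_b30479_gt.G2.WMMA
import Pool.Agent.Work.MP_b30479_gt.G2.TL1
import Pool.Agent.Work.MP_b30479_gt.G2.TK3
import Pool.Agent.Work.MP_b30479_gt.G2.TL5
import Pool.Agent.Work.MP_b30479_gt.G2.TL2
import Pool.Agent.Work.MP_b30479_gt.G2.MPHess
import Pool.Agent.Work.MP_b30479_gt.G2.TWB
import Pool.Agent.Work.MP_b30479_gt.G2.V3MidRA
import Pool.Agent.Work.MP_b30479_gt.G2.WMMF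
import Pool.Agent.Work.MP_b30479_gt.G2.WRng
import Pool.Agent.Work.MP_b30479_gt.G2.WTab
import Pool.Agent.Work.NumI.Demo

/-!
# Tails: the shares of a touched interior region with three crossings
-/

namespace Pool.Agent.Work.MP_b30479_gt.G2

open Finset VOL Filter Topology SR

namespace TL

variable {M : ℕ} {b : Fin (M + 1) → ℤ} {zs z : DD (tyW b) ⊕ ZZ (tyW b) → ℂ}
variable {R : Finset (DD (tyW b))} {h h' : Fin M} {i j j' k : Fin (M + 1)} {p q : Fin 3}

namespace W4c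

theorem XM0 (P A Q : Cl) (p : Fin 3) : X0 .three A ≤ (hpp p P .three A Q).XM ∧
    (hpp p P .three A Q).XM ≤ 65 / 100 ∧ 60 / 100 ≤ X0 .three A := by
  unfold hpp
  split_ifs <;> cases A <;> simp only [hp, hp1, X0] <;> norm_num

theorem X0_le3 (A : Adj h i p j) (hc : clsW b i = .three) : X0 .three (clsW b j) ≤ wXM b h ∧
    wXM b h ≤ 65 / 100 ∧ 60 / 100 ≤ X0 .three (clsW b j) := by
  have h1 := A.XM_eq b
  rw [hc] at h1
  rw [h1]
  exact XM0 _ _ _ _

theorem kb_ne0 (R : Finset (DD (tyW b))) (j : Fin (M + 1)) : kb b R j 0 ≠ .threeK := by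
  unfold kb kd
  split_ifs with h1 h2
  · decide
  · cases clsW b j <;> simp
  · exact absurd rfl h2

theorem kb_ne2 (R : Finset (DD (tyW b))) (j : Fin (M + 1)) : kb b R j 2 ≠ .threeA := by
  unfold kb kd
  split_ifs with h1 h2
  · decide
  · exact absurd h2 (by decide)
  · cases clsW b j <;> simp

theorem al_pos_eq {i : Fin (M + 1)} (hc : clsW b i = .three) (hj : clsW b j ≠ .ring) (C : Cl)
    (x t : ℝ) : shT b i j C x t = al .three (clsW b j) C x - be .three (clsW b j) * t := by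
  unfold shT
  rw [hc, if_neg (by decide), if_neg hj]

theorem gD_eq {i : Fin (M + 1)} (hc : clsW b i = .three) (hj : clsW b j = .ring) (C : Cl)
    (x t : ℝ) : shT b i j C x t = gD .three x t := by
  unfold shT
  rw [hc, if_neg (by decide), if_pos hj]

theorem cT_three_ring : cT .three .ring = 1 / 4 := rfl

end W4c

open W4c in
/-- **The shares of a touched interior region with three crossings.** -/
theorem Tl.share_three (H : Tl b zs R z) (G : Gains b zs R z) (hi : Tch b R i)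
    (hc : clsW b i = .three) (c : ZZ (tyW b) → ℝ) :
    (hT b R i → sh b R zs z i 0 + sh b R zs z i 2 ≤ Vr b (zN b R zs z c) i - Vr b z i) ∧
    (¬ hT b R i → sh b R zs z i 0 + sh b R zs z i 2 < Vr b (zN b R zs z c) i - Vr b z i) := by
  have hnr : clsW b i ≠ .ring := by rw [hc]; decide
  have hno : clsW b i ≠ .one ∧ clsW b i ≠ .two := by rw [hc]; decide
  obtain ⟨m, hm⟩ : ∃ m : {i : Fin (M + 1) // (tyW b i).isMid = true}, m.1 = i :=
    ⟨⟨i, tyW_isMid (Or.inl hc)⟩, rfl⟩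
  subst hm
  obtain ⟨h, h', j, j', A, A', hxl, hlw, hcase⟩ := H.tch_three m hi hc
  have hn : nbH b R h := (nbH_iff A).2 (Or.inl hi)
  have hn' : nbH b R h' := (nbH_iff A').2 (Or.inl hi)
  have hnm : nbM b R m.1 := Or.inl hi
  have hme : (⟨m.1, tyW_isMid (Or.inl hc)⟩ : {i : Fin (M + 1) // (tyW b i).isMid = true}) = m := rfl
  rw [A.Vr_three A' H.hb hc, A.Vr_three A' H.hb hc, hme, Oh_new hn, Oh_new hn', Om_new m hnm,
    H.Oh_nb hn, H.Oh_nb hn', H.Om_re hnm]
  have ht := Th_mem H.hb H.L.L A hnr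
  have hk := Th_mem H.hb H.L.L A' hnr
  rw [hc] at ht hk
  obtain ⟨m0, m1, s0, s1⟩ := H.L.X.mid m.2 A A' hc
  change (mw (clsW b j) (clsW b j')).t0 ≤ SR.Tm b zs m at m0
  change SR.Tm b zs m ≤ (mw (clsW b j) (clsW b j')).t1 at m1
  change (mw (clsW b j) (clsW b j')).s0 ≤ SR.Tm b zs m - Th b zs h m.1 at s0
  change SR.Tm b zs m - Th b zs h m.1 ≤ (mw (clsW b j) (clsW b j')).s1 at s1
  have hr : ¬ (clsW b m.1 = .ring ∧ clsW b j = .ring ∧ Tch b R j) := fun h0 => hnr h0.1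
  have hr' : ¬ (clsW b m.1 = .ring ∧ clsW b j' = .ring ∧ Tch b R j') := fun h0 => hnr h0.1
  have ho : Th b zs h j = -Th b zs h m.1 := Th_opp H.hb A (Or.inl hnr)
  have ho' : Th b zs h' j' = -Th b zs h' m.1 := Th_opp H.hb A' (Or.inl hnr)
  have x0 := (H.re_mem hn).2.1
  have x0' := (H.re_mem hn').2.1
  rcases hcase with ⟨hT1, hT2⟩ | ⟨hT1, hT2⟩ | ⟨hT1, hT2, hmR⟩
  · -- the slot 0 is in the tail
    have hh : hT b R m.1 := ⟨h, 0, j, A, hT1⟩
    refine ⟨fun _ => ?_, fun h0 => absurd hh h0⟩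
    obtain ⟨g, e2, hG⟩ := sh_nb0 H G A' hi hT2 hr' hno
    have e1 := sh_T (zs := zs) (z := z) A hT1
    have hoc : oc b m.1 (0 : Fin 3).rev = clsW b j' := A'.oc_eq b
    have hx := (X0_le3 A hc).1.trans (H.tail hT1).2.1
    have hx6 := (X0_le3 A hc).2.2.trans hx
    have et : tgt b R h (z (.inl (.inl h))).re = cT .three (clsW b j) := by
      rw [tgt_T A hT1, hc]
    have ek : tgt b R h' (z (.inl (.inl h'))).re = cN (kb b R j' (2 : Fin 3).rev) := by
      rw [tgt_nb A' hi hT2]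
      unfold tgK
      rw [if_neg hnr, if_pos hh]
    have em : tmt b R m.1 (fun h => (z (.inl (.inl h))).re) = 42 / 100 := by
      rw [tmt_three hc, if_pos hi, if_pos hh]
    rw [e1, e2, et, ek, em, hoc]
    rw [ek, hc, ho'] at hG
    have hE := EB_of_Gn (Or.inr (Or.inr rfl)) x0' (by linarith) hG
    have hC := kb_ok b R j' (2 : Fin 3).rev
    have hC2 := kb_ne0 (b := b) R j'
    by_cases hj : clsW b j = .ring
    · rw [gD_eq hc hj, hj, cT_three_ring]
      rw [hj] at ht m0 m1 s0 s1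
      have h1 := side_three0_ring' hC hC2 hx6 hxl x0' hlw ht.1 ht.2 hk.1 hk.2 m0 m1 s0 s1 hE
      linarith
    · rw [al_pos_eq hc hj]
      have h1 := side_three0 hC hC2 hx hxl x0' hlw ht.1 ht.2 hk.1 hk.2 m0 m1 s0 s1 hE
      linarith
  · -- the slot 2 is in the tail
    have hh : hT b R m.1 := ⟨h', 2, j', A', hT2⟩
    refine ⟨fun _ => ?_, fun h0 => absurd hh h0⟩
    obtain ⟨g, e2, hG⟩ := sh_nb0 H G A hi hT1 hr hno
    have e1 := sh_T (zs := zs) (z := z) A' hT2
    have hoc : oc b m.1 (2 : Fin 3).rev = clsW b j := A.oc_eq b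
    have hx := (X0_le3 A' hc).1.trans (H.tail hT2).2.1
    have hx6 := (X0_le3 A' hc).2.2.trans hx
    have et : tgt b R h' (z (.inl (.inl h'))).re = cT .three (clsW b j') := by
      rw [tgt_T A' hT2, hc]
    have ek : tgt b R h (z (.inl (.inl h))).re = cN (kb b R j (0 : Fin 3).rev) := by
      rw [tgt_nb A hi hT1]
      unfold tgK
      rw [if_neg hnr, if_pos hh]
    have em : tmt b R m.1 (fun h => (z (.inl (.inl h))).re) = 42 / 100 := by
      rw [tmt_three hc, if_pos hi, if_pos hh]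
    rw [e1, e2, et, ek, em, hoc]
    rw [ek, hc, ho] at hG
    have hE := EB_of_Gn (Or.inr (Or.inr rfl)) x0 (by linarith) hG
    have hC := kb_ok b R j (0 : Fin 3).rev
    have hC2 := kb_ne2 (b := b) R j
    by_cases hj : clsW b j' = .ring
    · rw [gD_eq hc hj, hj, cT_three_ring]
      rw [hj] at hk m0 m1 s0 s1
      have h1 := side_three2_ring' hC hC2 hx6 x0 hxl hlw hk.1 hk.2 ht.1 ht.2 m0 m1 s0 s1 hE
      linarith
    · rw [al_pos_eq hc hj]
      have h1 := side_three2 hC hC2 hx x0 hxl hlw hk.1 hk.2 ht.1 ht.2 m0 m1 s0 s1 hE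
      linarith
  · -- only the inner variable is in the tail
    have hh : ¬ hT b R m.1 := by
      rintro ⟨h2, q2, k2, A2, h3⟩
      rcases A2.slot with rfl | rfl
      · rw [(adj_uniq A2 A).1] at h3
        exact hT1 h3
      · rw [(adj_uniq A2 A').1] at h3
        exact hT2 h3
    refine ⟨fun h0 => absurd h0 hh, fun _ => ?_⟩
    obtain ⟨g, e1, hG⟩ := sh_nb0 H G A hi hT1 hr hno
    obtain ⟨g', e2, hG'⟩ := sh_nb0 H G A' hi hT2 hr' hno
    have ek : tgt b R h (z (.inl (.inl h))).re =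
        cU (kb b R j (0 : Fin 3).rev) (z (.inl (.inl h))).re := by
      rw [tgt_nb A hi hT1]
      unfold tgK
      rw [if_neg hnr, if_neg hh, if_neg (by rintro ⟨-, h0⟩; exact absurd h0 (by decide))]
    have ek' : tgt b R h' (z (.inl (.inl h'))).re = cW (kb b R j' (2 : Fin 3).rev) := by
      rw [tgt_nb A' hi hT2]
      unfold tgK
      rw [if_neg hnr, if_neg hh, if_pos ⟨hc, rfl⟩]
    have em : tmt b R m.1 (fun h => (z (.inl (.inl h))).re) = 9 / 20 := by
      rw [tmt_three hc, if_pos hi, if_neg hh]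
    have hl : (8 : ℝ) / 10 ≤ (z (.inl (.inr m))).re := by
      have h1 := (H.mtail hmR).2.1
      rw [hc] at h1
      exact h1
    have hu1 := (H.real hn hT1).2.2.trans (X0_le3 A hc).2.1
    rw [e1, e2, ek, ek', em]
    rw [ek, hc, ho] at hG
    rw [ek', hc, ho'] at hG'
    have h1 := side_threeL (kb_ok b R j (0 : Fin 3).rev) (kb_ok b R j' (2 : Fin 3).rev)
      (kb_ne2 (b := b) R j)
      (kb_ne0 R j')
      hl x0 hu1 x0' hlw ht.1 ht.2 hk.1 hk.2 m0 m1 s0 s1 hG hG'
    linarith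

end TL

end Pool.Agent.Work.MP_b30479_gt.G2
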