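import Pool.Agent.Work.MP_b30479_gt.G2.TW3a
import Pool.Agent.Work.MP_b30479_gt.G2.TWC
import Pool.Agent.Work.MP_b30479_gt.G2.TL3

/-!
# Tails, word level: the share of a touched region with three crossings at an end
-/

namespace Pool.Agent.Work.MP_b30479_gt.G2

open Finset VOL Filter Topology SR

namespace TL

variable {M : ℕ} {b : Fin (M + 1) → ℤ} {zs z : DD (tyW b) ⊕ ZZ (tyW b) → ℂ}
variable {R : Finset (DD (tyW b))} {h h' : Fin M} {i j j' k : Fin (M + 1)} {p q : Fin 3}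

/-- an end has a hinge -/
theorem exists_adjE (hM : 1 ≤ M) (he : isEnd i = true) :
    ∃ (h : Fin M) (p : Fin 3) (j : Fin (M + 1)), Adj h i p j := by
  unfold isEnd at he
  rcases of_decide_eq_true he with h0 | h0
  · subst h0
    exact ⟨⟨0, hM⟩, 2, _, .l⟩
  · subst h0
    by_cases h1 : (Fin.last M) = 0
    · rw [h1]
      exact ⟨⟨0, hM⟩, 2, _, .l⟩
    · obtain ⟨k, hk⟩ := Fin.exists_succ_eq.2 h1
      rw [← hk]
      exact ⟨k, 0, _, .r⟩

theorem sh_endsum (A : Adj h i p j) (he : isEnd i = true) :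
    sh b R zs z i 0 + sh b R zs z i 2 = sh b R zs z i p := by
  have h1 := sh_end (b := b) (R := R) (zs := zs) (z := z) A he
  rcases A.slot with rfl | rfl
  · have h2 : sh b R zs z i 2 = 0 := h1
    rw [h2, add_zero]
  · have h2 : sh b R zs z i 0 = 0 := h1
    rw [h2, zero_add]

theorem wXM_threeE (A : Adj h i p j) (hc : clsW b i = .threeE) : wXM b h = 60 / 100 := by
  unfold wXM
  cases A with
  | l =>
    rw [hc]
    rcases clsW b h.succ <;> simp only [hp, hp1]
  | r =>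
    rw [hc]
    rcases clsW b h.castSucc <;> simp only [hp, hp1]

theorem X0_threeE (B : Cl) : X0 .threeE B = 60 / 100 := by
  cases B <;> rfl

/-- **The share of a touched `3` at an end.** -/
theorem Tl.share_threeE (H : Tl b zs R z) (G : Gains b zs R z) (hM : 1 ≤ M) (hi : Tch b R i)
    (hc : clsW b i = .threeE) (c : ZZ (tyW b) → ℝ) :
    (hT b R i → sh b R zs z i 0 + sh b R zs z i 2 ≤ Vr b (zN b R zs z c) i - Vr b z i) ∧
    (¬ hT b R i → sh b R zs z i 0 + sh b R zs z i 2 < Vr b (zN b R zs z c) i - Vr b z i) := by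
  have he := clsW_end (b := b) (Or.inr hc)
  have hr : clsW b i ≠ .ring := by rw [hc]; decide
  obtain ⟨h, p, j, A⟩ := exists_adjE hM he
  have hmid := tyW_isMid (b := b) (Or.inr hc)
  set m : {i : Fin (M + 1) // (tyW b i).isMid = true} := ⟨i, hmid⟩ with hm
  have hn : nbH b R h := (nbH_iff A).2 (Or.inl hi)
  have hnM : nbM b R m.1 := Or.inl hi
  obtain ⟨w1, w2⟩ := H.wallE m A hn hc
  obtain ⟨m0, m1, m2⟩ := H.mreal hnM
  obtain ⟨x0, x1, x2⟩ := H.re_mem hn
  obtain ⟨t0, t1⟩ := H.box A (Or.inl hr)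
  rw [hc] at t0 t1
  obtain ⟨k0, k1⟩ := H.mwinE m hc
  rw [sh_endsum A he, A.Vr_threeE hc, A.Vr_threeE hc, Oh_new hn, H.Oh_nb hn]
  have e1 : Om b z ⟨i, tyW_isMid (Or.inr hc)⟩ = ⟨(z (.inl (.inr m))).re, 0⟩ := by
    apply Complex.ext
    · exact ofr_re _ _
    · show (ofr (b i) (z (.inl (.inr m)))).im = 0
      rw [ofr_im, m0]
      exact ofs_zero _
  have e2 : Om b (zN b R zs z c) ⟨i, tyW_isMid (Or.inr hc)⟩ =
      ⟨tmt b R i fun h => (z (.inl (.inl h))).re, SR.Tm b zs m⟩ := Om_new m hnM c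
  rw [e1, e2, tmt_threeE A hc]
  constructor
  · intro hT'
    have ht : isT b R h := by
      obtain ⟨g, q, k, B, hg⟩ := hT'
      obtain rfl : q = p := B.slot_end A he
      exact (adj_uniq B A).1 ▸ hg
    have h6 := H.tail6 A hr ht
    rw [sh_T A ht, tgt_T A ht, if_neg (by rintro ⟨-, h2⟩; exact h2 hT'), hc]
    have h2 := side_threeE (B := clsW b j) (Cc := oc b i p.rev)
      (x := (z (.inl (.inl h))).re) (l := (z (.inl (.inr m))).re) (t := Th b zs h i)
      (m := SR.Tm b zs m) (by rw [X0_threeE]; linarith) w1 w2 t0 t1 k0 k1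
    unfold shT
    rw [hc, if_neg (by decide)]
    by_cases hB : clsW b j = .ring
    · rw [if_pos hB]
      rw [hB] at h2 ⊢
      simp only [al, be] at h2
      simp only [gD]
      linarith
    · rw [if_neg hB]
      linarith
  · intro hT'
    rcases H.tch_threeE m A hi hc with ht | ⟨ht, hmR⟩
    · exact absurd ⟨h, p, j, A, ht⟩ hT'
    obtain ⟨-, l0, l1⟩ := H.mtail hmR
    have l0' : 77 / 100 ≤ (z (.inl (.inr m))).re := by
      have : (mp (clsW b m.1)).XM = 77 / 100 := by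
        show (mp (clsW b i)).XM = 77 / 100
        rw [hc]
        rfl
      rw [← this]
      exact l0
    have hxX := (H.real hn ht).2.2
    rw [wXM_threeE A hc] at hxX
    obtain ⟨g, hg, hG⟩ := sh_nb0 H G A hi ht (fun h3 => hr h3.1) (by rw [hc]; decide)
    have etg := tgt_cU A hi hT' (Or.inr hc) (z (.inl (.inl h))).re
    rw [hg, if_pos ⟨hi, hT'⟩, etg]
    rw [etg, hc, Th_opp H.hb A (Or.inl hr)] at hG
    have h2 := side_threeEL (kb_ok b R j p.rev) l0' w2 x1 hxX t0 t1 k0 k1 hG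
    linarith

end TL

end Pool.Agent.Work.MP_b30479_gt.G2
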