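import Pool.Agent.Work.MP_b30479_gt.G2.TWC
import Pool.Agent.Work.MP_b30479_gt.G2.TW3a
import Pool.Agent.Work.MP_b30479_gt.G2.TL4

/-!
# Tails, word level: the share of a touched ring
-/

namespace Pool.Agent.Work.MP_b30479_gt.G2

open Finset VOL Filter Topology SR

namespace TL

variable {M : ℕ} {b : Fin (M + 1) → ℤ} {zs z : DD (tyW b) ⊕ ZZ (tyW b) → ℂ}
variable {R : Finset (DD (tyW b))} {h h' : Fin M} {i j j' k : Fin (M + 1)} {p q : Fin 3}

/-! ### the heights at a hinge of a ring, seen from the ring -/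

theorem Tl.Th_ring_one (H : Tl b zs R z) (A : Adj h i p j) (hi : clsW b i = .ring)
    (hj : clsW b j = .one) :
    -(158 / 1000) ≤ Th b zs h i ∧ Th b zs h i ≤ -(38 / 1000) ∧
      (((b i).natAbs : ℝ) < 5 → -(128 / 1000) ≤ Th b zs h i) ∧
      (((b i).natAbs : ℝ) < 6 → -(138 / 1000) ≤ Th b zs h i) := by
  have hr : clsW b i ≠ .ring ∨ clsW b j ≠ .ring := Or.inr (by rw [hj]; decide)
  have hbx := H.box A hr
  rw [hi, hj] at hbx
  simp only [hbox] at hbx
  have e : Th b zs h j = -Th b zs h i := Th_opp H.hb A hr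
  have h4 := ring_four H.hb (tyW_of_ring H.hb hi)
  have k4 : (b i).natAbs = 4 → -(128 / 1000) ≤ Th b zs h i := fun hn => by
    have h1 : Th b zs h j ≤ 128 / 1000 := H.L.X.one4 A.symm hj hi hn
    linarith
  have k5 : (b i).natAbs = 5 → -(138 / 1000) ≤ Th b zs h i := fun hn => by
    have h1 : Th b zs h j ≤ 138 / 1000 := H.L.X.one5 A.symm hj hi hn
    linarith
  refine ⟨hbx.1, hbx.2, fun hn => ?_, fun hn => ?_⟩
  · have h5 : (b i).natAbs < 5 := by exact_mod_cast hn
    exact k4 (by omega)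
  · have h6 : (b i).natAbs < 6 := by exact_mod_cast hn
    rcases (by omega : (b i).natAbs = 4 ∨ (b i).natAbs = 5) with h1 | h1
    · have := k4 h1
      linarith
    · exact k5 h1

theorem Tl.Th_ring_lo (H : Tl b zs R z) (A : Adj h i p j) (hi : clsW b i = .ring)
    (hj : clsW b j ≠ .one) (hj' : clsW b j ≠ .ring) :
    -(131 / 1000) ≤ Th b zs h i ∧ Th b zs h i ≤ 4 / 1000 ∧
      (((b i).natAbs : ℝ) < 5 → -(115 / 1000) ≤ Th b zs h i) := by
  have hr : clsW b i ≠ .ring ∨ clsW b j ≠ .ring := Or.inr hj'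
  have hbx := H.box A hr
  rw [hi] at hbx
  have e : Th b zs h j = -Th b zs h i := Th_opp H.hb A hr
  have h4 := ring_four H.hb (tyW_of_ring H.hb hi)
  have k4 : (b i).natAbs = 4 → -(115 / 1000) ≤ Th b zs h i := fun hn => by
    have h1 : Th b zs h j ≤ 115 / 1000 := H.L.X.lo4 A.symm hj hj' hi hn
    linarith
  refine ⟨?_, ?_, fun hn => ?_⟩
  · refine le_trans ?_ hbx.1
    revert hj hj'
    cases clsW b j <;> intro hj hj' <;>
      first | exact absurd rfl hj | exact absurd rfl hj' | (simp only [hbox]; norm_num)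
  · refine le_trans hbx.2 ?_
    revert hj hj'
    cases clsW b j <;> intro hj hj' <;>
      first | exact absurd rfl hj | exact absurd rfl hj' | (simp only [hbox]; norm_num)
  · have h5 : (b i).natAbs < 5 := by exact_mod_cast hn
    exact k4 (by omega)

theorem Tl.Th_ring_ring (H : Tl b zs R z) (A : Adj h i p j) (hi : clsW b i = .ring)
    (hj : clsW b j = .ring) :
    -(385 / 10000) ≤ Th b zs h i ∧ Th b zs h i ≤ 59 / 1000 ∧
      (((b i).natAbs : ℝ) < 5 → -(25 / 1000) ≤ Th b zs h i) := by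
  obtain ⟨-, -, h1, h2⟩ := A.box H.hb H.L.L
  rw [hi, hj] at h1 h2
  have h4 := ring_four H.hb (tyW_of_ring H.hb hi)
  have e1 : -(385 / 10000) ≤ (hbox .ring .ring (ssW b h)).t0 := by
    cases ssW b h <;> simp only [hbox] <;> norm_num
  have e2 : (hbox .ring .ring (ssW b h)).t1 ≤ 59 / 1000 := by
    cases ssW b h <;> simp only [hbox] <;> norm_num
  refine ⟨e1.trans h1, h2.trans e2, fun hn => ?_⟩
  have h5 : (b i).natAbs < 5 := by exact_mod_cast hn
  exact H.L.X.rr4 A hi hj (by omega)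

/-- heights in the two frames, equal signs -/
theorem Th_same (hs : 0 < b i * b j) : Th b zs h j = Th b zs h i := by
  show ofs (b j) _ = ofs (b i) _
  unfold ofs
  rcases pos_and_pos_or_neg_and_neg_of_mul_pos hs with ⟨h1, h2⟩ | ⟨h1, h2⟩
  · rw [if_pos h1, if_pos h2]
  · rw [if_neg (by omega), if_neg (by omega)]

theorem Th_pm (hb : ClassW b) (A : Adj h i p j) :
    Th b zs h j = Th b zs h i ∨ Th b zs h j = -Th b zs h i := by
  rcases A.sign hb with h1 | ⟨h1, -, -⟩
  · exact Or.inr (A.ofs_conj h1 _)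
  · exact Or.inl (Th_same h1)

/-! ### the slots -/

/-- a hinge of a ring in the tail -/
theorem Tl.RT_of (H : Tl b zs R z) (A : Adj h i p j) (hi : clsW b i = .ring) (ht : isT b R h)
    (c : ZZ (tyW b) → ℝ) :
    RT ((b i).natAbs : ℝ) (Oh b z i h) (Oh b (zN b R zs z c) i h) (sh b R zs z i p) := by
  obtain ⟨-, x0, x1⟩ := H.tail ht
  have hX := X0_le (b := b) A
  rw [sh_T A ht, Oh_new (isT_nb ht), H.Oh_nb (isT_nb ht), tgt_T A ht]
  unfold shT
  rw [if_pos hi, hi]
  rw [hi] at hX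
  by_cases hj1 : clsW b j = .one
  · obtain ⟨t0, t1, t4, t5⟩ := H.Th_ring_one A hi hj1
    rw [hj1] at hX ⊢
    have h1 : (65 : ℝ) / 100 ≤ (z (.inl (.inl h))).re := hX.trans x0
    exact .one h1 x1 t0 t1 t4 t5
  by_cases hj2 : clsW b j = .ring
  · obtain ⟨t0, t1, t4⟩ := H.Th_ring_ring A hi hj2
    rw [hj2] at hX ⊢
    have h1 : (50 : ℝ) / 100 ≤ (z (.inl (.inl h))).re := hX.trans x0
    exact .ring (by linarith) x1 t0 t1 t4
  obtain ⟨t0, t1, t4⟩ := H.Th_ring_lo A hi hj1 hj2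
  have e1 : cT .ring (clsW b j) = 1 / 4 := by
    revert hj1 hj2
    cases clsW b j <;> intro hj1 hj2 <;> first | exact absurd rfl hj1 | exact absurd rfl hj2 | rfl
  have e2 : gR (clsW b j) (z (.inl (.inl h))).re (Th b zs h i) =
      gR .two (z (.inl (.inl h))).re (Th b zs h i) := by
    revert hj1 hj2
    cases clsW b j <;> intro hj1 hj2 <;> first | exact absurd rfl hj1 | exact absurd rfl hj2 | rfl
  have e3 : X0 .ring (clsW b j) = 60 / 100 := by
    revert hj1 hj2
    cases clsW b j <;> intro hj1 hj2 <;> first | rfl | exact absurd rfl hj1 | exact absurd rfl hj2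
  rw [e3] at hX
  rw [e1, e2]
  exact .lo (hX.trans x0) x1 t0 t1 t4

theorem kd_one (hk : kd b j q = .one) : clsW b j = .one := by
  unfold kd at hk
  revert hk
  cases clsW b j <;> dsimp only <;> (try split_ifs) <;> intro hk <;> first | rfl | cases hk

theorem kd_ring (hk : kd b j q = .ring) : clsW b j = .ring := by
  unfold kd at hk
  revert hk
  cases clsW b j <;> dsimp only <;> (try split_ifs) <;> intro hk <;> first | rfl | cases hk

theorem kd_one' (hk : kd b j q ≠ .one) : clsW b j ≠ .one := by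
  intro hc
  apply hk
  unfold kd
  rw [hc]

theorem kd_ring' (hk : kd b j q ≠ .ring) : clsW b j ≠ .ring := by
  intro hc
  apply hk
  unfold kd
  rw [hc]

theorem kd_touched : kd b j q ≠ .touched := by
  unfold kd
  cases clsW b j <;> simp only <;> (try split_ifs) <;> decide

/-- the other hinge of a touched ring -/
theorem Tl.RN_of (H : Tl b zs R z) (G : Gains b zs R z) (A : Adj h i p j)
    (hi : clsW b i = .ring) (hT' : Tch b R i) (c : ZZ (tyW b) → ℝ) :
    RN ((b i).natAbs : ℝ) (Oh b z i h) (Oh b (zN b R zs z c) i h) (sh b R zs z i p) := by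
  by_cases ht : isT b R h
  · exact .tail (H.RT_of A hi ht c)
  have hn : nbH b R h := (nbH_iff A).2 (Or.inl hT')
  obtain ⟨-, x0, x1⟩ := H.real hn ht
  obtain ⟨X1, X2, X3⟩ := XM_ring (b := b) A hi
  have etg := tgt_cZ A hT' ht hi (z (.inl (.inl h))).re
  rw [Oh_new hn, H.Oh_nb hn, etg]
  by_cases hj : Tch b R j
  · rw [kb_tch hj]
    by_cases hjr : clsW b j = .ring
    · rw [sh_rr A hT' ht hi hjr hj]
      obtain ⟨t0, t1, t4⟩ := H.Th_ring_ring A hi hjr
      exact .nbRing x0 (x1.trans (X3 hjr)) t0 t1 t4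
    · have hsh : sh b R zs z i p = -(59 / 25) * Th b zs h i := by
        rw [sh_adj A]
        unfold shA
        rw [if_neg ht, if_pos hT', if_pos hj, shN_un (fun hh => hjr hh.2)]
      rw [hsh]
      by_cases hj1 : clsW b j = .one
      · obtain ⟨t0, t1, t4, t5⟩ := H.Th_ring_one A hi hj1
        exact .nbOne x0 (x1.trans X1) t0 t1 t4 t5
      · obtain ⟨t0, t1, t4⟩ := H.Th_ring_lo A hi hj1 hjr
        exact .nbLo x0 (x1.trans (X2 hj1)) t0 t1 t4
  · obtain ⟨g, hg, hG⟩ := sh_nb0 H G A hT' ht (fun hh => hj hh.2.2) (by rw [hi]; decide)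
    rw [hg]
    rw [etg, kb_un hj, hi] at hG
    rw [kb_un hj]
    refine .un x0 (x1.trans X1) kd_touched (fun hk => x1.trans (X3 (kd_ring hk)))
      (fun hk => Th_opp H.hb A (Or.inr (kd_ring' hk))) (fun _ => Th_pm H.hb A)
      (fun hk => (H.Th_ring_one A hi (kd_one hk)).2.2.1)
      (fun hk => (H.Th_ring_one A hi (kd_one hk)).2.2.2)
      (fun hk hk' => (H.Th_ring_lo A hi (kd_one' hk) (kd_ring' hk')).2.2)
      (fun hk => (H.Th_ring_ring A hi (kd_ring hk)).2.2)
      (fun hk => (H.Th_ring_ring A hi (kd_ring hk)).1) hG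

/-- **The share of a touched ring.** -/
theorem Tl.share_ring (H : Tl b zs R z) (G : Gains b zs R z) (v : ZZ (tyW b))
    (hi : Tch b R v.1) : ∃ x : ℝ, -(1 / 4) ≤ x ∧ x ≤ 0 ∧ ∀ c : ZZ (tyW b) → ℝ, c v = x →
    sh b R zs z v.1 0 + sh b R zs z v.1 2 ≤ Vr b (zN b R zs z c) v.1 - Vr b z v.1 := by
  have hc : clsW b v.1 = .ring := by
    by_contra hc
    exact ring_ne hc v rfl
  obtain ⟨h, p, j, A, ht⟩ := H.tch_ring hi hc
  have hn4 : (4 : ℝ) ≤ ((b v.1).natAbs : ℝ) := by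
    exact_mod_cast ring_four H.hb (tyW_of_ring H.hb hc)
  have hρ : 0 ≤ (zs (.inr v)).im := (H.L.L.rpos v).le
  have hcap := ring_cap H.hb H.L.L v
  obtain ⟨r1, r2⟩ := H.mx.adm.reZ v ((tch_ring_iff v).2 hi)
  have hs : |ofs (b v.1) (z (.inr v)).re| ≤ 1 / 2 := by
    unfold ofs
    split_ifs
    · exact r2
    · rw [abs_neg]
      exact r2
  have e0 : Oz b z v = ⟨ofs (b v.1) (z (.inr v)).re, 0⟩ := by
    unfold Oz
    apply Complex.ext
    · rw [ofz_re]
    · rw [ofz_im, r1]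
  rcases A.other b zs (fun _ => 0) with ⟨he, -⟩ | ⟨-, h', k, A'⟩
  · obtain ⟨x, x0, x1, hx⟩ := side_ringN hn4 hρ hcap hs (H.RT_of A hc ht 0) .no
    refine ⟨x, x0, x1, fun c hcv => ?_⟩
    rw [sh_sum A, sh_end A he, A.Vr_ringE v he H.hb hc, A.Vr_ringE v he H.hb hc, Oz_new v hi,
      hcv, e0]
    rw [Oh_new (isT_nb ht)] at hx ⊢
    exact hx
  · have hn' : nbH b R h' := (nbH_iff A').2 (Or.inl hi)
    obtain ⟨x, x0, x1, hx⟩ := side_ringN hn4 hρ hcap hs (H.RT_of A hc ht 0)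
      (H.RN_of G A' hc hi 0)
    refine ⟨x, x0, x1, fun c hcv => ?_⟩
    rw [sh_sum A, A.Vr_ring v A' H.hb hc, A.Vr_ring v A' H.hb hc, Oz_new v hi, hcv, e0]
    rw [Oh_new (isT_nb ht), Oh_new hn'] at hx ⊢
    exact hx

end TL

end Pool.Agent.Work.MP_b30479_gt.G2
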