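import Pool.Agent.Work.MP_b30479_gt.G2.WChN
import Pool.Agent.Work.MP_b30479_gt.G2.TWA

/-!
# Tails: the new point is admissible
-/

namespace Pool.Agent.Work.MP_b30479_gt.G2

open Finset VOL Filter Topology SR

namespace TL

variable {M : ℕ} {b : Fin (M + 1) → ℤ} {zs z : DD (tyW b) ⊕ ZZ (tyW b) → ℂ}
variable {R : Finset (DD (tyW b))} {h h' : Fin M} {i j j' k : Fin (M + 1)} {p q : Fin 3}

/-- a point above the flat part of a path -/
theorem on_flat {D : Type} (P : Par D) {t c : ℝ} {i : D} (h0 : 0 < P.cl i) (h0' : 0 < P.cr i)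
    (h1 : P.cl i ≤ c) (h2 : c ≤ P.XM i - P.cr i) : P.On t i ⟨c, t⟩ 0 := by
  refine ⟨c, by linarith, by linarith, Or.inl ⟨?_, rfl⟩⟩
  apply Complex.ext
  · rw [ptm_re]
  · rw [ptm_im, tr_flat h0 h0' h1 h2, mul_one]

/-- the target of a hinge in the tail is on the flat part of the path -/
theorem flat_T (A : Adj h i p j) : wcl b h ≤ cT (clsW b i) (clsW b j) ∧
    cT (clsW b i) (clsW b j) ≤ wXM b h - wcr b h := by
  rw [A.cl_eq b, A.cr_eq b, A.XM_eq b]
  unfold hpp
  rcases clsW b i <;> rcases clsW b j <;> simp only [cT] <;> split_ifs <;>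
    simp only [hp, hp1] <;> (try split_ifs) <;> norm_num

theorem hp_flat (P A B Q : Cl) : (hp P A B Q).cl ≤ 16 / 100 ∧
    26 / 100 ≤ (hp P A B Q).XM - (hp P A B Q).cr ∧
    (A = .one ∨ B = .one → 35 / 100 ≤ (hp P A B Q).XM - (hp P A B Q).cr) ∧
    (A = .three ∨ B = .three → (hp P A B Q).cl ≤ 15 / 100) := by
  rcases A <;> rcases B <;> simp only [hp, hp1] <;> (try split_ifs) <;> norm_num <;> decide

/-- the targets of the real hinges are on the flat parts of the paths -/
theorem flat_C (A : Adj h i p j) {c : ℝ}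
    (h1 : 16 / 100 ≤ c ∨ (clsW b j = .three ∧ 15 / 100 ≤ c))
    (h2 : c ≤ 25 / 100 ∨ (clsW b j = .one ∧ c ≤ 28 / 100)) :
    wcl b h ≤ c ∧ c ≤ wXM b h - wcr b h := by
  rw [A.cl_eq b, A.cr_eq b, A.XM_eq b]
  unfold hpp
  have e1 := hp_flat (oc b i p.rev) (clsW b i) (clsW b j) (oc b j p)
  have e2 := hp_flat (oc b j p) (clsW b j) (clsW b i) (oc b i p.rev)
  constructor
  · rcases h1 with h1 | ⟨h3, h1⟩
    · split_ifs
      · linarith [e1.1]
      · linarith [e2.1]
    · split_ifs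
      · linarith [e1.2.2.2 (Or.inr h3)]
      · linarith [e2.2.2.2 (Or.inl h3)]
  · rcases h2 with h2 | ⟨h3, h2⟩
    · split_ifs
      · linarith [e1.2.1]
      · linarith [e2.2.1]
    · split_ifs
      · linarith [e1.2.2.1 (Or.inr h3)]
      · linarith [e2.2.2.1 (Or.inl h3)]

/-- the targets of the real hinges which are not in the tail: `C` is the kind of the region behind
the hinge -/
theorem tgK_mem (b : Fin (M + 1) → ℤ) (R : Finset (DD (tyW b))) (i j : Fin (M + 1)) (p : Fin 3)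
    (C : Ct) (hC : C.ok (clsW b j)) (x : ℝ) :
    (16 / 100 ≤ tgK b R i p C x ∨ (clsW b j = .three ∧ 15 / 100 ≤ tgK b R i p C x)) ∧
    (tgK b R i p C x ≤ 25 / 100 ∨ (clsW b j = .one ∧ tgK b R i p C x ≤ 28 / 100)) := by
  unfold tgK
  rcases C <;> simp only [Ct.ok] at hC <;> split_ifs <;> simp only [cZ, cN, cW, cU] <;>
    (try split_ifs) <;> norm_num [hC]

theorem flat_h (hn : nbH b R h) (x : ℝ) :
    wcl b h ≤ tgt b R h x ∧ tgt b R h x ≤ wXM b h - wcr b h := by
  by_cases ht : isT b R h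
  · rw [tgt_T (Adj.l (h := h)) ht]
    exact flat_T (Adj.l (h := h))
  · rcases hn with hn | hn
    · rw [tgt_nb (Adj.l (h := h)) hn ht]
      obtain ⟨e1, e2⟩ := tgK_mem b R h.castSucc h.succ 2 _ (kb_ok b R h.succ (Fin.rev 2)) x
      exact flat_C (Adj.l (h := h)) e1 e2
    · rw [tgt_nb (Adj.r (h := h)) hn ht]
      obtain ⟨e1, e2⟩ := tgK_mem b R h.succ h.castSucc 0 _ (kb_ok b R h.castSucc (Fin.rev 0)) x
      exact flat_C (Adj.r (h := h)) e1 e2

theorem flat_M (hM : 1 ≤ M) (m : {i : Fin (M + 1) // (tyW b i).isMid = true})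
    (hn : nbM b R m.1 ∨ mvM b R z m) (x : Fin M → ℝ) :
    (mp (clsW b m.1)).cl ≤ tmt b R m.1 x ∧
      tmt b R m.1 x ≤ (mp (clsW b m.1)).XM - (mp (clsW b m.1)).cr := by
  by_cases hc : clsW b m.1 = .threeE
  · obtain ⟨h, p, j, A⟩ := exists_adj' hM m.1
    have hh : nbH b R h := by
      rw [nbH_iff A]
      rcases hn with (h1 | ⟨-, h1, p1, j1, A1, h2⟩) | ⟨⟨h1, j1, A1, h2⟩, -⟩
      · exact Or.inl h1
      · have e0 := A.slot_end A1 (clsW_end (Or.inr hc))
        subst e0
        obtain ⟨rfl, rfl⟩ := adj_uniq A A1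
        exact Or.inr h2
      · have e0 := A.slot_end A1 (clsW_end (Or.inr hc))
        subst e0
        obtain ⟨rfl, rfl⟩ := adj_uniq A A1
        exact (nbH_iff A).1 h2
    obtain ⟨f1, f2⟩ := flat_h hh (x h)
    rw [tmt_threeE A hc, hc]
    have e1 : 1 / 10 ≤ wcl b h := by
      rw [A.cl_eq b, hc]
      unfold hpp
      split_ifs <;> rcases clsW b j <;> simp only [hp, hp1] <;> norm_num
    have e2 : wXM b h - wcr b h ≤ 35 / 100 := by
      rw [A.cr_eq b, A.XM_eq b, hc]
      unfold hpp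
      split_ifs <;> rcases clsW b j <;> simp only [hp, hp1] <;> norm_num
    have e3 : ∀ C : Ct, 0 ≤ dE C ∧ dE C ≤ 1 / 6 := by
      intro C
      rcases C <;> simp only [dE] <;> norm_num
    simp only [mp]
    constructor
    · split_ifs
      · linarith [(e3 (kb b R j p.rev)).1]
      · linarith
    · split_ifs
      · linarith [(e3 (kb b R j p.rev)).2]
      · linarith
  · have e1 : mp (clsW b m.1) = ⟨8 / 10, 5 / 100, 5 / 100⟩ := by
      rcases hc' : clsW b m.1 <;> first | rfl | exact absurd hc' hc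
    unfold tmt
    rw [if_neg hc, e1]
    split_ifs <;> norm_num

/-- **The new point is admissible.** -/
theorem Tl.adm (H : Tl b zs R z) (hM : 1 ≤ M) {c : ZZ (tyW b) → ℝ}
    (hc : ∀ v : ZZ (tyW b), Tch b R v.1 → |c v| ≤ 1 / 4) :
    Adm (wdat (tyW b) b) (wparM b zs) zs ∅ ∅ (zN b R zs z c) 0 := by
  refine ⟨?_, ?_, ?_, ?_, ?_, ?_⟩
  · exact fun i hi => absurd hi (Finset.notMem_empty i)
  · exact fun i _ hi => absurd hi (Finset.notMem_empty _)
  · exact fun v hv => absurd hv (Finset.notMem_empty _)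
  · intro d _
    have hg := par1_good b d
    rcases d with h | m
    · by_cases hn : nbH b R h
      · rw [zN_h b R zs z c hn]
        obtain ⟨f1, f2⟩ := flat_h hn (z (.inl (.inl h))).re
        exact on_flat (wparM b zs) hg.1 hg.2.1 f1 f2
      · rw [zN_h' b R zs z c hn]
        obtain ⟨e1, e2, e3⟩ := H.path hn
        refine ⟨_, e1, e2, Or.inl ⟨?_, rfl⟩⟩
        apply Complex.ext
        · rw [ptm_re]
        · rw [ptm_im]
          exact e3
    · by_cases hn : nbM b R m.1 ∨ mvM b R z m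
      · rw [zN_m b R zs z c m hn]
        obtain ⟨f1, f2⟩ := flat_M hM m hn fun h => (z (.inl (.inl h))).re
        exact on_flat (wparM b zs) hg.1 hg.2.1 f1 f2
      · rw [zN_m' b R zs z c m hn]
        obtain ⟨e1, e2, e3⟩ := H.mpath fun h1 => hn (Or.inl h1)
        refine ⟨_, e1, e2, Or.inl ⟨?_, rfl⟩⟩
        apply Complex.ext
        · rw [ptm_re]
        · rw [ptm_im]
          exact e3
  · intro v _
    by_cases hv : Tch b R v.1
    · rw [zN_z b R zs z c v hv]
      refine ⟨ofs (b v.1) (c v), ?_, ?_⟩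
      · rw [abs_ofs]
        linarith [hc v hv]
      · have e2 : LT.th (ofs (b v.1) (c v)) = 1 := by
          rw [th_ofs]
          exact th_of_le (hc v hv)
        rw [zt_eq, e2, mul_one]
        apply Complex.ext <;> simp
    · rw [zN_z' b R zs z c v hv]
      exact H.mx.adm.onZ v fun h1 => hv ((tch_ring_iff v).1 h1)
  · intro k hk hk'
    have h0 : ∀ j, (wdat (tyW b) b).A k j = 0 := by
      intro j
      rcases j with i | v
      · by_contra hne
        exact absurd (hk' i hne) (Finset.notMem_empty _)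
      · exact hk v
    have hf : ∀ z, (wdat (tyW b) b).form k z = (wdat (tyW b) b).a k := by
      intro z
      unfold Dat.form
      simp [h0]
    have := H.mx.adm.wall k hk fun i hi => absurd (h0 (.inl i)) hi
    rw [hf] at this ⊢
    exact this

end TL

end Pool.Agent.Work.MP_b30479_gt.G2
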