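import Pool.Agent.Work.MP_b30479_gt.G2.V2Row

/-!
# Value moves of the hinge `1 | 3` (side `S3` of an inner digit `3`): functions and rows
-/

namespace Pool.Agent.Work.MP_b30479_gt.G2

open VOL NumU

namespace V2A.B

open NumU.E

/-- the hinge `x + hx i` of a digit `1` is moved to `c + hc i`; `k + hk i` is the other hinge -/
noncomputable def dvB (c hc x hx k hk : ℝ) : ℝ :=
  Real.pi * ((c - x) * hk + (hc - hx) * (k - 1)) + ((uu x hx - uu c hc) +
    (uu (c + k) (hc + hk) - uu (x + k) (hx + hk)))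

theorem V1_dvB {u u' k : ℂ} {c hc x hx : ℝ} (h1 : u.re = x) (h2 : u.im = hx)
    (h3 : u'.re = c) (h4 : u'.im = hc) :
    V1 u' k - V1 u k = dvB c hc x hx k.re k.im := by
  have e1 : (u' * k - u' - k).im = c * k.im + hc * k.re - hc - k.im := by
    simp only [Complex.sub_im, Complex.mul_im, h3, h4]
  have e2 : (u * k - u - k).im = x * k.im + hx * k.re - hx - k.im := by
    simp only [Complex.sub_im, Complex.mul_im, h1, h2]
  unfold V1 dvB
  rw [e1, e2, UU_uu (u' + k), UU_uu (u + k), UU_uu u', UU_uu u]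
  simp only [Complex.add_re, Complex.add_im, h1, h2, h3, h4]
  ring

/-- height at `x` on the ramp of the path `.65`, `.15` -/
noncomputable def h65 (x T : ℝ) : ℝ := T * (13 / 3 - 20 / 3 * x)

/-- a quadratic bound; `T` in the frame of the inner digit `3` -/
noncomputable def gq (a0 a1 a2 a3 a4 a5 x0 t0 : ℤ) (x T : ℝ) : ℝ :=
  (a0 : ℝ) / 100000 + (x - x0 / 1000) * (a1 / 1000) + ((-t0 / 1000 - T) * (a2 / 1000) +
    (x - x0 / 1000) * (-t0 / 1000 - T) * (a3 / 1000) +
    ((-t0 / 1000 - T) * (-t0 / 1000 - T) * (a4 / 1000) +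
      (x - x0 / 1000) * (x - x0 / 1000) * (a5 / 1000)))

/-! ### expressions -/

def ex65 : E := mul vT (sub (q 13 3) (mul (q 20 3) vx))
/-- `gq`, frame of the `3` -/
def eq (a0 a1 a2 a3 a4 a5 x0 t0 : ℤ) : E :=
  add (add (q a0 100000) (mul (sub vx (q x0 1000)) (q a1 1000)))
    (add (add (mul (sub (q (-t0) 1000) vT) (q a2 1000))
      (mul (mul (sub vx (q x0 1000)) (sub (q (-t0) 1000) vT)) (q a3 1000)))
      (add (mul (mul (sub (q (-t0) 1000) vT) (sub (q (-t0) 1000) vT)) (q a4 1000))
        (mul (mul (sub vx (q x0 1000)) (sub vx (q x0 1000))) (q a5 1000))))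
/-- `gq`, frame of the `1` -/
def fq (a0 a1 a2 a3 a4 a5 x0 t0 : ℤ) : E :=
  add (add (q a0 100000) (mul (sub vx (q x0 1000)) (q a1 1000)))
    (add (add (mul (sub vT (q t0 1000)) (q a2 1000))
      (mul (mul (sub vx (q x0 1000)) (sub vT (q t0 1000))) (q a3 1000)))
      (add (mul (mul (sub vT (q t0 1000)) (sub vT (q t0 1000))) (q a4 1000))
        (mul (mul (sub vx (q x0 1000)) (sub vx (q x0 1000))) (q a5 1000))))

section
variable {x T : ℝ} {r : List ℝ}

theorem ex65_val : ex65.val (x :: T :: r) = h65 x T := by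
  simp only [ex65, E.val, vx_val, vT_val, h65]
  push_cast
  ring

theorem eq_val {a0 a1 a2 a3 a4 a5 x0 t0 : ℤ} :
    (eq a0 a1 a2 a3 a4 a5 x0 t0).val (x :: T :: r) = gq a0 a1 a2 a3 a4 a5 x0 t0 x T := by
  simp only [eq, E.val, vx_val, vT_val, gq]
  push_cast
  ring

theorem fq_val {a0 a1 a2 a3 a4 a5 x0 t0 : ℤ} :
    (fq a0 a1 a2 a3 a4 a5 x0 t0).val (x :: T :: r) = gq a0 a1 a2 a3 a4 a5 x0 t0 x (-T) := by
  simp only [fq, E.val, vx_val, vT_val, gq]
  push_cast
  ring

end

/-- the row `dvB - g` -/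
def FBe (c hc x hx k hk g : E) : E :=
  sub (add (mul pi (add (mul (sub c x) hk) (mul (sub hc hx) (sub k (q 1 1)))))
    (add (sub (uu x hx) (uu c hc)) (sub (uu (add c k) (add hc hk)) (uu (add x k) (add hx hk))))) g

theorem FBe_val {c hc x hx k hk g : E} {xs : List ℝ} : (FBe c hc x hx k hk g).val xs =
    dvB (c.val xs) (hc.val xs) (x.val xs) (hx.val xs) (k.val xs) (hk.val xs) - g.val xs := by
  simp only [FBe, E.val, dvB]
  push_cast
  ring

/-! ### the inner variable stays: `x T s t`, the inner variable is `x + s + t i` -/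

/-- `x + s` -/
def vxs : E := add vx vl

def S1 (c hx g : E) (es : List E) : List E :=
  FRe c vT vx hx vxs vt g (aN vl (sub vt hx)) :: sub vt hx :: es
def S2 (c hx g : E) (es : List E) : List E :=
  FRe c vT vx hx vxs vt g (aP vl (sub vt hx)) :: sub hx vt :: es
def S3 (c hx g : E) (es : List E) : List E :=
  FRe c vT vx hx vxs vt g (mul (mul (q 1 2) pi) (sub vt hx)) :: sub vt hx :: es
def S4 (c hx g : E) (es : List E) : List E :=
  FRe c vT vx hx vxs vt g (mul (mul (q 1 2) pi) (sub hx vt)) :: sub hx vt :: es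
def S5 (c hx g : E) (es : List E) : List E :=
  FRe c vT vx hx vxs vt g (uu (q 1 100) (sub vt hx)) :: es
def S6 (c hx g : E) (es : List E) : List E :=
  FRe c vT vx hx vxs vt g (uu vl (sub vt hx)) :: es

theorem stay_row {c hx g : E} {es : List E} {x T s t cc hh gg : ℝ}
    (hc : c.val [x, T, s, t] = cc) (hh' : hx.val [x, T, s, t] = hh)
    (hg : g.val [x, T, s, t] = gg) (hs : s ≤ 4 / 100) (hy : |t - hh| ≤ 13 / 100)
    (hes : ∀ e ∈ es, e.val [x, T, s, t] ≤ 0)
    (k1 : s ≤ -(1 / 100) → ∃ e ∈ S1 c hx g es, 0 < e.val [x, T, s, t])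
    (k2 : s ≤ -(1 / 100) → ∃ e ∈ S2 c hx g es, 0 < e.val [x, T, s, t])
    (k3 : -(1 / 100) ≤ s → s ≤ 0 → ∃ e ∈ S3 c hx g es, 0 < e.val [x, T, s, t])
    (k4 : -(1 / 100) ≤ s → s ≤ 0 → ∃ e ∈ S4 c hx g es, 0 < e.val [x, T, s, t])
    (k5 : 0 ≤ s → s ≤ 1 / 100 → ∃ e ∈ S5 c hx g es, 0 < e.val [x, T, s, t])
    (k6 : 1 / 100 ≤ s → ∃ e ∈ S6 c hx g es, 0 < e.val [x, T, s, t]) :
    0 < dvR cc T x hh (x + s) t + gg + uu s (t - hh) := by
  have e1 : vl.val [x, T, s, t] = s := rfl
  have e2 : vxs.val [x, T, s, t] = x + s := rfl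
  have e3 : vt.val [x, T, s, t] = t := rfl
  have e4 : vT.val [x, T, s, t] = T := rfl
  have e5 : vx.val [x, T, s, t] = x := rfl
  have n1 : (sub vt hx).val [x, T, s, t] = t - hh := by
    simp only [E.val, e3, hh']
  have n2 : (sub hx vt).val [x, T, s, t] = hh - t := by
    simp only [E.val, e3, hh']
  have hp := Real.pi_pos
  rcases le_total s (-(1 / 100)) with c1 | c1
  · have e := uu_add_one s (t - hh)
    rw [add_comm s 1] at e
    rcases le_total (t - hh) 0 with c2 | c2
    · have := of_list (k1 c1) (all_cons (by rw [n1]; exact c2) hes)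
      rw [FRe_val, aN_val, e1, e2, e3, e4, e5, n1, hc, hh', hg] at this
      rw [e, abs_of_nonpos c2] at this
      linarith only [this]
    · have := of_list (k2 c1) (all_cons (by rw [n2]; linarith only [c2]) hes)
      rw [FRe_val, aP_val, e1, e2, e3, e4, e5, n1, hc, hh', hg] at this
      rw [e, abs_of_nonneg c2] at this
      linarith only [this]
  rcases le_total s 0 with c2 | c2
  · have a1 := UA.anti UA.kc_7_13 (by norm_num) (a := s) (b := 0) (y := t - hh) (by linarith only [c1]) c2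
      (by norm_num) hy
    rw [UA.uu_zero] at a1
    rcases le_total (t - hh) 0 with c3 | c3
    · have := of_list (k3 c1 c2) (all_cons (by rw [n1]; exact c3) hes)
      rw [FRe_val, e2, e3, e4, e5, hc, hh', hg] at this
      have e6 : (mul (mul (q 1 2) pi) (sub vt hx)).val [x, T, s, t] =
          Real.pi / 2 * (t - hh) := by
        rw [← n1]
        simp only [E.val]
        push_cast
        ring
      rw [e6] at this
      rw [abs_of_nonpos c3] at a1
      linarith only [a1, this]
    · have := of_list (k4 c1 c2) (all_cons (by rw [n2]; linarith only [c3]) hes)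
      rw [FRe_val, e2, e3, e4, e5, hc, hh', hg] at this
      have e6 : (mul (mul (q 1 2) pi) (sub hx vt)).val [x, T, s, t] =
          Real.pi / 2 * (hh - t) := by
        rw [← n2]
        simp only [E.val]
        push_cast
        ring
      rw [e6] at this
      rw [abs_of_nonneg c3] at a1
      linarith only [a1, this]
  rcases le_total s (1 / 100) with c3 | c3
  · have a1 := UA.anti UA.kc_7_13 (by norm_num) (a := s) (b := 1 / 100) (y := t - hh)
      (by linarith only [c1]) c3 (by norm_num) hy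
    have := of_list (k5 c2 c3) hes
    rw [FRe_val, e2, e3, e4, e5, hc, hh', hg] at this
    have e6 : (uu (q 1 100) (sub vt hx)).val [x, T, s, t] = NumU.uu (1 / 100) (t - hh) := by
      rw [← n1]
      simp only [E.val]
      norm_num
    rw [e6] at this
    linarith only [a1, this]
  · have := of_list (k6 c3) hes
    rw [FRe_val, e2, e3, e4, e5, hc, hh', hg] at this
    have e6 : (uu vl (sub vt hx)).val [x, T, s, t] = NumU.uu s (t - hh) := by
      show NumU.uu (vl.val [x, T, s, t]) ((sub vt hx).val [x, T, s, t]) = _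
      rw [n1, e1]
    rw [e6] at this
    exact this

/-- the inner variable moves from the left ramp to the flat part, `w` is not small -/
theorem ramp_row' {c hc hx g l' : E} {es : List E} {x T l t w S : ℝ}
    (hes : ∀ e ∈ es, e.val [x, T, l, t, w, S] ≤ 0) (h0 : 0 ≤ l) (h5 : l ≤ 5 / 100)
    (hw : 7 / 100 ≤ w) (ht : |t| ≤ 125 / 1000)
    (k3 : ∃ e ∈ P3 c hc l' hx g es, 0 < e.val [x, T, l, t, w, S])
    (k4 : ∃ e ∈ P4 c hc l' hx g es, 0 < e.val [x, T, l, t, w, S]) :
    0 < dvG (c.val [x, T, l, t, w, S]) (hc.val [x, T, l, t, w, S]) (l'.val [x, T, l, t, w, S]) t x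
      (hx.val [x, T, l, t, w, S]) l (20 * (t * l)) w S + g.val [x, T, l, t, w, S] +
      (uu l (20 * (t * l)) - uu (l + w) (20 * (t * l) + S) +
        uu (l - x) (20 * (t * l) - hx.val [x, T, l, t, w, S])) := by
  have evh : vh.val [x, T, l, t, w, S] = 20 * (t * l) := by
    have h2 : vt.val [x, T, l, t, w, S] = t := rfl
    have h3 : vl.val [x, T, l, t, w, S] = l := rfl
    simp only [vh, E.val, h2, h3]
    norm_num
  have ev1 : vl.val [x, T, l, t, w, S] = l := rfl
  have ev2 : vw.val [x, T, l, t, w, S] = w := rfl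
  have ev3 : vx.val [x, T, l, t, w, S] = x := rfl
  have ev4 : vS.val [x, T, l, t, w, S] = S := rfl
  have ev5 : vt.val [x, T, l, t, w, S] = t := rfl
  have ev6 : vs.val [x, T, l, t, w, S] = l - x := rfl
  have e2 : ((6 : ℤ) : ℝ) / ((100 : ℕ) : ℝ) = 6 / 100 := by norm_num
  have e3 : ((5 : ℤ) : ℝ) / ((100 : ℕ) : ℝ) = 5 / 100 := by norm_num
  have hhl : |20 * (t * l)| ≤ 125 / 1000 * (20 * l) := by
    rw [show 20 * (t * l) = t * (20 * l) by ring, abs_mul, abs_of_nonneg (by linarith only [h0] : 0 ≤ 20 * l)]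
    exact mul_le_mul_of_nonneg_right ht (by linarith only [h0])
  refine split_ramp h0 h5 (by linarith only [hw]) (by linarith only [h5, hhl]) ?_ ?_ ?_ ?_ ?_
  · intro h1
    exact absurd h1 (by linarith only [h0, hw, h1])
  · intro h1 h2
    exact absurd h1 (by linarith only [h0, hw, h1])
  · intro h1 h2
    exact absurd h1 (by linarith only [h0, hw, h1])
  · intro h1 h2
    have := of_list k3 (all_cons (by simp only [E.val, evh]; exact h2)
      (all_cons (by simp only [E.val, ev1, ev2, e2]; linarith only [h0, hw]) hes))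
    rw [FGe_val] at this
    simp only [E.val, aN_val, evh, ev1, ev2, ev3, ev4, ev5, ev6, e3] at this
    exact this
  · intro h1 h2
    have := of_list k4 (all_cons (by simp only [E.val, evh]; linarith only [h2])
      (all_cons (by simp only [E.val, ev1, ev2, e2]; linarith only [h0, hw]) hes))
    rw [FGe_val] at this
    simp only [E.val, aP_val, evh, ev1, ev2, ev3, ev4, ev5, ev6, e3] at this
    exact this

end V2A.B

end Pool.Agent.Work.MP_b30479_gt.G2
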