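import Pool.Agent.Work.MP_b30479_gt.G2.V2BLk
import Pool.Agent.Work.MP_b30479_gt.G2.V2B

/-!
# The hinge `1 | 3` on the side `S3` of an inner digit `3`, `x ≥ .60`: the inner variable is not low
-/

namespace Pool.Agent.Work.MP_b30479_gt.G2

open Finset VOL Filter Topology

namespace V2A.B

variable {w : ℂ} {T S XM : ℝ}

theorem tk_one (h : RH w S XM (15 / 100) (20 / 100)) (hX : 80 / 100 ≤ XM) (hT : 21 / 1000 ≤ T)
    (hT' : T ≤ 92 / 1000) (h2 : T + S ≤ 111 / 1000) (hk : 125 / 1000 ≤ w.re)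
    (hk' : w.re ≤ 35 / 100) : 1000 * (T * w.re) + 150 * w.im ≤ 111 * w.re ∧
    (S ≤ -(20 / 1000) → w.im ≤ -(166 / 10000)) ∧ (-(20 / 1000) ≤ S → -(20 / 1000) ≤ w.im) := by
  rcases le_total w.re (15 / 100) with h0 | h0
  · have e : w.im = S * (w.re / (15 / 100)) := by
      rw [MR.RH_left h (by norm_num) (by norm_num) (by linarith only [hX]) h0]
    have e' : 15 / 100 * w.im = S * w.re := by
      rw [e]
      ring
    have e1 := mul_le_mul_of_nonneg_right h2 (by linarith only [hk] : 0 ≤ w.re)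
    refine ⟨by linarith only [e, e1], fun h3 => ?_, fun h3 => ?_⟩
    · have := mul_le_mul_of_nonneg_right h3 (by linarith only [hk] : 0 ≤ w.re)
      linarith only [hk, e, this]
    · have := mul_le_mul_of_nonneg_right h3 (by linarith only [hk] : 0 ≤ w.re)
      linarith only [h0, e, this]
  · have e : w.im = S := MR.RH_flat h (by norm_num) (by norm_num) h0 (by linarith only [hX, hk'])
    rw [e]
    refine ⟨?_, fun h3 => by linarith only [h3], fun h3 => h3⟩
    have e1 := mul_le_mul_of_nonneg_right h2 (by linarith only [h0] : 0 ≤ w.re)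
    rcases le_total S 0 with h4 | h4
    · have e2 := mul_le_mul_of_nonneg_right hT' (by linarith only [h0] : 0 ≤ w.re)
      linarith only [h0, h4, e2]
    · have e2 := mul_le_mul_of_nonneg_left h0 h4
      linarith only [e1, e2]

theorem kb_of (h : RH w S (80 / 100) (16 / 100) (29 / 100)) (hT : 46 / 1000 ≤ T)
    (hT' : T ≤ 94 / 1000) (hS : 10 / 1000 ≤ S) (hS' : S ≤ 77 / 1000) (h1 : 78 / 1000 ≤ T + S)
    (h2 : T + S ≤ 148 / 1000) (hk : 150 / 1000 ≤ w.re) (hk' : w.re ≤ 54 / 100) :
    KB T w.re w.im := by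
  obtain ⟨-, c2⟩ := h.im_low (by norm_num) (by norm_num : (0 : ℝ) ≤ 0)
    (by norm_num : (0 : ℝ) ≤ 77 / 160) (by linarith only [hS]) (by linarith only [hS'])
  have r0 : 26 / 29 ≤ tr 0 (80 / 100) (16 / 100) (29 / 100) w.re :=
    tr_ge' (by norm_num) (by norm_num) (by norm_num) (by linarith only [hk]) (by linarith only [hk'])
  have r1 : tr 0 (80 / 100) (16 / 100) (29 / 100) w.re ≤ 1 := tr_one'
  have e := h.im
  generalize tr 0 (80 / 100) (16 / 100) (29 / 100) w.re = r at *
  have e1 : 0 ≤ (r - 26 / 29) * S := mul_nonneg (by linarith only [r0]) (by linarith only [hS])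
  have e2 : 0 ≤ (1 - r) * S := mul_nonneg (by linarith only [r1]) (by linarith only [hS])
  have e3 : 0 ≤ (1 - r) * (T - 46 / 1000) := mul_nonneg (by linarith only [r1]) (by linarith only [hT])
  have e4 : 0 ≤ r * (T + S - 78 / 1000) := mul_nonneg (by linarith only [r0]) (by linarith only [h1])
  refine ⟨hT, hT', hk, ?_, ?_, by linarith only [c2], ?_, ?_⟩ <;> rw [e] <;> linarith only [hS, e1, hS', e2, hT, h1, h2]

theorem tk_two (h : RH w S (80 / 100) (16 / 100) (29 / 100)) (hk : 150 / 1000 ≤ w.re)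
    (hk' : w.re ≤ 35 / 100) : (S ≤ 45 / 1000 → w.im ≤ 45 / 1000) ∧
    (45 / 1000 ≤ S → 421 / 10000 ≤ w.im) := by
  have r0 : 15 / 16 ≤ tr 0 (80 / 100) (16 / 100) (29 / 100) w.re :=
    tr_ge' (by norm_num) (by norm_num) (by norm_num) (by linarith only [hk]) (by linarith only [hk'])
  have r1 : tr 0 (80 / 100) (16 / 100) (29 / 100) w.re ≤ 1 := tr_one'
  have e := h.im
  generalize tr 0 (80 / 100) (16 / 100) (29 / 100) w.re = r at *
  rw [e]
  constructor
  · intro h3
    rcases le_total S 0 with h4 | h4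
    · have := mul_nonneg (by linarith only [h4] : 0 ≤ -S) (by linarith only [r0] : 0 ≤ r)
      linarith only [this]
    · have := mul_nonneg h4 (by linarith only [r1] : 0 ≤ 1 - r)
      linarith only [h3, this]
  · intro h3
    have := mul_nonneg (by linarith only [h3] : 0 ≤ S - 45 / 1000) (by linarith only [r0] : 0 ≤ r)
    linarith only [r0, this]

theorem tk_twoE (h : RH w S (70 / 100) (14 / 100) (35 / 100)) (hk : 14 / 100 ≤ w.re)
    (hk' : w.re ≤ 35 / 100) : w.im = S :=
  MR.RH_flat h (by norm_num) (by norm_num) hk (by linarith only [hk'])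

/-! ### complex variables -/

variable {u u' v v' : ℂ} {t : ℝ}

/-- next to `1` or `2` -/
theorem c_lo_A (hx : 6 / 10 ≤ u.re) (hx' : u.re ≤ 65 / 100) (hu : u.im = h65 u.re T)
    (hc : u'.im = T) (hc' : u'.re = 28 / 100) (hv : RH v t (8 / 10) (5 / 100) (5 / 100))
    (M : MA T t) (W : WOl w.re w.im) (hd : v'.re = 42 / 100) (hd' : v'.im = t)
    (hl : v.re ≤ 46 / 100) {τ : ℝ} (h1 : τ ≤ 32 / 10 * (t + 78 / 1000)) (h2 : τ ≤ 864 / 10000) :
    0 < V3 u' v' w - V3 u v w + (gA u.re T - τ) := by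
  rcases le_total v.re (5 / 100) with h | h
  · rw [V3_dvG (w := w) rfl hu hc' hc rfl (mid_left hv h) hd hd']
    rcases le_total t (-(51 / 1000)) with h3 | h3
    · have := loA_r hx hx' M W h3 hv.re0 h
      linarith only [h1, this]
    · have := loB_r hx hx' M W h3 hv.re0 h
      linarith only [h2, this]
  · rw [V3_dvL (w := w) rfl hu hc' hc rfl (mid_flat hv h (by linarith only [hl])) hd hd']
    rcases le_total t (-(51 / 1000)) with h3 | h3
    · have := loA hx hx' M W h3 h hl
      linarith only [h1, this]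
    · have := loB hx hx' M W h3 h hl
      linarith only [h2, this]

/-- next to `2` at an end -/
theorem c_lo_C (hx : 6 / 10 ≤ u.re) (hx' : u.re ≤ 65 / 100) (hu : u.im = h65 u.re T)
    (hc : u'.im = T) (hc' : u'.re = 26 / 100) (hv : RH v t (8 / 10) (5 / 100) (5 / 100))
    (M : MC T t) (W : WOl w.re w.im) (hd : v'.re = 44 / 100) (hd' : v'.im = t)
    (hl : v.re ≤ 46 / 100) : 0 < V3 u' v' w - V3 u v w + gC u.re T := by
  have h4 := M.t0
  rcases le_total v.re (5 / 100) with h | h
  · rw [V3_dvG (w := w) rfl hu hc' hc rfl (mid_left hv h) hd hd']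
    rcases le_total t (-(51 / 1000)) with h3 | h3
    · have := loC_r hx hx' M W h3 hv.re0 h
      linarith only [h4, this]
    · have := loD_r hx hx' M W h3 hv.re0 h
      linarith only [this]
  · rw [V3_dvL (w := w) rfl hu hc' hc rfl (mid_flat hv h (by linarith only [hl])) hd hd']
    rcases le_total t (-(51 / 1000)) with h3 | h3
    · have := loC hx hx' M W h3 h hl
      linarith only [h4, this]
    · have := loD hx hx' M W h3 h hl
      linarith only [this]

end V2A.B

namespace SR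

open V2A.B

variable {M : ℕ} {b : Fin (M + 1) → ℤ} {zs : DD (tyW b) ⊕ ZZ (tyW b) → ℂ}
variable {y : DD (tyW b) ⊕ ZZ (tyW b) → ℝ}
variable {h h' : Fin M} {i j k j' : Fin (M + 1)} {p : Fin 3}

/-- Heights of the inner variable of a digit `3` with a digit `1` in the slot `0`; `r` is the region
behind this digit `1`. -/
structure Mid13 (b : Fin (M + 1) → ℤ) (zs : DD (tyW b) ⊕ ZZ (tyW b) → ℂ) : Prop where
  one0 : ∀ {h h' h2 : Fin M} {i j k r : Fin (M + 1)} (hm : (tyW b i).isMid = true),
    Adj h i 0 j → Adj h' i 2 k → Adj h2 j 0 r → clsW b i = .three → clsW b j = .one →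
    clsW b r = .one → -(78 / 1000) ≤ ofs (b i) (zs (.inl (.inr ⟨i, hm⟩))).im
  one1 : ∀ {h h' h2 : Fin M} {i j k r : Fin (M + 1)} (hm : (tyW b i).isMid = true),
    Adj h i 0 j → Adj h' i 2 k → Adj h2 j 0 r → clsW b i = .three → clsW b j = .one →
    clsW b r = .one → -(20 / 1000) ≤ ofs (b j) (zs (.inl (.inl h2))).im →
    -(69 / 1000) ≤ ofs (b i) (zs (.inl (.inr ⟨i, hm⟩))).im
  two0 : ∀ {h h' h2 : Fin M} {i j k r : Fin (M + 1)} (hm : (tyW b i).isMid = true),
    Adj h i 0 j → Adj h' i 2 k → Adj h2 j 0 r → clsW b i = .three → clsW b j = .one →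
    clsW b r = .two → -(58 / 1000) ≤ ofs (b i) (zs (.inl (.inr ⟨i, hm⟩))).im
  two1 : ∀ {h h' h2 : Fin M} {i j k r : Fin (M + 1)} (hm : (tyW b i).isMid = true),
    Adj h i 0 j → Adj h' i 2 k → Adj h2 j 0 r → clsW b i = .three → clsW b j = .one →
    clsW b r = .two → 45 / 1000 ≤ ofs (b j) (zs (.inl (.inl h2))).im →
    -(51 / 1000) ≤ ofs (b i) (zs (.inl (.inr ⟨i, hm⟩))).im

/-- the hinge in the slot `2` of an inner digit `3` -/
theorem Adj.wol (A : Adj h i 2 j) (hb : ClassW b) (hL : Loc b zs) (hy : Mx b zs y)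
    (hF : Flr b y F1) (hi : clsW b i = .three) (hcap : y (.inl (.inl h)) ≤ 39 / 100) :
    WOl (Yw b zs y i 2).re (Yw b zs y i 2).im := by
  have hwok := A.wok hb hL hy hi hcap
  have hre := A.re (b := b) (zs := zs) (y := y)
  refine ⟨⟨?_, hwok.re1, hwok.im0, hwok.im1⟩, ?_⟩
  · rw [hre]
    have := hF A
    rw [hi] at this
    refine le_trans ?_ this
    generalize clsW b j = K
    cases K <;> norm_num [F1]
  · have hop := A.opp hb (Or.inl (by rw [hi]; decide))
    obtain ⟨-, -, h3, -⟩ := A.box hb hL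
    rw [hi, A.ss hop] at h3
    have hrh := A.rh hy
    have hw := hwok.re1
    by_cases hj : clsW b j = .one
    · have e2 : wcr b h = 29 / 100 := by
        rw [A.cr_eq b, hi, hj]
        unfold hpp
        rw [if_pos rfl]
        rfl
      have e3 : wXM b h = 65 / 100 := by
        rw [A.XM_eq b, hi, hj]
        unfold hpp
        rw [if_pos rfl]
        rfl
      rw [hj] at h3
      have t0 : -(1145 / 10000) ≤ ofs (b i) (zs (.inl (.inl h))).im :=
        le_trans (by norm_num [hbox]) h3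
      rw [e2, e3] at hrh
      have h4 : 0 ≤ tr 0 (65 / 100) (wcl b h) (29 / 100) (Yw b zs y i 2).re := le_max_left _ _
      have h5 := V2A.tr_le_right (cl := wcl b h) (by norm_num : (0 : ℝ) < 29 / 100) hrh.reM
      rw [le_div_iff₀ (by norm_num)] at h5
      rw [hrh.im]
      have h6 := mul_le_mul_of_nonneg_right t0 h4
      linarith only [h5, h6]
    · have t0 : -(98 / 1000) ≤ ofs (b i) (zs (.inl (.inl h))).im := by
        refine le_trans ?_ h3
        generalize clsW b j = B at hj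
        cases B <;> first | exact absurd rfl hj | norm_num [hbox]
      have t1 : ofs (b i) (zs (.inl (.inl h))).im ≤ 57 / 1000 := by
        obtain ⟨-, -, -, h4⟩ := A.box hb hL
        rw [hi, A.ss hop] at h4
        refine h4.trans ?_
        generalize clsW b j = B at hj
        cases B <;> norm_num [hbox]
      obtain ⟨c1, -⟩ := MR.RH_im_mem hrh (by norm_num : -(98 / 1000 : ℝ) ≤ 0)
        (by norm_num : (0 : ℝ) ≤ 57 / 1000) t0 t1
      linarith only [hcap, hre, c1]

/-- **`1 | 3`, `x ≥ .60`.** The inner variable is not low. -/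
theorem s0_one_low (hb : ClassW b) (hL : Loc b zs) (hX : LocX b zs) (hN : Mid13 b zs)
    (hy : Mx b zs y) (hF : Flr b y F1) (hS : Sum1 b y (95 / 100)) (A : Adj h i 0 j)
    (A' : Adj h' i 2 k) (hi : clsW b i = .three) (hj : clsW b j = .one)
    (hcap : y (.inl (.inl h')) ≤ 39 / 100)
    (hE : ∀ {h2 : Fin M} {r : Fin (M + 1)}, Adj h2 j 0 r → clsW b r = .twoE →
      159 / 1000 ≤ y (.inl (.inl h2)))
    (hx : 60 / 100 ≤ y (.inl (.inl h))) :
    y (.inl (.inl h)) + 4 / 100 < (OY b zs y i 1).re := by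
  rcases s0_one_mid' hb hX hy hF hS A A' hi hj hx with hcon | hcon
  swap
  · exact hcon
  exfalso
  have hop := A.opp hb (Or.inl (by rw [hi]; decide))
  have A2 : Adj h j 2 i := A.symm
  obtain ⟨q1, q2, q3⟩ := A.par_s0_one hi hj
  have hTj : ofs (b j) (zs (.inl (.inl h))).im = -ofs (b i) (zs (.inl (.inl h))).im :=
    ofs_opp hop _
  have hneg : -ofs (b j) (zs (.inl (.inl h))).im = ofs (b i) (zs (.inl (.inl h))).im := by
    rw [hTj, neg_neg]
  have hre := A.re (b := b) (zs := zs) (y := y)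
  have hre2 := A2.re (b := b) (zs := zs) (y := y)
  have hx' : y (.inl (.inl h)) ≤ 65 / 100 := by
    have := (A.rh hy).reM
    rw [hre, q1] at this
    exact this
  obtain ⟨h2, r, A3⟩ := A2.other_one hb hj
  have A4 : Adj h2 j 0 r := A3
  have hre4 := A4.re (b := b) (zs := zs) (y := y)
  have hsum : y (.inl (.inl h)) + y (.inl (.inl h2)) ≤ 95 / 100 := hS A2 A4 hj
  have hK := A2.k13 hb hX hy hF A4 hi hj (by linarith only [hx, hsum])
  have hk35 : (Yw b zs y j 0).re ≤ 35 / 100 := by
    rw [hre4]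
    linarith only [hx, hsum]
  have hT : -(1145 / 10000) ≤ ofs (b i) (zs (.inl (.inl h))).im ∧
      ofs (b i) (zs (.inl (.inl h))).im ≤ -(21 / 1000) := by
    rw [← hneg]
    rcases hK with K | K | K
    · have := K.T0
      have := K.T1
      constructor <;> linarith
    · have := K.T0
      have := K.T1
      constructor <;> linarith
    · have := K.T0
      have := K.T1
      constructor <;> linarith
  have hM := mok_one hX A A' hi hj hT.1 hT.2
  have m1 := hM.t1
  have m2 := hM.s0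
  have m3 := hM.s1
  have hW := A'.wol hb hL hy hF hi hcap
  have hv := rh_three hy hi
  have hdV : ∀ z : ℂ, OV b j (Function.update (OY b zs y j) (0 : Fin 3).rev z) -
      OV b j (OY b zs y j) = V1 z (Yw b zs y j 0) - V1 (Yw b zs y j 2) (Yw b zs y j 0) := by
    intro z
    have e := dV_one hb A2 hj (OY b zs y j) z
    have e0 : OY b zs y j (2 : Fin 3).rev = Yw b zs y j 0 := OY_zero j
    rw [OY_two, e0] at e
    exact e
  have hk0 : (Yw b zs y j 2).re + (Yw b zs y j 0).re ≤ 95 / 100 := by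
    rw [hre2, hre4]
    exact hsum
  have hpt : ∀ (s : ℤ) {c : ℝ}, 13 / 100 ≤ c → c ≤ 1 / 2 →
      (pw b zs s h c).re = c ∧ (pw b zs s h c).im = ofs s (zs (.inl (.inl h))).im :=
    fun s c h0 h1 => pw_flat' (zs := zs) s h (by rw [q3]; exact h0) (by rw [q1, q2]; linarith only [h1])
  have hu := A.h65 hy q1 q2 q3 (by linarith only [hx])
  have hu2 := A2.h65 hy q1 q2 q3 (by linarith only [hx])
  obtain ⟨c1, c2⟩ := hpt (b i) (c := 28 / 100) (by norm_num) (by norm_num)
  obtain ⟨c3, c4⟩ := hpt (b j) (c := 28 / 100) (by norm_num) (by norm_num)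
  -- next to `1` or `2`
  have finA : ∀ {τ : ℝ}, -(94 / 1000) ≤ ofs (b i) (zs (.inl (.inl h))).im →
      -(78 / 1000) ≤ tW zs (Or.inl hi) → τ ≤ 32 / 10 * (tW zs (Or.inl hi) + 78 / 1000) →
      τ ≤ 864 / 10000 →
      gA (y (.inl (.inl h))) (-ofs (b j) (zs (.inl (.inl h))).im) - τ <
        dvB (28 / 100) (ofs (b j) (zs (.inl (.inl h))).im) (Yw b zs y j 2).re
          (V2A.B.h65 (Yw b zs y j 2).re (ofs (b j) (zs (.inl (.inl h))).im))
          (Yw b zs y j 0).re (Yw b zs y j 0).im → False := by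
    intro τ a1 a2 a3 a4 a5
    have h3 := c_lo_A (u := Yw b zs y i 0) (v := OY b zs y i 1)
      (v' := vW zs (Or.inl hi) (42 / 100)) (w := Yw b zs y i 2)
      (by rw [hre]; linarith only [hx]) (by rw [hre]; exact hx') hu c2 c1 hv
      ⟨a1, hT.2, a2, m1, m2, m3⟩ hW (vW_re (Or.inl hi) (42 / 100))
      (vW_three hi (by norm_num) (by norm_num)) hcon.le a3 a4
    have h4 := mopt_three (b := b) (zs := zs) hi (c := 42 / 100) (by norm_num) (by norm_num)
      (Function.update (OY b zs y i) 0 (pw b zs (b i) h (28 / 100)))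
    have h6 := val_hm hb hy A (c := 28 / 100) (by norm_num) (by rw [q1]; norm_num) h4
      (MOpt.same _ _)
    have h7 := hdV (pw b zs (b j) h (28 / 100))
    rw [hneg, ← V1_dvB rfl hu2 c3 c4] at a5
    rw [OV_move hb hi, OV_three hb hi, OY_zero, OY_two] at h6
    rw [hre] at h3
    linarith only [hi, a5, h3, h6, h7]
  have hok := okp_of hb A2 A4 hj
  rw [hi] at hok
  obtain ⟨t0, t1, s0, s1⟩ := hX.win A2 A4 hj
  obtain ⟨t2, t3, -, -⟩ := hX.win A4 A2 hj
  have hrh := A4.rh hy
  have hfl := hF A4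
  have e1 := A4.XM_eq b
  have e2 := A4.cl_eq b
  have e3 := A4.cr_eq b
  unfold hpp at e1 e2 e3
  rw [if_neg (by decide), hj] at e1 e2 e3
  rw [hi] at t0 t1 s0 s1 t2 t3
  rw [hj] at hfl
  rcases hok with hok | hok
  · simp at hok
  rcases hok with hc | hc | hc
  · -- `1`
    rw [hc] at t0 t1 s0 s1 t2 t3 e1 e2 e3 hfl
    have e1' : 80 / 100 ≤ wXM b h2 := by
      rw [e1]; unfold hp; dsimp only; split_ifs <;> norm_num
    have e2' : wcl b h2 = 15 / 100 := by
      rw [e2]; unfold hp; dsimp only; split_ifs <;> rfl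
    have e3' : wcr b h2 = 20 / 100 := by
      rw [e3]; unfold hp; dsimp only; split_ifs <;> rfl
    rw [e2', e3'] at hrh
    have u0 : 21 / 1000 ≤ ofs (b j) (zs (.inl (.inl h))).im := le_trans (by norm_num [cw]) t0
    have u1 : ofs (b j) (zs (.inl (.inl h))).im ≤ 92 / 1000 := t1.trans (by norm_num [cw])
    have u2 : ofs (b j) (zs (.inl (.inl h))).im + ofs (b j) (zs (.inl (.inl h2))).im ≤
        111 / 1000 := s1.trans (by norm_num [cw])
    have u3 : -(22 / 1000) ≤ ofs (b j) (zs (.inl (.inl h))).im +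
        ofs (b j) (zs (.inl (.inl h2))).im := le_trans (by norm_num [cw]) s0
    have u4 : 125 / 1000 ≤ (Yw b zs y j 0).re := by
      rw [hre4]
      exact le_trans (by norm_num [F1]) hfl
    have u5 : -(91 / 1000) ≤ ofs (b j) (zs (.inl (.inl h2))).im := le_trans (by norm_num [cw]) t2
    have u6 : ofs (b j) (zs (.inl (.inl h2))).im ≤ 49 / 1000 := t3.trans (by norm_num [cw])
    have K : KA (ofs (b j) (zs (.inl (.inl h))).im) (Yw b zs y j 0).re (Yw b zs y j 0).im := by
      obtain ⟨-, d2⟩ := hrh.im_low (by norm_num) (by norm_num : (0 : ℝ) ≤ 91 / 150)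
        (by norm_num : (0 : ℝ) ≤ 49 / 150) (by linarith only [u5]) (by linarith only [u6])
      obtain ⟨d3, d4⟩ := MR.RH_im_mem hrh (by norm_num : -(91 / 1000 : ℝ) ≤ 0)
        (by norm_num : (0 : ℝ) ≤ 49 / 1000) u5 u6
      have r0 : 0 ≤ tr 0 (wXM b h2) (15 / 100) (20 / 100) (Yw b zs y j 0).re := le_max_left _ _
      have r1 : tr 0 (wXM b h2) (15 / 100) (20 / 100) (Yw b zs y j 0).re ≤ 1 := tr_one'
      have e := hrh.im
      refine ⟨u0, u1, u4, d3, d4, by linarith only [d2], ?_, ?_⟩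
      · rw [e]
        have f1 := mul_nonneg r0 (by linarith only [u3] : (0 : ℝ) ≤ ofs (b j) (zs (.inl (.inl h))).im +
          ofs (b j) (zs (.inl (.inl h2))).im + 22 / 1000)
        have f2 := mul_nonneg (by linarith only [r1] : (0 : ℝ) ≤
          1 - tr 0 (wXM b h2) (15 / 100) (20 / 100) (Yw b zs y j 0).re)
          (by linarith only [hTj, hT] : (0 : ℝ) ≤ ofs (b j) (zs (.inl (.inl h))).im)
        linarith only [r1, f1, f2]
      · rw [e]
        have f1 := mul_nonneg r0 (by linarith only [u2] : (0 : ℝ) ≤ 111 / 1000 -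
          (ofs (b j) (zs (.inl (.inl h))).im + ofs (b j) (zs (.inl (.inl h2))).im))
        have f2 := mul_nonneg (by linarith only [r1] : (0 : ℝ) ≤
          1 - tr 0 (wXM b h2) (15 / 100) (20 / 100) (Yw b zs y j 0).re)
          (by linarith only [u1] : (0 : ℝ) ≤ 111 / 1000 - ofs (b j) (zs (.inl (.inl h))).im)
        linarith only [f1, f2]
    obtain ⟨v1, v2, v3⟩ := tk_one hrh e1' u0 u1 u2 u4 hk35
    have n0 : -(78 / 1000) ≤ tW zs (Or.inl hi) :=
      hN.one0 (tyW_isMid (Or.inl hi)) A A' A4 hi hj hc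
    rcases le_total (ofs (b j) (zs (.inl (.inl h2))).im) (-(20 / 1000)) with h5 | h5
    · have := lk_a (x := (Yw b zs y j 2).re) (by rw [hre2]; linarith only [hx]) (by rw [hre2]; exact hx')
        K v1 hk0 (v2 h5)
      rw [hre2] at this
      refine finA (τ := 0) (by linarith only [hTj, u1]) n0 (by linarith only [hi, n0]) (by norm_num) ?_
      rw [sub_zero, hre2]
      exact this
    · have := lk_b (x := (Yw b zs y j 2).re) (by rw [hre2]; linarith only [hx]) (by rw [hre2]; exact hx')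
        K v1 hk0 (v3 h5)
      have n1 : -(69 / 1000) ≤ tW zs (Or.inl hi) :=
        hN.one1 (tyW_isMid (Or.inl hi)) A A' A4 hi hj hc h5
      rw [hre2] at this
      refine finA (τ := 288 / 10000) (by linarith only [hTj, u1]) n0 (by linarith only [hi, n1]) (by norm_num) ?_
      rw [hre2]
      exact this
  · -- `2`
    rw [hc] at t0 t1 s0 s1 t2 t3 e1 e2 e3 hfl
    have e1' : wXM b h2 = 80 / 100 := by rw [e1]; rfl
    have e2' : wcl b h2 = 16 / 100 := by rw [e2]; rfl
    have e3' : wcr b h2 = 29 / 100 := by rw [e3]; rfl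
    rw [e1', e2', e3'] at hrh
    have u0 : 46 / 1000 ≤ ofs (b j) (zs (.inl (.inl h))).im := le_trans (by norm_num [cw]) t0
    have u1 : ofs (b j) (zs (.inl (.inl h))).im ≤ 94 / 1000 := t1.trans (by norm_num [cw])
    have u4 : 150 / 1000 ≤ (Yw b zs y j 0).re := by
      rw [hre4]
      exact le_trans (by norm_num [F1]) hfl
    have u5 : 10 / 1000 ≤ ofs (b j) (zs (.inl (.inl h2))).im := le_trans (by norm_num [cw]) t2
    have u6 : ofs (b j) (zs (.inl (.inl h2))).im ≤ 77 / 1000 := t3.trans (by norm_num [cw])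
    have K : KB (ofs (b j) (zs (.inl (.inl h))).im) (Yw b zs y j 0).re (Yw b zs y j 0).im :=
      kb_of hrh u0 u1 u5 u6 (le_trans (by norm_num [cw]) s0) (s1.trans (by norm_num [cw])) u4
        (by linarith only [hx, hre4, hsum])
    obtain ⟨v1, v2⟩ := tk_two hrh u4 hk35
    have n0 : -(58 / 1000) ≤ tW zs (Or.inl hi) :=
      hN.two0 (tyW_isMid (Or.inl hi)) A A' A4 hi hj hc
    rcases le_total (ofs (b j) (zs (.inl (.inl h2))).im) (45 / 1000) with h5 | h5
    · have := lk_c (x := (Yw b zs y j 2).re) (by rw [hre2]; linarith only [hx]) (by rw [hre2]; exact hx')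
        K hk0 (v1 h5)
      rw [hre2] at this
      refine finA (τ := 64 / 1000) (by linarith only [hTj, u1]) (by linarith only [hi, n0]) (by linarith only [hi, n0]) (by norm_num) ?_
      rw [hre2]
      exact this
    · have := lk_d (x := (Yw b zs y j 2).re) (by rw [hre2]; linarith only [hx]) (by rw [hre2]; exact hx')
        K hk0 (v2 h5)
      have n1 : -(51 / 1000) ≤ tW zs (Or.inl hi) :=
        hN.two1 (tyW_isMid (Or.inl hi)) A A' A4 hi hj hc h5
      rw [hre2] at this
      refine finA (τ := 864 / 10000) (by linarith only [hTj, u1]) (by linarith only [hi, n0]) (by linarith only [hi, n1]) le_rfl ?_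
      rw [hre2]
      exact this
  · -- `2` at an end
    rw [hc] at t0 t1 s0 s1 t2 t3 e1 e2 e3 hfl
    have e1' : wXM b h2 = 70 / 100 := by rw [e1]; rfl
    have e2' : wcl b h2 = 14 / 100 := by rw [e2]; rfl
    have e3' : wcr b h2 = 35 / 100 := by rw [e3]; rfl
    rw [e1', e2', e3'] at hrh
    have u4 : 159 / 1000 ≤ (Yw b zs y j 0).re := by
      rw [hre4]
      exact hE A4 hc
    have v1 := tk_twoE hrh (by linarith only [u4]) hk35
    obtain ⟨d1, d2⟩ := hpt (b i) (c := 26 / 100) (by norm_num) (by norm_num)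
    obtain ⟨d3, d4⟩ := hpt (b j) (c := 26 / 100) (by norm_num) (by norm_num)
    have u0 : 87 / 1000 ≤ ofs (b j) (zs (.inl (.inl h))).im := le_trans (by norm_num [cw]) t0
    have u1 : ofs (b j) (zs (.inl (.inl h))).im ≤ 1145 / 10000 := t1.trans (by norm_num [cw])
    have ho := lk_e (x := (Yw b zs y j 2).re) (h := (Yw b zs y j 0).im) (by rw [hre2]; linarith only [hx])
      (by rw [hre2]; exact hx') u0 u1 u4 hk0 (by rw [v1]; exact le_trans (by norm_num [cw]) t2)
      (by rw [v1]; exact t3.trans (by norm_num [cw]))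
      (by rw [v1]; exact le_trans (by norm_num [cw]) s0)
      (by rw [v1]; exact s1.trans (by norm_num [cw]))
    have m0 := hM.t0
    have h3 := c_lo_C (u := Yw b zs y i 0) (v := OY b zs y i 1)
      (v' := vW zs (Or.inl hi) (44 / 100)) (w := Yw b zs y i 2)
      (by rw [hre]; linarith only [hx]) (by rw [hre]; exact hx') hu d2 d1 hv
      ⟨hT.1, by linarith only [hTj, u0], m0, m1, m2, m3⟩ hW (vW_re (Or.inl hi) (44 / 100))
      (vW_three hi (by norm_num) (by norm_num)) hcon.le
    have h4 := mopt_three (b := b) (zs := zs) hi (c := 44 / 100) (by norm_num) (by norm_num)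
      (Function.update (OY b zs y i) 0 (pw b zs (b i) h (26 / 100)))
    have h6 := val_hm hb hy A (c := 26 / 100) (by norm_num) (by rw [q1]; norm_num) h4
      (MOpt.same _ _)
    have h7 := hdV (pw b zs (b j) h (26 / 100))
    rw [hneg, ← V1_dvB rfl hu2 d3 d4, hre2] at ho
    rw [OV_move hb hi, OV_three hb hi, OY_zero, OY_two] at h6
    rw [hre] at h3
    linarith only [hi, ho, h3, h6, h7]

end SR

end Pool.Agent.Work.MP_b30479_gt.G2
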