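import Pool.Agent.Work.MP_b30479_gt.G2.V2BLo
import Pool.Agent.Work.MP_b30479_gt.G2.V2BOne

/-!
# Value moves of the hinge `1 | 3` for `x ≥ .60`, low inner variable: the digit `1`
-/

namespace Pool.Agent.Work.MP_b30479_gt.G2

open VOL NumU

namespace V2A.B

open NumU.E

def eA' : List E :=
  sub (add (mul (q 1000 1) (mul vT vl)) (mul (q 150 1) vt)) (mul (q 111 1) vl) :: eA

section
open NumI (V)

theorem lk_a_1 : chkT (OB (q 28 100) ex65 (fq (-18085) 150 (-1746) 9884 (-1863) (-6947) 620 60) (-220) 1110 eA') 60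
    54458427563840031457314
    [V.of 10000 6000 6500, V.of 10000 210 920, V.of 10000 1250 3500, V.of 10000 (-910) (-166)] = true := by
  decide +kernel

theorem lk_b_1 : chkT (OB (q 28 100) ex65 (sub (fq (-18085) 150 (-1746) 9884 (-1863) (-6947) 620 60) (q 288 10000)) (-220) 1110 eA') 60
    13013081622577536333254540027616741084838377843366213831130568372075716875531312825332827507663387911012971883263621430488085381380393230448179018619744334342331463654131319883239459284313953650108216511444479266081413399222528043842797949545256286212926445384067944722111895033484805445599043281509206313957699816400029316995143801412932463308429977005973384500613154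
    [V.of 10000 6000 6500, V.of 10000 210 920, V.of 10000 1250 3500, V.of 10000 (-200) 490] = true := by
  decide +kernel

theorem lk_c_1 : chkT (OB (q 28 100) ex65 (sub (fq (-18085) 150 (-1746) 9884 (-1863) (-6947) 620 60) (q 64 1000)) 740 1480 eB) 60
    828805819893579810
    [V.of 10000 6000 6500, V.of 10000 460 940, V.of 10000 1500 3500, V.of 10000 89 450] = true := by
  decide +kernel

theorem lk_d_1 : chkT (OB (q 28 100) ex65 (sub (fq (-18085) 150 (-1746) 9884 (-1863) (-6947) 620 60) (q 864 10000)) 740 1480 eB) 60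
    15288768846377928382175494719300337698
    [V.of 10000 6000 6500, V.of 10000 460 940, V.of 10000 1500 3500, V.of 10000 421 770] = true := by
  decide +kernel

theorem lk_e_1 : chkT (OB (q 26 100) ex65 (fq (-22173) 373 (-1873) (-862) 35621 2101 620 100) 510 770 []) 60
    3916572937110826522425762560134332186658
    [V.of 10000 6000 6500, V.of 10000 870 1145, V.of 10000 1590 3500, V.of 10000 (-450) (-250)] = true := by
  decide +kernel

end

variable {x T k h : ℝ}

theorem eA'_ok (K : KA T k h) (h0 : 1000 * (T * k) + 150 * h ≤ 111 * k) :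
    ∀ e ∈ eA', e.val [x, T, k, h] ≤ 0 := by
  have e1 : vl.val [x, T, k, h] = k := rfl
  have e2 : vt.val [x, T, k, h] = h := rfl
  have e4 : vT.val [x, T, k, h] = T := rfl
  refine all_cons ?_ (eA_ok K)
  simp only [E.val, e1, e2, e4]
  push_cast
  linarith only [h0]

theorem fq_sub_val {a0 a1 a2 a3 a4 a5 x0 t0 c : ℤ} {n : ℕ} :
    (sub (fq a0 a1 a2 a3 a4 a5 x0 t0) (q c n)).val [x, T, k, h] =
      gq a0 a1 a2 a3 a4 a5 x0 t0 x (-T) - c / n := by
  have e := fq_val (a0 := a0) (a1 := a1) (a2 := a2) (a3 := a3) (a4 := a4) (a5 := a5) (x0 := x0)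
    (t0 := t0) (x := x) (T := T) (r := [k, h])
  show E.val _ _ - E.val _ _ = _
  rw [e]
  rfl

/-- next to a digit `1`, height at most `-.02` -/
theorem lk_a (hx : 6 / 10 ≤ x) (hx' : x ≤ 65 / 100) (K : KA T k h)
    (h0 : 1000 * (T * k) + 150 * h ≤ 111 * k) (hk : x + k ≤ 95 / 100)
    (hh : h ≤ -(166 / 10000)) : gA x (-T) < dvB (28 / 100) T x (h65 x T) k h := by
  have hc : (q 28 100).val [x, T, k, h] = 28 / 100 := by norm_num [E.val]
  have t0 := K.T0
  have t1 := K.T1
  have k0 := K.k0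
  have h2 := K.h0
  have h1 := K.h1
  have s0 := K.s0
  have s1 := K.s1
  exact one_row (c := q 28 100) (hx := ex65) (g := fq (-18085) 150 (-1746) 9884 (-1863) (-6947) 620 60)
    (s0 := -220) (s1 := 1110) (es := eA') hc ex65_val fq_val
    (by push_cast; linarith only [s0]) (by push_cast; linarith only [hh, t1]) hk (eA'_ok K h0)
    (use4 lk_a_1 (by norm_num) (by
      refine ⟨⟨?_, ?_⟩, ⟨?_, ?_⟩, ⟨?_, ?_⟩, ⟨?_, ?_⟩⟩ <;>
        push_cast <;> linarith only [hx, hx', t0, t1, k0, hk, h2, hh]))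

/-- next to a digit `1`, height at least `-.02` -/
theorem lk_b (hx : 6 / 10 ≤ x) (hx' : x ≤ 65 / 100) (K : KA T k h)
    (h0 : 1000 * (T * k) + 150 * h ≤ 111 * k) (hk : x + k ≤ 95 / 100)
    (hh : -(20 / 1000) ≤ h) : gA x (-T) - 288 / 10000 < dvB (28 / 100) T x (h65 x T) k h := by
  have hc : (q 28 100).val [x, T, k, h] = 28 / 100 := by norm_num [E.val]
  have t0 := K.T0
  have t1 := K.T1
  have k0 := K.k0
  have h2 := K.h0
  have h1 := K.h1
  have s0 := K.s0
  have s1 := K.s1
  have := one_row (c := q 28 100) (hx := ex65) (g := sub (fq (-18085) 150 (-1746) 9884 (-1863) (-6947) 620 60) (q 288 10000))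
    (s0 := -220) (s1 := 1110) (es := eA') hc ex65_val fq_sub_val
    (by push_cast; linarith only [hh, t0]) (by push_cast; linarith only [s1]) hk (eA'_ok K h0)
    (use4 lk_b_1 (by norm_num) (by
      refine ⟨⟨?_, ?_⟩, ⟨?_, ?_⟩, ⟨?_, ?_⟩, ⟨?_, ?_⟩⟩ <;>
        push_cast <;> linarith only [hx, hx', t0, t1, k0, hk, hh, h1]))
  push_cast at this
  exact this

/-- next to a digit `2`, height at most `.045` -/
theorem lk_c (hx : 6 / 10 ≤ x) (hx' : x ≤ 65 / 100) (K : KB T k h) (hk : x + k ≤ 95 / 100)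
    (hh : h ≤ 45 / 1000) : gA x (-T) - 64 / 1000 < dvB (28 / 100) T x (h65 x T) k h := by
  have hc : (q 28 100).val [x, T, k, h] = 28 / 100 := by norm_num [E.val]
  have t0 := K.T0
  have t1 := K.T1
  have k0 := K.k0
  have h0 := K.h0
  have h1 := K.h1
  have s0 := K.s0
  have s1 := K.s1
  have := one_row (c := q 28 100) (hx := ex65) (g := sub (fq (-18085) 150 (-1746) 9884 (-1863) (-6947) 620 60) (q 64 1000))
    (s0 := 740) (s1 := 1480) (es := eB) hc ex65_val fq_sub_val
    (by push_cast; linarith only [s0]) (by push_cast; linarith only [hh, t1]) hk (eB_ok K)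
    (use4 lk_c_1 (by norm_num) (by
      refine ⟨⟨?_, ?_⟩, ⟨?_, ?_⟩, ⟨?_, ?_⟩, ⟨?_, ?_⟩⟩ <;>
        push_cast <;> linarith only [hx, hx', t0, t1, k0, hk, h0, hh]))
  push_cast at this
  exact this

/-- next to a digit `2`, height at least `.045` -/
theorem lk_d (hx : 6 / 10 ≤ x) (hx' : x ≤ 65 / 100) (K : KB T k h) (hk : x + k ≤ 95 / 100)
    (hh : 421 / 10000 ≤ h) : gA x (-T) - 864 / 10000 < dvB (28 / 100) T x (h65 x T) k h := by
  have hc : (q 28 100).val [x, T, k, h] = 28 / 100 := by norm_num [E.val]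
  have t0 := K.T0
  have t1 := K.T1
  have k0 := K.k0
  have h0 := K.h0
  have h1 := K.h1
  have s0 := K.s0
  have s1 := K.s1
  have := one_row (c := q 28 100) (hx := ex65) (g := sub (fq (-18085) 150 (-1746) 9884 (-1863) (-6947) 620 60) (q 864 10000))
    (s0 := 740) (s1 := 1480) (es := eB) hc ex65_val fq_sub_val
    (by push_cast; linarith only [hh, t0]) (by push_cast; linarith only [s1]) hk (eB_ok K)
    (use4 lk_d_1 (by norm_num) (by
      refine ⟨⟨?_, ?_⟩, ⟨?_, ?_⟩, ⟨?_, ?_⟩, ⟨?_, ?_⟩⟩ <;>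
        push_cast <;> linarith only [hx, hx', t0, t1, k0, hk, hh, h1]))
  push_cast at this
  exact this

/-- next to a digit `2` at an end -/
theorem lk_e (hx : 6 / 10 ≤ x) (hx' : x ≤ 65 / 100) (t0 : 87 / 1000 ≤ T)
    (t1 : T ≤ 1145 / 10000) (k0 : 159 / 1000 ≤ k) (hk : x + k ≤ 95 / 100)
    (h0 : -(45 / 1000) ≤ h) (h1 : h ≤ -(25 / 1000)) (s0 : 51 / 1000 ≤ T + h)
    (s1 : T + h ≤ 77 / 1000) : gC x (-T) < dvB (26 / 100) T x (h65 x T) k h := by
  have hc : (q 26 100).val [x, T, k, h] = 26 / 100 := by norm_num [E.val]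
  exact one_row (c := q 26 100) (hx := ex65) (g := fq (-22173) 373 (-1873) (-862) 35621 2101 620 100)
    (s0 := 510) (s1 := 770) (es := []) hc ex65_val fq_val
    (by push_cast; linarith only [s0]) (by push_cast; linarith only [s1]) hk all_nil
    (use4 lk_e_1 (by norm_num) (by
      refine ⟨⟨?_, ?_⟩, ⟨?_, ?_⟩, ⟨?_, ?_⟩, ⟨?_, ?_⟩⟩ <;>
        push_cast <;> linarith only [hx, hx', t0, t1, k0, hk, h0, h1]))

end V2A.B

end Pool.Agent.Work.MP_b30479_gt.G2
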