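import Pool.Agent.Work.MP_b30479_gt.G2.V2BBase
import Pool.Agent.Work.NumU.TreeS

/-!
# Value moves of the hinge `1 | 3`: the inner digit `3`, the inner variable stays
-/

namespace Pool.Agent.Work.MP_b30479_gt.G2

open VOL NumU

namespace V2A.B

open NumU.E

/-- heights of the hinge `1 | 3` and of the inner variable, in the frame of the `3` -/
structure MOk (T t : ℝ) : Prop where
  T0 : -(1145 / 10000) ≤ T
  T1 : T ≤ -(21 / 1000)
  t0 : -(90 / 1000) ≤ t
  t1 : t ≤ 5 / 1000
  s0 : -(45 / 1000) ≤ t - T
  s1 : t - T ≤ 84 / 1000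

/-- the window of `t - T`, the range of the inner variable -/
def eM (l0 l1 : ℤ) : List E :=
  [sub (sub vt vT) (q 84 1000), sub (q (-45) 1000) (sub vt vT), sub (q l0 10000) vxs,
    sub vxs (q l1 10000)]

theorem eM_ok {x T s t : ℝ} {l0 l1 : ℤ} (M : MOk T t) (h0 : (l0 : ℝ) / 10000 ≤ x + s)
    (h1 : x + s ≤ l1 / 10000) : ∀ e ∈ eM l0 l1, e.val [x, T, s, t] ≤ 0 := by
  have e2 : vxs.val [x, T, s, t] = x + s := rfl
  have e3 : vt.val [x, T, s, t] = t := rfl
  have e4 : vT.val [x, T, s, t] = T := rfl
  have s0 := M.s0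
  have s1 := M.s1
  refine all_cons ?_ (all_cons ?_ (all_cons ?_ (all_cons ?_ all_nil)))
  · simp only [E.val, e3, e4]
    push_cast
    linarith only [s1]
  · simp only [E.val, e3, e4]
    push_cast
    linarith only [s0]
  · simp only [E.val, e2]
    push_cast
    linarith only [h0]
  · simp only [E.val, e2]
    push_cast
    linarith only [h1]

theorem h65_mem {x T : ℝ} (hx : 1 / 2 ≤ x) (hx' : x ≤ 65 / 100) (hT : T ≤ 0) :
    T ≤ h65 x T ∧ h65 x T ≤ 0 := by
  unfold h65
  have r0 : 0 ≤ 13 / 3 - 20 / 3 * x := by linarith only [hx']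
  have r1 : 13 / 3 - 20 / 3 * x ≤ 1 := by linarith only [hx]
  constructor
  · have := mul_le_mul_of_nonneg_left r1 (by linarith only [hT] : 0 ≤ -T)
    linarith only [this]
  · have := mul_nonneg (by linarith only [hT] : 0 ≤ -T) r0
    linarith only [this]

theorem MOk.flat {T t : ℝ} (M : MOk T t) : |t - T| ≤ 13 / 100 := by
  have s0 := M.s0
  have s1 := M.s1
  rw [abs_le]
  constructor <;> linarith only [s0, s1]

theorem MOk.ramp {x T t : ℝ} (M : MOk T t) (hx : 1 / 2 ≤ x) (hx' : x ≤ 65 / 100) :
    |t - h65 x T| ≤ 13 / 100 := by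
  have s0 := M.s0
  have s1 := M.s1
  have t0 := M.t0
  have t1 := M.t1
  obtain ⟨m1, m2⟩ := h65_mem hx hx' (by linarith only [s0, t1, M, M.T1] : T ≤ 0)
  rw [abs_le]
  constructor <;> linarith only [t0, m2, s1, m1]

section
open NumI (V)

theorem st_I_1 : chkT (S1 (q 34 100) vT (eq (-5650) (-270) 0 0 0 0 500 0) (eM 3800 5400)) 60
    21626759580114004998159972259764371234684532707241315631983149599616315090915524285272232281452427137877219047086233524997098628535086098659152251525884602648790151159662864349306782134558398588389128267081525619810760578179909187676230259195506798912071596512524294402643921547570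
    [V.of 10000 4100 5000, V.of 10000 (-1145) (-210), V.of 10000 (-1200) (-100), V.of 10000 (-900) 50] = true := by
  decide +kernel

theorem st_I_2 : chkT (S2 (q 34 100) vT (eq (-5650) (-270) 0 0 0 0 500 0) (eM 3800 5400)) 60
    692273367595041498477761170279231716047932540190643660953977493596886157528226116766964470305635731151812192164776752422185510915772594269461536726314960832283003720850820036027361173997784779668726027453180147814620483675643078295873410960073891803813966442827684377034260914223013549656105889230743180513180996085295897349530838729855006969263158606657943777901125712323895072260402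
    [V.of 10000 4100 5000, V.of 10000 (-1145) (-210), V.of 10000 (-1200) (-100), V.of 10000 (-900) 50] = true := by
  decide +kernel

theorem st_I_3 : chkT (S3 (q 34 100) vT (eq (-5650) (-270) 0 0 0 0 500 0) (eM 3800 5400)) 60
    9352434092051
    [V.of 10000 4100 5000, V.of 10000 (-1145) (-210), V.of 10000 (-100) 0, V.of 10000 (-900) 50] = true := by
  decide +kernel

theorem st_I_4 : chkT (S4 (q 34 100) vT (eq (-5650) (-270) 0 0 0 0 500 0) (eM 3800 5400)) 60
    612634171659550769
    [V.of 10000 4100 5000, V.of 10000 (-1145) (-210), V.of 10000 (-100) 0, V.of 10000 (-900) 50] = true := by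
  decide +kernel

theorem st_I_5 : chkT (S5 (q 34 100) vT (eq (-5650) (-270) 0 0 0 0 500 0) (eM 3800 5400)) 60
    2897094959818679090332335370314006933779
    [V.of 10000 4100 5000, V.of 10000 (-1145) (-210), V.of 10000 0 100, V.of 10000 (-900) 50] = true := by
  decide +kernel

theorem st_I_6 : chkT (S6 (q 34 100) vT (eq (-5650) (-270) 0 0 0 0 500 0) (eM 3800 5400)) 60
    304679757260773739184554194755211643180859285667195923082053024407247469344703086081628436272007361933618
    [V.of 10000 4100 5000, V.of 10000 (-1145) (-210), V.of 10000 100 400, V.of 10000 (-900) 50] = true := by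
  decide +kernel

theorem st_34_1_q1 : Pool.Agent.Work.NumU.runT (S1 (q 34 100) ex65 (eq (-6000) (-1301) 299 (-16249) 16698 940 500 70) (eM 3800 5600)) 58
    9300907945457497284039340568666758845308996624658155918483064287989248517323659206124418820986905700214618547863232351943821494793020796400574967323796070837144588175695772567253988915802754849759650101268076978743063014004455419607855576506945466822171668541799242364743330268396978268715453271990362929910956148880940306275669530086877001452668669785996466983919003616348093559416851722769432565482536596581772870424140478389177004266690149736680726034654639139396026164029406888882950455799502786777542439026535571882575090361379327008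
    (Pool.Agent.Work.NumI.setL 2 (Pool.Agent.Work.NumI.setL 2 ([V.of 10000 5000 6000, V.of 10000 (-1145) (-210), V.of 10000 (-2200) (-100), V.of 10000 (-900) 50]))) =
    8350030638743666904474154461355580292981797603002597762491561646911374819333050950883331134992842701331911484586474275939012922885843332293716144454487729602535388443805664525284793932225542240221577255411243298072625960716129263090798696686980176060063153363800768438016516023454312237714660744377372243119932488535629597702563693816545720453046305 := by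
  decide +kernel

theorem st_34_1_q2 : Pool.Agent.Work.NumU.runT (S1 (q 34 100) ex65 (eq (-6000) (-1301) 299 (-16249) 16698 940 500 70) (eM 3800 5600)) 58
    8350030638743666904474154461355580292981797603002597762491561646911374819333050950883331134992842701331911484586474275939012922885843332293716144454487729602535388443805664525284793932225542240221577255411243298072625960716129263090798696686980176060063153363800768438016516023454312237714660744377372243119932488535629597702563693816545720453046304
    (Pool.Agent.Work.NumI.setR 2 (Pool.Agent.Work.NumI.setL 2 ([V.of 10000 5000 6000, V.of 10000 (-1145) (-210), V.of 10000 (-2200) (-100), V.of 10000 (-900) 50]))) =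
    222213094516300878091030203562152660132271535928172083936009723639295492553438588067380035063658422330714315678099490759249075015927321620002759174474870758983604046804452107513305294649685646255839211974857934296351039672299297629502714115 := by
  decide +kernel

theorem st_34_1_q3 : Pool.Agent.Work.NumU.runT (S1 (q 34 100) ex65 (eq (-6000) (-1301) 299 (-16249) 16698 940 500 70) (eM 3800 5600)) 59
    222213094516300878091030203562152660132271535928172083936009723639295492553438588067380035063658422330714315678099490759249075015927321620002759174474870758983604046804452107513305294649685646255839211974857934296351039672299297629502714114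
    (Pool.Agent.Work.NumI.setR 2 ([V.of 10000 5000 6000, V.of 10000 (-1145) (-210), V.of 10000 (-2200) (-100), V.of 10000 (-900) 50])) =
    1 := by
  decide +kernel

theorem st_34_1 : chkT (S1 (q 34 100) ex65 (eq (-6000) (-1301) 299 (-16249) 16698 940 500 70) (eM 3800 5600)) 60
    2381032434037119304714071185578690264399103135912487915131664457725247620434856756767851218172647859254942348252987482097618302667013323878547191634891794134309014572978117777217021162445505241538470425924627706558224131585140587419611027585778039506475947146700606045374292548709626436791156037629532910057204774113520718406571399702240512371883179465215095547883264925785111951210714041028974736763529368724933854828579962467629313092272678332590265864871587619685382697991528163554035316684672713415050864390793106401939223132513107714082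
    [V.of 10000 5000 6000, V.of 10000 (-1145) (-210), V.of 10000 (-2200) (-100), V.of 10000 (-900) 50] = true :=
      Pool.Agent.Work.NumU.chkT_of (Pool.Agent.Work.NumU.runT_split rfl rfl rfl
        (Pool.Agent.Work.NumU.runT_split rfl rfl rfl
          st_34_1_q1
          st_34_1_q2)
        st_34_1_q3)

theorem st_34_2_q1 : Pool.Agent.Work.NumU.runT (S2 (q 34 100) ex65 (eq (-6000) (-1301) 299 (-16249) 16698 940 500 70) (eM 3800 5600)) 59
    168779419589873433938788094662569408031843389201830754389700736809757285909005346127394306286947820777065555493930025129331575170778981025337006360769254721188263572230547860977247565753500468776939823126135767499751485352559838419262037594303137244129717427195043620299167340146407873863132936240836344920373944523875502688789925863465885733463196711239462747983969381280546603522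
    (Pool.Agent.Work.NumI.setL 2 ([V.of 10000 5000 6000, V.of 10000 (-1145) (-210), V.of 10000 (-2200) (-100), V.of 10000 (-900) 50])) =
    9031550531672280234521968160018188032455774396556634283253317240602343385833836448427193635029686072101929986256454067225342546992944070055832047862704664504759434872032442032947605763 := by
  decide +kernel

theorem st_34_2_q2 : Pool.Agent.Work.NumU.runT (S2 (q 34 100) ex65 (eq (-6000) (-1301) 299 (-16249) 16698 940 500 70) (eM 3800 5600)) 59
    9031550531672280234521968160018188032455774396556634283253317240602343385833836448427193635029686072101929986256454067225342546992944070055832047862704664504759434872032442032947605762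
    (Pool.Agent.Work.NumI.setR 2 ([V.of 10000 5000 6000, V.of 10000 (-1145) (-210), V.of 10000 (-2200) (-100), V.of 10000 (-900) 50])) =
    1 := by
  decide +kernel

theorem st_34_2 : chkT (S2 (q 34 100) ex65 (eq (-6000) (-1301) 299 (-16249) 16698 940 500 70) (eM 3800 5600)) 60
    2700470713437974943020609514601110528509494227229292070235211788956116574544085538038308900591165132433048887902880402069305202732463696405392101772308075539012217155688765775635961052056007500431037170018172279996023765640957414708192601508850195906075478835120697924786677442342525981810126979853381518725983112382008043020638813815454171735411147379831403967743510100488745656354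
    [V.of 10000 5000 6000, V.of 10000 (-1145) (-210), V.of 10000 (-2200) (-100), V.of 10000 (-900) 50] = true :=
      Pool.Agent.Work.NumU.chkT_of (Pool.Agent.Work.NumU.runT_split rfl rfl rfl
        st_34_2_q1
        st_34_2_q2)

theorem st_34_3 : chkT (S3 (q 34 100) ex65 (eq (-6000) (-1301) 299 (-16249) 16698 940 500 70) (eM 3800 5600)) 60
    9360895379457
    [V.of 10000 5000 6000, V.of 10000 (-1145) (-210), V.of 10000 (-100) 0, V.of 10000 (-900) 50] = true := by
  decide +kernel

theorem st_34_4 : chkT (S4 (q 34 100) ex65 (eq (-6000) (-1301) 299 (-16249) 16698 940 500 70) (eM 3800 5600)) 60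
    559105
    [V.of 10000 5000 6000, V.of 10000 (-1145) (-210), V.of 10000 (-100) 0, V.of 10000 (-900) 50] = true := by
  decide +kernel

theorem st_34_5 : chkT (S5 (q 34 100) ex65 (eq (-6000) (-1301) 299 (-16249) 16698 940 500 70) (eM 3800 5600)) 60
    16539483637970756650553114635010954584574716583267283018155746805859461963567102890033
    [V.of 10000 5000 6000, V.of 10000 (-1145) (-210), V.of 10000 0 100, V.of 10000 (-900) 50] = true := by
  decide +kernel

theorem st_34_6 : chkT (S6 (q 34 100) ex65 (eq (-6000) (-1301) 299 (-16249) 16698 940 500 70) (eM 3800 5600)) 60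
    1054688751676567547602494803603022183952500334978681400373194229979016990512539128635893955834358484401885568426364969711108887676777843898775375504642482930831201073426968983392500118524939523143232145000015986994
    [V.of 10000 5000 6000, V.of 10000 (-1145) (-210), V.of 10000 100 400, V.of 10000 (-900) 50] = true := by
  decide +kernel

theorem st_40_1 : chkT (S1 (q 40 100) ex65 (eq (-3560) (-1291) 215 (-15993) 12027 747 500 70) (eM 5600 6400)) 60
    209192949573944885144276352577140902899250639009922941632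
    [V.of 10000 5200 6000, V.of 10000 (-1145) (-210), V.of 10000 (-400) (-100), V.of 10000 (-900) 50] = true := by
  decide +kernel

theorem st_40_2 : chkT (S2 (q 40 100) ex65 (eq (-3560) (-1291) 215 (-15993) 12027 747 500 70) (eM 5600 6400)) 60
    740975589208299261200997157192337633391296
    [V.of 10000 5200 6000, V.of 10000 (-1145) (-210), V.of 10000 (-400) (-100), V.of 10000 (-900) 50] = true := by
  decide +kernel

theorem st_40_3 : chkT (S3 (q 40 100) ex65 (eq (-3560) (-1291) 215 (-15993) 12027 747 500 70) (eM 5600 6400)) 60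
    36516149265
    [V.of 10000 5200 6000, V.of 10000 (-1145) (-210), V.of 10000 (-100) 0, V.of 10000 (-900) 50] = true := by
  decide +kernel

theorem st_40_4 : chkT (S4 (q 40 100) ex65 (eq (-3560) (-1291) 215 (-15993) 12027 747 500 70) (eM 5600 6400)) 60
    2177
    [V.of 10000 5200 6000, V.of 10000 (-1145) (-210), V.of 10000 (-100) 0, V.of 10000 (-900) 50] = true := by
  decide +kernel

theorem st_40_5 : chkT (S5 (q 40 100) ex65 (eq (-3560) (-1291) 215 (-15993) 12027 747 500 70) (eM 5600 6400)) 60
    230002675727790220605682678711456806473300364524877381793401133531155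
    [V.of 10000 5200 6000, V.of 10000 (-1145) (-210), V.of 10000 0 100, V.of 10000 (-900) 50] = true := by
  decide +kernel

theorem st_40_6 : chkT (S6 (q 40 100) ex65 (eq (-3560) (-1291) 215 (-15993) 12027 747 500 70) (eM 5600 6400)) 60
    2542155439939003924396049045687884754430219784860422629436223605362335824522339972322756969001636527198422806983627234726841208847650549838646731044211785598147246399500018600748885917760274253938994
    [V.of 10000 5200 6000, V.of 10000 (-1145) (-210), V.of 10000 100 400, V.of 10000 (-900) 50] = true := by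
  decide +kernel

theorem st_34e_1 : chkT (S1 (q 34 100) ex65 (eq (-18200) (-1129) (-1263) (-16161) 20569 1341 600 70) (eM 4600 5600)) 60
    1566863886218165468192526442097620759243822703211524441373892484521565398040882
    [V.of 10000 6000 6500, V.of 10000 (-1145) (-210), V.of 10000 (-1900) (-100), V.of 10000 (-900) 50] = true := by
  decide +kernel

theorem st_34e_2 : chkT (S2 (q 34 100) ex65 (eq (-18200) (-1129) (-1263) (-16161) 20569 1341 600 70) (eM 4600 5600)) 60
    58024166035
    [V.of 10000 6000 6500, V.of 10000 (-1145) (-210), V.of 10000 (-1900) (-100), V.of 10000 (-900) 50] = true := by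
  decide +kernel

theorem st_34e_3 : chkT (S3 (q 34 100) ex65 (eq (-18200) (-1129) (-1263) (-16161) 20569 1341 600 70) (eM 4600 5600)) 60
    13
    [V.of 10000 6000 6500, V.of 10000 (-1145) (-210), V.of 10000 (-100) 0, V.of 10000 (-900) 50] = true := by
  decide +kernel

theorem st_34e_4 : chkT (S4 (q 34 100) ex65 (eq (-18200) (-1129) (-1263) (-16161) 20569 1341 600 70) (eM 4600 5600)) 60
    8
    [V.of 10000 6000 6500, V.of 10000 (-1145) (-210), V.of 10000 (-100) 0, V.of 10000 (-900) 50] = true := by
  decide +kernel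

theorem st_34e_5 : chkT (S5 (q 34 100) ex65 (eq (-18200) (-1129) (-1263) (-16161) 20569 1341 600 70) (eM 4600 5600)) 60
    12
    [V.of 10000 6000 6500, V.of 10000 (-1145) (-210), V.of 10000 0 100, V.of 10000 (-900) 50] = true := by
  decide +kernel

theorem st_34e_6 : chkT (S6 (q 34 100) ex65 (eq (-18200) (-1129) (-1263) (-16161) 20569 1341 600 70) (eM 4600 5600)) 60
    12
    [V.of 10000 6000 6500, V.of 10000 (-1145) (-210), V.of 10000 100 400, V.of 10000 (-900) 50] = true := by
  decide +kernel

theorem st_44e_1 : chkT (S1 (q 44 100) ex65 (eq (-14600) (-1119) (-1384) (-15445) 12133 1255 600 70) (eM 5600 6900)) 60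
    3858908084868758079236295269540797492019894101695748964060673801716995469618
    [V.of 10000 6000 6500, V.of 10000 (-1145) (-210), V.of 10000 (-900) (-100), V.of 10000 (-900) 50] = true := by
  decide +kernel

theorem st_44e_2 : chkT (S2 (q 44 100) ex65 (eq (-14600) (-1119) (-1384) (-15445) 12133 1255 600 70) (eM 5600 6900)) 60
    10313676681214440181565490
    [V.of 10000 6000 6500, V.of 10000 (-1145) (-210), V.of 10000 (-900) (-100), V.of 10000 (-900) 50] = true := by
  decide +kernel

theorem st_44e_3 : chkT (S3 (q 44 100) ex65 (eq (-14600) (-1119) (-1384) (-15445) 12133 1255 600 70) (eM 5600 6900)) 60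
    9348134241041
    [V.of 10000 6000 6500, V.of 10000 (-1145) (-210), V.of 10000 (-100) 0, V.of 10000 (-900) 50] = true := by
  decide +kernel

theorem st_44e_4 : chkT (S4 (q 44 100) ex65 (eq (-14600) (-1119) (-1384) (-15445) 12133 1255 600 70) (eM 5600 6900)) 60
    8
    [V.of 10000 6000 6500, V.of 10000 (-1145) (-210), V.of 10000 (-100) 0, V.of 10000 (-900) 50] = true := by
  decide +kernel

theorem st_44e_5 : chkT (S5 (q 44 100) ex65 (eq (-14600) (-1119) (-1384) (-15445) 12133 1255 600 70) (eM 5600 6900)) 60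
    673913885115769637423172550963
    [V.of 10000 6000 6500, V.of 10000 (-1145) (-210), V.of 10000 0 100, V.of 10000 (-900) 50] = true := by
  decide +kernel

theorem st_44e_6 : chkT (S6 (q 44 100) ex65 (eq (-14600) (-1119) (-1384) (-15445) 12133 1255 600 70) (eM 5600 6900)) 60
    15073455359758041942417398591916843801941613103652506677214732804944827186
    [V.of 10000 6000 6500, V.of 10000 (-1145) (-210), V.of 10000 100 400, V.of 10000 (-900) 50] = true := by
  decide +kernel

end

variable {x T s t : ℝ}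

/-- flat part, `c = .34` -/
theorem st_I (hx : 41 / 100 ≤ x) (hx' : x ≤ 1 / 2) (M : MOk T t) (hl : 38 / 100 ≤ x + s)
    (hl' : x + s ≤ 54 / 100) (hs : s ≤ 4 / 100) :
    0 < dvR (34 / 100) T x T (x + s) t + gq (-5650) (-270) 0 0 0 0 500 0 x T + uu s (t - T) := by
  have hc : (q 34 100).val [x, T, s, t] = 34 / 100 := by norm_num [E.val]
  have T0 := M.T0
  have T1 := M.T1
  have t0 := M.t0
  have t1 := M.t1
  have hes := eM_ok (l0 := 3800) (l1 := 5400) (x := x) (s := s) M (by push_cast; linarith only [hl])
    (by push_cast; linarith only [hl'])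
  exact stay_row (c := q 34 100) (hx := vT) (g := eq (-5650) (-270) 0 0 0 0 500 0) (es := eM 3800 5400) hc rfl eq_val hs
    (M.flat) hes
    (fun h1 => use4 st_I_1 (by norm_num) (by
      refine ⟨⟨?_, ?_⟩, ⟨?_, ?_⟩, ⟨?_, ?_⟩, ⟨?_, ?_⟩⟩ <;>
        push_cast <;> linarith only [hx, hx', T0, T1, hl, h1, t0, t1]))
    (fun h1 => use4 st_I_2 (by norm_num) (by
      refine ⟨⟨?_, ?_⟩, ⟨?_, ?_⟩, ⟨?_, ?_⟩, ⟨?_, ?_⟩⟩ <;>
        push_cast <;> linarith only [hx, hx', T0, T1, hl, h1, t0, t1]))
    (fun h1 h2 => use4 st_I_3 (by norm_num) (by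
      refine ⟨⟨?_, ?_⟩, ⟨?_, ?_⟩, ⟨?_, ?_⟩, ⟨?_, ?_⟩⟩ <;>
        push_cast <;> linarith only [hx, hx', T0, T1, h1, h2, t0, t1]))
    (fun h1 h2 => use4 st_I_4 (by norm_num) (by
      refine ⟨⟨?_, ?_⟩, ⟨?_, ?_⟩, ⟨?_, ?_⟩, ⟨?_, ?_⟩⟩ <;>
        push_cast <;> linarith only [hx, hx', T0, T1, h1, h2, t0, t1]))
    (fun h1 h2 => use4 st_I_5 (by norm_num) (by
      refine ⟨⟨?_, ?_⟩, ⟨?_, ?_⟩, ⟨?_, ?_⟩, ⟨?_, ?_⟩⟩ <;>
        push_cast <;> linarith only [hx, hx', T0, T1, h1, h2, t0, t1]))
    (fun h1 => use4 st_I_6 (by norm_num) (by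
      refine ⟨⟨?_, ?_⟩, ⟨?_, ?_⟩, ⟨?_, ?_⟩, ⟨?_, ?_⟩⟩ <;>
        push_cast <;> linarith only [hx, hx', T0, T1, h1, hs, t0, t1]))

/-- ramp, `c = .34` -/
theorem st_34 (hx : 1 / 2 ≤ x) (hx' : x ≤ 6 / 10) (M : MOk T t) (hl : 38 / 100 ≤ x + s)
    (hl' : x + s ≤ 56 / 100) (hs : s ≤ 4 / 100) :
    0 < dvR (34 / 100) T x (h65 x T) (x + s) t + gq (-6000) (-1301) 299 (-16249) 16698 940 500 70 x T + uu s (t - (h65 x T)) := by
  have hc : (q 34 100).val [x, T, s, t] = 34 / 100 := by norm_num [E.val]
  have T0 := M.T0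
  have T1 := M.T1
  have t0 := M.t0
  have t1 := M.t1
  have hes := eM_ok (l0 := 3800) (l1 := 5600) (x := x) (s := s) M (by push_cast; linarith only [hl])
    (by push_cast; linarith only [hl'])
  exact stay_row (c := q 34 100) (hx := ex65) (g := eq (-6000) (-1301) 299 (-16249) 16698 940 500 70) (es := eM 3800 5600) hc ex65_val eq_val hs
    (M.ramp hx (by linarith only [hx'])) hes
    (fun h1 => use4 st_34_1 (by norm_num) (by
      refine ⟨⟨?_, ?_⟩, ⟨?_, ?_⟩, ⟨?_, ?_⟩, ⟨?_, ?_⟩⟩ <;>
        push_cast <;> linarith only [hx, hx', T0, T1, hl, h1, t0, t1]))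
    (fun h1 => use4 st_34_2 (by norm_num) (by
      refine ⟨⟨?_, ?_⟩, ⟨?_, ?_⟩, ⟨?_, ?_⟩, ⟨?_, ?_⟩⟩ <;>
        push_cast <;> linarith only [hx, hx', T0, T1, hl, h1, t0, t1]))
    (fun h1 h2 => use4 st_34_3 (by norm_num) (by
      refine ⟨⟨?_, ?_⟩, ⟨?_, ?_⟩, ⟨?_, ?_⟩, ⟨?_, ?_⟩⟩ <;>
        push_cast <;> linarith only [hx, hx', T0, T1, h1, h2, t0, t1]))
    (fun h1 h2 => use4 st_34_4 (by norm_num) (by
      refine ⟨⟨?_, ?_⟩, ⟨?_, ?_⟩, ⟨?_, ?_⟩, ⟨?_, ?_⟩⟩ <;>
        push_cast <;> linarith only [hx, hx', T0, T1, h1, h2, t0, t1]))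
    (fun h1 h2 => use4 st_34_5 (by norm_num) (by
      refine ⟨⟨?_, ?_⟩, ⟨?_, ?_⟩, ⟨?_, ?_⟩, ⟨?_, ?_⟩⟩ <;>
        push_cast <;> linarith only [hx, hx', T0, T1, h1, h2, t0, t1]))
    (fun h1 => use4 st_34_6 (by norm_num) (by
      refine ⟨⟨?_, ?_⟩, ⟨?_, ?_⟩, ⟨?_, ?_⟩, ⟨?_, ?_⟩⟩ <;>
        push_cast <;> linarith only [hx, hx', T0, T1, h1, hs, t0, t1]))

/-- ramp, `c = .40` -/
theorem st_40 (hx : 52 / 100 ≤ x) (hx' : x ≤ 6 / 10) (M : MOk T t) (hl : 56 / 100 ≤ x + s)
    (hl' : x + s ≤ 64 / 100) (hs : s ≤ 4 / 100) :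
    0 < dvR (40 / 100) T x (h65 x T) (x + s) t + gq (-3560) (-1291) 215 (-15993) 12027 747 500 70 x T + uu s (t - (h65 x T)) := by
  have hc : (q 40 100).val [x, T, s, t] = 40 / 100 := by norm_num [E.val]
  have T0 := M.T0
  have T1 := M.T1
  have t0 := M.t0
  have t1 := M.t1
  have hes := eM_ok (l0 := 5600) (l1 := 6400) (x := x) (s := s) M (by push_cast; linarith only [hl])
    (by push_cast; linarith only [hl'])
  exact stay_row (c := q 40 100) (hx := ex65) (g := eq (-3560) (-1291) 215 (-15993) 12027 747 500 70) (es := eM 5600 6400) hc ex65_val eq_val hs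
    (M.ramp (by linarith only [hx]) (by linarith only [hx'])) hes
    (fun h1 => use4 st_40_1 (by norm_num) (by
      refine ⟨⟨?_, ?_⟩, ⟨?_, ?_⟩, ⟨?_, ?_⟩, ⟨?_, ?_⟩⟩ <;>
        push_cast <;> linarith only [hl, h1, hx', T0, T1, t0, t1]))
    (fun h1 => use4 st_40_2 (by norm_num) (by
      refine ⟨⟨?_, ?_⟩, ⟨?_, ?_⟩, ⟨?_, ?_⟩, ⟨?_, ?_⟩⟩ <;>
        push_cast <;> linarith only [hl, h1, hx', T0, T1, t0, t1]))
    (fun h1 h2 => use4 st_40_3 (by norm_num) (by
      refine ⟨⟨?_, ?_⟩, ⟨?_, ?_⟩, ⟨?_, ?_⟩, ⟨?_, ?_⟩⟩ <;>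
        push_cast <;> linarith only [hl, h2, hx', T0, T1, h1, t0, t1]))
    (fun h1 h2 => use4 st_40_4 (by norm_num) (by
      refine ⟨⟨?_, ?_⟩, ⟨?_, ?_⟩, ⟨?_, ?_⟩, ⟨?_, ?_⟩⟩ <;>
        push_cast <;> linarith only [hl, h2, hx', T0, T1, h1, t0, t1]))
    (fun h1 h2 => use4 st_40_5 (by norm_num) (by
      refine ⟨⟨?_, ?_⟩, ⟨?_, ?_⟩, ⟨?_, ?_⟩, ⟨?_, ?_⟩⟩ <;>
        push_cast <;> linarith only [hl, h2, hx', T0, T1, h1, t0, t1]))
    (fun h1 => use4 st_40_6 (by norm_num) (by
      refine ⟨⟨?_, ?_⟩, ⟨?_, ?_⟩, ⟨?_, ?_⟩, ⟨?_, ?_⟩⟩ <;>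
        push_cast <;> linarith only [hx, hx', T0, T1, h1, hs, t0, t1]))

/-- end, `c = .34` -/
theorem st_34e (hx : 6 / 10 ≤ x) (hx' : x ≤ 65 / 100) (M : MOk T t) (hl : 46 / 100 ≤ x + s)
    (hl' : x + s ≤ 56 / 100) (hs : s ≤ 4 / 100) :
    0 < dvR (34 / 100) T x (h65 x T) (x + s) t + gq (-18200) (-1129) (-1263) (-16161) 20569 1341 600 70 x T + uu s (t - (h65 x T)) := by
  have hc : (q 34 100).val [x, T, s, t] = 34 / 100 := by norm_num [E.val]
  have T0 := M.T0
  have T1 := M.T1
  have t0 := M.t0
  have t1 := M.t1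
  have hes := eM_ok (l0 := 4600) (l1 := 5600) (x := x) (s := s) M (by push_cast; linarith only [hl])
    (by push_cast; linarith only [hl'])
  exact stay_row (c := q 34 100) (hx := ex65) (g := eq (-18200) (-1129) (-1263) (-16161) 20569 1341 600 70) (es := eM 4600 5600) hc ex65_val eq_val hs
    (M.ramp (by linarith only [hx]) hx') hes
    (fun h1 => use4 st_34e_1 (by norm_num) (by
      refine ⟨⟨?_, ?_⟩, ⟨?_, ?_⟩, ⟨?_, ?_⟩, ⟨?_, ?_⟩⟩ <;>
        push_cast <;> linarith only [hx, hx', T0, T1, hl, hl', t0, t1]))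
    (fun h1 => use4 st_34e_2 (by norm_num) (by
      refine ⟨⟨?_, ?_⟩, ⟨?_, ?_⟩, ⟨?_, ?_⟩, ⟨?_, ?_⟩⟩ <;>
        push_cast <;> linarith only [hx, hx', T0, T1, hl, hl', t0, t1]))
    (fun h1 h2 => use4 st_34e_3 (by norm_num) (by
      refine ⟨⟨?_, ?_⟩, ⟨?_, ?_⟩, ⟨?_, ?_⟩, ⟨?_, ?_⟩⟩ <;>
        push_cast <;> linarith only [hx, hl', h1]))
    (fun h1 h2 => use4 st_34e_4 (by norm_num) (by
      refine ⟨⟨?_, ?_⟩, ⟨?_, ?_⟩, ⟨?_, ?_⟩, ⟨?_, ?_⟩⟩ <;>
        push_cast <;> linarith only [hx, hl', h1]))
    (fun h1 h2 => use4 st_34e_5 (by norm_num) (by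
      refine ⟨⟨?_, ?_⟩, ⟨?_, ?_⟩, ⟨?_, ?_⟩, ⟨?_, ?_⟩⟩ <;>
        push_cast <;> linarith only [hx, hl', h1]))
    (fun h1 => use4 st_34e_6 (by norm_num) (by
      refine ⟨⟨?_, ?_⟩, ⟨?_, ?_⟩, ⟨?_, ?_⟩, ⟨?_, ?_⟩⟩ <;>
        push_cast <;> linarith only [hx, hl', h1]))

/-- end, `c = .44` -/
theorem st_44e (hx : 6 / 10 ≤ x) (hx' : x ≤ 65 / 100) (M : MOk T t) (hl : 56 / 100 ≤ x + s)
    (hl' : x + s ≤ 69 / 100) (hs : s ≤ 4 / 100) :
    0 < dvR (44 / 100) T x (h65 x T) (x + s) t + gq (-14600) (-1119) (-1384) (-15445) 12133 1255 600 70 x T + uu s (t - (h65 x T)) := by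
  have hc : (q 44 100).val [x, T, s, t] = 44 / 100 := by norm_num [E.val]
  have T0 := M.T0
  have T1 := M.T1
  have t0 := M.t0
  have t1 := M.t1
  have hes := eM_ok (l0 := 5600) (l1 := 6900) (x := x) (s := s) M (by push_cast; linarith only [hl])
    (by push_cast; linarith only [hl'])
  exact stay_row (c := q 44 100) (hx := ex65) (g := eq (-14600) (-1119) (-1384) (-15445) 12133 1255 600 70) (es := eM 5600 6900) hc ex65_val eq_val hs
    (M.ramp (by linarith only [hx]) hx') hes
    (fun h1 => use4 st_44e_1 (by norm_num) (by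
      refine ⟨⟨?_, ?_⟩, ⟨?_, ?_⟩, ⟨?_, ?_⟩, ⟨?_, ?_⟩⟩ <;>
        push_cast <;> linarith only [hx, hx', T0, T1, hl, h1, t0, t1]))
    (fun h1 => use4 st_44e_2 (by norm_num) (by
      refine ⟨⟨?_, ?_⟩, ⟨?_, ?_⟩, ⟨?_, ?_⟩, ⟨?_, ?_⟩⟩ <;>
        push_cast <;> linarith only [hx, hx', T0, T1, hl, h1, t0, t1]))
    (fun h1 h2 => use4 st_44e_3 (by norm_num) (by
      refine ⟨⟨?_, ?_⟩, ⟨?_, ?_⟩, ⟨?_, ?_⟩, ⟨?_, ?_⟩⟩ <;>
        push_cast <;> linarith only [hx, hx', T0, T1, h1, h2, t0, t1]))
    (fun h1 h2 => use4 st_44e_4 (by norm_num) (by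
      refine ⟨⟨?_, ?_⟩, ⟨?_, ?_⟩, ⟨?_, ?_⟩, ⟨?_, ?_⟩⟩ <;>
        push_cast <;> linarith only [hx, hx', T0, T1, h1, h2, t0, t1]))
    (fun h1 h2 => use4 st_44e_5 (by norm_num) (by
      refine ⟨⟨?_, ?_⟩, ⟨?_, ?_⟩, ⟨?_, ?_⟩, ⟨?_, ?_⟩⟩ <;>
        push_cast <;> linarith only [hx, hx', T0, T1, h1, h2, t0, t1]))
    (fun h1 => use4 st_44e_6 (by norm_num) (by
      refine ⟨⟨?_, ?_⟩, ⟨?_, ?_⟩, ⟨?_, ?_⟩, ⟨?_, ?_⟩⟩ <;>
        push_cast <;> linarith only [hx, hx', T0, T1, h1, hs, t0, t1]))

end V2A.B

end Pool.Agent.Work.MP_b30479_gt.G2
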