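import Pool.Agent.Work.MP_b30479_gt.G2.V2Row

/-!
# Value moves of the hinge `2 | 3`: the digit `2`, definitions
-/

namespace Pool.Agent.Work.MP_b30479_gt.G2

open VOL NumU

namespace V2A

open NumU.E

/-- the height `κ k` -/
def vkk : E := mul vt vl
def OS (c hc hx g : E) : List E :=
  [FOe c hc vx hx vl vkk g (sub (uu (add c vl) (add vkk hc)) (uu vk (add vkk hx)))]

end V2A

end Pool.Agent.Work.MP_b30479_gt.G2
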