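import Pool.Agent.Work.MP_b30479_gt.G2.V2Row

/-!
# Value moves of the hinge `3 | 3` (side `S3` of an inner digit `3`): the inner digit
-/

namespace Pool.Agent.Work.MP_b30479_gt.G2

open VOL NumU

namespace V2A

open NumU.E

section
open NumI (V)

theorem r33_1 : chkT (R1 (q 30 100) vT eh30 vt eg33 []) 60
    183820877009084586424546459709405377847240801697847328789285623993283727545581921687482636086407439702634814199839424286331278285297580945820023072283061644362486931940119314392123309061810225338561635956576051802914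
    [V.of 1000 500 600, V.of 1000 (-28) 22, V.of 1000 320 570, V.of 1000 (-114) 5] = true := by
  decide +kernel

theorem r33_2 : chkT (R2 (q 30 100) vT eh30 vt eg33 []) 60
    4243035567318748929890429477510581260453465859487617467760540242605317325638627170161555
    [V.of 1000 500 600, V.of 1000 (-28) 22, V.of 1000 320 570, V.of 1000 (-114) 5] = true := by
  decide +kernel

theorem r33_3 : chkT (R3 (q 30 100) vT eh30 vt eg33 []) 60
    2179
    [V.of 1000 500 600, V.of 1000 (-28) 22, V.of 1000 470 630, V.of 1000 (-114) 5] = true := by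
  decide +kernel

theorem r33_4 : chkT (R4 (q 30 100) vT eh30 vt eg33 []) 60
    68778507503801345800648067284399830587523342325376045291777234630961637566200564314899088306671360060341286353325594338698781786762929810507235779636091468111756902566496770794173381978601747181520073492827545166323519892404517919279366660949419755335412234728964658
    [V.of 1000 500 600, V.of 1000 (-28) 22, V.of 1000 530 750, V.of 1000 (-114) 5] = true := by
  decide +kernel

theorem t33_1 : chkT (R4 (q 30 100) vT eh30 vtr eg33 []) 60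
    40297502550208646479922
    [V.of 1000 500 600, V.of 1000 (-28) 22, V.of 1000 750 800, V.of 1000 (-114) 5] = true := by
  decide +kernel

theorem l33L_1 : chkT (L1 (q 30 100) vT (q 46 100) eh30 eg33 []) 60
    1194427973460821505171415741201560967152517409908668292920500419538907446017142009293404738204664603684
    [V.of 10000 5000 6000, V.of 10000 (-280) 220, V.of 10000 500 3200, V.of 10000 (-1140) 50, V.of 10000 0 3900, V.of 10000 (-1145) 570] = true := by
  decide +kernel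

theorem l33L_2 : chkT (L2 (q 30 100) vT (q 46 100) eh30 eg33 []) 60
    675995694133757645099489268627
    [V.of 10000 5000 6000, V.of 10000 (-280) 220, V.of 10000 500 3200, V.of 10000 (-1140) 50, V.of 10000 0 3900, V.of 10000 (-1145) 570] = true := by
  decide +kernel

theorem l33P_1 : chkT (P1 (q 30 100) vT (q 46 100) eh30 eg33 []) 60
    559155
    [V.of 10000 5000 6000, V.of 10000 (-280) 220, V.of 10000 0 500, V.of 10000 (-1140) 50, V.of 10000 0 600, V.of 10000 (-1145) 570] = true := by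
  decide +kernel

theorem l33P_2 : chkT (P2 (q 30 100) vT (q 46 100) eh30 eg33 []) 60
    142837843
    [V.of 10000 5000 6000, V.of 10000 (-280) 220, V.of 10000 0 500, V.of 10000 (-1140) 50, V.of 10000 0 600, V.of 10000 (-1145) 570] = true := by
  decide +kernel

theorem l33P_3 : chkT (P3 (q 30 100) vT (q 46 100) eh30 eg33 []) 60
    16547079599630059403370811666159441397104319493399078673462148194395911480606147748932
    [V.of 10000 5000 6000, V.of 10000 (-280) 220, V.of 10000 0 500, V.of 10000 (-1140) 50, V.of 10000 100 3900, V.of 10000 (-1145) 570] = true := by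
  decide +kernel

theorem l33P_4 : chkT (P4 (q 30 100) vT (q 46 100) eh30 eg33 []) 60
    815833983527301488154275921972279747834172690464515140
    [V.of 10000 5000 6000, V.of 10000 (-280) 220, V.of 10000 0 500, V.of 10000 (-1140) 50, V.of 10000 100 3900, V.of 10000 (-1145) 570] = true := by
  decide +kernel

end

variable {x T l h t w S : ℝ}

theorem r33 (hx : 1 / 2 ≤ x) (hx' : x ≤ 6 / 10) (hT : -(28 / 1000) ≤ T) (hT' : T ≤ 22 / 1000)
    (hl : 320 / 1000 ≤ l) (hl' : l ≤ 750 / 1000) (hh : -(114 / 1000) ≤ h) (hh' : h ≤ 5 / 1000) :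
    0 < dvR (30 / 100) T x (h30 x T) l h + g33 x T + uu (l - x) (h - h30 x T) := by
  obtain ⟨m1, m2⟩ := h30_mem (T := T) hx hx' (a := 28 / 1000) (b := 22 / 1000) (by linarith only [hT]) (by linarith only [hT']) (by norm_num)
    (by norm_num)
  have ev : vt.val [x, T, l, h] = h := rfl
  have := right_row (c := q 30 100) (hc := vT) (hx := eh30) (g := eg33) (hl := vt) (es := [])
    (xs := [x, T, l, h]) (l := l) (x := x) rfl rfl
    (by rw [eh30_val, ev, abs_le]; constructor <;> linarith only [hh, m2, hh', m1]) all_nil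
    (fun h1 => use4 r33_1 (by norm_num) (by
      refine ⟨⟨?_, ?_⟩, ⟨?_, ?_⟩, ⟨?_, ?_⟩, ⟨?_, ?_⟩⟩ <;>
        push_cast <;> linarith only [hx, hx', hT, hT', hl, h1, hh, hh']))
    (fun h1 => use4 r33_2 (by norm_num) (by
      refine ⟨⟨?_, ?_⟩, ⟨?_, ?_⟩, ⟨?_, ?_⟩, ⟨?_, ?_⟩⟩ <;>
        push_cast <;> linarith only [hx, hx', hT, hT', hl, h1, hh, hh']))
    (fun h1 h2 => use4 r33_3 (by norm_num) (by
      refine ⟨⟨?_, ?_⟩, ⟨?_, ?_⟩, ⟨?_, ?_⟩, ⟨?_, ?_⟩⟩ <;>
        push_cast <;> linarith only [hx, hx', hT, hT', h1, h2, hh, hh']))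
    (fun h1 => use4 r33_4 (by norm_num) (by
      refine ⟨⟨?_, ?_⟩, ⟨?_, ?_⟩, ⟨?_, ?_⟩, ⟨?_, ?_⟩⟩ <;>
        push_cast <;> linarith only [hx, hx', hT, hT', h1, hl', hh, hh']))
  rw [eh30_val, eg33_val] at this
  have e : (q 30 100).val [x, T, l, h] = 30 / 100 := by norm_num [E.val]
  rw [e] at this
  exact this

theorem t33 (hx : 1 / 2 ≤ x) (hx' : x ≤ 6 / 10) (hT : -(28 / 1000) ≤ T) (hT' : T ≤ 22 / 1000)
    (hl : 75 / 100 ≤ l) (hl' : l ≤ 80 / 100) (hh : -(114 / 1000) ≤ t) (hh' : t ≤ 5 / 1000) :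
    0 < dvR (30 / 100) T x (h30 x T) l (t * (16 - 20 * l)) + g33 x T +
      uu (l - x) (t * (16 - 20 * l) - h30 x T) := by
  have k : ∃ e ∈ R4 (q 30 100) vT eh30 vtr eg33 [], 0 < e.val [x, T, l, t] := use4 t33_1 (by norm_num) (by
      refine ⟨⟨?_, ?_⟩, ⟨?_, ?_⟩, ⟨?_, ?_⟩, ⟨?_, ?_⟩⟩ <;>
        push_cast <;> linarith only [hx, hx', hT, hT', hl, hl', hh, hh'])
  have := of_list k (all_cons (by simp only [E.val, vs_val]; push_cast; linarith only [hx', hl]) all_nil)
  rw [FRe_val, eh30_val, eg33_val, vtr_val] at this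
  have e : (q 30 100).val [x, T, l, t] = 30 / 100 := by norm_num [E.val]
  rw [e] at this
  have e2 : (uu vs (sub vtr eh30)).val [x, T, l, t] =
      NumU.uu (l - x) (t * (16 - 20 * l) - h30 x T) := by
    simp only [E.val, vs_val, vtr_val, eh30_val]
  rw [e2] at this
  exact this

theorem l33L (hx : 1 / 2 ≤ x) (hx' : x ≤ 6 / 10) (hT : -(28 / 1000) ≤ T) (hT' : T ≤ 22 / 1000)
    (hl : 5 / 100 ≤ l) (hl' : l ≤ 320 / 1000) (ht : -(114 / 1000) ≤ t) (ht' : t ≤ 5 / 1000) (hw : 0 ≤ w)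
    (hw' : w ≤ 39 / 100) (hS : -(1145 / 10000) ≤ S) (hS' : S ≤ 57 / 1000) :
    0 < dvL (30 / 100) T (46 / 100) x (h30 x T) l t w S + g33 x T + uu (l - x) (t - h30 x T) := by
  have := left_row (c := q 30 100) (hc := vT) (l' := q 46 100) (hx := eh30) (g := eg33) (es := [])
    (x := x) (T := T) (l := l) (t := t) (w := w) (S := S) all_nil
    (use6 l33L_1 (by norm_num) (by
      refine ⟨⟨?_, ?_⟩, ⟨?_, ?_⟩, ⟨?_, ?_⟩, ⟨?_, ?_⟩, ⟨?_, ?_⟩, ⟨?_, ?_⟩⟩ <;>
        push_cast <;> linarith only [hx, hx', hT, hT', hl, hl', ht, ht', hw, hw', hS, hS']))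
    (use6 l33L_2 (by norm_num) (by
      refine ⟨⟨?_, ?_⟩, ⟨?_, ?_⟩, ⟨?_, ?_⟩, ⟨?_, ?_⟩, ⟨?_, ?_⟩, ⟨?_, ?_⟩⟩ <;>
        push_cast <;> linarith only [hx, hx', hT, hT', hl, hl', ht, ht', hw, hw', hS, hS']))
  rw [eh30_val, eg33_val] at this
  have e : (q 30 100).val [x, T, l, t, w, S] = 30 / 100 := by norm_num [E.val]
  have e' : (q 46 100).val [x, T, l, t, w, S] = 46 / 100 := by norm_num [E.val]
  rw [e, e'] at this
  exact this

theorem l33P (hx : 1 / 2 ≤ x) (hx' : x ≤ 6 / 10) (hT : -(28 / 1000) ≤ T) (hT' : T ≤ 22 / 1000)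
    (hl : 0 ≤ l) (hl' : l ≤ 5 / 100) (ht : -(114 / 1000) ≤ t) (ht' : t ≤ 5 / 1000) (hw : 0 ≤ w)
    (hw' : w ≤ 39 / 100) (hS : -(1145 / 10000) ≤ S) (hS' : S ≤ 57 / 1000)
    (hs : w ≤ 6 / 100 → |S| ≤ 78 / 100 * w) :
    0 < dvG (30 / 100) T (46 / 100) t x (h30 x T) l (20 * (t * l)) w S + g33 x T +
      (uu l (20 * (t * l)) - uu (l + w) (20 * (t * l) + S) +
        uu (l - x) (20 * (t * l) - h30 x T)) := by
  have := ramp_row (c := q 30 100) (hc := vT) (l' := q 46 100) (hx := eh30) (g := eg33) (es := [])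
    (x := x) (T := T) (l := l) (t := t) (w := w) (S := S) all_nil hl hl' hw
    (by rw [abs_le]; constructor <;> linarith only [ht, ht']) hs
    (fun h1 => use6 l33P_1 (by norm_num) (by
      refine ⟨⟨?_, ?_⟩, ⟨?_, ?_⟩, ⟨?_, ?_⟩, ⟨?_, ?_⟩, ⟨?_, ?_⟩, ⟨?_, ?_⟩⟩ <;>
        push_cast <;> linarith only [hx, hx', hT, hT', hl, hl', ht, ht', hw, h1, hS, hS']))
    (fun h1 => use6 l33P_2 (by norm_num) (by
      refine ⟨⟨?_, ?_⟩, ⟨?_, ?_⟩, ⟨?_, ?_⟩, ⟨?_, ?_⟩, ⟨?_, ?_⟩, ⟨?_, ?_⟩⟩ <;>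
        push_cast <;> linarith only [hx, hx', hT, hT', hl, hl', ht, ht', hw, h1, hS, hS']))
    (fun h1 => use6 l33P_3 (by norm_num) (by
      refine ⟨⟨?_, ?_⟩, ⟨?_, ?_⟩, ⟨?_, ?_⟩, ⟨?_, ?_⟩, ⟨?_, ?_⟩, ⟨?_, ?_⟩⟩ <;>
        push_cast <;> linarith only [hx, hx', hT, hT', hl, hl', ht, ht', h1, hw', hS, hS']))
    (fun h1 => use6 l33P_4 (by norm_num) (by
      refine ⟨⟨?_, ?_⟩, ⟨?_, ?_⟩, ⟨?_, ?_⟩, ⟨?_, ?_⟩, ⟨?_, ?_⟩, ⟨?_, ?_⟩⟩ <;>
        push_cast <;> linarith only [hx, hx', hT, hT', hl, hl', ht, ht', h1, hw', hS, hS']))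
  rw [eh30_val, eg33_val] at this
  have e : (q 30 100).val [x, T, l, t, w, S] = 30 / 100 := by norm_num [E.val]
  have e' : (q 46 100).val [x, T, l, t, w, S] = 46 / 100 := by norm_num [E.val]
  rw [e, e'] at this
  exact this

end V2A

end Pool.Agent.Work.MP_b30479_gt.G2
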