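import Pool.Agent.Work.MP_b30479_gt.G2.V2Base

/-!
# Value moves of the hinge on the side `S3` of an inner digit `3`: rows from certificates
-/

namespace Pool.Agent.Work.MP_b30479_gt.G2

open VOL NumU

namespace V2A

open NumU.E

/-- `uu s y` for `y ≤ 0`, `s < 0` -/
def aN (s y : E) : E := add (uu (add (q 1 1) s) y) (mul pi y)
/-- `uu s y` for `0 ≤ y`, `s < 0` -/
def aP (s y : E) : E := sub (uu (add (q 1 1) s) y) (mul pi y)
/-- `uu s y` for `y ≤ 0`, `1 < s` -/
def bN (s y : E) : E := sub (uu (sub s (q 1 1)) y) (mul pi y)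
/-- `uu s y` for `0 ≤ y`, `1 < s` -/
def bP (s y : E) : E := add (uu (sub s (q 1 1)) y) (mul pi y)
/-- `l - x` -/
def vs : E := sub vl vx
/-- the height of the inner variable on the left ramp -/
def vh : E := mul (q 20 1) (mul vt vl)
/-- `x + k` -/
def vk : E := add vx vl
/-- the height of the inner variable on the right ramp -/
def vtr : E := mul vt (sub (q 16 1) (mul (q 20 1) vl))
/-- the height at `c = .41` on the path `.60`, `.27` -/
def ehc41 : E := mul vT (q 19 27)

theorem vs_val {x T l : ℝ} {r : List ℝ} : vs.val (x :: T :: l :: r) = l - x := rfl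
theorem vt_val {x T l t : ℝ} {r : List ℝ} : vt.val (x :: T :: l :: t :: r) = t := rfl
theorem vtr_val {x T l t : ℝ} {r : List ℝ} : vtr.val (x :: T :: l :: t :: r) =
    t * (16 - 20 * l) := by
  have e1 : vl.val (x :: T :: l :: t :: r) = l := rfl
  simp only [vtr, E.val, vt_val, e1]
  norm_num
theorem ehc41_val {x T : ℝ} {r : List ℝ} : ehc41.val (x :: T :: r) = T * (19 / 27) := by
  simp only [ehc41, E.val, vT_val]
  norm_num

theorem h30_mem {x T a b : ℝ} (hx : 1 / 2 ≤ x) (hx' : x ≤ 6 / 10) (hT : -a ≤ T) (hT' : T ≤ b)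
    (ha : 0 ≤ a) (hb : 0 ≤ b) : -(a / 3) ≤ h30 x T ∧ h30 x T ≤ b / 3 := by
  unfold h30
  constructor <;> nlinarith only [hx, ha, hx', hT, hb, hT']

theorem h27_mem {x T a b : ℝ} (hx : 1 / 2 ≤ x) (hx' : x ≤ 6 / 10) (hT : -a ≤ T) (hT' : T ≤ b)
    (ha : 0 ≤ a) (hb : 0 ≤ b) : -(a * 10 / 27) ≤ h27 x T ∧ h27 x T ≤ b * 10 / 27 := by
  unfold h27
  constructor <;> nlinarith only [hx, ha, hx', hT, hb, hT']

/-! ### certificates -/

open NumI (V) in
theorem use4 {es : List E} {c N : ℕ} {l1 h1 l2 h2 l3 h3 l4 h4 : ℤ} {x y z w : ℝ}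
    (k : chkT es 60 c [V.of N l1 h1, V.of N l2 h2, V.of N l3 h3, V.of N l4 h4] = true)
    (hN : 0 < N) (b : ((l1 : ℝ) / N ≤ x ∧ x ≤ (h1 : ℝ) / N) ∧ ((l2 : ℝ) / N ≤ y ∧
      y ≤ (h2 : ℝ) / N) ∧ ((l3 : ℝ) / N ≤ z ∧ z ≤ (h3 : ℝ) / N) ∧
      ((l4 : ℝ) / N ≤ w ∧ w ≤ (h4 : ℝ) / N)) : ∃ e ∈ es, 0 < e.val [x, y, z, w] :=
  chkT4 k hN b.1.1 b.1.2 b.2.1.1 b.2.1.2 b.2.2.1.1 b.2.2.1.2 b.2.2.2.1 b.2.2.2.2

open NumI (V) in
theorem use6 {es : List E} {c N : ℕ} {l1 h1 l2 h2 l3 h3 l4 h4 l5 h5 l6 h6 : ℤ}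
    {x y z w u v : ℝ}
    (k : chkT es 60 c [V.of N l1 h1, V.of N l2 h2, V.of N l3 h3, V.of N l4 h4, V.of N l5 h5,
      V.of N l6 h6] = true)
    (hN : 0 < N) (b : ((l1 : ℝ) / N ≤ x ∧ x ≤ (h1 : ℝ) / N) ∧ ((l2 : ℝ) / N ≤ y ∧
      y ≤ (h2 : ℝ) / N) ∧ ((l3 : ℝ) / N ≤ z ∧ z ≤ (h3 : ℝ) / N) ∧
      ((l4 : ℝ) / N ≤ w ∧ w ≤ (h4 : ℝ) / N) ∧ ((l5 : ℝ) / N ≤ u ∧ u ≤ (h5 : ℝ) / N) ∧
      ((l6 : ℝ) / N ≤ v ∧ v ≤ (h6 : ℝ) / N)) : ∃ e ∈ es, 0 < e.val [x, y, z, w, u, v] :=
  chkT6 k hN b.1.1 b.1.2 b.2.1.1 b.2.1.2 b.2.2.1.1 b.2.2.1.2 b.2.2.2.1.1 b.2.2.2.1.2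
    b.2.2.2.2.1.1 b.2.2.2.2.1.2 b.2.2.2.2.2.1 b.2.2.2.2.2.2

/-! ### the lists of expressions -/

def R1 (c hc hx hl g : E) (es : List E) : List E :=
  FRe c hc vx hx vl hl g (aN vs (sub hl hx)) :: sub hl hx :: add vs (q 3 100) :: es
def R2 (c hc hx hl g : E) (es : List E) : List E :=
  FRe c hc vx hx vl hl g (aP vs (sub hl hx)) :: sub hx hl :: add vs (q 3 100) :: es
def R3 (c hc hx hl g : E) (es : List E) : List E :=
  FRe c hc vx hx vl hl g (uu (q 3 100) (sub hl hx)) :: sub vs (q 3 100) :: sub (q (-3) 100) vs :: es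
def R4 (c hc hx hl g : E) (es : List E) : List E :=
  FRe c hc vx hx vl hl g (uu vs (sub hl hx)) :: sub (q 3 100) vs :: es
def L1 (c hc l' hx g : E) (es : List E) : List E :=
  FLe c hc l' vx hx vl vt vw vS g (aN vs (sub vt hx)) :: sub vt hx :: es
def L2 (c hc l' hx g : E) (es : List E) : List E :=
  FLe c hc l' vx hx vl vt vw vS g (aP vs (sub vt hx)) :: sub hx vt :: es
def P1 (c hc l' hx g : E) (es : List E) : List E :=
  FGe c hc l' vt vx hx vl vh vw vS g (sub (add (aN vs (sub vh hx)) (uu (q 5 100) vh))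
    (mul (mul (q 1 2) pi) (add vh vS))) :: sub vh hx :: sub (add vl vw) (q 6 100) :: es
def P2 (c hc l' hx g : E) (es : List E) : List E :=
  FGe c hc l' vt vx hx vl vh vw vS g (sub (add (aP vs (sub vh hx)) (uu (q 5 100) vh))
    (mul (mul (q 1 2) pi) (add vh vS))) :: sub hx vh :: sub (add vl vw) (q 6 100) :: es
def P3 (c hc l' hx g : E) (es : List E) : List E :=
  FGe c hc l' vt vx hx vl vh vw vS g (sub (add (aN vs (sub vh hx)) (uu (q 5 100) vh))
    (uu (add vl vw) (add vh vS))) :: sub vh hx :: sub (q 6 100) (add vl vw) :: es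
def P4 (c hc l' hx g : E) (es : List E) : List E :=
  FGe c hc l' vt vx hx vl vh vw vS g (sub (add (aP vs (sub vh hx)) (uu (q 5 100) vh))
    (uu (add vl vw) (add vh vS))) :: sub hx vh :: sub (q 6 100) (add vl vw) :: es
def O1 (c hc hx g : E) (es : List E) : List E :=
  FOe c hc vx hx vl vt g (sub (uu (add c vl) (add vt hc)) (uu vk (add vt hx))) ::
    sub vk (q 97 100) :: es
def O2 (c hc hx g : E) (es : List E) : List E :=
  FOe c hc vx hx vl vt g (sub (uu (add c vl) (add vt hc)) (uu (q 97 100) (add vt hx))) ::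
    sub (q 97 100) vk :: sub vk (q 103 100) :: es
def O3 (c hc hx g : E) (es : List E) : List E :=
  FOe c hc vx hx vl vt g (sub (uu (add c vl) (add vt hc)) (bN vk (add vt hx))) :: add vt hx ::
    sub (q 103 100) vk :: es
def O4 (c hc hx g : E) (es : List E) : List E :=
  FOe c hc vx hx vl vt g (sub (uu (add c vl) (add vt hc)) (bP vk (add vt hx))) ::
    neg (add vt hx) :: sub (q 103 100) vk :: es
def O5 (c hc hx g : E) (es : List E) : List E :=
  FOe c hc vx hx vl vt g (sub (sub (uu (q 3 100) (add vt hc)) (mul pi (add vt hc)))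
    (bN vk (add vt hx))) :: add vt hx :: es
def O6 (c hc hx g : E) (es : List E) : List E :=
  FOe c hc vx hx vl vt g (sub (add (uu (q 3 100) (add vt hc)) (mul pi (add vt hc)))
    (bP vk (add vt hx))) :: neg (add vt hx) :: es
def O7 (c hc hx g : E) (es : List E) : List E :=
  FOe c hc vx hx vl vt g (sub (bN (add c vl) (add vt hc)) (bN vk (add vt hx))) ::
    add vt hx :: es
def O8 (c hc hx g : E) (es : List E) : List E :=
  FOe c hc vx hx vl vt g (sub (bP (add c vl) (add vt hc)) (bP vk (add vt hx))) ::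
    neg (add vt hx) :: es

section
variable {c hc hx g l' hl : E} {es : List E} {x T l t w S : ℝ} {xs : List ℝ}

theorem aN_val {s y : E} : (aN s y).val xs =
    uu (1 + s.val xs) (y.val xs) + Real.pi * y.val xs := by
  simp only [aN, E.val]
  norm_num

theorem aP_val {s y : E} : (aP s y).val xs =
    uu (1 + s.val xs) (y.val xs) - Real.pi * y.val xs := by
  simp only [aP, E.val]
  norm_num

theorem bN_val {s y : E} : (bN s y).val xs =
    uu (s.val xs - 1) (y.val xs) - Real.pi * y.val xs := by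
  simp only [bN, E.val]
  norm_num

theorem bP_val {s y : E} : (bP s y).val xs =
    uu (s.val xs - 1) (y.val xs) + Real.pi * y.val xs := by
  simp only [bP, E.val]
  norm_num

/-- the inner variable stays at `l + hl i` -/
theorem right_row (hv : vl.val xs = l) (hx0 : vx.val xs = x)
    (hy : |hl.val xs - hx.val xs| ≤ 13 / 100) (hes : ∀ e ∈ es, e.val xs ≤ 0)
    (k1 : l - x ≤ -(3 / 100) → ∃ e ∈ R1 c hc hx hl g es, 0 < e.val xs)
    (k2 : l - x ≤ -(3 / 100) → ∃ e ∈ R2 c hc hx hl g es, 0 < e.val xs)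
    (k3 : -(3 / 100) ≤ l - x → l - x ≤ 3 / 100 → ∃ e ∈ R3 c hc hx hl g es,
      0 < e.val xs)
    (k4 : 3 / 100 ≤ l - x → ∃ e ∈ R4 c hc hx hl g es, 0 < e.val xs) :
    0 < dvR (c.val xs) (hc.val xs) x (hx.val xs) l (hl.val xs) + g.val xs +
      uu (l - x) (hl.val xs - hx.val xs) := by
  have e1 : vs.val xs = l - x := by
    simp only [vs, E.val, hv, hx0]
  have e2 : ((3 : ℤ) : ℝ) / ((100 : ℕ) : ℝ) = 3 / 100 := by norm_num
  have e4 : ((-3 : ℤ) : ℝ) / ((100 : ℕ) : ℝ) = -(3 / 100) := by norm_num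
  refine split_uu hy ?_ ?_ ?_ ?_
  · intro h1 h2
    have := of_list (k1 h1) (all_cons (by simp only [E.val]; exact h2)
      (all_cons (by simp only [E.val, e1, e2]; linarith only [h1]) hes))
    rw [FRe_val, aN_val, hv, hx0, e1] at this
    simpa only [E.val] using this
  · intro h1 h2
    have := of_list (k2 h1) (all_cons (by simp only [E.val]; linarith only [h2])
      (all_cons (by simp only [E.val, e1, e2]; linarith only [h1]) hes))
    rw [FRe_val, aP_val, hv, hx0, e1] at this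
    simpa only [E.val] using this
  · intro h1 h2
    have := of_list (k3 h1 h2) (all_cons (by simp only [E.val, e1, e2]; linarith only [h2])
      (all_cons (by simp only [E.val, e1, e4]; linarith only [h1]) hes))
    rw [FRe_val, hv, hx0] at this
    simpa only [E.val, e2] using this
  · intro h1
    have := of_list (k4 h1) (all_cons (by simp only [E.val, e1, e2]; linarith only [h1]) hes)
    rw [FRe_val, hv, hx0] at this
    simpa only [E.val, e1] using this

/-- the inner variable moves from `l + t i` to `l' + t i` -/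
theorem left_row (hes : ∀ e ∈ es, e.val [x, T, l, t, w, S] ≤ 0)
    (k1 : ∃ e ∈ L1 c hc l' hx g es, 0 < e.val [x, T, l, t, w, S])
    (k2 : ∃ e ∈ L2 c hc l' hx g es, 0 < e.val [x, T, l, t, w, S]) :
    0 < dvL (c.val [x, T, l, t, w, S]) (hc.val [x, T, l, t, w, S]) (l'.val [x, T, l, t, w, S]) x
      (hx.val [x, T, l, t, w, S]) l t w S + g.val [x, T, l, t, w, S] +
      uu (l - x) (t - hx.val [x, T, l, t, w, S]) := by
  refine split_uu2 ?_ ?_
  · intro h2
    have := of_list k1 (all_cons (by simp only [E.val]; exact h2) hes)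
    rw [FLe_val, aN_val] at this
    exact this
  · intro h2
    have := of_list k2 (all_cons (by
      simp only [E.val]
      have h3 : vt.val [x, T, l, t, w, S] = t := rfl
      rw [h3]
      linarith only [h2]) hes)
    rw [FLe_val, aP_val] at this
    exact this

/-- the inner variable moves from `l + 20 t l i` to `l' + t i` -/
theorem ramp_row (hes : ∀ e ∈ es, e.val [x, T, l, t, w, S] ≤ 0) (h0 : 0 ≤ l) (h5 : l ≤ 5 / 100)
    (hw0 : 0 ≤ w) (ht : |t| ≤ 125 / 1000) (hS : w ≤ 6 / 100 → |S| ≤ 78 / 100 * w)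
    (k1 : l + w ≤ 6 / 100 → ∃ e ∈ P1 c hc l' hx g es, 0 < e.val [x, T, l, t, w, S])
    (k2 : l + w ≤ 6 / 100 → ∃ e ∈ P2 c hc l' hx g es, 0 < e.val [x, T, l, t, w, S])
    (k3 : 6 / 100 ≤ l + w → ∃ e ∈ P3 c hc l' hx g es, 0 < e.val [x, T, l, t, w, S])
    (k4 : 6 / 100 ≤ l + w → ∃ e ∈ P4 c hc l' hx g es, 0 < e.val [x, T, l, t, w, S]) :
    0 < dvG (c.val [x, T, l, t, w, S]) (hc.val [x, T, l, t, w, S]) (l'.val [x, T, l, t, w, S]) t x
      (hx.val [x, T, l, t, w, S]) l (20 * (t * l)) w S + g.val [x, T, l, t, w, S] +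
      (uu l (20 * (t * l)) - uu (l + w) (20 * (t * l) + S) +
        uu (l - x) (20 * (t * l) - hx.val [x, T, l, t, w, S])) := by
  have evh : vh.val [x, T, l, t, w, S] = 20 * (t * l) := by
    have h2 : vt.val [x, T, l, t, w, S] = t := rfl
    have h3 : vl.val [x, T, l, t, w, S] = l := rfl
    simp only [vh, E.val, h2, h3]
    norm_num
  have ev1 : vl.val [x, T, l, t, w, S] = l := rfl
  have ev2 : vw.val [x, T, l, t, w, S] = w := rfl
  have ev3 : vx.val [x, T, l, t, w, S] = x := rfl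
  have ev4 : vS.val [x, T, l, t, w, S] = S := rfl
  have ev5 : vt.val [x, T, l, t, w, S] = t := rfl
  have ev6 : vs.val [x, T, l, t, w, S] = l - x := rfl
  have e2 : ((6 : ℤ) : ℝ) / ((100 : ℕ) : ℝ) = 6 / 100 := by norm_num
  have e3 : ((5 : ℤ) : ℝ) / ((100 : ℕ) : ℝ) = 5 / 100 := by norm_num
  have e4 : ((1 : ℤ) : ℝ) / ((2 : ℕ) : ℝ) * Real.pi = Real.pi / 2 := by push_cast; ring
  have hhl : |20 * (t * l)| ≤ 125 / 1000 * (20 * l) := by
    rw [show 20 * (t * l) = t * (20 * l) by ring, abs_mul, abs_of_nonneg (by linarith only [h0] : 0 ≤ 20 * l)]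
    exact mul_le_mul_of_nonneg_right ht (by linarith only [h0])
  refine split_ramp h0 h5 hw0 (by linarith only [h5, hhl]) ?_ ?_ ?_ ?_ ?_
  · intro h1
    have := abs_add_le (20 * (t * l)) S
    have := hS (by linarith only [h0, h1])
    linarith
  · intro h1 h2
    have := of_list (k1 h1) (all_cons (by simp only [E.val, evh]; exact h2)
      (all_cons (by simp only [E.val, ev1, ev2, e2]; linarith only [h1]) hes))
    rw [FGe_val] at this
    simp only [E.val, aN_val, evh, ev1, ev2, ev3, ev4, ev5, ev6, e3, e4] at this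
    exact this
  · intro h1 h2
    have := of_list (k2 h1) (all_cons (by simp only [E.val, evh]; linarith only [h2])
      (all_cons (by simp only [E.val, ev1, ev2, e2]; linarith only [h1]) hes))
    rw [FGe_val] at this
    simp only [E.val, aP_val, evh, ev1, ev2, ev3, ev4, ev5, ev6, e3, e4] at this
    exact this
  · intro h1 h2
    have := of_list (k3 h1) (all_cons (by simp only [E.val, evh]; exact h2)
      (all_cons (by simp only [E.val, ev1, ev2, e2]; linarith only [h1]) hes))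
    rw [FGe_val] at this
    simp only [E.val, aN_val, evh, ev1, ev2, ev3, ev4, ev5, ev6, e3] at this
    exact this
  · intro h1 h2
    have := of_list (k4 h1) (all_cons (by simp only [E.val, evh]; linarith only [h2])
      (all_cons (by simp only [E.val, ev1, ev2, e2]; linarith only [h1]) hes))
    rw [FGe_val] at this
    simp only [E.val, aP_val, evh, ev1, ev2, ev3, ev4, ev5, ev6, e3] at this
    exact this

/-- side of a digit `2` or side `S2` of an inner digit `3` -/
theorem other_row {cc k hk : ℝ} (hv : vl.val xs = k) (hx0 : vx.val xs = x) (ht : vt.val xs = hk)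
    (hcc : c.val xs = cc) (hy : |hk + hx.val xs| ≤ 14 / 100)
    (hy' : 97 / 100 ≤ cc + k → |hk + hc.val xs| ≤ 14 / 100)
    (k1 : x + k ≤ 97 / 100 → ∃ e ∈ O1 c hc hx g es, 0 < e.val xs)
    (k2 : 97 / 100 ≤ x + k → x + k ≤ 103 / 100 → ∃ e ∈ O2 c hc hx g es, 0 < e.val xs)
    (k3 : 103 / 100 ≤ x + k → cc + k ≤ 97 / 100 → ∃ e ∈ O3 c hc hx g es, 0 < e.val xs)
    (k4 : 103 / 100 ≤ x + k → cc + k ≤ 97 / 100 → ∃ e ∈ O4 c hc hx g es, 0 < e.val xs)
    (k5 : 97 / 100 ≤ cc + k → cc + k ≤ 103 / 100 → ∃ e ∈ O5 c hc hx g es, 0 < e.val xs)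
    (k6 : 97 / 100 ≤ cc + k → cc + k ≤ 103 / 100 → ∃ e ∈ O6 c hc hx g es, 0 < e.val xs)
    (k7 : 103 / 100 ≤ cc + k → ∃ e ∈ O7 c hc hx g es, 0 < e.val xs)
    (k8 : 103 / 100 ≤ cc + k → ∃ e ∈ O8 c hc hx g es, 0 < e.val xs)
    (hes : ∀ e ∈ es, e.val xs ≤ 0) :
    g.val xs < dvO cc (hc.val xs) x (hx.val xs) k hk +
      (uu (cc + k) (hc.val xs + hk) - uu (x + k) (hx.val xs + hk)) := by
  have e1 : vk.val xs = x + k := by
    simp only [vk, E.val, hv, hx0]
  have e2 : ((3 : ℤ) : ℝ) / ((100 : ℕ) : ℝ) = 3 / 100 := by norm_num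
  have e3 : ((97 : ℤ) : ℝ) / ((100 : ℕ) : ℝ) = 97 / 100 := by norm_num
  have e5 : ((103 : ℤ) : ℝ) / ((100 : ℕ) : ℝ) = 103 / 100 := by norm_num
  have key : 0 < (dvO cc (hc.val xs) x (hx.val xs) k hk - g.val xs) +
      (uu (cc + k) (hk + hc.val xs) - uu (x + k) (hk + hx.val xs)) := by
    refine split_one hy hy' ?_ ?_ ?_ ?_ ?_ ?_ ?_ ?_
    · intro h1
      have := of_list (k1 h1) (all_cons (by simp only [E.val, e1, e3]; linarith only [h1]) hes)
      rw [FOe_val] at this
      simp only [E.val, hv, hx0, ht, hcc, e1] at this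
      exact this
    · intro h1 h2
      have := of_list (k2 h1 h2) (all_cons (by simp only [E.val, e1, e3]; linarith only [h1])
        (all_cons (by simp only [E.val, e1, e5]; linarith only [h2]) hes))
      rw [FOe_val] at this
      simp only [E.val, hv, hx0, ht, hcc, e3] at this
      exact this
    · intro h1 h2 h3
      have := of_list (k3 h1 h2) (all_cons (by simp only [E.val, ht]; exact h3)
        (all_cons (by simp only [E.val, e1, e5]; linarith only [h1]) hes))
      rw [FOe_val] at this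
      simp only [E.val, hv, hx0, ht, hcc, bN_val, e1] at this
      exact this
    · intro h1 h2 h3
      have := of_list (k4 h1 h2) (all_cons (by simp only [E.val, ht]; linarith only [h3])
        (all_cons (by simp only [E.val, e1, e5]; linarith only [h1]) hes))
      rw [FOe_val] at this
      simp only [E.val, hv, hx0, ht, hcc, bP_val, e1] at this
      exact this
    · intro h1 h2 h3
      have := of_list (k5 h1 h2) (all_cons (by simp only [E.val, ht]; exact h3) hes)
      rw [FOe_val] at this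
      simp only [E.val, hv, hx0, ht, hcc, bN_val, e1, e2] at this
      exact this
    · intro h1 h2 h3
      have := of_list (k6 h1 h2) (all_cons (by simp only [E.val, ht]; linarith only [h3]) hes)
      rw [FOe_val] at this
      simp only [E.val, hv, hx0, ht, hcc, bP_val, e1, e2] at this
      exact this
    · intro h1 h3
      have := of_list (k7 h1) (all_cons (by simp only [E.val, ht]; exact h3) hes)
      rw [FOe_val] at this
      simp only [E.val, hv, hx0, ht, hcc, bN_val, e1] at this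
      exact this
    · intro h1 h3
      have := of_list (k8 h1) (all_cons (by simp only [E.val, ht]; linarith only [h3]) hes)
      rw [FOe_val] at this
      simp only [E.val, hv, hx0, ht, hcc, bP_val, e1] at this
      exact this
  rw [add_comm (hc.val xs) hk, add_comm (hx.val xs) hk]
  linarith only [key]

end

end V2A

end Pool.Agent.Work.MP_b30479_gt.G2
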