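import Pool.Agent.Work.MP_b30479_gt.G2.V2WC
import Pool.Agent.Work.NumU.TreeS

/-!
# Certificates of the value moves of an inner digit `3`, part 10
-/

namespace Pool.Agent.Work.MP_b30479_gt.G2

open VOL NumU

namespace V2A

open NumU.E
open NumI (V)

theorem w2L_1_p9 : runT (L1 (q 27 100) vT (q 42 100) eh27 (q (-2) 100) [add vs (q 9 100), ecw]) 57
    848614528401970415863101272005756865107654925029770669946729628518839450525182560572034712133939526924089275560224732017776114564137415107991334822028263170363270835401127597115661727373190552560253306188745616926578271649444894210730426637482710516403821168341845160555838110613008312931165755374362444112497883064048899653522414184702134322682670846622814374468905311306209086800582939533022777476431389343904041186998916582174449529789708347751892553912755032080454435182451139596908880489388617079296550341214380949418993588446713963531794350698359741178868144640719653253368779587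
    (NumI.setR 2 (NumI.setL 2 (NumI.setR 4 ([V.of 10000 3800 5000, V.of 10000 (-570) 50, V.of 10000 500 4100, V.of 10000 (-1140) 50, V.of 10000 0 3900, V.of 10000 (-1145) 570])))) =
    106647757719931518466175885101423594862034666625627404914637109081427692130935940263918971901715023176713006286792520706918756396094352052139239708156794831978750570201289435356372743910227560819595224528878068914401443970668029874396417924494095013409982514441935404269578299756740042654470841024234163559097542105087427338196983368617950736190914320537669368840494928230456455535055714724287584715916899471843917683617480823392479234649993739875257692454556803458008929892594377533363672302494467 := by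
  decide +kernel

theorem w33P_3_p1 : runT (P3 (q 27 100) vT (q 42 100) eh30 (q 2 100) [ecw]) 57
    565503734058598698112919691996976377313909820826766568145615590535346454174654079342146454275209859301704478829639173482878168473184797706317683874554729756455525890200624706320751170
    (NumI.setL 4 (NumI.setL 4 (NumI.setL 4 ([V.of 10000 3800 5000, V.of 10000 (-280) 220, V.of 10000 0 500, V.of 10000 (-1140) 50, V.of 10000 100 3900, V.of 10000 (-1145) 570])))) =
    277611068546853027346769658061444762502883056023971983556492269571132474787294327700696105555 := by
  decide +kernel

theorem w33L_1_p6 : runT (L1 (q 27 100) vT (q 42 100) eh30 (q 2 100) [add vs (q 13 100), ecw]) 57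
    30670396365085296583816813301481109513129974808203581384771582691003279138029837547443394240291185448017846724572309985366027487742849685228793227709367407457154083
    (NumI.setL 2 (NumI.setR 2 (NumI.setR 4 ([V.of 10000 3800 5000, V.of 10000 (-280) 220, V.of 10000 500 3700, V.of 10000 (-1140) 50, V.of 10000 0 3900, V.of 10000 (-1145) 570])))) =
    252604210529739944787177175151735840916928974347004747264900461110645518223253537 := by
  decide +kernel

end V2A

end Pool.Agent.Work.MP_b30479_gt.G2
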