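import Pool.Agent.Work.MP_b30479_gt.G2.V2WC
import Pool.Agent.Work.NumU.TreeS

/-!
# Certificates of the value moves of an inner digit `3`, part 15
-/

namespace Pool.Agent.Work.MP_b30479_gt.G2

open VOL NumU

namespace V2A

open NumU.E
open NumI (V)

theorem w2P_3_p3 : runT (P3 (q 27 100) vT (q 42 100) eh27 (q (-2) 100) [ecw]) 57
    94629120279922649517085718226614432916635832610805905928138951465224015701263062210123447367870343690881229686517108784763976778322
    (NumI.setR 4 (NumI.setL 4 (NumI.setL 4 ([V.of 10000 3800 5000, V.of 10000 (-570) 50, V.of 10000 0 500, V.of 10000 (-1140) 50, V.of 10000 100 3900, V.of 10000 (-1145) 570])))) =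
    61748382136534905284883608759070098152481868310031803373589068428228239590227 := by
  decide +kernel

theorem w2eP_4 : chkT (P4 (q 18 100) vT (q 42 100) eh30 (q 0 1) [ecw]) 60
    190275872577586182224035483432014111201043524
    [V.of 10000 3800 5000, V.of 10000 (-980) (-760), V.of 10000 0 500, V.of 10000 (-1230) (-640), V.of 10000 100 3900, V.of 10000 (-1145) 570] = true := by
  decide +kernel

theorem w33L_2 : chkT (L2 (q 27 100) vT (q 42 100) eh30 (q 2 100) [add vs (q 13 100), ecw]) 60
    49421285319931479127387923956229956775893570451
    [V.of 10000 3800 5000, V.of 10000 (-280) 220, V.of 10000 500 3700, V.of 10000 (-1140) 50, V.of 10000 0 3900, V.of 10000 (-1145) 570] = true := by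
  decide +kernel

theorem w33L_1_p2 : runT (L1 (q 27 100) vT (q 42 100) eh30 (q 2 100) [add vs (q 13 100), ecw]) 56
    1061879982813200279950892007661598021262643379044436724722414384002003557999432799323519812495374578565390608679039588187628389586144679712251755270326164034490101254075016537568905681557633357591439089943876193426520104279859392040591876377903056905738834033273479414433262621559603245630536606178990910799423155625109792286481731456195924629917014201390609561645638912413091617842939795195503244282248661759891990318507667800633234166611
    (NumI.setR 2 (NumI.setL 4 (NumI.setL 2 (NumI.setL 4 ([V.of 10000 3800 5000, V.of 10000 (-280) 220, V.of 10000 500 3700, V.of 10000 (-1140) 50, V.of 10000 0 3900, V.of 10000 (-1145) 570]))))) =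
    195036550163778856145319230446088070468929340053763840097535659133488779476204234808255809931127555483282983231289520435589234424726350408672115067680868983235348677816760254165038773171129534891670997683526287304885890697190433601271548018195612312325033108991426479145524650505844185701299953090148708369764833512265509107694461174080490279503993170928062331396321257231960439941906254644224603443 := by
  decide +kernel

theorem w33P_1 : chkT (P1 (q 27 100) vT (q 42 100) eh30 (q 2 100) [ecw]) 60
    2903052278767689603881149911022524442659
    [V.of 10000 3800 5000, V.of 10000 (-280) 220, V.of 10000 0 500, V.of 10000 (-1140) 50, V.of 10000 0 600, V.of 10000 (-1145) 570] = true := by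
  decide +kernel

theorem wo2_4_p3 : runT (O4 (q 27 100) vT eh27 (q (-2) 100) []) 58
    3502372923308175523365926643302846165759912747439971992168570912
    (NumI.setR 2 (NumI.setR 3 ([V.of 10000 3800 5000, V.of 10000 (-50) 570, V.of 10000 5300 7000, V.of 10000 (-985) 960]))) =
    1 := by
  decide +kernel

end V2A

end Pool.Agent.Work.MP_b30479_gt.G2
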