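import Pool.Agent.Work.MP_b30479_gt.G2.V2WC
import Pool.Agent.Work.NumU.TreeS

/-!
# Certificates of the value moves of an inner digit `3`, part 18
-/

namespace Pool.Agent.Work.MP_b30479_gt.G2

open VOL NumU

namespace V2A

open NumU.E
open NumI (V)

theorem w33P_3_p3 : runT (P3 (q 27 100) vT (q 42 100) eh30 (q 2 100) [ecw]) 58
    3341621686298261070504479719359326226932265693295814411090
    (NumI.setR 4 (NumI.setL 4 ([V.of 10000 3800 5000, V.of 10000 (-280) 220, V.of 10000 0 500, V.of 10000 (-1140) 50, V.of 10000 100 3900, V.of 10000 (-1145) 570]))) =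
    674835125340009003493426234404 := by
  decide +kernel

theorem w2P_2 : chkT (P2 (q 27 100) vT (q 42 100) eh27 (q (-2) 100) [ecw]) 60
    2395321036997411
    [V.of 10000 3800 5000, V.of 10000 (-570) 50, V.of 10000 0 500, V.of 10000 (-1140) 50, V.of 10000 0 600, V.of 10000 (-1145) 570] = true := by
  decide +kernel

theorem wo3_1_p2 : runT (O1 (q 27 100) vT eh30 (q 2 100) []) 58
    7068804744389061085557109749004838269550902719164393524309648810023338963045146374490064194813647789696128596720468613378258213467565693217299971577221775949638706749636533479372122376536558098640591189109013084364060431215268762576303234666440550974357780172736606872694928894095502924005576656600534067003797506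
    (NumI.setL 2 (NumI.setR 2 ([V.of 1000 380 500, V.of 1000 (-22) 22, V.of 1000 0 590, V.of 1000 (-116) 5]))) =
    365448639905093235422873706445535732519589817908332326900026680276536319746711272486889173981066069416771764789911302374407683369856143995269663216240049254000641557772056983708185598486916919094450972539423484906900005584565119996305817148261558314981332537174868197731875917672131080195 := by
  decide +kernel

theorem wo2_2 : chkT (O2 (q 27 100) vT eh27 (q (-2) 100) []) 60
    40149915649817286574883
    [V.of 10000 3800 5000, V.of 10000 (-50) 570, V.of 10000 4700 6500, V.of 10000 (-985) 960] = true := by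
  decide +kernel

theorem w33P_2 : chkT (P2 (q 27 100) vT (q 42 100) eh30 (q 2 100) [ecw]) 60
    142837811
    [V.of 10000 3800 5000, V.of 10000 (-280) 220, V.of 10000 0 500, V.of 10000 (-1140) 50, V.of 10000 0 600, V.of 10000 (-1145) 570] = true := by
  decide +kernel

theorem wo2_7 : chkT (O7 (q 27 100) vT eh27 (q (-2) 100) []) 60
    691443364177412147
    [V.of 10000 3800 5000, V.of 10000 (-50) 570, V.of 10000 7600 8000, V.of 10000 (-985) 960] = true := by
  decide +kernel

theorem wo2_5 : chkT (O5 (q 27 100) vT eh27 (q (-2) 100) []) 60
    2683362481832707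
    [V.of 10000 3800 5000, V.of 10000 (-50) 570, V.of 10000 7000 7600, V.of 10000 (-985) 960] = true := by
  decide +kernel

theorem wo3_7 : chkT (O7 (q 27 100) vT eh30 (q 2 100) []) 60
    36515710979
    [V.of 1000 380 500, V.of 1000 (-22) 22, V.of 1000 760 800, V.of 1000 (-116) 5] = true := by
  decide +kernel

theorem wo3_8 : chkT (O8 (q 27 100) vT eh30 (q 2 100) []) 60
    36516135315
    [V.of 1000 380 500, V.of 1000 (-22) 22, V.of 1000 760 800, V.of 1000 (-116) 5] = true := by
  decide +kernel

theorem wo3_2 : chkT (O2 (q 27 100) vT eh30 (q 2 100) []) 60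
    142772259
    [V.of 1000 380 500, V.of 1000 (-22) 22, V.of 1000 470 650, V.of 1000 (-116) 5] = true := by
  decide +kernel

theorem wo3_6 : chkT (O6 (q 27 100) vT eh30 (q 2 100) []) 60
    143143059
    [V.of 1000 380 500, V.of 1000 (-22) 22, V.of 1000 700 760, V.of 1000 (-116) 5] = true := by
  decide +kernel

theorem wen_5 : chkT (M3 vt) 60
    559139
    [V.of 1000 380 500, V.of 1000 5 28, V.of 1000 350 570, V.of 1000 (-45) 59] = true := by
  decide +kernel

theorem wo3_5 : chkT (O5 (q 27 100) vT eh30 (q 2 100) []) 60
    559152
    [V.of 1000 380 500, V.of 1000 (-22) 22, V.of 1000 700 760, V.of 1000 (-116) 5] = true := by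
  decide +kernel

end V2A

end Pool.Agent.Work.MP_b30479_gt.G2
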