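import Pool.Agent.Work.MP_b30479_gt.G2.V2WC
import Pool.Agent.Work.NumU.TreeS

/-!
# Certificates of the value moves of an inner digit `3`, part 11
-/

namespace Pool.Agent.Work.MP_b30479_gt.G2

open VOL NumU

namespace V2A

open NumU.E
open NumI (V)

theorem wen_6_p1 : runT (M4 vt) 59
    5714657446547488243916084233840807659867154291021981076285523137801510923358604385345129155887306584917028058731693589533468249324017712621315748346359286267787727363256892606803106936259774022548877261171225286570591909171489078767470941246031140177130766376887212098386244386948970798411384128406064
    (NumI.setL 2 ([V.of 1000 380 500, V.of 1000 5 28, V.of 1000 410 570, V.of 1000 (-45) 59])) =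
    336227209538401246934716370033925883160567980612904824228211475369246301363915046339297692092548869166338175664325409 := by
  decide +kernel

theorem w2eL_1_p5 : runT (L1 (q 18 100) vT (q 42 100) eh30 (q 0 1) [add vs (q 7 100), ecw]) 57
    4657854539397050339942404488679528925519657119190061651079558654241919822236799077713990098607939668
    (NumI.setR 2 (NumI.setR 2 (NumI.setR 4 ([V.of 10000 3800 5000, V.of 10000 (-980) (-760), V.of 10000 500 4300, V.of 10000 (-1230) (-640), V.of 10000 0 3900, V.of 10000 (-1145) 570])))) =
    1 := by
  decide +kernel

theorem w33L_1_p5 : runT (L1 (q 27 100) vT (q 42 100) eh30 (q 2 100) [add vs (q 13 100), ecw]) 58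
    909155653849552622622637015087475055299463141165081086105508142964074660412924912097247612985959752485389377817329923550998216403983466729485184907366759320299928405692927137810696798175988795532568677139968883783561724130164572685006870369330
    (NumI.setL 2 (NumI.setR 4 ([V.of 10000 3800 5000, V.of 10000 (-280) 220, V.of 10000 500 3700, V.of 10000 (-1140) 50, V.of 10000 0 3900, V.of 10000 (-1145) 570]))) =
    490726341841364745341069012823697752210079596931257302156345323056052466208477400759094307844658967168285547593156959765856439803885594963660691643349878519314465331 := by
  decide +kernel

theorem wo2_8 : chkT (O8 (q 27 100) vT eh27 (q (-2) 100) []) 60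
    157374216937476200755
    [V.of 10000 3800 5000, V.of 10000 (-50) 570, V.of 10000 7600 8000, V.of 10000 (-985) 960] = true := by
  decide +kernel

end V2A

end Pool.Agent.Work.MP_b30479_gt.G2
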