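import Pool.Agent.Work.MP_b30479_gt.G2.V2WC
import Pool.Agent.Work.NumU.TreeS

/-!
# Certificates of the value moves of an inner digit `3`, part 3
-/

namespace Pool.Agent.Work.MP_b30479_gt.G2

open VOL NumU

namespace V2A

open NumU.E
open NumI (V)

theorem wen_3 : chkT (M1 vt) 60
    369160352432986028010463043842158124282665731168597970621974596070674136425633861994013001236817891729779104753507818601928656086378547547405148082626800829418703273853855036483943439647866731214045753889975485588559467772702624275127026785716548816228458278556907774323228706
    [V.of 1000 380 500, V.of 1000 5 28, V.of 1000 100 570, V.of 1000 (-45) 59] = true := by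
  decide +kernel

theorem wen_4 : chkT (M2 vt) 60
    6190992125606518695864327583660683507393056058581620607461087105749742688009827709205774004101075242922596049271000663007369143742004271705761303864819870392108481533589901049147752325677714889207906078071551913050857032344237644209886066410482400608789753194211562550822455629449250
    [V.of 1000 380 500, V.of 1000 5 28, V.of 1000 100 570, V.of 1000 (-45) 59] = true := by
  decide +kernel

theorem w2eL_1_p4 : runT (L1 (q 18 100) vT (q 42 100) eh30 (q 0 1) [add vs (q 7 100), ecw]) 57
    351937538542893758740632772187165402133012508113439705789414012978201066605248620356087671852793724483668103278710822044704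
    (NumI.setL 2 (NumI.setR 2 (NumI.setR 4 ([V.of 10000 3800 5000, V.of 10000 (-980) (-760), V.of 10000 500 4300, V.of 10000 (-1230) (-640), V.of 10000 0 3900, V.of 10000 (-1145) 570])))) =
    4657854539397050339942404488679528925519657119190061651079558654241919822236799077713990098607939669 := by
  decide +kernel

theorem wen_1 : chkT (M1 wE1) 60
    557186
    [V.of 1000 380 500, V.of 1000 5 28, V.of 1000 0 100, V.of 1000 (-45) 59] = true := by
  decide +kernel

end V2A

end Pool.Agent.Work.MP_b30479_gt.G2
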