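import Pool.Agent.Work.MP_b30479_gt.G2.V2WC
import Pool.Agent.Work.NumU.TreeS

/-!
# Certificates of the value moves of an inner digit `3`, part 9
-/

namespace Pool.Agent.Work.MP_b30479_gt.G2

open VOL NumU

namespace V2A

open NumU.E
open NumI (V)

theorem w2eL_1_p2 : runT (L1 (q 18 100) vT (q 42 100) eh30 (q 0 1) [add vs (q 7 100), ecw]) 58
    3903226189365430912885330131865608564223101095114245564866703662924231381412493451528350554775994782513864984686032021949234252100506747041732681564244701140482245755946054984013385781133236297320058702840325920720542624410015400757541941920948986020354
    (NumI.setR 2 (NumI.setL 4 ([V.of 10000 3800 5000, V.of 10000 (-980) (-760), V.of 10000 500 4300, V.of 10000 (-1230) (-640), V.of 10000 0 3900, V.of 10000 (-1145) 570]))) =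
    103873627254912837592346113383102123789372369715507634823901455753763501955270012125244243245989185097784433132444099070770693348212884529239075 := by
  decide +kernel

theorem wo2_1_p3 : runT (O1 (q 27 100) vT eh27 (q (-2) 100) []) 57
    12489060075244945307562818336767697722222579089802040267615899755870388943418431864496886434020976769544242621390768927764256964940329326739260155346557850938667038637153703349250416676232504093418347202603575109555363668008559059231945926038575836850427320922432261371729614387969295094889206605301473480442922179363213627445773220724605333355660069272154598865567153349910603124715552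
    (NumI.setL 3 (NumI.setR 2 (NumI.setR 2 ([V.of 10000 3800 5000, V.of 10000 (-50) 570, V.of 10000 1250 5900, V.of 10000 (-985) 960])))) =
    43797821813199137053433474045754601427834421839346672150942263009657861101324588041802168420040146489801171802762237642711390555042588025637451218337272847554874998853629611767991227700680863777 := by
  decide +kernel

theorem w33L_1_p7 : runT (L1 (q 27 100) vT (q 42 100) eh30 (q 2 100) [add vs (q 13 100), ecw]) 57
    252604210529739944787177175151735840916928974347004747264900461110645518223253536
    (NumI.setR 2 (NumI.setR 2 (NumI.setR 4 ([V.of 10000 3800 5000, V.of 10000 (-280) 220, V.of 10000 500 3700, V.of 10000 (-1140) 50, V.of 10000 0 3900, V.of 10000 (-1145) 570])))) =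
    1 := by
  decide +kernel

end V2A

end Pool.Agent.Work.MP_b30479_gt.G2
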