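import Pool.Agent.Work.MP_b30479_gt.G2.V2WD
import Pool.Agent.Work.MP_b30479_gt.G2.V2Wp3
import Pool.Agent.Work.MP_b30479_gt.G2.V2Wp9
import Pool.Agent.Work.MP_b30479_gt.G2.V2Wp11
import Pool.Agent.Work.MP_b30479_gt.G2.V2Wp17

/-!
# Value moves of the hinge on the side `S3` of an inner digit `3`: `w2eL`
-/

namespace Pool.Agent.Work.MP_b30479_gt.G2

open VOL NumU

namespace V2A

open NumU.E

section
open NumI (V)

theorem w2eL_1 : chkT (L1 (q 18 100) vT (q 42 100) eh30 (q 0 1) [add vs (q 7 100), ecw]) 60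
    1266669317574562071829188172743060324178716874091761506523523988299436982274396888944831075507080846620634839358445685254813686709271675451864408592724139016352702170748158642440349069362389249779429269094122448701013962232583209133577284503402185924834640141856469979899654950379209252
    [V.of 10000 3800 5000, V.of 10000 (-980) (-760), V.of 10000 500 4300, V.of 10000 (-1230) (-640), V.of 10000 0 3900, V.of 10000 (-1145) 570] = true :=
  chkT_of (r := 0) (runT_split rfl rfl rfl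
    (runT_split rfl rfl rfl
    w2eL_1_p1
    w2eL_1_p2)
    (runT_split rfl rfl rfl
    w2eL_1_p3
    (runT_split rfl rfl rfl
    w2eL_1_p4
    w2eL_1_p5)))

end

variable {x T l h t w S k κ : ℝ}

theorem w2eL (hx : 38 / 100 ≤ x) (hx' : x ≤ 1 / 2) (hT : -(98 / 1000) ≤ T) (hT' : T ≤ -(76 / 1000))
    (hl : 5 / 100 ≤ l) (hl' : l ≤ x - 7 / 100) (ht : -(123 / 1000) ≤ t) (ht' : t ≤ -(64 / 1000)) (hw : 0 ≤ w)
    (hw' : w ≤ 39 / 100) (hS : -(1145 / 10000) ≤ S) (hS' : S ≤ 57 / 1000)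
    (hs : |S| ≤ 78 / 100 * w) :
    0 < dvL (18 / 100) T (42 / 100) x (h30 x T) l t w S + 0 + uu (l - x) (t - h30 x T) := by
  have ed : (add vs (q 7 100)).val [x, T, l, t, w, S] ≤ 0 := by
    simp only [E.val, vs_val]
    push_cast
    linarith only [hl']
  have := left_row (c := q 18 100) (hc := vT) (l' := q 42 100) (hx := eh30) (g := q 0 1) (es := [add vs (q 7 100), ecw])
    (x := x) (T := T) (l := l) (t := t) (w := w) (S := S) (all_cons ed (all_cons (ecw_val hs)
      all_nil))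
    (use6 w2eL_1 (by norm_num) (by
      refine ⟨⟨?_, ?_⟩, ⟨?_, ?_⟩, ⟨?_, ?_⟩, ⟨?_, ?_⟩, ⟨?_, ?_⟩, ⟨?_, ?_⟩⟩ <;>
        push_cast <;> linarith))
    (use6 w2eL_2 (by norm_num) (by
      refine ⟨⟨?_, ?_⟩, ⟨?_, ?_⟩, ⟨?_, ?_⟩, ⟨?_, ?_⟩, ⟨?_, ?_⟩, ⟨?_, ?_⟩⟩ <;>
        push_cast <;> linarith))
  rw [eh30_val] at this
  have e : (q 18 100).val [x, T, l, t, w, S] = 18 / 100 := by norm_num [E.val]
  have e' : (q 42 100).val [x, T, l, t, w, S] = 42 / 100 := by norm_num [E.val]
  have e'' : (q 0 1).val [x, T, l, t, w, S] = 0 := by norm_num [E.val]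
  rw [e, e', e''] at this
  exact this

end V2A

end Pool.Agent.Work.MP_b30479_gt.G2
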