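import Pool.Agent.Work.MP_b30479_gt.G2.V2WC
import Pool.Agent.Work.NumU.TreeS

/-!
# Certificates of the value moves of an inner digit `3`, part 4
-/

namespace Pool.Agent.Work.MP_b30479_gt.G2

open VOL NumU

namespace V2A

open NumU.E
open NumI (V)

theorem w2L_2 : chkT (L2 (q 27 100) vT (q 42 100) eh27 (q (-2) 100) [add vs (q 9 100), ecw]) 60
    341093162254862719225494815764056243447150552569828945855014444581302497136442280500875922506606683339109057519953043
    [V.of 10000 3800 5000, V.of 10000 (-570) 50, V.of 10000 500 4100, V.of 10000 (-1140) 50, V.of 10000 0 3900, V.of 10000 (-1145) 570] = true := by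
  decide +kernel

theorem w33L_1_p4 : runT (L1 (q 27 100) vT (q 42 100) eh30 (q 2 100) [add vs (q 13 100), ecw]) 58
    546608836463426920998760995607859202356103577388887211185538491693575973170750753649394346031333127458549593380073644764172566137016145555940319931781836835043445972951409859828661116348091790945996591930624639844946261873320252278170718628405728521605440062388235746933012908972048803157116764626372063350404178366593430404404532102801922074199415013938
    (NumI.setR 2 (NumI.setL 4 ([V.of 10000 3800 5000, V.of 10000 (-280) 220, V.of 10000 500 3700, V.of 10000 (-1140) 50, V.of 10000 0 3900, V.of 10000 (-1145) 570]))) =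
    14546490461592841961962192241399600884791410258641297377688130287425194566606798593555961807775356039766230045077278776815971462463735467671762958517868149124798854491086834204971148770815820728521098834239502140536987586082633162960109925909283 := by
  decide +kernel

theorem w2eP_3 : chkT (P3 (q 18 100) vT (q 42 100) eh30 (q 0 1) [ecw]) 60
    189949201271688485909011477478330159232984132
    [V.of 10000 3800 5000, V.of 10000 (-980) (-760), V.of 10000 0 500, V.of 10000 (-1230) (-640), V.of 10000 100 3900, V.of 10000 (-1145) 570] = true := by
  decide +kernel

end V2A

end Pool.Agent.Work.MP_b30479_gt.G2
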