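import Pool.Agent.Work.MP_b30479_gt.G2.V2WC
import Pool.Agent.Work.NumU.TreeS

/-!
# Certificates of the value moves of an inner digit `3`, part 8
-/

namespace Pool.Agent.Work.MP_b30479_gt.G2

open VOL NumU

namespace V2A

open NumU.E
open NumI (V)

theorem wo2_1_p4 : runT (O1 (q 27 100) vT eh27 (q (-2) 100) []) 57
    43797821813199137053433474045754601427834421839346672150942263009657861101324588041802168420040146489801171802762237642711390555042588025637451218337272847554874998853629611767991227700680863776
    (NumI.setR 3 (NumI.setR 2 (NumI.setR 2 ([V.of 10000 3800 5000, V.of 10000 (-50) 570, V.of 10000 1250 5900, V.of 10000 (-985) 960])))) =
    1 := by
  decide +kernel

theorem w2P_3_p2 : runT (P3 (q 27 100) vT (q 42 100) eh27 (q (-2) 100) [ecw]) 56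
    12632910883657203820331005736402943739602849909769420926051730898421305739916675147083559029246329198254280793421002280197811020932400385794936375450938328138428333195046422417294341094935143418413556284180312984993713278399570
    (NumI.setR 2 (NumI.setL 4 (NumI.setL 4 (NumI.setL 4 ([V.of 10000 3800 5000, V.of 10000 (-570) 50, V.of 10000 0 500, V.of 10000 (-1140) 50, V.of 10000 100 3900, V.of 10000 (-1145) 570]))))) =
    94629120279922649517085718226614432916635832610805905928138951465224015701263062210123447367870343690881229686517108784763976778323 := by
  decide +kernel

theorem w2L_1_p4 : runT (L1 (q 27 100) vT (q 42 100) eh27 (q (-2) 100) [add vs (q 9 100), ecw]) 57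
    5213682950377095127165446199199771252070965509319514336126463016039919074569027736849748049535069554214375964086353813692536434741273891535950532394455334878509536174414819847912982698084580248783630938737035299309350361419530566622017866809949628506549044667324896885917633767522841138241976364531915501120874142106953113225813540499264725092919217761474142778813956919939694496497305376602862861250216483783025801560008960082530110166564358810697234808245712408784807863685500456286998476633169390584109825740692774615199087595787641294798805759705945703325012462378693608668655361242880384321441948682252550506503294996952837840638837047549986914823638810859276912207447230933164483697739916415098440730789083002104220798109040197302276507924995745889199751424387012397609481879036640725325101507365539245250481252993036870647236678554231502886961612034602184309273769016098534169272377077079209617162947263992243195906591343969100268279803592434656484887756380617455507792530983174092082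
    (NumI.setR 4 (NumI.setL 2 (NumI.setL 4 ([V.of 10000 3800 5000, V.of 10000 (-570) 50, V.of 10000 500 4100, V.of 10000 (-1140) 50, V.of 10000 0 3900, V.of 10000 (-1145) 570])))) =
    47213439617365388728836059012400857671550868838146281178342356977702608567501381598868788475314685021809026272347432836915649169456989184947572113536657305621978673234500737378138117276562371362445044522186877476401727214045488132294839111501475216815236882379128758311810834267944363621067770120562119491383438365101398419422361397541124873975329514471963769321420901365670377123136742208549569902350917484375697436173412400078975237623616458817231520727553107628883467902133307960602599877705011356406258374102381857053278636039826470168236084866793990642265272949565997372259319000877301586059668400024373010911454581973738447314329940294598239336786852490486911161503690038320758340242685076802267797123491140316046719513894535359856846803677409321175850038849961142611551482583801163528282151827471815542093035269851139530121435963013938291087859268649852124807290145082583160260404078130225111731072901242355458819 := by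
  decide +kernel

theorem w2eP_1 : chkT (P1 (q 18 100) vT (q 42 100) eh30 (q 0 1) [ecw]) 60
    2179
    [V.of 10000 3800 5000, V.of 10000 (-980) (-760), V.of 10000 0 500, V.of 10000 (-1230) (-640), V.of 10000 0 600, V.of 10000 (-1145) 570] = true := by
  decide +kernel

end V2A

end Pool.Agent.Work.MP_b30479_gt.G2
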