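import Pool.Agent.Work.MP_b30479_gt.G2.V2WD
import Pool.Agent.Work.MP_b30479_gt.G2.V2Wp4
import Pool.Agent.Work.MP_b30479_gt.G2.V2Wp8
import Pool.Agent.Work.MP_b30479_gt.G2.V2Wp15
import Pool.Agent.Work.MP_b30479_gt.G2.V2Wp17

/-!
# Value moves of the hinge on the side `S3` of an inner digit `3`: `w2eP`
-/

namespace Pool.Agent.Work.MP_b30479_gt.G2

open VOL NumU

namespace V2A

open NumU.E

variable {x T l h t w S k κ : ℝ}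

theorem w2eP (hx : 38 / 100 ≤ x) (hx' : x ≤ 1 / 2) (hT : -(98 / 1000) ≤ T) (hT' : T ≤ -(76 / 1000))
    (hl : 0 ≤ l) (hl' : l ≤ 5 / 100) (ht : -(123 / 1000) ≤ t) (ht' : t ≤ -(64 / 1000)) (hw : 0 ≤ w)
    (hw' : w ≤ 39 / 100) (hS : -(1145 / 10000) ≤ S) (hS' : S ≤ 57 / 1000)
    (hs : |S| ≤ 78 / 100 * w) :
    0 < dvG (18 / 100) T (42 / 100) t x (h30 x T) l (20 * (t * l)) w S + 0 +
      (uu l (20 * (t * l)) - uu (l + w) (20 * (t * l) + S) +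
        uu (l - x) (20 * (t * l) - h30 x T)) := by
  have := ramp_row (c := q 18 100) (hc := vT) (l' := q 42 100) (hx := eh30) (g := q 0 1) (es := [ecw])
    (x := x) (T := T) (l := l) (t := t) (w := w) (S := S) (all_cons (ecw_val hs) all_nil) hl hl' hw
    (by rw [abs_le]; constructor <;> linarith) (fun _ => hs)
    (fun h1 => use6 w2eP_1 (by norm_num) (by
      refine ⟨⟨?_, ?_⟩, ⟨?_, ?_⟩, ⟨?_, ?_⟩, ⟨?_, ?_⟩, ⟨?_, ?_⟩, ⟨?_, ?_⟩⟩ <;>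
        push_cast <;> linarith))
    (fun h1 => use6 w2eP_2 (by norm_num) (by
      refine ⟨⟨?_, ?_⟩, ⟨?_, ?_⟩, ⟨?_, ?_⟩, ⟨?_, ?_⟩, ⟨?_, ?_⟩, ⟨?_, ?_⟩⟩ <;>
        push_cast <;> linarith))
    (fun h1 => use6 w2eP_3 (by norm_num) (by
      refine ⟨⟨?_, ?_⟩, ⟨?_, ?_⟩, ⟨?_, ?_⟩, ⟨?_, ?_⟩, ⟨?_, ?_⟩, ⟨?_, ?_⟩⟩ <;>
        push_cast <;> linarith))
    (fun h1 => use6 w2eP_4 (by norm_num) (by
      refine ⟨⟨?_, ?_⟩, ⟨?_, ?_⟩, ⟨?_, ?_⟩, ⟨?_, ?_⟩, ⟨?_, ?_⟩, ⟨?_, ?_⟩⟩ <;>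
        push_cast <;> linarith))
  rw [eh30_val] at this
  have e : (q 18 100).val [x, T, l, t, w, S] = 18 / 100 := by norm_num [E.val]
  have e' : (q 42 100).val [x, T, l, t, w, S] = 42 / 100 := by norm_num [E.val]
  have e'' : (q 0 1).val [x, T, l, t, w, S] = 0 := by norm_num [E.val]
  rw [e, e', e''] at this
  exact this

end V2A

end Pool.Agent.Work.MP_b30479_gt.G2
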