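import Pool.Agent.Work.MP_b30479_gt.G2.V2WC
import Pool.Agent.Work.NumU.TreeS

/-!
# Certificates of the value moves of an inner digit `3`, part 1
-/

namespace Pool.Agent.Work.MP_b30479_gt.G2

open VOL NumU

namespace V2A

open NumU.E
open NumI (V)

theorem w2L_1_p10 : runT (L1 (q 27 100) vT (q 42 100) eh27 (q (-2) 100) [add vs (q 9 100), ecw]) 55
    26037050224592655875531221948589744839363932281647315652987575459332932649154282290995842749442144330252198800486455250712587010765222668979306569374217488276062150928049178553801939431207900590721490363495622293555040031901374481053812969847191165383296512314925635808002514589047861976189170171932168837670298365499860189989497892728991878952859941537516935752073957087513783089613211602609273612284399285118143965726924029148554500646971127899232835071913282094240461399559174202481365308226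
    (NumI.setL 3 (NumI.setL 0 (NumI.setL 2 (NumI.setR 2 (NumI.setR 4 ([V.of 10000 3800 5000, V.of 10000 (-570) 50, V.of 10000 500 4100, V.of 10000 (-1140) 50, V.of 10000 0 3900, V.of 10000 (-1145) 570])))))) =
    37562426249043325190765467155306366818313069737666696555623299455806165510272912232520589039829675016886811404063645767858571339431881610672927356902191224953952130135346389335368437020930747842073538216587038861568930241902555476006118551161876950115608780564869041632574816829869667221029985646639583096220466813060275346828008027964273719097886373121216469304403 := by
  decide +kernel

theorem wo3_3 : chkT (O3 (q 27 100) vT eh30 (q 2 100) []) 60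
    1151434847158482112512766498029227539427047924562966538459531220407834499883040445339052025327841394634654279337686393851419687002086682645941751844007166346127341415686563324453174022506051388535139716155313022621470137237657052132246876535585806088552700368381301127520306
    [V.of 1000 380 500, V.of 1000 (-22) 22, V.of 1000 530 700, V.of 1000 (-116) 5] = true := by
  decide +kernel

theorem wen_2 : chkT (M2 wE1) 60
    2179
    [V.of 1000 380 500, V.of 1000 5 28, V.of 1000 0 100, V.of 1000 (-45) 59] = true := by
  decide +kernel

end V2A

end Pool.Agent.Work.MP_b30479_gt.G2
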