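import Pool.Agent.Work.MP_b30479_gt.G2.V2WC
import Pool.Agent.Work.NumU.TreeS

/-!
# Certificates of the value moves of an inner digit `3`, part 13
-/

namespace Pool.Agent.Work.MP_b30479_gt.G2

open VOL NumU

namespace V2A

open NumU.E
open NumI (V)

theorem wen_6_p2 : runT (M4 vt) 59
    336227209538401246934716370033925883160567980612904824228211475369246301363915046339297692092548869166338175664325408
    (NumI.setR 2 ([V.of 1000 380 500, V.of 1000 5 28, V.of 1000 410 570, V.of 1000 (-45) 59])) =
    1 := by
  decide +kernel

theorem w2L_1_p8 : runT (L1 (q 27 100) vT (q 42 100) eh27 (q (-2) 100) [add vs (q 9 100), ecw]) 57
    1429912651667894641730683733290183765677920384731301899615408622605820824513121140474635193232506491369729512753773118355650335912610060210662443887112221085285799436079628923802152525378274639781612662206889549780756124881858043505206974842496436768301670274324813918769058754060805173134958233371068558807784156731730837726850561278431457156864565191918108299153446813157601915322571636820753183091154452835362480493596700074802208534864125825888153447581238447082256637186813414468992790514487197674214135483423581485654192437805654694331532843778693180764467637099336463823057156123766797164334409876038330987987392537648531447632683565361471247171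
    (NumI.setL 2 (NumI.setL 2 (NumI.setR 4 ([V.of 10000 3800 5000, V.of 10000 (-570) 50, V.of 10000 500 4100, V.of 10000 (-1140) 50, V.of 10000 0 3900, V.of 10000 (-1145) 570])))) =
    848614528401970415863101272005756865107654925029770669946729628518839450525182560572034712133939526924089275560224732017776114564137415107991334822028263170363270835401127597115661727373190552560253306188745616926578271649444894210730426637482710516403821168341845160555838110613008312931165755374362444112497883064048899653522414184702134322682670846622814374468905311306209086800582939533022777476431389343904041186998916582174449529789708347751892553912755032080454435182451139596908880489388617079296550341214380949418993588446713963531794350698359741178868144640719653253368779588 := by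
  decide +kernel

theorem w2P_1 : chkT (P1 (q 27 100) vT (q 42 100) eh27 (q (-2) 100) [ecw]) 60
    898451164821011591277133008018372440962373282280891906986693132323
    [V.of 10000 3800 5000, V.of 10000 (-570) 50, V.of 10000 0 500, V.of 10000 (-1140) 50, V.of 10000 0 600, V.of 10000 (-1145) 570] = true := by
  decide +kernel

theorem w2L_1_p14 : runT (L1 (q 27 100) vT (q 42 100) eh27 (q (-2) 100) [add vs (q 9 100), ecw]) 55
    1828086060841989124895363116358120858413642732102482169388104793985964226608795752460616925701057675170681088973194695125784443308435755553129745979471827779
    (NumI.setL 2 (NumI.setR 0 (NumI.setR 2 (NumI.setR 2 (NumI.setR 4 ([V.of 10000 3800 5000, V.of 10000 (-570) 50, V.of 10000 500 4100, V.of 10000 (-1140) 50, V.of 10000 0 3900, V.of 10000 (-1145) 570])))))) =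
    1192881814069805418653306696282205553026741675075864968570540002810418550857567148644658618000546665524 := by
  decide +kernel

end V2A

end Pool.Agent.Work.MP_b30479_gt.G2
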