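import Pool.Agent.Work.MP_b30479_gt.G2.V2WC
import Pool.Agent.Work.NumU.TreeS

/-!
# Certificates of the value moves of an inner digit `3`, part 16
-/

namespace Pool.Agent.Work.MP_b30479_gt.G2

open VOL NumU

namespace V2A

open NumU.E
open NumI (V)

theorem w2P_3_p5 : runT (P3 (q 27 100) vT (q 42 100) eh27 (q (-2) 100) [ecw]) 59
    2903394974956505320332734291164331017251
    (NumI.setR 4 ([V.of 10000 3800 5000, V.of 10000 (-570) 50, V.of 10000 0 500, V.of 10000 (-1140) 50, V.of 10000 100 3900, V.of 10000 (-1145) 570])) =
    1 := by
  decide +kernel

theorem wo3_4 : chkT (O4 (q 27 100) vT eh30 (q 2 100) []) 60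
    4666134684173402316614640377533958810709008844223626942130327206237709342827254912836644644656944019
    [V.of 1000 380 500, V.of 1000 (-22) 22, V.of 1000 530 700, V.of 1000 (-116) 5] = true := by
  decide +kernel

theorem wen_8 : chkT (M4 wE3) 60
    3497550932230784770597043470957253856126445313377860392082154242
    [V.of 1000 380 500, V.of 1000 5 28, V.of 1000 570 770, V.of 1000 (-45) 59] = true := by
  decide +kernel

theorem wo2_3_p2 : runT (O3 (q 27 100) vT eh27 (q (-2) 100) []) 58
    8044671119033114099841817092649570267636095160482525121144615460888922880090084073051455923193112515839845812573532038952923606101200797516783940611874848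
    (NumI.setR 2 (NumI.setL 3 ([V.of 10000 3800 5000, V.of 10000 (-50) 570, V.of 10000 5300 7000, V.of 10000 (-985) 960]))) =
    18649589746859429900741746667473521005399200331151151549702602658148025694674512655124 := by
  decide +kernel

theorem w2P_3_p4 : runT (P3 (q 27 100) vT (q 42 100) eh27 (q (-2) 100) [ecw]) 58
    61748382136534905284883608759070098152481868310031803373589068428228239590226
    (NumI.setR 4 (NumI.setL 4 ([V.of 10000 3800 5000, V.of 10000 (-570) 50, V.of 10000 0 500, V.of 10000 (-1140) 50, V.of 10000 100 3900, V.of 10000 (-1145) 570]))) =
    2903394974956505320332734291164331017252 := by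
  decide +kernel

theorem wo2_0 : chkT (OW (q 27 100) vT eh27 (q (-2) 100)) 60
    13681029198761101129431048458257163244255541317464859654783234
    [V.of 1000 380 500, V.of 1000 (-5) 57, V.of 1000 0 125, V.of 1000 (-850) 770] = true := by
  decide +kernel

theorem w2L_1_p11 : runT (L1 (q 27 100) vT (q 42 100) eh27 (q (-2) 100) [add vs (q 9 100), ecw]) 55
    37562426249043325190765467155306366818313069737666696555623299455806165510272912232520589039829675016886811404063645767858571339431881610672927356902191224953952130135346389335368437020930747842073538216587038861568930241902555476006118551161876950115608780564869041632574816829869667221029985646639583096220466813060275346828008027964273719097886373121216469304402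
    (NumI.setR 3 (NumI.setL 0 (NumI.setL 2 (NumI.setR 2 (NumI.setR 4 ([V.of 10000 3800 5000, V.of 10000 (-570) 50, V.of 10000 500 4100, V.of 10000 (-1140) 50, V.of 10000 0 3900, V.of 10000 (-1145) 570])))))) =
    497134572058585334349593527265922190651923137314900242514230398720180316783822733823015542527742218976464003016314309888324855791519986812572243233644156885929177502063576578882920501570566953633710153993089928565483237199597477726302522982616822576173746191425551532908069239967207600301684409871309147332393098356128105521684059994183766852 := by
  decide +kernel

end V2A

end Pool.Agent.Work.MP_b30479_gt.G2
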