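import Pool.Agent.Work.MP_b30479_gt.G2.V2WC
import Pool.Agent.Work.NumU.TreeS

/-!
# Certificates of the value moves of an inner digit `3`, part 2
-/

namespace Pool.Agent.Work.MP_b30479_gt.G2

open VOL NumU

namespace V2A

open NumU.E
open NumI (V)

theorem w2L_1_p13 : runT (L1 (q 27 100) vT (q 42 100) eh27 (q (-2) 100) [add vs (q 9 100), ecw]) 56
    5190327110800674129933143530168920940511645964897309498631809657627656113402538962360602696120589754889493429122348905196129954457275831240487141389753349487494388761120677159831137446938070908525182672028532775943562859627055876932488734250258464114134206949490147981177570486978524873218
    (NumI.setL 0 (NumI.setR 2 (NumI.setR 2 (NumI.setR 4 ([V.of 10000 3800 5000, V.of 10000 (-570) 50, V.of 10000 500 4100, V.of 10000 (-1140) 50, V.of 10000 0 3900, V.of 10000 (-1145) 570]))))) =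
    29249376973471825998325809861729933734618283713639714710209676703775427625740732039369870811216922802730897423571115122012551092934972088850075935671549244467 := by
  decide +kernel

theorem w2L_1_p5 : runT (L1 (q 27 100) vT (q 42 100) eh27 (q (-2) 100) [add vs (q 9 100), ecw]) 57
    2950839976085336795552253688275053604471929302384142573646397311106413035468836349929299279707167813863064142021714552307228073091061824059223257096041081601373667077156296086133632329785148210152815282636679842275107950877843008268427444468842201050952305148695547394488177141746522726316735632535132468211464897818837401213897587346320304623458094654497735582588806335354398570196046388034348118896932342773481089760838275004935952351476028676076970045472069226805216743883331747537662492356563209775391148381398866065829914752489154385514755304174624415141579559347874835766207437554831349128729275001523313181965911373358652957145621268412389958549178280655431947593980627395047396265167817300141737320218196269752919969618408459991052925229838082573490627428122571413221967661487572720517634489216988471380814704365696220632589747688371143192991204290615757800455634067661447516275254883139069483192056327647216176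
    (NumI.setL 2 (NumI.setR 2 (NumI.setL 4 ([V.of 10000 3800 5000, V.of 10000 (-570) 50, V.of 10000 500 4100, V.of 10000 (-1140) 50, V.of 10000 0 3900, V.of 10000 (-1145) 570])))) =
    4680662644081553801328036193808743622551896933047620417091686215208442270955764619596473265612417305299339055711322669196844098216839432844918192053213749950945362434085028207811177015020764457058239119550425453458115683853614125306425747070940110199893226022042671002969850381743058689265665782690918228160412063954638364268699738511017446950433348991790262822422125269667751603933988126989151171415142298519376043931955676781418164986761742225369145859802437917552491036732174636020115332727181329486273502342180668878211949333889074003988329540343608734296581985292980494420944079011096517115562564141047140766701471439406895342626388079182816855821338755038919710541065229106590237696248013741642458397814345565971175526642296865458574147265402480335411729813337903477524306532819190164227149013025 := by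
  decide +kernel

theorem w2P_3_p1 : runT (P3 (q 27 100) vT (q 42 100) eh27 (q (-2) 100) [ecw]) 56
    3728577183628870711499630302830035864695060891272638969855508560756934541972812417918687973031288540658193925081694728349569440867406037758253607964184317707111647973567229459276965624170320211913466702012515123791437034791467994328276490717963684
    (NumI.setL 2 (NumI.setL 4 (NumI.setL 4 (NumI.setL 4 ([V.of 10000 3800 5000, V.of 10000 (-570) 50, V.of 10000 0 500, V.of 10000 (-1140) 50, V.of 10000 100 3900, V.of 10000 (-1145) 570]))))) =
    12632910883657203820331005736402943739602849909769420926051730898421305739916675147083559029246329198254280793421002280197811020932400385794936375450938328138428333195046422417294341094935143418413556284180312984993713278399571 := by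
  decide +kernel

theorem wo2e_1 : chkT ([eg2e]) 60
    8
    [V.of 1000 380 500, V.of 1000 (-98) (-76), V.of 1000 0 0, V.of 1000 0 0] = true := by
  decide +kernel

end V2A

end Pool.Agent.Work.MP_b30479_gt.G2
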