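import Pool.Agent.Work.MP_b30479_gt.G2.V2WC
import Pool.Agent.Work.NumU.TreeS

/-!
# Certificates of the value moves of an inner digit `3`, part 7
-/

namespace Pool.Agent.Work.MP_b30479_gt.G2

open VOL NumU

namespace V2A

open NumU.E
open NumI (V)

theorem wo2_4_p2 : runT (O4 (q 27 100) vT eh27 (q (-2) 100) []) 58
    18422957554504262280886957790680027045948743840018391841769070291454155562231884667612752357539676520818534315141220980758053133757070508236961581859708611063351751431557694650017956734806910953206778784018835259039726801708375688245562889560663162229314043140481209505286688
    (NumI.setL 2 (NumI.setR 3 ([V.of 10000 3800 5000, V.of 10000 (-50) 570, V.of 10000 5300 7000, V.of 10000 (-985) 960]))) =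
    3502372923308175523365926643302846165759912747439971992168570913 := by
  decide +kernel

theorem wo2_3_p1 : runT (O3 (q 27 100) vT eh27 (q (-2) 100) []) 58
    181746108266930964206882524498401266250873903151504947400952842319628644949702468947391329324478666960770842460056619295917101119382209023753857557211452071736758143180584488398357280844419312332474450381417461882394589402652017711739599752424599663643712845531927852570445733436202110259438607014946216517339926429736680068116482476193219053333670522267575826488825868847648
    (NumI.setL 2 (NumI.setL 3 ([V.of 10000 3800 5000, V.of 10000 (-50) 570, V.of 10000 5300 7000, V.of 10000 (-985) 960]))) =
    8044671119033114099841817092649570267636095160482525121144615460888922880090084073051455923193112515839845812573532038952923606101200797516783940611874849 := by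
  decide +kernel

theorem w2L_1_p7 : runT (L1 (q 27 100) vT (q 42 100) eh27 (q (-2) 100) [add vs (q 9 100), ecw]) 56
    40422991543822335224550076966737860201308000042334384250622325659034869939241709038234133604775501565610391673852488961668493840081507484354528986527207067677383340241485548747277485659058784374921123997549978417599073319904355902065096022631335929076383607139626597971994645317500379447425080165345143188957491456011814021136485836731037845743091170610556140606219160710664327013499128455181405183569428870342334121285601761426221253047735041533214065029980524370005522542104572722868535310110452676191355886063143840137687949632309917502681890281529625791559714150371965236429833796790629066267367484202032397415344851297185545873378841435699743453604581067945349599867869745088645834001927301998825379872623717444120298290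
    (NumI.setR 0 (NumI.setR 2 (NumI.setR 2 (NumI.setL 4 ([V.of 10000 3800 5000, V.of 10000 (-570) 50, V.of 10000 500 4100, V.of 10000 (-1140) 50, V.of 10000 0 3900, V.of 10000 (-1145) 570]))))) =
    366057638826981028283055035722287044013547618491213286301544607387090131075359011961506609467521661790650755264965918299046485993628175413929585635100728597833164655636385004493351046496838307784092841524963724743873567969755659137332985559679087812685227590227152363204879041039566124322549307742993551054792744123323094458073743687278453032157328689131035724583282384168346090322578339026112814871335539925852795006360755219149365384925216211427367282580797042453057699119824234104062154371708722604598818683756436860327473264078247601748872408007345454275703715097430134738702631967684300074069608928265812732924772489638024050593966992732536639275811 := by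
  decide +kernel

end V2A

end Pool.Agent.Work.MP_b30479_gt.G2
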