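import Pool.Agent.Work.MP_b30479_gt.G2.V2WD
import Pool.Agent.Work.MP_b30479_gt.G2.V2Wp1
import Pool.Agent.Work.MP_b30479_gt.G2.V2Wp2
import Pool.Agent.Work.MP_b30479_gt.G2.V2Wp4
import Pool.Agent.Work.MP_b30479_gt.G2.V2Wp5
import Pool.Agent.Work.MP_b30479_gt.G2.V2Wp6
import Pool.Agent.Work.MP_b30479_gt.G2.V2Wp7
import Pool.Agent.Work.MP_b30479_gt.G2.V2Wp8
import Pool.Agent.Work.MP_b30479_gt.G2.V2Wp10
import Pool.Agent.Work.MP_b30479_gt.G2.V2Wp12
import Pool.Agent.Work.MP_b30479_gt.G2.V2Wp13
import Pool.Agent.Work.MP_b30479_gt.G2.V2Wp14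
import Pool.Agent.Work.MP_b30479_gt.G2.V2Wp16

/-!
# Value moves of the hinge on the side `S3` of an inner digit `3`: `w2L`
-/

namespace Pool.Agent.Work.MP_b30479_gt.G2

open VOL NumU

namespace V2A

open NumU.E

section
open NumI (V)

theorem w2L_1 : chkT (L1 (q 27 100) vT (q 42 100) eh27 (q (-2) 100) [add vs (q 9 100), ecw]) 60
    31618504328047575998209694705260712547983974648642240824314815200092895022483680718999858772709682395592035745274883182533226002534073595772681624303671428313802282303136867228458384083894850608657116009535572143179122667061562179518826858853434792201289571601716825293675306768059407507574679740435923269596983273601453331012033433855840537517913237343980388914909791021559282674361618085110891233840013282654621134115351798718432479827967542792338537743137435632934807452570442791966374645818931466445071260524331770119618774407852099250318874971615709050988243989197870236070299764875730866339230502543103308591305222763350928769922538878551596279073778136184599407179700379151573353957812351792075093456144795705292046536776654261229862559045358539542663985286441727787223694400709897720019827598449397487686786693659166531634938990791756817688867943675726133654575265811622971626861973115979481630986609002749063166248739590322557496129446844491247603367455170900863657091610262993611342414455486586638221815351383218905573626255429682641286490709653367003790594117948415335550855105037834221140521469178984093440244493654710183599833052990442230174943112792408777104430410190830535079748179407918722574543000577060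
    [V.of 10000 3800 5000, V.of 10000 (-570) 50, V.of 10000 500 4100, V.of 10000 (-1140) 50, V.of 10000 0 3900, V.of 10000 (-1145) 570] = true :=
  chkT_of (r := 0) (runT_split rfl rfl rfl
    (runT_split rfl rfl rfl
    (runT_split rfl rfl rfl
    (runT_split rfl rfl rfl
    (runT_split rfl rfl rfl
    w2L_1_p1
    w2L_1_p2)
    w2L_1_p3)
    w2L_1_p4)
    (runT_split rfl rfl rfl
    w2L_1_p5
    (runT_split rfl rfl rfl
    w2L_1_p6
    w2L_1_p7)))
    (runT_split rfl rfl rfl
    (runT_split rfl rfl rfl
    w2L_1_p8
    w2L_1_p9)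
    (runT_split rfl rfl rfl
    (runT_split rfl rfl rfl
    (runT_split rfl rfl rfl
    w2L_1_p10
    w2L_1_p11)
    w2L_1_p12)
    (runT_split rfl rfl rfl
    w2L_1_p13
    (runT_split rfl rfl rfl
    w2L_1_p14
    w2L_1_p15)))))

end

variable {x T l h t w S k κ : ℝ}

theorem w2L (hx : 38 / 100 ≤ x) (hx' : x ≤ 1 / 2) (hT : -(57 / 1000) ≤ T) (hT' : T ≤ 5 / 1000)
    (hl : 5 / 100 ≤ l) (hl' : l ≤ x - 9 / 100) (ht : -(114 / 1000) ≤ t) (ht' : t ≤ 5 / 1000) (hw : 0 ≤ w)
    (hw' : w ≤ 39 / 100) (hS : -(1145 / 10000) ≤ S) (hS' : S ≤ 57 / 1000)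
    (hs : |S| ≤ 78 / 100 * w) :
    0 < dvL (27 / 100) T (42 / 100) x (h27 x T) l t w S + -(2 / 100) + uu (l - x) (t - h27 x T) := by
  have ed : (add vs (q 9 100)).val [x, T, l, t, w, S] ≤ 0 := by
    simp only [E.val, vs_val]
    push_cast
    linarith only [hl']
  have := left_row (c := q 27 100) (hc := vT) (l' := q 42 100) (hx := eh27) (g := q (-2) 100) (es := [add vs (q 9 100), ecw])
    (x := x) (T := T) (l := l) (t := t) (w := w) (S := S) (all_cons ed (all_cons (ecw_val hs)
      all_nil))
    (use6 w2L_1 (by norm_num) (by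
      refine ⟨⟨?_, ?_⟩, ⟨?_, ?_⟩, ⟨?_, ?_⟩, ⟨?_, ?_⟩, ⟨?_, ?_⟩, ⟨?_, ?_⟩⟩ <;>
        push_cast <;> linarith))
    (use6 w2L_2 (by norm_num) (by
      refine ⟨⟨?_, ?_⟩, ⟨?_, ?_⟩, ⟨?_, ?_⟩, ⟨?_, ?_⟩, ⟨?_, ?_⟩, ⟨?_, ?_⟩⟩ <;>
        push_cast <;> linarith))
  rw [eh27_val] at this
  have e : (q 27 100).val [x, T, l, t, w, S] = 27 / 100 := by norm_num [E.val]
  have e' : (q 42 100).val [x, T, l, t, w, S] = 42 / 100 := by norm_num [E.val]
  have e'' : (q (-2) 100).val [x, T, l, t, w, S] = -(2 / 100) := by norm_num [E.val]
  rw [e, e', e''] at this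
  exact this

end V2A

end Pool.Agent.Work.MP_b30479_gt.G2
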