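import Pool.Agent.Work.MP_b30479_gt.G2.V2WD
import Pool.Agent.Work.MP_b30479_gt.G2.V2Wp2
import Pool.Agent.Work.MP_b30479_gt.G2.V2Wp5
import Pool.Agent.Work.MP_b30479_gt.G2.V2Wp8
import Pool.Agent.Work.MP_b30479_gt.G2.V2Wp13
import Pool.Agent.Work.MP_b30479_gt.G2.V2Wp15
import Pool.Agent.Work.MP_b30479_gt.G2.V2Wp16
import Pool.Agent.Work.MP_b30479_gt.G2.V2Wp18

/-!
# Value moves of the hinge on the side `S3` of an inner digit `3`: `w2P`
-/

namespace Pool.Agent.Work.MP_b30479_gt.G2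

open VOL NumU

namespace V2A

open NumU.E

section
open NumI (V)

theorem w2P_3 : chkT (P3 (q 27 100) vT (q 42 100) eh27 (q (-2) 100) [ecw]) 60
    244356034306301670948839771526269230428655510570443667528450609037766462142730234620719135000578525800575397074153945717117382876686322090524908451540783445253268961595701949843175219145626105407960953783092191152795617512093646476297928095692468003908
    [V.of 10000 3800 5000, V.of 10000 (-570) 50, V.of 10000 0 500, V.of 10000 (-1140) 50, V.of 10000 100 3900, V.of 10000 (-1145) 570] = true :=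
  chkT_of (r := 0) (runT_split rfl rfl rfl
    (runT_split rfl rfl rfl
    (runT_split rfl rfl rfl
    (runT_split rfl rfl rfl
    w2P_3_p1
    w2P_3_p2)
    w2P_3_p3)
    w2P_3_p4)
    w2P_3_p5)

end

variable {x T l h t w S k κ : ℝ}

theorem w2P (hx : 38 / 100 ≤ x) (hx' : x ≤ 1 / 2) (hT : -(57 / 1000) ≤ T) (hT' : T ≤ 5 / 1000)
    (hl : 0 ≤ l) (hl' : l ≤ 5 / 100) (ht : -(114 / 1000) ≤ t) (ht' : t ≤ 5 / 1000) (hw : 0 ≤ w)
    (hw' : w ≤ 39 / 100) (hS : -(1145 / 10000) ≤ S) (hS' : S ≤ 57 / 1000)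
    (hs : |S| ≤ 78 / 100 * w) :
    0 < dvG (27 / 100) T (42 / 100) t x (h27 x T) l (20 * (t * l)) w S + -(2 / 100) +
      (uu l (20 * (t * l)) - uu (l + w) (20 * (t * l) + S) +
        uu (l - x) (20 * (t * l) - h27 x T)) := by
  have := ramp_row (c := q 27 100) (hc := vT) (l' := q 42 100) (hx := eh27) (g := q (-2) 100) (es := [ecw])
    (x := x) (T := T) (l := l) (t := t) (w := w) (S := S) (all_cons (ecw_val hs) all_nil) hl hl' hw
    (by rw [abs_le]; constructor <;> linarith) (fun _ => hs)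
    (fun h1 => use6 w2P_1 (by norm_num) (by
      refine ⟨⟨?_, ?_⟩, ⟨?_, ?_⟩, ⟨?_, ?_⟩, ⟨?_, ?_⟩, ⟨?_, ?_⟩, ⟨?_, ?_⟩⟩ <;>
        push_cast <;> linarith))
    (fun h1 => use6 w2P_2 (by norm_num) (by
      refine ⟨⟨?_, ?_⟩, ⟨?_, ?_⟩, ⟨?_, ?_⟩, ⟨?_, ?_⟩, ⟨?_, ?_⟩, ⟨?_, ?_⟩⟩ <;>
        push_cast <;> linarith))
    (fun h1 => use6 w2P_3 (by norm_num) (by
      refine ⟨⟨?_, ?_⟩, ⟨?_, ?_⟩, ⟨?_, ?_⟩, ⟨?_, ?_⟩, ⟨?_, ?_⟩, ⟨?_, ?_⟩⟩ <;>
        push_cast <;> linarith))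
    (fun h1 => use6 w2P_4 (by norm_num) (by
      refine ⟨⟨?_, ?_⟩, ⟨?_, ?_⟩, ⟨?_, ?_⟩, ⟨?_, ?_⟩, ⟨?_, ?_⟩, ⟨?_, ?_⟩⟩ <;>
        push_cast <;> linarith))
  rw [eh27_val] at this
  have e : (q 27 100).val [x, T, l, t, w, S] = 27 / 100 := by norm_num [E.val]
  have e' : (q 42 100).val [x, T, l, t, w, S] = 42 / 100 := by norm_num [E.val]
  have e'' : (q (-2) 100).val [x, T, l, t, w, S] = -(2 / 100) := by norm_num [E.val]
  rw [e, e', e''] at this
  exact this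

end V2A

end Pool.Agent.Work.MP_b30479_gt.G2
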