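import Pool.Agent.Work.MP_b30479_gt.G2.V2W1a
import Pool.Agent.Work.MP_b30479_gt.G2.V2W1b
import Pool.Agent.Work.MP_b30479_gt.G2.V2W1c
import Pool.Agent.Work.MP_b30479_gt.G2.V2W1d
import Pool.Agent.Work.MP_b30479_gt.G2.V2W1e
import Pool.Agent.Work.MP_b30479_gt.G2.V2W1f

/-!
# Value moves of the hinge on the side `S3` of an inner digit `3`, low inner variable, `x ≤ 1/2`
-/
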