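import Pool.Agent.Work.MP_b30479_gt.G2.V2WE
import Pool.Agent.Work.MP_b30479_gt.G2.V2Wp1
import Pool.Agent.Work.MP_b30479_gt.G2.V2Wp14
import Pool.Agent.Work.MP_b30479_gt.G2.V2Wp16
import Pool.Agent.Work.MP_b30479_gt.G2.V2Wp17
import Pool.Agent.Work.MP_b30479_gt.G2.V2Wp18

/-!
# Value moves of the hinge on the side `S3` of an inner digit `3`: `wo3`
-/

namespace Pool.Agent.Work.MP_b30479_gt.G2

open VOL NumU

namespace V2A

open NumU.E

section
open NumI (V)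

theorem wo3_1 : chkT (O1 (q 27 100) vT eh30 (q 2 100) []) 60
    709945704449826842770206902344977048041862911190354179861403473945451504496384403112427134915995701150058171263186028990592010731606424607081720232824154553779614729457790195089918826546788451685677849151258540037593864750864566351343644180260148751691351639677600148901545949394800780090945921551749990923173384420188627750708693982641643814721460275253301727410750894114
    [V.of 1000 380 500, V.of 1000 (-22) 22, V.of 1000 0 590, V.of 1000 (-116) 5] = true :=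
  chkT_of (r := 0) (runT_split rfl rfl rfl
    wo3_1_p1
    (runT_split rfl rfl rfl
    wo3_1_p2
    (runT_split rfl rfl rfl
    wo3_1_p3
    wo3_1_p4)))

end

variable {x T l h t k κ : ℝ}

theorem wo3 (hx : 38 / 100 ≤ x) (hx' : x ≤ 1 / 2) (hT : -(22 / 1000) ≤ T) (hT' : T ≤ 22 / 1000)
    (hl : 0 ≤ k) (hl' : k ≤ 8 / 10) (ht : -(116 / 1000) ≤ h) (ht' : h ≤ 5 / 1000) :
    2 / 100 < dvO (27 / 100) T x (h30 x T) k h +
      (NumU.uu (27 / 100 + k) (T + h) - NumU.uu (x + k) (h30 x T + h)) := by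
  obtain ⟨m1, m2⟩ := h30_mem' (T := T) hx hx' (a := 22 / 1000) (b := 22 / 1000) (by linarith only [hT])
    (by linarith only [hT']) (by norm_num) (by norm_num)
  have e0 : (q 27 100).val [x, T, k, h] = 27 / 100 := by norm_num [E.val]
  have := other_row' (c := q 27 100) (hc := vT) (hx := eh30) (g := q 2 100) (es := [])
    (xs := [x, T, k, h]) (cc := 27 / 100) (k := k) (hk := h) (x := x) rfl rfl rfl e0
    (fun h0 => by
      rw [eh30_val, abs_le]; constructor <;> linarith)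
    (fun h0 => by
      rw [vT_val, abs_le]; constructor <;> linarith)
    (fun h1 => use4 wo3_1 (by norm_num) (by
      refine ⟨⟨?_, ?_⟩, ⟨?_, ?_⟩, ⟨?_, ?_⟩, ⟨?_, ?_⟩⟩ <;>
        push_cast <;> linarith))
    (fun h1 h2 => use4 wo3_2 (by norm_num) (by
      refine ⟨⟨?_, ?_⟩, ⟨?_, ?_⟩, ⟨?_, ?_⟩, ⟨?_, ?_⟩⟩ <;>
        push_cast <;> linarith))
    (fun h1 h2 => use4 wo3_3 (by norm_num) (by
      refine ⟨⟨?_, ?_⟩, ⟨?_, ?_⟩, ⟨?_, ?_⟩, ⟨?_, ?_⟩⟩ <;>
        push_cast <;> linarith))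
    (fun h1 h2 => use4 wo3_4 (by norm_num) (by
      refine ⟨⟨?_, ?_⟩, ⟨?_, ?_⟩, ⟨?_, ?_⟩, ⟨?_, ?_⟩⟩ <;>
        push_cast <;> linarith))
    (fun h1 h2 => use4 wo3_5 (by norm_num) (by
      refine ⟨⟨?_, ?_⟩, ⟨?_, ?_⟩, ⟨?_, ?_⟩, ⟨?_, ?_⟩⟩ <;>
        push_cast <;> linarith))
    (fun h1 h2 => use4 wo3_6 (by norm_num) (by
      refine ⟨⟨?_, ?_⟩, ⟨?_, ?_⟩, ⟨?_, ?_⟩, ⟨?_, ?_⟩⟩ <;>
        push_cast <;> linarith))
    (fun h1 => use4 wo3_7 (by norm_num) (by
      refine ⟨⟨?_, ?_⟩, ⟨?_, ?_⟩, ⟨?_, ?_⟩, ⟨?_, ?_⟩⟩ <;>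
        push_cast <;> linarith))
    (fun h1 => use4 wo3_8 (by norm_num) (by
      refine ⟨⟨?_, ?_⟩, ⟨?_, ?_⟩, ⟨?_, ?_⟩, ⟨?_, ?_⟩⟩ <;>
        push_cast <;> linarith))
    all_nil
  have e9 : (q 2 100).val [x, T, k, h] = 2 / 100 := by norm_num [E.val]
  rw [eh30_val, e9, vT_val] at this
  exact this

end V2A

end Pool.Agent.Work.MP_b30479_gt.G2
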