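import Pool.Agent.Work.MP_b30479_gt.G2.V2WE
import Pool.Agent.Work.MP_b30479_gt.G2.V2Wp7
import Pool.Agent.Work.MP_b30479_gt.G2.V2Wp8
import Pool.Agent.Work.MP_b30479_gt.G2.V2Wp9
import Pool.Agent.Work.MP_b30479_gt.G2.V2Wp11
import Pool.Agent.Work.MP_b30479_gt.G2.V2Wp12
import Pool.Agent.Work.MP_b30479_gt.G2.V2Wp14
import Pool.Agent.Work.MP_b30479_gt.G2.V2Wp15
import Pool.Agent.Work.MP_b30479_gt.G2.V2Wp16
import Pool.Agent.Work.MP_b30479_gt.G2.V2Wp17
import Pool.Agent.Work.MP_b30479_gt.G2.V2Wp18

/-!
# Value moves of the hinge on the side `S3` of an inner digit `3`: `wo2`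
-/

namespace Pool.Agent.Work.MP_b30479_gt.G2

open VOL NumU

namespace V2A

open NumU.E

section
open NumI (V)

theorem wo2_1 : chkT (O1 (q 27 100) vT eh27 (q (-2) 100) []) 60
    12652233697001690906193774990258361903924895483273762283616740701276105364483732111127488237377759725627658303547203543400551416784315400967698265812207651551287649365149568465881341941961106092546051539506244679792518075261066415961301287144614176747283415828410985071097403971404799802209819187937938729491565735599714213516747430732767909306177858058366320975322418269968059448878681668956510045419184329409599693479705559585223312519864973753828363760096234511604974031317950683882580977664695068535176310740330242731519357598649184898352375212301876010168354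
    [V.of 10000 3800 5000, V.of 10000 (-50) 570, V.of 10000 1250 5900, V.of 10000 (-985) 960] = true :=
  chkT_of (r := 0) (runT_split rfl rfl rfl
    wo2_1_p1
    (runT_split rfl rfl rfl
    wo2_1_p2
    (runT_split rfl rfl rfl
    wo2_1_p3
    wo2_1_p4)))

theorem wo2_3 : chkT (O3 (q 27 100) vT eh27 (q (-2) 100) []) 60
    46527003716334326836961926271590724160223719206785266534643927633824933107123832050532180307066538741957335669774494539754777886561845510080987534646131730364610084654229629029979463896171343957113459297642870241893014887078916534205337536620697513892790488456173530258034107759667740226416283395826231428439021166012590097437819513905464077653419653700499411581139422424997923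
    [V.of 10000 3800 5000, V.of 10000 (-50) 570, V.of 10000 5300 7000, V.of 10000 (-985) 960] = true :=
  chkT_of (r := 0) (runT_split rfl rfl rfl
    (runT_split rfl rfl rfl
    wo2_3_p1
    wo2_3_p2)
    wo2_3_p3)

theorem wo2_4 : chkT (O4 (q 27 100) vT eh27 (q (-2) 100) []) 60
    235568500892904399710104816441381308560491084157876061490109800586521130073799341307883720929391646236509496416815824428482666719097052272480301970689487526867664562690428870085335879296848587899625179151194696085576084238141877113928322955071051338503361930306490975196423686062174329874499752637158302989638859460065296039343525700819023663572635929351561202669962627025664550817370355918018421093136914063175252118087987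
    [V.of 10000 3800 5000, V.of 10000 (-50) 570, V.of 10000 5300 7000, V.of 10000 (-985) 960] = true :=
  chkT_of (r := 0) (runT_split rfl rfl rfl
    wo2_4_p1
    (runT_split rfl rfl rfl
    wo2_4_p2
    wo2_4_p3))

end

variable {x T l h t k κ : ℝ}

theorem wo2 (hx : 38 / 100 ≤ x) (hx' : x ≤ 1 / 2) (hT : -(5 / 1000) ≤ T) (hT' : T ≤ 57 / 1000)
    (hl : 125 / 1000 ≤ k) (hl' : k ≤ 8 / 10) (ht : -(985 / 10000) ≤ h) (ht' : h ≤ 960 / 10000)
    (hr : 56 / 100 ≤ k → -(82 / 1000) ≤ h ∧ h ≤ 15 / 1000)
    (hr' : 47 / 100 ≤ k → h ≤ 5 / 100) :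
    -(2 / 100) < dvO (27 / 100) T x (h27 x T) k h +
      (NumU.uu (27 / 100 + k) (T + h) - NumU.uu (x + k) (h27 x T + h)) := by
  obtain ⟨m1, m2⟩ := h27_mem' (T := T) hx hx' (a := 5 / 1000) (b := 57 / 1000) (by linarith only [hT])
    (by linarith only [hT']) (by norm_num) (by norm_num)
  have e0 : (q 27 100).val [x, T, k, h] = 27 / 100 := by norm_num [E.val]
  have := other_row' (c := q 27 100) (hc := vT) (hx := eh27) (g := q (-2) 100) (es := [])
    (xs := [x, T, k, h]) (cc := 27 / 100) (k := k) (hk := h) (x := x) rfl rfl rfl e0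
    (fun h0 => by
      have := hr' (by linarith only [hx', h0])
      rw [eh27_val, abs_le]; constructor <;> linarith)
    (fun h0 => by
      obtain ⟨b1, b2⟩ := hr (by linarith only [h0])
      rw [vT_val, abs_le]; constructor <;> linarith)
    (fun h1 => use4 wo2_1 (by norm_num) (by
      refine ⟨⟨?_, ?_⟩, ⟨?_, ?_⟩, ⟨?_, ?_⟩, ⟨?_, ?_⟩⟩ <;>
        push_cast <;> linarith))
    (fun h1 h2 => use4 wo2_2 (by norm_num) (by
      refine ⟨⟨?_, ?_⟩, ⟨?_, ?_⟩, ⟨?_, ?_⟩, ⟨?_, ?_⟩⟩ <;>
        push_cast <;> linarith))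
    (fun h1 h2 => use4 wo2_3 (by norm_num) (by
      refine ⟨⟨?_, ?_⟩, ⟨?_, ?_⟩, ⟨?_, ?_⟩, ⟨?_, ?_⟩⟩ <;>
        push_cast <;> linarith))
    (fun h1 h2 => use4 wo2_4 (by norm_num) (by
      refine ⟨⟨?_, ?_⟩, ⟨?_, ?_⟩, ⟨?_, ?_⟩, ⟨?_, ?_⟩⟩ <;>
        push_cast <;> linarith))
    (fun h1 h2 => use4 wo2_5 (by norm_num) (by
      refine ⟨⟨?_, ?_⟩, ⟨?_, ?_⟩, ⟨?_, ?_⟩, ⟨?_, ?_⟩⟩ <;>
        push_cast <;> linarith))
    (fun h1 h2 => use4 wo2_6 (by norm_num) (by
      refine ⟨⟨?_, ?_⟩, ⟨?_, ?_⟩, ⟨?_, ?_⟩, ⟨?_, ?_⟩⟩ <;>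
        push_cast <;> linarith))
    (fun h1 => use4 wo2_7 (by norm_num) (by
      refine ⟨⟨?_, ?_⟩, ⟨?_, ?_⟩, ⟨?_, ?_⟩, ⟨?_, ?_⟩⟩ <;>
        push_cast <;> linarith))
    (fun h1 => use4 wo2_8 (by norm_num) (by
      refine ⟨⟨?_, ?_⟩, ⟨?_, ?_⟩, ⟨?_, ?_⟩, ⟨?_, ?_⟩⟩ <;>
        push_cast <;> linarith))
    all_nil
  have e9 : (q (-2) 100).val [x, T, k, h] = -(2 / 100) := by norm_num [E.val]
  rw [eh27_val, e9, vT_val] at this
  exact this

end V2A

end Pool.Agent.Work.MP_b30479_gt.G2
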