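import Pool.Agent.Work.MP_b30479_gt.G2.V2WE
import Pool.Agent.Work.MP_b30479_gt.G2.V2Wp16

/-!
# Value moves of the hinge on the side `S3` of an inner digit `3`: `wo2'`
-/

namespace Pool.Agent.Work.MP_b30479_gt.G2

open VOL NumU

namespace V2A

open NumU.E

variable {x T l h t k κ : ℝ}

theorem wo2' (hx : 38 / 100 ≤ x) (hx' : x ≤ 1 / 2) (hT : -(5 / 1000) ≤ T) (hT' : T ≤ 57 / 1000)
    (hl : 0 ≤ k) (hl' : k ≤ 125 / 1000) (ht : -(850 / 1000) ≤ κ) (ht' : κ ≤ 770 / 1000) :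
    -(2 / 100) < dvO (27 / 100) T x (h27 x T) k (κ * k) +
      (NumU.uu (27 / 100 + k) (T + κ * k) - NumU.uu (x + k) (h27 x T + κ * k)) := by
  have key : ∃ e ∈ OW (q 27 100) vT eh27 (q (-2) 100), 0 < e.val [x, T, k, κ] :=
    use4 wo2_0 (by norm_num) (by
      refine ⟨⟨?_, ?_⟩, ⟨?_, ?_⟩, ⟨?_, ?_⟩, ⟨?_, ?_⟩⟩ <;>
        push_cast <;> linarith)
  have := of_list key all_nil
  rw [FOe_val] at this
  have e0 : (q 27 100).val [x, T, k, κ] = 27 / 100 := by norm_num [E.val]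
  have e9 : (q (-2) 100).val [x, T, k, κ] = -(2 / 100) := by norm_num [E.val]
  have e1 : wkk.val [x, T, k, κ] = κ * k := rfl
  have e2 : (sub (uu (add (q 27 100) vl) (add wkk vT)) (uu vk (add wkk eh27))).val [x, T, k, κ] =
      NumU.uu (27 / 100 + k) (κ * k + T) - NumU.uu (x + k) (κ * k + h27 x T) := by
    have e3 : vl.val [x, T, k, κ] = k := rfl
    have e4 : vk.val [x, T, k, κ] = x + k := rfl
    have e5 := eh27_val (x := x) (T := T) (r := [k, κ])
    have e6 := vT_val (x := x) (T := T) (r := [k, κ])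
    simp only [E.val, e1, e3, e4] at e0 e5 e6 ⊢
    rw [e0, e5, e6]
  rw [e0, e1, e2, eh27_val, e9, vT_val] at this
  have e7 : vl.val [x, T, k, κ] = k := rfl
  have e8 : vx.val [x, T, k, κ] = x := rfl
  rw [e7, e8] at this
  rw [add_comm T (κ * k), add_comm (h27 x T) (κ * k)]
  linarith only [this]

end V2A

end Pool.Agent.Work.MP_b30479_gt.G2
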