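import Pool.Agent.Work.MP_b30479_gt.G2.V2W2a
import Pool.Agent.Work.MP_b30479_gt.G2.V2W2b
import Pool.Agent.Work.MP_b30479_gt.G2.V2W2c
import Pool.Agent.Work.MP_b30479_gt.G2.V2W2d

/-!
# Value moves of the hinge on the side `S3` of an inner digit `3`, `x ≤ 1/2`: the digit on the left
-/
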