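import Pool.Agent.Work.MP_b30479_gt.G2.V2A
import Pool.Agent.Work.MP_b30479_gt.G2.V2W1
import Pool.Agent.Work.MP_b30479_gt.G2.V2W2

/-!
# The hinges `2 | 3`, `2e | 3`, `3 | 3`, `3e | 3` on the side `S3` in `[.38, .50]`: the inner variable
is not low

At a maximiser with the hinge at `x` in `[.38, .50]` the inner variable of the `3` is larger than
`x - .09` (`2 | 3`), `x - .07` (`2e | 3`), `x - .13` (`3 | 3`, `3e | 3`).
-/

namespace Pool.Agent.Work.MP_b30479_gt.G2

open Finset VOL Filter Topology NumU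

namespace V2A

variable {u u' v v' w : ℂ} {T t : ℝ}

theorem low33 (hx : 38 / 100 ≤ u.re) (hx' : u.re ≤ 1 / 2) (hu : u.im = h30 u.re T)
    (hc : u'.re = 27 / 100) (hc' : u'.im = T) (hT : -(28 / 1000) ≤ T) (hT' : T ≤ 22 / 1000)
    (hv : RH v t (8 / 10) (5 / 100) (5 / 100)) (ht : -(114 / 1000) ≤ t) (ht' : t ≤ 5 / 1000)
    (hd : v'.re = 42 / 100) (hd' : v'.im = t) (hw : Wok w) (hs : |w.im| ≤ 78 / 100 * w.re)
    (hl : v.re ≤ u.re - 13 / 100) : 0 < V3 u' v' w - V3 u v w + 2 / 100 := by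
  rcases le_total v.re (5 / 100) with h | h
  · have e := V3_dvG (w := w) rfl hu hc hc' rfl (mid_left hv h) hd hd'
    have := w33P hx hx' hT hT' hv.re0 h ht ht' hw.re0 hw.re1 hw.im0 hw.im1 hs
    rw [e]
    linarith only [this]
  · have e := V3_dvL (w := w) rfl hu hc hc' rfl (mid_flat hv h (by linarith only [hx', hl])) hd hd'
    have := w33L hx hx' hT hT' h hl ht ht' hw.re0 hw.re1 hw.im0 hw.im1 hs
    rw [e]
    linarith only [this]

theorem low2e (hx : 38 / 100 ≤ u.re) (hx' : u.re ≤ 1 / 2) (hu : u.im = h30 u.re T)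
    (hc : u'.re = 18 / 100) (hc' : u'.im = T) (hT : -(98 / 1000) ≤ T) (hT' : T ≤ -(76 / 1000))
    (hv : RH v t (8 / 10) (5 / 100) (5 / 100)) (ht : -(123 / 1000) ≤ t) (ht' : t ≤ -(64 / 1000))
    (hd : v'.re = 42 / 100) (hd' : v'.im = t) (hw : Wok w) (hs : |w.im| ≤ 78 / 100 * w.re)
    (hl : v.re ≤ u.re - 7 / 100) : 0 < V3 u' v' w - V3 u v w := by
  rcases le_total v.re (5 / 100) with h | h
  · have e := V3_dvG (w := w) rfl hu hc hc' rfl (mid_left hv h) hd hd'
    have := w2eP hx hx' hT hT' hv.re0 h ht ht' hw.re0 hw.re1 hw.im0 hw.im1 hs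
    rw [e]
    linarith only [this]
  · have e := V3_dvL (w := w) rfl hu hc hc' rfl (mid_flat hv h (by linarith only [hx', hl])) hd hd'
    have := w2eL hx hx' hT hT' h hl ht ht' hw.re0 hw.re1 hw.im0 hw.im1 hs
    rw [e]
    linarith only [this]

theorem low2 (hx : 38 / 100 ≤ u.re) (hx' : u.re ≤ 1 / 2) (hu : u.im = h27 u.re T)
    (hc : u'.re = 27 / 100) (hc' : u'.im = T) (hT : -(57 / 1000) ≤ T) (hT' : T ≤ 5 / 1000)
    (hv : RH v t (8 / 10) (5 / 100) (5 / 100)) (ht : -(114 / 1000) ≤ t) (ht' : t ≤ 5 / 1000)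
    (hd : v'.re = 42 / 100) (hd' : v'.im = t) (hw : Wok w) (hs : |w.im| ≤ 78 / 100 * w.re)
    (hl : v.re ≤ u.re - 9 / 100) : 2 / 100 < V3 u' v' w - V3 u v w := by
  rcases le_total v.re (5 / 100) with h | h
  · have e := V3_dvG (w := w) rfl hu hc hc' rfl (mid_left hv h) hd hd'
    have := w2P hx hx' hT hT' hv.re0 h ht ht' hw.re0 hw.re1 hw.im0 hw.im1 hs
    rw [e]
    linarith only [this]
  · have e := V3_dvL (w := w) rfl hu hc hc' rfl (mid_flat hv h (by linarith only [hx', hl])) hd hd'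
    have := w2L hx hx' hT hT' h hl ht ht' hw.re0 hw.re1 hw.im0 hw.im1 hs
    rw [e]
    linarith only [this]

theorem wother33 {U V W W' : ℂ} (hx : 38 / 100 ≤ W.re) (hx' : W.re ≤ 1 / 2)
    (hu : W.im = h30 W.re T) (hc : W'.re = 27 / 100) (hc' : W'.im = T) (hT : -(22 / 1000) ≤ T)
    (hT' : T ≤ 22 / 1000) (hv : 0 ≤ V.re) (hv' : V.re ≤ 8 / 10) (ht : -(116 / 1000) ≤ V.im)
    (ht' : V.im ≤ 5 / 1000) : 2 / 100 < V3 U V W' - V3 U V W := by
  rw [V3_dvO rfl hu hc hc']
  exact wo3 hx hx' hT hT' hv hv' ht ht'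

theorem wother3e {U U' V V' : ℂ} (hx : 38 / 100 ≤ U.re) (hx' : U.re ≤ 1 / 2)
    (hu : U.im = h30 U.re T) (hc : U'.re = 27 / 100) (hc' : U'.im = T) (hT : 5 / 1000 ≤ T)
    (hT' : T ≤ 28 / 1000) (hv : RH V t (77 / 100) (1 / 10) (2 / 10)) (ht : -(45 / 1000) ≤ t)
    (ht' : t ≤ 59 / 1000) (hd : V'.re = 42 / 100) (hd' : V'.im = t) :
    2 / 100 < V3 U' V' 0 - V3 U V 0 := by
  rcases le_or_gt V.re (1 / 10) with h | h
  · have e1 : V.im = 10 * (t * V.re) := by
      rw [MR.RH_left hv (by norm_num) (by norm_num) (by norm_num) h]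
      ring
    rw [V3_dvG (w := 0) rfl hu hc hc' rfl e1 hd hd']
    have := wend_1 hx hx' hT hT' hv.re0 h ht ht'
    simp only [Complex.zero_re, Complex.zero_im, add_zero]
    linarith only [this]
  rcases le_or_gt V.re (57 / 100) with h2 | h2
  · have e1 : V.im = t := MR.RH_flat hv (by norm_num) (by norm_num) h.le (by linarith only [h2])
    rw [V3_dvG (w := 0) rfl hu hc hc' rfl e1 hd hd']
    have := wend_2 hx hx' hT hT' h.le h2 ht ht'
    simp only [Complex.zero_re, Complex.zero_im, add_zero]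
    linarith only [this]
  · have e1 : V.im = t * (385 / 100 - 5 * V.re) := by
      rw [MR.RH_right hv (by norm_num) (by norm_num) (by norm_num) (by linarith only [h2])]
      ring
    rw [V3_dvG (w := 0) rfl hu hc hc' rfl e1 hd hd']
    have := wend_3 hx hx' hT hT' h2 hv.reM ht ht'
    simp only [Complex.zero_re, Complex.zero_im, add_zero]
    linarith only [this]

theorem wother2 {U U' k : ℂ} (hx : 38 / 100 ≤ U.re) (hx' : U.re ≤ 1 / 2) (hu : U.im = h27 U.re T)
    (hc : U'.re = 27 / 100) (hc' : U'.im = T) (hT : -(5 / 1000) ≤ T) (hT' : T ≤ 57 / 1000)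
    (hk : Kok k) (hk' : 47 / 100 ≤ k.re → k.im ≤ 5 / 100) :
    -(2 / 100) < V2 U' k - V2 U k := by
  rw [V2_dvO rfl hu hc hc']
  rcases le_total k.re (125 / 1000) with h | h
  · obtain ⟨κ, h1, h2, h3⟩ := hk.slope h
    rw [h3]
    exact wo2' hx hx' hT hT' hk.re0 h h1 h2
  · exact wo2 hx hx' hT hT' h hk.re1 hk.im0 (hk.im1.trans (by norm_num)) hk.high hk'

end V2A

namespace SR

variable {M : ℕ} {b : Fin (M + 1) → ℤ} {zs : DD (tyW b) ⊕ ZZ (tyW b) → ℂ}
variable {y : DD (tyW b) ⊕ ZZ (tyW b) → ℝ}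
variable {h h' : Fin M} {i j k j' : Fin (M + 1)} {p : Fin 3}

theorem Adj.wslope (A : Adj h i 2 j) (hb : ClassW b) (hL : Loc b zs) (hy : Mx b zs y)
    (hi : clsW b i = .three) : |(Yw b zs y i 2).im| ≤ 78 / 100 * (Yw b zs y i 2).re := by
  have hop := A.opp hb (Or.inl (by rw [hi]; decide))
  obtain ⟨-, -, h3, h4⟩ := A.box hb hL
  rw [hi, A.ss hop] at h3 h4
  have e1 : wcl b h = (hpp 2 (oc b i (2 : Fin 3).rev) .three (clsW b j) (oc b j 2)).cl := by
    rw [A.cl_eq b, hi]
  have b3 : -(78 / 100 * wcl b h) ≤ ofs (b i) (zs (.inl (.inl h))).im := by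
    refine le_trans ?_ h3
    rw [e1]
    unfold hpp
    generalize clsW b j = B
    rw [if_pos rfl]
    cases B <;> norm_num [hbox, hp]
  have b4 : ofs (b i) (zs (.inl (.inl h))).im ≤ 78 / 100 * wcl b h := by
    refine h4.trans ?_
    rw [e1]
    unfold hpp
    generalize clsW b j = B
    rw [if_pos rfl]
    cases B <;> norm_num [hbox, hp]
  exact abs_le.2 ((A.rh hy).im_low (wcl_pos h) (by norm_num) (by norm_num) b3 b4)

theorem Adj.kmid (A : Adj h i 0 j) (hb : ClassW b) (hL : Loc b zs) (hy : Mx b zs y)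
    (hi : clsW b i = .two) : 47 / 100 ≤ (Yw b zs y i 0).re → (Yw b zs y i 0).im ≤ 5 / 100 := by
  intro hk
  have hop := A.opp hb (Or.inl (by rw [hi]; decide))
  obtain ⟨-, -, h3, h4⟩ := A.box hb hL
  rw [hi, A.ss hop] at h3 h4
  have hrh := A.rh hy
  have e2 : wcr b h = (hpp 0 (oc b i (0 : Fin 3).rev) .two (clsW b j) (oc b j 0)).cr := by
    rw [A.cr_eq b, hi]
  have e3 : wXM b h = (hpp 0 (oc b i (0 : Fin 3).rev) .two (clsW b j) (oc b j 0)).XM := by
    rw [A.XM_eq b, hi]
  have b1 : -(985 / 10000) ≤ ofs (b i) (zs (.inl (.inl h))).im := by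
    refine le_trans ?_ h3
    generalize clsW b j = B
    cases B <;> norm_num [hbox]
  by_cases hj : clsW b j = .one
  · rw [hj] at h3 h4
    exact (MR.RH_im_mem hrh (by norm_num : -(985 / 10000 : ℝ) ≤ 0)
      (by norm_num : (0 : ℝ) ≤ 18 / 1000) b1 (h4.trans (by norm_num [hbox]))).2.trans (by norm_num)
  · have e2' : 27 / 100 ≤ wcr b h := by
      rw [e2]
      unfold hpp
      generalize clsW b j = B at hj
      rw [if_neg (by decide)]
      cases B <;> first | exact absurd rfl hj | norm_num [hp]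
    have e3' : wXM b h = 60 / 100 := by
      rw [e3]
      unfold hpp
      generalize clsW b j = B at hj
      rw [if_neg (by decide)]
      cases B <;> first | exact absurd rfl hj | norm_num [hp]
    have b2 : ofs (b i) (zs (.inl (.inl h))).im ≤ 96 / 1000 := by
      refine h4.trans ?_
      generalize clsW b j = B
      cases B <;> norm_num [hbox]
    obtain ⟨d1, d2⟩ := hrh.im_high (r := 13 / 27) (a := 985 / 10000) (b := 96 / 1000)
      (by linarith only [e2']) (by norm_num) (by norm_num) b1 b2 (by rw [e3']; linarith only [hk, e2'])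
    linarith only [d2]

theorem Adj.h30l (A : Adj h i p j) (hy : Mx b zs y) (h1 : wXM b h = 60 / 100)
    (h2 : wcr b h = 30 / 100) (h3 : wcl b h ≤ 13 / 100) (hx : 30 / 100 ≤ y (.inl (.inl h))) :
    (Yw b zs y i p).im = V2A.h30 (Yw b zs y i p).re (ofs (b i) (zs (.inl (.inl h))).im) := by
  have hrh := A.rh hy
  have hre := A.re (b := b) (zs := zs) (y := y)
  rw [h1, h2] at hrh
  rw [MR.RH_right hrh (wcl_pos h) (by norm_num) (by linarith only [h3]) (by rw [hre]; linarith only [hx])]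
  unfold V2A.h30
  ring

theorem Adj.h27l (A : Adj h i p j) (hy : Mx b zs y) (h1 : wXM b h = 60 / 100)
    (h2 : wcr b h = 27 / 100) (h3 : wcl b h ≤ 13 / 100) (hx : 33 / 100 ≤ y (.inl (.inl h))) :
    (Yw b zs y i p).im = V2A.h27 (Yw b zs y i p).re (ofs (b i) (zs (.inl (.inl h))).im) := by
  have hrh := A.rh hy
  have hre := A.re (b := b) (zs := zs) (y := y)
  rw [h1, h2] at hrh
  rw [MR.RH_right hrh (wcl_pos h) (by norm_num) (by linarith only [h3]) (by rw [hre]; linarith only [hx])]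
  unfold V2A.h27
  ring

/-- **`3 | 3`, `3e | 3`: the inner variable is not low.** -/
theorem low_33 (hb : ClassW b) (hL : Loc b zs) (hX : LocX b zs) (hy : Mx b zs y)
    (A : Adj h i 0 j) (A' : Adj h' i 2 k) (hi : clsW b i = .three)
    (hj : clsW b j = .three ∨ clsW b j = .threeE) (hcap : y (.inl (.inl h')) ≤ 39 / 100)
    (hx0 : 38 / 100 ≤ y (.inl (.inl h))) (hx1 : y (.inl (.inl h)) ≤ 1 / 2) :
    y (.inl (.inl h)) - 13 / 100 < (OY b zs y i 1).re := by
  by_contra hcon
  push Not at hcon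
  have hop := A.opp hb (Or.inl (by rw [hi]; decide))
  have A2 : Adj h j 2 i := A.symm
  obtain ⟨q1, q2, q3⟩ := A.par_s0 hi (Or.inr hj)
  obtain ⟨-, -, T1, T2⟩ := A.box hb hL
  rw [hi, A.ss hop] at T1 T2
  have hT1 : -(28 / 1000) ≤ ofs (b i) (zs (.inl (.inl h))).im := by
    refine le_trans ?_ T1
    rcases hj with hj | hj <;> rw [hj] <;> norm_num [hbox]
  have hT2 : ofs (b i) (zs (.inl (.inl h))).im ≤ 22 / 1000 := by
    refine T2.trans ?_
    rcases hj with hj | hj <;> rw [hj] <;> norm_num [hbox]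
  have hre := A.re (b := b) (zs := zs) (y := y)
  have hre2 := A2.re (b := b) (zs := zs) (y := y)
  have hu := A.h30l hy q1 q2 q3 (by linarith only [hx0])
  have hu2 := A2.h30l hy q1 q2 q3 (by linarith only [hx0])
  obtain ⟨c1, c2⟩ := pw_flat' (zs := zs) (b i) h (c := 27 / 100) (by linarith only [q3])
    (by rw [q1, q2]; norm_num)
  obtain ⟨c3, c4⟩ := pw_flat' (zs := zs) (b j) h (c := 27 / 100) (by linarith only [q3])
    (by rw [q1, q2]; norm_num)
  obtain ⟨w1, w2, -, -⟩ := mid_window hX A A' hi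
  have ht1 : -(114 / 1000) ≤ tW zs (Or.inl hi) := by
    refine le_trans ?_ w1
    generalize clsW b k = K
    rcases hj with hj | hj <;> rw [hj] <;> cases K <;> norm_num [mw]
  have ht2 : tW zs (Or.inl hi) ≤ 5 / 1000 := by
    refine w2.trans ?_
    generalize clsW b k = K
    rcases hj with hj | hj <;> rw [hj] <;> cases K <;> norm_num [mw]
  have hmain := V2A.low33 (by rw [hre]; exact hx0) (by rw [hre]; exact hx1) hu c1 c2 hT1 hT2
    (rh_three hy hi) ht1 ht2 (vW_re (Or.inl hi) (42 / 100))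
    (vW_three hi (by norm_num) (by norm_num)) (A'.wok hb hL hy hi hcap)
    (A'.wslope hb hL hy hi) (by rw [hre]; exact hcon)
  -- the digit on the left
  have hother : ∃ X, MOpt b zs j (Function.update (OY b zs y j) 2 (pw b zs (b j) h (27 / 100))) X ∧
      2 / 100 < OV b j X - OV b j (OY b zs y j) := by
    obtain ⟨-, -, U1, U2⟩ := A2.box hb hL
    rw [hi, A.ss hop] at U1 U2
    rcases hj with hj | hj
    · rw [hj] at U1 U2
      obtain ⟨h2, r, A3⟩ := A2.other' b (clsW_inner hb (Or.inr (Or.inr hj)))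
      have A4 : Adj h2 j 0 r := A3
      obtain ⟨z1, z2, -, -⟩ := mid_window hX A4 A2 hj
      rw [hi] at z1 z2
      have z3 : -(116 / 1000) ≤ tW zs (Or.inl hj) := by
        refine le_trans ?_ z1
        generalize clsW b r = K
        cases K <;> norm_num [mw]
      have z4 : tW zs (Or.inl hj) ≤ 5 / 1000 := by
        refine z2.trans ?_
        generalize clsW b r = K
        cases K <;> norm_num [mw]
      have hv2 := rh_three hy hj
      obtain ⟨z5, z6⟩ := MR.RH_im_mem hv2 (by norm_num : -(116 / 1000 : ℝ) ≤ 0)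
        (by norm_num : (0 : ℝ) ≤ 5 / 1000) z3 z4
      refine ⟨_, MOpt.same _ _, ?_⟩
      rw [OV_stay2 hb hj, OV_three hb hj, OY_two]
      exact V2A.wother33 (U := OY b zs y j 0) (by rw [hre2]; exact hx0)
        (by rw [hre2]; exact hx1) hu2 c3 c4 (le_trans (by norm_num [hbox]) U1)
        (U2.trans (by norm_num [hbox])) hv2.re0 hv2.reM z5 z6
    · rw [hj] at U1 U2
      have hend : EndOk j (OY b zs y j) := Ow_endOk ((wpar b zs).pth zs y) j
      have z0 := hL.midE (mW b (Or.inr hj)) (clsW_end (Or.inr hj))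
      unfold Box.In at z0
      rw [ofr_im] at z0
      obtain ⟨-, -, z1, z2⟩ := z0
      have hv2 := rh_threeE hy hj
      refine ⟨_, mopt_threeE hj (c := 42 / 100) (by norm_num) (by norm_num) _, ?_⟩
      have hend2 : EndOk j (Function.update (Function.update (OY b zs y j) 2
          (pw b zs (b j) h (27 / 100))) 1 (vW zs (Or.inr hj) (42 / 100))) := by
        have h9 := hend.upd A2 (pw b zs (b j) h (27 / 100))
        exact ⟨fun h0 => by rw [Function.update_of_ne (by decide)]; exact h9.1 h0,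
          fun h0 => by rw [Function.update_of_ne (by decide)]; exact h9.2 h0⟩
      rw [A2.OV_threeE hj hend, A2.OV_threeE hj hend2, Function.update_of_ne (by decide),
        Function.update_self, Function.update_self, OY_two]
      exact V2A.wother3e (by rw [hre2]; exact hx0)
        (by rw [hre2]; exact hx1) hu2 c3 c4 (le_trans (by norm_num [hbox]) U1)
        (U2.trans (by norm_num [hbox])) hv2 (le_trans (by norm_num [mboxE]) z1)
        (z2.trans (by norm_num [mboxE])) (vW_re (Or.inr hj) (42 / 100))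
        (vW_threeE hj (by norm_num) (by norm_num))
  obtain ⟨X', h3, h4⟩ := hother
  have := val_hm hb hy A (c := 27 / 100) (by norm_num) (by rw [q1]; norm_num)
    (mopt_three hi (c := 42 / 100) (by norm_num) (by norm_num) _) h3
  rw [OV_move hb hi, OV_three hb hi, OY_zero, OY_two] at this
  linarith only [hi, hmain, h4, this]

/-- **`2e | 3`: the inner variable is not low.** -/
theorem low_2e (hb : ClassW b) (hL : Loc b zs) (hX : LocX b zs) (hy : Mx b zs y)
    (A : Adj h i 0 j) (A' : Adj h' i 2 k) (hi : clsW b i = .three)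
    (hj : clsW b j = .twoE) (hcap : y (.inl (.inl h')) ≤ 39 / 100)
    (hx0 : 38 / 100 ≤ y (.inl (.inl h))) (hx1 : y (.inl (.inl h)) ≤ 1 / 2) :
    y (.inl (.inl h)) - 7 / 100 < (OY b zs y i 1).re := by
  by_contra hcon
  push Not at hcon
  have hop := A.opp hb (Or.inl (by rw [hi]; decide))
  have A2 : Adj h j 2 i := A.symm
  obtain ⟨q1, q2, q3⟩ := A.par_s0 hi (Or.inl hj)
  obtain ⟨-, -, T1, T2⟩ := A.box hb hL
  rw [hi, hj, A.ss hop] at T1 T2
  have hT1 : -(98 / 1000) ≤ ofs (b i) (zs (.inl (.inl h))).im := le_trans (by norm_num [hbox]) T1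
  have hT2 : ofs (b i) (zs (.inl (.inl h))).im ≤ -(76 / 1000) := T2.trans (by norm_num [hbox])
  have hTj : ofs (b j) (zs (.inl (.inl h))).im = -ofs (b i) (zs (.inl (.inl h))).im :=
    ofs_opp hop _
  have hre := A.re (b := b) (zs := zs) (y := y)
  have hre2 := A2.re (b := b) (zs := zs) (y := y)
  have hu := A.h30l hy q1 q2 q3 (by linarith only [hx0])
  have hu2 := A2.h30l hy q1 q2 q3 (by linarith only [hx0])
  obtain ⟨c1, c2⟩ := pw_flat' (zs := zs) (b i) h (c := 18 / 100) (by linarith only [q3])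
    (by rw [q1, q2]; norm_num)
  obtain ⟨c3, c4⟩ := pw_flat' (zs := zs) (b j) h (c := 18 / 100) (by linarith only [q3])
    (by rw [q1, q2]; norm_num)
  obtain ⟨w1, w2, -, -⟩ := mid_window hX A A' hi
  rw [hj] at w1 w2
  have ht1 : -(123 / 1000) ≤ tW zs (Or.inl hi) := by
    refine le_trans ?_ w1
    generalize clsW b k = K
    cases K <;> norm_num [mw]
  have ht2 : tW zs (Or.inl hi) ≤ -(64 / 1000) := by
    refine w2.trans ?_
    generalize clsW b k = K
    cases K <;> norm_num [mw]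
  have hmain := V2A.low2e (by rw [hre]; exact hx0) (by rw [hre]; exact hx1) hu c1 c2 hT1 hT2
    (rh_three hy hi) ht1 ht2 (vW_re (Or.inl hi) (42 / 100))
    (vW_three hi (by norm_num) (by norm_num)) (A'.wok hb hL hy hi hcap)
    (A'.wslope hb hL hy hi) (by rw [hre]; exact hcon)
  have hneg : -ofs (b j) (zs (.inl (.inl h))).im = ofs (b i) (zs (.inl (.inl h))).im := by
    rw [hTj, neg_neg]
  have hend : EndOk j (OY b zs y j) := Ow_endOk ((wpar b zs).pth zs y) j
  have ho := dV_twoE hb A2 hj hend (pw b zs (b j) h (18 / 100))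
  rw [OY_two] at ho
  have ho2 := V2A.other2e hu2 c3 c4
  rw [hre2, hneg] at ho2
  have ho3 := V2A.wo2e hx0 hx1 hT1 hT2
  have := val_hm hb hy A (c := 18 / 100) (by norm_num) (by rw [q1]; norm_num)
    (mopt_three hi (c := 42 / 100) (by norm_num) (by norm_num) _) (MOpt.same _ _)
  rw [OV_move hb hi, OV_three hb hi, OY_zero, OY_two] at this
  unfold dV at ho
  have e : OV b j (Function.update (OY b zs y j) (0 : Fin 3).rev (pw b zs (b j) h (18 / 100))) =
    OV b j (Function.update (OY b zs y j) 2 (pw b zs (b j) h (18 / 100))) := rfl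
  rw [e] at this
  linarith only [hi, hmain, ho, ho2, ho3, this]

/-- **`2 | 3`: the inner variable is not low.** -/
theorem low_2 (hb : ClassW b) (hL : Loc b zs) (hX : LocX b zs) (hy : Mx b zs y)
    (A : Adj h i 0 j) (A' : Adj h' i 2 k) (hi : clsW b i = .three)
    (hj : clsW b j = .two) (hcap : y (.inl (.inl h')) ≤ 39 / 100)
    (hx0 : 38 / 100 ≤ y (.inl (.inl h))) (hx1 : y (.inl (.inl h)) ≤ 1 / 2) :
    y (.inl (.inl h)) - 9 / 100 < (OY b zs y i 1).re := by
  by_contra hcon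
  push Not at hcon
  have hop := A.opp hb (Or.inl (by rw [hi]; decide))
  have A2 : Adj h j 2 i := A.symm
  obtain ⟨q1, q2, q3⟩ := A.par_s0_two hi hj
  obtain ⟨-, -, T1, T2⟩ := A.box hb hL
  rw [hi, hj, A.ss hop] at T1 T2
  have hT1 : -(57 / 1000) ≤ ofs (b i) (zs (.inl (.inl h))).im := le_trans (by norm_num [hbox]) T1
  have hT2 : ofs (b i) (zs (.inl (.inl h))).im ≤ 5 / 1000 := T2.trans (by norm_num [hbox])
  have hTj : ofs (b j) (zs (.inl (.inl h))).im = -ofs (b i) (zs (.inl (.inl h))).im :=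
    ofs_opp hop _
  have hre := A.re (b := b) (zs := zs) (y := y)
  have hre2 := A2.re (b := b) (zs := zs) (y := y)
  have hu := A.h27l hy q1 q2 (by rw [q3]; norm_num) (by linarith only [hx0])
  have hu2 := A2.h27l hy q1 q2 (by rw [q3]; norm_num) (by linarith only [hx0])
  obtain ⟨w1, w2, -, -⟩ := mid_window hX A A' hi
  rw [hj] at w1 w2
  have ht1 : -(114 / 1000) ≤ tW zs (Or.inl hi) := by
    refine le_trans ?_ w1
    generalize clsW b k = K
    cases K <;> norm_num [mw]
  have ht2 : tW zs (Or.inl hi) ≤ 5 / 1000 := by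
    refine w2.trans ?_
    generalize clsW b k = K
    cases K <;> norm_num [mw]
  obtain ⟨h2, r, A3⟩ := A2.other' b (clsW_inner hb (Or.inr (Or.inl hj)))
  have A4 : Adj h2 j 0 r := A3
  have hkok := A4.kok hb hL hy hj
  have hkmid := A4.kmid hb hL hy hj
  have hend : EndOk j (OY b zs y j) := Ow_endOk ((wpar b zs).pth zs y) j
  have U1 : -(5 / 1000) ≤ ofs (b j) (zs (.inl (.inl h))).im := by rw [hTj]; linarith only [hT2]
  have U2 : ofs (b j) (zs (.inl (.inl h))).im ≤ 57 / 1000 := by rw [hTj]; linarith only [hT1]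
  have hdV : ∀ z : ℂ, OV b j (Function.update (OY b zs y j) (0 : Fin 3).rev z) -
      OV b j (OY b zs y j) = V2 z (Yw b zs y j 0) - V2 (Yw b zs y j 2) (Yw b zs y j 0) := by
    intro z
    have e := dV_two hb A2 (Or.inl hj) hend z
    have e0 : OY b zs y j (2 : Fin 3).rev = Yw b zs y j 0 := OY_zero j
    rw [OY_two, e0] at e
    exact e
  obtain ⟨c1, c2⟩ := pw_flat' (zs := zs) (b i) h (c := 27 / 100) (by rw [q3]; norm_num)
    (by rw [q1, q2]; norm_num)
  obtain ⟨c3, c4⟩ := pw_flat' (zs := zs) (b j) h (c := 27 / 100) (by rw [q3]; norm_num)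
    (by rw [q1, q2]; norm_num)
  have hmain := V2A.low2 (by rw [hre]; exact hx0) (by rw [hre]; exact hx1) hu c1 c2 hT1 hT2
    (rh_three hy hi) ht1 ht2 (vW_re (Or.inl hi) (42 / 100))
    (vW_three hi (by norm_num) (by norm_num)) (A'.wok hb hL hy hi hcap)
    (A'.wslope hb hL hy hi) (by rw [hre]; exact hcon)
  have ho := V2A.wother2 (by rw [hre2]; exact hx0) (by rw [hre2]; exact hx1) hu2 c3 c4
    U1 U2 hkok hkmid
  have := val_hm hb hy A (c := 27 / 100) (by norm_num) (by rw [q1]; norm_num)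
    (mopt_three hi (c := 42 / 100) (by norm_num) (by norm_num) _) (MOpt.same _ _)
  rw [OV_move hb hi, OV_three hb hi, OY_zero, OY_two] at this
  have := hdV (pw b zs (b j) h (27 / 100))
  linarith

end SR

end Pool.Agent.Work.MP_b30479_gt.G2
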