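import Pool.Agent.Work.MP_b30479_gt.G2.V2WD
import Pool.Agent.Work.MP_b30479_gt.G2.V2Wp4
import Pool.Agent.Work.MP_b30479_gt.G2.V2Wp6
import Pool.Agent.Work.MP_b30479_gt.G2.V2Wp9
import Pool.Agent.Work.MP_b30479_gt.G2.V2Wp10
import Pool.Agent.Work.MP_b30479_gt.G2.V2Wp11
import Pool.Agent.Work.MP_b30479_gt.G2.V2Wp12
import Pool.Agent.Work.MP_b30479_gt.G2.V2Wp15

/-!
# Value moves of the hinge on the side `S3` of an inner digit `3`: `w33L`
-/

namespace Pool.Agent.Work.MP_b30479_gt.G2

open VOL NumU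

namespace V2A

open NumU.E

section
open NumI (V)

theorem w33L_1 : chkT (L1 (q 27 100) vT (q 42 100) eh30 (q 2 100) [add vs (q 13 100), ecw]) 60
    608855067732408941379530200327092698647739541004193753482406623252528095672805567838691591924900334710979557572959605150780872509540370564275674754152715433499378178099201956709069792058150675117775232726100562722815270712800765576210887339508927323069001608566566225550044525957422794307273666037635394734984815667854628703021061113189485614810927732550407924335667729091060066126336740266031526835216163414480931466822753421090322598081442540204788397535277918501068712943396486952820701936041379210309952096154032594864250052850411932754980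
    [V.of 10000 3800 5000, V.of 10000 (-280) 220, V.of 10000 500 3700, V.of 10000 (-1140) 50, V.of 10000 0 3900, V.of 10000 (-1145) 570] = true :=
  chkT_of (r := 0) (runT_split rfl rfl rfl
    (runT_split rfl rfl rfl
    (runT_split rfl rfl rfl
    (runT_split rfl rfl rfl
    w33L_1_p1
    w33L_1_p2)
    w33L_1_p3)
    w33L_1_p4)
    (runT_split rfl rfl rfl
    w33L_1_p5
    (runT_split rfl rfl rfl
    w33L_1_p6
    w33L_1_p7)))

end

variable {x T l h t w S k κ : ℝ}

theorem w33L (hx : 38 / 100 ≤ x) (hx' : x ≤ 1 / 2) (hT : -(28 / 1000) ≤ T) (hT' : T ≤ 22 / 1000)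
    (hl : 5 / 100 ≤ l) (hl' : l ≤ x - 13 / 100) (ht : -(114 / 1000) ≤ t) (ht' : t ≤ 5 / 1000) (hw : 0 ≤ w)
    (hw' : w ≤ 39 / 100) (hS : -(1145 / 10000) ≤ S) (hS' : S ≤ 57 / 1000)
    (hs : |S| ≤ 78 / 100 * w) :
    0 < dvL (27 / 100) T (42 / 100) x (h30 x T) l t w S + 2 / 100 + uu (l - x) (t - h30 x T) := by
  have ed : (add vs (q 13 100)).val [x, T, l, t, w, S] ≤ 0 := by
    simp only [E.val, vs_val]
    push_cast
    linarith only [hl']
  have := left_row (c := q 27 100) (hc := vT) (l' := q 42 100) (hx := eh30) (g := q 2 100) (es := [add vs (q 13 100), ecw])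
    (x := x) (T := T) (l := l) (t := t) (w := w) (S := S) (all_cons ed (all_cons (ecw_val hs)
      all_nil))
    (use6 w33L_1 (by norm_num) (by
      refine ⟨⟨?_, ?_⟩, ⟨?_, ?_⟩, ⟨?_, ?_⟩, ⟨?_, ?_⟩, ⟨?_, ?_⟩, ⟨?_, ?_⟩⟩ <;>
        push_cast <;> linarith))
    (use6 w33L_2 (by norm_num) (by
      refine ⟨⟨?_, ?_⟩, ⟨?_, ?_⟩, ⟨?_, ?_⟩, ⟨?_, ?_⟩, ⟨?_, ?_⟩, ⟨?_, ?_⟩⟩ <;>
        push_cast <;> linarith))
  rw [eh30_val] at this
  have e : (q 27 100).val [x, T, l, t, w, S] = 27 / 100 := by norm_num [E.val]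
  have e' : (q 42 100).val [x, T, l, t, w, S] = 42 / 100 := by norm_num [E.val]
  have e'' : (q 2 100).val [x, T, l, t, w, S] = 2 / 100 := by norm_num [E.val]
  rw [e, e', e''] at this
  exact this

end V2A

end Pool.Agent.Work.MP_b30479_gt.G2
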