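import Pool.Agent.Work.MP_b30479_gt.G2.V2WE
import Pool.Agent.Work.MP_b30479_gt.G2.V2Wp1
import Pool.Agent.Work.MP_b30479_gt.G2.V2Wp2
import Pool.Agent.Work.MP_b30479_gt.G2.V2Wp3
import Pool.Agent.Work.MP_b30479_gt.G2.V2Wp11
import Pool.Agent.Work.MP_b30479_gt.G2.V2Wp13
import Pool.Agent.Work.MP_b30479_gt.G2.V2Wp16
import Pool.Agent.Work.MP_b30479_gt.G2.V2Wp18

/-!
# Value moves of the hinge on the side `S3` of an inner digit `3`: `wend_1`, `wend_2`, `wend_3`, `wo2e`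
-/

namespace Pool.Agent.Work.MP_b30479_gt.G2

open VOL NumU

namespace V2A

open NumU.E

section
open NumI (V)

theorem wen_6 : chkT (M4 vt) 60
    91434519144759811902657347741452922557874468656351697220568370204824174773737670165522066494196905358672448939707097432535491989184283401941051973541748580284603637812110281708849710980156384360782036178739604585129470546743825260279535059936498242834092262030195393574179910191183532774582146054497026
    [V.of 1000 380 500, V.of 1000 5 28, V.of 1000 410 570, V.of 1000 (-45) 59] = true :=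
  chkT_of (r := 0) (runT_split rfl rfl rfl
    wen_6_p1
    wen_6_p2)

end

variable {x T l h t k κ : ℝ}

theorem wend_1 (hx : 38 / 100 ≤ x) (hx' : x ≤ 1 / 2) (hT : 5 / 1000 ≤ T) (hT' : T ≤ 28 / 1000)
    (hl : 0 ≤ l) (hl' : l ≤ 1 / 10) (ht : -(45 / 1000) ≤ t) (ht' : t ≤ 59 / 1000) :
    2 / 100 < dvG (27 / 100) T (42 / 100) t x (h30 x T) l (10 * (t * l)) 0 0 +
      uu (l - x) (10 * (t * l) - h30 x T) := by
  obtain ⟨m1, m2⟩ := h30_mem' (T := T) hx hx' (a := 0) (b := 28 / 1000) (by linarith only [hT]) (by linarith only [hT'])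
    (by norm_num) (by norm_num)
  have b1 : -(45 / 1000) ≤ 10 * (t * l) := by nlinarith only [hl', hl, ht]
  have b2 : 10 * (t * l) ≤ 59 / 1000 := by nlinarith only [hl', hl, ht']
  refine end_row' (hl := wE1) ?_ (by rw [abs_le]; constructor <;> linarith)
    (fun h1 => use4 wen_1 (by norm_num) (by
      refine ⟨⟨?_, ?_⟩, ⟨?_, ?_⟩, ⟨?_, ?_⟩, ⟨?_, ?_⟩⟩ <;>
        push_cast <;> linarith))
    (fun h1 => use4 wen_2 (by norm_num) (by
      refine ⟨⟨?_, ?_⟩, ⟨?_, ?_⟩, ⟨?_, ?_⟩, ⟨?_, ?_⟩⟩ <;>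
        push_cast <;> linarith))
    (fun h1 h2 => absurd h1 (by linarith only [hx, hl', h1])) (fun h1 => absurd h1 (by linarith only [hx, hl', h1]))
  have e1 : vl.val [x, T, l, t] = l := rfl
  simp only [wE1, E.val, vt_val, e1]
  norm_num

theorem wend_2 (hx : 38 / 100 ≤ x) (hx' : x ≤ 1 / 2) (hT : 5 / 1000 ≤ T) (hT' : T ≤ 28 / 1000)
    (hl : 1 / 10 ≤ l) (hl' : l ≤ 57 / 100) (ht : -(45 / 1000) ≤ t) (ht' : t ≤ 59 / 1000) :
    2 / 100 < dvG (27 / 100) T (42 / 100) t x (h30 x T) l t 0 0 + uu (l - x) (t - h30 x T) := by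
  obtain ⟨m1, m2⟩ := h30_mem' (T := T) hx hx' (a := 0) (b := 28 / 1000) (by linarith only [hT]) (by linarith only [hT'])
    (by norm_num) (by norm_num)
  exact end_row' (hl := vt) rfl (by rw [abs_le]; constructor <;> linarith)
    (fun h1 => use4 wen_3 (by norm_num) (by
      refine ⟨⟨?_, ?_⟩, ⟨?_, ?_⟩, ⟨?_, ?_⟩, ⟨?_, ?_⟩⟩ <;>
        push_cast <;> linarith))
    (fun h1 => use4 wen_4 (by norm_num) (by
      refine ⟨⟨?_, ?_⟩, ⟨?_, ?_⟩, ⟨?_, ?_⟩, ⟨?_, ?_⟩⟩ <;>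
        push_cast <;> linarith))
    (fun h1 h2 => use4 wen_5 (by norm_num) (by
      refine ⟨⟨?_, ?_⟩, ⟨?_, ?_⟩, ⟨?_, ?_⟩, ⟨?_, ?_⟩⟩ <;>
        push_cast <;> linarith))
    (fun h1 => use4 wen_6 (by norm_num) (by
      refine ⟨⟨?_, ?_⟩, ⟨?_, ?_⟩, ⟨?_, ?_⟩, ⟨?_, ?_⟩⟩ <;>
        push_cast <;> linarith))

theorem wend_3 (hx : 38 / 100 ≤ x) (hx' : x ≤ 1 / 2) (hT : 5 / 1000 ≤ T) (hT' : T ≤ 28 / 1000)
    (hl : 57 / 100 < l) (hl' : l ≤ 77 / 100) (ht : -(45 / 1000) ≤ t) (ht' : t ≤ 59 / 1000) :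
    2 / 100 < dvG (27 / 100) T (42 / 100) t x (h30 x T) l (t * (385 / 100 - 5 * l)) 0 0 +
      uu (l - x) (t * (385 / 100 - 5 * l) - h30 x T) := by
  obtain ⟨m1, m2⟩ := h30_mem' (T := T) hx hx' (a := 0) (b := 28 / 1000) (by linarith only [hT]) (by linarith only [hT'])
    (by norm_num) (by norm_num)
  have b1 : -(45 / 1000) ≤ t * (385 / 100 - 5 * l) := by nlinarith only [ht, hl, ht', hl']
  have b2 : t * (385 / 100 - 5 * l) ≤ 59 / 1000 := by nlinarith only [hl, hl', ht']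
  refine end_row' (hl := wE3) ?_ (by rw [abs_le]; constructor <;> linarith)
    (fun h1 => absurd h1 (by linarith only [hx', hl, h1])) (fun h1 => absurd h1 (by linarith only [hx', hl, h1]))
    (fun h1 h2 => absurd h2 (by linarith only [hx', hl, h2]))
    (fun h1 => use4 wen_8 (by norm_num) (by
      refine ⟨⟨?_, ?_⟩, ⟨?_, ?_⟩, ⟨?_, ?_⟩, ⟨?_, ?_⟩⟩ <;>
        push_cast <;> linarith))
  have e1 : vl.val [x, T, l, t] = l := rfl
  simp only [wE3, E.val, vt_val, e1]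
  norm_num

/-- an end with two crossings -/
theorem wo2e (hx : 38 / 100 ≤ x) (hx' : x ≤ 1 / 2) (hT : -(98 / 1000) ≤ T)
    (hT' : T ≤ -(76 / 1000)) : 0 < g2e x T := by
  have key : ∃ e ∈ [eg2e], 0 < e.val [x, T, 0, 0] :=
    use4 wo2e_1 (by norm_num) (by
      refine ⟨⟨?_, ?_⟩, ⟨?_, ?_⟩, ⟨?_, ?_⟩, ⟨?_, ?_⟩⟩ <;>
        push_cast <;> linarith)
  have := of_list key all_nil
  rw [eg2e_val] at this
  exact this

end V2A

end Pool.Agent.Work.MP_b30479_gt.G2
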