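import Pool.Agent.Work.MP_b30479_gt.G2.V2Row

/-!
# Expressions of the value moves of an inner digit `3`
-/

namespace Pool.Agent.Work.MP_b30479_gt.G2

open VOL NumU

namespace V2A

open NumU.E

/-- `|S| ≤ .78 w` is violated -/
def ecw : E := sub (neg (mul (q 78 100) vw)) vS

/-- the end region: lists of expressions -/
def M1 (hl : E) : List E :=
  [FGe (q 27 100) vT (q 42 100) vt vx eh30 vl hl (q 0 1) (q 0 1) (q (-2) 100)
    (aN vs (sub hl eh30)), sub hl eh30, add vs (q 3 100)]

def M2 (hl : E) : List E :=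
  [FGe (q 27 100) vT (q 42 100) vt vx eh30 vl hl (q 0 1) (q 0 1) (q (-2) 100)
    (aP vs (sub hl eh30)), sub eh30 hl, add vs (q 3 100)]

def M3 (hl : E) : List E :=
  [FGe (q 27 100) vT (q 42 100) vt vx eh30 vl hl (q 0 1) (q 0 1) (q (-2) 100)
    (uu (q 3 100) (sub hl eh30)), sub vs (q 3 100), sub (q (-3) 100) vs]

def M4 (hl : E) : List E :=
  [FGe (q 27 100) vT (q 42 100) vt vx eh30 vl hl (q 0 1) (q 0 1) (q (-2) 100)
    (uu vs (sub hl eh30)), sub (q 3 100) vs]

/-- heights of the inner variable at an end: left ramp, right ramp -/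
def wE1 : E := mul (q 10 1) (mul vt vl)

def wE3 : E := mul vt (sub (q 385 100) (mul (q 5 1) vl))

/-- the height `κ k` -/
def wkk : E := mul vt vl

def OW (c hc hx g : E) : List E :=
  [FOe c hc vx hx vl wkk g (sub (uu (add c vl) (add wkk hc)) (uu vk (add wkk hx)))]

end V2A

end Pool.Agent.Work.MP_b30479_gt.G2
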