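import Pool.Agent.Work.MP_b30479_gt.G2.V2WC

/-!
# Value moves of an inner digit `3`: general lemmas
-/

namespace Pool.Agent.Work.MP_b30479_gt.G2

open VOL NumU

namespace V2A

open NumU.E

variable {x T l h t w S k κ : ℝ}

theorem ecw_val (hs : |S| ≤ 78 / 100 * w) : ecw.val [x, T, l, t, w, S] ≤ 0 := by
  have e1 : vw.val [x, T, l, t, w, S] = w := rfl
  have e2 : vS.val [x, T, l, t, w, S] = S := rfl
  simp only [ecw, E.val, e1, e2]
  have := neg_le_of_abs_le hs
  push_cast
  linarith

end V2A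

end Pool.Agent.Work.MP_b30479_gt.G2
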