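import Pool.Agent.Work.MP_b30479_gt.G2.V2WC

/-!
# Value moves of an inner digit `3`: general lemmas, the digit on the left
-/

namespace Pool.Agent.Work.MP_b30479_gt.G2

open VOL NumU

namespace V2A

open NumU.E

variable {x T l h t k κ : ℝ}

theorem h30_mem' {a b : ℝ} (hx : 38 / 100 ≤ x) (hx' : x ≤ 1 / 2) (hT : -a ≤ T) (hT' : T ≤ b)
    (ha : 0 ≤ a) (hb : 0 ≤ b) : -a ≤ h30 x T ∧ h30 x T ≤ b := by
  unfold h30
  constructor <;> nlinarith

theorem h27_mem' {a b : ℝ} (hx : 38 / 100 ≤ x) (hx' : x ≤ 1 / 2) (hT : -a ≤ T) (hT' : T ≤ b)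
    (ha : 0 ≤ a) (hb : 0 ≤ b) : -a ≤ h27 x T ∧ h27 x T ≤ b := by
  unfold h27
  constructor <;> nlinarith

theorem other_row' {c hc hx g : E} {es : List E} {xs : List ℝ} {cc k hk : ℝ}
    (hv : vl.val xs = k) (hx0 : vx.val xs = x) (ht : vt.val xs = hk)
    (hcc : c.val xs = cc) (hy : 97 / 100 ≤ x + k → |hk + hx.val xs| ≤ 14 / 100)
    (hy' : 97 / 100 ≤ cc + k → |hk + hc.val xs| ≤ 14 / 100)
    (k1 : x + k ≤ 97 / 100 → ∃ e ∈ O1 c hc hx g es, 0 < e.val xs)
    (k2 : 97 / 100 ≤ x + k → x + k ≤ 103 / 100 → ∃ e ∈ O2 c hc hx g es, 0 < e.val xs)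
    (k3 : 103 / 100 ≤ x + k → cc + k ≤ 97 / 100 → ∃ e ∈ O3 c hc hx g es, 0 < e.val xs)
    (k4 : 103 / 100 ≤ x + k → cc + k ≤ 97 / 100 → ∃ e ∈ O4 c hc hx g es, 0 < e.val xs)
    (k5 : 97 / 100 ≤ cc + k → cc + k ≤ 103 / 100 → ∃ e ∈ O5 c hc hx g es, 0 < e.val xs)
    (k6 : 97 / 100 ≤ cc + k → cc + k ≤ 103 / 100 → ∃ e ∈ O6 c hc hx g es, 0 < e.val xs)
    (k7 : 103 / 100 ≤ cc + k → ∃ e ∈ O7 c hc hx g es, 0 < e.val xs)
    (k8 : 103 / 100 ≤ cc + k → ∃ e ∈ O8 c hc hx g es, 0 < e.val xs)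
    (hes : ∀ e ∈ es, e.val xs ≤ 0) :
    g.val xs < dvO cc (hc.val xs) x (hx.val xs) k hk +
      (NumU.uu (cc + k) (hc.val xs + hk) - NumU.uu (x + k) (hx.val xs + hk)) := by
  rcases le_total (97 / 100) (x + k) with h | h
  · exact other_row hv hx0 ht hcc (hy h) hy' k1 k2 k3 k4 k5 k6 k7 k8 hes
  · have e1 : vk.val xs = x + k := by
      simp only [vk, E.val, hv, hx0]
    have e3 : ((97 : ℤ) : ℝ) / ((100 : ℕ) : ℝ) = 97 / 100 := by norm_num
    have := of_list (k1 h) (all_cons (by simp only [E.val, e1, e3]; linarith only [h]) hes)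
    rw [FOe_val] at this
    simp only [E.val, hv, hx0, ht, hcc, e1] at this
    rw [add_comm (hc.val xs) hk, add_comm (hx.val xs) hk]
    linarith only [this]

theorem end_row' {hl : E} {b : ℝ} (hb : hl.val [x, T, l, t] = b)
    (hy : |b - h30 x T| ≤ 13 / 100)
    (k1 : l - x ≤ -(3 / 100) → ∃ e ∈ M1 hl, 0 < e.val [x, T, l, t])
    (k2 : l - x ≤ -(3 / 100) → ∃ e ∈ M2 hl, 0 < e.val [x, T, l, t])
    (k3 : -(3 / 100) ≤ l - x → l - x ≤ 3 / 100 → ∃ e ∈ M3 hl, 0 < e.val [x, T, l, t])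
    (k4 : 3 / 100 ≤ l - x → ∃ e ∈ M4 hl, 0 < e.val [x, T, l, t]) :
    2 / 100 < dvG (27 / 100) T (42 / 100) t x (h30 x T) l b 0 0 + uu (l - x) (b - h30 x T) := by
  have e1 : vs.val [x, T, l, t] = l - x := rfl
  have e2 : (q 3 100).val [x, T, l, t] = 3 / 100 := by norm_num [E.val]
  have e3 : (q (-3) 100).val [x, T, l, t] = -(3 / 100) := by norm_num [E.val]
  have e4 : (q 27 100).val [x, T, l, t] = 27 / 100 := by norm_num [E.val]
  have e5 : (q 42 100).val [x, T, l, t] = 42 / 100 := by norm_num [E.val]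
  have e6 : (q 0 1).val [x, T, l, t] = 0 := by norm_num [E.val]
  have ex : vx.val [x, T, l, t] = x := rfl
  have eT : vT.val [x, T, l, t] = T := rfl
  have el : vl.val [x, T, l, t] = l := rfl
  have et : vt.val [x, T, l, t] = t := rfl
  have n1 : (sub hl eh30).val [x, T, l, t] = b - h30 x T := by
    simp only [E.val, hb, eh30_val]
  have n2 : (q (-2) 100).val [x, T, l, t] = -(2 / 100) := by norm_num [E.val]
  have key : 0 < (dvG (27 / 100) T (42 / 100) t x (h30 x T) l b 0 0 + -(2 / 100)) +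
      uu (l - x) (b - h30 x T) := by
    refine split_uu hy ?_ ?_ ?_ ?_
    · intro h1 h2
      have := of_list (k1 h1) (all_cons (by rw [n1]; exact h2)
        (all_cons (by simp only [E.val, e1] at e2 ⊢; rw [e2]; linarith only [h1]) all_nil))
      rw [FGe_val, aN_val, e1, e4, e5, e6, ex, eT, el, et, n1, n2, eh30_val, hb] at this
      exact this
    · intro h1 h2
      have := of_list (k2 h1) (all_cons (by simp only [E.val, hb, eh30_val]; linarith only [h2])
        (all_cons (by simp only [E.val, e1] at e2 ⊢; rw [e2]; linarith only [h1]) all_nil))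
      rw [FGe_val, aP_val, e1, e4, e5, e6, ex, eT, el, et, n1, n2, eh30_val, hb] at this
      exact this
    · intro h1 h2
      have := of_list (k3 h1 h2) (all_cons (by simp only [E.val, e1] at e2 ⊢; rw [e2]; linarith only [h2])
        (all_cons (by simp only [E.val, e1] at e3 ⊢; rw [e3]; linarith only [h1]) all_nil))
      rw [FGe_val, e4, e5, e6, ex, eT, el, et, n2, eh30_val, hb] at this
      have n3 : (uu (q 3 100) (sub hl eh30)).val [x, T, l, t] =
          NumU.uu (3 / 100) (b - h30 x T) := by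
        simp only [E.val, hb, eh30_val] at e2 ⊢
        rw [e2]
      rw [n3] at this
      exact this
    · intro h1
      have := of_list (k4 h1) (all_cons (by simp only [E.val, e1] at e2 ⊢; rw [e2]; linarith only [h1])
        all_nil)
      rw [FGe_val, e4, e5, e6, ex, eT, el, et, n2, eh30_val, hb] at this
      have n3 : (uu vs (sub hl eh30)).val [x, T, l, t] =
          NumU.uu (l - x) (b - h30 x T) := by
        simp only [E.val, hb, eh30_val, e1]
      rw [n3] at this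
      exact this
  linarith only [key]

end V2A

end Pool.Agent.Work.MP_b30479_gt.G2
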