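import Pool.Agent.Work.MP_b30479_gt.G2.V3Mid

/-!
# The inner variable of an inner digit `3` on its left ramp, all positions: parts and expressions

The difference of the values at `c + t i` and at `r + 20 t r i` is `DF c x h t r + GG c r t w S`
(`x + i h` the hinge on the side `S3`, `w + i S` the hinge on the side `S2`).
-/

namespace Pool.Agent.Work.MP_b30479_gt.G2

open VOL NumU

namespace VL

/-- the part with the hinge on the side `S2`, minus its value for `0` -/
noncomputable def GG (c r t w S : ℝ) : ℝ :=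
  Real.pi * (w * t * (1 - 20 * r) + S * (c - r)) + uu (c + w) (t + S) - uu c t -
    uu (r + w) (20 * t * r + S) + uu r (20 * t * r)

/-- the remaining part -/
noncomputable def DF (c x h t r : ℝ) : ℝ :=
  Real.pi * (t * (1 - 20 * r) * (1 / 2 - x) - h * (c - r) - t * (c - 20 * r ^ 2)) -
    uu (c - x) (t - h) + uu (r - x) (20 * t * r - h)

theorem V3_diff' {u v v' w : ℂ} {c r t : ℝ} (h1 : v.re = r) (h2 : v.im = 20 * t * r)
    (h3 : v'.re = c) (h4 : v'.im = t) :
    V3 u v' w - V3 u v w = DF c u.re u.im t r + GG c r t w.re w.im := by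
  rw [VM.V3_diff h1 h2 h3 h4]
  have e := uu_add_one (r - u.re) (20 * t * r - u.im)
  rw [show r - u.re + 1 = 1 + r - u.re by ring] at e
  unfold VM.FA VM.FB VM.FC DF GG
  rw [e]
  ring

variable {c r t w s σ x h : ℝ}

/-! ### derivative along the ramp of the hinge on the side `S2` -/

/-- the derivative along the ramp -/
noncomputable def GP (c r t s σ : ℝ) : ℝ :=
  Real.pi * (t * (1 - 20 * r) + σ * (c - r)) +
    (LL ⟨c + s, t + σ * s⟩ + σ * YY ⟨c + s, t + σ * s⟩) -
    (LL ⟨r + s, 20 * t * r + σ * s⟩ + σ * YY ⟨r + s, 20 * t * r + σ * s⟩)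

theorem deriv_ray {a b : ℝ} (h0 : 0 < a + s) (h1 : a + s < 1) :
    HasDerivAt (fun s => uu (a + s) (b + σ * s))
      (LL ⟨a + s, b + σ * s⟩ + σ * YY ⟨a + s, b + σ * s⟩) s := by
  have e : ∀ s : ℝ, ((a : ℂ) + (b : ℂ) * Complex.I) + ((1 : ℂ) + (σ : ℂ) * Complex.I) * (s : ℂ) =
      ⟨a + s, b + σ * s⟩ := by
    intro s
    apply Complex.ext <;> simp
  have hg : HasDerivAt (fun s : ℝ => ((a : ℂ) + (b : ℂ) * Complex.I) +
      ((1 : ℂ) + (σ : ℂ) * Complex.I) * (s : ℂ)) (((1 : ℂ) + (σ : ℂ) * Complex.I) * 1) s :=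
    ((Complex.ofRealCLM.hasDerivAt (x := s)).const_mul _).const_add _
  have h2 := hasDerivAt_UU hg (Or.inr (by rw [e]; exact ⟨h0, h1⟩))
  have h3 : (fun s => uu (a + s) (b + σ * s)) = fun s : ℝ =>
      UU (((a : ℂ) + (b : ℂ) * Complex.I) + ((1 : ℂ) + (σ : ℂ) * Complex.I) * (s : ℂ)) := by
    funext s
    rw [e]
    rfl
  rw [h3]
  refine h2.congr_deriv ?_
  rw [e]
  simp

theorem GG_deriv (h1 : 0 < c + s) (h2 : c + s < 1) (h3 : 0 < r + s) (h4 : r + s < 1) :
    HasDerivAt (fun s => GG c r t s (σ * s)) (GP c r t s σ) s := by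
  have b0 : HasDerivAt (fun s : ℝ => Real.pi * (s * t * (1 - 20 * r) + σ * s * (c - r)))
      (Real.pi * (t * (1 - 20 * r) + σ * (c - r))) s := by
    have a1 := ((hasDerivAt_id s).mul_const t).mul_const (1 - 20 * r)
    have a2 := ((hasDerivAt_id s).const_mul σ).mul_const (c - r)
    refine ((a1.add a2).const_mul Real.pi).congr_deriv ?_
    ring
  have b1 := deriv_ray (a := c) (b := t) (σ := σ) h1 h2
  have b2 := deriv_ray (a := r) (b := 20 * t * r) (σ := σ) h3 h4
  have := (((b0.add b1).sub_const (uu c t)).sub b2).add_const (uu r (20 * t * r))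
  exact this

theorem GG_zero : GG c r t 0 0 = 0 := by
  unfold GG
  simp

theorem GG_ramp (hw : 0 ≤ w) (hc : 0 < c) (hc' : c + w < 1) (hr : 0 ≤ r) (hr' : r + w < 1)
    (k : ∀ s ∈ Set.Ioo 0 w, 0 ≤ GP c r t s σ) : 0 ≤ GG c r t w (σ * w) := by
  have hcont : Continuous fun s => GG c r t s (σ * s) := by
    unfold GG
    have c1 := VM.cont_uu (f := fun s : ℝ => c + s) (g := fun s => t + σ * s) (by fun_prop)
      (by fun_prop)
    have c2 := VM.cont_uu (f := fun s : ℝ => r + s) (g := fun s => 20 * t * r + σ * s)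
      (by fun_prop) (by fun_prop)
    exact ((((by fun_prop : Continuous fun s : ℝ =>
      Real.pi * (s * t * (1 - 20 * r) + σ * s * (c - r))).add c1).sub continuous_const).sub
        c2).add continuous_const
  have hm : MonotoneOn (fun s => GG c r t s (σ * s)) (Set.Icc 0 w) := by
    apply monotoneOn_of_deriv_nonneg (convex_Icc 0 w) hcont.continuousOn
    · rw [interior_Icc]
      intro s hs
      exact (GG_deriv (by linarith only [hc, hs, hs.1]) (by linarith only [hc', hs, hs.2]) (by linarith only [hr, hs, hs.1])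
        (by linarith only [hr', hs, hs.2])).differentiableAt.differentiableWithinAt
    · rw [interior_Icc]
      intro s hs
      rw [(GG_deriv (by linarith only [hc, hs, hs.1]) (by linarith only [hc', hs, hs.2]) (by linarith only [hr, hs, hs.1])
        (by linarith only [hr', hs, hs.2])).deriv]
      exact k s hs
  have h2 := hm (Set.left_mem_Icc.2 hw) (Set.right_mem_Icc.2 hw) hw
  simp only [mul_zero] at h2
  rw [GG_zero] at h2
  exact h2

/-! ### lower bounds of the derivative -/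

/-- `GP` without the last term, shifted -/
noncomputable def GH (c r t s σ δ : ℝ) : ℝ :=
  Real.pi * (t * (1 - 20 * r) + σ * (c - r)) +
    (NumI.lnA (c + s) (t + σ * s) - σ * NumI.lnB (c + s) (t + σ * s)) -
    NumI.lnA (r + s + δ) (20 * t * r + σ * s)

theorem YY_anti {p q y : ℝ} (hy : y ≤ 0) (hpq : p ≤ q) : YY ⟨q, y⟩ ≤ YY ⟨p, y⟩ := by
  rcases eq_or_lt_of_le hy with h | h
  · rw [YY_zero (by exact h), YY_zero (by exact h)]
  · rw [YY_neg (by exact h), YY_neg (by exact h)]
    have := Tr_mono (s := -y) (by linarith only [h]) hpq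
    simp only
    linarith only [this]

theorem GP_ge {δ : ℝ} (hc : 0 < c + s) (hc' : c + s < 1) (hr : 0 < r + s) (hδ : 0 ≤ δ)
    (hr' : r + s + δ ≤ 1 / 2) : GH c r t s σ δ - σ * YY ⟨r + s, 20 * t * r + σ * s⟩ ≤
      GP c r t s σ := by
  have a1 := VM.LL_mono (p := r + s) (q := r + s + δ) (y := 20 * t * r + σ * s) hr
    (by linarith only [hδ]) hr'
  have a2 : LL ⟨r + s + δ, 20 * t * r + σ * s⟩ =
      NumI.lnA (r + s + δ) (20 * t * r + σ * s) :=
    Num.LL_lnA (u := ⟨r + s + δ, 20 * t * r + σ * s⟩) ⟨by simp only; linarith only [hr, hδ],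
      by simp only; linarith only [hc, hc', hr']⟩
  have a3 : LL ⟨c + s, t + σ * s⟩ = NumI.lnA (c + s) (t + σ * s) :=
    Num.LL_lnA (u := ⟨c + s, t + σ * s⟩) ⟨hc, hc'⟩
  have a4 : YY ⟨c + s, t + σ * s⟩ = -NumI.lnB (c + s) (t + σ * s) :=
    Num.YY_lnB (u := ⟨c + s, t + σ * s⟩) ⟨hc, hc'⟩
  unfold GP GH
  rw [a3, a4, ← a2]
  linarith only [a1]

theorem GP_neg {δ : ℝ} (hc : 0 < c + s) (hc' : c + s < 1) (hr : 0 < r + s) (hδ : 0 ≤ δ)
    (hr' : r + s + δ ≤ 1 / 2) (hσ : σ ≤ 0) (hy : 20 * t * r + σ * s ≤ 0) :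
    GH c r t s σ δ + σ * NumI.lnB (r + s + δ) (20 * t * r + σ * s) ≤ GP c r t s σ := by
  refine le_trans ?_ (GP_ge (c := c) (t := t) (σ := σ) hc hc' hr hδ hr')
  have a1 := YY_anti (p := r + s) (q := r + s + δ) hy (by linarith only [hδ])
  have a4 : YY ⟨r + s + δ, 20 * t * r + σ * s⟩ =
      -NumI.lnB (r + s + δ) (20 * t * r + σ * s) :=
    Num.YY_lnB (u := ⟨r + s + δ, 20 * t * r + σ * s⟩) ⟨by simp only; linarith only [hr, hδ],
      by simp only; linarith only [hc, hc', hr']⟩
  rw [a4] at a1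
  nlinarith only [hc, hc', hσ, a1]

theorem GP_abs {δ : ℝ} (hc : 0 < c + s) (hc' : c + s < 1) (hr : 0 < r + s) (hδ : 0 ≤ δ)
    (hr' : r + s + δ ≤ 1 / 2) :
    GH c r t s σ δ - |σ| * (Real.pi * (1 / 2)) ≤ GP c r t s σ := by
  refine le_trans ?_ (GP_ge (c := c) (t := t) (σ := σ) hc hc' hr hδ hr')
  have a1 := VM.YY_left (p := r + s) (y := 20 * t * r + σ * s) hr.le (by linarith only [hδ, hr'])
  have hp := Real.pi_pos
  have a2 : |σ * YY ⟨r + s, 20 * t * r + σ * s⟩| ≤ |σ| * (Real.pi * (1 / 2)) := by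
    rw [abs_mul]
    apply mul_le_mul_of_nonneg_left _ (abs_nonneg σ)
    refine a1.trans ?_
    nlinarith only [hc, hc', hr, hp]
  have := le_abs_self (σ * YY ⟨r + s, 20 * t * r + σ * s⟩)
  linarith only [a2, this]

/-! ### expressions -/

section
open NumU.E

/-- `20 t r` -/
def vt (t r : E) : E := mul (q 20 1) (mul t r)

/-- the polynomial part of `DF` -/
def pD (c x h t r : E) : E :=
  mul E.pi (sub (sub (mul (mul t (sub (q 1 1) (mul (q 20 1) r))) (sub (q 1 2) x))
    (mul h (sub c r))) (mul t (sub c (mul (q 20 1) (sq r)))))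

/-- the height of `v - u` -/
def yD (h t r : E) : E := sub (vt t r) h

/-- `DF` with the point `r - x` shifted by `d` -/
def eA (c x h t r d : E) : E :=
  add (sub (pD c x h t r) (E.uu (sub c x) (sub t h))) (E.uu (add (sub r x) d) (yD h t r))

/-- `DF`, `v - u` below the level `0` is excluded -/
def eM (c x h t r : E) : E :=
  add (sub (sub (pD c x h t r) (mul E.pi (yD h t r))) (E.uu (sub c x) (sub t h)))
    (E.uu (sub (add (q 1 1) r) x) (yD h t r))

/-- `DF`, `v - u` above the level `0` is excluded -/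
def eP (c x h t r : E) : E :=
  add (sub (add (pD c x h t r) (mul E.pi (yD h t r))) (E.uu (sub c x) (sub t h)))
    (E.uu (sub (add (q 1 1) r) x) (yD h t r))

/-- `GG` -/
def eG (c w h t r rr : E) : E :=
  add (sub (sub (add (mul E.pi (add (mul (mul w t) (sub (q 1 1) (mul (q 20 1) r)))
    (mul h (sub c r)))) (E.uu (add c w) (add t h))) (E.uu c t))
      (E.uu (add r w) (add (vt t r) h))) (E.uu rr (vt t r))

/-- `GH` -/
def eH (c w s t r d : E) : E :=
  sub (add (mul E.pi (add (mul t (sub (q 1 1) (mul (q 20 1) r))) (mul s (sub c r))))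
    (sub (E.lnA (add c w) (add t (mul s w))) (mul s (E.lnB (add c w) (add t (mul s w))))))
      (E.lnA (add (add r w) d) (add (vt t r) (mul s w)))

def eN (c w s t r d : E) : E :=
  add (eH c w s t r d) (mul s (E.lnB (add (add r w) d) (add (vt t r) (mul s w))))

def eQ (c w s t r d : E) : E := sub (eH c w s t r d) (mul s (mul E.pi (q 1 2)))

def eR (c w s t r d : E) : E := add (eH c w s t r d) (mul s (mul E.pi (q 1 2)))

variable (c' x' h' t' r' d' w' s' : E) (xs : List ℝ)

theorem vt_val : (vt t' r').val xs = 20 * t'.val xs * r'.val xs := by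
  simp only [vt, E.val]
  push_cast
  ring

theorem eA_val : (eA c' x' h' t' r' d').val xs =
    DF (c'.val xs) (x'.val xs) (h'.val xs) (t'.val xs) (r'.val xs) -
      uu (r'.val xs - x'.val xs) (20 * t'.val xs * r'.val xs - h'.val xs) +
      uu (r'.val xs - x'.val xs + d'.val xs) (20 * t'.val xs * r'.val xs - h'.val xs) := by
  simp only [eA, pD, yD, vt_val, E.val, DF]
  push_cast
  ring

theorem eM_val : (eM c' x' h' t' r').val xs =
    DF (c'.val xs) (x'.val xs) (h'.val xs) (t'.val xs) (r'.val xs) +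
      Real.pi * (|20 * t'.val xs * r'.val xs - h'.val xs| -
        (20 * t'.val xs * r'.val xs - h'.val xs)) := by
  have e := uu_add_one (r'.val xs - x'.val xs) (20 * t'.val xs * r'.val xs - h'.val xs)
  rw [show r'.val xs - x'.val xs + 1 = 1 + r'.val xs - x'.val xs by ring] at e
  simp only [eM, pD, yD, vt_val, E.val, DF]
  push_cast
  simp only [div_one]
  rw [e]
  ring

theorem eP_val : (eP c' x' h' t' r').val xs =
    DF (c'.val xs) (x'.val xs) (h'.val xs) (t'.val xs) (r'.val xs) +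
      Real.pi * (|20 * t'.val xs * r'.val xs - h'.val xs| +
        (20 * t'.val xs * r'.val xs - h'.val xs)) := by
  have e := uu_add_one (r'.val xs - x'.val xs) (20 * t'.val xs * r'.val xs - h'.val xs)
  rw [show r'.val xs - x'.val xs + 1 = 1 + r'.val xs - x'.val xs by ring] at e
  simp only [eP, pD, yD, vt_val, E.val, DF]
  push_cast
  simp only [div_one]
  rw [e]
  ring

theorem eG_val : (eG c' w' h' t' r' d').val xs =
    GG (c'.val xs) (r'.val xs) (t'.val xs) (w'.val xs) (h'.val xs) -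
      uu (r'.val xs) (20 * t'.val xs * r'.val xs) +
      uu (d'.val xs) (20 * t'.val xs * r'.val xs) := by
  simp only [eG, vt_val, E.val, GG]
  push_cast
  ring

theorem eH_val : (eH c' w' s' t' r' d').val xs =
    GH (c'.val xs) (r'.val xs) (t'.val xs) (w'.val xs) (s'.val xs) (d'.val xs) := by
  simp only [eH, vt_val, E.val, GH]
  push_cast
  ring

end

end VL

end Pool.Agent.Work.MP_b30479_gt.G2
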