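import Pool.Agent.Work.MP_b30479_gt.G2.V30A
import Pool.Agent.Work.NumU.Tree

/-!
# The inner variable on its left ramp: certificates of the side `S3`, level part
-/

namespace Pool.Agent.Work.MP_b30479_gt.G2

open VOL NumU

namespace VL

open NumI (V)
open NumU.E (q var)

def fM (c s0 s1 : ℤ) : List E := [eM (q c 100) (var 0) (var 1) (var 2) (var 3),
  .neg (yD (var 1) (var 2) (var 3)), .sub (.sub (var 1) (var 2)) (q (-s0) 1000),
  .sub (.sub (var 2) (var 1)) (q s1 1000)]

def fP (c s0 s1 : ℤ) : List E := [eP (q c 100) (var 0) (var 1) (var 2) (var 3),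
  yD (var 1) (var 2) (var 3), .sub (.sub (var 1) (var 2)) (q (-s0) 1000),
  .sub (.sub (var 2) (var 1)) (q s1 1000)]

theorem k_fmA : chkT (fM 44 (-45) 84) 40
    0x882808828821288280822882888128810288088288213881822218828821881822088288220882088288280802888180288288228820882881882221882023b82b188823288881238888128808822188203288823021888028882320882882201882882188821883200
    [V.of 10000 1300 4300, V.of 10000 (-1145) (-210),
      V.of 10000 (-900) 50, V.of 10000 0 500] = true := by
  decide +kernel

theorem k_fpA : chkT (fP 44 (-45) 84) 40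
    0x98288229881219982218828108810880088881000
    [V.of 10000 1300 4300, V.of 10000 (-1145) (-210),
      V.of 10000 (-900) 50, V.of 10000 0 500] = true := by
  decide +kernel

theorem k_fmN : chkT (fM 44 (-107) 30) 40
    0x8828821888208808320
    [V.of 10000 1200 3300, V.of 10000 (-570) 220,
      V.of 10000 (-1140) 50, V.of 10000 0 500] = true := by
  decide +kernel

theorem k_fpN : chkT (fP 44 (-107) 30) 40
    0x8888022888381288883281283008888832001
    [V.of 10000 1200 3300, V.of 10000 (-570) 220,
      V.of 10000 (-1140) 50, V.of 10000 0 500] = true := by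
  decide +kernel

theorem k_fmE : chkT (fM 44 (-52) 32) 40
    0x8808830
    [V.of 10000 1200 3100, V.of 10000 (-980) (-730),
      V.of 10000 (-1230) (-640), V.of 10000 0 500] = true := by
  decide +kernel

theorem k_fpE : chkT (fP 44 (-52) 32) 40
    0x880
    [V.of 10000 1200 3100, V.of 10000 (-980) (-730),
      V.of 10000 (-1230) (-640), V.of 10000 0 500] = true := by
  decide +kernel

theorem k_fmY : chkT (fM 24 (-107) 30) 40
    0x88280809832
    [V.of 10000 1200 2200, V.of 10000 (-10) 570,
      V.of 10000 (-1140) 50, V.of 10000 0 500] = true := by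
  decide +kernel

theorem k_fpY : chkT (fP 24 (-107) 30) 40
    0x88088283288802188812830880a28183838a28801830a228828810888028328828883283201
    [V.of 10000 1200 2200, V.of 10000 (-10) 570,
      V.of 10000 (-1140) 50, V.of 10000 0 500] = true := by
  decide +kernel

theorem k_fmZ : chkT (fM 44 (-107) 30) 40
    0x882
    [V.of 10000 2200 3100, V.of 10000 (-10) 570,
      V.of 10000 (-1140) 50, V.of 10000 0 500] = true := by
  decide +kernel

theorem k_fpZ : chkT (fP 44 (-107) 30) 40
    0x880888380802818328801a8a218183a2880183a2288883221
    [V.of 10000 2200 3100, V.of 10000 (-10) 570,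
      V.of 10000 (-1140) 50, V.of 10000 0 500] = true := by
  decide +kernel

end VL

end Pool.Agent.Work.MP_b30479_gt.G2
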