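import Pool.Agent.Work.MP_b30479_gt.G2.V30B
import Pool.Agent.Work.MP_b30479_gt.G2.V30C
import Pool.Agent.Work.MP_b30479_gt.G2.V30D

/-!
# The inner variable of an inner digit `3` on its left ramp, all positions: the two parts
-/

namespace Pool.Agent.Work.MP_b30479_gt.G2

open VOL NumU

namespace VL

open NumI (V)
open NumU.E (q var)

variable {c r t w s σ S x h m : ℝ}

/-! ### the side `S2` -/

theorem uu_shift {a b y : ℝ} (ha : -(6 / 100) ≤ a) (hab : a ≤ b) (hb : b ≤ 6 / 100)
    (hy : |y| ≤ 14 / 100) : uu b y ≤ uu a y :=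
  UA.anti UA.kc_6_14 (by norm_num) ha hab hb hy

theorem abs_vr (ht : -(123 / 1000) ≤ t) (ht' : t ≤ 5 / 1000) (hr : 0 ≤ r) (hr' : r ≤ 5 / 100) :
    |20 * t * r| ≤ 14 / 100 := by
  rw [abs_le]
  constructor <;> nlinarith only [hr', ht, hr, ht']

/-- level part of the hinge -/
theorem GG_flat {n : ℤ} {ca cb : ℕ} (hn : (n : ℝ) / 100 = c)
    (k1 : chkT [eG (q n 100) (var 0) (var 1) (var 2) (var 3) (var 3)] 40 ca
      [V.of 10000 1300 3900, V.of 10000 (-1145) 570, V.of 10000 (-1230) 50,
        V.of 10000 200 500] = true)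
    (k2 : chkT [eG (q n 100) (var 0) (var 1) (var 2) (var 3) (q 2 100)] 40 cb
      [V.of 10000 1300 3900, V.of 10000 (-1145) 570, V.of 10000 (-1230) 50,
        V.of 10000 0 200] = true)
    (hw : 13 / 100 ≤ w) (hw' : w ≤ 39 / 100) (hS : -(1145 / 10000) ≤ S) (hS' : S ≤ 57 / 1000)
    (ht : -(123 / 1000) ≤ t) (ht' : t ≤ 5 / 1000) (hr : 0 ≤ r) (hr' : r ≤ 5 / 100) :
    0 < GG c r t w S := by
  have hv := abs_vr ht ht' hr hr'
  rcases le_total (2 / 100) r with h2 | h2
  · have hp := pos_of_chk (chkT4 k1 (by norm_num) (x := w) (y := S) (z := t) (w := r)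
      (by push_cast; linarith only [hw]) (by push_cast; linarith only [hw']) (by push_cast; linarith only [hS])
      (by push_cast; linarith only [hS']) (by push_cast; linarith only [ht]) (by push_cast; linarith only [ht'])
      (by push_cast; linarith only [h2]) (by push_cast; linarith only [hr']))
    rw [eG_val] at hp
    simp only [E.val, NumI.lkR] at hp
    rw [show (((n : ℤ) : ℝ) / ((100 : ℕ) : ℝ)) = c by push_cast; exact hn] at hp
    linarith only [hp]
  · have hp := pos_of_chk (chkT4 k2 (by norm_num) (x := w) (y := S) (z := t) (w := r)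
      (by push_cast; linarith only [hw]) (by push_cast; linarith only [hw']) (by push_cast; linarith only [hS])
      (by push_cast; linarith only [hS']) (by push_cast; linarith only [ht]) (by push_cast; linarith only [ht'])
      (by push_cast; linarith only [hr]) (by push_cast; linarith only [h2]))
    rw [eG_val] at hp
    simp only [E.val, NumI.lkR] at hp
    rw [show (((n : ℤ) : ℝ) / ((100 : ℕ) : ℝ)) = c by push_cast; exact hn] at hp
    have h3 := uu_shift (a := r) (b := 2 / 100) (by linarith only [hr]) h2 (by norm_num) hv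
    push_cast at hp
    linarith only [h3, hp]

/-- ramp, `w ≥ 2 / 100` -/
theorem GG_mid {n : ℤ} {ca cb : ℕ} (hn : (n : ℝ) / 100 = c)
    (k1 : chkT [eG (q n 100) (var 0) (.mul (var 1) (var 0)) (var 2) (var 3) (var 3)] 40 ca
      [V.of 10000 200 1500, V.of 10000 (-7634) 4385, V.of 10000 (-1230) 50,
        V.of 10000 100 500] = true)
    (k2 : chkT [eG (q n 100) (var 0) (.mul (var 1) (var 0)) (var 2) (var 3) (q 1 100)] 40 cb
      [V.of 10000 200 1500, V.of 10000 (-7634) 4385, V.of 10000 (-1230) 50,
        V.of 10000 0 100] = true)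
    (hw : 2 / 100 ≤ w) (hw' : w ≤ 15 / 100) (hσ : -(7634 / 10000) ≤ σ) (hσ' : σ ≤ 4385 / 10000)
    (ht : -(123 / 1000) ≤ t) (ht' : t ≤ 5 / 1000) (hr : 0 ≤ r) (hr' : r ≤ 5 / 100) :
    0 < GG c r t w (σ * w) := by
  have hv := abs_vr ht ht' hr hr'
  rcases le_total (1 / 100) r with h2 | h2
  · have hp := pos_of_chk (chkT4 k1 (by norm_num) (x := w) (y := σ) (z := t) (w := r)
      (by push_cast; linarith only [hw]) (by push_cast; linarith only [hw']) (by push_cast; linarith only [hσ])
      (by push_cast; linarith only [hσ']) (by push_cast; linarith only [ht]) (by push_cast; linarith only [ht'])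
      (by push_cast; linarith only [h2]) (by push_cast; linarith only [hr']))
    rw [eG_val] at hp
    simp only [E.val, NumI.lkR] at hp
    rw [show (((n : ℤ) : ℝ) / ((100 : ℕ) : ℝ)) = c by push_cast; exact hn] at hp
    linarith only [hp]
  · have hp := pos_of_chk (chkT4 k2 (by norm_num) (x := w) (y := σ) (z := t) (w := r)
      (by push_cast; linarith only [hw]) (by push_cast; linarith only [hw']) (by push_cast; linarith only [hσ])
      (by push_cast; linarith only [hσ']) (by push_cast; linarith only [ht]) (by push_cast; linarith only [ht'])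
      (by push_cast; linarith only [hr]) (by push_cast; linarith only [h2]))
    rw [eG_val] at hp
    simp only [E.val, NumI.lkR] at hp
    rw [show (((n : ℤ) : ℝ) / ((100 : ℕ) : ℝ)) = c by push_cast; exact hn] at hp
    have h3 := uu_shift (a := r) (b := 1 / 100) (by linarith only [hr]) h2 (by norm_num) hv
    push_cast at hp
    linarith only [h3, hp]

/-- ramp near `0` -/
theorem GG_small {n : ℤ} {ca cb cc cd : ℕ} (hn : (n : ℝ) / 100 = c) (hc : 1 / 10 ≤ c)
    (hc' : c ≤ 9 / 10)
    (k1 : chkT [eN (q n 100) (var 0) (var 1) (var 2) (var 3) (q 2 100)] 40 ca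
      [V.of 10000 0 200, V.of 10000 (-7634) 0, V.of 10000 (-1230) 0, V.of 10000 0 250] = true)
    (k2 : chkT [eN (q n 100) (var 0) (var 1) (var 2) (var 3) (q 1 100)] 40 cb
      [V.of 10000 0 200, V.of 10000 (-7634) 0, V.of 10000 (-1230) 0, V.of 10000 250 500] = true)
    (k3 : chkT [eQ (q n 100) (var 0) (var 1) (var 2) (var 3) (q 2 100)] 40 cc
      [V.of 10000 0 200, V.of 10000 0 4385, V.of 10000 (-1230) 50, V.of 10000 0 500] = true)
    (k4 : chkT [eR (q n 100) (var 0) (var 1) (var 2) (var 3) (q 1 100)] 40 cd
      [V.of 10000 0 200, V.of 10000 (-4385) 0, V.of 10000 0 50, V.of 10000 0 500] = true)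
    (hw : 0 ≤ w) (hw' : w ≤ 2 / 100) (hσ : -(7634 / 10000) ≤ σ) (hσ' : σ ≤ 4385 / 10000)
    (ht : -(123 / 1000) ≤ t) (ht' : t ≤ 5 / 1000) (hts : t ≤ 0 ∨ -(4385 / 10000) ≤ σ)
    (hr : 0 ≤ r) (hr' : r ≤ 5 / 100) : 0 ≤ GG c r t w (σ * w) := by
  apply GG_ramp hw (by linarith only [hc]) (by linarith only [hc', hw']) hr (by linarith only [hw', hr'])
  intro s hs
  obtain ⟨s0, s1⟩ := hs
  have hn' : (((n : ℤ) : ℝ) / ((100 : ℕ) : ℝ)) = c := by push_cast; exact hn
  rcases le_total 0 σ with h0 | h0
  · have hp := pos_of_chk (chkT4 k3 (by norm_num) (x := s) (y := σ) (z := t) (w := r)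
      (by push_cast; linarith only [s0]) (by push_cast; linarith only [hw', s1]) (by push_cast; linarith only [h0])
      (by push_cast; linarith only [hσ']) (by push_cast; linarith only [ht]) (by push_cast; linarith only [ht'])
      (by push_cast; linarith only [hr]) (by push_cast; linarith only [hr']))
    unfold eQ at hp
    simp only [E.val, eH_val, NumI.lkR] at hp
    rw [hn'] at hp
    push_cast at hp
    have := GP_abs (c := c) (r := r) (t := t) (s := s) (σ := σ) (δ := 2 / 100) (by linarith only [hc, hw', s0, s1])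
      (by linarith only [hc', hw', s0, s1]) (by linarith only [hr, s0]) (by norm_num) (by linarith only [hw', hr', s0, s1])
    rw [abs_of_nonneg h0] at this
    linarith only [hp, this]
  · have neg : t ≤ 0 → 0 ≤ GP c r t s σ := by
      intro h1
      have hy : 20 * t * r + σ * s ≤ 0 := by nlinarith only [hr, h1, s0, h0]
      rcases le_total r (25 / 1000) with h2 | h2
      · have hp := pos_of_chk (chkT4 k1 (by norm_num) (x := s) (y := σ) (z := t) (w := r)
          (by push_cast; linarith only [s0]) (by push_cast; linarith only [hw', s1]) (by push_cast; linarith only [hσ])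
          (by push_cast; linarith only [h0]) (by push_cast; linarith only [ht]) (by push_cast; linarith only [h1])
          (by push_cast; linarith only [hr]) (by push_cast; linarith only [h2]))
        unfold eN at hp
        simp only [E.val, eH_val, vt_val, NumI.lkR] at hp
        rw [hn'] at hp
        push_cast at hp
        have := GP_neg (c := c) (r := r) (t := t) (s := s) (σ := σ) (δ := 2 / 100) (by linarith only [hc, hw', s0, s1])
          (by linarith only [hc', hw', s0, s1]) (by linarith only [hr, s0]) (by norm_num) (by linarith only [hw', hr', s0, s1]) h0 hy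
        linarith only [hp, this]
      · have hp := pos_of_chk (chkT4 k2 (by norm_num) (x := s) (y := σ) (z := t) (w := r)
          (by push_cast; linarith only [s0]) (by push_cast; linarith only [hw', s1]) (by push_cast; linarith only [hσ])
          (by push_cast; linarith only [h0]) (by push_cast; linarith only [ht]) (by push_cast; linarith only [h1])
          (by push_cast; linarith only [h2]) (by push_cast; linarith only [hr']))
        unfold eN at hp
        simp only [E.val, eH_val, vt_val, NumI.lkR] at hp
        rw [hn'] at hp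
        push_cast at hp
        have := GP_neg (c := c) (r := r) (t := t) (s := s) (σ := σ) (δ := 1 / 100) (by linarith only [hc, hw', s0, s1])
          (by linarith only [hc', hw', s0, s1]) (by linarith only [hw', s0, s1, h2]) (by norm_num) (by linarith only [hw', hr', s0, s1]) h0 hy
        linarith only [hp, this]
    rcases hts with h1 | h3
    · exact neg h1
    rcases le_total t 0 with h1 | h1
    · exact neg h1
    have hp := pos_of_chk (chkT4 k4 (by norm_num) (x := s) (y := σ) (z := t) (w := r)
      (by push_cast; linarith only [s0]) (by push_cast; linarith only [hw', s1]) (by push_cast; linarith only [h3])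
      (by push_cast; linarith only [h0]) (by push_cast; linarith only [h1]) (by push_cast; linarith only [ht'])
      (by push_cast; linarith only [hr]) (by push_cast; linarith only [hr']))
    unfold eR at hp
    simp only [E.val, eH_val, NumI.lkR] at hp
    rw [hn'] at hp
    push_cast at hp
    have := GP_abs (c := c) (r := r) (t := t) (s := s) (σ := σ) (δ := 1 / 100) (by linarith only [hc, hw', s0, s1])
      (by linarith only [hc', hw', s0, s1]) (by linarith only [hr, s0]) (by norm_num) (by linarith only [hw', hr', s0, s1])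
    rw [abs_of_nonpos h0] at this
    linarith only [hp, this]

/-- the hinge on the side `S2` on its path -/
structure HW (w : ℂ) (S : ℝ) : Prop where
  p : (RH w S (65 / 100) (15 / 100) (29 / 100) ∧ w.re ≤ 39 / 100 ∧ -(1145 / 10000) ≤ S ∧
      S ≤ -(21 / 1000)) ∨
    (RH w S (60 / 100) (13 / 100) (30 / 100) ∧ w.re ≤ 39 / 100 ∧ -(98 / 1000) ≤ S ∧
      S ≤ 57 / 1000)

/-- the three parts of the path -/
theorem HW.cases {w : ℂ} {S : ℝ} (H : HW w S) :
    (∃ σ : ℝ, w.im = σ * w.re ∧ 0 ≤ w.re ∧ w.re ≤ 15 / 100 ∧ -(7634 / 10000) ≤ σ ∧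
      σ ≤ 4385 / 10000 ∧ (-(57 / 1000) ≤ S → -(4385 / 10000) ≤ σ)) ∨
    (13 / 100 ≤ w.re ∧ w.re ≤ 39 / 100 ∧ -(1145 / 10000) ≤ w.im ∧ w.im ≤ 57 / 1000) := by
  rcases H.p with ⟨hR, h1, h2, h3⟩ | ⟨hR, h1, h2, h3⟩
  · rcases le_total w.re (15 / 100) with h4 | h4
    · left
      refine ⟨S / (15 / 100), ?_, hR.re0, h4, ?_, ?_, fun h5 => ?_⟩
      · rw [hR.im, tr_a (by norm_num) (by norm_num) (by norm_num) hR.re0 h4]
        ring
      all_goals linarith
    · right
      refine ⟨by linarith only [h4], h1, ?_⟩
      rcases le_total w.re (36 / 100) with h5 | h5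
      · rw [hR.im, tr_b (by norm_num) (by norm_num) h4 (by linarith only [h5]), mul_one]
        constructor <;> linarith only [h2, h3]
      · rw [hR.im, tr_c (by norm_num) (by norm_num) (by norm_num) (by linarith only [h5]) hR.reM]
        constructor <;> nlinarith only [h2, h5, h1, h3]
  · rcases le_total w.re (13 / 100) with h4 | h4
    · left
      refine ⟨S / (13 / 100), ?_, hR.re0, by linarith only [h4], ?_, ?_, fun h5 => ?_⟩
      · rw [hR.im, tr_a (by norm_num) (by norm_num) (by norm_num) hR.re0 h4]
        ring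
      all_goals linarith
    · right
      refine ⟨by linarith only [h4], by linarith only [h1], ?_⟩
      rcases le_total w.re (30 / 100) with h5 | h5
      · rw [hR.im, tr_b (by norm_num) (by norm_num) h4 (by linarith only [h5]), mul_one]
        constructor <;> linarith only [h2, h3]
      · rw [hR.im, tr_c (by norm_num) (by norm_num) (by norm_num) (by linarith only [h5]) hR.reM]
        constructor <;> nlinarith only [h2, h5, h1, h3]

theorem GG_24 {w : ℂ} (H : HW w S) (ht : -(123 / 1000) ≤ t) (ht' : t ≤ 5 / 1000)
    (hts : t ≤ 0 ∨ -(57 / 1000) ≤ S) (hr : 0 ≤ r) (hr' : r ≤ 5 / 100) :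
    0 ≤ GG (24 / 100) r t w.re w.im := by
  have hn : ((24 : ℤ) : ℝ) / 100 = 24 / 100 := by norm_num
  rcases H.cases with ⟨σ, h1, h2, h3, h4, h5, h6⟩ | ⟨h1, h2, h3, h4⟩
  · rw [h1]
    rcases le_total w.re (2 / 100) with h7 | h7
    · exact GG_small hn (by norm_num) (by norm_num) k_gn24a k_gn24b k_gp24 k_gt24 h2 h7 h4 h5 ht
        ht' (hts.imp_right h6) hr hr'
    · exact (GG_mid hn k_gr24a k_gr24b h7 h3 h4 h5 ht ht' hr hr').le
  · exact (GG_flat hn k_gf24a k_gf24b h1 h2 h3 h4 ht ht' hr hr').le

theorem GG_44 {w : ℂ} (H : HW w S) (ht : -(123 / 1000) ≤ t) (ht' : t ≤ 5 / 1000)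
    (hts : t ≤ 0 ∨ -(57 / 1000) ≤ S) (hr : 0 ≤ r) (hr' : r ≤ 5 / 100) :
    0 ≤ GG (44 / 100) r t w.re w.im := by
  have hn : ((44 : ℤ) : ℝ) / 100 = 44 / 100 := by norm_num
  rcases H.cases with ⟨σ, h1, h2, h3, h4, h5, h6⟩ | ⟨h1, h2, h3, h4⟩
  · rw [h1]
    rcases le_total w.re (2 / 100) with h7 | h7
    · exact GG_small hn (by norm_num) (by norm_num) k_gn44a k_gn44b k_gp44 k_gt44 h2 h7 h4 h5 ht
        ht' (hts.imp_right h6) hr hr'
    · exact (GG_mid hn k_gr44a k_gr44b h7 h3 h4 h5 ht ht' hr hr').le
  · exact (GG_flat hn k_gf44a k_gf44b h1 h2 h3 h4 ht ht' hr hr').le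

/-! ### the side `S3`, left ramp -/

theorem DF_plain (hx : 0 ≤ x) (hx' : x ≤ 2 / 100) (hm : -(8808 / 10000) ≤ m)
    (hm' : m ≤ 475 / 1000) (ht : -(123 / 1000) ≤ t) (ht' : t ≤ 5 / 1000) (hr : 25 / 1000 ≤ r)
    (hr' : r ≤ 5 / 100) : 0 < DF (24 / 100) x (m * x) t r := by
  have hp := pos_of_chk (chkT4 k_d1 (by norm_num) (x := x) (y := m) (z := t) (w := r)
    (by push_cast; linarith only [hx]) (by push_cast; linarith only [hx']) (by push_cast; linarith only [hm])
    (by push_cast; linarith only [hm']) (by push_cast; linarith only [ht]) (by push_cast; linarith only [ht'])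
    (by push_cast; linarith only [hr]) (by push_cast; linarith only [hr']))
  rw [eA_val] at hp
  simp only [E.val, NumI.lkR] at hp
  push_cast at hp
  simp only [zero_div, add_zero, sub_add_cancel] at hp
  exact hp

theorem DF_near (hx : 0 ≤ x) (hx' : x ≤ 2 / 100) (hm : -(8808 / 10000) ≤ m)
    (hm' : m ≤ 475 / 1000) (ht : -(123 / 1000) ≤ t) (ht' : t ≤ 5 / 1000) (hr : 0 ≤ r)
    (hr' : r ≤ 25 / 1000) : 0 < DF (24 / 100) x (m * x) t r := by
  have hp := pos_of_chk (chkT4 k_d2 (by norm_num) (x := x) (y := m) (z := t) (w := r)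
    (by push_cast; linarith only [hx]) (by push_cast; linarith only [hx']) (by push_cast; linarith only [hm])
    (by push_cast; linarith only [hm']) (by push_cast; linarith only [ht]) (by push_cast; linarith only [ht'])
    (by push_cast; linarith only [hr]) (by push_cast; linarith only [hr']))
  rw [eA_val] at hp
  simp only [E.val, NumI.lkR] at hp
  push_cast at hp
  have hy : |20 * t * r - m * x| ≤ 14 / 100 := by
    rw [abs_le]
    constructor <;> nlinarith only [hx', hr', hx, hm', ht, hr, ht', hm]
  have h3 := uu_shift (a := r - x) (b := r - x + 225 / 10000) (by linarith only [hx', hr]) (by linarith only [])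
    (by linarith only [hx, hr']) hy
  linarith only [hp, h3]

theorem DF_y (hx : 0 ≤ x) (hx' : x ≤ 6 / 100) (hm : -(8808 / 10000) ≤ m)
    (hm' : m ≤ 475 / 1000) (ht : -(123 / 1000) ≤ t) (ht' : t ≤ 5 / 1000) (hr : 0 ≤ r)
    (hr' : r ≤ 5 / 100) (hl : -(107 / 1000) ≤ t - 12 / 100 * m) :
    |20 * t * r - m * x| ≤ 14 / 100 := by
  have h1 : 20 * t * r ≤ 5 / 1000 := by nlinarith only [ht', ht, hr', hr]
  have h2 : t ≤ 20 * t * r ∨ 0 ≤ 20 * t * r := by
    rcases le_total t 0 with h | h
    · left
      nlinarith only [hr', h]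
    · right
      positivity
  have h3 : -(8808 / 10000 * (6 / 100)) ≤ m * x := by nlinarith only [hx', hx, hm]
  have h4 : 0 ≤ m → m * x ≤ m * (6 / 100) := fun h => mul_le_mul_of_nonneg_left hx' h
  have h5 : m ≤ 0 → m * x ≤ 0 := fun h => mul_nonpos_of_nonpos_of_nonneg h hx
  rw [abs_le]
  constructor
  · rcases le_total 0 m with h | h
    · have := h4 h
      rcases h2 with h2 | h2 <;> linarith only [hl, h, this, h2, hm']
    · have := h5 h
      rcases h2 with h2 | h2 <;> linarith only [ht, this, h2]
  · linarith only [h1, h3]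

theorem DF_cell {l1 h1 : ℤ} {ca cb cc : ℕ}
    (k1 : chkT lS 40 ca [V.of 10000 l1 h1, V.of 10000 (-8808) 4750, V.of 10000 (-1230) 50,
      V.of 10000 0 500] = true)
    (k2 : chkT lM 40 cb [V.of 10000 l1 h1, V.of 10000 (-8808) 4750, V.of 10000 (-1230) 50,
      V.of 10000 0 500] = true)
    (k3 : chkT lP 40 cc [V.of 10000 l1 h1, V.of 10000 (-8808) 4750, V.of 10000 (-1230) 50,
      V.of 10000 0 500] = true)
    (h0 : 2 / 100 ≤ x) (h6 : x ≤ 6 / 100) (hx : (l1 : ℝ) / 10000 ≤ x) (hx' : x ≤ (h1 : ℝ) / 10000)
    (hm : -(8808 / 10000) ≤ m) (hm' : m ≤ 475 / 1000) (ht : -(123 / 1000) ≤ t)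
    (ht' : t ≤ 5 / 1000) (hr : 0 ≤ r) (hr' : r ≤ 5 / 100) (hl : -(107 / 1000) ≤ t - 12 / 100 * m) :
    0 < DF (24 / 100) x (m * x) t r := by
  have hx2 : (l1 : ℝ) / ((10000 : ℕ) : ℝ) ≤ x := by push_cast; exact hx
  have hx3 : x ≤ (h1 : ℝ) / ((10000 : ℕ) : ℝ) := by push_cast; exact hx'
  rcases le_total (x - r) (8 / 1000) with h2 | h2
  · obtain ⟨e, he, hp⟩ := chkT4 k1 (by norm_num) (x := x) (y := m) (z := t) (w := r)
      hx2 hx3 (by push_cast; linarith only [hm])
      (by push_cast; linarith only [hm']) (by push_cast; linarith only [ht]) (by push_cast; linarith only [ht'])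
      (by push_cast; linarith only [h0, h2]) (by push_cast; linarith only [hr'])
    have hy := DF_y (by linarith only [h0]) h6 hm hm' ht ht' hr hr' hl
    simp only [lS, List.mem_cons, List.not_mem_nil, or_false] at he
    rcases he with rfl | rfl | rfl | rfl | rfl | rfl
    · rw [eA_val] at hp
      simp only [E.val, NumI.lkR] at hp
      push_cast at hp
      have h3 := uu_shift (a := r - x) (b := r - x + 4 / 1000) (by linarith only [h2]) (by linarith only [])
        (by linarith only [h0, hr']) hy
      linarith only [hp, h3]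
    · rw [eA_val] at hp
      simp only [E.val, NumI.lkR] at hp
      push_cast at hp
      have h3 := uu_shift (a := r - x) (b := r - x + 1 / 100) (by linarith only [h2]) (by linarith only [])
        (by linarith only [h0, hr']) hy
      linarith only [hp, h3]
    · rw [eA_val] at hp
      simp only [E.val, NumI.lkR] at hp
      push_cast at hp
      have h3 := uu_shift (a := r - x) (b := r - x + 125 / 10000) (by linarith only [h2]) (by linarith only [])
        (by linarith only [h0, hr']) hy
      linarith only [hp, h3]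
    · rw [eA_val] at hp
      simp only [E.val, NumI.lkR] at hp
      push_cast at hp
      have h3 := uu_shift (a := r - x) (b := r - x + 2 / 100) (by linarith only [h2]) (by linarith only [])
        (by linarith only [h0, hr']) hy
      linarith only [hp, h3]
    · simp only [E.val, NumI.lkR] at hp
      push_cast at hp
      linarith only [h2, hp]
    · simp only [eL, E.val, NumI.lkR] at hp
      push_cast at hp
      linarith only [hl, hp]
  · rcases le_total 0 (20 * t * r - m * x) with h3 | h3
    · obtain ⟨e, he, hp⟩ := chkT4 k2 (by norm_num) (x := x) (y := m) (z := t) (w := r)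
        hx2 hx3 (by push_cast; linarith only [hm])
        (by push_cast; linarith only [hm']) (by push_cast; linarith only [ht]) (by push_cast; linarith only [ht'])
        (by push_cast; linarith only [hr]) (by push_cast; linarith only [hr'])
      simp only [lM, List.mem_cons, List.not_mem_nil, or_false] at he
      rcases he with rfl | rfl | rfl | rfl
      · rw [eM_val] at hp
        simp only [E.val, NumI.lkR] at hp
        push_cast at hp
        rw [abs_of_nonneg h3, sub_self, mul_zero, add_zero] at hp
        exact hp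
      · simp only [E.val, yD, vt_val, NumI.lkR] at hp
        linarith only [h3, hp]
      · simp only [E.val, NumI.lkR] at hp
        push_cast at hp
        linarith only [h2, hp]
      · simp only [eL, E.val, NumI.lkR] at hp
        push_cast at hp
        linarith only [hl, hp]
    · obtain ⟨e, he, hp⟩ := chkT4 k3 (by norm_num) (x := x) (y := m) (z := t) (w := r)
        hx2 hx3 (by push_cast; linarith only [hm])
        (by push_cast; linarith only [hm']) (by push_cast; linarith only [ht]) (by push_cast; linarith only [ht'])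
        (by push_cast; linarith only [hr]) (by push_cast; linarith only [hr'])
      simp only [lP, List.mem_cons, List.not_mem_nil, or_false] at he
      rcases he with rfl | rfl | rfl | rfl
      · rw [eP_val] at hp
        simp only [E.val, NumI.lkR] at hp
        push_cast at hp
        rw [abs_of_nonpos h3, neg_add_cancel, mul_zero, add_zero] at hp
        exact hp
      · simp only [E.val, yD, vt_val, NumI.lkR] at hp
        linarith only [h3, hp]
      · simp only [E.val, NumI.lkR] at hp
        push_cast at hp
        linarith only [h2, hp]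
      · simp only [eL, E.val, NumI.lkR] at hp
        push_cast at hp
        linarith only [hl, hp]

theorem DF_far (hx : 6 / 100 ≤ x) (hx' : x ≤ 13 / 100)
    (hm : -(8808 / 10000) ≤ m) (hm' : m ≤ 475 / 1000) (ht : -(123 / 1000) ≤ t)
    (ht' : t ≤ 5 / 1000) (hr : 0 ≤ r) (hr' : r ≤ 5 / 100) (hl : -(107 / 1000) ≤ t - 12 / 100 * m) :
    0 < DF (24 / 100) x (m * x) t r := by
  rcases le_total 0 (20 * t * r - m * x) with h3 | h3
  · obtain ⟨e, he, hp⟩ := chkT4 k_dm4 (by norm_num) (x := x) (y := m) (z := t) (w := r)
      (by push_cast; linarith only [hx]) (by push_cast; linarith only [hx']) (by push_cast; linarith only [hm])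
      (by push_cast; linarith only [hm']) (by push_cast; linarith only [ht]) (by push_cast; linarith only [ht'])
      (by push_cast; linarith only [hr]) (by push_cast; linarith only [hr'])
    simp only [lM, List.mem_cons, List.not_mem_nil, or_false] at he
    rcases he with rfl | rfl | rfl | rfl
    · rw [eM_val] at hp
      simp only [E.val, NumI.lkR] at hp
      push_cast at hp
      rw [abs_of_nonneg h3, sub_self, mul_zero, add_zero] at hp
      exact hp
    · simp only [E.val, yD, vt_val, NumI.lkR] at hp
      linarith only [h3, hp]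
    · simp only [E.val, NumI.lkR] at hp
      push_cast at hp
      linarith only [hx, hr', hp]
    · simp only [eL, E.val, NumI.lkR] at hp
      push_cast at hp
      linarith only [hl, hp]
  · obtain ⟨e, he, hp⟩ := chkT4 k_dp4 (by norm_num) (x := x) (y := m) (z := t) (w := r)
      (by push_cast; linarith only [hx]) (by push_cast; linarith only [hx']) (by push_cast; linarith only [hm])
      (by push_cast; linarith only [hm']) (by push_cast; linarith only [ht]) (by push_cast; linarith only [ht'])
      (by push_cast; linarith only [hr]) (by push_cast; linarith only [hr'])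
    simp only [lP, List.mem_cons, List.not_mem_nil, or_false] at he
    rcases he with rfl | rfl | rfl | rfl
    · rw [eP_val] at hp
      simp only [E.val, NumI.lkR] at hp
      push_cast at hp
      rw [abs_of_nonpos h3, neg_add_cancel, mul_zero, add_zero] at hp
      exact hp
    · simp only [E.val, yD, vt_val, NumI.lkR] at hp
      linarith only [h3, hp]
    · simp only [E.val, NumI.lkR] at hp
      push_cast at hp
      linarith only [hx, hr', hp]
    · simp only [eL, E.val, NumI.lkR] at hp
      push_cast at hp
      linarith only [hl, hp]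

/-- **The side `S3`, left ramp of the hinge.** -/
theorem DF_ramp (hx : 0 ≤ x) (hx' : x ≤ 13 / 100)
    (hm : -(8808 / 10000) ≤ m) (hm' : m ≤ 475 / 1000) (ht : -(123 / 1000) ≤ t)
    (ht' : t ≤ 5 / 1000) (hr : 0 ≤ r) (hr' : r ≤ 5 / 100) (hl : -(107 / 1000) ≤ t - 12 / 100 * m) :
    0 < DF (24 / 100) x (m * x) t r := by
  rcases le_total x (6 / 100) with h6 | h6
  · rcases le_total x (2 / 100) with h2 | h2
    · rcases le_total (25 / 1000) r with h | h
      · exact DF_plain hx h2 hm hm' ht ht' h hr'
      · exact DF_near hx h2 hm hm' ht ht' hr h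
    · rcases le_total x (3 / 100) with h3 | h3
      · exact DF_cell k_ds0 k_dm0 k_dp0 h2 h6 (by push_cast; linarith only [h2]) (by push_cast; linarith only [h3])
          hm hm' ht ht' hr hr' hl
      · rcases le_total x (4 / 100) with h4 | h4
        · exact DF_cell k_ds1 k_dm1 k_dp1 h2 h6 (by push_cast; linarith only [h3]) (by push_cast; linarith only [h4])
            hm hm' ht ht' hr hr' hl
        · rcases le_total x (5 / 100) with h5 | h5
          · exact DF_cell k_ds2 k_dm2 k_dp2 h2 h6 (by push_cast; linarith only [h4])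
              (by push_cast; linarith only [h5]) hm hm' ht ht' hr hr' hl
          · exact DF_cell k_ds3 k_dm3 k_dp3 h2 h6 (by push_cast; linarith only [h5])
              (by push_cast; linarith only [h6]) hm hm' ht ht' hr hr' hl
  · exact DF_far h6 hx' hm hm' ht ht' hr hr' hl

/-! ### the side `S3`, level part -/

theorem DF_level {n s0 s1 l1 h1 l2 h2 l3 h3 : ℤ} {ca cb : ℕ}
    (k1 : chkT (fM n s0 s1) 40 ca [V.of 10000 l1 h1, V.of 10000 l2 h2, V.of 10000 l3 h3,
      V.of 10000 0 500] = true)
    (k2 : chkT (fP n s0 s1) 40 cb [V.of 10000 l1 h1, V.of 10000 l2 h2, V.of 10000 l3 h3,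
      V.of 10000 0 500] = true) (hn : (n : ℝ) / 100 = c)
    (hx : (l1 : ℝ) / 10000 ≤ x) (hx' : x ≤ (h1 : ℝ) / 10000)
    (hh : (l2 : ℝ) / 10000 ≤ h) (hh' : h ≤ (h2 : ℝ) / 10000)
    (ht : (l3 : ℝ) / 10000 ≤ t) (ht' : t ≤ (h3 : ℝ) / 10000)
    (hr : 0 ≤ r) (hr' : r ≤ 5 / 100) (hs : (s0 : ℝ) / 1000 ≤ t - h) (hs' : t - h ≤ (s1 : ℝ) / 1000) :
    0 < DF c x h t r := by
  have hn' : (((n : ℤ) : ℝ) / ((100 : ℕ) : ℝ)) = c := by push_cast; exact hn
  rcases le_total 0 (20 * t * r - h) with h3 | h3
  · obtain ⟨e, he, hp⟩ := chkT4 k1 (by norm_num) (x := x) (y := h) (z := t) (w := r)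
      (by push_cast; exact hx) (by push_cast; exact hx') (by push_cast; exact hh)
      (by push_cast; exact hh') (by push_cast; exact ht) (by push_cast; exact ht')
      (by push_cast; linarith only [hr]) (by push_cast; linarith only [hr'])
    simp only [fM, List.mem_cons, List.not_mem_nil, or_false] at he
    rcases he with rfl | rfl | rfl | rfl
    · rw [eM_val] at hp
      simp only [E.val, NumI.lkR] at hp
      rw [abs_of_nonneg h3, sub_self, mul_zero, add_zero, hn'] at hp
      exact hp
    · simp only [E.val, yD, vt_val, NumI.lkR] at hp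
      linarith only [h3, hp]
    · simp only [E.val, NumI.lkR] at hp
      push_cast at hp
      linarith only [hs, hp]
    · simp only [E.val, NumI.lkR] at hp
      push_cast at hp
      linarith only [hs', hp]
  · obtain ⟨e, he, hp⟩ := chkT4 k2 (by norm_num) (x := x) (y := h) (z := t) (w := r)
      (by push_cast; exact hx) (by push_cast; exact hx') (by push_cast; exact hh)
      (by push_cast; exact hh') (by push_cast; exact ht) (by push_cast; exact ht')
      (by push_cast; linarith only [hr]) (by push_cast; linarith only [hr'])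
    simp only [fP, List.mem_cons, List.not_mem_nil, or_false] at he
    rcases he with rfl | rfl | rfl | rfl
    · rw [eP_val] at hp
      simp only [E.val, NumI.lkR] at hp
      rw [abs_of_nonpos h3, neg_add_cancel, mul_zero, add_zero, hn'] at hp
      exact hp
    · simp only [E.val, yD, vt_val, NumI.lkR] at hp
      linarith only [h3, hp]
    · simp only [E.val, NumI.lkR] at hp
      push_cast at hp
      linarith only [hs, hp]
    · simp only [E.val, NumI.lkR] at hp
      push_cast at hp
      linarith only [hs', hp]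

end VL

end Pool.Agent.Work.MP_b30479_gt.G2
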