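import Pool.Agent.Work.NumU.Expr

/-!
# Side of the slot-0 hinge of an inner digit `3`, left ramp: parts and expressions

`u = x (1 + i m)` the hinge, `v = r + i t` the inner variable, `w` the hinge in slot 2.
-/

namespace Pool.Agent.Work.MP_b30479_gt.G2

open VOL NumU

namespace VL

namespace S0

/-- the gain of the hinge in slot 2 in the side of the inner variable -/
noncomputable def ff (r t w h : ℝ) : ℝ :=
  Real.pi * h + NumI.lnA (r + w) (t + h) - NumI.lnA r t

/-- its value at the cap next to a digit `1` -/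
noncomputable def fc (r t : ℝ) : ℝ :=
  ((-3226 : ℤ) : ℝ) / (10000 : ℕ) + NumI.lnA (r + ((39 : ℤ) : ℝ) / (100 : ℕ))
    (t + ((-29770 : ℤ) : ℝ) / (290000 : ℕ)) - NumI.lnA r t

/-- the shifted side without the term `LL (v - u)` -/
noncomputable def co (x m p r t c : ℝ) : ℝ :=
  -(Real.pi * t) - NumI.lnA x (m * x) + m * (c - Real.pi * r +
    (NumI.lnB x (m * x) - NumI.lnB p (t - m * x)))

/-- the same for small `x` -/
noncomputable def cs (x m p r t c : ℝ) : ℝ :=
  -(Real.pi * t) - NumI.lnA (((1 : ℤ) : ℝ) / (100 : ℕ)) (m * (((1 : ℤ) : ℝ) / (100 : ℕ))) +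
    m * (c - Real.pi * r + -NumI.lnB p (t - m * x))

section
open NumU.E

def eF (r t w h : E) : E :=
  sub (add (mul E.pi h) (E.lnA (add r w) (add t h))) (E.lnA r t)

def eC (r t : E) : E :=
  sub (add (q (-3226) 10000) (E.lnA (add r (q 39 100)) (add t (q (-29770) 290000)))) (E.lnA r t)

def eCo (x m p r t c : E) : E :=
  add (sub (neg (mul E.pi t)) (E.lnA x (mul m x))) (mul m (add (sub c (mul E.pi r))
    (sub (E.lnB x (mul m x)) (E.lnB p (sub t (mul m x))))))

def eCs (x m p r t c : E) : E :=
  add (sub (neg (mul E.pi t)) (E.lnA (q 1 100) (mul m (q 1 100)))) (mul m (add (sub c (mul E.pi r))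
    (neg (E.lnB p (sub t (mul m x))))))

/-- the term `LL (v - u)` -/
def eV (x m p t : E) : E := E.lnA p (sub t (mul m x))

def eU (x m t : E) : E := mul E.pi (add (mul m x) t)

/-- the side minus its bound -/
def f1 (co x m p t e : E) : E := sub (add co (eV x m p t)) e

/-- with the first-order condition of the inner variable added -/
def f2 (co x m t e φ : E) : E := sub (sub (sub co e) (eU x m t)) φ

/-- violation of the first-order condition -/
def f3 (x m p t φ : E) : E := sub (sub (neg (eU x m t)) (eV x m p t)) φ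

/-- windows of the heights -/
def w1 (m t : E) (cl s : ℤ) : E := sub (sub t (mul (q cl 100) m)) (q s 1000)

def w0 (m t : E) (cl s : ℤ) : E := sub (q s 1000) (sub t (mul (q cl 100) m))

/-- shifts -/
def cA : E := sub E.pi (mul (q 9 2) (var 0))

def cN : E := mul E.pi (q 1 2)

/-- bounds of `-ff` -/
def gA (r : E) : E := sub (q 9 100) (mul (q 3 10) r)

def gL (r : E) : E := add (q 1 100) (mul (q 44 10) (sub r (q 247 1000)))

def gD (r : E) : E := add (q 3 100) (mul (q 33 10) (sub r (q 275 1000)))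

def gB (r t : E) : E := add (sub (q 3326 10000) (E.lnA (add r (q 39 100))
  (add t (q (-29770) 290000)))) (E.lnA r t)

/-! lists; variables `x, m, r, t` (`x, m, p, t` in `l1`, `r = x + p`) -/

def lN (cl s0 s1 : ℤ) : List E :=
  [sub (sub (neg (eU (var 0) (var 1) (var 3))) (E.lnA (q 8 100) (sub (var 3)
    (mul (var 1) (var 0))))) (gA (var 2)), sub (sub (var 2) (var 0)) (q 8 100),
    w1 (var 1) (var 3) cl s1, w0 (var 1) (var 3) cl s0]

def lN' : List E :=
  [sub (sub (neg (eU (var 0) (var 1) (var 3))) (E.lnA (q 8 100) (sub (var 3)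
    (mul (var 1) (var 0))))) (gA (var 2)), sub (sub (var 2) (var 0)) (q 8 100)]

def l1 (co : E) (e : ℤ) : List E :=
  [f2 co (var 0) (var 1) (var 3) (q e 1000) (gA (add (var 0) (var 2))),
    f1 co (var 0) (var 1) (var 2) (var 3) (q e 1000),
    f3 (var 0) (var 1) (var 2) (var 3) (gA (add (var 0) (var 2))),
    sub (add (var 0) (var 2)) (q 247 1000)]

def l2 (co φ : E) (e : ℤ) : List E :=
  [f2 co (var 0) (var 1) (var 3) (q e 1000) φ,
    f1 co (var 0) (var 1) (sub (var 2) (var 0)) (var 3) (q e 1000),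
    f3 (var 0) (var 1) (sub (var 2) (var 0)) (var 3) φ]

def l3 (co : E) (e : ℤ) : List E :=
  [f1 co (var 0) (var 1) (sub (var 2) (var 0)) (var 3) (q e 1000)]

def lW (cl s0 s1 : ℤ) : List E := [w1 (var 1) (var 3) cl s1, w0 (var 1) (var 3) cl s0]

/-- `co` for the variables `x, m, r, t` -/
def oR (c : E) : E := eCo (var 0) (var 1) (sub (var 2) (var 0)) (var 2) (var 3) c

/-- `co` for the variables `x, m, p, t` -/
def oP (c : E) : E := eCo (var 0) (var 1) (var 2) (add (var 0) (var 2)) (var 3) c

def sR (c : E) : E := eCs (var 0) (var 1) (sub (var 2) (var 0)) (var 2) (var 3) c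

def sP (c : E) : E := eCs (var 0) (var 1) (var 2) (add (var 0) (var 2)) (var 3) c

variable (x' m' p' r' t' c' h' w' : E) (xs : List ℝ)

theorem eF_val : (eF r' t' w' h').val xs = ff (r'.val xs) (t'.val xs) (w'.val xs) (h'.val xs) := by
  simp only [eF, E.val, ff]

theorem eC_val : (eC r' t').val xs = fc (r'.val xs) (t'.val xs) := by
  simp only [eC, E.val, fc]

theorem eCo_val : (eCo x' m' p' r' t' c').val xs =
    co (x'.val xs) (m'.val xs) (p'.val xs) (r'.val xs) (t'.val xs) (c'.val xs) := by
  simp only [eCo, E.val, co]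

theorem eCs_val : (eCs x' m' p' r' t' c').val xs =
    cs (x'.val xs) (m'.val xs) (p'.val xs) (r'.val xs) (t'.val xs) (c'.val xs) := by
  simp only [eCs, E.val, cs]

end

end S0

end VL

end Pool.Agent.Work.MP_b30479_gt.G2
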