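import Pool.Agent.Work.MP_b30479_gt.G2.V30G
import Pool.Agent.Work.NumU.Tree

/-!
# Side of the slot-0 hinge of an inner digit `3`, no neighbour `1`: certificates
-/

namespace Pool.Agent.Work.MP_b30479_gt.G2

open VOL NumU

namespace VL

namespace S0

open NumI (V)
open NumU.E (q var)

theorem k_snn : chkT (lN') 40
    0x883
    [V.of 10000 0 100, V.of 10000 (-8167) 4750,
      V.of 10000 500 900, V.of 10000 (-1230) 50] = true := by
  decide +kernel

theorem k_sn1 : chkT (l1 (sP cN) 400) 40
    0x8888aa32212
    [V.of 10000 0 100, V.of 10000 (-8167) 4750,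
      V.of 10000 500 2470, V.of 10000 (-1230) 50] = true := by
  decide +kernel

theorem k_sn3 : chkT (l3 (sR cN) 400) 40
    0x8818822
    [V.of 10000 0 100, V.of 10000 (-8167) 4750,
      V.of 10000 2470 8000, V.of 10000 (-1230) 50] = true := by
  decide +kernel

theorem k_tn : chkT (lN 12 (-105) 28) 40
    0x8881803
    [V.of 10000 100 1200, V.of 10000 (-4750) 417,
      V.of 10000 500 2000, V.of 10000 (-1140) 50] = true := by
  decide +kernel

theorem k_t1 : chkT (l1 (oP cN) 100 ++ lW 12 (-105) 28) 40
    0xb8080aa0a1a3aa32aa3aaa13222bb80802aa0a3aa32aa3aa0aa332221880888000aa0aa01aa02aa02aaa022288800aa0aa02aa1aa322230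
    [V.of 10000 100 1200, V.of 10000 (-4750) 417,
      V.of 10000 500 2470, V.of 10000 (-1140) 50] = true := by
  decide +kernel

theorem k_t2a : chkT (l2 (oR cN) (gL (var 2)) 100 ++ lW 12 (-105) 14) 40
    0x999880218812298818182298201988120982982188801038818089000
    [V.of 10000 100 1200, V.of 10000 (-4750) 417,
      V.of 10000 2470 3600, V.of 10000 (-1140) (-150)] = true := by
  decide +kernel

theorem k_t2c : chkT (l2 (oR cN) (q 3 100) 100 ++ lW 12 (-100) 28) 40
    0x88188118810881088089000
    [V.of 10000 100 1200, V.of 10000 (-4750) 417,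
      V.of 10000 2470 2750, V.of 10000 (-1040) 50] = true := by
  decide +kernel

theorem k_t2d : chkT (l2 (oR cN) (gD (var 2)) 100 ++ lW 12 (-100) 28) 40
    0x9983881229099828180218818810399831088089000
    [V.of 10000 100 1200, V.of 10000 (-4750) 417,
      V.of 10000 2750 3600, V.of 10000 (-1040) 50] = true := by
  decide +kernel

theorem k_t3 : chkT (l3 (oR cN) 100) 40
    0x88188812288088220882882088288082000
    [V.of 10000 100 1200, V.of 10000 (-4750) 417,
      V.of 10000 3600 8000, V.of 10000 (-1140) 50] = true := by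
  decide +kernel

theorem k_en : chkT (lN 12 (-48) 32) 40
    0x880
    [V.of 10000 100 1200, V.of 10000 (-8167) (-6333),
      V.of 10000 500 2000, V.of 10000 (-1230) (-640)] = true := by
  decide +kernel

theorem k_e1 : chkT (l1 (oP cN) 400 ++ lW 12 (-48) 32) 40
    0xba2aaaa0222880aaa22288800aaa32200
    [V.of 10000 100 1200, V.of 10000 (-8167) (-6333),
      V.of 10000 500 2470, V.of 10000 (-1230) (-640)] = true := by
  decide +kernel

theorem k_e2a : chkT (l2 (oR cN) (gL (var 2)) 400 ++ lW 12 (-48) 15) 40
    0x982828820880088089000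
    [V.of 10000 100 1200, V.of 10000 (-8167) (-6333),
      V.of 10000 2470 3600, V.of 10000 (-1230) (-800)] = true := by
  decide +kernel

theorem k_e2c : chkT (l2 (oR cN) (q 3 100) 400 ++ lW 12 (-40) 32) 40
    0xa80888000
    [V.of 10000 100 1200, V.of 10000 (-8167) (-6333),
      V.of 10000 2470 2750, V.of 10000 (-1160) (-640)] = true := by
  decide +kernel

theorem k_e2d : chkT (l2 (oR cN) (gD (var 2)) 400 ++ lW 12 (-40) 32) 40
    0x88080888000
    [V.of 10000 100 1200, V.of 10000 (-8167) (-6333),
      V.of 10000 2750 3600, V.of 10000 (-1160) (-640)] = true := by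
  decide +kernel

theorem k_e3 : chkT (l3 (oR cN) 400) 40
    0x8828882288208820288288208828828820000
    [V.of 10000 100 1200, V.of 10000 (-8167) (-6333),
      V.of 10000 3600 8000, V.of 10000 (-1230) 0] = true := by
  decide +kernel

theorem k_hn : chkT (lN 13 (-105) 28) 40
    0x88813
    [V.of 10000 100 1300, V.of 10000 (-1693) 1693,
      V.of 10000 500 2100, V.of 10000 (-1140) 50] = true := by
  decide +kernel

theorem k_h1 : chkT (l1 (oP cN) 50 ++ lW 13 (-105) 28) 40
    0xb808a180aa12aaa3228a82180328880088800aa2aa33220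
    [V.of 10000 100 1300, V.of 10000 (-1693) 1693,
      V.of 10000 500 2470, V.of 10000 (-1140) 50] = true := by
  decide +kernel

theorem k_h2a : chkT (l2 (oR cN) (gL (var 2)) 50 ++ lW 13 (-105) 14) 40
    0x998283832993988028280838321988120988000
    [V.of 10000 100 1300, V.of 10000 (-1693) 1693,
      V.of 10000 2470 3600, V.of 10000 (-1140) (-150)] = true := by
  decide +kernel

theorem k_h2c : chkT (l2 (oR cN) (q 3 100) 50 ++ lW 13 (-100) 28) 40
    0x8818a380180888000
    [V.of 10000 100 1300, V.of 10000 (-1693) 1693,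
      V.of 10000 2470 2750, V.of 10000 (-1040) 50] = true := by
  decide +kernel

theorem k_h2d : chkT (l2 (oR cN) (gD (var 2)) 50 ++ lW 13 (-100) 28) 40
    0x99881280299881283802190881803888000
    [V.of 10000 100 1300, V.of 10000 (-1693) 1693,
      V.of 10000 2750 3600, V.of 10000 (-1040) 50] = true := by
  decide +kernel

theorem k_h3 : chkT (l3 (oR cN) 50) 40
    0x8808088808022882882882000
    [V.of 10000 100 1300, V.of 10000 (-1693) 1693,
      V.of 10000 3600 8000, V.of 10000 (-1140) 50] = true := by
  decide +kernel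

theorem k_gn : chkT (lN 12 (-105) 28) 40
    0x880
    [V.of 10000 100 1200, V.of 10000 (-2334) (-416),
      V.of 10000 500 2000, V.of 10000 (-1140) 50] = true := by
  decide +kernel

theorem k_g1 : chkT (l1 (oP cN) 100 ++ lW 12 (-105) 28) 40
    0xb8080aa0a3aa02aa3aaa1322288800aa0a3aa02aa3aa32220
    [V.of 10000 100 1200, V.of 10000 (-2334) (-416),
      V.of 10000 500 2470, V.of 10000 (-1140) 50] = true := by
  decide +kernel

theorem k_g2a : chkT (l2 (oR cN) (gL (var 2)) 100 ++ lW 12 (-105) 14) 40
    0x9909880282808329820888000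
    [V.of 10000 100 1200, V.of 10000 (-2334) (-416),
      V.of 10000 2470 3600, V.of 10000 (-1140) (-150)] = true := by
  decide +kernel

theorem k_g2c : chkT (l2 (oR cN) (q 3 100) 100 ++ lW 12 (-100) 28) 40
    0x8a38080888000
    [V.of 10000 100 1200, V.of 10000 (-2334) (-416),
      V.of 10000 2470 2750, V.of 10000 (-1040) 50] = true := by
  decide +kernel

theorem k_g2d : chkT (l2 (oR cN) (gD (var 2)) 100 ++ lW 12 (-100) 28) 40
    0x9988128083290888000
    [V.of 10000 100 1200, V.of 10000 (-2334) (-416),
      V.of 10000 2750 3600, V.of 10000 (-1040) 50] = true := by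
  decide +kernel

theorem k_g3 : chkT (l3 (oR cN) 100) 40
    0x888228820882882882000
    [V.of 10000 100 1200, V.of 10000 (-2334) (-416),
      V.of 10000 3600 8000, V.of 10000 (-1140) 50] = true := by
  decide +kernel

theorem k_zn : chkT (lN 12 (-105) 28) 40
    0x883818080b8b3181818080b33888331
    [V.of 10000 100 1200, V.of 10000 (-84) 4750,
      V.of 10000 500 2000, V.of 10000 (-1140) 50] = true := by
  decide +kernel

theorem k_z1 : chkT (l1 (oP cN) 150 ++ lW 12 (-105) 28) 40
    0xbb8008818881183228888812220b808088180aaa32288032188881228882812188800880aa228803200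
    [V.of 10000 100 1200, V.of 10000 (-84) 4750,
      V.of 10000 500 2470, V.of 10000 (-1140) 50] = true := by
  decide +kernel

theorem k_z2a : chkT (l2 (oR cN) (gL (var 2)) 150 ++ lW 12 (-105) 14) 40
    0x991908881198298382118910298089000
    [V.of 10000 100 1200, V.of 10000 (-84) 4750,
      V.of 10000 2470 3600, V.of 10000 (-1140) (-150)] = true := by
  decide +kernel

theorem k_z2c : chkT (l2 (oR cN) (q 3 100) 150 ++ lW 12 (-100) 28) 40
    0x881881801881088088000
    [V.of 10000 100 1200, V.of 10000 (-84) 4750,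
      V.of 10000 2470 2750, V.of 10000 (-1040) 50] = true := by
  decide +kernel

theorem k_z2d : chkT (l2 (oR cN) (gD (var 2)) 150 ++ lW 12 (-100) 28) 40
    0x99190999808311881389102989000
    [V.of 10000 100 1200, V.of 10000 (-84) 4750,
      V.of 10000 2750 3600, V.of 10000 (-1040) 50] = true := by
  decide +kernel

theorem k_z3 : chkT (l3 (oR cN) 150) 40
    0x8808182888122880828812088082880288288082000
    [V.of 10000 100 1200, V.of 10000 (-84) 4750,
      V.of 10000 3600 8000, V.of 10000 (-1140) 50] = true := by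
  decide +kernel

end S0

end VL

end Pool.Agent.Work.MP_b30479_gt.G2
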