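import Pool.Agent.Work.MP_b30479_gt.G2.V30H
import Pool.Agent.Work.MP_b30479_gt.G2.WMid

/-!
# Side of the slot-0 hinge of an inner digit `3`, left ramp: values
-/

namespace Pool.Agent.Work.MP_b30479_gt.G2

open VOL NumU

namespace VL

namespace S0

open NumI (V)
open NumU.E (q var)

variable {r t w σ S x m p c φ h : ℝ}

/-! ### the functions -/

theorem lnA_ray {x x0 m : ℝ} (h0 : 0 < x) (h1 : x ≤ x0) (h2 : x0 ≤ 1 / 2) :
    NumI.lnA x (m * x) ≤ NumI.lnA x0 (m * x0) := by
  have hp := Real.pi_pos
  unfold NumI.lnA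
  have s0 : 0 < Real.sin (Real.pi * x) :=
    Real.sin_pos_of_pos_of_lt_pi (by positivity) (by nlinarith only [hp, h1, h2])
  have s1 : Real.sin (Real.pi * x) ≤ Real.sin (Real.pi * x0) := by
    apply Real.sin_le_sin_of_le_of_le_pi_div_two <;> nlinarith only [hp, h0, h2, h1]
  have s2 : |Real.sinh (Real.pi * (m * x))| ≤ |Real.sinh (Real.pi * (m * x0))| := by
    rw [Real.abs_sinh, Real.abs_sinh]
    apply Real.sinh_le_sinh.2
    rw [abs_mul, abs_mul, abs_mul, abs_mul, abs_of_pos h0, abs_of_pos (h0.trans_le h1),
      abs_of_pos hp]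
    gcongr
  have s3 := sq_le_sq.2 s2
  apply div_le_div_of_nonneg_right _ (by norm_num)
  apply Real.log_le_log (by positivity)
  nlinarith only [s3, s0, s1]

theorem lnB_ray (h0 : 0 < x) (h1 : x ≤ 1 / 2) : 0 ≤ m * NumI.lnB x (m * x) := by
  have hp := Real.pi_pos
  unfold NumI.lnB
  have s0 : 0 < Real.sin (Real.pi * x) :=
    Real.sin_pos_of_pos_of_lt_pi (by positivity) (by nlinarith only [hp, h1])
  have s1 : 0 ≤ Real.cos (Real.pi * x) := by
    apply Real.cos_nonneg_of_neg_pi_div_two_le_of_le <;> nlinarith only [hp, h0, h1]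
  have s2 := Real.cosh_pos (Real.pi * (m * x))
  rcases le_total 0 m with hm | hm
  · apply mul_nonneg hm
    apply Real.arctan_nonneg.2
    have : 0 ≤ Real.sinh (Real.pi * (m * x)) := Real.sinh_nonneg_iff.2 (by positivity)
    positivity
  · apply mul_nonneg_of_nonpos_of_nonpos hm
    apply Real.arctan_le_zero.2
    have : Real.sinh (Real.pi * (m * x)) ≤ 0 := Real.sinh_nonpos_iff.2 (by
      have : m * x ≤ 0 := mul_nonpos_of_nonpos_of_nonneg hm h0.le
      nlinarith only [h0, h1, hp, this])
    apply div_nonpos_of_nonpos_of_nonneg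
    · exact mul_nonpos_of_nonneg_of_nonpos s1 this
    · positivity

theorem cs_le (h0 : 0 < x) (h1 : x ≤ 1 / 100) : cs x m p r t c ≤ co x m p r t c := by
  have a1 := lnA_ray (m := m) h0 h1 (by norm_num)
  have a2 := lnB_ray (m := m) h0 (by linarith only [h0, h1])
  unfold cs co
  push_cast
  linarith only [a1, a2]

theorem S3_co {u v : ℂ} (hu : u.im = m * u.re) (h0 : 0 < u.re) (h1 : u.re < v.re)
    (h2 : v.re < 1) (c : ℝ) : S3 1 m u v + c * m =
      co u.re m (v.re - u.re) v.re v.im c + NumI.lnA (v.re - u.re) (v.im - m * u.re) := by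
  have a1 : LL u = NumI.lnA u.re (m * u.re) := by
    rw [Num.LL_lnA (u := u) ⟨h0, by linarith only [h1, h2]⟩, hu]
  have a2 : YY u = -NumI.lnB u.re (m * u.re) := by
    rw [Num.YY_lnB (u := u) ⟨h0, by linarith only [h1, h2]⟩, hu]
  have a3 : LL (v - u) = NumI.lnA (v.re - u.re) (v.im - m * u.re) := by
    rw [Num.LL_lnA (u := v - u) ⟨by simp; linarith only [h1], by simp; linarith only [h0, h2]⟩, Complex.sub_re,
      Complex.sub_im, hu]
  have a4 : YY (v - u) = -NumI.lnB (v.re - u.re) (v.im - m * u.re) := by
    rw [Num.YY_lnB (u := v - u) ⟨by simp; linarith only [h1], by simp; linarith only [h0, h2]⟩, Complex.sub_re,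
      Complex.sub_im, hu]
  unfold S3 co
  rw [a1, a2, a3, a4]
  ring

/-- `LL` near the singularity -/
theorem LL_near {a : ℂ} (ha : SinNe a) (h : |a.re| ≤ 8 / 100) :
    LL a ≤ NumI.lnA (8 / 100) a.im := by
  have hp := Real.pi_pos
  obtain ⟨b1, b2⟩ := abs_le.1 h
  have e : NumI.lnA (8 / 100) a.im = LL ⟨8 / 100, a.im⟩ :=
    (Num.LL_lnA (u := ⟨8 / 100, a.im⟩) ⟨by norm_num, by norm_num⟩).symm
  rw [e, LL_eq, LL_eq]
  apply Real.log_le_log
  · rw [norm_pos_iff]
    exact mul_ne_zero two_ne_zero ha
  · rw [norm_mul, norm_mul]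
    apply mul_le_mul_of_nonneg_left _ (norm_nonneg _)
    have key : ∀ z : ℂ, ‖Complex.sin z‖ ^ 2 = Real.sin z.re ^ 2 + Real.sinh z.im ^ 2 := by
      intro z
      rw [← Complex.normSq_eq_norm_sq, Complex.sin_eq, Complex.normSq_apply]
      simp only [← Complex.ofReal_sin, ← Complex.ofReal_cos, ← Complex.ofReal_sinh,
        ← Complex.ofReal_cosh, Complex.add_re, Complex.add_im, Complex.mul_re, Complex.mul_im,
        Complex.ofReal_re, Complex.ofReal_im, Complex.I_re, Complex.I_im]
      have h1 := Real.cosh_sq z.im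
      have h2 := Real.sin_sq_add_cos_sq z.re
      nlinarith only [h1, h2]
    have h1 : Real.sin (Real.pi * a.re) ^ 2 ≤ Real.sin (Real.pi * (8 / 100)) ^ 2 := by
      have h3 : |Real.sin (Real.pi * a.re)| ≤ Real.sin (Real.pi * (8 / 100)) := by
        rw [abs_le]
        constructor
        · rw [← Real.sin_neg]
          apply Real.sin_le_sin_of_le_of_le_pi_div_two <;> nlinarith only [hp, b2, b1]
        · apply Real.sin_le_sin_of_le_of_le_pi_div_two <;> nlinarith only [hp, b1, b2]
      exact sq_le_sq' (by linarith only [h3, (abs_le.1 h3).1]) (abs_le.1 h3).2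
    have h2 := key (Real.pi * a)
    have h3 := key (Real.pi * (⟨8 / 100, a.im⟩ : ℂ))
    simp only [Complex.mul_re, Complex.mul_im, Complex.ofReal_re, Complex.ofReal_im, zero_mul,
      sub_zero, add_zero] at h2 h3
    exact le_of_sq_le_sq (by rw [h2, h3]; linarith only [h1]) (norm_nonneg _)

/-! ### the gain of the hinge in slot 2 -/

theorem ff_one_lo {w : ℂ} (hw : RH w S (65 / 100) (15 / 100) (29 / 100)) (hc : w.re ≤ 39 / 100)
    (hS : -(1145 / 10000) ≤ S) (hS' : S ≤ -(21 / 1000)) (ht : -(123 / 1000) ≤ t)
    (ht' : t ≤ -(15 / 1000)) (hr : 5 / 100 ≤ r) (hr' : r ≤ 247 / 1000) :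
    0 < ff r t w.re w.im + (9 / 100 - 3 / 10 * r) := by
  have h0 := hw.re0
  rcases le_total w.re (15 / 100) with h4 | h4
  · have e : w.im = S / (15 / 100) * w.re := by
      rw [hw.im, tr_a (by norm_num) (by norm_num) (by norm_num) h0 h4]
      ring
    have hp := pos_of_chk (chkT4 k_F1r (by norm_num) (x := r) (y := t) (z := w.re)
      (w := S / (15 / 100)) (by push_cast; linarith only [hr]) (by push_cast; linarith only [hr'])
      (by push_cast; linarith only [ht]) (by push_cast; linarith only [ht']) (by push_cast; linarith only [h0])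
      (by push_cast; linarith only [h4]) (by push_cast; linarith only [hS]) (by push_cast; linarith only [hS']))
    simp only [gA, E.val, eF_val, NumI.lkR] at hp
    rw [← e] at hp
    push_cast at hp
    exact hp
  · rcases le_total w.re (36 / 100) with h5 | h5
    · have e : w.im = S := by
        rw [hw.im, tr_b (by norm_num) (by norm_num) h4 (by linarith only [h5]), mul_one]
      have hp := pos_of_chk (chkT4 k_F1f (by norm_num) (x := r) (y := t) (z := w.re)
        (w := S) (by push_cast; linarith only [hr]) (by push_cast; linarith only [hr'])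
        (by push_cast; linarith only [ht]) (by push_cast; linarith only [ht']) (by push_cast; linarith only [h4])
        (by push_cast; linarith only [h5]) (by push_cast; linarith only [hS]) (by push_cast; linarith only [hS']))
      simp only [gA, E.val, eF_val, NumI.lkR] at hp
      rw [← e] at hp
      push_cast at hp
      exact hp
    · have e : w.im = S * (100 / 29 * (65 / 100 - w.re)) := by
        rw [hw.im, tr_c (by norm_num) (by norm_num) (by norm_num) (by linarith only [h5]) hw.reM]
        ring
      have hp := pos_of_chk (chkT4 k_F1g (by norm_num) (x := r) (y := t) (z := w.re)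
        (w := S) (by push_cast; linarith only [hr]) (by push_cast; linarith only [hr'])
        (by push_cast; linarith only [ht]) (by push_cast; linarith only [ht']) (by push_cast; linarith only [h5])
        (by push_cast; linarith only [hc]) (by push_cast; linarith only [hS]) (by push_cast; linarith only [hS']))
      simp only [gA, E.val, eF_val, NumI.lkR] at hp
      push_cast at hp
      rw [← e] at hp
      exact hp

theorem ff_one_hi {w : ℂ} (hw : RH w S (65 / 100) (15 / 100) (29 / 100)) (hc : w.re ≤ 39 / 100)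
    (hS : -(1145 / 10000) ≤ S) (hS' : S ≤ -(21 / 1000)) (ht : -(123 / 1000) ≤ t)
    (ht' : t ≤ -(15 / 1000)) (hr : 247 / 1000 ≤ r) (hr' : r ≤ 36 / 100) :
    0 < ff r t w.re w.im + 1 / 100 ∨ 0 < ff r t w.re w.im - fc r t + 1 / 100 := by
  have h0 := hw.re0
  rcases le_total w.re (15 / 100) with h4 | h4
  · have e : w.im = S / (15 / 100) * w.re := by
      rw [hw.im, tr_a (by norm_num) (by norm_num) (by norm_num) h0 h4]
      ring
    obtain ⟨f, hf, hp⟩ := chkT4 k_F2r (by norm_num) (x := r) (y := t) (z := w.re)
      (w := S / (15 / 100)) (by push_cast; linarith only [hr]) (by push_cast; linarith only [hr'])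
      (by push_cast; linarith only [ht]) (by push_cast; linarith only [ht']) (by push_cast; linarith only [h0])
      (by push_cast; linarith only [h4]) (by push_cast; linarith only [hS]) (by push_cast; linarith only [hS'])
    simp only [List.mem_cons, List.not_mem_nil, or_false] at hf
    rcases hf with rfl | rfl
    · simp only [E.val, eF_val, NumI.lkR] at hp
      rw [← e] at hp
      push_cast at hp
      exact Or.inl hp
    · simp only [E.val, eF_val, eC_val, NumI.lkR] at hp
      rw [← e] at hp
      push_cast at hp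
      exact Or.inr hp
  · rcases le_total w.re (36 / 100) with h5 | h5
    · have e : w.im = S := by
        rw [hw.im, tr_b (by norm_num) (by norm_num) h4 (by linarith only [h5]), mul_one]
      obtain ⟨f, hf, hp⟩ := chkT4 k_F2f (by norm_num) (x := r) (y := t) (z := w.re)
        (w := S) (by push_cast; linarith only [hr]) (by push_cast; linarith only [hr'])
        (by push_cast; linarith only [ht]) (by push_cast; linarith only [ht']) (by push_cast; linarith only [h4])
        (by push_cast; linarith only [h5]) (by push_cast; linarith only [hS]) (by push_cast; linarith only [hS'])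
      simp only [List.mem_cons, List.not_mem_nil, or_false] at hf
      rcases hf with rfl | rfl
      · simp only [E.val, eF_val, NumI.lkR] at hp
        rw [← e] at hp
        push_cast at hp
        exact Or.inl hp
      · simp only [E.val, eF_val, eC_val, NumI.lkR] at hp
        rw [← e] at hp
        push_cast at hp
        exact Or.inr hp
    · have e : w.im = S * (100 / 29 * (65 / 100 - w.re)) := by
        rw [hw.im, tr_c (by norm_num) (by norm_num) (by norm_num) (by linarith only [h5]) hw.reM]
        ring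
      obtain ⟨f, hf, hp⟩ := chkT4 k_F2g (by norm_num) (x := r) (y := t) (z := w.re)
        (w := S) (by push_cast; linarith only [hr]) (by push_cast; linarith only [hr'])
        (by push_cast; linarith only [ht]) (by push_cast; linarith only [ht']) (by push_cast; linarith only [h5])
        (by push_cast; linarith only [hc]) (by push_cast; linarith only [hS]) (by push_cast; linarith only [hS'])
      simp only [List.mem_cons, List.not_mem_nil, or_false] at hf
      rcases hf with rfl | rfl
      · simp only [E.val, eF_val, NumI.lkR] at hp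
        push_cast at hp
        rw [← e] at hp
        exact Or.inl hp
      · simp only [E.val, eF_val, eC_val, NumI.lkR] at hp
        push_cast at hp
        rw [← e] at hp
        exact Or.inr hp

/-- parts of the path of the hinge in slot 2, no neighbour `1` -/
theorem RH_lo {w : ℂ} (hw : RH w S (60 / 100) (13 / 100) (30 / 100)) (hc : w.re ≤ 31 / 100)
    {a c : ℝ} (ha : a ≤ S) (hc' : S ≤ c) (h : a ≤ 0) (h' : 0 ≤ c ∨ S ≤ -(76 / 1000) ∧
      -(734 / 10000) ≤ c) :
    (w.im = S / (13 / 100) * w.re ∧ 0 ≤ w.re ∧ w.re ≤ 13 / 100) ∨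
      (13 / 100 ≤ w.re ∧ a ≤ w.im ∧ w.im ≤ c) := by
  have h0 := hw.re0
  rcases le_total w.re (13 / 100) with h4 | h4
  · left
    refine ⟨?_, h0, h4⟩
    rw [hw.im, tr_a (by norm_num) (by norm_num) (by norm_num) h0 h4]
    ring
  · right
    refine ⟨h4, ?_⟩
    rcases le_total w.re (30 / 100) with h5 | h5
    · rw [hw.im, tr_b (by norm_num) (by norm_num) h4 (by linarith only [h5]), mul_one]
      exact ⟨ha, hc'⟩
    · rw [hw.im, tr_c (by norm_num) (by norm_num) (by norm_num) (by linarith only [h5]) hw.reM]
      have k1 : 29 / 30 ≤ (60 / 100 - w.re) / (30 / 100) := by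
        rw [le_div_iff₀ (by norm_num)]
        linarith only [hc]
      have k2 : (60 / 100 - w.re) / (30 / 100) ≤ 1 := by
        rw [div_le_one (by norm_num)]
        linarith only [h5]
      set k := (60 / 100 - w.re) / (30 / 100)
      constructor
      · nlinarith only [ha, k1, h, k2]
      · rcases h' with h' | ⟨h', h''⟩
        · nlinarith only [hc', k1, k2, h']
        · nlinarith only [k1, h', h'']

theorem ff_oth_lo {w : ℂ} (hw : RH w S (60 / 100) (13 / 100) (30 / 100)) (hc : w.re ≤ 31 / 100)
    (hS : -(98 / 1000) ≤ S) (hS' : S ≤ 57 / 1000) (ht : -(116 / 1000) ≤ t)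
    (ht' : t ≤ 5 / 1000) (hr : 5 / 100 ≤ r) (hr' : r ≤ 247 / 1000) :
    0 < ff r t w.re w.im + (9 / 100 - 3 / 10 * r) := by
  rcases RH_lo hw hc hS hS' (by norm_num) (Or.inl (by norm_num)) with ⟨e, h1, h2⟩ | ⟨h1, h2, h3⟩
  · have hp := pos_of_chk (chkT4 k_F3r (by norm_num) (x := r) (y := t) (z := w.re)
      (w := S / (13 / 100)) (by push_cast; linarith only [hr]) (by push_cast; linarith only [hr'])
      (by push_cast; linarith only [ht]) (by push_cast; linarith only [ht']) (by push_cast; linarith only [h1])
      (by push_cast; linarith only [h2]) (by push_cast; linarith only [hS]) (by push_cast; linarith only [hS']))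
    simp only [gA, E.val, eF_val, NumI.lkR] at hp
    rw [← e] at hp
    push_cast at hp
    exact hp
  · have hp := pos_of_chk (chkT4 k_F3f (by norm_num) (x := r) (y := t) (z := w.re)
      (w := w.im) (by push_cast; linarith only [hr]) (by push_cast; linarith only [hr'])
      (by push_cast; linarith only [ht]) (by push_cast; linarith only [ht']) (by push_cast; linarith only [h1])
      (by push_cast; linarith only [hc]) (by push_cast; linarith only [h2]) (by push_cast; linarith only [h3]))
    simp only [gA, E.val, eF_val, NumI.lkR] at hp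
    push_cast at hp
    exact hp

theorem ff_oth_mid {w : ℂ} (hw : RH w S (60 / 100) (13 / 100) (30 / 100)) (hc : w.re ≤ 31 / 100)
    (hO : (-(57 / 1000) ≤ S ∧ S ≤ 57 / 1000 ∧ -(116 / 1000) ≤ t ∧ t ≤ 5 / 1000) ∨
      (-(98 / 1000) ≤ S ∧ S ≤ -(76 / 1000) ∧ -(95 / 1000) ≤ t ∧ t ≤ -(5 / 1000)))
    (hr : 247 / 1000 ≤ r) (hr' : r ≤ 275 / 1000) :
    0 < ff r t w.re w.im + 3 / 100 := by
  rcases hO with ⟨o1, o2, o3, o4⟩ | ⟨o1, o2, o3, o4⟩
  · rcases RH_lo hw hc o1 o2 (by norm_num) (Or.inl (by norm_num)) with ⟨e, h1, h2⟩ | ⟨h1, h2, h3⟩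
    · have hp := pos_of_chk (chkT4 k_F4ro (by norm_num) (x := r) (y := t) (z := w.re)
        (w := S / (13 / 100)) (by push_cast; linarith only [hr]) (by push_cast; linarith only [hr'])
        (by push_cast; linarith only [o3]) (by push_cast; linarith only [o4]) (by push_cast; linarith only [h1])
        (by push_cast; linarith only [h2]) (by push_cast; linarith only [o1]) (by push_cast; linarith only [o2]))
      simp only [E.val, eF_val, NumI.lkR] at hp
      rw [← e] at hp
      push_cast at hp
      exact hp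
    · have hp := pos_of_chk (chkT4 k_F4fo (by norm_num) (x := r) (y := t) (z := w.re)
        (w := w.im) (by push_cast; linarith only [hr]) (by push_cast; linarith only [hr'])
        (by push_cast; linarith only [o3]) (by push_cast; linarith only [o4]) (by push_cast; linarith only [h1])
        (by push_cast; linarith only [hc]) (by push_cast; linarith only [h2]) (by push_cast; linarith only [h3]))
      simp only [E.val, eF_val, NumI.lkR] at hp
      push_cast at hp
      exact hp
  · rcases RH_lo hw hc (c := -(73 / 1000)) o1 (by linarith only [o2]) (by norm_num)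
      (Or.inr ⟨o2, by norm_num⟩) with ⟨e, h1, h2⟩ | ⟨h1, h2, h3⟩
    · have hp := pos_of_chk (chkT4 k_F4re (by norm_num) (x := r) (y := t) (z := w.re)
        (w := S / (13 / 100)) (by push_cast; linarith only [hr]) (by push_cast; linarith only [hr'])
        (by push_cast; linarith only [o3]) (by push_cast; linarith only [o4]) (by push_cast; linarith only [h1])
        (by push_cast; linarith only [h2]) (by push_cast; linarith only [o1]) (by push_cast; linarith only [o2]))
      simp only [E.val, eF_val, NumI.lkR] at hp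
      rw [← e] at hp
      push_cast at hp
      exact hp
    · have hp := pos_of_chk (chkT4 k_F4fe (by norm_num) (x := r) (y := t) (z := w.re)
        (w := w.im) (by push_cast; linarith only [hr]) (by push_cast; linarith only [hr'])
        (by push_cast; linarith only [o3]) (by push_cast; linarith only [o4]) (by push_cast; linarith only [h1])
        (by push_cast; linarith only [hc]) (by push_cast; linarith only [h2]) (by push_cast; linarith only [h3]))
      simp only [E.val, eF_val, NumI.lkR] at hp
      push_cast at hp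
      exact hp

theorem ff_oth_hi {w : ℂ} (hw : RH w S (60 / 100) (13 / 100) (30 / 100)) (hc : w.re ≤ 31 / 100)
    (hO : (-(57 / 1000) ≤ S ∧ S ≤ 57 / 1000 ∧ -(116 / 1000) ≤ t ∧ t ≤ 5 / 1000) ∨
      (-(98 / 1000) ≤ S ∧ S ≤ -(76 / 1000) ∧ -(95 / 1000) ≤ t ∧ t ≤ -(5 / 1000)))
    (hr : 275 / 1000 ≤ r) (hr' : r ≤ 36 / 100) :
    0 < ff r t w.re w.im + (3 / 100 + 33 / 10 * (r - 275 / 1000)) := by
  rcases hO with ⟨o1, o2, o3, o4⟩ | ⟨o1, o2, o3, o4⟩
  · rcases RH_lo hw hc o1 o2 (by norm_num) (Or.inl (by norm_num)) with ⟨e, h1, h2⟩ | ⟨h1, h2, h3⟩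
    · have hp := pos_of_chk (chkT4 k_F5ro (by norm_num) (x := r) (y := t) (z := w.re)
        (w := S / (13 / 100)) (by push_cast; linarith only [hr]) (by push_cast; linarith only [hr'])
        (by push_cast; linarith only [o3]) (by push_cast; linarith only [o4]) (by push_cast; linarith only [h1])
        (by push_cast; linarith only [h2]) (by push_cast; linarith only [o1]) (by push_cast; linarith only [o2]))
      simp only [gD, E.val, eF_val, NumI.lkR] at hp
      rw [← e] at hp
      push_cast at hp
      exact hp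
    · have hp := pos_of_chk (chkT4 k_F5fo (by norm_num) (x := r) (y := t) (z := w.re)
        (w := w.im) (by push_cast; linarith only [hr]) (by push_cast; linarith only [hr'])
        (by push_cast; linarith only [o3]) (by push_cast; linarith only [o4]) (by push_cast; linarith only [h1])
        (by push_cast; linarith only [hc]) (by push_cast; linarith only [h2]) (by push_cast; linarith only [h3]))
      simp only [gD, E.val, eF_val, NumI.lkR] at hp
      push_cast at hp
      exact hp
  · rcases RH_lo hw hc (c := -(73 / 1000)) o1 (by linarith only [o2]) (by norm_num)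
      (Or.inr ⟨o2, by norm_num⟩) with ⟨e, h1, h2⟩ | ⟨h1, h2, h3⟩
    · have hp := pos_of_chk (chkT4 k_F5re (by norm_num) (x := r) (y := t) (z := w.re)
        (w := S / (13 / 100)) (by push_cast; linarith only [hr]) (by push_cast; linarith only [hr'])
        (by push_cast; linarith only [o3]) (by push_cast; linarith only [o4]) (by push_cast; linarith only [h1])
        (by push_cast; linarith only [h2]) (by push_cast; linarith only [o1]) (by push_cast; linarith only [o2]))
      simp only [gD, E.val, eF_val, NumI.lkR] at hp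
      rw [← e] at hp
      push_cast at hp
      exact hp
    · have hp := pos_of_chk (chkT4 k_F5fe (by norm_num) (x := r) (y := t) (z := w.re)
        (w := w.im) (by push_cast; linarith only [hr]) (by push_cast; linarith only [hr'])
        (by push_cast; linarith only [o3]) (by push_cast; linarith only [o4]) (by push_cast; linarith only [h1])
        (by push_cast; linarith only [hc]) (by push_cast; linarith only [h2]) (by push_cast; linarith only [h3]))
      simp only [gD, E.val, eF_val, NumI.lkR] at hp
      push_cast at hp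
      exact hp

/-! next to a digit `3` the cap `39/100` is sufficient -/

theorem im_far {w : ℂ} (hw : RH w S (60 / 100) (13 / 100) (30 / 100)) (h1 : 31 / 100 ≤ w.re) :
    w.im = S * (100 / 30 * (60 / 100 - w.re)) := by
  rw [hw.im, tr_c (by norm_num) (by norm_num) (by norm_num) (by linarith only [h1]) hw.reM]
  ring

theorem im_far' {w : ℂ} (hw : RH w S (60 / 100) (13 / 100) (30 / 100)) (h1 : 31 / 100 ≤ w.re)
    (hS : -(22 / 1000) ≤ S) (hS' : S ≤ 22 / 1000) : -(22 / 1000) ≤ w.im ∧ w.im ≤ 22 / 1000 := by
  rw [im_far hw h1]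
  have h2 := hw.reM
  have k1 : 0 ≤ 100 / 30 * (60 / 100 - w.re) := by linarith only [h2]
  have k2 : 100 / 30 * (60 / 100 - w.re) ≤ 1 := by linarith only [h1]
  set k := 100 / 30 * (60 / 100 - w.re)
  constructor <;> nlinarith only [k2, hS, k1, hS']

theorem ff_far_lo {w : ℂ} (hw : RH w S (60 / 100) (13 / 100) (30 / 100)) (h1 : 31 / 100 ≤ w.re)
    (hc : w.re ≤ 39 / 100) (hS : -(22 / 1000) ≤ S) (hS' : S ≤ 22 / 1000)
    (ht : -(116 / 1000) ≤ t) (ht' : t ≤ 5 / 1000) (hr : 5 / 100 ≤ r) (hr' : r ≤ 247 / 1000) :
    0 < ff r t w.re w.im + (9 / 100 - 3 / 10 * r) := by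
  obtain ⟨h2, h3⟩ := im_far' hw h1 hS hS'
  have hp := pos_of_chk (chkT4 k_F3h (by norm_num) (x := r) (y := t) (z := w.re)
    (w := w.im) (by push_cast; linarith only [hr]) (by push_cast; linarith only [hr'])
    (by push_cast; linarith only [ht]) (by push_cast; linarith only [ht']) (by push_cast; linarith only [h1])
    (by push_cast; linarith only [hc]) (by push_cast; linarith only [h2]) (by push_cast; linarith only [h3]))
  simp only [gA, E.val, eF_val, NumI.lkR] at hp
  push_cast at hp
  exact hp

theorem ff_far_mid {w : ℂ} (hw : RH w S (60 / 100) (13 / 100) (30 / 100)) (h1 : 31 / 100 ≤ w.re)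
    (hc : w.re ≤ 39 / 100) (hS : -(22 / 1000) ≤ S) (hS' : S ≤ 22 / 1000)
    (ht : -(116 / 1000) ≤ t) (ht' : t ≤ 5 / 1000) (hr : 247 / 1000 ≤ r) (hr' : r ≤ 275 / 1000) :
    0 < ff r t w.re w.im + 3 / 100 := by
  obtain ⟨h2, h3⟩ := im_far' hw h1 hS hS'
  have hp := pos_of_chk (chkT4 k_F4h (by norm_num) (x := r) (y := t) (z := w.re)
    (w := w.im) (by push_cast; linarith only [hr]) (by push_cast; linarith only [hr'])
    (by push_cast; linarith only [ht]) (by push_cast; linarith only [ht']) (by push_cast; linarith only [h1])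
    (by push_cast; linarith only [hc]) (by push_cast; linarith only [h2]) (by push_cast; linarith only [h3]))
  simp only [E.val, eF_val, NumI.lkR] at hp
  push_cast at hp
  exact hp

theorem ff_far_hi {w : ℂ} (hw : RH w S (60 / 100) (13 / 100) (30 / 100)) (h1 : 31 / 100 ≤ w.re)
    (hc : w.re ≤ 39 / 100) (hS : -(22 / 1000) ≤ S) (hS' : S ≤ 22 / 1000)
    (ht : -(116 / 1000) ≤ t) (ht' : t ≤ 5 / 1000) (hr : 275 / 1000 ≤ r) (hr' : r ≤ 36 / 100) :
    0 < ff r t w.re w.im + (3 / 100 + 33 / 10 * (r - 275 / 1000)) := by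
  have e := im_far hw h1
  have hp := pos_of_chk (chkT4 k_F5h (by norm_num) (x := r) (y := t) (z := w.re)
    (w := S) (by push_cast; linarith only [hr]) (by push_cast; linarith only [hr'])
    (by push_cast; linarith only [ht]) (by push_cast; linarith only [ht']) (by push_cast; linarith only [h1])
    (by push_cast; linarith only [hc]) (by push_cast; linarith only [hS]) (by push_cast; linarith only [hS']))
  simp only [gD, E.val, eF_val, NumI.lkR] at hp
  push_cast at hp
  rw [← e] at hp
  exact hp

theorem fc_le (hr : 247 / 1000 ≤ r) (hr' : r ≤ 36 / 100) (ht : -(123 / 1000) ≤ t)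
    (ht' : t ≤ -(15 / 1000)) : 1 / 100 - fc r t ≤ 1 / 100 + 44 / 10 * (r - 247 / 1000) := by
  have hp := pos_of_chk (chkT2 k_F6 (by norm_num) (x := r) (y := t)
    (by push_cast; linarith only [hr]) (by push_cast; linarith only [hr'])
    (by push_cast; linarith only [ht]) (by push_cast; linarith only [ht']))
  simp only [gL, E.val, eC_val, NumI.lkR] at hp
  push_cast at hp
  linarith only [hp]

/-! ### the first-order condition of the inner variable -/

/-- consequences of the first-order condition, neighbour `1` in slot 2 -/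
structure Fa (u v : ℂ) : Prop where
  a : v.re ≤ 247 / 1000 → -(Real.pi * (u.im + v.im)) - LL (v - u) ≤ 9 / 100 - 3 / 10 * v.re
  b : 247 / 1000 ≤ v.re → v.re ≤ 36 / 100 → -(Real.pi * (u.im + v.im)) - LL (v - u) ≤ 1 / 100 ∨
    -(Real.pi * (u.im + v.im)) - LL (v - u) ≤ 1 / 100 - fc v.re v.im

/-- consequences of the first-order condition, no neighbour `1` in slot 2 -/
structure Fb (u v : ℂ) : Prop where
  a : v.re ≤ 247 / 1000 → -(Real.pi * (u.im + v.im)) - LL (v - u) ≤ 9 / 100 - 3 / 10 * v.re
  b : 247 / 1000 ≤ v.re → v.re ≤ 275 / 1000 → -(Real.pi * (u.im + v.im)) - LL (v - u) ≤ 3 / 100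
  c : 275 / 1000 ≤ v.re → v.re ≤ 36 / 100 → -(Real.pi * (u.im + v.im)) - LL (v - u) ≤
    3 / 100 + 33 / 10 * (v.re - 275 / 1000)

theorem SM_ff {u v w : ℂ} (h0 : 0 < v.re) (h1 : v.re ≤ 36 / 100) (h2 : 0 ≤ w.re)
    (h3 : w.re ≤ 39 / 100) : SM 0 u v w = ff v.re v.im w.re w.im +
      (-(Real.pi * (u.im + v.im)) - LL (v - u)) := by
  have a1 : LL v = NumI.lnA v.re v.im := Num.LL_lnA (u := v) ⟨h0, by linarith only [h0, h1]⟩
  have a2 : LL (v + w) = NumI.lnA (v.re + w.re) (v.im + w.im) := by
    rw [Num.LL_lnA (u := v + w) ⟨by simp; linarith only [h0, h2], by simp; linarith only [h0, h1, h3]⟩, Complex.add_re,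
      Complex.add_im]
  unfold SM ff
  rw [a1, a2]
  ring

theorem Fa_of {u v w : ℂ} (hw : RH w S (65 / 100) (15 / 100) (29 / 100)) (hc : w.re ≤ 39 / 100)
    (hS : -(1145 / 10000) ≤ S) (hS' : S ≤ -(21 / 1000)) (ht : -(123 / 1000) ≤ v.im)
    (ht' : v.im ≤ -(15 / 1000)) (hr : 5 / 100 ≤ v.re) (hf : v.re < 75 / 100 → SM 0 u v w ≤ 0) :
    Fa u v := by
  constructor
  · intro h1
    have h2 := hf (by linarith only [h1])
    rw [SM_ff (by linarith only [hr]) (by linarith only [h1]) hw.re0 hc] at h2
    have := ff_one_lo hw hc hS hS' ht ht' hr h1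
    linarith only [h2, this]
  · intro h1 h1'
    have h2 := hf (by linarith only [h1'])
    rw [SM_ff (by linarith only [h1]) (by linarith only [h1']) hw.re0 hc] at h2
    rcases ff_one_hi hw hc hS hS' ht ht' h1 h1' with h3 | h3
    · left; linarith only [h2, h3]
    · right; linarith only [h2, h3]

theorem Fb_of {u v w : ℂ} (hw : RH w S (60 / 100) (13 / 100) (30 / 100))
    (hc : w.re ≤ 31 / 100 ∨ w.re ≤ 39 / 100 ∧ -(22 / 1000) ≤ S ∧ S ≤ 22 / 1000)
    (hO : (-(57 / 1000) ≤ S ∧ S ≤ 57 / 1000 ∧ -(116 / 1000) ≤ v.im ∧ v.im ≤ 5 / 1000) ∨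
      (-(98 / 1000) ≤ S ∧ S ≤ -(76 / 1000) ∧ -(95 / 1000) ≤ v.im ∧ v.im ≤ -(5 / 1000)))
    (hr : 5 / 100 ≤ v.re) (hf : v.re < 75 / 100 → SM 0 u v w ≤ 0) :
    Fb u v := by
  have hc9 : w.re ≤ 39 / 100 := by
    rcases hc with hc | hc
    · linarith only [hc]
    · exact hc.1
  have t0 : -(116 / 1000) ≤ v.im := by rcases hO with h | h <;> linarith only [h, h.2.2.1]
  have t1 : v.im ≤ 5 / 1000 := by rcases hO with h | h <;> linarith only [h, h.2.2.2]
  have hc' : w.re ≤ 31 / 100 ∨
      (31 / 100 ≤ w.re ∧ -(22 / 1000) ≤ S ∧ S ≤ 22 / 1000) := by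
    rcases le_total w.re (31 / 100) with h | h
    · exact Or.inl h
    · rcases hc with hc | hc
      · exact Or.inl hc
      · exact Or.inr ⟨h, hc.2⟩
  constructor
  · intro h1
    have h2 := hf (by linarith only [h1])
    rw [SM_ff (by linarith only [hr]) (by linarith only [h1]) hw.re0 hc9] at h2
    have : 0 < ff v.re v.im w.re w.im + (9 / 100 - 3 / 10 * v.re) := by
      rcases hc' with hc' | ⟨c1, c2, c3⟩
      · exact ff_oth_lo (t := v.im) hw hc' (by rcases hO with h | h <;> linarith only [h, h.1])
          (by rcases hO with h | h <;> linarith only [h, h.2.1]) t0 t1 hr h1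
      · exact ff_far_lo hw c1 hc9 c2 c3 t0 t1 hr h1
    linarith only [h2, this]
  · intro h1 h1'
    have h2 := hf (by linarith only [h1'])
    rw [SM_ff (by linarith only [h1]) (by linarith only [h1']) hw.re0 hc9] at h2
    have : 0 < ff v.re v.im w.re w.im + 3 / 100 := by
      rcases hc' with hc' | ⟨c1, c2, c3⟩
      · exact ff_oth_mid hw hc' hO h1 h1'
      · exact ff_far_mid hw c1 hc9 c2 c3 t0 t1 h1 h1'
    linarith only [h2, this]
  · intro h1 h1'
    have h2 := hf (by linarith only [h1'])
    rw [SM_ff (by linarith only [h1]) (by linarith only [h1']) hw.re0 hc9] at h2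
    have : 0 < ff v.re v.im w.re w.im + (3 / 100 + 33 / 10 * (v.re - 275 / 1000)) := by
      rcases hc' with hc' | ⟨c1, c2, c3⟩
      · exact ff_oth_hi hw hc' hO h1 h1'
      · exact ff_far_hi hw c1 hc9 c2 c3 t0 t1 h1 h1'
    linarith only [h2, this]

end S0

end VL

end Pool.Agent.Work.MP_b30479_gt.G2
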