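import Pool.Agent.Work.MP_b30479_gt.G2.V30K

/-!
# Side of the slot-0 hinge of an inner digit `3`, left ramp: rows
-/

namespace Pool.Agent.Work.MP_b30479_gt.G2

open VOL NumU

namespace VL

namespace S0

open NumI (V)
open NumU.E (q var)

variable {r t w σ S x m p c φ h : ℝ}

/-! ### use of the lists -/

/-- windows of the heights -/
structure Wn (cl s0 s1 t0 t1 : ℤ) (m τ : ℝ) : Prop where
  a : (t0 : ℝ) / 10000 ≤ τ
  b : τ ≤ (t1 : ℝ) / 10000
  c : (s0 : ℝ) / 1000 ≤ τ - (cl : ℝ) / 100 * m
  d : τ - (cl : ℝ) / 100 * m ≤ (s1 : ℝ) / 1000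

theorem Wn.win {cl s0 s1 t0 t1 : ℤ} (H : Wn cl s0 s1 t0 t1 m t) :
    ∀ f ∈ lW cl s0 s1, f.val [x, m, r, t] ≤ 0 := by
  intro f hf
  have h1 := H.c
  have h2 := H.d
  simp only [lW, List.mem_cons, List.not_mem_nil, or_false] at hf
  rcases hf with rfl | rfl
  · simp only [w1, E.val, NumI.lkR]
    push_cast
    linarith only [h2]
  · simp only [w0, E.val, NumI.lkR]
    push_cast
    linarith only [h1]

theorem use1 {oE : E} {e : ℤ} {W : List E}
    (h : ∃ f ∈ l1 oE e ++ W, 0 < f.val [x, m, p, t])
    (hW : ∀ f ∈ W, f.val [x, m, p, t] ≤ 0) (hr : x + p ≤ 247 / 1000)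
    (hG : -(Real.pi * (m * x + t)) - NumI.lnA p (t - m * x) ≤ 9 / 100 - 3 / 10 * (x + p)) :
    (e : ℝ) / 1000 < oE.val [x, m, p, t] + NumI.lnA p (t - m * x) := by
  obtain ⟨f, hf, hp⟩ := h
  rw [List.mem_append] at hf
  rcases hf with hf | hf
  · simp only [l1, List.mem_cons, List.not_mem_nil, or_false] at hf
    rcases hf with rfl | rfl | rfl | rfl
    · simp only [f2, eU, gA, E.val, NumI.lkR] at hp
      push_cast at hp
      linarith only [hG, hp]
    · simp only [f1, eV, E.val, NumI.lkR] at hp
      push_cast at hp
      linarith only [hp]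
    · simp only [f3, eU, eV, gA, E.val, NumI.lkR] at hp
      push_cast at hp
      linarith only [hG, hp]
    · simp only [E.val, NumI.lkR] at hp
      push_cast at hp
      linarith only [hr, hp]
  · exact absurd hp (not_lt.2 (hW f hf))

theorem use2 {oE φE : E} {e : ℤ} {W : List E}
    (h : ∃ f ∈ l2 oE φE e ++ W, 0 < f.val [x, m, r, t])
    (hW : ∀ f ∈ W, f.val [x, m, r, t] ≤ 0)
    (hG : -(Real.pi * (m * x + t)) - NumI.lnA (r - x) (t - m * x) ≤ φE.val [x, m, r, t]) :
    (e : ℝ) / 1000 < oE.val [x, m, r, t] + NumI.lnA (r - x) (t - m * x) := by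
  obtain ⟨f, hf, hp⟩ := h
  rw [List.mem_append] at hf
  rcases hf with hf | hf
  · simp only [l2, List.mem_cons, List.not_mem_nil, or_false] at hf
    rcases hf with rfl | rfl | rfl
    · simp only [f2, eU, E.val, NumI.lkR] at hp
      push_cast at hp
      linarith only [hG, hp]
    · simp only [f1, eV, E.val, NumI.lkR] at hp
      push_cast at hp
      linarith only [hp]
    · simp only [f3, eU, eV, E.val, NumI.lkR] at hp
      linarith only [hG, hp]
  · exact absurd hp (not_lt.2 (hW f hf))

theorem use3 {oE : E} {e : ℤ} (h : ∃ f ∈ l3 oE e, 0 < f.val [x, m, r, t]) :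
    (e : ℝ) / 1000 < oE.val [x, m, r, t] + NumI.lnA (r - x) (t - m * x) := by
  obtain ⟨f, hf, hp⟩ := h
  simp only [l3, List.mem_cons, List.not_mem_nil, or_false] at hf
  rcases hf with rfl
  simp only [f1, eV, E.val, NumI.lkR] at hp
  push_cast at hp
  linarith only [hp]

theorem useN {cl s0 s1 t0 t1 : ℤ} (h : ∃ f ∈ lN cl s0 s1, 0 < f.val [x, m, r, t])
    (H : Wn cl s0 s1 t0 t1 m t) (hr : r ≤ x + 8 / 100) :
    9 / 100 - 3 / 10 * r < -(Real.pi * (m * x + t)) - NumI.lnA (8 / 100) (t - m * x) := by
  obtain ⟨f, hf, hp⟩ := h
  have h1 := H.c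
  have h2 := H.d
  simp only [lN, List.mem_cons, List.not_mem_nil, or_false] at hf
  rcases hf with rfl | rfl | rfl | rfl
  · simp only [eU, gA, E.val, NumI.lkR] at hp
    push_cast at hp
    linarith only [hp]
  · simp only [E.val, NumI.lkR] at hp
    push_cast at hp
    linarith only [hr, hp]
  · simp only [w1, E.val, NumI.lkR] at hp
    push_cast at hp
    linarith only [h2, hp]
  · simp only [w0, E.val, NumI.lkR] at hp
    push_cast at hp
    linarith only [h1, hp]

theorem useN' (h : ∃ f ∈ lN', 0 < f.val [x, m, r, t]) (hr : r ≤ x + 8 / 100) :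
    9 / 100 - 3 / 10 * r < -(Real.pi * (m * x + t)) - NumI.lnA (8 / 100) (t - m * x) := by
  obtain ⟨f, hf, hp⟩ := h
  simp only [lN', List.mem_cons, List.not_mem_nil, or_false] at hf
  rcases hf with rfl | rfl
  · simp only [eU, gA, E.val, NumI.lkR] at hp
    push_cast at hp
    linarith only [hp]
  · simp only [E.val, NumI.lkR] at hp
    push_cast at hp
    linarith only [hr, hp]

theorem oR_val (cE : E) : (oR cE).val [x, m, r, t] = co x m (r - x) r t (cE.val [x, m, r, t]) := by
  simp only [oR, eCo_val, E.val, NumI.lkR]

theorem oP_val (cE : E) : (oP cE).val [x, m, p, t] = co x m p (x + p) t (cE.val [x, m, p, t]) := by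
  simp only [oP, eCo_val, E.val, NumI.lkR]

theorem sR_val (cE : E) : (sR cE).val [x, m, r, t] = cs x m (r - x) r t (cE.val [x, m, r, t]) := by
  simp only [sR, eCs_val, E.val, NumI.lkR]

theorem sP_val (cE : E) : (sP cE).val [x, m, p, t] = cs x m p (x + p) t (cE.val [x, m, p, t]) := by
  simp only [sP, eCs_val, E.val, NumI.lkR]

/-- the shift -/
def Sh (cE : E) (c x : ℝ) : Prop := ∀ m r t : ℝ, cE.val [x, m, r, t] = c

theorem Sh_A (x : ℝ) : Sh cA (Real.pi - 9 / 2 * x) x := by
  intro m r t
  simp only [cA, E.val, NumI.lkR]
  push_cast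
  ring

theorem Sh_N (x : ℝ) : Sh cN (Real.pi / 2) x := by
  intro m r t
  simp only [cN, E.val]
  push_cast
  ring

variable {u v : ℂ}

/-! ### rows -/

/-- `v` near `u` is impossible -/
theorem near_false (hs : SinNe (v - u)) (hu : u.im = m * u.re) (h1 : -(8 / 100) ≤ v.re - u.re)
    (h2 : v.re - u.re ≤ 8 / 100)
    (hG : -(Real.pi * (u.im + v.im)) - LL (v - u) ≤ 9 / 100 - 3 / 10 * v.re)
    (hN : 9 / 100 - 3 / 10 * v.re < -(Real.pi * (m * u.re + v.im)) -
      NumI.lnA (8 / 100) (v.im - m * u.re)) : False := by
  have h := LL_near hs (by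
    rw [Complex.sub_re, abs_le]
    exact ⟨h1, h2⟩)
  rw [Complex.sub_im, hu] at h
  rw [hu] at hG
  linarith only [hG, hN, h]

theorem LL_sub (hu : u.im = m * u.re) (h1 : u.re < v.re) (h2 : v.re - u.re < 1) :
    LL (v - u) = NumI.lnA (v.re - u.re) (v.im - m * u.re) := by
  rw [Num.LL_lnA (u := v - u) ⟨by simp; linarith only [h1], by simp; linarith only [h2]⟩, Complex.sub_re,
      Complex.sub_im, hu]

/-- small `x` -/
theorem row_s {cE : E} {c : ℝ} {e m0 m1 t0 t1 s0 s1 : ℤ} {W : List E} {k1 k2 : ℕ}
    (c1 : chkT (l1 (sP cE) e ++ W) 40 k1 [V.of 10000 0 100, V.of 10000 m0 m1,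
      V.of 10000 500 2470, V.of 10000 t0 t1] = true)
    (c3 : chkT (l3 (sR cE) e) 40 k2 [V.of 10000 0 100, V.of 10000 m0 m1,
      V.of 10000 2470 8000, V.of 10000 s0 s1] = true)
    (hc : Sh cE c u.re) (h0 : 0 < u.re) (hx : u.re ≤ 1 / 100) (hu : u.im = m * u.re)
    (hm : (m0 : ℝ) / 10000 ≤ m) (hm' : m ≤ (m1 : ℝ) / 10000) (hs : SinNe (v - u))
    (hr : 5 / 100 < v.re) (hr' : v.re ≤ 8 / 10)
    (lo : v.re ≤ 36 / 100 → (t0 : ℝ) / 10000 ≤ v.im ∧ v.im ≤ (t1 : ℝ) / 10000 ∧
      (∀ (x p : ℝ), ∀ f ∈ W, f.val [x, m, p, v.im] ≤ 0) ∧
      (v.re ≤ u.re + 8 / 100 → 9 / 100 - 3 / 10 * v.re < -(Real.pi * (m * u.re + v.im)) -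
        NumI.lnA (8 / 100) (v.im - m * u.re)) ∧
      (v.re ≤ 247 / 1000 → -(Real.pi * (u.im + v.im)) - LL (v - u) ≤ 9 / 100 - 3 / 10 * v.re))
    (hi : (s0 : ℝ) / 10000 ≤ v.im) (hi' : v.im ≤ (s1 : ℝ) / 10000) :
    (e : ℝ) / 1000 < S3 1 m u v + c * m := by
  rcases le_total v.re (247 / 1000) with h1 | h1
  · obtain ⟨l1, l2, l3, l4, l5⟩ := lo (by linarith only [h0, hx, h1])
    have hG := l5 h1
    rcases le_total v.re (u.re + 8 / 100) with h2 | h2
    · exact (near_false hs hu (by linarith only [h0, hx, hr]) (by linarith only [h2]) hG (l4 h2)).elim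
    · rw [LL_sub hu (by linarith only [h0, hx, h2]) (by linarith only [h0, hx, hr']), hu] at hG
      have := use1 (x := u.re) (p := v.re - u.re) (chkT4 c1 (by norm_num) (x := u.re) (y := m)
        (z := v.re - u.re) (w := v.im) (by push_cast; linarith only [h0]) (by push_cast; linarith only [hx])
        (by push_cast; linarith only [hm]) (by push_cast; linarith only [hm']) (by push_cast; linarith only [h0, hx, h2])
        (by push_cast; linarith only [h0, h1]) (by push_cast; linarith only [l1]) (by push_cast; linarith only [l2]))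
        (l3 _ _) (by linarith only [h1]) (by linarith only [hG])
      rw [sP_val, hc] at this
      rw [S3_co hu h0 (by linarith only [h0, hx, h2]) (by linarith only [h0, hx, hr'])]
      have h3 := cs_le (m := m) (p := v.re - u.re) (r := u.re + (v.re - u.re)) (t := v.im)
        (c := c) h0 hx
      have e1 : u.re + (v.re - u.re) = v.re := by ring
      rw [e1] at h3 this
      linarith only [this, h3]
  · have := use3 (chkT4 c3 (by norm_num) (x := u.re) (y := m)
      (z := v.re) (w := v.im) (by push_cast; linarith only [h0]) (by push_cast; linarith only [hx])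
      (by push_cast; linarith only [hm]) (by push_cast; linarith only [hm']) (by push_cast; linarith only [h1])
      (by push_cast; linarith only [hr']) (by push_cast; linarith only [hi]) (by push_cast; linarith only [hi']))
    rw [sR_val, hc] at this
    rw [S3_co hu h0 (by linarith only [h0, hx, h1]) (by linarith only [h0, hx, hr'])]
    have h3 := cs_le (m := m) (p := v.re - u.re) (r := v.re) (t := v.im)
      (c := c) h0 hx
    linarith only [this, h3]

/-- the rows with a neighbour of class `≠ 1` in slot 0 -/
theorem row_n {e cl x1 m0 m1 U0 U1 t0 t1 a0 a1 ta ta' b0 b1 tb tb' s0 s1 xr : ℤ}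
    {k0 k1 k2 k3 k4 k5 : ℕ}
    (cn : chkT (lN cl U0 U1) 40 k0 [V.of 10000 100 x1, V.of 10000 m0 m1,
      V.of 10000 500 xr, V.of 10000 t0 t1] = true)
    (c1 : chkT (l1 (oP cN) e ++ lW cl U0 U1) 40 k1 [V.of 10000 100 x1, V.of 10000 m0 m1,
      V.of 10000 500 2470, V.of 10000 t0 t1] = true)
    (c2a : chkT (l2 (oR cN) (gL (var 2)) e ++ lW cl a0 a1) 40 k2 [V.of 10000 100 x1,
      V.of 10000 m0 m1, V.of 10000 2470 3600, V.of 10000 ta ta'] = true)
    (c2c : chkT (l2 (oR cN) (q 3 100) e ++ lW cl b0 b1) 40 k3 [V.of 10000 100 x1,
      V.of 10000 m0 m1, V.of 10000 2470 2750, V.of 10000 tb tb'] = true)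
    (c2d : chkT (l2 (oR cN) (gD (var 2)) e ++ lW cl b0 b1) 40 k4 [V.of 10000 100 x1,
      V.of 10000 m0 m1, V.of 10000 2750 3600, V.of 10000 tb tb'] = true)
    (c3 : chkT (l3 (oR cN) e) 40 k5 [V.of 10000 100 x1, V.of 10000 m0 m1,
      V.of 10000 3600 8000, V.of 10000 s0 s1] = true)
    (hxr : (x1 : ℝ) / 10000 + 8 / 100 ≤ (xr : ℝ) / 10000)
    (hta : -(1230 : ℤ) ≤ ta) (hta' : ta' ≤ -(150 : ℤ))
    (h0 : 1 / 100 ≤ u.re) (hx : u.re ≤ (x1 : ℝ) / 10000) (hx3 : u.re ≤ 13 / 100)
    (hu : u.im = m * u.re)
    (hm : (m0 : ℝ) / 10000 ≤ m) (hm' : m ≤ (m1 : ℝ) / 10000) (hs : SinNe (v - u))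
    (hr : 5 / 100 < v.re) (hr' : v.re ≤ 8 / 10)
    (lo : v.re ≤ 36 / 100 → Wn cl U0 U1 t0 t1 m v.im ∧
      ((Wn cl a0 a1 ta ta' m v.im ∧ Fa u v) ∨ (Wn cl b0 b1 tb tb' m v.im ∧ Fb u v)))
    (hi : (s0 : ℝ) / 10000 ≤ v.im) (hi' : v.im ≤ (s1 : ℝ) / 10000) :
    (e : ℝ) / 1000 < S3 1 m u v + Real.pi / 2 * m := by
  rcases le_total v.re (247 / 1000) with h1 | h1
  · obtain ⟨l1, l2⟩ := lo (by linarith only [h1])
    have hG : -(Real.pi * (u.im + v.im)) - LL (v - u) ≤ 9 / 100 - 3 / 10 * v.re := by
      rcases l2 with l2 | l2
      · exact l2.2.a h1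
      · exact l2.2.a h1
    have la := l1.a
    have lb := l1.b
    rcases le_total v.re (u.re + 8 / 100) with h2 | h2
    · have := useN (chkT4 cn (by norm_num) (x := u.re) (y := m)
        (z := v.re) (w := v.im) (by push_cast; linarith only [h0]) (by push_cast; linarith only [hx])
        (by push_cast; linarith only [hm]) (by push_cast; linarith only [hm']) (by push_cast; linarith only [hr])
        (by push_cast; linarith only [hxr, hx, h2]) (by push_cast; linarith only [la]) (by push_cast; linarith only [lb])) l1 h2
      exact (near_false hs hu (by linarith only [hx3, hr]) (by linarith only [h2]) hG this).elim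
    · rw [LL_sub hu (by linarith only [h2]) (by linarith only [h0, hr']), hu] at hG
      have := use1 (x := u.re) (p := v.re - u.re) (chkT4 c1 (by norm_num) (x := u.re) (y := m)
        (z := v.re - u.re) (w := v.im) (by push_cast; linarith only [h0]) (by push_cast; linarith only [hx])
        (by push_cast; linarith only [hm]) (by push_cast; linarith only [hm']) (by push_cast; linarith only [h2])
        (by push_cast; linarith only [h0, h1]) (by push_cast; linarith only [la]) (by push_cast; linarith only [lb]))
        l1.win (by linarith only [h1]) (by linarith only [hG])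
      rw [oP_val, Sh_N] at this
      rw [S3_co hu (by linarith only [h0]) (by linarith only [h2]) (by linarith only [hr'])]
      have e1 : u.re + (v.re - u.re) = v.re := by ring
      rw [e1] at this
      exact this
  · rcases le_total v.re (36 / 100) with h2 | h2
    · obtain ⟨-, l2⟩ := lo h2
      rw [S3_co hu (by linarith only [h0]) (by linarith only [hx3, h1]) (by linarith only [hr'])]
      rcases l2 with ⟨l2, l3⟩ | ⟨l2, l3⟩
      · have la := l2.a
        have lb := l2.b
        have ha : -(1230 : ℝ) ≤ ta := by exact_mod_cast hta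
        have ha' : (ta' : ℝ) ≤ -150 := by exact_mod_cast hta'
        have hG : -(Real.pi * (u.im + v.im)) - LL (v - u) ≤
            1 / 100 + 44 / 10 * (v.re - 247 / 1000) := by
          rcases l3.b h1 h2 with h3 | h3
          · linarith only [h1, h3]
          · have := fc_le (t := v.im) h1 h2 (by linarith only [la, ha]) (by linarith only [lb, ha'])
            linarith only [h3, this]
        rw [LL_sub hu (by linarith only [hx3, h1]) (by linarith only [h0, hr']), hu] at hG
        have := use2 (chkT4 c2a (by norm_num) (x := u.re) (y := m)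
          (z := v.re) (w := v.im) (by push_cast; linarith only [h0]) (by push_cast; linarith only [hx])
          (by push_cast; linarith only [hm]) (by push_cast; linarith only [hm']) (by push_cast; linarith only [h1])
          (by push_cast; linarith only [h2]) (by push_cast; linarith only [la]) (by push_cast; linarith only [lb]))
          l2.win (by
            simp only [gL, E.val, NumI.lkR]
            push_cast
            linarith only [hG])
        rwa [oR_val, Sh_N] at this
      · have la := l2.a
        have lb := l2.b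
        rcases le_total v.re (275 / 1000) with h3 | h3
        · have hG := l3.b h1 h3
          rw [LL_sub hu (by linarith only [hx3, h1]) (by linarith only [h0, hr']), hu] at hG
          have := use2 (chkT4 c2c (by norm_num) (x := u.re) (y := m)
            (z := v.re) (w := v.im) (by push_cast; linarith only [h0]) (by push_cast; linarith only [hx])
            (by push_cast; linarith only [hm]) (by push_cast; linarith only [hm']) (by push_cast; linarith only [h1])
            (by push_cast; linarith only [h3]) (by push_cast; linarith only [la]) (by push_cast; linarith only [lb]))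
            l2.win (by
              simp only [E.val]
              push_cast
              linarith only [hG])
          rwa [oR_val, Sh_N] at this
        · have hG := l3.c h3 h2
          rw [LL_sub hu (by linarith only [hx3, h3]) (by linarith only [h0, hr']), hu] at hG
          have := use2 (chkT4 c2d (by norm_num) (x := u.re) (y := m)
            (z := v.re) (w := v.im) (by push_cast; linarith only [h0]) (by push_cast; linarith only [hx])
            (by push_cast; linarith only [hm]) (by push_cast; linarith only [hm']) (by push_cast; linarith only [h3])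
            (by push_cast; linarith only [h2]) (by push_cast; linarith only [la]) (by push_cast; linarith only [lb]))
            l2.win (by
              simp only [gD, E.val, NumI.lkR]
              push_cast
              linarith only [hG])
          rwa [oR_val, Sh_N] at this
    · have := use3 (chkT4 c3 (by norm_num) (x := u.re) (y := m)
        (z := v.re) (w := v.im) (by push_cast; linarith only [h0]) (by push_cast; linarith only [hx])
        (by push_cast; linarith only [hm]) (by push_cast; linarith only [hm']) (by push_cast; linarith only [h2])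
        (by push_cast; linarith only [hr']) (by push_cast; linarith only [hi]) (by push_cast; linarith only [hi']))
      rw [oR_val, Sh_N] at this
      rw [S3_co hu (by linarith only [h0]) (by linarith only [hx3, h2]) (by linarith only [hr'])]
      exact this

/-- the rows with a neighbour `1` in slot 0 -/
theorem row_a {e x0 x1 xr : ℤ} {k0 k1 k2 k3 k4 k5 k6 : ℕ}
    (cn : chkT (lN 13 (-45) 84) 40 k0 [V.of 10000 x0 x1, V.of 10000 (-8808) (-1615),
      V.of 10000 500 xr, V.of 10000 (-900) 50] = true)
    (c1 : chkT (l1 (oP cA) e ++ lW 13 (-45) 84) 40 k1 [V.of 10000 x0 x1,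
      V.of 10000 (-8808) (-1615), V.of 10000 500 2470, V.of 10000 (-900) 50] = true)
    (c2a : chkT (l2 (oR cA) (q 1 100) e ++ lW 13 (-45) 70) 40 k2 [V.of 10000 x0 x1,
      V.of 10000 (-8808) (-1615), V.of 10000 2470 3600, V.of 10000 (-900) (-180)] = true)
    (c2b : chkT (l2 (oR cA) (gB (var 2) (var 3)) e ++ lW 13 (-45) 70) 40 k3
      [V.of 10000 x0 x1, V.of 10000 (-8808) (-1615), V.of 10000 2470 3600,
      V.of 10000 (-900) (-180)] = true)
    (c2c : chkT (l2 (oR cA) (q 3 100) e ++ lW 13 (-40) 84) 40 k4 [V.of 10000 x0 x1,
      V.of 10000 (-8808) (-1615), V.of 10000 2470 2750, V.of 10000 (-820) 50] = true)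
    (c2d : chkT (l2 (oR cA) (gD (var 2)) e ++ lW 13 (-40) 84) 40 k5 [V.of 10000 x0 x1,
      V.of 10000 (-8808) (-1615), V.of 10000 2750 3600, V.of 10000 (-820) 50] = true)
    (c3 : chkT (l3 (oR cA) e) 40 k6 [V.of 10000 x0 x1, V.of 10000 (-8808) (-1615),
      V.of 10000 3600 8000, V.of 10000 (-900) 50] = true)
    (hxr : (x1 : ℝ) / 10000 + 8 / 100 ≤ (xr : ℝ) / 10000)
    (h0 : (x0 : ℝ) / 10000 ≤ u.re) (hx0 : 0 < u.re)
    (hx : u.re ≤ (x1 : ℝ) / 10000) (hx3 : u.re ≤ 13 / 100) (hu : u.im = m * u.re)
    (hm : -(8808 / 10000) ≤ m) (hm' : m ≤ -(1615 / 10000)) (hs : SinNe (v - u))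
    (hr : 5 / 100 < v.re) (hr' : v.re ≤ 8 / 10)
    (lo : v.re ≤ 36 / 100 → (Wn 13 (-45) 70 (-900) (-180) m v.im ∧ Fa u v) ∨
      (Wn 13 (-40) 84 (-820) 50 m v.im ∧ Fb u v))
    (hi : -(90 / 1000) ≤ v.im) (hi' : v.im ≤ 5 / 1000) :
    (e : ℝ) / 1000 < S3 1 m u v + (Real.pi - 9 / 2 * u.re) * m := by
  rcases le_total v.re (247 / 1000) with h1 | h1
  · have l2 := lo (by linarith only [hx0, hx3, h1])
    have hG : -(Real.pi * (u.im + v.im)) - LL (v - u) ≤ 9 / 100 - 3 / 10 * v.re := by
      rcases l2 with l2 | l2
      · exact l2.2.a h1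
      · exact l2.2.a h1
    have l1 : Wn 13 (-45) 84 (-900) 50 m v.im := by
      rcases l2 with l2 | l2
      · have b1 := l2.1.a
        have b2 := l2.1.b
        have b3 := l2.1.c
        have b4 := l2.1.d
        push_cast at b1 b2 b3 b4
        constructor <;> push_cast <;> linarith only [hi, hi', b3, hx0, hx3, b4]
      · have b1 := l2.1.a
        have b2 := l2.1.b
        have b3 := l2.1.c
        have b4 := l2.1.d
        push_cast at b1 b2 b3 b4
        constructor <;> push_cast <;> linarith only [hx0, hx3, b1, hi', b3, b4]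
    rcases le_total v.re (u.re + 8 / 100) with h2 | h2
    · have := useN (chkT4 cn (by norm_num) (x := u.re) (y := m)
        (z := v.re) (w := v.im) (by push_cast; linarith only [h0]) (by push_cast; linarith only [hx])
        (by push_cast; linarith only [hm]) (by push_cast; linarith only [hm']) (by push_cast; linarith only [hr])
        (by push_cast; linarith only [hxr, hx, h2]) (by push_cast; linarith only [hi]) (by push_cast; linarith only [hi'])) l1 h2
      exact (near_false hs hu (by linarith only [hx3, hr]) (by linarith only [h2]) hG this).elim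
    · rw [LL_sub hu (by linarith only [hx0, hx3, h2]) (by linarith only [hx0, hx3, hr']), hu] at hG
      have := use1 (x := u.re) (p := v.re - u.re) (chkT4 c1 (by norm_num) (x := u.re) (y := m)
        (z := v.re - u.re) (w := v.im) (by push_cast; linarith only [h0]) (by push_cast; linarith only [hx])
        (by push_cast; linarith only [hm]) (by push_cast; linarith only [hm']) (by push_cast; linarith only [hx0, hx3, h2])
        (by push_cast; linarith only [hx0, h1]) (by push_cast; linarith only [hi]) (by push_cast; linarith only [hi']))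
        l1.win (by linarith only [h1]) (by linarith only [hG])
      rw [oP_val, Sh_A] at this
      rw [S3_co hu (by linarith only [hx0]) (by linarith only [hx0, hx3, h2]) (by linarith only [hx0, hx3, hr'])]
      have e1 : u.re + (v.re - u.re) = v.re := by ring
      rw [e1] at this
      exact this
  · rcases le_total v.re (36 / 100) with h2 | h2
    · rw [S3_co hu (by linarith only [hx0]) (by linarith only [hx0, hx3, h1]) (by linarith only [hx0, hx3, hr'])]
      rcases lo h2 with ⟨l2, l3⟩ | ⟨l2, l3⟩
      · have la := l2.a
        have lb := l2.b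
        push_cast at la lb
        rcases l3.b h1 h2 with hG | hG
        · rw [LL_sub hu (by linarith only [hx0, hx3, h1]) (by linarith only [hx0, hx3, hr']), hu] at hG
          have := use2 (chkT4 c2a (by norm_num) (x := u.re) (y := m)
            (z := v.re) (w := v.im) (by push_cast; linarith only [h0]) (by push_cast; linarith only [hx])
            (by push_cast; linarith only [hm]) (by push_cast; linarith only [hm']) (by push_cast; linarith only [h1])
            (by push_cast; linarith only [h2]) (by push_cast; linarith only [hi]) (by push_cast; linarith only [lb]))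
            l2.win (by
              simp only [E.val]
              push_cast
              linarith only [hG])
          rwa [oR_val, Sh_A] at this
        · rw [LL_sub hu (by linarith only [hx0, hx3, h1]) (by linarith only [hx0, hx3, hr']), hu] at hG
          have := use2 (chkT4 c2b (by norm_num) (x := u.re) (y := m)
            (z := v.re) (w := v.im) (by push_cast; linarith only [h0]) (by push_cast; linarith only [hx])
            (by push_cast; linarith only [hm]) (by push_cast; linarith only [hm']) (by push_cast; linarith only [h1])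
            (by push_cast; linarith only [h2]) (by push_cast; linarith only [hi]) (by push_cast; linarith only [lb]))
            l2.win (by
              simp only [gB, E.val, NumI.lkR]
              unfold fc at hG
              push_cast at hG ⊢
              linarith only [hG])
          rwa [oR_val, Sh_A] at this
      · have la := l2.a
        have lb := l2.b
        push_cast at la lb
        rcases le_total v.re (275 / 1000) with h3 | h3
        · have hG := l3.b h1 h3
          rw [LL_sub hu (by linarith only [hx0, hx3, h1]) (by linarith only [hx0, hx3, hr']), hu] at hG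
          have := use2 (chkT4 c2c (by norm_num) (x := u.re) (y := m)
            (z := v.re) (w := v.im) (by push_cast; linarith only [h0]) (by push_cast; linarith only [hx])
            (by push_cast; linarith only [hm]) (by push_cast; linarith only [hm']) (by push_cast; linarith only [h1])
            (by push_cast; linarith only [h3]) (by push_cast; linarith only [la]) (by push_cast; linarith only [hi']))
            l2.win (by
              simp only [E.val]
              push_cast
              linarith only [hG])
          rwa [oR_val, Sh_A] at this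
        · have hG := l3.c h3 h2
          rw [LL_sub hu (by linarith only [hx0, hx3, h3]) (by linarith only [hx0, hx3, hr']), hu] at hG
          have := use2 (chkT4 c2d (by norm_num) (x := u.re) (y := m)
            (z := v.re) (w := v.im) (by push_cast; linarith only [h0]) (by push_cast; linarith only [hx])
            (by push_cast; linarith only [hm]) (by push_cast; linarith only [hm']) (by push_cast; linarith only [h3])
            (by push_cast; linarith only [h2]) (by push_cast; linarith only [la]) (by push_cast; linarith only [hi']))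
            l2.win (by
              simp only [gD, E.val, NumI.lkR]
              push_cast
              linarith only [hG])
          rwa [oR_val, Sh_A] at this
    · have := use3 (chkT4 c3 (by norm_num) (x := u.re) (y := m)
        (z := v.re) (w := v.im) (by push_cast; linarith only [h0]) (by push_cast; linarith only [hx])
        (by push_cast; linarith only [hm]) (by push_cast; linarith only [hm']) (by push_cast; linarith only [h2])
        (by push_cast; linarith only [hr']) (by push_cast; linarith only [hi]) (by push_cast; linarith only [hi']))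
      rw [oR_val, Sh_A] at this
      rw [S3_co hu (by linarith only [hx0]) (by linarith only [hx0, hx3, h2]) (by linarith only [hx0, hx3, hr'])]
      exact this

end S0

end VL

end Pool.Agent.Work.MP_b30479_gt.G2
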