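import Pool.Agent.Work.MP_b30479_gt.G2.V30L
import Pool.Agent.Work.MP_b30479_gt.G2.V30F
import Pool.Agent.Work.MP_b30479_gt.G2.V30I
import Pool.Agent.Work.MP_b30479_gt.G2.V30J

/-!
# Side of the slot-0 hinge of an inner digit `3`, left ramp: all classes
-/

namespace Pool.Agent.Work.MP_b30479_gt.G2

open VOL NumU

namespace VL

namespace S0

open SR

variable {r t w σ S T x m p c φ h : ℝ} {A K : Cl} {u v w : ℂ}

theorem RH_im {a b : ℝ} (h : RH v T (8 / 10) (5 / 100) (5 / 100)) (ha : a ≤ 0) (hb : 0 ≤ b)
    (h1 : a ≤ T) (h2 : T ≤ b) : a ≤ v.im ∧ v.im ≤ b := by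
  have h3 : 0 ≤ tr 0 (8 / 10) (5 / 100) (5 / 100) v.re := le_max_left _ _
  have h4 : tr 0 (8 / 10) (5 / 100) (5 / 100) v.re ≤ 1 := max_le zero_le_one (min_le_left _ _)
  rw [h.im]
  constructor <;> nlinarith only [ha, h4, h1, h3, hb, h2]

theorem pre (H : HtW A K T t S) (hw : RH w S (pR K).XM (pR K).cl (pR K).cr)
    (hc' : w.re ≤ cpR K) (hv : RH v t (8 / 10) (5 / 100) (5 / 100)) (hr : 5 / 100 < v.re)
    (hf : v.re < 75 / 100 → SM 0 u v w ≤ 0) (h36 : v.re ≤ 36 / 100) :
    v.im = t ∧ ((K = .one ∧ Fa u v) ∨ (K ≠ .one ∧ Fb u v)) := by
  have e : v.im = t := by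
    rw [hv.im, tr_b (by norm_num) (by norm_num) hr.le (by linarith only [h36]), mul_one]
  refine ⟨e, ?_⟩
  have a1 := H.S0
  have a2 := H.S1
  have a3 := H.t0
  have a4 := H.t1
  by_cases hK : K = .one
  · left
    refine ⟨hK, ?_⟩
    subst hK
    simp only [hbox, pR, cpR] at a1 a2 hw hc'
    refine Fa_of hw hc' a1 a2 ?_ ?_ hr.le hf
    · rw [e]
      exact le_trans (by cases A <;> norm_num [mw]) a3
    · rw [e]
      exact a4.trans (by cases A <;> norm_num [mw])
  · right
    refine ⟨hK, ?_⟩
    have hw' : RH w S (60 / 100) (13 / 100) (30 / 100) := by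
      cases K
      · exact absurd rfl hK
      all_goals exact hw
    have hc2 : w.re ≤ 31 / 100 ∨ w.re ≤ 39 / 100 ∧ -(22 / 1000) ≤ S ∧ S ≤ 22 / 1000 := by
      cases K
      · exact absurd rfl hK
      · exact Or.inl hc'
      · exact Or.inl hc'
      · exact Or.inr ⟨hc', a1, a2⟩
      · exact Or.inl hc'
      · exact Or.inl hc'
    refine Fb_of hw' hc2 ?_ hr.le hf
    rw [e]
    by_cases hE : K = .twoE
    · right
      subst hE
      simp only [hbox] at a1 a2
      refine ⟨a1, a2, ?_, ?_⟩
      · exact le_trans (by cases A <;> norm_num [mw]) a3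
      · exact a4.trans (by cases A <;> norm_num [mw])
    · left
      refine ⟨?_, ?_, ?_, ?_⟩
      · refine le_trans ?_ a1
        cases K <;> first | exact absurd rfl hK | exact absurd rfl hE | norm_num [hbox]
      · refine a2.trans ?_
        cases K <;> first | exact absurd rfl hK | exact absurd rfl hE | norm_num [hbox]
      · refine le_trans ?_ a3
        cases K <;> first | exact absurd rfl hK | exact absurd rfl hE |
          (cases A <;> norm_num [mw])
      · refine a4.trans ?_
        cases K <;> first | exact absurd rfl hK | exact absurd rfl hE |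
          (cases A <;> norm_num [mw])

theorem win_of (H : HtW A K T t S) {cl s0 s1 t0 t1 : ℤ} (hm : (cl : ℝ) / 100 * m = T)
    (h1 : (t0 : ℝ) / 10000 ≤ (mw A K).t0) (h2 : (mw A K).t1 ≤ (t1 : ℝ) / 10000)
    (h3 : (s0 : ℝ) / 1000 ≤ (mw A K).s0) (h4 : (mw A K).s1 ≤ (s1 : ℝ) / 1000) :
    Wn cl s0 s1 t0 t1 m t :=
  ⟨h1.trans H.t0, H.t1.trans h2, by rw [hm]; exact h3.trans H.d0, by rw [hm]; exact H.d1.trans h4⟩

theorem fa (h : (K = .one ∧ Fa u v) ∨ (K ≠ .one ∧ Fb u v)) (h1 : v.re ≤ 247 / 1000) :
    -(Real.pi * (u.im + v.im)) - LL (v - u) ≤ 9 / 100 - 3 / 10 * v.re := by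
  rcases h with h | h
  · exact h.2.a h1
  · exact h.2.a h1

/-- small hinge, no neighbour `1` in slot 0 -/
theorem small_n (H : HtW A K T t S) (h0 : 0 < u.re) (hx : u.re ≤ 1 / 100) (hu : u.im = m * u.re)
    (hm : -(8167 / 10000) ≤ m) (hm' : m ≤ 475 / 1000)
    (hw : RH w S (pR K).XM (pR K).cl (pR K).cr)
    (hc' : w.re ≤ cpR K) (hv : RH v t (8 / 10) (5 / 100) (5 / 100)) (hr : 5 / 100 < v.re)
    (hs : SinNe (v - u)) (hf : v.re < 75 / 100 → SM 0 u v w ≤ 0) :
    400 / 1000 < S3 1 m u v + Real.pi / 2 * m := by
  obtain ⟨t0, t1, -⟩ := H.t_all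
  have hi := RH_im (v := v) (T := t) (a := -(123 / 1000)) (b := 5 / 1000)
    hv (by norm_num) (by norm_num) t0 t1
  have hM := hv.reM
  have := row_s (W := []) (cE := cN) (c := Real.pi / 2) (m := m) (u := u) (v := v)
    (by rw [List.append_nil]; exact k_sn1) k_sn3 (Sh_N _)
    h0 hx hu (by push_cast; linarith only [hm]) (by push_cast; linarith only [hm']) hs hr (by linarith only [hM]) (by
      intro h36
      obtain ⟨e, hF⟩ := pre H hw hc' hv hr hf h36
      refine ⟨by rw [e]; push_cast; linarith only [t0], by rw [e]; push_cast; linarith only [t1], by simp, ?_,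
        fa hF⟩
      intro h8
      exact useN' (chkT4 k_snn (by norm_num) (x := u.re) (y := m)
        (z := v.re) (w := v.im) (by push_cast; linarith only [h0]) (by push_cast; linarith only [hx])
        (by push_cast; linarith only [hm]) (by push_cast; linarith only [hm']) (by push_cast; linarith only [hr])
        (by push_cast; linarith only [hx, h8]) (by push_cast; linarith only [hi]) (by push_cast; linarith only [hi])) h8)
    (by push_cast; linarith only [hi]) (by push_cast; linarith only [hi])
  push_cast at this
  exact this

/-- small hinge, neighbour `1` in slot 0 -/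
theorem small_a (H : HtW .one K T t S) (h0 : 0 < u.re) (hx : u.re ≤ 1 / 100)
    (hu : u.im = m * u.re) (hT : 13 / 100 * m = T)
    (hw : RH w S (pR K).XM (pR K).cl (pR K).cr)
    (hc' : w.re ≤ cpR K) (hv : RH v t (8 / 10) (5 / 100) (5 / 100)) (hr : 5 / 100 < v.re)
    (hs : SinNe (v - u)) (hf : v.re < 75 / 100 → SM 0 u v w ≤ 0) :
    -(200 / 1000) < S3 1 m u v + (Real.pi - 9 / 2 * u.re) * m := by
  have a1 := H.T0
  have a2 := H.T1
  simp only [hbox] at a1 a2
  have W : Wn 13 (-45) 84 (-900) 50 m t := win_of H (by push_cast; exact hT)
    (by cases K <;> norm_num [mw]) (by cases K <;> norm_num [mw]) (by cases K <;> norm_num [mw])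
    (by cases K <;> norm_num [mw])
  have W1 := W.a
  have W2 := W.b
  push_cast at W1 W2
  have hi := RH_im (v := v) (T := t) (a := -(90 / 1000)) (b := 5 / 1000)
    hv (by norm_num) (by norm_num) (by linarith only [W1]) (by linarith only [W2])
  have hM := hv.reM
  have := row_s (W := lW 13 (-45) 84) (cE := cA) (c := Real.pi - 9 / 2 * u.re) (m := m) (u := u)
    (v := v) k_sa1 k_sa3 (Sh_A _)
    h0 hx hu (by push_cast; linarith only [h0, hx, hT, a1]) (by push_cast; linarith only [h0, hx, hT, a2]) hs hr (by linarith only [hM]) (by
      intro h36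
      obtain ⟨e, hF⟩ := pre H hw hc' hv hr hf h36
      refine ⟨by rw [e]; push_cast; linarith only [W1], by rw [e]; push_cast; linarith only [W2], ?_, ?_,
        fa hF⟩
      · intro x p
        rw [e]
        exact W.win
      · intro h8
        exact useN (chkT4 k_san (by norm_num) (x := u.re) (y := m)
          (z := v.re) (w := v.im) (by push_cast; linarith only [h0]) (by push_cast; linarith only [hx])
          (by push_cast; linarith only [h0, hx, hT, a1]) (by push_cast; linarith only [h0, hx, hT, a2]) (by push_cast; linarith only [hr])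
          (by push_cast; linarith only [hx, h8]) (by push_cast; linarith only [hi]) (by push_cast; linarith only [hi]))
          (by rw [e]; exact W) h8)
    (by push_cast; linarith only [hi]) (by push_cast; linarith only [hi])
  push_cast at this
  linarith only [this]

/-- neighbour `1` in slot 0 -/
theorem side_a (H : HtW .one K T t S) (h0 : 0 < u.re) (hx : u.re ≤ 13 / 100)
    (hu : u.im = m * u.re) (hT : 13 / 100 * m = T)
    (hw : RH w S (pR K).XM (pR K).cl (pR K).cr)
    (hc' : w.re ≤ cpR K) (hv : RH v t (8 / 10) (5 / 100) (5 / 100)) (hr : 5 / 100 < v.re)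
    (hs : SinNe (v - u)) (hf : v.re < 75 / 100 → SM 0 u v w ≤ 0) :
    (u.re ≤ 7 / 100 → -(200 / 1000) < S3 1 m u v + (Real.pi - 9 / 2 * u.re) * m) ∧
      -(295 / 1000) < S3 1 m u v + (Real.pi - 9 / 2 * u.re) * m := by
  have a1 := H.T0
  have a2 := H.T1
  simp only [hbox] at a1 a2
  have W : Wn 13 (-45) 84 (-900) 50 m t := win_of H (by push_cast; exact hT)
    (by cases K <;> norm_num [mw]) (by cases K <;> norm_num [mw]) (by cases K <;> norm_num [mw])
    (by cases K <;> norm_num [mw])
  have W1 := W.a
  have W2 := W.b
  push_cast at W1 W2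
  have hi := RH_im (v := v) (T := t) (a := -(90 / 1000)) (b := 5 / 1000)
    hv (by norm_num) (by norm_num) (by linarith only [W1]) (by linarith only [W2])
  have hM := hv.reM
  have lo : v.re ≤ 36 / 100 → (Wn 13 (-45) 70 (-900) (-180) m v.im ∧ Fa u v) ∨
      (Wn 13 (-40) 84 (-820) 50 m v.im ∧ Fb u v) := by
    intro h36
    obtain ⟨e, hF⟩ := pre H hw hc' hv hr hf h36
    rw [e]
    rcases hF with ⟨hK, hF⟩ | ⟨hK, hF⟩
    · left
      refine ⟨?_, hF⟩
      subst hK
      exact win_of H (by push_cast; exact hT) (by norm_num [mw]) (by norm_num [mw])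
        (by norm_num [mw]) (by norm_num [mw])
    · right
      refine ⟨?_, hF⟩
      exact win_of H (by push_cast; exact hT)
        (by cases K <;> first | exact absurd rfl hK | norm_num [mw])
        (by cases K <;> first | exact absurd rfl hK | norm_num [mw])
        (by cases K <;> first | exact absurd rfl hK | norm_num [mw])
        (by cases K <;> first | exact absurd rfl hK | norm_num [mw])
  have s1 : u.re ≤ 7 / 100 → -(200 / 1000) < S3 1 m u v + (Real.pi - 9 / 2 * u.re) * m := by
    intro h7
    rcases le_total u.re (1 / 100) with h1 | h1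
    · exact small_a H h0 h1 hu hT hw hc' hv hr hs hf
    · have := row_a k_an k_a1 k_a2a k_a2b k_a2c k_a2d k_a3 (m := m) (u := u) (v := v)
        (by push_cast; norm_num) (by push_cast; linarith only [h1]) h0 (by push_cast; linarith only [h7]) hx hu
        (by linarith only [h0, hT, a1, h7]) (by linarith only [h0, hT, a2, h7]) hs hr (by linarith only [hM]) lo hi.1 hi.2
      push_cast at this
      linarith only [this]
  refine ⟨s1, ?_⟩
  rcases le_total u.re (7 / 100) with h1 | h1
  · linarith only [h0, h1, s1, s1 h1]
  · have := row_a k_bn k_b1 k_b2a k_b2b k_b2c k_b2d k_b3 (m := m) (u := u) (v := v)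
      (by push_cast; norm_num) (by push_cast; linarith only [h1]) h0 (by push_cast; linarith only [hx]) hx hu
      (by linarith only [h0, hx, hT, a1]) (by linarith only [h0, hx, hT, a2]) hs hr (by linarith only [hM]) lo hi.1 hi.2
    push_cast at this
    linarith only [this]

/-- lower bounds of the shifted side -/
noncomputable def eT : Cl → ℝ
  | .two => 10 / 100
  | .twoE => 40 / 100
  | .three => 5 / 100
  | .threeE => 10 / 100
  | _ => 15 / 100

/-- no neighbour `1` in slot 0 -/
theorem side_n (H : HtW A K T t S) (hA : A ≠ .one) (h0 : 0 < u.re) (hx : u.re ≤ (pL A).cl)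
    (hu : u.im = m * u.re) (hT : (pL A).cl * m = T)
    (hw : RH w S (pR K).XM (pR K).cl (pR K).cr)
    (hc' : w.re ≤ cpR K) (hv : RH v t (8 / 10) (5 / 100) (5 / 100)) (hr : 5 / 100 < v.re)
    (hs : SinNe (v - u)) (hf : v.re < 75 / 100 → SM 0 u v w ≤ 0) :
    eT A < S3 1 m u v + Real.pi / 2 * m := by
  obtain ⟨tt0, tt1, -⟩ := H.t_all
  have a1 := H.T0
  have a2 := H.T1
  have hM := hv.reM
  have hm : -(8167 / 10000) ≤ m ∧ m ≤ 475 / 1000 := by
    cases A
    · exact absurd rfl hA
    all_goals
      simp only [hbox, pL] at a1 a2 hT
      constructor <;> linarith only [hT, a1, a2]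
  rcases le_total u.re (1 / 100) with hx1 | hx1
  · have := small_n H h0 hx1 hu hm.1 hm.2 hw hc' hv hr hs hf
    refine lt_of_le_of_lt ?_ this
    cases A <;> norm_num [eT]
  have hp : v.re ≤ 36 / 100 → v.im = t ∧ ((K = .one ∧ Fa u v) ∨ (K ≠ .one ∧ Fb u v)) :=
    pre H hw hc' hv hr hf
  cases A
  · exact absurd rfl hA
  · simp only [hbox, pL] at a1 a2 hT hx
    have b1 := H.t0
    have b2 := H.t1
    have b3 : -(114 / 1000) ≤ t := le_trans (by cases K <;> norm_num [mw]) b1
    have hi := RH_im (v := v) (T := t) (a := -(114 / 1000)) (b := 5 / 1000)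
      hv (by norm_num) (by norm_num) b3 tt1
    have := row_n k_tn k_t1 k_t2a k_t2c k_t2d k_t3 (m := m) (u := u) (v := v)
      (by push_cast; norm_num) (by norm_num) (by norm_num) hx1 (by push_cast; linarith only [hx])
      (by linarith only [h0, hx]) hu (by push_cast; linarith only [hT, a1]) (by push_cast; linarith only [h0, hx, hT, a2]) hs hr (by linarith only [hM])
      (by
        intro h36
        obtain ⟨e, hF⟩ := hp h36
        rw [e]
        refine ⟨win_of H (by push_cast; exact hT) (by cases K <;> norm_num [mw])
          (by cases K <;> norm_num [mw]) (by cases K <;> norm_num [mw])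
          (by cases K <;> norm_num [mw]), ?_⟩
        rcases hF with ⟨hK, hF⟩ | ⟨hK, hF⟩
        · left
          refine ⟨?_, hF⟩
          subst hK
          exact win_of H (by push_cast; exact hT) (by norm_num [mw]) (by norm_num [mw])
            (by norm_num [mw]) (by norm_num [mw])
        · right
          refine ⟨?_, hF⟩
          exact win_of H (by push_cast; exact hT)
            (by cases K <;> first | exact absurd rfl hK | norm_num [mw])
            (by cases K <;> first | exact absurd rfl hK | norm_num [mw])
            (by cases K <;> first | exact absurd rfl hK | norm_num [mw])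
            (by cases K <;> first | exact absurd rfl hK | norm_num [mw]))
      (by push_cast; linarith only [hi]) (by push_cast; linarith only [hi])
    push_cast at this
    simp only [eT]
    linarith only [this]
  · simp only [hbox, pL] at a1 a2 hT hx
    have b2 : t ≤ 0 := H.t1.trans (by cases K <;> norm_num [mw])
    have hi := RH_im (v := v) (T := t) (a := -(123 / 1000)) (b := 0)
      hv (by norm_num) (by norm_num) tt0 b2
    have := row_n k_en k_e1 k_e2a k_e2c k_e2d k_e3 (m := m) (u := u) (v := v)
      (by push_cast; norm_num) (by norm_num) (by norm_num) hx1 (by push_cast; linarith only [hx])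
      (by linarith only [h0, hx]) hu (by push_cast; linarith only [h0, hx, hT, a1]) (by push_cast; linarith only [h0, hx, hT, a2]) hs hr (by linarith only [hM])
      (by
        intro h36
        obtain ⟨e, hF⟩ := hp h36
        rw [e]
        refine ⟨win_of H (by push_cast; exact hT) (by cases K <;> norm_num [mw])
          (by cases K <;> norm_num [mw]) (by cases K <;> norm_num [mw])
          (by cases K <;> norm_num [mw]), ?_⟩
        rcases hF with ⟨hK, hF⟩ | ⟨hK, hF⟩
        · left
          refine ⟨?_, hF⟩
          subst hK
          exact win_of H (by push_cast; exact hT) (by norm_num [mw]) (by norm_num [mw])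
            (by norm_num [mw]) (by norm_num [mw])
        · right
          refine ⟨?_, hF⟩
          exact win_of H (by push_cast; exact hT)
            (by cases K <;> first | exact absurd rfl hK | norm_num [mw])
            (by cases K <;> first | exact absurd rfl hK | norm_num [mw])
            (by cases K <;> first | exact absurd rfl hK | norm_num [mw])
            (by cases K <;> first | exact absurd rfl hK | norm_num [mw]))
      (by push_cast; linarith only [hi]) (by push_cast; linarith only [hi])
    push_cast at this
    simp only [eT]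
    linarith only [this]
  · simp only [hbox, pL] at a1 a2 hT hx
    have b1 := H.t0
    have b3 : -(114 / 1000) ≤ t := le_trans (by cases K <;> norm_num [mw]) b1
    have hi := RH_im (v := v) (T := t) (a := -(114 / 1000)) (b := 5 / 1000)
      hv (by norm_num) (by norm_num) b3 tt1
    have := row_n k_hn k_h1 k_h2a k_h2c k_h2d k_h3 (m := m) (u := u) (v := v)
      (by push_cast; norm_num) (by norm_num) (by norm_num) hx1 (by push_cast; linarith only [hx])
      (by linarith only [hx]) hu (by push_cast; linarith only [h0, hx, hT, a1]) (by push_cast; linarith only [h0, hx, hT, a2]) hs hr (by linarith only [hM])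
      (by
        intro h36
        obtain ⟨e, hF⟩ := hp h36
        rw [e]
        refine ⟨win_of H (by push_cast; exact hT) (by cases K <;> norm_num [mw])
          (by cases K <;> norm_num [mw]) (by cases K <;> norm_num [mw])
          (by cases K <;> norm_num [mw]), ?_⟩
        rcases hF with ⟨hK, hF⟩ | ⟨hK, hF⟩
        · left
          refine ⟨?_, hF⟩
          subst hK
          exact win_of H (by push_cast; exact hT) (by norm_num [mw]) (by norm_num [mw])
            (by norm_num [mw]) (by norm_num [mw])
        · right
          refine ⟨?_, hF⟩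
          exact win_of H (by push_cast; exact hT)
            (by cases K <;> first | exact absurd rfl hK | norm_num [mw])
            (by cases K <;> first | exact absurd rfl hK | norm_num [mw])
            (by cases K <;> first | exact absurd rfl hK | norm_num [mw])
            (by cases K <;> first | exact absurd rfl hK | norm_num [mw]))
      (by push_cast; linarith only [hi]) (by push_cast; linarith only [hi])
    push_cast at this
    simp only [eT]
    linarith only [this]
  · simp only [hbox, pL] at a1 a2 hT hx
    have b1 := H.t0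
    have b3 : -(114 / 1000) ≤ t := le_trans (by cases K <;> norm_num [mw]) b1
    have hi := RH_im (v := v) (T := t) (a := -(114 / 1000)) (b := 5 / 1000)
      hv (by norm_num) (by norm_num) b3 tt1
    have := row_n k_gn k_g1 k_g2a k_g2c k_g2d k_g3 (m := m) (u := u) (v := v)
      (by push_cast; norm_num) (by norm_num) (by norm_num) hx1 (by push_cast; linarith only [hx])
      (by linarith only [h0, hx]) hu (by push_cast; linarith only [h0, hx, hT, a1]) (by push_cast; linarith only [h0, hx, hT, a2]) hs hr (by linarith only [hM])
      (by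
        intro h36
        obtain ⟨e, hF⟩ := hp h36
        rw [e]
        refine ⟨win_of H (by push_cast; exact hT) (by cases K <;> norm_num [mw])
          (by cases K <;> norm_num [mw]) (by cases K <;> norm_num [mw])
          (by cases K <;> norm_num [mw]), ?_⟩
        rcases hF with ⟨hK, hF⟩ | ⟨hK, hF⟩
        · left
          refine ⟨?_, hF⟩
          subst hK
          exact win_of H (by push_cast; exact hT) (by norm_num [mw]) (by norm_num [mw])
            (by norm_num [mw]) (by norm_num [mw])
        · right
          refine ⟨?_, hF⟩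
          exact win_of H (by push_cast; exact hT)
            (by cases K <;> first | exact absurd rfl hK | norm_num [mw])
            (by cases K <;> first | exact absurd rfl hK | norm_num [mw])
            (by cases K <;> first | exact absurd rfl hK | norm_num [mw])
            (by cases K <;> first | exact absurd rfl hK | norm_num [mw]))
      (by push_cast; linarith only [hi]) (by push_cast; linarith only [hi])
    push_cast at this
    simp only [eT]
    linarith only [this]
  · have a0 := H.TZ rfl
    simp only [hbox, pL] at a1 a2 hT hx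
    have b1 := H.t0
    have b3 : -(114 / 1000) ≤ t := le_trans (by cases K <;> norm_num [mw]) b1
    have hi := RH_im (v := v) (T := t) (a := -(114 / 1000)) (b := 5 / 1000)
      hv (by norm_num) (by norm_num) b3 tt1
    have := row_n k_zn k_z1 k_z2a k_z2c k_z2d k_z3 (m := m) (u := u) (v := v)
      (by push_cast; norm_num) (by norm_num) (by norm_num) hx1 (by push_cast; linarith only [hx])
      (by linarith only [h0, hx]) hu (by push_cast; linarith only [h0, hx, hT, a0]) (by push_cast; linarith only [hm]) hs hr (by linarith only [hM])
      (by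
        intro h36
        obtain ⟨e, hF⟩ := hp h36
        rw [e]
        refine ⟨win_of H (by push_cast; exact hT) (by cases K <;> norm_num [mw])
          (by cases K <;> norm_num [mw]) (by cases K <;> norm_num [mw])
          (by cases K <;> norm_num [mw]), ?_⟩
        rcases hF with ⟨hK, hF⟩ | ⟨hK, hF⟩
        · left
          refine ⟨?_, hF⟩
          subst hK
          exact win_of H (by push_cast; exact hT) (by norm_num [mw]) (by norm_num [mw])
            (by norm_num [mw]) (by norm_num [mw])
        · right
          refine ⟨?_, hF⟩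
          exact win_of H (by push_cast; exact hT)
            (by cases K <;> first | exact absurd rfl hK | norm_num [mw])
            (by cases K <;> first | exact absurd rfl hK | norm_num [mw])
            (by cases K <;> first | exact absurd rfl hK | norm_num [mw])
            (by cases K <;> first | exact absurd rfl hK | norm_num [mw]))
      (by push_cast; linarith only [hi]) (by push_cast; linarith only [hi])
    push_cast at this
    simp only [eT]
    linarith only [this]

end S0

end VL

end Pool.Agent.Work.MP_b30479_gt.G2
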