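import Pool.Agent.Work.MP_b30479_gt.G2.MLY
import Pool.Agent.Work.MP_b30479_gt.G2.WE3
import Pool.Agent.Work.MP_b30479_gt.G2.WLocA
import Pool.Agent.Work.MP_b30479_gt.G2.WRngL

/-!
# The left rounds
-/

namespace Pool.Agent.Work.MP_b30479_gt.G2

open Finset VOL Filter Topology

namespace SR

open ML

variable {M : ℕ} {b : Fin (M + 1) → ℤ} {zs : DD (tyW b) ⊕ ZZ (tyW b) → ℂ}
variable {y : DD (tyW b) ⊕ ZZ (tyW b) → ℝ}
variable {h h' h1 h2 : Fin M} {i j j' j1 j2 : Fin (M + 1)} {p : Fin 3}

/-! ### bounds for the interior regions with three crossings and for the rings -/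

/-- lower bounds (strict) of the side of an interior `3` in the round `n`; `p`: slot of the hinge,
`B`: the class across the hinge -/
noncomputable def e3T (n : ℕ) (p : Fin 3) (B : Cl) : ℝ :=
  match B with
  | .one => if p = 2 then (if n = 0 then -(255 / 1000) else if n = 1 then -(44 / 100)
      else -(285 / 1000)) else (if n = 0 then -(20 / 100) else -(295 / 1000))
  | .two => if p = 2 then (if n = 0 then -(10 / 100) else -(20 / 100)) else 10 / 100
  | .twoE => if p = 2 then 19 / 100 else 40 / 100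
  | .three => if p = 2 then -(5 / 100) else 5 / 100
  | .threeE => if p = 2 then 4 / 100 else 10 / 100
  | .ring => if p = 2 then (if n = 1 then 3 / 100 else -(10 / 100)) else 15 / 100

/-- lower bounds of the side of a ring in the round `n`; `B`: the class across the hinge, `x`: the
hinge, `T`: height of the saddle point in the own frame -/
noncomputable def eRT (n : ℕ) (B : Cl) (x T : ℝ) : ℝ :=
  match B with
  | .one => if n ≤ 1 then LR.eL0 x (T / (16 / 100)) else LR.eC x (T / (16 / 100))
  | _ => 18 / 100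

/-- the sides of the interior regions with three crossings in the round `n` with floors `F` -/
def ThreeSd (b : Fin (M + 1) → ℤ) (zs : DD (tyW b) ⊕ ZZ (tyW b) → ℂ)
    (y : DD (tyW b) ⊕ ZZ (tyW b) → ℝ) (n : ℕ) (F : Tab) : Prop :=
  ∀ {h : Fin M} {i j : Fin (M + 1)} {p : Fin 3}, Adj h i p j → clsW b i = .three →
    y (.inl (.inl h)) < F p .three (clsW b j) →
    e3T n p (clsW b j) < Sw b zs y i p ((zs (.inl (.inl h))).im / wcl b h) +
      shL .three (clsW b j) (y (.inl (.inl h))) * ofs (b i) ((zs (.inl (.inl h))).im / wcl b h)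

/-- the sides of the rings in the round `n` with floors `F` -/
def RingSd (b : Fin (M + 1) → ℤ) (zs : DD (tyW b) ⊕ ZZ (tyW b) → ℂ)
    (y : DD (tyW b) ⊕ ZZ (tyW b) → ℝ) (n : ℕ) (F : Tab) : Prop :=
  ∀ {h : Fin M} {i j : Fin (M + 1)} {p : Fin 3}, Adj h i p j → clsW b i = .ring →
    clsW b j ≠ .ring → y (.inl (.inl h)) < F p .ring (clsW b j) →
    eRT n (clsW b j) (y (.inl (.inl h))) (ofs (b i) (zs (.inl (.inl h))).im) ≤
      Sw b zs y i p ((zs (.inl (.inl h))).im / wcl b h) +
      shL (clsW b j) .ring (y (.inl (.inl h))) * ofs (b i) ((zs (.inl (.inl h))).im / wcl b h)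

/-! ### shifts -/

theorem shO_three (n : ℕ) (p : Fin 3) (x : ℝ) : shO n (k7 p .three) x = shL .one .three x := by
  unfold shL sh1
  rw [if_pos rfl]
  have : ∀ K : K7, K = .threeA ∨ K = .threeB → shO n K x = Real.pi - 9 / 2 * x := by
    rintro K (rfl | rfl) <;> rcases n with _ | _ | n <;> simp only [shO, cR] <;> push_cast <;> ring
  refine this _ ?_
  unfold k7
  simp only
  split_ifs
  · exact Or.inl rfl
  · exact Or.inr rfl

theorem shO_threeE (n : ℕ) (p : Fin 3) (x : ℝ) : shO n (k7 p .threeE) x = shL .one .threeE x := by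
  unfold shL sh1
  rw [if_pos rfl]
  rcases n with _ | _ | n <;> simp only [k7, shO, cR] <;> push_cast <;> ring

theorem shO_ring (n : ℕ) (p : Fin 3) (x : ℝ) : shO n (k7 p .ring) x = shL .one .ring x := by
  unfold shL sh1
  rw [if_pos rfl]
  rcases n with _ | _ | n <;> simp only [k7, shO, cR] <;> push_cast <;> ring

theorem shL_of_ne {A B : Cl} (hA : A ≠ .one) (hB : B ≠ .one) (x : ℝ) :
    shL A B x = Real.pi / 2 := by
  unfold shL
  rw [if_neg hA, if_neg hB]

/-! ### steps at the hinges of the regions with at least three crossings -/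

private theorem e02 : ((0 : Fin 3) = 2) ↔ False := by decide

private theorem e20 : ((2 : Fin 3) = 0) ↔ False := by decide

theorem p_rev (A : Adj h i p j) : (p = 2 ∧ p.rev = 0) ∨ (p = 0 ∧ p.rev = 2) := by
  cases A
  · exact Or.inl ⟨rfl, rfl⟩
  · exact Or.inr ⟨rfl, rfl⟩

/-- own side of a digit `1` in the round `n` -/
def OneSd (b : Fin (M + 1) → ℤ) (zs : DD (tyW b) ⊕ ZZ (tyW b) → ℂ)
    (y : DD (tyW b) ⊕ ZZ (tyW b) → ℝ) (n : ℕ) (h : Fin M) (i : Fin (M + 1)) (p : Fin 3)
    (j : Fin (M + 1)) : Prop :=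
  (eO n (k7 p (clsW b j)) : ℝ) / 1000 ≤ Sw b zs y i p ((zs (.inl (.inl h))).im / wcl b h) +
    shO n (k7 p (clsW b j)) (y (.inl (.inl h))) *
      ofs (b i) ((zs (.inl (.inl h))).im / wcl b h)

/-- own side of a digit `2` in the round `n` -/
def TwoSd (b : Fin (M + 1) → ℤ) (zs : DD (tyW b) ⊕ ZZ (tyW b) → ℂ)
    (y : DD (tyW b) ⊕ ZZ (tyW b) → ℝ) (n : ℕ) (h : Fin M) (i : Fin (M + 1)) (p : Fin 3) : Prop :=
  (if n = 0 then 1 / 10 else 2 / 10 : ℝ) ≤
    Sw b zs y i p ((zs (.inl (.inl h))).im / wcl b h) +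
      Real.pi / 2 * ofs (b i) ((zs (.inl (.inl h))).im / wcl b h)

/-- **A step next to an interior region with three crossings.** -/
theorem step_three (hb : ClassW b) (hL : Loc b zs) (hy : Mx b zs y)
    (hpos : ∀ h : Fin M, 0 < y (.inl (.inl h))) {n : ℕ} (hn : n ≤ 2) {F : Tab} (hF : TSym F)
    (hFw : ∀ h : Fin M, F 2 (clsW b h.castSucc) (clsW b h.succ) ≤ wcl b h)
    (S3 : ThreeSd b zs y n F) (A : Adj h i p j) (hr : rkC (clsW b i) ≤ rkC (clsW b j))
    (hj : clsW b j = .three) (hx : y (.inl (.inl h)) < F p (clsW b i) (clsW b j))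
    (hv : n = 2 → clsW b i = .one → p = 2 → F p .one .three ≤ y (.inl (.inl h))) (o1 : clsW b i = .one → OneSd b zs y n h i p j) (o2 : clsW b i = .two → TwoSd b zs y n h i p) :
    LStep b zs y h ((zs (.inl (.inl h))).im / wcl b h) := by
  have hx' : y (.inl (.inl h)) < F p.rev .three (clsW b i) := by
    have := hx
    rwa [← A.tab_symm hF b, hj] at this
  have hcl : y (.inl (.inl h)) ≤ wcl b h := by
    have := hFw h
    rw [← A.tab hF b] at this
    exact (hx.trans_le this).le
  have s3 := S3 A.symm hj hx'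
  rcases hi : clsW b i with _ | _ | _ | _ | _ | _
  · -- `1`
    have s1 := o1 hi
    unfold OneSd at s1
    rw [hj, shO_three] at s1
    rw [hi, shL_comm] at s3
    have hn2 : n = 2 → p ≠ 2 := by
      intro h1 h2
      have := hv h1 hi h2
      rw [hi, hj] at hx
      linarith only [hx, this]
    refine LStep.opp A hb (by rw [hi]; decide) ?_ s1 s3.le
    rcases p_rev A with ⟨rfl, h2⟩ | ⟨rfl, h2⟩ <;> rw [h2] <;> interval_cases n <;>
      first
      | exact absurd rfl (hn2 rfl)
      | norm_num [e3T, k7, eO, e02, e20]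
  · -- `2`
    have s1 := o2 hi
    unfold TwoSd at s1
    rw [hi, shL_of_ne (by decide) (by decide)] at s3
    refine (LStep.opp A hb (by rw [hi]; decide) ?_ s1 le_rfl)
    refine lt_of_le_of_lt ?_ (add_lt_add_of_le_of_lt le_rfl s3)
    rcases p_rev A with ⟨rfl, h2⟩ | ⟨rfl, h2⟩ <;> rw [h2] <;> interval_cases n <;>
      norm_num [e3T, e02, e20]
  · -- `2` at an end
    have s1 := A.twoE_L hb hL hy hpos hi (by rw [hj]; decide) hcl
    rw [hj] at s1
    rw [hi, shL_of_ne (by decide) (by decide)] at s3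
    refine (LStep.opp A hb (by rw [hi]; decide) ?_ s1 le_rfl)
    refine lt_of_le_of_lt ?_ (add_lt_add_of_le_of_lt le_rfl s3)
    rcases p_rev A with ⟨rfl, h2⟩ | ⟨rfl, h2⟩ <;> rw [h2] <;>
      norm_num [e3T, k7, eE2, e02, e20]
  · -- `3`
    have hx'' := hx
    rw [hi, hj] at hx''
    have s1 := S3 A hi (by rw [hj]; exact hx'')
    rw [hj, shL_of_ne (by decide) (by decide)] at s1
    rw [hi, shL_of_ne (by decide) (by decide)] at s3
    refine (LStep.opp A hb (c := Real.pi / 2) (by rw [hi]; decide) ?_ le_rfl le_rfl)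
    refine lt_of_le_of_lt ?_ (add_lt_add s1 s3)
    rcases p_rev A with ⟨rfl, h2⟩ | ⟨rfl, h2⟩ <;> rw [h2] <;> norm_num [e3T, e02, e20]
  all_goals
    rw [hi, hj] at hr
    exact absurd hr (by decide)

/-- **A step next to an end with three crossings.** -/
theorem step_threeE (hb : ClassW b) (hL : Loc b zs) (hC : Crit b zs) (hy : Mx b zs y)
    (hpos : ∀ h : Fin M, 0 < y (.inl (.inl h))) {n : ℕ} (hn : n ≤ 2) {F : Tab} (hF : TSym F)
    (hFw : ∀ h : Fin M, F 2 (clsW b h.castSucc) (clsW b h.succ) ≤ wcl b h)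
    (hF0 : n = 0 → ∀ p, F p .one .threeE ≤ 7 / 100)
    (S3 : ThreeSd b zs y n F) (A : Adj h i p j) (hr : rkC (clsW b i) ≤ rkC (clsW b j))
    (hj : clsW b j = .threeE) (hx : y (.inl (.inl h)) < F p (clsW b i) (clsW b j))
    (o1 : clsW b i = .one → OneSd b zs y n h i p j) (o2 : clsW b i = .two → TwoSd b zs y n h i p) :
    LStep b zs y h ((zs (.inl (.inl h))).im / wcl b h) := by
  have hcl : y (.inl (.inl h)) ≤ wcl b h := by
    have := hFw h
    rw [← A.tab hF b] at this
    exact (hx.trans_le this).le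
  have s3 := threeE_L hb hL hC hy hpos A.symm hj hcl
  rw [hj] at s3
  rcases hi : clsW b i with _ | _ | _ | _ | _ | _
  · -- `1`
    have s1 := o1 hi
    unfold OneSd at s1
    rw [hj, shO_threeE] at s1
    rw [hi, shL_comm] at s3
    rcases Nat.eq_zero_or_pos n with h0 | h0
    · have hx7 : y (.inl (.inl h)) ≤ 7 / 100 := by
        have := hx
        rw [hi, hj] at this
        exact (this.trans_le (hF0 h0 p)).le
      have s4 := threeE_L0 hb hL hC hy hpos A.symm hj hi hx7
      rw [hj, hi, shL_comm] at s4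
      refine LStep.opp A hb (by rw [hi]; decide) ?_ s1 s4.le
      subst h0
      unfold k7
      simp only [eO]
      norm_num
    · refine LStep.opp A hb (by rw [hi]; decide) ?_ s1 s3.le
      unfold b3E k7
      interval_cases n <;> simp only [eO] <;> norm_num
  · -- `2`
    have s1 := o2 hi
    unfold TwoSd at s1
    rw [hi, shL_of_ne (by decide) (by decide)] at s3
    refine LStep.opp A hb (by rw [hi]; decide) ?_ s1 s3.le
    unfold b3E
    split_ifs <;> norm_num
  · -- `2` at an end
    have s1 := A.twoE_L hb hL hy hpos hi (by rw [hj]; decide) hcl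
    rw [hj] at s1
    rw [hi, shL_of_ne (by decide) (by decide)] at s3
    refine LStep.opp A hb (by rw [hi]; decide) ?_ s1 s3.le
    unfold b3E k7
    simp only [eE2]
    norm_num
  · -- `3`
    have hx'' := hx
    rw [hi, hj] at hx''
    have s1 := S3 A hi (by rw [hj]; exact hx'')
    rw [hj, shL_of_ne (by decide) (by decide)] at s1
    rw [hi, shL_of_ne (by decide) (by decide)] at s3
    refine (LStep.opp A hb (c := Real.pi / 2) (by rw [hi]; decide) ?_ le_rfl le_rfl)
    refine lt_of_le_of_lt ?_ (add_lt_add s1 s3)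
    rcases p_rev A with ⟨rfl, h2⟩ | ⟨rfl, h2⟩ <;> rw [h2] <;> norm_num [e3T, b3E, e02, e20]
  · -- `3` at an end
    have s1 := threeE_L hb hL hC hy hpos A hi hcl
    rw [hi, hj, shL_of_ne (by decide) (by decide)] at s1
    rw [hi, shL_of_ne (by decide) (by decide)] at s3
    refine LStep.opp A hb (by rw [hi]; decide) ?_ s1.le s3.le
    unfold b3E
    norm_num
  · rw [hi, hj] at hr
    exact absurd hr (by decide)

theorem eRT_one {n : ℕ} (hn : n ≤ 2) {p : Fin 3} {x T : ℝ} (h0 : 0 < x)
    (hx : x < if n = 0 then 7 / 100 else if n = 1 then 12 / 100 else 145 / 1000) :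
    0 < (eO n (k7 p .ring) : ℝ) / 1000 + eRT n .one x T := by
  unfold eRT k7 LR.eL0 LR.eC
  simp only
  interval_cases n
  · norm_num [eO] at hx ⊢
    split_ifs
    · rw [← sub_lt_iff_lt_add', lt_min_iff]
      constructor <;> linarith only [h0, hx]
    · linarith only [h0, hx]
  · norm_num [eO] at hx ⊢
    split_ifs
    · rw [← sub_lt_iff_lt_add', lt_min_iff]
      constructor <;> linarith only [h0, hx]
    · linarith only [h0, hx]
  · norm_num [eO] at hx ⊢
    split_ifs
    · rw [← sub_lt_iff_lt_add', lt_min_iff]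
      constructor <;> linarith only [h0, hx]
    · rw [← sub_lt_iff_lt_add', lt_min_iff]
      constructor <;> linarith only [h0, hx]

/-- **A step next to a ring.** -/
theorem step_ring (hb : ClassW b) (hL : Loc b zs) (hC : Crit b zs) (hy : Mx b zs y)
    (hpos : ∀ h : Fin M, 0 < y (.inl (.inl h))) {n : ℕ} (hn : n ≤ 2) {F : Tab} (hF : TSym F)
    (hFw : ∀ h : Fin M, F 2 (clsW b h.castSucc) (clsW b h.succ) ≤ wcl b h)
    (hF0 : ∀ p, F p .one .ring ≤ if n = 0 then 7 / 100 else if n = 1 then 12 / 100 else 145 / 1000)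
    (hFR : ∀ p, F p .ring .ring ≤ 10 / 100)
    (hZZ : ∀ {h : Fin M} {i j : Fin (M + 1)} {p : Fin 3}, Adj h i p j → clsW b i = .ring →
      clsW b j = .ring → 10 / 100 ≤ y (.inl (.inl h)))
    (S3 : ThreeSd b zs y n F) (SR : RingSd b zs y n F) (A : Adj h i p j)
    (hj : clsW b j = .ring) (hx : y (.inl (.inl h)) < F p (clsW b i) (clsW b j))
    (o1 : clsW b i = .one → OneSd b zs y n h i p j) (o2 : clsW b i = .two → TwoSd b zs y n h i p) :
    LStep b zs y h ((zs (.inl (.inl h))).im / wcl b h) := by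
  have hcl : y (.inl (.inl h)) ≤ wcl b h := by
    have := hFw h
    rw [← A.tab hF b] at this
    exact (hx.trans_le this).le
  have hx' : y (.inl (.inl h)) < F p.rev .ring (clsW b i) := by
    have := hx
    rwa [← A.tab_symm hF b, hj] at this
  by_cases hir : clsW b i = .ring
  · exfalso
    rw [hir, hj] at hx
    linarith [hFR p, hZZ A hir hj]
  have s3 := SR A.symm hj hir hx'
  rcases hi : clsW b i with _ | _ | _ | _ | _ | _
  · -- `1`
    have s1 := o1 hi
    unfold OneSd at s1
    rw [hj, shO_ring] at s1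
    rw [hi] at s3
    refine LStep.opp A hb (by rw [hi]; decide) ?_ s1 s3
    have h0 := hF0 p
    rw [hi, hj] at hx
    exact eRT_one hn (hpos h) (hx.trans_le h0)
  · -- `2`
    have s1 := o2 hi
    unfold TwoSd at s1
    rw [hi, shL_of_ne (by decide) (by decide)] at s3
    refine LStep.opp A hb (by rw [hi]; decide) ?_ s1 s3
    unfold eRT
    split_ifs <;> norm_num
  · -- `2` at an end
    have s1 := A.twoE_L hb hL hy hpos hi (by rw [hj]; decide) hcl
    rw [hj] at s1
    rw [hi, shL_of_ne (by decide) (by decide)] at s3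
    refine LStep.opp A hb (by rw [hi]; decide) ?_ s1 s3
    unfold eRT k7
    simp only [eE2]
    norm_num
  · -- `3`
    have hx'' := hx
    rw [hi, hj] at hx''
    have s1 := S3 A hi (by rw [hj]; exact hx'')
    rw [hj, shL_of_ne (by decide) (by decide)] at s1
    rw [hi, shL_of_ne (by decide) (by decide)] at s3
    refine (LStep.opp A hb (by rw [hi]; decide) ?_ le_rfl s3)
    refine lt_of_le_of_lt ?_ (add_lt_add_of_lt_of_le s1 le_rfl)
    rcases p_rev A with ⟨rfl, -⟩ | ⟨rfl, -⟩ <;> interval_cases n <;>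
      norm_num [e3T, eRT, e02, e20]
  · -- `3` at an end
    have s1 := threeE_L hb hL hC hy hpos A hi hcl
    rw [hi, hj, shL_of_ne (by decide) (by decide)] at s1
    rw [hi, shL_of_ne (by decide) (by decide)] at s3
    refine LStep.opp A hb (by rw [hi]; decide) ?_ s1.le s3
    unfold b3E eRT
    norm_num
  · exact absurd hi hir

/-! ### the sides of the rings -/

theorem shL_ring (x : ℝ) : shL .one .ring x = Real.pi - 6 * x := by
  unfold shL sh1
  rw [if_pos rfl]

/-- the side of a ring in the first rounds -/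
theorem ringSd_lo (hb : ClassW b) (H : LocA b zs) (hy : Mx b zs y)
    (hpos : ∀ h : Fin M, 0 < y (.inl (.inl h))) {n : ℕ} (hn : n ≤ 1) {F : Tab}
    (hF : TSym F) (hFw : ∀ h : Fin M, F 2 (clsW b h.castSucc) (clsW b h.succ) ≤ wcl b h)
    (hF1 : ∀ p, F p .ring .one ≤ 12 / 100)
    (hF2 : ∀ p B, B ≠ .one → B ≠ .ring → F p .ring B ≤ 125 / 1000) : RingSd b zs y n F := by
  intro h i j p A hc hj hx
  by_cases hj1 : clsW b j = .one
  · rw [hj1] at hx ⊢
    rw [shL_ring]
    have := A.ring_L_one hb H.L H.X H.R hy hc hj1 (hpos h) (hx.le.trans (hF1 p))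
    unfold eRT
    rw [if_pos hn]
    exact this
  · have hcl : y (.inl (.inl h)) ≤ wcl b h := by
      have := hFw h
      rw [← A.tab hF b, hc] at this
      exact (hx.trans_le this).le
    rw [shL_of_ne hj1 (by decide)]
    have := A.ring_L_lo hb H.L H.X H.R hy hc hj1 hj (hpos h) hcl (hx.le.trans (hF2 p _ hj1 hj))
    rcases hj3 : clsW b j with _ | _ | _ | _ | _ | _ <;>
      first | exact absurd hj3 hj1 | exact absurd hj3 hj | exact this

/-- the side of a ring in the round `L2` -/
theorem ringSd_hi (hb : ClassW b) (H : LocA b zs) (hy : Mx b zs y)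
    (hpos : ∀ h : Fin M, 0 < y (.inl (.inl h)))
    (hC : ∀ {h : Fin M} {i j : Fin (M + 1)} {p : Fin 3}, Adj h i p j → clsW b i = .ring →
      y (.inl (.inl h)) ≤ 36 / 100) : RingSd b zs y 2 F2 := by
  intro h i j p A hc hj hx
  by_cases hj1 : clsW b j = .one
  · rw [hj1] at hx ⊢
    rw [shL_ring]
    have := A.ring_LC_one hb H.L H.X H.R hy hc hj1 (hpos h) (by simp only [F2] at hx; linarith only [hx])
      (fun A' => hC A' hc)
    unfold eRT
    rw [if_neg (by norm_num)]
    exact this
  · have hcl : y (.inl (.inl h)) ≤ wcl b h := by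
      have := F2_wcl (b := b) h
      rw [← A.tab F2_sym b, hc] at this
      exact (hx.trans_le this).le
    rw [shL_of_ne hj1 (by decide)]
    have := A.ring_LC_lo hb H.L H.X H.R hy hc hj1 hj (hpos h) hcl
      (fun A' => (hC A' hc).trans (by norm_num))
    refine le_trans ?_ this
    rcases hj3 : clsW b j with _ | _ | _ | _ | _ | _
    · exact absurd hj3 hj1
    all_goals norm_num [eRT]

/-! ### the rounds -/

/-- the classes larger than the digits `1`, `2` -/
theorem Cl.cases_big (A : Cl) : A.small ∨ A = .three ∨ A = .threeE ∨ A = .ring := by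
  cases A <;> simp [Cl.small]

/-- **The round `L0`.** -/
theorem left_0 (hb : ClassW b) (H : LocA b zs) (hy : Mx b zs y)
    (hpos : ∀ h : Fin M, 0 < y (.inl (.inl h))) (S3 : ThreeSd b zs y 0 F0) : Flr b y F0 := by
  have hZZ : ∀ {h : Fin M} {i j : Fin (M + 1)} {p : Fin 3}, Adj h i p j → clsW b i = .ring →
      clsW b j = .ring → 10 / 100 ≤ y (.inl (.inl h)) := by
    intro h i j p A hc hj
    have := rr_floor hb H.L H.X H.R hy hpos A hc hj
    linarith only [this]
  have SR : RingSd b zs y 0 F0 := by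
    refine ringSd_lo hb H hy hpos (by norm_num) F0_sym (fun h => F0_wcl h) ?_ ?_
    · intro p
      norm_num [F0]
    · intro p B h1 h2
      cases B <;> first | exact absurd rfl h1 | exact absurd rfl h2 | norm_num [F0]
  intro _ _ _ _ A0
  refine left_round hb hy hpos F0_sym F0_pos (fun h => F0_wcl h) ?_ A0
  clear A0
  intro h i j p A hr hx ho
  have o1 : clsW b i = .one → OneSd b zs y 0 h i p j := by
    intro hi
    obtain ⟨h1, j1, A1⟩ := A.other_one hb hi
    exact A.one_L0 A1 hb H.X hy hpos hi hx (ho A1)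
  have o2 : clsW b j ≠ .one → clsW b i = .two → TwoSd b zs y 0 h i p := by
    intro hj hi
    obtain ⟨h1, j1, A1⟩ := A.other' b (clsW_inner hb (Or.inr (Or.inl hi)))
    have := A.two_L0 A1 hb H.L hy hpos hi hj (by
      rw [hi, F0_two p hj] at hx
      exact hx.le)
    unfold TwoSd
    rw [if_pos rfl]
    exact this
  rcases (clsW b j).cases_big with hj | hj | hj | hj
  · exact step_L0 hb H.L H.X hy hpos A hr hj hx ho
  · exact step_three hb H.L hy hpos (by norm_num) F0_sym (fun h => F0_wcl h) S3 A hr hj hx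
      (fun h0 => absurd h0 (by norm_num)) o1 (o2 (by rw [hj]; decide))
  · refine step_threeE hb H.L H.C hy hpos (by norm_num) F0_sym (fun h => F0_wcl h) ?_ S3 A hr hj hx
      o1 (o2 (by rw [hj]; decide))
    intro _ p
    simp only [F0]
    norm_num
  · refine step_ring hb H.L H.C hy hpos (by norm_num) F0_sym (fun h => F0_wcl h) ?_ ?_ hZZ S3 SR A hj
      hx o1 (o2 (by rw [hj]; decide))
    · intro p
      simp only [F0, if_true]
      norm_num
    · intro p
      simp only [F0]
      norm_num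

/-- **The round `L1`.** -/
theorem left_1 (hb : ClassW b) (H : LocA b zs) (hy : Mx b zs y)
    (hpos : ∀ h : Fin M, 0 < y (.inl (.inl h))) (hF : Flr b y F0) (hC : Cap b y C1)
    (S3 : ThreeSd b zs y 1 F1) : Flr b y F1 := by
  have hZZ : ∀ {h : Fin M} {i j : Fin (M + 1)} {p : Fin 3}, Adj h i p j → clsW b i = .ring →
      clsW b j = .ring → 10 / 100 ≤ y (.inl (.inl h)) := by
    intro h i j p A hc hj
    have := rr_floor hb H.L H.X H.R hy hpos A hc hj
    linarith only [this]
  have SR : RingSd b zs y 1 F1 := by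
    refine ringSd_lo hb H hy hpos le_rfl F1_sym (fun h => F1_wcl h) ?_ ?_
    · intro p
      norm_num [F1]
    · intro p B h1 h2
      cases B <;> first | exact absurd rfl h1 | exact absurd rfl h2 | (simp only [F1]; try split_ifs) <;> norm_num
  intro _ _ _ _ A0
  refine left_round hb hy hpos F1_sym F1_pos (fun h => F1_wcl h) ?_ A0
  clear A0
  intro h i j p A hr hx ho
  have hcl : y (.inl (.inl h)) ≤ wcl b h := by
    have := F1_wcl (b := b) h
    rw [← A.tab F1_sym b] at this
    exact (hx.trans_le this).le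
  have o1 : clsW b i = .one → OneSd b zs y 1 h i p j := by
    intro hi
    obtain ⟨h1, j1, A1⟩ := A.other_one hb hi
    have c1 := hC A1
    rw [hi] at c1
    exact A.one_L1 A1 hb H.X hy hpos hF hi (c1.trans (C1_one _ _ _)) hx (ho A1)
  have two_y : ∀ {h' : Fin M} {i j' : Fin (M + 1)} {q : Fin 3}, Adj h' i q j' → clsW b i = .two →
      70 / 1000 ≤ y (.inl (.inl h')) ∧ y (.inl (.inl h')) ≤ 56 / 100 := by
    intro h' i j' q A' hi
    have g1 := hF A'
    have g2 := hC A'
    rw [hi] at g1 g2
    rw [C1_two] at g2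
    refine ⟨le_trans ?_ g1, g2⟩
    cases clsW b j' <;> simp only [F0] <;> norm_num
  have o2 : clsW b j ≠ .one → clsW b i = .two → TwoSd b zs y 1 h i p := by
    intro hj hi
    obtain ⟨h1, j1, A1⟩ := A.other' b (clsW_inner hb (Or.inr (Or.inl hi)))
    have := A.two_L1 A1 hb H.L hy hpos hi hj (two_y A hi).1 hcl (two_y A1 hi).1 (two_y A1 hi).2
    unfold TwoSd
    rw [if_neg (by norm_num)]
    exact this
  rcases (clsW b j).cases_big with hj | hj | hj | hj
  · exact step_L1 hb H.L H.X hy hpos hF hC A hr hj hx ho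
  · exact step_three hb H.L hy hpos (by norm_num) F1_sym (fun h => F1_wcl h) S3 A hr hj hx
      (fun h0 => absurd h0 (by norm_num)) o1 (o2 (by rw [hj]; decide))
  · exact step_threeE hb H.L H.C hy hpos (by norm_num) F1_sym (fun h => F1_wcl h)
      (fun h0 => absurd h0 (by norm_num)) S3 A hr hj hx o1 (o2 (by rw [hj]; decide))
  · refine step_ring hb H.L H.C hy hpos (by norm_num) F1_sym (fun h => F1_wcl h) ?_ ?_ hZZ S3 SR A hj
      hx o1 (o2 (by rw [hj]; decide))
    · intro p
      simp only [F1]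
      norm_num
    · intro p
      simp only [F1]
      norm_num

/-- **The round `L2`.** -/
theorem left_2 (hb : ClassW b) (H : LocA b zs) (hy : Mx b zs y)
    (hpos : ∀ h : Fin M, 0 < y (.inl (.inl h))) (hF : Flr b y F1) (hC : Cap b y C2)
    (hR : ∀ {h : Fin M} {i j : Fin (M + 1)} {p : Fin 3}, Adj h i p j → clsW b i = .ring →
      y (.inl (.inl h)) ≤ 36 / 100)
    (S3 : ThreeSd b zs y 2 F2) : Flr b y F2 := by
  have SR : RingSd b zs y 2 F2 := ringSd_hi hb H hy hpos hR
  intro _ _ _ _ A0
  refine left_round hb hy hpos F2_sym F2_pos (fun h => F2_wcl h) ?_ A0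
  clear A0
  intro h i j p A hr hx ho
  have hcl : y (.inl (.inl h)) ≤ wcl b h := by
    have := F2_wcl (b := b) h
    rw [← A.tab F2_sym b] at this
    exact (hx.trans_le this).le
  have o1 : clsW b i = .one → OneSd b zs y 2 h i p j := by
    intro hi
    obtain ⟨h1, j1, A1⟩ := A.other_one hb hi
    have c1 := hC A1
    rw [hi] at c1
    exact A.one_L2 A1 hb H.X hy hpos hF hi (c1.trans (C2_one _ _ _)) hx (ho A1)
  have two_y : ∀ {h' : Fin M} {i j' : Fin (M + 1)} {q : Fin 3}, Adj h' i q j' → clsW b i = .two →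
      70 / 1000 ≤ y (.inl (.inl h')) ∧ y (.inl (.inl h')) ≤ 56 / 100 := by
    intro h' i j' q A' hi
    have g1 := hF A'
    have g2 := hC A'
    rw [hi] at g1 g2
    rw [C2_two] at g2
    refine ⟨le_trans ?_ g1, g2⟩
    cases clsW b j' <;> simp only [F1] <;> (try split_ifs) <;> norm_num
  have o2 : clsW b j ≠ .one → clsW b i = .two → TwoSd b zs y 2 h i p := by
    intro hj hi
    obtain ⟨h1, j1, A1⟩ := A.other' b (clsW_inner hb (Or.inr (Or.inl hi)))
    have := A.two_L1 A1 hb H.L hy hpos hi hj (two_y A hi).1 hcl (two_y A1 hi).1 (two_y A1 hi).2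
    unfold TwoSd
    rw [if_neg (by norm_num)]
    exact this
  rcases (clsW b j).cases_big with hj | hj | hj | hj
  · exact step_L2 hb H.L H.X hy hpos hF hC A hr hj hx ho
  · refine step_three hb H.L hy hpos (by norm_num) F2_sym (fun h => F2_wcl h) S3 A hr hj hx
      ?_ o1 (o2 (by rw [hj]; decide))
    intro _ hi hp
    have := hF A
    rw [hi, hj, hp] at this
    rw [hp]
    simpa only [F1, F2, e20, if_false] using this
  · exact step_threeE hb H.L H.C hy hpos (by norm_num) F2_sym (fun h => F2_wcl h)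
      (fun h0 => absurd h0 (by norm_num)) S3 A hr hj hx o1 (o2 (by rw [hj]; decide))
  · refine step_ring hb H.L H.C hy hpos (by norm_num) F2_sym (fun h => F2_wcl h) ?_ ?_ ?_ S3 SR A hj
      hx o1 (o2 (by rw [hj]; decide))
    · intro p
      simp only [F2]
      norm_num
    · intro p
      simp only [F2]
      norm_num
    · intro h i j p A hi hj
      have := hF A
      rw [hi, hj] at this
      simp only [F1] at this
      linarith only [this]

end SR

end Pool.Agent.Work.MP_b30479_gt.G2
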