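import Pool.Agent.Work.MP_b30479_gt.G2.V30N
import Pool.Agent.Work.MP_b30479_gt.G2.WChL

/-!
# The slot-0 half of the sides of the interior regions with three crossings in the left rounds
-/

namespace Pool.Agent.Work.MP_b30479_gt.G2

open Finset VOL

namespace SR

open ML

variable {M : ℕ} {b : Fin (M + 1) → ℤ} {zs : DD (tyW b) ⊕ ZZ (tyW b) → ℂ}
variable {y : DD (tyW b) ⊕ ZZ (tyW b) → ℝ}
variable {h : Fin M} {i j : Fin (M + 1)}

/-- **The slot-0 half of `ThreeSd`.** -/
theorem three_L0side (hb : ClassW b) (hL : Loc b zs) (hX : LocX b zs) (hy : Mx b zs y)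
    (hpos : ∀ h : Fin M, 0 < y (.inl (.inl h))) {n : ℕ} {F : Tab} (hF : TSym F)
    (hFw : ∀ h : Fin M, F 2 (clsW b h.castSucc) (clsW b h.succ) ≤ wcl b h)
    (h7 : n = 0 → F 0 .three .one ≤ 7 / 100)
    (hcap : ∀ {h' : Fin M} {i k : Fin (M + 1)}, Adj h' i 2 k → clsW b i = .three →
      y (.inl (.inl h')) ≤ VL.cpR (clsW b k))
    (A : Adj h i 0 j) (hc : clsW b i = .three) (hx : y (.inl (.inl h)) < F 0 .three (clsW b j)) :
    e3T n 0 (clsW b j) < Sw b zs y i 0 ((zs (.inl (.inl h))).im / wcl b h) +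
      shL .three (clsW b j) (y (.inl (.inl h))) * ofs (b i) ((zs (.inl (.inl h))).im / wcl b h) := by
  have hcl : y (.inl (.inl h)) ≤ wcl b h := by
    have := hFw h
    rw [← A.tab hF b, hc] at this
    exact (hx.trans_le this).le
  obtain ⟨h', k, A'⟩ := A.other' b (clsW_inner hb (Or.inr (Or.inr hc)))
  obtain ⟨s1, s2⟩ := three_side0 hb hL hX hy hpos A A' hc hcl (hcap A' hc)
  by_cases hj : clsW b j = .one
  · obtain ⟨s3, s4⟩ := s2 hj
    have e : shL .three (clsW b j) (y (.inl (.inl h))) = Real.pi - 9 / 2 * y (.inl (.inl h)) := by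
      rw [hj, shL_comm]
      unfold shL sh1
      rw [if_pos rfl]
    rw [e]
    rcases Nat.eq_zero_or_pos n with h0 | h0
    · have h9 := s3 (by
        rw [hj] at hx
        linarith [h7 h0])
      refine lt_of_le_of_lt ?_ h9
      rw [hj, h0]
      have e02 : ((0 : Fin 3) = 2) ↔ False := by decide
      norm_num [e3T, e02]
    · refine lt_of_le_of_lt ?_ s4
      have : n ≠ 0 := h0.ne'
      rw [hj]
      have e02 : ((0 : Fin 3) = 2) ↔ False := by decide
      simp only [e3T, e02, if_false, this]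
      norm_num
  · rw [shL_of_ne (by decide) hj]
    refine lt_of_le_of_lt ?_ (s1 hj)
    rcases hj' : clsW b j with _ | _ | _ | _ | _ | _
    · exact absurd hj' hj
    all_goals
      simp only [e3T, VL.S0.eT]
      exact le_rfl

end SR

end Pool.Agent.Work.MP_b30479_gt.G2
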