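import Pool.Agent.Work.MP_b30479_gt.G2.WVal
import Pool.Agent.Work.NumU.Expr

/-!
# A hinge between two inner digits `3`, right ramp: parts and expressions

`x` the position of the hinge, `T` its height in the own frame, `r + y i` the inner variable (of
the left digit in `s2`, of the right digit in `s3`), `t` its height, `w + h i` the hinge in slot 2
of the right digit.
-/

namespace Pool.Agent.Work.MP_b30479_gt.G2

open VOL NumU

namespace VL

namespace S33

/-- height of the hinge -/
noncomputable def hR (x T : ℝ) : ℝ := T * (100 / 30 * (60 / 100 - x))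

/-- slope of the hinge -/
noncomputable def mR (T : ℝ) : ℝ := -100 / 30 * T

/-- the bound of the side of the right digit -/
noncomputable def bb (x T : ℝ) : ℝ :=
  54 / 100 + 58 / 10 * T + (x - 39 / 100) * (1148 / 1000 + 34 * T)

noncomputable def b2 (x T r y : ℝ) : ℝ :=
  Real.pi * (y - hR x T) - 2 * NumI.lnA x (hR x T) +
    mR T * (Real.pi * (r - x - 1 / 2) + 2 * NumI.lnB x (hR x T))

noncomputable def s2x (x T r y : ℝ) : ℝ :=
  b2 x T r y + (NumI.lnA (x + r) (hR x T + y) - mR T * NumI.lnB (x + r) (hR x T + y))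

noncomputable def s2n (σ x T r y : ℝ) : ℝ :=
  b2 x T r y + (NumI.lnA (1 / 6) (hR x T + y) + mR T * (σ * Real.pi))

noncomputable def s2b (σ x T r y : ℝ) : ℝ :=
  b2 x T r y + (NumI.lnA (x + r - 1) (hR x T + y) +
    mR T * (σ * Real.pi - NumI.lnB (x + r - 1) (hR x T + y)))

noncomputable def b3 (x T r y : ℝ) : ℝ :=
  -(Real.pi * y + NumI.lnA x (hR x T)) + mR T * (NumI.lnB x (hR x T) - Real.pi * r)

noncomputable def s3l (σ x T r y : ℝ) : ℝ :=
  b3 x T r y + (NumI.lnA (x - r) (hR x T - y) +
    mR T * (σ * Real.pi - NumI.lnB (x - r) (hR x T - y)))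

noncomputable def s3r (x T r y : ℝ) : ℝ :=
  b3 x T r y + (NumI.lnA (r - x) (y - hR x T) - mR T * NumI.lnB (r - x) (y - hR x T))

noncomputable def s3n (σ x T r y : ℝ) : ℝ :=
  b3 x T r y + (NumI.lnA (1 / 6) (y - hR x T) + mR T * (σ * Real.pi))

/-- the part of the value without the hinge in slot 2 -/
noncomputable def d0 (c x T r y t : ℝ) : ℝ :=
  Real.pi * ((1 / 2 - x) * (t - y) - hR x T * (c - r) - (c * t - r * y)) -
    uu (c - x) (t - hR x T) - (uu (x - r) (hR x T - y) + Real.pi * (hR x T - y))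

/-- the part of the value with the hinge in slot 2 -/
noncomputable def g0 (c r y t w h : ℝ) : ℝ :=
  Real.pi * (h * (c - r) + w * (t - y)) + uu (c + w) (t + h) - uu c t - uu (r + w) (y + h) +
    uu r y

/-- the limit between them -/
noncomputable def gg (r : ℝ) : ℝ := 34 / 1000 + 36 / 100 * r

/-- the value after a move of the inner variable -/
theorem V3_dif {u v v' w : ℂ} : V3 u v' w - V3 u v w =
    Real.pi * ((1 / 2 - u.re) * (v'.im - v.im) - u.im * (v'.re - v.re) -
      (v'.re * v'.im - v.re * v.im)) - uu (v'.re - u.re) (v'.im - u.im) +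
      uu (v.re - u.re) (v.im - u.im) + g0 v'.re v.re v.im v'.im w.re w.im := by
  have e1 : ∀ v : ℂ, (2 * u * v + (v - w) ^ 2 - v + w).im =
      2 * (u.re * v.im + u.im * v.re) + 2 * (v.re - w.re) * (v.im - w.im) - v.im + w.im := by
    intro v
    simp only [pow_two, Complex.add_im, Complex.sub_im, Complex.sub_re, Complex.mul_im,
      Complex.mul_re, Complex.re_ofNat, Complex.im_ofNat]
    ring
  unfold V3 g0
  rw [e1, e1, UU_uu (v' + w), UU_uu (v' - u), UU_uu v', UU_uu (v + w), UU_uu (v - u), UU_uu v]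
  simp only [Complex.add_re, Complex.add_im, Complex.sub_re, Complex.sub_im]
  ring

section
open NumU.E

def eH (x T : E) : E := mul T (mul (q 100 30) (sub (q 60 100) x))

def eM (T : E) : E := mul (q (-100) 30) T

def eB (x T : E) : E := add (add (q 54 100) (mul (q 58 10) T))
  (mul (sub x (q 39 100)) (add (q 1148 1000) (mul (q 34 1) T)))

def eB' (x T : E) : E := neg (add (sub (q 54 100) (mul (q 58 10) T))
  (mul (sub x (q 39 100)) (sub (q 1148 1000) (mul (q 34 1) T))))

def e2 (x T r y : E) : E := add (sub (mul E.pi (sub y (eH x T))) (mul (q 2 1) (E.lnA x (eH x T))))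
  (mul (eM T) (add (mul E.pi (sub (sub r x) (q 1 2))) (mul (q 2 1) (E.lnB x (eH x T)))))

def e2x (x T r y : E) : E := add (e2 x T r y) (sub (E.lnA (add x r) (add (eH x T) y))
  (mul (eM T) (E.lnB (add x r) (add (eH x T) y))))

def e2n (σ : ℤ) (x T r y : E) : E := add (e2 x T r y) (add (E.lnA (q 1 6) (add (eH x T) y))
  (mul (eM T) (mul (q σ 1) E.pi)))

def e2b (σ : ℤ) (x T r y : E) : E := add (e2 x T r y)
  (add (E.lnA (sub (add x r) (q 1 1)) (add (eH x T) y))
    (mul (eM T) (sub (mul (q σ 1) E.pi) (E.lnB (sub (add x r) (q 1 1)) (add (eH x T) y)))))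

def e3 (x T r y : E) : E := add (neg (add (mul E.pi y) (E.lnA x (eH x T))))
  (mul (eM T) (sub (E.lnB x (eH x T)) (mul E.pi r)))

def e3l (σ : ℤ) (x T r y : E) : E := add (e3 x T r y)
  (add (E.lnA (sub x r) (sub (eH x T) y))
    (mul (eM T) (sub (mul (q σ 1) E.pi) (E.lnB (sub x r) (sub (eH x T) y)))))

def e3r (x T r y : E) : E := add (e3 x T r y) (sub (E.lnA (sub r x) (sub y (eH x T)))
  (mul (eM T) (E.lnB (sub r x) (sub y (eH x T)))))

def e3n (σ : ℤ) (x T r y : E) : E := add (e3 x T r y) (add (E.lnA (q 1 6) (sub y (eH x T)))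
  (mul (eM T) (mul (q σ 1) E.pi)))

def eD (c x T r y t : E) : E := sub (sub (mul E.pi (sub (sub (mul (sub (q 1 2) x) (sub t y))
  (mul (eH x T) (sub c r))) (sub (mul c t) (mul r y)))) (E.uu (sub c x) (sub t (eH x T))))
  (add (E.uu (sub x r) (sub (eH x T) y)) (mul E.pi (sub (eH x T) y)))

def eG (c r y t w h : E) : E := add (sub (sub (add (mul E.pi (add (mul h (sub c r))
  (mul w (sub t y)))) (E.uu (add c w) (add t h))) (E.uu c t)) (E.uu (add r w) (add y h)))
  (E.uu r y)

def eg (r : E) : E := add (q 34 1000) (mul (q 36 100) r)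

/-- height of the inner variable on its left ramp -/
def yl (t r : E) : E := mul (q 20 1) (mul t r)

/-- height of the inner variable on its right ramp -/
def yr (t r : E) : E := mul t (mul (q 20 1) (sub (q 8 10) r))

/-- windows of the heights -/
def eW : List E := [sub (sub (var 1) (var 3)) (q 105 1000), sub (sub (var 3) (var 1)) (q 28 1000)]

def e2X (y : E) : E := sub (eB' (var 0) (var 1)) (e2x (var 0) (var 1) (var 2) y)
def e2N (σ : ℤ) : E := sub (eB' (var 0) (var 1)) (e2n σ (var 0) (var 1) (var 2) (var 3))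
def e2B (σ : ℤ) (y : E) : E := sub (eB' (var 0) (var 1)) (e2b σ (var 0) (var 1) (var 2) y)
def e3L (σ : ℤ) (y : E) : E := sub (eB (var 0) (var 1)) (e3l σ (var 0) (var 1) (var 2) y)
def e3R (y : E) : E := sub (eB (var 0) (var 1)) (e3r (var 0) (var 1) (var 2) y)
def e3N (σ : ℤ) : E := sub (eB (var 0) (var 1)) (e3n σ (var 0) (var 1) (var 2) (var 3))
def eDD (y : E) : E := sub (eD (q 53 100) (var 0) (var 1) (var 2) y (var 3)) (eg (var 2))
def eGG (y h : E) : E := add (eG (q 53 100) (var 0) y (var 1) (var 2) h) (eg (var 0))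

/-- the height is not below this -/
def eT (r : E) : E := neg (add (q 56 1000) (mul (q 28 100) r))

variable (x' T' r' y' t' c' w' h' : E) (xs : List ℝ)

theorem eH_val : (eH x' T').val xs = hR (x'.val xs) (T'.val xs) := by
  simp only [eH, E.val, hR]
  push_cast
  ring

theorem eM_val : (eM T').val xs = mR (T'.val xs) := by
  simp only [eM, E.val, mR]
  push_cast
  ring

theorem eB_val : (eB x' T').val xs = bb (x'.val xs) (T'.val xs) := by
  simp only [eB, E.val, bb]
  push_cast
  ring

theorem eB'_val : (eB' x' T').val xs = -bb (x'.val xs) (-T'.val xs) := by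
  simp only [eB', E.val, bb]
  push_cast
  ring

theorem e2_val : (e2 x' T' r' y').val xs =
    b2 (x'.val xs) (T'.val xs) (r'.val xs) (y'.val xs) := by
  simp only [e2, E.val, b2, eH_val, eM_val]
  push_cast
  ring

theorem e2x_val : (e2x x' T' r' y').val xs =
    s2x (x'.val xs) (T'.val xs) (r'.val xs) (y'.val xs) := by
  simp only [e2x, E.val, s2x, e2_val, eH_val, eM_val]

theorem e2n_val (σ : ℤ) : (e2n σ x' T' r' y').val xs =
    s2n σ (x'.val xs) (T'.val xs) (r'.val xs) (y'.val xs) := by
  simp only [e2n, E.val, s2n, e2_val, eH_val, eM_val]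
  push_cast
  rw [div_one]

theorem e2b_val (σ : ℤ) : (e2b σ x' T' r' y').val xs =
    s2b σ (x'.val xs) (T'.val xs) (r'.val xs) (y'.val xs) := by
  simp only [e2b, E.val, s2b, e2_val, eH_val, eM_val]
  push_cast
  rw [div_one, div_one]

theorem e3_val : (e3 x' T' r' y').val xs =
    b3 (x'.val xs) (T'.val xs) (r'.val xs) (y'.val xs) := by
  simp only [e3, E.val, b3, eH_val, eM_val]

theorem e3l_val (σ : ℤ) : (e3l σ x' T' r' y').val xs =
    s3l σ (x'.val xs) (T'.val xs) (r'.val xs) (y'.val xs) := by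
  simp only [e3l, E.val, s3l, e3_val, eH_val, eM_val]
  push_cast
  rw [div_one]

theorem e3r_val : (e3r x' T' r' y').val xs =
    s3r (x'.val xs) (T'.val xs) (r'.val xs) (y'.val xs) := by
  simp only [e3r, E.val, s3r, e3_val, eH_val, eM_val]

theorem e3n_val (σ : ℤ) : (e3n σ x' T' r' y').val xs =
    s3n σ (x'.val xs) (T'.val xs) (r'.val xs) (y'.val xs) := by
  simp only [e3n, E.val, s3n, e3_val, eH_val, eM_val]
  push_cast
  rw [div_one]

theorem eD_val : (eD c' x' T' r' y' t').val xs =
    d0 (c'.val xs) (x'.val xs) (T'.val xs) (r'.val xs) (y'.val xs) (t'.val xs) := by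
  simp only [eD, E.val, d0, eH_val]
  push_cast
  ring

theorem eG_val : (eG c' r' y' t' w' h').val xs =
    g0 (c'.val xs) (r'.val xs) (y'.val xs) (t'.val xs) (w'.val xs) (h'.val xs) := by
  simp only [eG, E.val, g0]

theorem eg_val : (eg r').val xs = gg (r'.val xs) := by
  simp only [eg, E.val, gg]
  push_cast
  ring

theorem eT_val : (eT r').val xs = -(56 / 1000 + 28 / 100 * r'.val xs) := by
  simp only [eT, E.val]
  push_cast
  ring

end

end S33

end VL

end Pool.Agent.Work.MP_b30479_gt.G2
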