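import Pool.Agent.Work.MP_b30479_gt.G2.V33A
import Pool.Agent.Work.NumU.Tree

/-!
# A hinge between two inner digits `3`, right ramp: certificates
-/

namespace Pool.Agent.Work.MP_b30479_gt.G2

open VOL NumU

namespace VL

namespace S33

open NumI (V)
open NumU.E (q var)

theorem k_L1a : chkT ([e2X (var 3), .sub (.add (var 0) (var 2)) (q 9 10)]) 40
    0x8880088288801083288288808021881881008388812881088008388288288221880088008312288088288810108388088218808880208808820183083288288028828820183880818808288218821088800828821283020
    [V.of 10000 3900 5000, V.of 10000 (-220) 220,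
      V.of 10000 0 2500, V.of 10000 (-1160) 50] = true := by
  decide +kernel

theorem k_L1b : chkT ([e2X (var 3), .sub (.add (var 0) (var 2)) (q 9 10)]) 40
    0x998282288229998022882288220998208288028880228808282882888120200
    [V.of 10000 3900 5000, V.of 10000 (-220) 220,
      V.of 10000 2500 5100, V.of 10000 (-1160) 50] = true := by
  decide +kernel

theorem k_L2p : chkT ([e2N 1, var 1]) 40
    0x8
    [V.of 10000 3900 5000, V.of 10000 (-220) 0,
      V.of 10000 4000 7100, V.of 10000 (-1160) 50] = true := by
  decide +kernel

theorem k_L2m : chkT ([e2N (-1), .neg (var 1)]) 40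
    0x8
    [V.of 10000 3900 5000, V.of 10000 0 220,
      V.of 10000 4000 7100, V.of 10000 (-1160) 50] = true := by
  decide +kernel

theorem k_L5 : chkT ([e2N 1, var 1]) 40
    0x8
    [V.of 10000 3900 5000, V.of 10000 (-220) 0,
      V.of 10000 7100 8000, V.of 10000 (-1160) 50] = true := by
  decide +kernel

theorem k_L6 : chkT ([e2N (-1), .neg (var 1)]) 40
    0x8
    [V.of 10000 3900 5000, V.of 10000 0 220,
      V.of 10000 7100 8000, V.of 10000 (-1160) 50] = true := by
  decide +kernel

theorem k_L3p : chkT ([e2B 1 (var 3), .neg (.add (eH (var 0) (var 1)) (var 3)),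
    .sub (q 11 10) (.add (var 0) (var 2))]) 40
    0x8828882911882218882188a02208828a22882a2009393
    [V.of 10000 3900 5000, V.of 10000 (-220) 220,
      V.of 10000 6000 7500, V.of 10000 (-1160) 50] = true := by
  decide +kernel

theorem k_L4p : chkT ([e2B 1 (yr (var 3) (var 2)),
    .neg (.add (eH (var 0) (var 1)) (yr (var 3) (var 2))),
    .sub (q 11 10) (.add (var 0) (var 2))]) 40
    0x8808828280882299289821919329891209929239929292311889928218820891929231088088099218910990292199223
    [V.of 10000 3900 5000, V.of 10000 (-220) 220,
      V.of 10000 7500 8000, V.of 10000 (-1160) 50] = true := by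
  decide +kernel

theorem k_L3m : chkT ([e2B (-1) (var 3), .add (eH (var 0) (var 1)) (var 3),
    .sub (q 11 10) (.add (var 0) (var 2))]) 40
    0x8828880288a2a0202882883a2288832a200
    [V.of 10000 3900 5000, V.of 10000 (-220) 220,
      V.of 10000 6000 7500, V.of 10000 (-1160) 50] = true := by
  decide +kernel

theorem k_L4m : chkT ([e2B (-1) (yr (var 3) (var 2)),
    .add (eH (var 0) (var 1)) (yr (var 3) (var 2)),
    .sub (q 11 10) (.add (var 0) (var 2))]) 40
    0x8828820888020
    [V.of 10000 3900 5000, V.of 10000 (-220) 220,
      V.of 10000 7500 8000, V.of 10000 (-1160) 50] = true := by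
  decide +kernel

theorem k_Ap : chkT ([e3L 1 (yl (var 3) (var 2)),
    .sub (yl (var 3) (var 2)) (eH (var 0) (var 1))] ++ eW) 40
    0x88801
    [V.of 10000 3900 5000, V.of 10000 (-220) 220,
      V.of 10000 0 200, V.of 10000 (-1140) 50] = true := by
  decide +kernel

theorem k_Bp : chkT ([e3L 1 (yl (var 3) (var 2)), eDD (yl (var 3) (var 2)),
    .sub (yl (var 3) (var 2)) (eH (var 0) (var 1))] ++ eW) 40
    0x880888008988931908931913929299009092318939201
    [V.of 10000 3900 5000, V.of 10000 (-220) 220,
      V.of 10000 200 500, V.of 10000 (-1140) 50] = true := by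
  decide +kernel

theorem k_Cp : chkT ([e3L 1 (var 3), eDD (var 3),
    .sub (var 3) (eH (var 0) (var 1))] ++ eW) 40
    0x880888280888808080298809192390909011389101388880288919888921391919039090390311899903102
    [V.of 10000 3900 5000, V.of 10000 (-220) 220,
      V.of 10000 500 1800, V.of 10000 (-1140) 50] = true := by
  decide +kernel

theorem k_Dp : chkT ([e3L 1 (var 3), .sub (var 3) (eH (var 0) (var 1))] ++ (eW ++
    [.sub (q 8 100) (.sub (var 0) (var 2))])) 40
    0x882828c0828208822888008388028888828022188822023c8832c088388022c883c088322088388328888231220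
    [V.of 10000 3900 5000, V.of 10000 (-220) 220,
      V.of 10000 1800 4200, V.of 10000 (-1140) 50] = true := by
  decide +kernel

theorem k_Np : chkT ([e3N 1, var 1] ++ eW) 40
    0x8
    [V.of 10000 3900 5000, V.of 10000 (-220) 0,
      V.of 10000 3100 5800, V.of 10000 (-1140) 50] = true := by
  decide +kernel

theorem k_Am : chkT ([e3L (-1) (yl (var 3) (var 2)),
    .sub (eH (var 0) (var 1)) (yl (var 3) (var 2))] ++ eW) 40
    0x8
    [V.of 10000 3900 5000, V.of 10000 (-220) 220,
      V.of 10000 0 200, V.of 10000 (-1140) 50] = true := by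
  decide +kernel

theorem k_Bm : chkT ([e3L (-1) (yl (var 3) (var 2)),
    .sub (eH (var 0) (var 1)) (yl (var 3) (var 2))] ++ eW) 40
    0x89382
    [V.of 10000 3900 5000, V.of 10000 (-220) 220,
      V.of 10000 200 500, V.of 10000 (-1140) 50] = true := by
  decide +kernel

theorem k_Cm : chkT ([e3L (-1) (var 3),
    .sub (eH (var 0) (var 1)) (var 3)] ++ eW) 40
    0x88293
    [V.of 10000 3900 5000, V.of 10000 (-220) 220,
      V.of 10000 500 1800, V.of 10000 (-1140) 50] = true := by
  decide +kernel

theorem k_Dm : chkT ([e3L (-1) (var 3), .sub (eH (var 0) (var 1)) (var 3)] ++ (eW ++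
    [.sub (q 8 100) (.sub (var 0) (var 2))])) 40
    0x88c08208282c82c082c8c82020882209393
    [V.of 10000 3900 5000, V.of 10000 (-220) 220,
      V.of 10000 1800 4200, V.of 10000 (-1140) 50] = true := by
  decide +kernel

theorem k_Nm : chkT ([e3N (-1), .neg (var 1)] ++ eW) 40
    0x8
    [V.of 10000 3900 5000, V.of 10000 0 220,
      V.of 10000 3100 5800, V.of 10000 (-1140) 50] = true := by
  decide +kernel

theorem k_R1 : chkT ([e3R (var 3)] ++ (eW ++ [.sub (q 8 100) (.sub (var 2) (var 0))])) 40
    0x8880288208838808388302b883b2b2022882882883b8b2b202228828288088088322200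
    [V.of 10000 3900 5000, V.of 10000 (-220) 220,
      V.of 10000 4700 7500, V.of 10000 (-1140) 50] = true := by
  decide +kernel

theorem k_R2 : chkT ([e3R (yr (var 3) (var 2))] ++ eW) 40
    0x88800
    [V.of 10000 3900 5000, V.of 10000 (-220) 220,
      V.of 10000 7500 8000, V.of 10000 (-1140) 50] = true := by
  decide +kernel

theorem k_Tp : chkT ([e3L 1 (var 3), .sub (eT (var 2)) (var 3),
    .sub (var 3) (eH (var 0) (var 1))] ++ eW) 40
    0x888028880208880288008888802188888882808088938939323889239322121888893923220888888893332808088089393923221188280800889392380938809380932893938093929229223113888080888088080933388809388093932322101288088888888922328038028889280922288929223888922203118880802088808080893929280803938938089393802809393292192218889380280809219293333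
    [V.of 10000 3900 5000, V.of 10000 (-220) 220,
      V.of 10000 500 1800, V.of 10000 (-1140) 50] = true := by
  decide +kernel

theorem k_Up : chkT ([e3L 1 (yl (var 3) (var 2)), .sub (eT (var 2)) (var 3),
    .sub (yl (var 3) (var 2)) (eH (var 0) (var 1))] ++ eW) 40
    0x8808808888089380939392318889393933821019331
    [V.of 10000 3900 5000, V.of 10000 (-220) 220,
      V.of 10000 200 500, V.of 10000 (-1140) 50] = true := by
  decide +kernel

theorem k_Gra : chkT ([eGG (yl (var 1) (var 0)) (.mul (var 3) (var 2)),
    .add (var 1) (.add (q 56 1000) (.mul (q 28 100) (var 0)))]) 40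
    0x888038880328828880228828880220288823882882882122888238838808880222200
    [V.of 10000 200 500, V.of 10000 (-1140) (-610),
      V.of 10000 0 1500, V.of 10000 (-7634) 4385] = true := by
  decide +kernel

theorem k_Grb : chkT ([eGG (var 1) (.mul (var 3) (var 2)),
    .add (var 1) (.add (q 56 1000) (.mul (q 28 100) (var 0)))]) 40
    0x8880388228838832882882220
    [V.of 10000 500 1800, V.of 10000 (-1140) (-690),
      V.of 10000 0 1500, V.of 10000 (-7634) 4385] = true := by
  decide +kernel

theorem k_Gfa : chkT ([eGG (yl (var 1) (var 0)) (var 3),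
    .add (var 1) (.add (q 56 1000) (.mul (q 28 100) (var 0)))]) 40
    0x88833888031888032888032888338880318880328880320
    [V.of 10000 200 500, V.of 10000 (-1140) (-610),
      V.of 10000 1300 3900, V.of 10000 (-1145) 570] = true := by
  decide +kernel

theorem k_Gfb : chkT ([eGG (var 1) (var 3),
    .add (var 1) (.add (q 56 1000) (.mul (q 28 100) (var 0)))]) 40
    0x999988388833823883211008880389818138832888380303888032888032188803288803883988218830813883288833038880328880320
    [V.of 10000 500 1800, V.of 10000 (-1140) (-690),
      V.of 10000 1300 3900, V.of 10000 (-1145) 570] = true := by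
  decide +kernel

end S33

end VL

end Pool.Agent.Work.MP_b30479_gt.G2
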