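import Pool.Agent.Work.MP_b30479_gt.G2.V33C
import Pool.Agent.Work.MP_b30479_gt.G2.V30E
import Pool.Agent.Work.MP_b30479_gt.G2.MLev

/-!
# A hinge between two inner digits `3`, right ramp: the right digit
-/

namespace Pool.Agent.Work.MP_b30479_gt.G2

open VOL NumU

namespace VL

namespace S33

open NumI (V)
open NumU.E (q var)

variable {x T r t y w h : ℝ}

/-- ranges of the variables of the right digit -/
structure Rr (x T t : ℝ) : Prop where
  x0 : 39 / 100 ≤ x
  x1 : x ≤ 1 / 2
  T0 : -(22 / 1000) ≤ T
  T1 : T ≤ 22 / 1000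
  t0 : -(114 / 1000) ≤ t
  t1 : t ≤ 5 / 1000
  d0 : -(105 / 1000) ≤ t - T
  d1 : t - T ≤ 28 / 1000

theorem Rr.win (H : Rr x T t) : ∀ f ∈ eW, f.val [x, T, r, t] ≤ 0 := by
  intro f hf
  have h1 := H.d0
  have h2 := H.d1
  simp only [eW, List.mem_cons, List.not_mem_nil, or_false] at hf
  rcases hf with rfl | rfl
  · simp only [E.val, NumI.lkR]
    push_cast
    linarith only [h1]
  · simp only [E.val, NumI.lkR]
    push_cast
    linarith only [h2]

/-- use of a list whose last entries do not occur -/
theorem Rr.use {es : List E} {fuel c : ℕ} {a4 b4 : ℤ} (H : Rr x T t) {a b : ℤ}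
    (k : chkT (es ++ eW) fuel c [V.of 10000 3900 5000, V.of 10000 (-220) 220,
      V.of 10000 a b, V.of 10000 a4 b4] = true) (hr : (a : ℝ) / 10000 ≤ r)
    (hr' : r ≤ (b : ℝ) / 10000) (ht : (a4 : ℝ) / 10000 ≤ t) (ht' : t ≤ (b4 : ℝ) / 10000) :
    ∃ f ∈ es, 0 < f.val [x, T, r, t] := by
  obtain ⟨a1, a2, a3, a4, a5, a6, a7, a8⟩ := H
  obtain ⟨f, hf, hq⟩ := chkT4 k (by norm_num) (x := x) (y := T) (z := r) (w := t)
    (by push_cast; linarith only [a1]) (by push_cast; linarith only [a2]) (by push_cast; linarith only [a3])
    (by push_cast; linarith only [a4]) (by push_cast; exact hr) (by push_cast; exact hr')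
    (by push_cast; exact ht) (by push_cast; exact ht')
  rcases List.mem_append.1 hf with h1 | h1
  · exact ⟨f, h1, hq⟩
  · exact absurd hq (not_lt.2 (Rr.win ⟨a1, a2, a3, a4, a5, a6, a7, a8⟩ f h1))

/-- `r ≤ 2/100` -/
theorem r_A (H : Rr x T t) (hr : 0 ≤ r) (hr' : r ≤ 2 / 100) (hy : y = 20 * (t * r)) :
    (y ≤ hR x T → s3l 1 x T r y < bb x T) ∧ (hR x T ≤ y → s3l (-1) x T r y < bb x T) := by
  have t0 := H.t0
  have t1 := H.t1
  constructor
  · intro hh
    obtain ⟨f, hf, hq⟩ := H.use k_Ap (r := r) (by push_cast; linarith only [hr]) (by push_cast; linarith only [hr'])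
      (by push_cast; linarith only [t0]) (by push_cast; linarith only [t1])
    simp only [List.mem_cons, List.not_mem_nil, or_false] at hf
    rcases hf with rfl | rfl
    · simp only [e3L, E.val, eB_val, e3l_val, yl, NumI.lkR] at hq
      push_cast at hq
      rw [div_one, ← hy] at hq
      linarith only [hq]
    · simp only [E.val, eH_val, yl, NumI.lkR] at hq
      push_cast at hq
      rw [div_one, ← hy] at hq
      linarith only [hh, hq]
  · intro hh
    obtain ⟨f, hf, hq⟩ := H.use k_Am (r := r) (by push_cast; linarith only [hr]) (by push_cast; linarith only [hr'])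
      (by push_cast; linarith only [t0]) (by push_cast; linarith only [t1])
    simp only [List.mem_cons, List.not_mem_nil, or_false] at hf
    rcases hf with rfl | rfl
    · simp only [e3L, E.val, eB_val, e3l_val, yl, NumI.lkR] at hq
      push_cast at hq
      rw [div_one, ← hy] at hq
      linarith only [hq]
    · simp only [E.val, eH_val, yl, NumI.lkR] at hq
      push_cast at hq
      rw [div_one, ← hy] at hq
      linarith only [hh, hq]

/-- `2/100 ≤ r ≤ 5/100` -/
theorem r_B (H : Rr x T t) (hr : 2 / 100 ≤ r) (hr' : r ≤ 5 / 100) (hy : y = 20 * (t * r)) :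
    (y ≤ hR x T → s3l 1 x T r y < bb x T ∨ (gg r < d0 (53 / 100) x T r y t ∧
      t < -(56 / 1000 + 28 / 100 * r))) ∧ (hR x T ≤ y → s3l (-1) x T r y < bb x T) := by
  have t0 := H.t0
  have t1 := H.t1
  constructor
  · intro hh
    obtain ⟨f, hf, hq⟩ := H.use k_Bp (r := r) (by push_cast; linarith only [hr]) (by push_cast; linarith only [hr'])
      (by push_cast; linarith only [t0]) (by push_cast; linarith only [t1])
    simp only [List.mem_cons, List.not_mem_nil, or_false] at hf
    rcases hf with rfl | rfl | rfl
    · simp only [e3L, E.val, eB_val, e3l_val, yl, NumI.lkR] at hq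
      push_cast at hq
      rw [div_one, ← hy] at hq
      left
      linarith only [hq]
    · obtain ⟨f', hf', hq'⟩ := H.use k_Up (r := r) (by push_cast; linarith only [hr])
        (by push_cast; linarith only [hr']) (by push_cast; linarith only [t0]) (by push_cast; linarith only [t1])
      simp only [List.mem_cons, List.not_mem_nil, or_false] at hf'
      rcases hf' with rfl | rfl | rfl
      · simp only [e3L, E.val, eB_val, e3l_val, yl, NumI.lkR] at hq'
        push_cast at hq'
        rw [div_one, ← hy] at hq'
        left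
        linarith only [hq']
      · simp only [eDD, E.val, eD_val, eg_val, yl, NumI.lkR] at hq
        push_cast at hq
        rw [div_one, ← hy] at hq
        simp only [E.val, eT_val, NumI.lkR] at hq'
        right
        constructor <;> linarith only [hq, hq']
      · simp only [E.val, eH_val, yl, NumI.lkR] at hq'
        push_cast at hq'
        rw [div_one, ← hy] at hq'
        linarith only [hh, hq']
    · simp only [E.val, eH_val, yl, NumI.lkR] at hq
      push_cast at hq
      rw [div_one, ← hy] at hq
      linarith only [hh, hq]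
  · intro hh
    obtain ⟨f, hf, hq⟩ := H.use k_Bm (r := r) (by push_cast; linarith only [hr]) (by push_cast; linarith only [hr'])
      (by push_cast; linarith only [t0]) (by push_cast; linarith only [t1])
    simp only [List.mem_cons, List.not_mem_nil, or_false] at hf
    rcases hf with rfl | rfl
    · simp only [e3L, E.val, eB_val, e3l_val, yl, NumI.lkR] at hq
      push_cast at hq
      rw [div_one, ← hy] at hq
      linarith only [hq]
    · simp only [E.val, eH_val, yl, NumI.lkR] at hq
      push_cast at hq
      rw [div_one, ← hy] at hq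
      linarith only [hh, hq]

/-- `5/100 ≤ r ≤ 18/100` -/
theorem r_C (H : Rr x T t) (hr : 5 / 100 ≤ r) (hr' : r ≤ 18 / 100) :
    (t ≤ hR x T → s3l 1 x T r t < bb x T ∨ (gg r < d0 (53 / 100) x T r t t ∧
      t < -(56 / 1000 + 28 / 100 * r))) ∧ (hR x T ≤ t → s3l (-1) x T r t < bb x T) := by
  have t0 := H.t0
  have t1 := H.t1
  constructor
  · intro hh
    obtain ⟨f, hf, hq⟩ := H.use k_Cp (r := r) (by push_cast; linarith only [hr]) (by push_cast; linarith only [hr'])
      (by push_cast; linarith only [t0]) (by push_cast; linarith only [t1])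
    simp only [List.mem_cons, List.not_mem_nil, or_false] at hf
    rcases hf with rfl | rfl | rfl
    · simp only [e3L, E.val, eB_val, e3l_val, NumI.lkR] at hq
      push_cast at hq
      left
      linarith only [hq]
    · obtain ⟨f', hf', hq'⟩ := H.use k_Tp (r := r) (by push_cast; linarith only [hr])
        (by push_cast; linarith only [hr']) (by push_cast; linarith only [t0]) (by push_cast; linarith only [t1])
      simp only [List.mem_cons, List.not_mem_nil, or_false] at hf'
      rcases hf' with rfl | rfl | rfl
      · simp only [e3L, E.val, eB_val, e3l_val, NumI.lkR] at hq'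
        push_cast at hq'
        left
        linarith only [hq']
      · simp only [eDD, E.val, eD_val, eg_val, NumI.lkR] at hq
        push_cast at hq
        simp only [E.val, eT_val, NumI.lkR] at hq'
        right
        constructor <;> linarith only [hq, hq']
      · simp only [E.val, eH_val, NumI.lkR] at hq'
        linarith only [hh, hq']
    · simp only [E.val, eH_val, NumI.lkR] at hq
      linarith only [hh, hq]
  · intro hh
    obtain ⟨f, hf, hq⟩ := H.use k_Cm (r := r) (by push_cast; linarith only [hr]) (by push_cast; linarith only [hr'])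
      (by push_cast; linarith only [t0]) (by push_cast; linarith only [t1])
    simp only [List.mem_cons, List.not_mem_nil, or_false] at hf
    rcases hf with rfl | rfl
    · simp only [e3L, E.val, eB_val, e3l_val, NumI.lkR] at hq
      push_cast at hq
      linarith only [hq]
    · simp only [E.val, eH_val, NumI.lkR] at hq
      linarith only [hh, hq]

/-- use of a list with one more entry at the end -/
theorem Rr.use' {es : List E} {g : E} {fuel c : ℕ} {a4 b4 : ℤ} (H : Rr x T t) {a b : ℤ}
    (k : chkT (es ++ (eW ++ [g])) fuel c [V.of 10000 3900 5000, V.of 10000 (-220) 220,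
      V.of 10000 a b, V.of 10000 a4 b4] = true) (hr : (a : ℝ) / 10000 ≤ r)
    (hr' : r ≤ (b : ℝ) / 10000) (ht : (a4 : ℝ) / 10000 ≤ t) (ht' : t ≤ (b4 : ℝ) / 10000)
    (hg : g.val [x, T, r, t] ≤ 0) :
    ∃ f ∈ es, 0 < f.val [x, T, r, t] := by
  obtain ⟨a1, a2, a3, a4, a5, a6, a7, a8⟩ := H
  obtain ⟨f, hf, hq⟩ := chkT4 k (by norm_num) (x := x) (y := T) (z := r) (w := t)
    (by push_cast; linarith only [a1]) (by push_cast; linarith only [a2]) (by push_cast; linarith only [a3])
    (by push_cast; linarith only [a4]) (by push_cast; exact hr) (by push_cast; exact hr')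
    (by push_cast; exact ht) (by push_cast; exact ht')
  rcases List.mem_append.1 hf with h1 | h1
  · exact ⟨f, h1, hq⟩
  · rcases List.mem_append.1 h1 with h2 | h2
    · exact absurd hq (not_lt.2 (Rr.win ⟨a1, a2, a3, a4, a5, a6, a7, a8⟩ f h2))
    · rw [List.mem_singleton] at h2
      rw [h2] at hq
      exact absurd hq (not_lt.2 hg)

/-- `18/100 ≤ r ≤ x - 8/100` -/
theorem r_D (H : Rr x T t) (hr : 18 / 100 ≤ r) (hr' : r ≤ x - 8 / 100) :
    (t ≤ hR x T → s3l 1 x T r t < bb x T) ∧ (hR x T ≤ t → s3l (-1) x T r t < bb x T) := by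
  have t0 := H.t0
  have t1 := H.t1
  have x1 := H.x1
  have hg : (NumU.E.sub (q 8 100) (.sub (var 0) (var 2))).val [x, T, r, t] ≤ 0 := by
    simp only [E.val, NumI.lkR]
    push_cast
    linarith only [hr']
  constructor
  · intro hh
    obtain ⟨f, hf, hq⟩ := H.use' k_Dp (r := r) (by push_cast; linarith only [hr]) (by push_cast; linarith only [hr', x1])
      (by push_cast; linarith only [t0]) (by push_cast; linarith only [t1]) hg
    simp only [List.mem_cons, List.not_mem_nil, or_false] at hf
    rcases hf with rfl | rfl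
    · simp only [e3L, E.val, eB_val, e3l_val, NumI.lkR] at hq
      push_cast at hq
      linarith only [hq]
    · simp only [E.val, eH_val, NumI.lkR] at hq
      linarith only [hh, hq]
  · intro hh
    obtain ⟨f, hf, hq⟩ := H.use' k_Dm (r := r) (by push_cast; linarith only [hr]) (by push_cast; linarith only [hr', x1])
      (by push_cast; linarith only [t0]) (by push_cast; linarith only [t1]) hg
    simp only [List.mem_cons, List.not_mem_nil, or_false] at hf
    rcases hf with rfl | rfl
    · simp only [e3L, E.val, eB_val, e3l_val, NumI.lkR] at hq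
      push_cast at hq
      linarith only [hq]
    · simp only [E.val, eH_val, NumI.lkR] at hq
      linarith only [hh, hq]

/-- `|r - x| ≤ 8/100` -/
theorem r_N (H : Rr x T t) (hr : x - 8 / 100 ≤ r) (hr' : r ≤ x + 8 / 100) :
    (T ≤ 0 → s3n 1 x T r t < bb x T) ∧ (0 ≤ T → s3n (-1) x T r t < bb x T) := by
  obtain ⟨a1, a2, a3, a4, a5, a6, a7, a8⟩ := H
  have H : Rr x T t := ⟨a1, a2, a3, a4, a5, a6, a7, a8⟩
  constructor
  · intro hh
    obtain ⟨f, hf, hq⟩ := chkT4 k_Np (by norm_num) (x := x) (y := T) (z := r) (w := t)
      (by push_cast; linarith only [a1]) (by push_cast; linarith only [a2]) (by push_cast; linarith only [a3])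
      (by push_cast; linarith only [hh]) (by push_cast; linarith only [hr, a1]) (by push_cast; linarith only [hr', a2])
      (by push_cast; linarith only [a5]) (by push_cast; linarith only [a6])
    rcases List.mem_append.1 hf with h1 | h1
    · simp only [List.mem_cons, List.not_mem_nil, or_false] at h1
      rcases h1 with rfl | rfl
      · simp only [e3N, E.val, eB_val, e3n_val, NumI.lkR] at hq
        push_cast at hq
        linarith only [hq]
      · simp only [E.val, NumI.lkR] at hq
        linarith only [hh, hq]
    · exact absurd hq (not_lt.2 (H.win f h1))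
  · intro hh
    obtain ⟨f, hf, hq⟩ := chkT4 k_Nm (by norm_num) (x := x) (y := T) (z := r) (w := t)
      (by push_cast; linarith only [a1]) (by push_cast; linarith only [a2]) (by push_cast; linarith only [hh])
      (by push_cast; linarith only [a4]) (by push_cast; linarith only [hr, a1]) (by push_cast; linarith only [hr', a2])
      (by push_cast; linarith only [a7, hh]) (by push_cast; linarith only [a6])
    rcases List.mem_append.1 hf with h1 | h1
    · simp only [List.mem_cons, List.not_mem_nil, or_false] at h1
      rcases h1 with rfl | rfl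
      · simp only [e3N, E.val, eB_val, e3n_val, NumI.lkR] at hq
        push_cast at hq
        linarith only [hq]
      · simp only [E.val, NumI.lkR] at hq
        linarith only [hh, hq]
    · exact absurd hq (not_lt.2 (H.win f h1))

/-- `x + 8/100 ≤ r` -/
theorem r_R (H : Rr x T t) (hr : x + 8 / 100 ≤ r) (hr' : r ≤ 75 / 100) :
    s3r x T r t < bb x T := by
  have t0 := H.t0
  have t1 := H.t1
  have x0 := H.x0
  obtain ⟨f, hf, hq⟩ := H.use' k_R1 (r := r) (by push_cast; linarith only [hr, x0]) (by push_cast; linarith only [hr'])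
    (by push_cast; linarith only [t0]) (by push_cast; linarith only [t1]) (by
      simp only [E.val, NumI.lkR]
      push_cast
      linarith only [hr])
  simp only [List.mem_cons, List.not_mem_nil, or_false] at hf
  subst hf
  simp only [e3R, E.val, eB_val, e3r_val, NumI.lkR] at hq
  linarith only [hq]

theorem r_E (H : Rr x T t) (hr : 75 / 100 ≤ r) (hr' : r ≤ 8 / 10)
    (hy : y = t * (20 * (8 / 10 - r))) : s3r x T r y < bb x T := by
  have t0 := H.t0
  have t1 := H.t1
  obtain ⟨f, hf, hq⟩ := H.use k_R2 (r := r) (by push_cast; linarith only [hr]) (by push_cast; linarith only [hr'])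
    (by push_cast; linarith only [t0]) (by push_cast; linarith only [t1])
  simp only [List.mem_cons, List.not_mem_nil, or_false] at hf
  subst hf
  simp only [e3R, E.val, eB_val, e3r_val, yr, NumI.lkR] at hq
  push_cast at hq
  rw [div_one, ← hy] at hq
  linarith only [hq]

/-! ### the side -/

theorem S3_b3 {u v : ℂ} (hu : u.im = hR u.re T) (h0 : 0 < u.re) (h1 : u.re < 1) :
    S3 1 (mR T) u v = b3 u.re T v.re v.im + (LL (v - u) + mR T * YY (v - u)) := by
  have a1 : LL u = NumI.lnA u.re (hR u.re T) := by rw [Num.LL_lnA (u := u) ⟨h0, h1⟩, hu]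
  have a2 : YY u = -NumI.lnB u.re (hR u.re T) := by rw [Num.YY_lnB (u := u) ⟨h0, h1⟩, hu]
  unfold S3 b3
  rw [a1, a2]
  ring

/-- the inner variable left of the hinge -/
theorem S3_left {u v : ℂ} (hu : u.im = hR u.re T) (h0 : v.re < u.re) (h1 : u.re < 1)
    (h2 : 0 ≤ v.re) :
    (v.im < hR u.re T → S3 1 (mR T) u v = s3l 1 u.re T v.re v.im) ∧
      (hR u.re T < v.im → S3 1 (mR T) u v = s3l (-1) u.re T v.re v.im) ∧
      (v.im = hR u.re T → 2 * S3 1 (mR T) u v =
        s3l 1 u.re T v.re v.im + s3l (-1) u.re T v.re v.im) := by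
  have e : v - u = -(u - v) := by ring
  have r1 : (u - v).re = u.re - v.re := Complex.sub_re _ _
  have r2 : (u - v).im = hR u.re T - v.im := by rw [Complex.sub_im, hu]
  have a1 : LL (v - u) = NumI.lnA (u.re - v.re) (hR u.re T - v.im) := by
    rw [e, LL_neg, Num.LL_lnA (u := u - v) ⟨by rw [r1]; linarith only [h0], by rw [r1]; linarith only [h1, h2]⟩, r1, r2]
  have a2 : YY (u - v) = -NumI.lnB (u.re - v.re) (hR u.re T - v.im) := by
    rw [Num.YY_lnB (u := u - v) ⟨by rw [r1]; linarith only [h0], by rw [r1]; linarith only [h1, h2]⟩, r1, r2]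
  have key := S3_b3 (v := v) hu (by linarith only [h0, h2]) h1
  unfold s3l
  refine ⟨fun d => ?_, fun d => ?_, fun d => ?_⟩
  · have h3 := YY_neg_of_pos (u := u - v) (by rw [r2]; linarith only [d])
    rw [← e, a2] at h3
    rw [key, a1, h3]
    ring
  · have h3 := YY_neg_of_neg (u := u - v) (by rw [r2]; linarith only [d])
    rw [← e, a2] at h3
    rw [key, a1, h3]
    ring
  · have h3 : YY (v - u) = 0 := YY_zero (by rw [Complex.sub_im, hu, d]; ring)
    have h4 : YY (u - v) = 0 := YY_zero (by rw [r2, d]; ring)
    rw [a2, neg_eq_zero] at h4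
    rw [key, a1, h3, h4]
    ring

/-- the inner variable right of the hinge -/
theorem S3_right {u v : ℂ} (hu : u.im = hR u.re T) (h0 : 0 < u.re) (h1 : u.re < v.re)
    (h2 : v.re < 1) : S3 1 (mR T) u v = s3r u.re T v.re v.im := by
  have r1 : (v - u).re = v.re - u.re := Complex.sub_re _ _
  have r2 : (v - u).im = v.im - hR u.re T := by rw [Complex.sub_im, hu]
  rw [S3_b3 (v := v) hu h0 (by linarith only [h1, h2]), Num.LL_lnA (u := v - u) ⟨by rw [r1]; linarith only [h1],
    by rw [r1]; linarith only [h0, h2]⟩, Num.YY_lnB (u := v - u) ⟨by rw [r1]; linarith only [h1], by rw [r1]; linarith only [h0, h2]⟩,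
    r1, r2]
  unfold s3r
  ring

/-- the inner variable near the hinge -/
theorem S3_near {u v : ℂ} (hu : u.im = hR u.re T) (h0 : 0 < u.re) (h1 : u.re < 1)
    (h2 : |v.re - u.re| ≤ 8 / 100) :
    (0 ≤ mR T → S3 1 (mR T) u v ≤ s3n 1 u.re T v.re v.im) ∧
      (mR T ≤ 0 → S3 1 (mR T) u v ≤ s3n (-1) u.re T v.re v.im) := by
  have r1 : (v - u).re = v.re - u.re := Complex.sub_re _ _
  have r2 : (v - u).im = v.im - hR u.re T := by rw [Complex.sub_im, hu]
  have a1 := LL_near6 (a := v - u) (by rw [r1]; linarith only [h0, h1, h2])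
  obtain ⟨b1, b2⟩ := near_mul (a := v - u) (by rw [r1]; linarith only [h0, h1, h2]) (m := mR T)
  rw [r2] at a1
  rw [S3_b3 (v := v) hu h0 h1]
  unfold s3n
  constructor
  · intro h3
    have := b1 h3
    linarith only [a1, this]
  · intro h3
    have := b2 h3
    linarith only [a1, this]

/-- the alternative: the inner variable is in the region where it can be moved -/
structure Mv (x T r y t : ℝ) : Prop where
  r0 : 2 / 100 ≤ r
  r1 : r ≤ 18 / 100
  h : y ≤ hR x T
  g : gg r < d0 (53 / 100) x T r y t
  t : t < -(56 / 1000 + 28 / 100 * r)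

/-- **The side of the right digit** -/
theorem right_lt {u v : ℂ} (H : Rr u.re T t) (hu : u.im = hR u.re T)
    (hv : RH v t (8 / 10) (5 / 100) (5 / 100)) :
    S3 1 (mR T) u v < bb u.re T ∨ Mv u.re T v.re v.im t := by
  have h0 := hv.re0
  have hM := hv.reM
  have x0 := H.x0
  have x1 := H.x1
  -- assembling the three cases
  have asm : ∀ {P : Prop}, v.re < u.re →
      (v.im ≤ hR u.re T → s3l 1 u.re T v.re v.im < bb u.re T ∨ P) →
      (hR u.re T ≤ v.im → s3l (-1) u.re T v.re v.im < bb u.re T) →
      S3 1 (mR T) u v < bb u.re T ∨ P := by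
    intro P h1 h2 h3
    obtain ⟨c1, c2, c3⟩ := S3_left (v := v) hu h1 (by linarith only [h0, x1, h1]) h0
    rcases lt_trichotomy v.im (hR u.re T) with d | d | d
    · rw [c1 d]
      exact h2 d.le
    · rcases h2 d.le with h4 | h4
      · left
        have h5 := h3 d.ge
        have h6 := c3 d
        linarith only [h4, h5, h6]
      · exact Or.inr h4
    · rw [c2 d]
      exact Or.inl (h3 d.le)
  rcases le_total v.re (5 / 100) with h1 | h1
  · have hy : v.im = 20 * (t * v.re) := by
      rw [hv.im, tr_a (by norm_num) (by norm_num) (by norm_num) h0 h1]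
      ring
    rcases le_total v.re (2 / 100) with h2 | h2
    · obtain ⟨k1, k2⟩ := r_A H h0 h2 hy
      exact asm (by linarith only [x0, h1]) (fun d => Or.inl (k1 d)) k2
    · obtain ⟨k1, k2⟩ := r_B H h2 h1 hy
      refine asm (by linarith only [x0, h1]) (fun d => ?_) k2
      rcases k1 d with h3 | ⟨h3, h4⟩
      · exact Or.inl h3
      · exact Or.inr ⟨h2, by linarith only [h1], d, h3, h4⟩
  rcases le_total v.re (75 / 100) with h2 | h2
  · have hy : v.im = t := by
      rw [hv.im, tr_b (by norm_num) (by norm_num) h1 (by linarith only [h2]), mul_one]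
    rcases le_total v.re (18 / 100) with h3 | h3
    · obtain ⟨k1, k2⟩ := r_C H h1 h3
      rw [← hy] at k1 k2
      refine asm (by linarith only [x0, h3]) (fun d => ?_) k2
      rcases k1 d with h4 | ⟨h4, h5⟩
      · exact Or.inl h4
      · rw [hy] at h4 h5 d
        rw [hy]
        exact Or.inr ⟨by linarith only [h1], h3, d, h4, h5⟩
    rcases le_total v.re (u.re - 8 / 100) with h4 | h4
    · obtain ⟨k1, k2⟩ := r_D H h3 h4
      rw [← hy] at k1 k2
      exact asm (by linarith only [h4]) (fun d => Or.inl (k1 d)) k2
    left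
    rcases le_total v.re (u.re + 8 / 100) with h5 | h5
    · obtain ⟨k1, k2⟩ := r_N H h4 h5
      rw [← hy] at k1 k2
      obtain ⟨c1, c2⟩ := S3_near (v := v) hu (by linarith only [x0]) (by linarith only [hM, h4])
        (by rw [abs_le]; constructor <;> linarith only [h4, h5])
      rcases le_total T 0 with h6 | h6
      · exact (c1 (by unfold mR; linarith only [h6])).trans_lt (k1 h6)
      · exact (c2 (by unfold mR; linarith only [h6])).trans_lt (k2 h6)
    · rw [S3_right hu (by linarith only [x0]) (by linarith only [h5]) (by linarith only [hM]), hy]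
      exact r_R H h5 h2
  · left
    have hy : v.im = t * (20 * (8 / 10 - v.re)) := by
      rw [hv.im, tr_c (by norm_num) (by norm_num) (by norm_num) (by linarith only [h2]) hM]
      ring
    rw [S3_right hu (by linarith only [x0]) (by linarith only [x1, h2]) (by linarith only [hM])]
    exact r_E H h2 hM hy

/-! ### the move of the inner variable -/

theorem gain_flat (t0 : -(114 / 1000) ≤ t) (h : t < -(56 / 1000 + 28 / 100 * r))
    (hr : 5 / 100 ≤ r) (hr' : r ≤ 18 / 100) {w : ℂ} {S : ℝ} (H : HW w S) :
    0 < g0 (53 / 100) r t t w.re w.im + gg r := by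
  have hw : ∀ f : E, f = (.add (var 1) (.add (q 56 1000) (.mul (q 28 100) (var 0)))) →
      ∀ a b : ℝ, 0 < f.val [r, t, a, b] → False := by
    rintro f rfl a b hq
    simp only [E.val, NumI.lkR] at hq
    push_cast at hq
    linarith only [h, hq]
  rcases H.cases with ⟨σ, h1, h2, h3, h4, h5, -⟩ | ⟨h1, h2, h3, h4⟩
  · obtain ⟨f, hf, hq⟩ := chkT4 k_Grb (by norm_num) (x := r) (y := t) (z := w.re) (w := σ)
      (by push_cast; linarith only [hr]) (by push_cast; linarith only [hr']) (by push_cast; linarith only [t0])
      (by push_cast; linarith only [h, hr]) (by push_cast; linarith only [h2]) (by push_cast; linarith only [h3])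
      (by push_cast; linarith only [h4]) (by push_cast; linarith only [h5])
    simp only [List.mem_cons, List.not_mem_nil, or_false] at hf
    rcases hf with rfl | hf
    · simp only [eGG, E.val, eG_val, eg_val, NumI.lkR] at hq
      push_cast at hq
      rw [← h1] at hq
      exact hq
    · exact (hw f hf _ _ hq).elim
  · obtain ⟨f, hf, hq⟩ := chkT4 k_Gfb (by norm_num) (x := r) (y := t) (z := w.re) (w := w.im)
      (by push_cast; linarith only [hr]) (by push_cast; linarith only [hr']) (by push_cast; linarith only [t0])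
      (by push_cast; linarith only [h, hr]) (by push_cast; linarith only [h1]) (by push_cast; linarith only [h2])
      (by push_cast; linarith only [h3]) (by push_cast; linarith only [h4])
    simp only [List.mem_cons, List.not_mem_nil, or_false] at hf
    rcases hf with rfl | hf
    · simp only [eGG, E.val, eG_val, eg_val, NumI.lkR] at hq
      push_cast at hq
      exact hq
    · exact (hw f hf _ _ hq).elim

theorem gain_ramp (t0 : -(114 / 1000) ≤ t) (h : t < -(56 / 1000 + 28 / 100 * r))
    (hr : 2 / 100 ≤ r) (hr' : r ≤ 5 / 100) (hy : y = 20 * (t * r)) {w : ℂ} {S : ℝ}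
    (H : HW w S) : 0 < g0 (53 / 100) r y t w.re w.im + gg r := by
  have hw : ∀ f : E, f = (.add (var 1) (.add (q 56 1000) (.mul (q 28 100) (var 0)))) →
      ∀ a b : ℝ, 0 < f.val [r, t, a, b] → False := by
    rintro f rfl a b hq
    simp only [E.val, NumI.lkR] at hq
    push_cast at hq
    linarith only [h, hq]
  rcases H.cases with ⟨σ, h1, h2, h3, h4, h5, -⟩ | ⟨h1, h2, h3, h4⟩
  · obtain ⟨f, hf, hq⟩ := chkT4 k_Gra (by norm_num) (x := r) (y := t) (z := w.re) (w := σ)
      (by push_cast; linarith only [hr]) (by push_cast; linarith only [hr']) (by push_cast; linarith only [t0])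
      (by push_cast; linarith only [h, hr]) (by push_cast; linarith only [h2]) (by push_cast; linarith only [h3])
      (by push_cast; linarith only [h4]) (by push_cast; linarith only [h5])
    simp only [List.mem_cons, List.not_mem_nil, or_false] at hf
    rcases hf with rfl | hf
    · simp only [eGG, E.val, eG_val, eg_val, yl, NumI.lkR] at hq
      push_cast at hq
      rw [← h1, div_one, ← hy] at hq
      exact hq
    · exact (hw f hf _ _ hq).elim
  · obtain ⟨f, hf, hq⟩ := chkT4 k_Gfa (by norm_num) (x := r) (y := t) (z := w.re) (w := w.im)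
      (by push_cast; linarith only [hr]) (by push_cast; linarith only [hr']) (by push_cast; linarith only [t0])
      (by push_cast; linarith only [h, hr]) (by push_cast; linarith only [h1]) (by push_cast; linarith only [h2])
      (by push_cast; linarith only [h3]) (by push_cast; linarith only [h4])
    simp only [List.mem_cons, List.not_mem_nil, or_false] at hf
    rcases hf with rfl | hf
    · simp only [eGG, E.val, eG_val, eg_val, yl, NumI.lkR] at hq
      push_cast at hq
      rw [div_one, ← hy] at hq
      exact hq
    · exact (hw f hf _ _ hq).elim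

/-- **Values: a move of the inner variable** -/
theorem move {u v w : ℂ} {S : ℝ} (hu : u.im = hR u.re T) (t0 : -(114 / 1000) ≤ t)
    (hv : RH v t (8 / 10) (5 / 100) (5 / 100)) (hm : Mv u.re T v.re v.im t) (H : HW w S) :
    V3 u v w < V3 u (lv (53 / 100) t) w := by
  have h1 := V3_dif (u := u) (v := v) (v' := lv (53 / 100) t) (w := w)
  rw [lv_re, lv_im] at h1
  have e := UU_neg (u - v)
  rw [neg_sub, UU_uu (v - u), UU_uu (u - v), Complex.sub_re, Complex.sub_im, Complex.sub_re,
    Complex.sub_im, hu, abs_of_nonneg (by linarith only [hm, hm.h])] at e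
  rw [hu, e] at h1
  have h2 := hm.g
  unfold d0 at h2
  have h3 : 0 < g0 (53 / 100) v.re v.im t w.re w.im + gg v.re := by
    rcases le_total v.re (5 / 100) with h4 | h4
    · refine gain_ramp t0 hm.t hm.r0 h4 ?_ H
      rw [hv.im, tr_a (by norm_num) (by norm_num) (by norm_num) hv.re0 h4]
      ring
    · have hy : v.im = t := by
        rw [hv.im, tr_b (by norm_num) (by norm_num) h4 (by linarith only [hm, hm.r1]), mul_one]
      rw [hy]
      exact gain_flat t0 hm.t h4 hm.r1 H
  linarith only [h1, h2, h3]

end S33

end VL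

end Pool.Agent.Work.MP_b30479_gt.G2
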