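import Pool.Agent.Work.MP_b30479_gt.G2.WVal
import Pool.Agent.Work.MP_b30479_gt.G2.V3MidC

/-!
# Value row of the inner variable of an inner digit `3`: the left ramp

The inner variable `v = r + 20 t r i` (`0 ≤ r ≤ 5/100`) is moved to `v' = c + t i`,
`c = 48/100` if the neighbour on the side `S3` is a `1` (`mid_left_11`, `mid_left_1N`),
`c = 38/100` otherwise
(`mid_left_N1`, `mid_left_NN`).
-/

namespace Pool.Agent.Work.MP_b30479_gt.G2

open VOL NumU

namespace VM

theorem V3_diff {u v v' w : ℂ} {c r t : ℝ} (h1 : v.re = r) (h2 : v.im = 20 * t * r)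
    (h3 : v'.re = c) (h4 : v'.im = t) :
    V3 u v' w - V3 u v w = FA c r t u.re u.im - Real.pi * |20 * t * r - u.im| +
      FB c r t w.re w.im + FC c r t := by
  have e := uu_add_one (r - u.re) (20 * t * r - u.im)
  rw [show r - u.re + 1 = 1 + r - u.re by ring] at e
  have e1 : (2 * u * v' + (v' - w) ^ 2 - v' + w).im =
      2 * (u.re * t + u.im * c) + 2 * (c - w.re) * (t - w.im) - t + w.im := by
    simp only [pow_two, Complex.add_im, Complex.sub_im, Complex.sub_re, Complex.mul_im,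
      Complex.mul_re, Complex.re_ofNat, Complex.im_ofNat, h3, h4]
    ring
  have e2 : (2 * u * v + (v - w) ^ 2 - v + w).im =
      2 * (u.re * (20 * t * r) + u.im * r) + 2 * (r - w.re) * (20 * t * r - w.im) -
        20 * t * r + w.im := by
    simp only [pow_two, Complex.add_im, Complex.sub_im, Complex.sub_re, Complex.mul_im,
      Complex.mul_re, Complex.re_ofNat, Complex.im_ofNat, h1, h2]
    ring
  unfold V3 FA FB FC
  rw [e, e1, e2, UU_uu (v' + w), UU_uu (v' - u), UU_uu v', UU_uu (v + w), UU_uu (v - u), UU_uu v]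
  simp only [Complex.add_re, Complex.add_im, Complex.sub_re, Complex.sub_im, h1, h2, h3, h4]
  ring

variable {u v v' w : ℂ} {r t : ℝ}

theorem mid_left_11 (h1 : v.re = r) (h2 : v.im = 20 * t * r) (h3 : v'.re = 48 / 100)
    (h4 : v'.im = t) (hr : 0 ≤ r) (hr' : r ≤ 5 / 100) (hx : 12 / 100 ≤ u.re)
    (hx' : u.re ≤ 405 / 1000) (hT : -(1145 / 10000) ≤ u.im) (hT' : u.im ≤ -(21 / 1000))
    (hw : 13 / 100 ≤ w.re) (hw' : w.re ≤ 36 / 100) (hS : -(1145 / 10000) ≤ w.im)
    (ht : -(95 / 1000) ≤ t) (ht' : t ≤ -(8 / 1000)) : V3 u v w < V3 u v' w := by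
  have h := real_11 (x := u.re) (T := u.im) (w := w.re) (S := w.im) (t := t) (r := r)
    (by linarith only [hx]) (by linarith only [hx']) hT (by linarith only [hT']) (by linarith only [hw]) (by linarith only [hw']) hS
    (by linarith only [ht]) (by linarith only [ht']) hr hr'
  have e := V3_diff (u := u) (w := w) h1 h2 (h3.trans (by norm_num : _ = (4800 / 10000 : ℝ))) h4
  linarith only [h, e]

theorem mid_left_1N (h1 : v.re = r) (h2 : v.im = 20 * t * r) (h3 : v'.re = 48 / 100)
    (h4 : v'.im = t) (hr : 0 ≤ r) (hr' : r ≤ 5 / 100) (hx : 12 / 100 ≤ u.re)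
    (hx' : u.re ≤ 405 / 1000) (hT : -(1145 / 10000) ≤ u.im) (hT' : u.im ≤ -(21 / 1000))
    (hw : 13 / 100 ≤ w.re) (hw' : w.re ≤ 31 / 100) (hS : -(98 / 1000) ≤ w.im)
    (ht : -(92 / 1000) ≤ t) (ht' : t ≤ 15 / 1000) : V3 u v w < V3 u v' w := by
  have h := real_1N (x := u.re) (T := u.im) (w := w.re) (S := w.im) (t := t) (r := r)
    (by linarith only [hx]) (by linarith only [hx']) hT (by linarith only [hT']) (by linarith only [hw]) (by linarith only [hw']) (by linarith only [hS])
    (by linarith only [ht]) (by linarith only [ht']) hr hr'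
  have e := V3_diff (u := u) (w := w) h1 h2 (h3.trans (by norm_num : _ = (4800 / 10000 : ℝ))) h4
  linarith only [h, e]

theorem mid_left_N1 (h1 : v.re = r) (h2 : v.im = 20 * t * r) (h3 : v'.re = 38 / 100)
    (h4 : v'.im = t) (hr : 0 ≤ r) (hr' : r ≤ 5 / 100) (hx : 12 / 100 ≤ u.re)
    (hx' : u.re ≤ 31 / 100) (hT : -(98 / 1000) ≤ u.im) (hT' : u.im ≤ 57 / 1000)
    (hw : 13 / 100 ≤ w.re) (hw' : w.re ≤ 36 / 100) (hS : -(1145 / 10000) ≤ w.im)
    (ht : -(135 / 1000) ≤ t) (ht' : t ≤ 15 / 1000) (hc : -(126 / 1000) ≤ t - u.im) :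
    V3 u v w < V3 u v' w := by
  have h := real_N1 (x := u.re) (T := u.im) (w := w.re) (S := w.im) (t := t) (r := r)
    (by linarith only [hx]) (by linarith only [hx']) (by linarith only [hT]) (by linarith only [hT']) (by linarith only [hw]) (by linarith only [hw']) hS
    (by linarith only [ht]) (by linarith only [ht']) (by linarith only [hc]) hr hr'
  have e := V3_diff (u := u) (w := w) h1 h2 (h3.trans (by norm_num : _ = (3800 / 10000 : ℝ))) h4
  linarith only [h, e]

theorem mid_left_NN (h1 : v.re = r) (h2 : v.im = 20 * t * r) (h3 : v'.re = 38 / 100)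
    (h4 : v'.im = t) (hr : 0 ≤ r) (hr' : r ≤ 5 / 100) (hx : 12 / 100 ≤ u.re)
    (hx' : u.re ≤ 31 / 100) (hT : -(98 / 1000) ≤ u.im) (hT' : u.im ≤ 57 / 1000)
    (hw : 13 / 100 ≤ w.re) (hw' : w.re ≤ 31 / 100) (hS : -(98 / 1000) ≤ w.im)
    (ht : -(123 / 1000) ≤ t) (ht' : t ≤ 15 / 1000) (hc : -(116 / 1000) ≤ t - u.im) :
    V3 u v w < V3 u v' w := by
  have h := real_NN (x := u.re) (T := u.im) (w := w.re) (S := w.im) (t := t) (r := r)
    (by linarith only [hx]) (by linarith only [hx']) (by linarith only [hT]) (by linarith only [hT']) (by linarith only [hw]) (by linarith only [hw'])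
    (by linarith only [hS]) (by linarith only [ht]) (by linarith only [ht']) (by linarith only [hc]) hr hr'
  have e := V3_diff (u := u) (w := w) h1 h2 (h3.trans (by norm_num : _ = (3800 / 10000 : ℝ))) h4
  linarith only [h, e]

end VM

end Pool.Agent.Work.MP_b30479_gt.G2
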