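import Pool.Agent.Work.MP_b30479_gt.G2.RMon
import Pool.Agent.Work.NumU.Node

/-!
# Value row of the inner variable of an inner digit `3`: monotonicity and concavity

With `t` the height and `20 * t * r` the height on the left ramp, the difference of the values is
`FA x T - π |20 t r - T| + FB w S + FC`.  `FA x T - π (20 t r - T)` increases in `T`,
`FA x T + π (20 t r - T)` decreases in `T`, `FB w S` increases in `S`; `FA` is concave in `x` and
`FB` is concave in `w`.
-/

namespace Pool.Agent.Work.MP_b30479_gt.G2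

open VOL NumU

namespace VM

/-! ### derivatives and bounds of the derivatives -/

theorem deriv_im {p : ℝ} (h0 : 0 < p) (h1 : p < 1) {f : ℝ → ℝ} {f' t : ℝ}
    (hf : HasDerivAt f f' t) : HasDerivAt (fun s => uu p (f s)) (f' * YY ⟨p, f t⟩) t := by
  have hg : HasDerivAt (fun s : ℝ => (p : ℂ) + ((f s : ℝ) : ℂ) * Complex.I)
      ((f' : ℂ) * Complex.I) t :=
    (hf.ofReal_comp.mul_const Complex.I).const_add (p : ℂ)
  have e : ∀ s : ℝ, (p : ℂ) + ((f s : ℝ) : ℂ) * Complex.I = ⟨p, f s⟩ := by
    intro s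
    apply Complex.ext <;> simp
  have h2 := hasDerivAt_UU hg (Or.inr (by rw [e]; exact ⟨h0, h1⟩))
  have h3 : (fun s => uu p (f s)) = fun s : ℝ => UU ((p : ℂ) + ((f s : ℝ) : ℂ) * Complex.I) := by
    funext s
    rw [e]
    rfl
  rw [h3]
  refine h2.congr_deriv ?_
  rw [e]
  simp

theorem deriv_re {y : ℝ} {f : ℝ → ℝ} {f' t : ℝ} (hf : HasDerivAt f f' t) (h0 : 0 < f t)
    (h1 : f t < 1) : HasDerivAt (fun s => uu (f s) y) (f' * LL ⟨f t, y⟩) t := by
  have hg : HasDerivAt (fun s : ℝ => ((f s : ℝ) : ℂ) + (y : ℂ) * Complex.I) (f' : ℂ) t :=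
    hf.ofReal_comp.add_const ((y : ℂ) * Complex.I)
  have e : ∀ s : ℝ, ((f s : ℝ) : ℂ) + (y : ℂ) * Complex.I = ⟨f s, y⟩ := by
    intro s
    apply Complex.ext <;> simp
  have h2 := hasDerivAt_UU hg (Or.inr (by rw [e]; exact ⟨h0, h1⟩))
  have h3 : (fun s => uu (f s) y) = fun s : ℝ => UU (((f s : ℝ) : ℂ) + (y : ℂ) * Complex.I) := by
    funext s
    rw [e]
    rfl
  rw [h3]
  refine h2.congr_deriv ?_
  rw [e]
  simp

theorem YY_left {p y : ℝ} (h0 : 0 ≤ p) (h1 : p ≤ 1 / 2) :
    |YY ⟨p, y⟩| ≤ Real.pi * (1 / 2 - p) := by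
  have hp := Real.pi_pos
  rcases lt_trichotomy y 0 with h | h | h
  · rw [YY_neg (by exact h)]
    simp only
    have a1 := pi_mul_le_Tr h0 h1 (s := -y) (by linarith only [h])
    have a2 := Tr_le_half (s := -y) (by linarith only [h]) h1
    rw [abs_le]
    constructor <;> nlinarith only [a1, a2]
  · rw [YY_zero (by exact h), abs_zero]
    exact mul_nonneg hp.le (by linarith only [h1])
  · rw [YY_pos (by exact h)]
    simp only
    have a1 := pi_mul_le_Tr h0 h1 h
    have a2 := Tr_le_half h h1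
    rw [abs_le]
    constructor <;> nlinarith only [a1, a2]

theorem YY_right {p y : ℝ} (h0 : 1 / 2 ≤ p) (h1 : p ≤ 1) :
    |YY ⟨p, y⟩| ≤ Real.pi * (p - 1 / 2) := by
  have hp := Real.pi_pos
  rcases lt_trichotomy y 0 with h | h | h
  · rw [YY_neg (by exact h)]
    simp only
    have a1 := Tr_le_pi_mul h0 h1 (s := -y) (by linarith only [h])
    have a2 := half_le_Tr (s := -y) (by linarith only [h]) h0
    rw [abs_le]
    constructor <;> nlinarith only [a1, a2]
  · rw [YY_zero (by exact h), abs_zero]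
    exact mul_nonneg hp.le (by linarith only [h0])
  · rw [YY_pos (by exact h)]
    simp only
    have a1 := Tr_le_pi_mul h0 h1 h
    have a2 := half_le_Tr h h0
    rw [abs_le]
    constructor <;> nlinarith only [a1, a2]

theorem LL_arg_pos {p : ℝ} (y : ℝ) (h0 : 0 < p) (h1 : p < 1) :
    0 < 2 * Real.cosh (2 * Real.pi * y) - 2 * Real.cos (2 * Real.pi * p) := by
  have hp := Real.pi_pos
  have h2 : Real.cos (2 * Real.pi * p) < 1 := by
    have h3 : 0 < Real.sin (Real.pi * p) :=
      Real.sin_pos_of_pos_of_lt_pi (by positivity) (by nlinarith only [h1, hp])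
    rw [mul_assoc, Real.cos_two_mul, Real.cos_sq']
    nlinarith only [h3]
  have h4 := Real.one_le_cosh (2 * Real.pi * y)
  linarith only [h2, h4]

/-- `LL` increases on `(0, 1/2]` -/
theorem LL_mono {p q y : ℝ} (h0 : 0 < p) (hpq : p ≤ q) (hq : q ≤ 1 / 2) :
    LL ⟨p, y⟩ ≤ LL ⟨q, y⟩ := by
  have hp := Real.pi_pos
  rw [LL_eq', LL_eq']
  simp only
  apply div_le_div_of_nonneg_right _ (by norm_num)
  apply Real.log_le_log (LL_arg_pos y h0 (by linarith only [h0, hpq, hq]))
  have : Real.cos (2 * Real.pi * q) ≤ Real.cos (2 * Real.pi * p) := by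
    apply Real.cos_le_cos_of_nonneg_of_le_pi <;> nlinarith only [h0, hp, hq, hpq]
  linarith only [this]

/-- `LL` decreases on `[1/2, 1)` -/
theorem LL_anti {p q y : ℝ} (h0 : 1 / 2 ≤ p) (hpq : p ≤ q) (hq : q < 1) :
    LL ⟨q, y⟩ ≤ LL ⟨p, y⟩ := by
  have h := LL_mono (p := 1 - q) (q := 1 - p) (y := y) (by linarith only [hq]) (by linarith only [hpq]) (by linarith only [h0])
  rw [LL_eq', LL_eq'] at h ⊢
  simp only at h ⊢
  have e : ∀ s : ℝ, Real.cos (2 * Real.pi * (1 - s)) = Real.cos (2 * Real.pi * s) := by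
    intro s
    rw [show 2 * Real.pi * (1 - s) = 2 * Real.pi - 2 * Real.pi * s by ring, Real.cos_two_pi_sub]
  rw [e, e] at h
  exact h

theorem cont_uu {f g : ℝ → ℝ} (hf : Continuous f) (hg : Continuous g) :
    Continuous fun s => uu (f s) (g s) := by
  have h : (fun s => uu (f s) (g s)) =
      fun s => UU (((f s : ℝ) : ℂ) + ((g s : ℝ) : ℂ) * Complex.I) := by
    funext s
    have e : ((f s : ℝ) : ℂ) + ((g s : ℝ) : ℂ) * Complex.I = ⟨f s, g s⟩ := by
      apply Complex.ext <;> simp
    rw [e]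
    rfl
  rw [h]
  exact continuous_UU.comp (by fun_prop)

/-! ### the parts -/

/-- the part with the hinge `x + i T` on the side `S3` -/
noncomputable def FA (c r t x T : ℝ) : ℝ :=
  -(Real.pi * (x * t * (1 - 20 * r) + T * (c - r))) - uu (c - x) (t - T) +
    uu (1 + r - x) (20 * t * r - T)

/-- the part with the hinge `w + i S` on the side `S2` -/
noncomputable def FB (c r t w S : ℝ) : ℝ :=
  Real.pi * (w * t * (1 - 20 * r) + S * (c - r)) + uu (c + w) (t + S) -
    uu (r + w) (20 * t * r + S)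

/-- the remaining part -/
noncomputable def FC (c r t : ℝ) : ℝ :=
  -(Real.pi * t * (c - 20 * r ^ 2)) + Real.pi / 2 * t * (1 - 20 * r) - uu c t + uu r (20 * t * r)

variable {c r t x T w S : ℝ}

theorem FA_deriv_T (h1 : 0 < c - x) (h1' : c - x < 1) (h2 : 0 < 1 + r - x) (h2' : 1 + r - x < 1)
    (s : ℝ) (T : ℝ) :
    HasDerivAt (fun T => FA c r t x T - s * (Real.pi * (20 * t * r - T)))
      (-(Real.pi * (c - r)) + YY ⟨c - x, t - T⟩ - YY ⟨1 + r - x, 20 * t * r - T⟩ + s * Real.pi)
      T := by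
  have a1 : HasDerivAt (fun T : ℝ => t - T) (-1) T := by
    simpa using (hasDerivAt_id T).const_sub t
  have a2 : HasDerivAt (fun T : ℝ => 20 * t * r - T) (-1) T := by
    simpa using (hasDerivAt_id T).const_sub (20 * t * r)
  have b0 : HasDerivAt (fun T : ℝ => Real.pi * (x * t * (1 - 20 * r) + T * (c - r)))
      (Real.pi * (c - r)) T := by
    simpa using (((hasDerivAt_id T).mul_const (c - r)).const_add (x * t * (1 - 20 * r))).const_mul
      Real.pi
  have b1 := deriv_im h1 h1' a1
  have b2 := deriv_im h2 h2' a2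
  have b3 := (a2.const_mul Real.pi).const_mul s
  have := ((b0.neg.sub b1).add b2).sub b3
  refine this.congr_deriv ?_
  ring

theorem FA_mono (hc : r ≤ c) (h1 : 0 < c - x) (h1' : c - x ≤ 1 / 2) (h2 : 1 / 2 ≤ 1 + r - x)
    (h2' : 1 + r - x < 1) {T' : ℝ} (h : T' ≤ T) :
    FA c r t x T' - Real.pi * (20 * t * r - T') ≤ FA c r t x T - Real.pi * (20 * t * r - T) := by
  have hd := fun T => FA_deriv_T (c := c) (r := r) (t := t) (x := x) h1 (by linarith only [h1, h1'])
    (by linarith only [h1, h1', h2]) h2' 1 T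
  have hm : Monotone fun T => FA c r t x T - 1 * (Real.pi * (20 * t * r - T)) := by
    apply monotone_of_deriv_nonneg
    · exact fun T => (hd T).differentiableAt
    · intro T
      rw [(hd T).deriv]
      have a1 := (abs_le.1 (YY_left (y := t - T) h1.le h1')).1
      have a2 := (abs_le.1 (YY_right (y := 20 * t * r - T) h2 h2'.le)).2
      linarith only [a1, a2]
  have := hm h
  simpa using this

theorem FA_anti (hc : r ≤ c) (h1 : 0 < c - x) (h1' : c - x ≤ 1 / 2) (h2 : 1 / 2 ≤ 1 + r - x)
    (h2' : 1 + r - x < 1) {T' : ℝ} (h : T ≤ T') :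
    FA c r t x T' + Real.pi * (20 * t * r - T') ≤ FA c r t x T + Real.pi * (20 * t * r - T) := by
  have hd := fun T => FA_deriv_T (c := c) (r := r) (t := t) (x := x) h1 (by linarith only [h1, h1'])
    (by linarith only [h1, h1', h2]) h2' (-1) T
  have hp := Real.pi_pos
  have hm : Antitone fun T => FA c r t x T - -1 * (Real.pi * (20 * t * r - T)) := by
    apply antitone_of_deriv_nonpos
    · exact fun T => (hd T).differentiableAt
    · intro T
      rw [(hd T).deriv]
      have a1 := (abs_le.1 (YY_left (y := t - T) h1.le h1')).2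
      have a2 := (abs_le.1 (YY_right (y := 20 * t * r - T) h2 h2'.le)).1
      have a3 : 0 ≤ Real.pi * (c - r) := mul_nonneg hp.le (by linarith only [h1, h2'])
      linarith only [a1, a2, a3]
  have := hm h
  simpa using this

theorem FB_mono (hc : r ≤ c) (h1 : 1 / 2 ≤ c + w) (h1' : c + w < 1) (h2 : 0 < r + w)
    (h2' : r + w ≤ 1 / 2) {S' : ℝ} (h : S' ≤ S) : FB c r t w S' ≤ FB c r t w S := by
  have hm : Monotone fun S => FB c r t w S := by
    have hd : ∀ S : ℝ, HasDerivAt (fun S => FB c r t w S)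
        (Real.pi * (c - r) + YY ⟨c + w, t + S⟩ - YY ⟨r + w, 20 * t * r + S⟩) S := by
      intro S
      have a1 : HasDerivAt (fun S : ℝ => t + S) 1 S := by
        simpa using (hasDerivAt_id S).const_add t
      have a2 : HasDerivAt (fun S : ℝ => 20 * t * r + S) 1 S := by
        simpa using (hasDerivAt_id S).const_add (20 * t * r)
      have b0 : HasDerivAt (fun S : ℝ => Real.pi * (w * t * (1 - 20 * r) + S * (c - r)))
          (Real.pi * (c - r)) S := by
        simpa using (((hasDerivAt_id S).mul_const (c - r)).const_add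
          (w * t * (1 - 20 * r))).const_mul Real.pi
      have b1 := deriv_im (p := c + w) (by linarith only [h1, h1']) h1' a1
      have b2 := deriv_im (p := r + w) h2 (by linarith only [hc, h1']) a2
      have := (b0.add b1).sub b2
      refine this.congr_deriv ?_
      ring
    apply monotone_of_deriv_nonneg
    · exact fun S => (hd S).differentiableAt
    · intro S
      rw [(hd S).deriv]
      have a1 := (abs_le.1 (YY_right (y := t + S) h1 h1'.le)).1
      have a2 := (abs_le.1 (YY_left (y := 20 * t * r + S) h2.le h2')).2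
      linarith only [a1, a2]
  exact hm h

theorem FA_concave {a b : ℝ} (h1 : 0 < c - b) (h1' : c - a ≤ 1 / 2) (h2 : 1 / 2 ≤ 1 + r - b)
    (h2' : 1 + r - a < 1) : ConcaveOn ℝ (Set.Icc a b) fun x => FA c r t x T := by
  have hd : ∀ x ∈ Set.Ioo a b, HasDerivAt (fun x => FA c r t x T)
      (-(Real.pi * (t * (1 - 20 * r))) + LL ⟨c - x, t - T⟩ - LL ⟨1 + r - x, 20 * t * r - T⟩) x := by
    intro x hx
    have a1 : HasDerivAt (fun x : ℝ => c - x) (-1) x := by
      simpa using (hasDerivAt_id x).const_sub c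
    have a2 : HasDerivAt (fun x : ℝ => 1 + r - x) (-1) x := by
      simpa using (hasDerivAt_id x).const_sub (1 + r)
    have b0 : HasDerivAt (fun x : ℝ => Real.pi * (x * t * (1 - 20 * r) + T * (c - r)))
        (Real.pi * (t * (1 - 20 * r))) x := by
      have := ((((hasDerivAt_id x).mul_const t).mul_const (1 - 20 * r)).add_const
        (T * (c - r))).const_mul Real.pi
      refine this.congr_deriv ?_
      ring
    have b1 := deriv_re (y := t - T) a1 (by linarith only [h1, hx, hx.2]) (by linarith only [h1', hx, hx.1])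
    have b2 := deriv_re (y := 20 * t * r - T) a2 (by linarith only [h2, hx, hx.2]) (by linarith only [h2', hx, hx.1])
    have := (b0.neg.sub b1).add b2
    refine this.congr_deriv ?_
    ring
  apply AntitoneOn.concaveOn_of_deriv (convex_Icc a b)
  · apply Continuous.continuousOn
    unfold FA
    have c1 := cont_uu (f := fun x : ℝ => c - x) (g := fun _ => t - T) (by fun_prop) (by fun_prop)
    have c2 := cont_uu (f := fun x : ℝ => 1 + r - x) (g := fun _ => 20 * t * r - T) (by fun_prop)
      (by fun_prop)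
    exact (((by fun_prop : Continuous fun x : ℝ =>
      -(Real.pi * (x * t * (1 - 20 * r) + T * (c - r)))).sub c1).add c2)
  · rw [interior_Icc]
    exact fun x hx => (hd x hx).differentiableAt.differentiableWithinAt
  · rw [interior_Icc]
    intro x hx y hy hxy
    rw [(hd x hx).deriv, (hd y hy).deriv]
    have a1 := LL_mono (p := c - y) (q := c - x) (y := t - T) (by linarith only [h1, hy, hy.2]) (by linarith only [hxy])
      (by linarith only [h1', hx, hx.1])
    have a2 := LL_anti (p := 1 + r - y) (q := 1 + r - x) (y := 20 * t * r - T)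
      (by linarith only [h2, hy, hy.2]) (by linarith only [hxy]) (by linarith only [h2', hx, hx.1])
    linarith only [a1, a2]

theorem FB_concave {a b : ℝ} (h1 : 1 / 2 ≤ c + a) (h1' : c + b < 1) (h2 : 0 < r + a)
    (h2' : r + b ≤ 1 / 2) : ConcaveOn ℝ (Set.Icc a b) fun w => FB c r t w S := by
  have hd : ∀ w ∈ Set.Ioo a b, HasDerivAt (fun w => FB c r t w S)
      (Real.pi * (t * (1 - 20 * r)) + LL ⟨c + w, t + S⟩ - LL ⟨r + w, 20 * t * r + S⟩) w := by
    intro w hw
    have a1 : HasDerivAt (fun w : ℝ => c + w) 1 w := by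
      simpa using (hasDerivAt_id w).const_add c
    have a2 : HasDerivAt (fun w : ℝ => r + w) 1 w := by
      simpa using (hasDerivAt_id w).const_add r
    have b0 : HasDerivAt (fun w : ℝ => Real.pi * (w * t * (1 - 20 * r) + S * (c - r)))
        (Real.pi * (t * (1 - 20 * r))) w := by
      have := ((((hasDerivAt_id w).mul_const t).mul_const (1 - 20 * r)).add_const
        (S * (c - r))).const_mul Real.pi
      refine this.congr_deriv ?_
      ring
    have b1 := deriv_re (y := t + S) a1 (by linarith only [h1, hw, hw.1]) (by linarith only [h1', hw, hw.2])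
    have b2 := deriv_re (y := 20 * t * r + S) a2 (by linarith only [h2, hw, hw.1]) (by linarith only [h2', hw, hw.2])
    have := (b0.add b1).sub b2
    refine this.congr_deriv ?_
    ring
  apply AntitoneOn.concaveOn_of_deriv (convex_Icc a b)
  · apply Continuous.continuousOn
    unfold FB
    have c1 := cont_uu (f := fun w : ℝ => c + w) (g := fun _ => t + S) (by fun_prop) (by fun_prop)
    have c2 := cont_uu (f := fun w : ℝ => r + w) (g := fun _ => 20 * t * r + S) (by fun_prop)
      (by fun_prop)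
    exact (((by fun_prop : Continuous fun w : ℝ =>
      Real.pi * (w * t * (1 - 20 * r) + S * (c - r))).add c1).sub c2)
  · rw [interior_Icc]
    exact fun x hx => (hd x hx).differentiableAt.differentiableWithinAt
  · rw [interior_Icc]
    intro x hx y hy hxy
    rw [(hd x hx).deriv, (hd y hy).deriv]
    have a1 := LL_anti (p := c + x) (q := c + y) (y := t + S) (by linarith only [h1, hx, hx.1]) (by linarith only [hxy])
      (by linarith only [h1', hy, hy.2])
    have a2 := LL_mono (p := r + x) (q := r + y) (y := 20 * t * r + S)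
      (by linarith only [h2, hx, hx.1]) (by linarith only [hxy]) (by linarith only [h2', hy, hy.2])
    linarith only [a1, a2]

/-- reduction to the corners -/
theorem corner {a b a' b' T0 T1 S0 : ℝ} (hc : r ≤ c) (hx : a ≤ x) (hx' : x ≤ b) (hw : a' ≤ w)
    (hw' : w ≤ b') (h1 : 0 < c - b) (h1' : c - a ≤ 1 / 2) (h2 : 1 / 2 ≤ 1 + r - b)
    (h2' : 1 + r - a < 1) (h3 : 1 / 2 ≤ c + a') (h3' : c + b' < 1) (h4 : 0 < r + a')
    (h4' : r + b' ≤ 1 / 2) (hT : T0 ≤ T) (hT' : T ≤ T1) (hS : S0 ≤ S)
    (k : ∀ x' ∈ ({a, b} : Set ℝ), ∀ w' ∈ ({a', b'} : Set ℝ),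
      0 < FA c r t x' T0 - Real.pi * (20 * t * r - T0) + FB c r t w' S0 + FC c r t ∧
      0 < FA c r t x' T1 + Real.pi * (20 * t * r - T1) + FB c r t w' S0 + FC c r t) :
    0 < FA c r t x T - Real.pi * |20 * t * r - T| + FB c r t w S + FC c r t := by
  have a1 := FA_mono (c := c) (r := r) (t := t) (x := x) hc (by linarith only [hx', h1]) (by linarith only [hx, h1'])
    (by linarith only [hx', h2]) (by linarith only [hx, h2']) hT
  have a2 := FA_anti (c := c) (r := r) (t := t) (x := x) hc (by linarith only [hx', h1]) (by linarith only [hx, h1'])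
    (by linarith only [hx', h2]) (by linarith only [hx, h2']) hT'
  have a3 := FB_mono (c := c) (r := r) (t := t) (w := w) hc (by linarith only [hw, h3]) (by linarith only [hw', h3'])
    (by linarith only [hw, h4]) (by linarith only [hw', h4']) hS
  have c1 := (FA_concave (t := t) (T := T0) h1 h1' h2 h2').min_le_of_mem_Icc
    (Set.left_mem_Icc.2 (hx.trans hx')) (Set.right_mem_Icc.2 (hx.trans hx')) ⟨hx, hx'⟩
  have c2 := (FA_concave (t := t) (T := T1) h1 h1' h2 h2').min_le_of_mem_Icc
    (Set.left_mem_Icc.2 (hx.trans hx')) (Set.right_mem_Icc.2 (hx.trans hx')) ⟨hx, hx'⟩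
  have c3 := (FB_concave (t := t) (S := S0) h3 h3' h4 h4').min_le_of_mem_Icc
    (Set.left_mem_Icc.2 (hw.trans hw')) (Set.right_mem_Icc.2 (hw.trans hw')) ⟨hw, hw'⟩
  obtain ⟨x1, hx1, e1⟩ : ∃ x' ∈ ({a, b} : Set ℝ), FA c r t x' T0 ≤ FA c r t x T0 := by
    rcases min_le_iff.1 c1 with h | h
    · exact ⟨a, by simp, h⟩
    · exact ⟨b, by simp, h⟩
  obtain ⟨x2, hx2, e2⟩ : ∃ x' ∈ ({a, b} : Set ℝ), FA c r t x' T1 ≤ FA c r t x T1 := by
    rcases min_le_iff.1 c2 with h | h
    · exact ⟨a, by simp, h⟩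
    · exact ⟨b, by simp, h⟩
  obtain ⟨w1, hw1, e3⟩ : ∃ w' ∈ ({a', b'} : Set ℝ), FB c r t w' S0 ≤ FB c r t w S0 := by
    rcases min_le_iff.1 c3 with h | h
    · exact ⟨a', by simp, h⟩
    · exact ⟨b', by simp, h⟩
  have k1 := (k x1 hx1 w1 hw1).1
  have k2 := (k x2 hx2 w1 hw1).2
  rcases le_total 0 (20 * t * r - T) with h | h
  · rw [abs_of_nonneg h]
    linarith only [a1, a3, e1, e3, k1]
  · rw [abs_of_nonpos h]
    linarith only [a2, a3, e2, e3, k2]

end VM

end Pool.Agent.Work.MP_b30479_gt.G2
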