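import Pool.Agent.Work.MP_b30479_gt.G2.V3MidA
import Pool.Agent.Work.MP_b30479_gt.G2.UAnti
import Pool.Agent.Work.NumU.Expr

/-!
# Value row of the inner variable of an inner digit `3`: the corners as expressions
-/

namespace Pool.Agent.Work.MP_b30479_gt.G2

open VOL NumU

namespace VM

section
open NumI (V)
open NumU.E

/-- the height on the ramp -/
def vh : E := mul (q 20 1) (mul (var 0) (var 1))

/-- the polynomial part -/
def eP (c x T w S : E) (s : ℤ) : E :=
  mul E.pi (add (add (add (mul (mul (var 0) (sub (q 1 1) (mul (q 20 1) (var 1))))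
    (add (sub w x) (q 1 2))) (mul (sub S T) (sub c (var 1))))
    (neg (mul (var 0) (sub c (mul (q 20 1) (sq (var 1))))))) (mul (q (-s) 1) (sub vh T)))

/-- the difference of the values at a corner, `t = var 0`, `r = var 1` -/
def eD (c x T w S : E) (s : ℤ) : E :=
  add (sub (sub (add (add (sub (eP c x T w S s) (E.uu (sub c x) (sub (var 0) T)))
    (E.uu (sub (add (q 1 1) (var 1)) x) (sub vh T))) (E.uu (add c w) (add (var 0) S)))
    (E.uu (add (var 1) w) (add vh S))) (E.uu c (var 0))) (E.uu (q 1 20) vh)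

variable {t r : ℝ}

theorem vh_val : vh.val [t, r] = 20 * t * r := by
  simp only [vh, E.val, NumI.lkR]
  push_cast
  ring

theorem eD_val (c x T w S : E) (s : ℤ) : (eD c x T w S s).val [t, r] =
    FA (c.val [t, r]) r t (x.val [t, r]) (T.val [t, r]) -
      s * (Real.pi * (20 * t * r - T.val [t, r])) +
      FB (c.val [t, r]) r t (w.val [t, r]) (S.val [t, r]) +
      (FC (c.val [t, r]) r t - NumU.uu r (20 * t * r) + NumU.uu (1 / 20) (20 * t * r)) := by
  simp only [eD, eP, E.val, vh_val, NumI.lkR, FA, FB, FC]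
  push_cast
  simp only [div_one]
  ring

end

open NumI (V)

theorem use {c x w S s l1 h1 : ℤ} {Te : E} {t r c' x' T' w' S' : ℝ}
    (h : chk [eD (E.q c 10000) (E.q x 10000) Te (E.q w 10000) (E.q S 10000) s] 30
      [V.of 10000 l1 h1, V.of 10000 0 500] = true)
    (ht : (l1 : ℝ) / 10000 ≤ t) (ht' : t ≤ (h1 : ℝ) / 10000) (hr : 0 ≤ r) (hr' : r ≤ 5 / 100)
    (hc : (c : ℝ) / 10000 = c') (hx : (x : ℝ) / 10000 = x') (hT : Te.val [t, r] = T')
    (hw : (w : ℝ) / 10000 = w') (hS : (S : ℝ) / 10000 = S') (hh : |t| ≤ 135 / 1000) :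
    0 < FA c' r t x' T' - s * (Real.pi * (20 * t * r - T')) + FB c' r t w' S' + FC c' r t := by
  have hp := pos_of_chk (chk2 h (by norm_num) (x := t) (y := r)
    (by push_cast; exact ht) (by push_cast; exact ht')
    (by push_cast; linarith only [hr]) (by push_cast; linarith only [hr']))
  rw [eD_val, hT] at hp
  have e : ∀ n : ℤ, (E.q n 10000).val [t, r] = (n : ℝ) / 10000 := by
    intro n
    simp only [E.val]
    push_cast
    ring
  rw [e, e, e, e, hc, hx, hw, hS] at hp
  have h2 : uu (1 / 20) (20 * t * r) ≤ uu r (20 * t * r) := by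
    apply UA.anti UA.kc_6_14 (by norm_num) (by linarith only [hr]) (by linarith only [hr']) (by norm_num)
    rw [mul_right_comm, abs_mul, abs_of_nonneg (by linarith only [hr] : 0 ≤ 20 * r)]
    nlinarith only [hr', hr, hh, abs_nonneg t]
  linarith only [hp, h2]

end VM

end Pool.Agent.Work.MP_b30479_gt.G2
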