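import Pool.Agent.Work.NumU.Expr

/-!
# The inner variable of an inner digit `3` on its right ramp: first order rows `11`, `E1`
-/

set_option linter.unusedSimpArgs false

namespace Pool.Agent.Work.MP_b30479_gt.G2

open VOL NumU

namespace VN

section
open NumU.E

/-- the slope -/
def esl (t : E) : E := mul (q (-20) 1) t

/-- the real part -/
def er (s : E) : E := sub (q 8 10) s

/-- the height -/
def et (t s : E) : E := mul (q 20 1) (mul t s)

/-- bound minus the part with `u = x + i T` -/
def eGA (b x T t s : E) : E :=
  sub b (add (sub (neg (mul E.pi T)) (lnA (sub (er s) x) (sub (et t s) T)))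
    (mul (esl t) (add (neg (mul E.pi x)) (lnB (sub (er s) x) (sub (et t s) T)))))

/-- bound minus the part with `w = x + i S`; `p`: real part of `v + w` mod `1` -/
def eGB (b p x S t s c : E) : E :=
  sub b (add (add (mul E.pi S) (lnA p (add (et t s) S)))
    (mul (esl t) (sub (sub (mul E.pi x) (mul E.pi c)) (lnB p (add (et t s) S)))))

/-- bound minus the remaining part -/
def eGC (b t s : E) : E :=
  sub b (add (sub (neg (mul E.pi (et t s))) (lnA (er s) (et t s)))
    (mul (esl t) (add (mul E.pi (sub (q 1 2) (er s))) (lnB (er s) (et t s)))))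

end

variable {xs : List ℝ} {t r : ℝ}

theorem er_val {s : E} (hs : s.val xs = 8 / 10 - r) : (er s).val xs = r := by
  simp only [er, E.val, hs]
  push_cast
  ring

theorem et_val {te s : E} (ht : te.val xs = t) (hs : s.val xs = 8 / 10 - r) :
    (et te s).val xs = 20 * t * (8 / 10 - r) := by
  simp only [et, E.val, hs, ht]
  push_cast
  ring

theorem esl_val {te : E} (ht : te.val xs = t) : (esl te).val xs = -(20 * t) := by
  simp only [esl, E.val, ht]
  push_cast
  ring

theorem eGA_val {b x T te s : E} (ht : te.val xs = t) (hs : s.val xs = 8 / 10 - r) :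
    (eGA b x T te s).val xs = b.val xs - (-(Real.pi * T.val xs) -
      NumI.lnA (r - x.val xs) (20 * t * (8 / 10 - r) - T.val xs) +
      -(20 * t) * (-(Real.pi * x.val xs) +
        NumI.lnB (r - x.val xs) (20 * t * (8 / 10 - r) - T.val xs))) := by
  simp only [eGA, E.val, er_val hs, et_val ht hs, esl_val ht]

theorem eGB_val {b p x S te s c : E} (ht : te.val xs = t) (hs : s.val xs = 8 / 10 - r) :
    (eGB b p x S te s c).val xs = b.val xs - (Real.pi * S.val xs +
      NumI.lnA (p.val xs) (20 * t * (8 / 10 - r) + S.val xs) +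
      -(20 * t) * (Real.pi * x.val xs - Real.pi * c.val xs -
        NumI.lnB (p.val xs) (20 * t * (8 / 10 - r) + S.val xs))) := by
  simp only [eGB, E.val, er_val hs, et_val ht hs, esl_val ht]

theorem eGC_val {b te s : E} (ht : te.val xs = t) (hs : s.val xs = 8 / 10 - r) :
    (eGC b te s).val xs = b.val xs - (-(Real.pi * (20 * t * (8 / 10 - r))) -
      NumI.lnA r (20 * t * (8 / 10 - r)) +
      -(20 * t) * (Real.pi * (1 / 2 - r) + NumI.lnB r (20 * t * (8 / 10 - r)))) := by
  simp only [eGC, E.val, er_val hs, et_val ht hs, esl_val ht]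
  push_cast
  ring

end VN

end Pool.Agent.Work.MP_b30479_gt.G2
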