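import Pool.Agent.Work.MP_b30479_gt.G2.V3MidRA
import Pool.Agent.Work.MP_b30479_gt.G2.V3MidRG

/-!
# Value row of the inner variable of an inner digit `3`, right ramp: expressions
-/

set_option linter.unusedSimpArgs false

namespace Pool.Agent.Work.MP_b30479_gt.G2

open VOL NumU

namespace VN

section
open NumU.E

/-- the polynomial part -/
def eP (c x T w S t s : E) : E :=
  add (mul (add (sub w x) (q 1 2)) (sub t (et t s)))
    (add (mul (sub S T) (sub c (er s))) (sub (mul (er s) (et t s)) (mul c t)))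

/-- the part without `w` -/
def eQ (c x T t s : E) : E :=
  sub (add (sub (E.uu (sub (er s) x) (sub (et t s) T)) (E.uu (sub c x) (sub t T)))
    (E.uu (er s) (et t s))) (E.uu c t)

/-- the difference of the values, `r + w < 1` -/
def eD (c x T w S t s : E) : E :=
  sub (add (add (mul E.pi (eP c x T w S t s)) (eQ c x T t s)) (E.uu (add c w) (add t S)))
    (E.uu (add (er s) w) (add (et t s) S))

/-- the difference of the values, `1 < r + w` -/
def eD' (c x T w S t s : E) (σ : ℤ) : E :=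
  sub (sub (add (add (mul E.pi (eP c x T w S t s)) (eQ c x T t s)) (E.uu (add c w) (add t S)))
    (E.uu (sub (add (er s) w) (q 1 1)) (add (et t s) S))) (mul (q σ 1) (mul E.pi (add (et t s) S)))

/-- the derivative of `FA` in the height -/
def eI (c x y t s : E) : E :=
  add (sub (mul E.pi (sub (er s) c)) (lnB (sub c x) (sub t y))) (lnB (sub (er s) x) (sub (et t s) y))

/-- the condition on `LL` -/
def eJ (c w S t s : E) : E :=
  add (sub (mul (exp (mul (mul (q 2 1) E.pi) (sub t (et t s))))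
    (sub (cosh (mul (mul (q 2 1) E.pi) (add t S))) (cosPi (mul (q 2 1) (add c w)))))
    (cosh (mul (mul (q 2 1) E.pi) (add (et t s) S)))) (cosPi (mul (q 2 1) (add (er s) w)))

end

variable {xs : List ℝ} {t r : ℝ}

theorem eD_val {c x T w S te s : E} (ht : te.val xs = t) (hs : s.val xs = 8 / 10 - r) :
    (eD c x T w S te s).val xs =
      FA (c.val xs) r t (20 * t * (8 / 10 - r)) (x.val xs) (T.val xs) +
      FB (c.val xs) r t (20 * t * (8 / 10 - r)) (w.val xs) (S.val xs) +
      FC (c.val xs) r t (20 * t * (8 / 10 - r)) := by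
  simp only [eD, eP, eQ, E.val, er_val hs, et_val ht hs, ht, FA, FB, FC]
  push_cast
  ring

theorem eD'_val {c x T w S te s : E} (σ : ℤ) (ht : te.val xs = t) (hs : s.val xs = 8 / 10 - r) :
    (eD' c x T w S te s σ).val xs =
      FA (c.val xs) r t (20 * t * (8 / 10 - r)) (x.val xs) (T.val xs) +
      FB (c.val xs) r t (20 * t * (8 / 10 - r)) (w.val xs) (S.val xs) +
      FC (c.val xs) r t (20 * t * (8 / 10 - r)) +
      Real.pi * (|20 * t * (8 / 10 - r) + S.val xs| - σ * (20 * t * (8 / 10 - r) + S.val xs)) := by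
  have h := uu_add_one (r + w.val xs - 1) (20 * t * (8 / 10 - r) + S.val xs)
  rw [sub_add_cancel] at h
  simp only [eD', eP, eQ, E.val, er_val hs, et_val ht hs, ht, FA, FB, FC, h]
  push_cast
  rw [show r + w.val xs - 1 / 1 = r + w.val xs - 1 by ring]
  ring

theorem eI_val {c x y te s : E} (ht : te.val xs = t) (hs : s.val xs = 8 / 10 - r) :
    (eI c x y te s).val xs = Real.pi * (r - c.val xs) -
      NumI.lnB (c.val xs - x.val xs) (t - y.val xs) +
      NumI.lnB (r - x.val xs) (20 * t * (8 / 10 - r) - y.val xs) := by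
  simp only [eI, E.val, er_val hs, et_val ht hs, ht]

theorem eJ_val {c w S te s : E} (ht : te.val xs = t) (hs : s.val xs = 8 / 10 - r) :
    (eJ c w S te s).val xs = Real.exp (2 * Real.pi * (t - 20 * t * (8 / 10 - r))) *
      (Real.cosh (2 * Real.pi * (t + S.val xs)) - Real.cos (2 * Real.pi * (c.val xs + w.val xs))) -
      (Real.cosh (2 * Real.pi * (20 * t * (8 / 10 - r) + S.val xs)) -
        Real.cos (2 * Real.pi * (r + w.val xs))) := by
  simp only [eJ, E.val, er_val hs, et_val ht hs, ht]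
  push_cast
  rw [show Real.pi * (2 / 1 * (c.val xs + w.val xs)) = 2 * Real.pi * (c.val xs + w.val xs) by ring,
    show Real.pi * (2 / 1 * (r + w.val xs)) = 2 * Real.pi * (r + w.val xs) by ring,
    show (2 : ℝ) / 1 * Real.pi = 2 * Real.pi by ring]
  ring

/-- reduction to `T = T0` and `w = w0`, `w = w1` -/
theorem core {c x T w S T0 w0 w1 τ : ℝ} (x1 : 0 < c - x) (x1' : c - x < 1) (x2 : 0 < r - x)
    (x2' : r - x < 1) (hT : T0 ≤ T)
    (hI : ∀ y, T0 ≤ y → y ≤ T →
      0 < Real.pi * (r - c) - NumI.lnB (c - x) (t - y) + NumI.lnB (r - x) (τ - y))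
    (hw : w0 ≤ w) (hw' : w ≤ w1) (hr : w0 ≤ 1 - r) (hr1 : r < 1) (h0 : 0 < c + w0)
    (hcr : 1 / 2 ≤ c + (1 - r)) (hcr' : c < r) (hc' : c + w1 < 1) (h1 : 0 < r + w0)
    (h2 : r + w1 - 1 ≤ 1 / 2)
    (hJ : ∀ y, w0 ≤ y → y < 1 - r → 0 < Real.exp (2 * Real.pi * (t - τ)) *
      (Real.cosh (2 * Real.pi * (t + S)) - Real.cos (2 * Real.pi * (c + y))) -
      (Real.cosh (2 * Real.pi * (τ + S)) - Real.cos (2 * Real.pi * (r + y))))
    (k0 : 0 < FA c r t τ x T0 + FB c r t τ w0 S + FC c r t τ)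
    (k1 : 0 < FA c r t τ x T0 + FB c r t τ w1 S + FC c r t τ) :
    0 < FA c r t τ x T + FB c r t τ w S + FC c r t τ := by
  have a1 : FA c r t τ x T0 ≤ FA c r t τ x T := by
    apply FA_mono hT x1 x1' x2 x2'
    intro y hy hy'
    have e1 : YY ⟨c - x, t - y⟩ = -NumI.lnB (c - x) (t - y) := Num.YY_lnB ⟨x1, x1'⟩
    have e2 : YY ⟨r - x, τ - y⟩ = -NumI.lnB (r - x) (τ - y) := Num.YY_lnB ⟨x2, x2'⟩
    rw [e1, e2]
    have := hI y hy hy'
    linarith only [this]
  have a2 : min (FB c r t τ w0 S) (FB c r t τ w1 S) ≤ FB c r t τ w S := by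
    apply FB_min hw hw' hr h0 hcr hc' h1 h2
    intro y hy hy'
    apply LL_cond (by linarith only [h0, hy]) (by linarith only [hcr', hy']) (by linarith only [h0, hcr', hy]) (by linarith only [hy'])
    have := hJ y hy hy'
    linarith only [this]
  rcases min_le_iff.1 a2 with h | h <;> linarith only [k0, a1, h, k1]

end VN

end Pool.Agent.Work.MP_b30479_gt.G2
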