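import Pool.Agent.Work.MP_b30479_gt.G2.V3MidRB
import Pool.Agent.Work.NumU.ChkS

/-!
# Value row of the inner variable of an inner digit `3`, right ramp: certificates
-/

set_option linter.unusedSimpArgs false

namespace Pool.Agent.Work.MP_b30479_gt.G2

open VOL NumU

namespace VN

theorem val_q (n : ℤ) (xs : List ℝ) : (E.q n 10000).val xs = (n : ℝ) / 10000 := by
  simp only [E.val]
  push_cast
  ring

variable {x T w S t r y : ℝ}

theorem abs_cases {a b : ℝ} (h1 : 0 < a + Real.pi * (|b| - 1 * b))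
    (h2 : 0 < a + Real.pi * (|b| - (-1) * b)) : 0 < a := by
  rcases le_total 0 b with h | h
  · rw [abs_of_nonneg h] at h1
    have : Real.pi * (b - 1 * b) = 0 := by ring
    linarith only [h1]
  · rw [abs_of_nonpos h] at h2
    have : Real.pi * (-b - -1 * b) = 0 := by ring
    linarith only [h2]

/-! ### N1 -/

theorem k0_N1 (hx : 1200 / 10000 ≤ x) (hx' : x ≤ 3300 / 10000) (hS : -1145 / 10000 ≤ S) (hS' : S ≤ -210 / 10000) (ht : -1220 / 10000 ≤ t) (ht' : t ≤ 150 / 10000)
    (hr : 75 / 100 ≤ r) (hr' : r ≤ 80 / 100) :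
    0 < FA (5400 / 10000) r t (20 * t * (8 / 10 - r)) x (-570 / 10000) +
      FB (5400 / 10000) r t (20 * t * (8 / 10 - r)) (1500 / 10000) S +
      FC (5400 / 10000) r t (20 * t * (8 / 10 - r)) := by
  have h : chk [eD (E.q 5400 10000) (E.var 0) (E.q (-570) 10000) (E.q 1500 10000) (E.var 1) (E.var 2) (E.var 3)] 30
      [NumI.V.of 10000 1200 3300, NumI.V.of 10000 (-1145) (-210),
        NumI.V.of 10000 (-1220) 150, NumI.V.of 10000 0 500] = true := by decide +kernel
  have hp := pos_of_chk (chk4 h (by norm_num) (x := x) (y := S) (z := t) (w := 8 / 10 - r)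
    (by push_cast; linarith only [hx]) (by push_cast; linarith only [hx']) (by push_cast; linarith only [hS])
    (by push_cast; linarith only [hS']) (by push_cast; linarith only [ht]) (by push_cast; linarith only [ht'])
    (by push_cast; linarith only [hr']) (by push_cast; linarith only [hr]))
  rw [eD_val (t := t) (r := r) rfl rfl, val_q, val_q, val_q] at hp
  push_cast at hp
  simpa [E.val, NumI.lkR] using hp

theorem k1_N1 (hx : 1200 / 10000 ≤ x) (hx' : x ≤ 3300 / 10000) (hS : -1145 / 10000 ≤ S) (hS' : S ≤ -210 / 10000) (ht : -1220 / 10000 ≤ t) (ht' : t ≤ 150 / 10000)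
    (hr : 75 / 100 ≤ r) (hr' : r ≤ 80 / 100) :
    0 < FA (5400 / 10000) r t (20 * t * (8 / 10 - r)) x (-570 / 10000) +
      FB (5400 / 10000) r t (20 * t * (8 / 10 - r)) (3700 / 10000) S +
      FC (5400 / 10000) r t (20 * t * (8 / 10 - r)) := by
  have h1 : chk [eD' (E.q 5400 10000) (E.var 0) (E.q (-570) 10000) (E.q 3700 10000) (E.var 1) (E.var 2) (E.var 3) 1] 30
      [NumI.V.of 10000 1200 3300, NumI.V.of 10000 (-1145) (-210),
        NumI.V.of 10000 (-1220) 150, NumI.V.of 10000 0 500] = true := by decide +kernel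
  have h2 : chk [eD' (E.q 5400 10000) (E.var 0) (E.q (-570) 10000) (E.q 3700 10000) (E.var 1) (E.var 2) (E.var 3) (-1)] 30
      [NumI.V.of 10000 1200 3300, NumI.V.of 10000 (-1145) (-210),
        NumI.V.of 10000 (-1220) 150, NumI.V.of 10000 0 500] = true := by decide +kernel
  have hp1 := pos_of_chk (chk4 h1 (by norm_num) (x := x) (y := S) (z := t) (w := 8 / 10 - r)
    (by push_cast; linarith only [hx]) (by push_cast; linarith only [hx']) (by push_cast; linarith only [hS])
    (by push_cast; linarith only [hS']) (by push_cast; linarith only [ht]) (by push_cast; linarith only [ht'])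
    (by push_cast; linarith only [hr']) (by push_cast; linarith only [hr]))
  have hp2 := pos_of_chk (chk4 h2 (by norm_num) (x := x) (y := S) (z := t) (w := 8 / 10 - r)
    (by push_cast; linarith only [hx]) (by push_cast; linarith only [hx']) (by push_cast; linarith only [hS])
    (by push_cast; linarith only [hS']) (by push_cast; linarith only [ht]) (by push_cast; linarith only [ht'])
    (by push_cast; linarith only [hr']) (by push_cast; linarith only [hr]))
  rw [eD'_val (t := t) (r := r) 1 rfl rfl, val_q, val_q, val_q] at hp1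
  rw [eD'_val (t := t) (r := r) (-1) rfl rfl, val_q, val_q, val_q] at hp2
  exact abs_cases (by simpa [E.val, NumI.lkR] using hp1) (by simpa [E.val, NumI.lkR] using hp2)

theorem kI_N1 (hx : 1200 / 10000 ≤ x) (hx' : x ≤ 3300 / 10000) (hy : -570 / 10000 ≤ y)
    (hy' : y ≤ 570 / 10000) (ht : -1220 / 10000 ≤ t) (ht' : t ≤ 150 / 10000)
    (hr : 75 / 100 ≤ r) (hr' : r ≤ 80 / 100) :
    0 < Real.pi * (r - 5400 / 10000) - NumI.lnB (5400 / 10000 - x) (t - y) +
      NumI.lnB (r - x) (20 * t * (8 / 10 - r) - y) := by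
  have h : chk [eI (E.q 5400 10000) (E.var 0) (E.var 1) (E.var 2) (E.var 3)] 30
      [NumI.V.of 10000 1200 3300, NumI.V.of 10000 (-570) 570,
        NumI.V.of 10000 (-1220) 150, NumI.V.of 10000 0 500] = true := by decide +kernel
  have hp := pos_of_chk (chk4 h (by norm_num) (x := x) (y := y) (z := t) (w := 8 / 10 - r)
    (by push_cast; linarith only [hx]) (by push_cast; linarith only [hx']) (by push_cast; linarith only [hy])
    (by push_cast; linarith only [hy']) (by push_cast; linarith only [ht]) (by push_cast; linarith only [ht'])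
    (by push_cast; linarith only [hr']) (by push_cast; linarith only [hr]))
  rw [eI_val (t := t) (r := r) rfl rfl, val_q] at hp
  push_cast at hp
  simpa [E.val, NumI.lkR] using hp

theorem kJ_N1 (hw : 1500 / 10000 ≤ w) (hw' : w < 1 - r) (hS : -1145 / 10000 ≤ S) (hS' : S ≤ -210 / 10000) (ht : -1220 / 10000 ≤ t) (ht' : t ≤ 150 / 10000)
    (hr : 75 / 100 ≤ r) (hr' : r ≤ 80 / 100) :
    0 < Real.exp (2 * Real.pi * (t - 20 * t * (8 / 10 - r))) *
      (Real.cosh (2 * Real.pi * (t + S)) - Real.cos (2 * Real.pi * (5400 / 10000 + w))) -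
      (Real.cosh (2 * Real.pi * (20 * t * (8 / 10 - r) + S)) -
        Real.cos (2 * Real.pi * (r + w))) := by
  have h : chk [eJ (E.q 5400 10000) (E.var 0) (E.var 1) (E.var 2) (E.var 3)] 30
      [NumI.V.of 10000 1500 2500, NumI.V.of 10000 (-1145) (-210),
        NumI.V.of 10000 (-1220) 150, NumI.V.of 10000 0 500] = true := by decide +kernel
  have hp := pos_of_chk (chk4 h (by norm_num) (x := w) (y := S) (z := t) (w := 8 / 10 - r)
    (by push_cast; linarith only [hw]) (by push_cast; linarith only [hw', hr]) (by push_cast; linarith only [hS])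
    (by push_cast; linarith only [hS']) (by push_cast; linarith only [ht]) (by push_cast; linarith only [ht'])
    (by push_cast; linarith only [hr']) (by push_cast; linarith only [hr]))
  rw [eJ_val (t := t) (r := r) rfl rfl, val_q] at hp
  push_cast at hp
  simpa [E.val, NumI.lkR] using hp

theorem diff_N1 (hx : 1200 / 10000 ≤ x) (hx' : x ≤ 3300 / 10000) (hT : -570 / 10000 ≤ T)
    (hT' : T ≤ 570 / 10000) (hw : 1500 / 10000 ≤ w) (hw' : w ≤ 3700 / 10000) (hS : -1145 / 10000 ≤ S)
    (hS' : S ≤ -210 / 10000) (ht : -1220 / 10000 ≤ t) (ht' : t ≤ 150 / 10000)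
    (hr : 75 / 100 ≤ r) (hr' : r ≤ 80 / 100) :
    0 < FA (5400 / 10000) r t (20 * t * (8 / 10 - r)) x T +
      FB (5400 / 10000) r t (20 * t * (8 / 10 - r)) w S +
      FC (5400 / 10000) r t (20 * t * (8 / 10 - r)) := by
  apply core (T0 := -570 / 10000) (w0 := 1500 / 10000) (w1 := 3700 / 10000) (by linarith only [hx']) (by linarith only [hx])
    (by linarith only [hx', hr]) (by linarith only [hx, hr']) hT _ hw hw' (by linarith only [hr']) (by linarith only [hr']) (by norm_num)
    (by linarith only [hr']) (by linarith only [hr]) (by norm_num) (by linarith only [hr]) (by linarith only [hr']) _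
    (k0_N1 hx hx' hS hS' ht ht' hr hr') (k1_N1 hx hx' hS hS' ht ht' hr hr')
  · exact fun y hy hy' => kI_N1 hx hx' hy (hy'.trans hT') ht ht' hr hr'
  · exact fun y hy hy' => kJ_N1 hy hy' hS hS' ht ht' hr hr'

/-! ### NN -/

theorem k0_NN_h1_q1 : chk [eD (E.q 6200 10000) (E.var 0) (E.q (-980) 10000) (E.q 1300 10000) (E.var 1) (E.var 2) (E.var 3)] 29
    (NumI.setL 3 [NumI.V.of 10000 1200 3300, NumI.V.of 10000 (-980) 570,
        NumI.V.of 10000 (-1230) 150, NumI.V.of 10000 0 500]) = true := by
  decide +kernel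

theorem k0_NN_h1_q2 : chk [eD (E.q 6200 10000) (E.var 0) (E.q (-980) 10000) (E.q 1300 10000) (E.var 1) (E.var 2) (E.var 3)] 28
    (NumI.setL 2 (NumI.setR 3 [NumI.V.of 10000 1200 3300, NumI.V.of 10000 (-980) 570,
        NumI.V.of 10000 (-1230) 150, NumI.V.of 10000 0 500])) = true := by
  decide +kernel

theorem k0_NN_h1_q3 : chk [eD (E.q 6200 10000) (E.var 0) (E.q (-980) 10000) (E.q 1300 10000) (E.var 1) (E.var 2) (E.var 3)] 28
    (NumI.setR 2 (NumI.setR 3 [NumI.V.of 10000 1200 3300, NumI.V.of 10000 (-980) 570,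
        NumI.V.of 10000 (-1230) 150, NumI.V.of 10000 0 500])) = true := by
  decide +kernel

theorem k0_NN_h1 : chk [eD (E.q 6200 10000) (E.var 0) (E.q (-980) 10000) (E.q 1300 10000) (E.var 1) (E.var 2) (E.var 3)] 30
    [NumI.V.of 10000 1200 3300, NumI.V.of 10000 (-980) 570,
        NumI.V.of 10000 (-1230) 150, NumI.V.of 10000 0 500] = true :=
  NumU.chk_node (i := 3) (by decide +kernel)
    k0_NN_h1_q1
    (NumU.chk_node (i := 2) (by decide +kernel)
      k0_NN_h1_q2
      k0_NN_h1_q3)

theorem k0_NN (hx : 1200 / 10000 ≤ x) (hx' : x ≤ 3300 / 10000) (hS : -980 / 10000 ≤ S) (hS' : S ≤ 570 / 10000) (ht : -1230 / 10000 ≤ t) (ht' : t ≤ 150 / 10000)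
    (hr : 75 / 100 ≤ r) (hr' : r ≤ 80 / 100) :
    0 < FA (6200 / 10000) r t (20 * t * (8 / 10 - r)) x (-980 / 10000) +
      FB (6200 / 10000) r t (20 * t * (8 / 10 - r)) (1300 / 10000) S +
      FC (6200 / 10000) r t (20 * t * (8 / 10 - r)) := by
  have h : chk [eD (E.q 6200 10000) (E.var 0) (E.q (-980) 10000) (E.q 1300 10000) (E.var 1) (E.var 2) (E.var 3)] 30
      [NumI.V.of 10000 1200 3300, NumI.V.of 10000 (-980) 570,
        NumI.V.of 10000 (-1230) 150, NumI.V.of 10000 0 500] = true := k0_NN_h1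
  have hp := pos_of_chk (chk4 h (by norm_num) (x := x) (y := S) (z := t) (w := 8 / 10 - r)
    (by push_cast; linarith only [hx]) (by push_cast; linarith only [hx']) (by push_cast; linarith only [hS])
    (by push_cast; linarith only [hS']) (by push_cast; linarith only [ht]) (by push_cast; linarith only [ht'])
    (by push_cast; linarith only [hr']) (by push_cast; linarith only [hr]))
  rw [eD_val (t := t) (r := r) rfl rfl, val_q, val_q, val_q] at hp
  push_cast at hp
  simpa [E.val, NumI.lkR] using hp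

theorem k1_NN (hx : 1200 / 10000 ≤ x) (hx' : x ≤ 3300 / 10000) (hS : -980 / 10000 ≤ S) (hS' : S ≤ 570 / 10000) (ht : -1230 / 10000 ≤ t) (ht' : t ≤ 150 / 10000)
    (hr : 75 / 100 ≤ r) (hr' : r ≤ 80 / 100) :
    0 < FA (6200 / 10000) r t (20 * t * (8 / 10 - r)) x (-980 / 10000) +
      FB (6200 / 10000) r t (20 * t * (8 / 10 - r)) (3100 / 10000) S +
      FC (6200 / 10000) r t (20 * t * (8 / 10 - r)) := by
  have h1 : chk [eD' (E.q 6200 10000) (E.var 0) (E.q (-980) 10000) (E.q 3100 10000) (E.var 1) (E.var 2) (E.var 3) 1] 30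
      [NumI.V.of 10000 1200 3300, NumI.V.of 10000 (-980) 570,
        NumI.V.of 10000 (-1230) 150, NumI.V.of 10000 0 500] = true := by decide +kernel
  have h2 : chk [eD' (E.q 6200 10000) (E.var 0) (E.q (-980) 10000) (E.q 3100 10000) (E.var 1) (E.var 2) (E.var 3) (-1)] 30
      [NumI.V.of 10000 1200 3300, NumI.V.of 10000 (-980) 570,
        NumI.V.of 10000 (-1230) 150, NumI.V.of 10000 0 500] = true := by decide +kernel
  have hp1 := pos_of_chk (chk4 h1 (by norm_num) (x := x) (y := S) (z := t) (w := 8 / 10 - r)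
    (by push_cast; linarith only [hx]) (by push_cast; linarith only [hx']) (by push_cast; linarith only [hS])
    (by push_cast; linarith only [hS']) (by push_cast; linarith only [ht]) (by push_cast; linarith only [ht'])
    (by push_cast; linarith only [hr']) (by push_cast; linarith only [hr]))
  have hp2 := pos_of_chk (chk4 h2 (by norm_num) (x := x) (y := S) (z := t) (w := 8 / 10 - r)
    (by push_cast; linarith only [hx]) (by push_cast; linarith only [hx']) (by push_cast; linarith only [hS])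
    (by push_cast; linarith only [hS']) (by push_cast; linarith only [ht]) (by push_cast; linarith only [ht'])
    (by push_cast; linarith only [hr']) (by push_cast; linarith only [hr]))
  rw [eD'_val (t := t) (r := r) 1 rfl rfl, val_q, val_q, val_q] at hp1
  rw [eD'_val (t := t) (r := r) (-1) rfl rfl, val_q, val_q, val_q] at hp2
  exact abs_cases (by simpa [E.val, NumI.lkR] using hp1) (by simpa [E.val, NumI.lkR] using hp2)

theorem kI_NN (hx : 1200 / 10000 ≤ x) (hx' : x ≤ 3300 / 10000) (hy : -980 / 10000 ≤ y)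
    (hy' : y ≤ 570 / 10000) (ht : -1230 / 10000 ≤ t) (ht' : t ≤ 150 / 10000)
    (hr : 75 / 100 ≤ r) (hr' : r ≤ 80 / 100) :
    0 < Real.pi * (r - 6200 / 10000) - NumI.lnB (6200 / 10000 - x) (t - y) +
      NumI.lnB (r - x) (20 * t * (8 / 10 - r) - y) := by
  have h : chk [eI (E.q 6200 10000) (E.var 0) (E.var 1) (E.var 2) (E.var 3)] 30
      [NumI.V.of 10000 1200 3300, NumI.V.of 10000 (-980) 570,
        NumI.V.of 10000 (-1230) 150, NumI.V.of 10000 0 500] = true := by decide +kernel
  have hp := pos_of_chk (chk4 h (by norm_num) (x := x) (y := y) (z := t) (w := 8 / 10 - r)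
    (by push_cast; linarith only [hx]) (by push_cast; linarith only [hx']) (by push_cast; linarith only [hy])
    (by push_cast; linarith only [hy']) (by push_cast; linarith only [ht]) (by push_cast; linarith only [ht'])
    (by push_cast; linarith only [hr']) (by push_cast; linarith only [hr]))
  rw [eI_val (t := t) (r := r) rfl rfl, val_q] at hp
  push_cast at hp
  simpa [E.val, NumI.lkR] using hp

theorem kJ_NN (hw : 1300 / 10000 ≤ w) (hw' : w < 1 - r) (hS : -980 / 10000 ≤ S) (hS' : S ≤ 570 / 10000) (ht : -1230 / 10000 ≤ t) (ht' : t ≤ 150 / 10000)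
    (hr : 75 / 100 ≤ r) (hr' : r ≤ 80 / 100) :
    0 < Real.exp (2 * Real.pi * (t - 20 * t * (8 / 10 - r))) *
      (Real.cosh (2 * Real.pi * (t + S)) - Real.cos (2 * Real.pi * (6200 / 10000 + w))) -
      (Real.cosh (2 * Real.pi * (20 * t * (8 / 10 - r) + S)) -
        Real.cos (2 * Real.pi * (r + w))) := by
  have h : chk [eJ (E.q 6200 10000) (E.var 0) (E.var 1) (E.var 2) (E.var 3)] 30
      [NumI.V.of 10000 1300 2500, NumI.V.of 10000 (-980) 570,
        NumI.V.of 10000 (-1230) 150, NumI.V.of 10000 0 500] = true := by decide +kernel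
  have hp := pos_of_chk (chk4 h (by norm_num) (x := w) (y := S) (z := t) (w := 8 / 10 - r)
    (by push_cast; linarith only [hw]) (by push_cast; linarith only [hw', hr]) (by push_cast; linarith only [hS])
    (by push_cast; linarith only [hS']) (by push_cast; linarith only [ht]) (by push_cast; linarith only [ht'])
    (by push_cast; linarith only [hr']) (by push_cast; linarith only [hr]))
  rw [eJ_val (t := t) (r := r) rfl rfl, val_q] at hp
  push_cast at hp
  simpa [E.val, NumI.lkR] using hp

theorem diff_NN (hx : 1200 / 10000 ≤ x) (hx' : x ≤ 3300 / 10000) (hT : -980 / 10000 ≤ T)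
    (hT' : T ≤ 570 / 10000) (hw : 1300 / 10000 ≤ w) (hw' : w ≤ 3100 / 10000) (hS : -980 / 10000 ≤ S)
    (hS' : S ≤ 570 / 10000) (ht : -1230 / 10000 ≤ t) (ht' : t ≤ 150 / 10000)
    (hr : 75 / 100 ≤ r) (hr' : r ≤ 80 / 100) :
    0 < FA (6200 / 10000) r t (20 * t * (8 / 10 - r)) x T +
      FB (6200 / 10000) r t (20 * t * (8 / 10 - r)) w S +
      FC (6200 / 10000) r t (20 * t * (8 / 10 - r)) := by
  apply core (T0 := -980 / 10000) (w0 := 1300 / 10000) (w1 := 3100 / 10000) (by linarith only [hx']) (by linarith only [hx])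
    (by linarith only [hx', hr]) (by linarith only [hx, hr']) hT _ hw hw' (by linarith only [hr']) (by linarith only [hr']) (by norm_num)
    (by linarith only [hr']) (by linarith only [hr]) (by norm_num) (by linarith only [hr]) (by linarith only [hr']) _
    (k0_NN hx hx' hS hS' ht ht' hr hr') (k1_NN hx hx' hS hS' ht ht' hr hr')
  · exact fun y hy hy' => kI_NN hx hx' hy (hy'.trans hT') ht ht' hr hr'
  · exact fun y hy hy' => kJ_NN hy hy' hS hS' ht ht' hr hr'

/-! ### 1N -/

theorem k0_1N_h1_q1 : chk [eD (E.q 6600 10000) (E.var 0) (E.q (-1145) 10000) (E.q 1300 10000) (E.var 1) (E.var 2) (E.var 3)] 28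
    (NumI.setL 3 (NumI.setL 0 [NumI.V.of 10000 1200 4200, NumI.V.of 10000 (-980) 570,
        NumI.V.of 10000 (-920) 150, NumI.V.of 10000 0 500])) = true := by
  decide +kernel

theorem k0_1N_h1_q2 : chk [eD (E.q 6600 10000) (E.var 0) (E.q (-1145) 10000) (E.q 1300 10000) (E.var 1) (E.var 2) (E.var 3)] 27
    (NumI.setL 1 (NumI.setR 3 (NumI.setL 0 [NumI.V.of 10000 1200 4200, NumI.V.of 10000 (-980) 570,
        NumI.V.of 10000 (-920) 150, NumI.V.of 10000 0 500]))) = true := by
  decide +kernel

theorem k0_1N_h1_q3 : chk [eD (E.q 6600 10000) (E.var 0) (E.q (-1145) 10000) (E.q 1300 10000) (E.var 1) (E.var 2) (E.var 3)] 27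
    (NumI.setR 1 (NumI.setR 3 (NumI.setL 0 [NumI.V.of 10000 1200 4200, NumI.V.of 10000 (-980) 570,
        NumI.V.of 10000 (-920) 150, NumI.V.of 10000 0 500]))) = true := by
  decide +kernel

theorem k0_1N_h1_q4 : chk [eD (E.q 6600 10000) (E.var 0) (E.q (-1145) 10000) (E.q 1300 10000) (E.var 1) (E.var 2) (E.var 3)] 28
    (NumI.setL 3 (NumI.setR 0 [NumI.V.of 10000 1200 4200, NumI.V.of 10000 (-980) 570,
        NumI.V.of 10000 (-920) 150, NumI.V.of 10000 0 500])) = true := by
  decide +kernel

theorem k0_1N_h1_q5 : chk [eD (E.q 6600 10000) (E.var 0) (E.q (-1145) 10000) (E.q 1300 10000) (E.var 1) (E.var 2) (E.var 3)] 27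
    (NumI.setL 1 (NumI.setR 3 (NumI.setR 0 [NumI.V.of 10000 1200 4200, NumI.V.of 10000 (-980) 570,
        NumI.V.of 10000 (-920) 150, NumI.V.of 10000 0 500]))) = true := by
  decide +kernel

theorem k0_1N_h1_q6 : chk [eD (E.q 6600 10000) (E.var 0) (E.q (-1145) 10000) (E.q 1300 10000) (E.var 1) (E.var 2) (E.var 3)] 26
    (NumI.setL 0 (NumI.setR 1 (NumI.setR 3 (NumI.setR 0 [NumI.V.of 10000 1200 4200, NumI.V.of 10000 (-980) 570,
        NumI.V.of 10000 (-920) 150, NumI.V.of 10000 0 500])))) = true := by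
  decide +kernel

theorem k0_1N_h1_q7 : chk [eD (E.q 6600 10000) (E.var 0) (E.q (-1145) 10000) (E.q 1300 10000) (E.var 1) (E.var 2) (E.var 3)] 26
    (NumI.setR 0 (NumI.setR 1 (NumI.setR 3 (NumI.setR 0 [NumI.V.of 10000 1200 4200, NumI.V.of 10000 (-980) 570,
        NumI.V.of 10000 (-920) 150, NumI.V.of 10000 0 500])))) = true := by
  decide +kernel

theorem k0_1N_h1 : chk [eD (E.q 6600 10000) (E.var 0) (E.q (-1145) 10000) (E.q 1300 10000) (E.var 1) (E.var 2) (E.var 3)] 30
    [NumI.V.of 10000 1200 4200, NumI.V.of 10000 (-980) 570,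
        NumI.V.of 10000 (-920) 150, NumI.V.of 10000 0 500] = true :=
  NumU.chk_node (i := 0) (by decide +kernel)
    (NumU.chk_node (i := 3) (by decide +kernel)
      k0_1N_h1_q1
      (NumU.chk_node (i := 1) (by decide +kernel)
        k0_1N_h1_q2
        k0_1N_h1_q3))
    (NumU.chk_node (i := 3) (by decide +kernel)
      k0_1N_h1_q4
      (NumU.chk_node (i := 1) (by decide +kernel)
        k0_1N_h1_q5
        (NumU.chk_node (i := 0) (by decide +kernel)
          k0_1N_h1_q6
          k0_1N_h1_q7)))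

theorem k0_1N (hx : 1200 / 10000 ≤ x) (hx' : x ≤ 4200 / 10000) (hS : -980 / 10000 ≤ S) (hS' : S ≤ 570 / 10000) (ht : -920 / 10000 ≤ t) (ht' : t ≤ 150 / 10000)
    (hr : 75 / 100 ≤ r) (hr' : r ≤ 80 / 100) :
    0 < FA (6600 / 10000) r t (20 * t * (8 / 10 - r)) x (-1145 / 10000) +
      FB (6600 / 10000) r t (20 * t * (8 / 10 - r)) (1300 / 10000) S +
      FC (6600 / 10000) r t (20 * t * (8 / 10 - r)) := by
  have h : chk [eD (E.q 6600 10000) (E.var 0) (E.q (-1145) 10000) (E.q 1300 10000) (E.var 1) (E.var 2) (E.var 3)] 30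
      [NumI.V.of 10000 1200 4200, NumI.V.of 10000 (-980) 570,
        NumI.V.of 10000 (-920) 150, NumI.V.of 10000 0 500] = true := k0_1N_h1
  have hp := pos_of_chk (chk4 h (by norm_num) (x := x) (y := S) (z := t) (w := 8 / 10 - r)
    (by push_cast; linarith only [hx]) (by push_cast; linarith only [hx']) (by push_cast; linarith only [hS])
    (by push_cast; linarith only [hS']) (by push_cast; linarith only [ht]) (by push_cast; linarith only [ht'])
    (by push_cast; linarith only [hr']) (by push_cast; linarith only [hr]))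
  rw [eD_val (t := t) (r := r) rfl rfl, val_q, val_q, val_q] at hp
  push_cast at hp
  simpa [E.val, NumI.lkR] using hp

theorem k1_1N_h1_q1 : chk [eD' (E.q 6600 10000) (E.var 0) (E.q (-1145) 10000) (E.q 3100 10000) (E.var 1) (E.var 2) (E.var 3) 1] 29
    (NumI.setL 1 [NumI.V.of 10000 1200 4200, NumI.V.of 10000 (-980) 570,
        NumI.V.of 10000 (-920) 150, NumI.V.of 10000 0 500]) = true := by
  decide +kernel

theorem k1_1N_h1_q2 : chk [eD' (E.q 6600 10000) (E.var 0) (E.q (-1145) 10000) (E.q 3100 10000) (E.var 1) (E.var 2) (E.var 3) 1] 28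
    (NumI.setL 1 (NumI.setR 1 [NumI.V.of 10000 1200 4200, NumI.V.of 10000 (-980) 570,
        NumI.V.of 10000 (-920) 150, NumI.V.of 10000 0 500])) = true := by
  decide +kernel

theorem k1_1N_h1_q3 : chk [eD' (E.q 6600 10000) (E.var 0) (E.q (-1145) 10000) (E.q 3100 10000) (E.var 1) (E.var 2) (E.var 3) 1] 28
    (NumI.setR 1 (NumI.setR 1 [NumI.V.of 10000 1200 4200, NumI.V.of 10000 (-980) 570,
        NumI.V.of 10000 (-920) 150, NumI.V.of 10000 0 500])) = true := by
  decide +kernel

theorem k1_1N_h1 : chk [eD' (E.q 6600 10000) (E.var 0) (E.q (-1145) 10000) (E.q 3100 10000) (E.var 1) (E.var 2) (E.var 3) 1] 30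
    [NumI.V.of 10000 1200 4200, NumI.V.of 10000 (-980) 570,
        NumI.V.of 10000 (-920) 150, NumI.V.of 10000 0 500] = true :=
  NumU.chk_node (i := 1) (by decide +kernel)
    k1_1N_h1_q1
    (NumU.chk_node (i := 1) (by decide +kernel)
      k1_1N_h1_q2
      k1_1N_h1_q3)

theorem k1_1N_h2_q1 : chk [eD' (E.q 6600 10000) (E.var 0) (E.q (-1145) 10000) (E.q 3100 10000) (E.var 1) (E.var 2) (E.var 3) (-1)] 28
    (NumI.setL 3 (NumI.setL 1 [NumI.V.of 10000 1200 4200, NumI.V.of 10000 (-980) 570,
        NumI.V.of 10000 (-920) 150, NumI.V.of 10000 0 500])) = true := by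
  decide +kernel

theorem k1_1N_h2_q2 : chk [eD' (E.q 6600 10000) (E.var 0) (E.q (-1145) 10000) (E.q 3100 10000) (E.var 1) (E.var 2) (E.var 3) (-1)] 28
    (NumI.setR 3 (NumI.setL 1 [NumI.V.of 10000 1200 4200, NumI.V.of 10000 (-980) 570,
        NumI.V.of 10000 (-920) 150, NumI.V.of 10000 0 500])) = true := by
  decide +kernel

theorem k1_1N_h2_q3 : chk [eD' (E.q 6600 10000) (E.var 0) (E.q (-1145) 10000) (E.q 3100 10000) (E.var 1) (E.var 2) (E.var 3) (-1)] 29
    (NumI.setR 1 [NumI.V.of 10000 1200 4200, NumI.V.of 10000 (-980) 570,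
        NumI.V.of 10000 (-920) 150, NumI.V.of 10000 0 500]) = true := by
  decide +kernel

theorem k1_1N_h2 : chk [eD' (E.q 6600 10000) (E.var 0) (E.q (-1145) 10000) (E.q 3100 10000) (E.var 1) (E.var 2) (E.var 3) (-1)] 30
    [NumI.V.of 10000 1200 4200, NumI.V.of 10000 (-980) 570,
        NumI.V.of 10000 (-920) 150, NumI.V.of 10000 0 500] = true :=
  NumU.chk_node (i := 1) (by decide +kernel)
    (NumU.chk_node (i := 3) (by decide +kernel)
      k1_1N_h2_q1
      k1_1N_h2_q2)
    k1_1N_h2_q3

theorem k1_1N (hx : 1200 / 10000 ≤ x) (hx' : x ≤ 4200 / 10000) (hS : -980 / 10000 ≤ S) (hS' : S ≤ 570 / 10000) (ht : -920 / 10000 ≤ t) (ht' : t ≤ 150 / 10000)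
    (hr : 75 / 100 ≤ r) (hr' : r ≤ 80 / 100) :
    0 < FA (6600 / 10000) r t (20 * t * (8 / 10 - r)) x (-1145 / 10000) +
      FB (6600 / 10000) r t (20 * t * (8 / 10 - r)) (3100 / 10000) S +
      FC (6600 / 10000) r t (20 * t * (8 / 10 - r)) := by
  have h1 : chk [eD' (E.q 6600 10000) (E.var 0) (E.q (-1145) 10000) (E.q 3100 10000) (E.var 1) (E.var 2) (E.var 3) 1] 30
      [NumI.V.of 10000 1200 4200, NumI.V.of 10000 (-980) 570,
        NumI.V.of 10000 (-920) 150, NumI.V.of 10000 0 500] = true := k1_1N_h1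
  have h2 : chk [eD' (E.q 6600 10000) (E.var 0) (E.q (-1145) 10000) (E.q 3100 10000) (E.var 1) (E.var 2) (E.var 3) (-1)] 30
      [NumI.V.of 10000 1200 4200, NumI.V.of 10000 (-980) 570,
        NumI.V.of 10000 (-920) 150, NumI.V.of 10000 0 500] = true := k1_1N_h2
  have hp1 := pos_of_chk (chk4 h1 (by norm_num) (x := x) (y := S) (z := t) (w := 8 / 10 - r)
    (by push_cast; linarith only [hx]) (by push_cast; linarith only [hx']) (by push_cast; linarith only [hS])
    (by push_cast; linarith only [hS']) (by push_cast; linarith only [ht]) (by push_cast; linarith only [ht'])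
    (by push_cast; linarith only [hr']) (by push_cast; linarith only [hr]))
  have hp2 := pos_of_chk (chk4 h2 (by norm_num) (x := x) (y := S) (z := t) (w := 8 / 10 - r)
    (by push_cast; linarith only [hx]) (by push_cast; linarith only [hx']) (by push_cast; linarith only [hS])
    (by push_cast; linarith only [hS']) (by push_cast; linarith only [ht]) (by push_cast; linarith only [ht'])
    (by push_cast; linarith only [hr']) (by push_cast; linarith only [hr]))
  rw [eD'_val (t := t) (r := r) 1 rfl rfl, val_q, val_q, val_q] at hp1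
  rw [eD'_val (t := t) (r := r) (-1) rfl rfl, val_q, val_q, val_q] at hp2
  exact abs_cases (by simpa [E.val, NumI.lkR] using hp1) (by simpa [E.val, NumI.lkR] using hp2)

theorem kI_1N (hx : 1200 / 10000 ≤ x) (hx' : x ≤ 4200 / 10000) (hy : -1145 / 10000 ≤ y)
    (hy' : y ≤ -210 / 10000) (ht : -920 / 10000 ≤ t) (ht' : t ≤ 150 / 10000)
    (hr : 75 / 100 ≤ r) (hr' : r ≤ 80 / 100) :
    0 < Real.pi * (r - 6600 / 10000) - NumI.lnB (6600 / 10000 - x) (t - y) +
      NumI.lnB (r - x) (20 * t * (8 / 10 - r) - y) := by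
  have h : chk [eI (E.q 6600 10000) (E.var 0) (E.var 1) (E.var 2) (E.var 3)] 30
      [NumI.V.of 10000 1200 4200, NumI.V.of 10000 (-1145) (-210),
        NumI.V.of 10000 (-920) 150, NumI.V.of 10000 0 500] = true := by decide +kernel
  have hp := pos_of_chk (chk4 h (by norm_num) (x := x) (y := y) (z := t) (w := 8 / 10 - r)
    (by push_cast; linarith only [hx]) (by push_cast; linarith only [hx']) (by push_cast; linarith only [hy])
    (by push_cast; linarith only [hy']) (by push_cast; linarith only [ht]) (by push_cast; linarith only [ht'])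
    (by push_cast; linarith only [hr']) (by push_cast; linarith only [hr]))
  rw [eI_val (t := t) (r := r) rfl rfl, val_q] at hp
  push_cast at hp
  simpa [E.val, NumI.lkR] using hp

theorem kJ_1N (hw : 1300 / 10000 ≤ w) (hw' : w < 1 - r) (hS : -980 / 10000 ≤ S) (hS' : S ≤ 570 / 10000) (ht : -920 / 10000 ≤ t) (ht' : t ≤ 150 / 10000)
    (hr : 75 / 100 ≤ r) (hr' : r ≤ 80 / 100) :
    0 < Real.exp (2 * Real.pi * (t - 20 * t * (8 / 10 - r))) *
      (Real.cosh (2 * Real.pi * (t + S)) - Real.cos (2 * Real.pi * (6600 / 10000 + w))) -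
      (Real.cosh (2 * Real.pi * (20 * t * (8 / 10 - r) + S)) -
        Real.cos (2 * Real.pi * (r + w))) := by
  have h : chk [eJ (E.q 6600 10000) (E.var 0) (E.var 1) (E.var 2) (E.var 3),
      E.sub (E.sub (E.var 0) (E.q 2 10)) (E.var 3)] 30
      [NumI.V.of 10000 1300 2500, NumI.V.of 10000 (-980) 570,
        NumI.V.of 10000 (-920) 150, NumI.V.of 10000 0 500] = true := by decide +kernel
  obtain ⟨e, he, hp⟩ := chk4 h (by norm_num) (x := w) (y := S) (z := t) (w := 8 / 10 - r)
    (by push_cast; linarith only [hw]) (by push_cast; linarith only [hw', hr]) (by push_cast; linarith only [hS])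
    (by push_cast; linarith only [hS']) (by push_cast; linarith only [ht]) (by push_cast; linarith only [ht'])
    (by push_cast; linarith only [hr']) (by push_cast; linarith only [hr])
  simp only [List.mem_cons, List.mem_nil_iff, or_false] at he
  rcases he with rfl | rfl
  · rw [eJ_val (t := t) (r := r) rfl rfl, val_q] at hp
    push_cast at hp
    simpa [E.val, NumI.lkR] using hp
  · exfalso
    simp only [E.val, NumI.lkR] at hp
    push_cast at hp
    linarith only [hw', hp]

theorem diff_1N (hx : 1200 / 10000 ≤ x) (hx' : x ≤ 4200 / 10000) (hT : -1145 / 10000 ≤ T)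
    (hT' : T ≤ -210 / 10000) (hw : 1300 / 10000 ≤ w) (hw' : w ≤ 3100 / 10000) (hS : -980 / 10000 ≤ S)
    (hS' : S ≤ 570 / 10000) (ht : -920 / 10000 ≤ t) (ht' : t ≤ 150 / 10000)
    (hr : 75 / 100 ≤ r) (hr' : r ≤ 80 / 100) :
    0 < FA (6600 / 10000) r t (20 * t * (8 / 10 - r)) x T +
      FB (6600 / 10000) r t (20 * t * (8 / 10 - r)) w S +
      FC (6600 / 10000) r t (20 * t * (8 / 10 - r)) := by
  apply core (T0 := -1145 / 10000) (w0 := 1300 / 10000) (w1 := 3100 / 10000) (by linarith only [hx']) (by linarith only [hx])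
    (by linarith only [hx', hr]) (by linarith only [hx, hr']) hT _ hw hw' (by linarith only [hr']) (by linarith only [hr']) (by norm_num)
    (by linarith only [hr']) (by linarith only [hr]) (by norm_num) (by linarith only [hr]) (by linarith only [hr']) _
    (k0_1N hx hx' hS hS' ht ht' hr hr') (k1_1N hx hx' hS hS' ht ht' hr hr')
  · exact fun y hy hy' => kI_1N hx hx' hy (hy'.trans hT') ht ht' hr hr'
  · exact fun y hy hy' => kJ_1N hy hy' hS hS' ht ht' hr hr'

end VN

end Pool.Agent.Work.MP_b30479_gt.G2
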