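import Pool.Agent.Work.MP_b30479_gt.G2.V3MidRC
import Pool.Agent.Work.MP_b30479_gt.G2.V3MidRF

/-!
# The inner variable of an inner digit `3` on its right ramp: certificates of the first order rows
-/

set_option linter.unusedSimpArgs false

namespace Pool.Agent.Work.MP_b30479_gt.G2

open VOL NumU

namespace VN

variable {u v w : ℂ} {T t r : ℝ}

theorem ht_neg {s : ℝ} (ht : t ≤ 0) (hs : s < 0) (hr : r ≤ 80 / 100) :
    20 * t * (8 / 10 - r) + s < 0 := by
  have : t * (8 / 10 - r) ≤ 0 := mul_nonpos_of_nonpos_of_nonneg ht (by linarith only [hr])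
  linarith only [hs, this]

/-! ### 11 -/

theorem gC_11 (h1 : v.re = r) (h2 : v.im = 20 * t * (8 / 10 - r)) (ht : -950 / 10000 ≤ t) (ht' : t ≤ -80 / 10000)
    (hr : 75 / 100 ≤ r) (hr' : r ≤ 80 / 100) :
    GC (-(20 * t)) v < -1600 / 10000 := by
  have h : chk [eGC (E.q (-1600) 10000) (E.var 0) (E.var 1)] 20
      [NumI.V.of 10000 (-950) (-80), NumI.V.of 10000 0 500] = true := by decide +kernel
  have hp := pos_of_chk (chk2 h (by norm_num) (x := t) (y := 8 / 10 - r) (by push_cast; linarith only [ht])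
    (by push_cast; linarith only [ht']) (by push_cast; linarith only [hr']) (by push_cast; linarith only [hr]))
  rw [eGC_val (t := t) (r := r) rfl rfl, val_q] at hp
  have hv : v ∈ strip := ⟨by linarith only [h1, hr], by linarith only [h1, hr']⟩
  unfold GC
  rw [Num.LL_lnA hv, Num.YY_lnB hv, h1, h2]
  push_cast at hp
  linarith only [hp]

theorem gA_11 (h1 : v.re = r) (h2 : v.im = 20 * t * (8 / 10 - r)) (hx : 1200 / 10000 ≤ u.re) (hx' : u.re ≤ 5000 / 10000)
    (hT : -1145 / 10000 ≤ u.im) (hT' : u.im ≤ -210 / 10000) (ht : -950 / 10000 ≤ t) (ht' : t ≤ -80 / 10000)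
    (hr : 75 / 100 ≤ r) (hr' : r ≤ 80 / 100) :
    GA (-(20 * t)) u v < 3300 / 10000 := by
  have h : chk [eGA (E.q (3300) 10000) (E.var 0) (E.var 1) (E.var 2) (E.var 3)] 24
      [NumI.V.of 10000 1200 5000, NumI.V.of 10000 (-1145) (-210),
        NumI.V.of 10000 (-950) (-80), NumI.V.of 10000 0 500] = true := by decide +kernel
  have hp := pos_of_chk (chk4 h (by norm_num) (x := u.re) (y := u.im) (z := t)
    (w := 8 / 10 - r) (by push_cast; linarith only [hx]) (by push_cast; linarith only [hx']) (by push_cast; linarith only [hT])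
    (by push_cast; linarith only [hT']) (by push_cast; linarith only [ht]) (by push_cast; linarith only [ht'])
    (by push_cast; linarith only [hr']) (by push_cast; linarith only [hr]))
  rw [eGA_val (t := t) (r := r) rfl rfl, val_q] at hp
  rw [GA_eq (by linarith only [h1, hx', hr]) (by linarith only [h1, hx, hr']), h1, h2]
  simp only [E.val, NumI.lkR] at hp
  push_cast at hp
  linarith only [hp]

theorem gA'_11 (h1 : v.re = r) (h2 : v.im = 20 * t * (8 / 10 - r)) (hx : 5000 / 10000 ≤ u.re) (hx' : u.re ≤ 6500 / 10000)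
    (hu : u.im = T * ((65 / 100 - u.re) / (15 / 100)))
    (hT : -1145 / 10000 ≤ T) (hT' : T ≤ -210 / 10000) (ht : -950 / 10000 ≤ t) (ht' : t ≤ -80 / 10000)
    (hr : 75 / 100 ≤ r) (hr' : r ≤ 80 / 100) :
    GA (-(20 * t)) u v < 3300 / 10000 := by
  have h : chk [eGA (E.q (3300) 10000) (E.var 0) (E.mul (E.var 1) (E.mul (E.q 20 3)
      (E.sub (E.q 65 100) (E.var 0)))) (E.var 2) (E.var 3)] 24
      [NumI.V.of 10000 5000 6500, NumI.V.of 10000 (-1145) (-210),
        NumI.V.of 10000 (-950) (-80), NumI.V.of 10000 0 500] = true := by decide +kernel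
  have hp := pos_of_chk (chk4 h (by norm_num) (x := u.re) (y := T) (z := t)
    (w := 8 / 10 - r) (by push_cast; linarith only [hx]) (by push_cast; linarith only [hx']) (by push_cast; linarith only [hT])
    (by push_cast; linarith only [hT']) (by push_cast; linarith only [ht]) (by push_cast; linarith only [ht'])
    (by push_cast; linarith only [hr']) (by push_cast; linarith only [hr]))
  rw [eGA_val (t := t) (r := r) rfl rfl, val_q] at hp
  rw [GA_eq (by linarith only [h1, hx', hr]) (by linarith only [h1, hx, hr']), h1, h2]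
  have e : (E.mul (E.var 1) (E.mul (E.q 20 3) (E.sub (E.q 65 100) (E.var 0)))).val
      [u.re, T, t, 8 / 10 - r] = u.im := by
    rw [hu]
    simp only [E.val, NumI.lkR]
    push_cast
    ring
  rw [e] at hp
  simp only [E.val, NumI.lkR] at hp
  push_cast at hp
  linarith only [hp]

theorem gB1_11 (h1 : v.re = r) (h2 : v.im = 20 * t * (8 / 10 - r)) (hw : 1500 / 10000 ≤ w.re) (hp : v.re + w.re ≤ 9500 / 10000)
    (hS : -1145 / 10000 ≤ w.im) (hS' : w.im ≤ -210 / 10000) (ht : -950 / 10000 ≤ t) (ht' : t ≤ -80 / 10000)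
    (hr : 75 / 100 ≤ r) (hr' : r ≤ 80 / 100) :
    GB (-(20 * t)) v w < -1800 / 10000 := by
  have h : chk [eGB (E.q (-1800) 10000) (E.add (er (E.var 3)) (E.var 0)) (E.var 0) (E.var 1)
      (E.var 2) (E.var 3) (E.q 0 1), E.sub (E.add (er (E.var 3)) (E.var 0)) (E.q 9500 10000)] 24
      [NumI.V.of 10000 1500 2000, NumI.V.of 10000 (-1145) (-210),
        NumI.V.of 10000 (-950) (-80), NumI.V.of 10000 0 500] = true := by decide +kernel
  obtain ⟨e, he, hp'⟩ := chk4 h (by norm_num) (x := w.re) (y := w.im) (z := t)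
    (w := 8 / 10 - r) (by push_cast; linarith only [hw]) (by push_cast; linarith only [h1, hp, hr]) (by push_cast; linarith only [hS])
    (by push_cast; linarith only [hS']) (by push_cast; linarith only [ht]) (by push_cast; linarith only [ht'])
    (by push_cast; linarith only [h1, hw, hp]) (by push_cast; linarith only [hr])
  simp only [List.mem_cons, List.mem_nil_iff, or_false] at he
  rcases he with rfl | rfl
  · rw [eGB_val (t := t) (r := r) rfl rfl, val_q] at hp'
    rw [GB_eq (by linarith only [h1, hw, hr]) (by linarith only [hp]), h1, h2]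
    simp only [E.val, NumI.lkR, er_val (r := r) (rfl : (E.var 3).val
      [w.re, w.im, t, 8 / 10 - r] = 8 / 10 - r)] at hp'
    push_cast at hp'
    linarith only [hp']
  · exfalso
    simp only [E.val, NumI.lkR, er_val (r := r) (rfl : (E.var 3).val
      [w.re, w.im, t, 8 / 10 - r] = 8 / 10 - r)] at hp'
    push_cast at hp'
    linarith only [h1, hp, hp']

theorem gB2_11 (h1 : v.re = r) (h2 : v.im = 20 * t * (8 / 10 - r)) (hp : 9500 / 10000 ≤ v.re + w.re) (hp' : v.re + w.re ≤ 10500 / 10000)
    (hS : -1145 / 10000 ≤ w.im) (hS' : w.im ≤ -210 / 10000) (ht : -950 / 10000 ≤ t) (ht' : t ≤ -80 / 10000)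
    (hr : 75 / 100 ≤ r) (hr' : r ≤ 80 / 100) :
    GB (-(20 * t)) v w < -1800 / 10000 := by
  have h : chk [eGB (E.q (-1800) 10000) (E.q 9500 10000) (E.var 0) (E.var 1)
      (E.var 2) (E.var 3) (E.q 0 1), E.sub (E.add (er (E.var 3)) (E.var 0)) (E.q 10500 10000),
      E.sub (E.q 9500 10000) (E.add (er (E.var 3)) (E.var 0))] 24
      [NumI.V.of 10000 1500 3000, NumI.V.of 10000 (-1145) (-210),
        NumI.V.of 10000 (-950) (-80), NumI.V.of 10000 0 500] = true := by decide +kernel
  obtain ⟨e, he, hp2⟩ := chk4 h (by norm_num) (x := w.re) (y := w.im) (z := t)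
    (w := 8 / 10 - r) (by push_cast; linarith only [h1, hp, hr']) (by push_cast; linarith only [h1, hp', hr]) (by push_cast; linarith only [hS])
    (by push_cast; linarith only [hS']) (by push_cast; linarith only [ht]) (by push_cast; linarith only [ht'])
    (by push_cast; linarith only [hr']) (by push_cast; linarith only [hr])
  simp only [List.mem_cons, List.mem_nil_iff, or_false] at he
  rcases he with rfl | rfl | rfl
  · rw [eGB_val (t := t) (r := r) rfl rfl, val_q, val_q] at hp2
    have hi : v.im + w.im < 0 := by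
      rw [h2]
      exact ht_neg (by linarith only [ht']) (by linarith only [hS']) hr'
    have := GB_le (m := -(20 * t)) (p := 9500 / 10000) (v := v) (w := w) (by linarith only [ht']) (by norm_num)
      (by norm_num) hp (by linarith only [hp']) hi
    rw [h2] at this
    simp only [E.val, NumI.lkR] at hp2
    push_cast at hp2
    linarith only [this, hp2]
  · exfalso
    simp only [E.val, NumI.lkR, er_val (r := r) (rfl : (E.var 3).val
      [w.re, w.im, t, 8 / 10 - r] = 8 / 10 - r)] at hp2
    push_cast at hp2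
    linarith only [h1, hp', hp2]
  · exfalso
    simp only [E.val, NumI.lkR, er_val (r := r) (rfl : (E.var 3).val
      [w.re, w.im, t, 8 / 10 - r] = 8 / 10 - r)] at hp2
    push_cast at hp2
    linarith only [h1, hp, hp2]

theorem gB3_11 (h1 : v.re = r) (h2 : v.im = 20 * t * (8 / 10 - r)) (hw' : w.re ≤ 3700 / 10000) (hp : 10500 / 10000 ≤ v.re + w.re)
    (hS : -1145 / 10000 ≤ w.im) (hS' : w.im ≤ -210 / 10000) (ht : -950 / 10000 ≤ t) (ht' : t ≤ -80 / 10000)
    (hr : 75 / 100 ≤ r) (hr' : r ≤ 80 / 100) :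
    GB (-(20 * t)) v w < -1800 / 10000 := by
  have h : chk [eGB (E.q (-1800) 10000) (E.sub (E.add (er (E.var 3)) (E.var 0)) (E.q 1 1))
      (E.var 0) (E.var 1) (E.var 2) (E.var 3) (E.q 1 1),
      E.sub (E.q 10500 10000) (E.add (er (E.var 3)) (E.var 0))] 24
      [NumI.V.of 10000 2500 3700, NumI.V.of 10000 (-1145) (-210),
        NumI.V.of 10000 (-950) (-80), NumI.V.of 10000 0 500] = true := by decide +kernel
  obtain ⟨e, he, hp2⟩ := chk4 h (by norm_num) (x := w.re) (y := w.im) (z := t)
    (w := 8 / 10 - r) (by push_cast; linarith only [h1, hp, hr']) (by push_cast; linarith only [hw']) (by push_cast; linarith only [hS])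
    (by push_cast; linarith only [hS']) (by push_cast; linarith only [ht]) (by push_cast; linarith only [ht'])
    (by push_cast; linarith only [hr']) (by push_cast; linarith only [hr])
  simp only [List.mem_cons, List.mem_nil_iff, or_false] at he
  rcases he with rfl | rfl
  · rw [eGB_val (t := t) (r := r) rfl rfl, val_q] at hp2
    have hi : v.im + w.im < 0 := by
      rw [h2]
      exact ht_neg (by linarith only [ht']) (by linarith only [hS']) hr'
    rw [GB_eq' (by linarith only [hp]) (by linarith only [h1, hw', hr']) hi, h1, h2]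
    simp only [E.val, NumI.lkR, er_val (r := r) (rfl : (E.var 3).val
      [w.re, w.im, t, 8 / 10 - r] = 8 / 10 - r)] at hp2
    push_cast at hp2
    rw [div_one, mul_one] at hp2
    linarith only [hp2]
  · exfalso
    simp only [E.val, NumI.lkR, er_val (r := r) (rfl : (E.var 3).val
      [w.re, w.im, t, 8 / 10 - r] = 8 / 10 - r)] at hp2
    push_cast at hp2
    linarith only [h1, hp, hp2]

theorem gB_11 (h1 : v.re = r) (h2 : v.im = 20 * t * (8 / 10 - r)) (hw : 1500 / 10000 ≤ w.re) (hw' : w.re ≤ 3700 / 10000)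
    (hS : -1145 / 10000 ≤ w.im) (hS' : w.im ≤ -210 / 10000) (ht : -950 / 10000 ≤ t) (ht' : t ≤ -80 / 10000)
    (hr : 75 / 100 ≤ r) (hr' : r ≤ 80 / 100) :
    GB (-(20 * t)) v w < -1800 / 10000 := by
  rcases le_total (v.re + w.re) (9500 / 10000) with h | h
  · exact gB1_11 h1 h2 hw h hS hS' ht ht' hr hr'
  · rcases le_total (v.re + w.re) (10500 / 10000) with h' | h'
    · exact gB2_11 h1 h2 h h' hS hS' ht ht' hr hr'
    · exact gB3_11 h1 h2 hw' h' hS hS' ht ht' hr hr'

/-! ### E1 -/

theorem gC_E1 (h1 : v.re = r) (h2 : v.im = 20 * t * (8 / 10 - r)) (ht : -1350 / 10000 ≤ t) (ht' : t ≤ -800 / 10000)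
    (hr : 75 / 100 ≤ r) (hr' : r ≤ 80 / 100) :
    GC (-(20 * t)) v < -9000 / 10000 := by
  have h : chk [eGC (E.q (-9000) 10000) (E.var 0) (E.var 1)] 20
      [NumI.V.of 10000 (-1350) (-800), NumI.V.of 10000 0 500] = true := by decide +kernel
  have hp := pos_of_chk (chk2 h (by norm_num) (x := t) (y := 8 / 10 - r) (by push_cast; linarith only [ht])
    (by push_cast; linarith only [ht']) (by push_cast; linarith only [hr']) (by push_cast; linarith only [hr]))
  rw [eGC_val (t := t) (r := r) rfl rfl, val_q] at hp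
  have hv : v ∈ strip := ⟨by linarith only [h1, hr], by linarith only [h1, hr']⟩
  unfold GC
  rw [Num.LL_lnA hv, Num.YY_lnB hv, h1, h2]
  push_cast at hp
  linarith only [hp]

theorem gA_E1 (h1 : v.re = r) (h2 : v.im = 20 * t * (8 / 10 - r)) (hx : 1200 / 10000 ≤ u.re) (hx' : u.re ≤ 3300 / 10000)
    (hT : -980 / 10000 ≤ u.im) (hT' : u.im ≤ -760 / 10000) (ht : -1350 / 10000 ≤ t) (ht' : t ≤ -800 / 10000)
    (hr : 75 / 100 ≤ r) (hr' : r ≤ 80 / 100) :
    GA (-(20 * t)) u v < -5000 / 10000 := by
  have h : chk [eGA (E.q (-5000) 10000) (E.var 0) (E.var 1) (E.var 2) (E.var 3)] 24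
      [NumI.V.of 10000 1200 3300, NumI.V.of 10000 (-980) (-760),
        NumI.V.of 10000 (-1350) (-800), NumI.V.of 10000 0 500] = true := by decide +kernel
  have hp := pos_of_chk (chk4 h (by norm_num) (x := u.re) (y := u.im) (z := t)
    (w := 8 / 10 - r) (by push_cast; linarith only [hx]) (by push_cast; linarith only [hx']) (by push_cast; linarith only [hT])
    (by push_cast; linarith only [hT']) (by push_cast; linarith only [ht]) (by push_cast; linarith only [ht'])
    (by push_cast; linarith only [hr']) (by push_cast; linarith only [hr]))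
  rw [eGA_val (t := t) (r := r) rfl rfl, val_q] at hp
  rw [GA_eq (by linarith only [h1, hx', hr]) (by linarith only [h1, hx, hr']), h1, h2]
  simp only [E.val, NumI.lkR] at hp
  push_cast at hp
  linarith only [hp]

theorem gB1_E1 (h1 : v.re = r) (h2 : v.im = 20 * t * (8 / 10 - r)) (hw : 1500 / 10000 ≤ w.re) (hp : v.re + w.re ≤ 9300 / 10000)
    (hS : -1145 / 10000 ≤ w.im) (hS' : w.im ≤ -210 / 10000) (ht : -1350 / 10000 ≤ t) (ht' : t ≤ -800 / 10000)
    (hr : 75 / 100 ≤ r) (hr' : r ≤ 80 / 100) :
    GB (-(20 * t)) v w < 13000 / 10000 := by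
  have h : chk [eGB (E.q (13000) 10000) (E.add (er (E.var 3)) (E.var 0)) (E.var 0) (E.var 1)
      (E.var 2) (E.var 3) (E.q 0 1), E.sub (E.add (er (E.var 3)) (E.var 0)) (E.q 9300 10000)] 24
      [NumI.V.of 10000 1500 1800, NumI.V.of 10000 (-1145) (-210),
        NumI.V.of 10000 (-1350) (-800), NumI.V.of 10000 0 500] = true := by decide +kernel
  obtain ⟨e, he, hp'⟩ := chk4 h (by norm_num) (x := w.re) (y := w.im) (z := t)
    (w := 8 / 10 - r) (by push_cast; linarith only [hw]) (by push_cast; linarith only [h1, hp, hr]) (by push_cast; linarith only [hS])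
    (by push_cast; linarith only [hS']) (by push_cast; linarith only [ht]) (by push_cast; linarith only [ht'])
    (by push_cast; linarith only [h1, hw, hp]) (by push_cast; linarith only [hr])
  simp only [List.mem_cons, List.mem_nil_iff, or_false] at he
  rcases he with rfl | rfl
  · rw [eGB_val (t := t) (r := r) rfl rfl, val_q] at hp'
    rw [GB_eq (by linarith only [h1, hw, hr]) (by linarith only [hp]), h1, h2]
    simp only [E.val, NumI.lkR, er_val (r := r) (rfl : (E.var 3).val
      [w.re, w.im, t, 8 / 10 - r] = 8 / 10 - r)] at hp'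
    push_cast at hp'
    linarith only [hp']
  · exfalso
    simp only [E.val, NumI.lkR, er_val (r := r) (rfl : (E.var 3).val
      [w.re, w.im, t, 8 / 10 - r] = 8 / 10 - r)] at hp'
    push_cast at hp'
    linarith only [h1, hp, hp']

theorem gB2_E1 (h1 : v.re = r) (h2 : v.im = 20 * t * (8 / 10 - r)) (hp : 9300 / 10000 ≤ v.re + w.re) (hp' : v.re + w.re ≤ 10700 / 10000)
    (hS : -1145 / 10000 ≤ w.im) (hS' : w.im ≤ -210 / 10000) (ht : -1350 / 10000 ≤ t) (ht' : t ≤ -800 / 10000)
    (hr : 75 / 100 ≤ r) (hr' : r ≤ 80 / 100) :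
    GB (-(20 * t)) v w < 13000 / 10000 := by
  have h : chk [eGB (E.q (13000) 10000) (E.q 9300 10000) (E.var 0) (E.var 1)
      (E.var 2) (E.var 3) (E.q 0 1), E.sub (E.add (er (E.var 3)) (E.var 0)) (E.q 10700 10000),
      E.sub (E.q 9300 10000) (E.add (er (E.var 3)) (E.var 0))] 24
      [NumI.V.of 10000 1300 3200, NumI.V.of 10000 (-1145) (-210),
        NumI.V.of 10000 (-1350) (-800), NumI.V.of 10000 0 500] = true := by decide +kernel
  obtain ⟨e, he, hp2⟩ := chk4 h (by norm_num) (x := w.re) (y := w.im) (z := t)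
    (w := 8 / 10 - r) (by push_cast; linarith only [h1, hp, hr']) (by push_cast; linarith only [h1, hp', hr]) (by push_cast; linarith only [hS])
    (by push_cast; linarith only [hS']) (by push_cast; linarith only [ht]) (by push_cast; linarith only [ht'])
    (by push_cast; linarith only [hr']) (by push_cast; linarith only [hr])
  simp only [List.mem_cons, List.mem_nil_iff, or_false] at he
  rcases he with rfl | rfl | rfl
  · rw [eGB_val (t := t) (r := r) rfl rfl, val_q, val_q] at hp2
    have hi : v.im + w.im < 0 := by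
      rw [h2]
      exact ht_neg (by linarith only [ht']) (by linarith only [hS']) hr'
    have := GB_le (m := -(20 * t)) (p := 9300 / 10000) (v := v) (w := w) (by linarith only [ht']) (by norm_num)
      (by norm_num) hp (by linarith only [hp']) hi
    rw [h2] at this
    simp only [E.val, NumI.lkR] at hp2
    push_cast at hp2
    linarith only [this, hp2]
  · exfalso
    simp only [E.val, NumI.lkR, er_val (r := r) (rfl : (E.var 3).val
      [w.re, w.im, t, 8 / 10 - r] = 8 / 10 - r)] at hp2
    push_cast at hp2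
    linarith only [h1, hp', hp2]
  · exfalso
    simp only [E.val, NumI.lkR, er_val (r := r) (rfl : (E.var 3).val
      [w.re, w.im, t, 8 / 10 - r] = 8 / 10 - r)] at hp2
    push_cast at hp2
    linarith only [h1, hp, hp2]

theorem gB3_E1 (h1 : v.re = r) (h2 : v.im = 20 * t * (8 / 10 - r)) (hw' : w.re ≤ 3700 / 10000) (hp : 10700 / 10000 ≤ v.re + w.re)
    (hS : -1145 / 10000 ≤ w.im) (hS' : w.im ≤ -210 / 10000) (ht : -1350 / 10000 ≤ t) (ht' : t ≤ -800 / 10000)
    (hr : 75 / 100 ≤ r) (hr' : r ≤ 80 / 100) :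
    GB (-(20 * t)) v w < 13000 / 10000 := by
  have h : chk [eGB (E.q (13000) 10000) (E.sub (E.add (er (E.var 3)) (E.var 0)) (E.q 1 1))
      (E.var 0) (E.var 1) (E.var 2) (E.var 3) (E.q 1 1),
      E.sub (E.q 10700 10000) (E.add (er (E.var 3)) (E.var 0))] 24
      [NumI.V.of 10000 2700 3700, NumI.V.of 10000 (-1145) (-210),
        NumI.V.of 10000 (-1350) (-800), NumI.V.of 10000 0 500] = true := by decide +kernel
  obtain ⟨e, he, hp2⟩ := chk4 h (by norm_num) (x := w.re) (y := w.im) (z := t)
    (w := 8 / 10 - r) (by push_cast; linarith only [h1, hp, hr']) (by push_cast; linarith only [hw']) (by push_cast; linarith only [hS])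
    (by push_cast; linarith only [hS']) (by push_cast; linarith only [ht]) (by push_cast; linarith only [ht'])
    (by push_cast; linarith only [hr']) (by push_cast; linarith only [hr])
  simp only [List.mem_cons, List.mem_nil_iff, or_false] at he
  rcases he with rfl | rfl
  · rw [eGB_val (t := t) (r := r) rfl rfl, val_q] at hp2
    have hi : v.im + w.im < 0 := by
      rw [h2]
      exact ht_neg (by linarith only [ht']) (by linarith only [hS']) hr'
    rw [GB_eq' (by linarith only [hp]) (by linarith only [h1, hw', hr']) hi, h1, h2]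
    simp only [E.val, NumI.lkR, er_val (r := r) (rfl : (E.var 3).val
      [w.re, w.im, t, 8 / 10 - r] = 8 / 10 - r)] at hp2
    push_cast at hp2
    rw [div_one, mul_one] at hp2
    linarith only [hp2]
  · exfalso
    simp only [E.val, NumI.lkR, er_val (r := r) (rfl : (E.var 3).val
      [w.re, w.im, t, 8 / 10 - r] = 8 / 10 - r)] at hp2
    push_cast at hp2
    linarith only [h1, hp, hp2]

theorem gB_E1 (h1 : v.re = r) (h2 : v.im = 20 * t * (8 / 10 - r)) (hw : 1500 / 10000 ≤ w.re) (hw' : w.re ≤ 3700 / 10000)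
    (hS : -1145 / 10000 ≤ w.im) (hS' : w.im ≤ -210 / 10000) (ht : -1350 / 10000 ≤ t) (ht' : t ≤ -800 / 10000)
    (hr : 75 / 100 ≤ r) (hr' : r ≤ 80 / 100) :
    GB (-(20 * t)) v w < 13000 / 10000 := by
  rcases le_total (v.re + w.re) (9300 / 10000) with h | h
  · exact gB1_E1 h1 h2 hw h hS hS' ht ht' hr hr'
  · rcases le_total (v.re + w.re) (10700 / 10000) with h' | h'
    · exact gB2_E1 h1 h2 h h' hS hS' ht ht' hr hr'
    · exact gB3_E1 h1 h2 hw' h' hS hS' ht ht' hr hr'

end VN

end Pool.Agent.Work.MP_b30479_gt.G2
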