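import Pool.Agent.Work.MP_b30479_gt.G2.V3MidRB

/-!
# The inner variable of an inner digit `3` next to a digit `1`, right ramp: expressions

The hinge `1 | 3` is `u = x + h i`, `42/100 ≤ x`.  If `Re (v + w) ≤ 96/100` or `Im (v + w) < 0`, the
side along the slope `-20 t` is negative; otherwise `v` is moved to `66/100 + t i`.
-/

set_option linter.unusedSimpArgs false

namespace Pool.Agent.Work.MP_b30479_gt.G2

open VOL NumU

namespace VN

section
open NumU.E

/-- bridge of the values -/
def rg (t s : E) : E :=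
  add (q (-45) 10000) (add (mul (q 10766 10000) t) (add (mul (q 1754 10000) s)
    (mul (q (-295153) 10000) (mul t s))))

/-- bridge of the sides -/
def rh (t : E) : E := sub (q 2150 10000) (mul (q 33 1) t)

/-- `FA + FC + bridge` -/
def rA (c x T t s : E) : E :=
  add (add (mul E.pi (eP c x T (q 0 1) (q 0 1) t s)) (eQ c x T t s)) (rg t s)

/-- `FB - bridge`, `r + w < 1` -/
def rB (c w S t s : E) : E :=
  sub (sub (add (mul E.pi (add (mul w (sub t (et t s))) (mul S (sub c (er s)))))
    (E.uu (add c w) (add t S))) (E.uu (add (er s) w) (add (et t s) S))) (rg t s)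

/-- `FB - bridge`, `1 < r + w` -/
def rB' (c w S t s : E) (σ : ℤ) : E :=
  sub (sub (sub (add (mul E.pi (add (mul w (sub t (et t s))) (mul S (sub c (er s)))))
    (E.uu (add c w) (add t S))) (E.uu (sub (add (er s) w) (q 1 1)) (add (et t s) S)))
      (mul (q σ 1) (mul E.pi (add (et t s) S)))) (rg t s)

/-- `-(GA + GC + bridge)` -/
def rAC (x T t s : E) : E :=
  add (eGA (neg (rh t)) x T t s) (eGC (q 0 1) t s)

/-- bridge minus a bound of `GB` at height `y` -/
def rGB (p pw y t : E) : E :=
  sub (rh t) (add (add (mul E.pi (sub y t)) (lnA p y))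
    (mul (esl t) (sub (mul E.pi (sub pw (q 3 4))) (lnB p y))))

/-- height of the hinge on the ramp -/
def rhx (x T : E) : E := neg (mul T (mul (q 20 3) (sub (q 65 100) x)))

end

/-- bridge of the values -/
noncomputable def vg (t s : ℝ) : ℝ :=
  -45 / 10000 + (10766 / 10000 * t + (1754 / 10000 * s + -295153 / 10000 * (t * s)))

/-- bridge of the sides -/
noncomputable def vh (t : ℝ) : ℝ := 2150 / 10000 - 33 * t

variable {xs : List ℝ} {t r : ℝ}

theorem rg_val {te s : E} (ht : te.val xs = t) (hs : s.val xs = 8 / 10 - r) :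
    (rg te s).val xs = vg t (8 / 10 - r) := by
  simp only [rg, E.val, ht, hs, vg]
  push_cast
  ring

theorem rh_val {te : E} (ht : te.val xs = t) : (rh te).val xs = vh t := by
  simp only [rh, E.val, ht, vh]
  push_cast
  ring

theorem rA_val {c x T te s : E} (ht : te.val xs = t) (hs : s.val xs = 8 / 10 - r) :
    (rA c x T te s).val xs =
      FA (c.val xs) r t (20 * t * (8 / 10 - r)) (x.val xs) (T.val xs) +
      FC (c.val xs) r t (20 * t * (8 / 10 - r)) + vg t (8 / 10 - r) := by
  simp only [rA, eP, eQ, E.val, er_val hs, et_val ht hs, rg_val ht hs, ht, FA, FC]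
  push_cast
  ring

theorem rB_val {c w S te s : E} (ht : te.val xs = t) (hs : s.val xs = 8 / 10 - r) :
    (rB c w S te s).val xs =
      FB (c.val xs) r t (20 * t * (8 / 10 - r)) (w.val xs) (S.val xs) - vg t (8 / 10 - r) := by
  simp only [rB, E.val, er_val hs, et_val ht hs, rg_val ht hs, ht, FB]

theorem rB'_val {c w S te s : E} (σ : ℤ) (ht : te.val xs = t) (hs : s.val xs = 8 / 10 - r) :
    (rB' c w S te s σ).val xs =
      FB (c.val xs) r t (20 * t * (8 / 10 - r)) (w.val xs) (S.val xs) - vg t (8 / 10 - r) +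
      Real.pi * (|20 * t * (8 / 10 - r) + S.val xs| - σ * (20 * t * (8 / 10 - r) + S.val xs)) := by
  have h := uu_add_one (r + w.val xs - 1) (20 * t * (8 / 10 - r) + S.val xs)
  rw [sub_add_cancel] at h
  simp only [rB', E.val, er_val hs, et_val ht hs, rg_val ht hs, ht, FB, h]
  push_cast
  rw [show r + w.val xs - 1 / 1 = r + w.val xs - 1 by ring]
  ring

theorem rAC_val {x T te s : E} (ht : te.val xs = t) (hs : s.val xs = 8 / 10 - r) :
    (rAC x T te s).val xs = -(vh t) - (-(Real.pi * T.val xs) -
      NumI.lnA (r - x.val xs) (20 * t * (8 / 10 - r) - T.val xs) +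
      -(20 * t) * (-(Real.pi * x.val xs) +
        NumI.lnB (r - x.val xs) (20 * t * (8 / 10 - r) - T.val xs))) -
      (-(Real.pi * (20 * t * (8 / 10 - r))) -
      NumI.lnA r (20 * t * (8 / 10 - r)) +
      -(20 * t) * (Real.pi * (1 / 2 - r) + NumI.lnB r (20 * t * (8 / 10 - r)))) := by
  simp only [rAC, E.val, eGA_val ht hs, eGC_val ht hs, rh_val ht]
  push_cast
  ring

theorem rGB_val {p pw y te : E} (ht : te.val xs = t) :
    (rGB p pw y te).val xs = vh t - (Real.pi * (y.val xs - t) +
      NumI.lnA (p.val xs) (y.val xs) + -(20 * t) * (Real.pi * (pw.val xs - 3 / 4) -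
        NumI.lnB (p.val xs) (y.val xs))) := by
  simp only [rGB, E.val, esl_val ht, rh_val ht, ht]
  push_cast
  ring

end VN

end Pool.Agent.Work.MP_b30479_gt.G2
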