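import Pool.Agent.Work.MP_b30479_gt.G2.V3RXA
import Pool.Agent.Work.MP_b30479_gt.G2.V3MidRC

/-!
# The inner variable of an inner digit `3` next to a digit `1`, right ramp: certificates, values
-/

set_option linter.unusedSimpArgs false

namespace Pool.Agent.Work.MP_b30479_gt.G2

open VOL NumU

namespace VN

variable {x T w S t r q : ℝ}

theorem xA (hx : 42 / 100 ≤ x) (hx' : x ≤ 1 / 2) (hT : 21 / 1000 ≤ T) (hT' : T ≤ 1145 / 10000)
    (ht : -82 / 1000 ≤ t) (ht' : t ≤ 5 / 1000) (hs : -40 / 1000 ≤ t + T) (hs' : t + T ≤ 84 / 1000)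
    (hr : 75 / 100 ≤ r) (hr' : r ≤ 80 / 100) :
    0 < FA (66 / 100) r t (20 * t * (8 / 10 - r)) x (-T) +
      FC (66 / 100) r t (20 * t * (8 / 10 - r)) + vg t (8 / 10 - r) := by
  have h : chk [rA (E.q 66 100) (E.var 0) (E.neg (E.var 1)) (E.var 2) (E.var 3),
      E.sub (E.add (E.var 2) (E.var 1)) (E.q 840 10000),
      E.sub (E.q (-400) 10000) (E.add (E.var 2) (E.var 1))] 30
      [NumI.V.of 10000 4200 5000, NumI.V.of 10000 210 1145,
        NumI.V.of 10000 (-820) 50, NumI.V.of 10000 0 500] = true := by decide +kernel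
  obtain ⟨e, he, hp⟩ := chk4 h (by norm_num) (x := x) (y := T) (z := t) (w := 8 / 10 - r)
    (by push_cast; linarith only [hx]) (by push_cast; linarith only [hx']) (by push_cast; linarith only [hT])
    (by push_cast; linarith only [hT']) (by push_cast; linarith only [ht]) (by push_cast; linarith only [ht'])
    (by push_cast; linarith only [hr']) (by push_cast; linarith only [hr])
  simp only [List.mem_cons, List.mem_nil_iff, or_false] at he
  rcases he with rfl | rfl | rfl
  · rw [rA_val (t := t) (r := r) rfl rfl] at hp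
    simp only [E.val, NumI.lkR] at hp
    push_cast at hp
    exact hp
  · simp only [E.val, NumI.lkR] at hp
    push_cast at hp
    linarith only [hs', hp]
  · simp only [E.val, NumI.lkR] at hp
    push_cast at hp
    linarith only [hs, hp]

theorem rhx_val (t s : ℝ) : (rhx (E.var 0) (E.var 1)).val [x, T, t, s] =
    -(T * (20 / 3 * (65 / 100 - x))) := by
  simp only [rhx, E.val, NumI.lkR]
  push_cast
  ring

theorem xA' (hx : 1 / 2 ≤ x) (hx' : x ≤ 56 / 100) (hT : 21 / 1000 ≤ T) (hT' : T ≤ 1145 / 10000)
    (ht : -82 / 1000 ≤ t) (ht' : t ≤ 5 / 1000) (hs : -40 / 1000 ≤ t + T) (hs' : t + T ≤ 84 / 1000)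
    (hr : 75 / 100 ≤ r) (hr' : r ≤ 80 / 100) :
    0 < FA (66 / 100) r t (20 * t * (8 / 10 - r)) x (-(T * (20 / 3 * (65 / 100 - x)))) +
      FC (66 / 100) r t (20 * t * (8 / 10 - r)) + vg t (8 / 10 - r) := by
  have h : chk [rA (E.q 66 100) (E.var 0) (rhx (E.var 0) (E.var 1)) (E.var 2) (E.var 3),
      E.sub (E.add (E.var 2) (E.var 1)) (E.q 840 10000),
      E.sub (E.q (-400) 10000) (E.add (E.var 2) (E.var 1))] 30
      [NumI.V.of 10000 5000 5600, NumI.V.of 10000 210 1145,
        NumI.V.of 10000 (-820) 50, NumI.V.of 10000 0 500] = true := by decide +kernel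
  obtain ⟨e, he, hp⟩ := chk4 h (by norm_num) (x := x) (y := T) (z := t) (w := 8 / 10 - r)
    (by push_cast; linarith only [hx]) (by push_cast; linarith only [hx']) (by push_cast; linarith only [hT])
    (by push_cast; linarith only [hT']) (by push_cast; linarith only [ht]) (by push_cast; linarith only [ht'])
    (by push_cast; linarith only [hr']) (by push_cast; linarith only [hr])
  simp only [List.mem_cons, List.mem_nil_iff, or_false] at he
  rcases he with rfl | rfl | rfl
  · rw [rA_val (t := t) (r := r) rfl rfl, rhx_val] at hp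
    simp only [E.val, NumI.lkR] at hp
    push_cast at hp
    exact hp
  · simp only [E.val, NumI.lkR] at hp
    push_cast at hp
    linarith only [hs', hp]
  · simp only [E.val, NumI.lkR] at hp
    push_cast at hp
    linarith only [hs, hp]

/-- `w = 96/100 - r` -/
theorem xB0 (ht : -82 / 1000 ≤ t) (ht' : t ≤ 5 / 1000) (hS : -98 / 1000 ≤ S)
    (hS' : S ≤ 57 / 1000) (hS0 : 0 < t → S ≤ 22 / 1000)
    (hi : 0 ≤ 20 * t * (8 / 10 - r) + S ∨ 0 < t) (hr : 75 / 100 ≤ r) (hr' : r ≤ 80 / 100) :
    vg t (8 / 10 - r) < FB (66 / 100) r t (20 * t * (8 / 10 - r)) (96 / 100 - r) S := by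
  have ev : (E.add (E.q 1600 10000) (E.var 2)).val [S, t, 8 / 10 - r] = 96 / 100 - r := by
    simp only [E.val, NumI.lkR]
    push_cast
    ring
  rcases le_or_gt t 0 with h0 | h0
  · have h : chk [rB (E.q 66 100) (E.add (E.q 1600 10000) (E.var 2)) (E.var 0) (E.var 1) (E.var 2),
        E.neg (E.add (et (E.var 1) (E.var 2)) (E.var 0))] 30
        [NumI.V.of 10000 (-980) 570, NumI.V.of 10000 (-820) 0, NumI.V.of 10000 0 500] = true := by
      decide +kernel
    obtain ⟨e, he, hp⟩ := chk3 h (by norm_num) (x := S) (y := t) (z := 8 / 10 - r)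
      (by push_cast; linarith only [hS]) (by push_cast; linarith only [hS']) (by push_cast; linarith only [ht])
      (by push_cast; linarith only [h0]) (by push_cast; linarith only [hr']) (by push_cast; linarith only [hr])
    simp only [List.mem_cons, List.mem_nil_iff, or_false] at he
    rcases he with rfl | rfl
    · rw [rB_val (t := t) (r := r) rfl rfl, ev] at hp
      simp only [E.val, NumI.lkR] at hp
      push_cast at hp
      linarith only [hp]
    · have h1 := hi.resolve_right (not_lt.2 h0)
      simp only [E.val, NumI.lkR, et_val (t := t) (r := r) (rfl : (E.var 1).val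
        [S, t, 8 / 10 - r] = t) (rfl : (E.var 2).val [S, t, 8 / 10 - r] = 8 / 10 - r)] at hp
      linarith only [h1, hp]
  · have hS2 := hS0 h0
    have h : chk [rB (E.q 66 100) (E.add (E.q 1600 10000) (E.var 2)) (E.var 0) (E.var 1)
        (E.var 2)] 30
        [NumI.V.of 10000 (-980) 220, NumI.V.of 10000 0 50, NumI.V.of 10000 0 500] = true := by
      decide +kernel
    have hp := pos_of_chk (chk3 h (by norm_num) (x := S) (y := t) (z := 8 / 10 - r)
      (by push_cast; linarith only [hS]) (by push_cast; linarith only [hS2]) (by push_cast; linarith only [h0])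
      (by push_cast; linarith only [ht']) (by push_cast; linarith only [hr']) (by push_cast; linarith only [hr]))
    rw [rB_val (t := t) (r := r) rfl rfl, ev] at hp
    simp only [E.val, NumI.lkR] at hp
    push_cast at hp
    linarith only [hp]

/-- `w = 31/100` -/
theorem xB1 (ht : -82 / 1000 ≤ t) (ht' : t ≤ 5 / 1000) (hS : -98 / 1000 ≤ S)
    (hS' : S ≤ 57 / 1000) (hS0 : 0 < t → S ≤ 22 / 1000)
    (hi : 0 ≤ 20 * t * (8 / 10 - r) + S ∨ 0 < t) (hr : 75 / 100 ≤ r) (hr' : r ≤ 80 / 100) :
    vg t (8 / 10 - r) < FB (66 / 100) r t (20 * t * (8 / 10 - r)) (31 / 100) S := by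
  rcases le_or_gt t 0 with h0 | h0
  · have h1 := hi.resolve_right (not_lt.2 h0)
    have h : chk [rB' (E.q 66 100) (E.q 31 100) (E.var 0) (E.var 1) (E.var 2) 1,
        E.neg (E.add (et (E.var 1) (E.var 2)) (E.var 0))] 30
        [NumI.V.of 10000 (-980) 570, NumI.V.of 10000 (-820) 0, NumI.V.of 10000 0 500] = true := by
      decide +kernel
    obtain ⟨e, he, hp⟩ := chk3 h (by norm_num) (x := S) (y := t) (z := 8 / 10 - r)
      (by push_cast; linarith only [hS]) (by push_cast; linarith only [hS']) (by push_cast; linarith only [ht])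
      (by push_cast; linarith only [h0]) (by push_cast; linarith only [hr']) (by push_cast; linarith only [hr])
    simp only [List.mem_cons, List.mem_nil_iff, or_false] at he
    rcases he with rfl | rfl
    · rw [rB'_val (t := t) (r := r) 1 rfl rfl] at hp
      simp only [E.val, NumI.lkR] at hp
      rw [abs_of_nonneg h1] at hp
      push_cast at hp
      rw [one_mul, sub_self, mul_zero, add_zero] at hp
      linarith only [hp]
    · simp only [E.val, NumI.lkR, et_val (t := t) (r := r) (rfl : (E.var 1).val
        [S, t, 8 / 10 - r] = t) (rfl : (E.var 2).val [S, t, 8 / 10 - r] = 8 / 10 - r)] at hp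
      linarith only [h1, hp]
  · have hS2 := hS0 h0
    have h1 : chk [rB' (E.q 66 100) (E.q 31 100) (E.var 0) (E.var 1) (E.var 2) 1] 30
        [NumI.V.of 10000 (-980) 220, NumI.V.of 10000 0 50, NumI.V.of 10000 0 500] = true := by
      decide +kernel
    have h2 : chk [rB' (E.q 66 100) (E.q 31 100) (E.var 0) (E.var 1) (E.var 2) (-1)] 30
        [NumI.V.of 10000 (-980) 220, NumI.V.of 10000 0 50, NumI.V.of 10000 0 500] = true := by
      decide +kernel
    have hp1 := pos_of_chk (chk3 h1 (by norm_num) (x := S) (y := t) (z := 8 / 10 - r)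
      (by push_cast; linarith only [hS]) (by push_cast; linarith only [hS2]) (by push_cast; linarith only [h0])
      (by push_cast; linarith only [ht']) (by push_cast; linarith only [hr']) (by push_cast; linarith only [hr]))
    have hp2 := pos_of_chk (chk3 h2 (by norm_num) (x := S) (y := t) (z := 8 / 10 - r)
      (by push_cast; linarith only [hS]) (by push_cast; linarith only [hS2]) (by push_cast; linarith only [h0])
      (by push_cast; linarith only [ht']) (by push_cast; linarith only [hr']) (by push_cast; linarith only [hr]))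
    rw [rB'_val (t := t) (r := r) 1 rfl rfl] at hp1
    rw [rB'_val (t := t) (r := r) (-1) rfl rfl] at hp2
    simp only [E.val, NumI.lkR] at hp1 hp2
    have := abs_cases (a := FB (66 / 100) r t (20 * t * (8 / 10 - r)) (31 / 100) S -
      vg t (8 / 10 - r)) (b := 20 * t * (8 / 10 - r) + S) (by
        push_cast at hp1
        exact hp1) (by
        push_cast at hp2
        exact hp2)
    linarith only [this]

/-- the derivative in `w` -/
theorem xJ (hw : 96 / 100 - r ≤ w) (hw' : w < 1 - r) (hS : -98 / 1000 ≤ S)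
    (hS' : S ≤ 57 / 1000) (ht : -82 / 1000 ≤ t) (ht' : t ≤ 5 / 1000)
    (hr : 75 / 100 ≤ r) (hr' : r ≤ 80 / 100) :
    0 < Real.exp (2 * Real.pi * (t - 20 * t * (8 / 10 - r))) *
      (Real.cosh (2 * Real.pi * (t + S)) - Real.cos (2 * Real.pi * (66 / 100 + w))) -
      (Real.cosh (2 * Real.pi * (20 * t * (8 / 10 - r) + S)) -
        Real.cos (2 * Real.pi * (r + w))) := by
  have h : chk [eJ (E.q 66 100) (E.add (E.add (E.q 1600 10000) (E.var 3)) (E.var 0)) (E.var 1)
      (E.var 2) (E.var 3)] 30
      [NumI.V.of 10000 0 400, NumI.V.of 10000 (-980) 570,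
        NumI.V.of 10000 (-820) 50, NumI.V.of 10000 0 500] = true := by decide +kernel
  have hp := pos_of_chk (chk4 h (by norm_num) (x := w - (96 / 100 - r)) (y := S) (z := t)
    (w := 8 / 10 - r)
    (by push_cast; linarith only [hw]) (by push_cast; linarith only [hw']) (by push_cast; linarith only [hS])
    (by push_cast; linarith only [hS']) (by push_cast; linarith only [ht]) (by push_cast; linarith only [ht'])
    (by push_cast; linarith only [hr']) (by push_cast; linarith only [hr]))
  have ev : (E.add (E.add (E.q 1600 10000) (E.var 3)) (E.var 0)).val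
      [w - (96 / 100 - r), S, t, 8 / 10 - r] = w := by
    simp only [E.val, NumI.lkR]
    push_cast
    ring
  rw [eJ_val (t := t) (r := r) rfl rfl, ev] at hp
  simp only [E.val, NumI.lkR] at hp
  push_cast at hp
  exact hp

theorem xB (hw : 96 / 100 - r ≤ w) (hw' : w ≤ 31 / 100) (ht : -82 / 1000 ≤ t)
    (ht' : t ≤ 5 / 1000) (hS : -98 / 1000 ≤ S)
    (hS' : S ≤ 57 / 1000) (hS0 : 0 < t → S ≤ 22 / 1000)
    (hi : 0 ≤ 20 * t * (8 / 10 - r) + S ∨ 0 < t) (hr : 75 / 100 ≤ r) (hr' : r ≤ 80 / 100) :
    vg t (8 / 10 - r) < FB (66 / 100) r t (20 * t * (8 / 10 - r)) w S := by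
  have a := FB_min (c := 66 / 100) (r := r) (t := t) (τ := 20 * t * (8 / 10 - r)) (S := S)
    (w := w) (w0 := 96 / 100 - r) (w1 := 31 / 100) hw hw' (by linarith only []) (by linarith only [hr'])
    (by linarith only [hr']) (by norm_num) (by linarith only []) (by linarith only [hr']) (by
      intro y hy hy'
      apply LL_cond (by linarith only [hr', hy, hy']) (by linarith only [hr, hy, hy']) (by linarith only [hy, hy']) (by linarith only [hy'])
      have := xJ hy hy' hS hS' ht ht' hr hr'
      linarith only [this])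
  have b0 := xB0 ht ht' hS hS' hS0 hi hr hr'
  have b1 := xB1 ht ht' hS hS' hS0 hi hr hr'
  rcases min_le_iff.1 a with h | h <;> linarith only [b0, h, b1]

end VN

end Pool.Agent.Work.MP_b30479_gt.G2
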