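import Pool.Agent.Work.MP_b30479_gt.G2.V33A

/-!
# The slot 0 of an inner digit `3` next to a ring, right ramp: expressions

`x` the position of the hinge, `T ≥ 0` its height in the frame of the digit, `r + y i` the inner
variable, `t` its height, `w + h i` the hinge in slot 2 of the digit.
-/

namespace Pool.Agent.Work.MP_b30479_gt.G2

open VOL NumU

namespace VL

namespace SZ3

open S33 (eH eH_val eG eG_val yl yr)

/-- the hinge at `X`, the inner variable at `c`: the part without the hinge in slot 2 -/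
noncomputable def jn (X c T t : ℝ) : ℝ :=
  Real.pi * ((1 / 2 - X) * t - S33.hR X T * c - c * t) - uu (c - X) (t - S33.hR X T) -
    uu X (S33.hR X T)

/-- the hinge at `x`, the inner variable at `r`: the part without the hinge in slot 2, without the
value of the difference -/
noncomputable def jo (x T r y : ℝ) : ℝ :=
  Real.pi * ((1 / 2 - x) * y - S33.hR x T * r - r * y) - uu x (S33.hR x T)

/-- lower bounds of the value of the difference -/
noncomputable def z0 (x T r y : ℝ) : ℝ :=
  -(uu (x - r) (S33.hR x T - y) + Real.pi * (S33.hR x T - y))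

noncomputable def z1 (x T r y : ℝ) : ℝ :=
  -(uu (x - r) (S33.hR x T - y) + Real.pi * (S33.hR x T + y))

noncomputable def z3 (x T r y : ℝ) : ℝ :=
  uu (1 / 6) (y - S33.hR x T) - (1 / 6 - (r - x)) * NumI.lnA (1 / 6) (y - S33.hR x T)

/-- the limits between the two parts -/
noncomputable def gB (r : ℝ) : ℝ := 3 / 1000 + 45 / 100 * r

noncomputable def gH (r t : ℝ) : ℝ :=
  -(7 / 1000) + 1 / 2 * (r - 75 / 100) + 25 / 100 * (t + 105 / 1000)

/-- `g0` without the value at `r + w` -/
noncomputable def g1 (c r y t w h U : ℝ) : ℝ :=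
  Real.pi * (h * (c - r) + w * (t - y)) + uu (c + w) (t + h) - uu c t - U + uu r y

theorem g0_g1 (c r y t w h : ℝ) : S33.g0 c r y t w h = g1 c r y t w h (uu (r + w) (y + h)) := by
  unfold S33.g0 g1
  ring

/-- the side of the ring, the ring variable on the ramp: upper bound -/
noncomputable def sR (x T s ρ : ℝ) : ℝ :=
  NumI.lnA (x + s) (4 * (ρ * s) - S33.hR x T) + NumI.lnA (x - s) (4 * (ρ * s) + S33.hR x T) -
    2 * NumI.lnA x (S33.hR x T) - 100 / 30 * T * (NumI.lnB (x + s) (4 * (ρ * s) - S33.hR x T) +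
      1 / 2 * Real.pi + 2 * NumI.lnB x (S33.hR x T))

/-- the side of the ring, the ring variable on the flat part: upper bound; `L`, `Y` belong to the
second factor -/
noncomputable def sF (x T a ρ L Y : ℝ) : ℝ :=
  NumI.lnA (x + 1 / 2 - a) (ρ - S33.hR x T) + L - 2 * NumI.lnA x (S33.hR x T) +
    100 / 30 * T * (Y - NumI.lnB (x + 1 / 2 - a) (ρ - S33.hR x T) - 2 * NumI.lnB x (S33.hR x T))

section
open NumU.E

def eJn (X c : ℤ) (T t : E) : E :=
  sub (sub (mul E.pi (sub (sub (mul (sub (q 1 2) (q X 100)) t) (mul (eH (q X 100) T) (q c 100)))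
    (mul (q c 100) t))) (E.uu (sub (q c 100) (q X 100)) (sub t (eH (q X 100) T))))
    (E.uu (q X 100) (eH (q X 100) T))

def eJo (x T r y : E) : E :=
  sub (mul E.pi (sub (sub (mul (sub (q 1 2) x) y) (mul (eH x T) r)) (mul r y)))
    (E.uu x (eH x T))

def eZ0 (x T r y : E) : E :=
  neg (add (E.uu (sub x r) (sub (eH x T) y)) (mul E.pi (sub (eH x T) y)))

def eZ1 (x T r y : E) : E :=
  neg (add (E.uu (sub x r) (sub (eH x T) y)) (mul E.pi (add (eH x T) y)))

def eZ2 (x T r y : E) : E := E.uu (sub r x) (sub y (eH x T))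

def eZ3 (x T r y : E) : E :=
  sub (E.uu (q 1 6) (sub y (eH x T))) (mul (sub (q 1 6) (sub r x)) (E.lnA (q 1 6)
    (sub y (eH x T))))

/-- difference of the values without the hinge in slot 2 -/
def eD (X c : ℤ) (y z : E) : E :=
  add (sub (eJn X c (var 1) (var 3)) (eJo (var 0) (var 1) (var 2) y)) z

def egB (r : E) : E := add (q 3 1000) (mul (q 45 100) r)

def egH (r t : E) : E :=
  add (add (q (-7) 1000) (mul (q 1 2) (sub r (q 75 100)))) (mul (q 25 100) (add t (q 105 1000)))

def eG1 (c r y t w h U : E) : E :=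
  add (sub (sub (add (mul E.pi (add (mul h (sub c r)) (mul w (sub t y)))) (E.uu (add c w)
    (add t h))) (E.uu c t)) U) (E.uu r y)

/-- bound of the sides, `x` in `[.30, .34]` -/
def eB1 : E := sub (q 355 1000) (mul (q 6 10) (var 0))

def eR : E :=
  neg (add eB1 (sub (sub (add (E.lnA (add (var 0) (var 2)) (sub (mul (q 4 1)
    (mul (var 3) (var 2))) (eH (var 0) (var 1)))) (E.lnA (sub (var 0) (var 2)) (add (mul (q 4 1)
    (mul (var 3) (var 2))) (eH (var 0) (var 1))))) (mul (q 2 1) (E.lnA (var 0)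
    (eH (var 0) (var 1))))) (mul (mul (q 100 30) (var 1)) (add (add (E.lnB (add (var 0) (var 2))
    (sub (mul (q 4 1) (mul (var 3) (var 2))) (eH (var 0) (var 1)))) (mul (q 1 2) E.pi))
    (mul (q 2 1) (E.lnB (var 0) (eH (var 0) (var 1))))))))

/-- `x + 1/2 - a` -/
def eP : E := sub (add (var 0) (q 1 2)) (var 2)
/-- `x + 1/2 + a` -/
def eQ : E := add (add (var 0) (q 1 2)) (var 2)
/-- `-(h + ρ)` -/
def eN : E := neg (add (eH (var 0) (var 1)) (var 3))

def eF (L Y : E) : E :=
  neg (add eB1 (add (sub (add (E.lnA eP (sub (var 3) (eH (var 0) (var 1)))) L) (mul (q 2 1)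
    (E.lnA (var 0) (eH (var 0) (var 1))))) (mul (mul (q 100 30) (var 1)) (sub (sub Y (E.lnB eP
    (sub (var 3) (eH (var 0) (var 1))))) (mul (q 2 1) (E.lnB (var 0) (eH (var 0) (var 1))))))))

variable (x' T' r' y' t' w' h' U' : E) (xs : List ℝ) (X c : ℤ)

theorem eJn_val : (eJn X c T' t').val xs = jn ((X : ℝ) / 100) ((c : ℝ) / 100) (T'.val xs)
    (t'.val xs) := by
  simp only [eJn, E.val, jn, eH_val]
  push_cast
  ring

theorem eJo_val : (eJo x' T' r' y').val xs = jo (x'.val xs) (T'.val xs) (r'.val xs)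
    (y'.val xs) := by
  simp only [eJo, E.val, jo, eH_val]
  push_cast
  ring

theorem eZ0_val : (eZ0 x' T' r' y').val xs = z0 (x'.val xs) (T'.val xs) (r'.val xs)
    (y'.val xs) := by
  simp only [eZ0, E.val, z0, eH_val]

theorem eZ1_val : (eZ1 x' T' r' y').val xs = z1 (x'.val xs) (T'.val xs) (r'.val xs)
    (y'.val xs) := by
  simp only [eZ1, E.val, z1, eH_val]

theorem eZ2_val : (eZ2 x' T' r' y').val xs = uu (r'.val xs - x'.val xs)
    (y'.val xs - S33.hR (x'.val xs) (T'.val xs)) := by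
  simp only [eZ2, E.val, eH_val]

theorem eZ3_val : (eZ3 x' T' r' y').val xs = z3 (x'.val xs) (T'.val xs) (r'.val xs)
    (y'.val xs) := by
  simp only [eZ3, E.val, z3, eH_val]
  push_cast
  ring

theorem eD_val (x T r t : ℝ) : (eD X c y' r').val [x, T, r, t] =
    jn ((X : ℝ) / 100) ((c : ℝ) / 100) T t - jo x T r (y'.val [x, T, r, t]) +
      r'.val [x, T, r, t] := by
  simp only [eD, E.val, eJn_val, eJo_val, NumI.lkR]

theorem egB_val : (egB r').val xs = gB (r'.val xs) := by
  simp only [egB, E.val, gB]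
  push_cast
  ring

theorem egH_val : (egH r' t').val xs = gH (r'.val xs) (t'.val xs) := by
  simp only [egH, E.val, gH]
  push_cast
  ring

theorem eG1_val : (eG1 x' r' y' t' w' h' U').val xs = g1 (x'.val xs) (r'.val xs) (y'.val xs)
    (t'.val xs) (w'.val xs) (h'.val xs) (U'.val xs) := by
  simp only [eG1, E.val, g1]

theorem eB1_val (x : ℝ) (l : List ℝ) : eB1.val (x :: l) = 355 / 1000 - 6 / 10 * x := by
  simp only [eB1, E.val, NumI.lkR]
  push_cast
  ring

theorem eR_val (x T s ρ : ℝ) : eR.val [x, T, s, ρ] =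
    -(355 / 1000 - 6 / 10 * x + sR x T s ρ) := by
  simp only [eR, E.val, eB1_val, eH_val, NumI.lkR, sR]
  push_cast
  ring_nf

theorem eF_val (x T a ρ : ℝ) (L Y : E) : (eF L Y).val [x, T, a, ρ] =
    -(355 / 1000 - 6 / 10 * x + sF x T a ρ (L.val [x, T, a, ρ]) (Y.val [x, T, a, ρ])) := by
  simp only [eF, eP, E.val, eB1_val, eH_val, NumI.lkR, sF]
  push_cast
  ring

theorem eQ_val (x T a ρ : ℝ) : eQ.val [x, T, a, ρ] = x + 1 / 2 + a := by
  simp only [eQ, E.val, NumI.lkR]
  push_cast
  ring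

theorem eN_val (x T a ρ : ℝ) : eN.val [x, T, a, ρ] = -(S33.hR x T + ρ) := by
  simp only [eN, E.val, eH_val, NumI.lkR]

end

end SZ3

end VL

end Pool.Agent.Work.MP_b30479_gt.G2
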