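import Pool.Agent.Work.MP_b30479_gt.G2.VZ3A
import Pool.Agent.Work.MP_b30479_gt.G2.S0RC
import Pool.Agent.Work.NumU.Tree

/-!
# The slot 0 of an inner digit `3` next to a ring, right ramp: certificates

the side of the digit
-/

namespace Pool.Agent.Work.MP_b30479_gt.G2

open VOL NumU

namespace VL

namespace SZ3

open S33 (eH eG yl yr)
open NumI (V)
open NumU.E (q var)

theorem k_Na0 : chkT [.sub eB1 (S0R.EE.N 10 3 (q 1300 10000) (q 0 1) (.add S0R.EE.x (q 1300
    10000))), S0R.EE.nyy 10 3, .sub (.sub S0R.EE.T S0R.EE.nt) (q 105 1000)] 45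
    0x88a288112
    [V.of 10000 3000 3400, V.of 10000 0 570, V.of 10000 (-1050) 50] = true := by
  decide +kernel

theorem k_Na1 : chkT [.sub eB1 (S0R.EE.N 10 3 (q 1300 10000) (.neg .pi) (.add S0R.EE.x (q 1300
    10000))), .neg (S0R.EE.nyy 10 3)] 45
    0x981
    [V.of 10000 3000 3400, V.of 10000 0 570, V.of 10000 0 50] = true := by
  decide +kernel

theorem k_Nb0 : chkT [.neg (S0R.EE.N 10 3 (q 1300 10000) (q 0 1) (.add S0R.EE.x (q 1300
    10000))), S0R.EE.nyy 10 3, .sub (.sub S0R.EE.T S0R.EE.nt) (q 105 1000)] 45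
    0x8880a8122
    [V.of 10000 5000 6000, V.of 10000 0 570, V.of 10000 (-1050) 50] = true := by
  decide +kernel

theorem k_Nb1 : chkT [.neg (S0R.EE.N 10 3 (q 1300 10000) (.neg .pi) (.add S0R.EE.x (q 1300
    10000))), .neg (S0R.EE.nyy 10 3)] 45
    0x8
    [V.of 10000 5000 6000, V.of 10000 0 350, V.of 10000 0 50] = true := by
  decide +kernel

theorem k_fa1a : chkT [.sub eB1 (S0R.EE.S 10 3), .sub eB1 (S0R.EE.F 10 3 (q 1 2) (q (-98)
    10000)), .sub (.sub S0R.EE.T S0R.EE.t) (q 1050 10000), .sub S0R.EE.v (q 4300 10000)] 45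
    0x99a8133
    [V.of 10000 3000 3400, V.of 10000 0 570,
      V.of 10000 1000 1300, V.of 10000 (-1050) (-150)] = true := by
  decide +kernel

theorem k_fa1b : chkT [.sub eB1 (S0R.EE.S 10 3), .sub eB1 (S0R.EE.F 10 3 (.add S0R.EE.v (q 7
    100)) (q (-98) 10000)), .sub (.sub S0R.EE.T S0R.EE.t) (q 1050 10000), .sub (q 4300 10000)
    S0R.EE.v, .sub S0R.EE.v (q 7300 10000)] 45
    0x99a39901399a990133299a39929929921013299a9929909922013399a399a39828182131322
    [V.of 10000 3000 3400, V.of 10000 0 570,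
      V.of 10000 1000 4300, V.of 10000 (-1050) (-150)] = true := by
  decide +kernel

theorem k_fa1c : chkT [.sub eB1 (S0R.EE.S 10 3), .sub eB1 (S0R.EE.F 10 3 (q 80 100) (q (-98)
    10000)), .sub (.sub S0R.EE.T S0R.EE.t) (q 1050 10000), .sub (q 7300 10000) S0R.EE.v, .sub
    S0R.EE.v (q 75 100)] 45
    0x99a913a399a91339213
    [V.of 10000 3000 3400, V.of 10000 0 570,
      V.of 10000 3900 4500, V.of 10000 (-1050) (-150)] = true := by
  decide +kernel

theorem k_faoa : chkT [.sub eB1 (S0R.EE.S 10 3), .sub eB1 (S0R.EE.F 10 3 (q 1 2) (q 220 10000)),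
    .sub (.sub S0R.EE.T S0R.EE.t) (q 1000 10000), .sub S0R.EE.v (q 4300 10000)] 45
    0x89a8133
    [V.of 10000 3000 3400, V.of 10000 0 570,
      V.of 10000 1000 1300, V.of 10000 (-1000) 50] = true := by
  decide +kernel

theorem k_faob : chkT [.sub eB1 (S0R.EE.S 10 3), .sub eB1 (S0R.EE.F 10 3 (.add S0R.EE.v (q 7
    100)) (q 220 10000)), .sub (.sub S0R.EE.T S0R.EE.t) (q 1000 10000), .sub (q 4300 10000)
    S0R.EE.v, .sub S0R.EE.v (q 7300 10000)] 45
    0x99a3999001399a91aa91133329992a9921aa99099902011333299a39992a999201aa9909822a3992990989082282201113331399a9a38821138a388212322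
    [V.of 10000 3000 3400, V.of 10000 0 570,
      V.of 10000 1000 4300, V.of 10000 (-1000) 50] = true := by
  decide +kernel

theorem k_faoc : chkT [.sub eB1 (S0R.EE.S 10 3), .sub eB1 (S0R.EE.F 10 3 (q 80 100) (q 220
    10000)), .sub (.sub S0R.EE.T S0R.EE.t) (q 1000 10000), .sub (q 7300 10000) S0R.EE.v, .sub
    S0R.EE.v (q 75 100)] 45
    0x99a3a39a3199a39139213
    [V.of 10000 3000 3400, V.of 10000 0 570,
      V.of 10000 3900 4500, V.of 10000 (-1000) 50] = true := by
  decide +kernel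

theorem k_faAa : chkT [.sub eB1 (S0R.EE.S 10 3), .sub eB1 (S0R.EE.F 10 3 (q 1 2) (q 4385
    100000)), .sub (.sub S0R.EE.T S0R.EE.t) (q 930 10000), .sub S0R.EE.v (q 4300 10000)] 45
    0x88a3813
    [V.of 10000 3000 3400, V.of 10000 0 570,
      V.of 10000 1000 1300, V.of 10000 (-920) 0] = true := by
  decide +kernel

theorem k_faAb : chkT [.sub eB1 (S0R.EE.S 10 3), .sub eB1 (S0R.EE.F 10 3 (.add S0R.EE.v (q 7
    100)) (q 4385 100000)), .sub (.sub S0R.EE.T S0R.EE.t) (q 930 10000), .sub (q 4300 10000)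
    S0R.EE.v, .sub S0R.EE.v (q 7300 10000)] 45
    0x99a3999001399a3999910013299909910a9921aa9929992201133329992a99099201aa99299822011aaa99299999220099999a339821008208220111333399098812a8a3818213322
    [V.of 10000 3000 3400, V.of 10000 0 570,
      V.of 10000 1000 4300, V.of 10000 (-920) 0] = true := by
  decide +kernel

theorem k_faAc : chkT [.sub eB1 (S0R.EE.S 10 3), .sub eB1 (S0R.EE.F 10 3 (q 80 100) (q 4385
    100000)), .sub (.sub S0R.EE.T S0R.EE.t) (q 930 10000), .sub (q 7300 10000) S0R.EE.v, .sub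
    S0R.EE.v (q 75 100)] 45
    0x99a39190a399a33992113
    [V.of 10000 3000 3400, V.of 10000 0 570,
      V.of 10000 3900 4500, V.of 10000 (-920) 0] = true := by
  decide +kernel

theorem k_faBa : chkT [.sub eB1 (S0R.EE.S 10 3), .sub eB1 (S0R.EE.F 10 3 (q 1 2) (q 570 10000)),
    .sub (.sub S0R.EE.T S0R.EE.t) (q 930 10000), .sub S0R.EE.v (q 4000 10000)] 45
    0x88181
    [V.of 10000 3000 3400, V.of 10000 0 570,
      V.of 10000 1000 1000, V.of 10000 (-920) 0] = true := by
  decide +kernel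

theorem k_faBb : chkT [.sub eB1 (S0R.EE.S 10 3), .sub eB1 (S0R.EE.F 10 3 (.add S0R.EE.v (q 10
    100)) (q 570 10000)), .sub (.sub S0R.EE.T S0R.EE.t) (q 930 10000), .sub (q 4000 10000)
    S0R.EE.v, .sub S0R.EE.v (q 7000 10000)] 45
    0x9990a3399299932019992a9921aa999920211333299299822a33999a3998281213999812a9a9139a99929a9a3a3139882818121021308a813a3818221330398838281823212
    [V.of 10000 3000 3400, V.of 10000 0 570,
      V.of 10000 1000 4000, V.of 10000 (-920) 0] = true := by
  decide +kernel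

theorem k_faBc : chkT [.sub eB1 (S0R.EE.S 10 3), .sub eB1 (S0R.EE.F 10 3 (q 80 100) (q 570
    10000)), .sub (.sub S0R.EE.T S0R.EE.t) (q 930 10000), .sub (q 7000 10000) S0R.EE.v, .sub
    S0R.EE.v (q 75 100)] 45
    0x99290c929090aa911392a339ccc9220993299a339103921
    [V.of 10000 3000 3400, V.of 10000 0 570,
      V.of 10000 3600 4500, V.of 10000 (-920) 0] = true := by
  decide +kernel

theorem k_fb1b : chkT [.neg (S0R.EE.S 10 3), .neg (S0R.EE.F 10 3 (.add S0R.EE.v (q 7 100)) (q
    (-98) 10000)), .sub (.sub S0R.EE.T S0R.EE.t) (q 1050 10000), .sub S0R.EE.v (q 7300 10000)]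
    45
    0xbbb99a33220bbb893220199a3a39a3189a38131388a3813229909929920a3999299203139982a33889a81333120
    [V.of 10000 5000 6000, V.of 10000 0 570,
      V.of 10000 1000 2300, V.of 10000 (-1050) (-150)] = true := by
  decide +kernel

theorem k_fb1c : chkT [.neg (S0R.EE.S 10 3), .neg (S0R.EE.F 10 3 (q 80 100) (q (-98) 10000)),
    .sub (.sub S0R.EE.T S0R.EE.t) (q 1050 10000), .sub (q 7300 10000) S0R.EE.v, .sub S0R.EE.v (q
    75 100)] 45
    0xcccc9a9a31c92901a399a3391132200ccc920090cc920909028932aac8290a3a38290a3a311cc920c829008290ac8290a3829013a3139cc802908282cc822cc9209209082a3338cc822cc92092090823112cccc9a9191a399a33911322009a9a319a3911a399a339113299a3913b2b029a9a319a3911a33999a39139231b200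
    [V.of 10000 5000 6000, V.of 10000 0 570,
      V.of 10000 1300 2500, V.of 10000 (-1050) (-150)] = true := by
  decide +kernel

theorem k_fbob : chkT [.neg (S0R.EE.S 10 3), .neg (S0R.EE.F 10 3 (.add S0R.EE.v (q 7 100)) (q
    220 10000)), .sub (.sub S0R.EE.T S0R.EE.t) (q 1000 10000), .sub S0R.EE.v (q 7300 10000)] 45
    0xbbb99a3981132209909929920a339990990a39901331098082980a382a398082a313888a3382388823112
    [V.of 10000 5000 6000, V.of 10000 0 570,
      V.of 10000 1000 2300, V.of 10000 (-1000) 50] = true := by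
  decide +kernel

theorem k_fboc : chkT [.neg (S0R.EE.S 10 3), .neg (S0R.EE.F 10 3 (q 80 100) (q 220 10000)), .sub
    (.sub S0R.EE.T S0R.EE.t) (q 1000 10000), .sub (q 7300 10000) S0R.EE.v, .sub S0R.EE.v (q 75
    100)] 45
    0xcccc9c9290a39931a399a3391132200ccc9000c829029082acc9008a3290a382a31cc822cc9008208290a31a3cccc9200088a33299a330cc8028290182a31388838282ccc8022828290a3338cc820828298203112cc9209290ccc9a32c92100a9a319a319939012a9a319a3199a33911920a339ccc99a339120099a3913099a391323199a3913b0b220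
    [V.of 10000 5000 6000, V.of 10000 0 570,
      V.of 10000 1300 2500, V.of 10000 (-1000) 50] = true := by
  decide +kernel

theorem k_fbZb : chkT [.neg (S0R.EE.S 10 3), .neg (S0R.EE.F 10 3 (.add S0R.EE.v (q 7 100)) (q
    570 10000)), .sub (.sub S0R.EE.T S0R.EE.t) (q 930 10000), .sub S0R.EE.v (q 7300 10000)] 45
    0xbbb9a9191a33220bbb893220bb82211992a992a31a91a3a3039990a3389a38a323219b9099091089a3813231088380a8a3a318a3188381801388a381322
    [V.of 10000 5000 6000, V.of 10000 0 570,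
      V.of 10000 1000 2300, V.of 10000 (-920) 0] = true := by
  decide +kernel

theorem k_fbZc : chkT [.neg (S0R.EE.S 10 3), .neg (S0R.EE.F 10 3 (q 80 100) (q 570 10000)), .sub
    (.sub S0R.EE.T S0R.EE.t) (q 930 10000), .sub (q 7300 10000) S0R.EE.v, .sub S0R.EE.v (q 75
    100)] 45
    0xccccccc9200899a3391391291ac9290a3a319ac9290131a3389c9290a3391312200cc82282c82ccc8222820820acc82082a3a382a3138893c8a38129a39109133908282aaa8a3a3119a3190a382a313088282c828082ac8280821382a33188a8a3a318a31880138802312cccc922009cc920c929009139290912cc920929092910aacc92092a3a3a3a31aa9a3a3a3a3110cc920929920a3a3a311c9ac909013922ccc9220920cc92099309902920a313893ccc99a33912009a9a319a319130389a9a319a31919033219a9191a3913b2b020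
    [V.of 10000 5000 6000, V.of 10000 0 570,
      V.of 10000 1300 2500, V.of 10000 (-920) 0] = true := by
  decide +kernel

end SZ3

end VL

end Pool.Agent.Work.MP_b30479_gt.G2
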