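import Pool.Agent.Work.MP_b30479_gt.G2.VZ3A
import Pool.Agent.Work.NumU.Tree

/-!
# The slot 0 of an inner digit `3` next to a ring, right ramp: certificates

values, the part of the hinge
-/

namespace Pool.Agent.Work.MP_b30479_gt.G2

open VOL NumU

namespace VL

namespace SZ3

open S33 (eH eG yl yr)
open NumI (V)
open NumU.E (q var)

theorem k_Dlm : chkT [(eD 30 44 (yl (var 3) (var 2)) (eZ0 (var 0) (var 1) (var 2) (yl (var 3)
    (var 2)))), .sub (.sub (var 1) (var 3)) (q 105 1000)] 45
    0x8898133828893933889331883188220
    [V.of 10000 3800 6000, V.of 10000 0 570,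
      V.of 10000 0 500, V.of 10000 (-1050) 0] = true := by
  decide +kernel

theorem k_Dlp : chkT [(eD 30 44 (yl (var 3) (var 2)) (eZ1 (var 0) (var 1) (var 2) (yl (var 3)
    (var 2)))), .sub (.sub (var 3) (var 1)) (q 28 1000)] 45
    0x8
    [V.of 10000 3800 6000, V.of 10000 0 570,
      V.of 10000 0 500, V.of 10000 0 50] = true := by
  decide +kernel

theorem k_Dam : chkT [.sub (eD 30 42 (var 3) (eZ0 (var 0) (var 1) (var 2) (var 3))) (egB (var
    2)), .sub (.sub (var 1) (var 3)) (q 105 1000)] 45
    0x88880093889388080808013138888030889818100939388880009313888809338801310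
    [V.of 10000 3800 6000, V.of 10000 0 570,
      V.of 10000 500 1600, V.of 10000 (-1050) 0] = true := by
  decide +kernel

theorem k_Dap : chkT [.sub (eD 30 42 (var 3) (eZ1 (var 0) (var 1) (var 2) (var 3))) (egB (var
    2)), .sub (.sub (var 3) (var 1)) (q 28 1000)] 45
    0x880
    [V.of 10000 3800 6000, V.of 10000 0 570,
      V.of 10000 500 1600, V.of 10000 0 50] = true := by
  decide +kernel

theorem k_Dbm : chkT [.sub (eD 30 42 (var 3) (eZ0 (var 0) (var 1) (var 2) (var 3))) (q 85 1000),
    .sub (.sub (var 1) (var 3)) (q 105 1000), .sub (var 2) (.sub (var 0) (q 13 100))] 45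
    0x889819981133388981332a88981a09812332a08893889338831132088809819981133388939338893318888098898199818080133288001333122aa88981332a0a0a088939389313888938a0821331228828829393888029313888938133888938133212a88088a08230888883203298829388293939309318828a820882209393188a0a0088883810028889308132931388893882133a8889338132a0a0888938133208888093813321200
    [V.of 10000 3800 6000, V.of 10000 0 570,
      V.of 10000 1600 4700, V.of 10000 (-1050) 0] = true := by
  decide +kernel

theorem k_Dbp : chkT [.sub (eD 30 42 (var 3) (eZ1 (var 0) (var 1) (var 2) (var 3))) (q 85 1000),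
    .sub (.sub (var 3) (var 1)) (q 28 1000), .sub (var 2) (.sub (var 0) (q 13 100))] 45
    0x88a082082a880282a882200
    [V.of 10000 3800 6000, V.of 10000 0 570,
      V.of 10000 1600 4700, V.of 10000 0 50] = true := by
  decide +kernel

theorem k_Dn : chkT [.sub (eD 30 42 (var 3) (eZ3 (var 0) (var 1) (var 2) (var 3))) (q 6 100),
    .sub (eH (var 0) (var 1)) (var 3), .sub (.sub (var 0) (var 2)) (q 13 100), .sub (.sub (var
    2) (var 0)) (q 13 100)] 45
    0x8
    [V.of 10000 5000 6000, V.of 10000 350 570,
      V.of 10000 3700 7300, V.of 10000 0 50] = true := by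
  decide +kernel

theorem k_Dh : chkT [.sub (eD 38 58 (yr (var 3) (var 2)) (eZ2 (var 0) (var 1) (var 2) (yr (var
    3) (var 2)))) (egH (var 2) (var 3)), .sub (.sub (var 1) (var 3)) (q 105 1000), .sub (.sub
    (var 3) (var 1)) (q 28 1000)] 45
    0x880838388803883088893880193888933288011288938818012893810029332880838808880808880809393880809318880933888001889381301232321
    [V.of 10000 5000 6000, V.of 10000 0 570,
      V.of 10000 7500 8000, V.of 10000 (-1050) 50] = true := by
  decide +kernel

end SZ3

end VL

end Pool.Agent.Work.MP_b30479_gt.G2
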