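import Pool.Agent.Work.MP_b30479_gt.G2.VZ3A
import Pool.Agent.Work.NumU.Tree

/-!
# The slot 0 of an inner digit `3` next to a ring, right ramp: certificates

values, the part of the hinge in slot 2
-/

namespace Pool.Agent.Work.MP_b30479_gt.G2

open VOL NumU

namespace VL

namespace SZ3

open S33 (eH eG yl yr)
open NumI (V)
open NumU.E (q var)

theorem k_Gar : chkT [.add (eG (q 42 100) (var 0) (var 1) (var 1) (var 2) (.mul (var 3) (var
    2))) (egB (var 0))] 45
    0x888038822888038880221888138882308880388288288812102288388328880388288802882102210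
    [V.of 10000 500 1600, V.of 10000 (-1050) 50,
      V.of 10000 0 1500, V.of 10000 (-7634) 4385] = true := by
  decide +kernel

theorem k_Gaf : chkT [.add (eG (q 42 100) (var 0) (var 1) (var 1) (var 2) (var 3)) (egB (var
    0))] 45
    0x888382388803188813288818038880328880388803210
    [V.of 10000 500 1600, V.of 10000 (-1050) 50,
      V.of 10000 1300 3900, V.of 10000 (-1145) 570] = true := by
  decide +kernel

theorem k_Gbr : chkT [.add (eG (q 42 100) (var 0) (var 1) (var 1) (var 2) (.mul (var 3) (var
    2))) (q 85 1000)] 45
    0x8880082881828288813882200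
    [V.of 10000 1600 4700, V.of 10000 (-1050) 50,
      V.of 10000 0 1500, V.of 10000 (-7634) 4385] = true := by
  decide +kernel

theorem k_Gbf : chkT [.add (eG (q 42 100) (var 0) (var 1) (var 1) (var 2) (var 3)) (q 85 1000)]
    45
    0x883883188328818228883388803188803288182208888033888031888132888132888803388803188813288813200
    [V.of 10000 1600 4700, V.of 10000 (-1050) 50,
      V.of 10000 1300 3900, V.of 10000 (-1145) 570] = true := by
  decide +kernel

theorem k_Gnr : chkT [.add (eG (q 42 100) (var 0) (var 1) (var 1) (var 2) (.mul (var 3) (var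
    2))) (q 6 100)] 45
    0x88382883088382088080088280802
    [V.of 10000 3700 7300, V.of 10000 0 50,
      V.of 10000 0 1500, V.of 10000 (-7634) 4385] = true := by
  decide +kernel

theorem k_GnA : chkT [.add (eG (q 42 100) (var 0) (var 1) (var 1) (var 2) (var 3)) (q 6 100),
    .sub (.add (var 0) (var 2)) (q 5 6)] 45
    0x999982220998822209998220880838808022098298082088228838288020888038802880200
    [V.of 10000 3700 7300, V.of 10000 0 50,
      V.of 10000 1300 3900, V.of 10000 (-1145) 570] = true := by
  decide +kernel

theorem k_GnB : chkT [.add (eG1 (q 42 100) (var 0) (var 1) (var 1) (var 2) (var 3) (.add (.uu (q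
    5 6) (.add (var 1) (var 3))) (.mul (.sub (.add (var 0) (var 2)) (q 5 6)) (.lnA (q 1 6) (.add
    (var 1) (var 3)))))) (q 6 100), .sub (q 5 6) (.add (var 0) (var 2))] 45
    0x88388830883892909002288083928929092929000
    [V.of 10000 3700 7300, V.of 10000 0 50,
      V.of 10000 1300 3900, V.of 10000 (-1145) 570] = true := by
  decide +kernel

theorem k_Ghr : chkT [.add (eG (q 58 100) (var 0) (yr (var 1) (var 0)) (var 1) (var 2) (.mul
    (var 3) (var 2))) (egH (var 0) (var 1))] 45
    0x8808383880832883880831288083883288083288083880388083880321088821838388238828828318803288083838883183288283882838803120883880388283882318818388038880183880322880838803883838838321882838808388800832188388801232001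
    [V.of 10000 7500 8000, V.of 10000 (-1050) 50,
      V.of 10000 700 1500, V.of 10000 (-7634) 4385] = true := by
  decide +kernel

theorem k_GhA : chkT [.add (eG (q 58 100) (var 0) (yr (var 1) (var 0)) (var 1) (var 2) (var 3))
    (egH (var 0) (var 1)), .sub (.add (var 0) (var 2)) (q 94 100)] 45
    0x98882183880329998818322088083880838312088388308808338808388032883838838308808383288183883832881838838320010
    [V.of 10000 7500 8000, V.of 10000 (-1050) 50,
      V.of 10000 1300 1900, V.of 10000 (-1145) 570] = true := by
  decide +kernel

theorem k_GhB : chkT [.add (eG1 (q 58 100) (var 0) (yr (var 1) (var 0)) (var 1) (var 2) (var 3)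
    (.add (.uu (q 94 100) (.add (yr (var 1) (var 0)) (var 3))) (.mul (.sub (.add (var 0) (var
    2)) (q 94 100)) (.lnA (q 6 100) (.add (yr (var 1) (var 0)) (var 3)))))) (egH (var 0) (var
    1)), .sub (q 94 100) (.add (var 0) (var 2)), .sub (.add (var 0) (var 2)) (q 106 100)] 45
    0x883883388283882328838880283288283388388338838808318833201883883883038838813880838803922288803880833883880388183922288388138838839290228838833883838839290221010
    [V.of 10000 7500 8000, V.of 10000 (-1050) 50,
      V.of 10000 1400 3100, V.of 10000 (-1145) 570] = true := by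
  decide +kernel

theorem k_GhP : chkT [.add (eG1 (q 58 100) (var 0) (yr (var 1) (var 0)) (var 1) (var 2) (var 3)
    (.add (.uu (.sub (.add (var 0) (var 2)) (q 1 1)) (.add (yr (var 1) (var 0)) (var 3))) (.mul
    .pi (.add (yr (var 1) (var 0)) (var 3))))) (egH (var 0) (var 1)), .sub (q 106 100) (.add
    (var 0) (var 2)), .neg (.add (yr (var 1) (var 0)) (var 3))] 45
    0x88801838818811838a38a300188388832088188018819290202aa13
    [V.of 10000 7500 8000, V.of 10000 (-1050) 50,
      V.of 10000 2600 3900, V.of 10000 (-1145) 570] = true := by
  decide +kernel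

theorem k_GhM : chkT [.add (eG1 (q 58 100) (var 0) (yr (var 1) (var 0)) (var 1) (var 2) (var 3)
    (.sub (.uu (.sub (.add (var 0) (var 2)) (q 1 1)) (.add (yr (var 1) (var 0)) (var 3))) (.mul
    .pi (.add (yr (var 1) (var 0)) (var 3))))) (egH (var 0) (var 1)), .sub (q 106 100) (.add
    (var 0) (var 2)), .add (yr (var 1) (var 0)) (var 3)] 45
    0x883883288388331882883388388318839290202883880388388388030288388038838803188083883881308818392902201
    [V.of 10000 7500 8000, V.of 10000 (-1050) 50,
      V.of 10000 2600 3900, V.of 10000 (-1145) 570] = true := by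
  decide +kernel

end SZ3

end VL

end Pool.Agent.Work.MP_b30479_gt.G2
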