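import Pool.Agent.Work.MP_b30479_gt.G2.VZ3A
import Pool.Agent.Work.NumU.Tree

/-!
# The slot 0 of an inner digit `3` next to a ring, right ramp: certificates

the side of the ring
-/

namespace Pool.Agent.Work.MP_b30479_gt.G2

open VOL NumU

namespace VL

namespace SZ3

open S33 (eH eG yl yr)
open NumI (V)
open NumU.E (q var)

theorem k_Rr : chkT [eR] 45
    0x8838832882832882882882088288088088821083221128838803881832882888228828828888083221211288388328832882881228838823882832882838828838880832832122100
    [V.of 10000 3000 4000, V.of 10000 0 570,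
      V.of 10000 1250 2500, V.of 10000 0 1045] = true := by
  decide +kernel

theorem k_RfA : chkT [eF (.lnA eQ eN) (.neg (.lnB eQ eN)), .sub (.add (var 0) (var 2)) (q 4 10)]
    45
    0x99822988320999980220883208880198082388083288388083188183288083881830200
    [V.of 10000 3000 4000, V.of 10000 0 570,
      V.of 10000 0 1000, V.of 10000 0 1045] = true := by
  decide +kernel

theorem k_RfB : chkT [eF (.lnA (q 1 10) eN) (.neg (.lnB (q 9 10) eN)), .sub (q 4 10) (.add (var
    0) (var 2)), .sub (.add (var 0) (var 2)) (q 6 10)] 45
    0x882838838808322881838828328808283881828318818392200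
    [V.of 10000 3000 4000, V.of 10000 0 570,
      V.of 10000 0 2500, V.of 10000 0 1045] = true := by
  decide +kernel

theorem k_RfC : chkT [eF (.lnA (q 15 100) eN) (.neg (.lnB (q 9 10) eN)), .sub (q 6 10) (.add
    (var 0) (var 2))] 45
    0x88083
    [V.of 10000 3500 4000, V.of 10000 0 570,
      V.of 10000 2000 2500, V.of 10000 0 1045] = true := by
  decide +kernel

end SZ3

end VL

end Pool.Agent.Work.MP_b30479_gt.G2
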