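import Pool.Agent.Work.MP_b30479_gt.G2.VZ3B

/-!
# The slot 0 of an inner digit `3` next to a ring, right ramp: the side of the digit

`u` the hinge, `v` the inner variable, `w` the hinge in slot 2 of the digit.
-/

set_option linter.unusedVariables false

namespace Pool.Agent.Work.MP_b30479_gt.G2

open VOL NumU

namespace VL

namespace SZ3

open S0R (rS rF rN rui S3_far far_core near_ge H_all H_le H_half YY_nn YY_ge_neg)

private theorem r_Na0 {x T t : ℝ} (ua1 : 3000 / 10000 ≤ x) (ua2 : x ≤ 3400 / 10000) (ua3 : 0 ≤ T)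
    (ua4 : T ≤ 570 / 10000) (ua5 : -1050 / 10000 ≤ t) (ua6 : t ≤ 50 / 10000)
    (ua7 : t - rui (10 / 3) x T ≤ 0)
    (ua8 : T - t ≤ 105 / 1000) :
    rN (10 / 3) (1300 / 10000) 0 (x + 1300 / 10000) x T t < 355 / 1000 - 6 / 10 * x := by
  obtain ⟨f, hf, hp⟩ := chkT3 k_Na0 (by norm_num) (x := x) (y := T) (z := t)
    (by norm_num; linarith only [ua1]) (by norm_num; linarith only [ua2]) (by norm_num; linarith only [ua3])
    (by norm_num; linarith only [ua4]) (by norm_num; linarith only [ua5]) (by norm_num; linarith only [ua6])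
  by_contra hc
  push Not at hc
  simp only [List.mem_cons, List.not_mem_nil, or_false] at hf
  rcases hf with rfl | rfl | rfl <;>
  · simp only [S0R.EE.S_val, S0R.EE.F_val, S0R.EE.N_val, S0R.EE.ui_val, S0R.EE.kT, S0R.EE.nyy,
      S0R.EE.x, S0R.EE.T, S0R.EE.p, S0R.EE.t, S0R.EE.nt, S0R.EE.v, E.val, NumI.lkR,
      eB1_val] at hp
    push_cast at hp
    linarith only [hc, hp, ua7, ua8]

private theorem r_Na1 {x T t : ℝ} (ua1 : 3000 / 10000 ≤ x) (ua2 : x ≤ 3400 / 10000) (ua3 : 0 ≤ T)
    (ua4 : T ≤ 570 / 10000) (ua5 : 0 / 10000 ≤ t) (ua6 : t ≤ 50 / 10000)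
    (ua7 : 0 ≤ t - rui (10 / 3) x T) :
    rN (10 / 3) (1300 / 10000) (-Real.pi) (x + 1300 / 10000) x T t < 355 / 1000 - 6 / 10 * x := by
  obtain ⟨f, hf, hp⟩ := chkT3 k_Na1 (by norm_num) (x := x) (y := T) (z := t)
    (by norm_num; linarith only [ua1]) (by norm_num; linarith only [ua2]) (by norm_num; linarith only [ua3])
    (by norm_num; linarith only [ua4]) (by norm_num; linarith only [ua5]) (by norm_num; linarith only [ua6])
  by_contra hc
  push Not at hc
  simp only [List.mem_cons, List.not_mem_nil, or_false] at hf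
  rcases hf with rfl | rfl <;>
  · simp only [S0R.EE.S_val, S0R.EE.F_val, S0R.EE.N_val, S0R.EE.ui_val, S0R.EE.kT, S0R.EE.nyy,
      S0R.EE.x, S0R.EE.T, S0R.EE.p, S0R.EE.t, S0R.EE.nt, S0R.EE.v, E.val, NumI.lkR,
      eB1_val] at hp
    push_cast at hp
    linarith only [hc, hp, ua7]

private theorem r_Nb0 {x T t : ℝ} (ua1 : 5000 / 10000 ≤ x) (ua2 : x ≤ 6000 / 10000) (ua3 : 0 ≤ T)
    (ua4 : T ≤ 570 / 10000) (ua5 : -1050 / 10000 ≤ t) (ua6 : t ≤ 50 / 10000)
    (ua7 : t - rui (10 / 3) x T ≤ 0)
    (ua8 : T - t ≤ 105 / 1000) :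
    rN (10 / 3) (1300 / 10000) 0 (x + 1300 / 10000) x T t < 0 := by
  obtain ⟨f, hf, hp⟩ := chkT3 k_Nb0 (by norm_num) (x := x) (y := T) (z := t)
    (by norm_num; linarith only [ua1]) (by norm_num; linarith only [ua2]) (by norm_num; linarith only [ua3])
    (by norm_num; linarith only [ua4]) (by norm_num; linarith only [ua5]) (by norm_num; linarith only [ua6])
  by_contra hc
  push Not at hc
  simp only [List.mem_cons, List.not_mem_nil, or_false] at hf
  rcases hf with rfl | rfl | rfl <;>
  · simp only [S0R.EE.S_val, S0R.EE.F_val, S0R.EE.N_val, S0R.EE.ui_val, S0R.EE.kT, S0R.EE.nyy,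
      S0R.EE.x, S0R.EE.T, S0R.EE.p, S0R.EE.t, S0R.EE.nt, S0R.EE.v, E.val, NumI.lkR,
      eB1_val] at hp
    push_cast at hp
    linarith only [hc, hp, ua7, ua8]

private theorem r_Nb1 {x T t : ℝ} (ua1 : 5000 / 10000 ≤ x) (ua2 : x ≤ 6000 / 10000) (ua3 : 0 ≤ T)
    (ua4 : T ≤ 350 / 10000) (ua5 : 0 / 10000 ≤ t) (ua6 : t ≤ 50 / 10000)
    (ua7 : 0 ≤ t - rui (10 / 3) x T) :
    rN (10 / 3) (1300 / 10000) (-Real.pi) (x + 1300 / 10000) x T t < 0 := by
  obtain ⟨f, hf, hp⟩ := chkT3 k_Nb1 (by norm_num) (x := x) (y := T) (z := t)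
    (by norm_num; linarith only [ua1]) (by norm_num; linarith only [ua2]) (by norm_num; linarith only [ua3])
    (by norm_num; linarith only [ua4]) (by norm_num; linarith only [ua5]) (by norm_num; linarith only [ua6])
  by_contra hc
  push Not at hc
  simp only [List.mem_cons, List.not_mem_nil, or_false] at hf
  rcases hf with rfl | rfl <;>
  · simp only [S0R.EE.S_val, S0R.EE.F_val, S0R.EE.N_val, S0R.EE.ui_val, S0R.EE.kT, S0R.EE.nyy,
      S0R.EE.x, S0R.EE.T, S0R.EE.p, S0R.EE.t, S0R.EE.nt, S0R.EE.v, E.val, NumI.lkR,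
      eB1_val] at hp
    push_cast at hp
    linarith only [hc, hp, ua7]

private theorem r_fa1a {x T p t : ℝ} (ua1 : 3000 / 10000 ≤ x) (ua2 : x ≤ 3400 / 10000) (ua3 : 0 ≤ T)
    (ua4 : T ≤ 570 / 10000) (ua5 : 1000 / 10000 ≤ p) (ua6 : p ≤ 1300 / 10000)
    (ua7 : -1050 / 10000 ≤ t) (ua8 : t ≤ -150 / 10000) (ua9 : T - t ≤ 1050 / 10000)
    (ua10 : x + p ≤ 43 / 100) :
    rS (10 / 3) x T p t < 355 / 1000 - 6 / 10 * x ∨
      rF (10 / 3) (1 / 2) (-98 / 10000) x T p t < 355 / 1000 - 6 / 10 * x := by
  obtain ⟨f, hf, hp⟩ := chkT4 k_fa1a (by norm_num) (x := x) (y := T) (z := p) (w := t)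
    (by norm_num; linarith only [ua1]) (by norm_num; linarith only [ua2]) (by norm_num; linarith only [ua3])
    (by norm_num; linarith only [ua4]) (by norm_num; linarith only [ua5]) (by norm_num; linarith only [ua6])
    (by norm_num; linarith only [ua7]) (by norm_num; linarith only [ua8])
  by_contra hc
  push Not at hc
  obtain ⟨hc0, hc1⟩ := hc
  simp only [List.mem_cons, List.not_mem_nil, or_false] at hf
  rcases hf with rfl | rfl | rfl | rfl <;>
  · simp only [S0R.EE.S_val, S0R.EE.F_val, S0R.EE.N_val, S0R.EE.ui_val, S0R.EE.kT, S0R.EE.nyy,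
      S0R.EE.x, S0R.EE.T, S0R.EE.p, S0R.EE.t, S0R.EE.nt, S0R.EE.v, E.val, NumI.lkR,
      eB1_val] at hp
    push_cast at hp
    linarith only [hc0, hp, hc1, ua9, ua10]

private theorem r_fa1b {x T p t : ℝ} (ua1 : 3000 / 10000 ≤ x) (ua2 : x ≤ 3400 / 10000) (ua3 : 0 ≤ T)
    (ua4 : T ≤ 570 / 10000) (ua5 : 1000 / 10000 ≤ p) (ua6 : p ≤ 4300 / 10000)
    (ua7 : -1050 / 10000 ≤ t) (ua8 : t ≤ -150 / 10000) (ua9 : T - t ≤ 1050 / 10000)
    (ua10 : 43 / 100 ≤ x + p) (ua11 : x + p ≤ 73 / 100) :
    rS (10 / 3) x T p t < 355 / 1000 - 6 / 10 * x ∨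
      rF (10 / 3) (x + p + 7 / 100) (-98 / 10000) x T p t < 355 / 1000 - 6 / 10 * x := by
  obtain ⟨f, hf, hp⟩ := chkT4 k_fa1b (by norm_num) (x := x) (y := T) (z := p) (w := t)
    (by norm_num; linarith only [ua1]) (by norm_num; linarith only [ua2]) (by norm_num; linarith only [ua3])
    (by norm_num; linarith only [ua4]) (by norm_num; linarith only [ua5]) (by norm_num; linarith only [ua6])
    (by norm_num; linarith only [ua7]) (by norm_num; linarith only [ua8])
  by_contra hc
  push Not at hc
  obtain ⟨hc0, hc1⟩ := hc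
  simp only [List.mem_cons, List.not_mem_nil, or_false] at hf
  rcases hf with rfl | rfl | rfl | rfl | rfl <;>
  · simp only [S0R.EE.S_val, S0R.EE.F_val, S0R.EE.N_val, S0R.EE.ui_val, S0R.EE.kT, S0R.EE.nyy,
      S0R.EE.x, S0R.EE.T, S0R.EE.p, S0R.EE.t, S0R.EE.nt, S0R.EE.v, E.val, NumI.lkR,
      eB1_val] at hp
    push_cast at hp
    linarith only [hc0, hp, hc1, ua9, ua10, ua11]

private theorem r_fa1c {x T p t : ℝ} (ua1 : 3000 / 10000 ≤ x) (ua2 : x ≤ 3400 / 10000) (ua3 : 0 ≤ T)
    (ua4 : T ≤ 570 / 10000) (ua5 : 3900 / 10000 ≤ p) (ua6 : p ≤ 4500 / 10000)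
    (ua7 : -1050 / 10000 ≤ t) (ua8 : t ≤ -150 / 10000) (ua9 : T - t ≤ 1050 / 10000)
    (ua10 : 73 / 100 ≤ x + p) (ua11 : x + p ≤ 75 / 100) :
    rS (10 / 3) x T p t < 355 / 1000 - 6 / 10 * x ∨
      rF (10 / 3) (80 / 100) (-98 / 10000) x T p t < 355 / 1000 - 6 / 10 * x := by
  obtain ⟨f, hf, hp⟩ := chkT4 k_fa1c (by norm_num) (x := x) (y := T) (z := p) (w := t)
    (by norm_num; linarith only [ua1]) (by norm_num; linarith only [ua2]) (by norm_num; linarith only [ua3])
    (by norm_num; linarith only [ua4]) (by norm_num; linarith only [ua5]) (by norm_num; linarith only [ua6])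
    (by norm_num; linarith only [ua7]) (by norm_num; linarith only [ua8])
  by_contra hc
  push Not at hc
  obtain ⟨hc0, hc1⟩ := hc
  simp only [List.mem_cons, List.not_mem_nil, or_false] at hf
  rcases hf with rfl | rfl | rfl | rfl | rfl <;>
  · simp only [S0R.EE.S_val, S0R.EE.F_val, S0R.EE.N_val, S0R.EE.ui_val, S0R.EE.kT, S0R.EE.nyy,
      S0R.EE.x, S0R.EE.T, S0R.EE.p, S0R.EE.t, S0R.EE.nt, S0R.EE.v, E.val, NumI.lkR,
      eB1_val] at hp
    push_cast at hp
    linarith only [hc0, hp, hc1, ua9, ua10, ua11]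

private theorem r_faoa {x T p t : ℝ} (ua1 : 3000 / 10000 ≤ x) (ua2 : x ≤ 3400 / 10000) (ua3 : 0 ≤ T)
    (ua4 : T ≤ 570 / 10000) (ua5 : 1000 / 10000 ≤ p) (ua6 : p ≤ 1300 / 10000)
    (ua7 : -1000 / 10000 ≤ t) (ua8 : t ≤ 50 / 10000) (ua9 : T - t ≤ 1000 / 10000)
    (ua10 : x + p ≤ 43 / 100) :
    rS (10 / 3) x T p t < 355 / 1000 - 6 / 10 * x ∨
      rF (10 / 3) (1 / 2) (220 / 10000) x T p t < 355 / 1000 - 6 / 10 * x := by
  obtain ⟨f, hf, hp⟩ := chkT4 k_faoa (by norm_num) (x := x) (y := T) (z := p) (w := t)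
    (by norm_num; linarith only [ua1]) (by norm_num; linarith only [ua2]) (by norm_num; linarith only [ua3])
    (by norm_num; linarith only [ua4]) (by norm_num; linarith only [ua5]) (by norm_num; linarith only [ua6])
    (by norm_num; linarith only [ua7]) (by norm_num; linarith only [ua8])
  by_contra hc
  push Not at hc
  obtain ⟨hc0, hc1⟩ := hc
  simp only [List.mem_cons, List.not_mem_nil, or_false] at hf
  rcases hf with rfl | rfl | rfl | rfl <;>
  · simp only [S0R.EE.S_val, S0R.EE.F_val, S0R.EE.N_val, S0R.EE.ui_val, S0R.EE.kT, S0R.EE.nyy,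
      S0R.EE.x, S0R.EE.T, S0R.EE.p, S0R.EE.t, S0R.EE.nt, S0R.EE.v, E.val, NumI.lkR,
      eB1_val] at hp
    push_cast at hp
    linarith only [hc0, hp, hc1, ua9, ua10]

private theorem r_faob {x T p t : ℝ} (ua1 : 3000 / 10000 ≤ x) (ua2 : x ≤ 3400 / 10000) (ua3 : 0 ≤ T)
    (ua4 : T ≤ 570 / 10000) (ua5 : 1000 / 10000 ≤ p) (ua6 : p ≤ 4300 / 10000)
    (ua7 : -1000 / 10000 ≤ t) (ua8 : t ≤ 50 / 10000) (ua9 : T - t ≤ 1000 / 10000)
    (ua10 : 43 / 100 ≤ x + p) (ua11 : x + p ≤ 73 / 100) :
    rS (10 / 3) x T p t < 355 / 1000 - 6 / 10 * x ∨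
      rF (10 / 3) (x + p + 7 / 100) (220 / 10000) x T p t < 355 / 1000 - 6 / 10 * x := by
  obtain ⟨f, hf, hp⟩ := chkT4 k_faob (by norm_num) (x := x) (y := T) (z := p) (w := t)
    (by norm_num; linarith only [ua1]) (by norm_num; linarith only [ua2]) (by norm_num; linarith only [ua3])
    (by norm_num; linarith only [ua4]) (by norm_num; linarith only [ua5]) (by norm_num; linarith only [ua6])
    (by norm_num; linarith only [ua7]) (by norm_num; linarith only [ua8])
  by_contra hc
  push Not at hc
  obtain ⟨hc0, hc1⟩ := hc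
  simp only [List.mem_cons, List.not_mem_nil, or_false] at hf
  rcases hf with rfl | rfl | rfl | rfl | rfl <;>
  · simp only [S0R.EE.S_val, S0R.EE.F_val, S0R.EE.N_val, S0R.EE.ui_val, S0R.EE.kT, S0R.EE.nyy,
      S0R.EE.x, S0R.EE.T, S0R.EE.p, S0R.EE.t, S0R.EE.nt, S0R.EE.v, E.val, NumI.lkR,
      eB1_val] at hp
    push_cast at hp
    linarith only [hc0, hp, hc1, ua9, ua10, ua11]

private theorem r_faoc {x T p t : ℝ} (ua1 : 3000 / 10000 ≤ x) (ua2 : x ≤ 3400 / 10000) (ua3 : 0 ≤ T)
    (ua4 : T ≤ 570 / 10000) (ua5 : 3900 / 10000 ≤ p) (ua6 : p ≤ 4500 / 10000)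
    (ua7 : -1000 / 10000 ≤ t) (ua8 : t ≤ 50 / 10000) (ua9 : T - t ≤ 1000 / 10000)
    (ua10 : 73 / 100 ≤ x + p) (ua11 : x + p ≤ 75 / 100) :
    rS (10 / 3) x T p t < 355 / 1000 - 6 / 10 * x ∨
      rF (10 / 3) (80 / 100) (220 / 10000) x T p t < 355 / 1000 - 6 / 10 * x := by
  obtain ⟨f, hf, hp⟩ := chkT4 k_faoc (by norm_num) (x := x) (y := T) (z := p) (w := t)
    (by norm_num; linarith only [ua1]) (by norm_num; linarith only [ua2]) (by norm_num; linarith only [ua3])
    (by norm_num; linarith only [ua4]) (by norm_num; linarith only [ua5]) (by norm_num; linarith only [ua6])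
    (by norm_num; linarith only [ua7]) (by norm_num; linarith only [ua8])
  by_contra hc
  push Not at hc
  obtain ⟨hc0, hc1⟩ := hc
  simp only [List.mem_cons, List.not_mem_nil, or_false] at hf
  rcases hf with rfl | rfl | rfl | rfl | rfl <;>
  · simp only [S0R.EE.S_val, S0R.EE.F_val, S0R.EE.N_val, S0R.EE.ui_val, S0R.EE.kT, S0R.EE.nyy,
      S0R.EE.x, S0R.EE.T, S0R.EE.p, S0R.EE.t, S0R.EE.nt, S0R.EE.v, E.val, NumI.lkR,
      eB1_val] at hp
    push_cast at hp
    linarith only [hc0, hp, hc1, ua9, ua10, ua11]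

private theorem r_faAa {x T p t : ℝ} (ua1 : 3000 / 10000 ≤ x) (ua2 : x ≤ 3400 / 10000) (ua3 : 0 ≤ T)
    (ua4 : T ≤ 570 / 10000) (ua5 : 1000 / 10000 ≤ p) (ua6 : p ≤ 1300 / 10000)
    (ua7 : -920 / 10000 ≤ t) (ua8 : t ≤ 0 / 10000) (ua9 : T - t ≤ 930 / 10000)
    (ua10 : x + p ≤ 43 / 100) :
    rS (10 / 3) x T p t < 355 / 1000 - 6 / 10 * x ∨
      rF (10 / 3) (1 / 2) (4385 / 100000) x T p t < 355 / 1000 - 6 / 10 * x := by
  obtain ⟨f, hf, hp⟩ := chkT4 k_faAa (by norm_num) (x := x) (y := T) (z := p) (w := t)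
    (by norm_num; linarith only [ua1]) (by norm_num; linarith only [ua2]) (by norm_num; linarith only [ua3])
    (by norm_num; linarith only [ua4]) (by norm_num; linarith only [ua5]) (by norm_num; linarith only [ua6])
    (by norm_num; linarith only [ua7]) (by norm_num; linarith only [ua8])
  by_contra hc
  push Not at hc
  obtain ⟨hc0, hc1⟩ := hc
  simp only [List.mem_cons, List.not_mem_nil, or_false] at hf
  rcases hf with rfl | rfl | rfl | rfl <;>
  · simp only [S0R.EE.S_val, S0R.EE.F_val, S0R.EE.N_val, S0R.EE.ui_val, S0R.EE.kT, S0R.EE.nyy,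
      S0R.EE.x, S0R.EE.T, S0R.EE.p, S0R.EE.t, S0R.EE.nt, S0R.EE.v, E.val, NumI.lkR,
      eB1_val] at hp
    push_cast at hp
    linarith only [hc0, hp, hc1, ua9, ua10]

private theorem r_faAb {x T p t : ℝ} (ua1 : 3000 / 10000 ≤ x) (ua2 : x ≤ 3400 / 10000) (ua3 : 0 ≤ T)
    (ua4 : T ≤ 570 / 10000) (ua5 : 1000 / 10000 ≤ p) (ua6 : p ≤ 4300 / 10000)
    (ua7 : -920 / 10000 ≤ t) (ua8 : t ≤ 0 / 10000) (ua9 : T - t ≤ 930 / 10000)
    (ua10 : 43 / 100 ≤ x + p) (ua11 : x + p ≤ 73 / 100) :
    rS (10 / 3) x T p t < 355 / 1000 - 6 / 10 * x ∨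
      rF (10 / 3) (x + p + 7 / 100) (4385 / 100000) x T p t < 355 / 1000 - 6 / 10 * x := by
  obtain ⟨f, hf, hp⟩ := chkT4 k_faAb (by norm_num) (x := x) (y := T) (z := p) (w := t)
    (by norm_num; linarith only [ua1]) (by norm_num; linarith only [ua2]) (by norm_num; linarith only [ua3])
    (by norm_num; linarith only [ua4]) (by norm_num; linarith only [ua5]) (by norm_num; linarith only [ua6])
    (by norm_num; linarith only [ua7]) (by norm_num; linarith only [ua8])
  by_contra hc
  push Not at hc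
  obtain ⟨hc0, hc1⟩ := hc
  simp only [List.mem_cons, List.not_mem_nil, or_false] at hf
  rcases hf with rfl | rfl | rfl | rfl | rfl <;>
  · simp only [S0R.EE.S_val, S0R.EE.F_val, S0R.EE.N_val, S0R.EE.ui_val, S0R.EE.kT, S0R.EE.nyy,
      S0R.EE.x, S0R.EE.T, S0R.EE.p, S0R.EE.t, S0R.EE.nt, S0R.EE.v, E.val, NumI.lkR,
      eB1_val] at hp
    push_cast at hp
    linarith only [hc0, hp, hc1, ua9, ua10, ua11]

private theorem r_faAc {x T p t : ℝ} (ua1 : 3000 / 10000 ≤ x) (ua2 : x ≤ 3400 / 10000) (ua3 : 0 ≤ T)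
    (ua4 : T ≤ 570 / 10000) (ua5 : 3900 / 10000 ≤ p) (ua6 : p ≤ 4500 / 10000)
    (ua7 : -920 / 10000 ≤ t) (ua8 : t ≤ 0 / 10000) (ua9 : T - t ≤ 930 / 10000)
    (ua10 : 73 / 100 ≤ x + p) (ua11 : x + p ≤ 75 / 100) :
    rS (10 / 3) x T p t < 355 / 1000 - 6 / 10 * x ∨
      rF (10 / 3) (80 / 100) (4385 / 100000) x T p t < 355 / 1000 - 6 / 10 * x := by
  obtain ⟨f, hf, hp⟩ := chkT4 k_faAc (by norm_num) (x := x) (y := T) (z := p) (w := t)
    (by norm_num; linarith only [ua1]) (by norm_num; linarith only [ua2]) (by norm_num; linarith only [ua3])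
    (by norm_num; linarith only [ua4]) (by norm_num; linarith only [ua5]) (by norm_num; linarith only [ua6])
    (by norm_num; linarith only [ua7]) (by norm_num; linarith only [ua8])
  by_contra hc
  push Not at hc
  obtain ⟨hc0, hc1⟩ := hc
  simp only [List.mem_cons, List.not_mem_nil, or_false] at hf
  rcases hf with rfl | rfl | rfl | rfl | rfl <;>
  · simp only [S0R.EE.S_val, S0R.EE.F_val, S0R.EE.N_val, S0R.EE.ui_val, S0R.EE.kT, S0R.EE.nyy,
      S0R.EE.x, S0R.EE.T, S0R.EE.p, S0R.EE.t, S0R.EE.nt, S0R.EE.v, E.val, NumI.lkR,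
      eB1_val] at hp
    push_cast at hp
    linarith only [hc0, hp, hc1, ua9, ua10, ua11]

private theorem r_faBa {x T p t : ℝ} (ua1 : 3000 / 10000 ≤ x) (ua2 : x ≤ 3400 / 10000) (ua3 : 0 ≤ T)
    (ua4 : T ≤ 570 / 10000) (ua5 : 1000 / 10000 ≤ p) (ua6 : p ≤ 1000 / 10000)
    (ua7 : -920 / 10000 ≤ t) (ua8 : t ≤ 0 / 10000) (ua9 : T - t ≤ 930 / 10000)
    (ua10 : x + p ≤ 40 / 100) :
    rS (10 / 3) x T p t < 355 / 1000 - 6 / 10 * x ∨
      rF (10 / 3) (1 / 2) (570 / 10000) x T p t < 355 / 1000 - 6 / 10 * x := by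
  obtain ⟨f, hf, hp⟩ := chkT4 k_faBa (by norm_num) (x := x) (y := T) (z := p) (w := t)
    (by norm_num; linarith only [ua1]) (by norm_num; linarith only [ua2]) (by norm_num; linarith only [ua3])
    (by norm_num; linarith only [ua4]) (by norm_num; linarith only [ua5]) (by norm_num; linarith only [ua6])
    (by norm_num; linarith only [ua7]) (by norm_num; linarith only [ua8])
  by_contra hc
  push Not at hc
  obtain ⟨hc0, hc1⟩ := hc
  simp only [List.mem_cons, List.not_mem_nil, or_false] at hf
  rcases hf with rfl | rfl | rfl | rfl <;>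
  · simp only [S0R.EE.S_val, S0R.EE.F_val, S0R.EE.N_val, S0R.EE.ui_val, S0R.EE.kT, S0R.EE.nyy,
      S0R.EE.x, S0R.EE.T, S0R.EE.p, S0R.EE.t, S0R.EE.nt, S0R.EE.v, E.val, NumI.lkR,
      eB1_val] at hp
    push_cast at hp
    linarith only [hc0, hp, hc1, ua9, ua10]

private theorem r_faBb {x T p t : ℝ} (ua1 : 3000 / 10000 ≤ x) (ua2 : x ≤ 3400 / 10000) (ua3 : 0 ≤ T)
    (ua4 : T ≤ 570 / 10000) (ua5 : 1000 / 10000 ≤ p) (ua6 : p ≤ 4000 / 10000)
    (ua7 : -920 / 10000 ≤ t) (ua8 : t ≤ 0 / 10000) (ua9 : T - t ≤ 930 / 10000)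
    (ua10 : 40 / 100 ≤ x + p) (ua11 : x + p ≤ 70 / 100) :
    rS (10 / 3) x T p t < 355 / 1000 - 6 / 10 * x ∨
      rF (10 / 3) (x + p + 10 / 100) (570 / 10000) x T p t < 355 / 1000 - 6 / 10 * x := by
  obtain ⟨f, hf, hp⟩ := chkT4 k_faBb (by norm_num) (x := x) (y := T) (z := p) (w := t)
    (by norm_num; linarith only [ua1]) (by norm_num; linarith only [ua2]) (by norm_num; linarith only [ua3])
    (by norm_num; linarith only [ua4]) (by norm_num; linarith only [ua5]) (by norm_num; linarith only [ua6])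
    (by norm_num; linarith only [ua7]) (by norm_num; linarith only [ua8])
  by_contra hc
  push Not at hc
  obtain ⟨hc0, hc1⟩ := hc
  simp only [List.mem_cons, List.not_mem_nil, or_false] at hf
  rcases hf with rfl | rfl | rfl | rfl | rfl <;>
  · simp only [S0R.EE.S_val, S0R.EE.F_val, S0R.EE.N_val, S0R.EE.ui_val, S0R.EE.kT, S0R.EE.nyy,
      S0R.EE.x, S0R.EE.T, S0R.EE.p, S0R.EE.t, S0R.EE.nt, S0R.EE.v, E.val, NumI.lkR,
      eB1_val] at hp
    push_cast at hp
    linarith only [hc0, hp, hc1, ua9, ua1, ua5, ua11]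

private theorem r_faBc {x T p t : ℝ} (ua1 : 3000 / 10000 ≤ x) (ua2 : x ≤ 3400 / 10000) (ua3 : 0 ≤ T)
    (ua4 : T ≤ 570 / 10000) (ua5 : 3600 / 10000 ≤ p) (ua6 : p ≤ 4500 / 10000)
    (ua7 : -920 / 10000 ≤ t) (ua8 : t ≤ 0 / 10000) (ua9 : T - t ≤ 930 / 10000)
    (ua10 : 70 / 100 ≤ x + p) (ua11 : x + p ≤ 75 / 100) :
    rS (10 / 3) x T p t < 355 / 1000 - 6 / 10 * x ∨
      rF (10 / 3) (80 / 100) (570 / 10000) x T p t < 355 / 1000 - 6 / 10 * x := by
  obtain ⟨f, hf, hp⟩ := chkT4 k_faBc (by norm_num) (x := x) (y := T) (z := p) (w := t)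
    (by norm_num; linarith only [ua1]) (by norm_num; linarith only [ua2]) (by norm_num; linarith only [ua3])
    (by norm_num; linarith only [ua4]) (by norm_num; linarith only [ua5]) (by norm_num; linarith only [ua6])
    (by norm_num; linarith only [ua7]) (by norm_num; linarith only [ua8])
  by_contra hc
  push Not at hc
  obtain ⟨hc0, hc1⟩ := hc
  simp only [List.mem_cons, List.not_mem_nil, or_false] at hf
  rcases hf with rfl | rfl | rfl | rfl | rfl <;>
  · simp only [S0R.EE.S_val, S0R.EE.F_val, S0R.EE.N_val, S0R.EE.ui_val, S0R.EE.kT, S0R.EE.nyy,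
      S0R.EE.x, S0R.EE.T, S0R.EE.p, S0R.EE.t, S0R.EE.nt, S0R.EE.v, E.val, NumI.lkR,
      eB1_val] at hp
    push_cast at hp
    linarith only [hc0, hp, hc1, ua9, ua10, ua11]

private theorem r_fb1b {x T p t : ℝ} (ua1 : 5000 / 10000 ≤ x) (ua2 : x ≤ 6000 / 10000) (ua3 : 0 ≤ T)
    (ua4 : T ≤ 570 / 10000) (ua5 : 1000 / 10000 ≤ p) (ua6 : p ≤ 2300 / 10000)
    (ua7 : -1050 / 10000 ≤ t) (ua8 : t ≤ -150 / 10000) (ua9 : T - t ≤ 1050 / 10000)
    (ua10 : x + p ≤ 73 / 100) :
    rS (10 / 3) x T p t < 0 ∨
      rF (10 / 3) (x + p + 7 / 100) (-98 / 10000) x T p t < 0 := by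
  obtain ⟨f, hf, hp⟩ := chkT4 k_fb1b (by norm_num) (x := x) (y := T) (z := p) (w := t)
    (by norm_num; linarith only [ua1]) (by norm_num; linarith only [ua2]) (by norm_num; linarith only [ua3])
    (by norm_num; linarith only [ua4]) (by norm_num; linarith only [ua5]) (by norm_num; linarith only [ua6])
    (by norm_num; linarith only [ua7]) (by norm_num; linarith only [ua8])
  by_contra hc
  push Not at hc
  obtain ⟨hc0, hc1⟩ := hc
  simp only [List.mem_cons, List.not_mem_nil, or_false] at hf
  rcases hf with rfl | rfl | rfl | rfl <;>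
  · simp only [S0R.EE.S_val, S0R.EE.F_val, S0R.EE.N_val, S0R.EE.ui_val, S0R.EE.kT, S0R.EE.nyy,
      S0R.EE.x, S0R.EE.T, S0R.EE.p, S0R.EE.t, S0R.EE.nt, S0R.EE.v, E.val, NumI.lkR,
      eB1_val] at hp
    push_cast at hp
    linarith only [hc0, hp, hc1, ua9, ua10]

private theorem r_fb1c {x T p t : ℝ} (ua1 : 5000 / 10000 ≤ x) (ua2 : x ≤ 6000 / 10000) (ua3 : 0 ≤ T)
    (ua4 : T ≤ 570 / 10000) (ua5 : 1300 / 10000 ≤ p) (ua6 : p ≤ 2500 / 10000)
    (ua7 : -1050 / 10000 ≤ t) (ua8 : t ≤ -150 / 10000) (ua9 : T - t ≤ 1050 / 10000)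
    (ua10 : 73 / 100 ≤ x + p) (ua11 : x + p ≤ 75 / 100) :
    rS (10 / 3) x T p t < 0 ∨
      rF (10 / 3) (80 / 100) (-98 / 10000) x T p t < 0 := by
  obtain ⟨f, hf, hp⟩ := chkT4 k_fb1c (by norm_num) (x := x) (y := T) (z := p) (w := t)
    (by norm_num; linarith only [ua1]) (by norm_num; linarith only [ua2]) (by norm_num; linarith only [ua3])
    (by norm_num; linarith only [ua4]) (by norm_num; linarith only [ua5]) (by norm_num; linarith only [ua6])
    (by norm_num; linarith only [ua7]) (by norm_num; linarith only [ua8])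
  by_contra hc
  push Not at hc
  obtain ⟨hc0, hc1⟩ := hc
  simp only [List.mem_cons, List.not_mem_nil, or_false] at hf
  rcases hf with rfl | rfl | rfl | rfl | rfl <;>
  · simp only [S0R.EE.S_val, S0R.EE.F_val, S0R.EE.N_val, S0R.EE.ui_val, S0R.EE.kT, S0R.EE.nyy,
      S0R.EE.x, S0R.EE.T, S0R.EE.p, S0R.EE.t, S0R.EE.nt, S0R.EE.v, E.val, NumI.lkR,
      eB1_val] at hp
    push_cast at hp
    linarith only [hc0, hp, hc1, ua9, ua10, ua11]

private theorem r_fbob {x T p t : ℝ} (ua1 : 5000 / 10000 ≤ x) (ua2 : x ≤ 6000 / 10000) (ua3 : 0 ≤ T)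
    (ua4 : T ≤ 570 / 10000) (ua5 : 1000 / 10000 ≤ p) (ua6 : p ≤ 2300 / 10000)
    (ua7 : -1000 / 10000 ≤ t) (ua8 : t ≤ 50 / 10000) (ua9 : T - t ≤ 1000 / 10000)
    (ua10 : x + p ≤ 73 / 100) :
    rS (10 / 3) x T p t < 0 ∨
      rF (10 / 3) (x + p + 7 / 100) (220 / 10000) x T p t < 0 := by
  obtain ⟨f, hf, hp⟩ := chkT4 k_fbob (by norm_num) (x := x) (y := T) (z := p) (w := t)
    (by norm_num; linarith only [ua1]) (by norm_num; linarith only [ua2]) (by norm_num; linarith only [ua3])
    (by norm_num; linarith only [ua4]) (by norm_num; linarith only [ua5]) (by norm_num; linarith only [ua6])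
    (by norm_num; linarith only [ua7]) (by norm_num; linarith only [ua8])
  by_contra hc
  push Not at hc
  obtain ⟨hc0, hc1⟩ := hc
  simp only [List.mem_cons, List.not_mem_nil, or_false] at hf
  rcases hf with rfl | rfl | rfl | rfl <;>
  · simp only [S0R.EE.S_val, S0R.EE.F_val, S0R.EE.N_val, S0R.EE.ui_val, S0R.EE.kT, S0R.EE.nyy,
      S0R.EE.x, S0R.EE.T, S0R.EE.p, S0R.EE.t, S0R.EE.nt, S0R.EE.v, E.val, NumI.lkR,
      eB1_val] at hp
    push_cast at hp
    linarith only [hc0, hp, hc1, ua9, ua10]

private theorem r_fboc {x T p t : ℝ} (ua1 : 5000 / 10000 ≤ x) (ua2 : x ≤ 6000 / 10000) (ua3 : 0 ≤ T)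
    (ua4 : T ≤ 570 / 10000) (ua5 : 1300 / 10000 ≤ p) (ua6 : p ≤ 2500 / 10000)
    (ua7 : -1000 / 10000 ≤ t) (ua8 : t ≤ 50 / 10000) (ua9 : T - t ≤ 1000 / 10000)
    (ua10 : 73 / 100 ≤ x + p) (ua11 : x + p ≤ 75 / 100) :
    rS (10 / 3) x T p t < 0 ∨
      rF (10 / 3) (80 / 100) (220 / 10000) x T p t < 0 := by
  obtain ⟨f, hf, hp⟩ := chkT4 k_fboc (by norm_num) (x := x) (y := T) (z := p) (w := t)
    (by norm_num; linarith only [ua1]) (by norm_num; linarith only [ua2]) (by norm_num; linarith only [ua3])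
    (by norm_num; linarith only [ua4]) (by norm_num; linarith only [ua5]) (by norm_num; linarith only [ua6])
    (by norm_num; linarith only [ua7]) (by norm_num; linarith only [ua8])
  by_contra hc
  push Not at hc
  obtain ⟨hc0, hc1⟩ := hc
  simp only [List.mem_cons, List.not_mem_nil, or_false] at hf
  rcases hf with rfl | rfl | rfl | rfl | rfl <;>
  · simp only [S0R.EE.S_val, S0R.EE.F_val, S0R.EE.N_val, S0R.EE.ui_val, S0R.EE.kT, S0R.EE.nyy,
      S0R.EE.x, S0R.EE.T, S0R.EE.p, S0R.EE.t, S0R.EE.nt, S0R.EE.v, E.val, NumI.lkR,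
      eB1_val] at hp
    push_cast at hp
    linarith only [hc0, hp, hc1, ua9, ua10, ua11]

private theorem r_fbZb {x T p t : ℝ} (ua1 : 5000 / 10000 ≤ x) (ua2 : x ≤ 6000 / 10000) (ua3 : 0 ≤ T)
    (ua4 : T ≤ 570 / 10000) (ua5 : 1000 / 10000 ≤ p) (ua6 : p ≤ 2300 / 10000)
    (ua7 : -920 / 10000 ≤ t) (ua8 : t ≤ 0 / 10000) (ua9 : T - t ≤ 930 / 10000)
    (ua10 : x + p ≤ 73 / 100) :
    rS (10 / 3) x T p t < 0 ∨
      rF (10 / 3) (x + p + 7 / 100) (570 / 10000) x T p t < 0 := by
  obtain ⟨f, hf, hp⟩ := chkT4 k_fbZb (by norm_num) (x := x) (y := T) (z := p) (w := t)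
    (by norm_num; linarith only [ua1]) (by norm_num; linarith only [ua2]) (by norm_num; linarith only [ua3])
    (by norm_num; linarith only [ua4]) (by norm_num; linarith only [ua5]) (by norm_num; linarith only [ua6])
    (by norm_num; linarith only [ua7]) (by norm_num; linarith only [ua8])
  by_contra hc
  push Not at hc
  obtain ⟨hc0, hc1⟩ := hc
  simp only [List.mem_cons, List.not_mem_nil, or_false] at hf
  rcases hf with rfl | rfl | rfl | rfl <;>
  · simp only [S0R.EE.S_val, S0R.EE.F_val, S0R.EE.N_val, S0R.EE.ui_val, S0R.EE.kT, S0R.EE.nyy,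
      S0R.EE.x, S0R.EE.T, S0R.EE.p, S0R.EE.t, S0R.EE.nt, S0R.EE.v, E.val, NumI.lkR,
      eB1_val] at hp
    push_cast at hp
    linarith only [hc0, hp, hc1, ua9, ua10]

private theorem r_fbZc {x T p t : ℝ} (ua1 : 5000 / 10000 ≤ x) (ua2 : x ≤ 6000 / 10000) (ua3 : 0 ≤ T)
    (ua4 : T ≤ 570 / 10000) (ua5 : 1300 / 10000 ≤ p) (ua6 : p ≤ 2500 / 10000)
    (ua7 : -920 / 10000 ≤ t) (ua8 : t ≤ 0 / 10000) (ua9 : T - t ≤ 930 / 10000)
    (ua10 : 73 / 100 ≤ x + p) (ua11 : x + p ≤ 75 / 100) :
    rS (10 / 3) x T p t < 0 ∨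
      rF (10 / 3) (80 / 100) (570 / 10000) x T p t < 0 := by
  obtain ⟨f, hf, hp⟩ := chkT4 k_fbZc (by norm_num) (x := x) (y := T) (z := p) (w := t)
    (by norm_num; linarith only [ua1]) (by norm_num; linarith only [ua2]) (by norm_num; linarith only [ua3])
    (by norm_num; linarith only [ua4]) (by norm_num; linarith only [ua5]) (by norm_num; linarith only [ua6])
    (by norm_num; linarith only [ua7]) (by norm_num; linarith only [ua8])
  by_contra hc
  push Not at hc
  obtain ⟨hc0, hc1⟩ := hc
  simp only [List.mem_cons, List.not_mem_nil, or_false] at hf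
  rcases hf with rfl | rfl | rfl | rfl | rfl <;>
  · simp only [S0R.EE.S_val, S0R.EE.F_val, S0R.EE.N_val, S0R.EE.ui_val, S0R.EE.kT, S0R.EE.nyy,
      S0R.EE.x, S0R.EE.T, S0R.EE.p, S0R.EE.t, S0R.EE.nt, S0R.EE.v, E.val, NumI.lkR,
      eB1_val] at hp
    push_cast at hp
    linarith only [hc0, hp, hc1, ua9, ua10, ua11]


/-- the side of the digit: bound near the left end of the ramp -/
noncomputable def B1 (x : ℝ) : ℝ := 355 / 1000 - 6 / 10 * x

theorem near_a {T t : ℝ} {u v : ℂ} (hx : 30 / 100 ≤ u.re) (hx' : u.re ≤ 34 / 100)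
    (hu : u.im = 10 / 3 * T * (6 / 10 - u.re)) (hT : 0 ≤ T) (hT' : T ≤ 57 / 1000)
    (ht' : t ≤ 5 / 1000) (hs : T - t ≤ 105 / 1000) (hv : v.im = t)
    (hp : -(13 / 100) ≤ v.re - u.re) (hp' : v.re - u.re ≤ 13 / 100) (hr : SinNe (v - u)) :
    S3 1 (-(10 / 3 * T)) u v < B1 u.re := by
  have e : t - rui (10 / 3) u.re T = (v - u).im := by
    rw [Complex.sub_im, hv, hu]
    rfl
  unfold B1
  rcases le_total (t - rui (10 / 3) u.re T) 0 with hy | hy
  · exact near_ge (by norm_num) hT hu (abs_le.2 ⟨by linarith only [hp], by linarith only [hp']⟩) (by norm_num)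
      (by linarith only [hx]) (by linarith only [hx']) hv hr (YY_nn (by rw [← e]; exact hy)
        (by rw [Complex.sub_re]; linarith only [hp'])) (by linarith only [hp'])
      (r_Na0 (by linarith only [hx]) (by linarith only [hx']) hT (by linarith only [hT']) (by linarith only [hT, hs]) (by linarith only [ht']) hy hs)
  · have h0 : 0 ≤ t := by
      have : 0 ≤ rui (10 / 3) u.re T := mul_nonneg (mul_nonneg (by norm_num) hT) (by linarith only [hx'])
      linarith only [hy, this]
    exact near_ge (by norm_num) hT hu (abs_le.2 ⟨by linarith only [hp], by linarith only [hp']⟩) (by norm_num)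
      (by linarith only [hx]) (by linarith only [hx']) hv hr (YY_ge_neg (by rw [Complex.sub_re]; linarith only [hp])
        (by rw [Complex.sub_re]; linarith only [hp'])) (by linarith only [hp'])
      (r_Na1 (by linarith only [hx]) (by linarith only [hx']) hT (by linarith only [hT']) (by linarith only [h0]) (by linarith only [ht']) hy)

theorem near_b {T t : ℝ} {u v : ℂ} (hx : 50 / 100 ≤ u.re) (hx' : u.re ≤ 60 / 100)
    (hu : u.im = 10 / 3 * T * (6 / 10 - u.re)) (hT : 0 ≤ T) (hT' : T ≤ 57 / 1000)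
    (ht' : t ≤ 5 / 1000) (hs : T - t ≤ 105 / 1000) (hv : v.im = t)
    (hp : -(13 / 100) ≤ v.re - u.re) (hp' : v.re - u.re ≤ 13 / 100) (hr : SinNe (v - u))
    (hc : t ≤ u.im ∨ T ≤ 35 / 1000) :
    S3 1 (-(10 / 3 * T)) u v < 0 := by
  have e : t - rui (10 / 3) u.re T = (v - u).im := by
    rw [Complex.sub_im, hv, hu]
    rfl
  rcases le_total (t - rui (10 / 3) u.re T) 0 with hy | hy
  · exact near_ge (by norm_num) hT hu (abs_le.2 ⟨by linarith only [hp], by linarith only [hp']⟩) (by norm_num)
      (by linarith only [hx]) (by linarith only [hx']) hv hr (YY_nn (by rw [← e]; exact hy)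
        (by rw [Complex.sub_re]; linarith only [hp'])) (by linarith only [hp'])
      (r_Nb0 (by linarith only [hx]) (by linarith only [hx']) hT (by linarith only [hT']) (by linarith only [hT, hs]) (by linarith only [ht']) hy hs)
  · have h0 : 0 ≤ t := by
      have : 0 ≤ rui (10 / 3) u.re T := mul_nonneg (mul_nonneg (by norm_num) hT) (by linarith only [hx'])
      linarith only [hy, this]
    rcases hc with hc | hc
    · have e0 : t - rui (10 / 3) u.re T = 0 := le_antisymm (by
        rw [e, Complex.sub_im, hv]; linarith only [hc]) hy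
      exact near_ge (by norm_num) hT hu (abs_le.2 ⟨by linarith only [hp], by linarith only [hp']⟩) (by norm_num)
        (by linarith only [hx]) (by linarith only [hx']) hv hr (YY_nn (by rw [← e, e0])
          (by rw [Complex.sub_re]; linarith only [hp'])) (by linarith only [hp'])
        (r_Nb0 (by linarith only [hx]) (by linarith only [hx']) hT (by linarith only [hT']) (by linarith only [hT, hs]) (by linarith only [ht']) e0.le hs)
    exact near_ge (by norm_num) hT hu (abs_le.2 ⟨by linarith only [hp], by linarith only [hp']⟩) (by norm_num)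
      (by linarith only [hx]) (by linarith only [hx']) hv hr (YY_ge_neg (by rw [Complex.sub_re]; linarith only [hp])
        (by rw [Complex.sub_re]; linarith only [hp'])) (by linarith only [hp'])
      (r_Nb1 (by linarith only [hx]) (by linarith only [hx']) hT (by linarith only [hc]) (by linarith only [h0]) (by linarith only [ht']) hy)

theorem far_a {T t : ℝ} {u v w : ℂ} (hx : 30 / 100 ≤ u.re) (hx' : u.re ≤ 34 / 100)
    (hu : u.im = 10 / 3 * T * (6 / 10 - u.re)) (hT : 0 ≤ T) (hT' : T ≤ 57 / 1000)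
    (hK : S0R.K1 T t w ∨ S0R.Ko T t w ∨ S0R.KZ T t w) (hv : v.im = t) (hp : 1 / 10 ≤ v.re - u.re)
    (hv' : v.re ≤ 75 / 100) (hS : 0 ≤ SM 0 u v w) (hr : SinNe (v + w))
    (hw : w.re ≤ 10 / 100 → w.im ≤ 4385 / 100000) :
    S3 1 (-(10 / 3 * T)) u v < B1 u.re := by
  have e : u.re + (v.re - u.re) = v.re := by ring
  unfold B1
  rcases hK with hK | hK | hK
  · obtain ⟨g1, g2, g3⟩ := H_all (τ := -98 / 10000) hK hv hv' hr (by norm_num) (by norm_num)
      (by norm_num)
    obtain ⟨a1, a2, a3, -, -, -, -, -⟩ := hK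
    rcases le_total v.re (43 / 100) with h | h
    · exact far_core hu (by linarith only [hp]) (by linarith only [hx, hv']) (by linarith only [hx]) (by linarith only [hx']) hv hS g1
        (r_fa1a (by linarith only [hx]) (by linarith only [hx']) hT (by linarith only [hT']) (by linarith only [hp]) (by linarith only [hx, h])
          (by linarith only [hT, a3]) (by linarith only [a2]) (by linarith only [a3]) (by linarith only [h]))
    rcases le_total v.re (73 / 100) with h' | h'
    · have g := g2 h h'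
      rw [← e] at g
      exact far_core hu (by linarith only [hp]) (by linarith only [hx, hv']) (by linarith only [hx]) (by linarith only [hx']) hv hS g
        (r_fa1b (by linarith only [hx]) (by linarith only [hx']) hT (by linarith only [hT']) (by linarith only [hp]) (by linarith only [hx, h'])
          (by linarith only [hT, a3]) (by linarith only [a2]) (by linarith only [a3]) (by linarith only [h]) (by linarith only [h']))
    · exact far_core hu (by linarith only [hx', h']) (by linarith only [hx, hv']) (by linarith only [hx]) (by linarith only [hx']) hv hS (g3 h')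
        (r_fa1c (by linarith only [hx]) (by linarith only [hx']) hT (by linarith only [hT']) (by linarith only [hx', h']) (by linarith only [hx, hv'])
          (by linarith only [hT, a3]) (by linarith only [a2]) (by linarith only [a3]) (by linarith only [h']) (by linarith only [hv']))
  · obtain ⟨g1, g2, g3⟩ := H_all (τ := 220 / 10000) hK hv hv' hr (by norm_num) (by norm_num)
      (by norm_num)
    obtain ⟨a1, a2, a3, -, -, -, -, -⟩ := hK
    rcases le_total v.re (43 / 100) with h | h
    · exact far_core hu (by linarith only [hp]) (by linarith only [hx, hv']) (by linarith only [hx]) (by linarith only [hx']) hv hS g1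
        (r_faoa (by linarith only [hx]) (by linarith only [hx']) hT (by linarith only [hT']) (by linarith only [hp]) (by linarith only [hx, h])
          (by linarith only [hT, a3]) (by linarith only [a2]) (by linarith only [a3]) (by linarith only [h]))
    rcases le_total v.re (73 / 100) with h' | h'
    · have g := g2 h h'
      rw [← e] at g
      exact far_core hu (by linarith only [hp]) (by linarith only [hx, hv']) (by linarith only [hx]) (by linarith only [hx']) hv hS g
        (r_faob (by linarith only [hx]) (by linarith only [hx']) hT (by linarith only [hT']) (by linarith only [hp]) (by linarith only [hx, h'])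
          (by linarith only [hT, a3]) (by linarith only [a2]) (by linarith only [a3]) (by linarith only [h]) (by linarith only [h']))
    · exact far_core hu (by linarith only [hx', h']) (by linarith only [hx, hv']) (by linarith only [hx]) (by linarith only [hx']) hv hS (g3 h')
        (r_faoc (by linarith only [hx]) (by linarith only [hx']) hT (by linarith only [hT']) (by linarith only [hx', h']) (by linarith only [hx, hv'])
          (by linarith only [hT, a3]) (by linarith only [a2]) (by linarith only [a3]) (by linarith only [h']) (by linarith only [hv']))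
  · obtain ⟨a1, a2, a3, a4, a5, a6, a7, a8⟩ := hK
    rcases le_total w.re (10 / 100) with hw0 | hw0
    · have hw1 := hw hw0
      have hc' : -(3704 / 10000) ≤ 2 * v.im + w.im + 4385 / 100000 := by rw [hv]; linarith only [a1, a8, hw0]
      rcases le_total v.re (43 / 100) with h | h
      · exact far_core hu (by linarith only [hp]) (by linarith only [hx, hv']) (by linarith only [hx]) (by linarith only [hx']) hv hS
          (H_half (by linarith only [hw1]) hc' hr)
          (r_faAa (by linarith only [hx]) (by linarith only [hx']) hT (by linarith only [hT']) (by linarith only [hp]) (by linarith only [hx, h])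
            (by linarith only [a1]) (by linarith only [a2]) (by linarith only [a3]) (by linarith only [h]))
      rcases le_total v.re (73 / 100) with h' | h'
      · have g := H_le (p := v.re + 7 / 100) (τ := 4385 / 100000) (v := v) (w := w) (by linarith only [h])
          (by linarith only [h']) (by linarith only [a4]) (by linarith only [hv', hw0]) (by linarith only [hw1]) hc' hr
        rw [← e] at g
        exact far_core hu (by linarith only [hp]) (by linarith only [hx, hv']) (by linarith only [hx]) (by linarith only [hx']) hv hS g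
          (r_faAb (by linarith only [hx]) (by linarith only [hx']) hT (by linarith only [hT']) (by linarith only [hp]) (by linarith only [hx, h'])
            (by linarith only [a1]) (by linarith only [a2]) (by linarith only [a3]) (by linarith only [h]) (by linarith only [h']))
      · exact far_core hu (by linarith only [hx', h']) (by linarith only [hx, hv']) (by linarith only [hx]) (by linarith only [hx']) hv hS
          (H_le (by norm_num) (by norm_num) (by linarith only [a4, h']) (by linarith only [hv', hw0]) (by linarith only [hw1]) hc' hr)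
          (r_faAc (by linarith only [hx]) (by linarith only [hx']) hT (by linarith only [hT']) (by linarith only [hx', h']) (by linarith only [hx, hv'])
            (by linarith only [a1]) (by linarith only [a2]) (by linarith only [a3]) (by linarith only [h']) (by linarith only [hv']))
    · have hc' : -(3704 / 10000) ≤ 2 * v.im + w.im + 570 / 10000 := by rw [hv]; linarith only [a1, a6]
      rcases le_total v.re (40 / 100) with h | h
      · exact far_core hu (by linarith only [hp]) (by linarith only [hx, hv']) (by linarith only [hx]) (by linarith only [hx']) hv hS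
          (H_half (by linarith only [a7]) hc' hr)
          (r_faBa (by linarith only [hx]) (by linarith only [hx']) hT (by linarith only [hT']) (by linarith only [hp]) (by linarith only [hx, h])
            (by linarith only [a1]) (by linarith only [a2]) (by linarith only [a3]) (by linarith only [h]))
      rcases le_total v.re (70 / 100) with h' | h'
      · have g := H_le (p := v.re + 10 / 100) (τ := 570 / 10000) (v := v) (w := w) (by linarith only [hx, hp])
          (by linarith only [h']) (by linarith only [hw0]) (by linarith only [hv', a5]) (by linarith only [a7]) hc' hr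
        rw [← e] at g
        exact far_core hu (by linarith only [hp]) (by linarith only [hx, hv']) (by linarith only [hx]) (by linarith only [hx']) hv hS g
          (r_faBb (by linarith only [hx]) (by linarith only [hx']) hT (by linarith only [hT']) (by linarith only [hp]) (by linarith only [hx, h'])
            (by linarith only [a1]) (by linarith only [a2]) (by linarith only [a3]) (by linarith only [hx, hp]) (by linarith only [h']))
      · exact far_core hu (by linarith only [hx', h']) (by linarith only [hx, hv']) (by linarith only [hx]) (by linarith only [hx']) hv hS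
          (H_le (by norm_num) (by norm_num) (by linarith only [hw0, h']) (by linarith only [hv', a5]) (by linarith only [a7]) hc' hr)
          (r_faBc (by linarith only [hx]) (by linarith only [hx']) hT (by linarith only [hT']) (by linarith only [hx', h']) (by linarith only [hx, hv'])
            (by linarith only [a1]) (by linarith only [a2]) (by linarith only [a3]) (by linarith only [h']) (by linarith only [hv']))

theorem far_b {T t : ℝ} {u v w : ℂ} (hx : 50 / 100 ≤ u.re) (hx' : u.re ≤ 60 / 100)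
    (hu : u.im = 10 / 3 * T * (6 / 10 - u.re)) (hT : 0 ≤ T) (hT' : T ≤ 57 / 1000)
    (hK : S0R.K1 T t w ∨ S0R.Ko T t w ∨ S0R.KZ T t w) (hv : v.im = t) (hp : 1 / 10 ≤ v.re - u.re)
    (hv' : v.re ≤ 75 / 100) (hS : 0 ≤ SM 0 u v w) (hr : SinNe (v + w)) :
    S3 1 (-(10 / 3 * T)) u v < 0 := by
  have e : u.re + (v.re - u.re) = v.re := by ring
  rcases hK with hK | hK | hK
  · obtain ⟨g1, g2, g3⟩ := H_all (τ := -98 / 10000) hK hv hv' hr (by norm_num) (by norm_num)
      (by norm_num)
    obtain ⟨a1, a2, a3, -, -, -, -, -⟩ := hK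
    rcases le_total v.re (73 / 100) with h' | h'
    · have g := g2 (by linarith only [hx, hp]) h'
      rw [← e] at g
      exact far_core hu (by linarith only [hp]) (by linarith only [hx, hv']) (by linarith only [hx]) (by linarith only [hx']) hv hS g
        (r_fb1b (by linarith only [hx]) (by linarith only [hx']) hT (by linarith only [hT']) (by linarith only [hp]) (by linarith only [hx, h'])
          (by linarith only [hT, a3]) (by linarith only [a2]) (by linarith only [a3]) (by linarith only [h']))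
    · exact far_core hu (by linarith only [hx', h']) (by linarith only [hx, hv']) (by linarith only [hx]) (by linarith only [hx']) hv hS (g3 h')
        (r_fb1c (by linarith only [hx]) (by linarith only [hx']) hT (by linarith only [hT']) (by linarith only [hx', h']) (by linarith only [hx, hv'])
          (by linarith only [hT, a3]) (by linarith only [a2]) (by linarith only [a3]) (by linarith only [h']) (by linarith only [hv']))
  · obtain ⟨g1, g2, g3⟩ := H_all (τ := 220 / 10000) hK hv hv' hr (by norm_num) (by norm_num)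
      (by norm_num)
    obtain ⟨a1, a2, a3, -, -, -, -, -⟩ := hK
    rcases le_total v.re (73 / 100) with h' | h'
    · have g := g2 (by linarith only [hx, hp]) h'
      rw [← e] at g
      exact far_core hu (by linarith only [hp]) (by linarith only [hx, hv']) (by linarith only [hx]) (by linarith only [hx']) hv hS g
        (r_fbob (by linarith only [hx]) (by linarith only [hx']) hT (by linarith only [hT']) (by linarith only [hp]) (by linarith only [hx, h'])
          (by linarith only [hT, a3]) (by linarith only [a2]) (by linarith only [a3]) (by linarith only [h']))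
    · exact far_core hu (by linarith only [hx', h']) (by linarith only [hx, hv']) (by linarith only [hx]) (by linarith only [hx']) hv hS (g3 h')
        (r_fboc (by linarith only [hx]) (by linarith only [hx']) hT (by linarith only [hT']) (by linarith only [hx', h']) (by linarith only [hx, hv'])
          (by linarith only [hT, a3]) (by linarith only [a2]) (by linarith only [a3]) (by linarith only [h']) (by linarith only [hv']))
  · obtain ⟨g1, g2, g3⟩ := H_all (τ := 570 / 10000) hK hv hv' hr (by norm_num) (by norm_num)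
      (by norm_num)
    obtain ⟨a1, a2, a3, -, -, -, -, -⟩ := hK
    rcases le_total v.re (73 / 100) with h' | h'
    · have g := g2 (by linarith only [hx, hp]) h'
      rw [← e] at g
      exact far_core hu (by linarith only [hp]) (by linarith only [hx, hv']) (by linarith only [hx]) (by linarith only [hx']) hv hS g
        (r_fbZb (by linarith only [hx]) (by linarith only [hx']) hT (by linarith only [hT']) (by linarith only [hp]) (by linarith only [hx, h'])
          (by linarith only [a1]) (by linarith only [a2]) (by linarith only [a3]) (by linarith only [h']))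
    · exact far_core hu (by linarith only [hx', h']) (by linarith only [hx, hv']) (by linarith only [hx]) (by linarith only [hx']) hv hS (g3 h')
        (r_fbZc (by linarith only [hx]) (by linarith only [hx']) hT (by linarith only [hT']) (by linarith only [hx', h']) (by linarith only [hx, hv'])
          (by linarith only [a1]) (by linarith only [a2]) (by linarith only [a3]) (by linarith only [h']) (by linarith only [hv']))

end SZ3

end VL

end Pool.Agent.Work.MP_b30479_gt.G2
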