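import Pool.Agent.Work.MP_b30479_gt.G2.VZ3C
import Pool.Agent.Work.MP_b30479_gt.G2.VZ3D
import Pool.Agent.Work.MP_b30479_gt.G2.R32U
import Pool.Agent.Work.MP_b30479_gt.G2.MLev
import Pool.Agent.Work.MP_b30479_gt.G2.S0RC
import Pool.Agent.Work.MP_b30479_gt.G2.V30E
import Pool.Agent.Work.MP_b30479_gt.G2.V33C

/-!
# The slot 0 of an inner digit `3` next to a ring, right ramp: joint moves

The hinge moves to `X`, the inner variable to `c`; the values of the digit.
-/

namespace Pool.Agent.Work.MP_b30479_gt.G2

open VOL NumU

namespace VL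

namespace SZ3

open S33 (yl yr)

/-- the value after a move of the hinge and of the inner variable -/
theorem V3_joint {u v u' v' w : ℂ} : V3 u' v' w - V3 u v w =
    (Real.pi * ((1 / 2 - u'.re) * v'.im - u'.im * v'.re - v'.re * v'.im) -
      uu (v'.re - u'.re) (v'.im - u'.im) - uu u'.re u'.im) -
    (Real.pi * ((1 / 2 - u.re) * v.im - u.im * v.re - v.re * v.im) - uu u.re u.im) +
      UU (v - u) + S33.g0 v'.re v.re v.im v'.im w.re w.im := by
  have e1 : ∀ u v : ℂ, (2 * u * v + (v - w) ^ 2 - v + w).im =
      2 * (u.re * v.im + u.im * v.re) + 2 * (v.re - w.re) * (v.im - w.im) - v.im + w.im := by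
    intro u v
    simp only [pow_two, Complex.add_im, Complex.sub_im, Complex.sub_re, Complex.mul_im,
      Complex.mul_re, Complex.re_ofNat, Complex.im_ofNat]
    ring
  unfold V3 S33.g0
  rw [e1, e1, UU_uu (v' + w), UU_uu (v' - u'), UU_uu v', UU_uu (v + w), UU_uu v, UU_uu u',
    UU_uu u]
  simp only [Complex.add_re, Complex.add_im, Complex.sub_re, Complex.sub_im]
  ring

theorem V3_joint' {X c T t : ℝ} {u v w : ℂ} (hu : u.im = S33.hR u.re T) :
    V3 ⟨X, S33.hR X T⟩ (lv c t) w - V3 u v w =
      jn X c T t - jo u.re T v.re v.im + UU (v - u) +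
        S33.g0 c v.re v.im t w.re w.im := by
  rw [V3_joint, lv_re, lv_im, hu]
  rfl

/-! ### the value of the difference -/

theorem z0_le {T : ℝ} {u v : ℂ} (hu : u.im = S33.hR u.re T) (h : v.im ≤ S33.hR u.re T) :
    z0 u.re T v.re v.im ≤ UU (v - u) := by
  have e := UU_neg (u - v)
  rw [neg_sub, UU_uu (u - v), Complex.sub_re, Complex.sub_im, hu,
    abs_of_nonneg (by linarith only [h])] at e
  rw [e]
  unfold z0
  linarith only []

theorem z1_le {T : ℝ} {u v : ℂ} (hu : u.im = S33.hR u.re T) (h0 : 0 ≤ S33.hR u.re T)
    (h : 0 ≤ v.im) : z1 u.re T v.re v.im ≤ UU (v - u) := by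
  have e := UU_neg (u - v)
  rw [neg_sub, UU_uu (u - v), Complex.sub_re, Complex.sub_im, hu] at e
  have h1 : |S33.hR u.re T - v.im| ≤ S33.hR u.re T + v.im := by
    rw [abs_le]
    constructor <;> linarith only [h0, h]
  have h2 := mul_le_mul_of_nonneg_left h1 Real.pi_pos.le
  rw [e]
  unfold z1
  linarith only [h2]

theorem z3_le {T : ℝ} {u v : ℂ} (hu : u.im = S33.hR u.re T)
    (h : |v.re - u.re| ≤ 1 / 6) : z3 u.re T v.re v.im ≤ UU (v - u) := by
  obtain ⟨h1, h2⟩ := abs_le.1 h
  have e := MR.UU_near (a := v.re - u.re + 1) (b := 1 / 6 + 1) (t := v.im - S33.hR u.re T)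
    (by linarith only [h1]) (by linarith only [h2]) (by linarith only [])
  rw [MR.UU_add_one', MR.UU_add_one', S33.nearL_lnA] at e
  have e1 : UU (v - u) = UU ⟨v.re - u.re, v.im - S33.hR u.re T⟩ := by
    rw [UU_uu, Complex.sub_re, Complex.sub_im, hu]
    rfl
  have e2 : UU ⟨1 / 6, v.im - S33.hR u.re T⟩ = uu (1 / 6) (v.im - S33.hR u.re T) := rfl
  rw [e1]
  unfold z3
  rw [← e2]
  linarith only [e]

/-! ### the part of the hinge -/

/-- windows of the heights -/
structure Wn (T t : ℝ) : Prop where
  T0 : 0 ≤ T
  T1 : T ≤ 57 / 1000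
  t1 : t ≤ 5 / 1000
  d0 : T - t ≤ 105 / 1000
  d1 : t - T ≤ 28 / 1000

variable {x T r t y : ℝ}

theorem d_l (H : Wn T t) (hx : 38 / 100 ≤ x) (hx' : x ≤ 60 / 100) (hr : 0 ≤ r)
    (hr' : r ≤ 5 / 100) (hy : y = 20 * (t * r)) :
    (t ≤ 0 → 0 < jn (30 / 100) (44 / 100) T t - jo x T r y + z0 x T r y) ∧
      (0 ≤ t → 0 < jn (30 / 100) (44 / 100) T t - jo x T r y + z1 x T r y) := by
  obtain ⟨h1, h2, h3, h4, h5⟩ := H
  constructor
  · intro h0
    obtain ⟨f, hf, hq⟩ := chkT4 k_Dlm (by norm_num) (x := x) (y := T) (z := r) (w := t)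
      (by push_cast; linarith only [hx]) (by push_cast; linarith only [hx']) (by push_cast; linarith only [h1])
      (by push_cast; linarith only [h2]) (by push_cast; linarith only [hr]) (by push_cast; linarith only [hr'])
      (by push_cast; linarith only [h1, h4]) (by push_cast; linarith only [h0])
    simp only [List.mem_cons, List.not_mem_nil, or_false] at hf
    rcases hf with rfl | rfl
    · simp only [eD_val, eZ0_val, yl, E.val, NumI.lkR] at hq
      push_cast at hq
      rw [div_one, ← hy] at hq
      exact hq
    · simp only [E.val, NumI.lkR] at hq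
      push_cast at hq
      linarith only [h4, hq]
  · intro h0
    obtain ⟨f, hf, hq⟩ := chkT4 k_Dlp (by norm_num) (x := x) (y := T) (z := r) (w := t)
      (by push_cast; linarith only [hx]) (by push_cast; linarith only [hx']) (by push_cast; linarith only [h1])
      (by push_cast; linarith only [h2]) (by push_cast; linarith only [hr]) (by push_cast; linarith only [hr'])
      (by push_cast; linarith only [h0]) (by push_cast; linarith only [h3])
    simp only [List.mem_cons, List.not_mem_nil, or_false] at hf
    rcases hf with rfl | rfl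
    · simp only [eD_val, eZ1_val, yl, E.val, NumI.lkR] at hq
      push_cast at hq
      rw [div_one, ← hy] at hq
      exact hq
    · simp only [E.val, NumI.lkR] at hq
      push_cast at hq
      linarith only [h1, h3, hq]

theorem d_a (H : Wn T t) (hx : 38 / 100 ≤ x) (hx' : x ≤ 60 / 100) (hr : 5 / 100 ≤ r)
    (hr' : r ≤ 16 / 100) :
    (t ≤ 0 → gB r < jn (30 / 100) (42 / 100) T t - jo x T r t + z0 x T r t) ∧
      (0 ≤ t → gB r < jn (30 / 100) (42 / 100) T t - jo x T r t + z1 x T r t) := by
  obtain ⟨h1, h2, h3, h4, h5⟩ := H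
  constructor
  · intro h0
    obtain ⟨f, hf, hq⟩ := chkT4 k_Dam (by norm_num) (x := x) (y := T) (z := r) (w := t)
      (by push_cast; linarith only [hx]) (by push_cast; linarith only [hx']) (by push_cast; linarith only [h1])
      (by push_cast; linarith only [h2]) (by push_cast; linarith only [hr]) (by push_cast; linarith only [hr'])
      (by push_cast; linarith only [h1, h4]) (by push_cast; linarith only [h0])
    simp only [List.mem_cons, List.not_mem_nil, or_false] at hf
    rcases hf with rfl | rfl
    · simp only [eD_val, eZ0_val, egB_val, E.val, NumI.lkR] at hq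
      push_cast at hq
      linarith only [hq]
    · simp only [E.val, NumI.lkR] at hq
      push_cast at hq
      linarith only [h4, hq]
  · intro h0
    obtain ⟨f, hf, hq⟩ := chkT4 k_Dap (by norm_num) (x := x) (y := T) (z := r) (w := t)
      (by push_cast; linarith only [hx]) (by push_cast; linarith only [hx']) (by push_cast; linarith only [h1])
      (by push_cast; linarith only [h2]) (by push_cast; linarith only [hr]) (by push_cast; linarith only [hr'])
      (by push_cast; linarith only [h0]) (by push_cast; linarith only [h3])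
    simp only [List.mem_cons, List.not_mem_nil, or_false] at hf
    rcases hf with rfl | rfl
    · simp only [eD_val, eZ1_val, egB_val, E.val, NumI.lkR] at hq
      push_cast at hq
      linarith only [hq]
    · simp only [E.val, NumI.lkR] at hq
      push_cast at hq
      linarith only [h1, h3, hq]

theorem d_b (H : Wn T t) (hx : 38 / 100 ≤ x) (hx' : x ≤ 60 / 100) (hr : 16 / 100 ≤ r)
    (hr' : r ≤ x - 13 / 100) :
    (t ≤ 0 → 85 / 1000 < jn (30 / 100) (42 / 100) T t - jo x T r t + z0 x T r t) ∧
      (0 ≤ t → 85 / 1000 < jn (30 / 100) (42 / 100) T t - jo x T r t + z1 x T r t) := by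
  obtain ⟨h1, h2, h3, h4, h5⟩ := H
  constructor
  · intro h0
    obtain ⟨f, hf, hq⟩ := chkT4 k_Dbm (by norm_num) (x := x) (y := T) (z := r) (w := t)
      (by push_cast; linarith only [hx]) (by push_cast; linarith only [hx']) (by push_cast; linarith only [h1])
      (by push_cast; linarith only [h2]) (by push_cast; linarith only [hr]) (by push_cast; linarith only [hx', hr'])
      (by push_cast; linarith only [h1, h4]) (by push_cast; linarith only [h0])
    simp only [List.mem_cons, List.not_mem_nil, or_false] at hf
    rcases hf with rfl | rfl | rfl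
    · simp only [eD_val, eZ0_val, E.val, NumI.lkR] at hq
      push_cast at hq
      linarith only [hq]
    · simp only [E.val, NumI.lkR] at hq
      push_cast at hq
      linarith only [h4, hq]
    · simp only [E.val, NumI.lkR] at hq
      push_cast at hq
      linarith only [hr', hq]
  · intro h0
    obtain ⟨f, hf, hq⟩ := chkT4 k_Dbp (by norm_num) (x := x) (y := T) (z := r) (w := t)
      (by push_cast; linarith only [hx]) (by push_cast; linarith only [hx']) (by push_cast; linarith only [h1])
      (by push_cast; linarith only [h2]) (by push_cast; linarith only [hr]) (by push_cast; linarith only [hx', hr'])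
      (by push_cast; linarith only [h0]) (by push_cast; linarith only [h3])
    simp only [List.mem_cons, List.not_mem_nil, or_false] at hf
    rcases hf with rfl | rfl | rfl
    · simp only [eD_val, eZ1_val, E.val, NumI.lkR] at hq
      push_cast at hq
      linarith only [hq]
    · simp only [E.val, NumI.lkR] at hq
      push_cast at hq
      linarith only [h1, h3, hq]
    · simp only [E.val, NumI.lkR] at hq
      push_cast at hq
      linarith only [hr', hq]

theorem d_n (H : Wn T t) (hx : 50 / 100 ≤ x) (hx' : x ≤ 60 / 100) (hr : x - 13 / 100 ≤ r)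
    (hr' : r ≤ x + 13 / 100) (hT : 35 / 1000 ≤ T) (h0 : 0 ≤ t) (hh : S33.hR x T ≤ t) :
    6 / 100 < jn (30 / 100) (42 / 100) T t - jo x T r t + z3 x T r t := by
  obtain ⟨h1, h2, h3, h4, h5⟩ := H
  obtain ⟨f, hf, hq⟩ := chkT4 k_Dn (by norm_num) (x := x) (y := T) (z := r) (w := t)
    (by push_cast; linarith only [hx]) (by push_cast; linarith only [hx']) (by push_cast; linarith only [hT])
    (by push_cast; linarith only [h2]) (by push_cast; linarith only [hx, hr]) (by push_cast; linarith only [hx', hr'])
    (by push_cast; linarith only [h0]) (by push_cast; linarith only [h3])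
  simp only [List.mem_cons, List.not_mem_nil, or_false] at hf
  rcases hf with rfl | rfl | rfl | rfl
  · simp only [eD_val, eZ3_val, E.val, NumI.lkR] at hq
    push_cast at hq
    linarith only [hq]
  · simp only [S33.eH_val, E.val, NumI.lkR] at hq
    linarith only [hh, hq]
  · simp only [E.val, NumI.lkR] at hq
    push_cast at hq
    linarith only [hr, hq]
  · simp only [E.val, NumI.lkR] at hq
    push_cast at hq
    linarith only [hr', hq]

theorem d_h (H : Wn T t) (hx : 50 / 100 ≤ x) (hx' : x ≤ 60 / 100) (hr : 75 / 100 ≤ r)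
    (hr' : r ≤ 80 / 100) (hy : y = t * (20 * (8 / 10 - r))) :
    gH r t < jn (38 / 100) (58 / 100) T t - jo x T r y + uu (r - x) (y - S33.hR x T) := by
  obtain ⟨h1, h2, h3, h4, h5⟩ := H
  obtain ⟨f, hf, hq⟩ := chkT4 k_Dh (by norm_num) (x := x) (y := T) (z := r) (w := t)
    (by push_cast; linarith only [hx]) (by push_cast; linarith only [hx']) (by push_cast; linarith only [h1])
    (by push_cast; linarith only [h2]) (by push_cast; linarith only [hr]) (by push_cast; linarith only [hr'])
    (by push_cast; linarith only [h1, h4]) (by push_cast; linarith only [h3])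
  simp only [List.mem_cons, List.not_mem_nil, or_false] at hf
  rcases hf with rfl | rfl | rfl
  · simp only [eD_val, eZ2_val, egH_val, yr, E.val, NumI.lkR] at hq
    push_cast at hq
    rw [div_one, ← hy] at hq
    linarith only [hq]
  · simp only [E.val, NumI.lkR] at hq
    push_cast at hq
    linarith only [h4, hq]
  · simp only [E.val, NumI.lkR] at hq
    push_cast at hq
    linarith only [h1, h3, hq]

/-! ### the part of the hinge in slot 2 -/

variable {S : ℝ} {w : ℂ}

theorem G_a (t0 : -(105 / 1000) ≤ t) (t1 : t ≤ 5 / 1000) (hr : 5 / 100 ≤ r)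
    (hr' : r ≤ 16 / 100) (H : HW w S) : 0 < S33.g0 (42 / 100) r t t w.re w.im + gB r := by
  rcases H.cases with ⟨σ, h1, h2, h3, h4, h5, -⟩ | ⟨h1, h2, h3, h4⟩
  · obtain ⟨f, hf, hq⟩ := chkT4 k_Gar (by norm_num) (x := r) (y := t) (z := w.re) (w := σ)
      (by push_cast; linarith only [hr]) (by push_cast; linarith only [hr']) (by push_cast; linarith only [t0])
      (by push_cast; linarith only [t1]) (by push_cast; linarith only [h2]) (by push_cast; linarith only [h3])
      (by push_cast; linarith only [h4]) (by push_cast; linarith only [h5])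
    simp only [List.mem_cons, List.not_mem_nil, or_false] at hf
    subst hf
    simp only [S33.eG_val, egB_val, E.val, NumI.lkR] at hq
    push_cast at hq
    rw [← h1] at hq
    exact hq
  · obtain ⟨f, hf, hq⟩ := chkT4 k_Gaf (by norm_num) (x := r) (y := t) (z := w.re) (w := w.im)
      (by push_cast; linarith only [hr]) (by push_cast; linarith only [hr']) (by push_cast; linarith only [t0])
      (by push_cast; linarith only [t1]) (by push_cast; linarith only [h1]) (by push_cast; linarith only [h2])
      (by push_cast; linarith only [h3]) (by push_cast; linarith only [h4])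
    simp only [List.mem_cons, List.not_mem_nil, or_false] at hf
    subst hf
    simp only [S33.eG_val, egB_val, E.val, NumI.lkR] at hq
    push_cast at hq
    exact hq

theorem G_b (t0 : -(105 / 1000) ≤ t) (t1 : t ≤ 5 / 1000) (hr : 16 / 100 ≤ r)
    (hr' : r ≤ 47 / 100) (H : HW w S) : 0 < S33.g0 (42 / 100) r t t w.re w.im + 85 / 1000 := by
  rcases H.cases with ⟨σ, h1, h2, h3, h4, h5, -⟩ | ⟨h1, h2, h3, h4⟩
  · obtain ⟨f, hf, hq⟩ := chkT4 k_Gbr (by norm_num) (x := r) (y := t) (z := w.re) (w := σ)
      (by push_cast; linarith only [hr]) (by push_cast; linarith only [hr']) (by push_cast; linarith only [t0])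
      (by push_cast; linarith only [t1]) (by push_cast; linarith only [h2]) (by push_cast; linarith only [h3])
      (by push_cast; linarith only [h4]) (by push_cast; linarith only [h5])
    simp only [List.mem_cons, List.not_mem_nil, or_false] at hf
    subst hf
    simp only [S33.eG_val, E.val, NumI.lkR] at hq
    push_cast at hq
    rw [← h1] at hq
    exact hq
  · obtain ⟨f, hf, hq⟩ := chkT4 k_Gbf (by norm_num) (x := r) (y := t) (z := w.re) (w := w.im)
      (by push_cast; linarith only [hr]) (by push_cast; linarith only [hr']) (by push_cast; linarith only [t0])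
      (by push_cast; linarith only [t1]) (by push_cast; linarith only [h1]) (by push_cast; linarith only [h2])
      (by push_cast; linarith only [h3]) (by push_cast; linarith only [h4])
    simp only [List.mem_cons, List.not_mem_nil, or_false] at hf
    subst hf
    simp only [S33.eG_val, E.val, NumI.lkR] at hq
    push_cast at hq
    exact hq

/-- upper bound of the value at `r + w` -/
theorem g1_le {c r y t w h U : ℝ} (hU : uu (r + w) (y + h) ≤ U) :
    g1 c r y t w h U ≤ S33.g0 c r y t w h := by
  rw [g0_g1]
  unfold g1
  linarith only [hU]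

theorem G_n (t0 : 0 ≤ t) (t1 : t ≤ 5 / 1000) (hr : 37 / 100 ≤ r)
    (hr' : r ≤ 73 / 100) (H : HW w S) : 0 < S33.g0 (42 / 100) r t t w.re w.im + 6 / 100 := by
  rcases H.cases with ⟨σ, h1, h2, h3, h4, h5, -⟩ | ⟨h1, h2, h3, h4⟩
  · obtain ⟨f, hf, hq⟩ := chkT4 k_Gnr (by norm_num) (x := r) (y := t) (z := w.re) (w := σ)
      (by push_cast; linarith only [hr]) (by push_cast; linarith only [hr']) (by push_cast; linarith only [t0])
      (by push_cast; linarith only [t1]) (by push_cast; linarith only [h2]) (by push_cast; linarith only [h3])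
      (by push_cast; linarith only [h4]) (by push_cast; linarith only [h5])
    simp only [List.mem_cons, List.not_mem_nil, or_false] at hf
    subst hf
    simp only [S33.eG_val, E.val, NumI.lkR] at hq
    push_cast at hq
    rw [← h1] at hq
    exact hq
  · rcases le_total (r + w.re) (5 / 6) with h5 | h5
    · obtain ⟨f, hf, hq⟩ := chkT4 k_GnA (by norm_num) (x := r) (y := t) (z := w.re) (w := w.im)
        (by push_cast; linarith only [hr]) (by push_cast; linarith only [hr']) (by push_cast; linarith only [t0])
        (by push_cast; linarith only [t1]) (by push_cast; linarith only [h1]) (by push_cast; linarith only [h2])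
        (by push_cast; linarith only [h3]) (by push_cast; linarith only [h4])
      simp only [List.mem_cons, List.not_mem_nil, or_false] at hf
      rcases hf with rfl | rfl
      · simp only [S33.eG_val, E.val, NumI.lkR] at hq
        push_cast at hq
        exact hq
      · simp only [E.val, NumI.lkR] at hq
        push_cast at hq
        linarith only [h5, hq]
    · obtain ⟨f, hf, hq⟩ := chkT4 k_GnB (by norm_num) (x := r) (y := t) (z := w.re) (w := w.im)
        (by push_cast; linarith only [hr]) (by push_cast; linarith only [hr']) (by push_cast; linarith only [t0])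
        (by push_cast; linarith only [t1]) (by push_cast; linarith only [h1]) (by push_cast; linarith only [h2])
        (by push_cast; linarith only [h3]) (by push_cast; linarith only [h4])
      simp only [List.mem_cons, List.not_mem_nil, or_false] at hf
      rcases hf with rfl | rfl
      · simp only [eG1_val, E.val, NumI.lkR] at hq
        push_cast at hq
        have h6 := MR.UU_near (a := 5 / 6) (b := r + w.re) (t := t + w.im) le_rfl h5
          (by linarith only [hr', h2])
        rw [S33.nearL_lnA] at h6
        have h7 := g1_le (c := 42 / 100) (y := t) (t := t) (r := r) (w := w.re) (h := w.im)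
          (U := uu (5 / 6) (t + w.im) + (r + w.re - 5 / 6) * NumI.lnA (1 / 6) (t + w.im)) (by
            show UU ⟨r + w.re, t + w.im⟩ ≤ UU ⟨5 / 6, t + w.im⟩ + _
            linarith only [h6])
        linarith only [hq, h7]
      · simp only [E.val, NumI.lkR] at hq
        push_cast at hq
        linarith only [h5, hq]

/-- the first factor is monotone -/
theorem LL_nearq {q : ℝ} {u : ℂ} (hq' : q ≤ 1 / 2) (h : |u.re - 1| ≤ q) (h0 : u.im ≠ 0) :
    LL u ≤ NumI.lnA q u.im := by
  have hp := Real.pi_pos
  have hq0 : 0 ≤ q := (abs_nonneg _).trans h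
  have h3 : Real.cos (2 * Real.pi * q) ≤ Real.cos (2 * Real.pi * u.re) := by
    have e : Real.cos (2 * Real.pi * u.re) = Real.cos (2 * Real.pi * |u.re - 1|) := by
      rw [← Real.cos_sub_two_pi, ← Real.cos_abs, ← abs_of_pos (by positivity : 0 < 2 * Real.pi),
        ← abs_mul, abs_of_pos (by positivity : 0 < 2 * Real.pi)]
      congr 2
      ring
    rw [e]
    apply Real.cos_le_cos_of_nonneg_of_le_pi
    · positivity
    · nlinarith only [hq', hp]
    · exact mul_le_mul_of_nonneg_left h (by positivity)
  have h4 : 1 < Real.cosh (2 * Real.pi * u.im) :=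
    Real.one_lt_cosh.2 (mul_ne_zero (by positivity) h0)
  have h5 := Real.cos_le_one (2 * Real.pi * u.re)
  rw [← S0R.LL_lnA' ⟨q, u.im⟩, LL_eq', LL_eq']
  apply div_le_div_of_nonneg_right _ (by norm_num)
  apply Real.log_le_log (by linarith only [h4, h5])
  simp only
  linarith only [h3]

theorem UU_nearq {q a b t : ℝ} (hq0 : 0 < q) (hq' : q ≤ 1 / 2) (h1 : 1 - q ≤ a) (hab : a ≤ b)
    (h2 : b ≤ 1 + q) : UU ⟨b, t⟩ - UU ⟨a, t⟩ ≤ (b - a) * NumI.lnA q t := by
  have key : ∀ t : ℝ, t ≠ 0 → UU ⟨b, t⟩ - UU ⟨a, t⟩ ≤ (b - a) * NumI.lnA q t := by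
    intro t ht
    have hd : ∀ s : ℝ, HasDerivAt (fun s : ℝ => UU ⟨0 + 1 * s, t⟩) (1 * LL ⟨0 + 1 * s, t⟩) s :=
      fun s => hasDerivAt_UU_hor ht 1 s
    have e : (fun s : ℝ => UU ⟨0 + 1 * s, t⟩) = fun s : ℝ => UU ⟨s, t⟩ := by
      funext s
      rw [zero_add, one_mul]
    rw [e] at hd
    have := Convex.image_sub_le_mul_sub_of_deriv_le (convex_Icc (1 - q : ℝ) (1 + q))
      (f := fun s : ℝ => UU ⟨s, t⟩) (fun s _ => (hd s).continuousAt.continuousWithinAt)
      (fun s _ => (hd s).differentiableAt.differentiableWithinAt) (C := NumI.lnA q t) (by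
        intro s hs
        rw [interior_Icc] at hs
        rw [(hd s).deriv, one_mul, zero_add, one_mul]
        exact LL_nearq (u := ⟨s, t⟩) hq' (by
          rw [abs_le]
          constructor
          · show -q ≤ s - 1
            linarith only [hs, hs.1]
          · show s - 1 ≤ q
            linarith only [hs, hs.2]) ht) a ⟨h1, hab.trans h2⟩ b ⟨h1.trans hab, h2⟩ hab
    linarith only [this]
  have hc : ∀ c : ℝ, Continuous fun t : ℝ => UU ⟨c, t⟩ := by
    intro c
    have e : (fun t : ℝ => UU ⟨c, t⟩) = fun t : ℝ => UU ((c : ℂ) + (t : ℂ) * Complex.I) := by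
      funext t
      congr 1
      apply Complex.ext <;> simp
    rw [e]
    exact continuous_UU.comp (by fun_prop)
  have hs : 0 < Real.sin (Real.pi * q) :=
    Real.sin_pos_of_pos_of_lt_pi (by positivity) (by nlinarith only [hq', Real.pi_pos])
  have hcL : Continuous fun t : ℝ => NumI.lnA q t := by
    unfold NumI.lnA
    refine (Continuous.log (by fun_prop) fun t => ?_).div_const 2
    positivity
  have hcl : IsClosed {t : ℝ | UU ⟨b, t⟩ - UU ⟨a, t⟩ ≤ (b - a) * NumI.lnA q t} :=
    isClosed_le ((hc b).sub (hc a)) (continuous_const.mul hcL)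
  have hd : Dense ({0}ᶜ : Set ℝ) := dense_compl_singleton 0
  have hs : ({0}ᶜ : Set ℝ) ⊆ {t : ℝ | UU ⟨b, t⟩ - UU ⟨a, t⟩ ≤ (b - a) * NumI.lnA q t} :=
    fun t ht => key t ht
  have := hcl.closure_subset_iff.2 hs (hd.closure_eq ▸ Set.mem_univ t)
  exact this

theorem G_h (t0 : -(105 / 1000) ≤ t) (t1 : t ≤ 5 / 1000) (hr : 75 / 100 ≤ r)
    (hr' : r ≤ 80 / 100) (hy : y = t * (20 * (8 / 10 - r))) (H : HW w S)
    (hw : 7 / 100 ≤ w.re) : 0 < S33.g0 (58 / 100) r y t w.re w.im + gH r t := by
  rcases H.cases with ⟨σ, h1, h2, h3, h4, h5, -⟩ | ⟨h1, h2, h3, h4⟩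
  · obtain ⟨f, hf, hq⟩ := chkT4 k_Ghr (by norm_num) (x := r) (y := t) (z := w.re) (w := σ)
      (by push_cast; linarith only [hr]) (by push_cast; linarith only [hr']) (by push_cast; linarith only [t0])
      (by push_cast; linarith only [t1]) (by push_cast; linarith only [hw]) (by push_cast; linarith only [h3])
      (by push_cast; linarith only [h4]) (by push_cast; linarith only [h5])
    simp only [List.mem_cons, List.not_mem_nil, or_false] at hf
    subst hf
    simp only [S33.eG_val, egH_val, yr, E.val, NumI.lkR] at hq
    push_cast at hq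
    rw [← h1, div_one, ← hy] at hq
    exact hq
  rcases le_total (r + w.re) (94 / 100) with h5 | h5
  · obtain ⟨f, hf, hq⟩ := chkT4 k_GhA (by norm_num) (x := r) (y := t) (z := w.re) (w := w.im)
      (by push_cast; linarith only [hr]) (by push_cast; linarith only [hr']) (by push_cast; linarith only [t0])
      (by push_cast; linarith only [t1]) (by push_cast; linarith only [h1]) (by push_cast; linarith only [hr, h5])
      (by push_cast; linarith only [h3]) (by push_cast; linarith only [h4])
    simp only [List.mem_cons, List.not_mem_nil, or_false] at hf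
    rcases hf with rfl | rfl
    · simp only [S33.eG_val, egH_val, yr, E.val, NumI.lkR] at hq
      push_cast at hq
      rw [div_one, ← hy] at hq
      exact hq
    · simp only [E.val, NumI.lkR] at hq
      push_cast at hq
      linarith only [h5, hq]
  rcases le_total (r + w.re) (106 / 100) with h6 | h6
  · obtain ⟨f, hf, hq⟩ := chkT4 k_GhB (by norm_num) (x := r) (y := t) (z := w.re) (w := w.im)
      (by push_cast; linarith only [hr]) (by push_cast; linarith only [hr']) (by push_cast; linarith only [t0])
      (by push_cast; linarith only [t1]) (by push_cast; linarith only [hr', h5]) (by push_cast; linarith only [hr, h6])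
      (by push_cast; linarith only [h3]) (by push_cast; linarith only [h4])
    simp only [List.mem_cons, List.not_mem_nil, or_false] at hf
    rcases hf with rfl | rfl | rfl
    · simp only [eG1_val, egH_val, yr, E.val, NumI.lkR] at hq
      push_cast at hq
      rw [div_one, ← hy] at hq
      have h7 := UU_nearq (q := 6 / 100) (a := 94 / 100) (b := r + w.re) (t := y + w.im)
        (by norm_num) (by norm_num) (by norm_num) h5 (by linarith only [h6])
      have h8 := g1_le (c := 58 / 100) (y := y) (t := t) (r := r) (w := w.re) (h := w.im)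
        (U := uu (94 / 100) (y + w.im) + (r + w.re - 94 / 100) *
          NumI.lnA (6 / 100) (y + w.im)) (by
          show UU ⟨r + w.re, y + w.im⟩ ≤ UU ⟨94 / 100, y + w.im⟩ + _
          linarith only [h7])
      linarith only [hq, h8]
    · simp only [E.val, NumI.lkR] at hq
      push_cast at hq
      linarith only [h5, hq]
    · simp only [E.val, NumI.lkR] at hq
      push_cast at hq
      linarith only [h6, hq]
  · have e1 := MR.up4 (r + w.re) (y + w.im)
    rcases le_total 0 (y + w.im) with h7 | h7
    · obtain ⟨f, hf, hq⟩ := chkT4 k_GhP (by norm_num) (x := r) (y := t) (z := w.re) (w := w.im)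
        (by push_cast; linarith only [hr]) (by push_cast; linarith only [hr']) (by push_cast; linarith only [t0])
        (by push_cast; linarith only [t1]) (by push_cast; linarith only [hr', h6]) (by push_cast; linarith only [h2])
        (by push_cast; linarith only [h3]) (by push_cast; linarith only [h4])
      simp only [List.mem_cons, List.not_mem_nil, or_false] at hf
      rcases hf with rfl | rfl | rfl
      · simp only [eG1_val, egH_val, yr, E.val, NumI.lkR] at hq
        push_cast at hq
        rw [div_one, ← hy, div_one] at hq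
        rw [abs_of_nonneg h7] at e1
        have h8 := g1_le (c := 58 / 100) (y := y) (t := t) (r := r) (w := w.re) (h := w.im)
          (U := uu (r + w.re - 1) (y + w.im) + Real.pi * (y + w.im)) (by
            show UU ⟨r + w.re, y + w.im⟩ ≤ _
            rw [e1])
        linarith only [hq, h8]
      · simp only [E.val, NumI.lkR] at hq
        push_cast at hq
        linarith only [h6, hq]
      · simp only [E.val, yr, NumI.lkR] at hq
        push_cast at hq
        rw [div_one, ← hy] at hq
        linarith only [h7, hq]
    · obtain ⟨f, hf, hq⟩ := chkT4 k_GhM (by norm_num) (x := r) (y := t) (z := w.re) (w := w.im)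
        (by push_cast; linarith only [hr]) (by push_cast; linarith only [hr']) (by push_cast; linarith only [t0])
        (by push_cast; linarith only [t1]) (by push_cast; linarith only [hr', h6]) (by push_cast; linarith only [h2])
        (by push_cast; linarith only [h3]) (by push_cast; linarith only [h4])
      simp only [List.mem_cons, List.not_mem_nil, or_false] at hf
      rcases hf with rfl | rfl | rfl
      · simp only [eG1_val, egH_val, yr, E.val, NumI.lkR] at hq
        push_cast at hq
        rw [div_one, ← hy, div_one] at hq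
        rw [abs_of_nonpos h7] at e1
        have h8 := g1_le (c := 58 / 100) (y := y) (t := t) (r := r) (w := w.re) (h := w.im)
          (U := uu (r + w.re - 1) (y + w.im) - Real.pi * (y + w.im)) (by
            show UU ⟨r + w.re, y + w.im⟩ ≤ _
            rw [e1]
            linarith only [])
        linarith only [hq, h8]
      · simp only [E.val, NumI.lkR] at hq
        push_cast at hq
        linarith only [h6, hq]
      · simp only [E.val, yr, NumI.lkR] at hq
        push_cast at hq
        rw [div_one, ← hy] at hq
        linarith only [h7, hq]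

/-! ### joint moves -/

theorem hR_nonneg (hT : 0 ≤ T) (hx : x ≤ 60 / 100) : 0 ≤ S33.hR x T := by
  unfold S33.hR
  have : 0 ≤ 100 / 30 * (60 / 100 - x) := by linarith only [hx]
  positivity

/-- **The inner variable left of the hinge** -/
theorem mv_left {u v : ℂ} (H : Wn T t) (hu : u.im = S33.hR u.re T)
    (hv : RH v t (8 / 10) (5 / 100) (5 / 100)) (hx : 38 / 100 ≤ u.re) (hx' : u.re ≤ 60 / 100)
    (hr : v.re ≤ u.re - 13 / 100) (hW : HW w S) (hts : t ≤ 0 ∨ -(57 / 1000) ≤ S) :
    ∃ c : ℝ, 5 / 100 ≤ c ∧ c ≤ 75 / 100 ∧
      V3 u v w < V3 ⟨30 / 100, S33.hR (30 / 100) T⟩ (lv c t) w := by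
  have T0 := H.T0
  have t1 := H.t1
  have t0 : -(105 / 1000) ≤ t := by linarith only [T0, H, H.d0]
  have h0 := hv.re0
  have hh := hR_nonneg T0 hx'
  rcases le_total v.re (5 / 100) with h1 | h1
  · have hy : v.im = 20 * (t * v.re) := by
      rw [hv.im, tr_a (by norm_num) (by norm_num) (by norm_num) h0 h1]
      ring
    refine ⟨44 / 100, by norm_num, by norm_num, ?_⟩
    have k := V3_joint' (X := 30 / 100) (c := 44 / 100) (t := t) (v := v) (w := w) hu
    have g := GG_44 hW (by linarith only [t0]) t1 hts h0 h1
    have e : GG (44 / 100) v.re t w.re w.im = S33.g0 (44 / 100) v.re v.im t w.re w.im := by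
      unfold GG S33.g0
      rw [hy, show 20 * t * v.re = 20 * (t * v.re) by ring]
      ring
    rw [e] at g
    obtain ⟨d1, d2⟩ := d_l H hx hx' h0 h1 hy
    rcases le_total t 0 with h2 | h2
    · have z := z0_le (v := v) hu (by rw [hy]; nlinarith only [hh, h0, h2])
      linarith only [k, g, z, d1, h2, d1 h2]
    · have z := z1_le (v := v) hu hh (by rw [hy]; positivity)
      linarith only [k, g, z, d2, h2, d2 h2]
  have hy : v.im = t := by
    rw [hv.im, tr_b (by norm_num) (by norm_num) h1 (by linarith only [hx', hr]), mul_one]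
  refine ⟨42 / 100, by norm_num, by norm_num, ?_⟩
  have k := V3_joint' (X := 30 / 100) (c := 42 / 100) (t := t) (v := v) (w := w) hu
  rw [hy] at k
  rcases le_total v.re (16 / 100) with h3 | h3
  · have g := G_a t0 t1 h1 h3 hW
    obtain ⟨d1, d2⟩ := d_a H hx hx' h1 h3
    rcases le_total t 0 with h2 | h2
    · have z := z0_le (v := v) hu (by rw [hy]; linarith only [hh, h2])
      rw [hy] at z
      linarith only [k, g, z, d1, h2, d1 h2]
    · have z := z1_le (v := v) hu hh (by rw [hy]; exact h2)
      rw [hy] at z
      linarith only [k, g, z, d2, h2, d2 h2]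
  · have g := G_b t0 t1 h3 (by linarith only [hx', hr]) hW
    obtain ⟨d1, d2⟩ := d_b H hx hx' h3 hr
    rcases le_total t 0 with h2 | h2
    · have z := z0_le (v := v) hu (by rw [hy]; linarith only [hh, h2])
      rw [hy] at z
      linarith only [k, g, z, d1, h2, d1 h2]
    · have z := z1_le (v := v) hu hh (by rw [hy]; exact h2)
      rw [hy] at z
      linarith only [k, g, z, d2, h2, d2 h2]

/-- **The inner variable near the hinge and above it** -/
theorem mv_near {u v : ℂ} (H : Wn T t) (hu : u.im = S33.hR u.re T)
    (hv : RH v t (8 / 10) (5 / 100) (5 / 100)) (hx : 50 / 100 ≤ u.re) (hx' : u.re ≤ 60 / 100)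
    (hr : u.re - 13 / 100 ≤ v.re) (hr' : v.re ≤ u.re + 13 / 100) (hT : 35 / 1000 ≤ T)
    (hh : S33.hR u.re T ≤ t) (hW : HW w S) :
    V3 u v w < V3 ⟨30 / 100, S33.hR (30 / 100) T⟩ (lv (42 / 100) t) w := by
  have T0 := H.T0
  have t1 := H.t1
  have t0 : 0 ≤ t := (hR_nonneg T0 hx').trans hh
  have hy : v.im = t := by
    rw [hv.im, tr_b (by norm_num) (by norm_num) (by linarith only [hx, hr]) (by linarith only [hx', hr']), mul_one]
  have k := V3_joint' (X := 30 / 100) (c := 42 / 100) (t := t) (v := v) (w := w) hu
  rw [hy] at k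
  have g := G_n t0 t1 (by linarith only [hx, hr]) (by linarith only [hx', hr']) hW (r := v.re)
  have d := d_n H hx hx' hr hr' hT t0 hh
  have z := z3_le (v := v) hu (by rw [abs_le]; constructor <;> linarith only [hr, hr'])
  rw [hy] at z
  linarith only [k, g, d, z]

/-- **The inner variable on its right ramp** -/
theorem mv_right {u v : ℂ} (H : Wn T t) (hu : u.im = S33.hR u.re T)
    (hv : RH v t (8 / 10) (5 / 100) (5 / 100)) (hx : 50 / 100 ≤ u.re) (hx' : u.re ≤ 60 / 100)
    (hr : 75 / 100 ≤ v.re) (hW : HW w S) (hw : 7 / 100 ≤ w.re) :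
    V3 u v w < V3 ⟨38 / 100, S33.hR (38 / 100) T⟩ (lv (58 / 100) t) w := by
  have T0 := H.T0
  have t1 := H.t1
  have t0 : -(105 / 1000) ≤ t := by linarith only [T0, H, H.d0]
  have hM := hv.reM
  have hy : v.im = t * (20 * (8 / 10 - v.re)) := by
    rw [hv.im, tr_c (by norm_num) (by norm_num) (by norm_num) (by linarith only [hr]) hM]
    ring
  have k := V3_joint' (X := 38 / 100) (c := 58 / 100) (t := t) (v := v) (w := w) hu
  have g := G_h t0 t1 hr (by linarith only [hM]) hy hW hw
  have d := d_h H hx hx' hr (by linarith only [hM]) hy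
  have z : UU (v - u) = uu (v.re - u.re) (v.im - S33.hR u.re T) := by
    rw [UU_uu, Complex.sub_re, Complex.sub_im, hu]
  linarith only [k, g, d, z]

end SZ3

end VL

end Pool.Agent.Work.MP_b30479_gt.G2
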