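import Pool.Agent.Work.MP_b30479_gt.G2.VZ3E
import Pool.Agent.Work.MP_b30479_gt.G2.VZ3G
import Pool.Agent.Work.MP_b30479_gt.G2.VZ3F
import Pool.Agent.Work.MP_b30479_gt.G2.RngR
import Pool.Agent.Work.MP_b30479_gt.G2.RZ0

/-!
# The slot 0 of an inner digit `3` next to a ring, right ramp: the ring

* `ring_neg`: the side of the ring is negative on the whole ramp;
* `fR_anti`: a move of the hinge to the left does not decrease the value of the ring;
* `ring_B1`: the side of the ring is below `-B1 x` on `[.30, .40]` if the ring variable is not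
  near its end.
-/

namespace Pool.Agent.Work.MP_b30479_gt.G2

open VOL NumU Filter Topology

namespace VL

namespace SZ3

section
open NumI NumI.E

private theorem cA : (2 * Real.cosh (2 * Real.pi * (1045 / 10000)) -
      2 * Real.cos (2 * Real.pi * (1 / 10))) *
    (2 * Real.cosh (2 * Real.pi * (144 / 1000)) - 2 * Real.cos (2 * Real.pi * (2 / 10))) ≤
    192 / 100 := by
  have g : chk [sub (q 192 100) (mul (sub (mul (q 2 1) (cosh (mul (mul (q 2 1) pi) (q 1045 10000))))
      (mul (q 2 1) (cosPi (q 2 10)))) (sub (mul (q 2 1) (cosh (mul (mul (q 2 1) pi) (q 144 1000))))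
      (mul (q 2 1) (cosPi (q 4 10)))))] 10 [V.of 1 0 0] = true := by
    decide +kernel
  have h := NumI.pos_of_chk (NumI.chk1 g (by norm_num) (x := 0) (by norm_num) (by norm_num))
  simp only [NumI.E.val] at h
  simp only [Int.cast_ofNat, Nat.cast_ofNat, Nat.cast_one, div_one] at h
  rw [show Real.pi * (2 / 10) = 2 * Real.pi * (1 / 10) by ring,
    show Real.pi * (4 / 10) = 2 * Real.pi * (2 / 10) by ring] at h
  linarith only [h]

private theorem cB : Real.log (192 / 100) / 2 - Real.log (2 + 2 * (809 / 1000)) ≤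
    -(93 / 100) := by
  have g : chk [sub (neg (q 93 100)) (sub (mul (log (q 192 100)) (q 1 2))
      (log (add (q 2 1) (mul (q 2 1) (q 809 1000)))))] 10 [V.of 1 0 0] = true := by
    decide +kernel
  have h := NumI.pos_of_chk (NumI.chk1 g (by norm_num) (x := 0) (by norm_num) (by norm_num))
  simp only [NumI.E.val] at h
  simp only [Int.cast_ofNat, Nat.cast_ofNat, Int.cast_one, Nat.cast_one, div_one] at h
  linarith only [h]

end

variable {x T ρ σ s : ℝ} {w ζ : ℂ}

theorem hR_le3 (hT : 0 ≤ T) (hT' : T ≤ 57 / 1000) (hx : 30 / 100 ≤ x) :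
    S33.hR x T ≤ 57 / 1000 := by
  unfold S33.hR
  have h1 : T * (100 / 30 * (60 / 100 - x)) ≤ T * 1 :=
    mul_le_mul_of_nonneg_left (by linarith only [hx]) hT
  linarith only [hT', h1]

theorem hR_le5 (hT : 0 ≤ T) (hT' : T ≤ 57 / 1000) (hx : 50 / 100 ≤ x) :
    S33.hR x T ≤ 19 / 1000 := by
  unfold S33.hR
  have h1 : T * (100 / 30 * (60 / 100 - x)) ≤ T * (1 / 3) :=
    mul_le_mul_of_nonneg_left (by linarith only [hx]) hT
  linarith only [hT', h1]

/-- **The side of the ring is negative** -/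
theorem ring_neg (hρ : 0 < ρ) (hρ' : ρ ≤ 1045 / 10000) (hw : w.im = -S33.hR w.re T)
    (hx : 30 / 100 ≤ w.re) (hx' : w.re ≤ 60 / 100) (hT : 0 ≤ T) (hT' : T ≤ 57 / 1000)
    (hσ : σ ≤ 0) (hs : |σ| < 1 / 2) : S4 (T / (30 / 100)) w (LT.zt ρ σ) < 0 := by
  have hpi := Real.pi_pos
  have hpi4 := Real.pi_lt_d4
  have h0 := hR_nonneg hT hx'
  have h3 := hR_le3 hT hT' hx
  have him : w.im ≤ 0 := by linarith only [hw, h0]
  have hm : 0 ≤ T / (30 / 100) := by positivity
  have hm' : T / (30 / 100) ≤ 19 / 100 := by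
    rw [div_le_iff₀ (by norm_num)]
    linarith only [hT']
  have hη : 0 < ρ * LT.th σ := mul_pos hρ (th_pos hs)
  have hηρ : ρ * LT.th σ ≤ ρ := by
    have := mul_le_mul_of_nonneg_left (th_le_one σ) hρ.le
    linarith only [this]
  have habs : |w.im| = -w.im := abs_of_nonpos him
  have a1 : LL (w + 1 / 2 + LT.zt ρ σ) + LL (w + 1 / 2 - LT.zt ρ σ) - 2 * LL w < 0 :=
    LL_lev_neg (by linarith only [hx]) (by linarith only [hρ, hρ', hx']) hρ (Or.inr ⟨by rw [habs]; linarith only [hρ, hρ', hw, h3], hρ'⟩) hs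
  rcases le_total w.re (1 / 2) with hx2 | hx2
  · have a2 := YY_hinge_nonpos (x := w.re) (t := w.im) (σ := σ) (η := ρ * LT.th σ) (by linarith only [hρ, hρ', hx])
      hx2 him hσ (abs_lt.mp hs).1.le hη.le (re_im_eq w) (zt_eq ρ σ)
    have a3 := mul_nonpos_of_nonneg_of_nonpos hm a2
    unfold S4
    linarith only [a1, a3]
  · have h5 := hR_le5 hT hT' (x := w.re) (by linarith only [hx2])
    rcases le_or_gt (w.re - 1 / 2) (-σ) with h6 | h6
    · have a2 := YY_hinge_right (x := w.re) (t := w.im) (τ := -σ) (η := ρ * LT.th σ) hx2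
        (by linarith only [hρ, hρ', hx']) him h6 (by linarith only [hs, (abs_lt.mp hs).1]) hη
      rw [← mk_ztm1, ← mk_ztm2] at a2
      have a3 := mul_nonpos_of_nonneg_of_nonpos hm a2
      unfold S4
      have e : (⟨w.re, w.im⟩ : ℂ) = w := Complex.eta w
      rw [e] at a3
      linarith only [a1, a3]
    · have a2 := YY_hinge_right' (x := w.re) (t := w.im) (τ := -σ) (η := ρ * LT.th σ) hx2
        (by linarith only [hρ, hρ', hx']) him (by linarith only [hσ]) h6 hη
      have b1 := LL_right_le (x := w.re) (t := w.im) (τ := -σ) (η := ρ * LT.th σ) hx2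
        (by linarith only [hx']) (by linarith only [hσ]) h6 (y1 := 1045 / 10000) (y2 := 144 / 1000)
        (by rw [abs_le]; constructor <;> linarith only [hρ, hρ', hw, h3, hη, h0, hηρ]) (by rw [abs_le]; constructor <;> linarith only [hρ, hρ', hw, hηρ, h5, h0, hη])
        (by intro h0; linarith) cA cB
      have e : (⟨w.re, w.im⟩ : ℂ) = w := Complex.eta w
      rw [← mk_ztm1, ← mk_ztm2, e] at a2 b1
      have b2 : T / (30 / 100) * (YY (w + 1 / 2 + LT.zt ρ σ) + YY (w + 1 / 2 - LT.zt ρ σ) -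
          2 * YY w) ≤ T / (30 / 100) * (7 / 10 * Real.pi) := by
        apply mul_le_mul_of_nonneg_left _ hm
        have : Real.pi * (w.re - 1 / 2) ≤ Real.pi * (1 / 10) :=
          mul_le_mul_of_nonneg_left (by linarith only [hx']) hpi.le
        linarith only [a2, this]
      have b3 : T / (30 / 100) * (7 / 10 * Real.pi) ≤ 19 / 100 * (7 / 10 * Real.pi) :=
        mul_le_mul_of_nonneg_right hm' (by positivity)
      unfold S4
      linarith only [hρ, hρ', hpi4, b1, b2, b3]

/-! ### moves of the hinge -/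

/-- the hinge on its ramp in the frame of the ring -/
noncomputable def wr (T s : ℝ) : ℂ := ⟨s, -S33.hR s T⟩

theorem hasDerivAt_wr (T s : ℝ) : HasDerivAt (wr T) ⟨1, T / (30 / 100)⟩ s := by
  have e : wr T = fun s : ℝ => (⟨0, -(T * 2)⟩ : ℂ) + (⟨1, T / (30 / 100)⟩ : ℂ) * (s : ℂ) := by
    funext s
    unfold wr S33.hR
    apply Complex.ext
    · simp
    · simp
      ring
  rw [e]
  have h1 := ((Complex.ofRealCLM.hasDerivAt (x := s)).const_mul
    (⟨1, T / (30 / 100)⟩ : ℂ)).const_add (⟨0, -(T * 2)⟩ : ℂ)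
  simpa using h1

theorem hasDerivAt_fR (h0 : 0 < s) (h1 : s < 1)
    (hu : (wr T s + 1 / 2 + ζ).im ≠ 0) (hv : (wr T s + 1 / 2 - ζ).im ≠ 0) :
    HasDerivAt (fun s : ℝ => fR (wr T s) ζ) (S4 (T / (30 / 100)) (wr T s) ζ) s := by
  have hw := hasDerivAt_wr T s
  have d1 := hasDerivAt_UU ((hw.add_const (1 / 2 : ℂ)).add_const ζ) (Or.inl hu)
  have d2 := hasDerivAt_UU ((hw.add_const (1 / 2 : ℂ)).sub_const ζ) (Or.inl hv)
  have d3 := hasDerivAt_UU hw (Or.inr ⟨h0, h1⟩)
  have d4 := (d1.add d2).sub (d3.const_mul 2)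
  refine d4.congr_deriv ?_
  unfold S4
  simp only
  ring

theorem continuous_fR (T : ℝ) (ζ : ℂ) : Continuous fun s : ℝ => fR (wr T s) ζ := by
  have hc : Continuous (wr T) := by
    rw [continuous_iff_continuousAt]
    exact fun s => (hasDerivAt_wr T s).continuousAt
  unfold fR
  exact ((continuous_UU.comp ((hc.add continuous_const).add continuous_const)).add
    (continuous_UU.comp ((hc.add continuous_const).sub continuous_const))).sub
    (continuous_const.mul (continuous_UU.comp hc))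

theorem fR_step {a b : ℝ} (hρ : 0 < ρ) (hρ' : ρ ≤ 1045 / 10000) (hT : 0 ≤ T)
    (hT' : T ≤ 57 / 1000) (hσ : σ ≤ 0) (hs : |σ| < 1 / 2) (ha : 30 / 100 ≤ a) (hab : a ≤ b)
    (hb : b ≤ 60 / 100) (hne : ∀ s ∈ Set.Ioo a b, S33.hR s T ≠ ρ * LT.th σ) :
    fR (wr T b) (LT.zt ρ σ) ≤ fR (wr T a) (LT.zt ρ σ) := by
  have hη : 0 < ρ * LT.th σ := mul_pos hρ (th_pos hs)
  have hz : (LT.zt ρ σ).im = ρ * LT.th σ := by simp [zt_eq]
  have hd : ∀ s ∈ Set.Ioo a b, HasDerivAt (fun s : ℝ => fR (wr T s) (LT.zt ρ σ))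
      (S4 (T / (30 / 100)) (wr T s) (LT.zt ρ σ)) s := by
    intro s hs'
    have h1 := hs'.1
    have h2 := hs'.2
    have h3 := hR_nonneg hT (x := s) (by linarith only [hb, h2])
    have e1 : (wr T s).im = -S33.hR s T := rfl
    have e2 : ((1 : ℂ) / 2).im = 0 := by norm_num
    refine hasDerivAt_fR (by linarith only [hρ, hρ', ha, h1]) (by linarith only [hρ, hρ', hb, h2]) ?_ ?_
    · rw [Complex.add_im, Complex.add_im, e1, e2, hz]
      intro h4
      exact hne s hs' (by linarith only [h4])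
    · rw [Complex.sub_im, Complex.add_im, e1, e2, hz]
      intro h4
      linarith only [hη, h3, h4]
  have hm : AntitoneOn (fun s : ℝ => fR (wr T s) (LT.zt ρ σ)) (Set.Icc a b) := by
    apply antitoneOn_of_deriv_nonpos (convex_Icc _ _)
    · exact (continuous_fR T _).continuousOn
    · intro s hs'
      rw [interior_Icc] at hs'
      exact (hd s hs').differentiableAt.differentiableWithinAt
    · intro s hs'
      rw [interior_Icc] at hs'
      rw [(hd s hs').deriv]
      exact (ring_neg hρ hρ' rfl (by show 30 / 100 ≤ s; linarith only [ha, hs', hs'.1])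
        (by show s ≤ 60 / 100; linarith only [hb, hs', hs'.2]) hT hT' hσ hs).le
  exact hm ⟨le_rfl, hab⟩ ⟨hab, le_rfl⟩ hab

/-- **A move of the hinge to the left** -/
theorem fR_anti {a b : ℝ} (hρ : 0 < ρ) (hρ' : ρ ≤ 1045 / 10000) (hT : 0 ≤ T)
    (hT' : T ≤ 57 / 1000) (hσ : σ ≤ 0) (hs : |σ| < 1 / 2) (ha : 30 / 100 ≤ a) (hab : a ≤ b)
    (hb : b ≤ 60 / 100) : fR (wr T b) (LT.zt ρ σ) ≤ fR (wr T a) (LT.zt ρ σ) := by
  have hη : 0 < ρ * LT.th σ := mul_pos hρ (th_pos hs)
  by_cases h : ∃ s ∈ Set.Ioo a b, S33.hR s T = ρ * LT.th σ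
  · obtain ⟨c, ⟨c1, c2⟩, c3⟩ := h
    have hT0 : T ≠ 0 := by
      rintro rfl
      unfold S33.hR at c3
      linarith only [hη, c3]
    have key : ∀ s : ℝ, s ≠ c → S33.hR s T ≠ ρ * LT.th σ := by
      intro s hsc h1
      rw [← c3] at h1
      unfold S33.hR at h1
      have h2 := mul_left_cancel₀ hT0 h1
      exact hsc (by linarith only [h2])
    have k1 := fR_step hρ hρ' hT hT' hσ hs ha c1.le (by linarith only [hb, c2])
      (fun s hs' => key s hs'.2.ne)
    have k2 := fR_step hρ hρ' hT hT' hσ hs (by linarith only [ha, c1]) c2.le hb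
      (fun s hs' => key s hs'.1.ne')
    exact k2.trans k1
  · push Not at h
    exact fR_step hρ hρ' hT hT' hσ hs ha hab hb h

/-! ### the side of the ring on `[.30, .40]` -/

theorem LL_w' (hw : w.im = -S33.hR w.re T) : LL w = NumI.lnA w.re (S33.hR w.re T) := by
  rw [S0R.LL_lnA', hw]
  have := S0R.LL_lnA' ⟨w.re, S33.hR w.re T⟩
  have e := LL_conj ⟨w.re, S33.hR w.re T⟩
  rw [← this, ← e, S0R.LL_lnA']
  rfl

theorem YY_w' (hw : w.im = -S33.hR w.re T) (h0 : 0 < w.re) (h1 : w.re < 1) :
    YY w = NumI.lnB w.re (S33.hR w.re T) := by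
  rw [Num.YY_lnB (u := w) ⟨h0, h1⟩, hw, NumI.lnB_neg, neg_neg]

/-- upper bound of the side of the ring on the ramp of the ring variable -/
theorem ring_ramp (hw : w.im = -S33.hR w.re T) (hx : 30 / 100 ≤ w.re) (hx' : w.re ≤ 40 / 100)
    (hT : 0 ≤ T) (hT' : T ≤ 57 / 1000) (hz : RZ1.ZR s ρ ζ) (hs : 1 / 8 ≤ s)
    (hρ : ρ ≤ 1045 / 10000) : S4 (T / (30 / 100)) w ζ < -B1 w.re := by
  have hpi := Real.pi_pos
  have hh := hR_nonneg hT (x := w.re) (by linarith only [hx'])
  have hp := hz.pos
  have hs' := hz.hi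
  have hm : 0 ≤ T / (30 / 100) := by positivity
  have e2r : ((1 : ℂ) / 2).re = 1 / 2 := by norm_num
  have e2 : ((1 : ℂ) / 2).im = 0 := by norm_num
  have hy : 0 < 4 * (ρ * s) := by
    have : 0 < s := by linarith only [hs, hρ, hp]
    positivity
  have eu : w + 1 / 2 + ζ = ⟨w.re + s, 4 * (ρ * s) - S33.hR w.re T⟩ := by
    apply Complex.ext
    · rw [Complex.add_re, Complex.add_re, e2r, hz.re]
      ring
    · rw [Complex.add_im, Complex.add_im, e2, hz.im, hw]
      ring
  have ev : w + 1 / 2 - ζ = ⟨w.re - s, -(4 * (ρ * s) + S33.hR w.re T)⟩ + 1 := by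
    apply Complex.ext
    · rw [Complex.sub_re, Complex.add_re, e2r, hz.re, Complex.add_re, Complex.one_re]
      ring
    · rw [Complex.sub_im, Complex.add_im, e2, hz.im, hw, Complex.add_im, Complex.one_im]
      ring
  have a1 : LL (w + 1 / 2 + ζ) = NumI.lnA (w.re + s) (4 * (ρ * s) - S33.hR w.re T) := by
    rw [eu, S0R.LL_lnA']
  have a2 : YY (w + 1 / 2 + ζ) = -NumI.lnB (w.re + s) (4 * (ρ * s) - S33.hR w.re T) := by
    rw [eu, Num.YY_lnB (u := ⟨w.re + s, 4 * (ρ * s) - S33.hR w.re T⟩)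
      ⟨by show 0 < w.re + s; linarith only [hx, hs, hρ, hp], by show w.re + s < 1; linarith only [hx', hρ, hp, hs']⟩]
  have a3 : LL (w + 1 / 2 - ζ) = NumI.lnA (w.re - s) (4 * (ρ * s) + S33.hR w.re T) := by
    rw [ev, VN.LL_add_one, S0R.LL_lnA', NumI.lnA_neg]
  have a4 : YY (w + 1 / 2 - ζ) ≤ -(Real.pi / 2) := by
    have h1 : (w + 1 / 2 - ζ).im = -(4 * (ρ * s) + S33.hR w.re T) := by
      rw [ev]
      simp
    have h2 : (w + 1 / 2 - ζ).re = w.re - s + 1 := by
      rw [ev]
      simp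
    rw [YY_neg (by rw [h1]; linarith only [hh, hy]), h1, h2]
    have := Tr_mono (s := -(-(4 * (ρ * s) + S33.hR w.re T))) (by linarith only [hh, hy])
      (show (1 : ℝ) ≤ w.re - s + 1 by linarith only [hx, hρ, hp, hs'])
    rw [Tr_one (by linarith only [hh, hy])] at this
    linarith only [this]
  have a5 := mul_le_mul_of_nonneg_left a4 hm
  obtain ⟨f, hf, hq⟩ := chkT4 k_Rr (by norm_num) (x := w.re) (y := T) (z := s) (w := ρ)
    (by push_cast; linarith only [hx]) (by push_cast; linarith only [hx']) (by push_cast; linarith only [hT])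
    (by push_cast; linarith only [hT']) (by push_cast; linarith only [hs]) (by push_cast; linarith only [hs'])
    (by push_cast; linarith only [hp]) (by push_cast; linarith only [hρ])
  rw [List.mem_singleton] at hf
  rw [hf, eR_val] at hq
  unfold sR at hq
  unfold S4 B1
  rw [a1, a3, a2, LL_w' hw, YY_w' hw (by linarith only [hx, hρ, hp]) (by linarith only [hx', hρ, hp])]
  have e5 : T / (30 / 100) = 100 / 30 * T := by ring
  rw [e5] at a5 ⊢
  linarith only [a5, hq]

/-- upper bound of the side of the ring on the flat part of the ring variable -/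
theorem ring_flat (hw : w.im = -S33.hR w.re T) (hx : 30 / 100 ≤ w.re) (hx' : w.re ≤ 40 / 100)
    (hT : 0 ≤ T) (hT' : T ≤ 57 / 1000) (hz : RZ1.ZF ρ ζ)
    (hρ : ρ ≤ 1045 / 10000) : S4 (T / (30 / 100)) w ζ < -B1 w.re := by
  have hpi := Real.pi_pos
  have hh := hR_nonneg hT (x := w.re) (by linarith only [hx'])
  have hp := hz.pos
  have hm : 0 ≤ T / (30 / 100) := by positivity
  have e2r : ((1 : ℂ) / 2).re = 1 / 2 := by norm_num
  have e2 : ((1 : ℂ) / 2).im = 0 := by norm_num
  obtain ⟨a, ha⟩ : ∃ a : ℝ, a = -ζ.re := ⟨_, rfl⟩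
  have ha0 : 0 ≤ a := by linarith only [ha, hz, hz.hi]
  have ha1 : a ≤ 1 / 4 := by linarith only [ha, hz, hz.lo]
  have eu : w + 1 / 2 + ζ = ⟨w.re + 1 / 2 - a, ρ - S33.hR w.re T⟩ := by
    apply Complex.ext
    · rw [Complex.add_re, Complex.add_re, e2r, ha]
      ring
    · rw [Complex.add_im, Complex.add_im, e2, hz.im, hw]
      ring
  have ev : w + 1 / 2 - ζ = ⟨w.re + 1 / 2 + a, -(S33.hR w.re T + ρ)⟩ := by
    apply Complex.ext
    · rw [Complex.sub_re, Complex.add_re, e2r, ha]
      ring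
    · rw [Complex.sub_im, Complex.add_im, e2, hz.im, hw]
      ring
  have a1 : LL (w + 1 / 2 + ζ) = NumI.lnA (w.re + 1 / 2 - a) (ρ - S33.hR w.re T) := by
    rw [eu, S0R.LL_lnA']
  have a2 : YY (w + 1 / 2 + ζ) = -NumI.lnB (w.re + 1 / 2 - a) (ρ - S33.hR w.re T) := by
    rw [eu, Num.YY_lnB (u := ⟨w.re + 1 / 2 - a, ρ - S33.hR w.re T⟩)
      ⟨by show 0 < w.re + 1 / 2 - a; linarith only [hx, hρ, hp, ha1], by show w.re + 1 / 2 - a < 1; linarith only [hx', hρ, hp, ha0]⟩]
  have key : ∀ L Y : ℝ, LL (w + 1 / 2 - ζ) ≤ L → YY (w + 1 / 2 - ζ) ≤ Y →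
      0 < -(355 / 1000 - 6 / 10 * w.re + sF w.re T a ρ L Y) →
      S4 (T / (30 / 100)) w ζ < -B1 w.re := by
    intro L Y h1 h2 h3
    have h4 := mul_le_mul_of_nonneg_left h2 hm
    unfold sF at h3
    unfold S4 B1
    rw [a1, a2, LL_w' hw, YY_w' hw (by linarith only [hx, hρ, hp]) (by linarith only [hx', hρ, hp])]
    have e5 : T / (30 / 100) = 100 / 30 * T := by ring
    rw [e5] at h4 ⊢
    linarith only [h1, h3, h4]
  have him : (w + 1 / 2 - ζ).im = -(S33.hR w.re T + ρ) := by rw [ev]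
  have hre : (w + 1 / 2 - ζ).re = w.re + 1 / 2 + a := by rw [ev]
  have hYY : 9 / 10 ≤ w.re + 1 / 2 + a →
      YY (w + 1 / 2 - ζ) ≤ -NumI.lnB (9 / 10) (-(S33.hR w.re T + ρ)) := by
    intro h1
    rw [← Num.YY_lnB (u := ⟨9 / 10, -(S33.hR w.re T + ρ)⟩)
      ⟨by show (0 : ℝ) < 9 / 10; norm_num, by show (9 / 10 : ℝ) < 1; norm_num⟩,
      YY_neg (by rw [him]; linarith only [hh, hp]),
      YY_neg (u := ⟨9 / 10, -(S33.hR w.re T + ρ)⟩)
        (by show -(S33.hR w.re T + ρ) < 0; linarith only [hh, hp]), him, hre]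
    have := Tr_mono (s := -(-(S33.hR w.re T + ρ))) (by linarith only [hh, hp]) h1
    simp only
    linarith only [this]
  rcases le_total (w.re + a) (4 / 10) with h1 | h1
  · obtain ⟨f, hf, hq⟩ := chkT4 k_RfA (by norm_num) (x := w.re) (y := T) (z := a) (w := ρ)
      (by push_cast; linarith only [hx]) (by push_cast; linarith only [hx']) (by push_cast; linarith only [hT])
      (by push_cast; linarith only [hT']) (by push_cast; linarith only [ha0]) (by push_cast; linarith only [hx, h1])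
      (by push_cast; linarith only [hp]) (by push_cast; linarith only [hρ])
    simp only [List.mem_cons, List.not_mem_nil, or_false] at hf
    rcases hf with rfl | rfl
    · rw [eF_val] at hq
      simp only [E.val, eQ_val, eN_val] at hq
      refine key _ _ ?_ ?_ hq
      · rw [ev, S0R.LL_lnA']
      · rw [ev, Num.YY_lnB (u := ⟨w.re + 1 / 2 + a, -(S33.hR w.re T + ρ)⟩)
          ⟨by show 0 < w.re + 1 / 2 + a; linarith only [hx, hρ, hp, ha0], by show w.re + 1 / 2 + a < 1; linarith only [hρ, hp, h1]⟩]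
    · simp only [E.val, NumI.lkR] at hq
      push_cast at hq
      linarith only [h1, hq]
  rcases le_total (w.re + a) (6 / 10) with h2 | h2
  · obtain ⟨f, hf, hq⟩ := chkT4 k_RfB (by norm_num) (x := w.re) (y := T) (z := a) (w := ρ)
      (by push_cast; linarith only [hx]) (by push_cast; linarith only [hx']) (by push_cast; linarith only [hT])
      (by push_cast; linarith only [hT']) (by push_cast; linarith only [ha0]) (by push_cast; linarith only [ha1])
      (by push_cast; linarith only [hp]) (by push_cast; linarith only [hρ])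
    simp only [List.mem_cons, List.not_mem_nil, or_false] at hf
    rcases hf with rfl | rfl | rfl
    · rw [eF_val] at hq
      simp only [E.val, eN_val] at hq
      push_cast at hq
      refine key _ _ ?_ (hYY (by linarith only [h1])) hq
      have := LL_nearq (q := 1 / 10) (u := w + 1 / 2 - ζ) (by norm_num)
        (by rw [hre, abs_le]; constructor <;> linarith only [h1, h2]) (by rw [him]; intro h0; linarith only [hh, hp, h0])
      rw [him] at this
      exact this
    · simp only [E.val, NumI.lkR] at hq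
      push_cast at hq
      linarith only [h1, hq]
    · simp only [E.val, NumI.lkR] at hq
      push_cast at hq
      linarith only [h2, hq]
  · obtain ⟨f, hf, hq⟩ := chkT4 k_RfC (by norm_num) (x := w.re) (y := T) (z := a) (w := ρ)
      (by push_cast; linarith only [ha1, h2]) (by push_cast; linarith only [hx']) (by push_cast; linarith only [hT])
      (by push_cast; linarith only [hT']) (by push_cast; linarith only [hx', h2]) (by push_cast; linarith only [ha1])
      (by push_cast; linarith only [hp]) (by push_cast; linarith only [hρ])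
    simp only [List.mem_cons, List.not_mem_nil, or_false] at hf
    rcases hf with rfl | rfl
    · rw [eF_val] at hq
      simp only [E.val, eN_val] at hq
      push_cast at hq
      refine key _ _ ?_ (hYY (by linarith only [hρ, hp, h2])) hq
      have := LL_nearq (q := 15 / 100) (u := w + 1 / 2 - ζ) (by norm_num)
        (by rw [hre, abs_le]; constructor <;> linarith only [hρ, hp, h2, hx', ha1]) (by rw [him]; intro h0; linarith only [hh, hp, h0])
      rw [him] at this
      exact this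
    · simp only [E.val, NumI.lkR] at hq
      push_cast at hq
      linarith only [h2, hq]

end SZ3

end VL

end Pool.Agent.Work.MP_b30479_gt.G2
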