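import Pool.Agent.Work.MP_b30479_gt.G2.VZ3A
import Pool.Agent.Work.MP_b30479_gt.G2.S0RC
import Pool.Agent.Work.NumU.Tree

/-!
# The slot 0 of an inner digit `3` next to a ring, right ramp: the exceptional case, certificates

the height of the hinge in `[-7/10000, 0]`
-/

namespace Pool.Agent.Work.MP_b30479_gt.G2

open VOL NumU

namespace VL

namespace SZ3

open S33 (eH)
open NumI (V)

section
open NumU.E

def eEr : E :=
  neg (add (add eB1 (q 11 1000)) (sub (add (E.lnA (add (var 0) (var 2)) (sub (mul (q 4 1)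
    (mul (var 3) (var 2))) (eH (var 0) (var 1)))) (E.lnA (sub (var 0) (var 2)) (add (mul (q 4 1)
    (mul (var 3) (var 2))) (eH (var 0) (var 1))))) (mul (q 2 1) (E.lnA (var 0)
    (eH (var 0) (var 1))))))

def eEf (A B : E) : E :=
  neg (add (add eB1 (q 11 1000)) (sub (add A B) (mul (q 2 1) (E.lnA (var 0)
    (eH (var 0) (var 1))))))

/-- `ρ - h` -/
def eU : E := sub (var 3) (eH (var 0) (var 1))
/-- `h + ρ` -/
def eV : E := add (eH (var 0) (var 1)) (var 3)

theorem eEr_val (x T s ρ : ℝ) : eEr.val [x, T, s, ρ] =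
    -(355 / 1000 - 6 / 10 * x + 11 / 1000 + (NumI.lnA (x + s) (4 * (ρ * s) - S33.hR x T) +
      NumI.lnA (x - s) (4 * (ρ * s) + S33.hR x T) - 2 * NumI.lnA x (S33.hR x T))) := by
  simp only [eEr, E.val, eB1_val, S33.eH_val, NumI.lkR]
  push_cast
  ring_nf

theorem eEf_val (x T a ρ : ℝ) (A B : E) : (eEf A B).val [x, T, a, ρ] =
    -(355 / 1000 - 6 / 10 * x + 11 / 1000 + (A.val [x, T, a, ρ] + B.val [x, T, a, ρ] -
      2 * NumI.lnA x (S33.hR x T))) := by
  simp only [eEf, E.val, eB1_val, S33.eH_val, NumI.lkR]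
  push_cast
  ring

theorem eP_val (x T a ρ : ℝ) : eP.val [x, T, a, ρ] = x + 1 / 2 - a := by
  simp only [eP, E.val, NumI.lkR]
  push_cast
  ring

theorem eU_val (x T a ρ : ℝ) : eU.val [x, T, a, ρ] = ρ - S33.hR x T := by
  simp only [eU, E.val, S33.eH_val, NumI.lkR]

theorem eV_val (x T a ρ : ℝ) : eV.val [x, T, a, ρ] = S33.hR x T + ρ := by
  simp only [eV, E.val, S33.eH_val, NumI.lkR]

end

open NumU.E (q var)

theorem k_Nea : chkT [.sub eB1 (S0R.EE.N 10 3 (q 1300 10000) (.add .pi (.lnB (q 1300 10000)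
    (S0R.EE.nyy 10 3))) (.sub S0R.EE.x (q 1300 10000)))] 45
    0x8
    [V.of 10000 3000 3400, V.of 10000 (-7) 0, V.of 10000 (-1057) (-150)] = true := by
  decide +kernel

theorem k_fea : chkT [.sub eB1 (S0R.EE.S 10 3), .sub eB1 (S0R.EE.F 10 3 (q 1 2) (q (-98)
    10000)), .sub (.sub S0R.EE.T S0R.EE.t) (q 1050 10000), .sub S0R.EE.v (q 4300 10000)] 45
    0x8
    [V.of 10000 3000 3400, V.of 10000 (-7) 0,
      V.of 10000 1000 1300, V.of 10000 (-1057) (-150)] = true := by
  decide +kernel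

theorem k_feb : chkT [.sub eB1 (S0R.EE.S 10 3), .sub eB1 (S0R.EE.F 10 3 (.add S0R.EE.v (q 7
    100)) (q (-98) 10000)), .sub (.sub S0R.EE.T S0R.EE.t) (q 1050 10000), .sub (q 4300 10000)
    S0R.EE.v, .sub S0R.EE.v (q 7300 10000)] 45
    0x9909299229908990328818222
    [V.of 10000 3000 3400, V.of 10000 (-7) 0,
      V.of 10000 1000 4300, V.of 10000 (-1057) (-150)] = true := by
  decide +kernel

theorem k_fec : chkT [.sub eB1 (S0R.EE.S 10 3), .sub eB1 (S0R.EE.F 10 3 (q 80 100) (q (-98)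
    10000)), .sub (.sub S0R.EE.T S0R.EE.t) (q 1050 10000), .sub (q 7300 10000) S0R.EE.v, .sub
    S0R.EE.v (q 75 100)] 45
    0x993
    [V.of 10000 3000 3400, V.of 10000 (-7) 0,
      V.of 10000 3900 4500, V.of 10000 (-1057) (-150)] = true := by
  decide +kernel

theorem k_Er : chkT [eEr] 45
    0x880882888020288088208880882028808880880022020
    [V.of 10000 3000 5000, V.of 10000 (-7) 0,
      V.of 10000 1250 2500, V.of 10000 840 895] = true := by
  decide +kernel

theorem k_EfA : chkT [eEf (.lnA eP eU) (.lnA eQ eN), .sub (.add (var 0) (var 2)) (q 4 10)] 45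
    0x980828820
    [V.of 10000 3000 4000, V.of 10000 (-7) 0,
      V.of 10000 0 1000, V.of 10000 840 895] = true := by
  decide +kernel

theorem k_EfB : chkT [eEf (.lnA eP eU) (.lnA (q 1 10) eN), .sub (q 4 10) (.add (var 0) (var 2)),
    .sub (.add (var 0) (var 2)) (q 6 10), .sub (.sub (var 0) (var 2)) (q 4 10)] 45
    0x888008b8080288002
    [V.of 10000 3000 5000, V.of 10000 (-7) 0,
      V.of 10000 0 2500, V.of 10000 840 895] = true := by
  decide +kernel

theorem k_EfC : chkT [eEf (.lnA (q 1 10) eU) (.lnA (q 1 10) eN)] 45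
    0x8
    [V.of 10000 4000 5000, V.of 10000 (-7) 0,
      V.of 10000 0 1000, V.of 10000 840 895] = true := by
  decide +kernel

theorem k_EfD : chkT [eEf (.lnA eP eU) (.lnA (.sub (.add (var 0) (var 2)) (q 1 2)) eV), .sub (q
    6 10) (.add (var 0) (var 2))] 45
    0x8828808929020
    [V.of 10000 3500 5000, V.of 10000 (-7) 0,
      V.of 10000 1000 2500, V.of 10000 840 895] = true := by
  decide +kernel

end SZ3

end VL

end Pool.Agent.Work.MP_b30479_gt.G2
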