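import Pool.Agent.Work.MP_b30479_gt.G2.V2S
import Pool.Agent.Work.MP_b30479_gt.G2.WI3
import Pool.Agent.Work.MP_b30479_gt.G2.S0RG
import Pool.Agent.Work.MP_b30479_gt.G2.S0RH

/-!
# The own side of an interior `3` at slot `0`, right ramp of the hinge: word level

Left neighbours `2`, `2e`, `3`, `3e`, ring. Hypotheses: the hinge in the slot `2` is at least
`7/100`, and at most `39/100` next to a `1` or an interior `3`, `31/100` else.
-/

namespace Pool.Agent.Work.MP_b30479_gt.G2

open Finset VOL Filter Topology S0R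

namespace SR

variable {M : ℕ} {b : Fin (M + 1) → ℤ} {zs : DD (tyW b) ⊕ ZZ (tyW b) → ℂ}
variable {y : DD (tyW b) ⊕ ZZ (tyW b) → ℝ}
variable {h h' : Fin M} {i j k j' : Fin (M + 1)} {p : Fin 3}

/-! ### the hinge in the slot `2` -/

/-- path of the hinge in the slot `2` -/
theorem Adj.s0r_par2 (A : Adj h i 2 k) (hi : clsW b i = .three) :
    (clsW b k = .one → wXM b h = 65 / 100 ∧ wcl b h = 15 / 100 ∧ wcr b h = 29 / 100) ∧
    (clsW b k ≠ .one → wXM b h = 60 / 100 ∧ wcl b h = 13 / 100 ∧ wcr b h = 30 / 100) := by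
  rw [A.XM_eq b, A.cl_eq b, A.cr_eq b, hi]
  unfold hpp
  rw [if_pos rfl]
  generalize clsW b k = B
  cases B <;> simp [hp]

/-- window of the hinge in the slot `2` of an interior `3` next to a `1` -/
theorem Adj.s0r_w1 (A : Adj h i 2 k) (hb : ClassW b) (hL : Loc b zs) (hy : Mx b zs y)
    (hi : clsW b i = .three) (hk : clsW b k = .one) (h7 : 7 / 100 ≤ y (.inl (.inl h)))
    (hc : y (.inl (.inl h)) ≤ 39 / 100) :
    -(1145 / 10000) ≤ (Yw b zs y i 2).im ∧ (Yw b zs y i 2).im ≤ -(98 / 10000) ∧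
      -(1145 / 1500 * (Yw b zs y i 2).re) ≤ (Yw b zs y i 2).im := by
  have hop := A.opp hb (Or.inl (by rw [hi]; decide))
  obtain ⟨-, -, h3, h4⟩ := A.box hb hL
  rw [hi, hk, A.ss hop] at h3 h4
  simp only [hbox] at h3 h4
  obtain ⟨e1, e2, e3⟩ := (A.s0r_par2 hi).1 hk
  have hrh := A.rh hy
  have hre := A.re (b := b) (zs := zs) (y := y)
  rw [e1, e2, e3] at hrh
  refine ⟨(MR.RH_im_mem hrh (by norm_num) (by norm_num : (0 : ℝ) ≤ 0) h3 (by linarith only [h4])).1, ?_,
    ?_⟩
  · rcases le_total (Yw b zs y i 2).re (15 / 100) with h1 | h1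
    · rw [MR.RH_left hrh (by norm_num) (by norm_num) (by norm_num) h1]
      have : 7 / 15 ≤ (Yw b zs y i 2).re / (15 / 100) := by
        rw [le_div_iff₀ (by norm_num), hre]
        linarith only [h7]
      nlinarith only [h7, h4, hre, h3]
    · rcases le_total (Yw b zs y i 2).re (65 / 100 - 29 / 100) with h2 | h2
      · rw [MR.RH_flat hrh (by norm_num) (by norm_num) h1 h2]
        linarith only [h4]
      · rw [MR.RH_right hrh (by norm_num) (by norm_num) (by norm_num) h2]
        have : 7 / 15 ≤ (65 / 100 - (Yw b zs y i 2).re) / (29 / 100) := by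
          rw [le_div_iff₀ (by norm_num), hre]
          linarith only [hc]
        nlinarith only [hc, h4, hre, h3]
  · exact (hrh.im_low (a := 1145 / 1500) (b := 0) (by norm_num) (by norm_num) le_rfl (by linarith only [h3])
      (by linarith only [h4])).1

/-- window of the hinge in the slot `2` of an interior `3` not next to a `1` -/
theorem Adj.s0r_wo (A : Adj h i 2 k) (hb : ClassW b) (hL : Loc b zs) (hy : Mx b zs y)
    (hi : clsW b i = .three) (hk : clsW b k ≠ .one) :
    -(98 / 1000) ≤ (Yw b zs y i 2).im ∧ (clsW b k ≠ .ring → (Yw b zs y i 2).im ≤ 22 / 1000) ∧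
      (Yw b zs y i 2).im ≤ 57 / 1000 ∧
      -(98 / 130 * (Yw b zs y i 2).re) ≤ (Yw b zs y i 2).im ∧
      (clsW b k = .three → -(22 / 1000) ≤ (Yw b zs y i 2).im) := by
  have hop := A.opp hb (Or.inl (by rw [hi]; decide))
  obtain ⟨-, -, h3, h4⟩ := A.box hb hL
  rw [hi, A.ss hop] at h3 h4
  obtain ⟨e1, e2, e3⟩ := (A.s0r_par2 hi).2 hk
  have hrh := A.rh hy
  rw [e1, e2, e3] at hrh
  have b1 : -(98 / 1000) ≤ ofs (b i) (zs (.inl (.inl h))).im := by
    refine le_trans ?_ h3
    generalize clsW b k = B at hk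
    cases B <;> first | exact absurd rfl hk | norm_num [hbox]
  have b2 : ofs (b i) (zs (.inl (.inl h))).im ≤ 57 / 1000 := by
    refine h4.trans ?_
    generalize clsW b k = B
    cases B <;> norm_num [hbox]
  have b3 : clsW b k ≠ .ring → ofs (b i) (zs (.inl (.inl h))).im ≤ 22 / 1000 := by
    intro hk'
    refine h4.trans ?_
    generalize clsW b k = B at hk hk'
    cases B <;> first | exact absurd rfl hk | exact absurd rfl hk' | norm_num [hbox]
  refine ⟨(MR.RH_im_mem hrh (by norm_num) (by norm_num : (0 : ℝ) ≤ 57 / 1000) b1 b2).1,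
    fun hk' => (MR.RH_im_mem hrh (by norm_num : -(98 / 1000 : ℝ) ≤ 0)
      (by norm_num : (0 : ℝ) ≤ 22 / 1000) b1 (b3 hk')).2,
    (MR.RH_im_mem hrh (by norm_num : -(98 / 1000 : ℝ) ≤ 0)
      (by norm_num : (0 : ℝ) ≤ 57 / 1000) b1 b2).2,
    (hrh.im_low (a := 98 / 130) (b := 57 / 130) (by norm_num) (by norm_num) (by norm_num)
    (by linarith only [b1]) (by linarith only [b2])).1, fun hk3 => ?_⟩
  rw [hk3] at h3
  simp only [hbox] at h3
  exact (MR.RH_im_mem hrh (by norm_num : -(22 / 1000 : ℝ) ≤ 0)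
    (by norm_num : (0 : ℝ) ≤ 57 / 1000) h3 b2).1

/-- the cap of the hinge in the slot `2` -/
noncomputable def cap2 (K : Cl) : ℝ :=
  match K with
  | .one => 39 / 100
  | .three => 39 / 100
  | _ => 31 / 100

/-- the cap of the hinge in the slot `2` not next to a `1` -/
theorem cap2_le (k : Cl) : cap2 k ≤ 39 / 100 := by
  cases k <;> norm_num [cap2]

/-- the windows, left neighbour `2`, `3`, `3e`, ring -/
theorem s0r_KW (hb : ClassW b) (hL : Loc b zs) (hX : LocX b zs) (hy : Mx b zs y)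
    (A : Adj h i 0 j) (A' : Adj h' i 2 k) (hi : clsW b i = .three)
    (hj : clsW b j ≠ .one) (hj' : clsW b j ≠ .twoE) (h7 : 7 / 100 ≤ y (.inl (.inl h')))
    (hc : y (.inl (.inl h')) ≤ cap2 (clsW b k)) :
    (S0R.K1 (ofs (b i) (zs (.inl (.inl h))).im) (tW zs (Or.inl hi)) (Yw b zs y i 2) ∨
      S0R.Ko (ofs (b i) (zs (.inl (.inl h))).im) (tW zs (Or.inl hi)) (Yw b zs y i 2) ∨
      S0R.KZ (ofs (b i) (zs (.inl (.inl h))).im) (tW zs (Or.inl hi)) (Yw b zs y i 2)) ∧
    KR (tW zs (Or.inl hi)) (Yw b zs y i 2) ∧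
    tW zs (Or.inl hi) - ofs (b i) (zs (.inl (.inl h))).im ≤ 28 / 1000 := by
  obtain ⟨w1, w2, w3, w4⟩ := mid_window hX A A' hi
  have hre := A'.re (b := b) (zs := zs) (y := y)
  have hc39 := hc.trans (cap2_le _)
  by_cases hk : clsW b k = .one
  · obtain ⟨g1, g2, g3⟩ := A'.s0r_w1 hb hL hy hi hk h7 hc39
    rw [hk] at w1 w2 w3 w4
    have m1 : (mw (clsW b j) .one).t0 = -(114 / 1000) ∧ (mw (clsW b j) .one).t1 = -(15 / 1000) ∧
        (mw (clsW b j) .one).s0 = -(105 / 1000) ∧ (mw (clsW b j) .one).s1 = 14 / 1000 := by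
      generalize clsW b j = B at hj hj'
      cases B <;> first | exact absurd rfl hj | exact absurd rfl hj' | simp [mw]
    obtain ⟨m1, m2, m3, m4⟩ := m1
    rw [m1] at w1
    rw [m2] at w2
    rw [m3] at w3
    rw [m4] at w4
    exact ⟨Or.inl ⟨w1, w2, by linarith only [hi, w3], by rw [hre]; exact h7, by rw [hre]; exact hc39, g1, g2,
      g3⟩, Or.inl ⟨w1, w2, by rw [hre]; exact h7, by rw [hre]; exact hc39, g1, g2⟩, by linarith only [hi, w4]⟩
  · obtain ⟨g1, g2, g3, g4, g5⟩ := A'.s0r_wo hb hL hy hi hk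
    by_cases hk' : clsW b k = .ring
    · rw [hk'] at w1 w2 w3 w4 hc
      simp only [cap2] at hc
      have m1 : (mw (clsW b j) .ring).t0 = -(92 / 1000) ∧ (mw (clsW b j) .ring).t1 = 0 ∧
          (mw (clsW b j) .ring).s0 = -(93 / 1000) ∧ (mw (clsW b j) .ring).s1 = 24 / 1000 := by
        generalize clsW b j = B at hj hj'
        cases B <;> first | exact absurd rfl hj | exact absurd rfl hj' | simp [mw]
      obtain ⟨m1, m2, m3, m4⟩ := m1
      rw [m1] at w1
      rw [m2] at w2
      rw [m3] at w3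
      rw [m4] at w4
      exact ⟨Or.inr (Or.inr ⟨w1, w2, by linarith only [hi, w3], by rw [hre]; exact h7, by rw [hre]; exact hc,
        g1, g3, g4⟩), Or.inr (Or.inl ⟨by linarith only [hi, w1], by linarith only [hi, w2], by rw [hre]; exact h7,
          by rw [hre]; exact hc, g1, g3⟩), by linarith only [hi, w4]⟩
    · have m1 : -(104 / 1000) ≤ (mw (clsW b j) (clsW b k)).t0 ∧
          (mw (clsW b j) (clsW b k)).t1 ≤ 5 / 1000 ∧
          -(100 / 1000) ≤ (mw (clsW b j) (clsW b k)).s0 ∧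
          (mw (clsW b j) (clsW b k)).s1 ≤ 28 / 1000 := by
        generalize clsW b j = B at hj hj'
        generalize clsW b k = C at hk hk'
        cases B <;> first | exact absurd rfl hj | exact absurd rfl hj' | skip
        all_goals cases C <;> first | exact absurd rfl hk | exact absurd rfl hk' | norm_num [mw]
      obtain ⟨m1, m2, m3, m4⟩ := m1
      refine ⟨Or.inr (Or.inl ⟨by linarith only [hi, w1, m1], by linarith only [hi, w2, m2], by linarith only [hi, w3, m3], by rw [hre]; exact h7,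
        by rw [hre]; exact hc39, g1, g2 hk', g4⟩), ?_, by linarith only [hi, w4, m4]⟩
      rcases le_total (y (.inl (.inl h'))) (31 / 100) with h9 | h9
      · exact Or.inr (Or.inl ⟨by linarith only [hi, w1, m1], by linarith only [hi, w2, m2], by rw [hre]; exact h7,
          by rw [hre]; exact h9, g1, g3⟩)
      · by_cases hk3 : clsW b k = .three
        · exact Or.inr (Or.inr ⟨by linarith only [hi, w1, m1], by linarith only [hi, w2, m2], by rw [hre]; exact h9,
            by rw [hre]; exact hc39, g5 hk3, g2 hk'⟩)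
        · have h10 : y (.inl (.inl h')) ≤ 31 / 100 := by
            refine hc.trans (le_of_eq ?_)
            generalize clsW b k = B at hk hk3
            cases B <;> first | exact absurd rfl hk | exact absurd rfl hk3 | rfl
          exact Or.inr (Or.inl ⟨by linarith only [hi, w1, m1], by linarith only [hi, w2, m2], by rw [hre]; exact h7,
            by rw [hre]; exact h10, g1, g3⟩)

/-- the windows, left neighbour `2e` -/
theorem s0r_EW (hb : ClassW b) (hL : Loc b zs) (hX : LocX b zs) (hy : Mx b zs y)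
    (A : Adj h i 0 j) (A' : Adj h' i 2 k) (hi : clsW b i = .three)
    (hj : clsW b j = .twoE) (h7 : 7 / 100 ≤ y (.inl (.inl h')))
    (hc : y (.inl (.inl h')) ≤ cap2 (clsW b k)) :
    S0R.E1 (ofs (b i) (zs (.inl (.inl h))).im) (tW zs (Or.inl hi)) (Yw b zs y i 2) ∨
      S0R.Eo (ofs (b i) (zs (.inl (.inl h))).im) (tW zs (Or.inl hi)) (Yw b zs y i 2) ∨
      S0R.EZ (ofs (b i) (zs (.inl (.inl h))).im) (tW zs (Or.inl hi)) (Yw b zs y i 2) := by
  obtain ⟨w1, w2, w3, w4⟩ := mid_window hX A A' hi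
  rw [hj] at w1 w2 w3 w4
  have hre := A'.re (b := b) (zs := zs) (y := y)
  have hc39 := hc.trans (cap2_le _)
  by_cases hk : clsW b k = .one
  · obtain ⟨g1, g2, g3⟩ := A'.s0r_w1 hb hL hy hi hk h7 hc39
    rw [hk] at w1 w2 w3
    simp only [mw] at w1 w2 w3
    exact Or.inl ⟨w1, w2, by linarith only [hi, w3], by rw [hre]; exact h7, by rw [hre]; exact hc39, g1, g2,
      g3⟩
  · obtain ⟨g1, g2, g3, g4, -⟩ := A'.s0r_wo hb hL hy hi hk
    by_cases hk' : clsW b k = .ring
    · rw [hk'] at w1 w2 w3 hc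
      simp only [mw, cap2] at w1 w2 w3 hc
      exact Or.inr (Or.inr ⟨w1, w2, by linarith only [hi, w3], by rw [hre]; exact h7, by rw [hre]; exact hc,
        g1, g3, g4⟩)
    · have m1 : -(116 / 1000) ≤ (mw .twoE (clsW b k)).t0 ∧
          (mw .twoE (clsW b k)).t1 ≤ -(64 / 1000) ∧
          -(40 / 1000) ≤ (mw .twoE (clsW b k)).s0 := by
        generalize clsW b k = C at hk hk'
        cases C <;> first | exact absurd rfl hk | exact absurd rfl hk' | norm_num [mw]
      obtain ⟨m1, m2, m3⟩ := m1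
      exact Or.inr (Or.inl ⟨by linarith only [hi, w1, m1], by linarith only [hi, w2, m2], by linarith only [hi, w3, m3], by rw [hre]; exact h7,
        by rw [hre]; exact hc39, g1, g2 hk', g4⟩)

/-! ### the inner variable -/

/-- first order conditions and regularity of the inner variable -/
theorem s0r_mid (hb : ClassW b) (hy : Mx b zs y) (hpos : ∀ h : Fin M, 0 < y (.inl (.inl h)))
    (hi : clsW b i = .three) (hv0 : 0 < (OY b zs y i 1).re) :
    (5 / 100 < (OY b zs y i 1).re → (OY b zs y i 1).re ≤ 75 / 100 →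
      0 ≤ SM 0 (Yw b zs y i 0) (OY b zs y i 1) (Yw b zs y i 2)) ∧
    (75 / 100 < (OY b zs y i 1).re →
      0 ≤ SM (-20 * tW zs (Or.inl hi)) (Yw b zs y i 0) (OY b zs y i 1) (Yw b zs y i 2)) ∧
    SinNe (OY b zs y i 1 + Yw b zs y i 2) ∧ SinNe (OY b zs y i 1 - Yw b zs y i 0) := by
  have hm : 0 < y (.inl (.inr (mI b hi))) := by
    have e : (Yw b zs y i 1).re = y (.inl (.inr (mI b hi))) := by
      rw [show Yw b zs y i 1 = Yw b zs y (mI b hi).1 1 from rfl, Yw_mid, ofr_pp_re]
    rw [OY_mid (Or.inl hi), e] at hv0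
    exact hv0
  have hf := mid_fc hb hy hpos (mI b hi) hm
  obtain ⟨e1, e2, e3⟩ := pp_mI (b := b) (zs := zs) hi
  rw [e1, e2, e3] at hf
  obtain ⟨r1, r2⟩ := reg_three hi hy hpos hm
  rw [OY_mid (Or.inl hi)]
  refine ⟨fun h1 h2 => ?_, fun h1 => ?_, r1, r2⟩
  · have := hf.flat' (by exact h1) (by refine le_trans h2 ?_; norm_num)
    rw [show OM b zs y (mI b hi).1 0 = OM b zs y i 0 from rfl, OM_three hi] at this
    exact this
  · have := hf.right' (by refine lt_of_le_of_lt ?_ h1; norm_num)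
    rw [show OM b zs y (mI b hi).1 = OM b zs y i from rfl, OM_three hi] at this
    rw [show -20 * tW zs (Or.inl hi) = -(ofs (b (mI b hi).1) (zs (.inl (.inr (mI b hi)))).im /
      (5 / 100)) by
        rw [show tW zs (Or.inl hi) = ofs (b (mI b hi).1) (zs (.inl (.inr (mI b hi)))).im from rfl]
        ring]
    exact this

/-- value of the region if the inner variable moves on the flat part -/
theorem s0r_val (hb : ClassW b) (hy : Mx b zs y) (hi : clsW b i = .three) (c : ℝ)
    (h0 : 5 / 100 ≤ c) (h1 : c ≤ 75 / 100) (v' : ℂ) (hv : v'.re = c)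
    (hv' : v'.im = tW zs (Or.inl hi)) :
    V3 (Yw b zs y i 0) v' (Yw b zs y i 2) ≤
      V3 (Yw b zs y i 0) (OY b zs y i 1) (Yw b zs y i 2) := by
  have e : v' = vW zs (Or.inl hi) c := by
    apply Complex.ext
    · rw [hv, vW_re]
    · rw [hv', vW_three hi h0 h1]
  have hm := MOpt.exists hb hy.1 (mopt_three (zs := zs) hi (c := c) (by linarith only [h0]) (by linarith only [h1])
    (Ow b ((wpar b zs).pth zs y) i))
  obtain ⟨y1, hy1, hV, -⟩ := hm
  have h5 : (wdat (tyW b) b).V ((wpar b zs).pth zs y1) ≤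
    (wdat (tyW b) b).V ((wpar b zs).pth zs y) := hy.2 hy1
  have e1 : OV b i (Ow b ((wpar b zs).pth zs y) i) =
      V3 (Yw b zs y i 0) (OY b zs y i 1) (Yw b zs y i 2) := by
    rw [show Ow b ((wpar b zs).pth zs y) i = OY b zs y i from rfl, OV_three hb hi, OY_zero, OY_two]
  have e2 : OV b i (Function.update (Ow b ((wpar b zs).pth zs y) i) 1 (vW zs (Or.inl hi) c)) =
      V3 (Yw b zs y i 0) (vW zs (Or.inl hi) c) (Yw b zs y i 2) := by
    rw [show Ow b ((wpar b zs).pth zs y) i = OY b zs y i from rfl, OV_three hb hi,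
      Function.update_self, Function.update_of_ne (by decide), Function.update_of_ne (by decide),
      OY_zero, OY_two]
  rw [e1, e2] at hV
  rw [e]
  linarith only [hi, hV, h5]

/-! ### the hinge -/

/-- path of the hinge, left neighbour a ring -/
theorem Adj.s0r_parZ (A : Adj h i 0 j) (hi : clsW b i = .three) (hj : clsW b j = .ring) :
    wXM b h = 60 / 100 ∧ wcr b h = 30 / 100 ∧ wcl b h ≤ 13 / 100 := by
  rw [A.XM_eq b, A.cr_eq b, A.cl_eq b, hi, hj]
  unfold hpp
  rw [if_neg (by decide)]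
  norm_num [hp]

/-- height and slope on the right ramp of length `30/100` -/
theorem Adj.s0r_ramp (A : Adj h i 0 j) (hy : Mx b zs y) (h1 : wXM b h = 60 / 100)
    (h2 : wcr b h = 30 / 100) (h3 : wcl b h ≤ 13 / 100) (hx : 30 / 100 < y (.inl (.inl h))) :
    (Yw b zs y i 0).im = 10 / 3 * ofs (b i) (zs (.inl (.inl h))).im *
      (6 / 10 - (Yw b zs y i 0).re) ∧
    ofs (b i) (slL b zs y h) = -(10 / 3 * ofs (b i) (zs (.inl (.inl h))).im) := by
  constructor
  · rw [A.h30l hy h1 h2 h3 hx.le]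
    unfold V2A.h30
    ring
  · rw [ofs_slL_ramp _ (by rw [h1, h2]; linarith only [hx]), h2]
    ring

/-- **`A = 2`**: the side of the `3` on the right ramp, `x` in `[.36, .50]` -/
theorem s0r_two (hb : ClassW b) (hL : Loc b zs) (hX : LocX b zs) (hy : Mx b zs y)
    (hpos : ∀ h : Fin M, 0 < y (.inl (.inl h))) (A : Adj h i 0 j) (A' : Adj h' i 2 k)
    (hi : clsW b i = .three) (hj : clsW b j = .two) (h7 : 7 / 100 ≤ y (.inl (.inl h')))
    (hc : y (.inl (.inl h')) ≤ cap2 (clsW b k)) (hx0 : 36 / 100 ≤ y (.inl (.inl h)))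
    (hx1 : y (.inl (.inl h)) ≤ 1 / 2) :
    Sw b zs y i 0 (slL b zs y h) + Real.pi / 2 * ofs (b i) (slL b zs y h) < 125 / 1000 := by
  have hop := A.opp hb (Or.inl (by rw [hi]; decide))
  obtain ⟨q1, q2, q3⟩ := A.par_s0_two hi hj
  obtain ⟨-, -, T1, T2⟩ := A.box hb hL
  rw [hi, hj, A.ss hop] at T1 T2
  simp only [hbox] at T1 T2
  have hre := A.re (b := b) (zs := zs) (y := y)
  obtain ⟨hK, hR, hs1⟩ := s0r_KW hb hL hX hy A A' hi (by rw [hj]; decide) (by rw [hj]; decide) h7
    hc
  have hv := rh_three hy hi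
  have hu : (Yw b zs y i 0).im = 100 / 27 * ofs (b i) (zs (.inl (.inl h))).im *
      (6 / 10 - (Yw b zs y i 0).re) := by
    rw [A.h27l hy q1 q2 (by rw [q3]; norm_num) (by linarith only [hx0])]
    unfold V2A.h27
    ring
  have hsl : ofs (b i) (slL b zs y h) = -(100 / 27 * ofs (b i) (zs (.inl (.inl h))).im) := by
    rw [ofs_slL_ramp _ (by rw [q1, q2]; linarith only [hx0]), q2]
    ring
  have hval := s0r_val hb hy hi
  have hlow : y (.inl (.inl h)) - 9 / 100 < (OY b zs y i 1).re := by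
    rcases le_total (y (.inl (.inl h))) (38 / 100) with h1 | h1
    · by_contra hcon
      push Not at hcon
      obtain ⟨c, c0, c1, c2⟩ := low_t (by rw [hre]; exact hx0) (by rw [hre]; exact h1) hu T1 T2 hK
        hs1 hv (by rw [hre]; exact hcon)
      exact absurd (hval c c0 c1 ⟨c, tW zs (Or.inl hi)⟩ rfl rfl) (not_le.2 (c2 _ rfl rfl))
    · exact low_2 hb hL hX hy A A' hi hj (hc.trans (cap2_le _)) h1 hx1
  obtain ⟨m1, m2, r1, r2⟩ := s0r_mid hb hy hpos hi (by linarith only [hx0, hlow])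
  have key : S3 1 (-(100 / 27 * ofs (b i) (zs (.inl (.inl h))).im)) (Yw b zs y i 0)
      (OY b zs y i 1) < 125 / 1000 + Real.pi * (1 / 2) *
        (100 / 27 * ofs (b i) (zs (.inl (.inl h))).im) := by
    rcases le_or_gt (OY b zs y i 1).re (75 / 100) with h1 | h1
    · have hfl := V2A.mid_flat hv (by linarith only [hx0, hlow]) h1
      rcases le_total ((OY b zs y i 1).re - (Yw b zs y i 0).re) (1 / 10) with h2 | h2
      · refine near_two (by rw [hre]; exact hx0) (by rw [hre]; exact hx1) hu T1 T2 ?_ ?_ hfl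
          (by rw [hre]; linarith only [hlow]) h2 r2
        · rcases hK with g | g | g
          · exact g.t0
          · exact le_trans (by norm_num) g.t0
          · exact le_trans (by norm_num) g.t0
        · rcases hK with g | g | g
          · exact g.t1.trans (by norm_num)
          · exact g.t1
          · exact g.t1.trans (by norm_num)
      · exact far_two (by rw [hre]; exact hx0) (by rw [hre]; exact hx1) hu T1 T2 hK hfl h2 h1
          (m1 (by linarith only [hx0, hre, h2]) h1) r1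
    · exfalso
      refine no_ramp (s := 8 / 10 - (OY b zs y i 1).re) (by rw [hre]; linarith only [hx0])
        (by rw [hre]; exact hx1) ?_ hR (by ring) ?_ (by linarith only [hi, hv, hv.reM]) (by linarith only [h1]) (m2 h1)
        hval r1
      · rw [hu, abs_le]
        constructor <;> nlinarith only [hx1, T1, hre, hx0, T2]
      · rw [V2A.mid_right hv h1.le]
        ring
  rw [A.side_three_zero hb hi, ← OY_mid (Or.inl hi), hsl]
  linarith only [key]

/-- **`A = 2e`**: the side of the `3` on the right ramp, `x` in `(.30, .50]` -/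
theorem s0r_twoE (hb : ClassW b) (hL : Loc b zs) (hX : LocX b zs) (hy : Mx b zs y)
    (hpos : ∀ h : Fin M, 0 < y (.inl (.inl h))) (A : Adj h i 0 j) (A' : Adj h' i 2 k)
    (hi : clsW b i = .three) (hj : clsW b j = .twoE) (h7 : 7 / 100 ≤ y (.inl (.inl h')))
    (hc : y (.inl (.inl h')) ≤ cap2 (clsW b k)) (hx0 : 30 / 100 < y (.inl (.inl h)))
    (hx1 : y (.inl (.inl h)) ≤ 1 / 2) :
    Sw b zs y i 0 (slL b zs y h) + 5 / 2 * ofs (b i) (slL b zs y h) < 57 / 100 := by
  have hop := A.opp hb (Or.inl (by rw [hi]; decide))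
  obtain ⟨q1, q2, q3⟩ := A.par_s0 hi (Or.inl hj)
  obtain ⟨-, -, T1, T2⟩ := A.box hb hL
  rw [hi, hj, A.ss hop] at T1 T2
  simp only [hbox] at T1 T2
  have hre := A.re (b := b) (zs := zs) (y := y)
  have hK := s0r_EW hb hL hX hy A A' hi hj h7 hc
  have hv := rh_three hy hi
  obtain ⟨hu, hsl⟩ := A.s0r_ramp hy q1 q2 q3 hx0
  have hval := s0r_val hb hy hi
  have ht : -(123 / 1000) ≤ tW zs (Or.inl hi) ∧ tW zs (Or.inl hi) ≤ -(64 / 1000) := by
    rcases hK with g | g | g
    · exact ⟨g.t0, g.t1.trans (by norm_num)⟩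
    · exact ⟨le_trans (by norm_num) g.t0, g.t1⟩
    · exact ⟨le_trans (by norm_num) g.t0, g.t1.trans (by norm_num)⟩
  have hlow : y (.inl (.inl h)) - 7 / 100 < (OY b zs y i 1).re := by
    rcases le_total (y (.inl (.inl h))) (38 / 100) with h1 | h1
    · by_contra hcon
      push Not at hcon
      obtain ⟨c, c0, c1, c2⟩ := low_e (by rw [hre]; exact hx0.le) (by rw [hre]; exact h1) hu T1 T2
        hK hv (by rw [hre]; exact hcon)
      exact absurd (hval c c0 c1 ⟨c, tW zs (Or.inl hi)⟩ rfl rfl) (not_le.2 (c2 _ rfl rfl))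
    · exact low_2e hb hL hX hy A A' hi hj (hc.trans (cap2_le _)) h1 hx1
  obtain ⟨m1, m2, r1, r2⟩ := s0r_mid hb hy hpos hi (by linarith only [hx0, hlow])
  have key : S3 1 (-(10 / 3 * ofs (b i) (zs (.inl (.inl h))).im)) (Yw b zs y i 0)
      (OY b zs y i 1) < 57 / 100 + 5 / 2 * (10 / 3 * ofs (b i) (zs (.inl (.inl h))).im) := by
    rcases le_or_gt (OY b zs y i 1).re (75 / 100) with h1 | h1
    · have hfl := V2A.mid_flat hv (by linarith only [hx0, hlow]) h1
      rcases le_total ((OY b zs y i 1).re - (Yw b zs y i 0).re) (1 / 10) with h2 | h2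
      · exact near_twoE (by rw [hre]; exact hx0.le) (by rw [hre]; exact hx1) hu T1 T2 ht.1 ht.2 hfl
          (by rw [hre]; linarith only [hlow]) h2 r2
      · exact far_twoE (by rw [hre]; exact hx0.le) (by rw [hre]; exact hx1) hu T1 T2 hK hfl h2 h1
          (m1 (by linarith only [hx0, hre, h2]) h1) r1
    · refine ramp_twoE (s := 8 / 10 - (OY b zs y i 1).re) (t := tW zs (Or.inl hi))
        (by rw [hre]; linarith only [hx0]) (by rw [hre]; exact hx1) hu T1 T2 ht.1 ht.2 (by ring) ?_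
        (by linarith only [hi, hv, hv.reM]) (by linarith only [h1])
      rw [V2A.mid_right hv h1.le]
      ring
  rw [A.side_three_zero hb hi, ← OY_mid (Or.inl hi), hsl]
  linarith only [key]

/-- bound of the side, left neighbours `3`, `3e`, ring -/
noncomputable def s0rB (J : Cl) (x : ℝ) : ℝ :=
  open Classical in
  if x ≤ 40 / 100 then 66 / 100 - 3 / 2 * x else if J = .threeE then -(35 / 1000) else 0

/-- **`A = 3`, `3e`, ring**: the side of the `3` on the right ramp, `x` in `(.30, .50]`; `hlo` only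
for a ring -/
theorem s0r_three (hb : ClassW b) (hL : Loc b zs) (hX : LocX b zs) (hy : Mx b zs y)
    (hpos : ∀ h : Fin M, 0 < y (.inl (.inl h))) (A : Adj h i 0 j) (A' : Adj h' i 2 k)
    (hi : clsW b i = .three) (hj : clsW b j = .three ∨ clsW b j = .threeE ∨ clsW b j = .ring)
    (hlo : clsW b j = .ring → 38 / 100 ≤ y (.inl (.inl h)) →
      y (.inl (.inl h)) - 13 / 100 < (OY b zs y i 1).re)
    (h7 : 7 / 100 ≤ y (.inl (.inl h')))
    (hc : y (.inl (.inl h')) ≤ cap2 (clsW b k)) (hx0 : 30 / 100 < y (.inl (.inl h)))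
    (hx1 : y (.inl (.inl h)) ≤ 1 / 2) :
    Sw b zs y i 0 (slL b zs y h) < s0rB (clsW b j) (y (.inl (.inl h))) := by
  have hop := A.opp hb (Or.inl (by rw [hi]; decide))
  have hj1 : clsW b j ≠ .one := by rcases hj with hj | hj | hj <;> rw [hj] <;> decide
  have hj2 : clsW b j ≠ .twoE := by rcases hj with hj | hj | hj <;> rw [hj] <;> decide
  obtain ⟨q1, q2, q3⟩ : wXM b h = 60 / 100 ∧ wcr b h = 30 / 100 ∧ wcl b h ≤ 13 / 100 := by
    rcases hj with hj | hj | hj
    · exact A.par_s0 hi (Or.inr (Or.inl hj))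
    · exact A.par_s0 hi (Or.inr (Or.inr hj))
    · exact A.s0r_parZ hi hj
  obtain ⟨-, -, T1, T2⟩ := A.box hb hL
  rw [hi, A.ss hop] at T1 T2
  have hre := A.re (b := b) (zs := zs) (y := y)
  obtain ⟨hK, hR, -⟩ := s0r_KW hb hL hX hy A A' hi hj1 hj2 h7 hc
  have hv := rh_three hy hi
  obtain ⟨hu, hsl⟩ := A.s0r_ramp hy q1 q2 q3 hx0
  have hval := s0r_val hb hy hi
  have hTT : -(28 / 1000) ≤ ofs (b i) (zs (.inl (.inl h))).im ∧
      ofs (b i) (zs (.inl (.inl h))).im ≤ 57 / 1000 := by
    refine ⟨le_trans ?_ T1, T2.trans ?_⟩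
    · rcases hj with hj | hj | hj <;> rw [hj] <;> norm_num [hbox]
    · rcases hj with hj | hj | hj <;> rw [hj] <;> norm_num [hbox]
  have ht : -(114 / 1000) ≤ tW zs (Or.inl hi) ∧ tW zs (Or.inl hi) ≤ 5 / 1000 ∧
      ofs (b i) (zs (.inl (.inl h))).im - tW zs (Or.inl hi) ≤ 105 / 1000 := by
    rcases hK with g | g | g
    · exact ⟨g.t0, g.t1.trans (by norm_num), g.s0⟩
    · exact ⟨le_trans (by norm_num) g.t0, g.t1, g.s0.trans (by norm_num)⟩
    · exact ⟨le_trans (by norm_num) g.t0, g.t1.trans (by norm_num), g.s0.trans (by norm_num)⟩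
  have hlow : y (.inl (.inl h)) - 13 / 100 < (OY b zs y i 1).re := by
    rcases le_total (y (.inl (.inl h))) (38 / 100) with h1 | h1
    · by_contra hcon
      push Not at hcon
      obtain ⟨c, c0, c1, c2⟩ := low_z (by rw [hre]; exact hx0.le) (by rw [hre]; exact h1) hu hTT.1
        hTT.2 hK hv (by rw [hre]; exact hcon)
      exact absurd (hval c c0 c1 ⟨c, tW zs (Or.inl hi)⟩ rfl rfl) (not_le.2 (c2 _ rfl rfl))
    · rcases hj with hj | hj | hj
      · exact low_33 hb hL hX hy A A' hi (Or.inl hj) (hc.trans (cap2_le _)) h1 hx1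
      · exact low_33 hb hL hX hy A A' hi (Or.inr hj) (hc.trans (cap2_le _)) h1 hx1
      · exact hlo hj h1
  obtain ⟨m1, m2, r1, r2⟩ := s0r_mid hb hy hpos hi (by linarith only [hx0, hlow])
  have hnr : ¬ 75 / 100 < (OY b zs y i 1).re := by
    intro h1
    refine no_ramp (s := 8 / 10 - (OY b zs y i 1).re) (by rw [hre]; linarith only [hx0])
      (by rw [hre]; exact hx1) ?_ hR (by ring) ?_ (by linarith only [hi, hv, hv.reM]) (by linarith only [h1]) (m2 h1)
      hval r1
    · obtain ⟨g1, g2⟩ := hTT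
      rw [hu, abs_le]
      constructor <;> nlinarith only [hi, hre, g1, hx0, g2, hx1, ht]
    · rw [V2A.mid_right hv h1.le]
      ring
  push Not at hnr
  have hfl := V2A.mid_flat hv (by linarith only [hx0, hlow]) hnr
  have hS := m1 (by linarith only [hx0, hlow]) hnr
  rw [A.side_three_zero hb hi, ← OY_mid (Or.inl hi), hsl]
  unfold s0rB
  split_ifs with c1 c2
  · rw [← hre]
    rcases le_total ((OY b zs y i 1).re - (Yw b zs y i 0).re) (1 / 10) with h2 | h2
    · exact near_3a (by rw [hre]; exact hx0.le) (by rw [hre]; exact c1) hu hTT.1 hTT.2 ht.1 ht.2.1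
        ht.2.2 hfl (by rw [hre]; linarith only [hlow]) (by linarith only [h2]) r2
    · exact far_3a (by rw [hre]; exact hx0.le) (by rw [hre]; exact c1) hu hTT.1 hTT.2 hK hfl h2 hnr
        hS r1
  · push Not at c1
    rw [c2] at T1 T2
    simp only [hbox] at T1 T2
    rcases le_total ((OY b zs y i 1).re - (Yw b zs y i 0).re) (1 / 10) with h2 | h2
    · exact near_3e (by rw [hre]; exact c1.le) (by rw [hre]; exact hx1) hu T1 T2 ht.1 ht.2.1
        ht.2.2 hfl (by rw [hre]; linarith only [hlow]) (by linarith only [hx1, c1, h2]) r2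
    · exact far_3e (by rw [hre]; exact c1.le) (by rw [hre]; exact hx1) hu T1 T2 hK hfl h2 hnr
        hS r1
  · push Not at c1
    have T1' : -(22 / 1000) ≤ ofs (b i) (zs (.inl (.inl h))).im := by
      refine le_trans ?_ T1
      rcases hj with hj | hj | hj
      · rw [hj]; norm_num [hbox]
      · exact absurd hj c2
      · rw [hj]; norm_num [hbox]
    rcases le_total ((OY b zs y i 1).re - (Yw b zs y i 0).re) (1 / 10) with h2 | h2
    · exact near_3z (by rw [hre]; exact c1.le) (by rw [hre]; exact hx1) hu T1' hTT.2 ht.1 ht.2.1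
        ht.2.2 hfl (by rw [hre]; linarith only [hlow]) (by linarith only [hx1, c1, h2]) r2
    · exact far_3z (by rw [hre]; exact c1.le) (by rw [hre]; exact hx1) hu T1' hTT.2 hK hfl h2 hnr
        hS r1

end SR

end Pool.Agent.Work.MP_b30479_gt.G2
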