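import Pool.Agent.Work.MP_b30479_gt.G2.VZ3X
import Pool.Agent.Work.MP_b30479_gt.G2.RngX
import Pool.Agent.Work.MP_b30479_gt.G2.VZ3H
import Pool.Agent.Work.MP_b30479_gt.G2.WCapZ
import Pool.Agent.Work.MP_b30479_gt.G2.WS0R

/-!
# `ring | 3` at slot `0`, the exceptional case

* `VL.SZ3.ring_exc`: the side of the ring if the height is in `[-7/10000, 0]`, `x` in
  `[.30, .50]`; nothing about the slots is used;
* `SR.z3_exc30`: the hinge is at most `30/100`.
-/

namespace Pool.Agent.Work.MP_b30479_gt.G2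

open Finset VOL NumU Filter Topology

namespace VL

namespace SZ3

open S0R (rS rF rN rui far_core near_le H_all)

variable {x T ρ σ s t : ℝ} {w ζ : ℂ}

theorem hR_exc (hT : -(7 / 10000) ≤ T) (hT' : T ≤ 0) (hx : 30 / 100 ≤ x) (hx' : x ≤ 60 / 100) :
    -(7 / 10000) ≤ S33.hR x T ∧ S33.hR x T ≤ 0 := by
  unfold S33.hR
  have h1 : 0 ≤ 100 / 30 * (60 / 100 - x) := by linarith only [hx']
  have h2 : 100 / 30 * (60 / 100 - x) ≤ 1 := by linarith only [hx]
  constructor <;> nlinarith only [hx, hT, hx', hT']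

/-- the part with the slope -/
theorem YY_exc {u v : ℂ} (hw0 : 0 ≤ w.im) (hw : w.re ≤ 1 / 2) (hu : 0 < u.im) (hu' : 0 ≤ u.re)
    (hv : v.im < 0) (hv' : v.re ≤ 3 / 2) (hT : -(7 / 10000) ≤ T) (hT' : T ≤ 0) :
    T / (30 / 100) * (YY u + YY v - 2 * YY w) ≤ 11 / 1000 := by
  have hpi := Real.pi_pos
  have hpi4 := Real.pi_lt_d4
  have a1 : -(Real.pi / 2) ≤ YY u := by
    rw [YY_pos hu]
    have := Tr_mono hu hu'
    rw [DT.Tr_zero hu] at this
    linarith only [this]
  have a2 : -Real.pi ≤ YY v := by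
    rw [YY_neg hv]
    have := Tr_mono (s := -v.im) (by linarith only [hv]) hv'
    have e : DT.Tr (-v.im) (3 / 2) = 3 / 2 * Real.pi := by
      rw [show (3 / 2 : ℝ) = 1 / 2 + 1 by norm_num, Tr_add_one, Tr_half (by linarith only [hv])]
      ring
    rw [e] at this
    linarith only [this]
  have a3 : YY w ≤ 0 := S0R.YY_np hw0 hw
  have m0 : T / (30 / 100) ≤ 0 := by
    rw [div_le_iff₀ (by norm_num)]
    linarith only [hT']
  have m1 : -(7 / 3000) ≤ T / (30 / 100) := by
    rw [le_div_iff₀ (by norm_num)]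
    linarith only [hT]
  have a4 := mul_le_mul_of_nonpos_left
    (show -(3 / 2 * Real.pi) ≤ YY u + YY v - 2 * YY w by linarith only [a1, a2, a3]) m0
  have a5 : T / (30 / 100) * -(3 / 2 * Real.pi) ≤ 7 / 3000 * (3 / 2 * Real.pi) := by
    nlinarith only [hT, hpi]
  linarith only [hpi4, a4, a5]

/-- **The side of the ring, exceptional heights** -/
theorem ring_exc (hw : w.im = -S33.hR w.re T) (hx : 30 / 100 ≤ w.re) (hx' : w.re ≤ 1 / 2)
    (hT : -(7 / 10000) ≤ T) (hT' : T ≤ 0) (hρ : 84 / 1000 ≤ ρ) (hρ' : ρ ≤ 895 / 10000)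
    (hσ : -(3 / 8) ≤ σ) (hσ' : σ ≤ 0) : S4 (T / (30 / 100)) w (LT.zt ρ σ) < -B1 w.re := by
  obtain ⟨h0, h1⟩ := hR_exc hT hT' hx (by linarith only [hx'] : w.re ≤ 60 / 100)
  have e2r : ((1 : ℂ) / 2).re = 1 / 2 := by norm_num
  have e2 : ((1 : ℂ) / 2).im = 0 := by norm_num
  have hρ0 : 0 < ρ := by linarith only [hρ]
  have aw : LL w = NumI.lnA w.re (S33.hR w.re T) := LL_w' hw
  rcases SR.zt_cases hρ0 (by linarith only [hσ] : -(1 / 2) < σ) hσ' with hz | hz
  · -- flat part
    generalize LT.zt ρ σ = ζ at hz ⊢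
    obtain ⟨a, ha⟩ : ∃ a : ℝ, a = -ζ.re := ⟨_, rfl⟩
    have ha0 : 0 ≤ a := by linarith only [ha, hz, hz.hi]
    have ha1 : a ≤ 1 / 4 := by linarith only [ha, hz, hz.lo]
    have eu : w + 1 / 2 + ζ = ⟨w.re + 1 / 2 - a, ρ - S33.hR w.re T⟩ := by
      apply Complex.ext
      · rw [Complex.add_re, Complex.add_re, e2r, ha]
        ring
      · rw [Complex.add_im, Complex.add_im, e2, hz.im, hw]
        ring
    have ev : w + 1 / 2 - ζ = ⟨w.re + 1 / 2 + a, -(S33.hR w.re T + ρ)⟩ := by
      apply Complex.ext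
      · rw [Complex.sub_re, Complex.add_re, e2r, ha]
        ring
      · rw [Complex.sub_im, Complex.add_im, e2, hz.im, hw]
        ring
    have hY := YY_exc (w := w) (u := w + 1 / 2 + ζ) (v := w + 1 / 2 - ζ) (by rw [hw]; linarith only [h1])
      hx' (by rw [eu]; show 0 < ρ - S33.hR w.re T; linarith only [h1, hρ0])
      (by rw [eu]; show 0 ≤ w.re + 1 / 2 - a; linarith only [hx, hρ', hρ0, ha1])
      (by rw [ev]; show -(S33.hR w.re T + ρ) < 0; linarith only [hρ, h0, hρ0])
      (by rw [ev]; show w.re + 1 / 2 + a ≤ 3 / 2; linarith only [hx', hρ', hρ0, ha1]) hT hT'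
    have key : ∀ A B : ℝ, LL (w + 1 / 2 + ζ) ≤ A → LL (w + 1 / 2 - ζ) ≤ B →
        0 < -(355 / 1000 - 6 / 10 * w.re + 11 / 1000 + (A + B -
          2 * NumI.lnA w.re (S33.hR w.re T))) → S4 (T / (30 / 100)) w ζ < -B1 w.re := by
      intro A B h2 h3 h4
      unfold S4 B1
      rw [aw]
      linarith only [hY, h2, h3, h4]
    have him : (w + 1 / 2 - ζ).im = -(S33.hR w.re T + ρ) := by rw [ev]
    have hre : (w + 1 / 2 - ζ).re = w.re + 1 / 2 + a := by rw [ev]
    have huI : (w + 1 / 2 + ζ).im = ρ - S33.hR w.re T := by rw [eu]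
    have huR : (w + 1 / 2 + ζ).re = w.re + 1 / 2 - a := by rw [eu]
    have au : LL (w + 1 / 2 + ζ) = NumI.lnA (w.re + 1 / 2 - a) (ρ - S33.hR w.re T) := by
      rw [S0R.LL_lnA', huI, huR]
    have hv1 : |w.re + 1 / 2 + a - 1| ≤ 1 / 10 →
        LL (w + 1 / 2 - ζ) ≤ NumI.lnA (1 / 10) (-(S33.hR w.re T + ρ)) := by
      intro h2
      have := LL_nearq (q := 1 / 10) (u := w + 1 / 2 - ζ) (by norm_num)
        (by rw [hre]; exact h2) (by rw [him]; intro h0; linarith)
      rw [him] at this
      exact this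
    rcases le_total (w.re + a) (4 / 10) with h2 | h2
    · obtain ⟨f, hf, hq⟩ := chkT4 k_EfA (by norm_num) (x := w.re) (y := T) (z := a) (w := ρ)
        (by push_cast; linarith only [hx]) (by push_cast; linarith only [ha0, h2]) (by push_cast; linarith only [hT])
        (by push_cast; linarith only [hT']) (by push_cast; linarith only [ha0]) (by push_cast; linarith only [hx, h2])
        (by push_cast; linarith only [hρ]) (by push_cast; linarith only [hρ'])
      simp only [List.mem_cons, List.not_mem_nil, or_false] at hf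
      rcases hf with rfl | rfl
      · rw [eEf_val] at hq
        simp only [E.val, eP_val, eU_val, eQ_val, eN_val] at hq
        exact key _ _ au.le (by rw [S0R.LL_lnA', him, hre]) hq
      · simp only [E.val, NumI.lkR] at hq
        push_cast at hq
        linarith only [h2, hq]
    rcases le_total (w.re + a) (6 / 10) with h3 | h3
    · rcases le_total (w.re - a) (4 / 10) with h4 | h4
      · obtain ⟨f, hf, hq⟩ := chkT4 k_EfB (by norm_num) (x := w.re) (y := T) (z := a) (w := ρ)
          (by push_cast; linarith only [hx]) (by push_cast; linarith only [hx']) (by push_cast; linarith only [hT])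
          (by push_cast; linarith only [hT']) (by push_cast; linarith only [ha0]) (by push_cast; linarith only [ha1])
          (by push_cast; linarith only [hρ]) (by push_cast; linarith only [hρ'])
        simp only [List.mem_cons, List.not_mem_nil, or_false] at hf
        rcases hf with rfl | rfl | rfl | rfl
        · rw [eEf_val] at hq
          simp only [E.val, eP_val, eU_val, eN_val] at hq
          push_cast at hq
          exact key _ _ au.le (hv1 (by rw [abs_le]; constructor <;> linarith only [h2, h3])) hq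
        · simp only [E.val, NumI.lkR] at hq
          push_cast at hq
          linarith only [h2, hq]
        · simp only [E.val, NumI.lkR] at hq
          push_cast at hq
          linarith only [h3, hq]
        · simp only [E.val, NumI.lkR] at hq
          push_cast at hq
          linarith only [h4, hq]
      · obtain ⟨f, hf, hq⟩ := chkT4 k_EfC (by norm_num) (x := w.re) (y := T) (z := a) (w := ρ)
          (by push_cast; linarith only [h2, h4]) (by push_cast; linarith only [hx']) (by push_cast; linarith only [hT])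
          (by push_cast; linarith only [hT']) (by push_cast; linarith only [ha0]) (by push_cast; linarith only [hx', h4])
          (by push_cast; linarith only [hρ]) (by push_cast; linarith only [hρ'])
        rw [List.mem_singleton] at hf
        rw [hf, eEf_val] at hq
        simp only [E.val, eU_val, eN_val] at hq
        push_cast at hq
        have hu1 := LL_nearq (q := 1 / 10) (u := w + 1 / 2 + ζ) (by norm_num)
          (by rw [huR, abs_le]; constructor <;> linarith only [h4, hx', ha0]) (by rw [huI]; intro h0; linarith only [h1, hρ0, h0])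
        rw [huI] at hu1
        exact key _ _ hu1 (hv1 (by rw [abs_le]; constructor <;> linarith only [h2, h3])) hq
    · obtain ⟨f, hf, hq⟩ := chkT4 k_EfD (by norm_num) (x := w.re) (y := T) (z := a) (w := ρ)
        (by push_cast; linarith only [ha1, h3]) (by push_cast; linarith only [hx']) (by push_cast; linarith only [hT])
        (by push_cast; linarith only [hT']) (by push_cast; linarith only [hx', h3]) (by push_cast; linarith only [ha1])
        (by push_cast; linarith only [hρ]) (by push_cast; linarith only [hρ'])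
      simp only [List.mem_cons, List.not_mem_nil, or_false] at hf
      rcases hf with rfl | rfl
      · rw [eEf_val] at hq
        simp only [E.val, eP_val, eU_val, eV_val, NumI.lkR] at hq
        push_cast at hq
        refine key _ _ au.le ?_ hq
        have e3 : w + 1 / 2 - ζ = ⟨w.re + a - 1 / 2, -(S33.hR w.re T + ρ)⟩ + 1 := by
          apply Complex.ext
          · rw [hre, Complex.add_re, Complex.one_re]
            ring
          · rw [him, Complex.add_im, Complex.one_im]
            ring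
        rw [e3, VN.LL_add_one, S0R.LL_lnA', NumI.lnA_neg]
      · simp only [E.val, NumI.lkR] at hq
        push_cast at hq
        linarith only [h3, hq]
  · -- ramp
    obtain ⟨s, hs⟩ : ∃ s : ℝ, s = σ + 1 / 2 := ⟨_, rfl⟩
    rw [← hs] at hz
    generalize LT.zt ρ σ = ζ at hz ⊢
    have hs0 : 1 / 8 ≤ s := by linarith only [hσ, hs]
    have hs1 := hz.hi
    have hy : 0 < 4 * (ρ * s) := by
      have : 0 < s := by linarith only [hσ, hs]
      positivity
    have hy' : 4 / 100 ≤ 4 * (ρ * s) := by nlinarith only [hρ, hσ, hs, hy]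
    have eu : w + 1 / 2 + ζ = ⟨w.re + s, 4 * (ρ * s) - S33.hR w.re T⟩ := by
      apply Complex.ext
      · rw [Complex.add_re, Complex.add_re, e2r, hz.re]
        ring
      · rw [Complex.add_im, Complex.add_im, e2, hz.im, hw]
        ring
    have ev : w + 1 / 2 - ζ = ⟨w.re - s, -(4 * (ρ * s) + S33.hR w.re T)⟩ + 1 := by
      apply Complex.ext
      · rw [Complex.sub_re, Complex.add_re, e2r, hz.re, Complex.add_re, Complex.one_re]
        ring
      · rw [Complex.sub_im, Complex.add_im, e2, hz.im, hw, Complex.add_im, Complex.one_im]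
        ring
    have hvI : (w + 1 / 2 - ζ).im = -(4 * (ρ * s) + S33.hR w.re T) := by
      rw [ev]
      simp
    have hvR : (w + 1 / 2 - ζ).re = w.re - s + 1 := by
      rw [ev]
      simp
    have hY := YY_exc (w := w) (u := w + 1 / 2 + ζ) (v := w + 1 / 2 - ζ) (by rw [hw]; linarith only [h1])
      hx' (by rw [eu]; show 0 < 4 * (ρ * s) - S33.hR w.re T; linarith only [h1, hy])
      (by rw [eu]; show 0 ≤ w.re + s; linarith only [hx, hσ, hs])
      (by rw [hvI]; linarith only [h0, hy, hy']) (by rw [hvR]; linarith only [hx', hσ, hs]) hT hT'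
    have a1 : LL (w + 1 / 2 + ζ) = NumI.lnA (w.re + s) (4 * (ρ * s) - S33.hR w.re T) := by
      rw [eu, S0R.LL_lnA']
    have a3 : LL (w + 1 / 2 - ζ) = NumI.lnA (w.re - s) (4 * (ρ * s) + S33.hR w.re T) := by
      rw [ev, VN.LL_add_one, S0R.LL_lnA', NumI.lnA_neg]
    obtain ⟨f, hf, hq⟩ := chkT4 k_Er (by norm_num) (x := w.re) (y := T) (z := s) (w := ρ)
      (by push_cast; linarith only [hx]) (by push_cast; linarith only [hx']) (by push_cast; linarith only [hT])
      (by push_cast; linarith only [hT']) (by push_cast; linarith only [hσ, hs]) (by push_cast; linarith only [hs1])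
      (by push_cast; linarith only [hρ]) (by push_cast; linarith only [hρ'])
    rw [List.mem_singleton] at hf
    rw [hf, eEr_val] at hq
    unfold S4 B1
    rw [aw]
    rw [a1, a3]
    linarith only [hY, hq]

/-! ### the side of the digit -/

private theorem r_fea {x T p t : ℝ} (ua1 : 3000 / 10000 ≤ x) (ua2 : x ≤ 3400 / 10000)
    (ua3 : -7 / 10000 ≤ T) (ua4 : T ≤ 0) (ua5 : 1000 / 10000 ≤ p) (ua6 : p ≤ 1300 / 10000)
    (ua7 : -1057 / 10000 ≤ t) (ua8 : t ≤ -150 / 10000) (ua9 : T - t ≤ 1050 / 10000)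
    (ua10 : x + p ≤ 43 / 100) : rS (10 / 3) x T p t < 355 / 1000 - 6 / 10 * x ∨
      rF (10 / 3) (1 / 2) (-98 / 10000) x T p t < 355 / 1000 - 6 / 10 * x := by
  obtain ⟨f, hf, hp⟩ := chkT4 k_fea (by norm_num) (x := x) (y := T) (z := p) (w := t)
    (by norm_num; linarith only [ua1]) (by norm_num; linarith only [ua2]) (by norm_num; linarith only [ua3])
    (by norm_num; linarith only [ua4]) (by norm_num; linarith only [ua5]) (by norm_num; linarith only [ua6])
    (by norm_num; linarith only [ua7]) (by norm_num; linarith only [ua8])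
  by_contra hc
  push Not at hc
  obtain ⟨hc0, hc1⟩ := hc
  simp only [List.mem_cons, List.not_mem_nil, or_false] at hf
  rcases hf with rfl | rfl | rfl | rfl <;>
  · simp only [S0R.EE.S_val, S0R.EE.F_val, S0R.EE.ui_val, S0R.EE.kT,
      S0R.EE.x, S0R.EE.T, S0R.EE.p, S0R.EE.t, S0R.EE.v, E.val, NumI.lkR, eB1_val] at hp
    push_cast at hp
    linarith only [hc0, hp, hc1, ua9, ua10]

private theorem r_feb {x T p t : ℝ} (ua1 : 3000 / 10000 ≤ x) (ua2 : x ≤ 3400 / 10000)
    (ua3 : -7 / 10000 ≤ T) (ua4 : T ≤ 0) (ua5 : 1000 / 10000 ≤ p) (ua6 : p ≤ 4300 / 10000)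
    (ua7 : -1057 / 10000 ≤ t) (ua8 : t ≤ -150 / 10000) (ua9 : T - t ≤ 1050 / 10000)
    (ua10 : 43 / 100 ≤ x + p) (ua11 : x + p ≤ 73 / 100) :
    rS (10 / 3) x T p t < 355 / 1000 - 6 / 10 * x ∨
      rF (10 / 3) (x + p + 7 / 100) (-98 / 10000) x T p t < 355 / 1000 - 6 / 10 * x := by
  obtain ⟨f, hf, hp⟩ := chkT4 k_feb (by norm_num) (x := x) (y := T) (z := p) (w := t)
    (by norm_num; linarith only [ua1]) (by norm_num; linarith only [ua2]) (by norm_num; linarith only [ua3])
    (by norm_num; linarith only [ua4]) (by norm_num; linarith only [ua5]) (by norm_num; linarith only [ua6])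
    (by norm_num; linarith only [ua7]) (by norm_num; linarith only [ua8])
  by_contra hc
  push Not at hc
  obtain ⟨hc0, hc1⟩ := hc
  simp only [List.mem_cons, List.not_mem_nil, or_false] at hf
  rcases hf with rfl | rfl | rfl | rfl | rfl <;>
  · simp only [S0R.EE.S_val, S0R.EE.F_val, S0R.EE.ui_val, S0R.EE.kT,
      S0R.EE.x, S0R.EE.T, S0R.EE.p, S0R.EE.t, S0R.EE.v, E.val, NumI.lkR, eB1_val] at hp
    push_cast at hp
    linarith only [hc0, hp, hc1, ua9, ua10, ua11]

private theorem r_fec {x T p t : ℝ} (ua1 : 3000 / 10000 ≤ x) (ua2 : x ≤ 3400 / 10000)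
    (ua3 : -7 / 10000 ≤ T) (ua4 : T ≤ 0) (ua5 : 3900 / 10000 ≤ p) (ua6 : p ≤ 4500 / 10000)
    (ua7 : -1057 / 10000 ≤ t) (ua8 : t ≤ -150 / 10000) (ua9 : T - t ≤ 1050 / 10000)
    (ua10 : 73 / 100 ≤ x + p) (ua11 : x + p ≤ 75 / 100) :
    rS (10 / 3) x T p t < 355 / 1000 - 6 / 10 * x ∨
      rF (10 / 3) (80 / 100) (-98 / 10000) x T p t < 355 / 1000 - 6 / 10 * x := by
  obtain ⟨f, hf, hp⟩ := chkT4 k_fec (by norm_num) (x := x) (y := T) (z := p) (w := t)
    (by norm_num; linarith only [ua1]) (by norm_num; linarith only [ua2]) (by norm_num; linarith only [ua3])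
    (by norm_num; linarith only [ua4]) (by norm_num; linarith only [ua5]) (by norm_num; linarith only [ua6])
    (by norm_num; linarith only [ua7]) (by norm_num; linarith only [ua8])
  by_contra hc
  push Not at hc
  obtain ⟨hc0, hc1⟩ := hc
  simp only [List.mem_cons, List.not_mem_nil, or_false] at hf
  rcases hf with rfl | rfl | rfl | rfl | rfl <;>
  · simp only [S0R.EE.S_val, S0R.EE.F_val, S0R.EE.ui_val, S0R.EE.kT,
      S0R.EE.x, S0R.EE.T, S0R.EE.p, S0R.EE.t, S0R.EE.v, E.val, NumI.lkR, eB1_val] at hp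
    push_cast at hp
    linarith only [hc0, hp, hc1, ua9, ua10, ua11]

theorem near_e {u v : ℂ} (hx : 30 / 100 ≤ u.re) (hx' : u.re ≤ 34 / 100)
    (hu : u.im = 10 / 3 * T * (6 / 10 - u.re)) (hT : -(7 / 10000) ≤ T) (hT' : T ≤ 0)
    (ht' : t ≤ -(15 / 1000)) (hs : T - t ≤ 105 / 1000) (hv : v.im = t)
    (hp : -(13 / 100) ≤ v.re - u.re) (hp' : v.re - u.re ≤ 13 / 100) (hr : SinNe (v - u)) :
    S3 1 (-(10 / 3 * T)) u v < B1 u.re := by
  have hrow : rN (10 / 3) (1300 / 10000) (Real.pi + NumI.lnB (1300 / 10000)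
      (t - rui (10 / 3) u.re T)) (u.re - 1300 / 10000) u.re T t < B1 u.re := by
    obtain ⟨f, hf, hq⟩ := chkT3 k_Nea (by norm_num) (x := u.re) (y := T) (z := t)
      (by norm_num; linarith only [hx]) (by norm_num; linarith only [hx']) (by norm_num; linarith only [hT])
      (by norm_num; linarith only [hT']) (by norm_num; linarith only [hT, hs]) (by norm_num; linarith only [ht'])
    rw [List.mem_singleton] at hf
    subst hf
    simp only [S0R.EE.N_val, S0R.EE.ui_val, S0R.EE.kT, S0R.EE.nyy, S0R.EE.x, S0R.EE.T,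
      S0R.EE.nt, E.val, NumI.lkR, eB1_val] at hq
    push_cast at hq
    unfold B1
    linarith only [hq]
  refine near_le (by norm_num) hT' hu (abs_le.2 ⟨by linarith only [hp], by linarith only [hp']⟩) (by norm_num)
    (by linarith only [hx]) (by linarith only [hx']) hv hr ?_ (by linarith only [hp]) hrow
  have := S0R.YY_le_lnB (u := v - u) (q := 1300 / 10000) (abs_le.2 ⟨by
    rw [Complex.sub_re]; linarith only [hp], by rw [Complex.sub_re]; linarith only [hp']⟩) (by norm_num) (by norm_num)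
  rwa [Complex.sub_im, hv, hu] at this

theorem far_e {u v : ℂ} (hx : 30 / 100 ≤ u.re) (hx' : u.re ≤ 34 / 100)
    (hu : u.im = 10 / 3 * T * (6 / 10 - u.re)) (hT : -(7 / 10000) ≤ T) (hT' : T ≤ 0)
    (hK : S0R.K1 T t w) (hv : v.im = t) (hp : 1 / 10 ≤ v.re - u.re)
    (hv' : v.re ≤ 75 / 100) (hS : 0 ≤ SM 0 u v w) (hr : SinNe (v + w)) :
    S3 1 (-(10 / 3 * T)) u v < B1 u.re := by
  have e : u.re + (v.re - u.re) = v.re := by ring
  unfold B1
  obtain ⟨g1, g2, g3⟩ := H_all (τ := -98 / 10000) hK hv hv' hr (by norm_num) (by norm_num)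
    (by norm_num)
  obtain ⟨a1, a2, a3, -, -, -, -, -⟩ := hK
  rcases le_total v.re (43 / 100) with h | h
  · exact far_core hu (by linarith only [hp]) (by linarith only [hx, hv']) (by linarith only [hx]) (by linarith only [hx']) hv hS g1
      (r_fea (by linarith only [hx]) (by linarith only [hx']) (by linarith only [hT]) hT' (by linarith only [hp]) (by linarith only [hx, h])
        (by linarith only [hT, a3]) (by linarith only [a2]) (by linarith only [a3]) (by linarith only [h]))
  rcases le_total v.re (73 / 100) with h' | h'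
  · have g := g2 h h'
    rw [← e] at g
    exact far_core hu (by linarith only [hp]) (by linarith only [hx, hv']) (by linarith only [hx]) (by linarith only [hx']) hv hS g
      (r_feb (by linarith only [hx]) (by linarith only [hx']) (by linarith only [hT]) hT' (by linarith only [hp]) (by linarith only [hx, h'])
        (by linarith only [hT, a3]) (by linarith only [a2]) (by linarith only [a3]) (by linarith only [h]) (by linarith only [h']))
  · exact far_core hu (by linarith only [hx', h']) (by linarith only [hx, hv']) (by linarith only [hx]) (by linarith only [hx']) hv hS (g3 h')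
      (r_fec (by linarith only [hx]) (by linarith only [hx']) (by linarith only [hT]) hT' (by linarith only [hx', h']) (by linarith only [hx, hv'])
        (by linarith only [hT, a3]) (by linarith only [a2]) (by linarith only [a3]) (by linarith only [h']) (by linarith only [hv']))

end SZ3

end VL

open S0R

namespace SR

variable {M : ℕ} {b : Fin (M + 1) → ℤ} {zs : DD (tyW b) ⊕ ZZ (tyW b) → ℂ}
variable {y : DD (tyW b) ⊕ ZZ (tyW b) → ℝ}
variable {h h' : Fin M} {i j k : Fin (M + 1)}

/-- **The side of a ring next to a `3`, exceptional heights**, any slot; `T` the height in the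
frame of the `3` -/
theorem ring_exc_side (hb : ClassW b) (hy : Mx b zs y) {p : Fin 3} (A : Adj h j p i)
    (hj : clsW b j = .ring) (hop : b i * b j < 0) (q1 : wXM b h = 60 / 100)
    (q2 : wcr b h = 30 / 100) (q3 : wcl b h ≤ 13 / 100) {ρ : ℝ} (N : RNs b zs y j ρ)
    (hρ : 84 / 1000 ≤ ρ) (hρ' : ρ ≤ 895 / 10000)
    (hT : -(7 / 10000) ≤ ofs (b i) (zs (.inl (.inl h))).im)
    (hT' : ofs (b i) (zs (.inl (.inl h))).im ≤ 0) (hx : 30 / 100 < y (.inl (.inl h)))
    (hx' : y (.inl (.inl h)) ≤ 1 / 2) :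
    Sw b zs y j p (slL b zs y h) < -VL.SZ3.B1 (y (.inl (.inl h))) := by
  have hre := A.re (b := b) (zs := zs) (y := y)
  have hTj : ofs (b j) (zs (.inl (.inl h))).im = -ofs (b i) (zs (.inl (.inl h))).im :=
    ofs_opp hop _
  have him : (Yw b zs y j p).im =
      -VL.S33.hR (Yw b zs y j p).re (ofs (b i) (zs (.inl (.inl h))).im) := by
    rw [A.h30l hy q1 q2 q3 hx.le, hTj]
    unfold V2A.h30 VL.S33.hR
    ring
  have hsl : ofs (b j) (slL b zs y h) = ofs (b i) (zs (.inl (.inl h))).im / (30 / 100) := by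
    rw [ofs_slL_ramp _ (by rw [q1, q2]; linarith only [hx]), q2, hTj]
    ring
  obtain ⟨σ, s1, s2, z⟩ := N.zt
  rw [A.side_ring hb hj, hsl, z, ← hre]
  exact VL.SZ3.ring_exc him (by rw [hre]; linarith only [hx]) (by rw [hre]; exact hx') hT hT' hρ hρ' s1 s2

/-- the side of the digit, exceptional heights, `x` in `(.30, .50]` -/
theorem z3_exc_own (hb : ClassW b) (hL : Loc b zs) (hX : LocX b zs) (hy : Mx b zs y)
    (hpos : ∀ h : Fin M, 0 < y (.inl (.inl h))) (A : Adj h i 0 j) (A' : Adj h' i 2 k)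
    (hi : clsW b i = .three) (hj : clsW b j = .ring) (hk : clsW b k = .one)
    (hT : -(7 / 10000) ≤ ofs (b i) (zs (.inl (.inl h))).im)
    (hT' : ofs (b i) (zs (.inl (.inl h))).im ≤ 0) (h7 : 7 / 100 ≤ y (.inl (.inl h')))
    (hc : y (.inl (.inl h')) ≤ 39 / 100)
    (hlo : 38 / 100 ≤ y (.inl (.inl h)) → y (.inl (.inl h)) - 13 / 100 < (OY b zs y i 1).re)
    (hx0 : 30 / 100 < y (.inl (.inl h))) (hx1 : y (.inl (.inl h)) ≤ 1 / 2) :
    Sw b zs y i 0 (slL b zs y h) < VL.SZ3.B1 (y (.inl (.inl h))) := by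
  have hc2 : y (.inl (.inl h')) ≤ cap2 (clsW b k) := by
    rw [hk]
    exact hc
  rcases le_total (34 / 100) (y (.inl (.inl h))) with h1 | h1
  · have h2 := s0r_three hb hL hX hy hpos A A' hi (Or.inr (Or.inr hj)) (fun _ => hlo) h7 hc2 hx0
      hx1
    unfold s0rB at h2
    unfold VL.SZ3.B1
    rw [if_neg (show ¬ clsW b j = .threeE by rw [hj]; decide)] at h2
    split_ifs at h2 <;> linarith
  have hj1 : clsW b j ≠ .one := by rw [hj]; decide
  have hj2 : clsW b j ≠ .twoE := by rw [hj]; decide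
  obtain ⟨q1, q2, q3⟩ := A.s0r_parZ hi hj
  have hre := A.re (b := b) (zs := zs) (y := y)
  obtain ⟨hK, hR, -⟩ := s0r_KW hb hL hX hy A A' hi hj1 hj2 h7 hc2
  have hv := rh_three hy hi
  obtain ⟨hu, hsl⟩ := A.s0r_ramp hy q1 q2 q3 hx0
  have hval := s0r_val hb hy hi
  obtain ⟨w1, w2, w3, w4⟩ := mid_window hX A A' hi
  rw [hj, hk] at w1 w2 w3 w4
  simp only [mw] at w1 w2 w3 w4
  obtain ⟨g1, g2, g3⟩ := A'.s0r_w1 hb hL hy hi hk h7 hc
  have K : S0R.K1 (ofs (b i) (zs (.inl (.inl h))).im) (tW zs (Or.inl hi)) (Yw b zs y i 2) :=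
    ⟨by linarith only [hi, hT, hx0, h1, w3], by linarith only [hi, w2], by linarith only [hi, w3], by rw [A'.re]; exact h7, by rw [A'.re]; exact hc, g1,
      g2, g3⟩
  have hlow : y (.inl (.inl h)) - 13 / 100 < (OY b zs y i 1).re := by
    by_contra hcon
    push Not at hcon
    obtain ⟨c, c0, c1, c2⟩ := low_z (by rw [hre]; exact hx0.le) (by rw [hre]; linarith only [hx0, h1]) hu
      (by linarith only [hT, hx0, h1]) (by linarith only [hT', hx0, h1]) hK hv (by rw [hre]; exact hcon)
    exact absurd (hval c c0 c1 ⟨c, tW zs (Or.inl hi)⟩ rfl rfl) (not_le.2 (c2 _ rfl rfl))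
  obtain ⟨m1, m2, r1, r2⟩ := s0r_mid hb hy hpos hi (by linarith only [hx0, h1, hlow])
  have hnr : ¬ 75 / 100 < (OY b zs y i 1).re := by
    intro h2
    refine no_ramp (s := 8 / 10 - (OY b zs y i 1).re) (by rw [hre]; linarith only [hx0])
      (by rw [hre]; exact hx1) ?_ hR (by ring) ?_ (by linarith only [hi, hv, hv.reM]) (by linarith only [h2]) (m2 h2)
      hval r1
    · rw [hu, hre, abs_le]
      constructor <;> nlinarith only [hT, hx0, h1, hx1, hT']
    · rw [V2A.mid_right hv h2.le]
      ring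
  push Not at hnr
  have hfl := V2A.mid_flat hv (by linarith only [hx0, h1, hlow]) hnr
  have hS := m1 (by linarith only [hx0, h1, hlow]) hnr
  rw [A.side_three_zero hb hi, ← OY_mid (Or.inl hi), hsl, ← hre]
  rcases le_total ((OY b zs y i 1).re - (Yw b zs y i 0).re) (1 / 10) with h2 | h2
  · exact VL.SZ3.near_e (by rw [hre]; exact hx0.le) (by rw [hre]; exact h1) hu hT hT' (by linarith only [hi, w2])
      (by linarith only [hi, w3]) hfl (by rw [hre]; linarith only [hlow]) (by linarith only [hx0, h1, h2]) r2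
  · exact VL.SZ3.far_e (by rw [hre]; exact hx0.le) (by rw [hre]; exact h1) hu hT hT' K hfl h2 hnr
      hS r1

/-- **`ring | 3` at slot `0`, the exceptional case.** `N`, `hρ`, `hρ'`: the ring variable; `hx1`
and `hlo` are `exc_s0_cap` and `exc_s0_low`. -/
theorem z3_exc30 (hb : ClassW b) (hL : Loc b zs) (hX : LocX b zs) (hy : Mx b zs y)
    (hpos : ∀ h : Fin M, 0 < y (.inl (.inl h))) (A : Adj h i 0 j) (A' : Adj h' i 2 k)
    (hi : clsW b i = .three) (hj : clsW b j = .ring) (hk : clsW b k = .one)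
    (hT : -(7 / 10000) ≤ ofs (b i) (zs (.inl (.inl h))).im)
    (hT' : ofs (b i) (zs (.inl (.inl h))).im ≤ 0) (h7 : 7 / 100 ≤ y (.inl (.inl h')))
    (hc : y (.inl (.inl h')) ≤ 39 / 100) {ρ : ℝ} (N : RNs b zs y j ρ) (hρ : 84 / 1000 ≤ ρ)
    (hρ' : ρ ≤ 895 / 10000)
    (hlo : 38 / 100 ≤ y (.inl (.inl h)) → y (.inl (.inl h)) - 13 / 100 < (OY b zs y i 1).re)
    (hx1 : y (.inl (.inl h)) ≤ 1 / 2) : y (.inl (.inl h)) ≤ 30 / 100 := by
  by_contra hcon
  push Not at hcon
  have hop := A.opp hb (Or.inl (by rw [hi]; decide))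
  obtain ⟨q1, q2, q3⟩ := A.s0r_parZ hi hj
  have s1 := z3_exc_own hb hL hX hy hpos A A' hi hj hk hT hT' h7 hc hlo hcon hx1
  have B : Adj h j 2 i := A.symm
  have s2 := ring_exc_side hb hy B hj hop q1 q2 q3 N hρ hρ' hT hT' hcon hx1
  exact rstep_false hb hy (hpos h) (RSide.of_sum A (by
    show _ + Sw b zs y j 2 (slL b zs y h) < 0
    linarith only [s1, s2]))

end SR

end Pool.Agent.Work.MP_b30479_gt.G2
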