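import Pool.Agent.Work.MP_b30479_gt.G2.VZ3Y
import Pool.Agent.Work.MP_b30479_gt.G2.WLocA
import Pool.Agent.Work.MP_b30479_gt.G2.VZ3S

/-!
# `ring | 3` at slot `0`: all cases
-/

namespace Pool.Agent.Work.MP_b30479_gt.G2

open Finset VOL Filter Topology

namespace SR

variable {M : ℕ} {b : Fin (M + 1) → ℤ} {zs : DD (tyW b) ⊕ ZZ (tyW b) → ℂ}
variable {y : DD (tyW b) ⊕ ZZ (tyW b) → ℝ}
variable {h h' : Fin M} {i j k : Fin (M + 1)} {p : Fin 3}

/-- the place of the ring variable, with its height -/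
theorem Adj.rns' (A : Adj h i p j) (hb : ClassW b) (hL : Loc b zs) (hX : LocX b zs)
    (hR : LocR b zs) (hy : Mx b zs y) (hc : clsW b i = .ring) (hx : y (.inl (.inl h)) ≤ 1 / 2)
    (H : ∀ {h' j'}, Adj h' i p.rev j' → y (.inl (.inl h')) ≤ 1 / 2) :
    ∃ v : ZZ (tyW b), v.1 = i ∧ RNs b zs y i (zs (.inr v)).im := by
  obtain ⟨v, hv, k', P⟩ := A.rpk hb hL hX hR hy hc
  have hge := P.rm.ge P.cap P.ok P.ok' (abs_lt.1 P.lt).1 (by rw [A.re]; exact hx) (A.other_half H)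
    P.cp P.cp'
  have h4 := P.rm.b4
  have h5 : 1 / (2 * (((b i).natAbs : ℕ) : ℝ)) ≤ 1 / 8 := by
    rw [div_le_div_iff₀ (by positivity) (by norm_num)]
    linarith only [h4]
  exact ⟨v, hv, P.rm.ρ0, P.cap.1, _, by linarith only [hge, h5], P.le, P.z⟩

/-- **`ring | 3` at slot `0`, the exception.** -/
theorem z3_exc (hb : ClassW b) (hL : Loc b zs) (hX : LocX b zs) (hR : LocR b zs)
    (hy : Mx b zs y) (hpos : ∀ h : Fin M, 0 < y (.inl (.inl h))) (A : Adj h i 0 j)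
    (A' : Adj h' i 2 k) (hi : clsW b i = .three) (hj : clsW b j = .ring)
    (E : Exc3 b zs h i j 0) (hT' : ofs (b i) (zs (.inl (.inl h))).im ≤ 0)
    (h7 : 7 / 100 ≤ y (.inl (.inl h'))) (hc : y (.inl (.inl h')) ≤ cap2 (clsW b k)) :
    y (.inl (.inl h)) ≤ 30 / 100 := by
  have hk : clsW b k = .one := E.one A'
  have hc' : y (.inl (.inl h')) ≤ 39 / 100 := by
    rw [hk] at hc
    exact hc
  have B : Adj h j 2 i := A.symm
  have hop := A.opp hb (Or.inl (by rw [hi]; decide))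
  have eo : ofs (b j) (zs (.inl (.inl h))).im = -ofs (b i) (zs (.inl (.inl h))).im := ofs_opp hop _
  have hT := E.lo
  have hx1 := A.exc_cap_zero hb hL hX hy hi hj E hT'
  obtain ⟨g, m, C, hm, -⟩ := E.nxt
  have hg : y (.inl (.inl g)) ≤ 27 / 100 := C.rr_cap hb hL hX hR hy hj hm
  obtain ⟨v, hv, N⟩ := B.rns' hb hL hX hR hy hj hx1 (fun {h1 j1} (B' : Adj h1 j 0 j1) => by
    rw [(B'.eq_of C).1]
    linarith only [hg])
  exact z3_exc30 hb hL hX hy hpos A A' hi hj hk hT hT' h7 hc' N (E.r0 v hv) (E.r1 v hv)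
    (fun h1 => exc_s0_low hb hL hX hy A A' hi hj hk hc' hT hT'
      (B.exc_dV hb hL hy hj hi (by linarith only [hT', eo]) (by linarith only [eo, hT]) (by linarith only [h1])) h1) hx1

/-- **`ring | 3` at slot `0`** (`R0`) -/
theorem s0_Z_of (hb : ClassW b) (H : LocA b zs) (hy : Mx b zs y)
    (hpos : ∀ h : Fin M, 0 < y (.inl (.inl h))) (A : Adj h i 0 j) (A' : Adj h' i 2 k)
    (hi : clsW b i = .three) (hj : clsW b j = .ring) (h7 : 7 / 100 ≤ y (.inl (.inl h')))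
    (hc : y (.inl (.inl h')) ≤ cap2 (clsW b k)) : y (.inl (.inl h)) ≤ 40 / 100 := by
  rcases le_or_gt 0 (ofs (b i) (zs (.inl (.inl h))).im) with hT | hT
  · exact cap_ring_three0a hb H.L H.X H.R hy hpos A A' hi hj hT h7 hc
  · rcases H.R.three A hi hj with hT' | E
    · exact absurd hT' (not_le.2 hT)
    · exact (z3_exc hb H.L H.X H.R hy hpos A A' hi hj E hT.le h7 hc).trans (by norm_num)

/-- **`ring | 3` at slot `0`** (`R1`): the other hinge of the ring is `≤ 1/2` -/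
theorem s0_Z'_of (hb : ClassW b) (H : LocA b zs) (hy : Mx b zs y)
    (hpos : ∀ h : Fin M, 0 < y (.inl (.inl h))) (A : Adj h i 0 j) (A' : Adj h' i 2 k)
    (hi : clsW b i = .three) (hj : clsW b j = .ring) (h7 : 7 / 100 ≤ y (.inl (.inl h')))
    (hc : y (.inl (.inl h')) ≤ cap2 (clsW b k))
    (hH : ∀ {h1 j1}, Adj h1 j 0 j1 → y (.inl (.inl h1)) ≤ 1 / 2) :
    y (.inl (.inl h)) ≤ 30 / 100 := by
  rcases le_or_gt 0 (ofs (b i) (zs (.inl (.inl h))).im) with hT | hT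
  · exact cap_ring_three0 hb H.L H.X H.R hy hpos A A' hi hj hT h7 hc hH
  · rcases H.R.three A hi hj with hT' | E
    · exact absurd hT' (not_le.2 hT)
    · exact z3_exc hb H.L H.X H.R hy hpos A A' hi hj E hT.le h7 hc

/-- `3 | ring` at slot `2`: the case `T < 0` -/
theorem c3Z_of (hb : ClassW b) (H : LocA b zs) (hy : Mx b zs y) (A : Adj h i 2 k)
    (hi : clsW b i = .three) (hk : clsW b k = .ring)
    (hT : ofs (b i) (zs (.inl (.inl h))).im < 0) : y (.inl (.inl h)) ≤ 30 / 100 := by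
  rcases H.R.three A hi hk with hT' | E
  · exact absurd hT' (not_le.2 hT)
  · exact A.exc_cap_two hb H.L H.X hy hi hk hT.le E.lo

end SR

end Pool.Agent.Work.MP_b30479_gt.G2
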