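import Pool.Agent.Work.MP_b30479_gt.G2.WRngZ
import Pool.Agent.Work.MP_b30479_gt.G2.CF3D
import Pool.Agent.Work.MP_b30479_gt.G2.CF3E
import Pool.Agent.Work.MP_b30479_gt.G2.MQF
import Pool.Agent.Work.MP_b30479_gt.G2.LRCE

/-!
# Floors of `1 | ring` and `2 | ring` at a hinge `1 | 2` in `[.495, .51]`

The third round of the caps of `1 | 2` (`SR.cap12c`) uses these floors: `cf3_one` is its hypothesis
`hZ1`, `cf3_two` its hypothesis `h2Z`.
-/

set_option linter.unusedSimpArgs false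

namespace Pool.Agent.Work.MP_b30479_gt.G2

open Finset VOL Filter Topology

namespace SR

variable {M : ℕ} {b : Fin (M + 1) → ℤ} {zs : DD (tyW b) ⊕ ZZ (tyW b) → ℂ}
variable {y : DD (tyW b) ⊕ ZZ (tyW b) → ℝ}
variable {h h' h2 : Fin M} {i j j' j2 : Fin (M + 1)} {p : Fin 3}

/-- the height on the flat part -/
theorem cf3_im (A : Adj h i p j) (hy : Mx b zs y) (h0 : wcl b h ≤ y (.inl (.inl h)))
    (h1 : y (.inl (.inl h)) ≤ wXM b h - wcr b h) :
    (Yw b zs y i p).im = ofs (b i) (zs (.inl (.inl h))).im := by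
  rw [(A.rh hy).im, A.re, tr_b (wcl_pos h) (wcr_pos h) h0 h1, mul_one]

/-- parameters of the path of a hinge `1 | 2` -/
theorem cf3_par12 (A : Adj h i p j) (hi : clsW b i = .one) (hj : clsW b j = .two) :
    wcl b h = 16 / 100 ∧ wcr b h = 29 / 100 ∧ wXM b h = 80 / 100 := by
  have hpar : ∀ P Q, SR.hpp p P .one .two Q = ⟨80 / 100, 16 / 100, 29 / 100⟩ := by
    intro P Q
    unfold SR.hpp hp hp1
    split_ifs <;> rfl
  exact ⟨by rw [A.cl_eq b, hi, hj, hpar], by rw [A.cr_eq b, hi, hj, hpar],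
    by rw [A.XM_eq b, hi, hj, hpar]⟩

theorem cf3_par1Z (A : Adj h i p j) (hi : clsW b i = .one) (hj : clsW b j = .ring) :
    wcl b h = 16 / 100 := by
  have hpar : ∀ P Q, (SR.hpp p P .one .ring Q).cl = 16 / 100 := by
    intro P Q
    unfold SR.hpp hp hp1
    split_ifs <;> rfl
  rw [A.cl_eq b, hi, hj, hpar]

/-- the ring of a hinge: the place of its variable -/
theorem cf3_place (A : Adj h i p j) (hb : ClassW b) (hL : Loc b zs) (hX : LocX b zs)
    (hR : LocR b zs) (hy : Mx b zs y) (hc : clsW b i = .ring) (hx : y (.inl (.inl h)) ≤ 1 / 4)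
    (hZ : ∀ {h1 : Fin M} {j1 : Fin (M + 1)}, Adj h1 i p.rev j1 → y (.inl (.inl h1)) ≤ 38 / 100) :
    ∃ ρ σ : ℝ, 4 ≤ ((b i).natAbs : ℝ) ∧ RCap ((b i).natAbs : ℝ) ρ ∧
      CF3.Pl ((b i).natAbs : ℝ) ρ (Yw b zs y i p) σ ∧ Zw b zs y i = LT.zt ρ σ := by
  obtain ⟨v, rfl, k', P⟩ := A.rpk hb hL hX hR hy hc
  have hw' : (Yw b zs y v.1 p.rev).re ≤ 38 / 100 := by
    rcases A.other b zs y with ⟨-, h0⟩ | ⟨-, h', j', A'⟩
    · rw [h0]
      norm_num
    · rw [A'.re]
      exact hZ A'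
  have h4 : 4 ≤ (b v.1).natAbs := by exact_mod_cast P.rm.b4
  exact ⟨_, _, P.rm.b4, P.cap, CF3.place P.rm P.cap (CF3.rcap_sq h4 P.rm.ρ0.le P.cap) P.ok P.ok'
    P.lt P.le (by rw [A.re]; exact hx) (fun _ => hw') (hw'.trans (by norm_num)) P.cp P.cp', P.z⟩

/-- **Floor of `1 | ring` at a hinge `1 | 2` in `[.495, .51]`.** -/
theorem cf3_one (hb : ClassW b) (hL : Loc b zs) (hX : LocX b zs) (hR : LocR b zs)
    (hy : Mx b zs y) (A : Adj h i p j) (A' : Adj h' i p.rev j') (hi : clsW b i = .one)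
    (hj : clsW b j = .two) (hj' : clsW b j' = .ring)
    (hfl : wcl b h' ≤ y (.inl (.inl h')))
    (hZ : ∀ {h1 : Fin M} {j1 : Fin (M + 1)}, Adj h1 j' p.rev j1 → y (.inl (.inl h1)) ≤ 38 / 100)
    (h495 : 495 / 1000 ≤ y (.inl (.inl h))) (h51 : y (.inl (.inl h)) ≤ 51 / 100) :
    182 / 1000 + 3 / 10 * ofs (b i) (zs (.inl (.inl h))).im +
      2 / 10 * ofs (b i) (zs (.inl (.inl h'))).im ≤ y (.inl (.inl h')) := by
  by_contra hcon
  have hlt := not_le.1 hcon
  have hpp : p.rev.rev = p := Fin.rev_rev p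
  have A2 : Adj h i p.rev.rev j := by rw [hpp]; exact A
  obtain ⟨a0, a1, a2, a3⟩ := hX.win A A' hi
  obtain ⟨b0, b1, -, -⟩ := hX.win A' A2 hi
  rw [hj, hj'] at a0 a1 a2 a3 b0 b1
  simp only [cw] at a0 a1 a2 a3 b0 b1
  obtain ⟨c1, c2, c3⟩ := cf3_par12 (b := b) A hi hj
  have c4 := cf3_par1Z (b := b) A' hi hj'
  have c5 := A'.fe_low hi
  have hop := A'.opp hb (Or.inl (by rw [hi]; decide))
  set x := y (.inl (.inl h')) with hx
  set X := y (.inl (.inl h)) with hXd
  set T := ofs (b i) (zs (.inl (.inl h'))).im with hT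
  set K := ofs (b i) (zs (.inl (.inl h))).im with hK
  have x0 : 16 / 100 ≤ x := by rw [c4] at hfl; exact hfl
  have x1 : x ≤ 228 / 1000 := by linarith only [a1, a3, hcon]
  have him := cf3_im A hy (by rw [c1]; linarith only [h495]) (by rw [c2, c3]; linarith only [h51])
  have him' := cf3_im A' hy hfl (by linarith only [c5, b1, a1, hcon])
  have hre := A.re (zs := zs) (y := y)
  have hre' := A'.re (zs := zs) (y := y)
  have hc := A'.conj (zs := zs) (y := y) hop
  have e1 : Sw b zs y i p.rev 0 = MR.s1 0 x T X K := by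
    rw [A'.side_one hb hi, hpp, ofs_zero', MR.S1_eq, him', hre', him, hre]
    · constructor <;> rw [hre'] <;> linarith only [c4, hfl, b1, a1, hcon]
    · constructor <;> rw [Complex.add_re, hre, hre'] <;> linarith only [c4, hfl, h495, h51, b1, a1, hcon]
  have hw1 : (Yw b zs y j' p).re = x := by
    rw [hpp] at hc
    rw [hc, Complex.conj_re, hre']
  have hw2 : (Yw b zs y j' p).im = -T := by
    rw [hpp] at hc
    rw [hc, Complex.conj_im, him']
  have B : Adj h' j' p i := by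
    have := A'.symm
    rwa [hpp] at this
  obtain ⟨ρ, σ, h4, hcp, hP, hz⟩ := cf3_place B hb hL hX hR hy hj' (by rw [← hx]; linarith only [b1, a1, hcon]) hZ
  have e2 : CF3.eA x T ≤ Sw b zs y j' p 0 := by
    rw [B.side_ring hb hj', ofs_zero', hz]
    refine CF3.sideA hP h4 hcp hw1 hw2 x0 x1 (by linarith only [b0]) (by linarith only [b1]) fun h5 => ?_
    have h6 : (b j').natAbs < 5 := by exact_mod_cast h5
    have h7 : 4 ≤ (b j').natAbs := by exact_mod_cast h4
    exact hX.one4 A' hi hj' (by omega)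
  have e3 := CF3.rowA (x := x) (T := T) (K := K) (X := X) x0 (by linarith only [hcon]) (by linarith only [b0])
    (by linarith only [b1]) (by linarith only [a0]) (by linarith only [a1]) (by linarith only [a2]) (by linarith only [a3]) h495 h51
  refine A'.flat_left hy hfl (by linarith only [c5, b1, a1, hcon]) ?_
  rw [e1, hpp]
  unfold MR.s1
  linarith only [e2, e3]

/-- **Floors of `2 | ring` at a hinge `1 | 2` in `[.495, .51]`.** -/
theorem cf3_two (hb : ClassW b) (hL : Loc b zs) (hX : LocX b zs) (hR : LocR b zs)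
    (hy : Mx b zs y) (A : Adj h i p j) (B : Adj h2 j p j2) (hi : clsW b i = .one)
    (hj : clsW b j = .two) (hj2 : clsW b j2 = .ring)
    (hfl : wcl b h2 ≤ y (.inl (.inl h2)))
    (hZ : ∀ {h1 : Fin M} {j1 : Fin (M + 1)}, Adj h1 j2 p j1 → y (.inl (.inl h1)) ≤ 38 / 100)
    (h495 : 495 / 1000 ≤ y (.inl (.inl h))) (h51 : y (.inl (.inl h)) ≤ 51 / 100) :
    155 / 1000 ≤ y (.inl (.inl h2)) ∧
      (ofs (b i) (zs (.inl (.inl h))).im ≤ 80 / 1000 →
        ofs (b j) (zs (.inl (.inl h2))).im ≤ 75 / 1000 → 165 / 1000 ≤ y (.inl (.inl h2))) := by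
  have hpp : p.rev.rev = p := Fin.rev_rev p
  have hop := A.opp hb (Or.inl (by rw [hi]; decide))
  obtain ⟨-, -, a0, a1⟩ := A.box hb hL
  rw [hi, hj, A.ss hop] at a0 a1
  have hopB := B.opp hb (Or.inl (by rw [hj]; decide))
  obtain ⟨-, -, b0, b1⟩ := B.box hb hL
  rw [hj, hj2, B.ss hopB] at b0 b1
  simp only [hbox] at a0 a1 b0 b1
  obtain ⟨c1, c2, c3⟩ := cf3_par12 (b := b) A hi hj
  obtain ⟨c4, c5, c6⟩ := B.par_two_ring (b := b) (Or.inl hj) hj2
  set x := y (.inl (.inl h2)) with hx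
  set X := y (.inl (.inl h)) with hXd
  set T := ofs (b j) (zs (.inl (.inl h2))).im with hT
  set K := ofs (b i) (zs (.inl (.inl h))).im with hK
  have x0 : 125 / 1000 ≤ x := by rw [c6] at hfl; exact hfl
  have A1 := A.symm
  have hKj : ofs (b j) (zs (.inl (.inl h))).im = -K := by rw [ofs_opp hop]
  have him := cf3_im A1 hy (by rw [c1]; linarith only [h495]) (by rw [c2, c3]; linarith only [h51])
  rw [hKj] at him
  have hre := A1.re (zs := zs) (y := y)
  have hre' := B.re (zs := zs) (y := y)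
  have hc := B.conj (zs := zs) (y := y) hopB
  -- both sides
  have key : x ≤ 165 / 1000 →
      (0 < NumI.lnA (x + X) (T - K) - (Real.pi * (K + T) + (NumI.lnA x T + NumI.lnA x T)) + 35 / 100 ∧
        x ≤ 145 / 1000 ∨
      0 < NumI.lnA (x + X) (T - K) - (Real.pi * (K + T) + (NumI.lnA x T + NumI.lnA x T)) + CF3.eB x T ∧
        145 / 1000 ≤ x) → False := by
    intro x1 hrow
    have him' := cf3_im B hy hfl (by rw [c4, c5]; linarith only [x1])
    have e1 : Sw b zs y j p 0 = MR.s2 0 x T X (-K) := by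
      rw [B.side_two hb (Or.inl hj), ofs_zero', MR.S2_eq, him', hre', him, hre]
      · constructor <;> rw [hre'] <;> linarith only [c6, hfl, x1]
      · constructor <;> rw [Complex.add_re, hre, hre'] <;> linarith only [c6, hfl, h495, h51, x1]
    have hw1 : (Yw b zs y j2 p.rev).re = x := by rw [hc, Complex.conj_re, hre']
    have hw2 : (Yw b zs y j2 p.rev).im = -T := by rw [hc, Complex.conj_im, him']
    obtain ⟨ρ, σ, h4, hcp, hP, hz⟩ := cf3_place B.symm hb hL hX hR hy hj2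
      (by rw [← hx]; linarith only [x1]) (by rw [hpp]; exact hZ)
    have e2 : Sw b zs y j2 p.rev 0 = S4 0 (Yw b zs y j2 p.rev) (LT.zt ρ σ) := by
      rw [B.symm.side_ring hb hj2, ofs_zero', hz]
    refine B.flat_left hy hfl (by rw [c4, c5]; linarith only [x1]) ?_
    rw [e1, e2]
    unfold MR.s2
    rw [show T + -K = T - K by ring]
    rcases hrow with ⟨h1, h2⟩ | ⟨h1, h2⟩
    · have := CF3.sideB1 hP h4 hcp hw1 hw2 x0 h2 b0 b1
      linarith only [h1, this]
    · have := CF3.sideB2 hP h4 hcp hw1 hw2 h2 x1 b0 b1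
      linarith only [h1, this]
  have m1 : ¬ x ≤ 145 / 1000 := fun h1 => key (by linarith only [h1]) (Or.inl
    ⟨CF3.rowB1 x0 h1 b0 b1 a0 a1 h495 h51, h1⟩)
  have m2 : 155 / 1000 ≤ x := by
    by_contra hcon
    have h1 := not_le.1 hcon
    exact key (by linarith only [hcon]) (Or.inr ⟨CF3.rowB2 (not_le.1 m1).le h1.le b0 b1 a0 a1 h495 h51,
      (not_le.1 m1).le⟩)
  refine ⟨m2, fun hK8 hT7 => ?_⟩
  by_contra hcon
  have h1 := not_le.1 hcon
  exact key h1.le (Or.inr ⟨CF3.rowB3 m2 h1.le b0 hT7 a0 hK8 h495 h51, by linarith only [m2]⟩)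

end SR

end Pool.Agent.Work.MP_b30479_gt.G2
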