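import Pool.Agent.Work.MP_b30479_gt.G2.C12S
import Pool.Agent.Work.MP_b30479_gt.G2.WCap12
import Pool.Agent.Work.MP_b30479_gt.G2.MQF

/-!
# The hinge `1 | 2`: the caps `.51` (ramp) and `.495` (flat part)
-/

set_option linter.unusedSimpArgs false

namespace Pool.Agent.Work.MP_b30479_gt.G2

open Finset VOL Filter Topology NumU

namespace C12

section
open NumI NumI.E

theorem kr_12_2 : MR.Kr (12 / 100) (2 / 10) (45 / 100) := by
  have h : chk [sub (exp (q 90 100)) (sub (mul (q 2 1) (cosh (mul pi (q 4 10))))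
      (mul (q 2 1) (cosPi (q 24 100))))] 1 [V.of 1 0 0] = true := by decide +kernel
  have hp := pos_of_chk (chk1 h (by norm_num) (x := 0) (by norm_num) (by norm_num))
  unfold MR.Kr
  simp only [NumI.E.val] at hp
  norm_num at hp ⊢
  linarith only [hp]

end

theorem YY_np {u : ℂ} (h1 : 1 / 2 ≤ u.re) (h : u.im ≤ 0) : YY u ≤ 0 := by
  rcases h.lt_or_eq with h | h
  · rw [YY_neg h]
    have := Tr_mono (s := -u.im) (by linarith only [h]) h1
    rw [Tr_half (by linarith only [h])] at this
    linarith only [this]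
  · rw [YY_zero h]

theorem S2_r {w v : ℂ} {m r c : ℝ} (hw0 : 0 < w.re) (hw : w.re < 1)
    (hL : LL (w + v) ≤ c) (hY : m * YY (w + v) ≤ m * (r * Real.pi)) :
    S2 1 m w v ≤ MR.n2 c r m w.re w.im v.re v.im := by
  unfold S2 MR.n2
  rw [Num.LL_lnA ⟨hw0, hw⟩, Num.YY_lnB ⟨hw0, hw⟩]
  linarith only [hL, hY]

/-- the other hinge of the digit `2` if the other neighbour is not a `1`; `a`, `c`: floor and
height if it is a ring -/
structure Q2 (a c : ℝ) (x' t' : ℝ) : Prop where
  x1 : x' ≤ 36 / 100
  t0 : -(85 / 1000) ≤ t'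
  h : (10 / 100 ≤ x' ∧ t' ≤ 41 / 1000) ∨ (12 / 100 ≤ x' ∧ t' ≤ 57 / 1000) ∨ (a ≤ x' ∧ t' ≤ c)

/-- the other hinge of the digit `2` if the other neighbour is a `1` -/
structure Q21 (x' t' : ℝ) : Prop where
  x0 : 16 / 100 ≤ x'
  x1 : x' ≤ 56 / 100
  t0 : -(985 / 10000) ≤ t'
  t1 : t' ≤ 18 / 1000

theorem s2_rP {x T x' t' : ℝ} (h0 : 51 / 100 ≤ x) (h1 : x ≤ 56 / 100) (T0 : -(18 / 1000) ≤ T)
    (T1 : T ≤ 985 / 10000) (Q : Q2 (125 / 1000) (96 / 1000) x' t') :
    MR.s2 (-mm T) x (-tt T x) x' t' < -(3965 / 10000 + 76 / 10 * T) := by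
  obtain ⟨x1, t0, h⟩ := Q
  have ex0 : 10 / 100 ≤ x' := by rcases h with ⟨h, -⟩ | ⟨h, -⟩ | ⟨h, -⟩ <;> linarith only [h]
  have et : t' ≤ 96 / 1000 := by rcases h with ⟨-, h⟩ | ⟨-, h⟩ | ⟨-, h⟩ <;> linarith only [h]
  rcases le_total x' (125 / 1000) with hx | hx
  · by_cases ht : t' ≤ 57 / 1000
    · have := rP2a (x := x) (T := T) (s := x') (k := t') (by linarith only [h0]) (by linarith only [h1]) (by linarith only [T0])
        (by linarith only [T1]) (by linarith only [ex0]) (by linarith only [hx]) (by linarith only [t0]) (by linarith only [ht])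
      linarith only [this]
    · have hx' : 125 / 1000 ≤ x' := by
        rcases h with ⟨-, h⟩ | ⟨-, h⟩ | ⟨h, -⟩ <;> linarith only [ht, h]
      have := rP2b (x := x) (T := T) (s := x') (k := t') (by linarith only [h0]) (by linarith only [h1]) (by linarith only [T0])
        (by linarith only [T1]) (by linarith only [hx']) (by linarith only [hx]) (by linarith only [ht]) (by linarith only [et])
      linarith only [this]
  · have := rP2b (x := x) (T := T) (s := x') (k := t') (by linarith only [h0]) (by linarith only [h1]) (by linarith only [T0])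
      (by linarith only [T1]) (by linarith only [hx]) (by linarith only [x1]) (by linarith only [t0]) (by linarith only [et])
    linarith only [this]

theorem s2_rZ {x T x' t' : ℝ} (h0 : 51 / 100 ≤ x) (h1 : x ≤ 56 / 100) (T0 : -(8 / 1000) ≤ T)
    (T1 : T ≤ 80 / 1000) (Q : Q2 (125 / 1000) (60 / 1000) x' t') :
    MR.s2 (-mm T) x (-tt T x) x' t' < -(536 / 1000 + 77 / 10 * T) := by
  obtain ⟨x1, t0, h⟩ := Q
  have ex0 : 10 / 100 ≤ x' := by rcases h with ⟨h, -⟩ | ⟨h, -⟩ | ⟨h, -⟩ <;> linarith only [h]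
  have et : t' ≤ 60 / 1000 := by rcases h with ⟨-, h⟩ | ⟨-, h⟩ | ⟨-, h⟩ <;> linarith only [h]
  by_cases hx : 120 / 1000 ≤ x'
  · have := rZ2b (x := x) (T := T) (s := x') (k := t') (by linarith only [h0]) (by linarith only [h1]) (by linarith only [T0])
      (by linarith only [T1]) (by linarith only [hx]) (by linarith only [x1]) (by linarith only [t0]) (by linarith only [et])
    linarith only [this]
  · have ht : t' ≤ 41 / 1000 := by
      rcases h with ⟨-, h⟩ | ⟨h, -⟩ | ⟨h, -⟩ <;> linarith only [h, hx, ex0]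
    have := rZ2a (x := x) (T := T) (s := x') (k := t') (by linarith only [h0]) (by linarith only [h1]) (by linarith only [T0])
      (by linarith only [T1]) (by linarith only [ex0]) (by linarith only [hx]) (by linarith only [t0]) (by linarith only [ht])
    linarith only [this]

theorem s2_fP {x T x' t' : ℝ} (h0 : 495 / 1000 ≤ x) (h1 : x ≤ 51 / 100) (T0 : -(18 / 1000) ≤ T)
    (T1 : T ≤ 985 / 10000) (Q : Q2 (155 / 1000) (96 / 1000) x' t') :
    MR.s2 0 x (-T) x' t' < -(419 / 1000 - 3 / 2 * T) := by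
  obtain ⟨x1, t0, h⟩ := Q
  have ex0 : 10 / 100 ≤ x' := by rcases h with ⟨h, -⟩ | ⟨h, -⟩ | ⟨h, -⟩ <;> linarith only [h]
  have et : t' ≤ 96 / 1000 := by rcases h with ⟨-, h⟩ | ⟨-, h⟩ | ⟨-, h⟩ <;> linarith only [h]
  by_cases hx : 155 / 1000 ≤ x'
  · have := fP2b (x := x) (T := T) (s := x') (k := t') (by linarith only [h0]) (by linarith only [h1]) (by linarith only [T0])
      (by linarith only [T1]) (by linarith only [hx]) (by linarith only [x1]) (by linarith only [t0]) (by linarith only [et])
    linarith only [this]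
  · have ht : t' ≤ 57 / 1000 := by
      rcases h with ⟨-, h⟩ | ⟨-, h⟩ | ⟨h, -⟩ <;> linarith only [h, hx]
    have := fP2a (x := x) (T := T) (s := x') (k := t') (by linarith only [h0]) (by linarith only [h1]) (by linarith only [T0])
      (by linarith only [T1]) (by linarith only [ex0]) (by linarith only [hx]) (by linarith only [t0]) (by linarith only [ht])
    linarith only [this]

theorem s2_fZ {x T x' t' : ℝ} (h0 : 495 / 1000 ≤ x) (h1 : x ≤ 51 / 100) (T0 : -(8 / 1000) ≤ T)
    (T1 : T ≤ 80 / 1000) (Q : Q2 (165 / 1000) (60 / 1000) x' t') :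
    MR.s2 0 x (-T) x' t' < -(535 / 1000 - 2 * T) := by
  obtain ⟨x1, t0, h⟩ := Q
  have ex0 : 10 / 100 ≤ x' := by rcases h with ⟨h, -⟩ | ⟨h, -⟩ | ⟨h, -⟩ <;> linarith only [h]
  have et : t' ≤ 60 / 1000 := by rcases h with ⟨-, h⟩ | ⟨-, h⟩ | ⟨-, h⟩ <;> linarith only [h]
  by_cases hx : 165 / 1000 ≤ x'
  · have := fZ2c (x := x) (T := T) (s := x') (k := t') (by linarith only [h0]) (by linarith only [h1]) (by linarith only [T0])
      (by linarith only [T1]) (by linarith only [hx]) (by linarith only [x1]) (by linarith only [t0]) (by linarith only [et])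
    linarith only [this]
  · have ht : t' ≤ 57 / 1000 := by
      rcases h with ⟨-, h⟩ | ⟨-, h⟩ | ⟨h, -⟩ <;> linarith only [h, hx]
    by_cases hx' : 120 / 1000 ≤ x'
    · have := fZ2b (x := x) (T := T) (s := x') (k := t') (by linarith only [h0]) (by linarith only [h1]) (by linarith only [T0])
        (by linarith only [T1]) (by linarith only [hx']) (by linarith only [hx]) (by linarith only [t0]) (by linarith only [ht])
      linarith only [this]
    · have ht : t' ≤ 41 / 1000 := by
        rcases h with ⟨-, h⟩ | ⟨h, -⟩ | ⟨h, -⟩ <;> linarith only [h, hx', ex0]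
      have := fZ2a (x := x) (T := T) (s := x') (k := t') (by linarith only [h0]) (by linarith only [h1]) (by linarith only [T0])
        (by linarith only [T1]) (by linarith only [ex0]) (by linarith only [hx']) (by linarith only [t0]) (by linarith only [ht])
      linarith only [this]

theorem tt_bd {x T : ℝ} (h0 : 51 / 100 ≤ x) (h1 : x ≤ 56 / 100) :
    (T ≤ 0 → T ≤ tt T x ∧ tt T x ≤ 0) ∧ (0 ≤ T → 0 ≤ tt T x ∧ tt T x ≤ T) := by
  have b1 : 0 ≤ 100 / 29 * (8 / 10 - x) := by linarith only [h1]
  have b2 : 100 / 29 * (8 / 10 - x) ≤ 1 := by linarith only [h0]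
  unfold tt
  refine ⟨fun h => ⟨by nlinarith only [h0, h], by nlinarith only [h, h1]⟩, fun h => ⟨by nlinarith only [h, h1], by nlinarith only [h0, h]⟩⟩

/-- `1 2 1`: the side of the digit `2` on the ramp -/
theorem S2_r1 {T : ℝ} {w v : ℂ} (T0 : -(18 / 1000) ≤ T) (T1 : T ≤ 985 / 10000)
    (h0 : 51 / 100 ≤ w.re) (h1 : w.re ≤ 56 / 100) (him : w.im = -tt T w.re)
    (Q : Q21 v.re v.im) : S2 1 (-mm T) w v < -(536 / 1000 + 77 / 10 * T) := by
  obtain ⟨x0, x1, t0, t1⟩ := Q
  have hw0 : 0 < w.re := by linarith only [h0]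
  have hw1 : w.re < 1 := by linarith only [h1, hw0]
  obtain ⟨e1, e2⟩ := tt_bd (T := T) h0 h1
  rcases le_total (w.re + v.re) (94 / 100) with hu | hu
  · rw [MR.S2_eq, him]
    · have := r12a (x := w.re) (T := T) (s := v.re) (k := v.im) (by linarith only [h0]) (by linarith only [h1])
        (by linarith only [T0]) (by linarith only [T1]) (by linarith only [x0]) (by linarith only [h0, hu]) (by linarith only [t0]) (by linarith only [t1])
        (by linarith only [hu])
      linarith only [this]
    · constructor <;> linarith only [h0, hw1]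
    · constructor <;> rw [Complex.add_re] <;> linarith only [h0, x0, hw1, hu]
  · have hre : |(w + v).re - 1| ≤ 12 / 100 := by
      rw [Complex.add_re, abs_le]; constructor <;> linarith only [hu, h1, x1]
    have hY : |YY (w + v)| ≤ Real.pi :=
      MR.YY_abs_pi (by rw [Complex.add_re]; linarith only [hu]) (by rw [Complex.add_re]; linarith only [h1, x1, hw1])
    have hY1 := (abs_le.1 hY).1
    have hY2 := (abs_le.1 hY).2
    have hi : (w + v).im = v.im - tt T w.re := by rw [Complex.add_im, him]; ring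
    have hm : -mm T = 100 / 29 * T := by unfold mm; ring
    rcases le_total T 0 with hT | hT
    · obtain ⟨e3, e4⟩ := e1 hT
      have hL : LL (w + v) ≤ 16 / 100 := MR.LL_rect MR.kr_12_14 (by norm_num) (by norm_num) hre
        (by rw [hi, abs_le]; constructor <;> linarith only [h0, t0, hw1, e4, T0, t1, e3])
      have := S2_r (r := -1) (m := -mm T) hw0 hw1 hL (by
        rw [hm]
        nlinarith only [hT, hY1, mul_nonneg (by linarith only [hT] : 0 ≤ -T) (by linarith only [hY1] : 0 ≤ YY (w + v) + Real.pi)])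
      rw [him] at this
      have k := r12b (x := w.re) (T := T) (s := v.re) (k := v.im) (by linarith only [h0]) (by linarith only [h1])
        (by linarith only [T0]) (by linarith only [hT]) (by linarith only [h1, hu]) (by linarith only [x1]) (by linarith only [t0]) (by linarith only [t1])
        (by linarith only [hu])
      linarith only [this, k]
    · obtain ⟨e3, e4⟩ := e2 hT
      rcases le_total v.im (tt T w.re) with hk | hk
      · have hYn : YY (w + v) ≤ 0 := YY_np (by rw [Complex.add_re]; linarith only [hu]) (by rw [hi]; linarith only [hk])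
        have hYm : -mm T * YY (w + v) ≤ -mm T * (0 * Real.pi) := by
          rw [hm]
          nlinarith only [hT, hYn, mul_nonneg hT (by linarith only [hYn] : 0 ≤ -YY (w + v))]
        rcases le_total (tt T w.re - v.im) (14 / 100) with hk' | hk'
        · have hL : LL (w + v) ≤ 16 / 100 := MR.LL_rect MR.kr_12_14 (by norm_num) (by norm_num) hre
            (by rw [hi, abs_le]; constructor <;> linarith only [hk', h0, t1, hw1, e3])
          have := S2_r (r := 0) (m := -mm T) hw0 hw1 hL hYm
          rw [him] at this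
          have k := r12c (x := w.re) (T := T) (s := v.re) (k := v.im) (by linarith only [h0]) (by linarith only [h1])
            (by linarith only [hT]) (by linarith only [T1]) (by linarith only [h1, hu]) (by linarith only [x1]) (by linarith only [t0]) (by linarith only [t1])
            (by linarith only [hu]) (by linarith only [hk]) (by linarith only [hk'])
          linarith only [this, k]
        · have hL : LL (w + v) ≤ 45 / 100 := MR.LL_rect kr_12_2 (by norm_num) (by norm_num) hre
            (by rw [hi, abs_le]; constructor <;> linarith only [T1, h0, t0, hw1, e4, hk'])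
          have := S2_r (r := 0) (m := -mm T) hw0 hw1 hL hYm
          rw [him] at this
          have k := r12e (x := w.re) (T := T) (s := v.re) (k := v.im) (by linarith only [h0]) (by linarith only [h1])
            (by linarith only [h0, t0, hw1, e4, hk']) (by linarith only [T1]) (by linarith only [h1, hu]) (by linarith only [x1]) (by linarith only [t0]) (by linarith only [T1, h0, hw1, e4, hk'])
            (by linarith only [hu]) (by linarith only [hk'])
          linarith only [this, k]
      · have hL : LL (w + v) ≤ 16 / 100 := MR.LL_rect MR.kr_12_14 (by norm_num) (by norm_num) hre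
          (by rw [hi, abs_le]; constructor <;> linarith only [h0, hw1, hk, t1, e3])
        have := S2_r (r := 1) (m := -mm T) hw0 hw1 hL (by
          rw [hm]
          nlinarith only [hT, hY2, mul_nonneg hT (by linarith only [hY2] : 0 ≤ Real.pi - YY (w + v))])
        rw [him] at this
        have k := r12d (x := w.re) (T := T) (s := v.re) (k := v.im) (by linarith only [h0]) (by linarith only [h1])
          (by linarith only [hT]) (by linarith only [T1]) (by linarith only [h1, hu]) (by linarith only [x1]) (by linarith only [h0, hw1, e3, hk]) (by linarith only [t1])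
          (by linarith only [hu]) (by linarith only [hk])
        linarith only [this, k]

/-- `1 2 1`: the side of the digit `2` on the flat part -/
theorem S2_f1 {T : ℝ} {w v : ℂ} (T0 : -(18 / 1000) ≤ T) (T1 : T ≤ 985 / 10000)
    (h0 : 495 / 1000 ≤ w.re) (h1 : w.re ≤ 51 / 100) (him : w.im = -T)
    (Q : Q21 v.re v.im) : S2 1 0 w v < -(535 / 1000 - 2 * T) := by
  obtain ⟨x0, x1, t0, t1⟩ := Q
  have hw0 : 0 < w.re := by linarith only [h0]
  have hw1 : w.re < 1 := by linarith only [h1, hw0]
  rcases le_total (w.re + v.re) (94 / 100) with hu | hu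
  · rw [MR.S2_eq, him]
    · have := f12a (x := w.re) (T := T) (s := v.re) (k := v.im) (by linarith only [h0]) (by linarith only [h1])
        (by linarith only [T0]) (by linarith only [T1]) (by linarith only [x0]) (by linarith only [h0, hu]) (by linarith only [t0]) (by linarith only [t1])
        (by linarith only [hu])
      linarith only [this]
    · constructor <;> linarith only [hw0, h1]
    · constructor <;> rw [Complex.add_re] <;> linarith only [x0, hw0, hw1, hu]
  · have hL : LL (w + v) ≤ 45 / 100 := MR.LL_rect kr_12_2 (by norm_num) (by norm_num)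
      (by rw [Complex.add_re, abs_le]; constructor <;> linarith only [hw0, hw1, hu, h1, x1])
      (by rw [Complex.add_im, him, abs_le]; constructor <;> linarith only [T1, t0, hw0, hw1, T0, t1])
    have := S2_r (r := 0) (m := 0) hw0 hw1 hL (by linarith only [])
    rw [him] at this
    have k := f12b (x := w.re) (T := T) (s := v.re) (k := v.im) (by linarith only [h0]) (by linarith only [h1])
      (by linarith only [T0]) (by linarith only [T1]) (by linarith only [h1, hu]) (by linarith only [x1]) (by linarith only [t0]) (by linarith only [t1])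
      (by linarith only [hu])
    linarith only [this, k]

end C12

namespace SR

/-- the other hinge of the digit `1`, ring -/
theorem z1_core {Q : Cl} {p' : Fin 3} {T T' : ℝ} {w : ℂ}
    (hrh : RH w T' (hpp p' .two .one .ring Q).XM (hpp p' .two .one .ring Q).cl
      (hpp p' .two .one .ring Q).cr)
    (a2 : T + T' ≤ (cw .ring .two).s1)
    (b0 : (cw .two .ring).t0 ≤ T') (b1 : T' ≤ (cw .two .ring).t1) :
    0 ≤ w.im ∧ w.im ≤ 145 / 1000 ∧ T + w.im ≤ 187 / 1000 ∧ w.im ≤ 907 / 1000 * w.re ∧
      16 / 100 * w.im ≤ (187 / 1000 - T) * w.re ∧ w.im ≤ T' := by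
  have hM := hrh.reM
  have h0 := hrh.re0
  have e1 : (hpp p' .two .one .ring Q).XM = 65 / 100 := by
    unfold hpp hp hp1; split_ifs <;> rfl
  have e2 : (hpp p' .two .one .ring Q).cl = 16 / 100 := by
    unfold hpp hp hp1; split_ifs <;> rfl
  have e3 : 29 / 100 ≤ (hpp p' .two .one .ring Q).cr := by
    unfold hpp hp hp1; split_ifs <;> simp only [] <;> norm_num
  rw [e1, e2] at hrh
  rw [e1] at hM
  simp only [cw] at a2 b0 b1
  obtain ⟨⟨c1, c2, c3⟩, -, g, g'⟩ := RH_bd (145 / 1000) 0 hrh (by linarith only [])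
    (by linarith only [e3]) (by norm_num) (by norm_num) (by linarith only [b1]) (by linarith only [b0])
  obtain ⟨⟨d1, d2, d3⟩, -⟩ := RH_bd (187 / 1000 - T) 0 hrh (by linarith only [])
    (by linarith only [e3]) (by linarith only [a2, b0]) (by norm_num) (by linarith only [a2]) (by linarith only [b0])
  have g'' := g' (by linarith only [b0])
  exact ⟨g'', c1, by linarith only [d1], by linarith only [h0, c2], by linarith only [d2], by rcases g with g | g <;> linarith only [g, b0]⟩

/-- the other hinge of the digit `2`, not `1` -/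
theorem q2_core {C Q : Cl} {p' q : Fin 3} {T' a c : ℝ} {w : ℂ}
    (hrh : RH w T' (hpp p' .one .two C Q).XM (hpp p' .one .two C Q).cl (hpp p' .one .two C Q).cr)
    (b0 : (hbox .two C false).t0 ≤ T') (b1 : T' ≤ (hbox .two C false).t1)
    (hF : F2 q .two C ≤ w.re) (hx1 : w.re ≤ 36 / 100) (hc : C ≠ .one)
    (hZ : C = .ring → a ≤ w.re ∧ T' ≤ c) : C12.Q2 a c w.re w.im := by
  cases C
  case one => exact absurd rfl hc
  case two =>
    have e : hpp p' .one .two .two Q = ⟨60 / 100, 10 / 100, 28 / 100⟩ := by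
      unfold hpp hp; split_ifs <;> rfl
    rw [e] at hrh
    simp only [hbox, F2] at b0 b1 hrh hF
    obtain ⟨⟨c1, c2, c3⟩, ⟨d1, d2, d3⟩, -⟩ := RH_bd (41 / 1000) (41 / 1000) hrh (by norm_num)
      (by norm_num) (by norm_num) (by norm_num) (by linarith only [b1]) (by linarith only [b0])
    exact ⟨hx1, by linarith only [d1], Or.inl ⟨by linarith only [hF], by linarith only [c1]⟩⟩
  case twoE =>
    have e : hpp p' .one .two .twoE Q = ⟨60 / 100, 10 / 100, 33 / 100⟩ := by
      unfold hpp hp; split_ifs <;> rfl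
    rw [e] at hrh
    simp only [hbox, F2] at b0 b1 hrh hF
    obtain ⟨⟨c1, c2, c3⟩, ⟨d1, d2, d3⟩, -⟩ := RH_bd 0 (85 / 1000) hrh (by norm_num)
      (by norm_num) (by norm_num) (by norm_num) (by linarith only [b1]) (by linarith only [b0])
    exact ⟨hx1, by linarith only [d1], Or.inl ⟨by linarith only [hF], by linarith only [c1]⟩⟩
  case three =>
    have e1 : (hpp p' .one .two .three Q).XM = 60 / 100 := by
      unfold hpp hp; split_ifs <;> rfl
    have e2 : 12 / 100 ≤ (hpp p' .one .two .three Q).cl := by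
      unfold hpp hp; split_ifs <;> simp only [] <;> norm_num
    have e3 : 27 / 100 ≤ (hpp p' .one .two .three Q).cr := by
      unfold hpp hp; split_ifs <;> simp only [] <;> norm_num
    rw [e1] at hrh
    simp only [hbox] at b0 b1
    have hF' : 120 / 1000 ≤ w.re := by
      refine le_trans ?_ hF
      simp only [F2]
      split_ifs <;> norm_num
    obtain ⟨⟨c1, c2, c3⟩, ⟨d1, d2, d3⟩, -⟩ := RH_bd (57 / 1000) (5 / 1000) hrh (by linarith only [e2])
      (by linarith only [e3]) (by norm_num) (by norm_num) (by linarith only [b1]) (by linarith only [b0])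
    exact ⟨hx1, by linarith only [d1], Or.inr (Or.inl ⟨by linarith only [hF'], by linarith only [c1]⟩)⟩
  case threeE =>
    have e : hpp p' .one .two .threeE Q = ⟨60 / 100, 10 / 100, 30 / 100⟩ := by
      unfold hpp hp; split_ifs <;> rfl
    rw [e] at hrh
    simp only [hbox, F2] at b0 b1 hrh hF
    obtain ⟨⟨c1, c2, c3⟩, ⟨d1, d2, d3⟩, -⟩ := RH_bd (26 / 1000) (13 / 1000) hrh (by norm_num)
      (by norm_num) (by norm_num) (by norm_num) (by linarith only [b1]) (by linarith only [b0])
    exact ⟨hx1, by linarith only [d1], Or.inl ⟨by linarith only [hF], by linarith only [c1]⟩⟩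
  case ring =>
    have e : hpp p' .one .two .ring Q = ⟨60 / 100, 125 / 1000, 30 / 100⟩ := by
      unfold hpp hp; split_ifs <;> rfl
    rw [e] at hrh
    simp only [hbox] at b0 b1 hrh
    obtain ⟨ha, hc⟩ := hZ rfl
    obtain ⟨⟨c1, c2, c3⟩, ⟨d1, d2, d3⟩, -⟩ := RH_bd c 0 hrh (by norm_num)
      (by norm_num) (by linarith only [b0, hc]) (by norm_num) hc (by linarith only [b0])
    exact ⟨hx1, by linarith only [d1], Or.inr (Or.inr ⟨ha, by linarith only [c1]⟩)⟩

theorem q21_core {Q : Cl} {p' q : Fin 3} {T' : ℝ} {w : ℂ}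
    (hrh : RH w T' (hpp p' .one .two .one Q).XM (hpp p' .one .two .one Q).cl
      (hpp p' .one .two .one Q).cr)
    (b0 : (hbox .two .one false).t0 ≤ T') (b1 : T' ≤ (hbox .two .one false).t1)
    (hF : F2 q .two .one ≤ w.re) (hx1 : w.re ≤ 56 / 100) : C12.Q21 w.re w.im := by
  have e : hpp p' .one .two .one Q = ⟨80 / 100, 16 / 100, 29 / 100⟩ := by
    unfold hpp hp hp1; split_ifs <;> rfl
  rw [e] at hrh
  simp only [hbox, F2] at b0 b1 hrh hF
  obtain ⟨⟨c1, c2, c3⟩, ⟨d1, d2, d3⟩, -⟩ := RH_bd (18 / 1000) (985 / 10000) hrh (by norm_num)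
    (by norm_num) (by norm_num) (by norm_num) (by linarith only [b1]) (by linarith only [b0])
  exact ⟨by linarith only [hF], hx1, by linarith only [d1], by linarith only [c1]⟩

variable {M : ℕ} {b : Fin (M + 1) → ℤ} {zs : DD (tyW b) ⊕ ZZ (tyW b) → ℂ}
variable {y : DD (tyW b) ⊕ ZZ (tyW b) → ℝ}
variable {h h' : Fin M} {i j j' : Fin (M + 1)} {p : Fin 3}

/-- the other hinge of the digit `1` -/
theorem part1 (hX : LocX b zs) (hy : Mx b zs y) (hF : Flr b y F2)
    (h11 : clsW b j' = .one → y (.inl (.inl h')) ≤ 70 / 100)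
    (A : Adj h i p j) (A' : Adj h' i p.rev j') (hi : clsW b i = .one) (hj : clsW b j = .two) :
    (clsW b j' ≠ .ring → C12.R1P (ofs (b i) (zs (.inl (.inl h))).im) (Yw b zs y i p.rev).re
        (Yw b zs y i p.rev).im ∧ 130 / 1000 ≤ (Yw b zs y i p.rev).re) ∧
    (clsW b j' = .ring → -(8 / 1000) ≤ ofs (b i) (zs (.inl (.inl h))).im ∧
      ofs (b i) (zs (.inl (.inl h))).im ≤ 80 / 1000 ∧ 145 / 1000 ≤ (Yw b zs y i p.rev).re ∧
      0 ≤ (Yw b zs y i p.rev).im ∧ (Yw b zs y i p.rev).im ≤ 145 / 1000 ∧
      ofs (b i) (zs (.inl (.inl h))).im + (Yw b zs y i p.rev).im ≤ 187 / 1000 ∧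
      (Yw b zs y i p.rev).im ≤ 907 / 1000 * (Yw b zs y i p.rev).re ∧
      16 / 100 * (Yw b zs y i p.rev).im ≤
        (187 / 1000 - ofs (b i) (zs (.inl (.inl h))).im) * (Yw b zs y i p.rev).re ∧
      (Yw b zs y i p.rev).im ≤ ofs (b i) (zs (.inl (.inl h'))).im ∧
      94 / 1000 ≤ ofs (b i) (zs (.inl (.inl h))).im + ofs (b i) (zs (.inl (.inl h'))).im) := by
  have hpp : p.rev.rev = p := Fin.rev_rev p
  have A2 : Adj h i p.rev.rev j := by rw [hpp]; exact A
  obtain ⟨a0, a1, a2, a3⟩ := hX.win A A' hi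
  obtain ⟨b0, b1, -, -⟩ := hX.win A' A2 hi
  rw [hj] at a0 a1 a2 a3 b0 b1
  have hrh' := A'.rh hy
  rw [A'.XM_eq b, A'.cl_eq b, A'.cr_eq b, A2.oc_eq b, hi, hj] at hrh'
  have hF' := hF A'
  rw [hi, ← A'.re (zs := zs) (y := y)] at hF'
  refine ⟨fun hr => ⟨(r1_core hrh' a0 a1 a3 b0 b1 ?_ (fun hc => by rw [A'.re]; exact h11 hc)).2 hr,
    ?_⟩, fun hr => ?_⟩
  · refine le_trans ?_ hF'
    generalize clsW b j' = C
    cases C <;> simp only [F2] <;> (try split_ifs) <;> norm_num
  · refine le_trans ?_ hF'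
    revert hr
    generalize clsW b j' = C
    cases C <;> simp only [F2] <;> (try split_ifs) <;> (try norm_num)
  · rw [hr] at hrh' a0 a1 a2 a3 b0 b1 hF'
    obtain ⟨z0, z1, z2, z3, z4, z5⟩ := z1_core hrh' a3 b0 b1
    simp only [cw, F2] at a0 a1 a2 hF'
    exact ⟨by linarith only [a0], by linarith only [a1], by linarith only [hF'], z0, z1, z2, z3, z4, z5, by linarith only [a2]⟩

/-- the other hinge of the digit `2` -/
theorem part2 (hb : ClassW b) (hL : Loc b zs) (hy : Mx b zs y) (hF : Flr b y F2)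
    (hC : ∀ {h : Fin M} {i j : Fin (M + 1)} {p : Fin 3}, Adj h i p j → clsW b i = .two →
      y (.inl (.inl h)) ≤ if clsW b j = .one then 56 / 100 else 36 / 100)
    (A : Adj h i p j) (hi : clsW b i = .one) (hj : clsW b j = .two) :
    ∃ h2 j2, ∃ _ : Adj h2 j p j2, (clsW b j2 = .one → C12.Q21 (Yw b zs y j p).re
        (Yw b zs y j p).im) ∧
      (clsW b j2 ≠ .one → C12.Q2 (125 / 1000) (96 / 1000) (Yw b zs y j p).re
        (Yw b zs y j p).im ∧ ∀ a c : ℝ, (clsW b j2 = .ring → a ≤ y (.inl (.inl h2)) ∧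
          ofs (b j) (zs (.inl (.inl h2))).im ≤ c) →
          C12.Q2 a c (Yw b zs y j p).re (Yw b zs y j p).im) := by
  have hpp : p.rev.rev = p := Fin.rev_rev p
  obtain ⟨h2, j2, B0⟩ := A.symm.other' b (clsW_inner hb (Or.inr (Or.inl hj)))
  rw [hpp] at B0
  have hopB := B0.opp hb (Or.inl (by rw [hj]; decide))
  obtain ⟨-, -, c0, c1⟩ := B0.box hb hL
  rw [hj, B0.ss hopB] at c0 c1
  have hrh2 := B0.rh hy
  rw [B0.XM_eq b, B0.cl_eq b, B0.cr_eq b, A.symm.oc_eq b, hi, hj] at hrh2
  have hF2 := hF B0
  rw [hj, ← B0.re (zs := zs) (y := y)] at hF2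
  have hC2 := hC B0 hj
  rw [← B0.re (zs := zs) (y := y)] at hC2
  refine ⟨h2, j2, B0, fun h1 => ?_, fun h1 => ?_⟩
  · rw [h1] at hrh2 c0 c1 hF2
    rw [if_pos h1] at hC2
    exact q21_core hrh2 c0 c1 hF2 hC2
  · rw [if_neg h1] at hC2
    have key : ∀ a c : ℝ, (clsW b j2 = .ring → a ≤ (Yw b zs y j p).re ∧
        ofs (b j) (zs (.inl (.inl h2))).im ≤ c) →
        C12.Q2 a c (Yw b zs y j p).re (Yw b zs y j p).im := fun a c hac =>
      q2_core hrh2 c0 c1 hF2 hC2 h1 hac
    refine ⟨key _ _ fun hr => ?_, fun a c hac => key a c fun hr => ?_⟩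
    · rw [hr] at hF2 c1
      simp only [F2, hbox] at hF2 c1
      exact ⟨by linarith only [hF2], by linarith only [c1]⟩
    · rw [B0.re]
      exact hac hr

/-- parameters of the path of a hinge `1 | 2` -/
theorem par12 (A : Adj h i p j) (hi : clsW b i = .one) (hj : clsW b j = .two) :
    wcl b h = 16 / 100 ∧ wcr b h = 29 / 100 ∧ wXM b h = 80 / 100 := by
  have hpar : ∀ P Q, SR.hpp p P .one .two Q = ⟨80 / 100, 16 / 100, 29 / 100⟩ := by
    intro P Q
    unfold SR.hpp hp hp1
    split_ifs <;> rfl
  exact ⟨by rw [A.cl_eq b, hi, hj, hpar], by rw [A.cr_eq b, hi, hj, hpar],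
    by rw [A.XM_eq b, hi, hj, hpar]⟩

/-- **Cap `.51` of the hinges `1 | 2`** (the ramp). -/
theorem cap12b (hb : ClassW b) (hL : Loc b zs) (hX : LocX b zs) (hy : Mx b zs y)
    (hpos : ∀ h : Fin M, 0 < y (.inl (.inl h))) (hF : Flr b y F2) (hS : Sum1 b y (95 / 100))
    (hC : ∀ {h : Fin M} {i j : Fin (M + 1)} {p : Fin 3}, Adj h i p j → clsW b i = .two →
      y (.inl (.inl h)) ≤ if clsW b j = .one then 56 / 100 else 36 / 100)
    (A : Adj h i p j) (A' : Adj h' i p.rev j') (hi : clsW b i = .one) (hj : clsW b j = .two)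
    (h11 : clsW b j' = .one → y (.inl (.inl h')) ≤ 70 / 100)
    (h21 : clsW b j' = .ring → ∀ {h2 : Fin M} {j2 : Fin (M + 1)}, Adj h2 j p j2 →
      clsW b j2 = .ring → ofs (b j) (zs (.inl (.inl h2))).im ≤ 60 / 1000) :
    y (.inl (.inl h)) ≤ 51 / 100 := by
  by_contra hcon
  have h51 := not_le.1 hcon
  have hpp : p.rev.rev = p := Fin.rev_rev p
  have hop := A.opp hb (Or.inl (by rw [hi]; decide))
  obtain ⟨hcl, hcr, hXM⟩ := par12 (b := b) A hi hj
  obtain ⟨u1, u2⟩ := part1 hX hy hF h11 A A' hi hj
  obtain ⟨h2, j2, B, q1, q2⟩ := part2 hb hL hy hF hC A hi hj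
  have hsum := hS A A' hi
  rw [← A'.re (zs := zs) (y := y)] at hsum
  have hx56 : y (.inl (.inl h)) ≤ 56 / 100 := by
    have := hC A.symm hj
    rwa [if_pos hi] at this
  set x := y (.inl (.inl h)) with hx
  obtain ⟨-, -, T0, T1⟩ := A.box hb hL
  rw [hi, hj, A.ss hop] at T0 T1
  simp only [hbox] at T0 T1
  have hrh := A.rh hy
  rw [hXM, hcl, hcr] at hrh
  set T := ofs (b i) (zs (.inl (.inl h))).im with hT
  have him : (Yw b zs y i p).im = C12.tt T x := by
    have := MR.RH_right hrh (by norm_num) (by norm_num) (by norm_num)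
      (by rw [A.re]; linarith only [hcon])
    rw [this, A.re]
    unfold C12.tt
    rw [← hx]
    ring
  have hsl := ofs_slL_ramp (b := b) (zs := zs) (y := y) (h := h) (b i) (by rw [hXM, hcr]; linarith only [hcon])
  have hm : ofs (b i) (slL b zs y h) = C12.mm T := by
    rw [hsl, hcr]
    unfold C12.mm
    ring
  have hre := A.re (zs := zs) (y := y)
  have hc := A.conj (zs := zs) (y := y) hop
  have hcre : (Yw b zs y j p.rev).re = x := by rw [hc, Complex.conj_re, hre]
  have hcim : (Yw b zs y j p.rev).im = -C12.tt T x := by rw [hc, Complex.conj_im, him]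
  have v0 : 130 / 1000 ≤ (Yw b zs y i p.rev).re := by
    by_cases hr : clsW b j' = .ring
    · linarith only [u2, hr, (u2 hr).2.2.1]
    · exact (u1 hr).2
  have e1 : Sw b zs y i p (slL b zs y h) =
      MR.s1 (C12.mm T) x (C12.tt T x) (Yw b zs y i p.rev).re (Yw b zs y i p.rev).im := by
    rw [A.side_one hb hi, hm, MR.S1_eq, him, hre]
    · constructor <;> rw [hre] <;> linarith only [hcon, hx56]
    · constructor <;> rw [Complex.add_re, hre] <;> linarith only [hcon, v0, hsum]
  have e2 : Sw b zs y j p.rev (slL b zs y h) =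
      S2 1 (-C12.mm T) (Yw b zs y j p.rev) (Yw b zs y j p) := by
    rw [A.symm.side_two hb (Or.inl hj), hpp, ofs_opp hop, hm]
  have e3 : 10 / 100 ≤ (Yw b zs y j p).re → (Yw b zs y j p).re ≤ 36 / 100 →
      Sw b zs y j p.rev (slL b zs y h) =
      MR.s2 (-C12.mm T) x (-C12.tt T x) (Yw b zs y j p).re (Yw b zs y j p).im := by
    intro k1 k2
    rw [e2, MR.S2_eq, hcre, hcim]
    · constructor <;> rw [hcre] <;> linarith only [hcon, hx56]
    · constructor <;> rw [Complex.add_re, hcre] <;> linarith only [hcon, k1, hx56, k2]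
  have fin : ∀ f : ℝ, Sw b zs y i p (slL b zs y h) < f → Sw b zs y j p.rev (slL b zs y h) < -f →
      False := by
    intro f d1 d2
    exact rstep_false hb hy (hpos h) (RStep.of_adj A (c := 0) (fun h => absurd h (by omega))
      (e1 := Sw b zs y i p (slL b zs y h)) (e2 := Sw b zs y j p.rev (slL b zs y h))
      (by linarith only [d1, d2]) (by linarith only []) (by linarith only []))
  have hone : clsW b j2 = .one → Sw b zs y j p.rev (slL b zs y h) <
      -(536 / 1000 + 77 / 10 * T) := by
    intro hj2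
    rw [e2]
    have := C12.S2_r1 (T := T) (w := Yw b zs y j p.rev) (v := Yw b zs y j p) T0 T1
      (by rw [hcre]; linarith only [hcon]) (by rw [hcre]; linarith only [hx56]) (by rw [hcim, hcre]) (q1 hj2)
    exact this
  have hQ : ∀ {a c : ℝ}, 10 / 100 ≤ a → C12.Q2 a c (Yw b zs y j p).re (Yw b zs y j p).im →
      10 / 100 ≤ (Yw b zs y j p).re := by
    intro a c ha q
    rcases q.h with ⟨h, -⟩ | ⟨h, -⟩ | ⟨h, -⟩ <;> linarith only [h, ha]
  by_cases hr : clsW b j' = .ring
  · obtain ⟨t0, t1, w0, k0, k1, k2, k3, k4, k5, k6⟩ := u2 hr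
    refine fin (536 / 1000 + 77 / 10 * T) ?_ ?_
    · rw [e1]
      have := C12.rZ1 (x := x) (T := T) (s := (Yw b zs y i p.rev).re)
        (k := (Yw b zs y i p.rev).im) (by linarith only [hcon]) (by linarith only [hx56]) (by linarith only [t0]) (by linarith only [t1])
        (by linarith only [w0]) (by linarith only [hcon, hsum]) (by linarith only [k0]) (by linarith only [k1]) (by linarith only [k2]) (by linarith only [hsum])
        (by linarith only [k3]) (by linarith only [k4])
      linarith only [this]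
    · by_cases hj2 : clsW b j2 = .one
      · exact hone hj2
      · have hq := (q2 hj2).2 (125 / 1000) (60 / 1000) (fun hz => ⟨by
          have := hF B
          rw [hj, hz] at this
          simp only [F2] at this
          linarith only [this], h21 hr B hz⟩)
        rw [e3 (hQ (by norm_num) hq) hq.x1]
        exact C12.s2_rZ h51.le hx56 t0 t1 hq
  · obtain ⟨hR, w0⟩ := u1 hr
    have g1 := hR.T0
    have g2 := hR.T1
    have g3 := hR.t0
    have g4 := hR.t2
    have g5 := hR.s2
    refine fin (3965 / 10000 + 76 / 10 * T) ?_ ?_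
    · rw [e1]
      have := C12.rP1 (x := x) (T := T) (s := (Yw b zs y i p.rev).re)
        (k := (Yw b zs y i p.rev).im) (by linarith only [hcon]) (by linarith only [hx56]) (by linarith only [T0]) (by linarith only [T1])
        (by linarith only [v0]) (by linarith only [hcon, hsum]) (by linarith only [g3]) (by linarith only [g4]) (by linarith only [g5]) (by linarith only [hsum])
      linarith only [this]
    · by_cases hj2 : clsW b j2 = .one
      · linarith only [T0, hone, hj2, hone hj2]
      · have hq := (q2 hj2).1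
        rw [e3 (hQ (by norm_num) hq) hq.x1]
        exact C12.s2_rP h51.le hx56 T0 T1 hq

/-- **Cap `.495` of the hinges `1 | 2`** (the flat part). -/
theorem cap12c (hb : ClassW b) (hL : Loc b zs) (hX : LocX b zs) (hy : Mx b zs y)
    (hF : Flr b y F2) (hS : Sum1 b y (95 / 100))
    (hC : ∀ {h : Fin M} {i j : Fin (M + 1)} {p : Fin 3}, Adj h i p j → clsW b i = .two →
      y (.inl (.inl h)) ≤ if clsW b j = .one then 56 / 100 else 36 / 100)
    (A : Adj h i p j) (A' : Adj h' i p.rev j') (hi : clsW b i = .one) (hj : clsW b j = .two)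
    (h51 : y (.inl (.inl h)) ≤ 51 / 100)
    (h11 : clsW b j' = .one → y (.inl (.inl h')) ≤ 70 / 100)
    (hZ1 : 495 / 1000 ≤ y (.inl (.inl h)) → clsW b j' = .ring →
      182 / 1000 + 3 / 10 * ofs (b i) (zs (.inl (.inl h))).im +
        2 / 10 * ofs (b i) (zs (.inl (.inl h'))).im ≤ y (.inl (.inl h')))
    (h2Z : 495 / 1000 ≤ y (.inl (.inl h)) → ∀ {h2 : Fin M} {j2 : Fin (M + 1)}, Adj h2 j p j2 →
      clsW b j2 = .ring → 155 / 1000 ≤ y (.inl (.inl h2)) ∧
        (clsW b j' = .ring → 165 / 1000 ≤ y (.inl (.inl h2))))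
    (h21 : clsW b j' = .ring → ∀ {h2 : Fin M} {j2 : Fin (M + 1)}, Adj h2 j p j2 →
      clsW b j2 = .ring → ofs (b j) (zs (.inl (.inl h2))).im ≤ 60 / 1000) :
    y (.inl (.inl h)) ≤ 495 / 1000 := by
  by_contra hcon
  have h495 := not_le.1 hcon
  have hpp : p.rev.rev = p := Fin.rev_rev p
  have hop := A.opp hb (Or.inl (by rw [hi]; decide))
  obtain ⟨hcl, hcr, hXM⟩ := par12 (b := b) A hi hj
  obtain ⟨u1, u2⟩ := part1 hX hy hF h11 A A' hi hj
  obtain ⟨h2, j2, B, q1, q2⟩ := part2 hb hL hy hF hC A hi hj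
  have hsum := hS A A' hi
  rw [← A'.re (zs := zs) (y := y)] at hsum
  set x := y (.inl (.inl h)) with hx
  obtain ⟨-, -, T0, T1⟩ := A.box hb hL
  rw [hi, hj, A.ss hop] at T0 T1
  simp only [hbox] at T0 T1
  have hrh := A.rh hy
  rw [hXM, hcl, hcr] at hrh
  set T := ofs (b i) (zs (.inl (.inl h))).im with hT
  have him : (Yw b zs y i p).im = T := by
    rw [hrh.im]
    have e : tr 0 (80 / 100) (16 / 100) (29 / 100) (Yw b zs y i p).re = 1 := by
      rw [A.re]
      apply le_antisymm
      · exact max_le zero_le_one (min_le_left _ _)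
      · refine le_trans ?_ (le_max_right _ _)
        refine le_min le_rfl (le_min ?_ ?_)
        · rw [le_div_iff₀ (by norm_num)]; linarith only [hcon]
        · rw [le_div_iff₀ (by norm_num)]; linarith only [h51]
    rw [e, mul_one]
  have hre := A.re (zs := zs) (y := y)
  have hc := A.conj (zs := zs) (y := y) hop
  have hcre : (Yw b zs y j p.rev).re = x := by rw [hc, Complex.conj_re, hre]
  have hcim : (Yw b zs y j p.rev).im = -T := by rw [hc, Complex.conj_im, him]
  have v0 : 130 / 1000 ≤ (Yw b zs y i p.rev).re := by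
    by_cases hr : clsW b j' = .ring
    · linarith only [u2, hr, (u2 hr).2.2.1]
    · exact (u1 hr).2
  have e1 : Sw b zs y i p 0 =
      MR.s1 0 x T (Yw b zs y i p.rev).re (Yw b zs y i p.rev).im := by
    rw [A.side_one hb hi, ofs_zero', MR.S1_eq, him, hre]
    · constructor <;> rw [hre] <;> linarith only [hcon, h51]
    · constructor <;> rw [Complex.add_re, hre] <;> linarith only [hcon, v0, hsum]
  have e2 : Sw b zs y j p.rev 0 = S2 1 0 (Yw b zs y j p.rev) (Yw b zs y j p) := by
    rw [A.symm.side_two hb (Or.inl hj), hpp, ofs_zero']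
  have e3 : 10 / 100 ≤ (Yw b zs y j p).re → (Yw b zs y j p).re ≤ 36 / 100 →
      Sw b zs y j p.rev 0 = MR.s2 0 x (-T) (Yw b zs y j p).re (Yw b zs y j p).im := by
    intro k1 k2
    rw [e2, MR.S2_eq, hcre, hcim]
    · constructor <;> rw [hcre] <;> linarith only [hcon, h51]
    · constructor <;> rw [Complex.add_re, hcre] <;> linarith only [hcon, k1, h51, k2]
  have fin : ∀ f : ℝ, Sw b zs y i p 0 < f → Sw b zs y j p.rev 0 < -f → False := by
    intro f d1 d2
    exact A.flat_right hy (by rw [hcl]; linarith only [hcon]) (by rw [hXM, hcr]; linarith only [h51]) (by linarith only [d1, d2])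
  have hone : clsW b j2 = .one → Sw b zs y j p.rev 0 < -(535 / 1000 - 2 * T) := by
    intro hj2
    rw [e2]
    exact C12.S2_f1 (T := T) (w := Yw b zs y j p.rev) (v := Yw b zs y j p) T0 T1
      (by rw [hcre]; linarith only [hcon]) (by rw [hcre]; linarith only [h51]) hcim (q1 hj2)
  have hQ : ∀ {a c : ℝ}, 10 / 100 ≤ a → C12.Q2 a c (Yw b zs y j p).re (Yw b zs y j p).im →
      10 / 100 ≤ (Yw b zs y j p).re := by
    intro a c ha q
    rcases q.h with ⟨h, -⟩ | ⟨h, -⟩ | ⟨h, -⟩ <;> linarith only [h, ha]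
  by_cases hr : clsW b j' = .ring
  · obtain ⟨t0, t1, w0, k0, k1, k2, k3, k4, k5, k6⟩ := u2 hr
    have hz1 := hZ1 h495.le hr
    rw [← A'.re (zs := zs) (y := y)] at hz1
    refine fin (535 / 1000 - 2 * T) ?_ ?_
    · rw [e1]
      have := C12.fZ1 (x := x) (T := T) (s := (Yw b zs y i p.rev).re)
        (k := (Yw b zs y i p.rev).im) (by linarith only [hcon]) (by linarith only [h51]) (by linarith only [t0]) (by linarith only [t1])
        (by linarith only [t0, k6, hz1]) (by linarith only [hcon, hsum]) (by linarith only [k0]) (by linarith only [k1]) (by linarith only [k2]) (by linarith only [hsum])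
        (by linarith only [k5, hz1])
      linarith only [this]
    · by_cases hj2 : clsW b j2 = .one
      · exact hone hj2
      · have hq := (q2 hj2).2 (165 / 1000) (60 / 1000) (fun hz =>
          ⟨(h2Z h495.le B hz).2 hr, h21 hr B hz⟩)
        rw [e3 (hQ (by norm_num) hq) hq.x1]
        exact C12.s2_fZ h495.le h51 t0 t1 hq
  · obtain ⟨hR, w0⟩ := u1 hr
    have g1 := hR.T0
    have g2 := hR.T1
    have g3 := hR.t0
    have g4 := hR.t2
    have g5 := hR.s2
    refine fin (419 / 1000 - 3 / 2 * T) ?_ ?_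
    · rw [e1]
      have := C12.fP1 (x := x) (T := T) (s := (Yw b zs y i p.rev).re)
        (k := (Yw b zs y i p.rev).im) (by linarith only [hcon]) (by linarith only [h51]) (by linarith only [T0]) (by linarith only [T1])
        (by linarith only [v0]) (by linarith only [hcon, hsum]) (by linarith only [g3]) (by linarith only [g4]) (by linarith only [g5]) (by linarith only [hsum])
      linarith only [this]
    · by_cases hj2 : clsW b j2 = .one
      · linarith only [T1, hone, hj2, hone hj2]
      · have hq := (q2 hj2).2 (155 / 1000) (96 / 1000) (fun hz => ⟨(h2Z h495.le B hz).1, by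
          obtain ⟨-, -, c0, c1⟩ := B.box hb hL
          rw [hj, hz, B.ss (B.opp hb (Or.inl (by rw [hj]; decide)))] at c1
          simp only [hbox] at c1
          linarith only [c1]⟩)
        rw [e3 (hQ (by norm_num) hq) hq.x1]
        exact C12.s2_fP h495.le h51 T0 T1 hq

end SR

end Pool.Agent.Work.MP_b30479_gt.G2
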