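import Pool.Agent.Work.MP_b30479_gt.G2.WCF3
import Pool.Agent.Work.MP_b30479_gt.G2.WCap12b
import Pool.Agent.Work.MP_b30479_gt.G2.WLocT

/-!
# Cap `.495` of the hinges `1 | 2`, with the floors of the hinges of the neighbouring rings
-/

namespace Pool.Agent.Work.MP_b30479_gt.G2

open Finset VOL Filter Topology

namespace SR

variable {M : ℕ} {b : Fin (M + 1) → ℤ} {zs : DD (tyW b) ⊕ ZZ (tyW b) → ℂ}
variable {y : DD (tyW b) ⊕ ZZ (tyW b) → ℝ}
variable {h h' : Fin M} {i j j' : Fin (M + 1)} {p : Fin 3}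

/-- **Third round of the caps of the hinges `1 | 2`.**  `hZ`: the hinges of the rings are `≤ .38`;
`h16`: the hinges `1 | ring` are on the flat part. -/
theorem cap12_R3 (hb : ClassW b) (hL : Loc b zs) (hX : LocX b zs) (hR : LocR b zs)
    (hT : LocRt b zs) (hy : Mx b zs y) (hF : Flr b y F2) (hS : Sum1 b y (95 / 100))
    (hC : ∀ {h : Fin M} {i j : Fin (M + 1)} {p : Fin 3}, Adj h i p j → clsW b i = .two →
      y (.inl (.inl h)) ≤ if clsW b j = .one then 56 / 100 else 36 / 100)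
    (hZ : ∀ {h : Fin M} {i j : Fin (M + 1)} {p : Fin 3}, Adj h i p j → clsW b i = .ring →
      y (.inl (.inl h)) ≤ 38 / 100)
    (h16 : ∀ {h : Fin M} {i j : Fin (M + 1)} {p : Fin 3}, Adj h i p j → clsW b i = .one →
      clsW b j = .ring → 16 / 100 ≤ y (.inl (.inl h)))
    (A : Adj h i p j) (A' : Adj h' i p.rev j') (hi : clsW b i = .one) (hj : clsW b j = .two)
    (h51 : y (.inl (.inl h)) ≤ 51 / 100)
    (h11 : clsW b j' = .one → y (.inl (.inl h')) ≤ 70 / 100) :
    y (.inl (.inl h)) ≤ 495 / 1000 := by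
  have h21 : clsW b j' = .ring → ∀ {h2 : Fin M} {j2 : Fin (M + 1)}, Adj h2 j p j2 →
      clsW b j2 = .ring → ofs (b j) (zs (.inl (.inl h2))).im ≤ 60 / 1000 :=
    fun hr h2 j2 B hj2 => hT.twoZ B A.symm A' hj hj2 hi hr
  refine cap12c hb hL hX hy hF hS hC A A' hi hj h51 h11 (fun h495 hr => ?_)
    (fun h495 h2 j2 B hj2 => ?_) h21
  · exact cf3_one hb hL hX hR hy A A' hi hj hr
      (by rw [cf3_par1Z A' hi hr]; exact h16 A' hi hr) (fun A1 => hZ A1 hr) h495 h51
  · have hfl : wcl b h2 ≤ y (.inl (.inl h2)) := by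
      rw [(B.par_two_ring (Or.inl hj) hj2).2.2]
      have := hF B
      rw [hj, hj2] at this
      simpa only [F2] using this
    obtain ⟨k1, k2⟩ := cf3_two hb hL hX hR hy A B hi hj hj2 hfl (fun A1 => hZ A1 hj2) h495 h51
    refine ⟨k1, fun hr => k2 ?_ ?_⟩
    · obtain ⟨-, a1, -, -⟩ := hX.win A A' hi
      rw [hj, hr] at a1
      simp only [cw] at a1
      exact a1
    · have := h21 hr B hj2
      linarith

end SR

end Pool.Agent.Work.MP_b30479_gt.G2
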