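import Pool.Agent.Work.MP_b30479_gt.G2.WTab
import Pool.Agent.Work.MP_b30479_gt.G2.MR12
import Pool.Agent.Work.MP_b30479_gt.G2.WLocX
import Pool.Agent.Work.MP_b30479_gt.G2.WValH

/-!
# Cap of the hinges between a digit `1` and an end digit `2`
-/

namespace Pool.Agent.Work.MP_b30479_gt.G2

open Finset VOL Filter Topology NumU

namespace M12

/-- value of the two regions as a function of the hinge -/
noncomputable def vv (x τ B β : ℝ) : ℝ := V1 ⟨x, τ⟩ ⟨B, β⟩ + V2 ⟨x, -τ⟩ 0

theorem vv_eq (x τ B β : ℝ) : vv x τ B β = Real.pi * (x * β + τ * B - τ - β) +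
    uu (x + B) (τ + β) - 2 * uu x τ - uu B β + Real.pi / 2 * (τ * (2 * x + 1)) := by
  have e : UU ⟨x, -τ⟩ = uu x τ := uu_neg x τ
  unfold vv V1 V2
  simp only [sub_zero, add_zero, Complex.sub_im, Complex.mul_im, Complex.add_im, sq, UU_zero, e]
  rw [show (⟨x, τ⟩ : ℂ) + ⟨B, β⟩ = ⟨x + B, τ + β⟩ from rfl,
    show UU ⟨x + B, τ + β⟩ = uu (x + B) (τ + β) from rfl, show UU ⟨x, τ⟩ = uu x τ from rfl,
    show UU ⟨B, β⟩ = uu B β from rfl]
  ring

theorem gn_eq (x τ T B β c : ℝ) : vv c T B β - vv x τ B β = gn c x τ T B β := by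
  unfold gn
  rw [vv_eq, vv_eq, add_comm B c]
  ring

theorem tr_le {XM cl cr x : ℝ} (hx : 0 ≤ x) (hc : 0 < cl) : tr 0 XM cl cr x ≤ x / cl := by
  unfold tr
  refine max_le (by positivity) ((min_le_right _ _).trans ((min_le_left _ _).trans ?_))
  rw [sub_zero]

/-- the height on a path -/
theorem part {v : ℂ} {k XM cl cr : ℝ} (h : RH v k XM cl cr) (hc : 0 < cl) :
    (0 ≤ k → 0 ≤ v.im ∧ v.im ≤ k ∧ v.im ≤ k * (v.re / cl)) ∧ (k ≤ 0 → k ≤ v.im ∧ v.im ≤ 0) := by
  have h3 : 0 ≤ tr 0 XM cl cr v.re := le_max_left _ _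
  have h4 : tr 0 XM cl cr v.re ≤ 1 := max_le zero_le_one (min_le_left _ _)
  have h5 := tr_le (XM := XM) (cr := cr) h.re0 hc
  rw [h.im]
  refine ⟨fun hk => ⟨mul_nonneg hk h3, ?_, mul_le_mul_of_nonneg_left h5 hk⟩, fun hk => ⟨?_, ?_⟩⟩
  · nlinarith only [h4, hk]
  · nlinarith only [h4, hk]
  · nlinarith only [h3, hk]

end M12

namespace SR

variable {M : ℕ} {b : Fin (M + 1) → ℤ} {zs : DD (tyW b) ⊕ ZZ (tyW b) → ℂ}
variable {y : DD (tyW b) ⊕ ZZ (tyW b) → ℝ}
variable {h h' : Fin M} {i j j' : Fin (M + 1)} {p : Fin 3}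

/-- lower bounds of the left ramp of the hinges of a digit `1` -/
noncomputable def k1c : Cl → ℝ
  | .one => 15 / 100 | .two => 16 / 100 | .twoE => 14 / 100 | .three => 13 / 100
  | .threeE => 14 / 100 | .ring => 16 / 100

theorem Adj.k1c_le (A : Adj h i p j) (hi : clsW b i = .one) : k1c (clsW b j) ≤ wcl b h := by
  rw [A.cl_eq b, hi]
  unfold hpp
  generalize clsW b j = B
  cases B <;> split_ifs <;> simp only [hp, hp1, k1c] <;> (try split_ifs) <;> norm_num

/-- the range of the other hinge `B + i β` of a digit `1` with a hinge `1 | 2E` of height `T` -/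
theorem part_12E (hX : LocX b zs) (hy : Mx b zs y) (hF : Flr b y F0)
    (A : Adj h i p j) (A' : Adj h' i p.rev j') (hi : clsW b i = .one) (hj : clsW b j = .twoE) :
    7 / 100 ≤ (Yw b zs y i p.rev).re ∧ (Yw b zs y i p.rev).im ≤ (Yw b zs y i p.rev).re ∧
    ((clsW b j' ≠ .ring ∧ -(66 / 1000) ≤ ofs (b i) (zs (.inl (.inl h))).im ∧
      ofs (b i) (zs (.inl (.inl h))).im ≤ 1 / 1000 ∧ -(33 / 1000) ≤ (Yw b zs y i p.rev).im ∧
      (Yw b zs y i p.rev).im ≤ 1145 / 10000 ∧
      ofs (b i) (zs (.inl (.inl h))).im + (Yw b zs y i p.rev).im ≤ 77 / 1000) ∨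
    (clsW b j' = .ring ∧ -(61 / 1000) ≤ ofs (b i) (zs (.inl (.inl h))).im ∧
      ofs (b i) (zs (.inl (.inl h))).im ≤ -(24 / 1000) ∧ 0 ≤ (Yw b zs y i p.rev).im ∧
      (Yw b zs y i p.rev).im ≤ 158 / 1000 ∧
      ofs (b i) (zs (.inl (.inl h))).im + (Yw b zs y i p.rev).im ≤ 106 / 1000)) := by
  have hfl : 7 / 100 ≤ (Yw b zs y i p.rev).re := by
    rw [A'.re]
    have := hF A'
    rw [hi] at this
    simp only [F0] at this
    linarith only [this]
  have W1 := hX.win A A' hi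
  have W2 := hX.win A' (by rw [Fin.rev_rev]; exact A) hi
  rw [hj] at W1 W2
  have hcl := A'.k1c_le hi
  obtain ⟨q1, q2⟩ := M12.part (A'.rh hy) (wcl_pos h')
  generalize (Yw b zs y i p.rev) = v at *
  generalize ofs (b i) (zs (.inl (.inl h))).im = T at *
  generalize ofs (b i) (zs (.inl (.inl h'))).im = k at *
  generalize wcl b h' = cl at *
  have key : ∀ k1 : ℝ, 0 ≤ k1 → k ≤ k1 → k1 ≤ cl → 0 < cl → v.im ≤ v.re := by
    intro k1 hk0 hk1 hk2 hcl0
    rcases le_total 0 k with h0 | h0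
    · obtain ⟨-, -, h5⟩ := q1 h0
      refine h5.trans ?_
      rw [mul_div_assoc', div_le_iff₀ hcl0, mul_comm]
      exact mul_le_mul_of_nonneg_left (hk1.trans hk2) (by linarith only [hfl])
    · have := (q2 h0).2
      linarith only [hfl, this]
  refine ⟨hfl, ?_⟩
  generalize clsW b j' = P at *
  cases P <;> simp only [cw, k1c] at W1 W2 hcl <;> obtain ⟨a1, a2, a3, a4⟩ := W1 <;>
    obtain ⟨b1, b2, b3, b4⟩ := W2
  · refine ⟨key (80 / 1000) (by norm_num) b2 (by linarith only [hcl]) (by linarith only [hcl]), Or.inl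
      ⟨by decide, a1, by linarith only [a2], ?_⟩⟩
    rcases le_total 0 k with h0 | h0
    · obtain ⟨c1, c2, -⟩ := q1 h0
      refine ⟨?_, ?_, ?_⟩ <;> linarith only [c1, a1, a4, c2]
    · obtain ⟨c1, c2⟩ := q2 h0
      refine ⟨?_, ?_, ?_⟩ <;> linarith only [b1, c1, c2, a2]
  · refine ⟨key (985 / 10000) (by norm_num) b2 (by linarith only [hcl]) (by linarith only [hcl]), Or.inl
      ⟨by decide, by linarith only [a1], by linarith only [a2], ?_⟩⟩
    obtain ⟨c1, c2, -⟩ := q1 (by linarith only [a2, a3])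
    refine ⟨?_, ?_, ?_⟩ <;> linarith only [c1, a1, a4, c2]
  · refine ⟨key (1 / 1000) (by norm_num) b2 (by linarith only [hcl]) (by linarith only [hcl]), Or.inl
      ⟨by decide, by linarith only [a1], by linarith only [a2], ?_⟩⟩
    rcases le_total 0 k with h0 | h0
    · obtain ⟨c1, c2, -⟩ := q1 h0
      refine ⟨?_, ?_, ?_⟩ <;> linarith only [c1, a1, a4, c2]
    · obtain ⟨c1, c2⟩ := q2 h0
      refine ⟨?_, ?_, ?_⟩ <;> linarith only [a2, a3, c1, c2]
  · refine ⟨key (1145 / 10000) (by norm_num) b2 (by linarith only [hcl]) (by linarith only [hcl]), Or.inl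
      ⟨by decide, by linarith only [a1], by linarith only [a2], ?_⟩⟩
    obtain ⟨c1, c2, -⟩ := q1 (by linarith only [a2, a3])
    refine ⟨?_, ?_, ?_⟩ <;> linarith only [c1, b2, c2, a4]
  · refine ⟨key (78 / 1000) (by norm_num) b2 (by linarith only [hcl]) (by linarith only [hcl]), Or.inl
      ⟨by decide, by linarith only [a1], by linarith only [a2], ?_⟩⟩
    obtain ⟨c1, c2, -⟩ := q1 (by linarith only [a2, a3])
    refine ⟨?_, ?_, ?_⟩ <;> linarith only [c1, a1, a4, c2]
  · refine ⟨key (158 / 1000) (by norm_num) b2 (by linarith only [hcl]) (by linarith only [hcl]), Or.inr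
      ⟨rfl, a1, a2, ?_⟩⟩
    obtain ⟨c1, c2, -⟩ := q1 (by linarith only [a2, a3])
    refine ⟨?_, ?_, ?_⟩ <;> linarith only [c1, b2, c2, a4]

/-- **Cap of the hinges `1 | 2E`**: the flat end, if the hinges of the digits `1` are at most
`.70`. -/
theorem cap_one_twoE (hb : ClassW b) (hX : LocX b zs) (hy : Mx b zs y)
    (hpos : ∀ h : Fin M, 0 < y (.inl (.inl h))) (hF : Flr b y F0)
    (h70 : ∀ {h : Fin M} {i j : Fin (M + 1)} {p : Fin 3}, Adj h i p j → clsW b i = .one →
      y (.inl (.inl h)) ≤ 70 / 100)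
    (A : Adj h i p j) (hi : clsW b i = .one) (hj : clsW b j = .twoE) :
    y (.inl (.inl h)) ≤ 35 / 100 := by
  by_contra hcon
  push Not at hcon
  have hop := A.opp hb (Or.inl (by rw [hi]; decide))
  have hXM : wXM b h = 70 / 100 := by
    rw [A.XM_eq b, hi, hj]; unfold hpp; split_ifs <;> simp [hp, hp1]
  have hr : wcr b h = 35 / 100 := by
    rw [A.cr_eq b, hi, hj]; unfold hpp; split_ifs <;> simp [hp, hp1]
  have hl : wcl b h = 14 / 100 := by
    rw [A.cl_eq b, hi, hj]; unfold hpp; split_ifs <;> simp [hp, hp1]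
  have hcon' : wXM b h - wcr b h < y (.inl (.inl h)) := by
    rw [hXM, hr]; linarith only [hcon]
  obtain ⟨h', j', A'⟩ := A.other' b (clsW_inner hb (Or.inl hi))
  obtain ⟨f1, f2, f3⟩ := part_12E hX hy hF A A' hi hj
  have hrh := A.rh hy
  have hB : (Yw b zs y i p.rev).re ≤ 70 / 100 := by
    rw [A'.re]
    exact h70 A' hi
  have hrh' := A'.rh hy
  -- the hinge
  have hx : (Yw b zs y i p).re = y (.inl (.inl h)) := A.re
  have hx1 : (Yw b zs y i p).re ≤ 70 / 100 := by
    have := hrh.reM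
    rwa [hXM] at this
  have hτ : (Yw b zs y i p).im = ofs (b i) (zs (.inl (.inl h))).im *
      (20 / 7 * (7 / 10 - (Yw b zs y i p).re)) := by
    have := MR.RH_right hrh (wcl_pos h) (wcr_pos h) (w_sum h) (by rw [hx]; exact hcon'.le)
    rw [this, hXM, hr]
    ring
  -- first order
  have HD : (Yw b zs y i p).re + (Yw b zs y i p.rev).re ≤ 97 / 100 →
      M12.tt (-(ofs (b i) (zs (.inl (.inl h))).im) / (35 / 100)) (Yw b zs y i p).re
        (Yw b zs y i p).im (Yw b zs y i p.rev).re (Yw b zs y i p.rev).im < 0 → False := by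
    intro hs hneg
    obtain ⟨c, e1, e2, hc, he, hs⟩ : RStep b zs y h (slL b zs y h) := by
      refine RStep.of_adj A (c := 0) (fun _ => rfl) ?_ le_rfl le_rfl
      rw [zero_mul, zero_mul, add_zero, add_zero, A.side_one hb hi,
        A.symm.side_two hb (Or.inr hj), A.conj hop]
      have hv : Yw b zs y j p.rev.rev = 0 := by
        rcases A.symm.other b zs y with h5 | h5
        · exact h5.2
        · rw [clsW_end (Or.inl hj)] at h5
          exact absurd h5.1 (by decide)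
      have hw : Yw b zs y i p ∈ strip := ⟨by rw [hx]; linarith only [hcon], by linarith only [hx1]⟩
      have hw' : starRingEnd ℂ (Yw b zs y i p) ∈ strip :=
        ⟨by rw [Complex.conj_re]; exact hw.1, by rw [Complex.conj_re]; exact hw.2⟩
      have hu : Yw b zs y i p + Yw b zs y i p.rev ∈ strip := by
        refine ⟨?_, ?_⟩
        · rw [Complex.add_re]; linarith only [hcon, f1, hx, hw.1]
        · rw [Complex.add_re]; linarith only [hXM, hr, hcon', hx, hx1, hs]
      rw [hv, MR.S1_eq _ hw hu, MR.S2_zero_eq _ hw', Complex.conj_re, Complex.conj_im, ofs_opp hop,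
        ofs_slL_ramp _ hcon', hr, ← neg_div]
      exact hneg
    exact rside_false hb hy h (hpos h) hc he hs
  -- value
  have HV : ∀ c : ℝ, 14 / 100 ≤ c → c ≤ 35 / 100 →
      0 < M12.gn c (Yw b zs y i p).re (Yw b zs y i p).im (ofs (b i) (zs (.inl (.inl h))).im)
        (Yw b zs y i p.rev).re (Yw b zs y i p.rev).im → False := by
    intro c hc1 hc2 hg
    have h1 := val_hinge hb hy A (c := c) (by linarith only [hc1]) (by rw [hXM]; linarith only [hXM, hr, hcon', hx, hx1, hc2])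
    have hE : EndOk j (OY b zs y j) := Ow_endOk ((wpar b zs).pth zs y) j
    rw [dV_one hb A hi, dV_twoE hb A.symm hj hE, OY_hinge y A, OY_hinge y A', OY_hinge y A.symm,
      pw_flat (b i) h (by rw [hl]; exact hc1) (by rw [hXM, hr]; linarith only [hc2]),
      pw_flat (b j) h (by rw [hl]; exact hc1) (by rw [hXM, hr]; linarith only [hc2]), ofs_opp hop] at h1
    have e1 : pw b zs (b i) h (y (.inl (.inl h))) = Yw b zs y i p := A.Yw_eq.symm
    have e2 : pw b zs (b i) h' (y (.inl (.inl h'))) = Yw b zs y i p.rev := A'.Yw_eq.symm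
    have e3 : pw b zs (b j) h (y (.inl (.inl h))) = starRingEnd ℂ (Yw b zs y i p) :=
      A.symm.Yw_eq.symm.trans (A.conj hop)
    rw [e1, e2, e3] at h1
    have e4 : ∀ t : ℝ, (c : ℂ) + (t : ℂ) * Complex.I = ⟨c, t⟩ := by
      intro t
      apply Complex.ext <;> simp
    rw [e4, e4] at h1
    have h2 := M12.gn_eq (Yw b zs y i p).re (Yw b zs y i p).im (ofs (b i) (zs (.inl (.inl h))).im)
      (Yw b zs y i p.rev).re (Yw b zs y i p.rev).im c
    unfold M12.vv at h2
    have e5 : (⟨(Yw b zs y i p).re, -(Yw b zs y i p).im⟩ : ℂ) = starRingEnd ℂ (Yw b zs y i p) := by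
      apply Complex.ext <;> simp
    rw [e5, Complex.eta, Complex.eta] at h2
    linarith only [hg, h1, h2]
  generalize Yw b zs y i p = w at *
  generalize Yw b zs y i p.rev = v at *
  generalize ofs (b i) (zs (.inl (.inl h))).im = T at *
  have hx0 : 35 / 100 ≤ w.re := by rw [hx]; exact hcon.le
  rcases f3 with ⟨-, g1, g2, g3, g4, g5⟩ | ⟨hrg, g1, g2, g3, g4, g5⟩
  · rcases le_total (w.re + v.re) (97 / 100) with h1 | h1
    · exact HD h1 (M12.d_nr hx0 hx1 g1 g2 hτ g3 g4 g5 f1 f2 h1)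
    · exact HV (1 / 4) (by norm_num) (by norm_num) (M12.v_hs_nr hx0 hx1 g1 g2 hτ g3 g4 g5 hB h1)
  · rcases le_total (w.re + v.re) (97 / 100) with h1 | h1
    · rcases le_total w.re (60 / 100) with h2 | h2
      · exact HD h1 (M12.d_rg hx0 h2 g1 g2 hτ g3 g4 g5 f1 f2 h1)
      · exact HV (32 / 100) (by norm_num) (by norm_num)
          (M12.v_rg h2 hx1 g1 g2 hτ g3 g4 g5 f1 f2 h1)
    · have hB' : v.re ≤ 65 / 100 := by
        have h3 := hrh'.reM
        have h4 : wXM b h' = 65 / 100 := by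
          rw [A'.XM_eq b, hi, hrg]; unfold hpp; split_ifs <;> simp [hp, hp1]
        rwa [h4] at h3
      exact HV (1 / 4) (by norm_num) (by norm_num) (M12.v_hs_rg hx0 hx1 g1 g2 hτ g3 g4 g5 hB' h1)

end SR

end Pool.Agent.Work.MP_b30479_gt.G2
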