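import Pool.Agent.Work.MP_b30479_gt.G2.WCap1Z
import Pool.Agent.Work.MP_b30479_gt.G2.WRngZ
import Pool.Agent.Work.MP_b30479_gt.G2.RZ4
import Pool.Agent.Work.MP_b30479_gt.G2.WLocA
import Pool.Agent.Work.MP_b30479_gt.G2.LRCE

/-!
# The cap `.36` of the hinges `1 | ring`
-/

namespace Pool.Agent.Work.MP_b30479_gt.G2

open Finset VOL Filter Topology NumI

namespace SR

variable {M : ℕ} {b : Fin (M + 1) → ℤ} {zs : DD (tyW b) ⊕ ZZ (tyW b) → ℂ}
variable {y : DD (tyW b) ⊕ ZZ (tyW b) → ℝ}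
variable {h h' : Fin M} {i j j' : Fin (M + 1)} {p : Fin 3}

/-- the side of the ring at a hinge `1 | ring` on its right ramp: it beats the side of the digit -/
theorem Adj.ring_row (A : Adj h i p j) (A' : Adj h' i p.rev j') (hb : ClassW b) (hL : Loc b zs)
    (hX : LocX b zs) (hR : LocR b zs) (hG : LocRg b zs) (hy : Mx b zs y)
    (hc : clsW b i = .one) (hj : clsW b j = .ring)
    (hx : 36 / 100 < y (.inl (.inl h)))
    (hcap : y (.inl (.inl h)) ≤ 1 / 2 →
      ∀ {h' j'}, Adj h' j p.rev.rev j' → y (.inl (.inl h')) ≤ 1 / 2)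
    {T D : ℝ} (hT : ofs (b i) (zs (.inl (.inl h))).im = T) (h1 : 38 / 1000 ≤ T)
    (h2 : T ≤ 158 / 1000) {fa fb : Prop} (hres : DZ.Res fa fb (y (.inl (.inl h))) T D)
    (hab : T ≤ 128 / 1000 → fa ∨ (fb ∧ 58 / 1000 ≤ T ∧ (clsW b j' = .one ∨ clsW b j' = .two))) :
    D + Sw b zs y j p.rev (slL b zs y h) < 0 := by
  have hop := A.opp hb (Or.inl (by rw [hc]; decide))
  obtain ⟨hXM, hl, hr⟩ := A.par_one_ring hc hj
  have hTj : ofs (b j) (zs (.inl (.inl h))).im = -T := by rw [ofs_opp hop, hT]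
  have hrh := A.symm.rh hy
  rw [hXM, hl, hr, hTj] at hrh
  have him := MR.RH_right hrh (by norm_num) (by norm_num) (by norm_num)
    (by rw [A.symm.re]; linarith only [hx])
  have hM := hrh.reM
  rw [A.symm.re] at him hM
  have hW : RZ1.W (y (.inl (.inl h))) (T / (29 / 100)) (Yw b zs y j p.rev) := by
    refine ⟨A.symm.re .., ?_, hM⟩
    rw [him]
    ring
  rw [A.symm.side_ring hb hj, ofs_slL_ramp _ (by rw [hXM, hr]; linarith only [hx]), hr, hTj, neg_div,
    neg_neg]
  obtain ⟨v, hv, c1, c2, c3⟩ := A.symm.ring_ns hb hL hX hR hy hj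
  have n4 : 4 ≤ (b j).natAbs := ring_four hb (tyW_of_ring hb hj)
  have hρ := c1.1
  rcases le_or_gt (y (.inl (.inl h))) (1 / 2) with hx5 | hx5
  · -- `x ≤ 1/2`
    rcases eq_or_lt_of_le n4 with h4 | h5
    · -- four crossings
      have hT4 : T ≤ 128 / 1000 := by rw [← hT]; exact hX.one4 A hc hj h4.symm
      have e4 : ((b j).natAbs : ℝ) = 4 := by rw [← h4]; norm_num
      have hs4 : (1 : ℝ) / 8 ≤ 1 / 4 - 1 / (2 * ((b j).natAbs : ℝ)) := by rw [e4]; norm_num
      rcases hab hT4 with ha | ⟨hb', hT5, hP⟩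
      · have hD := hres.a ha hx5
        rcases c3 with hz | ⟨s, hz, hfm⟩
        · linarith only [hD, hW, hz, hx, hx5, h1, hT4, hρ, RZ1.a_flat hW hz hx.le hx5 h1 hT4 hρ]
        · obtain ⟨g1, g2⟩ := hfm (hcap hx5) hx5
          rw [e4] at g2
          linarith only [hD, hW, hz, hx, hx5, h1, hT4, hρ, hs4, g1, g2, RZ1.a_ramp hW hz hx.le hx5 h1 hT4 hρ (hs4.trans g1) g2]
      · have hD := hres.b hb' hx5
        obtain ⟨W, hW1, hW2⟩ := hG.one v hv A A' hc (Or.inl h4.symm)
        have q1 := hW2.q1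
        rw [ofr_im, ofz_im, hTj] at q1
        have hq : (zs (.inr v)).im ≤ 85 / 1000 ∧ (zs (.inr v)).im + T ≤ 1665 / 10000 := by
          rw [← h4] at hW1
          cases he : isEnd j
          · refine ⟨(hG.kr v hv A A' hc h4.symm he).1, ?_⟩
            rw [he] at hW1
            rcases hP with hP | hP <;> rw [hP] at hW1 <;>
              simp only [rw1, List.mem_cons, List.not_mem_nil, or_false] at hW1 <;>
              rcases hW1 with rfl | rfl | rfl | rfl | rfl <;> norm_num at q1 <;> linarith only [c2, hT5, q1, hρ]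
          · have : (zs (.inr v)).im + T ≤ 1269 / 10000 := by
              rw [he] at hW1
              rcases hP with hP | hP <;> rw [hP] at hW1 <;>
                simp only [rw1, List.mem_cons, List.not_mem_nil, or_false] at hW1 <;>
                rcases hW1 with rfl | rfl | rfl | rfl | rfl <;> norm_num at q1 <;> linarith only [c2, hT5, q1]
            constructor <;> linarith only [c2, hT5, this]
        rcases c3 with hz | ⟨s, hz, hfm⟩
        · linarith only [hD, hW, hz, hx, hx5, hT5, hT4, hq, RZ1.b2_flat hW hz hx.le hx5 hT5 hT4 hq.1 hq.2]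
        · obtain ⟨g1, g2⟩ := hfm (hcap hx5) hx5
          rw [e4] at g2
          linarith only [hD, hW, hz, hx, hx5, hT5, hT4, hq, hs4, g1, g2, RZ1.b2_ramp hW hz hx.le hx5 hT5 hT4 hq.1 hq.2 (hs4.trans g1) g2]
    · -- at least five crossings
      have e5 : (5 : ℝ) ≤ ((b j).natAbs : ℝ) := by exact_mod_cast h5
      have hρ5 := c1.2.1 e5
      have hD := hres.c hx5
      rcases c3 with hz | ⟨s, hz, hfm⟩
      · linarith only [hD, hW, hz, hx, hx5, h1, h2, hρ5, RZ1.c_flat hW hz hx.le hx5 h1 h2 hρ5]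
      · obtain ⟨g1, g2⟩ := hfm (hcap hx5) hx5
        have hs5 : (3 : ℝ) / 20 ≤ 1 / 4 - 1 / (2 * ((b j).natAbs : ℝ)) := by
          have : 1 / (2 * ((b j).natAbs : ℝ)) ≤ 1 / 10 := by
            apply one_div_le_one_div_of_le <;> linarith only [c2, hρ5, e5]
          linarith only [this]
        linarith only [hD, e5, hW, hz, hx, hx5, h1, h2, hρ5, hs5, g1, g2, RZ1.c_ramp e5 hW hz hx.le hx5 h1 h2 hρ5 (hs5.trans g1) g2]
  · rcases le_or_gt (y (.inl (.inl h))) (60 / 100) with hx6 | hx6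
    · have hD := hres.d hx5.le hx6
      rcases c3 with hz | ⟨s, hz, -⟩
      · linarith only [hD, hW, hz, hx5, hx6, h1, h2, hρ, RZ1.d_flat hW hz hx5.le hx6 h1 h2 hρ]
      · linarith only [hD, hW, hz, hx5, hx6, h1, h2, hρ, RZ1.d_ramp hW hz hx5.le hx6 h1 h2 hρ]
    · rcases eq_or_lt_of_le n4 with h4 | h5
      · have hT4 : T ≤ 128 / 1000 := by rw [← hT]; exact hX.one4 A hc hj h4.symm
        have hD := hres.e hx6.le hT4
        rcases c3 with hz | ⟨s, hz, -⟩
        · linarith only [hD, hW, hz, hx6, h1, hT4, hρ, RZ1.e_flat hW hz hx6.le h1 hT4 hρ]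
        · linarith only [hD, hW, hz, hx6, h1, hT4, hρ, RZ1.e_ramp hW hz hx6.le h1 hT4 hρ]
      · have e5 : (5 : ℝ) ≤ ((b j).natAbs : ℝ) := by exact_mod_cast h5
        have hρ5 := c1.2.1 e5
        have hD := hres.f hx6.le
        rcases c3 with hz | ⟨s, hz, -⟩
        · linarith only [hD, hW, hz, hx6, h1, h2, hρ5, RZ1.f_flat hW hz hx6.le h1 h2 hρ5]
        · linarith only [hD, hW, hz, hx6, h1, h2, hρ5, RZ1.f_ramp hW hz hx6.le h1 h2 hρ5]

/-- **The cap `.36` of the hinges `1 | ring`.** -/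
theorem cap_1Z (hb : ClassW b) (H : LocA b zs) (hy : Mx b zs y)
    (hpos : ∀ h : Fin M, 0 < y (.inl (.inl h))) (hF : Flr b y F1)
    (h1 : ∀ {h : Fin M} {i j : Fin (M + 1)} {p : Fin 3}, Adj h i p j → clsW b i = .one →
      y (.inl (.inl h)) ≤ 70 / 100)
    (h1E : ∀ {h : Fin M} {i j : Fin (M + 1)} {p : Fin 3}, Adj h i p j → clsW b i = .one →
      clsW b j = .twoE → y (.inl (.inl h)) ≤ 35 / 100)
    (h22 : ∀ {h : Fin M} {i j : Fin (M + 1)} {p : Fin 3}, Adj h i p j → clsW b i = .two →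
      y (.inl (.inl h)) ≤ 56 / 100)
    (hZ : ∀ {h : Fin M} {i j : Fin (M + 1)} {p : Fin 3}, Adj h i p j → clsW b i = .ring →
      clsW b j ≠ .one → y (.inl (.inl h)) ≤ 1 / 2)
    (hS : Sum1 b y (95 / 100)) (A : Adj h i p j) (hc : clsW b i = .one)
    (hj : clsW b j = .ring) : y (.inl (.inl h)) ≤ 36 / 100 := by
  by_contra hcon
  push Not at hcon
  refine right_step' hb hy hpos
    (Bad := fun h => (∃ (i j : Fin (M + 1)) (p : Fin 3), Adj h i p j ∧ clsW b i = .one ∧
      clsW b j = .ring) ∧ 36 / 100 < y (.inl (.inl h)))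
    (fun h => y (.inl (.inl h))) ?_ h ⟨⟨i, j, p, A, hc, hj⟩, hcon⟩
  clear A hc hj hcon
  rintro h i j p A - ⟨⟨i', j', p', B, hc, hj⟩, hx⟩ hmax
  clear A i j p
  obtain ⟨h', k, A'⟩ := B.other' b (clsW_inner hb (Or.inl hc))
  have hFp := hF A'
  have hwin := H.X.win B A' hc
  have hsum := hS B A' hc
  have hcap : y (.inl (.inl h)) ≤ 1 / 2 →
      ∀ {h'' k'}, Adj h'' j' p'.rev.rev k' → y (.inl (.inl h'')) ≤ 1 / 2 := by
    intro hx5 h'' k' A''
    by_cases hk : clsW b k' = .one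
    · rcases le_or_gt (y (.inl (.inl h''))) (36 / 100) with g | g
      · linarith only [g]
      · exact (hmax h'' ⟨⟨_, _, _, A''.symm, hk, hj⟩, g⟩).trans hx5
    · exact hZ A'' hj hk
  have key : ∀ {fa fb : Prop}, 38 / 1000 ≤ ofs (b i') (zs (.inl (.inl h))).im →
      ofs (b i') (zs (.inl (.inl h))).im ≤ 158 / 1000 →
      DZ.Res fa fb (y (.inl (.inl h))) (ofs (b i') (zs (.inl (.inl h))).im)
        (Sw b zs y i' p' (slL b zs y h)) →
      (ofs (b i') (zs (.inl (.inl h))).im ≤ 128 / 1000 →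
        fa ∨ (fb ∧ 58 / 1000 ≤ ofs (b i') (zs (.inl (.inl h))).im ∧
          (clsW b k = .one ∨ clsW b k = .two))) → RStep b zs y h (slL b zs y h) := by
    intro fa fb g1 g2 g3 g4
    have := B.ring_row A' hb H.L H.X H.R H.G hy hc hj hx hcap rfl g1 g2 g3 g4
    refine RStep.of_adj B (c := 0) (fun _ => rfl) this ?_ ?_ <;> linarith only []
  have h70 : ∀ {h : Fin M} {i j : Fin (M + 1)} {p : Fin 3}, Adj h i p j → clsW b i = .one →
      y (.inl (.inl h)) ≤ 70 / 100 := h1
  have f1 : ∀ {h : Fin M} {i j : Fin (M + 1)} {p : Fin 3}, Adj h i p j → clsW b i = .one →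
      11 / 100 ≤ y (.inl (.inl h)) := by
    intro h i j p A hc
    refine le_trans ?_ (hF A)
    rw [hc]
    cases clsW b j <;> simp only [F1] <;> (try split_ifs) <;> norm_num
  have f2 : ∀ {h : Fin M} {i j : Fin (M + 1)} {p : Fin 3}, Adj h i p j → clsW b i = .two →
      10 / 100 ≤ y (.inl (.inl h)) := by
    intro h i j p A hc
    refine le_trans ?_ (hF A)
    rw [hc]
    cases clsW b j <;> simp only [F1] <;> (try split_ifs) <;> norm_num
  have hok := okp_of hb B A' hc
  rcases hok with hok | hok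
  · rcases hok with h | h | h <;> rw [hj] at h <;> exact absurd h (by decide)
  rw [hj] at hwin
  rcases hok with hP | hP | hP
  · have r := B.res_one A' hb H.X hy hpos f1 h70 hc hj hP (by rw [hc, hP] at hFp; exact hFp) hx hsum
    rw [hP] at hwin
    simp only [cw] at hwin
    refine key (by linarith only [hwin, hwin.1]) (by linarith only [hwin, hwin.2.1]) r fun hT => ?_
    rcases le_total (ofs (b i') (zs (.inl (.inl h))).im) (58 / 1000) with g | g
    · exact Or.inl g
    · exact Or.inr ⟨⟨g, hT⟩, g, Or.inl hP⟩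
  · have r := B.res_two A' hb H.X hy hpos f2 h22 hc hj hP (by rw [hc, hP] at hFp; exact hFp) hx hsum
    rw [hP] at hwin
    simp only [cw] at hwin
    exact key (by linarith only [hwin, hwin.1]) (by linarith only [hwin, hwin.2.1]) r fun hT =>
      Or.inr ⟨hT, by linarith only [hwin, hwin.1], Or.inr hP⟩
  · have r := B.res_twoE A' hb H.X hy hpos hc hj hP (by rw [hc, hP] at hFp; exact hFp)
      (h1E A' hc hP) hx hsum
    rw [hP] at hwin
    simp only [cw] at hwin
    exact key (by linarith only [hwin, hwin.1]) (by linarith only [hwin, hwin.2.1]) r fun hT => Or.inl hT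

end SR

end Pool.Agent.Work.MP_b30479_gt.G2
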