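import Pool.Agent.Work.MP_b30479_gt.G2.DZ3
import Pool.Agent.Work.MP_b30479_gt.G2.MLW
import Pool.Agent.Work.MP_b30479_gt.G2.DZ2

/-!
# The right ramp of a hinge `1 | ring`
-/

namespace Pool.Agent.Work.MP_b30479_gt.G2

open Finset VOL Filter Topology NumI

namespace SR

variable {M : ℕ} {b : Fin (M + 1) → ℤ} {zs : DD (tyW b) ⊕ ZZ (tyW b) → ℂ}
variable {y : DD (tyW b) ⊕ ZZ (tyW b) → ℝ}
variable {h h' : Fin M} {i j j' : Fin (M + 1)} {p : Fin 3}

theorem Adj.par_one_ring (A : Adj h i p j) (hc : clsW b i = .one) (hj : clsW b j = .ring) :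
    wXM b h = 65 / 100 ∧ wcl b h = 16 / 100 ∧ wcr b h = 29 / 100 := by
  rw [A.XM_eq b, A.cl_eq b, A.cr_eq b, hc, hj]
  unfold hpp
  split_ifs <;> simp [hp, hp1]

/-- the side of the digit `1` at a hinge `1 | ring` on its right ramp -/
theorem Adj.digit_side (A : Adj h i p j) (A' : Adj h' i p.rev j') (hb : ClassW b) (hy : Mx b zs y)
    (hpos : ∀ h : Fin M, 0 < y (.inl (.inl h))) (hc : clsW b i = .one) (hj : clsW b j = .ring)
    (hx : 36 / 100 < y (.inl (.inl h))) (hs : y (.inl (.inl h)) + y (.inl (.inl h')) < 1) :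
    Sw b zs y i p (slL b zs y h) = DZ.dD (y (.inl (.inl h)))
      (ofs (b i) (zs (.inl (.inl h))).im) (y (.inl (.inl h'))) (Yw b zs y i p.rev).im := by
  obtain ⟨e1, e2, e3⟩ := A.par_one_ring hc hj
  have hx' : wXM b h - wcr b h < y (.inl (.inl h)) := by rw [e1, e3]; linarith only [hx]
  have hrh := A.rh hy
  rw [e1, e2, e3] at hrh
  have h0 := hpos h
  have h0' := hpos h'
  have hw : Yw b zs y i p ∈ strip := ⟨by rw [A.re]; exact h0, by rw [A.re]; linarith only [hs, h0']⟩
  have hu : Yw b zs y i p + Yw b zs y i p.rev ∈ strip :=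
    ⟨by rw [Complex.add_re, A.re, A'.re]; linarith only [hx, hs, h0'], by rw [Complex.add_re, A.re, A'.re]; linarith only [hs]⟩
  have him := MR.RH_right hrh (by norm_num) (by norm_num) (by norm_num)
    (by rw [A.re]; linarith only [hx])
  rw [A.side_one hb hc, ofs_slL_ramp _ hx', e3, MR.S1_eq _ hw hu, him, A.re, A'.re]
  unfold DZ.dD DZ.dy DZ.dn
  congr 1
  · ring
  · ring

/-- the side of the digit `1` at its other hinge -/
theorem Adj.digit_side' (A : Adj h i p j) (A' : Adj h' i p.rev j') (hb : ClassW b) (hy : Mx b zs y)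
    (hpos : ∀ h : Fin M, 0 < y (.inl (.inl h))) (hc : clsW b i = .one) (hj : clsW b j = .ring)
    (hx : 36 / 100 < y (.inl (.inl h))) (hs : y (.inl (.inl h)) + y (.inl (.inl h')) < 1) (m : ℝ) :
    Sw b zs y i p.rev m = MR.s1 (ofs (b i) m) (y (.inl (.inl h'))) (Yw b zs y i p.rev).im
      (y (.inl (.inl h))) (DZ.dy (y (.inl (.inl h))) (ofs (b i) (zs (.inl (.inl h))).im)) := by
  obtain ⟨e1, e2, e3⟩ := A.par_one_ring hc hj
  have hrh := A.rh hy
  rw [e1, e2, e3] at hrh
  have h0 := hpos h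
  have h0' := hpos h'
  have hw : Yw b zs y i p.rev ∈ strip := ⟨by rw [A'.re]; exact h0', by rw [A'.re]; linarith only [hx, hs, h0']⟩
  have hu : Yw b zs y i p.rev + Yw b zs y i p ∈ strip :=
    ⟨by rw [Complex.add_re, A.re, A'.re]; linarith only [hx, hs, h0'], by rw [Complex.add_re, A.re, A'.re]; linarith only [hs]⟩
  have him := MR.RH_right hrh (by norm_num) (by norm_num) (by norm_num)
    (by rw [A.re]; linarith only [hx])
  have hpp : p.rev.rev = p := Fin.rev_rev p
  rw [A'.side_one hb hc, hpp, MR.S1_eq _ hw hu, him, A.re, A'.re]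
  unfold DZ.dy DZ.dn
  congr 1
  ring

theorem Adj.par_one_one (A : Adj h i p j) (hc : clsW b i = .one) (hj : clsW b j = .one) :
    80 / 100 ≤ wXM b h ∧ wcl b h = 15 / 100 ∧ wcr b h = 20 / 100 := by
  rw [A.XM_eq b, A.cl_eq b, A.cr_eq b, hc, hj]
  unfold hpp hp
  split_ifs <;> norm_num

theorem Adj.par_one_two (A : Adj h i p j) (hc : clsW b i = .one) (hj : clsW b j = .two) :
    wXM b h = 80 / 100 ∧ wcl b h = 16 / 100 ∧ wcr b h = 29 / 100 := by
  rw [A.XM_eq b, A.cl_eq b, A.cr_eq b, hc, hj]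
  unfold hpp hp hp1
  split_ifs <;> norm_num

theorem Adj.par_one_twoE (A : Adj h i p j) (hc : clsW b i = .one) (hj : clsW b j = .twoE) :
    wXM b h = 70 / 100 ∧ wcl b h = 14 / 100 ∧ wcr b h = 35 / 100 := by
  rw [A.XM_eq b, A.cl_eq b, A.cr_eq b, hc, hj]
  unfold hpp hp hp1
  split_ifs <;> norm_num

/-- height and right slope at a hinge on the flat part of its path -/
theorem Adj.flat_data (A : Adj h i p j) (hy : Mx b zs y) (hcl : 0 < wcl b h) (hcr : 0 < wcr b h)
    (h1 : wcl b h ≤ y (.inl (.inl h))) (h2 : y (.inl (.inl h)) < wXM b h - wcr b h) :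
    (Yw b zs y i p).im = ofs (b i) (zs (.inl (.inl h))).im ∧ ofs (b i) (slR b zs y h) = 0 := by
  constructor
  · exact MR.RH_flat (A.rh hy) hcl hcr (by rw [A.re]; exact h1) (by rw [A.re]; exact h2.le)
  · rw [slR_flat h1 h2, ofs_zero]

/-- height and right slope at a hinge on the left ramp -/
theorem Adj.ramp_data (A : Adj h i p j) (hy : Mx b zs y) (hcl : 0 < wcl b h) (hcr : 0 < wcr b h)
    (hB : wcl b h + wcr b h < wXM b h) (h1 : y (.inl (.inl h)) < wcl b h) :
    (Yw b zs y i p).im = ofs (b i) (zs (.inl (.inl h))).im * (y (.inl (.inl h)) / wcl b h) ∧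
      ofs (b i) (slR b zs y h) = ofs (b i) (zs (.inl (.inl h))).im / wcl b h := by
  constructor
  · have := MR.RH_left (A.rh hy) hcl hcr hB (by rw [A.re]; exact h1.le)
    rw [this, A.re]
  · rw [slR_ramp h1, ofs_div]

/-- the balance at the other hinge of the digit `1`, next to a digit `1` -/
theorem Adj.bal_one (A : Adj h i p j) (A' : Adj h' i p.rev j') (hb : ClassW b) (hy : Mx b zs y)
    (hpos : ∀ h : Fin M, 0 < y (.inl (.inl h)))
    (hF : ∀ {h : Fin M} {i j : Fin (M + 1)} {p : Fin 3}, Adj h i p j → clsW b i = .one →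
      11 / 100 ≤ y (.inl (.inl h)))
    (h70 : ∀ {h : Fin M} {i j : Fin (M + 1)} {p : Fin 3}, Adj h i p j → clsW b i = .one →
      y (.inl (.inl h)) ≤ 70 / 100)
    (hc : clsW b i = .one) (hj : clsW b j = .ring) (hP : clsW b j' = .one)
    (hx : 36 / 100 < y (.inl (.inl h))) (hs : y (.inl (.inl h)) + y (.inl (.inl h')) < 1)
    (hz : y (.inl (.inl h')) < 3 / 10) : ∃ a β : ℝ, 11 / 100 ≤ a ∧ a ≤ 70 / 100 ∧
      MR.s1 (ofs (b i) (slR b zs y h')) (y (.inl (.inl h'))) (Yw b zs y i p.rev).im
        (y (.inl (.inl h))) (DZ.dy (y (.inl (.inl h))) (ofs (b i) (zs (.inl (.inl h))).im)) +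
      MR.s1 (-ofs (b i) (slR b zs y h')) (y (.inl (.inl h'))) (-(Yw b zs y i p.rev).im) a β ≤ 0 := by
  have hop := A'.opp hb (Or.inl (by rw [hc]; decide))
  obtain ⟨h'', j'', A''⟩ := A'.symm.other' b (clsW_inner hb (Or.inl hP))
  have e1 := (A'.par_one_one hc hP).1
  have h0' := hpos h'
  have u0 := hF A'' hP
  have u1 := h70 A'' hP
  have hfoc := A'.foc' hy h0' (by linarith only [hz, e1, h0'])
  refine ⟨y (.inl (.inl h'')), (Yw b zs y j' p.rev.rev.rev).im, u0, u1, ?_⟩
  have hw : Yw b zs y j' p.rev.rev ∈ strip :=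
    ⟨by rw [A'.symm.re]; exact h0', by rw [A'.symm.re]; linarith only [hz, h0']⟩
  have hu : Yw b zs y j' p.rev.rev + Yw b zs y j' p.rev.rev.rev ∈ strip :=
    ⟨by rw [Complex.add_re, A'.symm.re, A''.re]; linarith only [hz, h0', u0],
      by rw [Complex.add_re, A'.symm.re, A''.re]; linarith only [hz, u1]⟩
  rw [A.digit_side' A' hb hy hpos hc hj hx hs, A'.symm.side_one hb hP, MR.S1_eq _ hw hu,
    A'.symm.re, A''.re, ofs_opp hop, A'.conj hop, Complex.conj_im] at hfoc
  exact hfoc

/-- next to an interior digit `2` -/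
theorem Adj.bal_two (A : Adj h i p j) (A' : Adj h' i p.rev j') (hb : ClassW b) (hy : Mx b zs y)
    (hpos : ∀ h : Fin M, 0 < y (.inl (.inl h)))
    (hF : ∀ {h : Fin M} {i j : Fin (M + 1)} {p : Fin 3}, Adj h i p j → clsW b i = .two →
      10 / 100 ≤ y (.inl (.inl h)))
    (h56 : ∀ {h : Fin M} {i j : Fin (M + 1)} {p : Fin 3}, Adj h i p j → clsW b i = .two →
      y (.inl (.inl h)) ≤ 56 / 100)
    (hc : clsW b i = .one) (hj : clsW b j = .ring) (hP : clsW b j' = .two)
    (hx : 36 / 100 < y (.inl (.inl h))) (hs : y (.inl (.inl h)) + y (.inl (.inl h')) < 1)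
    (hz : y (.inl (.inl h')) < 44 / 100) : ∃ a β : ℝ, 10 / 100 ≤ a ∧ a ≤ 56 / 100 ∧
      MR.s1 (ofs (b i) (slR b zs y h')) (y (.inl (.inl h'))) (Yw b zs y i p.rev).im
        (y (.inl (.inl h))) (DZ.dy (y (.inl (.inl h))) (ofs (b i) (zs (.inl (.inl h))).im)) +
      MR.s2 (-ofs (b i) (slR b zs y h')) (y (.inl (.inl h'))) (-(Yw b zs y i p.rev).im) a β ≤ 0 := by
  have hop := A'.opp hb (Or.inl (by rw [hc]; decide))
  obtain ⟨h'', j'', A''⟩ := A'.symm.other' b (clsW_inner hb (Or.inr (Or.inl hP)))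
  have e1 := (A'.par_one_two hc hP).1
  have h0' := hpos h'
  have u0 := hF A'' hP
  have u1 := h56 A'' hP
  have hfoc := A'.foc' hy h0' (by linarith only [hx, hs, e1, h0'])
  refine ⟨y (.inl (.inl h'')), (Yw b zs y j' p.rev.rev.rev).im, u0, u1, ?_⟩
  have hw : Yw b zs y j' p.rev.rev ∈ strip :=
    ⟨by rw [A'.symm.re]; exact h0', by rw [A'.symm.re]; linarith only [hx, hs, h0']⟩
  have hu : Yw b zs y j' p.rev.rev + Yw b zs y j' p.rev.rev.rev ∈ strip :=
    ⟨by rw [Complex.add_re, A'.symm.re, A''.re]; linarith only [hx, hs, h0', u0],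
      by rw [Complex.add_re, A'.symm.re, A''.re]; linarith only [hz, u1]⟩
  rw [A.digit_side' A' hb hy hpos hc hj hx hs, A'.symm.side_two hb (Or.inl hP), MR.S2_eq _ hw hu,
    A'.symm.re, A''.re, ofs_opp hop, A'.conj hop, Complex.conj_im] at hfoc
  exact hfoc

/-- next to a digit `2` at the end -/
theorem Adj.bal_twoE (A : Adj h i p j) (A' : Adj h' i p.rev j') (hb : ClassW b) (hy : Mx b zs y)
    (hpos : ∀ h : Fin M, 0 < y (.inl (.inl h)))
    (hc : clsW b i = .one) (hj : clsW b j = .ring) (hP : clsW b j' = .twoE)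
    (hx : 36 / 100 < y (.inl (.inl h))) (hs : y (.inl (.inl h)) + y (.inl (.inl h')) < 1)
    (hz : y (.inl (.inl h')) < 3 / 10) :
      MR.s1 (ofs (b i) (slR b zs y h')) (y (.inl (.inl h'))) (Yw b zs y i p.rev).im
        (y (.inl (.inl h))) (DZ.dy (y (.inl (.inl h))) (ofs (b i) (zs (.inl (.inl h))).im)) +
      MR.s2e (-ofs (b i) (slR b zs y h')) (y (.inl (.inl h'))) (-(Yw b zs y i p.rev).im) ≤ 0 := by
  have hop := A'.opp hb (Or.inl (by rw [hc]; decide))
  have e1 := (A'.par_one_twoE hc hP).1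
  have h0' := hpos h'
  have hfoc := A'.foc' hy h0' (by linarith only [hz, e1, h0'])
  have hw : Yw b zs y j' p.rev.rev ∈ strip :=
    ⟨by rw [A'.symm.re]; exact h0', by rw [A'.symm.re]; linarith only [hz, h0']⟩
  have hv : Yw b zs y j' p.rev.rev.rev = 0 := by
    rcases A'.symm.other b zs y with h5 | h5
    · exact h5.2
    · rw [clsW_end (Or.inl hP)] at h5
      exact absurd h5.1 (by decide)
  rw [A.digit_side' A' hb hy hpos hc hj hx hs, A'.symm.side_two hb (Or.inr hP), hv,
    MR.S2_zero_eq _ hw, A'.symm.re, ofs_opp hop, A'.conj hop, Complex.conj_im] at hfoc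
  exact hfoc

/-- the side of the digit `1`, the other neighbour is a digit `1` -/
theorem Adj.res_one (A : Adj h i p j) (A' : Adj h' i p.rev j') (hb : ClassW b) (hX : LocX b zs)
    (hy : Mx b zs y) (hpos : ∀ h : Fin M, 0 < y (.inl (.inl h)))
    (hF : ∀ {h : Fin M} {i j : Fin (M + 1)} {p : Fin 3}, Adj h i p j → clsW b i = .one →
      11 / 100 ≤ y (.inl (.inl h)))
    (h70 : ∀ {h : Fin M} {i j : Fin (M + 1)} {p : Fin 3}, Adj h i p j → clsW b i = .one →
      y (.inl (.inl h)) ≤ 70 / 100)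
    (hc : clsW b i = .one) (hj : clsW b j = .ring) (hP : clsW b j' = .one)
    (hF1 : 125 / 1000 ≤ y (.inl (.inl h')))
    (hx : 36 / 100 < y (.inl (.inl h))) (hs : y (.inl (.inl h)) + y (.inl (.inl h')) ≤ 95 / 100) :
    DZ.Res (ofs (b i) (zs (.inl (.inl h))).im ≤ 58 / 1000)
      (58 / 1000 ≤ ofs (b i) (zs (.inl (.inl h))).im ∧ ofs (b i) (zs (.inl (.inl h))).im ≤ 128 / 1000)
      (y (.inl (.inl h))) (ofs (b i) (zs (.inl (.inl h))).im) (Sw b zs y i p (slL b zs y h)) := by
  have hpi := Real.pi_pos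
  have hpi' := Real.pi_lt_d2
  obtain ⟨e1, e2, e3⟩ := A'.par_one_one hc hP
  obtain ⟨w1, w2, w3, w4⟩ := hX.win A A' hc
  obtain ⟨v1, v2, -, -⟩ := hX.win A' A.rr hc
  rw [hj, hP] at w1 w2 w3 w4 v1 v2
  simp only [cw] at w1 w2 w3 w4 v1 v2
  have hxM := (A.rh hy).reM
  rw [A.re, (A.par_one_ring hc hj).1] at hxM
  have h0' := hpos h'
  rw [A.digit_side A' hb hy hpos hc hj hx (by linarith only [hx, hs, h0'])]
  have hbal := fun hz => A.bal_one A' hb hy hpos hF h70 hc hj hP hx (by linarith only [hx, hs, h0']) hz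
  rcases lt_or_ge (y (.inl (.inl h'))) (15 / 100) with hz | hz
  · obtain ⟨g1, g2⟩ := A'.ramp_data hy (by rw [e2]; norm_num) (by rw [e3]; norm_num)
      (by rw [e2, e3]; linarith only [e1]) (by rw [e2]; exact hz)
    rw [e2] at g1 g2
    have g1' : (Yw b zs y i p.rev).im =
        100 / 15 * ofs (b i) (zs (.inl (.inl h'))).im * y (.inl (.inl h')) := by rw [g1]; ring
    have g2' : ofs (b i) (slR b zs y h') = 100 / 15 * ofs (b i) (zs (.inl (.inl h'))).im := by
      rw [g2]; ring
    obtain ⟨a, β, ha, ha', hbal⟩ := hbal (by linarith only [h0', hz])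
    rw [g1', g2'] at hbal
    rw [g1']
    rcases le_total (ofs (b i) (zs (.inl (.inl h'))).im) 0 with hK | hK
    · refine DZ.oneN_res (by linarith only [hx]) hxM (by linarith only [w1]) (by linarith only [w2]) (by linarith only [hF1]) (by linarith only [hz])
        hs (by linarith only [v1]) (by linarith only [hK]) (by linarith only [w3]) (by linarith only [w4]) fun hz' => ?_
      refine (DZ.dL_one ?_).trans hbal
      exact DZ.H_neg (c := 235 / 1000) h0' (by linarith only [ha]) hz' (by linarith only [ha']) (Or.inr (by linarith only [hF1, h0', ha]))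
        (by linarith only [hK]) (by norm_num) (by linarith only [hF1, ha]) (by nlinarith only [hx, hs, hpi', h0'])
    · refine DZ.oneP_res (by linarith only [hx]) hxM (by linarith only [w1]) (by linarith only [w2]) (by linarith only [hF1]) (by linarith only [hz])
        hs (by linarith only [hK]) (by linarith only [v2]) (by linarith only [w1, h0', hz, hK]) (by linarith only [w4]) fun hz' => ?_
      refine (DZ.dL_one ?_).trans hbal
      exact DZ.H_pos (c := y (.inl (.inl h')) + 7 / 10) h0' (by linarith only [h0', hz, ha]) hz' (by linarith only [ha'])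
        (Or.inr (by linarith only [hF1, h0', ha])) (by linarith only [hK]) (by linarith only [h0', hz]) (by linarith only [ha']) (by rw [neg_neg])
  · obtain ⟨g1, g2⟩ := A'.flat_data hy (by rw [e2]; norm_num) (by rw [e3]; norm_num)
      (by rw [e2]; exact hz) (by rw [e3]; linarith only [hx, hs, e1, h0'])
    rw [g1]
    refine DZ.oneF_res (by linarith only [hx]) hxM (by linarith only [w1]) (by linarith only [w2]) (by linarith only [hz]) (by linarith only [hx, hs])
      hs (by linarith only [v1]) (by linarith only [v2]) (by linarith only [w3]) (by linarith only [w4]) fun hz' => ?_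
    obtain ⟨a, β, ha, ha', hbal⟩ := hbal (by linarith only [hz'])
    rw [g1, g2] at hbal
    refine (DZ.dL_one ?_).trans hbal
    exact DZ.H_flat h0' (by linarith only [ha]) hz' (by linarith only [ha']) (Or.inr (by linarith only [h0', hz, ha]))

/-- the side of the digit `1`, the other neighbour is an interior digit `2` -/
theorem Adj.res_two (A : Adj h i p j) (A' : Adj h' i p.rev j') (hb : ClassW b) (hX : LocX b zs)
    (hy : Mx b zs y) (hpos : ∀ h : Fin M, 0 < y (.inl (.inl h)))
    (hF : ∀ {h : Fin M} {i j : Fin (M + 1)} {p : Fin 3}, Adj h i p j → clsW b i = .two →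
      10 / 100 ≤ y (.inl (.inl h)))
    (h56 : ∀ {h : Fin M} {i j : Fin (M + 1)} {p : Fin 3}, Adj h i p j → clsW b i = .two →
      y (.inl (.inl h)) ≤ 56 / 100)
    (hc : clsW b i = .one) (hj : clsW b j = .ring) (hP : clsW b j' = .two)
    (hF1 : 150 / 1000 ≤ y (.inl (.inl h')))
    (hx : 36 / 100 < y (.inl (.inl h))) (hs : y (.inl (.inl h)) + y (.inl (.inl h')) ≤ 95 / 100) :
    DZ.Res False (ofs (b i) (zs (.inl (.inl h))).im ≤ 128 / 1000)
      (y (.inl (.inl h))) (ofs (b i) (zs (.inl (.inl h))).im) (Sw b zs y i p (slL b zs y h)) := by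
  have hpi := Real.pi_pos
  obtain ⟨e1, e2, e3⟩ := A'.par_one_two hc hP
  obtain ⟨w1, w2, w3, w4⟩ := hX.win A A' hc
  obtain ⟨v1, v2, -, -⟩ := hX.win A' A.rr hc
  rw [hj, hP] at w1 w2 w3 w4 v1 v2
  simp only [cw] at w1 w2 w3 w4 v1 v2
  have hxM := (A.rh hy).reM
  rw [A.re, (A.par_one_ring hc hj).1] at hxM
  have h0' := hpos h'
  have hz56 := h56 A'.symm hP
  rw [A.digit_side A' hb hy hpos hc hj hx (by linarith only [hx, hs, h0'])]
  have hbal := fun hz => A.bal_two A' hb hy hpos hF h56 hc hj hP hx (by linarith only [hx, hs, h0']) hz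
  rcases lt_or_ge (y (.inl (.inl h'))) (16 / 100) with hz | hz
  · obtain ⟨g1, g2⟩ := A'.ramp_data hy (by rw [e2]; norm_num) (by rw [e3]; norm_num)
      (by rw [e2, e3]; linarith only [e1]) (by rw [e2]; exact hz)
    rw [e2] at g1 g2
    have g1' : (Yw b zs y i p.rev).im =
        100 / 16 * ofs (b i) (zs (.inl (.inl h'))).im * y (.inl (.inl h')) := by rw [g1]; ring
    have g2' : ofs (b i) (slR b zs y h') = 100 / 16 * ofs (b i) (zs (.inl (.inl h'))).im := by
      rw [g2]; ring
    obtain ⟨a, β, ha, ha', hbal⟩ := hbal (by linarith only [h0', hz])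
    rw [g1', g2'] at hbal
    rw [g1']
    rcases le_total (ofs (b i) (zs (.inl (.inl h'))).im) 0 with hK | hK
    · refine DZ.twoN_res (by linarith only [hx]) hxM (by linarith only [w3, h0', hz, hK]) (by linarith only [w2]) (by linarith only [hF1]) (by linarith only [hz])
        hs (by linarith only [v1]) (by linarith only [hK]) (by linarith only [w3]) (by linarith only [w2, h0', hz, hK]) fun hz' => ?_
      rw [← add_zero (-(Real.pi * (1 / 2)))]
      refine (DZ.dL_two ?_).trans hbal
      exact DZ.H_neg (c := 1 / 4) h0' (by linarith only [h0', hz, ha]) hz' (by linarith only [ha']) (Or.inl (by linarith only [hF1, ha]))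
        (by linarith only [hK]) (by norm_num) (by linarith only [hF1, ha]) (by norm_num)
    · refine DZ.twoP_res (by linarith only [hx]) hxM (by linarith only [w1]) (by linarith only [w2]) (by linarith only [hF1]) (by linarith only [hz])
        hs (by linarith only [hK]) (by linarith only [v2]) (by linarith only [w3]) (by linarith only [w4]) fun hz' => ?_
      rw [show -(Real.pi * (2 * (y (.inl (.inl h')) + 56 / 100))) = -(Real.pi * (1 / 2)) +
        -(Real.pi * (2 * (y (.inl (.inl h')) + 56 / 100) - 1 / 2)) by ring]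
      refine (DZ.dL_two ?_).trans hbal
      exact DZ.H_pos (c := y (.inl (.inl h')) + 56 / 100) h0' (by linarith only [ha]) hz' (by linarith only [ha'])
        (Or.inl (by linarith only [hF1, ha])) (by linarith only [hK]) (by linarith only [h0']) (by linarith only [ha']) (by rw [neg_neg])
  · rcases lt_or_ge (y (.inl (.inl h'))) (51 / 100) with hz2 | hz2
    · obtain ⟨g1, g2⟩ := A'.flat_data hy (by rw [e2]; norm_num) (by rw [e3]; norm_num)
        (by rw [e2]; exact hz) (by rw [e1, e3]; linarith only [hz2])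
      rw [g1]
      refine DZ.twoF_res (by linarith only [hx]) hxM (by linarith only [w1]) (by linarith only [w2]) (by linarith only [hz]) (by linarith only [hz2])
        hs (by linarith only [v1]) (by linarith only [v2]) (by linarith only [w3]) (by linarith only [w4]) fun hz' => ?_
      obtain ⟨a, β, ha, ha', hbal⟩ := hbal (by linarith only [hz'])
      rw [g1, g2] at hbal
      rw [DZ.dL_mu_zero 0 (-(Real.pi * (1 / 2)) + 0)]
      refine (DZ.dL_two ?_).trans hbal
      exact DZ.H_flat h0' (by linarith only [ha]) hz' (by linarith only [ha']) (Or.inl (by linarith only [h0', hz, ha]))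
    · have hrh := A'.rh hy
      rw [e1, e2, e3] at hrh
      have g1 := MR.RH_right hrh (by norm_num) (by norm_num) (by norm_num)
        (by rw [A'.re]; linarith only [hz2])
      rw [A'.re] at g1
      have t1 : (80 / 100 - y (.inl (.inl h'))) / (29 / 100) ≤ 1 := by
        rw [div_le_one (by norm_num)]; linarith only [hz2]
      have t0 : 82 / 100 ≤ (80 / 100 - y (.inl (.inl h'))) / (29 / 100) := by
        rw [le_div_iff₀ (by norm_num)]; linarith only [h0', hz56]
      refine DZ.twoG_res (by linarith only [hx]) hxM (by linarith only [w1]) (by linarith only [w2]) (by linarith only [hz2]) (by linarith only [hz56])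
        hs ?_ ?_ ?_ ?_ <;> rw [g1] <;> nlinarith only [v1, hz2, hx, hs, v2, w3, h0', hF1, w1, w2, w4]

/-- the side of the digit `1`, the other neighbour is a digit `2` at the end -/
theorem Adj.res_twoE (A : Adj h i p j) (A' : Adj h' i p.rev j') (hb : ClassW b) (hX : LocX b zs)
    (hy : Mx b zs y) (hpos : ∀ h : Fin M, 0 < y (.inl (.inl h)))
    (hc : clsW b i = .one) (hj : clsW b j = .ring) (hP : clsW b j' = .twoE)
    (hF1 : 125 / 1000 ≤ y (.inl (.inl h'))) (h35 : y (.inl (.inl h')) ≤ 35 / 100)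
    (hx : 36 / 100 < y (.inl (.inl h))) (hs : y (.inl (.inl h)) + y (.inl (.inl h')) ≤ 95 / 100) :
    DZ.Res (ofs (b i) (zs (.inl (.inl h))).im ≤ 128 / 1000) False
      (y (.inl (.inl h))) (ofs (b i) (zs (.inl (.inl h))).im) (Sw b zs y i p (slL b zs y h)) := by
  have hpi := Real.pi_pos
  obtain ⟨e1, e2, e3⟩ := A'.par_one_twoE hc hP
  obtain ⟨w1, w2, w3, w4⟩ := hX.win A A' hc
  obtain ⟨v1, v2, -, -⟩ := hX.win A' A.rr hc
  rw [hj, hP] at w1 w2 w3 w4 v1 v2
  simp only [cw] at w1 w2 w3 w4 v1 v2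
  have hxM := (A.rh hy).reM
  rw [A.re, (A.par_one_ring hc hj).1] at hxM
  have h0' := hpos h'
  rw [A.digit_side A' hb hy hpos hc hj hx (by linarith only [h35, hs, h0'])]
  have hbal := fun hz => A.bal_twoE A' hb hy hpos hc hj hP hx (by linarith only [h35, hs, h0']) hz
  rcases lt_or_ge (y (.inl (.inl h'))) (14 / 100) with hz | hz
  · obtain ⟨g1, g2⟩ := A'.ramp_data hy (by rw [e2]; norm_num) (by rw [e3]; norm_num)
      (by rw [e2, e3]; linarith only [e1]) (by rw [e2]; exact hz)
    rw [e2] at g1 g2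
    have g1' : (Yw b zs y i p.rev).im =
        100 / 14 * ofs (b i) (zs (.inl (.inl h'))).im * y (.inl (.inl h')) := by rw [g1]; ring
    have g2' : ofs (b i) (slR b zs y h') = 100 / 14 * ofs (b i) (zs (.inl (.inl h'))).im := by
      rw [g2]; ring
    have hbal := hbal (by linarith only [h0', hz])
    rw [g1', g2'] at hbal
    rw [g1']
    refine DZ.tweN_res (by linarith only [hx]) hxM (by linarith only [w1]) (by linarith only [w2]) (by linarith only [hF1]) (by linarith only [hz])
      hs (by linarith only [v1]) (by linarith only [v2]) (by linarith only [w3]) (by linarith only [w4]) fun hz' => ?_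
    rw [DZ.dL_twe]
    exact hbal
  · have g1 : (Yw b zs y i p.rev).im = ofs (b i) (zs (.inl (.inl h'))).im :=
      MR.RH_flat (A'.rh hy) (by rw [e2]; norm_num) (by rw [e3]; norm_num)
        (by rw [A'.re, e2]; exact hz) (by rw [A'.re, e1, e3]; linarith only [h35])
    rw [g1]
    refine DZ.tweF_res (by linarith only [hx]) hxM (by linarith only [w1]) (by linarith only [w2]) (by linarith only [hz]) (by linarith only [h35])
      hs (by linarith only [v1]) (by linarith only [v2]) (by linarith only [w3]) (by linarith only [w4]) fun hz' => ?_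
    obtain ⟨-, g2⟩ := A'.flat_data hy (by rw [e2]; norm_num) (by rw [e3]; norm_num)
      (by rw [e2]; exact hz) (by rw [e1, e3]; linarith only [h0', hz'])
    have hbal := hbal (by linarith only [hz'])
    rw [g1, g2] at hbal
    rw [DZ.dL_mu_zero 0 (-(Real.pi * (1 / 2))), DZ.dL_twe]
    exact hbal

end SR

end Pool.Agent.Work.MP_b30479_gt.G2
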