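import Pool.Agent.Work.MP_b30479_gt.G2.R33
import Pool.Agent.Work.MP_b30479_gt.G2.WS0R

/-!
# The cap of a hinge between two interior regions with three crossings
-/

namespace Pool.Agent.Work.MP_b30479_gt.G2

open Finset VOL Filter Topology

namespace SR

variable {M : ℕ} {b : Fin (M + 1) → ℤ} {zs : DD (tyW b) ⊕ ZZ (tyW b) → ℂ}
variable {y : DD (tyW b) ⊕ ZZ (tyW b) → ℝ}
variable {h h' : Fin M} {i j k : Fin (M + 1)}

/-- the side of the right region of `3 | 3` -/
theorem cap33_side (A : Adj h i 2 j) (A' : Adj h' j 2 k) (hb : ClassW b) (hL : Loc b zs)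
    (hX : LocX b zs) (hy : Mx b zs y) (hpos : ∀ h : Fin M, 0 < y (.inl (.inl h)))
    (hi : clsW b i = .three) (hj : clsW b j = .three) (h7 : 7 / 100 ≤ y (.inl (.inl h')))
    (hc : y (.inl (.inl h')) ≤ cap2 (clsW b k)) :
    y (.inl (.inl h)) ≤ 1 / 2 ∧
    (30 / 100 < y (.inl (.inl h)) → y (.inl (.inl h)) ≤ 40 / 100 →
      Sw b zs y j 0 (slL b zs y h) < 66 / 100 - 3 / 2 * y (.inl (.inl h))) ∧
    (40 / 100 < y (.inl (.inl h)) → y (.inl (.inl h)) ≤ 1 / 2 →
      Sw b zs y j 0 (slL b zs y h) < 0) := by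
  have B : Adj h j 0 i := A.symm
  have h50 := s0_cap hb hL hX hy B A' hj (by rw [hi]; decide) (by rw [hi]; decide)
    (hc.trans (cap2_le _))
  have key := fun h30 => s0r_three hb hL hX hy hpos B A' hj (Or.inl hi)
    (fun he => absurd (hi.symm.trans he) (by decide)) h7 hc h30 h50
  refine ⟨h50, fun h30 h40 => ?_, fun h40 _ => ?_⟩
  · have := key h30
    unfold s0rB at this
    rw [hi] at this
    norm_num at this
    split_ifs at this <;> linarith
  · have := key (by linarith)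
    unfold s0rB at this
    rw [hi] at this
    norm_num at this
    split_ifs at this <;> linarith

/-- **`3 | 3`** without the height of the inner variable -/
theorem cap33_lo (A : Adj h i 2 j) (A' : Adj h' j 2 k) (hb : ClassW b) (hL : Loc b zs)
    (hX : LocX b zs) (hy : Mx b zs y) (hpos : ∀ h : Fin M, 0 < y (.inl (.inl h)))
    (hi : clsW b i = .three) (hj : clsW b j = .three) (h7 : 7 / 100 ≤ y (.inl (.inl h')))
    (hc : y (.inl (.inl h')) ≤ cap2 (clsW b k)) :
    y (.inl (.inl h)) ≤ 31 / 100 := by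
  obtain ⟨h50, s1, s2⟩ := cap33_side A A' hb hL hX hy hpos hi hj h7 hc
  exact cap33_31 A hb hL hX hy (hpos h) hi hj h50 s1 s2

/-- **`3 | 3`**; `hN`: the height of the inner variable of the left region (`LocM3.three`) -/
theorem cap33 (A : Adj h i 2 j) (A' : Adj h' j 2 k) (hb : ClassW b) (hL : Loc b zs)
    (hX : LocX b zs) (hy : Mx b zs y) (hpos : ∀ h : Fin M, 0 < y (.inl (.inl h)))
    (hi : clsW b i = .three) (hj : clsW b j = .three) (h7 : 7 / 100 ≤ y (.inl (.inl h')))
    (hc : y (.inl (.inl h')) ≤ cap2 (clsW b k))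
    (hN : 0 ≤ ofs (b i) (zs (.inl (.inl h))).im → ∀ hm : (tyW b i).isMid = true,
      ofs (b i) (zs (.inl (.inr ⟨i, hm⟩))).im ≤ -(5 / 1000)) :
    y (.inl (.inl h)) ≤ 30 / 100 := by
  obtain ⟨h50, s1, s2⟩ := cap33_side A A' hb hL hX hy hpos hi hj h7 hc
  exact cap33_30 A hb hL hX hy (hpos h) hi hj hN h50 s1 s2

end SR

end Pool.Agent.Work.MP_b30479_gt.G2
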