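import Pool.Agent.Work.MP_b30479_gt.G2.WChL
import Pool.Agent.Work.MP_b30479_gt.G2.V30N
import Pool.Agent.Work.MP_b30479_gt.G2.S2Lf

/-!
# The sides of the interior regions with three crossings in the left rounds
-/

namespace Pool.Agent.Work.MP_b30479_gt.G2

open Finset VOL Filter Topology

namespace SR

open ML

variable {M : ℕ} {b : Fin (M + 1) → ℤ} {zs : DD (tyW b) ⊕ ZZ (tyW b) → ℂ}
variable {y : DD (tyW b) ⊕ ZZ (tyW b) → ℝ}
variable {h h' h1 h2 : Fin M} {i j j' j1 j2 k : Fin (M + 1)} {p : Fin 3}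

/-- the caps on the hinges at the slot `2` of the interior regions with three crossings -/
def Cap3 (b : Fin (M + 1) → ℤ) (y : DD (tyW b) ⊕ ZZ (tyW b) → ℝ) : Prop :=
  ∀ {h : Fin M} {i k : Fin (M + 1)}, Adj h i 2 k → clsW b i = .three →
    y (.inl (.inl h)) ≤ VL.cpR (clsW b k)

theorem e3T_two {n : ℕ} (hn : n ≤ 2) (B : Cl) : e3T n 2 B ≤ (e2 n B : ℝ) / 1000 := by
  interval_cases n <;> cases B <;> norm_num [e3T, e2]

/-- the sides at the slot `0` -/
theorem threeSd_zero (hb : ClassW b) (H : LocA b zs) (hy : Mx b zs y)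
    (hpos : ∀ h : Fin M, 0 < y (.inl (.inl h))) (hw : Cap3 b y) {n : ℕ}
    (A : Adj h i 0 j) (hc : clsW b i = .three) (hx : y (.inl (.inl h)) ≤ wcl b h)
    (h7 : n = 0 → y (.inl (.inl h)) ≤ 7 / 100) :
    e3T n 0 (clsW b j) < Sw b zs y i 0 ((zs (.inl (.inl h))).im / wcl b h) +
      shL .three (clsW b j) (y (.inl (.inl h))) * ofs (b i) ((zs (.inl (.inl h))).im / wcl b h) := by
  obtain ⟨h', k, A'⟩ := A.other' b (clsW_inner hb (Or.inr (Or.inr hc)))
  have := three_side0 hb H.L H.X hy hpos A A' hc hx (hw A' hc)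
  rw [shL_cS]
  by_cases h1 : clsW b j = .one
  · obtain ⟨u1, u2⟩ := this.2 h1
    rw [h1]
    have e : cS .one (y (.inl (.inl h))) = Real.pi - 9 / 2 * y (.inl (.inl h)) := by
      simp only [cS, cR]
      push_cast
      ring
    rw [e]
    rcases Nat.eq_zero_or_pos n with h0 | h0
    · subst h0
      refine lt_of_le_of_lt ?_ (u1 (h7 rfl))
      simp only [e3T]
      rw [if_neg (by decide), if_pos trivial]
      norm_num
    · refine lt_of_le_of_lt ?_ u2
      simp only [e3T]
      rw [if_neg (by decide), if_neg h0.ne']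
  · have e : cS (clsW b j) (y (.inl (.inl h))) = Real.pi / 2 := by
      rw [← shL_cS, shL_of_ne (by decide) h1]
    rw [e]
    refine lt_of_le_of_lt ?_ (this.1 h1)
    have e2 : ((0 : Fin 3) = 2) ↔ False := by decide
    rcases hj : clsW b j with _ | _ | _ | _ | _ | _ <;>
      first | exact absurd hj h1 | (simp only [e3T, e2, if_false, VL.S0.eT]; norm_num)

/-- **The round `L0`.** -/
theorem threeSd_0 (hb : ClassW b) (H : LocA b zs) (hy : Mx b zs y)
    (hpos : ∀ h : Fin M, 0 < y (.inl (.inl h))) (hw : Cap3 b y) : ThreeSd b zs y 0 F0 := by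
  intro h i j p A hc hx
  have h7 : y (.inl (.inl h)) < 7 / 100 := by
    refine hx.trans_le ?_
    cases clsW b j <;> simp only [F0] <;> norm_num
  rcases A.slot with rfl | rfl
  · refine threeSd_zero hb H hy hpos hw A hc ?_ fun _ => h7.le
    have := (F0_wcl (b := b) h)
    rw [← A.tab F0_sym b, hc] at this
    exact (hx.trans_le this).le
  · exact (e3T_two (by norm_num) _).trans_lt (three_side2_0 hb H.L H.X hy hpos A hc hx)

/-- **The round `L1`.** -/
theorem threeSd_1 (hb : ClassW b) (H : LocA b zs) (hy : Mx b zs y)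
    (hpos : ∀ h : Fin M, 0 < y (.inl (.inl h))) (hw : Cap3 b y) (hF : Flr b y F0)
    (hu : ∀ {h : Fin M} {i j : Fin (M + 1)}, Adj h i 0 j → clsW b i = .three → clsW b j ≠ .one →
      y (.inl (.inl h)) ≤ 1 / 2) : ThreeSd b zs y 1 F1 := by
  intro h i j p A hc hx
  rcases A.slot with rfl | rfl
  · refine threeSd_zero hb H hy hpos hw A hc ?_ fun h0 => absurd h0 (by norm_num)
    have := (F1_wcl (b := b) h)
    rw [← A.tab F1_sym b, hc] at this
    exact (hx.trans_le this).le
  · exact (e3T_two (by norm_num) _).trans_lt (three_side2_1 hb H.L H.X hy hpos hF hu A hc hx)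

/-- **The round `L2`.** -/
theorem threeSd_2 (hb : ClassW b) (H : LocA b zs) (hy : Mx b zs y)
    (hpos : ∀ h : Fin M, 0 < y (.inl (.inl h))) (hw : Cap3 b y) (hF : Flr b y F1)
    (hu : ∀ {h : Fin M} {i j : Fin (M + 1)}, Adj h i 0 j → clsW b i = .three →
      y (.inl (.inl h)) ≤ 47 / 100) : ThreeSd b zs y 2 F2 := by
  intro h i j p A hc hx
  rcases A.slot with rfl | rfl
  · refine threeSd_zero hb H hy hpos hw A hc ?_ fun h0 => absurd h0 (by norm_num)
    have := (F2_wcl (b := b) h)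
    rw [← A.tab F2_sym b, hc] at this
    exact (hx.trans_le this).le
  · exact (e3T_two (by norm_num) _).trans_lt (three_side2_2 hb H.L H.X hy hpos hF hu A hc hx)

end SR

end Pool.Agent.Work.MP_b30479_gt.G2
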