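import Pool.Agent.Work.MP_b30479_gt.G2.WE3R
import Pool.Agent.Work.MP_b30479_gt.G2.WValH
import Pool.Agent.Work.MP_b30479_gt.G2.WLocY
import Pool.Agent.Work.MP_b30479_gt.G2.ML3t
import Pool.Agent.Work.MP_b30479_gt.G2.ML3u
import Pool.Agent.Work.MP_b30479_gt.G2.ML3v
import Pool.Agent.Work.MP_b30479_gt.G2.ML3w
import Pool.Agent.Work.MP_b30479_gt.G2.ML3x

/-!
# Cap of the hinges between a digit `1` and an end with three crossings

Value steps: the hinge is moved to `3/10` and the inner variable of the end with it.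
-/

namespace Pool.Agent.Work.MP_b30479_gt.G2

open Finset VOL Filter Topology NumU

namespace SR

variable {M : ℕ} {b : Fin (M + 1) → ℤ} {zs : DD (tyW b) ⊕ ZZ (tyW b) → ℂ}
variable {y : DD (tyW b) ⊕ ZZ (tyW b) → ℝ}
variable {h h' : Fin M} {i j j' : Fin (M + 1)} {p : Fin 3}

/-- value step for a hinge together with the inner variable of an adjacent region with three
crossings -/
theorem Adj.block_mid (A : Adj h i p j) (hb : ClassW b)
    (hy : IsMx (wdat (tyW b) b) (wpar b zs) zs y)
    (m : {i : Fin (M + 1) // (tyW b i).isMid = true}) (hm : m.1 = i) {c μ : ℝ} (hc0 : 0 ≤ c)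
    (hc1 : c ≤ wXM b h) (m0 : 0 ≤ μ) (m1 : μ ≤ (wpar b zs).XM (.inr m)) :
    OV b i (Function.update (Function.update (OY b zs y i) 1
      (ofr (b i) ((wpar b zs).pp zs (.inl (.inr m)) μ))) p (pw b zs (b i) h c)) -
      OV b i (OY b zs y i) + dV b j p.rev (OY b zs y j) (pw b zs (b j) h c) ≤ 0 := by
  subst hm
  have ht := mid_not_ring m.2
  set z := (wpar b zs).pth zs y with hz
  set c1 := (wpar b zs).pp zs (.inl (.inr m)) μ with hc1'
  set c2 := (wpar b zs).pp zs (.inl (.inl h)) c with hc2'
  have hbox : Function.update (Function.update y (.inl (.inr m)) μ) (.inl (.inl h)) c ∈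
      (wpar b zs).box (ZZ (tyW b)) :=
    update_mem_box (update_mem_box hy.1 m0 m1) hc0 hc1
  have h1 : (wdat (tyW b) b).V (Function.update (Function.update z (.inl (.inr m)) c1)
      (.inl (.inl h)) c2) ≤ (wdat (tyW b) b).V z := by
    have h0 : (wdat (tyW b) b).V ((wpar b zs).pth zs (Function.update (Function.update y
        (.inl (.inr m)) μ) (.inl (.inl h)) c)) ≤ (wdat (tyW b) b).V ((wpar b zs).pth zs y) :=
      hy.2 hbox
    rw [Par.pth_update_pp, Par.pth_update_pp] at h0
    exact h0
  have h2 := V_upd_mid (tyW b) b m z c1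
  have h3 := V_upd_hinge (tyW b) b h (Function.update z (.inl (.inr m)) c1) c2
  have eow : ∀ i, own (b i) (tyW b i) (xx (tyW b) i z) = OY b zs y i := fun i => rfl
  have emid : own (b m.1) (tyW b m.1) (Function.update (xx (tyW b) m.1 z) 1 c1) =
      Function.update (OY b zs y m.1) 1 (ofr (b m.1) c1) := by
    rw [← eow, own_update_one ht]
  have hne : ∀ k : Fin M, k.castSucc ≠ k.succ := fun k => (Fin.castSucc_lt_succ).ne
  generalize hvi : m.1 = i at *
  cases A
  · have hl : xx (tyW b) h.castSucc (Function.update z (.inl (.inr m)) c1) =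
        Function.update (xx (tyW b) h.castSucc z) 1 c1 := by
      have := xx_upd_mid (tyW b) m z c1
      rwa [hvi] at this
    have hr : xx (tyW b) h.succ (Function.update z (.inl (.inr m)) c1) = xx (tyW b) h.succ z :=
      xx_upd_mid_ne (tyW b) m z c1 h.succ (by rw [hvi]; exact (hne h).symm)
    rw [hl, hr, rV_own hb, rV_own hb, rV_own hb, rV_own hb, own_update_two, own_update_zero, emid,
      eow] at h3
    rw [rV_own hb, rV_own hb, emid, eow] at h2
    rw [show (2 : Fin 3).rev = 0 from rfl]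
    unfold dV pw
    linarith only [h1, h3, h2]
  · have hl : xx (tyW b) h.succ (Function.update z (.inl (.inr m)) c1) =
        Function.update (xx (tyW b) h.succ z) 1 c1 := by
      have := xx_upd_mid (tyW b) m z c1
      rwa [hvi] at this
    have hr : xx (tyW b) h.castSucc (Function.update z (.inl (.inr m)) c1) =
        xx (tyW b) h.castSucc z :=
      xx_upd_mid_ne (tyW b) m z c1 h.castSucc (by rw [hvi]; exact hne h)
    rw [hl, hr, rV_own hb, rV_own hb, rV_own hb, rV_own hb, own_update_two, own_update_zero, emid,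
      eow] at h3
    rw [rV_own hb, rV_own hb, emid, eow] at h2
    rw [show (0 : Fin 3).rev = 2 from rfl]
    unfold dV pw
    linarith only [h1, h3, h2]

/-! ### the height of the inner variable -/

theorem Adj.crit_sum (A : Adj h i p j) (hC : Crit b zs) (q : ℝ) :
    rside (tyW b) b i p q (xx (tyW b) i zs) + rside (tyW b) b j p.rev q (xx (tyW b) j zs) = 0 := by
  cases A
  · exact hC.hinge h q
  · rw [add_comm]
    exact hC.hinge h q

/-- the height of the inner variable of an end with three crossings next to a digit `1` -/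
theorem Adj.height_13 (A : Adj h i p j) (hb : ClassW b) (hL : Loc b zs) (hC : Crit b zs)
    (hi : clsW b i = .one) (hj : clsW b j = .threeE) :
    6 * Real.pi * hE zs hj = Real.pi * ((Ys b zs i p.rev).im - (Ys b zs i p).im) +
      LL (Ys b zs i p + Ys b zs i p.rev) := by
  have hpi := Real.pi_pos
  have hop := A.opp hb (Or.inl (by rw [hi]; decide))
  have h0 := A.crit_sum hC 0
  rw [A.rs_one _ _ hb hi, A.symm.rs_threeE _ _ hb hj, ofs_zero', ofs_zero'] at h0
  obtain ⟨c1, c2⟩ := A.symm.crit3 hb hC hj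
  have h1 := A.symm.boxE hb hL hj
  have h3 := hbox_re (clsW b i) (ssW b h)
  have h4 : Ys b zs j p.rev ∈ strip := by
    unfold Box.In at h1
    exact ⟨by linarith only [h1, h3, h1.1], by linarith only [h1, h3, h1.2.1]⟩
  have h5 := L3.height3 h4 (A.symm.strip3 hb hL hj) c1 c2
  have e : Ys b zs j p.rev = starRingEnd ℂ (Ys b zs i p) := by
    rw [A.Ys_eq, A.symm.Ys_eq]
    exact ofr_opp hop _
  have e2 : (Ys b zs j 1).im = hE zs hj := by
    rw [Ys_mE hj, ofr_im]
    rfl
  have e3 : ∀ i p, ofr (b i) (xx (tyW b) i zs p) = Ys b zs i p := fun _ _ => rfl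
  rw [e3, e3, e3, e3] at h0
  unfold S1 S3 at h0
  rw [c1] at h0
  rw [e] at h0 h5 
  rw [LL_conj] at h0 h5
  rw [Complex.conj_im] at h0 h5
  rw [e2] at h0 h5
  have h6 : LL (Ys b zs i p) = Real.pi * (2 * hE zs hj + (Ys b zs i p).im) := by
    rw [h5]
    field_simp
    ring
  rw [h6] at h0
  linarith only [hj, h0]

theorem sad_row {x t : ℝ} (x0 : 448 / 1000 ≤ x) (x1 : x ≤ 666 / 1000) (t0 : 83 / 1000 ≤ t)
    (t1 : t ≤ 134 / 1000) : 8539 / 10000 < Real.pi * t + NumI.lnA x t := by
  have h : NumI.chk [NumI.E.sub (NumI.E.add (NumI.E.mul NumI.E.pi (NumI.E.var 1))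
      (NumI.E.lnA (NumI.E.var 0) (NumI.E.var 1))) (NumI.E.q 8539 10000)] 30
      [NumI.V.of 1000 448 666, NumI.V.of 1000 83 134] = true := by
    decide +kernel
  have hp := NumI.pos_of_chk (NumI.chk2 h (by norm_num) (x := x) (y := t)
    (by norm_num; linarith only [x0]) (by norm_num; linarith only [x1]) (by norm_num; linarith only [t0])
    (by norm_num; linarith only [t1]))
  simp only [NumI.E.val, NumI.lkR] at hp
  push_cast at hp
  linarith only [hp]

/-- the digit `1` between a digit `2` and an end with three crossings -/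
theorem Adj.height_two (A : Adj h i p j) (A' : Adj h' i p.rev j') (hb : ClassW b)
    (hL : Loc b zs) (hX : LocX b zs) (hC : Crit b zs) (hi : clsW b i = .one)
    (hj : clsW b j = .threeE) (hj' : clsW b j' = .two) :
    453 / 10000 + 1 / 3 * ofs (b j) (zs (.inl (.inl h))).im ≤ hE zs hj := by
  have hpi := Real.pi_pos
  have hop := A.opp hb (Or.inl (by rw [hi]; decide))
  have hop' := A'.opp hb (Or.inl (by rw [hi]; decide))
  have h1 := A.height_13 hb hL hC hi hj
  obtain ⟨-, -, s0, s1⟩ := hX.win A A' hi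
  rw [hj, hj'] at s0 s1
  simp only [cw] at s0 s1
  obtain ⟨x0, x1, -, -⟩ := A.box hb hL
  obtain ⟨z0, z1, -, -⟩ := A'.box hb hL
  rw [hi, hj] at x0 x1
  rw [hi, hj'] at z0 z1
  simp only [hbox] at x0 x1 z0 z1
  have r1 : (Ys b zs i p + Ys b zs i p.rev).re = (zs (.inl (.inl h))).re + (zs (.inl (.inl h'))).re := by
    rw [Complex.add_re, A.Ys_re, A'.Ys_re]
  have r2 : (Ys b zs i p + Ys b zs i p.rev).im = ofs (b i) (zs (.inl (.inl h))).im +
      ofs (b i) (zs (.inl (.inl h'))).im := by
    rw [Complex.add_im, A.Ys_im, A'.Ys_im]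
  rw [Num.LL_lnA (u := Ys b zs i p + Ys b zs i p.rev) ⟨by rw [r1]; linarith only [x0, z0], by rw [r1]; linarith only [x1, z1]⟩, r1,
    r2, A.Ys_im, A'.Ys_im] at h1
  rw [ofs_opp hop]
  have h2 := sad_row (x := (zs (.inl (.inl h))).re + (zs (.inl (.inl h'))).re)
    (t := ofs (b i) (zs (.inl (.inl h))).im + ofs (b i) (zs (.inl (.inl h'))).im)
    (by linarith only [x0, z0]) (by linarith only [x1, z1]) s0 s1
  have h3 : 6 * Real.pi * (453 / 10000 - 1 / 3 * ofs (b i) (zs (.inl (.inl h))).im) ≤
      6 * Real.pi * hE zs hj := by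
    rw [h1]
    have := Real.pi_lt_d4
    nlinarith only [h2, this]
  have h4 := le_of_mul_le_mul_left h3 (by positivity)
  linarith only [hj, h4]

/-! ### the gains -/

theorem V1_D1 (c T : ℝ) {w v : ℂ} {a k τ : ℝ} (h1 : w.re = a) (h2 : w.im = 4 * T * (6 / 10 - a))
    (h3 : v.re = k) (h4 : v.im = τ) :
    V1 (c + (T : ℂ) * Complex.I) v - V1 w v = L3.D1 c a T k τ := by
  unfold V1 L3.D1
  rw [UU_uu (c + (T : ℂ) * Complex.I + v), UU_uu (c + (T : ℂ) * Complex.I), UU_uu (w + v), UU_uu w]
  simp only [Complex.add_re, Complex.add_im, Complex.sub_im, Complex.mul_im, Complex.mul_re,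
    Complex.ofReal_re, Complex.ofReal_im, Complex.I_re, Complex.I_im, mul_zero, mul_one,
    add_zero, zero_add, sub_zero, h1, h2, h3, h4]
  ring

/-- the total gain of the move of the hinge and of the inner variable is not positive -/
theorem gain_13 (hb : ClassW b) (hy : IsMx (wdat (tyW b) b) (wpar b zs) zs y) (A : Adj h i p j)
    (A' : Adj h' i p.rev j') (hi : clsW b i = .one) (hj : clsW b j = .threeE)
    (ha : 35 / 100 < y (.inl (.inl h))) {B : ℝ}
    (h0 : 1 / 10 ≤ 3 / 10 + (1 / 6 - 577 / 1000 * (ofs (b j) (zs (.inl (.inl h))).im + hE zs hj)))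
    (h1 : 3 / 10 + (1 / 6 - 577 / 1000 * (ofs (b j) (zs (.inl (.inl h))).im + hE zs hj)) ≤ 57 / 100)
    (hB : L3.Wm (Yw b zs y j p.rev) (L3.mpt (hE zs hj) (y (.inl (.inr (mE b hj))))) ≤
      L3.tg (3 / 10) (ofs (b j) (zs (.inl (.inl h))).im) (hE zs hj) +
        uu (y (.inl (.inl h))) (4 * ofs (b j) (zs (.inl (.inl h))).im *
          (6 / 10 - y (.inl (.inl h)))) - B) :
    L3.D1 (3 / 10) (y (.inl (.inl h))) (ofs (b i) (zs (.inl (.inl h))).im) (y (.inl (.inl h')))
      (ofs (b i) (zs (.inl (.inl h'))).im * tr 0 (wXM b h') (wcl b h') (wcr b h')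
        (y (.inl (.inl h')))) + B ≤ 0 := by
  have hop := A.opp hb (Or.inl (by rw [hi]; decide))
  have hrr : p.rev.rev = p := Fin.rev_rev p
  obtain ⟨e1, e2⟩ := A.symm.XM3 hj
  rw [hi] at e2
  simp only [cr3] at e2
  have e3 : wcl b h = 14 / 100 := by
    rw [A.cl_eq b, hi, hj]; unfold hpp; split_ifs <;> simp only [hp, hp1]
  have hv := A.symm.block_mid hb hy (mE b hj) rfl (c := 3 / 10)
    (μ := 3 / 10 + (1 / 6 - 577 / 1000 * (ofs (b j) (zs (.inl (.inl h))).im + hE zs hj)))
    (by norm_num) (by rw [e1]; norm_num) (by linarith only [hj, h0]) (by rw [XM_mE]; linarith only [hj, h1])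
  have hOp : OY b zs y j p.rev = Yw b zs y j p.rev := by
    rcases A.symm.slot with h | h
    · rw [h]; exact OY_zero j
    · rw [h]; exact OY_two j
  have hpr : p.rev ≠ 1 := by
    rcases A.symm.slot with h | h <;> rw [h] <;> decide
  have ht : tyW b j ≠ .ring := mid_not_ring (mE b hj).2
  have hend : EndOk j (OY b zs y j) := Ow_endOk ((wpar b zs).pth zs y) j
  have hend' : EndOk j (Function.update (OY b zs y j) 1
      (ofr (b j) ((wpar b zs).pp zs (.inl (.inr (mE b hj)))
        (3 / 10 + (1 / 6 - 577 / 1000 * (ofs (b j) (zs (.inl (.inl h))).im + hE zs hj)))))) :=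
    ⟨fun h0 => by rw [Function.update_of_ne (by decide)]; exact hend.1 h0, fun h0 => by
      rw [Function.update_of_ne (by decide)]; exact hend.2 h0⟩
  rw [hrr, dV_one hb A hi, A.symm.OV_threeE hj hend, A.symm.OV_threeE hj (hend'.upd A.symm _),
    Function.update_self, Function.update_of_ne hpr.symm, Function.update_self, pp_mE hj, hOp,
    OY_one ht, V3_zero, V3_zero, Yw_mE hj, pw_flat (b i) h (by rw [e3]; norm_num)
      (by rw [e1, e2]; norm_num), pw_flat (b j) h (by rw [e3]; norm_num)
      (by rw [e1, e2]; norm_num)] at hv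
  have hOi : ∀ q : Fin 3, q = 0 ∨ q = 2 → OY b zs y i q = Yw b zs y i q := by
    intro q hq
    rcases hq with hq | hq
    · rw [hq]; exact OY_zero i
    · rw [hq]; exact OY_two i
  have hwr : wXM b h - wcr b h < y (.inl (.inl h)) := by
    rw [e1, e2]
    linarith only [ha]
  obtain ⟨-, -, r1, r2, -⟩ := A.symm.ramp3 hy hj hwr
  rw [hi] at r2
  simp only [cr3] at r2
  rw [show ((25 : ℝ) / 100)⁻¹ = 4 by norm_num] at r2
  have hc := A.conj (zs := zs) (y := y) hop
  have e4 : (Yw b zs y i p).im = 4 * ofs (b i) (zs (.inl (.inl h))).im *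
      (6 / 10 - y (.inl (.inl h))) := by
    have : (Yw b zs y j p.rev).im = -(Yw b zs y i p).im := by rw [hc, Complex.conj_im]
    rw [this, ofs_opp hop] at r2
    linarith only [r2]
  have e5 : (Yw b zs y i p.rev).im = ofs (b i) (zs (.inl (.inl h'))).im *
      tr 0 (wXM b h') (wcl b h') (wcr b h') (y (.inl (.inl h'))) := by
    rw [(A'.rh hy).im, A'.re]
  have f1 := V1_D1 (3 / 10) (ofs (b i) (zs (.inl (.inl h))).im) A.re e4 A'.re e5
  have f2 := L3.tg_eq (v := ((3 / 10 : ℝ) : ℂ) + ((ofs (b j) (zs (.inl (.inl h))).im : ℝ) : ℂ) *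
    Complex.I) (c := 3 / 10) (T := ofs (b j) (zs (.inl (.inl h))).im) (h := hE zs hj)
    (by simp) (by simp) h0 h1
  have f3 : UU (Yw b zs y j p.rev) = uu (y (.inl (.inl h))) (4 * ofs (b j) (zs (.inl (.inl h))).im *
          (6 / 10 - y (.inl (.inl h)))) := by
    rw [UU_uu, r1, r2]
  rw [f2, f3, hOi _ A.slot, hOi _ A'.slot, f1] at hv
  linarith only [hj, hB, hv]

end SR

/-! ### the rows together -/

namespace L3

theorem dd_one {a T k K XM B : ℝ} (hXM : XM = 80 / 100 ∨ XM = 86 / 100)
    (hd : 0 < D1 (3 / 10) a T k (K * tr 0 (80 / 100) (15 / 100) (20 / 100) k) + B)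
    (hx : 60 / 100 ≤ k → 0 < D1 (3 / 10) a T k (K * tr 0 (86 / 100) (15 / 100) (20 / 100) k) + B)
    (k0 : 0 ≤ k) : 0 < D1 (3 / 10) a T k (K * tr 0 XM (15 / 100) (20 / 100) k) + B := by
  rcases hXM with rfl | rfl
  · exact hd
  · rcases le_total k (60 / 100) with h | h
    · have : tr 0 (86 / 100) (15 / 100) (20 / 100) k = tr 0 (80 / 100) (15 / 100) (20 / 100) k := by
        rcases le_total k (15 / 100) with h' | h'
        · rw [tr_a (by norm_num) (by norm_num) (by norm_num) k0 h',
            tr_a (by norm_num) (by norm_num) (by norm_num) k0 h']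
        · rw [tr_b (by norm_num) (by norm_num) h' (by linarith only [h]),
            tr_b (by norm_num) (by norm_num) h' (by linarith only [h])]
      rw [this]
      exact hd
    · exact hx h

theorem fin_one {T h μ a k K XM : ℝ} {v : ℂ} (hT : HT .one T h) (H : MaxM v h μ) (hr : v.re = a)
    (hi : v.im = 4 * T * (6 / 10 - a)) (a0 : 35 / 100 ≤ a) (a1 : a ≤ 60 / 100)
    (T0 : 10 / 1000 ≤ -T) (T1 : -T ≤ 58 / 1000) (K0 : -(61 / 1000) ≤ K) (K1 : K ≤ 65 / 1000)
    (S0 : -(11 / 1000) ≤ -T + K) (S1 : -T + K ≤ 101 / 1000) (k0 : 7 / 100 ≤ k)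
    (k1 : k ≤ 70 / 100) (hXM : XM = 80 / 100 ∨ XM = 86 / 100) :
    ∃ B, Wm v (mpt h μ) ≤ tg (3 / 10) T h + uu a (4 * T * (6 / 10 - a)) - B ∧
      0 < D1 (3 / 10) a (-T) k (K * tr 0 XM (15 / 100) (20 / 100) k) + B := by
  rcases le_total a (39 / 100) with h1 | h1
  · exact ⟨_, v3_one_A hT H hr hi (by linarith only [a0]) (by linarith only [h1]) (by linarith only [T1]) (by linarith only [T0]),
      dd_one hXM (d1_one_A (by linarith only [a0]) (by linarith only [h1]) (by linarith only [T0]) (by linarith only [T1]) (by linarith only [K0])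
        (by linarith only [K1]) (by linarith only [S0]) (by linarith only [S1]) k0 (by linarith only [k1]))
        (fun h => d1_oneX_A (by linarith only [a0]) (by linarith only [h1]) (by linarith only [T0]) (by linarith only [T1]) (by linarith only [K0])
        (by linarith only [K1]) (by linarith only [S0]) (by linarith only [S1]) (by linarith only [h]) (by linarith only [k1])) (by linarith only [k0])⟩
  rcases le_total a (50 / 100) with h2 | h2
  · exact ⟨_, v3_one_B hT H hr hi (by linarith only [h1]) (by linarith only [h2]) (by linarith only [T1]) (by linarith only [T0]),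
      dd_one hXM (d1_one_B (by linarith only [h1]) (by linarith only [h2]) (by linarith only [T0]) (by linarith only [T1]) (by linarith only [K0])
        (by linarith only [K1]) (by linarith only [S0]) (by linarith only [S1]) k0 (by linarith only [k1]))
        (fun h => d1_oneX_B (by linarith only [h1]) (by linarith only [h2]) (by linarith only [T0]) (by linarith only [T1]) (by linarith only [K0])
        (by linarith only [K1]) (by linarith only [S0]) (by linarith only [S1]) (by linarith only [h]) (by linarith only [k1])) (by linarith only [k0])⟩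
  · exact ⟨_, v3_one_C hT H hr hi (by linarith only [h2]) (by linarith only [a1]) (by linarith only [T1]) (by linarith only [T0]),
      dd_one hXM (d1_one_C (by linarith only [h2]) (by linarith only [a1]) (by linarith only [T0]) (by linarith only [T1]) (by linarith only [K0])
        (by linarith only [K1]) (by linarith only [S0]) (by linarith only [S1]) k0 (by linarith only [k1]))
        (fun h => d1_oneX_C (by linarith only [h2]) (by linarith only [a1]) (by linarith only [T0]) (by linarith only [T1]) (by linarith only [K0])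
        (by linarith only [K1]) (by linarith only [S0]) (by linarith only [S1]) (by linarith only [h]) (by linarith only [k1])) (by linarith only [k0])⟩

theorem fin_two {T h μ a k K : ℝ} {v : ℂ} (hT : HT .one T h) (H : MaxM v h μ) (hr : v.re = a)
    (hi : v.im = 4 * T * (6 / 10 - a)) (a0 : 35 / 100 ≤ a) (a1 : a ≤ 60 / 100)
    (T0 : 30 / 1000 ≤ -T) (T1 : -T ≤ 59 / 1000) (K0 : 32 / 1000 ≤ K) (K1 : K ≤ 91 / 1000)
    (S0 : 83 / 1000 ≤ -T + K) (S1 : -T + K ≤ 134 / 1000) (k0 : 7 / 100 ≤ k)
    (k1 : k ≤ 56 / 100) (hk : 453 / 10000 + 1 / 3 * T ≤ h) :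
    ∃ B, Wm v (mpt h μ) ≤ tg (3 / 10) T h + uu a (4 * T * (6 / 10 - a)) - B ∧
      0 < D1 (3 / 10) a (-T) k (K * tr 0 (80 / 100) (16 / 100) (29 / 100) k) + B := by
  rcases le_total a (39 / 100) with h1 | h1
  · exact ⟨_, v3_two_A hT H hr hi (by linarith only [a0]) (by linarith only [h1]) (by linarith only [T1]) (by linarith only [T0]) hk,
      d1_two_A (by linarith only [a0]) (by linarith only [h1]) (by linarith only [T0]) (by linarith only [T1]) (by linarith only [K0])
        (by linarith only [K1]) (by linarith only [S0]) (by linarith only [S1]) k0 (by linarith only [k1])⟩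
  rcases le_total a (50 / 100) with h2 | h2
  · exact ⟨_, v3_two_B hT H hr hi (by linarith only [h1]) (by linarith only [h2]) (by linarith only [T1]) (by linarith only [T0]) hk,
      d1_two_B (by linarith only [h1]) (by linarith only [h2]) (by linarith only [T0]) (by linarith only [T1]) (by linarith only [K0])
        (by linarith only [K1]) (by linarith only [S0]) (by linarith only [S1]) k0 (by linarith only [k1])⟩
  · exact ⟨_, v3_two_C hT H hr hi (by linarith only [h2]) (by linarith only [a1]) (by linarith only [T1]) (by linarith only [T0]) hk,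
      d1_two_C (by linarith only [h2]) (by linarith only [a1]) (by linarith only [T0]) (by linarith only [T1]) (by linarith only [K0])
        (by linarith only [K1]) (by linarith only [S0]) (by linarith only [S1]) k0 (by linarith only [k1])⟩

theorem fin_twoE {T h μ a k K : ℝ} {v : ℂ} (hT : HT .one T h) (H : MaxM v h μ) (hr : v.re = a)
    (hi : v.im = 4 * T * (6 / 10 - a)) (a0 : 35 / 100 ≤ a) (a1 : a ≤ 60 / 100)
    (T0 : 69 / 1000 ≤ -T) (T1 : -T ≤ 78 / 1000) (K0 : -(24 / 1000) ≤ K) (K1 : K ≤ -(11 / 1000))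
    (S0 : 51 / 1000 ≤ -T + K) (S1 : -T + K ≤ 64 / 1000) (k0 : 7 / 100 ≤ k)
    (k1 : k ≤ 70 / 100) :
    ∃ B, Wm v (mpt h μ) ≤ tg (3 / 10) T h + uu a (4 * T * (6 / 10 - a)) - B ∧
      0 < D1 (3 / 10) a (-T) k (K * tr 0 (70 / 100) (14 / 100) (35 / 100) k) + B := by
  rcases le_total a (39 / 100) with h1 | h1
  · exact ⟨_, v3_twoE_A hT H hr hi (by linarith only [a0]) (by linarith only [h1]) (by linarith only [T1]) (by linarith only [T0]),
      d1_twoE_A (by linarith only [a0]) (by linarith only [h1]) (by linarith only [T0]) (by linarith only [T1]) (by linarith only [K0])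
        (by linarith only [K1]) (by linarith only [S0]) (by linarith only [S1]) k0 (by linarith only [k1])⟩
  rcases le_total a (50 / 100) with h2 | h2
  · exact ⟨_, v3_twoE_B hT H hr hi (by linarith only [h1]) (by linarith only [h2]) (by linarith only [T1]) (by linarith only [T0]),
      d1_twoE_B (by linarith only [h1]) (by linarith only [h2]) (by linarith only [T0]) (by linarith only [T1]) (by linarith only [K0])
        (by linarith only [K1]) (by linarith only [S0]) (by linarith only [S1]) k0 (by linarith only [k1])⟩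
  · exact ⟨_, v3_twoE_C hT H hr hi (by linarith only [h2]) (by linarith only [a1]) (by linarith only [T1]) (by linarith only [T0]),
      d1_twoE_C (by linarith only [h2]) (by linarith only [a1]) (by linarith only [T0]) (by linarith only [T1]) (by linarith only [K0])
        (by linarith only [K1]) (by linarith only [S0]) (by linarith only [S1]) k0 (by linarith only [k1])⟩

end L3

namespace SR

variable {M : ℕ} {b : Fin (M + 1) → ℤ} {zs : DD (tyW b) ⊕ ZZ (tyW b) → ℂ}
variable {y : DD (tyW b) ⊕ ZZ (tyW b) → ℝ}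
variable {h h' : Fin M} {i j j' : Fin (M + 1)} {p : Fin 3}

theorem hpp_11 (q : Fin 3) (Q : Cl) : ((hpp q .threeE .one .one Q).XM = 80 / 100 ∨
    (hpp q .threeE .one .one Q).XM = 86 / 100) ∧ (hpp q .threeE .one .one Q).cl = 15 / 100 ∧
    (hpp q .threeE .one .one Q).cr = 20 / 100 := by
  unfold hpp hp
  cases Q <;> split_ifs <;> simp

/-- **Cap of the hinges between a digit `1` and an end with three crossings**: `35/100`. -/
theorem cap_13E (hb : ClassW b) (hL : Loc b zs) (hX : LocX b zs) (hC : Crit b zs)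
    (hy : Mx b zs y) (hF : ∀ h : Fin M, 7 / 100 ≤ y (.inl (.inl h)))
    (h11 : ∀ {h : Fin M} {i j : Fin (M + 1)} {p : Fin 3}, Adj h i p j → clsW b i = .one →
      clsW b j = .one → y (.inl (.inl h)) ≤ 70 / 100)
    (h12 : ∀ {h : Fin M} {i j : Fin (M + 1)} {p : Fin 3}, Adj h i p j → clsW b i = .one →
      clsW b j = .two → y (.inl (.inl h)) ≤ 56 / 100)
    (A : Adj h i p j) (hi : clsW b i = .one) (hj : clsW b j = .threeE) :
    y (.inl (.inl h)) ≤ 35 / 100 := by
  by_contra hcon
  push Not at hcon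
  have hop := A.opp hb (Or.inl (by rw [hi]; decide))
  have hrr : p.rev.rev = p := Fin.rev_rev p
  obtain ⟨h', j', A'⟩ := A.other_one hb hi
  have A2 : Adj h i p.rev.rev j := by rw [hrr]; exact A
  have hok := okp_of hb A A' hi
  obtain ⟨a0, a1, s0, s1⟩ := hX.win A A' hi
  obtain ⟨b0, b1, -, -⟩ := hX.win A' A2 hi
  have hT := A.symm.HT3 hb hL hC hj
  have H := A.symm.maxM hb hy hj
  obtain ⟨e1, e2⟩ := A.symm.XM3 hj
  rw [hi] at e2 hT
  simp only [cr3] at e2
  obtain ⟨-, x1, r1, r2, -⟩ := A.symm.ramp3 hy hj (by rw [e1, e2]; linarith only [hcon])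
  rw [hi] at r2
  simp only [cr3] at r2
  rw [show ((25 : ℝ) / 100)⁻¹ = 4 by norm_num] at r2
  have hTT : ofs (b j) (zs (.inl (.inl h))).im = -ofs (b i) (zs (.inl (.inl h))).im := ofs_opp hop _
  have hT' := hT
  obtain ⟨q0, q1, q2, q3⟩ := hT'
  have hf := hF h'
  have hXM' : y (.inl (.inl h')) ≤ wXM b h' := by
    have := (A'.rh hy).reM
    rwa [A'.re] at this
  have g := fun B hB => gain_13 (B := B) hb hy A A' hi hj hcon (by linarith only [hj, q1, q3]) (by linarith only [hj, q0, q2]) hB
  have hxm := A'.XM_eq b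
  have hcl := A'.cl_eq b
  have hcr := A'.cr_eq b
  rw [hrr, A.oc_eq b, hi, hj] at hxm hcl hcr
  rw [hj] at a0 a1 s0 s1 b0 b1
  cases hP : clsW b j' with
  | one =>
    rw [hP] at a0 a1 s0 s1 b0 b1 hxm hcl hcr
    simp only [cw] at a0 a1 s0 s1 b0 b1
    obtain ⟨u1, u2, u3⟩ := hpp_11 p.rev (oc b j' p.rev)
    rw [← hxm] at u1
    rw [u2] at hcl
    rw [u3] at hcr
    rw [hcl, hcr] at g
    obtain ⟨B, g1, g2⟩ := L3.fin_one (k := y (.inl (.inl h')))
      (K := ofs (b i) (zs (.inl (.inl h'))).im) hT H r1 r2 hcon.le (by linarith only [x1])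
      (by linarith only [a0, hTT]) (by linarith only [a1, hTT]) b0 b1 (by linarith only [s0, hTT]) (by linarith only [s1, hTT]) hf (h11 A' hi hP) u1
    have := g B g1
    rw [hTT, neg_neg] at g2
    linarith only [g2, this]
  | two =>
    rw [hP] at a0 a1 s0 s1 b0 b1 hxm hcl hcr
    simp only [cw] at a0 a1 s0 s1 b0 b1
    have hpar : ∀ Q, SR.hpp p.rev .threeE .one .two Q = ⟨80 / 100, 16 / 100, 29 / 100⟩ := by
      intro Q
      unfold SR.hpp hp hp1
      split_ifs <;> rfl
    rw [hpar] at hxm hcl hcr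
    rw [hxm, hcl, hcr] at g
    obtain ⟨B, g1, g2⟩ := L3.fin_two (k := y (.inl (.inl h')))
      (K := ofs (b i) (zs (.inl (.inl h'))).im) hT H r1 r2 hcon.le (by linarith only [x1])
      (by linarith only [a0, hTT]) (by linarith only [a1, hTT]) b0 b1 (by linarith only [s0, hTT]) (by linarith only [s1, hTT]) hf (h12 A' hi hP)
      (A.height_two A' hb hL hX hC hi hj hP)
    have := g B g1
    rw [hTT, neg_neg] at g2
    linarith only [g2, this]
  | twoE =>
    rw [hP] at a0 a1 s0 s1 b0 b1 hxm hcl hcr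
    simp only [cw] at a0 a1 s0 s1 b0 b1
    have hpar : ∀ Q, SR.hpp p.rev .threeE .one .twoE Q = ⟨70 / 100, 14 / 100, 35 / 100⟩ := by
      intro Q
      unfold SR.hpp hp hp1
      split_ifs <;> rfl
    rw [hpar] at hxm hcl hcr
    rw [hxm, hcl, hcr] at g
    rw [hxm] at hXM'
    obtain ⟨B, g1, g2⟩ := L3.fin_twoE (k := y (.inl (.inl h')))
      (K := ofs (b i) (zs (.inl (.inl h'))).im) hT H r1 r2 hcon.le (by linarith only [x1])
      (by linarith only [a0, hTT]) (by linarith only [a1, hTT]) b0 b1 (by linarith only [s0, hTT]) (by linarith only [s1, hTT]) hf hXM'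
    have := g B g1
    rw [hTT, neg_neg] at g2
    linarith only [g2, this]
  | three =>
    rw [hj, hP] at hok
    simp [ML.okp] at hok
  | threeE =>
    rw [hj, hP] at hok
    simp [ML.okp] at hok
  | ring =>
    rw [hj, hP] at hok
    simp [ML.okp] at hok

end SR

end Pool.Agent.Work.MP_b30479_gt.G2
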