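import Pool.Agent.Work.MP_b30479_gt.G2.WE3R
import Pool.Agent.Work.MP_b30479_gt.G2.WRngB
import Pool.Agent.Work.MP_b30479_gt.G2.RC3e

/-!
# Cap of the hinges between an end with three crossings and a ring
-/

namespace Pool.Agent.Work.MP_b30479_gt.G2

open Finset VOL Filter Topology

namespace SR

variable {M : ℕ} {b : Fin (M + 1) → ℤ} {zs : DD (tyW b) ⊕ ZZ (tyW b) → ℂ}
variable {y : DD (tyW b) ⊕ ZZ (tyW b) → ℝ}
variable {h h' : Fin M} {i j j' : Fin (M + 1)} {p : Fin 3}

/-- the side of a ring next to an end with three crossings on the right ramp -/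
theorem ring_3e_side (hb : ClassW b) (hL : Loc b zs) (hX : LocX b zs) (hR : LocR b zs)
    (hy : Mx b zs y) (hσ : ∀ v : ZZ (tyW b), ofs (b v.1) (y (.inr v)) ≤ 0) (A : Adj h i p j)
    (hi : clsW b i = .ring) (hj : clsW b j = .threeE)
    (hcon : 26 / 100 < y (.inl (.inl h))) :
    (y (.inl (.inl h)) ≤ 32 / 100 → Sw b zs y i p (slL b zs y h) ≤ 10 / 100) ∧
    (32 / 100 ≤ y (.inl (.inl h)) → Sw b zs y i p (slL b zs y h) +
      Real.pi * ofs (b i) (slL b zs y h) ≤ 4 / 100) := by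
  obtain ⟨e1, e2⟩ := A.symm.XM3 hj
  rw [hi] at e2
  simp only [cr3] at e2
  obtain ⟨v, hv, c1, -, z1⟩ := A.ring hb hL hy hi
  have hσv := hσ v
  have hhalf := ring_lt_half hb hL hX hR hy v
  rw [hv] at hσv
  have ht := tyW_of_ring hb hi
  rw [OY_ring ht] at z1
  have hs := ofs_slL_ramp (b := b) (zs := zs) (y := y) (h := h) (b i) (by rw [e1, e2]; linarith only [hcon])
  have hbx := A.box hb hL
  rw [hi, hj] at hbx
  simp only [hbox] at hbx
  obtain ⟨-, -, t0, t1⟩ := hbx
  have hrh := A.rh hy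
  rw [e1, e2] at hrh
  have q3 := wcl_pos (b := b) h
  have q1 := w_sum (b := b) h
  rw [e1, e2] at q1
  have hr := A.re (zs := zs) (y := y)
  have hM := hrh.reM
  rw [hr] at hM
  have hw : (Yw b zs y i p).im = -(-(ofs (b i) (zs (.inl (.inl h))).im / (34 / 100)) *
      (60 / 100 - (Yw b zs y i p).re)) := by
    rw [hrh.im, tr_c q3 (by norm_num) q1 (by rw [hr]; linarith only [hcon]) (by rw [hr]; exact hM)]
    ring
  rw [e2] at hs
  rw [A.side_ring hb hi, hs, z1]
  have hm0 : 0 ≤ -(ofs (b i) (zs (.inl (.inl h))).im / (34 / 100)) := by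
    rw [← neg_div]
    exact div_nonneg (by linarith only [t1, q3, q1]) (by norm_num)
  have hm1 : -(ofs (b i) (zs (.inl (.inl h))).im / (34 / 100)) ≤ 171 / 1000 := by
    rw [← neg_div, div_le_iff₀ (by norm_num)]
    linarith only [t0, q3, q1]
  have hs' : -(1 / 2) < ofs (b i) (y (.inr v)) := by
    have := abs_lt.1 (show |ofs (b i) (y (.inr v))| < 1 / 2 by rw [abs_ofs]; exact hhalf)
    exact this.1
  have hρ0 := hL.rpos v
  rw [← hr]
  rw [← hr] at hcon
  constructor
  · intro hx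
    rcases le_total (Yw b zs y i p).re (28 / 100) with h28 | h28
    · exact RC3e.rc1 hm0 hm1 hw hcon.le h28 hρ0 c1.1 hs' hσv
    · have := RC3e.rc1' hm0 hm1 hw h28 (by linarith only [hx]) hρ0 c1.1 hs' hσv
      linarith only [q3, q1, this]
  · intro hx
    exact RC3e.rc2 hm0 hm1 hw hx (by rw [hr]; exact hM) hρ0 c1.1 hs' hσv

/-- **Cap of the hinges between an end with three crossings and a ring**: `26/100`. -/
theorem cap_3EZ (hb : ClassW b) (hL : Loc b zs) (hX : LocX b zs) (hR : LocR b zs)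
    (hC : Crit b zs) (hy : Mx b zs y) (hpos : ∀ h : Fin M, 0 < y (.inl (.inl h)))
    (hσ : ∀ v : ZZ (tyW b), ofs (b v.1) (y (.inr v)) ≤ 0) (A : Adj h i p j)
    (hi : clsW b i = .threeE) (hj : clsW b j = .ring) : y (.inl (.inl h)) ≤ 26 / 100 := by
  by_contra hcon
  push Not at hcon
  have hop := A.opp hb (Or.inl (by rw [hi]; decide))
  obtain ⟨e1, e2⟩ := A.XM3 hi
  rw [hj] at e2
  simp only [cr3] at e2
  obtain ⟨k1, k2⟩ := threeE_RZ hb hL hC hy A hi hj (by rw [e1, e2]; linarith only [hcon])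
  obtain ⟨k3, k4⟩ := ring_3e_side hb hL hX hR hy hσ A.symm hj hi hcon
  rcases le_total (y (.inl (.inl h))) (32 / 100) with h32 | h32
  · refine rstep_false hb hy (hpos h) (RSide.of_sum A ?_)
    have := k1 h32
    have := k3 h32
    linarith
  · exact rstep_false hb hy (hpos h) (RStep.of_adj A (c := Real.pi) (fun h => absurd h (by omega))
      (by norm_num) (k2 h32) (k4 h32))

end SR

end Pool.Agent.Work.MP_b30479_gt.G2
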