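import Pool.Agent.Work.MP_b30479_gt.G2.WS2Row
import Pool.Agent.Work.MP_b30479_gt.G2.WCap12b

/-!
# Sums of the two hinges of a digit `1` next to a digit `2`

At a digit `1` with the neighbours `{2, 2}`, `{2, 3}`, `{2, ring}`, `{2e, 3}`, `{2e, ring}` the sum
of the two hinges is at most `.95` (first order condition of the hinge `1 | 2`, `1 | 2e`).
-/

namespace Pool.Agent.Work.MP_b30479_gt.G2

open Finset VOL Filter Topology

namespace WS2

open MR

theorem S1_le_n1 {w v : ℂ} {m c r : ℝ} (hw0 : 0 < w.re) (hw : w.re < 1) (hL : LL (w + v) ≤ c)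
    (hY : m * YY (w + v) ≤ m * (r * Real.pi)) :
    S1 1 m w v ≤ n1 c r m w.re w.im v.re v.im := by
  unfold S1 n1
  rw [Num.LL_lnA ⟨hw0, hw⟩, Num.YY_lnB ⟨hw0, hw⟩]
  linarith only [hL, hY]

theorem S2_le_n2 {w v : ℂ} {m c r : ℝ} (hw0 : 0 < w.re) (hw : w.re < 1) (hL : LL (w + v) ≤ c)
    (hY : m * YY (w + v) ≤ m * (r * Real.pi)) :
    S2 1 m w v ≤ n2 c r m w.re w.im v.re v.im := by
  unfold S2 n2
  rw [Num.LL_lnA ⟨hw0, hw⟩, Num.YY_lnB ⟨hw0, hw⟩]
  linarith only [hL, hY]

noncomputable def EF (x : ℝ) : ℝ := if x ≤ 36 / 100 then E1 x else E2 x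
noncomputable def EX (T : ℝ) : ℝ := if 0 ≤ T then E3 T else -(25 / 100)

/-! ### the side of the digit `1` -/

/-- the partner hinge `1 | 2` -/
theorem s1_flat2 {w v : ℂ} {T : ℝ} (hx : 39 / 100 ≤ w.re) (hx' : w.re ≤ 51 / 100)
    (hi : w.im = T) (h1 : 5 / 1000 ≤ T) (h2 : T ≤ 79 / 1000) (h3 : v.re ≤ 56 / 100)
    (h4 : 0 ≤ v.im) (h5 : v.im ≤ 79 / 1000) (hs : 95 / 100 ≤ w.re + v.re) :
    S1 1 0 w v < -EF w.re := by
  have k1 := S1_le_n1 (w := w) (v := v) (m := 0) (r := 0) (by linarith only [hx]) (by linarith only [hx'])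
    (LL_le_zz (w + v)) (by simp)
  unfold n1 at k1
  rw [Complex.add_re, Complex.add_im, hi] at k1
  have k2 := a2 (x := w.re) (T := T) (x' := v.re) (t' := v.im) (by linarith only [hx]) (by linarith only [hx'])
    (by linarith only [h1]) (by linarith only [h2]) (by linarith only [hx', hs]) (by linarith only [h3]) (by linarith only [h4]) (by linarith only [h5]) hs
  unfold EF
  rw [if_neg (by linarith only [hx])]
  linarith only [k1, k2]

/-- the partner hinges `1 | 3`, `1 | ring` -/
theorem s1_flat3 {w v : ℂ} {T : ℝ} (hx : 30 / 100 ≤ w.re) (hx' : w.re ≤ 51 / 100)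
    (hi : w.im = T) (h1 : -(8 / 1000) ≤ T) (h2 : T ≤ 80 / 1000) (h3 : v.re ≤ 65 / 100)
    (h4 : 0 ≤ v.im) (h5 : v.im ≤ 105 / 1000) (h6 : v.im ≤ 63 / 100 * (65 / 100 - v.re))
    (hs : 95 / 100 ≤ w.re + v.re) : S1 1 0 w v < -EF w.re := by
  unfold EF
  split_ifs with h36
  · by_cases hz : 4 * (Real.sin (Real.pi * (w + v).re) ^ 2 + Real.sinh (Real.pi * (w + v).im) ^ 2) = 0
    · have k1 := S1_le_n1 (w := w) (v := v) (m := 0) (r := 0) (by linarith only [hx]) (by linarith only [hx'])
        (LL_junk (w + v) hz).le (by simp)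
      have k3 : (w + v).im = 0 := by
        have a1 := sq_nonneg (Real.sin (Real.pi * (w + v).re))
        have a2 := sq_nonneg (Real.sinh (Real.pi * (w + v).im))
        have a3 : Real.sinh (Real.pi * (w + v).im) ^ 2 = 0 := by linarith only [a2, hz, a1]
        have a4 := pow_eq_zero_iff (two_ne_zero) |>.1 a3
        rw [Real.sinh_eq_zero] at a4
        exact (mul_eq_zero.1 a4).resolve_left Real.pi_pos.ne'
      rw [Complex.add_im, hi] at k3
      unfold n1 at k1
      rw [hi] at k1
      have k2 := b0 (x := w.re) (T := T) (x' := 0) (t' := v.im) (by linarith only [hx]) (by linarith only [h36])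
        (by linarith only [h1]) (by linarith only [h2]) (by linarith only []) (by linarith only []) (by linarith only [h4]) (by linarith only [h1, k3])
      linarith only [k1, k2]
    · have k1 := S1_le_n1 (w := w) (v := v) (m := 0) (r := 0) (by linarith only [hx]) (by linarith only [hx'])
        (LL_le_z5 (w + v) hz) (by simp)
      unfold n1 at k1
      rw [Complex.add_re, Complex.add_im, hi] at k1
      have k2 := b3 (x := w.re) (T := T) (x' := v.re) (t' := v.im) (by linarith only [hx]) (by linarith only [h36])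
        (by linarith only [h1]) (by linarith only [h2]) (by linarith only [hs, h36]) (by linarith only [h3]) (by linarith only [h4]) (by linarith only [h6, hs, h36]) hs
      linarith only [k1, k2]
  · push Not at h36
    have k1 := S1_le_n1 (w := w) (v := v) (m := 0) (r := 0) (by linarith only [h36]) (by linarith only [hx'])
      (LL_le_zz (w + v)) (by simp)
    unfold n1 at k1
    rw [Complex.add_re, Complex.add_im, hi] at k1
    have k2 := a3 (x := w.re) (T := T) (x' := v.re) (t' := v.im) (by linarith only [h36]) (by linarith only [hx'])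
      (by linarith only [h1]) (by linarith only [h2]) (by linarith only [hx', hs]) (by linarith only [h3]) (by linarith only [h4]) (by linarith only [h5]) hs h6
    linarith only [k1, k2]

theorem tr9_nonneg {T x : ℝ} (hT : 0 ≤ T) (hx : x ≤ 8 / 10) : 0 ≤ tr9 T x := by
  unfold tr9
  have : 0 ≤ 8 / 10 - x := by linarith only [hx]
  positivity

theorem mr9_nonpos {T : ℝ} (hT : 0 ≤ T) : mr9 T ≤ 0 := by
  unfold mr9
  linarith only [hT]

theorem s1_ramp2 {w v : ℂ} {T : ℝ} (hx : 51 / 100 ≤ w.re) (hx' : w.re ≤ 56 / 100)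
    (hi : w.im = tr9 T w.re) (h1 : 5 / 1000 ≤ T) (h2 : T ≤ 79 / 1000) (h3 : v.re ≤ 56 / 100)
    (h4 : 0 ≤ v.im) (h5 : v.im ≤ 79 / 1000) (hs : 95 / 100 ≤ w.re + v.re) :
    S1 1 (mr9 T) w v + Real.pi * mr9 T < -EX T := by
  have hn := tr9_nonneg (T := T) (x := w.re) (by linarith only [h1]) (by linarith only [hx'])
  have hY : 0 ≤ YY (w + v) := YY_nonneg (by rw [Complex.add_re]; linarith only [hs])
    (by rw [Complex.add_im, hi]; linarith only [h4, hn])
  have k1 := S1_le_n1 (w := w) (v := v) (m := mr9 T) (r := 0) (by linarith only [hx]) (by linarith only [hx'])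
    (LL_le_zz (w + v)) (by
      have := mul_nonpos_of_nonpos_of_nonneg (mr9_nonpos (T := T) (by linarith only [h1])) hY
      simpa using this)
  rw [Complex.add_re, Complex.add_im, hi] at k1
  have k2 := d2 (x := w.re) (T := T) (x' := v.re) (t' := v.im) (by linarith only [hx]) (by linarith only [hx'])
    (by linarith only [h1]) (by linarith only [h2]) (by linarith only [hx', hs]) (by linarith only [h3]) (by linarith only [h4]) (by linarith only [h5]) hs
  unfold EX
  rw [if_pos (by linarith only [h1])]
  linarith only [k1, k2]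

theorem s1_ramp3 {w v : ℂ} {T : ℝ} (hx : 51 / 100 ≤ w.re) (hx' : w.re ≤ 56 / 100)
    (hi : w.im = tr9 T w.re) (h1 : -(8 / 1000) ≤ T) (h2 : T ≤ 80 / 1000) (h3 : v.re ≤ 65 / 100)
    (h4 : 0 ≤ v.im) (h5 : v.im ≤ 131 / 1000) (h6 : v.im ≤ 63 / 100 * (65 / 100 - v.re))
    (hs : 95 / 100 ≤ w.re + v.re) :
    S1 1 (mr9 T) w v + Real.pi * mr9 T < -EX T := by
  unfold EX
  split_ifs with hT
  · have hn := tr9_nonneg (T := T) (x := w.re) hT (by linarith only [hx'])
    have hY : 0 ≤ YY (w + v) := YY_nonneg (by rw [Complex.add_re]; linarith only [hs])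
      (by rw [Complex.add_im, hi]; linarith only [h4, hn])
    have k1 := S1_le_n1 (w := w) (v := v) (m := mr9 T) (r := 0) (by linarith only [hx]) (by linarith only [hx'])
      (LL_le_zz (w + v)) (by
        have := mul_nonpos_of_nonpos_of_nonneg (mr9_nonpos (T := T) hT) hY
        simpa using this)
    rw [Complex.add_re, Complex.add_im, hi] at k1
    have k2 := d3 (x := w.re) (T := T) (x' := v.re) (t' := v.im) (by linarith only [hx]) (by linarith only [hx'])
      (by linarith only [hT]) (by linarith only [h2]) (by linarith only [hx', hs]) (by linarith only [h3]) (by linarith only [h4]) (by linarith only [h5]) hs h6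
    linarith only [k1, k2]
  · push Not at hT
    have hY : YY (w + v) ≤ 1 * Real.pi := by
      have := (abs_le.1 (YY_abs_pi (u := w + v) (by rw [Complex.add_re]; linarith only [h1, hs, hT])
        (by rw [Complex.add_re]; linarith only [hx', h1, h3, hT]))).2
      linarith only [this]
    have hm : 0 ≤ mr9 T := by
      unfold mr9
      linarith only [hT]
    have k1 := S1_le_n1 (w := w) (v := v) (m := mr9 T) (r := 1) (by linarith only [hx, h1, hT]) (by linarith only [hx', h1, hT])
      (LL_le_zz (w + v)) (mul_le_mul_of_nonneg_left hY hm)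
    rw [Complex.add_re, Complex.add_im, hi] at k1
    have k2 := d4 (x := w.re) (T := T) (x' := v.re) (t' := v.im) (by linarith only [hx]) (by linarith only [hx'])
      (by linarith only [h1]) (by linarith only [hT]) (by linarith only [hx', hs]) (by linarith only [h3]) (by linarith only [h4]) (by linarith only [h5]) hs h6
    linarith only [k1, k2]

/-! ### the side of the digit `2` -/

theorem s2_flat {w v : ℂ} {T : ℝ} (hx : 25 / 100 ≤ w.re) (hx' : w.re ≤ 51 / 100)
    (hi : w.im = T) (h1 : -(80 / 1000) ≤ T) (h2 : T ≤ 8 / 1000) (h3 : 0 ≤ v.re)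
    (h3' : v.re ≤ 60 / 100) (h4 : -(985 / 10000) ≤ v.im) (h5 : v.im ≤ 96 / 1000) :
    S2 1 0 w v < EF w.re := by
  have hws : w ∈ strip := ⟨by linarith only [hx], by linarith only [hx']⟩
  unfold EF
  split_ifs with h36
  · have hu : w + v ∈ strip := ⟨by rw [Complex.add_re]; linarith only [hx, h3], by rw [Complex.add_re]; linarith only [h3', h36]⟩
    rw [S2_eq _ hws hu, hi]
    exact f1 (by linarith only [hx]) (by linarith only [h36]) (by linarith only [h1]) (by linarith only [h2]) (by linarith only [h3]) (by linarith only [h3'])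
      (by linarith only [h4]) (by linarith only [h5])
  · push Not at h36
    rcases le_total (w.re + v.re) (91 / 100) with hs | hs
    · have hu : w + v ∈ strip := ⟨by rw [Complex.add_re]; linarith only [h3, h36], by rw [Complex.add_re]; linarith only [hs]⟩
      rw [S2_eq _ hws hu, hi]
      exact f2 (by linarith only [h36]) (by linarith only [hx']) (by linarith only [h1]) (by linarith only [h2]) (by linarith only [h3]) (by linarith only [h3'])
        (by linarith only [h4]) (by linarith only [h5]) hs
    · have k1 := S2_le_n2 (w := w) (v := v) (m := 0) (r := 0) (by linarith only [h36]) (by linarith only [hx'])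
        (LL_le_zz (w + v)) (by simp)
      rw [Complex.add_re, Complex.add_im, hi] at k1
      have k2 := f3 (x := w.re) (T := T) (x' := v.re) (t' := v.im) (by linarith only [h36]) (by linarith only [hx'])
        (by linarith only [h1]) (by linarith only [h2]) (by linarith only [hx', hs]) (by linarith only [h3']) (by linarith only [h4]) (by linarith only [h5]) hs
      linarith only [k1, k2]

theorem s2_ramp {w v : ℂ} {T : ℝ} (hx : 51 / 100 ≤ w.re) (hx' : w.re ≤ 56 / 100)
    (hi : w.im = tr9 T w.re) (h1 : -(80 / 1000) ≤ T) (h2 : T ≤ 18 / 1000) (h3 : 0 ≤ v.re)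
    (h4 : -(985 / 10000) ≤ v.im) (h5 : v.im ≤ 96 / 1000)
    (h6 : v.re ≤ 36 / 100 ∨ (v.re ≤ 56 / 100 ∧ v.im ≤ 18 / 1000)) :
    S2 1 (mr9 T) w v + Real.pi * mr9 T < EX (-T) := by
  have hws : w ∈ strip := ⟨by linarith only [hx], by linarith only [hx']⟩
  rcases le_total v.re (36 / 100) with h7 | h7
  · have hu : w + v ∈ strip := ⟨by rw [Complex.add_re]; linarith only [hx, h3], by rw [Complex.add_re]; linarith only [hx', h7]⟩
    rw [S2_eq _ hws hu, hi]
    unfold EX
    split_ifs with hT
    · exact g1 (by linarith only [hx]) (by linarith only [hx']) (by linarith only [h1]) (by linarith only [hT]) (by linarith only [h3]) (by linarith only [h7])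
        (by linarith only [h4]) (by linarith only [h5])
    · push Not at hT
      exact g2 (by linarith only [hx]) (by linarith only [hx']) (by linarith only [hT]) (by linarith only [h2]) (by linarith only [h3]) (by linarith only [h7])
        (by linarith only [h4]) (by linarith only [h5])
  · have h8 : v.re ≤ 56 / 100 := by
      rcases h6 with h6 | h6
      · linarith only [h6]
      · exact h6.1
    have h9 : v.im ≤ 18 / 1000 ∨ v.re = 36 / 100 := by
      rcases h6 with h6 | h6
      · exact Or.inr (le_antisymm h6 h7)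
      · exact Or.inl h6.2
    rcases h9 with h9 | h9
    · unfold EX
      split_ifs with hT
      · have hm : 0 ≤ mr9 T := by
          unfold mr9
          linarith only [hT]
        rcases le_total 0 (tr9 T w.re + v.im) with h10 | h10
        · have hY : YY (w + v) ≤ 1 * Real.pi := by
            have := (abs_le.1 (YY_abs_pi (u := w + v) (by rw [Complex.add_re]; linarith only [hx, h7])
              (by rw [Complex.add_re]; linarith only [hx', h8]))).2
            linarith only [this]
          have k1 := S2_le_n2 (w := w) (v := v) (m := mr9 T) (r := 1) (by linarith only [hx]) (by linarith only [hx'])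
            (LL_le_zz (w + v)) (mul_le_mul_of_nonneg_left hY hm)
          rw [Complex.add_re, Complex.add_im, hi] at k1
          have k2 := g4 (x := w.re) (T := T) (x' := v.re) (t' := v.im) (by linarith only [hx])
            (by linarith only [hx']) (by linarith only [h1]) (by linarith only [hT]) (by linarith only [h7]) (by linarith only [h8]) (by linarith only [h4])
            (by linarith only [h9]) h10
          linarith only [k1, k2]
        · have hY : YY (w + v) ≤ 0 := YY_nonpos (by rw [Complex.add_re]; linarith only [hx, h7])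
            (by rw [Complex.add_im, hi]; linarith only [h10])
          have k1 := S2_le_n2 (w := w) (v := v) (m := mr9 T) (r := 0) (by linarith only [hx]) (by linarith only [hx'])
            (LL_le_zz (w + v)) (by
              have := mul_nonpos_of_nonneg_of_nonpos hm hY
              simpa using this)
          rw [Complex.add_re, Complex.add_im, hi] at k1
          have k2 := g3 (x := w.re) (T := T) (x' := v.re) (t' := v.im) (by linarith only [hx])
            (by linarith only [hx']) (by linarith only [h1]) (by linarith only [hT]) (by linarith only [h7]) (by linarith only [h8]) (by linarith only [h4])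
            (by linarith only [h9])
          linarith only [k1, k2]
      · push Not at hT
        have hm : mr9 T ≤ 0 := mr9_nonpos (by linarith only [hT])
        have hY : -1 * Real.pi ≤ YY (w + v) := by
          have := (abs_le.1 (YY_abs_pi (u := w + v) (by rw [Complex.add_re]; linarith only [hx, h2, h7, hT])
            (by rw [Complex.add_re]; linarith only [hx', h2, h8, hT]))).1
          linarith only [this]
        have k1 := S2_le_n2 (w := w) (v := v) (m := mr9 T) (r := -1) (by linarith only [hx, h2, hT]) (by linarith only [hx', h2, hT])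
          (LL_le_zz (w + v)) (mul_le_mul_of_nonpos_left hY hm)
        rw [Complex.add_re, Complex.add_im, hi] at k1
        have k2 := g5 (x := w.re) (T := T) (x' := v.re) (t' := v.im) (by linarith only [hx])
          (by linarith only [hx']) (by linarith only [hT]) (by linarith only [h2]) (by linarith only [h7]) (by linarith only [h8]) (by linarith only [h4])
          (by linarith only [h9])
        linarith only [k1, k2]
    · have hu : w + v ∈ strip := ⟨by rw [Complex.add_re]; linarith only [hx, h7], by rw [Complex.add_re]; linarith only [hx', h9]⟩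
      rw [S2_eq _ hws hu, hi]
      unfold EX
      split_ifs with hT
      · exact g1 (by linarith only [hx]) (by linarith only [hx']) (by linarith only [h1]) (by linarith only [hT]) (by linarith only [h7]) (by linarith only [h9])
          (by linarith only [h4]) (by linarith only [h5])
      · push Not at hT
        exact g2 (by linarith only [hx]) (by linarith only [hx']) (by linarith only [hT]) (by linarith only [h2]) (by linarith only [h2, h7, hT]) (by linarith only [h9])
          (by linarith only [h4]) (by linarith only [h5])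

/-! ### rows of the hinge `1 | 2e` -/

theorem k1 {x T x' t' : ℝ} (h1 : 3000 / 10000 ≤ x) (h1' : x ≤ 3500 / 10000)
    (h2 : -(660 / 10000) ≤ T) (h2' : T ≤ 10 / 10000) (h3 : 6000 / 10000 ≤ x')
    (h3' : x' ≤ 6500 / 10000) (h4 : 0 / 10000 ≤ t') (h4' : t' ≤ 800 / 10000) :
    Real.pi * t' - NumI.lnA x T + zz (x + x') (T + t') < 0 := by
  have h : NumI.chk [NumI.E.neg (NumI.E.add (NumI.E.sub (NumI.E.mul NumI.E.pi (NumI.E.var 3))
      (NumI.E.lnA (NumI.E.var 0) (NumI.E.var 1))) (ezz XX TT))] 20
      [NumI.V.of 10000 3000 3500, NumI.V.of 10000 (-660) 10, NumI.V.of 10000 6000 6500,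
        NumI.V.of 10000 0 800] = true := by
    decide +kernel
  obtain ⟨f, hf, hp⟩ := NumI.chk4 h (by norm_num) (x := x) (y := T) (z := x') (w := t')
    (le_trans (by norm_num) h1) (le_trans h1' (by norm_num)) (le_trans (by norm_num) h2)
    (le_trans h2' (by norm_num)) (le_trans (by norm_num) h3) (le_trans h3' (by norm_num))
    (le_trans (by norm_num) h4) (le_trans h4' (by norm_num))
  simp only [List.mem_cons, List.not_mem_nil, or_false] at hf
  subst hf
  simp only [NumI.E.val, ezz_val, XX, TT, NumI.lkR] at hp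
  linarith only [hp]

theorem k2 {x T : ℝ} (h1 : 3000 / 10000 ≤ x) (h1' : x ≤ 3500 / 10000)
    (h2 : -(10 / 10000) ≤ T) (h2' : T ≤ 660 / 10000) : s2 0 x T 0 0 < 0 := by
  have h : NumI.chk [NumI.E.neg (e2 (NumI.E.q 0 1) (NumI.E.var 0) (NumI.E.var 1) (NumI.E.var 2)
      (NumI.E.var 3))] 20
      [NumI.V.of 10000 3000 3500, NumI.V.of 10000 (-10) 660, NumI.V.of 10000 0 0,
        NumI.V.of 10000 0 0] = true := by
    decide +kernel
  obtain ⟨f, hf, hp⟩ := NumI.chk4 h (by norm_num) (x := x) (y := T) (z := 0) (w := 0)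
    (le_trans (by norm_num) h1) (le_trans h1' (by norm_num)) (le_trans (by norm_num) h2)
    (le_trans h2' (by norm_num)) (by norm_num) (by norm_num) (by norm_num) (by norm_num)
  simp only [List.mem_cons, List.not_mem_nil, or_false] at hf
  subst hf
  simp only [NumI.E.val, e2_val, NumI.lkR] at hp
  push_cast at hp
  norm_num at hp
  linarith only [hp]

end WS2

namespace SR

open WS2

variable {M : ℕ} {b : Fin (M + 1) → ℤ} {zs : DD (tyW b) ⊕ ZZ (tyW b) → ℂ}
variable {y : DD (tyW b) ⊕ ZZ (tyW b) → ℝ}
variable {h h' : Fin M} {i j j' : Fin (M + 1)} {p : Fin 3}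

/-- the hinges `1 | 2` are at most `.56`, the other hinges of a digit `2` at most `.36` -/
def Cap2 (b : Fin (M + 1) → ℤ) (y : DD (tyW b) ⊕ ZZ (tyW b) → ℝ) : Prop :=
  ∀ {h : Fin M} {i j : Fin (M + 1)} {p : Fin 3}, Adj h i p j → clsW b i = .two →
    y (.inl (.inl h)) ≤ if clsW b j = .one then 56 / 100 else 36 / 100

/-- the other hinge of the digit `2` of a hinge `1 | 2` -/
theorem Adj.part_21 (A : Adj h i p j) (hb : ClassW b) (hL : Loc b zs) (hy : Mx b zs y)
    (hj : clsW b j = .two) (hC : Cap2 b y) :
    0 ≤ (Yw b zs y j p).re ∧ (Yw b zs y j p).re ≤ 60 / 100 ∧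
      -(985 / 10000) ≤ (Yw b zs y j p).im ∧ (Yw b zs y j p).im ≤ 96 / 1000 ∧
      ((Yw b zs y j p).re ≤ 36 / 100 ∨
        ((Yw b zs y j p).re ≤ 56 / 100 ∧ (Yw b zs y j p).im ≤ 18 / 1000)) := by
  have hpp : p.rev.rev = p := Fin.rev_rev p
  obtain ⟨h2, j2, B⟩ := A.symm.other' b (clsW_inner hb (Or.inr (Or.inl hj)))
  rw [hpp] at B
  have hop := B.opp hb (Or.inl (by rw [hj]; decide))
  obtain ⟨h3, h4⟩ := B.im_two hb hL hy hj
  have hc := hC B hj
  rw [← B.re (zs := zs) (y := y)] at hc
  refine ⟨(B.rh hy).re0, ?_, h3, h4, ?_⟩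
  · split_ifs at hc <;> linarith only [hc]
  · split_ifs at hc with h1
    · right
      refine ⟨hc, ?_⟩
      obtain ⟨-, -, k3, k4⟩ := B.box hb hL
      rw [hj, h1, B.ss hop] at k3 k4
      simp only [hbox] at k3 k4
      exact (MR.RH_im_mem (B.rh hy) (a := -(985 / 10000)) (b := 18 / 1000) (by norm_num)
        (by norm_num) (by linarith only [k3]) (by linarith only [k4])).2
    · exact Or.inl hc

/-- the first order condition of the hinge `1 | 2` -/
theorem sum_core (hb : ClassW b) (hL : Loc b zs) (hy : Mx b zs y)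
    (hpos : ∀ h : Fin M, 0 < y (.inl (.inl h))) (hC : Cap2 b y)
    (A : Adj h i p j) (hi : clsW b i = .one) (hj : clsW b j = .two)
    (hx : 30 / 100 ≤ y (.inl (.inl h))) {T : ℝ} (hT : ofs (b i) (zs (.inl (.inl h))).im = T)
    (t0 : -(8 / 1000) ≤ T) (t1 : T ≤ 80 / 1000)
    (f1 : y (.inl (.inl h)) ≤ 51 / 100 → (Yw b zs y i p).im = T →
      S1 1 0 (Yw b zs y i p) (Yw b zs y i p.rev) < -EF (y (.inl (.inl h))))
    (r1 : 51 / 100 ≤ y (.inl (.inl h)) → y (.inl (.inl h)) ≤ 56 / 100 →
      (Yw b zs y i p).im = tr9 T (y (.inl (.inl h))) →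
      S1 1 (mr9 T) (Yw b zs y i p) (Yw b zs y i p.rev) + Real.pi * mr9 T < -EX T) : False := by
  have hpp : p.rev.rev = p := Fin.rev_rev p
  have hop := A.opp hb (Or.inl (by rw [hi]; decide))
  obtain ⟨hcl, hcr, hXM⟩ := par12 (b := b) A hi hj
  obtain ⟨g1, g2, g3, g4, g5⟩ := A.part_21 hb hL hy hj hC
  have hx56 : y (.inl (.inl h)) ≤ 56 / 100 := by
    have := hC A.symm hj
    rwa [if_pos hi] at this
  have hrh := A.rh hy
  rw [hXM, hcl, hcr, hT] at hrh
  have hre := A.re (zs := zs) (y := y)
  have hc := A.conj (zs := zs) (y := y) hop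
  have hcre : (Yw b zs y j p.rev).re = y (.inl (.inl h)) := by rw [hc, Complex.conj_re, hre]
  have hcim : (Yw b zs y j p.rev).im = -(Yw b zs y i p).im := by rw [hc, Complex.conj_im]
  rcases le_or_gt (y (.inl (.inl h))) (51 / 100) with h51 | h51
  · have him : (Yw b zs y i p).im = T :=
      MR.RH_flat hrh (by norm_num) (by norm_num) (by rw [hre]; linarith only [hx]) (by rw [hre]; linarith only [h51])
    have hsl : slL b zs y h = 0 := slL_flat (by rw [hcl]; linarith only [hx]) (by rw [hXM, hcr]; linarith only [h51])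
    have e1 := f1 h51 him
    have e2 := s2_flat (w := Yw b zs y j p.rev) (v := Yw b zs y j p) (T := -T)
      (by rw [hcre]; linarith only [hx]) (by rw [hcre]; exact h51) (by rw [hcim, him]) (by linarith only [t1])
      (by linarith only [t0]) g1 g2 g3 g4
    rw [hcre] at e2
    have k1 : Sw b zs y i p (slL b zs y h) = S1 1 0 (Yw b zs y i p) (Yw b zs y i p.rev) := by
      rw [A.side_one hb hi, hsl, ofs_zero]
    have k2 : Sw b zs y j p.rev (slL b zs y h) = S2 1 0 (Yw b zs y j p.rev) (Yw b zs y j p) := by
      rw [A.symm.side_two hb (Or.inl hj), hpp, hsl, ofs_zero]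
    exact rstep_false hb hy (hpos h) (RStep.of_adj A (c := 0) (fun h => absurd h (by omega))
      (e1 := Sw b zs y i p (slL b zs y h)) (e2 := Sw b zs y j p.rev (slL b zs y h))
      (by rw [k1, k2]; linarith only [e1, e2]) (by linarith only []) (by linarith only []))
  · have him : (Yw b zs y i p).im = tr9 T (y (.inl (.inl h))) := by
      have := MR.RH_right hrh (by norm_num) (by norm_num) (by norm_num)
        (by rw [hre]; linarith only [h51])
      rw [this, hre]
      unfold tr9
      ring
    have hsl : ofs (b i) (slL b zs y h) = mr9 T := by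
      rw [ofs_slL_ramp _ (by rw [hXM, hcr]; linarith only [h51]), hcr, hT]
      unfold mr9
      ring
    have hsl' : ofs (b j) (slL b zs y h) = mr9 (-T) := by
      rw [ofs_opp hop, hsl]
      unfold mr9
      ring
    have e1 := r1 h51.le hx56 him
    have e2 := s2_ramp (w := Yw b zs y j p.rev) (v := Yw b zs y j p) (T := -T)
      (by rw [hcre]; linarith only [h51]) (by rw [hcre]; exact hx56)
      (by rw [hcim, him, hcre]; unfold tr9; ring) (by linarith only [t1]) (by linarith only [t0]) g1 g3 g4 g5
    rw [neg_neg] at e2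
    exact rstep_false hb hy (hpos h) (RStep.of_adj A (c := Real.pi) (fun h => absurd h (by omega))
      (e1 := Sw b zs y i p (slL b zs y h) + Real.pi * ofs (b i) (slL b zs y h))
      (e2 := Sw b zs y j p.rev (slL b zs y h) + Real.pi * ofs (b j) (slL b zs y h))
      (by
        rw [A.side_one hb hi, A.symm.side_two hb (Or.inl hj), hpp, hsl, hsl']
        linarith only [e1, e2]) le_rfl le_rfl)

/-- **The sum of the two hinges of a digit `1` with the neighbours `{2, 2}`, `{2, 3}`,
`{2, ring}` is at most `.95`.** -/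
theorem sum1_two (hb : ClassW b) (hL : Loc b zs) (hX : LocX b zs) (hy : Mx b zs y)
    (hpos : ∀ h : Fin M, 0 < y (.inl (.inl h))) (hC : Cap2 b y)
    (h31 : ∀ {h : Fin M} {i j : Fin (M + 1)}, Adj h i 0 j → clsW b i = .one →
      clsW b j = .three → y (.inl (.inl h)) ≤ 39 / 100)
    (A : Adj h i p j) (A' : Adj h' i p.rev j') (hi : clsW b i = .one) (hj : clsW b j = .two)
    (hj' : clsW b j' = .two ∨ clsW b j' = .three ∨ clsW b j' = .ring) :
    y (.inl (.inl h)) + y (.inl (.inl h')) ≤ 95 / 100 := by
  by_contra hcon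
  push Not at hcon
  have hpp : p.rev.rev = p := Fin.rev_rev p
  have A2 : Adj h i p.rev.rev j := by rw [hpp]; exact A
  obtain ⟨a0, a1, -, -⟩ := hX.win A A' hi
  obtain ⟨b0, b1, -, -⟩ := hX.win A' A2 hi
  rw [hj] at a0 a1 b0 b1
  have hx56 : y (.inl (.inl h)) ≤ 56 / 100 := by
    have := hC A.symm hj
    rwa [if_pos hi] at this
  have hre := A.re (zs := zs) (y := y)
  have hre' := A'.re (zs := zs) (y := y)
  have hrh' := A'.rh hy
  have hM' := hrh'.reM
  rw [hre'] at hM'
  rcases hj' with hj' | hj' | hj'
  · rw [hj'] at a0 a1 b0 b1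
    simp only [cw] at a0 a1 b0 b1
    have hx56' : y (.inl (.inl h')) ≤ 56 / 100 := by
      have := hC A'.symm hj'
      rwa [if_pos hi] at this
    have him := MR.RH_im_mem hrh' (a := 0) (b := 79 / 1000) le_rfl (by norm_num) (by linarith only [b0]) b1
    refine sum_core hb hL hy hpos hC A hi hj (by linarith only [hcon, hx56']) rfl (by linarith only [a0]) (by linarith only [a1])
      (fun h51 hT => ?_) (fun h51 h56 hT => ?_)
    · have := s1_flat2 (w := Yw b zs y i p) (v := Yw b zs y i p.rev) (by rw [hre]; linarith only [hcon, hx56'])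
        (by rw [hre]; exact h51) hT a0 a1 (by rw [hre']; exact hx56') him.1 him.2
        (by rw [hre, hre']; exact hcon.le)
      rwa [hre] at this
    · exact s1_ramp2 (w := Yw b zs y i p) (v := Yw b zs y i p.rev) (by rw [hre]; exact h51)
        (by rw [hre]; exact h56) (by rw [hre]; exact hT) a0 a1 (by rw [hre']; exact hx56')
        him.1 him.2 (by rw [hre, hre']; exact hcon.le)
  · rw [hj'] at a0 a1 b0 b1
    simp only [cw] at a0 a1 b0 b1
    by_cases hp : p.rev = 0
    · have A0 : Adj h' i 0 j' := by rw [← hp]; exact A'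
      have := h31 A0 hi hj'
      linarith only [hcon, hx56, this]
    · have hpar : wXM b h' = 65 / 100 ∧ wcr b h' = 15 / 100 ∧ wcl b h' = 13 / 100 := by
        have hp2 : p.rev = 2 := by
          rcases A'.slot with h0 | h0
          · exact absurd h0 hp
          · exact h0
        rw [A'.XM_eq b, A'.cr_eq b, A'.cl_eq b, hi, hj', hp2]
        unfold SR.hpp
        rw [if_pos rfl]
        refine ⟨?_, ?_, ?_⟩ <;> unfold SR.hp SR.hp1 <;> rfl
      obtain ⟨e1, e2, e3⟩ := hpar
      rw [e1] at hM'
      rw [e1, e2, e3] at hrh'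
      obtain ⟨⟨c1, -, c3⟩, -, -, g'⟩ := RH_bd (94 / 1000) 0 hrh' (by norm_num) (by norm_num)
        (by norm_num) (by norm_num) b1 (by linarith only [b0])
      have g'' := g' (by linarith only [b0])
      rw [hre'] at c3
      refine sum_core hb hL hy hpos hC A hi hj (by linarith only [hcon, hM']) rfl (by linarith only [a0]) (by linarith only [a1])
        (fun h51 hT => ?_) (fun h51 h56 hT => ?_)
      · have := s1_flat3 (w := Yw b zs y i p) (v := Yw b zs y i p.rev) (by rw [hre]; linarith only [hcon, hM'])
          (by rw [hre]; exact h51) hT (by linarith only [a0]) (by linarith only [a1]) (by rw [hre']; exact hM')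
          g'' (by linarith only [c1]) (by rw [hre']; linarith only [hM', c3]) (by rw [hre, hre']; exact hcon.le)
        rwa [hre] at this
      · exact s1_ramp3 (w := Yw b zs y i p) (v := Yw b zs y i p.rev) (by rw [hre]; exact h51)
          (by rw [hre]; exact h56) (by rw [hre]; exact hT) (by linarith only [a0]) (by linarith only [a1])
          (by rw [hre']; exact hM') g'' (by linarith only [c1]) (by rw [hre']; linarith only [hM', c3])
          (by rw [hre, hre']; exact hcon.le)
  · rw [hj'] at a0 a1 b0 b1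
    simp only [cw] at a0 a1 b0 b1
    have hpar : wXM b h' = 65 / 100 ∧ wcr b h' = 29 / 100 ∧ wcl b h' = 16 / 100 := by
      rw [A'.XM_eq b, A'.cr_eq b, A'.cl_eq b, hi, hj', A2.oc_eq b, hj]
      refine ⟨?_, ?_, ?_⟩ <;> unfold SR.hpp SR.hp SR.hp1 <;> split_ifs <;> rfl
    obtain ⟨e1, e2, e3⟩ := hpar
    rw [e1] at hM'
    rw [e1, e2, e3] at hrh'
    obtain ⟨⟨-, -, c3⟩, -, -, g'⟩ := RH_bd (145 / 1000) 0 hrh' (by norm_num) (by norm_num)
      (by norm_num) (by norm_num) b1 (by linarith only [b0])
    have g'' := g' (by linarith only [b0])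
    rw [hre'] at c3
    refine sum_core hb hL hy hpos hC A hi hj (by linarith only [hcon, hM']) rfl (by linarith only [a0]) (by linarith only [a1])
      (fun h51 hT => ?_) (fun h51 h56 hT => ?_)
    · have := s1_flat3 (w := Yw b zs y i p) (v := Yw b zs y i p.rev) (by rw [hre]; linarith only [hcon, hM'])
        (by rw [hre]; exact h51) hT (by linarith only [a0]) (by linarith only [a1]) (by rw [hre']; exact hM')
        g'' (by linarith only [hcon, c3, h51]) (by rw [hre']; linarith only [hM', c3]) (by rw [hre, hre']; exact hcon.le)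
      rwa [hre] at this
    · exact s1_ramp3 (w := Yw b zs y i p) (v := Yw b zs y i p.rev) (by rw [hre]; exact h51)
        (by rw [hre]; exact h56) (by rw [hre]; exact hT) (by linarith only [a0]) (by linarith only [a1])
        (by rw [hre']; exact hM') g'' (by linarith only [hcon, hx56, c3]) (by rw [hre']; linarith only [hM', c3])
        (by rw [hre, hre']; exact hcon.le)

/-- **The sum of the two hinges of a digit `1` with the neighbours `{2e, 3}`, `{2e, ring}` is at
most `.95`.** -/
theorem sum1_twoE (hb : ClassW b) (hX : LocX b zs) (hy : Mx b zs y)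
    (hpos : ∀ h : Fin M, 0 < y (.inl (.inl h)))
    (A : Adj h i p j) (A' : Adj h' i p.rev j') (hi : clsW b i = .one) (hj : clsW b j = .twoE)
    (hj' : clsW b j' = .three ∨ clsW b j' = .ring) (h35 : y (.inl (.inl h)) ≤ 35 / 100) :
    y (.inl (.inl h)) + y (.inl (.inl h')) ≤ 95 / 100 := by
  by_contra hcon
  push Not at hcon
  have hpp : p.rev.rev = p := Fin.rev_rev p
  have A2 : Adj h i p.rev.rev j := by rw [hpp]; exact A
  have hop := A.opp hb (Or.inl (by rw [hi]; decide))
  obtain ⟨a0, a1, -, -⟩ := hX.win A A' hi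
  obtain ⟨b0, b1, -, -⟩ := hX.win A' A2 hi
  rw [hj] at a0 a1 b0 b1
  have hre := A.re (zs := zs) (y := y)
  have hre' := A'.re (zs := zs) (y := y)
  have hrh := A.rh hy
  have hrh' := A'.rh hy
  have hM' := hrh'.reM
  rw [hre'] at hM'
  have hpar : wXM b h = 70 / 100 ∧ wcr b h = 35 / 100 ∧ wcl b h = 14 / 100 := by
    rw [A.XM_eq b, A.cr_eq b, A.cl_eq b, hi, hj, A'.oc_eq b]
    rcases hj' with hj' | hj' <;> rw [hj'] <;>
    refine ⟨?_, ?_, ?_⟩ <;> unfold SR.hpp SR.hp SR.hp1 <;> split_ifs <;> rfl
  have hpar' : wXM b h' = 65 / 100 ∧ 15 / 100 ≤ wcr b h' ∧ 13 / 100 ≤ wcl b h' := by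
    rw [A'.XM_eq b, A'.cr_eq b, A'.cl_eq b, hi, A2.oc_eq b, hj]
    rcases hj' with hj' | hj' <;> rw [hj'] <;>
    refine ⟨?_, ?_, ?_⟩ <;> unfold SR.hpp SR.hp SR.hp1 <;> split_ifs <;> norm_num
  obtain ⟨e1, e2, e3⟩ := hpar
  obtain ⟨e1', e2', e3'⟩ := hpar'
  rw [e1'] at hM' hrh'
  rw [e1, e2, e3] at hrh
  have hT : -(66 / 1000) ≤ ofs (b i) (zs (.inl (.inl h))).im ∧
      ofs (b i) (zs (.inl (.inl h))).im ≤ 1 / 1000 ∧
      0 ≤ ofs (b i) (zs (.inl (.inl h'))).im ∧ ofs (b i) (zs (.inl (.inl h'))).im ≤ 158 / 1000 := by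
    rcases hj' with hj' | hj' <;> rw [hj'] at a0 a1 b0 b1 <;> simp only [cw] at a0 a1 b0 b1 <;>
      refine ⟨by linarith only [a0], by linarith only [a1], by linarith only [b0], by linarith only [b1]⟩
  obtain ⟨t0, t1, t2, t3⟩ := hT
  obtain ⟨⟨-, -, c3⟩, -, -, g'⟩ := RH_bd (158 / 1000) 0 hrh' (by linarith only [e3']) (by linarith only [e2'])
    (by norm_num) (by norm_num) t3 (by linarith only [t2])
  have g'' := g' t2
  rw [hre'] at c3
  have c4 : (Yw b zs y i p.rev).im * (15 / 100) ≤ 158 / 1000 * (65 / 100 - y (.inl (.inl h'))) :=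
    (mul_le_mul_of_nonneg_left e2' g'').trans c3
  set T := ofs (b i) (zs (.inl (.inl h))).im with hT
  have him : (Yw b zs y i p).im = T :=
    MR.RH_flat hrh (by norm_num) (by norm_num) (by rw [hre]; linarith only [hcon, hM']) (by rw [hre]; linarith only [h35])
  have hsl : slL b zs y h = 0 := slL_flat (by rw [e3]; linarith only [hcon, hM']) (by rw [e1, e2]; linarith only [h35])
  have hc := A.conj (zs := zs) (y := y) hop
  have hcre : (Yw b zs y j p.rev).re = y (.inl (.inl h)) := by rw [hc, Complex.conj_re, hre]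
  have hcim : (Yw b zs y j p.rev).im = -T := by rw [hc, Complex.conj_im, him]
  have hv : Yw b zs y j p = 0 := by
    rcases A.symm.other b zs y with h5 | h5
    · rw [hpp] at h5
      exact h5.2
    · rw [clsW_end (Or.inl hj)] at h5
      exact absurd h5.1 (by decide)
  have q1 : Sw b zs y i p (slL b zs y h) < 0 := by
    rw [A.side_one hb hi, hsl, ofs_zero]
    have r1 := S1_le_n1 (w := Yw b zs y i p) (v := Yw b zs y i p.rev) (m := 0) (r := 0)
      (by rw [hre]; linarith only [hcon, hM']) (by rw [hre]; linarith only [h35]) (LL_le_zz _) (by simp)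
    unfold MR.n1 at r1
    rw [Complex.add_re, Complex.add_im, him, hre, hre'] at r1
    have r2 := k1 (x := y (.inl (.inl h))) (T := T) (x' := y (.inl (.inl h')))
      (t' := (Yw b zs y i p.rev).im) (by linarith only [hcon, hM']) (by linarith only [h35]) (by linarith only [t0]) (by linarith only [t1])
      (by linarith only [h35, hcon]) (by linarith only [hM']) (by linarith only [g'']) (by linarith only [h35, hcon, c4])
    linarith only [r1, r2]
  have q2 : Sw b zs y j p.rev (slL b zs y h) < 0 := by
    rw [A.symm.side_two hb (Or.inr hj), hpp, hsl, ofs_zero, hv, MR.S2_eq, hcre, hcim]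
    · exact k2 (by linarith only [hcon, hM']) (by linarith only [h35]) (by linarith only [t1]) (by linarith only [t0])
    · constructor <;> rw [hcre] <;> linarith only [hcon, hM', h35]
    · constructor <;> rw [add_zero, hcre] <;> linarith only [hcon, hM', h35]
  exact rstep_false hb hy (hpos h) (RStep.of_adj A (c := 0) (fun h => absurd h (by omega))
    (e1 := Sw b zs y i p (slL b zs y h)) (e2 := Sw b zs y j p.rev (slL b zs y h))
    (by linarith only [q1, q2]) (by linarith only []) (by linarith only []))

end SR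

end Pool.Agent.Work.MP_b30479_gt.G2
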