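import Pool.Agent.Work.MP_b30479_gt.G2.WTab

/-!
# The left half of the flat part
-/

namespace Pool.Agent.Work.MP_b30479_gt.G2

open Finset VOL Filter Topology

namespace SR

variable {M : ℕ} {b : Fin (M + 1) → ℤ} {zs : DD (tyW b) ⊕ ZZ (tyW b) → ℂ}
variable {y : DD (tyW b) ⊕ ZZ (tyW b) → ℝ}
variable {h h' : Fin M} {i j j' k : Fin (M + 1)} {p : Fin 3}

/-- the floors of the round `L2` are the left ends, except next to `1 | ring` -/
theorem cl_F2 (P A B Q : Cl) (h : ¬ (A = .one ∧ B = .ring)) (h' : ¬ (A = .ring ∧ B = .one)) :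
    (hp P A B Q).cl ≤ F2 2 A B := by
  cases A <;> cases B <;> first
    | exact absurd ⟨rfl, rfl⟩ h
    | exact absurd ⟨rfl, rfl⟩ h'
    | (simp only [hp, hp1, F2]; (try split_ifs) <;> norm_num)

/-- **The left half of the flat part.** -/
theorem flat_left (hF : Flr b y F2)
    (h3 : ∀ {h : Fin M} {i j : Fin (M + 1)} {p : Fin 3}, Adj h i p j → clsW b i = .one →
      clsW b j = .ring → 160 / 1000 ≤ y (.inl (.inl h))) (h : Fin M) :
    wcl b h ≤ y (.inl (.inl h)) := by
  by_cases h1 : clsW b h.castSucc = .one ∧ clsW b h.succ = .ring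
  · have := h3 (Adj.l (h := h)) h1.1 h1.2
    refine le_trans ?_ this
    show (hp _ _ _ _).cl ≤ _
    rw [h1.1, h1.2]
    norm_num [hp, hp1]
  by_cases h2 : clsW b h.castSucc = .ring ∧ clsW b h.succ = .one
  · have := h3 (Adj.r (h := h)) h2.2 h2.1
    refine le_trans ?_ this
    show (hp _ _ _ _).cl ≤ _
    rw [h2.1, h2.2]
    norm_num [hp, hp1]
  exact (cl_F2 _ _ _ _ h1 h2).trans (hF (Adj.l (h := h)))

end SR

end Pool.Agent.Work.MP_b30479_gt.G2
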