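import Pool.Agent.Work.MP_b30479_gt.G2.WI3
import Pool.Agent.Work.MP_b30479_gt.G2.V3MidR
import Pool.Agent.Work.MP_b30479_gt.G2.V30F

/-!
# The inner variable of an interior region with three crossings is on its flat part
-/

namespace Pool.Agent.Work.MP_b30479_gt.G2

open Finset VOL Filter Topology

namespace SR

variable {M : ℕ} {b : Fin (M + 1) → ℤ} {zs : DD (tyW b) ⊕ ZZ (tyW b) → ℂ}
variable {y : DD (tyW b) ⊕ ZZ (tyW b) → ℝ}
variable {h h' : Fin M} {i j k : Fin (M + 1)}

/-- values of an interior region with three crossings in terms of its inner variable -/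
theorem V3_mid_le (hb : ClassW b) (hy : IsMx (wdat (tyW b) b) (wpar b zs) zs y)
    (hc : clsW b i = .three) {c : ℝ} (c0 : 5 / 100 ≤ c) (c1 : c ≤ 75 / 100) :
    V3 (Yw b zs y i 0) (lv c (hI zs hc)) (Yw b zs y i 2) ≤
      V3 (Yw b zs y i 0) (Yw b zs y i 1) (Yw b zs y i 2) := by
  obtain ⟨p1, p2, p3⟩ := pp_mI (zs := zs) hc
  have ht := tyW_of_three hc
  have hne : tyW b i ≠ .ring := by rw [ht]; decide
  have h2 := hy.upd (.inl (.inr (mI b hc))) (c := c) (by show (0 : ℝ) ≤ c; linarith only [c0])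
    (by show c ≤ (wpar b zs).XM (.inr (mI b hc)); rw [p1]; linarith only [c1])
  have h3 : (wdat (tyW b) b).V (Function.update ((wpar b zs).pth zs y) (.inl (.inr (mI b hc)))
      ((wpar b zs).pp zs (.inl (.inr (mI b hc))) c)) -
      (wdat (tyW b) b).V ((wpar b zs).pth zs y) =
      rV (tyW b) b i (Function.update (xx (tyW b) i ((wpar b zs).pth zs y)) 1
        ((wpar b zs).pp zs (.inl (.inr (mI b hc))) c)) -
      rV (tyW b) b i (xx (tyW b) i ((wpar b zs).pth zs y)) :=
    V_upd_mid (tyW b) b (mI b hc) ((wpar b zs).pth zs y)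
      ((wpar b zs).pp zs (.inl (.inr (mI b hc))) c)
  rw [rV_own hb, rV_own hb, own_update_one hne] at h3
  have e5 : ofr (b i) ((wpar b zs).pp zs (.inl (.inr (mI b hc))) c) = lv c (hI zs hc) :=
    ofr_pp_flat (wpar_good b zs) zs (.inr (mI b hc)) (b i) (by rw [p2]; exact c0)
      (by rw [p1, p3]; linarith only [c1])
  have e6 : own (b i) (tyW b i) (xx (tyW b) i ((wpar b zs).pth zs y)) = OY b zs y i := rfl
  rw [e6, e5] at h3
  have h4 : OV b i (Function.update (OY b zs y i) 1 (lv c (hI zs hc))) - OV b i (OY b zs y i) ≤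
      0 := by linarith only [hc, h2, h3]
  rw [OV_three hb hc, OV_three hb hc, Function.update_self, Function.update_of_ne (by decide),
    Function.update_of_ne (by decide), OY_zero, OY_one hne, OY_two] at h4
  linarith only [hc, h4]

/-- the inner derivative at the right end of the flat part -/
theorem Phi_neg_top (A K : Cl) {tu tv tm u v : ℝ} (ht : M3.Hts (M3.prm A K) tu tv tm)
    (hu0 : ((M3.prm A K).ul : ℝ) / 10000 ≤ u) (hu1 : u ≤ ((M3.prm A K).uh : ℝ) / 10000)
    (hv0 : ((M3.prm A K).vl : ℝ) / 10000 ≤ v) (hv1 : v ≤ ((M3.prm A K).vh : ℝ) / 10000)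
    (hM : 0 < NumI.MM (u + 3 / 4) (tu + tm)) : M3.Phi tu tv tm u v (3 / 4) < 0 := by
  obtain ⟨f, hU, hf⟩ := (M3.good A K).U
  refine M3.Phi_neg (M3.good A K).k2 hU hf ht hu0 hu1 hv0 hv1 ?_ le_rfl hM
  have h1 : ((M3.prm A K).m1 : ℝ) ≤ 7500 := by exact_mod_cast (M3.good A K).k2.m1
  unfold M3.mU
  exact (min_le_left _ _).trans (by linarith only [h1])

theorem prm_vh (A K : Cl) : (M3.prm A K).vh ≤ 4200 := by
  cases A <;> cases K <;> decide

/-- **The inner variable of an interior digit `3` is not on its right ramp**, hinges on their flat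
parts. -/
theorem mid_lt (hb : ClassW b) (hL : Loc b zs) (hX : LocX b zs)
    (hy : IsMx (wdat (tyW b) b) (wpar b zs) zs y) (hpos : ∀ h : Fin M, 0 < y (.inl (.inl h)))
    (hf : Flat b y) (A : Adj h i 0 j) (A' : Adj h' i 2 k) (hc : clsW b i = .three)
    (hu : y (.inl (.inl h')) ∈ Set.Icc (((M3.prm (clsW b j) (clsW b k)).ul : ℝ) / 10000)
      (((M3.prm (clsW b j) (clsW b k)).uh : ℝ) / 10000))
    (hv : y (.inl (.inl h)) ∈ Set.Icc (((M3.prm (clsW b j) (clsW b k)).vl : ℝ) / 10000)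
      (((M3.prm (clsW b j) (clsW b k)).vh : ℝ) / 10000)) :
    y (.inl (.inr (mI b hc))) < 3 / 4 := by
  by_contra hcon
  have hcon := not_lt.1 hcon
  obtain ⟨p1, p2, p3⟩ := pp_mI (zs := zs) hc
  have hR := mid_RH hy (mI b hc)
  have hF := mid_fc hb hy hpos (mI b hc) (by linarith)
  rw [p1, p2, p3] at hR hF
  have hre : (Yw b zs y i 1).re = y (.inl (.inr (mI b hc))) := by
    rw [show Yw b zs y i 1 = Yw b zs y (mI b hc).1 1 from rfl,
      Yw_mid (zs := zs) (y := y) (mI b hc), ofr_pp_re]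
  have hR' : RH (Yw b zs y i 1) (hI zs hc) (8 / 10) (5 / 100) (5 / 100) := hR
  have hF' : FOC (Yw b zs y i 1) (hI zs hc) (8 / 10) (5 / 100) (5 / 100) (OM b zs y i) := hF
  have hM := hR'.reM
  rw [hre] at hM
  have him : (Yw b zs y i 1).im = 20 * hI zs hc * (8 / 10 - y (.inl (.inr (mI b hc)))) := by
    rw [hR'.im, hre, tr_c (by norm_num) (by norm_num) (by norm_num) (by linarith) hM]
    ring
  have eu := A.Yw_flat hy hf
  have ew := A'.Yw_flat hy hf
  have hur : (Yw b zs y i 0).re = y (.inl (.inl h)) := A.re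
  have hwr : (Yw b zs y i 2).re = y (.inl (.inl h')) := A'.re
  have hui : (Yw b zs y i 0).im = ofs (b i) (zs (.inl (.inl h))).im := by rw [eu, lv_im]
  have hwi : (Yw b zs y i 2).im = ofs (b i) (zs (.inl (.inl h'))).im := by rw [ew, lv_im]
  -- the end of the flat part
  rcases hcon.eq_or_lt with h34 | h34
  · have e1 : Yw b zs y i 1 = lv (3 / 4) (hI zs hc) := by
      apply Complex.ext
      · rw [hre, lv_re, h34]
      · rw [him, lv_im, ← h34]
        ring
    obtain ⟨r1, -⟩ := reg_three hc hy hpos (by linarith)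
    have r1 := MM_pos_of_sinNe r1
    rw [e1, ew, lv_add, lv_re, lv_im, add_comm] at r1
    rw [add_comm (hI zs hc)] at r1
    have hz := Phi_neg_top _ _ (hts3 hb hL hX A A' hc) hu.1 hu.2 hv.1 hv.2 r1
    rw [Phi_SM, ← eu, ← ew, ← e1, ← OM_three hc] at hz
    have := hF'.flat' (by rw [hre]; linarith) (by rw [hre, ← h34]; norm_num)
    linarith only [hz, this]
  -- the right ramp
  have foc : ¬ SM (-(20 * hI zs hc)) (Yw b zs y i 0) (Yw b zs y i 1) (Yw b zs y i 2) < 0 := by
    intro hneg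
    have := hF'.right' (by rw [hre]; linarith only [hc, h34])
    rw [OM_three hc] at this
    have e : -(hI zs hc / (5 / 100)) = -(20 * hI zs hc) := by ring
    rw [e] at this
    linarith only [hc, hneg, this]
  have val : ∀ c : ℝ, 5 / 100 ≤ c → c ≤ 75 / 100 →
      ¬ V3 (Yw b zs y i 0) (Yw b zs y i 1) (Yw b zs y i 2) <
        V3 (Yw b zs y i 0) (lv c (hI zs hc)) (Yw b zs y i 2) := fun c c0 c1 =>
    not_lt.2 (V3_mid_le hb hy hc c0 c1)
  have H := htW hb hL hX A A' hc
  have H' : VL.HtW (clsW b j) (clsW b k) (ofs (b i) (zs (.inl (.inl h))).im) (hI zs hc)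
      (ofs (b i) (zs (.inl (.inl h'))).im) := H
  have hT0 := H'.T0
  have hT1 := H'.T1
  have hTZ := H'.TZ
  have hS0 := H'.S0
  have hS1 := H'.S1
  have ht0 := H'.t0
  have ht1 := H'.t1
  have hvh : y (.inl (.inl h)) ≤ 42 / 100 := by
    refine hv.2.trans ?_
    have : ((M3.prm (clsW b j) (clsW b k)).vh : ℝ) ≤ 4200 := by exact_mod_cast prm_vh _ _
    linarith only [this]
  -- flat parts
  obtain ⟨fa, fb⟩ := hf h
  obtain ⟨ga, gb⟩ := hf h'
  obtain ⟨x1, x2, x3⟩ := A.par_three0 hc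
  obtain ⟨x1', x2', x3'⟩ := A'.par_three2 hc
  rw [x1, x3] at fb
  rw [x2] at fa
  rw [x1', x3'] at gb
  rw [x2'] at ga
  have bu : clsW b j ≠ .one → 12 / 100 ≤ y (.inl (.inl h)) ∧ y (.inl (.inl h)) ≤ 33 / 100 ∧
      -(98 / 1000) ≤ ofs (b i) (zs (.inl (.inl h))).im ∧
      ofs (b i) (zs (.inl (.inl h))).im ≤ 57 / 1000 ∧
      (clsW b j ≠ .twoE → -(57 / 1000) ≤ ofs (b i) (zs (.inl (.inl h))).im) := by
    intro hj
    rcases hj' : clsW b j with _ | _ | _ | _ | _ | _ <;> rw [hj'] at fa fb hT0 hT1 hTZ <;>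
      simp only [VL.pL, hbox] at fa fb hT0 hT1
    · exact absurd hj' hj
    · exact ⟨by linarith only [fa], by linarith only [fb], by linarith only [hc, hM, h34, hT0], by linarith only [hc, hM, h34, hT1], fun _ => by linarith only [hT0]⟩
    · exact ⟨by linarith only [fa], by linarith only [hc, hM, h34, fb], by linarith only [hT0], by linarith only [hc, hM, h34, hT1], fun h => absurd rfl h⟩
    · exact ⟨by linarith only [hc, hM, h34, fa], by linarith only [hc, hM, h34, fb], by linarith only [hc, hM, h34, hT0], by linarith only [hc, hM, h34, hT1], fun _ => by linarith only [hc, hM, h34, hT0]⟩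
    · exact ⟨by linarith only [fa], by linarith only [hc, hM, h34, fb], by linarith only [hc, hM, h34, hT0], by linarith only [hc, hM, h34, hT1], fun _ => by linarith only [hc, hM, h34, hT0]⟩
    · have := hTZ rfl
      exact ⟨by linarith only [fa], by linarith only [hc, hM, h34, fb], by linarith only [hc, hM, h34, this], by linarith only [hT1], fun _ => by linarith only [hc, hM, h34, this]⟩
  have bw : clsW b k ≠ .one → 13 / 100 ≤ y (.inl (.inl h')) ∧ y (.inl (.inl h')) ≤ 31 / 100 ∧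
      -(98 / 1000) ≤ ofs (b i) (zs (.inl (.inl h'))).im ∧
      ofs (b i) (zs (.inl (.inl h'))).im ≤ 57 / 1000 := by
    intro hk
    rcases hk' : clsW b k with _ | _ | _ | _ | _ | _ <;> rw [hk'] at ga gb hS0 hS1 <;>
      simp only [VL.pR, hbox] at ga gb hS0 hS1
    · exact absurd hk' hk
    all_goals exact ⟨by linarith only [ga], by linarith only [hc, hM, h34, gb], by linarith only [hc, hM, h34, hS0], by linarith only [hc, hM, h34, hS1]⟩
  by_cases hk : clsW b k = .one
  · rw [hk] at ga gb hS0 hS1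
    simp only [VL.pR, hbox] at ga gb hS0 hS1
    by_cases hj : clsW b j = .one
    · rw [hj] at fa hT0 hT1
      rw [hj, hk] at ht0 ht1
      simp only [VL.pL, hbox, mw] at fa hT0 hT1 ht0 ht1
      refine foc (VN.mid_right_11 hre him (by linarith only [hc, h34]) (by linarith only [hc, hM]) ?_ ?_ ?_ ?_ ?_ ?_ ?_ ?_
        ?_ ?_) <;> (try rw [hur]) <;> (try rw [hui]) <;> (try rw [hwr]) <;> (try rw [hwi]) <;>
        linarith only [hc, hM, h34, fa, hvh, hT0, hT1, ga, gb, hS0, hS1, ht0, ht1]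
    by_cases hj2 : clsW b j = .twoE
    · rw [hj2] at fa fb hT0 hT1
      rw [hj2, hk] at ht0 ht1
      simp only [VL.pL, hbox, mw] at fa fb hT0 hT1 ht0 ht1
      refine foc (VN.mid_right_E1 hre him (by linarith only [hc, h34]) (by linarith only [hc, hM]) ?_ ?_ ?_ ?_ ?_ ?_ ?_ ?_
        ?_ ?_) <;> (try rw [hur]) <;> (try rw [hui]) <;> (try rw [hwr]) <;> (try rw [hwi]) <;>
        linarith only [fa, hc, hM, h34, fb, hT0, hT1, ga, gb, hS0, hS1, ht0, ht1]
    · obtain ⟨u1, u2, u3, u4, u5⟩ := bu hj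
      have u5 := u5 hj2
      have ht : -(122 / 1000) ≤ hI zs hc ∧ hI zs hc ≤ 15 / 1000 := by
        rcases hj' : clsW b j with _ | _ | _ | _ | _ | _ <;> rw [hj', hk] at ht0 ht1 <;>
          simp only [mw] at ht0 ht1
        · exact absurd hj' hj
        · exact ⟨by linarith only [hc, hM, h34, ht0], by linarith only [hc, hM, h34, ht1]⟩
        · exact absurd hj' hj2
        all_goals exact ⟨by linarith only [hc, hM, h34, ht0], by linarith only [hc, hM, h34, ht1]⟩
      refine val (54 / 100) (by norm_num) (by norm_num) (VN.mid_right_N1 hre him (lv_re _ _)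
        (lv_im _ _) (by linarith only [hc, h34]) (by linarith only [hc, hM]) ?_ ?_ ?_ ?_ ?_ ?_ ?_ ?_ ht.1 ht.2) <;>
        (try rw [hur]) <;> (try rw [hui]) <;> (try rw [hwr]) <;> (try rw [hwi]) <;> linarith only [u1, u2, u5, u4, ga, hc, hM, h34, gb, hS0, hS1]
  · obtain ⟨w1, w2, w3, w4⟩ := bw hk
    by_cases hj : clsW b j = .one
    · rw [hj] at fa hT0 hT1 ht0 ht1
      simp only [VL.pL, hbox] at fa hT0 hT1
      have ht : -(92 / 1000) ≤ hI zs hc ∧ hI zs hc ≤ 15 / 1000 := by
        rcases hk' : clsW b k with _ | _ | _ | _ | _ | _ <;> rw [hk'] at ht0 ht1 <;>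
          simp only [mw] at ht0 ht1
        · exact absurd hk' hk
        all_goals exact ⟨by linarith only [hc, hM, h34, ht0], by linarith only [hc, hM, h34, ht1]⟩
      refine val (66 / 100) (by norm_num) (by norm_num) (VN.mid_right_1N hre him (lv_re _ _)
        (lv_im _ _) (by linarith only [hc, h34]) (by linarith only [hc, hM]) ?_ ?_ ?_ ?_ ?_ ?_ ?_ ?_ ht.1 ht.2) <;>
        (try rw [hur]) <;> (try rw [hui]) <;> (try rw [hwr]) <;> (try rw [hwi]) <;> linarith only [hc, hM, h34, fa, hvh, hT0, hT1, w1, w2, w3, w4]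
    · obtain ⟨u1, u2, u3, u4, -⟩ := bu hj
      have ht : -(123 / 1000) ≤ hI zs hc ∧ hI zs hc ≤ 15 / 1000 := by
        obtain ⟨t0, t1, -⟩ := H'.t_all
        exact ⟨t0, by linarith only [hc, hM, h34, t1]⟩
      refine val (62 / 100) (by norm_num) (by norm_num) (VN.mid_right_NN hre him (lv_re _ _)
        (lv_im _ _) (by linarith only [hc, h34]) (by linarith only [hc, hM]) ?_ ?_ ?_ ?_ ?_ ?_ ?_ ?_ ht.1 ht.2) <;>
        (try rw [hur]) <;> (try rw [hui]) <;> (try rw [hwr]) <;> (try rw [hwi]) <;> linarith only [u1, u2, u3, u4, w1, w2, w3, w4]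

end SR

end Pool.Agent.Work.MP_b30479_gt.G2
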