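import Pool.Agent.Work.MP_b30479_gt.G2.MLZ
import Pool.Agent.Work.MP_b30479_gt.G2.MLY
import Pool.Agent.Work.MP_b30479_gt.G2.S0RKA
import Pool.Agent.Work.MP_b30479_gt.G2.S0RW
import Pool.Agent.Work.MP_b30479_gt.G2.WLocA

/-!
# The round `L3`
-/

namespace Pool.Agent.Work.MP_b30479_gt.G2

open Finset VOL Filter Topology

namespace SR

open ML

variable {M : ℕ} {b : Fin (M + 1) → ℤ} {zs : DD (tyW b) ⊕ ZZ (tyW b) → ℂ}
variable {y : DD (tyW b) ⊕ ZZ (tyW b) → ℝ}
variable {h h' h1 h2 : Fin M} {i j j' j1 j2 : Fin (M + 1)} {p : Fin 3}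

/-- **The round `L3`**: the hinges `1 | ring`. -/
theorem left_3 (hb : ClassW b) (H : LocA b zs) (hy : Mx b zs y)
    (hpos : ∀ h : Fin M, 0 < y (.inl (.inl h))) (hF : Flr b y F2) (hC : Cap b y C2)
    (hring : ∀ {h : Fin M} {i j : Fin (M + 1)} {p : Fin 3}, Adj h i p j → clsW b i = .ring →
      clsW b j = .one → 145 / 1000 ≤ y (.inl (.inl h)) → y (.inl (.inl h)) ≤ 160 / 1000 →
      -(22 / 100) ≤ Sw b zs y i p ((zs (.inl (.inl h))).im / wcl b h) +
        (Real.pi - 4 * y (.inl (.inl h))) * ofs (b i) ((zs (.inl (.inl h))).im / wcl b h))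
    (A : Adj h i p j) (hi : clsW b i = .one) (hj : clsW b j = .ring) :
    160 / 1000 ≤ y (.inl (.inl h)) := by
  by_contra hcon
  push Not at hcon
  obtain ⟨h1, j1, A1⟩ := A.other_one hb hi
  have c1 := hC A1
  have f0 := hF A
  rw [hi] at c1
  rw [hi, hj] at f0
  simp only [F2] at f0
  have s1 := A.one_L3b A1 hb H.X hy hpos hF hi hj f0 hcon.le (c1.trans (C2_one _ _ _))
  have s2 := hring A.symm hj hi f0 hcon.le
  obtain ⟨-, e2, -⟩ := A.symm.par_ring_one hj hi
  have hlt : y (.inl (.inl h)) < wcl b h := by rw [e2]; linarith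
  obtain ⟨c, e1, e2, k1, k2, k3⟩ := LStep.opp (m := (zs (.inl (.inl h))).im / wcl b h) A hb
    (by rw [hi]; decide) (by norm_num) s1 s2
  rw [← w_sR_left (zs := zs) h hlt] at k3
  refine lside_false hb hy h (hpos h) ?_ k1 k2 k3
  have := w_sum (b := b) h
  have := wcr_pos (b := b) h
  linarith

end SR

end Pool.Agent.Work.MP_b30479_gt.G2
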