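import Pool.Agent.Work.MP_b30479_gt.G2.WRngL
import Pool.Agent.Work.MP_b30479_gt.G2.LRF4
import Pool.Agent.Work.MP_b30479_gt.G2.LRB6

/-!
# The side of a ring at a hinge `1 | ring` in the round `L3`
-/

namespace Pool.Agent.Work.MP_b30479_gt.G2

open Finset VOL Filter Topology

/-- **Left ramp of a hinge next to a digit `1`**, `145/1000 ≤ x ≤ 16/100`, shift `π - 4 x`; the
other hinge is `≤ 1/2` -/
theorem RPl.oneC4 {b ρ σ x m : ℝ} {w w' : ℂ} (P : RPl b ρ w w' σ) (hb : 4 ≤ b)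
    (hc : RCap b ρ) (hbρ : b ^ 2 * ρ ≤ 23 / 10)
    (hfl : -(1 / 4) ≤ σ → -(2 * Real.pi * b * ρ) + Dm 0 w (LT.zt ρ σ) ≤ 0)
    (hσ : σ ≤ 0) (hw : LR.W x m w) (hm : m ≤ -(2375 / 10000)) (hm' : -(9875 / 10000) ≤ m)
    (hm4 : b < 5 → -(8 / 10) ≤ m) (hx0 : 145 / 1000 ≤ x) (hx : x ≤ 16 / 100)
    (hx' : w'.re ≤ 1 / 2) :
    -(22 / 100) ≤ S4 m w (LT.zt ρ σ) + (Real.pi - 4 * x) * m := by
  cases P with
  | flat h =>
    have h4 : -(1 / 4) ≤ σ := by
      have := h.lo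
      rwa [zt_re] at this
    have e : (LT.zt ρ σ).im = ρ := by
      rw [zt_im, th_of_le (by rw [abs_of_nonpos hσ]; linarith only [h4]), mul_one]
    exact LR.one_flatC4 (b := b) hw h hm hm' hx0 hx (by rw [e]; exact hbρ)
      (by rw [e]; exact hfl h4)
  | pos s e h hs hF =>
    have hFP := FP_of h.pos (by linarith only [h, h.lo]) h.hi hF
    rcases lt_or_ge b 5 with h5 | h5
    · have := LR.one_P4c hw h hc.1 hm (hm4 h5) hx0 hx (LR.FP_mono h hb hFP)
      linarith only [this]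
    · have := LR.one_P5c hw h (hc.2.1 h5) hm hm' hx0 hx (LR.FP_mono h h5 hFP)
      linarith only [this]
  | far s e h hF hxx => exact absurd hx' (not_le.2 hxx)
  | tiny s e h0 h1 hF hxx => exact absurd hx' (not_le.2 hxx)

namespace SR

variable {M : ℕ} {b : Fin (M + 1) → ℤ} {zs : DD (tyW b) ⊕ ZZ (tyW b) → ℂ}
variable {y : DD (tyW b) ⊕ ZZ (tyW b) → ℝ}
variable {h h' : Fin M} {i j j' : Fin (M + 1)} {p : Fin 3}

/-- **The side of a ring at a hinge `1 | ring` in the round `L3`.** -/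
theorem Adj.ring_L3_one (A : Adj h i p j) (hb : ClassW b) (hL : Loc b zs) (hX : LocX b zs)
    (hR : LocR b zs) (hy : Mx b zs y) (hc : clsW b i = .ring) (hj : clsW b j = .one)
    (hx0 : 145 / 1000 ≤ y (.inl (.inl h))) (hx : y (.inl (.inl h)) ≤ 16 / 100)
    (H : ∀ {h' j'}, Adj h' i p.rev j' → y (.inl (.inl h')) ≤ 36 / 100) :
    -(22 / 100) ≤ Sw b zs y i p ((zs (.inl (.inl h))).im / wcl b h) +
        (Real.pi - 4 * y (.inl (.inl h))) * ofs (b i) ((zs (.inl (.inl h))).im / wcl b h) := by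
  obtain ⟨ρ, σ, k', P, Q, -⟩ := A.rpl hb hL hX hR hy hc (by linarith only [hx])
  obtain ⟨-, e2, -⟩ := A.par_ring_one hc hj
  have h0 : 0 < y (.inl (.inl h)) := by linarith only [hx0]
  have hw := A.lw hy h0 (by rw [e2]; exact hx)
  obtain ⟨t1, t2, t3⟩ := A.t_one hb hL hX hc hj
  have hH := A.other_le (zs := zs) (by norm_num) H
  rw [A.side_ring hb hc, P.z]
  have hbρ : ((b i).natAbs : ℝ) ^ 2 * ρ ≤ 23 / 10 := by
    obtain ⟨c4, c5, c6, c7, c8⟩ := P.cap
    have h4 := ring_four hb (tyW_of_ring hb hc)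
    have hρ := P.rm.ρ0
    rcases (show (b i).natAbs = 4 ∨ (b i).natAbs = 5 ∨ (b i).natAbs = 6 ∨ (b i).natAbs = 7 ∨
      8 ≤ (b i).natAbs by omega) with h5 | h5 | h5 | h5 | h5
    · rw [h5]
      norm_num
      linarith only [c4, hρ]
    · rw [h5] at c5 ⊢
      have := c5 (by norm_num)
      norm_num
      linarith only [hρ, this]
    · rw [h5] at c6 ⊢
      have := c6 (by norm_num)
      norm_num
      linarith only [hρ, this]
    · rw [h5] at c7 ⊢
      have := c7 (by norm_num)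
      norm_num
      linarith only [hρ, this]
    · exact c8 (by exact_mod_cast h5)
  have hfl : -(1 / 4) ≤ σ → -(2 * Real.pi * ((b i).natAbs : ℝ) * ρ) + Dm 0 (Yw b zs y i p) (LT.zt ρ σ) ≤ 0 := by
    intro h5
    exact P.rm.flat_le P.cap P.ok' P.ok.re_nonneg (by rw [A.re]; exact hx) (by
      rw [hw.im, ofs_div, e2]
      exact mul_nonpos_of_nonpos_of_nonneg (div_nonpos_of_nonpos_of_nonneg (by linarith only [hx, h0, t2]) (by norm_num))
        h0.le) hH h5 P.le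
  rw [ofs_div, e2] at hw ⊢
  exact Q.oneC4 P.rm.b4 P.cap hbρ hfl P.le hw (by rw [div_le_iff₀ (by norm_num)]; linarith only [t2])
    (by rw [le_div_iff₀ (by norm_num)]; linarith only [t1])
    (fun h5 => by rw [le_div_iff₀ (by norm_num)]; linarith only [t3, h5, t3 h5]) hx0 hx (by linarith only [hH])

end SR

end Pool.Agent.Work.MP_b30479_gt.G2
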