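import Pool.Agent.Work.MP_b30479_gt.G2.WChT

/-!
# The caps at the slots `2` of the interior regions with three crossings, without floors
-/

namespace Pool.Agent.Work.MP_b30479_gt.G2

open Finset VOL Filter Topology

namespace SR

variable {M : ℕ} {b : Fin (M + 1) → ℤ} {zs : DD (tyW b) ⊕ ZZ (tyW b) → ℂ}
variable {y : DD (tyW b) ⊕ ZZ (tyW b) → ℝ}
variable {h h' h1 h2 : Fin M} {i j j' j1 j2 k l : Fin (M + 1)} {p : Fin 3}

theorem Adj.val_two (A : Adj h i 2 j) : i.val = h.val ∧ j.val = h.val + 1 := by
  generalize hp : (2 : Fin 3) = q at A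
  cases A
  · exact ⟨rfl, rfl⟩
  · exact absurd hp (by decide)

/-- **The caps at the slots `2`**, by induction from the right. -/
theorem cap3_of (hb : ClassW b) (H : LocA b zs) (hy : Mx b zs y)
    (hpos : ∀ h : Fin M, 0 < y (.inl (.inl h)))
    (c33 : ∀ {h h' : Fin M} {i k l : Fin (M + 1)}, Adj h i 2 k → Adj h' k 2 l →
      clsW b i = .three → clsW b k = .three → y (.inl (.inl h')) ≤ VL.cpR (clsW b l) →
      y (.inl (.inl h)) ≤ VL.cpR .three)
    (c3E : ∀ {h : Fin M} {i k : Fin (M + 1)}, Adj h i 2 k → clsW b i = .three →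
      clsW b k = .threeE → y (.inl (.inl h)) ≤ VL.cpR .threeE)
    (c3Z : ∀ {h : Fin M} {i k : Fin (M + 1)}, Adj h i 2 k → clsW b i = .three →
      clsW b k = .ring → y (.inl (.inl h)) ≤ VL.cpR .ring) : Cap3 b y := by
  have key : ∀ (n : ℕ) {h : Fin M} {i k : Fin (M + 1)}, M - h.val ≤ n → Adj h i 2 k →
      clsW b i = .three → y (.inl (.inl h)) ≤ VL.cpR (clsW b k) := by
    intro n
    induction n with
    | zero =>
      intro h i k hn
      have := h.2
      omega
    | succ n ih =>
      intro h i k hn A hi
      rcases hk : clsW b k with _ | _ | _ | _ | _ | _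
      · obtain ⟨h', l, B⟩ := A.symm.other_one hb hk
        have := cap_three_one A B hb H.L H.X hy (hpos h) hi hk
        refine this.trans ?_
        cases clsW b l <;> norm_num [cap31, VL.cpR]
      · have := cap_three_two A hb H.L H.X hy (hpos h) hi hk
        norm_num [VL.cpR] at this ⊢
        linarith
      · have := cap_three_twoE A hb H.L H.X hy (hpos h) hi hk
        norm_num [VL.cpR] at this ⊢
        linarith
      · obtain ⟨h', l, B⟩ := A.symm.other' b (clsW_inner hb (Or.inr (Or.inr hk)))
        have B' : Adj h' k 2 l := B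
        refine c33 A B' hi hk (ih ?_ B' hk)
        have e1 := A.val_two
        have e2 := B'.val_two
        have := h'.2
        omega
      · exact c3E A hi hk
      · exact c3Z A hi hk
  intro h i k A hi
  exact key _ le_rfl A hi

end SR

end Pool.Agent.Work.MP_b30479_gt.G2
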