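import Pool.Agent.Work.MP_b30479_gt.G2.WChA
import Pool.Agent.Work.MP_b30479_gt.G2.WChF
import Pool.Agent.Work.MP_b30479_gt.G2.WChK
import Pool.Agent.Work.MP_b30479_gt.G2.WChM
import Pool.Agent.Work.MP_b30479_gt.G2.WChR
import Pool.Agent.Work.MP_b30479_gt.G2.WChS
import Pool.Agent.Work.MP_b30479_gt.G2.WCap1R
import Pool.Agent.Work.MP_b30479_gt.G2.WChP

/-!
# The location of a maximiser on the main paths, all rounds
-/

namespace Pool.Agent.Work.MP_b30479_gt.G2

open Finset VOL Filter Topology

namespace SR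

open ML

variable {M : ℕ} {b : Fin (M + 1) → ℤ} {zs : DD (tyW b) ⊕ ZZ (tyW b) → ℂ}
variable {y : DD (tyW b) ⊕ ZZ (tyW b) → ℝ}
variable {h h' : Fin M} {i j j' k : Fin (M + 1)} {p : Fin 3}

theorem C0_three (B : Cl) (hB : B ≠ .one) : C0 0 .three B ≤ 1 / 2 := by
  cases B <;> first | exact absurd rfl hB | (simp only [C0]; (try split_ifs) <;> norm_num)

theorem C1x_three (B : Cl) : C1x 0 .three B ≤ 47 / 100 := by
  cases B <;> simp only [C1x] <;> (try split_ifs) <;> norm_num

theorem C1x_ring (p : Fin 3) (B : Cl) : C1x p .ring B ≤ 36 / 100 := by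
  cases B <;> simp only [C1x] <;> norm_num

theorem C3_half (p : Fin 3) (A B : Cl) (hAB : A ≠ .one ∨ B ≠ .one) : C3 p A B < 1 / 2 := by
  cases A <;> cases B <;> first
    | exact absurd rfl (hAB.resolve_left (fun h => h rfl))
    | (simp only [C3]; (try split_ifs) <;> norm_num)

/-- the windows of the hinge at the slot `0` of an interior region with three crossings -/
theorem v3_of (hf : Flat b y) (hC : Cap b y C3) (hY : CapY b y) (A : Adj h i 0 j)
    (A' : Adj h' i 2 k) (hi : clsW b i = .three) :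
    y (.inl (.inl h)) ∈ Set.Icc (((M3.prm (clsW b j) (clsW b k)).vl : ℝ) / 10000)
      (((M3.prm (clsW b j) (clsW b k)).vh : ℝ) / 10000) := by
  obtain ⟨fa, fb⟩ := hf h
  obtain ⟨x1, x2, x3⟩ := A.par_three0 hi
  have c := hC A
  rw [hi] at c
  rw [x2] at fa
  have hE := fun h1 h2 => hY.c132e A A' hi h1 h2
  constructor
  · refine le_trans ?_ fa
    cases clsW b j <;> cases clsW b k <;> norm_num [VL.pL, M3.prm, M3.p11, M3.p1E, M3.p1N, M3.p1Z,
      M3.pE1, M3.pEE, M3.pEN, M3.pEZ, M3.pN1, M3.pNE, M3.pNN, M3.pNZ, M3.pD1, M3.pDE, M3.pDN,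
      M3.pDZ]
  · revert c hE
    generalize clsW b j = J
    generalize clsW b k = K
    intro c hE
    cases J
    · by_cases hK : K = .twoE
      · subst hK
        refine (hE rfl rfl).trans ?_
        norm_num [M3.prm, M3.p1E]
      · refine c.trans ?_
        cases K <;> first
          | exact absurd rfl hK
          | (simp only [C3, show ¬ (0 : Fin 3) = 2 by decide, if_false]
             norm_num [M3.prm, M3.p11, M3.p1N, M3.p1Z])
    all_goals
      refine c.trans ?_
      simp only [C3, show ¬ (0 : Fin 3) = 2 by decide, if_false]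
      cases K <;> norm_num [M3.prm, M3.pE1, M3.pEE, M3.pEN, M3.pEZ, M3.pN1, M3.pNE, M3.pNN, M3.pNZ,
        M3.pD1, M3.pDE, M3.pDN, M3.pDZ]

/-- the windows of the hinge at the slot `2` of an interior region with three crossings -/
theorem u3_of (hf : Flat b y) (hC : Cap b y C3) (A' : Adj h' i 2 k) (hi : clsW b i = .three)
    (J : Cl) :
    y (.inl (.inl h')) ∈ Set.Icc (((M3.prm J (clsW b k)).ul : ℝ) / 10000)
      (((M3.prm J (clsW b k)).uh : ℝ) / 10000) := by
  obtain ⟨fa, fb⟩ := hf h'
  obtain ⟨x1, x2, x3⟩ := A'.par_three2 hi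
  have c := hC A'
  rw [hi] at c
  rw [x2] at fa
  constructor
  · refine le_trans ?_ fa
    cases J <;> cases clsW b k <;> norm_num [VL.pR, M3.prm, M3.p11, M3.p1E, M3.p1N, M3.p1Z,
      M3.pE1, M3.pEE, M3.pEN, M3.pEZ, M3.pN1, M3.pNE, M3.pNN, M3.pNZ, M3.pD1, M3.pDE, M3.pDN,
      M3.pDZ]
  · refine c.trans ?_
    cases J <;> cases clsW b k <;> simp only [C3, if_true] <;> norm_num [M3.prm, M3.p11, M3.p1E,
      M3.p1N, M3.p1Z, M3.pE1, M3.pEE, M3.pEN, M3.pEZ, M3.pN1, M3.pNE, M3.pNN, M3.pNZ, M3.pD1,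
      M3.pDE, M3.pDN, M3.pDZ]

/-- **The location of a maximiser on the main paths.** -/
theorem pushIn_of (hb : ClassW b) (H : LocA b zs) (hy : Mx b zs y)
    (hpos : ∀ h : Fin M, 0 < y (.inl (.inl h))) (O : ROpen b zs y) : PushIn b zs y := by
  -- the slots `2` of the interior regions with three crossings
  have hw : Cap3 b y := cap3_of hb H hy hpos O.c33
    (fun A hi hk => (O.c3E A hi hk).trans (by norm_num [VL.cpR]))
    (fun A hi hk => (O.c3Z A hi hk).trans (by norm_num [VL.cpR]))
  have f0 : Flr b y F0 := left_0 hb H hy hpos (threeSd_0 hb H hy hpos hw)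
  have c0 : Cap b y C0 := caps_0 hb H hy hpos O f0 hw
  have hS : Sum1 b y (95 / 100) := sum_S hb H hy hpos f0 c0
  have f1 : Flr b y F1 := by
    refine left_1 hb H hy hpos f0 (fun A => (c0 A).trans (C0_C1 _ _ _)) ?_
    refine threeSd_1 hb H hy hpos hw f0 fun A hc h1 => ?_
    have := c0 A
    rw [hc] at this
    exact this.trans (C0_three _ h1)
  have h1Z : ∀ {h : Fin M} {i j : Fin (M + 1)} {p : Fin 3}, Adj h i p j → clsW b i = .one →
      clsW b j = .ring → y (.inl (.inl h)) ≤ 36 / 100 := by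
    intro h i j p A hi hj
    refine cap_1Z hb H hy hpos f1 ?_ ?_ ?_ ?_ hS A hi hj
    · intro h i j p A hi
      have := c0 A
      rw [hi] at this
      refine this.trans ?_
      cases clsW b j <;> simp only [C0] <;> (try split_ifs) <;> norm_num
    · intro h i j p A hi hj
      have := c0 A
      rwa [hi, hj] at this
    · intro h i j p A hi
      have := c0 A
      rw [hi] at this
      refine this.trans ?_
      cases clsW b j <;> simp only [C0] <;> (try split_ifs) <;> norm_num
    · intro h i j p A hi hj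
      have := c0 A
      rw [hi] at this
      refine this.trans ?_
      rcases hj' : clsW b j with _ | _ | _ | _ | _ | _ <;>
        first | exact absurd hj' hj | (simp only [C0]; (try split_ifs) <;> norm_num)
  obtain ⟨c1, hX⟩ := caps_1 hb H hy hpos O f1 c0 hS h1Z
  have f2 : Flr b y F2 := by
    refine left_2 hb H hy hpos f1 (fun A => (c1 A).trans (C1x_C2 _ _ _)) ?_ ?_
    · intro h i j p A hi
      have := c1 A
      rw [hi] at this
      exact this.trans (C1x_ring _ _)
    · refine threeSd_2 hb H hy hpos hw f1 fun A hc => ?_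
      have := c1 A
      rw [hc] at this
      exact this.trans (C1x_three _)
  have h16 : ∀ {h : Fin M} {i j : Fin (M + 1)} {p : Fin 3}, Adj h i p j → clsW b i = .one →
      clsW b j = .ring → 160 / 1000 ≤ y (.inl (.inl h)) := fun A hi hj =>
    left_3 hb H hy hpos f2 (fun A => (c1 A).trans (C1x_C2 _ _ _))
      (fun A hc hj h1 h2 => A.ring_L3_one hb H.L H.X H.R hy hc hj h1 (by linarith)
        (fun B => by
          have := c1 B
          rw [hc] at this
          exact this.trans (C1x_ring _ _))) A hi hj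
  obtain ⟨c3, hY⟩ := caps_3 hb H hy hpos O f2 c1 hX hS
    (fun A hi hj => le_trans (by norm_num) (h16 A hi hj))
  have hf : Flat b y := fun h => ⟨flat_left f2 h16 h, flat_right hb c3 hY h⟩
  have hsum : Sum1 b y (90 / 100) := by
    refine flat_sum1 hb H.L H.X H.P hy hf c3 ?_ ?_ ?_ hS
    · intro p
      simp only [C3]
      norm_num
    · intro p
      simp only [C3]
      norm_num
    · intro p
      simp only [C3]
      split_ifs <;> norm_num
  refine ⟨hf, ?_, ?_, hsum, ?_, ?_, ?_⟩
  · intro h i j p A hi hj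
    have := c3 A
    rwa [hi, hj] at this
  · intro h i j p A hij
    exact (c3 A).trans_lt (C3_half _ _ _ hij)
  · intro h h' i j k A A' hi
    exact v3_of hf c3 hY A A' hi
  · intro h h' i j k A A' hi
    exact u3_of hf c3 A' hi _
  · intro i hc
    obtain ⟨g, g', l, l', B, B', -⟩ : ∃ (g g' : Fin M) (l l' : Fin (M + 1)), Adj g i 0 l ∧
        Adj g' i 2 l' ∧ True := by
      have he := clsW_inner hb (Or.inr (Or.inr hc))
      have hne : i ≠ 0 ∧ i ≠ Fin.last M := by
        unfold isEnd at he
        simpa using he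
      obtain ⟨m, rfl⟩ : ∃ m : Fin M, i = m.castSucc := ⟨i.castPred hne.2, by simp⟩
      obtain ⟨g, g', l, l', B, B', -⟩ := (Adj.l (h := m)).both b he
      exact ⟨g, g', l, l', B, B', trivial⟩
    have hv := v3_of hf c3 hY B B' hc
    have hu := u3_of hf c3 B' hc (clsW b l)
    refine ⟨?_, mid_lt hb H.L H.X hy hpos hf B B' hc hu hv⟩
    refine mid_gt hb H.L H.X hy B B' hc ?_ (hw B' hc)
    have c := c3 B
    rw [hc] at c
    refine c.trans ?_
    cases clsW b l <;> simp only [C3, VL.cpL] <;> (try split_ifs) <;> norm_num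

end SR

end Pool.Agent.Work.MP_b30479_gt.G2
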