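import Pool.Agent.Work.MP_b30479_gt.G2.WRng0
import Pool.Agent.Work.MP_b30479_gt.G2.R32
import Pool.Agent.Work.MP_b30479_gt.G2.RngPsR
import Pool.Agent.Work.MP_b30479_gt.G2.WValH

/-!
# The exceptional hinges between a digit `3` and a ring: cap `1/2`, no information on the ring
-/

namespace Pool.Agent.Work.MP_b30479_gt.G2

open Finset VOL Filter Topology

namespace SR

variable {M : ℕ} {b : Fin (M + 1) → ℤ} {zs : DD (tyW b) ⊕ ZZ (tyW b) → ℂ}
variable {y : DD (tyW b) ⊕ ZZ (tyW b) → ℝ}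
variable {h h' : Fin M} {i j j' : Fin (M + 1)} {p : Fin 3}

/-- **Side of the ring**, tiny height `T ≥ 0` in the frame of the ring -/
theorem Adj.exc_side (A : Adj h i p j) (hb : ClassW b) (hL : Loc b zs) (hy : Mx b zs y)
    (hc : clsW b i = .ring) (hj : clsW b j = .three) (hT0 : 0 ≤ ofs (b i) (zs (.inl (.inl h))).im)
    (hT1 : ofs (b i) (zs (.inl (.inl h))).im ≤ 7 / 10000) (hx : 3 / 10 < y (.inl (.inl h))) :
    Sw b zs y i p (slL b zs y h) ≤ 9 / 1000 := by
  have hpi := Real.pi_pos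
  have hpi4 := Real.pi_lt_d4
  obtain ⟨v, hv, c1, r1, -⟩ := A.ring hb hL hy hc
  obtain ⟨e1, e2, e3, e4⟩ := A.par_ring_lo hc (by rw [hj]; decide) (by rw [hj]; decide)
  have hrh := A.rh hy
  have hM := hrh.reM
  rw [e1] at hM
  have hz : Zw b zs y i = LT.zt (zs (.inr v)).im (ofs (b i) (y (.inr v))) := by
    subst hv
    exact Zw_eq v
  rw [A.side_ring hb hc, hz, ofs_slL_ramp _ (by rw [e1]; linarith only [hx, e3])]
  have h1 : (Yw b zs y i p).im ≤ 1 / 1000 := by
    have := hrh.im_le hT0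
    linarith only [hT1, this]
  have h0 : 0 ≤ (Yw b zs y i p).im := by
    rw [hrh.im]
    exact mul_nonneg hT0 (tr_mem _ _ _ _).1
  have c0 : 0 < wcr b h := by linarith only [e3]
  have hd0 : 0 ≤ ofs (b i) (zs (.inl (.inl h))).im / wcr b h := div_nonneg hT0 c0.le
  have hd : ofs (b i) (zs (.inl (.inl h))).im / wcr b h ≤ 7 / 3000 := by
    rw [div_le_iff₀ c0]
    linarith only [hT1, e3]
  have key := S4_ps_right (m := -(ofs (b i) (zs (.inl (.inl h))).im / wcr b h)) r1.ρ0 c1 r1.mem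
    (by rw [A.re]; exact hx.le) (by linarith only [hM]) h0 h1 (by linarith only [hd0])
  refine key.trans ?_
  rw [neg_neg]
  calc _ ≤ 7 / 3000 * (122 / 100 * Real.pi) := mul_le_mul_of_nonneg_right hd (by positivity)
    _ ≤ _ := by linarith only [hpi4]

/-- **Value of the ring**: the loss of a move of the hinge to `28/100` -/
theorem Adj.exc_dV (A : Adj h i p j) (hb : ClassW b) (hL : Loc b zs) (hy : Mx b zs y)
    (hc : clsW b i = .ring) (hj : clsW b j = .three) (hT0 : 0 ≤ ofs (b i) (zs (.inl (.inl h))).im)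
    (hT1 : ofs (b i) (zs (.inl (.inl h))).im ≤ 7 / 10000) (hx : 28 / 100 ≤ y (.inl (.inl h))) :
    -(28 / 10000) ≤ dV b i p (OY b zs y i) (pw b zs (b i) h (28 / 100)) := by
  obtain ⟨v, -, c1, r1, z1⟩ := A.ring hb hL hy hc
  obtain ⟨e1, ⟨e2, e2'⟩, e3, e4⟩ := A.par_ring_lo hc (by rw [hj]; decide) (by rw [hj]; decide)
  have hrh := A.rh hy
  have hM := hrh.reM
  rw [e1] at hM
  have h0 : 0 ≤ (Yw b zs y i p).im := by
    rw [hrh.im]
    exact mul_nonneg hT0 (tr_mem _ _ _ _).1
  have h1 := hrh.im_le hT0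
  have hcr : wcr b h = 30 / 100 := by
    rw [A.cr_eq b, hc, hj]
    unfold hpp
    split_ifs <;> simp [hp]
  have hE : EndOk i (OY b zs y i) := Ow_endOk _ i
  rw [dV_ring hb A hc hE, z1, OY_hinge y A,
    pw_flat (b i) h (by linarith only [e2']) (by rw [e1, hcr]; norm_num)]
  have f1 : Yw b zs y i p = pw b zs (b i) h (y (.inl (.inl h))) := A.Yw_eq
  rw [← f1]
  have g : (((28 / 100 : ℝ) : ℂ) + ((ofs (b i) (zs (.inl (.inl h))).im : ℝ) : ℂ) * Complex.I) =
      ⟨28 / 100, ofs (b i) (zs (.inl (.inl h))).im⟩ := by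
    apply Complex.ext <;> simp
  rw [g]
  have key := fR_ps_loss (T := ofs (b i) (zs (.inl (.inl h))).im) r1.ρ0 c1.1 r1.mem
    (by rw [A.re]; exact hx) (by linarith only [hM]) h0 h1 (by linarith only [hT1])
  unfold fR at key
  linarith only [hT1, key]

/-- slot `2` of the digit `3` -/
theorem Adj.exc_cap_two (A : Adj h i 2 j) (hb : ClassW b) (hL : Loc b zs) (hX : LocX b zs)
    (hy : Mx b zs y) (hi : clsW b i = .three) (hj : clsW b j = .ring)
    (hT : ofs (b i) (zs (.inl (.inl h))).im ≤ 0)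
    (hT1 : -(7 / 10000) ≤ ofs (b i) (zs (.inl (.inl h))).im) : y (.inl (.inl h)) ≤ 30 / 100 := by
  by_contra hcon
  push Not at hcon
  have hop := A.opp hb (Or.inl (by rw [hi]; decide))
  have eo := ofs_opp hop (zs (.inl (.inl h))).im
  have s1 := A.own_three_ring_neg hb hL hX hy hi hj hcon hT
  have A' : Adj h j 0 i := A.symm
  have s2 := A'.exc_side hb hL hy hj hi (by linarith only [hT, eo]) (by linarith only [hT1, eo]) (by linarith only [hcon])
  exact rstep_false hb hy (by linarith only [hcon]) (RStep.of_adj A (c := 0) (e1 := Sw b zs y i 2 (slL b zs y h))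
    (e2 := 9 / 1000) (fun _ => rfl) (by linarith only [s1]) (by linarith only []) (by
      show Sw b zs y j 0 (slL b zs y h) + 0 * ofs (b j) (slL b zs y h) ≤ _
      linarith only [s2]))

end SR

end Pool.Agent.Work.MP_b30479_gt.G2
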