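import Pool.Agent.Work.MP_b30479_gt.G2.WS0K

/-!
# First-order conditions of the inner variables at a maximiser, hinges may vanish
-/

namespace Pool.Agent.Work.MP_b30479_gt.G2

open Finset VOL Filter Topology

section
variable {M : ℕ} {t : Fin (M + 1) → Typ} {b : Fin (M + 1) → ℤ}
variable {P : Par (DD t)} {zs : DD t ⊕ ZZ t → ℂ} {y : DD t ⊕ ZZ t → ℝ}

theorem pp_zero_hinge (P : Par (DD t)) (zs : DD t ⊕ ZZ t → ℂ) (h : DD t)
    (hg : P.Good) : P.pp zs (.inl h) 0 = 0 := by
  have h1 : P.hgt zs (.inl h) 0 = 0 := by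
    show (zs (.inl h)).im * tr 0 (P.XM h) (P.cl h) (P.cr h) 0 = 0
    have h2 := (hg h).1
    have h3 := (hg h).2.1
    have h4 := (hg h).2.2
    have : tr 0 (P.XM h) (P.cl h) (P.cr h) 0 = 0 := by
      rw [tr_a h2 h3 h4 le_rfl h2.le]
      simp
    rw [this, mul_zero]
  unfold Par.pp
  rw [h1]
  simp

/-- in a hinge slot the variable vanishes or the factors are regular -/
theorem IsMx.slots_or (h : IsMx (wdat t b) P zs y) (hS : Std t P) (i : Fin (M + 1)) :
    (xx t i (P.pth zs y) 0 = 0 ∨ rfac t i 0 (xx t i (P.pth zs y)) SinNe) ∧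
    (xx t i (P.pth zs y) 2 = 0 ∨ rfac t i 2 (xx t i (P.pth zs y)) SinNe) := by
  have hge : ∀ k : Fin M, 0 ≤ y (.inl (.inl k)) := fun k => h.1.1 (.inl (.inl k))
  constructor
  · rcases Fin.eq_zero_or_eq_succ i with h0 | ⟨k, rfl⟩
    · left
      subst h0
      exact xx_left_zero _ _
    · rcases (hge k).eq_or_lt with h1 | h1
      · left
        rw [loc_left, ← h1]
        exact pp_zero_hinge P zs _ hS.good
      · right
        exact h.rfac_right hS k h1
  · rcases Fin.eq_castSucc_or_eq_last i with ⟨k, rfl⟩ | h0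
    · rcases (hge k).eq_or_lt with h1 | h1
      · left
        rw [loc_right, ← h1]
        exact pp_zero_hinge P zs _ hS.good
      · right
        exact h.rfac_left hS k h1
    · left
      subst h0
      exact xx_right_last _ _

theorem IsMx.facCo_midZ (h : IsMx (wdat t b) P zs y) (hS : Std t P)
    (m : {i : Fin (M + 1) // (t i).isMid = true})
    (hm : 0 < y (.inl (.inr m))) : FacCo (t m.1) (decide (m.1 ≠ 0)) (decide (m.1 ≠ Fin.last M)) 1
      (xx t m.1 (P.pth zs y)) Reg1 := by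
  obtain ⟨h0, h2, -, -⟩ := h.loc hS m.1
  obtain ⟨s0, s2⟩ := h.slots_or hS m.1
  refine G2.facCo_mid m.2 (hS.std _) ?_ h0 h2 s0 s2
  rw [loc_mid m.2]
  constructor
  · rw [P.pp_re]; exact hm
  · rw [P.pp_re]; exact h.lt_one hS _

theorem IsMx.foc_mid_leftZ (h : IsMx (wdat t b) P zs y) (hS : Std t P)
    (m : {i : Fin (M + 1) // (t i).isMid = true}) (hm : 0 < y (.inl (.inr m))) :
    0 ≤ rside t b m.1 1 (P.sL zs (.inl (.inr m)) (y (.inl (.inr m)))) (xx t m.1 (P.pth zs y)) := by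
  have h1 := co_mid t b (h.facCo_midZ hS m hm)
  rw [← rside_of_mid]
  exact (h.left_gen hS.good (j := .inl (.inr m)) hm (fun q hq => (h1 q hq).1)
    (fun q hq hs => absurd hs (h1 q hq).2)).2

theorem IsMx.foc_mid_rightZ (h : IsMx (wdat t b) P zs y) (hS : Std t P)
    (m : {i : Fin (M + 1) // (t i).isMid = true})
    (hm : 0 < y (.inl (.inr m))) (hx : y (.inl (.inr m)) < P.XM (.inr m)) :
    rside t b m.1 1 (P.sR zs (.inl (.inr m)) (y (.inl (.inr m)))) (xx t m.1 (P.pth zs y)) ≤ 0 := by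
  have h1 := co_mid t b (h.facCo_midZ hS m hm)
  rw [← rside_of_mid]
  exact (h.right_gen hS.good (j := .inl (.inr m)) hx (fun q hq => (h1 q hq).1)
    (fun q hq hs => absurd hs (h1 q hq).2)).2

end

namespace SR

variable {M : ℕ} {b : Fin (M + 1) → ℤ} {zs : DD (tyW b) ⊕ ZZ (tyW b) → ℂ}
variable {y : DD (tyW b) ⊕ ZZ (tyW b) → ℝ}
variable {h h' : Fin M} {i j k : Fin (M + 1)}

/-- first-order conditions of the inner variable in the own frame -/
theorem mid_fcZ (hb : ClassW b) (hy : IsMx (wdat (tyW b) b) (wpar b zs) zs y)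
    (m : {i : Fin (M + 1) // (tyW b i).isMid = true}) (hm : 0 < y (.inl (.inr m))) :
    FOC (Yw b zs y m.1 1) (ofs (b m.1) (zs (.inl (.inr m))).im) ((wpar b zs).XM (.inr m))
      ((wpar b zs).cl (.inr m)) ((wpar b zs).cr (.inr m)) (OM b zs y m.1) := by
  have hS := std_wpar b zs
  have hg := wpar_good b zs
  have hre : (Yw b zs y m.1 1).re = y (.inl (.inr m)) := by
    rw [Yw_mid, ofr_pp_re]
  have hR := fun hx => hy.foc_mid_rightZ hS m hm hx
  have hL := hy.foc_mid_leftZ hS m hm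
  have key : ∀ q : ℝ, rside (tyW b) b m.1 1 q (xx (tyW b) m.1 ((wpar b zs).pth zs y)) =
      OM b zs y m.1 (ofs (b m.1) q) := fun q =>
    side_mid_own (hb.ne _) m.2 (tyW_std b _) _ _ q _
  rw [key] at hL
  simp only [key] at hR
  obtain ⟨hc, hc', hs⟩ := hg (.inr m)
  rw [← hre] at hR hL hm
  refine ⟨?_, ?_, ?_, ?_, ?_, ?_⟩
  · intro h1
    have := hR (by linarith only [hc', hs, h1])
    rwa [sR_left zs _ h1, ofs_div] at this
  · intro h1
    rwa [sL_left zs _ h1, ofs_div] at hL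
  · intro h0 h1
    have := hR (by linarith only [hc', h1])
    rwa [sR_flat zs _ h0 h1, ofs_zero'] at this
  · intro h0 h1
    rwa [sL_flat zs _ h0 h1, ofs_zero'] at hL
  · intro h0 h1
    have := hR h1
    rwa [sR_right hg zs _ h0, ofs_neg', ofs_div] at this
  · intro h0
    rwa [sL_right hg zs _ h0, ofs_neg', ofs_div] at hL

theorem reg_threeZ (hc : clsW b i = .three)
    (hy : IsMx (wdat (tyW b) b) (wpar b zs) zs y) (hm : 0 < y (.inl (.inr (mI b hc)))) :
    SinNe (Yw b zs y i 1 + Yw b zs y i 2) ∧ SinNe (Yw b zs y i 1 - Yw b zs y i 0) := by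
  have h1 := hy.facCo_midZ (std_wpar b zs) (mI b hc) hm
  have ht := tyW_of_three hc
  simp only [mI] at h1
  rw [ht] at h1
  have h2 := h1 ⟨![0, 1, 1], 0, 1 / 2⟩ (by
    generalize decide (i ≠ 0) = l
    generalize decide (i ≠ Fin.last M) = r
    cases l <;> cases r <;> simp [facs, hR]) (by simp)
  have h3 := h1 ⟨![1, -1, 0], 1, -(1 / 2)⟩ (by
    generalize decide (i ≠ 0) = l
    generalize decide (i ≠ Fin.last M) = r
    cases l <;> cases r <;> simp [facs, hR]) (by simp)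
  have v2 : ∀ w u : ℂ, 1 + (w + -u) = 1 - (u - w) := fun w u => by ring
  simp [Fac.form_mk] at h2 h3
  rw [v2] at h3
  have h4 := h2.2
  have h5 := sinNe_one_sub.1 h3.2
  unfold Yw
  rw [← ofr_add, ← ofr_sub]
  exact ⟨sinNe_ofr _ h4, sinNe_ofr _ h5⟩

theorem s0r_midZ (hb : ClassW b) (hy : Mx b zs y)
    (hi : clsW b i = .three) (hv0 : 0 < (OY b zs y i 1).re) :
    (5 / 100 < (OY b zs y i 1).re → (OY b zs y i 1).re ≤ 75 / 100 →
      0 ≤ SM 0 (Yw b zs y i 0) (OY b zs y i 1) (Yw b zs y i 2)) ∧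
    (75 / 100 < (OY b zs y i 1).re →
      0 ≤ SM (-20 * tW zs (Or.inl hi)) (Yw b zs y i 0) (OY b zs y i 1) (Yw b zs y i 2)) ∧
    SinNe (OY b zs y i 1 + Yw b zs y i 2) ∧ SinNe (OY b zs y i 1 - Yw b zs y i 0) := by
  have hm : 0 < y (.inl (.inr (mI b hi))) := by
    have e : (Yw b zs y i 1).re = y (.inl (.inr (mI b hi))) := by
      rw [show Yw b zs y i 1 = Yw b zs y (mI b hi).1 1 from rfl, Yw_mid, ofr_pp_re]
    rw [OY_mid (Or.inl hi), e] at hv0
    exact hv0
  have hf := mid_fcZ hb hy (mI b hi) hm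
  obtain ⟨e1, e2, e3⟩ := pp_mI (b := b) (zs := zs) hi
  rw [e1, e2, e3] at hf
  obtain ⟨r1, r2⟩ := reg_threeZ hi hy hm
  rw [OY_mid (Or.inl hi)]
  refine ⟨fun h1 h2 => ?_, fun h1 => ?_, r1, r2⟩
  · have := hf.flat' (by exact h1) (by refine le_trans h2 ?_; norm_num)
    rw [show OM b zs y (mI b hi).1 0 = OM b zs y i 0 from rfl, OM_three hi] at this
    exact this
  · have := hf.right' (by refine lt_of_le_of_lt ?_ h1; norm_num)
    rw [show OM b zs y (mI b hi).1 = OM b zs y i from rfl, OM_three hi] at this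
    rw [show -20 * tW zs (Or.inl hi) = -(ofs (b (mI b hi).1) (zs (.inl (.inr (mI b hi)))).im /
      (5 / 100)) by
        rw [show tW zs (Or.inl hi) = ofs (b (mI b hi).1) (zs (.inl (.inr (mI b hi)))).im from rfl]
        ring]
    exact this

/-- **The side of the `3` in the exceptional case**, `x` in `(.50, .60]` -/
theorem exc_s0_sideZ (hb : ClassW b) (hL : Loc b zs) (hX : LocX b zs) (hy : Mx b zs y)
    (A : Adj h i 0 j) (A' : Adj h' i 2 k) (hi : clsW b i = .three) (hj : clsW b j = .ring)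
    (hk : clsW b k = .one) (hc : y (.inl (.inl h')) ≤ 39 / 100)
    (hT : -(7 / 10000) ≤ ofs (b i) (zs (.inl (.inl h))).im)
    (hT' : ofs (b i) (zs (.inl (.inl h))).im ≤ 0)
    (hdV : -(28 / 10000) ≤ dV b j 2 (OY b zs y j) (pw b zs (b j) h (28 / 100)))
    (hx : 1 / 2 ≤ y (.inl (.inl h))) :
    Sw b zs y i 0 (slL b zs y h) < -(9 / 1000) := by
  have hlow := exc_s0_low hb hL hX hy A A' hi hj hk hc hT hT' hdV (by linarith only [hx])
  obtain ⟨q1, q2, q3⟩ := A.s0r_parZ hi hj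
  have hre := A.re (b := b) (zs := zs) (y := y)
  obtain ⟨hK, hs⟩ := exc_KEx hb hL hX hy A A' hi hj hk hc hT
  have hv := rh_three hy hi
  obtain ⟨hu, hsl⟩ := A.s0r_ramp hy q1 q2 q3 (by linarith only [hx] : 30 / 100 < y (.inl (.inl h)))
  have hx6 : y (.inl (.inl h)) ≤ 60 / 100 := by
    have := (A.rh hy).reM
    rw [hre, q1] at this
    exact this
  obtain ⟨m1, m2, r1, r2⟩ := s0r_midZ hb hy hi (by linarith only [hx, hlow])
  have hnr : ¬ 75 / 100 < (OY b zs y i 1).re := by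
    intro h1
    refine S0R.x_ramp (s := 8 / 10 - (OY b zs y i 1).re) (by rw [hre]; exact hx)
      (by rw [hre]; exact hx6) ?_ ?_ hK (by ring) ?_ (by linarith only [hi, hv, hv.reM]) (by linarith only [h1]) (m2 h1)
      r1
    · rw [hu, hre]
      nlinarith only [hx, hT, hx6]
    · rw [hu, hre]
      nlinarith only [hT', hx6]
    · rw [V2A.mid_right hv h1.le]
      ring
  push Not at hnr
  have hfl := V2A.mid_flat hv (by linarith only [hx, hlow]) hnr
  have hS := m1 (by linarith only [hx, hlow]) hnr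
  rw [A.side_three_zero hb hi, ← OY_mid (Or.inl hi), hsl]
  exact S0R.x_side (by rw [hre]; exact hx) (by rw [hre]; exact hx6) hu hT hT' hs hK hfl
    (by rw [hre]; exact hlow.le) hnr hS r1 r2

end SR

end Pool.Agent.Work.MP_b30479_gt.G2
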