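import Pool.Agent.Work.MP_b30479_gt.G2.WExc
import Pool.Agent.Work.MP_b30479_gt.G2.WMidZ
import Pool.Agent.Work.MP_b30479_gt.G2.R31
import Pool.Agent.Work.MP_b30479_gt.G2.WLocY

/-!
# The exceptional hinges between a digit `3` and a ring, slot `0` of the digit: cap `1/2`
-/

namespace Pool.Agent.Work.MP_b30479_gt.G2

open Finset VOL Filter Topology

namespace SR

variable {M : ℕ} {b : Fin (M + 1) → ℤ} {zs : DD (tyW b) ⊕ ZZ (tyW b) → ℂ}
variable {y : DD (tyW b) ⊕ ZZ (tyW b) → ℝ}
variable {h h' : Fin M} {i j j' : Fin (M + 1)} {p : Fin 3}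

/-- slot `0` of the digit `3` -/
theorem Adj.exc_cap_zero (A : Adj h i 0 j) (hb : ClassW b) (hL : Loc b zs) (hX : LocX b zs)
    (hy : Mx b zs y) (hi : clsW b i = .three) (hj : clsW b j = .ring) (E : Exc3 b zs h i j 0)
    (hT : ofs (b i) (zs (.inl (.inl h))).im ≤ 0) : y (.inl (.inl h)) ≤ 1 / 2 := by
  by_contra hcon
  push Not at hcon
  obtain ⟨h', k, A'⟩ := A.other' b (clsW_inner hb (Or.inr (Or.inr hi)))
  have e2 : (0 : Fin 3).rev = 2 := rfl
  rw [e2] at A'
  have hk : clsW b k = .one := E.one (by rw [e2]; exact A')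
  have hop := A.opp hb (Or.inl (by rw [hi]; decide))
  have eo : ofs (b j) (zs (.inl (.inl h))).im = -ofs (b i) (zs (.inl (.inl h))).im := ofs_opp hop _
  have hc : y (.inl (.inl h')) ≤ 39 / 100 := by
    have h0 : 0 ≤ y (.inl (.inl h')) := hy.1.1 (.inl (.inl h'))
    rcases h0.eq_or_lt with h1 | h1
    · rw [← h1]
      norm_num
    · obtain ⟨g, l, B⟩ := A'.symm.other_one hb hk
      refine (cap_three_one A' B hb hL hX hy h1 hi hk).trans ?_
      cases clsW b l <;> norm_num [cap31]
  have B : Adj h j 2 i := A.symm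
  have hT1 := E.lo
  have s1 := exc_s0_sideZ hb hL hX hy A A' hi hj hk hc hT1 hT
    (B.exc_dV hb hL hy hj hi (by linarith only [hT, eo]) (by linarith only [eo, hT1]) (by linarith only [hcon])) hcon.le
  have s2 := B.exc_side hb hL hy hj hi (by linarith only [hT, eo]) (by linarith only [eo, hT1]) (by linarith only [hcon])
  exact rstep_false hb hy (by linarith only [hcon]) (RStep.of_adj A (c := 0) (fun _ => rfl)
    (e1 := Sw b zs y i 0 (slL b zs y h)) (e2 := Sw b zs y j 2 (slL b zs y h))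
    (by linarith only [s1, s2]) (by linarith only []) (by
      show Sw b zs y j 2 (slL b zs y h) + 0 * ofs (b j) (slL b zs y h) ≤ _
      linarith only []))

end SR

end Pool.Agent.Work.MP_b30479_gt.G2
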