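import Pool.Agent.Work.MP_b30479_gt.G2.WLocA
import Pool.Agent.Work.MP_b30479_gt.G2.WMainQ
import Pool.Agent.Work.MP_b30479_gt.G2.CN.LocB
import Pool.Agent.Work.MP_b30479_gt.G2.CN.LocRo
import Pool.Agent.Work.MP_b30479_gt.G2.CN.LocM3
import Pool.Agent.Work.MP_b30479_gt.G2.CN.LocM4
import Pool.Agent.Work.MP_b30479_gt.G2.CN.SWrd
import Pool.Agent.Work.MP_b30479_gt.G2.CN.PAsm

/-!
# The saddle point data of every word: assembly above the domination

The solution of the ring equations (`exists_sol`) and all location facts about it (`LocA`).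
-/

namespace Pool.Agent.Work.MP_b30479_gt.G2

namespace SR

open CN.LA CN.TD

/-- the rest of the domination: modes and tails (the field `rest` of `DomQ`) -/
def RestQ {M : ℕ} (b : Fin (M + 1) → ℤ) (zs : DD (tyW b) ⊕ ZZ (tyW b) → ℂ) : Prop :=
  ∃ (hu hd : DD (tyW b) → ℝ)
    (nb : Finset (DD (tyW b)) → Finset (DD (tyW b) ⊕ ZZ (tyW b))),
    (∀ i, 0 < hu i ∧ 0 < hd i) ∧ nb ∅ = ∅ ∧
    (∀ R : Finset (DD (tyW b)), ∀ i ∈ R, .inl i ∈ nb R) ∧ ModeOk0 b zs (wparQ b hu hd zs) ∧
    ((ModeOkR b zs (wparQ b hu hd zs) nb ∧ TailOkQ b zs (wparQ b hu hd zs) nb) ∨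
      TailOkM b zs (wparQ b hu hd zs) nb)

section
variable {M : ℕ} {b : Fin (M + 1) → ℤ} {w : ℕ → ℂ}

/-- **All location facts** about the solution of the ring equations. -/
theorem locA_of (hb : ClassW b) (hM : 1 ≤ M) (hw : Sol b w) (hC : Crit b (zsW b w)) :
    LocA b (zsW b w) := by
  have hK := CN.kok_kr3
  have hS := snd3 hb hw hM
  have Bx := boxRows hK (locZ hK) (CN.S6.locS hK) Kr3_le
  obtain ⟨hO, hL, hX⟩ := loc_kr3 (locZ hK) (CN.S6.locS hK) hb ringFacts hw hM
  have hE := loc3_of hb ringFacts hw hM hK hS Bx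
  exact
    { L := hL
      X := hX
      P := CN.PW.locP hb ringFacts hw hS hK
      R := locR_of hb ringFacts hw hM hK hS Bx
      G := locRg_of hb ringFacts hw hM hK hS Bx
      S := CN.S6.locS_word hb ringFacts hw hS hK
      C := hC
      T := locRt_of hb ringFacts hw hM hK hS Bx fun A h1 h2 => hX.three A h1 h2
      F := locR4_of hb ringFacts hw hM hK hS Bx
      E := hE
      D := locMd_of hb ringFacts hw hK hS Bx
      N := locM1_of hb ringFacts hw hK hS Bx
      O := locM2_of hb ringFacts hw hK hS Bx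
      Q := locM3_of hb ringFacts hw hK hS Bx
      U := locM4_of hb ringFacts hw hK hS Bx }

end

/-- **The saddle point data of a word** from the two parts of the domination. -/
theorem hsad_word {M : ℕ} {b : Fin (M + 2) → ℤ} (hb : ClassW (M := M + 1) b)
    (hmain : ∀ zs, LocA (M := M + 1) b zs → MainPartsS (M := M + 1) b zs)
    (hrest : ∀ zs, LocA (M := M + 1) b zs → RestQ (M := M + 1) b zs) : HSad b := by
  obtain ⟨w, hw⟩ := exists_sol (M := M + 1) hb ringFacts (by omega)
  obtain ⟨hO, hL, -⟩ := loc_kr3 (M := M + 1) (locZ CN.kok_kr3) (CN.S6.locS CN.kok_kr3) hb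
    ringFacts hw (by omega)
  refine hsad_of_domQ hb ringFacts hw hO hL fun hC => ?_
  have hA := locA_of hb (by omega) hw hC
  exact ⟨hmain _ hA, hrest _ hA⟩

/-- **The saddle point data of all words** from the two parts of the domination. -/
theorem hsad_all
    (hmain : ∀ {M : ℕ} {b : Fin (M + 1) → ℤ} {zs}, 1 ≤ M → ClassW b → LocA b zs →
      MainPartsS b zs)
    (hrest : ∀ {M : ℕ} {b : Fin (M + 1) → ℤ} {zs}, 1 ≤ M → ClassW b → LocA b zs → RestQ b zs)
    (K : ℕ) (b : Fin (K + 2) → ℤ) (hb : ClassW (M := K + 1) b) : HSad b :=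
  hsad_word hb (fun _ hA => hmain (by omega) hb hA) fun _ hA => hrest (by omega) hb hA

end SR

end Pool.Agent.Work.MP_b30479_gt.G2
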