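import Pool.Agent.Work.MP_b30479_gt.G2.RFf
import Pool.Agent.Work.MP_b30479_gt.G2.RFg

/-!
# The saddle point data of every word, main paths done

The location facts (`LocA`, `RFacts`) of the solution of the ring equations and the argument on the
main paths; what remains is the rest of the domination `RestQ` (modes and tails).
-/

namespace Pool.Agent.Work.MP_b30479_gt.G2

namespace SR

open CN.LA CN.TD

/-- **The saddle point data of a word** from the rest of the domination. -/
theorem hsad_word_rest {M : ℕ} {b : Fin (M + 2) → ℤ} (hb : ClassW (M := M + 1) b)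
    (hrest : ∀ zs, LocA (M := M + 1) b zs → RFacts (M := M + 1) b zs →
      RestQ (M := M + 1) b zs) : HSad b := by
  obtain ⟨w, hw⟩ := exists_sol (M := M + 1) hb ringFacts (by omega)
  obtain ⟨hO, hL, -⟩ := loc_kr3 (M := M + 1) (locZ CN.kok_kr3) (CN.S6.locS CN.kok_kr3) hb
    ringFacts hw (by omega)
  refine hsad_of_domQ hb ringFacts hw hO hL fun hC => ?_
  have hA := locA_of hb (by omega) hw hC
  have hR := rfacts_of hb (by omega) hw hC
  exact ⟨mainPartsS_all (by omega) hR hA, hrest _ hA hR⟩

/-- **The saddle point data of all words** from the rest of the domination. -/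
theorem hsad_all_rest
    (hrest : ∀ {M : ℕ} {b : Fin (M + 1) → ℤ} {zs}, 1 ≤ M → ClassW b → LocA b zs → RFacts b zs →
      RestQ b zs)
    (K : ℕ) (b : Fin (K + 2) → ℤ) (hb : ClassW (M := K + 1) b) : HSad b :=
  hsad_word_rest hb fun _ hA hR => hrest (by omega) hb hA hR

end SR

end Pool.Agent.Work.MP_b30479_gt.G2
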