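import Pool.Agent.Work.MP_b30479_gt.G2.CN.LocM6
import Pool.Agent.Work.MP_b30479_gt.G2.RFf
import Pool.Agent.Work.MP_b30479_gt.G2.RFg

/-!
# The saddle point data of every word, with the extra windows at the digits `3`

The facts `LocM5`, `LocM6` about the digits `3` next to a digit `1` are passed to the rest of the
domination besides `LocA`.
-/

namespace Pool.Agent.Work.MP_b30479_gt.G2

namespace SR

open CN.LA CN.TD

/-- **The saddle point data of a word** from the rest of the domination; `P` is any further fact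
about the solution of the ring equations. -/
theorem hsad_word_restP {M : ℕ} {b : Fin (M + 2) → ℤ} (hb : ClassW (M := M + 1) b)
    (P : (DD (tyW (M := M + 1) b) ⊕ ZZ (tyW (M := M + 1) b) → ℂ) → Prop)
    (hP : ∀ w, Sol (M := M + 1) b w → P (zsW (M := M + 1) b w))
    (hrest : ∀ zs, LocA (M := M + 1) b zs → RFacts (M := M + 1) b zs → P zs →
      RestQ (M := M + 1) b zs) : HSad b := by
  obtain ⟨w, hw⟩ := exists_sol (M := M + 1) hb ringFacts (by omega)
  obtain ⟨hO, hL, -⟩ := loc_kr3 (M := M + 1) (locZ CN.kok_kr3) (CN.S6.locS CN.kok_kr3) hb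
    ringFacts hw (by omega)
  refine hsad_of_domQ hb ringFacts hw hO hL fun hC => ?_
  have hA := locA_of hb (by omega) hw hC
  have hR := rfacts_of hb (by omega) hw hC
  exact ⟨mainPartsS_all (by omega) hR hA, hrest _ hA hR (hP w hw)⟩

section
variable {M : ℕ} {b : Fin (M + 1) → ℤ} {w : ℕ → ℂ}

/-- windows at the digits `3` next to a digit `1` -/
theorem locM5_sol (hb : ClassW b) (hM : 1 ≤ M) (hw : Sol b w) : LocM5 b (zsW b w) :=
  locM5_of hb ringFacts hw CN.kok_kr3 (snd3 hb hw hM)
    (boxRows CN.kok_kr3 (locZ CN.kok_kr3) (CN.S6.locS CN.kok_kr3) Kr3_le)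

/-- windows at the digits `3` next to a digit `1` -/
theorem locM6_sol (hb : ClassW b) (hM : 1 ≤ M) (hw : Sol b w) : LocM6 b (zsW b w) :=
  locM6_of hb ringFacts hw CN.kok_kr3 (snd3 hb hw hM)
    (boxRows CN.kok_kr3 (locZ CN.kok_kr3) (CN.S6.locS CN.kok_kr3) Kr3_le)

end

/-- **The saddle point data of all words** from the rest of the domination. -/
theorem hsad_all_rest'
    (hrest : ∀ {M : ℕ} {b : Fin (M + 1) → ℤ} {zs}, 1 ≤ M → ClassW b → LocA b zs → LocM5 b zs →
      LocM6 b zs → RestQ b zs)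
    (K : ℕ) (b : Fin (K + 2) → ℤ) (hb : ClassW (M := K + 1) b) : HSad b :=
  hsad_word_restP hb (fun zs => LocM5 (M := K + 1) b zs ∧ LocM6 (M := K + 1) b zs)
    (fun _ hw => ⟨locM5_sol hb (by omega) hw, locM6_sol hb (by omega) hw⟩)
    fun _ hA _ h => hrest (by omega) hb hA h.1 h.2

end SR

end Pool.Agent.Work.MP_b30479_gt.G2
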