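import Pool.Agent.Work.MP_b30479_gt.G2.GeoRun
import Pool.Agent.Work.MP_b30479_gt.G2.SWordD

/-!
# The types of a word of the class `ClassW`
-/

namespace Pool.Agent.Work.MP_b30479_gt.G2

namespace SR

theorem tyW_isOk {M : ℕ} {b : Fin (M + 1) → ℤ} (hb : ClassW b) (i : Fin (M + 1)) :
    (tyW b i).IsOk (b i) := by
  unfold tyW
  split_ifs with h1 h2 h3 h4
  · exact h1
  · exact h2
  · exact h3
  · exact h3
  · exact hb.ne i

theorem tyW_four {M : ℕ} {b : Fin (M + 1) → ℤ} (i : Fin (M + 1)) :
    tyW b i ≠ .fourL ∧ tyW b i ≠ .fourR := by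
  unfold tyW
  split_ifs <;> exact ⟨by decide, by decide⟩

theorem gtyp_tyW {M : ℕ} {b : Fin (M + 2) → ℤ} (hb : ClassW (M := M + 1) b) :
    GTyp b (tyW (M := M + 1) b) where
  ok := tyW_isOk (M := M + 1) hb
  four := tyW_four (M := M + 1)
  ring := by
    intro i
    have h0 := hb.ne i
    unfold tyW
    by_cases h1 : (b i).natAbs = 1
    · right
      rw [if_pos h1]
    · left
      omega
  first := by
    have h0 := hb.first
    unfold tyW
    rw [if_neg (by omega), if_pos (c := (0 : Fin (M + 2)) = 0) rfl]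
    split_ifs <;> exact ⟨by decide, by decide⟩
  last := by
    have h0 := hb.last
    unfold tyW
    rw [if_neg (by omega), if_neg (Fin.last_pos' (n := M + 1)).ne']
    split_ifs <;> exact ⟨by decide, by decide⟩

end SR

end Pool.Agent.Work.MP_b30479_gt.G2
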