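import Pool.Agent.Work.MP_b30479_gt.G2.WLoc
import Pool.Agent.Work.MP_b30479_gt.G2.MPFoc

/-!
# The saddle point is on the flat parts of the paths
-/

namespace Pool.Agent.Work.MP_b30479_gt.G2

namespace SR

/-- consistency of the two tables at the hinges -/
theorem hbox_flat (P A B Q : Cl) (s : Bool) :
    (hp P A B Q).cl < (hbox A B s).x0 ∧ (hbox A B s).x1 < (hp P A B Q).XM - (hp P A B Q).cr := by
  cases A <;> cases B <;> cases s <;> simp only [hp, hp1, hbox] <;> (try split_ifs) <;> norm_num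

theorem mbox_mp (A B : Cl) (hB : B ≠ .threeE) :
    (mp B).cl < (mbox A).x0 ∧ (mbox A).x1 < (mp B).XM - (mp B).cr := by
  cases B <;> first | exact absurd rfl hB | (cases A <;> norm_num [mbox, mp])

theorem mboxE_mp : (mp .threeE).cl < mboxE.x0 ∧ mboxE.x1 < (mp .threeE).XM - (mp .threeE).cr := by
  norm_num [mboxE, mp]

theorem zbox_flat (n : ℕ) (e : Bool) : -(1 / 4) < (zbox n e).x0 ∧ (zbox n e).x1 < 1 / 4 := by
  unfold zbox
  split_ifs <;> norm_num

variable {M : ℕ} {b : Fin (M + 1) → ℤ} {zs : DD (tyW b) ⊕ ZZ (tyW b) → ℂ}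

theorem tyW_mid {i : Fin (M + 1)} (h : (tyW b i).isMid = true) : (b i).natAbs = 3 := by
  unfold tyW at h
  split_ifs at h with h1 h2 h3 h4
  · simp [Typ.isMid] at h
  · simp [Typ.isMid] at h
  · exact h3
  · exact h3
  · simp [Typ.isMid] at h

theorem clsW_mid {i : Fin (M + 1)} (h : (tyW b i).isMid = true) :
    clsW b i = if isEnd i then .threeE else .three := by
  have h1 := tyW_mid h
  unfold clsW cls
  rw [if_neg (by omega), if_neg (by omega), if_pos h1]

theorem Loc.flatD (hL : Loc b zs) (i : DD (tyW b)) :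
    (wpar b zs).cl i < (zs (.inl i)).re ∧
      (zs (.inl i)).re < (wpar b zs).XM i - (wpar b zs).cr i := by
  rcases i with h | m
  · have h1 := hL.hinge h
    have h2 := hbox_flat (outL b h) (clsW b h.castSucc) (clsW b h.succ) (outR b h) (ssW b h)
    have h3 := h1.1
    have h4 := h1.2.1
    rw [ofr_re] at h3 h4
    exact ⟨h2.1.trans_le h3, h4.trans_lt h2.2⟩
  · by_cases he : isEnd m.1 = true
    · have h1 := hL.midE m he
      have h3 := h1.1
      have h4 := h1.2.1
      rw [ofr_re] at h3 h4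
      have e : clsW b m.1 = .threeE := by
        have := clsW_mid m.2
        rwa [if_pos he] at this
      have h2 := mboxE_mp
      rw [← e] at h2
      exact ⟨h2.1.trans_le h3, h4.trans_lt h2.2⟩
    · have he' : isEnd m.1 = false := by simpa using he
      have hne : m.1 ≠ 0 := by
        intro h0
        apply he
        unfold isEnd
        simp [h0]
      obtain ⟨k, hk⟩ := Fin.eq_succ_of_ne_zero hne
      have h1 := hL.mid m he' k hk.symm
      have h3 := h1.1
      have h4 := h1.2.1
      rw [ofr_re] at h3 h4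
      have e : clsW b m.1 = .three := by
        have := clsW_mid m.2
        rwa [if_neg he] at this
      have h2 := mbox_mp (clsW b k.castSucc) .three (by decide)
      rw [← e] at h2
      exact ⟨h2.1.trans_le h3, h4.trans_lt h2.2⟩

theorem Loc.flatZ (hL : Loc b zs) (v : ZZ (tyW b)) : |(zs (.inr v)).re| < 1 / 4 := by
  have h1 := hL.ring v
  have h2 := zbox_flat (b v.1).natAbs (isEnd v.1)
  have h3 := h1.1
  have h4 := h1.2.1
  rw [ofz_re] at h3 h4
  rw [← abs_ofs (b v.1), abs_lt]
  exact ⟨h2.1.trans_le h3, h4.trans_lt h2.2⟩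

theorem std_wpar (b : Fin (M + 1) → ℤ) (zs : DD (tyW b) ⊕ ZZ (tyW b) → ℂ) :
    Std (tyW b) (wpar b zs) := ⟨tyW_std b, wpar_good b zs, wpar_XM b zs⟩

end SR

end Pool.Agent.Work.MP_b30479_gt.G2
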