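import Pool.Agent.Work.MP_b30479_gt.G2.WLocF

/-!
# Windows of the rings next to a digit `1`, reduced form

`rk4`, `rk5`: hinge next to a digit `1` with a region of class two behind it, by the class at the
other hinge, and `ka4`, `ka5`: the real part of the hinge minus this constant is at most the
difference of the heights. `rc6`: hinge next to a digit `1`, by the class behind it only.
-/

namespace Pool.Agent.Work.MP_b30479_gt.G2

namespace SR

/-- hinges next to a digit `1`, class two behind it, 4 crossings -/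
noncomputable def rk4 : Cl → Bool → R4
  | .one, _ => mk4 2542 2965 1485 1786 1242 1637 370 694 (-1148) (-733) 4638 4268
  | .two, _ => mk4 2565 2983 1551 1843 1274 1650 452 733 (-1107) (-701) 4708 4256
  | .twoE, _ => mk4 2522 2916 1619 1854 1195 1536 367 597 (-1090) (-719) 4654 4287
  | .three, _ => mk4 2583 2985 1606 1872 1302 1659 498 748 (-1075) (-686) 4736 4238
  | .threeE, _ => mk4 2560 2956 1655 1892 1258 1597 461 695 (-1056) (-684) 4731 4270
  | .ring, false => mk4 2585 3027 1632 1900 1301 1725 516 837 (-1059) (-665) 4791 4275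
  | .ring, true => mk4 2598 3032 1642 1971 1307 1725 564 842 (-1043) (-622) 4864 4300

/-- constants, 4 crossings -/
def ka4 : Cl → Bool → ℤ
  | .one, _ => 1530
  | .two, _ => 1520
  | .twoE, _ => 1540
  | .three, _ => 1520
  | .threeE, _ => 1530
  | .ring, false => 1515
  | .ring, true => 1520

/-- hinges next to a digit `1`, class two behind it, 5 crossings -/
noncomputable def rk5 : Cl → Bool → R4
  | .one, _ => mk4 2529 2954 1278 1583 1197 1612 229 537 (-1245) (-824) 4411 4182
  | .two, _ => mk4 2538 2961 1337 1629 1218 1616 289 563 (-1218) (-804) 4461 4172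
  | .twoE, _ => mk4 2514 2924 1380 1627 1163 1534 221 462 (-1213) (-821) 4424 4203
  | .three, _ => mk4 2547 2963 1380 1651 1237 1619 316 577 (-1198) (-794) 4480 4164
  | .threeE, _ => mk4 2532 2945 1414 1662 1206 1576 286 530 (-1190) (-797) 4479 4193
  | .ring, false => mk4 2546 2968 1402 1684 1256 1666 350 636 (-1188) (-799) 4505 4155
  | .ring, true => mk4 2553 2968 1417 1711 1267 1666 377 636 (-1174) (-774) 4554 4177

/-- constants, 5 crossings -/
def ka5 : Cl → Bool → ℤ
  | .one, _ => 1530
  | .two, _ => 1520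
  | .twoE, _ => 1530
  | .three, _ => 1510
  | .threeE, _ => 1520
  | .ring, false => 1510
  | .ring, true => 1515

/-- hinges next to a digit `1`, 6 crossings -/
noncomputable def rc6 : Cl → R4
  | .one => mk4 2186 2835 1108 1622 818 1553 83 572 (-1221) (-500) 4238 4155
  | .two => mk4 2516 2983 1131 1544 1132 1628 120 505 (-1307) (-831) 4367 4247
  | .twoE => mk4 2315 2670 1102 1596 1410 1833 60 508 (-1528) (-1150) 4099 4039
  | _ => mk4 0 4000 0 2500 (-10000) 10000 (-10000) 10000 (-10000) 10000 6500 10000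

variable {M : ℕ}

/-- **Windows of the rings with `n` crossings next to a digit `1`, class two behind it.** Region
`i` (ring), `j` (digit `1`), `g` (behind `j`), `k` (at the other hinge `h'` of `i`). -/
structure LocRk (n : ℕ) (q : Cl → Bool → R4) (ka : Cl → Bool → ℤ) (b : Fin (M + 1) → ℤ)
    (zs : DD (tyW b) ⊕ ZZ (tyW b) → ℂ) : Prop where
  own : ∀ {h h' h2 : Fin M} {i j k g : Fin (M + 1)} {p : Fin 3} (v : ZZ (tyW b)), v.1 = i →
    Adj h i p j → Adj h2 j p g → Adj h' i p.rev k → clsW b i = .ring → (b i).natAbs = n →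
    clsW b j = .one → clsW b g = .two →
    (q (clsW b k) (ssW b h')).In (ofr (b i) (zs (.inl (.inl h)))) (ofz (b i) (zs (.inr v)))
  kap : ∀ {h h' h2 : Fin M} {i j k g : Fin (M + 1)} {p : Fin 3} (v : ZZ (tyW b)), v.1 = i →
    Adj h i p j → Adj h2 j p g → Adj h' i p.rev k → clsW b i = .ring → (b i).natAbs = n →
    clsW b j = .one → clsW b g = .two →
    (ofr (b i) (zs (.inl (.inl h)))).re - (ka (clsW b k) (ssW b h') : ℝ) / 10000 ≤
      (ofz (b i) (zs (.inr v))).im - (ofr (b i) (zs (.inl (.inl h)))).im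

/-- **Windows of the rings with `n` crossings next to a digit `1`, by the class behind it.** -/
structure LocRc (n : ℕ) (q e : Cl → R4) (b : Fin (M + 1) → ℤ)
    (zs : DD (tyW b) ⊕ ZZ (tyW b) → ℂ) : Prop where
  own : ∀ {h h' h2 : Fin M} {i j k g : Fin (M + 1)} {p : Fin 3} (v : ZZ (tyW b)), v.1 = i →
    Adj h i p j → Adj h2 j p g → Adj h' i p.rev k → clsW b i = .ring → (b i).natAbs = n →
    clsW b j = .one →
    (q (clsW b g)).In (ofr (b i) (zs (.inl (.inl h)))) (ofz (b i) (zs (.inr v)))
  fin : ∀ {h h2 : Fin M} {i j g : Fin (M + 1)} {p : Fin 3} (v : ZZ (tyW b)), v.1 = i →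
    Adj h i p j → Adj h2 j p g → isEnd i = true → clsW b i = .ring → (b i).natAbs = n →
    clsW b j = .one →
    (e (clsW b g)).In (ofr (b i) (zs (.inl (.inl h)))) (ofz (b i) (zs (.inr v)))

/-- **A lower bound for the height of the rings with `n` crossings next to a digit `1`.** -/
def LocRh (n : ℕ) (m : ℤ) (b : Fin (M + 1) → ℤ) (zs : DD (tyW b) ⊕ ZZ (tyW b) → ℂ) : Prop :=
  ∀ {h h' h2 : Fin M} {i j k g : Fin (M + 1)} {p : Fin 3} (v : ZZ (tyW b)), v.1 = i →
    Adj h i p j → Adj h2 j p g → Adj h' i p.rev k → clsW b i = .ring → (b i).natAbs = n →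
    clsW b j = .one → (m : ℝ) / 10000 ≤ (ofz (b i) (zs (.inr v))).im

end SR

end Pool.Agent.Work.MP_b30479_gt.G2
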