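import Pool.Agent.Work.MP_b30479_gt.G2.WAdj

/-!
# The hinges between a digit `3` and a ring below the real axis

The height of such a hinge in the frame of the digit `3` is nonnegative with one exception, where
all variables nearby are known up to a few thousandths.
-/

namespace Pool.Agent.Work.MP_b30479_gt.G2

namespace SR

variable {M : ℕ}

/-- **The exception.** The hinge `h` of the digit `3` at `i`, slot `p`, to the ring at `j`. -/
structure Exc3 (b : Fin (M + 1) → ℤ) (zs : DD (tyW b) ⊕ ZZ (tyW b) → ℂ) (h : Fin M)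
    (i j : Fin (M + 1)) (p : Fin 3) : Prop where
  lo : -(7 / 10000) ≤ ofs (b i) (zs (.inl (.inl h))).im
  n4 : (b j).natAbs = 4
  /-- the other neighbour of the ring -/
  nxt : ∃ (g : Fin M) (k : Fin (M + 1)), Adj g j p k ∧ clsW b k = .ring ∧ 0 < b j * b k
  /-- the other neighbour of the digit `3` -/
  one : ∀ {h' : Fin M} {k : Fin (M + 1)}, Adj h' i p.rev k → clsW b k = .one
  /-- the region behind it -/
  two : ∀ {h' g : Fin M} {k m : Fin (M + 1)}, Adj h' i p.rev k → Adj g k p.rev m →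
    clsW b m = .two
  x0 : 212 / 1000 ≤ (zs (.inl (.inl h))).re
  x1 : (zs (.inl (.inl h))).re ≤ 217 / 1000
  s0 : ∀ v : ZZ (tyW b), v.1 = j → 201 / 1000 ≤ -(ofz (b j) (zs (.inr v))).re
  s1 : ∀ v : ZZ (tyW b), v.1 = j → -(ofz (b j) (zs (.inr v))).re ≤ 206 / 1000
  r0 : ∀ v : ZZ (tyW b), v.1 = j → 84 / 1000 ≤ (zs (.inr v)).im
  r1 : ∀ v : ZZ (tyW b), v.1 = j → (zs (.inr v)).im ≤ 895 / 10000
  c0 : ∀ v : ZZ (tyW b), v.1 = j →
    4165 / 10000 ≤ (zs (.inl (.inl h))).re - (ofz (b j) (zs (.inr v))).re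
  c1 : ∀ v : ZZ (tyW b), v.1 = j →
    (zs (.inl (.inl h))).re - (ofz (b j) (zs (.inr v))).re ≤ 4205 / 10000

/-- **The hinges between a digit `3` and a ring.** -/
structure Loc3 (b : Fin (M + 1) → ℤ) (zs : DD (tyW b) ⊕ ZZ (tyW b) → ℂ) : Prop where
  three : ∀ {h : Fin M} {i j : Fin (M + 1)} {p : Fin 3}, Adj h i p j → clsW b i = .three →
    clsW b j = .ring → 0 ≤ ofs (b i) (zs (.inl (.inl h))).im ∨ Exc3 b zs h i j p

end SR

end Pool.Agent.Work.MP_b30479_gt.G2
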