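import Pool.Agent.Work.MP_b30479_gt.G2.WAdj

/-!
# Windows at a digit `3` with a digit `1` at the last slot

`Q`: the class of the neighbour of the digit `3` at the first slot, `P`: the class behind the digit
`1`. `w5T Q P`: upper bound of the height of the hinge with the digit `1`, in the frame of the digit
`1`; `w5L Q P`: upper bound of the height of the inner variable, in the frame of the digit `3`.
-/

namespace Pool.Agent.Work.MP_b30479_gt.G2

namespace SR

/-- upper bounds of the height of the hinge with the digit `1` -/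
noncomputable def w5T : Cl → Cl → ℝ
  | .one, .one => 885 / 10000
  | .one, .two => 912 / 10000
  | .one, .twoE => 1098 / 10000
  | .two, .one => 840 / 10000
  | .two, .two => 868 / 10000
  | .two, .twoE => 1055 / 10000
  | .twoE, .one => 800 / 10000
  | .twoE, .two => 821 / 10000
  | .twoE, .twoE => 1008 / 10000
  | .three, .one => 785 / 10000
  | .three, .two => 809 / 10000
  | .three, .twoE => 1005 / 10000
  | .threeE, .one => 750 / 10000
  | .threeE, .two => 765 / 10000
  | .threeE, .twoE => 960 / 10000
  | .ring, .one => 770 / 10000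
  | .ring, .two => 780 / 10000
  | .ring, .twoE => 975 / 10000
  | _, _ => 1145 / 10000

/-- upper bounds of the height of the inner variable -/
noncomputable def w5L : Cl → Cl → ℝ
  | .one, .one => -(245 / 10000)
  | .one, .two => -(360 / 10000)
  | .one, .twoE => -(328 / 10000)
  | .two, .one => -(345 / 10000)
  | .two, .two => -(470 / 10000)
  | .two, .twoE => -(415 / 10000)
  | .twoE, .one => -(905 / 10000)
  | .twoE, .two => -(1025 / 10000)
  | .twoE, .twoE => -(960 / 10000)
  | .three, .one => -(410 / 10000)
  | .three, .two => -(530 / 10000)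
  | .three, .twoE => -(465 / 10000)
  | .threeE, .one => -(745 / 10000)
  | .threeE, .two => -(870 / 10000)
  | .threeE, .twoE => -(800 / 10000)
  | .ring, .one => -(185 / 10000)
  | .ring, .two => -(295 / 10000)
  | .ring, .twoE => -(235 / 10000)
  | _, _ => 15 / 1000

/-- upper bounds of the sum of the two heights -/
noncomputable def w5S : Cl → ℝ
  | .one => 585 / 10000
  | .two => 537 / 10000
  | _ => 766 / 10000

variable {M : ℕ}

/-- **Windows at a digit `3` with a digit `1` at the last slot.** -/
structure LocM5 (b : Fin (M + 1) → ℤ) (zs : DD (tyW b) ⊕ ZZ (tyW b) → ℂ) : Prop where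
  hinge : ∀ {h h' h2 : Fin M} {i j k r : Fin (M + 1)}, Adj h i 0 j → Adj h' i 2 k →
    Adj h2 k 2 r → clsW b i = .three → clsW b k = .one →
    ofs (b k) (zs (.inl (.inl h'))).im ≤ w5T (clsW b j) (clsW b r)
  mid : ∀ {h h' h2 : Fin M} {i j k r : Fin (M + 1)} (hm : (tyW b i).isMid = true),
    Adj h i 0 j → Adj h' i 2 k → Adj h2 k 2 r → clsW b i = .three → clsW b k = .one →
    ofs (b i) (zs (.inl (.inr ⟨i, hm⟩))).im ≤ w5L (clsW b j) (clsW b r)
  line : ∀ {h h' h2 : Fin M} {i j k r : Fin (M + 1)} (hm : (tyW b i).isMid = true),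
    Adj h i 0 j → Adj h' i 2 k → Adj h2 k 2 r → clsW b i = .three → clsW b k = .one →
    ofs (b k) (zs (.inl (.inl h'))).im + ofs (b i) (zs (.inl (.inr ⟨i, hm⟩))).im ≤
      w5S (clsW b r)

end SR

end Pool.Agent.Work.MP_b30479_gt.G2
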