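import Pool.Agent.Work.MP_b30479_gt.G2.WAdj

/-!
# Sharp windows at a digit `3` with a digit `1` at the last slot

`T`: the height of the hinge between the digits `3` and `1`, in the frame of the digit `1`; `Tl`: the
height of the inner variable of the digit `3`, in its frame. The digit behind the digit `1` has the
class `.one` or `.two`.
-/

namespace Pool.Agent.Work.MP_b30479_gt.G2

namespace SR

variable {M : ℕ}

/-- **Sharp windows at a digit `3` with a digit `1` at the last slot.** -/
structure LocM6 (b : Fin (M + 1) → ℤ) (zs : DD (tyW b) ⊕ ZZ (tyW b) → ℂ) : Prop where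
  one : ∀ {h h' h2 : Fin M} {i j k r : Fin (M + 1)}, Adj h i 0 j → Adj h' i 2 k →
    Adj h2 k 2 r → clsW b i = .three → clsW b k = .one → clsW b r = .one →
    ofs (b k) (zs (.inl (.inl h'))).im ≤ 801 / 10000
  two : ∀ {h h' h2 : Fin M} {i j k r : Fin (M + 1)}, Adj h i 0 j → Adj h' i 2 k →
    Adj h2 k 2 r → clsW b i = .three → clsW b k = .one → clsW b r = .two →
    ofs (b k) (zs (.inl (.inl h'))).im ≤ 894 / 10000
  line : ∀ {h h' h2 : Fin M} {i j k r : Fin (M + 1)} (hm : (tyW b i).isMid = true),
    Adj h i 0 j → Adj h' i 2 k → Adj h2 k 2 r → clsW b i = .three → clsW b k = .one →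
    clsW b r = .one ∨ clsW b r = .two →
    ofs (b k) (zs (.inl (.inl h'))).im + ofs (b i) (zs (.inl (.inr ⟨i, hm⟩))).im ≤ 512 / 10000

end SR

end Pool.Agent.Work.MP_b30479_gt.G2
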