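import Pool.Agent.Work.MP_b30479_gt.G2.WLocN
import Pool.Agent.Work.MP_b30479_gt.G2.WLocU
import Pool.Agent.Work.MP_b30479_gt.G2.WAdj
import Pool.Agent.Work.MP_b30479_gt.G2.MPHess
import Pool.Agent.Work.MP_b30479_gt.G2.WLocF
import Pool.Agent.Work.MP_b30479_gt.G2.WLocG
import Pool.Agent.Work.MP_b30479_gt.G2.WLocO
import Pool.Agent.Work.MP_b30479_gt.G2.WLocQ
import Pool.Agent.Work.MP_b30479_gt.G2.WLocR
import Pool.Agent.Work.MP_b30479_gt.G2.WLocT
import Pool.Agent.Work.MP_b30479_gt.G2.WLocX
import Pool.Agent.Work.MP_b30479_gt.LT.CoreG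

/-!
# The inner variable of a digit `3` between two digits `1`: lower bound

The three cases of the digit behind the digit `1` at the first slot are in `LocM1` and `LocM4`.
-/

namespace Pool.Agent.Work.MP_b30479_gt.G2

open Finset VOL Filter Topology

namespace SR

variable {M : ℕ}

/-- **Lower bound of the inner variable of a digit `3` between two digits `1`.** -/
structure LocM7 (b : Fin (M + 1) → ℤ) (zs : DD (tyW b) ⊕ ZZ (tyW b) → ℂ) : Prop where
  low : ∀ {h h' h2 : Fin M} {i j k r : Fin (M + 1)}, Adj h i 0 j → Adj h' i 2 k →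
    Adj h2 k 2 r → clsW b i = .three → clsW b k = .one → clsW b j = .one → clsW b r = .two →
    ∀ hm : (tyW b i).isMid = true, -(80 / 1000) ≤ ofs (b i) (zs (.inl (.inr ⟨i, hm⟩))).im

variable {b : Fin (M + 1) → ℤ} {zs : DD (tyW b) ⊕ ZZ (tyW b) → ℂ}

/-- a digit `1` next to a digit `3` at its last slot has a digit `1` or `2` behind it -/
theorem behind_left (hb : ClassW b) {h : Fin M} {i j : Fin (M + 1)} (A : Adj h i 0 j)
    (hi : clsW b i = .three) (hj : clsW b j = .one) :
    ∃ (h2 : Fin M) (r : Fin (M + 1)), Adj h2 j 0 r ∧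
      (clsW b r = .one ∨ clsW b r = .two ∨ clsW b r = .twoE) := by
  have h3 : (b i).natAbs = 3 := by
    unfold clsW cls at hi
    split_ifs at hi with h1 h2 h3 h4 h5
    exact h4
  have h1 : (b j).natAbs = 1 := by
    unfold clsW cls at hj
    split_ifs at hj with h1
    exact h1
  have e : i.val = h.val + 1 ∧ j.val = h.val := by
    cases A
    exact ⟨rfl, rfl⟩
  have hj0 : j ≠ 0 := by
    rintro rfl
    have := hb.first
    omega
  have hjv : j.val ≠ 0 := fun h => hj0 (Fin.ext h)
  obtain ⟨k, hk⟩ := Fin.eq_succ_of_ne_zero hj0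
  refine ⟨k, k.castSucc, by rw [hk]; exact .r, ?_⟩
  have hkv : j.val = k.val + 1 := by rw [hk]; rfl
  have hi2 := i.2
  have h5 : (b k.castSucc).natAbs ≤ 2 := by
    have e1 : (⟨k.val + 1, by omega⟩ : Fin (M + 1)) = j := Fin.ext hkv.symm
    have h6 := hb.one k.val (by omega) (by rw [e1]; exact h1)
    rcases h6 with h6 | h6
    · exact h6
    · exfalso
      have h7 : (⟨k.val + 2, by omega⟩ : Fin (M + 1)) = i := Fin.ext (by simp; omega)
      rw [h7] at h6
      omega
  have h6 : (b k.castSucc).natAbs ≠ 0 := by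
    rw [Int.natAbs_ne_zero]
    exact hb.ne _
  have h8 : (b k.castSucc).natAbs = 1 ∨ (b k.castSucc).natAbs = 2 := by omega
  unfold clsW cls
  rcases h8 with h8 | h8
  · left
    rw [if_pos h8]
  · right
    rw [if_neg (by omega), if_pos h8]
    cases isEnd k.castSucc
    · left
      rfl
    · right
      rfl

/-- the inner variable of a digit `3` between two digits `1` -/
theorem mid_low (hb : ClassW b) (N : LocM1 b zs) (U : LocM4 b zs) {h h' : Fin M}
    {i j k : Fin (M + 1)} (A : Adj h i 0 j) (A' : Adj h' i 2 k) (hi : clsW b i = .three)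
    (hk : clsW b k = .one) (hj : clsW b j = .one) (hm : (tyW b i).isMid = true) :
    -(78 / 1000) ≤ ofs (b i) (zs (.inl (.inr ⟨i, hm⟩))).im := by
  obtain ⟨h2, r, A2, h5⟩ := behind_left hb A hi hj
  rcases h5 with h5 | h5 | h5
  · exact N.one0 hm A A' A2 hi hj hk h5
  · have := N.two0 hm A A' A2 hi hj hk h5
    linarith
  · have := (U.tail hm A A' A2 hi hj h5 hk).1
    linarith

/-- the windows `LocM7` follow from `LocM1` and `LocM4` -/
theorem locM7 (hb : ClassW b) (N : LocM1 b zs) (U : LocM4 b zs) : LocM7 b zs where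
  low A A' _ hi hk hj _ hm := by
    have := mid_low hb N U A A' hi hk hj hm
    linarith

end SR

end Pool.Agent.Work.MP_b30479_gt.G2
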