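import Pool.Agent.Work.MP_b30479_gt.G2.WAdj

/-!
# A digit `2` between a ring and a digit `3`
-/

namespace Pool.Agent.Work.MP_b30479_gt.G2

namespace SR

variable {M : ℕ}

/-- **A digit `2` between a ring and a digit `3`**: the height of the hinge of the digit `3` in the
frame of the digit `2` is not negative. -/
structure LocZ2 (b : Fin (M + 1) → ℤ) (zs : DD (tyW b) ⊕ ZZ (tyW b) → ℂ) : Prop where
  two : ∀ {h h' : Fin M} {i j j' : Fin (M + 1)} {p : Fin 3}, Adj h i p j → Adj h' i p.rev j' →
    clsW b i = .two → clsW b j = .ring → clsW b j' = .three →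
    0 ≤ ofs (b i) (zs (.inl (.inl h'))).im

end SR

end Pool.Agent.Work.MP_b30479_gt.G2
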