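import Pool.Agent.Work.MP_b30479_gt.G2.WM11J

/-!
# Kind `1 | 1`: no maximiser with `x ≥ 2/5`, the other hinge not in an upper mode on side B
-/

namespace Pool.Agent.Work.NumG

namespace M11

open MP_b30479_gt.G2 (V1 tr dh1 DOk)
open MP_b30479_gt.G2.SR (cw Cl)
open MP_b30479_gt.VOL (strip)

variable {XA XB w : ℂ} {x T XM : ℝ} {P Q : Cl} {k : KS}

theorem InK.im_nonpos (h : InK k w) (hk : k.hi ≤ 0) : w.im ≤ 0 := by
  have h1 : (k.hi : ℝ) ≤ 0 := by exact_mod_cast hk
  have h2 : 0 ≤ τk k w.re := (MP_b30479_gt.G2.tr_mem _ _ _ _).1
  exact h.2.2.trans (mul_nonpos_of_nonpos_of_nonneg (by linarith only [h1]) h2)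

theorem InK.im_nonneg (h : InK k w) (hk : 0 ≤ k.lo) : 0 ≤ w.im := by
  have h1 : (0 : ℝ) ≤ k.lo := by exact_mod_cast hk
  have h2 : 0 ≤ τk k w.re := (MP_b30479_gt.G2.tr_mem _ _ _ _).1
  exact le_trans (mul_nonneg (by positivity) h2) h.2.1

theorem InK.re_nonneg (h : InK k w) : 0 ≤ w.re := le_trans (by positivity) h.1.1

namespace Core

variable (C : Core P Q T x XM XA XB)
include C

theorem dA_neg (h : XA.im ≤ 0) : DOk (⟨x, -(16 / 100 * t1 XM x)⟩ + XA) := by
  refine Or.inl (ne_of_lt ?_)
  have := C.tp
  simp only [Complex.add_im]
  linarith only [h, this]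

theorem dA_near (h0 : 0 ≤ XA.re) (h1 : XA.re ≤ 13 / 100) (h2 : XM ≤ 86 / 100) :
    DOk (⟨x, -(16 / 100 * t1 XM x)⟩ + XA) := by
  refine Or.inr ?_
  have h3 := C.x0
  have h4 := C.x1
  show 0 < _ ∧ _ < (1 : ℝ)
  simp only [Complex.add_re]
  constructor <;> linarith only [h0, h3, h1, h2, h4]

theorem dB_pos (h : 0 ≤ XB.im) : DOk (⟨x, 16 / 100 * t1 XM x⟩ + XB) := by
  refine Or.inl (ne_of_gt ?_)
  have := C.tp
  simp only [Complex.add_im]
  linarith only [h, this]

/-- **outer neighbour `1`** -/
theorem false80 (hX : XM = 80 / 100) (h1 : 680 / 1000 ≤ x) (hA : PN P T XA) (hB : PN Q (-T) XB)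
    (hB1 : Q = .one → InK K1 XB) (hPQ : P = .one ∨ Q = .one) : False := by
  have hT := C.TA
  by_cases hP : P = .one
  · subst hP
    simp only [cw] at hT
    simp only [PN] at hA
    have hb : (InK K12 XB ∨ InK K3 XB) ∨ InK KZ XB := by
      rcases hB.b3 hB1 with h | h | h
      · exact Or.inl (Or.inl h)
      · exact Or.inl (Or.inr h)
      · exact Or.inr h
    rcases hb with hb | hb
    · exact C.cF1 hX h1 (by linarith only [hT]) hA hb
    · exact C.cF4 hX h1 (by linarith only [hT]) hA hb
  · have hQ : Q = .one := hPQ.resolve_left hP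
    have hb := hB1 hQ
    cases P <;> simp only [cw] at hT
    · exact hP rfl
    · exact C.cF2 hX h1 (by linarith only [hT]) (Or.inl (K2_K2P hA.two)) hb
    · exact C.cF2e hX h1 (by linarith only [hT]) (KEm_KE hA) hb
    · exact C.cF2 hX h1 (by linarith only [hT]) (Or.inr hA.three) hb
    · exact C.cF2 hX h1 (by linarith only [hT]) (Or.inr (K3E_K3 hA)) hb
    · exact C.cF3 hX h1 (by linarith only [hT]) hA.ring hb

theorem false86 (hX : XM = 86 / 100) (h1 : 740 / 1000 ≤ x) (hA : PN P T XA) (hB : PN Q (-T) XB)
    (hP : P ≠ .one) (hQ : Q ≠ .one) : False := by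
  have hT8 := C.hT
  have hT := C.TA
  have hT' := C.TB
  have hRR : InK KR XB → False := fun h => C.cRR hX h1 (by linarith only [hT8]) (hA.a3 hP) h
  have hre : 0 ≤ XA.re := by
    rcases hA.a3 hP with h | h | h <;> exact h.re_nonneg
  cases Q
  case one => exact hQ rfl
  case twoE =>
    simp only [cw] at hT'
    exact C.cEE hX h1 (by linarith only [hT']) (hA.a3 hP) (Or.inl (KEm_KE hB))
  case threeE =>
    simp only [cw] at hT'
    exact C.cEE hX h1 (by linarith only [hT']) (hA.a3 hP) (Or.inr hB)
  case two =>
    rcases hB with hB | ⟨hB, hB'⟩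
    · exact hRR hB
    cases P
    case one => exact hP rfl
    case two =>
      simp only [cw] at hT
      exact C.cN1 hX h1 (by linarith only [hT]) (K2_K2P hA.two) hB
    case threeE =>
      simp only [cw] at hT
      exact C.cN1 hX h1 (by linarith only [hT]) (K3E_K2P hA) hB
    case three =>
      simp only [cw] at hT
      exact C.cN2 hX h1 (by linarith only [hT]) (Or.inl hA.three) hB
    case ring =>
      simp only [cw] at hT
      exact C.cN2 hX h1 (by linarith only [hT]) (Or.inr hA.ring) hB
    case twoE =>
      have hA' : InK KEm XA := hA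
      rcases le_total T (6 / 100) with h6 | h6
      · exact C.cN1 hX h1 (by linarith only [h6]) (KEm_K2P hA') hB
      · have hB2 := hB' (by linarith only [h6])
        exact C.cN3 hX h1 (by linarith only [h6]) (by linarith only [hT8]) (C.dA_neg (hA'.im_nonpos (by decide)))
          (C.dB_pos (hB2.im_nonneg (by decide))) hA' hB2
  case three =>
    have hb : InK KR XB ∨ (InK K3m XB ∨ InK K3pm XB) := hB
    rcases hb with hb | hb
    · exact hRR hb
    have hb0 : 0 ≤ XB.im := by
      rcases hb with h | h <;> exact h.im_nonneg (by decide)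
    rcases le_total XA.re (13 / 100) with h3 | h3
    · have dA := C.dA_near hre h3 hX.le
      cases P
      case one => exact hP rfl
      case two =>
        exact C.cM3 hX h1 (by linarith only [hT8]) dA (C.dB_pos hb0)
          (Or.inl (hA.two.near rfl (by decide) (by decide) (by decide) h3)) hb
      case threeE =>
        exact C.cM3 hX h1 (by linarith only [hT8]) dA (C.dB_pos hb0)
          (Or.inl (InK.near (k := K3E) hA rfl (by decide) (by decide) (by decide) h3)) hb
      case three =>
        exact C.cM3 hX h1 (by linarith only [hT8]) dA (C.dB_pos hb0)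
          (Or.inl (hA.three.near rfl (by decide) (by decide) (by decide) h3)) hb
      case ring =>
        exact C.cM3 hX h1 (by linarith only [hT8]) dA (C.dB_pos hb0)
          (Or.inl (hA.ring.near rfl (by decide) (by decide) (by decide) h3)) hb
      case twoE => exact C.cM3 hX h1 (by linarith only [hT8]) dA (C.dB_pos hb0) (Or.inr hA) hb
    · cases P
      case one => exact hP rfl
      case two =>
        simp only [cw] at hT
        have h := hA.two
        refine C.cF3a hX h1 (by linarith only [hT]) (Or.inl (h.domY (k' := K2y) (by decide) ?_ ?_)) hb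
        · simp only [K2y]; norm_num; exact h3
        · exact h.1.2
      case threeE =>
        simp only [cw] at hT
        have h : InK K3E XA := hA
        refine C.cF3a hX h1 (by linarith only [hT]) (Or.inr (h.domY (k' := K3Ey) (by decide) ?_ ?_)) hb
        · simp only [K3Ey]; norm_num; exact h3
        · exact h.1.2
      case three =>
        simp only [cw] at hT
        have h := hA.three
        refine C.cF3b hX h1 (by linarith only [hT]) (Or.inl (h.domY (k' := K3y) (by decide) ?_ ?_)) hb
        · simp only [K3y]; norm_num; exact h3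
        · exact h.1.2
      case ring =>
        simp only [cw] at hT
        have h := hA.ring
        refine C.cF3b hX h1 (by linarith only [hT]) (Or.inr (h.domY (k' := KZy) (by decide) ?_ ?_)) hb
        · simp only [KZy]; norm_num; exact h3
        · exact h.1.2
      case twoE =>
        have hA' : InK KEm XA := hA
        exact C.cM3 hX h1 (by linarith only [hT8]) (C.dA_neg (hA'.im_nonpos (by decide))) (C.dB_pos hb0)
          (Or.inr hA') hb
  case ring =>
    have hb : InK KR XB ∨ InK KZm XB := hB
    rcases hb with hb | hb
    · exact hRR hb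
    have hb0 : 0 ≤ XB.im := hb.im_nonneg (by decide)
    rcases le_total XA.re (13 / 100) with h3 | h3
    · have dA := C.dA_near hre h3 hX.le
      cases P
      case one => exact hP rfl
      case two =>
        exact C.cMR hX h1 (by linarith only [hT8]) dA (C.dB_pos hb0)
          (Or.inl (hA.two.near rfl (by decide) (by decide) (by decide) h3)) hb
      case threeE =>
        exact C.cMR hX h1 (by linarith only [hT8]) dA (C.dB_pos hb0)
          (Or.inl (InK.near (k := K3E) hA rfl (by decide) (by decide) (by decide) h3)) hb
      case three =>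
        exact C.cMR hX h1 (by linarith only [hT8]) dA (C.dB_pos hb0)
          (Or.inl (hA.three.near rfl (by decide) (by decide) (by decide) h3)) hb
      case ring =>
        exact C.cMR hX h1 (by linarith only [hT8]) dA (C.dB_pos hb0)
          (Or.inl (hA.ring.near rfl (by decide) (by decide) (by decide) h3)) hb
      case twoE => exact C.cMR hX h1 (by linarith only [hT8]) dA (C.dB_pos hb0) (Or.inr hA) hb
    · cases P
      case one => exact hP rfl
      case two =>
        simp only [cw] at hT
        have h := hA.two
        have hy := h.1.2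
        rcases le_total 0 XA.im with h5 | h5
        · have h6 : InK K2yp XA := by
            refine ⟨⟨?_, hy⟩, ?_, ?_⟩
            · simp only [K2yp]; norm_num; exact h3
            · simp only [K2yp]; norm_num; exact h5
            · exact h.2.2
          exact C.cFRa hX h1 (by linarith only [hT]) (Or.inl h6) hb
        · rcases le_total (3 / 10) XA.re with h7 | h7
          · have h6 : InK K2yn XA := by
              refine ⟨⟨?_, hy⟩, h.2.1, ?_⟩
              · simp only [K2yn]; norm_num; exact h7
              · simp only [K2yn]; norm_num; exact h5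
            exact C.cFRa hX h1 (by linarith only [hT]) (Or.inr (Or.inl h6)) hb
          · have h6 : InK K2n XA := by
              refine ⟨⟨?_, ?_⟩, h.2.1, ?_⟩
              · simp only [K2n]; norm_num; exact h3
              · simp only [K2n]; norm_num; exact h7
              · simp only [K2n]; norm_num; exact h5
            exact C.cFRn hX h1 (by linarith only [hT]) h6 hb
      case threeE =>
        simp only [cw] at hT
        have h : InK K3E XA := hA
        refine C.cFRb hX h1 (by linarith only [hT]) (h.domY (k' := K3Ey) (by decide) ?_ ?_) hb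
        · simp only [K3Ey]; norm_num; exact h3
        · exact h.1.2
      case three =>
        simp only [cw] at hT
        have h := hA.three
        refine C.cFRa hX h1 (by linarith only [hT])
          (Or.inr (Or.inr (Or.inl (h.domY (k' := K3y) (by decide) ?_ ?_)))) hb
        · simp only [K3y]; norm_num; exact h3
        · exact h.1.2
      case ring =>
        simp only [cw] at hT
        have h := hA.ring
        refine C.cFRa hX h1 (by linarith only [hT])
          (Or.inr (Or.inr (Or.inr (h.domY (k' := KZy) (by decide) ?_ ?_)))) hb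
        · simp only [KZy]; norm_num; exact h3
        · exact h.1.2
      case twoE =>
        have hA' : InK KEm XA := hA
        exact C.cMR hX h1 (by linarith only [hT8]) (C.dA_neg (hA'.im_nonpos (by decide))) (C.dB_pos hb0)
          (Or.inr hA') hb

/-- **no maximiser** -/
theorem false (hx : 40 / 100 ≤ x) (hA : PN P T XA) (hB : PN Q (-T) XB)
    (hB1 : Q = .one → InK K1 XB) : False := by
  have hT := C.hT
  by_cases hPQ : P = .one ∨ Q = .one
  · have hX : XM = 80 / 100 := by rw [C.hXM, if_pos hPQ]
    rcases le_total x (600 / 1000) with h1 | h1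
    · exact C.cG1 (Or.inl hX) (by linarith only [hx]) h1 (by linarith only [hT]) hA.a4 (hB.b3 hB1)
    rcases le_total x (680 / 1000) with h2 | h2
    · exact C.cG2 hX h1 h2 (by linarith only [hT]) hA.a4 (hB.b3 hB1)
    exact C.false80 hX h2 hA hB hB1 hPQ
  · have hX : XM = 86 / 100 := by rw [C.hXM, if_neg hPQ]
    rcases le_total x (600 / 1000) with h1 | h1
    · exact C.cG1 (Or.inr hX) (by linarith only [hx]) h1 (by linarith only [hT]) hA.a4 (hB.b3 hB1)
    rcases le_total x (740 / 1000) with h2 | h2
    · refine C.cG3 hX h1 h2 (by linarith only [hT]) ?_ (hB.b3 hB1)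
      rcases hA.b3 (fun h => absurd (Or.inl h) hPQ) with h | h | h
      · exact Or.inl h
      · exact Or.inr (Or.inl h)
      · exact Or.inr (Or.inr h)
    exact C.false86 hX h2 hA hB (fun h => hPQ (Or.inl h)) (fun h => hPQ (Or.inr h))

end Core

end M11

end Pool.Agent.Work.NumG
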