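import Pool.Agent.Work.NumU.GenX

/-!
# Mirrored paths: expressions for the derivatives of the values along a curve of slope `m`
-/

namespace Pool.Agent.Work.NumG

namespace E

/-- derivative of `UU` at `x + i t` along `1 + i m` -/
def dU (x t m : NumU.E) : E := .add (.emb (.lnA x t)) (.mul (.emb m) (.yw (.emb x) (.emb t)))

/-- derivative of the value of a digit `1` -/
def dh1 (x t y k m : NumU.E) : E :=
  .sub (.add (.mul .pi (.emb (.add k (.mul m (.sub y (.q 1 1)))))) (dU (.add x y) (.add t k) m))
    (dU x t m)

/-- derivative of the value of a digit `2` -/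
def dh2 (x t y k m : NumU.E) : E :=
  .sub (.sub (dU (.add x y) (.add t k) m)
    (.mul .pi (.emb (.add (.sub t k) (.mul m (.add (.sub x y) (.q 1 2)))))))
    (.mul (.q 2 1) (dU x t m))

/-- derivative of the value of a digit `3` in the hinge `x + i t` in the slot `0`, inner variable
`y + i s` -/
def dh3a (x t y s m : NumU.E) : E :=
  .sub (.sub (dU (.sub y x) (.sub s t) m) (.mul .pi (.emb (.add s (.mul m y))))) (dU x t m)

/-- derivative of the value of a digit `3` in the hinge `x + i t` in the slot `2`, inner variable
`y + i s` -/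
def dh3w (y s x t m : NumU.E) : E :=
  .sub (.add (dU (.add y x) (.add s t) m)
    (.mul .pi (.emb (.add (.sub s t) (.mul m (.sub (.sub y x) (.q 1 2)))))))
    (.mul (.q 2 1) (dU x t m))

/-- derivative of the value of a digit `3` in the inner variable `y + i s` -/
def dh3v (x t y s v k m : NumU.E) : E :=
  .sub (.sub (.sub (dU (.add y v) (.add s k) m) (dU (.sub y x) (.sub s t) m)) (dU y s m))
    (.mul .pi (.emb (.add (.sub (.add t s) k) (.mul m (.sub (.sub (.add x y) v) (.q 1 2))))))

end E

namespace D

/-- derivative of `UU` at `x + i t` along `1 + i m`, fast version -/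
def dU (x t m : E) : D := .add (.xw x t) (.of (.mul m (.yw x t)))

/-- derivative of the value of a digit `1` -/
def dh1 (x t y k m : E) : D :=
  .add (.sub (dU (.add x y) (.add t k) m) (dU x t m))
    (.of (.mul .pi (.add k (.mul m (.sub y (.q 1 1))))))

/-- derivative of the value of a digit `2` -/
def dh2 (x t y k m : E) : D :=
  .sub (.sub (dU (.add x y) (.add t k) m) (.mul (.of (.q 2 1)) (dU x t m)))
    (.of (.mul .pi (.add (.sub t k) (.mul m (.add (.sub x y) (.q 1 2))))))

/-- derivative of the value of a digit `3` in the hinge `x + i t` in the slot `0`, inner variable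
`y + i s` -/
def dh3a (x t y s m : E) : D :=
  .sub (.sub (dU (.sub y x) (.sub s t) m) (dU x t m)) (.of (.mul .pi (.add s (.mul m y))))

/-- derivative of the value of a digit `3` in the hinge `x + i t` in the slot `2`, inner variable
`y + i s` -/
def dh3w (y s x t m : E) : D :=
  .add (.sub (dU (.add y x) (.add s t) m) (.mul (.of (.q 2 1)) (dU x t m)))
    (.of (.mul .pi (.add (.sub s t) (.mul m (.sub (.sub y x) (.q 1 2))))))

/-- derivative of the value of a digit `3` in the inner variable `y + i s` -/
def dh3v (x t y s v k m : E) : D :=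
  .sub (.sub (.sub (dU (.add y v) (.add s k) m) (dU (.sub y x) (.sub s t) m)) (dU y s m))
    (.of (.mul .pi (.add (.sub (.add t s) k) (.mul m (.sub (.sub (.add x y) v) (.q 1 2))))))

end D

end Pool.Agent.Work.NumG
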