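import Pool.Agent.Work.NumU.GenD
import Pool.Agent.Work.MP_b30479_gt.G2.WMMDE

/-!
# Kind `1 | 1`: expressions
-/

namespace Pool.Agent.Work.NumG

namespace M11

/-- a set of positions of a neighbouring hinge: real part in `[y0, y1]`, height in
`[lo, hi] * tr 0 XM cl cr`, units `1/1000` -/
structure KS where
  lo : ℤ
  hi : ℤ
  XM : ℕ
  cl : ℕ
  cr : ℕ
  y0 : ℕ
  y1 : ℕ

/-- a family of rows: target `c`, height `an / ad * T`, weight `W / 100`, length `XM`, dual function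
(nodes `b0`, `bl`, slope `bT / 100` in `T`), ranges of `x` and `T` -/
structure Fam where
  c : ℤ
  an : ℤ
  ad : ℕ
  W : ℤ
  XM : ℕ
  b0 : ℤ
  bl : List (ℤ × ℤ × ℕ)
  bT : ℤ
  x0 : ℕ
  x1 : ℕ
  T0 : ℕ
  T1 : ℕ

def vx : E := .var 0
def vT : E := .var 1
def vy : E := .var 2
def vH : E := .q 16 100
def u1 : E := .q 1 1
def hpi : E := .mul (.q 1 2) .pi
/-- difference of the values of a digit `1` -/
def dV1 (x' t' x t y k : E) : E :=
  .sub (.add (.sub (.uw (.add x' y) (.add t' k)) (.uw (.add x y) (.add t k)))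
    (.mul .pi (.add (.mul (.sub x' x) k) (.mul (.sub t' t) (.sub y (.q 1 1))))))
    (.sub (.uw x' t') (.uw x t))
def sK (k : KS) : E := .mul (.var 3) (E.tr k.XM k.cl k.cr vy)
def tx (F : Fam) : E := E.tr F.XM 150 200 vx
def hx (F : Fam) : E := .mul vH (tx F)
def Tx (F : Fam) : E := .mul vT (tx F)
def aE (F : Fam) : E := .mul (.q F.an F.ad) vT
def bE (F : Fam) : E := .add (E.pl vx F.b0 F.bl) (.mul (.q F.bT 100) vT)
def gA (F : Fam) (k : KS) : E :=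
  .add (dV1 (.q F.c 1000) (aE F) vx (.neg (hx F)) vy (sK k)) (bE F)
def gB (F : Fam) (k : KS) : E :=
  .sub (.add (dV1 (.q F.c 1000) (.neg (aE F)) vx (hx F) vy (sK k)) (.mul .pi (.mul (.q 2 1) (hx F))))
    (bE F)
def TH : E := .add vT vH
def uE : E := .add vx vy
def vE : E := .sub uE u1
/-- excess of the slope for `v ≥ 1/2` at height `r` -/
def rv (r : E) : E := .mul (.mul (.q 12 1) r) (.relu (.sub vE (.q 1 2)))
def aH (F : Fam) (k : KS) : E := .add (E.ab (sK k)) (hx F)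
def fA0 (F : Fam) (k : KS) : E :=
  .mul TH (.add (.mul .pi (.sub vy u1)) (E.mx (.yw uE (.sub (sK k) (hx F))) (.neg hpi)))
def fA1 (F : Fam) (k : KS) : E := .mul TH (.sub (.mul .pi (.sub vy (.q 2 1))) (rv (aH F k)))
def fA2 (F : Fam) : E :=
  .sub (.mul TH (.mul .pi (.sub vy u1))) (.mul (.sub vH vT) (.add .pi (rv (hx F))))
def fA3 (F : Fam) (k : KS) : E :=
  .mul TH (.add (.mul .pi vy) (E.mn (.q 0 1) (E.mx (.yw vE (.add (sK k) (Tx F))) (.neg hpi))))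
def fB0 (F : Fam) (k : KS) : E :=
  .mul TH (.sub (.mul .pi (.sub u1 vy)) (E.mn hpi (.yw uE (.add (sK k) (hx F)))))
def fB1 (F : Fam) (k : KS) : E := .neg (.mul TH (.add (.mul .pi vy) (rv (aH F k))))
def fB2 (F : Fam) : E :=
  .sub (.mul TH (.mul .pi (.sub u1 vy))) (.mul (.sub vH vT) (.add .pi (rv (hx F))))
def fB3 (F : Fam) (k : KS) : E :=
  .neg (.mul TH (.add (.add (.mul .pi vy) (rv (aH F k))) (E.mn (.q 0 1) (.yw vE (.sub (sK k) (Tx F))))))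
def mA (F : Fam) (k : KS) (f : E) : E := .add (gA F k) (.mul (.q F.W 100) f)
def mB (F : Fam) (k : KS) (f : E) : E :=
  .add (gB F k) (.mul (.q F.W 100) (.add f (.mul (.q 32 100) .pi)))
/-- A, `x + y < 1` -/
def A0 (F : Fam) (k : KS) : List E := [mA F k (fA0 F k), .sub uE u1]
/-- A, `x + y ≥ 1` -/
def A1 (F : Fam) (k : KS) : List E :=
  [mA F k (fA1 F k), E.mn (sK k) (mA F k (fA2 F)), E.mn (.sub (sK k) (hx F)) (mA F k (fA3 F k)),
    .sub u1 uE]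
/-- A, `x + y ≥ 1`, nonnegative heights -/
def A1p (F : Fam) (k : KS) : List E :=
  [mA F k (fA2 F), E.mn (.sub (sK k) (hx F)) (mA F k (fA3 F k)), .sub u1 uE]
/-- B, `x + y < 1` -/
def B0 (F : Fam) (k : KS) : List E := [mB F k (fB0 F k), .sub uE u1]
/-- B, `x + y ≥ 1` -/
def B1 (F : Fam) (k : KS) : List E :=
  [mB F k (fB1 F k), E.mn (.neg (sK k)) (mB F k (fB2 F)), E.mn (.sub (sK k) (Tx F)) (mB F k (fB3 F k)),
    .sub u1 uE]
/-- B, `x + y ≥ 1`, nonpositive heights -/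
def B1n (F : Fam) (k : KS) : List E := [mB F k (fB2 F), .sub u1 uE]
/-- A, first order condition -/
def DA (F : Fam) (k : KS) : List D :=
  [.add (.of (gA F k)) (.mul (.of (.q F.W 100)) (D.dh1 vx (.neg (hx F)) vy (sK k) (.q 4 5)))]
/-- derivative of the value of a digit `1`, the vertical slope bounded by `m c` -/
def dhc (x t y k m c : E) : D :=
  .add (.sub (.add (.xw (.add x y) (.add t k)) (.of (.mul m c))) (D.dU x t m))
    (.of (.mul .pi (.add k (.mul m (.sub y (.q 1 1))))))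
/-- B, first order condition, nonnegative heights -/
def DB (F : Fam) (k : KS) : List D :=
  [.add (.of (gB F k)) (.mul (.of (.q F.W 100))
    (.add (D.dh1 vx (hx F) vy (sK k) (.q (-4) 5)) (.of (.mul (.q 8 5) .pi)))),
   .add (.of (gB F k)) (.mul (.of (.q F.W 100))
    (.add (dhc vx (hx F) vy (sK k) (.q (-4) 5) (.add .pi (rv (.add (sK k) (hx F)))))
      (.of (.mul (.q 8 5) .pi))))]
/-- response: the neighbour of B is a mirrored position of `1 | 1`, both are moved to `3/10` -/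
def rsE (F : Fam) : List E :=
  [.sub (.add (.sub (E.V1 (.q 3 10) (.neg vT) (.q 3 10) (.neg (.var 3)))
      (E.V1 vx (hx F) vy (.mul vH (E.tr F.XM 150 200 vy))))
      (.mul .pi (.mul (.q 2 1) (.add (hx F) (.mul vH (E.tr F.XM 150 200 vy))))))
    (.add (bE F) (.add (E.pl vy F.b0 F.bl) (.mul (.q F.bT 100) (.var 3))))]
def off (k : KS) : ℕ := (-k.lo).toNat
def tlo (k : KS) : ℕ := (k.lo + off k).toNat
def thi (k : KS) : ℕ := (k.hi + off k).toNat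

/-! ### sets and families -/

def K1 : KS := ⟨-160, 56, 800, 150, 200, 0, 800⟩
def KU : KS := ⟨160, 160, 800, 150, 200, 400, 800⟩
def K12 : KS := ⟨-240, 82, 800, 160, 290, 0, 800⟩
def K2P : KS := ⟨-80, 82, 800, 160, 290, 0, 800⟩
def K2 : KS := ⟨-18, 79, 800, 160, 290, 0, 800⟩
def K2h : KS := ⟨11, 79, 800, 160, 290, 0, 800⟩
def K2yp : KS := ⟨0, 79, 800, 160, 290, 130, 800⟩
def K2yn : KS := ⟨-18, 0, 800, 160, 290, 300, 800⟩
def K2n : KS := ⟨-18, 0, 800, 160, 290, 130, 300⟩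
def K2y : KS := ⟨-18, 79, 800, 160, 290, 130, 800⟩
def KE : KS := ⟨-66, 0, 700, 140, 350, 0, 700⟩
def KEm : KS := ⟨-66, -16, 700, 140, 350, 0, 700⟩
def K3 : KS := ⟨0, 92, 650, 130, 150, 0, 650⟩
def K3m : KS := ⟨21, 92, 650, 130, 150, 0, 650⟩
def K3pm : KS := ⟨21, 92, 650, 150, 290, 0, 650⟩
def K3y : KS := ⟨0, 92, 650, 130, 150, 130, 650⟩
def K3E : KS := ⟨0, 58, 600, 140, 250, 0, 600⟩
def K3Ey : KS := ⟨0, 58, 600, 140, 250, 130, 600⟩
def KZ : KS := ⟨0, 136, 650, 160, 290, 0, 650⟩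
def KZm : KS := ⟨38, 136, 650, 160, 290, 0, 650⟩
def KZy : KS := ⟨0, 136, 650, 160, 290, 130, 650⟩
def KR : KS := ⟨0, 0, 650, 160, 290, 0, 650⟩
def KL : KS := ⟨-160, 160, 800, 150, 200, 0, 800⟩
def KY : KS := ⟨-76, 136, 650, 160, 290, 0, 130⟩
def S1 : Fam := ⟨50, 1, 3, 0, 800, 72,
  [(10, 5, 1), (20, -1, 2), (30, 1, 2), (50, 3, 10)], 80, 10, 60, 0, 80⟩
def S2 : Fam := ⟨100, 2, 3, 0, 800, 265, [(50, 121, 25), (100, 7, 50)], 140, 50, 150, 0, 80⟩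
def S3 : Fam := ⟨200, 1, 1, 0, 800, 650, [(150, 1, 4), (250, -1, 12)], 250, 150, 400, 0, 80⟩
def G1 : Fam := ⟨200, 1, 1, 0, 800, 750, [(400, 0, 1)], 250, 400, 600, 0, 80⟩
def G2 : Fam := ⟨250, 1, 1, 0, 800, 680, [(600, -3, 1), (640, 3, 4)], 260, 600, 680, 0, 80⟩
def G3 : Fam := ⟨250, 1, 1, 0, 860, 700,
  [(600, -1, 6), (660, -17, 6), (700, 0, 1)], 260, 600, 740, 0, 80⟩
def RS : Fam := ⟨300, 1, 1, 0, 800, 570, [(400, 0, 1), (600, -37, 20)], 270, 400, 800, 0, 80⟩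
def F1 : Fam := ⟨250, 1, 1, 35, 800, 660,
  [(680, -17, 6), (740, -13, 60), (780, -1, 20)], 250, 680, 800, 0, 56⟩
def F2 : Fam := ⟨200, 1, 1, 35, 800, 755,
  [(680, -89, 30), (740, -2, 15), (780, -1, 20)], 200, 680, 800, 0, 65⟩
def F2e : Fam := ⟨200, 1, 1, 25, 800, 630,
  [(680, -3, 1), (740, -1, 10), (780, -2, 5)], 280, 680, 800, 0, 80⟩
def F3 : Fam := ⟨200, 1, 1, 65, 800, 980,
  [(680, -61, 20), (740, -1, 8), (780, -1, 8)], 80, 680, 800, 0, 51⟩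
def F4 : Fam := ⟨350, 1, 1, 60, 800, 930,
  [(680, -8, 3), (740, -19, 12), (780, 7, 20)], 160, 680, 800, 0, 56⟩
def RR : Fam := ⟨250, 1, 1, 60, 860, 1026,
  [(740, -11, 4), (780, -3, 40), (820, -49, 40)], 410, 740, 860, 0, 80⟩
def EE : Fam := ⟨300, 1, 1, 60, 860, 905,
  [(740, -111, 40), (780, -3, 20), (820, -7, 8)], 400, 740, 860, 0, 61⟩
def N1 : Fam := ⟨250, 1, 1, 20, 860, 562,
  [(740, -13, 5), (780, -7, 5), (820, 23, 20)], 280, 740, 860, 0, 65⟩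
def N2 : Fam := ⟨210, 1, 1, 50, 860, 820,
  [(740, -27, 10), (780, -1, 1), (820, 3, 8)], 200, 740, 860, 0, 51⟩
def N3 : Fam := ⟨250, 1, 1, 10, 860, 758,
  [(740, -5, 2), (780, -51, 40), (820, 63, 40)], 260, 740, 860, 60, 80⟩
def M3 : Fam := ⟨350, 1, 1, 12, 860, 956,
  [(740, -29, 10), (780, -7, 4), (820, 5, 2)], 190, 740, 860, 0, 80⟩
def MR : Fam := ⟨400, 1, 1, 12, 860, 883,
  [(740, -53, 20), (780, -27, 20), (820, 21, 10)], 200, 740, 860, 0, 80⟩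
def F3a : Fam := ⟨330, 1, 1, 25, 860, 666,
  [(740, -133, 40), (780, -1, 40), (820, -73, 40)], 180, 740, 860, 0, 65⟩
def F3b : Fam := ⟨350, 1, 1, 40, 860, 783,
  [(740, -133, 40), (780, -59, 40), (820, 17, 10)], 150, 740, 860, 0, 51⟩
def FRa : Fam := ⟨400, 1, 1, 40, 860, 727,
  [(740, -29, 10), (780, -3, 4), (820, -9, 20)], 150, 740, 860, 0, 54⟩
def FRn : Fam := ⟨450, 1, 1, 10, 860, 410,
  [(740, -147, 40), (780, 3, 10), (820, -61, 40)], 290, 740, 860, 0, 54⟩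
def FRb : Fam := ⟨420, 1, 1, 25, 860, 517,
  [(740, -61, 20), (780, -5, 8), (820, -15, 8)], 370, 740, 860, 0, 65⟩

end M11

end Pool.Agent.Work.NumG
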