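import Pool.Agent.Work.MP_b30479_gt.G2.WM11S

/-!
# Kind `1 | 1`: the move to the main path at the same abscissa (bounds for small heights)
-/

namespace Pool.Agent.Work.NumG

namespace M11

open NumU (uu uu_neg)
open NumX (yy)
open MP_b30479_gt.G2 (V1)

theorem sh_le {a b : ℝ} (h : a ≤ b) : Real.sinh a * Real.cosh b ≤ Real.sinh b * Real.cosh a := by
  have h1 : 0 ≤ Real.sinh (b - a) := Real.sinh_nonneg_iff.2 (by linarith only [h])
  rw [Real.sinh_sub] at h1
  linarith only [h1]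

theorem sin_pos' {u : ℝ} (h0 : 0 < u) (h1 : u < 1) : 0 < Real.sin (Real.pi * u) := by
  have := Real.pi_pos
  apply Real.sin_pos_of_pos_of_lt_pi <;> nlinarith only [h0, this, h1]

theorem cos_nonneg' {u : ℝ} (h0 : 0 < u) (h1 : u ≤ 1 / 2) : 0 ≤ Real.cos (Real.pi * u) := by
  have := Real.pi_pos
  apply Real.cos_nonneg_of_mem_Icc
  constructor <;> nlinarith only [this, h0, h1]

theorem cos_nonpos' {u : ℝ} (h0 : 1 / 2 ≤ u) (h1 : u < 1) : Real.cos (Real.pi * u) ≤ 0 := by
  have := Real.pi_pos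
  apply Real.cos_nonpos_of_pi_div_two_le_of_le <;> nlinarith only [h0, this, h1]

/-- increasing slope beyond `1/2` -/
theorem yy_mono {u a b : ℝ} (h0 : 1 / 2 ≤ u) (h1 : u < 1) (h : a ≤ b) : yy u a ≤ yy u b := by
  have hp := Real.pi_pos
  rw [NumX.yy_lnB (by linarith only [h0, h1]) h1, NumX.yy_lnB (by linarith only [h0, h1]) h1]
  unfold NumI.lnB
  rw [neg_le_neg_iff]
  apply Real.arctan_strictMono.monotone
  have s0 := sin_pos' (u := u) (by linarith only [h0, h1]) h1
  have c0 := cos_nonpos' h0 h1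
  have ca := Real.cosh_pos (Real.pi * a)
  have cb := Real.cosh_pos (Real.pi * b)
  rw [div_le_div_iff₀ (by positivity) (by positivity)]
  have h2 := sh_le (a := Real.pi * a) (b := Real.pi * b) (by nlinarith only [h0, h1, h, hp])
  have h3 : 0 ≤ -Real.cos (Real.pi * u) * Real.sin (Real.pi * u) := by
    have : 0 ≤ -Real.cos (Real.pi * u) := by linarith only [c0]
    positivity
  have h4 := mul_nonneg h3 (sub_nonneg.2 h2)
  nlinarith only [h4, h4]

/-- decreasing slope below `1/2` -/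
theorem yy_anti {u a b : ℝ} (h0 : 0 < u) (h1 : u ≤ 1 / 2) (h : a ≤ b) : yy u b ≤ yy u a := by
  have hp := Real.pi_pos
  rw [NumX.yy_lnB h0 (by linarith only [h0, h1]), NumX.yy_lnB h0 (by linarith only [h0, h1])]
  unfold NumI.lnB
  rw [neg_le_neg_iff]
  apply Real.arctan_strictMono.monotone
  have s0 := sin_pos' (u := u) h0 (by linarith only [h0, h1])
  have c0 := cos_nonneg' h0 h1
  have ca := Real.cosh_pos (Real.pi * a)
  have cb := Real.cosh_pos (Real.pi * b)
  rw [div_le_div_iff₀ (by positivity) (by positivity)]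
  have h2 := sh_le (a := Real.pi * a) (b := Real.pi * b) (by nlinarith only [h0, h1, h, hp])
  have h3 : 0 ≤ Real.cos (Real.pi * u) * Real.sin (Real.pi * u) := by positivity
  have h4 := mul_nonneg h3 (sub_nonneg.2 h2)
  nlinarith only [h4, h4]

theorem yy_zero' (u : ℝ) : yy u 0 = 0 := by
  have h3 := NumX.yy_conj u 0
  rw [neg_zero] at h3
  linarith only [h3]

theorem yy_nonneg' {u r : ℝ} (h0 : 1 / 2 ≤ u) (h1 : u < 1) (hr : 0 ≤ r) : 0 ≤ yy u r := by
  rw [← yy_zero' u]
  exact yy_mono h0 h1 hr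

theorem yy_nonpos' {u r : ℝ} (h0 : 0 < u) (h1 : u ≤ 1 / 2) (hr : 0 ≤ r) : yy u r ≤ 0 := by
  rw [← yy_zero' u]
  exact yy_anti h0 h1 hr

theorem mv_lo {u a b m : ℝ} (h0 : 0 < u) (h1 : u < 1) (hab : a ≤ b)
    (h : ∀ r, a ≤ r → r ≤ b → m ≤ yy u r) : m * (b - a) ≤ uu u b - uu u a :=
  MP_b30479_gt.G2.M11S.mv_lo h0 h1 hab fun r r0 r1 => by rw [← NumX.yy_lnB h0 h1]; exact h r r0 r1

theorem mv_up {u a b m : ℝ} (h0 : 0 < u) (h1 : u < 1) (hab : a ≤ b)
    (h : ∀ r, a ≤ r → r ≤ b → yy u r ≤ m) : uu u b - uu u a ≤ m * (b - a) :=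
  MP_b30479_gt.G2.M11S.mv_up h0 h1 hab fun r r0 r1 => by rw [← NumX.yy_lnB h0 h1]; exact h r r0 r1

/-- small slope beyond `1/2` -/
theorem yy_small {v r : ℝ} (h0 : 1 / 2 ≤ v) (h1 : v ≤ 2 / 3) (hr : 0 ≤ r) :
    yy v r ≤ 12 * r * (v - 1 / 2) := by
  have hp := Real.pi_pos
  have hp4 := Real.pi_lt_d4
  rw [NumX.yy_lnB (by linarith only [h0]) (by linarith only [h1])]
  unfold NumI.lnB
  rw [← Real.arctan_neg, ← neg_div, ← neg_mul]
  have s0 := sin_pos' (u := v) (by linarith only [h0]) (by linarith only [h1])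
  have c0 := cos_nonpos' (u := v) h0 (by linarith only [h1])
  have ch := Real.cosh_pos (Real.pi * r)
  have sh : 0 ≤ Real.sinh (Real.pi * r) := Real.sinh_nonneg_iff.2 (by positivity)
  set q := -Real.cos (Real.pi * v) * Real.sinh (Real.pi * r) /
    (Real.sin (Real.pi * v) * Real.cosh (Real.pi * r)) with hq
  have q0 : 0 ≤ q := by
    have : 0 ≤ -Real.cos (Real.pi * v) := by linarith only [c0]
    positivity
  have a1 : Real.arctan q ≤ q := by
    rcases q0.eq_or_lt with h | h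
    · rw [← h, Real.arctan_zero]
    · have h3 : 0 < Real.arctan q := Real.arctan_pos.2 h
      have h4 := Real.lt_tan h3 (Real.arctan_lt_pi_div_two _)
      rw [Real.tan_arctan] at h4
      exact h4.le
  refine a1.trans ?_
  -- `sinh ≤ x cosh`
  have h6 : Real.sinh (Real.pi * r) ≤ Real.pi * r * Real.cosh (Real.pi * r) := by
    have hm : MonotoneOn (fun z : ℝ => z * Real.cosh z - Real.sinh z) (Set.Ici 0) := by
      have hd : ∀ z : ℝ, HasDerivAt (fun z : ℝ => z * Real.cosh z - Real.sinh z)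
          (1 * Real.cosh z + z * Real.sinh z - Real.cosh z) z := fun z =>
        ((hasDerivAt_id z).mul (Real.hasDerivAt_cosh z)).sub (Real.hasDerivAt_sinh z)
      apply monotoneOn_of_deriv_nonneg (convex_Ici 0)
      · exact fun z _ => (hd z).continuousAt.continuousWithinAt
      · exact fun z _ => (hd z).differentiableAt.differentiableWithinAt
      · intro z hz
        rw [interior_Ici] at hz
        rw [(hd z).deriv]
        have h7 : 0 ≤ z * Real.sinh z :=
          mul_nonneg (le_of_lt hz) (Real.sinh_nonneg_iff.2 (le_of_lt hz))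
        linarith only [h7]
    have h8 := hm (Set.mem_Ici.2 le_rfl) (Set.mem_Ici.2 (show 0 ≤ Real.pi * r by positivity))
      (by positivity)
    simp only [zero_mul, Real.sinh_zero, sub_zero] at h8
    linarith only [h8]
  have z0 : 0 ≤ Real.pi * (v - 1 / 2) := mul_nonneg hp.le (by linarith only [h0])
  have z1 : Real.pi * (v - 1 / 2) ≤ 53 / 100 := by nlinarith only [h1, h0, hp4]
  have h7 : -Real.cos (Real.pi * v) ≤ Real.pi * (v - 1 / 2) := by
    have h8 : -Real.cos (Real.pi * v) = Real.sin (Real.pi * (v - 1 / 2)) := by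
      rw [show Real.pi * (v - 1 / 2) = Real.pi * v - Real.pi / 2 by ring, Real.sin_sub_pi_div_two]
    rw [h8]
    exact Real.sin_le z0
  have h9 : 859 / 1000 ≤ Real.sin (Real.pi * v) := by
    have h8 : Real.sin (Real.pi * v) = Real.cos (Real.pi * (v - 1 / 2)) := by
      rw [show Real.pi * (v - 1 / 2) = Real.pi * v - Real.pi / 2 by ring, Real.cos_sub_pi_div_two]
    rw [h8]
    have h10 := Real.one_sub_sq_div_two_le_cos (x := Real.pi * (v - 1 / 2))
    nlinarith only [z1, h8, h10, s0, z0]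
  rw [hq, div_le_iff₀ (by positivity)]
  have hpp : Real.pi * Real.pi ≤ 9.87 := by nlinarith only [hp4, hp]
  have b1 : -Real.cos (Real.pi * v) * Real.sinh (Real.pi * r) ≤
      Real.pi * (v - 1 / 2) * (Real.pi * r * Real.cosh (Real.pi * r)) :=
    mul_le_mul h7 h6 sh z0
  have b2 : 0 ≤ r * (v - 1 / 2) * Real.cosh (Real.pi * r) := by
    have : 0 ≤ v - 1 / 2 := by linarith only [h0]
    positivity
  have b3 : Real.pi * (v - 1 / 2) * (Real.pi * r * Real.cosh (Real.pi * r)) =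
      Real.pi * Real.pi * (r * (v - 1 / 2) * Real.cosh (Real.pi * r)) := by ring
  have b4 : Real.pi * Real.pi * (r * (v - 1 / 2) * Real.cosh (Real.pi * r)) ≤
      9.87 * (r * (v - 1 / 2) * Real.cosh (Real.pi * r)) := mul_le_mul_of_nonneg_right hpp b2
  have b5 : 12 * r * (v - 1 / 2) * (Real.sin (Real.pi * v) * Real.cosh (Real.pi * r)) =
      12 * Real.sin (Real.pi * v) * (r * (v - 1 / 2) * Real.cosh (Real.pi * r)) := by ring
  rw [b5]
  have b6 : 9.87 * (r * (v - 1 / 2) * Real.cosh (Real.pi * r)) ≤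
      12 * Real.sin (Real.pi * v) * (r * (v - 1 / 2) * Real.cosh (Real.pi * r)) :=
    mul_le_mul_of_nonneg_right (by linarith only [s0, h9]) b2
  linarith only [b1, b4, b6]

theorem uu_abs (v r : ℝ) : uu v |r| = uu v r := by
  rcases abs_cases r with ⟨h, -⟩ | ⟨h, -⟩ <;> rw [h]
  exact uu_neg v r

/-- the slope right of an integer, `0 ≤ r₁ ≤ r₂` -/
theorem w_lo {v a b : ℝ} (v0 : 0 ≤ v) (v1 : v ≤ 2 / 3) (a0 : 0 ≤ a) (hab : a ≤ b) :
    min 0 (yy v b) * (b - a) ≤ uu v b - uu v a := by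
  have hp := Real.pi_pos
  rcases v0.eq_or_lt with h | h
  · rw [← h, NumX.uu_zero_left, NumX.uu_zero_left, abs_of_nonneg a0, abs_of_nonneg (a0.trans hab)]
    rcases (a0.trans hab).eq_or_lt with hb | hb
    · have ha : a = 0 := by linarith only [a0, hab, hb]
      rw [← hb, ha]
      simp
    · rw [NumX.yy_zero_left hb]
      have : min (0 : ℝ) (-(Real.pi / 2)) = -(Real.pi / 2) := min_eq_right (by linarith only [hp])
      rw [this]
      linarith only []
  · rcases le_total v (1 / 2) with hv | hv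
    · refine mv_lo h (by linarith only [h, hv]) hab fun r r0 r1 => ?_
      exact (min_le_right _ _).trans (yy_anti h hv r1)
    · refine mv_lo h (by linarith only [v1, h]) hab fun r r0 r1 => ?_
      exact (min_le_left _ _).trans (yy_nonneg' hv (by linarith only [v1, h]) (a0.trans r0))

theorem w_up {v a b : ℝ} (v0 : 0 ≤ v) (v1 : v ≤ 2 / 3) (a0 : 0 ≤ a) (hab : a ≤ b) :
    uu v b - uu v a ≤ (min 0 (yy v a) + 12 * b * max (v - 1 / 2) 0) * (b - a) := by
  have hp := Real.pi_pos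
  have hb0 := a0.trans hab
  rcases v0.eq_or_lt with h | h
  · rw [← h, NumX.uu_zero_left, NumX.uu_zero_left, abs_of_nonneg a0, abs_of_nonneg hb0]
    have e1 : max ((0 : ℝ) - 1 / 2) 0 = 0 := max_eq_right (by norm_num)
    rw [e1]
    rcases a0.eq_or_lt with ha | ha
    · rw [← ha, yy_zero']
      simp only [min_self]
      nlinarith only [a0, hp, hab]
    · rw [NumX.yy_zero_left ha]
      have : min (0 : ℝ) (-(Real.pi / 2)) = -(Real.pi / 2) := min_eq_right (by linarith only [hp])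
      rw [this]
      linarith only []
  · rcases le_total v (1 / 2) with hv | hv
    · have e1 : max (v - 1 / 2) 0 = 0 := max_eq_right (by linarith only [hv])
      rw [e1, mul_zero, add_zero, min_eq_right (yy_nonpos' h hv a0)]
      exact mv_up h (by linarith only [h, hv]) hab fun r r0 r1 => yy_anti h hv r0
    · have e1 : max (v - 1 / 2) 0 = v - 1 / 2 := max_eq_left (by linarith only [hv])
      rw [e1, min_eq_left (yy_nonneg' hv (by linarith only [v1, h]) a0), zero_add]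
      refine mv_up h (by linarith only [v1, h]) hab fun r r0 r1 => ?_
      refine (yy_small hv v1 (a0.trans r0)).trans ?_
      have : 0 ≤ v - 1 / 2 := by linarith only [hv]
      gcongr

theorem w_lo' {v a b : ℝ} (v0 : 0 ≤ v) (v1 : v ≤ 2 / 3) (a0 : 0 ≤ a) (hab : a ≤ b) :
    -(Real.pi / 2) * (b - a) ≤ uu v b - uu v a := by
  have hp := Real.pi_pos
  refine le_trans (mul_le_mul_of_nonneg_right ?_ (by linarith only [hab])) (w_lo v0 v1 a0 hab)
  refine le_min (by linarith only [hp]) ?_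
  exact (abs_le.1 (NumX.abs_yy_le v0 (by linarith only [v1]))).1

theorem w_up' {v a b : ℝ} (v0 : 0 ≤ v) (v1 : v ≤ 2 / 3) (a0 : 0 ≤ a) (hab : a ≤ b) :
    uu v b - uu v a ≤ 12 * b * max (v - 1 / 2) 0 * (b - a) := by
  refine (w_up v0 v1 a0 hab).trans (mul_le_mul_of_nonneg_right ?_ (by linarith only [hab]))
  linarith only [min_le_left 0 (yy v a)]

/-- `uu` beyond `1` -/
theorem uu_far (u r : ℝ) : uu u r = uu (u - 1) |r| + Real.pi * |r| := by
  rw [NumX.uu_sub_one, uu_abs]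

section flip

set_option linter.unusedSectionVars false

variable {x y s T H τ : ℝ}

/-- first difference -/
theorem fA_eq : V1 ⟨x, T * τ⟩ ⟨y, s⟩ - V1 ⟨x, -(H * τ)⟩ ⟨y, s⟩ =
    uu (x + y) (s + T * τ) - uu (x + y) (s - H * τ) + (uu x (H * τ) - uu x (T * τ)) +
      Real.pi * (T + H) * (y - 1) * τ := by
  rw [MP_b30479_gt.G2.M11S.V1_form, MP_b30479_gt.G2.M11S.V1_form, uu_neg, show T * τ + s = s + T * τ by ring,
    show -(H * τ) + s = s - H * τ by ring]
  ring

theorem fB_eq : V1 ⟨x, -(T * τ)⟩ ⟨y, s⟩ - V1 ⟨x, H * τ⟩ ⟨y, s⟩ =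
    -(uu (x + y) (s + H * τ) - uu (x + y) (s - T * τ)) + (uu x (H * τ) - uu x (T * τ)) +
      Real.pi * (T + H) * (1 - y) * τ := by
  rw [MP_b30479_gt.G2.M11S.V1_form, MP_b30479_gt.G2.M11S.V1_form, uu_neg, show H * τ + s = s + H * τ by ring,
    show -(T * τ) + s = s - T * τ by ring]
  ring

theorem uu_x (x0 : 1 / 2 ≤ x) (x1 : x < 1) (T0 : 0 ≤ T) (TH : T ≤ H) (t0 : 0 ≤ τ) :
    0 ≤ uu x (H * τ) - uu x (T * τ) := by
  have h := mv_lo (u := x) (m := 0) (by linarith only [x0, x1]) x1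
    (show T * τ ≤ H * τ from mul_le_mul_of_nonneg_right TH t0) fun r r0 _ =>
      yy_nonneg' x0 x1 ((mul_nonneg T0 t0).trans r0)
  linarith only [h]

variable (x0 : 1 / 2 ≤ x) (x1 : x < 1) (T0 : 0 ≤ T) (TH : T ≤ H) (t0 : 0 ≤ τ) (y0 : 0 ≤ y)
  (u2 : x + y ≤ 5 / 3)
include x0 x1 T0 TH t0 y0

/-- A, `u < 1` -/
theorem flA0 (u1 : x + y < 1) : τ * ((T + H) * (Real.pi * (y - 1) +
    max (yy (x + y) (s - H * τ)) (-(Real.pi / 2)))) ≤
    V1 ⟨x, T * τ⟩ ⟨y, s⟩ - V1 ⟨x, -(H * τ)⟩ ⟨y, s⟩ := by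
  have h1 := uu_x x0 x1 T0 TH t0
  have h2 := mul_nonneg T0 t0
  have h3 := mul_nonneg (T0.trans TH) t0
  have h4 := mv_lo (u := x + y) (m := yy (x + y) (s - H * τ)) (by linarith only [x0, x1, y0]) u1
    (show s - H * τ ≤ s + T * τ by linarith only [h2, h3]) fun r r0 _ => yy_mono (by linarith only [x0, y0]) u1 r0
  have h5 := abs_le.1 (NumX.abs_yy_le (x := x + y) (t := s - H * τ) (by linarith only [x0, x1, y0]) u1.le)
  rw [max_eq_left (by linarith only [h5, h5.1]), fA_eq]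
  nlinarith only [h1, h4, h4]

/-- B, `u < 1` -/
theorem flB0 (u1 : x + y < 1) : τ * ((T + H) * (Real.pi * (1 - y) -
    min (Real.pi / 2) (yy (x + y) (s + H * τ)))) ≤
    V1 ⟨x, -(T * τ)⟩ ⟨y, s⟩ - V1 ⟨x, H * τ⟩ ⟨y, s⟩ := by
  have h1 := uu_x x0 x1 T0 TH t0
  have h2 := mul_nonneg T0 t0
  have h3 := mul_nonneg (T0.trans TH) t0
  have h4 := mv_up (u := x + y) (m := yy (x + y) (s + H * τ)) (by linarith only [x0, x1, y0]) u1
    (show s - T * τ ≤ s + H * τ by linarith only [h2, h3]) fun r _ r1 => yy_mono (by linarith only [x0, y0]) u1 r1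
  have h5 := abs_le.1 (NumX.abs_yy_le (x := x + y) (t := s + H * τ) (by linarith only [x0, x1, y0]) u1.le)
  rw [min_eq_right (by linarith only [h5, h5.2]), fB_eq]
  nlinarith only [h1, h4, h4]

include u2

/-- A, `u ≥ 1`, every `s` -/
theorem flA1 (u1 : 1 ≤ x + y) : τ * ((T + H) * (Real.pi * (y - 2) -
    12 * (|s| + H * τ) * max (x + y - 1 - 1 / 2) 0)) ≤
    V1 ⟨x, T * τ⟩ ⟨y, s⟩ - V1 ⟨x, -(H * τ)⟩ ⟨y, s⟩ := by
  have hp := Real.pi_pos
  have h1 := uu_x x0 x1 T0 TH t0
  have h2 := mul_nonneg T0 t0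
  have h3 := mul_nonneg (T0.trans TH) t0
  have hm : 0 ≤ max (x + y - 1 - 1 / 2) 0 := le_max_right _ _
  rw [fA_eq, uu_far, uu_far (x + y) (s - H * τ)]
  have k0 := abs_nonneg (s + T * τ)
  have k1 := abs_nonneg (s - H * τ)
  have k2 : |s - H * τ| ≤ |s| + H * τ := (abs_sub _ _).trans (by rw [abs_of_nonneg h3])
  have k3 : |s - H * τ| - |s + T * τ| ≤ (T + H) * τ := by
    have := abs_sub_abs_le_abs_sub (s - H * τ) (s + T * τ)
    rw [show s - H * τ - (s + T * τ) = -((T + H) * τ) by ring, abs_neg,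
      abs_of_nonneg (show 0 ≤ (T + H) * τ by nlinarith only [h2, h3])] at this
    exact this
  set m := max (x + y - 1 - 1 / 2) 0
  have hTH : 0 ≤ (T + H) * τ := by nlinarith only [h2, h3]
  rcases le_total |s - H * τ| |s + T * τ| with h | h
  · have h4 := w_lo' (v := x + y - 1) (by linarith only [u1]) (by linarith only [u2]) k1 h
    have h5 : 0 ≤ 12 * (|s| + H * τ) * m := by positivity
    have h6 := mul_nonneg hTH h5
    nlinarith only [h1, h4, h6, x0, x1, hp, h2, h3, k3]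
  · have h4 := w_up' (v := x + y - 1) (by linarith only [u1]) (by linarith only [u2]) k0 h
    have h5 : 12 * |s - H * τ| * m ≤ 12 * (|s| + H * τ) * m := by gcongr
    have h7 : 0 ≤ 12 * |s - H * τ| * m := by positivity
    have h8 : 12 * |s - H * τ| * m * (|s - H * τ| - |s + T * τ|) ≤
        12 * (|s| + H * τ) * m * ((T + H) * τ) :=
      mul_le_mul h5 k3 (by linarith only [h]) (h7.trans h5)
    nlinarith only [h1, h4, h8, x0, x1, hp, k3]

/-- A, `u ≥ 1`, `s ≥ 0` -/
theorem flA2 (u1 : 1 ≤ x + y) (hs : 0 ≤ s) : τ * ((T + H) * (Real.pi * (y - 1)) -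
    (H - T) * (Real.pi + 12 * (H * τ) * max (x + y - 1 - 1 / 2) 0)) ≤
    V1 ⟨x, T * τ⟩ ⟨y, s⟩ - V1 ⟨x, -(H * τ)⟩ ⟨y, s⟩ := by
  have hp := Real.pi_pos
  have h1 := uu_x x0 x1 T0 TH t0
  have h2 := mul_nonneg T0 t0
  have h3 := mul_nonneg (T0.trans TH) t0
  have hm : 0 ≤ max (x + y - 1 - 1 / 2) 0 := le_max_right _ _
  rw [fA_eq, uu_far, uu_far (x + y) (s - H * τ)]
  have k1 := abs_nonneg (s - H * τ)
  rw [abs_of_nonneg (show 0 ≤ s + T * τ by linarith only [hs, h2])]
  set m := max (x + y - 1 - 1 / 2) 0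
  have hTH : 0 ≤ (H - T) * τ := mul_nonneg (by linarith only [TH]) t0
  rcases le_total |s - H * τ| (s + T * τ) with h | h
  · have h4 := w_lo' (v := x + y - 1) (by linarith only [u1]) (by linarith only [u2]) k1 h
    have h5 : 0 ≤ 12 * (H * τ) * m := by positivity
    have h6 := mul_nonneg hTH h5
    nlinarith only [h1, h4, h6, x0, x1, hp, hTH, h]
  · have hsH : s < H * τ ∨ s + T * τ = |s - H * τ| := by
      rcases lt_or_ge s (H * τ) with h6 | h6
      · exact Or.inl h6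
      · refine Or.inr (le_antisymm h ?_)
        rw [abs_of_nonneg (by linarith only [h6])]
        linarith only [h2, h3]
    rcases hsH with h6 | h6
    · rw [abs_of_nonpos (show s - H * τ ≤ 0 by linarith only [h6])] at h ⊢
      have h4 := w_up' (v := x + y - 1) (by linarith only [u1]) (by linarith only [u2])
        (show 0 ≤ s + T * τ by linarith only [hs, h2]) h
      have h5 : 12 * (-(s - H * τ)) * m ≤ 12 * (H * τ) * m := by
        gcongr
        linarith only [hs]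
      have h7 : 0 ≤ 12 * (-(s - H * τ)) * m := by
        have : 0 ≤ -(s - H * τ) := by linarith only [h6]
        positivity
      have k3 : -(s - H * τ) - (s + T * τ) ≤ (H - T) * τ := by nlinarith only [hs]
      have h8 : 12 * (-(s - H * τ)) * m * (-(s - H * τ) - (s + T * τ)) ≤
          12 * (H * τ) * m * ((H - T) * τ) :=
        mul_le_mul h5 k3 (by linarith only [h]) (h7.trans h5)
      nlinarith only [h1, h4, h8, x0, x1, hs, hp]
    · rw [← h6]
      have h5 : 0 ≤ 12 * (H * τ) * m := by positivity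
      have h7 := mul_nonneg hTH h5
      nlinarith only [h1, h7, x0, x1, hp, hTH]

/-- A, `u ≥ 1`, `s ≥ H τ` -/
theorem flA3 (u1 : 1 ≤ x + y) (hs : H * τ ≤ s) : τ * ((T + H) * (Real.pi * y +
    min 0 (max (yy (x + y - 1) (s + T * τ)) (-(Real.pi / 2))))) ≤
    V1 ⟨x, T * τ⟩ ⟨y, s⟩ - V1 ⟨x, -(H * τ)⟩ ⟨y, s⟩ := by
  have hp := Real.pi_pos
  have h1 := uu_x x0 x1 T0 TH t0
  have h2 := mul_nonneg T0 t0
  have h3 := mul_nonneg (T0.trans TH) t0
  rw [fA_eq, uu_far, uu_far (x + y) (s - H * τ)]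
  rw [abs_of_nonneg (show 0 ≤ s + T * τ by linarith only [hs, h2, h3]), abs_of_nonneg (show 0 ≤ s - H * τ by linarith only [hs])]
  have h4 := w_lo (v := x + y - 1) (by linarith only [u1]) (by linarith only [u2]) (show 0 ≤ s - H * τ by linarith only [hs])
    (show s - H * τ ≤ s + T * τ by linarith only [h2, h3])
  have h5 := abs_le.1 (NumX.abs_yy_le (x := x + y - 1) (t := s + T * τ) (by linarith only [u1]) (by linarith only [x0, x1, u2]))
  rw [max_eq_left (by linarith only [h5, h5.1])]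
  nlinarith only [h1, h4, h4]

/-- B, `u ≥ 1`, every `s` -/
theorem flB1 (u1 : 1 ≤ x + y) : τ * (-((T + H) * (Real.pi * y +
    12 * (|s| + H * τ) * max (x + y - 1 - 1 / 2) 0))) ≤
    V1 ⟨x, -(T * τ)⟩ ⟨y, s⟩ - V1 ⟨x, H * τ⟩ ⟨y, s⟩ := by
  have hp := Real.pi_pos
  have h1 := uu_x x0 x1 T0 TH t0
  have h2 := mul_nonneg T0 t0
  have h3 := mul_nonneg (T0.trans TH) t0
  have hm : 0 ≤ max (x + y - 1 - 1 / 2) 0 := le_max_right _ _
  rw [fB_eq, uu_far, uu_far (x + y) (s - T * τ)]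
  have k0 := abs_nonneg (s - T * τ)
  have k1 := abs_nonneg (s + H * τ)
  have k2 : |s + H * τ| ≤ |s| + H * τ := (abs_add_le _ _).trans (by rw [abs_of_nonneg h3])
  have k3 : |s + H * τ| - |s - T * τ| ≤ (T + H) * τ := by
    have := abs_sub_abs_le_abs_sub (s + H * τ) (s - T * τ)
    rw [show s + H * τ - (s - T * τ) = (T + H) * τ by ring,
      abs_of_nonneg (show 0 ≤ (T + H) * τ by nlinarith only [h2, h3])] at this
    exact this
  set m := max (x + y - 1 - 1 / 2) 0
  have hTH : 0 ≤ (T + H) * τ := by nlinarith only [h2, h3]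
  rcases le_total |s + H * τ| |s - T * τ| with h | h
  · have h4 := w_lo' (v := x + y - 1) (by linarith only [u1]) (by linarith only [u2]) k1 h
    have h5 : 0 ≤ 12 * (|s| + H * τ) * m := by positivity
    have h6 := mul_nonneg hTH h5
    nlinarith only [h1, h4, h6, x0, x1, hp, h2, h3, k3]
  · have h4 := w_up' (v := x + y - 1) (by linarith only [u1]) (by linarith only [u2]) k0 h
    have h5 : 12 * |s + H * τ| * m ≤ 12 * (|s| + H * τ) * m := by gcongr
    have h7 : 0 ≤ 12 * |s + H * τ| * m := by positivity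
    have h8 : 12 * |s + H * τ| * m * (|s + H * τ| - |s - T * τ|) ≤
        12 * (|s| + H * τ) * m * ((T + H) * τ) :=
      mul_le_mul h5 k3 (by linarith only [h]) (h7.trans h5)
    nlinarith only [h1, h4, h8, x0, x1, hp, k3]

/-- B, `u ≥ 1`, `s ≤ 0` -/
theorem flB2 (u1 : 1 ≤ x + y) (hs : s ≤ 0) : τ * ((T + H) * (Real.pi * (1 - y)) -
    (H - T) * (Real.pi + 12 * (H * τ) * max (x + y - 1 - 1 / 2) 0)) ≤
    V1 ⟨x, -(T * τ)⟩ ⟨y, s⟩ - V1 ⟨x, H * τ⟩ ⟨y, s⟩ := by
  have hp := Real.pi_pos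
  have h1 := uu_x x0 x1 T0 TH t0
  have h2 := mul_nonneg T0 t0
  have h3 := mul_nonneg (T0.trans TH) t0
  have hm : 0 ≤ max (x + y - 1 - 1 / 2) 0 := le_max_right _ _
  rw [fB_eq, uu_far, uu_far (x + y) (s - T * τ)]
  have k1 := abs_nonneg (s + H * τ)
  rw [abs_of_nonpos (show s - T * τ ≤ 0 by linarith only [hs, h2])]
  set m := max (x + y - 1 - 1 / 2) 0
  have hTH : 0 ≤ (H - T) * τ := mul_nonneg (by linarith only [TH]) t0
  rcases le_total |s + H * τ| (-(s - T * τ)) with h | h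
  · have h4 := w_lo' (v := x + y - 1) (by linarith only [u1]) (by linarith only [u2]) k1 h
    have h5 : 0 ≤ 12 * (H * τ) * m := by positivity
    have h6 := mul_nonneg hTH h5
    nlinarith only [h1, h4, h6, x0, x1, hp, hTH, h]
  · have hsH : 0 < s + H * τ ∨ -(s - T * τ) = |s + H * τ| := by
      rcases lt_or_ge 0 (s + H * τ) with h6 | h6
      · exact Or.inl h6
      · refine Or.inr (le_antisymm h ?_)
        rw [abs_of_nonpos h6]
        linarith only [h2, h3]
    rcases hsH with h6 | h6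
    · rw [abs_of_pos h6] at h ⊢
      have h4 := w_up' (v := x + y - 1) (by linarith only [u1]) (by linarith only [u2])
        (show 0 ≤ -(s - T * τ) by linarith only [hs, h2]) h
      have h5 : 12 * (s + H * τ) * m ≤ 12 * (H * τ) * m := by
        gcongr
        linarith only [hs]
      have h7 : 0 ≤ 12 * (s + H * τ) * m := by positivity
      have k3 : s + H * τ - -(s - T * τ) ≤ (H - T) * τ := by nlinarith only [hs]
      have h8 : 12 * (s + H * τ) * m * (s + H * τ - -(s - T * τ)) ≤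
          12 * (H * τ) * m * ((H - T) * τ) :=
        mul_le_mul h5 k3 (by linarith only [h]) (h7.trans h5)
      nlinarith only [h1, h4, h8, x0, x1, hs, hp]
    · rw [← h6]
      have h5 : 0 ≤ 12 * (H * τ) * m := by positivity
      have h7 := mul_nonneg hTH h5
      nlinarith only [h1, h7, x0, x1, hp, hTH]

/-- B, `u ≥ 1`, `s ≥ T τ` -/
theorem flB3 (u1 : 1 ≤ x + y) (hs : T * τ ≤ s) : τ * (-((T + H) * (Real.pi * y +
    12 * (|s| + H * τ) * max (x + y - 1 - 1 / 2) 0 + min 0 (yy (x + y - 1) (s - T * τ))))) ≤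
    V1 ⟨x, -(T * τ)⟩ ⟨y, s⟩ - V1 ⟨x, H * τ⟩ ⟨y, s⟩ := by
  have hp := Real.pi_pos
  have h1 := uu_x x0 x1 T0 TH t0
  have h2 := mul_nonneg T0 t0
  have h3 := mul_nonneg (T0.trans TH) t0
  rw [fB_eq, uu_far, uu_far (x + y) (s - T * τ)]
  rw [abs_of_nonneg (show 0 ≤ s + H * τ by linarith only [hs, h2, h3]), abs_of_nonneg (show 0 ≤ s - T * τ by linarith only [hs]),
    abs_of_nonneg (show 0 ≤ s by linarith only [hs, h2])]
  have h4 := w_up (v := x + y - 1) (by linarith only [u1]) (by linarith only [u2]) (show 0 ≤ s - T * τ by linarith only [hs])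
    (show s - T * τ ≤ s + H * τ by linarith only [h2, h3])
  nlinarith only [h1, h4, h4]

end flip

end M11

end Pool.Agent.Work.NumG
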