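import Pool.Agent.Work.MP_b30479_gt.G2.WMMN
import Pool.Agent.Work.MP_b30479_gt.G2.WMMDE
import Pool.Agent.Work.MP_b30479_gt.G2.M3N

/-!
# Mirrored paths: the first order condition at a maximiser

A hinge (or an inner variable) of a maximiser which is in the interior of its mirrored path may be
moved along the mirrored path; hence the derivative of the values of its regions minus the
derivative of the penalty vanishes (`Md.foc`, `MM.foci_dn`, `MM.foci_up`).  The derivatives of the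
values of the digits `1`, `2`, `3` along a curve of slope `m`: `dh1`, `dh2`, `dh3a`, `dh3w`, `dh3v`,
with expressions for the numerics.
-/

namespace Pool.Agent.Work.MP_b30479_gt.G2

open Finset VOL Filter Topology

/-! ### derivatives of the values along a curve with tangent `1 + i m` -/

/-- derivative of `UU` along a curve with tangent `1 + i m` -/
noncomputable def dU (u : ℂ) (m : ℝ) : ℝ := LL u + m * YY u

theorem hasDerivAt_dU {g : ℝ → ℂ} {m t : ℝ} (hg : HasDerivAt g (1 + m * Complex.I) t)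
    (h0 : (g t).im ≠ 0 ∨ g t ∈ strip) : HasDerivAt (fun t => UU (g t)) (dU (g t) m) t := by
  refine (hasDerivAt_UU hg h0).congr_deriv ?_
  unfold dU
  simp

/-- the value is differentiable at `u`: off the real points outside `(0, 1)` -/
def DOk (u : ℂ) : Prop := u.im ≠ 0 ∨ u ∈ strip

/-- derivative of `V1` in the first variable -/
noncomputable def dh1 (u k : ℂ) (m : ℝ) : ℝ :=
  Real.pi * (k.im + m * (k.re - 1)) + dU (u + k) m - dU u m

/-- derivative of `V2` in the first variable -/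
noncomputable def dh2 (u k : ℂ) (m : ℝ) : ℝ :=
  -(Real.pi * (u.im - k.im + m * (u.re - k.re + 1 / 2))) + dU (u + k) m - 2 * dU u m

/-- derivative of `V3` in the hinge in the slot `0`, inner variable `v` -/
noncomputable def dh3a (u v : ℂ) (m : ℝ) : ℝ :=
  -(Real.pi * (v.im + m * v.re)) + dU (v - u) m - dU u m

/-- derivative of `V3` in the hinge `w` in the slot `2`, inner variable `v` -/
noncomputable def dh3w (v w : ℂ) (m : ℝ) : ℝ :=
  Real.pi * (v.im - w.im + m * (v.re - w.re - 1 / 2)) + dU (v + w) m - 2 * dU w m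

/-- derivative of `V3` in the inner variable -/
noncomputable def dh3v (u v w : ℂ) (m : ℝ) : ℝ :=
  -(Real.pi * (u.im + v.im - w.im + m * (u.re + v.re - w.re - 1 / 2))) + dU (v + w) m -
    dU (v - u) m - dU v m

section

variable {g : ℝ → ℂ} {m t : ℝ}

theorem hasDerivAt_im' {f : ℝ → ℂ} {d : ℂ} (hf : HasDerivAt f d t) :
    HasDerivAt (fun t => (f t).im) d.im t := Complex.imCLM.hasFDerivAt.comp_hasDerivAt t hf

theorem hasDerivAt_V1 (hg : HasDerivAt g (1 + m * Complex.I) t) (k : ℂ) (h1 : DOk (g t))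
    (h2 : DOk (g t + k)) : HasDerivAt (fun t => V1 (g t) k) (dh1 (g t) k m) t := by
  have a1 := hasDerivAt_dU hg h1
  have a2 := hasDerivAt_dU (hg.add_const k) h2
  have a3 := (hasDerivAt_im' (((hg.mul_const k).sub hg).sub_const k)).const_mul Real.pi
  refine (((a3.add a2).sub a1).sub_const (UU k)).congr_deriv ?_
  unfold dh1
  simp
  ring

theorem hasDerivAt_V2 (hg : HasDerivAt g (1 + m * Complex.I) t) (k : ℂ) (h1 : DOk (g t))
    (h2 : DOk (g t + k)) : HasDerivAt (fun t => V2 (g t) k) (dh2 (g t) k m) t := by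
  have a1 := hasDerivAt_dU hg h1
  have a2 := hasDerivAt_dU (hg.add_const k) h2
  have a4 : HasDerivAt (fun t => (g t - k) ^ 2 + g t + k)
      (2 * (g t - k) * (1 + m * Complex.I) + (1 + m * Complex.I)) t := by
    have := (((hg.sub_const k).fun_pow 2).add hg).add_const k
    refine this.congr_deriv ?_
    norm_num
  have a3 := ((hasDerivAt_im' a4).const_mul (Real.pi / 2)).neg
  refine (((a3.add a2).sub (a1.const_mul 2)).sub_const (2 * UU k)).congr_deriv ?_
  unfold dh2
  simp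
  ring

theorem hasDerivAt_V3a (hg : HasDerivAt g (1 + m * Complex.I) t) (v w : ℂ) (h1 : DOk (g t))
    (h2 : DOk (v - g t)) : HasDerivAt (fun t => V3 (g t) v w) (dh3a (g t) v m) t := by
  have a1 := hasDerivAt_dU hg h1
  have e : ∀ u, UU (v - u) = UU (v - u) := fun _ => rfl
  have a2 : HasDerivAt (fun t => UU (v - g t)) (-dU (v - g t) m) t := by
    refine (hasDerivAt_UU (hg.const_sub v) h2).congr_deriv ?_
    unfold dU
    simp
    ring
  have a4 : HasDerivAt (fun t => 2 * g t * v + (v - w) ^ 2 - v + w)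
      (2 * (1 + m * Complex.I) * v) t := by
    have := (((hg.const_mul 2).mul_const v).add_const ((v - w) ^ 2 - v + w))
    refine (this.congr_of_eventuallyEq (Eventually.of_forall fun s => ?_)).congr_deriv rfl
    ring
  have a3 := ((hasDerivAt_im' a4).const_mul (Real.pi / 2)).neg
  refine ((((a3.add_const (UU (v + w))).sub a2).sub_const (UU v)).sub a1 |>.sub_const
    (2 * UU w)).congr_deriv ?_
  unfold dh3a
  simp
  ring

theorem hasDerivAt_V3w (hg : HasDerivAt g (1 + m * Complex.I) t) (u v : ℂ) (h1 : DOk (g t))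
    (h2 : DOk (v + g t)) : HasDerivAt (fun t => V3 u v (g t)) (dh3w v (g t) m) t := by
  have a1 := hasDerivAt_dU hg h1
  have a2 := hasDerivAt_dU (hg.const_add v) h2
  have a4 : HasDerivAt (fun t => 2 * u * v + (v - g t) ^ 2 - v + g t)
      (-(2 * (v - g t) * (1 + m * Complex.I)) + (1 + m * Complex.I)) t := by
    have := ((((hg.const_sub v).fun_pow 2).const_add (2 * u * v)).sub_const v).add hg
    refine this.congr_deriv ?_
    norm_num
    ring
  have a3 := ((hasDerivAt_im' a4).const_mul (Real.pi / 2)).neg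
  refine (((((a3.add a2).sub_const (UU (v - u))).sub_const (UU v)).sub_const (UU u)).sub
    (a1.const_mul 2)).congr_deriv ?_
  unfold dh3w
  simp
  ring

theorem hasDerivAt_V3v (hg : HasDerivAt g (1 + m * Complex.I) t) (u w : ℂ) (h1 : DOk (g t))
    (h2 : DOk (g t - u)) (h3 : DOk (g t + w)) :
    HasDerivAt (fun t => V3 u (g t) w) (dh3v u (g t) w m) t := by
  have a1 := hasDerivAt_dU hg h1
  have a2 := hasDerivAt_dU (hg.sub_const u) h2
  have a5 := hasDerivAt_dU (hg.add_const w) h3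
  have a4 : HasDerivAt (fun t => 2 * u * g t + (g t - w) ^ 2 - g t + w)
      (2 * u * (1 + m * Complex.I) + 2 * (g t - w) * (1 + m * Complex.I) -
        (1 + m * Complex.I)) t := by
    have := ((((hg.const_mul (2 * u)).add ((hg.sub_const w).fun_pow 2)).sub hg).add_const w)
    refine this.congr_deriv ?_
    norm_num
  have a3 := ((hasDerivAt_im' a4).const_mul (Real.pi / 2)).neg
  refine (((((a3.add a5).sub a2).sub a1).sub_const (UU u)).sub_const (2 * UU w)).congr_deriv ?_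
  unfold dh3v
  simp
  ring

end

namespace SR

variable {M : ℕ} {b : Fin (M + 1) → ℤ} {zs : DD (tyW b) ⊕ ZZ (tyW b) → ℂ}
variable {R : Finset (DD (tyW b))} {nb : Finset (DD (tyW b) ⊕ ZZ (tyW b))}
variable {z : DD (tyW b) ⊕ ZZ (tyW b) → ℂ} {p : DD (tyW b) → ℝ}
variable {h h' : Fin M} {i j j' : Fin (M + 1)} {s : Fin 3} {x c : ℝ}

/-! ### one variable is moved -/

/-- moving one variable -/
theorem Mv.one {v0 : DD (tyW b) ⊕ ZZ (tyW b)} (hn : v0 ∉ nb) {ζ : ℂ} {q : ℝ}
    (ho : OnP b zs v0 ζ (qe v0 q)) :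
    Mv b zs nb z p (Function.update z v0 ζ) (pup p v0 q) := by
  refine ⟨fun v hv => ?_⟩
  by_cases h0 : v = v0
  · subst h0
    rw [pe_pup, if_pos rfl, Function.update_self]
    exact ⟨hn, ho⟩
  · rw [pe_pup, if_neg h0, Function.update_of_ne h0] at hv
    simp at hv

/-- **Value step**: the hinge `h` is moved to `u` with the penalty `q`. -/
theorem MM.hstep (hb : ClassW b) (hR : ∀ i ∈ R, Sum.inl i ∈ nb) (hM : MM b zs R nb z p)
    (A : Adj h i s j) (hn : Sum.inl (Sum.inl h) ∉ nb) {u : ℂ} {q : ℝ}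
    (hu : OnP b zs (.inl (.inl h)) u q) :
    OV b i (Function.update (Ow b z i) s (ofr (b i) u)) - OV b i (Ow b z i) +
      (OV b j (Function.update (Ow b z j) s.rev (ofr (b j) u)) - OV b j (Ow b z j)) ≤
      2 * Real.pi * (q - p (.inl h)) := by
  have hij : i ≠ j := by
    cases A
    · exact (Fin.castSucc_lt_succ).ne
    · exact (Fin.castSucc_lt_succ).ne'
  have h1 := hM.step hb hR (Mv.one (z := z) (p := p) hn (q := q) hu) {i, j} ?_
  · rw [Finset.sum_pair hij, Ow_upd_hinge A, Ow_upd_hinge A.symm] at h1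
    have e : ∑ k, (pup p (.inl (.inl h)) q k - p k) = q - p (.inl h) := by
      rw [Finset.sum_eq_single (Sum.inl h)]
      · show Function.update p (Sum.inl h) q (Sum.inl h) - _ = _
        rw [Function.update_self]
      · intro k _ hk
        show Function.update p (Sum.inl h) q k - _ = _
        rw [Function.update_of_ne hk, sub_self]
      · intro h0
        exact absurd (Finset.mem_univ _) h0
    rw [e] at h1
    exact h1
  · intro m hm v hv q'
    simp only [Finset.mem_insert, Finset.mem_singleton, not_or] at hm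
    by_cases hvh : v = .inl (.inl h)
    · subst hvh
      cases A
      · exact cf_hinge_zero hm.1 hm.2 q'
      · exact cf_hinge_zero hm.2 hm.1 q'
    · exact absurd (by rw [Function.update_of_ne hvh]) hv

/-- **Value step**: the inner variable is moved to `u` with the penalty `q`. -/
theorem MM.istep (hb : ClassW b) (hR : ∀ i ∈ R, Sum.inl i ∈ nb) (hM : MM b zs R nb z p)
    (m : {i : Fin (M + 1) // (tyW b i).isMid = true}) (hn : Sum.inl (Sum.inr m) ∉ nb) {u : ℂ}
    {q : ℝ} (hu : OnP b zs (.inl (.inr m)) u q) :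
    OV b m.1 (Function.update (Ow b z m.1) 1 (ofr (b m.1) u)) - OV b m.1 (Ow b z m.1) ≤
      2 * Real.pi * (q - p (.inr m)) := by
  have h1 := hM.step hb hR (Mv.one (z := z) (p := p) hn (q := q) hu) {m.1} ?_
  · rw [Finset.sum_singleton, Ow_upd_mid] at h1
    have e : ∑ k, (pup p (.inl (.inr m)) q k - p k) = q - p (.inr m) := by
      rw [Finset.sum_eq_single (Sum.inr m)]
      · show Function.update p (Sum.inr m) q (Sum.inr m) - _ = _
        rw [Function.update_self]
      · intro k _ hk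
        show Function.update p (Sum.inr m) q k - _ = _
        rw [Function.update_of_ne hk, sub_self]
      · intro h0
        exact absurd (Finset.mem_univ _) h0
    rw [e] at h1
    exact h1
  · intro m' hm v hv q'
    rw [Finset.mem_singleton] at hm
    by_cases hvh : v = .inl (.inr m)
    · subst hvh
      have : m.1 ≠ m' := fun e => hm e.symm
      simp [cf, this]
    · exact absurd (by rw [Function.update_of_ne hvh]) hv

/-! ### the mirrored path of the hinge of a mode -/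

/-- **The mirrored position** at `y`. -/
theorem Md.onP (hb : ClassW b) (D : Md b zs nb z p h i s j x) {y : ℝ} (h0 : 0 ≤ y)
    (h1 : y ≤ wXM b h) : ∃ u : ℂ, OnP b zs (.inl (.inl h)) u (mhs b h s * trh b h y) ∧
      ofr (b i) u = ⟨y, -(mhs b h s * trh b h y)⟩ ∧ ofr (b j) u = ⟨y, mhs b h s * trh b h y⟩ := by
  have hr : ¬ (clsW b h.castSucc = .ring ∨ clsW b h.succ = .ring) := by
    cases D.adj
    · exact fun h0 => h0.elim D.ri D.rj
    · exact fun h0 => h0.elim D.rj D.ri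
  have hT := D.T0
  have hs := sign_adj hb D.adj D.ri
  obtain ⟨-, e2⟩ := mt_frame hb D.adj D.ri
  have hjf : ∀ u : ℂ, ofr (b j) u = ⟨(ofr (b i) u).re, -(ofr (b i) u).im⟩ := by
    intro u
    apply Complex.ext
    · rw [ofr_re, ofr_re]
    · rw [ofr_im, ofr_im, ofs_neg_of_opp hs]
  by_cases hi : 0 < b i
  · rw [if_pos hi] at e2
    have hd : (wparM b zs).hd (.inl h) = mhs b h s := by
      show mhd b zs (.inl h) = _
      unfold Th at hT
      rw [ofs_pos hi] at hT
      simp only [mhd, if_neg hr]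
      rw [if_neg (not_lt.2 hT), e2]
    refine ⟨pt 0 (wXM b h) (wcl b h) (wcr b h) (-mhs b h s) y, ?_, ?_, ?_⟩
    · refine ⟨y, h0, h1, Or.inr (Or.inr ?_)⟩
      rw [hd]
      exact ⟨rfl, rfl⟩
    · apply Complex.ext
      · rw [ofr_re, ptm_re]
      · rw [ofr_im, ptm_im, ofs_pos hi]
        show -mhs b h s * trh b h y = _
        ring
    · rw [hjf]
      apply Complex.ext
      · rw [ofr_re, ptm_re]
      · show -(ofr (b i) _).im = _
        rw [ofr_im, ptm_im, ofs_pos hi]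
        show -(-mhs b h s * trh b h y) = _
        ring
  · rw [if_neg hi] at e2
    have hd : (wparM b zs).hu (.inl h) = mhs b h s := by
      show mhu b zs (.inl h) = _
      unfold Th ofs at hT
      rw [if_neg hi] at hT
      simp only [mhu, if_neg hr]
      rw [if_neg (by linarith only [hT]), e2]
    have eo : ∀ m : ℝ, ofs (b i) m = -m := fun m => by unfold ofs; rw [if_neg hi]
    refine ⟨pt 0 (wXM b h) (wcl b h) (wcr b h) (mhs b h s) y, ?_, ?_, ?_⟩
    · refine ⟨y, h0, h1, Or.inr (Or.inl ?_)⟩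
      rw [hd]
      exact ⟨rfl, rfl⟩
    · apply Complex.ext
      · rw [ofr_re, ptm_re]
      · rw [ofr_im, ptm_im, eo]
        rfl
    · rw [hjf]
      apply Complex.ext
      · rw [ofr_re, ptm_re]
      · show -(ofr (b i) _).im = _
        rw [ofr_im, ptm_im, eo, neg_neg]
        rfl

/-- **The value along the mirrored path** is maximal at the mode. -/
theorem Md.mstep (hb : ClassW b) (hR : ∀ i ∈ R, Sum.inl i ∈ nb) (hM : MM b zs R nb z p)
    (D : Md b zs nb z p h i s j x) {y : ℝ} (h0 : 0 ≤ y) (h1 : y ≤ wXM b h) :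
    OV b i (Function.update (Ow b z i) s ⟨y, -(mhs b h s * trh b h y)⟩) +
      OV b j (Function.update (Ow b z j) s.rev ⟨y, mhs b h s * trh b h y⟩) -
        2 * Real.pi * (mhs b h s * trh b h y) ≤
    OV b i (Function.update (Ow b z i) s ⟨x, -(mhs b h s * trh b h x)⟩) +
      OV b j (Function.update (Ow b z j) s.rev ⟨x, mhs b h s * trh b h x⟩) -
        2 * Real.pi * (mhs b h s * trh b h x) := by
  obtain ⟨u, hu, e1, e2⟩ := D.onP hb h0 h1
  have h2 := hM.hstep hb hR D.adj D.nn hu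
  rw [e1, e2, D.pen] at h2
  have e3 : Function.update (Ow b z i) s ⟨x, -(mhs b h s * trh b h x)⟩ = Ow b z i := by
    rw [← D.own, Function.update_eq_self]
  have e4 : Function.update (Ow b z j) s.rev ⟨x, mhs b h s * trh b h x⟩ = Ow b z j := by
    rw [← D.opp, Function.update_eq_self]
  rw [e3, e4]
  linarith only [h2]

/-- maximum on the right of a point -/
theorem der_nonpos_of {f : ℝ → ℝ} {f' : ℝ} (hf : HasDerivAt f f' x)
    (hm : ∀ᶠ y in 𝓝[≥] x, f y ≤ f x) : f' ≤ 0 := by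
  have h1 : Tendsto (slope f x) (𝓝[>] x) (𝓝 f') :=
    (hasDerivAt_iff_tendsto_slope.1 hf).mono_left
      (nhdsWithin_mono _ fun y hy => (ne_of_gt hy : y ≠ x))
  refine le_of_tendsto h1 ?_
  have h2 : ∀ᶠ y in 𝓝[>] x, f y ≤ f x := hm.filter_mono (nhdsWithin_mono _ Set.Ioi_subset_Ici_self)
  filter_upwards [h2, self_mem_nhdsWithin] with y hy hxy
  rw [slope_def_field]
  exact div_nonpos_of_nonpos_of_nonneg (by linarith only [hy]) (sub_nonneg.2 (le_of_lt hxy))

/-- maximum on the left of a point -/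
theorem der_nonneg_of {f : ℝ → ℝ} {f' : ℝ} (hf : HasDerivAt f f' x)
    (hm : ∀ᶠ y in 𝓝[≤] x, f y ≤ f x) : 0 ≤ f' := by
  have h1 : Tendsto (slope f x) (𝓝[<] x) (𝓝 f') :=
    (hasDerivAt_iff_tendsto_slope.1 hf).mono_left
      (nhdsWithin_mono _ fun y hy => (ne_of_lt hy : y ≠ x))
  refine ge_of_tendsto h1 ?_
  have h2 : ∀ᶠ y in 𝓝[<] x, f y ≤ f x := hm.filter_mono (nhdsWithin_mono _ Set.Iio_subset_Iic_self)
  filter_upwards [h2, self_mem_nhdsWithin] with y hy hxy
  rw [slope_def_field]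
  exact div_nonneg_of_nonpos (by linarith only [hy]) (sub_nonpos.2 (le_of_lt hxy))

/-- **The first order condition at a mode**, right derivatives: `τ` is the ramp function on the
right of `x`. -/
theorem Md.foc_right (hb : ClassW b) (hR : ∀ i ∈ R, Sum.inl i ∈ nb) (hM : MM b zs R nb z p)
    (D : Md b zs nb z p h i s j x) {τ : ℝ → ℝ} {di dj dt : ℝ}
    (ki : HasDerivAt (fun y => OV b i (Function.update (Ow b z i) s
      ⟨y, -mhs b h s * τ y⟩)) di x)
    (kj : HasDerivAt (fun y => OV b j (Function.update (Ow b z j) s.rev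
      ⟨y, mhs b h s * τ y⟩)) dj x) (kt : HasDerivAt τ dt x)
    (hτ : ∀ᶠ y in 𝓝[≥] x, trh b h y = τ y) :
    di + dj - 2 * Real.pi * (mhs b h s * dt) ≤ 0 := by
  have hx : trh b h x = τ x := hτ.self_of_nhdsWithin (Set.mem_Ici.2 le_rfl)
  simp only [neg_mul] at ki
  refine der_nonpos_of ((ki.add kj).sub ((kt.const_mul (mhs b h s)).const_mul
    (2 * Real.pi))) ?_
  have h1 : ∀ᶠ y in 𝓝[≥] x, y ∈ Set.Ioo 0 (wXM b h) :=
    (Ioo_mem_nhds D.x0 D.x1 : _ ∈ 𝓝 x) |> mem_nhdsWithin_of_mem_nhds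
  filter_upwards [h1, hτ] with y hy hy2
  have := D.mstep hb hR hM hy.1.le hy.2.le
  rw [hy2, hx] at this
  exact this

/-- **The first order condition at a mode**, left derivatives. -/
theorem Md.foc_left (hb : ClassW b) (hR : ∀ i ∈ R, Sum.inl i ∈ nb) (hM : MM b zs R nb z p)
    (D : Md b zs nb z p h i s j x) {τ : ℝ → ℝ} {di dj dt : ℝ}
    (ki : HasDerivAt (fun y => OV b i (Function.update (Ow b z i) s
      ⟨y, -mhs b h s * τ y⟩)) di x)
    (kj : HasDerivAt (fun y => OV b j (Function.update (Ow b z j) s.rev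
      ⟨y, mhs b h s * τ y⟩)) dj x) (kt : HasDerivAt τ dt x)
    (hτ : ∀ᶠ y in 𝓝[≤] x, trh b h y = τ y) :
    0 ≤ di + dj - 2 * Real.pi * (mhs b h s * dt) := by
  have hx : trh b h x = τ x := hτ.self_of_nhdsWithin (Set.mem_Iic.2 le_rfl)
  simp only [neg_mul] at ki
  refine der_nonneg_of ((ki.add kj).sub ((kt.const_mul (mhs b h s)).const_mul
    (2 * Real.pi))) ?_
  have h1 : ∀ᶠ y in 𝓝[≤] x, y ∈ Set.Ioo 0 (wXM b h) :=
    (Ioo_mem_nhds D.x0 D.x1 : _ ∈ 𝓝 x) |> mem_nhdsWithin_of_mem_nhds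
  filter_upwards [h1, hτ] with y hy hy2
  have := D.mstep hb hR hM hy.1.le hy.2.le
  rw [hy2, hx] at this
  exact this

/-- **The first order condition at a mode.** -/
theorem Md.foc (hb : ClassW b) (hR : ∀ i ∈ R, Sum.inl i ∈ nb) (hM : MM b zs R nb z p)
    (D : Md b zs nb z p h i s j x) {di dj dt : ℝ}
    (ki : HasDerivAt (fun y => OV b i (Function.update (Ow b z i) s
      ⟨y, -mhs b h s * trh b h y⟩)) di x)
    (kj : HasDerivAt (fun y => OV b j (Function.update (Ow b z j) s.rev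
      ⟨y, mhs b h s * trh b h y⟩)) dj x) (kt : HasDerivAt (trh b h) dt x) :
    di + dj - 2 * Real.pi * (mhs b h s * dt) = 0 :=
  le_antisymm (D.foc_right hb hR hM ki kj kt (Eventually.of_forall fun _ => rfl))
    (D.foc_left hb hR hM ki kj kt (Eventually.of_forall fun _ => rfl))

/-! ### the derivatives of the values of the regions of a mode -/

/-- the curve of a mirrored path -/
theorem hasDerivAt_curve {τ : ℝ → ℝ} {a dt : ℝ} (kt : HasDerivAt τ dt x) :
    HasDerivAt (fun y : ℝ => (⟨y, a * τ y⟩ : ℂ)) (1 + (a * dt : ℝ) * Complex.I) x := by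
  have e : (fun y : ℝ => (⟨y, a * τ y⟩ : ℂ)) =
      fun y : ℝ => (y : ℂ) + ((a * τ y : ℝ) : ℂ) * Complex.I := by
    funext y
    apply Complex.ext <;> simp
  rw [e]
  exact ((hasDerivAt_id x).ofReal_comp).add ((kt.const_mul a).ofReal_comp.mul_const Complex.I)

/-- the derivative of the value of a digit `1` if the hinge is moved on its mirrored path -/
theorem der_one (hb : ClassW b) (A : Adj h i s j) (hc : clsW b i = .one) {τ : ℝ → ℝ} {a dt : ℝ}
    (kt : HasDerivAt (τ) dt x) (e0 : Ow b z i s = ⟨x, a * τ x⟩)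
    (h1 : DOk (Ow b z i s)) (h2 : DOk (Ow b z i s + Ow b z i s.rev)) :
    HasDerivAt (fun y => OV b i (Function.update (Ow b z i) s ⟨y, a * τ y⟩))
      (dh1 (Ow b z i s) (Ow b z i s.rev) (a * dt)) x := by
  have h3 := hasDerivAt_V1 (hasDerivAt_curve (a := a) kt) (Ow b z i s.rev)
    (by rw [← e0]; exact h1) (by rw [← e0]; exact h2)
  rw [← e0] at h3
  refine h3.congr_of_eventuallyEq (Eventually.of_forall fun y => ?_)
  show OV b i (Function.update (Ow b z i) s ⟨y, a * τ y⟩) =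
    V1 (⟨y, a * τ y⟩ : ℂ) (Ow b z i s.rev)
  rw [OV_one hb hc]
  cases A
  · rw [Function.update_self, Function.update_of_ne (by decide), V1_comm]
    rfl
  · rw [Function.update_self, Function.update_of_ne (by decide)]
    rfl

/-- the derivative of the value of a digit `2` if the hinge is moved on its mirrored path -/
theorem der_two (hb : ClassW b) (A : Adj h i s j) (hc : clsW b i = .two ∨ clsW b i = .twoE)
    {τ : ℝ → ℝ} {a dt : ℝ} (kt : HasDerivAt (τ) dt x) (e0 : Ow b z i s = ⟨x, a * τ x⟩)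
    (h1 : DOk (Ow b z i s)) (h2 : DOk (Ow b z i s + Ow b z i s.rev)) :
    HasDerivAt (fun y => OV b i (Function.update (Ow b z i) s ⟨y, a * τ y⟩))
      (dh2 (Ow b z i s) (Ow b z i s.rev) (a * dt)) x := by
  have h3 := hasDerivAt_V2 (hasDerivAt_curve (a := a) kt) (Ow b z i s.rev)
    (by rw [← e0]; exact h1) (by rw [← e0]; exact h2)
  rw [← e0] at h3
  refine h3.congr_of_eventuallyEq (Eventually.of_forall fun y => ?_)
  show OV b i (Function.update (Ow b z i) s ⟨y, a * τ y⟩) =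
    V2 (⟨y, a * τ y⟩ : ℂ) (Ow b z i s.rev)
  rw [OV_two hb hc (endOk_upd A (Ow_endOk z i) _)]
  cases A
  · rw [Function.update_self, Function.update_of_ne (by decide), V2_comm]
    rfl
  · rw [Function.update_self, Function.update_of_ne (by decide)]
    rfl

/-- the derivative of the value of a digit `3` if the hinge in the slot `0` is moved -/
theorem der_three0 (hb : ClassW b) (hc : clsW b i = .three) {τ : ℝ → ℝ} {a dt : ℝ}
    (kt : HasDerivAt (τ) dt x) (e0 : Ow b z i 0 = ⟨x, a * τ x⟩)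
    (h1 : DOk (Ow b z i 0)) (h2 : DOk (Ow b z i 1 - Ow b z i 0)) :
    HasDerivAt (fun y => OV b i (Function.update (Ow b z i) 0 ⟨y, a * τ y⟩))
      (dh3a (Ow b z i 0) (Ow b z i 1) (a * dt)) x := by
  have h3 := hasDerivAt_V3a (hasDerivAt_curve (a := a) kt) (Ow b z i 1) (Ow b z i 2)
    (by rw [← e0]; exact h1) (by rw [← e0]; exact h2)
  rw [← e0] at h3
  refine h3.congr_of_eventuallyEq (Eventually.of_forall fun y => ?_)
  show OV b i (Function.update (Ow b z i) 0 ⟨y, a * τ y⟩) =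
    V3 (⟨y, a * τ y⟩ : ℂ) (Ow b z i 1) (Ow b z i 2)
  rw [OV_three hb hc, Function.update_self, Function.update_of_ne (by decide),
    Function.update_of_ne (by decide)]

/-- the derivative of the value of a digit `3` if the hinge in the slot `2` is moved -/
theorem der_three2 (hb : ClassW b) (hc : clsW b i = .three) {τ : ℝ → ℝ} {a dt : ℝ}
    (kt : HasDerivAt (τ) dt x) (e0 : Ow b z i 2 = ⟨x, a * τ x⟩)
    (h1 : DOk (Ow b z i 2)) (h2 : DOk (Ow b z i 1 + Ow b z i 2)) :
    HasDerivAt (fun y => OV b i (Function.update (Ow b z i) 2 ⟨y, a * τ y⟩))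
      (dh3w (Ow b z i 1) (Ow b z i 2) (a * dt)) x := by
  have h3 := hasDerivAt_V3w (hasDerivAt_curve (a := a) kt) (Ow b z i 0) (Ow b z i 1)
    (by rw [← e0]; exact h1) (by rw [← e0]; exact h2)
  rw [← e0] at h3
  refine h3.congr_of_eventuallyEq (Eventually.of_forall fun y => ?_)
  show OV b i (Function.update (Ow b z i) 2 ⟨y, a * τ y⟩) =
    V3 (Ow b z i 0) (Ow b z i 1) (⟨y, a * τ y⟩ : ℂ)
  rw [OV_three hb hc, Function.update_self, Function.update_of_ne (by decide),
    Function.update_of_ne (by decide)]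

/-- the derivative of the value of a digit `3` at an end if the hinge is moved -/
theorem der_threeE (A : Adj h i s j) (hc : clsW b i = .threeE) {τ : ℝ → ℝ} {a dt : ℝ}
    (kt : HasDerivAt (τ) dt x) (e0 : Ow b z i s = ⟨x, a * τ x⟩)
    (h1 : DOk (Ow b z i s)) (h2 : DOk (Ow b z i 1 - Ow b z i s)) :
    HasDerivAt (fun y => OV b i (Function.update (Ow b z i) s ⟨y, a * τ y⟩))
      (dh3a (Ow b z i s) (Ow b z i 1) (a * dt)) x := by
  have h3 := hasDerivAt_V3a (hasDerivAt_curve (a := a) kt) (Ow b z i 1) 0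
    (by rw [← e0]; exact h1) (by rw [← e0]; exact h2)
  rw [← e0] at h3
  refine h3.congr_of_eventuallyEq (Eventually.of_forall fun y => ?_)
  show OV b i (Function.update (Ow b z i) s ⟨y, a * τ y⟩) =
    V3 (⟨y, a * τ y⟩ : ℂ) (Ow b z i 1) 0
  rw [A.OV_threeE hc (endOk_upd A (Ow_endOk z i) _), Function.update_self,
    Function.update_of_ne (by cases A <;> decide)]

/-- the own position of a mode -/
theorem Md.own' (D : Md b zs nb z p h i s j x) : Ow b z i s = ⟨x, -mhs b h s * trh b h x⟩ := by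
  rw [D.own, neg_mul]

theorem Md.ok_own (D : Md b zs nb z p h i s j x) : DOk (Ow b z i s) := by
  refine Or.inl ?_
  rw [D.own]
  exact neg_ne_zero.2 (mul_pos (mhs_pos h s) D.tp).ne'

theorem Md.ok_opp (D : Md b zs nb z p h i s j x) : DOk (Ow b z j s.rev) := by
  refine Or.inl ?_
  rw [D.opp]
  exact (mul_pos (mhs_pos h s) D.tp).ne'

/-! ### inner variables on a mirrored path -/

/-- ramp function of an inner variable -/
noncomputable def tri (b : Fin (M + 1) → ℤ) (m : Fin (M + 1)) (x : ℝ) : ℝ :=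
  tr 0 (mp (clsW b m)).XM (mp (clsW b m)).cl (mp (clsW b m)).cr x

/-- the mirrored positions of an inner variable, own frame; `a = 16 / 100` if the upper path is the
mirrored one, `a = -16 / 100` if it is the lower one -/
theorem onP_imir (m : {i : Fin (M + 1) // (tyW b i).isMid = true}) {a : ℝ}
    (ha : (ofs (b m.1) (zs (.inl (.inr m))).im ≤ 0 ∧ a = 16 / 100) ∨
      (0 ≤ ofs (b m.1) (zs (.inl (.inr m))).im ∧ a = -(16 / 100))) {y : ℝ} (h0 : 0 ≤ y)
    (h1 : y ≤ (mp (clsW b m.1)).XM) : ∃ u : ℂ, OnP b zs (.inl (.inr m)) u (16 / 100 * tri b m.1 y) ∧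
      ofr (b m.1) u = ⟨y, a * tri b m.1 y⟩ := by
  have up : (zs (.inl (.inr m))).im ≤ 0 → OnP b zs (.inl (.inr m))
      (pt 0 (mp (clsW b m.1)).XM (mp (clsW b m.1)).cl (mp (clsW b m.1)).cr (16 / 100) y)
      (16 / 100 * tri b m.1 y) := by
    intro hT
    have hd : (wparM b zs).hu (.inr m) = 16 / 100 := by
      show mhu b zs (.inr m) = _
      simp only [mhu]
      rw [if_neg (not_lt.2 hT)]
      rfl
    refine ⟨y, h0, h1, Or.inr (Or.inl ?_)⟩
    rw [hd]
    exact ⟨rfl, rfl⟩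
  have dn : 0 ≤ (zs (.inl (.inr m))).im → OnP b zs (.inl (.inr m))
      (pt 0 (mp (clsW b m.1)).XM (mp (clsW b m.1)).cl (mp (clsW b m.1)).cr (-(16 / 100)) y)
      (16 / 100 * tri b m.1 y) := by
    intro hT
    have hd : (wparM b zs).hd (.inr m) = 16 / 100 := by
      show mhd b zs (.inr m) = _
      simp only [mhd]
      rw [if_neg (not_lt.2 hT)]
      rfl
    refine ⟨y, h0, h1, Or.inr (Or.inr ?_)⟩
    rw [hd]
    exact ⟨rfl, rfl⟩
  by_cases hi : 0 < b m.1
  · rw [ofs_pos hi] at ha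
    rcases ha with ⟨hT, rfl⟩ | ⟨hT, rfl⟩
    · refine ⟨_, up hT, ?_⟩
      apply Complex.ext
      · rw [ofr_re, ptm_re]
      · rw [ofr_im, ptm_im, ofs_pos hi]
        rfl
    · refine ⟨_, dn hT, ?_⟩
      apply Complex.ext
      · rw [ofr_re, ptm_re]
      · rw [ofr_im, ptm_im, ofs_pos hi]
        rfl
  · have eo : ∀ m' : ℝ, ofs (b m.1) m' = -m' := fun m' => by unfold ofs; rw [if_neg hi]
    rw [eo] at ha
    rcases ha with ⟨hT, rfl⟩ | ⟨hT, rfl⟩
    · refine ⟨_, dn (by linarith only [hT]), ?_⟩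
      apply Complex.ext
      · rw [ofr_re, ptm_re]
      · rw [ofr_im, ptm_im, eo]
        show -(-(16 / 100) * tri b m.1 y) = _
        ring
    · refine ⟨_, up (by linarith only [hT]), ?_⟩
      apply Complex.ext
      · rw [ofr_re, ptm_re]
      · rw [ofr_im, ptm_im, eo]
        show -(16 / 100 * tri b m.1 y) = _
        ring

/-- **The first order condition at an inner variable on its mirrored path.** -/
theorem MM.foci (hb : ClassW b) (hR : ∀ i ∈ R, Sum.inl i ∈ nb) (hM : MM b zs R nb z p)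
    (m : {i : Fin (M + 1) // (tyW b i).isMid = true}) (hn : Sum.inl (Sum.inr m) ∉ nb) {a : ℝ}
    (ha : (ofs (b m.1) (zs (.inl (.inr m))).im ≤ 0 ∧ a = 16 / 100) ∨
      (0 ≤ ofs (b m.1) (zs (.inl (.inr m))).im ∧ a = -(16 / 100)))
    (x0 : 0 < x) (x1 : x < (mp (clsW b m.1)).XM) (e0 : Ow b z m.1 1 = ⟨x, a * tri b m.1 x⟩)
    (ep : p (.inr m) = 16 / 100 * tri b m.1 x) {di dt : ℝ}
    (ki : HasDerivAt (fun y => OV b m.1 (Function.update (Ow b z m.1) 1
      ⟨y, a * tri b m.1 y⟩)) di x) (kt : HasDerivAt (tri b m.1) dt x) :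
    di - 2 * Real.pi * (16 / 100 * dt) = 0 := by
  have hmax : IsLocalMax (fun y => OV b m.1 (Function.update (Ow b z m.1) 1
      ⟨y, a * tri b m.1 y⟩) - 2 * Real.pi * (16 / 100 * tri b m.1 y)) x := by
    filter_upwards [Ioo_mem_nhds x0 x1] with y hy
    obtain ⟨u, hu, e1⟩ := onP_imir (zs := zs) m ha hy.1.le hy.2.le
    have h2 := hM.istep hb hR m hn hu
    rw [e1, ep] at h2
    have e3 : Function.update (Ow b z m.1) 1 ⟨x, a * tri b m.1 x⟩ = Ow b z m.1 := by
      rw [← e0, Function.update_eq_self]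
    rw [e3]
    linarith only [h2]
  exact hmax.hasDerivAt_eq_zero (ki.sub ((kt.const_mul (16 / 100)).const_mul (2 * Real.pi)))

/-- the derivative of the value of a digit `3` if the inner variable is moved -/
theorem der_three1 (hb : ClassW b) (hc : clsW b i = .three) {a dt : ℝ}
    (kt : HasDerivAt (tri b i) dt x) (e0 : Ow b z i 1 = ⟨x, a * tri b i x⟩)
    (h1 : DOk (Ow b z i 1)) (h2 : DOk (Ow b z i 1 - Ow b z i 0))
    (h3 : DOk (Ow b z i 1 + Ow b z i 2)) :
    HasDerivAt (fun y => OV b i (Function.update (Ow b z i) 1 ⟨y, a * tri b i y⟩))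
      (dh3v (Ow b z i 0) (Ow b z i 1) (Ow b z i 2) (a * dt)) x := by
  have e : (fun y : ℝ => (⟨y, a * tri b i y⟩ : ℂ)) =
      fun y : ℝ => (y : ℂ) + ((a * tri b i y : ℝ) : ℂ) * Complex.I := by
    funext y
    apply Complex.ext <;> simp
  have hg : HasDerivAt (fun y : ℝ => (⟨y, a * tri b i y⟩ : ℂ))
      (1 + (a * dt : ℝ) * Complex.I) x := by
    rw [e]
    exact ((hasDerivAt_id x).ofReal_comp).add ((kt.const_mul a).ofReal_comp.mul_const Complex.I)
  have h4 := hasDerivAt_V3v hg (Ow b z i 0) (Ow b z i 2)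
    (by rw [← e0]; exact h1) (by rw [← e0]; exact h2) (by rw [← e0]; exact h3)
  rw [← e0] at h4
  refine h4.congr_of_eventuallyEq (Eventually.of_forall fun y => ?_)
  show OV b i (Function.update (Ow b z i) 1 ⟨y, a * tri b i y⟩) =
    V3 (Ow b z i 0) (⟨y, a * tri b i y⟩ : ℂ) (Ow b z i 2)
  rw [OV_three hb hc, Function.update_self, Function.update_of_ne (by decide),
    Function.update_of_ne (by decide)]

/-! ### the ramp function -/

/-- right ramp -/
theorem trh_R {y : ℝ} (h0 : wXM b h - wcr b h ≤ y) (h1 : y ≤ wXM b h) :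
    trh b h y = (wXM b h - y) / wcr b h := by
  have hl := wcl_pos (b := b) h
  have hr := wcr_pos (b := b) h
  have hs : wcl b h + wcr b h ≤ wXM b h := (par1_good b (.inl h)).2.2.1.le
  unfold trh tr
  have a1 : (wXM b h - y) / wcr b h ≤ 1 := by rw [div_le_one hr]; linarith only [h0]
  have a2 : 1 ≤ (y - 0) / wcl b h := by rw [le_div_iff₀ hl]; linarith only [h0, hs]
  have a3 : 0 ≤ (wXM b h - y) / wcr b h := div_nonneg (by linarith only [h1]) hr.le
  rw [min_eq_right (a1.trans a2), min_eq_right a1, max_eq_right a3]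

/-- plateau -/
theorem trh_M {y : ℝ} (h0 : wcl b h ≤ y) (h1 : y ≤ wXM b h - wcr b h) : trh b h y = 1 := by
  have hl := wcl_pos (b := b) h
  have hr := wcr_pos (b := b) h
  unfold trh tr
  have a1 : 1 ≤ (wXM b h - y) / wcr b h := by rw [le_div_iff₀ hr]; linarith only [h1]
  have a2 : 1 ≤ (y - 0) / wcl b h := by rw [le_div_iff₀ hl]; linarith only [h0]
  rw [min_eq_left (le_min a2 a1)]
  norm_num

/-- left ramp -/
theorem trh_L {y : ℝ} (h0 : 0 ≤ y) (h1 : y ≤ wcl b h) : trh b h y = y / wcl b h := by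
  have hl := wcl_pos (b := b) h
  have hr := wcr_pos (b := b) h
  have hs : wcl b h + wcr b h ≤ wXM b h := (par1_good b (.inl h)).2.2.1.le
  unfold trh tr
  rw [sub_zero]
  have a1 : y / wcl b h ≤ 1 := by rw [div_le_one hl]; linarith only [h1]
  have a2 : 1 ≤ (wXM b h - y) / wcr b h := by rw [le_div_iff₀ hr]; linarith only [h1, hs]
  have a3 : 0 ≤ y / wcl b h := div_nonneg (by linarith only [h0]) hl.le
  rw [min_eq_left (a1.trans a2), min_eq_right a1, max_eq_right a3]

/-- the function of the right ramp -/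
theorem hasDerivAt_R : HasDerivAt (fun y => (wXM b h - y) / wcr b h) (-(1 / wcr b h)) x := by
  have := ((hasDerivAt_id x).const_sub (wXM b h)).div_const (wcr b h)
  refine this.congr_deriv ?_
  ring

/-- the function of the left ramp -/
theorem hasDerivAt_L : HasDerivAt (fun y => y / wcl b h) (1 / wcl b h) x :=
  (hasDerivAt_id x).div_const (wcl b h)

theorem ev_right {P : ℝ → Prop} {u v : ℝ} (h0 : u ≤ x) (h1 : x < v)
    (hP : ∀ y, u ≤ y → y ≤ v → P y) : ∀ᶠ y in 𝓝[≥] x, P y := by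
  have h2 : ∀ᶠ y in 𝓝[≥] x, y < v := mem_nhdsWithin_of_mem_nhds (Iio_mem_nhds h1)
  filter_upwards [h2, self_mem_nhdsWithin] with y hy hy2
  exact hP y (h0.trans hy2) hy.le

theorem ev_left {P : ℝ → Prop} {u v : ℝ} (h0 : u < x) (h1 : x ≤ v)
    (hP : ∀ y, u ≤ y → y ≤ v → P y) : ∀ᶠ y in 𝓝[≤] x, P y := by
  have h2 : ∀ᶠ y in 𝓝[≤] x, u < y := mem_nhdsWithin_of_mem_nhds (Ioi_mem_nhds h0)
  filter_upwards [h2, self_mem_nhdsWithin] with y hy hy2
  exact hP y hy.le (le_trans hy2 h1)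

/-- right ramp, on the right of a point (also at the kink) -/
theorem trh_R_right (h0 : wXM b h - wcr b h ≤ x) (h1 : x < wXM b h) :
    ∀ᶠ y in 𝓝[≥] x, trh b h y = (wXM b h - y) / wcr b h :=
  ev_right h0 h1 fun _ => trh_R

/-- right ramp, on the left of a point -/
theorem trh_R_left (h0 : wXM b h - wcr b h < x) (h1 : x ≤ wXM b h) :
    ∀ᶠ y in 𝓝[≤] x, trh b h y = (wXM b h - y) / wcr b h :=
  ev_left h0 h1 fun _ => trh_R

/-- plateau, on the right of a point (also at the left kink) -/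
theorem trh_M_right (h0 : wcl b h ≤ x) (h1 : x < wXM b h - wcr b h) :
    ∀ᶠ y in 𝓝[≥] x, trh b h y = (fun _ : ℝ => (1 : ℝ)) y :=
  ev_right h0 h1 fun _ => trh_M

/-- plateau, on the left of a point (also at the right kink) -/
theorem trh_M_left (h0 : wcl b h < x) (h1 : x ≤ wXM b h - wcr b h) :
    ∀ᶠ y in 𝓝[≤] x, trh b h y = (fun _ : ℝ => (1 : ℝ)) y :=
  ev_left h0 h1 fun _ => trh_M

/-- left ramp, on the right of a point -/
theorem trh_L_right (h0 : 0 ≤ x) (h1 : x < wcl b h) :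
    ∀ᶠ y in 𝓝[≥] x, trh b h y = y / wcl b h :=
  ev_right h0 h1 fun _ => trh_L

/-- left ramp, on the left of a point (also at the kink) -/
theorem trh_L_left (h0 : 0 < x) (h1 : x ≤ wcl b h) :
    ∀ᶠ y in 𝓝[≤] x, trh b h y = y / wcl b h :=
  ev_left h0 h1 fun _ => trh_L

/-- right ramp -/
theorem trh_right (h0 : wXM b h - wcr b h < x) (h1 : x < wXM b h) :
    trh b h x = (wXM b h - x) / wcr b h ∧ HasDerivAt (trh b h) (-(1 / wcr b h)) x := by
  refine ⟨trh_R h0.le h1.le, hasDerivAt_R.congr_of_eventuallyEq ?_⟩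
  filter_upwards [Ioo_mem_nhds h0 h1] with y hy
  exact trh_R hy.1.le hy.2.le

/-- plateau -/
theorem trh_mid (h0 : wcl b h < x) (h1 : x < wXM b h - wcr b h) :
    trh b h x = 1 ∧ HasDerivAt (trh b h) 0 x := by
  refine ⟨trh_M h0.le h1.le, (hasDerivAt_const x (1 : ℝ)).congr_of_eventuallyEq ?_⟩
  filter_upwards [Ioo_mem_nhds h0 h1] with y hy
  exact trh_M hy.1.le hy.2.le

/-- left ramp -/
theorem trh_left (h0 : 0 < x) (h1 : x < wcl b h) :
    trh b h x = x / wcl b h ∧ HasDerivAt (trh b h) (1 / wcl b h) x := by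
  refine ⟨trh_L h0.le h1.le, hasDerivAt_L.congr_of_eventuallyEq ?_⟩
  filter_upwards [Ioo_mem_nhds h0 h1] with y hy
  exact trh_L hy.1.le hy.2.le

end SR

end Pool.Agent.Work.MP_b30479_gt.G2

namespace Pool.Agent.Work.NumG

open MP_b30479_gt.VOL MP_b30479_gt.G2
open NumU (uu UU_uu)

theorem LL_lnA_all (u : ℂ) : LL u = NumI.lnA u.re u.im := by
  rw [LL_eq', NumI.lnA]
  congr 2
  have e1 : 2 * Real.pi * u.im = 2 * (Real.pi * u.im) := by ring
  have e2 : 2 * Real.pi * u.re = 2 * (Real.pi * u.re) := by ring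
  rw [e1, e2, Real.cosh_two_mul, Real.cos_two_mul, Real.cosh_sq, Real.cos_sq']
  ring

namespace E

variable {x t y k s v m : NumU.E} {xs : List ℝ}

theorem dU_val : (dU x t m).val xs = MP_b30479_gt.G2.dU ⟨x.val xs, t.val xs⟩ (m.val xs) := by
  unfold MP_b30479_gt.G2.dU
  rw [LL_lnA_all, NumX.YY_yy]
  rfl

theorem dh1_val : (dh1 x t y k m).val xs =
    MP_b30479_gt.G2.dh1 ⟨x.val xs, t.val xs⟩ ⟨y.val xs, k.val xs⟩ (m.val xs) := by
  unfold MP_b30479_gt.G2.dh1 dh1
  have e1 : (⟨x.val xs, t.val xs⟩ : ℂ) + ⟨y.val xs, k.val xs⟩ =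
      ⟨(NumU.E.add x y).val xs, (NumU.E.add t k).val xs⟩ := rfl
  rw [e1]
  simp only [E.val, dU_val]
  simp only [NumU.E.val]
  norm_num

theorem dh2_val : (dh2 x t y k m).val xs =
    MP_b30479_gt.G2.dh2 ⟨x.val xs, t.val xs⟩ ⟨y.val xs, k.val xs⟩ (m.val xs) := by
  unfold MP_b30479_gt.G2.dh2 dh2
  have e1 : (⟨x.val xs, t.val xs⟩ : ℂ) + ⟨y.val xs, k.val xs⟩ =
      ⟨(NumU.E.add x y).val xs, (NumU.E.add t k).val xs⟩ := rfl
  rw [e1]
  simp only [E.val, dU_val]
  simp only [NumU.E.val]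
  push_cast
  ring

theorem dh3a_val : (dh3a x t y s m).val xs =
    MP_b30479_gt.G2.dh3a ⟨x.val xs, t.val xs⟩ ⟨y.val xs, s.val xs⟩ (m.val xs) := by
  unfold MP_b30479_gt.G2.dh3a dh3a
  have e1 : (⟨y.val xs, s.val xs⟩ : ℂ) - ⟨x.val xs, t.val xs⟩ =
      ⟨(NumU.E.sub y x).val xs, (NumU.E.sub s t).val xs⟩ := rfl
  rw [e1]
  simp only [E.val, dU_val]
  simp only [NumU.E.val]
  ring

theorem dh3w_val : (dh3w y s x t m).val xs =
    MP_b30479_gt.G2.dh3w ⟨y.val xs, s.val xs⟩ ⟨x.val xs, t.val xs⟩ (m.val xs) := by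
  unfold MP_b30479_gt.G2.dh3w dh3w
  have e1 : (⟨y.val xs, s.val xs⟩ : ℂ) + ⟨x.val xs, t.val xs⟩ =
      ⟨(NumU.E.add y x).val xs, (NumU.E.add s t).val xs⟩ := rfl
  rw [e1]
  simp only [E.val, dU_val]
  simp only [NumU.E.val]
  push_cast
  ring

theorem dh3v_val : (dh3v x t y s v k m).val xs =
    MP_b30479_gt.G2.dh3v ⟨x.val xs, t.val xs⟩ ⟨y.val xs, s.val xs⟩ ⟨v.val xs, k.val xs⟩
      (m.val xs) := by
  unfold MP_b30479_gt.G2.dh3v dh3v
  have e1 : (⟨y.val xs, s.val xs⟩ : ℂ) + ⟨v.val xs, k.val xs⟩ =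
      ⟨(NumU.E.add y v).val xs, (NumU.E.add s k).val xs⟩ := rfl
  have e2 : (⟨y.val xs, s.val xs⟩ : ℂ) - ⟨x.val xs, t.val xs⟩ =
      ⟨(NumU.E.sub y x).val xs, (NumU.E.sub s t).val xs⟩ := rfl
  rw [e1, e2]
  simp only [E.val, dU_val]
  simp only [NumU.E.val]
  push_cast
  ring

end E

namespace D

variable {x t y k s v m : E} {xs : List ℝ}

theorem dU_val : (dU x t m).val xs = MP_b30479_gt.G2.dU ⟨x.val xs, t.val xs⟩ (m.val xs) := by
  unfold MP_b30479_gt.G2.dU
  rw [LL_lnA_all, NumX.YY_yy]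
  rfl

theorem dh1_val : (dh1 x t y k m).val xs =
    MP_b30479_gt.G2.dh1 ⟨x.val xs, t.val xs⟩ ⟨y.val xs, k.val xs⟩ (m.val xs) := by
  unfold MP_b30479_gt.G2.dh1 dh1
  have e1 : (⟨x.val xs, t.val xs⟩ : ℂ) + ⟨y.val xs, k.val xs⟩ =
      ⟨(E.add x y).val xs, (E.add t k).val xs⟩ := rfl
  rw [e1]
  simp only [D.val, dU_val]
  simp only [E.val]
  norm_num
  ring

theorem dh2_val : (dh2 x t y k m).val xs =
    MP_b30479_gt.G2.dh2 ⟨x.val xs, t.val xs⟩ ⟨y.val xs, k.val xs⟩ (m.val xs) := by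
  unfold MP_b30479_gt.G2.dh2 dh2
  have e1 : (⟨x.val xs, t.val xs⟩ : ℂ) + ⟨y.val xs, k.val xs⟩ =
      ⟨(E.add x y).val xs, (E.add t k).val xs⟩ := rfl
  rw [e1]
  simp only [D.val, dU_val]
  simp only [E.val]
  push_cast
  ring

theorem dh3a_val : (dh3a x t y s m).val xs =
    MP_b30479_gt.G2.dh3a ⟨x.val xs, t.val xs⟩ ⟨y.val xs, s.val xs⟩ (m.val xs) := by
  unfold MP_b30479_gt.G2.dh3a dh3a
  have e1 : (⟨y.val xs, s.val xs⟩ : ℂ) - ⟨x.val xs, t.val xs⟩ =
      ⟨(E.sub y x).val xs, (E.sub s t).val xs⟩ := rfl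
  rw [e1]
  simp only [D.val, dU_val]
  simp only [E.val]
  ring

theorem dh3w_val : (dh3w y s x t m).val xs =
    MP_b30479_gt.G2.dh3w ⟨y.val xs, s.val xs⟩ ⟨x.val xs, t.val xs⟩ (m.val xs) := by
  unfold MP_b30479_gt.G2.dh3w dh3w
  have e1 : (⟨y.val xs, s.val xs⟩ : ℂ) + ⟨x.val xs, t.val xs⟩ =
      ⟨(E.add y x).val xs, (E.add s t).val xs⟩ := rfl
  rw [e1]
  simp only [D.val, dU_val]
  simp only [E.val]
  push_cast
  ring

theorem dh3v_val : (dh3v x t y s v k m).val xs =
    MP_b30479_gt.G2.dh3v ⟨x.val xs, t.val xs⟩ ⟨y.val xs, s.val xs⟩ ⟨v.val xs, k.val xs⟩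
      (m.val xs) := by
  unfold MP_b30479_gt.G2.dh3v dh3v
  have e1 : (⟨y.val xs, s.val xs⟩ : ℂ) + ⟨v.val xs, k.val xs⟩ =
      ⟨(E.add y v).val xs, (E.add s k).val xs⟩ := rfl
  have e2 : (⟨y.val xs, s.val xs⟩ : ℂ) - ⟨x.val xs, t.val xs⟩ =
      ⟨(E.sub y x).val xs, (E.sub s t).val xs⟩ := rfl
  rw [e1, e2]
  simp only [D.val, dU_val]
  simp only [E.val]
  push_cast
  ring

end D

end Pool.Agent.Work.NumG
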