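import Pool.Agent.Work.MP_b30479_gt.G2.WM11E
import Pool.Agent.Work.MP_b30479_gt.G2.WM11F
import Pool.Agent.Work.MP_b30479_gt.G2.WMMD
import Pool.Agent.Work.MP_b30479_gt.G2.RngD

/-!
# Kind `1 | 1`: from the rows to inequalities
-/

namespace Pool.Agent.Work.NumG

namespace M11

open NumU (uu uu_neg)
open NumX (yy)
open MP_b30479_gt.G2 (V1 tr)

/-- ramp of the mirrored path -/
noncomputable def τf (F : Fam) (x : ℝ) : ℝ := tr 0 ((F.XM : ℝ) / 1000) (15 / 100) (1 / 5) x
/-- ramp of a set of neighbours -/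
noncomputable def τk (k : KS) (y : ℝ) : ℝ :=
  tr 0 ((k.XM : ℝ) / 1000) ((k.cl : ℝ) / 1000) ((k.cr : ℝ) / 1000) y

/-- the neighbour is in the set -/
def InK (k : KS) (w : ℂ) : Prop :=
  ((k.y0 : ℝ) / 1000 ≤ w.re ∧ w.re ≤ (k.y1 : ℝ) / 1000) ∧
    (k.lo : ℝ) / 1000 * τk k w.re ≤ w.im ∧ w.im ≤ (k.hi : ℝ) / 1000 * τk k w.re

/-- the dual function -/
noncomputable def βf (F : Fam) (x T : ℝ) : ℝ := plR x F.b0 F.bl + F.bT / 100 * T

/-- the height of the target -/
noncomputable def af (F : Fam) (T : ℝ) : ℝ := F.an / F.ad * T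

/-- gain of the side A -/
noncomputable def GA (F : Fam) (x T : ℝ) (w : ℂ) : ℝ :=
  V1 ⟨(F.c : ℝ) / 1000, af F T⟩ w - V1 ⟨x, -(16 / 100 * τf F x)⟩ w

/-- gain of the side B -/
noncomputable def GB (F : Fam) (x T : ℝ) (w : ℂ) : ℝ :=
  V1 ⟨(F.c : ℝ) / 1000, -(af F T)⟩ w - V1 ⟨x, 16 / 100 * τf F x⟩ w +
    2 * Real.pi * (16 / 100 * τf F x)

/-- gain of the side A by the move to the main path at the same abscissa -/
noncomputable def LA (F : Fam) (x T : ℝ) (w : ℂ) : ℝ :=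
  V1 ⟨x, T * τf F x⟩ w - V1 ⟨x, -(16 / 100 * τf F x)⟩ w

/-- gain of the side B by the move to the main path at the same abscissa -/
noncomputable def LB (F : Fam) (x T : ℝ) (w : ℂ) : ℝ :=
  V1 ⟨x, -(T * τf F x)⟩ w - V1 ⟨x, 16 / 100 * τf F x⟩ w + 2 * Real.pi * (16 / 100 * τf F x)

/-- the ranges of the family -/
def InF (F : Fam) (x T : ℝ) : Prop :=
  ((F.x0 : ℝ) / 1000 ≤ x ∧ x ≤ (F.x1 : ℝ) / 1000) ∧ (F.T0 : ℝ) / 1000 ≤ T ∧ T ≤ (F.T1 : ℝ) / 1000

/-- conditions on a set -/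
def okK (k : KS) : Bool :=
  decide (0 < k.cl) && decide (0 < k.cr) && decide (k.cl + k.cr ≤ k.XM) && decide (k.lo ≤ k.hi)

def okF (F : Fam) : Bool := decide (350 ≤ F.XM)

/-- conditions for mixtures -/
def okM (F : Fam) (k : KS) : Bool :=
  decide (500 ≤ F.x0) && decide (F.x1 < 1000) && decide (F.x1 + k.y1 ≤ 1660) &&
    decide (F.T1 ≤ 160) && decide (0 ≤ F.W)

theorem InK.par {k : KS} {w : ℂ} (hk : okK k = true) (h : InK k w) :
    ∃ θ : ℝ, (k.lo : ℝ) / 1000 ≤ θ ∧ θ ≤ (k.hi : ℝ) / 1000 ∧ w.im = θ * τk k w.re := by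
  obtain ⟨-, h1, h2⟩ := h
  have h3 : 0 ≤ τk k w.re := (MP_b30479_gt.G2.tr_mem _ _ _ _).1
  simp only [okK, Bool.and_eq_true, decide_eq_true_eq] at hk
  have h4 : (k.lo : ℝ) ≤ k.hi := by exact_mod_cast hk.2
  rcases h3.eq_or_lt with h3 | h3
  · rw [← h3] at h1 h2 ⊢
    refine ⟨(k.lo : ℝ) / 1000, le_rfl, by linarith only [h4], ?_⟩
    linarith only [h1, h2]
  · refine ⟨w.im / τk k w.re, ?_, ?_, ?_⟩
    · rw [le_div_iff₀ h3]; exact h1
    · rw [div_le_iff₀ h3]; exact h2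
    · field_simp

variable {F : Fam} {k : KS} {x T y θ : ℝ}

theorem sK_val (hk : okK k = true) : (sK k).val [x, T, y, θ] = θ * τk k y := by
  simp only [okK, Bool.and_eq_true, decide_eq_true_eq] at hk
  unfold sK τk
  simp only [E.val]
  rw [E.tr_val (by omega) (by omega) (by omega)]
  simp only [vy, E.val, NumI.lkR_zero, NumI.lkR_succ]
  norm_num

theorem tx_val (hF : okF F = true) : (tx F).val [x, T, y, θ] = τf F x := by
  simp only [okF, decide_eq_true_eq] at hF
  unfold tx τf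
  rw [E.tr_val (by omega) (by omega) (by omega)]
  simp only [vx, E.val, NumI.lkR_zero]
  norm_num

theorem hx_val (hF : okF F = true) : (hx F).val [x, T, y, θ] = 16 / 100 * τf F x := by
  unfold hx
  simp only [E.val, tx_val hF, vH]
  norm_num

theorem Tx_val (hF : okF F = true) : (Tx F).val [x, T, y, θ] = T * τf F x := by
  unfold Tx
  simp only [E.val, tx_val hF, vT, NumI.lkR_zero, NumI.lkR_succ]

theorem bE_val : (bE F).val [x, T, y, θ] = βf F x T := by
  unfold bE βf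
  simp only [E.val, E.pl_val, vx, vT, NumI.lkR_zero, NumI.lkR_succ]
  norm_num

theorem dV1_val (x' t' x t y k : E) (xs : List ℝ) : (dV1 x' t' x t y k).val xs =
    V1 ⟨x'.val xs, t'.val xs⟩ ⟨y.val xs, k.val xs⟩ - V1 ⟨x.val xs, t.val xs⟩ ⟨y.val xs, k.val xs⟩ := by
  rw [MP_b30479_gt.G2.M11S.V1_form, MP_b30479_gt.G2.M11S.V1_form]
  simp only [dV1, E.val]
  norm_num
  ring

theorem gA_val (hF : okF F = true) (hk : okK k = true) : (gA F k).val [x, T, y, θ] =
    GA F x T ⟨y, θ * τk k y⟩ + βf F x T := by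
  unfold gA GA
  simp only [E.val, dV1_val, sK_val hk, hx_val hF, bE_val, aE, vx, vT, vy, NumI.lkR_zero,
    NumI.lkR_succ, af]
  norm_num

theorem gB_val (hF : okF F = true) (hk : okK k = true) : (gB F k).val [x, T, y, θ] =
    GB F x T ⟨y, θ * τk k y⟩ - βf F x T := by
  unfold gB GB
  simp only [E.val, dV1_val, sK_val hk, hx_val hF, bE_val, aE, vx, vT, vy, NumI.lkR_zero,
    NumI.lkR_succ, af]
  norm_num
  ring

theorem tlo_cast : ((tlo k : ℕ) : ℝ) - (off k : ℕ) = k.lo := by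
  have e : ((tlo k : ℕ) : ℤ) - (off k : ℕ) = k.lo := by
    unfold tlo off
    omega
  exact_mod_cast e

theorem thi_cast (hk : okK k = true) : ((thi k : ℕ) : ℝ) - (off k : ℕ) = k.hi := by
  simp only [okK, Bool.and_eq_true, decide_eq_true_eq] at hk
  have e : ((thi k : ℕ) : ℤ) - (off k : ℕ) = k.hi := by
    unfold thi off
    omega
  exact_mod_cast e

/-- the point of the box -/
theorem box {a b c : ℕ} {es : List E} (hk : okK k = true)
    (h : chkF es 1000 0 0 0 (off k) 40 F.x0 F.x1 F.T0 F.T1 a b (tlo k) (thi k) c = true)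
    (hx : InF F x T) (h0 : (a : ℝ) / 1000 ≤ y) (h1 : y ≤ (b : ℝ) / 1000)
    (t0 : (k.lo : ℝ) / 1000 ≤ θ) (t1 : θ ≤ (k.hi : ℝ) / 1000) :
    ∃ e ∈ es, 0 < e.val [x, T, y, θ] := by
  obtain ⟨⟨x0, x1⟩, T0, T1⟩ := hx
  have e1 := tlo_cast (k := k)
  have e2 := thi_cast hk
  refine chkF4 h (by norm_num) ?_ ?_ ?_ ?_ ?_ ?_ ?_ ?_ <;> push_cast
  · simpa using x0
  · simpa using x1
  · simpa using T0
  · simpa using T1
  · simpa using h0
  · simpa using h1
  · rw [e1]; exact t0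
  · rw [e2]; exact t1

theorem boxD {a b c : ℕ} {es : List D} (hk : okK k = true)
    (h : chkD es 1000 0 0 0 (off k) 40 F.x0 F.x1 F.T0 F.T1 a b (tlo k) (thi k) c = true)
    (hx : InF F x T) (h0 : (a : ℝ) / 1000 ≤ y) (h1 : y ≤ (b : ℝ) / 1000)
    (t0 : (k.lo : ℝ) / 1000 ≤ θ) (t1 : θ ≤ (k.hi : ℝ) / 1000) :
    ∃ e ∈ es, 0 < e.val [x, T, y, θ] := by
  obtain ⟨⟨x0, x1⟩, T0, T1⟩ := hx
  have e1 := tlo_cast (k := k)
  have e2 := thi_cast hk
  refine chkD4 h (by norm_num) ?_ ?_ ?_ ?_ ?_ ?_ ?_ ?_ <;> push_cast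
  · simpa using x0
  · simpa using x1
  · simpa using T0
  · simpa using T1
  · simpa using h0
  · simpa using h1
  · rw [e1]; exact t0
  · rw [e2]; exact t1

variable {w : ℂ}

/-- far target, side A -/
theorem farA {c : ℕ} (hF : okF F = true) (hk : okK k = true)
    (h : chkF [gA F k] 1000 0 0 0 (off k) 40 F.x0 F.x1 F.T0 F.T1 k.y0 k.y1 (tlo k) (thi k) c = true)
    (hx : InF F x T) (hw : InK k w) : -βf F x T < GA F x T w := by
  obtain ⟨θ, t0, t1, e⟩ := hw.par hk
  obtain ⟨e1, he, hp⟩ := box hk h hx hw.1.1 hw.1.2 t0 t1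
  rw [List.mem_singleton] at he
  have hw' : (⟨w.re, θ * τk k w.re⟩ : ℂ) = w := Complex.ext rfl e.symm
  rw [he, gA_val hF hk, hw'] at hp
  linarith only [hp]

/-- far target, side B -/
theorem farB {c : ℕ} (hF : okF F = true) (hk : okK k = true)
    (h : chkF [gB F k] 1000 0 0 0 (off k) 40 F.x0 F.x1 F.T0 F.T1 k.y0 k.y1 (tlo k) (thi k) c = true)
    (hx : InF F x T) (hw : InK k w) : βf F x T < GB F x T w := by
  obtain ⟨θ, t0, t1, e⟩ := hw.par hk
  obtain ⟨e1, he, hp⟩ := box hk h hx hw.1.1 hw.1.2 t0 t1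
  rw [List.mem_singleton] at he
  have hw' : (⟨w.re, θ * τk k w.re⟩ : ℂ) = w := Complex.ext rfl e.symm
  rw [he, gB_val hF hk, hw'] at hp
  linarith only [hp]

/-! ### first order condition -/

theorem mdh_val {xs : List ℝ} {x t y k m c : E} : (dhc x t y k m c).val xs =
    MP_b30479_gt.G2.dh1 ⟨x.val xs, t.val xs⟩ ⟨y.val xs, k.val xs⟩ (m.val xs) +
      m.val xs * (c.val xs - yy (x.val xs + y.val xs) (t.val xs + k.val xs)) := by
  have h := D.dh1_val (x := x) (t := t) (y := y) (k := k) (m := m) (xs := xs)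
  rw [← h]
  simp only [dhc, D.dh1, D.dU, D.val, E.val]
  ring

/-- first order condition, side A -/
noncomputable def QA (F : Fam) (x : ℝ) (w : ℂ) : ℝ :=
  MP_b30479_gt.G2.dh1 ⟨x, -(16 / 100 * τf F x)⟩ w (4 / 5)
/-- first order condition, side B -/
noncomputable def QB (F : Fam) (x : ℝ) (w : ℂ) : ℝ :=
  MP_b30479_gt.G2.dh1 ⟨x, 16 / 100 * τf F x⟩ w (-(4 / 5)) + 8 / 5 * Real.pi

theorem focA {c : ℕ} (hF : okF F = true) (hk : okK k = true)
    (h : chkD (DA F k) 1000 0 0 0 (off k) 40 F.x0 F.x1 F.T0 F.T1 k.y0 k.y1 (tlo k) (thi k) c = true)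
    (hx : InF F x T) (hw : InK k w) : -βf F x T < GA F x T w + F.W / 100 * QA F x w := by
  obtain ⟨θ, t0, t1, e⟩ := hw.par hk
  obtain ⟨e1, he, hp⟩ := boxD hk h hx hw.1.1 hw.1.2 t0 t1
  unfold DA at he
  rw [List.mem_singleton] at he
  have hw' : (⟨w.re, θ * τk k w.re⟩ : ℂ) = w := Complex.ext rfl e.symm
  rw [he] at hp
  simp only [D.val, D.dh1_val, gA_val hF hk] at hp
  simp only [E.val, sK_val hk, hx_val hF, vx, vy, NumI.lkR_zero, NumI.lkR_succ, hw'] at hp
  unfold QA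
  norm_num at hp ⊢
  linarith only [hp]

theorem focB {c : ℕ} (hF : okF F = true) (hk : okK k = true) (hl : 0 ≤ k.lo)
    (hm : F.x1 + k.y1 ≤ 1660) (hx1 : F.x1 < 1000) (hW : 0 ≤ F.W)
    (h : chkD (DB F k) 1000 0 0 0 (off k) 40 F.x0 F.x1 F.T0 F.T1 k.y0 k.y1 (tlo k) (thi k) c = true)
    (hx : InF F x T) (hw : InK k w) : βf F x T < GB F x T w + F.W / 100 * QB F x w := by
  obtain ⟨θ, t0, t1, e⟩ := hw.par hk
  obtain ⟨e1, he, hp⟩ := boxD hk h hx hw.1.1 hw.1.2 t0 t1
  have hw' : (⟨w.re, θ * τk k w.re⟩ : ℂ) = w := Complex.ext rfl e.symm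
  have hpi := Real.pi_pos
  have hW' : (0 : ℝ) ≤ F.W := by exact_mod_cast hW
  unfold DB at he
  rw [List.mem_cons, List.mem_singleton] at he
  rcases he with he | he
  · rw [he] at hp
    simp only [D.val, D.dh1_val, gB_val hF hk] at hp
    simp only [E.val, sK_val hk, hx_val hF, vx, vy, NumI.lkR_zero, NumI.lkR_succ, hw'] at hp
    unfold QB
    norm_num at hp ⊢
    linarith only [hp]
  · rw [he] at hp
    simp only [D.val, mdh_val, gB_val hF hk] at hp
    simp only [E.val, sK_val hk, hx_val hF, rv, vE, uE, u1, vx, vy, NumI.lkR_zero, NumI.lkR_succ,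
      hw'] at hp
    have hτ : 0 ≤ τf F x := (MP_b30479_gt.G2.tr_mem _ _ _ _).1
    have hτk : 0 ≤ τk k w.re := (MP_b30479_gt.G2.tr_mem _ _ _ _).1
    have hl' : (0 : ℝ) ≤ k.lo := by exact_mod_cast hl
    have hθ : 0 ≤ θ := le_trans (by positivity) t0
    have hr : 0 ≤ 16 / 100 * τf F x + θ * τk k w.re := by positivity
    have hx1' : (F.x1 : ℝ) < 1000 := by exact_mod_cast hx1
    have hm' : (F.x1 : ℝ) + k.y1 ≤ 1660 := by exact_mod_cast hm
    have a1 : x ≤ F.x1 / 1000 := hx.1.2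
    have a2 : w.re ≤ k.y1 / 1000 := hw.1.2
    have a3 : 0 ≤ x := le_trans (by positivity) hx.1.1
    have a4 : 0 ≤ w.re := le_trans (by positivity) hw.1.1
    -- the bound of the slope
    have key : yy (x + w.re) (16 / 100 * τf F x + θ * τk k w.re) ≤ Real.pi +
        12 * (θ * τk k w.re + 16 / 100 * τf F x) * max (x + w.re - 1 - 1 / 2) 0 := by
      set r := 16 / 100 * τf F x + θ * τk k w.re with hr'
      rw [show θ * τk k w.re + 16 / 100 * τf F x = r by rw [hr']; ring]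
      have hmx : 0 ≤ max (x + w.re - 1 - 1 / 2) 0 := le_max_right _ _
      have h12 : 0 ≤ 12 * r * max (x + w.re - 1 - 1 / 2) 0 := by positivity
      rcases le_or_gt (x + w.re) 1 with hu | hu
      · have := (abs_le.1 (NumX.abs_yy_le (x := x + w.re) (t := r) (by linarith only [a3, a4]) hu)).2
        linarith only [hpi, h12, this]
      · rw [NumX.yy_sub_one]
        have hsg : Real.pi * NumX.sg r ≤ Real.pi := by
          have := (abs_le.1 (NumX.sg_abs r)).2
          nlinarith only [hpi, this]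
        have h3 : yy (x + w.re - 1) r ≤ 12 * r * max (x + w.re - 1 - 1 / 2) 0 := by
          rcases le_total (x + w.re - 1) (1 / 2) with hv | hv
          · exact (yy_nonpos' (by linarith only [hu]) hv hr).trans h12
          · rw [max_eq_left (by linarith only [hv])]
            exact yy_small hv (by linarith only [hm', a1, a2, hu]) hr
        linarith only [hsg, h3]
    unfold QB
    norm_num at hp key ⊢
    have h5 : 0 ≤ (F.W : ℝ) / 100 * (4 / 5) * (Real.pi +
        12 * (θ * τk k w.re + 4 / 25 * τf F x) * max (x + w.re - 1 - 1 / 2) 0 -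
          yy (x + w.re) (4 / 25 * τf F x + θ * τk k w.re)) :=
      mul_nonneg (by positivity) (by linarith only [key])
    nlinarith only [hp, h5, h5]

/-! ### mixtures -/

theorem comb {τ W G β L f : ℝ} (hτ : 0 < τ) (hW : 0 ≤ W) (h1 : τ * f ≤ L)
    (h2 : 0 < G + β + W / 100 * f) : -β < G + W / 100 / τ * L := by
  have h3 : f ≤ L / τ := by rw [le_div_iff₀ hτ]; linarith only [h1]
  have h4 : W / 100 * f ≤ W / 100 / τ * L := by
    have h5 : W / 100 / τ * L = W / 100 * (L / τ) := by ring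
    rw [h5]
    exact mul_le_mul_of_nonneg_left h3 (by positivity)
  linarith only [h2, h4]

theorem mA_val (hF : okF F = true) (hk : okK k = true) (f : E) : (mA F k f).val [x, T, y, θ] =
    GA F x T ⟨y, θ * τk k y⟩ + βf F x T + F.W / 100 * f.val [x, T, y, θ] := by
  unfold mA
  simp only [E.val, gA_val hF hk]
  norm_num

theorem mB_val (hF : okF F = true) (hk : okK k = true) (f : E) : (mB F k f).val [x, T, y, θ] =
    GB F x T ⟨y, θ * τk k y⟩ + -βf F x T + F.W / 100 * (f.val [x, T, y, θ] + 32 / 100 * Real.pi) := by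
  unfold mB
  simp only [E.val, gB_val hF hk]
  norm_num
  ring

theorem hpi_val (xs : List ℝ) : hpi.val xs = Real.pi / 2 := by
  simp only [hpi, E.val]
  norm_num
  ring

theorem rv_val (r : E) : (rv r).val [x, T, y, θ] =
    12 * r.val [x, T, y, θ] * max (x + y - 1 - 1 / 2) 0 := by
  simp only [rv, vE, uE, u1, vx, vy, E.val, NumI.lkR_zero, NumI.lkR_succ]
  norm_num

theorem aH_val (hF : okF F = true) (hk : okK k = true) : (aH F k).val [x, T, y, θ] =
    |θ * τk k y| + 16 / 100 * τf F x := by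
  simp only [aH, E.val, E.ab_val, sK_val hk, hx_val hF]

theorem TH_val : TH.val [x, T, y, θ] = T + 16 / 100 := by
  simp only [TH, vT, vH, E.val, NumI.lkR_zero, NumI.lkR_succ]
  norm_num

theorem uE_val : uE.val [x, T, y, θ] = x + y := by
  simp only [uE, vx, vy, E.val, NumI.lkR_zero, NumI.lkR_succ]

theorem vE_val : vE.val [x, T, y, θ] = x + y - 1 := by
  simp only [vE, u1, E.val, uE_val]
  norm_num

theorem fA0_val (hF : okF F = true) (hk : okK k = true) : (fA0 F k).val [x, T, y, θ] =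
    (T + 16 / 100) * (Real.pi * (y - 1) +
      max (yy (x + y) (θ * τk k y - 16 / 100 * τf F x)) (-(Real.pi / 2))) := by
  simp only [fA0, E.val, E.mx_val, TH_val, uE_val, hpi_val, sK_val hk, hx_val hF, vy, u1,
    NumI.lkR_zero, NumI.lkR_succ]
  norm_num

theorem fA1_val (hF : okF F = true) (hk : okK k = true) : (fA1 F k).val [x, T, y, θ] =
    (T + 16 / 100) * (Real.pi * (y - 2) -
      12 * (|θ * τk k y| + 16 / 100 * τf F x) * max (x + y - 1 - 1 / 2) 0) := by
  simp only [fA1, E.val, TH_val, rv_val, aH_val hF hk, vy, NumI.lkR_zero, NumI.lkR_succ]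
  norm_num

theorem fA2_val (hF : okF F = true) : (fA2 F).val [x, T, y, θ] =
    (T + 16 / 100) * (Real.pi * (y - 1)) -
      (16 / 100 - T) * (Real.pi + 12 * (16 / 100 * τf F x) * max (x + y - 1 - 1 / 2) 0) := by
  simp only [fA2, E.val, TH_val, rv_val, hx_val hF, vy, vH, vT, u1, NumI.lkR_zero, NumI.lkR_succ]
  norm_num

theorem fA3_val (hF : okF F = true) (hk : okK k = true) : (fA3 F k).val [x, T, y, θ] =
    (T + 16 / 100) * (Real.pi * y +
      min 0 (max (yy (x + y - 1) (θ * τk k y + T * τf F x)) (-(Real.pi / 2)))) := by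
  simp only [fA3, E.val, E.mx_val, E.mn_val, TH_val, vE_val, hpi_val, sK_val hk, Tx_val hF, vy,
    NumI.lkR_zero, NumI.lkR_succ]
  norm_num

theorem fB0_val (hF : okF F = true) (hk : okK k = true) : (fB0 F k).val [x, T, y, θ] =
    (T + 16 / 100) * (Real.pi * (1 - y) -
      min (Real.pi / 2) (yy (x + y) (θ * τk k y + 16 / 100 * τf F x))) := by
  simp only [fB0, E.val, E.mn_val, TH_val, uE_val, hpi_val, sK_val hk, hx_val hF, vy, u1,
    NumI.lkR_zero, NumI.lkR_succ]
  norm_num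

theorem fB1_val (hF : okF F = true) (hk : okK k = true) : (fB1 F k).val [x, T, y, θ] =
    -((T + 16 / 100) * (Real.pi * y +
      12 * (|θ * τk k y| + 16 / 100 * τf F x) * max (x + y - 1 - 1 / 2) 0)) := by
  simp only [fB1, E.val, TH_val, rv_val, aH_val hF hk, vy, NumI.lkR_zero, NumI.lkR_succ]

theorem fB2_val (hF : okF F = true) : (fB2 F).val [x, T, y, θ] =
    (T + 16 / 100) * (Real.pi * (1 - y)) -
      (16 / 100 - T) * (Real.pi + 12 * (16 / 100 * τf F x) * max (x + y - 1 - 1 / 2) 0) := by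
  simp only [fB2, E.val, TH_val, rv_val, hx_val hF, vy, vH, vT, u1, NumI.lkR_zero, NumI.lkR_succ]
  norm_num

theorem fB3_val (hF : okF F = true) (hk : okK k = true) : (fB3 F k).val [x, T, y, θ] =
    -((T + 16 / 100) * (Real.pi * y +
      12 * (|θ * τk k y| + 16 / 100 * τf F x) * max (x + y - 1 - 1 / 2) 0 +
      min 0 (yy (x + y - 1) (θ * τk k y - T * τf F x)))) := by
  simp only [fB3, E.val, E.mn_val, TH_val, rv_val, aH_val hF hk, vE_val, sK_val hk, Tx_val hF, vy,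
    NumI.lkR_zero, NumI.lkR_succ]
  norm_num

section mix

variable (hF : okF F = true) (hk : okK k = true) (hm : okM F k = true)
include hF hk hm

theorem mixA {c1 : ℕ}
    (h0 : 1000 ≤ F.x0 + k.y0 ∨ ∃ c, chkF (A0 F k) 1000 0 0 0 (off k) 40 F.x0 F.x1 F.T0 F.T1 k.y0
      (min k.y1 (1000 - F.x0)) (tlo k) (thi k) c = true)
    (h1 : chkF (A1 F k) 1000 0 0 0 (off k) 40 F.x0 F.x1 F.T0 F.T1 (max k.y0 (1000 - F.x1)) k.y1
      (tlo k) (thi k) c1 = true ∨ (0 ≤ k.lo ∧ chkF (A1p F k) 1000 0 0 0 (off k) 40 F.x0 F.x1 F.T0 F.T1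
      (max k.y0 (1000 - F.x1)) k.y1 (tlo k) (thi k) c1 = true))
    (hx : InF F x T) (hw : InK k w) (hτ : 0 < τf F x) :
    -βf F x T < GA F x T w + F.W / 100 / τf F x * LA F x T w := by
  simp only [okM, Bool.and_eq_true, decide_eq_true_eq] at hm
  obtain ⟨⟨⟨⟨m1, m2⟩, m3⟩, m4⟩, m5⟩ := hm
  have n1 : (500 : ℝ) ≤ F.x0 := by exact_mod_cast m1
  have n2 : (F.x1 : ℝ) < 1000 := by exact_mod_cast m2
  have n3 : (F.x1 : ℝ) + k.y1 ≤ 1660 := by exact_mod_cast m3
  have n4 : (F.T1 : ℝ) ≤ 160 := by exact_mod_cast m4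
  have n5 : (0 : ℝ) ≤ F.W := by exact_mod_cast m5
  obtain ⟨θ, t0, t1, e⟩ := hw.par hk
  have hw' : (⟨w.re, θ * τk k w.re⟩ : ℂ) = w := Complex.ext rfl e.symm
  have a0 : (F.x0 : ℝ) / 1000 ≤ x := hx.1.1
  have a1 : x ≤ (F.x1 : ℝ) / 1000 := hx.1.2
  have a2 : (F.T0 : ℝ) / 1000 ≤ T := hx.2.1
  have a3 : T ≤ (F.T1 : ℝ) / 1000 := hx.2.2
  have a4 : (k.y0 : ℝ) / 1000 ≤ w.re := hw.1.1
  have a5 : w.re ≤ (k.y1 : ℝ) / 1000 := hw.1.2
  have x0 : 1 / 2 ≤ x := by linarith only [n1, a0]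
  have x1 : x < 1 := by linarith only [n2, a1]
  have T0 : 0 ≤ T := le_trans (by positivity) a2
  have T1 : T ≤ 16 / 100 := by linarith only [n4, a3]
  have y0 : 0 ≤ w.re := le_trans (by positivity) a4
  have u2 : x + w.re ≤ 5 / 3 := by linarith only [n1, n3, a0, a1, a5, x1]
  have hL : LA F x T w = V1 ⟨x, T * τf F x⟩ ⟨w.re, θ * τk k w.re⟩ -
      V1 ⟨x, -(16 / 100 * τf F x)⟩ ⟨w.re, θ * τk k w.re⟩ := by rw [hw']; rfl
  rcases lt_or_ge (x + w.re) 1 with hu | hu
  · rcases h0 with h0 | ⟨c, h0⟩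
    · exfalso
      have : (1000 : ℝ) ≤ F.x0 + k.y0 := by exact_mod_cast h0
      linarith only [a0, a4, hu, this]
    obtain ⟨e1, he, hp⟩ := box hk h0 hx a4 (by
      rw [Nat.cast_min, le_div_iff₀ (by norm_num), le_min_iff]
      constructor
      · linarith only [a5]
      · rcases le_total F.x0 1000 with h2 | h2
        · rw [Nat.cast_sub h2]; push_cast; linarith only [a0, hu]
        · exfalso
          have : (1000 : ℝ) ≤ F.x0 := by exact_mod_cast h2
          linarith only [a0, x1, this]) t0 t1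
    simp only [A0, List.mem_cons, List.not_mem_nil, or_false] at he
    rcases he with rfl | rfl
    · rw [mA_val hF hk, fA0_val hF hk, hw'] at hp
      refine comb hτ n5 ?_ hp
      rw [hL]
      exact flA0 x0 x1 T0 T1 hτ.le y0 hu
    · simp only [E.val, uE_val, u1] at hp
      norm_num at hp
      linarith only [hu, hp]
  · have hy : ((max k.y0 (1000 - F.x1) : ℕ) : ℝ) / 1000 ≤ w.re := by
      rw [Nat.cast_max, div_le_iff₀ (by norm_num), max_le_iff]
      constructor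
      · linarith only [a4]
      · rw [Nat.cast_sub (by omega)]; push_cast; linarith only [a1, hu]
    have key : ∀ f : ℝ, τf F x * f ≤ LA F x T w → 0 < GA F x T w + βf F x T + F.W / 100 * f →
        -βf F x T < GA F x T w + F.W / 100 / τf F x * LA F x T w := fun f h2 h3 => comb hτ n5 h2 h3
    rcases h1 with h1 | ⟨hl, h1⟩
    · obtain ⟨e1, he, hp⟩ := box hk h1 hx hy a5 t0 t1
      simp only [A1, List.mem_cons, List.not_mem_nil, or_false] at he
      rcases he with rfl | rfl | rfl | rfl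
      · rw [mA_val hF hk, fA1_val hF hk, hw'] at hp
        refine key _ ?_ hp
        rw [hL]
        exact flA1 x0 x1 T0 T1 hτ.le y0 u2 hu
      · rw [E.mn_val, lt_min_iff, mA_val hF hk, fA2_val hF, hw', sK_val hk] at hp
        refine key _ ?_ hp.2
        rw [hL]
        exact flA2 x0 x1 T0 T1 hτ.le y0 u2 hu hp.1.le
      · rw [E.mn_val, lt_min_iff, mA_val hF hk, fA3_val hF hk, hw'] at hp
        refine key _ ?_ hp.2
        rw [hL]
        have h5 := hp.1
        simp only [E.val, sK_val hk, hx_val hF] at h5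
        exact flA3 x0 x1 T0 T1 hτ.le y0 u2 hu (by linarith only [h5])
      · simp only [E.val, uE_val, u1] at hp
        norm_num at hp
        linarith only [hu, hp]
    · obtain ⟨e1, he, hp⟩ := box hk h1 hx hy a5 t0 t1
      simp only [A1p, List.mem_cons, List.not_mem_nil, or_false] at he
      have hl' : (0 : ℝ) ≤ k.lo := by exact_mod_cast hl
      have hs : 0 ≤ θ * τk k w.re :=
        mul_nonneg (le_trans (by positivity) t0) (MP_b30479_gt.G2.tr_mem _ _ _ _).1
      rcases he with rfl | rfl | rfl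
      · rw [mA_val hF hk, fA2_val hF, hw'] at hp
        refine key _ ?_ hp
        rw [hL]
        exact flA2 x0 x1 T0 T1 hτ.le y0 u2 hu hs
      · rw [E.mn_val, lt_min_iff, mA_val hF hk, fA3_val hF hk, hw'] at hp
        refine key _ ?_ hp.2
        rw [hL]
        have h5 := hp.1
        simp only [E.val, sK_val hk, hx_val hF] at h5
        exact flA3 x0 x1 T0 T1 hτ.le y0 u2 hu (by linarith only [h5])
      · simp only [E.val, uE_val, u1] at hp
        norm_num at hp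
        linarith only [hu, hp]

theorem mixB {c1 : ℕ}
    (h0 : 1000 ≤ F.x0 + k.y0 ∨ ∃ c, chkF (B0 F k) 1000 0 0 0 (off k) 40 F.x0 F.x1 F.T0 F.T1 k.y0
      (min k.y1 (1000 - F.x0)) (tlo k) (thi k) c = true)
    (h1 : chkF (B1 F k) 1000 0 0 0 (off k) 40 F.x0 F.x1 F.T0 F.T1 (max k.y0 (1000 - F.x1)) k.y1
      (tlo k) (thi k) c1 = true ∨ (k.hi ≤ 0 ∧ chkF (B1n F k) 1000 0 0 0 (off k) 40 F.x0 F.x1 F.T0 F.T1
      (max k.y0 (1000 - F.x1)) k.y1 (tlo k) (thi k) c1 = true))
    (hx : InF F x T) (hw : InK k w) (hτ : 0 < τf F x) :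
    βf F x T < GB F x T w + F.W / 100 / τf F x * LB F x T w := by
  simp only [okM, Bool.and_eq_true, decide_eq_true_eq] at hm
  obtain ⟨⟨⟨⟨m1, m2⟩, m3⟩, m4⟩, m5⟩ := hm
  have n1 : (500 : ℝ) ≤ F.x0 := by exact_mod_cast m1
  have n2 : (F.x1 : ℝ) < 1000 := by exact_mod_cast m2
  have n3 : (F.x1 : ℝ) + k.y1 ≤ 1660 := by exact_mod_cast m3
  have n4 : (F.T1 : ℝ) ≤ 160 := by exact_mod_cast m4
  have n5 : (0 : ℝ) ≤ F.W := by exact_mod_cast m5
  obtain ⟨θ, t0, t1, e⟩ := hw.par hk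
  have hw' : (⟨w.re, θ * τk k w.re⟩ : ℂ) = w := Complex.ext rfl e.symm
  have a0 : (F.x0 : ℝ) / 1000 ≤ x := hx.1.1
  have a1 : x ≤ (F.x1 : ℝ) / 1000 := hx.1.2
  have a2 : (F.T0 : ℝ) / 1000 ≤ T := hx.2.1
  have a3 : T ≤ (F.T1 : ℝ) / 1000 := hx.2.2
  have a4 : (k.y0 : ℝ) / 1000 ≤ w.re := hw.1.1
  have a5 : w.re ≤ (k.y1 : ℝ) / 1000 := hw.1.2
  have x0 : 1 / 2 ≤ x := by linarith only [n1, a0]
  have x1 : x < 1 := by linarith only [n2, a1]
  have T0 : 0 ≤ T := le_trans (by positivity) a2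
  have T1 : T ≤ 16 / 100 := by linarith only [n4, a3]
  have y0 : 0 ≤ w.re := le_trans (by positivity) a4
  have u2 : x + w.re ≤ 5 / 3 := by linarith only [n1, n3, a0, a1, a5, x1]
  have hL : LB F x T w = V1 ⟨x, -(T * τf F x)⟩ ⟨w.re, θ * τk k w.re⟩ -
      V1 ⟨x, 16 / 100 * τf F x⟩ ⟨w.re, θ * τk k w.re⟩ + 2 * Real.pi * (16 / 100 * τf F x) := by
    rw [hw']; rfl
  have key : ∀ f : ℝ, τf F x * f ≤ V1 ⟨x, -(T * τf F x)⟩ ⟨w.re, θ * τk k w.re⟩ -
      V1 ⟨x, 16 / 100 * τf F x⟩ ⟨w.re, θ * τk k w.re⟩ →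
      0 < GB F x T w + -βf F x T + F.W / 100 * (f + 32 / 100 * Real.pi) →
      βf F x T < GB F x T w + F.W / 100 / τf F x * LB F x T w := by
    intro f h2 h3
    have h4 := comb (L := LB F x T w) hτ n5 (by rw [hL]; nlinarith only [h2, h2]) h3
    linarith only [h4]
  rcases lt_or_ge (x + w.re) 1 with hu | hu
  · rcases h0 with h0 | ⟨c, h0⟩
    · exfalso
      have : (1000 : ℝ) ≤ F.x0 + k.y0 := by exact_mod_cast h0
      linarith only [a0, a4, hu, this]
    obtain ⟨e1, he, hp⟩ := box hk h0 hx a4 (by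
      rw [Nat.cast_min, le_div_iff₀ (by norm_num), le_min_iff]
      constructor
      · linarith only [a5]
      · rcases le_total F.x0 1000 with h2 | h2
        · rw [Nat.cast_sub h2]; push_cast; linarith only [a0, hu]
        · exfalso
          have : (1000 : ℝ) ≤ F.x0 := by exact_mod_cast h2
          linarith only [a0, x1, this]) t0 t1
    simp only [B0, List.mem_cons, List.not_mem_nil, or_false] at he
    rcases he with rfl | rfl
    · rw [mB_val hF hk, fB0_val hF hk, hw'] at hp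
      exact key _ (flB0 x0 x1 T0 T1 hτ.le y0 hu) hp
    · simp only [E.val, uE_val, u1] at hp
      norm_num at hp
      linarith only [hu, hp]
  · have hy : ((max k.y0 (1000 - F.x1) : ℕ) : ℝ) / 1000 ≤ w.re := by
      rw [Nat.cast_max, div_le_iff₀ (by norm_num), max_le_iff]
      constructor
      · linarith only [a4]
      · rw [Nat.cast_sub (by omega)]; push_cast; linarith only [a1, hu]
    rcases h1 with h1 | ⟨hl, h1⟩
    · obtain ⟨e1, he, hp⟩ := box hk h1 hx hy a5 t0 t1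
      simp only [B1, List.mem_cons, List.not_mem_nil, or_false] at he
      rcases he with rfl | rfl | rfl | rfl
      · rw [mB_val hF hk, fB1_val hF hk, hw'] at hp
        exact key _ (flB1 x0 x1 T0 T1 hτ.le y0 u2 hu) hp
      · rw [E.mn_val, lt_min_iff, mB_val hF hk, fB2_val hF, hw'] at hp
        have h5 := hp.1
        simp only [E.val, sK_val hk] at h5
        exact key _ (flB2 x0 x1 T0 T1 hτ.le y0 u2 hu (by linarith only [h5])) hp.2
      · rw [E.mn_val, lt_min_iff, mB_val hF hk, fB3_val hF hk, hw'] at hp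
        have h5 := hp.1
        simp only [E.val, sK_val hk, Tx_val hF] at h5
        exact key _ (flB3 x0 x1 T0 T1 hτ.le y0 u2 hu (by linarith only [h5])) hp.2
      · simp only [E.val, uE_val, u1] at hp
        norm_num at hp
        linarith only [hu, hp]
    · obtain ⟨e1, he, hp⟩ := box hk h1 hx hy a5 t0 t1
      simp only [B1n, List.mem_cons, List.not_mem_nil, or_false] at he
      have hl' : (k.hi : ℝ) ≤ 0 := by exact_mod_cast hl
      have hs : θ * τk k w.re ≤ 0 :=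
        mul_nonpos_of_nonpos_of_nonneg (t1.trans (by linarith only [hl'])) (MP_b30479_gt.G2.tr_mem _ _ _ _).1
      rcases he with rfl | rfl
      · rw [mB_val hF hk, fB2_val hF, hw'] at hp
        exact key _ (flB2 x0 x1 T0 T1 hτ.le y0 u2 hu hs) hp
      · simp only [E.val, uE_val, u1] at hp
        norm_num at hp
        linarith only [hu, hp]

end mix

end M11

end Pool.Agent.Work.NumG
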