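import Pool.Agent.Work.MP_b30479_gt.G2.WM11G
import Pool.Agent.Work.MP_b30479_gt.G2.MRX
import Pool.Agent.Work.MP_b30479_gt.G2.RngR

/-!
# Kind `1 | 1`: sets of positions, the inequalities of the maximiser
-/

namespace Pool.Agent.Work.NumG

namespace M11

open MP_b30479_gt.G2 (V1 tr dh1 DOk)

/-! ### ramp functions -/

theorem tr_ub' {X cl cr y : ℝ} (hcl : 0 < cl) (hcr : 0 < cr) (y0 : 0 ≤ y) (y1 : y ≤ X) :
    0 ≤ tr 0 X cl cr y ∧ tr 0 X cl cr y ≤ 1 ∧ cl * tr 0 X cl cr y ≤ y ∧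
      cr * tr 0 X cl cr y ≤ X - y := by
  have h2 : 0 ≤ (y - 0) / cl := div_nonneg (by linarith only [y0]) hcl.le
  have h3 : 0 ≤ (X - y) / cr := div_nonneg (by linarith only [y1]) hcr.le
  have h0 := MP_b30479_gt.G2.tr_mem X cl cr y
  refine ⟨h0.1, h0.2, ?_, ?_⟩
  · have h4 : tr 0 X cl cr y ≤ (y - 0) / cl := by
      unfold tr
      exact max_le h2 ((min_le_right _ _).trans (min_le_left _ _))
    rw [le_div_iff₀ hcl] at h4
    linarith only [h4]
  · have h4 : tr 0 X cl cr y ≤ (X - y) / cr := by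
      unfold tr
      exact max_le h3 ((min_le_right _ _).trans (min_le_right _ _))
    rw [le_div_iff₀ hcr] at h4
    linarith only [h4]

theorem le_tr' {H XM cl cr y k : ℝ} (hl : 0 < cl) (hr : 0 < cr) (h1 : k ≤ H)
    (h2 : cl * k ≤ H * y) (h3 : cr * k ≤ H * (XM - y)) (h4 : 0 < H) : k ≤ H * tr 0 XM cl cr y := by
  unfold tr
  refine le_trans ?_ (mul_le_mul_of_nonneg_left (le_max_right _ _) h4.le)
  have e1 : k ≤ H * ((y - 0) / cl) := by
    rw [sub_zero, mul_div_assoc', le_div_iff₀ hl]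
    linarith only [h2]
  have e2 : k ≤ H * ((XM - y) / cr) := by
    rw [mul_div_assoc', le_div_iff₀ hr]
    linarith only [h3]
  rw [mul_min_of_nonneg _ _ h4.le, mul_min_of_nonneg _ _ h4.le]
  exact le_min (by linarith only [h1]) (le_min e1 e2)

theorem tr_dom {θ H X cl cr X' cl' cr' y : ℝ} (hcl : 0 < cl) (hcr : 0 < cr) (hcl' : 0 < cl')
    (hcr' : 0 < cr') (y0 : 0 ≤ y) (y1 : y ≤ X) (hX : X ≤ X')
    (h : (θ ≤ 0 ∧ 0 ≤ H) ∨ (0 < H ∧ θ ≤ H ∧ θ * cl' ≤ H * cl ∧ θ * cr' ≤ H * cr)) :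
    θ * tr 0 X cl cr y ≤ H * tr 0 X' cl' cr' y := by
  obtain ⟨t0, t1, t2, t3⟩ := tr_ub' hcl hcr y0 y1
  have s0 : 0 ≤ tr 0 X' cl' cr' y := (MP_b30479_gt.G2.tr_mem _ _ _ _).1
  have key : θ ≤ 0 → 0 ≤ H → θ * tr 0 X cl cr y ≤ H * tr 0 X' cl' cr' y := fun a b =>
    (mul_nonpos_of_nonpos_of_nonneg a t0).trans (mul_nonneg b s0)
  rcases h with ⟨a, b⟩ | ⟨b, a1, a2, a3⟩
  · exact key a b
  rcases le_total θ 0 with a | a
  · exact key a b.le
  refine le_tr' hcl' hcr' ?_ ?_ ?_ b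
  · calc θ * tr 0 X cl cr y ≤ θ * 1 := mul_le_mul_of_nonneg_left t1 a
      _ ≤ H := by linarith only [a1]
  · calc cl' * (θ * tr 0 X cl cr y) = θ * cl' * tr 0 X cl cr y := by ring
      _ ≤ H * cl * tr 0 X cl cr y := mul_le_mul_of_nonneg_right a2 t0
      _ = H * (cl * tr 0 X cl cr y) := by ring
      _ ≤ H * y := mul_le_mul_of_nonneg_left t2 b.le
  · calc cr' * (θ * tr 0 X cl cr y) = θ * cr' * tr 0 X cl cr y := by ring
      _ ≤ H * cr * tr 0 X cl cr y := mul_le_mul_of_nonneg_right a3 t0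
      _ = H * (cr * tr 0 X cl cr y) := by ring
      _ ≤ H * (X' - y) := mul_le_mul_of_nonneg_left (by linarith only [hX, t3]) b.le

/-! ### inclusions -/

/-- inclusion of sets, up to the range of the real part -/
def domY (k k' : KS) : Bool :=
  okK k && okK k' && decide (k.y1 ≤ k.XM) && decide (k.XM ≤ k'.XM) &&
    (decide (k.hi ≤ 0 ∧ 0 ≤ k'.hi) || decide (0 < k'.hi ∧ k.hi ≤ k'.hi ∧
      k.hi * k'.cl ≤ k'.hi * k.cl ∧ k.hi * k'.cr ≤ k'.hi * k.cr)) &&
    (decide (0 ≤ k.lo ∧ k'.lo ≤ 0) || decide (k'.lo < 0 ∧ k'.lo ≤ k.lo ∧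
      k'.lo * k.cl ≤ k.lo * k'.cl ∧ k'.lo * k.cr ≤ k.lo * k'.cr))

variable {k k' : KS} {w : ℂ} {F : Fam} {x T : ℝ}

theorem InK.domY (h : domY k k' = true) (hw : InK k w) (y0 : (k'.y0 : ℝ) / 1000 ≤ w.re)
    (y1 : w.re ≤ (k'.y1 : ℝ) / 1000) : InK k' w := by
  obtain ⟨⟨a0, a1⟩, a2, a3⟩ := hw
  simp only [M11.domY, okK, Bool.and_eq_true, Bool.or_eq_true, decide_eq_true_eq] at h
  obtain ⟨⟨⟨⟨⟨⟨⟨⟨c1, c2⟩, -⟩, -⟩, ⟨⟨d1, d2⟩, -⟩, -⟩, h1⟩, h2⟩, h3⟩, h4⟩ := h
  have e1 : (0 : ℝ) < (k.cl : ℝ) / 1000 := by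
    have : (0 : ℝ) < k.cl := by exact_mod_cast c1
    positivity
  have e2 : (0 : ℝ) < (k.cr : ℝ) / 1000 := by
    have : (0 : ℝ) < k.cr := by exact_mod_cast c2
    positivity
  have e3 : (0 : ℝ) < (k'.cl : ℝ) / 1000 := by
    have : (0 : ℝ) < k'.cl := by exact_mod_cast d1
    positivity
  have e4 : (0 : ℝ) < (k'.cr : ℝ) / 1000 := by
    have : (0 : ℝ) < k'.cr := by exact_mod_cast d2
    positivity
  have r1 : (k.y1 : ℝ) ≤ k.XM := by exact_mod_cast h1
  have r2 : (k.XM : ℝ) ≤ k'.XM := by exact_mod_cast h2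
  have y0' : 0 ≤ w.re := le_trans (by positivity) a0
  have y1' : w.re ≤ (k.XM : ℝ) / 1000 := a1.trans (by linarith only [r1])
  have X' : (k.XM : ℝ) / 1000 ≤ (k'.XM : ℝ) / 1000 := by linarith only [r2]
  refine ⟨⟨y0, y1⟩, ?_, ?_⟩
  · have h5 : -(k.lo : ℝ) / 1000 * τk k w.re ≤ -(k'.lo : ℝ) / 1000 * τk k' w.re := by
      refine tr_dom e1 e2 e3 e4 y0' y1' X' ?_
      rcases h4 with ⟨b1, b2⟩ | ⟨b1, b2, b3, b4⟩
      · left
        have b1' : (0 : ℝ) ≤ k.lo := by exact_mod_cast b1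
        have b2' : (k'.lo : ℝ) ≤ 0 := by exact_mod_cast b2
        constructor <;> linarith only [b1', b2']
      · right
        have b1' : (k'.lo : ℝ) < 0 := by exact_mod_cast b1
        have b2' : (k'.lo : ℝ) ≤ k.lo := by exact_mod_cast b2
        have b3' : (k'.lo : ℝ) * k.cl ≤ k.lo * k'.cl := by exact_mod_cast b3
        have b4' : (k'.lo : ℝ) * k.cr ≤ k.lo * k'.cr := by exact_mod_cast b4
        refine ⟨by linarith only [b1'], by linarith only [b2'], ?_, ?_⟩ <;> linarith only [b3', b4']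
    have q1 : -(k.lo : ℝ) / 1000 * τk k w.re = -((k.lo : ℝ) / 1000 * τk k w.re) := by ring
    have q2 : -(k'.lo : ℝ) / 1000 * τk k' w.re = -((k'.lo : ℝ) / 1000 * τk k' w.re) := by ring
    rw [q1, q2] at h5
    linarith only [a2, h5]
  · have h5 : (k.hi : ℝ) / 1000 * τk k w.re ≤ (k'.hi : ℝ) / 1000 * τk k' w.re := by
      refine tr_dom e1 e2 e3 e4 y0' y1' X' ?_
      rcases h3 with ⟨b1, b2⟩ | ⟨b1, b2, b3, b4⟩
      · left
        have b1' : (k.hi : ℝ) ≤ 0 := by exact_mod_cast b1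
        have b2' : (0 : ℝ) ≤ k'.hi := by exact_mod_cast b2
        constructor <;> linarith only [b1', b2']
      · right
        have b1' : (0 : ℝ) < k'.hi := by exact_mod_cast b1
        have b2' : (k.hi : ℝ) ≤ k'.hi := by exact_mod_cast b2
        have b3' : (k.hi : ℝ) * k'.cl ≤ k'.hi * k.cl := by exact_mod_cast b3
        have b4' : (k.hi : ℝ) * k'.cr ≤ k'.hi * k.cr := by exact_mod_cast b4
        refine ⟨by linarith only [b1'], by linarith only [b2'], ?_, ?_⟩ <;> linarith only [b3', b4']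
    exact a3.trans h5

/-- inclusion of sets -/
theorem InK.dom (h : M11.domY k k' = true) (h1 : k'.y0 ≤ k.y0) (h2 : k.y1 ≤ k'.y1)
    (hw : InK k w) : InK k' w := by
  refine hw.domY h ?_ ?_
  · have : (k'.y0 : ℝ) ≤ k.y0 := by exact_mod_cast h1
    exact le_trans (by linarith only [this]) hw.1.1
  · have : (k.y1 : ℝ) ≤ k'.y1 := by exact_mod_cast h2
    exact hw.1.2.trans (by linarith only [this])

/-- near `0` -/
theorem InK.near (hw : InK k w) (h : okK k = true)
    (h0 : 130 ≤ k.cl ∧ 150 ≤ k.cr ∧ 600 ≤ k.XM ∧ k.cl ≤ 300)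
    (h1 : -76 * (k.cl : ℤ) ≤ k.lo * 160) (h2 : k.hi * 160 ≤ 136 * (k.cl : ℤ)) (hy : w.re ≤ 13 / 100) :
    InK KY w := by
  obtain ⟨⟨a0, a1⟩, a2, a3⟩ := hw
  have y0' : 0 ≤ w.re := le_trans (by positivity) a0
  obtain ⟨g1, g2, g3, g4⟩ := h0
  have g1' : (130 : ℝ) ≤ k.cl := by exact_mod_cast g1
  have g2' : (150 : ℝ) ≤ k.cr := by exact_mod_cast g2
  have g3' : (600 : ℝ) ≤ k.XM := by exact_mod_cast g3
  have g4' : (k.cl : ℝ) ≤ 300 := by exact_mod_cast g4
  simp only [okK, Bool.and_eq_true, decide_eq_true_eq] at h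
  have h5 : (k.cl : ℝ) + k.cr ≤ k.XM := by exact_mod_cast h.1.2
  have q : ∀ {X cl cr : ℝ}, 0 < cl → 0 < cr → w.re ≤ cl → w.re ≤ X - cr →
      tr 0 X cl cr w.re = w.re / cl := by
    intro X cl cr b1 b2 b3 b4
    unfold tr
    rw [sub_zero]
    have c1 : w.re / cl ≤ 1 := by rw [div_le_one b1]; exact b3
    have c2 : 1 ≤ (X - w.re) / cr := by rw [le_div_iff₀ b2]; linarith only [b4]
    rw [min_eq_left (c1.trans c2), min_eq_right c1, max_eq_right (div_nonneg y0' b1.le)]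
  have e1 : τk k w.re = w.re / ((k.cl : ℝ) / 1000) := by
    unfold τk
    exact q (by linarith only [g1']) (by linarith only [g2']) (by linarith only [hy, g1']) (by linarith only [hy, g1', h5])
  have e2 : τk KY w.re = w.re / (16 / 100) := by
    unfold τk KY
    have := q (X := 650 / 1000) (cl := 160 / 1000) (cr := 290 / 1000) (by norm_num) (by norm_num)
      (by linarith only [hy]) (by linarith only [hy])
    push_cast
    rw [this]
    norm_num
  have hcl : (0 : ℝ) < k.cl := by linarith only [g1']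
  rw [e1] at a2 a3
  refine ⟨⟨by simp only [KY]; push_cast; linarith only [y0'], by simp only [KY]; push_cast; linarith only [hy]⟩, ?_, ?_⟩
  · rw [e2]
    refine le_trans ?_ a2
    simp only [KY]
    push_cast
    have b3 : -76 * (k.cl : ℝ) ≤ k.lo * 160 := by exact_mod_cast h1
    have b4 : (-76 : ℝ) / 160 ≤ k.lo / k.cl := by
      rw [div_le_div_iff₀ (by norm_num) hcl]
      linarith only [b3]
    have b5 := mul_le_mul_of_nonneg_right b4 y0'
    have e3 : (-76 : ℝ) / 1000 * (w.re / (16 / 100)) = -76 / 160 * w.re := by ring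
    have e4 : (k.lo : ℝ) / 1000 * (w.re / ((k.cl : ℝ) / 1000)) = k.lo / k.cl * w.re := by
      field_simp
    rw [e3, e4]
    exact b5
  · rw [e2]
    refine a3.trans ?_
    simp only [KY]
    push_cast
    have b3 : (k.hi : ℝ) * 160 ≤ 136 * k.cl := by exact_mod_cast h2
    have b4 : (k.hi : ℝ) / k.cl ≤ 136 / 160 := by
      rw [div_le_div_iff₀ hcl (by norm_num)]
      linarith only [b3]
    have b5 := mul_le_mul_of_nonneg_right b4 y0'
    have e3 : (136 : ℝ) / 1000 * (w.re / (16 / 100)) = 136 / 160 * w.re := by ring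
    have e4 : (k.hi : ℝ) / 1000 * (w.re / ((k.cl : ℝ) / 1000)) = k.hi / k.cl * w.re := by
      field_simp
    rw [e3, e4]
    exact b5

theorem KR_K2 (h : InK KR w) : InK K2 w := h.dom (by decide) (by decide) (by decide)
theorem KR_K1 (h : InK KR w) : InK K1 w := h.dom (by decide) (by decide) (by decide)
theorem KR_K3 (h : InK KR w) : InK K3 w := h.dom (by decide) (by decide) (by decide)
theorem KR_KZ (h : InK KR w) : InK KZ w := h.dom (by decide) (by decide) (by decide)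
theorem K1_K12 (h : InK K1 w) : InK K12 w := h.dom (by decide) (by decide) (by decide)
theorem K2_K12 (h : InK K2 w) : InK K12 w := h.dom (by decide) (by decide) (by decide)
theorem KEm_K12 (h : InK KEm w) : InK K12 w := h.dom (by decide) (by decide) (by decide)
theorem KEm_K2P (h : InK KEm w) : InK K2P w := h.dom (by decide) (by decide) (by decide)
theorem KEm_KE (h : InK KEm w) : InK KE w := h.dom (by decide) (by decide) (by decide)
theorem K2_K2P (h : InK K2 w) : InK K2P w := h.dom (by decide) (by decide) (by decide)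
theorem K3m_K3 (h : InK K3m w) : InK K3 w := h.dom (by decide) (by decide) (by decide)
theorem K3pm_K3 (h : InK K3pm w) : InK K3 w := h.dom (by decide) (by decide) (by decide)
theorem K3E_K3 (h : InK K3E w) : InK K3 w := h.dom (by decide) (by decide) (by decide)
theorem K3E_K2P (h : InK K3E w) : InK K2P w := h.dom (by decide) (by decide) (by decide)
theorem KZm_KZ (h : InK KZm w) : InK KZ w := h.dom (by decide) (by decide) (by decide)
theorem K12_KL' (h : InK K1 w) : InK KL w := h.dom (by decide) (by decide) (by decide)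
theorem K2_KL (h : InK K2 w) : InK KL w := h.dom (by decide) (by decide) (by decide)
theorem KEm_KL (h : InK KEm w) : InK KL w := h.dom (by decide) (by decide) (by decide)
theorem K3_KL (h : InK K3 w) : InK KL w := h.dom (by decide) (by decide) (by decide)
theorem K3E_KL (h : InK K3E w) : InK KL w := h.dom (by decide) (by decide) (by decide)
theorem KZ_KL (h : InK KZ w) : InK KL w := h.dom (by decide) (by decide) (by decide)
theorem KR_KL (h : InK KR w) : InK KL w := h.dom (by decide) (by decide) (by decide)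

end M11

end Pool.Agent.Work.NumG
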