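import Pool.Agent.Work.MP_b30479_gt.G2.WM11H
import Pool.Agent.Work.MP_b30479_gt.G2.WLocX

/-!
# Kind `1 | 1`: the inequalities of a maximiser are contradictory
-/

namespace Pool.Agent.Work.NumG

namespace M11

open MP_b30479_gt.G2 (V1 tr dh1 DOk)
open MP_b30479_gt.G2.SR (cw Cl)

variable {k k' : KS} {w XA XB : ℂ} {F : Fam} {x T XM : ℝ} {P Q : Cl}

/-- positions of the other hinge of a digit `1` with a mode at a hinge of height `T`, the region
behind it is of class `P` -/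
def PN (P : Cl) (T : ℝ) (X : ℂ) : Prop :=
  match P with
  | .one => InK K1 X ∨ InK KU X
  | .two => InK KR X ∨ (InK K2 X ∧ (T ≤ -(6 / 100) → InK K2h X))
  | .twoE => InK KEm X
  | .three => InK KR X ∨ InK K3m X ∨ InK K3pm X
  | .threeE => InK K3E X
  | .ring => InK KR X ∨ InK KZm X

/-- ramp function of a hinge `1 | 1` -/
noncomputable def t1 (XM x : ℝ) : ℝ := tr 0 XM (15 / 100) (1 / 5) x

/-- **the inequalities of a maximiser** with a mode `1 | 1` -/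
structure Core (P Q : Cl) (T x XM : ℝ) (XA XB : ℂ) : Prop where
  T0 : 0 ≤ T
  TA : T ≤ (cw P .one).t1
  TB : (cw Q .one).t0 ≤ -T
  x0 : 0 < x
  x1 : x < XM
  hXM : XM = if P = .one ∨ Q = .one then 80 / 100 else 86 / 100
  tp : 0 < t1 XM x
  star : ∀ c, 0 ≤ c → c ≤ XM →
    (V1 ⟨c, T * t1 XM c⟩ XA - V1 ⟨x, -(16 / 100 * t1 XM x)⟩ XA) +
      (V1 ⟨c, -(T * t1 XM c)⟩ XB - V1 ⟨x, 16 / 100 * t1 XM x⟩ XB) +
      2 * Real.pi * (16 / 100 * t1 XM x) ≤ 0
  foc : XM - 1 / 5 < x → DOk (⟨x, -(16 / 100 * t1 XM x)⟩ + XA) →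
    DOk (⟨x, 16 / 100 * t1 XM x⟩ + XB) → dh1 ⟨x, -(16 / 100 * t1 XM x)⟩ XA (4 / 5) +
      (dh1 ⟨x, 16 / 100 * t1 XM x⟩ XB (-(4 / 5)) + 8 / 5 * Real.pi) = 0

namespace Core

variable (C : Core P Q T x XM XA XB)
include C

theorem hT : T ≤ 8 / 100 := by
  have := C.TA
  have h2 : (cw P .one).t1 ≤ 80 / 1000 := by
    cases P <;> simp only [cw] <;> norm_num
  linarith only [this, h2]

/-- target `c` on the plateau -/
theorem starF (h1 : τf F x = t1 XM x) (h2 : F.an / F.ad = (1 : ℝ)) (c0 : 15 / 100 ≤ (F.c : ℝ) / 1000)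
    (c1 : (F.c : ℝ) / 1000 ≤ XM - 1 / 5) : GA F x T XA + GB F x T XB ≤ 0 := by
  have h3 := C.star ((F.c : ℝ) / 1000) (by linarith only [c0]) (by linarith only [c1])
  have h4 : t1 XM ((F.c : ℝ) / 1000) = 1 := by
    unfold t1 tr
    have a1 : 1 ≤ (XM - (F.c : ℝ) / 1000) / (1 / 5) := by rw [le_div_iff₀ (by norm_num)]; linarith only [c1]
    have a2 : 1 ≤ ((F.c : ℝ) / 1000 - 0) / (15 / 100) := by
      rw [le_div_iff₀ (by norm_num)]; linarith only [c0]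
    rw [min_eq_left (le_min a2 a1)]
    norm_num
  rw [h4, mul_one] at h3
  unfold GA GB af
  rw [h1, h2, one_mul]
  linarith only [h3]

theorem flipF (h1 : τf F x = t1 XM x) : LA F x T XA + LB F x T XB ≤ 0 := by
  have h3 := C.star x C.x0.le C.x1.le
  unfold LA LB
  rw [h1]
  linarith only [h3]

theorem focF (h1 : τf F x = t1 XM x) (h2 : XM - 1 / 5 < x)
    (hA : DOk (⟨x, -(16 / 100 * t1 XM x)⟩ + XA)) (hB : DOk (⟨x, 16 / 100 * t1 XM x⟩ + XB)) :
    QA F x XA + QB F x XB = 0 := by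
  have h3 := C.foc h2 hA hB
  unfold QA QB
  rw [h1]
  linarith only [h3]

theorem far (h1 : τf F x = t1 XM x) (h2 : F.an / F.ad = (1 : ℝ)) (c0 : 15 / 100 ≤ (F.c : ℝ) / 1000)
    (c1 : (F.c : ℝ) / 1000 ≤ XM - 1 / 5) (gA : -βf F x T < GA F x T XA)
    (gB : βf F x T < GB F x T XB) : False := by
  have := C.starF h1 h2 c0 c1
  linarith only [gA, gB, this]

theorem mix (h1 : τf F x = t1 XM x) (h2 : F.an / F.ad = (1 : ℝ)) (c0 : 15 / 100 ≤ (F.c : ℝ) / 1000)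
    (c1 : (F.c : ℝ) / 1000 ≤ XM - 1 / 5) (hW : 0 ≤ F.W)
    (gA : -βf F x T < GA F x T XA + F.W / 100 / τf F x * LA F x T XA)
    (gB : βf F x T < GB F x T XB + F.W / 100 / τf F x * LB F x T XB) : False := by
  have h3 := C.starF h1 h2 c0 c1
  have h4 := C.flipF h1
  have h5 : 0 < τf F x := by rw [h1]; exact C.tp
  have hW' : (0 : ℝ) ≤ F.W := by exact_mod_cast hW
  have h6 : (F.W : ℝ) / 100 / τf F x * (LA F x T XA + LB F x T XB) ≤ 0 :=
    mul_nonpos_of_nonneg_of_nonpos (by positivity) h4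
  linarith only [gA, gB, h3, h6]

theorem fc (h1 : τf F x = t1 XM x) (h2 : F.an / F.ad = (1 : ℝ)) (c0 : 15 / 100 ≤ (F.c : ℝ) / 1000)
    (c1 : (F.c : ℝ) / 1000 ≤ XM - 1 / 5) (h3 : XM - 1 / 5 < x)
    (hA : DOk (⟨x, -(16 / 100 * t1 XM x)⟩ + XA)) (hB : DOk (⟨x, 16 / 100 * t1 XM x⟩ + XB))
    (gA : -βf F x T < GA F x T XA + F.W / 100 * QA F x XA)
    (gB : βf F x T < GB F x T XB + F.W / 100 * QB F x XB) : False := by
  have h4 := C.starF h1 h2 c0 c1
  have h5 := C.focF h1 h3 hA hB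
  have h6 : (F.W : ℝ) / 100 * (QA F x XA + QB F x XB) = 0 := by rw [h5, mul_zero]
  linarith only [gA, gB, h4, h6]

end Core

/-! ### classes of positions -/

theorem PN.a4 (h : PN P T w) : InK K12 w ∨ InK KU w ∨ InK K3 w ∨ InK KZ w := by
  cases P <;> simp only [PN] at h
  · rcases h with h | h
    · exact Or.inl (K1_K12 h)
    · exact Or.inr (Or.inl h)
  · rcases h with h | ⟨h, -⟩
    · exact Or.inl (K2_K12 (KR_K2 h))
    · exact Or.inl (K2_K12 h)
  · exact Or.inl (KEm_K12 h)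
  · rcases h with h | h | h
    · exact Or.inr (Or.inr (Or.inl (KR_K3 h)))
    · exact Or.inr (Or.inr (Or.inl (K3m_K3 h)))
    · exact Or.inr (Or.inr (Or.inl (K3pm_K3 h)))
  · exact Or.inr (Or.inr (Or.inl (K3E_K3 h)))
  · rcases h with h | h
    · exact Or.inr (Or.inr (Or.inr (KR_KZ h)))
    · exact Or.inr (Or.inr (Or.inr (KZm_KZ h)))

theorem PN.b3 (h : PN P T w) (h1 : P = .one → InK K1 w) : InK K12 w ∨ InK K3 w ∨ InK KZ w := by
  by_cases hP : P = .one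
  · exact Or.inl (K1_K12 (h1 hP))
  cases P <;> simp only [PN] at h
  · exact absurd rfl hP
  · rcases h with h | ⟨h, -⟩
    · exact Or.inl (K2_K12 (KR_K2 h))
    · exact Or.inl (K2_K12 h)
  · exact Or.inl (KEm_K12 h)
  · rcases h with h | h | h
    · exact Or.inr (Or.inl (KR_K3 h))
    · exact Or.inr (Or.inl (K3m_K3 h))
    · exact Or.inr (Or.inl (K3pm_K3 h))
  · exact Or.inr (Or.inl (K3E_K3 h))
  · rcases h with h | h
    · exact Or.inr (Or.inr (KR_KZ h))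
    · exact Or.inr (Or.inr (KZm_KZ h))

/-- side A, no digit `1` behind -/
theorem PN.a3 (h : PN P T w) (h1 : P ≠ .one) : InK K2P w ∨ InK K3 w ∨ InK KZ w := by
  cases P <;> simp only [PN] at h
  · exact absurd rfl h1
  · rcases h with h | ⟨h, -⟩
    · exact Or.inl (K2_K2P (KR_K2 h))
    · exact Or.inl (K2_K2P h)
  · exact Or.inl (KEm_K2P h)
  · rcases h with h | h | h
    · exact Or.inr (Or.inl (KR_K3 h))
    · exact Or.inr (Or.inl (K3m_K3 h))
    · exact Or.inr (Or.inl (K3pm_K3 h))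
  · exact Or.inr (Or.inl (K3E_K3 h))
  · rcases h with h | h
    · exact Or.inr (Or.inr (KR_KZ h))
    · exact Or.inr (Or.inr (KZm_KZ h))

theorem PN.two (h : PN .two T w) : InK K2 w := by
  rcases h with h | ⟨h, -⟩
  · exact KR_K2 h
  · exact h

theorem PN.three (h : PN .three T w) : InK K3 w := by
  rcases h with h | h | h
  · exact KR_K3 h
  · exact K3m_K3 h
  · exact K3pm_K3 h

theorem PN.ring (h : PN .ring T w) : InK KZ w := by
  rcases h with h | h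
  · exact KR_KZ h
  · exact KZm_KZ h

/-! ### ranges -/

theorem inF (F : Fam) {a b c d : ℝ} (e1 : (F.x0 : ℝ) / 1000 = a) (e2 : (F.x1 : ℝ) / 1000 = b)
    (e3 : (F.T0 : ℝ) / 1000 = c) (e4 : (F.T1 : ℝ) / 1000 = d) (h1 : a ≤ x) (h2 : x ≤ b)
    (h3 : c ≤ T) (h4 : T ≤ d) : InF F x T := by
  unfold InF
  rw [e1, e2, e3, e4]
  exact ⟨⟨h1, h2⟩, h3, h4⟩

end M11

end Pool.Agent.Work.NumG
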