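import Pool.Agent.Work.MP_b30479_gt.G2.WM11E
import Pool.Agent.Work.NumI.TreeS

/-!
# Pieces of the certificates of `WM11R1`, part 3
-/

namespace Pool.Agent.Work.NumG
namespace M11

theorem r_G1A_K12 : chkF [gA G1 K12] 1000 0 0 0 240 40 400 600 0 80 0 800 0 322
  4084107026860556411776382411339792046673270770800015437444671489998186015231411799006909881387516234991303582977171993416113927537929332470505494802097567837191819149363216679170 = true := by decide +kernel

theorem r_G1A_KU : chkF [gA G1 KU] 1000 0 0 0 0 40 400 600 0 80 400 800 160 160
  1508361752798635727662257440563597576050124068519938 = true := by decide +kernel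

theorem r_G1A_K3 : chkF [gA G1 K3] 1000 0 0 0 0 40 400 600 0 80 0 650 0 92
  478018693291285876458387021280952552943079553444112194029209029385048165609144578 = true := by decide +kernel

theorem r_G1A_KZ : chkF [gA G1 KZ] 1000 0 0 0 0 40 400 600 0 80 0 650 0 136
  2102348446272232899763679806784048778150968980583313983253256915831889732157401476422380323074 = true := by decide +kernel

theorem r_G1B_K12 : chkF [gB G1 K12] 1000 0 0 0 240 40 400 600 0 80 0 800 0 322
  2129785077834328724028169021063734202799812715341120157895860196365447614915598753446908138362559961616097400011435759476328323428313002157472699419460286384473161380400235569235686423753529128839258091136609367692195749864086815468673691913301029930193732371329186824450 = true := by decide +kernel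

theorem r_G1B_K3 : chkF [gB G1 K3] 1000 0 0 0 0 40 400 600 0 80 0 650 0 92
  478018919433853176753832477837237601461506460819924094982630958900588809585492226 = true := by decide +kernel

theorem r_G1B_KZ : chkF [gB G1 KZ] 1000 0 0 0 0 40 400 600 0 80 0 650 0 136
  34444876943724263829728244785551225384220872593812419770929747737965390334779249924418211776889090 = true := by decide +kernel

theorem r_G2A_K12 : chkF [gA G2 K12] 1000 0 0 0 240 40 600 680 0 80 0 800 0 322
  928618427310311503138843775180567053796357421020254573141855971221921670504190260070989848982539620673513820610343841242187200603130163360193217009025262783811322114 = true := by decide +kernel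

theorem r_G2A_KU : chkF [gA G2 KU] 1000 0 0 0 0 40 600 680 0 80 400 800 160 160
  4759406355735652630786 = true := by decide +kernel

theorem r_G2A_K3 : chkF [gA G2 K3] 1000 0 0 0 0 40 600 680 0 80 0 650 0 92
  24712250669371368209773850044562286684647744154202308866 = true := by decide +kernel

theorem r_G2A_KZ : chkF [gA G2 KZ] 1000 0 0 0 0 40 600 680 0 80 0 650 0 136
  128313341517902146418822227661277024642410467173475375481568127671893225409029838028701954 = true := by decide +kernel

theorem r_G2B_K12 : chkF [gB G2 K12] 1000 0 0 0 240 40 600 680 0 80 0 800 0 322
  347442620505726245790456990596135361945792528994385788235124207116416253893860833145955491285197803811929048616698208971949036957079019818403046453174893900114435566853208777608059677211178216954607189779799020175618 = true := by decide +kernel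

theorem r_G2B_K3 : chkF [gB G2 K3] 1000 0 0 0 0 40 600 680 0 80 0 650 0 92
  1508361571627201991441068678902777149538832046129410 = true := by decide +kernel

theorem r_G2B_KZ : chkF [gB G2 KZ] 1000 0 0 0 0 40 600 680 0 80 0 650 0 136
  10915691889811616329810408848123237793220783902298771552331409259110716820209510631180253591173998845513825670766045851799290114 = true := by decide +kernel

end M11

end Pool.Agent.Work.NumG
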