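import Pool.Agent.Work.MP_b30479_gt.G2.WM11R1s1
import Pool.Agent.Work.MP_b30479_gt.G2.WM11R1s2
import Pool.Agent.Work.MP_b30479_gt.G2.WM11R1s3

/-!
# Kind `1 | 1`: rows
-/

namespace Pool.Agent.Work.NumG

namespace M11

theorem r_S3B_KL : chkF [gB S3 KL] 1000 0 0 0 160 40 150 400 0 80 0 800 0 320
  2201288627143149418921822593395255163582892723848674119529170814613287032402382296640567036087812043278209261274454838569246454916637098913529889565478928964417054894558486344769883949699400897519723329207899395047119166137665692403396162543475706546023312386707187450802889769558699073855921262357396408746209949759861658469316943509485870236255223293983537139444826173993881869991847170045984658142015028154492137109898115888570296796908158510600489814412048804490555397031053133665347818851859526334664386980709005529236879340998632748428423774722229074520801036233082952169178375182591661926564219681488847940051661775113486375092328456482906060002801645714678953727285265707548377718619306858501711610063288638961487964999816850764049761522657585324360892843944587185980362510675949255045903374769050855683441770220157700566762043753627182768852899763541406253586141117643464066819062844204351549797046292665067751258864299098565293523289741178020087299201564895829777170234842468192559372322840883005668109255068802695634801222232630549462421749298794026066356025165372862969582703996064935164850146088195793663945853503990221273530058762683218093144280298967208027696491941806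28906240914224481030593908082489751046981335883569689309223964700082057003022845873134529784319047963985911118744237969754001158193754231450628583778819476139037306077113532551376661471353777081740052973956151250851139405017369611979145202668747622995477218519516314907945263056582754766131867819808383000756378126104608496165886333661141875443077554508501910981714888852922699637254572040845591161752773401769206875609034114286978207839947481358439001970551553007625994977195660059220246588169701747050272195407125549151814727478115765709444889437799597335276519303333712730015603436884145024919342851393897057428254389425602288421347811151087206449923630891652460187512651348330031336916828513579064716979667946684463703726581377029732253918960371709115025253178598223365110529481349566751577003132068393700236039101042089392832933294045410286725912981356113540608401942731652265247362235117050551333832179804018015955041496018761292417563918913204086840385416518160737352424134843894800740701917909796174341252323181756585022220247752182522055503541613041630609076147825032443730394565351114371525203572318359156402960668380816235353594179141248993514100900057714360147362119327222639892978864145563065839496194693894091033812137186284891526191398433463017271697131427124899055194830435153337216141019997557510230628855870118870968193487293918138811944536554540148569048624269172496843891101904914596213682198891304840744459436736878748061444466389143536141878106154742613284780328336009405433009409333002330628008508227843800454536050900702639400206111459069902012258939773930792143537621979368783073893297643300545374755564371662884348089383829017862414590551446752732839316099213585492165171791221083665673733023272943489235412405313529813537955580880650499022359169813479682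 = true :=
  Pool.Agent.Work.NumI.okB_of rfl rfl rfl rfl rfl rfl rfl rfl rfl rfl rfl rfl
    (Pool.Agent.Work.NumI.runE_split2 rfl rfl rfl
      r_S3B_KL_p1
      (Pool.Agent.Work.NumI.runE_split2 rfl rfl rfl
        r_S3B_KL_p2
        (Pool.Agent.Work.NumI.runE_split3 rfl rfl rfl
          r_S3B_KL_p3
          (Pool.Agent.Work.NumI.runE_split0 rfl rfl rfl
            r_S3B_KL_p4
            (Pool.Agent.Work.NumI.runE_split2 rfl rfl rfl
              (Pool.Agent.Work.NumI.runE_split3 rfl rfl rfl
                r_S3B_KL_p5
                (Pool.Agent.Work.NumI.runE_split3 rfl rfl rfl
                  r_S3B_KL_p6
                  r_S3B_KL_p7))
              r_S3B_KL_p8)))))

end M11

end Pool.Agent.Work.NumG
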