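import Pool.Agent.Work.MP_b30479_gt.G2.WM11E
import Pool.Agent.Work.NumI.TreeS

/-!
# Pieces of the certificates of `WM11R14`, part 3
-/

namespace Pool.Agent.Work.NumG
namespace M11

theorem r_F3aB_K3pm_0 : chkF (B0 F3a K3pm) 1000 0 0 0 0 40 740 860 0 65 0 260 21 92
  11708651625253446774425827644916133817069247115536021398487405762684453518276453127422272535611143025672609593742153847754184449383941460965830395059919966883789378153979009977855687552769171544189116331239326153978842907028592420627318793917805413929445135982509387491098644015251458 = true := by decide +kernel

theorem r_F3aB_K3pm_1 : chkF (B1 F3a K3pm) 1000 0 0 0 0 40 740 860 0 65 140 650 21 92
  1547986829556323896451063109147519527816311182556938434593800506742748882069084350644223793862342769399572378015420274084388879831462055072466007763304976542817491173890843491736799481961709519521564893562697799884484393686990063424122702132121450102249425479324376031860989239151420599218563307183768930557888844330111516892440585611251533298788690645663401334342664478074212065753988441244966582608724226 = true := by decide +kernel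

end M11

end Pool.Agent.Work.NumG
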