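import Pool.Agent.Work.MP_b30479_gt.G2.WM11R14s1
import Pool.Agent.Work.MP_b30479_gt.G2.WM11R14s2
import Pool.Agent.Work.MP_b30479_gt.G2.WM11R14s3

/-!
# Kind `1 | 1`: rows
-/

namespace Pool.Agent.Work.NumG

namespace M11

end M11

end Pool.Agent.Work.NumG
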