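import Pool.Agent.Work.MP_b30479_gt.G2.WM11R17s1
import Pool.Agent.Work.MP_b30479_gt.G2.WM11R17s2
import Pool.Agent.Work.MP_b30479_gt.G2.WM11R17s3

/-!
# Kind `1 | 1`: rows
-/

namespace Pool.Agent.Work.NumG

namespace M11

theorem r_FRaA_KZy_0 : chkF (A0 FRa KZy) 1000 0 0 0 0 40 740 860 0 54 130 260 0 136
  31790512066398853312959137972785251464610449901829338487252175340120955713074118231851082936148309437248104137847647682844621177111042647076269609061561589122393999064877875095334044055421427016061967223581051257632282472047785143963947441618716555990095459363472991888597949573966841846067208361222410572504998546198713364082491608431261331189983561567792375128185627770184855096089466633319221441606853713565169700156465724586956209596654141173512491023153536079635676360772180575408744389153901473207608422281279005796984928720778931213321307288617631042367104708823265691887211442654132755588325052212411704515930980196390797377308746990806538488778156123053370540068904319811569873991289526078165425618703729449557842594673938986991774984561589538391829750050385445303650036792184593752406968333741218999379817348704667109754473049828263772718800257654426812858916656819387121306404336875642510963696968519908614808456960384946333066068633948753552714813520233888352840149809033768848747905829675222679700002225978955931308791180926331538929451031741100304500046823024849965009253415028506676341241364424876885642201514297566007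128670784277411748404039876537017242233340719312991978321851843436458864804369793132608019819120996383861215640946960401588908884755782050155087512930261273945376280954369295021567798619276305510662282036887886717143213560228602720551074957125701658312804112095877181809036198074783658971705069455238995303766753408636974430233168185241240616788910352209456813205616646455304048990537754236069162393731715958600810289019966270087842977803974443631617459917420092441432755646818570963366098766046831093030509735679762432330938965997394644361300144877783506294453674135225031564468803821558892167189975860854833795452218256522921130986972073986852796869533964801257582352802391672497044488795591373590341823837264801174546831657352721375596637604867614231489294907479305835459248393692908925020746645015776948623404724056072195418273686264311294813594809758418991235321772501394996061979799377081993846091592894561384423406261426663347864092274346862376458748868928728184217076373896448342065360071438199102425564008529149317328904016044137553951776138960813283254027153214253355964087801903181105715155566967170133360118197309945008080638617924952991540216955633822391304932221182039146088447736937815509045870365452252666531850323648685509150228090732612602753247453676708413132618212807607509922836704969411579412625290347323920884453502121682764980588435320622923208691081756449234746621086239299315442414921806788126489215492927262794249203876892647613594942008919891114396641832789133999638559254950854930193104613728591434340099664079445059724894011650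 = true :=
  Pool.Agent.Work.NumI.okB_of rfl rfl rfl rfl rfl rfl rfl rfl rfl rfl rfl rfl
    (Pool.Agent.Work.NumI.runE_split2 rfl rfl rfl
      (Pool.Agent.Work.NumI.runE_split2 rfl rfl rfl
        (Pool.Agent.Work.NumI.runE_split0 rfl rfl rfl
          r_FRaA_KZy_0_p1
          (Pool.Agent.Work.NumI.runE_split3 rfl rfl rfl
            (Pool.Agent.Work.NumI.runE_split0 rfl rfl rfl
              r_FRaA_KZy_0_p2
              (Pool.Agent.Work.NumI.runE_split3 rfl rfl rfl
                (Pool.Agent.Work.NumI.runE_split0 rfl rfl rfl
                  r_FRaA_KZy_0_p3
                  r_FRaA_KZy_0_p4)
                r_FRaA_KZy_0_p5))
            r_FRaA_KZy_0_p6))
        r_FRaA_KZy_0_p7)
      r_FRaA_KZy_0_p8)

end M11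

end Pool.Agent.Work.NumG
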