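import Pool.Agent.Work.MP_b30479_gt.G2.WM11E
import Pool.Agent.Work.NumI.TreeS

/-!
# Kind `1 | 1`: rows
-/

namespace Pool.Agent.Work.NumG

namespace M11

theorem r_FRbA_K3Ey_1 : chkF (A1p FRb K3Ey) 1000 0 0 0 0 40 740 860 0 65 140 600 0 58
  3007316212498868060492319833630153242730200464500417421966164686368926293087075547062047473927595054538451481896271572269007338994102142476129114474045463940337676086027531588472323112784345944015289702906011668531307021369869274329511010910145334534230540616999208415646463481874033266548883023544182098956878782538192921866589962566806797602613456716244912536129776916756519432793779400671288997436559432746723450915304131268432901490368460169601644508769719066478701985134189709887537410 = true := by decide +kernel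

theorem r_FRbB_KZm_0 : chkF (B0 FRb KZm) 1000 0 0 0 0 40 740 860 0 65 0 260 38 136
  59917699790436036566789882448377788514115968533985537745831582728658560008964618033333870741658593365843377675148375975809590153845353218306 = true := by decide +kernel

theorem r_FRbB_KZm_1_q1 : Pool.Agent.Work.NumI.runE (Pool.Agent.Work.NumG.tst (B1 FRb KZm))
    0 0 0 0 39 50852412784 59098749994 0 4466765989 9620726743 27144193311 2611340115 9345848838
    121991209265035127132828590756142248747318282010131431610721533784575535292501205232633910713332277829441454930829935920272615418687402561545347768465762170844505643868751097516799315112588144836008780055732567200263883255923132136027671435382143952495186068484075350497934106840904716911791940797672063949799679023604672086080294230576129848493819083533895835642134078664307193192287102300417960611411021213552558096111530314898396905696608939581454278094769786524553741868827267529243763703930652048513136927437741932546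
    66914990873283829718364689915698322449989750957407669250739467342223398274834019887922239592100335444911928865972367964042375927450461648929016493958922040087906309687970837271937282 = true := by
  decide +kernel

theorem r_FRbB_KZm_1_q2 : Pool.Agent.Work.NumI.runE (Pool.Agent.Work.NumG.tst (B1 FRb KZm))
    0 0 0 0 39 50852412784 59098749994 0 4466765989 27144193311 44667659880 2611340115 9345848838
    66914990873283829718364689915698322449989750957407669250739467342223398274834019887922239592100335444911928865972367964042375927450461648929016493958922040087906309687970837271937282
    0 = true := by
  decide +kernel

theorem r_FRbB_KZm_1 : chkF (B1 FRb KZm) 1000 0 0 0 0 40 740 860 0 65 140 650 38 136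
  15614874785924496273002059616786207839656740097296823246172356324425668517440154269777140571306531562168506231146231797794894773591987527877804514363617557868096722415200140482150312334411282539009123847133768601633777056758160913411541943728914425919383816765961644863735565675635803764709368422102024185574358915021398027018277661513744620607208842692338666962193162069031320728612749094453498958260610715334727436302275880306994803929165944266426147596130532675142878959209890243743201754103123462209681526712030967365890 = true :=
    Pool.Agent.Work.NumI.okB_of rfl rfl rfl rfl rfl rfl rfl rfl rfl rfl rfl rfl
    (Pool.Agent.Work.NumI.runE_split2 rfl rfl rfl
      r_FRbB_KZm_1_q1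
      r_FRbB_KZm_1_q2)

end M11

end Pool.Agent.Work.NumG
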