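import Pool.Agent.Work.MP_b30479_gt.G2.WM11R2s1
import Pool.Agent.Work.MP_b30479_gt.G2.WM11R2s2
import Pool.Agent.Work.MP_b30479_gt.G2.WM11R2s3

/-!
# Kind `1 | 1`: rows
-/

namespace Pool.Agent.Work.NumG

namespace M11

theorem r_RSA_K12 : chkF [gA RS K12] 1000 0 0 0 240 40 400 800 0 80 0 800 0 322
  4472657962831025949302907057612790575955793453247047507548766647348274867553301562499986273899760653376911555054334392411580643608396455126848641502438012238252622393013550060240469041085731461702326878922141140936744061100370067410354435639413898897342083150933574303113451653477741603292357634677748968816896429420392868591962990946982345266315212706834083423599635228318143289550751399399644067450589654296015729931662635463306065755595662057160160989186699244534224882698624653854107527077419288573019851519573150401123395853395768264338523912614407244185431270432669685093091341485500864234104447386777199364348328369530022779782539865176755580469146113066169497952059933323351188417463860539433341456447558369462370567407526822854233585403161540373785825398982568142233750536220033966323331256085895783348012675674598172576955001757797092262133025652212163766485804952125539200062523274984552290734363504171631947269968810474042140176404053688360921753356595875306613845114475389764296905596572497792080607189271993470889740392606511484441158930007057817629266765937485571965118733692257757005064001374012543820016712846515268641622374294952284301716368205609514846265127322782184492126159687219890712096970073739659798832489305449604666535702372113726286387379812197025013807872271667475365846102302308248573814206955562872509606574457902138010728314499069647031990478189359976062973235084148438191505332535298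 = true :=
  Pool.Agent.Work.NumI.okB_of rfl rfl rfl rfl rfl rfl rfl rfl rfl rfl rfl rfl
    (Pool.Agent.Work.NumI.runE_split2 rfl rfl rfl
      r_RSA_K12_p1
      r_RSA_K12_p2)

end M11

end Pool.Agent.Work.NumG
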