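import Pool.Agent.Work.MP_b30479_gt.G2.WM11R3s1
import Pool.Agent.Work.MP_b30479_gt.G2.WM11R3s2

/-!
# Kind `1 | 1`: rows
-/

namespace Pool.Agent.Work.NumG

namespace M11

theorem r_F2B_K1_1 : chkF (B1 F2 K1) 1000 0 0 0 160 40 680 800 0 65 200 800 0 216
  1030220827702203567126291299669709795007979255427251544358581703979524296667732764271396587024497117414179044258227010390802713443750516023458933672818494425196039046466099757196223856318876338660505615936834353532961319116581716076513748712865645572220644638029426659840335214579649622841991467087775898652324918646313535690528824573817894449742112949524162045470558163071470402793084667328642667997310268630871096643577609917496656679149452503791040591086823880870865937022466499282856143143424913593797654846467282230399273048630480119986459705067037102106301629756157911589445647792120798801618506002595112345244984097132392739690311082783599164596415793165706255075086561277553762796258988925012534750097397645814670081471092508572664878703764776653941785098613194217516804300897354448728752229403480836405787547872633894665225457614902712415544910904556498256668610769662416430104254752794925978390124070101363408055388679003532612698454723805555919210241377891228786821706237914630639838706671639579154597442521905747558493058313700703450124025532605135413497191034640183956170321776371407044144060023684809195286254230614395131011818474869483554902761409519634184818482547749940962946101210390038461492014525162853888856066329776551275623055742412381321693476190097898670343652716102831836331486813077387804528074123713610885176023634409892951745619209883326138705686510990844718810413546885747723185766899771832186657907096167548687536561705012987346325229898726698298968629369532965493010670588010976769927747085507408787192961094038115320339264022927901976280654323646722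 = true :=
  Pool.Agent.Work.NumI.okB_of rfl rfl rfl rfl rfl rfl rfl rfl rfl rfl rfl rfl
    (Pool.Agent.Work.NumI.runE_split2 rfl rfl rfl
      r_F2B_K1_1_p1
      r_F2B_K1_1_p2)

end M11

end Pool.Agent.Work.NumG
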