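import Pool.Agent.Work.MP_b30479_gt.G2.WM11R5s1
import Pool.Agent.Work.MP_b30479_gt.G2.WM11R5s2

/-!
# Kind `1 | 1`: rows
-/

namespace Pool.Agent.Work.NumG

namespace M11

theorem r_F3B_K1_1 : chkF (B1 F3 K1) 1000 0 0 0 160 40 680 800 0 51 200 800 0 216
  35599160065406302096178862755914342705824306998635731188724326713459082531157804790264843019771716754323334722133936656977572101813635886114209992948948409533178467568130055424115313771386246579626182927284256349333862196116927874329102253107014639630625060592950567158360031405690659833685285713790320642775222501244471000862769434800545873721906171640498863403112077387501251769302796643772613143891693082657917461747748767923549993330798017017959143057713370314673424276219695496818471744699386974047216278499691592513486399882940686831735444259392781701513756062255718092546020119036501933168254193591811709132571873051883602848065202034680263602013003828326656207603606012382732467313473512420395031926581978662195999529954171606440735928878933340766399081002682130336564654397627152314945136167871431865350378656633457743678161960650191863193228196691747843319974061058951814716603876125295334962080153400540539605078955561922766484315209162659586985425935501028282257112939763845634696323495186204891664826361318262830921036303802324889803848847248777692138143824284157923162250592776178199839776388481374738756142042447129828919187520192375056784120838097063395858879386268917471649368178422630492578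61948733605035457992887936764071479353974462816272129833084847920373249388708519973781587972454860822153823356696172394088966836415305046844340722316850700909493923537296321526497592279726195271455124120898273407164436152911962556468371920260192456930132308834889052475811239912058726558732252281545821603782988685323330985174641349596388785560272425133483341136833385207234685514014127345159063605100351223075129384687341575665619554480743180957976774819579975284968377101240823486219425130730020587946575568327901595624542291724147331049220979388110362087114849453254425162942449180849744496165045912719198052971707634078106709280424350983339393482451921517209519410778743868402405604189618021542047724693631486724930013179305531079436069580926622611141205220767474786903535333561871379132363731849154915962427719854508107482421787357711388623602967357414006766003473417301449510062810317348133424173323559156956789811311472200443094672080430596046089127852869502557227348200965481963719049600801150623365968325669696560853002751088451141341607379761223949605184415001165383436867952491410532642426419829565664148997117029506577796196877866092130194394976753668859708524991592491614937235477491548192831957183610122068459968536860397156962000136653352642334438962416311445022912327121922513066849370189446368480847066967927742647725036706503882293920821122405436472040086732315114220397150101499235389327411801184837071067628325430531827813293915128724515178513802371011263594276057712332048844696798485225986216025149866813714292581091349030087497447693725979008254801889409892610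 = true :=
  Pool.Agent.Work.NumI.okB_of rfl rfl rfl rfl rfl rfl rfl rfl rfl rfl rfl rfl
    (Pool.Agent.Work.NumI.runE_split2 rfl rfl rfl
      r_F3B_K1_1_p1
      (Pool.Agent.Work.NumI.runE_split2 rfl rfl rfl
        r_F3B_K1_1_p2
        (Pool.Agent.Work.NumI.runE_split2 rfl rfl rfl
          r_F3B_K1_1_p3
          (Pool.Agent.Work.NumI.runE_split2 rfl rfl rfl
            r_F3B_K1_1_p4
            (Pool.Agent.Work.NumI.runE_split2 rfl rfl rfl
              r_F3B_K1_1_p5
              (Pool.Agent.Work.NumI.runE_split2 rfl rfl rfl
                r_F3B_K1_1_p6
                (Pool.Agent.Work.NumI.runE_split1 rfl rfl rfl
                  r_F3B_K1_1_p7
                  (Pool.Agent.Work.NumI.runE_split3 rfl rfl rfl
                    r_F3B_K1_1_p8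
                    r_F3B_K1_1_p9))))))))

end M11

end Pool.Agent.Work.NumG
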