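import Pool.Agent.Work.MP_b30479_gt.G2.WM11I
import Pool.Agent.Work.MP_b30479_gt.G2.WM11R1
import Pool.Agent.Work.MP_b30479_gt.G2.WM11R2
import Pool.Agent.Work.MP_b30479_gt.G2.WM11R3
import Pool.Agent.Work.MP_b30479_gt.G2.WM11R4
import Pool.Agent.Work.MP_b30479_gt.G2.WM11R5
import Pool.Agent.Work.MP_b30479_gt.G2.WM11R6
import Pool.Agent.Work.MP_b30479_gt.G2.WM11R7
import Pool.Agent.Work.MP_b30479_gt.G2.WM11R8
import Pool.Agent.Work.MP_b30479_gt.G2.WM11R9
import Pool.Agent.Work.MP_b30479_gt.G2.WM11R10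
import Pool.Agent.Work.MP_b30479_gt.G2.WM11R11
import Pool.Agent.Work.MP_b30479_gt.G2.WM11R12
import Pool.Agent.Work.MP_b30479_gt.G2.WM11R13
import Pool.Agent.Work.MP_b30479_gt.G2.WM11R14
import Pool.Agent.Work.MP_b30479_gt.G2.WM11R15
import Pool.Agent.Work.MP_b30479_gt.G2.WM11R16
import Pool.Agent.Work.MP_b30479_gt.G2.WM11R17
import Pool.Agent.Work.MP_b30479_gt.G2.WM11R18

/-!
# Kind `1 | 1`: the families of rows
-/

namespace Pool.Agent.Work.NumG

namespace M11

open MP_b30479_gt.G2 (V1 tr dh1 DOk)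
open MP_b30479_gt.G2.SR (cw Cl)

namespace Core

variable {XA XB : ℂ} {x T XM : ℝ} {P Q : Cl} (C : Core P Q T x XM XA XB)
include C

theorem cG1 (hX : XM = 80 / 100 ∨ XM = 86 / 100) (h1 : 400 / 1000 ≤ x) (h2 : x ≤ 600 / 1000)
    (h4 : T ≤ 80 / 1000) (hA : InK K12 XA ∨ InK KU XA ∨ InK K3 XA ∨ InK KZ XA)
    (hB : InK K12 XB ∨ InK K3 XB ∨ InK KZ XB) : False := by
  have T0 := C.T0
  have x1 := C.x1
  have hF : InF G1 x T := by
    unfold InF
    simp only [G1]
    push_cast
    exact ⟨⟨by linarith only [h1], by linarith only [h2]⟩, by linarith only [T0], by linarith only [h4]⟩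
  have e1 : τf G1 x = t1 XM x := by
    have q : ∀ X : ℝ, 80 / 100 ≤ X → tr 0 X (15 / 100) (1 / 5) x = 1 := by
      intro X hX'
      unfold tr
      have a1 : 1 ≤ (X - x) / (1 / 5) := by rw [le_div_iff₀ (by norm_num)]; linarith only [h2, hX']
      have a2 : 1 ≤ (x - 0) / (15 / 100) := by rw [le_div_iff₀ (by norm_num)]; linarith only [h1]
      rw [min_eq_left (le_min a2 a1)]
      norm_num
    unfold τf t1
    rw [q, q]
    · rcases hX with h | h
      · rw [h]
      · rw [h]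
        norm_num
    · simp only [G1]
      norm_num
  refine C.far e1 (by simp [G1]) (by simp only [G1]; norm_num)
    (by simp only [G1]; rcases hX with h | h <;> rw [h] <;> norm_num) ?_ ?_
  · rcases hA with h | h | h | h
    · exact farA rfl rfl r_G1A_K12 hF h
    · exact farA rfl rfl r_G1A_KU hF h
    · exact farA rfl rfl r_G1A_K3 hF h
    · exact farA rfl rfl r_G1A_KZ hF h
  · rcases hB with h | h | h
    · exact farB rfl rfl r_G1B_K12 hF h
    · exact farB rfl rfl r_G1B_K3 hF h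
    · exact farB rfl rfl r_G1B_KZ hF h

theorem cG2 (hX : XM = 80 / 100) (h1 : 600 / 1000 ≤ x) (h2 : x ≤ 680 / 1000) (h4 : T ≤ 80 / 1000)
    (hA : InK K12 XA ∨ InK KU XA ∨ InK K3 XA ∨ InK KZ XA)
    (hB : InK K12 XB ∨ InK K3 XB ∨ InK KZ XB) : False := by
  have T0 := C.T0
  have x1 := C.x1
  have hF : InF G2 x T := by
    unfold InF
    simp only [G2]
    push_cast
    exact ⟨⟨by linarith only [h1], by linarith only [h2]⟩, by linarith only [T0], by linarith only [h4]⟩
  have e1 : τf G2 x = t1 XM x := by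
    unfold τf t1
    rw [hX]
    simp only [G2]
    norm_num
  refine C.far e1 (by simp [G2]) (by simp only [G2]; norm_num)
    (by rw [hX]; simp only [G2]; norm_num) ?_ ?_
  · rcases hA with h | h | h | h
    · exact farA rfl rfl r_G2A_K12 hF h
    · exact farA rfl rfl r_G2A_KU hF h
    · exact farA rfl rfl r_G2A_K3 hF h
    · exact farA rfl rfl r_G2A_KZ hF h
  · rcases hB with h | h | h
    · exact farB rfl rfl r_G2B_K12 hF h
    · exact farB rfl rfl r_G2B_K3 hF h
    · exact farB rfl rfl r_G2B_KZ hF h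

theorem cG3 (hX : XM = 86 / 100) (h1 : 600 / 1000 ≤ x) (h2 : x ≤ 740 / 1000) (h4 : T ≤ 80 / 1000)
    (hA : InK K12 XA ∨ InK K3 XA ∨ InK KZ XA) (hB : InK K12 XB ∨ InK K3 XB ∨ InK KZ XB)
    : False := by
  have T0 := C.T0
  have x1 := C.x1
  have hF : InF G3 x T := by
    unfold InF
    simp only [G3]
    push_cast
    exact ⟨⟨by linarith only [h1], by linarith only [h2]⟩, by linarith only [T0], by linarith only [h4]⟩
  have e1 : τf G3 x = t1 XM x := by
    unfold τf t1
    rw [hX]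
    simp only [G3]
    norm_num
  refine C.far e1 (by simp [G3]) (by simp only [G3]; norm_num)
    (by rw [hX]; simp only [G3]; norm_num) ?_ ?_
  · rcases hA with h | h | h
    · exact farA rfl rfl r_G3A_K12 hF h
    · exact farA rfl rfl r_G3A_K3 hF h
    · exact farA rfl rfl r_G3A_KZ hF h
  · rcases hB with h | h | h
    · exact farB rfl rfl r_G3B_K12 hF h
    · exact farB rfl rfl r_G3B_K3 hF h
    · exact farB rfl rfl r_G3B_KZ hF h

theorem cF1 (hX : XM = 80 / 100) (h1 : 680 / 1000 ≤ x) (h4 : T ≤ 56 / 1000)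
    (hA : InK K1 XA ∨ InK KU XA) (hB : InK K12 XB ∨ InK K3 XB) : False := by
  have T0 := C.T0
  have x1 := C.x1
  have hF : InF F1 x T := by
    unfold InF
    simp only [F1]
    push_cast
    rw [hX] at x1
    exact ⟨⟨by linarith only [h1], by linarith only [x1]⟩, by linarith only [T0], by linarith only [h4]⟩
  have e1 : τf F1 x = t1 XM x := by
    unfold τf t1
    rw [hX]
    simp only [F1]
    norm_num
  have e2 : 0 < τf F1 x := by
    rw [e1]
    exact C.tp
  refine C.mix e1 (by simp [F1]) (by simp only [F1]; norm_num)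
    (by rw [hX]; simp only [F1]; norm_num) (by decide) ?_ ?_
  · rcases hA with h | h
    · exact mixA rfl rfl rfl (Or.inr ⟨_, r_F1A_K1_0⟩)
        (Or.inl r_F1A_K1_1) hF h e2
    · exact mixA rfl rfl rfl (Or.inl (by decide))
        (Or.inr ⟨by decide, r_F1A_KU_1⟩) hF h e2
  · rcases hB with h | h
    · exact mixB rfl rfl rfl (Or.inr ⟨_, r_F1B_K12_0⟩)
        (Or.inl r_F1B_K12_1) hF h e2
    · exact mixB rfl rfl rfl (Or.inr ⟨_, r_F1B_K3_0⟩)
        (Or.inl r_F1B_K3_1) hF h e2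

theorem cF2 (hX : XM = 80 / 100) (h1 : 680 / 1000 ≤ x) (h4 : T ≤ 65 / 1000)
    (hA : InK K2P XA ∨ InK K3 XA) (hB : InK K1 XB) : False := by
  have T0 := C.T0
  have x1 := C.x1
  have hF : InF F2 x T := by
    unfold InF
    simp only [F2]
    push_cast
    rw [hX] at x1
    exact ⟨⟨by linarith only [h1], by linarith only [x1]⟩, by linarith only [T0], by linarith only [h4]⟩
  have e1 : τf F2 x = t1 XM x := by
    unfold τf t1
    rw [hX]
    simp only [F2]
    norm_num
  have e2 : 0 < τf F2 x := by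
    rw [e1]
    exact C.tp
  refine C.mix e1 (by simp [F2]) (by simp only [F2]; norm_num)
    (by rw [hX]; simp only [F2]; norm_num) (by decide) ?_ ?_
  · rcases hA with h | h
    · exact mixA rfl rfl rfl (Or.inr ⟨_, r_F2A_K2P_0⟩)
        (Or.inl r_F2A_K2P_1) hF h e2
    · exact mixA rfl rfl rfl (Or.inr ⟨_, r_F2A_K3_0⟩)
        (Or.inr ⟨by decide, r_F2A_K3_1⟩) hF h e2
  · have h := hB
    exact mixB rfl rfl rfl (Or.inr ⟨_, r_F2B_K1_0⟩)
        (Or.inl r_F2B_K1_1) hF h e2

theorem cF2e (hX : XM = 80 / 100) (h1 : 680 / 1000 ≤ x) (h4 : T ≤ 80 / 1000) (hA : InK KE XA)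
    (hB : InK K1 XB) : False := by
  have T0 := C.T0
  have x1 := C.x1
  have hF : InF F2e x T := by
    unfold InF
    simp only [F2e]
    push_cast
    rw [hX] at x1
    exact ⟨⟨by linarith only [h1], by linarith only [x1]⟩, by linarith only [T0], by linarith only [h4]⟩
  have e1 : τf F2e x = t1 XM x := by
    unfold τf t1
    rw [hX]
    simp only [F2e]
    norm_num
  have e2 : 0 < τf F2e x := by
    rw [e1]
    exact C.tp
  refine C.mix e1 (by simp [F2e]) (by simp only [F2e]; norm_num)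
    (by rw [hX]; simp only [F2e]; norm_num) (by decide) ?_ ?_
  · have h := hA
    exact mixA rfl rfl rfl (Or.inr ⟨_, r_F2eA_KE_0⟩)
        (Or.inl r_F2eA_KE_1) hF h e2
  · have h := hB
    exact mixB rfl rfl rfl (Or.inr ⟨_, r_F2eB_K1_0⟩)
        (Or.inl r_F2eB_K1_1) hF h e2

theorem cF3 (hX : XM = 80 / 100) (h1 : 680 / 1000 ≤ x) (h4 : T ≤ 51 / 1000) (hA : InK KZ XA)
    (hB : InK K1 XB) : False := by
  have T0 := C.T0
  have x1 := C.x1
  have hF : InF F3 x T := by
    unfold InF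
    simp only [F3]
    push_cast
    rw [hX] at x1
    exact ⟨⟨by linarith only [h1], by linarith only [x1]⟩, by linarith only [T0], by linarith only [h4]⟩
  have e1 : τf F3 x = t1 XM x := by
    unfold τf t1
    rw [hX]
    simp only [F3]
    norm_num
  have e2 : 0 < τf F3 x := by
    rw [e1]
    exact C.tp
  refine C.mix e1 (by simp [F3]) (by simp only [F3]; norm_num)
    (by rw [hX]; simp only [F3]; norm_num) (by decide) ?_ ?_
  · have h := hA
    exact mixA rfl rfl rfl (Or.inr ⟨_, r_F3A_KZ_0⟩)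
        (Or.inr ⟨by decide, r_F3A_KZ_1⟩) hF h e2
  · have h := hB
    exact mixB rfl rfl rfl (Or.inr ⟨_, r_F3B_K1_0⟩)
        (Or.inl r_F3B_K1_1) hF h e2

theorem cF4 (hX : XM = 80 / 100) (h1 : 680 / 1000 ≤ x) (h4 : T ≤ 56 / 1000)
    (hA : InK K1 XA ∨ InK KU XA) (hB : InK KZ XB) : False := by
  have T0 := C.T0
  have x1 := C.x1
  have hF : InF F4 x T := by
    unfold InF
    simp only [F4]
    push_cast
    rw [hX] at x1
    exact ⟨⟨by linarith only [h1], by linarith only [x1]⟩, by linarith only [T0], by linarith only [h4]⟩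
  have e1 : τf F4 x = t1 XM x := by
    unfold τf t1
    rw [hX]
    simp only [F4]
    norm_num
  have e2 : 0 < τf F4 x := by
    rw [e1]
    exact C.tp
  refine C.mix e1 (by simp [F4]) (by simp only [F4]; norm_num)
    (by rw [hX]; simp only [F4]; norm_num) (by decide) ?_ ?_
  · rcases hA with h | h
    · exact mixA rfl rfl rfl (Or.inr ⟨_, r_F4A_K1_0⟩)
        (Or.inl r_F4A_K1_1) hF h e2
    · exact mixA rfl rfl rfl (Or.inl (by decide))
        (Or.inr ⟨by decide, r_F4A_KU_1⟩) hF h e2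
  · have h := hB
    exact mixB rfl rfl rfl (Or.inr ⟨_, r_F4B_KZ_0⟩)
        (Or.inl r_F4B_KZ_1) hF h e2

theorem cRR (hX : XM = 86 / 100) (h1 : 740 / 1000 ≤ x) (h4 : T ≤ 80 / 1000)
    (hA : InK K2P XA ∨ InK K3 XA ∨ InK KZ XA) (hB : InK KR XB) : False := by
  have T0 := C.T0
  have x1 := C.x1
  have hF : InF RR x T := by
    unfold InF
    simp only [RR]
    push_cast
    rw [hX] at x1
    exact ⟨⟨by linarith only [h1], by linarith only [x1]⟩, by linarith only [T0], by linarith only [h4]⟩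
  have e1 : τf RR x = t1 XM x := by
    unfold τf t1
    rw [hX]
    simp only [RR]
    norm_num
  have e2 : 0 < τf RR x := by
    rw [e1]
    exact C.tp
  refine C.mix e1 (by simp [RR]) (by simp only [RR]; norm_num)
    (by rw [hX]; simp only [RR]; norm_num) (by decide) ?_ ?_
  · rcases hA with h | h | h
    · exact mixA rfl rfl rfl (Or.inr ⟨_, r_RRA_K2P_0⟩)
        (Or.inl r_RRA_K2P_1) hF h e2
    · exact mixA rfl rfl rfl (Or.inr ⟨_, r_RRA_K3_0⟩)
        (Or.inr ⟨by decide, r_RRA_K3_1⟩) hF h e2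
    · exact mixA rfl rfl rfl (Or.inr ⟨_, r_RRA_KZ_0⟩)
        (Or.inr ⟨by decide, r_RRA_KZ_1⟩) hF h e2
  · have h := hB
    exact mixB rfl rfl rfl (Or.inr ⟨_, r_RRB_KR_0⟩)
        (Or.inr ⟨by decide, r_RRB_KR_1⟩) hF h e2

theorem cEE (hX : XM = 86 / 100) (h1 : 740 / 1000 ≤ x) (h4 : T ≤ 61 / 1000)
    (hA : InK K2P XA ∨ InK K3 XA ∨ InK KZ XA) (hB : InK KE XB ∨ InK K3E XB) : False := by
  have T0 := C.T0
  have x1 := C.x1
  have hF : InF EE x T := by
    unfold InF
    simp only [EE]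
    push_cast
    rw [hX] at x1
    exact ⟨⟨by linarith only [h1], by linarith only [x1]⟩, by linarith only [T0], by linarith only [h4]⟩
  have e1 : τf EE x = t1 XM x := by
    unfold τf t1
    rw [hX]
    simp only [EE]
    norm_num
  have e2 : 0 < τf EE x := by
    rw [e1]
    exact C.tp
  refine C.mix e1 (by simp [EE]) (by simp only [EE]; norm_num)
    (by rw [hX]; simp only [EE]; norm_num) (by decide) ?_ ?_
  · rcases hA with h | h | h
    · exact mixA rfl rfl rfl (Or.inr ⟨_, r_EEA_K2P_0⟩)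
        (Or.inl r_EEA_K2P_1) hF h e2
    · exact mixA rfl rfl rfl (Or.inr ⟨_, r_EEA_K3_0⟩)
        (Or.inr ⟨by decide, r_EEA_K3_1⟩) hF h e2
    · exact mixA rfl rfl rfl (Or.inr ⟨_, r_EEA_KZ_0⟩)
        (Or.inr ⟨by decide, r_EEA_KZ_1⟩) hF h e2
  · rcases hB with h | h
    · exact mixB rfl rfl rfl (Or.inr ⟨_, r_EEB_KE_0⟩)
        (Or.inr ⟨by decide, r_EEB_KE_1⟩) hF h e2
    · exact mixB rfl rfl rfl (Or.inr ⟨_, r_EEB_K3E_0⟩)
        (Or.inl r_EEB_K3E_1) hF h e2

theorem cN1 (hX : XM = 86 / 100) (h1 : 740 / 1000 ≤ x) (h4 : T ≤ 65 / 1000) (hA : InK K2P XA)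
    (hB : InK K2 XB) : False := by
  have T0 := C.T0
  have x1 := C.x1
  have hF : InF N1 x T := by
    unfold InF
    simp only [N1]
    push_cast
    rw [hX] at x1
    exact ⟨⟨by linarith only [h1], by linarith only [x1]⟩, by linarith only [T0], by linarith only [h4]⟩
  have e1 : τf N1 x = t1 XM x := by
    unfold τf t1
    rw [hX]
    simp only [N1]
    norm_num
  have e2 : 0 < τf N1 x := by
    rw [e1]
    exact C.tp
  refine C.mix e1 (by simp [N1]) (by simp only [N1]; norm_num)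
    (by rw [hX]; simp only [N1]; norm_num) (by decide) ?_ ?_
  · have h := hA
    exact mixA rfl rfl rfl (Or.inr ⟨_, r_N1A_K2P_0⟩)
        (Or.inl r_N1A_K2P_1) hF h e2
  · have h := hB
    exact mixB rfl rfl rfl (Or.inr ⟨_, r_N1B_K2_0⟩)
        (Or.inl r_N1B_K2_1) hF h e2

theorem cN2 (hX : XM = 86 / 100) (h1 : 740 / 1000 ≤ x) (h4 : T ≤ 51 / 1000)
    (hA : InK K3 XA ∨ InK KZ XA) (hB : InK K2 XB) : False := by
  have T0 := C.T0
  have x1 := C.x1
  have hF : InF N2 x T := by
    unfold InF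
    simp only [N2]
    push_cast
    rw [hX] at x1
    exact ⟨⟨by linarith only [h1], by linarith only [x1]⟩, by linarith only [T0], by linarith only [h4]⟩
  have e1 : τf N2 x = t1 XM x := by
    unfold τf t1
    rw [hX]
    simp only [N2]
    norm_num
  have e2 : 0 < τf N2 x := by
    rw [e1]
    exact C.tp
  refine C.mix e1 (by simp [N2]) (by simp only [N2]; norm_num)
    (by rw [hX]; simp only [N2]; norm_num) (by decide) ?_ ?_
  · rcases hA with h | h
    · exact mixA rfl rfl rfl (Or.inr ⟨_, r_N2A_K3_0⟩)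
        (Or.inr ⟨by decide, r_N2A_K3_1⟩) hF h e2
    · exact mixA rfl rfl rfl (Or.inr ⟨_, r_N2A_KZ_0⟩)
        (Or.inr ⟨by decide, r_N2A_KZ_1⟩) hF h e2
  · have h := hB
    exact mixB rfl rfl rfl (Or.inr ⟨_, r_N2B_K2_0⟩)
        (Or.inl r_N2B_K2_1) hF h e2

theorem cN3 (hX : XM = 86 / 100) (h1 : 740 / 1000 ≤ x) (h3 : 60 / 1000 ≤ T) (h4 : T ≤ 80 / 1000)
    (dA : DOk (⟨x, -(16 / 100 * t1 XM x)⟩ + XA)) (dB : DOk (⟨x, 16 / 100 * t1 XM x⟩ + XB))
    (hA : InK KEm XA) (hB : InK K2h XB) : False := by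
  have T0 := C.T0
  have x1 := C.x1
  have hF : InF N3 x T := by
    unfold InF
    simp only [N3]
    push_cast
    rw [hX] at x1
    exact ⟨⟨by linarith only [h1], by linarith only [x1]⟩, by linarith only [h3], by linarith only [h4]⟩
  have e1 : τf N3 x = t1 XM x := by
    unfold τf t1
    rw [hX]
    simp only [N3]
    norm_num
  refine C.fc e1 (by simp [N3]) (by simp only [N3]; norm_num)
    (by rw [hX]; simp only [N3]; norm_num)
    (by rw [hX]; linarith only [h1]) dA dB ?_ ?_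
  · have h := hA
    exact focA rfl rfl r_N3A_KEm hF h
  · have h := hB
    exact focB rfl rfl (by decide) (by decide) (by decide) (by decide) r_N3B_K2h hF h

theorem cM3 (hX : XM = 86 / 100) (h1 : 740 / 1000 ≤ x) (h4 : T ≤ 80 / 1000)
    (dA : DOk (⟨x, -(16 / 100 * t1 XM x)⟩ + XA)) (dB : DOk (⟨x, 16 / 100 * t1 XM x⟩ + XB))
    (hA : InK KY XA ∨ InK KEm XA) (hB : InK K3m XB ∨ InK K3pm XB) : False := by
  have T0 := C.T0
  have x1 := C.x1
  have hF : InF M3 x T := by
    unfold InF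
    simp only [M3]
    push_cast
    rw [hX] at x1
    exact ⟨⟨by linarith only [h1], by linarith only [x1]⟩, by linarith only [T0], by linarith only [h4]⟩
  have e1 : τf M3 x = t1 XM x := by
    unfold τf t1
    rw [hX]
    simp only [M3]
    norm_num
  refine C.fc e1 (by simp [M3]) (by simp only [M3]; norm_num)
    (by rw [hX]; simp only [M3]; norm_num)
    (by rw [hX]; linarith only [h1]) dA dB ?_ ?_
  · rcases hA with h | h
    · exact focA rfl rfl r_M3A_KY hF h
    · exact focA rfl rfl r_M3A_KEm hF h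
  · rcases hB with h | h
    · exact focB rfl rfl (by decide) (by decide) (by decide) (by decide) r_M3B_K3m hF h
    · exact focB rfl rfl (by decide) (by decide) (by decide) (by decide) r_M3B_K3pm hF h

theorem cMR (hX : XM = 86 / 100) (h1 : 740 / 1000 ≤ x) (h4 : T ≤ 80 / 1000)
    (dA : DOk (⟨x, -(16 / 100 * t1 XM x)⟩ + XA)) (dB : DOk (⟨x, 16 / 100 * t1 XM x⟩ + XB))
    (hA : InK KY XA ∨ InK KEm XA) (hB : InK KZm XB) : False := by
  have T0 := C.T0
  have x1 := C.x1
  have hF : InF MR x T := by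
    unfold InF
    simp only [MR]
    push_cast
    rw [hX] at x1
    exact ⟨⟨by linarith only [h1], by linarith only [x1]⟩, by linarith only [T0], by linarith only [h4]⟩
  have e1 : τf MR x = t1 XM x := by
    unfold τf t1
    rw [hX]
    simp only [MR]
    norm_num
  refine C.fc e1 (by simp [MR]) (by simp only [MR]; norm_num)
    (by rw [hX]; simp only [MR]; norm_num)
    (by rw [hX]; linarith only [h1]) dA dB ?_ ?_
  · rcases hA with h | h
    · exact focA rfl rfl r_MRA_KY hF h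
    · exact focA rfl rfl r_MRA_KEm hF h
  · have h := hB
    exact focB rfl rfl (by decide) (by decide) (by decide) (by decide) r_MRB_KZm hF h

theorem cF3a (hX : XM = 86 / 100) (h1 : 740 / 1000 ≤ x) (h4 : T ≤ 65 / 1000)
    (hA : InK K2y XA ∨ InK K3Ey XA) (hB : InK K3m XB ∨ InK K3pm XB) : False := by
  have T0 := C.T0
  have x1 := C.x1
  have hF : InF F3a x T := by
    unfold InF
    simp only [F3a]
    push_cast
    rw [hX] at x1
    exact ⟨⟨by linarith only [h1], by linarith only [x1]⟩, by linarith only [T0], by linarith only [h4]⟩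
  have e1 : τf F3a x = t1 XM x := by
    unfold τf t1
    rw [hX]
    simp only [F3a]
    norm_num
  have e2 : 0 < τf F3a x := by
    rw [e1]
    exact C.tp
  refine C.mix e1 (by simp [F3a]) (by simp only [F3a]; norm_num)
    (by rw [hX]; simp only [F3a]; norm_num) (by decide) ?_ ?_
  · rcases hA with h | h
    · exact mixA rfl rfl rfl (Or.inr ⟨_, r_F3aA_K2y_0⟩)
        (Or.inl r_F3aA_K2y_1) hF h e2
    · exact mixA rfl rfl rfl (Or.inr ⟨_, r_F3aA_K3Ey_0⟩)
        (Or.inr ⟨by decide, r_F3aA_K3Ey_1⟩) hF h e2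
  · rcases hB with h | h
    · exact mixB rfl rfl rfl (Or.inr ⟨_, r_F3aB_K3m_0⟩)
        (Or.inl r_F3aB_K3m_1) hF h e2
    · exact mixB rfl rfl rfl (Or.inr ⟨_, r_F3aB_K3pm_0⟩)
        (Or.inl r_F3aB_K3pm_1) hF h e2

theorem cF3b (hX : XM = 86 / 100) (h1 : 740 / 1000 ≤ x) (h4 : T ≤ 51 / 1000)
    (hA : InK K3y XA ∨ InK KZy XA) (hB : InK K3m XB ∨ InK K3pm XB) : False := by
  have T0 := C.T0
  have x1 := C.x1
  have hF : InF F3b x T := by
    unfold InF
    simp only [F3b]
    push_cast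
    rw [hX] at x1
    exact ⟨⟨by linarith only [h1], by linarith only [x1]⟩, by linarith only [T0], by linarith only [h4]⟩
  have e1 : τf F3b x = t1 XM x := by
    unfold τf t1
    rw [hX]
    simp only [F3b]
    norm_num
  have e2 : 0 < τf F3b x := by
    rw [e1]
    exact C.tp
  refine C.mix e1 (by simp [F3b]) (by simp only [F3b]; norm_num)
    (by rw [hX]; simp only [F3b]; norm_num) (by decide) ?_ ?_
  · rcases hA with h | h
    · exact mixA rfl rfl rfl (Or.inr ⟨_, r_F3bA_K3y_0⟩)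
        (Or.inr ⟨by decide, r_F3bA_K3y_1⟩) hF h e2
    · exact mixA rfl rfl rfl (Or.inr ⟨_, r_F3bA_KZy_0⟩)
        (Or.inr ⟨by decide, r_F3bA_KZy_1⟩) hF h e2
  · rcases hB with h | h
    · exact mixB rfl rfl rfl (Or.inr ⟨_, r_F3bB_K3m_0⟩)
        (Or.inl r_F3bB_K3m_1) hF h e2
    · exact mixB rfl rfl rfl (Or.inr ⟨_, r_F3bB_K3pm_0⟩)
        (Or.inl r_F3bB_K3pm_1) hF h e2

theorem cFRa (hX : XM = 86 / 100) (h1 : 740 / 1000 ≤ x) (h4 : T ≤ 54 / 1000)
    (hA : InK K2yp XA ∨ InK K2yn XA ∨ InK K3y XA ∨ InK KZy XA) (hB : InK KZm XB) : False := by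
  have T0 := C.T0
  have x1 := C.x1
  have hF : InF FRa x T := by
    unfold InF
    simp only [FRa]
    push_cast
    rw [hX] at x1
    exact ⟨⟨by linarith only [h1], by linarith only [x1]⟩, by linarith only [T0], by linarith only [h4]⟩
  have e1 : τf FRa x = t1 XM x := by
    unfold τf t1
    rw [hX]
    simp only [FRa]
    norm_num
  have e2 : 0 < τf FRa x := by
    rw [e1]
    exact C.tp
  refine C.mix e1 (by simp [FRa]) (by simp only [FRa]; norm_num)
    (by rw [hX]; simp only [FRa]; norm_num) (by decide) ?_ ?_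
  · rcases hA with h | h | h | h
    · exact mixA rfl rfl rfl (Or.inr ⟨_, r_FRaA_K2yp_0⟩)
        (Or.inr ⟨by decide, r_FRaA_K2yp_1⟩) hF h e2
    · exact mixA rfl rfl rfl (Or.inl (by decide))
        (Or.inl r_FRaA_K2yn_1) hF h e2
    · exact mixA rfl rfl rfl (Or.inr ⟨_, r_FRaA_K3y_0⟩)
        (Or.inr ⟨by decide, r_FRaA_K3y_1⟩) hF h e2
    · exact mixA rfl rfl rfl (Or.inr ⟨_, r_FRaA_KZy_0⟩)
        (Or.inr ⟨by decide, r_FRaA_KZy_1⟩) hF h e2
  · have h := hB
    exact mixB rfl rfl rfl (Or.inr ⟨_, r_FRaB_KZm_0⟩)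
        (Or.inl r_FRaB_KZm_1) hF h e2

theorem cFRn (hX : XM = 86 / 100) (h1 : 740 / 1000 ≤ x) (h4 : T ≤ 54 / 1000) (hA : InK K2n XA)
    (hB : InK KZm XB) : False := by
  have T0 := C.T0
  have x1 := C.x1
  have hF : InF FRn x T := by
    unfold InF
    simp only [FRn]
    push_cast
    rw [hX] at x1
    exact ⟨⟨by linarith only [h1], by linarith only [x1]⟩, by linarith only [T0], by linarith only [h4]⟩
  have e1 : τf FRn x = t1 XM x := by
    unfold τf t1
    rw [hX]
    simp only [FRn]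
    norm_num
  have e2 : 0 < τf FRn x := by
    rw [e1]
    exact C.tp
  refine C.mix e1 (by simp [FRn]) (by simp only [FRn]; norm_num)
    (by rw [hX]; simp only [FRn]; norm_num) (by decide) ?_ ?_
  · have h := hA
    exact mixA rfl rfl rfl (Or.inr ⟨_, r_FRnA_K2n_0⟩)
        (Or.inl r_FRnA_K2n_1) hF h e2
  · have h := hB
    exact mixB rfl rfl rfl (Or.inr ⟨_, r_FRnB_KZm_0⟩)
        (Or.inl r_FRnB_KZm_1) hF h e2

theorem cFRb (hX : XM = 86 / 100) (h1 : 740 / 1000 ≤ x) (h4 : T ≤ 65 / 1000) (hA : InK K3Ey XA)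
    (hB : InK KZm XB) : False := by
  have T0 := C.T0
  have x1 := C.x1
  have hF : InF FRb x T := by
    unfold InF
    simp only [FRb]
    push_cast
    rw [hX] at x1
    exact ⟨⟨by linarith only [h1], by linarith only [x1]⟩, by linarith only [T0], by linarith only [h4]⟩
  have e1 : τf FRb x = t1 XM x := by
    unfold τf t1
    rw [hX]
    simp only [FRb]
    norm_num
  have e2 : 0 < τf FRb x := by
    rw [e1]
    exact C.tp
  refine C.mix e1 (by simp [FRb]) (by simp only [FRb]; norm_num)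
    (by rw [hX]; simp only [FRb]; norm_num) (by decide) ?_ ?_
  · have h := hA
    exact mixA rfl rfl rfl (Or.inr ⟨_, r_FRbA_K3Ey_0⟩)
        (Or.inr ⟨by decide, r_FRbA_K3Ey_1⟩) hF h e2
  · have h := hB
    exact mixB rfl rfl rfl (Or.inr ⟨_, r_FRbB_KZm_0⟩)
        (Or.inl r_FRbB_KZm_1) hF h e2

end Core

end M11

end Pool.Agent.Work.NumG
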