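import Pool.Agent.Work.MP_b30479_gt.G2.WM11R1
import Pool.Agent.Work.MP_b30479_gt.G2.WM11R2
import Pool.Agent.Work.MP_b30479_gt.G2.RngO
import Pool.Agent.Work.MP_b30479_gt.G2.WM11I

/-!
# Kind `1 | 1`: small abscissas, response of the other hinge
-/

namespace Pool.Agent.Work.NumG

namespace M11

open MP_b30479_gt.G2 (V1 tr dh1 DOk)
open MP_b30479_gt.G2.SR (cw Cl)

variable {XA XB XC w : ℂ} {x y T U XM : ℝ} {P Q : Cl} {k : KS}

theorem t1_plat {X c : ℝ} (h0 : 15 / 100 ≤ c) (h1 : c ≤ X - 1 / 5) : t1 X c = 1 := by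
  unfold t1 tr
  have a1 : 1 ≤ (X - c) / (1 / 5) := by rw [le_div_iff₀ (by norm_num)]; linarith only [h1]
  have a2 : 1 ≤ (c - 0) / (15 / 100) := by rw [le_div_iff₀ (by norm_num)]; linarith only [h0]
  rw [min_eq_left (le_min a2 a1)]
  norm_num

theorem t1_left {X c : ℝ} (h0 : 0 ≤ c) (h1 : c ≤ 15 / 100) (h2 : c ≤ X - 1 / 5) :
    t1 X c = c / (15 / 100) := by
  unfold t1 tr
  rw [sub_zero]
  have a1 : 1 ≤ (X - c) / (1 / 5) := by rw [le_div_iff₀ (by norm_num)]; linarith only [h2]
  have a2 : c / (15 / 100) ≤ 1 := by rw [div_le_one (by norm_num)]; exact h1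
  rw [min_eq_left (a2.trans a1), min_eq_right a2, max_eq_right (by positivity)]

theorem t1_eq {X X' : ℝ} (h0 : 0 ≤ x) (h1 : x ≤ X - 1 / 5) (h2 : x ≤ X' - 1 / 5) :
    t1 X x = t1 X' x := by
  rcases le_total x (15 / 100) with h | h
  · rw [t1_left h0 h h1, t1_left h0 h h2]
  · rw [t1_plat h h1, t1_plat h h2]

/-- **small abscissas** -/
theorem small (T0 : 0 ≤ T) (T1 : T ≤ 8 / 100) (x0 : 0 < x) (x1 : x ≤ 40 / 100)
    (hX : 80 / 100 ≤ XM) (hA : InK KL XA) (hB : InK KL XB)
    (star : ∀ c, 0 ≤ c → c ≤ XM →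
      (V1 ⟨c, T * t1 XM c⟩ XA - V1 ⟨x, -(16 / 100 * t1 XM x)⟩ XA) +
        (V1 ⟨c, -(T * t1 XM c)⟩ XB - V1 ⟨x, 16 / 100 * t1 XM x⟩ XB) +
        2 * Real.pi * (16 / 100 * t1 XM x) ≤ 0) : False := by
  have key : ∀ F : Fam, F.XM = 800 → ∀ c : ℝ, (F.c : ℝ) / 1000 = c → 0 ≤ c → c ≤ 60 / 100 →
      af F T = T * t1 XM c → -βf F x T < GA F x T XA → βf F x T < GB F x T XB → False := by
    intro F h1 c hc c0 c1 ha gA gB
    have h2 := star c c0 (by linarith only [x0, x1, hX, c1])
    have h3 : τf F x = t1 XM x := by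
      have e : τf F x = t1 (80 / 100) x := by
        unfold τf t1
        rw [h1]
        norm_num
      rw [e]
      exact t1_eq x0.le (by linarith only [x0, x1]) (by linarith only [x0, x1, hX])
    unfold GA at gA
    unfold GB at gB
    rw [hc, ha, h3] at gA gB
    linarith only [gA, gB, h2]
  rcases le_total x (1 / 100) with h1 | h1
  · have h2 : ∀ w : ℂ, InK KL w → 0 ≤ w.re ∧ w.re ≤ 4 / 5 ∧
        |w.im| ≤ 16 / 100 * tr 0 (4 / 5) (15 / 100) (1 / 5) w.re := by
      intro w hw
      obtain ⟨⟨a0, a1⟩, a2, a3⟩ := hw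
      have e : τk KL w.re = tr 0 (4 / 5) (15 / 100) (1 / 5) w.re := by
        unfold τk
        simp only [KL]
        norm_num
      rw [e] at a2 a3
      simp only [KL] at a0 a1 a2 a3
      norm_num at a0 a1 a2 a3
      refine ⟨a0, a1, ?_⟩
      rw [abs_le]
      constructor <;> linarith only [a2, a3]
    obtain ⟨b0, b1, b2⟩ := h2 XA hA
    obtain ⟨c0, c1, c2⟩ := h2 XB hB
    have h3 := MP_b30479_gt.G2.m11_small x0 h1 T0 T1 b0 b1 b2 c0 c1 c2
    have h4 := star x x0.le (by linarith only [x0, hX, h1])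
    rw [t1_left x0.le (by linarith only [x0, h1]) (by linarith only [x0, hX, h1])] at h4
    linarith only [h3, h4]
  rcases le_total x (60 / 1000) with h2 | h2
  · have hF : InF S1 x T := by
      unfold InF
      simp only [S1]
      push_cast
      exact ⟨⟨by linarith only [h1], by linarith only [h2]⟩, by linarith only [T0], by linarith only [T1]⟩
    refine key S1 rfl (5 / 100) (by simp only [S1]; norm_num) (by norm_num) (by norm_num) ?_
      (farA rfl rfl r_S1A_KL hF hA) (farB rfl rfl r_S1B_KL hF hB)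
    rw [t1_left (by norm_num) (by norm_num) (by linarith only [x0, hX, h2])]
    unfold af
    simp only [S1]
    push_cast
    ring
  rcases le_total x (150 / 1000) with h3 | h3
  · have hF : InF S2 x T := by
      unfold InF
      simp only [S2]
      push_cast
      exact ⟨⟨by linarith only [x0, h2], by linarith only [h3]⟩, by linarith only [T0], by linarith only [T1]⟩
    refine key S2 rfl (10 / 100) (by simp only [S2]; norm_num) (by norm_num) (by norm_num) ?_
      (farA rfl rfl r_S2A_KL hF hA) (farB rfl rfl r_S2B_KL hF hB)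
    rw [t1_left (by norm_num) (by norm_num) (by linarith only [x0, hX, h3])]
    unfold af
    simp only [S2]
    push_cast
    ring
  · have hF : InF S3 x T := by
      unfold InF
      simp only [S3]
      push_cast
      exact ⟨⟨by linarith only [h3], by linarith only [x1]⟩, by linarith only [T0], by linarith only [T1]⟩
    refine key S3 rfl (20 / 100) (by simp only [S3]; norm_num) (by norm_num) (by norm_num) ?_
      (farA rfl rfl r_S3A_KL hF hA) (farB rfl rfl r_S3B_KL hF hB)
    rw [t1_plat (by norm_num) (by linarith only [x0, x1, hX])]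
    unfold af
    simp only [S3]
    push_cast
    ring

theorem EV1_val (x t y k : E) (xs : List ℝ) : (E.V1 x t y k).val xs =
    V1 ⟨x.val xs, t.val xs⟩ ⟨y.val xs, k.val xs⟩ := by
  rw [MP_b30479_gt.G2.M11S.V1_form]
  simp only [E.V1, E.val]
  ring

/-- gain of the side A of a mode `1 | 1` moved to `3/10` -/
theorem respA (hx : 40 / 100 ≤ x) (hx' : x ≤ 80 / 100) (T0 : 0 ≤ T) (T1 : T ≤ 8 / 100)
    (hA : PN P T XA) : -βf RS x T < V1 ⟨3 / 10, T⟩ XA - V1 ⟨x, -(16 / 100 * t1 (80 / 100) x)⟩ XA := by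
  have hF : InF RS x T := by
    unfold InF
    simp only [RS]
    push_cast
    exact ⟨⟨by linarith only [hx], by linarith only [hx']⟩, by linarith only [T0], by linarith only [T1]⟩
  have h1 : -βf RS x T < GA RS x T XA := by
    rcases hA.a4 with h | h | h | h
    · exact farA rfl rfl r_RSA_K12 hF h
    · exact farA rfl rfl r_RSA_KU hF h
    · exact farA rfl rfl r_RSA_K3 hF h
    · exact farA rfl rfl r_RSA_KZ hF h
  refine lt_of_lt_of_eq h1 ?_
  unfold GA
  have e1 : τf RS x = t1 (80 / 100) x := by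
    unfold τf t1
    simp only [RS]
    norm_num
  have e2 : af RS T = T := by
    unfold af
    simp only [RS]
    norm_num
  rw [e1, e2]
  simp only [RS]
  norm_num

/-- the region between two modes -/
theorem respB (hx : 40 / 100 ≤ x) (hx' : x ≤ 80 / 100) (T0 : 0 ≤ T) (T1 : T ≤ 8 / 100)
    (hy : 40 / 100 ≤ y) (hy' : y ≤ 80 / 100) (U0 : 0 ≤ U) (U1 : U ≤ 8 / 100) :
    βf RS x T + βf RS y U < V1 ⟨3 / 10, -T⟩ ⟨3 / 10, -U⟩ -
      V1 ⟨x, 16 / 100 * t1 (80 / 100) x⟩ ⟨y, 16 / 100 * t1 (80 / 100) y⟩ +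
      2 * Real.pi * (16 / 100 * t1 (80 / 100) x) + 2 * Real.pi * (16 / 100 * t1 (80 / 100) y) := by
  obtain ⟨e, he, hp⟩ := chkF4 r_RS_resp (x := x) (y := T) (z := y) (w := U) (by norm_num)
    (by norm_num; linarith only [hx]) (by norm_num; linarith only [hx']) (by norm_num; linarith only [T0])
    (by norm_num; linarith only [T1]) (by norm_num; linarith only [hy]) (by norm_num; linarith only [hy'])
    (by norm_num; linarith only [U0]) (by norm_num; linarith only [U1])
  unfold rsE at he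
  rw [List.mem_singleton] at he
  rw [he] at hp
  have e1 : τf RS x = t1 (80 / 100) x := by
    unfold τf t1
    simp only [RS]
    norm_num
  have e2 : (E.tr RS.XM 150 200 vy).val [x, T, y, U] = t1 (80 / 100) y := by
    rw [E.tr_val (by norm_num) (by norm_num) (by decide)]
    unfold t1
    simp only [vy, E.val, NumI.lkR_zero, NumI.lkR_succ, RS]
    norm_num
  simp only [E.val, EV1_val, hx_val (F := RS) rfl, bE_val, E.pl_val, e1, e2] at hp
  simp only [E.val, vx, vT, vy, vH, NumI.lkR_zero, NumI.lkR_succ] at hp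
  have e3 : βf RS y U = plR y RS.b0 RS.bl + RS.bT / 100 * U := rfl
  rw [e3]
  norm_num at hp ⊢
  linarith only [hp]

end M11

end Pool.Agent.Work.NumG
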