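import Pool.Agent.Work.MP_b30479_gt.G2.WM11E
import Pool.Agent.Work.NumI.TreeS

/-!
# Pieces of the certificates of `WM11R16`, part 3
-/

namespace Pool.Agent.Work.NumG
namespace M11

theorem r_FRaA_K3y_0_p5 : Pool.Agent.Work.NumI.runE (Pool.Agent.Work.NumG.tst (A0 FRa K3y))
    0 0 0 0 35 57037165691 59098749994 0 3710851745 8933531975 13400297964 1580547965 3161095930
    16748905744000621530928161066525684229612103717941722027569699015733247111514528593542650376241567254602971924282437553838139195689948154924841012373509015439403168097445441545095592220209506286847880715597115337590439973541595579662137426117488713956325680599155179418140959775443949658118239316657684948753533005751093103071736829695374965281965186226996063746111729957917568048067099569402133417492467000550367171805799006219318000007279375452974222381883015082105889141539564948398405700134048902337755184377150864602213815874341885501335934228365553526999127378904397456498030104385184795294601790179172563907603740295014364556193704515400103412085456640943188952898712125441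
    2911527525748194645533222510633712992376255392504078914149195657329966109456638093784192941193329720869434263192472419112484298232564940678570860533407741678321327113551433494806516632320436313662630135561766752847559269781793728323901863553340800187758374636331649131219969838710682390697027029042533390266007697785658830394507971248482153558027652301302291254936076416 = true := by
  decide +kernel

theorem r_FRaA_K3y_0_p6 : Pool.Agent.Work.NumI.runE (Pool.Agent.Work.NumG.tst (A0 FRa K3y))
    0 0 0 0 37 54975581389 59098749994 0 3710851745 8933531975 13400297964 3161095930 6322191861
    2911527525748194645533222510633712992376255392504078914149195657329966109456638093784192941193329720869434263192472419112484298232564940678570860533407741678321327113551433494806516632320436313662630135561766752847559269781793728323901863553340800187758374636331649131219969838710682390697027029042533390266007697785658830394507971248482153558027652301302291254936076416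
    1160790498184759949343311831866692812013542394554833531935939290290048828213947598135082718360775974074926693764981302102238175540950473455077337481439843281790845312 = true := by
  decide +kernel

theorem r_FRaA_K3y_0_p7 : Pool.Agent.Work.NumI.runE (Pool.Agent.Work.NumG.tst (A0 FRa K3y))
    0 0 0 0 39 50852412784 59098749994 0 3710851745 13400297964 17867063953 0 6322191861
    1160790498184759949343311831866692812013542394554833531935939290290048828213947598135082718360775974074926693764981302102238175540950473455077337481439843281790845312
    0 = true := by
  decide +kernel

theorem r_FRaA_K3y_1 : chkF (A1p FRa K3y) 1000 0 0 0 0 40 740 860 0 54 140 650 0 92
  252527134847525251251782014747456384317923835914673361528315627958641788127697808717237149750141823941378812260588019021762738310421998851032737651960584917419750990167633672703989765445136463142846490936759215430274243757674512032960155854462835903381734938969872642237289157423689707490336933479041219499761226746933273593908770465565657813305262338 = true := by decide +kernel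

end M11

end Pool.Agent.Work.NumG
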