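import Pool.Agent.Work.NumU.GenD
import Pool.Agent.Work.NumU.GenF

/-!
# A pair of `1|1` modes near `x = 0`
-/

namespace Pool.Agent.Work.MP_b30479_gt.G2

open VOL NumU

namespace M11S

theorem V1_form (x t y k : ℝ) : V1 ⟨x, t⟩ ⟨y, k⟩ =
    Real.pi * (x * k + y * t - t - k) + uu (x + y) (t + k) - uu x t - uu y k := by
  unfold V1
  simp only [UU_uu, Complex.add_re, Complex.add_im, Complex.sub_im, Complex.mul_im]
  ring

/-- derivative in the second variable -/
theorem deriv_t {u : ℝ} (h0 : 0 < u) (h1 : u < 1) (t : ℝ) :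
    HasDerivAt (fun s => uu u s) (-NumI.lnB u t) t := by
  have h := uu_line (x := u) (t := 0) (a := 0) (b := 1) (τ := t) (by linarith only [h0]) (by linarith only [h1])
  have e : (fun τ : ℝ => uu (u + τ * 0) (0 + τ * 1)) = fun s => uu u s := by
    funext s
    congr 1 <;> ring
  rw [e] at h
  refine h.congr_deriv ?_
  have e1 : u + t * 0 = u := by ring
  have e2 : 0 + t * 1 = t := by ring
  rw [e1, e2]
  ring

/-- mean value, lower bound -/
theorem mv_lo {u a b m : ℝ} (h0 : 0 < u) (h1 : u < 1) (hab : a ≤ b)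
    (h : ∀ r, a ≤ r → r ≤ b → m ≤ -NumI.lnB u r) : m * (b - a) ≤ uu u b - uu u a := by
  have hm : MonotoneOn (fun s => uu u s - m * s) (Set.Icc a b) := by
    have hd : ∀ r, HasDerivAt (fun s => uu u s - m * s) (-NumI.lnB u r - m * 1) r := fun r =>
      (deriv_t h0 h1 r).sub ((hasDerivAt_id r).const_mul m)
    apply monotoneOn_of_deriv_nonneg (convex_Icc _ _)
    · exact fun r _ => (hd r).continuousAt.continuousWithinAt
    · exact fun r _ => (hd r).differentiableAt.differentiableWithinAt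
    · intro r hr
      rw [interior_Icc] at hr
      rw [(hd r).deriv]
      have := h r hr.1.le hr.2.le
      linarith only [this]
  have := hm ⟨le_rfl, hab⟩ ⟨hab, le_rfl⟩ hab
  simp only at this
  linarith only [this]

/-- mean value, upper bound -/
theorem mv_up {u a b m : ℝ} (h0 : 0 < u) (h1 : u < 1) (hab : a ≤ b)
    (h : ∀ r, a ≤ r → r ≤ b → -NumI.lnB u r ≤ m) : uu u b - uu u a ≤ m * (b - a) := by
  have hm : AntitoneOn (fun s => uu u s - m * s) (Set.Icc a b) := by
    have hd : ∀ r, HasDerivAt (fun s => uu u s - m * s) (-NumI.lnB u r - m * 1) r := fun r =>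
      (deriv_t h0 h1 r).sub ((hasDerivAt_id r).const_mul m)
    apply antitoneOn_of_deriv_nonpos (convex_Icc _ _)
    · exact fun r _ => (hd r).continuousAt.continuousWithinAt
    · exact fun r _ => (hd r).differentiableAt.differentiableWithinAt
    · intro r hr
      rw [interior_Icc] at hr
      rw [(hd r).deriv]
      have := h r hr.1.le hr.2.le
      linarith only [this]
  have := hm ⟨le_rfl, hab⟩ ⟨hab, le_rfl⟩ hab
  simp only at this
  linarith only [this]

theorem arctan_16_15 : Real.arctan (16 / 15) ≤ 82 / 100 := by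
  have h := Real.arctan_add (x := 1) (y := 1 / 31) (by norm_num)
  rw [show ((1 : ℝ) + 1 / 31) / (1 - 1 * (1 / 31)) = 16 / 15 by norm_num, Real.arctan_one] at h
  have h2 : Real.arctan (1 / 31) ≤ 1 / 31 := by
    have h3 : 0 < Real.arctan (1 / 31) := by
      rw [Real.arctan_pos]
      norm_num
    have h4 := Real.lt_tan h3 (Real.arctan_lt_pi_div_two _)
    rw [Real.tan_arctan] at h4
    exact h4.le
  have := Real.pi_lt_d4
  linarith only [h, h2, this]

/-- slope left of `1/2` -/
theorem lnB_left {u r : ℝ} (h0 : 0 < u) (h1 : u ≤ 1 / 2) (hr : |r| ≤ 16 / 15 * u) :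
    |NumI.lnB u r| ≤ 82 / 100 := by
  have hp := Real.pi_pos
  have key : ∀ r : ℝ, 0 ≤ r → r ≤ 16 / 15 * u → 0 ≤ NumI.lnB u r ∧ NumI.lnB u r ≤ 82 / 100 := by
    intro r r0 r1
    have s0 : 0 < Real.sin (Real.pi * u) := by
      apply Real.sin_pos_of_pos_of_lt_pi <;> nlinarith only [h0, hp, h1]
    have c0 : 0 ≤ Real.cos (Real.pi * u) := by
      apply Real.cos_nonneg_of_mem_Icc
      constructor <;> nlinarith only [hp, h0, h1]
    have ch := Real.cosh_pos (Real.pi * r)
    have sh : 0 ≤ Real.sinh (Real.pi * r) := Real.sinh_nonneg_iff.2 (by positivity)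
    have q0 : 0 ≤ Real.cos (Real.pi * u) * Real.sinh (Real.pi * r) /
        (Real.sin (Real.pi * u) * Real.cosh (Real.pi * r)) := by positivity
    -- `u π cos ≤ sin`
    have h2 : Real.pi * u * Real.cos (Real.pi * u) ≤ Real.sin (Real.pi * u) := by
      rcases eq_or_lt_of_le h1 with h1 | h1
      · rw [h1, show Real.pi * (1 / 2) = Real.pi / 2 by ring, Real.cos_pi_div_two,
          Real.sin_pi_div_two]
        norm_num
      have h3 : Real.pi * u < Real.pi / 2 := by nlinarith only [hp, h1]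
      have h4 := Real.lt_tan (show 0 < Real.pi * u by positivity) h3
      have h5 : 0 < Real.cos (Real.pi * u) := by
        apply Real.cos_pos_of_mem_Ioo
        constructor <;> nlinarith only [hp, h0, h3]
      rw [Real.tan_eq_sin_div_cos, lt_div_iff₀ h5] at h4
      exact h4.le
    -- `sinh ≤ x cosh`
    have h6 : Real.sinh (Real.pi * r) ≤ Real.pi * r * Real.cosh (Real.pi * r) := by
      have hm : MonotoneOn (fun z : ℝ => z * Real.cosh z - Real.sinh z) (Set.Ici 0) := by
        have hd : ∀ z : ℝ, HasDerivAt (fun z : ℝ => z * Real.cosh z - Real.sinh z)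
            (1 * Real.cosh z + z * Real.sinh z - Real.cosh z) z := fun z =>
          ((hasDerivAt_id z).mul (Real.hasDerivAt_cosh z)).sub (Real.hasDerivAt_sinh z)
        apply monotoneOn_of_deriv_nonneg (convex_Ici 0)
        · exact fun z _ => (hd z).continuousAt.continuousWithinAt
        · exact fun z _ => (hd z).differentiableAt.differentiableWithinAt
        · intro z hz
          rw [interior_Ici] at hz
          rw [(hd z).deriv]
          have h7 : 0 ≤ z * Real.sinh z :=
            mul_nonneg (le_of_lt hz) (Real.sinh_nonneg_iff.2 (le_of_lt hz))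
          linarith only [h7]
      have h8 := hm (Set.mem_Ici.2 le_rfl) (Set.mem_Ici.2 (show 0 ≤ Real.pi * r by positivity))
        (by positivity)
      simp only [zero_mul, Real.sinh_zero, sub_zero] at h8
      linarith only [h8]
    have h9 : Real.cos (Real.pi * u) * Real.sinh (Real.pi * r) /
        (Real.sin (Real.pi * u) * Real.cosh (Real.pi * r)) ≤ 16 / 15 := by
      rw [div_le_iff₀ (by positivity)]
      calc Real.cos (Real.pi * u) * Real.sinh (Real.pi * r) ≤
          Real.cos (Real.pi * u) * (Real.pi * r * Real.cosh (Real.pi * r)) := by gcongr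
        _ ≤ Real.cos (Real.pi * u) * (Real.pi * (16 / 15 * u) * Real.cosh (Real.pi * r)) := by
          gcongr
        _ = 16 / 15 * (Real.pi * u * Real.cos (Real.pi * u)) * Real.cosh (Real.pi * r) := by ring
        _ ≤ 16 / 15 * Real.sin (Real.pi * u) * Real.cosh (Real.pi * r) := by gcongr
        _ = 16 / 15 * (Real.sin (Real.pi * u) * Real.cosh (Real.pi * r)) := by ring
    unfold NumI.lnB
    constructor
    · rw [← Real.arctan_zero]
      exact Real.arctan_strictMono.monotone q0
    · exact (Real.arctan_strictMono.monotone h9).trans arctan_16_15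
  rcases le_total 0 r with h | h
  · rw [abs_of_nonneg h] at hr
    obtain ⟨a1, a2⟩ := key r h hr
    rw [abs_of_nonneg a1]
    exact a2
  · rw [abs_of_nonpos h] at hr
    obtain ⟨a1, a2⟩ := key (-r) (by linarith only [h]) hr
    have e : NumI.lnB u r = -NumI.lnB u (-r) := by
      unfold NumI.lnB
      rw [mul_neg, Real.sinh_neg, Real.cosh_neg, mul_neg, neg_div, Real.arctan_neg, neg_neg]
    rw [e, abs_neg, abs_of_nonneg a1]
    exact a2

/-! ### the row -/

def gE : NumG.E :=
  .sub (.q 26 10) (.add (.mul .pi (.var 0)) (.yw (.add (.var 1) (.var 0))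
    (.mul (.var 2) (.add (.mul (.q 16 100) (NumG.E.tr 800 150 200 (.var 0)))
      (.mul (.q 16 15) (.var 1))))))

theorem row : NumG.chkF [gE] 1000 0 0 1000 0 40 480 800 0 10 0 2000 0 0
    1508316075319402520391259662292634497519789038174464 = true := by
  decide +kernel

/-- height of the hinge at `y` -/
noncomputable def hh (y : ℝ) : ℝ := 16 / 100 * tr 0 (4 / 5) (15 / 100) (1 / 5) y

theorem row_val {y x r : ℝ} (y0 : 48 / 100 ≤ y) (y1 : y ≤ 8 / 10) (x0 : 0 < x)
    (x1 : x ≤ 1 / 100) (hr : |r| ≤ hh y + 16 / 15 * x) :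
    Real.pi * y - NumI.lnB (x + y) r ≤ 26 / 10 := by
  have ht : 0 ≤ tr 0 (4 / 5) (15 / 100) (1 / 5) y := le_max_left _ _
  have hc : 0 < hh y + 16 / 15 * x := by
    unfold hh
    positivity
  obtain ⟨r1, r2⟩ := abs_le.1 hr
  set c := hh y + 16 / 15 * x with hcd
  have s1 : -1 ≤ r / c := by rw [le_div_iff₀ hc]; linarith only [r1]
  have s2 : r / c ≤ 1 := by rw [div_le_one hc]; exact r2
  obtain ⟨e, he, hp⟩ := NumG.chkF4 row (by norm_num) (x := y) (y := x) (z := r / c) (w := 0)
    (by push_cast; linarith only [y0]) (by push_cast; linarith only [y1]) (by push_cast; linarith only [x0])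
    (by push_cast; linarith only [x1]) (by push_cast; linarith only [s1]) (by push_cast; linarith only [s2])
    (by push_cast; norm_num) (by push_cast; norm_num)
  obtain rfl := List.mem_singleton.1 he
  have e2 : gE.val [y, x, r / c, 0] = ((26 : ℤ) : ℝ) / ((10 : ℕ) : ℝ) -
      (Real.pi * y + NumX.yy (x + y) (r / c * (((16 : ℤ) : ℝ) / ((100 : ℕ) : ℝ) *
        (NumG.E.tr 800 150 200 (.var 0)).val [y, x, r / c, 0] +
        ((16 : ℤ) : ℝ) / ((15 : ℕ) : ℝ) * x))) := rfl
  rw [e2, NumG.E.tr_val (by norm_num) (by norm_num) (by norm_num)] at hp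
  have e3 : (NumG.E.var 0).val [y, x, r / c, 0] = y := rfl
  rw [e3] at hp
  have e4 : r / c * (((16 : ℤ) : ℝ) / ((100 : ℕ) : ℝ) *
      tr 0 (((800 : ℤ) : ℝ) / 1000) (((150 : ℕ) : ℝ) / 1000) (((200 : ℕ) : ℝ) / 1000) y +
      ((16 : ℤ) : ℝ) / ((15 : ℕ) : ℝ) * x) = r := by
    have e5 : ((16 : ℤ) : ℝ) / ((100 : ℕ) : ℝ) *
      tr 0 (((800 : ℤ) : ℝ) / 1000) (((150 : ℕ) : ℝ) / 1000) (((200 : ℕ) : ℝ) / 1000) y +
      ((16 : ℤ) : ℝ) / ((15 : ℕ) : ℝ) * x = c := by
      rw [hcd]
      unfold hh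
      push_cast
      norm_num
    rw [e5]
    field_simp
  rw [e4, NumX.yy_lnB (by linarith only [y0, x0, x1]) (by linarith only [y1, x0, x1])] at hp
  push_cast at hp
  linarith only [hp]

theorem tr_lin {y : ℝ} (y0 : 0 ≤ y) (y1 : y ≤ 4 / 5) : hh y ≤ 16 / 15 * y := by
  unfold hh tr
  rw [sub_zero]
  have : max 0 (min 1 (min (y / (15 / 100)) ((4 / 5 - y) / (1 / 5)))) ≤ y / (15 / 100) :=
    max_le (by positivity) ((min_le_right _ _).trans (min_le_left _ _))
  calc 16 / 100 * max 0 (min 1 (min (y / (15 / 100)) ((4 / 5 - y) / (1 / 5)))) ≤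
      16 / 100 * (y / (15 / 100)) := by gcongr
    _ = 16 / 15 * y := by ring

/-- lower bound -/
theorem low {y x r : ℝ} (y0 : 0 ≤ y) (y1 : y ≤ 8 / 10) (x0 : 0 < x)
    (x1 : x ≤ 1 / 100) (hr : |r| ≤ hh y + 16 / 15 * x) :
    -(82 / 100) - Real.pi * y ≤ -NumI.lnB (x + y) r := by
  have hp := Real.pi_pos
  have h1 := tr_lin y0 (by linarith only [y1])
  rcases le_total (x + y) (1 / 2) with h | h
  · have h2 := lnB_left (u := x + y) (r := r) (by linarith only [y0, x0]) h (by linarith only [hr, h1])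
    have h3 := (abs_le.1 h2).2
    have h4 : 0 ≤ Real.pi * y := by positivity
    linarith only [h3, h4]
  · have h2 : NumI.lnB (x + y) r ≤ Real.pi / 2 := by
      unfold NumI.lnB
      exact (Real.arctan_lt_pi_div_two _).le
    have h4 : Real.pi * (49 / 100) ≤ Real.pi * y := by gcongr; linarith only [x1, h]
    nlinarith only [x0, x1, h2, h4, Real.pi_gt_three, Real.pi_lt_four]

/-- upper bound -/
theorem upp {y x r : ℝ} (y0 : 0 ≤ y) (y1 : y ≤ 8 / 10) (x0 : 0 < x)
    (x1 : x ≤ 1 / 100) (hr : |r| ≤ hh y + 16 / 15 * x) :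
    -NumI.lnB (x + y) r ≤ 26 / 10 - Real.pi * y := by
  have hp := Real.pi_pos
  rcases le_total y (48 / 100) with h | h
  · have h1 := tr_lin y0 (by linarith only [y1])
    have h2 := lnB_left (u := x + y) (r := r) (by linarith only [y0, x0]) (by linarith only [x0, x1, h]) (by linarith only [hr, h1])
    have h3 := (abs_le.1 h2).1
    have h4 : Real.pi * y ≤ Real.pi * (48 / 100) := by gcongr
    have := Real.pi_lt_d2
    nlinarith only [x0, x1, h3, h4, this]
  · have := row_val h y1 x0 x1 hr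
    linarith only [this]

end M11S

open M11S in
/-- two modes `1|1` near `x = 0` -/
theorem m11_small {x T y s y' s' : ℝ} (x0 : 0 < x) (x1 : x ≤ 1 / 100) (T0 : 0 ≤ T)
    (T1 : T ≤ 8 / 100) (y0 : 0 ≤ y) (y1 : y ≤ 4 / 5)
    (hs : |s| ≤ 16 / 100 * tr 0 (4 / 5) (15 / 100) (1 / 5) y) (y0' : 0 ≤ y') (y1' : y' ≤ 4 / 5)
    (hs' : |s'| ≤ 16 / 100 * tr 0 (4 / 5) (15 / 100) (1 / 5) y') :
    0 < (V1 ⟨x, T * (x / (15 / 100))⟩ ⟨y, s⟩ - V1 ⟨x, -(16 / 100 * (x / (15 / 100)))⟩ ⟨y, s⟩) +
      (V1 ⟨x, -(T * (x / (15 / 100)))⟩ ⟨y', s'⟩ - V1 ⟨x, 16 / 100 * (x / (15 / 100))⟩ ⟨y', s'⟩) +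
      2 * Real.pi * (16 / 100 * (x / (15 / 100))) := by
  have hp := Real.pi_pos
  have hp3 := Real.pi_gt_d2
  set τ := x / (15 / 100) with hτ
  have τ0 : 0 < τ := by positivity
  have τ1 : 16 / 100 * τ = 16 / 15 * x := by rw [hτ]; ring
  rw [V1_form, V1_form, V1_form, V1_form, uu_neg x (16 / 100 * τ), uu_neg x (T * τ)]
  have hT : T * τ ≤ 16 / 100 * τ := by nlinarith only [hτ, x0, x1, T1, T0]
  have hTτ : 0 ≤ T * τ := by positivity
  -- the difference at `x`
  have hC : -(82 / 100) * (16 / 100 * τ - T * τ) ≤ uu x (16 / 100 * τ) - uu x (T * τ) := by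
    apply mv_lo x0 (by linarith only [x0, x1]) hT
    intro r r0 r1
    have h2 := lnB_left (u := x) (r := r) x0 (by linarith only [x0, x1]) (by
      rw [abs_of_nonneg (by linarith only [hTτ, r0])]
      linarith only [hτ, r1])
    have h3 := (abs_le.1 h2).2
    linarith only [h3]
  obtain ⟨a1, a2⟩ := abs_le.1 hs
  obtain ⟨b1, b2⟩ := abs_le.1 hs'
  have hA : (-(82 / 100) - Real.pi * y) * ((T * τ + s) - (-(16 / 100 * τ) + s)) ≤
      uu (x + y) (T * τ + s) - uu (x + y) (-(16 / 100 * τ) + s) := by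
    apply mv_lo (by linarith only [x0, y0]) (by linarith only [x0, x1, y1]) (by linarith only [x0, hτ, hTτ])
    intro r r0 r1
    apply low y0 (by linarith only [y1]) x0 x1
    unfold hh
    rw [abs_le]
    constructor <;> linarith only [hτ, a1, r0, hT, a2, r1]
  have hB : uu (x + y') (16 / 100 * τ + s') - uu (x + y') (-(T * τ) + s') ≤
      (26 / 10 - Real.pi * y') * ((16 / 100 * τ + s') - (-(T * τ) + s')) := by
    apply mv_up (by linarith only [x0, y0']) (by linarith only [x0, x1, y1']) (by linarith only [x0, hτ, hTτ])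
    intro r r0 r1
    apply upp y0' (by linarith only [y1']) x0 x1
    unfold hh
    rw [abs_le]
    constructor <;> linarith only [hτ, hT, b1, r0, b2, r1]
  have key : 0 < τ * (-(344 / 100) * (T + 16 / 100) - 164 / 100 * (16 / 100 - T) +
      2 * Real.pi * (16 / 100) + 2 / 100 * (T + 16 / 100)) := by
    apply mul_pos τ0
    nlinarith only [x0, x1, T1, hp3]
  nlinarith only [hC, hA, hB, key, hA, hB, hC, key]

end Pool.Agent.Work.MP_b30479_gt.G2
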