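import Pool.Agent.Work.MP_b30479_gt.G2.MKK
import Pool.Agent.Work.MP_b30479_gt.G2.MPHess
import Pool.Agent.Work.MP_b30479_gt.G2.TDefs
import Pool.Agent.Work.MP_b30479_gt.G2.TRc
import Pool.Agent.Work.MP_b30479_gt.G2.V3MidRA
import Pool.Agent.Work.MP_b30479_gt.G2.WLocA
import Pool.Agent.Work.MP_b30479_gt.G2.WRng
import Pool.Agent.Work.MP_b30479_gt.G2.WTab
import Pool.Agent.Work.NumI.Demo

/-!
# The kind `1 | 3`, slot `0` of the `3`: consequences of maximality

`M13.H x T Tl pl k l w`: the hinge `1 | 3` is on its mirrored path at `x`; `T` height of the saddle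
point in the frame of the `1`; `k` the other hinge of the `1`, `l` the inner variable of the `3` (`Tl`
height of its saddle point, `pl` its penalty), `w` the hinge of the `3` in the slot `2`.  The moves
`keep`, `resp`, `inner`, the move along the mirrored path `mir`, and the first order conditions.
-/

namespace Pool.Agent.Work.MP_b30479_gt.G2

open Finset VOL Filter Topology

namespace M13

/-- ramp function of the hinge -/
noncomputable def τ (x : ℝ) : ℝ := tr 0 (65 / 100) (13 / 100) (15 / 100) x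

/-- ramp function of the inner variable -/
noncomputable def τl (y : ℝ) : ℝ := tr 0 (8 / 10) (5 / 100) (5 / 100) y

/-- mirrored position in the frame of the `1` -/
noncomputable def um (x : ℝ) : ℂ := ⟨x, -(1 / 2 * τ x)⟩

/-- mirrored position in the frame of the `3` -/
noncomputable def up (x : ℝ) : ℂ := ⟨x, 1 / 2 * τ x⟩

/-- target in the frame of the `1` -/
noncomputable def cm (T c : ℝ) : ℂ := ⟨c, T * τ c⟩

/-- target in the frame of the `3` -/
noncomputable def cp (T c : ℝ) : ℂ := ⟨c, -(T * τ c)⟩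

/-- target of the inner variable -/
noncomputable def li (Tl y : ℝ) : ℂ := ⟨y, Tl * τl y⟩

/-- positions of the other hinge of the `1`, by the class of the other neighbour -/
inductive KP (T : ℝ) (k : ℂ) : Prop
  | one : 21 / 1000 ≤ T → T ≤ 92 / 1000 → 0 ≤ k.re → k.re ≤ 86 / 100 →
      |k.im| ≤ 16 / 100 * tr 0 (86 / 100) (15 / 100) (20 / 100) k.re → KP T k
  | two : 46 / 1000 ≤ T → T ≤ 94 / 1000 → 0 ≤ k.re → k.re ≤ 80 / 100 →
      |k.im| ≤ 16 / 100 * tr 0 (80 / 100) (16 / 100) (29 / 100) k.re → KP T k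
  /-- a `2` at an end, main path (or real) -/
  | em : 87 / 1000 ≤ T → T ≤ 1145 / 10000 → 0 ≤ k.re → k.re ≤ 70 / 100 →
      (∃ s : ℝ, -(45 / 1000) ≤ s ∧ s ≤ 0 ∧
        k.im = s * tr 0 (70 / 100) (14 / 100) (35 / 100) k.re) → KP T k
  /-- a `2` at an end, mirrored path -/
  | eu : 87 / 1000 ≤ T → T ≤ 1145 / 10000 → 0 ≤ k.re → k.re ≤ 70 / 100 →
      k.im = 16 / 100 * tr 0 (70 / 100) (14 / 100) (35 / 100) k.re → KP T k

/-- positions of the inner variable and its penalty -/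
inductive LP (Tl pl : ℝ) (l : ℂ) : Prop
  | main : l.im = Tl * τl l.re → pl = 0 → LP Tl pl l
  | up : Tl ≤ 0 → l.im = 16 / 100 * τl l.re → pl = 16 / 100 * τl l.re → LP Tl pl l
  | dn : 0 ≤ Tl → l.im = -(16 / 100 * τl l.re) → pl = 16 / 100 * τl l.re → LP Tl pl l

/-- **Consequences of maximality.** -/
structure H (x T Tl pl : ℝ) (k l w : ℂ) : Prop where
  x0 : 0 < x
  x1 : x < 65 / 100
  kp : KP T k
  lp : LP Tl pl l
  l0 : 0 ≤ l.re
  l1 : l.re ≤ 8 / 10
  t0 : -(90 / 1000) ≤ Tl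
  t1 : Tl ≤ 5 / 1000
  s0 : -(45 / 1000) ≤ Tl + T
  s1 : Tl + T ≤ 84 / 1000
  w0 : 0 ≤ w.re
  w1 : w.re ≤ 65 / 100
  w2 : |w.im| ≤ 16 / 100 * tr 0 (65 / 100) (13 / 100) (29 / 100) w.re
  /-- star move, the inner variable is kept -/
  keep : ∀ c : ℝ, 0 ≤ c → c ≤ 65 / 100 → V1 (cm T c) k - V1 (um x) k +
    (V3 (cp T c) l w - V3 (up x) l w) + 2 * Real.pi * (1 / 2 * τ x) ≤ 0
  /-- star move, the inner variable is moved to its main path -/
  resp : ∀ c y : ℝ, 0 ≤ c → c ≤ 65 / 100 → 0 ≤ y → y ≤ 8 / 10 → V1 (cm T c) k - V1 (um x) k +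
    (V3 (cp T c) (li Tl y) w - V3 (up x) l w) + 2 * Real.pi * pl +
      2 * Real.pi * (1 / 2 * τ x) ≤ 0
  /-- the inner variable is moved to its main path -/
  inner : ∀ y : ℝ, 0 ≤ y → y ≤ 8 / 10 →
    V3 (up x) (li Tl y) w - V3 (up x) l w + 2 * Real.pi * pl ≤ 0
  /-- the hinge is moved along the mirrored path -/
  mir : ∀ y : ℝ, 0 ≤ y → y ≤ 65 / 100 →
    V1 (um y) k + V3 (up y) l w - 2 * Real.pi * (1 / 2 * τ y) ≤
      V1 (um x) k + V3 (up x) l w - 2 * Real.pi * (1 / 2 * τ x)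

/-! ### the value of the digit `1` at a kink -/

/-- the value of a digit `1` with one of the two branches at the kink -/
noncomputable def V1s (σ : ℝ) (u k : ℂ) : ℝ :=
  Real.pi * (u * k - u - k).im + UU (u + k - 1) - UU u - UU k + σ * (Real.pi * (u + k).im)

theorem V1s_le {σ : ℝ} (h : |σ| ≤ 1) (u k : ℂ) : V1s σ u k ≤ V1 u k := by
  have h1 := UU_add_one (u + k - 1)
  rw [sub_add_cancel] at h1
  have e : (u + k - 1).im = (u + k).im := by simp
  rw [e] at h1
  have h2 : σ * (Real.pi * (u + k).im) ≤ Real.pi * |(u + k).im| := by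
    have h3 : σ * (Real.pi * (u + k).im) ≤ |σ * (Real.pi * (u + k).im)| := le_abs_self _
    rw [abs_mul, abs_mul, abs_of_pos Real.pi_pos] at h3
    have h4 : |σ| * (Real.pi * |(u + k).im|) ≤ 1 * (Real.pi * |(u + k).im|) :=
      mul_le_mul_of_nonneg_right h (by positivity)
    linarith only [h3, h4]
  unfold V1s V1
  linarith only [h1, h2]

theorem V1s_eq {σ : ℝ} {u k : ℂ} (h : (u + k).im = 0) : V1s σ u k = V1 u k := by
  have h1 := UU_add_one (u + k - 1)
  rw [sub_add_cancel] at h1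
  have e : (u + k - 1).im = (u + k).im := by simp
  rw [e, h, abs_zero, mul_zero, add_zero] at h1
  unfold V1s V1
  rw [h, h1]
  ring

theorem hasDerivAt_V1s {g : ℝ → ℂ} {m t : ℝ} (σ : ℝ) (hg : HasDerivAt g (1 + m * Complex.I) t)
    (k : ℂ) (h1 : DOk (g t)) (h2 : g t + k - 1 ∈ strip) :
    HasDerivAt (fun t => V1s σ (g t) k) (Real.pi * (k.im + m * (k.re - 1)) +
      dU (g t + k - 1) m - dU (g t) m + σ * (Real.pi * m)) t := by
  have a1 := hasDerivAt_dU hg h1
  have a2 := hasDerivAt_dU ((hg.add_const k).sub_const 1) (Or.inr h2)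
  have a3 := (hasDerivAt_im' (((hg.mul_const k).sub hg).sub_const k)).const_mul Real.pi
  have a5 := ((hasDerivAt_im' (hg.add_const k)).const_mul Real.pi).const_mul σ
  refine ((((a3.add a2).sub a1).sub_const (UU k)).add a5).congr_deriv ?_
  simp
  ring

/-! ### first order conditions -/

variable {x T Tl pl : ℝ} {k l w : ℂ}

theorem τ_pos (x0 : 0 < x) (x1 : x < 65 / 100) : 0 < τ x := by
  unfold τ tr
  refine lt_max_of_lt_right (lt_min one_pos (lt_min ?_ ?_))
  · exact div_pos (by linarith only [x0]) (by norm_num)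
  · exact div_pos (by linarith only [x1]) (by norm_num)

theorem H.ok_um (h : H x T Tl pl k l w) : DOk (um x) := by
  refine Or.inl (ne_of_lt ?_)
  have := τ_pos h.x0 h.x1
  show -(1 / 2 * τ x) < 0
  linarith only [this]

theorem H.ok_up (h : H x T Tl pl k l w) : DOk (up x) := by
  refine Or.inl (ne_of_gt ?_)
  have := τ_pos h.x0 h.x1
  show 0 < 1 / 2 * τ x
  linarith only [this]

theorem hasDerivAt_line (a μ : ℝ) (x : ℝ) : HasDerivAt (fun y : ℝ => (⟨y, a + μ * (y - x)⟩ : ℂ))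
    (1 + (μ : ℝ) * Complex.I) x := by
  have e : (fun y : ℝ => (⟨y, a + μ * (y - x)⟩ : ℂ)) =
      fun y : ℝ => (y : ℂ) + ((a + μ * (y - x) : ℝ) : ℂ) * Complex.I := by
    funext y
    apply Complex.ext <;> simp
  rw [e]
  have h1 : HasDerivAt (fun y : ℝ => a + μ * (y - x)) μ x := by
    have := (((hasDerivAt_id x).sub_const x).const_mul μ).const_add a
    simpa using this
  exact ((hasDerivAt_id x).ofReal_comp).add ((h1.ofReal_comp).mul_const Complex.I)

/-- right slopes, with minorants of the values -/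
theorem H.der_right (h : H x T Tl pl k l w) {μ d1 d3 : ℝ} {f1 f3 : ℝ → ℝ}
    (hμ : ∀ᶠ y in 𝓝[≥] x, 1 / 2 * τ y = 1 / 2 * τ x + μ * (y - x))
    (k1 : HasDerivAt f1 d1 x) (k3 : HasDerivAt f3 d3 x)
    (e1 : f1 x = V1 (um x) k) (e3 : f3 x = V3 (up x) l w)
    (m1 : ∀ y, 1 / 2 * τ y = 1 / 2 * τ x + μ * (y - x) → f1 y ≤ V1 (um y) k)
    (m3 : ∀ y, 1 / 2 * τ y = 1 / 2 * τ x + μ * (y - x) → f3 y ≤ V3 (up y) l w) :
    d1 + d3 - 2 * Real.pi * μ ≤ 0 := by
  have kt : HasDerivAt (fun y : ℝ => 1 / 2 * τ x + μ * (y - x)) μ x := by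
    have := (((hasDerivAt_id x).sub_const x).const_mul μ).const_add (1 / 2 * τ x)
    simpa using this
  refine SR.der_nonpos_of ((k1.add k3).sub (kt.const_mul (2 * Real.pi))) ?_
  have h1 : ∀ᶠ y in 𝓝[≥] x, y ∈ Set.Ioo 0 (65 / 100 : ℝ) :=
    (Ioo_mem_nhds h.x0 h.x1 : _ ∈ 𝓝 x) |> mem_nhdsWithin_of_mem_nhds
  filter_upwards [h1, hμ] with y hy hy2
  have a1 := h.mir y hy.1.le hy.2.le
  have a2 := m1 y hy2
  have a3 := m3 y hy2
  simp only [Pi.add_apply, Pi.sub_apply]
  rw [e1, e3, ← hy2]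
  simp only [sub_self, mul_zero, add_zero]
  linarith only [a1, a2, a3]

/-- left slopes, with minorants of the values -/
theorem H.der_left (h : H x T Tl pl k l w) {μ d1 d3 : ℝ} {f1 f3 : ℝ → ℝ}
    (hμ : ∀ᶠ y in 𝓝[≤] x, 1 / 2 * τ y = 1 / 2 * τ x + μ * (y - x))
    (k1 : HasDerivAt f1 d1 x) (k3 : HasDerivAt f3 d3 x)
    (e1 : f1 x = V1 (um x) k) (e3 : f3 x = V3 (up x) l w)
    (m1 : ∀ y, 1 / 2 * τ y = 1 / 2 * τ x + μ * (y - x) → f1 y ≤ V1 (um y) k)
    (m3 : ∀ y, 1 / 2 * τ y = 1 / 2 * τ x + μ * (y - x) → f3 y ≤ V3 (up y) l w) :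
    0 ≤ d1 + d3 - 2 * Real.pi * μ := by
  have kt : HasDerivAt (fun y : ℝ => 1 / 2 * τ x + μ * (y - x)) μ x := by
    have := (((hasDerivAt_id x).sub_const x).const_mul μ).const_add (1 / 2 * τ x)
    simpa using this
  refine SR.der_nonneg_of ((k1.add k3).sub (kt.const_mul (2 * Real.pi))) ?_
  have h1 : ∀ᶠ y in 𝓝[≤] x, y ∈ Set.Ioo 0 (65 / 100 : ℝ) :=
    (Ioo_mem_nhds h.x0 h.x1 : _ ∈ 𝓝 x) |> mem_nhdsWithin_of_mem_nhds
  filter_upwards [h1, hμ] with y hy hy2
  have a1 := h.mir y hy.1.le hy.2.le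
  have a2 := m1 y hy2
  have a3 := m3 y hy2
  simp only [Pi.add_apply, Pi.sub_apply]
  rw [e1, e3, ← hy2]
  simp only [sub_self, mul_zero, add_zero]
  linarith only [a1, a2, a3]

theorem um_of {μ y : ℝ} (hy : 1 / 2 * τ y = 1 / 2 * τ x + μ * (y - x)) :
    (⟨y, -(1 / 2 * τ x) + -μ * (y - x)⟩ : ℂ) = um y := by
  unfold um
  rw [hy]
  congr 1
  ring

theorem up_of {μ y : ℝ} (hy : 1 / 2 * τ y = 1 / 2 * τ x + μ * (y - x)) :
    (⟨y, 1 / 2 * τ x + μ * (y - x)⟩ : ℂ) = up y := by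
  unfold up
  rw [hy]

theorem self_um (μ : ℝ) : (⟨x, -(1 / 2 * τ x) + -μ * (x - x)⟩ : ℂ) = um x := by
  unfold um
  simp

theorem self_up (μ : ℝ) : (⟨x, 1 / 2 * τ x + μ * (x - x)⟩ : ℂ) = up x := by
  unfold up
  simp

/-- **First order condition, right slopes** -/
theorem H.foc_right (h : H x T Tl pl k l w) {μ : ℝ}
    (hμ : ∀ᶠ y in 𝓝[≥] x, 1 / 2 * τ y = 1 / 2 * τ x + μ * (y - x))
    (o1 : DOk (um x + k)) (o3 : DOk (l - up x)) :
    dh1 (um x) k (-μ) + dh3a (up x) l μ - 2 * Real.pi * μ ≤ 0 := by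
  have g1 := hasDerivAt_V1 (hasDerivAt_line (-(1 / 2 * τ x)) (-μ) x) k
    (by rw [self_um]; exact h.ok_um) (by rw [self_um]; exact o1)
  have g3 := hasDerivAt_V3a (hasDerivAt_line (1 / 2 * τ x) μ x) l w
    (by rw [self_up]; exact h.ok_up) (by rw [self_up]; exact o3)
  rw [self_um] at g1
  rw [self_up] at g3
  refine h.der_right hμ g1 g3 ?_ ?_ ?_ ?_
  · simp only [self_um]
  · simp only [self_up]
  · intro y hy
    simp only [um_of hy, le_refl]
  · intro y hy
    simp only [up_of hy, le_refl]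

/-- **First order condition, left slopes** -/
theorem H.foc_left (h : H x T Tl pl k l w) {μ : ℝ}
    (hμ : ∀ᶠ y in 𝓝[≤] x, 1 / 2 * τ y = 1 / 2 * τ x + μ * (y - x))
    (o1 : DOk (um x + k)) (o3 : DOk (l - up x)) :
    0 ≤ dh1 (um x) k (-μ) + dh3a (up x) l μ - 2 * Real.pi * μ := by
  have g1 := hasDerivAt_V1 (hasDerivAt_line (-(1 / 2 * τ x)) (-μ) x) k
    (by rw [self_um]; exact h.ok_um) (by rw [self_um]; exact o1)
  have g3 := hasDerivAt_V3a (hasDerivAt_line (1 / 2 * τ x) μ x) l w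
    (by rw [self_up]; exact h.ok_up) (by rw [self_up]; exact o3)
  rw [self_um] at g1
  rw [self_up] at g3
  refine h.der_left hμ g1 g3 ?_ ?_ ?_ ?_
  · simp only [self_um]
  · simp only [self_up]
  · intro y hy
    simp only [um_of hy, le_refl]
  · intro y hy
    simp only [up_of hy, le_refl]

/-! ### the ramp -/

theorem tau_flat (h0 : 13 / 100 ≤ x) (h1 : x ≤ 50 / 100) : τ x = 1 := by
  unfold τ tr
  rw [sub_zero, min_eq_left (le_min ((one_le_div (by norm_num)).2 h0)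
    ((one_le_div (by norm_num)).2 (by linarith only [h1])))]
  norm_num

theorem tau_right (h0 : 50 / 100 ≤ x) (h1 : x ≤ 65 / 100) : τ x = (65 / 100 - x) / (15 / 100) := by
  unfold τ tr
  have a1 : (65 / 100 - x) / (15 / 100) ≤ 1 := by rw [div_le_one (by norm_num)]; linarith only [h0]
  have a2 : 1 ≤ (x - 0) / (13 / 100) := by rw [le_div_iff₀ (by norm_num)]; linarith only [h0]
  have a3 : 0 ≤ (65 / 100 - x) / (15 / 100) := div_nonneg (by linarith only [h1]) (by norm_num)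
  rw [min_eq_right (a1.trans a2), min_eq_right a1, max_eq_right a3]

theorem tau_left (h0 : 0 ≤ x) (h1 : x ≤ 13 / 100) : τ x = x / (13 / 100) := by
  unfold τ tr
  rw [sub_zero]
  have a1 : x / (13 / 100) ≤ 1 := by rw [div_le_one (by norm_num)]; linarith only [h1]
  have a2 : 1 ≤ (65 / 100 - x) / (15 / 100) := by rw [le_div_iff₀ (by norm_num)]; linarith only [h1]
  have a3 : 0 ≤ x / (13 / 100) := div_nonneg h0 (by norm_num)
  rw [min_eq_left (a1.trans a2), min_eq_right a1, max_eq_right a3]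

theorem mu_flat (h0 : 13 / 100 ≤ x) (h1 : x < 50 / 100) :
    ∀ᶠ y in 𝓝[≥] x, 1 / 2 * τ y = 1 / 2 * τ x + 0 * (y - x) := by
  have e : ∀ᶠ y in 𝓝[≥] x, y < 50 / 100 := mem_nhdsWithin_of_mem_nhds (Iio_mem_nhds h1)
  filter_upwards [e, self_mem_nhdsWithin] with y hy hy2
  rw [tau_flat (h0.trans hy2) hy.le, tau_flat h0 h1.le]
  ring

theorem mu_right (h0 : 50 / 100 ≤ x) (h1 : x < 65 / 100) :
    ∀ᶠ y in 𝓝[≥] x, 1 / 2 * τ y = 1 / 2 * τ x + -(10 / 3) * (y - x) := by
  have e : ∀ᶠ y in 𝓝[≥] x, y < 65 / 100 := mem_nhdsWithin_of_mem_nhds (Iio_mem_nhds h1)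
  filter_upwards [e, self_mem_nhdsWithin] with y hy hy2
  rw [tau_right (h0.trans hy2) hy.le, tau_right h0 h1.le]
  ring

theorem mu_right' (h0 : 50 / 100 < x) (h1 : x < 65 / 100) :
    ∀ᶠ y in 𝓝 x, 1 / 2 * τ y = 1 / 2 * τ x + -(10 / 3) * (y - x) := by
  filter_upwards [Ioo_mem_nhds h0 h1] with y hy
  rw [tau_right hy.1.le hy.2.le, tau_right h0.le h1.le]
  ring

theorem mu_left (h0 : 0 < x) (h1 : x < 13 / 100) :
    ∀ᶠ y in 𝓝 x, 1 / 2 * τ y = 1 / 2 * τ x + 50 / 13 * (y - x) := by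
  filter_upwards [Ioo_mem_nhds h0 h1] with y hy
  rw [tau_left hy.1.le hy.2.le, tau_left h0.le h1.le]
  ring

/-! ### kinks -/

theorem H.k_re (h : H x T Tl pl k l w) : 0 ≤ k.re ∧ k.re ≤ 86 / 100 := by
  cases h.kp with
  | one _ _ a b _ => exact ⟨a, b⟩
  | two _ _ a b _ => exact ⟨a, by linarith only [b]⟩
  | em _ _ a b _ => exact ⟨a, by linarith only [b]⟩
  | eu _ _ a b _ => exact ⟨a, by linarith only [b]⟩

/-- minorant of the value of the `1` at a point where `u + k ≠ 1`: it has the derivatives `d1 + σ e1`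
for all `|σ| ≤ 1`, and `e1 = 0` only if the value is differentiable -/
theorem H.min1 (h : H x T Tl pl k l w) (h1 : um x + k ≠ 1) :
    (DOk (um x + k) ∨ ((um x + k).im = 0 ∧ um x + k - 1 ∈ strip)) := by
  have hk := h.k_re
  have h0 := h.x0
  have h2 := h.x1
  by_cases hi : (um x + k).im = 0
  · by_cases hr : (um x + k).re < 1
    · left; right
      refine ⟨?_, hr⟩
      show 0 < x + k.re
      linarith only [hk, h0]
    · right
      refine ⟨hi, ?_, ?_⟩
      · rcases (not_lt.1 hr).lt_or_eq with h3 | h3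
        · rw [Complex.sub_re, Complex.one_re]; linarith only [h3]
        · exact absurd (Complex.ext h3.symm (by rw [hi]; rfl)) h1
      · rw [Complex.sub_re, Complex.one_re]
        show x + k.re - 1 < 1
        linarith only [hk, h0, h2]
  · exact Or.inl (Or.inl hi)

theorem H.min3 (h : H x T Tl pl k l w) (h1 : l ≠ up x) :
    (DOk (l - up x) ∨ ((l - up x).im = 0 ∧ l - up x + 1 ∈ strip)) := by
  have h0 := h.x0
  have h2 := h.x1
  have l0 := h.l0
  have l1 := h.l1
  have er : (l - up x).re = l.re - x := rfl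
  by_cases hi : (l - up x).im = 0
  · by_cases hr : 0 < (l - up x).re
    · left; right
      refine ⟨hr, ?_⟩
      rw [er]
      linarith only [h0, l1]
    · right
      refine ⟨hi, ?_, ?_⟩
      · rw [Complex.add_re, Complex.one_re, er]; linarith only [h0, h2, l0]
      · rcases (not_lt.1 hr).lt_or_eq with h3 | h3
        · rw [Complex.add_re, Complex.one_re]; linarith only [h3]
        · exact absurd (sub_eq_zero.1 (Complex.ext h3 hi)) h1
  · exact Or.inl (Or.inl hi)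

/-- **The first order condition inside a ramp**: the value is differentiable off the two singular
points. -/
theorem H.foc (h : H x T Tl pl k l w) {μ : ℝ} (h0 : μ ≠ 0)
    (hμ : ∀ᶠ y in 𝓝 x, 1 / 2 * τ y = 1 / 2 * τ x + μ * (y - x))
    (h1 : um x + k ≠ 1) (h3 : l ≠ up x) : DOk (um x + k) ∧ DOk (l - up x) ∧
      dh1 (um x) k (-μ) + dh3a (up x) l μ - 2 * Real.pi * μ = 0 := by
  have hr := hμ.filter_mono (nhdsWithin_le_nhds (s := Set.Ici x))
  have hl := hμ.filter_mono (nhdsWithin_le_nhds (s := Set.Iic x))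
  have E : ∀ {d1 d3 : ℝ} {f1 f3 : ℝ → ℝ}, HasDerivAt f1 d1 x → HasDerivAt f3 d3 x →
      f1 x = V1 (um x) k → f3 x = V3 (up x) l w →
      (∀ y, 1 / 2 * τ y = 1 / 2 * τ x + μ * (y - x) → f1 y ≤ V1 (um y) k) →
      (∀ y, 1 / 2 * τ y = 1 / 2 * τ x + μ * (y - x) → f3 y ≤ V3 (up y) l w) →
      d1 + d3 - 2 * Real.pi * μ = 0 := fun k1 k3 e1 e3 m1 m3 =>
    le_antisymm (h.der_right hr k1 k3 e1 e3 m1 m3) (h.der_left hl k1 k3 e1 e3 m1 m3)
  have L1 := hasDerivAt_line (-(1 / 2 * τ x)) (-μ) x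
  have L3 := hasDerivAt_line (1 / 2 * τ x) μ x
  -- the value of the `3`: a minorant
  obtain ⟨d3, f3, k3, e3, m3⟩ : ∃ (d3 : ℝ) (f3 : ℝ → ℝ), HasDerivAt f3 d3 x ∧
      f3 x = V3 (up x) l w ∧
      (∀ y, 1 / 2 * τ y = 1 / 2 * τ x + μ * (y - x) → f3 y ≤ V3 (up y) l w) := by
    rcases h.min3 h3 with o3 | ⟨i3, r3⟩
    · refine ⟨_, _, hasDerivAt_V3a L3 l w (by rw [self_up]; exact h.ok_up)
        (by rw [self_up]; exact o3), ?_, ?_⟩
      · simp only [self_up]
      · intro y hy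
        simp only [up_of hy, le_refl]
    · refine ⟨_, _, hasDerivAt_V3s 0 L3 l w (by rw [self_up]; exact h.ok_up)
        (by rw [self_up]; exact r3), ?_, ?_⟩
      · simp only [self_up]
        exact V3s_eq w i3
      · intro y hy
        simp only [up_of hy]
        exact V3s_le (by norm_num) _ _ _
  have o1 : DOk (um x + k) := by
    rcases h.min1 h1 with o1 | ⟨i1, r1⟩
    · exact o1
    · exfalso
      have key : ∀ σ : ℝ, |σ| ≤ 1 → Real.pi * (k.im + -μ * (k.re - 1)) +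
          dU (um x + k - 1) (-μ) - dU (um x) (-μ) + σ * (Real.pi * -μ) + d3 -
            2 * Real.pi * μ = 0 := by
        intro σ hσ
        have g1 := hasDerivAt_V1s σ L1 k (by rw [self_um]; exact h.ok_um)
          (by rw [self_um]; exact r1)
        rw [self_um] at g1
        refine E g1 k3 ?_ e3 ?_ m3
        · simp only [self_um]
          exact V1s_eq i1
        · intro y hy
          simp only [um_of hy]
          exact V1s_le hσ _ _
      have a1 := key 1 (by norm_num)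
      have a2 := key (-1) (by norm_num)
      have a3 : Real.pi * μ = 0 := by linarith only [a1, a2]
      rcases mul_eq_zero.1 a3 with h4 | h4
      · exact Real.pi_ne_zero h4
      · exact h0 h4
  have g1 := hasDerivAt_V1 L1 k (by rw [self_um]; exact h.ok_um) (by rw [self_um]; exact o1)
  rw [self_um] at g1
  have e1 : (fun t => V1 (⟨t, -(1 / 2 * τ x) + -μ * (t - x)⟩ : ℂ) k) x = V1 (um x) k := by
    simp only [self_um]
  have m1 : ∀ y, 1 / 2 * τ y = 1 / 2 * τ x + μ * (y - x) →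
      (fun t => V1 (⟨t, -(1 / 2 * τ x) + -μ * (t - x)⟩ : ℂ) k) y ≤ V1 (um y) k := by
    intro y hy
    simp only [um_of hy, le_refl]
  have o3 : DOk (l - up x) := by
    rcases h.min3 h3 with o3 | ⟨i3, r3⟩
    · exact o3
    · exfalso
      have key : ∀ σ : ℝ, |σ| ≤ 1 → dh1 (um x) k (-μ) + (-(Real.pi * (l.im + μ * l.re)) -
          dU (up x) μ + dU (l - up x + 1) μ - σ * (Real.pi * μ)) - 2 * Real.pi * μ = 0 := by
        intro σ hσ
        have g3 := hasDerivAt_V3s σ L3 l w (by rw [self_up]; exact h.ok_up)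
          (by rw [self_up]; exact r3)
        rw [self_up] at g3
        refine E g1 g3 e1 ?_ m1 ?_
        · simp only [self_up]
          exact V3s_eq w i3
        · intro y hy
          simp only [up_of hy]
          exact V3s_le hσ _ _ _
      have a1 := key 1 (by norm_num)
      have a2 := key (-1) (by norm_num)
      have a3 : Real.pi * μ = 0 := by linarith only [a1, a2]
      rcases mul_eq_zero.1 a3 with h4 | h4
      · exact Real.pi_ne_zero h4
      · exact h0 h4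
  refine ⟨o1, o3, ?_⟩
  exact le_antisymm (h.foc_right hr o1 o3) (h.foc_left hl o1 o3)

end M13

end Pool.Agent.Work.MP_b30479_gt.G2
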