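import Pool.Agent.Work.MP_b30479_gt.G2.WM13La

/-!
# The kind `1 | 3`, slot `0` of the `3`, left end of the path: rows 1
-/

namespace Pool.Agent.Work.NumG.P13L

open P13

theorem r_gm1_0a : chkF [GE 25 (tM 0) eA 0]
    10000 0 900 0 10000 40 0 100 0 950 0 1300 0 20000 302031175817533379513295566237496546083789062118288401196935500699610594537208635275904096731675222262291943973054745154352749233038934888914587799999760069260517212968627258225580109812386336175863370770243711761981456570579073411506854463091444706295633759596896203833732480493583114487254032257066296529054661313542591161814322189852040231373504427200434881638159747455213895333862435902168425865926545970020383407704174584869371004781850324994192901373564185003813129643527999511347478135524575013148268526475447096470165953089324220657910710530 = true := by decide +kernel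

theorem r_gm1_0b : chkF [GE 25 (tM 0) eA 0]
    10000 0 900 0 10000 40 100 500 0 950 0 100 0 20000 17962092660459392626544842044833278015684873458580357226214544765352968203678906791474688156508049504100227106766807685395764825589527940914634775338449791960093884352321021549760862593482752 = true := by decide +kernel

theorem r_gm1_0c : chkF [GE 25 (tM 0) eA 0]
    10000 0 900 0 10000 40 100 500 0 950 100 1300 0 20000 361234249636408151242912737206110029444277762005501683118106082720098170920759621608442617028964160757906806215261123308702038164027929221315175716624150611187318394471111910452134913413638344680329051779655512924188706655669768092256213212699321480669033577877177892551119616432980200725214014382476735153223522917788724859603776204997585217128448963795318369472099392893424673695622912317775991774428544168295009073307609184650779223209665999180515988088722840379541271728978821882891839961539228903949525246480402351287553981022615395976807930202594343070601895189546468990997435680517494324588543019934094447791697652273393728334539793884441739280743044090442242186202706248913948890793025486700780078181495902208782084415454239418260662550530 = true := by decide +kernel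

theorem r_gm1_1 : chkF [GE 25 (tM 0) eA 1]
    10000 0 900 0 10000 40 0 500 0 950 1300 3600 0 20000 10915526625740624373724065637005642224119933951862377740384614753598126735409556483383015806435095564033634769840796199299318146 = true := by decide +kernel

end Pool.Agent.Work.NumG.P13L
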