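import Pool.Agent.Work.MP_b30479_gt.G2.WM13La

/-!
# The kind `1 | 3`, slot `0` of the `3`, left end of the path: rows 2
-/

namespace Pool.Agent.Work.NumG.P13L

open P13

theorem r_gm1_2 : chkF [GE 25 (tM 0) eA 2]
    10000 0 900 0 10000 40 0 500 0 950 3600 6500 0 20000 78999305557016063015703524512240136347925462088074669143462517462347860655953974707622758874932046647056376804705196197441795338420285014436847253759713372014556796596831811085359918489045748602235797890 = true := by decide +kernel

theorem r_gm2_0 : chkF [GE 25 (tM 1) eA 0]
    10000 0 900 0 10000 40 500 1000 0 950 0 1300 0 20000 252527134849362346324752635318614801948237387510132642572702262461316548780498146603136156001459636776080067772076238977752839270188734105750574741252447202399648638273523280205553628561294417246925852872300218547379054679773218894990200318024053720680993415761729585336998607489638400308456430376081757525165818989292133549556543843121686363133460738 = true := by decide +kernel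

theorem r_gm2_1 : chkF [GE 25 (tM 1) eA 1]
    10000 0 900 0 10000 40 500 1000 0 950 1300 3600 0 20000 108687273341753533409606211315740324652940273979410881422002481054082 = true := by decide +kernel

theorem r_gm2_2 : chkF [GE 25 (tM 1) eA 2]
    10000 0 900 0 10000 40 500 1000 0 950 3600 6500 0 20000 786570401911129953169083130498585188782123611471055051907442947463574569690269825598820164283368862243128768898173489821645184343123117186515330 = true := by decide +kernel

theorem r_gm3_0a : chkF [GE 20 (tM 1) eB 0]
    10000 0 900 0 10000 40 1000 1200 0 950 0 1300 0 20000 13226318116296834380557136736350742050770840608808420888678613103384418527681480614733892585303173036962650243766840508064330536412779550845058044370330810873649610031539887530499885597713525108165785842249196397566166116403993370414775778098568220214032066996189712053636075474582018240993544273392080064939738094108986699742518641606933438366488385483574353274565053260855549324394313857045599067029160088427760537924075025316159946052169658633866108355381596900519358203644005727710179790844889940226 = true := by decide +kernel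

end Pool.Agent.Work.NumG.P13L
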