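import Pool.Agent.Work.MP_b30479_gt.G2.WM13La

/-!
# The kind `1 | 3`, slot `0` of the `3`, left end of the path: rows 3
-/

namespace Pool.Agent.Work.NumG.P13L

open P13

theorem r_gm3_0b : chkF [GE 20 (tM 1) eB 0]
    10000 0 900 0 10000 40 1200 1400 0 950 0 1300 0 20000 68673938544069720798613953316420045686704037401174152398327108648516615437593731771886472148473021516894109215526125747446528863205648322022012547840178159872169321912767087418200289306849910531804234243805478849045625307648346771522457076601391088844768194545369119201321435572420772669803344060882366316721458637439411605758331235755701452344562191742579386326149447974571496767361194969071795821612021335601693795859219657634388087019053326069982789274754962027804435599214545709352010903918104190951481207810666948917581708636733698 = true := by decide +kernel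

theorem r_gm3_0c : chkF [GE 20 (tM 1) eB 0]
    10000 0 900 0 10000 40 1400 1600 0 950 0 1300 0 20000 8142744391857953558225490845851211935592557287305070356375701888007353614067170480959180801654384793325886463778003562287320684044131422056828058387498913703711189336563099833392119077924607541593823723784208707321931238551577591325574799964673542289532293167955068662236671750911575316199841791144846195902055173270947947514483360694088307268775804837740335906814038453675902514300308188688370850810521828471707128782564223505719156962021188539100555616695071448066841017352947480249243934370668660639965806961951490873933046543654523691064567252596149188177708330010469202649733155144684834683846958611856713859330 = true := by decide +kernel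

end Pool.Agent.Work.NumG.P13L
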