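import Pool.Agent.Work.MP_b30479_gt.G2.WM13X

/-!
# The kind `1 | 3`, slot `0` of the `3`, left end of the path: expressions

Variables of the far rows: `0` position of the inner variable, `1` height of its saddle point, `2`, `3`
position and height (multiple of the ramp) of the far hinge; of the other rows as in `WM13X`.
-/

namespace Pool.Agent.Work.NumG.P13L

open P13

/-- difference of the far values, inner variable to `L / 100` -/
def gG (L : ℤ) (t k : E) : E :=
  .add (.add (.sub (.ux (.add (.q L 100) (.var 2)) (.add (.var 1) k)) (.ux (.q L 100) (.var 1)))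
    (.sub (.ux (.var 0) t) (.ux (.add (.var 0) (.var 2)) (.add t k))))
    (.mul .pi (.add (.mul (.sub (.q L 100) (.var 0)) k) (.mul (.sub (.var 1) t) (.var 2))))
/-- height of the ramp of the inner variable: left ramp, flat -/
def ty : ℕ → E
  | 0 => .mul (.q 20 1) (.var 0)
  | _ => .q 1 1
/-- bound of the far hinge, in three parts -/
def wE : ℕ → E
  | 0 => .mul (.q 16 13) (.var 2)
  | 1 => .q 16 100
  | _ => .sub (.q 104 290) (.mul (.q 16 29) (.var 2))
def wk (j : ℕ) : E := .mul (.var 3) (wE j)
/-- positions of the inner variable in the far rows -/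
def tM (i : ℕ) : E := .mul (.var 1) (ty i)
def tU (i : ℕ) : E := .mul (.q 16 100) (ty i)
def tD (i : ℕ) : E := .neg (.mul (.q 16 100) (ty i))
/-- the far losses -/
def eA : E := .q 20 1000
def eB : E := .q 6 1000
def eC : E := .q 30 1000
def eU : E := .add (.q 30 1000) (.mul (.q 12 1) (.var 0))
def eV : E := .q 630 1000
def eW : E := .q 610 1000
def GE (L : ℤ) (t e : E) (j : ℕ) : E := .add (gG L t (wk j)) e
/-- side of the `3`, inner variable to `L / 100`, penalty `pn`, far loss `e` -/
def g3v (L : ℤ) (h c tc l pn e A : E) : E :=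
  .sub (.sub (.add (.sub (.ux (.sub (.var 2) (.var 0)) (.sub l h))
      (.add (.ux (.sub (.q L 100) c) (.add (.var 3) tc)) (.ux c tc)))
    (.mul .pi (.add (.add (.add (.mul (.sub (.q (50 - L) 100) c) (.var 3)) (.mul tc (.q L 100)))
      (.add (.mul l (.sub (.add (.var 0) (.var 2)) (.q 1 2))) (.mul h (.add (.var 2) (.q 2 1)))))
      (.mul (.q 2 1) pn)))) e) A
/-- outside the windows -/
def xU : E := .sub (.add (.var 1) (.var 3)) (.q 84 1000)
def xD : E := .sub (.neg (.add (.var 1) (.var 3))) (.q 45 1000)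
/-- lower bound of `UU u + π h / 2` near `0` -/
def bx : E := E.mx (.neg (.add (.mul (.q 4 1) (.var 0)) (.q 28 100000)))
  (.neg (.add (.mul (.q 2 1) (.var 0)) (.q 207 100000)))
/-- side of the `1` near `0` -/
def f1y (h c tc k A : E) : E :=
  .add (.add (.sub (.sub (.ux (.add c (.var 2)) (.add tc k)) (.ux (.add (.var 0) (.var 2)) (.sub k h)))
    (.sub (.ux c tc) (.mul (.q 2 1) bx)))
    (.mul .pi (.sub (.add (.mul (.sub c (.var 0)) k) (.mul (.add tc h) (.sub (.var 2) (.q 1 1)))) h))) A
/-- the comparisons: target, price -/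
def it (c a0 a1 a2 : ℤ) : It := ⟨c, 0, false, a0, a1, a2⟩
def iA : It := it 250 192 2253 53
def iB : It := it 300 373 2251 51
def iC : It := it 500 1008 2132 48
def iD : It := it 800 1545 1964 81
def R1 (i : It) : E := f1z (hh 0) i.cE i.tE kW i.A
def R1y (i : It) : E := f1y (hh 0) i.cE i.tE kW i.A
def RV (i : It) (L : ℤ) (l pn e : E) : E := g3v L (hh 0) i.cE i.tE l pn e i.A
def RK (i : It) (l : E) : E := g3k (hh 0) i.cE i.tE l i.A
/-- positions of the inner variable -/
def ly : ℕ → E
  | 0 => .mul (.q 20 1) (.var 2)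
  | _ => .q 1 1
def mM (i : ℕ) : E := .mul (.var 3) (ly i)
def mU (i : ℕ) : E := .mul (.q 16 100) (ly i)
def mD (i : ℕ) : E := .neg (.mul (.q 16 100) (ly i))
def e2U : E := .add (.q 30 1000) (.mul (.q 12 1) (.var 2))

end Pool.Agent.Work.NumG.P13L
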