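import Pool.Agent.Work.MP_b30479_gt.G2.WM13U
import Pool.Agent.Work.MP_b30479_gt.G2.WM13Y14
import Pool.Agent.Work.MP_b30479_gt.G2.WM13Y15
import Pool.Agent.Work.MP_b30479_gt.G2.WM13Y16

/-!
# The kind `1 | 3`, slot `0` of the `3`: the middle of the path, a `2` at an end, mirrored path
-/

namespace Pool.Agent.Work.MP_b30479_gt.G2

open Finset VOL Filter Topology

namespace M13

open NumG NumG.P13

variable {x T Tl pl κ : ℝ} {k l w : ℂ}

theorem e1_U_m (h : H x T Tl pl k l w) (x0 : 56 / 100 ≤ x) (x1 : x ≤ 59 / 100) (K : KU x T k κ)
    (hr : 1 / 2 * τ x = hv 2 x)
    (hD : um x + k ≠ 1 → l ≠ up x → Dv 2 x k l = 0)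
    (hl : LT lM farM x T Tl pl l w) : False := by
  have l0 := h.l0
  have l1 := h.l1
  have t0 := h.t0
  have t1 := h.t1
  have T0 := K.T0
  have T1 := K.T1
  have k0 := K.k0
  have k1 := K.k1
  have q0 := K.q
  have hn : l ≠ up x := by
    intro e
    have e1 : l.im = 1 / 2 * τ x := by rw [e]; rfl
    rw [hr, hl.hl, lM_val] at e1
    have e2 := tl_le h.t1 (y := l.re)
    rw [hv2] at e1
    linarith only [x1, e1, e2]
  have hk : um x + k ≠ 1 := by
    intro e
    have e1 : (um x + k).im = 0 := by rw [e]; rfl
    have e2 : -(1 / 2 * τ x) + k.im = 0 := e1
    rw [hr] at e2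
    have e3 := h.kabs
    rw [hv2] at e2
    linarith only [x1, e2, e3, (abs_le.1 e3).2]
  refine h.grp (its := g_e1) (κ := κ) rfl hr K.hk hl (th_all (hD hk hn)) (chkD4 k_e1_U (by norm_num)
    (by push_cast; linarith only [x0]) (by push_cast; linarith only [x1]) (by push_cast; linarith only [T0]) (by push_cast; linarith only [T1])
    (by push_cast; linarith only [k0]) (by push_cast; linarith only [k1]) (by push_cast; linarith only [q0]) (by push_cast; linarith only [q0])) ?_
  intro i hi
  simp only [g_e1, List.mem_cons, List.not_mem_nil, or_false] at hi
  subst hi
  exact chkD4 l_e1_0m0 (by norm_num)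
      (by push_cast; linarith only [x0]) (by push_cast; linarith only [x1]) (by push_cast; linarith only [T0]) (by push_cast; linarith only [T1])
      (by push_cast; linarith only [l0]) (by push_cast; linarith only [l1]) (by push_cast; linarith only [t0]) (by push_cast; linarith only [t1])

theorem e1_U_u (h : H x T Tl pl k l w) (x0 : 56 / 100 ≤ x) (x1 : x ≤ 59 / 100) (K : KU x T k κ)
    (hr : 1 / 2 * τ x = hv 2 x)
    (hD : um x + k ≠ 1 → l ≠ up x → Dv 2 x k l = 0) (hT : Tl ≤ 0)
    (hl : LT P13.lU farU x T Tl pl l w) : False := by
  have l0 := h.l0
  have l1 := h.l1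
  have t0 := h.t0
  have t1 := h.t1
  have T0 := K.T0
  have T1 := K.T1
  have k0 := K.k0
  have k1 := K.k1
  have q0 := K.q
  rcases le_total l.re (55 / 100) with hy | hy
  · have hn : l ≠ up x := by
      intro e
      have e1 : l.im = 1 / 2 * τ x := by rw [e]; rfl
      rw [hr, hl.hl, lU_val] at e1
      have e2 := tl_one l.re
      rw [hv2] at e1
      linarith only [x1, e1, e2]
    have hk : um x + k ≠ 1 := by
      intro e
      have e1 : (um x + k).im = 0 := by rw [e]; rfl
      have e2 : -(1 / 2 * τ x) + k.im = 0 := e1
      rw [hr] at e2
      have e3 := h.kabs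
      rw [hv2] at e2
      linarith only [x1, e2, e3, (abs_le.1 e3).2]
    refine h.grp (its := g_e1) (κ := κ) rfl hr K.hk hl (th_all (hD hk hn)) (chkD4 k_e1_U (by norm_num)
      (by push_cast; linarith only [x0]) (by push_cast; linarith only [x1]) (by push_cast; linarith only [T0]) (by push_cast; linarith only [T1])
      (by push_cast; linarith only [k0]) (by push_cast; linarith only [k1]) (by push_cast; linarith only [q0]) (by push_cast; linarith only [q0])) ?_
    intro i hi
    simp only [g_e1, List.mem_cons, List.not_mem_nil, or_false] at hi
    subst hi
    exact chkD4 l_e1_0u1 (by norm_num)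
        (by push_cast; linarith only [x0]) (by push_cast; linarith only [x1]) (by push_cast; linarith only [T0]) (by push_cast; linarith only [T1])
        (by push_cast; linarith only [l0]) (by push_cast; linarith only [hy]) (by push_cast; linarith only [t0]) (by push_cast; linarith only [hT])
  rcases le_total l.re (66 / 100) with hy | hy
  · refine h.grp (its := g_e1u) (κ := κ) rfl hr K.hk hl (th_zero rfl) (chkD4 k_e1u_U (by norm_num)
      (by push_cast; linarith only [x0]) (by push_cast; linarith only [x1]) (by push_cast; linarith only [T0]) (by push_cast; linarith only [T1])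
      (by push_cast; linarith only [k0]) (by push_cast; linarith only [k1]) (by push_cast; linarith only [q0]) (by push_cast; linarith only [q0])) ?_
    intro i hi
    simp only [g_e1u, List.mem_cons, List.not_mem_nil, or_false] at hi
    subst hi
    exact chkD4 l_e1u_0u0 (by norm_num)
        (by push_cast; linarith only [x0]) (by push_cast; linarith only [x1]) (by push_cast; linarith only [T0]) (by push_cast; linarith only [T1])
        (by push_cast; linarith) (by push_cast; linarith only [hy]) (by push_cast; linarith only [t0]) (by push_cast; linarith only [hT])
  have hn : l ≠ up x := by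
    intro e
    have e1 : l.im = 1 / 2 * τ x := by rw [e]; rfl
    rw [hr, hl.hl, lU_val] at e1
    have e2 := tl_one l.re
    rw [hv2] at e1
    linarith only [x1, e1, e2]
  have hk : um x + k ≠ 1 := by
    intro e
    have e1 : (um x + k).im = 0 := by rw [e]; rfl
    have e2 : -(1 / 2 * τ x) + k.im = 0 := e1
    rw [hr] at e2
    have e3 := h.kabs
    rw [hv2] at e2
    linarith only [x1, e2, e3, (abs_le.1 e3).2]
  refine h.grp (its := g_e1) (κ := κ) rfl hr K.hk hl (th_all (hD hk hn)) (chkD4 k_e1_U (by norm_num)
    (by push_cast; linarith only [x0]) (by push_cast; linarith only [x1]) (by push_cast; linarith only [T0]) (by push_cast; linarith only [T1])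
    (by push_cast; linarith only [k0]) (by push_cast; linarith only [k1]) (by push_cast; linarith only [q0]) (by push_cast; linarith only [q0])) ?_
  intro i hi
  simp only [g_e1, List.mem_cons, List.not_mem_nil, or_false] at hi
  subst hi
  exact chkD4 l_e1_0u2 (by norm_num)
      (by push_cast; linarith only [x0]) (by push_cast; linarith only [x1]) (by push_cast; linarith only [T0]) (by push_cast; linarith only [T1])
      (by push_cast; linarith only [hy]) (by push_cast; linarith only [l1]) (by push_cast; linarith only [t0]) (by push_cast; linarith only [hT])

theorem e1_U_d (h : H x T Tl pl k l w) (x0 : 56 / 100 ≤ x) (x1 : x ≤ 59 / 100) (K : KU x T k κ)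
    (hr : 1 / 2 * τ x = hv 2 x)
    (hD : um x + k ≠ 1 → l ≠ up x → Dv 2 x k l = 0) (hT : 0 ≤ Tl)
    (hl : LT lD farD x T Tl pl l w) : False := by
  have l0 := h.l0
  have l1 := h.l1
  have t0 := h.t0
  have t1 := h.t1
  have T0 := K.T0
  have T1 := K.T1
  have k0 := K.k0
  have k1 := K.k1
  have q0 := K.q
  have hn : l ≠ up x := by
    intro e
    have e1 : l.im = 1 / 2 * τ x := by rw [e]; rfl
    rw [hr, hl.hl, lD_val] at e1
    have e2 := tl_nonneg l.re
    rw [hv2] at e1
    linarith only [x1, e1, e2]
  have hk : um x + k ≠ 1 := by
    intro e
    have e1 : (um x + k).im = 0 := by rw [e]; rfl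
    have e2 : -(1 / 2 * τ x) + k.im = 0 := e1
    rw [hr] at e2
    have e3 := h.kabs
    rw [hv2] at e2
    linarith only [x1, e2, e3, (abs_le.1 e3).2]
  refine h.grp (its := g_e1) (κ := κ) rfl hr K.hk hl (th_all (hD hk hn)) (chkD4 k_e1_U (by norm_num)
    (by push_cast; linarith only [x0]) (by push_cast; linarith only [x1]) (by push_cast; linarith only [T0]) (by push_cast; linarith only [T1])
    (by push_cast; linarith only [k0]) (by push_cast; linarith only [k1]) (by push_cast; linarith only [q0]) (by push_cast; linarith only [q0])) ?_
  intro i hi
  simp only [g_e1, List.mem_cons, List.not_mem_nil, or_false] at hi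
  subst hi
  exact chkD4 l_e1_0d3 (by norm_num)
      (by push_cast; linarith only [x0]) (by push_cast; linarith only [x1]) (by push_cast; linarith only [T0]) (by push_cast; linarith only [T1])
      (by push_cast; linarith only [l0]) (by push_cast; linarith only [l1]) (by push_cast; linarith only [hT]) (by push_cast; linarith only [t1])

theorem e2_U_m (h : H x T Tl pl k l w) (x0 : 59 / 100 ≤ x) (x1 : x ≤ 61 / 100) (K : KU x T k κ)
    (hr : 1 / 2 * τ x = hv 2 x)
    (hD : um x + k ≠ 1 → l ≠ up x → Dv 2 x k l = 0)
    (hl : LT lM farM x T Tl pl l w) : False := by
  have l0 := h.l0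
  have l1 := h.l1
  have t0 := h.t0
  have t1 := h.t1
  have T0 := K.T0
  have T1 := K.T1
  have k0 := K.k0
  have k1 := K.k1
  have q0 := K.q
  have hn : l ≠ up x := by
    intro e
    have e1 : l.im = 1 / 2 * τ x := by rw [e]; rfl
    rw [hr, hl.hl, lM_val] at e1
    have e2 := tl_le h.t1 (y := l.re)
    rw [hv2] at e1
    linarith only [x1, e1, e2]
  by_cases hk : um x + k = 1
  · exact h.grpo (i := i_e2_0) rfl rfl hr hk hl (chkD4 o_e2 (by norm_num)
      (by push_cast; linarith only [x0]) (by push_cast; linarith only [x1]) (by push_cast; linarith only [T0]) (by push_cast; linarith only [T1])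
      (by push_cast; linarith only []) (by push_cast; linarith only []) (by push_cast; linarith only []) (by push_cast; linarith only [])) (chkD4 l_e2_0m0 (by norm_num)
      (by push_cast; linarith only [x0]) (by push_cast; linarith only [x1]) (by push_cast; linarith only [T0]) (by push_cast; linarith only [T1])
      (by push_cast; linarith only [l0]) (by push_cast; linarith only [l1]) (by push_cast; linarith only [t0]) (by push_cast; linarith only [t1]))
  refine h.grp (its := g_e2) (κ := κ) rfl hr K.hk hl (th_all (hD hk hn)) (chkD4 k_e2_U (by norm_num)
    (by push_cast; linarith only [x0]) (by push_cast; linarith only [x1]) (by push_cast; linarith only [T0]) (by push_cast; linarith only [T1])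
    (by push_cast; linarith only [k0]) (by push_cast; linarith only [k1]) (by push_cast; linarith only [q0]) (by push_cast; linarith only [q0])) ?_
  intro i hi
  simp only [g_e2, List.mem_cons, List.not_mem_nil, or_false] at hi
  rcases hi with rfl | rfl
  · exact chkD4 l_e2_0m0 (by norm_num)
      (by push_cast; linarith only [x0]) (by push_cast; linarith only [x1]) (by push_cast; linarith only [T0]) (by push_cast; linarith only [T1])
      (by push_cast; linarith only [l0]) (by push_cast; linarith only [l1]) (by push_cast; linarith only [t0]) (by push_cast; linarith only [t1])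
  · exact chkD4 l_e2_1m0 (by norm_num)
      (by push_cast; linarith only [x0]) (by push_cast; linarith only [x1]) (by push_cast; linarith only [T0]) (by push_cast; linarith only [T1])
      (by push_cast; linarith only [l0]) (by push_cast; linarith only [l1]) (by push_cast; linarith only [t0]) (by push_cast; linarith only [t1])

theorem e2_U_u (h : H x T Tl pl k l w) (x0 : 59 / 100 ≤ x) (x1 : x ≤ 61 / 100) (K : KU x T k κ)
    (hr : 1 / 2 * τ x = hv 2 x)
    (hD : um x + k ≠ 1 → l ≠ up x → Dv 2 x k l = 0) (hT : Tl ≤ 0)
    (hl : LT P13.lU farU x T Tl pl l w) : False := by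
  have l0 := h.l0
  have l1 := h.l1
  have t0 := h.t0
  have t1 := h.t1
  have T0 := K.T0
  have T1 := K.T1
  have k0 := K.k0
  have k1 := K.k1
  have q0 := K.q
  rcases le_total l.re (2 / 100) with hy | hy
  · have hn : l ≠ up x := by
      intro e
      have e1 : l.re = x := by rw [e]; rfl
      linarith only [x0, hy, e1]
    by_cases hk : um x + k = 1
    · exact h.grpo (i := i_e2_0) rfl rfl hr hk hl (chkD4 o_e2 (by norm_num)
        (by push_cast; linarith only [x0]) (by push_cast; linarith only [x1]) (by push_cast; linarith only [T0]) (by push_cast; linarith only [T1])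
        (by push_cast; linarith only []) (by push_cast; linarith only []) (by push_cast; linarith only []) (by push_cast; linarith only [])) (chkD4 l_e2_0u1 (by norm_num)
        (by push_cast; linarith only [x0]) (by push_cast; linarith only [x1]) (by push_cast; linarith only [T0]) (by push_cast; linarith only [T1])
        (by push_cast; linarith only [l0]) (by push_cast; linarith only [hy]) (by push_cast; linarith only [t0]) (by push_cast; linarith only [hT]))
    refine h.grp (its := g_e2) (κ := κ) rfl hr K.hk hl (th_all (hD hk hn)) (chkD4 k_e2_U (by norm_num)
      (by push_cast; linarith only [x0]) (by push_cast; linarith only [x1]) (by push_cast; linarith only [T0]) (by push_cast; linarith only [T1])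
      (by push_cast; linarith only [k0]) (by push_cast; linarith only [k1]) (by push_cast; linarith only [q0]) (by push_cast; linarith only [q0])) ?_
    intro i hi
    simp only [g_e2, List.mem_cons, List.not_mem_nil, or_false] at hi
    rcases hi with rfl | rfl
    · exact chkD4 l_e2_0u1 (by norm_num)
        (by push_cast; linarith only [x0]) (by push_cast; linarith only [x1]) (by push_cast; linarith only [T0]) (by push_cast; linarith only [T1])
        (by push_cast; linarith only [l0]) (by push_cast; linarith only [hy]) (by push_cast; linarith only [t0]) (by push_cast; linarith only [hT])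
    · exact chkD4 l_e2_1u1 (by norm_num)
        (by push_cast; linarith only [x0]) (by push_cast; linarith only [x1]) (by push_cast; linarith only [T0]) (by push_cast; linarith only [T1])
        (by push_cast; linarith only [l0]) (by push_cast; linarith only [hy]) (by push_cast; linarith only [t0]) (by push_cast; linarith only [hT])
  rcases le_total l.re (5 / 100) with hy | hy
  · refine h.grp (its := g_e2u0) (κ := κ) rfl hr K.hk hl (th_zero rfl) (chkD4 k_e2u0_U (by norm_num)
      (by push_cast; linarith only [x0]) (by push_cast; linarith only [x1]) (by push_cast; linarith only [T0]) (by push_cast; linarith only [T1])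
      (by push_cast; linarith only [k0]) (by push_cast; linarith only [k1]) (by push_cast; linarith only [q0]) (by push_cast; linarith only [q0])) ?_
    intro i hi
    simp only [g_e2u0, List.mem_cons, List.not_mem_nil, or_false] at hi
    subst hi
    exact chkD4 l_e2u0_0u0 (by norm_num)
        (by push_cast; linarith only [x0]) (by push_cast; linarith only [x1]) (by push_cast; linarith only [T0]) (by push_cast; linarith only [T1])
        (by push_cast; linarith) (by push_cast; linarith only [hy]) (by push_cast; linarith only [t0]) (by push_cast; linarith only [hT])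
  rcases le_total l.re (75 / 100) with hy | hy
  · refine h.grp (its := g_e2u1) (κ := κ) rfl hr K.hk hl (th_zero rfl) (chkD4 k_e2u1_U (by norm_num)
      (by push_cast; linarith only [x0]) (by push_cast; linarith only [x1]) (by push_cast; linarith only [T0]) (by push_cast; linarith only [T1])
      (by push_cast; linarith only [k0]) (by push_cast; linarith only [k1]) (by push_cast; linarith only [q0]) (by push_cast; linarith only [q0])) ?_
    intro i hi
    simp only [g_e2u1, List.mem_cons, List.not_mem_nil, or_false] at hi
    subst hi
    exact chkD4 l_e2u1_0u0 (by norm_num)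
        (by push_cast; linarith only [x0]) (by push_cast; linarith only [x1]) (by push_cast; linarith only [T0]) (by push_cast; linarith only [T1])
        (by push_cast; linarith) (by push_cast; linarith only [hy]) (by push_cast; linarith only [t0]) (by push_cast; linarith only [hT])
  refine h.grp (its := g_e2u2) (κ := κ) rfl hr K.hk hl (th_zero rfl) (chkD4 k_e2u2_U (by norm_num)
    (by push_cast; linarith only [x0]) (by push_cast; linarith only [x1]) (by push_cast; linarith only [T0]) (by push_cast; linarith only [T1])
    (by push_cast; linarith only [k0]) (by push_cast; linarith only [k1]) (by push_cast; linarith only [q0]) (by push_cast; linarith only [q0])) ?_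
  intro i hi
  simp only [g_e2u2, List.mem_cons, List.not_mem_nil, or_false] at hi
  subst hi
  exact chkD4 l_e2u2_0u0 (by norm_num)
      (by push_cast; linarith only [x0]) (by push_cast; linarith only [x1]) (by push_cast; linarith only [T0]) (by push_cast; linarith only [T1])
      (by push_cast; linarith only [hy]) (by push_cast; linarith only [l1]) (by push_cast; linarith only [t0]) (by push_cast; linarith only [hT])

theorem e2_U_d (h : H x T Tl pl k l w) (x0 : 59 / 100 ≤ x) (x1 : x ≤ 61 / 100) (K : KU x T k κ)
    (hr : 1 / 2 * τ x = hv 2 x)
    (hD : um x + k ≠ 1 → l ≠ up x → Dv 2 x k l = 0) (hT : 0 ≤ Tl)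
    (hl : LT lD farD x T Tl pl l w) : False := by
  have l0 := h.l0
  have l1 := h.l1
  have t0 := h.t0
  have t1 := h.t1
  have T0 := K.T0
  have T1 := K.T1
  have k0 := K.k0
  have k1 := K.k1
  have q0 := K.q
  have hn : l ≠ up x := by
    intro e
    have e1 : l.im = 1 / 2 * τ x := by rw [e]; rfl
    rw [hr, hl.hl, lD_val] at e1
    have e2 := tl_nonneg l.re
    rw [hv2] at e1
    linarith only [x1, e1, e2]
  by_cases hk : um x + k = 1
  · exact h.grpo (i := i_e2_0) rfl rfl hr hk hl (chkD4 o_e2 (by norm_num)
      (by push_cast; linarith only [x0]) (by push_cast; linarith only [x1]) (by push_cast; linarith only [T0]) (by push_cast; linarith only [T1])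
      (by push_cast; linarith only []) (by push_cast; linarith only []) (by push_cast; linarith only []) (by push_cast; linarith only [])) (chkD4 l_e2_0d2 (by norm_num)
      (by push_cast; linarith only [x0]) (by push_cast; linarith only [x1]) (by push_cast; linarith only [T0]) (by push_cast; linarith only [T1])
      (by push_cast; linarith only [l0]) (by push_cast; linarith only [l1]) (by push_cast; linarith only [hT]) (by push_cast; linarith only [t1]))
  refine h.grp (its := g_e2) (κ := κ) rfl hr K.hk hl (th_all (hD hk hn)) (chkD4 k_e2_U (by norm_num)
    (by push_cast; linarith only [x0]) (by push_cast; linarith only [x1]) (by push_cast; linarith only [T0]) (by push_cast; linarith only [T1])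
    (by push_cast; linarith only [k0]) (by push_cast; linarith only [k1]) (by push_cast; linarith only [q0]) (by push_cast; linarith only [q0])) ?_
  intro i hi
  simp only [g_e2, List.mem_cons, List.not_mem_nil, or_false] at hi
  rcases hi with rfl | rfl
  · exact chkD4 l_e2_0d2 (by norm_num)
      (by push_cast; linarith only [x0]) (by push_cast; linarith only [x1]) (by push_cast; linarith only [T0]) (by push_cast; linarith only [T1])
      (by push_cast; linarith only [l0]) (by push_cast; linarith only [l1]) (by push_cast; linarith only [hT]) (by push_cast; linarith only [t1])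
  · exact chkD4 l_e2_1d2 (by norm_num)
      (by push_cast; linarith only [x0]) (by push_cast; linarith only [x1]) (by push_cast; linarith only [T0]) (by push_cast; linarith only [T1])
      (by push_cast; linarith only [l0]) (by push_cast; linarith only [l1]) (by push_cast; linarith only [hT]) (by push_cast; linarith only [t1])

theorem e3_U_m (h : H x T Tl pl k l w) (x0 : 61 / 100 ≤ x) (x1 : x ≤ 63 / 100) (K : KU x T k κ)
    (hr : 1 / 2 * τ x = hv 2 x)
    (hD : um x + k ≠ 1 → l ≠ up x → Dv 2 x k l = 0)
    (hl : LT lM farM x T Tl pl l w) : False := by
  have l0 := h.l0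
  have l1 := h.l1
  have t0 := h.t0
  have t1 := h.t1
  have T0 := K.T0
  have T1 := K.T1
  have k0 := K.k0
  have k1 := K.k1
  have q0 := K.q
  have hn : l ≠ up x := by
    intro e
    have e1 : l.im = 1 / 2 * τ x := by rw [e]; rfl
    rw [hr, hl.hl, lM_val] at e1
    have e2 := tl_le h.t1 (y := l.re)
    rw [hv2] at e1
    linarith only [x1, e1, e2]
  by_cases hk : um x + k = 1
  · exact h.grpo (i := i_e3_2) rfl rfl hr hk hl (chkD4 o_e3 (by norm_num)
      (by push_cast; linarith only [x0]) (by push_cast; linarith only [x1]) (by push_cast; linarith only [T0]) (by push_cast; linarith only [T1])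
      (by push_cast; linarith only []) (by push_cast; linarith only []) (by push_cast; linarith only []) (by push_cast; linarith only [])) (chkD4 l_e3_2m0 (by norm_num)
      (by push_cast; linarith only [x0]) (by push_cast; linarith only [x1]) (by push_cast; linarith only [T0]) (by push_cast; linarith only [T1])
      (by push_cast; linarith only [l0]) (by push_cast; linarith only [l1]) (by push_cast; linarith only [t0]) (by push_cast; linarith only [t1]))
  refine h.grp (its := g_e3) (κ := κ) rfl hr K.hk hl (th_all (hD hk hn)) (chkD4 k_e3_U (by norm_num)
    (by push_cast; linarith only [x0]) (by push_cast; linarith only [x1]) (by push_cast; linarith only [T0]) (by push_cast; linarith only [T1])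
    (by push_cast; linarith only [k0]) (by push_cast; linarith only [k1]) (by push_cast; linarith only [q0]) (by push_cast; linarith only [q0])) ?_
  intro i hi
  simp only [g_e3, List.mem_cons, List.not_mem_nil, or_false] at hi
  rcases hi with rfl | rfl | rfl
  · exact chkD4 l_e3_0m0 (by norm_num)
      (by push_cast; linarith only [x0]) (by push_cast; linarith only [x1]) (by push_cast; linarith only [T0]) (by push_cast; linarith only [T1])
      (by push_cast; linarith only [l0]) (by push_cast; linarith only [l1]) (by push_cast; linarith only [t0]) (by push_cast; linarith only [t1])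
  · exact chkD4 l_e3_1m0 (by norm_num)
      (by push_cast; linarith only [x0]) (by push_cast; linarith only [x1]) (by push_cast; linarith only [T0]) (by push_cast; linarith only [T1])
      (by push_cast; linarith only [l0]) (by push_cast; linarith only [l1]) (by push_cast; linarith only [t0]) (by push_cast; linarith only [t1])
  · exact chkD4 l_e3_2m0 (by norm_num)
      (by push_cast; linarith only [x0]) (by push_cast; linarith only [x1]) (by push_cast; linarith only [T0]) (by push_cast; linarith only [T1])
      (by push_cast; linarith only [l0]) (by push_cast; linarith only [l1]) (by push_cast; linarith only [t0]) (by push_cast; linarith only [t1])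

theorem e3_U_u (h : H x T Tl pl k l w) (x0 : 61 / 100 ≤ x) (x1 : x ≤ 63 / 100) (K : KU x T k κ)
    (hr : 1 / 2 * τ x = hv 2 x)
    (hD : um x + k ≠ 1 → l ≠ up x → Dv 2 x k l = 0) (hT : Tl ≤ 0)
    (hl : LT P13.lU farU x T Tl pl l w) : False := by
  have l0 := h.l0
  have l1 := h.l1
  have t0 := h.t0
  have t1 := h.t1
  have T0 := K.T0
  have T1 := K.T1
  have k0 := K.k0
  have k1 := K.k1
  have q0 := K.q
  rcases le_total l.re (125 / 10000) with hy | hy
  · have hn : l ≠ up x := by
      intro e
      have e1 : l.re = x := by rw [e]; rfl
      linarith only [x0, hy, e1]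
    by_cases hk : um x + k = 1
    · exact h.grpo (i := i_e3_2) rfl rfl hr hk hl (chkD4 o_e3 (by norm_num)
        (by push_cast; linarith only [x0]) (by push_cast; linarith only [x1]) (by push_cast; linarith only [T0]) (by push_cast; linarith only [T1])
        (by push_cast; linarith only []) (by push_cast; linarith only []) (by push_cast; linarith only []) (by push_cast; linarith only [])) (chkD4 l_e3_2u1 (by norm_num)
        (by push_cast; linarith only [x0]) (by push_cast; linarith only [x1]) (by push_cast; linarith only [T0]) (by push_cast; linarith only [T1])
        (by push_cast; linarith only [l0]) (by push_cast; linarith only [hy]) (by push_cast; linarith only [t0]) (by push_cast; linarith only [hT]))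
    refine h.grp (its := g_e3) (κ := κ) rfl hr K.hk hl (th_all (hD hk hn)) (chkD4 k_e3_U (by norm_num)
      (by push_cast; linarith only [x0]) (by push_cast; linarith only [x1]) (by push_cast; linarith only [T0]) (by push_cast; linarith only [T1])
      (by push_cast; linarith only [k0]) (by push_cast; linarith only [k1]) (by push_cast; linarith only [q0]) (by push_cast; linarith only [q0])) ?_
    intro i hi
    simp only [g_e3, List.mem_cons, List.not_mem_nil, or_false] at hi
    rcases hi with rfl | rfl | rfl
    · exact chkD4 l_e3_0u1 (by norm_num)
        (by push_cast; linarith only [x0]) (by push_cast; linarith only [x1]) (by push_cast; linarith only [T0]) (by push_cast; linarith only [T1])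
        (by push_cast; linarith only [l0]) (by push_cast; linarith only [hy]) (by push_cast; linarith only [t0]) (by push_cast; linarith only [hT])
    · exact chkD4 l_e3_1u1 (by norm_num)
        (by push_cast; linarith only [x0]) (by push_cast; linarith only [x1]) (by push_cast; linarith only [T0]) (by push_cast; linarith only [T1])
        (by push_cast; linarith only [l0]) (by push_cast; linarith only [hy]) (by push_cast; linarith only [t0]) (by push_cast; linarith only [hT])
    · exact chkD4 l_e3_2u1 (by norm_num)
        (by push_cast; linarith only [x0]) (by push_cast; linarith only [x1]) (by push_cast; linarith only [T0]) (by push_cast; linarith only [T1])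
        (by push_cast; linarith only [l0]) (by push_cast; linarith only [hy]) (by push_cast; linarith only [t0]) (by push_cast; linarith only [hT])
  rcases le_total l.re (2 / 100) with hy | hy
  · refine h.grp (its := g_e3u0) (κ := κ) rfl hr K.hk hl (th_zero rfl) (chkD4 k_e3u0_U (by norm_num)
      (by push_cast; linarith only [x0]) (by push_cast; linarith only [x1]) (by push_cast; linarith only [T0]) (by push_cast; linarith only [T1])
      (by push_cast; linarith only [k0]) (by push_cast; linarith only [k1]) (by push_cast; linarith only [q0]) (by push_cast; linarith only [q0])) ?_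
    intro i hi
    simp only [g_e3u0, List.mem_cons, List.not_mem_nil, or_false] at hi
    subst hi
    exact chkD4 l_e3u0_0u0 (by norm_num)
        (by push_cast; linarith only [x0]) (by push_cast; linarith only [x1]) (by push_cast; linarith only [T0]) (by push_cast; linarith only [T1])
        (by push_cast; linarith) (by push_cast; linarith only [hy]) (by push_cast; linarith only [t0]) (by push_cast; linarith only [hT])
  rcases le_total l.re (5 / 100) with hy | hy
  · refine h.grp (its := g_e3u1) (κ := κ) rfl hr K.hk hl (th_zero rfl) (chkD4 k_e3u1_U (by norm_num)
      (by push_cast; linarith only [x0]) (by push_cast; linarith only [x1]) (by push_cast; linarith only [T0]) (by push_cast; linarith only [T1])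
      (by push_cast; linarith only [k0]) (by push_cast; linarith only [k1]) (by push_cast; linarith only [q0]) (by push_cast; linarith only [q0])) ?_
    intro i hi
    simp only [g_e3u1, List.mem_cons, List.not_mem_nil, or_false] at hi
    subst hi
    exact chkD4 l_e3u1_0u0 (by norm_num)
        (by push_cast; linarith only [x0]) (by push_cast; linarith only [x1]) (by push_cast; linarith only [T0]) (by push_cast; linarith only [T1])
        (by push_cast; linarith) (by push_cast; linarith only [hy]) (by push_cast; linarith only [t0]) (by push_cast; linarith only [hT])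
  rcases le_total l.re (75 / 100) with hy | hy
  · refine h.grp (its := g_e3u2) (κ := κ) rfl hr K.hk hl (th_zero rfl) (chkD4 k_e3u2_U (by norm_num)
      (by push_cast; linarith only [x0]) (by push_cast; linarith only [x1]) (by push_cast; linarith only [T0]) (by push_cast; linarith only [T1])
      (by push_cast; linarith only [k0]) (by push_cast; linarith only [k1]) (by push_cast; linarith only [q0]) (by push_cast; linarith only [q0])) ?_
    intro i hi
    simp only [g_e3u2, List.mem_cons, List.not_mem_nil, or_false] at hi
    subst hi
    exact chkD4 l_e3u2_0u0 (by norm_num)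
        (by push_cast; linarith only [x0]) (by push_cast; linarith only [x1]) (by push_cast; linarith only [T0]) (by push_cast; linarith only [T1])
        (by push_cast; linarith) (by push_cast; linarith only [hy]) (by push_cast; linarith only [t0]) (by push_cast; linarith only [hT])
  refine h.grp (its := g_e3u3) (κ := κ) rfl hr K.hk hl (th_zero rfl) (chkD4 k_e3u3_U (by norm_num)
    (by push_cast; linarith only [x0]) (by push_cast; linarith only [x1]) (by push_cast; linarith only [T0]) (by push_cast; linarith only [T1])
    (by push_cast; linarith only [k0]) (by push_cast; linarith only [k1]) (by push_cast; linarith only [q0]) (by push_cast; linarith only [q0])) ?_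
  intro i hi
  simp only [g_e3u3, List.mem_cons, List.not_mem_nil, or_false] at hi
  subst hi
  exact chkD4 l_e3u3_0u0 (by norm_num)
      (by push_cast; linarith only [x0]) (by push_cast; linarith only [x1]) (by push_cast; linarith only [T0]) (by push_cast; linarith only [T1])
      (by push_cast; linarith only [hy]) (by push_cast; linarith only [l1]) (by push_cast; linarith only [t0]) (by push_cast; linarith only [hT])

theorem e3_U_d (h : H x T Tl pl k l w) (x0 : 61 / 100 ≤ x) (x1 : x ≤ 63 / 100) (K : KU x T k κ)
    (hr : 1 / 2 * τ x = hv 2 x)
    (hD : um x + k ≠ 1 → l ≠ up x → Dv 2 x k l = 0) (hT : 0 ≤ Tl)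
    (hl : LT lD farD x T Tl pl l w) : False := by
  have l0 := h.l0
  have l1 := h.l1
  have t0 := h.t0
  have t1 := h.t1
  have T0 := K.T0
  have T1 := K.T1
  have k0 := K.k0
  have k1 := K.k1
  have q0 := K.q
  have hn : l ≠ up x := by
    intro e
    have e1 : l.im = 1 / 2 * τ x := by rw [e]; rfl
    rw [hr, hl.hl, lD_val] at e1
    have e2 := tl_nonneg l.re
    rw [hv2] at e1
    linarith only [x1, e1, e2]
  by_cases hk : um x + k = 1
  · exact h.grpo (i := i_e3_2) rfl rfl hr hk hl (chkD4 o_e3 (by norm_num)
      (by push_cast; linarith only [x0]) (by push_cast; linarith only [x1]) (by push_cast; linarith only [T0]) (by push_cast; linarith only [T1])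
      (by push_cast; linarith only []) (by push_cast; linarith only []) (by push_cast; linarith only []) (by push_cast; linarith only [])) (chkD4 l_e3_2d2 (by norm_num)
      (by push_cast; linarith only [x0]) (by push_cast; linarith only [x1]) (by push_cast; linarith only [T0]) (by push_cast; linarith only [T1])
      (by push_cast; linarith only [l0]) (by push_cast; linarith only [l1]) (by push_cast; linarith only [hT]) (by push_cast; linarith only [t1]))
  refine h.grp (its := g_e3) (κ := κ) rfl hr K.hk hl (th_all (hD hk hn)) (chkD4 k_e3_U (by norm_num)
    (by push_cast; linarith only [x0]) (by push_cast; linarith only [x1]) (by push_cast; linarith only [T0]) (by push_cast; linarith only [T1])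
    (by push_cast; linarith only [k0]) (by push_cast; linarith only [k1]) (by push_cast; linarith only [q0]) (by push_cast; linarith only [q0])) ?_
  intro i hi
  simp only [g_e3, List.mem_cons, List.not_mem_nil, or_false] at hi
  rcases hi with rfl | rfl | rfl
  · exact chkD4 l_e3_0d2 (by norm_num)
      (by push_cast; linarith only [x0]) (by push_cast; linarith only [x1]) (by push_cast; linarith only [T0]) (by push_cast; linarith only [T1])
      (by push_cast; linarith only [l0]) (by push_cast; linarith only [l1]) (by push_cast; linarith only [hT]) (by push_cast; linarith only [t1])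
  · exact chkD4 l_e3_1d2 (by norm_num)
      (by push_cast; linarith only [x0]) (by push_cast; linarith only [x1]) (by push_cast; linarith only [T0]) (by push_cast; linarith only [T1])
      (by push_cast; linarith only [l0]) (by push_cast; linarith only [l1]) (by push_cast; linarith only [hT]) (by push_cast; linarith only [t1])
  · exact chkD4 l_e3_2d2 (by norm_num)
      (by push_cast; linarith only [x0]) (by push_cast; linarith only [x1]) (by push_cast; linarith only [T0]) (by push_cast; linarith only [T1])
      (by push_cast; linarith only [l0]) (by push_cast; linarith only [l1]) (by push_cast; linarith only [hT]) (by push_cast; linarith only [t1])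

end M13

end Pool.Agent.Work.MP_b30479_gt.G2
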