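import Pool.Agent.Work.MP_b30479_gt.G2.WM13VA
import Pool.Agent.Work.MP_b30479_gt.G2.WM13VB
import Pool.Agent.Work.MP_b30479_gt.G2.WM13VC
import Pool.Agent.Work.MP_b30479_gt.G2.WM13VD

/-!
# The kind `1 | 3`, slot `0` of the `3`: no point in the middle of the mirrored path
-/

namespace Pool.Agent.Work.MP_b30479_gt.G2

open Finset VOL Filter Topology

namespace M13

open NumG NumG.P13

variable {x T Tl pl : ℝ} {k l w : ℂ}

theorem H.lim_le (h : H x T Tl pl k l w) : l.im ≤ 16 / 100 := by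
  have h0 := tl_nonneg l.re
  have h1 := tl_one l.re
  cases h.lp with
  | main e _ =>
    have := tl_le h.t1 (y := l.re)
    rw [e]
    linarith only [this]
  | up _ e _ => rw [e]; linarith only [h1]
  | dn _ e _ => rw [e]; linarith only [h0]

theorem H.lcases (h : H x T Tl pl k l w) (m : LT lM farM x T Tl pl l w → False)
    (u : Tl ≤ 0 → LT P13.lU farU x T Tl pl l w → False)
    (d : 0 ≤ Tl → LT lD farD x T Tl pl l w → False) : False := by
  cases h.lp with
  | main e f => exact m (h.ltM e f)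
  | up t e f => exact u t (h.ltU t e f)
  | dn t e f => exact d t (h.ltD t e f)

theorem H.oks (h : H x T Tl pl k l w) (hh : 16 / 100 < 1 / 2 * τ x) :
    DOk (um x + k) ∧ DOk (l - up x) := by
  have h1 := (abs_le.1 h.kabs).2
  have h2 := h.lim_le
  refine ⟨Or.inl (ne_of_lt ?_), Or.inl (ne_of_lt ?_)⟩
  · show -(1 / 2 * τ x) + k.im < 0
    linarith only [hh, h1]
  · show l.im - 1 / 2 * τ x < 0
    linarith only [hh, h2]

/-- **The middle of the mirrored path** -/
theorem mid (h : H x T Tl pl k l w) (x0 : 3 / 100 ≤ x) (x1 : x ≤ 63 / 100) : False := by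
  rcases le_total x (56 / 100) with hx | hx
  · obtain ⟨T0, T1, k0, k1, κ, q0, q1, hk⟩ := h.kW
    have K : KW x T k κ := ⟨T0, T1, k0, k1, q0, q1, hk⟩
    rcases le_total x (13 / 100) with hx1 | hx1
    · have hr : 1 / 2 * τ x = hv 0 x := by
        rw [tau_left h.x0.le hx1]
        show _ = 50 / 13 * x
        ring
      rcases le_total x (6 / 100) with hx2 | hx2
      · exact h.lcases (a1_W_m h x0 hx2 K hr) (a1_W_u h x0 hx2 K hr) (a1_W_d h x0 hx2 K hr)
      · exact h.lcases (a2_W_m h hx2 hx1 K hr) (a2_W_u h hx2 hx1 K hr) (a2_W_d h hx2 hx1 K hr)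
    rcases lt_or_ge x (50 / 100) with hx2 | hx2
    · have ht := tau_flat hx1 hx2.le
      have hr : 1 / 2 * τ x = hv 1 x := by
        rw [ht]
        show _ = (1 : ℝ) / 2
        ring
      obtain ⟨o1, o3⟩ := h.oks (by rw [ht]; norm_num)
      have hD : Dv 1 x k l ≤ 0 := h.foc_right (mu_flat hx1 hx2) o1 o3
      exact h.lcases (a3_W_m h hx1 hx2.le K hr hD) (a3_W_u h hx1 hx2.le K hr hD)
        (a3_W_d h hx1 hx2.le K hr hD)
    · have ht := tau_right hx2 (by linarith only [x1])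
      have hr : 1 / 2 * τ x = hv 2 x := by
        rw [ht, hv2]
        ring
      obtain ⟨o1, o3⟩ := h.oks (by rw [hr, hv2]; linarith only [hx])
      have hD : Dv 2 x k l ≤ 0 := h.foc_right (mu_right hx2 h.x1) o1 o3
      exact h.lcases (a4_W_m h hx2 hx K hr hD) (a4_W_u h hx2 hx K hr hD)
        (a4_W_d h hx2 hx K hr hD)
  have hr : 1 / 2 * τ x = hv 2 x := by
    rw [tau_right (by linarith only [hx]) (by linarith only [x1]), hv2]
    ring
  have hD : um x + k ≠ 1 → l ≠ up x → Dv 2 x k l = 0 := fun h1 h3 =>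
    (h.foc (by norm_num) (mu_right' (by linarith only [hx]) h.x1) h1 h3).2.2
  obtain ⟨κ, K | K | K⟩ := h.kcases
  · rcases le_total x (59 / 100) with h1 | h1
    · exact h.lcases (b1_G_m h hx h1 K hr hD) (b1_G_u h hx h1 K hr hD) (b1_G_d h hx h1 K hr hD)
    rcases le_total x (61 / 100) with h2 | h2
    · exact h.lcases (b2_G_m h h1 h2 K hr hD) (b2_G_u h h1 h2 K hr hD) (b2_G_d h h1 h2 K hr hD)
    · exact h.lcases (b3_G_m h h2 x1 K hr hD) (b3_G_u h h2 x1 K hr hD) (b3_G_d h h2 x1 K hr hD)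
  · rcases le_total x (59 / 100) with h1 | h1
    · exact h.lcases (e1_M_m h hx h1 K hr hD) (e1_M_u h hx h1 K hr hD) (e1_M_d h hx h1 K hr hD)
    rcases le_total x (61 / 100) with h2 | h2
    · exact h.lcases (e2_M_m h h1 h2 K hr hD) (e2_M_u h h1 h2 K hr hD) (e2_M_d h h1 h2 K hr hD)
    · exact h.lcases (e3_M_m h h2 x1 K hr hD) (e3_M_u h h2 x1 K hr hD) (e3_M_d h h2 x1 K hr hD)
  · rcases le_total x (59 / 100) with h1 | h1
    · exact h.lcases (e1_U_m h hx h1 K hr hD) (e1_U_u h hx h1 K hr hD) (e1_U_d h hx h1 K hr hD)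
    rcases le_total x (61 / 100) with h2 | h2
    · exact h.lcases (e2_U_m h h1 h2 K hr hD) (e2_U_u h h1 h2 K hr hD) (e2_U_d h h1 h2 K hr hD)
    · exact h.lcases (e3_U_m h h2 x1 K hr hD) (e3_U_u h h2 x1 K hr hD) (e3_U_d h h2 x1 K hr hD)

end M13

end Pool.Agent.Work.MP_b30479_gt.G2
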