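import Pool.Agent.Work.NumU.GenD
import Pool.Agent.Work.NumU.GenX

/-!
# Kind `1 | 3`, slot `0`, right end: expressions

Variables: `x`, `T`, then the real part and the height parameter of the other hinge of the `1`
(side of the `1`) or of the inner variable of the `3` (side of the `3`).
-/

namespace Pool.Agent.Work.NumG

namespace R13

/-! ### far tables (copies of the lists of `F3`) -/

def fa : List (ℤ × ℤ × ℕ) :=
  [(0, -19, 4), (2, 41, 60), (5, 68, 75), (10, 29, 50), (15, 11, 50), (20, 41, 100),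
    (30, 43, 100), (40, 19, 100), (50, -129, 100), (60, 109, 200), (80, 61, 100), (100, 81, 200),
    (125, 63, 125), (150, 79, 250), (175, 127, 250), (200, 37, 125), (225, 89, 250),
    (250, 153, 250), (275, 648, 1625), (288, 7, 26), (300, -13, 5), (312, 7, 130),
    (325, 88, 1625), (350, 23, 250), (375, 9, 50), (400, 3, 125), (450, 12, 125), (500, 13, 250),
    (550, 9, 500), (600, -2, 125), (650, -11, 250), (700, -61, 500), (750, -9, 250),
    (775, -33, 250)]
def fb : List (ℤ × ℤ × ℕ) :=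
  [(0, -80, 1), (2, 100, 3), (5, -22, 3), (10, 6, 1), (20, 2, 1), (50, 56, 1), (60, -5, 2),
    (80, -3, 1), (100, -21, 10), (125, -8, 5), (150, -6, 5), (175, -2, 1), (200, -4, 5),
    (225, -4, 5), (250, -293, 250), (275, -341, 125), (288, -11, 10), (300, 169, 20),
    (312, -1, 20), (325, -6, 125), (350, -116, 125), (375, 47, 125), (400, 1, 5), (550, 2, 5),
    (600, 3, 5), (650, 3, 5), (700, 8, 5), (750, 243, 5), (775, -4, 5)]
def fu : List (ℤ × ℤ × ℕ) :=
  [(0, 179, 10), (5, -11, 5), (10, -81, 10), (20, 11, 10), (30, 17, 20), (50, -941, 100),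
    (100, 19, 50), (150, -1, 50), (200, 1, 22), (750, -6, 11), (760, -17, 1), (770, -93, 10),
    (780, -3, 5), (790, -2, 1)]
def fv : List (ℤ × ℤ × ℕ) :=
  [(0, -130, 1), (10, 130, 1), (750, 20, 1)]
def fd : List (ℤ × ℤ × ℕ) :=
  [(0, 27, 4), (2, 19, 12), (5, 2, 3), (10, 11, 20), (20, 29, 60), (50, -781, 75), (100, 4, 25),
    (150, 1, 10), (200, 3, 25), (250, 1, 50), (500, 3, 50), (600, 2, 25), (650, 3, 25),
    (750, -1143, 100), (760, -1, 1), (780, -13, 40)]
def ga : List (ℤ × ℤ × ℕ) :=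
  [(0, 947, 200), (20, -1007, 200), (22, -7, 5), (25, -21, 20), (27, 1, 4), (30, 1, 5),
    (32, 2, 5), (35, -3, 20), (37, 13, 60), (40, 2, 15), (42, 2, 15), (45, 1, 6), (47, 1, 15),
    (50, -229, 150), (55, 7, 50), (60, 7, 50), (65, 4, 25), (70, 7, 50), (75, 4, 25),
    (80, -3, 50), (85, 3, 10), (90, 3, 25), (95, 3, 25), (100, 19, 100), (110, 11, 50),
    (120, 83, 300), (135, 1, 3)]
def gb : List (ℤ × ℤ × ℕ) :=
  [(0, 637, 10), (20, -1327, 10), (22, 53, 3), (25, 40, 3), (27, -2, 3), (30, -1, 3),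
    (32, -1, 1), (35, -1, 2), (37, -5, 6), (40, -2, 3), (42, -2, 3), (45, -5, 6), (47, -1, 2),
    (50, 287, 5), (55, -4, 5), (60, -1, 1), (65, -1, 1), (70, -4, 5), (75, -1, 1), (80, -3, 5),
    (85, -4, 5), (90, -3, 5), (95, -4, 5), (100, -9, 10), (110, -11, 10), (120, -6, 5),
    (135, -19, 15)]
def ha : List (ℤ × ℤ × ℕ) :=
  [(0, 337, 100), (20, -487, 100), (22, 11, 15), (25, 17, 30), (27, -1, 5), (30, -1, 5),
    (32, 1, 30), (35, -29, 60), (37, -7, 60), (40, -2, 15), (42, -1, 6), (45, -2, 15),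
    (47, -1, 10), (50, -31, 25), (55, 7, 50), (60, 1, 5), (65, 7, 50), (70, 4, 25), (75, 4, 25),
    (80, -1, 50), (85, 7, 25), (90, 4, 25), (95, 1, 10), (100, 21, 100), (110, 21, 100),
    (120, 43, 150), (135, 49, 150)]
def hb : List (ℤ × ℤ × ℕ) :=
  [(0, 819, 10), (20, -672, 5), (22, -67, 6), (25, -25, 3), (27, 16, 3), (30, 14, 3), (32, 4, 1),
    (35, 9, 2), (37, 19, 6), (40, 17, 6), (42, 7, 2), (45, 3, 1), (47, 5, 3), (50, 812, 15),
    (55, -7, 5), (60, -6, 5), (65, -6, 5), (70, -1, 1), (75, -1, 1), (80, -1, 1), (85, -4, 5),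
    (90, -4, 5), (95, -4, 5), (100, -1, 1), (110, -1, 1), (120, -4, 3), (135, -17, 15)]
def ka : List (ℤ × ℤ × ℕ) :=
  [(0, 661, 200), (20, -1001, 200), (22, 2, 15), (25, 1, 15), (27, 1, 10), (30, 1, 10),
    (32, 1, 3), (35, -11, 60), (37, 1, 20), (40, 1, 20), (42, 1, 12), (45, 1, 15), (47, 0, 1),
    (50, -21, 10), (55, 1, 5), (60, 11, 50), (65, 4, 25), (70, 4, 25), (75, 9, 50), (80, -1, 50),
    (85, 3, 10), (90, 7, 50), (95, 1, 10), (100, 21, 100), (110, 11, 50), (120, 27, 100),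
    (135, 49, 150)]
def kb : List (ℤ × ℤ × ℕ) :=
  [(0, 83, 1), (20, -265, 2), (22, -1, 2), (25, 0, 1), (27, -2, 3), (30, 1, 6), (32, -1, 2),
    (35, -1, 2), (37, -1, 6), (40, 1, 6), (42, -5, 6), (45, -1, 6), (47, -1, 6), (50, 1021, 15),
    (55, -9, 5), (60, -9, 5), (65, -7, 5), (70, -6, 5), (75, -6, 5), (80, -1, 1), (85, -4, 5),
    (90, -1, 1), (95, -3, 5), (100, -1, 1), (110, -6, 5), (120, -1, 1), (135, -16, 15)]

/-- height of the mirrored path: right ramp -/
def hR : E := .mul (.q 10 3) (.sub (.q 65 100) (.var 0))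
/-- slope of the height -/
def mR : E := .q (-10) 3
def tr8 : E := E.tr 800 50 50 (.var 2)
def vy : E := .var 2
/-- real part of the other hinge of the `1` at the singular point -/
def ys : E := .sub (.q 1 1) (.var 0)
/-- positions of the other hinge of the `1` -/
def kG : E := .mul (.mul (.q 16 100) (.var 3)) (E.tr 860 150 200 (.var 2))
def kW : E := .mul (.mul (.q 16 100) (.var 3)) (E.tr 800 160 290 (.var 2))
def kM : E := .mul (.var 3) (E.tr 700 140 350 (.var 2))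
def kU : E := .mul (.q 16 100) (E.tr 700 140 350 (.var 2))
/-- positions of the inner variable -/
def lM : E := .mul (.var 3) tr8
def lU : E := .mul (.q 16 100) tr8
def lD : E := .neg (.mul (.q 16 100) tr8)
/-- far gains -/
def fM : E := .sub (E.pl (.var 2) 120 fa) (.mul (.var 3) (E.pl (.var 2) 2600 fb))
def fU : E := .sub (E.pl (.var 2) 120 fu) (.mul (.var 3) (E.pl (.var 2) 2600 fv))
def fD : E := .sub (E.pl (.var 2) 120 fd) (.mul (.var 3) (.q 24 10))
def fg : E := .sub (E.pl (.var 2) 0 ga) (.mul (.var 3) (E.pl (.var 2) 0 gb))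
def fh : E := .sub (E.pl (.var 2) 0 ha) (.mul (.var 3) (E.pl (.var 2) 0 hb))
def fk : E := .sub (E.pl (.var 2) 0 ka) (.mul (.var 3) (E.pl (.var 2) 0 kb))
/-- an item of a menu: target `c / 10000`, factor `th / 10000` of the first order condition, price
`a0 / 10000 + a1 / 100 * x + a2 / 100 * T` -/
structure It where
  c : ℤ
  th : ℤ
  a0 : ℤ
  a1 : ℤ
  a2 : ℤ
def It.tq (i : It) : E := .mul (.q (min i.c 1300) 1300) (.var 1)
def It.pr (i : It) : E :=
  .add (.add (.q i.a0 10000) (.mul (.q i.a1 100) (.var 0))) (.mul (.q i.a2 100) (.var 1))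
/-- side of the `1`, star -/
def f1z (i : It) (y k : E) : E :=
  .add (.add (.sub (.sub (.ux (.add (.c i.c) y) (.add i.tq k))
      (.ux (.add (.var 0) y) (.sub k hR)))
    (.sub (.ux (.c i.c) i.tq) (.mul (.q 2 1) (.ux (.var 0) hR))))
    (.mul .pi (.add (.mul (.sub (.c i.c) (.var 0)) k)
      (.mul (.add i.tq hR) (.sub y (.q 1 1)))))) i.pr
def dUx (x t m : E) : D := .add (.xw x t) (.of (.mul m (.yw x t)))
/-- side of the `1`, slope -/
def f1t (y k : E) : D :=
  .add (.of (.mul .pi (.sub k (.mul mR (.sub y (.q 1 1))))))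
    (.sub (dUx (.add (.var 0) y) (.sub k hR) (.neg mR)) (.mul (.of (.q 2 1)) (dUx (.var 0) hR mR)))
/-- side of the `1`, slope, lower bound -/
def f1m (y k : E) : D :=
  .add (.of (.mul .pi (.sub k (.mul mR (.sub y (.q 1 1))))))
    (.sub (.add (.xw (.add (.var 0) y) (.sub k hR))
        (.of (.mul (.neg mR) (.sub (.yw (.sub (.add (.var 0) y) (.q 1 1)) (.sub k hR)) .pi))))
      (.mul (.of (.q 2 1)) (dUx (.var 0) hR mR)))
def f1e (i : It) (y k : E) : D := .add (.of (f1z i y k)) (.mul (.of (.c i.th)) (f1t y k))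
def f1l (i : It) (y k : E) : D := .add (.of (f1z i y k)) (.mul (.of (.c i.th)) (f1m y k))
/-- side of the `3`, inner variable kept -/
def gkz (i : It) (l : E) : E :=
  .sub (.add (.sub (.sub (.ux (.sub (.var 2) (.var 0)) (.sub l hR)) (.ux (.sub (.var 2) (.c i.c)) (.add l i.tq)))
      (.ux (.c i.c) i.tq))
    (.mul .pi (.add (.add (.mul (.sub (.var 0) (.c i.c)) l) (.mul (.add hR i.tq) (.var 2)))
      (.mul (.q 2 1) hR)))) i.pr
/-- side of the `3`, inner variable to `3/10` -/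
def grz (i : It) (l f : E) : E :=
  .sub (.add (.add (.sub (.sub (.ux (.sub (.var 2) (.var 0)) (.sub l hR)) (.ux (.var 2) l))
    (.sub (.add (.ux (.sub (.q 3 10) (.c i.c)) (.add (.var 3) i.tq)) (.ux (.c i.c) i.tq)) (.ux (.q 3 10) (.var 3))))
    (.mul .pi (.add (.add (.sub (.mul (.var 0) l) l) (.mul hR (.var 2)))
      (.add (.add (.mul i.tq (.q 3 10)) (.mul (.sub (.q 1 1) (.c i.c)) (.var 3))) (.mul (.q 2 1) hR))))) f) i.pr
/-- side of the `3`, slope -/
def g3t (l : E) : D :=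
  .sub (dUx (.sub (.var 2) (.var 0)) (.sub l hR) mR)
    (.of (.mul .pi (.add (.add l (.mul mR (.var 2))) (.mul (.q 2 1) mR))))
/-- side of the `3`, slope, lower bound -/
def g3m (l : E) : D :=
  .sub (.add (.xw (.sub (.var 2) (.var 0)) (.sub l hR))
      (.of (.mul mR (.add (.yw (.add (.sub (.var 2) (.var 0)) (.q 1 1)) (.sub l hR)) .pi))))
    (.of (.mul .pi (.add (.add l (.mul mR (.var 2))) (.mul (.q 2 1) mR))))
def gke (i : It) (l : E) : D := .add (.of (gkz i l)) (.mul (.of (.c i.th)) (g3t l))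
def gkl (i : It) (l : E) : D := .add (.of (gkz i l)) (.mul (.of (.c i.th)) (g3m l))
def gre (i : It) (l f : E) : D := .add (.of (grz i l f)) (.mul (.of (.c i.th)) (g3t l))
def grl (i : It) (l f : E) : D := .add (.of (grz i l f)) (.mul (.of (.c i.th)) (g3m l))
/-- outside the windows -/
def exU : D := .of (.sub (.add (.var 1) (.var 3)) (.q 84 1000))
def exD : D := .of (.sub (.neg (.add (.var 1) (.var 3))) (.q 45 1000))
/-- rows of the side of the `3` -/
def lR (i : It) (l f : E) : List D := [grl i l f, gre i l f, exU, exD]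
def lZ (i : It) (l f : E) : List D := [.of (grz i l f), exU, exD]
def lK (i : It) (l : E) : List D := [gkl i l, gke i l, exU, exD]
def lY (i : It) (l : E) : List D := [.of (gkz i l), exU, exD]

/-! ### the items of the menus -/

def iC_0 : It := ⟨2000, 500, 148814, -2157, 171⟩
def iC_1 : It := ⟨3000, 0, 170365, -2648, 188⟩
def iU_0 : It := ⟨1000, 200, 72959, -1067, 85⟩
def iU_1 : It := ⟨1500, 0, 184733, -2871, 103⟩
def iU_2 : It := ⟨1000, 1500, 77862, -922, 85⟩
def iN_0 : It := ⟨5000, 0, 166594, -2560, 238⟩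
def iN_1 : It := ⟨4000, 0, 166912, -2560, 235⟩
def iB1_0 : It := ⟨2000, 1000, 85910, -1135, -30⟩
def iB1_1 : It := ⟨2000, 0, 85818, -1320, -250⟩
def iB1_2 : It := ⟨1000, 5000, 97799, -635, 34⟩
def iB2_0 : It := ⟨2000, 1000, 85687, -1138, 111⟩
def iB2_1 : It := ⟨1000, 5000, 99536, -663, 101⟩
def iB2_2 : It := ⟨1000, 0, 84281, -1323, 101⟩
def iA1_0 : It := ⟨2000, 800, 85333, -1162, -261⟩
def iA1_1 : It := ⟨1000, 3000, 103008, -1047, -232⟩
def iA1_2 : It := ⟨1000, 0, 80907, -1244, -300⟩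
def iA2_0 : It := ⟨1500, 3000, 111822, -1199, 101⟩
def iA2_1 : It := ⟨1000, 0, 79296, -1244, 83⟩
def iA2_2 : It := ⟨1500, 300, 78627, -1172, 101⟩
def iA3_0 : It := ⟨1500, 3000, 111844, -1202, 119⟩
def iA3_1 : It := ⟨1500, 0, 78753, -1233, 119⟩
def iA4_0 : It := ⟨1000, 3000, 107603, -1139, 96⟩
def iA4_1 : It := ⟨1000, 0, 80019, -1256, 96⟩
def iA4_2 : It := ⟨1500, 400, 79067, -1162, 119⟩
def iA4_3 : It := ⟨1250, 3000, 107752, -1139, 122⟩
def iA5_0 : It := ⟨1250, 3000, 111648, -1202, 139⟩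
def iA5_1 : It := ⟨1250, 0, 78557, -1233, 139⟩
def iA6_0 : It := ⟨1000, 3000, 107559, -1139, 107⟩
def iA6_1 : It := ⟨1000, 0, 79975, -1256, 107⟩
def iA6_2 : It := ⟨1500, 600, 81165, -1160, 138⟩
def iA7_0 : It := ⟨1500, 5000, 102664, -707, 147⟩
def iA7_1 : It := ⟨1000, 0, 79901, -1256, 112⟩
def iA7_2 : It := ⟨1500, 3000, 107675, -1139, 147⟩
def iA7_3 : It := ⟨1500, 300, 78392, -1173, 147⟩
def iEA_0 : It := ⟨2000, 200, 78328, -1195, 142⟩
def iEA_1 : It := ⟨1000, 0, 78907, -1245, 116⟩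
def iEA_2 : It := ⟨1000, 10000, 110353, 17, 116⟩
def iEA_3 : It := ⟨2000, 1000, 86588, -1178, 142⟩
def iEC_0 : It := ⟨2000, 500, 148610, -2157, 198⟩
def iEC_1 : It := ⟨2000, 0, 167921, -2625, 260⟩
def iEN_0 : It := ⟨5000, 0, 166586, -2560, 253⟩
def iEU_0 : It := ⟨1000, 1500, 77909, -922, 116⟩
def iEU_1 : It := ⟨1500, 0, 184634, -2871, 153⟩

end R13

end Pool.Agent.Work.NumG
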