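import Pool.Agent.Work.MP_b30479_gt.G2.WM13H
import Pool.Agent.Work.MP_b30479_gt.G2.WM13RE
import Pool.Agent.Work.MP_b30479_gt.G2.WMMD

/-!
# Kind `1 | 3`, slot `0`, right end: from the rows to the inequalities

`P1 i x T k` is the side of the `1` of the item `i` of a menu, `P3 i x T l l' w p` the side of the
`3`; both together contradict the maximality (`finK`, `finR`).
-/

namespace Pool.Agent.Work.NumG

namespace R13

open NumU (uu uu_neg UU_uu)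
open NumX (yy sg)
open MP_b30479_gt.G2 (V1 V2 V3 tr dU dh1 dh3a DOk)
open MP_b30479_gt.G2.M13 (H)

variable {i : It} {x T Tl pl y s p : ℝ} {k l l' w : ℂ} {xs : List ℝ}

/-- the height of the mirrored path -/
noncomputable def hh (x : ℝ) : ℝ := 10 / 3 * (65 / 100 - x)
noncomputable def It.cR (i : It) : ℝ := (i.c : ℝ) / 10000
noncomputable def It.tR (i : It) (T : ℝ) : ℝ := ((min i.c 1300 : ℤ) : ℝ) / 1300 * T
noncomputable def It.θ (i : It) : ℝ := (i.th : ℝ) / 10000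
noncomputable def It.A (i : It) (x T : ℝ) : ℝ :=
  (i.a0 : ℝ) / 10000 + (i.a1 : ℝ) / 100 * x + (i.a2 : ℝ) / 100 * T

/-- side of the `1` -/
def P1 (i : It) (x T : ℝ) (k : ℂ) : Prop :=
  0 < V1 ⟨i.cR, i.tR T⟩ k - V1 ⟨x, -hh x⟩ k + uu x (hh x) + i.A x T +
    i.θ * (dh1 ⟨x, -hh x⟩ k (10 / 3) - dU ⟨x, hh x⟩ (-(10 / 3)))

/-- side of the `3` -/
def P3 (i : It) (x T : ℝ) (l l' w : ℂ) (p : ℝ) : Prop :=
  0 < V3 ⟨i.cR, -i.tR T⟩ l' w - V3 ⟨x, hh x⟩ l w + 2 * Real.pi * p + 2 * Real.pi * hh x -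
    uu x (hh x) - i.A x T +
    i.θ * (dh3a ⟨x, hh x⟩ l (-(10 / 3)) + dU ⟨x, hh x⟩ (-(10 / 3)) + 2 * Real.pi * (10 / 3))

/-! ### values of the expressions -/

theorem hR_val : hR.val (x :: xs) = hh x := by
  simp only [hR, hh, E.val, NumI.lkR]
  norm_num

theorem mR_val : mR.val xs = -(10 / 3) := by
  simp only [mR, E.val]
  norm_num

theorem tq_val : i.tq.val (x :: T :: xs) = i.tR T := by
  simp only [It.tq, It.tR, E.val, NumI.lkR]
  norm_num

theorem pr_val : i.pr.val (x :: T :: xs) = i.A x T := by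
  simp only [It.pr, It.A, E.val, NumI.lkR]
  norm_num

theorem c_val : (E.c i.c).val xs = i.cR := by
  simp only [E.c, It.cR, E.val]
  norm_num

theorem th_val : (E.c i.th).val xs = i.θ := by
  simp only [E.c, It.θ, E.val]
  norm_num

theorem dUx_val (a t m : E) : (dUx a t m).val xs = dU ⟨a.val xs, t.val xs⟩ (m.val xs) := by
  rw [← D.dU_val]
  rfl

theorem f1z_val (y k : E) : (f1z i y k).val (x :: T :: xs) =
    V1 ⟨i.cR, i.tR T⟩ ⟨y.val (x :: T :: xs), k.val (x :: T :: xs)⟩ -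
      V1 ⟨x, -hh x⟩ ⟨y.val (x :: T :: xs), k.val (x :: T :: xs)⟩ + uu x (hh x) + i.A x T := by
  unfold MP_b30479_gt.G2.V1
  have e : -hh x + k.val (x :: T :: xs) = k.val (x :: T :: xs) - hh x := by ring
  simp only [f1z, E.val, UU_uu, Complex.add_re, Complex.add_im, Complex.sub_im, Complex.mul_im,
    hR_val, tq_val, pr_val, c_val, NumI.lkR, uu_neg, e]
  push_cast
  ring

theorem f1t_val (y k : E) : (f1t y k).val (x :: xs) =
    dh1 ⟨x, -hh x⟩ ⟨y.val (x :: xs), k.val (x :: xs)⟩ (10 / 3) - dU ⟨x, hh x⟩ (-(10 / 3)) := by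
  unfold MP_b30479_gt.G2.dh1
  have e1 : (⟨x, -hh x⟩ : ℂ) + ⟨y.val (x :: xs), k.val (x :: xs)⟩ =
      ⟨x + y.val (x :: xs), k.val (x :: xs) - hh x⟩ := by
    apply Complex.ext
    · simp
    · simp
      ring
  have e2 : dU ⟨x, -hh x⟩ (10 / 3) = dU ⟨x, hh x⟩ (-(10 / 3)) := by
    unfold MP_b30479_gt.G2.dU
    rw [LL_lnA_all, LL_lnA_all, NumX.YY_yy, NumX.YY_yy]
    show NumI.lnA x (-hh x) + 10 / 3 * yy x (-hh x) = NumI.lnA x (hh x) + -(10 / 3) * yy x (hh x)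
    rw [NumX.yy_conj, NumI.lnA_neg]
    ring
  rw [e1, e2]
  simp only [f1t, D.val, dUx_val, E.val, hR_val, mR_val, NumI.lkR]
  norm_num
  ring

theorem yy_ge (a t : ℝ) : yy (a - 1) t - Real.pi ≤ yy a t := by
  have h := yy_add_nat (a - 1) t 1
  rw [Nat.cast_one, sub_add_cancel, one_mul] at h
  have h2 := (abs_le.1 (NumX.sg_abs t)).1
  have h3 := mul_le_mul_of_nonneg_left h2 Real.pi_pos.le
  linarith only [h, h3]

theorem yy_le (a t : ℝ) : yy a t ≤ yy (a + 1) t + Real.pi := by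
  have h := yy_add_nat a t 1
  rw [Nat.cast_one, one_mul] at h
  have h2 := (abs_le.1 (NumX.sg_abs t)).1
  have h3 := mul_le_mul_of_nonneg_left h2 Real.pi_pos.le
  linarith only [h, h3]

theorem f1m_le (y k : E) : (f1m y k).val (x :: xs) ≤ (f1t y k).val (x :: xs) := by
  have h := yy_ge (x + y.val (x :: xs)) (k.val (x :: xs) - hh x)
  simp only [f1m, f1t, dUx, D.val, E.val, hR_val, mR_val, NumI.lkR]
  norm_num
  linarith only [h]

theorem gkz_val (l : E) (w : ℂ) : (gkz i l).val [x, T, y, s] =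
    V3 ⟨i.cR, -i.tR T⟩ ⟨y, l.val [x, T, y, s]⟩ w - V3 ⟨x, hh x⟩ ⟨y, l.val [x, T, y, s]⟩ w +
      2 * Real.pi * hh x - uu x (hh x) - i.A x T := by
  unfold MP_b30479_gt.G2.V3
  simp only [gkz, E.val, UU_uu, Complex.add_re, Complex.add_im, Complex.sub_im, Complex.sub_re,
    Complex.mul_im, Complex.mul_re, hR_val, tq_val, pr_val, c_val, NumI.lkR, uu_neg, pow_two,
    sub_neg_eq_add]
  norm_num
  ring

theorem grz_val (l f : E) (w : ℂ) : (grz i l f).val [x, T, y, Tl] =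
    V3 ⟨i.cR, -i.tR T⟩ ⟨3 / 10, Tl⟩ w - V3 ⟨x, hh x⟩ ⟨y, l.val [x, T, y, Tl]⟩ w -
      (V2 ⟨3 / 10, Tl⟩ w - V2 ⟨y, l.val [x, T, y, Tl]⟩ w) +
      2 * Real.pi * hh x - uu x (hh x) + f.val [x, T, y, Tl] - i.A x T := by
  unfold MP_b30479_gt.G2.V3 MP_b30479_gt.G2.V2
  simp only [grz, E.val, UU_uu, Complex.add_re, Complex.add_im, Complex.sub_im, Complex.sub_re,
    Complex.mul_im, Complex.mul_re, hR_val, tq_val, pr_val, c_val, NumI.lkR, uu_neg, pow_two,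
    sub_neg_eq_add]
  norm_num
  ring

theorem g3t_val (l : E) : (g3t l).val [x, T, y, s] =
    dh3a ⟨x, hh x⟩ ⟨y, l.val [x, T, y, s]⟩ (-(10 / 3)) + dU ⟨x, hh x⟩ (-(10 / 3)) +
      2 * Real.pi * (10 / 3) := by
  unfold MP_b30479_gt.G2.dh3a
  have e1 : (⟨y, l.val [x, T, y, s]⟩ : ℂ) - ⟨x, hh x⟩ =
      ⟨y - x, l.val [x, T, y, s] - hh x⟩ := rfl
  rw [e1]
  simp only [g3t, D.val, dUx_val, E.val, hR_val, mR_val, NumI.lkR]
  norm_num
  ring

theorem g3m_le (l : E) : (g3m l).val [x, T, y, s] ≤ (g3t l).val [x, T, y, s] := by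
  have h := yy_le (y - x) (l.val [x, T, y, s] - hh x)
  simp only [g3m, g3t, dUx, D.val, E.val, hR_val, mR_val, NumI.lkR]
  norm_num
  linarith only [h]

/-! ### the sides -/

/-- conditions on an item -/
def okI (i : It) : Bool := decide (0 ≤ i.c) && decide (i.c ≤ 5000) && decide (0 ≤ i.th)

theorem okI_spec (h : okI i = true) : 0 ≤ i.c ∧ i.c ≤ 5000 ∧ 0 ≤ i.th := by
  unfold okI at h
  simp only [Bool.and_eq_true, decide_eq_true_eq] at h
  exact ⟨h.1.1, h.1.2, h.2⟩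

theorem θ_nonneg (h : okI i = true) : 0 ≤ i.θ := by
  have : (0 : ℝ) ≤ i.th := by exact_mod_cast (okI_spec h).2.2
  unfold It.θ
  positivity

theorem P1_e {y k : E} (h : 0 < (f1e i y k).val (x :: T :: xs)) :
    P1 i x T ⟨y.val (x :: T :: xs), k.val (x :: T :: xs)⟩ := by
  unfold P1
  simp only [f1e, D.val, f1z_val, f1t_val, th_val] at h
  exact h

theorem P1_l {y k : E} (hi : okI i = true) (h : 0 < (f1l i y k).val (x :: T :: xs)) :
    P1 i x T ⟨y.val (x :: T :: xs), k.val (x :: T :: xs)⟩ := by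
  have h2 := mul_le_mul_of_nonneg_left (f1m_le (x := x) (xs := T :: xs) y k) (θ_nonneg hi)
  unfold P1
  simp only [f1l, D.val, f1z_val, th_val] at h
  rw [f1t_val] at h2
  linarith only [h2, h]

theorem P1_z {y k : E} (hi : i.th = 0) (h : 0 < (D.of (f1z i y k)).val (x :: T :: xs)) :
    P1 i x T ⟨y.val (x :: T :: xs), k.val (x :: T :: xs)⟩ := by
  have e : i.θ = 0 := by unfold It.θ; rw [hi]; norm_num
  unfold P1
  rw [e, zero_mul, add_zero]
  simp only [D.val, f1z_val] at h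
  exact h

section

variable {l f : E}

theorem ex_neg (s0 : -(45 / 1000) ≤ Tl + T) (s1 : Tl + T ≤ 84 / 1000) :
    ¬ 0 < exU.val [x, T, y, Tl] ∧ ¬ 0 < exD.val [x, T, y, Tl] := by
  simp only [exU, exD, D.val, E.val, NumI.lkR]
  norm_num
  constructor <;> linarith only [s1, s0]

theorem P3_lR (hi : okI i = true) (h : ∃ e ∈ lR i l f, 0 < e.val [x, T, y, Tl])
    (s0 : -(45 / 1000) ≤ Tl + T) (s1 : Tl + T ≤ 84 / 1000)
    (hf : f.val [x, T, y, Tl] ≤ V2 ⟨3 / 10, Tl⟩ w - V2 ⟨y, l.val [x, T, y, Tl]⟩ w +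
      2 * Real.pi * p) :
    P3 i x T ⟨y, l.val [x, T, y, Tl]⟩ ⟨3 / 10, Tl⟩ w p := by
  obtain ⟨e, he, hp⟩ := h
  have h2 := mul_le_mul_of_nonneg_left (g3m_le (x := x) (T := T) (y := y) (s := Tl) l)
    (θ_nonneg hi)
  rw [g3t_val] at h2
  simp only [lR, List.mem_cons, List.not_mem_nil, or_false] at he
  unfold P3
  rcases he with rfl | rfl | rfl | rfl
  · simp only [grl, D.val, grz_val (w := w), th_val] at hp
    linarith only [hf, h2, hp]
  · simp only [gre, D.val, grz_val (w := w), th_val, g3t_val] at hp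
    linarith only [hf, hp]
  · exact absurd hp (ex_neg s0 s1).1
  · exact absurd hp (ex_neg s0 s1).2

theorem P3_lZ (hi : i.th = 0) (h : ∃ e ∈ lZ i l f, 0 < e.val [x, T, y, Tl])
    (s0 : -(45 / 1000) ≤ Tl + T) (s1 : Tl + T ≤ 84 / 1000)
    (hf : f.val [x, T, y, Tl] ≤ V2 ⟨3 / 10, Tl⟩ w - V2 ⟨y, l.val [x, T, y, Tl]⟩ w +
      2 * Real.pi * p) :
    P3 i x T ⟨y, l.val [x, T, y, Tl]⟩ ⟨3 / 10, Tl⟩ w p := by
  obtain ⟨e, he, hp⟩ := h
  have e0 : i.θ = 0 := by unfold It.θ; rw [hi]; norm_num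
  simp only [lZ, List.mem_cons, List.not_mem_nil, or_false] at he
  unfold P3
  rw [e0, zero_mul, add_zero]
  rcases he with rfl | rfl | rfl
  · simp only [D.val, grz_val (w := w)] at hp
    linarith only [hf, hp]
  · exact absurd hp (ex_neg s0 s1).1
  · exact absurd hp (ex_neg s0 s1).2

theorem P3_lK (hi : okI i = true) (h : ∃ e ∈ lK i l, 0 < e.val [x, T, y, Tl])
    (s0 : -(45 / 1000) ≤ Tl + T) (s1 : Tl + T ≤ 84 / 1000) (w : ℂ) :
    P3 i x T ⟨y, l.val [x, T, y, Tl]⟩ ⟨y, l.val [x, T, y, Tl]⟩ w 0 := by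
  obtain ⟨e, he, hp⟩ := h
  have h2 := mul_le_mul_of_nonneg_left (g3m_le (x := x) (T := T) (y := y) (s := Tl) l)
    (θ_nonneg hi)
  rw [g3t_val] at h2
  simp only [lK, List.mem_cons, List.not_mem_nil, or_false] at he
  unfold P3
  rcases he with rfl | rfl | rfl | rfl
  · simp only [gkl, D.val, gkz_val (w := w), th_val] at hp
    linarith only [h2, hp]
  · simp only [gke, D.val, gkz_val (w := w), th_val, g3t_val] at hp
    linarith only [hp]
  · exact absurd hp (ex_neg s0 s1).1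
  · exact absurd hp (ex_neg s0 s1).2

theorem P3_lY (hi : i.th = 0) (h : ∃ e ∈ lY i l, 0 < e.val [x, T, y, Tl])
    (s0 : -(45 / 1000) ≤ Tl + T) (s1 : Tl + T ≤ 84 / 1000) (w : ℂ) :
    P3 i x T ⟨y, l.val [x, T, y, Tl]⟩ ⟨y, l.val [x, T, y, Tl]⟩ w 0 := by
  obtain ⟨e, he, hp⟩ := h
  have e0 : i.θ = 0 := by unfold It.θ; rw [hi]; norm_num
  simp only [lY, List.mem_cons, List.not_mem_nil, or_false] at he
  unfold P3
  rw [e0, zero_mul, add_zero]
  rcases he with rfl | rfl | rfl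
  · simp only [D.val, gkz_val (w := w)] at hp
    linarith only [hp]
  · exact absurd hp (ex_neg s0 s1).1
  · exact absurd hp (ex_neg s0 s1).2

end

/-! ### both sides together -/

section

variable (hx0 : 63 / 100 ≤ x) (hx1 : x ≤ 65 / 100)

include hx0 hx1

theorem tau_eq : 1 / 2 * MP_b30479_gt.G2.M13.τ x = hh x := by
  rw [MP_b30479_gt.G2.M13.tau_right (by linarith only [hx0]) hx1]
  unfold hh
  ring

theorem um_eq : MP_b30479_gt.G2.M13.um x = ⟨x, -hh x⟩ := by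
  unfold MP_b30479_gt.G2.M13.um
  rw [tau_eq hx0 hx1]

theorem up_eq : MP_b30479_gt.G2.M13.up x = ⟨x, hh x⟩ := by
  unfold MP_b30479_gt.G2.M13.up
  rw [tau_eq hx0 hx1]

end

theorem cR_bds (hi : okI i = true) : 0 ≤ i.cR ∧ i.cR ≤ 5 / 10 := by
  obtain ⟨h0, h1, -⟩ := okI_spec hi
  have a0 : (0 : ℝ) ≤ i.c := by exact_mod_cast h0
  have a1 : (i.c : ℝ) ≤ 5000 := by exact_mod_cast h1
  unfold It.cR
  constructor
  · positivity
  · linarith only [a1]

theorem tR_eq (hi : okI i = true) (T : ℝ) : T * MP_b30479_gt.G2.M13.τ i.cR = i.tR T := by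
  obtain ⟨h0, h1⟩ := cR_bds hi
  unfold It.tR
  rcases le_total i.c 1300 with h | h
  · have hR : (i.c : ℝ) ≤ 1300 := by exact_mod_cast h
    rw [min_eq_left h, MP_b30479_gt.G2.M13.tau_left h0 (by unfold It.cR; linarith only [hR])]
    unfold It.cR
    ring
  · have hR : (1300 : ℝ) ≤ i.c := by exact_mod_cast h
    rw [min_eq_right h, MP_b30479_gt.G2.M13.tau_flat (by unfold It.cR; linarith only [hR]) (by linarith only [h1])]
    norm_num

theorem li_eq (Tl : ℝ) : MP_b30479_gt.G2.M13.li Tl (3 / 10) = ⟨3 / 10, Tl⟩ := by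
  unfold MP_b30479_gt.G2.M13.li MP_b30479_gt.G2.M13.τl MP_b30479_gt.G2.tr
  norm_num

/-- no item at the singular point -/
def Gd (i : It) (x : ℝ) (k : ℂ) : Prop := i.th = 0 ∨ (⟨x, -hh x⟩ : ℂ) + k ≠ 1

theorem foc_θ (h : H x T Tl pl k l w) (hx0 : 63 / 100 ≤ x) (hk : Gd i x k)
    (hl : l ≠ ⟨x, hh x⟩) : i.θ * (dh1 ⟨x, -hh x⟩ k (10 / 3) + dh3a ⟨x, hh x⟩ l (-(10 / 3)) +
      2 * Real.pi * (10 / 3)) = 0 := by
  have hx1 := h.x1
  rcases hk with hk | hk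
  · have e0 : i.θ = 0 := by unfold It.θ; rw [hk]; norm_num
    rw [e0, zero_mul]
  · rw [← um_eq hx0 hx1.le] at hk
    rw [← up_eq hx0 hx1.le] at hl
    have h1 := (h.foc (μ := -(10 / 3)) (by norm_num)
      (MP_b30479_gt.G2.M13.mu_right' (by linarith only [hx0, hx1]) hx1) hk hl).2.2
    rw [um_eq hx0 hx1.le, up_eq hx0 hx1.le, neg_neg] at h1
    have e : dh1 ⟨x, -hh x⟩ k (10 / 3) + dh3a ⟨x, hh x⟩ l (-(10 / 3)) +
      2 * Real.pi * (10 / 3) = 0 := by linarith only [h1]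
    rw [e, mul_zero]

/-- the inner variable is moved -/
theorem finR (h : H x T Tl pl k l w) (hx0 : 63 / 100 ≤ x) (hl : l ≠ ⟨x, hh x⟩)
    (hi : okI i = true) (h1 : P1 i x T k ∧ Gd i x k) (h3 : P3 i x T l ⟨3 / 10, Tl⟩ w pl) :
    False := by
  obtain ⟨c0, c1⟩ := cR_bds hi
  have h2 := h.resp i.cR (3 / 10) c0 (by linarith only [c1]) (by norm_num) (by norm_num)
  unfold MP_b30479_gt.G2.M13.cm MP_b30479_gt.G2.M13.cp at h2
  rw [tR_eq hi, um_eq hx0 h.x1.le, up_eq hx0 h.x1.le, li_eq, tau_eq hx0 h.x1.le] at h2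
  have h4 := foc_θ h hx0 h1.2 hl
  have h5 := h1.1
  unfold P1 at h5
  unfold P3 at h3
  linarith only [h3, h2, h4, h5]

/-- the inner variable is kept -/
theorem finK (h : H x T Tl pl k l w) (hx0 : 63 / 100 ≤ x) (hl : l ≠ ⟨x, hh x⟩)
    (hi : okI i = true) (h1 : P1 i x T k ∧ Gd i x k) (h3 : P3 i x T l l w 0) : False := by
  obtain ⟨c0, c1⟩ := cR_bds hi
  have h2 := h.keep i.cR c0 (by linarith only [c1])
  unfold MP_b30479_gt.G2.M13.cm MP_b30479_gt.G2.M13.cp at h2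
  rw [tR_eq hi, um_eq hx0 h.x1.le, up_eq hx0 h.x1.le, tau_eq hx0 h.x1.le] at h2
  have h4 := foc_θ h hx0 h1.2 hl
  have h5 := h1.1
  unfold P1 at h5
  unfold P3 at h3
  linarith only [h3, h2, h4, h5]

/-- the inner variable is kept, no first order condition -/
theorem finY (h : H x T Tl pl k l w) (hx0 : 63 / 100 ≤ x) (hi : okI i = true) (ht : i.th = 0)
    (h1 : P1 i x T k) (h3 : P3 i x T l l w 0) : False := by
  obtain ⟨c0, c1⟩ := cR_bds hi
  have e0 : i.θ = 0 := by unfold It.θ; rw [ht]; norm_num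
  have h2 := h.keep i.cR c0 (by linarith only [c1])
  unfold MP_b30479_gt.G2.M13.cm MP_b30479_gt.G2.M13.cp at h2
  rw [tR_eq hi, um_eq hx0 h.x1.le, up_eq hx0 h.x1.le, tau_eq hx0 h.x1.le] at h2
  unfold P1 at h1
  unfold P3 at h3
  rw [e0, zero_mul, add_zero] at h1 h3
  linarith only [h1, h3, h2]

/-! ### the sets of positions -/

/-- the other hinge of the `1`, class `1` -/
def KG (k : ℂ) : Prop := (0 ≤ k.re ∧ k.re ≤ 86 / 100) ∧
  |k.im| ≤ 16 / 100 * tr 0 (86 / 100) (15 / 100) (20 / 100) k.re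

/-- the other hinge of the `1`, class `2` -/
def KW (k : ℂ) : Prop := (0 ≤ k.re ∧ k.re ≤ 80 / 100) ∧
  |k.im| ≤ 16 / 100 * tr 0 (80 / 100) (16 / 100) (29 / 100) k.re

theorem abs_par {a t : ℝ} (h0 : 0 ≤ t) (h : |a| ≤ 16 / 100 * t) :
    ∃ s : ℝ, -1 ≤ s ∧ s ≤ 1 ∧ a = 16 / 100 * s * t := by
  rcases h0.eq_or_lt with h1 | h1
  · refine ⟨0, by norm_num, by norm_num, ?_⟩
    rw [← h1, mul_zero] at h ⊢
    exact abs_nonpos_iff.1 h
  · have h2 := abs_le.1 h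
    refine ⟨a / (16 / 100 * t), ?_, ?_, ?_⟩
    · rw [le_div_iff₀ (by positivity)]; linarith only [h2]
    · rw [div_le_iff₀ (by positivity)]; linarith only [h2]
    · field_simp

theorem KG.par (h : KG k) : ∃ s : ℝ, -1 ≤ s ∧ s ≤ 1 ∧ ∀ x T : ℝ,
    k = ⟨vy.val [x, T, k.re, s], kG.val [x, T, k.re, s]⟩ := by
  obtain ⟨s, s0, s1, e⟩ := abs_par (MP_b30479_gt.G2.tr_nonneg _ _ _ _ _) h.2
  refine ⟨s, s0, s1, fun x T => Complex.ext rfl ?_⟩
  rw [e]
  simp only [kG, E.val, NumI.lkR]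
  rw [E.tr_val (by norm_num) (by norm_num) (by norm_num)]
  simp only [E.val, NumI.lkR]
  norm_num

theorem KW.par (h : KW k) : ∃ s : ℝ, -1 ≤ s ∧ s ≤ 1 ∧ ∀ x T : ℝ,
    k = ⟨vy.val [x, T, k.re, s], kW.val [x, T, k.re, s]⟩ := by
  obtain ⟨s, s0, s1, e⟩ := abs_par (MP_b30479_gt.G2.tr_nonneg _ _ _ _ _) h.2
  refine ⟨s, s0, s1, fun x T => Complex.ext rfl ?_⟩
  rw [e]
  simp only [kW, E.val, NumI.lkR]
  rw [E.tr_val (by norm_num) (by norm_num) (by norm_num)]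
  simp only [E.val, NumI.lkR]
  norm_num

theorem KW.toKG (h : KW k) : KG k := by
  refine ⟨⟨h.1.1, by linarith only [h, h.1.2]⟩, h.2.trans (mul_le_mul_of_nonneg_left ?_ (by norm_num))⟩
  have h0 := h.1.1
  have h1 := h.1.2
  unfold MP_b30479_gt.G2.tr
  refine max_le_max le_rfl (min_le_min le_rfl (min_le_min ?_ ?_))
  · rw [sub_zero]
    exact div_le_div_of_nonneg_left h0 (by norm_num) (by norm_num)
  · rw [div_le_div_iff₀ (by norm_num) (by norm_num)]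
    nlinarith only [h1]

/-- a `2` at an end, main path -/
def KM (k : ℂ) : Prop := (0 ≤ k.re ∧ k.re ≤ 70 / 100) ∧
  ∃ s : ℝ, -(45 / 1000) ≤ s ∧ s ≤ 0 ∧ k.im = s * tr 0 (70 / 100) (14 / 100) (35 / 100) k.re

/-- a `2` at an end, mirrored path -/
def KU (k : ℂ) : Prop := (0 ≤ k.re ∧ k.re ≤ 70 / 100) ∧
  k.im = 16 / 100 * tr 0 (70 / 100) (14 / 100) (35 / 100) k.re

theorem KM.par (h : KM k) : ∃ s : ℝ, -(45 / 1000) ≤ s ∧ s ≤ 0 ∧ ∀ x T : ℝ,
    k = ⟨vy.val [x, T, k.re, s], kM.val [x, T, k.re, s]⟩ := by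
  obtain ⟨s, s0, s1, e⟩ := h.2
  refine ⟨s, s0, s1, fun x T => Complex.ext rfl ?_⟩
  rw [e]
  simp only [kM, E.val, NumI.lkR]
  rw [E.tr_val (by norm_num) (by norm_num) (by norm_num)]
  simp only [E.val, NumI.lkR]
  norm_num

theorem KU.par (h : KU k) : ∃ s : ℝ, 0 ≤ s ∧ s ≤ 0 ∧ ∀ x T : ℝ,
    k = ⟨vy.val [x, T, k.re, s], kU.val [x, T, k.re, s]⟩ := by
  refine ⟨0, le_rfl, le_rfl, fun x T => Complex.ext rfl ?_⟩
  rw [h.2]
  simp only [kU, E.val, NumI.lkR]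
  rw [E.tr_val (by norm_num) (by norm_num) (by norm_num)]
  simp only [E.val, NumI.lkR]
  norm_num

theorem sing (hs : (⟨x, -hh x⟩ : ℂ) + k = 1) (T : ℝ) :
    k = ⟨ys.val [x, T, 0, 0], hR.val [x, T, 0, 0]⟩ := by
  have e : k = 1 - ⟨x, -hh x⟩ := by rw [← hs]; ring
  rw [hR_val, e]
  apply Complex.ext
  · simp only [ys, E.val, NumI.lkR, Complex.sub_re, Complex.one_re]
    norm_num
  · simp

theorem P1_e' {y k' : E} (e : k = ⟨y.val (x :: T :: xs), k'.val (x :: T :: xs)⟩)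
    (h : 0 < (f1e i y k').val (x :: T :: xs)) : P1 i x T k := by
  rw [e]
  exact P1_e h

theorem P1_l' {y k' : E} (hi : okI i = true)
    (e : k = ⟨y.val (x :: T :: xs), k'.val (x :: T :: xs)⟩)
    (h : 0 < (f1l i y k').val (x :: T :: xs)) : P1 i x T k := by
  rw [e]
  exact P1_l hi h

theorem P1_z' {y k' : E} (hi : i.th = 0)
    (e : k = ⟨y.val (x :: T :: xs), k'.val (x :: T :: xs)⟩)
    (h : 0 < (D.of (f1z i y k')).val (x :: T :: xs)) : P1 i x T k := by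
  rw [e]
  exact P1_z hi h

/-! ### the inner variable -/

theorem lM_eq (h : l.im = Tl * MP_b30479_gt.G2.M13.τl l.re) (x T : ℝ) :
    l = ⟨l.re, lM.val [x, T, l.re, Tl]⟩ := by
  refine Complex.ext rfl ?_
  rw [h]
  simp only [lM, tr8, E.val, NumI.lkR]
  rw [E.tr_val (by norm_num) (by norm_num) (by norm_num)]
  simp only [E.val, NumI.lkR, MP_b30479_gt.G2.M13.τl]
  norm_num

theorem lU_eq (h : l.im = 16 / 100 * MP_b30479_gt.G2.M13.τl l.re) (x T Tl : ℝ) :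
    l = ⟨l.re, lU.val [x, T, l.re, Tl]⟩ := by
  refine Complex.ext rfl ?_
  rw [h]
  simp only [lU, tr8, E.val, NumI.lkR]
  rw [E.tr_val (by norm_num) (by norm_num) (by norm_num)]
  simp only [E.val, NumI.lkR, MP_b30479_gt.G2.M13.τl]
  norm_num

theorem lD_eq (h : l.im = -(16 / 100 * MP_b30479_gt.G2.M13.τl l.re)) (x T Tl : ℝ) :
    l = ⟨l.re, lD.val [x, T, l.re, Tl]⟩ := by
  refine Complex.ext rfl ?_
  rw [h]
  simp only [lD, tr8, E.val, NumI.lkR]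
  rw [E.tr_val (by norm_num) (by norm_num) (by norm_num)]
  simp only [E.val, NumI.lkR, MP_b30479_gt.G2.M13.τl]
  norm_num

section

variable {l' f : E}

theorem P3_lR' (e : l = ⟨y, l'.val [x, T, y, Tl]⟩) (hi : okI i = true)
    (h : ∃ e ∈ lR i l' f, 0 < e.val [x, T, y, Tl])
    (s0 : -(45 / 1000) ≤ Tl + T) (s1 : Tl + T ≤ 84 / 1000)
    (hf : f.val [x, T, y, Tl] ≤ V2 ⟨3 / 10, Tl⟩ w - V2 l w + 2 * Real.pi * p) :
    P3 i x T l ⟨3 / 10, Tl⟩ w p := by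
  rw [e] at hf ⊢
  exact P3_lR hi h s0 s1 hf

theorem P3_lZ' (e : l = ⟨y, l'.val [x, T, y, Tl]⟩) (hi : i.th = 0)
    (h : ∃ e ∈ lZ i l' f, 0 < e.val [x, T, y, Tl])
    (s0 : -(45 / 1000) ≤ Tl + T) (s1 : Tl + T ≤ 84 / 1000)
    (hf : f.val [x, T, y, Tl] ≤ V2 ⟨3 / 10, Tl⟩ w - V2 l w + 2 * Real.pi * p) :
    P3 i x T l ⟨3 / 10, Tl⟩ w p := by
  rw [e] at hf ⊢
  exact P3_lZ hi h s0 s1 hf

theorem P3_lK' (e : l = ⟨y, l'.val [x, T, y, Tl]⟩) (hi : okI i = true)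
    (h : ∃ e ∈ lK i l', 0 < e.val [x, T, y, Tl])
    (s0 : -(45 / 1000) ≤ Tl + T) (s1 : Tl + T ≤ 84 / 1000) (w : ℂ) : P3 i x T l l w 0 := by
  rw [e]
  exact P3_lK hi h s0 s1 w

theorem P3_lY' (e : l = ⟨y, l'.val [x, T, y, Tl]⟩) (hi : i.th = 0)
    (h : ∃ e ∈ lY i l', 0 < e.val [x, T, y, Tl])
    (s0 : -(45 / 1000) ≤ Tl + T) (s1 : Tl + T ≤ 84 / 1000) (w : ℂ) : P3 i x T l l w 0 := by
  rw [e]
  exact P3_lY hi h s0 s1 w

end

theorem hh_nonneg (h : x ≤ 65 / 100) : 0 ≤ hh x := by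
  unfold hh
  linarith only [h]

theorem hh_le (h : 63 / 100 ≤ x) : hh x ≤ 7 / 100 := by
  unfold hh
  linarith only [h]

theorem hh_pos (h : H x T Tl pl k l w) : 0 < hh x := by
  have := h.x1
  unfold hh
  linarith only [this]

/-- the inner variable is not at the singular point: nonpositive height -/
theorem ne_neg (h : H x T Tl pl k l w) (hl : l.im ≤ 0) : l ≠ ⟨x, hh x⟩ := by
  rintro rfl
  exact absurd hl (not_le.2 (hh_pos h))

/-- the inner variable is not at the singular point: other real part -/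
theorem ne_re (h : l.re ≠ x) : l ≠ ⟨x, hh x⟩ := by
  rintro rfl
  exact h rfl

theorem τl_nonneg (y : ℝ) : 0 ≤ MP_b30479_gt.G2.M13.τl y := MP_b30479_gt.G2.tr_nonneg _ _ _ _ _

theorem τl_mid (h0 : 5 / 100 ≤ y) (h1 : y ≤ 75 / 100) : MP_b30479_gt.G2.M13.τl y = 1 := by
  unfold MP_b30479_gt.G2.M13.τl MP_b30479_gt.G2.tr
  rw [sub_zero, min_eq_left (le_min ((one_le_div (by norm_num)).2 h0)
    ((one_le_div (by norm_num)).2 (by linarith only [h1])))]
  norm_num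

/-- mode up -/
theorem ne_up (h : H x T Tl pl k l w) (hx0 : 63 / 100 ≤ x)
    (hl : l.im = 16 / 100 * MP_b30479_gt.G2.M13.τl l.re) : l ≠ ⟨x, hh x⟩ := by
  have h1 := h.x1
  have h2 := hh_le hx0
  intro e
  rw [e] at hl
  simp only at hl
  rw [τl_mid (by linarith only [hx0, h1]) (by linarith only [hx0, h1])] at hl
  linarith only [hx0, hl, h1, h2]

end R13

end Pool.Agent.Work.NumG
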