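import Pool.Agent.Work.MP_b30479_gt.G2.WMF4a

/-!
# Far table `3/10`, bands of the height: rows 8
-/

namespace Pool.Agent.Work.NumG.F3

theorem nr120_c : C3 (fun j => [gM 1 j (lin (-27) 10000 (-43) 50)
    (lin (473) 1000 (7) 5)]) 1200 1350 630 830 1230 :=
  ⟨⟨1277612758195018794469353898242, by decide +kernel⟩,
  ⟨17730438758659, by decide +kernel⟩,
  ⟨40665347450690936284875230797146552241256731557990585008544636251693999955953255274541624426990401378964007628746817922, by decide +kernel⟩⟩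
theorem nr120 : RN 1200 1350 630 830 (((-27 : ℤ) : ℝ) / ((10000 : ℕ) : ℝ)) (((-43 : ℤ) : ℝ) / ((50 : ℕ) : ℝ))
    (((473 : ℤ) : ℝ) / ((1000 : ℕ) : ℝ)) (((7 : ℤ) : ℝ) / ((5 : ℕ) : ℝ)) :=
  RN_of (by decide) nr120_c

theorem nr135_c : C3 (fun j => [gM 1 j (lin (-117) 2500 (-8) 15)
    (lin (617) 1000 (1) 3)]) 1350 1500 630 830 1230 :=
  ⟨⟨77979294323426440092123394, by decide +kernel⟩,
  ⟨17730438758659, by decide +kernel⟩,
  ⟨249274110984990088005639822412795470906518180764435390667646956672950657214591494041052289317752087591869164345505263967480023894609878897870273552387567740028288404207731074, by decide +kernel⟩⟩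
theorem nr135 : RN 1350 1500 630 830 (((-117 : ℤ) : ℝ) / ((2500 : ℕ) : ℝ)) (((-8 : ℤ) : ℝ) / ((15 : ℕ) : ℝ))
    (((617 : ℤ) : ℝ) / ((1000 : ℕ) : ℝ)) (((1 : ℤ) : ℝ) / ((3 : ℕ) : ℝ)) :=
  RN_of (by decide) nr135_c

end Pool.Agent.Work.NumG.F3
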