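import Pool.Agent.Work.MP_b30479_gt.G2.WMF3r1
import Pool.Agent.Work.MP_b30479_gt.G2.WMF3r2
import Pool.Agent.Work.MP_b30479_gt.G2.WMF3r3
import Pool.Agent.Work.MP_b30479_gt.G2.WMF3r4
import Pool.Agent.Work.MP_b30479_gt.G2.WMF3r5
import Pool.Agent.Work.MP_b30479_gt.G2.WMF3r6
import Pool.Agent.Work.MP_b30479_gt.G2.WMF3r7
import Pool.Agent.Work.MP_b30479_gt.G2.WMF3r8
import Pool.Agent.Work.MP_b30479_gt.G2.WMF3r9
import Pool.Agent.Work.MP_b30479_gt.G2.WMF3r10
import Pool.Agent.Work.MP_b30479_gt.G2.WMF3r11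
import Pool.Agent.Work.MP_b30479_gt.G2.WMF3r12
import Pool.Agent.Work.MP_b30479_gt.G2.WMF3r13

/-!
# Far table `3/10`

`far_main`, `far_up`, `far_down`: lower bounds of `V2 <3/10, T> w - V2 <y, t> w` for every hinge `w`
in the slot `2` of a `3`, `t` on the ramp at `y` (main, up, down); piecewise linear tables.
-/

namespace Pool.Agent.Work.NumG.F3

open MP_b30479_gt MP_b30479_gt.G2 MP_b30479_gt.VOL

/-- main, value at `T = 0`; value at `0`: `120 / 1000` -/
def fa : List (ℤ × ℤ × ℕ) :=
  [(0, -19, 4), (2, 41, 60), (5, 68, 75), (10, 29, 50), (15, 11, 50), (20, 41, 100),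
    (30, 43, 100), (40, 19, 100), (50, -129, 100), (60, 109, 200), (80, 61, 100), (100, 81, 200),
    (125, 63, 125), (150, 79, 250), (175, 127, 250), (200, 37, 125), (225, 89, 250),
    (250, 153, 250), (275, 648, 1625), (288, 7, 26), (300, -13, 5), (312, 7, 130),
    (325, 88, 1625), (350, 23, 250), (375, 9, 50), (400, 3, 125), (450, 12, 125), (500, 13, 250),
    (550, 9, 500), (600, -2, 125), (650, -11, 250), (700, -61, 500), (750, -9, 250),
    (775, -33, 250)]

/-- main, slope in `-T`; value at `0`: `2600 / 1000` -/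
def fb : List (ℤ × ℤ × ℕ) :=
  [(0, -80, 1), (2, 100, 3), (5, -22, 3), (10, 6, 1), (20, 2, 1), (50, 56, 1), (60, -5, 2),
    (80, -3, 1), (100, -21, 10), (125, -8, 5), (150, -6, 5), (175, -2, 1), (200, -4, 5),
    (225, -4, 5), (250, -293, 250), (275, -341, 125), (288, -11, 10), (300, 169, 20),
    (312, -1, 20), (325, -6, 125), (350, -116, 125), (375, 47, 125), (400, 1, 5), (550, 2, 5),
    (600, 3, 5), (650, 3, 5), (700, 8, 5), (750, 243, 5), (775, -4, 5)]

/-- mode up; value at `0`: `120 / 1000` -/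
def fu : List (ℤ × ℤ × ℕ) :=
  [(0, 179, 10), (5, -11, 5), (10, -81, 10), (20, 11, 10), (30, 17, 20), (50, -941, 100),
    (100, 19, 50), (150, -1, 50), (200, 1, 22), (750, -6, 11), (760, -17, 1), (770, -93, 10),
    (780, -3, 5), (790, -2, 1)]

/-- mode up, slope in `-T`; value at `0`: `2600 / 1000` -/
def fv : List (ℤ × ℤ × ℕ) :=
  [(0, -130, 1), (10, 130, 1), (750, 20, 1)]

/-- mode down; value at `0`: `120 / 1000` -/
def fd : List (ℤ × ℤ × ℕ) :=
  [(0, 27, 4), (2, 19, 12), (5, 2, 3), (10, 11, 20), (20, 29, 60), (50, -781, 75), (100, 4, 25),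
    (150, 1, 10), (200, 3, 25), (250, 1, 50), (500, 3, 50), (600, 2, 25), (650, 3, 25),
    (750, -1143, 100), (760, -1, 1), (780, -13, 40)]

/-- intercept and slope of a piecewise linear function right of `lo` -/
def affQ (lo : ℤ) (y0 : ℤ) : List (ℤ × ℤ × ℕ) → ℚ × ℚ
  | [] => ((y0 : ℚ) / 1000, 0)
  | (a, n, d) :: r =>
    let p := affQ lo y0 r
    if a ≤ lo then (p.1 - (n : ℚ) / d * (a / 1000), p.2 + (n : ℚ) / d) else p

/-- no node inside -/
def okQ (lo hi : ℤ) : List (ℤ × ℤ × ℕ) → Bool
  | [] => true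
  | (a, _, _) :: r => (decide (a ≤ lo) || decide (hi ≤ a)) && okQ lo hi r

theorem plR_aff {lo hi y0 : ℤ} {y : ℝ} (h1 : (lo : ℝ) / 1000 ≤ y) (h2 : y ≤ (hi : ℝ) / 1000) :
    ∀ l : List (ℤ × ℤ × ℕ), okQ lo hi l = true →
      plR y y0 l = ((affQ lo y0 l).1 : ℝ) + ((affQ lo y0 l).2 : ℝ) * y
  | [], _ => by
    simp only [plR, affQ]
    push_cast
    ring
  | (a, n, d) :: r, h => by
    simp only [okQ, Bool.and_eq_true, Bool.or_eq_true, decide_eq_true_eq] at h
    have ih := plR_aff (y0 := y0) h1 h2 r h.2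
    simp only [plR, affQ]
    rw [ih]
    split_ifs with h3
    · have h4 : (a : ℝ) ≤ lo := by exact_mod_cast h3
      have h5 : (a : ℝ) / ((1000 : ℕ) : ℝ) ≤ y := by
        refine le_trans ?_ h1
        push_cast
        gcongr
      rw [max_eq_left (by linarith only [h1, h4])]
      push_cast
      ring
    · have h4 : (hi : ℝ) ≤ a := by exact_mod_cast h.1.resolve_left h3
      have h5 : y ≤ (a : ℝ) / ((1000 : ℕ) : ℝ) := by
        refine le_trans h2 ?_
        push_cast
        gcongr
      rw [max_eq_right (by linarith only [h2, h4])]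
      ring

theorem pl_of {lo hi y0 : ℤ} {y : ℝ} {l : List (ℤ × ℤ × ℕ)} (h1 : (lo : ℝ) / 1000 ≤ y)
    (h2 : y ≤ (hi : ℝ) / 1000) (hok : okQ lo hi l = true) {a c : ℤ} {b d : ℕ}
    (he : affQ lo y0 l = ((a : ℚ) / b, (c : ℚ) / d)) :
    plR y y0 l = (a : ℝ) / b + (c : ℝ) / d * y := by
  rw [plR_aff h1 h2 l hok, he]
  push_cast
  ring

/-- the statement on an interval, main -/
def PM (lo hi : ℤ) : Prop := ∀ y T a s : ℝ, (lo : ℝ) / 1000 ≤ y → y ≤ (hi : ℝ) / 1000 →
  -(123 / 1000) ≤ T → T ≤ 5 / 1000 → Wd a s →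
  plR y 120 fa - T * plR y 2600 fb ≤ dv T y (T * rr y) a s
def PU (lo hi : ℤ) : Prop := ∀ y T a s : ℝ, (lo : ℝ) / 1000 ≤ y → y ≤ (hi : ℝ) / 1000 →
  -(123 / 1000) ≤ T → T ≤ 0 → Wd a s →
  plR y 120 fu - T * plR y 2600 fv ≤ dv T y (16 / 100 * rr y) a s + 2 * Real.pi * (16 / 100 * rr y)
def PD (lo hi : ℤ) : Prop := ∀ y T a s : ℝ, (lo : ℝ) / 1000 ≤ y → y ≤ (hi : ℝ) / 1000 →
  0 ≤ T → T ≤ 5 / 1000 → Wd a s →
  plR y 120 fd - T * (24 / 10) ≤ dv T y (-(16 / 100 * rr y)) a s + 2 * Real.pi * (16 / 100 * rr y)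

theorem PM.append {lo mid hi : ℤ} (h1 : PM lo mid) (h2 : PM mid hi) : PM lo hi := by
  intro y T a s y1 y2 t1 t2 hw
  rcases le_total y ((mid : ℝ) / 1000) with h | h
  · exact h1 y T a s y1 h t1 t2 hw
  · exact h2 y T a s h y2 t1 t2 hw

theorem PU.append {lo mid hi : ℤ} (h1 : PU lo mid) (h2 : PU mid hi) : PU lo hi := by
  intro y T a s y1 y2 t1 t2 hw
  rcases le_total y ((mid : ℝ) / 1000) with h | h
  · exact h1 y T a s y1 h t1 t2 hw
  · exact h2 y T a s h y2 t1 t2 hw

theorem PD.append {lo mid hi : ℤ} (h1 : PD lo mid) (h2 : PD mid hi) : PD lo hi := by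
  intro y T a s y1 y2 t1 t2 hw
  rcases le_total y ((mid : ℝ) / 1000) with h | h
  · exact h1 y T a s y1 h t1 t2 hw
  · exact h2 y T a s h y2 t1 t2 hw

variable {lo hi : ℤ} {l h : ℕ} {a c p r : ℤ} {b d q s : ℕ}

theorem PM_of (e1 : (l : ℤ) = 10 * lo) (e2 : (h : ℤ) = 10 * hi)
    (hr : RM l h ((a : ℝ) / b) ((c : ℝ) / d) ((p : ℝ) / q) ((r : ℝ) / s))
    (o1 : okQ lo hi fa = true) (f1 : affQ lo 120 fa = ((a : ℚ) / b, (c : ℚ) / d))
    (o2 : okQ lo hi fb = true) (f2 : affQ lo 2600 fb = ((p : ℚ) / q, (r : ℚ) / s)) : PM lo hi := by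
  intro y T u v y1 y2 t1 t2 hw
  have e1' : (l : ℝ) = 10 * lo := by exact_mod_cast e1
  have e2' : (h : ℝ) = 10 * hi := by exact_mod_cast e2
  rw [pl_of y1 y2 o1 f1, pl_of y1 y2 o2 f2]
  exact hr y T u v (by rw [e1']; linarith only [y1]) (by rw [e2']; linarith only [y2]) t1 t2 hw

theorem PU_of (e1 : (l : ℤ) = 10 * lo) (e2 : (h : ℤ) = 10 * hi)
    (hr : RU l h ((a : ℝ) / b) ((c : ℝ) / d) ((p : ℝ) / q) ((r : ℝ) / s))
    (o1 : okQ lo hi fu = true) (f1 : affQ lo 120 fu = ((a : ℚ) / b, (c : ℚ) / d))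
    (o2 : okQ lo hi fv = true) (f2 : affQ lo 2600 fv = ((p : ℚ) / q, (r : ℚ) / s)) : PU lo hi := by
  intro y T u v y1 y2 t1 t2 hw
  have e1' : (l : ℝ) = 10 * lo := by exact_mod_cast e1
  have e2' : (h : ℝ) = 10 * hi := by exact_mod_cast e2
  rw [pl_of y1 y2 o1 f1, pl_of y1 y2 o2 f2]
  exact hr y T u v (by rw [e1']; linarith only [y1]) (by rw [e2']; linarith only [y2]) t1 t2 hw

theorem PD_of (e1 : (l : ℤ) = 10 * lo) (e2 : (h : ℤ) = 10 * hi)
    (hr : RD l h ((a : ℝ) / b) ((c : ℝ) / d) (((12 : ℤ) : ℝ) / ((5 : ℕ) : ℝ))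
      (((0 : ℤ) : ℝ) / ((1 : ℕ) : ℝ)))
    (o1 : okQ lo hi fd = true) (f1 : affQ lo 120 fd = ((a : ℚ) / b, (c : ℚ) / d)) : PD lo hi := by
  intro y T u v y1 y2 t1 t2 hw
  have e1' : (l : ℝ) = 10 * lo := by exact_mod_cast e1
  have e2' : (h : ℝ) = 10 * hi := by exact_mod_cast e2
  rw [pl_of y1 y2 o1 f1]
  have h3 := hr y T u v (by rw [e1']; linarith only [y1]) (by rw [e2']; linarith only [y2]) t1 t2 hw
  push_cast at h3
  linarith only [h3]

theorem pm0 : PM 0 2 :=
  PM_of (by norm_num) (by norm_num) (zm.append m0) (by decide +kernel) (by decide +kernel)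
    (by decide +kernel) (by decide +kernel)

theorem pm2 : PM 2 5 :=
  PM_of (by norm_num) (by norm_num) m2 (by decide +kernel) (by decide +kernel)
    (by decide +kernel) (by decide +kernel)

theorem pm5 : PM 5 10 :=
  PM_of (by norm_num) (by norm_num) m5 (by decide +kernel) (by decide +kernel)
    (by decide +kernel) (by decide +kernel)

theorem pm10 : PM 10 15 :=
  PM_of (by norm_num) (by norm_num) m10 (by decide +kernel) (by decide +kernel)
    (by decide +kernel) (by decide +kernel)

theorem pm15 : PM 15 20 :=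
  PM_of (by norm_num) (by norm_num) m15 (by decide +kernel) (by decide +kernel)
    (by decide +kernel) (by decide +kernel)

theorem pm20 : PM 20 30 :=
  PM_of (by norm_num) (by norm_num) m20 (by decide +kernel) (by decide +kernel)
    (by decide +kernel) (by decide +kernel)

theorem pm30 : PM 30 40 :=
  PM_of (by norm_num) (by norm_num) m30 (by decide +kernel) (by decide +kernel)
    (by decide +kernel) (by decide +kernel)

theorem pm40 : PM 40 50 :=
  PM_of (by norm_num) (by norm_num) m40 (by decide +kernel) (by decide +kernel)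
    (by decide +kernel) (by decide +kernel)

theorem pm50 : PM 50 60 :=
  PM_of (by norm_num) (by norm_num) m50 (by decide +kernel) (by decide +kernel)
    (by decide +kernel) (by decide +kernel)

theorem pm60 : PM 60 80 :=
  PM_of (by norm_num) (by norm_num) m60 (by decide +kernel) (by decide +kernel)
    (by decide +kernel) (by decide +kernel)

theorem pm80 : PM 80 100 :=
  PM_of (by norm_num) (by norm_num) m80 (by decide +kernel) (by decide +kernel)
    (by decide +kernel) (by decide +kernel)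

theorem pm100 : PM 100 125 :=
  PM_of (by norm_num) (by norm_num) m100 (by decide +kernel) (by decide +kernel)
    (by decide +kernel) (by decide +kernel)

theorem pm125 : PM 125 150 :=
  PM_of (by norm_num) (by norm_num) m125 (by decide +kernel) (by decide +kernel)
    (by decide +kernel) (by decide +kernel)

theorem pm150 : PM 150 175 :=
  PM_of (by norm_num) (by norm_num) m150 (by decide +kernel) (by decide +kernel)
    (by decide +kernel) (by decide +kernel)

theorem pm175 : PM 175 200 :=
  PM_of (by norm_num) (by norm_num) m175 (by decide +kernel) (by decide +kernel)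
    (by decide +kernel) (by decide +kernel)

theorem pm200 : PM 200 225 :=
  PM_of (by norm_num) (by norm_num) m200 (by decide +kernel) (by decide +kernel)
    (by decide +kernel) (by decide +kernel)

theorem pm225 : PM 225 250 :=
  PM_of (by norm_num) (by norm_num) m225 (by decide +kernel) (by decide +kernel)
    (by decide +kernel) (by decide +kernel)

theorem pm250 : PM 250 275 :=
  PM_of (by norm_num) (by norm_num) m250 (by decide +kernel) (by decide +kernel)
    (by decide +kernel) (by decide +kernel)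

theorem pm350 : PM 350 375 :=
  PM_of (by norm_num) (by norm_num) m350 (by decide +kernel) (by decide +kernel)
    (by decide +kernel) (by decide +kernel)

theorem pm375 : PM 375 400 :=
  PM_of (by norm_num) (by norm_num) m375 (by decide +kernel) (by decide +kernel)
    (by decide +kernel) (by decide +kernel)

theorem pm400 : PM 400 450 :=
  PM_of (by norm_num) (by norm_num) m400 (by decide +kernel) (by decide +kernel)
    (by decide +kernel) (by decide +kernel)

theorem pm450 : PM 450 500 :=
  PM_of (by norm_num) (by norm_num) m450 (by decide +kernel) (by decide +kernel)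
    (by decide +kernel) (by decide +kernel)

theorem pm500 : PM 500 550 :=
  PM_of (by norm_num) (by norm_num) m500 (by decide +kernel) (by decide +kernel)
    (by decide +kernel) (by decide +kernel)

theorem pm550 : PM 550 600 :=
  PM_of (by norm_num) (by norm_num) m550 (by decide +kernel) (by decide +kernel)
    (by decide +kernel) (by decide +kernel)

theorem pm600 : PM 600 650 :=
  PM_of (by norm_num) (by norm_num) m600 (by decide +kernel) (by decide +kernel)
    (by decide +kernel) (by decide +kernel)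

theorem pm650 : PM 650 700 :=
  PM_of (by norm_num) (by norm_num) m650 (by decide +kernel) (by decide +kernel)
    (by decide +kernel) (by decide +kernel)

theorem pm700 : PM 700 750 :=
  PM_of (by norm_num) (by norm_num) m700 (by decide +kernel) (by decide +kernel)
    (by decide +kernel) (by decide +kernel)

theorem pm750 : PM 750 775 :=
  PM_of (by norm_num) (by norm_num) m750 (by decide +kernel) (by decide +kernel)
    (by decide +kernel) (by decide +kernel)

theorem pm775 : PM 775 800 :=
  PM_of (by norm_num) (by norm_num) m775 (by decide +kernel) (by decide +kernel)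
    (by decide +kernel) (by decide +kernel)

theorem pu0 : PU 0 5 :=
  PU_of (by norm_num) (by norm_num) (zu.append u0) (by decide +kernel) (by decide +kernel)
    (by decide +kernel) (by decide +kernel)

theorem pu5 : PU 5 10 :=
  PU_of (by norm_num) (by norm_num) u5 (by decide +kernel) (by decide +kernel)
    (by decide +kernel) (by decide +kernel)

theorem pu10 : PU 10 20 :=
  PU_of (by norm_num) (by norm_num) u10 (by decide +kernel) (by decide +kernel)
    (by decide +kernel) (by decide +kernel)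

theorem pu20 : PU 20 30 :=
  PU_of (by norm_num) (by norm_num) u20 (by decide +kernel) (by decide +kernel)
    (by decide +kernel) (by decide +kernel)

theorem pu30 : PU 30 50 :=
  PU_of (by norm_num) (by norm_num) u30 (by decide +kernel) (by decide +kernel)
    (by decide +kernel) (by decide +kernel)

theorem pu50 : PU 50 100 :=
  PU_of (by norm_num) (by norm_num) u50 (by decide +kernel) (by decide +kernel)
    (by decide +kernel) (by decide +kernel)

theorem pu100 : PU 100 150 :=
  PU_of (by norm_num) (by norm_num) u100 (by decide +kernel) (by decide +kernel)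
    (by decide +kernel) (by decide +kernel)

theorem pu150 : PU 150 200 :=
  PU_of (by norm_num) (by norm_num) u150 (by decide +kernel) (by decide +kernel)
    (by decide +kernel) (by decide +kernel)

theorem pu200 : PU 200 300 :=
  PU_of (by norm_num) (by norm_num) u200 (by decide +kernel) (by decide +kernel)
    (by decide +kernel) (by decide +kernel)

theorem pu300 : PU 300 500 :=
  PU_of (by norm_num) (by norm_num) u300 (by decide +kernel) (by decide +kernel)
    (by decide +kernel) (by decide +kernel)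

theorem pu500 : PU 500 600 :=
  PU_of (by norm_num) (by norm_num) u500 (by decide +kernel) (by decide +kernel)
    (by decide +kernel) (by decide +kernel)

theorem pu600 : PU 600 750 :=
  PU_of (by norm_num) (by norm_num) u600 (by decide +kernel) (by decide +kernel)
    (by decide +kernel) (by decide +kernel)

theorem pu750 : PU 750 760 :=
  PU_of (by norm_num) (by norm_num) u750 (by decide +kernel) (by decide +kernel)
    (by decide +kernel) (by decide +kernel)

theorem pu760 : PU 760 770 :=
  PU_of (by norm_num) (by norm_num) u760 (by decide +kernel) (by decide +kernel)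
    (by decide +kernel) (by decide +kernel)

theorem pu770 : PU 770 780 :=
  PU_of (by norm_num) (by norm_num) u770 (by decide +kernel) (by decide +kernel)
    (by decide +kernel) (by decide +kernel)

theorem pu780 : PU 780 790 :=
  PU_of (by norm_num) (by norm_num) u780 (by decide +kernel) (by decide +kernel)
    (by decide +kernel) (by decide +kernel)

theorem pu790 : PU 790 800 :=
  PU_of (by norm_num) (by norm_num) u790 (by decide +kernel) (by decide +kernel)
    (by decide +kernel) (by decide +kernel)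

theorem pd0 : PD 0 2 :=
  PD_of (by norm_num) (by norm_num) (zd.append d0) (by decide +kernel) (by decide +kernel)

theorem pd2 : PD 2 5 :=
  PD_of (by norm_num) (by norm_num) d2 (by decide +kernel) (by decide +kernel)

theorem pd5 : PD 5 10 :=
  PD_of (by norm_num) (by norm_num) d5 (by decide +kernel) (by decide +kernel)

theorem pd10 : PD 10 20 :=
  PD_of (by norm_num) (by norm_num) d10 (by decide +kernel) (by decide +kernel)

theorem pd20 : PD 20 50 :=
  PD_of (by norm_num) (by norm_num) d20 (by decide +kernel) (by decide +kernel)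

theorem pd50 : PD 50 100 :=
  PD_of (by norm_num) (by norm_num) d50 (by decide +kernel) (by decide +kernel)

theorem pd100 : PD 100 150 :=
  PD_of (by norm_num) (by norm_num) d100 (by decide +kernel) (by decide +kernel)

theorem pd150 : PD 150 200 :=
  PD_of (by norm_num) (by norm_num) d150 (by decide +kernel) (by decide +kernel)

theorem pd200 : PD 200 250 :=
  PD_of (by norm_num) (by norm_num) d200 (by decide +kernel) (by decide +kernel)

theorem pd250 : PD 250 500 :=
  PD_of (by norm_num) (by norm_num) d250 (by decide +kernel) (by decide +kernel)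

theorem pd500 : PD 500 600 :=
  PD_of (by norm_num) (by norm_num) d500 (by decide +kernel) (by decide +kernel)

theorem pd600 : PD 600 650 :=
  PD_of (by norm_num) (by norm_num) d600 (by decide +kernel) (by decide +kernel)

theorem pd650 : PD 650 750 :=
  PD_of (by norm_num) (by norm_num) d650 (by decide +kernel) (by decide +kernel)

theorem pd750 : PD 750 760 :=
  PD_of (by norm_num) (by norm_num) d750 (by decide +kernel) (by decide +kernel)

theorem pd760 : PD 760 780 :=
  PD_of (by norm_num) (by norm_num) d760 (by decide +kernel) (by decide +kernel)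

theorem pd780 : PD 780 800 :=
  PD_of (by norm_num) (by norm_num) d780 (by decide +kernel) (by decide +kernel)

/-! ### slope rows -/

/-- the statement at a point with the height `T` -/
def AtP (y : ℝ) : Prop := ∀ T a s : ℝ, -(123 / 1000) ≤ T → T ≤ 5 / 1000 → Wd a s →
  plR y 120 fa - T * plR y 2600 fb ≤ dv T y T a s

theorem stepL {α γ : ℚ} (e1 : (l : ℤ) = 10 * lo) (e2 : (h : ℤ) = 10 * hi)
    (hr : SL l h ((a : ℝ) / b) ((c : ℝ) / d))
    (o1 : okQ lo hi fa = true) (f1 : affQ lo 120 fa = (α, (a : ℚ) / b))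
    (o2 : okQ lo hi fb = true) (f2 : affQ lo 2600 fb = (γ, -((c : ℚ) / d)))
    (hb : AtP ((hi : ℝ) / 1000)) {y : ℝ} (y1 : (lo : ℝ) / 1000 ≤ y) (y2 : y ≤ (hi : ℝ) / 1000) :
    AtP y := by
  intro T u v t1 t2 hw
  have e1' : (l : ℝ) = 10 * lo := by exact_mod_cast e1
  have e2' : (h : ℝ) = 10 * hi := by exact_mod_cast e2
  have h1 := hb T u v t1 t2 hw
  have h2 := hr y ((hi : ℝ) / 1000) T u v (by rw [e1']; linarith only [y1]) y2 (by rw [e2']; linarith only [])
    t1 t2 hw
  rw [plR_aff (y1.trans y2) le_rfl fa o1, plR_aff (y1.trans y2) le_rfl fb o2, f1, f2] at h1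
  rw [plR_aff y1 y2 fa o1, plR_aff y1 y2 fb o2, f1, f2]
  unfold dv at h1 ⊢
  push_cast at h1 ⊢
  linarith only [h2, h1]

theorem stepR {α γ : ℚ} (e1 : (l : ℤ) = 10 * lo) (e2 : (h : ℤ) = 10 * hi)
    (hr : SR l h ((a : ℝ) / b) ((c : ℝ) / d))
    (o1 : okQ lo hi fa = true) (f1 : affQ lo 120 fa = (α, -((a : ℚ) / b)))
    (o2 : okQ lo hi fb = true) (f2 : affQ lo 2600 fb = (γ, (c : ℚ) / d))
    (hb : AtP ((lo : ℝ) / 1000)) {y : ℝ} (y1 : (lo : ℝ) / 1000 ≤ y) (y2 : y ≤ (hi : ℝ) / 1000) :
    AtP y := by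
  intro T u v t1 t2 hw
  have e1' : (l : ℝ) = 10 * lo := by exact_mod_cast e1
  have e2' : (h : ℝ) = 10 * hi := by exact_mod_cast e2
  have h1 := hb T u v t1 t2 hw
  have h2 := hr ((lo : ℝ) / 1000) y T u v (by rw [e1']; linarith only []) y1 (by rw [e2']; linarith only [y2])
    t1 t2 hw
  rw [plR_aff le_rfl (y1.trans y2) fa o1, plR_aff le_rfl (y1.trans y2) fb o2, f1, f2] at h1
  rw [plR_aff y1 y2 fa o1, plR_aff y1 y2 fb o2, f1, f2]
  unfold dv at h1 ⊢
  push_cast at h1 ⊢
  linarith only [h2, h1]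

theorem atP_300 : AtP (((300 : ℤ) : ℝ) / 1000) := by
  intro T a s t1 t2 hw
  have h1 : plR (((300 : ℤ) : ℝ) / 1000) 120 fa = 0 := by
    rw [plR_aff (lo := 288) (hi := 300) (by norm_num) le_rfl fa (by decide +kernel),
      show affQ 288 120 fa = (-(33 / 50), 11 / 5) by decide +kernel]
    push_cast
    norm_num
  have h2 : plR (((300 : ℤ) : ℝ) / 1000) 2600 fb = 0 := by
    rw [plR_aff (lo := 288) (hi := 300) (by norm_num) le_rfl fb (by decide +kernel),
      show affQ 288 2600 fb = (27 / 10, -(9 / 1)) by decide +kernel]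
    push_cast
    norm_num
  rw [h1, h2]
  unfold dv
  push_cast
  norm_num

theorem PM_atP (h1 : 50 ≤ lo) (h2 : hi ≤ 750)
    (h : ∀ y : ℝ, (lo : ℝ) / 1000 ≤ y → y ≤ (hi : ℝ) / 1000 → AtP y) : PM lo hi := by
  intro y T a s y1 y2 t1 t2 hw
  have e1 : (50 : ℝ) ≤ lo := by exact_mod_cast h1
  have e2 : (hi : ℝ) ≤ 750 := by exact_mod_cast h2
  have e : rr y = 1 := by
    rw [rr_val (by linarith only [y1, e1]) (by linarith only [y2, e2])]
    split_ifs with h3 h4
    · linarith only [y1, e1, h3]
    · rfl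
    · exact absurd (by linarith only [y2, e2, h4]) h4
  rw [e, mul_one]
  exact h y y1 y2 T a s t1 t2 hw

theorem at288 {y : ℝ} (y1 : ((288 : ℤ) : ℝ) / 1000 ≤ y) (y2 : y ≤ ((300 : ℤ) : ℝ) / 1000) :
    AtP y :=
  stepL (α := -(33 / 50)) (γ := 27 / 10) (by norm_num) (by norm_num) L288 (by decide +kernel)
    (by decide +kernel) (by decide +kernel) (by decide +kernel) atP_300 y1 y2

theorem pm288 : PM 288 300 := PM_atP (by norm_num) (by norm_num) fun _ y1 y2 => at288 y1 y2

theorem at275 {y : ℝ} (y1 : ((275 : ℤ) : ℝ) / 1000 ≤ y) (y2 : y ≤ ((288 : ℤ) : ℝ) / 1000) :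
    AtP y :=
  stepL (α := -(1893 / 3250)) (γ := 2979 / 1250) (by norm_num) (by norm_num) L275 (by decide +kernel)
    (by decide +kernel) (by decide +kernel) (by decide +kernel) (at288 le_rfl (by norm_num)) y1 y2

theorem pm275 : PM 275 288 := PM_atP (by norm_num) (by norm_num) fun _ y1 y2 => at275 y1 y2

theorem at300 {y : ℝ} (y1 : ((300 : ℤ) : ℝ) / 1000 ≤ y) (y2 : y ≤ ((312 : ℤ) : ℝ) / 1000) :
    AtP y :=
  stepR (α := 3 / 25) (γ := 33 / 200) (by norm_num) (by norm_num) R300 (by decide +kernel)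
    (by decide +kernel) (by decide +kernel) (by decide +kernel) atP_300 y1 y2

theorem pm300 : PM 300 312 := PM_atP (by norm_num) (by norm_num) fun _ y1 y2 => at300 y1 y2

theorem at312 {y : ℝ} (y1 : ((312 : ℤ) : ℝ) / 1000 ≤ y) (y2 : y ≤ ((325 : ℤ) : ℝ) / 1000) :
    AtP y :=
  stepR (α := 129 / 1250) (γ := 903 / 5000) (by norm_num) (by norm_num) R312 (by decide +kernel)
    (by decide +kernel) (by decide +kernel) (by decide +kernel) (at300 (by norm_num) le_rfl) y1 y2

theorem pm312 : PM 312 325 := PM_atP (by norm_num) (by norm_num) fun _ y1 y2 => at312 y1 y2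

theorem at325 {y : ℝ} (y1 : ((325 : ℤ) : ℝ) / 1000 ≤ y) (y2 : y ≤ ((350 : ℤ) : ℝ) / 1000) :
    AtP y :=
  stepR (α := 107 / 1250) (γ := 981 / 5000) (by norm_num) (by norm_num) R325 (by decide +kernel)
    (by decide +kernel) (by decide +kernel) (by decide +kernel) (at312 (by norm_num) le_rfl) y1 y2

theorem pm325 : PM 325 350 := PM_atP (by norm_num) (by norm_num) fun _ y1 y2 => at325 y1 y2

/-! ### result -/

theorem pM : PM 0 800 :=
  (((((((((((((((((((((((((((((((((pm0).append pm2).append pm5).append pm10).append pm15).append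
    pm20).append pm30).append pm40).append pm50).append pm60).append pm80).append pm100).append
    pm125).append pm150).append pm175).append pm200).append pm225).append pm250).append
    pm275).append pm288).append pm300).append pm312).append pm325).append pm350).append
    pm375).append pm400).append pm450).append pm500).append pm550).append pm600).append
    pm650).append pm700).append pm750).append pm775

theorem pU : PU 0 800 :=
  ((((((((((((((((pu0).append pu5).append pu10).append pu20).append pu30).append pu50).append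
    pu100).append pu150).append pu200).append pu300).append pu500).append pu600).append
    pu750).append pu760).append pu770).append pu780).append pu790

theorem pD : PD 0 800 :=
  (((((((((((((((pd0).append pd2).append pd5).append pd10).append pd20).append pd50).append
    pd100).append pd150).append pd200).append pd250).append pd500).append pd600).append
    pd650).append pd750).append pd760).append pd780

/-- main -/
theorem far_main {w : ℂ} {T y : ℝ} (w0 : 0 ≤ w.re) (w1 : w.re ≤ 65 / 100)
    (w2 : |w.im| ≤ 16 / 100 * MP_b30479_gt.G2.tr 0 (65 / 100) (13 / 100) (29 / 100) w.re)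
    (t1 : -(123 / 1000) ≤ T) (t2 : T ≤ 5 / 1000) (y0 : 0 ≤ y) (y1 : y ≤ 8 / 10) :
    plR y 120 fa - T * plR y 2600 fb ≤ MP_b30479_gt.G2.V2 ⟨3 / 10, T⟩ w -
      MP_b30479_gt.G2.V2 ⟨y, T * MP_b30479_gt.G2.tr 0 (8 / 10) (5 / 100) (5 / 100) y⟩ w :=
  pM y T w.re w.im (by push_cast; linarith only [y0]) (by push_cast; linarith only [y1]) t1 t2 ⟨w0, w1, w2⟩

/-- mode up -/
theorem far_up {w : ℂ} {T y : ℝ} (w0 : 0 ≤ w.re) (w1 : w.re ≤ 65 / 100)
    (w2 : |w.im| ≤ 16 / 100 * MP_b30479_gt.G2.tr 0 (65 / 100) (13 / 100) (29 / 100) w.re)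
    (t1 : -(123 / 1000) ≤ T) (t2 : T ≤ 0) (y0 : 0 ≤ y) (y1 : y ≤ 8 / 10) :
    plR y 120 fu - T * plR y 2600 fv ≤ MP_b30479_gt.G2.V2 ⟨3 / 10, T⟩ w -
      MP_b30479_gt.G2.V2 ⟨y, 16 / 100 * MP_b30479_gt.G2.tr 0 (8 / 10) (5 / 100) (5 / 100) y⟩ w +
      2 * Real.pi * (16 / 100 * MP_b30479_gt.G2.tr 0 (8 / 10) (5 / 100) (5 / 100) y) :=
  pU y T w.re w.im (by push_cast; linarith only [y0]) (by push_cast; linarith only [y1]) t1 t2 ⟨w0, w1, w2⟩

/-- mode down -/
theorem far_down {w : ℂ} {T y : ℝ} (w0 : 0 ≤ w.re) (w1 : w.re ≤ 65 / 100)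
    (w2 : |w.im| ≤ 16 / 100 * MP_b30479_gt.G2.tr 0 (65 / 100) (13 / 100) (29 / 100) w.re)
    (t1 : 0 ≤ T) (t2 : T ≤ 5 / 1000) (y0 : 0 ≤ y) (y1 : y ≤ 8 / 10) :
    plR y 120 fd - T * (24 / 10) ≤ MP_b30479_gt.G2.V2 ⟨3 / 10, T⟩ w -
      MP_b30479_gt.G2.V2 ⟨y, -(16 / 100 * MP_b30479_gt.G2.tr 0 (8 / 10) (5 / 100) (5 / 100) y)⟩ w +
      2 * Real.pi * (16 / 100 * MP_b30479_gt.G2.tr 0 (8 / 10) (5 / 100) (5 / 100) y) :=
  pD y T w.re w.im (by push_cast; linarith only [y0]) (by push_cast; linarith only [y1]) t1 t2 ⟨w0, w1, w2⟩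

end Pool.Agent.Work.NumG.F3
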