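import Pool.Agent.Work.MP_b30479_gt.G2.WMF4r1
import Pool.Agent.Work.MP_b30479_gt.G2.WMF4r2
import Pool.Agent.Work.MP_b30479_gt.G2.WMF4r3
import Pool.Agent.Work.MP_b30479_gt.G2.WMF4r4
import Pool.Agent.Work.MP_b30479_gt.G2.WMF4r5
import Pool.Agent.Work.MP_b30479_gt.G2.WMF4r6
import Pool.Agent.Work.MP_b30479_gt.G2.WMF4r7
import Pool.Agent.Work.MP_b30479_gt.G2.WMF4r8
import Pool.Agent.Work.MP_b30479_gt.G2.WMFar30

/-!
# Far table `3/10`, main, precise version for `y` in `[2/100, 15/100]`

Three bands of the height `T`: `[-9/100, -75/1000]` (`ga`, `gb`), `[-75/1000, -6/100]` (`ha`, `hb`),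
`[-6/100, -4/100]` (`ka`, `kb`).
-/

namespace Pool.Agent.Work.NumG.F3

open MP_b30479_gt MP_b30479_gt.G2 MP_b30479_gt.VOL

/-- value at `T = 0`, band 1 -/
def ga : List (ℤ × ℤ × ℕ) :=
  [(0, 947, 200), (20, -1007, 200), (22, -7, 5), (25, -21, 20), (27, 1, 4), (30, 1, 5),
    (32, 2, 5), (35, -3, 20), (37, 13, 60), (40, 2, 15), (42, 2, 15), (45, 1, 6), (47, 1, 15),
    (50, -229, 150), (55, 7, 50), (60, 7, 50), (65, 4, 25), (70, 7, 50), (75, 4, 25),
    (80, -3, 50), (85, 3, 10), (90, 3, 25), (95, 3, 25), (100, 19, 100), (110, 11, 50),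
    (120, 83, 300), (135, 1, 3)]

/-- slope in `-T`, band 1 -/
def gb : List (ℤ × ℤ × ℕ) :=
  [(0, 637, 10), (20, -1327, 10), (22, 53, 3), (25, 40, 3), (27, -2, 3), (30, -1, 3),
    (32, -1, 1), (35, -1, 2), (37, -5, 6), (40, -2, 3), (42, -2, 3), (45, -5, 6), (47, -1, 2),
    (50, 287, 5), (55, -4, 5), (60, -1, 1), (65, -1, 1), (70, -4, 5), (75, -1, 1), (80, -3, 5),
    (85, -4, 5), (90, -3, 5), (95, -4, 5), (100, -9, 10), (110, -11, 10), (120, -6, 5),
    (135, -19, 15)]

/-- value at `T = 0`, band 2 -/
def ha : List (ℤ × ℤ × ℕ) :=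
  [(0, 337, 100), (20, -487, 100), (22, 11, 15), (25, 17, 30), (27, -1, 5), (30, -1, 5),
    (32, 1, 30), (35, -29, 60), (37, -7, 60), (40, -2, 15), (42, -1, 6), (45, -2, 15),
    (47, -1, 10), (50, -31, 25), (55, 7, 50), (60, 1, 5), (65, 7, 50), (70, 4, 25), (75, 4, 25),
    (80, -1, 50), (85, 7, 25), (90, 4, 25), (95, 1, 10), (100, 21, 100), (110, 21, 100),
    (120, 43, 150), (135, 49, 150)]

/-- slope in `-T`, band 2 -/
def hb : List (ℤ × ℤ × ℕ) :=
  [(0, 819, 10), (20, -672, 5), (22, -67, 6), (25, -25, 3), (27, 16, 3), (30, 14, 3), (32, 4, 1),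
    (35, 9, 2), (37, 19, 6), (40, 17, 6), (42, 7, 2), (45, 3, 1), (47, 5, 3), (50, 812, 15),
    (55, -7, 5), (60, -6, 5), (65, -6, 5), (70, -1, 1), (75, -1, 1), (80, -1, 1), (85, -4, 5),
    (90, -4, 5), (95, -4, 5), (100, -1, 1), (110, -1, 1), (120, -4, 3), (135, -17, 15)]

/-- value at `T = 0`, band 3 -/
def ka : List (ℤ × ℤ × ℕ) :=
  [(0, 661, 200), (20, -1001, 200), (22, 2, 15), (25, 1, 15), (27, 1, 10), (30, 1, 10),
    (32, 1, 3), (35, -11, 60), (37, 1, 20), (40, 1, 20), (42, 1, 12), (45, 1, 15), (47, 0, 1),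
    (50, -21, 10), (55, 1, 5), (60, 11, 50), (65, 4, 25), (70, 4, 25), (75, 9, 50), (80, -1, 50),
    (85, 3, 10), (90, 7, 50), (95, 1, 10), (100, 21, 100), (110, 11, 50), (120, 27, 100),
    (135, 49, 150)]

/-- slope in `-T`, band 3 -/
def kb : List (ℤ × ℤ × ℕ) :=
  [(0, 83, 1), (20, -265, 2), (22, -1, 2), (25, 0, 1), (27, -2, 3), (30, 1, 6), (32, -1, 2),
    (35, -1, 2), (37, -1, 6), (40, 1, 6), (42, -5, 6), (45, -1, 6), (47, -1, 6), (50, 1021, 15),
    (55, -9, 5), (60, -9, 5), (65, -7, 5), (70, -6, 5), (75, -6, 5), (80, -1, 1), (85, -4, 5),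
    (90, -1, 1), (95, -3, 5), (100, -1, 1), (110, -6, 5), (120, -1, 1), (135, -16, 15)]

/-- the statement on an interval -/
def PN (t0 t1 : ℕ) (l1 l2 : List (ℤ × ℤ × ℕ)) (lo hi : ℤ) : Prop := ∀ y T a s : ℝ,
  (lo : ℝ) / 1000 ≤ y → y ≤ (hi : ℝ) / 1000 → ((t0 : ℝ) - (1230 : ℕ)) / 10000 ≤ T →
  T ≤ ((t1 : ℝ) - (1230 : ℕ)) / 10000 → Wd a s →
  plR y 0 l1 - T * plR y 0 l2 ≤ dv T y (T * rr y) a s

theorem PN.append {t0 t1 : ℕ} {l1 l2 : List (ℤ × ℤ × ℕ)} {lo mid hi : ℤ}
    (h1 : PN t0 t1 l1 l2 lo mid) (h2 : PN t0 t1 l1 l2 mid hi) : PN t0 t1 l1 l2 lo hi := by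
  intro y T a s y1 y2 a1 a2 hw
  rcases le_total y ((mid : ℝ) / 1000) with h | h
  · exact h1 y T a s y1 h a1 a2 hw
  · exact h2 y T a s h y2 a1 a2 hw

theorem PN_of {t0 t1 : ℕ} {l1 l2 : List (ℤ × ℤ × ℕ)} {lo hi : ℤ} {l h : ℕ} {a c p r : ℤ}
    {b d q s : ℕ} (e1 : (l : ℤ) = 10 * lo) (e2 : (h : ℤ) = 10 * hi)
    (hr : RN l h t0 t1 ((a : ℝ) / b) ((c : ℝ) / d) ((p : ℝ) / q) ((r : ℝ) / s))
    (o1 : okQ lo hi l1 = true) (f1 : affQ lo 0 l1 = ((a : ℚ) / b, (c : ℚ) / d))
    (o2 : okQ lo hi l2 = true) (f2 : affQ lo 0 l2 = ((p : ℚ) / q, (r : ℚ) / s)) :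
    PN t0 t1 l1 l2 lo hi := by
  intro y T u v y1 y2 a1 a2 hw
  have e1' : (l : ℝ) = 10 * lo := by exact_mod_cast e1
  have e2' : (h : ℝ) = 10 * hi := by exact_mod_cast e2
  rw [pl_of y1 y2 o1 f1, pl_of y1 y2 o2 f2]
  exact hr y T u v (by rw [e1']; linarith only [y1]) (by rw [e2']; linarith only [y2]) a1 a2 hw

theorem pnp20 : PN 330 480 ga gb 20 22 :=
  PN_of (by norm_num) (by norm_num) np20 (by decide +kernel) (by decide +kernel)
    (by decide +kernel) (by decide +kernel)

theorem pnp22 : PN 330 480 ga gb 22 25 :=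
  PN_of (by norm_num) (by norm_num) np22 (by decide +kernel) (by decide +kernel)
    (by decide +kernel) (by decide +kernel)

theorem pnp25 : PN 330 480 ga gb 25 27 :=
  PN_of (by norm_num) (by norm_num) np25 (by decide +kernel) (by decide +kernel)
    (by decide +kernel) (by decide +kernel)

theorem pnp27 : PN 330 480 ga gb 27 30 :=
  PN_of (by norm_num) (by norm_num) np27 (by decide +kernel) (by decide +kernel)
    (by decide +kernel) (by decide +kernel)

theorem pnp30 : PN 330 480 ga gb 30 32 :=
  PN_of (by norm_num) (by norm_num) np30 (by decide +kernel) (by decide +kernel)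
    (by decide +kernel) (by decide +kernel)

theorem pnp32 : PN 330 480 ga gb 32 35 :=
  PN_of (by norm_num) (by norm_num) np32 (by decide +kernel) (by decide +kernel)
    (by decide +kernel) (by decide +kernel)

theorem pnp35 : PN 330 480 ga gb 35 37 :=
  PN_of (by norm_num) (by norm_num) np35 (by decide +kernel) (by decide +kernel)
    (by decide +kernel) (by decide +kernel)

theorem pnp37 : PN 330 480 ga gb 37 40 :=
  PN_of (by norm_num) (by norm_num) np37 (by decide +kernel) (by decide +kernel)
    (by decide +kernel) (by decide +kernel)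

theorem pnp40 : PN 330 480 ga gb 40 42 :=
  PN_of (by norm_num) (by norm_num) np40 (by decide +kernel) (by decide +kernel)
    (by decide +kernel) (by decide +kernel)

theorem pnp42 : PN 330 480 ga gb 42 45 :=
  PN_of (by norm_num) (by norm_num) np42 (by decide +kernel) (by decide +kernel)
    (by decide +kernel) (by decide +kernel)

theorem pnp45 : PN 330 480 ga gb 45 47 :=
  PN_of (by norm_num) (by norm_num) np45 (by decide +kernel) (by decide +kernel)
    (by decide +kernel) (by decide +kernel)

theorem pnp47 : PN 330 480 ga gb 47 50 :=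
  PN_of (by norm_num) (by norm_num) np47 (by decide +kernel) (by decide +kernel)
    (by decide +kernel) (by decide +kernel)

theorem pnp50 : PN 330 480 ga gb 50 55 :=
  PN_of (by norm_num) (by norm_num) np50 (by decide +kernel) (by decide +kernel)
    (by decide +kernel) (by decide +kernel)

theorem pnp55 : PN 330 480 ga gb 55 60 :=
  PN_of (by norm_num) (by norm_num) np55 (by decide +kernel) (by decide +kernel)
    (by decide +kernel) (by decide +kernel)

theorem pnp60 : PN 330 480 ga gb 60 65 :=
  PN_of (by norm_num) (by norm_num) np60 (by decide +kernel) (by decide +kernel)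
    (by decide +kernel) (by decide +kernel)

theorem pnp65 : PN 330 480 ga gb 65 70 :=
  PN_of (by norm_num) (by norm_num) np65 (by decide +kernel) (by decide +kernel)
    (by decide +kernel) (by decide +kernel)

theorem pnp70 : PN 330 480 ga gb 70 75 :=
  PN_of (by norm_num) (by norm_num) np70 (by decide +kernel) (by decide +kernel)
    (by decide +kernel) (by decide +kernel)

theorem pnp75 : PN 330 480 ga gb 75 80 :=
  PN_of (by norm_num) (by norm_num) np75 (by decide +kernel) (by decide +kernel)
    (by decide +kernel) (by decide +kernel)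

theorem pnp80 : PN 330 480 ga gb 80 85 :=
  PN_of (by norm_num) (by norm_num) np80 (by decide +kernel) (by decide +kernel)
    (by decide +kernel) (by decide +kernel)

theorem pnp85 : PN 330 480 ga gb 85 90 :=
  PN_of (by norm_num) (by norm_num) np85 (by decide +kernel) (by decide +kernel)
    (by decide +kernel) (by decide +kernel)

theorem pnp90 : PN 330 480 ga gb 90 95 :=
  PN_of (by norm_num) (by norm_num) np90 (by decide +kernel) (by decide +kernel)
    (by decide +kernel) (by decide +kernel)

theorem pnp95 : PN 330 480 ga gb 95 100 :=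
  PN_of (by norm_num) (by norm_num) np95 (by decide +kernel) (by decide +kernel)
    (by decide +kernel) (by decide +kernel)

theorem pnp100 : PN 330 480 ga gb 100 110 :=
  PN_of (by norm_num) (by norm_num) np100 (by decide +kernel) (by decide +kernel)
    (by decide +kernel) (by decide +kernel)

theorem pnp110 : PN 330 480 ga gb 110 120 :=
  PN_of (by norm_num) (by norm_num) np110 (by decide +kernel) (by decide +kernel)
    (by decide +kernel) (by decide +kernel)

theorem pnp120 : PN 330 480 ga gb 120 135 :=
  PN_of (by norm_num) (by norm_num) np120 (by decide +kernel) (by decide +kernel)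
    (by decide +kernel) (by decide +kernel)

theorem pnp135 : PN 330 480 ga gb 135 150 :=
  PN_of (by norm_num) (by norm_num) np135 (by decide +kernel) (by decide +kernel)
    (by decide +kernel) (by decide +kernel)

theorem pNp : PN 330 480 ga gb 20 150 :=
  (((((((((((((((((((((((((pnp20).append pnp22).append pnp25).append pnp27).append pnp30).append
    pnp32).append pnp35).append pnp37).append pnp40).append pnp42).append pnp45).append
    pnp47).append pnp50).append pnp55).append pnp60).append pnp65).append pnp70).append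
    pnp75).append pnp80).append pnp85).append pnp90).append pnp95).append pnp100).append
    pnp110).append pnp120).append pnp135

theorem pnq20 : PN 480 630 ha hb 20 22 :=
  PN_of (by norm_num) (by norm_num) nq20 (by decide +kernel) (by decide +kernel)
    (by decide +kernel) (by decide +kernel)

theorem pnq22 : PN 480 630 ha hb 22 25 :=
  PN_of (by norm_num) (by norm_num) nq22 (by decide +kernel) (by decide +kernel)
    (by decide +kernel) (by decide +kernel)

theorem pnq25 : PN 480 630 ha hb 25 27 :=
  PN_of (by norm_num) (by norm_num) nq25 (by decide +kernel) (by decide +kernel)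
    (by decide +kernel) (by decide +kernel)

theorem pnq27 : PN 480 630 ha hb 27 30 :=
  PN_of (by norm_num) (by norm_num) nq27 (by decide +kernel) (by decide +kernel)
    (by decide +kernel) (by decide +kernel)

theorem pnq30 : PN 480 630 ha hb 30 32 :=
  PN_of (by norm_num) (by norm_num) nq30 (by decide +kernel) (by decide +kernel)
    (by decide +kernel) (by decide +kernel)

theorem pnq32 : PN 480 630 ha hb 32 35 :=
  PN_of (by norm_num) (by norm_num) nq32 (by decide +kernel) (by decide +kernel)
    (by decide +kernel) (by decide +kernel)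

theorem pnq35 : PN 480 630 ha hb 35 37 :=
  PN_of (by norm_num) (by norm_num) nq35 (by decide +kernel) (by decide +kernel)
    (by decide +kernel) (by decide +kernel)

theorem pnq37 : PN 480 630 ha hb 37 40 :=
  PN_of (by norm_num) (by norm_num) nq37 (by decide +kernel) (by decide +kernel)
    (by decide +kernel) (by decide +kernel)

theorem pnq40 : PN 480 630 ha hb 40 42 :=
  PN_of (by norm_num) (by norm_num) nq40 (by decide +kernel) (by decide +kernel)
    (by decide +kernel) (by decide +kernel)

theorem pnq42 : PN 480 630 ha hb 42 45 :=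
  PN_of (by norm_num) (by norm_num) nq42 (by decide +kernel) (by decide +kernel)
    (by decide +kernel) (by decide +kernel)

theorem pnq45 : PN 480 630 ha hb 45 47 :=
  PN_of (by norm_num) (by norm_num) nq45 (by decide +kernel) (by decide +kernel)
    (by decide +kernel) (by decide +kernel)

theorem pnq47 : PN 480 630 ha hb 47 50 :=
  PN_of (by norm_num) (by norm_num) nq47 (by decide +kernel) (by decide +kernel)
    (by decide +kernel) (by decide +kernel)

theorem pnq50 : PN 480 630 ha hb 50 55 :=
  PN_of (by norm_num) (by norm_num) nq50 (by decide +kernel) (by decide +kernel)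
    (by decide +kernel) (by decide +kernel)

theorem pnq55 : PN 480 630 ha hb 55 60 :=
  PN_of (by norm_num) (by norm_num) nq55 (by decide +kernel) (by decide +kernel)
    (by decide +kernel) (by decide +kernel)

theorem pnq60 : PN 480 630 ha hb 60 65 :=
  PN_of (by norm_num) (by norm_num) nq60 (by decide +kernel) (by decide +kernel)
    (by decide +kernel) (by decide +kernel)

theorem pnq65 : PN 480 630 ha hb 65 70 :=
  PN_of (by norm_num) (by norm_num) nq65 (by decide +kernel) (by decide +kernel)
    (by decide +kernel) (by decide +kernel)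

theorem pnq70 : PN 480 630 ha hb 70 75 :=
  PN_of (by norm_num) (by norm_num) nq70 (by decide +kernel) (by decide +kernel)
    (by decide +kernel) (by decide +kernel)

theorem pnq75 : PN 480 630 ha hb 75 80 :=
  PN_of (by norm_num) (by norm_num) nq75 (by decide +kernel) (by decide +kernel)
    (by decide +kernel) (by decide +kernel)

theorem pnq80 : PN 480 630 ha hb 80 85 :=
  PN_of (by norm_num) (by norm_num) nq80 (by decide +kernel) (by decide +kernel)
    (by decide +kernel) (by decide +kernel)

theorem pnq85 : PN 480 630 ha hb 85 90 :=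
  PN_of (by norm_num) (by norm_num) nq85 (by decide +kernel) (by decide +kernel)
    (by decide +kernel) (by decide +kernel)

theorem pnq90 : PN 480 630 ha hb 90 95 :=
  PN_of (by norm_num) (by norm_num) nq90 (by decide +kernel) (by decide +kernel)
    (by decide +kernel) (by decide +kernel)

theorem pnq95 : PN 480 630 ha hb 95 100 :=
  PN_of (by norm_num) (by norm_num) nq95 (by decide +kernel) (by decide +kernel)
    (by decide +kernel) (by decide +kernel)

theorem pnq100 : PN 480 630 ha hb 100 110 :=
  PN_of (by norm_num) (by norm_num) nq100 (by decide +kernel) (by decide +kernel)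
    (by decide +kernel) (by decide +kernel)

theorem pnq110 : PN 480 630 ha hb 110 120 :=
  PN_of (by norm_num) (by norm_num) nq110 (by decide +kernel) (by decide +kernel)
    (by decide +kernel) (by decide +kernel)

theorem pnq120 : PN 480 630 ha hb 120 135 :=
  PN_of (by norm_num) (by norm_num) nq120 (by decide +kernel) (by decide +kernel)
    (by decide +kernel) (by decide +kernel)

theorem pnq135 : PN 480 630 ha hb 135 150 :=
  PN_of (by norm_num) (by norm_num) nq135 (by decide +kernel) (by decide +kernel)
    (by decide +kernel) (by decide +kernel)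

theorem pNq : PN 480 630 ha hb 20 150 :=
  (((((((((((((((((((((((((pnq20).append pnq22).append pnq25).append pnq27).append pnq30).append
    pnq32).append pnq35).append pnq37).append pnq40).append pnq42).append pnq45).append
    pnq47).append pnq50).append pnq55).append pnq60).append pnq65).append pnq70).append
    pnq75).append pnq80).append pnq85).append pnq90).append pnq95).append pnq100).append
    pnq110).append pnq120).append pnq135

theorem pnr20 : PN 630 830 ka kb 20 22 :=
  PN_of (by norm_num) (by norm_num) nr20 (by decide +kernel) (by decide +kernel)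
    (by decide +kernel) (by decide +kernel)

theorem pnr22 : PN 630 830 ka kb 22 25 :=
  PN_of (by norm_num) (by norm_num) nr22 (by decide +kernel) (by decide +kernel)
    (by decide +kernel) (by decide +kernel)

theorem pnr25 : PN 630 830 ka kb 25 27 :=
  PN_of (by norm_num) (by norm_num) nr25 (by decide +kernel) (by decide +kernel)
    (by decide +kernel) (by decide +kernel)

theorem pnr27 : PN 630 830 ka kb 27 30 :=
  PN_of (by norm_num) (by norm_num) nr27 (by decide +kernel) (by decide +kernel)
    (by decide +kernel) (by decide +kernel)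

theorem pnr30 : PN 630 830 ka kb 30 32 :=
  PN_of (by norm_num) (by norm_num) nr30 (by decide +kernel) (by decide +kernel)
    (by decide +kernel) (by decide +kernel)

theorem pnr32 : PN 630 830 ka kb 32 35 :=
  PN_of (by norm_num) (by norm_num) nr32 (by decide +kernel) (by decide +kernel)
    (by decide +kernel) (by decide +kernel)

theorem pnr35 : PN 630 830 ka kb 35 37 :=
  PN_of (by norm_num) (by norm_num) nr35 (by decide +kernel) (by decide +kernel)
    (by decide +kernel) (by decide +kernel)

theorem pnr37 : PN 630 830 ka kb 37 40 :=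
  PN_of (by norm_num) (by norm_num) nr37 (by decide +kernel) (by decide +kernel)
    (by decide +kernel) (by decide +kernel)

theorem pnr40 : PN 630 830 ka kb 40 42 :=
  PN_of (by norm_num) (by norm_num) nr40 (by decide +kernel) (by decide +kernel)
    (by decide +kernel) (by decide +kernel)

theorem pnr42 : PN 630 830 ka kb 42 45 :=
  PN_of (by norm_num) (by norm_num) nr42 (by decide +kernel) (by decide +kernel)
    (by decide +kernel) (by decide +kernel)

theorem pnr45 : PN 630 830 ka kb 45 47 :=
  PN_of (by norm_num) (by norm_num) nr45 (by decide +kernel) (by decide +kernel)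
    (by decide +kernel) (by decide +kernel)

theorem pnr47 : PN 630 830 ka kb 47 50 :=
  PN_of (by norm_num) (by norm_num) nr47 (by decide +kernel) (by decide +kernel)
    (by decide +kernel) (by decide +kernel)

theorem pnr50 : PN 630 830 ka kb 50 55 :=
  PN_of (by norm_num) (by norm_num) nr50 (by decide +kernel) (by decide +kernel)
    (by decide +kernel) (by decide +kernel)

theorem pnr55 : PN 630 830 ka kb 55 60 :=
  PN_of (by norm_num) (by norm_num) nr55 (by decide +kernel) (by decide +kernel)
    (by decide +kernel) (by decide +kernel)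

theorem pnr60 : PN 630 830 ka kb 60 65 :=
  PN_of (by norm_num) (by norm_num) nr60 (by decide +kernel) (by decide +kernel)
    (by decide +kernel) (by decide +kernel)

theorem pnr65 : PN 630 830 ka kb 65 70 :=
  PN_of (by norm_num) (by norm_num) nr65 (by decide +kernel) (by decide +kernel)
    (by decide +kernel) (by decide +kernel)

theorem pnr70 : PN 630 830 ka kb 70 75 :=
  PN_of (by norm_num) (by norm_num) nr70 (by decide +kernel) (by decide +kernel)
    (by decide +kernel) (by decide +kernel)

theorem pnr75 : PN 630 830 ka kb 75 80 :=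
  PN_of (by norm_num) (by norm_num) nr75 (by decide +kernel) (by decide +kernel)
    (by decide +kernel) (by decide +kernel)

theorem pnr80 : PN 630 830 ka kb 80 85 :=
  PN_of (by norm_num) (by norm_num) nr80 (by decide +kernel) (by decide +kernel)
    (by decide +kernel) (by decide +kernel)

theorem pnr85 : PN 630 830 ka kb 85 90 :=
  PN_of (by norm_num) (by norm_num) nr85 (by decide +kernel) (by decide +kernel)
    (by decide +kernel) (by decide +kernel)

theorem pnr90 : PN 630 830 ka kb 90 95 :=
  PN_of (by norm_num) (by norm_num) nr90 (by decide +kernel) (by decide +kernel)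
    (by decide +kernel) (by decide +kernel)

theorem pnr95 : PN 630 830 ka kb 95 100 :=
  PN_of (by norm_num) (by norm_num) nr95 (by decide +kernel) (by decide +kernel)
    (by decide +kernel) (by decide +kernel)

theorem pnr100 : PN 630 830 ka kb 100 110 :=
  PN_of (by norm_num) (by norm_num) nr100 (by decide +kernel) (by decide +kernel)
    (by decide +kernel) (by decide +kernel)

theorem pnr110 : PN 630 830 ka kb 110 120 :=
  PN_of (by norm_num) (by norm_num) nr110 (by decide +kernel) (by decide +kernel)
    (by decide +kernel) (by decide +kernel)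

theorem pnr120 : PN 630 830 ka kb 120 135 :=
  PN_of (by norm_num) (by norm_num) nr120 (by decide +kernel) (by decide +kernel)
    (by decide +kernel) (by decide +kernel)

theorem pnr135 : PN 630 830 ka kb 135 150 :=
  PN_of (by norm_num) (by norm_num) nr135 (by decide +kernel) (by decide +kernel)
    (by decide +kernel) (by decide +kernel)

theorem pNr : PN 630 830 ka kb 20 150 :=
  (((((((((((((((((((((((((pnr20).append pnr22).append pnr25).append pnr27).append pnr30).append
    pnr32).append pnr35).append pnr37).append pnr40).append pnr42).append pnr45).append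
    pnr47).append pnr50).append pnr55).append pnr60).append pnr65).append pnr70).append
    pnr75).append pnr80).append pnr85).append pnr90).append pnr95).append pnr100).append
    pnr110).append pnr120).append pnr135

/-- main, `T` in `[-90/1000, -75/1000]` -/
theorem far_main2 {w : ℂ} {T y : ℝ} (w0 : 0 ≤ w.re) (w1 : w.re ≤ 65 / 100)
    (w2 : |w.im| ≤ 16 / 100 * MP_b30479_gt.G2.tr 0 (65 / 100) (13 / 100) (29 / 100) w.re)
    (t1 : -(90 / 1000) ≤ T) (t2 : T ≤ -(75 / 1000)) (y0 : 2 / 100 ≤ y) (y1 : y ≤ 15 / 100) :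
    plR y 0 ga - T * plR y 0 gb ≤ MP_b30479_gt.G2.V2 ⟨3 / 10, T⟩ w -
      MP_b30479_gt.G2.V2 ⟨y, T * MP_b30479_gt.G2.tr 0 (8 / 10) (5 / 100) (5 / 100) y⟩ w :=
  pNp y T w.re w.im (by push_cast; linarith only [y0]) (by push_cast; linarith only [y1]) (by push_cast; linarith only [t1])
    (by push_cast; linarith only [t2]) ⟨w0, w1, w2⟩

/-- main, `T` in `[-75/1000, -60/1000]` -/
theorem far_main3 {w : ℂ} {T y : ℝ} (w0 : 0 ≤ w.re) (w1 : w.re ≤ 65 / 100)
    (w2 : |w.im| ≤ 16 / 100 * MP_b30479_gt.G2.tr 0 (65 / 100) (13 / 100) (29 / 100) w.re)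
    (t1 : -(75 / 1000) ≤ T) (t2 : T ≤ -(60 / 1000)) (y0 : 2 / 100 ≤ y) (y1 : y ≤ 15 / 100) :
    plR y 0 ha - T * plR y 0 hb ≤ MP_b30479_gt.G2.V2 ⟨3 / 10, T⟩ w -
      MP_b30479_gt.G2.V2 ⟨y, T * MP_b30479_gt.G2.tr 0 (8 / 10) (5 / 100) (5 / 100) y⟩ w :=
  pNq y T w.re w.im (by push_cast; linarith only [y0]) (by push_cast; linarith only [y1]) (by push_cast; linarith only [t1])
    (by push_cast; linarith only [t2]) ⟨w0, w1, w2⟩

/-- main, `T` in `[-60/1000, -40/1000]` -/
theorem far_main4 {w : ℂ} {T y : ℝ} (w0 : 0 ≤ w.re) (w1 : w.re ≤ 65 / 100)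
    (w2 : |w.im| ≤ 16 / 100 * MP_b30479_gt.G2.tr 0 (65 / 100) (13 / 100) (29 / 100) w.re)
    (t1 : -(60 / 1000) ≤ T) (t2 : T ≤ -(40 / 1000)) (y0 : 2 / 100 ≤ y) (y1 : y ≤ 15 / 100) :
    plR y 0 ka - T * plR y 0 kb ≤ MP_b30479_gt.G2.V2 ⟨3 / 10, T⟩ w -
      MP_b30479_gt.G2.V2 ⟨y, T * MP_b30479_gt.G2.tr 0 (8 / 10) (5 / 100) (5 / 100) y⟩ w :=
  pNr y T w.re w.im (by push_cast; linarith only [y0]) (by push_cast; linarith only [y1]) (by push_cast; linarith only [t1])
    (by push_cast; linarith only [t2]) ⟨w0, w1, w2⟩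

end Pool.Agent.Work.NumG.F3
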