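import Pool.Agent.Work.MP_b30479_gt.G2.WM13RB
import Pool.Agent.Work.MP_b30479_gt.G2.WMFar30b

/-!
# Kind `1 | 3`, slot `0`, right end: the far gains
-/

namespace Pool.Agent.Work.NumG

namespace R13

open MP_b30479_gt.G2 (V2)
open MP_b30479_gt.G2.M13 (H)

variable {x T Tl pl : ℝ} {k l w : ℂ}

theorem fM_val (x T y Tl : ℝ) : fM.val [x, T, y, Tl] =
    plR y 120 F3.fa - Tl * plR y 2600 F3.fb := by
  simp only [fM, E.val, E.pl_val, NumI.lkR]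
  rfl

theorem fU_val (x T y Tl : ℝ) : fU.val [x, T, y, Tl] =
    plR y 120 F3.fu - Tl * plR y 2600 F3.fv := by
  simp only [fU, E.val, E.pl_val, NumI.lkR]
  rfl

theorem fD_val (x T y Tl : ℝ) : fD.val [x, T, y, Tl] = plR y 120 F3.fd - Tl * (24 / 10) := by
  simp only [fD, E.val, E.pl_val, NumI.lkR]
  norm_num
  rfl

theorem fg_val (x T y Tl : ℝ) : fg.val [x, T, y, Tl] = plR y 0 F3.ga - Tl * plR y 0 F3.gb := by
  simp only [fg, E.val, E.pl_val, NumI.lkR]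
  rfl

theorem fh_val (x T y Tl : ℝ) : fh.val [x, T, y, Tl] = plR y 0 F3.ha - Tl * plR y 0 F3.hb := by
  simp only [fh, E.val, E.pl_val, NumI.lkR]
  rfl

theorem fk_val (x T y Tl : ℝ) : fk.val [x, T, y, Tl] = plR y 0 F3.ka - Tl * plR y 0 F3.kb := by
  simp only [fk, E.val, E.pl_val, NumI.lkR]
  rfl

section

variable (h : H x T Tl pl k l w)

include h

theorem farM (hl : l.im = Tl * MP_b30479_gt.G2.M13.τl l.re) (hp : pl = 0) :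
    fM.val [x, T, l.re, Tl] ≤ V2 ⟨3 / 10, Tl⟩ w - V2 l w + 2 * Real.pi * pl := by
  have h1 := F3.far_main (T := Tl) (y := l.re) h.w0 h.w1 h.w2 (by linarith only [h, h.t0])
    h.t1 h.l0 h.l1
  have e : (⟨l.re, Tl * MP_b30479_gt.G2.tr 0 (8 / 10) (5 / 100) (5 / 100) l.re⟩ : ℂ) = l :=
    Complex.ext rfl hl.symm
  rw [e] at h1
  rw [hp, fM_val]
  linarith only [h1]

theorem farG (hl : l.im = Tl * MP_b30479_gt.G2.M13.τl l.re) (hp : pl = 0)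
    (t0 : -(90 / 1000) ≤ Tl) (t1 : Tl ≤ -(75 / 1000)) (y0 : 2 / 100 ≤ l.re)
    (y1 : l.re ≤ 15 / 100) :
    fg.val [x, T, l.re, Tl] ≤ V2 ⟨3 / 10, Tl⟩ w - V2 l w + 2 * Real.pi * pl := by
  have h1 := F3.far_main2 (T := Tl) (y := l.re) h.w0 h.w1 h.w2 t0 t1 y0 y1
  have e : (⟨l.re, Tl * MP_b30479_gt.G2.tr 0 (8 / 10) (5 / 100) (5 / 100) l.re⟩ : ℂ) = l :=
    Complex.ext rfl hl.symm
  rw [e] at h1
  rw [hp, fg_val]
  linarith only [h1]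

theorem farH (hl : l.im = Tl * MP_b30479_gt.G2.M13.τl l.re) (hp : pl = 0)
    (t0 : -(75 / 1000) ≤ Tl) (t1 : Tl ≤ -(60 / 1000)) (y0 : 2 / 100 ≤ l.re)
    (y1 : l.re ≤ 15 / 100) :
    fh.val [x, T, l.re, Tl] ≤ V2 ⟨3 / 10, Tl⟩ w - V2 l w + 2 * Real.pi * pl := by
  have h1 := F3.far_main3 (T := Tl) (y := l.re) h.w0 h.w1 h.w2 t0 t1 y0 y1
  have e : (⟨l.re, Tl * MP_b30479_gt.G2.tr 0 (8 / 10) (5 / 100) (5 / 100) l.re⟩ : ℂ) = l :=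
    Complex.ext rfl hl.symm
  rw [e] at h1
  rw [hp, fh_val]
  linarith only [h1]

theorem farK (hl : l.im = Tl * MP_b30479_gt.G2.M13.τl l.re) (hp : pl = 0)
    (t0 : -(60 / 1000) ≤ Tl) (t1 : Tl ≤ -(40 / 1000)) (y0 : 2 / 100 ≤ l.re)
    (y1 : l.re ≤ 15 / 100) :
    fk.val [x, T, l.re, Tl] ≤ V2 ⟨3 / 10, Tl⟩ w - V2 l w + 2 * Real.pi * pl := by
  have h1 := F3.far_main4 (T := Tl) (y := l.re) h.w0 h.w1 h.w2 t0 t1 y0 y1
  have e : (⟨l.re, Tl * MP_b30479_gt.G2.tr 0 (8 / 10) (5 / 100) (5 / 100) l.re⟩ : ℂ) = l :=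
    Complex.ext rfl hl.symm
  rw [e] at h1
  rw [hp, fk_val]
  linarith only [h1]

theorem farU (t1 : Tl ≤ 0) (hl : l.im = 16 / 100 * MP_b30479_gt.G2.M13.τl l.re)
    (hp : pl = 16 / 100 * MP_b30479_gt.G2.M13.τl l.re) :
    fU.val [x, T, l.re, Tl] ≤ V2 ⟨3 / 10, Tl⟩ w - V2 l w + 2 * Real.pi * pl := by
  have h1 := F3.far_up (T := Tl) (y := l.re) h.w0 h.w1 h.w2 (by linarith only [h, h.t0])
    t1 h.l0 h.l1
  have e : (⟨l.re, 16 / 100 * MP_b30479_gt.G2.tr 0 (8 / 10) (5 / 100) (5 / 100) l.re⟩ : ℂ) = l :=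
    Complex.ext rfl hl.symm
  rw [e] at h1
  rw [hp, fU_val]
  unfold MP_b30479_gt.G2.M13.τl
  linarith only [h1]

theorem farD (t0 : 0 ≤ Tl) (hl : l.im = -(16 / 100 * MP_b30479_gt.G2.M13.τl l.re))
    (hp : pl = 16 / 100 * MP_b30479_gt.G2.M13.τl l.re) :
    fD.val [x, T, l.re, Tl] ≤ V2 ⟨3 / 10, Tl⟩ w - V2 l w + 2 * Real.pi * pl := by
  have h1 := F3.far_down (T := Tl) (y := l.re) h.w0 h.w1 h.w2 t0 h.t1 h.l0 h.l1
  have e : (⟨l.re, -(16 / 100 * MP_b30479_gt.G2.tr 0 (8 / 10) (5 / 100) (5 / 100) l.re)⟩ : ℂ) =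
    l := Complex.ext rfl hl.symm
  rw [e] at h1
  rw [hp, fD_val]
  unfold MP_b30479_gt.G2.M13.τl
  linarith only [h1]

end

end R13

end Pool.Agent.Work.NumG
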