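import Pool.Agent.Work.MP_b30479_gt.G2.WM13RB
import Pool.Agent.Work.MP_b30479_gt.G2.WM13R1
import Pool.Agent.Work.MP_b30479_gt.G2.WM13R2
import Pool.Agent.Work.MP_b30479_gt.G2.WM13R3
import Pool.Agent.Work.MP_b30479_gt.G2.WM13R4
import Pool.Agent.Work.MP_b30479_gt.G2.WM13R5
import Pool.Agent.Work.MP_b30479_gt.G2.WM13R6
import Pool.Agent.Work.MP_b30479_gt.G2.WM13R7
import Pool.Agent.Work.MP_b30479_gt.G2.WM13R8

/-!
# Kind `1 | 3`, slot `0`, right end: the side of the `1`
-/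

namespace Pool.Agent.Work.NumG

namespace R13

open MP_b30479_gt.G2.M13 (H)

variable {x T Tl pl : ℝ} {k l w : ℂ}

/-! ### cell `C` -/

/-- side of the `1` -/
def SC (x T : ℝ) (k : ℂ) : Prop :=
  (P1 iC_0 x T k ∧ Gd iC_0 x k) ∨
    (P1 iC_1 x T k ∧ Gd iC_1 x k)

theorem tC_G {s : ℝ} (hs : (⟨x, -hh x⟩ : ℂ) + k ≠ 1)
    (e : k = ⟨vy.val [x, T, k.re, s], kG.val [x, T, k.re, s]⟩)
    (h : ∃ e ∈ ([f1e iC_0 vy kG, f1l iC_0 vy kG, .of (f1z iC_1 vy kG)] : List D),
      0 < e.val [x, T, k.re, s]) : SC x T k := by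
  obtain ⟨d, hd, hp⟩ := h
  simp only [List.mem_cons, List.not_mem_nil, or_false] at hd
  unfold SC
  rcases hd with rfl | rfl | rfl
  · exact Or.inl ⟨P1_e' e hp, Or.inr hs⟩
  · exact Or.inl ⟨P1_l' (by decide) e hp, Or.inr hs⟩
  · exact Or.inr (⟨P1_z' rfl e hp, Or.inl rfl⟩)

theorem sC_G (x0 : 63 / 100 ≤ x) (x1 : x ≤ 13 / 20) (T0 : 21 / 1000 ≤ T) (T1 : T ≤ 47 / 500) (hk : KG k) :
    SC x T k := by
  by_cases hs : (⟨x, -hh x⟩ : ℂ) + k = 1
  · have e := sing hs T
    obtain ⟨d, hd, hp⟩ := chkD4 r_C_1s (x := x) (y := T) (z := 0) (w := 0) (by norm_num)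
      (le_trans (by norm_num) x0) (le_trans x1 (by norm_num)) (le_trans (by norm_num) T0)
      (le_trans T1 (by norm_num)) (by norm_num) (by norm_num) (by norm_num) (by norm_num)
    simp only [List.mem_cons, List.not_mem_nil, or_false] at hd
    unfold SC
    subst hd
    exact Or.inr (⟨P1_z' rfl e hp, Or.inl rfl⟩)
  · obtain ⟨s, s0, s1, e⟩ := hk.par
    have k0 := hk.1.1
    have k1 := hk.1.2
    exact tC_G hs (e x T) (chkD4 r_C_1G0 (by norm_num)
      (le_trans (by norm_num) x0) (le_trans x1 (by norm_num)) (le_trans (by norm_num) T0)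
      (le_trans T1 (by norm_num))
      (le_trans (by norm_num) k0) (le_trans k1 (by norm_num))
      (le_trans (by norm_num) s0) (le_trans s1 (by norm_num)))

/-! ### cell `U` -/

/-- side of the `1` -/
def SU (x T : ℝ) (k : ℂ) : Prop :=
  (P1 iU_0 x T k ∧ Gd iU_0 x k) ∨
    (P1 iU_1 x T k ∧ Gd iU_1 x k) ∨
    (P1 iU_2 x T k ∧ Gd iU_2 x k)

theorem tU_G {s : ℝ} (hs : (⟨x, -hh x⟩ : ℂ) + k ≠ 1)
    (e : k = ⟨vy.val [x, T, k.re, s], kG.val [x, T, k.re, s]⟩)
    (h : ∃ e ∈ ([f1e iU_0 vy kG, f1l iU_0 vy kG, .of (f1z iU_1 vy kG), f1e iU_2 vy kG, f1l iU_2 vy kG] : List D),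
      0 < e.val [x, T, k.re, s]) : SU x T k := by
  obtain ⟨d, hd, hp⟩ := h
  simp only [List.mem_cons, List.not_mem_nil, or_false] at hd
  unfold SU
  rcases hd with rfl | rfl | rfl | rfl | rfl
  · exact Or.inl ⟨P1_e' e hp, Or.inr hs⟩
  · exact Or.inl ⟨P1_l' (by decide) e hp, Or.inr hs⟩
  · exact Or.inr (Or.inl ⟨P1_z' rfl e hp, Or.inl rfl⟩)
  · exact Or.inr (Or.inr (⟨P1_e' e hp, Or.inr hs⟩))
  · exact Or.inr (Or.inr (⟨P1_l' (by decide) e hp, Or.inr hs⟩))

theorem sU_G (x0 : 63 / 100 ≤ x) (x1 : x ≤ 13 / 20) (T0 : 21 / 1000 ≤ T) (T1 : T ≤ 47 / 500) (hk : KG k) :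
    SU x T k := by
  by_cases hs : (⟨x, -hh x⟩ : ℂ) + k = 1
  · have e := sing hs T
    obtain ⟨d, hd, hp⟩ := chkD4 r_U_1s (x := x) (y := T) (z := 0) (w := 0) (by norm_num)
      (le_trans (by norm_num) x0) (le_trans x1 (by norm_num)) (le_trans (by norm_num) T0)
      (le_trans T1 (by norm_num)) (by norm_num) (by norm_num) (by norm_num) (by norm_num)
    simp only [List.mem_cons, List.not_mem_nil, or_false] at hd
    unfold SU
    subst hd
    exact Or.inr (Or.inl ⟨P1_z' rfl e hp, Or.inl rfl⟩)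
  · obtain ⟨s, s0, s1, e⟩ := hk.par
    have k0 := hk.1.1
    have k1 := hk.1.2
    rcases le_total k.re (3 / 20) with hb0 | hb0
    · exact tU_G hs (e x T) (chkD4 r_U_1G0 (by norm_num)
        (le_trans (by norm_num) x0) (le_trans x1 (by norm_num)) (le_trans (by norm_num) T0)
      (le_trans T1 (by norm_num))
        (le_trans (by norm_num) k0) (le_trans hb0 (by norm_num))
        (le_trans (by norm_num) s0) (le_trans s1 (by norm_num)))
    rcases le_total k.re (33 / 100) with hb1 | hb1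
    · exact tU_G hs (e x T) (chkD4 r_U_1G1 (by norm_num)
        (le_trans (by norm_num) x0) (le_trans x1 (by norm_num)) (le_trans (by norm_num) T0)
      (le_trans T1 (by norm_num))
        (le_trans (by norm_num) hb0) (le_trans hb1 (by norm_num))
        (le_trans (by norm_num) s0) (le_trans s1 (by norm_num)))
    rcases le_total k.re (39 / 100) with hb2 | hb2
    · exact tU_G hs (e x T) (chkD4 r_U_1G2 (by norm_num)
        (le_trans (by norm_num) x0) (le_trans x1 (by norm_num)) (le_trans (by norm_num) T0)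
      (le_trans T1 (by norm_num))
        (le_trans (by norm_num) hb1) (le_trans hb2 (by norm_num))
        (le_trans (by norm_num) s0) (le_trans s1 (by norm_num)))
    rcases le_total k.re (33 / 50) with hb3 | hb3
    · exact tU_G hs (e x T) (chkD4 r_U_1G3 (by norm_num)
        (le_trans (by norm_num) x0) (le_trans x1 (by norm_num)) (le_trans (by norm_num) T0)
      (le_trans T1 (by norm_num))
        (le_trans (by norm_num) hb2) (le_trans hb3 (by norm_num))
        (le_trans (by norm_num) s0) (le_trans s1 (by norm_num)))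
    exact tU_G hs (e x T) (chkD4 r_U_1G4 (by norm_num)
      (le_trans (by norm_num) x0) (le_trans x1 (by norm_num)) (le_trans (by norm_num) T0)
      (le_trans T1 (by norm_num))
      (le_trans (by norm_num) hb3) (le_trans k1 (by norm_num))
      (le_trans (by norm_num) s0) (le_trans s1 (by norm_num)))

/-! ### cell `N` -/

/-- side of the `1` -/
def SN (x T : ℝ) (k : ℂ) : Prop :=
  (P1 iN_0 x T k ∧ Gd iN_0 x k) ∨
    (P1 iN_1 x T k ∧ Gd iN_1 x k)

theorem tN_G {s : ℝ} (e : k = ⟨vy.val [x, T, k.re, s], kG.val [x, T, k.re, s]⟩)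
    (h : ∃ e ∈ ([.of (f1z iN_0 vy kG), .of (f1z iN_1 vy kG)] : List D),
      0 < e.val [x, T, k.re, s]) : SN x T k := by
  obtain ⟨d, hd, hp⟩ := h
  simp only [List.mem_cons, List.not_mem_nil, or_false] at hd
  unfold SN
  rcases hd with rfl | rfl
  · exact Or.inl ⟨P1_z' rfl e hp, Or.inl rfl⟩
  · exact Or.inr (⟨P1_z' rfl e hp, Or.inl rfl⟩)

theorem sN_G (x0 : 63 / 100 ≤ x) (x1 : x ≤ 13 / 20) (T0 : 21 / 1000 ≤ T) (T1 : T ≤ 47 / 500) (hk : KG k) :
    SN x T k := by
  obtain ⟨s, s0, s1, e⟩ := hk.par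
  have k0 := hk.1.1
  have k1 := hk.1.2
  exact tN_G (e x T) (chkD4 r_N_1G0 (by norm_num)
    (le_trans (by norm_num) x0) (le_trans x1 (by norm_num)) (le_trans (by norm_num) T0)
      (le_trans T1 (by norm_num))
    (le_trans (by norm_num) k0) (le_trans k1 (by norm_num))
    (le_trans (by norm_num) s0) (le_trans s1 (by norm_num)))

/-! ### cell `B1` -/

/-- side of the `1` -/
def SB1 (x T : ℝ) (k : ℂ) : Prop :=
  (P1 iB1_0 x T k ∧ Gd iB1_0 x k) ∨
    (P1 iB1_1 x T k ∧ Gd iB1_1 x k) ∨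
    (P1 iB1_2 x T k ∧ Gd iB1_2 x k)

theorem tB1_G {s : ℝ} (hs : (⟨x, -hh x⟩ : ℂ) + k ≠ 1)
    (e : k = ⟨vy.val [x, T, k.re, s], kG.val [x, T, k.re, s]⟩)
    (h : ∃ e ∈ ([f1e iB1_0 vy kG, f1l iB1_0 vy kG, .of (f1z iB1_1 vy kG), f1e iB1_2 vy kG, f1l iB1_2 vy kG] : List D),
      0 < e.val [x, T, k.re, s]) : SB1 x T k := by
  obtain ⟨d, hd, hp⟩ := h
  simp only [List.mem_cons, List.not_mem_nil, or_false] at hd
  unfold SB1
  rcases hd with rfl | rfl | rfl | rfl | rfl
  · exact Or.inl ⟨P1_e' e hp, Or.inr hs⟩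
  · exact Or.inl ⟨P1_l' (by decide) e hp, Or.inr hs⟩
  · exact Or.inr (Or.inl ⟨P1_z' rfl e hp, Or.inl rfl⟩)
  · exact Or.inr (Or.inr (⟨P1_e' e hp, Or.inr hs⟩))
  · exact Or.inr (Or.inr (⟨P1_l' (by decide) e hp, Or.inr hs⟩))

theorem sB1_G (x0 : 63 / 100 ≤ x) (x1 : x ≤ 13 / 20) (T0 : 21 / 1000 ≤ T) (T1 : T ≤ 3 / 50) (hk : KG k) :
    SB1 x T k := by
  by_cases hs : (⟨x, -hh x⟩ : ℂ) + k = 1
  · have e := sing hs T
    obtain ⟨d, hd, hp⟩ := chkD4 r_B1_1s (x := x) (y := T) (z := 0) (w := 0) (by norm_num)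
      (le_trans (by norm_num) x0) (le_trans x1 (by norm_num)) (le_trans (by norm_num) T0)
      (le_trans T1 (by norm_num)) (by norm_num) (by norm_num) (by norm_num) (by norm_num)
    simp only [List.mem_cons, List.not_mem_nil, or_false] at hd
    unfold SB1
    subst hd
    exact Or.inr (Or.inl ⟨P1_z' rfl e hp, Or.inl rfl⟩)
  · obtain ⟨s, s0, s1, e⟩ := hk.par
    have k0 := hk.1.1
    have k1 := hk.1.2
    rcases le_total k.re (3 / 20) with hb0 | hb0
    · exact tB1_G hs (e x T) (chkD4 r_B1_1G0 (by norm_num)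
        (le_trans (by norm_num) x0) (le_trans x1 (by norm_num)) (le_trans (by norm_num) T0)
      (le_trans T1 (by norm_num))
        (le_trans (by norm_num) k0) (le_trans hb0 (by norm_num))
        (le_trans (by norm_num) s0) (le_trans s1 (by norm_num)))
    rcases le_total k.re (33 / 100) with hb1 | hb1
    · exact tB1_G hs (e x T) (chkD4 r_B1_1G1 (by norm_num)
        (le_trans (by norm_num) x0) (le_trans x1 (by norm_num)) (le_trans (by norm_num) T0)
      (le_trans T1 (by norm_num))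
        (le_trans (by norm_num) hb0) (le_trans hb1 (by norm_num))
        (le_trans (by norm_num) s0) (le_trans s1 (by norm_num)))
    rcases le_total k.re (39 / 100) with hb2 | hb2
    · exact tB1_G hs (e x T) (chkD4 r_B1_1G2 (by norm_num)
        (le_trans (by norm_num) x0) (le_trans x1 (by norm_num)) (le_trans (by norm_num) T0)
      (le_trans T1 (by norm_num))
        (le_trans (by norm_num) hb1) (le_trans hb2 (by norm_num))
        (le_trans (by norm_num) s0) (le_trans s1 (by norm_num)))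
    rcases le_total k.re (33 / 50) with hb3 | hb3
    · exact tB1_G hs (e x T) (chkD4 r_B1_1G3 (by norm_num)
        (le_trans (by norm_num) x0) (le_trans x1 (by norm_num)) (le_trans (by norm_num) T0)
      (le_trans T1 (by norm_num))
        (le_trans (by norm_num) hb2) (le_trans hb3 (by norm_num))
        (le_trans (by norm_num) s0) (le_trans s1 (by norm_num)))
    exact tB1_G hs (e x T) (chkD4 r_B1_1G4 (by norm_num)
      (le_trans (by norm_num) x0) (le_trans x1 (by norm_num)) (le_trans (by norm_num) T0)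
      (le_trans T1 (by norm_num))
      (le_trans (by norm_num) hb3) (le_trans k1 (by norm_num))
      (le_trans (by norm_num) s0) (le_trans s1 (by norm_num)))

/-! ### cell `B2` -/

/-- side of the `1` -/
def SB2 (x T : ℝ) (k : ℂ) : Prop :=
  (P1 iB2_0 x T k ∧ Gd iB2_0 x k) ∨
    (P1 iB2_1 x T k ∧ Gd iB2_1 x k) ∨
    (P1 iB2_2 x T k ∧ Gd iB2_2 x k)

theorem tB2_G {s : ℝ} (hs : (⟨x, -hh x⟩ : ℂ) + k ≠ 1)
    (e : k = ⟨vy.val [x, T, k.re, s], kG.val [x, T, k.re, s]⟩)
    (h : ∃ e ∈ ([f1e iB2_0 vy kG, f1l iB2_0 vy kG, f1e iB2_1 vy kG, f1l iB2_1 vy kG, .of (f1z iB2_2 vy kG)] : List D),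
      0 < e.val [x, T, k.re, s]) : SB2 x T k := by
  obtain ⟨d, hd, hp⟩ := h
  simp only [List.mem_cons, List.not_mem_nil, or_false] at hd
  unfold SB2
  rcases hd with rfl | rfl | rfl | rfl | rfl
  · exact Or.inl ⟨P1_e' e hp, Or.inr hs⟩
  · exact Or.inl ⟨P1_l' (by decide) e hp, Or.inr hs⟩
  · exact Or.inr (Or.inl ⟨P1_e' e hp, Or.inr hs⟩)
  · exact Or.inr (Or.inl ⟨P1_l' (by decide) e hp, Or.inr hs⟩)
  · exact Or.inr (Or.inr (⟨P1_z' rfl e hp, Or.inl rfl⟩))

theorem sB2_G (x0 : 63 / 100 ≤ x) (x1 : x ≤ 13 / 20) (T0 : 3 / 50 ≤ T) (T1 : T ≤ 47 / 500) (hk : KG k) :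
    SB2 x T k := by
  by_cases hs : (⟨x, -hh x⟩ : ℂ) + k = 1
  · have e := sing hs T
    obtain ⟨d, hd, hp⟩ := chkD4 r_B2_1s (x := x) (y := T) (z := 0) (w := 0) (by norm_num)
      (le_trans (by norm_num) x0) (le_trans x1 (by norm_num)) (le_trans (by norm_num) T0)
      (le_trans T1 (by norm_num)) (by norm_num) (by norm_num) (by norm_num) (by norm_num)
    simp only [List.mem_cons, List.not_mem_nil, or_false] at hd
    unfold SB2
    subst hd
    exact Or.inr (Or.inr (⟨P1_z' rfl e hp, Or.inl rfl⟩))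
  · obtain ⟨s, s0, s1, e⟩ := hk.par
    have k0 := hk.1.1
    have k1 := hk.1.2
    rcases le_total k.re (3 / 20) with hb0 | hb0
    · exact tB2_G hs (e x T) (chkD4 r_B2_1G0 (by norm_num)
        (le_trans (by norm_num) x0) (le_trans x1 (by norm_num)) (le_trans (by norm_num) T0)
      (le_trans T1 (by norm_num))
        (le_trans (by norm_num) k0) (le_trans hb0 (by norm_num))
        (le_trans (by norm_num) s0) (le_trans s1 (by norm_num)))
    rcases le_total k.re (33 / 100) with hb1 | hb1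
    · exact tB2_G hs (e x T) (chkD4 r_B2_1G1 (by norm_num)
        (le_trans (by norm_num) x0) (le_trans x1 (by norm_num)) (le_trans (by norm_num) T0)
      (le_trans T1 (by norm_num))
        (le_trans (by norm_num) hb0) (le_trans hb1 (by norm_num))
        (le_trans (by norm_num) s0) (le_trans s1 (by norm_num)))
    rcases le_total k.re (39 / 100) with hb2 | hb2
    · exact tB2_G hs (e x T) (chkD4 r_B2_1G2 (by norm_num)
        (le_trans (by norm_num) x0) (le_trans x1 (by norm_num)) (le_trans (by norm_num) T0)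
      (le_trans T1 (by norm_num))
        (le_trans (by norm_num) hb1) (le_trans hb2 (by norm_num))
        (le_trans (by norm_num) s0) (le_trans s1 (by norm_num)))
    rcases le_total k.re (33 / 50) with hb3 | hb3
    · exact tB2_G hs (e x T) (chkD4 r_B2_1G3 (by norm_num)
        (le_trans (by norm_num) x0) (le_trans x1 (by norm_num)) (le_trans (by norm_num) T0)
      (le_trans T1 (by norm_num))
        (le_trans (by norm_num) hb2) (le_trans hb3 (by norm_num))
        (le_trans (by norm_num) s0) (le_trans s1 (by norm_num)))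
    exact tB2_G hs (e x T) (chkD4 r_B2_1G4 (by norm_num)
      (le_trans (by norm_num) x0) (le_trans x1 (by norm_num)) (le_trans (by norm_num) T0)
      (le_trans T1 (by norm_num))
      (le_trans (by norm_num) hb3) (le_trans k1 (by norm_num))
      (le_trans (by norm_num) s0) (le_trans s1 (by norm_num)))

/-! ### cell `A1` -/

/-- side of the `1` -/
def SA1 (x T : ℝ) (k : ℂ) : Prop :=
  (P1 iA1_0 x T k ∧ Gd iA1_0 x k) ∨
    (P1 iA1_1 x T k ∧ Gd iA1_1 x k) ∨
    (P1 iA1_2 x T k ∧ Gd iA1_2 x k)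

theorem tA1_G {s : ℝ} (hs : (⟨x, -hh x⟩ : ℂ) + k ≠ 1)
    (e : k = ⟨vy.val [x, T, k.re, s], kG.val [x, T, k.re, s]⟩)
    (h : ∃ e ∈ ([f1e iA1_0 vy kG, f1l iA1_0 vy kG, f1e iA1_1 vy kG, f1l iA1_1 vy kG, .of (f1z iA1_2 vy kG)] : List D),
      0 < e.val [x, T, k.re, s]) : SA1 x T k := by
  obtain ⟨d, hd, hp⟩ := h
  simp only [List.mem_cons, List.not_mem_nil, or_false] at hd
  unfold SA1
  rcases hd with rfl | rfl | rfl | rfl | rfl
  · exact Or.inl ⟨P1_e' e hp, Or.inr hs⟩
  · exact Or.inl ⟨P1_l' (by decide) e hp, Or.inr hs⟩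
  · exact Or.inr (Or.inl ⟨P1_e' e hp, Or.inr hs⟩)
  · exact Or.inr (Or.inl ⟨P1_l' (by decide) e hp, Or.inr hs⟩)
  · exact Or.inr (Or.inr (⟨P1_z' rfl e hp, Or.inl rfl⟩))

theorem sA1_G (x0 : 63 / 100 ≤ x) (x1 : x ≤ 13 / 20) (T0 : 21 / 1000 ≤ T) (T1 : T ≤ 9 / 200) (hk : KG k) :
    SA1 x T k := by
  by_cases hs : (⟨x, -hh x⟩ : ℂ) + k = 1
  · have e := sing hs T
    obtain ⟨d, hd, hp⟩ := chkD4 r_A1_1s (x := x) (y := T) (z := 0) (w := 0) (by norm_num)
      (le_trans (by norm_num) x0) (le_trans x1 (by norm_num)) (le_trans (by norm_num) T0)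
      (le_trans T1 (by norm_num)) (by norm_num) (by norm_num) (by norm_num) (by norm_num)
    simp only [List.mem_cons, List.not_mem_nil, or_false] at hd
    unfold SA1
    subst hd
    exact Or.inr (Or.inr (⟨P1_z' rfl e hp, Or.inl rfl⟩))
  · obtain ⟨s, s0, s1, e⟩ := hk.par
    have k0 := hk.1.1
    have k1 := hk.1.2
    rcases le_total k.re (3 / 20) with hb0 | hb0
    · exact tA1_G hs (e x T) (chkD4 r_A1_1G0 (by norm_num)
        (le_trans (by norm_num) x0) (le_trans x1 (by norm_num)) (le_trans (by norm_num) T0)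
      (le_trans T1 (by norm_num))
        (le_trans (by norm_num) k0) (le_trans hb0 (by norm_num))
        (le_trans (by norm_num) s0) (le_trans s1 (by norm_num)))
    rcases le_total k.re (33 / 100) with hb1 | hb1
    · exact tA1_G hs (e x T) (chkD4 r_A1_1G1 (by norm_num)
        (le_trans (by norm_num) x0) (le_trans x1 (by norm_num)) (le_trans (by norm_num) T0)
      (le_trans T1 (by norm_num))
        (le_trans (by norm_num) hb0) (le_trans hb1 (by norm_num))
        (le_trans (by norm_num) s0) (le_trans s1 (by norm_num)))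
    rcases le_total k.re (39 / 100) with hb2 | hb2
    · exact tA1_G hs (e x T) (chkD4 r_A1_1G2 (by norm_num)
        (le_trans (by norm_num) x0) (le_trans x1 (by norm_num)) (le_trans (by norm_num) T0)
      (le_trans T1 (by norm_num))
        (le_trans (by norm_num) hb1) (le_trans hb2 (by norm_num))
        (le_trans (by norm_num) s0) (le_trans s1 (by norm_num)))
    rcases le_total k.re (33 / 50) with hb3 | hb3
    · exact tA1_G hs (e x T) (chkD4 r_A1_1G3 (by norm_num)
        (le_trans (by norm_num) x0) (le_trans x1 (by norm_num)) (le_trans (by norm_num) T0)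
      (le_trans T1 (by norm_num))
        (le_trans (by norm_num) hb2) (le_trans hb3 (by norm_num))
        (le_trans (by norm_num) s0) (le_trans s1 (by norm_num)))
    exact tA1_G hs (e x T) (chkD4 r_A1_1G4 (by norm_num)
      (le_trans (by norm_num) x0) (le_trans x1 (by norm_num)) (le_trans (by norm_num) T0)
      (le_trans T1 (by norm_num))
      (le_trans (by norm_num) hb3) (le_trans k1 (by norm_num))
      (le_trans (by norm_num) s0) (le_trans s1 (by norm_num)))

/-! ### cell `A2` -/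

/-- side of the `1` -/
def SA2 (x T : ℝ) (k : ℂ) : Prop :=
  (P1 iA2_0 x T k ∧ Gd iA2_0 x k) ∨
    (P1 iA2_1 x T k ∧ Gd iA2_1 x k) ∨
    (P1 iA2_2 x T k ∧ Gd iA2_2 x k)

theorem tA2_G {s : ℝ} (hs : (⟨x, -hh x⟩ : ℂ) + k ≠ 1)
    (e : k = ⟨vy.val [x, T, k.re, s], kG.val [x, T, k.re, s]⟩)
    (h : ∃ e ∈ ([f1e iA2_0 vy kG, f1l iA2_0 vy kG, .of (f1z iA2_1 vy kG), f1e iA2_2 vy kG, f1l iA2_2 vy kG] : List D),
      0 < e.val [x, T, k.re, s]) : SA2 x T k := by
  obtain ⟨d, hd, hp⟩ := h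
  simp only [List.mem_cons, List.not_mem_nil, or_false] at hd
  unfold SA2
  rcases hd with rfl | rfl | rfl | rfl | rfl
  · exact Or.inl ⟨P1_e' e hp, Or.inr hs⟩
  · exact Or.inl ⟨P1_l' (by decide) e hp, Or.inr hs⟩
  · exact Or.inr (Or.inl ⟨P1_z' rfl e hp, Or.inl rfl⟩)
  · exact Or.inr (Or.inr (⟨P1_e' e hp, Or.inr hs⟩))
  · exact Or.inr (Or.inr (⟨P1_l' (by decide) e hp, Or.inr hs⟩))

theorem sA2_G (x0 : 63 / 100 ≤ x) (x1 : x ≤ 13 / 20) (T0 : 9 / 200 ≤ T) (T1 : T ≤ 3 / 50) (hk : KG k) :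
    SA2 x T k := by
  by_cases hs : (⟨x, -hh x⟩ : ℂ) + k = 1
  · have e := sing hs T
    obtain ⟨d, hd, hp⟩ := chkD4 r_A2_1s (x := x) (y := T) (z := 0) (w := 0) (by norm_num)
      (le_trans (by norm_num) x0) (le_trans x1 (by norm_num)) (le_trans (by norm_num) T0)
      (le_trans T1 (by norm_num)) (by norm_num) (by norm_num) (by norm_num) (by norm_num)
    simp only [List.mem_cons, List.not_mem_nil, or_false] at hd
    unfold SA2
    subst hd
    exact Or.inr (Or.inl ⟨P1_z' rfl e hp, Or.inl rfl⟩)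
  · obtain ⟨s, s0, s1, e⟩ := hk.par
    have k0 := hk.1.1
    have k1 := hk.1.2
    rcases le_total k.re (3 / 20) with hb0 | hb0
    · exact tA2_G hs (e x T) (chkD4 r_A2_1G0 (by norm_num)
        (le_trans (by norm_num) x0) (le_trans x1 (by norm_num)) (le_trans (by norm_num) T0)
      (le_trans T1 (by norm_num))
        (le_trans (by norm_num) k0) (le_trans hb0 (by norm_num))
        (le_trans (by norm_num) s0) (le_trans s1 (by norm_num)))
    rcases le_total k.re (33 / 100) with hb1 | hb1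
    · exact tA2_G hs (e x T) (chkD4 r_A2_1G1 (by norm_num)
        (le_trans (by norm_num) x0) (le_trans x1 (by norm_num)) (le_trans (by norm_num) T0)
      (le_trans T1 (by norm_num))
        (le_trans (by norm_num) hb0) (le_trans hb1 (by norm_num))
        (le_trans (by norm_num) s0) (le_trans s1 (by norm_num)))
    rcases le_total k.re (39 / 100) with hb2 | hb2
    · exact tA2_G hs (e x T) (chkD4 r_A2_1G2 (by norm_num)
        (le_trans (by norm_num) x0) (le_trans x1 (by norm_num)) (le_trans (by norm_num) T0)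
      (le_trans T1 (by norm_num))
        (le_trans (by norm_num) hb1) (le_trans hb2 (by norm_num))
        (le_trans (by norm_num) s0) (le_trans s1 (by norm_num)))
    rcases le_total k.re (33 / 50) with hb3 | hb3
    · exact tA2_G hs (e x T) (chkD4 r_A2_1G3 (by norm_num)
        (le_trans (by norm_num) x0) (le_trans x1 (by norm_num)) (le_trans (by norm_num) T0)
      (le_trans T1 (by norm_num))
        (le_trans (by norm_num) hb2) (le_trans hb3 (by norm_num))
        (le_trans (by norm_num) s0) (le_trans s1 (by norm_num)))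
    exact tA2_G hs (e x T) (chkD4 r_A2_1G4 (by norm_num)
      (le_trans (by norm_num) x0) (le_trans x1 (by norm_num)) (le_trans (by norm_num) T0)
      (le_trans T1 (by norm_num))
      (le_trans (by norm_num) hb3) (le_trans k1 (by norm_num))
      (le_trans (by norm_num) s0) (le_trans s1 (by norm_num)))

/-! ### cell `A3` -/

/-- side of the `1` -/
def SA3 (x T : ℝ) (k : ℂ) : Prop :=
  (P1 iA3_0 x T k ∧ Gd iA3_0 x k) ∨
    (P1 iA3_1 x T k ∧ Gd iA3_1 x k)

theorem tA3_G {s : ℝ} (hs : (⟨x, -hh x⟩ : ℂ) + k ≠ 1)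
    (e : k = ⟨vy.val [x, T, k.re, s], kG.val [x, T, k.re, s]⟩)
    (h : ∃ e ∈ ([f1e iA3_0 vy kG, f1l iA3_0 vy kG, .of (f1z iA3_1 vy kG)] : List D),
      0 < e.val [x, T, k.re, s]) : SA3 x T k := by
  obtain ⟨d, hd, hp⟩ := h
  simp only [List.mem_cons, List.not_mem_nil, or_false] at hd
  unfold SA3
  rcases hd with rfl | rfl | rfl
  · exact Or.inl ⟨P1_e' e hp, Or.inr hs⟩
  · exact Or.inl ⟨P1_l' (by decide) e hp, Or.inr hs⟩
  · exact Or.inr (⟨P1_z' rfl e hp, Or.inl rfl⟩)

theorem sA3_G (x0 : 63 / 100 ≤ x) (x1 : x ≤ 16 / 25) (T0 : 3 / 50 ≤ T) (T1 : T ≤ 2 / 25) (hk : KG k) :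
    SA3 x T k := by
  by_cases hs : (⟨x, -hh x⟩ : ℂ) + k = 1
  · have e := sing hs T
    obtain ⟨d, hd, hp⟩ := chkD4 r_A3_1s (x := x) (y := T) (z := 0) (w := 0) (by norm_num)
      (le_trans (by norm_num) x0) (le_trans x1 (by norm_num)) (le_trans (by norm_num) T0)
      (le_trans T1 (by norm_num)) (by norm_num) (by norm_num) (by norm_num) (by norm_num)
    simp only [List.mem_cons, List.not_mem_nil, or_false] at hd
    unfold SA3
    subst hd
    exact Or.inr (⟨P1_z' rfl e hp, Or.inl rfl⟩)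
  · obtain ⟨s, s0, s1, e⟩ := hk.par
    have k0 := hk.1.1
    have k1 := hk.1.2
    rcases le_total k.re (3 / 20) with hb0 | hb0
    · exact tA3_G hs (e x T) (chkD4 r_A3_1G0 (by norm_num)
        (le_trans (by norm_num) x0) (le_trans x1 (by norm_num)) (le_trans (by norm_num) T0)
      (le_trans T1 (by norm_num))
        (le_trans (by norm_num) k0) (le_trans hb0 (by norm_num))
        (le_trans (by norm_num) s0) (le_trans s1 (by norm_num)))
    rcases le_total k.re (33 / 100) with hb1 | hb1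
    · exact tA3_G hs (e x T) (chkD4 r_A3_1G1 (by norm_num)
        (le_trans (by norm_num) x0) (le_trans x1 (by norm_num)) (le_trans (by norm_num) T0)
      (le_trans T1 (by norm_num))
        (le_trans (by norm_num) hb0) (le_trans hb1 (by norm_num))
        (le_trans (by norm_num) s0) (le_trans s1 (by norm_num)))
    rcases le_total k.re (39 / 100) with hb2 | hb2
    · exact tA3_G hs (e x T) (chkD4 r_A3_1G2 (by norm_num)
        (le_trans (by norm_num) x0) (le_trans x1 (by norm_num)) (le_trans (by norm_num) T0)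
      (le_trans T1 (by norm_num))
        (le_trans (by norm_num) hb1) (le_trans hb2 (by norm_num))
        (le_trans (by norm_num) s0) (le_trans s1 (by norm_num)))
    rcases le_total k.re (33 / 50) with hb3 | hb3
    · exact tA3_G hs (e x T) (chkD4 r_A3_1G3 (by norm_num)
        (le_trans (by norm_num) x0) (le_trans x1 (by norm_num)) (le_trans (by norm_num) T0)
      (le_trans T1 (by norm_num))
        (le_trans (by norm_num) hb2) (le_trans hb3 (by norm_num))
        (le_trans (by norm_num) s0) (le_trans s1 (by norm_num)))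
    exact tA3_G hs (e x T) (chkD4 r_A3_1G4 (by norm_num)
      (le_trans (by norm_num) x0) (le_trans x1 (by norm_num)) (le_trans (by norm_num) T0)
      (le_trans T1 (by norm_num))
      (le_trans (by norm_num) hb3) (le_trans k1 (by norm_num))
      (le_trans (by norm_num) s0) (le_trans s1 (by norm_num)))

/-! ### cell `A4` -/

/-- side of the `1` -/
def SA4 (x T : ℝ) (k : ℂ) : Prop :=
  (P1 iA4_0 x T k ∧ Gd iA4_0 x k) ∨
    (P1 iA4_1 x T k ∧ Gd iA4_1 x k) ∨
    (P1 iA4_2 x T k ∧ Gd iA4_2 x k) ∨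
    (P1 iA4_3 x T k ∧ Gd iA4_3 x k)

theorem tA4_G {s : ℝ} (hs : (⟨x, -hh x⟩ : ℂ) + k ≠ 1)
    (e : k = ⟨vy.val [x, T, k.re, s], kG.val [x, T, k.re, s]⟩)
    (h : ∃ e ∈ ([f1e iA4_0 vy kG, f1l iA4_0 vy kG, .of (f1z iA4_1 vy kG), f1e iA4_2 vy kG, f1l iA4_2 vy kG, f1e iA4_3 vy kG, f1l iA4_3 vy kG] : List D),
      0 < e.val [x, T, k.re, s]) : SA4 x T k := by
  obtain ⟨d, hd, hp⟩ := h
  simp only [List.mem_cons, List.not_mem_nil, or_false] at hd
  unfold SA4
  rcases hd with rfl | rfl | rfl | rfl | rfl | rfl | rfl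
  · exact Or.inl ⟨P1_e' e hp, Or.inr hs⟩
  · exact Or.inl ⟨P1_l' (by decide) e hp, Or.inr hs⟩
  · exact Or.inr (Or.inl ⟨P1_z' rfl e hp, Or.inl rfl⟩)
  · exact Or.inr (Or.inr (Or.inl ⟨P1_e' e hp, Or.inr hs⟩))
  · exact Or.inr (Or.inr (Or.inl ⟨P1_l' (by decide) e hp, Or.inr hs⟩))
  · exact Or.inr (Or.inr (Or.inr (⟨P1_e' e hp, Or.inr hs⟩)))
  · exact Or.inr (Or.inr (Or.inr (⟨P1_l' (by decide) e hp, Or.inr hs⟩)))

theorem sA4_G (x0 : 16 / 25 ≤ x) (x1 : x ≤ 13 / 20) (T0 : 3 / 50 ≤ T) (T1 : T ≤ 2 / 25) (hk : KG k) :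
    SA4 x T k := by
  by_cases hs : (⟨x, -hh x⟩ : ℂ) + k = 1
  · have e := sing hs T
    obtain ⟨d, hd, hp⟩ := chkD4 r_A4_1s (x := x) (y := T) (z := 0) (w := 0) (by norm_num)
      (le_trans (by norm_num) x0) (le_trans x1 (by norm_num)) (le_trans (by norm_num) T0)
      (le_trans T1 (by norm_num)) (by norm_num) (by norm_num) (by norm_num) (by norm_num)
    simp only [List.mem_cons, List.not_mem_nil, or_false] at hd
    unfold SA4
    subst hd
    exact Or.inr (Or.inl ⟨P1_z' rfl e hp, Or.inl rfl⟩)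
  · obtain ⟨s, s0, s1, e⟩ := hk.par
    have k0 := hk.1.1
    have k1 := hk.1.2
    rcases le_total k.re (3 / 20) with hb0 | hb0
    · exact tA4_G hs (e x T) (chkD4 r_A4_1G0 (by norm_num)
        (le_trans (by norm_num) x0) (le_trans x1 (by norm_num)) (le_trans (by norm_num) T0)
      (le_trans T1 (by norm_num))
        (le_trans (by norm_num) k0) (le_trans hb0 (by norm_num))
        (le_trans (by norm_num) s0) (le_trans s1 (by norm_num)))
    rcases le_total k.re (33 / 100) with hb1 | hb1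
    · exact tA4_G hs (e x T) (chkD4 r_A4_1G1 (by norm_num)
        (le_trans (by norm_num) x0) (le_trans x1 (by norm_num)) (le_trans (by norm_num) T0)
      (le_trans T1 (by norm_num))
        (le_trans (by norm_num) hb0) (le_trans hb1 (by norm_num))
        (le_trans (by norm_num) s0) (le_trans s1 (by norm_num)))
    rcases le_total k.re (39 / 100) with hb2 | hb2
    · exact tA4_G hs (e x T) (chkD4 r_A4_1G2 (by norm_num)
        (le_trans (by norm_num) x0) (le_trans x1 (by norm_num)) (le_trans (by norm_num) T0)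
      (le_trans T1 (by norm_num))
        (le_trans (by norm_num) hb1) (le_trans hb2 (by norm_num))
        (le_trans (by norm_num) s0) (le_trans s1 (by norm_num)))
    rcases le_total k.re (33 / 50) with hb3 | hb3
    · exact tA4_G hs (e x T) (chkD4 r_A4_1G3 (by norm_num)
        (le_trans (by norm_num) x0) (le_trans x1 (by norm_num)) (le_trans (by norm_num) T0)
      (le_trans T1 (by norm_num))
        (le_trans (by norm_num) hb2) (le_trans hb3 (by norm_num))
        (le_trans (by norm_num) s0) (le_trans s1 (by norm_num)))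
    exact tA4_G hs (e x T) (chkD4 r_A4_1G4 (by norm_num)
      (le_trans (by norm_num) x0) (le_trans x1 (by norm_num)) (le_trans (by norm_num) T0)
      (le_trans T1 (by norm_num))
      (le_trans (by norm_num) hb3) (le_trans k1 (by norm_num))
      (le_trans (by norm_num) s0) (le_trans s1 (by norm_num)))

/-! ### cell `A5` -/

/-- side of the `1` -/
def SA5 (x T : ℝ) (k : ℂ) : Prop :=
  (P1 iA5_0 x T k ∧ Gd iA5_0 x k) ∨
    (P1 iA5_1 x T k ∧ Gd iA5_1 x k)

theorem tA5_G {s : ℝ} (hs : (⟨x, -hh x⟩ : ℂ) + k ≠ 1)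
    (e : k = ⟨vy.val [x, T, k.re, s], kG.val [x, T, k.re, s]⟩)
    (h : ∃ e ∈ ([f1e iA5_0 vy kG, f1l iA5_0 vy kG, .of (f1z iA5_1 vy kG)] : List D),
      0 < e.val [x, T, k.re, s]) : SA5 x T k := by
  obtain ⟨d, hd, hp⟩ := h
  simp only [List.mem_cons, List.not_mem_nil, or_false] at hd
  unfold SA5
  rcases hd with rfl | rfl | rfl
  · exact Or.inl ⟨P1_e' e hp, Or.inr hs⟩
  · exact Or.inl ⟨P1_l' (by decide) e hp, Or.inr hs⟩
  · exact Or.inr (⟨P1_z' rfl e hp, Or.inl rfl⟩)

theorem sA5_G (x0 : 63 / 100 ≤ x) (x1 : x ≤ 16 / 25) (T0 : 2 / 25 ≤ T) (T1 : T ≤ 47 / 500) (hk : KG k) :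
    SA5 x T k := by
  by_cases hs : (⟨x, -hh x⟩ : ℂ) + k = 1
  · have e := sing hs T
    obtain ⟨d, hd, hp⟩ := chkD4 r_A5_1s (x := x) (y := T) (z := 0) (w := 0) (by norm_num)
      (le_trans (by norm_num) x0) (le_trans x1 (by norm_num)) (le_trans (by norm_num) T0)
      (le_trans T1 (by norm_num)) (by norm_num) (by norm_num) (by norm_num) (by norm_num)
    simp only [List.mem_cons, List.not_mem_nil, or_false] at hd
    unfold SA5
    subst hd
    exact Or.inr (⟨P1_z' rfl e hp, Or.inl rfl⟩)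
  · obtain ⟨s, s0, s1, e⟩ := hk.par
    have k0 := hk.1.1
    have k1 := hk.1.2
    rcases le_total k.re (3 / 20) with hb0 | hb0
    · exact tA5_G hs (e x T) (chkD4 r_A5_1G0 (by norm_num)
        (le_trans (by norm_num) x0) (le_trans x1 (by norm_num)) (le_trans (by norm_num) T0)
      (le_trans T1 (by norm_num))
        (le_trans (by norm_num) k0) (le_trans hb0 (by norm_num))
        (le_trans (by norm_num) s0) (le_trans s1 (by norm_num)))
    rcases le_total k.re (33 / 100) with hb1 | hb1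
    · exact tA5_G hs (e x T) (chkD4 r_A5_1G1 (by norm_num)
        (le_trans (by norm_num) x0) (le_trans x1 (by norm_num)) (le_trans (by norm_num) T0)
      (le_trans T1 (by norm_num))
        (le_trans (by norm_num) hb0) (le_trans hb1 (by norm_num))
        (le_trans (by norm_num) s0) (le_trans s1 (by norm_num)))
    rcases le_total k.re (39 / 100) with hb2 | hb2
    · exact tA5_G hs (e x T) (chkD4 r_A5_1G2 (by norm_num)
        (le_trans (by norm_num) x0) (le_trans x1 (by norm_num)) (le_trans (by norm_num) T0)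
      (le_trans T1 (by norm_num))
        (le_trans (by norm_num) hb1) (le_trans hb2 (by norm_num))
        (le_trans (by norm_num) s0) (le_trans s1 (by norm_num)))
    rcases le_total k.re (33 / 50) with hb3 | hb3
    · exact tA5_G hs (e x T) (chkD4 r_A5_1G3 (by norm_num)
        (le_trans (by norm_num) x0) (le_trans x1 (by norm_num)) (le_trans (by norm_num) T0)
      (le_trans T1 (by norm_num))
        (le_trans (by norm_num) hb2) (le_trans hb3 (by norm_num))
        (le_trans (by norm_num) s0) (le_trans s1 (by norm_num)))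
    exact tA5_G hs (e x T) (chkD4 r_A5_1G4 (by norm_num)
      (le_trans (by norm_num) x0) (le_trans x1 (by norm_num)) (le_trans (by norm_num) T0)
      (le_trans T1 (by norm_num))
      (le_trans (by norm_num) hb3) (le_trans k1 (by norm_num))
      (le_trans (by norm_num) s0) (le_trans s1 (by norm_num)))

/-! ### cell `A6` -/

/-- side of the `1` -/
def SA6 (x T : ℝ) (k : ℂ) : Prop :=
  (P1 iA6_0 x T k ∧ Gd iA6_0 x k) ∨
    (P1 iA6_1 x T k ∧ Gd iA6_1 x k) ∨
    (P1 iA6_2 x T k ∧ Gd iA6_2 x k)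

theorem tA6_G {s : ℝ} (hs : (⟨x, -hh x⟩ : ℂ) + k ≠ 1)
    (e : k = ⟨vy.val [x, T, k.re, s], kG.val [x, T, k.re, s]⟩)
    (h : ∃ e ∈ ([f1e iA6_0 vy kG, f1l iA6_0 vy kG, .of (f1z iA6_1 vy kG), f1e iA6_2 vy kG, f1l iA6_2 vy kG] : List D),
      0 < e.val [x, T, k.re, s]) : SA6 x T k := by
  obtain ⟨d, hd, hp⟩ := h
  simp only [List.mem_cons, List.not_mem_nil, or_false] at hd
  unfold SA6
  rcases hd with rfl | rfl | rfl | rfl | rfl
  · exact Or.inl ⟨P1_e' e hp, Or.inr hs⟩
  · exact Or.inl ⟨P1_l' (by decide) e hp, Or.inr hs⟩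
  · exact Or.inr (Or.inl ⟨P1_z' rfl e hp, Or.inl rfl⟩)
  · exact Or.inr (Or.inr (⟨P1_e' e hp, Or.inr hs⟩))
  · exact Or.inr (Or.inr (⟨P1_l' (by decide) e hp, Or.inr hs⟩))

theorem sA6_G (x0 : 16 / 25 ≤ x) (x1 : x ≤ 13 / 20) (T0 : 2 / 25 ≤ T) (T1 : T ≤ 23 / 250) (hk : KG k) :
    SA6 x T k := by
  by_cases hs : (⟨x, -hh x⟩ : ℂ) + k = 1
  · have e := sing hs T
    obtain ⟨d, hd, hp⟩ := chkD4 r_A6_1s (x := x) (y := T) (z := 0) (w := 0) (by norm_num)
      (le_trans (by norm_num) x0) (le_trans x1 (by norm_num)) (le_trans (by norm_num) T0)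
      (le_trans T1 (by norm_num)) (by norm_num) (by norm_num) (by norm_num) (by norm_num)
    simp only [List.mem_cons, List.not_mem_nil, or_false] at hd
    unfold SA6
    subst hd
    exact Or.inr (Or.inl ⟨P1_z' rfl e hp, Or.inl rfl⟩)
  · obtain ⟨s, s0, s1, e⟩ := hk.par
    have k0 := hk.1.1
    have k1 := hk.1.2
    rcases le_total k.re (3 / 20) with hb0 | hb0
    · exact tA6_G hs (e x T) (chkD4 r_A6_1G0 (by norm_num)
        (le_trans (by norm_num) x0) (le_trans x1 (by norm_num)) (le_trans (by norm_num) T0)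
      (le_trans T1 (by norm_num))
        (le_trans (by norm_num) k0) (le_trans hb0 (by norm_num))
        (le_trans (by norm_num) s0) (le_trans s1 (by norm_num)))
    rcases le_total k.re (33 / 100) with hb1 | hb1
    · exact tA6_G hs (e x T) (chkD4 r_A6_1G1 (by norm_num)
        (le_trans (by norm_num) x0) (le_trans x1 (by norm_num)) (le_trans (by norm_num) T0)
      (le_trans T1 (by norm_num))
        (le_trans (by norm_num) hb0) (le_trans hb1 (by norm_num))
        (le_trans (by norm_num) s0) (le_trans s1 (by norm_num)))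
    rcases le_total k.re (39 / 100) with hb2 | hb2
    · exact tA6_G hs (e x T) (chkD4 r_A6_1G2 (by norm_num)
        (le_trans (by norm_num) x0) (le_trans x1 (by norm_num)) (le_trans (by norm_num) T0)
      (le_trans T1 (by norm_num))
        (le_trans (by norm_num) hb1) (le_trans hb2 (by norm_num))
        (le_trans (by norm_num) s0) (le_trans s1 (by norm_num)))
    rcases le_total k.re (33 / 50) with hb3 | hb3
    · exact tA6_G hs (e x T) (chkD4 r_A6_1G3 (by norm_num)
        (le_trans (by norm_num) x0) (le_trans x1 (by norm_num)) (le_trans (by norm_num) T0)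
      (le_trans T1 (by norm_num))
        (le_trans (by norm_num) hb2) (le_trans hb3 (by norm_num))
        (le_trans (by norm_num) s0) (le_trans s1 (by norm_num)))
    exact tA6_G hs (e x T) (chkD4 r_A6_1G4 (by norm_num)
      (le_trans (by norm_num) x0) (le_trans x1 (by norm_num)) (le_trans (by norm_num) T0)
      (le_trans T1 (by norm_num))
      (le_trans (by norm_num) hb3) (le_trans k1 (by norm_num))
      (le_trans (by norm_num) s0) (le_trans s1 (by norm_num)))

/-! ### cell `A7` -/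

/-- side of the `1` -/
def SA7 (x T : ℝ) (k : ℂ) : Prop :=
  (P1 iA7_0 x T k ∧ Gd iA7_0 x k) ∨
    (P1 iA7_1 x T k ∧ Gd iA7_1 x k) ∨
    (P1 iA7_2 x T k ∧ Gd iA7_2 x k) ∨
    (P1 iA7_3 x T k ∧ Gd iA7_3 x k)

theorem tA7_W {s : ℝ} (hs : (⟨x, -hh x⟩ : ℂ) + k ≠ 1)
    (e : k = ⟨vy.val [x, T, k.re, s], kW.val [x, T, k.re, s]⟩)
    (h : ∃ e ∈ ([f1e iA7_0 vy kW, f1l iA7_0 vy kW, .of (f1z iA7_1 vy kW), f1e iA7_2 vy kW, f1l iA7_2 vy kW, f1e iA7_3 vy kW, f1l iA7_3 vy kW] : List D),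
      0 < e.val [x, T, k.re, s]) : SA7 x T k := by
  obtain ⟨d, hd, hp⟩ := h
  simp only [List.mem_cons, List.not_mem_nil, or_false] at hd
  unfold SA7
  rcases hd with rfl | rfl | rfl | rfl | rfl | rfl | rfl
  · exact Or.inl ⟨P1_e' e hp, Or.inr hs⟩
  · exact Or.inl ⟨P1_l' (by decide) e hp, Or.inr hs⟩
  · exact Or.inr (Or.inl ⟨P1_z' rfl e hp, Or.inl rfl⟩)
  · exact Or.inr (Or.inr (Or.inl ⟨P1_e' e hp, Or.inr hs⟩))
  · exact Or.inr (Or.inr (Or.inl ⟨P1_l' (by decide) e hp, Or.inr hs⟩))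
  · exact Or.inr (Or.inr (Or.inr (⟨P1_e' e hp, Or.inr hs⟩)))
  · exact Or.inr (Or.inr (Or.inr (⟨P1_l' (by decide) e hp, Or.inr hs⟩)))

theorem sA7_W (x0 : 16 / 25 ≤ x) (x1 : x ≤ 13 / 20) (T0 : 23 / 250 ≤ T) (T1 : T ≤ 47 / 500) (hk : KW k) :
    SA7 x T k := by
  by_cases hs : (⟨x, -hh x⟩ : ℂ) + k = 1
  · have e := sing hs T
    obtain ⟨d, hd, hp⟩ := chkD4 r_A7_1s (x := x) (y := T) (z := 0) (w := 0) (by norm_num)
      (le_trans (by norm_num) x0) (le_trans x1 (by norm_num)) (le_trans (by norm_num) T0)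
      (le_trans T1 (by norm_num)) (by norm_num) (by norm_num) (by norm_num) (by norm_num)
    simp only [List.mem_cons, List.not_mem_nil, or_false] at hd
    unfold SA7
    subst hd
    exact Or.inr (Or.inl ⟨P1_z' rfl e hp, Or.inl rfl⟩)
  · obtain ⟨s, s0, s1, e⟩ := hk.par
    have k0 := hk.1.1
    have k1 := hk.1.2
    rcases le_total k.re (3 / 20) with hb0 | hb0
    · exact tA7_W hs (e x T) (chkD4 r_A7_1W0 (by norm_num)
        (le_trans (by norm_num) x0) (le_trans x1 (by norm_num)) (le_trans (by norm_num) T0)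
      (le_trans T1 (by norm_num))
        (le_trans (by norm_num) k0) (le_trans hb0 (by norm_num))
        (le_trans (by norm_num) s0) (le_trans s1 (by norm_num)))
    rcases le_total k.re (33 / 100) with hb1 | hb1
    · exact tA7_W hs (e x T) (chkD4 r_A7_1W1 (by norm_num)
        (le_trans (by norm_num) x0) (le_trans x1 (by norm_num)) (le_trans (by norm_num) T0)
      (le_trans T1 (by norm_num))
        (le_trans (by norm_num) hb0) (le_trans hb1 (by norm_num))
        (le_trans (by norm_num) s0) (le_trans s1 (by norm_num)))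
    rcases le_total k.re (39 / 100) with hb2 | hb2
    · exact tA7_W hs (e x T) (chkD4 r_A7_1W2 (by norm_num)
        (le_trans (by norm_num) x0) (le_trans x1 (by norm_num)) (le_trans (by norm_num) T0)
      (le_trans T1 (by norm_num))
        (le_trans (by norm_num) hb1) (le_trans hb2 (by norm_num))
        (le_trans (by norm_num) s0) (le_trans s1 (by norm_num)))
    rcases le_total k.re (33 / 50) with hb3 | hb3
    · exact tA7_W hs (e x T) (chkD4 r_A7_1W3 (by norm_num)
        (le_trans (by norm_num) x0) (le_trans x1 (by norm_num)) (le_trans (by norm_num) T0)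
      (le_trans T1 (by norm_num))
        (le_trans (by norm_num) hb2) (le_trans hb3 (by norm_num))
        (le_trans (by norm_num) s0) (le_trans s1 (by norm_num)))
    exact tA7_W hs (e x T) (chkD4 r_A7_1W4 (by norm_num)
      (le_trans (by norm_num) x0) (le_trans x1 (by norm_num)) (le_trans (by norm_num) T0)
      (le_trans T1 (by norm_num))
      (le_trans (by norm_num) hb3) (le_trans k1 (by norm_num))
      (le_trans (by norm_num) s0) (le_trans s1 (by norm_num)))

/-! ### cell `EA` -/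

/-- side of the `1` -/
def SEA (x T : ℝ) (k : ℂ) : Prop :=
  (P1 iEA_0 x T k ∧ Gd iEA_0 x k) ∨
    (P1 iEA_1 x T k ∧ Gd iEA_1 x k) ∨
    (P1 iEA_2 x T k ∧ Gd iEA_2 x k) ∨
    (P1 iEA_3 x T k ∧ Gd iEA_3 x k)

theorem tEA_M {s : ℝ} (hs : (⟨x, -hh x⟩ : ℂ) + k ≠ 1)
    (e : k = ⟨vy.val [x, T, k.re, s], kM.val [x, T, k.re, s]⟩)
    (h : ∃ e ∈ ([f1e iEA_0 vy kM, f1l iEA_0 vy kM, .of (f1z iEA_1 vy kM), f1e iEA_2 vy kM, f1l iEA_2 vy kM, f1e iEA_3 vy kM, f1l iEA_3 vy kM] : List D),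
      0 < e.val [x, T, k.re, s]) : SEA x T k := by
  obtain ⟨d, hd, hp⟩ := h
  simp only [List.mem_cons, List.not_mem_nil, or_false] at hd
  unfold SEA
  rcases hd with rfl | rfl | rfl | rfl | rfl | rfl | rfl
  · exact Or.inl ⟨P1_e' e hp, Or.inr hs⟩
  · exact Or.inl ⟨P1_l' (by decide) e hp, Or.inr hs⟩
  · exact Or.inr (Or.inl ⟨P1_z' rfl e hp, Or.inl rfl⟩)
  · exact Or.inr (Or.inr (Or.inl ⟨P1_e' e hp, Or.inr hs⟩))
  · exact Or.inr (Or.inr (Or.inl ⟨P1_l' (by decide) e hp, Or.inr hs⟩))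
  · exact Or.inr (Or.inr (Or.inr (⟨P1_e' e hp, Or.inr hs⟩)))
  · exact Or.inr (Or.inr (Or.inr (⟨P1_l' (by decide) e hp, Or.inr hs⟩)))

theorem sEA_M (x0 : 63 / 100 ≤ x) (x1 : x ≤ 13 / 20) (T0 : 87 / 1000 ≤ T) (T1 : T ≤ 229 / 2000) (hk : KM k) :
    SEA x T k := by
  by_cases hs : (⟨x, -hh x⟩ : ℂ) + k = 1
  · have e := sing hs T
    obtain ⟨d, hd, hp⟩ := chkD4 r_EA_1s (x := x) (y := T) (z := 0) (w := 0) (by norm_num)
      (le_trans (by norm_num) x0) (le_trans x1 (by norm_num)) (le_trans (by norm_num) T0)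
      (le_trans T1 (by norm_num)) (by norm_num) (by norm_num) (by norm_num) (by norm_num)
    simp only [List.mem_cons, List.not_mem_nil, or_false] at hd
    unfold SEA
    subst hd
    exact Or.inr (Or.inl ⟨P1_z' rfl e hp, Or.inl rfl⟩)
  · obtain ⟨s, s0, s1, e⟩ := hk.par
    have k0 := hk.1.1
    have k1 := hk.1.2
    exact tEA_M hs (e x T) (chkD4 r_EA_1M0 (by norm_num)
      (le_trans (by norm_num) x0) (le_trans x1 (by norm_num)) (le_trans (by norm_num) T0)
      (le_trans T1 (by norm_num))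
      (le_trans (by norm_num) k0) (le_trans k1 (by norm_num))
      (le_trans (by norm_num) s0) (le_trans s1 (by norm_num)))

theorem tEA_U {s : ℝ} (hs : (⟨x, -hh x⟩ : ℂ) + k ≠ 1)
    (e : k = ⟨vy.val [x, T, k.re, s], kU.val [x, T, k.re, s]⟩)
    (h : ∃ e ∈ ([f1e iEA_0 vy kU, f1l iEA_0 vy kU, .of (f1z iEA_1 vy kU), f1e iEA_2 vy kU, f1l iEA_2 vy kU, f1e iEA_3 vy kU, f1l iEA_3 vy kU] : List D),
      0 < e.val [x, T, k.re, s]) : SEA x T k := by
  obtain ⟨d, hd, hp⟩ := h
  simp only [List.mem_cons, List.not_mem_nil, or_false] at hd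
  unfold SEA
  rcases hd with rfl | rfl | rfl | rfl | rfl | rfl | rfl
  · exact Or.inl ⟨P1_e' e hp, Or.inr hs⟩
  · exact Or.inl ⟨P1_l' (by decide) e hp, Or.inr hs⟩
  · exact Or.inr (Or.inl ⟨P1_z' rfl e hp, Or.inl rfl⟩)
  · exact Or.inr (Or.inr (Or.inl ⟨P1_e' e hp, Or.inr hs⟩))
  · exact Or.inr (Or.inr (Or.inl ⟨P1_l' (by decide) e hp, Or.inr hs⟩))
  · exact Or.inr (Or.inr (Or.inr (⟨P1_e' e hp, Or.inr hs⟩)))
  · exact Or.inr (Or.inr (Or.inr (⟨P1_l' (by decide) e hp, Or.inr hs⟩)))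

theorem sEA_U (x0 : 63 / 100 ≤ x) (x1 : x ≤ 13 / 20) (T0 : 87 / 1000 ≤ T) (T1 : T ≤ 229 / 2000) (hk : KU k) :
    SEA x T k := by
  by_cases hs : (⟨x, -hh x⟩ : ℂ) + k = 1
  · have e := sing hs T
    obtain ⟨d, hd, hp⟩ := chkD4 r_EA_1s (x := x) (y := T) (z := 0) (w := 0) (by norm_num)
      (le_trans (by norm_num) x0) (le_trans x1 (by norm_num)) (le_trans (by norm_num) T0)
      (le_trans T1 (by norm_num)) (by norm_num) (by norm_num) (by norm_num) (by norm_num)
    simp only [List.mem_cons, List.not_mem_nil, or_false] at hd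
    unfold SEA
    subst hd
    exact Or.inr (Or.inl ⟨P1_z' rfl e hp, Or.inl rfl⟩)
  · obtain ⟨s, s0, s1, e⟩ := hk.par
    have k0 := hk.1.1
    have k1 := hk.1.2
    exact tEA_U hs (e x T) (chkD4 r_EA_1U0 (by norm_num)
      (le_trans (by norm_num) x0) (le_trans x1 (by norm_num)) (le_trans (by norm_num) T0)
      (le_trans T1 (by norm_num))
      (le_trans (by norm_num) k0) (le_trans k1 (by norm_num))
      (le_trans (by norm_num) s0) (le_trans s1 (by norm_num)))

/-! ### cell `EC` -/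

/-- side of the `1` -/
def SEC (x T : ℝ) (k : ℂ) : Prop :=
  (P1 iEC_0 x T k ∧ Gd iEC_0 x k) ∨
    (P1 iEC_1 x T k ∧ Gd iEC_1 x k)

theorem tEC_M {s : ℝ} (hs : (⟨x, -hh x⟩ : ℂ) + k ≠ 1)
    (e : k = ⟨vy.val [x, T, k.re, s], kM.val [x, T, k.re, s]⟩)
    (h : ∃ e ∈ ([f1e iEC_0 vy kM, f1l iEC_0 vy kM, .of (f1z iEC_1 vy kM)] : List D),
      0 < e.val [x, T, k.re, s]) : SEC x T k := by
  obtain ⟨d, hd, hp⟩ := h
  simp only [List.mem_cons, List.not_mem_nil, or_false] at hd
  unfold SEC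
  rcases hd with rfl | rfl | rfl
  · exact Or.inl ⟨P1_e' e hp, Or.inr hs⟩
  · exact Or.inl ⟨P1_l' (by decide) e hp, Or.inr hs⟩
  · exact Or.inr (⟨P1_z' rfl e hp, Or.inl rfl⟩)

theorem sEC_M (x0 : 63 / 100 ≤ x) (x1 : x ≤ 13 / 20) (T0 : 87 / 1000 ≤ T) (T1 : T ≤ 229 / 2000) (hk : KM k) :
    SEC x T k := by
  by_cases hs : (⟨x, -hh x⟩ : ℂ) + k = 1
  · have e := sing hs T
    obtain ⟨d, hd, hp⟩ := chkD4 r_EC_1s (x := x) (y := T) (z := 0) (w := 0) (by norm_num)
      (le_trans (by norm_num) x0) (le_trans x1 (by norm_num)) (le_trans (by norm_num) T0)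
      (le_trans T1 (by norm_num)) (by norm_num) (by norm_num) (by norm_num) (by norm_num)
    simp only [List.mem_cons, List.not_mem_nil, or_false] at hd
    unfold SEC
    subst hd
    exact Or.inr (⟨P1_z' rfl e hp, Or.inl rfl⟩)
  · obtain ⟨s, s0, s1, e⟩ := hk.par
    have k0 := hk.1.1
    have k1 := hk.1.2
    exact tEC_M hs (e x T) (chkD4 r_EC_1M0 (by norm_num)
      (le_trans (by norm_num) x0) (le_trans x1 (by norm_num)) (le_trans (by norm_num) T0)
      (le_trans T1 (by norm_num))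
      (le_trans (by norm_num) k0) (le_trans k1 (by norm_num))
      (le_trans (by norm_num) s0) (le_trans s1 (by norm_num)))

theorem tEC_U {s : ℝ} (hs : (⟨x, -hh x⟩ : ℂ) + k ≠ 1)
    (e : k = ⟨vy.val [x, T, k.re, s], kU.val [x, T, k.re, s]⟩)
    (h : ∃ e ∈ ([f1e iEC_0 vy kU, f1l iEC_0 vy kU, .of (f1z iEC_1 vy kU)] : List D),
      0 < e.val [x, T, k.re, s]) : SEC x T k := by
  obtain ⟨d, hd, hp⟩ := h
  simp only [List.mem_cons, List.not_mem_nil, or_false] at hd
  unfold SEC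
  rcases hd with rfl | rfl | rfl
  · exact Or.inl ⟨P1_e' e hp, Or.inr hs⟩
  · exact Or.inl ⟨P1_l' (by decide) e hp, Or.inr hs⟩
  · exact Or.inr (⟨P1_z' rfl e hp, Or.inl rfl⟩)

theorem sEC_U (x0 : 63 / 100 ≤ x) (x1 : x ≤ 13 / 20) (T0 : 87 / 1000 ≤ T) (T1 : T ≤ 229 / 2000) (hk : KU k) :
    SEC x T k := by
  by_cases hs : (⟨x, -hh x⟩ : ℂ) + k = 1
  · have e := sing hs T
    obtain ⟨d, hd, hp⟩ := chkD4 r_EC_1s (x := x) (y := T) (z := 0) (w := 0) (by norm_num)
      (le_trans (by norm_num) x0) (le_trans x1 (by norm_num)) (le_trans (by norm_num) T0)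
      (le_trans T1 (by norm_num)) (by norm_num) (by norm_num) (by norm_num) (by norm_num)
    simp only [List.mem_cons, List.not_mem_nil, or_false] at hd
    unfold SEC
    subst hd
    exact Or.inr (⟨P1_z' rfl e hp, Or.inl rfl⟩)
  · obtain ⟨s, s0, s1, e⟩ := hk.par
    have k0 := hk.1.1
    have k1 := hk.1.2
    exact tEC_U hs (e x T) (chkD4 r_EC_1U0 (by norm_num)
      (le_trans (by norm_num) x0) (le_trans x1 (by norm_num)) (le_trans (by norm_num) T0)
      (le_trans T1 (by norm_num))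
      (le_trans (by norm_num) k0) (le_trans k1 (by norm_num))
      (le_trans (by norm_num) s0) (le_trans s1 (by norm_num)))

/-! ### cell `EN` -/

/-- side of the `1` -/
def SEN (x T : ℝ) (k : ℂ) : Prop :=
  (P1 iEN_0 x T k ∧ Gd iEN_0 x k)

theorem tEN_M {s : ℝ} (e : k = ⟨vy.val [x, T, k.re, s], kM.val [x, T, k.re, s]⟩)
    (h : ∃ e ∈ ([.of (f1z iEN_0 vy kM)] : List D),
      0 < e.val [x, T, k.re, s]) : SEN x T k := by
  obtain ⟨d, hd, hp⟩ := h
  simp only [List.mem_cons, List.not_mem_nil, or_false] at hd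
  unfold SEN
  subst hd
  exact ⟨P1_z' rfl e hp, Or.inl rfl⟩

theorem sEN_M (x0 : 63 / 100 ≤ x) (x1 : x ≤ 13 / 20) (T0 : 87 / 1000 ≤ T) (T1 : T ≤ 47 / 500) (hk : KM k) :
    SEN x T k := by
  obtain ⟨s, s0, s1, e⟩ := hk.par
  have k0 := hk.1.1
  have k1 := hk.1.2
  exact tEN_M (e x T) (chkD4 r_EN_1M0 (by norm_num)
    (le_trans (by norm_num) x0) (le_trans x1 (by norm_num)) (le_trans (by norm_num) T0)
      (le_trans T1 (by norm_num))
    (le_trans (by norm_num) k0) (le_trans k1 (by norm_num))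
    (le_trans (by norm_num) s0) (le_trans s1 (by norm_num)))

theorem tEN_U {s : ℝ} (e : k = ⟨vy.val [x, T, k.re, s], kU.val [x, T, k.re, s]⟩)
    (h : ∃ e ∈ ([.of (f1z iEN_0 vy kU)] : List D),
      0 < e.val [x, T, k.re, s]) : SEN x T k := by
  obtain ⟨d, hd, hp⟩ := h
  simp only [List.mem_cons, List.not_mem_nil, or_false] at hd
  unfold SEN
  subst hd
  exact ⟨P1_z' rfl e hp, Or.inl rfl⟩

theorem sEN_U (x0 : 63 / 100 ≤ x) (x1 : x ≤ 13 / 20) (T0 : 87 / 1000 ≤ T) (T1 : T ≤ 47 / 500) (hk : KU k) :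
    SEN x T k := by
  obtain ⟨s, s0, s1, e⟩ := hk.par
  have k0 := hk.1.1
  have k1 := hk.1.2
  exact tEN_U (e x T) (chkD4 r_EN_1U0 (by norm_num)
    (le_trans (by norm_num) x0) (le_trans x1 (by norm_num)) (le_trans (by norm_num) T0)
      (le_trans T1 (by norm_num))
    (le_trans (by norm_num) k0) (le_trans k1 (by norm_num))
    (le_trans (by norm_num) s0) (le_trans s1 (by norm_num)))

/-! ### cell `EU` -/

/-- side of the `1` -/
def SEU (x T : ℝ) (k : ℂ) : Prop :=
  (P1 iEU_0 x T k ∧ Gd iEU_0 x k) ∨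
    (P1 iEU_1 x T k ∧ Gd iEU_1 x k)

theorem tEU_M {s : ℝ} (hs : (⟨x, -hh x⟩ : ℂ) + k ≠ 1)
    (e : k = ⟨vy.val [x, T, k.re, s], kM.val [x, T, k.re, s]⟩)
    (h : ∃ e ∈ ([f1e iEU_0 vy kM, f1l iEU_0 vy kM, .of (f1z iEU_1 vy kM)] : List D),
      0 < e.val [x, T, k.re, s]) : SEU x T k := by
  obtain ⟨d, hd, hp⟩ := h
  simp only [List.mem_cons, List.not_mem_nil, or_false] at hd
  unfold SEU
  rcases hd with rfl | rfl | rfl
  · exact Or.inl ⟨P1_e' e hp, Or.inr hs⟩
  · exact Or.inl ⟨P1_l' (by decide) e hp, Or.inr hs⟩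
  · exact Or.inr (⟨P1_z' rfl e hp, Or.inl rfl⟩)

theorem sEU_M (x0 : 63 / 100 ≤ x) (x1 : x ≤ 13 / 20) (T0 : 87 / 1000 ≤ T) (T1 : T ≤ 229 / 2000) (hk : KM k) :
    SEU x T k := by
  by_cases hs : (⟨x, -hh x⟩ : ℂ) + k = 1
  · have e := sing hs T
    obtain ⟨d, hd, hp⟩ := chkD4 r_EU_1s (x := x) (y := T) (z := 0) (w := 0) (by norm_num)
      (le_trans (by norm_num) x0) (le_trans x1 (by norm_num)) (le_trans (by norm_num) T0)
      (le_trans T1 (by norm_num)) (by norm_num) (by norm_num) (by norm_num) (by norm_num)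
    simp only [List.mem_cons, List.not_mem_nil, or_false] at hd
    unfold SEU
    subst hd
    exact Or.inr (⟨P1_z' rfl e hp, Or.inl rfl⟩)
  · obtain ⟨s, s0, s1, e⟩ := hk.par
    have k0 := hk.1.1
    have k1 := hk.1.2
    exact tEU_M hs (e x T) (chkD4 r_EU_1M0 (by norm_num)
      (le_trans (by norm_num) x0) (le_trans x1 (by norm_num)) (le_trans (by norm_num) T0)
      (le_trans T1 (by norm_num))
      (le_trans (by norm_num) k0) (le_trans k1 (by norm_num))
      (le_trans (by norm_num) s0) (le_trans s1 (by norm_num)))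

theorem tEU_U {s : ℝ} (hs : (⟨x, -hh x⟩ : ℂ) + k ≠ 1)
    (e : k = ⟨vy.val [x, T, k.re, s], kU.val [x, T, k.re, s]⟩)
    (h : ∃ e ∈ ([f1e iEU_0 vy kU, f1l iEU_0 vy kU, .of (f1z iEU_1 vy kU)] : List D),
      0 < e.val [x, T, k.re, s]) : SEU x T k := by
  obtain ⟨d, hd, hp⟩ := h
  simp only [List.mem_cons, List.not_mem_nil, or_false] at hd
  unfold SEU
  rcases hd with rfl | rfl | rfl
  · exact Or.inl ⟨P1_e' e hp, Or.inr hs⟩
  · exact Or.inl ⟨P1_l' (by decide) e hp, Or.inr hs⟩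
  · exact Or.inr (⟨P1_z' rfl e hp, Or.inl rfl⟩)

theorem sEU_U (x0 : 63 / 100 ≤ x) (x1 : x ≤ 13 / 20) (T0 : 87 / 1000 ≤ T) (T1 : T ≤ 229 / 2000) (hk : KU k) :
    SEU x T k := by
  by_cases hs : (⟨x, -hh x⟩ : ℂ) + k = 1
  · have e := sing hs T
    obtain ⟨d, hd, hp⟩ := chkD4 r_EU_1s (x := x) (y := T) (z := 0) (w := 0) (by norm_num)
      (le_trans (by norm_num) x0) (le_trans x1 (by norm_num)) (le_trans (by norm_num) T0)
      (le_trans T1 (by norm_num)) (by norm_num) (by norm_num) (by norm_num) (by norm_num)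
    simp only [List.mem_cons, List.not_mem_nil, or_false] at hd
    unfold SEU
    subst hd
    exact Or.inr (⟨P1_z' rfl e hp, Or.inl rfl⟩)
  · obtain ⟨s, s0, s1, e⟩ := hk.par
    have k0 := hk.1.1
    have k1 := hk.1.2
    exact tEU_U hs (e x T) (chkD4 r_EU_1U0 (by norm_num)
      (le_trans (by norm_num) x0) (le_trans x1 (by norm_num)) (le_trans (by norm_num) T0)
      (le_trans T1 (by norm_num))
      (le_trans (by norm_num) k0) (le_trans k1 (by norm_num))
      (le_trans (by norm_num) s0) (le_trans s1 (by norm_num)))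

end R13

end Pool.Agent.Work.NumG
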