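import Pool.Agent.Work.MP_b30479_gt.G2.WM13RF
import Pool.Agent.Work.MP_b30479_gt.G2.WM13RS

/-!
# Kind `1 | 3`, slot `0`, right end: the components of the side of the `3`
-/

namespace Pool.Agent.Work.NumG

namespace R13

open MP_b30479_gt.G2.M13 (H)

variable {x T Tl pl : ℝ} {k l w : ℂ}

theorem cC_m0 (h : H x T Tl pl k l w) (z0 : 63 / 100 ≤ x) (x0 : 63 / 100 ≤ x) (x1 : x ≤ 13 / 20) (T0 : 21 / 1000 ≤ T) (T1 : T ≤ 47 / 500)
    (y0 : 1 / 2 ≤ l.re) (y1 : l.re ≤ 3 / 5) (t0 : -(9 / 100) ≤ Tl) (t1 : Tl ≤ 1 / 200)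
    (hl : l.im = Tl * MP_b30479_gt.G2.M13.τl l.re) (hp : pl = 0) (ne : l ≠ ⟨x, hh x⟩)
    (S : SC x T k) : False := by
  have a0 := h.s0
  have a1 := h.s1
  have e := lM_eq hl x T
  rcases S with S | S
  · exact finK h z0 ne (by decide) S (P3_lK' e (by decide) (chkD4 r_C_3_0_m0 (by norm_num)
      (le_trans (by norm_num) x0) (le_trans x1 (by norm_num)) (le_trans (by norm_num) T0)
      (le_trans T1 (by norm_num))
      (le_trans (by norm_num) y0) (le_trans y1 (by norm_num))
      (le_trans (by norm_num) t0) (le_trans t1 (by norm_num))) a0 a1 w)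
  · exact finK h z0 ne (by decide) S (P3_lY' e rfl (chkD4 r_C_3_1_m0 (by norm_num)
      (le_trans (by norm_num) x0) (le_trans x1 (by norm_num)) (le_trans (by norm_num) T0)
      (le_trans T1 (by norm_num))
      (le_trans (by norm_num) y0) (le_trans y1 (by norm_num))
      (le_trans (by norm_num) t0) (le_trans t1 (by norm_num))) a0 a1 w)

theorem cC_m1 (h : H x T Tl pl k l w) (z0 : 63 / 100 ≤ x) (x0 : 63 / 100 ≤ x) (x1 : x ≤ 13 / 20) (T0 : 21 / 1000 ≤ T) (T1 : T ≤ 47 / 500)
    (y0 : 3 / 5 ≤ l.re) (y1 : l.re ≤ 7 / 10) (t0 : -(9 / 100) ≤ Tl) (t1 : Tl ≤ -(1 / 100))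
    (hl : l.im = Tl * MP_b30479_gt.G2.M13.τl l.re) (hp : pl = 0) (ne : l ≠ ⟨x, hh x⟩)
    (S : SC x T k) : False := by
  have a0 := h.s0
  have a1 := h.s1
  have e := lM_eq hl x T
  rcases S with S | S
  · exact finK h z0 ne (by decide) S (P3_lK' e (by decide) (chkD4 r_C_3_0_m1 (by norm_num)
      (le_trans (by norm_num) x0) (le_trans x1 (by norm_num)) (le_trans (by norm_num) T0)
      (le_trans T1 (by norm_num))
      (le_trans (by norm_num) y0) (le_trans y1 (by norm_num))
      (le_trans (by norm_num) t0) (le_trans t1 (by norm_num))) a0 a1 w)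
  · exact finK h z0 ne (by decide) S (P3_lY' e rfl (chkD4 r_C_3_1_m1 (by norm_num)
      (le_trans (by norm_num) x0) (le_trans x1 (by norm_num)) (le_trans (by norm_num) T0)
      (le_trans T1 (by norm_num))
      (le_trans (by norm_num) y0) (le_trans y1 (by norm_num))
      (le_trans (by norm_num) t0) (le_trans t1 (by norm_num))) a0 a1 w)

theorem cC_m2 (h : H x T Tl pl k l w) (z0 : 63 / 100 ≤ x) (x0 : 63 / 100 ≤ x) (x1 : x ≤ 13 / 20) (T0 : 21 / 1000 ≤ T) (T1 : T ≤ 47 / 500)
    (y0 : 7 / 10 ≤ l.re) (y1 : l.re ≤ 3 / 4) (t0 : -(9 / 100) ≤ Tl) (t1 : Tl ≤ 1 / 200)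
    (hl : l.im = Tl * MP_b30479_gt.G2.M13.τl l.re) (hp : pl = 0) (ne : l ≠ ⟨x, hh x⟩)
    (S : SC x T k) : False := by
  have a0 := h.s0
  have a1 := h.s1
  have e := lM_eq hl x T
  rcases S with S | S
  · exact finK h z0 ne (by decide) S (P3_lK' e (by decide) (chkD4 r_C_3_0_m2 (by norm_num)
      (le_trans (by norm_num) x0) (le_trans x1 (by norm_num)) (le_trans (by norm_num) T0)
      (le_trans T1 (by norm_num))
      (le_trans (by norm_num) y0) (le_trans y1 (by norm_num))
      (le_trans (by norm_num) t0) (le_trans t1 (by norm_num))) a0 a1 w)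
  · exact finK h z0 ne (by decide) S (P3_lY' e rfl (chkD4 r_C_3_1_m2 (by norm_num)
      (le_trans (by norm_num) x0) (le_trans x1 (by norm_num)) (le_trans (by norm_num) T0)
      (le_trans T1 (by norm_num))
      (le_trans (by norm_num) y0) (le_trans y1 (by norm_num))
      (le_trans (by norm_num) t0) (le_trans t1 (by norm_num))) a0 a1 w)

theorem cC_m3 (h : H x T Tl pl k l w) (z0 : 63 / 100 ≤ x) (x0 : 63 / 100 ≤ x) (x1 : x ≤ 13 / 20) (T0 : 21 / 1000 ≤ T) (T1 : T ≤ 47 / 500)
    (y0 : 3 / 4 ≤ l.re) (y1 : l.re ≤ 4 / 5) (t0 : -(9 / 100) ≤ Tl) (t1 : Tl ≤ 1 / 200)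
    (hl : l.im = Tl * MP_b30479_gt.G2.M13.τl l.re) (hp : pl = 0) (ne : l ≠ ⟨x, hh x⟩)
    (S : SC x T k) : False := by
  have a0 := h.s0
  have a1 := h.s1
  have e := lM_eq hl x T
  rcases S with S | S
  · exact finK h z0 ne (by decide) S (P3_lK' e (by decide) (chkD4 r_C_3_0_m3 (by norm_num)
      (le_trans (by norm_num) x0) (le_trans x1 (by norm_num)) (le_trans (by norm_num) T0)
      (le_trans T1 (by norm_num))
      (le_trans (by norm_num) y0) (le_trans y1 (by norm_num))
      (le_trans (by norm_num) t0) (le_trans t1 (by norm_num))) a0 a1 w)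
  · exact finK h z0 ne (by decide) S (P3_lY' e rfl (chkD4 r_C_3_1_m3 (by norm_num)
      (le_trans (by norm_num) x0) (le_trans x1 (by norm_num)) (le_trans (by norm_num) T0)
      (le_trans T1 (by norm_num))
      (le_trans (by norm_num) y0) (le_trans y1 (by norm_num))
      (le_trans (by norm_num) t0) (le_trans t1 (by norm_num))) a0 a1 w)

theorem cU_u0 (h : H x T Tl pl k l w) (z0 : 63 / 100 ≤ x) (x0 : 63 / 100 ≤ x) (x1 : x ≤ 13 / 20) (T0 : 21 / 1000 ≤ T) (T1 : T ≤ 47 / 500)
    (y0 : 0 ≤ l.re) (y1 : l.re ≤ 1 / 100) (t0 : -(9 / 100) ≤ Tl) (t1 : Tl ≤ 0)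
    (hl : l.im = 16 / 100 * MP_b30479_gt.G2.M13.τl l.re)
    (hp : pl = 16 / 100 * MP_b30479_gt.G2.M13.τl l.re)
    (S : SU x T k) : False := by
  have a0 := h.s0
  have a1 := h.s1
  have ne := ne_up h z0 hl
  have e := lU_eq hl x T Tl
  have far := farU h t1 hl hp
  rcases S with S | S | S
  · exact finR h z0 ne (by decide) S (P3_lR' e (by decide) (chkD4 r_U_3_0_u0 (by norm_num)
      (le_trans (by norm_num) x0) (le_trans x1 (by norm_num)) (le_trans (by norm_num) T0)
      (le_trans T1 (by norm_num))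
      (le_trans (by norm_num) y0) (le_trans y1 (by norm_num))
      (le_trans (by norm_num) t0) (le_trans t1 (by norm_num))) a0 a1 far)
  · exact finR h z0 ne (by decide) S (P3_lZ' e rfl (chkD4 r_U_3_1_u0 (by norm_num)
      (le_trans (by norm_num) x0) (le_trans x1 (by norm_num)) (le_trans (by norm_num) T0)
      (le_trans T1 (by norm_num))
      (le_trans (by norm_num) y0) (le_trans y1 (by norm_num))
      (le_trans (by norm_num) t0) (le_trans t1 (by norm_num))) a0 a1 far)
  · exact finR h z0 ne (by decide) S (P3_lR' e (by decide) (chkD4 r_U_3_2_u0 (by norm_num)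
      (le_trans (by norm_num) x0) (le_trans x1 (by norm_num)) (le_trans (by norm_num) T0)
      (le_trans T1 (by norm_num))
      (le_trans (by norm_num) y0) (le_trans y1 (by norm_num))
      (le_trans (by norm_num) t0) (le_trans t1 (by norm_num))) a0 a1 far)

theorem cU_u1 (h : H x T Tl pl k l w) (z0 : 63 / 100 ≤ x) (x0 : 63 / 100 ≤ x) (x1 : x ≤ 13 / 20) (T0 : 21 / 1000 ≤ T) (T1 : T ≤ 47 / 500)
    (y0 : 1 / 100 ≤ l.re) (y1 : l.re ≤ 3 / 100) (t0 : -(9 / 100) ≤ Tl) (t1 : Tl ≤ 0)
    (hl : l.im = 16 / 100 * MP_b30479_gt.G2.M13.τl l.re)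
    (hp : pl = 16 / 100 * MP_b30479_gt.G2.M13.τl l.re)
    (S : SU x T k) : False := by
  have a0 := h.s0
  have a1 := h.s1
  have ne := ne_up h z0 hl
  have e := lU_eq hl x T Tl
  have far := farU h t1 hl hp
  rcases S with S | S | S
  · exact finR h z0 ne (by decide) S (P3_lR' e (by decide) (chkD4 r_U_3_0_u1 (by norm_num)
      (le_trans (by norm_num) x0) (le_trans x1 (by norm_num)) (le_trans (by norm_num) T0)
      (le_trans T1 (by norm_num))
      (le_trans (by norm_num) y0) (le_trans y1 (by norm_num))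
      (le_trans (by norm_num) t0) (le_trans t1 (by norm_num))) a0 a1 far)
  · exact finR h z0 ne (by decide) S (P3_lZ' e rfl (chkD4 r_U_3_1_u1 (by norm_num)
      (le_trans (by norm_num) x0) (le_trans x1 (by norm_num)) (le_trans (by norm_num) T0)
      (le_trans T1 (by norm_num))
      (le_trans (by norm_num) y0) (le_trans y1 (by norm_num))
      (le_trans (by norm_num) t0) (le_trans t1 (by norm_num))) a0 a1 far)
  · exact finR h z0 ne (by decide) S (P3_lR' e (by decide) (chkD4 r_U_3_2_u1 (by norm_num)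
      (le_trans (by norm_num) x0) (le_trans x1 (by norm_num)) (le_trans (by norm_num) T0)
      (le_trans T1 (by norm_num))
      (le_trans (by norm_num) y0) (le_trans y1 (by norm_num))
      (le_trans (by norm_num) t0) (le_trans t1 (by norm_num))) a0 a1 far)

theorem cU_u2 (h : H x T Tl pl k l w) (z0 : 63 / 100 ≤ x) (x0 : 63 / 100 ≤ x) (x1 : x ≤ 13 / 20) (T0 : 21 / 1000 ≤ T) (T1 : T ≤ 47 / 500)
    (y0 : 3 / 100 ≤ l.re) (y1 : l.re ≤ 1 / 10) (t0 : -(9 / 100) ≤ Tl) (t1 : Tl ≤ 0)
    (hl : l.im = 16 / 100 * MP_b30479_gt.G2.M13.τl l.re)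
    (hp : pl = 16 / 100 * MP_b30479_gt.G2.M13.τl l.re)
    (S : SU x T k) : False := by
  have a0 := h.s0
  have a1 := h.s1
  have ne := ne_up h z0 hl
  have e := lU_eq hl x T Tl
  have far := farU h t1 hl hp
  rcases S with S | S | S
  · exact finR h z0 ne (by decide) S (P3_lR' e (by decide) (chkD4 r_U_3_0_u2 (by norm_num)
      (le_trans (by norm_num) x0) (le_trans x1 (by norm_num)) (le_trans (by norm_num) T0)
      (le_trans T1 (by norm_num))
      (le_trans (by norm_num) y0) (le_trans y1 (by norm_num))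
      (le_trans (by norm_num) t0) (le_trans t1 (by norm_num))) a0 a1 far)
  · exact finR h z0 ne (by decide) S (P3_lZ' e rfl (chkD4 r_U_3_1_u2 (by norm_num)
      (le_trans (by norm_num) x0) (le_trans x1 (by norm_num)) (le_trans (by norm_num) T0)
      (le_trans T1 (by norm_num))
      (le_trans (by norm_num) y0) (le_trans y1 (by norm_num))
      (le_trans (by norm_num) t0) (le_trans t1 (by norm_num))) a0 a1 far)
  · exact finR h z0 ne (by decide) S (P3_lR' e (by decide) (chkD4 r_U_3_2_u2 (by norm_num)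
      (le_trans (by norm_num) x0) (le_trans x1 (by norm_num)) (le_trans (by norm_num) T0)
      (le_trans T1 (by norm_num))
      (le_trans (by norm_num) y0) (le_trans y1 (by norm_num))
      (le_trans (by norm_num) t0) (le_trans t1 (by norm_num))) a0 a1 far)

theorem cU_u3 (h : H x T Tl pl k l w) (z0 : 63 / 100 ≤ x) (x0 : 63 / 100 ≤ x) (x1 : x ≤ 13 / 20) (T0 : 21 / 1000 ≤ T) (T1 : T ≤ 47 / 500)
    (y0 : 1 / 10 ≤ l.re) (y1 : l.re ≤ 1 / 2) (t0 : -(9 / 100) ≤ Tl) (t1 : Tl ≤ 0)
    (hl : l.im = 16 / 100 * MP_b30479_gt.G2.M13.τl l.re)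
    (hp : pl = 16 / 100 * MP_b30479_gt.G2.M13.τl l.re)
    (S : SU x T k) : False := by
  have a0 := h.s0
  have a1 := h.s1
  have ne := ne_up h z0 hl
  have e := lU_eq hl x T Tl
  have far := farU h t1 hl hp
  rcases S with S | S | S
  · exact finR h z0 ne (by decide) S (P3_lR' e (by decide) (chkD4 r_U_3_0_u3 (by norm_num)
      (le_trans (by norm_num) x0) (le_trans x1 (by norm_num)) (le_trans (by norm_num) T0)
      (le_trans T1 (by norm_num))
      (le_trans (by norm_num) y0) (le_trans y1 (by norm_num))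
      (le_trans (by norm_num) t0) (le_trans t1 (by norm_num))) a0 a1 far)
  · exact finR h z0 ne (by decide) S (P3_lZ' e rfl (chkD4 r_U_3_1_u3 (by norm_num)
      (le_trans (by norm_num) x0) (le_trans x1 (by norm_num)) (le_trans (by norm_num) T0)
      (le_trans T1 (by norm_num))
      (le_trans (by norm_num) y0) (le_trans y1 (by norm_num))
      (le_trans (by norm_num) t0) (le_trans t1 (by norm_num))) a0 a1 far)
  · exact finR h z0 ne (by decide) S (P3_lR' e (by decide) (chkD4 r_U_3_2_u3 (by norm_num)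
      (le_trans (by norm_num) x0) (le_trans x1 (by norm_num)) (le_trans (by norm_num) T0)
      (le_trans T1 (by norm_num))
      (le_trans (by norm_num) y0) (le_trans y1 (by norm_num))
      (le_trans (by norm_num) t0) (le_trans t1 (by norm_num))) a0 a1 far)

theorem cU_u4 (h : H x T Tl pl k l w) (z0 : 63 / 100 ≤ x) (x0 : 63 / 100 ≤ x) (x1 : x ≤ 13 / 20) (T0 : 21 / 1000 ≤ T) (T1 : T ≤ 47 / 500)
    (y0 : 1 / 2 ≤ l.re) (y1 : l.re ≤ 3 / 4) (t0 : -(9 / 100) ≤ Tl) (t1 : Tl ≤ 0)
    (hl : l.im = 16 / 100 * MP_b30479_gt.G2.M13.τl l.re)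
    (hp : pl = 16 / 100 * MP_b30479_gt.G2.M13.τl l.re)
    (S : SU x T k) : False := by
  have a0 := h.s0
  have a1 := h.s1
  have ne := ne_up h z0 hl
  have e := lU_eq hl x T Tl
  have far := farU h t1 hl hp
  rcases S with S | S | S
  · exact finR h z0 ne (by decide) S (P3_lR' e (by decide) (chkD4 r_U_3_0_u4 (by norm_num)
      (le_trans (by norm_num) x0) (le_trans x1 (by norm_num)) (le_trans (by norm_num) T0)
      (le_trans T1 (by norm_num))
      (le_trans (by norm_num) y0) (le_trans y1 (by norm_num))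
      (le_trans (by norm_num) t0) (le_trans t1 (by norm_num))) a0 a1 far)
  · exact finR h z0 ne (by decide) S (P3_lZ' e rfl (chkD4 r_U_3_1_u4 (by norm_num)
      (le_trans (by norm_num) x0) (le_trans x1 (by norm_num)) (le_trans (by norm_num) T0)
      (le_trans T1 (by norm_num))
      (le_trans (by norm_num) y0) (le_trans y1 (by norm_num))
      (le_trans (by norm_num) t0) (le_trans t1 (by norm_num))) a0 a1 far)
  · exact finR h z0 ne (by decide) S (P3_lR' e (by decide) (chkD4 r_U_3_2_u4 (by norm_num)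
      (le_trans (by norm_num) x0) (le_trans x1 (by norm_num)) (le_trans (by norm_num) T0)
      (le_trans T1 (by norm_num))
      (le_trans (by norm_num) y0) (le_trans y1 (by norm_num))
      (le_trans (by norm_num) t0) (le_trans t1 (by norm_num))) a0 a1 far)

theorem cU_u5 (h : H x T Tl pl k l w) (z0 : 63 / 100 ≤ x) (x0 : 63 / 100 ≤ x) (x1 : x ≤ 13 / 20) (T0 : 21 / 1000 ≤ T) (T1 : T ≤ 47 / 500)
    (y0 : 3 / 4 ≤ l.re) (y1 : l.re ≤ 77 / 100) (t0 : -(9 / 100) ≤ Tl) (t1 : Tl ≤ 0)
    (hl : l.im = 16 / 100 * MP_b30479_gt.G2.M13.τl l.re)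
    (hp : pl = 16 / 100 * MP_b30479_gt.G2.M13.τl l.re)
    (S : SU x T k) : False := by
  have a0 := h.s0
  have a1 := h.s1
  have ne := ne_up h z0 hl
  have e := lU_eq hl x T Tl
  have far := farU h t1 hl hp
  rcases S with S | S | S
  · exact finR h z0 ne (by decide) S (P3_lR' e (by decide) (chkD4 r_U_3_0_u5 (by norm_num)
      (le_trans (by norm_num) x0) (le_trans x1 (by norm_num)) (le_trans (by norm_num) T0)
      (le_trans T1 (by norm_num))
      (le_trans (by norm_num) y0) (le_trans y1 (by norm_num))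
      (le_trans (by norm_num) t0) (le_trans t1 (by norm_num))) a0 a1 far)
  · exact finR h z0 ne (by decide) S (P3_lZ' e rfl (chkD4 r_U_3_1_u5 (by norm_num)
      (le_trans (by norm_num) x0) (le_trans x1 (by norm_num)) (le_trans (by norm_num) T0)
      (le_trans T1 (by norm_num))
      (le_trans (by norm_num) y0) (le_trans y1 (by norm_num))
      (le_trans (by norm_num) t0) (le_trans t1 (by norm_num))) a0 a1 far)
  · exact finR h z0 ne (by decide) S (P3_lR' e (by decide) (chkD4 r_U_3_2_u5 (by norm_num)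
      (le_trans (by norm_num) x0) (le_trans x1 (by norm_num)) (le_trans (by norm_num) T0)
      (le_trans T1 (by norm_num))
      (le_trans (by norm_num) y0) (le_trans y1 (by norm_num))
      (le_trans (by norm_num) t0) (le_trans t1 (by norm_num))) a0 a1 far)

theorem cU_u6 (h : H x T Tl pl k l w) (z0 : 63 / 100 ≤ x) (x0 : 63 / 100 ≤ x) (x1 : x ≤ 13 / 20) (T0 : 21 / 1000 ≤ T) (T1 : T ≤ 47 / 500)
    (y0 : 77 / 100 ≤ l.re) (y1 : l.re ≤ 79 / 100) (t0 : -(9 / 100) ≤ Tl) (t1 : Tl ≤ 0)
    (hl : l.im = 16 / 100 * MP_b30479_gt.G2.M13.τl l.re)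
    (hp : pl = 16 / 100 * MP_b30479_gt.G2.M13.τl l.re)
    (S : SU x T k) : False := by
  have a0 := h.s0
  have a1 := h.s1
  have ne := ne_up h z0 hl
  have e := lU_eq hl x T Tl
  have far := farU h t1 hl hp
  rcases S with S | S | S
  · exact finR h z0 ne (by decide) S (P3_lR' e (by decide) (chkD4 r_U_3_0_u6 (by norm_num)
      (le_trans (by norm_num) x0) (le_trans x1 (by norm_num)) (le_trans (by norm_num) T0)
      (le_trans T1 (by norm_num))
      (le_trans (by norm_num) y0) (le_trans y1 (by norm_num))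
      (le_trans (by norm_num) t0) (le_trans t1 (by norm_num))) a0 a1 far)
  · exact finR h z0 ne (by decide) S (P3_lZ' e rfl (chkD4 r_U_3_1_u6 (by norm_num)
      (le_trans (by norm_num) x0) (le_trans x1 (by norm_num)) (le_trans (by norm_num) T0)
      (le_trans T1 (by norm_num))
      (le_trans (by norm_num) y0) (le_trans y1 (by norm_num))
      (le_trans (by norm_num) t0) (le_trans t1 (by norm_num))) a0 a1 far)
  · exact finR h z0 ne (by decide) S (P3_lR' e (by decide) (chkD4 r_U_3_2_u6 (by norm_num)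
      (le_trans (by norm_num) x0) (le_trans x1 (by norm_num)) (le_trans (by norm_num) T0)
      (le_trans T1 (by norm_num))
      (le_trans (by norm_num) y0) (le_trans y1 (by norm_num))
      (le_trans (by norm_num) t0) (le_trans t1 (by norm_num))) a0 a1 far)

theorem cU_u7 (h : H x T Tl pl k l w) (z0 : 63 / 100 ≤ x) (x0 : 63 / 100 ≤ x) (x1 : x ≤ 13 / 20) (T0 : 21 / 1000 ≤ T) (T1 : T ≤ 47 / 500)
    (y0 : 79 / 100 ≤ l.re) (y1 : l.re ≤ 4 / 5) (t0 : -(9 / 100) ≤ Tl) (t1 : Tl ≤ 0)
    (hl : l.im = 16 / 100 * MP_b30479_gt.G2.M13.τl l.re)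
    (hp : pl = 16 / 100 * MP_b30479_gt.G2.M13.τl l.re)
    (S : SU x T k) : False := by
  have a0 := h.s0
  have a1 := h.s1
  have ne := ne_up h z0 hl
  have e := lU_eq hl x T Tl
  have far := farU h t1 hl hp
  rcases S with S | S | S
  · exact finR h z0 ne (by decide) S (P3_lR' e (by decide) (chkD4 r_U_3_0_u7 (by norm_num)
      (le_trans (by norm_num) x0) (le_trans x1 (by norm_num)) (le_trans (by norm_num) T0)
      (le_trans T1 (by norm_num))
      (le_trans (by norm_num) y0) (le_trans y1 (by norm_num))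
      (le_trans (by norm_num) t0) (le_trans t1 (by norm_num))) a0 a1 far)
  · exact finR h z0 ne (by decide) S (P3_lZ' e rfl (chkD4 r_U_3_1_u7 (by norm_num)
      (le_trans (by norm_num) x0) (le_trans x1 (by norm_num)) (le_trans (by norm_num) T0)
      (le_trans T1 (by norm_num))
      (le_trans (by norm_num) y0) (le_trans y1 (by norm_num))
      (le_trans (by norm_num) t0) (le_trans t1 (by norm_num))) a0 a1 far)
  · exact finR h z0 ne (by decide) S (P3_lR' e (by decide) (chkD4 r_U_3_2_u7 (by norm_num)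
      (le_trans (by norm_num) x0) (le_trans x1 (by norm_num)) (le_trans (by norm_num) T0)
      (le_trans T1 (by norm_num))
      (le_trans (by norm_num) y0) (le_trans y1 (by norm_num))
      (le_trans (by norm_num) t0) (le_trans t1 (by norm_num))) a0 a1 far)

theorem cU_d8 (h : H x T Tl pl k l w) (z0 : 63 / 100 ≤ x) (x0 : 63 / 100 ≤ x) (x1 : x ≤ 13 / 20) (T0 : 21 / 1000 ≤ T) (T1 : T ≤ 47 / 500)
    (y0 : 0 ≤ l.re) (y1 : l.re ≤ 1 / 100) (t0 : 0 ≤ Tl) (t1 : Tl ≤ 1 / 200)
    (hl : l.im = -(16 / 100 * MP_b30479_gt.G2.M13.τl l.re))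
    (hp : pl = 16 / 100 * MP_b30479_gt.G2.M13.τl l.re)
    (S : SU x T k) : False := by
  have a0 := h.s0
  have a1 := h.s1
  have ne := ne_neg h (by rw [hl]; linarith only [τl_nonneg l.re])
  have e := lD_eq hl x T Tl
  have far := farD h t0 hl hp
  rcases S with S | S | S
  · exact finR h z0 ne (by decide) S (P3_lR' e (by decide) (chkD4 r_U_3_0_d8 (by norm_num)
      (le_trans (by norm_num) x0) (le_trans x1 (by norm_num)) (le_trans (by norm_num) T0)
      (le_trans T1 (by norm_num))
      (le_trans (by norm_num) y0) (le_trans y1 (by norm_num))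
      (le_trans (by norm_num) t0) (le_trans t1 (by norm_num))) a0 a1 far)
  · exact finR h z0 ne (by decide) S (P3_lZ' e rfl (chkD4 r_U_3_1_d8 (by norm_num)
      (le_trans (by norm_num) x0) (le_trans x1 (by norm_num)) (le_trans (by norm_num) T0)
      (le_trans T1 (by norm_num))
      (le_trans (by norm_num) y0) (le_trans y1 (by norm_num))
      (le_trans (by norm_num) t0) (le_trans t1 (by norm_num))) a0 a1 far)
  · exact finR h z0 ne (by decide) S (P3_lR' e (by decide) (chkD4 r_U_3_2_d8 (by norm_num)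
      (le_trans (by norm_num) x0) (le_trans x1 (by norm_num)) (le_trans (by norm_num) T0)
      (le_trans T1 (by norm_num))
      (le_trans (by norm_num) y0) (le_trans y1 (by norm_num))
      (le_trans (by norm_num) t0) (le_trans t1 (by norm_num))) a0 a1 far)

theorem cU_d9 (h : H x T Tl pl k l w) (z0 : 63 / 100 ≤ x) (x0 : 63 / 100 ≤ x) (x1 : x ≤ 13 / 20) (T0 : 21 / 1000 ≤ T) (T1 : T ≤ 47 / 500)
    (y0 : 1 / 100 ≤ l.re) (y1 : l.re ≤ 1 / 20) (t0 : 0 ≤ Tl) (t1 : Tl ≤ 1 / 200)
    (hl : l.im = -(16 / 100 * MP_b30479_gt.G2.M13.τl l.re))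
    (hp : pl = 16 / 100 * MP_b30479_gt.G2.M13.τl l.re)
    (S : SU x T k) : False := by
  have a0 := h.s0
  have a1 := h.s1
  have ne := ne_neg h (by rw [hl]; linarith only [τl_nonneg l.re])
  have e := lD_eq hl x T Tl
  have far := farD h t0 hl hp
  rcases S with S | S | S
  · exact finR h z0 ne (by decide) S (P3_lR' e (by decide) (chkD4 r_U_3_0_d9 (by norm_num)
      (le_trans (by norm_num) x0) (le_trans x1 (by norm_num)) (le_trans (by norm_num) T0)
      (le_trans T1 (by norm_num))
      (le_trans (by norm_num) y0) (le_trans y1 (by norm_num))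
      (le_trans (by norm_num) t0) (le_trans t1 (by norm_num))) a0 a1 far)
  · exact finR h z0 ne (by decide) S (P3_lZ' e rfl (chkD4 r_U_3_1_d9 (by norm_num)
      (le_trans (by norm_num) x0) (le_trans x1 (by norm_num)) (le_trans (by norm_num) T0)
      (le_trans T1 (by norm_num))
      (le_trans (by norm_num) y0) (le_trans y1 (by norm_num))
      (le_trans (by norm_num) t0) (le_trans t1 (by norm_num))) a0 a1 far)
  · exact finR h z0 ne (by decide) S (P3_lR' e (by decide) (chkD4 r_U_3_2_d9 (by norm_num)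
      (le_trans (by norm_num) x0) (le_trans x1 (by norm_num)) (le_trans (by norm_num) T0)
      (le_trans T1 (by norm_num))
      (le_trans (by norm_num) y0) (le_trans y1 (by norm_num))
      (le_trans (by norm_num) t0) (le_trans t1 (by norm_num))) a0 a1 far)

theorem cU_d10 (h : H x T Tl pl k l w) (z0 : 63 / 100 ≤ x) (x0 : 63 / 100 ≤ x) (x1 : x ≤ 13 / 20) (T0 : 21 / 1000 ≤ T) (T1 : T ≤ 47 / 500)
    (y0 : 1 / 20 ≤ l.re) (y1 : l.re ≤ 1 / 10) (t0 : 0 ≤ Tl) (t1 : Tl ≤ 1 / 200)
    (hl : l.im = -(16 / 100 * MP_b30479_gt.G2.M13.τl l.re))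
    (hp : pl = 16 / 100 * MP_b30479_gt.G2.M13.τl l.re)
    (S : SU x T k) : False := by
  have a0 := h.s0
  have a1 := h.s1
  have ne := ne_neg h (by rw [hl]; linarith only [τl_nonneg l.re])
  have e := lD_eq hl x T Tl
  have far := farD h t0 hl hp
  rcases S with S | S | S
  · exact finR h z0 ne (by decide) S (P3_lR' e (by decide) (chkD4 r_U_3_0_d10 (by norm_num)
      (le_trans (by norm_num) x0) (le_trans x1 (by norm_num)) (le_trans (by norm_num) T0)
      (le_trans T1 (by norm_num))
      (le_trans (by norm_num) y0) (le_trans y1 (by norm_num))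
      (le_trans (by norm_num) t0) (le_trans t1 (by norm_num))) a0 a1 far)
  · exact finR h z0 ne (by decide) S (P3_lZ' e rfl (chkD4 r_U_3_1_d10 (by norm_num)
      (le_trans (by norm_num) x0) (le_trans x1 (by norm_num)) (le_trans (by norm_num) T0)
      (le_trans T1 (by norm_num))
      (le_trans (by norm_num) y0) (le_trans y1 (by norm_num))
      (le_trans (by norm_num) t0) (le_trans t1 (by norm_num))) a0 a1 far)
  · exact finR h z0 ne (by decide) S (P3_lR' e (by decide) (chkD4 r_U_3_2_d10 (by norm_num)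
      (le_trans (by norm_num) x0) (le_trans x1 (by norm_num)) (le_trans (by norm_num) T0)
      (le_trans T1 (by norm_num))
      (le_trans (by norm_num) y0) (le_trans y1 (by norm_num))
      (le_trans (by norm_num) t0) (le_trans t1 (by norm_num))) a0 a1 far)

theorem cU_d11 (h : H x T Tl pl k l w) (z0 : 63 / 100 ≤ x) (x0 : 63 / 100 ≤ x) (x1 : x ≤ 13 / 20) (T0 : 21 / 1000 ≤ T) (T1 : T ≤ 47 / 500)
    (y0 : 1 / 10 ≤ l.re) (y1 : l.re ≤ 3 / 4) (t0 : 0 ≤ Tl) (t1 : Tl ≤ 1 / 200)
    (hl : l.im = -(16 / 100 * MP_b30479_gt.G2.M13.τl l.re))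
    (hp : pl = 16 / 100 * MP_b30479_gt.G2.M13.τl l.re)
    (S : SU x T k) : False := by
  have a0 := h.s0
  have a1 := h.s1
  have ne := ne_neg h (by rw [hl]; linarith only [τl_nonneg l.re])
  have e := lD_eq hl x T Tl
  have far := farD h t0 hl hp
  rcases S with S | S | S
  · exact finR h z0 ne (by decide) S (P3_lR' e (by decide) (chkD4 r_U_3_0_d11 (by norm_num)
      (le_trans (by norm_num) x0) (le_trans x1 (by norm_num)) (le_trans (by norm_num) T0)
      (le_trans T1 (by norm_num))
      (le_trans (by norm_num) y0) (le_trans y1 (by norm_num))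
      (le_trans (by norm_num) t0) (le_trans t1 (by norm_num))) a0 a1 far)
  · exact finR h z0 ne (by decide) S (P3_lZ' e rfl (chkD4 r_U_3_1_d11 (by norm_num)
      (le_trans (by norm_num) x0) (le_trans x1 (by norm_num)) (le_trans (by norm_num) T0)
      (le_trans T1 (by norm_num))
      (le_trans (by norm_num) y0) (le_trans y1 (by norm_num))
      (le_trans (by norm_num) t0) (le_trans t1 (by norm_num))) a0 a1 far)
  · exact finR h z0 ne (by decide) S (P3_lR' e (by decide) (chkD4 r_U_3_2_d11 (by norm_num)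
      (le_trans (by norm_num) x0) (le_trans x1 (by norm_num)) (le_trans (by norm_num) T0)
      (le_trans T1 (by norm_num))
      (le_trans (by norm_num) y0) (le_trans y1 (by norm_num))
      (le_trans (by norm_num) t0) (le_trans t1 (by norm_num))) a0 a1 far)

theorem cU_d12 (h : H x T Tl pl k l w) (z0 : 63 / 100 ≤ x) (x0 : 63 / 100 ≤ x) (x1 : x ≤ 13 / 20) (T0 : 21 / 1000 ≤ T) (T1 : T ≤ 47 / 500)
    (y0 : 3 / 4 ≤ l.re) (y1 : l.re ≤ 77 / 100) (t0 : 0 ≤ Tl) (t1 : Tl ≤ 1 / 200)
    (hl : l.im = -(16 / 100 * MP_b30479_gt.G2.M13.τl l.re))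
    (hp : pl = 16 / 100 * MP_b30479_gt.G2.M13.τl l.re)
    (S : SU x T k) : False := by
  have a0 := h.s0
  have a1 := h.s1
  have ne := ne_neg h (by rw [hl]; linarith only [τl_nonneg l.re])
  have e := lD_eq hl x T Tl
  have far := farD h t0 hl hp
  rcases S with S | S | S
  · exact finR h z0 ne (by decide) S (P3_lR' e (by decide) (chkD4 r_U_3_0_d12 (by norm_num)
      (le_trans (by norm_num) x0) (le_trans x1 (by norm_num)) (le_trans (by norm_num) T0)
      (le_trans T1 (by norm_num))
      (le_trans (by norm_num) y0) (le_trans y1 (by norm_num))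
      (le_trans (by norm_num) t0) (le_trans t1 (by norm_num))) a0 a1 far)
  · exact finR h z0 ne (by decide) S (P3_lZ' e rfl (chkD4 r_U_3_1_d12 (by norm_num)
      (le_trans (by norm_num) x0) (le_trans x1 (by norm_num)) (le_trans (by norm_num) T0)
      (le_trans T1 (by norm_num))
      (le_trans (by norm_num) y0) (le_trans y1 (by norm_num))
      (le_trans (by norm_num) t0) (le_trans t1 (by norm_num))) a0 a1 far)
  · exact finR h z0 ne (by decide) S (P3_lR' e (by decide) (chkD4 r_U_3_2_d12 (by norm_num)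
      (le_trans (by norm_num) x0) (le_trans x1 (by norm_num)) (le_trans (by norm_num) T0)
      (le_trans T1 (by norm_num))
      (le_trans (by norm_num) y0) (le_trans y1 (by norm_num))
      (le_trans (by norm_num) t0) (le_trans t1 (by norm_num))) a0 a1 far)

theorem cU_d13 (h : H x T Tl pl k l w) (z0 : 63 / 100 ≤ x) (x0 : 63 / 100 ≤ x) (x1 : x ≤ 13 / 20) (T0 : 21 / 1000 ≤ T) (T1 : T ≤ 47 / 500)
    (y0 : 77 / 100 ≤ l.re) (y1 : l.re ≤ 79 / 100) (t0 : 0 ≤ Tl) (t1 : Tl ≤ 1 / 200)
    (hl : l.im = -(16 / 100 * MP_b30479_gt.G2.M13.τl l.re))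
    (hp : pl = 16 / 100 * MP_b30479_gt.G2.M13.τl l.re)
    (S : SU x T k) : False := by
  have a0 := h.s0
  have a1 := h.s1
  have ne := ne_neg h (by rw [hl]; linarith only [τl_nonneg l.re])
  have e := lD_eq hl x T Tl
  have far := farD h t0 hl hp
  rcases S with S | S | S
  · exact finR h z0 ne (by decide) S (P3_lR' e (by decide) (chkD4 r_U_3_0_d13 (by norm_num)
      (le_trans (by norm_num) x0) (le_trans x1 (by norm_num)) (le_trans (by norm_num) T0)
      (le_trans T1 (by norm_num))
      (le_trans (by norm_num) y0) (le_trans y1 (by norm_num))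
      (le_trans (by norm_num) t0) (le_trans t1 (by norm_num))) a0 a1 far)
  · exact finR h z0 ne (by decide) S (P3_lZ' e rfl (chkD4 r_U_3_1_d13 (by norm_num)
      (le_trans (by norm_num) x0) (le_trans x1 (by norm_num)) (le_trans (by norm_num) T0)
      (le_trans T1 (by norm_num))
      (le_trans (by norm_num) y0) (le_trans y1 (by norm_num))
      (le_trans (by norm_num) t0) (le_trans t1 (by norm_num))) a0 a1 far)
  · exact finR h z0 ne (by decide) S (P3_lR' e (by decide) (chkD4 r_U_3_2_d13 (by norm_num)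
      (le_trans (by norm_num) x0) (le_trans x1 (by norm_num)) (le_trans (by norm_num) T0)
      (le_trans T1 (by norm_num))
      (le_trans (by norm_num) y0) (le_trans y1 (by norm_num))
      (le_trans (by norm_num) t0) (le_trans t1 (by norm_num))) a0 a1 far)

theorem cU_d14 (h : H x T Tl pl k l w) (z0 : 63 / 100 ≤ x) (x0 : 63 / 100 ≤ x) (x1 : x ≤ 13 / 20) (T0 : 21 / 1000 ≤ T) (T1 : T ≤ 47 / 500)
    (y0 : 79 / 100 ≤ l.re) (y1 : l.re ≤ 4 / 5) (t0 : 0 ≤ Tl) (t1 : Tl ≤ 1 / 200)
    (hl : l.im = -(16 / 100 * MP_b30479_gt.G2.M13.τl l.re))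
    (hp : pl = 16 / 100 * MP_b30479_gt.G2.M13.τl l.re)
    (S : SU x T k) : False := by
  have a0 := h.s0
  have a1 := h.s1
  have ne := ne_neg h (by rw [hl]; linarith only [τl_nonneg l.re])
  have e := lD_eq hl x T Tl
  have far := farD h t0 hl hp
  rcases S with S | S | S
  · exact finR h z0 ne (by decide) S (P3_lR' e (by decide) (chkD4 r_U_3_0_d14 (by norm_num)
      (le_trans (by norm_num) x0) (le_trans x1 (by norm_num)) (le_trans (by norm_num) T0)
      (le_trans T1 (by norm_num))
      (le_trans (by norm_num) y0) (le_trans y1 (by norm_num))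
      (le_trans (by norm_num) t0) (le_trans t1 (by norm_num))) a0 a1 far)
  · exact finR h z0 ne (by decide) S (P3_lZ' e rfl (chkD4 r_U_3_1_d14 (by norm_num)
      (le_trans (by norm_num) x0) (le_trans x1 (by norm_num)) (le_trans (by norm_num) T0)
      (le_trans T1 (by norm_num))
      (le_trans (by norm_num) y0) (le_trans y1 (by norm_num))
      (le_trans (by norm_num) t0) (le_trans t1 (by norm_num))) a0 a1 far)
  · exact finR h z0 ne (by decide) S (P3_lR' e (by decide) (chkD4 r_U_3_2_d14 (by norm_num)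
      (le_trans (by norm_num) x0) (le_trans x1 (by norm_num)) (le_trans (by norm_num) T0)
      (le_trans T1 (by norm_num))
      (le_trans (by norm_num) y0) (le_trans y1 (by norm_num))
      (le_trans (by norm_num) t0) (le_trans t1 (by norm_num))) a0 a1 far)

theorem cN_m0 (h : H x T Tl pl k l w) (z0 : 63 / 100 ≤ x) (x0 : 63 / 100 ≤ x) (x1 : x ≤ 13 / 20) (T0 : 21 / 1000 ≤ T) (T1 : T ≤ 47 / 500)
    (y0 : 3 / 5 ≤ l.re) (y1 : l.re ≤ 7 / 10) (t0 : -(1 / 100) ≤ Tl) (t1 : Tl ≤ 1 / 200)
    (hl : l.im = Tl * MP_b30479_gt.G2.M13.τl l.re) (hp : pl = 0)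
    (S : SN x T k) : False := by
  have a0 := h.s0
  have a1 := h.s1
  have e := lM_eq hl x T
  rcases S with S | S
  · exact finY h z0 (by decide) rfl S.1 (P3_lY' e rfl (chkD4 r_N_3_0_m0 (by norm_num)
      (le_trans (by norm_num) x0) (le_trans x1 (by norm_num)) (le_trans (by norm_num) T0)
      (le_trans T1 (by norm_num))
      (le_trans (by norm_num) y0) (le_trans y1 (by norm_num))
      (le_trans (by norm_num) t0) (le_trans t1 (by norm_num))) a0 a1 w)
  · exact finY h z0 (by decide) rfl S.1 (P3_lY' e rfl (chkD4 r_N_3_1_m0 (by norm_num)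
      (le_trans (by norm_num) x0) (le_trans x1 (by norm_num)) (le_trans (by norm_num) T0)
      (le_trans T1 (by norm_num))
      (le_trans (by norm_num) y0) (le_trans y1 (by norm_num))
      (le_trans (by norm_num) t0) (le_trans t1 (by norm_num))) a0 a1 w)

theorem cB1_m0 (h : H x T Tl pl k l w) (z0 : 63 / 100 ≤ x) (x0 : 63 / 100 ≤ x) (x1 : x ≤ 13 / 20) (T0 : 21 / 1000 ≤ T) (T1 : T ≤ 3 / 50)
    (y0 : 0 ≤ l.re) (y1 : l.re ≤ 1 / 50) (t0 : -(9 / 100) ≤ Tl) (t1 : Tl ≤ 1 / 200)
    (hl : l.im = Tl * MP_b30479_gt.G2.M13.τl l.re) (hp : pl = 0) (ne : l ≠ ⟨x, hh x⟩)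
    (S : SB1 x T k) : False := by
  have a0 := h.s0
  have a1 := h.s1
  have e := lM_eq hl x T
  have far := farM h hl hp
  rcases S with S | S | S
  · exact finR h z0 ne (by decide) S (P3_lR' e (by decide) (chkD4 r_B1_3_0_m0 (by norm_num)
      (le_trans (by norm_num) x0) (le_trans x1 (by norm_num)) (le_trans (by norm_num) T0)
      (le_trans T1 (by norm_num))
      (le_trans (by norm_num) y0) (le_trans y1 (by norm_num))
      (le_trans (by norm_num) t0) (le_trans t1 (by norm_num))) a0 a1 far)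
  · exact finR h z0 ne (by decide) S (P3_lZ' e rfl (chkD4 r_B1_3_1_m0 (by norm_num)
      (le_trans (by norm_num) x0) (le_trans x1 (by norm_num)) (le_trans (by norm_num) T0)
      (le_trans T1 (by norm_num))
      (le_trans (by norm_num) y0) (le_trans y1 (by norm_num))
      (le_trans (by norm_num) t0) (le_trans t1 (by norm_num))) a0 a1 far)
  · exact finR h z0 ne (by decide) S (P3_lR' e (by decide) (chkD4 r_B1_3_2_m0 (by norm_num)
      (le_trans (by norm_num) x0) (le_trans x1 (by norm_num)) (le_trans (by norm_num) T0)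
      (le_trans T1 (by norm_num))
      (le_trans (by norm_num) y0) (le_trans y1 (by norm_num))
      (le_trans (by norm_num) t0) (le_trans t1 (by norm_num))) a0 a1 far)

theorem cB1_m1 (h : H x T Tl pl k l w) (z0 : 63 / 100 ≤ x) (x0 : 63 / 100 ≤ x) (x1 : x ≤ 13 / 20) (T0 : 21 / 1000 ≤ T) (T1 : T ≤ 3 / 50)
    (y0 : 1 / 50 ≤ l.re) (y1 : l.re ≤ 1 / 20) (t0 : -(1 / 25) ≤ Tl) (t1 : Tl ≤ 1 / 200)
    (hl : l.im = Tl * MP_b30479_gt.G2.M13.τl l.re) (hp : pl = 0) (ne : l ≠ ⟨x, hh x⟩)
    (S : SB1 x T k) : False := by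
  have a0 := h.s0
  have a1 := h.s1
  have e := lM_eq hl x T
  have far := farM h hl hp
  rcases S with S | S | S
  · exact finR h z0 ne (by decide) S (P3_lR' e (by decide) (chkD4 r_B1_3_0_m1 (by norm_num)
      (le_trans (by norm_num) x0) (le_trans x1 (by norm_num)) (le_trans (by norm_num) T0)
      (le_trans T1 (by norm_num))
      (le_trans (by norm_num) y0) (le_trans y1 (by norm_num))
      (le_trans (by norm_num) t0) (le_trans t1 (by norm_num))) a0 a1 far)
  · exact finR h z0 ne (by decide) S (P3_lZ' e rfl (chkD4 r_B1_3_1_m1 (by norm_num)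
      (le_trans (by norm_num) x0) (le_trans x1 (by norm_num)) (le_trans (by norm_num) T0)
      (le_trans T1 (by norm_num))
      (le_trans (by norm_num) y0) (le_trans y1 (by norm_num))
      (le_trans (by norm_num) t0) (le_trans t1 (by norm_num))) a0 a1 far)
  · exact finR h z0 ne (by decide) S (P3_lR' e (by decide) (chkD4 r_B1_3_2_m1 (by norm_num)
      (le_trans (by norm_num) x0) (le_trans x1 (by norm_num)) (le_trans (by norm_num) T0)
      (le_trans T1 (by norm_num))
      (le_trans (by norm_num) y0) (le_trans y1 (by norm_num))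
      (le_trans (by norm_num) t0) (le_trans t1 (by norm_num))) a0 a1 far)

theorem cB1_m2 (h : H x T Tl pl k l w) (z0 : 63 / 100 ≤ x) (x0 : 63 / 100 ≤ x) (x1 : x ≤ 13 / 20) (T0 : 21 / 1000 ≤ T) (T1 : T ≤ 3 / 50)
    (y0 : 1 / 20 ≤ l.re) (y1 : l.re ≤ 3 / 20) (t0 : -(1 / 25) ≤ Tl) (t1 : Tl ≤ 1 / 200)
    (hl : l.im = Tl * MP_b30479_gt.G2.M13.τl l.re) (hp : pl = 0) (ne : l ≠ ⟨x, hh x⟩)
    (S : SB1 x T k) : False := by
  have a0 := h.s0
  have a1 := h.s1
  have e := lM_eq hl x T
  have far := farM h hl hp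
  rcases S with S | S | S
  · exact finR h z0 ne (by decide) S (P3_lR' e (by decide) (chkD4 r_B1_3_0_m2 (by norm_num)
      (le_trans (by norm_num) x0) (le_trans x1 (by norm_num)) (le_trans (by norm_num) T0)
      (le_trans T1 (by norm_num))
      (le_trans (by norm_num) y0) (le_trans y1 (by norm_num))
      (le_trans (by norm_num) t0) (le_trans t1 (by norm_num))) a0 a1 far)
  · exact finR h z0 ne (by decide) S (P3_lZ' e rfl (chkD4 r_B1_3_1_m2 (by norm_num)
      (le_trans (by norm_num) x0) (le_trans x1 (by norm_num)) (le_trans (by norm_num) T0)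
      (le_trans T1 (by norm_num))
      (le_trans (by norm_num) y0) (le_trans y1 (by norm_num))
      (le_trans (by norm_num) t0) (le_trans t1 (by norm_num))) a0 a1 far)
  · exact finR h z0 ne (by decide) S (P3_lR' e (by decide) (chkD4 r_B1_3_2_m2 (by norm_num)
      (le_trans (by norm_num) x0) (le_trans x1 (by norm_num)) (le_trans (by norm_num) T0)
      (le_trans T1 (by norm_num))
      (le_trans (by norm_num) y0) (le_trans y1 (by norm_num))
      (le_trans (by norm_num) t0) (le_trans t1 (by norm_num))) a0 a1 far)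

theorem cB1_m3 (h : H x T Tl pl k l w) (z0 : 63 / 100 ≤ x) (x0 : 63 / 100 ≤ x) (x1 : x ≤ 13 / 20) (T0 : 21 / 1000 ≤ T) (T1 : T ≤ 3 / 50)
    (y0 : 3 / 20 ≤ l.re) (y1 : l.re ≤ 1 / 2) (t0 : -(9 / 100) ≤ Tl) (t1 : Tl ≤ 1 / 200)
    (hl : l.im = Tl * MP_b30479_gt.G2.M13.τl l.re) (hp : pl = 0) (ne : l ≠ ⟨x, hh x⟩)
    (S : SB1 x T k) : False := by
  have a0 := h.s0
  have a1 := h.s1
  have e := lM_eq hl x T
  have far := farM h hl hp
  rcases S with S | S | S
  · exact finR h z0 ne (by decide) S (P3_lR' e (by decide) (chkD4 r_B1_3_0_m3 (by norm_num)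
      (le_trans (by norm_num) x0) (le_trans x1 (by norm_num)) (le_trans (by norm_num) T0)
      (le_trans T1 (by norm_num))
      (le_trans (by norm_num) y0) (le_trans y1 (by norm_num))
      (le_trans (by norm_num) t0) (le_trans t1 (by norm_num))) a0 a1 far)
  · exact finR h z0 ne (by decide) S (P3_lZ' e rfl (chkD4 r_B1_3_1_m3 (by norm_num)
      (le_trans (by norm_num) x0) (le_trans x1 (by norm_num)) (le_trans (by norm_num) T0)
      (le_trans T1 (by norm_num))
      (le_trans (by norm_num) y0) (le_trans y1 (by norm_num))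
      (le_trans (by norm_num) t0) (le_trans t1 (by norm_num))) a0 a1 far)
  · exact finR h z0 ne (by decide) S (P3_lR' e (by decide) (chkD4 r_B1_3_2_m3 (by norm_num)
      (le_trans (by norm_num) x0) (le_trans x1 (by norm_num)) (le_trans (by norm_num) T0)
      (le_trans T1 (by norm_num))
      (le_trans (by norm_num) y0) (le_trans y1 (by norm_num))
      (le_trans (by norm_num) t0) (le_trans t1 (by norm_num))) a0 a1 far)

theorem cB2_m0 (h : H x T Tl pl k l w) (z0 : 63 / 100 ≤ x) (x0 : 63 / 100 ≤ x) (x1 : x ≤ 13 / 20) (T0 : 3 / 50 ≤ T) (T1 : T ≤ 47 / 500)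
    (y0 : 0 ≤ l.re) (y1 : l.re ≤ 1 / 50) (t0 : -(9 / 100) ≤ Tl) (t1 : Tl ≤ 1 / 200)
    (hl : l.im = Tl * MP_b30479_gt.G2.M13.τl l.re) (hp : pl = 0) (ne : l ≠ ⟨x, hh x⟩)
    (S : SB2 x T k) : False := by
  have a0 := h.s0
  have a1 := h.s1
  have e := lM_eq hl x T
  have far := farM h hl hp
  rcases S with S | S | S
  · exact finR h z0 ne (by decide) S (P3_lR' e (by decide) (chkD4 r_B2_3_0_m0 (by norm_num)
      (le_trans (by norm_num) x0) (le_trans x1 (by norm_num)) (le_trans (by norm_num) T0)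
      (le_trans T1 (by norm_num))
      (le_trans (by norm_num) y0) (le_trans y1 (by norm_num))
      (le_trans (by norm_num) t0) (le_trans t1 (by norm_num))) a0 a1 far)
  · exact finR h z0 ne (by decide) S (P3_lR' e (by decide) (chkD4 r_B2_3_1_m0 (by norm_num)
      (le_trans (by norm_num) x0) (le_trans x1 (by norm_num)) (le_trans (by norm_num) T0)
      (le_trans T1 (by norm_num))
      (le_trans (by norm_num) y0) (le_trans y1 (by norm_num))
      (le_trans (by norm_num) t0) (le_trans t1 (by norm_num))) a0 a1 far)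
  · exact finR h z0 ne (by decide) S (P3_lZ' e rfl (chkD4 r_B2_3_2_m0 (by norm_num)
      (le_trans (by norm_num) x0) (le_trans x1 (by norm_num)) (le_trans (by norm_num) T0)
      (le_trans T1 (by norm_num))
      (le_trans (by norm_num) y0) (le_trans y1 (by norm_num))
      (le_trans (by norm_num) t0) (le_trans t1 (by norm_num))) a0 a1 far)

theorem cB2_m1 (h : H x T Tl pl k l w) (z0 : 63 / 100 ≤ x) (x0 : 63 / 100 ≤ x) (x1 : x ≤ 13 / 20) (T0 : 3 / 50 ≤ T) (T1 : T ≤ 47 / 500)
    (y0 : 1 / 50 ≤ l.re) (y1 : l.re ≤ 1 / 20) (t0 : -(1 / 25) ≤ Tl) (t1 : Tl ≤ 1 / 200)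
    (hl : l.im = Tl * MP_b30479_gt.G2.M13.τl l.re) (hp : pl = 0) (ne : l ≠ ⟨x, hh x⟩)
    (S : SB2 x T k) : False := by
  have a0 := h.s0
  have a1 := h.s1
  have e := lM_eq hl x T
  have far := farM h hl hp
  rcases S with S | S | S
  · exact finR h z0 ne (by decide) S (P3_lR' e (by decide) (chkD4 r_B2_3_0_m1 (by norm_num)
      (le_trans (by norm_num) x0) (le_trans x1 (by norm_num)) (le_trans (by norm_num) T0)
      (le_trans T1 (by norm_num))
      (le_trans (by norm_num) y0) (le_trans y1 (by norm_num))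
      (le_trans (by norm_num) t0) (le_trans t1 (by norm_num))) a0 a1 far)
  · exact finR h z0 ne (by decide) S (P3_lR' e (by decide) (chkD4 r_B2_3_1_m1 (by norm_num)
      (le_trans (by norm_num) x0) (le_trans x1 (by norm_num)) (le_trans (by norm_num) T0)
      (le_trans T1 (by norm_num))
      (le_trans (by norm_num) y0) (le_trans y1 (by norm_num))
      (le_trans (by norm_num) t0) (le_trans t1 (by norm_num))) a0 a1 far)
  · exact finR h z0 ne (by decide) S (P3_lZ' e rfl (chkD4 r_B2_3_2_m1 (by norm_num)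
      (le_trans (by norm_num) x0) (le_trans x1 (by norm_num)) (le_trans (by norm_num) T0)
      (le_trans T1 (by norm_num))
      (le_trans (by norm_num) y0) (le_trans y1 (by norm_num))
      (le_trans (by norm_num) t0) (le_trans t1 (by norm_num))) a0 a1 far)

theorem cB2_m2 (h : H x T Tl pl k l w) (z0 : 63 / 100 ≤ x) (x0 : 63 / 100 ≤ x) (x1 : x ≤ 13 / 20) (T0 : 3 / 50 ≤ T) (T1 : T ≤ 47 / 500)
    (y0 : 1 / 20 ≤ l.re) (y1 : l.re ≤ 3 / 20) (t0 : -(1 / 25) ≤ Tl) (t1 : Tl ≤ 1 / 200)
    (hl : l.im = Tl * MP_b30479_gt.G2.M13.τl l.re) (hp : pl = 0) (ne : l ≠ ⟨x, hh x⟩)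
    (S : SB2 x T k) : False := by
  have a0 := h.s0
  have a1 := h.s1
  have e := lM_eq hl x T
  have far := farM h hl hp
  rcases S with S | S | S
  · exact finR h z0 ne (by decide) S (P3_lR' e (by decide) (chkD4 r_B2_3_0_m2 (by norm_num)
      (le_trans (by norm_num) x0) (le_trans x1 (by norm_num)) (le_trans (by norm_num) T0)
      (le_trans T1 (by norm_num))
      (le_trans (by norm_num) y0) (le_trans y1 (by norm_num))
      (le_trans (by norm_num) t0) (le_trans t1 (by norm_num))) a0 a1 far)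
  · exact finR h z0 ne (by decide) S (P3_lR' e (by decide) (chkD4 r_B2_3_1_m2 (by norm_num)
      (le_trans (by norm_num) x0) (le_trans x1 (by norm_num)) (le_trans (by norm_num) T0)
      (le_trans T1 (by norm_num))
      (le_trans (by norm_num) y0) (le_trans y1 (by norm_num))
      (le_trans (by norm_num) t0) (le_trans t1 (by norm_num))) a0 a1 far)
  · exact finR h z0 ne (by decide) S (P3_lZ' e rfl (chkD4 r_B2_3_2_m2 (by norm_num)
      (le_trans (by norm_num) x0) (le_trans x1 (by norm_num)) (le_trans (by norm_num) T0)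
      (le_trans T1 (by norm_num))
      (le_trans (by norm_num) y0) (le_trans y1 (by norm_num))
      (le_trans (by norm_num) t0) (le_trans t1 (by norm_num))) a0 a1 far)

theorem cB2_m3 (h : H x T Tl pl k l w) (z0 : 63 / 100 ≤ x) (x0 : 63 / 100 ≤ x) (x1 : x ≤ 13 / 20) (T0 : 3 / 50 ≤ T) (T1 : T ≤ 47 / 500)
    (y0 : 3 / 20 ≤ l.re) (y1 : l.re ≤ 1 / 2) (t0 : -(9 / 100) ≤ Tl) (t1 : Tl ≤ 1 / 200)
    (hl : l.im = Tl * MP_b30479_gt.G2.M13.τl l.re) (hp : pl = 0) (ne : l ≠ ⟨x, hh x⟩)
    (S : SB2 x T k) : False := by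
  have a0 := h.s0
  have a1 := h.s1
  have e := lM_eq hl x T
  have far := farM h hl hp
  rcases S with S | S | S
  · exact finR h z0 ne (by decide) S (P3_lR' e (by decide) (chkD4 r_B2_3_0_m3 (by norm_num)
      (le_trans (by norm_num) x0) (le_trans x1 (by norm_num)) (le_trans (by norm_num) T0)
      (le_trans T1 (by norm_num))
      (le_trans (by norm_num) y0) (le_trans y1 (by norm_num))
      (le_trans (by norm_num) t0) (le_trans t1 (by norm_num))) a0 a1 far)
  · exact finR h z0 ne (by decide) S (P3_lR' e (by decide) (chkD4 r_B2_3_1_m3 (by norm_num)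
      (le_trans (by norm_num) x0) (le_trans x1 (by norm_num)) (le_trans (by norm_num) T0)
      (le_trans T1 (by norm_num))
      (le_trans (by norm_num) y0) (le_trans y1 (by norm_num))
      (le_trans (by norm_num) t0) (le_trans t1 (by norm_num))) a0 a1 far)
  · exact finR h z0 ne (by decide) S (P3_lZ' e rfl (chkD4 r_B2_3_2_m3 (by norm_num)
      (le_trans (by norm_num) x0) (le_trans x1 (by norm_num)) (le_trans (by norm_num) T0)
      (le_trans T1 (by norm_num))
      (le_trans (by norm_num) y0) (le_trans y1 (by norm_num))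
      (le_trans (by norm_num) t0) (le_trans t1 (by norm_num))) a0 a1 far)

theorem cA1_m0 (h : H x T Tl pl k l w) (z0 : 63 / 100 ≤ x) (x0 : 63 / 100 ≤ x) (x1 : x ≤ 13 / 20) (T0 : 21 / 1000 ≤ T) (T1 : T ≤ 9 / 200)
    (y0 : 1 / 50 ≤ l.re) (y1 : l.re ≤ 1 / 20) (t0 : -(9 / 100) ≤ Tl) (t1 : Tl ≤ -(3 / 40))
    (hl : l.im = Tl * MP_b30479_gt.G2.M13.τl l.re) (hp : pl = 0) (ne : l ≠ ⟨x, hh x⟩)
    (S : SA1 x T k) : False := by
  have a0 := h.s0
  have a1 := h.s1
  have e := lM_eq hl x T
  have far := farG h hl hp (by linarith only [t0]) (by linarith only [t1]) (by linarith only [y0]) (by linarith only [y1])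
  rcases S with S | S | S
  · exact finR h z0 ne (by decide) S (P3_lR' e (by decide) (chkD4 r_A1_3_0_m0 (by norm_num)
      (le_trans (by norm_num) x0) (le_trans x1 (by norm_num)) (le_trans (by norm_num) T0)
      (le_trans T1 (by norm_num))
      (le_trans (by norm_num) y0) (le_trans y1 (by norm_num))
      (le_trans (by norm_num) t0) (le_trans t1 (by norm_num))) a0 a1 far)
  · exact finR h z0 ne (by decide) S (P3_lR' e (by decide) (chkD4 r_A1_3_1_m0 (by norm_num)
      (le_trans (by norm_num) x0) (le_trans x1 (by norm_num)) (le_trans (by norm_num) T0)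
      (le_trans T1 (by norm_num))
      (le_trans (by norm_num) y0) (le_trans y1 (by norm_num))
      (le_trans (by norm_num) t0) (le_trans t1 (by norm_num))) a0 a1 far)
  · exact finR h z0 ne (by decide) S (P3_lZ' e rfl (chkD4 r_A1_3_2_m0 (by norm_num)
      (le_trans (by norm_num) x0) (le_trans x1 (by norm_num)) (le_trans (by norm_num) T0)
      (le_trans T1 (by norm_num))
      (le_trans (by norm_num) y0) (le_trans y1 (by norm_num))
      (le_trans (by norm_num) t0) (le_trans t1 (by norm_num))) a0 a1 far)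

theorem cA1_m1 (h : H x T Tl pl k l w) (z0 : 63 / 100 ≤ x) (x0 : 63 / 100 ≤ x) (x1 : x ≤ 13 / 20) (T0 : 21 / 1000 ≤ T) (T1 : T ≤ 9 / 200)
    (y0 : 1 / 50 ≤ l.re) (y1 : l.re ≤ 1 / 20) (t0 : -(3 / 40) ≤ Tl) (t1 : Tl ≤ -(3 / 50))
    (hl : l.im = Tl * MP_b30479_gt.G2.M13.τl l.re) (hp : pl = 0) (ne : l ≠ ⟨x, hh x⟩)
    (S : SA1 x T k) : False := by
  have a0 := h.s0
  have a1 := h.s1
  have e := lM_eq hl x T
  have far := farH h hl hp (by linarith only [t0]) (by linarith only [t1]) (by linarith only [y0]) (by linarith only [y1])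
  rcases S with S | S | S
  · exact finR h z0 ne (by decide) S (P3_lR' e (by decide) (chkD4 r_A1_3_0_m1 (by norm_num)
      (le_trans (by norm_num) x0) (le_trans x1 (by norm_num)) (le_trans (by norm_num) T0)
      (le_trans T1 (by norm_num))
      (le_trans (by norm_num) y0) (le_trans y1 (by norm_num))
      (le_trans (by norm_num) t0) (le_trans t1 (by norm_num))) a0 a1 far)
  · exact finR h z0 ne (by decide) S (P3_lR' e (by decide) (chkD4 r_A1_3_1_m1 (by norm_num)
      (le_trans (by norm_num) x0) (le_trans x1 (by norm_num)) (le_trans (by norm_num) T0)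
      (le_trans T1 (by norm_num))
      (le_trans (by norm_num) y0) (le_trans y1 (by norm_num))
      (le_trans (by norm_num) t0) (le_trans t1 (by norm_num))) a0 a1 far)
  · exact finR h z0 ne (by decide) S (P3_lZ' e rfl (chkD4 r_A1_3_2_m1 (by norm_num)
      (le_trans (by norm_num) x0) (le_trans x1 (by norm_num)) (le_trans (by norm_num) T0)
      (le_trans T1 (by norm_num))
      (le_trans (by norm_num) y0) (le_trans y1 (by norm_num))
      (le_trans (by norm_num) t0) (le_trans t1 (by norm_num))) a0 a1 far)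

theorem cA1_m2 (h : H x T Tl pl k l w) (z0 : 63 / 100 ≤ x) (x0 : 63 / 100 ≤ x) (x1 : x ≤ 13 / 20) (T0 : 21 / 1000 ≤ T) (T1 : T ≤ 9 / 200)
    (y0 : 1 / 50 ≤ l.re) (y1 : l.re ≤ 1 / 20) (t0 : -(3 / 50) ≤ Tl) (t1 : Tl ≤ -(1 / 25))
    (hl : l.im = Tl * MP_b30479_gt.G2.M13.τl l.re) (hp : pl = 0) (ne : l ≠ ⟨x, hh x⟩)
    (S : SA1 x T k) : False := by
  have a0 := h.s0
  have a1 := h.s1
  have e := lM_eq hl x T
  have far := farK h hl hp (by linarith only [t0]) (by linarith only [t1]) (by linarith only [y0]) (by linarith only [y1])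
  rcases S with S | S | S
  · exact finR h z0 ne (by decide) S (P3_lR' e (by decide) (chkD4 r_A1_3_0_m2 (by norm_num)
      (le_trans (by norm_num) x0) (le_trans x1 (by norm_num)) (le_trans (by norm_num) T0)
      (le_trans T1 (by norm_num))
      (le_trans (by norm_num) y0) (le_trans y1 (by norm_num))
      (le_trans (by norm_num) t0) (le_trans t1 (by norm_num))) a0 a1 far)
  · exact finR h z0 ne (by decide) S (P3_lR' e (by decide) (chkD4 r_A1_3_1_m2 (by norm_num)
      (le_trans (by norm_num) x0) (le_trans x1 (by norm_num)) (le_trans (by norm_num) T0)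
      (le_trans T1 (by norm_num))
      (le_trans (by norm_num) y0) (le_trans y1 (by norm_num))
      (le_trans (by norm_num) t0) (le_trans t1 (by norm_num))) a0 a1 far)
  · exact finR h z0 ne (by decide) S (P3_lZ' e rfl (chkD4 r_A1_3_2_m2 (by norm_num)
      (le_trans (by norm_num) x0) (le_trans x1 (by norm_num)) (le_trans (by norm_num) T0)
      (le_trans T1 (by norm_num))
      (le_trans (by norm_num) y0) (le_trans y1 (by norm_num))
      (le_trans (by norm_num) t0) (le_trans t1 (by norm_num))) a0 a1 far)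

theorem cA1_m3 (h : H x T Tl pl k l w) (z0 : 63 / 100 ≤ x) (x0 : 63 / 100 ≤ x) (x1 : x ≤ 13 / 20) (T0 : 21 / 1000 ≤ T) (T1 : T ≤ 9 / 200)
    (y0 : 1 / 20 ≤ l.re) (y1 : l.re ≤ 3 / 20) (t0 : -(9 / 100) ≤ Tl) (t1 : Tl ≤ -(3 / 40))
    (hl : l.im = Tl * MP_b30479_gt.G2.M13.τl l.re) (hp : pl = 0) (ne : l ≠ ⟨x, hh x⟩)
    (S : SA1 x T k) : False := by
  have a0 := h.s0
  have a1 := h.s1
  have e := lM_eq hl x T
  have far := farG h hl hp (by linarith only [t0]) (by linarith only [t1]) (by linarith only [y0]) (by linarith only [y1])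
  rcases S with S | S | S
  · exact finR h z0 ne (by decide) S (P3_lR' e (by decide) (chkD4 r_A1_3_0_m3 (by norm_num)
      (le_trans (by norm_num) x0) (le_trans x1 (by norm_num)) (le_trans (by norm_num) T0)
      (le_trans T1 (by norm_num))
      (le_trans (by norm_num) y0) (le_trans y1 (by norm_num))
      (le_trans (by norm_num) t0) (le_trans t1 (by norm_num))) a0 a1 far)
  · exact finR h z0 ne (by decide) S (P3_lR' e (by decide) (chkD4 r_A1_3_1_m3 (by norm_num)
      (le_trans (by norm_num) x0) (le_trans x1 (by norm_num)) (le_trans (by norm_num) T0)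
      (le_trans T1 (by norm_num))
      (le_trans (by norm_num) y0) (le_trans y1 (by norm_num))
      (le_trans (by norm_num) t0) (le_trans t1 (by norm_num))) a0 a1 far)
  · exact finR h z0 ne (by decide) S (P3_lZ' e rfl (chkD4 r_A1_3_2_m3 (by norm_num)
      (le_trans (by norm_num) x0) (le_trans x1 (by norm_num)) (le_trans (by norm_num) T0)
      (le_trans T1 (by norm_num))
      (le_trans (by norm_num) y0) (le_trans y1 (by norm_num))
      (le_trans (by norm_num) t0) (le_trans t1 (by norm_num))) a0 a1 far)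

theorem cA1_m4 (h : H x T Tl pl k l w) (z0 : 63 / 100 ≤ x) (x0 : 63 / 100 ≤ x) (x1 : x ≤ 13 / 20) (T0 : 21 / 1000 ≤ T) (T1 : T ≤ 9 / 200)
    (y0 : 1 / 20 ≤ l.re) (y1 : l.re ≤ 3 / 20) (t0 : -(3 / 40) ≤ Tl) (t1 : Tl ≤ -(3 / 50))
    (hl : l.im = Tl * MP_b30479_gt.G2.M13.τl l.re) (hp : pl = 0) (ne : l ≠ ⟨x, hh x⟩)
    (S : SA1 x T k) : False := by
  have a0 := h.s0
  have a1 := h.s1
  have e := lM_eq hl x T
  have far := farH h hl hp (by linarith only [t0]) (by linarith only [t1]) (by linarith only [y0]) (by linarith only [y1])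
  rcases S with S | S | S
  · exact finR h z0 ne (by decide) S (P3_lR' e (by decide) (chkD4 r_A1_3_0_m4 (by norm_num)
      (le_trans (by norm_num) x0) (le_trans x1 (by norm_num)) (le_trans (by norm_num) T0)
      (le_trans T1 (by norm_num))
      (le_trans (by norm_num) y0) (le_trans y1 (by norm_num))
      (le_trans (by norm_num) t0) (le_trans t1 (by norm_num))) a0 a1 far)
  · exact finR h z0 ne (by decide) S (P3_lR' e (by decide) (chkD4 r_A1_3_1_m4 (by norm_num)
      (le_trans (by norm_num) x0) (le_trans x1 (by norm_num)) (le_trans (by norm_num) T0)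
      (le_trans T1 (by norm_num))
      (le_trans (by norm_num) y0) (le_trans y1 (by norm_num))
      (le_trans (by norm_num) t0) (le_trans t1 (by norm_num))) a0 a1 far)
  · exact finR h z0 ne (by decide) S (P3_lZ' e rfl (chkD4 r_A1_3_2_m4 (by norm_num)
      (le_trans (by norm_num) x0) (le_trans x1 (by norm_num)) (le_trans (by norm_num) T0)
      (le_trans T1 (by norm_num))
      (le_trans (by norm_num) y0) (le_trans y1 (by norm_num))
      (le_trans (by norm_num) t0) (le_trans t1 (by norm_num))) a0 a1 far)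

theorem cA1_m5 (h : H x T Tl pl k l w) (z0 : 63 / 100 ≤ x) (x0 : 63 / 100 ≤ x) (x1 : x ≤ 13 / 20) (T0 : 21 / 1000 ≤ T) (T1 : T ≤ 9 / 200)
    (y0 : 1 / 20 ≤ l.re) (y1 : l.re ≤ 3 / 20) (t0 : -(3 / 50) ≤ Tl) (t1 : Tl ≤ -(1 / 25))
    (hl : l.im = Tl * MP_b30479_gt.G2.M13.τl l.re) (hp : pl = 0) (ne : l ≠ ⟨x, hh x⟩)
    (S : SA1 x T k) : False := by
  have a0 := h.s0
  have a1 := h.s1
  have e := lM_eq hl x T
  have far := farK h hl hp (by linarith only [t0]) (by linarith only [t1]) (by linarith only [y0]) (by linarith only [y1])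
  rcases S with S | S | S
  · exact finR h z0 ne (by decide) S (P3_lR' e (by decide) (chkD4 r_A1_3_0_m5 (by norm_num)
      (le_trans (by norm_num) x0) (le_trans x1 (by norm_num)) (le_trans (by norm_num) T0)
      (le_trans T1 (by norm_num))
      (le_trans (by norm_num) y0) (le_trans y1 (by norm_num))
      (le_trans (by norm_num) t0) (le_trans t1 (by norm_num))) a0 a1 far)
  · exact finR h z0 ne (by decide) S (P3_lR' e (by decide) (chkD4 r_A1_3_1_m5 (by norm_num)
      (le_trans (by norm_num) x0) (le_trans x1 (by norm_num)) (le_trans (by norm_num) T0)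
      (le_trans T1 (by norm_num))
      (le_trans (by norm_num) y0) (le_trans y1 (by norm_num))
      (le_trans (by norm_num) t0) (le_trans t1 (by norm_num))) a0 a1 far)
  · exact finR h z0 ne (by decide) S (P3_lZ' e rfl (chkD4 r_A1_3_2_m5 (by norm_num)
      (le_trans (by norm_num) x0) (le_trans x1 (by norm_num)) (le_trans (by norm_num) T0)
      (le_trans T1 (by norm_num))
      (le_trans (by norm_num) y0) (le_trans y1 (by norm_num))
      (le_trans (by norm_num) t0) (le_trans t1 (by norm_num))) a0 a1 far)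

theorem cA2_m0 (h : H x T Tl pl k l w) (z0 : 63 / 100 ≤ x) (x0 : 63 / 100 ≤ x) (x1 : x ≤ 13 / 20) (T0 : 9 / 200 ≤ T) (T1 : T ≤ 3 / 50)
    (y0 : 1 / 50 ≤ l.re) (y1 : l.re ≤ 1 / 20) (t0 : -(9 / 100) ≤ Tl) (t1 : Tl ≤ -(3 / 40))
    (hl : l.im = Tl * MP_b30479_gt.G2.M13.τl l.re) (hp : pl = 0) (ne : l ≠ ⟨x, hh x⟩)
    (S : SA2 x T k) : False := by
  have a0 := h.s0
  have a1 := h.s1
  have e := lM_eq hl x T
  have far := farG h hl hp (by linarith only [t0]) (by linarith only [t1]) (by linarith only [y0]) (by linarith only [y1])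
  rcases S with S | S | S
  · exact finR h z0 ne (by decide) S (P3_lR' e (by decide) (chkD4 r_A2_3_0_m0 (by norm_num)
      (le_trans (by norm_num) x0) (le_trans x1 (by norm_num)) (le_trans (by norm_num) T0)
      (le_trans T1 (by norm_num))
      (le_trans (by norm_num) y0) (le_trans y1 (by norm_num))
      (le_trans (by norm_num) t0) (le_trans t1 (by norm_num))) a0 a1 far)
  · exact finR h z0 ne (by decide) S (P3_lZ' e rfl (chkD4 r_A2_3_1_m0 (by norm_num)
      (le_trans (by norm_num) x0) (le_trans x1 (by norm_num)) (le_trans (by norm_num) T0)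
      (le_trans T1 (by norm_num))
      (le_trans (by norm_num) y0) (le_trans y1 (by norm_num))
      (le_trans (by norm_num) t0) (le_trans t1 (by norm_num))) a0 a1 far)
  · exact finR h z0 ne (by decide) S (P3_lR' e (by decide) (chkD4 r_A2_3_2_m0 (by norm_num)
      (le_trans (by norm_num) x0) (le_trans x1 (by norm_num)) (le_trans (by norm_num) T0)
      (le_trans T1 (by norm_num))
      (le_trans (by norm_num) y0) (le_trans y1 (by norm_num))
      (le_trans (by norm_num) t0) (le_trans t1 (by norm_num))) a0 a1 far)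

theorem cA2_m1 (h : H x T Tl pl k l w) (z0 : 63 / 100 ≤ x) (x0 : 63 / 100 ≤ x) (x1 : x ≤ 13 / 20) (T0 : 9 / 200 ≤ T) (T1 : T ≤ 3 / 50)
    (y0 : 1 / 50 ≤ l.re) (y1 : l.re ≤ 1 / 20) (t0 : -(3 / 40) ≤ Tl) (t1 : Tl ≤ -(3 / 50))
    (hl : l.im = Tl * MP_b30479_gt.G2.M13.τl l.re) (hp : pl = 0) (ne : l ≠ ⟨x, hh x⟩)
    (S : SA2 x T k) : False := by
  have a0 := h.s0
  have a1 := h.s1
  have e := lM_eq hl x T
  have far := farH h hl hp (by linarith only [t0]) (by linarith only [t1]) (by linarith only [y0]) (by linarith only [y1])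
  rcases S with S | S | S
  · exact finR h z0 ne (by decide) S (P3_lR' e (by decide) (chkD4 r_A2_3_0_m1 (by norm_num)
      (le_trans (by norm_num) x0) (le_trans x1 (by norm_num)) (le_trans (by norm_num) T0)
      (le_trans T1 (by norm_num))
      (le_trans (by norm_num) y0) (le_trans y1 (by norm_num))
      (le_trans (by norm_num) t0) (le_trans t1 (by norm_num))) a0 a1 far)
  · exact finR h z0 ne (by decide) S (P3_lZ' e rfl (chkD4 r_A2_3_1_m1 (by norm_num)
      (le_trans (by norm_num) x0) (le_trans x1 (by norm_num)) (le_trans (by norm_num) T0)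
      (le_trans T1 (by norm_num))
      (le_trans (by norm_num) y0) (le_trans y1 (by norm_num))
      (le_trans (by norm_num) t0) (le_trans t1 (by norm_num))) a0 a1 far)
  · exact finR h z0 ne (by decide) S (P3_lR' e (by decide) (chkD4 r_A2_3_2_m1 (by norm_num)
      (le_trans (by norm_num) x0) (le_trans x1 (by norm_num)) (le_trans (by norm_num) T0)
      (le_trans T1 (by norm_num))
      (le_trans (by norm_num) y0) (le_trans y1 (by norm_num))
      (le_trans (by norm_num) t0) (le_trans t1 (by norm_num))) a0 a1 far)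

theorem cA2_m2 (h : H x T Tl pl k l w) (z0 : 63 / 100 ≤ x) (x0 : 63 / 100 ≤ x) (x1 : x ≤ 13 / 20) (T0 : 9 / 200 ≤ T) (T1 : T ≤ 3 / 50)
    (y0 : 1 / 50 ≤ l.re) (y1 : l.re ≤ 1 / 20) (t0 : -(3 / 50) ≤ Tl) (t1 : Tl ≤ -(1 / 25))
    (hl : l.im = Tl * MP_b30479_gt.G2.M13.τl l.re) (hp : pl = 0) (ne : l ≠ ⟨x, hh x⟩)
    (S : SA2 x T k) : False := by
  have a0 := h.s0
  have a1 := h.s1
  have e := lM_eq hl x T
  have far := farK h hl hp (by linarith only [t0]) (by linarith only [t1]) (by linarith only [y0]) (by linarith only [y1])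
  rcases S with S | S | S
  · exact finR h z0 ne (by decide) S (P3_lR' e (by decide) (chkD4 r_A2_3_0_m2 (by norm_num)
      (le_trans (by norm_num) x0) (le_trans x1 (by norm_num)) (le_trans (by norm_num) T0)
      (le_trans T1 (by norm_num))
      (le_trans (by norm_num) y0) (le_trans y1 (by norm_num))
      (le_trans (by norm_num) t0) (le_trans t1 (by norm_num))) a0 a1 far)
  · exact finR h z0 ne (by decide) S (P3_lZ' e rfl (chkD4 r_A2_3_1_m2 (by norm_num)
      (le_trans (by norm_num) x0) (le_trans x1 (by norm_num)) (le_trans (by norm_num) T0)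
      (le_trans T1 (by norm_num))
      (le_trans (by norm_num) y0) (le_trans y1 (by norm_num))
      (le_trans (by norm_num) t0) (le_trans t1 (by norm_num))) a0 a1 far)
  · exact finR h z0 ne (by decide) S (P3_lR' e (by decide) (chkD4 r_A2_3_2_m2 (by norm_num)
      (le_trans (by norm_num) x0) (le_trans x1 (by norm_num)) (le_trans (by norm_num) T0)
      (le_trans T1 (by norm_num))
      (le_trans (by norm_num) y0) (le_trans y1 (by norm_num))
      (le_trans (by norm_num) t0) (le_trans t1 (by norm_num))) a0 a1 far)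

theorem cA2_m3 (h : H x T Tl pl k l w) (z0 : 63 / 100 ≤ x) (x0 : 63 / 100 ≤ x) (x1 : x ≤ 13 / 20) (T0 : 9 / 200 ≤ T) (T1 : T ≤ 3 / 50)
    (y0 : 1 / 20 ≤ l.re) (y1 : l.re ≤ 3 / 20) (t0 : -(9 / 100) ≤ Tl) (t1 : Tl ≤ -(3 / 40))
    (hl : l.im = Tl * MP_b30479_gt.G2.M13.τl l.re) (hp : pl = 0) (ne : l ≠ ⟨x, hh x⟩)
    (S : SA2 x T k) : False := by
  have a0 := h.s0
  have a1 := h.s1
  have e := lM_eq hl x T
  have far := farG h hl hp (by linarith only [t0]) (by linarith only [t1]) (by linarith only [y0]) (by linarith only [y1])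
  rcases S with S | S | S
  · exact finR h z0 ne (by decide) S (P3_lR' e (by decide) (chkD4 r_A2_3_0_m3 (by norm_num)
      (le_trans (by norm_num) x0) (le_trans x1 (by norm_num)) (le_trans (by norm_num) T0)
      (le_trans T1 (by norm_num))
      (le_trans (by norm_num) y0) (le_trans y1 (by norm_num))
      (le_trans (by norm_num) t0) (le_trans t1 (by norm_num))) a0 a1 far)
  · exact finR h z0 ne (by decide) S (P3_lZ' e rfl (chkD4 r_A2_3_1_m3 (by norm_num)
      (le_trans (by norm_num) x0) (le_trans x1 (by norm_num)) (le_trans (by norm_num) T0)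
      (le_trans T1 (by norm_num))
      (le_trans (by norm_num) y0) (le_trans y1 (by norm_num))
      (le_trans (by norm_num) t0) (le_trans t1 (by norm_num))) a0 a1 far)
  · exact finR h z0 ne (by decide) S (P3_lR' e (by decide) (chkD4 r_A2_3_2_m3 (by norm_num)
      (le_trans (by norm_num) x0) (le_trans x1 (by norm_num)) (le_trans (by norm_num) T0)
      (le_trans T1 (by norm_num))
      (le_trans (by norm_num) y0) (le_trans y1 (by norm_num))
      (le_trans (by norm_num) t0) (le_trans t1 (by norm_num))) a0 a1 far)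

theorem cA2_m4 (h : H x T Tl pl k l w) (z0 : 63 / 100 ≤ x) (x0 : 63 / 100 ≤ x) (x1 : x ≤ 13 / 20) (T0 : 9 / 200 ≤ T) (T1 : T ≤ 3 / 50)
    (y0 : 1 / 20 ≤ l.re) (y1 : l.re ≤ 3 / 20) (t0 : -(3 / 40) ≤ Tl) (t1 : Tl ≤ -(3 / 50))
    (hl : l.im = Tl * MP_b30479_gt.G2.M13.τl l.re) (hp : pl = 0) (ne : l ≠ ⟨x, hh x⟩)
    (S : SA2 x T k) : False := by
  have a0 := h.s0
  have a1 := h.s1
  have e := lM_eq hl x T
  have far := farH h hl hp (by linarith only [t0]) (by linarith only [t1]) (by linarith only [y0]) (by linarith only [y1])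
  rcases S with S | S | S
  · exact finR h z0 ne (by decide) S (P3_lR' e (by decide) (chkD4 r_A2_3_0_m4 (by norm_num)
      (le_trans (by norm_num) x0) (le_trans x1 (by norm_num)) (le_trans (by norm_num) T0)
      (le_trans T1 (by norm_num))
      (le_trans (by norm_num) y0) (le_trans y1 (by norm_num))
      (le_trans (by norm_num) t0) (le_trans t1 (by norm_num))) a0 a1 far)
  · exact finR h z0 ne (by decide) S (P3_lZ' e rfl (chkD4 r_A2_3_1_m4 (by norm_num)
      (le_trans (by norm_num) x0) (le_trans x1 (by norm_num)) (le_trans (by norm_num) T0)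
      (le_trans T1 (by norm_num))
      (le_trans (by norm_num) y0) (le_trans y1 (by norm_num))
      (le_trans (by norm_num) t0) (le_trans t1 (by norm_num))) a0 a1 far)
  · exact finR h z0 ne (by decide) S (P3_lR' e (by decide) (chkD4 r_A2_3_2_m4 (by norm_num)
      (le_trans (by norm_num) x0) (le_trans x1 (by norm_num)) (le_trans (by norm_num) T0)
      (le_trans T1 (by norm_num))
      (le_trans (by norm_num) y0) (le_trans y1 (by norm_num))
      (le_trans (by norm_num) t0) (le_trans t1 (by norm_num))) a0 a1 far)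

theorem cA2_m5 (h : H x T Tl pl k l w) (z0 : 63 / 100 ≤ x) (x0 : 63 / 100 ≤ x) (x1 : x ≤ 13 / 20) (T0 : 9 / 200 ≤ T) (T1 : T ≤ 3 / 50)
    (y0 : 1 / 20 ≤ l.re) (y1 : l.re ≤ 3 / 20) (t0 : -(3 / 50) ≤ Tl) (t1 : Tl ≤ -(1 / 25))
    (hl : l.im = Tl * MP_b30479_gt.G2.M13.τl l.re) (hp : pl = 0) (ne : l ≠ ⟨x, hh x⟩)
    (S : SA2 x T k) : False := by
  have a0 := h.s0
  have a1 := h.s1
  have e := lM_eq hl x T
  have far := farK h hl hp (by linarith only [t0]) (by linarith only [t1]) (by linarith only [y0]) (by linarith only [y1])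
  rcases S with S | S | S
  · exact finR h z0 ne (by decide) S (P3_lR' e (by decide) (chkD4 r_A2_3_0_m5 (by norm_num)
      (le_trans (by norm_num) x0) (le_trans x1 (by norm_num)) (le_trans (by norm_num) T0)
      (le_trans T1 (by norm_num))
      (le_trans (by norm_num) y0) (le_trans y1 (by norm_num))
      (le_trans (by norm_num) t0) (le_trans t1 (by norm_num))) a0 a1 far)
  · exact finR h z0 ne (by decide) S (P3_lZ' e rfl (chkD4 r_A2_3_1_m5 (by norm_num)
      (le_trans (by norm_num) x0) (le_trans x1 (by norm_num)) (le_trans (by norm_num) T0)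
      (le_trans T1 (by norm_num))
      (le_trans (by norm_num) y0) (le_trans y1 (by norm_num))
      (le_trans (by norm_num) t0) (le_trans t1 (by norm_num))) a0 a1 far)
  · exact finR h z0 ne (by decide) S (P3_lR' e (by decide) (chkD4 r_A2_3_2_m5 (by norm_num)
      (le_trans (by norm_num) x0) (le_trans x1 (by norm_num)) (le_trans (by norm_num) T0)
      (le_trans T1 (by norm_num))
      (le_trans (by norm_num) y0) (le_trans y1 (by norm_num))
      (le_trans (by norm_num) t0) (le_trans t1 (by norm_num))) a0 a1 far)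

theorem cA3_m0 (h : H x T Tl pl k l w) (z0 : 63 / 100 ≤ x) (x0 : 63 / 100 ≤ x) (x1 : x ≤ 16 / 25) (T0 : 3 / 50 ≤ T) (T1 : T ≤ 2 / 25)
    (y0 : 1 / 50 ≤ l.re) (y1 : l.re ≤ 1 / 20) (t0 : -(9 / 100) ≤ Tl) (t1 : Tl ≤ -(3 / 40))
    (hl : l.im = Tl * MP_b30479_gt.G2.M13.τl l.re) (hp : pl = 0) (ne : l ≠ ⟨x, hh x⟩)
    (S : SA3 x T k) : False := by
  have a0 := h.s0
  have a1 := h.s1
  have e := lM_eq hl x T
  have far := farG h hl hp (by linarith only [t0]) (by linarith only [t1]) (by linarith only [y0]) (by linarith only [y1])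
  rcases S with S | S
  · exact finR h z0 ne (by decide) S (P3_lR' e (by decide) (chkD4 r_A3_3_0_m0 (by norm_num)
      (le_trans (by norm_num) x0) (le_trans x1 (by norm_num)) (le_trans (by norm_num) T0)
      (le_trans T1 (by norm_num))
      (le_trans (by norm_num) y0) (le_trans y1 (by norm_num))
      (le_trans (by norm_num) t0) (le_trans t1 (by norm_num))) a0 a1 far)
  · exact finR h z0 ne (by decide) S (P3_lZ' e rfl (chkD4 r_A3_3_1_m0 (by norm_num)
      (le_trans (by norm_num) x0) (le_trans x1 (by norm_num)) (le_trans (by norm_num) T0)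
      (le_trans T1 (by norm_num))
      (le_trans (by norm_num) y0) (le_trans y1 (by norm_num))
      (le_trans (by norm_num) t0) (le_trans t1 (by norm_num))) a0 a1 far)

theorem cA3_m1 (h : H x T Tl pl k l w) (z0 : 63 / 100 ≤ x) (x0 : 63 / 100 ≤ x) (x1 : x ≤ 16 / 25) (T0 : 3 / 50 ≤ T) (T1 : T ≤ 2 / 25)
    (y0 : 1 / 50 ≤ l.re) (y1 : l.re ≤ 1 / 20) (t0 : -(3 / 40) ≤ Tl) (t1 : Tl ≤ -(3 / 50))
    (hl : l.im = Tl * MP_b30479_gt.G2.M13.τl l.re) (hp : pl = 0) (ne : l ≠ ⟨x, hh x⟩)
    (S : SA3 x T k) : False := by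
  have a0 := h.s0
  have a1 := h.s1
  have e := lM_eq hl x T
  have far := farH h hl hp (by linarith only [t0]) (by linarith only [t1]) (by linarith only [y0]) (by linarith only [y1])
  rcases S with S | S
  · exact finR h z0 ne (by decide) S (P3_lR' e (by decide) (chkD4 r_A3_3_0_m1 (by norm_num)
      (le_trans (by norm_num) x0) (le_trans x1 (by norm_num)) (le_trans (by norm_num) T0)
      (le_trans T1 (by norm_num))
      (le_trans (by norm_num) y0) (le_trans y1 (by norm_num))
      (le_trans (by norm_num) t0) (le_trans t1 (by norm_num))) a0 a1 far)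
  · exact finR h z0 ne (by decide) S (P3_lZ' e rfl (chkD4 r_A3_3_1_m1 (by norm_num)
      (le_trans (by norm_num) x0) (le_trans x1 (by norm_num)) (le_trans (by norm_num) T0)
      (le_trans T1 (by norm_num))
      (le_trans (by norm_num) y0) (le_trans y1 (by norm_num))
      (le_trans (by norm_num) t0) (le_trans t1 (by norm_num))) a0 a1 far)

theorem cA3_m2 (h : H x T Tl pl k l w) (z0 : 63 / 100 ≤ x) (x0 : 63 / 100 ≤ x) (x1 : x ≤ 16 / 25) (T0 : 3 / 50 ≤ T) (T1 : T ≤ 2 / 25)
    (y0 : 1 / 50 ≤ l.re) (y1 : l.re ≤ 1 / 20) (t0 : -(3 / 50) ≤ Tl) (t1 : Tl ≤ -(1 / 25))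
    (hl : l.im = Tl * MP_b30479_gt.G2.M13.τl l.re) (hp : pl = 0) (ne : l ≠ ⟨x, hh x⟩)
    (S : SA3 x T k) : False := by
  have a0 := h.s0
  have a1 := h.s1
  have e := lM_eq hl x T
  have far := farK h hl hp (by linarith only [t0]) (by linarith only [t1]) (by linarith only [y0]) (by linarith only [y1])
  rcases S with S | S
  · exact finR h z0 ne (by decide) S (P3_lR' e (by decide) (chkD4 r_A3_3_0_m2 (by norm_num)
      (le_trans (by norm_num) x0) (le_trans x1 (by norm_num)) (le_trans (by norm_num) T0)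
      (le_trans T1 (by norm_num))
      (le_trans (by norm_num) y0) (le_trans y1 (by norm_num))
      (le_trans (by norm_num) t0) (le_trans t1 (by norm_num))) a0 a1 far)
  · exact finR h z0 ne (by decide) S (P3_lZ' e rfl (chkD4 r_A3_3_1_m2 (by norm_num)
      (le_trans (by norm_num) x0) (le_trans x1 (by norm_num)) (le_trans (by norm_num) T0)
      (le_trans T1 (by norm_num))
      (le_trans (by norm_num) y0) (le_trans y1 (by norm_num))
      (le_trans (by norm_num) t0) (le_trans t1 (by norm_num))) a0 a1 far)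

theorem cA3_m3 (h : H x T Tl pl k l w) (z0 : 63 / 100 ≤ x) (x0 : 63 / 100 ≤ x) (x1 : x ≤ 16 / 25) (T0 : 3 / 50 ≤ T) (T1 : T ≤ 2 / 25)
    (y0 : 1 / 20 ≤ l.re) (y1 : l.re ≤ 3 / 20) (t0 : -(9 / 100) ≤ Tl) (t1 : Tl ≤ -(3 / 40))
    (hl : l.im = Tl * MP_b30479_gt.G2.M13.τl l.re) (hp : pl = 0) (ne : l ≠ ⟨x, hh x⟩)
    (S : SA3 x T k) : False := by
  have a0 := h.s0
  have a1 := h.s1
  have e := lM_eq hl x T
  have far := farG h hl hp (by linarith only [t0]) (by linarith only [t1]) (by linarith only [y0]) (by linarith only [y1])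
  rcases S with S | S
  · exact finR h z0 ne (by decide) S (P3_lR' e (by decide) (chkD4 r_A3_3_0_m3 (by norm_num)
      (le_trans (by norm_num) x0) (le_trans x1 (by norm_num)) (le_trans (by norm_num) T0)
      (le_trans T1 (by norm_num))
      (le_trans (by norm_num) y0) (le_trans y1 (by norm_num))
      (le_trans (by norm_num) t0) (le_trans t1 (by norm_num))) a0 a1 far)
  · exact finR h z0 ne (by decide) S (P3_lZ' e rfl (chkD4 r_A3_3_1_m3 (by norm_num)
      (le_trans (by norm_num) x0) (le_trans x1 (by norm_num)) (le_trans (by norm_num) T0)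
      (le_trans T1 (by norm_num))
      (le_trans (by norm_num) y0) (le_trans y1 (by norm_num))
      (le_trans (by norm_num) t0) (le_trans t1 (by norm_num))) a0 a1 far)

theorem cA3_m4 (h : H x T Tl pl k l w) (z0 : 63 / 100 ≤ x) (x0 : 63 / 100 ≤ x) (x1 : x ≤ 16 / 25) (T0 : 3 / 50 ≤ T) (T1 : T ≤ 2 / 25)
    (y0 : 1 / 20 ≤ l.re) (y1 : l.re ≤ 3 / 20) (t0 : -(3 / 40) ≤ Tl) (t1 : Tl ≤ -(3 / 50))
    (hl : l.im = Tl * MP_b30479_gt.G2.M13.τl l.re) (hp : pl = 0) (ne : l ≠ ⟨x, hh x⟩)
    (S : SA3 x T k) : False := by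
  have a0 := h.s0
  have a1 := h.s1
  have e := lM_eq hl x T
  have far := farH h hl hp (by linarith only [t0]) (by linarith only [t1]) (by linarith only [y0]) (by linarith only [y1])
  rcases S with S | S
  · exact finR h z0 ne (by decide) S (P3_lR' e (by decide) (chkD4 r_A3_3_0_m4 (by norm_num)
      (le_trans (by norm_num) x0) (le_trans x1 (by norm_num)) (le_trans (by norm_num) T0)
      (le_trans T1 (by norm_num))
      (le_trans (by norm_num) y0) (le_trans y1 (by norm_num))
      (le_trans (by norm_num) t0) (le_trans t1 (by norm_num))) a0 a1 far)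
  · exact finR h z0 ne (by decide) S (P3_lZ' e rfl (chkD4 r_A3_3_1_m4 (by norm_num)
      (le_trans (by norm_num) x0) (le_trans x1 (by norm_num)) (le_trans (by norm_num) T0)
      (le_trans T1 (by norm_num))
      (le_trans (by norm_num) y0) (le_trans y1 (by norm_num))
      (le_trans (by norm_num) t0) (le_trans t1 (by norm_num))) a0 a1 far)

theorem cA3_m5 (h : H x T Tl pl k l w) (z0 : 63 / 100 ≤ x) (x0 : 63 / 100 ≤ x) (x1 : x ≤ 16 / 25) (T0 : 3 / 50 ≤ T) (T1 : T ≤ 2 / 25)
    (y0 : 1 / 20 ≤ l.re) (y1 : l.re ≤ 3 / 20) (t0 : -(3 / 50) ≤ Tl) (t1 : Tl ≤ -(1 / 25))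
    (hl : l.im = Tl * MP_b30479_gt.G2.M13.τl l.re) (hp : pl = 0) (ne : l ≠ ⟨x, hh x⟩)
    (S : SA3 x T k) : False := by
  have a0 := h.s0
  have a1 := h.s1
  have e := lM_eq hl x T
  have far := farK h hl hp (by linarith only [t0]) (by linarith only [t1]) (by linarith only [y0]) (by linarith only [y1])
  rcases S with S | S
  · exact finR h z0 ne (by decide) S (P3_lR' e (by decide) (chkD4 r_A3_3_0_m5 (by norm_num)
      (le_trans (by norm_num) x0) (le_trans x1 (by norm_num)) (le_trans (by norm_num) T0)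
      (le_trans T1 (by norm_num))
      (le_trans (by norm_num) y0) (le_trans y1 (by norm_num))
      (le_trans (by norm_num) t0) (le_trans t1 (by norm_num))) a0 a1 far)
  · exact finR h z0 ne (by decide) S (P3_lZ' e rfl (chkD4 r_A3_3_1_m5 (by norm_num)
      (le_trans (by norm_num) x0) (le_trans x1 (by norm_num)) (le_trans (by norm_num) T0)
      (le_trans T1 (by norm_num))
      (le_trans (by norm_num) y0) (le_trans y1 (by norm_num))
      (le_trans (by norm_num) t0) (le_trans t1 (by norm_num))) a0 a1 far)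

theorem cA4_m0 (h : H x T Tl pl k l w) (z0 : 63 / 100 ≤ x) (x0 : 16 / 25 ≤ x) (x1 : x ≤ 13 / 20) (T0 : 3 / 50 ≤ T) (T1 : T ≤ 2 / 25)
    (y0 : 1 / 50 ≤ l.re) (y1 : l.re ≤ 1 / 20) (t0 : -(9 / 100) ≤ Tl) (t1 : Tl ≤ -(3 / 40))
    (hl : l.im = Tl * MP_b30479_gt.G2.M13.τl l.re) (hp : pl = 0) (ne : l ≠ ⟨x, hh x⟩)
    (S : SA4 x T k) : False := by
  have a0 := h.s0
  have a1 := h.s1
  have e := lM_eq hl x T
  have far := farG h hl hp (by linarith only [t0]) (by linarith only [t1]) (by linarith only [y0]) (by linarith only [y1])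
  rcases S with S | S | S | S
  · exact finR h z0 ne (by decide) S (P3_lR' e (by decide) (chkD4 r_A4_3_0_m0 (by norm_num)
      (le_trans (by norm_num) x0) (le_trans x1 (by norm_num)) (le_trans (by norm_num) T0)
      (le_trans T1 (by norm_num))
      (le_trans (by norm_num) y0) (le_trans y1 (by norm_num))
      (le_trans (by norm_num) t0) (le_trans t1 (by norm_num))) a0 a1 far)
  · exact finR h z0 ne (by decide) S (P3_lZ' e rfl (chkD4 r_A4_3_1_m0 (by norm_num)
      (le_trans (by norm_num) x0) (le_trans x1 (by norm_num)) (le_trans (by norm_num) T0)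
      (le_trans T1 (by norm_num))
      (le_trans (by norm_num) y0) (le_trans y1 (by norm_num))
      (le_trans (by norm_num) t0) (le_trans t1 (by norm_num))) a0 a1 far)
  · exact finR h z0 ne (by decide) S (P3_lR' e (by decide) (chkD4 r_A4_3_2_m0 (by norm_num)
      (le_trans (by norm_num) x0) (le_trans x1 (by norm_num)) (le_trans (by norm_num) T0)
      (le_trans T1 (by norm_num))
      (le_trans (by norm_num) y0) (le_trans y1 (by norm_num))
      (le_trans (by norm_num) t0) (le_trans t1 (by norm_num))) a0 a1 far)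
  · exact finR h z0 ne (by decide) S (P3_lR' e (by decide) (chkD4 r_A4_3_3_m0 (by norm_num)
      (le_trans (by norm_num) x0) (le_trans x1 (by norm_num)) (le_trans (by norm_num) T0)
      (le_trans T1 (by norm_num))
      (le_trans (by norm_num) y0) (le_trans y1 (by norm_num))
      (le_trans (by norm_num) t0) (le_trans t1 (by norm_num))) a0 a1 far)

theorem cA4_m1 (h : H x T Tl pl k l w) (z0 : 63 / 100 ≤ x) (x0 : 16 / 25 ≤ x) (x1 : x ≤ 13 / 20) (T0 : 3 / 50 ≤ T) (T1 : T ≤ 2 / 25)
    (y0 : 1 / 50 ≤ l.re) (y1 : l.re ≤ 1 / 20) (t0 : -(3 / 40) ≤ Tl) (t1 : Tl ≤ -(3 / 50))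
    (hl : l.im = Tl * MP_b30479_gt.G2.M13.τl l.re) (hp : pl = 0) (ne : l ≠ ⟨x, hh x⟩)
    (S : SA4 x T k) : False := by
  have a0 := h.s0
  have a1 := h.s1
  have e := lM_eq hl x T
  have far := farH h hl hp (by linarith only [t0]) (by linarith only [t1]) (by linarith only [y0]) (by linarith only [y1])
  rcases S with S | S | S | S
  · exact finR h z0 ne (by decide) S (P3_lR' e (by decide) (chkD4 r_A4_3_0_m1 (by norm_num)
      (le_trans (by norm_num) x0) (le_trans x1 (by norm_num)) (le_trans (by norm_num) T0)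
      (le_trans T1 (by norm_num))
      (le_trans (by norm_num) y0) (le_trans y1 (by norm_num))
      (le_trans (by norm_num) t0) (le_trans t1 (by norm_num))) a0 a1 far)
  · exact finR h z0 ne (by decide) S (P3_lZ' e rfl (chkD4 r_A4_3_1_m1 (by norm_num)
      (le_trans (by norm_num) x0) (le_trans x1 (by norm_num)) (le_trans (by norm_num) T0)
      (le_trans T1 (by norm_num))
      (le_trans (by norm_num) y0) (le_trans y1 (by norm_num))
      (le_trans (by norm_num) t0) (le_trans t1 (by norm_num))) a0 a1 far)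
  · exact finR h z0 ne (by decide) S (P3_lR' e (by decide) (chkD4 r_A4_3_2_m1 (by norm_num)
      (le_trans (by norm_num) x0) (le_trans x1 (by norm_num)) (le_trans (by norm_num) T0)
      (le_trans T1 (by norm_num))
      (le_trans (by norm_num) y0) (le_trans y1 (by norm_num))
      (le_trans (by norm_num) t0) (le_trans t1 (by norm_num))) a0 a1 far)
  · exact finR h z0 ne (by decide) S (P3_lR' e (by decide) (chkD4 r_A4_3_3_m1 (by norm_num)
      (le_trans (by norm_num) x0) (le_trans x1 (by norm_num)) (le_trans (by norm_num) T0)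
      (le_trans T1 (by norm_num))
      (le_trans (by norm_num) y0) (le_trans y1 (by norm_num))
      (le_trans (by norm_num) t0) (le_trans t1 (by norm_num))) a0 a1 far)

theorem cA4_m2 (h : H x T Tl pl k l w) (z0 : 63 / 100 ≤ x) (x0 : 16 / 25 ≤ x) (x1 : x ≤ 13 / 20) (T0 : 3 / 50 ≤ T) (T1 : T ≤ 2 / 25)
    (y0 : 1 / 50 ≤ l.re) (y1 : l.re ≤ 1 / 20) (t0 : -(3 / 50) ≤ Tl) (t1 : Tl ≤ -(1 / 25))
    (hl : l.im = Tl * MP_b30479_gt.G2.M13.τl l.re) (hp : pl = 0) (ne : l ≠ ⟨x, hh x⟩)
    (S : SA4 x T k) : False := by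
  have a0 := h.s0
  have a1 := h.s1
  have e := lM_eq hl x T
  have far := farK h hl hp (by linarith only [t0]) (by linarith only [t1]) (by linarith only [y0]) (by linarith only [y1])
  rcases S with S | S | S | S
  · exact finR h z0 ne (by decide) S (P3_lR' e (by decide) (chkD4 r_A4_3_0_m2 (by norm_num)
      (le_trans (by norm_num) x0) (le_trans x1 (by norm_num)) (le_trans (by norm_num) T0)
      (le_trans T1 (by norm_num))
      (le_trans (by norm_num) y0) (le_trans y1 (by norm_num))
      (le_trans (by norm_num) t0) (le_trans t1 (by norm_num))) a0 a1 far)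
  · exact finR h z0 ne (by decide) S (P3_lZ' e rfl (chkD4 r_A4_3_1_m2 (by norm_num)
      (le_trans (by norm_num) x0) (le_trans x1 (by norm_num)) (le_trans (by norm_num) T0)
      (le_trans T1 (by norm_num))
      (le_trans (by norm_num) y0) (le_trans y1 (by norm_num))
      (le_trans (by norm_num) t0) (le_trans t1 (by norm_num))) a0 a1 far)
  · exact finR h z0 ne (by decide) S (P3_lR' e (by decide) (chkD4 r_A4_3_2_m2 (by norm_num)
      (le_trans (by norm_num) x0) (le_trans x1 (by norm_num)) (le_trans (by norm_num) T0)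
      (le_trans T1 (by norm_num))
      (le_trans (by norm_num) y0) (le_trans y1 (by norm_num))
      (le_trans (by norm_num) t0) (le_trans t1 (by norm_num))) a0 a1 far)
  · exact finR h z0 ne (by decide) S (P3_lR' e (by decide) (chkD4 r_A4_3_3_m2 (by norm_num)
      (le_trans (by norm_num) x0) (le_trans x1 (by norm_num)) (le_trans (by norm_num) T0)
      (le_trans T1 (by norm_num))
      (le_trans (by norm_num) y0) (le_trans y1 (by norm_num))
      (le_trans (by norm_num) t0) (le_trans t1 (by norm_num))) a0 a1 far)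

theorem cA4_m3 (h : H x T Tl pl k l w) (z0 : 63 / 100 ≤ x) (x0 : 16 / 25 ≤ x) (x1 : x ≤ 13 / 20) (T0 : 3 / 50 ≤ T) (T1 : T ≤ 2 / 25)
    (y0 : 1 / 20 ≤ l.re) (y1 : l.re ≤ 3 / 20) (t0 : -(9 / 100) ≤ Tl) (t1 : Tl ≤ -(3 / 40))
    (hl : l.im = Tl * MP_b30479_gt.G2.M13.τl l.re) (hp : pl = 0) (ne : l ≠ ⟨x, hh x⟩)
    (S : SA4 x T k) : False := by
  have a0 := h.s0
  have a1 := h.s1
  have e := lM_eq hl x T
  have far := farG h hl hp (by linarith only [t0]) (by linarith only [t1]) (by linarith only [y0]) (by linarith only [y1])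
  rcases S with S | S | S | S
  · exact finR h z0 ne (by decide) S (P3_lR' e (by decide) (chkD4 r_A4_3_0_m3 (by norm_num)
      (le_trans (by norm_num) x0) (le_trans x1 (by norm_num)) (le_trans (by norm_num) T0)
      (le_trans T1 (by norm_num))
      (le_trans (by norm_num) y0) (le_trans y1 (by norm_num))
      (le_trans (by norm_num) t0) (le_trans t1 (by norm_num))) a0 a1 far)
  · exact finR h z0 ne (by decide) S (P3_lZ' e rfl (chkD4 r_A4_3_1_m3 (by norm_num)
      (le_trans (by norm_num) x0) (le_trans x1 (by norm_num)) (le_trans (by norm_num) T0)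
      (le_trans T1 (by norm_num))
      (le_trans (by norm_num) y0) (le_trans y1 (by norm_num))
      (le_trans (by norm_num) t0) (le_trans t1 (by norm_num))) a0 a1 far)
  · exact finR h z0 ne (by decide) S (P3_lR' e (by decide) (chkD4 r_A4_3_2_m3 (by norm_num)
      (le_trans (by norm_num) x0) (le_trans x1 (by norm_num)) (le_trans (by norm_num) T0)
      (le_trans T1 (by norm_num))
      (le_trans (by norm_num) y0) (le_trans y1 (by norm_num))
      (le_trans (by norm_num) t0) (le_trans t1 (by norm_num))) a0 a1 far)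
  · exact finR h z0 ne (by decide) S (P3_lR' e (by decide) (chkD4 r_A4_3_3_m3 (by norm_num)
      (le_trans (by norm_num) x0) (le_trans x1 (by norm_num)) (le_trans (by norm_num) T0)
      (le_trans T1 (by norm_num))
      (le_trans (by norm_num) y0) (le_trans y1 (by norm_num))
      (le_trans (by norm_num) t0) (le_trans t1 (by norm_num))) a0 a1 far)

theorem cA4_m4 (h : H x T Tl pl k l w) (z0 : 63 / 100 ≤ x) (x0 : 16 / 25 ≤ x) (x1 : x ≤ 13 / 20) (T0 : 3 / 50 ≤ T) (T1 : T ≤ 2 / 25)
    (y0 : 1 / 20 ≤ l.re) (y1 : l.re ≤ 3 / 20) (t0 : -(3 / 40) ≤ Tl) (t1 : Tl ≤ -(3 / 50))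
    (hl : l.im = Tl * MP_b30479_gt.G2.M13.τl l.re) (hp : pl = 0) (ne : l ≠ ⟨x, hh x⟩)
    (S : SA4 x T k) : False := by
  have a0 := h.s0
  have a1 := h.s1
  have e := lM_eq hl x T
  have far := farH h hl hp (by linarith only [t0]) (by linarith only [t1]) (by linarith only [y0]) (by linarith only [y1])
  rcases S with S | S | S | S
  · exact finR h z0 ne (by decide) S (P3_lR' e (by decide) (chkD4 r_A4_3_0_m4 (by norm_num)
      (le_trans (by norm_num) x0) (le_trans x1 (by norm_num)) (le_trans (by norm_num) T0)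
      (le_trans T1 (by norm_num))
      (le_trans (by norm_num) y0) (le_trans y1 (by norm_num))
      (le_trans (by norm_num) t0) (le_trans t1 (by norm_num))) a0 a1 far)
  · exact finR h z0 ne (by decide) S (P3_lZ' e rfl (chkD4 r_A4_3_1_m4 (by norm_num)
      (le_trans (by norm_num) x0) (le_trans x1 (by norm_num)) (le_trans (by norm_num) T0)
      (le_trans T1 (by norm_num))
      (le_trans (by norm_num) y0) (le_trans y1 (by norm_num))
      (le_trans (by norm_num) t0) (le_trans t1 (by norm_num))) a0 a1 far)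
  · exact finR h z0 ne (by decide) S (P3_lR' e (by decide) (chkD4 r_A4_3_2_m4 (by norm_num)
      (le_trans (by norm_num) x0) (le_trans x1 (by norm_num)) (le_trans (by norm_num) T0)
      (le_trans T1 (by norm_num))
      (le_trans (by norm_num) y0) (le_trans y1 (by norm_num))
      (le_trans (by norm_num) t0) (le_trans t1 (by norm_num))) a0 a1 far)
  · exact finR h z0 ne (by decide) S (P3_lR' e (by decide) (chkD4 r_A4_3_3_m4 (by norm_num)
      (le_trans (by norm_num) x0) (le_trans x1 (by norm_num)) (le_trans (by norm_num) T0)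
      (le_trans T1 (by norm_num))
      (le_trans (by norm_num) y0) (le_trans y1 (by norm_num))
      (le_trans (by norm_num) t0) (le_trans t1 (by norm_num))) a0 a1 far)

theorem cA4_m5 (h : H x T Tl pl k l w) (z0 : 63 / 100 ≤ x) (x0 : 16 / 25 ≤ x) (x1 : x ≤ 13 / 20) (T0 : 3 / 50 ≤ T) (T1 : T ≤ 2 / 25)
    (y0 : 1 / 20 ≤ l.re) (y1 : l.re ≤ 3 / 20) (t0 : -(3 / 50) ≤ Tl) (t1 : Tl ≤ -(1 / 25))
    (hl : l.im = Tl * MP_b30479_gt.G2.M13.τl l.re) (hp : pl = 0) (ne : l ≠ ⟨x, hh x⟩)
    (S : SA4 x T k) : False := by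
  have a0 := h.s0
  have a1 := h.s1
  have e := lM_eq hl x T
  have far := farK h hl hp (by linarith only [t0]) (by linarith only [t1]) (by linarith only [y0]) (by linarith only [y1])
  rcases S with S | S | S | S
  · exact finR h z0 ne (by decide) S (P3_lR' e (by decide) (chkD4 r_A4_3_0_m5 (by norm_num)
      (le_trans (by norm_num) x0) (le_trans x1 (by norm_num)) (le_trans (by norm_num) T0)
      (le_trans T1 (by norm_num))
      (le_trans (by norm_num) y0) (le_trans y1 (by norm_num))
      (le_trans (by norm_num) t0) (le_trans t1 (by norm_num))) a0 a1 far)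
  · exact finR h z0 ne (by decide) S (P3_lZ' e rfl (chkD4 r_A4_3_1_m5 (by norm_num)
      (le_trans (by norm_num) x0) (le_trans x1 (by norm_num)) (le_trans (by norm_num) T0)
      (le_trans T1 (by norm_num))
      (le_trans (by norm_num) y0) (le_trans y1 (by norm_num))
      (le_trans (by norm_num) t0) (le_trans t1 (by norm_num))) a0 a1 far)
  · exact finR h z0 ne (by decide) S (P3_lR' e (by decide) (chkD4 r_A4_3_2_m5 (by norm_num)
      (le_trans (by norm_num) x0) (le_trans x1 (by norm_num)) (le_trans (by norm_num) T0)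
      (le_trans T1 (by norm_num))
      (le_trans (by norm_num) y0) (le_trans y1 (by norm_num))
      (le_trans (by norm_num) t0) (le_trans t1 (by norm_num))) a0 a1 far)
  · exact finR h z0 ne (by decide) S (P3_lR' e (by decide) (chkD4 r_A4_3_3_m5 (by norm_num)
      (le_trans (by norm_num) x0) (le_trans x1 (by norm_num)) (le_trans (by norm_num) T0)
      (le_trans T1 (by norm_num))
      (le_trans (by norm_num) y0) (le_trans y1 (by norm_num))
      (le_trans (by norm_num) t0) (le_trans t1 (by norm_num))) a0 a1 far)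

theorem cA5_m0 (h : H x T Tl pl k l w) (z0 : 63 / 100 ≤ x) (x0 : 63 / 100 ≤ x) (x1 : x ≤ 16 / 25) (T0 : 2 / 25 ≤ T) (T1 : T ≤ 47 / 500)
    (y0 : 1 / 50 ≤ l.re) (y1 : l.re ≤ 1 / 20) (t0 : -(9 / 100) ≤ Tl) (t1 : Tl ≤ -(3 / 40))
    (hl : l.im = Tl * MP_b30479_gt.G2.M13.τl l.re) (hp : pl = 0) (ne : l ≠ ⟨x, hh x⟩)
    (S : SA5 x T k) : False := by
  have a0 := h.s0
  have a1 := h.s1
  have e := lM_eq hl x T
  have far := farG h hl hp (by linarith only [t0]) (by linarith only [t1]) (by linarith only [y0]) (by linarith only [y1])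
  rcases S with S | S
  · exact finR h z0 ne (by decide) S (P3_lR' e (by decide) (chkD4 r_A5_3_0_m0 (by norm_num)
      (le_trans (by norm_num) x0) (le_trans x1 (by norm_num)) (le_trans (by norm_num) T0)
      (le_trans T1 (by norm_num))
      (le_trans (by norm_num) y0) (le_trans y1 (by norm_num))
      (le_trans (by norm_num) t0) (le_trans t1 (by norm_num))) a0 a1 far)
  · exact finR h z0 ne (by decide) S (P3_lZ' e rfl (chkD4 r_A5_3_1_m0 (by norm_num)
      (le_trans (by norm_num) x0) (le_trans x1 (by norm_num)) (le_trans (by norm_num) T0)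
      (le_trans T1 (by norm_num))
      (le_trans (by norm_num) y0) (le_trans y1 (by norm_num))
      (le_trans (by norm_num) t0) (le_trans t1 (by norm_num))) a0 a1 far)

theorem cA5_m1 (h : H x T Tl pl k l w) (z0 : 63 / 100 ≤ x) (x0 : 63 / 100 ≤ x) (x1 : x ≤ 16 / 25) (T0 : 2 / 25 ≤ T) (T1 : T ≤ 47 / 500)
    (y0 : 1 / 50 ≤ l.re) (y1 : l.re ≤ 1 / 20) (t0 : -(3 / 40) ≤ Tl) (t1 : Tl ≤ -(3 / 50))
    (hl : l.im = Tl * MP_b30479_gt.G2.M13.τl l.re) (hp : pl = 0) (ne : l ≠ ⟨x, hh x⟩)
    (S : SA5 x T k) : False := by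
  have a0 := h.s0
  have a1 := h.s1
  have e := lM_eq hl x T
  have far := farH h hl hp (by linarith only [t0]) (by linarith only [t1]) (by linarith only [y0]) (by linarith only [y1])
  rcases S with S | S
  · exact finR h z0 ne (by decide) S (P3_lR' e (by decide) (chkD4 r_A5_3_0_m1 (by norm_num)
      (le_trans (by norm_num) x0) (le_trans x1 (by norm_num)) (le_trans (by norm_num) T0)
      (le_trans T1 (by norm_num))
      (le_trans (by norm_num) y0) (le_trans y1 (by norm_num))
      (le_trans (by norm_num) t0) (le_trans t1 (by norm_num))) a0 a1 far)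
  · exact finR h z0 ne (by decide) S (P3_lZ' e rfl (chkD4 r_A5_3_1_m1 (by norm_num)
      (le_trans (by norm_num) x0) (le_trans x1 (by norm_num)) (le_trans (by norm_num) T0)
      (le_trans T1 (by norm_num))
      (le_trans (by norm_num) y0) (le_trans y1 (by norm_num))
      (le_trans (by norm_num) t0) (le_trans t1 (by norm_num))) a0 a1 far)

theorem cA5_m2 (h : H x T Tl pl k l w) (z0 : 63 / 100 ≤ x) (x0 : 63 / 100 ≤ x) (x1 : x ≤ 16 / 25) (T0 : 2 / 25 ≤ T) (T1 : T ≤ 47 / 500)
    (y0 : 1 / 50 ≤ l.re) (y1 : l.re ≤ 1 / 20) (t0 : -(3 / 50) ≤ Tl) (t1 : Tl ≤ -(1 / 25))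
    (hl : l.im = Tl * MP_b30479_gt.G2.M13.τl l.re) (hp : pl = 0) (ne : l ≠ ⟨x, hh x⟩)
    (S : SA5 x T k) : False := by
  have a0 := h.s0
  have a1 := h.s1
  have e := lM_eq hl x T
  have far := farK h hl hp (by linarith only [t0]) (by linarith only [t1]) (by linarith only [y0]) (by linarith only [y1])
  rcases S with S | S
  · exact finR h z0 ne (by decide) S (P3_lR' e (by decide) (chkD4 r_A5_3_0_m2 (by norm_num)
      (le_trans (by norm_num) x0) (le_trans x1 (by norm_num)) (le_trans (by norm_num) T0)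
      (le_trans T1 (by norm_num))
      (le_trans (by norm_num) y0) (le_trans y1 (by norm_num))
      (le_trans (by norm_num) t0) (le_trans t1 (by norm_num))) a0 a1 far)
  · exact finR h z0 ne (by decide) S (P3_lZ' e rfl (chkD4 r_A5_3_1_m2 (by norm_num)
      (le_trans (by norm_num) x0) (le_trans x1 (by norm_num)) (le_trans (by norm_num) T0)
      (le_trans T1 (by norm_num))
      (le_trans (by norm_num) y0) (le_trans y1 (by norm_num))
      (le_trans (by norm_num) t0) (le_trans t1 (by norm_num))) a0 a1 far)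

theorem cA5_m3 (h : H x T Tl pl k l w) (z0 : 63 / 100 ≤ x) (x0 : 63 / 100 ≤ x) (x1 : x ≤ 16 / 25) (T0 : 2 / 25 ≤ T) (T1 : T ≤ 47 / 500)
    (y0 : 1 / 20 ≤ l.re) (y1 : l.re ≤ 3 / 20) (t0 : -(9 / 100) ≤ Tl) (t1 : Tl ≤ -(3 / 40))
    (hl : l.im = Tl * MP_b30479_gt.G2.M13.τl l.re) (hp : pl = 0) (ne : l ≠ ⟨x, hh x⟩)
    (S : SA5 x T k) : False := by
  have a0 := h.s0
  have a1 := h.s1
  have e := lM_eq hl x T
  have far := farG h hl hp (by linarith only [t0]) (by linarith only [t1]) (by linarith only [y0]) (by linarith only [y1])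
  rcases S with S | S
  · exact finR h z0 ne (by decide) S (P3_lR' e (by decide) (chkD4 r_A5_3_0_m3 (by norm_num)
      (le_trans (by norm_num) x0) (le_trans x1 (by norm_num)) (le_trans (by norm_num) T0)
      (le_trans T1 (by norm_num))
      (le_trans (by norm_num) y0) (le_trans y1 (by norm_num))
      (le_trans (by norm_num) t0) (le_trans t1 (by norm_num))) a0 a1 far)
  · exact finR h z0 ne (by decide) S (P3_lZ' e rfl (chkD4 r_A5_3_1_m3 (by norm_num)
      (le_trans (by norm_num) x0) (le_trans x1 (by norm_num)) (le_trans (by norm_num) T0)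
      (le_trans T1 (by norm_num))
      (le_trans (by norm_num) y0) (le_trans y1 (by norm_num))
      (le_trans (by norm_num) t0) (le_trans t1 (by norm_num))) a0 a1 far)

theorem cA5_m4 (h : H x T Tl pl k l w) (z0 : 63 / 100 ≤ x) (x0 : 63 / 100 ≤ x) (x1 : x ≤ 16 / 25) (T0 : 2 / 25 ≤ T) (T1 : T ≤ 47 / 500)
    (y0 : 1 / 20 ≤ l.re) (y1 : l.re ≤ 3 / 20) (t0 : -(3 / 40) ≤ Tl) (t1 : Tl ≤ -(3 / 50))
    (hl : l.im = Tl * MP_b30479_gt.G2.M13.τl l.re) (hp : pl = 0) (ne : l ≠ ⟨x, hh x⟩)
    (S : SA5 x T k) : False := by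
  have a0 := h.s0
  have a1 := h.s1
  have e := lM_eq hl x T
  have far := farH h hl hp (by linarith only [t0]) (by linarith only [t1]) (by linarith only [y0]) (by linarith only [y1])
  rcases S with S | S
  · exact finR h z0 ne (by decide) S (P3_lR' e (by decide) (chkD4 r_A5_3_0_m4 (by norm_num)
      (le_trans (by norm_num) x0) (le_trans x1 (by norm_num)) (le_trans (by norm_num) T0)
      (le_trans T1 (by norm_num))
      (le_trans (by norm_num) y0) (le_trans y1 (by norm_num))
      (le_trans (by norm_num) t0) (le_trans t1 (by norm_num))) a0 a1 far)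
  · exact finR h z0 ne (by decide) S (P3_lZ' e rfl (chkD4 r_A5_3_1_m4 (by norm_num)
      (le_trans (by norm_num) x0) (le_trans x1 (by norm_num)) (le_trans (by norm_num) T0)
      (le_trans T1 (by norm_num))
      (le_trans (by norm_num) y0) (le_trans y1 (by norm_num))
      (le_trans (by norm_num) t0) (le_trans t1 (by norm_num))) a0 a1 far)

theorem cA5_m5 (h : H x T Tl pl k l w) (z0 : 63 / 100 ≤ x) (x0 : 63 / 100 ≤ x) (x1 : x ≤ 16 / 25) (T0 : 2 / 25 ≤ T) (T1 : T ≤ 47 / 500)
    (y0 : 1 / 20 ≤ l.re) (y1 : l.re ≤ 3 / 20) (t0 : -(3 / 50) ≤ Tl) (t1 : Tl ≤ -(1 / 25))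
    (hl : l.im = Tl * MP_b30479_gt.G2.M13.τl l.re) (hp : pl = 0) (ne : l ≠ ⟨x, hh x⟩)
    (S : SA5 x T k) : False := by
  have a0 := h.s0
  have a1 := h.s1
  have e := lM_eq hl x T
  have far := farK h hl hp (by linarith only [t0]) (by linarith only [t1]) (by linarith only [y0]) (by linarith only [y1])
  rcases S with S | S
  · exact finR h z0 ne (by decide) S (P3_lR' e (by decide) (chkD4 r_A5_3_0_m5 (by norm_num)
      (le_trans (by norm_num) x0) (le_trans x1 (by norm_num)) (le_trans (by norm_num) T0)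
      (le_trans T1 (by norm_num))
      (le_trans (by norm_num) y0) (le_trans y1 (by norm_num))
      (le_trans (by norm_num) t0) (le_trans t1 (by norm_num))) a0 a1 far)
  · exact finR h z0 ne (by decide) S (P3_lZ' e rfl (chkD4 r_A5_3_1_m5 (by norm_num)
      (le_trans (by norm_num) x0) (le_trans x1 (by norm_num)) (le_trans (by norm_num) T0)
      (le_trans T1 (by norm_num))
      (le_trans (by norm_num) y0) (le_trans y1 (by norm_num))
      (le_trans (by norm_num) t0) (le_trans t1 (by norm_num))) a0 a1 far)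

theorem cA6_m0 (h : H x T Tl pl k l w) (z0 : 63 / 100 ≤ x) (x0 : 16 / 25 ≤ x) (x1 : x ≤ 13 / 20) (T0 : 2 / 25 ≤ T) (T1 : T ≤ 23 / 250)
    (y0 : 1 / 50 ≤ l.re) (y1 : l.re ≤ 1 / 20) (t0 : -(9 / 100) ≤ Tl) (t1 : Tl ≤ -(3 / 40))
    (hl : l.im = Tl * MP_b30479_gt.G2.M13.τl l.re) (hp : pl = 0) (ne : l ≠ ⟨x, hh x⟩)
    (S : SA6 x T k) : False := by
  have a0 := h.s0
  have a1 := h.s1
  have e := lM_eq hl x T
  have far := farG h hl hp (by linarith only [t0]) (by linarith only [t1]) (by linarith only [y0]) (by linarith only [y1])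
  rcases S with S | S | S
  · exact finR h z0 ne (by decide) S (P3_lR' e (by decide) (chkD4 r_A6_3_0_m0 (by norm_num)
      (le_trans (by norm_num) x0) (le_trans x1 (by norm_num)) (le_trans (by norm_num) T0)
      (le_trans T1 (by norm_num))
      (le_trans (by norm_num) y0) (le_trans y1 (by norm_num))
      (le_trans (by norm_num) t0) (le_trans t1 (by norm_num))) a0 a1 far)
  · exact finR h z0 ne (by decide) S (P3_lZ' e rfl (chkD4 r_A6_3_1_m0 (by norm_num)
      (le_trans (by norm_num) x0) (le_trans x1 (by norm_num)) (le_trans (by norm_num) T0)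
      (le_trans T1 (by norm_num))
      (le_trans (by norm_num) y0) (le_trans y1 (by norm_num))
      (le_trans (by norm_num) t0) (le_trans t1 (by norm_num))) a0 a1 far)
  · exact finR h z0 ne (by decide) S (P3_lR' e (by decide) (chkD4 r_A6_3_2_m0 (by norm_num)
      (le_trans (by norm_num) x0) (le_trans x1 (by norm_num)) (le_trans (by norm_num) T0)
      (le_trans T1 (by norm_num))
      (le_trans (by norm_num) y0) (le_trans y1 (by norm_num))
      (le_trans (by norm_num) t0) (le_trans t1 (by norm_num))) a0 a1 far)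

theorem cA6_m1 (h : H x T Tl pl k l w) (z0 : 63 / 100 ≤ x) (x0 : 16 / 25 ≤ x) (x1 : x ≤ 13 / 20) (T0 : 2 / 25 ≤ T) (T1 : T ≤ 23 / 250)
    (y0 : 1 / 50 ≤ l.re) (y1 : l.re ≤ 1 / 20) (t0 : -(3 / 40) ≤ Tl) (t1 : Tl ≤ -(3 / 50))
    (hl : l.im = Tl * MP_b30479_gt.G2.M13.τl l.re) (hp : pl = 0) (ne : l ≠ ⟨x, hh x⟩)
    (S : SA6 x T k) : False := by
  have a0 := h.s0
  have a1 := h.s1
  have e := lM_eq hl x T
  have far := farH h hl hp (by linarith only [t0]) (by linarith only [t1]) (by linarith only [y0]) (by linarith only [y1])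
  rcases S with S | S | S
  · exact finR h z0 ne (by decide) S (P3_lR' e (by decide) (chkD4 r_A6_3_0_m1 (by norm_num)
      (le_trans (by norm_num) x0) (le_trans x1 (by norm_num)) (le_trans (by norm_num) T0)
      (le_trans T1 (by norm_num))
      (le_trans (by norm_num) y0) (le_trans y1 (by norm_num))
      (le_trans (by norm_num) t0) (le_trans t1 (by norm_num))) a0 a1 far)
  · exact finR h z0 ne (by decide) S (P3_lZ' e rfl (chkD4 r_A6_3_1_m1 (by norm_num)
      (le_trans (by norm_num) x0) (le_trans x1 (by norm_num)) (le_trans (by norm_num) T0)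
      (le_trans T1 (by norm_num))
      (le_trans (by norm_num) y0) (le_trans y1 (by norm_num))
      (le_trans (by norm_num) t0) (le_trans t1 (by norm_num))) a0 a1 far)
  · exact finR h z0 ne (by decide) S (P3_lR' e (by decide) (chkD4 r_A6_3_2_m1 (by norm_num)
      (le_trans (by norm_num) x0) (le_trans x1 (by norm_num)) (le_trans (by norm_num) T0)
      (le_trans T1 (by norm_num))
      (le_trans (by norm_num) y0) (le_trans y1 (by norm_num))
      (le_trans (by norm_num) t0) (le_trans t1 (by norm_num))) a0 a1 far)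

theorem cA6_m2 (h : H x T Tl pl k l w) (z0 : 63 / 100 ≤ x) (x0 : 16 / 25 ≤ x) (x1 : x ≤ 13 / 20) (T0 : 2 / 25 ≤ T) (T1 : T ≤ 23 / 250)
    (y0 : 1 / 50 ≤ l.re) (y1 : l.re ≤ 1 / 20) (t0 : -(3 / 50) ≤ Tl) (t1 : Tl ≤ -(1 / 25))
    (hl : l.im = Tl * MP_b30479_gt.G2.M13.τl l.re) (hp : pl = 0) (ne : l ≠ ⟨x, hh x⟩)
    (S : SA6 x T k) : False := by
  have a0 := h.s0
  have a1 := h.s1
  have e := lM_eq hl x T
  have far := farK h hl hp (by linarith only [t0]) (by linarith only [t1]) (by linarith only [y0]) (by linarith only [y1])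
  rcases S with S | S | S
  · exact finR h z0 ne (by decide) S (P3_lR' e (by decide) (chkD4 r_A6_3_0_m2 (by norm_num)
      (le_trans (by norm_num) x0) (le_trans x1 (by norm_num)) (le_trans (by norm_num) T0)
      (le_trans T1 (by norm_num))
      (le_trans (by norm_num) y0) (le_trans y1 (by norm_num))
      (le_trans (by norm_num) t0) (le_trans t1 (by norm_num))) a0 a1 far)
  · exact finR h z0 ne (by decide) S (P3_lZ' e rfl (chkD4 r_A6_3_1_m2 (by norm_num)
      (le_trans (by norm_num) x0) (le_trans x1 (by norm_num)) (le_trans (by norm_num) T0)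
      (le_trans T1 (by norm_num))
      (le_trans (by norm_num) y0) (le_trans y1 (by norm_num))
      (le_trans (by norm_num) t0) (le_trans t1 (by norm_num))) a0 a1 far)
  · exact finR h z0 ne (by decide) S (P3_lR' e (by decide) (chkD4 r_A6_3_2_m2 (by norm_num)
      (le_trans (by norm_num) x0) (le_trans x1 (by norm_num)) (le_trans (by norm_num) T0)
      (le_trans T1 (by norm_num))
      (le_trans (by norm_num) y0) (le_trans y1 (by norm_num))
      (le_trans (by norm_num) t0) (le_trans t1 (by norm_num))) a0 a1 far)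

theorem cA6_m3 (h : H x T Tl pl k l w) (z0 : 63 / 100 ≤ x) (x0 : 16 / 25 ≤ x) (x1 : x ≤ 13 / 20) (T0 : 2 / 25 ≤ T) (T1 : T ≤ 23 / 250)
    (y0 : 1 / 20 ≤ l.re) (y1 : l.re ≤ 3 / 20) (t0 : -(9 / 100) ≤ Tl) (t1 : Tl ≤ -(3 / 40))
    (hl : l.im = Tl * MP_b30479_gt.G2.M13.τl l.re) (hp : pl = 0) (ne : l ≠ ⟨x, hh x⟩)
    (S : SA6 x T k) : False := by
  have a0 := h.s0
  have a1 := h.s1
  have e := lM_eq hl x T
  have far := farG h hl hp (by linarith only [t0]) (by linarith only [t1]) (by linarith only [y0]) (by linarith only [y1])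
  rcases S with S | S | S
  · exact finR h z0 ne (by decide) S (P3_lR' e (by decide) (chkD4 r_A6_3_0_m3 (by norm_num)
      (le_trans (by norm_num) x0) (le_trans x1 (by norm_num)) (le_trans (by norm_num) T0)
      (le_trans T1 (by norm_num))
      (le_trans (by norm_num) y0) (le_trans y1 (by norm_num))
      (le_trans (by norm_num) t0) (le_trans t1 (by norm_num))) a0 a1 far)
  · exact finR h z0 ne (by decide) S (P3_lZ' e rfl (chkD4 r_A6_3_1_m3 (by norm_num)
      (le_trans (by norm_num) x0) (le_trans x1 (by norm_num)) (le_trans (by norm_num) T0)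
      (le_trans T1 (by norm_num))
      (le_trans (by norm_num) y0) (le_trans y1 (by norm_num))
      (le_trans (by norm_num) t0) (le_trans t1 (by norm_num))) a0 a1 far)
  · exact finR h z0 ne (by decide) S (P3_lR' e (by decide) (chkD4 r_A6_3_2_m3 (by norm_num)
      (le_trans (by norm_num) x0) (le_trans x1 (by norm_num)) (le_trans (by norm_num) T0)
      (le_trans T1 (by norm_num))
      (le_trans (by norm_num) y0) (le_trans y1 (by norm_num))
      (le_trans (by norm_num) t0) (le_trans t1 (by norm_num))) a0 a1 far)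

theorem cA6_m4 (h : H x T Tl pl k l w) (z0 : 63 / 100 ≤ x) (x0 : 16 / 25 ≤ x) (x1 : x ≤ 13 / 20) (T0 : 2 / 25 ≤ T) (T1 : T ≤ 23 / 250)
    (y0 : 1 / 20 ≤ l.re) (y1 : l.re ≤ 3 / 20) (t0 : -(3 / 40) ≤ Tl) (t1 : Tl ≤ -(3 / 50))
    (hl : l.im = Tl * MP_b30479_gt.G2.M13.τl l.re) (hp : pl = 0) (ne : l ≠ ⟨x, hh x⟩)
    (S : SA6 x T k) : False := by
  have a0 := h.s0
  have a1 := h.s1
  have e := lM_eq hl x T
  have far := farH h hl hp (by linarith only [t0]) (by linarith only [t1]) (by linarith only [y0]) (by linarith only [y1])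
  rcases S with S | S | S
  · exact finR h z0 ne (by decide) S (P3_lR' e (by decide) (chkD4 r_A6_3_0_m4 (by norm_num)
      (le_trans (by norm_num) x0) (le_trans x1 (by norm_num)) (le_trans (by norm_num) T0)
      (le_trans T1 (by norm_num))
      (le_trans (by norm_num) y0) (le_trans y1 (by norm_num))
      (le_trans (by norm_num) t0) (le_trans t1 (by norm_num))) a0 a1 far)
  · exact finR h z0 ne (by decide) S (P3_lZ' e rfl (chkD4 r_A6_3_1_m4 (by norm_num)
      (le_trans (by norm_num) x0) (le_trans x1 (by norm_num)) (le_trans (by norm_num) T0)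
      (le_trans T1 (by norm_num))
      (le_trans (by norm_num) y0) (le_trans y1 (by norm_num))
      (le_trans (by norm_num) t0) (le_trans t1 (by norm_num))) a0 a1 far)
  · exact finR h z0 ne (by decide) S (P3_lR' e (by decide) (chkD4 r_A6_3_2_m4 (by norm_num)
      (le_trans (by norm_num) x0) (le_trans x1 (by norm_num)) (le_trans (by norm_num) T0)
      (le_trans T1 (by norm_num))
      (le_trans (by norm_num) y0) (le_trans y1 (by norm_num))
      (le_trans (by norm_num) t0) (le_trans t1 (by norm_num))) a0 a1 far)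

theorem cA6_m5 (h : H x T Tl pl k l w) (z0 : 63 / 100 ≤ x) (x0 : 16 / 25 ≤ x) (x1 : x ≤ 13 / 20) (T0 : 2 / 25 ≤ T) (T1 : T ≤ 23 / 250)
    (y0 : 1 / 20 ≤ l.re) (y1 : l.re ≤ 3 / 20) (t0 : -(3 / 50) ≤ Tl) (t1 : Tl ≤ -(1 / 25))
    (hl : l.im = Tl * MP_b30479_gt.G2.M13.τl l.re) (hp : pl = 0) (ne : l ≠ ⟨x, hh x⟩)
    (S : SA6 x T k) : False := by
  have a0 := h.s0
  have a1 := h.s1
  have e := lM_eq hl x T
  have far := farK h hl hp (by linarith only [t0]) (by linarith only [t1]) (by linarith only [y0]) (by linarith only [y1])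
  rcases S with S | S | S
  · exact finR h z0 ne (by decide) S (P3_lR' e (by decide) (chkD4 r_A6_3_0_m5 (by norm_num)
      (le_trans (by norm_num) x0) (le_trans x1 (by norm_num)) (le_trans (by norm_num) T0)
      (le_trans T1 (by norm_num))
      (le_trans (by norm_num) y0) (le_trans y1 (by norm_num))
      (le_trans (by norm_num) t0) (le_trans t1 (by norm_num))) a0 a1 far)
  · exact finR h z0 ne (by decide) S (P3_lZ' e rfl (chkD4 r_A6_3_1_m5 (by norm_num)
      (le_trans (by norm_num) x0) (le_trans x1 (by norm_num)) (le_trans (by norm_num) T0)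
      (le_trans T1 (by norm_num))
      (le_trans (by norm_num) y0) (le_trans y1 (by norm_num))
      (le_trans (by norm_num) t0) (le_trans t1 (by norm_num))) a0 a1 far)
  · exact finR h z0 ne (by decide) S (P3_lR' e (by decide) (chkD4 r_A6_3_2_m5 (by norm_num)
      (le_trans (by norm_num) x0) (le_trans x1 (by norm_num)) (le_trans (by norm_num) T0)
      (le_trans T1 (by norm_num))
      (le_trans (by norm_num) y0) (le_trans y1 (by norm_num))
      (le_trans (by norm_num) t0) (le_trans t1 (by norm_num))) a0 a1 far)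

theorem cA7_m0 (h : H x T Tl pl k l w) (z0 : 63 / 100 ≤ x) (x0 : 16 / 25 ≤ x) (x1 : x ≤ 13 / 20) (T0 : 23 / 250 ≤ T) (T1 : T ≤ 47 / 500)
    (y0 : 1 / 50 ≤ l.re) (y1 : l.re ≤ 1 / 20) (t0 : -(9 / 100) ≤ Tl) (t1 : Tl ≤ -(3 / 40))
    (hl : l.im = Tl * MP_b30479_gt.G2.M13.τl l.re) (hp : pl = 0) (ne : l ≠ ⟨x, hh x⟩)
    (S : SA7 x T k) : False := by
  have a0 := h.s0
  have a1 := h.s1
  have e := lM_eq hl x T
  have far := farG h hl hp (by linarith only [t0]) (by linarith only [t1]) (by linarith only [y0]) (by linarith only [y1])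
  rcases S with S | S | S | S
  · exact finR h z0 ne (by decide) S (P3_lR' e (by decide) (chkD4 r_A7_3_0_m0 (by norm_num)
      (le_trans (by norm_num) x0) (le_trans x1 (by norm_num)) (le_trans (by norm_num) T0)
      (le_trans T1 (by norm_num))
      (le_trans (by norm_num) y0) (le_trans y1 (by norm_num))
      (le_trans (by norm_num) t0) (le_trans t1 (by norm_num))) a0 a1 far)
  · exact finR h z0 ne (by decide) S (P3_lZ' e rfl (chkD4 r_A7_3_1_m0 (by norm_num)
      (le_trans (by norm_num) x0) (le_trans x1 (by norm_num)) (le_trans (by norm_num) T0)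
      (le_trans T1 (by norm_num))
      (le_trans (by norm_num) y0) (le_trans y1 (by norm_num))
      (le_trans (by norm_num) t0) (le_trans t1 (by norm_num))) a0 a1 far)
  · exact finR h z0 ne (by decide) S (P3_lR' e (by decide) (chkD4 r_A7_3_2_m0 (by norm_num)
      (le_trans (by norm_num) x0) (le_trans x1 (by norm_num)) (le_trans (by norm_num) T0)
      (le_trans T1 (by norm_num))
      (le_trans (by norm_num) y0) (le_trans y1 (by norm_num))
      (le_trans (by norm_num) t0) (le_trans t1 (by norm_num))) a0 a1 far)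
  · exact finR h z0 ne (by decide) S (P3_lR' e (by decide) (chkD4 r_A7_3_3_m0 (by norm_num)
      (le_trans (by norm_num) x0) (le_trans x1 (by norm_num)) (le_trans (by norm_num) T0)
      (le_trans T1 (by norm_num))
      (le_trans (by norm_num) y0) (le_trans y1 (by norm_num))
      (le_trans (by norm_num) t0) (le_trans t1 (by norm_num))) a0 a1 far)

theorem cA7_m1 (h : H x T Tl pl k l w) (z0 : 63 / 100 ≤ x) (x0 : 16 / 25 ≤ x) (x1 : x ≤ 13 / 20) (T0 : 23 / 250 ≤ T) (T1 : T ≤ 47 / 500)
    (y0 : 1 / 50 ≤ l.re) (y1 : l.re ≤ 1 / 20) (t0 : -(3 / 40) ≤ Tl) (t1 : Tl ≤ -(3 / 50))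
    (hl : l.im = Tl * MP_b30479_gt.G2.M13.τl l.re) (hp : pl = 0) (ne : l ≠ ⟨x, hh x⟩)
    (S : SA7 x T k) : False := by
  have a0 := h.s0
  have a1 := h.s1
  have e := lM_eq hl x T
  have far := farH h hl hp (by linarith only [t0]) (by linarith only [t1]) (by linarith only [y0]) (by linarith only [y1])
  rcases S with S | S | S | S
  · exact finR h z0 ne (by decide) S (P3_lR' e (by decide) (chkD4 r_A7_3_0_m1 (by norm_num)
      (le_trans (by norm_num) x0) (le_trans x1 (by norm_num)) (le_trans (by norm_num) T0)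
      (le_trans T1 (by norm_num))
      (le_trans (by norm_num) y0) (le_trans y1 (by norm_num))
      (le_trans (by norm_num) t0) (le_trans t1 (by norm_num))) a0 a1 far)
  · exact finR h z0 ne (by decide) S (P3_lZ' e rfl (chkD4 r_A7_3_1_m1 (by norm_num)
      (le_trans (by norm_num) x0) (le_trans x1 (by norm_num)) (le_trans (by norm_num) T0)
      (le_trans T1 (by norm_num))
      (le_trans (by norm_num) y0) (le_trans y1 (by norm_num))
      (le_trans (by norm_num) t0) (le_trans t1 (by norm_num))) a0 a1 far)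
  · exact finR h z0 ne (by decide) S (P3_lR' e (by decide) (chkD4 r_A7_3_2_m1 (by norm_num)
      (le_trans (by norm_num) x0) (le_trans x1 (by norm_num)) (le_trans (by norm_num) T0)
      (le_trans T1 (by norm_num))
      (le_trans (by norm_num) y0) (le_trans y1 (by norm_num))
      (le_trans (by norm_num) t0) (le_trans t1 (by norm_num))) a0 a1 far)
  · exact finR h z0 ne (by decide) S (P3_lR' e (by decide) (chkD4 r_A7_3_3_m1 (by norm_num)
      (le_trans (by norm_num) x0) (le_trans x1 (by norm_num)) (le_trans (by norm_num) T0)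
      (le_trans T1 (by norm_num))
      (le_trans (by norm_num) y0) (le_trans y1 (by norm_num))
      (le_trans (by norm_num) t0) (le_trans t1 (by norm_num))) a0 a1 far)

theorem cA7_m2 (h : H x T Tl pl k l w) (z0 : 63 / 100 ≤ x) (x0 : 16 / 25 ≤ x) (x1 : x ≤ 13 / 20) (T0 : 23 / 250 ≤ T) (T1 : T ≤ 47 / 500)
    (y0 : 1 / 50 ≤ l.re) (y1 : l.re ≤ 1 / 20) (t0 : -(3 / 50) ≤ Tl) (t1 : Tl ≤ -(1 / 25))
    (hl : l.im = Tl * MP_b30479_gt.G2.M13.τl l.re) (hp : pl = 0) (ne : l ≠ ⟨x, hh x⟩)
    (S : SA7 x T k) : False := by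
  have a0 := h.s0
  have a1 := h.s1
  have e := lM_eq hl x T
  have far := farK h hl hp (by linarith only [t0]) (by linarith only [t1]) (by linarith only [y0]) (by linarith only [y1])
  rcases S with S | S | S | S
  · exact finR h z0 ne (by decide) S (P3_lR' e (by decide) (chkD4 r_A7_3_0_m2 (by norm_num)
      (le_trans (by norm_num) x0) (le_trans x1 (by norm_num)) (le_trans (by norm_num) T0)
      (le_trans T1 (by norm_num))
      (le_trans (by norm_num) y0) (le_trans y1 (by norm_num))
      (le_trans (by norm_num) t0) (le_trans t1 (by norm_num))) a0 a1 far)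
  · exact finR h z0 ne (by decide) S (P3_lZ' e rfl (chkD4 r_A7_3_1_m2 (by norm_num)
      (le_trans (by norm_num) x0) (le_trans x1 (by norm_num)) (le_trans (by norm_num) T0)
      (le_trans T1 (by norm_num))
      (le_trans (by norm_num) y0) (le_trans y1 (by norm_num))
      (le_trans (by norm_num) t0) (le_trans t1 (by norm_num))) a0 a1 far)
  · exact finR h z0 ne (by decide) S (P3_lR' e (by decide) (chkD4 r_A7_3_2_m2 (by norm_num)
      (le_trans (by norm_num) x0) (le_trans x1 (by norm_num)) (le_trans (by norm_num) T0)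
      (le_trans T1 (by norm_num))
      (le_trans (by norm_num) y0) (le_trans y1 (by norm_num))
      (le_trans (by norm_num) t0) (le_trans t1 (by norm_num))) a0 a1 far)
  · exact finR h z0 ne (by decide) S (P3_lR' e (by decide) (chkD4 r_A7_3_3_m2 (by norm_num)
      (le_trans (by norm_num) x0) (le_trans x1 (by norm_num)) (le_trans (by norm_num) T0)
      (le_trans T1 (by norm_num))
      (le_trans (by norm_num) y0) (le_trans y1 (by norm_num))
      (le_trans (by norm_num) t0) (le_trans t1 (by norm_num))) a0 a1 far)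

theorem cA7_m3 (h : H x T Tl pl k l w) (z0 : 63 / 100 ≤ x) (x0 : 16 / 25 ≤ x) (x1 : x ≤ 13 / 20) (T0 : 23 / 250 ≤ T) (T1 : T ≤ 47 / 500)
    (y0 : 1 / 20 ≤ l.re) (y1 : l.re ≤ 3 / 20) (t0 : -(9 / 100) ≤ Tl) (t1 : Tl ≤ -(3 / 40))
    (hl : l.im = Tl * MP_b30479_gt.G2.M13.τl l.re) (hp : pl = 0) (ne : l ≠ ⟨x, hh x⟩)
    (S : SA7 x T k) : False := by
  have a0 := h.s0
  have a1 := h.s1
  have e := lM_eq hl x T
  have far := farG h hl hp (by linarith only [t0]) (by linarith only [t1]) (by linarith only [y0]) (by linarith only [y1])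
  rcases S with S | S | S | S
  · exact finR h z0 ne (by decide) S (P3_lR' e (by decide) (chkD4 r_A7_3_0_m3 (by norm_num)
      (le_trans (by norm_num) x0) (le_trans x1 (by norm_num)) (le_trans (by norm_num) T0)
      (le_trans T1 (by norm_num))
      (le_trans (by norm_num) y0) (le_trans y1 (by norm_num))
      (le_trans (by norm_num) t0) (le_trans t1 (by norm_num))) a0 a1 far)
  · exact finR h z0 ne (by decide) S (P3_lZ' e rfl (chkD4 r_A7_3_1_m3 (by norm_num)
      (le_trans (by norm_num) x0) (le_trans x1 (by norm_num)) (le_trans (by norm_num) T0)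
      (le_trans T1 (by norm_num))
      (le_trans (by norm_num) y0) (le_trans y1 (by norm_num))
      (le_trans (by norm_num) t0) (le_trans t1 (by norm_num))) a0 a1 far)
  · exact finR h z0 ne (by decide) S (P3_lR' e (by decide) (chkD4 r_A7_3_2_m3 (by norm_num)
      (le_trans (by norm_num) x0) (le_trans x1 (by norm_num)) (le_trans (by norm_num) T0)
      (le_trans T1 (by norm_num))
      (le_trans (by norm_num) y0) (le_trans y1 (by norm_num))
      (le_trans (by norm_num) t0) (le_trans t1 (by norm_num))) a0 a1 far)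
  · exact finR h z0 ne (by decide) S (P3_lR' e (by decide) (chkD4 r_A7_3_3_m3 (by norm_num)
      (le_trans (by norm_num) x0) (le_trans x1 (by norm_num)) (le_trans (by norm_num) T0)
      (le_trans T1 (by norm_num))
      (le_trans (by norm_num) y0) (le_trans y1 (by norm_num))
      (le_trans (by norm_num) t0) (le_trans t1 (by norm_num))) a0 a1 far)

theorem cA7_m4 (h : H x T Tl pl k l w) (z0 : 63 / 100 ≤ x) (x0 : 16 / 25 ≤ x) (x1 : x ≤ 13 / 20) (T0 : 23 / 250 ≤ T) (T1 : T ≤ 47 / 500)
    (y0 : 1 / 20 ≤ l.re) (y1 : l.re ≤ 3 / 20) (t0 : -(3 / 40) ≤ Tl) (t1 : Tl ≤ -(3 / 50))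
    (hl : l.im = Tl * MP_b30479_gt.G2.M13.τl l.re) (hp : pl = 0) (ne : l ≠ ⟨x, hh x⟩)
    (S : SA7 x T k) : False := by
  have a0 := h.s0
  have a1 := h.s1
  have e := lM_eq hl x T
  have far := farH h hl hp (by linarith only [t0]) (by linarith only [t1]) (by linarith only [y0]) (by linarith only [y1])
  rcases S with S | S | S | S
  · exact finR h z0 ne (by decide) S (P3_lR' e (by decide) (chkD4 r_A7_3_0_m4 (by norm_num)
      (le_trans (by norm_num) x0) (le_trans x1 (by norm_num)) (le_trans (by norm_num) T0)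
      (le_trans T1 (by norm_num))
      (le_trans (by norm_num) y0) (le_trans y1 (by norm_num))
      (le_trans (by norm_num) t0) (le_trans t1 (by norm_num))) a0 a1 far)
  · exact finR h z0 ne (by decide) S (P3_lZ' e rfl (chkD4 r_A7_3_1_m4 (by norm_num)
      (le_trans (by norm_num) x0) (le_trans x1 (by norm_num)) (le_trans (by norm_num) T0)
      (le_trans T1 (by norm_num))
      (le_trans (by norm_num) y0) (le_trans y1 (by norm_num))
      (le_trans (by norm_num) t0) (le_trans t1 (by norm_num))) a0 a1 far)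
  · exact finR h z0 ne (by decide) S (P3_lR' e (by decide) (chkD4 r_A7_3_2_m4 (by norm_num)
      (le_trans (by norm_num) x0) (le_trans x1 (by norm_num)) (le_trans (by norm_num) T0)
      (le_trans T1 (by norm_num))
      (le_trans (by norm_num) y0) (le_trans y1 (by norm_num))
      (le_trans (by norm_num) t0) (le_trans t1 (by norm_num))) a0 a1 far)
  · exact finR h z0 ne (by decide) S (P3_lR' e (by decide) (chkD4 r_A7_3_3_m4 (by norm_num)
      (le_trans (by norm_num) x0) (le_trans x1 (by norm_num)) (le_trans (by norm_num) T0)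
      (le_trans T1 (by norm_num))
      (le_trans (by norm_num) y0) (le_trans y1 (by norm_num))
      (le_trans (by norm_num) t0) (le_trans t1 (by norm_num))) a0 a1 far)

theorem cA7_m5 (h : H x T Tl pl k l w) (z0 : 63 / 100 ≤ x) (x0 : 16 / 25 ≤ x) (x1 : x ≤ 13 / 20) (T0 : 23 / 250 ≤ T) (T1 : T ≤ 47 / 500)
    (y0 : 1 / 20 ≤ l.re) (y1 : l.re ≤ 3 / 20) (t0 : -(3 / 50) ≤ Tl) (t1 : Tl ≤ -(1 / 25))
    (hl : l.im = Tl * MP_b30479_gt.G2.M13.τl l.re) (hp : pl = 0) (ne : l ≠ ⟨x, hh x⟩)
    (S : SA7 x T k) : False := by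
  have a0 := h.s0
  have a1 := h.s1
  have e := lM_eq hl x T
  have far := farK h hl hp (by linarith only [t0]) (by linarith only [t1]) (by linarith only [y0]) (by linarith only [y1])
  rcases S with S | S | S | S
  · exact finR h z0 ne (by decide) S (P3_lR' e (by decide) (chkD4 r_A7_3_0_m5 (by norm_num)
      (le_trans (by norm_num) x0) (le_trans x1 (by norm_num)) (le_trans (by norm_num) T0)
      (le_trans T1 (by norm_num))
      (le_trans (by norm_num) y0) (le_trans y1 (by norm_num))
      (le_trans (by norm_num) t0) (le_trans t1 (by norm_num))) a0 a1 far)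
  · exact finR h z0 ne (by decide) S (P3_lZ' e rfl (chkD4 r_A7_3_1_m5 (by norm_num)
      (le_trans (by norm_num) x0) (le_trans x1 (by norm_num)) (le_trans (by norm_num) T0)
      (le_trans T1 (by norm_num))
      (le_trans (by norm_num) y0) (le_trans y1 (by norm_num))
      (le_trans (by norm_num) t0) (le_trans t1 (by norm_num))) a0 a1 far)
  · exact finR h z0 ne (by decide) S (P3_lR' e (by decide) (chkD4 r_A7_3_2_m5 (by norm_num)
      (le_trans (by norm_num) x0) (le_trans x1 (by norm_num)) (le_trans (by norm_num) T0)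
      (le_trans T1 (by norm_num))
      (le_trans (by norm_num) y0) (le_trans y1 (by norm_num))
      (le_trans (by norm_num) t0) (le_trans t1 (by norm_num))) a0 a1 far)
  · exact finR h z0 ne (by decide) S (P3_lR' e (by decide) (chkD4 r_A7_3_3_m5 (by norm_num)
      (le_trans (by norm_num) x0) (le_trans x1 (by norm_num)) (le_trans (by norm_num) T0)
      (le_trans T1 (by norm_num))
      (le_trans (by norm_num) y0) (le_trans y1 (by norm_num))
      (le_trans (by norm_num) t0) (le_trans t1 (by norm_num))) a0 a1 far)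

theorem cEA_m0 (h : H x T Tl pl k l w) (z0 : 63 / 100 ≤ x) (x0 : 63 / 100 ≤ x) (x1 : x ≤ 13 / 20) (T0 : 87 / 1000 ≤ T) (T1 : T ≤ 229 / 2000)
    (y0 : 1 / 50 ≤ l.re) (y1 : l.re ≤ 1 / 20) (t0 : -(9 / 100) ≤ Tl) (t1 : Tl ≤ -(3 / 40))
    (hl : l.im = Tl * MP_b30479_gt.G2.M13.τl l.re) (hp : pl = 0) (ne : l ≠ ⟨x, hh x⟩)
    (S : SEA x T k) : False := by
  have a0 := h.s0
  have a1 := h.s1
  have e := lM_eq hl x T
  have far := farG h hl hp (by linarith only [t0]) (by linarith only [t1]) (by linarith only [y0]) (by linarith only [y1])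
  rcases S with S | S | S | S
  · exact finR h z0 ne (by decide) S (P3_lR' e (by decide) (chkD4 r_EA_3_0_m0 (by norm_num)
      (le_trans (by norm_num) x0) (le_trans x1 (by norm_num)) (le_trans (by norm_num) T0)
      (le_trans T1 (by norm_num))
      (le_trans (by norm_num) y0) (le_trans y1 (by norm_num))
      (le_trans (by norm_num) t0) (le_trans t1 (by norm_num))) a0 a1 far)
  · exact finR h z0 ne (by decide) S (P3_lZ' e rfl (chkD4 r_EA_3_1_m0 (by norm_num)
      (le_trans (by norm_num) x0) (le_trans x1 (by norm_num)) (le_trans (by norm_num) T0)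
      (le_trans T1 (by norm_num))
      (le_trans (by norm_num) y0) (le_trans y1 (by norm_num))
      (le_trans (by norm_num) t0) (le_trans t1 (by norm_num))) a0 a1 far)
  · exact finR h z0 ne (by decide) S (P3_lR' e (by decide) (chkD4 r_EA_3_2_m0 (by norm_num)
      (le_trans (by norm_num) x0) (le_trans x1 (by norm_num)) (le_trans (by norm_num) T0)
      (le_trans T1 (by norm_num))
      (le_trans (by norm_num) y0) (le_trans y1 (by norm_num))
      (le_trans (by norm_num) t0) (le_trans t1 (by norm_num))) a0 a1 far)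
  · exact finR h z0 ne (by decide) S (P3_lR' e (by decide) (chkD4 r_EA_3_3_m0 (by norm_num)
      (le_trans (by norm_num) x0) (le_trans x1 (by norm_num)) (le_trans (by norm_num) T0)
      (le_trans T1 (by norm_num))
      (le_trans (by norm_num) y0) (le_trans y1 (by norm_num))
      (le_trans (by norm_num) t0) (le_trans t1 (by norm_num))) a0 a1 far)

theorem cEA_m1 (h : H x T Tl pl k l w) (z0 : 63 / 100 ≤ x) (x0 : 63 / 100 ≤ x) (x1 : x ≤ 13 / 20) (T0 : 87 / 1000 ≤ T) (T1 : T ≤ 229 / 2000)
    (y0 : 1 / 50 ≤ l.re) (y1 : l.re ≤ 1 / 20) (t0 : -(3 / 40) ≤ Tl) (t1 : Tl ≤ -(3 / 50))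
    (hl : l.im = Tl * MP_b30479_gt.G2.M13.τl l.re) (hp : pl = 0) (ne : l ≠ ⟨x, hh x⟩)
    (S : SEA x T k) : False := by
  have a0 := h.s0
  have a1 := h.s1
  have e := lM_eq hl x T
  have far := farH h hl hp (by linarith only [t0]) (by linarith only [t1]) (by linarith only [y0]) (by linarith only [y1])
  rcases S with S | S | S | S
  · exact finR h z0 ne (by decide) S (P3_lR' e (by decide) (chkD4 r_EA_3_0_m1 (by norm_num)
      (le_trans (by norm_num) x0) (le_trans x1 (by norm_num)) (le_trans (by norm_num) T0)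
      (le_trans T1 (by norm_num))
      (le_trans (by norm_num) y0) (le_trans y1 (by norm_num))
      (le_trans (by norm_num) t0) (le_trans t1 (by norm_num))) a0 a1 far)
  · exact finR h z0 ne (by decide) S (P3_lZ' e rfl (chkD4 r_EA_3_1_m1 (by norm_num)
      (le_trans (by norm_num) x0) (le_trans x1 (by norm_num)) (le_trans (by norm_num) T0)
      (le_trans T1 (by norm_num))
      (le_trans (by norm_num) y0) (le_trans y1 (by norm_num))
      (le_trans (by norm_num) t0) (le_trans t1 (by norm_num))) a0 a1 far)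
  · exact finR h z0 ne (by decide) S (P3_lR' e (by decide) (chkD4 r_EA_3_2_m1 (by norm_num)
      (le_trans (by norm_num) x0) (le_trans x1 (by norm_num)) (le_trans (by norm_num) T0)
      (le_trans T1 (by norm_num))
      (le_trans (by norm_num) y0) (le_trans y1 (by norm_num))
      (le_trans (by norm_num) t0) (le_trans t1 (by norm_num))) a0 a1 far)
  · exact finR h z0 ne (by decide) S (P3_lR' e (by decide) (chkD4 r_EA_3_3_m1 (by norm_num)
      (le_trans (by norm_num) x0) (le_trans x1 (by norm_num)) (le_trans (by norm_num) T0)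
      (le_trans T1 (by norm_num))
      (le_trans (by norm_num) y0) (le_trans y1 (by norm_num))
      (le_trans (by norm_num) t0) (le_trans t1 (by norm_num))) a0 a1 far)

theorem cEA_m2 (h : H x T Tl pl k l w) (z0 : 63 / 100 ≤ x) (x0 : 63 / 100 ≤ x) (x1 : x ≤ 13 / 20) (T0 : 87 / 1000 ≤ T) (T1 : T ≤ 229 / 2000)
    (y0 : 1 / 50 ≤ l.re) (y1 : l.re ≤ 1 / 20) (t0 : -(3 / 50) ≤ Tl) (t1 : Tl ≤ -(1 / 25))
    (hl : l.im = Tl * MP_b30479_gt.G2.M13.τl l.re) (hp : pl = 0) (ne : l ≠ ⟨x, hh x⟩)
    (S : SEA x T k) : False := by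
  have a0 := h.s0
  have a1 := h.s1
  have e := lM_eq hl x T
  have far := farK h hl hp (by linarith only [t0]) (by linarith only [t1]) (by linarith only [y0]) (by linarith only [y1])
  rcases S with S | S | S | S
  · exact finR h z0 ne (by decide) S (P3_lR' e (by decide) (chkD4 r_EA_3_0_m2 (by norm_num)
      (le_trans (by norm_num) x0) (le_trans x1 (by norm_num)) (le_trans (by norm_num) T0)
      (le_trans T1 (by norm_num))
      (le_trans (by norm_num) y0) (le_trans y1 (by norm_num))
      (le_trans (by norm_num) t0) (le_trans t1 (by norm_num))) a0 a1 far)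
  · exact finR h z0 ne (by decide) S (P3_lZ' e rfl (chkD4 r_EA_3_1_m2 (by norm_num)
      (le_trans (by norm_num) x0) (le_trans x1 (by norm_num)) (le_trans (by norm_num) T0)
      (le_trans T1 (by norm_num))
      (le_trans (by norm_num) y0) (le_trans y1 (by norm_num))
      (le_trans (by norm_num) t0) (le_trans t1 (by norm_num))) a0 a1 far)
  · exact finR h z0 ne (by decide) S (P3_lR' e (by decide) (chkD4 r_EA_3_2_m2 (by norm_num)
      (le_trans (by norm_num) x0) (le_trans x1 (by norm_num)) (le_trans (by norm_num) T0)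
      (le_trans T1 (by norm_num))
      (le_trans (by norm_num) y0) (le_trans y1 (by norm_num))
      (le_trans (by norm_num) t0) (le_trans t1 (by norm_num))) a0 a1 far)
  · exact finR h z0 ne (by decide) S (P3_lR' e (by decide) (chkD4 r_EA_3_3_m2 (by norm_num)
      (le_trans (by norm_num) x0) (le_trans x1 (by norm_num)) (le_trans (by norm_num) T0)
      (le_trans T1 (by norm_num))
      (le_trans (by norm_num) y0) (le_trans y1 (by norm_num))
      (le_trans (by norm_num) t0) (le_trans t1 (by norm_num))) a0 a1 far)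

theorem cEA_m3 (h : H x T Tl pl k l w) (z0 : 63 / 100 ≤ x) (x0 : 63 / 100 ≤ x) (x1 : x ≤ 13 / 20) (T0 : 87 / 1000 ≤ T) (T1 : T ≤ 229 / 2000)
    (y0 : 1 / 20 ≤ l.re) (y1 : l.re ≤ 3 / 20) (t0 : -(9 / 100) ≤ Tl) (t1 : Tl ≤ -(3 / 40))
    (hl : l.im = Tl * MP_b30479_gt.G2.M13.τl l.re) (hp : pl = 0) (ne : l ≠ ⟨x, hh x⟩)
    (S : SEA x T k) : False := by
  have a0 := h.s0
  have a1 := h.s1
  have e := lM_eq hl x T
  have far := farG h hl hp (by linarith only [t0]) (by linarith only [t1]) (by linarith only [y0]) (by linarith only [y1])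
  rcases S with S | S | S | S
  · exact finR h z0 ne (by decide) S (P3_lR' e (by decide) (chkD4 r_EA_3_0_m3 (by norm_num)
      (le_trans (by norm_num) x0) (le_trans x1 (by norm_num)) (le_trans (by norm_num) T0)
      (le_trans T1 (by norm_num))
      (le_trans (by norm_num) y0) (le_trans y1 (by norm_num))
      (le_trans (by norm_num) t0) (le_trans t1 (by norm_num))) a0 a1 far)
  · exact finR h z0 ne (by decide) S (P3_lZ' e rfl (chkD4 r_EA_3_1_m3 (by norm_num)
      (le_trans (by norm_num) x0) (le_trans x1 (by norm_num)) (le_trans (by norm_num) T0)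
      (le_trans T1 (by norm_num))
      (le_trans (by norm_num) y0) (le_trans y1 (by norm_num))
      (le_trans (by norm_num) t0) (le_trans t1 (by norm_num))) a0 a1 far)
  · exact finR h z0 ne (by decide) S (P3_lR' e (by decide) (chkD4 r_EA_3_2_m3 (by norm_num)
      (le_trans (by norm_num) x0) (le_trans x1 (by norm_num)) (le_trans (by norm_num) T0)
      (le_trans T1 (by norm_num))
      (le_trans (by norm_num) y0) (le_trans y1 (by norm_num))
      (le_trans (by norm_num) t0) (le_trans t1 (by norm_num))) a0 a1 far)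
  · exact finR h z0 ne (by decide) S (P3_lR' e (by decide) (chkD4 r_EA_3_3_m3 (by norm_num)
      (le_trans (by norm_num) x0) (le_trans x1 (by norm_num)) (le_trans (by norm_num) T0)
      (le_trans T1 (by norm_num))
      (le_trans (by norm_num) y0) (le_trans y1 (by norm_num))
      (le_trans (by norm_num) t0) (le_trans t1 (by norm_num))) a0 a1 far)

theorem cEA_m4 (h : H x T Tl pl k l w) (z0 : 63 / 100 ≤ x) (x0 : 63 / 100 ≤ x) (x1 : x ≤ 13 / 20) (T0 : 87 / 1000 ≤ T) (T1 : T ≤ 229 / 2000)
    (y0 : 1 / 20 ≤ l.re) (y1 : l.re ≤ 3 / 20) (t0 : -(3 / 40) ≤ Tl) (t1 : Tl ≤ -(3 / 50))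
    (hl : l.im = Tl * MP_b30479_gt.G2.M13.τl l.re) (hp : pl = 0) (ne : l ≠ ⟨x, hh x⟩)
    (S : SEA x T k) : False := by
  have a0 := h.s0
  have a1 := h.s1
  have e := lM_eq hl x T
  have far := farH h hl hp (by linarith only [t0]) (by linarith only [t1]) (by linarith only [y0]) (by linarith only [y1])
  rcases S with S | S | S | S
  · exact finR h z0 ne (by decide) S (P3_lR' e (by decide) (chkD4 r_EA_3_0_m4 (by norm_num)
      (le_trans (by norm_num) x0) (le_trans x1 (by norm_num)) (le_trans (by norm_num) T0)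
      (le_trans T1 (by norm_num))
      (le_trans (by norm_num) y0) (le_trans y1 (by norm_num))
      (le_trans (by norm_num) t0) (le_trans t1 (by norm_num))) a0 a1 far)
  · exact finR h z0 ne (by decide) S (P3_lZ' e rfl (chkD4 r_EA_3_1_m4 (by norm_num)
      (le_trans (by norm_num) x0) (le_trans x1 (by norm_num)) (le_trans (by norm_num) T0)
      (le_trans T1 (by norm_num))
      (le_trans (by norm_num) y0) (le_trans y1 (by norm_num))
      (le_trans (by norm_num) t0) (le_trans t1 (by norm_num))) a0 a1 far)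
  · exact finR h z0 ne (by decide) S (P3_lR' e (by decide) (chkD4 r_EA_3_2_m4 (by norm_num)
      (le_trans (by norm_num) x0) (le_trans x1 (by norm_num)) (le_trans (by norm_num) T0)
      (le_trans T1 (by norm_num))
      (le_trans (by norm_num) y0) (le_trans y1 (by norm_num))
      (le_trans (by norm_num) t0) (le_trans t1 (by norm_num))) a0 a1 far)
  · exact finR h z0 ne (by decide) S (P3_lR' e (by decide) (chkD4 r_EA_3_3_m4 (by norm_num)
      (le_trans (by norm_num) x0) (le_trans x1 (by norm_num)) (le_trans (by norm_num) T0)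
      (le_trans T1 (by norm_num))
      (le_trans (by norm_num) y0) (le_trans y1 (by norm_num))
      (le_trans (by norm_num) t0) (le_trans t1 (by norm_num))) a0 a1 far)

theorem cEA_m5 (h : H x T Tl pl k l w) (z0 : 63 / 100 ≤ x) (x0 : 63 / 100 ≤ x) (x1 : x ≤ 13 / 20) (T0 : 87 / 1000 ≤ T) (T1 : T ≤ 229 / 2000)
    (y0 : 1 / 20 ≤ l.re) (y1 : l.re ≤ 3 / 20) (t0 : -(3 / 50) ≤ Tl) (t1 : Tl ≤ -(1 / 25))
    (hl : l.im = Tl * MP_b30479_gt.G2.M13.τl l.re) (hp : pl = 0) (ne : l ≠ ⟨x, hh x⟩)
    (S : SEA x T k) : False := by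
  have a0 := h.s0
  have a1 := h.s1
  have e := lM_eq hl x T
  have far := farK h hl hp (by linarith only [t0]) (by linarith only [t1]) (by linarith only [y0]) (by linarith only [y1])
  rcases S with S | S | S | S
  · exact finR h z0 ne (by decide) S (P3_lR' e (by decide) (chkD4 r_EA_3_0_m5 (by norm_num)
      (le_trans (by norm_num) x0) (le_trans x1 (by norm_num)) (le_trans (by norm_num) T0)
      (le_trans T1 (by norm_num))
      (le_trans (by norm_num) y0) (le_trans y1 (by norm_num))
      (le_trans (by norm_num) t0) (le_trans t1 (by norm_num))) a0 a1 far)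
  · exact finR h z0 ne (by decide) S (P3_lZ' e rfl (chkD4 r_EA_3_1_m5 (by norm_num)
      (le_trans (by norm_num) x0) (le_trans x1 (by norm_num)) (le_trans (by norm_num) T0)
      (le_trans T1 (by norm_num))
      (le_trans (by norm_num) y0) (le_trans y1 (by norm_num))
      (le_trans (by norm_num) t0) (le_trans t1 (by norm_num))) a0 a1 far)
  · exact finR h z0 ne (by decide) S (P3_lR' e (by decide) (chkD4 r_EA_3_2_m5 (by norm_num)
      (le_trans (by norm_num) x0) (le_trans x1 (by norm_num)) (le_trans (by norm_num) T0)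
      (le_trans T1 (by norm_num))
      (le_trans (by norm_num) y0) (le_trans y1 (by norm_num))
      (le_trans (by norm_num) t0) (le_trans t1 (by norm_num))) a0 a1 far)
  · exact finR h z0 ne (by decide) S (P3_lR' e (by decide) (chkD4 r_EA_3_3_m5 (by norm_num)
      (le_trans (by norm_num) x0) (le_trans x1 (by norm_num)) (le_trans (by norm_num) T0)
      (le_trans T1 (by norm_num))
      (le_trans (by norm_num) y0) (le_trans y1 (by norm_num))
      (le_trans (by norm_num) t0) (le_trans t1 (by norm_num))) a0 a1 far)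

theorem cEA_m6 (h : H x T Tl pl k l w) (z0 : 63 / 100 ≤ x) (x0 : 63 / 100 ≤ x) (x1 : x ≤ 13 / 20) (T0 : 87 / 1000 ≤ T) (T1 : T ≤ 229 / 2000)
    (y0 : 0 ≤ l.re) (y1 : l.re ≤ 1 / 50) (t0 : -(9 / 100) ≤ Tl) (t1 : Tl ≤ 1 / 200)
    (hl : l.im = Tl * MP_b30479_gt.G2.M13.τl l.re) (hp : pl = 0) (ne : l ≠ ⟨x, hh x⟩)
    (S : SEA x T k) : False := by
  have a0 := h.s0
  have a1 := h.s1
  have e := lM_eq hl x T
  have far := farM h hl hp
  rcases S with S | S | S | S
  · exact finR h z0 ne (by decide) S (P3_lR' e (by decide) (chkD4 r_EA_3_0_m6 (by norm_num)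
      (le_trans (by norm_num) x0) (le_trans x1 (by norm_num)) (le_trans (by norm_num) T0)
      (le_trans T1 (by norm_num))
      (le_trans (by norm_num) y0) (le_trans y1 (by norm_num))
      (le_trans (by norm_num) t0) (by push_cast; linarith only [T0, a1])) a0 a1 far)
  · exact finR h z0 ne (by decide) S (P3_lZ' e rfl (chkD4 r_EA_3_1_m6 (by norm_num)
      (le_trans (by norm_num) x0) (le_trans x1 (by norm_num)) (le_trans (by norm_num) T0)
      (le_trans T1 (by norm_num))
      (le_trans (by norm_num) y0) (le_trans y1 (by norm_num))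
      (le_trans (by norm_num) t0) (by push_cast; linarith only [T0, a1])) a0 a1 far)
  · exact finR h z0 ne (by decide) S (P3_lR' e (by decide) (chkD4 r_EA_3_2_m6 (by norm_num)
      (le_trans (by norm_num) x0) (le_trans x1 (by norm_num)) (le_trans (by norm_num) T0)
      (le_trans T1 (by norm_num))
      (le_trans (by norm_num) y0) (le_trans y1 (by norm_num))
      (le_trans (by norm_num) t0) (by push_cast; linarith only [T0, a1])) a0 a1 far)
  · exact finR h z0 ne (by decide) S (P3_lR' e (by decide) (chkD4 r_EA_3_3_m6 (by norm_num)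
      (le_trans (by norm_num) x0) (le_trans x1 (by norm_num)) (le_trans (by norm_num) T0)
      (le_trans T1 (by norm_num))
      (le_trans (by norm_num) y0) (le_trans y1 (by norm_num))
      (le_trans (by norm_num) t0) (by push_cast; linarith only [T0, a1])) a0 a1 far)

theorem cEA_m7 (h : H x T Tl pl k l w) (z0 : 63 / 100 ≤ x) (x0 : 63 / 100 ≤ x) (x1 : x ≤ 13 / 20) (T0 : 87 / 1000 ≤ T) (T1 : T ≤ 229 / 2000)
    (y0 : 1 / 50 ≤ l.re) (y1 : l.re ≤ 1 / 20) (t0 : -(1 / 25) ≤ Tl) (t1 : Tl ≤ 1 / 200)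
    (hl : l.im = Tl * MP_b30479_gt.G2.M13.τl l.re) (hp : pl = 0) (ne : l ≠ ⟨x, hh x⟩)
    (S : SEA x T k) : False := by
  have a0 := h.s0
  have a1 := h.s1
  have e := lM_eq hl x T
  have far := farM h hl hp
  rcases S with S | S | S | S
  · exact finR h z0 ne (by decide) S (P3_lR' e (by decide) (chkD4 r_EA_3_0_m7 (by norm_num)
      (le_trans (by norm_num) x0) (le_trans x1 (by norm_num)) (le_trans (by norm_num) T0)
      (le_trans T1 (by norm_num))
      (le_trans (by norm_num) y0) (le_trans y1 (by norm_num))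
      (le_trans (by norm_num) t0) (by push_cast; linarith only [T0, a1])) a0 a1 far)
  · exact finR h z0 ne (by decide) S (P3_lZ' e rfl (chkD4 r_EA_3_1_m7 (by norm_num)
      (le_trans (by norm_num) x0) (le_trans x1 (by norm_num)) (le_trans (by norm_num) T0)
      (le_trans T1 (by norm_num))
      (le_trans (by norm_num) y0) (le_trans y1 (by norm_num))
      (le_trans (by norm_num) t0) (by push_cast; linarith only [T0, a1])) a0 a1 far)
  · exact finR h z0 ne (by decide) S (P3_lR' e (by decide) (chkD4 r_EA_3_2_m7 (by norm_num)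
      (le_trans (by norm_num) x0) (le_trans x1 (by norm_num)) (le_trans (by norm_num) T0)
      (le_trans T1 (by norm_num))
      (le_trans (by norm_num) y0) (le_trans y1 (by norm_num))
      (le_trans (by norm_num) t0) (by push_cast; linarith only [T0, a1])) a0 a1 far)
  · exact finR h z0 ne (by decide) S (P3_lR' e (by decide) (chkD4 r_EA_3_3_m7 (by norm_num)
      (le_trans (by norm_num) x0) (le_trans x1 (by norm_num)) (le_trans (by norm_num) T0)
      (le_trans T1 (by norm_num))
      (le_trans (by norm_num) y0) (le_trans y1 (by norm_num))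
      (le_trans (by norm_num) t0) (by push_cast; linarith only [T0, a1])) a0 a1 far)

theorem cEA_m8 (h : H x T Tl pl k l w) (z0 : 63 / 100 ≤ x) (x0 : 63 / 100 ≤ x) (x1 : x ≤ 13 / 20) (T0 : 87 / 1000 ≤ T) (T1 : T ≤ 229 / 2000)
    (y0 : 1 / 20 ≤ l.re) (y1 : l.re ≤ 3 / 20) (t0 : -(1 / 25) ≤ Tl) (t1 : Tl ≤ 1 / 200)
    (hl : l.im = Tl * MP_b30479_gt.G2.M13.τl l.re) (hp : pl = 0) (ne : l ≠ ⟨x, hh x⟩)
    (S : SEA x T k) : False := by
  have a0 := h.s0
  have a1 := h.s1
  have e := lM_eq hl x T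
  have far := farM h hl hp
  rcases S with S | S | S | S
  · exact finR h z0 ne (by decide) S (P3_lR' e (by decide) (chkD4 r_EA_3_0_m8 (by norm_num)
      (le_trans (by norm_num) x0) (le_trans x1 (by norm_num)) (le_trans (by norm_num) T0)
      (le_trans T1 (by norm_num))
      (le_trans (by norm_num) y0) (le_trans y1 (by norm_num))
      (le_trans (by norm_num) t0) (by push_cast; linarith only [T0, a1])) a0 a1 far)
  · exact finR h z0 ne (by decide) S (P3_lZ' e rfl (chkD4 r_EA_3_1_m8 (by norm_num)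
      (le_trans (by norm_num) x0) (le_trans x1 (by norm_num)) (le_trans (by norm_num) T0)
      (le_trans T1 (by norm_num))
      (le_trans (by norm_num) y0) (le_trans y1 (by norm_num))
      (le_trans (by norm_num) t0) (by push_cast; linarith only [T0, a1])) a0 a1 far)
  · exact finR h z0 ne (by decide) S (P3_lR' e (by decide) (chkD4 r_EA_3_2_m8 (by norm_num)
      (le_trans (by norm_num) x0) (le_trans x1 (by norm_num)) (le_trans (by norm_num) T0)
      (le_trans T1 (by norm_num))
      (le_trans (by norm_num) y0) (le_trans y1 (by norm_num))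
      (le_trans (by norm_num) t0) (by push_cast; linarith only [T0, a1])) a0 a1 far)
  · exact finR h z0 ne (by decide) S (P3_lR' e (by decide) (chkD4 r_EA_3_3_m8 (by norm_num)
      (le_trans (by norm_num) x0) (le_trans x1 (by norm_num)) (le_trans (by norm_num) T0)
      (le_trans T1 (by norm_num))
      (le_trans (by norm_num) y0) (le_trans y1 (by norm_num))
      (le_trans (by norm_num) t0) (by push_cast; linarith only [T0, a1])) a0 a1 far)

theorem cEA_m9 (h : H x T Tl pl k l w) (z0 : 63 / 100 ≤ x) (x0 : 63 / 100 ≤ x) (x1 : x ≤ 13 / 20) (T0 : 87 / 1000 ≤ T) (T1 : T ≤ 229 / 2000)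
    (y0 : 3 / 20 ≤ l.re) (y1 : l.re ≤ 1 / 2) (t0 : -(9 / 100) ≤ Tl) (t1 : Tl ≤ 1 / 200)
    (hl : l.im = Tl * MP_b30479_gt.G2.M13.τl l.re) (hp : pl = 0) (ne : l ≠ ⟨x, hh x⟩)
    (S : SEA x T k) : False := by
  have a0 := h.s0
  have a1 := h.s1
  have e := lM_eq hl x T
  have far := farM h hl hp
  rcases S with S | S | S | S
  · exact finR h z0 ne (by decide) S (P3_lR' e (by decide) (chkD4 r_EA_3_0_m9 (by norm_num)
      (le_trans (by norm_num) x0) (le_trans x1 (by norm_num)) (le_trans (by norm_num) T0)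
      (le_trans T1 (by norm_num))
      (le_trans (by norm_num) y0) (le_trans y1 (by norm_num))
      (le_trans (by norm_num) t0) (by push_cast; linarith only [T0, a1])) a0 a1 far)
  · exact finR h z0 ne (by decide) S (P3_lZ' e rfl (chkD4 r_EA_3_1_m9 (by norm_num)
      (le_trans (by norm_num) x0) (le_trans x1 (by norm_num)) (le_trans (by norm_num) T0)
      (le_trans T1 (by norm_num))
      (le_trans (by norm_num) y0) (le_trans y1 (by norm_num))
      (le_trans (by norm_num) t0) (by push_cast; linarith only [T0, a1])) a0 a1 far)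
  · exact finR h z0 ne (by decide) S (P3_lR' e (by decide) (chkD4 r_EA_3_2_m9 (by norm_num)
      (le_trans (by norm_num) x0) (le_trans x1 (by norm_num)) (le_trans (by norm_num) T0)
      (le_trans T1 (by norm_num))
      (le_trans (by norm_num) y0) (le_trans y1 (by norm_num))
      (le_trans (by norm_num) t0) (by push_cast; linarith only [T0, a1])) a0 a1 far)
  · exact finR h z0 ne (by decide) S (P3_lR' e (by decide) (chkD4 r_EA_3_3_m9 (by norm_num)
      (le_trans (by norm_num) x0) (le_trans x1 (by norm_num)) (le_trans (by norm_num) T0)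
      (le_trans T1 (by norm_num))
      (le_trans (by norm_num) y0) (le_trans y1 (by norm_num))
      (le_trans (by norm_num) t0) (by push_cast; linarith only [T0, a1])) a0 a1 far)

theorem cEC_m0 (h : H x T Tl pl k l w) (z0 : 63 / 100 ≤ x) (x0 : 63 / 100 ≤ x) (x1 : x ≤ 13 / 20) (T0 : 87 / 1000 ≤ T) (T1 : T ≤ 229 / 2000)
    (y0 : 1 / 2 ≤ l.re) (y1 : l.re ≤ 3 / 5) (t0 : -(9 / 100) ≤ Tl) (t1 : Tl ≤ 1 / 200)
    (hl : l.im = Tl * MP_b30479_gt.G2.M13.τl l.re) (hp : pl = 0) (ne : l ≠ ⟨x, hh x⟩)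
    (S : SEC x T k) : False := by
  have a0 := h.s0
  have a1 := h.s1
  have e := lM_eq hl x T
  rcases S with S | S
  · exact finK h z0 ne (by decide) S (P3_lK' e (by decide) (chkD4 r_EC_3_0_m0 (by norm_num)
      (le_trans (by norm_num) x0) (le_trans x1 (by norm_num)) (le_trans (by norm_num) T0)
      (le_trans T1 (by norm_num))
      (le_trans (by norm_num) y0) (le_trans y1 (by norm_num))
      (le_trans (by norm_num) t0) (by push_cast; linarith only [T0, a1])) a0 a1 w)
  · exact finK h z0 ne (by decide) S (P3_lY' e rfl (chkD4 r_EC_3_1_m0 (by norm_num)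
      (le_trans (by norm_num) x0) (le_trans x1 (by norm_num)) (le_trans (by norm_num) T0)
      (le_trans T1 (by norm_num))
      (le_trans (by norm_num) y0) (le_trans y1 (by norm_num))
      (le_trans (by norm_num) t0) (by push_cast; linarith only [T0, a1])) a0 a1 w)

theorem cEC_m1 (h : H x T Tl pl k l w) (z0 : 63 / 100 ≤ x) (x0 : 63 / 100 ≤ x) (x1 : x ≤ 13 / 20) (T0 : 87 / 1000 ≤ T) (T1 : T ≤ 229 / 2000)
    (y0 : 3 / 5 ≤ l.re) (y1 : l.re ≤ 7 / 10) (t0 : -(9 / 100) ≤ Tl) (t1 : Tl ≤ -(1 / 100))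
    (hl : l.im = Tl * MP_b30479_gt.G2.M13.τl l.re) (hp : pl = 0) (ne : l ≠ ⟨x, hh x⟩)
    (S : SEC x T k) : False := by
  have a0 := h.s0
  have a1 := h.s1
  have e := lM_eq hl x T
  rcases S with S | S
  · exact finK h z0 ne (by decide) S (P3_lK' e (by decide) (chkD4 r_EC_3_0_m1 (by norm_num)
      (le_trans (by norm_num) x0) (le_trans x1 (by norm_num)) (le_trans (by norm_num) T0)
      (le_trans T1 (by norm_num))
      (le_trans (by norm_num) y0) (le_trans y1 (by norm_num))
      (le_trans (by norm_num) t0) (le_trans t1 (by norm_num))) a0 a1 w)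
  · exact finK h z0 ne (by decide) S (P3_lY' e rfl (chkD4 r_EC_3_1_m1 (by norm_num)
      (le_trans (by norm_num) x0) (le_trans x1 (by norm_num)) (le_trans (by norm_num) T0)
      (le_trans T1 (by norm_num))
      (le_trans (by norm_num) y0) (le_trans y1 (by norm_num))
      (le_trans (by norm_num) t0) (le_trans t1 (by norm_num))) a0 a1 w)

theorem cEC_m2 (h : H x T Tl pl k l w) (z0 : 63 / 100 ≤ x) (x0 : 63 / 100 ≤ x) (x1 : x ≤ 13 / 20) (T0 : 87 / 1000 ≤ T) (T1 : T ≤ 229 / 2000)
    (y0 : 7 / 10 ≤ l.re) (y1 : l.re ≤ 3 / 4) (t0 : -(9 / 100) ≤ Tl) (t1 : Tl ≤ 1 / 200)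
    (hl : l.im = Tl * MP_b30479_gt.G2.M13.τl l.re) (hp : pl = 0) (ne : l ≠ ⟨x, hh x⟩)
    (S : SEC x T k) : False := by
  have a0 := h.s0
  have a1 := h.s1
  have e := lM_eq hl x T
  rcases S with S | S
  · exact finK h z0 ne (by decide) S (P3_lK' e (by decide) (chkD4 r_EC_3_0_m2 (by norm_num)
      (le_trans (by norm_num) x0) (le_trans x1 (by norm_num)) (le_trans (by norm_num) T0)
      (le_trans T1 (by norm_num))
      (le_trans (by norm_num) y0) (le_trans y1 (by norm_num))
      (le_trans (by norm_num) t0) (by push_cast; linarith only [T0, a1])) a0 a1 w)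
  · exact finK h z0 ne (by decide) S (P3_lY' e rfl (chkD4 r_EC_3_1_m2 (by norm_num)
      (le_trans (by norm_num) x0) (le_trans x1 (by norm_num)) (le_trans (by norm_num) T0)
      (le_trans T1 (by norm_num))
      (le_trans (by norm_num) y0) (le_trans y1 (by norm_num))
      (le_trans (by norm_num) t0) (by push_cast; linarith only [T0, a1])) a0 a1 w)

theorem cEC_m3 (h : H x T Tl pl k l w) (z0 : 63 / 100 ≤ x) (x0 : 63 / 100 ≤ x) (x1 : x ≤ 13 / 20) (T0 : 87 / 1000 ≤ T) (T1 : T ≤ 229 / 2000)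
    (y0 : 3 / 4 ≤ l.re) (y1 : l.re ≤ 4 / 5) (t0 : -(9 / 100) ≤ Tl) (t1 : Tl ≤ 1 / 200)
    (hl : l.im = Tl * MP_b30479_gt.G2.M13.τl l.re) (hp : pl = 0) (ne : l ≠ ⟨x, hh x⟩)
    (S : SEC x T k) : False := by
  have a0 := h.s0
  have a1 := h.s1
  have e := lM_eq hl x T
  rcases S with S | S
  · exact finK h z0 ne (by decide) S (P3_lK' e (by decide) (chkD4 r_EC_3_0_m3 (by norm_num)
      (le_trans (by norm_num) x0) (le_trans x1 (by norm_num)) (le_trans (by norm_num) T0)
      (le_trans T1 (by norm_num))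
      (le_trans (by norm_num) y0) (le_trans y1 (by norm_num))
      (le_trans (by norm_num) t0) (by push_cast; linarith only [T0, a1])) a0 a1 w)
  · exact finK h z0 ne (by decide) S (P3_lY' e rfl (chkD4 r_EC_3_1_m3 (by norm_num)
      (le_trans (by norm_num) x0) (le_trans x1 (by norm_num)) (le_trans (by norm_num) T0)
      (le_trans T1 (by norm_num))
      (le_trans (by norm_num) y0) (le_trans y1 (by norm_num))
      (le_trans (by norm_num) t0) (by push_cast; linarith only [T0, a1])) a0 a1 w)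

theorem cEN_m0 (h : H x T Tl pl k l w) (z0 : 63 / 100 ≤ x) (x0 : 63 / 100 ≤ x) (x1 : x ≤ 13 / 20) (T0 : 87 / 1000 ≤ T) (T1 : T ≤ 47 / 500)
    (y0 : 3 / 5 ≤ l.re) (y1 : l.re ≤ 7 / 10) (t0 : -(1 / 100) ≤ Tl) (t1 : Tl ≤ -(3 / 1000))
    (hl : l.im = Tl * MP_b30479_gt.G2.M13.τl l.re) (hp : pl = 0)
    (S : SEN x T k) : False := by
  have a0 := h.s0
  have a1 := h.s1
  have e := lM_eq hl x T
  exact finY h z0 (by decide) rfl S.1 (P3_lY' e rfl (chkD4 r_EN_3_0_m0 (by norm_num)
      (le_trans (by norm_num) x0) (le_trans x1 (by norm_num)) (le_trans (by norm_num) T0)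
      (le_trans T1 (by norm_num))
      (le_trans (by norm_num) y0) (le_trans y1 (by norm_num))
      (le_trans (by norm_num) t0) (le_trans t1 (by norm_num))) a0 a1 w)

theorem cEU_u0 (h : H x T Tl pl k l w) (z0 : 63 / 100 ≤ x) (x0 : 63 / 100 ≤ x) (x1 : x ≤ 13 / 20) (T0 : 87 / 1000 ≤ T) (T1 : T ≤ 229 / 2000)
    (y0 : 0 ≤ l.re) (y1 : l.re ≤ 1 / 100) (t0 : -(9 / 100) ≤ Tl) (t1 : Tl ≤ 0)
    (hl : l.im = 16 / 100 * MP_b30479_gt.G2.M13.τl l.re)
    (hp : pl = 16 / 100 * MP_b30479_gt.G2.M13.τl l.re)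
    (S : SEU x T k) : False := by
  have a0 := h.s0
  have a1 := h.s1
  have ne := ne_up h z0 hl
  have e := lU_eq hl x T Tl
  have far := farU h t1 hl hp
  rcases S with S | S
  · exact finR h z0 ne (by decide) S (P3_lR' e (by decide) (chkD4 r_EU_3_0_u0 (by norm_num)
      (le_trans (by norm_num) x0) (le_trans x1 (by norm_num)) (le_trans (by norm_num) T0)
      (le_trans T1 (by norm_num))
      (le_trans (by norm_num) y0) (le_trans y1 (by norm_num))
      (le_trans (by norm_num) t0) (by push_cast; linarith only [T0, a1])) a0 a1 far)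
  · exact finR h z0 ne (by decide) S (P3_lZ' e rfl (chkD4 r_EU_3_1_u0 (by norm_num)
      (le_trans (by norm_num) x0) (le_trans x1 (by norm_num)) (le_trans (by norm_num) T0)
      (le_trans T1 (by norm_num))
      (le_trans (by norm_num) y0) (le_trans y1 (by norm_num))
      (le_trans (by norm_num) t0) (by push_cast; linarith only [T0, a1])) a0 a1 far)

theorem cEU_u1 (h : H x T Tl pl k l w) (z0 : 63 / 100 ≤ x) (x0 : 63 / 100 ≤ x) (x1 : x ≤ 13 / 20) (T0 : 87 / 1000 ≤ T) (T1 : T ≤ 229 / 2000)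
    (y0 : 1 / 100 ≤ l.re) (y1 : l.re ≤ 3 / 100) (t0 : -(9 / 100) ≤ Tl) (t1 : Tl ≤ 0)
    (hl : l.im = 16 / 100 * MP_b30479_gt.G2.M13.τl l.re)
    (hp : pl = 16 / 100 * MP_b30479_gt.G2.M13.τl l.re)
    (S : SEU x T k) : False := by
  have a0 := h.s0
  have a1 := h.s1
  have ne := ne_up h z0 hl
  have e := lU_eq hl x T Tl
  have far := farU h t1 hl hp
  rcases S with S | S
  · exact finR h z0 ne (by decide) S (P3_lR' e (by decide) (chkD4 r_EU_3_0_u1 (by norm_num)
      (le_trans (by norm_num) x0) (le_trans x1 (by norm_num)) (le_trans (by norm_num) T0)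
      (le_trans T1 (by norm_num))
      (le_trans (by norm_num) y0) (le_trans y1 (by norm_num))
      (le_trans (by norm_num) t0) (by push_cast; linarith only [T0, a1])) a0 a1 far)
  · exact finR h z0 ne (by decide) S (P3_lZ' e rfl (chkD4 r_EU_3_1_u1 (by norm_num)
      (le_trans (by norm_num) x0) (le_trans x1 (by norm_num)) (le_trans (by norm_num) T0)
      (le_trans T1 (by norm_num))
      (le_trans (by norm_num) y0) (le_trans y1 (by norm_num))
      (le_trans (by norm_num) t0) (by push_cast; linarith only [T0, a1])) a0 a1 far)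

theorem cEU_u2 (h : H x T Tl pl k l w) (z0 : 63 / 100 ≤ x) (x0 : 63 / 100 ≤ x) (x1 : x ≤ 13 / 20) (T0 : 87 / 1000 ≤ T) (T1 : T ≤ 229 / 2000)
    (y0 : 3 / 100 ≤ l.re) (y1 : l.re ≤ 1 / 10) (t0 : -(9 / 100) ≤ Tl) (t1 : Tl ≤ 0)
    (hl : l.im = 16 / 100 * MP_b30479_gt.G2.M13.τl l.re)
    (hp : pl = 16 / 100 * MP_b30479_gt.G2.M13.τl l.re)
    (S : SEU x T k) : False := by
  have a0 := h.s0
  have a1 := h.s1
  have ne := ne_up h z0 hl
  have e := lU_eq hl x T Tl
  have far := farU h t1 hl hp
  rcases S with S | S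
  · exact finR h z0 ne (by decide) S (P3_lR' e (by decide) (chkD4 r_EU_3_0_u2 (by norm_num)
      (le_trans (by norm_num) x0) (le_trans x1 (by norm_num)) (le_trans (by norm_num) T0)
      (le_trans T1 (by norm_num))
      (le_trans (by norm_num) y0) (le_trans y1 (by norm_num))
      (le_trans (by norm_num) t0) (by push_cast; linarith only [T0, a1])) a0 a1 far)
  · exact finR h z0 ne (by decide) S (P3_lZ' e rfl (chkD4 r_EU_3_1_u2 (by norm_num)
      (le_trans (by norm_num) x0) (le_trans x1 (by norm_num)) (le_trans (by norm_num) T0)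
      (le_trans T1 (by norm_num))
      (le_trans (by norm_num) y0) (le_trans y1 (by norm_num))
      (le_trans (by norm_num) t0) (by push_cast; linarith only [T0, a1])) a0 a1 far)

theorem cEU_u3 (h : H x T Tl pl k l w) (z0 : 63 / 100 ≤ x) (x0 : 63 / 100 ≤ x) (x1 : x ≤ 13 / 20) (T0 : 87 / 1000 ≤ T) (T1 : T ≤ 229 / 2000)
    (y0 : 1 / 10 ≤ l.re) (y1 : l.re ≤ 1 / 2) (t0 : -(9 / 100) ≤ Tl) (t1 : Tl ≤ 0)
    (hl : l.im = 16 / 100 * MP_b30479_gt.G2.M13.τl l.re)
    (hp : pl = 16 / 100 * MP_b30479_gt.G2.M13.τl l.re)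
    (S : SEU x T k) : False := by
  have a0 := h.s0
  have a1 := h.s1
  have ne := ne_up h z0 hl
  have e := lU_eq hl x T Tl
  have far := farU h t1 hl hp
  rcases S with S | S
  · exact finR h z0 ne (by decide) S (P3_lR' e (by decide) (chkD4 r_EU_3_0_u3 (by norm_num)
      (le_trans (by norm_num) x0) (le_trans x1 (by norm_num)) (le_trans (by norm_num) T0)
      (le_trans T1 (by norm_num))
      (le_trans (by norm_num) y0) (le_trans y1 (by norm_num))
      (le_trans (by norm_num) t0) (by push_cast; linarith only [T0, a1])) a0 a1 far)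
  · exact finR h z0 ne (by decide) S (P3_lZ' e rfl (chkD4 r_EU_3_1_u3 (by norm_num)
      (le_trans (by norm_num) x0) (le_trans x1 (by norm_num)) (le_trans (by norm_num) T0)
      (le_trans T1 (by norm_num))
      (le_trans (by norm_num) y0) (le_trans y1 (by norm_num))
      (le_trans (by norm_num) t0) (by push_cast; linarith only [T0, a1])) a0 a1 far)

theorem cEU_u4 (h : H x T Tl pl k l w) (z0 : 63 / 100 ≤ x) (x0 : 63 / 100 ≤ x) (x1 : x ≤ 13 / 20) (T0 : 87 / 1000 ≤ T) (T1 : T ≤ 229 / 2000)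
    (y0 : 1 / 2 ≤ l.re) (y1 : l.re ≤ 3 / 4) (t0 : -(9 / 100) ≤ Tl) (t1 : Tl ≤ 0)
    (hl : l.im = 16 / 100 * MP_b30479_gt.G2.M13.τl l.re)
    (hp : pl = 16 / 100 * MP_b30479_gt.G2.M13.τl l.re)
    (S : SEU x T k) : False := by
  have a0 := h.s0
  have a1 := h.s1
  have ne := ne_up h z0 hl
  have e := lU_eq hl x T Tl
  have far := farU h t1 hl hp
  rcases S with S | S
  · exact finR h z0 ne (by decide) S (P3_lR' e (by decide) (chkD4 r_EU_3_0_u4 (by norm_num)
      (le_trans (by norm_num) x0) (le_trans x1 (by norm_num)) (le_trans (by norm_num) T0)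
      (le_trans T1 (by norm_num))
      (le_trans (by norm_num) y0) (le_trans y1 (by norm_num))
      (le_trans (by norm_num) t0) (by push_cast; linarith only [T0, a1])) a0 a1 far)
  · exact finR h z0 ne (by decide) S (P3_lZ' e rfl (chkD4 r_EU_3_1_u4 (by norm_num)
      (le_trans (by norm_num) x0) (le_trans x1 (by norm_num)) (le_trans (by norm_num) T0)
      (le_trans T1 (by norm_num))
      (le_trans (by norm_num) y0) (le_trans y1 (by norm_num))
      (le_trans (by norm_num) t0) (by push_cast; linarith only [T0, a1])) a0 a1 far)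

theorem cEU_u5 (h : H x T Tl pl k l w) (z0 : 63 / 100 ≤ x) (x0 : 63 / 100 ≤ x) (x1 : x ≤ 13 / 20) (T0 : 87 / 1000 ≤ T) (T1 : T ≤ 229 / 2000)
    (y0 : 3 / 4 ≤ l.re) (y1 : l.re ≤ 77 / 100) (t0 : -(9 / 100) ≤ Tl) (t1 : Tl ≤ 0)
    (hl : l.im = 16 / 100 * MP_b30479_gt.G2.M13.τl l.re)
    (hp : pl = 16 / 100 * MP_b30479_gt.G2.M13.τl l.re)
    (S : SEU x T k) : False := by
  have a0 := h.s0
  have a1 := h.s1
  have ne := ne_up h z0 hl
  have e := lU_eq hl x T Tl
  have far := farU h t1 hl hp
  rcases S with S | S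
  · exact finR h z0 ne (by decide) S (P3_lR' e (by decide) (chkD4 r_EU_3_0_u5 (by norm_num)
      (le_trans (by norm_num) x0) (le_trans x1 (by norm_num)) (le_trans (by norm_num) T0)
      (le_trans T1 (by norm_num))
      (le_trans (by norm_num) y0) (le_trans y1 (by norm_num))
      (le_trans (by norm_num) t0) (by push_cast; linarith only [T0, a1])) a0 a1 far)
  · exact finR h z0 ne (by decide) S (P3_lZ' e rfl (chkD4 r_EU_3_1_u5 (by norm_num)
      (le_trans (by norm_num) x0) (le_trans x1 (by norm_num)) (le_trans (by norm_num) T0)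
      (le_trans T1 (by norm_num))
      (le_trans (by norm_num) y0) (le_trans y1 (by norm_num))
      (le_trans (by norm_num) t0) (by push_cast; linarith only [T0, a1])) a0 a1 far)

theorem cEU_u6 (h : H x T Tl pl k l w) (z0 : 63 / 100 ≤ x) (x0 : 63 / 100 ≤ x) (x1 : x ≤ 13 / 20) (T0 : 87 / 1000 ≤ T) (T1 : T ≤ 229 / 2000)
    (y0 : 77 / 100 ≤ l.re) (y1 : l.re ≤ 79 / 100) (t0 : -(9 / 100) ≤ Tl) (t1 : Tl ≤ 0)
    (hl : l.im = 16 / 100 * MP_b30479_gt.G2.M13.τl l.re)
    (hp : pl = 16 / 100 * MP_b30479_gt.G2.M13.τl l.re)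
    (S : SEU x T k) : False := by
  have a0 := h.s0
  have a1 := h.s1
  have ne := ne_up h z0 hl
  have e := lU_eq hl x T Tl
  have far := farU h t1 hl hp
  rcases S with S | S
  · exact finR h z0 ne (by decide) S (P3_lR' e (by decide) (chkD4 r_EU_3_0_u6 (by norm_num)
      (le_trans (by norm_num) x0) (le_trans x1 (by norm_num)) (le_trans (by norm_num) T0)
      (le_trans T1 (by norm_num))
      (le_trans (by norm_num) y0) (le_trans y1 (by norm_num))
      (le_trans (by norm_num) t0) (by push_cast; linarith only [T0, a1])) a0 a1 far)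
  · exact finR h z0 ne (by decide) S (P3_lZ' e rfl (chkD4 r_EU_3_1_u6 (by norm_num)
      (le_trans (by norm_num) x0) (le_trans x1 (by norm_num)) (le_trans (by norm_num) T0)
      (le_trans T1 (by norm_num))
      (le_trans (by norm_num) y0) (le_trans y1 (by norm_num))
      (le_trans (by norm_num) t0) (by push_cast; linarith only [T0, a1])) a0 a1 far)

theorem cEU_u7 (h : H x T Tl pl k l w) (z0 : 63 / 100 ≤ x) (x0 : 63 / 100 ≤ x) (x1 : x ≤ 13 / 20) (T0 : 87 / 1000 ≤ T) (T1 : T ≤ 229 / 2000)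
    (y0 : 79 / 100 ≤ l.re) (y1 : l.re ≤ 4 / 5) (t0 : -(9 / 100) ≤ Tl) (t1 : Tl ≤ 0)
    (hl : l.im = 16 / 100 * MP_b30479_gt.G2.M13.τl l.re)
    (hp : pl = 16 / 100 * MP_b30479_gt.G2.M13.τl l.re)
    (S : SEU x T k) : False := by
  have a0 := h.s0
  have a1 := h.s1
  have ne := ne_up h z0 hl
  have e := lU_eq hl x T Tl
  have far := farU h t1 hl hp
  rcases S with S | S
  · exact finR h z0 ne (by decide) S (P3_lR' e (by decide) (chkD4 r_EU_3_0_u7 (by norm_num)
      (le_trans (by norm_num) x0) (le_trans x1 (by norm_num)) (le_trans (by norm_num) T0)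
      (le_trans T1 (by norm_num))
      (le_trans (by norm_num) y0) (le_trans y1 (by norm_num))
      (le_trans (by norm_num) t0) (by push_cast; linarith only [T0, a1])) a0 a1 far)
  · exact finR h z0 ne (by decide) S (P3_lZ' e rfl (chkD4 r_EU_3_1_u7 (by norm_num)
      (le_trans (by norm_num) x0) (le_trans x1 (by norm_num)) (le_trans (by norm_num) T0)
      (le_trans T1 (by norm_num))
      (le_trans (by norm_num) y0) (le_trans y1 (by norm_num))
      (le_trans (by norm_num) t0) (by push_cast; linarith only [T0, a1])) a0 a1 far)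

end R13

end Pool.Agent.Work.NumG
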