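import Pool.Agent.Work.MP_b30479_gt.G2.WM13RT

/-!
# Kind `1 | 3`, slot `0`: the right end

`M13.endR`: a mirrored position at `x ≥ 63/100` is impossible.
-/

namespace Pool.Agent.Work.NumG

namespace R13

open MP_b30479_gt.G2.M13 (H KP LP)

variable {x T Tl pl : ℝ} {k l w : ℂ}

theorem gA1 (h : H x T Tl pl k l w) (z0 : 63 / 100 ≤ x) (x0 : 63 / 100 ≤ x) (x1 : x ≤ 65 / 100)
    (T0 : 21 / 1000 ≤ T) (T1 : T ≤ 45 / 1000) (S : SA1 x T k) (y0 : 2 / 100 ≤ l.re)
    (y1 : l.re ≤ 15 / 100) (t1 : Tl ≤ -(40 / 1000))
    (hl : l.im = Tl * MP_b30479_gt.G2.M13.τl l.re) (hp : pl = 0) : False := by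
  have t0 := h.t0
  have ne : l ≠ ⟨x, hh x⟩ := ne_re (by linarith only [z0, y1] : l.re < x).ne
  rcases le_total l.re (5 / 100) with u1 | u1
  · rcases le_total Tl (-(75 / 1000)) with u2 | u2
    · exact cA1_m0 h z0 (by linarith only [z0]) (by linarith only [x1]) (by linarith only [T0]) (by linarith only [T1]) (by linarith only [y0]) (by linarith only [u1]) (by linarith only [t0]) (by linarith only [u2]) hl hp ne S
    · rcases le_total Tl (-(60 / 1000)) with u3 | u3
      · exact cA1_m1 h z0 (by linarith only [z0]) (by linarith only [x1]) (by linarith only [T0]) (by linarith only [T1]) (by linarith only [y0]) (by linarith only [u1]) (by linarith only [u2]) (by linarith only [u3]) hl hp ne S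
      · exact cA1_m2 h z0 (by linarith only [z0]) (by linarith only [x1]) (by linarith only [T0]) (by linarith only [T1]) (by linarith only [y0]) (by linarith only [u1]) (by linarith only [u3]) (by linarith only [t1]) hl hp ne S
  · rcases le_total Tl (-(75 / 1000)) with u2 | u2
    · exact cA1_m3 h z0 (by linarith only [z0]) (by linarith only [x1]) (by linarith only [T0]) (by linarith only [T1]) (by linarith only [u1]) (by linarith only [y1]) (by linarith only [t0]) (by linarith only [u2]) hl hp ne S
    · rcases le_total Tl (-(60 / 1000)) with u3 | u3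
      · exact cA1_m4 h z0 (by linarith only [z0]) (by linarith only [x1]) (by linarith only [T0]) (by linarith only [T1]) (by linarith only [u1]) (by linarith only [y1]) (by linarith only [u2]) (by linarith only [u3]) hl hp ne S
      · exact cA1_m5 h z0 (by linarith only [z0]) (by linarith only [x1]) (by linarith only [T0]) (by linarith only [T1]) (by linarith only [u1]) (by linarith only [y1]) (by linarith only [u3]) (by linarith only [t1]) hl hp ne S

theorem gA2 (h : H x T Tl pl k l w) (z0 : 63 / 100 ≤ x) (x0 : 63 / 100 ≤ x) (x1 : x ≤ 65 / 100)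
    (T0 : 45 / 1000 ≤ T) (T1 : T ≤ 60 / 1000) (S : SA2 x T k) (y0 : 2 / 100 ≤ l.re)
    (y1 : l.re ≤ 15 / 100) (t1 : Tl ≤ -(40 / 1000))
    (hl : l.im = Tl * MP_b30479_gt.G2.M13.τl l.re) (hp : pl = 0) : False := by
  have t0 := h.t0
  have ne : l ≠ ⟨x, hh x⟩ := ne_re (by linarith only [z0, y1] : l.re < x).ne
  rcases le_total l.re (5 / 100) with u1 | u1
  · rcases le_total Tl (-(75 / 1000)) with u2 | u2
    · exact cA2_m0 h z0 (by linarith only [z0]) (by linarith only [x1]) (by linarith only [T0]) (by linarith only [T1]) (by linarith only [y0]) (by linarith only [u1]) (by linarith only [t0]) (by linarith only [u2]) hl hp ne S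
    · rcases le_total Tl (-(60 / 1000)) with u3 | u3
      · exact cA2_m1 h z0 (by linarith only [z0]) (by linarith only [x1]) (by linarith only [T0]) (by linarith only [T1]) (by linarith only [y0]) (by linarith only [u1]) (by linarith only [u2]) (by linarith only [u3]) hl hp ne S
      · exact cA2_m2 h z0 (by linarith only [z0]) (by linarith only [x1]) (by linarith only [T0]) (by linarith only [T1]) (by linarith only [y0]) (by linarith only [u1]) (by linarith only [u3]) (by linarith only [t1]) hl hp ne S
  · rcases le_total Tl (-(75 / 1000)) with u2 | u2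
    · exact cA2_m3 h z0 (by linarith only [z0]) (by linarith only [x1]) (by linarith only [T0]) (by linarith only [T1]) (by linarith only [u1]) (by linarith only [y1]) (by linarith only [t0]) (by linarith only [u2]) hl hp ne S
    · rcases le_total Tl (-(60 / 1000)) with u3 | u3
      · exact cA2_m4 h z0 (by linarith only [z0]) (by linarith only [x1]) (by linarith only [T0]) (by linarith only [T1]) (by linarith only [u1]) (by linarith only [y1]) (by linarith only [u2]) (by linarith only [u3]) hl hp ne S
      · exact cA2_m5 h z0 (by linarith only [z0]) (by linarith only [x1]) (by linarith only [T0]) (by linarith only [T1]) (by linarith only [u1]) (by linarith only [y1]) (by linarith only [u3]) (by linarith only [t1]) hl hp ne S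

theorem gA3 (h : H x T Tl pl k l w) (z0 : 63 / 100 ≤ x) (x0 : 63 / 100 ≤ x) (x1 : x ≤ 64 / 100)
    (T0 : 60 / 1000 ≤ T) (T1 : T ≤ 80 / 1000) (S : SA3 x T k) (y0 : 2 / 100 ≤ l.re)
    (y1 : l.re ≤ 15 / 100) (t1 : Tl ≤ -(40 / 1000))
    (hl : l.im = Tl * MP_b30479_gt.G2.M13.τl l.re) (hp : pl = 0) : False := by
  have t0 := h.t0
  have ne : l ≠ ⟨x, hh x⟩ := ne_re (by linarith only [z0, y1] : l.re < x).ne
  rcases le_total l.re (5 / 100) with u1 | u1
  · rcases le_total Tl (-(75 / 1000)) with u2 | u2
    · exact cA3_m0 h z0 (by linarith only [z0]) (by linarith only [x1]) (by linarith only [T0]) (by linarith only [T1]) (by linarith only [y0]) (by linarith only [u1]) (by linarith only [t0]) (by linarith only [u2]) hl hp ne S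
    · rcases le_total Tl (-(60 / 1000)) with u3 | u3
      · exact cA3_m1 h z0 (by linarith only [z0]) (by linarith only [x1]) (by linarith only [T0]) (by linarith only [T1]) (by linarith only [y0]) (by linarith only [u1]) (by linarith only [u2]) (by linarith only [u3]) hl hp ne S
      · exact cA3_m2 h z0 (by linarith only [z0]) (by linarith only [x1]) (by linarith only [T0]) (by linarith only [T1]) (by linarith only [y0]) (by linarith only [u1]) (by linarith only [u3]) (by linarith only [t1]) hl hp ne S
  · rcases le_total Tl (-(75 / 1000)) with u2 | u2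
    · exact cA3_m3 h z0 (by linarith only [z0]) (by linarith only [x1]) (by linarith only [T0]) (by linarith only [T1]) (by linarith only [u1]) (by linarith only [y1]) (by linarith only [t0]) (by linarith only [u2]) hl hp ne S
    · rcases le_total Tl (-(60 / 1000)) with u3 | u3
      · exact cA3_m4 h z0 (by linarith only [z0]) (by linarith only [x1]) (by linarith only [T0]) (by linarith only [T1]) (by linarith only [u1]) (by linarith only [y1]) (by linarith only [u2]) (by linarith only [u3]) hl hp ne S
      · exact cA3_m5 h z0 (by linarith only [z0]) (by linarith only [x1]) (by linarith only [T0]) (by linarith only [T1]) (by linarith only [u1]) (by linarith only [y1]) (by linarith only [u3]) (by linarith only [t1]) hl hp ne S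

theorem gA4 (h : H x T Tl pl k l w) (z0 : 63 / 100 ≤ x) (x0 : 64 / 100 ≤ x) (x1 : x ≤ 65 / 100)
    (T0 : 60 / 1000 ≤ T) (T1 : T ≤ 80 / 1000) (S : SA4 x T k) (y0 : 2 / 100 ≤ l.re)
    (y1 : l.re ≤ 15 / 100) (t1 : Tl ≤ -(40 / 1000))
    (hl : l.im = Tl * MP_b30479_gt.G2.M13.τl l.re) (hp : pl = 0) : False := by
  have t0 := h.t0
  have ne : l ≠ ⟨x, hh x⟩ := ne_re (by linarith only [x0, y1] : l.re < x).ne
  rcases le_total l.re (5 / 100) with u1 | u1
  · rcases le_total Tl (-(75 / 1000)) with u2 | u2
    · exact cA4_m0 h z0 (by linarith only [x0]) (by linarith only [x1]) (by linarith only [T0]) (by linarith only [T1]) (by linarith only [y0]) (by linarith only [u1]) (by linarith only [t0]) (by linarith only [u2]) hl hp ne S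
    · rcases le_total Tl (-(60 / 1000)) with u3 | u3
      · exact cA4_m1 h z0 (by linarith only [x0]) (by linarith only [x1]) (by linarith only [T0]) (by linarith only [T1]) (by linarith only [y0]) (by linarith only [u1]) (by linarith only [u2]) (by linarith only [u3]) hl hp ne S
      · exact cA4_m2 h z0 (by linarith only [x0]) (by linarith only [x1]) (by linarith only [T0]) (by linarith only [T1]) (by linarith only [y0]) (by linarith only [u1]) (by linarith only [u3]) (by linarith only [t1]) hl hp ne S
  · rcases le_total Tl (-(75 / 1000)) with u2 | u2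
    · exact cA4_m3 h z0 (by linarith only [x0]) (by linarith only [x1]) (by linarith only [T0]) (by linarith only [T1]) (by linarith only [u1]) (by linarith only [y1]) (by linarith only [t0]) (by linarith only [u2]) hl hp ne S
    · rcases le_total Tl (-(60 / 1000)) with u3 | u3
      · exact cA4_m4 h z0 (by linarith only [x0]) (by linarith only [x1]) (by linarith only [T0]) (by linarith only [T1]) (by linarith only [u1]) (by linarith only [y1]) (by linarith only [u2]) (by linarith only [u3]) hl hp ne S
      · exact cA4_m5 h z0 (by linarith only [x0]) (by linarith only [x1]) (by linarith only [T0]) (by linarith only [T1]) (by linarith only [u1]) (by linarith only [y1]) (by linarith only [u3]) (by linarith only [t1]) hl hp ne S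

theorem gA5 (h : H x T Tl pl k l w) (z0 : 63 / 100 ≤ x) (x0 : 63 / 100 ≤ x) (x1 : x ≤ 64 / 100)
    (T0 : 80 / 1000 ≤ T) (T1 : T ≤ 94 / 1000) (S : SA5 x T k) (y0 : 2 / 100 ≤ l.re)
    (y1 : l.re ≤ 15 / 100) (t1 : Tl ≤ -(40 / 1000))
    (hl : l.im = Tl * MP_b30479_gt.G2.M13.τl l.re) (hp : pl = 0) : False := by
  have t0 := h.t0
  have ne : l ≠ ⟨x, hh x⟩ := ne_re (by linarith only [z0, y1] : l.re < x).ne
  rcases le_total l.re (5 / 100) with u1 | u1
  · rcases le_total Tl (-(75 / 1000)) with u2 | u2
    · exact cA5_m0 h z0 (by linarith only [z0]) (by linarith only [x1]) (by linarith only [T0]) (by linarith only [T1]) (by linarith only [y0]) (by linarith only [u1]) (by linarith only [t0]) (by linarith only [u2]) hl hp ne S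
    · rcases le_total Tl (-(60 / 1000)) with u3 | u3
      · exact cA5_m1 h z0 (by linarith only [z0]) (by linarith only [x1]) (by linarith only [T0]) (by linarith only [T1]) (by linarith only [y0]) (by linarith only [u1]) (by linarith only [u2]) (by linarith only [u3]) hl hp ne S
      · exact cA5_m2 h z0 (by linarith only [z0]) (by linarith only [x1]) (by linarith only [T0]) (by linarith only [T1]) (by linarith only [y0]) (by linarith only [u1]) (by linarith only [u3]) (by linarith only [t1]) hl hp ne S
  · rcases le_total Tl (-(75 / 1000)) with u2 | u2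
    · exact cA5_m3 h z0 (by linarith only [z0]) (by linarith only [x1]) (by linarith only [T0]) (by linarith only [T1]) (by linarith only [u1]) (by linarith only [y1]) (by linarith only [t0]) (by linarith only [u2]) hl hp ne S
    · rcases le_total Tl (-(60 / 1000)) with u3 | u3
      · exact cA5_m4 h z0 (by linarith only [z0]) (by linarith only [x1]) (by linarith only [T0]) (by linarith only [T1]) (by linarith only [u1]) (by linarith only [y1]) (by linarith only [u2]) (by linarith only [u3]) hl hp ne S
      · exact cA5_m5 h z0 (by linarith only [z0]) (by linarith only [x1]) (by linarith only [T0]) (by linarith only [T1]) (by linarith only [u1]) (by linarith only [y1]) (by linarith only [u3]) (by linarith only [t1]) hl hp ne S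

theorem gA6 (h : H x T Tl pl k l w) (z0 : 63 / 100 ≤ x) (x0 : 64 / 100 ≤ x) (x1 : x ≤ 65 / 100)
    (T0 : 80 / 1000 ≤ T) (T1 : T ≤ 92 / 1000) (S : SA6 x T k) (y0 : 2 / 100 ≤ l.re)
    (y1 : l.re ≤ 15 / 100) (t1 : Tl ≤ -(40 / 1000))
    (hl : l.im = Tl * MP_b30479_gt.G2.M13.τl l.re) (hp : pl = 0) : False := by
  have t0 := h.t0
  have ne : l ≠ ⟨x, hh x⟩ := ne_re (by linarith only [x0, y1] : l.re < x).ne
  rcases le_total l.re (5 / 100) with u1 | u1
  · rcases le_total Tl (-(75 / 1000)) with u2 | u2
    · exact cA6_m0 h z0 (by linarith only [x0]) (by linarith only [x1]) (by linarith only [T0]) (by linarith only [T1]) (by linarith only [y0]) (by linarith only [u1]) (by linarith only [t0]) (by linarith only [u2]) hl hp ne S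
    · rcases le_total Tl (-(60 / 1000)) with u3 | u3
      · exact cA6_m1 h z0 (by linarith only [x0]) (by linarith only [x1]) (by linarith only [T0]) (by linarith only [T1]) (by linarith only [y0]) (by linarith only [u1]) (by linarith only [u2]) (by linarith only [u3]) hl hp ne S
      · exact cA6_m2 h z0 (by linarith only [x0]) (by linarith only [x1]) (by linarith only [T0]) (by linarith only [T1]) (by linarith only [y0]) (by linarith only [u1]) (by linarith only [u3]) (by linarith only [t1]) hl hp ne S
  · rcases le_total Tl (-(75 / 1000)) with u2 | u2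
    · exact cA6_m3 h z0 (by linarith only [x0]) (by linarith only [x1]) (by linarith only [T0]) (by linarith only [T1]) (by linarith only [u1]) (by linarith only [y1]) (by linarith only [t0]) (by linarith only [u2]) hl hp ne S
    · rcases le_total Tl (-(60 / 1000)) with u3 | u3
      · exact cA6_m4 h z0 (by linarith only [x0]) (by linarith only [x1]) (by linarith only [T0]) (by linarith only [T1]) (by linarith only [u1]) (by linarith only [y1]) (by linarith only [u2]) (by linarith only [u3]) hl hp ne S
      · exact cA6_m5 h z0 (by linarith only [x0]) (by linarith only [x1]) (by linarith only [T0]) (by linarith only [T1]) (by linarith only [u1]) (by linarith only [y1]) (by linarith only [u3]) (by linarith only [t1]) hl hp ne S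

theorem gA7 (h : H x T Tl pl k l w) (z0 : 63 / 100 ≤ x) (x0 : 64 / 100 ≤ x) (x1 : x ≤ 65 / 100)
    (T0 : 92 / 1000 ≤ T) (T1 : T ≤ 94 / 1000) (S : SA7 x T k) (y0 : 2 / 100 ≤ l.re)
    (y1 : l.re ≤ 15 / 100) (t1 : Tl ≤ -(40 / 1000))
    (hl : l.im = Tl * MP_b30479_gt.G2.M13.τl l.re) (hp : pl = 0) : False := by
  have t0 := h.t0
  have ne : l ≠ ⟨x, hh x⟩ := ne_re (by linarith only [x0, y1] : l.re < x).ne
  rcases le_total l.re (5 / 100) with u1 | u1
  · rcases le_total Tl (-(75 / 1000)) with u2 | u2
    · exact cA7_m0 h z0 (by linarith only [x0]) (by linarith only [x1]) (by linarith only [T0]) (by linarith only [T1]) (by linarith only [y0]) (by linarith only [u1]) (by linarith only [t0]) (by linarith only [u2]) hl hp ne S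
    · rcases le_total Tl (-(60 / 1000)) with u3 | u3
      · exact cA7_m1 h z0 (by linarith only [x0]) (by linarith only [x1]) (by linarith only [T0]) (by linarith only [T1]) (by linarith only [y0]) (by linarith only [u1]) (by linarith only [u2]) (by linarith only [u3]) hl hp ne S
      · exact cA7_m2 h z0 (by linarith only [x0]) (by linarith only [x1]) (by linarith only [T0]) (by linarith only [T1]) (by linarith only [y0]) (by linarith only [u1]) (by linarith only [u3]) (by linarith only [t1]) hl hp ne S
  · rcases le_total Tl (-(75 / 1000)) with u2 | u2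
    · exact cA7_m3 h z0 (by linarith only [x0]) (by linarith only [x1]) (by linarith only [T0]) (by linarith only [T1]) (by linarith only [u1]) (by linarith only [y1]) (by linarith only [t0]) (by linarith only [u2]) hl hp ne S
    · rcases le_total Tl (-(60 / 1000)) with u3 | u3
      · exact cA7_m4 h z0 (by linarith only [x0]) (by linarith only [x1]) (by linarith only [T0]) (by linarith only [T1]) (by linarith only [u1]) (by linarith only [y1]) (by linarith only [u2]) (by linarith only [u3]) hl hp ne S
      · exact cA7_m5 h z0 (by linarith only [x0]) (by linarith only [x1]) (by linarith only [T0]) (by linarith only [T1]) (by linarith only [u1]) (by linarith only [y1]) (by linarith only [u3]) (by linarith only [t1]) hl hp ne S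

theorem gA (h : H x T Tl pl k l w) (z0 : 63 / 100 ≤ x) (T0 : 21 / 1000 ≤ T) (T1 : T ≤ 94 / 1000)
    (hk : KG k) (hw : T ≤ 92 / 1000 ∨ KW k) (y0 : 2 / 100 ≤ l.re)
    (y1 : l.re ≤ 15 / 100) (t1 : Tl ≤ -(40 / 1000))
    (hl : l.im = Tl * MP_b30479_gt.G2.M13.τl l.re) (hp : pl = 0) : False := by
  have z1 := h.x1
  rcases le_total T (45 / 1000) with v1 | v1
  · exact gA1 h z0 z0 z1.le T0 v1 (sA1_G (by linarith only [z0]) (by linarith only [z1]) (by linarith only [T0]) (by linarith only [v1]) hk)
      y0 y1 t1 hl hp
  rcases le_total T (60 / 1000) with v2 | v2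
  · exact gA2 h z0 z0 z1.le v1 v2 (sA2_G (by linarith only [z0]) (by linarith only [z1]) (by linarith only [v1]) (by linarith only [v2]) hk)
      y0 y1 t1 hl hp
  rcases le_total x (64 / 100) with v3 | v3
  · rcases le_total T (80 / 1000) with v4 | v4
    · exact gA3 h z0 z0 v3 v2 v4 (sA3_G (by linarith only [z0]) (by linarith only [v3]) (by linarith only [v2]) (by linarith only [v4]) hk)
        y0 y1 t1 hl hp
    · exact gA5 h z0 z0 v3 v4 T1 (sA5_G (by linarith only [z0]) (by linarith only [v3]) (by linarith only [v4]) (by linarith only [T1]) hk)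
        y0 y1 t1 hl hp
  · rcases le_total T (80 / 1000) with v4 | v4
    · exact gA4 h z0 v3 z1.le v2 v4
        (sA4_G (by linarith only [v3]) (by linarith only [z1]) (by linarith only [v2]) (by linarith only [v4]) hk) y0 y1 t1 hl hp
    · rcases le_total T (92 / 1000) with v5 | v5
      · exact gA6 h z0 v3 z1.le v4 v5
          (sA6_G (by linarith only [v3]) (by linarith only [z1]) (by linarith only [v4]) (by linarith only [v5]) hk) y0 y1 t1 hl hp
      · rcases hw with hw | hw
        · exact gA6 h z0 v3 z1.le v4 hw
            (sA6_G (by linarith only [v3]) (by linarith only [z1]) (by linarith only [z1, v3, v5]) (by linarith only [hw]) hk) y0 y1 t1 hl hp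
        · exact gA7 h z0 v3 z1.le v5 T1
            (sA7_W (by linarith only [v3]) (by linarith only [z1]) (by linarith only [v5]) (by linarith only [T1]) hw) y0 y1 t1 hl hp

theorem gB1 (h : H x T Tl pl k l w) (z0 : 63 / 100 ≤ x) (T0 : 21 / 1000 ≤ T) (T1 : T ≤ 60 / 1000)
    (S : SB1 x T k) (y1 : l.re ≤ 5 / 10)
    (t2 : l.re ≤ 2 / 100 ∨ 15 / 100 ≤ l.re ∨ -(40 / 1000) ≤ Tl)
    (hl : l.im = Tl * MP_b30479_gt.G2.M13.τl l.re) (hp : pl = 0) : False := by
  have z1 := h.x1
  have y0 := h.l0
  have t0 := h.t0
  have t1 := h.t1
  have ne : l ≠ ⟨x, hh x⟩ := ne_re (by linarith only [z0, y1, z1] : l.re < x).ne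
  rcases le_total l.re (2 / 100) with u1 | u1
  · exact cB1_m0 h z0 (by linarith only [z0]) (by linarith only [z1]) (by linarith only [T0]) (by linarith only [T1]) (by linarith only [y0]) (by linarith only [u1]) (by linarith only [t0]) (by linarith only [t1]) hl hp ne S
  rcases le_total (15 / 100) l.re with u2 | u2
  · exact cB1_m3 h z0 (by linarith only [z0]) (by linarith only [z1]) (by linarith only [T0]) (by linarith only [T1]) (by linarith only [u2]) (by linarith only [y1]) (by linarith only [t0]) (by linarith only [t1]) hl hp ne S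
  have t3 : -(40 / 1000) ≤ Tl ∨ l.re = 2 / 100 ∨ l.re = 15 / 100 := by
    rcases t2 with t2 | t2 | t2
    · exact Or.inr (Or.inl (le_antisymm t2 u1))
    · exact Or.inr (Or.inr (le_antisymm u2 t2))
    · exact Or.inl t2
  rcases t3 with t3 | t3 | t3
  · rcases le_total l.re (5 / 100) with u3 | u3
    · exact cB1_m1 h z0 (by linarith only [z0]) (by linarith only [z1]) (by linarith only [T0]) (by linarith only [T1]) (by linarith only [u1]) (by linarith only [u3]) (by linarith only [t3]) (by linarith only [t1]) hl hp ne S
    · exact cB1_m2 h z0 (by linarith only [z0]) (by linarith only [z1]) (by linarith only [T0]) (by linarith only [T1]) (by linarith only [u3]) (by linarith only [u2]) (by linarith only [t3]) (by linarith only [t1]) hl hp ne S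
  · exact cB1_m0 h z0 (by linarith only [z0]) (by linarith only [z1]) (by linarith only [T0]) (by linarith only [T1]) (by linarith only [y0]) (by linarith only [t3]) (by linarith only [t0]) (by linarith only [t1]) hl hp ne S
  · exact cB1_m3 h z0 (by linarith only [z0]) (by linarith only [z1]) (by linarith only [T0]) (by linarith only [T1]) (by linarith only [t3]) (by linarith only [z0, z1, u2]) (by linarith only [t0]) (by linarith only [t1]) hl hp ne S

theorem gB2 (h : H x T Tl pl k l w) (z0 : 63 / 100 ≤ x) (T0 : 60 / 1000 ≤ T) (T1 : T ≤ 94 / 1000)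
    (S : SB2 x T k) (y1 : l.re ≤ 5 / 10)
    (t2 : l.re ≤ 2 / 100 ∨ 15 / 100 ≤ l.re ∨ -(40 / 1000) ≤ Tl)
    (hl : l.im = Tl * MP_b30479_gt.G2.M13.τl l.re) (hp : pl = 0) : False := by
  have z1 := h.x1
  have y0 := h.l0
  have t0 := h.t0
  have t1 := h.t1
  have ne : l ≠ ⟨x, hh x⟩ := ne_re (by linarith only [z0, y1, z1] : l.re < x).ne
  rcases le_total l.re (2 / 100) with u1 | u1
  · exact cB2_m0 h z0 (by linarith only [z0]) (by linarith only [z1]) (by linarith only [T0]) (by linarith only [T1]) (by linarith only [y0]) (by linarith only [u1]) (by linarith only [t0]) (by linarith only [t1]) hl hp ne S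
  rcases le_total (15 / 100) l.re with u2 | u2
  · exact cB2_m3 h z0 (by linarith only [z0]) (by linarith only [z1]) (by linarith only [T0]) (by linarith only [T1]) (by linarith only [u2]) (by linarith only [y1]) (by linarith only [t0]) (by linarith only [t1]) hl hp ne S
  have t3 : -(40 / 1000) ≤ Tl ∨ l.re = 2 / 100 ∨ l.re = 15 / 100 := by
    rcases t2 with t2 | t2 | t2
    · exact Or.inr (Or.inl (le_antisymm t2 u1))
    · exact Or.inr (Or.inr (le_antisymm u2 t2))
    · exact Or.inl t2
  rcases t3 with t3 | t3 | t3
  · rcases le_total l.re (5 / 100) with u3 | u3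
    · exact cB2_m1 h z0 (by linarith only [z0]) (by linarith only [z1]) (by linarith only [T0]) (by linarith only [T1]) (by linarith only [u1]) (by linarith only [u3]) (by linarith only [t3]) (by linarith only [t1]) hl hp ne S
    · exact cB2_m2 h z0 (by linarith only [z0]) (by linarith only [z1]) (by linarith only [T0]) (by linarith only [T1]) (by linarith only [u3]) (by linarith only [u2]) (by linarith only [t3]) (by linarith only [t1]) hl hp ne S
  · exact cB2_m0 h z0 (by linarith only [z0]) (by linarith only [z1]) (by linarith only [T0]) (by linarith only [T1]) (by linarith only [y0]) (by linarith only [t3]) (by linarith only [t0]) (by linarith only [t1]) hl hp ne S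
  · exact cB2_m3 h z0 (by linarith only [z0]) (by linarith only [z1]) (by linarith only [T0]) (by linarith only [T1]) (by linarith only [t3]) (by linarith only [z0, z1, u2]) (by linarith only [t0]) (by linarith only [t1]) hl hp ne S

theorem gC (h : H x T Tl pl k l w) (z0 : 63 / 100 ≤ x) (T0 : 21 / 1000 ≤ T) (T1 : T ≤ 94 / 1000)
    (S : SC x T k) (y0 : 5 / 10 ≤ l.re)
    (t2 : l.re ≤ 6 / 10 ∨ 7 / 10 ≤ l.re ∨ Tl ≤ -(10 / 1000))
    (hl : l.im = Tl * MP_b30479_gt.G2.M13.τl l.re) (hp : pl = 0) : False := by
  have z1 := h.x1
  have y1 := h.l1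
  have t0 := h.t0
  have t1 := h.t1
  have a1 := h.s1
  rcases le_total l.re (6 / 10) with u1 | u1
  · have ne : l ≠ ⟨x, hh x⟩ := ne_re (by linarith only [z0, z1, u1] : l.re < x).ne
    exact cC_m0 h z0 (by linarith only [z0]) (by linarith only [z1]) (by linarith only [T0]) (by linarith only [T1]) (by linarith only [y0]) (by linarith only [u1]) (by linarith only [t0]) (by linarith only [t1]) hl hp ne S
  rcases le_total (7 / 10) l.re with u2 | u2
  · have ne : l ≠ ⟨x, hh x⟩ := ne_re (by linarith only [z0, z1, u2] : x < l.re).ne'
    rcases le_total l.re (75 / 100) with u3 | u3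
    · exact cC_m2 h z0 (by linarith only [z0]) (by linarith only [z1]) (by linarith only [T0]) (by linarith only [T1]) (by linarith only [u2]) (by linarith only [u3]) (by linarith only [t0]) (by linarith only [t1]) hl hp ne S
    · exact cC_m3 h z0 (by linarith only [z0]) (by linarith only [z1]) (by linarith only [T0]) (by linarith only [T1]) (by linarith only [u3]) (by linarith only [y1]) (by linarith only [t0]) (by linarith only [t1]) hl hp ne S
  have t3 : Tl ≤ -(10 / 1000) ∨ l.re = 6 / 10 ∨ l.re = 7 / 10 := by
    rcases t2 with t2 | t2 | t2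
    · exact Or.inr (Or.inl (le_antisymm t2 u1))
    · exact Or.inr (Or.inr (le_antisymm u2 t2))
    · exact Or.inl t2
  rcases t3 with t3 | t3 | t3
  · have ne : l ≠ ⟨x, hh x⟩ := ne_neg h (by
      rw [hl]; exact mul_nonpos_of_nonpos_of_nonneg (by linarith only [t1, t3]) (τl_nonneg _))
    exact cC_m1 h z0 (by linarith only [z0]) (by linarith only [z1]) (by linarith only [T0]) (by linarith only [T1]) (by linarith only [u1]) (by linarith only [u2]) (by linarith only [t0]) (by linarith only [t3]) hl hp ne S
  · have ne : l ≠ ⟨x, hh x⟩ := ne_re (by linarith only [z0, z1, t3] : l.re < x).ne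
    exact cC_m0 h z0 (by linarith only [z0]) (by linarith only [z1]) (by linarith only [T0]) (by linarith only [T1]) (by linarith only [z0, z1, u1]) (by linarith only [t3]) (by linarith only [t0]) (by linarith only [t1]) hl hp ne S
  · have ne : l ≠ ⟨x, hh x⟩ := ne_re (by linarith only [z0, z1, t3] : x < l.re).ne'
    exact cC_m2 h z0 (by linarith only [z0]) (by linarith only [z1]) (by linarith only [T0]) (by linarith only [T1]) (by linarith only [t3]) (by linarith only [y1, u2]) (by linarith only [t0]) (by linarith only [t1]) hl hp ne S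

theorem gEC (h : H x T Tl pl k l w) (z0 : 63 / 100 ≤ x) (T0 : 87 / 1000 ≤ T) (T1 : T ≤ 1145 / 10000)
    (S : SEC x T k) (y0 : 5 / 10 ≤ l.re)
    (t2 : l.re ≤ 6 / 10 ∨ 7 / 10 ≤ l.re ∨ Tl ≤ -(10 / 1000))
    (hl : l.im = Tl * MP_b30479_gt.G2.M13.τl l.re) (hp : pl = 0) : False := by
  have z1 := h.x1
  have y1 := h.l1
  have t0 := h.t0
  have t1 := h.t1
  have a1 := h.s1
  rcases le_total l.re (6 / 10) with u1 | u1
  · have ne : l ≠ ⟨x, hh x⟩ := ne_re (by linarith only [z0, z1, u1] : l.re < x).ne
    exact cEC_m0 h z0 (by linarith only [z0]) (by linarith only [z1]) (by linarith only [T0]) (by linarith only [T1]) (by linarith only [y0]) (by linarith only [u1]) (by linarith only [t0]) (by linarith only [t1]) hl hp ne S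
  rcases le_total (7 / 10) l.re with u2 | u2
  · have ne : l ≠ ⟨x, hh x⟩ := ne_re (by linarith only [z0, z1, u2] : x < l.re).ne'
    rcases le_total l.re (75 / 100) with u3 | u3
    · exact cEC_m2 h z0 (by linarith only [z0]) (by linarith only [z1]) (by linarith only [T0]) (by linarith only [T1]) (by linarith only [u2]) (by linarith only [u3]) (by linarith only [t0]) (by linarith only [t1]) hl hp ne S
    · exact cEC_m3 h z0 (by linarith only [z0]) (by linarith only [z1]) (by linarith only [T0]) (by linarith only [T1]) (by linarith only [u3]) (by linarith only [y1]) (by linarith only [t0]) (by linarith only [t1]) hl hp ne S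
  have t3 : Tl ≤ -(10 / 1000) ∨ l.re = 6 / 10 ∨ l.re = 7 / 10 := by
    rcases t2 with t2 | t2 | t2
    · exact Or.inr (Or.inl (le_antisymm t2 u1))
    · exact Or.inr (Or.inr (le_antisymm u2 t2))
    · exact Or.inl t2
  rcases t3 with t3 | t3 | t3
  · have ne : l ≠ ⟨x, hh x⟩ := ne_neg h (by
      rw [hl]; exact mul_nonpos_of_nonpos_of_nonneg (by linarith only [T0, t1, a1]) (τl_nonneg _))
    exact cEC_m1 h z0 (by linarith only [z0]) (by linarith only [z1]) (by linarith only [T0]) (by linarith only [T1]) (by linarith only [u1]) (by linarith only [u2]) (by linarith only [t0]) (by linarith only [t3]) hl hp ne S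
  · have ne : l ≠ ⟨x, hh x⟩ := ne_re (by linarith only [z0, z1, t3] : l.re < x).ne
    exact cEC_m0 h z0 (by linarith only [z0]) (by linarith only [z1]) (by linarith only [T0]) (by linarith only [T1]) (by linarith only [z0, z1, u1]) (by linarith only [t3]) (by linarith only [t0]) (by linarith only [t1]) hl hp ne S
  · have ne : l ≠ ⟨x, hh x⟩ := ne_re (by linarith only [z0, z1, t3] : x < l.re).ne'
    exact cEC_m2 h z0 (by linarith only [z0]) (by linarith only [z1]) (by linarith only [T0]) (by linarith only [T1]) (by linarith only [t3]) (by linarith only [y1, u2]) (by linarith only [t0]) (by linarith only [t1]) hl hp ne S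

theorem gU_u (h : H x T Tl pl k l w) (z0 : 63 / 100 ≤ x) (T0 : 21 / 1000 ≤ T) (T1 : T ≤ 94 / 1000)
    (S : SU x T k) (t1 : Tl ≤ 0) (hl : l.im = 16 / 100 * MP_b30479_gt.G2.M13.τl l.re)
    (hp : pl = 16 / 100 * MP_b30479_gt.G2.M13.τl l.re) : False := by
  have z1 := h.x1
  have y0 := h.l0
  have y1 := h.l1
  have t0 := h.t0
  rcases le_total l.re (1 / 100) with u0 | u0
  · exact cU_u0 h z0 (by linarith only [z0]) (by linarith only [z1]) (by linarith only [T0]) (by linarith only [T1]) (by linarith only [y0]) (by linarith only [u0]) (by linarith only [t0]) (by linarith only [t1]) hl hp S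
  rcases le_total l.re (3 / 100) with u1 | u1
  · exact cU_u1 h z0 (by linarith only [z0]) (by linarith only [z1]) (by linarith only [T0]) (by linarith only [T1]) (by linarith only [u0]) (by linarith only [u1]) (by linarith only [t0]) (by linarith only [t1]) hl hp S
  rcases le_total l.re (10 / 100) with u2 | u2
  · exact cU_u2 h z0 (by linarith only [z0]) (by linarith only [z1]) (by linarith only [T0]) (by linarith only [T1]) (by linarith only [u1]) (by linarith only [u2]) (by linarith only [t0]) (by linarith only [t1]) hl hp S
  rcases le_total l.re (50 / 100) with u3 | u3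
  · exact cU_u3 h z0 (by linarith only [z0]) (by linarith only [z1]) (by linarith only [T0]) (by linarith only [T1]) (by linarith only [u2]) (by linarith only [u3]) (by linarith only [t0]) (by linarith only [t1]) hl hp S
  rcases le_total l.re (75 / 100) with u4 | u4
  · exact cU_u4 h z0 (by linarith only [z0]) (by linarith only [z1]) (by linarith only [T0]) (by linarith only [T1]) (by linarith only [u3]) (by linarith only [u4]) (by linarith only [t0]) (by linarith only [t1]) hl hp S
  rcases le_total l.re (77 / 100) with u5 | u5
  · exact cU_u5 h z0 (by linarith only [z0]) (by linarith only [z1]) (by linarith only [T0]) (by linarith only [T1]) (by linarith only [u4]) (by linarith only [u5]) (by linarith only [t0]) (by linarith only [t1]) hl hp S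
  rcases le_total l.re (79 / 100) with u6 | u6
  · exact cU_u6 h z0 (by linarith only [z0]) (by linarith only [z1]) (by linarith only [T0]) (by linarith only [T1]) (by linarith only [u5]) (by linarith only [u6]) (by linarith only [t0]) (by linarith only [t1]) hl hp S
  exact cU_u7 h z0 (by linarith only [z0]) (by linarith only [z1]) (by linarith only [T0]) (by linarith only [T1]) (by linarith only [u6]) (by linarith only [y1]) (by linarith only [t0]) (by linarith only [t1]) hl hp S

theorem gU_d (h : H x T Tl pl k l w) (z0 : 63 / 100 ≤ x) (T0 : 21 / 1000 ≤ T)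
    (T1 : T ≤ 94 / 1000) (S : SU x T k) (t0 : 0 ≤ Tl)
    (hl : l.im = -(16 / 100 * MP_b30479_gt.G2.M13.τl l.re))
    (hp : pl = 16 / 100 * MP_b30479_gt.G2.M13.τl l.re) : False := by
  have z1 := h.x1
  have y0 := h.l0
  have y1 := h.l1
  have t1 := h.t1
  rcases le_total l.re (1 / 100) with u0 | u0
  · exact cU_d8 h z0 (by linarith only [z0]) (by linarith only [z1]) (by linarith only [T0]) (by linarith only [T1]) (by linarith only [y0]) (by linarith only [u0]) (by linarith only [t0]) (by linarith only [t1]) hl hp S
  rcases le_total l.re (5 / 100) with u1 | u1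
  · exact cU_d9 h z0 (by linarith only [z0]) (by linarith only [z1]) (by linarith only [T0]) (by linarith only [T1]) (by linarith only [u0]) (by linarith only [u1]) (by linarith only [t0]) (by linarith only [t1]) hl hp S
  rcases le_total l.re (10 / 100) with u2 | u2
  · exact cU_d10 h z0 (by linarith only [z0]) (by linarith only [z1]) (by linarith only [T0]) (by linarith only [T1]) (by linarith only [u1]) (by linarith only [u2]) (by linarith only [t0]) (by linarith only [t1]) hl hp S
  rcases le_total l.re (75 / 100) with u3 | u3
  · exact cU_d11 h z0 (by linarith only [z0]) (by linarith only [z1]) (by linarith only [T0]) (by linarith only [T1]) (by linarith only [u2]) (by linarith only [u3]) (by linarith only [t0]) (by linarith only [t1]) hl hp S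
  rcases le_total l.re (77 / 100) with u4 | u4
  · exact cU_d12 h z0 (by linarith only [z0]) (by linarith only [z1]) (by linarith only [T0]) (by linarith only [T1]) (by linarith only [u3]) (by linarith only [u4]) (by linarith only [t0]) (by linarith only [t1]) hl hp S
  rcases le_total l.re (79 / 100) with u5 | u5
  · exact cU_d13 h z0 (by linarith only [z0]) (by linarith only [z1]) (by linarith only [T0]) (by linarith only [T1]) (by linarith only [u4]) (by linarith only [u5]) (by linarith only [t0]) (by linarith only [t1]) hl hp S
  exact cU_d14 h z0 (by linarith only [z0]) (by linarith only [z1]) (by linarith only [T0]) (by linarith only [T1]) (by linarith only [u5]) (by linarith only [y1]) (by linarith only [t0]) (by linarith only [t1]) hl hp S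

theorem gEU_u (h : H x T Tl pl k l w) (z0 : 63 / 100 ≤ x) (T0 : 87 / 1000 ≤ T) (T1 : T ≤ 1145 / 10000)
    (S : SEU x T k) (t1 : Tl ≤ 0) (hl : l.im = 16 / 100 * MP_b30479_gt.G2.M13.τl l.re)
    (hp : pl = 16 / 100 * MP_b30479_gt.G2.M13.τl l.re) : False := by
  have z1 := h.x1
  have y0 := h.l0
  have y1 := h.l1
  have t0 := h.t0
  rcases le_total l.re (1 / 100) with u0 | u0
  · exact cEU_u0 h z0 (by linarith only [z0]) (by linarith only [z1]) (by linarith only [T0]) (by linarith only [T1]) (by linarith only [y0]) (by linarith only [u0]) (by linarith only [t0]) (by linarith only [t1]) hl hp S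
  rcases le_total l.re (3 / 100) with u1 | u1
  · exact cEU_u1 h z0 (by linarith only [z0]) (by linarith only [z1]) (by linarith only [T0]) (by linarith only [T1]) (by linarith only [u0]) (by linarith only [u1]) (by linarith only [t0]) (by linarith only [t1]) hl hp S
  rcases le_total l.re (10 / 100) with u2 | u2
  · exact cEU_u2 h z0 (by linarith only [z0]) (by linarith only [z1]) (by linarith only [T0]) (by linarith only [T1]) (by linarith only [u1]) (by linarith only [u2]) (by linarith only [t0]) (by linarith only [t1]) hl hp S
  rcases le_total l.re (50 / 100) with u3 | u3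
  · exact cEU_u3 h z0 (by linarith only [z0]) (by linarith only [z1]) (by linarith only [T0]) (by linarith only [T1]) (by linarith only [u2]) (by linarith only [u3]) (by linarith only [t0]) (by linarith only [t1]) hl hp S
  rcases le_total l.re (75 / 100) with u4 | u4
  · exact cEU_u4 h z0 (by linarith only [z0]) (by linarith only [z1]) (by linarith only [T0]) (by linarith only [T1]) (by linarith only [u3]) (by linarith only [u4]) (by linarith only [t0]) (by linarith only [t1]) hl hp S
  rcases le_total l.re (77 / 100) with u5 | u5
  · exact cEU_u5 h z0 (by linarith only [z0]) (by linarith only [z1]) (by linarith only [T0]) (by linarith only [T1]) (by linarith only [u4]) (by linarith only [u5]) (by linarith only [t0]) (by linarith only [t1]) hl hp S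
  rcases le_total l.re (79 / 100) with u6 | u6
  · exact cEU_u6 h z0 (by linarith only [z0]) (by linarith only [z1]) (by linarith only [T0]) (by linarith only [T1]) (by linarith only [u5]) (by linarith only [u6]) (by linarith only [t0]) (by linarith only [t1]) hl hp S
  exact cEU_u7 h z0 (by linarith only [z0]) (by linarith only [z1]) (by linarith only [T0]) (by linarith only [T1]) (by linarith only [u6]) (by linarith only [y1]) (by linarith only [t0]) (by linarith only [t1]) hl hp S

theorem gEA (h : H x T Tl pl k l w) (z0 : 63 / 100 ≤ x) (T0 : 87 / 1000 ≤ T)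
    (T1 : T ≤ 1145 / 10000) (S : SEA x T k) (y1 : l.re ≤ 5 / 10)
    (hl : l.im = Tl * MP_b30479_gt.G2.M13.τl l.re) (hp : pl = 0) : False := by
  have z1 := h.x1
  have y0 := h.l0
  have t0 := h.t0
  have t1 := h.t1
  have ne : l ≠ ⟨x, hh x⟩ := ne_re (by linarith only [z0, y1, z1] : l.re < x).ne
  rcases le_total l.re (2 / 100) with u4 | u4
  · exact cEA_m6 h z0 (by linarith only [z0]) (by linarith only [z1]) (by linarith only [T0]) (by linarith only [T1]) (by linarith only [y0]) (by linarith only [u4]) (by linarith only [t0]) (by linarith only [t1]) hl hp ne S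
  rcases le_total (15 / 100) l.re with u5 | u5
  · exact cEA_m9 h z0 (by linarith only [z0]) (by linarith only [z1]) (by linarith only [T0]) (by linarith only [T1]) (by linarith only [u5]) (by linarith only [y1]) (by linarith only [t0]) (by linarith only [t1]) hl hp ne S
  rcases le_total (-(40 / 1000)) Tl with u6 | u6
  · rcases le_total l.re (5 / 100) with u7 | u7
    · exact cEA_m7 h z0 (by linarith only [z0]) (by linarith only [z1]) (by linarith only [T0]) (by linarith only [T1]) (by linarith only [u4]) (by linarith only [u7]) (by linarith only [u6]) (by linarith only [t1]) hl hp ne S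
    · exact cEA_m8 h z0 (by linarith only [z0]) (by linarith only [z1]) (by linarith only [T0]) (by linarith only [T1]) (by linarith only [u7]) (by linarith only [u5]) (by linarith only [u6]) (by linarith only [t1]) hl hp ne S
  rcases le_total l.re (5 / 100) with u1 | u1
  · rcases le_total Tl (-(75 / 1000)) with u2 | u2
    · exact cEA_m0 h z0 (by linarith only [z0]) (by linarith only [z1]) (by linarith only [T0]) (by linarith only [T1]) (by linarith only [u4]) (by linarith only [u1]) (by linarith only [t0]) (by linarith only [u2]) hl hp ne S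
    · rcases le_total Tl (-(60 / 1000)) with u3 | u3
      · exact cEA_m1 h z0 (by linarith only [z0]) (by linarith only [z1]) (by linarith only [T0]) (by linarith only [T1]) (by linarith only [u4]) (by linarith only [u1]) (by linarith only [u2]) (by linarith only [u3]) hl hp ne S
      · exact cEA_m2 h z0 (by linarith only [z0]) (by linarith only [z1]) (by linarith only [T0]) (by linarith only [T1]) (by linarith only [u4]) (by linarith only [u1]) (by linarith only [u3]) (by linarith only [u6]) hl hp ne S
  · rcases le_total Tl (-(75 / 1000)) with u2 | u2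
    · exact cEA_m3 h z0 (by linarith only [z0]) (by linarith only [z1]) (by linarith only [T0]) (by linarith only [T1]) (by linarith only [u1]) (by linarith only [u5]) (by linarith only [t0]) (by linarith only [u2]) hl hp ne S
    · rcases le_total Tl (-(60 / 1000)) with u3 | u3
      · exact cEA_m4 h z0 (by linarith only [z0]) (by linarith only [z1]) (by linarith only [T0]) (by linarith only [T1]) (by linarith only [u1]) (by linarith only [u5]) (by linarith only [u2]) (by linarith only [u3]) hl hp ne S
      · exact cEA_m5 h z0 (by linarith only [z0]) (by linarith only [z1]) (by linarith only [T0]) (by linarith only [T1]) (by linarith only [u1]) (by linarith only [u5]) (by linarith only [u3]) (by linarith only [u6]) hl hp ne S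

/-- the other neighbour of the `1` is a `1` or an interior `2` -/
theorem endG (h : H x T Tl pl k l w) (z0 : 63 / 100 ≤ x) (T0 : 21 / 1000 ≤ T)
    (T1 : T ≤ 94 / 1000) (hk : KG k) (hw : T ≤ 92 / 1000 ∨ KW k) : False := by
  have z1 := h.x1
  cases h.lp with
  | main hl hp =>
    rcases le_total l.re (5 / 10) with u1 | u1
    · by_cases hA : (2 / 100 ≤ l.re ∧ l.re ≤ 15 / 100) ∧ Tl ≤ -(40 / 1000)
      · exact gA h z0 T0 T1 hk hw hA.1.1 hA.1.2 hA.2 hl hp
      · have t2 : l.re ≤ 2 / 100 ∨ 15 / 100 ≤ l.re ∨ -(40 / 1000) ≤ Tl := by
          by_contra hc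
          simp only [not_or, not_le] at hc
          exact hA ⟨⟨hc.1.le, hc.2.1.le⟩, hc.2.2.le⟩
        rcases le_total T (60 / 1000) with v1 | v1
        · exact gB1 h z0 T0 v1 (sB1_G z0 (by linarith only [z1]) T0 (by linarith only [v1]) hk) u1 t2 hl hp
        · exact gB2 h z0 v1 T1 (sB2_G z0 (by linarith only [z1]) (by linarith only [v1]) (by linarith only [T1]) hk) u1 t2 hl hp
    · by_cases hN : (6 / 10 ≤ l.re ∧ l.re ≤ 7 / 10) ∧ -(10 / 1000) ≤ Tl
      · have t1 := h.t1
        exact cN_m0 h z0 z0 (by linarith only [z1]) T0 (by linarith only [T1]) (by linarith only [hN, hN.1.1])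
          (by linarith only [hN, hN.1.2]) (by linarith only [hN, hN.2]) (by linarith only [t1]) hl hp
          (sN_G z0 (by linarith only [z1]) T0 (by linarith only [T1]) hk)
      · have t2 : l.re ≤ 6 / 10 ∨ 7 / 10 ≤ l.re ∨ Tl ≤ -(10 / 1000) := by
          by_contra hc
          simp only [not_or, not_le] at hc
          exact hN ⟨⟨hc.1.le, hc.2.1.le⟩, hc.2.2.le⟩
        exact gC h z0 T0 T1 (sC_G z0 (by linarith only [z1]) T0 (by linarith only [T1]) hk) u1 t2 hl hp
  | up t1 hl hp => exact gU_u h z0 T0 T1 (sU_G z0 (by linarith only [z1]) T0 (by linarith only [T1]) hk) t1 hl hp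
  | dn t0 hl hp => exact gU_d h z0 T0 T1 (sU_G z0 (by linarith only [z1]) T0 (by linarith only [T1]) hk) t0 hl hp

/-- the other neighbour of the `1` is a `2` at an end -/
theorem endE (h : H x T Tl pl k l w) (z0 : 63 / 100 ≤ x) (T0 : 87 / 1000 ≤ T)
    (T1 : T ≤ 1145 / 10000) (hk : KM k ∨ KU k) : False := by
  have z1 := h.x1
  have a1 := h.s1
  have S1 : SEA x T k := hk.elim (fun hk => sEA_M z0 (by linarith only [z1]) T0 (by linarith only [T1]) hk)
    (fun hk => sEA_U z0 (by linarith only [z1]) T0 (by linarith only [T1]) hk)
  have S2 : SEC x T k := hk.elim (fun hk => sEC_M z0 (by linarith only [z1]) T0 (by linarith only [T1]) hk)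
    (fun hk => sEC_U z0 (by linarith only [z1]) T0 (by linarith only [T1]) hk)
  have S3 : SEU x T k := hk.elim (fun hk => sEU_M z0 (by linarith only [z1]) T0 (by linarith only [T1]) hk)
    (fun hk => sEU_U z0 (by linarith only [z1]) T0 (by linarith only [T1]) hk)
  cases h.lp with
  | main hl hp =>
    rcases le_total l.re (5 / 10) with u1 | u1
    · exact gEA h z0 T0 T1 S1 u1 hl hp
    · by_cases hN : (6 / 10 ≤ l.re ∧ l.re ≤ 7 / 10) ∧ -(10 / 1000) ≤ Tl
      · have S4 : SEN x T k := hk.elim
          (fun hk => sEN_M z0 (by linarith only [z1]) (by linarith only [T0]) (by linarith only [a1, hN, hN.2]) hk)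
          (fun hk => sEN_U z0 (by linarith only [z1]) (by linarith only [T0]) (by linarith only [a1, hN, hN.2]) hk)
        exact cEN_m0 h z0 z0 (by linarith only [z1]) (by linarith only [T0]) (by linarith only [a1, hN, hN.2])
          (by linarith only [hN, hN.1.1]) (by linarith only [hN, hN.1.2]) (by linarith only [hN, hN.2]) (by linarith only [T0, a1]) hl hp S4
      · have t2 : l.re ≤ 6 / 10 ∨ 7 / 10 ≤ l.re ∨ Tl ≤ -(10 / 1000) := by
          by_contra hc
          simp only [not_or, not_le] at hc
          exact hN ⟨⟨hc.1.le, hc.2.1.le⟩, hc.2.2.le⟩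
        exact gEC h z0 T0 T1 S2 u1 t2 hl hp
  | up t1 hl hp => exact gEU_u h z0 T0 T1 S3 t1 hl hp
  | dn t0 hl hp => linarith only [z0, T0, z1, a1, t0]

end R13

end Pool.Agent.Work.NumG

namespace Pool.Agent.Work.MP_b30479_gt.G2

namespace M13

open NumG.R13 in
/-- **The right end of the mirrored path.** -/
theorem endR {x T Tl pl : ℝ} {k l w : ℂ} (h : H x T Tl pl k l w) (z0 : 63 / 100 ≤ x) : False := by
  cases h.kp with
  | one a b c d e =>
    exact endG h z0 a (by linarith only [b]) ⟨⟨c, d⟩, e⟩ (Or.inl b)
  | two a b c d e =>
    have hw : KW k := ⟨⟨c, d⟩, e⟩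
    exact endG h z0 (by linarith only [a]) b hw.toKG (Or.inr hw)
  | em a b c d e => exact endE h z0 a b (Or.inl ⟨⟨c, d⟩, e⟩)
  | eu a b c d e => exact endE h z0 a b (Or.inr ⟨⟨c, d⟩, e⟩)

end M13

end Pool.Agent.Work.MP_b30479_gt.G2
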