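import Pool.Agent.Work.NumU.GenX
import Pool.Agent.Work.NumU.GenD

/-!
# The kind `1 | 3`, slot `0` of the `3`, middle of the path: expressions

Variables: `0` position of the hinge, `1` height `T` of its saddle point in the frame of the `1`; rows
of the `1`: `2`, `3` position and height (multiple of the ramp) of the other hinge; rows of the `3`:
`2` position of the inner variable, `3` height of its saddle point.
-/

namespace Pool.Agent.Work.NumG.P13

def fa : List (ℤ × ℤ × ℕ) :=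
  [(0, -19, 4), (2, 41, 60), (5, 68, 75), (10, 29, 50), (15, 11, 50), (20, 41, 100),
    (30, 43, 100), (40, 19, 100), (50, -129, 100), (60, 109, 200), (80, 61, 100), (100, 81, 200),
    (125, 63, 125), (150, 79, 250), (175, 127, 250), (200, 37, 125), (225, 89, 250),
    (250, 153, 250), (275, 648, 1625), (288, 7, 26), (300, -13, 5), (312, 7, 130),
    (325, 88, 1625), (350, 23, 250), (375, 9, 50), (400, 3, 125), (450, 12, 125), (500, 13, 250),
    (550, 9, 500), (600, -2, 125), (650, -11, 250), (700, -61, 500), (750, -9, 250),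
    (775, -33, 250)]
def fb : List (ℤ × ℤ × ℕ) :=
  [(0, -80, 1), (2, 100, 3), (5, -22, 3), (10, 6, 1), (20, 2, 1), (50, 56, 1), (60, -5, 2),
    (80, -3, 1), (100, -21, 10), (125, -8, 5), (150, -6, 5), (175, -2, 1), (200, -4, 5),
    (225, -4, 5), (250, -293, 250), (275, -341, 125), (288, -11, 10), (300, 169, 20),
    (312, -1, 20), (325, -6, 125), (350, -116, 125), (375, 47, 125), (400, 1, 5), (550, 2, 5),
    (600, 3, 5), (650, 3, 5), (700, 8, 5), (750, 243, 5), (775, -4, 5)]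
def fu : List (ℤ × ℤ × ℕ) :=
  [(0, 179, 10), (5, -11, 5), (10, -81, 10), (20, 11, 10), (30, 17, 20), (50, -941, 100),
    (100, 19, 50), (150, -1, 50), (200, 1, 22), (750, -6, 11), (760, -17, 1), (770, -93, 10),
    (780, -3, 5), (790, -2, 1)]
def fv : List (ℤ × ℤ × ℕ) :=
  [(0, -130, 1), (10, 130, 1), (750, 20, 1)]
def fd : List (ℤ × ℤ × ℕ) :=
  [(0, 27, 4), (2, 19, 12), (5, 2, 3), (10, 11, 20), (20, 29, 60), (50, -781, 75), (100, 4, 25),
    (150, 1, 10), (200, 3, 25), (250, 1, 50), (500, 3, 50), (600, 2, 25), (650, 3, 25),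
    (750, -1143, 100), (760, -1, 1), (780, -13, 40)]

/-- height of the mirrored path: left ramp, flat, right ramp -/
def hh : ℕ → E
  | 0 => .mul (.q 50 13) (.var 0)
  | 1 => .q 1 2
  | _ => .mul (.q 10 3) (.sub (.q 65 100) (.var 0))
/-- its slope -/
def mm : ℕ → E
  | 0 => .q 50 13
  | 1 => .q 0 1
  | _ => .q (-10) 3
/-- positions of the other hinge of the `1` -/
def kG : E := .mul (.mul (.q 16 100) (.var 3)) (E.tr 860 150 200 (.var 2))
def kW : E := .mul (.mul (.q 16 100) (.var 3)) (E.tr 860 140 200 (.var 2))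
def kM : E := .mul (.var 3) (E.tr 700 140 350 (.var 2))
def kU : E := .mul (.q 16 100) (E.tr 700 140 350 (.var 2))
/-- positions of the inner variable -/
def lM : E := .mul (.var 3) (E.tr 800 50 50 (.var 2))
def lU : E := .mul (.q 16 100) (E.tr 800 50 50 (.var 2))
def lD : E := .neg (.mul (.q 16 100) (E.tr 800 50 50 (.var 2)))
/-- far gains -/
def farM : E := .sub (E.pl (.var 2) 120 fa) (.mul (.var 3) (E.pl (.var 2) 2600 fb))
def farU : E := .sub (E.pl (.var 2) 120 fu) (.mul (.var 3) (E.pl (.var 2) 2600 fv))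
def farD : E := .sub (E.pl (.var 2) 120 fd) (.mul (.var 3) (.q 24 10))
/-- derivative of `UU` -/
def dU (x t m : E) : D := .add (.xw x t) (.of (.mul m (.yw x t)))
/-- side of the `1`, star -/
def f1z (h c tc k A : E) : E :=
  .add (.add (.sub (.sub (.ux (.add c (.var 2)) (.add tc k)) (.ux (.add (.var 0) (.var 2)) (.sub k h)))
    (.sub (.ux c tc) (.mul (.q 2 1) (.ux (.var 0) h))))
    (.mul .pi (.add (.mul (.sub c (.var 0)) k) (.mul (.add tc h) (.sub (.var 2) (.q 1 1)))))) A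
/-- side of the `1`, slope -/
def f1t (h m k : E) : D :=
  .add (.of (.mul .pi (.sub k (.mul m (.sub (.var 2) (.q 1 1))))))
    (.sub (dU (.add (.var 0) (.var 2)) (.sub k h) (.neg m)) (.mul (.of (.q 2 1)) (dU (.var 0) h m)))
/-- the same at `m = 0` -/
def f1s (h k : E) : D :=
  .add (.of (.mul .pi k)) (.sub (.xw (.add (.var 0) (.var 2)) (.sub k h)) (.mul (.of (.q 2 1)) (.xw (.var 0) h)))
/-- side of the `3`, inner variable kept -/
def g3k (h c tc l A : E) : E :=
  .sub (.add (.sub (.sub (.ux (.sub (.var 2) (.var 0)) (.sub l h)) (.ux (.sub (.var 2) c) (.add l tc))) (.ux c tc))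
    (.mul .pi (.add (.add (.mul (.sub (.var 0) c) l) (.mul (.add h tc) (.var 2))) (.mul (.q 2 1) h)))) A
/-- side of the `3`, inner variable to `3/10` -/
def g3r (h c tc l far A : E) : E :=
  .sub (.add (.add (.sub (.sub (.ux (.sub (.var 2) (.var 0)) (.sub l h)) (.ux (.var 2) l))
    (.sub (.add (.ux (.sub (.q 3 10) c) (.add (.var 3) tc)) (.ux c tc)) (.ux (.q 3 10) (.var 3))))
    (.mul .pi (.add (.add (.sub (.mul (.var 0) l) l) (.mul h (.var 2))) (.add (.add (.mul tc (.q 3 10)) (.mul (.sub (.q 1 1) c) (.var 3))) (.mul (.q 2 1) h))))) far) A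
/-- side of the `3`, slope -/
def g3t (h m l : E) : D :=
  .sub (dU (.sub (.var 2) (.var 0)) (.sub l h) m) (.of (.mul .pi (.add (.add l (.mul m (.var 2))) (.mul (.q 2 1) m))))
/-- the same at `m = 0` -/
def g3s (h l : E) : D := .sub (.xw (.sub (.var 2) (.var 0)) (.sub l h)) (.of (.mul .pi l))
/-- a comparison: target `c`, weight `th` of the slope condition (units `1/10000`), inner variable
moved to `3/10` (`mv`), price `a0 / 10000 + a1 / 100 x + a2 / 100 T` -/
structure It where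
  c : ℤ
  th : ℤ
  mv : Bool
  a0 : ℤ
  a1 : ℤ
  a2 : ℤ
def It.A (i : It) : E :=
  .add (.add (.q i.a0 10000) (.mul (.q i.a1 100) (.var 0))) (.mul (.q i.a2 100) (.var 1))
def It.cE (i : It) : E := .q i.c 10000
/-- height of the target -/
def It.tE (i : It) : E := if 1300 ≤ i.c then .var 1 else .mul (.q i.c 1300) (.var 1)
/-- side of the `1` -/
def F1 (r : ℕ) (k : E) (i : It) : D :=
  if i.th = 0 then .of (f1z (hh r) i.cE i.tE k i.A) else
    .add (.of (f1z (hh r) i.cE i.tE k i.A)) (.mul (.of (.q i.th 10000))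
      (if r = 1 then f1s (hh r) k else f1t (hh r) (mm r) k))
/-- side of the `3`, star -/
def G3z (r : ℕ) (l far : E) (i : It) : E :=
  if i.mv then g3r (hh r) i.cE i.tE l far i.A else g3k (hh r) i.cE i.tE l i.A
/-- side of the `3` -/
def G3 (r : ℕ) (l far : E) (i : It) : D :=
  if i.th = 0 then .of (G3z r l far i) else
    .add (.of (G3z r l far i)) (.mul (.of (.q i.th 10000))
      (if r = 1 then g3s (hh r) l else g3t (hh r) (mm r) l))
/-- outside the windows -/
def exU : D := .of (.sub (.add (.var 1) (.var 3)) (.q 84 1000))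
def exD : D := .of (.sub (.neg (.add (.var 1) (.var 3))) (.q 45 1000))
/-- side of the `1` at `k = 1 - u`, no slope condition -/
def f1o (h c tc A : E) : E :=
  .add (.add (.sub (.ux (.sub (.add c (.q 1 1)) (.var 0)) (.add tc h))
    (.sub (.ux c tc) (.mul (.q 2 1) (.ux (.var 0) h))))
    (.mul .pi (.sub (.mul (.sub c (.var 0)) h) (.mul (.add tc h) (.var 0))))) A
def F1o (r : ℕ) (i : It) : E := f1o (hh r) i.cE i.tE i.A

def i_a1_0 : It := ⟨1500, 0, true, 2500, 1797, 138⟩
def i_a1_1 : It := ⟨2000, 0, true, 2316, 1801, 146⟩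
def g_a1 : List It := [i_a1_0, i_a1_1]
def i_a2_0 : It := ⟨2000, 0, true, 3993, 1575, 109⟩
def g_a2 : List It := [i_a2_0]
def i_a3_0 : It := ⟨2000, 5000, true, 34047, -149, 113⟩
def g_a3 : List It := [i_a3_0]
def i_a4_0 : It := ⟨2000, 3000, true, 139023, -1687, 113⟩
def g_a4 : List It := [i_a4_0]
def i_b1_0 : It := ⟨2000, 2000, true, 108656, -1336, 104⟩
def i_b1_1 : It := ⟨500, -500, true, 72393, -1251, 44⟩
def g_b1 : List It := [i_b1_0, i_b1_1]
def i_b1u_0 : It := ⟨500, 0, false, 159906, -2403, 83⟩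
def g_b1u : List It := [i_b1u_0]
def i_b2_0 : It := ⟨1500, 0, true, 76300, -1194, 108⟩
def i_b2_1 : It := ⟨500, 2500, true, 108147, -1249, 44⟩
def g_b2 : List It := [i_b2_0, i_b2_1]
def i_b2u0_0 : It := ⟨500, 0, false, 75139, -1093, 92⟩
def g_b2u0 : List It := [i_b2u0_0]
def i_b2u1_0 : It := ⟨500, 0, false, 174356, -2659, 87⟩
def g_b2u1 : List It := [i_b2u1_0]
def i_b2u2_0 : It := ⟨500, 0, false, 179179, -2786, 110⟩
def g_b2u2 : List It := [i_b2u2_0]
def i_b3_0 : It := ⟨1500, 3000, true, 108646, -1151, 108⟩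
def i_b3_1 : It := ⟨1500, 0, true, 76431, -1196, 108⟩
def g_b3 : List It := [i_b3_0, i_b3_1]
def i_b3u0_0 : It := ⟨1500, 0, true, 75387, -1092, 108⟩
def g_b3u0 : List It := [i_b3u0_0]
def i_b3u1_0 : It := ⟨500, 0, true, 76506, -1101, 44⟩
def g_b3u1 : List It := [i_b3u1_0]
def i_b3u2_0 : It := ⟨500, 0, true, 210781, -3227, 44⟩
def g_b3u2 : List It := [i_b3u2_0]
def i_b3u3_0 : It := ⟨1500, 0, false, 181433, -2807, 276⟩
def g_b3u3 : List It := [i_b3u3_0]
def i_e1_0 : It := ⟨1500, 2000, true, 108705, -1343, 155⟩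
def g_e1 : List It := [i_e1_0]
def i_e1u_0 : It := ⟨500, 0, false, 159183, -2392, 95⟩
def g_e1u : List It := [i_e1u_0]
def i_e2_0 : It := ⟨1500, 0, true, 75924, -1194, 155⟩
def i_e2_1 : It := ⟨500, 2500, true, 108060, -1249, 55⟩
def g_e2 : List It := [i_e2_0, i_e2_1]
def i_e2u0_0 : It := ⟨500, 0, false, 75083, -1093, 99⟩
def g_e2u0 : List It := [i_e2u0_0]
def i_e2u1_0 : It := ⟨500, 0, false, 172828, -2635, 98⟩
def g_e2u1 : List It := [i_e2u1_0]
def i_e2u2_0 : It := ⟨500, 0, false, 179124, -2786, 117⟩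
def g_e2u2 : List It := [i_e2u2_0]
def i_e3_0 : It := ⟨2000, 1250, true, 95025, -1265, 144⟩
def i_e3_1 : It := ⟨500, 3000, true, 107614, -1151, 55⟩
def i_e3_2 : It := ⟨1500, 0, true, 76054, -1196, 155⟩
def g_e3 : List It := [i_e3_0, i_e3_1, i_e3_2]
def i_e3u0_0 : It := ⟨1500, 0, true, 75010, -1092, 155⟩
def g_e3u0 : List It := [i_e3u0_0]
def i_e3u1_0 : It := ⟨500, 0, true, 76419, -1101, 55⟩
def g_e3u1 : List It := [i_e3u1_0]
def i_e3u2_0 : It := ⟨500, 0, true, 210694, -3227, 55⟩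
def g_e3u2 : List It := [i_e3u2_0]
def i_e3u3_0 : It := ⟨2000, 0, false, 181646, -2807, 281⟩
def g_e3u3 : List It := [i_e3u3_0]

end Pool.Agent.Work.NumG.P13
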