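import Pool.Agent.Work.MP_b30479_gt.G2.WMGa

/-!
# Mirrored paths: the star moves of the kinds with an end `3`
-/

namespace Pool.Agent.Work.MP_b30479_gt.G2

open Finset VOL Filter Topology

namespace SR

variable {M : ℕ} {b : Fin (M + 1) → ℤ} {zs : DD (tyW b) ⊕ ZZ (tyW b) → ℂ}
variable {R : Finset (DD (tyW b))} {nb : Finset (DD (tyW b) ⊕ ZZ (tyW b))}
variable {z : DD (tyW b) ⊕ ZZ (tyW b) → ℂ} {p : DD (tyW b) → ℝ}
variable {h h' : Fin M} {i j j' : Fin (M + 1)} {s : Fin 3} {x c : ℝ}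

/-- the paths of the hinges considered here -/
theorem par_E (A : Adj h i s j)
    (hij : (clsW b i = .two ∧ clsW b j = .threeE) ∨ (clsW b i = .threeE ∧ clsW b j = .two) ∨
      (clsW b i = .twoE ∧ clsW b j = .twoE) ∨ (clsW b i = .twoE ∧ clsW b j = .threeE) ∨
      (clsW b i = .threeE ∧ clsW b j = .threeE)) :
    wXM b h = 6 / 10 ∧ wcl b h = 1 / 10 ∧ wcr b h = 3 / 10 := by
  have e : ∀ P Q A B : Cl, (hp P A B Q = ⟨60 / 100, 10 / 100, 30 / 100⟩) →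
      (hp P A B Q).XM = 6 / 10 ∧ (hp P A B Q).cl = 1 / 10 ∧ (hp P A B Q).cr = 3 / 10 := by
    intro P Q A B hh
    rw [hh]
    norm_num
  unfold wXM wcl wcr
  cases A <;> rcases hij with ⟨h1, h2⟩ | ⟨h1, h2⟩ | ⟨h1, h2⟩ | ⟨h1, h2⟩ | ⟨h1, h2⟩ <;>
    rw [h1, h2] <;> exact e _ _ _ _ rfl

theorem par_E3b (A : Adj h i 0 j) (hi : clsW b i = .threeE) (hj : clsW b j = .three) :
    wXM b h = 6 / 10 ∧ wcl b h = 13 / 100 ∧ wcr b h = 3 / 10 := by
  unfold wXM wcl wcr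
  cases A
  rw [hi, hj]
  simp only [hp]
  norm_num

theorem par_E3a (A : Adj h i 2 j) (hi : clsW b i = .threeE) (hj : clsW b j = .three) :
    wXM b h = 6 / 10 ∧ wcl b h = 12 / 100 ∧ wcr b h = 3 / 10 := by
  unfold wXM wcl wcr
  cases A
  rw [hi, hj]
  simp only [hp]
  norm_num

/-- the new position of the hinge at `15/100` -/
theorem tgo15 {cl : ℝ} (hX : wXM b h = 6 / 10 ∧ wcl b h = cl ∧ wcr b h = 3 / 10) (h0 : 0 < cl)
    (h1 : cl ≤ 15 / 100) (i : Fin (M + 1)) : tgo b zs h i (15 / 100) = ⟨15 / 100, Th b zs h i⟩ := by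
  unfold tgo
  rw [trh_flat hX h0 (by norm_num) h1 (by norm_num), mul_one]

/-- **an end `3` on the lower side**: gain of the end, the hinge to `15/100`, the inner variable to
`3/10` -/
theorem Md.g3D (hL : Loc b zs) (D : Md b zs nb z p h i s j x) {cl : ℝ}
    (hX : wXM b h = 6 / 10 ∧ wcl b h = cl ∧ wcr b h = 3 / 10) (h0 : 0 < cl) (h1 : cl ≤ 15 / 100)
    (h16 : mhs b h s = 16 / 100) (hN : NbT b R nb) (hM : MM b zs R nb z p)
    (m : {i : Fin (M + 1) // (tyW b i).isMid = true}) (hm : m.1 = i) (hc : clsW b i = .threeE)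
    {O : ℝ → ℝ} (H : KE.Old cl (-(16 / 100)) O) {n : ℝ}
    (hn : ∀ T, -(45 / 1000) ≤ T → T ≤ 59 / 1000 → n ≤ V3 ⟨15 / 100, Th b zs h i⟩ ⟨3 / 10, T⟩ 0) :
    SideG b zs nb z p h i (tg b zs h (15 / 100)) (n - O x) := by
  subst hm
  obtain ⟨hnn, I⟩ := hM.ipos hN m D.adj D.nn
  have k := inner_threeE (zs := zs) (z := z) (p := p) (c := 15 / 100) m D.adj hc hnn (c' := 3 / 10) (by norm_num) (by norm_num)
  refine k.mono ?_
  have hx1 := D.x1
  rw [hX.1] at hx1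
  have ho := I.old hL m hc H D.x0.le hx1.le
  have ht := TmE_mem hL m hc
  rw [tgo15 hX h0 h1, tgi_E m hc (by norm_num) (by norm_num), D.own, h16, trh_eq hX]
  have h2 := hn _ ht.1 ht.2
  rw [neg_mul] at ho
  linarith

/-- an end `3` on the upper side -/
theorem Md.g3U (hL : Loc b zs) (D : Md b zs nb z p h i s j x) {cl : ℝ}
    (hX : wXM b h = 6 / 10 ∧ wcl b h = cl ∧ wcr b h = 3 / 10) (h0 : 0 < cl) (h1 : cl ≤ 15 / 100)
    (h16 : mhs b h s = 16 / 100) (hN : NbT b R nb) (hM : MM b zs R nb z p)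
    (m : {i : Fin (M + 1) // (tyW b i).isMid = true}) (hm : m.1 = j) (hc : clsW b j = .threeE)
    {O : ℝ → ℝ} (H : KE.Old cl (16 / 100) O) {n : ℝ}
    (hn : ∀ T, -(45 / 1000) ≤ T → T ≤ 59 / 1000 → n ≤ V3 ⟨15 / 100, -Th b zs h i⟩ ⟨3 / 10, T⟩ 0) :
    SideG b zs nb z p h j (tg b zs h (15 / 100)) (n - O x) := by
  subst hm
  obtain ⟨hnn, I⟩ := hM.ipos hN m D.adj.symm D.nn
  have k := inner_threeE (zs := zs) (z := z) (p := p) (c := 15 / 100) m D.adj.symm hc hnn (c' := 3 / 10) (by norm_num)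
    (by norm_num)
  refine k.mono ?_
  have hx1 := D.x1
  rw [hX.1] at hx1
  have ho := I.old hL m hc H D.x0.le hx1.le
  have ht := TmE_mem hL m hc
  rw [tgo15 hX h0 h1, tgi_E m hc (by norm_num) (by norm_num), D.opp, h16, trh_eq hX, D.Tj]
  have h2 := hn _ ht.1 ht.2
  linarith

end SR

end Pool.Agent.Work.MP_b30479_gt.G2
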