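import Pool.Agent.Work.MP_b30479_gt.G2.WLocX
import Pool.Agent.Work.MP_b30479_gt.G2.WMGb

/-!
# Mirrored paths: far gains of the inner variable of an interior `3`, definitions

If the inner variable of a `3` moves to `m` on its main path then the part of the value which
depends on the hinge in the slot `2` loses at most `ψ`.
-/

namespace Pool.Agent.Work.MP_b30479_gt.G2

open Finset VOL Filter Topology

namespace KE

open NumG

/-- the part of the value of a `3` without the hinge in the slot `2` -/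
noncomputable def VF (u v : ℂ) : ℝ := -(Real.pi * (u * v - v).im) - UU (v - u) + UU v - UU u

/-- the part which depends on the hinge in the slot `0` -/
noncomputable def VA (u v : ℂ) : ℝ := -(Real.pi * (u * v).im) - UU (v - u) - UU u

theorem V3_VF (u v w : ℂ) : V3 u v w = VF u v + V2 v w := by
  unfold V3 VF V2
  simp only [Complex.sub_im, Complex.add_im, Complex.mul_im, pow_two, Complex.sub_re,
    Complex.mul_re, Complex.re_ofNat, Complex.im_ofNat]
  ring

theorem V3_VA (u u' v w : ℂ) : V3 u v w - V3 u' v w = VA u v - VA u' v := by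
  unfold V3 VA
  simp only [Complex.sub_im, Complex.add_im, Complex.mul_im, pow_two, Complex.sub_re,
    Complex.mul_re, Complex.re_ofNat, Complex.im_ofNat]
  ring

theorem eVF_val {x t y s : E} {xs : List ℝ} :
    (eVF x t y s).val xs = VF ⟨x.val xs, t.val xs⟩ ⟨y.val xs, s.val xs⟩ := by
  unfold VF
  simp only [eVF, E.val, NumU.UU_uu, Complex.add_im, Complex.sub_im, Complex.sub_re,
    Complex.mul_im]
  ring

theorem eVA_val {x t y s : E} {xs : List ℝ} :
    (E.Va x t y s).val xs = VA ⟨x.val xs, t.val xs⟩ ⟨y.val xs, s.val xs⟩ := by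
  unfold VA
  simp only [E.Va, E.val, NumU.UU_uu, Complex.add_im, Complex.sub_im, Complex.sub_re,
    Complex.mul_im]
  ring

noncomputable def ψ30 (y T : ℝ) : ℝ :=
  max (plR y (-80) [(0, 3, 1), (10, -43, 40), (50, 7, 40), (100, -32, 25), (150, -9, 10), (200, -31, 50), (250, -23, 50), (275, -21, 25), (300, 39, 20)] + 5000 / 10000 * T) (plR y (-80)
    [(0, 3, 1), (10, -43, 40), (50, -261, 200), (100, -23, 100), (200, -59, 100), (250, -3, 5), (300, 51, 50), (350, -1, 10), (450, -3, 25), (500, -1, 10), (600, -3, 25), (700, -17, 50), (750, 21, 25)])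
noncomputable def ψ45 (y : ℝ) : ℝ := plR y 8 [(600, -17, 100), (700, -1, 100), (750, 14, 25)]
noncomputable def ψm (y : ℝ) : ℝ := plR y (-90) [(0, -75, 8), (48, 75, 8), (750, 111, 10)]

theorem e30_val {y T : E} {xs : List ℝ} : (e30 y T).val xs = ψ30 (y.val xs) (T.val xs) := by
  unfold e30 ψ30
  rw [E.mx_val]
  simp only [E.val, E.pl_val, E.c]
  push_cast
  rfl

theorem e45_val {y : E} {xs : List ℝ} : (e45 y).val xs = ψ45 (y.val xs) := by
  unfold e45 ψ45
  rw [E.pl_val]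

theorem em_val {y : E} {xs : List ℝ} : (em y).val xs = ψm (y.val xs) := by
  unfold em ψm
  rw [E.pl_val]

theorem tL_val {y : E} {xs : List ℝ} :
    (tL y).val xs = tr 0 (8 / 10) (5 / 100) (5 / 100) (y.val xs) := by
  unfold tL
  rw [E.tr_val (by norm_num) (by norm_num) (by norm_num)]
  norm_num

theorem uW_val {x y z w : ℝ} :
    uW.val [x, y, z, w] = 16 / 100 * tr 0 (65 / 100) (13 / 100) (29 / 100) z := by
  unfold uW
  simp only [E.val, E.c]
  rw [E.tr_val (by norm_num) (by norm_num) (by norm_num)]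
  simp only [E.val, v2]
  norm_num

theorem gL_val {m : ℤ} {t : E} {x y z w : ℝ} : (gL m t).val [x, y, z, w] =
    V2 ⟨(m : ℝ) / 10000, y⟩ ⟨z, w * (16 / 100 * tr 0 (65 / 100) (13 / 100) (29 / 100) z)⟩ -
      V2 ⟨x, t.val [x, y, z, w]⟩
        ⟨z, w * (16 / 100 * tr 0 (65 / 100) (13 / 100) (29 / 100) z)⟩ := by
  unfold gL
  rw [E.dV2_val]
  simp only [E.val, v0, v1, v2, v3, E.c, uW_val]
  push_cast
  rfl

theorem penL_val {x y z w : ℝ} : penL.val [x, y, z, w] =
    2 * Real.pi * (16 / 100 * tr 0 (8 / 10) (5 / 100) (5 / 100) x) := by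
  unfold penL
  simp only [E.val, v0, E.c, tL_val]
  push_cast
  ring

theorem g30m_val {x y z w : ℝ} : g30m.val [x, y, z, w] =
    V2 ⟨3 / 10, y⟩ ⟨z, w * (16 / 100 * tr 0 (65 / 100) (13 / 100) (29 / 100) z)⟩ -
      V2 ⟨x, y * tr 0 (8 / 10) (5 / 100) (5 / 100) x⟩
        ⟨z, w * (16 / 100 * tr 0 (65 / 100) (13 / 100) (29 / 100) z)⟩ + ψ30 x y := by
  unfold g30m
  rw [E.val, gL_val, e30_val]
  simp only [E.val, v0, v1, tL_val]
  norm_num

theorem g45m_val {x y z w : ℝ} : g45m.val [x, y, z, w] =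
    V2 ⟨45 / 100, y⟩ ⟨z, w * (16 / 100 * tr 0 (65 / 100) (13 / 100) (29 / 100) z)⟩ -
      V2 ⟨x, y * tr 0 (8 / 10) (5 / 100) (5 / 100) x⟩
        ⟨z, w * (16 / 100 * tr 0 (65 / 100) (13 / 100) (29 / 100) z)⟩ + ψ45 x := by
  unfold g45m
  rw [E.val, gL_val, e45_val]
  simp only [E.val, v0, v1, tL_val]
  norm_num

theorem g30u_val {x y z w : ℝ} : g30u.val [x, y, z, w] =
    V2 ⟨3 / 10, y⟩ ⟨z, w * (16 / 100 * tr 0 (65 / 100) (13 / 100) (29 / 100) z)⟩ -
      V2 ⟨x, 16 / 100 * tr 0 (8 / 10) (5 / 100) (5 / 100) x⟩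
        ⟨z, w * (16 / 100 * tr 0 (65 / 100) (13 / 100) (29 / 100) z)⟩ +
      2 * Real.pi * (16 / 100 * tr 0 (8 / 10) (5 / 100) (5 / 100) x) + ψm x := by
  unfold g30u
  rw [E.val, E.val, gL_val, em_val, penL_val]
  simp only [E.val, v0, tL_val, E.c]
  norm_num

theorem g30d_val {x y z w : ℝ} : g30d.val [x, y, z, w] =
    V2 ⟨3 / 10, y⟩ ⟨z, w * (16 / 100 * tr 0 (65 / 100) (13 / 100) (29 / 100) z)⟩ -
      V2 ⟨x, -(16 / 100 * tr 0 (8 / 10) (5 / 100) (5 / 100) x)⟩
        ⟨z, w * (16 / 100 * tr 0 (65 / 100) (13 / 100) (29 / 100) z)⟩ +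
      2 * Real.pi * (16 / 100 * tr 0 (8 / 10) (5 / 100) (5 / 100) x) + ψm x := by
  unfold g30d
  rw [E.val, E.val, gL_val, em_val, penL_val]
  simp only [E.val, v0, tL_val, E.c]
  norm_num

end KE

namespace SR

variable {M : ℕ} {b : Fin (M + 1) → ℤ} {zs : DD (tyW b) ⊕ ZZ (tyW b) → ℂ}
variable {R : Finset (DD (tyW b))} {nb : Finset (DD (tyW b) ⊕ ZZ (tyW b))}
variable {z : DD (tyW b) ⊕ ZZ (tyW b) → ℂ} {p : DD (tyW b) → ℝ}
variable {h h' : Fin M} {i j j' : Fin (M + 1)} {s : Fin 3} {x c : ℝ}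

/-- the hinge in the slot `2` of an interior `3` -/
theorem NPos.w3 (hb : ClassW b) (hL : Loc b zs) (A' : Adj h' i 2 j') (hi : clsW b i = .three) {X : ℂ}
    (h0 : NPos b zs nb p h' i 2 X) : 0 ≤ X.re ∧ X.re ≤ 65 / 100 ∧
      |X.im| ≤ 16 / 100 * tr 0 (65 / 100) (13 / 100) (29 / 100) X.re := by
  have hT := Th_mem hb hL A' (by rw [hi]; decide)
  have hre := h0.re
  have ht := trh_ub (b := b) h' hre.1 hre.2
  rw [hi] at hT
  have hH : |Th b zs h' i| ≤ 16 / 100 := by
    rw [abs_le]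
    rcases hj : clsW b j' <;> rw [hj] at hT <;> simp only [hbox] at hT <;>
      constructor <;> linarith only [hT, hT.1, hT.2]
  cases A' with
  | l =>
    have hm : ∀ q, mhs b h' q = 16 / 100 := by
      intro q
      unfold mhs
      rw [hi, if_neg (fun h3 => absurd h3.1 (by decide)), if_neg (fun h3 => absurd h3.1 (by decide))]
    have h3 := h0.abs_im hH fun _ => ⟨(hm _).le, (hm _).le⟩
    unfold wXM wcl wcr at ht
    unfold wXM at hre
    rw [hi] at ht hre
    have key : 13 / 100 * trh b h' X.re ≤ X.re ∧ 29 / 100 * trh b h' X.re ≤ 65 / 100 - X.re ∧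
        X.re ≤ 65 / 100 := by
      rcases hj : clsW b h'.succ <;> rw [hj] at ht hre <;> simp only [hp] at ht hre <;>
        refine ⟨?_, ?_, ?_⟩ <;> linarith only [hre, ht, ht.1, ht.2.1, ht.2.2.1, ht.2.2.2, hre.1, hre.2]
    refine ⟨hre.1, key.2.2, h3.trans ?_⟩
    refine KE.le_tr (by norm_num) (by norm_num) ?_ ?_ ?_ (by norm_num)
    · linarith only [ht, ht.2.1]
    · linarith only [key, key.1]
    · linarith only [key, key.2.1]

/-- height of the inner variable of an interior `3` -/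
theorem Tm3_mem (hX : LocX b zs) (m : {i : Fin (M + 1) // (tyW b i).isMid = true})
    (A : Adj h m.1 0 j) (A' : Adj h' m.1 2 j') (hc : clsW b m.1 = .three) :
    -(123 / 1000) ≤ Tm b zs m ∧ Tm b zs m ≤ 5 / 1000 := by
  have h1 := hX.mid m.2 A A' hc
  obtain ⟨h2, h3, -, -⟩ := h1
  have e : ofs (b m.1) (zs (.inl (.inr ⟨m.1, m.2⟩))).im = Tm b zs m := rfl
  rw [e] at h2 h3
  rcases hj : clsW b j <;> rcases hk : clsW b j' <;> rw [hj, hk] at h2 h3 <;>
    simp only [mw] at h2 h3 <;> constructor <;> linarith only [h2, h3]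

theorem trm3 (m : {i : Fin (M + 1) // (tyW b i).isMid = true}) (hc : clsW b m.1 = .three) (y : ℝ) :
    trm b m y = tr 0 (8 / 10) (5 / 100) (5 / 100) y := by
  unfold trm
  rw [hc]
  rfl

theorem tgi_3 (m : {i : Fin (M + 1) // (tyW b i).isMid = true}) (hc : clsW b m.1 = .three)
    {y : ℝ} (h0 : 5 / 100 ≤ y) (h1 : y ≤ 75 / 100) : tgi b zs m y = ⟨y, Tm b zs m⟩ := by
  have h2 := trm3 m hc y
  unfold trm at h2
  unfold tgi
  rw [h2]
  have h3 : tr 0 (8 / 10) (5 / 100) (5 / 100) y = 1 := by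
    unfold tr
    rw [sub_zero, min_eq_left (le_min ((one_le_div (by norm_num)).2 h0)
      ((one_le_div (by norm_num)).2 (by linarith only [h1])))]
    norm_num
  rw [h3, mul_one]
  rfl

end SR

end Pool.Agent.Work.MP_b30479_gt.G2
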