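import Pool.Agent.Work.MP_b30479_gt.G2.WMR1

/-!
# Mirrored paths: from a cell to the statement `Two`, `One`
-/

namespace Pool.Agent.Work.MP_b30479_gt.G2

open VOL NumU

namespace KR

theorem Two.of (k : Cell) {XM cl cr T x y β y' β' : ℝ} (hc0 : 0 ≤ (k.c : ℝ) / 100)
    (hc1 : (k.c : ℝ) / 100 ≤ XM) (he : T * tr 0 XM cl cr ((k.c : ℝ) / 100) = k.e T)
    (ha : 16 / 100 * tr 0 XM cl cr x = k.a x)
    (h : 0 < gg ((k.c : ℝ) / 100) (-k.e T) x (-k.a x) y β + gg ((k.c : ℝ) / 100) (k.e T) x (k.a x) y' β' +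
      2 * Real.pi * k.a x) : Two XM cl cr T x y β y' β' := by
  refine ⟨(k.c : ℝ) / 100, hc0, hc1, ?_⟩
  rw [he, ha]
  exact h

theorem One.of (k : Cell) {XM cl cr T x y β : ℝ} (hc0 : 0 ≤ (k.c : ℝ) / 100)
    (hc1 : (k.c : ℝ) / 100 ≤ XM) (he : T * tr 0 XM cl cr ((k.c : ℝ) / 100) = k.e T)
    (ha : 16 / 100 * tr 0 XM cl cr x = k.a x)
    (h : 0 < g0 ((k.c : ℝ) / 100) (-k.e T) x (-k.a x) + gg ((k.c : ℝ) / 100) (k.e T) x (k.a x) y β +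
      2 * Real.pi * k.a x) : One XM cl cr T x y β := by
  refine ⟨(k.c : ℝ) / 100, hc0, hc1, ?_⟩
  rw [he, ha]
  exact h

end KR

end Pool.Agent.Work.MP_b30479_gt.G2
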