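import Pool.Agent.Work.MP_b30479_gt.G2.WM13H
import Pool.Agent.Work.MP_b30479_gt.G2.WM13X
import Pool.Agent.Work.MP_b30479_gt.G2.WMFar30
import Pool.Agent.Work.MP_b30479_gt.G2.WMGd
import Pool.Agent.Work.MP_b30479_gt.G2.WMGc
import Pool.Agent.Work.MP_b30479_gt.G2.WMMF
import Pool.Agent.Work.MP_b30479_gt.G2.WMR2

/-!
# The kind `1 | 3`, slot `0` of the `3`, middle of the path: values of the expressions and the
contradiction from a list of comparisons
-/

namespace Pool.Agent.Work.MP_b30479_gt.G2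

open Finset VOL Filter Topology

namespace M13

open NumG NumG.P13

/-! ### values -/

/-- height of the mirrored path in the three regions -/
noncomputable def hv : ℕ → ℝ → ℝ
  | 0, x => 50 / 13 * x
  | 1, _ => 1 / 2
  | _, x => 10 / 3 * (65 / 100 - x)

/-- slope of the mirrored path -/
noncomputable def sv : ℕ → ℝ
  | 0 => 50 / 13
  | 1 => 0
  | _ => -(10 / 3)

variable {x T y s : ℝ}

theorem v0 : (E.var 0).val [x, T, y, s] = x := rfl
theorem v1 : (E.var 1).val [x, T, y, s] = T := rfl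
theorem v2 : (E.var 2).val [x, T, y, s] = y := rfl
theorem v3 : (E.var 3).val [x, T, y, s] = s := rfl

theorem hh_val : ∀ r : ℕ, (hh r).val [x, T, y, s] = hv r x
  | 0 => by simp only [hh, hv, E.val, NumI.lkR_zero]; norm_num
  | 1 => by simp only [hh, hv, E.val]; norm_num
  | _ + 2 => by simp only [hh, hv, E.val, NumI.lkR_zero]; norm_num

theorem mm_val : ∀ r : ℕ, (mm r).val [x, T, y, s] = sv r
  | 0 => by simp only [mm, sv, E.val]; norm_num
  | 1 => by simp only [mm, sv, E.val]; norm_num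
  | _ + 2 => by simp only [mm, sv, E.val]; norm_num

theorem UU_neg_im (a t : ℝ) : UU ⟨a, -t⟩ = UU ⟨a, t⟩ := NumU.uu_neg a t

theorem dU_neg (a t m : ℝ) : G2.dU ⟨a, -t⟩ (-m) = G2.dU ⟨a, t⟩ m := by
  have e : (⟨a, -t⟩ : ℂ) = starRingEnd ℂ ⟨a, t⟩ := rfl
  unfold G2.dU
  rw [e, LL_conj, YY_conj]
  ring

theorem dUE_val {a t m : E} {xs : List ℝ} :
    (P13.dU a t m).val xs = G2.dU ⟨a.val xs, t.val xs⟩ (m.val xs) := D.dU_val

theorem f1z_val {h c tc k A : E} : (f1z h c tc k A).val [x, T, y, s] =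
    V1 ⟨c.val [x, T, y, s], tc.val [x, T, y, s]⟩ ⟨y, k.val [x, T, y, s]⟩ -
      V1 ⟨x, -h.val [x, T, y, s]⟩ ⟨y, k.val [x, T, y, s]⟩ +
      UU ⟨x, h.val [x, T, y, s]⟩ + A.val [x, T, y, s] := by
  unfold f1z V1
  rw [UU_neg_im]
  simp only [E.val, NumU.UU_uu, Complex.add_im, Complex.sub_im, Complex.mul_im, Complex.add_re]
  simp only [NumI.lkR_zero, NumI.lkR_succ]
  norm_num
  have e : k.val [x, T, y, s] - h.val [x, T, y, s] = -h.val [x, T, y, s] + k.val [x, T, y, s] := by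
    ring
  rw [e]
  ring

theorem f1o_val {h c tc A : E} : (f1o h c tc A).val [x, T, y, s] =
    V1 ⟨c.val [x, T, y, s], tc.val [x, T, y, s]⟩ ⟨1 - x, h.val [x, T, y, s]⟩ -
      V1 ⟨x, -h.val [x, T, y, s]⟩ ⟨1 - x, h.val [x, T, y, s]⟩ +
      UU ⟨x, h.val [x, T, y, s]⟩ + A.val [x, T, y, s] := by
  have e1 : UU (1 : ℂ) = 0 := by
    have h1 := UU_add_one 0
    have h2 := UU_one_sub 1
    rw [zero_add, Complex.zero_im, abs_zero, mul_zero, add_zero] at h1
    rw [sub_self] at h2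
    linarith only [h1, h2]
  unfold f1o V1
  rw [UU_neg_im]
  have e : (⟨x, -h.val [x, T, y, s]⟩ : ℂ) + ⟨1 - x, h.val [x, T, y, s]⟩ = 1 :=
    Complex.ext (by simp) (by simp)
  rw [e, e1]
  simp only [E.val, NumU.UU_uu, Complex.add_im, Complex.sub_im, Complex.mul_im, Complex.add_re]
  simp only [NumI.lkR_zero]
  norm_num
  have e2 : c.val [x, T, y, s] + 1 - x = c.val [x, T, y, s] + (1 - x) := by ring
  rw [e2]
  ring

theorem f1t_val {h m k : E} : (f1t h m k).val [x, T, y, s] =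
    dh1 ⟨x, -h.val [x, T, y, s]⟩ ⟨y, k.val [x, T, y, s]⟩ (-m.val [x, T, y, s]) -
      G2.dU ⟨x, -h.val [x, T, y, s]⟩ (-m.val [x, T, y, s]) := by
  unfold f1t dh1
  rw [dU_neg]
  have e : (⟨x, -h.val [x, T, y, s]⟩ : ℂ) + ⟨y, k.val [x, T, y, s]⟩ =
      ⟨(E.add (.var 0) (.var 2)).val [x, T, y, s], (E.sub k h).val [x, T, y, s]⟩ :=
    Complex.ext rfl (by show -_ + _ = _ - _; ring)
  rw [e]
  simp only [D.val, dUE_val]
  simp only [E.val, NumI.lkR_zero, NumI.lkR_succ]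
  norm_num
  ring

theorem f1s_val {h k : E} : (f1s h k).val [x, T, y, s] =
    dh1 ⟨x, -h.val [x, T, y, s]⟩ ⟨y, k.val [x, T, y, s]⟩ (-0) -
      G2.dU ⟨x, -h.val [x, T, y, s]⟩ (-0) := by
  unfold f1s dh1
  rw [dU_neg]
  have e : (⟨x, -h.val [x, T, y, s]⟩ : ℂ) + ⟨y, k.val [x, T, y, s]⟩ =
      ⟨(E.add (.var 0) (.var 2)).val [x, T, y, s], (E.sub k h).val [x, T, y, s]⟩ :=
    Complex.ext rfl (by show -_ + _ = _ - _; ring)
  rw [e]
  unfold G2.dU
  simp only [D.val, LL_lnA_all]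
  simp only [E.val, NumI.lkR_zero, NumI.lkR_succ]
  norm_num
  ring

theorem g3k_val {h c tc l A : E} : (g3k h c tc l A).val [x, T, y, s] =
    KE.VA ⟨c.val [x, T, y, s], -tc.val [x, T, y, s]⟩ ⟨y, l.val [x, T, y, s]⟩ -
      KE.VA ⟨x, h.val [x, T, y, s]⟩ ⟨y, l.val [x, T, y, s]⟩ -
      UU ⟨x, h.val [x, T, y, s]⟩ + 2 * Real.pi * h.val [x, T, y, s] - A.val [x, T, y, s] := by
  unfold g3k KE.VA
  rw [UU_neg_im]
  simp only [E.val, NumU.UU_uu, Complex.sub_im, Complex.mul_im, Complex.sub_re, sub_neg_eq_add]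
  simp only [NumI.lkR_zero, NumI.lkR_succ]
  norm_num
  ring

theorem g3r_val {h c tc l far A : E} : (g3r h c tc l far A).val [x, T, y, s] =
    KE.VF ⟨c.val [x, T, y, s], -tc.val [x, T, y, s]⟩ ⟨3 / 10, s⟩ -
      KE.VF ⟨x, h.val [x, T, y, s]⟩ ⟨y, l.val [x, T, y, s]⟩ + far.val [x, T, y, s] -
      UU ⟨x, h.val [x, T, y, s]⟩ + 2 * Real.pi * h.val [x, T, y, s] - A.val [x, T, y, s] := by
  unfold g3r KE.VF
  rw [UU_neg_im]
  simp only [E.val, NumU.UU_uu, Complex.sub_im, Complex.mul_im, Complex.sub_re, sub_neg_eq_add]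
  simp only [NumI.lkR_zero, NumI.lkR_succ]
  norm_num
  ring

theorem g3t_val {h m l : E} : (g3t h m l).val [x, T, y, s] =
    dh3a ⟨x, h.val [x, T, y, s]⟩ ⟨y, l.val [x, T, y, s]⟩ (m.val [x, T, y, s]) +
      G2.dU ⟨x, h.val [x, T, y, s]⟩ (m.val [x, T, y, s]) -
      2 * Real.pi * m.val [x, T, y, s] := by
  unfold g3t dh3a
  have e : (⟨y, l.val [x, T, y, s]⟩ : ℂ) - ⟨x, h.val [x, T, y, s]⟩ =
      ⟨(E.sub (.var 2) (.var 0)).val [x, T, y, s], (E.sub l h).val [x, T, y, s]⟩ := rfl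
  rw [e]
  simp only [D.val, dUE_val]
  simp only [E.val, NumI.lkR_zero, NumI.lkR_succ]
  norm_num
  ring

theorem g3s_val {h l : E} : (g3s h l).val [x, T, y, s] =
    dh3a ⟨x, h.val [x, T, y, s]⟩ ⟨y, l.val [x, T, y, s]⟩ 0 +
      G2.dU ⟨x, h.val [x, T, y, s]⟩ 0 - 2 * Real.pi * 0 := by
  unfold g3s dh3a
  have e : (⟨y, l.val [x, T, y, s]⟩ : ℂ) - ⟨x, h.val [x, T, y, s]⟩ =
      ⟨(E.sub (.var 2) (.var 0)).val [x, T, y, s], (E.sub l h).val [x, T, y, s]⟩ := rfl
  rw [e]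
  unfold G2.dU
  simp only [D.val, LL_lnA_all]
  simp only [E.val, NumI.lkR_zero, NumI.lkR_succ]
  norm_num
  ring

/-! ### items -/

/-- the target is admissible -/
def ok (i : It) : Bool := decide (0 ≤ i.c) && decide (i.c ≤ 5000)

/-- position, weight and price of a comparison -/
noncomputable def cR (i : It) : ℝ := (i.c : ℝ) / 10000
noncomputable def θR (i : It) : ℝ := (i.th : ℝ) / 10000
noncomputable def AR (i : It) (x T : ℝ) : ℝ :=
  (i.a0 : ℝ) / 10000 + (i.a1 : ℝ) / 100 * x + (i.a2 : ℝ) / 100 * T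

variable {i : It}

theorem cR_mem (h : ok i = true) : 0 ≤ cR i ∧ cR i ≤ 1 / 2 := by
  unfold ok at h
  rw [Bool.and_eq_true, decide_eq_true_eq, decide_eq_true_eq] at h
  unfold cR
  have h1 : (0 : ℝ) ≤ (i.c : ℝ) := by exact_mod_cast h.1
  have h2 : (i.c : ℝ) ≤ 5000 := by exact_mod_cast h.2
  constructor
  · positivity
  · linarith only [h2]

theorem c_val : i.cE.val [x, T, y, s] = cR i := by
  unfold It.cE cR
  simp only [E.val]
  norm_num

theorem A_val : i.A.val [x, T, y, s] = AR i x T := by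
  unfold It.A AR
  simp only [E.val, NumI.lkR_zero, NumI.lkR_succ]
  norm_num

theorem t_val (h : ok i = true) : i.tE.val [x, T, y, s] = T * τ (cR i) := by
  have hc := cR_mem h
  unfold It.tE
  split_ifs with h1
  · have h2 : (1300 : ℝ) ≤ (i.c : ℝ) := by exact_mod_cast h1
    rw [tau_flat (by unfold cR; linarith only [h2]) (by linarith only [hc, hc.2]), mul_one]
    rfl
  · have h2 : (i.c : ℝ) ≤ 1300 := by exact_mod_cast (not_le.1 h1).le
    rw [tau_left hc.1 (by unfold cR; linarith only [h2])]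
    simp only [E.val, NumI.lkR_zero, NumI.lkR_succ]
    unfold cR
    norm_num
    ring

/-- side of the `1` -/
noncomputable def fv (r : ℕ) (i : It) (x T : ℝ) (k : ℂ) : ℝ :=
  V1 (cm T (cR i)) k - V1 ⟨x, -hv r x⟩ k + UU ⟨x, hv r x⟩ + AR i x T +
    θR i * (dh1 ⟨x, -hv r x⟩ k (-sv r) - G2.dU ⟨x, -hv r x⟩ (-sv r))

theorem F1_val {r : ℕ} {k : E} (h : ok i = true) :
    (F1 r k i).val [x, T, y, s] = fv r i x T ⟨y, k.val [x, T, y, s]⟩ := by
  unfold F1 fv
  split_ifs with h1 h2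
  · rw [D.val, f1z_val, c_val, t_val h, hh_val, A_val]
    have e : θR i = 0 := by unfold θR; rw [h1]; norm_num
    rw [e, zero_mul, add_zero]
    rfl
  · subst h2
    rw [D.val, D.val, D.val, D.val, f1z_val, f1s_val, c_val, t_val h, hh_val, A_val]
    have e : (E.q i.th 10000).val [x, T, y, s] = θR i := by
      unfold θR; simp only [E.val]; norm_num
    rw [e]
    rfl
  · rw [D.val, D.val, D.val, D.val, f1z_val, f1t_val, c_val, t_val h, hh_val, A_val, mm_val]
    have e : (E.q i.th 10000).val [x, T, y, s] = θR i := by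
      unfold θR; simp only [E.val]; norm_num
    rw [e]
    rfl

theorem F1o_val {r : ℕ} (h : ok i = true) (h0 : i.th = 0) :
    (D.of (F1o r i)).val [x, T, y, s] = fv r i x T ⟨1 - x, hv r x⟩ := by
  unfold F1o fv
  rw [D.val, f1o_val, c_val, t_val h, hh_val, A_val]
  have e : θR i = 0 := by unfold θR; rw [h0]; norm_num
  rw [e, zero_mul, add_zero]
  rfl

/-- gain of the `3`, `f` the gain in the other slot when the inner variable is moved -/
noncomputable def gz (i : It) (h x T Tl f : ℝ) (l : ℂ) : ℝ :=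
  if i.mv then KE.VF (cp T (cR i)) ⟨3 / 10, Tl⟩ - KE.VF ⟨x, h⟩ l + f else
    KE.VA (cp T (cR i)) l - KE.VA ⟨x, h⟩ l

/-- side of the `3` -/
noncomputable def gv (r : ℕ) (i : It) (x T Tl f : ℝ) (l : ℂ) : ℝ :=
  gz i (hv r x) x T Tl f l - UU ⟨x, hv r x⟩ + 2 * Real.pi * hv r x - AR i x T +
    θR i * (dh3a ⟨x, hv r x⟩ l (sv r) + G2.dU ⟨x, hv r x⟩ (sv r) - 2 * Real.pi * sv r)

theorem G3z_val {r : ℕ} {l far : E} (h : ok i = true) : (G3z r l far i).val [x, T, y, s] =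
    gz i (hv r x) x T s (far.val [x, T, y, s]) ⟨y, l.val [x, T, y, s]⟩ - UU ⟨x, hv r x⟩ +
      2 * Real.pi * hv r x - AR i x T := by
  unfold G3z gz
  split_ifs with h1
  · rw [g3r_val, c_val, t_val h, hh_val, A_val]
    rfl
  · rw [g3k_val, c_val, t_val h, hh_val, A_val]
    rfl

theorem G3_val {r : ℕ} {l far : E} (h : ok i = true) :
    (G3 r l far i).val [x, T, y, s] =
      gv r i x T s (far.val [x, T, y, s]) ⟨y, l.val [x, T, y, s]⟩ := by
  unfold G3 gv
  split_ifs with h1 h2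
  · rw [D.val, G3z_val h]
    have e : θR i = 0 := by unfold θR; rw [h1]; norm_num
    rw [e, zero_mul, add_zero]
  · subst h2
    rw [D.val, D.val, D.val, D.val, G3z_val h, g3s_val, hh_val]
    have e : (E.q i.th 10000).val [x, T, y, s] = θR i := by
      unfold θR; simp only [E.val]; norm_num
    rw [e]
    rfl
  · rw [D.val, D.val, D.val, D.val, G3z_val h, g3t_val, hh_val, mm_val]
    have e : (E.q i.th 10000).val [x, T, y, s] = θR i := by
      unfold θR; simp only [E.val]; norm_num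
    rw [e]

/-! ### the contradiction -/

variable {Tl pl f : ℝ} {k l w : ℂ}

/-- a comparison which is positive on both sides -/
theorem H.core (h : H x T Tl pl k l w) {r : ℕ} (hi : ok i = true)
    (hr : 1 / 2 * τ x = hv r x)
    (hf : f ≤ G2.V2 ⟨3 / 10, Tl⟩ w - G2.V2 l w + 2 * Real.pi * pl)
    (hθ : i.th = 0 ∨ θR i * (dh1 (um x) k (-sv r) + dh3a (up x) l (sv r) -
      2 * Real.pi * sv r) ≤ 0)
    (h1 : 0 < fv r i x T k) (h3 : 0 < gv r i x T Tl f l) : False := by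
  have hc := cR_mem hi
  have hθ' : θR i * (dh1 (um x) k (-sv r) + dh3a (up x) l (sv r) - 2 * Real.pi * sv r) ≤ 0 := by
    rcases hθ with h0 | h0
    · have e : θR i = 0 := by unfold θR; rw [h0]; norm_num
      rw [e, zero_mul]
    · exact h0
  have eu : (⟨x, -hv r x⟩ : ℂ) = um x := by rw [← hr]; rfl
  have ep : (⟨x, hv r x⟩ : ℂ) = up x := by rw [← hr]; rfl
  have ed : G2.dU (um x) (-sv r) = G2.dU (up x) (sv r) := dU_neg _ _ _
  unfold fv at h1
  unfold gv at h3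
  rw [eu, ep, ed] at h1
  rw [ep, ← hr] at h3
  have key : V1 (cm T (cR i)) k - V1 (um x) k + gz i (1 / 2 * τ x) x T Tl f l +
      2 * Real.pi * (1 / 2 * τ x) ≤ 0 := by
    unfold gz
    have ep' : (⟨x, 1 / 2 * τ x⟩ : ℂ) = up x := rfl
    rw [ep']
    split_ifs with hm
    · have h5 := h.resp (cR i) (3 / 10) hc.1 (by linarith only [hc]) (by norm_num) (by norm_num)
      have e3 : li Tl (3 / 10) = ⟨3 / 10, Tl⟩ := by
        unfold li τl tr
        norm_num
      rw [e3, KE.V3_VF, KE.V3_VF] at h5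
      linarith only [hf, h5]
    · have h5 := h.keep (cR i) hc.1 (by linarith only [hc])
      rw [KE.V3_VA] at h5
      linarith only [h5]
  linarith only [h1, h3, hθ', key]

theorem ex1 (h : ∃ e ∈ [exU, exD], 0 < e.val [x, T, y, s]) (h0 : -(45 / 1000) ≤ s + T)
    (h1 : s + T ≤ 84 / 1000) : False := by
  obtain ⟨e, he, hp⟩ := h
  rw [List.mem_cons, List.mem_singleton] at he
  rcases he with rfl | rfl
  · unfold exU at hp
    simp only [D.val, E.val, NumI.lkR_zero, NumI.lkR_succ] at hp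
    norm_num at hp
    linarith only [h1, hp]
  · unfold exD at hp
    simp only [D.val, E.val, NumI.lkR_zero, NumI.lkR_succ] at hp
    norm_num at hp
    linarith only [h0, hp]

/-- position of the inner variable in terms of the expressions, gain in the other slot -/
structure LT (lx far : E) (x T Tl pl : ℝ) (l w : ℂ) : Prop where
  hl : l.im = lx.val [x, T, l.re, Tl]
  hf : far.val [x, T, l.re, Tl] ≤ G2.V2 ⟨3 / 10, Tl⟩ w - G2.V2 l w + 2 * Real.pi * pl

theorem pl_val (y0 : ℤ) (L : List (ℤ × ℤ × ℕ)) :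
    (E.pl (.var 2) y0 L).val [x, T, y, s] = plR y y0 L := E.pl_val _ _ _ _

theorem t8_val : (E.tr 800 50 50 (.var 2)).val [x, T, y, s] = τl y := by
  unfold τl
  rw [E.tr_val (by norm_num) (by norm_num) (by norm_num), v2]
  norm_num

theorem lM_val : lM.val [x, T, y, s] = s * τl y := by
  unfold lM
  rw [E.val, t8_val, v3]

theorem lU_val : P13.lU.val [x, T, y, s] = 16 / 100 * τl y := by
  unfold P13.lU
  rw [E.val, t8_val]
  norm_num [E.val]

theorem lD_val : lD.val [x, T, y, s] = -(16 / 100 * τl y) := by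
  unfold lD
  rw [E.val, E.val, t8_val]
  norm_num [E.val]

theorem farM_val : farM.val [x, T, y, s] = plR y 120 F3.fa - s * plR y 2600 F3.fb := by
  unfold farM
  rw [E.val, E.val, pl_val, pl_val, v3]
  rfl

theorem farU_val : farU.val [x, T, y, s] = plR y 120 F3.fu - s * plR y 2600 F3.fv := by
  unfold farU
  rw [E.val, E.val, pl_val, pl_val, v3]
  rfl

theorem farD_val : farD.val [x, T, y, s] = plR y 120 F3.fd - s * (24 / 10) := by
  unfold farD
  rw [E.val, E.val, pl_val, v3]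
  have e : (E.q 24 10).val [x, T, y, s] = 24 / 10 := by norm_num [E.val]
  rw [e]
  rfl

theorem H.ltM (h : H x T Tl pl k l w) (h1 : l.im = Tl * τl l.re) (h2 : pl = 0) :
    LT lM farM x T Tl pl l w := by
  refine ⟨by rw [lM_val]; exact h1, ?_⟩
  rw [farM_val, h2]
  have h3 := F3.far_main h.w0 h.w1 h.w2 (T := Tl) (by linarith only [h, h.t0]) h.t1 h.l0 h.l1
  have e : l = ⟨l.re, Tl * tr 0 (8 / 10) (5 / 100) (5 / 100) l.re⟩ := Complex.ext rfl h1
  rw [← e] at h3
  linarith only [h3]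

theorem H.ltU (h : H x T Tl pl k l w) (h0 : Tl ≤ 0) (h1 : l.im = 16 / 100 * τl l.re)
    (h2 : pl = 16 / 100 * τl l.re) : LT P13.lU farU x T Tl pl l w := by
  refine ⟨by rw [lU_val]; exact h1, ?_⟩
  rw [farU_val, h2]
  have h3 := F3.far_up h.w0 h.w1 h.w2 (T := Tl) (by linarith only [h, h.t0]) h0 h.l0 h.l1
  have e : l = ⟨l.re, 16 / 100 * tr 0 (8 / 10) (5 / 100) (5 / 100) l.re⟩ := Complex.ext rfl h1
  rw [← e] at h3
  unfold τl
  linarith only [h3]

theorem H.ltD (h : H x T Tl pl k l w) (h0 : 0 ≤ Tl) (h1 : l.im = -(16 / 100 * τl l.re))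
    (h2 : pl = 16 / 100 * τl l.re) : LT lD farD x T Tl pl l w := by
  refine ⟨by rw [lD_val]; exact h1, ?_⟩
  rw [farD_val, h2]
  have h3 := F3.far_down h.w0 h.w1 h.w2 (T := Tl) h0 h.t1 h.l0 h.l1
  have e : l = ⟨l.re, -(16 / 100 * tr 0 (8 / 10) (5 / 100) (5 / 100) l.re)⟩ :=
    Complex.ext rfl h1
  rw [← e] at h3
  unfold τl
  linarith only [h3]

/-- the slope condition -/
noncomputable def Dv (r : ℕ) (x : ℝ) (k l : ℂ) : ℝ :=
  dh1 (um x) k (-sv r) + dh3a (up x) l (sv r) - 2 * Real.pi * sv r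

/-- a list of comparisons -/
theorem H.grp (h : H x T Tl pl k l w) {r : ℕ} {its : List It} {kx lx far : E} {κ : ℝ}
    (ho : its.all ok = true) (hr : 1 / 2 * τ x = hv r x) (hk : k.im = kx.val [x, T, k.re, κ])
    (hl : LT lx far x T Tl pl l w) (hθ : ∀ i ∈ its, i.th = 0 ∨ θR i * Dv r x k l ≤ 0)
    (R1 : ∃ e ∈ its.map (F1 r kx), 0 < e.val [x, T, k.re, κ])
    (R3 : ∀ i ∈ its, ∃ e ∈ [G3 r lx far i, exU, exD], 0 < e.val [x, T, l.re, Tl]) : False := by
  obtain ⟨e, he, hp⟩ := R1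
  obtain ⟨i, hi, rfl⟩ := List.mem_map.1 he
  have oi : ok i = true := List.all_eq_true.1 ho i hi
  rw [F1_val oi, ← hk] at hp
  obtain ⟨e', he', hp'⟩ := R3 i hi
  rw [List.mem_cons] at he'
  rcases he' with rfl | he'
  · rw [G3_val oi, ← hl.hl] at hp'
    exact h.core oi hr hl.hf (hθ i hi) hp hp'
  · exact ex1 ⟨e', he', hp'⟩ h.s0 h.s1

/-- the other hinge at the singular point -/
theorem H.grpo (h : H x T Tl pl k l w) {r : ℕ} {lx far : E} (oi : ok i = true) (h0 : i.th = 0)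
    (hr : 1 / 2 * τ x = hv r x) (hk : um x + k = 1) (hl : LT lx far x T Tl pl l w)
    (R1 : ∃ e ∈ [D.of (F1o r i)], 0 < e.val [x, T, 0, 0])
    (R3 : ∃ e ∈ [G3 r lx far i, exU, exD], 0 < e.val [x, T, l.re, Tl]) : False := by
  obtain ⟨e, he, hp⟩ := R1
  rw [List.mem_singleton] at he
  subst he
  rw [F1o_val oi h0] at hp
  have ek : (⟨1 - x, hv r x⟩ : ℂ) = k := by
    have h1 : k = 1 - um x := by rw [← hk]; ring
    rw [h1, ← hr]
    apply Complex.ext
    · rw [Complex.sub_re]; rfl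
    · rw [Complex.sub_im]
      show _ = 0 - -(1 / 2 * τ x)
      ring
  rw [ek] at hp
  obtain ⟨e', he', hp'⟩ := R3
  rw [List.mem_cons] at he'
  rcases he' with rfl | he'
  · rw [G3_val oi, ← hl.hl] at hp'
    exact h.core oi hr hl.hf (Or.inl h0) hp hp'
  · exact ex1 ⟨e', he', hp'⟩ h.s0 h.s1

theorem th_zero {its : List It} {c : ℝ} (h : (its.all fun i => decide (i.th = 0)) = true) :
    ∀ i ∈ its, i.th = 0 ∨ θR i * c ≤ 0 := fun i hi =>
  Or.inl (of_decide_eq_true (List.all_eq_true.1 h i hi))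

theorem th_nonneg {its : List It} {c : ℝ} (hc : c ≤ 0)
    (h : (its.all fun i => decide (0 ≤ i.th)) = true) :
    ∀ i ∈ its, i.th = 0 ∨ θR i * c ≤ 0 := by
  intro i hi
  have h1 : 0 ≤ i.th := of_decide_eq_true (List.all_eq_true.1 h i hi)
  have h2 : (0 : ℝ) ≤ (i.th : ℝ) := by exact_mod_cast h1
  right
  refine mul_nonpos_of_nonneg_of_nonpos ?_ hc
  unfold θR
  positivity

theorem th_all {its : List It} {c : ℝ} (hc : c = 0) : ∀ i ∈ its, i.th = 0 ∨ θR i * c ≤ 0 := by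
  intro i _
  right
  rw [hc, mul_zero]

/-! ### positions of the other hinge -/

theorem kG_val : kG.val [x, T, y, s] = 16 / 100 * s * tr 0 (86 / 100) (15 / 100) (20 / 100) y := by
  unfold kG
  rw [E.val, E.val, E.tr_val (by norm_num) (by norm_num) (by norm_num), v2, v3]
  norm_num [E.val]

theorem kW_val : kW.val [x, T, y, s] = 16 / 100 * s * tr 0 (86 / 100) (14 / 100) (20 / 100) y := by
  unfold kW
  rw [E.val, E.val, E.tr_val (by norm_num) (by norm_num) (by norm_num), v2, v3]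
  norm_num [E.val]

theorem kM_val : kM.val [x, T, y, s] = s * tr 0 (70 / 100) (14 / 100) (35 / 100) y := by
  unfold kM
  rw [E.val, E.tr_val (by norm_num) (by norm_num) (by norm_num), v2, v3]
  norm_num

theorem kU_val : kU.val [x, T, y, s] = 16 / 100 * tr 0 (70 / 100) (14 / 100) (35 / 100) y := by
  unfold kU
  rw [E.val, E.tr_val (by norm_num) (by norm_num) (by norm_num), v2]
  norm_num [E.val]

/-- all positions, wide ramp -/
theorem H.kW (h : H x T Tl pl k l w) : 21 / 1000 ≤ T ∧ T ≤ 1145 / 10000 ∧ 0 ≤ k.re ∧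
    k.re ≤ 86 / 100 ∧ ∃ κ : ℝ, -1 ≤ κ ∧ κ ≤ 1 ∧ k.im = P13.kW.val [x, T, k.re, κ] := by
  have key : ∀ {c : ℝ}, 0 ≤ k.re → k.re ≤ 86 / 100 → |k.im| ≤ 16 / 100 * c →
      c ≤ tr 0 (86 / 100) (14 / 100) (20 / 100) k.re →
      ∃ κ : ℝ, -1 ≤ κ ∧ κ ≤ 1 ∧ k.im = P13.kW.val [x, T, k.re, κ] := by
    intro c _ _ h1 h2
    obtain ⟨κ, a, b, e⟩ := KE.par_abs (h1.trans (mul_le_mul_of_nonneg_left h2 (by norm_num)))
    refine ⟨κ, a, b, ?_⟩
    rw [kW_val, e]
    ring
  have wide : ∀ {XM cl cr : ℝ}, 0 < cl → 0 < cr → 0 ≤ k.re → k.re ≤ XM → 14 / 100 ≤ cl →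
      (∀ y, 0 ≤ y → y ≤ XM → (XM - y) / cr ≤ (86 / 100 - y) / (20 / 100)) →
      tr 0 XM cl cr k.re ≤ tr 0 (86 / 100) (14 / 100) (20 / 100) k.re := by
    intro XM cl cr c0 c1 k0 k1 c2 c3
    unfold tr
    refine max_le_max le_rfl (min_le_min le_rfl (min_le_min ?_ (c3 _ k0 k1)))
    rw [sub_zero]
    exact div_le_div_of_nonneg_left k0 (by norm_num) c2
  cases h.kp with
  | one a b c d e =>
    refine ⟨a, by linarith only [b], c, d, key c d e (wide (by norm_num) (by norm_num) c d (by norm_num) ?_)⟩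
    intro y _ _
    rfl
  | two a b c d e =>
    refine ⟨by linarith only [a], by linarith only [b], c, by linarith only [d], key c (by linarith only [d]) e
      (wide (by norm_num) (by norm_num) c d (by norm_num) ?_)⟩
    intro y y0 y1
    rw [div_le_div_iff₀ (by norm_num) (by norm_num)]
    linarith only [y1]
  | em a b c d e =>
    obtain ⟨s, s0, s1, e⟩ := e
    refine ⟨by linarith only [a], b, c, by linarith only [d], key (c := tr 0 (70 / 100) (14 / 100) (35 / 100) k.re)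
      c (by linarith only [d]) ?_ (wide (by norm_num) (by norm_num) c d (by norm_num) ?_)⟩
    · have h1 := (tr_mem (70 / 100) (14 / 100) (35 / 100) k.re).1
      rw [e, abs_mul, abs_of_nonneg h1]
      refine mul_le_mul_of_nonneg_right ?_ h1
      rw [abs_of_nonpos s1]
      linarith only [s0]
    · intro y y0 y1
      rw [div_le_div_iff₀ (by norm_num) (by norm_num)]
      linarith only [y1]
  | eu a b c d e =>
    refine ⟨by linarith only [a], b, c, by linarith only [d], key (c := tr 0 (70 / 100) (14 / 100) (35 / 100) k.re)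
      c (by linarith only [d]) ?_ (wide (by norm_num) (by norm_num) c d (by norm_num) ?_)⟩
    · have h1 := (tr_mem (70 / 100) (14 / 100) (35 / 100) k.re).1
      rw [e, abs_of_nonneg (by positivity)]
    · intro y y0 y1
      rw [div_le_div_iff₀ (by norm_num) (by norm_num)]
      linarith only [y1]

/-- the other neighbour is not at an end -/
structure KG (x T : ℝ) (k : ℂ) (κ : ℝ) : Prop where
  T0 : 21 / 1000 ≤ T
  T1 : T ≤ 94 / 1000
  k0 : 0 ≤ k.re
  k1 : k.re ≤ 86 / 100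
  q0 : -1 ≤ κ
  q1 : κ ≤ 1
  hk : k.im = P13.kG.val [x, T, k.re, κ]

/-- the other neighbour is a `2` at an end, main path -/
structure KM (x T : ℝ) (k : ℂ) (κ : ℝ) : Prop where
  T0 : 87 / 1000 ≤ T
  T1 : T ≤ 1145 / 10000
  k0 : 0 ≤ k.re
  k1 : k.re ≤ 70 / 100
  q0 : -(45 / 1000) ≤ κ
  q1 : κ ≤ 0
  hk : k.im = P13.kM.val [x, T, k.re, κ]

/-- the other neighbour is a `2` at an end, mirrored path -/
structure KU (x T : ℝ) (k : ℂ) (κ : ℝ) : Prop where
  T0 : 87 / 1000 ≤ T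
  T1 : T ≤ 1145 / 10000
  k0 : 0 ≤ k.re
  k1 : k.re ≤ 70 / 100
  q : κ = 0
  hk : k.im = P13.kU.val [x, T, k.re, κ]

/-- the three families -/
theorem H.kcases (h : H x T Tl pl k l w) :
    ∃ κ : ℝ, KG x T k κ ∨ KM x T k κ ∨ KU x T k κ := by
  cases h.kp with
  | one a b c d e =>
    obtain ⟨κ, p, q, e⟩ := KE.par_abs e
    refine ⟨κ, Or.inl ⟨a, by linarith only [b], c, d, p, q, ?_⟩⟩
    rw [kG_val, e]
    ring
  | two a b c d e =>
    have e2 : 16 / 100 * tr 0 (80 / 100) (16 / 100) (29 / 100) k.re ≤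
        16 / 100 * tr 0 (86 / 100) (15 / 100) (20 / 100) k.re := by
      refine mul_le_mul_of_nonneg_left ?_ (by norm_num)
      unfold tr
      refine max_le_max le_rfl (min_le_min le_rfl (min_le_min ?_ ?_))
      · rw [sub_zero]
        exact div_le_div_of_nonneg_left c (by norm_num) (by norm_num)
      · rw [div_le_div_iff₀ (by norm_num) (by norm_num)]
        linarith only [d]
    obtain ⟨κ, p, q, e⟩ := KE.par_abs (e.trans e2)
    refine ⟨κ, Or.inl ⟨by linarith only [a], b, c, by linarith only [d], p, q, ?_⟩⟩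
    rw [kG_val, e]
    ring
  | em a b c d e =>
    obtain ⟨s, s0, s1, e⟩ := e
    refine ⟨s, Or.inr (Or.inl ⟨a, b, c, d, s0, s1, ?_⟩)⟩
    rw [kM_val, e]
  | eu a b c d e =>
    refine ⟨0, Or.inr (Or.inr ⟨a, b, c, d, rfl, ?_⟩)⟩
    rw [kU_val, e]

/-- all positions of the other hinge -/
structure KW (x T : ℝ) (k : ℂ) (κ : ℝ) : Prop where
  T0 : 21 / 1000 ≤ T
  T1 : T ≤ 1145 / 10000
  k0 : 0 ≤ k.re
  k1 : k.re ≤ 86 / 100
  q0 : -1 ≤ κ
  q1 : κ ≤ 1
  hk : k.im = P13.kW.val [x, T, k.re, κ]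

theorem hv2 : hv 2 x = 10 / 3 * (65 / 100 - x) := rfl

theorem tl_nonneg (y : ℝ) : 0 ≤ τl y := (tr_mem (8 / 10) (5 / 100) (5 / 100) y).1
theorem tl_one (y : ℝ) : τl y ≤ 1 := (tr_mem (8 / 10) (5 / 100) (5 / 100) y).2

theorem tl_le {y : ℝ} (h : Tl ≤ 5 / 1000) : Tl * τl y ≤ 5 / 1000 := by
  have h1 := tl_nonneg y
  have h2 := tl_one y
  nlinarith only [h2, h, h1]

theorem H.kabs (h : H x T Tl pl k l w) : |k.im| ≤ 16 / 100 := by
  have key : ∀ {XM cl cr : ℝ}, 16 / 100 * tr 0 XM cl cr k.re ≤ 16 / 100 := by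
    intro XM cl cr
    have := (tr_mem XM cl cr k.re).2
    linarith only [this]
  cases h.kp with
  | one _ _ _ _ e => exact e.trans key
  | two _ _ _ _ e => exact e.trans key
  | em _ _ _ _ e =>
    obtain ⟨s, s0, s1, e⟩ := e
    have h1 := tr_mem (70 / 100) (14 / 100) (35 / 100) k.re
    rw [e, abs_mul, abs_of_nonneg h1.1, abs_of_nonpos s1]
    nlinarith only [h1, s0, h1.1, h1.2]
  | eu _ _ _ _ e =>
    have h1 := (tr_mem (70 / 100) (14 / 100) (35 / 100) k.re).1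
    rw [e, abs_of_nonneg (by positivity)]
    exact key

end M13

end Pool.Agent.Work.MP_b30479_gt.G2
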