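import Pool.Agent.Work.MP_b30479_gt.G2.WM13X

/-!
# The kind `1 | 3`, slot `0` of the `3`, middle of the path: rows 6
-/

namespace Pool.Agent.Work.NumG.P13

theorem l_a4_0m0 : chkD [G3 2 lM farM i_a4_0, exU, exD] 100000 0 0 0 9000 40 50000 56000 2100 11450 0 80000 0 9500 370729585777911467883902880870130154819662278623462232086287210557965667396377618627392935486844964910158510391986820859820469659882561667753871956278272754828620232589128148381779348680236666149472509953392955127378721109361571856194220827203183986465774337072085048078970497061949400656155122432338701083602735891078839921312783330451954136602597963452087487729494065836202875081015036212823993910789802074391433697876388062074542985145315004730949075913587595578657992932305932504640553348883211456557125967010919885943189363694893498696546126537379994467903328604922581102334787369754318724885111092749088013164408544823373848618499585880618887142510587035538145501830972623619692930412437018012674136893756109564847320104020456727231340696420815239356245805463931960033852490860688450673972713297923881187318317996793841622238853717830986057706098683265554504936451570034831484307978276742454893292394475037512591146583722789223966723272132587766329967580041439156047101974352175557194731329339703454595028475737824857149987614583685605019293681734883803330629300446006066737789304351290487242880 = true := by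
  decide +kernel

theorem l_a4_0u1 : chkD [G3 2 lU farU i_a4_0, exU, exD] 100000 0 0 0 9000 40 50000 56000 2100 11450 0 80000 0 9000 42278905943611370688965643638747217336604440580939314343173596354735626583564294761449965879505561968918156245238395405484539642180317276618445209815538739010883096930037124417586725006746766949161550173147823788396957529700141059578250609146619851125003106119988280052056837431475525244990409080595783439239985429665149631951348138442861270807594598712768782154671602838401299206911589790752971281767855948934412129625279535346710800359260953826277233986237973976714142652108843113754570487703159687857409676571483268597599265805734071575687347178320566157404980888345615870851527998788347635687889132149138971544741580992205035260971657206314336384 = true := by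
  decide +kernel

theorem l_a4_0d2 : chkD [G3 2 lD farD i_a4_0, exU, exD] 100000 0 0 0 9000 40 50000 56000 2100 11450 0 80000 9000 9500 511933624388054724391023278409632763416808127278311116376300768752011873856527236047859370260695241437733912257186443480790285527983993547389450417105510459400460554835746173926103746870957375925714695117387749077346152199086547035783296 = true := by
  decide +kernel

end Pool.Agent.Work.NumG.P13
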