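import Pool.Agent.Work.MP_b30479_gt.G2.WM13U
import Pool.Agent.Work.MP_b30479_gt.G2.WM13Y1
import Pool.Agent.Work.MP_b30479_gt.G2.WM13Y2
import Pool.Agent.Work.MP_b30479_gt.G2.WM13Y3
import Pool.Agent.Work.MP_b30479_gt.G2.WM13Y4
import Pool.Agent.Work.MP_b30479_gt.G2.WM13Y5
import Pool.Agent.Work.MP_b30479_gt.G2.WM13Y6

/-!
# The kind `1 | 3`, slot `0` of the `3`: the middle of the path, first part
-/

namespace Pool.Agent.Work.MP_b30479_gt.G2

open Finset VOL Filter Topology

namespace M13

open NumG NumG.P13

variable {x T Tl pl κ : ℝ} {k l w : ℂ}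

theorem a1_W_m (h : H x T Tl pl k l w) (x0 : 3 / 100 ≤ x) (x1 : x ≤ 6 / 100) (K : KW x T k κ)
    (hr : 1 / 2 * τ x = hv 0 x)
    (hl : LT lM farM x T Tl pl l w) : False := by
  have l0 := h.l0
  have l1 := h.l1
  have t0 := h.t0
  have t1 := h.t1
  have T0 := K.T0
  have T1 := K.T1
  have k0 := K.k0
  have k1 := K.k1
  have q0 := K.q0
  have q1 := K.q1
  refine h.grp (its := g_a1) (κ := κ) rfl hr K.hk hl (th_zero rfl) (chkD4 k_a1_W (by norm_num)
    (by push_cast; linarith only [x0]) (by push_cast; linarith only [x1]) (by push_cast; linarith only [T0]) (by push_cast; linarith only [T1])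
    (by push_cast; linarith only [k0]) (by push_cast; linarith only [k1]) (by push_cast; linarith only [q0]) (by push_cast; linarith only [q1])) ?_
  intro i hi
  simp only [g_a1, List.mem_cons, List.not_mem_nil, or_false] at hi
  rcases hi with rfl | rfl
  · exact chkD4 l_a1_0m0 (by norm_num)
      (by push_cast; linarith only [x0]) (by push_cast; linarith only [x1]) (by push_cast; linarith only [T0]) (by push_cast; linarith only [T1])
      (by push_cast; linarith only [l0]) (by push_cast; linarith only [l1]) (by push_cast; linarith only [t0]) (by push_cast; linarith only [t1])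
  · exact chkD4 l_a1_1m0 (by norm_num)
      (by push_cast; linarith only [x0]) (by push_cast; linarith only [x1]) (by push_cast; linarith only [T0]) (by push_cast; linarith only [T1])
      (by push_cast; linarith only [l0]) (by push_cast; linarith only [l1]) (by push_cast; linarith only [t0]) (by push_cast; linarith only [t1])

theorem a1_W_u (h : H x T Tl pl k l w) (x0 : 3 / 100 ≤ x) (x1 : x ≤ 6 / 100) (K : KW x T k κ)
    (hr : 1 / 2 * τ x = hv 0 x) (hT : Tl ≤ 0)
    (hl : LT P13.lU farU x T Tl pl l w) : False := by
  have l0 := h.l0
  have l1 := h.l1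
  have t0 := h.t0
  have t1 := h.t1
  have T0 := K.T0
  have T1 := K.T1
  have k0 := K.k0
  have k1 := K.k1
  have q0 := K.q0
  have q1 := K.q1
  refine h.grp (its := g_a1) (κ := κ) rfl hr K.hk hl (th_zero rfl) (chkD4 k_a1_W (by norm_num)
    (by push_cast; linarith only [x0]) (by push_cast; linarith only [x1]) (by push_cast; linarith only [T0]) (by push_cast; linarith only [T1])
    (by push_cast; linarith only [k0]) (by push_cast; linarith only [k1]) (by push_cast; linarith only [q0]) (by push_cast; linarith only [q1])) ?_
  intro i hi
  simp only [g_a1, List.mem_cons, List.not_mem_nil, or_false] at hi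
  rcases hi with rfl | rfl
  · exact chkD4 l_a1_0u1 (by norm_num)
      (by push_cast; linarith only [x0]) (by push_cast; linarith only [x1]) (by push_cast; linarith only [T0]) (by push_cast; linarith only [T1])
      (by push_cast; linarith only [l0]) (by push_cast; linarith only [l1]) (by push_cast; linarith only [t0]) (by push_cast; linarith only [hT])
  · exact chkD4 l_a1_1u1 (by norm_num)
      (by push_cast; linarith only [x0]) (by push_cast; linarith only [x1]) (by push_cast; linarith only [T0]) (by push_cast; linarith only [T1])
      (by push_cast; linarith only [l0]) (by push_cast; linarith only [l1]) (by push_cast; linarith only [t0]) (by push_cast; linarith only [hT])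

theorem a1_W_d (h : H x T Tl pl k l w) (x0 : 3 / 100 ≤ x) (x1 : x ≤ 6 / 100) (K : KW x T k κ)
    (hr : 1 / 2 * τ x = hv 0 x) (hT : 0 ≤ Tl)
    (hl : LT lD farD x T Tl pl l w) : False := by
  have l0 := h.l0
  have l1 := h.l1
  have t0 := h.t0
  have t1 := h.t1
  have T0 := K.T0
  have T1 := K.T1
  have k0 := K.k0
  have k1 := K.k1
  have q0 := K.q0
  have q1 := K.q1
  refine h.grp (its := g_a1) (κ := κ) rfl hr K.hk hl (th_zero rfl) (chkD4 k_a1_W (by norm_num)
    (by push_cast; linarith only [x0]) (by push_cast; linarith only [x1]) (by push_cast; linarith only [T0]) (by push_cast; linarith only [T1])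
    (by push_cast; linarith only [k0]) (by push_cast; linarith only [k1]) (by push_cast; linarith only [q0]) (by push_cast; linarith only [q1])) ?_
  intro i hi
  simp only [g_a1, List.mem_cons, List.not_mem_nil, or_false] at hi
  rcases hi with rfl | rfl
  · exact chkD4 l_a1_0d2 (by norm_num)
      (by push_cast; linarith only [x0]) (by push_cast; linarith only [x1]) (by push_cast; linarith only [T0]) (by push_cast; linarith only [T1])
      (by push_cast; linarith only [l0]) (by push_cast; linarith only [l1]) (by push_cast; linarith only [hT]) (by push_cast; linarith only [t1])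
  · exact chkD4 l_a1_1d2 (by norm_num)
      (by push_cast; linarith only [x0]) (by push_cast; linarith only [x1]) (by push_cast; linarith only [T0]) (by push_cast; linarith only [T1])
      (by push_cast; linarith only [l0]) (by push_cast; linarith only [l1]) (by push_cast; linarith only [hT]) (by push_cast; linarith only [t1])

theorem a2_W_m (h : H x T Tl pl k l w) (x0 : 6 / 100 ≤ x) (x1 : x ≤ 13 / 100) (K : KW x T k κ)
    (hr : 1 / 2 * τ x = hv 0 x)
    (hl : LT lM farM x T Tl pl l w) : False := by
  have l0 := h.l0
  have l1 := h.l1
  have t0 := h.t0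
  have t1 := h.t1
  have T0 := K.T0
  have T1 := K.T1
  have k0 := K.k0
  have k1 := K.k1
  have q0 := K.q0
  have q1 := K.q1
  refine h.grp (its := g_a2) (κ := κ) rfl hr K.hk hl (th_zero rfl) (chkD4 k_a2_W (by norm_num)
    (by push_cast; linarith only [x0]) (by push_cast; linarith only [x1]) (by push_cast; linarith only [T0]) (by push_cast; linarith only [T1])
    (by push_cast; linarith only [k0]) (by push_cast; linarith only [k1]) (by push_cast; linarith only [q0]) (by push_cast; linarith only [q1])) ?_
  intro i hi
  simp only [g_a2, List.mem_cons, List.not_mem_nil, or_false] at hi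
  subst hi
  exact chkD4 l_a2_0m0 (by norm_num)
      (by push_cast; linarith only [x0]) (by push_cast; linarith only [x1]) (by push_cast; linarith only [T0]) (by push_cast; linarith only [T1])
      (by push_cast; linarith only [l0]) (by push_cast; linarith only [l1]) (by push_cast; linarith only [t0]) (by push_cast; linarith only [t1])

theorem a2_W_u (h : H x T Tl pl k l w) (x0 : 6 / 100 ≤ x) (x1 : x ≤ 13 / 100) (K : KW x T k κ)
    (hr : 1 / 2 * τ x = hv 0 x) (hT : Tl ≤ 0)
    (hl : LT P13.lU farU x T Tl pl l w) : False := by
  have l0 := h.l0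
  have l1 := h.l1
  have t0 := h.t0
  have t1 := h.t1
  have T0 := K.T0
  have T1 := K.T1
  have k0 := K.k0
  have k1 := K.k1
  have q0 := K.q0
  have q1 := K.q1
  refine h.grp (its := g_a2) (κ := κ) rfl hr K.hk hl (th_zero rfl) (chkD4 k_a2_W (by norm_num)
    (by push_cast; linarith only [x0]) (by push_cast; linarith only [x1]) (by push_cast; linarith only [T0]) (by push_cast; linarith only [T1])
    (by push_cast; linarith only [k0]) (by push_cast; linarith only [k1]) (by push_cast; linarith only [q0]) (by push_cast; linarith only [q1])) ?_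
  intro i hi
  simp only [g_a2, List.mem_cons, List.not_mem_nil, or_false] at hi
  subst hi
  exact chkD4 l_a2_0u1 (by norm_num)
      (by push_cast; linarith only [x0]) (by push_cast; linarith only [x1]) (by push_cast; linarith only [T0]) (by push_cast; linarith only [T1])
      (by push_cast; linarith only [l0]) (by push_cast; linarith only [l1]) (by push_cast; linarith only [t0]) (by push_cast; linarith only [hT])

theorem a2_W_d (h : H x T Tl pl k l w) (x0 : 6 / 100 ≤ x) (x1 : x ≤ 13 / 100) (K : KW x T k κ)
    (hr : 1 / 2 * τ x = hv 0 x) (hT : 0 ≤ Tl)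
    (hl : LT lD farD x T Tl pl l w) : False := by
  have l0 := h.l0
  have l1 := h.l1
  have t0 := h.t0
  have t1 := h.t1
  have T0 := K.T0
  have T1 := K.T1
  have k0 := K.k0
  have k1 := K.k1
  have q0 := K.q0
  have q1 := K.q1
  refine h.grp (its := g_a2) (κ := κ) rfl hr K.hk hl (th_zero rfl) (chkD4 k_a2_W (by norm_num)
    (by push_cast; linarith only [x0]) (by push_cast; linarith only [x1]) (by push_cast; linarith only [T0]) (by push_cast; linarith only [T1])
    (by push_cast; linarith only [k0]) (by push_cast; linarith only [k1]) (by push_cast; linarith only [q0]) (by push_cast; linarith only [q1])) ?_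
  intro i hi
  simp only [g_a2, List.mem_cons, List.not_mem_nil, or_false] at hi
  subst hi
  exact chkD4 l_a2_0d2 (by norm_num)
      (by push_cast; linarith only [x0]) (by push_cast; linarith only [x1]) (by push_cast; linarith only [T0]) (by push_cast; linarith only [T1])
      (by push_cast; linarith only [l0]) (by push_cast; linarith only [l1]) (by push_cast; linarith only [hT]) (by push_cast; linarith only [t1])

theorem a3_W_m (h : H x T Tl pl k l w) (x0 : 13 / 100 ≤ x) (x1 : x ≤ 50 / 100) (K : KW x T k κ)
    (hr : 1 / 2 * τ x = hv 1 x) (hD : Dv 1 x k l ≤ 0)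
    (hl : LT lM farM x T Tl pl l w) : False := by
  have l0 := h.l0
  have l1 := h.l1
  have t0 := h.t0
  have t1 := h.t1
  have T0 := K.T0
  have T1 := K.T1
  have k0 := K.k0
  have k1 := K.k1
  have q0 := K.q0
  have q1 := K.q1
  refine h.grp (its := g_a3) (κ := κ) rfl hr K.hk hl (th_nonneg hD rfl) (chkD4 k_a3_W (by norm_num)
    (by push_cast; linarith only [x0]) (by push_cast; linarith only [x1]) (by push_cast; linarith only [T0]) (by push_cast; linarith only [T1])
    (by push_cast; linarith only [k0]) (by push_cast; linarith only [k1]) (by push_cast; linarith only [q0]) (by push_cast; linarith only [q1])) ?_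
  intro i hi
  simp only [g_a3, List.mem_cons, List.not_mem_nil, or_false] at hi
  subst hi
  exact chkD4 l_a3_0m0 (by norm_num)
      (by push_cast; linarith only [x0]) (by push_cast; linarith only [x1]) (by push_cast; linarith only [T0]) (by push_cast; linarith only [T1])
      (by push_cast; linarith only [l0]) (by push_cast; linarith only [l1]) (by push_cast; linarith only [t0]) (by push_cast; linarith only [t1])

theorem a3_W_u (h : H x T Tl pl k l w) (x0 : 13 / 100 ≤ x) (x1 : x ≤ 50 / 100) (K : KW x T k κ)
    (hr : 1 / 2 * τ x = hv 1 x) (hD : Dv 1 x k l ≤ 0) (hT : Tl ≤ 0)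
    (hl : LT P13.lU farU x T Tl pl l w) : False := by
  have l0 := h.l0
  have l1 := h.l1
  have t0 := h.t0
  have t1 := h.t1
  have T0 := K.T0
  have T1 := K.T1
  have k0 := K.k0
  have k1 := K.k1
  have q0 := K.q0
  have q1 := K.q1
  refine h.grp (its := g_a3) (κ := κ) rfl hr K.hk hl (th_nonneg hD rfl) (chkD4 k_a3_W (by norm_num)
    (by push_cast; linarith only [x0]) (by push_cast; linarith only [x1]) (by push_cast; linarith only [T0]) (by push_cast; linarith only [T1])
    (by push_cast; linarith only [k0]) (by push_cast; linarith only [k1]) (by push_cast; linarith only [q0]) (by push_cast; linarith only [q1])) ?_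
  intro i hi
  simp only [g_a3, List.mem_cons, List.not_mem_nil, or_false] at hi
  subst hi
  exact chkD4 l_a3_0u1 (by norm_num)
      (by push_cast; linarith only [x0]) (by push_cast; linarith only [x1]) (by push_cast; linarith only [T0]) (by push_cast; linarith only [T1])
      (by push_cast; linarith only [l0]) (by push_cast; linarith only [l1]) (by push_cast; linarith only [t0]) (by push_cast; linarith only [hT])

theorem a3_W_d (h : H x T Tl pl k l w) (x0 : 13 / 100 ≤ x) (x1 : x ≤ 50 / 100) (K : KW x T k κ)
    (hr : 1 / 2 * τ x = hv 1 x) (hD : Dv 1 x k l ≤ 0) (hT : 0 ≤ Tl)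
    (hl : LT lD farD x T Tl pl l w) : False := by
  have l0 := h.l0
  have l1 := h.l1
  have t0 := h.t0
  have t1 := h.t1
  have T0 := K.T0
  have T1 := K.T1
  have k0 := K.k0
  have k1 := K.k1
  have q0 := K.q0
  have q1 := K.q1
  refine h.grp (its := g_a3) (κ := κ) rfl hr K.hk hl (th_nonneg hD rfl) (chkD4 k_a3_W (by norm_num)
    (by push_cast; linarith only [x0]) (by push_cast; linarith only [x1]) (by push_cast; linarith only [T0]) (by push_cast; linarith only [T1])
    (by push_cast; linarith only [k0]) (by push_cast; linarith only [k1]) (by push_cast; linarith only [q0]) (by push_cast; linarith only [q1])) ?_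
  intro i hi
  simp only [g_a3, List.mem_cons, List.not_mem_nil, or_false] at hi
  subst hi
  exact chkD4 l_a3_0d2 (by norm_num)
      (by push_cast; linarith only [x0]) (by push_cast; linarith only [x1]) (by push_cast; linarith only [T0]) (by push_cast; linarith only [T1])
      (by push_cast; linarith only [l0]) (by push_cast; linarith only [l1]) (by push_cast; linarith only [hT]) (by push_cast; linarith only [t1])

theorem a4_W_m (h : H x T Tl pl k l w) (x0 : 50 / 100 ≤ x) (x1 : x ≤ 56 / 100) (K : KW x T k κ)
    (hr : 1 / 2 * τ x = hv 2 x) (hD : Dv 2 x k l ≤ 0)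
    (hl : LT lM farM x T Tl pl l w) : False := by
  have l0 := h.l0
  have l1 := h.l1
  have t0 := h.t0
  have t1 := h.t1
  have T0 := K.T0
  have T1 := K.T1
  have k0 := K.k0
  have k1 := K.k1
  have q0 := K.q0
  have q1 := K.q1
  refine h.grp (its := g_a4) (κ := κ) rfl hr K.hk hl (th_nonneg hD rfl) (chkD4 k_a4_W (by norm_num)
    (by push_cast; linarith only [x0]) (by push_cast; linarith only [x1]) (by push_cast; linarith only [T0]) (by push_cast; linarith only [T1])
    (by push_cast; linarith only [k0]) (by push_cast; linarith only [k1]) (by push_cast; linarith only [q0]) (by push_cast; linarith only [q1])) ?_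
  intro i hi
  simp only [g_a4, List.mem_cons, List.not_mem_nil, or_false] at hi
  subst hi
  exact chkD4 l_a4_0m0 (by norm_num)
      (by push_cast; linarith only [x0]) (by push_cast; linarith only [x1]) (by push_cast; linarith only [T0]) (by push_cast; linarith only [T1])
      (by push_cast; linarith only [l0]) (by push_cast; linarith only [l1]) (by push_cast; linarith only [t0]) (by push_cast; linarith only [t1])

theorem a4_W_u (h : H x T Tl pl k l w) (x0 : 50 / 100 ≤ x) (x1 : x ≤ 56 / 100) (K : KW x T k κ)
    (hr : 1 / 2 * τ x = hv 2 x) (hD : Dv 2 x k l ≤ 0) (hT : Tl ≤ 0)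
    (hl : LT P13.lU farU x T Tl pl l w) : False := by
  have l0 := h.l0
  have l1 := h.l1
  have t0 := h.t0
  have t1 := h.t1
  have T0 := K.T0
  have T1 := K.T1
  have k0 := K.k0
  have k1 := K.k1
  have q0 := K.q0
  have q1 := K.q1
  refine h.grp (its := g_a4) (κ := κ) rfl hr K.hk hl (th_nonneg hD rfl) (chkD4 k_a4_W (by norm_num)
    (by push_cast; linarith only [x0]) (by push_cast; linarith only [x1]) (by push_cast; linarith only [T0]) (by push_cast; linarith only [T1])
    (by push_cast; linarith only [k0]) (by push_cast; linarith only [k1]) (by push_cast; linarith only [q0]) (by push_cast; linarith only [q1])) ?_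
  intro i hi
  simp only [g_a4, List.mem_cons, List.not_mem_nil, or_false] at hi
  subst hi
  exact chkD4 l_a4_0u1 (by norm_num)
      (by push_cast; linarith only [x0]) (by push_cast; linarith only [x1]) (by push_cast; linarith only [T0]) (by push_cast; linarith only [T1])
      (by push_cast; linarith only [l0]) (by push_cast; linarith only [l1]) (by push_cast; linarith only [t0]) (by push_cast; linarith only [hT])

theorem a4_W_d (h : H x T Tl pl k l w) (x0 : 50 / 100 ≤ x) (x1 : x ≤ 56 / 100) (K : KW x T k κ)
    (hr : 1 / 2 * τ x = hv 2 x) (hD : Dv 2 x k l ≤ 0) (hT : 0 ≤ Tl)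
    (hl : LT lD farD x T Tl pl l w) : False := by
  have l0 := h.l0
  have l1 := h.l1
  have t0 := h.t0
  have t1 := h.t1
  have T0 := K.T0
  have T1 := K.T1
  have k0 := K.k0
  have k1 := K.k1
  have q0 := K.q0
  have q1 := K.q1
  refine h.grp (its := g_a4) (κ := κ) rfl hr K.hk hl (th_nonneg hD rfl) (chkD4 k_a4_W (by norm_num)
    (by push_cast; linarith only [x0]) (by push_cast; linarith only [x1]) (by push_cast; linarith only [T0]) (by push_cast; linarith only [T1])
    (by push_cast; linarith only [k0]) (by push_cast; linarith only [k1]) (by push_cast; linarith only [q0]) (by push_cast; linarith only [q1])) ?_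
  intro i hi
  simp only [g_a4, List.mem_cons, List.not_mem_nil, or_false] at hi
  subst hi
  exact chkD4 l_a4_0d2 (by norm_num)
      (by push_cast; linarith only [x0]) (by push_cast; linarith only [x1]) (by push_cast; linarith only [T0]) (by push_cast; linarith only [T1])
      (by push_cast; linarith only [l0]) (by push_cast; linarith only [l1]) (by push_cast; linarith only [hT]) (by push_cast; linarith only [t1])

end M13

end Pool.Agent.Work.MP_b30479_gt.G2
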