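import Pool.Agent.Work.NumU.GenX
import Pool.Agent.Work.NumU.GenD

/-!
# Far table for a hinge in slot `0` of a `2` with the target `3/10`: expressions and rows
-/

namespace Pool.Agent.Work.NumG.F3

open MP_b30479_gt MP_b30479_gt.G2 MP_b30479_gt.VOL
open NumU (uu)

/-- height of the ramp of the hinge, in three parts -/
def tri : ℕ → E
  | 0 => .mul (.q 20 1) (.var 0)
  | 1 => .q 1 1
  | _ => .sub (.q 16 1) (.mul (.q 20 1) (.var 0))

/-- bound of the other hinge, in three parts -/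
def kE : ℕ → E
  | 0 => .mul (.q 16 13) (.var 2)
  | 1 => .q 16 100
  | _ => .sub (.q 104 290) (.mul (.q 16 29) (.var 2))

def kk (j : ℕ) : E := .mul (.var 3) (kE j)
def tm (i : ℕ) : E := .mul (.var 1) (tri i)
def lin (a : ℤ) (b : ℕ) (c : ℤ) (d : ℕ) : E := .add (.q a b) (.mul (.q c d) (.var 0))

/-- main -/
def gM (i j : ℕ) (f g : E) : E :=
  .sub (E.dV2 (.q 3 10) (.var 1) (.var 0) (tm i) (.var 2) (kk j)) (.sub f (.mul (.var 1) g))
def tU (i : ℕ) : E := .mul (.q 16 100) (tri i)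
/-- mode up -/
def gU (i j : ℕ) (f g : E) : E :=
  .sub (.add (E.dV2 (.q 3 10) (.var 1) (.var 0) (tU i) (.var 2) (kk j))
    (.mul .pi (.mul (.q 32 100) (tri i)))) (.sub f (.mul (.var 1) g))
/-- mode down -/
def gD (i j : ℕ) (f g : E) : E :=
  .sub (.add (E.dV2 (.q 3 10) (.var 1) (.var 0) (.neg (tU i)) (.var 2) (kk j))
    (.mul .pi (.mul (.q 32 100) (tri i)))) (.sub f (.mul (.var 1) g))
def ab (a : E) : E := .add (.relu a) (.relu (.neg a))
/-- lower bound of the difference near `y = 0`; `X` is an upper bound of `uw (y + a) (t + k)` -/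
def dL (t k X : E) : E :=
  .sub (.add (.sub (.uw (.add (.q 3 10) (.var 2)) (.add (.var 1) k)) X)
    (.sub (.neg (.add (.mul .pi (ab t)) (.q 17 10000))) (.mul (.q 2 1) (.uw (.q 3 10) (.var 1)))))
    (.mul .pi (.add (.sub (.mul (.sub (.q 3 10) (.var 2)) (.sub (.var 1) k))
      (.mul (.sub (.var 0) (.var 2)) (.sub t k))) (.mul (.q 1 2) (.sub (.var 1) t))))
def X1 (t k : E) : E := .uw (.add (.var 0) (.var 2)) (.add t k)
def X2 (t k : E) : E :=
  .sub (.mul (.q 162 100) (.add (.var 0) (.var 2))) (.mul (.mul (.q 1 2) .pi) (ab (.add t k)))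
def zM (j : ℕ) (X : E → E → E) (f g : E) : E :=
  .sub (dL (tm 0) (kk j) (X (tm 0) (kk j))) (.sub f (.mul (.var 1) g))
def zU (j : ℕ) (X : E → E → E) (f g : E) : E :=
  .sub (.add (dL (tU 0) (kk j) (X (tU 0) (kk j))) (.mul .pi (.mul (.q 32 100) (tri 0))))
    (.sub f (.mul (.var 1) g))
def zD (j : ℕ) (X : E → E → E) (f g : E) : E :=
  .sub (.add (dL (.neg (tU 0)) (kk j) (X (.neg (tU 0)) (kk j)))
    (.mul .pi (.mul (.q 32 100) (tri 0)))) (.sub f (.mul (.var 1) g))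
/-- horizontal derivative -/
def H (j : ℕ) : D :=
  .sub (.sub (.xw (.add (.var 0) (.var 2)) (.add (.var 1) (kk j)))
    (.of (.mul .pi (.sub (.var 1) (kk j))))) (.mul (.of (.q 2 1)) (.xw (.var 0) (.var 1)))
def H2 (j : ℕ) : D :=
  .sub (.of (.sub (.add (.q 6932 10000) (.mul (.q 1 2) (.sq (.mul .pi (.add (.var 1) (kk j))))))
    (.mul .pi (.sub (.var 1) (kk j))))) (.mul (.of (.q 2 1)) (.xw (.var 0) (.var 1)))
def sl (a : ℤ) (b : ℕ) (c : ℤ) (d : ℕ) : D := .of (.add (.q a b) (.mul (.q c d) (.var 1)))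
def hL (j : ℕ) (s : D) : D := .add (H j) s
def hR (j : ℕ) (s : D) : D := .sub s (H j)
def hR2 (j : ℕ) (s : D) : D := .sub s (H2 j)

/-! ### values -/

/-- the variable of the hinge in slot `2` -/
def Wd (a s : ℝ) : Prop := 0 ≤ a ∧ a ≤ 65 / 100 ∧
  |s| ≤ 16 / 100 * MP_b30479_gt.G2.tr 0 (65 / 100) (13 / 100) (29 / 100) a

theorem trR {a : ℝ} (h0 : 0 ≤ a) (h1 : a ≤ 65 / 100) :
    MP_b30479_gt.G2.tr 0 (65 / 100) (13 / 100) (29 / 100) a =
      if a ≤ 13 / 100 then a / (13 / 100) else if a ≤ 36 / 100 then 1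
        else (65 / 100 - a) / (29 / 100) := by
  unfold MP_b30479_gt.G2.tr
  rw [sub_zero]
  split_ifs with h2 h3
  · have e1 : a / (13 / 100) ≤ 1 := by rw [div_le_one (by norm_num)]; exact h2
    have e2 : 1 ≤ (65 / 100 - a) / (29 / 100) := by rw [le_div_iff₀ (by norm_num)]; linarith only [h2]
    have e3 : 0 ≤ a / (13 / 100) := by positivity
    rw [min_eq_left (a := a / (13 / 100)) (by linarith only [h2]), min_eq_right e1, max_eq_right e3]
  · have e1 : 1 ≤ a / (13 / 100) := by rw [le_div_iff₀ (by norm_num)]; linarith only [h2]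
    have e2 : 1 ≤ (65 / 100 - a) / (29 / 100) := by rw [le_div_iff₀ (by norm_num)]; linarith only [h3]
    rw [min_eq_left (le_min e1 e2), max_eq_right zero_le_one]
  · have e1 : 1 ≤ a / (13 / 100) := by rw [le_div_iff₀ (by norm_num)]; linarith only [h3]
    have e2 : (65 / 100 - a) / (29 / 100) ≤ 1 := by rw [div_le_one (by norm_num)]; linarith only [h3]
    have e3 : 0 ≤ (65 / 100 - a) / (29 / 100) := div_nonneg (by linarith only [h1]) (by norm_num)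
    rw [min_eq_right (a := a / (13 / 100)) (by linarith only [h3]), min_eq_right e2, max_eq_right e3]

/-- ramp of the moved hinge -/
noncomputable def rr (y : ℝ) : ℝ := MP_b30479_gt.G2.tr 0 (8 / 10) (5 / 100) (5 / 100) y

theorem rr_val {y : ℝ} (h0 : 0 ≤ y) (h1 : y ≤ 8 / 10) :
    rr y = if y ≤ 5 / 100 then 20 * y else if y ≤ 75 / 100 then 1 else 16 - 20 * y := by
  unfold rr MP_b30479_gt.G2.tr
  rw [sub_zero]
  split_ifs with h2 h3
  · have e1 : y / (5 / 100) ≤ 1 := by rw [div_le_one (by norm_num)]; exact h2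
    have e2 : 1 ≤ (8 / 10 - y) / (5 / 100) := by rw [le_div_iff₀ (by norm_num)]; linarith only [h2]
    have e3 : 0 ≤ y / (5 / 100) := by positivity
    rw [min_eq_left (a := y / (5 / 100)) (by linarith only [h2]), min_eq_right e1, max_eq_right e3]
    ring
  · have e1 : 1 ≤ y / (5 / 100) := by rw [le_div_iff₀ (by norm_num)]; linarith only [h2]
    have e2 : 1 ≤ (8 / 10 - y) / (5 / 100) := by rw [le_div_iff₀ (by norm_num)]; linarith only [h3]
    rw [min_eq_left (le_min e1 e2), max_eq_right zero_le_one]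
  · have e1 : 1 ≤ y / (5 / 100) := by rw [le_div_iff₀ (by norm_num)]; linarith only [h1, h3]
    have e2 : (8 / 10 - y) / (5 / 100) ≤ 1 := by rw [div_le_one (by norm_num)]; linarith only [h3]
    have e3 : 0 ≤ (8 / 10 - y) / (5 / 100) := div_nonneg (by linarith only [h1]) (by norm_num)
    rw [min_eq_right (a := y / (5 / 100)) (by linarith only [h1, h3]), min_eq_right e2, max_eq_right e3]
    ring

/-- the part of a position of the other hinge -/
theorem part {a s : ℝ} (h : Wd a s) : ∃ j : ℕ, ∃ σ : ℝ, -1 ≤ σ ∧ σ ≤ 1 ∧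
    ((j = 0 ∧ a ≤ 13 / 100) ∨ (j = 1 ∧ 13 / 100 ≤ a ∧ a ≤ 36 / 100) ∨ (j = 2 ∧ 36 / 100 ≤ a)) ∧
    ∀ y T : ℝ, (kk j).val [y, T, a, σ] = s := by
  obtain ⟨h0, h1, h2⟩ := h
  have key : ∀ c : ℝ, 0 ≤ c → |s| ≤ c → ∃ σ : ℝ, -1 ≤ σ ∧ σ ≤ 1 ∧ σ * c = s := by
    intro c hc hs
    rcases eq_or_lt_of_le hc with rfl | hc
    · refine ⟨0, by norm_num, by norm_num, ?_⟩
      rw [mul_zero]
      exact (abs_nonpos_iff.1 hs).symm
    · obtain ⟨s1, s2⟩ := abs_le.1 hs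
      refine ⟨s / c, ?_, ?_, ?_⟩
      · rw [le_div_iff₀ hc]; linarith only [s1]
      · rw [div_le_one hc]; exact s2
      · field_simp
  rw [trR h0 h1] at h2
  split_ifs at h2 with h3 h4
  · obtain ⟨σ, a1, a2, a3⟩ := key _ (by positivity) h2
    refine ⟨0, σ, a1, a2, Or.inl ⟨rfl, h3⟩, fun y T => ?_⟩
    rw [← a3]
    change σ * (((16 : ℤ) : ℝ) / ((13 : ℕ) : ℝ) * a) = _
    push_cast
    ring
  · obtain ⟨σ, a1, a2, a3⟩ := key _ (by norm_num) h2
    refine ⟨1, σ, a1, a2, Or.inr (Or.inl ⟨rfl, by linarith only [h3], h4⟩), fun y T => ?_⟩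
    rw [← a3]
    change σ * (((16 : ℤ) : ℝ) / ((100 : ℕ) : ℝ)) = _
    push_cast
    ring
  · obtain ⟨σ, a1, a2, a3⟩ := key _ (mul_nonneg (by norm_num) (div_nonneg (by linarith only [h1])
      (by norm_num))) h2
    refine ⟨2, σ, a1, a2, Or.inr (Or.inr ⟨rfl, by linarith only [h4]⟩), fun y T => ?_⟩
    rw [← a3]
    change σ * (((104 : ℤ) : ℝ) / ((290 : ℕ) : ℝ) - ((16 : ℤ) : ℝ) / ((29 : ℕ) : ℝ) * a) = _
    push_cast
    ring

/-- the intervals of `y` on which `tri i` is the ramp -/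
def Kd (i lo hi : ℕ) : Prop := (i = 0 ∧ hi ≤ 500) ∨ (i = 1 ∧ 500 ≤ lo ∧ hi ≤ 7500) ∨
  (i = 2 ∧ 7500 ≤ lo ∧ hi ≤ 8000)

instance (i lo hi : ℕ) : Decidable (Kd i lo hi) := by unfold Kd; infer_instance

theorem tri_val {i lo hi : ℕ} (h : Kd i lo hi) {y T a σ : ℝ} (h1 : (lo : ℝ) / 10000 ≤ y)
    (h2 : y ≤ (hi : ℝ) / 10000) : (tri i).val [y, T, a, σ] = rr y := by
  have hlo : (0 : ℝ) ≤ lo := Nat.cast_nonneg _
  have h0 : 0 ≤ y := le_trans (by positivity) h1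
  have c1 : ∀ n : ℕ, n ≤ lo → (n : ℝ) / 10000 ≤ y := fun n hn =>
    le_trans (by gcongr) h1
  have c2 : ∀ n : ℕ, hi ≤ n → y ≤ (n : ℝ) / 10000 := fun n hn =>
    le_trans h2 (by gcongr)
  rcases h with ⟨rfl, h⟩ | ⟨rfl, h, h'⟩ | ⟨rfl, h, h'⟩
  · have c := c2 _ h
    push_cast at c
    rw [rr_val h0 (by linarith only [c]), if_pos (by linarith only [c])]
    change ((20 : ℤ) : ℝ) / ((1 : ℕ) : ℝ) * y = _
    push_cast
    ring
  · have c := c2 _ h'
    have c' := c1 _ h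
    push_cast at c c'
    rw [rr_val h0 (by linarith only [c])]
    change ((1 : ℤ) : ℝ) / ((1 : ℕ) : ℝ) = _
    split_ifs with h5 h6
    · have : y = 5 / 100 := by linarith only [c', h5]
      rw [this]; norm_num
    · norm_num
    · exact absurd (by linarith only [c, h6]) h6
  · have c := c2 _ h'
    have c' := c1 _ h
    push_cast at c c'
    rw [rr_val h0 (by linarith only [c])]
    change ((16 : ℤ) : ℝ) / ((1 : ℕ) : ℝ) - ((20 : ℤ) : ℝ) / ((1 : ℕ) : ℝ) * y = _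
    split_ifs with h5 h6
    · linarith only [c', h5]
    · have : y = 75 / 100 := by linarith only [c', h6]
      rw [this]; norm_num
    · push_cast
      ring

/-- difference of the values -/
noncomputable def dv (T y t a s : ℝ) : ℝ :=
  MP_b30479_gt.G2.V2 ⟨3 / 10, T⟩ ⟨a, s⟩ - MP_b30479_gt.G2.V2 ⟨y, t⟩ ⟨a, s⟩

/-- a row, main -/
def RM (lo hi : ℕ) (A B G D : ℝ) : Prop := ∀ y T a s : ℝ, (lo : ℝ) / 10000 ≤ y →
  y ≤ (hi : ℝ) / 10000 → -(123 / 1000) ≤ T → T ≤ 5 / 1000 → Wd a s →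
  A + B * y - T * (G + D * y) ≤ dv T y (T * rr y) a s
/-- a row, mode up -/
def RU (lo hi : ℕ) (A B G D : ℝ) : Prop := ∀ y T a s : ℝ, (lo : ℝ) / 10000 ≤ y →
  y ≤ (hi : ℝ) / 10000 → -(123 / 1000) ≤ T → T ≤ 0 → Wd a s →
  A + B * y - T * (G + D * y) ≤ dv T y (16 / 100 * rr y) a s + 2 * Real.pi * (16 / 100 * rr y)
/-- a row, mode down -/
def RD (lo hi : ℕ) (A B G D : ℝ) : Prop := ∀ y T a s : ℝ, (lo : ℝ) / 10000 ≤ y →
  y ≤ (hi : ℝ) / 10000 → 0 ≤ T → T ≤ 5 / 1000 → Wd a s →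
  A + B * y - T * (G + D * y) ≤ dv T y (-(16 / 100 * rr y)) a s + 2 * Real.pi * (16 / 100 * rr y)

theorem RM.append {lo mid hi : ℕ} {A B G D : ℝ} (h1 : RM lo mid A B G D) (h2 : RM mid hi A B G D) :
    RM lo hi A B G D := by
  intro y T a s y1 y2 t1 t2 hw
  rcases le_total y ((mid : ℝ) / 10000) with h | h
  · exact h1 y T a s y1 h t1 t2 hw
  · exact h2 y T a s h y2 t1 t2 hw

theorem RU.append {lo mid hi : ℕ} {A B G D : ℝ} (h1 : RU lo mid A B G D) (h2 : RU mid hi A B G D) :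
    RU lo hi A B G D := by
  intro y T a s y1 y2 t1 t2 hw
  rcases le_total y ((mid : ℝ) / 10000) with h | h
  · exact h1 y T a s y1 h t1 t2 hw
  · exact h2 y T a s h y2 t1 t2 hw

theorem RD.append {lo mid hi : ℕ} {A B G D : ℝ} (h1 : RD lo mid A B G D) (h2 : RD mid hi A B G D) :
    RD lo hi A B G D := by
  intro y T a s y1 y2 t1 t2 hw
  rcases le_total y ((mid : ℝ) / 10000) with h | h
  · exact h1 y T a s y1 h t1 t2 hw
  · exact h2 y T a s h y2 t1 t2 hw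

/-- box of the variables from the three checks -/
theorem three {α : Type} {P : ℝ → ℝ → ℝ → ℝ → ℕ → α → Prop} {es : ℕ → α} {y T a s : ℝ} (hw : Wd a s)
    (h0 : ∀ σ, -1 ≤ σ → σ ≤ 1 → a ≤ 13 / 100 → P y T a σ 0 (es 0))
    (h1 : ∀ σ, -1 ≤ σ → σ ≤ 1 → 13 / 100 ≤ a → a ≤ 36 / 100 → P y T a σ 1 (es 1))
    (h2 : ∀ σ, -1 ≤ σ → σ ≤ 1 → 36 / 100 ≤ a → P y T a σ 2 (es 2)) :
    ∃ j σ, -1 ≤ σ ∧ σ ≤ 1 ∧ P y T a σ j (es j) ∧ ∀ y T : ℝ, (kk j).val [y, T, a, σ] = s := by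
  obtain ⟨j, σ, s1, s2, hj, hk⟩ := part hw
  refine ⟨j, σ, s1, s2, ?_, hk⟩
  rcases hj with ⟨rfl, h⟩ | ⟨rfl, h, h'⟩ | ⟨rfl, h⟩
  · exact h0 σ s1 s2 h
  · exact h1 σ s1 s2 h h'
  · exact h2 σ s1 s2 h

theorem lin_val (a : ℤ) (b : ℕ) (c : ℤ) (d : ℕ) (y T u σ : ℝ) :
    (lin a b c d).val [y, T, u, σ] = (a : ℝ) / b + (c : ℝ) / d * y := rfl

end Pool.Agent.Work.NumG.F3
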