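import Pool.Agent.Work.MP_b30479_gt.G2.UAnti
import Pool.Agent.Work.MP_b30479_gt.G2.TRb
import Pool.Agent.Work.MP_b30479_gt.TB.Asym

/-!
# `UU` is convex in the real part on `[0, 1/2]`
-/

namespace Pool.Agent.Work.MP_b30479_gt.G2

open VOL NumU

namespace UC

theorem lnA_mono {x x' t t' : ℝ} (h0 : 0 < x) (h : x ≤ x') (h1 : x' ≤ 1 / 2) (ht : |t| ≤ |t'|) :
    NumI.lnA x t ≤ NumI.lnA x' t' := by
  have hp := Real.pi_pos
  have s0 : 0 < Real.sin (Real.pi * x) := by
    apply Real.sin_pos_of_pos_of_lt_pi <;> nlinarith only [h0, hp, h, h1]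
  have s1 : Real.sin (Real.pi * x) ≤ Real.sin (Real.pi * x') := by
    apply Real.sin_le_sin_of_le_of_le_pi_div_two <;> nlinarith only [hp, h0, h1, h]
  have s2 : Real.sinh (Real.pi * t) ^ 2 ≤ Real.sinh (Real.pi * t') ^ 2 := by
    rw [← sq_abs, ← sq_abs (Real.sinh (Real.pi * t')), Real.abs_sinh, Real.abs_sinh, abs_mul,
      abs_mul, abs_of_pos hp]
    apply pow_le_pow_left₀ (Real.sinh_nonneg_iff.2 (by positivity))
    exact Real.sinh_le_sinh.2 (by nlinarith only [h0, h, h1, ht, hp])
  unfold NumI.lnA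
  have h3 : 0 < 4 * (Real.sin (Real.pi * x) ^ 2 + Real.sinh (Real.pi * t) ^ 2) := by positivity
  have h4 : 4 * (Real.sin (Real.pi * x) ^ 2 + Real.sinh (Real.pi * t) ^ 2) ≤
      4 * (Real.sin (Real.pi * x') ^ 2 + Real.sinh (Real.pi * t') ^ 2) := by
    have := pow_le_pow_left₀ s0.le s1 2
    linarith only [s2, this]
  have := Real.log_le_log h3 h4
  linarith only [this]

theorem hasDeriv {x t : ℝ} (h0 : 0 < x) (h1 : x < 1) :
    HasDerivAt (fun z => uu z t) (NumI.lnA x t) x := by
  have h := uu_line (x := 0) (t := t) (a := 1) (b := 0) (τ := x) (by linarith only [h0]) (by linarith only [h1])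
  simp only [zero_add, mul_one, mul_zero, add_zero, one_mul, zero_mul, sub_zero] at h
  exact h

theorem continuous_uu (t : ℝ) : Continuous fun z => uu z t := by
  have : (fun z : ℝ => uu z t) = fun z : ℝ => UU ((z : ℂ) + t * Complex.I) := by
    funext z
    rw [UU_uu]
    simp
  rw [this]
  exact continuous_UU.comp (by fun_prop)

theorem convex (t : ℝ) : ConvexOn ℝ (Set.Icc 0 (1 / 2)) fun z => uu z t := by
  apply MonotoneOn.convexOn_of_deriv (convex_Icc _ _) (continuous_uu t).continuousOn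
  · rw [interior_Icc]
    intro z hz
    exact (hasDeriv hz.1 (by linarith only [hz, hz.2])).differentiableAt.differentiableWithinAt
  · rw [interior_Icc]
    intro a ha b hb hab
    rw [(hasDeriv ha.1 (by linarith only [ha, ha.2])).deriv, (hasDeriv hb.1 (by linarith only [hb, hb.2])).deriv]
    exact lnA_mono ha.1 hab hb.2.le le_rfl

/-- the tangent at `d` is below -/
theorem tangent {d p t : ℝ} (h0 : 0 < d) (h1 : d ≤ 1 / 2) (p0 : 0 ≤ p) (p1 : p ≤ 1 / 2) :
    uu d t + (p - d) * NumI.lnA d t ≤ uu p t := by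
  rcases lt_trichotomy p d with h | h | h
  · have := (convex t).slope_le_of_hasDerivAt ⟨p0, p1⟩ ⟨h0.le, h1⟩ h
      (hasDeriv (t := t) h0 (by linarith only [h0, h1]))
    rw [slope_def_field, div_le_iff₀ (by linarith only [h])] at this
    linarith only [this]
  · rw [h]
    linarith only []
  · have := (convex t).le_slope_of_hasDerivAt ⟨h0.le, h1⟩ ⟨p0, p1⟩ h
      (hasDeriv (t := t) h0 (by linarith only [h0, p1, h]))
    rw [slope_def_field, le_div_iff₀ (by linarith only [h])] at this
    linarith only [this]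

/-- the chord over `[0, d]` is above -/
theorem chord {d p t : ℝ} (h0 : 0 < d) (h1 : d ≤ 1 / 2) (p0 : 0 ≤ p) (p1 : p ≤ d) :
    uu p t ≤ p / d * uu d t - (1 - p / d) * (Real.pi / 2 * |t|) := by
  have hq : 0 ≤ p / d := by positivity
  have hq1 : p / d ≤ 1 := (div_le_one h0).2 p1
  have h := (convex t).2 (show (0 : ℝ) ∈ Set.Icc (0 : ℝ) (1 / 2) from ⟨le_rfl, by norm_num⟩)
    (show d ∈ Set.Icc (0 : ℝ) (1 / 2) from ⟨h0.le, h1⟩) (show 0 ≤ 1 - p / d by linarith only [hq1]) hq
    (by ring)
  simp only [smul_eq_mul, mul_zero, zero_add] at h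
  rw [div_mul_cancel₀ _ h0.ne', UA.uu_zero] at h
  linarith only [h]

/-- Lipschitz in the imaginary part -/
theorem lip {x a b : ℝ} (h0 : 0 ≤ x) (h1 : x ≤ 1) : uu x a - uu x b ≤ Real.pi / 2 * |(|a| - |b|)| := by
  have hp := Real.pi_pos
  rcases le_total |a| |b| with h | h
  · have h2 := Lr_le_left (abs_nonneg a) h h0
    rw [uu_Lr, uu_Lr, abs_of_nonpos (show |a| - |b| ≤ 0 by linarith only [h])]
    linarith only [h2]
  · have e1 := uu_one_sub x a
    have e2 := uu_one_sub x b
    have h2 := Lr_le_left (abs_nonneg b) h (show 0 ≤ 1 - x by linarith only [h1])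
    rw [uu_Lr] at e1 e2
    rw [abs_of_nonneg (show 0 ≤ |a| - |b| by linarith only [h])]
    linarith only [e1, e2, h2]

/-- for `x` between `0` and `d`, `T = uu (x + s) h1 + uu (1 + x - s) h2` -/
theorem corner {x s a b z0 h0 : ℝ} (x0 : 0 ≤ x) (s0 : 0 ≤ s) (hz : x + s ≤ z0) (hz1 : z0 ≤ 1 / 2)
    (ha : |a| ≤ h0) (hb : |b| ≤ h0) :
    uu (x + s) a + uu (1 + x - s) b ≤ Real.pi / 2 * |(|a| - |b|)| + 2 * x * NumI.lnA z0 h0 := by
  have hh : 0 ≤ h0 := (abs_nonneg a).trans ha
  have ha' : |a| ≤ |h0| := by rwa [abs_of_nonneg hh]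
  have hb' : |b| ≤ |h0| := by rwa [abs_of_nonneg hh]
  rcases x0.eq_or_lt with hx | hx
  · subst hx
    have e : uu (1 + 0 - s) b = -uu s b := by
      rw [show 1 + 0 - s = 1 - s by ring]
      exact uu_one_sub s b
    rw [e, zero_add]
    have := lip (a := a) (b := b) s0 (by linarith only [hz1, hz])
    linarith only [this]
  have hxs : 0 < x + s := by linarith only [s0, hx]
  have m1 := lnA_mono (t := a) hxs hz hz1 ha'
  rcases le_or_gt x s with h | h
  · have e : uu (1 + x - s) b = -uu (s - x) b := by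
      rw [show 1 + x - s = 1 - (s - x) by ring]
      exact uu_one_sub _ b
    rw [e]
    have t1 := tangent (d := x + s) (p := s - x) (t := a) hxs (by linarith only [hz, hz1]) (by linarith only [h])
      (by linarith only [hz, hz1, hx])
    have l1 := lip (x := s - x) (a := a) (b := b) (by linarith only [h]) (by linarith only [hz, hz1, hx, h])
    have : 2 * x * NumI.lnA (x + s) a ≤ 2 * x * NumI.lnA z0 h0 := by
      apply mul_le_mul_of_nonneg_left m1
      linarith only [hx]
    have e2 : (s - x - (x + s)) * NumI.lnA (x + s) a = -(2 * x * NumI.lnA (x + s) a) := by ring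
    linarith only [t1, l1, this]
  · have e : uu (1 + x - s) b = uu (x - s) b + Real.pi * |b| := by
      rw [show 1 + x - s = (x - s) + 1 by ring]
      exact uu_add_one _ b
    rw [e]
    have t1 := tangent (d := x + s) (p := 0) (t := a) hxs (by linarith only [hz, hz1]) le_rfl (by norm_num)
    have t2 := tangent (d := x - s) (p := 0) (t := b) (by linarith only [h]) (by linarith only [s0, hz, hz1]) le_rfl
      (by norm_num)
    rw [UA.uu_zero] at t1 t2
    have m2 := lnA_mono (x := x - s) (x' := z0) (t := b) (t' := h0) (by linarith only [h]) (by linarith only [s0, hz])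
      hz1 hb'
    have q1 : (x + s) * NumI.lnA (x + s) a ≤ (x + s) * NumI.lnA z0 h0 :=
      mul_le_mul_of_nonneg_left m1 hxs.le
    have q2 : (x - s) * NumI.lnA (x - s) b ≤ (x - s) * NumI.lnA z0 h0 :=
      mul_le_mul_of_nonneg_left m2 (by linarith only [h])
    have q3 : Real.pi / 2 * (|b| - |a|) ≤ Real.pi / 2 * |(|a| - |b|)| := by
      apply mul_le_mul_of_nonneg_left _ (by positivity)
      rw [abs_sub_comm]
      exact le_abs_self _
    have e3 : 2 * x * NumI.lnA z0 h0 = (x + s) * NumI.lnA z0 h0 + (x - s) * NumI.lnA z0 h0 := by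
      ring
    linarith only [t1, t2, q1, q2, q3]

end UC

end Pool.Agent.Work.MP_b30479_gt.G2
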