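import Pool.Agent.Work.MP_b30479_gt.G2.WMF3a
import Pool.Agent.Work.MP_b30479_gt.G2.ZConv

/-!
# Far table `3/10`: from the checks to the rows
-/

namespace Pool.Agent.Work.NumG.F3

open MP_b30479_gt MP_b30479_gt.G2 MP_b30479_gt.VOL
open NumU (uu)

theorem dV2_dv {i j : ℕ} {T y a s σ : ℝ} {t : E} (ht : t.val [y, T, a, σ] = i)
    (hk : (kk j).val [y, T, a, σ] = s) :
    (E.dV2 (.q 3 10) (.var 1) (.var 0) t (.var 2) (kk j)).val [y, T, a, σ] = dv T y i a s := by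
  rw [E.dV2_val, hk, ht]
  change _ = MP_b30479_gt.G2.V2 ⟨3 / 10, T⟩ ⟨a, s⟩ - MP_b30479_gt.G2.V2 ⟨y, i⟩ ⟨a, s⟩
  have e : (E.q 3 10).val [y, T, a, σ] = 3 / 10 := by
    change ((3 : ℤ) : ℝ) / ((10 : ℕ) : ℝ) = _
    norm_num
  rw [e]
  rfl

theorem dV2_dv' {j : ℕ} {T y a s σ u : ℝ} {t : E} (ht : t.val [y, T, a, σ] = u)
    (hk : (kk j).val [y, T, a, σ] = s) :
    (E.dV2 (.q 3 10) (.var 1) (.var 0) t (.var 2) (kk j)).val [y, T, a, σ] = dv T y u a s := by
  rw [E.dV2_val, hk, ht]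
  change _ = MP_b30479_gt.G2.V2 ⟨3 / 10, T⟩ ⟨a, s⟩ - MP_b30479_gt.G2.V2 ⟨y, u⟩ ⟨a, s⟩
  have e : (E.q 3 10).val [y, T, a, σ] = 3 / 10 := by
    change ((3 : ℤ) : ℝ) / ((10 : ℕ) : ℝ) = _
    norm_num
  rw [e]
  rfl

/-- the three boxes -/
structure C3 (es : ℕ → List E) (lo hi t0 t1 o1 : ℕ) : Prop where
  c0 : ∃ c, chkF (es 0) 10000 0 o1 0 10000 60 lo hi t0 t1 0 1300 0 20000 c = true
  c1 : ∃ c, chkF (es 1) 10000 0 o1 0 10000 60 lo hi t0 t1 1300 3600 0 20000 c = true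
  c2 : ∃ c, chkF (es 2) 10000 0 o1 0 10000 60 lo hi t0 t1 3600 6500 0 20000 c = true

theorem C3.out {es : ℕ → List E} {lo hi t0 t1 o1 : ℕ} (h : C3 es lo hi t0 t1 o1) {y T a s : ℝ}
    (y1 : (lo : ℝ) / 10000 ≤ y) (y2 : y ≤ (hi : ℝ) / 10000)
    (T1 : ((t0 : ℝ) - o1) / 10000 ≤ T) (T2 : T ≤ ((t1 : ℝ) - o1) / 10000) (hw : Wd a s) :
    ∃ j σ, (∃ e ∈ es j, 0 < e.val [y, T, a, σ]) ∧ (kk j).val [y, T, a, σ] = s := by
  obtain ⟨j, σ, s1, s2, hj, hk⟩ := part hw
  obtain ⟨a0, a1, -⟩ := hw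
  have k1 : (((0 : ℕ) : ℝ) - (10000 : ℕ)) / (10000 : ℕ) ≤ σ := by push_cast; linarith only [s1]
  have k2 : σ ≤ (((20000 : ℕ) : ℝ) - (10000 : ℕ)) / (10000 : ℕ) := by push_cast; linarith only [s2]
  have l1 : ((lo : ℝ) - (0 : ℕ)) / (10000 : ℕ) ≤ y := by push_cast; linarith only [y1]
  have l2 : y ≤ ((hi : ℝ) - (0 : ℕ)) / (10000 : ℕ) := by push_cast; linarith only [y2]
  have l3 : ((t0 : ℝ) - o1) / (10000 : ℕ) ≤ T := by push_cast; linarith only [T1]
  have l4 : T ≤ ((t1 : ℝ) - o1) / (10000 : ℕ) := by push_cast; linarith only [T2]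
  refine ⟨j, σ, ?_, hk y T⟩
  rcases hj with ⟨rfl, h5⟩ | ⟨rfl, h5, h6⟩ | ⟨rfl, h5⟩
  · obtain ⟨c, hc⟩ := h.c0
    exact chkF4 hc (by norm_num) l1 l2 l3 l4 (by push_cast; linarith only [a0]) (by push_cast; linarith only [h5]) k1 k2
  · obtain ⟨c, hc⟩ := h.c1
    exact chkF4 hc (by norm_num) l1 l2 l3 l4 (by push_cast; linarith only [h5]) (by push_cast; linarith only [h6]) k1 k2
  · obtain ⟨c, hc⟩ := h.c2
    exact chkF4 hc (by norm_num) l1 l2 l3 l4 (by push_cast; linarith only [h5]) (by push_cast; linarith only [a1]) k1 k2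

variable {i lo hi : ℕ} {a c p r : ℤ} {b d q s : ℕ}

theorem RM_of (hK : Kd i lo hi)
    (h : C3 (fun j => [gM i j (lin a b c d) (lin p q r s)]) lo hi 0 1280 1230) :
    RM lo hi ((a : ℝ) / b) ((c : ℝ) / d) ((p : ℝ) / q) ((r : ℝ) / s) := by
  intro y T u v y1 y2 t1 t2 hw
  obtain ⟨j, σ, ⟨e, he, hp⟩, hk⟩ := h.out y1 y2 (T := T) (by push_cast; linarith only [t1])
    (by push_cast; linarith only [t2]) hw
  obtain rfl := List.mem_singleton.1 he
  have e2 : (E.dV2 (.q 3 10) (.var 1) (.var 0) (tm i) (.var 2) (kk j)).val [y, T, u, σ] -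
      ((lin a b c d).val [y, T, u, σ] - T * (lin p q r s).val [y, T, u, σ]) =
      (gM i j (lin a b c d) (lin p q r s)).val [y, T, u, σ] := rfl
  rw [← e2, dV2_dv' (u := T * rr y) (by
    change T * (tri i).val [y, T, u, σ] = _
    rw [tri_val hK y1 y2]) hk, lin_val, lin_val] at hp
  linarith only [hp]

theorem RU_of (hK : Kd i lo hi)
    (h : C3 (fun j => [gU i j (lin a b c d) (lin p q r s)]) lo hi 0 1230 1230) :
    RU lo hi ((a : ℝ) / b) ((c : ℝ) / d) ((p : ℝ) / q) ((r : ℝ) / s) := by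
  intro y T u v y1 y2 t1 t2 hw
  obtain ⟨j, σ, ⟨e, he, hp⟩, hk⟩ := h.out y1 y2 (T := T) (by push_cast; linarith only [t1])
    (by push_cast; linarith only [t2]) hw
  obtain rfl := List.mem_singleton.1 he
  have e2 : (E.dV2 (.q 3 10) (.var 1) (.var 0) (tU i) (.var 2) (kk j)).val [y, T, u, σ] +
      Real.pi * (((32 : ℤ) : ℝ) / ((100 : ℕ) : ℝ) * (tri i).val [y, T, u, σ]) -
      ((lin a b c d).val [y, T, u, σ] - T * (lin p q r s).val [y, T, u, σ]) =
      (gU i j (lin a b c d) (lin p q r s)).val [y, T, u, σ] := rfl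
  rw [← e2, dV2_dv' (u := 16 / 100 * rr y) (by
    change ((16 : ℤ) : ℝ) / ((100 : ℕ) : ℝ) * (tri i).val [y, T, u, σ] = _
    rw [tri_val hK y1 y2]
    norm_num) hk, lin_val, lin_val, tri_val hK y1 y2] at hp
  push_cast at hp
  linarith only [hp]

theorem RD_of (hK : Kd i lo hi)
    (h : C3 (fun j => [gD i j (lin a b c d) (lin p q r s)]) lo hi 0 50 0) :
    RD lo hi ((a : ℝ) / b) ((c : ℝ) / d) ((p : ℝ) / q) ((r : ℝ) / s) := by
  intro y T u v y1 y2 t1 t2 hw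
  obtain ⟨j, σ, ⟨e, he, hp⟩, hk⟩ := h.out y1 y2 (T := T) (by push_cast; linarith only [t1])
    (by push_cast; linarith only [t2]) hw
  obtain rfl := List.mem_singleton.1 he
  have e2 : (E.dV2 (.q 3 10) (.var 1) (.var 0) (.neg (tU i)) (.var 2) (kk j)).val [y, T, u, σ] +
      Real.pi * (((32 : ℤ) : ℝ) / ((100 : ℕ) : ℝ) * (tri i).val [y, T, u, σ]) -
      ((lin a b c d).val [y, T, u, σ] - T * (lin p q r s).val [y, T, u, σ]) =
      (gD i j (lin a b c d) (lin p q r s)).val [y, T, u, σ] := rfl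
  rw [← e2, dV2_dv' (u := -(16 / 100 * rr y)) (by
    change -(((16 : ℤ) : ℝ) / ((100 : ℕ) : ℝ) * (tri i).val [y, T, u, σ]) = _
    rw [tri_val hK y1 y2]
    norm_num) hk, lin_val, lin_val, tri_val hK y1 y2] at hp
  push_cast at hp
  linarith only [hp]

/-! ### near `y = 0` -/

theorem ab_val (x : E) (xs : List ℝ) : (ab x).val xs = |x.val xs| := by
  change max (x.val xs) 0 + max (-x.val xs) 0 = _
  rcases le_total 0 (x.val xs) with h | h
  · rw [max_eq_left h, max_eq_right (by linarith only [h]), abs_of_nonneg h, add_zero]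
  · rw [max_eq_right h, max_eq_left (by linarith only [h]), abs_of_nonpos h, zero_add]

theorem small : -uu (1 / 10000) 0 ≤ 17 / 20000 := by
  have h : NumU.chk [NumU.E.add (NumU.E.uu (NumU.E.q 1 10000) (NumU.E.q 0 1)) (NumU.E.q 17 20000)] 1
      [NumI.V.of 1 0 0] = true := by
    decide +kernel
  have hp := NumU.pos_of_chk (NumU.chk1 h (by norm_num) (x := 0) (by norm_num) (by norm_num))
  simp only [NumU.E.val] at hp
  push_cast at hp
  rw [zero_div] at hp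
  linarith only [hp]

/-- lower bound near `0` -/
theorem uu_low {y t : ℝ} (h0 : 0 ≤ y) (h1 : y ≤ 1 / 10000) :
    -(Real.pi / 2 * |t|) - 17 / 20000 ≤ uu y t := by
  have a1 := Lr_diff_mono h0 le_rfl (abs_nonneg t)
  have a2 := TL.uu_real_anti h0 h1 (by norm_num)
  rw [DT.Lr_zero_right, DT.Lr_zero_right] at a1
  have e1 := uu_Lr y t
  have e2 := uu_Lr y 0
  rw [abs_zero] at e2
  have := small
  linarith only [a1, a2, e1, e2, this]

/-- upper bound near `0` -/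
theorem uu_up {y t : ℝ} (h0 : 0 ≤ y) (ht : |t| ≤ 1 / 2) :
    uu y t ≤ 162 / 100 * y - Real.pi / 2 * |t| := by
  have a3 := TL.uu_slope (u := 0) (v := y) (t := t) h0 (show (0 : ℝ) < 1 / 2 by norm_num) ht exp162
  rw [TL.uu_zero] at a3
  linarith only [a3]

theorem dL_le {j : ℕ} {T y a s σ u x : ℝ} {t X : E} (hy0 : 0 ≤ y) (hy1 : y ≤ 1 / 10000)
    (ht : t.val [y, T, a, σ] = u) (hk : (kk j).val [y, T, a, σ] = s)
    (hX : X.val [y, T, a, σ] = x) (hx : uu (y + a) (u + s) ≤ x) :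
    (dL t (kk j) X).val [y, T, a, σ] ≤ dv T y u a s := by
  have e0 : (dL t (kk j) X).val [y, T, a, σ] =
      (uu (((3 : ℤ) : ℝ) / ((10 : ℕ) : ℝ) + a) (T + (kk j).val [y, T, a, σ]) -
        X.val [y, T, a, σ] + (-(Real.pi * (ab t).val [y, T, a, σ] +
          ((17 : ℤ) : ℝ) / ((10000 : ℕ) : ℝ)) - ((2 : ℤ) : ℝ) / ((1 : ℕ) : ℝ) *
          uu (((3 : ℤ) : ℝ) / ((10 : ℕ) : ℝ)) T)) -
      Real.pi * ((((3 : ℤ) : ℝ) / ((10 : ℕ) : ℝ) - a) * (T - (kk j).val [y, T, a, σ]) -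
        (y - a) * (t.val [y, T, a, σ] - (kk j).val [y, T, a, σ]) +
        ((1 : ℤ) : ℝ) / ((2 : ℕ) : ℝ) * (T - t.val [y, T, a, σ])) := rfl
  rw [e0, ab_val, ht, hk, hX]
  have h1 := uu_low (t := u) hy0 hy1
  unfold dv
  rw [TL.V2_uu, TL.V2_uu]
  push_cast
  nlinarith only [hx, h1, h1, hx]

theorem kk_abs {j : ℕ} {y T a σ s : ℝ} (hw : Wd a s) (hk : (kk j).val [y, T, a, σ] = s) :
    |s| ≤ 16 / 100 := by
  obtain ⟨h0, h1, h2⟩ := hw
  refine h2.trans ?_
  have : MP_b30479_gt.G2.tr 0 (65 / 100) (13 / 100) (29 / 100) a ≤ 1 := by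
    unfold MP_b30479_gt.G2.tr
    exact max_le zero_le_one (min_le_left _ _)
  linarith only [this]

theorem rr_small {y : ℝ} (h0 : 0 ≤ y) (h1 : y ≤ 1 / 10000) : 0 ≤ rr y ∧ rr y ≤ 2 / 1000 := by
  rw [rr_val h0 (by linarith only [h1]), if_pos (by linarith only [h1])]
  constructor <;> linarith only [h0, h1]

/-- both alternatives -/
theorem dL_both {j : ℕ} {T y a s σ u : ℝ} {t : E} {X : E → E → E} (hy0 : 0 ≤ y)
    (hy1 : y ≤ 1 / 10000) (hw : Wd a s) (hu : |u| ≤ 1 / 1000)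
    (ht : t.val [y, T, a, σ] = u) (hk : (kk j).val [y, T, a, σ] = s) (hX : X = X1 ∨ X = X2) :
    (dL t (kk j) (X t (kk j))).val [y, T, a, σ] ≤ dv T y u a s := by
  rcases hX with rfl | rfl
  · exact dL_le hy0 hy1 ht hk (x := uu (y + a) (u + s)) (by
      change uu (y + a) (t.val [y, T, a, σ] + (kk j).val [y, T, a, σ]) = _
      rw [ht, hk]) le_rfl
  · have hs := kk_abs hw hk
    refine dL_le hy0 hy1 ht hk (x := 162 / 100 * (y + a) - Real.pi / 2 * |u + s|) ?_ ?_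
    · change ((162 : ℤ) : ℝ) / ((100 : ℕ) : ℝ) * (y + a) - ((1 : ℤ) : ℝ) / ((2 : ℕ) : ℝ) * Real.pi *
        (ab (.add t (kk j))).val [y, T, a, σ] = _
      rw [ab_val]
      change _ - _ * _ * |t.val [y, T, a, σ] + (kk j).val [y, T, a, σ]| = _
      rw [ht, hk]
      push_cast
      ring
    · refine uu_up (by linarith only [hy0, hw, hw.1]) ?_
      refine (abs_add_le u s).trans ?_
      linarith only [hu, hs]

theorem zM_of (h : C3 (fun j => [zM j X1 (lin a b c d) (lin p q r s),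
      zM j X2 (lin a b c d) (lin p q r s)]) 0 1 0 1280 1230) :
    RM 0 1 ((a : ℝ) / b) ((c : ℝ) / d) ((p : ℝ) / q) ((r : ℝ) / s) := by
  intro y T u v y1 y2 t1 t2 hw
  obtain ⟨j, σ, ⟨e, he, hp⟩, hk⟩ := h.out y1 y2 (T := T) (by push_cast; linarith only [t1])
    (by push_cast; linarith only [t2]) hw
  have hK : Kd 0 0 1 := by decide
  have ht : (tri 0).val [y, T, u, σ] = rr y := tri_val hK y1 y2
  push_cast at y1 y2
  rw [zero_div] at y1
  obtain ⟨r0, r1⟩ := rr_small y1 y2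
  have key : ∀ X : E → E → E, (X = X1 ∨ X = X2) →
      0 < (zM j X (lin a b c d) (lin p q r s)).val [y, T, u, σ] →
      (a : ℝ) / b + (c : ℝ) / d * y - T * ((p : ℝ) / q + (r : ℝ) / s * y) ≤
        dv T y (T * rr y) u v := by
    intro X hX hp
    have e2 : (dL (tm 0) (kk j) (X (tm 0) (kk j))).val [y, T, u, σ] -
        ((lin a b c d).val [y, T, u, σ] - T * (lin p q r s).val [y, T, u, σ]) =
        (zM j X (lin a b c d) (lin p q r s)).val [y, T, u, σ] := rfl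
    rw [← e2, lin_val, lin_val] at hp
    have h3 := dL_both (t := tm 0) (u := T * rr y) y1 y2 hw (by
      rw [abs_mul, abs_of_nonneg r0]
      have : |T| ≤ 123 / 1000 := abs_le.2 ⟨t1, by linarith only [t2]⟩
      nlinarith only [r1, r0, this, abs_nonneg T]) (by
      change T * (tri 0).val [y, T, u, σ] = _
      rw [ht]) hk hX
    linarith only [hp, h3]
  simp only [List.mem_cons, List.not_mem_nil, or_false] at he
  rcases he with rfl | rfl
  · exact key X1 (Or.inl rfl) hp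
  · exact key X2 (Or.inr rfl) hp

theorem zU_of (h : C3 (fun j => [zU j X1 (lin a b c d) (lin p q r s),
      zU j X2 (lin a b c d) (lin p q r s)]) 0 1 0 1230 1230) :
    RU 0 1 ((a : ℝ) / b) ((c : ℝ) / d) ((p : ℝ) / q) ((r : ℝ) / s) := by
  intro y T u v y1 y2 t1 t2 hw
  obtain ⟨j, σ, ⟨e, he, hp⟩, hk⟩ := h.out y1 y2 (T := T) (by push_cast; linarith only [t1])
    (by push_cast; linarith only [t2]) hw
  have hK : Kd 0 0 1 := by decide
  have ht : (tri 0).val [y, T, u, σ] = rr y := tri_val hK y1 y2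
  push_cast at y1 y2
  rw [zero_div] at y1
  obtain ⟨r0, r1⟩ := rr_small y1 y2
  have key : ∀ X : E → E → E, (X = X1 ∨ X = X2) →
      0 < (zU j X (lin a b c d) (lin p q r s)).val [y, T, u, σ] →
      (a : ℝ) / b + (c : ℝ) / d * y - T * ((p : ℝ) / q + (r : ℝ) / s * y) ≤
        dv T y (16 / 100 * rr y) u v + 2 * Real.pi * (16 / 100 * rr y) := by
    intro X hX hp
    have e2 : (dL (tU 0) (kk j) (X (tU 0) (kk j))).val [y, T, u, σ] +
        Real.pi * (((32 : ℤ) : ℝ) / ((100 : ℕ) : ℝ) * (tri 0).val [y, T, u, σ]) -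
        ((lin a b c d).val [y, T, u, σ] - T * (lin p q r s).val [y, T, u, σ]) =
        (zU j X (lin a b c d) (lin p q r s)).val [y, T, u, σ] := rfl
    rw [← e2, lin_val, lin_val, ht] at hp
    have h3 := dL_both (t := tU 0) (u := 16 / 100 * rr y) y1 y2 hw (by
      rw [abs_of_nonneg (by positivity)]
      linarith only [r1]) (by
      change ((16 : ℤ) : ℝ) / ((100 : ℕ) : ℝ) * (tri 0).val [y, T, u, σ] = _
      rw [ht]
      norm_num) hk hX
    push_cast at hp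
    linarith only [h3, hp]
  simp only [List.mem_cons, List.not_mem_nil, or_false] at he
  rcases he with rfl | rfl
  · exact key X1 (Or.inl rfl) hp
  · exact key X2 (Or.inr rfl) hp

theorem zD_of (h : C3 (fun j => [zD j X1 (lin a b c d) (lin p q r s),
      zD j X2 (lin a b c d) (lin p q r s)]) 0 1 0 50 0) :
    RD 0 1 ((a : ℝ) / b) ((c : ℝ) / d) ((p : ℝ) / q) ((r : ℝ) / s) := by
  intro y T u v y1 y2 t1 t2 hw
  obtain ⟨j, σ, ⟨e, he, hp⟩, hk⟩ := h.out y1 y2 (T := T) (by push_cast; linarith only [t1])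
    (by push_cast; linarith only [t2]) hw
  have hK : Kd 0 0 1 := by decide
  have ht : (tri 0).val [y, T, u, σ] = rr y := tri_val hK y1 y2
  push_cast at y1 y2
  rw [zero_div] at y1
  obtain ⟨r0, r1⟩ := rr_small y1 y2
  have key : ∀ X : E → E → E, (X = X1 ∨ X = X2) →
      0 < (zD j X (lin a b c d) (lin p q r s)).val [y, T, u, σ] →
      (a : ℝ) / b + (c : ℝ) / d * y - T * ((p : ℝ) / q + (r : ℝ) / s * y) ≤
        dv T y (-(16 / 100 * rr y)) u v + 2 * Real.pi * (16 / 100 * rr y) := by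
    intro X hX hp
    have e2 : (dL (.neg (tU 0)) (kk j) (X (.neg (tU 0)) (kk j))).val [y, T, u, σ] +
        Real.pi * (((32 : ℤ) : ℝ) / ((100 : ℕ) : ℝ) * (tri 0).val [y, T, u, σ]) -
        ((lin a b c d).val [y, T, u, σ] - T * (lin p q r s).val [y, T, u, σ]) =
        (zD j X (lin a b c d) (lin p q r s)).val [y, T, u, σ] := rfl
    rw [← e2, lin_val, lin_val, ht] at hp
    have h3 := dL_both (t := .neg (tU 0)) (u := -(16 / 100 * rr y)) y1 y2 hw (by
      rw [abs_neg, abs_of_nonneg (by positivity)]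
      linarith only [r1]) (by
      change -(((16 : ℤ) : ℝ) / ((100 : ℕ) : ℝ) * (tri 0).val [y, T, u, σ]) = _
      rw [ht]
      norm_num) hk hX
    push_cast at hp
    linarith only [h3, hp]
  simp only [List.mem_cons, List.not_mem_nil, or_false] at he
  rcases he with rfl | rfl
  · exact key X1 (Or.inl rfl) hp
  · exact key X2 (Or.inr rfl) hp

/-! ### derivative rows -/

/-- the three boxes -/
structure D3 (es : ℕ → List D) (lo hi : ℕ) : Prop where
  c0 : ∃ c, chkD (es 0) 10000 0 1230 0 10000 60 lo hi 0 1280 0 1300 0 20000 c = true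
  c1 : ∃ c, chkD (es 1) 10000 0 1230 0 10000 60 lo hi 0 1280 1300 3600 0 20000 c = true
  c2 : ∃ c, chkD (es 2) 10000 0 1230 0 10000 60 lo hi 0 1280 3600 6500 0 20000 c = true

theorem D3.out {es : ℕ → List D} {lo hi : ℕ} (h : D3 es lo hi) {y T a s : ℝ}
    (y1 : (lo : ℝ) / 10000 ≤ y) (y2 : y ≤ (hi : ℝ) / 10000)
    (T1 : -(123 / 1000) ≤ T) (T2 : T ≤ 5 / 1000) (hw : Wd a s) :
    ∃ j σ, (∃ e ∈ es j, 0 < e.val [y, T, a, σ]) ∧ (kk j).val [y, T, a, σ] = s := by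
  obtain ⟨j, σ, s1, s2, hj, hk⟩ := part hw
  obtain ⟨a0, a1, -⟩ := hw
  have k1 : (((0 : ℕ) : ℝ) - (10000 : ℕ)) / (10000 : ℕ) ≤ σ := by push_cast; linarith only [s1]
  have k2 : σ ≤ (((20000 : ℕ) : ℝ) - (10000 : ℕ)) / (10000 : ℕ) := by push_cast; linarith only [s2]
  have l1 : ((lo : ℝ) - (0 : ℕ)) / (10000 : ℕ) ≤ y := by push_cast; linarith only [y1]
  have l2 : y ≤ ((hi : ℝ) - (0 : ℕ)) / (10000 : ℕ) := by push_cast; linarith only [y2]
  have l3 : (((0 : ℕ) : ℝ) - (1230 : ℕ)) / (10000 : ℕ) ≤ T := by push_cast; linarith only [T1]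
  have l4 : T ≤ (((1280 : ℕ) : ℝ) - (1230 : ℕ)) / (10000 : ℕ) := by push_cast; linarith only [T2]
  refine ⟨j, σ, ?_, hk y T⟩
  rcases hj with ⟨rfl, h5⟩ | ⟨rfl, h5, h6⟩ | ⟨rfl, h5⟩
  · obtain ⟨c, hc⟩ := h.c0
    exact chkD4 hc (by norm_num) l1 l2 l3 l4 (by push_cast; linarith only [a0]) (by push_cast; linarith only [h5]) k1 k2
  · obtain ⟨c, hc⟩ := h.c1
    exact chkD4 hc (by norm_num) l1 l2 l3 l4 (by push_cast; linarith only [h5]) (by push_cast; linarith only [h6]) k1 k2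
  · obtain ⟨c, hc⟩ := h.c2
    exact chkD4 hc (by norm_num) l1 l2 l3 l4 (by push_cast; linarith only [h5]) (by push_cast; linarith only [a1]) k1 k2

/-- the horizontal derivative of the value -/
noncomputable def hh (x T a s : ℝ) : ℝ :=
  NumI.lnA (x + a) (T + s) - Real.pi * (T - s) - 2 * NumI.lnA x T

theorem hasDeriv_V2 {x T a s : ℝ} (h0 : 0 < x) (ha : 0 ≤ a) (h1 : x + a < 1) :
    HasDerivAt (fun x => MP_b30479_gt.G2.V2 ⟨x, T⟩ ⟨a, s⟩) (hh x T a s) x := by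
  have e : (fun x => MP_b30479_gt.G2.V2 ⟨x, T⟩ ⟨a, s⟩) = fun x =>
      uu (x + a) (T + s) - Real.pi * ((x - a) * (T - s) + 1 / 2 * (T + s)) -
        2 * (uu x T + uu a s) := by
    funext x
    exact TL.V2_uu x T a s
  rw [e]
  have d1 : HasDerivAt (fun x => uu (x + a) (T + s)) (NumI.lnA (x + a) (T + s)) x :=
    (UC.hasDeriv (t := T + s) (by linarith only [h0, ha]) h1).comp_add_const x a
  have d2 : HasDerivAt (fun x => uu x T) (NumI.lnA x T) x := UC.hasDeriv h0 (by linarith only [ha, h1])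
  have d3 : HasDerivAt (fun x : ℝ => Real.pi * ((x - a) * (T - s) + 1 / 2 * (T + s)))
      (Real.pi * (1 * (T - s))) x :=
    ((((hasDerivAt_id x).sub_const a).mul_const (T - s)).add_const _).const_mul Real.pi
  have d4 := (d1.sub d3).sub ((d2.add_const (uu a s)).const_mul 2)
  refine d4.congr_deriv ?_
  unfold hh
  ring

theorem cont_V2 (T a s : ℝ) : Continuous fun x => MP_b30479_gt.G2.V2 ⟨x, T⟩ ⟨a, s⟩ := by
  have e : (fun x => MP_b30479_gt.G2.V2 ⟨x, T⟩ ⟨a, s⟩) = fun x =>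
      uu (x + a) (T + s) - Real.pi * ((x - a) * (T - s) + 1 / 2 * (T + s)) -
        2 * (uu x T + uu a s) := by
    funext x
    exact TL.V2_uu x T a s
  rw [e]
  have c1 : Continuous fun x => uu (x + a) (T + s) :=
    (UC.continuous_uu (T + s)).comp (continuous_id.add continuous_const)
  have c2 := UC.continuous_uu T
  fun_prop

/-- slope row, left of `3/10` -/
def SL (lo hi : ℕ) (A B : ℝ) : Prop := ∀ x y T a s : ℝ, (lo : ℝ) / 10000 ≤ x → x ≤ y →
  y ≤ (hi : ℝ) / 10000 → -(123 / 1000) ≤ T → T ≤ 5 / 1000 → Wd a s →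
  -((y - x) * (A + B * T)) ≤
    MP_b30479_gt.G2.V2 ⟨y, T⟩ ⟨a, s⟩ - MP_b30479_gt.G2.V2 ⟨x, T⟩ ⟨a, s⟩
/-- slope row, right of `3/10` -/
def SR (lo hi : ℕ) (A B : ℝ) : Prop := ∀ x y T a s : ℝ, (lo : ℝ) / 10000 ≤ x → x ≤ y →
  y ≤ (hi : ℝ) / 10000 → -(123 / 1000) ≤ T → T ≤ 5 / 1000 → Wd a s →
    MP_b30479_gt.G2.V2 ⟨y, T⟩ ⟨a, s⟩ - MP_b30479_gt.G2.V2 ⟨x, T⟩ ⟨a, s⟩ ≤ (y - x) * (A + B * T)

theorem H_val {j : ℕ} {x T a s σ : ℝ} (hk : (kk j).val [x, T, a, σ] = s) :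
    (H j).val [x, T, a, σ] = hh x T a s := by
  change NumI.lnA (x + a) (T + (kk j).val [x, T, a, σ]) -
    Real.pi * (T - (kk j).val [x, T, a, σ]) - ((2 : ℤ) : ℝ) / ((1 : ℕ) : ℝ) * NumI.lnA x T = _
  rw [hk]
  unfold hh
  norm_num

theorem lnA_up (x t : ℝ) : NumI.lnA x t ≤ 6932 / 10000 + 1 / 2 * (Real.pi * t) ^ 2 := by
  unfold NumI.lnA
  have h1 := Real.sin_sq_le_one (Real.pi * x)
  have h2 := Real.cosh_sq (Real.pi * t)
  rcases eq_or_lt_of_le (show 0 ≤ 4 * (Real.sin (Real.pi * x) ^ 2 + Real.sinh (Real.pi * t) ^ 2)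
    by positivity) with h0 | h0
  · rw [← h0, Real.log_zero]
    have hq : 0 ≤ (Real.pi * t) ^ 2 := sq_nonneg _
    linarith only [hq]
  have h3 : 4 * (Real.sin (Real.pi * x) ^ 2 + Real.sinh (Real.pi * t) ^ 2) ≤
      (2 * Real.cosh (Real.pi * t)) ^ 2 := by nlinarith only [h1, h2]
  have h4 := Real.log_le_log h0 h3
  have h5 : Real.log ((2 * Real.cosh (Real.pi * t)) ^ 2) =
      2 * (Real.log 2 + Real.log (Real.cosh (Real.pi * t))) := by
    rw [Real.log_pow, Real.log_mul (by norm_num) (Real.cosh_pos _).ne']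
    push_cast
    ring
  have h6 : Real.log (Real.cosh (Real.pi * t)) ≤ (Real.pi * t) ^ 2 / 2 := by
    rw [Real.log_le_iff_le_exp (Real.cosh_pos _)]
    exact Real.cosh_le_exp_half_sq _
  have h7 := Real.log_two_lt_d9
  linarith only [h4, h5, h6, h7]

theorem H2_val {j : ℕ} {x T a s σ : ℝ} (hk : (kk j).val [x, T, a, σ] = s) :
    hh x T a s ≤ (H2 j).val [x, T, a, σ] := by
  change _ ≤ ((6932 : ℤ) : ℝ) / ((10000 : ℕ) : ℝ) + ((1 : ℤ) : ℝ) / ((2 : ℕ) : ℝ) *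
    (Real.pi * (T + (kk j).val [x, T, a, σ])) ^ 2 -
    Real.pi * (T - (kk j).val [x, T, a, σ]) - ((2 : ℤ) : ℝ) / ((1 : ℕ) : ℝ) * NumI.lnA x T
  rw [hk]
  unfold hh
  have := lnA_up (x + a) (T + s)
  push_cast
  linarith only [this]

theorem SL_of (h0 : 0 < lo) (h1 : hi ≤ 3500) (h : D3 (fun j => [hL j (sl a b c d)]) lo hi) :
    SL lo hi ((a : ℝ) / b) ((c : ℝ) / d) := by
  intro x y T u v x1 xy y2 t1 t2 hw
  have hlo : (0 : ℝ) < (lo : ℝ) / 10000 := by
    have : (0 : ℝ) < lo := by exact_mod_cast h0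
    positivity
  have hhi : (hi : ℝ) / 10000 ≤ 35 / 100 := by
    have : (hi : ℝ) ≤ 3500 := by exact_mod_cast h1
    linarith only [this]
  have hm : MonotoneOn (fun z => MP_b30479_gt.G2.V2 ⟨z, T⟩ ⟨u, v⟩ +
      z * ((a : ℝ) / b + (c : ℝ) / d * T)) (Set.Icc ((lo : ℝ) / 10000) ((hi : ℝ) / 10000)) := by
    have hd : ∀ z ∈ interior (Set.Icc ((lo : ℝ) / 10000) ((hi : ℝ) / 10000)),
        HasDerivAt (fun z => MP_b30479_gt.G2.V2 ⟨z, T⟩ ⟨u, v⟩ +
          z * ((a : ℝ) / b + (c : ℝ) / d * T)) (hh z T u v + 1 * ((a : ℝ) / b + (c : ℝ) / d * T))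
          z := by
      intro z hz
      rw [interior_Icc] at hz
      exact (hasDeriv_V2 (by linarith only [hlo, hz, hz.1]) hw.1 (by linarith only [hhi, hz, hw, hz.2, hw.2.1])).add
        ((hasDerivAt_id z).mul_const _)
    apply monotoneOn_of_deriv_nonneg (convex_Icc _ _)
    · exact ((cont_V2 T u v).add (by fun_prop)).continuousOn
    · intro z hz
      exact (hd z hz).differentiableAt.differentiableWithinAt
    · intro z hz
      rw [(hd z hz).deriv]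
      rw [interior_Icc] at hz
      obtain ⟨j, σ, ⟨e, he, hp⟩, hk⟩ := h.out hz.1.le hz.2.le t1 t2 hw
      obtain rfl := List.mem_singleton.1 he
      have e2 : (hL j (sl a b c d)).val [z, T, u, σ] = (H j).val [z, T, u, σ] +
        ((a : ℝ) / b + (c : ℝ) / d * T) := rfl
      rw [e2, H_val hk] at hp
      linarith only [hp]
  have := hm ⟨x1, by linarith only [xy, y2]⟩ ⟨by linarith only [x1, xy], y2⟩ xy
  simp only at this
  linarith only [this]

theorem SR_of (h0 : 0 < lo) (h1 : hi ≤ 3500)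
    (h : D3 (fun j => [hR j (sl a b c d), hR2 j (sl a b c d)]) lo hi) :
    SR lo hi ((a : ℝ) / b) ((c : ℝ) / d) := by
  intro x y T u v x1 xy y2 t1 t2 hw
  have hlo : (0 : ℝ) < (lo : ℝ) / 10000 := by
    have : (0 : ℝ) < lo := by exact_mod_cast h0
    positivity
  have hhi : (hi : ℝ) / 10000 ≤ 35 / 100 := by
    have : (hi : ℝ) ≤ 3500 := by exact_mod_cast h1
    linarith only [this]
  have hm : AntitoneOn (fun z => MP_b30479_gt.G2.V2 ⟨z, T⟩ ⟨u, v⟩ -
      z * ((a : ℝ) / b + (c : ℝ) / d * T)) (Set.Icc ((lo : ℝ) / 10000) ((hi : ℝ) / 10000)) := by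
    have hd : ∀ z ∈ interior (Set.Icc ((lo : ℝ) / 10000) ((hi : ℝ) / 10000)),
        HasDerivAt (fun z => MP_b30479_gt.G2.V2 ⟨z, T⟩ ⟨u, v⟩ -
          z * ((a : ℝ) / b + (c : ℝ) / d * T)) (hh z T u v - 1 * ((a : ℝ) / b + (c : ℝ) / d * T))
          z := by
      intro z hz
      rw [interior_Icc] at hz
      exact (hasDeriv_V2 (by linarith only [hlo, hz, hz.1]) hw.1 (by linarith only [hhi, hz, hw, hz.2, hw.2.1])).sub
        ((hasDerivAt_id z).mul_const _)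
    apply antitoneOn_of_deriv_nonpos (convex_Icc _ _)
    · exact ((cont_V2 T u v).sub (by fun_prop)).continuousOn
    · intro z hz
      exact (hd z hz).differentiableAt.differentiableWithinAt
    · intro z hz
      rw [(hd z hz).deriv]
      rw [interior_Icc] at hz
      obtain ⟨j, σ, ⟨e, he, hp⟩, hk⟩ := h.out hz.1.le hz.2.le t1 t2 hw
      simp only [List.mem_cons, List.not_mem_nil, or_false] at he
      rcases he with rfl | rfl
      · have e2 : (hR j (sl a b c d)).val [z, T, u, σ] =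
          ((a : ℝ) / b + (c : ℝ) / d * T) - (H j).val [z, T, u, σ] := rfl
        rw [e2, H_val hk] at hp
        linarith only [hp]
      · have e2 : (hR2 j (sl a b c d)).val [z, T, u, σ] =
          ((a : ℝ) / b + (c : ℝ) / d * T) - (H2 j).val [z, T, u, σ] := rfl
        rw [e2] at hp
        have := H2_val hk
        linarith only [hp, this]
  have := hm ⟨x1, by linarith only [xy, y2]⟩ ⟨by linarith only [x1, xy], y2⟩ xy
  simp only at this
  linarith only [this]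

end Pool.Agent.Work.NumG.F3
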