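import Pool.Agent.Work.MP_b30479_gt.G2.WMF3b

/-!
# Far table `3/10`: rows on a band of the height
-/

namespace Pool.Agent.Work.NumG.F3

open MP_b30479_gt MP_b30479_gt.G2 MP_b30479_gt.VOL

/-- a row, main, heights between `(t0 - 1230) / 10000` and `(t1 - 1230) / 10000` -/
def RN (lo hi t0 t1 : ℕ) (A B G D : ℝ) : Prop := ∀ y T a s : ℝ, (lo : ℝ) / 10000 ≤ y →
  y ≤ (hi : ℝ) / 10000 → ((t0 : ℝ) - (1230 : ℕ)) / 10000 ≤ T →
  T ≤ ((t1 : ℝ) - (1230 : ℕ)) / 10000 → Wd a s →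
  A + B * y - T * (G + D * y) ≤ dv T y (T * rr y) a s

variable {i lo hi t0 t1 : ℕ} {a c p r : ℤ} {b d q s : ℕ}

theorem RN_of (hK : Kd i lo hi)
    (h : C3 (fun j => [gM i j (lin a b c d) (lin p q r s)]) lo hi t0 t1 1230) :
    RN lo hi t0 t1 ((a : ℝ) / b) ((c : ℝ) / d) ((p : ℝ) / q) ((r : ℝ) / s) := by
  intro y T u v y1 y2 a1 a2 hw
  obtain ⟨j, σ, ⟨e, he, hp⟩, hk⟩ := h.out y1 y2 (T := T) a1 a2 hw
  obtain rfl := List.mem_singleton.1 he
  have e2 : (E.dV2 (.q 3 10) (.var 1) (.var 0) (tm i) (.var 2) (kk j)).val [y, T, u, σ] -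
      ((lin a b c d).val [y, T, u, σ] - T * (lin p q r s).val [y, T, u, σ]) =
      (gM i j (lin a b c d) (lin p q r s)).val [y, T, u, σ] := rfl
  rw [← e2, dV2_dv' (u := T * rr y) (by
    change T * (tri i).val [y, T, u, σ] = _
    rw [tri_val hK y1 y2]) hk, lin_val, lin_val] at hp
  linarith

end Pool.Agent.Work.NumG.F3
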