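import Pool.Agent.Work.MP_b30479_gt.G2.WMGd
import Pool.Agent.Work.MP_b30479_gt.G2.WMGf1
import Pool.Agent.Work.MP_b30479_gt.G2.WMGf2
import Pool.Agent.Work.MP_b30479_gt.G2.WMGf3
import Pool.Agent.Work.MP_b30479_gt.G2.WMGf4
import Pool.Agent.Work.MP_b30479_gt.G2.WMGf5

/-!
# Mirrored paths: far gains of the inner variable of an interior `3`

`w`: position of the hinge in the slot `2`.
-/

namespace Pool.Agent.Work.MP_b30479_gt.G2

open Finset VOL Filter Topology

namespace KE

open NumG

/-- positions of the hinge in the slot `2` of an interior `3` -/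
structure W3 (w : ℂ) : Prop where
  w0 : 0 ≤ w.re
  w1 : w.re ≤ 65 / 100
  w2 : |w.im| ≤ 16 / 100 * tr 0 (65 / 100) (13 / 100) (29 / 100) w.re

theorem W3.par {w : ℂ} (h : W3 w) : ∃ θ : ℝ, -1 ≤ θ ∧ θ ≤ 1 ∧
    w = ⟨w.re, θ * (16 / 100 * tr 0 (65 / 100) (13 / 100) (29 / 100) w.re)⟩ := by
  obtain ⟨θ, h1, h2, h3⟩ := par_abs h.w2
  exact ⟨θ, h1, h2, Complex.ext rfl h3⟩

variable {y T : ℝ} {w : ℂ}

/-- the inner variable on its main path to `3/10` -/
theorem far30m (y0 : 0 ≤ y) (y1 : y ≤ 8 / 10) (T0 : -(123 / 1000) ≤ T) (T1 : T ≤ 5 / 1000)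
    (hw : W3 w) : -ψ30 y T < V2 ⟨3 / 10, T⟩ w - V2 ⟨y, T * tr 0 (8 / 10) (5 / 100) (5 / 100) y⟩ w := by
  obtain ⟨θ, t0, t1, e⟩ := hw.par
  have w0 := hw.w0
  have w1 := hw.w1
  have key : 0 < g30m.val [y, T, w.re, θ] := by
    rcases le_total y (1 / 10) with h1 | h1
    · exact chk1 l30m0 (by norm_num) (by constructor <;> push_cast <;> linarith only [y0, h1])
        (by constructor <;> push_cast <;> linarith only [T0, T1]) (by constructor <;> push_cast <;> linarith only [w0, w1])
        (by constructor <;> push_cast <;> linarith only [t0, t1])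
    rcases le_total y (2 / 10) with h2 | h2
    · exact chk1 l30m100 (by norm_num) (by constructor <;> push_cast <;> linarith only [h1, h2])
        (by constructor <;> push_cast <;> linarith only [T0, T1]) (by constructor <;> push_cast <;> linarith only [w0, w1])
        (by constructor <;> push_cast <;> linarith only [t0, t1])
    rcases le_total y (3 / 10) with h3 | h3
    · exact chk1 l30m200 (by norm_num) (by constructor <;> push_cast <;> linarith only [h2, h3])
        (by constructor <;> push_cast <;> linarith only [T0, T1]) (by constructor <;> push_cast <;> linarith only [w0, w1])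
        (by constructor <;> push_cast <;> linarith only [t0, t1])
    rcases le_total y (5 / 10) with h4 | h4
    · exact chk1 l30m300 (by norm_num) (by constructor <;> push_cast <;> linarith only [h3, h4])
        (by constructor <;> push_cast <;> linarith only [T0, T1]) (by constructor <;> push_cast <;> linarith only [w0, w1])
        (by constructor <;> push_cast <;> linarith only [t0, t1])
    rcases le_total y (7 / 10) with h5 | h5
    · exact chk1 l30m500 (by norm_num) (by constructor <;> push_cast <;> linarith only [h4, h5])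
        (by constructor <;> push_cast <;> linarith only [T0, T1]) (by constructor <;> push_cast <;> linarith only [w0, w1])
        (by constructor <;> push_cast <;> linarith only [t0, t1])
    · exact chk1 l30m700 (by norm_num) (by constructor <;> push_cast <;> linarith only [h5, y1])
        (by constructor <;> push_cast <;> linarith only [T0, T1]) (by constructor <;> push_cast <;> linarith only [w0, w1])
        (by constructor <;> push_cast <;> linarith only [t0, t1])
  rw [g30m_val, ← e] at key
  linarith only [key]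

/-- the inner variable on its main path to `45/100` -/
theorem far45m (y0 : 6 / 10 ≤ y) (y1 : y ≤ 8 / 10) (T0 : -(123 / 1000) ≤ T) (T1 : T ≤ 5 / 1000)
    (hw : W3 w) : -ψ45 y < V2 ⟨45 / 100, T⟩ w - V2 ⟨y, T * tr 0 (8 / 10) (5 / 100) (5 / 100) y⟩ w := by
  obtain ⟨θ, t0, t1, e⟩ := hw.par
  have w0 := hw.w0
  have w1 := hw.w1
  have key : 0 < g45m.val [y, T, w.re, θ] :=
    chk1 l45m (by norm_num) (by constructor <;> push_cast <;> linarith only [y0, y1])
      (by constructor <;> push_cast <;> linarith only [T0, T1]) (by constructor <;> push_cast <;> linarith only [w0, w1])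
      (by constructor <;> push_cast <;> linarith only [t0, t1])
  rw [g45m_val, ← e] at key
  linarith only [key]

/-- the inner variable on its upper mirrored path to `3/10` -/
theorem far30u (y0 : 0 ≤ y) (y1 : y ≤ 8 / 10) (T0 : -(123 / 1000) ≤ T) (T1 : T ≤ 5 / 1000)
    (hw : W3 w) : -ψm y < V2 ⟨3 / 10, T⟩ w -
      V2 ⟨y, 16 / 100 * tr 0 (8 / 10) (5 / 100) (5 / 100) y⟩ w +
      2 * Real.pi * (16 / 100 * tr 0 (8 / 10) (5 / 100) (5 / 100) y) := by
  obtain ⟨θ, t0, t1, e⟩ := hw.par
  have w0 := hw.w0
  have w1 := hw.w1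
  have key : 0 < g30u.val [y, T, w.re, θ] :=
    chk1 l30u (by norm_num) (by constructor <;> push_cast <;> linarith only [y0, y1])
      (by constructor <;> push_cast <;> linarith only [T0, T1]) (by constructor <;> push_cast <;> linarith only [w0, w1])
      (by constructor <;> push_cast <;> linarith only [t0, t1])
  rw [g30u_val, ← e] at key
  linarith only [key]

/-- the inner variable on its lower mirrored path to `3/10` -/
theorem far30d (y0 : 0 ≤ y) (y1 : y ≤ 8 / 10) (T0 : -(123 / 1000) ≤ T) (T1 : T ≤ 5 / 1000)
    (hw : W3 w) : -ψm y < V2 ⟨3 / 10, T⟩ w -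
      V2 ⟨y, -(16 / 100 * tr 0 (8 / 10) (5 / 100) (5 / 100) y)⟩ w +
      2 * Real.pi * (16 / 100 * tr 0 (8 / 10) (5 / 100) (5 / 100) y) := by
  obtain ⟨θ, t0, t1, e⟩ := hw.par
  have w0 := hw.w0
  have w1 := hw.w1
  have key : 0 < g30d.val [y, T, w.re, θ] :=
    chk1 l30d (by norm_num) (by constructor <;> push_cast <;> linarith only [y0, y1])
      (by constructor <;> push_cast <;> linarith only [T0, T1]) (by constructor <;> push_cast <;> linarith only [w0, w1])
      (by constructor <;> push_cast <;> linarith only [t0, t1])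
  rw [g30d_val, ← e] at key
  linarith only [key]

end KE

end Pool.Agent.Work.MP_b30479_gt.G2
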