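import Pool.Agent.Work.MP_b30479_gt.G2.WMGd

/-!
# Mirrored paths: rows of the kind `3 | 3`, the lower `3` at an end, the other one in its slot `0`
-/

namespace Pool.Agent.Work.MP_b30479_gt.G2

open Finset VOL Filter Topology

namespace KE

open NumG

theorem nQ_val {cc m n0 n1 : ℤ} {x y z w : ℝ} : (nQ cc m n0 n1).val [x, y, z, w] =
    V3 ⟨(cc : ℝ) / 10000, x⟩ ⟨(m : ℝ) / 10000, y⟩ 0 - ((n0 : ℝ) / 10000 + (n1 : ℝ) / 10000 * x) := by
  simp only [nQ, aff, E.val, E.V3e_val, E.c, v0, v1]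
  push_cast
  rfl

noncomputable def basR (n0 n1 : ℤ) (x T : ℝ) : ℝ :=
  (n0 : ℝ) / 10000 + (n1 : ℝ) / 10000 * T +
    (2 * Real.pi * (16 / 100 * tr 0 (6 / 10) (12 / 100) (3 / 10) x) - plR x 252 oL)

theorem bas_val {n0 n1 : ℤ} {x y z w : ℝ} : (bas n0 n1).val [x, y, z, w] = basR n0 n1 x y := by
  unfold bas basR
  simp only [aff, E.val, E.pl_val, E.c, v0, v1, P2_val (show 0 < 120 by norm_num) (by norm_num)]
  push_cast
  rw [show (120 : ℝ) / 1000 = 12 / 100 by norm_num]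

theorem eK_val {cc n0 n1 : ℤ} {t : E} {x y z w : ℝ} : (eK cc n0 n1 t).val [x, y, z, w] =
    basR n0 n1 x y + (VA ⟨(cc : ℝ) / 10000, -y⟩ ⟨z, t.val [x, y, z, w]⟩ -
      VA ⟨x, 16 / 100 * tr 0 (6 / 10) (12 / 100) (3 / 10) x⟩ ⟨z, t.val [x, y, z, w]⟩) := by
  unfold eK
  simp only [E.val, bas_val, eVA_val, E.c, v0, v1, v2, hh_val (show 0 < 120 by norm_num) (by norm_num)]
  push_cast
  rw [show (120 : ℝ) / 1000 = 12 / 100 by norm_num]

theorem eR_val {cc m n0 n1 : ℤ} {t : E} {x y z w : ℝ} : (eR cc m n0 n1 t).val [x, y, z, w] =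
    basR n0 n1 x y + (VF ⟨(cc : ℝ) / 10000, -y⟩ ⟨(m : ℝ) / 10000, w⟩ -
      VF ⟨x, 16 / 100 * tr 0 (6 / 10) (12 / 100) (3 / 10) x⟩ ⟨z, t.val [x, y, z, w]⟩) := by
  unfold eR
  simp only [E.val, bas_val, eVF_val, E.c, v0, v1, v2, v3,
    hh_val (show 0 < 120 by norm_num) (by norm_num)]
  push_cast
  rw [show (120 : ℝ) / 1000 = 12 / 100 by norm_num]

theorem tM_val {x y z w : ℝ} :
    tM.val [x, y, z, w] = w * tr 0 (8 / 10) (5 / 100) (5 / 100) z := by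
  unfold tM
  simp only [E.val, tL_val, v2, v3]

theorem tU_val {x y z w : ℝ} :
    tU.val [x, y, z, w] = 16 / 100 * tr 0 (8 / 10) (5 / 100) (5 / 100) z := by
  unfold tU
  simp only [E.val, tL_val, v2, E.c]
  push_cast
  norm_num

end KE

end Pool.Agent.Work.MP_b30479_gt.G2
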