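import Pool.Agent.Work.MP_b30479_gt.G2.WMGx
import Pool.Agent.Work.NumI.TreeS
import Pool.Agent.Work.NumU.GenF

/-!
# Pieces of the certificates of `WMGr2`, part 2
-/


namespace Pool.Agent.Work.MP_b30479_gt.G2.KE
open NumG

theorem oldD130m_p4 : Pool.Agent.Work.NumI.runE (Pool.Agent.Work.NumG.tst [oD 275 [(0, 9, 2), (100, -927, 200), (300, -317, 200), (350, 3, 20), (450, -119, 300)] 130 (.mul (.var 2) li)])
    0 0 3092376454 0 39 0 41231686043 26456998544 52913997088 0 7146825582 0 2
    18675090251372510380667156423369894344301167844782886612574065733465086930615146731583339569311034437952197874510076672939111854478501166444437261110353764709448106446959991078101058973075243780994758424839472655840581684177918336198980189208091442432929574862694370108280781524721689998588732252750508907530839030466928521707496524857112115993098560761178442991311885641105789922101992492211687771697388387879477835735215044017886967500606362320157310649316783224774838124918147223885154600537283927147459190624276676717713675832128907972637703835327979299857983594013640396255000393399297619419077662973726101451995721238910511309125274886458796559857642785747451367713960009289844215571487645016513660871295641325666432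
    0 = true := by
  decide +kernel

theorem oldD130u : chkF [oDp 275 [(0, 9, 2), (100, -927, 200), (300, -317, 200), (350, 3, 20), (450, -119, 300)] 130 (.mul (E.c 1600) li)]
    1000 0 0 0 0 40 0 600 0 770 0 0 0 0 129985860492708479404588871900439245598454619113680096870540104274329218481159907341598210586135224471768645792568413550745845882672603475099875979788824783576279975638780726103424979695425661497117790219239703684026982675409844085337936191551779054984059761618599937 = true := by
  decide +kernel

theorem oldD130d : chkF [oDp 275 [(0, 9, 2), (100, -927, 200), (300, -317, 200), (350, 3, 20), (450, -119, 300)] 130 (.mul (E.c (-1600)) li)]
    1000 0 0 0 0 40 0 600 0 770 0 0 0 0 796823069700840035137700558463301673921454225412544465968942095256108907536281057317912880861329657880019149850361160515989245974945538224585109052101549175656807085691837704745559509833122547013170609175282692456436625171699388258075387962423137090863882028811987806869922084199705403911228503781206019307156177355292673 = true := by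
  decide +kernel

end Pool.Agent.Work.MP_b30479_gt.G2.KE
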