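import Pool.Agent.Work.MP_b30479_gt.G2.WMGx
import Pool.Agent.Work.NumU.GenF

/-!
# Mirrored paths: rows of the kinds of the ends
-/

namespace Pool.Agent.Work.MP_b30479_gt.G2.KE

open NumG

theorem c1f : chkF [fEE]
    1000 0 0 0 0 40 0 600 0 1 0 0 0 0 17730707128320 = true := by
  decide +kernel

theorem c4f : chkF [fE 3880 0 270 [(0, 8, 5), (50, 2, 1), (100, -18, 5), (300, -73, 55), (575, 29, 55)]]
    1000 0 0 0 0 40 0 600 65 69 0 0 0 0 17730707128320 = true := by
  decide +kernel

theorem c4n : chkF [nN 3880 0]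
    1000 0 45 0 0 40 65 69 0 104 0 0 0 0 1082196097 = true := by
  decide +kernel

theorem c6f : chkF [fTT 6360 275 [(0, 9, 2), (100, -927, 200), (300, -317, 200), (350, 3, 20), (450, -119, 300)] 270 [(0, 8, 5), (50, 2, 1), (100, -18, 5), (300, -73, 55), (575, 29, 55)]]
    1000 0 0 0 0 40 0 600 0 0 0 0 0 0 17730707128320 = true := by
  decide +kernel

theorem c6n : chkF [nP 3180 0]
    1000 1 45 0 0 40 0 2 0 104 0 0 0 0 4759334298038543859841 = true := by
  decide +kernel

end Pool.Agent.Work.MP_b30479_gt.G2.KE
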