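import Pool.Agent.Work.MP_b30479_gt.G2.WMGx
import Pool.Agent.Work.NumU.GenF

/-!
# Mirrored paths: rows of the kind `3 | 3`, end and slot `0`
-/

namespace Pool.Agent.Work.MP_b30479_gt.G2.KE

open NumG

theorem c7mb : chkF (rM 2000 3165 (-12000))
    1000 0 0 0 123 40 500 600 5 28 0 600 0 128 48007720631936454301833434044008454572977999289214376432216738457416344237867634622595309963568275736288719239172616428174547101202761416962 = true := by
  decide +kernel

theorem c7mc : chkF (rM3 2000 3165 (-12000))
    1000 0 0 0 123 40 500 600 5 28 600 800 0 128 6633845132168176706300347517321512519215454645118094816491651074 = true := by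
  decide +kernel

theorem c7ub : chkF (rU 2000 3165 (-12000))
    1000 0 0 0 123 40 500 600 5 28 0 800 0 128 24712250669020109526023938914044702545509473211157348610 = true := by
  decide +kernel

theorem c7db : chkF (rD 2000 3165 (-12000))
    1000 0 0 0 123 40 500 600 5 28 0 800 0 128 6646500554000594184737908952021465443910236431683024663577919746 = true := by
  decide +kernel

theorem c7n : chkF [nQ 2000 3500 3165 (-12000)]
    1000 0 45 0 0 40 5 28 0 104 0 0 0 0 6633842772172937227151774402127669858718236249940686206075469953 = true := by
  decide +kernel

end Pool.Agent.Work.MP_b30479_gt.G2.KE
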