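import Pool.Agent.Work.MP_b30479_gt.G2.WMHbb
import Pool.Agent.Work.MP_b30479_gt.G2.WLocA
import Pool.Agent.Work.MP_b30479_gt.G2.WRnd

/-!
# Mirrored paths: a lower `3` with the hinge in its slot `2`, the other region is a `3`

Gains of the side of this region for the targets `2/10` (all `x`) and `25/100`, `3/10`, `35/100`,
`4/10` (`x ≥ 54/100`).
-/

namespace Pool.Agent.Work.MP_b30479_gt.G2

open Finset VOL Filter Topology

namespace SR

variable {M : ℕ} {b : Fin (M + 1) → ℤ} {zs : DD (tyW b) ⊕ ZZ (tyW b) → ℂ}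
variable {R : Finset (DD (tyW b))} {nb : Finset (DD (tyW b) ⊕ ZZ (tyW b))}
variable {z : DD (tyW b) ⊕ ZZ (tyW b) → ℂ} {p : DD (tyW b) → ℝ}
variable {h h' : Fin M} {i j j' : Fin (M + 1)} {s : Fin 3} {x c : ℝ}

/-- window of the inner variable of a `3` with a `3` behind its slot `2` -/
theorem Tm3_three (hX : LocX b zs) (m : {i : Fin (M + 1) // (tyW b i).isMid = true})
    (A : Adj h m.1 0 j) (A' : Adj h' m.1 2 j') (hc : clsW b m.1 = .three)
    (hj : clsW b j' = .three) : -(116 / 1000) ≤ Tm b zs m ∧ Tm b zs m ≤ 5 / 1000 ∧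
      (clsW b j = .one → -(82 / 1000) ≤ Tm b zs m) := by
  have h1 := hX.mid m.2 A A' hc
  obtain ⟨h2, h3, -, -⟩ := h1
  have e : ofs (b m.1) (zs (.inl (.inr ⟨m.1, m.2⟩))).im = Tm b zs m := rfl
  rw [e] at h2 h3
  rw [hj] at h2 h3
  rcases hk : clsW b j <;> rw [hk] at h2 h3 <;> simp only [mw] at h2 h3 <;>
    refine ⟨by linarith only [h2], by linarith only [h3], fun h4 => ?_⟩ <;> first | linarith only [h2] | exact absurd h4 (by decide)

/-- the hinge in the slot `0` of a `3`, digit `1` behind -/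
theorem NPos.U1 (hb : ClassW b) (hL : Loc b zs) (A' : Adj h' i 0 j') (hi : clsW b i = .three)
    (hj : clsW b j' = .one) {X : ℂ} (h0 : NPos b zs nb p h' i 0 X) : KE.U1 X := by
  have hT := Th_mem hb hL A' (by rw [hi]; decide)
  rw [hi, hj] at hT
  simp only [hbox] at hT
  have hX : wXM b h' = 65 / 100 ∧ wcl b h' = 13 / 100 ∧ wcr b h' = 15 / 100 := by
    unfold wXM wcl wcr
    cases A'
    rw [hi, hj]
    exact ⟨rfl, rfl, rfl⟩
  have hm : mhs b h' 2 = 1 / 2 := by
    unfold mhs
    cases A'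
    rw [if_pos ⟨hj, hi⟩]
  cases h0 with
  | main y y0 y1 hn e hp =>
    have ht := trh_mem (b := b) h' y
    rw [trh_eq hX] at ht e
    rw [hX.1] at y1
    rw [e]
    refine ⟨y0, y1, Or.inl ⟨?_, ?_⟩⟩
    · show _ ≤ Th b zs h' i * tr 0 (65 / 100) (13 / 100) (15 / 100) y
      exact mul_le_mul_of_nonneg_right (by linarith only [hT, hT.1]) ht.1
    · show Th b zs h' i * tr 0 (65 / 100) (13 / 100) (15 / 100) y ≤ 0
      exact mul_nonpos_of_nonpos_of_nonneg (by linarith only [hT, hT.2]) ht.1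
  | real y y0 y1 hn e hp =>
    have ht := trh_mem (b := b) h' y
    rw [trh_eq hX] at ht
    rw [hX.1] at y1
    rw [e]
    refine ⟨y0, y1, Or.inl ⟨?_, le_rfl⟩⟩
    show _ * tr 0 (65 / 100) (13 / 100) (15 / 100) y ≤ 0
    exact mul_nonpos_of_nonpos_of_nonneg (by norm_num) ht.1
  | up y y0 y1 hn hr hT' e hp =>
    rw [trh_eq hX] at e
    rw [hX.1] at y1
    have e' : X = ⟨y, mhs b h' 2 * tr 0 (65 / 100) (13 / 100) (15 / 100) y⟩ := e
    rw [e', hm]
    exact ⟨y0, y1, Or.inr rfl⟩
  | dn y y0 y1 hn hr hT' e hp =>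
    exfalso
    linarith only [hT, hT', hT.2]

/-- no digit `1` behind -/
theorem NPos.U2 (hb : ClassW b) (hL : Loc b zs) (A' : Adj h' i 0 j') (hi : clsW b i = .three)
    (hj : clsW b j' ≠ .one) {X : ℂ} (h0 : NPos b zs nb p h' i 0 X) : KE.U2 X := by
  have hT := Th_mem hb hL A' (by rw [hi]; decide)
  have hre := h0.re
  by_cases h2 : clsW b j' = .two
  · rw [hi, h2] at hT
    simp only [hbox] at hT
    have hX : wXM b h' = 6 / 10 ∧ wcl b h' = 12 / 100 ∧ wcr b h' = 27 / 100 := by
      unfold wXM wcl wcr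
      cases A'
      rw [hi, h2]
      simp only [hp]
      norm_num
    have hm : mhs b h' 2 = 3 / 10 ∧ mhs b h' 0 = 16 / 100 := by
      unfold mhs
      cases A'
      rw [hi, h2]
      constructor
      · rw [if_neg (fun h3 => absurd h3.1 (by decide)), if_pos ⟨rfl, rfl, rfl⟩]
      · rw [if_neg (fun h3 => absurd h3.1 (by decide)),
          if_neg (fun h3 => absurd h3.2.2 (by decide))]
    rw [hX.1] at hre
    cases h0 with
    | main y y0 y1 hn e hp =>
      have ht := trh_mem (b := b) h' y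
      rw [trh_eq hX] at ht e
      rw [e]
      refine ⟨y0, by rw [e] at hre; exact hre.2, Or.inl ?_⟩
      show |Th b zs h' i * tr 0 (6 / 10) (12 / 100) (27 / 100) y| ≤
        16 / 100 * tr 0 (6 / 10) (12 / 100) (27 / 100) y
      rw [abs_mul, abs_of_nonneg ht.1]
      refine mul_le_mul_of_nonneg_right ?_ ht.1
      rw [abs_le]
      constructor <;> linarith only [hT, hT.1, hT.2]
    | real y y0 y1 hn e hp =>
      have ht := trh_mem (b := b) h' y
      rw [trh_eq hX] at ht
      rw [e]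
      refine ⟨y0, by rw [e] at hre; exact hre.2, Or.inl ?_⟩
      show |(0 : ℝ)| ≤ 16 / 100 * tr 0 (6 / 10) (12 / 100) (27 / 100) y
      rw [abs_zero]
      exact mul_nonneg (by norm_num) ht.1
    | up y y0 y1 hn hr hT' e hp =>
      rw [trh_eq hX] at e
      have e' : X = ⟨y, mhs b h' 2 * tr 0 (6 / 10) (12 / 100) (27 / 100) y⟩ := e
      rw [e', hm.1]
      exact ⟨y0, by rw [e] at hre; exact hre.2, Or.inr rfl⟩
    | dn y y0 y1 hn hr hT' e hp =>
      have ht := trh_mem (b := b) h' y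
      rw [trh_eq hX] at ht e
      rw [e, hm.2]
      refine ⟨y0, by rw [e] at hre; exact hre.2, Or.inl ?_⟩
      show |-(16 / 100 * tr 0 (6 / 10) (12 / 100) (27 / 100) y)| ≤ _
      rw [abs_neg, abs_of_nonneg (mul_nonneg (by norm_num) ht.1)]
  · have hm : ∀ q, mhs b h' q = 16 / 100 := by
      intro q
      unfold mhs
      cases A'
      rw [if_neg (fun h3 => hj h3.1), if_neg (fun h3 => h2 h3.1)]
    have hH : |Th b zs h' i| ≤ 16 / 100 := by
      rw [abs_le]
      rw [hi] at hT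
      rcases hk : clsW b j' <;> rw [hk] at hT <;> simp only [hbox] at hT <;> first
        | exact absurd hk hj
        | exact absurd hk h2
        | (constructor <;> linarith only [hT, hT.1, hT.2])
    have h3 := h0.abs_im hH fun _ => ⟨(hm _).le, (hm _).le⟩
    have ht := trh_ub (b := b) h' hre.1 hre.2
    have key : 12 / 100 * trh b h' X.re ≤ X.re ∧ 27 / 100 * trh b h' X.re ≤ 60 / 100 - X.re ∧
        X.re ≤ 60 / 100 := by
      cases A' with
      | r =>
        unfold wXM wcl wcr at ht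
        unfold wXM at hre
        rw [hi] at ht hre
        rcases hk : clsW b h'.castSucc <;> rw [hk] at ht hre <;> simp only [hp] at ht hre <;> first
          | exact absurd hk hj
          | exact absurd hk h2
          | (refine ⟨?_, ?_, ?_⟩ <;> linarith only [ht, hre, ht.1, ht.2.1, ht.2.2.1, ht.2.2.2, hre.1, hre.2])
    refine ⟨hre.1, by linarith only [ht, key, key.2.2], Or.inl (h3.trans ?_)⟩
    refine KE.le_tr (by norm_num) (by norm_num) ?_ ?_ ?_ (by norm_num)
    · linarith only [ht, ht.2.1]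
    · linarith only [key, key.1]
    · linarith only [key, key.2.1]

theorem mhs_three2 (A : Adj h i 2 j) (hi : clsW b i = .three) : mhs b h 2 = 16 / 100 := by
  have hcs : clsW b h.castSucc = .three := by
    cases A
    exact hi
  unfold mhs
  rw [hcs, if_neg (fun h3 => absurd h3.1 (by decide)), if_neg (fun h3 => absurd h3.1 (by decide))]

/-- **Gain of the lower `3`**, hinge in its slot `2`, from a table. -/
theorem side_tab {t x0 : ℝ} {φ : ℝ → ℝ} (H : KE.TabH c t x0 φ)
    (htr : tr 0 (6 / 10) (13 / 100) (3 / 10) c = t) (hb : ClassW b) (L : LocA b zs)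
    (hN : NbT b R nb) (hM : MM b zs R nb z p) (hq : ∀ h : Fin M, RH1 b (.inl h) → p (.inl h) = 0)
    (D : Md b zs nb z p h i 2 j x) (hi : clsW b i = .three) (hj : clsW b j = .three)
    (hx : x0 ≤ x) : SideG b zs nb z p h i (tg b zs h c) (φ x) := by
  obtain ⟨m, hm⟩ : ∃ m : {i : Fin (M + 1) // (tyW b i).isMid = true}, m.1 = i :=
    ⟨⟨i, tyW_isMid (Or.inl hi)⟩, rfl⟩
  subst hm
  have hT := Th_mem hb L.L D.adj D.ri
  rw [hi, hj] at hT
  simp only [hbox] at hT
  have hX : wXM b h = 6 / 10 ∧ wcl b h = 13 / 100 ∧ wcr b h = 3 / 10 := by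
    have h1 := par_three2 D.adj hi (by rw [hj]; decide)
    refine ⟨h1.1.trans (by norm_num), h1.2.1, h1.2.2.trans (by norm_num)⟩
  have hx1 := D.x1.le
  rw [hX.1] at hx1
  have T0 := D.T0
  have h16 := mhs_three2 D.adj hi
  obtain ⟨hnn, I⟩ := hM.ipos hN m D.adj D.nn
  obtain ⟨h2, j2, A2⟩ := D.adj.other' b (clsW_inner hb (Or.inr (Or.inr hi)))
  have hu : NPos b zs nb p h2 m.1 0 (Ow b z m.1 0) := hM.npos hb hN hq D.adj D.nn A2
  obtain ⟨t0, t1, t2⟩ := Tm3_three L.X m A2 D.adj hi hj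
  have eo : Ow b z m.1 2 = ⟨x, -(16 / 100 * tr 0 (6 / 10) (13 / 100) (3 / 10) x)⟩ := by
    rw [D.own, h16, trh_eq hX]
  have et : tgo b zs h m.1 c = ⟨c, t * Th b zs h m.1⟩ := by
    unfold tgo
    rw [trh_eq hX, htr, mul_comm]
  have k := side_three2 (zs := zs) (nb := nb) (z := z) (p := p) hb D.adj hi c
  rw [et, eo] at k
  have y1' : (mp (clsW b m.1)).XM = 8 / 10 := by rw [hi]; rfl
  -- the inner variable moved
  have sR : ∀ {c' : ℝ}, 5 / 100 ≤ c' → c' ≤ 75 / 100 →
      SideG b zs nb z p h m.1 (tg b zs h c)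
        (KE.VA (Ow b z m.1 0) ⟨c', Tm b zs m⟩ + KE.VB ⟨c', Tm b zs m⟩ ⟨c, t * Th b zs h m.1⟩ -
        (KE.VA (Ow b z m.1 0) (Ow b z m.1 1) +
          KE.VB (Ow b z m.1 1) ⟨x, -(16 / 100 * tr 0 (6 / 10) (13 / 100) (3 / 10) x)⟩) +
        2 * Real.pi * p (.inr m)) := by
    intro c' d0 d1
    have k2 := inner_three2 (zs := zs) (nb := nb) (z := z) (p := p) (c := c) hb m D.adj hi hnn
      (c' := c') (by linarith only [d0]) (by linarith only [d1])
    rw [KE.V3_VAB, KE.V3_VAB, tgi_3 m hi d0 d1, et, eo] at k2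
    exact k2
  cases I with
  | main y y0 y1 e hp =>
    rw [y1'] at y1
    rw [e, trm3 m hi] at k
    exact k.mono (H.main hx hx1 T0 (by linarith only [hT, hT.2]) y0 y1 t0 t1).le
  | dn y y0 y1 hT' e hp =>
    rw [y1'] at y1
    rw [trm3 m hi] at e
    rw [e] at k
    exact k.mono (H.dn hx hx1 T0 (by linarith only [hT, hT.2]) y0 y1).le
  | up y y0 y1 hT' e hp =>
    rw [y1'] at y1
    rw [trm3 m hi] at e hp
    rw [e] at k
    by_cases hc1 : clsW b j2 = .one
    · have hU := hu.U1 hb L.L A2 hi hc1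
      rcases H.one hx hx1 T0 (by linarith only [hT, hT.2]) y0 y1 (t2 hc1) hT' with g | g | g
      · exact k.mono g.le
      · have hc := KE.chi20 hU y0 y1 (t2 hc1) hT'
        have k2 := sR (c' := 2 / 10) (by norm_num) (by norm_num)
        rw [e, hp] at k2
        refine k2.mono ?_
        linarith only [g, hc]
      · have hc := KE.chi25 hU y0 y1 (t2 hc1) hT'
        have k2 := sR (c' := 25 / 100) (by norm_num) (by norm_num)
        rw [e, hp] at k2
        refine k2.mono ?_
        linarith only [g, hc]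
    · have hU := hu.U2 hb L.L A2 hi hc1
      rcases H.oth hx hx1 T0 (by linarith only [hT, hT.2]) y0 y1 t0 hT' with g | g
      · exact k.mono g.le
      · have hc := KE.chi35 hU y0 y1 t0 hT'
        have k2 := sR (c' := 35 / 100) (by norm_num) (by norm_num)
        rw [e, hp] at k2
        refine k2.mono ?_
        linarith only [g, hc]

theorem tr_13_30 {y : ℝ} (h0 : 13 / 100 ≤ y) {t : ℝ} (ht0 : 0 ≤ t)
    (ht : t = min 1 ((6 / 10 - y) / (3 / 10))) : tr 0 (6 / 10) (13 / 100) (3 / 10) y = t := by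
  unfold tr
  have h3 : (1 : ℝ) ≤ (y - 0) / (13 / 100) := by
    rw [le_div_iff₀ (by norm_num)]
    linarith only [h0]
  rw [min_left_comm, min_eq_right (min_le_left _ _ |>.trans h3), ← ht, max_eq_right ht0]

section

variable (hb : ClassW b) (L : LocA b zs) (hN : NbT b R nb) (hM : MM b zs R nb z p)
  (hq : ∀ h : Fin M, RH1 b (.inl h) → p (.inl h) = 0) (D : Md b zs nb z p h i 2 j x)
  (hi : clsW b i = .three) (hj : clsW b j = .three)

include hb L hN hM hq D hi hj

theorem sideA20 : SideG b zs nb z p h i (tg b zs h (2 / 10)) (KE.q20 x) :=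
  side_tab KE.tab20 (tr_13_30 (by norm_num) (by norm_num)
    (by rw [min_eq_left (by norm_num)])) hb L hN hM hq D hi hj D.x0.le

theorem sideA25 (hx : 54 / 100 ≤ x) : SideG b zs nb z p h i (tg b zs h (25 / 100))
    (-65 / 1000 + 124 / 60 * (x - 54 / 100)) := by
  have h1 := side_tab KE.tab25 (tr_13_30 (by norm_num) (by norm_num)
    (by rw [min_eq_left (by norm_num)])) hb L hN hM hq D hi hj hx
  push_cast at h1
  exact h1

theorem sideA30 (hx : 54 / 100 ≤ x) : SideG b zs nb z p h i (tg b zs h (3 / 10))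
    (-87 / 1000 + 123 / 60 * (x - 54 / 100)) := by
  have h1 := side_tab KE.tab30 (tr_13_30 (by norm_num) (by norm_num)
    (by rw [min_eq_left (by norm_num)])) hb L hN hM hq D hi hj hx
  push_cast at h1
  exact h1

theorem sideA35 (hx : 54 / 100 ≤ x) : SideG b zs nb z p h i (tg b zs h (35 / 100))
    (-92 / 1000 + 122 / 60 * (x - 54 / 100)) := by
  have h1 := side_tab KE.tab35 (tr_13_30 (by norm_num) (by norm_num)
    (by rw [min_eq_right (by norm_num)]; norm_num)) hb L hN hM hq D hi hj hx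
  push_cast at h1
  exact h1

theorem sideA40 (hx : 54 / 100 ≤ x) : SideG b zs nb z p h i (tg b zs h (4 / 10))
    (-112 / 1000 + 112 / 60 * (x - 54 / 100)) := by
  have h1 := side_tab KE.tab40 (tr_13_30 (by norm_num) (by norm_num)
    (by rw [min_eq_right (by norm_num)]; norm_num)) hb L hN hM hq D hi hj hx
  push_cast at h1
  exact h1

end

end SR

end Pool.Agent.Work.MP_b30479_gt.G2
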