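import Pool.Agent.Work.MP_b30479_gt.G2.WMGd

/-!
# Mirrored paths: a lower `3` with the hinge in its slot `2`, definitions

The inner variable `l` is kept, or it moves to `m` on its main path.  `VB`: the part of the value
without the part `VA` of the hinge `u` in the slot `0`; `Chi`: the loss in the slot `0` if `l` leaves
its upper mirrored path.
-/

namespace Pool.Agent.Work.MP_b30479_gt.G2

open Finset VOL Filter Topology

namespace KE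

open NumG

/-- the part of the value of a `3` besides `VA` -/
noncomputable def VB (l w : ℂ) : ℝ := Real.pi * l.im + UU l + V2 l w

theorem V3_VAB (u l w : ℂ) : V3 u l w = VA u l + VB l w := by
  rw [V3_VF]
  unfold VF VA VB
  simp only [Complex.sub_im]
  ring

def eVB (x t y k : E) : E :=
  .sub (.sub (.uw (.add x y) (.add t k)) (.mul .pi (.add (.mul (.sub x y) (.sub t k))
    (.mul (.q 1 2) (.sub k t))))) (.add (.uw x t) (.mul (.q 2 1) (.uw y k)))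

theorem eVB_val {x t y k : E} {xs : List ℝ} :
    (eVB x t y k).val xs = VB ⟨x.val xs, t.val xs⟩ ⟨y.val xs, k.val xs⟩ := by
  unfold VB V2
  simp only [eVB, E.val, NumU.UU_uu, Complex.add_re, Complex.add_im, Complex.sub_im, Complex.sub_re,
    Complex.mul_im, pow_two]
  push_cast
  ring

/-- `VA u l' - VA u l` for `u = x + i t`, `l = y + i s`, `l' = y' + i s'` -/
def eAd (x t y s y' s' : E) : E :=
  .sub (.sub (.uw (.sub y x) (.sub s t)) (.uw (.sub y' x) (.sub s' t)))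
    (.mul .pi (.add (.mul x (.sub s' s)) (.mul (.sub y' y) t)))
def eAx (x t y s y' s' : E) : E :=
  .sub (.sub (.ux (.sub y x) (.sub s t)) (.ux (.sub y' x) (.sub s' t)))
    (.mul .pi (.add (.mul x (.sub s' s)) (.mul (.sub y' y) t)))

theorem eAd_val {x t y s y' s' : E} {xs : List ℝ} : (eAd x t y s y' s').val xs =
    VA ⟨x.val xs, t.val xs⟩ ⟨y'.val xs, s'.val xs⟩ - VA ⟨x.val xs, t.val xs⟩ ⟨y.val xs, s.val xs⟩ := by
  unfold VA
  simp only [eAd, E.val, NumU.UU_uu, Complex.sub_im, Complex.sub_re, Complex.mul_im]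
  ring

theorem eAx_val {x t y s y' s' : E} {xs : List ℝ} : (eAx x t y s y' s').val xs =
    VA ⟨x.val xs, t.val xs⟩ ⟨y'.val xs, s'.val xs⟩ - VA ⟨x.val xs, t.val xs⟩ ⟨y.val xs, s.val xs⟩ := by
  unfold VA
  simp only [eAx, E.val, NumU.UU_uu, Complex.sub_im, Complex.sub_re, Complex.mul_im]
  ring

/-- bounds of the losses: maximum of two functions `piecewise linear in y + linear in T` -/
def eCh (a0 : ℤ) (A : List (ℤ × ℤ × ℕ)) (a : ℤ) (b0 : ℤ) (B : List (ℤ × ℤ × ℕ)) (b : ℤ) (y T : E) :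
    E := E.mx (.add (E.pl y a0 A) (.mul (E.c a) T)) (.add (E.pl y b0 B) (.mul (E.c b) T))
noncomputable def ch (a0 : ℤ) (A : List (ℤ × ℤ × ℕ)) (a : ℤ) (b0 : ℤ) (B : List (ℤ × ℤ × ℕ)) (b : ℤ)
    (y T : ℝ) : ℝ :=
  max (plR y a0 A + (a : ℝ) / 10000 * T) (plR y b0 B + (b : ℝ) / 10000 * T)

theorem eCh_val {a0 : ℤ} {A : List (ℤ × ℤ × ℕ)} {a : ℤ} {b0 : ℤ} {B : List (ℤ × ℤ × ℕ)} {b : ℤ}
    {y T : E} {xs : List ℝ} :
    (eCh a0 A a b0 B b y T).val xs = ch a0 A a b0 B b (y.val xs) (T.val xs) := by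
  unfold eCh ch
  rw [E.mx_val]
  simp only [E.val, E.pl_val, E.c]
  push_cast
  rfl

def c20 (y T : E) : E := eCh 640 [(0, -65, 2), (10, 9, 5), (20, 1, 5), (30, 7, 20), (50, 603, 20)] 17450 296 [(0, -79, 5), (20, 1, 3), (50, 232, 15), (750, 91, 5)] 10000 y T
def c25 (y T : E) : E := eCh 797 [(0, -327, 10), (10, 2, 1), (20, 13, 30), (50, 454, 15)] 15800 300 [(0, -331, 20), (20, 3, 4), (50, 79, 5), (750, 921, 50)] 8000 y T
def c35 (y T : E) : E := eCh 640 [(0, -166, 5), (5, 18, 5), (10, 1, 5), (20, 1, 10), (30, 7, 20), (50, 579, 20)] 11170 268 [(0, -309, 20), (20, -1, 60), (50, 232, 15), (750, 171, 10)] 10300 y T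
noncomputable def χ20 (y T : ℝ) : ℝ := ch 640 [(0, -65, 2), (10, 9, 5), (20, 1, 5), (30, 7, 20), (50, 603, 20)] 17450 296 [(0, -79, 5), (20, 1, 3), (50, 232, 15), (750, 91, 5)] 10000 y T
noncomputable def χ25 (y T : ℝ) : ℝ := ch 797 [(0, -327, 10), (10, 2, 1), (20, 13, 30), (50, 454, 15)] 15800 300 [(0, -331, 20), (20, 3, 4), (50, 79, 5), (750, 921, 50)] 8000 y T
noncomputable def χ35 (y T : ℝ) : ℝ := ch 640 [(0, -166, 5), (5, 18, 5), (10, 1, 5), (20, 1, 10), (30, 7, 20), (50, 579, 20)] 11170 268 [(0, -309, 20), (20, -1, 60), (50, 232, 15), (750, 171, 10)] 10300 y T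

/-- ramp functions of the hinge in the slot `0`, height `s` (variable `3`) -/
def t65 (s : E) : E := .mul s (E.tr 650 130 150 (.var 2))
def t60 (s : E) : E := .mul s (E.tr 600 120 270 (.var 2))

/-- rows: variables `y`, `T`, `u.re`, `s` -/
def rC (ch : E) (m : ℤ) (t : E) : E :=
  .add (.add ch (.mul .pi (.mul (E.c 3200) (tL (.var 0)))))
    (eAd (.var 2) t (.var 0) (.mul (E.c 1600) (tL (.var 0))) (E.c m) (.var 1))
def rX (ch : E) (m : ℤ) (t : E) : E :=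
  .add (.add ch (.mul .pi (.mul (E.c 3200) (tL (.var 0)))))
    (eAx (.var 2) t (.var 0) (.mul (E.c 1600) (tL (.var 0))) (E.c m) (.var 1))

/-- **Loss in the slot `0`** if the inner variable leaves its upper mirrored path for `m` -/
def Chi (P : ℂ → Prop) (T0 m : ℝ) (χ : ℝ → ℝ → ℝ) : Prop :=
  ∀ {u : ℂ} {y T : ℝ}, P u → 0 ≤ y → y ≤ 8 / 10 → T0 ≤ T → T ≤ 0 →
    0 < χ y T + 2 * Real.pi * (16 / 100 * tr 0 (8 / 10) (5 / 100) (5 / 100) y) +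
      (VA u ⟨m, T⟩ - VA u ⟨y, 16 / 100 * tr 0 (8 / 10) (5 / 100) (5 / 100) y⟩)

/-- positions of the hinge in the slot `0`, digit `1` behind -/
def U1 (u : ℂ) : Prop := 0 ≤ u.re ∧ u.re ≤ 65 / 100 ∧
  ((-(1145 / 10000) * tr 0 (65 / 100) (13 / 100) (15 / 100) u.re ≤ u.im ∧ u.im ≤ 0) ∨
    u.im = 1 / 2 * tr 0 (65 / 100) (13 / 100) (15 / 100) u.re)
/-- no digit `1` behind -/
def U2 (u : ℂ) : Prop := 0 ≤ u.re ∧ u.re ≤ 6 / 10 ∧
  (|u.im| ≤ 16 / 100 * tr 0 (6 / 10) (12 / 100) (27 / 100) u.re ∨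
    u.im = 3 / 10 * tr 0 (6 / 10) (12 / 100) (27 / 100) u.re)

theorem rC_val {c : E} {m : ℤ} {t : E} {y T x s : ℝ} : (rC c m t).val [y, T, x, s] =
    c.val [y, T, x, s] + 2 * Real.pi * (16 / 100 * tr 0 (8 / 10) (5 / 100) (5 / 100) y) +
      (VA ⟨x, t.val [y, T, x, s]⟩ ⟨(m : ℝ) / 10000, T⟩ -
        VA ⟨x, t.val [y, T, x, s]⟩ ⟨y, 16 / 100 * tr 0 (8 / 10) (5 / 100) (5 / 100) y⟩) := by
  unfold rC
  rw [E.val, E.val, eAd_val]
  simp only [E.val, v0, v1, v2, E.c, tL_val]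
  norm_num
  ring

theorem rX_val {c : E} {m : ℤ} {t : E} {y T x s : ℝ} : (rX c m t).val [y, T, x, s] =
    c.val [y, T, x, s] + 2 * Real.pi * (16 / 100 * tr 0 (8 / 10) (5 / 100) (5 / 100) y) +
      (VA ⟨x, t.val [y, T, x, s]⟩ ⟨(m : ℝ) / 10000, T⟩ -
        VA ⟨x, t.val [y, T, x, s]⟩ ⟨y, 16 / 100 * tr 0 (8 / 10) (5 / 100) (5 / 100) y⟩) := by
  unfold rX
  rw [E.val, E.val, eAx_val]
  simp only [E.val, v0, v1, v2, E.c, tL_val]
  norm_num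
  ring

theorem t65_val {s : E} {y T x z : ℝ} : (t65 s).val [y, T, x, z] =
    s.val [y, T, x, z] * tr 0 (65 / 100) (13 / 100) (15 / 100) x := by
  unfold t65
  rw [E.val, E.tr_val (by norm_num) (by norm_num) (by norm_num)]
  simp only [E.val, v2]
  norm_num

theorem t60_val {s : E} {y T x z : ℝ} : (t60 s).val [y, T, x, z] =
    s.val [y, T, x, z] * tr 0 (6 / 10) (12 / 100) (27 / 100) x := by
  unfold t60
  rw [E.val, E.tr_val (by norm_num) (by norm_num) (by norm_num)]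
  simp only [E.val, v2]
  norm_num

/-! ### rows with the variables `x`, `T`, `y`, `T_l` -/

/-- inner variable kept at `y + i s` -/
def kE (c n : ℤ) (d : ℕ) (s : E) : E :=
  E.dV2 (E.c c) (.mul (.q n d) (.var 1)) (.var 0) (.neg (hh 130)) (.var 2) s
/-- inner variable from its upper mirrored path to `m` -/
def rE (c n : ℤ) (d : ℕ) (m : ℤ) (ch : E) : E :=
  .sub (.sub (eVB (E.c m) (.var 3) (E.c c) (.mul (.q n d) (.var 1)))
    (eVB (.var 2) (.mul (E.c 1600) (tL (.var 2))) (.var 0) (.neg (hh 130)))) ch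

theorem kE_val {c n : ℤ} {d : ℕ} {s : E} {x T y L : ℝ} : (kE c n d s).val [x, T, y, L] =
    V2 ⟨(c : ℝ) / 10000, (n : ℝ) / d * T⟩ ⟨y, s.val [x, T, y, L]⟩ -
      V2 ⟨x, -(16 / 100 * tr 0 (6 / 10) (13 / 100) (3 / 10) x)⟩ ⟨y, s.val [x, T, y, L]⟩ := by
  unfold kE
  rw [E.dV2_val]
  simp only [E.val, v0, v1, v2, E.c, hh_val (cl := 130) (by norm_num) (by norm_num)]
  norm_num

theorem rE_val {c n : ℤ} {d : ℕ} {m : ℤ} {h : E} {x T y L : ℝ} :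
    (rE c n d m h).val [x, T, y, L] =
    VB ⟨(m : ℝ) / 10000, L⟩ ⟨(c : ℝ) / 10000, (n : ℝ) / d * T⟩ -
      VB ⟨y, 16 / 100 * tr 0 (8 / 10) (5 / 100) (5 / 100) y⟩
        ⟨x, -(16 / 100 * tr 0 (6 / 10) (13 / 100) (3 / 10) x)⟩ - h.val [x, T, y, L] := by
  unfold rE
  rw [E.val, E.val, eVB_val, eVB_val]
  simp only [E.val, v0, v1, v2, v3, E.c, tL_val, hh_val (cl := 130) (by norm_num) (by norm_num)]
  norm_num

/-- gains for the target `c` (height `t T` there) for `x0 ≤ x`: at least `φ` -/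
structure TabH (c t x0 : ℝ) (φ : ℝ → ℝ) : Prop where
  main : ∀ {x T y L : ℝ}, x0 ≤ x → x ≤ 6 / 10 → 0 ≤ T → T ≤ 22 / 1000 → 0 ≤ y → y ≤ 8 / 10 →
    -(116 / 1000) ≤ L → L ≤ 5 / 1000 →
    φ x < V2 ⟨c, t * T⟩ ⟨y, L * tr 0 (8 / 10) (5 / 100) (5 / 100) y⟩ -
      V2 ⟨x, -(16 / 100 * tr 0 (6 / 10) (13 / 100) (3 / 10) x)⟩
        ⟨y, L * tr 0 (8 / 10) (5 / 100) (5 / 100) y⟩
  dn : ∀ {x T y : ℝ}, x0 ≤ x → x ≤ 6 / 10 → 0 ≤ T → T ≤ 22 / 1000 → 0 ≤ y → y ≤ 8 / 10 →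
    φ x < V2 ⟨c, t * T⟩ ⟨y, -(16 / 100 * tr 0 (8 / 10) (5 / 100) (5 / 100) y)⟩ -
      V2 ⟨x, -(16 / 100 * tr 0 (6 / 10) (13 / 100) (3 / 10) x)⟩
        ⟨y, -(16 / 100 * tr 0 (8 / 10) (5 / 100) (5 / 100) y)⟩
  one : ∀ {x T y L : ℝ}, x0 ≤ x → x ≤ 6 / 10 → 0 ≤ T → T ≤ 22 / 1000 → 0 ≤ y → y ≤ 8 / 10 →
    -(82 / 1000) ≤ L → L ≤ 0 →
    φ x < V2 ⟨c, t * T⟩ ⟨y, 16 / 100 * tr 0 (8 / 10) (5 / 100) (5 / 100) y⟩ -
      V2 ⟨x, -(16 / 100 * tr 0 (6 / 10) (13 / 100) (3 / 10) x)⟩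
        ⟨y, 16 / 100 * tr 0 (8 / 10) (5 / 100) (5 / 100) y⟩ ∨
    φ x < VB ⟨2 / 10, L⟩ ⟨c, t * T⟩ - VB ⟨y, 16 / 100 * tr 0 (8 / 10) (5 / 100) (5 / 100) y⟩
      ⟨x, -(16 / 100 * tr 0 (6 / 10) (13 / 100) (3 / 10) x)⟩ - χ20 y L ∨
    φ x < VB ⟨25 / 100, L⟩ ⟨c, t * T⟩ - VB ⟨y, 16 / 100 * tr 0 (8 / 10) (5 / 100) (5 / 100) y⟩
      ⟨x, -(16 / 100 * tr 0 (6 / 10) (13 / 100) (3 / 10) x)⟩ - χ25 y L
  oth : ∀ {x T y L : ℝ}, x0 ≤ x → x ≤ 6 / 10 → 0 ≤ T → T ≤ 22 / 1000 → 0 ≤ y → y ≤ 8 / 10 →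
    -(116 / 1000) ≤ L → L ≤ 0 →
    φ x < V2 ⟨c, t * T⟩ ⟨y, 16 / 100 * tr 0 (8 / 10) (5 / 100) (5 / 100) y⟩ -
      V2 ⟨x, -(16 / 100 * tr 0 (6 / 10) (13 / 100) (3 / 10) x)⟩
        ⟨y, 16 / 100 * tr 0 (8 / 10) (5 / 100) (5 / 100) y⟩ ∨
    φ x < VB ⟨35 / 100, L⟩ ⟨c, t * T⟩ - VB ⟨y, 16 / 100 * tr 0 (8 / 10) (5 / 100) (5 / 100) y⟩
      ⟨x, -(16 / 100 * tr 0 (6 / 10) (13 / 100) (3 / 10) x)⟩ - χ35 y L

/-- lists of rows -/
def lM (c n : ℤ) (d : ℕ) (p : E) : List E := [.sub (kE c n d (.mul (.var 3) (tL (.var 2)))) p]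
def lD (c n : ℤ) (d : ℕ) (p : E) : List E :=
  [.sub (kE c n d (.neg (.mul (E.c 1600) (tL (.var 2))))) p]
def lO (c n : ℤ) (d : ℕ) (p : E) : List E :=
  [.sub (kE c n d (.mul (E.c 1600) (tL (.var 2)))) p,
    .sub (rE c n d 2000 (c20 (.var 2) (.var 3))) p, .sub (rE c n d 2500 (c25 (.var 2) (.var 3))) p]
def lT (c n : ℤ) (d : ℕ) (p : E) : List E :=
  [.sub (kE c n d (.mul (E.c 1600) (tL (.var 2)))) p,
    .sub (rE c n d 3500 (c35 (.var 2) (.var 3))) p]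

/-- the bounds -/
def p20 : E := E.pl (.var 0) 90 [(0, -103, 20), (20, 3, 4), (40, 11, 60), (100, 11, 60), (130, 404, 105), (200, 3, 35), (260, 1, 10), (300, 81, 50), (350, 1, 10), (400, 3, 25), (450, 1, 10), (500, 11, 100), (540, 0, 1)]
def pl2 (a k : ℤ) : E := .add (.q a 1000) (.mul (.q k 60) (.sub (.var 0) (.q 540 1000)))
noncomputable def q20 (x : ℝ) : ℝ := plR x 90 [(0, -103, 20), (20, 3, 4), (40, 11, 60), (100, 11, 60), (130, 404, 105), (200, 3, 35), (260, 1, 10), (300, 81, 50), (350, 1, 10), (400, 3, 25), (450, 1, 10), (500, 11, 100), (540, 0, 1)]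

end KE

end Pool.Agent.Work.MP_b30479_gt.G2
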