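import Pool.Agent.Work.MP_b30479_gt.G2.WMHba

/-!
# Certificates for a lower `3` with the hinge in its slot `2` (other targets)
-/

namespace Pool.Agent.Work.MP_b30479_gt.G2

namespace KE

open NumG

theorem hm25 : chkF (lM 2500 1 1 (pl2 (-65) 124))
    1000 0 0 0 116 50 540 600 0 22 0 800 0 121 478011683322051993161210119916884267287399435285052538063304963575679514497286402 = true := by
  decide +kernel

theorem hd25 : chkF (lD 2500 1 1 (pl2 (-65) 124))
    1000 0 0 0 0 50 540 600 0 22 0 800 0 0 5618915252786113583324803244282758415024386 = true := by
  decide +kernel

theorem ho25_540 : chkF (lO 2500 1 1 (pl2 (-65) 124))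
    1000 0 0 0 82 50 540 600 0 22 0 800 0 82 3722911174711148124218482208488469479233861651076443309373963976799334677076499128641269243823855165303479402004738 = true := by
  decide +kernel

theorem ht25_540 : chkF (lT 2500 1 1 (pl2 (-65) 124))
    1000 0 0 0 116 50 540 600 0 22 0 800 0 116 30890123272822025318182915729774213719299311488768966914 = true := by
  decide +kernel

theorem hm30 : chkF (lM 3000 1 1 (pl2 (-87) 123))
    1000 0 0 0 116 50 540 600 0 22 0 800 0 121 128315284185882622519910979241690520322123407633046005568491719935655491454098895397748994 = true := by
  decide +kernel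

theorem hd30 : chkF (lD 3000 1 1 (pl2 (-87) 123))
    1000 0 0 0 0 50 540 600 0 22 0 800 0 0 92060307501637382113950077867952638009913934082 = true := by
  decide +kernel

theorem ho30_540 : chkF (lO 3000 1 1 (pl2 (-87) 123))
    1000 0 0 0 82 50 540 600 0 22 0 800 0 82 2631947214755101906096386265389237414157635548190810671293451024064675894626148458893989150978 = true := by
  decide +kernel

theorem ht30_540 : chkF (lT 3000 1 1 (pl2 (-87) 123))
    1000 0 0 0 116 50 540 600 0 22 0 800 0 116 30890126195825299979988752137143879142640852863872434434 = true := by
  decide +kernel

theorem hm35 : chkF (lM 3500 5 6 (pl2 (-92) 122))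
    1000 0 0 0 116 50 540 600 0 22 0 800 0 121 151490224761611034499694376091713846046146245169920787610535556936962302895869791308204520701282356687903162626 = true := by
  decide +kernel

theorem hd35 : chkF (lD 3500 5 6 (pl2 (-92) 122))
    1000 0 0 0 0 50 540 600 0 22 0 800 0 0 92060307501647684949193274122872684383815368962 = true := by
  decide +kernel

theorem ho35_540 : chkF (lO 3500 5 6 (pl2 (-92) 122))
    1000 0 0 0 82 50 540 600 0 22 0 800 0 82 59914792525309451190015961637765039404529321251355508480527682452838709836163622756977063819305224529900401296504351370534593797064386183426 = true := by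
  decide +kernel

theorem ht35_540 : chkF (lT 3500 5 6 (pl2 (-92) 122))
    1000 0 0 0 116 50 540 600 0 22 0 800 0 116 30842235710173240953165094040451535889051590662677364994 = true := by
  decide +kernel

theorem hm40 : chkF (lM 4000 2 3 (pl2 (-112) 112))
    1000 0 0 0 116 50 540 600 0 22 0 800 0 121 786534677776607057126470555725109483261739741685911859090117151942086813896580686241500370314922207596259402342066656618389312722147551242912002 = true := by
  decide +kernel

theorem hd40 : chkF (lD 4000 2 3 (pl2 (-112) 112))
    1000 0 0 0 0 50 540 600 0 22 0 800 0 0 404885514961180518937871045380887999448543500917751437885698 = true := by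
  decide +kernel

theorem ho40_540 : chkF (lO 4000 2 3 (pl2 (-112) 112))
    1000 0 0 0 82 50 540 600 0 22 0 800 0 82 211133794503119071829547522409261016096804552615030757925433027409579252802404153647249601331661805081792341369382402606638712248543790829618724624957698 = true := by
  decide +kernel

theorem ht40_540 : chkF (lT 4000 2 3 (pl2 (-112) 112))
    1000 0 0 0 116 50 540 600 0 22 0 800 0 116 505319189878401383051231642161441421679626743101582053769474 = true := by
  decide +kernel

end KE

end Pool.Agent.Work.MP_b30479_gt.G2
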