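import Pool.Agent.Work.MP_b30479_gt.G2.WMHbr1
import Pool.Agent.Work.MP_b30479_gt.G2.WMHbr2
import Pool.Agent.Work.MP_b30479_gt.G2.WMHbr3

/-!
# Mirrored paths: a lower `3` with the hinge in its slot `2`, inequalities
-/

namespace Pool.Agent.Work.MP_b30479_gt.G2

open Finset VOL Filter Topology

namespace KE

open NumG

theorem c20_val {y T : E} {xs : List ℝ} : (c20 y T).val xs = χ20 (y.val xs) (T.val xs) := eCh_val
theorem c25_val {y T : E} {xs : List ℝ} : (c25 y T).val xs = χ25 (y.val xs) (T.val xs) := eCh_val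
theorem c35_val {y T : E} {xs : List ℝ} : (c35 y T).val xs = χ35 (y.val xs) (T.val xs) := eCh_val

theorem U1.par {u : ℂ} (h : -(1145 / 10000) * tr 0 (65 / 100) (13 / 100) (15 / 100) u.re ≤ u.im ∧
    u.im ≤ 0) : ∃ s : ℝ, -(1145 / 10000) ≤ s ∧ s ≤ 0 ∧
      u = ⟨u.re, s * tr 0 (65 / 100) (13 / 100) (15 / 100) u.re⟩ := by
  obtain ⟨s, s0, s1, e⟩ := par_mem (a := 1145 / 10000 * tr 0 (65 / 100) (13 / 100) (15 / 100) u.re)
    (b := 0) (k := u.im) (by linarith only [h, h.1]) h.2
  refine ⟨-((1 - s) * (1145 / 10000)), by linarith only [s0], by nlinarith only [s1], Complex.ext rfl ?_⟩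
  show u.im = _
  rw [e]
  ring

theorem chi20 : Chi U1 (-(82 / 1000)) (2 / 10) χ20 := by
  intro u y T hu y0 y1 T0 T1
  obtain ⟨u0, u1, h | h⟩ := hu
  · obtain ⟨s, s0, s1, e⟩ := U1.par h
    have key : 0 < (rC (c20 (.var 0) (.var 1)) 2000 (t65 (.var 3))).val [y, T, u.re, s] := by
      rcases le_total y (5 / 100) with h1 | h1
      · exact chk1 hc2b (by norm_num) (by constructor <;> push_cast <;> linarith only [y0, h1])
          (by constructor <;> push_cast <;> linarith only [T0, T1]) (by constructor <;> push_cast <;> linarith only [u0, u1])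
          (by constructor <;> push_cast <;> linarith only [s0, s1])
      · exact chk1 hc2r (by norm_num) (by constructor <;> push_cast <;> linarith only [h1, y1])
          (by constructor <;> push_cast <;> linarith only [T0, T1]) (by constructor <;> push_cast <;> linarith only [u0, u1])
          (by constructor <;> push_cast <;> linarith only [s0, s1])
    rw [rC_val, t65_val, c20_val] at key
    simp only [E.val, v0, v1, v3] at key
    rw [← e, show ((2000 : ℤ) : ℝ) / 10000 = 2 / 10 by norm_num] at key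
    exact key
  · have e : u = ⟨u.re, 1 / 2 * tr 0 (65 / 100) (13 / 100) (15 / 100) u.re⟩ := Complex.ext rfl h
    have key : 0 < (rX (c20 (.var 0) (.var 1)) 2000 (t65 (E.c 5000))).val [y, T, u.re, 0] :=
      chk1 hc2a (by norm_num) (by constructor <;> push_cast <;> linarith only [y0, y1])
        (by constructor <;> push_cast <;> linarith only [T0, T1]) (by constructor <;> push_cast <;> linarith only [u0, u1])
        (by constructor <;> norm_num)
    rw [rX_val, t65_val, c20_val] at key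
    simp only [E.val, v0, v1, E.c] at key
    rw [show ((5000 : ℤ) : ℝ) / ((10000 : ℕ) : ℝ) = 1 / 2 by norm_num, ← e,
      show ((2000 : ℤ) : ℝ) / 10000 = 2 / 10 by norm_num] at key
    exact key

theorem chi25 : Chi U1 (-(82 / 1000)) (25 / 100) χ25 := by
  intro u y T hu y0 y1 T0 T1
  obtain ⟨u0, u1, h | h⟩ := hu
  · obtain ⟨s, s0, s1, e⟩ := U1.par h
    have key : 0 < (rC (c25 (.var 0) (.var 1)) 2500 (t65 (.var 3))).val [y, T, u.re, s] := by
      rcases le_total y (5 / 100) with h1 | h1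
      · exact chk1 hc25b (by norm_num) (by constructor <;> push_cast <;> linarith only [y0, h1])
          (by constructor <;> push_cast <;> linarith only [T0, T1]) (by constructor <;> push_cast <;> linarith only [u0, u1])
          (by constructor <;> push_cast <;> linarith only [s0, s1])
      · exact chk1 hc25r (by norm_num) (by constructor <;> push_cast <;> linarith only [h1, y1])
          (by constructor <;> push_cast <;> linarith only [T0, T1]) (by constructor <;> push_cast <;> linarith only [u0, u1])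
          (by constructor <;> push_cast <;> linarith only [s0, s1])
    rw [rC_val, t65_val, c25_val] at key
    simp only [E.val, v0, v1, v3] at key
    rw [← e, show ((2500 : ℤ) : ℝ) / 10000 = 25 / 100 by norm_num] at key
    exact key
  · have e : u = ⟨u.re, 1 / 2 * tr 0 (65 / 100) (13 / 100) (15 / 100) u.re⟩ := Complex.ext rfl h
    have key : 0 < (rX (c25 (.var 0) (.var 1)) 2500 (t65 (E.c 5000))).val [y, T, u.re, 0] :=
      chk1 hc25a (by norm_num) (by constructor <;> push_cast <;> linarith only [y0, y1])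
        (by constructor <;> push_cast <;> linarith only [T0, T1]) (by constructor <;> push_cast <;> linarith only [u0, u1])
        (by constructor <;> norm_num)
    rw [rX_val, t65_val, c25_val] at key
    simp only [E.val, v0, v1, E.c] at key
    rw [show ((5000 : ℤ) : ℝ) / ((10000 : ℕ) : ℝ) = 1 / 2 by norm_num, ← e,
      show ((2500 : ℤ) : ℝ) / 10000 = 25 / 100 by norm_num] at key
    exact key

theorem chi35 : Chi U2 (-(116 / 1000)) (35 / 100) χ35 := by
  intro u y T hu y0 y1 T0 T1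
  obtain ⟨u0, u1, h | h⟩ := hu
  · obtain ⟨θ, t0, t1, e0⟩ := par_abs h
    have e : u = ⟨u.re, (16 / 100 * θ) * tr 0 (6 / 10) (12 / 100) (27 / 100) u.re⟩ :=
      Complex.ext rfl (by show u.im = _; rw [e0]; ring)
    have key : 0 < (rC (c35 (.var 0) (.var 1)) 3500 (t60 (.var 3))).val [y, T, u.re, 16 / 100 * θ] := by
      rcases le_total y (5 / 100) with h1 | h1
      · exact chk1 hc35b (by norm_num) (by constructor <;> push_cast <;> linarith only [y0, h1])
          (by constructor <;> push_cast <;> linarith only [T0, T1]) (by constructor <;> push_cast <;> linarith only [u0, u1])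
          (by constructor <;> push_cast <;> linarith only [t0, t1])
      · exact chk1 hc35r (by norm_num) (by constructor <;> push_cast <;> linarith only [h1, y1])
          (by constructor <;> push_cast <;> linarith only [T0, T1]) (by constructor <;> push_cast <;> linarith only [u0, u1])
          (by constructor <;> push_cast <;> linarith only [t0, t1])
    rw [rC_val, t60_val, c35_val] at key
    simp only [E.val, v0, v1, v3] at key
    rw [← e, show ((3500 : ℤ) : ℝ) / 10000 = 35 / 100 by norm_num] at key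
    exact key
  · have e : u = ⟨u.re, 3 / 10 * tr 0 (6 / 10) (12 / 100) (27 / 100) u.re⟩ := Complex.ext rfl h
    have key : 0 < (rC (c35 (.var 0) (.var 1)) 3500 (t60 (E.c 3000))).val [y, T, u.re, 0] :=
      chk1 hc35a (by norm_num) (by constructor <;> push_cast <;> linarith only [y0, y1])
        (by constructor <;> push_cast <;> linarith only [T0, T1]) (by constructor <;> push_cast <;> linarith only [u0, u1])
        (by constructor <;> norm_num)
    rw [rC_val, t60_val, c35_val] at key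
    simp only [E.val, v0, v1, E.c] at key
    rw [show ((3000 : ℤ) : ℝ) / ((10000 : ℕ) : ℝ) = 3 / 10 by norm_num, ← e,
      show ((3500 : ℤ) : ℝ) / 10000 = 35 / 100 by norm_num] at key
    exact key

section

variable {c n : ℤ} {d : ℕ} {p : E} {φ : ℝ → ℝ} {f x0 x1 k : ℕ} {x T y L : ℝ}

theorem tbM (hp : ∀ x T y L, p.val [x, T, y, L] = φ x)
    (h : chkF (lM c n d p) 1000 0 0 0 116 f x0 x1 0 22 0 800 0 121 k = true)
    (a0 : (x0 : ℝ) / 1000 ≤ x) (a1 : x ≤ (x1 : ℝ) / 1000) (T0 : 0 ≤ T) (T1 : T ≤ 22 / 1000)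
    (y0 : 0 ≤ y) (y1 : y ≤ 8 / 10) (L0 : -(116 / 1000) ≤ L) (L1 : L ≤ 5 / 1000) :
    φ x < V2 ⟨(c : ℝ) / 10000, (n : ℝ) / d * T⟩ ⟨y, L * tr 0 (8 / 10) (5 / 100) (5 / 100) y⟩ -
      V2 ⟨x, -(16 / 100 * tr 0 (6 / 10) (13 / 100) (3 / 10) x)⟩
        ⟨y, L * tr 0 (8 / 10) (5 / 100) (5 / 100) y⟩ := by
  obtain ⟨e, he, hv⟩ := chkF4 h (by norm_num) (x := x) (y := T) (z := y) (w := L)
    (by push_cast; linarith only [a0]) (by push_cast; linarith only [a1]) (by push_cast; linarith only [T0])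
    (by push_cast; linarith only [T1]) (by push_cast; linarith only [y0]) (by push_cast; linarith only [y1])
    (by push_cast; linarith only [L0]) (by push_cast; linarith only [L1])
  simp only [lM, List.mem_cons, List.not_mem_nil, or_false] at he
  subst he
  rw [E.val, kE_val, hp] at hv
  simp only [E.val, v2, v3, tL_val] at hv
  linarith only [hv]

theorem tbD (hp : ∀ x T y L, p.val [x, T, y, L] = φ x)
    (h : chkF (lD c n d p) 1000 0 0 0 0 f x0 x1 0 22 0 800 0 0 k = true)
    (a0 : (x0 : ℝ) / 1000 ≤ x) (a1 : x ≤ (x1 : ℝ) / 1000) (T0 : 0 ≤ T) (T1 : T ≤ 22 / 1000)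
    (y0 : 0 ≤ y) (y1 : y ≤ 8 / 10) :
    φ x < V2 ⟨(c : ℝ) / 10000, (n : ℝ) / d * T⟩
        ⟨y, -(16 / 100 * tr 0 (8 / 10) (5 / 100) (5 / 100) y)⟩ -
      V2 ⟨x, -(16 / 100 * tr 0 (6 / 10) (13 / 100) (3 / 10) x)⟩
        ⟨y, -(16 / 100 * tr 0 (8 / 10) (5 / 100) (5 / 100) y)⟩ := by
  obtain ⟨e, he, hv⟩ := chkF4 h (by norm_num) (x := x) (y := T) (z := y) (w := 0)
    (by push_cast; linarith only [a0]) (by push_cast; linarith only [a1]) (by push_cast; linarith only [T0])
    (by push_cast; linarith only [T1]) (by push_cast; linarith only [y0]) (by push_cast; linarith only [y1])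
    (by norm_num) (by norm_num)
  simp only [lD, List.mem_cons, List.not_mem_nil, or_false] at he
  subst he
  rw [E.val, kE_val, hp] at hv
  simp only [E.val, v2, tL_val, E.c] at hv
  push_cast at hv
  rw [show (1600 : ℝ) / 10000 = 16 / 100 by norm_num] at hv
  linarith only [hv]

theorem tbO (hp : ∀ x T y L, p.val [x, T, y, L] = φ x)
    (h : chkF (lO c n d p) 1000 0 0 0 82 f x0 x1 0 22 0 800 0 82 k = true)
    (a0 : (x0 : ℝ) / 1000 ≤ x) (a1 : x ≤ (x1 : ℝ) / 1000) (T0 : 0 ≤ T) (T1 : T ≤ 22 / 1000)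
    (y0 : 0 ≤ y) (y1 : y ≤ 8 / 10) (L0 : -(82 / 1000) ≤ L) (L1 : L ≤ 0) :
    φ x < V2 ⟨(c : ℝ) / 10000, (n : ℝ) / d * T⟩
        ⟨y, 16 / 100 * tr 0 (8 / 10) (5 / 100) (5 / 100) y⟩ -
      V2 ⟨x, -(16 / 100 * tr 0 (6 / 10) (13 / 100) (3 / 10) x)⟩
        ⟨y, 16 / 100 * tr 0 (8 / 10) (5 / 100) (5 / 100) y⟩ ∨
    φ x < VB ⟨2 / 10, L⟩ ⟨(c : ℝ) / 10000, (n : ℝ) / d * T⟩ -
      VB ⟨y, 16 / 100 * tr 0 (8 / 10) (5 / 100) (5 / 100) y⟩
      ⟨x, -(16 / 100 * tr 0 (6 / 10) (13 / 100) (3 / 10) x)⟩ - χ20 y L ∨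
    φ x < VB ⟨25 / 100, L⟩ ⟨(c : ℝ) / 10000, (n : ℝ) / d * T⟩ -
      VB ⟨y, 16 / 100 * tr 0 (8 / 10) (5 / 100) (5 / 100) y⟩
      ⟨x, -(16 / 100 * tr 0 (6 / 10) (13 / 100) (3 / 10) x)⟩ - χ25 y L := by
  obtain ⟨e, he, hv⟩ := chkF4 h (by norm_num) (x := x) (y := T) (z := y) (w := L)
    (by push_cast; linarith only [a0]) (by push_cast; linarith only [a1]) (by push_cast; linarith only [T0])
    (by push_cast; linarith only [T1]) (by push_cast; linarith only [y0]) (by push_cast; linarith only [y1])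
    (by push_cast; linarith only [L0]) (by push_cast; linarith only [L1])
  simp only [lO, List.mem_cons, List.not_mem_nil, or_false] at he
  rcases he with rfl | rfl | rfl
  · left
    rw [E.val, kE_val, hp] at hv
    simp only [E.val, v2, tL_val, E.c] at hv
    push_cast at hv
    rw [show (1600 : ℝ) / 10000 = 16 / 100 by norm_num] at hv
    linarith only [hv]
  · right; left
    rw [E.val, rE_val, hp, c20_val] at hv
    simp only [E.val, v2, v3] at hv
    rw [show ((2000 : ℤ) : ℝ) / 10000 = 2 / 10 by norm_num] at hv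
    linarith only [hv]
  · right; right
    rw [E.val, rE_val, hp, c25_val] at hv
    simp only [E.val, v2, v3] at hv
    rw [show ((2500 : ℤ) : ℝ) / 10000 = 25 / 100 by norm_num] at hv
    linarith only [hv]

theorem tbT (hp : ∀ x T y L, p.val [x, T, y, L] = φ x)
    (h : chkF (lT c n d p) 1000 0 0 0 116 f x0 x1 0 22 0 800 0 116 k = true)
    (a0 : (x0 : ℝ) / 1000 ≤ x) (a1 : x ≤ (x1 : ℝ) / 1000) (T0 : 0 ≤ T) (T1 : T ≤ 22 / 1000)
    (y0 : 0 ≤ y) (y1 : y ≤ 8 / 10) (L0 : -(116 / 1000) ≤ L) (L1 : L ≤ 0) :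
    φ x < V2 ⟨(c : ℝ) / 10000, (n : ℝ) / d * T⟩
        ⟨y, 16 / 100 * tr 0 (8 / 10) (5 / 100) (5 / 100) y⟩ -
      V2 ⟨x, -(16 / 100 * tr 0 (6 / 10) (13 / 100) (3 / 10) x)⟩
        ⟨y, 16 / 100 * tr 0 (8 / 10) (5 / 100) (5 / 100) y⟩ ∨
    φ x < VB ⟨35 / 100, L⟩ ⟨(c : ℝ) / 10000, (n : ℝ) / d * T⟩ -
      VB ⟨y, 16 / 100 * tr 0 (8 / 10) (5 / 100) (5 / 100) y⟩
      ⟨x, -(16 / 100 * tr 0 (6 / 10) (13 / 100) (3 / 10) x)⟩ - χ35 y L := by
  obtain ⟨e, he, hv⟩ := chkF4 h (by norm_num) (x := x) (y := T) (z := y) (w := L)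
    (by push_cast; linarith only [a0]) (by push_cast; linarith only [a1]) (by push_cast; linarith only [T0])
    (by push_cast; linarith only [T1]) (by push_cast; linarith only [y0]) (by push_cast; linarith only [y1])
    (by push_cast; linarith only [L0]) (by push_cast; linarith only [L1])
  simp only [lT, List.mem_cons, List.not_mem_nil, or_false] at he
  rcases he with rfl | rfl
  · left
    rw [E.val, kE_val, hp] at hv
    simp only [E.val, v2, tL_val, E.c] at hv
    push_cast at hv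
    rw [show (1600 : ℝ) / 10000 = 16 / 100 by norm_num] at hv
    linarith only [hv]
  · right
    rw [E.val, rE_val, hp, c35_val] at hv
    simp only [E.val, v2, v3] at hv
    rw [show ((3500 : ℤ) : ℝ) / 10000 = 35 / 100 by norm_num] at hv
    linarith only [hv]

end

theorem p20_val (x T y L : ℝ) : p20.val [x, T, y, L] = q20 x := by
  unfold p20 q20
  rw [E.pl_val]
  rfl

theorem pl2_val (a k : ℤ) (x T y L : ℝ) : (pl2 a k).val [x, T, y, L] =
    (a : ℝ) / 1000 + (k : ℝ) / 60 * (x - 54 / 100) := by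
  unfold pl2
  simp only [E.val, v0]
  norm_num

theorem tab20 : TabH (2 / 10) 1 0 q20 := by
  have e1 : ((2000 : ℤ) : ℝ) / 10000 = 2 / 10 := by norm_num
  have e2 : ((1 : ℤ) : ℝ) / ((1 : ℕ) : ℝ) = 1 := by norm_num
  refine ⟨?_, ?_, ?_, ?_⟩
  · intro x T y L a0 a1 T0 T1 y0 y1 L0 L1
    have h := tbM p20_val hm20 (x := x) (by push_cast; linarith only [a0]) (by push_cast; linarith only [a1]) T0 T1 y0 y1
      L0 L1
    rw [e1, e2] at h
    exact h
  · intro x T y a0 a1 T0 T1 y0 y1
    have h := tbD p20_val hd20 (x := x) (by push_cast; linarith only [a0]) (by push_cast; linarith only [a1]) T0 T1 y0 y1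
    rw [e1, e2] at h
    exact h
  · intro x T y L a0 a1 T0 T1 y0 y1 L0 L1
    rcases le_total x (54 / 100) with hx | hx
    · have h := tbO p20_val ho20_0 (x := x) (by push_cast; linarith only [a0]) (by push_cast; linarith only [hx]) T0 T1
        y0 y1 L0 L1
      rw [e1, e2] at h
      exact h
    · have h := tbO p20_val ho20_540 (x := x) (by push_cast; linarith only [hx]) (by push_cast; linarith only [a1]) T0 T1
        y0 y1 L0 L1
      rw [e1, e2] at h
      exact h
  · intro x T y L a0 a1 T0 T1 y0 y1 L0 L1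
    rcases le_total x (54 / 100) with hx | hx
    · have h := tbT p20_val ht20_0 (x := x) (by push_cast; linarith only [a0]) (by push_cast; linarith only [hx]) T0 T1
        y0 y1 L0 L1
      rw [e1, e2] at h
      exact h
    · have h := tbT p20_val ht20_540 (x := x) (by push_cast; linarith only [hx]) (by push_cast; linarith only [a1]) T0 T1
        y0 y1 L0 L1
      rw [e1, e2] at h
      exact h

/-- the tables for `x ≥ 54/100` -/
theorem tab_of {c n a q : ℤ} {d : ℕ} {c' t : ℝ} (e1 : (c : ℝ) / 10000 = c') (e2 : (n : ℝ) / d = t)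
    {f1 f2 f3 f4 k1 k2 k3 k4 : ℕ}
    (h1 : chkF (lM c n d (pl2 a q)) 1000 0 0 0 116 f1 540 600 0 22 0 800 0 121 k1 = true)
    (h2 : chkF (lD c n d (pl2 a q)) 1000 0 0 0 0 f2 540 600 0 22 0 800 0 0 k2 = true)
    (h3 : chkF (lO c n d (pl2 a q)) 1000 0 0 0 82 f3 540 600 0 22 0 800 0 82 k3 = true)
    (h4 : chkF (lT c n d (pl2 a q)) 1000 0 0 0 116 f4 540 600 0 22 0 800 0 116 k4 = true) :
    TabH c' t (54 / 100) fun x => (a : ℝ) / 1000 + (q : ℝ) / 60 * (x - 54 / 100) := by
  refine ⟨?_, ?_, ?_, ?_⟩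
  · intro x T y L a0 a1 T0 T1 y0 y1 L0 L1
    have h := tbM (pl2_val a q) h1 (x := x) (by push_cast; linarith only [a0]) (by push_cast; linarith only [a1]) T0 T1
      y0 y1 L0 L1
    rw [e1, e2] at h
    exact h
  · intro x T y a0 a1 T0 T1 y0 y1
    have h := tbD (pl2_val a q) h2 (x := x) (by push_cast; linarith only [a0]) (by push_cast; linarith only [a1]) T0 T1
      y0 y1
    rw [e1, e2] at h
    exact h
  · intro x T y L a0 a1 T0 T1 y0 y1 L0 L1
    have h := tbO (pl2_val a q) h3 (x := x) (by push_cast; linarith only [a0]) (by push_cast; linarith only [a1]) T0 T1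
      y0 y1 L0 L1
    rw [e1, e2] at h
    exact h
  · intro x T y L a0 a1 T0 T1 y0 y1 L0 L1
    have h := tbT (pl2_val a q) h4 (x := x) (by push_cast; linarith only [a0]) (by push_cast; linarith only [a1]) T0 T1
      y0 y1 L0 L1
    rw [e1, e2] at h
    exact h

theorem tab25 : TabH (25 / 100) 1 (54 / 100) fun x =>
    (((-65 : ℤ) : ℝ)) / 1000 + ((124 : ℤ) : ℝ) / 60 * (x - 54 / 100) :=
  tab_of (by norm_num) (by norm_num) hm25 hd25 ho25_540 ht25_540
theorem tab30 : TabH (3 / 10) 1 (54 / 100) fun x =>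
    (((-87 : ℤ) : ℝ)) / 1000 + ((123 : ℤ) : ℝ) / 60 * (x - 54 / 100) :=
  tab_of (by norm_num) (by norm_num) hm30 hd30 ho30_540 ht30_540
theorem tab35 : TabH (35 / 100) (5 / 6) (54 / 100) fun x =>
    (((-92 : ℤ) : ℝ)) / 1000 + ((122 : ℤ) : ℝ) / 60 * (x - 54 / 100) :=
  tab_of (by norm_num) (by norm_num) hm35 hd35 ho35_540 ht35_540
theorem tab40 : TabH (4 / 10) (2 / 3) (54 / 100) fun x =>
    (((-112 : ℤ) : ℝ)) / 1000 + ((112 : ℤ) : ℝ) / 60 * (x - 54 / 100) :=
  tab_of (by norm_num) (by norm_num) hm40 hd40 ho40_540 ht40_540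

end KE

end Pool.Agent.Work.MP_b30479_gt.G2
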