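import Pool.Agent.Work.MP_b30479_gt.G2.WMMA
import Pool.Agent.Work.MP_b30479_gt.G2.RngQ
import Pool.Agent.Work.MP_b30479_gt.G2.R32A
import Pool.Agent.Work.MP_b30479_gt.G2.WMMD
import Pool.Agent.Work.NumX.Math
import Pool.Agent.Work.MP_b30479_gt.G2.GE3
import Pool.Agent.Work.MP_b30479_gt.G2.MPHess
import Pool.Agent.Work.MP_b30479_gt.G2.RngP
import Pool.Agent.Work.MP_b30479_gt.G2.RngP2
import Pool.Agent.Work.MP_b30479_gt.G2.TDefs
import Pool.Agent.Work.MP_b30479_gt.G2.TRc
import Pool.Agent.Work.MP_b30479_gt.G2.V3MidRA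
import Pool.Agent.Work.MP_b30479_gt.G2.WLocA
import Pool.Agent.Work.MP_b30479_gt.G2.WMMF
import Pool.Agent.Work.MP_b30479_gt.G2.WRng
import Pool.Agent.Work.MP_b30479_gt.G2.WTab
import Pool.Agent.Work.NumI.Demo

/-!
# Mirrored paths: the inner variable of an end with three crossings

The inner variable of an end with three crossings is on no mirrored path at a maximiser: the point
above (below) it on the main path is better.
-/

namespace Pool.Agent.Work.MP_b30479_gt.G2

open Finset VOL Filter Topology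
open NumU (uu UU_uu uu_neg uu_add_one)

namespace I3

theorem uu_lip {X : ℝ} (h0 : 0 ≤ X) (h1 : X ≤ 1) (t t' : ℝ) :
    |uu X t - uu X t'| ≤ Real.pi / 2 * |t - t'| := by
  have hp := Real.pi_pos
  rcases h0.eq_or_lt with h0 | h0
  · rw [← h0, NumX.uu_zero_left, NumX.uu_zero_left]
    have e : -(Real.pi * |t| / 2) - -(Real.pi * |t'| / 2) = -(Real.pi / 2 * (|t| - |t'|)) := by ring
    rw [e, abs_neg, abs_mul, abs_of_pos (by positivity : 0 < Real.pi / 2)]
    exact mul_le_mul_of_nonneg_left (abs_abs_sub_abs_le _ _) (by positivity)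
  rcases h1.eq_or_lt with h1 | h1
  · have e1 : ∀ t, uu X t = Real.pi / 2 * |t| := by
      intro t
      rw [h1, NumX.uu_sub_one, sub_self, NumX.uu_zero_left]
      ring
    rw [e1, e1, ← mul_sub, abs_mul, abs_of_pos (by positivity : 0 < Real.pi / 2)]
    exact mul_le_mul_of_nonneg_left (abs_abs_sub_abs_le _ _) (by positivity)
  · have hd : ∀ t, HasDerivAt (fun y => uu X y) (YY ⟨X, t⟩) t := fun t =>
      hasDerivAt_uu_y (Or.inr ⟨h0, h1⟩)
    have h2 := Convex.norm_image_sub_le_of_norm_hasDerivWithin_le (f := fun y => uu X y)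
      (f' := fun t => YY ⟨X, t⟩) (C := Real.pi / 2) (s := Set.univ)
      (fun t _ => (hd t).hasDerivWithinAt) (fun t _ => NumX.abs_yy_le h0.le h1.le) convex_univ
      (Set.mem_univ t') (Set.mem_univ t)
    exact h2

/-- the slope in the height is at least `π (X - 1/2)` to the left of `1/2`, at least `0` to the
right of it -/
theorem uu_slope_ge {X c t t' : ℝ} (h0 : 1 / 4 ≤ X) (h1 : X < 1) (c0 : 0 ≤ c) (c1 : 1 / 2 - X ≤ c)
    (ht : 0 ≤ t) (h : t ≤ t') : -(Real.pi * c * (t' - t)) ≤ uu X t' - uu X t := by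
  have hp := Real.pi_pos
  have hd : ∀ t, HasDerivAt (fun y => uu X y + Real.pi * c * y) (YY ⟨X, t⟩ + Real.pi * c) t := by
    intro t
    have h3 : HasDerivAt (fun y => uu X y) (YY ⟨X, t⟩) t :=
      hasDerivAt_uu_y (Or.inr ⟨by linarith only [h0, h1], h1⟩)
    have h4 := h3.add ((hasDerivAt_id t).const_mul (Real.pi * c))
    rw [mul_one] at h4
    exact h4
  have hm : MonotoneOn (fun y => uu X y + Real.pi * c * y) (Set.Ici 0) := by
    apply monotoneOn_of_deriv_nonneg (convex_Ici 0)
    · exact fun t _ => (hd t).continuousAt.continuousWithinAt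
    · exact fun t _ => (hd t).differentiableAt.differentiableWithinAt
    · intro t ht
      rw [(hd t).deriv]
      rw [interior_Ici] at ht
      have ht' : 0 ≤ t := le_of_lt ht
      rcases le_total (1 / 2) X with h5 | h5
      · have h6 : 0 ≤ YY ⟨X, t⟩ := MR.YY_nonneg h5 ht'
        have h7 := mul_nonneg hp.le c0
        linarith only [h6, h7]
      · have h6 := YY_quarter_ge (s := X - 1 / 4) (y := t) (by linarith only [h0]) (by linarith only [h5]) ht'
        rw [show 1 / 4 + (X - 1 / 4) = X by ring] at h6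
        nlinarith only [h6, c1, hp, mul_le_mul_of_nonneg_left c1 hp.le]
  have h8 := hm ht (ht.trans h) h
  simp only at h8
  linarith only [h8]

/-- vertical step of the inner variable -/
theorem V3_flip (x S y t t' : ℝ) : V3 ⟨x, S⟩ ⟨y, t'⟩ 0 - V3 ⟨x, S⟩ ⟨y, t⟩ 0 =
    Real.pi * (t - t') * (x + y - 1 / 2) + (uu (y - x) (t - S) - uu (y - x) (t' - S)) := by
  unfold V3
  simp only [UU_uu, Complex.add_re, Complex.add_im, Complex.sub_im, Complex.sub_re,
    Complex.mul_im, pow_two, Complex.zero_re, Complex.zero_im, Complex.re_ofNat, Complex.im_ofNat,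
    Complex.mul_re]
  simp only [sub_zero, add_zero]
  ring

/-- the part of the hinge -/
noncomputable def dS (r S t t' : ℝ) : ℝ := uu r (t - S) - uu r (t' - S)

theorem dS_nn {r S t t' : ℝ} (h0 : 0 ≤ r) (h1 : r ≤ 1) : -(Real.pi / 2 * |t - t'|) ≤ dS r S t t' := by
  have h2 := (abs_le.1 (uu_lip h0 h1 (t - S) (t' - S))).1
  rw [show t - S - (t' - S) = t - t' by ring] at h2
  exact h2

/-- the hinge to the right: `A = |t - S|`, `B = |t' - S|` -/
theorem dS_neg {r S t t' c : ℝ} (h0 : -(3 / 4) ≤ r) (h1 : r < 0) (c0 : 0 ≤ c)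
    (c1 : -(1 / 2) - r ≤ c) :
    (|t - S| ≤ |t' - S| → 0 ≤ dS r S t t') ∧
      (|t' - S| ≤ |t - S| → -(Real.pi * (1 + c) * (|t - S| - |t' - S|)) ≤ dS r S t t') := by
  have hp := Real.pi_pos
  have e : ∀ s : ℝ, uu r s = uu (r + 1) |s| - Real.pi * |s| := by
    intro s
    have h2 := uu_add_one r s
    have h3 : uu (r + 1) s = uu (r + 1) |s| := by
      rcases abs_choice s with h4 | h4 <;> rw [h4]
      rw [uu_neg]
    rw [← h3]
    linarith only [h2]
  unfold dS
  rw [e, e]
  constructor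
  · intro h2
    have h3 := (abs_le.1 (uu_lip (X := r + 1) (by linarith only [h0]) (by linarith only [h1]) |t - S| |t' - S|)).1
    rw [abs_of_nonpos (by linarith only [h2] : |t - S| - |t' - S| ≤ 0)] at h3
    nlinarith only [h3, hp, h2]
  · intro h2
    have h3 := uu_slope_ge (X := r + 1) (c := c) (t := |t' - S|) (t' := |t - S|) (by linarith only [h0])
      (by linarith only [h1]) c0 (by linarith only [c1]) (abs_nonneg _) h2
    nlinarith only [h3]

theorem abs_sub_le_of {S t t' D : ℝ} (h0 : |t - t'| ≤ D) : |t - S| - |t' - S| ≤ D := by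
  have h1 := abs_sub_abs_le_abs_sub (t - S) (t' - S)
  rw [show t - S - (t' - S) = t - t' by ring] at h1
  linarith only [h0, h1]

/-- **Upper mirrored path**: the point below it on the main path is better. -/
theorem flip_up {x y S a b : ℝ} (x0 : 0 ≤ x) (x1 : x ≤ 6 / 10) (y0 : 0 ≤ y) (y1 : y ≤ 77 / 100)
    (a0 : 0 < a) (b0 : 0 ≤ b) (hb : b ≤ 45 / 160 * a) :
    0 < V3 ⟨x, S⟩ ⟨y, -b⟩ 0 - V3 ⟨x, S⟩ ⟨y, a⟩ 0 + 2 * Real.pi * a := by
  have hp := Real.pi_pos
  rw [V3_flip]
  have hD : |a - -b| = a + b := by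
    rw [sub_neg_eq_add, abs_of_pos (by linarith only [a0, b0])]
  have e : a - -b = a + b := by ring
  rw [e]
  change 0 < Real.pi * (a + b) * (x + y - 1 / 2) + dS (y - x) S a (-b) + 2 * Real.pi * a
  have q1 : 0 ≤ Real.pi * (a + b) := by positivity
  have q2 : Real.pi * b ≤ Real.pi * (45 / 160 * a) := mul_le_mul_of_nonneg_left hb hp.le
  have q3 : 0 < Real.pi * a := by positivity
  rcases le_or_gt 0 (y - x) with hr | hr
  · have h1 := dS_nn (S := S) (t := a) (t' := -b) hr (by linarith only [x0, y1])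
    rw [hD] at h1
    have h2 : Real.pi * (a + b) * (-(1 / 2)) ≤ Real.pi * (a + b) * (x + y - 1 / 2) :=
      mul_le_mul_of_nonneg_left (by linarith only [x0, y0]) q1
    linarith only [q2, q3, h1, h2]
  · have hAB := abs_sub_le_of (S := S) hD.le
    rcases le_total |a - S| |-b - S| with h2 | h2
    · have h1 := (dS_neg (r := y - x) (S := S) (t := a) (t' := -b) (c := 1 / 4) (by linarith only [x1, y0, hr]) hr
        (by norm_num) (by linarith only [x1, y0, hr])).1 h2
      have h3 : Real.pi * (a + b) * (-(1 / 2)) ≤ Real.pi * (a + b) * (x + y - 1 / 2) :=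
        mul_le_mul_of_nonneg_left (by linarith only [y0, hr]) q1
      linarith only [q2, q3, h1, h3]
    · rcases le_total (-(1 / 2)) (y - x) with h4 | h4
      · have h1 := (dS_neg (r := y - x) (S := S) (t := a) (t' := -b) (c := 0) (by linarith only [hr, h4]) hr
          le_rfl (by linarith only [h4])).2 h2
        have h3 : Real.pi * (a + b) * (-(1 / 2)) ≤ Real.pi * (a + b) * (x + y - 1 / 2) :=
          mul_le_mul_of_nonneg_left (by linarith only [y0, hr]) q1
        have h5 : Real.pi * (1 + 0) * (|a - S| - |-b - S|) ≤ Real.pi * (1 + 0) * (a + b) :=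
          mul_le_mul_of_nonneg_left hAB (by positivity)
        linarith only [q2, q3, h1, h3, h5]
      · have h1 := (dS_neg (r := y - x) (S := S) (t := a) (t' := -b) (c := 1 / 10) (by linarith only [x1, y0, hr]) hr
          (by norm_num) (by linarith only [x1, y0])).2 h2
        have h3 : Real.pi * (a + b) * 0 ≤ Real.pi * (a + b) * (x + y - 1 / 2) :=
          mul_le_mul_of_nonneg_left (by linarith only [y0, h4]) q1
        have h5 : Real.pi * (1 + 1 / 10) * (|a - S| - |-b - S|) ≤ Real.pi * (1 + 1 / 10) * (a + b) :=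
          mul_le_mul_of_nonneg_left hAB (by positivity)
        linarith only [q2, q3, h1, h3, h5]

/-- **Lower mirrored path**: the point above it on the main path is better. -/
theorem flip_dn {x y S a b : ℝ} (x0 : 0 ≤ x) (x1 : x ≤ 6 / 10) (y0 : 0 ≤ y) (y1 : y ≤ 77 / 100)
    (a0 : 0 < a) (b0 : 0 ≤ b) (hb : b ≤ 59 / 160 * a) (hS : S ≤ 232 / 1000 * (6 / 10 - x))
    (ha : 96 / 100 ≤ x + y → y ≤ 6 / 10 → 136 / 1000 ≤ a) :
    0 < V3 ⟨x, S⟩ ⟨y, b⟩ 0 - V3 ⟨x, S⟩ ⟨y, -a⟩ 0 + 2 * Real.pi * a := by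
  have hp := Real.pi_pos
  rw [V3_flip]
  have e : -a - b = -(a + b) := by ring
  have hD : |-a - b| = a + b := by
    rw [e, abs_neg, abs_of_pos (by linarith only [a0, b0])]
  rw [e]
  change 0 < Real.pi * -(a + b) * (x + y - 1 / 2) + dS (y - x) S (-a) b + 2 * Real.pi * a
  have q1 : 0 ≤ Real.pi * (a + b) := by positivity
  have q2 : Real.pi * b ≤ Real.pi * (59 / 160 * a) := mul_le_mul_of_nonneg_left hb hp.le
  have q3 : 0 < Real.pi * a := by positivity
  have k : ∀ {u : ℝ}, x + y ≤ u → Real.pi * (a + b) * (x + y - 1 / 2) ≤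
      Real.pi * (a + b) * (u - 1 / 2) := fun hu => mul_le_mul_of_nonneg_left (by linarith only [hu]) q1
  rcases le_or_gt 0 (y - x) with hr | hr
  · have h1 := dS_nn (S := S) (t := -a) (t' := b) hr (by linarith only [x0, y1])
    rw [hD] at h1
    have h2 := k (u := 137 / 100) (by linarith only [x1, y1])
    linarith only [q2, q3, h1, h2]
  · have hAB := abs_sub_le_of (S := S) hD.le
    rcases le_total |-a - S| |b - S| with h2 | h2
    · have h1 := (dS_neg (r := y - x) (S := S) (t := -a) (t' := b) (c := 1 / 4) (by linarith only [x1, y0, hr]) hr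
        (by norm_num) (by linarith only [x1, y0, hr])).1 h2
      have h3 := k (u := 12 / 10) (by linarith only [x1, hr])
      linarith only [q2, q3, h1, h3]
    · rcases le_total (-(1 / 2)) (y - x) with h4 | h4
      · have h1 := (dS_neg (r := y - x) (S := S) (t := -a) (t' := b) (c := 0) (by linarith only [hr, h4]) hr
          le_rfl (by linarith only [h4])).2 h2
        rcases le_total (x + y) (96 / 100) with h6 | h6
        · have h3 := k h6
          have h5 : Real.pi * (1 + 0) * (|-a - S| - |b - S|) ≤ Real.pi * (1 + 0) * (a + b) :=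
            mul_le_mul_of_nonneg_left hAB (by positivity)
          linarith only [q2, q3, h1, h3, h5]
        · have ha' := ha h6 (by linarith only [x1, hr])
          have hw : 0 ≤ (a + b) * (2 * x - (x + y)) := mul_nonneg (by linarith only [a0, b0]) (by linarith only [hr])
          -- all terms divided by `π`
          suffices hk : 0 < -(a + b) * (x + y - 1 / 2) - (|-a - S| - |b - S|) + 2 * a by
            have := mul_pos hp hk
            linarith only [h1, this]
          rcases le_total b S with hbS | hbS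
          · rw [abs_of_nonpos (by linarith only [a0, b0, hbS] : -a - S ≤ 0), abs_of_nonpos (by linarith only [hbS] : b - S ≤ 0)]
            nlinarith only [x1, hr, h6, hw, hS, hbS, ha', mul_nonneg (by linarith only [hS, hbS] : 0 ≤ 232 / 1000 * (6 / 10 - x) - b)
              (by linarith only [x1, hr, h6] : 0 ≤ 2 * x + 1 / 2),
              mul_nonneg (by linarith only [ha'] : 0 ≤ a - 136 / 1000) (by linarith only [x1, hr, h6] : 0 ≤ 3 / 2 - 2 * x),
              mul_nonneg (by linarith only [x1] : 0 ≤ 6 / 10 - x) (by linarith only [x1] : 0 ≤ 6 / 10 - x)]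
          · rw [abs_of_nonneg (by linarith only [hbS] : 0 ≤ b - S)]
            rcases le_total (-a - S) 0 with h7 | h7
            · rw [abs_of_nonpos h7]
              nlinarith only [x1, hS, hr, h6, hw, ha', b0, mul_nonneg (by linarith only [ha'] : 0 ≤ a - 136 / 1000)
                (by linarith only [x1, hr, h6] : 0 ≤ 3 / 2 - 2 * x), mul_nonneg b0 (by linarith only [x1, hr, h6] : 0 ≤ 3 / 2 - 2 * x)]
            · rw [abs_of_nonneg h7]
              nlinarith only [a0, b0, hw, x0, hb, x1]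
      · have h1 := (dS_neg (r := y - x) (S := S) (t := -a) (t' := b) (c := 1 / 10) (by linarith only [x1, y0, hr]) hr
          (by norm_num) (by linarith only [x1, y0])).2 h2
        have h3 := k (u := 7 / 10) (by linarith only [x1, h4])
        have h5 : Real.pi * (1 + 1 / 10) * (|-a - S| - |b - S|) ≤ Real.pi * (1 + 1 / 10) * (a + b) :=
          mul_le_mul_of_nonneg_left hAB (by positivity)
        linarith only [q2, q3, h1, h3, h5]

end I3

namespace SR

variable {M : ℕ} {b : Fin (M + 1) → ℤ} {zs : DD (tyW b) ⊕ ZZ (tyW b) → ℂ}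
variable {R : Finset (DD (tyW b))} {nb : Finset (DD (tyW b) ⊕ ZZ (tyW b))}
variable {z : DD (tyW b) ⊕ ZZ (tyW b) → ℂ} {p : DD (tyW b) → ℝ}
variable {h h' : Fin M} {i j j' : Fin (M + 1)} {s : Fin 3} {x c : ℝ}

/-- the value of an end with three crossings which is the only region -/
theorem OV_threeE_only (hc : clsW b i = .threeE) (h0 : i = 0) (h1 : i = Fin.last M) {X : Fin 3 → ℂ}
    (hX : EndOk i X) : OV b i X = V3 0 (X 1) 0 := by
  have h3 := clsW_nat3 (Or.inr hc)
  have ht : tyW b i = .threeR := by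
    unfold tyW
    rw [if_neg (by omega), if_neg (by omega), if_pos h3, if_pos h0]
  have hx := hX.1 h0
  have hx2 := hX.2 h1
  have e1 : decide (i ≠ Fin.last M) = false := by simp [h1]
  have e0 : decide (i ≠ 0) = false := by simp [h0]
  unfold OV V3
  rw [ht, V_threeR, h3, hx, e0, e1, hx2]
  simp only [sgb, Bool.false_eq_true, if_false, sub_zero, add_zero, zero_add, UU_zero]
  norm_num

theorem trm_3E (m : {i : Fin (M + 1) // (tyW b i).isMid = true}) (hc : clsW b m.1 = .threeE)
    (y : ℝ) : trm b m y = tr 0 (77 / 100) (1 / 10) (2 / 10) y := by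
  unfold trm
  rw [hc]
  rfl

/-- height of the inner variable of an end -/
theorem Tm3E_mem (hL : Loc b zs) (m : {i : Fin (M + 1) // (tyW b i).isMid = true})
    (hc : clsW b m.1 = .threeE) : -(45 / 1000) ≤ Tm b zs m ∧ Tm b zs m ≤ 59 / 1000 := by
  have h1 := hL.midE m (clsW_end (Or.inr hc))
  obtain ⟨-, -, h2, h3⟩ := h1
  rw [ofr_im] at h2 h3
  exact ⟨h2, h3⟩

theorem tr_cr_le3 {XM cl cr x : ℝ} (hr : 0 < cr) (h1 : x ≤ XM) :
    cr * tr 0 XM cl cr x ≤ XM - x := by
  have h2 : tr 0 XM cl cr x ≤ (XM - x) / cr := by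
    unfold tr
    refine max_le (div_nonneg (by linarith only [h1]) hr.le) ?_
    exact (min_le_right _ _).trans (min_le_right _ _)
  rw [le_div_iff₀ hr] at h2
  linarith only [h2]

/-- **The hinge of an end with three crossings**, no mirrored path: position and height. -/
theorem NPos.e3 (hb : ClassW b) (hL : Loc b zs) (A : Adj h i s j) (hi : clsW b i = .threeE)
    (hp0 : p (.inl h) = 0) {X : ℂ} (h0 : NPos b zs nb p h i s X) :
    0 ≤ X.re ∧ X.re ≤ 6 / 10 ∧ X.im ≤ 232 / 1000 * (6 / 10 - X.re) := by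
  have hre := h0.re
  have hT := Th_mem hb hL A (by rw [hi]; decide)
  rw [hi] at hT
  have hw : wXM b h = 6 / 10 ∧ 25 / 100 ≤ wcr b h := by
    unfold wXM wcr
    cases A with
    | l =>
      rw [hi]
      rcases clsW b h.succ <;> simp only [hp, hp1] <;> norm_num
    | r =>
      rw [hi]
      rcases clsW b h.castSucc <;> simp only [hp, hp1] <;> norm_num
  have hT1 : Th b zs h i ≤ 58 / 1000 := by
    rcases hj : clsW b j <;> rw [hj] at hT <;> simp only [hbox] at hT <;> linarith only [hT, hT.2]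
  rw [hw.1] at hre
  refine ⟨hre.1, hre.2, ?_⟩
  have hr0 : 0 ≤ 232 / 1000 * (6 / 10 - X.re) := by linarith only [hre, hre.2]
  cases h0 with
  | main y y0 y1 hn e hp1 =>
    rw [e] at hre ⊢
    simp only at hre ⊢
    have h2 := trh_mem (b := b) h y
    have h3 := tr_cr_le3 (cl := wcl b h) (wcr_pos (b := b) h) y1
    rw [hw.1] at h3
    have h4 : trh b h y = tr 0 (6 / 10) (wcl b h) (wcr b h) y := by
      unfold trh
      rw [hw.1]
    rw [← h4] at h3
    have h5 : Th b zs h i * trh b h y ≤ 58 / 1000 * trh b h y :=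
      mul_le_mul_of_nonneg_right hT1 h2.1
    have h6 : 25 / 100 * trh b h y ≤ wcr b h * trh b h y :=
      mul_le_mul_of_nonneg_right hw.2 h2.1
    linarith only [h3, h5, h6]
  | real y y0 y1 hn e hp1 =>
    rw [e] at hr0 ⊢
    exact hr0
  | up y y0 y1 hn hr hT e hp1 =>
    rw [e] at hr0 ⊢
    rw [hp0] at hp1
    show mhs b h s.rev * trh b h y ≤ _
    rw [← hp1]
    exact hr0
  | dn y y0 y1 hn hr hT e hp1 =>
    rw [e] at hr0 ⊢
    rw [hp0] at hp1
    show -(mhs b h s * trh b h y) ≤ _
    rw [← hp1, neg_zero]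
    exact hr0

/-- a region has a hinge, or it is the only region -/
theorem adj_or (i : Fin (M + 1)) : (∃ (h : Fin M) (p : Fin 3) (j : Fin (M + 1)), Adj h i p j) ∨
    (i = 0 ∧ i = Fin.last M) := by
  by_cases h0 : i = 0
  · by_cases h1 : i = Fin.last M
    · exact Or.inr ⟨h0, h1⟩
    · obtain ⟨k, hk⟩ := Fin.eq_castSucc_of_ne_last h1
      left
      refine ⟨k, 2, k.succ, ?_⟩
      rw [← hk]
      exact .l
  · obtain ⟨k, hk⟩ := Fin.eq_succ_of_ne_zero h0
    left
    refine ⟨k, 0, k.castSucc, ?_⟩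
    rw [hk]
    exact .r

/-- the inner variable moves to `y` on its main path -/
theorem MM.inner3E' (hb : ClassW b) (hL : Loc b zs) (hN : NbT b R nb) (hM : MM b zs R nb z p)
    (hq : ∀ h : Fin M, RH1 b (.inl h) → p (.inl h) = 0)
    (m : {i : Fin (M + 1) // (tyW b i).isMid = true})
    (hA : ∀ (h : Fin M) (s : Fin 3) (j : Fin (M + 1)), Adj h m.1 s j → p (.inl h) = 0)
    (hc : clsW b m.1 = .threeE) (hn : Sum.inl (Sum.inr m) ∉ nb) :
    ∃ X : ℂ, 0 ≤ X.re ∧ X.re ≤ 6 / 10 ∧ X.im ≤ 232 / 1000 * (6 / 10 - X.re) ∧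
      ∀ y : ℝ, 0 ≤ y → y ≤ 77 / 100 → V3 X ⟨y, Tm b zs m * trm b m y⟩ 0 -
        V3 X (Ow b z m.1 1) 0 + 2 * Real.pi * p (.inr m) ≤ 0 := by
  have hR := hN.ok.1
  rcases adj_or (M := M) m.1 with ⟨h, s, j, A⟩ | ⟨h0, h1⟩
  · have hnh := hN.end_nn m A hc hn
    have hpos := hM.npos0 hb hR hq A fun hr => hnh (hR _ hr)
    obtain ⟨k1, k2, k3⟩ := hpos.e3 hb hL A hc (hA h s j A)
    refine ⟨Ow b z m.1 s, k1, k2, k3, fun y y0 y1 => ?_⟩
    exact hM.inner3E hb hR m A hc hn y0 y1
  · refine ⟨0, le_rfl, by norm_num, by norm_num, fun y y0 y1 => ?_⟩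
    have h2 := hM.istep hb hR m hn (onP_main (zs := zs) (.inr m) y0 (by
        show y ≤ (mp (clsW b m.1)).XM
        rw [hc]; exact y1))
    rw [ofr_ptm, OV_threeE_only hc h0 h1 (endOk_upd1 (Ow_endOk z m.1) _),
      OV_threeE_only hc h0 h1 (Ow_endOk z m.1), Function.update_self] at h2
    have e : tgi b zs m y = ⟨y, Tm b zs m * trm b m y⟩ := rfl
    rw [e] at h2
    linarith only [h2]

/-- **The inner variable of an end with three crossings.** -/
theorem innersL_threeE (hb : ClassW b) (hL : Loc b zs)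
    (m : {i : Fin (M + 1) // (tyW b i).isMid = true}) (hN : NbT b R nb)
    (hM : MM b zs R nb z p) (hq : ∀ h : Fin M, RH1 b (.inl h) → p (.inl h) = 0)
    (hA : ∀ (h : Fin M) (s : Fin 3) (j : Fin (M + 1)), Adj h m.1 s j → p (.inl h) = 0)
    (hc : clsW b m.1 = .threeE) (hn : Sum.inl (Sum.inr m) ∉ nb) : p (.inr m) = 0 := by
  obtain ⟨X, x0, x1, x2, key⟩ := hM.inner3E' hb hL hN hq m hA hc hn
  obtain ⟨T0, T1⟩ := Tm3E_mem hL m hc
  have eX : X = ⟨X.re, X.im⟩ := rfl
  have hXM : (mp (clsW b m.1)).XM = 77 / 100 := by rw [hc]; rfl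
  have ht : ∀ y, 0 ≤ trm b m y ∧ trm b m y ≤ 1 := fun y => tr_mem _ _ _ _ _
  rcases hM.ipos0 hN.ok.1 m hn with ⟨y, y0, y1, e, hp1⟩ | ⟨y, y0, y1, hT, e, hp1⟩ |
    ⟨y, y0, y1, hT, e, hp1⟩
  · exact hp1
  · rw [hXM] at y1
    by_contra hne
    have h0 : 0 < trm b m y := by
      refine lt_of_le_of_ne (ht y).1 fun h3 => hne ?_
      rw [hp1, ← h3, mul_zero]
    have h1 := key y y0 y1
    have h2 := I3.flip_up (x := X.re) (y := y) (S := X.im) (a := 16 / 100 * trm b m y)
      (b := -Tm b zs m * trm b m y) x0 x1 y0 y1 (by linarith only [h0])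
      (mul_nonneg (by linarith only [hT]) h0.le) (by nlinarith only [T0, h0])
    rw [e, hp1] at h1
    rw [← eX, show -(-Tm b zs m * trm b m y) = Tm b zs m * trm b m y by ring] at h2
    linarith only [h1, h2]
  · rw [hXM] at y1
    by_contra hne
    have h0 : 0 < trm b m y := by
      refine lt_of_le_of_ne (ht y).1 fun h3 => hne ?_
      rw [hp1, ← h3, mul_zero]
    have h1 := key y y0 y1
    have h2 := I3.flip_dn (x := X.re) (y := y) (S := X.im) (a := 16 / 100 * trm b m y)
      (b := Tm b zs m * trm b m y) x0 x1 y0 y1 (by linarith only [h0])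
      (mul_nonneg hT h0.le) (by nlinarith only [T1, h0]) x2 (fun h3 h4 => by
        have h5 : 85 / 100 ≤ trm b m y := by
          rw [trm_3E m hc]
          unfold tr
          refine le_max_of_le_right (le_min (by norm_num) (le_min ?_ ?_))
          · rw [le_div_iff₀ (by norm_num)]
            linarith only [x1, h3]
          · rw [le_div_iff₀ (by norm_num)]
            linarith only [h4]
        linarith only [h5])
    rw [e, hp1] at h1
    rw [← eX] at h2
    linarith only [h1, h2]

/-- the same, all hinges without penalty -/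
theorem inners_threeE (hb : ClassW b) (hL : Loc b zs)
    (m : {i : Fin (M + 1) // (tyW b i).isMid = true}) (hN : NbT b R nb)
    (hM : MM b zs R nb z p) (hh : ∀ h : Fin M, p (.inl h) = 0) (hc : clsW b m.1 = .threeE)
    (hn : Sum.inl (Sum.inr m) ∉ nb) : p (.inr m) = 0 :=
  innersL_threeE hb hL m hN hM (fun h _ => hh h) (fun h _ _ _ => hh h) hc hn

end SR

end Pool.Agent.Work.MP_b30479_gt.G2
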