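import Pool.Agent.Work.MP_b30479_gt.G2.WMainQ
import Pool.Agent.Work.MP_b30479_gt.G2.TRd
import Pool.Agent.Work.MP_b30479_gt.G2.TRb

/-!
# Mirrored paths: maximisers over all paths, and star moves

The mirrored path of a variable which is on the side of the saddle point has the height of the main
path; the ones on the other side have the heights `mhs`.  `MM`: a maximiser of the penalised value over
all paths.  `SideG`: what is gained on one side of a hinge if the hinge is moved (other variables of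
this side may respond); `MM.star`: at a maximiser the sum of the gains of both sides and of the
penalty is not positive.
-/

namespace Pool.Agent.Work.MP_b30479_gt.G2

open Finset VOL Filter Topology

namespace SR

variable {M : ℕ} {b : Fin (M + 1) → ℤ} {zs : DD (tyW b) ⊕ ZZ (tyW b) → ℂ}
variable {R : Finset (DD (tyW b))} {nb : Finset (DD (tyW b) ⊕ ZZ (tyW b))}
variable {z : DD (tyW b) ⊕ ZZ (tyW b) → ℂ} {p : DD (tyW b) → ℝ}
variable {h h' : Fin M} {i j j' : Fin (M + 1)} {s : Fin 3}

/-! ### heights -/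

/-- height of the mirrored path of the hinge `h` which is the lower one in the frame of the region
with the hinge in the slot `s` (`s = 2`: the left region, `s = 0`: the right one), on the side
opposite to the saddle point (no ring involved) -/
noncomputable def mhs (b : Fin (M + 1) → ℤ) (h : Fin M) (s : Fin 3) : ℝ :=
  if clsW b h.castSucc = .one ∧ clsW b h.succ = .three then 1 / 2 else
    if clsW b h.castSucc = .two ∧ clsW b h.succ = .three ∧ s = 2 then 3 / 10 else 16 / 100

/-- heights of the upper mirrored paths on the side opposite to the saddle point -/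
noncomputable def mtu (b : Fin (M + 1) → ℤ) : DD (tyW b) → ℝ
  | .inl h => if 0 < b h.castSucc then mhs b h 0 else mhs b h 2
  | .inr _ => 16 / 100

/-- heights of the lower mirrored paths on the side opposite to the saddle point -/
noncomputable def mtd (b : Fin (M + 1) → ℤ) : DD (tyW b) → ℝ
  | .inl h => if 0 < b h.castSucc then mhs b h 2 else mhs b h 0
  | .inr _ => 16 / 100

/-- height of the upper mirrored path of a hinge of a ring, in the frame of the other region -/
noncomputable def rnear (T : ℝ) : ℝ := if 0 < T then T else 16 / 100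

/-- height of the lower mirrored path of a hinge of a ring, in the frame of the other region -/
noncomputable def rfar (T : ℝ) : ℝ := if T < 0 then -T else 10000

/-- heights of the upper mirrored paths of the hinges of rings -/
noncomputable def rhu (b : Fin (M + 1) → ℤ) (zs : DD (tyW b) ⊕ ZZ (tyW b) → ℂ) (h : Fin M) : ℝ :=
  if clsW b h.castSucc = .ring then
    (if clsW b h.succ = .ring then
      (if 0 < (zs (.inl (.inl h))).im then (zs (.inl (.inl h))).im else 100)
    else (if 0 < b h.succ then rnear (ofs (b h.succ) (zs (.inl (.inl h))).im)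
      else rfar (ofs (b h.succ) (zs (.inl (.inl h))).im)))
  else (if 0 < b h.castSucc then rnear (ofs (b h.castSucc) (zs (.inl (.inl h))).im)
    else rfar (ofs (b h.castSucc) (zs (.inl (.inl h))).im))

/-- heights of the lower mirrored paths of the hinges of rings -/
noncomputable def rhd (b : Fin (M + 1) → ℤ) (zs : DD (tyW b) ⊕ ZZ (tyW b) → ℂ) (h : Fin M) : ℝ :=
  if clsW b h.castSucc = .ring then
    (if clsW b h.succ = .ring then
      (if (zs (.inl (.inl h))).im < 0 then -(zs (.inl (.inl h))).im else 100)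
    else (if 0 < b h.succ then rfar (ofs (b h.succ) (zs (.inl (.inl h))).im)
      else rnear (ofs (b h.succ) (zs (.inl (.inl h))).im)))
  else (if 0 < b h.castSucc then rfar (ofs (b h.castSucc) (zs (.inl (.inl h))).im)
    else rnear (ofs (b h.castSucc) (zs (.inl (.inl h))).im))

/-- hinges of rings -/
def RH1 (b : Fin (M + 1) → ℤ) : DD (tyW b) → Prop
  | .inl h => clsW b h.castSucc = .ring ∨ clsW b h.succ = .ring
  | .inr _ => False

open Classical in
/-- heights of the upper mirrored paths -/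
noncomputable def mhu (b : Fin (M + 1) → ℤ) (zs : DD (tyW b) ⊕ ZZ (tyW b) → ℂ) :
    DD (tyW b) → ℝ
  | .inl h => if clsW b h.castSucc = .ring ∨ clsW b h.succ = .ring then rhu b zs h
      else if 0 < (zs (.inl (.inl h))).im then (zs (.inl (.inl h))).im else mtu b (.inl h)
  | .inr m => if 0 < (zs (.inl (.inr m))).im then (zs (.inl (.inr m))).im else mtu b (.inr m)

open Classical in
/-- heights of the lower mirrored paths -/
noncomputable def mhd (b : Fin (M + 1) → ℤ) (zs : DD (tyW b) ⊕ ZZ (tyW b) → ℂ) :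
    DD (tyW b) → ℝ
  | .inl h => if clsW b h.castSucc = .ring ∨ clsW b h.succ = .ring then rhd b zs h
      else if (zs (.inl (.inl h))).im < 0 then -(zs (.inl (.inl h))).im else mtd b (.inl h)
  | .inr m => if (zs (.inl (.inr m))).im < 0 then -(zs (.inl (.inr m))).im else mtd b (.inr m)

/-- the parameters of the word with mirrored paths -/
noncomputable def wparM (b : Fin (M + 1) → ℤ) (zs : DD (tyW b) ⊕ ZZ (tyW b) → ℂ) :
    Par (DD (tyW b)) := wparQ b (mhu b zs) (mhd b zs) zs

theorem mhs_pos (h : Fin M) (s : Fin 3) : 0 < mhs b h s := by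
  unfold mhs
  split_ifs <;> norm_num

theorem mtu_pos (i : DD (tyW b)) : 0 < mtu b i := by
  rcases i with h | m
  · simp only [mtu]
    split_ifs <;> exact mhs_pos _ _
  · simp only [mtu]
    norm_num

theorem mtd_pos (i : DD (tyW b)) : 0 < mtd b i := by
  rcases i with h | m
  · simp only [mtd]
    split_ifs <;> exact mhs_pos _ _
  · simp only [mtd]
    norm_num

theorem rnear_pos (T : ℝ) : 0 < rnear T := by
  unfold rnear
  split_ifs with h
  · exact h
  · norm_num

theorem rfar_pos (T : ℝ) : 0 < rfar T := by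
  unfold rfar
  split_ifs with h
  · linarith only [h]
  · norm_num

theorem rh_pos (h : Fin M) : 0 < rhu b zs h ∧ 0 < rhd b zs h := by
  unfold rhu rhd
  constructor
  · split_ifs <;> first | assumption | exact rnear_pos _ | exact rfar_pos _ | norm_num
  · split_ifs <;> first | linarith | exact rnear_pos _ | exact rfar_pos _ | norm_num

theorem mh_pos (i : DD (tyW b)) : 0 < mhu b zs i ∧ 0 < mhd b zs i := by
  rcases i with h | m
  · have h1 := rh_pos (b := b) (zs := zs) h
    have h2 := mtu_pos (b := b) (.inl h)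
    have h3 := mtd_pos (b := b) (.inl h)
    constructor
    · simp only [mhu]
      split_ifs <;> first | exact h1.1 | exact h2 | assumption
    · simp only [mhd]
      split_ifs <;> first | exact h1.2 | exact h3 | linarith
  · have h2 := mtu_pos (b := b) (.inr m)
    have h3 := mtd_pos (b := b) (.inr m)
    constructor
    · simp only [mhu]
      split_ifs <;> first | exact h2 | assumption
    · simp only [mhd]
      split_ifs <;> first | exact h3 | linarith

theorem wparM_XM (i : DD (tyW b)) : (wparM b zs).XM i = (wpar b zs).XM i := rfl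
theorem wparM_cl (i : DD (tyW b)) : (wparM b zs).cl i = (wpar b zs).cl i := rfl
theorem wparM_cr (i : DD (tyW b)) : (wparM b zs).cr i = (wpar b zs).cr i := rfl

/-! ### maximisers -/

/-- value with penalties -/
noncomputable def Ph (b : Fin (M + 1) → ℤ) (z : DD (tyW b) ⊕ ZZ (tyW b) → ℂ)
    (p : DD (tyW b) → ℝ) : ℝ := (wdat (tyW b) b).V z - 2 * Real.pi * ∑ i, p i

/-- **A maximiser of the penalised value over all paths** (main paths and mirrored paths; tails of
the variables of `R`, variables of `nb` real). -/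
structure MM (b : Fin (M + 1) → ℤ) (zs : DD (tyW b) ⊕ ZZ (tyW b) → ℂ) (R : Finset (DD (tyW b)))
    (nb : Finset (DD (tyW b) ⊕ ZZ (tyW b))) (z : DD (tyW b) ⊕ ZZ (tyW b) → ℂ)
    (p : DD (tyW b) → ℝ) : Prop where
  adm : Adm (wdat (tyW b) b) (wparM b zs) zs R nb z p
  max : ∀ z' p', Adm (wdat (tyW b) b) (wparM b zs) zs R nb z' p' → Ph b z' p' ≤ Ph b z p

theorem exists_MM (hnb : ∀ i ∈ R, Sum.inl i ∈ nb)
    (h : Adm (wdat (tyW b) b) (wparM b zs) zs R nb z p) :
    ∃ z' p', MM b zs R nb z' p' ∧ Ph b z p ≤ Ph b z' p' := by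
  have hX : ∀ i, 0 ≤ (wparM b zs).XM i ∧ (wparM b zs).XM i ≤ 1 := by
    intro i
    have g := par1_good b i
    refine ⟨?_, (g.2.2.2).le⟩
    show 0 ≤ (par1 b i).XM
    linarith only [g, g.1, g.2.1, g.2.2.1]
  obtain ⟨q, hq, hm⟩ := (isCompact_AdmSet (wdat (tyW b) b) (wparM b zs) hX zs R nb
    hnb).exists_isMaxOn ⟨(z, p), h⟩ (continuous_pen (wdat (tyW b) b)).continuousOn
  exact ⟨q.1, q.2, ⟨hq, fun z' p' h' => hm (a := (z', p')) h'⟩, hm (a := (z, p)) h⟩

/-- the real variables: if a region is touched by a tail then all its variables are real -/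
def NbOk (b : Fin (M + 1) → ℤ) (R : Finset (DD (tyW b)))
    (nb : Finset (DD (tyW b) ⊕ ZZ (tyW b))) : Prop :=
  (∀ i ∈ R, Sum.inl i ∈ nb) ∧
    ∀ d ∈ R, ∀ (m : Fin (M + 1)) (q : Fin 3), cf (tyW b) m q (.inl d) ≠ 0 →
      ∀ v q', cf (tyW b) m q' v ≠ 0 → v ∈ nb

theorem NbOk.empty : NbOk b ∅ ∅ := by
  refine ⟨?_, ?_⟩ <;> simp

/-- **No mirrored paths at the maximisers**: the removal of the mirrored paths. -/
theorem modeOk0_of (h : ∀ z p, MM b zs ∅ ∅ z p → p = 0) : ModeOk0 b zs (wparM b zs) := by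
  intro z p hz hp
  obtain ⟨z', p', hM, hle⟩ := exists_MM (R := ∅) (nb := ∅) (by simp) hz
  have h0 := h z' p' hM
  subst h0
  have h1 : Ph b z p ≠ Ph b z' 0 := by
    intro he
    exact hp (h z p ⟨hz, fun z1 p1 h1 => (hM.max z1 p1 h1).trans_eq he.symm⟩)
  refine ⟨z', hM.adm, ?_⟩
  have h2 := lt_of_le_of_ne hle h1
  unfold Ph at h2
  simpa using h2

theorem modeOkR_of {nb : Finset (DD (tyW b)) → Finset (DD (tyW b) ⊕ ZZ (tyW b))}
    (hnb : ∀ R, NbOk b R (nb R)) (h : ∀ R z p, MM b zs R (nb R) z p → p = 0) :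
    ModeOkR b zs (wparM b zs) nb := by
  intro R _ z p hz _
  obtain ⟨z', p', hM, hle⟩ := exists_MM (hnb R).1 hz
  have h0 := h R z' p' hM
  subst h0
  refine ⟨z', hM.adm, ?_⟩
  unfold Ph at hle
  simpa using hle

/-! ### moves -/

/-- a variable may take the position `ζ` with the penalty `π'` -/
def OnP (b : Fin (M + 1) → ℤ) (zs : DD (tyW b) ⊕ ZZ (tyW b) → ℂ) :
    DD (tyW b) ⊕ ZZ (tyW b) → ℂ → ℝ → Prop
  | .inl i, ζ, q => (wparM b zs).On (zs (.inl i)).im i ζ q
  | .inr v, ζ, _ => ∃ σ : ℝ, |σ| ≤ 1 / 2 ∧ ζ = LT.zt (zs (.inr v)).im σ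

/-- extension of penalties by zero -/
def pe (p : DD (tyW b) → ℝ) : DD (tyW b) ⊕ ZZ (tyW b) → ℝ
  | .inl i => p i
  | .inr _ => 0

/-- a point with some variables which are not real moved on their paths -/
structure Mv (b : Fin (M + 1) → ℤ) (zs : DD (tyW b) ⊕ ZZ (tyW b) → ℂ)
    (nb : Finset (DD (tyW b) ⊕ ZZ (tyW b))) (z : DD (tyW b) ⊕ ZZ (tyW b) → ℂ)
    (p : DD (tyW b) → ℝ) (z' : DD (tyW b) ⊕ ZZ (tyW b) → ℂ) (p' : DD (tyW b) → ℝ) : Prop where
  out : ∀ v, (z' v ≠ z v ∨ pe p' v ≠ pe p v) → v ∉ nb ∧ OnP b zs v (z' v) (pe p' v)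

theorem Mv.adm {z' : DD (tyW b) ⊕ ZZ (tyW b) → ℂ} {p' : DD (tyW b) → ℝ}
    (hR : ∀ i ∈ R, Sum.inl i ∈ nb) (h : Adm (wdat (tyW b) b) (wparM b zs) zs R nb z p)
    (hm : Mv b zs nb z p z' p') : Adm (wdat (tyW b) b) (wparM b zs) zs R nb z' p' := by
  have key : ∀ v ∈ nb, z' v = z v ∧ pe p' v = pe p v := by
    intro v hv
    by_contra hc
    rw [not_and_or] at hc
    exact (hm.out v hc).1 hv
  refine ⟨?_, ?_, ?_, ?_, ?_, ?_⟩
  · intro i hi
    obtain ⟨e1, e2⟩ := key _ (hR i hi)
    have e3 : p' i = p i := e2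
    rw [e1, e3]
    exact h.tail i hi
  · intro i hi hn
    obtain ⟨e1, e2⟩ := key _ hn
    have e3 : p' i = p i := e2
    rw [e1, e3]
    exact h.reD i hi hn
  · intro v hv
    rw [(key _ hv).1]
    exact h.reZ v hv
  · intro i hi
    by_cases hc : z' (.inl i) ≠ z (.inl i) ∨ pe p' (.inl i) ≠ pe p (.inl i)
    · exact (hm.out _ hc).2
    · rw [not_or, not_not, not_not] at hc
      have e3 : p' i = p i := hc.2
      rw [hc.1, e3]
      exact h.onD i hi
  · intro v hv
    by_cases hc : z' (.inr v) ≠ z (.inr v) ∨ pe p' (.inr v) ≠ pe p (.inr v)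
    · exact (hm.out _ hc).2
    · rw [not_or, not_not, not_not] at hc
      rw [hc.1]
      exact h.onZ v hv
  · intro k h1 h2
    have : (wdat (tyW b) b).form k z' = (wdat (tyW b) b).form k z := by
      unfold Dat.form
      congr 1
      refine Finset.sum_congr rfl fun v _ => ?_
      by_cases h0 : (wdat (tyW b) b).A k v = 0
      · rw [h0]; simp
      · rcases v with i | v
        · rw [(key _ (h2 i h0)).1]
        · exact absurd (h1 v) h0
    rw [this]
    exact h.wall k h1 h2

/-- value step at a maximiser -/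
theorem MM.step {z' : DD (tyW b) ⊕ ZZ (tyW b) → ℂ} {p' : DD (tyW b) → ℝ} (hb : ClassW b)
    (hR : ∀ i ∈ R, Sum.inl i ∈ nb) (hM : MM b zs R nb z p)
    (hm : Mv b zs nb z p z' p') (S : Finset (Fin (M + 1)))
    (hz : ∀ i, i ∉ S → ∀ j, z j ≠ z' j → ∀ q, cf (tyW b) i q j = 0) :
    ∑ i ∈ S, (OV b i (Ow b z' i) - OV b i (Ow b z i)) ≤ 2 * Real.pi * ∑ i, (p' i - p i) := by
  rw [← V_move hb S hz, Finset.sum_sub_distrib]
  have h1 := hM.max z' p' (hm.adm hR hM.adm)
  unfold Ph at h1
  linarith only [h1]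

/-! ### sides -/

/-- the regions on the side of the region `i` of the hinge `h` -/
def sideR (h : Fin M) (i : Fin (M + 1)) : Finset (Fin (M + 1)) :=
  if i ≤ h.castSucc then univ.filter (· ≤ h.castSucc) else univ.filter (h.castSucc < ·)

open Classical in
/-- the sum of the penalties except that of the hinge `h` -/
noncomputable def pex (h : Fin M) (p : DD (tyW b) → ℝ) : ℝ := ∑ i ∈ univ.erase (Sum.inl h), p i

/-- **Gain on one side.**  If the hinge `h` is moved to `u` (main path) then the variables on the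
side of the region `i` can be moved such that the sum of the values of the regions of this side
minus the penalties grows by at least `g`. -/
def SideG (b : Fin (M + 1) → ℤ) (zs : DD (tyW b) ⊕ ZZ (tyW b) → ℂ)
    (nb : Finset (DD (tyW b) ⊕ ZZ (tyW b))) (z : DD (tyW b) ⊕ ZZ (tyW b) → ℂ)
    (p : DD (tyW b) → ℝ) (h : Fin M) (i : Fin (M + 1)) (u : ℂ) (g : ℝ) : Prop :=
  ∃ (z' : DD (tyW b) ⊕ ZZ (tyW b) → ℂ) (p' : DD (tyW b) → ℝ), z' (.inl (.inl h)) = u ∧
    (∀ v, v ≠ .inl (.inl h) → (z' v ≠ z v ∨ pe p' v ≠ pe p v) →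
      v ∉ nb ∧ OnP b zs v (z' v) (pe p' v) ∧ ∀ m, m ∉ sideR h i → ∀ q, cf (tyW b) m q v = 0) ∧
    g ≤ ∑ m ∈ sideR h i, (OV b m (Ow b z' m) - OV b m (Ow b z m)) -
      2 * Real.pi * (pex h p' - pex h p)

theorem Ow_congr {z z' : DD (tyW b) ⊕ ZZ (tyW b) → ℂ} (m : Fin (M + 1))
    (hz : ∀ v, z v ≠ z' v → ∀ q, cf (tyW b) m q v = 0) : Ow b z m = Ow b z' m := by
  unfold Ow
  rw [xx_congr' m hz]

/-! ### the star move -/

theorem cf_hinge_ne {m : Fin (M + 1)} {q : Fin 3} (h0 : cf (tyW b) m q (.inl (.inl h)) ≠ 0) :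
    (m = h.castSucc ∧ q = 2) ∨ (m = h.succ ∧ q = 0) := by
  simp only [cf] at h0
  split_ifs at h0 with h1
  · rcases h1 with ⟨h2, h3⟩ | ⟨h2, h3⟩
    · exact Or.inr ⟨h3.symm, h2⟩
    · exact Or.inl ⟨h3.symm, h2⟩
  · exact absurd rfl h0

theorem cf_hinge_zero {m : Fin (M + 1)} (h1 : m ≠ h.castSucc) (h2 : m ≠ h.succ) (q : Fin 3) :
    cf (tyW b) m q (.inl (.inl h)) = 0 := by
  by_contra h0
  rcases cf_hinge_ne h0 with h3 | h3
  · exact h1 h3.1
  · exact h2 h3.1

theorem exists_cf (v : DD (tyW b) ⊕ ZZ (tyW b)) : ∃ m q, cf (tyW b) m q v ≠ 0 := by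
  rcases v with (h | m) | v
  · exact ⟨h.castSucc, 2, by simp [cf]⟩
  · exact ⟨m.1, 1, by simp [cf]⟩
  · exact ⟨v.1, 1, by simp [cf]⟩

theorem sideR_l (h : Fin M) : sideR h h.castSucc = univ.filter (· ≤ h.castSucc) := by
  unfold sideR
  rw [if_pos le_rfl]

theorem sideR_r (h : Fin M) : sideR h h.succ = univ.filter (h.castSucc < ·) := by
  unfold sideR
  rw [if_neg (not_le.2 Fin.castSucc_lt_succ)]

theorem Adj.mem_side (A : Adj h i s j) : i ∈ sideR h i ∧ j ∉ sideR h i := by
  cases A
  · rw [sideR_l]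
    simp
  · rw [sideR_r]
    simp

/-- **The star move.** -/
theorem MM.star0 (hb : ClassW b) (hR : ∀ i ∈ R, Sum.inl i ∈ nb) (hM : MM b zs R nb z p)
    (hn : Sum.inl (Sum.inl h) ∉ nb) {u : ℂ} (hu : OnP b zs (.inl (.inl h)) u 0) {g1 g2 : ℝ}
    (h1 : SideG b zs nb z p h h.castSucc u g1) (h2 : SideG b zs nb z p h h.succ u g2) :
    g1 + g2 + 2 * Real.pi * p (.inl h) ≤ 0 := by
  classical
  obtain ⟨z1, p1, e1, c1, k1⟩ := h1
  obtain ⟨z2, p2, e2, c2, k2⟩ := h2
  set C1 : DD (tyW b) ⊕ ZZ (tyW b) → Prop := fun v => z1 v ≠ z v ∨ pe p1 v ≠ pe p v with hC1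
  set C2 : DD (tyW b) ⊕ ZZ (tyW b) → Prop := fun v => z2 v ≠ z v ∨ pe p2 v ≠ pe p v with hC2
  set z3 : DD (tyW b) ⊕ ZZ (tyW b) → ℂ := fun v => if v = .inl (.inl h) then u else
    if C1 v then z1 v else z2 v with hz3
  set p3 : DD (tyW b) → ℝ := fun i => if i = .inl h then 0 else
    if C1 (.inl i) then p1 i else p2 i with hp3
  have n1 : ∀ v, ¬ C1 v → z1 v = z v ∧ pe p1 v = pe p v := by
    intro v hv
    rw [hC1] at hv
    simp only [not_or, not_not] at hv
    exact hv
  have n2 : ∀ v, ¬ C2 v → z2 v = z v ∧ pe p2 v = pe p v := by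
    intro v hv
    rw [hC2] at hv
    simp only [not_or, not_not] at hv
    exact hv
  have hpe : ∀ v, pe p3 v = if v = .inl (.inl h) then 0 else if C1 v then pe p1 v else pe p2 v := by
    intro v
    rcases v with i | v
    · have e0 : pe p3 (.inl i) = if i = Sum.inl h then (0 : ℝ) else if C1 (.inl i) then p1 i else p2 i := rfl
      rw [e0]
      by_cases hi : i = Sum.inl h
      · rw [if_pos hi, if_pos (by rw [hi])]
      · have hi' : ¬ (Sum.inl i : DD (tyW b) ⊕ ZZ (tyW b)) = .inl (.inl h) := by simpa using hi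
        rw [if_neg hi, if_neg hi']
        rfl
    · show (0 : ℝ) = _
      rw [if_neg (by simp)]
      split_ifs <;> rfl
  have hmv : Mv b zs nb z p z3 p3 := by
    refine ⟨fun v hv => ?_⟩
    by_cases hvh : v = .inl (.inl h)
    · subst hvh
      refine ⟨hn, ?_⟩
      rw [hpe, if_pos rfl, hz3]
      simp only [if_true]
      exact hu
    · rw [hpe, if_neg hvh] at hv ⊢
      have hzv : z3 v = if C1 v then z1 v else z2 v := by
        rw [hz3]
        simp only [if_neg hvh]
      rw [hzv] at hv ⊢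
      by_cases hc : C1 v
      · rw [if_pos hc, if_pos hc]
        obtain ⟨a1, a2, -⟩ := c1 v hvh hc
        exact ⟨a1, a2⟩
      · rw [if_neg hc, if_neg hc] at hv ⊢
        obtain ⟨a1, a2, -⟩ := c2 v hvh hv
        exact ⟨a1, a2⟩
  have hL : ∀ m ∈ sideR h h.castSucc, Ow b z3 m = Ow b z1 m := by
    intro m hm
    refine Ow_congr m fun v hv q => ?_
    have hvh : v ≠ .inl (.inl h) := by
      rintro rfl
      apply hv
      rw [hz3, e1]
      simp
    have hzv : z3 v = if C1 v then z1 v else z2 v := by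
      rw [hz3]
      simp only [if_neg hvh]
    by_cases hc : C1 v
    · exact absurd (by rw [hzv, if_pos hc]) hv
    · have hc2 : C2 v := by
        left
        intro h0
        apply hv
        rw [hzv, if_neg hc, h0, (n1 v hc).1]
      refine (c2 v hvh hc2).2.2 m ?_ q
      rw [sideR_l] at hm
      rw [sideR_r]
      simpa using hm
  have hRr : ∀ m ∈ sideR h h.succ, Ow b z3 m = Ow b z2 m := by
    intro m hm
    refine Ow_congr m fun v hv q => ?_
    have hvh : v ≠ .inl (.inl h) := by
      rintro rfl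
      apply hv
      rw [hz3, e2]
      simp
    have hzv : z3 v = if C1 v then z1 v else z2 v := by
      rw [hz3]
      simp only [if_neg hvh]
    by_cases hc : C1 v
    · refine (c1 v hvh hc).2.2 m ?_ q
      rw [sideR_r] at hm
      rw [sideR_l]
      simpa using hm
    · exact absurd (by rw [hzv, if_neg hc]) hv
  have hstep := hM.max z3 p3 (hmv.adm hR hM.adm)
  unfold Ph at hstep
  rw [V_eq_OV hb, V_eq_OV hb] at hstep
  have hsplit : ∀ f : Fin (M + 1) → ℝ, ∑ m, f m =
      ∑ m ∈ sideR h h.castSucc, f m + ∑ m ∈ sideR h h.succ, f m := by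
    intro f
    rw [sideR_l, sideR_r, ← Finset.sum_filter_add_sum_filter_not univ (· ≤ h.castSucc)]
    congr 2
    ext m
    simp
  rw [hsplit, hsplit fun m => OV b m (Ow b z m)] at hstep
  have s1 : ∑ m ∈ sideR h h.castSucc, OV b m (Ow b z3 m) =
      ∑ m ∈ sideR h h.castSucc, OV b m (Ow b z1 m) :=
    Finset.sum_congr rfl fun m hm => by rw [hL m hm]
  have s2 : ∑ m ∈ sideR h h.succ, OV b m (Ow b z3 m) =
      ∑ m ∈ sideR h h.succ, OV b m (Ow b z2 m) :=
    Finset.sum_congr rfl fun m hm => by rw [hRr m hm]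
  rw [s1, s2] at hstep
  rw [Finset.sum_sub_distrib] at k1 k2
  -- penalties
  have hp : ∀ i, i ≠ Sum.inl h → p3 i - p i = (p1 i - p i) + (p2 i - p i) := by
    intro i hi
    have hvh : (Sum.inl i : DD (tyW b) ⊕ ZZ (tyW b)) ≠ .inl (.inl h) := by simpa using hi
    have h3 : p3 i = if C1 (.inl i) then p1 i else p2 i := by
      rw [hp3]
      simp only [if_neg hi]
    rw [h3]
    by_cases hc : C1 (.inl i)
    · rw [if_pos hc]
      have hc2 : ¬ C2 (.inl i) := by
        intro hc2
        obtain ⟨m, q, hmq⟩ := exists_cf (b := b) (Sum.inl i)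
        apply hmq
        by_cases hm : m ∈ sideR h h.castSucc
        · refine (c2 _ hvh hc2).2.2 m ?_ q
          rw [sideR_l] at hm
          rw [sideR_r]
          simpa using hm
        · exact (c1 _ hvh hc).2.2 m hm q
      have h4 : p2 i = p i := (n2 _ hc2).2
      rw [h4]
      ring
    · rw [if_neg hc]
      have h4 : p1 i = p i := (n1 _ hc).2
      rw [h4]
      ring
  have hpsum : ∀ q : DD (tyW b) → ℝ, ∑ i, q i = q (.inl h) + pex h q := by
    intro q
    unfold pex
    exact (Finset.add_sum_erase univ q (Finset.mem_univ _)).symm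
  have hpx : pex h p3 - pex h p = (pex h p1 - pex h p) + (pex h p2 - pex h p) := by
    unfold pex
    rw [← Finset.sum_sub_distrib, ← Finset.sum_sub_distrib, ← Finset.sum_sub_distrib,
      ← Finset.sum_add_distrib]
    exact Finset.sum_congr rfl fun i hi => hp i (Finset.ne_of_mem_erase hi)
  have h30 : p3 (.inl h) = 0 := by
    rw [hp3]
    simp
  rw [hpsum p3, hpsum p, h30] at hstep
  have e5 : pex h p3 = pex h p + ((pex h p1 - pex h p) + (pex h p2 - pex h p)) := by
    rw [← hpx]; ring
  rw [e5] at hstep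
  nlinarith only [k1, k2, hstep, k1, k2, hstep]

/-- **The star move**, left and right at once. -/
theorem MM.star (hb : ClassW b) (hR : ∀ i ∈ R, Sum.inl i ∈ nb) (hM : MM b zs R nb z p)
    (A : Adj h i s j) (hn : Sum.inl (Sum.inl h) ∉ nb) {u : ℂ}
    (hu : OnP b zs (.inl (.inl h)) u 0) {g1 g2 : ℝ}
    (h1 : SideG b zs nb z p h i u g1) (h2 : SideG b zs nb z p h j u g2) :
    g1 + g2 + 2 * Real.pi * p (.inl h) ≤ 0 := by
  cases A
  · exact hM.star0 hb hR hn hu h1 h2
  · linarith only [hb, hR, hM, hn, hu, h2, h1, hM.star0 hb hR hn hu h2 h1]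

theorem SideG.mono {u : ℂ} {g g' : ℝ} (hg : SideG b zs nb z p h i u g) (h' : g' ≤ g) :
    SideG b zs nb z p h i u g' := by
  obtain ⟨z1, p1, e1, c1, k1⟩ := hg
  exact ⟨z1, p1, e1, c1, h'.trans k1⟩

/-! ### gains -/

theorem sideR_hinge (A : Adj h i s j) {m : Fin (M + 1)} (hm : m ∈ sideR h i) (hmi : m ≠ i)
    (q : Fin 3) : cf (tyW b) m q (.inl (.inl h)) = 0 := by
  cases A
  · refine cf_hinge_zero hmi ?_ q
    rintro rfl
    rw [sideR_l] at hm
    simp at hm
  · refine cf_hinge_zero ?_ hmi q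
    rintro rfl
    rw [sideR_r] at hm
    simp at hm

theorem Ow_upd_hinge (A : Adj h i s j) (z : DD (tyW b) ⊕ ZZ (tyW b) → ℂ) (u : ℂ) :
    Ow b (Function.update z (.inl (.inl h)) u) i = Function.update (Ow b z i) s (ofr (b i) u) := by
  unfold Ow
  cases A
  · rw [xx_upd_hinge_left, own_update_two]
  · rw [xx_upd_hinge_right, own_update_zero]

open Classical in
/-- **The other variables are kept.** -/
theorem SideG.keep (A : Adj h i s j) (u : ℂ) : SideG b zs nb z p h i u
    (OV b i (Function.update (Ow b z i) s (ofr (b i) u)) - OV b i (Ow b z i)) := by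
  refine ⟨Function.update z (.inl (.inl h)) u, p, Function.update_self .., ?_, ?_⟩
  · intro v hv hc
    rw [Function.update_of_ne hv] at hc
    simp at hc
  · rw [sub_self, mul_zero, sub_zero, Finset.sum_eq_single i]
    · rw [Ow_upd_hinge A]
    · intro m hm hmi
      rw [Ow_congr (z := z) (z' := Function.update z (.inl (.inl h)) u) m]
      · ring
      · intro v hv q
        by_cases hvh : v = .inl (.inl h)
        · subst hvh
          exact sideR_hinge A hm hmi q
        · exact absurd (by rw [Function.update_of_ne hvh]) hv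
    · intro h0
      exact absurd A.mem_side.1 h0

/-- penalties with a new value at one variable -/
noncomputable def pup (p : DD (tyW b) → ℝ) (v : DD (tyW b) ⊕ ZZ (tyW b)) (q : ℝ) :
    DD (tyW b) → ℝ :=
  match v with
  | .inl i => Function.update p i q
  | .inr _ => p

/-- the penalty of a variable, `0` for ring variables -/
def qe (v : DD (tyW b) ⊕ ZZ (tyW b)) (q : ℝ) : ℝ :=
  match v with
  | .inl _ => q
  | .inr _ => 0

theorem pe_pup (p : DD (tyW b) → ℝ) (v w : DD (tyW b) ⊕ ZZ (tyW b)) (q : ℝ) :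
    pe (pup p v q) w = if w = v then qe v q else pe p w := by
  rcases v with i | v
  · rcases w with i' | w
    · show Function.update p i q i' = _
      by_cases hi : i' = i
      · subst hi
        simp [qe]
      · rw [Function.update_of_ne hi, if_neg (by simpa using hi)]
        rfl
    · show (0 : ℝ) = _
      rw [if_neg (by simp)]
      rfl
  · show pe p w = _
    by_cases hw : w = .inr v
    · subst hw
      simp [qe, pe]
    · rw [if_neg hw]

open Classical in
theorem pex_pup (h : Fin M) (p : DD (tyW b) → ℝ) {v : DD (tyW b) ⊕ ZZ (tyW b)}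
    (hv : v ≠ .inl (.inl h)) (q : ℝ) : pex h (pup p v q) - pex h p = qe v q - pe p v := by
  rcases v with i | v
  · have hi : i ≠ Sum.inl h := by simpa using hv
    have hm : i ∈ univ.erase (Sum.inl h : DD (tyW b)) := Finset.mem_erase.2 ⟨hi, Finset.mem_univ _⟩
    unfold pex
    show ∑ k ∈ univ.erase (Sum.inl h), Function.update p i q k - _ = q - p i
    rw [← Finset.sum_sub_distrib, Finset.sum_eq_single i]
    · rw [Function.update_self]
    · intro k _ hk
      rw [Function.update_of_ne hk, sub_self]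
    · intro h0
      exact absurd hm h0
  · show pex h p - pex h p = 0 - 0
    ring

open Classical in
/-- **One variable of the side responds.** -/
theorem SideG.resp (A : Adj h i s j) (u ζ : ℂ) (q : ℝ) {v0 : DD (tyW b) ⊕ ZZ (tyW b)}
    (hv : v0 ≠ .inl (.inl h)) (hn : v0 ∉ nb) (ho : OnP b zs v0 ζ (qe v0 q))
    (hs : ∀ m, m ∉ sideR h i → ∀ q', cf (tyW b) m q' v0 = 0) {S : Finset (Fin (M + 1))}
    (hS : S ⊆ sideR h i) (hi : i ∈ S) (hS' : ∀ m, m ∉ S → ∀ q', cf (tyW b) m q' v0 = 0) :
    SideG b zs nb z p h i u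
      (∑ m ∈ S, (OV b m (Ow b (Function.update (Function.update z (.inl (.inl h)) u) v0 ζ) m) -
        OV b m (Ow b z m)) - 2 * Real.pi * (qe v0 q - pe p v0)) := by
  refine ⟨Function.update (Function.update z (.inl (.inl h)) u) v0 ζ, pup p v0 q, ?_, ?_, ?_⟩
  · rw [Function.update_of_ne hv.symm, Function.update_self]
  · intro v hvh hc
    by_cases h0 : v = v0
    · subst h0
      rw [pe_pup, if_pos rfl, Function.update_self]
      exact ⟨hn, ho, hs⟩
    · rw [pe_pup, if_neg h0, Function.update_of_ne h0, Function.update_of_ne hvh] at hc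
      simp at hc
  · rw [pex_pup h p hv]
    have : ∑ m ∈ sideR h i, (OV b m (Ow b (Function.update (Function.update z (.inl (.inl h)) u) v0 ζ) m) -
        OV b m (Ow b z m)) = ∑ m ∈ S, (OV b m (Ow b (Function.update (Function.update z
          (.inl (.inl h)) u) v0 ζ) m) - OV b m (Ow b z m)) := by
      symm
      refine Finset.sum_subset hS fun m hm hmS => ?_
      rw [Ow_congr (z := z) (z' := Function.update (Function.update z (.inl (.inl h)) u) v0 ζ) m]
      · ring
      · intro v hv' q'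
        by_cases h0 : v = v0
        · subst h0
          exact hS' m hmS q'
        · rw [Function.update_of_ne h0] at hv'
          by_cases hvh : v = .inl (.inl h)
          · subst hvh
            exact sideR_hinge A hm (fun e => hmS (e ▸ hi)) q'
          · exact absurd (by rw [Function.update_of_ne hvh]) hv'
    rw [this]

theorem Ow_upd_mid (m : {i : Fin (M + 1) // (tyW b i).isMid = true})
    (z : DD (tyW b) ⊕ ZZ (tyW b) → ℂ) (c : ℂ) :
    Ow b (Function.update z (.inl (.inr m)) c) m.1 =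
      Function.update (Ow b z m.1) 1 (ofr (b m.1) c) := by
  unfold Ow
  rw [xx_upd_mid, own_update_one]
  intro h0
  have := m.2
  rw [h0] at this
  simp [Typ.isMid] at this

theorem Ow_upd_ring (v : ZZ (tyW b)) (z : DD (tyW b) ⊕ ZZ (tyW b) → ℂ) (c : ℂ) :
    Ow b (Function.update z (.inr v) c) v.1 =
      Function.update (Ow b z v.1) 1 (ofz (b v.1) c) := by
  unfold Ow
  rw [xx_upd_ring, tyW_ring v.2, own_update_ring]

/-- **The inner variable of the region responds.** -/
theorem SideG.inner (m : {i : Fin (M + 1) // (tyW b i).isMid = true}) (A : Adj h m.1 s j)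
    (u ζ : ℂ) (q : ℝ) (hn : Sum.inl (Sum.inr m) ∉ nb)
    (ho : (wparM b zs).On (zs (.inl (.inr m))).im (.inr m) ζ q) :
    SideG b zs nb z p h m.1 u
      (OV b m.1 (Function.update (Function.update (Ow b z m.1) s (ofr (b m.1) u)) 1
        (ofr (b m.1) ζ)) - OV b m.1 (Ow b z m.1) - 2 * Real.pi * (q - p (.inr m))) := by
  have h1 := SideG.resp (b := b) (zs := zs) (nb := nb) (z := z) (p := p) A u ζ q
    (v0 := .inl (.inr m)) (by simp) hn ho (S := {m.1}) ?_ ?_ (by simp) ?_
  · rw [Finset.sum_singleton, Ow_upd_mid, Ow_upd_hinge A] at h1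
    exact h1
  · intro m' hm' q'
    have : m.1 ≠ m' := fun e => hm' (e ▸ A.mem_side.1)
    simp [cf, this]
  · intro m' hm'
    rw [Finset.mem_singleton] at hm'
    rw [hm']
    exact A.mem_side.1
  · intro m' hm' q'
    have : m.1 ≠ m' := fun e => hm' (by rw [e]; exact Finset.mem_singleton_self _)
    simp [cf, this]

/-- **The ring variable of the region responds.** -/
theorem SideG.rvar (v : ZZ (tyW b)) (A : Adj h v.1 s j) (u ζ : ℂ)
    (hn : Sum.inr v ∉ nb) (ho : ∃ σ : ℝ, |σ| ≤ 1 / 2 ∧ ζ = LT.zt (zs (.inr v)).im σ) :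
    SideG b zs nb z p h v.1 u
      (OV b v.1 (Function.update (Function.update (Ow b z v.1) s (ofr (b v.1) u)) 1
        (ofz (b v.1) ζ)) - OV b v.1 (Ow b z v.1)) := by
  have h1 := SideG.resp (b := b) (zs := zs) (nb := nb) (z := z) (p := p) A u ζ 0
    (v0 := .inr v) (by simp) hn ho (S := {v.1}) ?_ ?_ (by simp) ?_
  · rw [Finset.sum_singleton, Ow_upd_ring, Ow_upd_hinge A] at h1
    simpa [qe, pe] using h1
  · intro m' hm' q'
    have : v.1 ≠ m' := fun e => hm' (e ▸ A.mem_side.1)
    simp [cf, this]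
  · intro m' hm'
    rw [Finset.mem_singleton] at hm'
    rw [hm']
    exact A.mem_side.1
  · intro m' hm' q'
    have : v.1 ≠ m' := fun e => hm' (by rw [e]; exact Finset.mem_singleton_self _)
    simp [cf, this]

/-- the hinge in the other slot of the region `i` touches only regions on the side of `i` -/
theorem Adj.side2 (A : Adj h i s j) (A' : Adj h' i s.rev j') :
    j' ∈ sideR h i ∧ h' ≠ h ∧ j' ≠ i ∧
      ∀ m, m ∉ ({i, j'} : Finset (Fin (M + 1))) → ∀ q, cf (tyW b) m q (.inl (.inl h')) = 0 := by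
  have key : ∀ {k k' : Fin M}, k.castSucc = k'.succ → k' ≠ k ∧ k'.castSucc ≤ k.castSucc ∧
      k'.castSucc ≠ k.castSucc := by
    intro k k' e
    have e1 : k.val = k'.val + 1 := by
      have := congrArg Fin.val e
      simpa using this
    refine ⟨fun e2 => ?_, ?_, ?_⟩
    · rw [e2] at e1; omega
    · rw [Fin.le_def]; simp; omega
    · intro e2
      have := congrArg Fin.val e2
      simp at this
      omega
  cases A with
  | l =>
    generalize hi' : h.castSucc = i' at A'
    generalize hs' : (2 : Fin 3).rev = s' at A'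
    cases A' with
    | l => exact absurd hs' (by decide)
    | r =>
      obtain ⟨k1, k2, k3⟩ := key hi'
      refine ⟨?_, k1, ?_, ?_⟩
      · rw [hi'.symm, sideR_l]
        simpa using k2
      · rw [← hi']
        exact k3
      · intro m hm q
        simp only [Finset.mem_insert, Finset.mem_singleton, not_or] at hm
        exact cf_hinge_zero hm.2 hm.1 q
  | r =>
    generalize hi' : h.succ = i' at A'
    generalize hs' : (0 : Fin 3).rev = s' at A'
    cases A' with
    | r => exact absurd hs' (by decide)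
    | l =>
      obtain ⟨k1, k2, k3⟩ := key hi'.symm
      refine ⟨?_, fun e => k1 e.symm, ?_, ?_⟩
      · rw [← hi', sideR_r]
        simp only [Finset.mem_filter, Finset.mem_univ, true_and]
        have e1 : h'.val = h.val + 1 := by
          have := congrArg Fin.val hi'
          simpa using this.symm
        rw [Fin.lt_def]
        simp
        omega
      · exact (Fin.castSucc_lt_succ).ne'
      · intro m hm q
        simp only [Finset.mem_insert, Finset.mem_singleton, not_or] at hm
        exact cf_hinge_zero hm.1 hm.2 q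

/-- **The hinge in the other slot responds.** -/
theorem SideG.hinge (A : Adj h i s j) (A' : Adj h' i s.rev j') (u ζ : ℂ) (q : ℝ)
    (hn : Sum.inl (Sum.inl h') ∉ nb)
    (ho : (wparM b zs).On (zs (.inl (.inl h'))).im (.inl h') ζ q) :
    SideG b zs nb z p h i u
      (OV b i (Function.update (Function.update (Ow b z i) s (ofr (b i) u)) s.rev
        (ofr (b i) ζ)) - OV b i (Ow b z i) +
      (OV b j' (Function.update (Ow b z j') s (ofr (b j') ζ)) - OV b j' (Ow b z j')) -
      2 * Real.pi * (q - p (.inl h'))) := by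
  obtain ⟨m1, m2, m3, m4⟩ := A.side2 (b := b) A'
  have hv0 : (Sum.inl (Sum.inl h') : DD (tyW b) ⊕ ZZ (tyW b)) ≠ .inl (.inl h) := by
    simpa using m2
  have h1 := SideG.resp (b := b) (zs := zs) (nb := nb) (z := z) (p := p) A u ζ q
    (v0 := .inl (.inl h')) hv0 hn ho (S := {i, j'}) ?_ ?_ (by simp) m4
  · rw [Finset.sum_pair m3.symm, Ow_upd_hinge A', Ow_upd_hinge A] at h1
    have A'' : Adj h' j' s i := by
      have := A'.symm
      rwa [Fin.rev_rev] at this
    rw [Ow_upd_hinge A''] at h1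
    have e1 : Ow b (Function.update z (.inl (.inl h)) u) j' = Ow b z j' := by
      refine (Ow_congr j' fun v hv q' => ?_).symm
      by_cases hvh : v = .inl (.inl h)
      · subst hvh
        exact sideR_hinge A m1 m3 q'
      · exact absurd (by rw [Function.update_of_ne hvh]) hv
    rw [e1] at h1
    exact h1
  · intro m hm q'
    refine m4 m ?_ q'
    simp only [Finset.mem_insert, Finset.mem_singleton, not_or]
    exact ⟨fun e => hm (e ▸ A.mem_side.1), fun e => hm (e ▸ m1)⟩
  · intro m hm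
    simp only [Finset.mem_insert, Finset.mem_singleton] at hm
    rcases hm with rfl | rfl
    · exact A.mem_side.1
    · exact m1

/-! ### positions of the variables at a maximiser -/

/-- the penalty of a point which is on the main path vanishes -/
theorem MM.pen_zero (hR : ∀ i ∈ R, Sum.inl i ∈ nb) (hM : MM b zs R nb z p) {i : DD (tyW b)}
    (hn : Sum.inl i ∉ nb) (h0 : (wparM b zs).On (zs (.inl i)).im i (z (.inl i)) 0) :
    p i ≤ 0 := by
  have hmv : Mv b zs nb z p z (Function.update p i 0) := by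
    refine ⟨fun v hv => ?_⟩
    rcases v with i' | v
    · by_cases hi : i' = i
      · subst hi
        refine ⟨hn, ?_⟩
        have : pe (Function.update p i' 0) (.inl i') = 0 := by simp [pe]
        rw [this]
        exact h0
      · exfalso
        have : pe (Function.update p i 0) (.inl i') = pe p (.inl i') := by
          simp [pe, Function.update_of_ne hi]
        rw [this] at hv
        simp at hv
    · exfalso
      simp [pe] at hv
  have h1 := hM.max z _ (hmv.adm hR hM.adm)
  unfold Ph at h1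
  have h2 : ∑ k, p k ≤ ∑ k, Function.update p i 0 k := by
    have := Real.pi_pos
    nlinarith only [h1, this]
  have h3 : ∑ k, Function.update p i 0 k - ∑ k, p k = -p i := by
    rw [← Finset.sum_sub_distrib, Finset.sum_eq_single i]
    · rw [Function.update_self]; ring
    · intro k _ hk
      rw [Function.update_of_ne hk, sub_self]
    · intro h
      exact absurd (Finset.mem_univ i) h
  linarith only [h2, h3]

/-- position of a variable: real, on the main path of height `T`, on the mirrored path on the other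
side (of height `Hu` if this is the upper side, `Hd` if it is the lower one) -/
def Pst (T Hu Hd XM cl cr : ℝ) (X : ℂ) (q : ℝ) : Prop :=
  ∃ x : ℝ, 0 ≤ x ∧ x ≤ XM ∧ X.re = x ∧
    ((X.im = 0 ∧ q = 0) ∨ (X.im = T * tr 0 XM cl cr x ∧ q = 0) ∨
      (T ≤ 0 ∧ X.im = Hu * tr 0 XM cl cr x ∧ q = Hu * tr 0 XM cl cr x) ∨
      (0 ≤ T ∧ X.im = -(Hd * tr 0 XM cl cr x) ∧ q = Hd * tr 0 XM cl cr x))

theorem ptm_re (a b' c c' t x : ℝ) : (pt a b' c c' t x).re = x := by
  unfold pt
  simp

theorem ptm_im (a b' c c' t x : ℝ) : (pt a b' c c' t x).im = t * tr a b' c c' x := by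
  unfold pt
  simp

/-- positions of a variable which is no hinge of a ring -/
theorem MM.pst (hR : ∀ i ∈ R, Sum.inl i ∈ nb) (hM : MM b zs R nb z p) {i : DD (tyW b)}
    (hn : Sum.inl i ∉ nb) (hr : ¬ RH1 b i) :
    Pst (zs (.inl i)).im (mtu b i) (mtd b i) ((wpar b zs).XM i) ((wpar b zs).cl i) ((wpar b zs).cr i)
      (z (.inl i)) (p i) := by
  have hhu : (wparM b zs).hu i = if 0 < (zs (.inl i)).im then (zs (.inl i)).im else mtu b i := by
    show mhu b zs i = _
    rcases i with h | m
    · simp only [RH1] at hr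
      simp only [mhu, if_neg hr]
    · rfl
  have hhd : (wparM b zs).hd i = if (zs (.inl i)).im < 0 then -(zs (.inl i)).im else mtd b i := by
    show mhd b zs i = _
    rcases i with h | m
    · simp only [RH1] at hr
      simp only [mhd, if_neg hr]
    · rfl
  obtain ⟨x, h0, h1, h2⟩ := hM.adm.onD i hn
  refine ⟨x, h0, h1, ?_, ?_⟩
  · rcases h2 with h2 | h2 | h2 <;> rw [h2.1, ptm_re]
  · have ht := tr_mem 0 ((wpar b zs).XM i) ((wpar b zs).cl i) ((wpar b zs).cr i) x
    rcases h2 with ⟨e1, e2⟩ | ⟨e1, e2⟩ | ⟨e1, e2⟩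
    · right; left
      rw [e1, ptm_im]
      exact ⟨rfl, e2⟩
    · rw [hhu] at e1 e2
      by_cases hT : 0 < (zs (.inl i)).im
      · right; left
        rw [if_pos hT] at e1 e2
        have h3 : p i ≤ 0 := hM.pen_zero hR hn ⟨x, h0, h1, Or.inl ⟨e1, rfl⟩⟩
        refine ⟨by rw [e1, ptm_im]; rfl, le_antisymm h3 ?_⟩
        rw [e2]
        exact mul_nonneg hT.le ht.1
      · right; right; left
        rw [if_neg hT] at e1 e2
        exact ⟨not_lt.1 hT, by rw [e1, ptm_im]; rfl, e2⟩
    · rw [hhd] at e1 e2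
      by_cases hT : (zs (.inl i)).im < 0
      · right; left
        rw [if_pos hT] at e1 e2
        have e1' : z (.inl i) = pt 0 ((wparM b zs).XM i) ((wparM b zs).cl i)
            ((wparM b zs).cr i) (zs (.inl i)).im x := by
          rw [e1, neg_neg]
        have h3 : p i ≤ 0 := hM.pen_zero hR hn ⟨x, h0, h1, Or.inl ⟨e1', rfl⟩⟩
        refine ⟨by rw [e1', ptm_im]; rfl, le_antisymm h3 ?_⟩
        rw [e2]
        exact mul_nonneg (by linarith only [hT]) ht.1
      · right; right; right
        rw [if_neg hT] at e1 e2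
        refine ⟨not_lt.1 hT, ?_, e2⟩
        rw [e1, ptm_im, neg_mul]
        rfl

theorem Pst.ofr {T Hu Hd XM cl cr : ℝ} {X : ℂ} {q : ℝ} (hX : Pst T Hu Hd XM cl cr X q) (c : ℤ) :
    Pst (ofs c T) (if 0 < c then Hu else Hd) (if 0 < c then Hd else Hu) XM cl cr (ofr c X) q := by
  obtain ⟨x, h0, h1, h2, h3⟩ := hX
  refine ⟨x, h0, h1, by rw [ofr_re]; exact h2, ?_⟩
  rw [ofr_im]
  by_cases hc : 0 < c
  · rw [ofs_pos hc, ofs_pos hc, if_pos hc, if_pos hc]
    exact h3
  · have e : ∀ m : ℝ, ofs c m = -m := fun m => by unfold ofs; rw [if_neg hc]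
    rw [e, e, if_neg hc, if_neg hc]
    rcases h3 with ⟨a1, a2⟩ | ⟨a1, a2⟩ | ⟨a1, a2, a3⟩ | ⟨a1, a2, a3⟩
    · left
      exact ⟨by rw [a1, neg_zero], a2⟩
    · right; left
      exact ⟨by rw [a1]; ring, a2⟩
    · right; right; right
      exact ⟨by linarith only [a1], by rw [a2], a3⟩
    · right; right; left
      exact ⟨by linarith only [a1], by rw [a2, neg_neg], a3⟩

theorem Pst.abs_im {T Hu Hd H XM cl cr : ℝ} {X : ℂ} {q : ℝ} (hX : Pst T Hu Hd XM cl cr X q)
    (hT : |T| ≤ H) (hu : Hu ≤ H) (hd : Hd ≤ H) (hu0 : 0 ≤ Hu) (hd0 : 0 ≤ Hd) :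
    0 ≤ X.re ∧ X.re ≤ XM ∧ |X.im| ≤ H * tr 0 XM cl cr X.re ∧ 0 ≤ q := by
  obtain ⟨x, h0, h1, h2, h3⟩ := hX
  have ht := tr_mem 0 XM cl cr x
  have hH : 0 ≤ H := (abs_nonneg _).trans hT
  have hp := mul_nonneg hH ht.1
  have hpu := mul_nonneg hu0 ht.1
  have hpd := mul_nonneg hd0 ht.1
  have gu := mul_le_mul_of_nonneg_right hu ht.1
  have gd := mul_le_mul_of_nonneg_right hd ht.1
  rw [h2]
  refine ⟨h0, h1, ?_, ?_⟩
  · rcases h3 with ⟨a1, -⟩ | ⟨a1, -⟩ | ⟨-, a1, -⟩ | ⟨-, a1, -⟩
    · rw [a1, abs_zero]; exact hp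
    · rw [a1, abs_mul, abs_of_nonneg ht.1]
      exact mul_le_mul_of_nonneg_right hT ht.1
    · rw [a1, abs_of_nonneg hpu]
      exact gu
    · rw [a1, abs_neg, abs_of_nonneg hpd]
      exact gd
  · rcases h3 with ⟨-, a1⟩ | ⟨-, a1⟩ | ⟨-, -, a1⟩ | ⟨-, -, a1⟩
    · rw [a1]
    · rw [a1]
    · rw [a1]; exact hpu
    · rw [a1]; exact hpd

theorem ofs_opp' {d d' : ℤ} (hd : d * d' < 0) : (0 < d ↔ ¬ 0 < d') := by
  constructor
  · intro h1 h2
    nlinarith only [hd, h1, h2]
  · intro h1
    rcases lt_trichotomy d 0 with h2 | h2 | h2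
    · nlinarith only [hd, h1, h2]
    · rw [h2, zero_mul] at hd
      exact absurd hd (lt_irrefl 0)
    · exact h2

theorem mt_frame (hb : ClassW b) (A : Adj h i s j) (hi : clsW b i ≠ .ring) :
    (if 0 < b i then mtu b (.inl h) else mtd b (.inl h)) = mhs b h s.rev ∧
      (if 0 < b i then mtd b (.inl h) else mtu b (.inl h)) = mhs b h s := by
  have hs : b h.castSucc * b h.succ < 0 := by
    rcases sign_cases hb h with h1 | ⟨-, h2, h3⟩
    · exact h1
    · cases A
      · exact absurd h2 hi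
      · exact absurd h3 hi
  have ho := ofs_opp' hs
  cases A with
  | l =>
    show (if 0 < b h.castSucc then mtu b (.inl h) else mtd b (.inl h)) = mhs b h 0 ∧
      (if 0 < b h.castSucc then mtd b (.inl h) else mtu b (.inl h)) = mhs b h 2
    simp only [mtu, mtd]
    constructor <;> split_ifs <;> rfl
  | r =>
    show (if 0 < b h.succ then mtu b (.inl h) else mtd b (.inl h)) = mhs b h 2 ∧
      (if 0 < b h.succ then mtd b (.inl h) else mtu b (.inl h)) = mhs b h 0
    simp only [mtu, mtd]
    by_cases h1 : 0 < b h.castSucc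
    · have h2 := ho.1 h1
      rw [if_pos h1, if_pos h1, if_neg h2, if_neg h2]
      exact ⟨rfl, rfl⟩
    · have h2 : 0 < b h.succ := by
        by_contra h3
        exact h1 (ho.2 h3)
      rw [if_neg h1, if_neg h1, if_pos h2, if_pos h2]
      exact ⟨rfl, rfl⟩

/-- the hinge in a slot of a region: position in the own frame -/
theorem MM.slot (hb : ClassW b) (hR : ∀ i ∈ R, Sum.inl i ∈ nb) (hM : MM b zs R nb z p)
    (A : Adj h i s j)
    (hn : Sum.inl (Sum.inl h) ∉ nb) (hi : clsW b i ≠ .ring) (hj : clsW b j ≠ .ring) :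
    Pst (ofs (b i) (zs (.inl (.inl h))).im) (mhs b h s.rev) (mhs b h s) (wXM b h) (wcl b h)
      (wcr b h) (Ow b z i s) (p (.inl h)) := by
  obtain ⟨e1, e2⟩ := mt_frame hb A hi
  rw [Ow_adj z A, ← e1, ← e2]
  refine Pst.ofr (hM.pst hR hn ?_) (b i)
  simp only [RH1]
  cases A
  · exact fun h0 => h0.elim hi hj
  · exact fun h0 => h0.elim hj hi

/-- a region with a hinge which is not real is not touched -/
theorem NbOk.untouched (hN : NbOk b R nb) (A : Adj h i s j) (hn : Sum.inl (Sum.inl h) ∉ nb)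
    {d : DD (tyW b)} {q : Fin 3} (hd : cf (tyW b) i q (.inl d) ≠ 0) : d ∉ R := by
  intro hR
  refine hn (hN.2 d hR i q hd (.inl (.inl h)) s ?_)
  cases A <;> simp [cf]

/-- **the other hinge of the region of a hinge which is not real**: real, or on its paths -/
theorem MM.other (hb : ClassW b) (hN : NbOk b R nb) (hM : MM b zs R nb z p) (A : Adj h i s j)
    (hn : Sum.inl (Sum.inl h) ∉ nb) (A' : Adj h' i s.rev j') (hi : clsW b i ≠ .ring)
    (hj' : clsW b j' ≠ .ring) :
    Pst (ofs (b i) (zs (.inl (.inl h'))).im) (mhs b h' s) (mhs b h' s.rev) (wXM b h') (wcl b h')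
      (wcr b h') (Ow b z i s.rev) (p (.inl h')) := by
  by_cases hn' : Sum.inl (Sum.inl h') ∈ nb
  · have hd : (Sum.inl h' : DD (tyW b)) ∉ R := by
      refine hN.untouched A hn (q := s.rev) ?_
      generalize s.rev = s' at A'
      cases A' <;> simp [cf]
    obtain ⟨e1, e2, e3, e4⟩ := hM.adm.reD _ hd hn'
    rw [Ow_adj z A']
    refine ⟨(z (.inl (.inl h'))).re, e2, e3, ofr_re _ _, Or.inl ⟨?_, e4⟩⟩
    rw [ofr_im, e1, ofs_zero]
  · have := hM.slot hb hN.1 A' hn' hi hj'
    rwa [Fin.rev_rev] at this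

/-- **the inner variable of the region of a hinge which is not real** -/
theorem MM.innerv (hN : NbOk b R nb) (hM : MM b zs R nb z p)
    (m : {i : Fin (M + 1) // (tyW b i).isMid = true}) (A : Adj h m.1 s j)
    (hn : Sum.inl (Sum.inl h) ∉ nb) :
    Pst (ofs (b m.1) (zs (.inl (.inr m))).im) (16 / 100) (16 / 100) (mp (clsW b m.1)).XM
      (mp (clsW b m.1)).cl (mp (clsW b m.1)).cr (Ow b z m.1 1) (p (.inr m)) := by
  have e0 : Ow b z m.1 1 = ofr (b m.1) (z (.inl (.inr m))) := by
    unfold Ow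
    rw [own_one]
    · exact congrArg _ (xx_mid (tyW b) m.2 z)
    · intro h0
      have := m.2
      rw [h0] at this
      simp [Typ.isMid] at this
  rw [e0]
  by_cases hn' : Sum.inl (Sum.inr m) ∈ nb
  · have hd : (Sum.inr m : DD (tyW b)) ∉ R :=
      hN.untouched A hn (q := 1) (by simp [cf])
    obtain ⟨e1, e2, e3, e4⟩ := hM.adm.reD _ hd hn'
    refine ⟨(z (.inl (.inr m))).re, e2, e3, ofr_re _ _, Or.inl ⟨?_, e4⟩⟩
    rw [ofr_im, e1, ofs_zero]
  · have := Pst.ofr (hM.pst hN.1 hn' (by simp [RH1])) (b m.1)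
    simp only [mtu, mtd, ite_self] at this
    exact this

/-- targets of the star moves: points of the main path -/
theorem onP_main (i : DD (tyW b)) {x : ℝ} (h0 : 0 ≤ x) (h1 : x ≤ (wpar b zs).XM i) :
    (wparM b zs).On (zs (.inl i)).im i (pt 0 ((wpar b zs).XM i) ((wpar b zs).cl i)
      ((wpar b zs).cr i) (zs (.inl i)).im x) 0 := ⟨x, h0, h1, Or.inl ⟨rfl, rfl⟩⟩

end SR

end Pool.Agent.Work.MP_b30479_gt.G2
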