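import Pool.Agent.Work.MP_b30479_gt.G2.WMM
import Pool.Agent.Work.MP_b30479_gt.G2.S0RKB
import Pool.Agent.Work.MP_b30479_gt.G2.S0RW

/-!
# Mirrored paths: the kinds of hinges

`Md`: a hinge `h` between the regions `i` and `j` (no rings) is on its mirrored path, which is the
lower one in the frame of the region `i`.  `MM.md`: every hinge of a maximiser which is on no
mirrored path has no penalty.  The star moves for the classes of regions.
-/

namespace Pool.Agent.Work.MP_b30479_gt.G2

open Finset VOL Filter Topology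

namespace SR

variable {M : ℕ} {b : Fin (M + 1) → ℤ} {zs : DD (tyW b) ⊕ ZZ (tyW b) → ℂ}
variable {R : Finset (DD (tyW b))} {nb : Finset (DD (tyW b) ⊕ ZZ (tyW b))}
variable {z : DD (tyW b) ⊕ ZZ (tyW b) → ℂ} {p : DD (tyW b) → ℝ}
variable {h h' : Fin M} {i j j' : Fin (M + 1)} {s : Fin 3} {x c : ℝ}

/-- ramp function of the hinge `h` -/
noncomputable def trh (b : Fin (M + 1) → ℤ) (h : Fin M) (x : ℝ) : ℝ :=
  tr 0 (wXM b h) (wcl b h) (wcr b h) x

/-- height of the saddle point at the hinge `h` in the frame of the region `i` -/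
noncomputable def Th (b : Fin (M + 1) → ℤ) (zs : DD (tyW b) ⊕ ZZ (tyW b) → ℂ) (h : Fin M)
    (i : Fin (M + 1)) : ℝ := ofs (b i) (zs (.inl (.inl h))).im

/-- the target `c` of a star move: the point of the main path -/
noncomputable def tg (b : Fin (M + 1) → ℤ) (zs : DD (tyW b) ⊕ ZZ (tyW b) → ℂ) (h : Fin M)
    (c : ℝ) : ℂ := pt 0 (wXM b h) (wcl b h) (wcr b h) (zs (.inl (.inl h))).im c

/-- the target of a star move in the frame of the region `i` -/
noncomputable def tgo (b : Fin (M + 1) → ℤ) (zs : DD (tyW b) ⊕ ZZ (tyW b) → ℂ) (h : Fin M)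
    (i : Fin (M + 1)) (c : ℝ) : ℂ := ⟨c, Th b zs h i * trh b h c⟩

theorem ofs_mulR (d : ℤ) (T t : ℝ) : ofs d (T * t) = ofs d T * t := by
  unfold ofs
  split_ifs <;> ring

theorem ofr_tg (i : Fin (M + 1)) : ofr (b i) (tg b zs h c) = tgo b zs h i c := by
  apply Complex.ext
  · rw [ofr_re]
    unfold tg tgo
    rw [ptm_re]
  · rw [ofr_im]
    unfold tg tgo
    rw [ptm_im, ofs_mulR]
    rfl

/-- **Mode**: the hinge `h` is at `x` on its mirrored path, the lower one in the frame of `i`; the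
main path is the upper one (`0 ≤ Th b zs h i`). -/
structure Md (b : Fin (M + 1) → ℤ) (zs : DD (tyW b) ⊕ ZZ (tyW b) → ℂ)
    (nb : Finset (DD (tyW b) ⊕ ZZ (tyW b))) (z : DD (tyW b) ⊕ ZZ (tyW b) → ℂ)
    (p : DD (tyW b) → ℝ) (h : Fin M) (i : Fin (M + 1)) (s : Fin 3) (j : Fin (M + 1)) (x : ℝ) :
    Prop where
  adj : Adj h i s j
  ri : clsW b i ≠ .ring
  rj : clsW b j ≠ .ring
  nn : Sum.inl (Sum.inl h) ∉ nb
  x0 : 0 < x
  x1 : x < wXM b h
  T0 : 0 ≤ Th b zs h i
  Tj : Th b zs h j = -Th b zs h i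
  own : Ow b z i s = ⟨x, -(mhs b h s * trh b h x)⟩
  opp : Ow b z j s.rev = ⟨x, mhs b h s * trh b h x⟩
  pen : p (.inl h) = mhs b h s * trh b h x
  tp : 0 < trh b h x

theorem ofs_neg_of_opp {d d' : ℤ} (hd : d * d' < 0) (m : ℝ) : ofs d' m = -ofs d m := by
  unfold ofs
  rcases lt_trichotomy d 0 with h1 | h1 | h1
  · have h2 : 0 < d' := by nlinarith
    rw [if_pos h2, if_neg (not_lt.2 h1.le), neg_neg]
  · rw [h1, zero_mul] at hd
    exact absurd hd (lt_irrefl 0)
  · have h2 : d' < 0 := by nlinarith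
    rw [if_neg (not_lt.2 h2.le), if_pos h1]

theorem sign_adj (hb : ClassW b) (A : Adj h i s j) (hi : clsW b i ≠ .ring) : b i * b j < 0 := by
  rcases sign_cases hb h with h1 | ⟨-, h2, h3⟩
  · cases A
    · exact h1
    · rw [mul_comm]; exact h1
  · cases A
    · exact absurd h2 hi
    · exact absurd h3 hi

theorem trh_zero_of (h0 : x ≤ 0 ∨ wXM b h ≤ x) : trh b h x = 0 := by
  have h1 := wcl_pos (b := b) h
  have h2 := wcr_pos (b := b) h
  unfold trh tr
  apply max_eq_left
  rcases h0 with h0 | h0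
  · refine (min_le_right _ _).trans ((min_le_left _ _).trans ?_)
    rw [sub_zero]
    exact div_nonpos_of_nonpos_of_nonneg h0 h1.le
  · refine (min_le_right _ _).trans ((min_le_right _ _).trans ?_)
    exact div_nonpos_of_nonpos_of_nonneg (by linarith) h2.le

/-- **The position of a hinge at a maximiser**: no penalty, or a mode seen from one of its two
regions. -/
theorem MM.md (hb : ClassW b) (hR : ∀ i ∈ R, Sum.inl i ∈ nb) (hM : MM b zs R nb z p) (h : Fin M)
    (h1 : clsW b h.castSucc ≠ .ring) (h2 : clsW b h.succ ≠ .ring) :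
    p (.inl h) = 0 ∨ ∃ i s j x, Md b zs nb z p h i s j x := by
  by_cases hn : Sum.inl (Sum.inl h) ∈ nb
  · left
    by_cases hr : (Sum.inl h : DD (tyW b)) ∈ R
    · exact (hM.adm.tail _ hr).2.2.2
    · exact (hM.adm.reD _ hr hn).2.2.2
  have key : ∀ {i s j}, Adj h i s j → clsW b i ≠ .ring → clsW b j ≠ .ring → ∀ x, 0 ≤ Th b zs h i →
      (Ow b z i s).re = x → (Ow b z i s).im = -(mhs b h s * trh b h x) →
      p (.inl h) = mhs b h s * trh b h x → p (.inl h) = 0 ∨ ∃ i s j x,
        Md b zs nb z p h i s j x := by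
    intro i s j A hi hj x T0 e1 e2 e3
    by_cases ht : trh b h x = 0
    · left
      rw [e3, ht, mul_zero]
    · right
      have hs := sign_adj hb A hi
      have htp : 0 < trh b h x := lt_of_le_of_ne (tr_mem _ _ _ _ _).1 (Ne.symm ht)
      refine ⟨i, s, j, x, A, hi, hj, hn, ?_, ?_, T0, ofs_neg_of_opp hs _, ?_, ?_, e3, htp⟩
      · by_contra hc
        exact ht (trh_zero_of (Or.inl (not_lt.1 hc)))
      · by_contra hc
        exact ht (trh_zero_of (Or.inr (not_lt.1 hc)))
      · exact Complex.ext e1 e2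
      · rw [Ow_adj z A.symm]
        rw [Ow_adj z A] at e1 e2
        apply Complex.ext
        · rw [ofr_re] at e1 ⊢
          exact e1
        · rw [ofr_im] at e2 ⊢
          rw [ofs_neg_of_opp hs, e2, neg_neg]
  have hp := hM.slot hb hR (Adj.l (h := h)) hn h1 h2
  obtain ⟨x, x0, x1, e1, e2⟩ := hp
  rcases e2 with ⟨-, e3⟩ | ⟨-, e3⟩ | ⟨T0, e3, e4⟩ | ⟨T0, e3, e4⟩
  · exact Or.inl e3
  · exact Or.inl e3
  · -- upper mirrored path in the frame of the left region
    have hs := sign_adj hb (Adj.l (h := h)) h1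
    refine key (Adj.r (h := h)) h2 h1 x ?_ ?_ ?_ e4
    · unfold Th
      rw [ofs_neg_of_opp hs]
      linarith
    · rw [Ow_adj z (Adj.r (h := h))]
      rw [Ow_adj z (Adj.l (h := h))] at e1
      rw [ofr_re] at e1 ⊢
      exact e1
    · rw [Ow_adj z (Adj.r (h := h))]
      rw [Ow_adj z (Adj.l (h := h))] at e3
      rw [ofr_im] at e3 ⊢
      rw [ofs_neg_of_opp hs, e3]
      rfl
  · exact key (Adj.l (h := h)) h1 h2 x T0 e1 e3 e4

/-! ### the star move -/

theorem onP_tg (h0 : 0 ≤ c) (h1 : c ≤ wXM b h) : OnP b zs (.inl (.inl h)) (tg b zs h c) 0 :=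
  onP_main (.inl h) h0 h1

/-- **The star move at a mode.** -/
theorem Md.star (hb : ClassW b) (hR : ∀ i ∈ R, Sum.inl i ∈ nb) (hM : MM b zs R nb z p)
    (D : Md b zs nb z p h i s j x) (h0 : 0 ≤ c) (h1 : c ≤ wXM b h) {g1 g2 : ℝ}
    (k1 : SideG b zs nb z p h i (tg b zs h c) g1) (k2 : SideG b zs nb z p h j (tg b zs h c) g2) :
    g1 + g2 + 2 * Real.pi * (mhs b h s * trh b h x) ≤ 0 := by
  rw [← D.pen]
  exact hM.star hb hR D.adj D.nn (onP_tg h0 h1) k1 k2

/-! ### gains of the classes of regions, other variables kept -/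

theorem endOk_upd {X : Fin 3 → ℂ} (A : Adj h i s j) (hX : EndOk i X) (u : ℂ) :
    EndOk i (Function.update X s u) := by
  cases A
  · refine ⟨fun h0 => ?_, fun h0 => ?_⟩
    · rw [Function.update_of_ne (by decide)]
      exact hX.1 h0
    · exact absurd h0 (Fin.castSucc_lt_last h).ne
  · refine ⟨fun h0 => ?_, fun h0 => ?_⟩
    · exact absurd h0 (Fin.succ_ne_zero h)
    · rw [Function.update_of_ne (by decide)]
      exact hX.2 h0

theorem endOk_upd1 {X : Fin 3 → ℂ} (hX : EndOk i X) (u : ℂ) :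
    EndOk i (Function.update X 1 u) :=
  ⟨fun h0 => by rw [Function.update_of_ne (by decide)]; exact hX.1 h0,
    fun h0 => by rw [Function.update_of_ne (by decide)]; exact hX.2 h0⟩

/-- digit `1` -/
theorem keep_one (hb : ClassW b) (A : Adj h i s j) (hc : clsW b i = .one) :
    SideG b zs nb z p h i (tg b zs h c)
      (V1 (tgo b zs h i c) (Ow b z i s.rev) - V1 (Ow b z i s) (Ow b z i s.rev)) := by
  have h1 := SideG.keep (b := b) (zs := zs) (nb := nb) (z := z) (p := p) A (tg b zs h c)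
  rw [ofr_tg, OV_one hb hc, OV_one hb hc] at h1
  cases A
  · rw [Function.update_self, Function.update_of_ne (by decide), V1_comm, V1_comm (Ow b z _ 0)] at h1
    exact h1
  · rw [Function.update_self, Function.update_of_ne (by decide)] at h1
    exact h1

/-- digit `2`, also at an end -/
theorem keep_two (hb : ClassW b) (A : Adj h i s j) (hc : clsW b i = .two ∨ clsW b i = .twoE) :
    SideG b zs nb z p h i (tg b zs h c)
      (V2 (tgo b zs h i c) (Ow b z i s.rev) - V2 (Ow b z i s) (Ow b z i s.rev)) := by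
  have h1 := SideG.keep (b := b) (zs := zs) (nb := nb) (z := z) (p := p) A (tg b zs h c)
  rw [ofr_tg, OV_two hb hc (endOk_upd A (Ow_endOk z i) _), OV_two hb hc (Ow_endOk z i)] at h1
  cases A
  · rw [Function.update_self, Function.update_of_ne (by decide), V2_comm, V2_comm (Ow b z _ 0)] at h1
    exact h1
  · rw [Function.update_self, Function.update_of_ne (by decide)] at h1
    exact h1

/-- the empty slot of an end -/
theorem Ow_end (A : Adj h i s j) (he : isEnd i = true) (z : DD (tyW b) ⊕ ZZ (tyW b) → ℂ) :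
    Ow b z i s.rev = 0 := by
  have h1 := Ow_endOk z i
  unfold isEnd at he
  have he' := of_decide_eq_true he
  cases A
  · rcases he' with h2 | h2
    · exact h1.1 h2
    · exact absurd h2 (Fin.castSucc_lt_last h).ne
  · rcases he' with h2 | h2
    · exact absurd h2 (Fin.succ_ne_zero h)
    · exact h1.2 h2

/-- digit `2` at an end -/
theorem keep_twoE (hb : ClassW b) (A : Adj h i s j) (hc : clsW b i = .twoE) :
    SideG b zs nb z p h i (tg b zs h c) (V2 (tgo b zs h i c) 0 - V2 (Ow b z i s) 0) := by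
  have h1 := keep_two (zs := zs) (nb := nb) (z := z) (p := p) (c := c) hb A (Or.inr hc)
  rwa [Ow_end A (clsW_end (Or.inl hc))] at h1

/-- digit `3`, the hinge at the side `S3` (slot `0`) -/
theorem keep_three0 (hb : ClassW b) (A : Adj h i 0 j) (hc : clsW b i = .three) :
    SideG b zs nb z p h i (tg b zs h c)
      (V3 (tgo b zs h i c) (Ow b z i 1) (Ow b z i 2) - V3 (Ow b z i 0) (Ow b z i 1) (Ow b z i 2)) := by
  have h1 := SideG.keep (b := b) (zs := zs) (nb := nb) (z := z) (p := p) A (tg b zs h c)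
  rw [ofr_tg, OV_three hb hc, OV_three hb hc, Function.update_self, Function.update_of_ne (by decide),
    Function.update_of_ne (by decide)] at h1
  exact h1

/-- digit `3`, the hinge at the side `S2` (slot `2`) -/
theorem keep_three2 (hb : ClassW b) (A : Adj h i 2 j) (hc : clsW b i = .three) :
    SideG b zs nb z p h i (tg b zs h c)
      (V3 (Ow b z i 0) (Ow b z i 1) (tgo b zs h i c) - V3 (Ow b z i 0) (Ow b z i 1) (Ow b z i 2)) := by
  have h1 := SideG.keep (b := b) (zs := zs) (nb := nb) (z := z) (p := p) A (tg b zs h c)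
  rw [ofr_tg, OV_three hb hc, OV_three hb hc, Function.update_self, Function.update_of_ne (by decide),
    Function.update_of_ne (by decide)] at h1
  exact h1

/-- digit `3` at an end -/
theorem keep_threeE (A : Adj h i s j) (hc : clsW b i = .threeE) :
    SideG b zs nb z p h i (tg b zs h c)
      (V3 (tgo b zs h i c) (Ow b z i 1) 0 - V3 (Ow b z i s) (Ow b z i 1) 0) := by
  have h1 := SideG.keep (b := b) (zs := zs) (nb := nb) (z := z) (p := p) A (tg b zs h c)
  rw [ofr_tg, A.OV_threeE hc (endOk_upd A (Ow_endOk z i) _), A.OV_threeE hc (Ow_endOk z i),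
    Function.update_self, Function.update_of_ne (by cases A <;> decide)] at h1
  exact h1

/-! ### gains, the inner variable moved to `c'` on its main path -/

/-- position `c'` of the main path of the inner variable, own frame -/
noncomputable def tgi (b : Fin (M + 1) → ℤ) (zs : DD (tyW b) ⊕ ZZ (tyW b) → ℂ)
    (m : {i : Fin (M + 1) // (tyW b i).isMid = true}) (c : ℝ) : ℂ :=
  ⟨c, ofs (b m.1) (zs (.inl (.inr m))).im *
    tr 0 (mp (clsW b m.1)).XM (mp (clsW b m.1)).cl (mp (clsW b m.1)).cr c⟩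

theorem SideG.inner' (m : {i : Fin (M + 1) // (tyW b i).isMid = true}) (A : Adj h m.1 s j)
    (hn : Sum.inl (Sum.inr m) ∉ nb) {c' : ℝ} (h0 : 0 ≤ c') (h1 : c' ≤ (mp (clsW b m.1)).XM) :
    SideG b zs nb z p h m.1 (tg b zs h c)
      (OV b m.1 (Function.update (Function.update (Ow b z m.1) s (tgo b zs h m.1 c)) 1
        (tgi b zs m c')) - OV b m.1 (Ow b z m.1) + 2 * Real.pi * p (.inr m)) := by
  have h2 := SideG.inner (b := b) (zs := zs) (nb := nb) (z := z) (p := p) m A (tg b zs h c)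
    (pt 0 ((wpar b zs).XM (.inr m)) ((wpar b zs).cl (.inr m)) ((wpar b zs).cr (.inr m))
      (zs (.inl (.inr m))).im c') 0 hn (onP_main (.inr m) h0 h1)
  have e : ofr (b m.1) (pt 0 ((wpar b zs).XM (.inr m)) ((wpar b zs).cl (.inr m))
      ((wpar b zs).cr (.inr m)) (zs (.inl (.inr m))).im c') = tgi b zs m c' := by
    apply Complex.ext
    · rw [ofr_re, ptm_re]
      rfl
    · rw [ofr_im, ptm_im, ofs_mulR]
      rfl
  rw [ofr_tg, e] at h2
  refine h2.mono (le_of_eq ?_)
  ring

theorem inner_three0 (hb : ClassW b) (m : {i : Fin (M + 1) // (tyW b i).isMid = true})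
    (A : Adj h m.1 0 j) (hc : clsW b m.1 = .three) (hn : Sum.inl (Sum.inr m) ∉ nb) {c' : ℝ}
    (h0 : 0 ≤ c') (h1 : c' ≤ 8 / 10) :
    SideG b zs nb z p h m.1 (tg b zs h c)
      (V3 (tgo b zs h m.1 c) (tgi b zs m c') (Ow b z m.1 2) -
        V3 (Ow b z m.1 0) (Ow b z m.1 1) (Ow b z m.1 2) + 2 * Real.pi * p (.inr m)) := by
  have h2 := SideG.inner' (b := b) (zs := zs) (nb := nb) (z := z) (p := p) (c := c) m A hn h0
    (by rw [hc]; exact h1)
  rw [OV_three hb hc, OV_three hb hc, Function.update_self,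
    Function.update_of_ne (show (0 : Fin 3) ≠ 1 by decide), Function.update_self,
    Function.update_of_ne (show (2 : Fin 3) ≠ 1 by decide),
    Function.update_of_ne (show (2 : Fin 3) ≠ 0 by decide)] at h2
  exact h2

theorem inner_three2 (hb : ClassW b) (m : {i : Fin (M + 1) // (tyW b i).isMid = true})
    (A : Adj h m.1 2 j) (hc : clsW b m.1 = .three) (hn : Sum.inl (Sum.inr m) ∉ nb) {c' : ℝ}
    (h0 : 0 ≤ c') (h1 : c' ≤ 8 / 10) :
    SideG b zs nb z p h m.1 (tg b zs h c)
      (V3 (Ow b z m.1 0) (tgi b zs m c') (tgo b zs h m.1 c) -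
        V3 (Ow b z m.1 0) (Ow b z m.1 1) (Ow b z m.1 2) + 2 * Real.pi * p (.inr m)) := by
  have h2 := SideG.inner' (b := b) (zs := zs) (nb := nb) (z := z) (p := p) (c := c) m A hn h0
    (by rw [hc]; exact h1)
  rw [OV_three hb hc, OV_three hb hc, Function.update_self,
    Function.update_of_ne (show (2 : Fin 3) ≠ 1 by decide), Function.update_self,
    Function.update_of_ne (show (0 : Fin 3) ≠ 1 by decide),
    Function.update_of_ne (show (0 : Fin 3) ≠ 2 by decide)] at h2
  exact h2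

theorem inner_threeE (m : {i : Fin (M + 1) // (tyW b i).isMid = true})
    (A : Adj h m.1 s j) (hc : clsW b m.1 = .threeE) (hn : Sum.inl (Sum.inr m) ∉ nb) {c' : ℝ}
    (h0 : 0 ≤ c') (h1 : c' ≤ 77 / 100) :
    SideG b zs nb z p h m.1 (tg b zs h c)
      (V3 (tgo b zs h m.1 c) (tgi b zs m c') 0 -
        V3 (Ow b z m.1 s) (Ow b z m.1 1) 0 + 2 * Real.pi * p (.inr m)) := by
  have h2 := SideG.inner' (b := b) (zs := zs) (nb := nb) (z := z) (p := p) (c := c) m A hn h0
    (by rw [hc]; exact h1)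
  rw [A.OV_threeE hc (endOk_upd1 (endOk_upd A (Ow_endOk z m.1) _) _), A.OV_threeE hc (Ow_endOk z m.1),
    Function.update_self, Function.update_of_ne (show s ≠ 1 by rcases A.slot with hs | hs <;> rw [hs] <;> decide),
    Function.update_self] at h2
  exact h2

end SR

end Pool.Agent.Work.MP_b30479_gt.G2
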