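import Pool.Agent.Work.MP_b30479_gt.G2.WMMA
import Pool.Agent.Work.MP_b30479_gt.G2.TW
import Pool.Agent.Work.MP_b30479_gt.G2.WLeft
import Pool.Agent.Work.MP_b30479_gt.G2.WMMF

/-!
# Mirrored paths: removal with a small loss at the special hinges

A mode at the hinge between the slot `2` of an untouched digit `3` and an untouched digit `1` whose
other hinge is real with real part at most `1/20` is removed with a loss of `1/100`.
-/

namespace Pool.Agent.Work.MP_b30479_gt.G2

open Finset VOL Filter Topology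

namespace SR

variable {M : ℕ} {b : Fin (M + 1) → ℤ} {zs : DD (tyW b) ⊕ ZZ (tyW b) → ℂ}
variable {R : Finset (DD (tyW b))} {nb : Finset (DD (tyW b) ⊕ ZZ (tyW b))}
variable {z : DD (tyW b) ⊕ ZZ (tyW b) → ℂ} {p : DD (tyW b) → ℝ}
variable {h h' : Fin M} {i j j' : Fin (M + 1)} {s : Fin 3} {x c : ℝ}

/-- the hinge in the slot `2` of the region `i` is real with real part at most `1/20` -/
def Spm (b : Fin (M + 1) → ℤ) (nb : Finset (DD (tyW b) ⊕ ZZ (tyW b)))
    (z : DD (tyW b) ⊕ ZZ (tyW b) → ℂ) (i : Fin (M + 1)) : Prop :=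
  ∃ (k : Fin M) (P : Fin (M + 1)), Adj k i 2 P ∧ Sum.inl (Sum.inl k) ∈ nb ∧
    (z (.inl (.inl k))).re ≤ 1 / 20

/-- kind `1 | 3`, the `3` at its slot `2`, not special -/
def Kd3 (b : Fin (M + 1) → ℤ) (zs : DD (tyW b) ⊕ ZZ (tyW b) → ℂ) : Prop :=
  ∀ {R : Finset (DD (tyW b))} {nb : Finset (DD (tyW b) ⊕ ZZ (tyW b))}
    {z : DD (tyW b) ⊕ ZZ (tyW b) → ℂ} {p : DD (tyW b) → ℝ} {h : Fin M} {i j : Fin (M + 1)} {x : ℝ},
    NbT b R nb → MM b zs R nb z p → (∀ h : Fin M, RH1 b (.inl h) → p (.inl h) = 0) →
    Md b zs nb z p h i 0 j x → clsW b i = .one → clsW b j = .three → ¬ Spm b nb z i → False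

/-- **The loss at a special hinge.** -/
def Loss3 (b : Fin (M + 1) → ℤ) (zs : DD (tyW b) ⊕ ZZ (tyW b) → ℂ) : Prop :=
  ∀ {R : Finset (DD (tyW b))} {nb : Finset (DD (tyW b) ⊕ ZZ (tyW b))}
    {z : DD (tyW b) ⊕ ZZ (tyW b) → ℂ} {p : DD (tyW b) → ℝ} {h : Fin M} {i j : Fin (M + 1)} {x : ℝ},
    NbT b R nb → MM b zs R nb z p → (∀ h : Fin M, RH1 b (.inl h) → p (.inl h) = 0) →
    Md b zs nb z p h i 0 j x → clsW b i = .one → clsW b j = .three → Spm b nb z i →
    ∀ m : {i : Fin (M + 1) // (tyW b i).isMid = true}, m.1 = j →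
    ∃ (c : ℝ) (l' : ℂ), 0 ≤ c ∧ c ≤ 65 / 100 ∧
      ((l' = Ow b z j 1 ∧ p (.inr m) = 0) ∨ ∃ c', 0 ≤ c' ∧ c' ≤ 8 / 10 ∧ l' = tgi b zs m c') ∧
      -(1 / 100) ≤ V1 (tgo b zs h i c) (Ow b z i 2) - V1 (Ow b z i 0) (Ow b z i 2) +
        (V3 (Ow b z j 0) l' (tgo b zs h j c) - V3 (Ow b z j 0) (Ow b z j 1) (Ow b z j 2)) +
        2 * Real.pi * p (.inr m) + 2 * Real.pi * p (.inl h)

/-- **The kinds of hinges** except `1 | 3` with the `3` at its slot `2`. -/
structure Kinds0 (b : Fin (M + 1) → ℤ) (zs : DD (tyW b) ⊕ ZZ (tyW b) → ℂ) : Prop where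
  one_one : ∀ s, Kd b zs .one .one s
  one_two : ∀ s, Kd b zs .one .two s
  two_one : ∀ s, Kd b zs .two .one s
  one_twoE : ∀ s, Kd b zs .one .twoE s
  twoE_one : ∀ s, Kd b zs .twoE .one s
  /-- the `3` at its slot `0` -/
  one_three : Kd b zs .one .three 2
  one_threeE : ∀ s, Kd b zs .one .threeE s
  two_two : ∀ s, Kd b zs .two .two s
  twoE_two : ∀ s, Kd b zs .twoE .two s
  /-- the `3` at its slot `0` -/
  two_three : Kd b zs .two .three 2
  /-- the `3` at its slot `2` -/
  two_three' : Kd b zs .two .three 0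
  /-- the `3` at its slot `0` -/
  three_two : Kd b zs .three .two 0
  /-- the `3` at its slot `2` -/
  three_two' : Kd b zs .three .two 2
  two_threeE : ∀ s, Kd b zs .two .threeE s
  threeE_two : ∀ s, Kd b zs .threeE .two s
  twoE_twoE : ∀ s, Kd b zs .twoE .twoE s
  twoE_three : ∀ s, Kd b zs .twoE .three s
  twoE_threeE : ∀ s, Kd b zs .twoE .threeE s
  threeE_three : ∀ s, Kd b zs .threeE .three s
  threeE_threeE : ∀ s, Kd b zs .threeE .threeE s
  three_three : ∀ s, Kd b zs .three .three s

/-- **The kinds of hinges**, with a loss at the special hinges. -/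
structure KindsL (b : Fin (M + 1) → ℤ) (zs : DD (tyW b) ⊕ ZZ (tyW b) → ℂ) : Prop
    extends Kinds0 b zs where
  /-- the `3` at its slot `2` -/
  one_three' : Kd3 b zs
  loss : Loss3 b zs

/-- the case without loss -/
theorem Kinds.toL (K : Kinds b zs) : KindsL b zs :=
  { one_one := K.one_one
    one_two := K.one_two
    two_one := K.two_one
    one_twoE := K.one_twoE
    twoE_one := K.twoE_one
    one_three := K.one_three
    one_threeE := K.one_threeE
    two_two := K.two_two
    twoE_two := K.twoE_two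
    two_three := K.two_three
    two_three' := K.two_three'
    three_two := K.three_two
    three_two' := K.three_two'
    two_threeE := K.two_threeE
    threeE_two := K.threeE_two
    twoE_twoE := K.twoE_twoE
    twoE_three := K.twoE_three
    twoE_threeE := K.twoE_threeE
    threeE_three := K.threeE_three
    threeE_threeE := K.threeE_threeE
    three_three := K.three_three
    one_three' := fun hN hM hq D hi hj _ => K.one_three' hN hM hq D hi hj
    loss := fun hN hM hq D hi hj _ _ _ => (K.one_three' hN hM hq D hi hj).elim }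

/-- **The inner variables**: no mode if there is no mode at the hinges of the region (and the modes
at other hinges are of the kind `1 | 3`, the `3` at its slot `2`). -/
structure InnersL (b : Fin (M + 1) → ℤ) (zs : DD (tyW b) ⊕ ZZ (tyW b) → ℂ) : Prop where
  three : ∀ {R : Finset (DD (tyW b))} {nb : Finset (DD (tyW b) ⊕ ZZ (tyW b))}
    {z : DD (tyW b) ⊕ ZZ (tyW b) → ℂ} {p : DD (tyW b) → ℝ}
    (m : {i : Fin (M + 1) // (tyW b i).isMid = true}),
    NbT b R nb → MM b zs R nb z p → (∀ h : Fin M, RH1 b (.inl h) → p (.inl h) = 0) →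
    (∀ (h : Fin M) (s : Fin 3) (j : Fin (M + 1)), Adj h m.1 s j → p (.inl h) = 0) →
    (∀ (h : Fin M) (i j : Fin (M + 1)), Adj h i 0 j →
      p (.inl h) = 0 ∨ (clsW b i = .one ∧ clsW b j = .three)) →
    clsW b m.1 = .three → Sum.inl (Sum.inr m) ∉ nb → p (.inr m) = 0
  threeE : ∀ {R : Finset (DD (tyW b))} {nb : Finset (DD (tyW b) ⊕ ZZ (tyW b))}
    {z : DD (tyW b) ⊕ ZZ (tyW b) → ℂ} {p : DD (tyW b) → ℝ}
    (m : {i : Fin (M + 1) // (tyW b i).isMid = true}),
    NbT b R nb → MM b zs R nb z p → (∀ h : Fin M, RH1 b (.inl h) → p (.inl h) = 0) →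
    (∀ (h : Fin M) (s : Fin 3) (j : Fin (M + 1)), Adj h m.1 s j → p (.inl h) = 0) →
    clsW b m.1 = .threeE → Sum.inl (Sum.inr m) ∉ nb → p (.inr m) = 0

/-- a corner: a mode at a special hinge -/
structure Corner (b : Fin (M + 1) → ℤ) (zs : DD (tyW b) ⊕ ZZ (tyW b) → ℂ)
    (nb : Finset (DD (tyW b) ⊕ ZZ (tyW b))) (z : DD (tyW b) ⊕ ZZ (tyW b) → ℂ)
    (p : DD (tyW b) → ℝ) (h : Fin M) : Prop where
  one : clsW b h.succ = .one
  three : clsW b h.castSucc = .three
  sp : Spm b nb z h.succ
  md : ∃ x, Md b zs nb z p h h.succ 0 h.castSucc x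

/-- **The modes at the hinges are corners.** -/
theorem KindsL.hinge (hb : ClassW b) (hL : Loc b zs) (K : KindsL b zs) (hN : NbT b R nb)
    (hM : MM b zs R nb z p) (hq : ∀ h : Fin M, RH1 b (.inl h) → p (.inl h) = 0) (h : Fin M) :
    p (.inl h) = 0 ∨ Corner b zs nb z p h := by
  by_cases hr : RH1 b (.inl h)
  · exact Or.inl (hq h hr)
  simp only [RH1, not_or] at hr
  rcases hM.md hb hN.ok.1 h hr.1 hr.2 with h0 | ⟨i, s, j, x, D⟩
  · exact Or.inl h0
  have key : s = 0 → clsW b i = .one → clsW b j = .three → Corner b zs nb z p h := by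
    intro hs0 hi hj
    subst hs0
    have hS : Spm b nb z i := by
      by_contra hS
      exact K.one_three' hN hM hq D hi hj hS
    have A := D.adj
    generalize hs : (0 : Fin 3) = s' at A
    cases A with
    | l => exact absurd hs (by decide)
    | r => exact ⟨hi, hj, hS, x, D⟩
  have hT := Th_mem hb hL D.adj D.ri
  have hT0 := D.T0
  have hri := D.ri
  have hrj := D.rj
  have hs := D.adj.slot
  by_cases hc : s = 0 ∧ clsW b i = .one ∧ clsW b j = .three
  · exact Or.inr (key hc.1 hc.2.1 hc.2.2)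
  exfalso
  rcases hi : clsW b i <;> rcases hj : clsW b j <;> first
    | exact hri hi
    | exact hrj hj
    | exact K.one_one _ hN hM hq D hi hj
    | exact K.one_two _ hN hM hq D hi hj
    | exact K.two_one _ hN hM hq D hi hj
    | exact K.one_twoE _ hN hM hq D hi hj
    | exact K.twoE_one _ hN hM hq D hi hj
    | exact K.one_threeE _ hN hM hq D hi hj
    | exact K.two_two _ hN hM hq D hi hj
    | exact K.twoE_two _ hN hM hq D hi hj
    | exact K.two_threeE _ hN hM hq D hi hj
    | exact K.threeE_two _ hN hM hq D hi hj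
    | exact K.twoE_twoE _ hN hM hq D hi hj
    | exact K.twoE_three _ hN hM hq D hi hj
    | exact K.twoE_threeE _ hN hM hq D hi hj
    | exact K.threeE_three _ hN hM hq D hi hj
    | exact K.threeE_threeE _ hN hM hq D hi hj
    | exact K.three_three _ hN hM hq D hi hj
    | (rcases hs with rfl | rfl
       · exact hc ⟨rfl, hi, hj⟩
       · exact K.one_three hN hM hq D hi hj)
    | (rcases hs with rfl | rfl
       · exact K.two_three' hN hM hq D hi hj
       · exact K.two_three hN hM hq D hi hj)
    | (rcases hs with rfl | rfl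
       · exact K.three_two hN hM hq D hi hj
       · exact K.three_two' hN hM hq D hi hj)
    | (rw [hi, hj] at hT
       simp only [hbox] at hT
       linarith [hT.2])

/-! ### the corner move -/

/-- the inner variable of the region to the left of the hinge `h` -/
noncomputable def innr (b : Fin (M + 1) → ℤ) (h : Fin M) (hm : (tyW b h.castSucc).isMid = true) :
    {i : Fin (M + 1) // (tyW b i).isMid = true} := ⟨h.castSucc, hm⟩

open Classical in
/-- **The corner move.** -/
theorem corner_move (hb : ClassW b) (hR : ∀ i ∈ R, Sum.inl i ∈ nb)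
    (hz : Adm (wdat (tyW b) b) (wparM b zs) zs R nb z p)
    (m : {i : Fin (M + 1) // (tyW b i).isMid = true}) (hm : m.1 = h.castSucc)
    (hi : clsW b h.succ = .one) (hj : clsW b h.castSucc = .three)
    (hn : Sum.inl (Sum.inl h) ∉ nb) (hnm : Sum.inl (Sum.inr m) ∉ nb) {c : ℝ} {l' : ℂ}
    (c0 : 0 ≤ c) (c1 : c ≤ wXM b h)
    (hl : (l' = Ow b z h.castSucc 1 ∧ p (.inr m) = 0) ∨
      ∃ c', 0 ≤ c' ∧ c' ≤ 8 / 10 ∧ l' = tgi b zs m c') :
    ∃ (z' : DD (tyW b) ⊕ ZZ (tyW b) → ℂ) (p' : DD (tyW b) → ℝ),
      Adm (wdat (tyW b) b) (wparM b zs) zs R nb z' p' ∧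
      (∀ v ∈ nb, z' v = z v) ∧ p' (.inl h) = 0 ∧ p' (.inr m) = 0 ∧
      (∀ k, k ≠ Sum.inl h → k ≠ Sum.inr m → p' k = p k) ∧
      (∀ i, i ≠ h.succ → i ≠ h.castSucc → Ow b z' i = Ow b z i) ∧
      Ph b z' p' = Ph b z p + (V1 (tgo b zs h h.succ c) (Ow b z h.succ 2) -
        V1 (Ow b z h.succ 0) (Ow b z h.succ 2) +
        (V3 (Ow b z h.castSucc 0) l' (tgo b zs h h.castSucc c) -
          V3 (Ow b z h.castSucc 0) (Ow b z h.castSucc 1) (Ow b z h.castSucc 2)) +
        2 * Real.pi * p (.inr m) + 2 * Real.pi * p (.inl h)) := by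
  -- the new position of the inner variable
  obtain ⟨ζ, hζ, eζ⟩ : ∃ ζ : ℂ, OnP b zs (.inl (.inr m)) ζ 0 ∧ ofr (b h.castSucc) ζ = l' := by
    rcases hl with ⟨e, hp⟩ | ⟨c', d0, d1, e⟩
    · refine ⟨z (.inl (.inr m)), ?_, ?_⟩
      · have h1 := hz.onD (.inr m) hnm
        rw [hp] at h1
        exact h1
      · rw [e, ← hm, Ow_inner]
    · refine ⟨pt 0 ((wpar b zs).XM (.inr m)) ((wpar b zs).cl (.inr m))
        ((wpar b zs).cr (.inr m)) (zs (.inl (.inr m))).im c', ?_, ?_⟩
      · refine onP_main (.inr m) d0 ?_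
        show c' ≤ (mp (clsW b m.1)).XM
        rw [hm, hj]
        exact d1
      · rw [e, ← hm, ofr_ptm]
  have hne : (Sum.inl (Sum.inr m) : DD (tyW b) ⊕ ZZ (tyW b)) ≠ .inl (.inl h) := by simp
  set z' : DD (tyW b) ⊕ ZZ (tyW b) → ℂ :=
    Function.update (Function.update z (.inl (.inl h)) (tg b zs h c)) (.inl (.inr m)) ζ with hz'
  set p' : DD (tyW b) → ℝ := Function.update (Function.update p (.inl h) 0) (.inr m) 0 with hp'
  have z1 : z' (.inl (.inl h)) = tg b zs h c := by
    rw [hz', Function.update_of_ne hne.symm, Function.update_self]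
  have z2 : z' (.inl (.inr m)) = ζ := by rw [hz', Function.update_self]
  have z3 : ∀ v, v ≠ .inl (.inl h) → v ≠ .inl (.inr m) → z' v = z v := by
    intro v h1 h2
    rw [hz', Function.update_of_ne h2, Function.update_of_ne h1]
  have p1 : p' (.inl h) = 0 := by
    rw [hp', Function.update_of_ne (by simp), Function.update_self]
  have p2 : p' (.inr m) = 0 := by rw [hp', Function.update_self]
  have p3 : ∀ k, k ≠ Sum.inl h → k ≠ Sum.inr m → p' k = p k := by
    intro k h1 h2
    rw [hp', Function.update_of_ne h2, Function.update_of_ne h1]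
  have hmv : Mv b zs nb z p z' p' := by
    refine ⟨fun v hv => ?_⟩
    by_cases hv1 : v = .inl (.inl h)
    · subst hv1
      refine ⟨hn, ?_⟩
      have e : pe p' (.inl (.inl h)) = 0 := p1
      rw [e, z1]
      exact onP_tg c0 c1
    · by_cases hv2 : v = .inl (.inr m)
      · subst hv2
        refine ⟨hnm, ?_⟩
        have e : pe p' (.inl (.inr m)) = 0 := p2
        rw [e, z2]
        exact hζ
      · exfalso
        rcases hv with hv | hv
        · exact hv (z3 v hv1 hv2)
        · apply hv
          rcases v with k | v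
          · exact p3 k (by simpa using hv1) (by simpa using hv2)
          · rfl
  have hadm := hmv.adm hR hz
  -- frames
  have A : Adj h h.castSucc 2 h.succ := .l
  have B : Adj h h.succ 0 h.castSucc := .r
  have cm : ∀ i q, cf (tyW b) i q (.inl (.inr m)) ≠ 0 → i = h.castSucc ∧ q = 1 := by
    intro i q h0
    have h1 := cf_inner_ne h0
    refine ⟨h1.symm.trans hm, ?_⟩
    simp only [cf] at h0
    by_contra hq
    apply h0
    simp [hq]
  have hOw : ∀ i, i ≠ h.succ → i ≠ h.castSucc → Ow b z' i = Ow b z i := by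
    intro i h1 h2
    refine (Ow_congr i fun v hv q => ?_).symm
    by_cases hv1 : v = .inl (.inl h)
    · subst hv1
      exact cf_hinge_zero h2 h1 q
    · by_cases hv2 : v = .inl (.inr m)
      · subst hv2
        by_contra h0
        exact h2 (cm i q h0).1
      · exact absurd (z3 v hv1 hv2).symm hv
  have o0 : Ow b z' h.succ 0 = tgo b zs h h.succ c := by rw [Ow_adj z' B, z1, ofr_tg]
  have o1 : Ow b z' h.castSucc 2 = tgo b zs h h.castSucc c := by rw [Ow_adj z' A, z1, ofr_tg]
  have o2 : Ow b z' h.castSucc 1 = l' := by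
    rw [← hm, Ow_inner, z2, hm]
    exact eζ
  have o3 : Ow b z' h.succ 2 = Ow b z h.succ 2 := by
    have := TL.Ow_other B (z := z) (z' := Function.update z (.inl (.inl h)) (tg b zs h c))
      (fun v hv => Function.update_of_ne hv _ _)
    have e1 : Ow b z' h.succ = Ow b (Function.update z (.inl (.inl h)) (tg b zs h c)) h.succ := by
      refine (Ow_congr _ fun v hv q => ?_).symm
      by_cases hv2 : v = .inl (.inr m)
      · subst hv2
        by_contra h0
        exact (Fin.castSucc_lt_succ (i := h)).ne' (cm _ q h0).1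
      · exact absurd (by rw [hz', Function.update_of_ne hv2]) hv
    rw [e1]
    exact this
  have o4 : Ow b z' h.castSucc 0 = Ow b z h.castSucc 0 := by
    have := TL.Ow_other A (z := z) (z' := Function.update z (.inl (.inl h)) (tg b zs h c))
      (fun v hv => Function.update_of_ne hv _ _)
    have e1 : Ow b z' h.castSucc 0 =
        Ow b (Function.update z (.inl (.inl h)) (tg b zs h c)) h.castSucc 0 := by
      have e2 : (tyW b h.castSucc).isMid = true := by rw [tyW_of_three hj]; rfl
      have e3 : ∀ y : DD (tyW b) ⊕ ZZ (tyW b) → ℂ,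
          Ow b (Function.update y (.inl (.inr m)) ζ) h.castSucc 0 = Ow b y h.castSucc 0 := by
        intro y
        rcases A.other b y (fun _ => 0) with ⟨he, -⟩ | ⟨-, h2, j2, A2⟩
        · have a1 := A.Ow_no he (z := y)
          have a2 := A.Ow_no he (z := Function.update y (.inl (.inr m)) ζ)
          exact a2.trans a1.symm
        · have a1 := Ow_adj y A2
          have a2 := Ow_adj (Function.update y (.inl (.inr m)) ζ) A2
          rw [Function.update_of_ne (by simp)] at a2
          exact a2.trans a1.symm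
      exact e3 _
    rw [e1]
    exact this
  refine ⟨z', p', hadm, ?_, p1, p2, p3, hOw, ?_⟩
  · intro v hv
    by_contra hc
    exact (hmv.out v (Or.inl hc)).1 hv
  -- values
  have hV := V_move hb {h.castSucc, h.succ} (z := z) (z' := z') (fun i hi v hv q => by
    rw [Finset.mem_insert, Finset.mem_singleton, not_or] at hi
    by_cases hv1 : v = .inl (.inl h)
    · subst hv1
      exact cf_hinge_zero hi.1 hi.2 q
    · by_cases hv2 : v = .inl (.inr m)
      · subst hv2
        by_contra h0
        exact hi.1 (cm i q h0).1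
      · exact absurd (z3 v hv1 hv2).symm hv)
  rw [Finset.sum_pair (Fin.castSucc_lt_succ (i := h)).ne, OV_one hb hi, OV_one hb hi,
    OV_three hb hj, OV_three hb hj, o0, o1, o2, o3, o4] at hV
  have hS : ∑ k, p' k = ∑ k, p k - p (.inl h) - p (.inr m) := by
    have a1 : ∑ k, p' k - ∑ k, p k = ∑ k, (p' k - p k) := by rw [Finset.sum_sub_distrib]
    have a2 : ∑ k, (p' k - p k) = ∑ k ∈ {Sum.inl h, Sum.inr m}, (p' k - p k) := by
      symm
      refine Finset.sum_subset (Finset.subset_univ _) fun k _ hk => ?_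
      rw [Finset.mem_insert, Finset.mem_singleton, not_or] at hk
      rw [p3 k hk.1 hk.2, sub_self]
    rw [Finset.sum_pair (by simp), p1, p2] at a2
    linarith
  unfold Ph
  rw [hS]
  linarith

open Classical in
/-- **All corners are removed at once.** -/
theorem corners (hb : ClassW b) (hN : NbT b R nb) (hM : MM b zs R nb z p)
    (hq : ∀ h : Fin M, RH1 b (.inl h) → p (.inl h) = 0) (hL3 : Loss3 b zs) (D : Finset (Fin M)) :
    (∀ h ∈ D, Corner b zs nb z p h) →
    ∃ (z' : DD (tyW b) ⊕ ZZ (tyW b) → ℂ) (p' : DD (tyW b) → ℝ),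
      Adm (wdat (tyW b) b) (wparM b zs) zs R nb z' p' ∧ (∀ v ∈ nb, z' v = z v) ∧
      (∀ h ∈ D, p' (.inl h) = 0) ∧
      (∀ h ∈ D, ∀ m : {i : Fin (M + 1) // (tyW b i).isMid = true}, m.1 = h.castSucc →
        p' (.inr m) = 0) ∧
      (∀ h, h ∉ D → p' (.inl h) = p (.inl h)) ∧
      (∀ m : {i : Fin (M + 1) // (tyW b i).isMid = true}, (∀ h ∈ D, m.1 ≠ h.castSucc) →
        p' (.inr m) = p (.inr m)) ∧
      (∀ i, (∀ h ∈ D, i ≠ h.succ ∧ i ≠ h.castSucc) → Ow b z' i = Ow b z i) ∧
      Ph b z p ≤ Ph b z' p' + D.card * (1 / 100) := by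
  induction D using Finset.induction_on with
  | empty =>
    intro _
    exact ⟨z, p, hM.adm, fun _ _ => rfl, by simp, by simp, fun _ _ => rfl, fun _ _ => rfl,
      fun _ _ => rfl, by simp⟩
  | insert h D hh ih =>
    intro hD
    obtain ⟨z1, p1, a1, a2, a3, a4, a5, a6, a7, a8⟩ :=
      ih fun h' h1 => hD h' (Finset.mem_insert_of_mem h1)
    have C := hD h (Finset.mem_insert_self _ _)
    obtain ⟨x, Dm⟩ := C.md
    have hmid : (tyW b h.castSucc).isMid = true := by rw [tyW_of_three C.three]; rfl
    set m : {i : Fin (M + 1) // (tyW b i).isMid = true} := ⟨h.castSucc, hmid⟩ with hm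
    have hm1 : m.1 = h.castSucc := rfl
    have hnm : Sum.inl (Sum.inr m) ∉ nb := hN.inner_nnA m (A := (.l : Adj h h.castSucc 2 h.succ))
      Dm.nn
    have hfar : ∀ h' ∈ D, (h.succ ≠ h'.succ ∧ h.succ ≠ h'.castSucc) ∧
        (h.castSucc ≠ h'.succ ∧ h.castSucc ≠ h'.castSucc) := by
      intro h' h1
      have C' := hD h' (Finset.mem_insert_of_mem h1)
      have hne : h ≠ h' := fun e => hh (e ▸ h1)
      refine ⟨⟨fun e => hne (Fin.succ_injective _ e), ?_⟩, ⟨?_,
        fun e => hne (Fin.castSucc_injective _ e)⟩⟩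
      · intro e
        have h2 := C.one
        rw [e, C'.three] at h2
        exact absurd h2 (by decide)
      · intro e
        have h2 := C.three
        rw [e, C'.one] at h2
        exact absurd h2 (by decide)
    have e1 : Ow b z1 h.succ = Ow b z h.succ := a7 _ fun h' h1 => (hfar h' h1).1
    have e2 : Ow b z1 h.castSucc = Ow b z h.castSucc := a7 _ fun h' h1 => (hfar h' h1).2
    have e3 : p1 (.inl h) = p (.inl h) := a5 h hh
    have e4 : p1 (.inr m) = p (.inr m) := a6 m fun h' h1 => (hfar h' h1).2.2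
    obtain ⟨c, l', c0, c1, hl, hv⟩ := hL3 hN hM hq Dm C.one C.three C.sp m hm1
    have hX : 65 / 100 ≤ wXM b h := by
      unfold wXM
      rw [C.one, C.three]
      simp only [hp]
      norm_num
    obtain ⟨z2, p2, b1, b2, b3, b4, b5, b6, b7⟩ := corner_move hb hN.ok.1 a1 m hm1 C.one C.three
      Dm.nn hnm c0 (c1.trans hX) (by rw [e2, e4]; exact hl)
    rw [e1, e2, e3, e4] at b7
    refine ⟨z2, p2, b1, fun v hv => (b2 v hv).trans (a2 v hv), ?_, ?_, ?_, ?_, ?_, ?_⟩
    · intro h' h1
      rcases Finset.mem_insert.1 h1 with rfl | h1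
      · exact b3
      · have hne : h' ≠ h := fun e => hh (e ▸ h1)
        rw [b5 (.inl h') (by simpa using hne) (by simp)]
        exact a3 h' h1
    · intro h' h1 m' hm'
      rcases Finset.mem_insert.1 h1 with rfl | h1
      · have : m' = m := Subtype.ext (hm'.trans hm1.symm)
        rw [this]
        exact b4
      · have hne : m' ≠ m := by
          rintro rfl
          exact (hfar h' h1).2.2 hm'
        rw [b5 (.inr m') (by simp) (by simpa using hne)]
        exact a4 h' h1 m' hm'
    · intro h' h1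
      rw [Finset.mem_insert, not_or] at h1
      rw [b5 (.inl h') (by simpa using h1.1) (by simp)]
      exact a5 h' h1.2
    · intro m' hm'
      have hne : m' ≠ m := by
        rintro rfl
        exact hm' h (Finset.mem_insert_self _ _) rfl
      rw [b5 (.inr m') (by simp) (by simpa using hne)]
      exact a6 m' fun h' h1 => hm' h' (Finset.mem_insert_of_mem h1)
    · intro i hi
      have h1 := hi h (Finset.mem_insert_self _ _)
      rw [b6 i h1.1 h1.2]
      exact a7 i fun h' h2 => hi h' (Finset.mem_insert_of_mem h2)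
    · rw [Finset.card_insert_of_notMem hh, b7]
      push_cast
      linarith

theorem sum_le_zero_penalty {z' : DD (tyW b) ⊕ ZZ (tyW b) → ℂ} {p' : DD (tyW b) → ℝ}
    (h0 : p' = 0) : Ph b z' p' = (wdat (tyW b) b).V z' := by
  unfold Ph
  rw [h0]
  simp

/-- a corner gives a special hinge in the sense of the removal of the tails -/
theorem Corner.spc (hb : ClassW b) (hN : NbT b R nb) (C : Corner b zs nb z p h) :
    ∃ k : Fin M, k.castSucc = h.succ ∧ TL.Spc b R z k := by
  obtain ⟨k, P, A, hk, hre⟩ := C.sp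
  obtain ⟨x, D⟩ := C.md
  have hk1 : k.castSucc = h.succ ∧ P = k.succ := by
    generalize hs : (2 : Fin 3) = s' at A
    generalize hi : h.succ = i' at A
    cases A with
    | l => exact ⟨rfl, rfl⟩
    | r => exact absurd hs (by decide)
  obtain ⟨e1, rfl⟩ := hk1
  have ht : ¬ Tch b R h.succ := hN.not_tch D.adj D.nn
  have ht2 : ¬ Tch b R h.castSucc := hN.not_tch (.l : Adj h h.castSucc 2 h.succ) D.nn
  have hb1 := (hN.beyond A ht hk).1
  have hcl : clsW b k.succ = .one ∨ clsW b k.succ = .two := by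
    rcases okp_of hb D.adj (A : Adj k h.succ (0 : Fin 3).rev k.succ) C.one with h1 | h1
    · rw [C.three] at h1
      rcases h1 with h1 | h1 | h1 <;> exact absurd h1 (by decide)
    · rcases h1 with h1 | h1 | h1
      · exact Or.inl h1
      · exact Or.inr h1
      · exact (MM.real_twoE hN A ht hk h1).elim
  refine ⟨k, e1, hb1, hcl, by rw [e1]; exact ht, by rw [e1]; exact C.one,
    ⟨h, h.castSucc, by rw [e1]; exact D.adj, C.three, ht2⟩, hre⟩

open Classical in
/-- the losses of the corners are among the extra losses of the tails -/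
theorem card_le_ee (hb : ClassW b) (hN : NbT b R nb) (D : Finset (Fin M))
    (hD : ∀ h ∈ D, Corner b zs nb z p h) : (D.card : ℝ) * (1 / 100) ≤ ∑ h, TL.ee b R z h := by
  choose! f hf using fun h (hh : h ∈ D) => (hD h hh).spc hb hN
  have hinj : Set.InjOn f D := by
    intro h1 m1 h2 m2 e
    have a1 := (hf h1 m1).1
    have a2 := (hf h2 m2).1
    rw [e] at a1
    exact Fin.succ_injective _ (a1.symm.trans a2)
  have h0 : ∀ h, 0 ≤ TL.ee b R z h := by
    intro h
    unfold TL.ee
    split_ifs <;> norm_num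
  calc (D.card : ℝ) * (1 / 100) = ∑ h ∈ D.image f, TL.ee b R z h := by
        rw [Finset.sum_image hinj]
        rw [Finset.sum_congr rfl fun h hh => (by
          unfold TL.ee
          rw [if_pos (hf h hh).2] : TL.ee b R z (f h) = 1 / 100)]
        rw [Finset.sum_const, nsmul_eq_mul]
    _ ≤ ∑ h, TL.ee b R z h :=
        Finset.sum_le_univ_sum_of_nonneg h0

open Classical in
/-- **Removal of the mirrored paths with a loss at the special hinges.** -/
theorem lossy (hb : ClassW b) (hL : Loc b zs) (K : KindsL b zs) (I : InnersL b zs)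
    (hN : NbT b R nb) (hM : MM b zs R nb z p)
    (hq : ∀ h : Fin M, RH1 b (.inl h) → p (.inl h) = 0) :
    ∃ z', Adm (wdat (tyW b) b) (wparM b zs) zs R nb z' 0 ∧ (∀ v ∈ nb, z' v = z v) ∧
      Ph b z p ≤ (wdat (tyW b) b).V z' + ∑ h, TL.ee b R z h := by
  have hk := K.hinge hb hL hN hM hq
  set D : Finset (Fin M) := univ.filter fun h => p (.inl h) ≠ 0 with hDdef
  have hD : ∀ h ∈ D, Corner b zs nb z p h := by
    intro h hh
    rw [hDdef, Finset.mem_filter] at hh
    exact (hk h).resolve_left hh.2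
  have hall : ∀ (h : Fin M) (i j : Fin (M + 1)), Adj h i 0 j →
      p (.inl h) = 0 ∨ (clsW b i = .one ∧ clsW b j = .three) := by
    intro h i j A
    rcases hk h with h0 | C
    · exact Or.inl h0
    · right
      generalize hs : (0 : Fin 3) = s' at A
      cases A with
      | l => exact absurd hs (by decide)
      | r => exact ⟨C.one, C.three⟩
  obtain ⟨z', p', a1, a2, a3, a4, a5, a6, -, a8⟩ := corners hb hN hM hq K.loss D hD
  have hp0 : p' = 0 := by
    funext k
    rcases k with h | m
    · show p' (.inl h) = 0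
      by_cases hh : h ∈ D
      · exact a3 h hh
      · rw [a5 h hh]
        by_contra hc
        exact hh (by rw [hDdef, Finset.mem_filter]; exact ⟨Finset.mem_univ _, hc⟩)
    · show p' (.inr m) = 0
      by_cases hm : ∃ h ∈ D, m.1 = h.castSucc
      · obtain ⟨h, h1, h2⟩ := hm
        exact a4 h h1 m h2
      · push Not at hm
        rw [a6 m hm]
        by_cases hn : Sum.inl (Sum.inr m) ∈ nb
        · by_cases hr : (Sum.inr m : DD (tyW b)) ∈ R
          · exact (hM.adm.tail _ hr).2.2.2
          · exact (hM.adm.reD _ hr hn).2.2.2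
        -- the hinges of the region are not in a mode
        have hloc : ∀ (h : Fin M) (s : Fin 3) (j : Fin (M + 1)), Adj h m.1 s j →
            p (.inl h) = 0 := by
          intro h s j A
          by_contra hc
          have hh : h ∈ D := by rw [hDdef, Finset.mem_filter]; exact ⟨Finset.mem_univ _, hc⟩
          have C := hD h hh
          generalize hi : m.1 = i' at A
          cases A with
          | l => exact hm h hh hi
          | r =>
            have h1 := C.one
            have h2 := m.2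
            rw [hi, tyW_of_one h1] at h2
            exact absurd h2 (by decide)
        have hmid := m.2
        rcases hc : clsW b m.1
        · rw [tyW_of_one hc] at hmid; exact absurd hmid (by decide)
        · rw [tyW_of_two (Or.inl hc)] at hmid; exact absurd hmid (by decide)
        · rw [tyW_of_two (Or.inr hc)] at hmid; exact absurd hmid (by decide)
        · exact I.three m hN hM hq hloc hall hc hn
        · exact I.threeE m hN hM hq hloc hc hn
        · rw [tyW_of_ring hb hc] at hmid; exact absurd hmid (by decide)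
  subst hp0
  refine ⟨z', a1, a2, ?_⟩
  have h1 := card_le_ee hb hN D hD
  have h2 : Ph b z' 0 = (wdat (tyW b) b).V z' := sum_le_zero_penalty rfl
  rw [h2] at a8
  linarith

/-- **Removal of the mirrored paths**, no tails. -/
theorem modes0_of (hb : ClassW b) (hL : Loc b zs) (K : KindsL b zs) (I : InnersL b zs)
    (hq : ∀ {z : DD (tyW b) ⊕ ZZ (tyW b) → ℂ} {p : DD (tyW b) → ℝ}, MM b zs ∅ ∅ z p →
      ∀ h : Fin M, RH1 b (.inl h) → p (.inl h) = 0) : ModeOk0 b zs (wparM b zs) := by
  refine modeOk0_of fun z p hM => ?_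
  have hq' := hq hM
  have hh : ∀ h : Fin M, p (.inl h) = 0 := by
    intro h
    rcases K.hinge hb hL NbT.empty hM hq' h with h0 | C
    · exact h0
    · obtain ⟨k, P, -, hk, -⟩ := C.sp
      simp at hk
  funext k
  rcases k with h | m
  · exact hh h
  · show p (.inr m) = 0
    have hmid := m.2
    rcases hc : clsW b m.1
    · rw [tyW_of_one hc] at hmid; exact absurd hmid (by decide)
    · rw [tyW_of_two (Or.inl hc)] at hmid; exact absurd hmid (by decide)
    · rw [tyW_of_two (Or.inr hc)] at hmid; exact absurd hmid (by decide)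
    · exact I.three m NbT.empty hM hq' (fun h _ _ _ => hh h) (fun h _ _ _ => Or.inl (hh h)) hc
        (by simp)
    · exact I.threeE m NbT.empty hM hq' (fun h _ _ _ => hh h) hc (by simp)
    · rw [tyW_of_ring hb hc] at hmid; exact absurd hmid (by decide)

end SR

end Pool.Agent.Work.MP_b30479_gt.G2
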