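import Pool.Agent.Work.MP_b30479_gt.G2.WMR3
import Pool.Agent.Work.MP_b30479_gt.G2.WMR2

/-!
# Mirrored paths: rows, kind `2 | 3` with the slot `2` of the `3` (generated)
-/

set_option linter.unusedVariables false
set_option linter.unusedSimpArgs false
set_option linter.unusedTactic false
set_option linter.unreachableTactic false

namespace Pool.Agent.Work.MP_b30479_gt.G2

open VOL NumU

namespace KR

namespace R23

def k0 : Cell :=
  ⟨0, 50, 0, 570, 13, 1, 1, 0, 16, 13, -296, 0, 1545, 2004, -3, 48930, 18903⟩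
theorem k0A : (k0.A D2x 0 80).Side := Pm.sideG
  (c := 0x4080c403081018208101820810184080c203081010408101840810203020c2030408184080c20406101820608102) (by decide +kernel)
theorem k0B : (k0.B DL 0 40).Side := Pm.sideG
  (c := 0x4080c20406102040810202060818208102040408203040c102) (by decide +kernel)
theorem k0C : (k0.B DM 40 77).Side := Pm.sideG
  (c := 0x102030808202) (by decide +kernel)
theorem k0D : (k0.B DL 77 80).Side := Pm.sideG
  (c := 0x4080c203) (by decide +kernel)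
theorem k0l : k0.LB := Cell.lb_of0 (c := 0x880) (by decide +kernel) rfl (by decide) rfl (by
  intro x h0 h1
  simp only [Cell.a, k0]
  push_cast
  constructor <;> linarith only [h0, h1])
theorem k0m : k0.MB := Cell.mb_of (c := 0x88800880800) (by decide +kernel)
theorem r0 {x T y β y' β' : ℝ} (hx0 : ((0 : ℤ) : ℝ) / 10000 ≤ x) (hx1 : x ≤ ((50 : ℤ) : ℝ) / 10000)
    (ht0 : ((0 : ℤ) : ℝ) / 10000 ≤ T) (ht1 : T ≤ ((570 : ℤ) : ℝ) / 10000) (h0 : ((0 : ℤ) : ℝ) / 100 ≤ y)
    (h1 : y ≤ ((80 : ℤ) : ℝ) / 100) (h0' : ((0 : ℤ) : ℝ) / 100 ≤ y') (h1' : y' ≤ ((80 : ℤ) : ℝ) / 100)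
    (hd : D2x.In y β) (hd' : InL 77 y' β') :
    Two (60 / 100) (13 / 100) (30 / 100) T x y β y' β' := by
  have ht : tr 0 (60 / 100) (13 / 100) (30 / 100) x = x / (13 / 100) :=
    tr_a (by norm_num) (by norm_num) (by norm_num) (by push_cast at hx0; linarith only [hx0]) (by push_cast at hx1; linarith only [hx1])
  refine Two.of k0 (by simp only [k0]; norm_num) (by simp only [k0]; norm_num)
    (by simp only [k0, Cell.e]; push_cast; rw [tr_b (by norm_num) (by norm_num) (by norm_num) (by norm_num)]; ring) (by simp only [k0, Cell.a]; push_cast; rw [ht]; ring) ?_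
  rcases hd' with ⟨g1, hd'⟩ | ⟨g0, g1, hd'⟩ | ⟨g0, hd'⟩
  · exact Cell.two k0l k0m k0A k0B hx0 hx1 ht0 ht1 h0 h1 h0' g1 hd hd'
  · exact Cell.two k0l k0m k0A k0C hx0 hx1 ht0 ht1 h0 h1 g0 g1 hd hd'
  · exact Cell.two k0l k0m k0A k0D hx0 hx1 ht0 ht1 h0 h1 g0 h1' hd hd'

def k1 : Cell :=
  ⟨50, 200, 0, 570, 10, 10, 13, 0, 16, 13, -119, -32434, 1446, 1580, 97, 40803, 10594⟩
theorem k1A : (k1.A D2x 0 80).Side := Pm.sideG
  (c := 0x10204040c404040c204060820406102030610203081018308102030a081040810184080c204081000006102040810202080400008101040200000081020400000030600204080c0030408184080c20404101820608102) (by decide +kernel)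
theorem k1B : (k1.B DL 0 40).Side := Pm.sideG
  (c := 0x10203081018408102040810002060818208101840810204000800408001820810103040c102) (by decide +kernel)
theorem k1C : (k1.B DM 40 77).Side := Pm.sideG
  (c := 0x40808202) (by decide +kernel)
theorem k1D : (k1.B DL 77 80).Side := Pm.sideG
  (c := 0x4080c203) (by decide +kernel)
theorem k1l : k1.LB := Cell.lb_of (c := 0x8880088088000) (by decide +kernel)
theorem k1m : k1.MB := Cell.mb_of (c := 0x88800880800) (by decide +kernel)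
theorem r1 {x T y β y' β' : ℝ} (hx0 : ((50 : ℤ) : ℝ) / 10000 ≤ x) (hx1 : x ≤ ((200 : ℤ) : ℝ) / 10000)
    (ht0 : ((0 : ℤ) : ℝ) / 10000 ≤ T) (ht1 : T ≤ ((570 : ℤ) : ℝ) / 10000) (h0 : ((0 : ℤ) : ℝ) / 100 ≤ y)
    (h1 : y ≤ ((80 : ℤ) : ℝ) / 100) (h0' : ((0 : ℤ) : ℝ) / 100 ≤ y') (h1' : y' ≤ ((80 : ℤ) : ℝ) / 100)
    (hd : D2x.In y β) (hd' : InL 77 y' β') :
    Two (60 / 100) (13 / 100) (30 / 100) T x y β y' β' := by
  have ht : tr 0 (60 / 100) (13 / 100) (30 / 100) x = x / (13 / 100) :=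
    tr_a (by norm_num) (by norm_num) (by norm_num) (by push_cast at hx0; linarith only [hx0]) (by push_cast at hx1; linarith only [hx1])
  refine Two.of k1 (by simp only [k1]; norm_num) (by simp only [k1]; norm_num)
    (by simp only [k1, Cell.e]; push_cast; rw [tr_a (by norm_num) (by norm_num) (by norm_num) (by norm_num) (by norm_num)]; ring) (by simp only [k1, Cell.a]; push_cast; rw [ht]; ring) ?_
  rcases hd' with ⟨g1, hd'⟩ | ⟨g0, g1, hd'⟩ | ⟨g0, hd'⟩
  · exact Cell.two k1l k1m k1A k1B hx0 hx1 ht0 ht1 h0 h1 h0' g1 hd hd'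
  · exact Cell.two k1l k1m k1A k1C hx0 hx1 ht0 ht1 h0 h1 g0 g1 hd hd'
  · exact Cell.two k1l k1m k1A k1D hx0 hx1 ht0 ht1 h0 h1 g0 h1' hd hd'

def k2 : Cell :=
  ⟨200, 500, 0, 570, 13, 1, 1, 0, 16, 13, -343, -21718, 1545, 2004, 456, 32164, 9510⟩
theorem k2A : (k2.A D2x 0 80).Side := Pm.sideG
  (c := 0x10203100c2040608204080c1820810184080c184080c204060c204061020306102030614204060c28208101840610201080c2040600204060c10308101830408102) (by decide +kernel)
theorem k2B : (k2.B DL 0 40).Side := Pm.sideG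
  (c := 0x10203081018408101830810204040c184080c204080c00408001820608102) (by decide +kernel)
theorem k2C : (k2.B DM 40 77).Side := Pm.sideG
  (c := 0x102030808202) (by decide +kernel)
theorem k2D : (k2.B DL 77 80).Side := Pm.sideG
  (c := 0x18204060820402101830810183) (by decide +kernel)
theorem k2l : k2.LB := Cell.lb_of (c := 0x88800880800) (by decide +kernel)
theorem k2m : k2.MB := Cell.mb_of (c := 0x88800880800) (by decide +kernel)
theorem r2 {x T y β y' β' : ℝ} (hx0 : ((200 : ℤ) : ℝ) / 10000 ≤ x) (hx1 : x ≤ ((500 : ℤ) : ℝ) / 10000)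
    (ht0 : ((0 : ℤ) : ℝ) / 10000 ≤ T) (ht1 : T ≤ ((570 : ℤ) : ℝ) / 10000) (h0 : ((0 : ℤ) : ℝ) / 100 ≤ y)
    (h1 : y ≤ ((80 : ℤ) : ℝ) / 100) (h0' : ((0 : ℤ) : ℝ) / 100 ≤ y') (h1' : y' ≤ ((80 : ℤ) : ℝ) / 100)
    (hd : D2x.In y β) (hd' : InL 77 y' β') :
    Two (60 / 100) (13 / 100) (30 / 100) T x y β y' β' := by
  have ht : tr 0 (60 / 100) (13 / 100) (30 / 100) x = x / (13 / 100) :=
    tr_a (by norm_num) (by norm_num) (by norm_num) (by push_cast at hx0; linarith only [hx0]) (by push_cast at hx1; linarith only [hx1])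
  refine Two.of k2 (by simp only [k2]; norm_num) (by simp only [k2]; norm_num)
    (by simp only [k2, Cell.e]; push_cast; rw [tr_b (by norm_num) (by norm_num) (by norm_num) (by norm_num)]; ring) (by simp only [k2, Cell.a]; push_cast; rw [ht]; ring) ?_
  rcases hd' with ⟨g1, hd'⟩ | ⟨g0, g1, hd'⟩ | ⟨g0, hd'⟩
  · exact Cell.two k2l k2m k2A k2B hx0 hx1 ht0 ht1 h0 h1 h0' g1 hd hd'
  · exact Cell.two k2l k2m k2A k2C hx0 hx1 ht0 ht1 h0 h1 g0 g1 hd hd'
  · exact Cell.two k2l k2m k2A k2D hx0 hx1 ht0 ht1 h0 h1 g0 h1' hd hd'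

def k3 : Cell :=
  ⟨500, 1000, 0, 570, 15, 1, 1, 0, 16, 13, -756, -13699, 1581, 1714, 140, 37277, 8977⟩
theorem k3A : (k3.A D2x 0 80).Side := Pm.sideG
  (c := 0x102030810183100c204061020306082040610203060820404102030610202080c204060c204060c2840a10182080c2000610203080c1850a1420404100840010004000c200060c2820814204000c104061028406082030010203060c104080c2030608102) (by decide +kernel)
theorem k3B : (k3.B DL 0 40).Side := Pm.sideG
  (c := 0x4080c20406102030810203040c102) (by decide +kernel)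
theorem k3C : (k3.B DM 40 77).Side := Pm.sideG
  (c := 0x4080c2030808202) (by decide +kernel)
theorem k3D : (k3.B DL 77 80).Side := Pm.sideG
  (c := 0x60c18304080418206083060808184080c106080820300102000210200080c201060c2040610183) (by decide +kernel)
theorem k3l : k3.LB := Cell.lb_of (c := 0x88800880800) (by decide +kernel)
theorem k3m : k3.MB := Cell.mb_of (c := 0x88800880800) (by decide +kernel)
theorem r3 {x T y β y' β' : ℝ} (hx0 : ((500 : ℤ) : ℝ) / 10000 ≤ x) (hx1 : x ≤ ((1000 : ℤ) : ℝ) / 10000)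
    (ht0 : ((0 : ℤ) : ℝ) / 10000 ≤ T) (ht1 : T ≤ ((570 : ℤ) : ℝ) / 10000) (h0 : ((0 : ℤ) : ℝ) / 100 ≤ y)
    (h1 : y ≤ ((80 : ℤ) : ℝ) / 100) (h0' : ((0 : ℤ) : ℝ) / 100 ≤ y') (h1' : y' ≤ ((80 : ℤ) : ℝ) / 100)
    (hd : D2x.In y β) (hd' : InL 77 y' β') :
    Two (60 / 100) (13 / 100) (30 / 100) T x y β y' β' := by
  have ht : tr 0 (60 / 100) (13 / 100) (30 / 100) x = x / (13 / 100) :=
    tr_a (by norm_num) (by norm_num) (by norm_num) (by push_cast at hx0; linarith only [hx0]) (by push_cast at hx1; linarith only [hx1])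
  refine Two.of k3 (by simp only [k3]; norm_num) (by simp only [k3]; norm_num)
    (by simp only [k3, Cell.e]; push_cast; rw [tr_b (by norm_num) (by norm_num) (by norm_num) (by norm_num)]; ring) (by simp only [k3, Cell.a]; push_cast; rw [ht]; ring) ?_
  rcases hd' with ⟨g1, hd'⟩ | ⟨g0, g1, hd'⟩ | ⟨g0, hd'⟩
  · exact Cell.two k3l k3m k3A k3B hx0 hx1 ht0 ht1 h0 h1 h0' g1 hd hd'
  · exact Cell.two k3l k3m k3A k3C hx0 hx1 ht0 ht1 h0 h1 g0 g1 hd hd'
  · exact Cell.two k3l k3m k3A k3D hx0 hx1 ht0 ht1 h0 h1 g0 h1' hd hd'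

def k4 : Cell :=
  ⟨1000, 1300, 0, 570, 15, 1, 1, 0, 16, 13, -1209, -8824, 1581, 1714, -110, 40499, 7024⟩
theorem k4A : (k4.A D2x 0 80).Side := Pm.sideG
  (c := 0x102030810183100c20406101820810184080c1820810184080c18408101040608203080c2840a102820804200080018208100830a14204000c282060818408142030410182080c1820810203040c102) (by decide +kernel)
theorem k4B : (k4.B DL 0 40).Side := Pm.sideG
  (c := 0x102040808182) (by decide +kernel)
theorem k4C : (k4.B DM 40 77).Side := Pm.sideG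
  (c := 0x408082030808202) (by decide +kernel)
theorem k4D : (k4.B DL 77 80).Side := Pm.sideG
  (c := 0x60c1830406081820c1820306102030410084080c201060c2040610183) (by decide +kernel)
theorem k4l : k4.LB := Cell.lb_of (c := 0x8808800) (by decide +kernel)
theorem k4m : k4.MB := Cell.mb_of (c := 0x88800880800) (by decide +kernel)
theorem r4 {x T y β y' β' : ℝ} (hx0 : ((1000 : ℤ) : ℝ) / 10000 ≤ x) (hx1 : x ≤ ((1300 : ℤ) : ℝ) / 10000)
    (ht0 : ((0 : ℤ) : ℝ) / 10000 ≤ T) (ht1 : T ≤ ((570 : ℤ) : ℝ) / 10000) (h0 : ((0 : ℤ) : ℝ) / 100 ≤ y)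
    (h1 : y ≤ ((80 : ℤ) : ℝ) / 100) (h0' : ((0 : ℤ) : ℝ) / 100 ≤ y') (h1' : y' ≤ ((80 : ℤ) : ℝ) / 100)
    (hd : D2x.In y β) (hd' : InL 77 y' β') :
    Two (60 / 100) (13 / 100) (30 / 100) T x y β y' β' := by
  have ht : tr 0 (60 / 100) (13 / 100) (30 / 100) x = x / (13 / 100) :=
    tr_a (by norm_num) (by norm_num) (by norm_num) (by push_cast at hx0; linarith only [hx0]) (by push_cast at hx1; linarith only [hx1])
  refine Two.of k4 (by simp only [k4]; norm_num) (by simp only [k4]; norm_num)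
    (by simp only [k4, Cell.e]; push_cast; rw [tr_b (by norm_num) (by norm_num) (by norm_num) (by norm_num)]; ring) (by simp only [k4, Cell.a]; push_cast; rw [ht]; ring) ?_
  rcases hd' with ⟨g1, hd'⟩ | ⟨g0, g1, hd'⟩ | ⟨g0, hd'⟩
  · exact Cell.two k4l k4m k4A k4B hx0 hx1 ht0 ht1 h0 h1 h0' g1 hd hd'
  · exact Cell.two k4l k4m k4A k4C hx0 hx1 ht0 ht1 h0 h1 g0 g1 hd hd'
  · exact Cell.two k4l k4m k4A k4D hx0 hx1 ht0 ht1 h0 h1 g0 h1' hd hd'

def k5 : Cell :=
  ⟨1300, 1600, 0, 570, 15, 1, 1, 16, 0, 100, -2756, 3137, 1581, 1714, 4713, 3753, 5826⟩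
theorem k5A : (k5.A D2x 0 80).Side := Pm.sideG
  (c := 0x102030810183100c204060820406102030608204061020306102050410182080c2030a102840a082050400204000420108042010804182080c285080c282060818408141040610182080c1820810203040c102) (by decide +kernel)
theorem k5B : (k5.B DL 0 40).Side := Pm.sideG
  (c := 0x40810182) (by decide +kernel)
theorem k5C : (k5.B DM 40 77).Side := Pm.sideG
  (c := 0x102030808202) (by decide +kernel)
theorem k5D : (k5.B DL 77 80).Side := Pm.sideG
  (c := 0x60c18304040c1820c1010608082030804184080c08408041830810183) (by decide +kernel)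
theorem k5l : k5.LB := Cell.lb_of (c := 0x880) (by decide +kernel)
theorem k5m : k5.MB := Cell.mb_of (c := 0x88800880800) (by decide +kernel)
theorem r5 {x T y β y' β' : ℝ} (hx0 : ((1300 : ℤ) : ℝ) / 10000 ≤ x) (hx1 : x ≤ ((1600 : ℤ) : ℝ) / 10000)
    (ht0 : ((0 : ℤ) : ℝ) / 10000 ≤ T) (ht1 : T ≤ ((570 : ℤ) : ℝ) / 10000) (h0 : ((0 : ℤ) : ℝ) / 100 ≤ y)
    (h1 : y ≤ ((80 : ℤ) : ℝ) / 100) (h0' : ((0 : ℤ) : ℝ) / 100 ≤ y') (h1' : y' ≤ ((80 : ℤ) : ℝ) / 100)
    (hd : D2x.In y β) (hd' : InL 77 y' β') :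
    Two (60 / 100) (13 / 100) (30 / 100) T x y β y' β' := by
  have ht : tr 0 (60 / 100) (13 / 100) (30 / 100) x = 1 :=
    tr_b (by norm_num) (by norm_num) (by push_cast at hx0; linarith only [hx0]) (by push_cast at hx1; linarith only [hx1])
  refine Two.of k5 (by simp only [k5]; norm_num) (by simp only [k5]; norm_num)
    (by simp only [k5, Cell.e]; push_cast; rw [tr_b (by norm_num) (by norm_num) (by norm_num) (by norm_num)]; ring) (by simp only [k5, Cell.a]; push_cast; rw [ht]; ring) ?_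
  rcases hd' with ⟨g1, hd'⟩ | ⟨g0, g1, hd'⟩ | ⟨g0, hd'⟩
  · exact Cell.two k5l k5m k5A k5B hx0 hx1 ht0 ht1 h0 h1 h0' g1 hd hd'
  · exact Cell.two k5l k5m k5A k5C hx0 hx1 ht0 ht1 h0 h1 g0 g1 hd hd'
  · exact Cell.two k5l k5m k5A k5D hx0 hx1 ht0 ht1 h0 h1 g0 h1' hd hd'

def k6 : Cell :=
  ⟨1600, 2000, 0, 570, 15, 1, 1, 16, 0, 100, -2903, 4045, 1581, 1714, 4636, 4386, 5244⟩
theorem k6A : (k6.A D2x 0 80).Side := Pm.sideG
  (c := 0x10204060c4030810184060820406101820810184080c1820810184080c18408141040608203080c2840a1020108141040200182080c285080c282060818408100840610182080c1820810104060c102) (by decide +kernel)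
theorem k6B : (k6.B DL 0 40).Side := Pm.sideG
  (c := 0x40810182) (by decide +kernel)
theorem k6C : (k6.B DM 40 77).Side := Pm.sideG
  (c := 0x4080c2020808202) (by decide +kernel)
theorem k6D : (k6.B DL 77 80).Side := Pm.sideG
  (c := 0x60c1830408041030608304080c20008042000800186080c2030418304060c2030010201080c203040c20400101840010183) (by decide +kernel)
theorem k6l : k6.LB := Cell.lb_of (c := 0x8808800) (by decide +kernel)
theorem k6m : k6.MB := Cell.mb_of (c := 0x88800880800) (by decide +kernel)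
theorem r6 {x T y β y' β' : ℝ} (hx0 : ((1600 : ℤ) : ℝ) / 10000 ≤ x) (hx1 : x ≤ ((2000 : ℤ) : ℝ) / 10000)
    (ht0 : ((0 : ℤ) : ℝ) / 10000 ≤ T) (ht1 : T ≤ ((570 : ℤ) : ℝ) / 10000) (h0 : ((0 : ℤ) : ℝ) / 100 ≤ y)
    (h1 : y ≤ ((80 : ℤ) : ℝ) / 100) (h0' : ((0 : ℤ) : ℝ) / 100 ≤ y') (h1' : y' ≤ ((80 : ℤ) : ℝ) / 100)
    (hd : D2x.In y β) (hd' : InL 77 y' β') :
    Two (60 / 100) (13 / 100) (30 / 100) T x y β y' β' := by
  have ht : tr 0 (60 / 100) (13 / 100) (30 / 100) x = 1 :=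
    tr_b (by norm_num) (by norm_num) (by push_cast at hx0; linarith only [hx0]) (by push_cast at hx1; linarith only [hx1])
  refine Two.of k6 (by simp only [k6]; norm_num) (by simp only [k6]; norm_num)
    (by simp only [k6, Cell.e]; push_cast; rw [tr_b (by norm_num) (by norm_num) (by norm_num) (by norm_num)]; ring) (by simp only [k6, Cell.a]; push_cast; rw [ht]; ring) ?_
  rcases hd' with ⟨g1, hd'⟩ | ⟨g0, g1, hd'⟩ | ⟨g0, hd'⟩
  · exact Cell.two k6l k6m k6A k6B hx0 hx1 ht0 ht1 h0 h1 h0' g1 hd hd'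
  · exact Cell.two k6l k6m k6A k6C hx0 hx1 ht0 ht1 h0 h1 g0 g1 hd hd'
  · exact Cell.two k6l k6m k6A k6D hx0 hx1 ht0 ht1 h0 h1 g0 h1' hd hd'

def k7 : Cell :=
  ⟨2000, 2500, 0, 570, 18, 1, 1, 16, 0, 100, -3119, 5115, 1589, 1386, 4433, 4873, 4792⟩
theorem k7A : (k7.A D2x 0 80).Side := Pm.sideG
  (c := 0x102030810184080c184080c104080c103100c2040610184060820406102030608204061020306102050410182080c2030a10282080c2030a142030a0818206102040010182080c1820810104060c102) (by decide +kernel)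
theorem k7B : (k7.B DL 0 40).Side := Pm.sideG
  (c := 0x10202) (by decide +kernel)
theorem k7C : (k7.B DM 40 77).Side := Pm.sideG
  (c := 0x40804202080c202080c2040608202) (by decide +kernel)
theorem k7D : (k7.B DL 77 80).Side := Pm.sideG
  (c := 0x60c183040c10206080c00006102000c18203041018406001000c1820408001030610200041000400002040c10180081000200182030810002080020000042040010200080000408002040610000020418206083060818306081008408000020810200000c204080000106080030410204001020400002020810003081000104003060c10200040c106081020000082040010201001020400002030810001040c30408001860808203080420304041860c182030608304041018302102000010202081000208042000800100081020008080040810100080c2030804203080420400002040010002000c1060818306080c1820008204080020208042030010204000020400100020810200001008408001030008084080c2010818304060c004080020402102010400204000c104080820006103040804100081000408040020810104000c08008100040800202080c20308101840204203081000200102000810084040008408042040200182060c20406100040808200080c0840610183)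 (by decide +kernel)
theorem k7l : k7.LB := Cell.lb_of (c := 0x8808800) (by decide +kernel)
theorem k7m : k7.MB := Cell.mb_of (c := 0x88800880800) (by decide +kernel)
theorem r7 {x T y β y' β' : ℝ} (hx0 : ((2000 : ℤ) : ℝ) / 10000 ≤ x) (hx1 : x ≤ ((2500 : ℤ) : ℝ) / 10000)
    (ht0 : ((0 : ℤ) : ℝ) / 10000 ≤ T) (ht1 : T ≤ ((570 : ℤ) : ℝ) / 10000) (h0 : ((0 : ℤ) : ℝ) / 100 ≤ y)
    (h1 : y ≤ ((80 : ℤ) : ℝ) / 100) (h0' : ((0 : ℤ) : ℝ) / 100 ≤ y') (h1' : y' ≤ ((80 : ℤ) : ℝ) / 100)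
    (hd : D2x.In y β) (hd' : InL 77 y' β') :
    Two (60 / 100) (13 / 100) (30 / 100) T x y β y' β' := by
  have ht : tr 0 (60 / 100) (13 / 100) (30 / 100) x = 1 :=
    tr_b (by norm_num) (by norm_num) (by push_cast at hx0; linarith only [hx0]) (by push_cast at hx1; linarith only [hx1])
  refine Two.of k7 (by simp only [k7]; norm_num) (by simp only [k7]; norm_num)
    (by simp only [k7, Cell.e]; push_cast; rw [tr_b (by norm_num) (by norm_num) (by norm_num) (by norm_num)]; ring) (by simp only [k7, Cell.a]; push_cast; rw [ht]; ring) ?_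
  rcases hd' with ⟨g1, hd'⟩ | ⟨g0, g1, hd'⟩ | ⟨g0, hd'⟩
  · exact Cell.two k7l k7m k7A k7B hx0 hx1 ht0 ht1 h0 h1 h0' g1 hd hd'
  · exact Cell.two k7l k7m k7A k7C hx0 hx1 ht0 ht1 h0 h1 g0 g1 hd hd'
  · exact Cell.two k7l k7m k7A k7D hx0 hx1 ht0 ht1 h0 h1 g0 h1' hd hd'

def k8 : Cell :=
  ⟨2500, 3000, 0, 570, 18, 1, 1, 16, 0, 100, -3371, 6127, 1589, 1386, 4190, 5928, 4145⟩
theorem k8A : (k8.A D2x 0 80).Side := Pm.sideG
  (c := 0x4080c20406102030410103100c2040610403100c184080c20304082040610104080c1820810104080c1840814102080c2030a10203080c2840a081820608204080c1030810104060c102) (by decide +kernel)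
theorem k8B : (k8.B DL 0 40).Side := Pm.sideG
  (c := 0x10202) (by decide +kernel)
theorem k8C : (k8.B DM 40 77).Side := Pm.sideG
  (c := 0x40804202080c20308101840408202) (by decide +kernel)
theorem k8D : (k8.B DL 77 80).Side := Pm.sideG
  (c := 0x183060c10103060830404102000804184080c084080c204000418308101840410183) (by decide +kernel)
theorem k8l : k8.LB := Cell.lb_of (c := 0x88800) (by decide +kernel)
theorem k8m : k8.MB := Cell.mb_of (c := 0x88800880800) (by decide +kernel)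
theorem r8 {x T y β y' β' : ℝ} (hx0 : ((2500 : ℤ) : ℝ) / 10000 ≤ x) (hx1 : x ≤ ((3000 : ℤ) : ℝ) / 10000)
    (ht0 : ((0 : ℤ) : ℝ) / 10000 ≤ T) (ht1 : T ≤ ((570 : ℤ) : ℝ) / 10000) (h0 : ((0 : ℤ) : ℝ) / 100 ≤ y)
    (h1 : y ≤ ((80 : ℤ) : ℝ) / 100) (h0' : ((0 : ℤ) : ℝ) / 100 ≤ y') (h1' : y' ≤ ((80 : ℤ) : ℝ) / 100)
    (hd : D2x.In y β) (hd' : InL 77 y' β') :
    Two (60 / 100) (13 / 100) (30 / 100) T x y β y' β' := by
  have ht : tr 0 (60 / 100) (13 / 100) (30 / 100) x = 1 :=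
    tr_b (by norm_num) (by norm_num) (by push_cast at hx0; linarith only [hx0]) (by push_cast at hx1; linarith only [hx1])
  refine Two.of k8 (by simp only [k8]; norm_num) (by simp only [k8]; norm_num)
    (by simp only [k8, Cell.e]; push_cast; rw [tr_b (by norm_num) (by norm_num) (by norm_num) (by norm_num)]; ring) (by simp only [k8, Cell.a]; push_cast; rw [ht]; ring) ?_
  rcases hd' with ⟨g1, hd'⟩ | ⟨g0, g1, hd'⟩ | ⟨g0, hd'⟩
  · exact Cell.two k8l k8m k8A k8B hx0 hx1 ht0 ht1 h0 h1 h0' g1 hd hd'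
  · exact Cell.two k8l k8m k8A k8C hx0 hx1 ht0 ht1 h0 h1 g0 g1 hd hd'
  · exact Cell.two k8l k8m k8A k8D hx0 hx1 ht0 ht1 h0 h1 g0 h1' hd hd'

def k9 : Cell :=
  ⟨3000, 3500, 0, 570, 18, 1, 1, 96, -160, 300, -3952, 8083, 1589, 1386, 9351, -11278, 3703⟩
theorem k9A : (k9.A D2x 0 80).Side := Pm.sideG
  (c := 0x10204080c183080c20406201820810184080c4030608204061018406102030408204080c104080c1840808203080c2840a101820608204040c204060c102) (by decide +kernel)
theorem k9B : (k9.B DL 0 40).Side := Pm.sideG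
  (c := 0x102030810182) (by decide +kernel)
theorem k9C : (k9.B DM 40 77).Side := Pm.sideG
  (c := 0x4080820308101820810102) (by decide +kernel)
theorem k9D : (k9.B DL 77 80).Side := Pm.sideG
  (c := 0x60c18204020c1030c1010406102030210201060c2040610183) (by decide +kernel)
theorem k9l : k9.LB := Cell.lb_of (c := 0x880) (by decide +kernel)
theorem k9m : k9.MB := Cell.mb_of (c := 0x88800880800) (by decide +kernel)
theorem r9 {x T y β y' β' : ℝ} (hx0 : ((3000 : ℤ) : ℝ) / 10000 ≤ x) (hx1 : x ≤ ((3500 : ℤ) : ℝ) / 10000)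
    (ht0 : ((0 : ℤ) : ℝ) / 10000 ≤ T) (ht1 : T ≤ ((570 : ℤ) : ℝ) / 10000) (h0 : ((0 : ℤ) : ℝ) / 100 ≤ y)
    (h1 : y ≤ ((80 : ℤ) : ℝ) / 100) (h0' : ((0 : ℤ) : ℝ) / 100 ≤ y') (h1' : y' ≤ ((80 : ℤ) : ℝ) / 100)
    (hd : D2x.In y β) (hd' : InL 77 y' β') :
    Two (60 / 100) (13 / 100) (30 / 100) T x y β y' β' := by
  have ht : tr 0 (60 / 100) (13 / 100) (30 / 100) x = (60 / 100 - x) / (30 / 100) :=
    tr_c (by norm_num) (by norm_num) (by norm_num) (by push_cast at hx0; linarith only [hx0]) (by push_cast at hx1; linarith only [hx1])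
  refine Two.of k9 (by simp only [k9]; norm_num) (by simp only [k9]; norm_num)
    (by simp only [k9, Cell.e]; push_cast; rw [tr_b (by norm_num) (by norm_num) (by norm_num) (by norm_num)]; ring) (by simp only [k9, Cell.a]; push_cast; rw [ht]; ring) ?_
  rcases hd' with ⟨g1, hd'⟩ | ⟨g0, g1, hd'⟩ | ⟨g0, hd'⟩
  · exact Cell.two k9l k9m k9A k9B hx0 hx1 ht0 ht1 h0 h1 h0' g1 hd hd'
  · exact Cell.two k9l k9m k9A k9C hx0 hx1 ht0 ht1 h0 h1 g0 g1 hd hd'
  · exact Cell.two k9l k9m k9A k9D hx0 hx1 ht0 ht1 h0 h1 g0 h1' hd hd'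

def k10 : Cell :=
  ⟨3500, 4000, 0, 570, 18, 1, 1, 96, -160, 300, -3831, 7737, 1589, 1386, 9602, -11988, 3655⟩
theorem k10A : (k10.A D2x 0 80).Side := Pm.sideG
  (c := 0x102030810104080818308101820810184080c104080c102101020304104030808202040c204080c104061020406082030a102020608204040c204060c102) (by decide +kernel)
theorem k10B : (k10.B DL 0 40).Side := Pm.sideG
  (c := 0x102030810182) (by decide +kernel)
theorem k10C : (k10.B DM 40 77).Side := Pm.sideG
  (c := 0x4080c204060820406082040410102) (by decide +kernel)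
theorem k10D : (k10.B DL 77 80).Side := Pm.sideG
  (c := 0x183060c10103040c3040410184080c08408041830810183) (by decide +kernel)
theorem k10l : k10.LB := Cell.lb_of (c := 0x880) (by decide +kernel)
theorem k10m : k10.MB := Cell.mb_of (c := 0x88800880800) (by decide +kernel)
theorem r10 {x T y β y' β' : ℝ} (hx0 : ((3500 : ℤ) : ℝ) / 10000 ≤ x) (hx1 : x ≤ ((4000 : ℤ) : ℝ) / 10000)
    (ht0 : ((0 : ℤ) : ℝ) / 10000 ≤ T) (ht1 : T ≤ ((570 : ℤ) : ℝ) / 10000) (h0 : ((0 : ℤ) : ℝ) / 100 ≤ y)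
    (h1 : y ≤ ((80 : ℤ) : ℝ) / 100) (h0' : ((0 : ℤ) : ℝ) / 100 ≤ y') (h1' : y' ≤ ((80 : ℤ) : ℝ) / 100)
    (hd : D2x.In y β) (hd' : InL 77 y' β') :
    Two (60 / 100) (13 / 100) (30 / 100) T x y β y' β' := by
  have ht : tr 0 (60 / 100) (13 / 100) (30 / 100) x = (60 / 100 - x) / (30 / 100) :=
    tr_c (by norm_num) (by norm_num) (by norm_num) (by push_cast at hx0; linarith only [hx0]) (by push_cast at hx1; linarith only [hx1])
  refine Two.of k10 (by simp only [k10]; norm_num) (by simp only [k10]; norm_num)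
    (by simp only [k10, Cell.e]; push_cast; rw [tr_b (by norm_num) (by norm_num) (by norm_num) (by norm_num)]; ring) (by simp only [k10, Cell.a]; push_cast; rw [ht]; ring) ?_
  rcases hd' with ⟨g1, hd'⟩ | ⟨g0, g1, hd'⟩ | ⟨g0, hd'⟩
  · exact Cell.two k10l k10m k10A k10B hx0 hx1 ht0 ht1 h0 h1 h0' g1 hd hd'
  · exact Cell.two k10l k10m k10A k10C hx0 hx1 ht0 ht1 h0 h1 g0 g1 hd hd'
  · exact Cell.two k10l k10m k10A k10D hx0 hx1 ht0 ht1 h0 h1 g0 h1' hd hd'

def k11 : Cell :=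
  ⟨4000, 4500, 0, 570, 18, 1, 1, 96, -160, 300, -3722, 7464, 1589, 1386, 10236, -13578, 4072⟩
theorem k11A : (k11.A D2x 0 80).Side := Pm.sideG
  (c := 0x10204060c20406102030408204061020208101830408204080810806102030808103081020304102030610202080c2840608204040c204060c102) (by decide +kernel)
theorem k11B : (k11.B DL 0 40).Side := Pm.sideG
  (c := 0x408082030810102) (by decide +kernel)
theorem k11C : (k11.B DM 40 77).Side := Pm.sideG
  (c := 0x4080c2040610184080c1020810184080c102) (by decide +kernel)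
theorem k11D : (k11.B DL 77 80).Side := Pm.sideG
  (c := 0x60c18304040c1030c1010406102030210201060c203) (by decide +kernel)
theorem k11l : k11.LB := Cell.lb_of (c := 0x880) (by decide +kernel)
theorem k11m : k11.MB := Cell.mb_of (c := 0x88800880800) (by decide +kernel)
theorem r11 {x T y β y' β' : ℝ} (hx0 : ((4000 : ℤ) : ℝ) / 10000 ≤ x) (hx1 : x ≤ ((4500 : ℤ) : ℝ) / 10000)
    (ht0 : ((0 : ℤ) : ℝ) / 10000 ≤ T) (ht1 : T ≤ ((570 : ℤ) : ℝ) / 10000) (h0 : ((0 : ℤ) : ℝ) / 100 ≤ y)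
    (h1 : y ≤ ((80 : ℤ) : ℝ) / 100) (h0' : ((0 : ℤ) : ℝ) / 100 ≤ y') (h1' : y' ≤ ((80 : ℤ) : ℝ) / 100)
    (hd : D2x.In y β) (hd' : InL 77 y' β') :
    Two (60 / 100) (13 / 100) (30 / 100) T x y β y' β' := by
  have ht : tr 0 (60 / 100) (13 / 100) (30 / 100) x = (60 / 100 - x) / (30 / 100) :=
    tr_c (by norm_num) (by norm_num) (by norm_num) (by push_cast at hx0; linarith only [hx0]) (by push_cast at hx1; linarith only [hx1])
  refine Two.of k11 (by simp only [k11]; norm_num) (by simp only [k11]; norm_num)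
    (by simp only [k11, Cell.e]; push_cast; rw [tr_b (by norm_num) (by norm_num) (by norm_num) (by norm_num)]; ring) (by simp only [k11, Cell.a]; push_cast; rw [ht]; ring) ?_
  rcases hd' with ⟨g1, hd'⟩ | ⟨g0, g1, hd'⟩ | ⟨g0, hd'⟩
  · exact Cell.two k11l k11m k11A k11B hx0 hx1 ht0 ht1 h0 h1 h0' g1 hd hd'
  · exact Cell.two k11l k11m k11A k11C hx0 hx1 ht0 ht1 h0 h1 g0 g1 hd hd'
  · exact Cell.two k11l k11m k11A k11D hx0 hx1 ht0 ht1 h0 h1 g0 h1' hd hd'

def k12 : Cell :=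
  ⟨4500, 5000, 0, 570, 20, 1, 1, 96, -160, 300, -3605, 7205, 1568, 1214, 11828, -17577, 6474⟩
theorem k12A : (k12.A D2x 0 80).Side := Pm.sideG
  (c := 0x408101830810184080c1820810184080c204060810208101040810102040c204061020304102030610204080c1020a10182080c204060c102) (by decide +kernel)
theorem k12B : (k12.B DL 0 40).Side := Pm.sideG
  (c := 0x4080c203081018406082040410182) (by decide +kernel)
theorem k12C : (k12.B DM 40 77).Side := Pm.sideG
  (c := 0x4080c2020810203040820406102030808102) (by decide +kernel)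
theorem k12D : (k12.B DL 77 80).Side := Pm.sideG
  (c := 0x60c183040804102060c30608100830610203041020202102020810181060c203) (by decide +kernel)
theorem k12l : k12.LB := Cell.lb_of (c := 0x8) (by decide +kernel)
theorem k12m : k12.MB := Cell.mb_of (c := 0x8808800) (by decide +kernel)
theorem r12 {x T y β y' β' : ℝ} (hx0 : ((4500 : ℤ) : ℝ) / 10000 ≤ x) (hx1 : x ≤ ((5000 : ℤ) : ℝ) / 10000)
    (ht0 : ((0 : ℤ) : ℝ) / 10000 ≤ T) (ht1 : T ≤ ((570 : ℤ) : ℝ) / 10000) (h0 : ((0 : ℤ) : ℝ) / 100 ≤ y)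
    (h1 : y ≤ ((80 : ℤ) : ℝ) / 100) (h0' : ((0 : ℤ) : ℝ) / 100 ≤ y') (h1' : y' ≤ ((80 : ℤ) : ℝ) / 100)
    (hd : D2x.In y β) (hd' : InL 77 y' β') :
    Two (60 / 100) (13 / 100) (30 / 100) T x y β y' β' := by
  have ht : tr 0 (60 / 100) (13 / 100) (30 / 100) x = (60 / 100 - x) / (30 / 100) :=
    tr_c (by norm_num) (by norm_num) (by norm_num) (by push_cast at hx0; linarith only [hx0]) (by push_cast at hx1; linarith only [hx1])
  refine Two.of k12 (by simp only [k12]; norm_num) (by simp only [k12]; norm_num)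
    (by simp only [k12, Cell.e]; push_cast; rw [tr_b (by norm_num) (by norm_num) (by norm_num) (by norm_num)]; ring) (by simp only [k12, Cell.a]; push_cast; rw [ht]; ring) ?_
  rcases hd' with ⟨g1, hd'⟩ | ⟨g0, g1, hd'⟩ | ⟨g0, hd'⟩
  · exact Cell.two k12l k12m k12A k12B hx0 hx1 ht0 ht1 h0 h1 h0' g1 hd hd'
  · exact Cell.two k12l k12m k12A k12C hx0 hx1 ht0 ht1 h0 h1 g0 g1 hd hd'
  · exact Cell.two k12l k12m k12A k12D hx0 hx1 ht0 ht1 h0 h1 g0 h1' hd hd'

def k13 : Cell :=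
  ⟨5000, 5400, 0, 570, 22, 1, 1, 96, -160, 300, -3481, 6956, 1529, 1068, 13841, -22094, 11172⟩
theorem k13A : (k13.A D2x 0 80).Side := Pm.sideG
  (c := 0x1020308101820810184080c1040808203080c1020810203041020208081030810184061018408082030410205080c10406082840608203080c102) (by decide +kernel)
theorem k13B : (k13.B DL 0 40).Side := Pm.sideG
  (c := 0x40808203081018308101040610182081018404102020410182) (by decide +kernel)
theorem k13C : (k13.B DM 40 77).Side := Pm.sideG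
  (c := 0x1020308082040610104080c102) (by decide +kernel)
theorem k13D : (k13.B DL 77 80).Side := Pm.sideG
  (c := 0x60c1830608082030804102060c304081020004081060808204020c2010610201060c203) (by decide +kernel)
theorem k13l : k13.LB := Cell.lb_of (c := 0x8) (by decide +kernel)
theorem k13m : k13.MB := Cell.mb_of (c := 0x8808800) (by decide +kernel)
theorem r13 {x T y β y' β' : ℝ} (hx0 : ((5000 : ℤ) : ℝ) / 10000 ≤ x) (hx1 : x ≤ ((5400 : ℤ) : ℝ) / 10000)
    (ht0 : ((0 : ℤ) : ℝ) / 10000 ≤ T) (ht1 : T ≤ ((570 : ℤ) : ℝ) / 10000) (h0 : ((0 : ℤ) : ℝ) / 100 ≤ y)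
    (h1 : y ≤ ((80 : ℤ) : ℝ) / 100) (h0' : ((0 : ℤ) : ℝ) / 100 ≤ y') (h1' : y' ≤ ((80 : ℤ) : ℝ) / 100)
    (hd : D2x.In y β) (hd' : InL 77 y' β') :
    Two (60 / 100) (13 / 100) (30 / 100) T x y β y' β' := by
  have ht : tr 0 (60 / 100) (13 / 100) (30 / 100) x = (60 / 100 - x) / (30 / 100) :=
    tr_c (by norm_num) (by norm_num) (by norm_num) (by push_cast at hx0; linarith only [hx0]) (by push_cast at hx1; linarith only [hx1])
  refine Two.of k13 (by simp only [k13]; norm_num) (by simp only [k13]; norm_num)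
    (by simp only [k13, Cell.e]; push_cast; rw [tr_b (by norm_num) (by norm_num) (by norm_num) (by norm_num)]; ring) (by simp only [k13, Cell.a]; push_cast; rw [ht]; ring) ?_
  rcases hd' with ⟨g1, hd'⟩ | ⟨g0, g1, hd'⟩ | ⟨g0, hd'⟩
  · exact Cell.two k13l k13m k13A k13B hx0 hx1 ht0 ht1 h0 h1 h0' g1 hd hd'
  · exact Cell.two k13l k13m k13A k13C hx0 hx1 ht0 ht1 h0 h1 g0 g1 hd hd'
  · exact Cell.two k13l k13m k13A k13D hx0 hx1 ht0 ht1 h0 h1 g0 h1' hd hd'

def k14 : Cell :=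
  ⟨5400, 5600, 0, 570, 22, 1, 1, 96, -160, 300, -3382, 6773, 1529, 1068, 15756, -25971, 17260⟩
theorem k14A : (k14.A D2x 0 80).Side := Pm.sideG
  (c := 0x1020308101820810184061020304082040410202040c20406101840610203080c1040808203080c104080c205080c10406082840608203080c102) (by decide +kernel)
theorem k14B : (k14.B DL 0 40).Side := Pm.sideG
  (c := 0x10203080c2040610182081010406101820810104061020308101820410182) (by decide +kernel)
theorem k14C : (k14.B DM 40 77).Side := Pm.sideG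
  (c := 0x408082040610102) (by decide +kernel)
theorem k14D : (k14.B DL 77 80).Side := Pm.sideG
  (c := 0x60c18304080420104081830c101060808204020c184060c203) (by decide +kernel)
theorem k14l : k14.LB := Cell.lb_of (c := 0x8) (by decide +kernel)
theorem k14m : k14.MB := Cell.mb_of (c := 0x8808800) (by decide +kernel)
theorem r14 {x T y β y' β' : ℝ} (hx0 : ((5400 : ℤ) : ℝ) / 10000 ≤ x) (hx1 : x ≤ ((5600 : ℤ) : ℝ) / 10000)
    (ht0 : ((0 : ℤ) : ℝ) / 10000 ≤ T) (ht1 : T ≤ ((570 : ℤ) : ℝ) / 10000) (h0 : ((0 : ℤ) : ℝ) / 100 ≤ y)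
    (h1 : y ≤ ((80 : ℤ) : ℝ) / 100) (h0' : ((0 : ℤ) : ℝ) / 100 ≤ y') (h1' : y' ≤ ((80 : ℤ) : ℝ) / 100)
    (hd : D2x.In y β) (hd' : InL 77 y' β') :
    Two (60 / 100) (13 / 100) (30 / 100) T x y β y' β' := by
  have ht : tr 0 (60 / 100) (13 / 100) (30 / 100) x = (60 / 100 - x) / (30 / 100) :=
    tr_c (by norm_num) (by norm_num) (by norm_num) (by push_cast at hx0; linarith only [hx0]) (by push_cast at hx1; linarith only [hx1])
  refine Two.of k14 (by simp only [k14]; norm_num) (by simp only [k14]; norm_num)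
    (by simp only [k14, Cell.e]; push_cast; rw [tr_b (by norm_num) (by norm_num) (by norm_num) (by norm_num)]; ring) (by simp only [k14, Cell.a]; push_cast; rw [ht]; ring) ?_
  rcases hd' with ⟨g1, hd'⟩ | ⟨g0, g1, hd'⟩ | ⟨g0, hd'⟩
  · exact Cell.two k14l k14m k14A k14B hx0 hx1 ht0 ht1 h0 h1 h0' g1 hd hd'
  · exact Cell.two k14l k14m k14A k14C hx0 hx1 ht0 ht1 h0 h1 g0 g1 hd hd'
  · exact Cell.two k14l k14m k14A k14D hx0 hx1 ht0 ht1 h0 h1 g0 h1' hd hd'

def k15 : Cell :=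
  ⟨5600, 5700, 0, 570, 24, 1, 1, 96, -160, 300, -3327, 6675, 1475, 943, 15369, -25366, 17521⟩
theorem k15A : (k15.A D2x 0 80).Side := Pm.sideG
  (c := 0x4080c20406082040610202080c10208102030410202040c20406101840610203080c1040808203080c1040810185080c102080c2840608203080c102) (by decide +kernel)
theorem k15B : (k15.B DL 0 40).Side := Pm.sideG
  (c := 0x10203080c2040610182081010406101820810104061020308101820410182) (by decide +kernel)
theorem k15C : (k15.B DM 40 77).Side := Pm.sideG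
  (c := 0x102020810102) (by decide +kernel)
theorem k15D : (k15.B DL 77 80).Side := Pm.sideG
  (c := 0x183060c18202080c104020c1030c102010804203041820208101030610201060c203) (by decide +kernel)
theorem k15l : k15.LB := Cell.lb_of (c := 0x8) (by decide +kernel)
theorem k15m : k15.MB := Cell.mb_of (c := 0x8808800) (by decide +kernel)
theorem r15 {x T y β y' β' : ℝ} (hx0 : ((5600 : ℤ) : ℝ) / 10000 ≤ x) (hx1 : x ≤ ((5700 : ℤ) : ℝ) / 10000)
    (ht0 : ((0 : ℤ) : ℝ) / 10000 ≤ T) (ht1 : T ≤ ((570 : ℤ) : ℝ) / 10000) (h0 : ((0 : ℤ) : ℝ) / 100 ≤ y)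
    (h1 : y ≤ ((80 : ℤ) : ℝ) / 100) (h0' : ((0 : ℤ) : ℝ) / 100 ≤ y') (h1' : y' ≤ ((80 : ℤ) : ℝ) / 100)
    (hd : D2x.In y β) (hd' : InL 77 y' β') :
    Two (60 / 100) (13 / 100) (30 / 100) T x y β y' β' := by
  have ht : tr 0 (60 / 100) (13 / 100) (30 / 100) x = (60 / 100 - x) / (30 / 100) :=
    tr_c (by norm_num) (by norm_num) (by norm_num) (by push_cast at hx0; linarith only [hx0]) (by push_cast at hx1; linarith only [hx1])
  refine Two.of k15 (by simp only [k15]; norm_num) (by simp only [k15]; norm_num)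
    (by simp only [k15, Cell.e]; push_cast; rw [tr_b (by norm_num) (by norm_num) (by norm_num) (by norm_num)]; ring) (by simp only [k15, Cell.a]; push_cast; rw [ht]; ring) ?_
  rcases hd' with ⟨g1, hd'⟩ | ⟨g0, g1, hd'⟩ | ⟨g0, hd'⟩
  · exact Cell.two k15l k15m k15A k15B hx0 hx1 ht0 ht1 h0 h1 h0' g1 hd hd'
  · exact Cell.two k15l k15m k15A k15C hx0 hx1 ht0 ht1 h0 h1 g0 g1 hd hd'
  · exact Cell.two k15l k15m k15A k15D hx0 hx1 ht0 ht1 h0 h1 g0 h1' hd hd'

def k16 : Cell :=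
  ⟨5700, 5800, 0, 570, 33, 27, 30, 96, -160, 300, -3288, 6607, 1087, 426, 17992, -30051, 19409⟩
theorem k16A : (k16.A D2x 0 80).Side := Pm.sideG
  (c := 0x408101830810184080c182081020306082040610202080c1021010104080c202040c20406101840610203080c104080c203080c10408082840608203080c102) (by decide +kernel)
theorem k16B : (k16.B DL 0 40).Side := Pm.sideG
  (c := 0x10203080c20406101820810184060820406102030410182) (by decide +kernel)
theorem k16C : (k16.B DM 40 79).Side := Pm.sideG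
  (c := 0x4080c2020810102) (by decide +kernel)
theorem k16D : (k16.B DL 79 80).Side := Pm.sideG
  (c := 0x183060c101840618203080c082080c201060c203) (by decide +kernel)
theorem k16l : k16.LB := Cell.lb_of (c := 0x8) (by decide +kernel)
theorem k16m : k16.MB := Cell.mb_of (c := 0x8808800) (by decide +kernel)
theorem r16 {x T y β y' β' : ℝ} (hx0 : ((5700 : ℤ) : ℝ) / 10000 ≤ x) (hx1 : x ≤ ((5800 : ℤ) : ℝ) / 10000)
    (ht0 : ((0 : ℤ) : ℝ) / 10000 ≤ T) (ht1 : T ≤ ((570 : ℤ) : ℝ) / 10000) (h0 : ((0 : ℤ) : ℝ) / 100 ≤ y)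
    (h1 : y ≤ ((80 : ℤ) : ℝ) / 100) (h0' : ((0 : ℤ) : ℝ) / 100 ≤ y') (h1' : y' ≤ ((80 : ℤ) : ℝ) / 100)
    (hd : D2x.In y β) (hd' : InL 79 y' β') :
    Two (60 / 100) (13 / 100) (30 / 100) T x y β y' β' := by
  have ht : tr 0 (60 / 100) (13 / 100) (30 / 100) x = (60 / 100 - x) / (30 / 100) :=
    tr_c (by norm_num) (by norm_num) (by norm_num) (by push_cast at hx0; linarith only [hx0]) (by push_cast at hx1; linarith only [hx1])
  refine Two.of k16 (by simp only [k16]; norm_num) (by simp only [k16]; norm_num)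
    (by simp only [k16, Cell.e]; push_cast; rw [tr_c (by norm_num) (by norm_num) (by norm_num) (by norm_num) (by norm_num)]; ring) (by simp only [k16, Cell.a]; push_cast; rw [ht]; ring) ?_
  rcases hd' with ⟨g1, hd'⟩ | ⟨g0, g1, hd'⟩ | ⟨g0, hd'⟩
  · exact Cell.two k16l k16m k16A k16B hx0 hx1 ht0 ht1 h0 h1 h0' g1 hd hd'
  · exact Cell.two k16l k16m k16A k16C hx0 hx1 ht0 ht1 h0 h1 g0 g1 hd hd'
  · exact Cell.two k16l k16m k16A k16D hx0 hx1 ht0 ht1 h0 h1 g0 h1' hd hd'

def k17 : Cell :=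
  ⟨5800, 5900, 0, 570, 36, 24, 30, 96, -160, 300, -3247, 6537, 918, 269, 16432, -27453, 17530⟩
theorem k17A : (k17.A D2x 0 80).Side := Pm.sideG
  (c := 0x4080c204060c2040410184080c1820810184080c1840808203040840404102020808103081018404101840808184080c203080c10408101820a10182080c204060c102) (by decide +kernel)
theorem k17B : (k17.B DL 0 40).Side := Pm.sideG
  (c := 0x4080c20406082030810184060820406102030410182) (by decide +kernel)
theorem k17C : (k17.B DM 40 79).Side := Pm.sideG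
  (c := 0x4080820308082040610102) (by decide +kernel)
theorem k17D : (k17.B DL 79 80).Side := Pm.sideG
  (c := 0x183060c101840610203080c082080c201060c203) (by decide +kernel)
theorem k17l : k17.LB := Cell.lb_of (c := 0x8) (by decide +kernel)
theorem k17m : k17.MB := Cell.mb_of (c := 0x880) (by decide +kernel)
theorem r17 {x T y β y' β' : ℝ} (hx0 : ((5800 : ℤ) : ℝ) / 10000 ≤ x) (hx1 : x ≤ ((5900 : ℤ) : ℝ) / 10000)
    (ht0 : ((0 : ℤ) : ℝ) / 10000 ≤ T) (ht1 : T ≤ ((570 : ℤ) : ℝ) / 10000) (h0 : ((0 : ℤ) : ℝ) / 100 ≤ y)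
    (h1 : y ≤ ((80 : ℤ) : ℝ) / 100) (h0' : ((0 : ℤ) : ℝ) / 100 ≤ y') (h1' : y' ≤ ((80 : ℤ) : ℝ) / 100)
    (hd : D2x.In y β) (hd' : InL 79 y' β') :
    Two (60 / 100) (13 / 100) (30 / 100) T x y β y' β' := by
  have ht : tr 0 (60 / 100) (13 / 100) (30 / 100) x = (60 / 100 - x) / (30 / 100) :=
    tr_c (by norm_num) (by norm_num) (by norm_num) (by push_cast at hx0; linarith only [hx0]) (by push_cast at hx1; linarith only [hx1])
  refine Two.of k17 (by simp only [k17]; norm_num) (by simp only [k17]; norm_num)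
    (by simp only [k17, Cell.e]; push_cast; rw [tr_c (by norm_num) (by norm_num) (by norm_num) (by norm_num) (by norm_num)]; ring) (by simp only [k17, Cell.a]; push_cast; rw [ht]; ring) ?_
  rcases hd' with ⟨g1, hd'⟩ | ⟨g0, g1, hd'⟩ | ⟨g0, hd'⟩
  · exact Cell.two k17l k17m k17A k17B hx0 hx1 ht0 ht1 h0 h1 h0' g1 hd hd'
  · exact Cell.two k17l k17m k17A k17C hx0 hx1 ht0 ht1 h0 h1 g0 g1 hd hd'
  · exact Cell.two k17l k17m k17A k17D hx0 hx1 ht0 ht1 h0 h1 g0 h1' hd hd'

def k18 : Cell :=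
  ⟨5900, 6000, 0, 570, 36, 24, 30, 96, -160, 300, -3206, 6466, 918, 269, 18849, -31564, 18664⟩
theorem k18A : (k18.A D2x 0 80).Side := Pm.sideG
  (c := 0x4080c204060c2040410184080c1820810184080c1840810102080c102101010408082040608103081010404102030410203061020206102040608203080c104080c205080c102080c2840608204040c204060c102) (by decide +kernel)
theorem k18B : (k18.B DL 0 40).Side := Pm.sideG
  (c := 0x1020208082030810182080c20404101840608204041020406081040610182) (by decide +kernel)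
theorem k18C : (k18.B DM 40 79).Side := Pm.sideG
  (c := 0x4080820308082040610102) (by decide +kernel)
theorem k18D : (k18.B DL 79 80).Side := Pm.sideG
  (c := 0x60c183040610184080c082080c201060c203) (by decide +kernel)
theorem k18l : k18.LB := Cell.lb_of (c := 0x8) (by decide +kernel)
theorem k18m : k18.MB := Cell.mb_of (c := 0x880) (by decide +kernel)
theorem r18 {x T y β y' β' : ℝ} (hx0 : ((5900 : ℤ) : ℝ) / 10000 ≤ x) (hx1 : x ≤ ((6000 : ℤ) : ℝ) / 10000)
    (ht0 : ((0 : ℤ) : ℝ) / 10000 ≤ T) (ht1 : T ≤ ((570 : ℤ) : ℝ) / 10000) (h0 : ((0 : ℤ) : ℝ) / 100 ≤ y)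
    (h1 : y ≤ ((80 : ℤ) : ℝ) / 100) (h0' : ((0 : ℤ) : ℝ) / 100 ≤ y') (h1' : y' ≤ ((80 : ℤ) : ℝ) / 100)
    (hd : D2x.In y β) (hd' : InL 79 y' β') :
    Two (60 / 100) (13 / 100) (30 / 100) T x y β y' β' := by
  have ht : tr 0 (60 / 100) (13 / 100) (30 / 100) x = (60 / 100 - x) / (30 / 100) :=
    tr_c (by norm_num) (by norm_num) (by norm_num) (by push_cast at hx0; linarith only [hx0]) (by push_cast at hx1; linarith only [hx1])
  refine Two.of k18 (by simp only [k18]; norm_num) (by simp only [k18]; norm_num)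
    (by simp only [k18, Cell.e]; push_cast; rw [tr_c (by norm_num) (by norm_num) (by norm_num) (by norm_num) (by norm_num)]; ring) (by simp only [k18, Cell.a]; push_cast; rw [ht]; ring) ?_
  rcases hd' with ⟨g1, hd'⟩ | ⟨g0, g1, hd'⟩ | ⟨g0, hd'⟩
  · exact Cell.two k18l k18m k18A k18B hx0 hx1 ht0 ht1 h0 h1 h0' g1 hd hd'
  · exact Cell.two k18l k18m k18A k18C hx0 hx1 ht0 ht1 h0 h1 g0 g1 hd hd'
  · exact Cell.two k18l k18m k18A k18D hx0 hx1 ht0 ht1 h0 h1 g0 h1' hd hd'

theorem rows {x T y β y' β' : ℝ} (hx0 : 0 ≤ x) (hx1 : x ≤ 60 / 100) (ht0 : 0 ≤ T) (ht1 : T ≤ 570 / 10000)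
    (h0 : 0 ≤ y) (h1 : y ≤ 8 / 10) (h0' : 0 ≤ y') (h1' : y' ≤ 8 / 10) (hd : D2x.In y β)
    (hd' : InL 77 y' β') (hd2 : 57 / 100 ≤ x → InL 79 y' β') : Two (60 / 100) (13 / 100) (30 / 100) T x y β y' β' := by
  have t0 : ((0 : ℤ) : ℝ) / 10000 ≤ T := by push_cast; linarith only [ht0]
  have t1 : T ≤ ((570 : ℤ) : ℝ) / 10000 := by push_cast; linarith only [ht1]
  have y0 : ((0 : ℤ) : ℝ) / 100 ≤ y := by push_cast; linarith only [h0]
  have y1 : y ≤ ((80 : ℤ) : ℝ) / 100 := by push_cast; linarith only [h1]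
  have y0' : ((0 : ℤ) : ℝ) / 100 ≤ y' := by push_cast; linarith only [h0']
  have y1' : y' ≤ ((80 : ℤ) : ℝ) / 100 := by push_cast; linarith only [h1']
  have g0 : ((0 : ℤ) : ℝ) / 10000 ≤ x := by push_cast; linarith only [hx0]
  rcases le_total x (((50 : ℤ) : ℝ) / 10000) with c0 | g1
  · exact r0 g0 c0 t0 t1 y0 y1 y0' y1' hd hd'
  rcases le_total x (((200 : ℤ) : ℝ) / 10000) with c1 | g2
  · exact r1 g1 c1 t0 t1 y0 y1 y0' y1' hd hd'
  rcases le_total x (((500 : ℤ) : ℝ) / 10000) with c2 | g3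
  · exact r2 g2 c2 t0 t1 y0 y1 y0' y1' hd hd'
  rcases le_total x (((1000 : ℤ) : ℝ) / 10000) with c3 | g4
  · exact r3 g3 c3 t0 t1 y0 y1 y0' y1' hd hd'
  rcases le_total x (((1300 : ℤ) : ℝ) / 10000) with c4 | g5
  · exact r4 g4 c4 t0 t1 y0 y1 y0' y1' hd hd'
  rcases le_total x (((1600 : ℤ) : ℝ) / 10000) with c5 | g6
  · exact r5 g5 c5 t0 t1 y0 y1 y0' y1' hd hd'
  rcases le_total x (((2000 : ℤ) : ℝ) / 10000) with c6 | g7
  · exact r6 g6 c6 t0 t1 y0 y1 y0' y1' hd hd'
  rcases le_total x (((2500 : ℤ) : ℝ) / 10000) with c7 | g8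
  · exact r7 g7 c7 t0 t1 y0 y1 y0' y1' hd hd'
  rcases le_total x (((3000 : ℤ) : ℝ) / 10000) with c8 | g9
  · exact r8 g8 c8 t0 t1 y0 y1 y0' y1' hd hd'
  rcases le_total x (((3500 : ℤ) : ℝ) / 10000) with c9 | g10
  · exact r9 g9 c9 t0 t1 y0 y1 y0' y1' hd hd'
  rcases le_total x (((4000 : ℤ) : ℝ) / 10000) with c10 | g11
  · exact r10 g10 c10 t0 t1 y0 y1 y0' y1' hd hd'
  rcases le_total x (((4500 : ℤ) : ℝ) / 10000) with c11 | g12
  · exact r11 g11 c11 t0 t1 y0 y1 y0' y1' hd hd'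
  rcases le_total x (((5000 : ℤ) : ℝ) / 10000) with c12 | g13
  · exact r12 g12 c12 t0 t1 y0 y1 y0' y1' hd hd'
  rcases le_total x (((5400 : ℤ) : ℝ) / 10000) with c13 | g14
  · exact r13 g13 c13 t0 t1 y0 y1 y0' y1' hd hd'
  rcases le_total x (((5600 : ℤ) : ℝ) / 10000) with c14 | g15
  · exact r14 g14 c14 t0 t1 y0 y1 y0' y1' hd hd'
  rcases le_total x (((5700 : ℤ) : ℝ) / 10000) with c15 | g16
  · exact r15 g15 c15 t0 t1 y0 y1 y0' y1' hd hd'
  rcases le_total x (((5800 : ℤ) : ℝ) / 10000) with c16 | g17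
  · exact r16 g16 c16 t0 t1 y0 y1 y0' y1' hd (hd2 (by push_cast at g16; linarith only [g16]))
  rcases le_total x (((5900 : ℤ) : ℝ) / 10000) with c17 | g18
  · exact r17 g17 c17 t0 t1 y0 y1 y0' y1' hd (hd2 (by push_cast at g17; linarith only [g17]))
  exact r18 g18 (by push_cast; linarith only [hx1]) t0 t1 y0 y1 y0' y1' hd (hd2 (by push_cast at g18; linarith only [g18]))

end R23

end KR

end Pool.Agent.Work.MP_b30479_gt.G2
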