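import Pool.Agent.Work.MP_b30479_gt.G2.WMR2

/-!
# Mirrored paths: rows, kind `E2` (generated)
-/

set_option linter.unusedVariables false
set_option linter.unusedSimpArgs false
set_option linter.unusedTactic false
set_option linter.unreachableTactic false

namespace Pool.Agent.Work.MP_b30479_gt.G2

open VOL NumU

namespace KR

namespace RE2

def k0 : Cell :=
  ⟨0, 50, 450, 850, 15, 1, 1, 0, 16, 10, -296, 0, 1488, 3746, 0, 0, 0⟩
theorem k0B : (k0.S D2).Side := Pm.side
  (ca := 0x8d3)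
  (cb := 0xc828823e388328822883883883838838388808838833238d3322222)
  (cc := 0)
  (cd := 0)
  (ce := 0) (by decide +kernel)
theorem k0l : k0.LB := Cell.lb_of0 (c := 0x880) (by decide +kernel) rfl (by decide) rfl (by
  intro x h0 h1
  simp only [Cell.a, k0]
  push_cast
  constructor <;> linarith only [h0, h1])
theorem k0m : k0.MB := Cell.mb_of (c := 0x8808800) (by decide +kernel)
theorem r0 {x T y β : ℝ} (hx0 : ((0 : ℤ) : ℝ) / 10000 ≤ x) (hx1 : x ≤ ((50 : ℤ) : ℝ) / 10000)
    (ht0 : ((450 : ℤ) : ℝ) / 10000 ≤ T) (ht1 : T ≤ ((850 : ℤ) : ℝ) / 10000) (h0 : 0 ≤ y)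
    (h1 : y ≤ 80 / 100) (hd : D2.In y β) :
    One (60 / 100) (10 / 100) (33 / 100) T x y β := by
  have ht : tr 0 (60 / 100) (10 / 100) (33 / 100) x = x / (10 / 100) :=
    tr_a (by norm_num) (by norm_num) (by norm_num) (by push_cast at hx0; linarith only [hx0]) (by push_cast at hx1; linarith only [hx1])
  refine One.of k0 (by simp only [k0]; norm_num) (by simp only [k0]; norm_num)
    (by simp only [k0, Cell.e]; push_cast; rw [tr_b (by norm_num) (by norm_num) (by norm_num) (by norm_num)]; ring) (by simp only [k0, Cell.a]; push_cast; rw [ht]; ring) ?_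
  exact Cell.one k0l k0m k0B hx0 hx1 ht0 ht1 h0 h1 hd

def k1 : Cell :=
  ⟨50, 200, 450, 850, 15, 1, 1, 0, 16, 10, -119, -35948, 1488, 3746, 0, 0, 0⟩
theorem k1B : (k1.S D2).Side := Pm.side
  (ca := 0)
  (cb := 0xc88338802e388328832883883880838838d33b88388803880d3323d322222)
  (cc := 0)
  (cd := 0)
  (ce := 0) (by decide +kernel)
theorem k1l : k1.LB := Cell.lb_of (c := 0x8880088088000) (by decide +kernel)
theorem k1m : k1.MB := Cell.mb_of (c := 0x8808800) (by decide +kernel)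
theorem r1 {x T y β : ℝ} (hx0 : ((50 : ℤ) : ℝ) / 10000 ≤ x) (hx1 : x ≤ ((200 : ℤ) : ℝ) / 10000)
    (ht0 : ((450 : ℤ) : ℝ) / 10000 ≤ T) (ht1 : T ≤ ((850 : ℤ) : ℝ) / 10000) (h0 : 0 ≤ y)
    (h1 : y ≤ 80 / 100) (hd : D2.In y β) :
    One (60 / 100) (10 / 100) (33 / 100) T x y β := by
  have ht : tr 0 (60 / 100) (10 / 100) (33 / 100) x = x / (10 / 100) :=
    tr_a (by norm_num) (by norm_num) (by norm_num) (by push_cast at hx0; linarith only [hx0]) (by push_cast at hx1; linarith only [hx1])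
  refine One.of k1 (by simp only [k1]; norm_num) (by simp only [k1]; norm_num)
    (by simp only [k1, Cell.e]; push_cast; rw [tr_b (by norm_num) (by norm_num) (by norm_num) (by norm_num)]; ring) (by simp only [k1, Cell.a]; push_cast; rw [ht]; ring) ?_
  exact Cell.one k1l k1m k1B hx0 hx1 ht0 ht1 h0 h1 hd

def k2 : Cell :=
  ⟨200, 500, 450, 850, 15, 1, 1, 0, 16, 10, -345, -25174, 1488, 3746, 0, 0, 0⟩
theorem k2B : (k2.S D2).Side := Pm.side
  (ca := 0)
  (cb := 0xcc8382833e3883e3288083288328838838838888033880d232222)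
  (cc := 0)
  (cd := 0)
  (ce := 0) (by decide +kernel)
theorem k2l : k2.LB := Cell.lb_of (c := 0x8880088088000) (by decide +kernel)
theorem k2m : k2.MB := Cell.mb_of (c := 0x8808800) (by decide +kernel)
theorem r2 {x T y β : ℝ} (hx0 : ((200 : ℤ) : ℝ) / 10000 ≤ x) (hx1 : x ≤ ((500 : ℤ) : ℝ) / 10000)
    (ht0 : ((450 : ℤ) : ℝ) / 10000 ≤ T) (ht1 : T ≤ ((850 : ℤ) : ℝ) / 10000) (h0 : 0 ≤ y)
    (h1 : y ≤ 80 / 100) (hd : D2.In y β) :
    One (60 / 100) (10 / 100) (33 / 100) T x y β := by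
  have ht : tr 0 (60 / 100) (10 / 100) (33 / 100) x = x / (10 / 100) :=
    tr_a (by norm_num) (by norm_num) (by norm_num) (by push_cast at hx0; linarith only [hx0]) (by push_cast at hx1; linarith only [hx1])
  refine One.of k2 (by simp only [k2]; norm_num) (by simp only [k2]; norm_num)
    (by simp only [k2, Cell.e]; push_cast; rw [tr_b (by norm_num) (by norm_num) (by norm_num) (by norm_num)]; ring) (by simp only [k2, Cell.a]; push_cast; rw [ht]; ring) ?_
  exact Cell.one k2l k2m k2B hx0 hx1 ht0 ht1 h0 h1 hd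

def k3 : Cell :=
  ⟨500, 1000, 450, 850, 15, 1, 1, 0, 16, 10, -771, -16923, 1488, 3746, 0, 0, 0⟩
theorem k3B : (k3.S D2).Side := Pm.side
  (ca := 0)
  (cb := 0xcc8383ac83e3a0208c8308323c8c028808332e3880880388032882880328838838880388088033222)
  (cc := 0)
  (cd := 0)
  (ce := 0) (by decide +kernel)
theorem k3l : k3.LB := Cell.lb_of (c := 0x88800880800) (by decide +kernel)
theorem k3m : k3.MB := Cell.mb_of (c := 0x8808800) (by decide +kernel)
theorem r3 {x T y β : ℝ} (hx0 : ((500 : ℤ) : ℝ) / 10000 ≤ x) (hx1 : x ≤ ((1000 : ℤ) : ℝ) / 10000)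
    (ht0 : ((450 : ℤ) : ℝ) / 10000 ≤ T) (ht1 : T ≤ ((850 : ℤ) : ℝ) / 10000) (h0 : 0 ≤ y)
    (h1 : y ≤ 80 / 100) (hd : D2.In y β) :
    One (60 / 100) (10 / 100) (33 / 100) T x y β := by
  have ht : tr 0 (60 / 100) (10 / 100) (33 / 100) x = x / (10 / 100) :=
    tr_a (by norm_num) (by norm_num) (by norm_num) (by push_cast at hx0; linarith only [hx0]) (by push_cast at hx1; linarith only [hx1])
  refine One.of k3 (by simp only [k3]; norm_num) (by simp only [k3]; norm_num)
    (by simp only [k3, Cell.e]; push_cast; rw [tr_b (by norm_num) (by norm_num) (by norm_num) (by norm_num)]; ring) (by simp only [k3, Cell.a]; push_cast; rw [ht]; ring) ?_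
  exact Cell.one k3l k3m k3B hx0 hx1 ht0 ht1 h0 h1 hd

def k4 : Cell :=
  ⟨1000, 1500, 450, 850, 15, 1, 1, 16, 0, 100, -2685, 2610, 1488, 3746, 0, 0, 0⟩
theorem k4B : (k4.S D2).Side := Pm.side
  (ca := 0)
  (cb := 0xcc8383ac83e3a0208c8308323c8c028838332e388283832880832882882882322)
  (cc := 0)
  (cd := 0)
  (ce := 0) (by decide +kernel)
theorem k4l : k4.LB := Cell.lb_of (c := 0x8808800) (by decide +kernel)
theorem k4m : k4.MB := Cell.mb_of (c := 0x8808800) (by decide +kernel)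
theorem r4 {x T y β : ℝ} (hx0 : ((1000 : ℤ) : ℝ) / 10000 ≤ x) (hx1 : x ≤ ((1500 : ℤ) : ℝ) / 10000)
    (ht0 : ((450 : ℤ) : ℝ) / 10000 ≤ T) (ht1 : T ≤ ((850 : ℤ) : ℝ) / 10000) (h0 : 0 ≤ y)
    (h1 : y ≤ 80 / 100) (hd : D2.In y β) :
    One (60 / 100) (10 / 100) (33 / 100) T x y β := by
  have ht : tr 0 (60 / 100) (10 / 100) (33 / 100) x = 1 :=
    tr_b (by norm_num) (by norm_num) (by push_cast at hx0; linarith only [hx0]) (by push_cast at hx1; linarith only [hx1])
  refine One.of k4 (by simp only [k4]; norm_num) (by simp only [k4]; norm_num)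
    (by simp only [k4, Cell.e]; push_cast; rw [tr_b (by norm_num) (by norm_num) (by norm_num) (by norm_num)]; ring) (by simp only [k4, Cell.a]; push_cast; rw [ht]; ring) ?_
  exact Cell.one k4l k4m k4B hx0 hx1 ht0 ht1 h0 h1 hd

def k5 : Cell :=
  ⟨1500, 2000, 450, 850, 15, 1, 1, 16, 0, 100, -2880, 3916, 1488, 3746, 0, 0, 0⟩
theorem k5B : (k5.S D2).Side := Pm.side
  (ca := 0)
  (cb := 0xc8c08383aa82e3a02088c08308323e3cc8803388338e032883838328828328828828322)
  (cc := 0xc8e3a03e3a0)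
  (cd := 0)
  (ce := 0) (by decide +kernel)
theorem k5l : k5.LB := Cell.lb_of (c := 0x8808800) (by decide +kernel)
theorem k5m : k5.MB := Cell.mb_of (c := 0x8808800) (by decide +kernel)
theorem r5 {x T y β : ℝ} (hx0 : ((1500 : ℤ) : ℝ) / 10000 ≤ x) (hx1 : x ≤ ((2000 : ℤ) : ℝ) / 10000)
    (ht0 : ((450 : ℤ) : ℝ) / 10000 ≤ T) (ht1 : T ≤ ((850 : ℤ) : ℝ) / 10000) (h0 : 0 ≤ y)
    (h1 : y ≤ 80 / 100) (hd : D2.In y β) :
    One (60 / 100) (10 / 100) (33 / 100) T x y β := by
  have ht : tr 0 (60 / 100) (10 / 100) (33 / 100) x = 1 :=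
    tr_b (by norm_num) (by norm_num) (by push_cast at hx0; linarith only [hx0]) (by push_cast at hx1; linarith only [hx1])
  refine One.of k5 (by simp only [k5]; norm_num) (by simp only [k5]; norm_num)
    (by simp only [k5, Cell.e]; push_cast; rw [tr_b (by norm_num) (by norm_num) (by norm_num) (by norm_num)]; ring) (by simp only [k5, Cell.a]; push_cast; rw [ht]; ring) ?_
  exact Cell.one k5l k5m k5B hx0 hx1 ht0 ht1 h0 h1 hd

def k6 : Cell :=
  ⟨2000, 2500, 450, 850, 15, 1, 1, 16, 0, 100, -3119, 5115, 1488, 3746, 0, 0, 0⟩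
theorem k6B : (k6.S D2).Side := Pm.side
  (ca := 0)
  (cb := 0xc8803e3c8383e32c838383288383288328808808322)
  (cc := 0xc8833e3)
  (cd := 0xcc8383a08c8308323e3)
  (ce := 0xfe3) (by decide +kernel)
theorem k6l : k6.LB := Cell.lb_of (c := 0x8808800) (by decide +kernel)
theorem k6m : k6.MB := Cell.mb_of (c := 0x8808800) (by decide +kernel)
theorem r6 {x T y β : ℝ} (hx0 : ((2000 : ℤ) : ℝ) / 10000 ≤ x) (hx1 : x ≤ ((2500 : ℤ) : ℝ) / 10000)
    (ht0 : ((450 : ℤ) : ℝ) / 10000 ≤ T) (ht1 : T ≤ ((850 : ℤ) : ℝ) / 10000) (h0 : 0 ≤ y)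
    (h1 : y ≤ 80 / 100) (hd : D2.In y β) :
    One (60 / 100) (10 / 100) (33 / 100) T x y β := by
  have ht : tr 0 (60 / 100) (10 / 100) (33 / 100) x = 1 :=
    tr_b (by norm_num) (by norm_num) (by push_cast at hx0; linarith only [hx0]) (by push_cast at hx1; linarith only [hx1])
  refine One.of k6 (by simp only [k6]; norm_num) (by simp only [k6]; norm_num)
    (by simp only [k6, Cell.e]; push_cast; rw [tr_b (by norm_num) (by norm_num) (by norm_num) (by norm_num)]; ring) (by simp only [k6, Cell.a]; push_cast; rw [ht]; ring) ?_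
  exact Cell.one k6l k6m k6B hx0 hx1 ht0 ht1 h0 h1 hd

def k7 : Cell :=
  ⟨2500, 2700, 450, 850, 15, 1, 1, 16, 0, 100, -3297, 5852, 1488, 3746, 0, 0, 0⟩
theorem k7B : (k7.S D2).Side := Pm.side
  (ca := 0)
  (cb := 0xc8383e38838823288383288328832888222)
  (cc := 0xc83e3)
  (cd := 0xc8833e3c83e32)
  (ce := 0xfe3) (by decide +kernel)
theorem k7l : k7.LB := Cell.lb_of (c := 0x8) (by decide +kernel)
theorem k7m : k7.MB := Cell.mb_of (c := 0x8808800) (by decide +kernel)
theorem r7 {x T y β : ℝ} (hx0 : ((2500 : ℤ) : ℝ) / 10000 ≤ x) (hx1 : x ≤ ((2700 : ℤ) : ℝ) / 10000)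
    (ht0 : ((450 : ℤ) : ℝ) / 10000 ≤ T) (ht1 : T ≤ ((850 : ℤ) : ℝ) / 10000) (h0 : 0 ≤ y)
    (h1 : y ≤ 80 / 100) (hd : D2.In y β) :
    One (60 / 100) (10 / 100) (33 / 100) T x y β := by
  have ht : tr 0 (60 / 100) (10 / 100) (33 / 100) x = 1 :=
    tr_b (by norm_num) (by norm_num) (by push_cast at hx0; linarith only [hx0]) (by push_cast at hx1; linarith only [hx1])
  refine One.of k7 (by simp only [k7]; norm_num) (by simp only [k7]; norm_num)
    (by simp only [k7, Cell.e]; push_cast; rw [tr_b (by norm_num) (by norm_num) (by norm_num) (by norm_num)]; ring) (by simp only [k7, Cell.a]; push_cast; rw [ht]; ring) ?_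
  exact Cell.one k7l k7m k7B hx0 hx1 ht0 ht1 h0 h1 hd

def k8 : Cell :=
  ⟨2700, 3000, 450, 850, 15, 1, 1, 96, -160, 330, -3830, 7830, 1488, 3746, 0, 0, 0⟩
theorem k8B : (k8.S D2).Side := Pm.side
  (ca := 0)
  (cb := 0x8838e3e338838823288383288328832888222)
  (cc := 0x883e3)
  (cd := 0xcc8382833c838c08322e3)
  (ce := 0xfe3) (by decide +kernel)
theorem k8l : k8.LB := Cell.lb_of (c := 0x880) (by decide +kernel)
theorem k8m : k8.MB := Cell.mb_of (c := 0x8808800) (by decide +kernel)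
theorem r8 {x T y β : ℝ} (hx0 : ((2700 : ℤ) : ℝ) / 10000 ≤ x) (hx1 : x ≤ ((3000 : ℤ) : ℝ) / 10000)
    (ht0 : ((450 : ℤ) : ℝ) / 10000 ≤ T) (ht1 : T ≤ ((850 : ℤ) : ℝ) / 10000) (h0 : 0 ≤ y)
    (h1 : y ≤ 80 / 100) (hd : D2.In y β) :
    One (60 / 100) (10 / 100) (33 / 100) T x y β := by
  have ht : tr 0 (60 / 100) (10 / 100) (33 / 100) x = (60 / 100 - x) / (33 / 100) :=
    tr_c (by norm_num) (by norm_num) (by norm_num) (by push_cast at hx0; linarith only [hx0]) (by push_cast at hx1; linarith only [hx1])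
  refine One.of k8 (by simp only [k8]; norm_num) (by simp only [k8]; norm_num)
    (by simp only [k8, Cell.e]; push_cast; rw [tr_b (by norm_num) (by norm_num) (by norm_num) (by norm_num)]; ring) (by simp only [k8, Cell.a]; push_cast; rw [ht]; ring) ?_
  exact Cell.one k8l k8m k8B hx0 hx1 ht0 ht1 h0 h1 hd

def k9 : Cell :=
  ⟨3000, 3500, 450, 850, 18, 1, 1, 96, -160, 330, -3772, 7634, 1511, 3062, 0, 0, 0⟩
theorem k9B : (k9.S D2).Side := Pm.side
  (ca := 0)
  (cb := 0x88388382e3e338838823288383288328832888222)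
  (cc := 0x8838e3e33)
  (cd := 0xcc8803c8322c8c02c08a82082a8a082a02038c838202e82e0e388820238808223ee88e3e3222f33)
  (ce := 0xfee8fe3e3222e33) (by decide +kernel)
theorem k9l : k9.LB := Cell.lb_of (c := 0x880) (by decide +kernel)
theorem k9m : k9.MB := Cell.mb_of (c := 0x8808800) (by decide +kernel)
theorem r9 {x T y β : ℝ} (hx0 : ((3000 : ℤ) : ℝ) / 10000 ≤ x) (hx1 : x ≤ ((3500 : ℤ) : ℝ) / 10000)
    (ht0 : ((450 : ℤ) : ℝ) / 10000 ≤ T) (ht1 : T ≤ ((850 : ℤ) : ℝ) / 10000) (h0 : 0 ≤ y)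
    (h1 : y ≤ 80 / 100) (hd : D2.In y β) :
    One (60 / 100) (10 / 100) (33 / 100) T x y β := by
  have ht : tr 0 (60 / 100) (10 / 100) (33 / 100) x = (60 / 100 - x) / (33 / 100) :=
    tr_c (by norm_num) (by norm_num) (by norm_num) (by push_cast at hx0; linarith only [hx0]) (by push_cast at hx1; linarith only [hx1])
  refine One.of k9 (by simp only [k9]; norm_num) (by simp only [k9]; norm_num)
    (by simp only [k9, Cell.e]; push_cast; rw [tr_b (by norm_num) (by norm_num) (by norm_num) (by norm_num)]; ring) (by simp only [k9, Cell.a]; push_cast; rw [ht]; ring) ?_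
  exact Cell.one k9l k9m k9B hx0 hx1 ht0 ht1 h0 h1 hd

def k10 : Cell :=
  ⟨3500, 4000, 450, 850, 18, 1, 1, 96, -160, 330, -3713, 7468, 1511, 3062, 0, 0, 0⟩
theorem k10B : (k10.S D2).Side := Pm.side
  (ca := 0)
  (cb := 0x888338808e03e338838e3328838803288383288328832888222)
  (cc := 0x88803883e33)
  (cd := 0xcc83c02c8388222c82c08a82082a8a8202038e082e8e020e338880828302888832223e888883222f32f33)
  (ce := 0xfe888882222e32e33) (by decide +kernel)
theorem k10l : k10.LB := Cell.lb_of (c := 0x880) (by decide +kernel)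
theorem k10m : k10.MB := Cell.mb_of (c := 0x8808800) (by decide +kernel)
theorem r10 {x T y β : ℝ} (hx0 : ((3500 : ℤ) : ℝ) / 10000 ≤ x) (hx1 : x ≤ ((4000 : ℤ) : ℝ) / 10000)
    (ht0 : ((450 : ℤ) : ℝ) / 10000 ≤ T) (ht1 : T ≤ ((850 : ℤ) : ℝ) / 10000) (h0 : 0 ≤ y)
    (h1 : y ≤ 80 / 100) (hd : D2.In y β) :
    One (60 / 100) (10 / 100) (33 / 100) T x y β := by
  have ht : tr 0 (60 / 100) (10 / 100) (33 / 100) x = (60 / 100 - x) / (33 / 100) :=
    tr_c (by norm_num) (by norm_num) (by norm_num) (by push_cast at hx0; linarith only [hx0]) (by push_cast at hx1; linarith only [hx1])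
  refine One.of k10 (by simp only [k10]; norm_num) (by simp only [k10]; norm_num)
    (by simp only [k10, Cell.e]; push_cast; rw [tr_b (by norm_num) (by norm_num) (by norm_num) (by norm_num)]; ring) (by simp only [k10, Cell.a]; push_cast; rw [ht]; ring) ?_
  exact Cell.one k10l k10m k10B hx0 hx1 ht0 ht1 h0 h1 hd

def k11 : Cell :=
  ⟨4000, 4500, 450, 850, 18, 1, 1, 96, -160, 330, -3655, 7323, 1511, 3062, 0, 0, 0⟩
theorem k11B : (k11.S D2).Side := Pm.side
  (ca := 0)
  (cb := 0x888803388083e338838e332883883328838328832883288088222)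
  (cc := 0x88833883e33)
  (cd := 0xcc8c02c08ce8e023082a8a0a02038c88a082038802028e0e088e08202e333c8c08238808332c838388388388883332222e8288882222f3f3f33)
  (ce := 0xfe82888883832222e33) (by decide +kernel)
theorem k11l : k11.LB := Cell.lb_of (c := 0x880) (by decide +kernel)
theorem k11m : k11.MB := Cell.mb_of (c := 0x8808800) (by decide +kernel)
theorem r11 {x T y β : ℝ} (hx0 : ((4000 : ℤ) : ℝ) / 10000 ≤ x) (hx1 : x ≤ ((4500 : ℤ) : ℝ) / 10000)
    (ht0 : ((450 : ℤ) : ℝ) / 10000 ≤ T) (ht1 : T ≤ ((850 : ℤ) : ℝ) / 10000) (h0 : 0 ≤ y)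
    (h1 : y ≤ 80 / 100) (hd : D2.In y β) :
    One (60 / 100) (10 / 100) (33 / 100) T x y β := by
  have ht : tr 0 (60 / 100) (10 / 100) (33 / 100) x = (60 / 100 - x) / (33 / 100) :=
    tr_c (by norm_num) (by norm_num) (by norm_num) (by push_cast at hx0; linarith only [hx0]) (by push_cast at hx1; linarith only [hx1])
  refine One.of k11 (by simp only [k11]; norm_num) (by simp only [k11]; norm_num)
    (by simp only [k11, Cell.e]; push_cast; rw [tr_b (by norm_num) (by norm_num) (by norm_num) (by norm_num)]; ring) (by simp only [k11, Cell.a]; push_cast; rw [ht]; ring) ?_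
  exact Cell.one k11l k11m k11B hx0 hx1 ht0 ht1 h0 h1 hd

def k12 : Cell :=
  ⟨4500, 5000, 450, 850, 18, 1, 1, 96, -160, 330, -3578, 7151, 1511, 3062, 0, 0, 0⟩
theorem k12B : (k12.S D2).Side := Pm.side
  (ca := 0)
  (cb := 0x88880833388383833883883328838328832883288288322)
  (cc := 0x88833883833)
  (cd := 0xcc82c08a82082a8a082a020388c8308202e82e0e388800233c880388032883883883888808803332222fffe888822220f30f30f3f3f33)
  (ce := 0xfffe8e02828888802222333e82888e388083838322223) (by decide +kernel)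
theorem k12l : k12.LB := Cell.lb_of (c := 0x8) (by decide +kernel)
theorem k12m : k12.MB := Cell.mb_of (c := 0x8808800) (by decide +kernel)
theorem r12 {x T y β : ℝ} (hx0 : ((4500 : ℤ) : ℝ) / 10000 ≤ x) (hx1 : x ≤ ((5000 : ℤ) : ℝ) / 10000)
    (ht0 : ((450 : ℤ) : ℝ) / 10000 ≤ T) (ht1 : T ≤ ((850 : ℤ) : ℝ) / 10000) (h0 : 0 ≤ y)
    (h1 : y ≤ 80 / 100) (hd : D2.In y β) :
    One (60 / 100) (10 / 100) (33 / 100) T x y β := by
  have ht : tr 0 (60 / 100) (10 / 100) (33 / 100) x = (60 / 100 - x) / (33 / 100) :=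
    tr_c (by norm_num) (by norm_num) (by norm_num) (by push_cast at hx0; linarith only [hx0]) (by push_cast at hx1; linarith only [hx1])
  refine One.of k12 (by simp only [k12]; norm_num) (by simp only [k12]; norm_num)
    (by simp only [k12, Cell.e]; push_cast; rw [tr_b (by norm_num) (by norm_num) (by norm_num) (by norm_num)]; ring) (by simp only [k12, Cell.a]; push_cast; rw [ht]; ring) ?_
  exact Cell.one k12l k12m k12B hx0 hx1 ht0 ht1 h0 h1 hd

def k13 : Cell :=
  ⟨5000, 5500, 450, 850, 18, 1, 1, 96, -160, 330, -3462, 6919, 1511, 3062, 0, 0, 0⟩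
theorem k13B : (k13.S D2).Side := Pm.side
  (ca := 0)
  (cb := 0x88808803823883833883883328838328808328832882832)
  (cc := 0x88833883833)
  (cd := 0xcc82c08a82082a880c8c020880e8a0203880c8c020880e8a020312038e082e0e333c8383c8c0838382302c83832883883883888808833232222f3)
  (ce := 0xff8e082e0e3828288888832222233e82888808838322223) (by decide +kernel)
theorem k13l : k13.LB := Cell.lb_of (c := 0x8) (by decide +kernel)
theorem k13m : k13.MB := Cell.mb_of (c := 0x8808800) (by decide +kernel)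
theorem r13 {x T y β : ℝ} (hx0 : ((5000 : ℤ) : ℝ) / 10000 ≤ x) (hx1 : x ≤ ((5500 : ℤ) : ℝ) / 10000)
    (ht0 : ((450 : ℤ) : ℝ) / 10000 ≤ T) (ht1 : T ≤ ((850 : ℤ) : ℝ) / 10000) (h0 : 0 ≤ y)
    (h1 : y ≤ 80 / 100) (hd : D2.In y β) :
    One (60 / 100) (10 / 100) (33 / 100) T x y β := by
  have ht : tr 0 (60 / 100) (10 / 100) (33 / 100) x = (60 / 100 - x) / (33 / 100) :=
    tr_c (by norm_num) (by norm_num) (by norm_num) (by push_cast at hx0; linarith only [hx0]) (by push_cast at hx1; linarith only [hx1])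
  refine One.of k13 (by simp only [k13]; norm_num) (by simp only [k13]; norm_num)
    (by simp only [k13, Cell.e]; push_cast; rw [tr_b (by norm_num) (by norm_num) (by norm_num) (by norm_num)]; ring) (by simp only [k13, Cell.a]; push_cast; rw [ht]; ring) ?_
  exact Cell.one k13l k13m k13B hx0 hx1 ht0 ht1 h0 h1 hd

def k14 : Cell :=
  ⟨5500, 5750, 450, 850, 18, 1, 1, 96, -160, 330, -3341, 6699, 1511, 3062, 0, 0, 0⟩
theorem k14B : (k14.S D2).Side := Pm.side
  (ca := 0)
  (cb := 0x8882882382388338838328828328832882832)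
  (cc := 0x888338833)
  (cd := 0xcc8383ac83e32088323c83832880832882883883888828803232222f3)
  (ce := 0xf8f083fe308802828288888f08803222223e8288888322223) (by decide +kernel)
theorem k14l : k14.LB := Cell.lb_of (c := 0x8) (by decide +kernel)
theorem k14m : k14.MB := Cell.mb_of (c := 0x8808800) (by decide +kernel)
theorem r14 {x T y β : ℝ} (hx0 : ((5500 : ℤ) : ℝ) / 10000 ≤ x) (hx1 : x ≤ ((5750 : ℤ) : ℝ) / 10000)
    (ht0 : ((450 : ℤ) : ℝ) / 10000 ≤ T) (ht1 : T ≤ ((850 : ℤ) : ℝ) / 10000) (h0 : 0 ≤ y)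
    (h1 : y ≤ 80 / 100) (hd : D2.In y β) :
    One (60 / 100) (10 / 100) (33 / 100) T x y β := by
  have ht : tr 0 (60 / 100) (10 / 100) (33 / 100) x = (60 / 100 - x) / (33 / 100) :=
    tr_c (by norm_num) (by norm_num) (by norm_num) (by push_cast at hx0; linarith only [hx0]) (by push_cast at hx1; linarith only [hx1])
  refine One.of k14 (by simp only [k14]; norm_num) (by simp only [k14]; norm_num)
    (by simp only [k14, Cell.e]; push_cast; rw [tr_b (by norm_num) (by norm_num) (by norm_num) (by norm_num)]; ring) (by simp only [k14, Cell.a]; push_cast; rw [ht]; ring) ?_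
  exact Cell.one k14l k14m k14B hx0 hx1 ht0 ht1 h0 h1 hd

def k15 : Cell :=
  ⟨5750, 6000, 450, 850, 18, 1, 1, 96, -160, 330, -3240, 6524, 1511, 3062, 0, 0, 0⟩
theorem k15B : (k15.S D2).Side := Pm.side
  (ca := 0)
  (cb := 0x8882882382383883832883832880832882832)
  (cc := 0x8883383)
  (cd := 0xcc8a820382f33c838328832882883883888822f332222f3)
  (ce := 0xff8383af83e3208802828288888808803222223e82888822223) (by decide +kernel)
theorem k15l : k15.LB := Cell.lb_of (c := 0x8) (by decide +kernel)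
theorem k15m : k15.MB := Cell.mb_of (c := 0x8808800) (by decide +kernel)
theorem r15 {x T y β : ℝ} (hx0 : ((5750 : ℤ) : ℝ) / 10000 ≤ x) (hx1 : x ≤ ((6000 : ℤ) : ℝ) / 10000)
    (ht0 : ((450 : ℤ) : ℝ) / 10000 ≤ T) (ht1 : T ≤ ((850 : ℤ) : ℝ) / 10000) (h0 : 0 ≤ y)
    (h1 : y ≤ 80 / 100) (hd : D2.In y β) :
    One (60 / 100) (10 / 100) (33 / 100) T x y β := by
  have ht : tr 0 (60 / 100) (10 / 100) (33 / 100) x = (60 / 100 - x) / (33 / 100) :=
    tr_c (by norm_num) (by norm_num) (by norm_num) (by push_cast at hx0; linarith only [hx0]) (by push_cast at hx1; linarith only [hx1])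
  refine One.of k15 (by simp only [k15]; norm_num) (by simp only [k15]; norm_num)
    (by simp only [k15, Cell.e]; push_cast; rw [tr_b (by norm_num) (by norm_num) (by norm_num) (by norm_num)]; ring) (by simp only [k15, Cell.a]; push_cast; rw [ht]; ring) ?_
  exact Cell.one k15l k15m k15B hx0 hx1 ht0 ht1 h0 h1 hd

theorem rows {x T y β : ℝ} (hx0 : 0 ≤ x) (hx1 : x ≤ 60 / 100) (ht0 : 450 / 10000 ≤ T) (ht1 : T ≤ 850 / 10000)
    (h0 : 0 ≤ y) (h1 : y ≤ 8 / 10) (hd : D2.In y β) : One (60 / 100) (10 / 100) (33 / 100) T x y β := by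
  have t0 : ((450 : ℤ) : ℝ) / 10000 ≤ T := by push_cast; linarith only [ht0]
  have t1 : T ≤ ((850 : ℤ) : ℝ) / 10000 := by push_cast; linarith only [ht1]
  have g0 : ((0 : ℤ) : ℝ) / 10000 ≤ x := by push_cast; linarith only [hx0]
  rcases le_total x (((50 : ℤ) : ℝ) / 10000) with c0 | g1
  · exact r0 g0 c0 t0 t1 h0 (by linarith only [h1]) hd
  rcases le_total x (((200 : ℤ) : ℝ) / 10000) with c1 | g2
  · exact r1 g1 c1 t0 t1 h0 (by linarith only [h1]) hd
  rcases le_total x (((500 : ℤ) : ℝ) / 10000) with c2 | g3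
  · exact r2 g2 c2 t0 t1 h0 (by linarith only [h1]) hd
  rcases le_total x (((1000 : ℤ) : ℝ) / 10000) with c3 | g4
  · exact r3 g3 c3 t0 t1 h0 (by linarith only [h1]) hd
  rcases le_total x (((1500 : ℤ) : ℝ) / 10000) with c4 | g5
  · exact r4 g4 c4 t0 t1 h0 (by linarith only [h1]) hd
  rcases le_total x (((2000 : ℤ) : ℝ) / 10000) with c5 | g6
  · exact r5 g5 c5 t0 t1 h0 (by linarith only [h1]) hd
  rcases le_total x (((2500 : ℤ) : ℝ) / 10000) with c6 | g7
  · exact r6 g6 c6 t0 t1 h0 (by linarith only [h1]) hd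
  rcases le_total x (((2700 : ℤ) : ℝ) / 10000) with c7 | g8
  · exact r7 g7 c7 t0 t1 h0 (by linarith only [h1]) hd
  rcases le_total x (((3000 : ℤ) : ℝ) / 10000) with c8 | g9
  · exact r8 g8 c8 t0 t1 h0 (by linarith only [h1]) hd
  rcases le_total x (((3500 : ℤ) : ℝ) / 10000) with c9 | g10
  · exact r9 g9 c9 t0 t1 h0 (by linarith only [h1]) hd
  rcases le_total x (((4000 : ℤ) : ℝ) / 10000) with c10 | g11
  · exact r10 g10 c10 t0 t1 h0 (by linarith only [h1]) hd
  rcases le_total x (((4500 : ℤ) : ℝ) / 10000) with c11 | g12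
  · exact r11 g11 c11 t0 t1 h0 (by linarith only [h1]) hd
  rcases le_total x (((5000 : ℤ) : ℝ) / 10000) with c12 | g13
  · exact r12 g12 c12 t0 t1 h0 (by linarith only [h1]) hd
  rcases le_total x (((5500 : ℤ) : ℝ) / 10000) with c13 | g14
  · exact r13 g13 c13 t0 t1 h0 (by linarith only [h1]) hd
  rcases le_total x (((5750 : ℤ) : ℝ) / 10000) with c14 | g15
  · exact r14 g14 c14 t0 t1 h0 (by linarith only [h1]) hd
  exact r15 g15 (by push_cast; linarith only [hx1]) t0 t1 h0 (by linarith only [h1]) hd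

end RE2

end KR

end Pool.Agent.Work.MP_b30479_gt.G2
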