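import Pool.Agent.Work.MP_b30479_gt.G2.WMRK
import Pool.Agent.Work.MP_b30479_gt.G2.WMRE2
import Pool.Agent.Work.MP_b30479_gt.G2.WLocA
import Pool.Agent.Work.MP_b30479_gt.G2.WRnd

/-!
# Mirrored paths: the kind `2` at an end `| 2`
-/

namespace Pool.Agent.Work.MP_b30479_gt.G2

open Finset VOL Filter Topology

namespace SR

variable {M : ℕ} {b : Fin (M + 1) → ℤ} {zs : DD (tyW b) ⊕ ZZ (tyW b) → ℂ}

/-- **Kind `2` at an end `| 2`.** -/
theorem kind_twoE_two (hb : ClassW b) (L : LocA b zs) (s : Fin 3) : Kd b zs .twoE .two s := by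
  intro R nb z p h i j x hN hM hq D hi hj
  obtain ⟨h2, j2, A2⟩ := D.adj.symm.other' b (clsW_inner hb (Or.inr (Or.inl hj)))
  obtain ⟨w0, w1, d2⟩ := (hM.npos hb hN hq D.adj.symm D.nn A2).d2 hb L.L A2 hj
  have hT := Th_mem hb L.L D.adj D.ri
  rw [hi, hj] at hT
  simp only [hbox] at hT
  have hX := par_twoE_two D.adj hi hj
  have hx1 := D.x1
  rw [hX.1] at hx1
  have h16 := mhs_adj D.adj (fun h3 => by rw [hi] at h3; exact absurd h3.2 (by decide))
    (fun h3 => by rw [hj] at h3; exact absurd h3.2 (by decide)) s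
  exact D.one hb hN hM hX h16 hi (fun c => keep_two hb D.adj.symm (Or.inl hj))
    (KR.RE2.rows D.x0.le hx1.le (by linarith [hT.1]) (by linarith [hT.2]) w0 w1 d2)

end SR

end Pool.Agent.Work.MP_b30479_gt.G2
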