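import Pool.Agent.Work.MP_b30479_gt.G2.WMRY
import Pool.Agent.Work.MP_b30479_gt.G2.WMR23
import Pool.Agent.Work.MP_b30479_gt.G2.WM_22
import Pool.Agent.Work.MP_b30479_gt.G2.WM_2e2
import Pool.Agent.Work.MP_b30479_gt.G2.RngR

/-!
# Mirrored paths: the kind `2 | 3`, slot `2` of the `3`
-/

namespace Pool.Agent.Work.MP_b30479_gt.G2

open Finset VOL Filter Topology

namespace SR

variable {M : ℕ} {b : Fin (M + 1) → ℤ} {zs : DD (tyW b) ⊕ ZZ (tyW b) → ℂ}

/-- **The other hinge of a region with two crossings**, modes from above only at a digit `1`. -/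
theorem NPos.d2x {nb : Finset (DD (tyW b) ⊕ ZZ (tyW b))} {z : DD (tyW b) ⊕ ZZ (tyW b) → ℂ}
    {p : DD (tyW b) → ℝ} {h' : Fin M} {i j' : Fin (M + 1)} {s : Fin 3} (hb : ClassW b)
    (hL : Loc b zs) (A' : Adj h' i s j') (hi : clsW b i = .two)
    (h0 : NPos b zs nb p h' i s (Ow b z i s))
    (K : clsW b j' ≠ .one → clsW b j' ≠ .ring → ∀ x, ¬ Md b zs nb z p h' j' s.rev i x) :
    0 ≤ (Ow b z i s).re ∧ (Ow b z i s).re ≤ 8 / 10 ∧
      KR.D2x.In (Ow b z i s).re (Ow b z i s).im := by
  obtain ⟨y0, y1, g1, g2, g3, g4, g5, g6⟩ := h0.d2 hb hL A' hi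
  refine ⟨y0, y1, ?_, g2, g3, g4, g5, g6⟩
  have hT := Th_mem hb hL A' (by rw [hi]; decide)
  have hre := h0.re
  have ht := trh_ub (b := b) h' hre.1 hre.2
  rw [hi] at hT
  suffices hs : (Ow b z i s).im ≤ (Ow b z i s).re by
    simp only [KR.D2x]
    push_cast
    linarith only [hs]
  by_cases c1 : clsW b j' = .one
  · have hcl : wcl b h' = 16 / 100 := by
      unfold wcl
      cases A'
      · rw [hi, c1]; rfl
      · rw [hi, c1]; rfl
    have hmh : ∀ q : Fin 3, mhs b h' q = 16 / 100 :=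
      mhs_adj A' (fun h3 => by rw [hi] at h3; exact absurd h3.2 (by decide))
        (fun h3 => by rw [c1] at h3; exact absurd h3.2 (by decide))
    rw [c1] at hT
    simp only [hbox] at hT
    have h3 := h0.two (Hu := 16 / 100) (Hd := 16 / 100) (by norm_num) (by norm_num)
      (by linarith only [hT, hT.2]) (by linarith only [hT, hT.1]) (fun _ => ⟨by rw [hmh], by rw [hmh]⟩)
    rw [hcl] at ht
    linarith only [ht, h3, h3.1, ht.2.2.1]
  by_cases c2 : clsW b j' = .ring
  · have hcl : wcl b h' = 125 / 1000 := by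
      unfold wcl
      cases A'
      · rw [hi, c2]; rfl
      · rw [hi, c2]; rfl
    have hr : RH1 b (.inl h') := by
      cases A'
      · exact Or.inr c2
      · exact Or.inl c2
    rw [c2] at hT
    simp only [hbox] at hT
    have h3 := h0.two' (Hu := 96 / 1000) (Hd := 16 / 100) (by norm_num) (by norm_num)
      (by linarith only [hT, hT.2]) (by linarith only [hT, hT.1]) (fun h4 => absurd hr h4) (fun h4 => absurd hr h4)
    rw [hcl] at ht
    linarith only [y0, ht, h3, h3.1, ht.2.2.1, ht.1]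
  · have h3 := h0.noup hb A' (by rw [hi]; decide) c2 (K c1 c2)
    have hcl : 10 / 100 ≤ wcl b h' := by
      unfold wcl
      cases A' with
      | l =>
        rw [hi]
        rcases hj : clsW b h'.succ <;> simp only [hp, hp1] <;> norm_num
      | r =>
        rw [hi]
        rcases hj : clsW b h'.castSucc <;> simp only [hp, hp1] <;> norm_num
    have hm : max (Th b zs h' i) 0 ≤ 57 / 1000 := by
      refine max_le ?_ (by norm_num)
      rcases hj : clsW b j' <;> rw [hj] at hT <;> simp only [hbox] at hT <;>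
        first | exact absurd hj c1 | exact absurd hj c2 | linarith only [hT, hT.2]
    have h4 := mul_le_mul_of_nonneg_right hm ht.1
    have h5 := mul_le_mul_of_nonneg_right hcl ht.1
    linarith only [y0, ht, h3, h4, h5, ht.2.2.1, ht.1]

/-- **Kind `2 | 3`**, the `3` at its slot `2`. -/
theorem kind_two_three' (hb : ClassW b) (L : LocA b zs) (K1 : Kd b zs .threeE .two 0)
    (K2 : Kd b zs .three .two 0) : Kd b zs .two .three 0 := by
  intro R nb z p h i j x hN hM hq D hi hj
  obtain ⟨m, rfl⟩ : ∃ m : {i : Fin (M + 1) // (tyW b i).isMid = true}, m.1 = j :=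
    ⟨⟨j, tyW_isMid (Or.inl hj)⟩, rfl⟩
  obtain ⟨h1, j1, A1⟩ := D.adj.other' b (clsW_inner hb (Or.inr (Or.inl hi)))
  obtain ⟨y0, y1, d1⟩ := (hM.npos hb hN hq D.adj D.nn A1).d2x hb L.L A1 hi (by
    intro n1 n2 x' D'
    have D2 : Md b zs nb z p h1 j1 0 i x' := D'
    rcases hc : clsW b j1
    · exact n1 hc
    · exact kind_two_two hb L _ hN hM hq D2 hc hi
    · exact kind_twoE_two hb L _ hN hM hq D2 hc hi
    · exact K2 hN hM hq D2 hc hi
    · exact K1 hN hM hq D2 hc hi
    · exact n2 hc)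
  have A2 : Adj h m.1 2 i := D.adj.symm
  have hX := par_three2 A2 hj (by rw [hi]; decide)
  have hx1 := D.x1
  rw [hX.1] at hx1
  have h16 := mhs_adj D.adj (fun h3 => by rw [hi] at h3; exact absurd h3.2 (by decide))
    (fun h3 => absurd h3.1 (by decide)) 0
  have ho : Ow b z m.1 2 = ⟨x, 16 / 100 * trh b h x⟩ := by
    have h3 := D.opp
    rw [h16] at h3
    exact h3
  obtain ⟨w0, w1, -⟩ := (hM.ipos hN m A2 D.nn).2.dl hb L.L m hj
  obtain ⟨l1, l2⟩ := ipos_inL hb L.L hN hM hq m hj A2 D.nn hX D.x0.le hx1.le ho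
  have hT := Th_mem hb L.L D.adj D.ri
  rw [hi, hj] at hT
  have A3 := D.adj
  have hT2 : Th b zs h i ≤ 57 / 1000 := by
    simp only [hbox] at hT
    exact hT.2
  exact D.two hb hN hM hX h16 (fun c => keep_two hb D.adj (Or.inl hi))
    (fun c => side_three2 hb A2 hj c)
    (KR.R23.rows D.x0.le hx1.le D.T0 (by linarith only [hT2]) y0 y1 w0 w1 d1 l1 l2)

end SR

end Pool.Agent.Work.MP_b30479_gt.G2
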