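import Pool.Agent.Work.MP_b30479_gt.G2.WM_2_3aV
import Pool.Agent.Work.MP_b30479_gt.G2.V2A
import Pool.Agent.Work.MP_b30479_gt.G2.WLocA

/-!
# Mirrored paths: the kind `2 | 3`, slot `0` of the `3`
-/

namespace Pool.Agent.Work.MP_b30479_gt.G2

open Finset VOL Filter Topology

namespace SR

variable {M : ℕ} {b : Fin (M + 1) → ℤ} {zs : DD (tyW b) ⊕ ZZ (tyW b) → ℂ}
variable {R : Finset (DD (tyW b))} {nb : Finset (DD (tyW b) ⊕ ZZ (tyW b))}
variable {z : DD (tyW b) ⊕ ZZ (tyW b) → ℂ} {p : DD (tyW b) → ℝ}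
variable {h h' : Fin M} {i j j' : Fin (M + 1)} {s : Fin 3} {x c : ℝ}

/-- the hinge in the slot `0` of a `2` -/
theorem NPos.k2 (hb : ClassW b) (hL : Loc b zs) (A' : Adj h' i 0 j') (hi : clsW b i = .two) {X : ℂ}
    (h0 : NPos b zs nb p h' i 0 X) : 0 ≤ X.re ∧ X.re ≤ 8 / 10 ∧
      |X.im| ≤ 16 / 100 * tr 0 (8 / 10) (1 / 10) (29 / 100) X.re := by
  have hT := Th_mem hb hL A' (by rw [hi]; decide)
  have hre := h0.re
  have ht := trh_ub (b := b) h' hre.1 hre.2
  rw [hi] at hT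
  have hH : |Th b zs h' i| ≤ 16 / 100 := by
    rw [abs_le]
    rcases hj : clsW b j' <;> rw [hj] at hT <;> simp only [hbox] at hT <;>
      constructor <;> linarith only [hT, hT.1, hT.2]
  cases A' with
  | r =>
    have hm : ∀ q, mhs b h' q = 16 / 100 := fun q => mhs_16 q (by rw [hi]; decide)
    have h3 := h0.abs_im hH fun _ => ⟨(hm _).le, (hm _).le⟩
    unfold wXM wcl wcr at ht
    unfold wXM at hre
    rw [hi] at ht hre
    have key : 1 / 10 * trh b h' X.re ≤ X.re ∧ 29 / 100 * trh b h' X.re ≤ 8 / 10 - X.re ∧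
        X.re ≤ 8 / 10 := by
      rcases hj : clsW b h'.castSucc <;> rw [hj] at ht hre <;> simp only [hp, hp1] at ht hre <;>
        refine ⟨?_, ?_, ?_⟩ <;> linarith only [hre, ht, ht.1, ht.2.1, ht.2.2.1, ht.2.2.2, hre.1, hre.2]
    refine ⟨hre.1, key.2.2, h3.trans ?_⟩
    refine KE.le_tr (by norm_num) (by norm_num) ?_ ?_ ?_ (by norm_num)
    · linarith only [ht, ht.2.1]
    · linarith only [key, key.1]
    · linarith only [key, key.2.1]

theorem par_two3a (A : Adj h i 2 j) (hi : clsW b i = .two) (hj : clsW b j = .three) :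
    wXM b h = 60 / 100 ∧ wcl b h = 12 / 100 ∧ wcr b h = 27 / 100 := by
  unfold wXM wcl wcr
  cases A
  rw [hi, hj]
  exact ⟨rfl, rfl, rfl⟩

theorem mhs_two3a (A : Adj h i 2 j) (hi : clsW b i = .two) (hj : clsW b j = .three) :
    mhs b h 2 = 3 / 10 := by
  cases A
  simp [mhs, hi, hj]

theorem mw2_in {k : Cl} {m t : ℝ} (h0 : (mw2 k).In m t) :
    -(89 / 1000) ≤ m ∧ m ≤ -(13 / 1000) ∧ -(53 / 1000) ≤ t := by
  obtain ⟨a1, a2, -, -, a3, -⟩ := h0
  cases k <;> simp only [mw2] at a1 a2 a3 <;> refine ⟨?_, ?_, ?_⟩ <;> linarith only [a1, a2, a3]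

/-- **Kind `2 | 3`**, the `3` at its slot `0`. -/
theorem kind_two_three (hb : ClassW b) (L : LocA b zs) : Kd b zs .two .three 2 := by
  intro R nb z p h i j x hN hM hq D hi hj
  obtain ⟨m, rfl⟩ : ∃ m : {i : Fin (M + 1) // (tyW b i).isMid = true}, m.1 = j :=
    ⟨⟨j, tyW_isMid (Or.inl hj)⟩, rfl⟩
  have Aj : Adj h m.1 0 i := D.adj.symm
  obtain ⟨hnn, I⟩ := hM.ipos hN m D.adj.symm D.nn
  obtain ⟨h1, j1, A1⟩ := D.adj.other' b (clsW_inner hb (Or.inr (Or.inl hi)))
  obtain ⟨k0, k1, k2⟩ := (hM.npos hb hN hq D.adj D.nn A1).k2 hb L.L A1 hi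
  obtain ⟨h2, j2, A2⟩ := D.adj.symm.other' b (clsW_inner hb (Or.inr (Or.inr hj)))
  obtain ⟨w0, w1, w2⟩ := (hM.npos hb hN hq D.adj.symm D.nn A2).w3 hb L.L A2 hj
  obtain ⟨l0, l1, T1⟩ := mw2_in (L.D.two m.2 Aj A2 hj hi)
  have l0 : -(89 / 1000) ≤ Tm b zs m := l0
  have l1 : Tm b zs m ≤ -(13 / 1000) := l1
  have T1 : Th b zs h i ≤ 53 / 1000 := by
    have h5 : -(53 / 1000) ≤ Th b zs h m.1 := T1
    rw [D.Tj] at h5
    linarith only [h5]
  have T0 := D.T0
  have hX := par_two3a D.adj hi hj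
  have x0 := D.x0.le
  have x1 := D.x1
  rw [hX.1] at x1
  have h30 := mhs_two3a D.adj hi hj
  have y1' : (mp (clsW b m.1)).XM = 8 / 10 := by rw [hj]; rfl
  have eu : Ow b z m.1 0 = ⟨x, mhs b h 2 * trh b h x⟩ := D.opp
  have ev : Ow b z i 2 = ⟨x, -(mhs b h 2 * trh b h x)⟩ := D.own
  rw [h30] at eu ev
  obtain ⟨θ, t0, t1, ek⟩ := KE.par_abs k2
  have ek : Ow b z i 0 = ⟨(Ow b z i 0).re, θ * (16 / 100 * K23.τk (Ow b z i 0).re)⟩ :=
    Complex.ext rfl ek
  have hk0 : 0 ≤ (Ow b z i 0).re := k0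
  have hk1 : (Ow b z i 0).re ≤ 8 / 10 := k1
  -- star moves
  have sK : ∀ {c T' : ℝ}, 0 ≤ c → c ≤ 6 / 10 → Th b zs h i * trh b h c = T' →
      KE.VA ⟨c, -T'⟩ (Ow b z m.1 1) - KE.VA ⟨x, 3 / 10 * trh b h x⟩ (Ow b z m.1 1) +
        (V2 ⟨c, T'⟩ (Ow b z i 0) - V2 ⟨x, -(3 / 10 * trh b h x)⟩ (Ow b z i 0)) +
        2 * Real.pi * (3 / 10 * trh b h x) ≤ 0 := by
    intro c T' c0 c1 e
    have g1 := keep_two (zs := zs) (nb := nb) (z := z) (p := p) (c := c) hb D.adj (Or.inl hi)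
    have g2 := keep_three0 (zs := zs) (nb := nb) (z := z) (p := p) (c := c) hb Aj hj
    have h4 := D.star hb hN.ok.1 hM c0 (by rw [hX.1]; linarith only [c1]) g1 g2
    have e1 : tgo b zs h i c = ⟨c, T'⟩ := by unfold tgo; rw [e]
    have e2 : tgo b zs h m.1 c = ⟨c, -T'⟩ := by unfold tgo; rw [D.Tj, ← e, neg_mul]
    rw [KE.V3_VA, e1, e2, eu, ev, h30] at h4
    have h5 : Ow b z i (2 : Fin 3).rev = Ow b z i 0 := rfl
    rw [h5] at h4
    linarith only [h4]
  have sR : ∀ {c T' : ℝ}, 0 ≤ c → c ≤ 6 / 10 → Th b zs h i * trh b h c = T' →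
      KE.VF ⟨c, -T'⟩ ⟨3 / 10, Tm b zs m⟩ - KE.VF ⟨x, 3 / 10 * trh b h x⟩ (Ow b z m.1 1) +
        (V2 ⟨3 / 10, Tm b zs m⟩ (Ow b z m.1 2) - V2 (Ow b z m.1 1) (Ow b z m.1 2) +
          2 * Real.pi * p (.inr m)) +
        (V2 ⟨c, T'⟩ (Ow b z i 0) - V2 ⟨x, -(3 / 10 * trh b h x)⟩ (Ow b z i 0)) +
        2 * Real.pi * (3 / 10 * trh b h x) ≤ 0 := by
    intro c T' c0 c1 e
    have g1 := keep_two (zs := zs) (nb := nb) (z := z) (p := p) (c := c) hb D.adj (Or.inl hi)
    have g2 := inner_three0 (zs := zs) (nb := nb) (z := z) (p := p) (c := c) hb m Aj hj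
      hnn (c' := 3 / 10) (by norm_num) (by norm_num)
    have h4 := D.star hb hN.ok.1 hM c0 (by rw [hX.1]; linarith only [c1]) g1 g2
    have e1 : tgo b zs h i c = ⟨c, T'⟩ := by unfold tgo; rw [e]
    have e2 : tgo b zs h m.1 c = ⟨c, -T'⟩ := by unfold tgo; rw [D.Tj, ← e, neg_mul]
    rw [KE.V3_VF, KE.V3_VF, e1, e2, tgi_3 m hj (by norm_num) (by norm_num), eu, ev, h30] at h4
    have h5 : Ow b z i (2 : Fin 3).rev = Ow b z i 0 := rfl
    rw [h5] at h4
    linarith only [h4]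
  have eT : Th b zs h i * trh b h (1 / 5) = Th b zs h i := by
    rw [trh_M (by rw [hX.2.1]; norm_num) (by rw [hX.1, hX.2.2]; norm_num), mul_one]
  have eT' : Th b zs h i * trh b h (7 / 20) = 25 / 27 * Th b zs h i := by
    rw [trh_R (by rw [hX.1, hX.2.2]; norm_num) (by rw [hX.1]; norm_num), hX.1, hX.2.2]
    ring
  have sK5 := sK (c := 1 / 5) (by norm_num) (by norm_num) eT
  have sR5 := sR (c := 1 / 5) (by norm_num) (by norm_num) eT
  have sK7 := sK (c := 7 / 20) (by norm_num) (by norm_num) eT'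
  clear sK sR eT eT'
  have etl : ∀ y, trm b m y = K23.τl y := fun y => trm3 m hj y
  rcases le_total x (2 / 5) with hx | hx
  · -- first half of the path
    have eh : trh b h x = K23.τh x := by
      rw [trh_eq hX]
      unfold K23.τh
      norm_num
    have hk := K23.k0_le x0 hx T0 T1 hk0 hk1 t0 t1
    rw [← ek] at hk
    rw [eh] at sK5 sR5
    cases I with
    | main y y0 y1 e hp =>
      rw [y1'] at y1
      rw [etl] at e
      rw [e] at sK5 sR5
      rw [hp] at sR5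
      rcases K23.p0_m x0 hx T0 T1 y0 y1 l0 l1 with hp0 | ⟨hy, hp0⟩
      · linarith only [hk, sK5, hp0]
      · have hf := K23.far_m y0 hy l0 l1 w0 w1 w2
        have hf : K23.sM y (Tm b zs m) < V2 ⟨3 / 10, Tm b zs m⟩ (Ow b z m.1 2) -
          V2 ⟨y, Tm b zs m * K23.τl y⟩ (Ow b z m.1 2) := hf
        linarith only [hk, sR5, hp0, hf]
    | up y y0 y1 hT e hp =>
      rw [y1'] at y1
      rw [etl] at e hp
      rw [e] at sK5 sR5
      rw [hp] at sR5
      rcases K23.p0_u x0 hx T0 T1 y0 y1 l0 l1 with hp0 | hp0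
      · linarith only [hk, sK5, hp0]
      · have hf := K23.far_u y0 y1 l0 l1 w0 w1 w2
        have hf : K23.sU y (Tm b zs m) < V2 ⟨3 / 10, Tm b zs m⟩ (Ow b z m.1 2) -
          V2 ⟨y, 16 / 100 * K23.τl y⟩ (Ow b z m.1 2) + 2 * Real.pi * (16 / 100 * K23.τl y) := hf
        linarith only [hk, sR5, hp0, hf]
    | dn y y0 y1 hT e hp => linarith only [l1, hT]
  -- second half of the path
  obtain ⟨eh, kt⟩ := trh_right (b := b) (h := h) (x := x) (by rw [hX.1, hX.2.2]; linarith only [hx])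
    (by rw [hX.1]; exact x1)
  have eh : 3 / 10 * trh b h x = 10 / 9 * (3 / 5 - x) := by
    rw [eh, hX.1, hX.2.2]
    ring
  have x2 : x < 3 / 5 := by linarith only [x1]
  rw [eh] at sK5 sR5 sK7 eu ev
  -- first order condition
  have foc : (Ow b z i 0).re ≤ 36 / 100 → DOk (Ow b z m.1 1 - Ow b z m.1 0) →
      dh2 ⟨x, -(10 / 9 * (3 / 5 - x))⟩ (Ow b z i 0) (10 / 9) +
        dh3a ⟨x, 10 / 9 * (3 / 5 - x)⟩ (Ow b z m.1 1) (-(10 / 9)) + Real.pi * (20 / 9) = 0 := by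
    intro hy hd
    have a1 := der_two hb D.adj (Or.inl hi) kt D.own' D.ok_own (by
      refine Or.inr ?_
      have h5 : Ow b z i (2 : Fin 3).rev = Ow b z i 0 := rfl
      rw [h5, ev]
      show _ ∧ _
      simp only [Complex.add_re]
      constructor <;> linarith only [hk0, hx, x1, hy])
    have a2 := der_three0 hb hj kt (z := z) (a := mhs b h 2) D.opp D.ok_opp hd
    have a3 := D.foc hb hN.ok.1 hM a1 a2 kt
    have h5 : Ow b z i (2 : Fin 3).rev = Ow b z i 0 := rfl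
    have e1 : -mhs b h 2 * -(1 / wcr b h) = 10 / 9 := by rw [h30, hX.2.2]; norm_num
    have e2 : mhs b h 2 * -(1 / wcr b h) = -(10 / 9) := by rw [h30, hX.2.2]; norm_num
    rw [h5, ev, eu, e1, e2] at a3
    linarith only [a3]
  rcases le_total (Ow b z i 0).re (36 / 100) with hy | hy
  · cases I with
    | main y y0 y1 e hp =>
      rw [y1'] at y1
      rw [etl] at e
      have hd : DOk (Ow b z m.1 1 - Ow b z m.1 0) := by
        refine Or.inl (ne_of_lt ?_)
        rw [e, eu]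
        show Tm b zs m * K23.τl y - 10 / 9 * (3 / 5 - x) < 0
        have hτ : 0 ≤ K23.τl y := (tr_mem _ _ _ _ _).1
        have h5 : 0 ≤ -Tm b zs m * K23.τl y := mul_nonneg (by linarith only [l1]) hτ
        linarith only [x1, h5]
      have hf1 := foc hy hd
      have hk := K23.k1_le hx x2.le T0 T1 hk0 hy t0 t1
      rw [← ek] at hk
      rw [e] at sK5 sR5 hf1
      rw [hp] at sR5
      rcases K23.p1_m hx x2 T0 T1 y0 y1 l0 l1 with hp0 | ⟨hy', hp0⟩
      · linarith only [sK5, hf1, hk, hp0]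
      · have hf := K23.far_m y0 hy' l0 l1 w0 w1 w2
        have hf : K23.sM y (Tm b zs m) < V2 ⟨3 / 10, Tm b zs m⟩ (Ow b z m.1 2) -
          V2 ⟨y, Tm b zs m * K23.τl y⟩ (Ow b z m.1 2) := hf
        linarith only [sR5, hf1, hk, hp0, hf]
    | up y y0 y1 hT e hp =>
      rw [y1'] at y1
      rw [etl] at e hp
      rcases le_total y (73 / 100) with hy' | hy'
      · have hk := K23.k5_le hx x2.le T0 T1 hk0 hk1 t0 t1
        rw [← ek] at hk
        rw [e] at sK5 sR5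
        rw [hp] at sR5
        rcases K23.p5_u hx x2.le T0 T1 y0 hy' l0 l1 with hp0 | hp0
        · linarith only [sK5, hk, hp0]
        · have hf := K23.far_u y0 y1 l0 l1 w0 w1 w2
          have hf : K23.sU y (Tm b zs m) < V2 ⟨3 / 10, Tm b zs m⟩ (Ow b z m.1 2) -
            V2 ⟨y, 16 / 100 * K23.τl y⟩ (Ow b z m.1 2) + 2 * Real.pi * (16 / 100 * K23.τl y) := hf
          linarith only [sR5, hk, hp0, hf]
      · have hd : DOk (Ow b z m.1 1 - Ow b z m.1 0) := by
          refine Or.inr ?_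
          rw [e, eu]
          show _ ∧ _
          simp only [Complex.sub_re]
          constructor <;> linarith only [x1, hy', hx, y1]
        have hf1 := foc hy hd
        have hk := K23.k1_le hx x2.le T0 T1 hk0 hy t0 t1
        rw [← ek] at hk
        rw [e] at sK5 hf1
        have hp0 := K23.p1_u hx x2.le T0 T1 hy' y1
        linarith only [sK5, hf1, hk, hp0]
    | dn y y0 y1 hT e hp => linarith only [l1, hT]
  · cases I with
    | main y y0 y1 e hp =>
      rw [y1'] at y1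
      rw [etl] at e
      rw [e] at sK5 sR5 sK7
      rw [hp] at sR5
      rcases le_total y (38 / 100) with hy' | hy'
      · have hk := K23.k3_le hx x2.le T0 T1 hy hk1 t0 t1
        rw [← ek] at hk
        rcases K23.p3_m hx x2.le T0 T1 y0 hy' l0 l1 with hp0 | ⟨hy', hp0⟩
        · linarith only [sK5, hk, hp0]
        · have hf := K23.far_m y0 hy' l0 l1 w0 w1 w2
          have hf : K23.sM y (Tm b zs m) < V2 ⟨3 / 10, Tm b zs m⟩ (Ow b z m.1 2) -
            V2 ⟨y, Tm b zs m * K23.τl y⟩ (Ow b z m.1 2) := hf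
          linarith only [sR5, hk, hp0, hf]
      · have hk := K23.k4_le hx x2.le T0 T1 hy hk1 t0 t1
        rw [← ek] at hk
        have hp0 := K23.p4_m hx x2.le T0 T1 hy' y1 l0 l1
        linarith only [sK7, hk, hp0]
    | up y y0 y1 hT e hp =>
      rw [y1'] at y1
      rw [etl] at e hp
      rw [e] at sK5 sR5 sK7
      rw [hp] at sR5
      rcases le_total y (73 / 100) with hy' | hy'
      · have hk := K23.k5_le hx x2.le T0 T1 hk0 hk1 t0 t1
        rw [← ek] at hk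
        rcases K23.p5_u hx x2.le T0 T1 y0 hy' l0 l1 with hp0 | hp0
        · linarith only [sK5, hk, hp0]
        · have hf := K23.far_u y0 y1 l0 l1 w0 w1 w2
          have hf : K23.sU y (Tm b zs m) < V2 ⟨3 / 10, Tm b zs m⟩ (Ow b z m.1 2) -
            V2 ⟨y, 16 / 100 * K23.τl y⟩ (Ow b z m.1 2) + 2 * Real.pi * (16 / 100 * K23.τl y) := hf
          linarith only [sR5, hk, hp0, hf]
      · have hk := K23.k4_le hx x2.le T0 T1 hy hk1 t0 t1
        rw [← ek] at hk
        have hp0 := K23.p4_u hx x2.le T0 T1 hy' y1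
        linarith only [sK7, hk, hp0]
    | dn y y0 y1 hT e hp => linarith only [l1, hT]

end SR

end Pool.Agent.Work.MP_b30479_gt.G2
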