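import Pool.Agent.Work.MP_b30479_gt.G2.WM_2e3
import Pool.Agent.Work.MP_b30479_gt.G2.WM_2e_3a

/-!
# Kind `2 | 3` with the `2` at an end: both slots together
-/

open Pool.Agent.Work.NumU Pool.Agent.Work.NumI

namespace Pool.Agent.Work.MP_b30479_gt.G2

namespace SR

variable {M : ℕ} {b : Fin (M + 1) → ℤ} {zs : DD (tyW b) ⊕ ZZ (tyW b) → ℂ}

/-- **Kind `2 | 3`**, the `2` at an end of the block. -/
theorem kind_twoE_three (hb : ClassW b) (L : LocA b zs) (s : Fin 3) : Kd b zs .twoE .three s := by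
  by_cases h2 : s = 2
  · rw [h2]
    exact kind_twoE_three2 hb L
  by_cases h0 : s = 0
  · rw [h0]
    exact kind_twoE_three' hb L
  intro hN hM hq D hi hj
  rcases D.adj.slot with h1 | h1
  · exact absurd h1 h0
  · exact absurd h1 h2

end SR

end Pool.Agent.Work.MP_b30479_gt.G2
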