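import Pool.Agent.Work.MP_b30479_gt.G2.WMR2

/-!
# Mirrored paths: rows, kind `32` (generated)
-/

set_option linter.unusedVariables false
set_option linter.unusedSimpArgs false
set_option linter.unusedTactic false
set_option linter.unreachableTactic false

namespace Pool.Agent.Work.MP_b30479_gt.G2

open VOL NumU

namespace KR

namespace R32

def k0 : Cell :=
  ⟨0, 50, 0, 50, 18, 1, 1, 0, 16, 13, -296, 0, 1608, 124, 0, 58192, 21363⟩
theorem k0A : (k0.A DL 0 80).Side := Pm.side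
  (ca := 0x88d33)
  (cb := 0x888282388282833883288328288288388388388338838833b88833388383d33222222)
  (cc := 0)
  (cd := 0)
  (ce := 0) (by decide +kernel)
theorem k0B : (k0.B D2 0 80).Side := Pm.side
  (ca := 0x8d3)
  (cb := 0xc88288233e3883e3288328832883883883838838d338883888238833238d3322222)
  (cc := 0)
  (cd := 0)
  (ce := 0) (by decide +kernel)
theorem k0l : k0.LB := Cell.lb_of0 (c := 0x880) (by decide +kernel) rfl (by decide) rfl (by
  intro x h0 h1
  simp only [Cell.a, k0]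
  push_cast
  constructor <;> linarith only [h0, h1])
theorem k0m : k0.MB := Cell.mb_of (c := 0x8) (by decide +kernel)
theorem r0 {x T y β y' β' : ℝ} (hx0 : ((0 : ℤ) : ℝ) / 10000 ≤ x) (hx1 : x ≤ ((50 : ℤ) : ℝ) / 10000)
    (ht0 : ((0 : ℤ) : ℝ) / 10000 ≤ T) (ht1 : T ≤ ((50 : ℤ) : ℝ) / 10000) (h0 : ((0 : ℤ) : ℝ) / 100 ≤ y)
    (h1 : y ≤ ((80 : ℤ) : ℝ) / 100) (h0' : ((0 : ℤ) : ℝ) / 100 ≤ y') (h1' : y' ≤ ((80 : ℤ) : ℝ) / 100)
    (hd : DL.In y β) (hd' : D2.In y' β') :
    Two (60 / 100) (13 / 100) (30 / 100) T x y β y' β' := by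
  have ht : tr 0 (60 / 100) (13 / 100) (30 / 100) x = x / (13 / 100) :=
    tr_a (by norm_num) (by norm_num) (by norm_num) (by push_cast at hx0; linarith only [hx0]) (by push_cast at hx1; linarith only [hx1])
  refine Two.of k0 (by simp only [k0]; norm_num) (by simp only [k0]; norm_num)
    (by simp only [k0, Cell.e]; push_cast; rw [tr_b (by norm_num) (by norm_num) (by norm_num) (by norm_num)]; ring) (by simp only [k0, Cell.a]; push_cast; rw [ht]; ring) ?_
  exact Cell.two k0l k0m k0A k0B hx0 hx1 ht0 ht1 h0 h1 h0' h1' hd hd'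

def k1 : Cell :=
  ⟨50, 200, 0, 50, 15, 1, 1, 0, 16, 13, -119, -32434, 1605, 154, 37, 47632, 15449⟩
theorem k1A : (k1.A DL 0 80).Side := Pm.side
  (ca := 0)
  (cb := 0x88282882823882288028828838838838833888338833b8b808803338808383d33222222)
  (cc := 0)
  (cd := 0)
  (ce := 0) (by decide +kernel)
theorem k1B : (k1.B D2 0 80).Side := Pm.side
  (ca := 0)
  (cb := 0xc82880823e388328832888038838838833888038d33b88388833880d803d3323d322222)
  (cc := 0)
  (cd := 0)
  (ce := 0) (by decide +kernel)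
theorem k1l : k1.LB := Cell.lb_of (c := 0x8880088088000) (by decide +kernel)
theorem k1m : k1.MB := Cell.mb_of (c := 0x8) (by decide +kernel)
theorem r1 {x T y β y' β' : ℝ} (hx0 : ((50 : ℤ) : ℝ) / 10000 ≤ x) (hx1 : x ≤ ((200 : ℤ) : ℝ) / 10000)
    (ht0 : ((0 : ℤ) : ℝ) / 10000 ≤ T) (ht1 : T ≤ ((50 : ℤ) : ℝ) / 10000) (h0 : ((0 : ℤ) : ℝ) / 100 ≤ y)
    (h1 : y ≤ ((80 : ℤ) : ℝ) / 100) (h0' : ((0 : ℤ) : ℝ) / 100 ≤ y') (h1' : y' ≤ ((80 : ℤ) : ℝ) / 100)
    (hd : DL.In y β) (hd' : D2.In y' β') :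
    Two (60 / 100) (13 / 100) (30 / 100) T x y β y' β' := by
  have ht : tr 0 (60 / 100) (13 / 100) (30 / 100) x = x / (13 / 100) :=
    tr_a (by norm_num) (by norm_num) (by norm_num) (by push_cast at hx0; linarith only [hx0]) (by push_cast at hx1; linarith only [hx1])
  refine Two.of k1 (by simp only [k1]; norm_num) (by simp only [k1]; norm_num)
    (by simp only [k1, Cell.e]; push_cast; rw [tr_b (by norm_num) (by norm_num) (by norm_num) (by norm_num)]; ring) (by simp only [k1, Cell.a]; push_cast; rw [ht]; ring) ?_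
  exact Cell.two k1l k1m k1A k1B hx0 hx1 ht0 ht1 h0 h1 h0' h1' hd hd'

def k2 : Cell :=
  ⟨200, 500, 0, 50, 15, 1, 1, 0, 16, 13, -343, -21718, 1605, 154, 353, 33644, 8459⟩
theorem k2A : (k2.A DL 0 80).Side := Pm.side
  (ca := 0)
  (cb := 0x8880823880828338832883288228838838838803888b802338b80880323880838332222)
  (cc := 0)
  (cd := 0)
  (ce := 0) (by decide +kernel)
theorem k2B : (k2.B D2 0 80).Side := Pm.side
  (ca := 0)
  (cb := 0xcc838e03823e3883e328828328808823288803888038838833888288803338d3d232222)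
  (cc := 0)
  (cd := 0)
  (ce := 0) (by decide +kernel)
theorem k2l : k2.LB := Cell.lb_of (c := 0x88800880800) (by decide +kernel)
theorem k2m : k2.MB := Cell.mb_of (c := 0x8) (by decide +kernel)
theorem r2 {x T y β y' β' : ℝ} (hx0 : ((200 : ℤ) : ℝ) / 10000 ≤ x) (hx1 : x ≤ ((500 : ℤ) : ℝ) / 10000)
    (ht0 : ((0 : ℤ) : ℝ) / 10000 ≤ T) (ht1 : T ≤ ((50 : ℤ) : ℝ) / 10000) (h0 : ((0 : ℤ) : ℝ) / 100 ≤ y)
    (h1 : y ≤ ((80 : ℤ) : ℝ) / 100) (h0' : ((0 : ℤ) : ℝ) / 100 ≤ y') (h1' : y' ≤ ((80 : ℤ) : ℝ) / 100)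
    (hd : DL.In y β) (hd' : D2.In y' β') :
    Two (60 / 100) (13 / 100) (30 / 100) T x y β y' β' := by
  have ht : tr 0 (60 / 100) (13 / 100) (30 / 100) x = x / (13 / 100) :=
    tr_a (by norm_num) (by norm_num) (by norm_num) (by push_cast at hx0; linarith only [hx0]) (by push_cast at hx1; linarith only [hx1])
  refine Two.of k2 (by simp only [k2]; norm_num) (by simp only [k2]; norm_num)
    (by simp only [k2, Cell.e]; push_cast; rw [tr_b (by norm_num) (by norm_num) (by norm_num) (by norm_num)]; ring) (by simp only [k2, Cell.a]; push_cast; rw [ht]; ring) ?_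
  exact Cell.two k2l k2m k2A k2B hx0 hx1 ht0 ht1 h0 h1 h0' h1' hd hd'

def k3 : Cell :=
  ⟨500, 1000, 0, 50, 15, 1, 1, 0, 16, 13, -756, -13699, 1605, 154, -80, 42203, 9558⟩
theorem k3A : (k3.A DL 0 80).Side := Pm.side
  (ca := 0)
  (cb := 0x8838833a8c08e03a02088803880833288088332883288328808803883838808383bb800b2880880308b280880332880833222)
  (cc := 0)
  (cd := 0)
  (ce := 0) (by decide +kernel)
theorem k3B : (k3.B D2 0 80).Side := Pm.side
  (ca := 0)
  (cb := 0xcc838e03a8e3a020888008803238c088332e38838e3328828823288088038880388803883833222)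
  (cc := 0)
  (cd := 0)
  (ce := 0) (by decide +kernel)
theorem k3l : k3.LB := Cell.lb_of (c := 0x88800880800) (by decide +kernel)
theorem k3m : k3.MB := Cell.mb_of (c := 0x8) (by decide +kernel)
theorem r3 {x T y β y' β' : ℝ} (hx0 : ((500 : ℤ) : ℝ) / 10000 ≤ x) (hx1 : x ≤ ((1000 : ℤ) : ℝ) / 10000)
    (ht0 : ((0 : ℤ) : ℝ) / 10000 ≤ T) (ht1 : T ≤ ((50 : ℤ) : ℝ) / 10000) (h0 : ((0 : ℤ) : ℝ) / 100 ≤ y)
    (h1 : y ≤ ((80 : ℤ) : ℝ) / 100) (h0' : ((0 : ℤ) : ℝ) / 100 ≤ y') (h1' : y' ≤ ((80 : ℤ) : ℝ) / 100)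
    (hd : DL.In y β) (hd' : D2.In y' β') :
    Two (60 / 100) (13 / 100) (30 / 100) T x y β y' β' := by
  have ht : tr 0 (60 / 100) (13 / 100) (30 / 100) x = x / (13 / 100) :=
    tr_a (by norm_num) (by norm_num) (by norm_num) (by push_cast at hx0; linarith only [hx0]) (by push_cast at hx1; linarith only [hx1])
  refine Two.of k3 (by simp only [k3]; norm_num) (by simp only [k3]; norm_num)
    (by simp only [k3, Cell.e]; push_cast; rw [tr_b (by norm_num) (by norm_num) (by norm_num) (by norm_num)]; ring) (by simp only [k3, Cell.a]; push_cast; rw [ht]; ring) ?_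
  exact Cell.two k3l k3m k3A k3B hx0 hx1 ht0 ht1 h0 h1 h0' h1' hd hd'

def k4 : Cell :=
  ⟨1000, 1300, 0, 50, 15, 1, 1, 0, 16, 13, -1209, -8824, 1605, 154, -585, 47220, 10189⟩
theorem k4A : (k4.A DL 0 80).Side := Pm.side
  (ca := 0)
  (cb := 0x888238808283388328832882288288388b283288038803222)
  (cc := 0)
  (cd := 0)
  (ce := 0) (by decide +kernel)
theorem k4B : (k4.B D2 0 80).Side := Pm.side
  (ca := 0)
  (cb := 0xcc8a82038e0388323e388803e3288388032880832883882882322)
  (cc := 0)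
  (cd := 0)
  (ce := 0) (by decide +kernel)
theorem k4l : k4.LB := Cell.lb_of (c := 0x8808800) (by decide +kernel)
theorem k4m : k4.MB := Cell.mb_of (c := 0x8) (by decide +kernel)
theorem r4 {x T y β y' β' : ℝ} (hx0 : ((1000 : ℤ) : ℝ) / 10000 ≤ x) (hx1 : x ≤ ((1300 : ℤ) : ℝ) / 10000)
    (ht0 : ((0 : ℤ) : ℝ) / 10000 ≤ T) (ht1 : T ≤ ((50 : ℤ) : ℝ) / 10000) (h0 : ((0 : ℤ) : ℝ) / 100 ≤ y)
    (h1 : y ≤ ((80 : ℤ) : ℝ) / 100) (h0' : ((0 : ℤ) : ℝ) / 100 ≤ y') (h1' : y' ≤ ((80 : ℤ) : ℝ) / 100)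
    (hd : DL.In y β) (hd' : D2.In y' β') :
    Two (60 / 100) (13 / 100) (30 / 100) T x y β y' β' := by
  have ht : tr 0 (60 / 100) (13 / 100) (30 / 100) x = x / (13 / 100) :=
    tr_a (by norm_num) (by norm_num) (by norm_num) (by push_cast at hx0; linarith only [hx0]) (by push_cast at hx1; linarith only [hx1])
  refine Two.of k4 (by simp only [k4]; norm_num) (by simp only [k4]; norm_num)
    (by simp only [k4, Cell.e]; push_cast; rw [tr_b (by norm_num) (by norm_num) (by norm_num) (by norm_num)]; ring) (by simp only [k4, Cell.a]; push_cast; rw [ht]; ring) ?_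
  exact Cell.two k4l k4m k4A k4B hx0 hx1 ht0 ht1 h0 h1 h0' h1' hd hd'

def k5 : Cell :=
  ⟨1300, 1500, 0, 50, 15, 1, 1, 16, 0, 100, -2737, 3005, 1605, 154, 4568, 7585, 10189⟩
theorem k5A : (k5.A DL 0 80).Side := Pm.side
  (ca := 0)
  (cb := 0x8838833883288328822882888832832882322)
  (cc := 0)
  (cd := 0)
  (ce := 0) (by decide +kernel)
theorem k5B : (k5.B D2 0 80).Side := Pm.side
  (ca := 0)
  (cb := 0xcc88038288233880832e3883832883288288322)
  (cc := 0)
  (cd := 0)
  (ce := 0) (by decide +kernel)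
theorem k5l : k5.LB := Cell.lb_of (c := 0x8) (by decide +kernel)
theorem k5m : k5.MB := Cell.mb_of (c := 0x8) (by decide +kernel)
theorem r5 {x T y β y' β' : ℝ} (hx0 : ((1300 : ℤ) : ℝ) / 10000 ≤ x) (hx1 : x ≤ ((1500 : ℤ) : ℝ) / 10000)
    (ht0 : ((0 : ℤ) : ℝ) / 10000 ≤ T) (ht1 : T ≤ ((50 : ℤ) : ℝ) / 10000) (h0 : ((0 : ℤ) : ℝ) / 100 ≤ y)
    (h1 : y ≤ ((80 : ℤ) : ℝ) / 100) (h0' : ((0 : ℤ) : ℝ) / 100 ≤ y') (h1' : y' ≤ ((80 : ℤ) : ℝ) / 100)
    (hd : DL.In y β) (hd' : D2.In y' β') :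
    Two (60 / 100) (13 / 100) (30 / 100) T x y β y' β' := by
  have ht : tr 0 (60 / 100) (13 / 100) (30 / 100) x = 1 :=
    tr_b (by norm_num) (by norm_num) (by push_cast at hx0; linarith only [hx0]) (by push_cast at hx1; linarith only [hx1])
  refine Two.of k5 (by simp only [k5]; norm_num) (by simp only [k5]; norm_num)
    (by simp only [k5, Cell.e]; push_cast; rw [tr_b (by norm_num) (by norm_num) (by norm_num) (by norm_num)]; ring) (by simp only [k5, Cell.a]; push_cast; rw [ht]; ring) ?_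
  exact Cell.two k5l k5m k5A k5B hx0 hx1 ht0 ht1 h0 h1 h0' h1' hd hd'

def k6 : Cell :=
  ⟨1500, 2000, 0, 50, 15, 1, 1, 16, 0, 100, -2880, 3916, 1605, 154, 4426, 8532, 10189⟩
theorem k6A : (k6.A DL 0 80).Side := Pm.side
  (ca := 0)
  (cb := 0xc8383a088803880833288388332883288328822882883882838383222)
  (cc := 0xc838e03a0)
  (cd := 0)
  (ce := 0) (by decide +kernel)
theorem k6B : (k6.B D2 0 80).Side := Pm.side
  (ca := 0)
  (cb := 0xc8c08383ac83a0e32088c0830880323e3cc833880833e82328828388032882832882882882322)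
  (cc := 0xcc8a03e33e3a0)
  (cd := 0)
  (ce := 0) (by decide +kernel)
theorem k6l : k6.LB := Cell.lb_of (c := 0x8808800) (by decide +kernel)
theorem k6m : k6.MB := Cell.mb_of (c := 0x8) (by decide +kernel)
theorem r6 {x T y β y' β' : ℝ} (hx0 : ((1500 : ℤ) : ℝ) / 10000 ≤ x) (hx1 : x ≤ ((2000 : ℤ) : ℝ) / 10000)
    (ht0 : ((0 : ℤ) : ℝ) / 10000 ≤ T) (ht1 : T ≤ ((50 : ℤ) : ℝ) / 10000) (h0 : ((0 : ℤ) : ℝ) / 100 ≤ y)
    (h1 : y ≤ ((80 : ℤ) : ℝ) / 100) (h0' : ((0 : ℤ) : ℝ) / 100 ≤ y') (h1' : y' ≤ ((80 : ℤ) : ℝ) / 100)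
    (hd : DL.In y β) (hd' : D2.In y' β') :
    Two (60 / 100) (13 / 100) (30 / 100) T x y β y' β' := by
  have ht : tr 0 (60 / 100) (13 / 100) (30 / 100) x = 1 :=
    tr_b (by norm_num) (by norm_num) (by push_cast at hx0; linarith only [hx0]) (by push_cast at hx1; linarith only [hx1])
  refine Two.of k6 (by simp only [k6]; norm_num) (by simp only [k6]; norm_num)
    (by simp only [k6, Cell.e]; push_cast; rw [tr_b (by norm_num) (by norm_num) (by norm_num) (by norm_num)]; ring) (by simp only [k6, Cell.a]; push_cast; rw [ht]; ring) ?_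
  exact Cell.two k6l k6m k6A k6B hx0 hx1 ht0 ht1 h0 h1 h0' h1' hd hd'

def k7 : Cell :=
  ⟨2000, 2500, 0, 50, 15, 1, 1, 16, 0, 100, -3119, 5115, 1605, 154, 4267, 9323, 10189⟩
theorem k7A : (k7.A DL 0 80).Side := Pm.side
  (ca := 0)
  (cb := 0x882838383883288328832882288288388383222)
  (cc := 0x88383)
  (cd := 0xc8f32f3f3)
  (ce := 0xc838e33a0c82838388332) (by decide +kernel)
theorem k7B : (k7.B D2 0 80).Side := Pm.side
  (ca := 0)
  (cb := 0xc8833e3c8c0383e32c83838823288083832882832882882880322)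
  (cc := 0xcc8383833e3)
  (cd := 0xcc8383a0880c8a8203088e00323e3)
  (ce := 0xfe3) (by decide +kernel)
theorem k7l : k7.LB := Cell.lb_of (c := 0x8808800) (by decide +kernel)
theorem k7m : k7.MB := Cell.mb_of (c := 0x8) (by decide +kernel)
theorem r7 {x T y β y' β' : ℝ} (hx0 : ((2000 : ℤ) : ℝ) / 10000 ≤ x) (hx1 : x ≤ ((2500 : ℤ) : ℝ) / 10000)
    (ht0 : ((0 : ℤ) : ℝ) / 10000 ≤ T) (ht1 : T ≤ ((50 : ℤ) : ℝ) / 10000) (h0 : ((0 : ℤ) : ℝ) / 100 ≤ y)
    (h1 : y ≤ ((80 : ℤ) : ℝ) / 100) (h0' : ((0 : ℤ) : ℝ) / 100 ≤ y') (h1' : y' ≤ ((80 : ℤ) : ℝ) / 100)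
    (hd : DL.In y β) (hd' : D2.In y' β') :
    Two (60 / 100) (13 / 100) (30 / 100) T x y β y' β' := by
  have ht : tr 0 (60 / 100) (13 / 100) (30 / 100) x = 1 :=
    tr_b (by norm_num) (by norm_num) (by push_cast at hx0; linarith only [hx0]) (by push_cast at hx1; linarith only [hx1])
  refine Two.of k7 (by simp only [k7]; norm_num) (by simp only [k7]; norm_num)
    (by simp only [k7, Cell.e]; push_cast; rw [tr_b (by norm_num) (by norm_num) (by norm_num) (by norm_num)]; ring) (by simp only [k7, Cell.a]; push_cast; rw [ht]; ring) ?_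
  exact Cell.two k7l k7m k7A k7B hx0 hx1 ht0 ht1 h0 h1 h0' h1' hd hd'

def k8 : Cell :=
  ⟨2500, 3000, 0, 50, 15, 1, 1, 16, 0, 100, -3371, 6127, 1605, 154, 4221, 9507, 10189⟩
theorem k8A : (k8.A DL 0 80).Side := Pm.side
  (ca := 0)
  (cb := 0x882838383883288328822880288288388383222)
  (cc := 0x88383)
  (cd := 0xc8822f3f3f3f3f3f3)
  (ce := 0x8c0888283228c820882238e82088228e0882233) (by decide +kernel)
theorem k8B : (k8.B D2 0 80).Side := Pm.side
  (ca := 0)
  (cb := 0xc83838e3e33c83838e332883838328838328828328828808322)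
  (cc := 0xc8c0383e3)
  (cd := 0xccc8c0223c8382ac83208808228e820e3882233e3)
  (ce := 0xfe3) (by decide +kernel)
theorem k8l : k8.LB := Cell.lb_of (c := 0x88800) (by decide +kernel)
theorem k8m : k8.MB := Cell.mb_of (c := 0x8) (by decide +kernel)
theorem r8 {x T y β y' β' : ℝ} (hx0 : ((2500 : ℤ) : ℝ) / 10000 ≤ x) (hx1 : x ≤ ((3000 : ℤ) : ℝ) / 10000)
    (ht0 : ((0 : ℤ) : ℝ) / 10000 ≤ T) (ht1 : T ≤ ((50 : ℤ) : ℝ) / 10000) (h0 : ((0 : ℤ) : ℝ) / 100 ≤ y)
    (h1 : y ≤ ((80 : ℤ) : ℝ) / 100) (h0' : ((0 : ℤ) : ℝ) / 100 ≤ y') (h1' : y' ≤ ((80 : ℤ) : ℝ) / 100)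
    (hd : DL.In y β) (hd' : D2.In y' β') :
    Two (60 / 100) (13 / 100) (30 / 100) T x y β y' β' := by
  have ht : tr 0 (60 / 100) (13 / 100) (30 / 100) x = 1 :=
    tr_b (by norm_num) (by norm_num) (by push_cast at hx0; linarith only [hx0]) (by push_cast at hx1; linarith only [hx1])
  refine Two.of k8 (by simp only [k8]; norm_num) (by simp only [k8]; norm_num)
    (by simp only [k8, Cell.e]; push_cast; rw [tr_b (by norm_num) (by norm_num) (by norm_num) (by norm_num)]; ring) (by simp only [k8, Cell.a]; push_cast; rw [ht]; ring) ?_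
  exact Cell.two k8l k8m k8A k8B hx0 hx1 ht0 ht1 h0 h1 h0' h1' hd hd'

def k9 : Cell :=
  ⟨3000, 3500, 0, 50, 18, 1, 1, 96, -160, 300, -3952, 8083, 1608, 124, 9630, -9802, 11565⟩
theorem k9A : (k9.A DL 0 80).Side := Pm.side
  (ca := 0)
  (cb := 0x88283838388328832882288028828828322)
  (cc := 0x8838383)
  (cd := 0xc88c00288882222f3f3f3)
  (ce := 0xc88c0028c0c0888202388882832228c082c08882028c8c02082c8c082c02088882082023882238e8e02082e8e082e02088882082028e082e0888202388228e0e0888202e88e0023882233) (by decide +kernel)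
theorem k9B : (k9.B D2 0 80).Side := Pm.side
  (ca := 0)
  (cb := 0x88388382e3e338838e33288383288383288083288288322)
  (cc := 0x883880e3e33)
  (cd := 0xccc833c8322c8c02c088082a8a0208802a8a0a082a02038c83c8c08382308202e82e0e388e0820238838223ee88e3e3222f33)
  (ce := 0xffe3e33) (by decide +kernel)
theorem k9l : k9.LB := Cell.lb_of (c := 0x880) (by decide +kernel)
theorem k9m : k9.MB := Cell.mb_of (c := 0x8) (by decide +kernel)
theorem r9 {x T y β y' β' : ℝ} (hx0 : ((3000 : ℤ) : ℝ) / 10000 ≤ x) (hx1 : x ≤ ((3500 : ℤ) : ℝ) / 10000)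
    (ht0 : ((0 : ℤ) : ℝ) / 10000 ≤ T) (ht1 : T ≤ ((50 : ℤ) : ℝ) / 10000) (h0 : ((0 : ℤ) : ℝ) / 100 ≤ y)
    (h1 : y ≤ ((80 : ℤ) : ℝ) / 100) (h0' : ((0 : ℤ) : ℝ) / 100 ≤ y') (h1' : y' ≤ ((80 : ℤ) : ℝ) / 100)
    (hd : DL.In y β) (hd' : D2.In y' β') :
    Two (60 / 100) (13 / 100) (30 / 100) T x y β y' β' := by
  have ht : tr 0 (60 / 100) (13 / 100) (30 / 100) x = (60 / 100 - x) / (30 / 100) :=
    tr_c (by norm_num) (by norm_num) (by norm_num) (by push_cast at hx0; linarith only [hx0]) (by push_cast at hx1; linarith only [hx1])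
  refine Two.of k9 (by simp only [k9]; norm_num) (by simp only [k9]; norm_num)
    (by simp only [k9, Cell.e]; push_cast; rw [tr_b (by norm_num) (by norm_num) (by norm_num) (by norm_num)]; ring) (by simp only [k9, Cell.a]; push_cast; rw [ht]; ring) ?_
  exact Cell.two k9l k9m k9A k9B hx0 hx1 ht0 ht1 h0 h1 h0' h1' hd hd'

def k10 : Cell :=
  ⟨3500, 4000, 0, 50, 18, 1, 1, 96, -160, 300, -3831, 7737, 1608, 124, 13361, -20535, 13508⟩
theorem k10A : (k10.A DL 0 80).Side := Pm.side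
  (ca := 0)
  (cb := 0x8808382838388328832880288228828828322)
  (cc := 0x8838383)
  (cd := 0xc82c08288888088032222f3f3)
  (ce := 0xc82c08c082c8c020880c82082c882c82020338888030288888803283222880e82082e882e820208e082e8e0203e82e03888083028882223) (by decide +kernel)
theorem k10B : (k10.B D2 0 80).Side := Pm.side
  (ca := 0)
  (cb := 0x8838838e33e338838e3328838e33288383288383288283288388322)
  (cc := 0x88388083e33)
  (cd := 0xcc880c032c83c83883222c82c0882a8802082a88082a883202038e082e8e020e3388088383880202888802223e888883222e32f33)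
  (ce := 0xfe888f83222e32e33) (by decide +kernel)
theorem k10l : k10.LB := Cell.lb_of (c := 0x880) (by decide +kernel)
theorem k10m : k10.MB := Cell.mb_of (c := 0x8) (by decide +kernel)
theorem r10 {x T y β y' β' : ℝ} (hx0 : ((3500 : ℤ) : ℝ) / 10000 ≤ x) (hx1 : x ≤ ((4000 : ℤ) : ℝ) / 10000)
    (ht0 : ((0 : ℤ) : ℝ) / 10000 ≤ T) (ht1 : T ≤ ((50 : ℤ) : ℝ) / 10000) (h0 : ((0 : ℤ) : ℝ) / 100 ≤ y)
    (h1 : y ≤ ((80 : ℤ) : ℝ) / 100) (h0' : ((0 : ℤ) : ℝ) / 100 ≤ y') (h1' : y' ≤ ((80 : ℤ) : ℝ) / 100)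
    (hd : DL.In y β) (hd' : D2.In y' β') :
    Two (60 / 100) (13 / 100) (30 / 100) T x y β y' β' := by
  have ht : tr 0 (60 / 100) (13 / 100) (30 / 100) x = (60 / 100 - x) / (30 / 100) :=
    tr_c (by norm_num) (by norm_num) (by norm_num) (by push_cast at hx0; linarith only [hx0]) (by push_cast at hx1; linarith only [hx1])
  refine Two.of k10 (by simp only [k10]; norm_num) (by simp only [k10]; norm_num)
    (by simp only [k10, Cell.e]; push_cast; rw [tr_b (by norm_num) (by norm_num) (by norm_num) (by norm_num)]; ring) (by simp only [k10, Cell.a]; push_cast; rw [ht]; ring) ?_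
  exact Cell.two k10l k10m k10A k10B hx0 hx1 ht0 ht1 h0 h1 h0' h1' hd hd'

def k11 : Cell :=
  ⟨4000, 4500, 0, 50, 18, 1, 1, 96, -160, 300, -3722, 7464, 1608, 124, 13428, -20701, 13508⟩
theorem k11A : (k11.A DL 0 80).Side := Pm.side
  (ca := 0)
  (cb := 0x8880388338832838808328832882288228838828322)
  (cc := 0x883883383)
  (cd := 0xc8c028c0c088c00238f082f0f33880288883888238f0f332222f3)
  (ce := 0xf8c0c088c00238c082c088c082028cce8e0233082cec82e0230888c0820820233882288883f880388083322228e8e02e3e3082ee82e02e30888e082082028e082e088e0820238e0e088e002e8e023388328882223) (by decide +kernel)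
theorem k11B : (k11.B D2 0 80).Side := Pm.side
  (ca := 0)
  (cb := 0x888833388383e33888038e33288388332883832883832883832880838808322)
  (cc := 0x8888033883e33)
  (cd := 0xc8c0c08ce8e023082aa8a02a02038c88a082038802028e0e088e08202e333cc8338808332c83838808388388883332222e82888880832222f3f33)
  (ce := 0xfe82888883832222e33) (by decide +kernel)
theorem k11l : k11.LB := Cell.lb_of (c := 0x880) (by decide +kernel)
theorem k11m : k11.MB := Cell.mb_of (c := 0x8) (by decide +kernel)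
theorem r11 {x T y β y' β' : ℝ} (hx0 : ((4000 : ℤ) : ℝ) / 10000 ≤ x) (hx1 : x ≤ ((4500 : ℤ) : ℝ) / 10000)
    (ht0 : ((0 : ℤ) : ℝ) / 10000 ≤ T) (ht1 : T ≤ ((50 : ℤ) : ℝ) / 10000) (h0 : ((0 : ℤ) : ℝ) / 100 ≤ y)
    (h1 : y ≤ ((80 : ℤ) : ℝ) / 100) (h0' : ((0 : ℤ) : ℝ) / 100 ≤ y') (h1' : y' ≤ ((80 : ℤ) : ℝ) / 100)
    (hd : DL.In y β) (hd' : D2.In y' β') :
    Two (60 / 100) (13 / 100) (30 / 100) T x y β y' β' := by
  have ht : tr 0 (60 / 100) (13 / 100) (30 / 100) x = (60 / 100 - x) / (30 / 100) :=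
    tr_c (by norm_num) (by norm_num) (by norm_num) (by push_cast at hx0; linarith only [hx0]) (by push_cast at hx1; linarith only [hx1])
  refine Two.of k11 (by simp only [k11]; norm_num) (by simp only [k11]; norm_num)
    (by simp only [k11, Cell.e]; push_cast; rw [tr_b (by norm_num) (by norm_num) (by norm_num) (by norm_num)]; ring) (by simp only [k11, Cell.a]; push_cast; rw [ht]; ring) ?_
  exact Cell.two k11l k11m k11A k11B hx0 hx1 ht0 ht1 h0 h1 h0' h1' hd hd'

def k12 : Cell :=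
  ⟨4500, 5000, 0, 50, 18, 1, 1, 96, -160, 300, -3605, 7205, 1608, 124, 14725, -23579, 15924⟩
theorem k12A : (k12.A DL 0 80).Side := Pm.side
  (ca := 0)
  (cb := 0x888038808338832838838328832883288283288283888228322)
  (cc := 0x883883383)
  (cd := 0xc88c0028c0c088800238c082c0888002f3388028888388388803880f3322222f3)
  (ce := 0xffcf802038c082c08880028c8c02082c8c082c0208888008202338288880883f838833222228e8e02082e8e082e02088880082028e082e088800238e0e0888002e88e002338802888822223) (by decide +kernel)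
theorem k12B : (k12.B D2 0 80).Side := Pm.side
  (ca := 0)
  (cb := 0x8888803338808383833883883328838328838328828383288082838828322)
  (cc := 0x8888033883833)
  (cd := 0xc8c0c08a8a02082a8a082a020388c880308202e82e0e388e0820233c838803288083838838838888803332222fe8288882222f30f3f3f33)
  (ce := 0xfffe8e02828888802222333e82888e388083838322223) (by decide +kernel)
theorem k12l : k12.LB := Cell.lb_of (c := 0x8) (by decide +kernel)
theorem k12m : k12.MB := Cell.mb_of (c := 0x8) (by decide +kernel)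
theorem r12 {x T y β y' β' : ℝ} (hx0 : ((4500 : ℤ) : ℝ) / 10000 ≤ x) (hx1 : x ≤ ((5000 : ℤ) : ℝ) / 10000)
    (ht0 : ((0 : ℤ) : ℝ) / 10000 ≤ T) (ht1 : T ≤ ((50 : ℤ) : ℝ) / 10000) (h0 : ((0 : ℤ) : ℝ) / 100 ≤ y)
    (h1 : y ≤ ((80 : ℤ) : ℝ) / 100) (h0' : ((0 : ℤ) : ℝ) / 100 ≤ y') (h1' : y' ≤ ((80 : ℤ) : ℝ) / 100)
    (hd : DL.In y β) (hd' : D2.In y' β') :
    Two (60 / 100) (13 / 100) (30 / 100) T x y β y' β' := by
  have ht : tr 0 (60 / 100) (13 / 100) (30 / 100) x = (60 / 100 - x) / (30 / 100) :=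
    tr_c (by norm_num) (by norm_num) (by norm_num) (by push_cast at hx0; linarith only [hx0]) (by push_cast at hx1; linarith only [hx1])
  refine Two.of k12 (by simp only [k12]; norm_num) (by simp only [k12]; norm_num)
    (by simp only [k12, Cell.e]; push_cast; rw [tr_b (by norm_num) (by norm_num) (by norm_num) (by norm_num)]; ring) (by simp only [k12, Cell.a]; push_cast; rw [ht]; ring) ?_
  exact Cell.two k12l k12m k12A k12B hx0 hx1 ht0 ht1 h0 h1 h0' h1' hd hd'

def k13s : Cell :=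
  ⟨5000, 5500, 0, 50, 40, 20, 30, 96, -160, 300, -3466, 6926, 674, 11, 14200, -22857, 12183⟩
theorem k13sA : (k13s.A DL 0 55).Side := Pm.side
  (ca := 0)
  (cb := 0x8880880382388338838833288283288328808328838808322)
  (cc := 0x888338833)
  (cd := 0x8a8208880228a8208888388032223f3)
  (ce := 0xf8a82088880880322238a82088228a820882233) (by decide +kernel)
theorem k13sB : (k13s.B D2 0 55).Side := Pm.side
  (ca := 0)
  (cb := 0x88838808803338808383388803883328838833288383288083832883882288232)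
  (cc := 0x888088333883833)
  (cd := 0x8a82088228a820882238a8208883228a82088880f80322233f3)
  (ce := 0xff8a820888808803222338a8208880228a820882238e08822e333) (by decide +kernel)
theorem k13sl : k13s.LB := Cell.lb_of (c := 0x8) (by decide +kernel)
theorem k13sm : k13s.MB := Cell.mb_of (c := 0x8) (by decide +kernel)
def k13u : Cell :=
  ⟨5000, 5500, 0, 50, 18, 1, 1, 96, -160, 300, -3466, 6926, 1608, 124, 12561, -22654, 7618⟩
theorem k13uA : (k13u.A DL 55 80).Side := Pm.side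
  (ca := 0)
  (cb := 0)
  (cc := 0)
  (cd := 0x8c0c0888002c82c088800238c082cc8c0c02308880028c82082c8f0f02088f002f33388328808808322f3)
  (ce := 0xfffc082c8c0c0208880023880c888032082cc82c08c082ce8e0230320888800820233880e880832082e8e082e8e02e30e82e032088880082028e082e8e0e02e308880023e82e08880028e0e08880023338808823288288232) (by decide +kernel)
theorem k13uB : (k13u.B D2 0 80).Side := Pm.side
  (ca := 0)
  (cb := 0x88808808333883833883883328838328838328828328838828322)
  (cc := 0x8888033883833)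
  (cd := 0xcc82c08a82082a8c082c8c02088082e8a02032038e082e0e333883c88382302880832883883883888808833232222f3)
  (ce := 0xff8e082e0e388328288888832222233e82888838838322223) (by decide +kernel)
theorem k13ul : k13u.LB := Cell.lb_of (c := 0x8) (by decide +kernel)
theorem k13um : k13u.MB := Cell.mb_of (c := 0x8) (by decide +kernel)
def k13v : Cell :=
  ⟨5000, 5500, 0, 50, 18, 1, 1, 96, -160, 300, -3466, 6926, 1608, 124, 12838, -18866, 11995⟩
theorem k13vA : (k13v.A DL 0 80).Side := Pm.side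
  (ca := 0)
  (cb := 0x88838803388338838328808328832880832880838828322)
  (cc := 0x888338833)
  (cd := 0xc82c08c082cc8c0c03208c82082c8f0f020f333888823028288883888808803232222f3)
  (ce := 0xfffc082c8c0c0203880c82082c880c088082c8c02032033880e82082e88082e8e020880e03208e082e8e0e0e3203e82e033883f838808338832028832882883883f838833f88088033883322222) (by decide +kernel)
theorem k13vB : (k13v.B D2 55 80).Side := Pm.side
  (ca := 0)
  (cb := 0)
  (cc := 0)
  (cd := 0xc8c0c08a88a002082ac82c08e082e8e020320388c880308202e82e0e388e0820233c8388032c889c02838322838388232f3)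
  (ce := 0xffe82e0e388e0820233e3f83832f838808332) (by decide +kernel)
theorem k13vl : k13v.LB := Cell.lb_of (c := 0x8) (by decide +kernel)
theorem k13vm : k13v.MB := Cell.mb_of (c := 0x8) (by decide +kernel)
theorem r13 {x T y β y' β' : ℝ} (hx0 : ((5000 : ℤ) : ℝ) / 10000 ≤ x) (hx1 : x ≤ ((5500 : ℤ) : ℝ) / 10000)
    (ht0 : ((0 : ℤ) : ℝ) / 10000 ≤ T) (ht1 : T ≤ ((50 : ℤ) : ℝ) / 10000) (h0 : ((0 : ℤ) : ℝ) / 100 ≤ y)
    (h1 : y ≤ ((80 : ℤ) : ℝ) / 100) (h0' : ((0 : ℤ) : ℝ) / 100 ≤ y') (h1' : y' ≤ ((80 : ℤ) : ℝ) / 100)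
    (hd : DL.In y β) (hd' : D2.In y' β') :
    Two (60 / 100) (13 / 100) (30 / 100) T x y β y' β' := by
  have ht : tr 0 (60 / 100) (13 / 100) (30 / 100) x = (60 / 100 - x) / (30 / 100) :=
    tr_c (by norm_num) (by norm_num) (by norm_num) (by push_cast at hx0; linarith only [hx0]) (by push_cast at hx1; linarith only [hx1])
  rcases le_total (((55 : ℤ) : ℝ) / 100) y with c1 | c1
  · skip
    refine Two.of k13u (by simp only [k13u]; norm_num) (by simp only [k13u]; norm_num)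
      (by simp only [k13u, Cell.e]; push_cast; rw [tr_b (by norm_num) (by norm_num) (by norm_num) (by norm_num)]; ring) (by simp only [k13u, Cell.a]; push_cast; rw [ht]; ring) ?_
    exact Cell.two k13ul k13um k13uA k13uB hx0 hx1 ht0 ht1 c1 h1 h0' h1' hd hd'
  rcases le_total (((55 : ℤ) : ℝ) / 100) y' with c2 | c2
  · skip
    refine Two.of k13v (by simp only [k13v]; norm_num) (by simp only [k13v]; norm_num)
      (by simp only [k13v, Cell.e]; push_cast; rw [tr_b (by norm_num) (by norm_num) (by norm_num) (by norm_num)]; ring) (by simp only [k13v, Cell.a]; push_cast; rw [ht]; ring) ?_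
    exact Cell.two k13vl k13vm k13vA k13vB hx0 hx1 ht0 ht1 h0 h1 c2 h1' hd hd'
  refine Two.of k13s (by simp only [k13s]; norm_num) (by simp only [k13s]; norm_num)
    (by simp only [k13s, Cell.e]; push_cast; rw [tr_c (by norm_num) (by norm_num) (by norm_num) (by norm_num) (by norm_num)]; ring) (by simp only [k13s, Cell.a]; push_cast; rw [ht]; ring) ?_
  exact Cell.two k13sl k13sm k13sA k13sB hx0 hx1 ht0 ht1 h0 c1 h0' c2 hd hd'

def k14s : Cell :=
  ⟨5500, 5750, 0, 50, 40, 20, 30, 96, -160, 300, -3336, 6691, 674, 11, 18857, -31353, 17285⟩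
theorem k14sA : (k14s.A DL 0 55).Side := Pm.side
  (ca := 0)
  (cb := 0x888803388383388388332883832880832882832882882288032)
  (cc := 0x88833883833)
  (cd := 0x888038838838888233222f3)
  (ce := 0xf83880833883f838833ff88033883833222) (by decide +kernel)
theorem k14sB : (k14s.B D2 0 55).Side := Pm.side
  (ca := 0)
  (cb := 0x88838833823883388388332883832882838328828388232)
  (cc := 0x88808338833)
  (cd := 0x883883388388808838f332322f3)
  (ce := 0xf88238833f838833f83ff883332883322) (by decide +kernel)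
theorem k14sl : k14s.LB := Cell.lb_of (c := 0x8) (by decide +kernel)
theorem k14sm : k14s.MB := Cell.mb_of (c := 0x8) (by decide +kernel)
def k14u : Cell :=
  ⟨5500, 5750, 0, 50, 18, 1, 1, 96, -160, 300, -3336, 6691, 1608, 124, 12321, -22183, 7399⟩
theorem k14uA : (k14u.A DL 55 80).Side := Pm.side
  (ca := 0)
  (cb := 0)
  (cc := 0)
  (cd := 0xc88803c8c020388833288328832880832f3)
  (ce := 0xff83388083e33af838e33a020f8803880833288803288328832) (by decide +kernel)
theorem k14uB : (k14u.B D2 0 80).Side := Pm.side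
  (ca := 0)
  (cb := 0x8883882382388338838328838328838328828822832)
  (cc := 0x888338833)
  (cd := 0xcc8383ac83e3208802388328832882883883888828803232222f3)
  (ce := 0xff8e082e3828288888802222233e8288888322223) (by decide +kernel)
theorem k14ul : k14u.LB := Cell.lb_of (c := 0x8) (by decide +kernel)
theorem k14um : k14u.MB := Cell.mb_of (c := 0x8) (by decide +kernel)
def k14v : Cell :=
  ⟨5500, 5750, 0, 50, 18, 1, 1, 96, -160, 300, -3336, 6691, 1608, 124, 12998, -19154, 11529⟩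
theorem k14vA : (k14v.A DL 0 80).Side := Pm.side
  (ca := 0)
  (cb := 0x88833883833883832880832883288083288822832)
  (cc := 0x88833880833)
  (cd := 0xc88803cc83203883282828888088882332222f3)
  (ce := 0xf88038e3e338832aff8338e3e3320f83883328832828883883883ff83388383322222) (by decide +kernel)
theorem k14vB : (k14v.B D2 55 80).Side := Pm.side
  (ca := 0)
  (cb := 0)
  (cc := 0)
  (cd := 0xcc8a8a0203e3880832823c83832cc838328383832f3)
  (ce := 0xffe828233e388328832) (by decide +kernel)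
theorem k14vl : k14v.LB := Cell.lb_of (c := 0x8) (by decide +kernel)
theorem k14vm : k14v.MB := Cell.mb_of (c := 0x8) (by decide +kernel)
theorem r14 {x T y β y' β' : ℝ} (hx0 : ((5500 : ℤ) : ℝ) / 10000 ≤ x) (hx1 : x ≤ ((5750 : ℤ) : ℝ) / 10000)
    (ht0 : ((0 : ℤ) : ℝ) / 10000 ≤ T) (ht1 : T ≤ ((50 : ℤ) : ℝ) / 10000) (h0 : ((0 : ℤ) : ℝ) / 100 ≤ y)
    (h1 : y ≤ ((80 : ℤ) : ℝ) / 100) (h0' : ((0 : ℤ) : ℝ) / 100 ≤ y') (h1' : y' ≤ ((80 : ℤ) : ℝ) / 100)
    (hd : DL.In y β) (hd' : D2.In y' β') :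
    Two (60 / 100) (13 / 100) (30 / 100) T x y β y' β' := by
  have ht : tr 0 (60 / 100) (13 / 100) (30 / 100) x = (60 / 100 - x) / (30 / 100) :=
    tr_c (by norm_num) (by norm_num) (by norm_num) (by push_cast at hx0; linarith only [hx0]) (by push_cast at hx1; linarith only [hx1])
  rcases le_total (((55 : ℤ) : ℝ) / 100) y with c1 | c1
  · skip
    refine Two.of k14u (by simp only [k14u]; norm_num) (by simp only [k14u]; norm_num)
      (by simp only [k14u, Cell.e]; push_cast; rw [tr_b (by norm_num) (by norm_num) (by norm_num) (by norm_num)]; ring) (by simp only [k14u, Cell.a]; push_cast; rw [ht]; ring) ?_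
    exact Cell.two k14ul k14um k14uA k14uB hx0 hx1 ht0 ht1 c1 h1 h0' h1' hd hd'
  rcases le_total (((55 : ℤ) : ℝ) / 100) y' with c2 | c2
  · skip
    refine Two.of k14v (by simp only [k14v]; norm_num) (by simp only [k14v]; norm_num)
      (by simp only [k14v, Cell.e]; push_cast; rw [tr_b (by norm_num) (by norm_num) (by norm_num) (by norm_num)]; ring) (by simp only [k14v, Cell.a]; push_cast; rw [ht]; ring) ?_
    exact Cell.two k14vl k14vm k14vA k14vB hx0 hx1 ht0 ht1 h0 h1 c2 h1' hd hd'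
  refine Two.of k14s (by simp only [k14s]; norm_num) (by simp only [k14s]; norm_num)
    (by simp only [k14s, Cell.e]; push_cast; rw [tr_c (by norm_num) (by norm_num) (by norm_num) (by norm_num) (by norm_num)]; ring) (by simp only [k14s, Cell.a]; push_cast; rw [ht]; ring) ?_
  exact Cell.two k14sl k14sm k14sA k14sB hx0 hx1 ht0 ht1 h0 c1 h0' c2 hd hd'

def k15s : Cell :=
  ⟨5750, 6000, 0, 50, 40, 20, 30, 96, -160, 300, -3237, 6519, 674, 11, 19190, -31935, 17526⟩
theorem k15sA : (k15s.A DL 0 55).Side := Pm.side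
  (ca := 0)
  (cb := 0x888803388083833883883328838328838328828383288802838828383288232)
  (cc := 0x88833883833)
  (cd := 0x888238f0388383883838888233882f3f33222)
  (ce := 0xf880388083388388823f838833ff8338838332222) (by decide +kernel)
theorem k15sB : (k15s.B D2 0 55).Side := Pm.side
  (ca := 0)
  (cb := 0x880883883382388338838833288383288802838328880283883b2832880388232)
  (cc := 0x88808338833)
  (cd := 0x8838808238838838888038f333222f3)
  (ce := 0xf88238833f838803f838833f883f838833238833222) (by decide +kernel)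
theorem k15sl : k15s.LB := Cell.lb_of (c := 0x8) (by decide +kernel)
theorem k15sm : k15s.MB := Cell.mb_of (c := 0x8) (by decide +kernel)
def k15u : Cell :=
  ⟨5750, 6000, 0, 50, 18, 1, 1, 96, -160, 300, -3237, 6519, 1608, 124, 10125, -18367, 3389⟩
theorem k15uA : (k15u.A DL 55 80).Side := Pm.side
  (ca := 0)
  (cb := 0)
  (cc := 0)
  (cd := 0xc8880338f3f03ac8803f3a020c8388338f03288383838328838383288283832)
  (ce := 0xff83388083e33af838e33a020f8803880833288803288328822) (by decide +kernel)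
theorem k15uB : (k15u.B D2 0 80).Side := Pm.side
  (ca := 0)
  (cb := 0x8883882382388338838328838328882283832882838828802283832)
  (cc := 0x888338803)
  (cd := 0xc88082f3a880e3208238832883288288388388883f803232222f3)
  (ce := 0xf88283a8e32082828288888828823222223e8288888022223) (by decide +kernel)
theorem k15ul : k15u.LB := Cell.lb_of (c := 0x8) (by decide +kernel)
theorem k15um : k15u.MB := Cell.mb_of (c := 0x8) (by decide +kernel)
def k15v : Cell :=
  ⟨5750, 6000, 0, 50, 18, 1, 1, 96, -160, 300, -3237, 6519, 1608, 124, 13202, -19507, 11286⟩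
theorem k15vA : (k15v.A DL 0 80).Side := Pm.side
  (ca := 0)
  (cb := 0x88833883833883832882832883288283288822832)
  (cc := 0x88833880833)
  (cd := 0xcc8338f0f03c83832acc833f3208838f032883288328838838828388383888338f3f3322222)
  (ce := 0xff8338e3e338832aff8338e3e3320880883328832828883883883ff83388383322222) (by decide +kernel)
theorem k15vB : (k15v.B D2 55 80).Side := Pm.side
  (ca := 0)
  (cb := 0)
  (cc := 0)
  (cd := 0xcc8a8a0203e3880832823c83832ccc8238328383832f3)
  (ce := 0xfff8fe3033e38832823e388328832) (by decide +kernel)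
theorem k15vl : k15v.LB := Cell.lb_of (c := 0x8) (by decide +kernel)
theorem k15vm : k15v.MB := Cell.mb_of (c := 0x8) (by decide +kernel)
theorem r15 {x T y β y' β' : ℝ} (hx0 : ((5750 : ℤ) : ℝ) / 10000 ≤ x) (hx1 : x ≤ ((6000 : ℤ) : ℝ) / 10000)
    (ht0 : ((0 : ℤ) : ℝ) / 10000 ≤ T) (ht1 : T ≤ ((50 : ℤ) : ℝ) / 10000) (h0 : ((0 : ℤ) : ℝ) / 100 ≤ y)
    (h1 : y ≤ ((80 : ℤ) : ℝ) / 100) (h0' : ((0 : ℤ) : ℝ) / 100 ≤ y') (h1' : y' ≤ ((80 : ℤ) : ℝ) / 100)
    (hd : DL.In y β) (hd' : D2.In y' β') :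
    Two (60 / 100) (13 / 100) (30 / 100) T x y β y' β' := by
  have ht : tr 0 (60 / 100) (13 / 100) (30 / 100) x = (60 / 100 - x) / (30 / 100) :=
    tr_c (by norm_num) (by norm_num) (by norm_num) (by push_cast at hx0; linarith only [hx0]) (by push_cast at hx1; linarith only [hx1])
  rcases le_total (((55 : ℤ) : ℝ) / 100) y with c1 | c1
  · skip
    refine Two.of k15u (by simp only [k15u]; norm_num) (by simp only [k15u]; norm_num)
      (by simp only [k15u, Cell.e]; push_cast; rw [tr_b (by norm_num) (by norm_num) (by norm_num) (by norm_num)]; ring) (by simp only [k15u, Cell.a]; push_cast; rw [ht]; ring) ?_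
    exact Cell.two k15ul k15um k15uA k15uB hx0 hx1 ht0 ht1 c1 h1 h0' h1' hd hd'
  rcases le_total (((55 : ℤ) : ℝ) / 100) y' with c2 | c2
  · skip
    refine Two.of k15v (by simp only [k15v]; norm_num) (by simp only [k15v]; norm_num)
      (by simp only [k15v, Cell.e]; push_cast; rw [tr_b (by norm_num) (by norm_num) (by norm_num) (by norm_num)]; ring) (by simp only [k15v, Cell.a]; push_cast; rw [ht]; ring) ?_
    exact Cell.two k15vl k15vm k15vA k15vB hx0 hx1 ht0 ht1 h0 h1 c2 h1' hd hd'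
  refine Two.of k15s (by simp only [k15s]; norm_num) (by simp only [k15s]; norm_num)
    (by simp only [k15s, Cell.e]; push_cast; rw [tr_c (by norm_num) (by norm_num) (by norm_num) (by norm_num) (by norm_num)]; ring) (by simp only [k15s, Cell.a]; push_cast; rw [ht]; ring) ?_
  exact Cell.two k15sl k15sm k15sA k15sB hx0 hx1 ht0 ht1 h0 c1 h0' c2 hd hd'

theorem rows {x T y β y' β' : ℝ} (hx0 : 0 ≤ x) (hx1 : x ≤ 60 / 100) (ht0 : 0 ≤ T) (ht1 : T ≤ 50 / 10000)
    (h0 : 0 ≤ y) (h1 : y ≤ 8 / 10) (h0' : 0 ≤ y') (h1' : y' ≤ 8 / 10) (hd : DL.In y β)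
    (hd' : D2.In y' β') : Two (60 / 100) (13 / 100) (30 / 100) T x y β y' β' := by
  have t0 : ((0 : ℤ) : ℝ) / 10000 ≤ T := by push_cast; linarith only [ht0]
  have t1 : T ≤ ((50 : ℤ) : ℝ) / 10000 := by push_cast; linarith only [ht1]
  have y0 : ((0 : ℤ) : ℝ) / 100 ≤ y := by push_cast; linarith only [h0]
  have y1 : y ≤ ((80 : ℤ) : ℝ) / 100 := by push_cast; linarith only [h1]
  have y0' : ((0 : ℤ) : ℝ) / 100 ≤ y' := by push_cast; linarith only [h0']
  have y1' : y' ≤ ((80 : ℤ) : ℝ) / 100 := by push_cast; linarith only [h1']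
  have g0 : ((0 : ℤ) : ℝ) / 10000 ≤ x := by push_cast; linarith only [hx0]
  rcases le_total x (((50 : ℤ) : ℝ) / 10000) with c0 | g1
  · exact r0 g0 c0 t0 t1 y0 y1 y0' y1' hd hd'
  rcases le_total x (((200 : ℤ) : ℝ) / 10000) with c1 | g2
  · exact r1 g1 c1 t0 t1 y0 y1 y0' y1' hd hd'
  rcases le_total x (((500 : ℤ) : ℝ) / 10000) with c2 | g3
  · exact r2 g2 c2 t0 t1 y0 y1 y0' y1' hd hd'
  rcases le_total x (((1000 : ℤ) : ℝ) / 10000) with c3 | g4
  · exact r3 g3 c3 t0 t1 y0 y1 y0' y1' hd hd'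
  rcases le_total x (((1300 : ℤ) : ℝ) / 10000) with c4 | g5
  · exact r4 g4 c4 t0 t1 y0 y1 y0' y1' hd hd'
  rcases le_total x (((1500 : ℤ) : ℝ) / 10000) with c5 | g6
  · exact r5 g5 c5 t0 t1 y0 y1 y0' y1' hd hd'
  rcases le_total x (((2000 : ℤ) : ℝ) / 10000) with c6 | g7
  · exact r6 g6 c6 t0 t1 y0 y1 y0' y1' hd hd'
  rcases le_total x (((2500 : ℤ) : ℝ) / 10000) with c7 | g8
  · exact r7 g7 c7 t0 t1 y0 y1 y0' y1' hd hd'
  rcases le_total x (((3000 : ℤ) : ℝ) / 10000) with c8 | g9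
  · exact r8 g8 c8 t0 t1 y0 y1 y0' y1' hd hd'
  rcases le_total x (((3500 : ℤ) : ℝ) / 10000) with c9 | g10
  · exact r9 g9 c9 t0 t1 y0 y1 y0' y1' hd hd'
  rcases le_total x (((4000 : ℤ) : ℝ) / 10000) with c10 | g11
  · exact r10 g10 c10 t0 t1 y0 y1 y0' y1' hd hd'
  rcases le_total x (((4500 : ℤ) : ℝ) / 10000) with c11 | g12
  · exact r11 g11 c11 t0 t1 y0 y1 y0' y1' hd hd'
  rcases le_total x (((5000 : ℤ) : ℝ) / 10000) with c12 | g13
  · exact r12 g12 c12 t0 t1 y0 y1 y0' y1' hd hd'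
  rcases le_total x (((5500 : ℤ) : ℝ) / 10000) with c13 | g14
  · exact r13 g13 c13 t0 t1 y0 y1 y0' y1' hd hd'
  rcases le_total x (((5750 : ℤ) : ℝ) / 10000) with c14 | g15
  · exact r14 g14 c14 t0 t1 y0 y1 y0' y1' hd hd'
  exact r15 g15 (by push_cast; linarith only [hx1]) t0 t1 y0 y1 y0' y1' hd hd'

end R32

end KR

end Pool.Agent.Work.MP_b30479_gt.G2
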