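import Pool.Agent.Work.MP_b30479_gt.G2.WMGc
import Pool.Agent.Work.MP_b30479_gt.G2.WMGr2
import Pool.Agent.Work.MP_b30479_gt.G2.WMGr6
import Pool.Agent.Work.MP_b30479_gt.G2.WLocA
import Pool.Agent.Work.MP_b30479_gt.G2.WMGb

/-!
# Mirrored paths: the kind `3 | 3`, the lower `3` at an end, the other one in its slot `2`
-/

namespace Pool.Agent.Work.MP_b30479_gt.G2

open Finset VOL Filter Topology

namespace SR

variable {M : ℕ} {b : Fin (M + 1) → ℤ} {zs : DD (tyW b) ⊕ ZZ (tyW b) → ℂ}

/-- **Kind `3 | 3`**, the lower `3` at an end, the other one in its slot `2`. -/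
theorem kind_threeE_three0 (hb : ClassW b) (L : LocA b zs) : Kd b zs .threeE .three 0 := by
  intro R nb z p h i j x hN hM hq D hi hj
  obtain ⟨m, hm⟩ : ∃ m : {i : Fin (M + 1) // (tyW b i).isMid = true}, m.1 = i :=
    ⟨⟨i, tyW_isMid (Or.inr hi)⟩, rfl⟩
  obtain ⟨m', hm'⟩ : ∃ m : {i : Fin (M + 1) // (tyW b i).isMid = true}, m.1 = j :=
    ⟨⟨j, tyW_isMid (Or.inl hj)⟩, rfl⟩
  have hT := Th_mem hb L.L D.adj D.ri
  rw [hi, hj] at hT
  simp only [hbox] at hT
  have hX := par_E3b D.adj hi hj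
  have hx1 := D.x1
  rw [hX.1] at hx1
  have h16 := mhs_adj D.adj (fun h3 => by rw [hi] at h3; exact absurd h3.2 (by decide))
    (fun h3 => absurd h3.1 (by decide)) 0
  have e13 : (((130 : ℕ) : ℝ) / 1000) = 13 / 100 := by norm_num
  have hO := KE.oldD130
  rw [e13] at hO
  have k1 := D.g3D L.L hX (by norm_num) (by norm_num) h16 hN hM m hm hi hO
    (n := 3185 / 10000 + (-7200) / 10000 * Th b zs h i) (by
      intro T T0 T1
      have h5 := KE.chk1 KE.c5n (by norm_num) (x := Th b zs h i) (y := T) (z := 0) (w := 0)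
        (by constructor <;> push_cast <;> linarith only [hT, hT.1, hT.2])
        (by constructor <;> push_cast <;> linarith only [T0, T1])
        (by constructor <;> norm_num) (by constructor <;> norm_num)
      rw [KE.nP_val] at h5
      push_cast at h5
      linarith only [h5])
  subst hm'
  obtain ⟨y0, y1, d1⟩ := (hM.ipos hN m' D.adj.symm D.nn).2.dl hb L.L m' hj
  have k2 := keep_three2 (zs := zs) (nb := nb) (z := z) (p := p) (c := 15 / 100) hb D.adj.symm hj
  have h4 := D.star hb hN.ok.1 hM (c := 15 / 100) (by norm_num) (by rw [hX.1]; norm_num) k1 k2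
  obtain ⟨t, t0, t1, e⟩ := KE.dl_par d1
  have h5 := KE.chk1 KE.c5f (by norm_num) (x := x) (y := (Ow b z m'.1 1).re) (z := t)
    (w := Th b zs h i)
    (by constructor <;> push_cast <;> linarith only [D, hx1, D.x0]) (by constructor <;> push_cast <;> linarith only [y0, y1])
    (by constructor <;> push_cast <;> linarith only [t0, t1])
    (by constructor <;> push_cast <;> linarith only [hT, hT.1, hT.2])
  rw [KE.fU_val (by norm_num) (by norm_num), KE.ll_val, ← e, e13] at h5
  have e1 : (⟨(Ow b z m'.1 1).re, (Ow b z m'.1 1).im⟩ : ℂ) = Ow b z m'.1 1 := rfl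
  rw [e1] at h5
  have e2 : Ow b z m'.1 2 = ⟨x, mhs b h 0 * trh b h x⟩ := D.opp
  rw [V3_sub, tgo15 hX (by norm_num) (by norm_num), e2, h16, trh_eq hX, D.Tj] at h4
  push_cast at h5
  linarith only [h4, h5]

end SR

end Pool.Agent.Work.MP_b30479_gt.G2
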