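import Pool.Agent.Work.MP_b30479_gt.G2.WMGe
import Pool.Agent.Work.MP_b30479_gt.G2.WMGr3
import Pool.Agent.Work.MP_b30479_gt.G2.WMGr7
import Pool.Agent.Work.MP_b30479_gt.G2.WM_3e_3b
import Pool.Agent.Work.MP_b30479_gt.G2.RngR
import Pool.Agent.Work.MP_b30479_gt.G2.WMGh
import Pool.Agent.Work.MP_b30479_gt.G2.WMGr7s1
import Pool.Agent.Work.MP_b30479_gt.G2.WRnd

/-!
# Mirrored paths: the kind `3 | 3`, the lower `3` at an end
-/

namespace Pool.Agent.Work.MP_b30479_gt.G2

open Finset VOL Filter Topology

namespace SR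

variable {M : ℕ} {b : Fin (M + 1) → ℤ} {zs : DD (tyW b) ⊕ ZZ (tyW b) → ℂ}
variable {R : Finset (DD (tyW b))} {nb : Finset (DD (tyW b) ⊕ ZZ (tyW b))}
variable {z : DD (tyW b) ⊕ ZZ (tyW b) → ℂ} {p : DD (tyW b) → ℝ}
variable {h h' : Fin M} {i j j' : Fin (M + 1)} {s : Fin 3} {x c : ℝ}

/-- the new position of the hinge -/
theorem tgoc {cl : ℝ} (hX : wXM b h = 6 / 10 ∧ wcl b h = cl ∧ wcr b h = 3 / 10) (h0 : 0 < cl)
    (h1 : cl ≤ c) (h2 : c ≤ 3 / 10) (i : Fin (M + 1)) : tgo b zs h i c = ⟨c, Th b zs h i⟩ := by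
  unfold tgo
  rw [trh_flat hX h0 (by norm_num) h1 (by linarith only [h2]), mul_one]

/-- an end `3` on the lower side, general targets -/
theorem Md.g3Dc (hL : Loc b zs) (D : Md b zs nb z p h i s j x) {cl : ℝ}
    (hX : wXM b h = 6 / 10 ∧ wcl b h = cl ∧ wcr b h = 3 / 10) (h0 : 0 < cl) (h1 : cl ≤ c)
    (h2 : c ≤ 3 / 10) (h16 : mhs b h s = 16 / 100) (hN : NbT b R nb) (hM : MM b zs R nb z p)
    (m : {i : Fin (M + 1) // (tyW b i).isMid = true}) (hm : m.1 = i) (hc : clsW b i = .threeE)
    {O : ℝ → ℝ} (H : KE.Old cl (-(16 / 100)) O) {n c' : ℝ} (c0 : 1 / 10 ≤ c') (c1 : c' ≤ 57 / 100)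
    (hn : ∀ T, -(45 / 1000) ≤ T → T ≤ 59 / 1000 → n ≤ V3 ⟨c, Th b zs h i⟩ ⟨c', T⟩ 0) :
    SideG b zs nb z p h i (tg b zs h c) (n - O x) := by
  subst hm
  obtain ⟨hnn, I⟩ := hM.ipos hN m D.adj D.nn
  have k := inner_threeE (zs := zs) (z := z) (p := p) (c := c) m D.adj hc hnn (c' := c')
    (by linarith only [h0, h1, h2, c0]) (by linarith only [h0, h1, h2, c1])
  refine k.mono ?_
  have hx1 := D.x1
  rw [hX.1] at hx1
  have ho := I.old hL m hc H D.x0.le hx1.le
  have ht := TmE_mem hL m hc
  rw [tgoc hX h0 h1 h2, tgi_E m hc c0 c1, D.own, h16, trh_eq hX]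
  have h2 := hn _ ht.1 ht.2
  rw [neg_mul] at ho
  linarith only [ho, h2]

/-- **Kind `3 | 3`**, the lower `3` at an end, the other one in its slot `0`. -/
theorem kind_threeE_three2 (hb : ClassW b) (L : LocA b zs) : Kd b zs .threeE .three 2 := by
  intro R nb z p h i j x hN hM hq D hi hj
  obtain ⟨m, hm⟩ : ∃ m : {i : Fin (M + 1) // (tyW b i).isMid = true}, m.1 = i :=
    ⟨⟨i, tyW_isMid (Or.inr hi)⟩, rfl⟩
  obtain ⟨m', hm'⟩ : ∃ m : {i : Fin (M + 1) // (tyW b i).isMid = true}, m.1 = j :=
    ⟨⟨j, tyW_isMid (Or.inl hj)⟩, rfl⟩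
  have hT := Th_mem hb L.L D.adj D.ri
  rw [hi, hj] at hT
  simp only [hbox] at hT
  have hX := par_E3a D.adj hi hj
  have hx0 := D.x0.le
  have hx1 := D.x1
  rw [hX.1] at hx1
  have h16 : mhs b h 2 = 16 / 100 := by
    have hcs : clsW b h.castSucc = .threeE := by
      cases D.adj
      exact hi
    unfold mhs
    rw [hcs, if_neg (fun h3 => absurd h3.1 (by decide)), if_neg (fun h3 => absurd h3.1 (by decide))]
  have e12 : (((120 : ℕ) : ℝ) / 1000) = 12 / 100 := by norm_num
  have hO := KE.oldD120
  rw [e12] at hO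
  -- the end
  have k15 := D.g3Dc (c := 15 / 100) (c' := 3 / 10) L.L hX (by norm_num) (by norm_num)
    (by norm_num) h16 hN hM m hm hi hO (by norm_num) (by norm_num)
    (n := 3185 / 10000 + (-7200) / 10000 * Th b zs h i) (by
      intro T T0 T1
      have h5 := KE.chk1 KE.c5n (by norm_num) (x := Th b zs h i) (y := T) (z := 0) (w := 0)
        (by constructor <;> push_cast <;> linarith only [hT, hT.1, hT.2])
        (by constructor <;> push_cast <;> linarith only [T0, T1])
        (by constructor <;> norm_num) (by constructor <;> norm_num)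
      rw [KE.nP_val] at h5
      push_cast at h5
      linarith only [h5])
  have k20 := D.g3Dc (c := 2 / 10) (c' := 35 / 100) L.L hX (by norm_num) (by norm_num)
    (by norm_num) h16 hN hM m hm hi hO (by norm_num) (by norm_num)
    (n := 3165 / 10000 + (-12000) / 10000 * Th b zs h i) (by
      intro T T0 T1
      have h5 := KE.chk1 KE.c7n (by norm_num) (x := Th b zs h i) (y := T) (z := 0) (w := 0)
        (by constructor <;> push_cast <;> linarith only [hT, hT.1, hT.2])
        (by constructor <;> push_cast <;> linarith only [T0, T1])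
        (by constructor <;> norm_num) (by constructor <;> norm_num)
      rw [KE.nQ_val] at h5
      push_cast at h5
      rw [show (2000 : ℝ) / 10000 = 2 / 10 by norm_num,
        show (3500 : ℝ) / 10000 = 35 / 100 by norm_num] at h5
      linarith only [h5])
  -- the other region
  subst hm'
  obtain ⟨hnn, I⟩ := hM.ipos hN m' D.adj.symm D.nn
  obtain ⟨h2, j2, A2⟩ := D.adj.symm.other' b (clsW_inner hb (Or.inr (Or.inr hj)))
  have hw := (hM.npos hb hN hq D.adj.symm D.nn A2).w3 hb L.L A2 hj
  have hW : KE.W3 (Ow b z m'.1 2) := ⟨hw.1, hw.2.1, hw.2.2⟩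
  have hTl := Tm3_mem L.X m' D.adj.symm A2 hj
  have e2 : Ow b z m'.1 0 = ⟨x, 16 / 100 * tr 0 (6 / 10) (12 / 100) (3 / 10) x⟩ := by
    have h5 : Ow b z m'.1 0 = ⟨x, mhs b h 2 * trh b h x⟩ := D.opp
    rw [h5, h16, trh_eq hX]
  -- the inequalities of the star moves
  have sK : ∀ {c n : ℝ}, 12 / 100 ≤ c → c ≤ 3 / 10 →
      SideG b zs nb z p h i (tg b zs h c) (n - NumG.plR x 252 KE.oL) →
      n - NumG.plR x 252 KE.oL + (KE.VA ⟨c, -Th b zs h i⟩ (Ow b z m'.1 1) -
        KE.VA ⟨x, 16 / 100 * tr 0 (6 / 10) (12 / 100) (3 / 10) x⟩ (Ow b z m'.1 1)) +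
      2 * Real.pi * (16 / 100 * tr 0 (6 / 10) (12 / 100) (3 / 10) x) ≤ 0 := by
    intro c n c0 c1 k
    have k2 := keep_three0 (zs := zs) (nb := nb) (z := z) (p := p) (c := c) hb D.adj.symm hj
    have h4 := D.star hb hN.ok.1 hM (c := c) (by linarith only [c0]) (by rw [hX.1]; linarith only [c1]) k k2
    rw [KE.V3_VA, tgoc hX (by norm_num) c0 c1, e2, h16, trh_eq hX, D.Tj] at h4
    linarith only [h4]
  have sR : ∀ {c n c' : ℝ}, 12 / 100 ≤ c → c ≤ 3 / 10 → 5 / 100 ≤ c' → c' ≤ 75 / 100 →
      SideG b zs nb z p h i (tg b zs h c) (n - NumG.plR x 252 KE.oL) →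
      n - NumG.plR x 252 KE.oL + (KE.VF ⟨c, -Th b zs h i⟩ ⟨c', Tm b zs m'⟩ +
        V2 ⟨c', Tm b zs m'⟩ (Ow b z m'.1 2) -
        KE.VF ⟨x, 16 / 100 * tr 0 (6 / 10) (12 / 100) (3 / 10) x⟩ (Ow b z m'.1 1) -
        V2 (Ow b z m'.1 1) (Ow b z m'.1 2) + 2 * Real.pi * p (.inr m')) +
      2 * Real.pi * (16 / 100 * tr 0 (6 / 10) (12 / 100) (3 / 10) x) ≤ 0 := by
    intro c n c' c0 c1 d0 d1 k
    have k2 := inner_three0 (zs := zs) (nb := nb) (z := z) (p := p) (c := c) hb m' D.adj.symm hj
      hnn (c' := c') (by linarith only [d0]) (by linarith only [d1])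
    have h4 := D.star hb hN.ok.1 hM (c := c) (by linarith only [c0]) (by rw [hX.1]; linarith only [c1]) k k2
    rw [KE.V3_VF, KE.V3_VF, tgoc hX (by norm_num) c0 c1, tgi_3 m' hj d0 d1, e2, h16, trh_eq hX,
      D.Tj] at h4
    linarith only [h4]
  have eO : ∀ n0 n1 : ℤ, KE.basR n0 n1 x (Th b zs h i) =
      ((n0 : ℝ) / 10000 + (n1 : ℝ) / 10000 * Th b zs h i) - NumG.plR x 252 KE.oL +
      2 * Real.pi * (16 / 100 * tr 0 (6 / 10) (12 / 100) (3 / 10) x) := by
    intro n0 n1
    unfold KE.basR
    ring
  have e15 : ((1500 : ℤ) : ℝ) / 10000 = 15 / 100 := by norm_num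
  have e20 : ((2000 : ℤ) : ℝ) / 10000 = 2 / 10 := by norm_num
  have e30 : ((3000 : ℤ) : ℝ) / 10000 = 3 / 10 := by norm_num
  have e45 : ((4500 : ℤ) : ℝ) / 10000 = 45 / 100 := by norm_num
  have y1' : (mp (clsW b m'.1)).XM = 8 / 10 := by rw [hj]; rfl
  have t15 := D.T0
  rcases le_total x (1 / 2) with hx | hx
  · have sK' := sK (c := 15 / 100) (by norm_num) (by norm_num) k15
    have sR' := sR (c := 15 / 100) (c' := 3 / 10) (by norm_num) (by norm_num) (by norm_num)
      (by norm_num) k15
    cases I with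
    | main y y0 y1 e hp =>
      rw [y1'] at y1
      rw [e, trm3 m' hj] at sK' sR'
      rw [hp] at sR'
      have hf := KE.far30m y0 y1 hTl.1 hTl.2 hW
      obtain ⟨f, hf1, hf2⟩ := NumG.chkF4 KE.c7ma (by norm_num) (x := x) (y := Th b zs h i) (z := y)
        (w := Tm b zs m') (by push_cast; linarith only [hx0]) (by push_cast; linarith only [hx])
        (by push_cast; linarith only [hT, hT.1]) (by push_cast; linarith only [hT, hT.2])
        (by push_cast; linarith only [y0]) (by push_cast; linarith only [y1]) (by push_cast; linarith only [hTl, hTl.1])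
        (by push_cast; linarith only [hTl, hTl.2])
      simp only [KE.rM, List.mem_cons, List.not_mem_nil, or_false] at hf1
      rcases hf1 with rfl | rfl
      · rw [KE.eK_val, KE.tM_val, eO, e15] at hf2
        push_cast at hf2
        linarith only [sK', hf2]
      · rw [NumG.E.val, KE.eR_val, KE.tM_val, eO, KE.e30_val, e15, e30] at hf2
        simp only [NumG.E.val, KE.v2, KE.v3] at hf2
        push_cast at hf2
        linarith only [sR', hf, hf2]
    | up y y0 y1 hT' e hp =>
      rw [y1'] at y1
      rw [trm3 m' hj] at e hp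
      rw [e] at sK' sR'
      rw [hp] at sR'
      have hf := KE.far30u y0 y1 hTl.1 hTl.2 hW
      obtain ⟨f, hf1, hf2⟩ := NumG.chkF4 KE.c7ua (by norm_num) (x := x) (y := Th b zs h i) (z := y)
        (w := Tm b zs m') (by push_cast; linarith only [hx0]) (by push_cast; linarith only [hx])
        (by push_cast; linarith only [hT, hT.1]) (by push_cast; linarith only [hT, hT.2])
        (by push_cast; linarith only [y0]) (by push_cast; linarith only [y1]) (by push_cast; linarith only [hTl, hTl.1])
        (by push_cast; linarith only [hTl, hTl.2])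
      simp only [KE.rU, List.mem_cons, List.not_mem_nil, or_false] at hf1
      rcases hf1 with rfl | rfl
      · rw [KE.eK_val, KE.tU_val, eO, e15] at hf2
        push_cast at hf2
        linarith only [sK', hf2]
      · rw [NumG.E.val, KE.eR_val, KE.tU_val, eO, KE.em_val, e15, e30] at hf2
        simp only [NumG.E.val, KE.v2] at hf2
        push_cast at hf2
        linarith only [sR', hf, hf2]
    | dn y y0 y1 hT' e hp =>
      rw [y1'] at y1
      rw [trm3 m' hj] at e hp
      rw [e] at sK' sR'
      rw [hp] at sR'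
      have hf := KE.far30d y0 y1 hTl.1 hTl.2 hW
      obtain ⟨f, hf1, hf2⟩ := NumG.chkF4 KE.c7da (by norm_num) (x := x) (y := Th b zs h i) (z := y)
        (w := Tm b zs m') (by push_cast; linarith only [hx0]) (by push_cast; linarith only [hx])
        (by push_cast; linarith only [hT, hT.1]) (by push_cast; linarith only [hT, hT.2])
        (by push_cast; linarith only [y0]) (by push_cast; linarith only [y1]) (by push_cast; linarith only [hT', hTl.1])
        (by push_cast; linarith only [hTl, hTl.2])
      simp only [KE.rD, List.mem_cons, List.not_mem_nil, or_false] at hf1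
      rcases hf1 with rfl | rfl
      · rw [KE.eK_val, NumG.E.val, KE.tU_val, eO, e15] at hf2
        push_cast at hf2
        linarith only [sK', hf2]
      · rw [NumG.E.val, KE.eR_val, NumG.E.val, KE.tU_val, eO, KE.em_val, e15, e30] at hf2
        simp only [NumG.E.val, KE.v2] at hf2
        push_cast at hf2
        linarith only [sR', hf, hf2]
  · have sK' := sK (c := 2 / 10) (by norm_num) (by norm_num) k20
    have sR' := sR (c := 2 / 10) (c' := 3 / 10) (by norm_num) (by norm_num) (by norm_num)
      (by norm_num) k20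
    have sR4 := sR (c := 2 / 10) (c' := 45 / 100) (by norm_num) (by norm_num) (by norm_num)
      (by norm_num) k20
    cases I with
    | main y y0 y1 e hp =>
      rw [y1'] at y1
      rw [e, trm3 m' hj] at sK' sR' sR4
      rw [hp] at sR' sR4
      have hf := KE.far30m y0 y1 hTl.1 hTl.2 hW
      rcases le_total y (6 / 10) with hy | hy
      · obtain ⟨f, hf1, hf2⟩ := NumG.chkF4 KE.c7mb (by norm_num) (x := x) (y := Th b zs h i)
          (z := y) (w := Tm b zs m') (by push_cast; linarith only [hx]) (by push_cast; linarith only [hx1])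
          (by push_cast; linarith only [hT, hT.1]) (by push_cast; linarith only [hT, hT.2])
          (by push_cast; linarith only [y0]) (by push_cast; linarith only [hy]) (by push_cast; linarith only [hTl, hTl.1])
          (by push_cast; linarith only [hTl, hTl.2])
        simp only [KE.rM, List.mem_cons, List.not_mem_nil, or_false] at hf1
        rcases hf1 with rfl | rfl
        · rw [KE.eK_val, KE.tM_val, eO, e20] at hf2
          push_cast at hf2
          linarith only [sK', hf2]
        · rw [NumG.E.val, KE.eR_val, KE.tM_val, eO, KE.e30_val, e20, e30] at hf2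
          simp only [NumG.E.val, KE.v2, KE.v3] at hf2
          push_cast at hf2
          linarith only [sR', hf, hf2]
      · have hf4 := KE.far45m hy y1 hTl.1 hTl.2 hW
        obtain ⟨f, hf1, hf2⟩ := NumG.chkF4 KE.c7mc (by norm_num) (x := x) (y := Th b zs h i)
          (z := y) (w := Tm b zs m') (by push_cast; linarith only [hx]) (by push_cast; linarith only [hx1])
          (by push_cast; linarith only [hT, hT.1]) (by push_cast; linarith only [hT, hT.2])
          (by push_cast; linarith only [hy]) (by push_cast; linarith only [y1]) (by push_cast; linarith only [hTl, hTl.1])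
          (by push_cast; linarith only [hTl, hTl.2])
        simp only [KE.rM3, List.mem_cons, List.not_mem_nil, or_false] at hf1
        rcases hf1 with rfl | rfl | rfl
        · rw [KE.eK_val, KE.tM_val, eO, e20] at hf2
          push_cast at hf2
          linarith only [sK', hf2]
        · rw [NumG.E.val, KE.eR_val, KE.tM_val, eO, KE.e30_val, e20, e30] at hf2
          simp only [NumG.E.val, KE.v2, KE.v3] at hf2
          push_cast at hf2
          linarith only [sR', hf, hf2]
        · rw [NumG.E.val, KE.eR_val, KE.tM_val, eO, KE.e45_val, e20, e45] at hf2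
          simp only [NumG.E.val, KE.v2] at hf2
          push_cast at hf2
          linarith only [sR4, hf4, hf2]
    | up y y0 y1 hT' e hp =>
      rw [y1'] at y1
      rw [trm3 m' hj] at e hp
      rw [e] at sK' sR'
      rw [hp] at sR'
      have hf := KE.far30u y0 y1 hTl.1 hTl.2 hW
      obtain ⟨f, hf1, hf2⟩ := NumG.chkF4 KE.c7ub (by norm_num) (x := x) (y := Th b zs h i) (z := y)
        (w := Tm b zs m') (by push_cast; linarith only [hx]) (by push_cast; linarith only [hx1])
        (by push_cast; linarith only [hT, hT.1]) (by push_cast; linarith only [hT, hT.2])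
        (by push_cast; linarith only [y0]) (by push_cast; linarith only [y1]) (by push_cast; linarith only [hTl, hTl.1])
        (by push_cast; linarith only [hTl, hTl.2])
      simp only [KE.rU, List.mem_cons, List.not_mem_nil, or_false] at hf1
      rcases hf1 with rfl | rfl
      · rw [KE.eK_val, KE.tU_val, eO, e20] at hf2
        push_cast at hf2
        linarith only [sK', hf2]
      · rw [NumG.E.val, KE.eR_val, KE.tU_val, eO, KE.em_val, e20, e30] at hf2
        simp only [NumG.E.val, KE.v2] at hf2
        push_cast at hf2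
        linarith only [sR', hf, hf2]
    | dn y y0 y1 hT' e hp =>
      rw [y1'] at y1
      rw [trm3 m' hj] at e hp
      rw [e] at sK' sR'
      rw [hp] at sR'
      have hf := KE.far30d y0 y1 hTl.1 hTl.2 hW
      obtain ⟨f, hf1, hf2⟩ := NumG.chkF4 KE.c7db (by norm_num) (x := x) (y := Th b zs h i) (z := y)
        (w := Tm b zs m') (by push_cast; linarith only [hx]) (by push_cast; linarith only [hx1])
        (by push_cast; linarith only [hT, hT.1]) (by push_cast; linarith only [hT, hT.2])
        (by push_cast; linarith only [y0]) (by push_cast; linarith only [y1]) (by push_cast; linarith only [hx1, hx, hT', hTl.1])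
        (by push_cast; linarith only [hTl, hTl.2])
      simp only [KE.rD, List.mem_cons, List.not_mem_nil, or_false] at hf1
      rcases hf1 with rfl | rfl
      · rw [KE.eK_val, NumG.E.val, KE.tU_val, eO, e20] at hf2
        push_cast at hf2
        linarith only [sK', hf2]
      · rw [NumG.E.val, KE.eR_val, NumG.E.val, KE.tU_val, eO, KE.em_val, e20, e30] at hf2
        simp only [NumG.E.val, KE.v2] at hf2
        push_cast at hf2
        linarith only [sR', hf, hf2]

/-- **Kind `3 | 3`**, the lower `3` at an end. -/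
theorem kind_threeE_three (hb : ClassW b) (L : LocA b zs) (s : Fin 3) : Kd b zs .threeE .three s := by
  by_cases h2 : s = 2
  · rw [h2]
    exact kind_threeE_three2 hb L
  by_cases h0 : s = 0
  · rw [h0]
    exact kind_threeE_three0 hb L
  intro hN hM hq D hi hj
  rcases D.adj.slot with h1 | h1
  · exact h0 h1
  · exact h2 h1

end SR

end Pool.Agent.Work.MP_b30479_gt.G2
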