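import Pool.Agent.Work.MP_b30479_gt.G2.WM_2_3e
import Pool.Agent.Work.MP_b30479_gt.G2.WMGr5

/-!
# Mirrored paths: the kinds of two ends

`2 | 2`, `2 | 3`, `3 | 3`, both regions at ends.
-/

namespace Pool.Agent.Work.MP_b30479_gt.G2

open Finset VOL Filter Topology

namespace SR

variable {M : ℕ} {b : Fin (M + 1) → ℤ} {zs : DD (tyW b) ⊕ ZZ (tyW b) → ℂ}

/-- **Kind `2 | 2`, both at ends.** -/
theorem kind_twoE_twoE (hb : ClassW b) (L : LocA b zs) (s : Fin 3) : Kd b zs .twoE .twoE s := by
  intro R nb z p h i j x hN hM hq D hi hj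
  have hT := Th_mem hb L.L D.adj D.ri
  rw [hi, hj] at hT
  simp only [hbox] at hT
  have hX := par_E D.adj (Or.inr (Or.inr (Or.inl ⟨hi, hj⟩)))
  have hx1 := D.x1
  rw [hX.1] at hx1
  have h16 := mhs_adj D.adj (fun h3 => by rw [hi] at h3; exact absurd h3.2 (by decide))
    (fun h3 => by rw [hj] at h3; exact absurd h3.2 (by decide)) s
  have k1 := keep_twoE (zs := zs) (nb := nb) (z := z) (p := p) (c := 15 / 100) hb D.adj hi
  have k2 := keep_twoE (zs := zs) (nb := nb) (z := z) (p := p) (c := 15 / 100) hb D.adj.symm hj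
  have h4 := D.star hb hN.ok.1 hM (c := 15 / 100) (by norm_num) (by rw [hX.1]; norm_num) k1 k2
  have h5 := KE.chk1 KE.c1f (by norm_num) (x := x) (y := Th b zs h i) (z := 0) (w := 0)
    (by constructor <;> push_cast <;> linarith only [D, hx1, D.x0])
    (by constructor <;> push_cast <;> linarith only [D, hT, D.T0, hT.2])
    (by constructor <;> norm_num) (by constructor <;> norm_num)
  rw [KE.fEE_val] at h5
  rw [tgo15 hX (by norm_num) (by norm_num), tgo15 hX (by norm_num) (by norm_num), D.own, D.opp,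
    h16, trh_eq hX, D.Tj] at h4
  linarith only [h4, h5]

/-- **Kind `2 | 3`, both at ends.** -/
theorem kind_twoE_threeE (hb : ClassW b) (L : LocA b zs) (s : Fin 3) :
    Kd b zs .twoE .threeE s := by
  intro R nb z p h i j x hN hM hq D hi hj
  obtain ⟨m, hm⟩ : ∃ m : {i : Fin (M + 1) // (tyW b i).isMid = true}, m.1 = j :=
    ⟨⟨j, tyW_isMid (Or.inr hj)⟩, rfl⟩
  have hT := Th_mem hb L.L D.adj D.ri
  rw [hi, hj] at hT
  simp only [hbox] at hT
  have hX := par_E D.adj (Or.inr (Or.inr (Or.inr (Or.inl ⟨hi, hj⟩))))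
  have hx1 := D.x1
  rw [hX.1] at hx1
  have h16 := mhs_adj D.adj (fun h3 => by rw [hi] at h3; exact absurd h3.2 (by decide))
    (fun h3 => by rw [hj] at h3; exact absurd h3.2 (by decide)) s
  have hO := KE.oldU100
  rw [KE_c100] at hO
  have k2 := D.g3U L.L hX (by norm_num) (by norm_num) h16 hN hM m hm hj hO
    (n := 3880 / 10000) (by
      intro T T0 T1
      have h5 := KE.chk1 KE.c4n (by norm_num) (x := Th b zs h i) (y := T) (z := 0) (w := 0)
        (by constructor <;> push_cast <;> linarith only [hT, hT.1, hT.2])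
        (by constructor <;> push_cast <;> linarith only [T0, T1])
        (by constructor <;> norm_num) (by constructor <;> norm_num)
      rw [KE.nN_val] at h5
      push_cast at h5
      linarith only [h5])
  have k1 := keep_twoE (zs := zs) (nb := nb) (z := z) (p := p) (c := 15 / 100) hb D.adj hi
  have h4 := D.star hb hN.ok.1 hM (c := 15 / 100) (by norm_num) (by rw [hX.1]; norm_num) k1 k2
  have h5 := KE.chk1 KE.c4f (by norm_num) (x := x) (y := Th b zs h i) (z := 0) (w := 0)
    (by constructor <;> push_cast <;> linarith only [D, hx1, D.x0])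
    (by constructor <;> push_cast <;> linarith only [hT, hT.1, hT.2])
    (by constructor <;> norm_num) (by constructor <;> norm_num)
  rw [KE.fE_val] at h5
  rw [tgo15 hX (by norm_num) (by norm_num), D.own, h16, trh_eq hX] at h4
  push_cast at h5
  linarith only [h4, h5]

/-- **Kind `3 | 3`, both at ends.** -/
theorem kind_threeE_threeE (hb : ClassW b) (L : LocA b zs) (s : Fin 3) :
    Kd b zs .threeE .threeE s := by
  intro R nb z p h i j x hN hM hq D hi hj
  obtain ⟨m, hm⟩ : ∃ m : {i : Fin (M + 1) // (tyW b i).isMid = true}, m.1 = i :=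
    ⟨⟨i, tyW_isMid (Or.inr hi)⟩, rfl⟩
  obtain ⟨m', hm'⟩ : ∃ m : {i : Fin (M + 1) // (tyW b i).isMid = true}, m.1 = j :=
    ⟨⟨j, tyW_isMid (Or.inr hj)⟩, rfl⟩
  have hT := Th_mem hb L.L D.adj D.ri
  rw [hi, hj] at hT
  simp only [hbox] at hT
  have hX := par_E D.adj (Or.inr (Or.inr (Or.inr (Or.inr ⟨hi, hj⟩))))
  have hx1 := D.x1
  rw [hX.1] at hx1
  have h16 := mhs_adj D.adj (fun h3 => by rw [hi] at h3; exact absurd h3.2 (by decide))
    (fun h3 => by rw [hj] at h3; exact absurd h3.2 (by decide)) s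
  have hO := KE.oldU100
  have hO' := KE.oldD100
  rw [KE_c100] at hO hO'
  have hn : ∀ S : ℝ, -(1 / 1000) ≤ S → S ≤ 1 / 1000 → ∀ T, -(45 / 1000) ≤ T → T ≤ 59 / 1000 →
      3180 / 10000 ≤ V3 ⟨15 / 100, S⟩ ⟨3 / 10, T⟩ 0 := by
    intro S S0 S1 T T0 T1
    have h5 := KE.chk1 KE.c6n (by norm_num) (x := S) (y := T) (z := 0) (w := 0)
      (by constructor <;> push_cast <;> linarith only [S0, S1])
      (by constructor <;> push_cast <;> linarith only [T0, T1])
      (by constructor <;> norm_num) (by constructor <;> norm_num)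
    rw [KE.nP_val] at h5
    push_cast at h5
    linarith only [h5]
  have k1 := D.g3D L.L hX (by norm_num) (by norm_num) h16 hN hM m hm hi hO'
    (n := 3180 / 10000) (hn _ (by linarith only [hT, D.T0]) hT.2)
  have k2 := D.g3U L.L hX (by norm_num) (by norm_num) h16 hN hM m' hm' hj hO
    (n := 3180 / 10000) (hn _ (by linarith only [hT, hT.2]) (by linarith only [hT, D.T0]))
  have h4 := D.star hb hN.ok.1 hM (c := 15 / 100) (by norm_num) (by rw [hX.1]; norm_num) k1 k2
  have h5 := KE.chk1 KE.c6f (by norm_num) (x := x) (y := 0) (z := 0) (w := 0)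
    (by constructor <;> push_cast <;> linarith only [D, hx1, D.x0])
    (by constructor <;> norm_num) (by constructor <;> norm_num) (by constructor <;> norm_num)
  rw [KE.fTT_val] at h5
  rw [h16, trh_eq hX] at h4
  push_cast at h5
  linarith only [h4, h5]

end SR

end Pool.Agent.Work.MP_b30479_gt.G2
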