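import Pool.Agent.Work.MP_b30479_gt.G2.WMML
import Pool.Agent.Work.MP_b30479_gt.G2.MJI
import Pool.Agent.Work.MP_b30479_gt.G2.MKM
import Pool.Agent.Work.MP_b30479_gt.G2.MKU
import Pool.Agent.Work.MP_b30479_gt.G2.WM11
import Pool.Agent.Work.MP_b30479_gt.G2.WM_23
import Pool.Agent.Work.MP_b30479_gt.G2.WM_2_3a
import Pool.Agent.Work.MP_b30479_gt.G2.WM_2e_3
import Pool.Agent.Work.MP_b30479_gt.G2.WM_32
import Pool.Agent.Work.MP_b30479_gt.G2.WM_3e_3
import Pool.Agent.Work.MP_b30479_gt.G2.WM_E

/-!
# Mirrored paths: all kinds of hinges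
-/

namespace Pool.Agent.Work.MP_b30479_gt.G2

open Finset VOL Filter Topology

namespace SR

variable {M : ℕ} {b : Fin (M + 1) → ℤ} {zs : DD (tyW b) ⊕ ZZ (tyW b) → ℂ}

/-- **All kinds**; open: `1|3`, `3|2` (slot `0`), `3|3`. -/
theorem kindsL_all (hb : ClassW b) (L : LocA b zs) (k13 : Kd b zs .one .three 2)
    (k13' : Kd b zs .one .three 0) (k32 : Kd b zs .three .two 0)
    (k33 : ∀ s, Kd b zs .three .three s) : KindsL b zs := by
  have k12 : ∀ s, Kd b zs .one .two s :=
    kind_one_two hb L (kind_two_two hb L) (kind_twoE_two hb L)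
      (kind_two_three' hb L (kind_threeE_two hb L 0) k32) k32 (kind_three_two' hb L)
      (kind_two_threeE hb L) (kind_threeE_two hb L)
  exact
    { one_one := kind_one_one hb L k12 (kd_two_one hb L) (kd_one_twoE hb L) (kd_twoE_one hb L)
        k13 (fun hN hM hq D hi hj _ => k13' hN hM hq D hi hj) (kd_one_threeE hb L)
      one_two := k12
      two_one := kd_two_one hb L
      one_twoE := kd_one_twoE hb L
      twoE_one := kd_twoE_one hb L
      one_three := k13
      one_threeE := kd_one_threeE hb L
      two_two := kind_two_two hb L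
      twoE_two := kind_twoE_two hb L
      two_three := kind_two_three hb L
      two_three' := kind_two_three' hb L (kind_threeE_two hb L 0) k32
      three_two := k32
      three_two' := kind_three_two' hb L
      two_threeE := kind_two_threeE hb L
      threeE_two := kind_threeE_two hb L
      twoE_twoE := kind_twoE_twoE hb L
      twoE_three := kind_twoE_three hb L
      twoE_threeE := kind_twoE_threeE hb L
      threeE_three := kind_threeE_three hb L
      threeE_threeE := kind_threeE_threeE hb L
      three_three := k33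
      one_three' := fun hN hM hq D hi hj _ => k13' hN hM hq D hi hj
      loss := fun hN hM hq D hi hj _ _ _ => (k13' hN hM hq D hi hj).elim }

end SR

end Pool.Agent.Work.MP_b30479_gt.G2
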