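import Pool.Agent.Work.MP_b30479_gt.G2.WM_3b3aD
import Pool.Agent.Work.NumU.GenF

/-!
# Rows of the kind `3 | 3`, slot `2` of the lower one and slot `0` of the upper one (generated)
-/

namespace Pool.Agent.Work.MP_b30479_gt.G2.KJ3

open NumG

theorem r_m0 : chkF [kp a20 (E.c 2000) (.var 1) tm, rs a20 (E.c 2000) (.var 1) (E.c 3000) tm pM]
    1000 0 0 0 114 40 0 250 0 22 0 800 0 119
    0x4080820504142820a1428204081040a0828504142850408102021020504082850a1410204082040a081050a14282040810100102820a101050a141020408205041420208142820408101081028204142850a14002040810408141020a142850a001020408080060820404102820a101050a14102040820504142020a142820408101081028204142850a14002040810408141020a142850a001020408080081410508082050a0810204102820a101040a14102040808408141020a142850a0010204082040a08105081428506081020404003040420404102020010202081010404001840a082850a1010204142820a1428204080050a1428204082050414285040810006142850a081020a141050a1410204002850a1410204102820a1428204080030208205081410004142820a141000a1428200142800a142800408102040020504142850a0810208141050a1410204002850a1410204102820a1428204080030a1428504081040a082850a0810200142850a0810208141040a1410204001810410205040828500142800a141850a140020408102000c104080820404002040410202080800308141050a142820408205041428504081000a1428504081040a082850a08102000c2850a1410204102820a1428204080050a1428204082050414285040810006041040a102820008285041428504000050a141000a140050a14002040810200102820a1428504081040a082850a0810200142850a0810208141040a1410204001850a142820408205041428504081000a14205040810408082040a08102000c082081028204142800a140050a0c2850a0010204081000608080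 = true := by
  decide +kernel

theorem r_d0b : chkF [kp a20 (E.c 2000) (.var 1) (.neg tu), rs a20 (E.c 2000) (.var 1) (E.c 3000) (.neg tu) pD]
    1000 0 0 0 114 40 0 540 0 22 300 800 114 119
    0x50800282081420004100020a101000a1020008080040a1010004142040010100081420200080840808200081020200082040410004081010004040050810004040020508080020a1020008080040a101000404204041000408101000410202080020408080020200182081410504142840008200041420200142040014100081420200082840800282001028404001010810104001020404001040808200081020200080800a102000a080040a101000414204001410008142020008084080820008102020008204041000408101000404003040420408101000010204000020400102000010200081000006082040800004080020400002040010200000c101081020000102000810000081000408000030410204000020400102000010200081000006080830410204080820200002040800004080020400002040010200000c104081000008100040800004080020400001820210204000020400102000010200081000006082040800004080020400002040010200000c1010608080 = true := by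
  decide +kernel

end Pool.Agent.Work.MP_b30479_gt.G2.KJ3
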