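import Pool.Agent.Work.MP_b30479_gt.G2.WM_3b3aD
import Pool.Agent.Work.NumU.GenF

/-!
# Rows of the kind `3 | 3`, slot `2` of the lower one and slot `0` of the upper one (generated)
-/

namespace Pool.Agent.Work.MP_b30479_gt.G2.KJ3

open NumG

theorem r_u0a : chkF [kp a20 (E.c 2000) (.var 1) tu, rs a20 (E.c 2000) (.var 1) (E.c 3000) tu pU]
    1000 0 0 0 114 40 0 540 0 22 0 300 0 114
    0x102040410202000020400102000a142050000102040820408082040400004080020400142850a00002040810108102020010200001020404002040000184081010500001040810100081000008102020010200000c2040808280000808408101000810202000c20400002040808280000820408080040810100061020000102040414000040418408101000810282000020408080040810000000c20408001040a141020a10280041428506142800008100000820408080040a14100001020404002040800000061020500082050a0810508140020a142830a140000408000040420408080040810000001020400082050a081040800205000828508140020408000041020404002040800000081028004102850408204001028004142840a001020400002020c1040810100081000008102020010200000c20408082800008204080800408000040810100081000006102040414000040420408080040810100061020000102040414000041020404002040808003081000008102020a00002020c20408080040a14100001020404002040800000061028500082850a0810508140020a142830a1400004080000410204040020408000000810202001020400000030814280041428504082840a001050a141850a000020400002021020404002040800000081428004142850408204001028004142850a0010204000020810202001020400000040a140020a14282041020008140020a14285000810200001010608080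 = true := by
  decide +kernel

theorem r_u0b : chkF [kp a20 (E.c 2000) (.var 1) tu, rs a20 (E.c 2000) (.var 1) (E.c 3000) tu pU]
    1000 0 0 0 114 40 0 540 0 22 300 800 0 114
    0x4080820408001040008204040020408002020010204040010408100040400204080800202102020800204080020200082040410004081000404001010010204001010008102020008204080020200102040400101081010400102040010100041020208002040800202000808006082040410204000820004102020010204001010008102020008204080020200102040400101081010400102040010100041020208002040800202000808008102000808004081010004102040010100081020200080840808200081020008080020810104001020400101000404003040420404102020810104040000408100000810200041020000102040008204000018208102000010204000820400002040800104080000304042040800004081000208100000410204000020408001040800002020c104080820404102000808202000020408000040810002081000008102000410200000c104081000008102000410200001020400082040000182021020400002040800104080000208102000010204000820400001010608080 = true := by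
  decide +kernel

end Pool.Agent.Work.MP_b30479_gt.G2.KJ3
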