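import Pool.Agent.Work.MP_b30479_gt.G2.WM_in3E

/-!
# Mirrored paths, inner variable of an interior `3`: there is no mode

`inner_three`: the field `three` of `InnersL`.
-/

namespace Pool.Agent.Work.MP_b30479_gt.G2

open Finset VOL Filter Topology

namespace SR

open IT NumG

variable {M : ℕ} {b : Fin (M + 1) → ℤ} {zs : DD (tyW b) ⊕ ZZ (tyW b) → ℂ}
variable {R : Finset (DD (tyW b))} {nb : Finset (DD (tyW b) ⊕ ZZ (tyW b))}
variable {z : DD (tyW b) ⊕ ZZ (tyW b) → ℂ} {p : DD (tyW b) → ℝ}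
variable {h0 h2 : Fin M} {i j0 j2 : Fin (M + 1)}

/-- the two hinges of an interior region -/
theorem in3_adj (he : isEnd i = false) : ∃ (h0 h2 : Fin M) (j0 j2 : Fin (M + 1)),
    Adj h0 i 0 j0 ∧ Adj h2 i 2 j2 := by
  unfold isEnd at he
  simp only [decide_eq_false_iff_not, not_or] at he
  obtain ⟨k, hk⟩ := Fin.eq_succ_of_ne_zero he.1
  obtain ⟨k2, hk2⟩ := Fin.eq_castSucc_of_ne_last he.2
  refine ⟨k, k2, k.castSucc, k2.succ, ?_, ?_⟩
  · rw [hk]; exact .r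
  · rw [← hk2]; exact .l

/-- ramp of the left hinge -/
theorem in3_pl (A : Adj h0 i 0 j0) (hc : clsW b i = .three) : wXM b h0 ≤ 65 / 100 ∧
    12 / 100 ≤ wcl b h0 ∧ 15 / 100 ≤ wcr b h0 := by
  unfold wXM wcl wcr
  cases A
  rw [hc]
  rcases h1 : clsW b h0.castSucc <;> simp only [hp, hp1] <;> norm_num

/-- ramp of the right hinge, no `1` on the right -/
theorem in3_pr (A : Adj h2 i 2 j2) (hc : clsW b i = .three) (hj : clsW b j2 ≠ .one) :
    wXM b h2 = 6 / 10 ∧ wcl b h2 = 13 / 100 ∧ wcr b h2 = 3 / 10 := by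
  unfold wXM wcl wcr
  cases A
  rw [hc]
  rcases h1 : clsW b h2.succ
  · exact absurd h1 hj
  all_goals simp only [hp]; norm_num

theorem mwdn {A K : Cl} (h1 : 0 ≤ (mw A K).t1) : K ≠ .one ∧ (mw A K).t1 ≤ 5 / 1000 := by
  constructor
  · rintro rfl
    rcases A <;> simp only [mw] at h1 <;> norm_num at h1
  · rcases A <;> rcases K <;> simp only [mw] <;> norm_num

/-- no lower mirrored path -/
theorem in3_dn (hb : ClassW b) (L : LocA b zs)
    (m : {i : Fin (M + 1) // (tyW b i).isMid = true}) (hN : NbT b R nb) (hM : MM b zs R nb z p)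
    (hq : ∀ h : Fin M, RH1 b (.inl h) → p (.inl h) = 0)
    (hA : ∀ (h : Fin M) (s : Fin 3) (j : Fin (M + 1)), Adj h m.1 s j → p (.inl h) = 0)
    (hc : clsW b m.1 = .three) (hn : Sum.inl (Sum.inr m) ∉ nb) (A0 : Adj h0 m.1 0 j0)
    (A2 : Adj h2 m.1 2 j2) {y : ℝ} (y0 : 0 < y) (y1 : y < 8 / 10) (hT : 0 ≤ Tm b zs m)
    (e : Ow b z m.1 1 = ⟨y, -(16 / 100 * tau3 y)⟩) (hp : p (.inr m) = 16 / 100 * tau3 y) :
    False := by
  have nt := not_tch_of hN A0 hc hn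
  obtain ⟨q1, q2, q3⟩ := hM.pos3 hb hN hq A0 nt (hA h0 0 j0 A0)
  obtain ⟨r1, r2, r3⟩ := hM.pos3 hb hN hq A2 nt (hA h2 2 j2 A2)
  have w : (mw (clsW b j0) (clsW b j2)).t0 ≤ Tm b zs m ∧
    Tm b zs m ≤ (mw (clsW b j0) (clsW b j2)).t1 ∧
    (mw (clsW b j0) (clsW b j2)).s0 ≤ Tm b zs m - Th b zs h0 m.1 ∧
    Tm b zs m - Th b zs h0 m.1 ≤ (mw (clsW b j0) (clsW b j2)).s1 := L.X.mid m.2 A0 A2 hc
  obtain ⟨hK, ht1⟩ := mwdn (hT.trans w.2.1)
  have hT5 : Tm b zs m ≤ 5 / 1000 := w.2.1.trans ht1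
  obtain ⟨a1, a2, a3⟩ := in3_pl A0 hc
  obtain ⟨c1, c2, c3⟩ := in3_pr A2 hc hK
  have hW := win3 L.L hb A0 hc
  have hB := box3 (clsW b j0)
  have hW2 := win3 L.L hb A2 hc
  have hB2 := box3 (clsW b j2)
  rw [c1] at r2
  set a := (Ow b z m.1 0).re with ha
  set d := (Ow b z m.1 2).re with hd
  have hu : (Ow b z m.1 0).im ≤ 57 / 1000 * tr 0 (65 / 100) (12 / 100) (15 / 100) a := by
    have hU := SR.tr_mem 0 (65 / 100) (12 / 100) (15 / 100) a
    have ht := trh_mem (b := b) h0 a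
    have hh : trh b h0 a ≤ tr 0 (65 / 100) (12 / 100) (15 / 100) a :=
      tr_hull (by norm_num) (by norm_num) a2 a1 (by linarith only [a1, a3]) (by linarith only [y0, y1, a3]) _
    rcases q3 with ⟨-, e⟩ | ⟨-, e⟩
    · rw [e]
      calc Th b zs h0 m.1 * trh b h0 a ≤ 57 / 1000 * trh b h0 a :=
            mul_le_mul_of_nonneg_right (by linarith only [hW, hB, hW.2, hB.2]) ht.1
        _ ≤ _ := mul_le_mul_of_nonneg_left hh (by norm_num)
    · rw [e]
      exact mul_nonneg (by norm_num) hU.1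
  have hk : (Ow b z m.1 2).im ≤ 57 / 1000 * tr 0 (6 / 10) (13 / 100) (30 / 100) d := by
    have hU := SR.tr_mem 0 (6 / 10) (13 / 100) (30 / 100) d
    have ht : trh b h2 d = tr 0 (6 / 10) (13 / 100) (30 / 100) d := by
      unfold trh
      rw [c1, c2, c3]
      norm_num
    rcases r3 with ⟨-, e⟩ | ⟨-, e⟩
    · rw [e, ht]
      exact mul_le_mul_of_nonneg_right (by linarith only [hW2, hB2, hW2.2, hB2.2]) hU.1
    · rw [e]
      exact mul_nonneg (by norm_num) hU.1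
  have h1 := hM.inner3 hb hN.ok.1 m A0 A2 hc hn (c' := y) y0.le y1.le (FarG.keep h2 j2)
  rw [tgi_i3 m hc, ofr_z A2, e, hp] at h1
  have h2 : V3 ⟨a, (Ow b z m.1 0).im⟩ ⟨y, -(16 / 100 * tau3 y)⟩ ⟨d, (Ow b z m.1 2).im⟩ -
      V3 ⟨a, (Ow b z m.1 0).im⟩ ⟨y, Tm b zs m * tau3 y⟩ ⟨d, (Ow b z m.1 2).im⟩ <
      2 * Real.pi * (16 / 100 * tau3 y) :=
    FI3.fdn y0 y1 hT hT5 q1 (q2.trans a1) hu r1 r2 hk
  have e0 : (⟨a, (Ow b z m.1 0).im⟩ : ℂ) = Ow b z m.1 0 := Complex.ext rfl rfl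
  have e2 : (⟨d, (Ow b z m.1 2).im⟩ : ℂ) = Ow b z m.1 2 := Complex.ext rfl rfl
  rw [e0, e2] at h2
  linarith only [h1, h2]

/-- **The inner variable of an interior `3` has no mode.** -/
theorem inner_three (hb : ClassW b) (L : LocA b zs)
    (m : {i : Fin (M + 1) // (tyW b i).isMid = true}) (hN : NbT b R nb) (hM : MM b zs R nb z p)
    (hq : ∀ h : Fin M, RH1 b (.inl h) → p (.inl h) = 0)
    (hA : ∀ (h : Fin M) (s : Fin 3) (j : Fin (M + 1)), Adj h m.1 s j → p (.inl h) = 0)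
    (hB : ∀ (h : Fin M) (i j : Fin (M + 1)), Adj h i 0 j →
      p (.inl h) = 0 ∨ (clsW b i = .one ∧ clsW b j = .three))
    (hc : clsW b m.1 = .three) (hn : Sum.inl (Sum.inr m) ∉ nb) : p (.inr m) = 0 := by
  have hmp : mp (clsW b m.1) = ⟨8 / 10, 5 / 100, 5 / 100⟩ := by
    rw [hc]
    rfl
  have htm : ∀ y, trm b m y = tau3 y := by
    intro y
    unfold trm tau3
    rw [hmp]
  have h00 : ∀ y : ℝ, y ≤ 0 ∨ 8 / 10 ≤ y → tau3 y = 0 := by
    intro y hy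
    have h1 := (tau3_mem y).1
    refine le_antisymm ?_ h1
    unfold tau3 tr
    refine max_le le_rfl ?_
    rcases hy with hy | hy
    · exact (min_le_right _ _).trans ((min_le_left _ _).trans
        (div_nonpos_of_nonpos_of_nonneg (by linarith only [hy]) (by norm_num)))
    · exact (min_le_right _ _).trans ((min_le_right _ _).trans
        (div_nonpos_of_nonpos_of_nonneg (by linarith only [hy]) (by norm_num)))
  obtain ⟨h0, h2, j0, j2, A0, A2⟩ := in3_adj (clsW_inner hb (Or.inr (Or.inr hc)))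
  cases hM.ipos0 hN.ok.1 m hn with
  | main y y0 y1 e hp => exact hp
  | up y y0 y1 hT e hp =>
    rw [htm] at e hp
    by_cases hy : y ≤ 0 ∨ 8 / 10 ≤ y
    · rw [hp, h00 y hy, mul_zero]
    · push Not at hy
      exact (In3.false ⟨hb, L, hN, hM, hc, hn, hq, hA, hB, A0, A2, hy.1, hy.2, hT, e,
        hp⟩).elim
  | dn y y0 y1 hT e hp =>
    rw [htm] at e hp
    by_cases hy : y ≤ 0 ∨ 8 / 10 ≤ y
    · rw [hp, h00 y hy, mul_zero]
    · push Not at hy
      exact (in3_dn hb L m hN hM hq hA hc hn A0 A2 hy.1 hy.2 hT e hp).elim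

end SR

end Pool.Agent.Work.MP_b30479_gt.G2
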