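import Pool.Agent.Work.MP_b30479_gt.G2.WMMY
import Pool.Agent.Work.MP_b30479_gt.G2.WMMZ
import Pool.Agent.Work.MP_b30479_gt.G2.TWF
import Pool.Agent.Work.MP_b30479_gt.G2.WMI3E
import Pool.Agent.Work.MP_b30479_gt.G2.WM_in3G
import Pool.Agent.Work.MP_b30479_gt.G2.WM_3b3a

/-!
# Modes and tails
-/

namespace Pool.Agent.Work.MP_b30479_gt.G2

open Finset VOL Filter Topology

namespace SR

variable {M : ℕ} {b : Fin (M + 1) → ℤ} {zs : DD (tyW b) ⊕ ZZ (tyW b) → ℂ}

theorem kd_slot {P Q : Cl} (h0 : Kd b zs P Q 0) (h2 : Kd b zs P Q 2) (s : Fin 3) :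
    Kd b zs P Q s := by
  intro R nb z p h i j x hN hM hq D hi hj
  rcases D.adj.slot with h1 | h1
  · subst h1
    exact h0 hN hM hq D hi hj
  · subst h1
    exact h2 hN hM hq D hi hj

/-- **The inner variables.** -/
theorem innersL_all (hb : ClassW b) (L : LocA b zs) : InnersL b zs :=
  ⟨fun m hN hM hq hA hB hc hn => inner_three hb L m hN hM hq hA hB hc hn,
    fun m hN hM hq hA hc hn => innersL_threeE hb L.L m hN hM hq hA hc hn⟩

/-- **Modes and tails**; open: `1|3`, `3|2` (slot `0`), `3|3` (slot `0`). -/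
theorem restQ_of' (hM : 1 ≤ M) (hb : ClassW b) (L : LocA b zs) (k13 : Kd b zs .one .three 2)
    (k13' : Kd b zs .one .three 0) (k32 : Kd b zs .three .two 0) (k330 : Kd b zs .three .three 0) :
    RestQ b zs :=
  restQ_of hb L (kindsL_all hb L k13 k13' k32 (kd_slot k330 (kind_three_three2 hb L)))
    (innersL_all hb L) (TL.tailOkM hM hb L)

end SR

end Pool.Agent.Work.MP_b30479_gt.G2
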