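import Pool.Agent.Work.MP_b30479_gt.G2.ZNb
import Pool.Agent.Work.MP_b30479_gt.G2.ZNc
import Pool.Agent.Work.MP_b30479_gt.G2.ZNd

/-!
# `RowsN.nR`: the certified inequalities
-/

namespace Pool.Agent.Work.MP_b30479_gt.G2

open NumU (uu)
open NumL (E chkF4)
open NumL.E (mn_val mx_val ab_val)

namespace ZD

namespace ZN

theorem rI {X σ ρ : ℝ} (h0 : 13 / 100 ≤ X) (h1 : X ≤ 1 / 2) (hσ : |σ| ≤ 1 / 2) (r0 : 0 ≤ ρ)
    (r1 : ρ ≤ 1045 / 10000) :
    0 < HH X (16 / 100 * min 1 (10 / 3 * (6 / 10 - X))) (3 / 2 * Real.pi) σ (ρ * LT.th σ) ∨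
      dN X < nB0 X (16 / 100 * min 1 (10 / 3 * (6 / 10 - X))) σ (ρ * LT.th σ) := by
  obtain ⟨s0, s1⟩ := abs_le.1 hσ
  obtain ⟨e, he, hp⟩ := cI_ex h0 h1 s0 s1 r0 r1
  simp only [rowI, List.mem_cons, List.not_mem_nil, or_false] at he
  rcases he with rfl | rfl
  · left
    rw [F2_val] at hp
    simp only [ZN.x, et, tR, E.val, thE_val, mn_val, NumI.lkR] at hp
    norm_num at hp ⊢
    exact hp
  · right
    rw [F1_val] at hp
    simp only [ZN.x, et, tR, E.val, thE_val, mn_val, NumI.lkR] at hp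
    norm_num at hp ⊢
    linarith only [hp]

theorem rL {a X σ ρ : ℝ} (ha : a = 12 / 100 ∨ a = 13 / 100) (h0 : 0 ≤ X) (h1 : X ≤ 13 / 100)
    (hσ : |σ| ≤ 1 / 2) (r0 : 0 ≤ ρ) (r1 : ρ ≤ 1045 / 10000) :
    0 < HH X (16 / 100 * min 1 (X / a)) (3 / 2 * Real.pi) σ (ρ * LT.th σ) ∨
      dN X < nB0 X (16 / 100 * min 1 (X / a)) σ (ρ * LT.th σ) := by
  obtain ⟨s0, s1⟩ := abs_le.1 hσ
  rcases ha with rfl | rfl
  · obtain ⟨e, he, hp⟩ := chkF4 cL12 (by norm_num) (x := X) (y := σ) (z := ρ) (w := 0)
      (by norm_num; linarith only [h0]) (by norm_num; linarith only [h1]) (by norm_num; linarith only [s0]) (by norm_num; linarith only [s1])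
      (by norm_num; linarith only [r0]) (by norm_num; linarith only [r1]) (by norm_num) (by norm_num)
    have e1 : X / (12 / 100) = 100 / 12 * X := by ring
    rw [e1]
    simp only [rowL, List.mem_cons, List.not_mem_nil, or_false] at he
    rcases he with rfl | rfl
    · left
      rw [F2_val] at hp
      simp only [ZN.x, et, tL, E.val, thE_val, mn_val, NumI.lkR] at hp
      norm_num at hp ⊢
      exact hp
    · right
      rw [F1_val] at hp
      simp only [ZN.x, et, tL, E.val, thE_val, mn_val, NumI.lkR] at hp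
      norm_num at hp ⊢
      linarith only [hp]
  · obtain ⟨e, he, hp⟩ := chkF4 cL13 (by norm_num) (x := X) (y := σ) (z := ρ) (w := 0)
      (by norm_num; linarith only [h0]) (by norm_num; linarith only [h1]) (by norm_num; linarith only [s0]) (by norm_num; linarith only [s1])
      (by norm_num; linarith only [r0]) (by norm_num; linarith only [r1]) (by norm_num) (by norm_num)
    have e1 : X / (13 / 100) = 100 / 13 * X := by ring
    rw [e1]
    simp only [rowL, List.mem_cons, List.not_mem_nil, or_false] at he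
    rcases he with rfl | rfl
    · left
      rw [F2_val] at hp
      simp only [ZN.x, et, tL, E.val, thE_val, mn_val, NumI.lkR] at hp
      norm_num at hp ⊢
      exact hp
    · right
      rw [F1_val] at hp
      simp only [ZN.x, et, tL, E.val, thE_val, mn_val, NumI.lkR] at hp
      norm_num at hp ⊢
      linarith only [hp]

/-- the height of the upper path at `X` -/
noncomputable def vX (X : ℝ) : ℝ := 8 / 15 * (6 / 10 - X)
/-- bound for `F1` -/
noncomputable def dX (X : ℝ) : ℝ := 15 / 1000 + 84 / 100 * (X - 3 / 10)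

theorem rA {X l σ ρ : ℝ} (h0 : 1 / 2 ≤ X) (h1 : X ≤ 6 / 10) (l0 : 0 ≤ l) (l1 : l ≤ 1)
    (s0 : -(1 / 2) ≤ σ) (s1 : σ ≤ -(1 / 5)) (r0 : 0 ≤ ρ) (r1 : ρ ≤ 1045 / 10000) :
    0 < Hp X (vX X * l) σ (ρ * LT.th σ) (NumI.lnB (X - 1 / 2 - σ) (ρ * LT.th σ + vX X * l) -
      NumI.lnB (X + 1 / 2 + σ) (ρ * LT.th σ - vX X * l) - 2 * NumI.lnB X (vX X * l)) := by
  obtain ⟨e, he, hp⟩ := chkF4 cA (by norm_num) (x := X) (y := l) (z := σ) (w := ρ)
    (by norm_num; linarith only [h0]) (by norm_num; linarith only [h1]) (by norm_num; linarith only [l0]) (by norm_num; linarith only [l1])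
    (by norm_num; linarith only [s0]) (by norm_num; linarith only [s1]) (by norm_num; linarith only [r0]) (by norm_num; linarith only [r1])
  simp only [rowA, List.mem_cons, List.not_mem_nil, or_false] at he
  subst he
  rw [HpE_val, dA_val] at hp
  simp only [ZN.x, E.val, thE_val, v1E_val, NumI.lkR] at hp
  unfold vX
  exact hp

theorem rB1 {X l a l' : ℝ} (h0 : 1 / 2 ≤ X) (h1 : X ≤ 6 / 10) (l0 : 0 ≤ l) (l1 : l ≤ 1)
    (a0 : 8 / 10 ≤ a) (a1 : a ≤ 1) (r0 : 0 ≤ l') (r1 : l' ≤ 1) :
    0 < Hp X (vX X * l) (a - X - 1 / 2) (vX X * l')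
      (NumI.lnB (X - 1 / 2 - (a - X - 1 / 2)) (vX X * l' + vX X * l) -
      NumI.lnB (X + 1 / 2 + (a - X - 1 / 2)) (vX X * l' - vX X * l) - 2 * NumI.lnB X (vX X * l)) ∨
      dX X < nB0 X (vX X) (a - X - 1 / 2) (vX X * l') := by
  obtain ⟨e, he, hp⟩ := chkF4 cB1 (by norm_num) (x := X) (y := l) (z := a) (w := l')
    (by norm_num; linarith only [h0]) (by norm_num; linarith only [h1]) (by norm_num; linarith only [l0]) (by norm_num; linarith only [l1])
    (by norm_num; linarith only [a0]) (by norm_num; linarith only [a1]) (by norm_num; linarith only [r0]) (by norm_num; linarith only [r1])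
  simp only [rowB1, List.mem_cons, List.not_mem_nil, or_false] at he
  unfold vX dX
  rcases he with rfl | rfl
  · left
    rw [HpE_val, dA_val] at hp
    simp only [ZN.x, half, E.val, v1E_val, NumI.lkR] at hp
    norm_num at hp ⊢
    exact hp
  · right
    rw [F1v_val] at hp
    simp only [ZN.x, half, E.val, v1E_val, NumI.lkR] at hp
    norm_num at hp ⊢
    linarith only [hp]

theorem rB2 {X l a l' : ℝ} (h0 : 1 / 2 ≤ X) (h1 : X ≤ 6 / 10) (l0 : 0 ≤ l) (l1 : l ≤ 1)
    (a0 : 8 / 10 ≤ a) (a1 : a ≤ 1) (r0 : 0 ≤ l') (r1 : l' ≤ 1) :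
    0 < Hp X (vX X * l) (a - X - 1 / 2) (vX X + (1045 / 10000 - vX X) * l')
      (NumI.lnB (max (X - 1 / 2 - (a - X - 1 / 2)) (5 / 100))
        (vX X + (1045 / 10000 - vX X) * l' + vX X * l) +
      NumI.lnB (max (1 - (X + 1 / 2 + (a - X - 1 / 2))) (3 / 100))
        (vX X + (1045 / 10000 - vX X) * l' - vX X * l) - 2 * NumI.lnB X (vX X * l)) ∨
      dX X < nB0 X (vX X) (a - X - 1 / 2) (vX X + (1045 / 10000 - vX X) * l') := by
  obtain ⟨e, he, hp⟩ := chkF4 cB2 (by norm_num) (x := X) (y := l) (z := a) (w := l')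
    (by norm_num; linarith only [h0]) (by norm_num; linarith only [h1]) (by norm_num; linarith only [l0]) (by norm_num; linarith only [l1])
    (by norm_num; linarith only [a0]) (by norm_num; linarith only [a1]) (by norm_num; linarith only [r0]) (by norm_num; linarith only [r1])
  simp only [rowB2, List.mem_cons, List.not_mem_nil, or_false] at he
  unfold vX dX
  rcases he with rfl | rfl
  · left
    rw [HpE_val, dD_val] at hp
    simp only [ZN.x, half, E.val, v1E_val, NumI.lkR] at hp
    norm_num at hp ⊢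
    exact hp
  · right
    rw [F1v_val] at hp
    simp only [ZN.x, half, E.val, v1E_val, NumI.lkR] at hp
    norm_num at hp ⊢
    linarith only [hp]

theorem rD1 {X a l' : ℝ} (h0 : 1 / 2 ≤ X) (h1 : X ≤ 6 / 10)
    (a0 : 995 / 1000 ≤ a) (a1 : a ≤ 135 / 100) (r0 : 0 ≤ l') (r1 : l' ≤ 1) :
    dX X < nB0 X (vX X) (a - X - 1 / 2) (vX X * l') := by
  have key : ∃ e ∈ rowD1, 0 < e.val [X, 0, a, l'] := by
    rcases le_total a 1 with h2 | h2
    · exact chkF4 cBz (by norm_num) (x := X) (y := 0) (z := a) (w := l')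
        (by norm_num; linarith only [h0]) (by norm_num; linarith only [h1]) (by norm_num) (by norm_num)
        (by norm_num; linarith only [a0]) (by norm_num; linarith only [h2]) (by norm_num; linarith only [r0])
        (by norm_num; linarith only [r1])
    · exact chkF4 cD1 (by norm_num) (x := X) (y := 0) (z := a) (w := l')
        (by norm_num; linarith only [h0]) (by norm_num; linarith only [h1]) (by norm_num) (by norm_num)
        (by norm_num; linarith only [h2]) (by norm_num; linarith only [a1]) (by norm_num; linarith only [r0])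
        (by norm_num; linarith only [r1])
  obtain ⟨e, he, hp⟩ := key
  simp only [rowD1, List.mem_cons, List.not_mem_nil, or_false] at he
  subst he
  unfold vX dX
  rw [F1v_val] at hp
  simp only [ZN.x, half, E.val, v1E_val, NumI.lkR] at hp
  norm_num at hp ⊢
  linarith only [hp]

theorem rD2 {X l σ l' : ℝ} (h0 : 1 / 2 ≤ X) (h1 : X ≤ 6 / 10) (l0 : 0 ≤ l) (l1 : l ≤ 1)
    (s0 : 1 / 4 ≤ σ) (s1 : σ ≤ 1 / 2) (r0 : 0 ≤ l') (r1 : l' ≤ 1) :
    0 < Hp X (vX X * (l' + (1 - l') * l)) σ (vX X * l')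
      (NumI.lnB (X + 1 / 2 + σ - 1) (vX X * (l' + (1 - l') * l) - vX X * l') +
      NumI.lnB (X + 1 / 2 - σ) (vX X * l' + vX X * (l' + (1 - l') * l)) -
      2 * NumI.lnB X (vX X * (l' + (1 - l') * l))) ∨
      dX X < nB0 X (vX X) σ (vX X * l') := by
  obtain ⟨e, he, hp⟩ := chkF4 cD2 (by norm_num) (x := X) (y := l) (z := σ) (w := l')
    (by norm_num; linarith only [h0]) (by norm_num; linarith only [h1]) (by norm_num; linarith only [l0]) (by norm_num; linarith only [l1])
    (by norm_num; linarith only [s0]) (by norm_num; linarith only [s1]) (by norm_num; linarith only [r0]) (by norm_num; linarith only [r1])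
  simp only [rowD2, List.mem_cons, List.not_mem_nil, or_false] at he
  unfold vX dX
  rcases he with rfl | rfl
  · left
    rw [HpE_val, dE_val] at hp
    simp only [ZN.x, half, E.val, v1E_val, NumI.lkR] at hp
    norm_num at hp ⊢
    exact hp
  · right
    rw [F1v_val] at hp
    simp only [ZN.x, half, E.val, v1E_val, NumI.lkR] at hp
    norm_num at hp ⊢
    linarith only [hp]

theorem rG {y : ℝ} (h0 : 0 ≤ y) (h1 : y ≤ 7 / 10000) :
    3374 / 10000 < uu (425 / 1000) y + uu (975 / 1000) y - 2 * uu (2 / 10) y := by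
  obtain ⟨e, he, hp⟩ := chkF4 cG (by norm_num) (x := y) (y := 0) (z := 0) (w := 0)
    (by norm_num; linarith only [h0]) (by norm_num; linarith only [h1]) (by norm_num) (by norm_num)
    (by norm_num) (by norm_num) (by norm_num) (by norm_num)
  simp only [rowG, List.mem_cons, List.not_mem_nil, or_false] at he
  subst he
  simp only [E.val, NumI.lkR] at hp
  norm_num at hp ⊢
  linarith only [hp]

theorem rU {a : ℝ} (h0 : 0 ≤ a) (h1 : a ≤ 16 / 10) : uu a 0 < 1618 / 10000 := by
  obtain ⟨e, he, hp⟩ := chkF4 cU (by norm_num) (x := a) (y := 0) (z := 0) (w := 0)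
    (by norm_num; linarith only [h0]) (by norm_num; linarith only [h1]) (by norm_num) (by norm_num)
    (by norm_num) (by norm_num) (by norm_num) (by norm_num)
  simp only [rowU, List.mem_cons, List.not_mem_nil, or_false] at he
  subst he
  simp only [E.val, NumI.lkR] at hp
  norm_num at hp ⊢
  linarith only [hp]

end ZN

end ZD

end Pool.Agent.Work.MP_b30479_gt.G2
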