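import Pool.Agent.Work.MP_b30479_gt.G2.ZNe
import Pool.Agent.Work.MP_b30479_gt.G2.ZNf
import Pool.Agent.Work.MP_b30479_gt.G2.RngA

/-!
# `RowsN.nR`
-/

namespace Pool.Agent.Work.MP_b30479_gt.G2

open NumU (uu uu_neg uu_one_sub uu_add_one UU_uu)

namespace ZD

namespace ZN

open ZA

/-! ### derivatives -/

theorem dv1 {a c v : ℝ} (h0 : 0 < a) (h1 : a < 1) :
    HasDerivAt (fun v => uu a (-v + c)) (NumI.lnB a (-v + c)) v := by
  have h := (uu_t (c := c) (τ := -v) h0 h1).comp v (hasDerivAt_neg v)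
  have e : (fun τ => uu a (τ + c)) ∘ Neg.neg = fun v => uu a (-v + c) := rfl
  rw [e] at h
  refine HasDerivAt.congr_deriv h ?_
  ring

theorem dabs_neg {c v : ℝ} (h : -v + c < 0) : HasDerivAt (fun v => |(-v + c)|) 1 v := by
  have h1 := (hasDerivAt_abs_neg h).comp v ((hasDerivAt_neg v).add_const c)
  refine HasDerivAt.congr_deriv h1 ?_
  norm_num

theorem dabs_pos {c v : ℝ} (h : 0 < -v + c) : HasDerivAt (fun v => |(-v + c)|) (-1) v := by
  have h1 := (hasDerivAt_abs_pos h).comp v ((hasDerivAt_neg v).add_const c)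
  refine HasDerivAt.congr_deriv h1 ?_
  norm_num

theorem dv2 {a c v : ℝ} (h0 : 1 < a) (h1 : a < 2) (hc : -v + c < 0) :
    HasDerivAt (fun v => uu a (-v + c)) (NumI.lnB (a - 1) (-v + c) + Real.pi) v := by
  have e : (fun v => uu a (-v + c)) = fun v => uu (a - 1) (-v + c) + Real.pi * |(-v + c)| := by
    funext v
    rw [← uu_add_one, sub_add_cancel]
  rw [e]
  refine HasDerivAt.congr_deriv ((dv1 (by linarith only [h0]) (by linarith only [h1])).add
    ((dabs_neg hc).const_mul Real.pi)) ?_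
  ring

theorem uu_one (t : ℝ) : uu 1 t = Real.pi / 2 * |t| := by
  have := uu_one_sub 0 t
  rw [sub_zero, UA.uu_zero, neg_neg] at this
  exact this

theorem dvo_neg {c v : ℝ} (hc : -v + c < 0) :
    HasDerivAt (fun v => uu 1 (-v + c)) (Real.pi / 2) v := by
  have e : (fun v => uu 1 (-v + c)) = fun v => Real.pi / 2 * |(-v + c)| := by
    funext v
    exact uu_one _
  rw [e]
  refine HasDerivAt.congr_deriv ((dabs_neg hc).const_mul _) ?_
  ring

theorem dvo_pos {c v : ℝ} (hc : 0 < -v + c) :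
    HasDerivAt (fun v => uu 1 (-v + c)) (-(Real.pi / 2)) v := by
  have e : (fun v => uu 1 (-v + c)) = fun v => Real.pi / 2 * |(-v + c)| := by
    funext v
    exact uu_one _
  rw [e]
  refine HasDerivAt.congr_deriv ((dabs_pos hc).const_mul _) ?_
  ring

theorem fder {x σ η v g1 g2 : ℝ} (h0 : 0 < x) (h1 : x < 1)
    (d1 : HasDerivAt (fun v => uu (x + 1 / 2 + σ) (-v + η)) g1 v)
    (d2 : HasDerivAt (fun v => uu (x + 1 / 2 - σ) (-v + -η)) g2 v) :
    HasDerivAt (fun v => fR ⟨x, -v⟩ ⟨σ, η⟩) (g1 + g2 + 2 * NumI.lnB x v) v := by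
  have e : (fun v => fR ⟨x, -v⟩ ⟨σ, η⟩) = fun v =>
      uu (x + 1 / 2 + σ) (-v + η) + uu (x + 1 / 2 - σ) (-v + -η) - 2 * uu x (-v + 0) := by
    funext v
    rw [fR_uu, add_zero]
    rfl
  rw [e]
  refine HasDerivAt.congr_deriv ((d1.add d2).sub ((dv1 (c := 0) h0 h1).const_mul 2)) ?_
  rw [add_zero, lnB_neg]
  ring

/-! ### the zones -/

/-- the alternative, right of `1/2` -/
def Alt (x σ η : ℝ) : Prop :=
  dX x < nB0 x (vX x) σ η ∨ 0 < HH x (vX x) (13 / 10 * Real.pi) σ η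

theorem vX_pos {x : ℝ} (h1 : x < 6 / 10) : 0 < vX x := by
  unfold vX
  linarith only [h1]

theorem vX_le {x : ℝ} (h0 : 1 / 2 ≤ x) : vX x ≤ 54 / 1000 := by
  unfold vX
  linarith only [h0]

theorem alt_of {x σ η : ℝ} (h0 : 1 / 2 ≤ x) (h1 : x < 6 / 10)
    (h : ∀ v, 0 < v → v < vX x → ∃ f' d, HasDerivAt (fun v => fR ⟨x, -v⟩ ⟨σ, η⟩) f' v ∧
      0 < Hp x v σ η d ∧ d ≤ Real.pi - f') : 0 < HH x (vX x) (13 / 10 * Real.pi) σ η := by
  have := HH_mono (x := x) (σ := σ) (η := η) le_rfl (vX_pos h1) (fun v v0 v1 => by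
    obtain ⟨f', d, a1, a2, a3⟩ := h v v0 v1
    exact ⟨f', a1, a2.trans_le (Hp_mono h0 h1.le v0.le a3)⟩)
  rwa [HH_zero] at this

theorem zoneA {x σ ρ : ℝ} (h0 : 1 / 2 ≤ x) (h1 : x < 6 / 10) (s0 : -(1 / 2) ≤ σ)
    (s1 : σ ≤ -(1 / 5)) (r0 : 0 ≤ ρ) (r1 : ρ ≤ 1045 / 10000) : Alt x σ (ρ * LT.th σ) := by
  right
  have hη : 0 ≤ ρ * LT.th σ := mul_nonneg r0 (th_nonneg (abs_le.2 ⟨s0, by linarith only [h0, h1, s1]⟩))
  refine alt_of h0 h1 fun v v0 v1 => ?_
  have hV := vX_pos h1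
  obtain ⟨l, hl0, hl1, hl⟩ : ∃ l : ℝ, 0 ≤ l ∧ l ≤ 1 ∧ vX x * l = v :=
    ⟨v / vX x, by positivity, by rw [div_le_one hV]; exact v1.le, by field_simp⟩
  have key := rA h0 h1.le hl0 hl1 s0 s1 r0 r1
  rw [hl] at key
  refine ⟨_, _, fder (by linarith only [h0, h1]) (by linarith only [h0, h1]) (dv1 (by linarith only [h0, h1, s0]) (by linarith only [h0, h1, s1]))
    (dv2 (by linarith only [h0, h1, s1]) (by linarith only [h0, h1, s0]) (by linarith only [hη, v0])), key, ?_⟩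
  have e1 : -v + -(ρ * LT.th σ) = -(ρ * LT.th σ + v) := by ring
  have e2 : -v + ρ * LT.th σ = ρ * LT.th σ - v := by ring
  have e3 : x + 1 / 2 - σ - 1 = x - 1 / 2 - σ := by ring
  rw [e1, e2, e3, lnB_neg]
  linarith only []

theorem zoneB1 {x σ η : ℝ} (h0 : 1 / 2 ≤ x) (h1 : x < 6 / 10) (s0 : 8 / 10 ≤ x + 1 / 2 + σ)
    (s1 : x + 1 / 2 + σ ≤ 1) (r0 : 0 ≤ η) (r1 : η ≤ vX x) : Alt x σ η := by
  have hV := vX_pos h1
  obtain ⟨l', hl0', hl1', hl'⟩ : ∃ l : ℝ, 0 ≤ l ∧ l ≤ 1 ∧ vX x * l = η :=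
    ⟨η / vX x, by positivity, by rw [div_le_one hV]; exact r1, by field_simp⟩
  have es : x + 1 / 2 + σ - x - 1 / 2 = σ := by ring
  by_cases ha : 995 / 1000 ≤ x + 1 / 2 + σ
  · left
    have := rD1 h0 h1.le ha (by linarith only [h0, h1, s1]) hl0' hl1'
    rw [es, hl'] at this
    exact this
  · push Not at ha
    by_cases hF : dX x < nB0 x (vX x) σ η
    · exact Or.inl hF
    right
    refine alt_of h0 h1 fun v v0 v1 => ?_
    obtain ⟨l, hl0, hl1, hl⟩ : ∃ l : ℝ, 0 ≤ l ∧ l ≤ 1 ∧ vX x * l = v :=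
      ⟨v / vX x, by positivity, by rw [div_le_one hV]; exact v1.le, by field_simp⟩
    have key := rB1 h0 h1.le hl0 hl1 s0 s1 hl0' hl1'
    rw [es, hl', hl] at key
    have key := key.resolve_right hF
    refine ⟨_, _, fder (by linarith only [h0, h1]) (by linarith only [h0, h1]) (dv1 (by linarith only [h0, h1, s0]) (by linarith only [h0, h1, ha]))
      (dv2 (by linarith only [h0, h1, ha]) (by linarith only [h0, h1, s0]) (by linarith only [r0, v0])), key, ?_⟩
    have e1 : -v + -η = -(η + v) := by ring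
    have e2 : -v + η = η - v := by ring
    have e3 : x + 1 / 2 - σ - 1 = x - 1 / 2 - σ := by ring
    rw [e1, e2, e3, lnB_neg]
    linarith only []

theorem zoneB2 {x σ η : ℝ} (h0 : 1 / 2 ≤ x) (h1 : x < 6 / 10) (s0 : 8 / 10 ≤ x + 1 / 2 + σ)
    (s1 : x + 1 / 2 + σ ≤ 1) (r0 : vX x ≤ η) (r1 : η ≤ 1045 / 10000) : Alt x σ η := by
  have hV := vX_pos h1
  have hV' := vX_le h0
  have hW : 0 < 1045 / 10000 - vX x := by linarith only [hV, hV']
  obtain ⟨l', hl0', hl1', hl'⟩ : ∃ l : ℝ, 0 ≤ l ∧ l ≤ 1 ∧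
      vX x + (1045 / 10000 - vX x) * l = η := by
    refine ⟨(η - vX x) / (1045 / 10000 - vX x), div_nonneg (by linarith only [r0]) hW.le, ?_, ?_⟩
    · rw [div_le_one hW]
      linarith only [r1]
    · rw [mul_div_cancel₀ _ hW.ne']
      ring
  have es : x + 1 / 2 + σ - x - 1 / 2 = σ := by ring
  by_cases hF : dX x < nB0 x (vX x) σ η
  · exact Or.inl hF
  right
  refine alt_of h0 h1 fun v v0 v1 => ?_
  obtain ⟨l, hl0, hl1, hl⟩ : ∃ l : ℝ, 0 ≤ l ∧ l ≤ 1 ∧ vX x * l = v :=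
    ⟨v / vX x, by positivity, by rw [div_le_one hV]; exact v1.le, by field_simp⟩
  have key := rB2 h0 h1.le hl0 hl1 s0 s1 hl0' hl1'
  rw [es, hl', hl] at key
  have key := key.resolve_right hF
  -- the slope of the first term
  have A1 : ∃ g1, HasDerivAt (fun v => uu (x + 1 / 2 + σ) (-v + η)) g1 v ∧
      NumI.lnB (max (1 - (x + 1 / 2 + σ)) (3 / 100)) (η - v) ≤ -g1 := by
    rcases s1.eq_or_lt with h2 | h2
    · rw [h2]
      refine ⟨_, dvo_pos (by linarith only [r0, v1]), ?_⟩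
      rw [neg_neg]
      exact lnB_le _ _
    · refine ⟨_, dv1 (by linarith only [s0, hV', v0, v1]) h2, ?_⟩
      have e2 : -v + η = η - v := by ring
      rw [e2, ← lnB_one_sub]
      exact lnB_anti (by linarith only [h2]) (le_max_left _ _) (max_le (by linarith only [s0, hV', v0, v1]) (by norm_num))
        (by linarith only [r0, v1])
  have A2 : ∃ g2, HasDerivAt (fun v => uu (x + 1 / 2 - σ) (-v + -η)) g2 v ∧
      NumI.lnB (max (x - 1 / 2 - σ) (5 / 100)) (η + v) ≤ Real.pi - g2 := by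
    rcases (show 1 ≤ x + 1 / 2 - σ by linarith only [h0, s1]).eq_or_lt with h2 | h2
    · rw [← h2]
      refine ⟨_, dvo_neg (by linarith only [r0, v0, v1]), ?_⟩
      have := lnB_le (max (x - 1 / 2 - σ) (5 / 100)) (η + v)
      linarith only [this]
    · refine ⟨_, dv2 h2 (by linarith only [h1, s0, hV', v0, v1]) (by linarith only [r0, v0, v1]), ?_⟩
      have e1 : -v + -η = -(η + v) := by ring
      have e3 : x + 1 / 2 - σ - 1 = x - 1 / 2 - σ := by ring
      rw [e1, e3, lnB_neg]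
      have := lnB_anti (a := x - 1 / 2 - σ) (b := max (x - 1 / 2 - σ) (5 / 100)) (t := η + v)
        (by linarith only [h2]) (le_max_left _ _) (max_le (by linarith only [h1, s0, hV', v0, v1]) (by norm_num)) (by linarith only [r0, v0, v1])
      linarith only [this]
  obtain ⟨g1, d1, b1⟩ := A1
  obtain ⟨g2, d2, b2⟩ := A2
  refine ⟨_, _, fder (by linarith only [h0, hV', v0, v1]) (by linarith only [h1, hV', v0, v1]) d1 d2, key, ?_⟩
  linarith only [b1, b2]

/-- right of the singularity, height at most `η` -/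
theorem zoneC {x σ η w : ℝ} (h0 : 1 / 2 ≤ x) (h1 : x < 6 / 10) (hσ : σ ≤ 1 / 2)
    (s1 : 1 ≤ x + 1 / 2 + σ) (w0 : 0 ≤ w) (r0 : w ≤ η) (r1 : η ≤ 1045 / 10000) :
    0 ≤ HH x w (13 / 10 * Real.pi) σ η ∧ (0 < w → 0 < HH x w (13 / 10 * Real.pi) σ η) := by
  have hp := Real.pi_gt_d2
  have hp2 := Real.pi_lt_d2
  have k1 := slQ (a := x + 1 / 2 + σ) (t := η - w) (t' := η) s1 (by linarith only [h1, hσ]) (by linarith only [r0])
    (by linarith only [w0])
  have k2 := upp0 (a := x + 1 / 2 - σ) (t := η) (t' := η + w) (by linarith only [h0, hσ, hp, hp2]) (by linarith only [h1, s1, hp, hp2])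
    (by linarith only [w0, r0]) (by linarith only [w0])
  have k3 := (sl_half (a := x) (t := 0) (t' := w) h0 (by linarith only [h1, hp, hp2]) le_rfl w0).1
  have k4 := (slH (a := x + 1 / 2 + σ) (t := 0) (t' := η - w) (by linarith only [s1, hp, hp2]) (by linarith only [h1, hσ]) le_rfl
    (by linarith only [r0])).2
  have k5 := upp0 (a := x + 1 / 2 - σ) (t := 0) (t' := η + w) (by linarith only [h0, hσ, hp, hp2]) (by linarith only [h1, s1, hp, hp2])
    le_rfl (by linarith only [w0, r0])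
  have u1 := rU (a := x + 1 / 2 + σ) (by linarith only [s1, hp, hp2]) (by linarith only [h1, hσ])
  have u2 := rU (a := x + 1 / 2 - σ) (by linarith only [h0, hσ, hp, hp2]) (by linarith only [h1, s1, hp, hp2])
  have u3 := rU (a := 1 - x) (by linarith only [h1, hp, hp2]) (by linarith only [h0, hp, hp2])
  rw [uu_one_sub] at u3
  have e0 : fR ⟨x, 0⟩ ⟨σ, η⟩ = uu (x + 1 / 2 + σ) η + uu (x + 1 / 2 - σ) η - 2 * uu x 0 := by
    rw [fR_uu, zero_add, zero_sub, uu_neg]
  have e1 : fR ⟨x, -w⟩ ⟨σ, η⟩ = uu (x + 1 / 2 + σ) (η - w) + uu (x + 1 / 2 - σ) (η + w) -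
      2 * uu x w := by
    rw [fR_uu, uu_neg x w]
    congr 2
    · congr 1
      ring
    · rw [← uu_neg]
      congr 1
      ring
  have hb : 0 ≤ bR σ η := by
    unfold bR
    have := le_max_right σ 0
    have : 0 ≤ η := by linarith only [w0, r0]
    positivity
  have q1 : -(Real.pi / 2 * w) ≤ fR ⟨x, 0⟩ ⟨σ, η⟩ - fR ⟨x, -w⟩ ⟨σ, η⟩ := by
    rw [e0, e1]
    have a1 : η - (η - w) = w := by ring
    have a2 : η + w - η = w := by ring
    rw [a1] at k1
    rw [a2] at k2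
    linarith only [k1, k2, k3]
  have q2 : -(112 / 100) ≤ nB0 x w σ η := by
    unfold nB0
    rw [e1]
    have a1 : 11 / 10 * Real.pi * (η - w - 0) + Real.pi * (η + w - 0) ≤ 6915 / 10000 := by
      have : 11 / 10 * Real.pi * (η - w - 0) + Real.pi * (η + w - 0) =
        Real.pi * (21 / 10 * η - 1 / 10 * w) := by ring
      rw [this]
      calc Real.pi * (21 / 10 * η - 1 / 10 * w) ≤ 3.15 * (21 / 10 * (1045 / 10000)) :=
            mul_le_mul hp2.le (by linarith only [w0, r1]) (by linarith only [w0, r0]) (by norm_num)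
        _ ≤ _ := by norm_num
    have a2 : 0 ≤ Real.pi * w := by positivity
    linarith only [hp, hp2, k3, k4, k5, u1, u2, u3, hb, a1, a2]
  have hc : cN x ≤ 575 / 10000 := by
    unfold cN
    linarith only [h1]
  set B := nB0 x w σ η with hB
  set F := fR ⟨x, 0⟩ ⟨σ, η⟩ - fR ⟨x, -w⟩ ⟨σ, η⟩ with hF
  have main : w * (3 / 10) ≤ HH x w (13 / 10 * Real.pi) σ η := by
    unfold HH
    rw [← hB, ← hF]
    have c1 : w * (1494 / 1000) ≤ F + w * (Real.pi - cN x - 7 / 1600 * (13 / 10 * Real.pi)) := by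
      have : w * (1494 / 1000 + Real.pi / 2) ≤
          w * (Real.pi - cN x - 7 / 1600 * (13 / 10 * Real.pi)) :=
        mul_le_mul_of_nonneg_left (by linarith only [hp, hp2, hc]) w0
      linarith only [k1, k2, k3, e0, e1, this]
    have c2 : (x + 15 / 100) * (w * (1494 / 1000)) ≤
        (x + 15 / 100) * (F + w * (Real.pi - cN x - 7 / 1600 * (13 / 10 * Real.pi))) :=
      mul_le_mul_of_nonneg_left c1 (by linarith only [h0, hp, hp2])
    have c3 : (1825 / 1000 - 5 / 2 * x) * w * (-(112 / 100)) ≤ (1825 / 1000 - 5 / 2 * x) * w * B :=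
      mul_le_mul_of_nonneg_left q2 (mul_nonneg (by linarith only [h1, hp, hp2]) w0)
    have c4 : w * (3 / 10) ≤ w * ((x + 15 / 100) * (1494 / 1000) -
        (1825 / 1000 - 5 / 2 * x) * (112 / 100)) :=
      mul_le_mul_of_nonneg_left (by linarith only [h0, hp, hp2]) w0
    nlinarith only [c2, c3, c4]
  exact ⟨by linarith only [w0, main], fun h => by linarith only [main, h]⟩

theorem zoneD2 {x σ η : ℝ} (h0 : 1 / 2 ≤ x) (h1 : x < 6 / 10) (s0 : 1 / 4 ≤ σ)
    (s1 : σ ≤ 1 / 2) (r0 : 0 ≤ η) (r1 : η < vX x) : Alt x σ η := by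
  have hV := vX_pos h1
  have hV' := vX_le h0
  obtain ⟨l', hl0', hl1', hl'⟩ : ∃ l : ℝ, 0 ≤ l ∧ l ≤ 1 ∧ vX x * l = η :=
    ⟨η / vX x, by positivity, by rw [div_le_one hV]; exact r1.le, by field_simp⟩
  by_cases hF : dX x < nB0 x (vX x) σ η
  · exact Or.inl hF
  right
  have base := (zoneC (x := x) (σ := σ) (η := η) (w := η) h0 h1 s1 (by linarith only [h0, s0, r0, r1, hV']) r0 le_rfl
    (by linarith only [r0, r1, hV'])).1
  refine base.trans_lt (HH_mono r0 r1 fun v v0 v1 => ?_)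
  have hW : 0 < vX x - η := by linarith only [v0, v1]
  obtain ⟨l, hl0, hl1, hl⟩ : ∃ l : ℝ, 0 ≤ l ∧ l ≤ 1 ∧ vX x * (l' + (1 - l') * l) = v := by
    refine ⟨(v - η) / (vX x - η), div_nonneg (by linarith only [v0]) hW.le, ?_, ?_⟩
    · rw [div_le_one hW]
      linarith only [v1]
    · have : vX x * (l' + (1 - l') * ((v - η) / (vX x - η))) =
          vX x * l' + (vX x - vX x * l') * ((v - η) / (vX x - η)) := by ring
      rw [this, hl', mul_div_cancel₀ _ hW.ne']
      ring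
  have key := rD2 h0 h1.le hl0 hl1 s0 s1 hl0' hl1'
  rw [hl', hl] at key
  have key := key.resolve_right hF
  refine ⟨_, fder (by linarith only [h0, r0, hV', v0, v1]) (by linarith only [h1, r0, hV', v0, v1]) (dv2 (by linarith only [h0, s0, r0, hV', v0, v1]) (by linarith only [h1, s1, r0, hV', v0, v1]) (by linarith only [v0]))
    (dv1 (by linarith only [h0, s1, r0, hV', v0, v1]) (by linarith only [h1, s0, r0, hV', v0, v1])), key.trans_le (Hp_mono h0 h1.le (by linarith only [r0, v0]) ?_)⟩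
  have e1 : -v + -η = -(η + v) := by ring
  have e2 : -v + η = -(v - η) := by ring
  rw [e1, e2, lnB_neg, lnB_neg]
  linarith only []

theorem zones {x σ ρ : ℝ} (h0 : 1 / 2 ≤ x) (h1 : x < 6 / 10) (hσ : |σ| ≤ 1 / 2)
    (r0 : 0 ≤ ρ) (r1 : ρ ≤ 1045 / 10000) : Alt x σ (ρ * LT.th σ) := by
  obtain ⟨s0, s1⟩ := abs_le.1 hσ
  have hth := th_nonneg hσ
  have hth1 : LT.th σ ≤ 1 := min_le_left _ _
  have hη : 0 ≤ ρ * LT.th σ := mul_nonneg r0 hth
  have hη1 : ρ * LT.th σ ≤ 1045 / 10000 := by nlinarith only [r1, h0, h1, r0, hth1]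
  have hV := vX_pos h1
  by_cases c1 : σ ≤ -(1 / 5)
  · exact zoneA h0 h1 s0 c1 r0 r1
  push Not at c1
  by_cases c2 : x + 1 / 2 + σ ≤ 1
  · rcases le_total (ρ * LT.th σ) (vX x) with c3 | c3
    · exact zoneB1 h0 h1 (by linarith only [h0, c1]) c2 hη c3
    · exact zoneB2 h0 h1 (by linarith only [h0, c1]) c2 c3 hη1
  push Not at c2
  rcases le_or_gt (vX x) (ρ * LT.th σ) with c3 | c3
  · exact Or.inr ((zoneC h0 h1 s1 c2.le hV.le c3 hη1).2 hV)
  by_cases c4 : σ ≤ 1 / 4
  · left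
    obtain ⟨l', hl0', hl1', hl'⟩ : ∃ l : ℝ, 0 ≤ l ∧ l ≤ 1 ∧ vX x * l = ρ * LT.th σ :=
      ⟨ρ * LT.th σ / vX x, by positivity, by rw [div_le_one hV]; exact c3.le, by field_simp⟩
    have := rD1 (a := x + 1 / 2 + σ) h0 h1.le (by linarith only [h0, h1, c2]) (by linarith only [h1, c4]) hl0' hl1'
    have es : x + 1 / 2 + σ - x - 1 / 2 = σ := by ring
    rw [es, hl'] at this
    exact this
  · exact zoneD2 h0 h1 (by linarith only [c4]) s1 hη c3

/-! ### the row -/

/-- from the bounds to the row -/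
theorem nR_of {x t T σ η κ : ℝ} (h0 : 0 < x) (h1 : x < 60 / 100) (t0 : 0 ≤ t)
    (T0 : -(7 / 10000) ≤ T) (T1 : T ≤ 0) (hκ : 0 ≤ κ)
    (hfR : ∀ y, 0 ≤ y → fR ⟨x, 0⟩ ⟨σ, η⟩ - κ * y ≤ fR ⟨x, y⟩ ⟨σ, η⟩)
    (h : 0 < HH x (16 / 100 * t) κ σ η ∨ dN x < nB0 x (16 / 100 * t) σ η) :
    dN x < nBR x t T σ η ∨
      0 < nAR x t T σ η + 16 / 100 * t * (PN x * nBR x t T σ η - cN x) := by
  have hG : nB0 x (16 / 100 * t) σ η ≤ nBR x t T σ η := by
    have g := rG (y := -T) (by linarith only [T1]) (by linarith only [T0])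
    have e : gR (112 / 1000) (2 / 10) T = uu (425 / 1000) (-T) + uu (975 / 1000) (-T) -
        2 * uu (2 / 10) (-T) - 112 / 1000 := by
      unfold gR
      rw [fR_uu, add_zero, sub_zero]
      norm_num
    unfold nB0 nBR
    rw [e]
    linarith only [g]
  rcases h with h | h
  · right
    have hx : 0 < x + 15 / 100 := by linarith only [h0, h1]
    have hy : 0 ≤ -(T * t) := by nlinarith only [h0, h1, t0, T1]
    have k1 := hfR _ hy
    have k2 : κ * -(T * t) ≤ κ * (7 / 10000 * t) :=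
      mul_le_mul_of_nonneg_left (by nlinarith only [h0, h1, t0, T0]) hκ
    have hP : (x + 15 / 100) * PN x = 1825 / 1000 - 5 / 2 * x := by
      unfold PN
      field_simp
      ring
    have hq : 0 ≤ 16 / 100 * t * (1825 / 1000 - 5 / 2 * x) :=
      mul_nonneg (by positivity) (by linarith only [h0, h1])
    have k3 := mul_le_mul_of_nonneg_left hG hq
    have k4 : HH x (16 / 100 * t) κ σ η ≤
        (x + 15 / 100) * (nAR x t T σ η + 16 / 100 * t * (PN x * nBR x t T σ η - cN x)) := by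
      have e1 : (x + 15 / 100) * (nAR x t T σ η + 16 / 100 * t * (PN x * nBR x t T σ η - cN x)) =
          (x + 15 / 100) * (nAR x t T σ η - 16 / 100 * t * cN x) +
            16 / 100 * t * ((x + 15 / 100) * PN x) * nBR x t T σ η := by ring
      rw [e1, hP]
      unfold HH nAR
      have e2 : (x + 15 / 100) * (fR ⟨x, 0⟩ ⟨σ, η⟩ - κ * (7 / 10000 * t)) ≤
          (x + 15 / 100) * fR ⟨x, -(T * t)⟩ ⟨σ, η⟩ :=
        mul_le_mul_of_nonneg_left (by linarith only [k1, k2]) hx.le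
      nlinarith only [k3, e2]
    by_contra hc
    push Not at hc
    have := mul_nonpos_of_nonneg_of_nonpos hx.le hc
    linarith only [h, k4, this]
  · exact Or.inl (h.trans_le hG)

end ZN

open ZN in
/-- **The ring on the upper path.** -/
theorem nR : ∀ a x t T σ η : ℝ, (a = 12 / 100 ∨ a = 13 / 100) → NT a x t T → |σ| ≤ 1 / 2 → 0 ≤ η →
    η ≤ 1045 / 10000 * LT.th σ → dN x < nBR x t T σ η ∨
      0 < nAR x t T σ η + 16 / 100 * t * (PN x * nBR x t T σ η - cN x) := by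
  intro a x t T σ η ha hN hσ η0 η1
  have hp := Real.pi_pos
  have hth := th_nonneg hσ
  obtain ⟨ρ, r0, r1, hρ⟩ : ∃ ρ : ℝ, 0 ≤ ρ ∧ ρ ≤ 1045 / 10000 ∧ ρ * LT.th σ = η := by
    rcases hth.eq_or_lt with h | h
    · refine ⟨0, le_rfl, by norm_num, ?_⟩
      rw [← h, mul_zero] at η1
      linarith only [η1, η0]
    · exact ⟨η / LT.th σ, by positivity, by rw [div_le_iff₀ h]; exact η1, by field_simp⟩
  subst hρ
  have x0 := hN.x0
  have x1 := hN.x1
  have ha0 : 0 < a := by rcases ha with rfl | rfl <;> norm_num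
  have ha1 : a ≤ 13 / 100 := by rcases ha with rfl | rfl <;> norm_num
  have ht := hN.t
  unfold tN at ht
  have t0 : 0 ≤ t := by
    rw [ht]
    refine le_min (by norm_num) (le_min (by positivity) ?_)
    apply div_nonneg
    · linarith only [x1]
    · norm_num
  rcases le_total x (1 / 2) with c1 | c1
  · refine nR_of x0 x1 t0 hN.T0 hN.T1 (κ := 3 / 2 * Real.pi) (by positivity)
      (fun y hy => fR_low1 x0.le c1 hσ η0 hy) ?_
    rcases le_total x (13 / 100) with c2 | c2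
    · have e : t = min 1 (x / a) := by
        rw [ht]
        have h3 : 1 ≤ (60 / 100 - x) / (30 / 100) := by
          rw [le_div_iff₀ (by norm_num)]
          linarith only [ha0, ha1, c2]
        rcases le_total (x / a) ((60 / 100 - x) / (30 / 100)) with h4 | h4
        · rw [min_eq_left h4]
        · rw [min_eq_right h4, min_eq_left h3, min_eq_left (h3.trans h4)]
      rw [e]
      exact rL ha x0.le c2 hσ r0 r1
    · have e : t = min 1 (10 / 3 * (6 / 10 - x)) := by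
        rw [ht]
        have h3 : 1 ≤ x / a := by
          rw [le_div_iff₀ ha0]
          linarith only [ha1, c2]
        have h5 : (60 / 100 - x) / (30 / 100) = 10 / 3 * (6 / 10 - x) := by ring
        rw [h5]
        rcases le_total (x / a) (10 / 3 * (6 / 10 - x)) with h4 | h4
        · rw [min_eq_left h4, min_eq_left h3, min_eq_left (h3.trans h4)]
        · rw [min_eq_right h4]
      rw [e]
      exact rI c2 c1 hσ r0 r1
  · refine nR_of x0 x1 t0 hN.T0 hN.T1 (κ := 13 / 10 * Real.pi) (by positivity)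
      (fun y hy => fR_low2 c1 (by linarith only [x1]) hσ η0 hy) ?_
    have e : 16 / 100 * t = vX x := by
      have h3 : 1 ≤ x / a := by
        rw [le_div_iff₀ ha0]
        linarith only [x0, ha1, c1]
      have h4 : (60 / 100 - x) / (30 / 100) ≤ 1 := by
        rw [div_le_iff₀ (by norm_num)]
        linarith only [ha0, ha1, c1]
      rw [ht, min_eq_right (h4.trans h3), min_eq_right h4]
      unfold vX
      ring
    have e2 : dN x = dX x := by
      unfold dN dX
      rw [max_eq_right (by linarith only [x0, c1]), max_eq_left (by linarith only [ha0, ha1, c1])]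
      ring
    rw [e, e2]
    rcases zones c1 (by linarith only [x1]) hσ r0 r1 with h | h
    · exact Or.inr h
    · exact Or.inl h

end ZD

end Pool.Agent.Work.MP_b30479_gt.G2
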