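import Pool.Agent.Work.MP_b30479_gt.G2.UAnti
import Pool.Agent.Work.MP_b30479_gt.G2.InvC

/-!
# Rows at rings: tools

Slopes of `t ↦ uu a t`, thin strips near `a = 0`, the derivative argument.
-/

namespace Pool.Agent.Work.MP_b30479_gt.G2

open VOL NumU

namespace ZD

namespace ZA

theorem uu_t {a c τ : ℝ} (h0 : 0 < a) (h1 : a < 1) :
    HasDerivAt (fun τ => uu a (τ + c)) (-NumI.lnB a (τ + c)) τ := by
  have h := uu_line (x := a) (t := c) (a := 0) (b := 1) (τ := τ) (by simpa using h0)
    (by simpa using h1)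
  have e : (fun τ => uu (a + τ * 0) (c + τ * 1)) = fun τ => uu a (τ + c) := by
    funext s
    rw [mul_zero, add_zero, mul_one, add_comm]
  rw [e] at h
  refine h.congr_deriv ?_
  rw [mul_zero, add_zero, mul_one, add_comm c τ]
  ring

theorem cont_uu : Continuous fun p : ℝ × ℝ => uu p.1 p.2 := by
  have h : Continuous fun p : ℝ × ℝ => (⟨p.1, p.2⟩ : ℂ) := by
    have e : (fun p : ℝ × ℝ => (⟨p.1, p.2⟩ : ℂ)) = fun p => (p.1 : ℂ) + p.2 * Complex.I := by
      funext p
      apply Complex.ext <;> simp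
    rw [e]
    fun_prop
  exact continuous_UU.comp h

theorem cont_uu' {α : Type*} [TopologicalSpace α] {f g : α → ℝ} (hf : Continuous f)
    (hg : Continuous g) : Continuous fun a => uu (f a) (g a) := by
  have h : Continuous ((fun p : ℝ × ℝ => uu p.1 p.2) ∘ fun a => (f a, g a)) :=
    Continuous.comp cont_uu (hf.prodMk hg)
  exact h

theorem lnB_le (a t : ℝ) : NumI.lnB a t ≤ Real.pi / 2 := (Real.arctan_lt_pi_div_two _).le

theorem lnB_nonneg {a t : ℝ} (h0 : 0 < a) (h1 : a ≤ 1 / 2) (ht : 0 ≤ t) : 0 ≤ NumI.lnB a t := by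
  have hp := Real.pi_pos
  unfold NumI.lnB
  rw [Real.arctan_nonneg]
  apply div_nonneg
  · apply mul_nonneg
    · apply Real.cos_nonneg_of_neg_pi_div_two_le_of_le <;> nlinarith only [hp, h0, h1]
    · exact Real.sinh_nonneg_iff.2 (by positivity)
  · apply mul_nonneg
    · exact (Real.sin_pos_of_pos_of_lt_pi (by positivity) (by nlinarith only [hp, h1])).le
    · exact (Real.cosh_pos _).le

theorem lnB_neg (a t : ℝ) : NumI.lnB a (-t) = -NumI.lnB a t := by
  unfold NumI.lnB
  rw [mul_neg, Real.sinh_neg, Real.cosh_neg, ← Real.arctan_neg]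
  congr 1
  ring

theorem lnB_nonpos {a t : ℝ} (h0 : 0 < a) (h1 : a ≤ 1 / 2) (ht : t ≤ 0) : NumI.lnB a t ≤ 0 := by
  have := lnB_nonneg h0 h1 (t := -t) (by linarith only [ht])
  rw [lnB_neg] at this
  linarith only [this]

theorem lnB_one_sub (a t : ℝ) : NumI.lnB (1 - a) t = -NumI.lnB a t := by
  unfold NumI.lnB
  rw [mul_sub, mul_one, Real.cos_pi_sub, Real.sin_pi_sub, ← Real.arctan_neg]
  congr 1
  ring

/-- `lnB` decreases in `a` for `t ≥ 0` -/
theorem lnB_anti {a b t : ℝ} (h0 : 0 < a) (hab : a ≤ b) (h1 : b ≤ 1 / 2) (ht : 0 ≤ t) :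
    NumI.lnB b t ≤ NumI.lnB a t := by
  have hp := Real.pi_pos
  unfold NumI.lnB
  rw [Real.arctan_le_arctan_iff]
  have s1 : 0 < Real.sin (Real.pi * a) :=
    Real.sin_pos_of_pos_of_lt_pi (by positivity) (by nlinarith only [hp, hab, h1])
  have s2 : Real.sin (Real.pi * a) ≤ Real.sin (Real.pi * b) := by
    apply Real.sin_le_sin_of_le_of_le_pi_div_two <;> nlinarith only [hp, h0, h1, hab]
  have c2 : Real.cos (Real.pi * b) ≤ Real.cos (Real.pi * a) := by
    apply Real.cos_le_cos_of_nonneg_of_le_pi <;> nlinarith only [h0, hp, h1, hab]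
  have c0 : 0 ≤ Real.cos (Real.pi * b) := by
    apply Real.cos_nonneg_of_neg_pi_div_two_le_of_le <;> nlinarith only [hp, h0, hab, h1]
  have hs : 0 ≤ Real.sinh (Real.pi * t) := Real.sinh_nonneg_iff.2 (by positivity)
  have hc := Real.cosh_pos (Real.pi * t)
  apply div_le_div₀
  · exact mul_nonneg (c0.trans c2) hs
  · exact mul_le_mul_of_nonneg_right c2 hs
  · positivity
  · exact mul_le_mul_of_nonneg_right s2 hc.le

theorem lnB_mono {a b t : ℝ} (h0 : 0 < a) (hab : a ≤ b) (h1 : b ≤ 1 / 2) (ht : t ≤ 0) :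
    NumI.lnB a t ≤ NumI.lnB b t := by
  have := lnB_anti h0 hab h1 (t := -t) (by linarith only [ht])
  rw [lnB_neg, lnB_neg] at this
  linarith only [this]

/-- a function with nonpositive derivative in the interior -/
theorem mono_of {f f' : ℝ → ℝ} {a b : ℝ} (hab : a ≤ b) (hc : ContinuousOn f (Set.Icc a b))
    (hd : ∀ y ∈ Set.Ioo a b, HasDerivAt f (f' y) y) (h : ∀ y ∈ Set.Ioo a b, f' y ≤ 0) :
    f b ≤ f a := by
  have hm : AntitoneOn f (Set.Icc a b) := by
    apply antitoneOn_of_deriv_nonpos (convex_Icc _ _) hc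
    · rw [interior_Icc]
      exact fun y hy => (hd y hy).differentiableAt.differentiableWithinAt
    · rw [interior_Icc]
      intro y hy
      rw [(hd y hy).deriv]
      exact h y hy
  exact hm (Set.left_mem_Icc.2 hab) (Set.right_mem_Icc.2 hab) hab

/-! ### slopes -/

theorem uu_abs (a t : ℝ) : uu a |t| = uu a t := by
  rcases abs_choice t with h | h <;> rw [h]
  exact uu_neg a t

/-- `t ↦ uu a t` decreases for `a ≤ 1/2` -/
theorem slope_le {a t t' : ℝ} (h0 : 0 ≤ a) (h1 : a ≤ 1 / 2) (ht : 0 ≤ t) (htt : t ≤ t') :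
    uu a t' ≤ uu a t := by
  have hp := Real.pi_pos
  rcases h0.eq_or_lt with h | h
  · rw [← h, UA.uu_zero, UA.uu_zero, abs_of_nonneg ht, abs_of_nonneg (ht.trans htt)]
    nlinarith only [htt, hp]
  · have := mono_of (f := fun τ => uu a (τ + 0)) (f' := fun τ => -NumI.lnB a (τ + 0)) htt
      (cont_uu' continuous_const (by fun_prop)).continuousOn
      (fun y _ => uu_t h (by linarith only [h1, h])) (fun y hy => by
        have := lnB_nonneg h h1 (t := y + 0) (by linarith only [ht, hy, hy.1])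
        linarith only [this])
    simpa using this

/-- the slope of `t ↦ uu a t` is at least `-π/2` for `a ≤ 1/2` -/
theorem slope_ge {a t t' : ℝ} (h0 : 0 ≤ a) (h1 : a ≤ 1 / 2) (ht : 0 ≤ t) (htt : t ≤ t') :
    uu a t ≤ uu a t' + Real.pi / 2 * (t' - t) := by
  have hp := Real.pi_pos
  rcases h0.eq_or_lt with h | h
  · rw [← h, UA.uu_zero, UA.uu_zero, abs_of_nonneg ht, abs_of_nonneg (ht.trans htt)]
    linarith only []
  · have := mono_of (f := fun τ => -uu a (τ + 0) - Real.pi / 2 * τ)
      (f' := fun τ => -(-NumI.lnB a (τ + 0)) - Real.pi / 2 * 1) htt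
      (((cont_uu' continuous_const (by fun_prop)).neg).sub (by fun_prop)).continuousOn
      (fun y _ => ((uu_t h (by linarith only [h1, h])).neg).sub ((hasDerivAt_id y).const_mul _))
      (fun y _ => by
        have := lnB_le a (y + 0)
        linarith only [this])
    simp only [add_zero] at this
    linarith only [this]

/-- thin strips: for heights up to `6/10` -/
theorem thin {s e u : ℝ} (h0 : 0 ≤ s) (hse : s ≤ e) (h1 : e ≤ 1 / 2) (hu : |u| ≤ 6 / 10) :
    uu e u ≤ uu s u + 26 / 10 * (e - s) := by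
  have hp := Real.pi_pos
  have hpt : ∀ s : ℝ, (u : ℂ) * Complex.I + ((1 * s : ℝ) : ℂ) = ⟨s, u⟩ := by
    intro s
    apply Complex.ext <;> simp
  have hd : ∀ y ∈ Set.Ioo s e, HasDerivAt
      (fun s : ℝ => UU ((u : ℂ) * Complex.I + ((1 * s : ℝ) : ℂ))) (1 * LL ⟨y, u⟩) y := by
    intro y hy
    have h2 := hasDerivAt_UU_level ((u : ℂ) * Complex.I) 1 y (by
      rw [hpt]
      intro hc
      rw [Complex.sin_eq_zero_iff] at hc
      obtain ⟨k, hk⟩ := hc
      have hk1 : (⟨y, u⟩ : ℂ) = k := by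
        have : (Real.pi : ℂ) ≠ 0 := by exact_mod_cast hp.ne'
        apply mul_left_cancel₀ this
        rw [hk]
        ring
      have hk2 := congrArg Complex.re hk1
      simp only [Complex.intCast_re] at hk2
      have a3 : (0 : ℤ) < k := by
        have : (0 : ℝ) < k := by linarith only [h0, hk2, hy, hy.1]
        exact_mod_cast this
      have a4 : k < (1 : ℤ) := by
        have : (k : ℝ) < 1 := by linarith only [h1, hk2, hy, hy.2]
        exact_mod_cast this
      omega)
    rw [hpt] at h2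
    exact h2
  have hL : ∀ y : ℝ, LL ⟨y, u⟩ ≤ 26 / 10 := by
    intro y
    have h3 : LL ⟨y, u⟩ ≤ Real.log (Real.exp (26 / 5)) / 2 := by
      apply MR.LL_le_log (Real.one_le_exp (by norm_num))
      simp only
      have c1 : 2 * Real.cosh (2 * Real.pi * u) ≤ Real.exp (378 / 100) + 1 := by
        have hpi := Real.pi_lt_d2
        have h4 : |2 * Real.pi * u| ≤ 378 / 100 := by
          rw [abs_mul, abs_of_pos (by positivity : 0 < 2 * Real.pi)]
          nlinarith only [hpi, hu, hp]
        have h5 : Real.cosh (2 * Real.pi * u) ≤ Real.cosh (378 / 100) := by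
          apply Real.cosh_le_cosh.2
          rwa [abs_of_pos (by norm_num : (0 : ℝ) < 378 / 100)]
        have h6 : Real.exp (-(378 / 100)) ≤ 1 := Real.exp_le_one_iff.2 (by norm_num)
        rw [Real.cosh_eq (378 / 100)] at h5
        linarith only [h5, h6]
      have c2 : Real.exp (378 / 100) + 3 ≤ Real.exp (26 / 5) := by
        have e1 : Real.exp (26 / 5) = Real.exp (378 / 100) * Real.exp (142 / 100) := by
          rw [← Real.exp_add]
          norm_num
        have e2 := Real.add_one_le_exp (142 / 100 : ℝ)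
        have e3 := Real.add_one_le_exp (378 / 100 : ℝ)
        rw [e1]
        nlinarith only [e2, e3]
      have c3 := Real.neg_one_le_cos (2 * Real.pi * y)
      linarith only [c1, c2, c3]
    rw [Real.log_exp] at h3
    linarith only [h3]
  have h2 := mono_of (f := fun s : ℝ => UU ((u : ℂ) * Complex.I + ((1 * s : ℝ) : ℂ)) -
      26 / 10 * s) (f' := fun y => 1 * LL ⟨y, u⟩ - 26 / 10 * 1) hse
    ((continuous_UU.comp (by fun_prop)).sub (by fun_prop)).continuousOn
    (fun y hy => (hd y hy).sub ((hasDerivAt_id y).const_mul _))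
    (fun y _ => by linarith only [hL, hL y])
  simp only [hpt] at h2
  unfold uu
  linarith only [h2]

end ZA

end ZD

end Pool.Agent.Work.MP_b30479_gt.G2
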