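import Pool.Agent.Work.MP_b30479_gt.G2.ZNa
import Pool.Agent.Work.MP_b30479_gt.G2.ZRAt

/-!
# `RowsN.nR`: slopes and monotonicity
-/

namespace Pool.Agent.Work.MP_b30479_gt.G2

open NumU (uu uu_neg uu_one_sub uu_add_one UU_uu)

namespace ZD

namespace ZN

open ZA

/-! ### slopes -/

/-- slope for `1/2 ≤ a ≤ 1`: between `0` and `π/2` -/
theorem sl_half {a t t' : ℝ} (h0 : 1 / 2 ≤ a) (h1 : a ≤ 1) (ht : 0 ≤ t) (htt : t ≤ t') :
    uu a t ≤ uu a t' ∧ uu a t' ≤ uu a t + Real.pi / 2 * (t' - t) := by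
  have e1 : ∀ s, uu a s = -uu (1 - a) s := fun s => by
    rw [uu_one_sub, neg_neg]
  rw [e1, e1]
  have k1 := slope_le (a := 1 - a) (by linarith only [h1]) (by linarith only [h0]) ht htt
  have k2 := slope_ge (a := 1 - a) (by linarith only [h1]) (by linarith only [h0]) ht htt
  constructor <;> linarith only [k1, k2]

theorem uu_sub_one {a s : ℝ} (hs : 0 ≤ s) : uu a s = uu (a - 1) s + Real.pi * s := by
  have := uu_add_one (a - 1) s
  rw [sub_add_cancel, abs_of_nonneg hs] at this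
  exact this

/-- slope for `1 ≤ a ≤ 3/2`: between `π/2` and `π` -/
theorem sl_one {a t t' : ℝ} (h0 : 1 ≤ a) (h1 : a ≤ 3 / 2) (ht : 0 ≤ t) (htt : t ≤ t') :
    uu a t + Real.pi / 2 * (t' - t) ≤ uu a t' ∧ uu a t' ≤ uu a t + Real.pi * (t' - t) := by
  rw [uu_sub_one ht, uu_sub_one (ht.trans htt)]
  have k1 := slope_le (a := a - 1) (by linarith only [h0]) (by linarith only [h1]) ht htt
  have k2 := slope_ge (a := a - 1) (by linarith only [h0]) (by linarith only [h1]) ht htt
  constructor <;> linarith only [k2, k1]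

theorem lnB_small {a y : ℝ} (h0 : 1 / 2 ≤ a) (h1 : a < 1) (hy : 0 ≤ y) :
    -NumI.lnB a y ≤ Real.pi * (a - 1 / 2) := by
  have hp := Real.pi_pos
  have hs : 0 < Real.sin (Real.pi * a) :=
    Real.sin_pos_of_pos_of_lt_pi (by positivity) (by nlinarith only [h1, hp])
  have hc : Real.cos (Real.pi * a) ≤ 0 :=
    Real.cos_nonpos_of_pi_div_two_le_of_le (by nlinarith only [h0, hp]) (by nlinarith only [hp, h1])
  have hch : 0 < Real.cosh (Real.pi * y) := Real.cosh_pos _
  have hsh : Real.sinh (Real.pi * y) ≤ Real.cosh (Real.pi * y) := by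
    rw [Real.sinh_eq, Real.cosh_eq]
    have := Real.exp_pos (-(Real.pi * y))
    linarith only [this]
  have hsh0 : 0 ≤ Real.sinh (Real.pi * y) := Real.sinh_nonneg_iff.2 (by positivity)
  unfold NumI.lnB
  rw [← Real.arctan_neg]
  have e : Real.pi * (a - 1 / 2) = Real.arctan (Real.tan (Real.pi * (a - 1 / 2))) := by
    rw [Real.arctan_tan] <;> nlinarith only [hp, h0, h1]
  rw [e, Real.arctan_le_arctan_iff]
  have e2 : Real.tan (Real.pi * (a - 1 / 2)) = -Real.cos (Real.pi * a) / Real.sin (Real.pi * a) := by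
    have : Real.pi * (a - 1 / 2) = Real.pi * a - Real.pi / 2 := by ring
    rw [this, Real.tan_eq_sin_div_cos, Real.sin_sub_pi_div_two, Real.cos_sub_pi_div_two]
  rw [e2, ← neg_div, div_le_div_iff₀ (by positivity) hs]
  have : 0 ≤ -Real.cos (Real.pi * a) * Real.sin (Real.pi * a) * (Real.cosh (Real.pi * y) - Real.sinh (Real.pi * y)) :=
    mul_nonneg (mul_nonneg (by linarith only [hc]) hs.le) (by linarith only [hsh])
  nlinarith only [this]

/-- slope for `1/2 ≤ a` -/
theorem sl_small {a t t' : ℝ} (h0 : 1 / 2 ≤ a) (h1 : a < 1) (ht : 0 ≤ t) (htt : t ≤ t') :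
    uu a t' ≤ uu a t + Real.pi * (a - 1 / 2) * (t' - t) := by
  have hp := Real.pi_pos
  have := mono_of (f := fun τ => uu a (τ + 0) - Real.pi * (a - 1 / 2) * τ)
    (f' := fun τ => -NumI.lnB a (τ + 0) - Real.pi * (a - 1 / 2) * 1) htt
    ((cont_uu' continuous_const (by fun_prop)).sub (by fun_prop)).continuousOn
    (fun y _ => (uu_t (by linarith only [h0, h1]) h1).sub ((hasDerivAt_id y).const_mul _))
    (fun y hy => by
      have := lnB_small h0 h1 (y := y + 0) (by linarith only [ht, hy, hy.1])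
      linarith only [this])
  simp only [add_zero] at this
  linarith only [this]

/-- the slope is at least `-π/2` -/
theorem low0 {a t t' : ℝ} (h0 : 0 ≤ a) (h1 : a ≤ 3 / 2) (ht : 0 ≤ t) (htt : t ≤ t') :
    uu a t - Real.pi / 2 * (t' - t) ≤ uu a t' := by
  have hp := Real.pi_pos
  have hm : 0 ≤ Real.pi / 2 * (t' - t) := by
    have : 0 ≤ t' - t := by linarith only [htt]
    positivity
  rcases le_total a (1 / 2) with h2 | h2
  · linarith only [h0, h2, ht, htt, slope_ge h0 h2 ht htt]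
  rcases le_total a 1 with h3 | h3
  · linarith only [hm, h2, h3, ht, htt, (sl_half h2 h3 ht htt).1]
  · linarith only [hm, h3, h1, ht, htt, (sl_one h3 h1 ht htt).1]

/-- the slope is at most `π` -/
theorem upp0 {a t t' : ℝ} (h0 : 0 ≤ a) (h1 : a ≤ 3 / 2) (ht : 0 ≤ t) (htt : t ≤ t') :
    uu a t' ≤ uu a t + Real.pi * (t' - t) := by
  have hp := Real.pi_pos
  have hm : 0 ≤ Real.pi / 2 * (t' - t) := by
    have : 0 ≤ t' - t := by linarith only [htt]
    positivity
  rcases le_total a (1 / 2) with h2 | h2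
  · linarith only [hm, h0, h2, ht, htt, slope_le h0 h2 ht htt]
  rcases le_total a 1 with h3 | h3
  · linarith only [hm, h2, h3, ht, htt, (sl_half h2 h3 ht htt).2]
  · linarith only [h3, h1, ht, htt, (sl_one h3 h1 ht htt).2]

/-- `1/2 ≤ a ≤ 8/5`: the slope is between `0` and `11/10 π` -/
theorem slH {a t t' : ℝ} (h0 : 1 / 2 ≤ a) (h1 : a ≤ 8 / 5) (ht : 0 ≤ t) (htt : t ≤ t') :
    uu a t ≤ uu a t' ∧ uu a t' ≤ uu a t + 11 / 10 * Real.pi * (t' - t) := by
  have hp := Real.pi_pos
  have hm : 0 ≤ Real.pi * (t' - t) := by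
    have : 0 ≤ t' - t := by linarith only [htt]
    positivity
  rcases le_total a 1 with h3 | h3
  · have := sl_half h0 h3 ht htt
    constructor <;> linarith only [this, hm, this.1, this.2]
  rcases le_total a (3 / 2) with h2 | h2
  · have := sl_one h3 h2 ht htt
    constructor <;> linarith only [hm, this, this.1, this.2]
  · rw [uu_sub_one ht, uu_sub_one (ht.trans htt)]
    have k1 := (sl_half (a := a - 1) (by linarith only [h2]) (by linarith only [h1]) ht htt).1
    have k2 := sl_small (a := a - 1) (by linarith only [h2]) (by linarith only [h1]) ht htt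
    have k3 : Real.pi * (a - 1 - 1 / 2) * (t' - t) ≤ 1 / 10 * (Real.pi * (t' - t)) := by
      have : Real.pi * (a - 1 - 1 / 2) * (t' - t) = (a - 1 - 1 / 2) * (Real.pi * (t' - t)) := by ring
      rw [this]
      exact mul_le_mul_of_nonneg_right (by linarith only [h1]) hm
    constructor <;> linarith only [hm, k1, k2, k3]

/-- `1 ≤ a ≤ 8/5`: the slope is at least `π/2` -/
theorem slQ {a t t' : ℝ} (h0 : 1 ≤ a) (h1 : a ≤ 8 / 5) (ht : 0 ≤ t) (htt : t ≤ t') :
    uu a t + Real.pi / 2 * (t' - t) ≤ uu a t' := by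
  have hp := Real.pi_pos
  have hm : 0 ≤ Real.pi * (t' - t) := by
    have : 0 ≤ t' - t := by linarith only [htt]
    positivity
  rcases le_total a (3 / 2) with h2 | h2
  · exact (sl_one h0 h2 ht htt).1
  · rw [uu_sub_one ht, uu_sub_one (ht.trans htt)]
    have k1 := (sl_half (a := a - 1) (by linarith only [h2]) (by linarith only [h1]) ht htt).1
    linarith only [hm, k1]

/-! ### `fR` near the real axis -/

theorem fR_low1 {x y σ η : ℝ} (h0 : 0 ≤ x) (h1 : x ≤ 1 / 2) (hσ : |σ| ≤ 1 / 2) (hη : 0 ≤ η)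
    (hy : 0 ≤ y) : fR ⟨x, 0⟩ ⟨σ, η⟩ - 3 / 2 * Real.pi * y ≤ fR ⟨x, y⟩ ⟨σ, η⟩ := by
  obtain ⟨s0, s1⟩ := abs_le.1 hσ
  have hp := Real.pi_pos
  rw [fR_uu, fR_uu, zero_add, zero_sub, uu_neg]
  have k1 := low0 (a := x + 1 / 2 + σ) (by linarith only [h0, s0]) (by linarith only [h1, s1]) hη (show η ≤ y + η by linarith only [hy])
  have k3 := slope_le h0 h1 le_rfl hy
  have k2 : uu (x + 1 / 2 - σ) η - Real.pi * y ≤ uu (x + 1 / 2 - σ) (y - η) := by
    rw [← uu_abs _ (y - η)]
    rcases le_total |y - η| η with h2 | h2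
    · have := upp0 (a := x + 1 / 2 - σ) (by linarith only [h0, s1]) (by linarith only [h1, s0]) (abs_nonneg _) h2
      have h3 : η - |y - η| ≤ y := by linarith only [neg_abs_le (y - η)]
      have := mul_le_mul_of_nonneg_left h3 hp.le
      linarith
    · have := low0 (a := x + 1 / 2 - σ) (by linarith only [h0, s1]) (by linarith only [h1, s0]) hη h2
      have h3 : |y - η| - η ≤ y := by
        rcases abs_choice (y - η) with e | e <;> rw [e] at * <;> linarith only [hη, hy]
      have := mul_le_mul_of_nonneg_left h3 (show (0 : ℝ) ≤ Real.pi / 2 by positivity)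
      have : 0 ≤ Real.pi * y := by positivity
      linarith
  linarith only [k1, k3, k2]

theorem fR_low2 {x y σ η : ℝ} (h0 : 1 / 2 ≤ x) (h1 : x ≤ 6 / 10) (hσ : |σ| ≤ 1 / 2) (hη : 0 ≤ η)
    (hy : 0 ≤ y) : fR ⟨x, 0⟩ ⟨σ, η⟩ - 13 / 10 * Real.pi * y ≤ fR ⟨x, y⟩ ⟨σ, η⟩ := by
  obtain ⟨s0, s1⟩ := abs_le.1 hσ
  have hp := Real.pi_pos
  rw [fR_uu, fR_uu, zero_add, zero_sub, uu_neg]
  have k1 := (slH (a := x + 1 / 2 + σ) (by linarith only [h0, s0]) (by linarith only [h1, s1]) hη
    (show η ≤ y + η by linarith only [hy])).1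
  have k3 : uu x y ≤ uu x 0 + 1 / 10 * Real.pi * y := by
    have a1 := sl_small h0 (by linarith only [h1]) le_rfl hy
    have a2 : Real.pi * (x - 1 / 2) * (y - 0) ≤ 1 / 10 * Real.pi * y := by
      have a3 : 0 ≤ Real.pi * y := by positivity
      have : Real.pi * (x - 1 / 2) * (y - 0) = (x - 1 / 2) * (Real.pi * y) := by ring
      rw [this]
      have := mul_le_mul_of_nonneg_right (show x - 1 / 2 ≤ 1 / 10 by linarith only [h1]) a3
      linarith only [this]
    linarith only [a1, a2]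
  have k2 : uu (x + 1 / 2 - σ) η - 11 / 10 * Real.pi * y ≤ uu (x + 1 / 2 - σ) (y - η) := by
    rw [← uu_abs _ (y - η)]
    rcases le_total |y - η| η with h2 | h2
    · have := (slH (a := x + 1 / 2 - σ) (by linarith only [h0, s1]) (by linarith only [h1, s0]) (abs_nonneg _) h2).2
      have h3 : η - |y - η| ≤ y := by linarith only [neg_abs_le (y - η)]
      have := mul_le_mul_of_nonneg_left h3 (show (0 : ℝ) ≤ 11 / 10 * Real.pi by positivity)
      linarith
    · have := (slH (a := x + 1 / 2 - σ) (by linarith only [h0, s1]) (by linarith only [h1, s0]) hη h2).1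
      have : 0 ≤ 11 / 10 * Real.pi * y := by positivity
      linarith
  linarith only [k1, k3, k2]

/-! ### monotonicity -/

theorem Hp_mono {x v σ η d d' : ℝ} (h0 : 1 / 2 ≤ x) (h1 : x ≤ 6 / 10) (hv : 0 ≤ v) (hd : d ≤ d') :
    Hp x v σ η d ≤ Hp x v σ η d' := by
  unfold Hp
  have a1 : (x + 15 / 100) * d ≤ (x + 15 / 100) * d' := mul_le_mul_of_nonneg_left hd (by linarith only [h0])
  have a2 : (1825 / 1000 - 5 / 2 * x) * (v * d) ≤ (1825 / 1000 - 5 / 2 * x) * (v * d') :=
    mul_le_mul_of_nonneg_left (mul_le_mul_of_nonneg_left hd hv) (by linarith only [h1])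
  nlinarith only [a1, a2]

theorem HH_mono {x σ η u w : ℝ} (hu : 0 ≤ u) (huw : u < w)
    (hd : ∀ v, u < v → v < w → ∃ f', HasDerivAt (fun v => fR ⟨x, -v⟩ ⟨σ, η⟩) f' v ∧
      0 < Hp x v σ η (Real.pi - f')) :
    HH x u (13 / 10 * Real.pi) σ η < HH x w (13 / 10 * Real.pi) σ η := by
  have hcont : Continuous (fun v => fR ⟨x, -v⟩ ⟨σ, η⟩) := by
    have e : (fun v => fR ⟨x, -v⟩ ⟨σ, η⟩) = fun v =>
        uu (x + 1 / 2 + σ) (-v + η) + uu (x + 1 / 2 - σ) (-v - η) - 2 * uu x (-v) := by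
      funext v
      exact fR_uu _ _ _ _
    rw [e]
    exact ((cont_uu' (by fun_prop) (by fun_prop)).add (cont_uu' (by fun_prop) (by fun_prop))).sub
      ((cont_uu' (by fun_prop) (by fun_prop)).const_mul 2)
  set f : ℝ → ℝ := fun v => fR ⟨x, -v⟩ ⟨σ, η⟩ with hf
  have e : ∀ v, HH x v (13 / 10 * Real.pi) σ η = (x + 15 / 100) * ((fR ⟨x, 0⟩ ⟨σ, η⟩ - f v) +
      v * (Real.pi - cN x - 7 / 1600 * (13 / 10 * Real.pi))) + (1825 / 1000 - 5 / 2 * x) * v *
      (2254 / 10000 + bR σ η + (Real.pi * v - f v)) := by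
    intro v
    rfl
  have hm : StrictMonoOn (fun v => HH x v (13 / 10 * Real.pi) σ η) (Set.Icc u w) := by
    apply strictMonoOn_of_deriv_pos (convex_Icc u w)
    · simp only [e]
      fun_prop
    · intro v hv
      rw [interior_Icc] at hv
      obtain ⟨f', h1, h2⟩ := hd v hv.1 hv.2
      have h3 : HasDerivAt (fun v => HH x v (13 / 10 * Real.pi) σ η)
          (Hp x v σ η (Real.pi - f')) v := by
        have e0 : (fun v => HH x v (13 / 10 * Real.pi) σ η) = fun v =>
          (x + 15 / 100) * ((fR ⟨x, 0⟩ ⟨σ, η⟩ - f v) +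
          v * (Real.pi - cN x - 7 / 1600 * (13 / 10 * Real.pi))) + (1825 / 1000 - 5 / 2 * x) * v *
          (2254 / 10000 + bR σ η + (Real.pi * v - f v)) := by
          funext v
          exact e v
        rw [e0]
        have d1 := ((((hasDerivAt_const v (fR ⟨x, 0⟩ ⟨σ, η⟩)).sub h1).add
          ((hasDerivAt_id v).mul_const (Real.pi - cN x - 7 / 1600 * (13 / 10 * Real.pi)))).const_mul
          (x + 15 / 100)).add (((hasDerivAt_id v).const_mul (1825 / 1000 - 5 / 2 * x)).mul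
          (((((hasDerivAt_id v).const_mul Real.pi).sub h1)).const_add (2254 / 10000 + bR σ η)))
        refine HasDerivAt.congr_deriv d1 ?_
        unfold Hp nB0
        simp only [id, hf, Pi.sub_apply]
        ring
      rw [h3.deriv]
      exact h2
  exact hm (Set.left_mem_Icc.2 huw.le) (Set.right_mem_Icc.2 huw.le) huw

theorem HH_zero (x κ σ η : ℝ) : HH x 0 κ σ η = 0 := by
  unfold HH
  rw [neg_zero]
  ring

end ZN

end ZD

end Pool.Agent.Work.MP_b30479_gt.G2
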