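import Pool.Agent.Work.MP_b30479_gt.G2.ZNss1
import Pool.Agent.Work.MP_b30479_gt.G2.ZNss2

/-!
# `RowsN`: a digit `3`, slot `2`, certificates
-/

set_option linter.unusedVariables false
set_option linter.unusedSimpArgs false

namespace Pool.Agent.Work.MP_b30479_gt.G2

open NumU (uu)
open NumL (E)
open NumL.E (mn mn_val)

namespace ZD

namespace ZK

theorem r_e4 : NumL.chkF e4 10000 0 0 10000 7 40 3000 5000 0 8000 0 20000 0 7
    6012018641182155646149483082186524457058101513686584928985537831975536043662456639132425205510993920614525859421823260140209683712811270778509040650196519416700478793543524267970984955949879036338979186561160170550323269601159520802010359364909765197473607131722200163181010652080108669844427161475279417198417404836454844722601786048409720248003408726139016622551421089676890661959142241292763383440014522667875283060361505373328207459356998210753506504985400839636349506430122097937280996540702218211506092779992563748008389307287324628814402088817814454570331847199282655831327687016819960906326345521242624177205253669710551757971534384946172620863189430857889390478024279262352989157391573523245606652724760830894112877199952436306427579357959631096848179155688794048373496539696886949729861443591259917908839286283899547965491543039853603316213896143122161128666550922579682699671796904664439955121569692341997853926069611429767985531692024073573945168076059440203139392212390711720556186926745419491851674527290751290009418822363526569751687676948553473296826729382653586135342415678932687386650209714642906357575907131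006331815436166534435274467987928034169039328913730072769838583369481507305571490432721000469878921470469650874581866450528708879131856467071357555595710050885637218246042691677723090669272070516676364754870502590348229451681767439053351152894058938195349625164979142516483105367356816292054125508301144184122429454128097438646410612951246942789587574275467562072151040157582264374736631759441023260613834497681885038194527265778852804663747185459939416666754079436322356794011200355934281680832063679789185164266663891480481416759406779798699287151856201735189703659430927550365330878047060337641909914057868608797984851314273099475218459384661702818049339361737723401016130388591525795454422740742518700696951834124583885484501362150167428979899258255802079308286867714425949702994715685820819806673473425165804328067927108059133095899980731695851809294249125803373716803251558334010407884176990538113515427808524926442447628662291035811897251073342987838539686494393480082862576587920656050096848309242654955049631706537189745289493347752659507255179499922291068674499394548122198932946287975622859199871584006875053439881415200037019658951118338266319694467089487826908060103991231355189860173625270506977768893720937817108088688973867871362025499392934665606955413436837690583699639063980323372017340955658663994081872174793403185809497916402408894247447824392154232016346760144833721428207784150869263525100648688184078533422174653925516681998114190552713090675242862550732213134993212198322092118247293049551558616132527279837258303318283464033368734712095557648741483519656075014020350495567646238257941107437105407594305688115866788624604242004515423430123509200514713568710262448176306257815459714924989372205359988104572908372131264689969812855354820351622578691818347525354391565439885202623262880777519460608250264611321025171212680304643623875972371993855796546734800914943384954749830504825584039100950038828370527779484505328577672297052471599521848818626431237891685341052798479818492049679000323841355919648981528834693365960386470034660116997850124424681481060610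 = true :=
  Pool.Agent.Work.NumI.okB_of rfl rfl rfl rfl rfl rfl rfl rfl rfl rfl rfl rfl
    (Pool.Agent.Work.NumI.runE_split2 rfl rfl rfl
      r_e4_p1
      (Pool.Agent.Work.NumI.runE_split2 rfl rfl rfl
        r_e4_p2
        r_e4_p3))

end ZK

end ZD

end Pool.Agent.Work.MP_b30479_gt.G2
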