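import Pool.Agent.Work.MP_b30479_gt.G2.ZRz
import Pool.Agent.Work.MP_b30479_gt.G2.RngF
import Pool.Agent.Work.MP_b30479_gt.G2.RVa
import Pool.Agent.Work.MP_b30479_gt.G2.RngE

/-!
# Modes at rings: the other hinge of a digit `1` on its upper path
-/

namespace Pool.Agent.Work.MP_b30479_gt.G2

open NumU

namespace ZD

/-! ### arctan -/

theorem arctan_le_id {y : ℝ} (hy : 0 ≤ y) : Real.arctan y ≤ y := by
  have h := mono_one (f := fun y => y - Real.arctan y) (f' := fun y => 1 - 1 / (1 + y ^ 2)) 0 hy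
    (continuous_id.sub Real.continuous_arctan) (by
      intro t _ _ _
      refine ⟨(hasDerivAt_id t).sub (Real.hasDerivAt_arctan t), ?_⟩
      have : 1 / (1 + t ^ 2) ≤ 1 := by
        rw [div_le_one (by positivity)]
        nlinarith only [sq_nonneg t]
      linarith only [this])
  simp only [Real.arctan_zero, sub_zero] at h
  linarith only [h]

theorem arctan_ge_cubic {y : ℝ} (hy : 0 ≤ y) : y - y ^ 3 / 3 ≤ Real.arctan y := by
  have h := mono_one (f := fun y => Real.arctan y - (y - y ^ 3 / 3))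
    (f' := fun y => 1 / (1 + y ^ 2) - (1 - y ^ 2)) 0 hy
    (Real.continuous_arctan.sub (by fun_prop)) (by
      intro t _ _ _
      have h3 : HasDerivAt (fun y : ℝ => y - y ^ 3 / 3) (1 - t ^ 2) t := by
        have := (hasDerivAt_id t).sub ((hasDerivAt_pow 3 t).div_const 3)
        refine this.congr_deriv ?_
        push_cast
        ring
      refine ⟨(Real.hasDerivAt_arctan t).sub h3, ?_⟩
      have : 1 - t ^ 2 ≤ 1 / (1 + t ^ 2) := by
        rw [le_div_iff₀ (by positivity)]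
        nlinarith only [sq_nonneg (t ^ 2)]
      linarith only [this])
  simp only [Real.arctan_zero, zero_sub] at h
  linarith only [h]

theorem arctan_115 : Real.arctan (115 / 100) ≤ 85517 / 100000 := by
  have h := Real.arctan_add (x := 1) (y := 3 / 43) (by norm_num)
  rw [Real.arctan_one] at h
  have e : ((1 : ℝ) + 3 / 43) / (1 - 1 * (3 / 43)) = 115 / 100 := by norm_num
  rw [e] at h
  have h2 := arctan_le_id (show (0 : ℝ) ≤ 3 / 43 by norm_num)
  have := Real.pi_lt_d6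
  rw [← h]
  linarith only [h2, this]

theorem arctan_125 : Real.arctan (125 / 100) ≤ 8966 / 10000 := by
  have h := Real.arctan_add (x := 1) (y := 1 / 9) (by norm_num)
  rw [Real.arctan_one] at h
  have e : ((1 : ℝ) + 1 / 9) / (1 - 1 * (1 / 9)) = 125 / 100 := by norm_num
  rw [e] at h
  have h2 := arctan_le_id (show (0 : ℝ) ≤ 1 / 9 by norm_num)
  have := Real.pi_lt_d6
  rw [← h]
  linarith only [h2, this]

theorem arctan_250 : Real.arctan (25 / 10) ≤ 119215 / 100000 := by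
  have h := Real.arctan_inv_of_pos (x := 25 / 10) (by norm_num)
  have h2 := arctan_ge_cubic (show (0 : ℝ) ≤ (25 / 10)⁻¹ by norm_num)
  have := Real.pi_lt_d6
  norm_num at h h2 ⊢
  linarith only [this, h, h2]

/-! ### slopes in the height -/

theorem lnB_le {a t r : ℝ} (ha : 0 < a) (ha2 : a ≤ 1 / 2) (ht : 0 ≤ t) (hr : t ≤ r * a) :
    NumI.lnB a t ≤ Real.arctan r := by
  have hp := Real.pi_pos
  unfold NumI.lnB
  apply Real.arctan_mono
  have s1 : 0 < Real.sin (Real.pi * a) :=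
    Real.sin_pos_of_pos_of_lt_pi (by positivity) (by nlinarith only [hp, ha2])
  have c1 : 0 ≤ Real.cos (Real.pi * a) := Real.cos_nonneg_of_mem_Icc ⟨by nlinarith only [hp, ha], by nlinarith only [ha2, hp]⟩
  have c2 := Real.cosh_pos (Real.pi * t)
  rw [div_le_iff₀ (by positivity)]
  have h1 : Real.pi * a * Real.cos (Real.pi * a) ≤ Real.sin (Real.pi * a) := by
    rcases ha2.lt_or_eq with h | h
    · have h2 := Real.lt_tan (x := Real.pi * a) (by positivity) (by nlinarith only [hp, h])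
      rw [Real.tan_eq_sin_div_cos, lt_div_iff₀ (Real.cos_pos_of_mem_Ioo
        ⟨by nlinarith only [hp, ha], by nlinarith only [hp, h]⟩)] at h2
      exact h2.le
    · rw [h, show Real.pi * (1 / 2) = Real.pi / 2 by ring, Real.cos_pi_div_two,
        Real.sin_pi_div_two]
      norm_num
  have h2 : Real.sinh (Real.pi * t) ≤ Real.pi * t * Real.cosh (Real.pi * t) := by
    have h3 := mono_one (f := fun x => x * Real.cosh x - Real.sinh x)
      (f' := fun x => x * Real.sinh x) 0 (a := 0) (b := Real.pi * t) (by positivity)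
      ((continuous_id.mul Real.continuous_cosh).sub Real.continuous_sinh) (by
        intro s hs _ _
        refine ⟨((((hasDerivAt_id s).mul (Real.hasDerivAt_cosh s)).sub
          (Real.hasDerivAt_sinh s)).congr_deriv (by simp)), ?_⟩
        have := Real.sinh_nonneg_iff.mpr hs.le
        exact mul_nonneg hs.le this)
    simp only [zero_mul, Real.sinh_zero, sub_zero] at h3
    linarith only [h3]
  have h3 : 0 ≤ r := by
    by_contra h
    push Not at h
    nlinarith only [ht, hr, ha, h]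
  calc Real.cos (Real.pi * a) * Real.sinh (Real.pi * t)
      ≤ Real.cos (Real.pi * a) * (Real.pi * t * Real.cosh (Real.pi * t)) :=
        mul_le_mul_of_nonneg_left h2 c1
    _ = Real.pi * Real.cos (Real.pi * a) * Real.cosh (Real.pi * t) * t := by ring
    _ ≤ Real.pi * Real.cos (Real.pi * a) * Real.cosh (Real.pi * t) * (r * a) :=
        mul_le_mul_of_nonneg_left hr (by positivity)
    _ = r * Real.cosh (Real.pi * t) * (Real.pi * a * Real.cos (Real.pi * a)) := by ring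
    _ ≤ r * Real.cosh (Real.pi * t) * Real.sin (Real.pi * a) :=
        mul_le_mul_of_nonneg_left h1 (by positivity)
    _ = _ := by ring

theorem uu_atan {a s s' r c : ℝ} (ha : 0 < a) (ha2 : a ≤ 1 / 2) (h0 : 0 ≤ s) (h : s ≤ s')
    (hr : s' ≤ r * a) (hc : Real.arctan r ≤ c) : uu a s ≤ uu a s' + c * (s' - s) := by
  have h1 := mono_one (f := fun t => uu a t + c * t) (f' := fun t => YY ⟨a, t⟩ + c) 0 h
    ((continuous_uu_y a).add (by fun_prop)) (by
      intro t h2 h3 _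
      refine ⟨(hasDerivAt_uu_y (Or.inr ⟨ha, by linarith only [ha, ha2]⟩)).add (by
        simpa using (hasDerivAt_id t).const_mul c), ?_⟩
      have h4 : YY ⟨a, t⟩ = -NumI.lnB a t :=
        Num.YY_lnB (u := ⟨a, t⟩) ⟨ha, by change a < 1; linarith only [ha, ha2]⟩
      rw [h4]
      have := lnB_le ha ha2 (by linarith only [h0, h2]) (show t ≤ r * a by linarith only [hr, h3])
      linarith only [hc, this])
  linarith only [h1]

theorem uu_hi3 {a s s' : ℝ} (ha : a ≤ 3 / 2) (h0 : 0 ≤ s) (h : s ≤ s') :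
    uu a s' ≤ uu a s + Real.pi * (s' - s) := by
  have h2 := uu_inc a h0 h
  have h3 := inc_le_three (x := a) (by linarith only [ha]) h0 h
  linarith only [h2, h3]

/-! ### the gains -/

theorem abs_diff' {u v w : ℝ} (hw : 0 ≤ w) (h : u - v = w) : |u| - |v| ≤ w := by
  have := abs_sub_abs_le_abs_sub u v
  rwa [h, abs_of_nonneg hw] at this

theorem abs_diff'' {u v w : ℝ} (hw : 0 ≤ w) (h : u - v = -w) : |u| - |v| ≤ w := by
  have := abs_sub_abs_le_abs_sub u v
  rwa [h, abs_neg, abs_of_nonneg hw] at this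

theorem H_lo {b k τ Yk m1 m2 r c : ℝ} (hk : 0 < k) (hb : b = k + m1) (hm : 0 ≤ m1)
    (hb2 : b ≤ 1 / 2) (hY : 0 ≤ Yk) (hYk : Yk ≤ 115 / 100 * k) (ht : 0 ≤ τ)
    (ht2 : τ ≤ 74 / 100 * Yk) (hm2 : m2 ≤ r * m1) (hr : 1 ≤ r) (hc : Real.arctan r ≤ c) :
    -(c * (τ + Yk)) ≤ uu b (m2 + τ) - uu b (m2 - Yk) := by
  have c0 : 0 ≤ c := le_trans (Real.arctan_nonneg.2 (by linarith only [hk, hb, hm, hb2, hr])) hc
  rw [← uu_abs b (m2 + τ), ← uu_abs b (m2 - Yk)]
  rcases le_total |m2 + τ| |m2 - Yk| with h | h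
  · have h1 := uu_lo hb2 (abs_nonneg _) h
    have : 0 ≤ c * (τ + Yk) := by positivity
    linarith only [h1, this]
  · have h2 : 0 ≤ m2 + τ ∨ τ + Yk = 0 := by
      by_contra hn
      rw [not_or] at hn
      obtain ⟨n1, n2⟩ := hn
      push Not at n1
      have n3 : 0 < τ + Yk := lt_of_le_of_ne (by linarith only [hY, ht]) (Ne.symm n2)
      rw [abs_of_neg n1, abs_of_neg (by linarith only [n1, n3])] at h
      linarith only [h, n3]
    rcases h2 with h2 | h2
    · have h3 : |m2 + τ| ≤ r * b := by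
        rw [abs_of_nonneg h2, hb]
        nlinarith only [hk, hYk, ht2, hm2, hr]
      have h4 := uu_atan (a := b) (by linarith only [hk, hb, hm]) hb2 (abs_nonneg _) h h3 hc
      have h5 := abs_diff' (u := m2 + τ) (v := m2 - Yk) (w := τ + Yk) (by linarith only [hY, ht]) (by ring)
      have h6 := mul_le_mul_of_nonneg_left h5 c0
      linarith only [h4, h6]
    · have e1 : τ = 0 := by linarith only [ht, ht2, h2]
      have e2 : Yk = 0 := by linarith only [hY, ht, h2]
      rw [e1, e2]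
      simp

theorem H_hi {b τ Yk m2 : ℝ} (h1 : 1 / 2 ≤ b) (h2 : b ≤ 1) (hY : 0 ≤ Yk) (ht : 0 ≤ τ) :
    -(Real.pi * (b - 1 / 2) * (τ + Yk)) ≤ uu b (m2 + τ) - uu b (m2 - Yk) := by
  have hp := Real.pi_pos
  rw [← uu_abs b (m2 + τ), ← uu_abs b (m2 - Yk)]
  have c0 : 0 ≤ Real.pi * (b - 1 / 2) := mul_nonneg hp.le (by linarith only [h1])
  rcases le_total |m2 + τ| |m2 - Yk| with h | h
  · have h3 := uu_hi' h1 h2 (abs_nonneg _) h
    have h5 := abs_diff'' (u := m2 - Yk) (v := m2 + τ) (w := τ + Yk) (by linarith only [hY, ht]) (by ring)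
    have h6 := mul_le_mul_of_nonneg_left h5 c0
    linarith only [h3, h6]
  · have h3 := uu_hi h1 (abs_nonneg _) h
    have : 0 ≤ Real.pi * (b - 1 / 2) * (τ + Yk) := mul_nonneg c0 (by linarith only [hY, ht])
    linarith only [h3, this]

theorem H_3 {b τ Yk m2 : ℝ} (h1 : 1 / 2 ≤ b) (h2 : b ≤ 3 / 2) (hY : 0 ≤ Yk) (ht : 0 ≤ τ) :
    -(Real.pi * (τ + Yk)) ≤ uu b (m2 + τ) - uu b (m2 - Yk) := by
  have hp := Real.pi_pos
  rw [← uu_abs b (m2 + τ), ← uu_abs b (m2 - Yk)]
  rcases le_total |m2 + τ| |m2 - Yk| with h | h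
  · have h3 := uu_hi3 h2 (abs_nonneg _) h
    have h5 := abs_diff'' (u := m2 - Yk) (v := m2 + τ) (w := τ + Yk) (by linarith only [hY, ht]) (by ring)
    have h6 := mul_le_mul_of_nonneg_left h5 hp.le
    linarith only [h3, h6]
  · have h3 := uu_hi h1 (abs_nonneg _) h
    have : 0 ≤ Real.pi * (τ + Yk) := mul_nonneg hp.le (by linarith only [hY, ht])
    linarith only [h3, this]

/-- the gain at the digit `1` -/
theorem kD_ge {k τ Yk x1 Y : ℝ} (hk : 0 < k) (hk2 : k ≤ 1 / 4) (hY : 0 < Yk)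
    (hYk : Yk ≤ 115 / 100 * k) (ht : 0 ≤ τ) (ht2 : τ ≤ 74 / 100 * Yk) (hx : 0 ≤ x1)
    (hx2 : x1 ≤ 65 / 100) (hYY : 0 ≤ Y) :
    Yk * (Real.pi * (6 / 5 - k) - 85517 / 100000) + τ * (Real.pi * (1 / 2 + k) + 85517 / 100000) ≤
      kD k τ Yk x1 Y := by
  have hp := Real.pi_pos
  have hB := uu_atan hk (by linarith only [hk, hk2]) ht (show τ ≤ Yk by linarith only [hY, ht2]) hYk arctan_115
  unfold kD
  rcases le_total (x1 + k) (1 / 2) with h | h
  · have hA : -(Real.pi * (1 / 2 - (x1 + k)) * (τ + Yk)) ≤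
        uu (x1 + k) (Y + τ) - uu (x1 + k) (Y - Yk) := by
      have c0 : 0 ≤ Real.pi * (1 / 2 - (x1 + k)) := mul_nonneg hp.le (by linarith only [h])
      rw [← uu_abs (x1 + k) (Y + τ), ← uu_abs (x1 + k) (Y - Yk)]
      rcases le_total |Y + τ| |Y - Yk| with h' | h'
      · have h3 := uu_lo h (abs_nonneg _) h'
        have : 0 ≤ Real.pi * (1 / 2 - (x1 + k)) * (τ + Yk) := mul_nonneg c0 (by linarith only [hY, ht])
        linarith only [h3, this]
      · have h3 := uu_lo' (by linarith only [hk, hx]) h (abs_nonneg _) h'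
        have h5 := abs_diff' (u := Y + τ) (v := Y - Yk) (w := τ + Yk) (by linarith only [hY, ht]) (by ring)
        have h6 := mul_le_mul_of_nonneg_left h5 c0
        linarith only [h3, h6]
    have e : Real.pi * (τ + Yk) * (1 - x1) + Real.pi * Yk -
        Real.pi * (1 / 2 - (x1 + k)) * (τ + Yk) =
        Yk * (Real.pi * (6 / 5 - k)) + τ * (Real.pi * (1 / 2 + k)) +
        Real.pi * Yk * (3 / 10 + 2 * k) := by ring
    have e2 : 0 ≤ Real.pi * Yk * (3 / 10 + 2 * k) := by positivity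
    linarith only [hB, hA, e2]
  · have hA : -(Real.pi * (x1 + k - 1 / 2) * (Yk - τ)) ≤
        uu (x1 + k) (Y + τ) - uu (x1 + k) (Y - Yk) := by
      have c0 : 0 ≤ Real.pi * (x1 + k - 1 / 2) := mul_nonneg hp.le (by linarith only [h])
      rw [← uu_abs (x1 + k) (Y + τ), ← uu_abs (x1 + k) (Y - Yk)]
      rcases le_total |Y + τ| |Y - Yk| with h' | h'
      · have h3 := uu_hi' h (by linarith only [hk, hk2, hx2]) (abs_nonneg _) h'
        have h5 : |Y - Yk| - |Y + τ| ≤ Yk - τ := by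
          rw [abs_of_nonneg (show 0 ≤ Y + τ by linarith only [ht, hYY])]
          rcases abs_cases (Y - Yk) with ⟨h7, _⟩ | ⟨h7, _⟩
          · rw [h7]; linarith only [hY]
          · rw [h7]; linarith only [hYY]
        have h6 := mul_le_mul_of_nonneg_left h5 c0
        linarith only [h3, h6]
      · have h3 := uu_hi h (abs_nonneg _) h'
        have : 0 ≤ Real.pi * (x1 + k - 1 / 2) * (Yk - τ) := mul_nonneg c0 (by linarith only [hY, ht2])
        linarith only [h3, this]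
    have e : Real.pi * (τ + Yk) * (1 - x1) + Real.pi * Yk - Real.pi * (x1 + k - 1 / 2) * (Yk - τ) =
        Yk * (Real.pi * (6 / 5 - k)) + τ * (Real.pi * (1 / 2 + k)) +
        2 * Real.pi * Yk * (65 / 100 - x1) := by ring
    have e2 : 0 ≤ 2 * Real.pi * Yk * (65 / 100 - x1) := mul_nonneg (by positivity) (by linarith only [hx2])
    linarith only [hB, hA, e2]

theorem k1 {k τ Yk x1 Y m1 m2 : ℝ} (hk : 0 < k) (hk2 : k ≤ 1 / 4) (hY : 0 < Yk)
    (hYk : Yk ≤ 115 / 100 * k) (ht : 0 ≤ τ) (ht2 : τ ≤ 74 / 100 * Yk) (hx : 0 ≤ x1)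
    (hx2 : x1 ≤ 65 / 100) (hYY : 0 ≤ Y) (hm : 0 ≤ m1) (hm1 : m1 ≤ 86 / 100)
    (hm2 : m2 ≤ 125 / 100 * m1) : 0 < kD k τ Yk x1 Y + kP1 k τ Yk m1 m2 := by
  have hp := Real.pi_pos
  have hp4 := Real.pi_gt_d4
  have hp5 := Real.pi_lt_d4
  have hD := kD_ge hk hk2 hY hYk ht ht2 hx hx2 hYY
  have hB := uu_atan hk (by linarith only [hk2, hp4, hp5]) ht (show τ ≤ Yk by linarith only [hY, ht2]) hYk arctan_115
  have p1 : 0 ≤ (1 / 4 - k) * (Yk - τ) := mul_nonneg (by linarith only [hk2]) (by linarith only [hY, ht2])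
  have p2 : 0 ≤ (1 / 4 - k) * Yk := mul_nonneg (by linarith only [hk2]) (by linarith only [hY])
  have p3 := mul_nonneg hp.le p1
  have p4 := mul_nonneg hp.le p2
  have q1 : 31415 / 10000 * Yk ≤ Real.pi * Yk := mul_le_mul_of_nonneg_right (by linarith only [hp4]) hY.le
  have q2 : Real.pi * τ ≤ 31416 / 10000 * τ := mul_le_mul_of_nonneg_right (by linarith only [hp5]) ht
  unfold kP1
  rcases le_total (k + m1) (1 / 2) with h | h
  · have hH := H_lo hk rfl hm h hY.le hYk ht ht2 hm2 (by norm_num) arctan_125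
    have e : 0 ≤ Real.pi * (τ + Yk) * m1 := by positivity
    linarith only [hY, ht, hD, hB, p3, q1, q2, hH, e]
  · rcases le_total (k + m1) 1 with h' | h'
    · have hH := H_hi (m2 := m2) h h' hY.le ht
      linarith only [hY, ht, hD, hB, p4, q1, hH]
    · have hH := H_3 (m2 := m2) h (by linarith only [hk2, hm1, hp4, hp5]) hY.le ht
      have e : 0 ≤ Real.pi * (τ + Yk) * (m1 - (1 - k)) := mul_nonneg (by positivity) (by linarith only [h'])
      linarith only [hY, ht, hD, hB, p4, q1, q2, hH, e]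

theorem k2 {k τ Yk x1 Y m1 m2 : ℝ} (hk : 0 < k) (hk2 : k ≤ 1 / 4) (hY : 0 < Yk)
    (hYk : Yk ≤ 115 / 100 * k) (ht : 0 ≤ τ) (ht2 : τ ≤ 74 / 100 * Yk) (hx : 0 ≤ x1)
    (hx2 : x1 ≤ 65 / 100) (hYY : 0 ≤ Y) (hm : 0 ≤ m1) (hm1 : m1 ≤ 80 / 100)
    (hm2 : m2 ≤ 25 / 10 * m1) : 0 < kD k τ Yk x1 Y + kP2 k τ Yk m1 m2 := by
  have hp := Real.pi_pos
  have hp4 := Real.pi_gt_d4
  have hp5 := Real.pi_lt_d4
  have hD := kD_ge hk hk2 hY hYk ht ht2 hx hx2 hYY
  have hB := uu_atan hk (by linarith only [hk2, hp4, hp5]) ht (show τ ≤ Yk by linarith only [hY, ht2]) hYk arctan_115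
  have p1 : 0 ≤ (1 / 4 - k) * τ := mul_nonneg (by linarith only [hk2]) ht
  have p2 : 0 ≤ (1 / 4 - k) * Yk := mul_nonneg (by linarith only [hk2]) (by linarith only [hY])
  have p3 := mul_nonneg hp.le p1
  have p4 := mul_nonneg hp.le p2
  have q1 : 31415 / 10000 * Yk ≤ Real.pi * Yk := mul_le_mul_of_nonneg_right (by linarith only [hp4]) hY.le
  have q2 : Real.pi * τ ≤ 31416 / 10000 * τ := mul_le_mul_of_nonneg_right (by linarith only [hp5]) ht
  have q3 : 0 ≤ Real.pi * τ := by positivity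
  unfold kP2
  rcases le_total (k + m1) (1 / 2) with h | h
  · have hH := H_lo hk rfl hm h hY.le hYk ht ht2 hm2 (by norm_num) arctan_250
    have e : 0 ≤ Real.pi * (τ + Yk) * m1 := by positivity
    linarith only [hY, ht, hD, hB, p4, q1, hH, e]
  · rcases le_total (k + m1) 1 with h' | h'
    · have hH := H_hi (m2 := m2) h h' hY.le ht
      linarith only [hY, ht, hD, hB, p3, p4, q1, q3, hH]
    · have hH := H_3 (m2 := m2) h (by linarith only [hk2, hm1, hp4, hp5]) hY.le ht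
      have e : 0 ≤ Real.pi * (τ + Yk) * (m1 - (1 - k)) := mul_nonneg (by positivity) (by linarith only [h'])
      linarith only [hY, ht, hD, hB, p3, p4, q1, q2, hH, e]

theorem ke {k τ Yk x1 Y : ℝ} (hk : 0 < k) (hk2 : k ≤ 1 / 4) (hY : 0 < Yk)
    (hYk : Yk ≤ 115 / 100 * k) (ht : 0 ≤ τ) (ht2 : τ ≤ 74 / 100 * Yk) (hx : 0 ≤ x1)
    (hx2 : x1 ≤ 65 / 100) (hYY : 0 ≤ Y) : 0 < kD k τ Yk x1 Y + kPe k τ Yk := by
  have hp := Real.pi_pos
  have hp4 := Real.pi_gt_d4
  have hD := kD_ge hk hk2 hY hYk ht ht2 hx hx2 hYY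
  have hB := uu_atan hk (by linarith only [hk, hk2]) ht (show τ ≤ Yk by linarith only [hY, ht2]) hYk arctan_115
  have p2 : 0 ≤ (1 / 4 - k) * Yk := mul_nonneg (by linarith only [hk2]) (by linarith only [hY])
  have p4 := mul_nonneg hp.le p2
  have q1 : 31415 / 10000 * Yk ≤ Real.pi * Yk := mul_le_mul_of_nonneg_right (by linarith only [hp4]) hY.le
  unfold kPe
  linarith only [hY, ht, hD, hB, p4, q1]

theorem rowsK : RowsK where
  k1 := fun _ _ _ _ _ _ _ hk hk2 hY _ hYk ht ht2 hx hx2 hYY hm hm1 hm2 =>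
    k1 hk hk2 hY hYk ht ht2 hx hx2 hYY hm hm1 hm2
  k2 := fun _ _ _ _ _ _ _ hk hk2 hY _ hYk ht ht2 hx hx2 hYY hm hm1 hm2 =>
    k2 hk hk2 hY hYk ht ht2 hx hx2 hYY hm hm1 hm2
  ke := fun _ _ _ _ _ hk hk2 hY _ hYk ht ht2 hx hx2 hYY => ke hk hk2 hY hYk ht ht2 hx hx2 hYY

end ZD

end Pool.Agent.Work.MP_b30479_gt.G2
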