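import Pool.Agent.Work.MP_b30479_gt.G2.ZNq
import Pool.Agent.Work.MP_b30479_gt.G2.ZNr
import Pool.Agent.Work.MP_b30479_gt.G2.ZNs
import Pool.Agent.Work.MP_b30479_gt.G2.ZNe
import Pool.Agent.Work.MP_b30479_gt.G2.ZRk

/-!
# `RowsN.nD2`, `RowsN.nd2`
-/

namespace Pool.Agent.Work.MP_b30479_gt.G2

open NumU (uu uu_neg uu_one_sub)

namespace ZD

namespace ZK

open ZA ZN

/-! ### Lipschitz bounds -/

theorem lip_of {a s p q : ℝ} (hs : 0 ≤ s) (h : ∀ t t' : ℝ, 0 ≤ t → t ≤ t' →
    uu a t' ≤ uu a t + s * (t' - t) ∧ uu a t ≤ uu a t' + s * (t' - t)) (hpq : p ≤ q) :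
    uu a q ≤ uu a p + s * (q - p) := by
  rw [← uu_abs a q, ← uu_abs a p]
  have h1 := abs_sub_abs_le_abs_sub q p
  have h2 := abs_sub_abs_le_abs_sub p q
  rw [abs_of_nonneg (show 0 ≤ q - p by linarith only [hpq])] at h1
  rw [abs_of_nonpos (show p - q ≤ 0 by linarith only [hpq])] at h2
  rcases le_total |p| |q| with h3 | h3
  · have := (h _ _ (abs_nonneg p) h3).1
    have := mul_le_mul_of_nonneg_left h1 hs
    linarith
  · have := (h _ _ (abs_nonneg q) h3).2
    have := mul_le_mul_of_nonneg_left h2 hs
    linarith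

theorem lip_mid {a t t' : ℝ} (h0 : 0 < a) (h1 : a < 1) (ht : 0 ≤ t) (htt : t ≤ t') :
    uu a t' ≤ uu a t + Real.pi * |a - 1 / 2| * (t' - t) ∧
      uu a t ≤ uu a t' + Real.pi * |a - 1 / 2| * (t' - t) := by
  have hp := Real.pi_pos
  have hm : 0 ≤ Real.pi * |a - 1 / 2| * (t' - t) :=
    mul_nonneg (by positivity) (by linarith only [htt])
  rcases le_total (1 / 2) a with h | h
  · have k1 := sl_small h h1 ht htt
    have k2 := (sl_half h h1.le ht htt).1
    rw [abs_of_nonneg (by linarith only [h])] at hm ⊢
    constructor <;> linarith only [k1, hm, k2]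
  · have k1 := sl_small (a := 1 - a) (by linarith only [h]) (by linarith only [h0]) ht htt
    have k2 := (sl_half (a := 1 - a) (by linarith only [h]) (by linarith only [h0]) ht htt).1
    have e : ∀ s, uu (1 - a) s = -uu a s := fun s => uu_one_sub a s
    rw [e, e] at k1 k2
    rw [abs_of_nonpos (by linarith only [h])] at hm ⊢
    have e2 : Real.pi * (1 - a - 1 / 2) * (t' - t) = Real.pi * (-(a - 1 / 2)) * (t' - t) := by ring
    rw [e2] at k1
    constructor <;> linarith only [hm, k2, k1]

/-! ### the difference along the vertical -/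

theorem nA2_ge {x t T k1 k2 s r : ℝ}
    (h1 : uu (x + k1) (16 / 100 * t + k2) ≤
      uu (x + k1) (T * t + k2) + s * (16 / 100 * t + k2 - (T * t + k2)))
    (h2 : uu x (T * t) ≤ uu x (16 / 100 * t) + r * (16 / 100 * t)) :
    t * ((16 / 100 - T) * (Real.pi * (x - k1) + Real.pi / 2 - s) +
      16 / 100 * (Real.pi - 2 * r)) ≤ nA2 x t T k1 k2 := by
  unfold nA2 gD2
  linarith only [h1, h2]

theorem arctan_cN : Real.arctan (16 / 13) ≤ 3 / 10 * Real.pi := by
  have h := Real.arctan_add (x := 1) (y := 3 / 29) (by norm_num)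
  rw [Real.arctan_one, show (1 + 3 / 29 : ℝ) / (1 - 1 * (3 / 29)) = 16 / 13 by norm_num] at h
  have h2 := arctan_le_id (y := 3 / 29) (by norm_num)
  have h3 := Real.pi_gt_three
  rw [← h]
  linarith only [h2, h3]

theorem hx_low {x t T : ℝ} (h0 : 0 < x) (h1 : x ≤ 2 / 100) (ht : t = 100 / 13 * x)
    (T0 : -(7 / 10000) ≤ T) (T1 : T ≤ 0) :
    uu x (T * t) ≤ uu x (16 / 100 * t) + 3 / 10 * Real.pi * (16 / 100 * t) := by
  have hp := Real.pi_pos
  have ht0 : 0 < t := by rw [ht]; positivity
  have h2 : |T * t| ≤ 16 / 100 * t := by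
    rw [abs_mul, abs_of_nonpos T1, abs_of_pos ht0]
    exact mul_le_mul_of_nonneg_right (by linarith only [h0, h1, T0]) ht0.le
  have h3 := uu_atan (a := x) (s := |T * t|) (s' := 16 / 100 * t) (r := 16 / 13)
    (c := 3 / 10 * Real.pi) h0 (by linarith only [h0, h1]) (abs_nonneg _) h2 (by rw [ht]; linarith only []) arctan_cN
  rw [uu_abs] at h3
  have h4 : 3 / 10 * Real.pi * (16 / 100 * t - |T * t|) ≤ 3 / 10 * Real.pi * (16 / 100 * t) :=
    mul_le_mul_of_nonneg_left (by linarith only [abs_nonneg (T * t)]) (by positivity)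
  linarith only [h3, h4]

theorem hx_high {x t T : ℝ} (h0 : 1 / 2 ≤ x) (h1 : x ≤ 6 / 10) (ht0 : 0 ≤ t)
    (T0 : -(7 / 10000) ≤ T) (T1 : T ≤ 0) :
    uu x (T * t) ≤ uu x (16 / 100 * t) + 0 * (16 / 100 * t) := by
  have h2 : |T * t| ≤ 16 / 100 * t := by
    rw [abs_mul, abs_of_nonpos T1, abs_of_nonneg ht0]
    exact mul_le_mul_of_nonneg_right (by linarith only [T0]) ht0
  have h3 := (sl_half h0 (by linarith only [h1]) (abs_nonneg _) h2).1
  rw [uu_abs] at h3
  linarith only [h3]

/-! ### the trapezoid -/

theorem tN_low {x : ℝ} (h0 : 0 < x) (h1 : x ≤ 13 / 100) : tN (13 / 100) x = 100 / 13 * x := by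
  unfold tN
  have e : x / (13 / 100) = 100 / 13 * x := by ring
  rw [e, min_eq_left (a := 100 / 13 * x) (by rw [le_div_iff₀ (by norm_num)]; linarith only [h0, h1]),
    min_eq_right (by linarith only [h1])]

theorem tN_mid {x : ℝ} (h0 : 13 / 100 ≤ x) (h1 : x ≤ 3 / 10) : tN (13 / 100) x = 1 := by
  unfold tN
  refine min_eq_left (le_min ?_ ?_)
  · rw [le_div_iff₀ (by norm_num)]; linarith only [h0]
  · rw [le_div_iff₀ (by norm_num)]; linarith only [h1]

theorem tN_high {x : ℝ} (h0 : 3 / 10 ≤ x) (h1 : x ≤ 6 / 10) :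
    tN (13 / 100) x = 10 / 3 * (60 / 100 - x) := by
  unfold tN
  have e : (60 / 100 - x) / (30 / 100) = 10 / 3 * (60 / 100 - x) := by ring
  rw [e, min_eq_right (a := x / (13 / 100)) (by rw [le_div_iff₀ (by norm_num)]; linarith only [h0]),
    min_eq_right (by linarith only [h0])]

end ZK

open ZK ZA ZN in
theorem nd2 : ∀ x t T k1 k2 : ℝ, NT (13 / 100) x t T → 0 ≤ k1 → |k2| ≤ 16 / 100 →
    |k2| ≤ 32 / 10 * k1 → |k2| ≤ 32 / 10 * (80 / 100 - k1) → 0 ≤ nB2 x t T k1 k2 + dN x := by
  intro x t T k1 k2 hN hk h2 h3 h4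
  obtain ⟨x0, x1, ht, T0, T1⟩ := hN
  have hk1 : k1 ≤ 80 / 100 := by linarith only [h4, abs_nonneg k2]
  obtain ⟨l, l0, l1, hl⟩ := ex_l h2 h3 h4
  obtain ⟨v1, v2, v3, v4⟩ := vals x k1 l T
  rcases le_total x (13 / 100) with hx | hx
  · rw [tN_low x0 hx] at ht
    obtain ⟨e, he, hp⟩ := NumL.chkF4 r_d1 (by norm_num) (x := x) (y := k1) (z := l) (w := T)
      (by norm_num; linarith only [x0]) (by norm_num; linarith only [hx]) (by norm_num; linarith only [hk])
      (by norm_num; linarith only [hk1]) (by norm_num; linarith only [l0]) (by norm_num; linarith only [l1])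
      (by norm_num; linarith only [T0]) (by norm_num; linarith only [T1])
    simp only [ZK.d1, List.mem_singleton] at he
    rw [he, nd2E_val, kE_val, tL_val, v1, v2, v3, v4, ← hl, ← ht] at hp
    exact hp.le
  rcases le_total x (3 / 10) with hx3 | hx3
  · rw [tN_mid hx hx3] at ht
    obtain ⟨e, he, hp⟩ := NumL.chkF4 r_d2 (by norm_num) (x := x) (y := k1) (z := l) (w := T)
      (by norm_num; linarith only [hx]) (by norm_num; linarith only [hx3]) (by norm_num; linarith only [hk])
      (by norm_num; linarith only [hk1]) (by norm_num; linarith only [l0]) (by norm_num; linarith only [l1])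
      (by norm_num; linarith only [T0]) (by norm_num; linarith only [T1])
    simp only [ZK.d2, List.mem_singleton] at he
    rw [he, nd2E_val, kE_val, v1, v2, v3, v4, ← hl] at hp
    simp only [NumL.E.val] at hp
    push_cast at hp
    rw [ht]
    rw [div_one] at hp
    exact hp.le
  · rw [tN_high hx3 (by linarith only [x1])] at ht
    obtain ⟨e, he, hp⟩ := NumL.chkF4 r_d3 (by norm_num) (x := x) (y := k1) (z := l) (w := T)
      (by norm_num; linarith only [hx3]) (by norm_num; linarith only [x1]) (by norm_num; linarith only [hk])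
      (by norm_num; linarith only [hk1]) (by norm_num; linarith only [l0]) (by norm_num; linarith only [l1])
      (by norm_num; linarith only [T0]) (by norm_num; linarith only [T1])
    simp only [ZK.d3, List.mem_singleton] at he
    rw [he, nd2E_val, kE_val, tR_val, v1, v2, v3, v4, ← hl, ← ht] at hp
    exact hp.le

open ZK ZA ZN in
theorem nD2 : ∀ x t T k1 k2 : ℝ, NT (13 / 100) x t T → 0 ≤ k1 → |k2| ≤ 16 / 100 →
    |k2| ≤ 32 / 10 * k1 → |k2| ≤ 32 / 10 * (80 / 100 - k1) →
    0 ≤ nA2 x t T k1 k2 + 16 / 100 * t * (PN x * nB2 x t T k1 k2 + cN x) := by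
  intro x t T k1 k2 hN hk h2 h3 h4
  obtain ⟨x0, x1, ht, T0, T1⟩ := hN
  have hpi := Real.pi_pos
  have hk1 : k1 ≤ 80 / 100 := by linarith only [h4, abs_nonneg k2]
  obtain ⟨l, l0, l1, hl⟩ := ex_l h2 h3 h4
  obtain ⟨v1, v2, v3, v4⟩ := vals x k1 l T
  have hx15 : 0 < x + 15 / 100 := by linarith only [x0, x1]
  have hx15' : 0 < ZK.x.val [x, k1, l, T] + 15 / 100 := by rw [v1]; exact hx15
  rcases le_total x (2 / 100) with hx | hx
  · rw [tN_low x0 (by linarith only [x0, hx])] at ht
    obtain ⟨e, he, hp⟩ := NumL.chkF4 r_e1 (by norm_num) (x := x) (y := k1) (z := l) (w := T)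
      (by norm_num; linarith only [x0]) (by norm_num; linarith only [hx]) (by norm_num; linarith only [hk])
      (by norm_num; linarith only [hk1]) (by norm_num; linarith only [l0]) (by norm_num; linarith only [l1])
      (by norm_num; linarith only [T0]) (by norm_num; linarith only [T1])
    simp only [e1, List.mem_singleton] at he
    rw [he, nCE_val _ _ _ _ _ _ _ _ hx15', kE_val, tL_val, v1, v2, v3, v4, ← hl, ← ht,
      NumL.E.mn_val] at hp
    simp only [NumL.E.val, v1, v2] at hp
    push_cast at hp
    have hp := pos_of_mul_pos_right hp hx15.le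
    have ht0 : 0 < t := by rw [ht]; positivity
    have g1 := nA2_ge (x := x) (t := t) (T := T) (k1 := k1) (k2 := k2)
      (s := Real.pi * |x + k1 - 1 / 2|) (r := 3 / 10 * Real.pi)
      (lip_of (by positivity) (fun a b ha hab => lip_mid (by linarith only [hk, x0]) (by linarith only [x0, hk1, hx]) ha hab)
        (by nlinarith only [ht, x0, T1, hx, x1, T0])) (hx_low x0 hx ht T0 T1)
    have g2 : Real.pi * (x - k1) + Real.pi / 2 - Real.pi * |x + k1 - 1 / 2| =
        Real.pi * min (2 / 1 * x) (1 / 1 - 2 / 1 * k1) := by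
      rcases le_total (x + k1) (1 / 2) with h | h
      · rw [abs_of_nonpos (by linarith only [h]), min_eq_left (by linarith only [h])]; ring
      · rw [abs_of_nonneg (by linarith only [h]), min_eq_right (by linarith only [h])]; ring
    rw [g2] at g1
    have g3 := mul_pos ht0 hp
    linarith only [g1, g3]
  rcases le_total x (13 / 100) with hx2 | hx2
  · rw [tN_low x0 hx2] at ht
    obtain ⟨e, he, hp⟩ := NumL.chkF4 r_e2 (by norm_num) (x := x) (y := k1) (z := l) (w := T)
      (by norm_num; linarith only [hx]) (by norm_num; linarith only [hx2]) (by norm_num; linarith only [hk])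
      (by norm_num; linarith only [hk1]) (by norm_num; linarith only [l0]) (by norm_num; linarith only [l1])
      (by norm_num; linarith only [T0]) (by norm_num; linarith only [T1])
    simp only [e2, List.mem_singleton] at he
    rw [he, nD2E_val _ _ _ _ _ _ hx15', kE_val, tL_val, v1, v2, v3, v4, ← hl, ← ht] at hp
    exact (pos_of_mul_pos_right hp hx15.le).le
  rcases le_total x (3 / 10) with hx3 | hx3
  · rw [tN_mid hx2 hx3] at ht
    obtain ⟨e, he, hp⟩ := NumL.chkF4 r_e3 (by norm_num) (x := x) (y := k1) (z := l) (w := T)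
      (by norm_num; linarith only [hx2]) (by norm_num; linarith only [hx3]) (by norm_num; linarith only [hk])
      (by norm_num; linarith only [hk1]) (by norm_num; linarith only [l0]) (by norm_num; linarith only [l1])
      (by norm_num; linarith only [T0]) (by norm_num; linarith only [T1])
    simp only [e3, List.mem_singleton] at he
    rw [he, nD2E_val _ _ _ _ _ _ hx15', kE_val, v1, v2, v3, v4, ← hl] at hp
    have e1 : (NumL.E.q 1 1).val [x, k1, l, T] = t := by
      rw [ht]; simp only [NumL.E.val]; norm_num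
    rw [e1] at hp
    exact (pos_of_mul_pos_right hp hx15.le).le
  rw [tN_high hx3 (by linarith only [x1])] at ht
  have ht0 : 0 < t := by rw [ht]; linarith only [x1]
  rcases le_total x (1 / 2) with hx4 | hx4
  · obtain ⟨e, he, hp⟩ := NumL.chkF4 r_e4 (by norm_num) (x := x) (y := k1) (z := l) (w := T)
      (by norm_num; linarith only [hx3]) (by norm_num; linarith only [hx4]) (by norm_num; linarith only [hk])
      (by norm_num; linarith only [hk1]) (by norm_num; linarith only [l0]) (by norm_num; linarith only [l1])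
      (by norm_num; linarith only [T0]) (by norm_num; linarith only [T1])
    simp only [e4, List.mem_singleton] at he
    rw [he, nD2E_val _ _ _ _ _ _ hx15', kE_val, tR_val, v1, v2, v3, v4, ← hl, ← ht] at hp
    exact (pos_of_mul_pos_right hp hx15.le).le
  rcases le_total (x + k1) 1 with hk5 | hk5
  · obtain ⟨e, he, hp⟩ := NumL.chkF4 r_e5 (by norm_num) (x := x) (y := k1) (z := l) (w := T)
      (by norm_num; linarith only [hx4]) (by norm_num; linarith only [x1]) (by norm_num; linarith only [hk])
      (by norm_num; linarith only [hx4, hk5]) (by norm_num; linarith only [l0]) (by norm_num; linarith only [l1])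
      (by norm_num; linarith only [T0]) (by norm_num; linarith only [T1])
    simp only [e5, List.mem_cons, List.not_mem_nil, or_false] at he
    rcases he with rfl | rfl
    · rw [nCE_val _ _ _ _ _ _ _ _ hx15', kE_val, tR_val, v1, v2, v3, v4, ← hl, ← ht] at hp
      simp only [NumL.E.val, v1, v2] at hp
      push_cast at hp
      have hp := pos_of_mul_pos_right hp hx15.le
      have g1 := nA2_ge (x := x) (t := t) (T := T) (k1 := k1) (k2 := k2)
        (s := Real.pi / 2) (r := 0)
        (lip_of (by positivity) (fun a b ha hab => by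
          have := sl_half (a := x + k1) (by linarith only [hk, hx4]) hk5 ha hab
          have hm : 0 ≤ Real.pi / 2 * (b - a) := mul_nonneg (by positivity) (by linarith only [hab])
          constructor <;> linarith only [this]) (by nlinarith only [x1, ht, x0, T1, T0])) (hx_high hx4 (by linarith only [x1]) ht0.le T0 T1)
      have g3 := mul_pos ht0 hp
      linarith only [g1, g3]
    · simp only [NumL.E.val, v1, v2] at hp
      push_cast at hp
      linarith only [hk5, hp]
  · obtain ⟨e, he, hp⟩ := NumL.chkF4 r_e6 (by norm_num) (x := x) (y := k1) (z := l) (w := T)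
      (by norm_num; linarith only [hx4]) (by norm_num; linarith only [x1]) (by norm_num; linarith only [x1, hk5])
      (by norm_num; linarith only [hk1]) (by norm_num; linarith only [l0]) (by norm_num; linarith only [l1])
      (by norm_num; linarith only [T0]) (by norm_num; linarith only [T1])
    simp only [e6, List.mem_cons, List.not_mem_nil, or_false] at he
    rcases he with rfl | rfl
    · rw [nCE_val _ _ _ _ _ _ _ _ hx15', kE_val, tR_val, v1, v2, v3, v4, ← hl, ← ht] at hp
      simp only [NumL.E.val, v1, v2] at hp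
      push_cast at hp
      have hp := pos_of_mul_pos_right hp hx15.le
      have g1 := nA2_ge (x := x) (t := t) (T := T) (k1 := k1) (k2 := k2)
        (s := Real.pi) (r := 0)
        (lip_of (by positivity) (fun a b ha hab => by
          have := sl_one (a := x + k1) hk5 (by linarith only [ht, hk1, ht0, hx4]) ha hab
          have hm : 0 ≤ Real.pi / 2 * (b - a) := mul_nonneg (by positivity) (by linarith only [hab])
          constructor <;> linarith only [this]) (by nlinarith only [x1, ht, x0, T1, T0])) (hx_high hx4 (by linarith only [x1]) ht0.le T0 T1)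
      have g3 := mul_pos ht0 hp
      linarith only [g1, g3]
    · simp only [NumL.E.val, v1, v2] at hp
      push_cast at hp
      linarith only [hk5, hp]

end ZD

end Pool.Agent.Work.MP_b30479_gt.G2
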