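import Pool.Agent.Work.MP_b30479_gt.G2.ZNua
import Pool.Agent.Work.MP_b30479_gt.G2.ZNt

/-!
# `RowsN.nD1` for `1/2 ≤ x`
-/

namespace Pool.Agent.Work.MP_b30479_gt.G2

open NumU (uu uu_neg uu_one_sub uu_add_one)

namespace ZD

namespace ZL

open ZA ZN
open ZK (lip_of)

/-! ### slopes of `uu a` -/

theorem lnB_half {a t : ℝ} (h0 : 1 / 2 ≤ a) (h1 : a < 1) (ht : 0 ≤ t) : NumI.lnB a t ≤ 0 := by
  have h := lnB_nonneg (a := 1 - a) (by linarith only [h1]) (by linarith only [h0]) ht
  rw [lnB_one_sub] at h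
  linarith only [h]

theorem uu_at_one (t : ℝ) : uu 1 t = Real.pi / 2 * |t| := by
  have := uu_one_sub 0 t
  rw [sub_zero, UA.uu_zero, neg_neg] at this
  exact this

theorem dabs_p {c v : ℝ} (h : 0 < v + c) : HasDerivAt (fun v => |v + c|) 1 v := by
  have h1 := (hasDerivAt_abs_pos h).comp v ((hasDerivAt_id v).add_const c)
  refine HasDerivAt.congr_deriv h1 ?_
  norm_num

theorem dabs_n {c v : ℝ} (h : v + c < 0) : HasDerivAt (fun v => |v + c|) (-1) v := by
  have h1 := (hasDerivAt_abs_neg h).comp v ((hasDerivAt_id v).add_const c)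
  refine HasDerivAt.congr_deriv h1 ?_
  norm_num

/-- slope, `1/2 ≤ a < 1` -/
theorem derA {a c v : ℝ} (h0 : 1 / 2 ≤ a) (h1 : a < 1) :
    ∃ s, HasDerivAt (fun v => uu a (v + c)) s v ∧ s ≤ Real.pi * (a - 1 / 2) := by
  refine ⟨_, uu_t (by linarith only [h0, h1]) h1, ?_⟩
  rcases le_total 0 (v + c) with h | h
  · exact lnB_small h0 h1 h
  · have h2 := lnB_half h0 h1 (t := -(v + c)) (by linarith only [h])
    rw [lnB_neg] at h2
    have : 0 ≤ Real.pi * (a - 1 / 2) := mul_nonneg Real.pi_pos.le (by linarith only [h0])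
    linarith only [h2, this]

/-- slope, `1 ≤ a`, above -/
theorem derB {a c v : ℝ} (h0 : 1 ≤ a) (h1 : a < 2) (h : 0 < v + c) :
    ∃ s, HasDerivAt (fun v => uu a (v + c)) s v ∧
      s ≤ Real.pi - NumI.lnB (max (a - 1) (5 / 100)) (v + c) := by
  rcases h0.eq_or_lt with h2 | h2
  · refine ⟨Real.pi / 2 * 1, ?_, ?_⟩
    · have e : (fun v => uu a (v + c)) = fun v => Real.pi / 2 * |v + c| := by
        funext v
        rw [← h2]
        exact uu_at_one _
      rw [e]
      exact (dabs_p h).const_mul _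
    · have := ZA.lnB_le (max (a - 1) (5 / 100)) (v + c)
      linarith only [this]
  · refine ⟨-NumI.lnB (a - 1) (v + c) + Real.pi * 1, ?_, ?_⟩
    · have e : (fun v => uu a (v + c)) = fun v => uu (a - 1) (v + c) + Real.pi * |v + c| := by
        funext v
        rw [← uu_add_one, sub_add_cancel]
      rw [e]
      exact (uu_t (by linarith only [h2]) (by linarith only [h1])).add ((dabs_p h).const_mul _)
    · rcases le_total (a - 1) (5 / 100) with h3 | h3
      · rw [max_eq_right h3]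
        have := lnB_anti (a := a - 1) (b := 5 / 100) (t := v + c) (by linarith only [h2]) h3 (by norm_num) h.le
        linarith only [this]
      · rw [max_eq_left h3]
        linarith only []

/-- slope, `1 ≤ a`, below -/
theorem derC {a c v : ℝ} (h0 : 1 ≤ a) (h1 : a < 2) (h : v + c < 0) :
    ∃ s, HasDerivAt (fun v => uu a (v + c)) s v ∧ s ≤ 0 := by
  have hp := Real.pi_pos
  rcases h0.eq_or_lt with h2 | h2
  · refine ⟨Real.pi / 2 * (-1), ?_, by linarith only [hp]⟩
    have e : (fun v => uu a (v + c)) = fun v => Real.pi / 2 * |v + c| := by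
      funext v
      rw [← h2]
      exact uu_at_one _
    rw [e]
    exact (dabs_n h).const_mul _
  · refine ⟨-NumI.lnB (a - 1) (v + c) + Real.pi * (-1), ?_, ?_⟩
    · have e : (fun v => uu a (v + c)) = fun v => uu (a - 1) (v + c) + Real.pi * |v + c| := by
        funext v
        rw [← uu_add_one, sub_add_cancel]
      rw [e]
      exact (uu_t (by linarith only [h2]) (by linarith only [h1])).add ((dabs_n h).const_mul _)
    · have := ZA.lnB_le (a - 1) (-(v + c))
      rw [lnB_neg] at this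
      linarith only [hp, this]

/-! ### the lower bound `H` and its slope -/

/-- lower bound of `nD1`, `v = 16/100 t` -/
noncomputable def HH (x k1 k2 v : ℝ) : ℝ :=
  gD1 x 0 k1 k2 - gD1 x v k1 k2 + (Real.pi - 7 / 1600 * Real.pi * (x + k1 - 4 / 10)) * v +
    v * (PN x * nV x v k1 k2 + cN x)

theorem PN_pos {x : ℝ} (h0 : 0 ≤ x) (h1 : x ≤ 6 / 10) : 0 < PN x := by
  unfold PN
  rw [sub_pos, lt_div_iff₀ (by linarith only [h0])]
  linarith only [h1]

theorem hR_mono {x v k1 k2 s S : ℝ} (h0 : 0 ≤ x) (h1 : x ≤ 6 / 10) (hv : 0 ≤ v) (hs : s ≤ S)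
    (h : 0 < hR x v k1 k2 S) : 0 < hR x v k1 k2 s := by
  have hp := PN_pos h0 h1
  unfold hR at h ⊢
  have := mul_nonneg (mul_nonneg hp.le hv) (sub_nonneg.2 hs)
  nlinarith only [hs, h, this]

theorem HH_cont (x k1 k2 : ℝ) : Continuous (HH x k1 k2) := by
  unfold HH nV gD1
  have h1 : Continuous fun v : ℝ => uu (x + k1) (v + k2) :=
    cont_uu' continuous_const (by fun_prop)
  have h2 : Continuous fun v : ℝ => uu x v := cont_uu' continuous_const continuous_id
  fun_prop

theorem HH_der {x k1 k2 v s : ℝ} (h0 : 0 < x) (h1 : x < 1)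
    (h : HasDerivAt (fun v => uu (x + k1) (v + k2)) s v) :
    HasDerivAt (HH x k1 k2) (hR x v k1 k2 s) v := by
  have hx : HasDerivAt (fun v => uu x (v + 0)) (-NumI.lnB x (v + 0)) v := uu_t h0 h1
  simp only [add_zero] at hx
  have hg : HasDerivAt (fun v => gD1 x v k1 k2)
      (Real.pi * (k1 - 1) + s + NumI.lnB x v) v := by
    unfold gD1
    have hl : HasDerivAt (fun v : ℝ => Real.pi * (x * k2 + v * k1 - v))
        (Real.pi * (1 * k1 - 1)) v :=
      ((((hasDerivAt_id v).mul_const k1).const_add _).sub (hasDerivAt_id v)).const_mul _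
    exact ((hl.add h).sub hx).congr_deriv (by ring)
  have hn : HasDerivAt (fun v => nV x v k1 k2)
      (-(Real.pi * (k1 - 1) + s + NumI.lnB x v) + Real.pi) v := by
    unfold nV
    have hl : HasDerivAt (fun v : ℝ => Real.pi * (7 / 10000 * k1 - v)) (Real.pi * (-1)) v :=
      ((hasDerivAt_id v).const_sub _).const_mul _
    exact ((hg.const_sub _).sub hl).congr_deriv (by ring)
  have hv := hasDerivAt_id v
  have h3 := ((hg.const_sub (gD1 x 0 k1 k2)).add
    (hv.const_mul (Real.pi - 7 / 1600 * Real.pi * (x + k1 - 4 / 10)))).add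
    (hv.mul ((hn.const_mul (PN x)).add_const (cN x)))
  refine HasDerivAt.congr_deriv h3 ?_
  unfold hR
  simp only [id]
  ring

theorem HH_step {x k1 k2 p q : ℝ} (h0 : 0 < x) (h1 : x < 1) (hpq : p ≤ q)
    (h : ∀ v ∈ Set.Ioo p q, ∃ s, HasDerivAt (fun v => uu (x + k1) (v + k2)) s v ∧
      0 < hR x v k1 k2 s) : HH x k1 k2 p ≤ HH x k1 k2 q := by
  have hm : MonotoneOn (HH x k1 k2) (Set.Icc p q) := by
    apply monotoneOn_of_deriv_nonneg (convex_Icc _ _) (HH_cont x k1 k2).continuousOn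
    · rw [interior_Icc]
      intro v hv
      obtain ⟨s, hs, _⟩ := h v hv
      exact (HH_der h0 h1 hs).differentiableAt.differentiableWithinAt
    · rw [interior_Icc]
      intro v hv
      obtain ⟨s, hs, hp⟩ := h v hv
      rw [(HH_der h0 h1 hs).deriv]
      exact hp.le
  exact hm (Set.left_mem_Icc.2 hpq) (Set.right_mem_Icc.2 hpq) hpq

theorem HH_zero (x k1 k2 : ℝ) : HH x k1 k2 0 = 0 := by
  unfold HH
  ring

/-! ### the rows -/

theorem ex_w {x v : ℝ} (h1 : x < 6 / 10) (hv : 0 ≤ v) (hv1 : v ≤ 8 / 15 * (60 / 100 - x)) :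
    ∃ w : ℝ, 0 ≤ w ∧ w ≤ 1 ∧ v = w * (8 / 15) * (60 / 100 - x) := by
  have h : 0 < 8 / 15 * (60 / 100 - x) := by linarith only [h1]
  refine ⟨v / (8 / 15 * (60 / 100 - x)), by positivity, ?_, ?_⟩
  · rw [div_le_iff₀ h]; linarith only [hv1]
  · rw [mul_assoc, div_mul_cancel₀ _ h.ne']

theorem row_A {x v k1 k2 : ℝ} (h0 : 1 / 2 ≤ x) (h1 : x < 6 / 10) (hk : dom3 k1 k2)
    (ha : x + k1 ≤ 1) (hv : 0 ≤ v) (hv1 : v ≤ 8 / 15 * (60 / 100 - x)) :
    0 < hR x v k1 k2 (Real.pi * (x + k1 - 1 / 2)) := by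
  obtain ⟨l, l0, l1, hl⟩ := ex_l hk
  obtain ⟨w, w0, w1, hw⟩ := ex_w h1 hv hv1
  obtain ⟨k0, _⟩ := hk
  obtain ⟨v1, v2, v3, v4⟩ := vals x k1 l w
  have hx15 : 0 < x + 15 / 100 := by linarith only [h0, h1]
  have hx15' : 0 < ZL.x.val [x, k1, l, w] + 15 / 100 := by rw [v1]; exact hx15
  obtain ⟨e, he, hp⟩ := NumL.chkF4 r_hA (by norm_num) (x := x) (y := k1) (z := l) (w := w)
    (by norm_num; linarith only [h0]) (by norm_num; linarith only [h1]) (by norm_num; linarith only [k0])
    (by norm_num; linarith only [h0, ha]) (by norm_num; linarith only [l0]) (by norm_num; linarith only [l1])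
    (by norm_num; linarith only [w0]) (by norm_num; linarith only [w1])
  simp only [hA, List.mem_cons, List.not_mem_nil, or_false] at he
  rcases he with rfl | rfl
  · rw [hE_val _ _ _ _ _ _ hx15', kE_val, vE_val, v1, v2, v3, v4, ← hl, ← hw] at hp
    simp only [NumL.E.val, v1, v2] at hp
    push_cast at hp
    exact pos_of_mul_pos_right hp hx15.le
  · simp only [NumL.E.val, v1, v2] at hp
    push_cast at hp
    linarith only [ha, hp]

theorem row_B {x v k1 k2 : ℝ} (h0 : 1 / 2 ≤ x) (h1 : x < 6 / 10) (hk : dom3 k1 k2)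
    (ha : 1 ≤ x + k1) (hv : 0 ≤ v) (hv1 : v ≤ 8 / 15 * (60 / 100 - x)) (ht : 0 ≤ v + k2) :
    0 < hR x v k1 k2 (Real.pi - NumI.lnB (max (x + k1 - 1) (5 / 100)) (v + k2)) := by
  obtain ⟨l, l0, l1, hl⟩ := ex_l hk
  obtain ⟨w, w0, w1, hw⟩ := ex_w h1 hv hv1
  obtain ⟨k0, k3, _⟩ := hk
  obtain ⟨v1, v2, v3, v4⟩ := vals x k1 l w
  have hx15 : 0 < x + 15 / 100 := by linarith only [h0, h1]
  have hx15' : 0 < ZL.x.val [x, k1, l, w] + 15 / 100 := by rw [v1]; exact hx15
  obtain ⟨e, he, hp⟩ := NumL.chkF4 r_hB (by norm_num) (x := x) (y := k1) (z := l) (w := w)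
    (by norm_num; linarith only [h0]) (by norm_num; linarith only [h1]) (by norm_num; linarith only [h1, ha])
    (by norm_num; linarith only [k3]) (by norm_num; linarith only [l0]) (by norm_num; linarith only [l1])
    (by norm_num; linarith only [w0]) (by norm_num; linarith only [w1])
  simp only [hB, List.mem_cons, List.not_mem_nil, or_false] at he
  rcases he with rfl | rfl | rfl
  · rw [hE_val _ _ _ _ _ _ hx15'] at hp
    simp only [NumL.E.val, NumL.E.mx_val, kE_val, vE_val, v1, v2, v3, v4, ← hl, ← hw] at hp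
    push_cast at hp
    rw [div_one] at hp
    exact pos_of_mul_pos_right hp hx15.le
  · simp only [NumL.E.val, kE_val, vE_val, v1, v2, v3, v4, ← hl, ← hw] at hp
    linarith only [ht, hp]
  · simp only [NumL.E.val, v1, v2] at hp
    push_cast at hp
    linarith only [ha, hp]

theorem row_C {x v k1 k2 : ℝ} (h0 : 1 / 2 ≤ x) (h1 : x < 6 / 10) (hk : dom3 k1 k2)
    (ha : 1 ≤ x + k1) (hv : 0 ≤ v) (hv1 : v ≤ 8 / 15 * (60 / 100 - x)) (ht : v + k2 ≤ 0) :
    0 < hR x v k1 k2 0 := by
  obtain ⟨l, l0, l1, hl⟩ := ex_l hk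
  obtain ⟨w, w0, w1, hw⟩ := ex_w h1 hv hv1
  obtain ⟨k0, k3, _⟩ := hk
  obtain ⟨v1, v2, v3, v4⟩ := vals x k1 l w
  have hx15 : 0 < x + 15 / 100 := by linarith only [h0, h1]
  have hx15' : 0 < ZL.x.val [x, k1, l, w] + 15 / 100 := by rw [v1]; exact hx15
  obtain ⟨e, he, hp⟩ := NumL.chkF4 r_hC (by norm_num) (x := x) (y := k1) (z := l) (w := w)
    (by norm_num; linarith only [h0]) (by norm_num; linarith only [h1]) (by norm_num; linarith only [h1, ha])
    (by norm_num; linarith only [k3]) (by norm_num; linarith only [l0]) (by norm_num; linarith only [l1])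
    (by norm_num; linarith only [w0]) (by norm_num; linarith only [w1])
  simp only [hC, List.mem_cons, List.not_mem_nil, or_false] at he
  rcases he with rfl | rfl | rfl
  · rw [hE_val _ _ _ _ _ _ hx15'] at hp
    simp only [NumL.E.val, kE_val, vE_val, v1, v2, v3, v4, ← hl, ← hw] at hp
    push_cast at hp
    rw [zero_div] at hp
    exact pos_of_mul_pos_right hp hx15.le
  · simp only [NumL.E.val, kE_val, vE_val, v1, v2, v3, v4, ← hl, ← hw] at hp
    linarith only [ht, hp]
  · simp only [NumL.E.val, v1, v2] at hp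
    push_cast at hp
    linarith only [ha, hp]

theorem HH_nonneg {x y k1 k2 : ℝ} (h0 : 1 / 2 ≤ x) (h1 : x < 6 / 10) (hk : dom3 k1 k2)
    (hy : 0 ≤ y) (hy1 : y ≤ 8 / 15 * (60 / 100 - x)) : 0 ≤ HH x k1 k2 y := by
  have hx0 : 0 < x := by linarith only [h0, h1]
  have hx1 : x < 1 := by linarith only [h0, h1]
  have k0 := hk.1
  have k3 := hk.2.1
  rw [← HH_zero x k1 k2]
  rcases lt_or_ge (x + k1) 1 with ha | ha
  · refine HH_step hx0 hx1 hy fun v hv => ?_
    obtain ⟨s, hs, hs2⟩ := derA (a := x + k1) (c := k2) (v := v) (by linarith only [h0, k0, ha]) ha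
    exact ⟨s, hs, hR_mono hx0.le (by linarith only [h1]) hv.1.le hs2
      (row_A h0 h1 hk ha.le hv.1.le (hv.2.le.trans hy1))⟩
  have hB : ∀ p q, 0 ≤ p → p ≤ q → q ≤ y → 0 ≤ p + k2 → HH x k1 k2 p ≤ HH x k1 k2 q := by
    intro p q hp hpq hq hpk
    refine HH_step hx0 hx1 hpq fun v hv => ?_
    obtain ⟨s, hs, hs2⟩ := derB (a := x + k1) (c := k2) (v := v) ha (by linarith only [h0, h1, k3])
      (by linarith only [hpk, hv, hv.1])
    exact ⟨s, hs, hR_mono hx0.le (by linarith only [h1]) (by linarith only [hp, hv, hv.1]) hs2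
      (row_B h0 h1 hk ha (by linarith only [hp, hv, hv.1]) (by linarith only [hy1, hq, hv, hv.2]) (by linarith only [hpk, hv, hv.1]))⟩
  have hC : ∀ p q, 0 ≤ p → p ≤ q → q ≤ y → q + k2 ≤ 0 → HH x k1 k2 p ≤ HH x k1 k2 q := by
    intro p q hp hpq hq hpk
    refine HH_step hx0 hx1 hpq fun v hv => ?_
    obtain ⟨s, hs, hs2⟩ := derC (a := x + k1) (c := k2) (v := v) ha (by linarith only [h0, h1, k3])
      (by linarith only [hpk, hv, hv.2])
    exact ⟨s, hs, hR_mono hx0.le (by linarith only [h1]) (by linarith only [hp, hv, hv.1]) hs2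
      (row_C h0 h1 hk ha (by linarith only [hp, hv, hv.1]) (by linarith only [hy1, hq, hv, hv.2]) (by linarith only [hpk, hv, hv.2]))⟩
  rcases le_total 0 k2 with h2 | h2
  · exact hB 0 y le_rfl hy le_rfl (by linarith only [h2])
  rcases le_total (y + k2) 0 with h3 | h3
  · exact hC 0 y le_rfl hy le_rfl h3
  · exact (hC 0 (-k2) le_rfl (by linarith only [h2]) (by linarith only [h3]) (by linarith only [])).trans
      (hB (-k2) y (by linarith only [h2]) (by linarith only [h3]) le_rfl (by linarith only []))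

/-! ### the height of the saddle -/

theorem T_x {x t T k1 k2 : ℝ} (h0 : 1 / 2 ≤ x) (h1 : x < 6 / 10) (hk : dom3 k1 k2)
    (ht : 0 ≤ t) (T0 : -(7 / 10000) ≤ T) (T1 : T ≤ 0) :
    gD1 x 0 k1 k2 - 7 / 1600 * Real.pi * (x + k1 - 4 / 10) * (16 / 100 * t) ≤
      gD1 x (T * t) k1 k2 := by
  have hp := Real.pi_pos
  have k0 := hk.1
  have k3 := hk.2.1
  have hT : T * t ≤ 0 := mul_nonpos_of_nonpos_of_nonneg T1 ht
  have hT2 : -(T * t) ≤ 7 / 10000 * t := by
    have := mul_le_mul_of_nonneg_right (show -T ≤ 7 / 10000 by linarith only [T0]) ht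
    linarith only [this]
  have g1 := lip_of (a := x + k1) (s := 11 / 10 * Real.pi) (p := T * t + k2) (q := k2)
    (by positivity) (fun a b ha hab => by
      have := slH (a := x + k1) (by linarith only [h0, h1, k0]) (by linarith only [h1, k3]) ha hab
      have hm : 0 ≤ 11 / 10 * Real.pi * (b - a) := mul_nonneg (by positivity) (by linarith only [hab])
      constructor <;> linarith only [this]) (by linarith only [hT])
  have g2 := sl_small (a := x) (t := 0) (t' := |T * t|) h0 (by linarith only [h0, h1]) le_rfl (abs_nonneg _)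
  rw [uu_abs, abs_of_nonpos hT] at g2
  have g3 : Real.pi * (x + k1 - 4 / 10) * (-(T * t)) ≤
      Real.pi * (x + k1 - 4 / 10) * (7 / 10000 * t) :=
    mul_le_mul_of_nonneg_left hT2 (mul_nonneg hp.le (by linarith only [h0, h1, k0]))
  unfold gD1
  rw [zero_add]
  linarith only [g1, g2, g3]

theorem T_2 {T k1 k2 : ℝ} (hk : dom3 k1 k2) (T0 : -(7 / 10000) ≤ T) (T1 : T ≤ 0) :
    gD1 (2 / 10) 0 k1 k2 - Real.pi * (7 / 10000 * k1) ≤ gD1 (2 / 10) T k1 k2 := by
  have hp := Real.pi_pos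
  have k0 := hk.1
  have k3 := hk.2.1
  have g1 := lip_of (a := 2 / 10 + k1) (s := Real.pi) (p := T + k2) (q := k2)
    hp.le (fun a b ha hab => by
      have h1 := upp0 (a := 2 / 10 + k1) (by linarith only [k0]) (by linarith only [k3]) ha hab
      have h2 := low0 (a := 2 / 10 + k1) (by linarith only [k0]) (by linarith only [k3]) ha hab
      have hm : 0 ≤ Real.pi / 2 * (b - a) := mul_nonneg (by positivity) (by linarith only [hab])
      constructor <;> linarith only [h1, h2]) (by linarith only [T1])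
  have g2 := slope_le (a := 2 / 10) (t := 0) (t' := |T|) (by norm_num) (by norm_num) le_rfl
    (abs_nonneg _)
  rw [uu_abs] at g2
  have g3 : Real.pi * k1 * (-T) ≤ Real.pi * k1 * (7 / 10000) :=
    mul_le_mul_of_nonneg_left (by linarith only [T0]) (mul_nonneg hp.le (by linarith only [k0]))
  unfold gD1
  rw [zero_add]
  linarith only [g1, g2, g3]

theorem nD1_high {x t T k1 k2 : ℝ} (h0 : 1 / 2 ≤ x) (h1 : x < 6 / 10)
    (ht : t = 10 / 3 * (60 / 100 - x)) (T0 : -(7 / 10000) ≤ T) (T1 : T ≤ 0) (hk : dom3 k1 k2) :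
    0 ≤ nA1 x t T k1 k2 + 16 / 100 * t * (PN x * nB1 x t T k1 k2 + cN x) := by
  have ht0 : 0 < t := by rw [ht]; linarith only [h1]
  have h := HH_nonneg h0 h1 hk (y := 16 / 100 * t) (by positivity) (by rw [ht]; linarith only [])
  have g1 := T_x h0 h1 hk ht0.le T0 T1
  have g2 := T_2 hk T0 T1
  have hP := PN_pos (x := x) (by linarith only [h0]) h1.le
  have g3 := mul_le_mul_of_nonneg_left g2 (mul_nonneg (show 0 ≤ 16 / 100 * t by positivity) hP.le)
  unfold HH nV at h
  unfold nA1 nB1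
  linarith only [h, g1, g3]

end ZL

end ZD

end Pool.Agent.Work.MP_b30479_gt.G2
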