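import Pool.Agent.Work.MP_b30479_gt.G2.ZRnA

/-!
# Modes at rings, `RowsN`: slot `0` of the digit `3`, the corner `1 ≤ x + k1`
-/

namespace Pool.Agent.Work.MP_b30479_gt.G2

open NumU

namespace ZN

open ZD

/-- **The corner, lower side.** -/
theorem corner_neg {x v κ : ℝ} (x0 : 0 < x) (x1 : x ≤ 12 / 100) (v0 : 0 ≤ v) (v1 : v ≤ x)
    (k0 : 0 ≤ κ) (k1 : κ ≤ 32 / 10 * v) : 4 / 3 * x * ls 1 x ≤ G0 x (4 / 3 * x) v (-κ) := by
  have hpi := Real.pi_pos
  have h0 := corner x0 x1 v0 v1 le_rfl
  set Y := 4 / 3 * x with hYd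
  have hY : 0 < Y := by positivity
  have eκ : |(-κ)| = κ := by rw [abs_neg, abs_of_nonneg k0]
  have b1 := incr_one (c := x + 1 - v) (s := 0) (s' := -κ) (by linarith only [v1])
    (by rw [abs_zero]; exact abs_nonneg _)
  have c1 := incr_one (c := 6 / 5 - v) (s := 0) (s' := -κ) (by linarith only [x0, x1, v1])
    (by rw [abs_zero]; exact abs_nonneg _)
  rw [abs_zero, eκ] at b1 c1
  have key : N0 x Y v 0 ≤ N0 x Y v (-κ) ∧ M0 x Y v 0 ≤ M0 x Y v (-κ) := by
    rcases le_total κ (2 * Y) with hk | hk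
    · have hd : |Y + -κ| ≤ |Y| := by
        rw [abs_of_pos hY, abs_le]
        constructor <;> linarith only [hk, k0]
      have a1 := incr (c := x + 1 - v) (by linarith only [x0, x1, v1]) hd
      have a2 : 0 ≤ Real.pi * x * κ := by positivity
      have a3 : 0 ≤ Real.pi * κ := by positivity
      have a4 : 0 ≤ Real.pi / 2 * κ := by positivity
      unfold N0 M0
      rw [add_zero]
      constructor
      · linarith only [b1, a1, a3]
      · linarith only [c1, a1, a2, a3]
    · have e2 : |Y + -κ| = κ - Y := by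
        rw [abs_of_nonpos (by linarith only [x0, hYd, hk])]
        ring
      have a1 := incr (c := x + 1 - v) (s := Y + -κ) (s' := -κ) (by linarith only [x0, x1, v1])
        (by rw [e2, eκ]; linarith only [x0, hYd])
      have a2 := incr (c := x + 1 - v) (s := 0) (s' := Y) (by linarith only [x0, x1, v1])
        (by rw [abs_zero]; exact abs_nonneg _)
      have a3 := le_threehalf (c := x + 1 - v) (s := Y) (s' := Y + -κ) (by linarith only [x0, x1, k1, hYd, hk])
        (by rw [e2, abs_of_pos hY]; linarith only [hk])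
      rw [e2, abs_of_pos hY] at a3
      have a4 : 0 ≤ Real.pi * x * κ := by positivity
      have a5 : 0 ≤ Real.pi * (2 * Y - 7 / 10 * κ) := by
        have : 0 ≤ 2 * Y - 7 / 10 * κ := by linarith only [x0, v1, k1, hYd]
        positivity
      unfold N0 M0
      rw [add_zero]
      constructor
      · linarith only [a1, a2]
      · linarith only [c1, a3, a4, a5]
  have hP := PN_nonneg x0.le (by linarith only [x0, x1] : x ≤ 6 / 10)
  have h1 := mul_le_mul_of_nonneg_left key.2 hP
  have h2 : Y * (PN x * M0 x Y v 0 + cN x) ≤ Y * (PN x * M0 x Y v (-κ) + cN x) :=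
    mul_le_mul_of_nonneg_left (by linarith only [h1]) hY.le
  unfold G0 at h0 ⊢
  linarith only [h0, key, h2, key.1]

/-- **The corner.** -/
theorem nD1_corner {x T k1 k2 : ℝ} (x0 : 0 < x) (x1 : x ≤ 12 / 100) (hv : 1 ≤ x + k1)
    (hk : dom3 k1 k2) (T0 : -(7 / 10000) ≤ T) (T1 : T ≤ 0) :
    0 ≤ nA1 x (x / (12 / 100)) T k1 k2 +
      16 / 100 * (x / (12 / 100)) * (PN x * nB1 x (x / (12 / 100)) T k1 k2 + cN x) := by
  obtain ⟨d0, d1, d2, d3, d4⟩ := hk
  have eY : 16 / 100 * (x / (12 / 100)) = 4 / 3 * x := by ring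
  have h := nD1_of (x := x) (t := x / (12 / 100)) (T := T) (v := 1 - k1) (k := k2) x0.le
    (by linarith only [x0, x1]) (by positivity) ((div_le_one (by norm_num)).2 x1) T0 T1 (by linarith only [d1])
    (by linarith only [x0, x1, hv]) d2 ?_
  · rwa [sub_sub_cancel] at h
  · rw [if_pos (by linarith only [x0, x1] : x ≤ 1 / 2), eY]
    rcases le_total 0 k2 with h2 | h2
    · exact corner x0 x1 (by linarith only [d1]) (by linarith only [hv]) h2
    · have h3 := corner_neg (v := 1 - k1) (κ := -k2) x0 x1 (by linarith only [d1]) (by linarith only [hv])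
        (by linarith only [h2]) (by rwa [abs_of_nonpos h2] at d4)
      rwa [neg_neg] at h3

end ZN

end Pool.Agent.Work.MP_b30479_gt.G2
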