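import Pool.Agent.Work.MP_b30479_gt.G2.ZNue
import Pool.Agent.Work.MP_b30479_gt.G2.ZNv
import Pool.Agent.Work.MP_b30479_gt.G2.ZNw
import Pool.Agent.Work.MP_b30479_gt.G2.ZNz
import Pool.Agent.Work.MP_b30479_gt.G2.ZRnD1
import Pool.Agent.Work.MP_b30479_gt.G2.ZNub

/-!
# `RowsN.nd1`, `RowsN.nD1`
-/

namespace Pool.Agent.Work.MP_b30479_gt.G2

open NumU (uu)

namespace ZD

namespace ZL

/-! ### the trapezoid -/

theorem tN_low {x : ℝ} (h0 : 0 < x) (h1 : x ≤ 12 / 100) : tN (12 / 100) x = 100 / 12 * x := by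
  unfold tN
  have e : x / (12 / 100) = 100 / 12 * x := by ring
  rw [e, min_eq_left (a := 100 / 12 * x) (by rw [le_div_iff₀ (by norm_num)]; linarith only [h0, h1]),
    min_eq_right (by linarith only [h1])]

theorem tN_mid {x : ℝ} (h0 : 12 / 100 ≤ x) (h1 : x ≤ 3 / 10) : tN (12 / 100) x = 1 := by
  unfold tN
  refine min_eq_left (le_min ?_ ?_)
  · rw [le_div_iff₀ (by norm_num)]; linarith only [h0]
  · rw [le_div_iff₀ (by norm_num)]; linarith only [h1]

theorem tN_high {x : ℝ} (h0 : 3 / 10 ≤ x) (h1 : x ≤ 6 / 10) :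
    tN (12 / 100) x = 10 / 3 * (60 / 100 - x) := by
  unfold tN
  have e : (60 / 100 - x) / (30 / 100) = 10 / 3 * (60 / 100 - x) := by ring
  rw [e, min_eq_right (a := x / (12 / 100)) (by rw [le_div_iff₀ (by norm_num)]; linarith only [h0]),
    min_eq_right (by linarith only [h0])]

theorem nD1_mid {x t T k1 k2 : ℝ} (hN : NT (12 / 100) x t T) (x2 : 12 / 100 ≤ x)
    (hk : dom3 k1 k2) :
    0 ≤ nA1 x t T k1 k2 + 16 / 100 * t * (PN x * nB1 x t T k1 k2 + cN x) := by
  obtain ⟨x0, x1, ht, T0, T1⟩ := hN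
  obtain ⟨l, l0, l1, hl⟩ := ex_l hk
  have hk' := hk
  obtain ⟨k0, k3, _⟩ := hk
  obtain ⟨v1, v2, v3, v4⟩ := vals x k1 l T
  have hx15 : 0 < x + 15 / 100 := by linarith only [x0, x1]
  have hx15' : 0 < ZL.x.val [x, k1, l, T] + 15 / 100 := by rw [v1]; exact hx15
  rcases le_total x (3 / 10) with hx3 | hx3
  · rw [tN_mid x2 hx3] at ht
    obtain ⟨e, he, hp⟩ := NumL.chkF4 r_l3 (by norm_num) (x := x) (y := k1) (z := l) (w := T)
      (by norm_num; linarith only [x2]) (by norm_num; linarith only [hx3]) (by norm_num; linarith only [k0])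
      (by norm_num; linarith only [k3]) (by norm_num; linarith only [l0]) (by norm_num; linarith only [l1])
      (by norm_num; linarith only [T0]) (by norm_num; linarith only [T1])
    simp only [ZL.e3, List.mem_singleton] at he
    rw [he, nD1E_val _ _ _ _ _ _ hx15', kE_val, v1, v2, v3, v4, ← hl] at hp
    have e1 : (NumL.E.q 1 1).val [x, k1, l, T] = t := by
      rw [ht]; simp only [NumL.E.val]; norm_num
    rw [e1] at hp
    exact (pos_of_mul_pos_right hp hx15.le).le
  rw [tN_high hx3 (by linarith only [x1])] at ht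
  rcases le_total x (1 / 2) with hx4 | hx4
  · obtain ⟨e, he, hp⟩ := NumL.chkF4 r_l4 (by norm_num) (x := x) (y := k1) (z := l) (w := T)
      (by norm_num; linarith only [hx3]) (by norm_num; linarith only [hx4]) (by norm_num; linarith only [k0])
      (by norm_num; linarith only [k3]) (by norm_num; linarith only [l0]) (by norm_num; linarith only [l1])
      (by norm_num; linarith only [T0]) (by norm_num; linarith only [T1])
    simp only [ZL.e4, List.mem_singleton] at he
    rw [he, nD1E_val _ _ _ _ _ _ hx15', kE_val, tR_val, v1, v2, v3, v4, ← hl, ← ht] at hp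
    exact (pos_of_mul_pos_right hp hx15.le).le
  · exact nD1_high hx4 (by linarith only [x1]) ht T0 T1 hk'

end ZL

open ZL in
theorem nd1 : ∀ x t T k1 k2 : ℝ, NT (12 / 100) x t T → dom3 k1 k2 →
    0 ≤ nB1 x t T k1 k2 + dN x := by
  intro x t T k1 k2 hN hk
  obtain ⟨x0, x1, ht, T0, T1⟩ := hN
  obtain ⟨l, l0, l1, hl⟩ := ex_l hk
  obtain ⟨k0, k3, _⟩ := hk
  obtain ⟨v1, v2, v3, v4⟩ := vals x k1 l T
  rcases le_total x (12 / 100) with hx | hx
  · rw [tN_low x0 hx] at ht
    obtain ⟨e, he, hp⟩ := NumL.chkF4 r_k1 (by norm_num) (x := x) (y := k1) (z := l) (w := T)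
      (by norm_num; linarith only [x0]) (by norm_num; linarith only [hx]) (by norm_num; linarith only [k0])
      (by norm_num; linarith only [k3]) (by norm_num; linarith only [l0]) (by norm_num; linarith only [l1])
      (by norm_num; linarith only [T0]) (by norm_num; linarith only [T1])
    simp only [ZL.d1, List.mem_singleton] at he
    rw [he, nd1E_val, kE_val, tL_val, v1, v2, v3, v4, ← hl, ← ht] at hp
    exact hp.le
  rcases le_total x (3 / 10) with hx3 | hx3
  · rw [tN_mid hx hx3] at ht
    obtain ⟨e, he, hp⟩ := NumL.chkF4 r_k2 (by norm_num) (x := x) (y := k1) (z := l) (w := T)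
      (by norm_num; linarith only [hx]) (by norm_num; linarith only [hx3]) (by norm_num; linarith only [k0])
      (by norm_num; linarith only [k3]) (by norm_num; linarith only [l0]) (by norm_num; linarith only [l1])
      (by norm_num; linarith only [T0]) (by norm_num; linarith only [T1])
    simp only [ZL.d2, List.mem_singleton] at he
    rw [he, nd1E_val, kE_val, v1, v2, v3, v4, ← hl] at hp
    have e1 : (NumL.E.q 1 1).val [x, k1, l, T] = t := by
      rw [ht]; simp only [NumL.E.val]; norm_num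
    rw [e1] at hp
    exact hp.le
  · rw [tN_high hx3 (by linarith only [x1])] at ht
    obtain ⟨e, he, hp⟩ := NumL.chkF4 r_k3 (by norm_num) (x := x) (y := k1) (z := l) (w := T)
      (by norm_num; linarith only [hx3]) (by norm_num; linarith only [x1]) (by norm_num; linarith only [k0])
      (by norm_num; linarith only [k3]) (by norm_num; linarith only [l0]) (by norm_num; linarith only [l1])
      (by norm_num; linarith only [T0]) (by norm_num; linarith only [T1])
    simp only [ZL.d3, List.mem_singleton] at he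
    rw [he, nd1E_val, kE_val, tR_val, v1, v2, v3, v4, ← hl, ← ht] at hp
    exact hp.le

open ZL in
theorem nD1 : ∀ x t T k1 k2 : ℝ, NT (12 / 100) x t T → dom3 k1 k2 →
    0 ≤ nA1 x t T k1 k2 + 16 / 100 * t * (PN x * nB1 x t T k1 k2 + cN x) := by
  intro x t T k1 k2 hN hk
  rcases le_total (12 / 100) x with hx | hx
  · exact nD1_mid hN hx hk
  have ht := hN.t
  rw [ZL.tN_low hN.x0 hx] at ht
  rcases le_total (x + k1) 1 with ha | ha
  · exact nD1_left hN.x0 hx ht hN.T0 hN.T1 hk ha
  · have h := ZN.nD1_corner hN.x0 hx ha hk hN.T0 hN.T1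
    rw [show x / (12 / 100) = t by rw [ht]; ring] at h
    exact h

end ZD

end Pool.Agent.Work.MP_b30479_gt.G2
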