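import Pool.Agent.Work.MP_b30479_gt.G2.ZRc0
import Pool.Agent.Work.MP_b30479_gt.G2.MDc

/-!
# Modes at rings: the target of a digit `1`, other hinge on a lower path of any height

`c1x`, `c2r` of `ZD.RowsX`.
-/

set_option linter.unusedVariables false
set_option linter.unusedSimpArgs false

namespace Pool.Agent.Work.MP_b30479_gt.G2

open VOL NumU
open NumU.E
open NumI (V)

namespace ZD

/-! ### the difference to the linear part -/

theorem Lr_le_chord {r x : ℝ} (hr : 0 < r) (h0 : 0 ≤ x) (h1 : x ≤ 1 / 2) :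
    DT.Lr r x ≤ Real.pi * r * x := by
  rcases h0.lt_or_eq with h | h
  swap
  · rw [← h, DT.Lr_zero_right, mul_zero]
  rcases h1.lt_or_eq with h' | h'
  swap
  · rw [h', DT.Lr_half hr.le]
    linarith only []
  have hc : Continuous (DT.Lr r) := by
    unfold DT.Lr
    exact intervalIntegral.continuous_primitive (fun a b => DT.el_intble r a b) 0
  have hd : ∀ a b : ℝ, ∀ s ∈ Set.Ioo a b, HasDerivAt (DT.Lr r) (DT.el r s) s :=
    fun a b s _ => DT.hasDerivAt_Lr hr
  obtain ⟨c, hc1, hc2⟩ := exists_hasDerivAt_eq_slope (DT.Lr r) (DT.el r) h hc.continuousOn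
    (hd 0 x)
  obtain ⟨c', hc1', hc2'⟩ := exists_hasDerivAt_eq_slope (DT.Lr r) (DT.el r) h' hc.continuousOn
    (hd x (1 / 2))
  have h2 : DT.el r c ≤ DT.el r c' := by
    have hp := Real.pi_pos
    unfold DT.el
    have h3 := DT.LrDer.cosh_gt_cos (v := c) hr
    have h4 : Real.cos (2 * Real.pi * c') ≤ Real.cos (2 * Real.pi * c) := by
      apply Real.cos_le_cos_of_nonneg_of_le_pi
      · have := hc1.1
        positivity
      · nlinarith only [h, h', hp, hc1', hc1'.2]
      · nlinarith only [h, h', hp, hc1, hc1', hc1.2, hc1'.1]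
    have h5 := Real.log_le_log (show 0 < 2 * Real.cosh (2 * Real.pi * r) -
      2 * Real.cos (2 * Real.pi * c) by linarith only [h3]) (show 2 * Real.cosh (2 * Real.pi * r) -
      2 * Real.cos (2 * Real.pi * c) ≤ 2 * Real.cosh (2 * Real.pi * r) -
      2 * Real.cos (2 * Real.pi * c') by linarith only [h4])
    linarith only [h5]
  rw [hc2, hc2', DT.Lr_zero_right, DT.Lr_half hr.le, div_le_div_iff₀ (by linarith only [h])
    (by linarith only [h'])] at h2
  nlinarith only [h2]

/-- right of `1/2` the difference to the linear part is not negative -/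
theorem uu_lin_nonneg {x y : ℝ} (hy : y ≠ 0) (h0 : 1 / 2 ≤ x) (h1 : x ≤ 1) :
    Real.pi / 2 * |y| * (2 * x - 1) ≤ uu x y := by
  have h := abs_pos.2 hy
  rw [uu_Lr]
  have h2 := Lr_le_chord (x := 1 - x) h (by linarith only [h1]) (by linarith only [h0])
  rw [DT.Lr_one_sub h.le] at h2
  linarith only [h2]

/-- left of `1/2` the difference to the linear part increases with the height -/
theorem uu_lin_mono {x y y' : ℝ} (h0 : 0 ≤ x) (h1 : x ≤ 1 / 2) (h : |y| ≤ |y'|) :
    uu x y - Real.pi / 2 * (|y'| - |y|) * (1 - 2 * x) ≤ uu x y' := by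
  have h2 := inc_ge_lin h0 h1 le_rfl (abs_nonneg y) h
  rw [uu_Lr, uu_Lr]
  linarith only [h2]

/-- right of `1/2` the difference to the linear part decreases with the height -/
theorem uu_lin_anti {x y y' : ℝ} (h0 : 1 / 2 ≤ x) (h1 : x ≤ 1) (h : |y| ≤ |y'|) :
    uu x y' ≤ uu x y + Real.pi / 2 * (|y'| - |y|) * (2 * x - 1) := by
  have h2 := uu_lin_mono (x := 1 - x) (y := y) (y' := y') (by linarith only [h1]) (by linarith only [h0]) h
  rw [uu_one_sub, uu_one_sub] at h2
  linarith only [h2]

/-! ### rows -/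

theorem rx_x {T k1 k2 U : ℝ}
    (a0 : 380 / 10000 ≤ T) (b0 : T ≤ 1360 / 10000)
    (a1 : 0 ≤ k1) (b1 : k1 ≤ 2500 / 10000)
    (a2 : -(1600 / 10000) ≤ k2) (b2 : k2 ≤ 0)
    (hU : uu (1 / 5 + k1) (T + k2) ≤ U) :
    109 / 1000 + 1 / 5 * k1 < E1 T k1 k2 U := by
  have h : chkT [(.sub (.add (.add (.mul .pi (.add (.mul (.var 0) (.sub (.var 1) (.q 1 1))) (.mul (.var 2)
      (.sub (.var 1) (.q 3 10))))) (.uu (.add (.q 1 5) (.var 1)) (.add (.var 0) (.var 2)))) (.sub
      (.add (.uu (.q 17 40) (.var 0)) (.uu (.q 39 40) (.var 0))) (.mul (.q 3 1) (.uu (.q 1 5)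
      (.var 0))))) (.add (.q 109 1000) (.mul (.q 1 5) (.var 1))))] 40
      36649965569
      [V.of 10000 380 1360 0, V.of 10000 0 2500 0, V.of 10000 (-1600) 0 0] = true := by
    decide +kernel
  obtain ⟨e, he, hp⟩ := chkT3 h (by norm_num) (x := T) (y := k1) (z := k2)
    (le_trans (by norm_num) a0) (le_trans b0 (by norm_num))
    (le_trans (by norm_num) a1) (le_trans b1 (by norm_num))
    (le_trans (by norm_num) a2) (le_trans b2 (by norm_num))
  simp only [List.mem_cons, List.not_mem_nil, or_false] at he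
  subst he
  simp only [E.val, NumI.lkR] at hp
  push_cast at hp
  try simp only [div_one] at hp
  unfold E1 GG
  linarith only [hU, hp]

theorem rx_g {T : ℝ} (a0 : 380 / 10000 ≤ T) (b0 : T ≤ 1360 / 10000) :
    42 / 100 < GG T - Real.pi * (7 / 10 * T) := by
  have h : chkT [(.sub (.sub (.sub (.add (.uu (.q 17 40) (.var 0)) (.uu (.q 39 40) (.var 0)))
      (.mul (.q 3 1) (.uu (.q 1 5) (.var 0)))) (.mul .pi (.mul (.q 7 10) (.var 0))))
      (.q 21 50))] 40 559104 [V.of 10000 380 1360 0] = true := by
    decide +kernel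
  obtain ⟨e, he, hp⟩ := chkT_sound h (xs := [T]) (List.Forall₂.cons (V.of_mem (by norm_num)
    (le_trans (by norm_num) a0) (le_trans b0 (by norm_num))) List.Forall₂.nil)
  simp only [List.mem_cons, List.not_mem_nil, or_false] at he
  subst he
  simp only [E.val, NumI.lkR] at hp
  push_cast at hp
  try simp only [div_one] at hp
  unfold GG
  linarith only [hp]

theorem rx_r {k : ℝ} (a0 : 5000 / 10000 ≤ k) (b0 : k ≤ 6500 / 10000) :
    uu k (16 / 100) + Real.pi * (8 / 100 * (1 - 2 * k)) < 7 / 100 := by
  have h : chkT [(.sub (.q 7 100) (.add (.uu (.var 0) (.q 4 25)) (.mul .pi (.mul (.q 2 25)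
      (.sub (.q 1 1) (.mul (.q 2 1) (.var 0)))))))] 40 8 [V.of 10000 5000 6500 0] = true := by
    decide +kernel
  obtain ⟨e, he, hp⟩ := chkT_sound h (xs := [k]) (List.Forall₂.cons (V.of_mem (by norm_num)
    (le_trans (by norm_num) a0) (le_trans b0 (by norm_num))) List.Forall₂.nil)
  simp only [List.mem_cons, List.not_mem_nil, or_false] at he
  subst he
  simp only [E.val, NumI.lkR] at hp
  push_cast at hp
  try simp only [div_one] at hp
  rw [show (16 : ℝ) / 100 = 4 / 25 by norm_num]
  linarith only [hp]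

/-! ### the statements -/

theorem c1x {T k1 k2 : ℝ} (hT : 38 / 1000 ≤ T) (hT' : T ≤ 136 / 1000) (h0 : 0 ≤ k1)
    (h1 : k1 ≤ 65 / 100) (h2 : k2 ≤ 0) : Goal1 (1 / 10) (2 / 10) T k1 k2 := by
  have hp := Real.pi_pos
  have g := rx_g (T := T) (by linarith only [hT]) (by linarith only [hT'])
  rcases le_or_gt (-(16 / 100)) k2 with hk | hk
  · rcases le_or_gt (1 / 4) k1 with c | c
    · exact goal1_hi (by norm_num) (by linarith only [hT]) (by linarith only [hT']) c (by linarith only [h1])
        (abs_le.2 ⟨by linarith only [hk], by linarith only [h2]⟩)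
    · have hm : mA1 k1 k2 = 4 / 1000 + 1 / 5 * k1 := by
        unfold mA1
        rw [if_pos c, max_eq_right h2, mul_zero, add_zero]
      refine ⟨?_, fun hh => absurd hh (by linarith only [c, hh])⟩
      have e := val_E1 (1 / 10) T k1 k2
      have g := rx_x (T := T) (k1 := k1) (k2 := k2) (by linarith only [hT]) (by linarith only [hT']) (by linarith only [h0])
        (by linarith only [c]) (by linarith only [hk]) (by linarith only [h2]) le_rfl
      rw [hm]
      linarith only [e, g]
  -- `k2 < -16/100`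
  have hy0 : T + k2 ≠ 0 := (show T + k2 < 0 by linarith only [hT', hk]).ne
  have ha : |T + k2| = -(T + k2) := abs_of_nonpos (by linarith only [hT', hk])
  have ha' : |T + -(16 / 100)| = -(T + -(16 / 100)) := abs_of_nonpos (by linarith only [hT'])
  have hab : |T + -(16 / 100)| ≤ |T + k2| := by
    rw [ha, ha']
    linarith only [hk]
  constructor
  · have e := val_E1 (1 / 10) T k1 k2
    rcases le_or_gt k1 (3 / 10) with c | c
    · have m := uu_lin_mono (x := 1 / 5 + k1) (by linarith only [h0]) (by linarith only [c]) hab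
      rw [ha, ha'] at m
      have m' : E1 T k1 (-(16 / 100)) (uu (1 / 5 + k1) (T + -(16 / 100))) ≤
          E1 T k1 k2 (uu (1 / 5 + k1) (T + k2)) := by
        unfold E1
        linarith only [m]
      rcases le_or_gt (1 / 4) k1 with c' | c'
      · have hm : mA1 k1 k2 = 18 / 100 := if_neg (by linarith only [c'])
        have hm' : mA1 k1 (-(16 / 100)) = 18 / 100 := if_neg (by linarith only [c'])
        have g := (goal1_hi (θ := 1 / 10) (T := T) (k1 := k1) (k2 := -(16 / 100)) (by norm_num)
          (by linarith only [hT]) (by linarith only [hT']) c' (by linarith only [h1]) (by rw [abs_neg, abs_of_pos (by norm_num)])).1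
        have e' := val_E1 (1 / 10) T k1 (-(16 / 100))
        rw [hm'] at g
        rw [hm]
        linarith only [e, m', g, e']
      · have hm : mA1 k1 k2 = 4 / 1000 + 1 / 5 * k1 := by
          unfold mA1
          rw [if_pos c', max_eq_right h2, mul_zero, add_zero]
        have g := rx_x (T := T) (k1 := k1) (k2 := -(16 / 100)) (by linarith only [hT]) (by linarith only [hT'])
          (by linarith only [h0]) (by linarith only [c']) (by linarith only []) (by linarith only []) le_rfl
        rw [hm]
        linarith only [e, m', g]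
    · have hm : mA1 k1 k2 = 18 / 100 := if_neg (by linarith only [c])
      have m := uu_lin_nonneg (x := 1 / 5 + k1) (y := T + k2) hy0 (by linarith only [c])
        (by linarith only [h1])
      rw [ha] at m
      have m' : GG T - Real.pi * (7 / 10 * T) ≤ E1 T k1 k2 (uu (1 / 5 + k1) (T + k2)) := by
        unfold E1
        linarith only [m]
      rw [hm]
      linarith only [g, e, m']
  · intro hh
    have e := val_E2 (1 / 10) T k1 k2
    have m := uu_lin_nonneg (x := 1 / 5 + k1) (y := T + k2) hy0 (by linarith only [hh])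
      (by linarith only [h1])
    rw [ha] at m
    have hk2 : |k2| = -k2 := abs_of_nonpos h2
    have m2 := uu_lin_anti (x := k1) (y := 16 / 100) (y' := k2) hh (by linarith only [h1]) (by
      rw [hk2, abs_of_pos (by norm_num)]
      linarith only [hk])
    rw [hk2, abs_of_pos (by norm_num : (0 : ℝ) < 16 / 100)] at m2
    have m3 := rx_r (k := k1) (by linarith only [hh]) (by linarith only [h1])
    have m' : GG T - Real.pi * (7 / 10 * T) - (uu k1 (16 / 100) +
        Real.pi * (8 / 100 * (1 - 2 * k1))) ≤ E2 T k1 k2 (uu (1 / 5 + k1) (T + k2)) := by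
      unfold E2
      linarith only [m, m2]
    linarith only [g, e, m3, m']

theorem c2r {T k1 : ℝ} (hT : 63 / 1000 ≤ T) (hT' : T ≤ 145 / 1000) (h0 : 0 ≤ k1)
    (h1 : k1 ≤ 80 / 100) : Goal1 (1 / 10) (2 / 10) T k1 0 := by
  rcases le_or_gt (1 / 4) k1 with c | c
  · exact goal1_hi (by norm_num) (by linarith only [hT]) (by linarith only [hT']) c (by linarith only [h1])
      (by rw [abs_zero]; norm_num)
  · exact goal1_neg le_rfl (by linarith only [hT]) (by linarith only [hT']) h0 c (by norm_num) le_rfl (by linarith only [h0])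

end ZD

end Pool.Agent.Work.MP_b30479_gt.G2
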