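import Pool.Agent.Work.MP_b30479_gt.G2.ZRbC

/-!
# Modes at rings, side of `D`: the rows `b1` and `b1d`
-/

namespace Pool.Agent.Work.MP_b30479_gt.G2

open VOL NumU

namespace ZD

namespace RB

theorem low1 {x k1 k2 Z : ℝ} (x0 : 64996 / 100000 ≤ x) (x1 : x ≤ 65 / 100) (hk : 1 / 4 ≤ k1)
    (hd : dom1 k1 k2) (h0 : 0 < Z) (h1 : Z < k2) : Cond 1 (x + k1) k2 x (18 / 100) Z := by
  obtain ⟨d1, d2, d3, d4⟩ := hd
  have k16 : k2 ≤ 16 / 100 := by
    rcases d4 with ⟨_, d5⟩ | ⟨_, d5, _⟩ <;> linarith only [h0, h1, d5]
  rcases le_total k1 (3495 / 10000) with h2 | h2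
  · refine cond_lt (by linarith only [x0, hk, h0, h1, k16]) (by linarith only [x1, h0, h1, k16, h2]) (by linarith only [x0, h0, h1, k16]) (by linarith only [x1, h0, h1, k16]) ?_
    exact c1lo (Y := Z) (T := k2 - Z) (K := k1) (X := x) (by linarith only [h0]) (by linarith only [h1, k16]) (by linarith only [h1])
      (by linarith only [h0, k16]) (by linarith only [hk, h0, h1, k16]) (by linarith only [h2]) (by linarith only [x0]) (by linarith only [x1]) (by linarith only [k16])
  · rcases le_total k1 (351 / 1000) with h3 | h3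
    · refine near (by linarith only [x0, h0, h1, k16, h2]) (by linarith only [x1, h3]) (by linarith only [x0, h0, h1, k16]) (by linarith only [x1, h0, h1, k16]) h0 h1 ?_
      exact c1nr (Y := Z) (T := k2 - Z) (X := x) (by linarith only [h0]) (by linarith only [h1, k16]) (by linarith only [h1])
        (by linarith only [h0, k16]) (by linarith only [x0]) (by linarith only [x1]) (by linarith only [k16])
    · refine cond_gt (by linarith only [x0, h0, h1, k16, h3]) (by linarith only [x1, h0, h1, d2, k16]) (by linarith only [x0, h0, h1, k16]) (by linarith only [x1, h0, h1, k16]) h1 ?_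
      rcases le_total k1 (7125 / 10000) with h4 | h4
      · exact c1hi (Y := Z) (T := k2 - Z) (K := k1) (X := x) (by linarith only [h0]) (by linarith only [h1, k16])
          (by linarith only [h1]) (by linarith only [h0, k16]) (by linarith only [h3]) (by linarith only [h4]) (by linarith only [x0]) (by linarith only [x1])
          (by linarith only [k16]) (by rcases d4 with ⟨_, d5⟩ | ⟨_, _, d5⟩ <;> linarith only [h4, d5])
      · have k118 : k2 ≤ 118 / 1000 := by
          rcases d4 with ⟨_, d5⟩ | ⟨_, _, d5⟩ <;> linarith only [d5, h4]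
        exact c1hj (Y := Z) (T := k2 - Z) (K := k1) (X := x) (by linarith only [h0]) (by linarith only [h1, k118])
          (by linarith only [h1]) (by linarith only [h0, k118]) (by linarith only [h4]) (by linarith only [d2]) (by linarith only [x0]) (by linarith only [x1])
          (by linarith only [k118])

theorem row1 {x Y k1 k2 : ℝ} (x0 : 64996 / 100000 ≤ x) (x1 : x ≤ 65 / 100) (hY : 0 < Y)
    (hY' : Y ≤ 1 / 4) (hd : dom1 k1 k2) : Row 1 (x + k1) k2 x (mA1 k1 k2) Y := by
  obtain ⟨d1, d2, d3, d4⟩ := id hd
  rcases lt_or_ge k1 (1 / 4) with hk | hk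
  · have d5 : k2 ≤ 79 / 100 * k1 ∧ k2 ≤ 118 / 1000 := by
      rcases d4 with d5 | ⟨d5, _⟩
      · exact d5
      · exact absurd hk (not_lt.mpr d5)
    rcases le_total k2 0 with h2 | h2
    · have hm : mA1 k1 k2 = 4 / 1000 + 1 / 5 * k1 := by
        unfold mA1
        rw [if_pos hk, max_eq_right h2]
        ring
      rw [hm]
      refine row_of hY.le fun Z z0 z1 _ => cond_lt (by linarith only [x0, hY', d1, z0, z1]) (by linarith only [x1, hY', hk, z0, z1]) (by linarith only [x0, hY', z0, z1])
        (by linarith only [x1, hY', z0, z1]) ?_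
      have h3 := c1n (Y := Z) (K := k1) (M := -k2) (X := x) (by linarith only [z0]) (by linarith only [hY', z1])
        (by linarith only [d1]) (by linarith only [hk]) (by linarith only [h2]) (by linarith only [d3]) (by linarith only [x0]) (by linarith only [x1])
      rwa [neg_neg] at h3
    · have hm : mA1 k1 k2 = 4 / 1000 + 1 / 5 * k1 + 65 / 100 * k2 := by
        unfold mA1
        rw [if_pos hk, max_eq_left h2]
      rw [hm]
      refine row_of hY.le fun Z z0 z1 _ => cond_lt (by linarith only [x0, hY', d1, z0, z1]) (by linarith only [x1, hY', hk, z0, z1]) (by linarith only [x0, hY', z0, z1])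
        (by linarith only [x1, hY', z0, z1]) ?_
      exact c1p (Y := Z) (K := k1) (M := k2) (X := x) (by linarith only [z0]) (by linarith only [hY', z1])
        (by linarith only [d1]) (by linarith only [hk]) (by linarith only [h2]) (by linarith only [d5]) (by linarith only [x0]) (by linarith only [x1]) d5.1
  · have hm : mA1 k1 k2 = 18 / 100 := by
      unfold mA1
      rw [if_neg (not_lt.mpr hk)]
    rw [hm]
    rcases le_total Y k2 with h2 | h2
    · exact row_of hY.le fun Z z0 z1 _ => low1 x0 x1 hk hd z0 (by linarith only [h2, z1])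
    · have crude : ∀ a', 1 / 2 ≤ a' → a' ≤ 1 → (x + k1 = a' ∨ x + k1 = a' + 1) →
          Row 1 (x + k1) k2 x (18 / 100) Y := by
        intro a' a0 a1 ha
        refine row_of hY.le fun Z z0 z1 z2 => ?_
        rcases lt_or_gt_of_ne z2 with z2 | z2
        · exact low1 x0 x1 hk hd z0 z2
        · exact crudeF a0 a1 ha (by linarith only [x0, hY', z0, z1]) (by linarith only [x1, hY', z0, z1]) z0 z2
            (rh_le a0 a1 (by linarith only [z2])) (μ := 183 / 10000) (by norm_num)
            (c1F (Y := Z) (X := x) (by linarith only [z0]) (by linarith only [hY', z1]) (by linarith only [x0]) (by linarith only [x1]))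
      rcases le_total (x + k1) 1 with h3 | h3
      · exact crude (x + k1) (by linarith only [x0, hY, hY', hk]) h3 (Or.inl rfl)
      · rcases le_total (x + k1) (3 / 2) with h4 | h4
        · exact crudeH (κ := 65 / 100) (μ := 18 / 100) (by norm_num) h3 h4 (by linarith only [x0, hY, hY']) hY h2
            (by linarith only [x1, h3]) le_rfl
            (c1H (Y := Y) (X := x) (by linarith only [hY]) (by linarith only [hY']) (by linarith only [x0]) (by linarith only [x1]))
        · exact crude (x + k1 - 1) (by linarith only [h4]) (by linarith only [x1, hY, hY', d2]) (Or.inr (by ring))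

end RB

open RB

theorem b1 : ∀ x Y k1 k2 : ℝ, 64996 / 100000 ≤ x → x ≤ 65 / 100 → 0 < Y → Y ≤ 1 / 4 →
    dom1 k1 k2 → dA1 x Y k1 k2 - dA1 x 0 k1 k2 + Y / 1000 +
      PY Y * (dA1 x Y k1 k2 - cA1 k1 k2 - mA1 k1 k2) ≤ 0 := by
  intro x Y k1 k2 x0 x1 hY hY' hd
  have h := row1 x0 x1 hY hY' hd
  unfold Row at h
  rw [dA1_FF, dA1_FF]
  have e : PY Y * (RB.FF 1 (x + k1) k2 x Y + cA1 k1 k2 - cA1 k1 k2 - mA1 k1 k2) =
      PY Y * (RB.FF 1 (x + k1) k2 x Y - mA1 k1 k2) := by ring
  rw [e]
  linarith only [h]

theorem b1d : ∀ x Y k1 k2 : ℝ, 64996 / 100000 ≤ x → x ≤ 65 / 100 → 1 / 4 ≤ Y → Y ≤ 1 →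
    dom1 k1 k2 → dA1 x Y k1 k2 ≤ cA1 k1 k2 + mA1 k1 k2 + 4 / 1000 := by
  intro x Y k1 k2 x0 x1 hY hY' hd
  obtain ⟨d1, d2, d3, d4⟩ := hd
  have k16 : k2 ≤ 16 / 100 := by
    rcases d4 with ⟨_, d5⟩ | ⟨_, d5, _⟩ <;> linarith only [d5]
  rw [dA1_FF, FF_ge (by linarith only [hY, k16])]
  have hx := rh_nonneg (a := x) (y := Y) (by linarith only [x0]) (by linarith only [x1]) (by linarith only [hY])
  rcases lt_or_ge k1 (1 / 4) with hk | hk
  · have d5 : k2 ≤ 79 / 100 * k1 ∧ k2 ≤ 118 / 1000 := by
      rcases d4 with d5 | ⟨d5, _⟩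
      · exact d5
      · exact absurd hk (not_lt.mpr d5)
    have hm : mA1 k1 k2 = 4 / 1000 + 1 / 5 * k1 + 65 / 100 * max k2 0 := by
      unfold mA1
      rw [if_pos hk]
    rw [hm]
    have h1 := rh_anti (a := x + k1) (y := Y - max k2 0) (y' := Y - k2) (by linarith only [x0, d1])
      (by linarith only [x1, d2, hk]) (by
        have : max k2 0 ≤ 118 / 1000 := max_le d5.2 (by norm_num)
        linarith only [hY, this]) (by linarith only [le_max_left k2 0])
    have h2 := rh_vert (a := x + k1) (y0 := 132 / 1000) (y := Y - max k2 0) (y' := Y)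
      (σ := 65 / 100) (by linarith only [x0, d1]) (by linarith only [x1, hk]) (by norm_num) (by
        have : max k2 0 ≤ 118 / 1000 := max_le d5.2 (by norm_num)
        linarith only [hY, this]) (by linarith only [le_max_right k2 0])
      (c1dB (X := x + k1) (by linarith only [x0, d1]) (by linarith only [x1, hk]))
    have h3 := rh_slope (x := x) (a := x + k1) (Y := Y) (κ := 3 / 20) (by linarith only [x0]) (by linarith only [d1])
      (by linarith only [x1, hk]) (fun v v0 v1 => c1dA (Y := Y) (X := v) (by linarith only [hY]) (by linarith only [hY'])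
        (by linarith only [x0, v0]) (by linarith only [x1, hk, v1]))
    linarith only [d1, h1, h2, h3]
  · have hm : mA1 k1 k2 = 18 / 100 := by
      unfold mA1
      rw [if_neg (not_lt.mpr hk)]
    rw [hm]
    have h1 : rh (x + k1) (Y - k2) ≤ 1617 / 10000 := by
      rcases le_total (x + k1) 1 with h3 | h3
      · exact rh_le (by linarith only [x0, hk]) h3 (by linarith only [hY, k16])
      · rcases le_total (x + k1) (3 / 2) with h4 | h4
        · linarith only [h3, h4, hY, k16, rh_nonpos (y := Y - k2) h3 h4 (by linarith only [hY, k16])]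
        · have h5 := rh_add_one (a := x + k1 - 1) (y := Y - k2) (by linarith only [hY, k16])
          rw [sub_add_cancel] at h5
          rw [h5]
          exact rh_le (by linarith only [h4]) (by linarith only [x1, d2]) (by linarith only [hY, k16])
    linarith only [hx, h1]

end ZD

end Pool.Agent.Work.MP_b30479_gt.G2
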