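import Pool.Agent.Work.MP_b30479_gt.G2.ZRbD

/-!
# Modes at rings, side of `D`: the rows `b2` and `b2d`
-/

namespace Pool.Agent.Work.MP_b30479_gt.G2

open VOL NumU

namespace ZD

namespace RB

theorem low2 {x k1 k2 Z : ℝ} (x0 : 59996 / 100000 ≤ x) (x1 : x ≤ 60 / 100) (hk : 23 / 70 ≤ k1)
    (hk' : k1 ≤ 80 / 100) (k16 : k2 ≤ 16 / 100) (h0 : 0 < Z) (hZ : Z ≤ 13 / 100) (h1 : Z < k2) :
    Cond 2 (x + k1) k2 x (1 / 4) Z := by
  rcases le_total k1 (3995 / 10000) with h2 | h2
  · refine cond_lt (by linarith only [x0, hk]) (by linarith only [x1, h2]) (by linarith only [x0]) (by linarith only [x1]) ?_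
    exact c2lo (Y := Z) (T := k2 - Z) (K := k1) (X := x) (by linarith only [h0]) (by linarith only [hZ]) (by linarith only [h1])
      (by linarith only [k16, h0]) (by linarith only [hk]) (by linarith only [h2]) (by linarith only [x0]) (by linarith only [x1]) (by linarith only [k16])
  · rcases le_total k1 (401 / 1000) with h3 | h3
    · refine near (by linarith only [x0, h2]) (by linarith only [x1, h3]) (by linarith only [x0]) (by linarith only [x1]) h0 h1 ?_
      exact c2nr (Y := Z) (T := k2 - Z) (X := x) (by linarith only [h0]) (by linarith only [hZ]) (by linarith only [h1])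
        (by linarith only [k16, h0]) (by linarith only [x0]) (by linarith only [x1]) (by linarith only [k16])
    · refine cond_gt (by linarith only [x0, k16, h0, h1, h3]) (by linarith only [x1, hk', k16, h0, h1]) (by linarith only [x0, k16, h0, h1]) (by linarith only [x1, k16, h0, h1]) h1 ?_
      exact c2hi (Y := Z) (T := k2 - Z) (K := k1) (X := x) (by linarith only [h0]) (by linarith only [hZ])
        (by linarith only [h1]) (by linarith only [k16, h0]) (by linarith only [h3]) (by linarith only [hk']) (by linarith only [x0]) (by linarith only [x1])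
        (by linarith only [k16])

theorem rh_40 {a y : ℝ} (h0 : 59996 / 100000 ≤ a) (h1 : a ≤ 929 / 1000) (hy : 4 / 10 ≤ y) :
    rh a y ≤ 135 / 10000 := by
  have h2 := rh_anti (a := a) (y := 4 / 10) (y' := y) (by linarith only [h0]) (by linarith only [h1]) (by norm_num) hy
  have h3 := c2d40 (X := a) (by linarith only [h0]) (by linarith only [h1])
  rw [uu_neg] at h3
  exact h2.trans h3

theorem rh_34 {a y : ℝ} (h0 : 59996 / 100000 ≤ a) (h1 : a ≤ 929 / 1000) (hy : 34 / 100 ≤ y) :
    rh a y ≤ 2 / 100 := by
  have h2 := rh_anti (a := a) (y := 34 / 100) (y' := y) (by linarith only [h0]) (by linarith only [h1]) (by norm_num)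
    hy
  have h3 := c2d34 (X := a) (by linarith only [h0]) (by linarith only [h1])
  rw [uu_neg] at h3
  exact h2.trans h3

theorem row2 {x Y k1 k2 : ℝ} (x0 : 59996 / 100000 ≤ x) (x1 : x ≤ 60 / 100) (hY : 0 < Y)
    (hY' : Y ≤ 13 / 100) (hd : dom2 k1 k2) : Row 2 (x + k1) k2 x (mA2 k1) Y := by
  obtain ⟨d1, d2, d3, d4⟩ := hd
  have crude : ∀ Z m R a', 0 < Z → Z ≤ 13 / 100 → k2 < Z → 1 / 2 ≤ a' → a' ≤ 1 →
      (x + k1 = a' ∨ x + k1 = a' + 1) → rh a' (Z - k2) ≤ R → 65 / 10000 ≤ m - R →
      Cond 2 (x + k1) k2 x m Z := by
    intro Z m R a' z0 z1 z2 a0 a1 ha hR hm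
    exact crudeF a0 a1 ha (by linarith only [x0, hY, hY']) (by linarith only [x1, hY, hY']) z0 z2 hR hm
      (c2F (Y := Z) (X := x) (by linarith only [z0]) (by linarith only [z1]) (by linarith only [x0]) (by linarith only [x1]))
  rcases le_total k1 (23 / 70) with hk | hk
  · have hm : mA2 k1 = 2 / 100 + 7 / 10 * k1 := by
      unfold mA2
      exact min_eq_left (by linarith only [hk])
    rw [hm]
    refine row_of hY.le fun Z z0 z1 z2 => ?_
    rcases le_total 0 k2 with h2 | h2
    · refine cond_lt (by linarith only [x0, hY', d1, z0, z1]) (by linarith only [x1, hY', hk, z0, z1]) (by linarith only [x0, hY', z0, z1]) (by linarith only [x1, hY', z0, z1]) ?_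
      exact c2p (Y := Z) (K := k1) (M := k2) (X := x) (by linarith only [z0]) (by linarith only [hY', z1])
        (by linarith only [d1]) (by linarith only [hY', hk, z0, z1]) (by linarith only [h2]) (by linarith only [d3]) (by linarith only [x0]) (by linarith only [x1])
        (by linarith only [d4])
    · rcases le_total (-(4 / 10)) k2 with h3 | h3
      · refine cond_lt (by linarith only [x0, hY', d1, z0, z1]) (by linarith only [x1, hY', hk, z0, z1]) (by linarith only [x0, hY', z0, z1]) (by linarith only [x1, hY', z0, z1]) ?_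
        have h4 := c2n (Y := Z) (K := k1) (M := -k2) (X := x) (by linarith only [z0]) (by linarith only [hY', z1])
          (by linarith only [d1]) (by linarith only [hY', hk, z0, z1]) (by linarith only [h2]) (by linarith only [h3]) (by linarith only [x0]) (by linarith only [x1])
        rwa [neg_neg] at h4
      · exact crude Z _ (135 / 10000) (x + k1) z0 (by linarith only [hY', z1]) (by linarith only [hY', z0, z1, h3]) (by linarith only [x0, hY', d1, z0, z1])
          (by linarith only [x1, hY', hk, z0, z1]) (Or.inl rfl) (rh_40 (by linarith only [x0, d1]) (by linarith only [x1, hY', hk, z0, z1]) (by linarith only [z0, h3]))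
          (by linarith only [d1])
  · have hm : mA2 k1 = 1 / 4 := by
      unfold mA2
      exact min_eq_right (by linarith only [hk])
    rw [hm]
    rcases le_total Y k2 with h2 | h2
    · exact row_of hY.le fun Z z0 z1 _ => low2 x0 x1 hk d2 d3 z0 (by linarith only [hY', z1]) (by linarith only [h2, z1])
    · rcases le_total (x + k1) 1 with h3 | h3
      · refine row_of hY.le fun Z z0 z1 z2 => ?_
        rcases lt_or_gt_of_ne z2 with z2 | z2
        · exact low2 x0 x1 hk d2 d3 z0 (by linarith only [hY', z1]) z2
        · exact crude Z _ (1617 / 10000) (x + k1) z0 (by linarith only [hY', z1]) z2 (by linarith only [x0, hY', hk, z0, z1]) h3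
            (Or.inl rfl) (rh_le (by linarith only [x0, hY', hk, z0, z1]) h3 (by linarith only [z2])) (by norm_num)
      · exact crudeH (κ := 7 / 10) (μ := 1 / 4) (by norm_num) h3 (by linarith only [x1, hY, hY', d2]) (by linarith only [x0, hY, hY']) hY h2
          (by linarith only [x1, h3]) le_rfl
          (c2H (Y := Y) (X := x) (by linarith only [hY]) (by linarith only [hY']) (by linarith only [x0]) (by linarith only [x1]))

end RB

open RB

theorem b2 : ∀ x Y k1 k2 : ℝ, 59996 / 100000 ≤ x → x ≤ 60 / 100 → 0 < Y → Y ≤ 13 / 100 →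
    dom2 k1 k2 → dA2 x Y k1 k2 - dA2 x 0 k1 k2 + Y / 1000 +
      PY Y * (dA2 x Y k1 k2 - cA2 k1 k2 - mA2 k1) ≤ 0 := by
  intro x Y k1 k2 x0 x1 hY hY' hd
  have h := row2 x0 x1 hY hY' hd
  unfold Row at h
  rw [dA2_FF, dA2_FF]
  have e : PY Y * (RB.FF 2 (x + k1) k2 x Y + cA2 k1 k2 - cA2 k1 k2 - mA2 k1) =
      PY Y * (RB.FF 2 (x + k1) k2 x Y - mA2 k1) := by ring
  rw [e]
  linarith only [h]

theorem b2d : ∀ x Y k1 k2 : ℝ, 59996 / 100000 ≤ x → x ≤ 60 / 100 → 13 / 100 ≤ Y → Y ≤ 1 →
    dom2 k1 k2 → dA2 x Y k1 k2 ≤ cA2 k1 k2 + mA2 k1 := by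
  intro x Y k1 k2 x0 x1 hY hY' hd
  obtain ⟨d1, d2, d3, d4⟩ := hd
  have hpi := Real.pi_pos
  have hp := pi15
  rw [dA2_FF]
  have hx := rh_nonneg (a := x) (y := Y) (by linarith only [x0]) (by linarith only [x1]) (by linarith only [hY])
  rcases le_total k1 (23 / 70) with hk | hk
  · have hm : mA2 k1 = 2 / 100 + 7 / 10 * k1 := by
      unfold mA2
      exact min_eq_left (by linarith only [hk])
    rw [hm]
    rcases le_total k2 0 with h2 | h2
    · rw [FF_ge (by linarith only [hY, h2])]
      have h3 := rh_anti (a := x + k1) (y := Y) (y' := Y - k2) (by linarith only [x0, d1]) (by linarith only [x1, d2, hk])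
        (by linarith only [hY]) (by linarith only [h2])
      have h4 := rh_slope (x := x) (a := x + k1) (Y := Y) (κ := 7 / 10) (by linarith only [x0])
        (by linarith only [d1]) (by linarith only [x1, hk]) (fun v v0 v1 => c2dA (Y := Y) (X := v) (by linarith only [hY])
          (by linarith only [hY']) (by linarith only [x0, v0]) (by linarith only [x1, hk, v1]))
      linarith only [hx, h3, h4]
    · rcases le_total Y (1 / 2) with h3 | h3
      · have h4 := c2dp (Y := Y) (K := k1) (M := k2) (X := x) (by linarith only [hY]) (by linarith only [h3])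
          (by linarith only [d1]) (by linarith only [hk]) (by linarith only [h2]) (by linarith only [d3]) (by linarith only [x0]) (by linarith only [x1])
          (by linarith only [d4])
        unfold RB.FF rh
        linarith only [h4]
      · rw [FF_ge (by linarith only [d3, h3])]
        have h4 := rh_34 (a := x + k1) (y := Y - k2) (by linarith only [x0, d1]) (by linarith only [x1, hk]) (by linarith only [d3, h3])
        linarith only [d1, hx, h4]
  · have hm : mA2 k1 = 1 / 4 := by
      unfold mA2
      exact min_eq_right (by linarith only [hk])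
    rw [hm]
    rcases le_total k2 Y with h2 | h2
    · rw [FF_ge h2]
      rcases le_total (x + k1) 1 with h3 | h3
      · linarith only [hx, x0, hk, h3, h2, rh_le (a := x + k1) (y := Y - k2) (by linarith only [x0, hk]) h3 (by linarith only [h2])]
      · linarith only [hx, h3, x1, d2, h2, rh_nonpos (a := x + k1) (y := Y - k2) h3 (by linarith only [x1, d2]) (by linarith only [h2])]
    · rw [FF_lt]
      have h5 : 2 * Real.pi * (x + k1 - 1 / 2) * (k2 - Y) ≤
          2 * Real.pi * (x + k1 - 1 / 2) * (3 / 100) := by
        apply mul_le_mul_of_nonneg_left (by linarith only [hY, d3])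
        apply mul_nonneg (by linarith only [hpi]) (by linarith only [x0, hk])
      rcases le_total (x + k1) 1 with h3 | h3
      · have h4 := rh_le_90 (a := x + k1) (y := k2 - Y) (by linarith only [x0, hk]) h3 (by linarith only [h2])
        nlinarith only [hp, hx, h5, h3, h4, x0, d1]
      · have h4 := rh_nonpos (a := x + k1) (y := k2 - Y) h3 (by linarith only [x1, d2]) (by linarith only [h2])
        nlinarith only [x1, d2, hp, hx, h5, h4, x0, d1]

end ZD

end Pool.Agent.Work.MP_b30479_gt.G2
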