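import Pool.Agent.Work.MP_b30479_gt.G2.ZRbE

/-!
# Modes at rings, side of `D`: the rows `b3` and `b3d`
-/

namespace Pool.Agent.Work.MP_b30479_gt.G2

open VOL NumU

namespace ZD

namespace RB

theorem low3 {x k1 k2 Z : ℝ} (x0 : 59996 / 100000 ≤ x) (x1 : x ≤ 60 / 100) (hk : 3 / 10 ≤ k1)
    (hk' : k1 ≤ 7 / 10) (k16 : k2 ≤ 16 / 100) (h0 : 0 < Z) (hZ : Z ≤ 13 / 100) (h1 : Z < k2) :
    Cond 1 (x + k1) k2 x (1 / 5) Z := by
  rcases le_total k1 (3995 / 10000) with h2 | h2
  · refine cond_lt (by linarith only [x0, hk]) (by linarith only [x1, h2]) (by linarith only [x0]) (by linarith only [x1]) ?_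
    exact c3lo (Y := Z) (T := k2 - Z) (K := k1) (X := x) (by linarith only [h0]) (by linarith only [hZ]) (by linarith only [h1])
      (by linarith only [k16, h0]) (by linarith only [hk]) (by linarith only [h2]) (by linarith only [x0]) (by linarith only [x1]) (by linarith only [k16])
  · rcases le_total k1 (401 / 1000) with h3 | h3
    · refine near (by linarith only [x0, h2]) (by linarith only [x1, h3]) (by linarith only [x0]) (by linarith only [x1]) h0 h1 ?_
      exact c3nr (Y := Z) (T := k2 - Z) (X := x) (by linarith only [h0]) (by linarith only [hZ]) (by linarith only [h1])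
        (by linarith only [k16, h0]) (by linarith only [x0]) (by linarith only [x1]) (by linarith only [k16])
    · refine cond_gt (by linarith only [x0, k16, h0, h1, h3]) (by linarith only [x1, hk', k16, h0, h1]) (by linarith only [x0, k16, h0, h1]) (by linarith only [x1, k16, h0, h1]) h1 ?_
      exact c3hi (Y := Z) (T := k2 - Z) (K := k1) (X := x) (by linarith only [h0]) (by linarith only [hZ])
        (by linarith only [h1]) (by linarith only [k16, h0]) (by linarith only [h3]) (by linarith only [hk']) (by linarith only [x0]) (by linarith only [x1])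
        (by linarith only [k16])

theorem low3' {x k1 k2 Z : ℝ} (x0 : 59996 / 100000 ≤ x) (x1 : x ≤ 60 / 100) (hk : 7 / 10 ≤ k1)
    (hk' : k1 ≤ 1) (k16 : k2 ≤ 16 / 100) (k17 : k2 ≤ 16 / 5 * (1 - k1)) (h0 : 0 < Z)
    (hZ : Z ≤ 13 / 100) (h1 : Z < k2) :
    Cond 1 (x + k1) k2 x (1 / 10 + 19 / 10 * k2) Z := by
  refine cond_gt (by linarith only [x0, hk]) (by linarith only [x1, hk']) (by linarith only [x0]) (by linarith only [x1]) h1 ?_
  have h := c3hj (Y := Z) (T := k2 - Z) (K := k1) (X := x) (by linarith only [h0]) (by linarith only [hZ])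
    (by linarith only [h1]) (by linarith only [k16, h0]) (by linarith only [hk]) (by linarith only [hk']) (by linarith only [x0]) (by linarith only [x1])
    (by linarith only [k16]) (by linarith only [k17])
  rwa [add_sub_cancel] at h

theorem rh3_34 {a y : ℝ} (h0 : 7999 / 10000 ≤ a) (h1 : a ≤ 9001 / 10000) (hy : 34 / 100 ≤ y) :
    rh a y ≤ 2 / 100 := by
  have h2 := rh_anti (a := a) (y := 34 / 100) (y' := y) (by linarith only [h0]) (by linarith only [h1]) (by norm_num)
    hy
  have h3 := c3d34 (X := a) (by linarith only [h0]) (by linarith only [h1])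
  rw [uu_neg] at h3
  exact h2.trans h3

theorem m3a {k1 k2 : ℝ} (h : k1 ≤ 3 / 10) : mA3 k1 k2 = 5 / 100 + 85 / 100 * max k2 0 := by
  unfold mA3
  rw [if_pos h]

theorem m3b {k1 k2 : ℝ} (h : 3 / 10 < k1) (h' : k1 ≤ 7 / 10) : mA3 k1 k2 = 1 / 5 := by
  unfold mA3
  rw [if_neg (not_le.mpr h), if_pos h']

theorem m3c {k1 k2 : ℝ} (h : 7 / 10 < k1) : mA3 k1 k2 = 1 / 10 + 19 / 10 * max k2 0 := by
  unfold mA3
  rw [if_neg (by intro h2; linarith only [h, h2]), if_neg (not_le.mpr h)]

theorem row3 {x Y k1 k2 : ℝ} (x0 : 59996 / 100000 ≤ x) (x1 : x ≤ 60 / 100) (hY : 0 < Y)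
    (hY' : Y ≤ 13 / 100) (hd : dom3 k1 k2) : Row 1 (x + k1) k2 x (mA3 k1 k2) Y := by
  obtain ⟨d1, d2, d3, d4, d5⟩ := hd
  have f1 := (le_abs_self k2).trans d3
  have f2 := (le_abs_self k2).trans d4
  have f3 := (le_abs_self k2).trans d5
  have f4 := (neg_le_abs k2).trans d3
  have f5 := (neg_le_abs k2).trans d4
  have f6 := (neg_le_abs k2).trans d5
  have crude : ∀ Z m R a', 0 < Z → Z ≤ 13 / 100 → k2 < Z → 1 / 2 ≤ a' → a' ≤ 1 →
      (x + k1 = a' ∨ x + k1 = a' + 1) → rh a' (Z - k2) ≤ R → 31 / 1000 ≤ m - R →
      Cond 1 (x + k1) k2 x m Z := by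
    intro Z m R a' z0 z1 z2 a0 a1 ha hR hm
    exact crudeF a0 a1 ha (by linarith only [x0, hY, hY']) (by linarith only [x1, hY, hY']) z0 z2 hR hm
      (c3F (Y := Z) (X := x) (by linarith only [z0]) (by linarith only [z1]) (by linarith only [x0]) (by linarith only [x1]))
  rcases le_or_gt k1 (3 / 10) with hk | hk
  · rw [m3a hk]
    refine row_of hY.le fun Z z0 z1 z2 => ?_
    refine cond_lt (by linarith only [x0, hY', d1, z0, z1]) (by linarith only [x1, hY', hk, z0, z1]) (by linarith only [x0, hY', z0, z1]) (by linarith only [x1, hY', z0, z1]) ?_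
    rcases le_total 0 k2 with h2 | h2
    · rw [max_eq_left h2]
      have h4 := c3p (Y := Z) (K := k1) (M := k2) (X := x) (by linarith only [z0]) (by linarith only [hY', z1])
        (by linarith only [d1]) (by linarith only [hk]) (by linarith only [h2]) (by linarith only [f1]) (by linarith only [x0]) (by linarith only [x1])
        (by linarith only [f2])
      rw [show (5 : ℝ) / 100 + 85 / 100 * k2 = 1 / 20 + 17 / 20 * k2 by ring]
      exact h4
    · rw [max_eq_right h2]
      have h4 := c3n (Y := Z) (K := k1) (M := -k2) (X := x) (by linarith only [z0]) (by linarith only [hY', z1])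
        (by linarith only [d1]) (by linarith only [hk]) (by linarith only [h2]) (by linarith only [f4]) (by linarith only [x0]) (by linarith only [x1])
        (by linarith only [f5])
      rw [show (5 : ℝ) / 100 + 85 / 100 * 0 = 1 / 20 by norm_num]
      rwa [neg_neg] at h4
  · rcases le_or_gt k1 (7 / 10) with hk' | hk'
    · rw [m3b hk hk']
      rcases le_total Y k2 with h2 | h2
      · exact row_of hY.le fun Z z0 z1 _ => low3 x0 x1 hk.le hk' f1 z0 (by linarith only [hY', z1]) (by linarith only [h2, z1])
      · rcases le_total (x + k1) 1 with h3 | h3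
        · refine row_of hY.le fun Z z0 z1 z2 => ?_
          rcases lt_or_gt_of_ne z2 with z2 | z2
          · exact low3 x0 x1 hk.le hk' f1 z0 (by linarith only [hY', z1]) z2
          · exact crude Z _ (1617 / 10000) (x + k1) z0 (by linarith only [hY', z1]) z2 (by linarith only [x0, hY', hk, z0, z1]) h3
              (Or.inl rfl) (rh_le (by linarith only [x0, hY', hk, z0, z1]) h3 (by linarith only [z2])) (by norm_num)
        · exact crudeH (κ := 6 / 10) (μ := 1 / 5) (by norm_num) h3 (by linarith only [x1, hk']) (by linarith only [x0, hY, hY']) hY h2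
            (by linarith only [x1, h3]) le_rfl
            (c3H (Y := Y) (X := x) (by linarith only [hY]) (by linarith only [hY']) (by linarith only [x0]) (by linarith only [x1]))
    · rw [m3c hk']
      rcases le_total Y k2 with h2 | h2
      · rw [max_eq_left (by linarith only [hY, h2])]
        exact row_of hY.le fun Z z0 z1 _ => low3' x0 x1 hk'.le d2 f1 (by linarith only [f3]) z0 (by linarith only [hY', z1])
          (by linarith only [h2, z1])
      · have hm : (1 : ℝ) / 10 ≤ 1 / 10 + 19 / 10 * max k2 0 := by
          linarith only [le_max_right k2 0]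
        rcases le_total (x + k1) (3 / 2) with h3 | h3
        · exact crudeH (κ := 3 / 10) (μ := 1 / 10) (by norm_num) (by linarith only [x0, hY, hY', hk']) h3 (by linarith only [x0, hY, hY'])
            hY h2 (by linarith only [hk']) hm
            (c3H7 (Y := Y) (X := x) (by linarith only [hY]) (by linarith only [hY']) (by linarith only [x0]) (by linarith only [x1]))
        · refine row_of hY.le fun Z z0 z1 z2 => ?_
          rcases lt_or_gt_of_ne z2 with z2 | z2
          · rw [max_eq_left (by linarith only [z0, z2])]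
            exact low3' x0 x1 hk'.le d2 f1 (by linarith only [f3]) z0 (by linarith only [hY', z1]) z2
          · exact crude Z _ (69 / 1000) (x + k1 - 1) z0 (by linarith only [hY', z1]) z2 (by linarith only [h3])
              (by linarith only [x1, hY', d2, z0, z1]) (Or.inr (by ring)) (rh_le_mid (by linarith only [h3]) (by linarith only [x1, d2])
              (by linarith only [z2])) (by linarith only [hm])

end RB

open RB

theorem b3 : ∀ x Y k1 k2 : ℝ, 59996 / 100000 ≤ x → x ≤ 60 / 100 → 0 < Y → Y ≤ 13 / 100 →
    dom3 k1 k2 → dA1 x Y k1 k2 - dA1 x 0 k1 k2 + Y / 1000 +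
      PY Y * (dA1 x Y k1 k2 - cA1 k1 k2 - mA3 k1 k2) ≤ 0 := by
  intro x Y k1 k2 x0 x1 hY hY' hd
  have h := row3 x0 x1 hY hY' hd
  unfold Row at h
  rw [dA1_FF, dA1_FF]
  have e : PY Y * (RB.FF 1 (x + k1) k2 x Y + cA1 k1 k2 - cA1 k1 k2 - mA3 k1 k2) =
      PY Y * (RB.FF 1 (x + k1) k2 x Y - mA3 k1 k2) := by ring
  rw [e]
  linarith only [h]

theorem b3d : ∀ x Y k1 k2 : ℝ, 59996 / 100000 ≤ x → x ≤ 60 / 100 → 13 / 100 ≤ Y → Y ≤ 1 →
    dom3 k1 k2 → dA1 x Y k1 k2 ≤ cA1 k1 k2 + mA3 k1 k2 := by
  intro x Y k1 k2 x0 x1 hY hY' hd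
  obtain ⟨d1, d2, d3, d4, d5⟩ := hd
  have f1 := (le_abs_self k2).trans d3
  have f2 := (le_abs_self k2).trans d4
  have f3 := (le_abs_self k2).trans d5
  have f4 := (neg_le_abs k2).trans d3
  have hpi := Real.pi_pos
  have hp := pi15
  rw [dA1_FF]
  have hx := rh_nonneg (a := x) (y := Y) (by linarith only [x0]) (by linarith only [x1]) (by linarith only [hY])
  -- the part above `Y`
  have h5 : ∀ c, 0 ≤ 2 * (x + k1 - 1 / 2) → 2 * (x + k1 - 1 / 2) ≤ c → Y ≤ k2 →
      2 * Real.pi * (x + k1 - 1 / 2) * (k2 - Y) ≤ 945 / 10000 * c := by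
    intro c c0 c1 h
    have g1 : 2 * (x + k1 - 1 / 2) * (k2 - Y) ≤ c * (3 / 100) :=
      mul_le_mul c1 (by linarith only [hY, f1]) (by linarith only [h]) (by linarith only [x0, d1, c1])
    have g2 : 0 ≤ 2 * (x + k1 - 1 / 2) * (k2 - Y) := mul_nonneg c0 (by linarith only [h])
    nlinarith only [hp, x0, d1, hpi, g1, c1]
  rcases le_or_gt k1 (3 / 10) with hk | hk
  · rw [m3a hk]
    rcases le_total k2 0 with h2 | h2
    · rw [FF_ge (by linarith only [hY, h2]), max_eq_right h2]
      have h3 := rh_anti (a := x + k1) (y := Y) (y' := Y - k2) (by linarith only [x0, d1]) (by linarith only [x1, hk])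
        (by linarith only [hY]) (by linarith only [h2])
      rcases le_total Y (45 / 100) with h4 | h4
      · have h6 := c3dn (Y := Y) (K := k1) (X := x) (by linarith only [hY]) (by linarith only [h4]) (by linarith only [d1])
          (by linarith only [hk]) (by linarith only [x0]) (by linarith only [x1])
        rw [uu_neg] at h6
        have e1 : rh (x + k1) Y - 1 * rh x Y = Real.pi * (x + k1 - 1 / 2) * (-Y) +
            uu (x + k1) Y - (uu x Y - Real.pi * (x - 1 / 2) * Y) := by
          unfold rh
          ring
        linarith only [h3, h6, e1]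
      · have h6 := rh3_34 (a := x + k1) (y := Y) (by linarith only [x0, d1]) (by linarith only [x1, hk]) (by linarith only [h4])
        linarith only [hx, h3, h6]
    · rw [max_eq_left h2]
      rcases le_total Y (1 / 2) with h4 | h4
      · have h6 := c3dp (Y := Y) (K := k1) (M := k2) (X := x) (by linarith only [hY]) (by linarith only [h4])
          (by linarith only [d1]) (by linarith only [hk]) (by linarith only [h2]) (by linarith only [f1]) (by linarith only [x0]) (by linarith only [x1])
          (by linarith only [f2])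
        have e1 : RB.FF 1 (x + k1) k2 x Y = Real.pi * (x + k1 - 1 / 2) * (k2 - Y) +
            uu (x + k1) (k2 - Y) - (uu x Y - Real.pi * (x - 1 / 2) * Y) := by
          unfold RB.FF rh
          ring
        linarith only [h6, e1]
      · rw [FF_ge (by linarith only [f1, h4])]
        have h6 := rh3_34 (a := x + k1) (y := Y - k2) (by linarith only [x0, d1]) (by linarith only [x1, hk]) (by linarith only [f1, h4])
        linarith only [hx, h2, h6]
  · rcases le_or_gt k1 (7 / 10) with hk' | hk'
    · rw [m3b hk hk']
      rcases le_total k2 Y with h2 | h2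
      · rw [FF_ge h2]
        rcases le_total (x + k1) 1 with h3 | h3
        · linarith only [hx, x0, hk, h3, h2, rh_le (a := x + k1) (y := Y - k2) (by linarith only [x0, hk]) h3 (by linarith only [h2])]
        · linarith only [hx, h3, x1, hk', h2, rh_nonpos (a := x + k1) (y := Y - k2) h3 (by linarith only [x1, hk']) (by linarith only [h2])]
      · rcases le_total (x + k1) 1 with h3 | h3
        · rcases le_total k1 (3995 / 10000) with h4 | h4
          · have h6 := c3dlo (Y := Y) (T := k2 - Y) (K := k1) (X := x) (by linarith only [hY]) (by linarith only [f1, h2])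
              (by linarith only [h2]) (by linarith only [hY, f1]) (by linarith only [hk]) (by linarith only [h4]) (by linarith only [x0]) (by linarith only [x1])
            have e1 : RB.FF 1 (x + k1) k2 x Y = Real.pi * (x + k1 - 1 / 2) * (k2 - Y) +
                uu (x + k1) (k2 - Y) - (uu x Y - Real.pi * (x - 1 / 2) * Y) := by
              unfold RB.FF rh
              ring
            linarith only [h6, e1]
          · rw [FF_lt]
            have h6 := rh_le_999 (a := x + k1) (y := k2 - Y) (by linarith only [x0, hk, h4]) h3 (by linarith only [h2])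
            have h7 := h5 1 (by linarith only [x0, hk]) (by linarith only [h3]) h2
            linarith only [hx, h6, h7]
        · rw [FF_lt]
          have h6 := rh_nonpos (a := x + k1) (y := k2 - Y) h3 (by linarith only [x1, hk']) (by linarith only [h2])
          have h7 := h5 (16 / 10) (by linarith only [h3]) (by linarith only [x1, hk']) h2
          linarith only [hx, h6, h7]
    · rw [m3c hk']
      have hm := le_max_right k2 0
      have hm' := le_max_left k2 0
      have h6 : ∀ y, 0 ≤ y → rh (x + k1) y ≤ 69 / 1000 := by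
        intro y hy
        rcases le_total (x + k1) (3 / 2) with h3 | h3
        · linarith only [x0, hk', h3, hy, rh_nonpos (a := x + k1) (y := y) (by linarith only [x0, hk']) h3 hy]
        · have h5 := rh_add_one (a := x + k1 - 1) (y := y) hy
          rw [sub_add_cancel] at h5
          rw [h5]
          exact rh_le_mid (by linarith only [h3]) (by linarith only [x1, d2]) hy
      rcases le_total k2 Y with h2 | h2
      · rw [FF_ge h2]
        linarith only [hx, hm, h6, h2, h6 (Y - k2) (by linarith only [h2])]
      · rw [FF_lt]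
        have h7 := h5 (22 / 10) (by linarith only [x0, hk']) (by linarith only [x1, d2]) h2
        linarith only [hY, hx, hm', h2, h7, h6, h6 (k2 - Y) (by linarith only [h2])]

end ZD

end Pool.Agent.Work.MP_b30479_gt.G2
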