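import Pool.Agent.Work.MP_b30479_gt.G2.ZRows
import Pool.Agent.Work.MP_b30479_gt.G2.TE1T

/-!
# Modes at rings: the targets of a digit `1`, certificates

`goal1_hi`: `k1 ≥ 1/4`, all ramps at once; `goal1_neg`: `k1 ≤ 1/4`, `k2 ≤ 0`.
-/

set_option linter.unusedVariables false
set_option linter.unusedSimpArgs false

namespace Pool.Agent.Work.MP_b30479_gt.G2

open VOL NumU
open NumU.E
open NumI (V)

namespace ZD

/-- the terms in the height `T` alone -/
noncomputable def GG (T : ℝ) : ℝ := uu (17 / 40) T + uu (39 / 40) T - 3 * uu (1 / 5) T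

/-- limit as goal -/
noncomputable def E1 (T k1 k2 U : ℝ) : ℝ :=
  Real.pi * (T * (k1 - 1) + k2 * (k1 - 3 / 10)) + U + GG T

/-- old value as goal -/
noncomputable def E2 (T k1 k2 U : ℝ) : ℝ :=
  Real.pi * (T * (k1 - 1) + 1 / 5 * k2) + U + GG T - uu k1 k2

theorem gR_val (θ x t : ℝ) :
    gR θ x t = uu (x + 9 / 40) t + uu (x + 31 / 40) t - 2 * uu x t - θ := by
  unfold gR fR
  rw [UU_uu, UU_uu, UU_uu]
  simp only [Complex.add_re, Complex.add_im, Complex.sub_re, Complex.sub_im, Complex.one_re,
    Complex.one_im, Complex.div_ofNat_re, Complex.div_ofNat_im]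
  rw [show x + 1 / 2 + -(11 / 40) = x + 9 / 40 by ring,
    show x + 1 / 2 - -(11 / 40) = x + 31 / 40 by ring,
    show -t + 0 / 2 + 0 = -t by ring, show -t + 0 / 2 - 0 = -t by ring, uu_neg, uu_neg, uu_neg]

theorem val_E1 (θ T k1 k2 : ℝ) : gD1 (2 / 10) T k1 k2 + gR θ (2 / 10) T - cA1 k1 k2 =
    E1 T k1 k2 (uu (1 / 5 + k1) (T + k2)) - θ := by
  rw [gR_val]
  unfold gD1 cA1 E1 GG
  rw [show (2 : ℝ) / 10 = 1 / 5 by norm_num, show (1 : ℝ) / 5 + 9 / 40 = 17 / 40 by norm_num,
    show (1 : ℝ) / 5 + 31 / 40 = 39 / 40 by norm_num]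
  ring

theorem val_E2 (θ T k1 k2 : ℝ) : gD1 (2 / 10) T k1 k2 + gR θ (2 / 10) T - oD1 k1 k2 =
    E2 T k1 k2 (uu (1 / 5 + k1) (T + k2)) - θ := by
  rw [gR_val]
  unfold gD1 oD1 E2 GG
  rw [show (2 : ℝ) / 10 = 1 / 5 by norm_num, show (1 : ℝ) / 5 + 9 / 40 = 17 / 40 by norm_num,
    show (1 : ℝ) / 5 + 31 / 40 = 39 / 40 by norm_num]
  ring

/-! ### near `1` -/

theorem smallK2 : 2 * Real.cosh (Real.pi * (2 * (13 / 100))) -
    2 * Real.cos (Real.pi * (2 * (5 / 1000))) < 1 := by
  have h := TL.E1.smallK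
  have h2 : Real.cos (Real.pi * (2 * (5 / 100))) ≤ Real.cos (Real.pi * (2 * (5 / 1000))) := by
    have hp := Real.pi_pos
    apply Real.cos_le_cos_of_nonneg_of_le_pi <;> nlinarith only [hp]
  linarith only [h, h2]

/-- the value near `1`, small heights -/
theorem nearc1 {x y : ℝ} (h0 : 95 / 100 ≤ x) (h1 : x ≤ 1 + 5 / 1000) (hy : |y| ≤ 13 / 100) :
    uu (5 / 1000) y + Real.pi * y ≤ uu x y ∧ uu (5 / 1000) y - Real.pi * y ≤ uu x y :=
  TL.E1.U_d h0 h1 (by norm_num) hy

/-- `uu` increases with the height right of `1/2` -/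
theorem uu_vert {x y y' : ℝ} (h : 1 / 2 ≤ x) (hy : |y| ≤ |y'|) : uu x y ≤ uu x y' := by
  have a2 := Lr_diff_mono (a := x) (b := 1 / 2) (s := |y|) (s' := |y'|) h (abs_nonneg y) hy
  have a3 := uu_one_sub (1 / 2) y
  have a4 := uu_one_sub (1 / 2) y'
  have e : (1 : ℝ) - 1 / 2 = 1 / 2 := by norm_num
  rw [e] at a3 a4
  have b3 : uu (1 / 2) y = 0 := by linarith only [a3]
  have b4 : uu (1 / 2) y' = 0 := by linarith only [a4]
  rw [uu_Lr] at b3 b4 ⊢
  rw [uu_Lr]
  linarith only [a2, b3, b4]

/-- the value near `1`, large heights -/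
theorem nearc1' {x y : ℝ} (h0 : 95 / 100 ≤ x) (h1 : x ≤ 1 + 5 / 1000) (hy : 13 / 100 ≤ y) :
    NumU.uu (5 / 1000) (13 / 100) + Real.pi * (13 / 100) ≤ uu x y := by
  have a := (nearc1 h0 h1 (y := 13 / 100) (by rw [abs_of_nonneg] <;> norm_num)).1
  have b := uu_vert (x := x) (y := 13 / 100) (y' := y) (by linarith only [h0]) (by
    rw [abs_of_nonneg (by norm_num), abs_of_nonneg (by linarith only [hy])]
    exact hy)
  linarith only [a, b]

/-- right of `1` -/
theorem shift1 (k1 y : ℝ) : uu (k1 - 8 / 10) y + Real.pi * y ≤ uu (1 / 5 + k1) y ∧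
    uu (k1 - 8 / 10) y - Real.pi * y ≤ uu (1 / 5 + k1) y := by
  have e := uu_add_one (k1 - 8 / 10) y
  rw [show k1 - 8 / 10 + 1 = 1 / 5 + k1 by ring] at e
  have hp := Real.pi_pos
  have h2 := mul_le_mul_of_nonneg_left (le_abs_self y) hp.le
  have h3 := mul_le_mul_of_nonneg_left (neg_le_abs y) hp.le
  rw [e]
  constructor <;> linarith only [h2, h3]

/-! ### rows -/

/-- 87 boxes -/
theorem r_h1 {T k1 k2 U : ℝ}
    (a0 : 380 / 10000 ≤ T) (b0 : T ≤ 1580 / 10000)
    (a1 : 2500 / 10000 ≤ k1) (b1 : k1 ≤ 7950 / 10000)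
    (a2 : -(1600 / 10000) ≤ k2) (b2 : k2 ≤ 1600 / 10000)
    (hU : uu (1 / 5 + k1) (T + k2) ≤ U) :
    293 / 1000 < E1 T k1 k2 U := by
  have h : chkT [(.sub (.add (.add (.mul .pi (.add (.mul (.var 0) (.sub (.var 1) (.q 1 1))) (.mul (.var 2)
      (.sub (.var 1) (.q 3 10))))) (.uu (.add (.q 1 5) (.var 1)) (.add (.var 0) (.var 2)))) (.sub
      (.add (.uu (.q 17 40) (.var 0)) (.uu (.q 39 40) (.var 0))) (.mul (.q 3 1) (.uu (.q 1 5)
      (.var 0))))) (.q 293 1000))] 40
      10955990657600439580905329836169207297371480123636465607082130480646943958819215695919981415446724120595678959335517428526145689713843780921988506453752452703386330151131066340129504233406830438192484410990609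
      [V.of 10000 380 1580 0, V.of 10000 2500 7950 0, V.of 10000 (-1600) 1600 0] = true := by
    decide +kernel
  obtain ⟨e, he, hp⟩ := chkT3 h (by norm_num) (x := T) (y := k1) (z := k2)
    (le_trans (by norm_num) a0) (le_trans b0 (by norm_num))
    (le_trans (by norm_num) a1) (le_trans b1 (by norm_num))
    (le_trans (by norm_num) a2) (le_trans b2 (by norm_num))
  simp only [List.mem_cons, List.not_mem_nil, or_false] at he
  subst he
  simp only [E.val, NumI.lkR] at hp
  push_cast at hp
  try simp only [div_one] at hp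
  try unfold E1 GG
  try unfold E2 GG
  linarith only [hU, hp]

/-- 32 boxes -/
theorem r_h1a {T k1 k2 U : ℝ}
    (a0 : 380 / 10000 ≤ T) (b0 : T ≤ 1580 / 10000)
    (a1 : 7950 / 10000 ≤ k1) (b1 : k1 ≤ 8050 / 10000)
    (a2 : -(1600 / 10000) ≤ k2) (b2 : k2 ≤ 1600 / 10000)
    (hy : T + k2 ≤ 13 / 100)
    (hU : uu (5 / 1000) (T + k2) + Real.pi * (T + k2) ≤ U)
    (hV : uu (5 / 1000) (T + k2) - Real.pi * (T + k2) ≤ U) :
    293 / 1000 < E1 T k1 k2 U := by
  have h : chkT [(.sub (.add (.add (.mul .pi (.add (.mul (.var 0) (.sub (.var 1) (.q 1 1))) (.mul (.var 2)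
      (.sub (.var 1) (.q 3 10))))) (.add (.uu (.q 1 200) (.add (.var 0) (.var 2))) (.mul .pi (.add
      (.var 0) (.var 2))))) (.sub (.add (.uu (.q 17 40) (.var 0)) (.uu (.q 39 40) (.var 0))) (.mul
      (.q 3 1) (.uu (.q 1 5) (.var 0))))) (.q 293 1000)), (.sub (.add (.add (.mul .pi (.add (.mul
      (.var 0) (.sub (.var 1) (.q 1 1))) (.mul (.var 2) (.sub (.var 1) (.q 3 10))))) (.sub (.uu
      (.q 1 200) (.add (.var 0) (.var 2))) (.mul .pi (.add (.var 0) (.var 2))))) (.sub (.add (.uu
      (.q 17 40) (.var 0)) (.uu (.q 39 40) (.var 0))) (.mul (.q 3 1) (.uu (.q 1 5) (.var 0)))))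
      (.q 293 1000)), (.sub (.add (.var 0) (.var 2)) (.q 13 100))] 40
      3858811473018078816361300836972287118310838808210829812616107527540388667426
      [V.of 10000 380 1580 0, V.of 10000 7950 8050 0, V.of 10000 (-1600) 1600 0] = true := by
    decide +kernel
  obtain ⟨e, he, hp⟩ := chkT3 h (by norm_num) (x := T) (y := k1) (z := k2)
    (le_trans (by norm_num) a0) (le_trans b0 (by norm_num))
    (le_trans (by norm_num) a1) (le_trans b1 (by norm_num))
    (le_trans (by norm_num) a2) (le_trans b2 (by norm_num))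
  simp only [List.mem_cons, List.not_mem_nil, or_false] at he
  rcases he with rfl | rfl | rfl
  · simp only [E.val, NumI.lkR] at hp
    push_cast at hp
    try simp only [div_one] at hp
    try unfold E1 GG
    try unfold E2 GG
    linarith only [hU, hp]
  · simp only [E.val, NumI.lkR] at hp
    push_cast at hp
    try simp only [div_one] at hp
    try unfold E1 GG
    try unfold E2 GG
    linarith only [hV, hp]
  · simp only [E.val, NumI.lkR] at hp
    push_cast at hp
    try simp only [div_one] at hp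
    try unfold E1 GG
    try unfold E2 GG
    linarith only [hy, hp]

/-- 1 boxes -/
theorem r_h1b {T k1 k2 U : ℝ}
    (a0 : 380 / 10000 ≤ T) (b0 : T ≤ 1580 / 10000)
    (a1 : 7950 / 10000 ≤ k1) (b1 : k1 ≤ 8050 / 10000)
    (a2 : -(1600 / 10000) ≤ k2) (b2 : k2 ≤ 1600 / 10000)
    (hy : 13 / 100 ≤ T + k2) (hU : NumU.uu (5 / 1000) (13 / 100) + Real.pi * (13 / 100) ≤ U) :
    293 / 1000 < E1 T k1 k2 U := by
  have h : chkT [(.sub (.add (.add (.mul .pi (.add (.mul (.var 0) (.sub (.var 1) (.q 1 1))) (.mul (.var 2)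
      (.sub (.var 1) (.q 3 10))))) (.add (.uu (.q 1 200) (.q 13 100)) (.mul .pi (.q 13 100))))
      (.sub (.add (.uu (.q 17 40) (.var 0)) (.uu (.q 39 40) (.var 0))) (.mul (.q 3 1) (.uu (.q 1
      5) (.var 0))))) (.q 293 1000)), (.sub (.q 13 100) (.add (.var 0) (.var 2)))] 40
      8
      [V.of 10000 380 1580 0, V.of 10000 7950 8050 0, V.of 10000 (-1600) 1600 0] = true := by
    decide +kernel
  obtain ⟨e, he, hp⟩ := chkT3 h (by norm_num) (x := T) (y := k1) (z := k2)
    (le_trans (by norm_num) a0) (le_trans b0 (by norm_num))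
    (le_trans (by norm_num) a1) (le_trans b1 (by norm_num))
    (le_trans (by norm_num) a2) (le_trans b2 (by norm_num))
  simp only [List.mem_cons, List.not_mem_nil, or_false] at he
  rcases he with rfl | rfl
  · simp only [E.val, NumI.lkR] at hp
    push_cast at hp
    try simp only [div_one] at hp
    try unfold E1 GG
    try unfold E2 GG
    linarith only [hU, hp]
  · simp only [E.val, NumI.lkR] at hp
    push_cast at hp
    try simp only [div_one] at hp
    try unfold E1 GG
    try unfold E2 GG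
    linarith only [hy, hp]

/-- 141 boxes -/
theorem r_h1c {T k1 k2 U : ℝ}
    (a0 : 380 / 10000 ≤ T) (b0 : T ≤ 1580 / 10000)
    (a1 : 8050 / 10000 ≤ k1) (b1 : k1 ≤ 8600 / 10000)
    (a2 : -(1600 / 10000) ≤ k2) (b2 : k2 ≤ 1600 / 10000)
    (hU : uu (k1 - 8 / 10) (T + k2) + Real.pi * (T + k2) ≤ U)
    (hV : uu (k1 - 8 / 10) (T + k2) - Real.pi * (T + k2) ≤ U) :
    293 / 1000 < E1 T k1 k2 U := by
  have h : chkT [(.sub (.add (.add (.mul .pi (.add (.mul (.var 0) (.sub (.var 1) (.q 1 1))) (.mul (.var 2)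
      (.sub (.var 1) (.q 3 10))))) (.add (.uu (.sub (.var 1) (.q 4 5)) (.add (.var 0) (.var 2)))
      (.mul .pi (.add (.var 0) (.var 2))))) (.sub (.add (.uu (.q 17 40) (.var 0)) (.uu (.q 39 40)
      (.var 0))) (.mul (.q 3 1) (.uu (.q 1 5) (.var 0))))) (.q 293 1000)), (.sub (.add (.add (.mul
      .pi (.add (.mul (.var 0) (.sub (.var 1) (.q 1 1))) (.mul (.var 2) (.sub (.var 1) (.q 3
      10))))) (.sub (.uu (.sub (.var 1) (.q 4 5)) (.add (.var 0) (.var 2))) (.mul .pi (.add (.var
      0) (.var 2))))) (.sub (.add (.uu (.q 17 40) (.var 0)) (.uu (.q 39 40) (.var 0))) (.mul (.q 3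
      1) (.uu (.q 1 5) (.var 0))))) (.q 293 1000))] 40
      121509373062841627328253978131419798514480061713406499916212770931551539238656636863342484301620407847080564516734890324667314238723209856095959970161376159768241193589618147225276780835313812433205489892512025176652512943452944524070584078145037231052757677180727113605293095959860498798266113070952650833951554445742548853731500404904465
      [V.of 10000 380 1580 0, V.of 10000 8050 8600 0, V.of 10000 (-1600) 1600 0] = true := by
    decide +kernel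
  obtain ⟨e, he, hp⟩ := chkT3 h (by norm_num) (x := T) (y := k1) (z := k2)
    (le_trans (by norm_num) a0) (le_trans b0 (by norm_num))
    (le_trans (by norm_num) a1) (le_trans b1 (by norm_num))
    (le_trans (by norm_num) a2) (le_trans b2 (by norm_num))
  simp only [List.mem_cons, List.not_mem_nil, or_false] at he
  rcases he with rfl | rfl
  · simp only [E.val, NumI.lkR] at hp
    push_cast at hp
    try simp only [div_one] at hp
    try unfold E1 GG
    try unfold E2 GG
    linarith only [hU, hp]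
  · simp only [E.val, NumI.lkR] at hp
    push_cast at hp
    try simp only [div_one] at hp
    try unfold E1 GG
    try unfold E2 GG
    linarith only [hV, hp]

/-- 65 boxes -/
theorem r_h2 {T k1 k2 U : ℝ}
    (a0 : 380 / 10000 ≤ T) (b0 : T ≤ 1580 / 10000)
    (a1 : 5000 / 10000 ≤ k1) (b1 : k1 ≤ 7950 / 10000)
    (a2 : -(1600 / 10000) ≤ k2) (b2 : k2 ≤ 1600 / 10000)
    (hU : uu (1 / 5 + k1) (T + k2) ≤ U) :
    109 / 1000 < E2 T k1 k2 U := by
  have h : chkT [(.sub (.sub (.add (.add (.mul .pi (.add (.mul (.var 0) (.sub (.var 1) (.q 1 1))) (.mul (.q 1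
      5) (.var 2)))) (.uu (.add (.q 1 5) (.var 1)) (.add (.var 0) (.var 2)))) (.sub (.add (.uu (.q
      17 40) (.var 0)) (.uu (.q 39 40) (.var 0))) (.mul (.q 3 1) (.uu (.q 1 5) (.var 0))))) (.uu
      (.var 1) (.var 2))) (.q 109 1000))] 40
      114385879663024386055150190346556440833706815394492121116506360528880736121635605926745361498593220563709640878825466671849200874454583053764948111977973793
      [V.of 10000 380 1580 0, V.of 10000 5000 7950 0, V.of 10000 (-1600) 1600 0] = true := by
    decide +kernel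
  obtain ⟨e, he, hp⟩ := chkT3 h (by norm_num) (x := T) (y := k1) (z := k2)
    (le_trans (by norm_num) a0) (le_trans b0 (by norm_num))
    (le_trans (by norm_num) a1) (le_trans b1 (by norm_num))
    (le_trans (by norm_num) a2) (le_trans b2 (by norm_num))
  simp only [List.mem_cons, List.not_mem_nil, or_false] at he
  subst he
  simp only [E.val, NumI.lkR] at hp
  push_cast at hp
  try simp only [div_one] at hp
  try unfold E1 GG
  try unfold E2 GG
  linarith only [hU, hp]

/-- 28 boxes -/
theorem r_h2a {T k1 k2 U : ℝ}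
    (a0 : 380 / 10000 ≤ T) (b0 : T ≤ 1580 / 10000)
    (a1 : 7950 / 10000 ≤ k1) (b1 : k1 ≤ 8050 / 10000)
    (a2 : -(1600 / 10000) ≤ k2) (b2 : k2 ≤ 1600 / 10000)
    (hy : T + k2 ≤ 13 / 100)
    (hU : uu (5 / 1000) (T + k2) + Real.pi * (T + k2) ≤ U)
    (hV : uu (5 / 1000) (T + k2) - Real.pi * (T + k2) ≤ U) :
    109 / 1000 < E2 T k1 k2 U := by
  have h : chkT [(.sub (.sub (.add (.add (.mul .pi (.add (.mul (.var 0) (.sub (.var 1) (.q 1 1))) (.mul (.q 1
      5) (.var 2)))) (.add (.uu (.q 1 200) (.add (.var 0) (.var 2))) (.mul .pi (.add (.var 0)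
      (.var 2))))) (.sub (.add (.uu (.q 17 40) (.var 0)) (.uu (.q 39 40) (.var 0))) (.mul (.q 3 1)
      (.uu (.q 1 5) (.var 0))))) (.uu (.var 1) (.var 2))) (.q 109 1000)), (.sub (.sub (.add (.add
      (.mul .pi (.add (.mul (.var 0) (.sub (.var 1) (.q 1 1))) (.mul (.q 1 5) (.var 2)))) (.sub
      (.uu (.q 1 200) (.add (.var 0) (.var 2))) (.mul .pi (.add (.var 0) (.var 2))))) (.sub (.add
      (.uu (.q 17 40) (.var 0)) (.uu (.q 39 40) (.var 0))) (.mul (.q 3 1) (.uu (.q 1 5) (.var
      0))))) (.uu (.var 1) (.var 2))) (.q 109 1000)), (.sub (.add (.var 0) (.var 2)) (.q 13 100))] 40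
      898449559001736067317636925333054633403140513626629582858077872162
      [V.of 10000 380 1580 0, V.of 10000 7950 8050 0, V.of 10000 (-1600) 1600 0] = true := by
    decide +kernel
  obtain ⟨e, he, hp⟩ := chkT3 h (by norm_num) (x := T) (y := k1) (z := k2)
    (le_trans (by norm_num) a0) (le_trans b0 (by norm_num))
    (le_trans (by norm_num) a1) (le_trans b1 (by norm_num))
    (le_trans (by norm_num) a2) (le_trans b2 (by norm_num))
  simp only [List.mem_cons, List.not_mem_nil, or_false] at he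
  rcases he with rfl | rfl | rfl
  · simp only [E.val, NumI.lkR] at hp
    push_cast at hp
    try simp only [div_one] at hp
    try unfold E1 GG
    try unfold E2 GG
    linarith only [hU, hp]
  · simp only [E.val, NumI.lkR] at hp
    push_cast at hp
    try simp only [div_one] at hp
    try unfold E1 GG
    try unfold E2 GG
    linarith only [hV, hp]
  · simp only [E.val, NumI.lkR] at hp
    push_cast at hp
    try simp only [div_one] at hp
    try unfold E1 GG
    try unfold E2 GG
    linarith only [hy, hp]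

/-- 1 boxes -/
theorem r_h2b {T k1 k2 U : ℝ}
    (a0 : 380 / 10000 ≤ T) (b0 : T ≤ 1580 / 10000)
    (a1 : 7950 / 10000 ≤ k1) (b1 : k1 ≤ 8050 / 10000)
    (a2 : -(1600 / 10000) ≤ k2) (b2 : k2 ≤ 1600 / 10000)
    (hy : 13 / 100 ≤ T + k2) (hU : NumU.uu (5 / 1000) (13 / 100) + Real.pi * (13 / 100) ≤ U) :
    109 / 1000 < E2 T k1 k2 U := by
  have h : chkT [(.sub (.sub (.add (.add (.mul .pi (.add (.mul (.var 0) (.sub (.var 1) (.q 1 1))) (.mul (.q 1
      5) (.var 2)))) (.add (.uu (.q 1 200) (.q 13 100)) (.mul .pi (.q 13 100)))) (.sub (.add (.uu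
      (.q 17 40) (.var 0)) (.uu (.q 39 40) (.var 0))) (.mul (.q 3 1) (.uu (.q 1 5) (.var 0)))))
      (.uu (.var 1) (.var 2))) (.q 109 1000)), (.sub (.q 13 100) (.add (.var 0) (.var 2)))] 40
      8
      [V.of 10000 380 1580 0, V.of 10000 7950 8050 0, V.of 10000 (-1600) 1600 0] = true := by
    decide +kernel
  obtain ⟨e, he, hp⟩ := chkT3 h (by norm_num) (x := T) (y := k1) (z := k2)
    (le_trans (by norm_num) a0) (le_trans b0 (by norm_num))
    (le_trans (by norm_num) a1) (le_trans b1 (by norm_num))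
    (le_trans (by norm_num) a2) (le_trans b2 (by norm_num))
  simp only [List.mem_cons, List.not_mem_nil, or_false] at he
  rcases he with rfl | rfl
  · simp only [E.val, NumI.lkR] at hp
    push_cast at hp
    try simp only [div_one] at hp
    try unfold E1 GG
    try unfold E2 GG
    linarith only [hU, hp]
  · simp only [E.val, NumI.lkR] at hp
    push_cast at hp
    try simp only [div_one] at hp
    try unfold E1 GG
    try unfold E2 GG
    linarith only [hy, hp]

/-- 72 boxes -/
theorem r_h2c {T k1 k2 U : ℝ}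
    (a0 : 380 / 10000 ≤ T) (b0 : T ≤ 1580 / 10000)
    (a1 : 8050 / 10000 ≤ k1) (b1 : k1 ≤ 8600 / 10000)
    (a2 : -(1600 / 10000) ≤ k2) (b2 : k2 ≤ 1600 / 10000)
    (hU : uu (k1 - 8 / 10) (T + k2) + Real.pi * (T + k2) ≤ U)
    (hV : uu (k1 - 8 / 10) (T + k2) - Real.pi * (T + k2) ≤ U) :
    109 / 1000 < E2 T k1 k2 U := by
  have h : chkT [(.sub (.sub (.add (.add (.mul .pi (.add (.mul (.var 0) (.sub (.var 1) (.q 1 1))) (.mul (.q 1
      5) (.var 2)))) (.add (.uu (.sub (.var 1) (.q 4 5)) (.add (.var 0) (.var 2))) (.mul .pi (.add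
      (.var 0) (.var 2))))) (.sub (.add (.uu (.q 17 40) (.var 0)) (.uu (.q 39 40) (.var 0))) (.mul
      (.q 3 1) (.uu (.q 1 5) (.var 0))))) (.uu (.var 1) (.var 2))) (.q 109 1000)), (.sub (.sub
      (.add (.add (.mul .pi (.add (.mul (.var 0) (.sub (.var 1) (.q 1 1))) (.mul (.q 1 5) (.var
      2)))) (.sub (.uu (.sub (.var 1) (.q 4 5)) (.add (.var 0) (.var 2))) (.mul .pi (.add (.var 0)
      (.var 2))))) (.sub (.add (.uu (.q 17 40) (.var 0)) (.uu (.q 39 40) (.var 0))) (.mul (.q 3 1)
      (.uu (.q 1 5) (.var 0))))) (.uu (.var 1) (.var 2))) (.q 109 1000))] 40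
      8242371282420169836273544940940993010235339703405430360368783301759601903865706171653559530448209978635998196797806753476063122624168943558921672616788564820478195239358993
      [V.of 10000 380 1580 0, V.of 10000 8050 8600 0, V.of 10000 (-1600) 1600 0] = true := by
    decide +kernel
  obtain ⟨e, he, hp⟩ := chkT3 h (by norm_num) (x := T) (y := k1) (z := k2)
    (le_trans (by norm_num) a0) (le_trans b0 (by norm_num))
    (le_trans (by norm_num) a1) (le_trans b1 (by norm_num))
    (le_trans (by norm_num) a2) (le_trans b2 (by norm_num))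
  simp only [List.mem_cons, List.not_mem_nil, or_false] at he
  rcases he with rfl | rfl
  · simp only [E.val, NumI.lkR] at hp
    push_cast at hp
    try simp only [div_one] at hp
    try unfold E1 GG
    try unfold E2 GG
    linarith only [hU, hp]
  · simp only [E.val, NumI.lkR] at hp
    push_cast at hp
    try simp only [div_one] at hp
    try unfold E1 GG
    try unfold E2 GG
    linarith only [hV, hp]

/-- 6 boxes -/
theorem r_n {T k1 k2 U : ℝ}
    (a0 : 380 / 10000 ≤ T) (b0 : T ≤ 1450 / 10000)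
    (a1 : 0 ≤ k1) (b1 : k1 ≤ 2500 / 10000)
    (a2 : -(1600 / 10000) ≤ k2) (b2 : k2 ≤ 0)
    (hk : -(16 / 15 * k1) ≤ k2)
    (hU : uu (1 / 5 + k1) (T + k2) ≤ U) :
    109 / 1000 + 1 / 5 * k1 < E1 T k1 k2 U := by
  have h : chkT [(.sub (.add (.add (.mul .pi (.add (.mul (.var 0) (.sub (.var 1) (.q 1 1))) (.mul (.var 2)
      (.sub (.var 1) (.q 3 10))))) (.uu (.add (.q 1 5) (.var 1)) (.add (.var 0) (.var 2)))) (.sub
      (.add (.uu (.q 17 40) (.var 0)) (.uu (.q 39 40) (.var 0))) (.mul (.q 3 1) (.uu (.q 1 5)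
      (.var 0))))) (.add (.q 109 1000) (.mul (.q 1 5) (.var 1)))), (.sub (.neg (.mul (.q 16 15)
      (.var 1))) (.var 2))] 40
      9382391187457
      [V.of 10000 380 1450 0, V.of 10000 0 2500 0, V.of 10000 (-1600) 0 0] = true := by
    decide +kernel
  obtain ⟨e, he, hp⟩ := chkT3 h (by norm_num) (x := T) (y := k1) (z := k2)
    (le_trans (by norm_num) a0) (le_trans b0 (by norm_num))
    (le_trans (by norm_num) a1) (le_trans b1 (by norm_num))
    (le_trans (by norm_num) a2) (le_trans b2 (by norm_num))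
  simp only [List.mem_cons, List.not_mem_nil, or_false] at he
  rcases he with rfl | rfl
  · simp only [E.val, NumI.lkR] at hp
    push_cast at hp
    try simp only [div_one] at hp
    try unfold E1 GG
    try unfold E2 GG
    linarith only [hU, hp]
  · simp only [E.val, NumI.lkR] at hp
    push_cast at hp
    try simp only [div_one] at hp
    try unfold E1 GG
    try unfold E2 GG
    linarith only [hk, hp]

/-- 60 boxes -/
theorem r_p1a {T k1 k2 U : ℝ}
    (a0 : 380 / 10000 ≤ T) (b0 : T ≤ 1360 / 10000)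
    (a1 : 0 ≤ k1) (b1 : k1 ≤ 1500 / 10000)
    (a2 : 0 ≤ k2) (b2 : k2 ≤ 1180 / 10000)
    (hk : k2 ≤ 118 / 150 * k1)
    (hs : k1 * T + 15 / 100 * k2 ≤ 143 / 1000 * k1) (hU : uu (1 / 5 + k1) (T + k2) ≤ U) :
    109 / 1000 + 1 / 5 * k1 + 65 / 100 * k2 < E1 T k1 k2 U := by
  have h : chkT [(.sub (.add (.add (.mul .pi (.add (.mul (.var 0) (.sub (.var 1) (.q 1 1))) (.mul (.var 2)
      (.sub (.var 1) (.q 3 10))))) (.uu (.add (.q 1 5) (.var 1)) (.add (.var 0) (.var 2)))) (.sub
      (.add (.uu (.q 17 40) (.var 0)) (.uu (.q 39 40) (.var 0))) (.mul (.q 3 1) (.uu (.q 1 5)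
      (.var 0))))) (.add (.add (.q 109 1000) (.mul (.q 1 5) (.var 1))) (.mul (.q 13 20) (.var
      2)))), (.sub (.var 2) (.mul (.q 59 75) (.var 1))), (.sub (.add (.mul (.var 1) (.var 0))
      (.mul (.q 3 20) (.var 2))) (.mul (.q 143 1000) (.var 1)))] 40
      128423523527124194252340408095489690137686230287453963306819521221469479973729304868734527082644158670044906253976882620566835743233250420597024
      [V.of 10000 380 1360 0, V.of 10000 0 1500 0, V.of 10000 0 1180 0] = true := by
    decide +kernel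
  obtain ⟨e, he, hp⟩ := chkT3 h (by norm_num) (x := T) (y := k1) (z := k2)
    (le_trans (by norm_num) a0) (le_trans b0 (by norm_num))
    (le_trans (by norm_num) a1) (le_trans b1 (by norm_num))
    (le_trans (by norm_num) a2) (le_trans b2 (by norm_num))
  simp only [List.mem_cons, List.not_mem_nil, or_false] at he
  rcases he with rfl | rfl | rfl
  · simp only [E.val, NumI.lkR] at hp
    push_cast at hp
    try simp only [div_one] at hp
    try unfold E1 GG
    try unfold E2 GG
    linarith only [hU, hp]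
  · simp only [E.val, NumI.lkR] at hp
    push_cast at hp
    try simp only [div_one] at hp
    try unfold E1 GG
    try unfold E2 GG
    linarith only [hk, hp]
  · simp only [E.val, NumI.lkR] at hp
    push_cast at hp
    try simp only [div_one] at hp
    try unfold E1 GG
    try unfold E2 GG
    linarith only [hs, hp]

/-- 7 boxes -/
theorem r_p1b {T k1 k2 U : ℝ}
    (a0 : 380 / 10000 ≤ T) (b0 : T ≤ 1360 / 10000)
    (a1 : 1500 / 10000 ≤ k1) (b1 : k1 ≤ 2500 / 10000)
    (a2 : 0 ≤ k2) (b2 : k2 ≤ 1180 / 10000)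
    (hs : T + k2 ≤ 143 / 1000)
    (hU : uu (1 / 5 + k1) (T + k2) ≤ U) :
    109 / 1000 + 1 / 5 * k1 + 65 / 100 * k2 < E1 T k1 k2 U := by
  have h : chkT [(.sub (.add (.add (.mul .pi (.add (.mul (.var 0) (.sub (.var 1) (.q 1 1))) (.mul (.var 2)
      (.sub (.var 1) (.q 3 10))))) (.uu (.add (.q 1 5) (.var 1)) (.add (.var 0) (.var 2)))) (.sub
      (.add (.uu (.q 17 40) (.var 0)) (.uu (.q 39 40) (.var 0))) (.mul (.q 3 1) (.uu (.q 1 5)
      (.var 0))))) (.add (.add (.q 109 1000) (.mul (.q 1 5) (.var 1))) (.mul (.q 13 20) (.var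
      2)))), (.sub (.add (.var 0) (.var 2)) (.q 143 1000))] 40
      2676801902090240
      [V.of 10000 380 1360 0, V.of 10000 1500 2500 0, V.of 10000 0 1180 0] = true := by
    decide +kernel
  obtain ⟨e, he, hp⟩ := chkT3 h (by norm_num) (x := T) (y := k1) (z := k2)
    (le_trans (by norm_num) a0) (le_trans b0 (by norm_num))
    (le_trans (by norm_num) a1) (le_trans b1 (by norm_num))
    (le_trans (by norm_num) a2) (le_trans b2 (by norm_num))
  simp only [List.mem_cons, List.not_mem_nil, or_false] at he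
  rcases he with rfl | rfl
  · simp only [E.val, NumI.lkR] at hp
    push_cast at hp
    try simp only [div_one] at hp
    try unfold E1 GG
    try unfold E2 GG
    linarith only [hU, hp]
  · simp only [E.val, NumI.lkR] at hp
    push_cast at hp
    try simp only [div_one] at hp
    try unfold E1 GG
    try unfold E2 GG
    linarith only [hs, hp]

/-- 258 boxes -/
theorem r_p2a {T k1 k2 U : ℝ}
    (a0 : 630 / 10000 ≤ T) (b0 : T ≤ 1450 / 10000)
    (a1 : 0 ≤ k1) (b1 : k1 ≤ 1600 / 10000)
    (a2 : 0 ≤ k2) (b2 : k2 ≤ 985 / 10000)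
    (hk : k2 ≤ 985 / 1600 * k1)
    (hs : k1 * T + 16 / 100 * k2 ≤ 187 / 1000 * k1) (hU : uu (1 / 5 + k1) (T + k2) ≤ U) :
    109 / 1000 + 1 / 5 * k1 + 65 / 100 * k2 < E1 T k1 k2 U := by
  have h : chkT [(.sub (.add (.add (.mul .pi (.add (.mul (.var 0) (.sub (.var 1) (.q 1 1))) (.mul (.var 2)
      (.sub (.var 1) (.q 3 10))))) (.uu (.add (.q 1 5) (.var 1)) (.add (.var 0) (.var 2)))) (.sub
      (.add (.uu (.q 17 40) (.var 0)) (.uu (.q 39 40) (.var 0))) (.mul (.q 3 1) (.uu (.q 1 5)
      (.var 0))))) (.add (.add (.q 109 1000) (.mul (.q 1 5) (.var 1))) (.mul (.q 13 20) (.var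
      2)))), (.sub (.var 2) (.mul (.q 197 320) (.var 1))), (.sub (.add (.mul (.var 1) (.var 0))
      (.mul (.q 4 25) (.var 2))) (.mul (.q 187 1000) (.var 1)))] 40
      88161124698066039848202927024145456594509328010871303050102877063253746855620778297535037684067750643516728981081697018747857299261387991471118043276704589125545984892709434443156046507007363618415121990786190827346210766016042322814264181553554281306048270054482548921628966137239299188266520410046368667040913953027124899249032878118341556182513480633138217009309799141353582961311719073566582173953317447692269071888210643597856203325414944330328550606715839395887784425031178959921794704611886527430808401467347443062977683749164014059166487249484374282043758399476216315281319959624026757995530159694034343196368929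
      [V.of 10000 630 1450 0, V.of 10000 0 1600 0, V.of 10000 0 985 0] = true := by
    decide +kernel
  obtain ⟨e, he, hp⟩ := chkT3 h (by norm_num) (x := T) (y := k1) (z := k2)
    (le_trans (by norm_num) a0) (le_trans b0 (by norm_num))
    (le_trans (by norm_num) a1) (le_trans b1 (by norm_num))
    (le_trans (by norm_num) a2) (le_trans b2 (by norm_num))
  simp only [List.mem_cons, List.not_mem_nil, or_false] at he
  rcases he with rfl | rfl | rfl
  · simp only [E.val, NumI.lkR] at hp
    push_cast at hp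
    try simp only [div_one] at hp
    try unfold E1 GG
    try unfold E2 GG
    linarith only [hU, hp]
  · simp only [E.val, NumI.lkR] at hp
    push_cast at hp
    try simp only [div_one] at hp
    try unfold E1 GG
    try unfold E2 GG
    linarith only [hk, hp]
  · simp only [E.val, NumI.lkR] at hp
    push_cast at hp
    try simp only [div_one] at hp
    try unfold E1 GG
    try unfold E2 GG
    linarith only [hs, hp]

/-- 2 boxes -/
theorem r_p2b {T k1 k2 U : ℝ}
    (a0 : 630 / 10000 ≤ T) (b0 : T ≤ 1450 / 10000)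
    (a1 : 1600 / 10000 ≤ k1) (b1 : k1 ≤ 2500 / 10000)
    (a2 : 0 ≤ k2) (b2 : k2 ≤ 985 / 10000)
    (hs : T + k2 ≤ 187 / 1000)
    (hU : uu (1 / 5 + k1) (T + k2) ≤ U) :
    109 / 1000 + 1 / 5 * k1 + 65 / 100 * k2 < E1 T k1 k2 U := by
  have h : chkT [(.sub (.add (.add (.mul .pi (.add (.mul (.var 0) (.sub (.var 1) (.q 1 1))) (.mul (.var 2)
      (.sub (.var 1) (.q 3 10))))) (.uu (.add (.q 1 5) (.var 1)) (.add (.var 0) (.var 2)))) (.sub
      (.add (.uu (.q 17 40) (.var 0)) (.uu (.q 39 40) (.var 0))) (.mul (.q 3 1) (.uu (.q 1 5)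
      (.var 0))))) (.add (.add (.q 109 1000) (.mul (.q 1 5) (.var 1))) (.mul (.q 13 20) (.var
      2)))), (.sub (.add (.var 0) (.var 2)) (.q 187 1000))] 40
      2176
      [V.of 10000 630 1450 0, V.of 10000 1600 2500 0, V.of 10000 0 985 0] = true := by
    decide +kernel
  obtain ⟨e, he, hp⟩ := chkT3 h (by norm_num) (x := T) (y := k1) (z := k2)
    (le_trans (by norm_num) a0) (le_trans b0 (by norm_num))
    (le_trans (by norm_num) a1) (le_trans b1 (by norm_num))
    (le_trans (by norm_num) a2) (le_trans b2 (by norm_num))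
  simp only [List.mem_cons, List.not_mem_nil, or_false] at he
  rcases he with rfl | rfl
  · simp only [E.val, NumI.lkR] at hp
    push_cast at hp
    try simp only [div_one] at hp
    try unfold E1 GG
    try unfold E2 GG
    linarith only [hU, hp]
  · simp only [E.val, NumI.lkR] at hp
    push_cast at hp
    try simp only [div_one] at hp
    try unfold E1 GG
    try unfold E2 GG
    linarith only [hs, hp]

/-- all ramps, `k1 ≥ 1/4` -/
theorem goal1_hi {θ T k1 k2 : ℝ} (hθ : θ ≤ 108 / 1000) (hT : 38 / 1000 ≤ T) (hT' : T ≤ 158 / 1000)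
    (hk : 1 / 4 ≤ k1) (hk' : k1 ≤ 86 / 100) (h2 : |k2| ≤ 16 / 100) :
    Goal1 θ (2 / 10) T k1 k2 := by
  obtain ⟨l2, u2⟩ := abs_le.1 h2
  have hm : mA1 k1 k2 = 18 / 100 := if_neg (by linarith only [hk])
  constructor
  · have e := val_E1 θ T k1 k2
    have g : 293 / 1000 < E1 T k1 k2 (uu (1 / 5 + k1) (T + k2)) := by
      rcases le_total k1 (7950 / 10000) with c1 | c1
      · exact r_h1 (by linarith only [hT]) (by linarith only [hT']) (by linarith only [hk]) (by linarith only [c1]) (by linarith only [l2])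
          (by linarith only [u2]) le_rfl
      rcases le_total k1 (8050 / 10000) with c2 | c2
      · rcases le_total (T + k2) (13 / 100) with c3 | c3
        · obtain ⟨n1, n2⟩ := nearc1 (x := 1 / 5 + k1) (y := T + k2) (by linarith only [c1]) (by linarith only [c2])
            (abs_le.2 ⟨by linarith only [hT, l2], c3⟩)
          exact r_h1a (by linarith only [hT]) (by linarith only [hT']) (by linarith only [c1]) (by linarith only [c2]) (by linarith only [l2])
            (by linarith only [u2]) c3 n1 n2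
        · exact r_h1b (by linarith only [hT]) (by linarith only [hT']) (by linarith only [c1]) (by linarith only [c2]) (by linarith only [hT', c3])
            (by linarith only [u2]) c3 (nearc1' (by linarith only [c1]) (by linarith only [c2]) c3)
      · obtain ⟨n1, n2⟩ := shift1 k1 (T + k2)
        exact r_h1c (by linarith only [hT]) (by linarith only [hT']) (by linarith only [c2]) (by linarith only [hk']) (by linarith only [l2])
          (by linarith only [u2]) n1 n2
    rw [hm]
    linarith only [hθ, e, g]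
  · intro hh
    have e := val_E2 θ T k1 k2
    have g : 109 / 1000 < E2 T k1 k2 (uu (1 / 5 + k1) (T + k2)) := by
      rcases le_total k1 (7950 / 10000) with c1 | c1
      · exact r_h2 (by linarith only [hT]) (by linarith only [hT']) (by linarith only [hh]) (by linarith only [c1]) (by linarith only [l2])
          (by linarith only [u2]) le_rfl
      rcases le_total k1 (8050 / 10000) with c2 | c2
      · rcases le_total (T + k2) (13 / 100) with c3 | c3
        · obtain ⟨n1, n2⟩ := nearc1 (x := 1 / 5 + k1) (y := T + k2) (by linarith only [c1]) (by linarith only [c2])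
            (abs_le.2 ⟨by linarith only [hT, l2], c3⟩)
          exact r_h2a (by linarith only [hT]) (by linarith only [hT']) (by linarith only [c1]) (by linarith only [c2]) (by linarith only [l2])
            (by linarith only [u2]) c3 n1 n2
        · exact r_h2b (by linarith only [hT]) (by linarith only [hT']) (by linarith only [c1]) (by linarith only [c2]) (by linarith only [hT', c3])
            (by linarith only [u2]) c3 (nearc1' (by linarith only [c1]) (by linarith only [c2]) c3)
      · obtain ⟨n1, n2⟩ := shift1 k1 (T + k2)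
        exact r_h2c (by linarith only [hT]) (by linarith only [hT']) (by linarith only [c2]) (by linarith only [hk']) (by linarith only [l2])
          (by linarith only [u2]) n1 n2
    linarith only [hθ, e, g]

/-- `k1 < 1/4`, `k2 ≤ 0` -/
theorem goal1_neg {θ T k1 k2 : ℝ} (hθ : θ ≤ 1 / 10) (hT : 38 / 1000 ≤ T) (hT' : T ≤ 145 / 1000)
    (h0 : 0 ≤ k1) (hk : k1 < 1 / 4) (h1 : -(16 / 100) ≤ k2) (h2 : k2 ≤ 0)
    (h3 : -(16 / 15 * k1) ≤ k2) : Goal1 θ (2 / 10) T k1 k2 := by
  have hm : mA1 k1 k2 = 4 / 1000 + 1 / 5 * k1 := by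
    unfold mA1
    rw [if_pos hk, max_eq_right h2, mul_zero, add_zero]
  constructor
  · have e := val_E1 θ T k1 k2
    have g := r_n (T := T) (k1 := k1) (k2 := k2) (by linarith only [hT]) (by linarith only [hT']) (by linarith only [h0])
      (by linarith only [hk]) (by linarith only [h1]) (by linarith only [h2]) h3 le_rfl
    rw [hm]
    linarith only [hθ, e, g]
  · intro hh
    linarith only [hk, hh]

theorem goal1_of_pos {θ T k1 k2 : ℝ} (hθ : θ ≤ 1 / 10) (hk : k1 < 1 / 4) (h2 : 0 ≤ k2)
    (g : 109 / 1000 + 1 / 5 * k1 + 65 / 100 * k2 < E1 T k1 k2 (uu (1 / 5 + k1) (T + k2))) :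
    Goal1 θ (2 / 10) T k1 k2 := by
  have hm : mA1 k1 k2 = 4 / 1000 + 1 / 5 * k1 + 65 / 100 * k2 := by
    unfold mA1
    rw [if_pos hk, max_eq_left h2]
  constructor
  · have e := val_E1 θ T k1 k2
    rw [hm]
    linarith only [hθ, g, e]
  · intro hh
    linarith only [hk, hh]

/-- the ramp -/
theorem Rmp.le {cl a x t : ℝ} (h : Rmp cl a x t) (hc : 0 < cl) (hx : x ≤ a) :
    t ≤ x / cl ∧ (x ≤ cl → t = x / cl) ∧ (cl ≤ x → t = 1) := by
  have e := h.2.2 hx
  refine ⟨e ▸ min_le_right _ _, fun h1 => ?_, fun h1 => ?_⟩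
  · rw [e, min_eq_right]
    rw [div_le_one hc]
    exact h1
  · rw [e, min_eq_left]
    rw [one_le_div hc]
    exact h1

theorem c1m {T u k1 t : ℝ} (h1 : 38 / 1000 ≤ T) (h2 : T ≤ 136 / 1000) (h3 : |u| ≤ 118 / 1000)
    (h4 : T + u ≤ 143 / 1000) (h5 : 0 ≤ k1) (h6 : k1 ≤ 86 / 100)
    (hR : Rmp (15 / 100) (60 / 100) k1 t) : Goal1 (1 / 10) (2 / 10) T k1 (u * t) := by
  obtain ⟨l3, u3⟩ := abs_le.1 h3
  have t0 := hR.1
  have t1 := hR.2.1
  rcases le_or_gt (1 / 4) k1 with c | c
  · apply goal1_hi (by norm_num) (by linarith only [h1]) (by linarith only [h2]) c h6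
    rw [abs_mul, abs_of_nonneg t0]
    have := mul_le_mul h3 t1 t0 (by norm_num : (0 : ℝ) ≤ 118 / 1000)
    linarith only [this]
  obtain ⟨r1, r2, r3⟩ := hR.le (by norm_num) (by linarith only [c])
  have r1' : 15 / 100 * t ≤ k1 := by
    rw [le_div_iff₀ (by norm_num)] at r1
    linarith only [r1]
  rcases le_total u 0 with hu | hu
  · have m1 := mul_le_mul_of_nonneg_right l3 t0
    have m2 := mul_nonpos_of_nonpos_of_nonneg hu t0
    exact goal1_neg le_rfl (by linarith only [h1]) (by linarith only [h2]) h5 c (by nlinarith only [t1, m1]) m2 (by nlinarith only [h5, r1, m1])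
  · have m2 := mul_nonneg hu t0
    apply goal1_of_pos le_rfl c m2
    have m1 := mul_le_mul_of_nonneg_right u3 t0
    rcases le_total k1 (15 / 100) with c2 | c2
    · have e := r2 c2
      have e2 : k1 = 15 / 100 * t := by
        rw [e]
        ring
      apply r_p1a (by linarith only [h1]) (by linarith only [h2]) (by linarith only [h5]) (by linarith only [c2]) (by linarith only [m2])
        (by nlinarith only [t1, m1]) (by linarith only [r1, m1]) ?_ le_rfl
      have := mul_le_mul_of_nonneg_right h4 t0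
      rw [e2]
      linarith only [this]
    · have e := r3 c2
      rw [e, mul_one]
      exact r_p1b (by linarith only [h1]) (by linarith only [h2]) (by linarith only [c2]) (by linarith only [c]) (by linarith only [hu])
        (by linarith only [h1, h4, c, c2]) h4 le_rfl

theorem c1d {T k1 t : ℝ} (h1 : 38 / 1000 ≤ T) (h2 : T ≤ 136 / 1000) (h5 : 0 ≤ k1)
    (h6 : k1 ≤ 86 / 100) (hR : Rmp (15 / 100) (60 / 100) k1 t) :
    Goal1 (1 / 10) (2 / 10) T k1 (-(16 / 100) * t) := by
  have t0 := hR.1
  have t1 := hR.2.1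
  rcases le_or_gt (1 / 4) k1 with c | c
  · apply goal1_hi (by norm_num) (by linarith only [h1]) (by linarith only [h2]) c h6
    rw [abs_le]
    constructor <;> linarith only [t1, t0]
  obtain ⟨r1, -, -⟩ := hR.le (by norm_num) (by linarith only [c])
  rw [le_div_iff₀ (by norm_num)] at r1
  exact goal1_neg le_rfl (by linarith only [h1]) (by linarith only [h2]) h5 c (by linarith only [t1]) (by linarith only [t0])
    (by linarith only [r1])

theorem c1u {T k1 t : ℝ} (h1 : 38 / 1000 ≤ T) (h2 : T ≤ 136 / 1000) (h5 : 1 / 4 ≤ k1)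
    (h6 : k1 ≤ 86 / 100) (hR : Rmp (15 / 100) (60 / 100) k1 t) :
    Goal1 (1 / 10) (2 / 10) T k1 (16 / 100 * t) := by
  have t0 := hR.1
  have t1 := hR.2.1
  apply goal1_hi (by norm_num) (by linarith only [h1]) (by linarith only [h2]) h5 h6
  rw [abs_le]
  constructor <;> linarith only [t0, t1]

theorem c2m {T u k1 t : ℝ} (h1 : 63 / 1000 ≤ T) (h2 : T ≤ 145 / 1000) (h3 : -(18 / 1000) ≤ u)
    (h3' : u ≤ 985 / 10000) (h4 : T + u ≤ 187 / 1000) (h5 : 0 ≤ k1) (h6 : k1 ≤ 80 / 100)
    (hR : Rmp (16 / 100) (50 / 100) k1 t) : Goal1 (1 / 10) (2 / 10) T k1 (u * t) := by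
  have t0 := hR.1
  have t1 := hR.2.1
  have m1 := mul_le_mul_of_nonneg_right h3 t0
  have m3 := mul_le_mul_of_nonneg_right h3' t0
  rcases le_or_gt (1 / 4) k1 with c | c
  · apply goal1_hi (by norm_num) (by linarith only [h1]) (by linarith only [h2]) c (by linarith only [h6])
    rw [abs_le]
    constructor <;> linarith only [t1, m1, m3]
  obtain ⟨r1, r2, r3⟩ := hR.le (by norm_num) (by linarith only [h6, c])
  have r1' : 16 / 100 * t ≤ k1 := by
    rw [le_div_iff₀ (by norm_num)] at r1
    linarith only [r1]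
  rcases le_total u 0 with hu | hu
  · have m2 := mul_nonpos_of_nonpos_of_nonneg hu t0
    exact goal1_neg le_rfl (by linarith only [h1]) (by linarith only [h2]) h5 c (by linarith only [t1, m1]) m2 (by linarith only [h5, m1, r1])
  · have m2 := mul_nonneg hu t0
    apply goal1_of_pos le_rfl c m2
    rcases le_total k1 (16 / 100) with c2 | c2
    · have e := r2 c2
      have e2 : k1 = 16 / 100 * t := by
        rw [e]
        ring
      apply r_p2a (by linarith only [h1]) (by linarith only [h2]) (by linarith only [h5]) (by linarith only [c2]) (by linarith only [m2])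
        (by linarith only [t1, m3]) (by linarith only [m3, r1]) ?_ le_rfl
      have := mul_le_mul_of_nonneg_right h4 t0
      rw [e2]
      linarith only [this]
    · have e := r3 c2
      rw [e, mul_one]
      exact r_p2b (by linarith only [h1]) (by linarith only [h2]) (by linarith only [c2]) (by linarith only [c]) (by linarith only [hu])
        (by linarith only [h3']) h4 le_rfl

theorem c2d {T k1 t : ℝ} (h1 : 63 / 1000 ≤ T) (h2 : T ≤ 145 / 1000) (h5 : 0 ≤ k1)
    (h6 : k1 ≤ 80 / 100) (hR : Rmp (16 / 100) (50 / 100) k1 t) :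
    Goal1 (1 / 10) (2 / 10) T k1 (-(16 / 100) * t) := by
  have t0 := hR.1
  have t1 := hR.2.1
  rcases le_or_gt (1 / 4) k1 with c | c
  · apply goal1_hi (by norm_num) (by linarith only [h1]) (by linarith only [h2]) c (by linarith only [h6])
    rw [abs_le]
    constructor <;> linarith only [t1, t0]
  obtain ⟨r1, -, -⟩ := hR.le (by norm_num) (by linarith only [h6, c])
  rw [le_div_iff₀ (by norm_num)] at r1
  exact goal1_neg le_rfl (by linarith only [h1]) (by linarith only [h2]) h5 c (by linarith only [t1]) (by linarith only [t0])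
    (by linarith only [h5, r1])

theorem c2u {T k1 t : ℝ} (h1 : 63 / 1000 ≤ T) (h2 : T ≤ 145 / 1000) (h5 : 1 / 4 ≤ k1)
    (h6 : k1 ≤ 80 / 100) (hR : Rmp (16 / 100) (50 / 100) k1 t) :
    Goal1 (1 / 10) (2 / 10) T k1 (16 / 100 * t) := by
  have t0 := hR.1
  have t1 := hR.2.1
  apply goal1_hi (by norm_num) (by linarith only [h1]) (by linarith only [h2]) h5 (by linarith only [h6])
  rw [abs_le]
  constructor <;> linarith only [t0, t1]

end ZD

end Pool.Agent.Work.MP_b30479_gt.G2
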