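import Pool.Agent.Work.MP_b30479_gt.G2.ZRcT

/-!
# Modes at rings, rows `C`: the other variable of the second kind
-/

namespace Pool.Agent.Work.MP_b30479_gt.G2

open VOL NumU

namespace ZD

namespace RC

open NumI (V) in
theorem r2a : chkT [g2 u0 (.add (.q 65 1000) (.mul (.q 7 10) (.var 1))), g2 u0 (.q 295 1000), vi32] 40
    125802453366054162635503397192282295150932369350823106237132497267532713274325734714076542290027366892656179772070765056710665492095740865801312622124385608862731346449
    [V.of 1000 (-1) 96 0, V.of 1000 0 790 0, V.of 1000 (-450) 160 0] = true := by decide +kernel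

open NumI (V) in
theorem r2b : chkT [g2 up (.q 295 1000), g2 um (.q 295 1000)] 40
    9
    [V.of 1000 (-1) 96 0, V.of 1000 790 800 0, V.of 1000 (-450) 160 0] = true := by decide +kernel

open NumI (V) in
theorem r2c : chkT [g4 u0 op, g4 u0 om] 40
    623234
    [V.of 1000 (-1) 96 0, V.of 1000 0 10 0, V.of 1000 (-450) 160 0] = true := by decide +kernel

open NumI (V) in
theorem r2d : chkT [g4 u0 uk] 40
    22035178254622853280364593878592529389970877316281186043795090844610002335458423158795053323363037657656209568354458013969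
    [V.of 1000 (-1) 96 0, V.of 1000 10 790 0, V.of 1000 (-450) 160 0] = true := by decide +kernel

open NumI (V) in
theorem r2e : chkT [g4 up uk, g4 um uk] 40
    2450
    [V.of 1000 (-1) 96 0, V.of 1000 790 800 0, V.of 1000 (-450) 160 0] = true := by decide +kernel

open NumI (V) in
theorem rH : chk [gH] 20 [V.of 1000 (-1) 96 0] = true := by decide +kernel

variable {T k1 k2 u t : ℝ}

theorem gH_pos (T0 : -(1 / 1000) ≤ T) (T1 : T ≤ 96 / 1000) :
    Real.pi * (4 / 10) * T + 600 / 1000 <
      uu (425 / 1000) T + uu (975 / 1000) T - 4 * uu (2 / 10) T := by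
  have hp := pos_of_chk (chk1 rH (by norm_num) (x := T) (by push_cast; linarith only [T0])
    (by push_cast; linarith only [T1]))
  simp only [gH, U5, E.val, NumI.lkR] at hp
  push_cast at hp
  linarith only [hp]

/-- both goals as differences -/
theorem Goal2_of (h1 : 0 < s2 T k1 k2 (uu (2 / 10 + k1) (T + k2)) - cA2 k1 k2 -
      (65 / 1000 + 7 / 10 * k1) ∨
      0 < s2 T k1 k2 (uu (2 / 10 + k1) (T + k2)) - cA2 k1 k2 - 295 / 1000)
    (h2 : 0 < s2 T k1 k2 (uu (2 / 10 + k1) (T + k2)) + Real.pi * k1 * k2 - uu k1 k2 - 1 / 1000) :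
    Goal2 T k1 k2 := by
  unfold Goal2
  rw [gD2_eq]
  constructor
  · have m1 : mA2 k1 ≤ 2 / 100 + 7 / 10 * k1 := min_le_left _ _
    have m2 : mA2 k1 ≤ 1 / 4 := min_le_right _ _
    rcases h1 with h1 | h1 <;> linarith only [m1, h1, m2]
  · unfold oD2
    linarith only [h2]

theorem lo16 (h0 : 79 / 100 ≤ k1) (h1 : k1 ≤ 80 / 100) (hy : |T + k2| ≤ 46 / 100) :
    up.val [T, k1, k2] ≤ uu (2 / 10 + k1) (T + k2) ∧
      um.val [T, k1, k2] ≤ uu (2 / 10 + k1) (T + k2) := by
  have hp := Real.pi_pos
  have h := uu_left_one (a := 2 / 10 + k1) (t := T + k2) (by linarith only [h1]) hy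
  have a1 := mul_le_mul_of_nonneg_left (le_abs_self (T + k2)) (by positivity : 0 ≤ Real.pi / 2)
  have a2 := mul_le_mul_of_nonneg_left (neg_le_abs (T + k2)) (by positivity : 0 ≤ Real.pi / 2)
  simp only [up, um, E.val, NumI.lkR]
  push_cast
  constructor <;> linarith only [h0, h, a1, a2]

theorem hi16 (h0 : 0 ≤ k1) (h1 : k1 ≤ 10 / 1000) (hy : |k2| ≤ 46 / 100) :
    uu k1 k2 ≤ op.val [T, k1, k2] ∧ uu k1 k2 ≤ om.val [T, k1, k2] := by
  have hp := Real.pi_pos
  have h := uu_right_zero (a := k1) (t := k2) h0 hy
  have a1 := mul_le_mul_of_nonneg_left (le_abs_self k2) (by positivity : 0 ≤ Real.pi / 2)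
  have a2 := mul_le_mul_of_nonneg_left (neg_le_abs k2) (by positivity : 0 ≤ Real.pi / 2)
  simp only [op, om, E.val, NumI.lkR]
  push_cast
  constructor <;> linarith only [h1, h, a2, a1]

/-- moderate heights -/
theorem goal2_near (T0 : -(1 / 1000) ≤ T) (T1 : T ≤ 96 / 1000) (hd : dom2 k1 k2)
    (hk : -(450 / 1000) ≤ k2) : Goal2 T k1 k2 := by
  obtain ⟨d0, d1, d2, d3⟩ := hd
  have hy : |T + k2| ≤ 46 / 100 := by rw [abs_le]; constructor <;> linarith only [T0, hk, T1, d2]
  have hk' : |k2| ≤ 46 / 100 := by rw [abs_le]; constructor <;> linarith only [hk, d2]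
  apply Goal2_of
  · rcases le_total k1 (79 / 100) with h | h
    · obtain ⟨e, he, hp⟩ := chkT3 r2a (by norm_num) (x := T) (y := k1) (z := k2)
        (by push_cast; linarith only [T0]) (by push_cast; linarith only [T1]) (by push_cast; linarith only [d0])
        (by push_cast; linarith only [h]) (by push_cast; linarith only [hk]) (by push_cast; linarith only [d2])
      simp only [List.mem_cons, List.not_mem_nil, or_false] at he
      rcases he with rfl | rfl | rfl
      · left
        rw [g2_val, u0_val] at hp
        simp only [E.val, NumI.lkR] at hp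
        push_cast at hp
        linarith only [hp]
      · right
        rw [g2_val, u0_val] at hp
        simp only [E.val] at hp
        push_cast at hp
        linarith only [hp]
      · exfalso
        simp only [vi32, E.val, NumI.lkR] at hp
        push_cast at hp
        linarith only [d3, hp]
    · right
      obtain ⟨b1, b2⟩ := lo16 h (by linarith only [d1]) hy
      obtain ⟨e, he, hp⟩ := chkT3 r2b (by norm_num) (x := T) (y := k1) (z := k2)
        (by push_cast; linarith only [T0]) (by push_cast; linarith only [T1]) (by push_cast; linarith only [h])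
        (by push_cast; linarith only [d1]) (by push_cast; linarith only [hk]) (by push_cast; linarith only [d2])
      simp only [List.mem_cons, List.not_mem_nil, or_false] at he
      rcases he with rfl | rfl
      · rw [g2_val] at hp
        have := s2_mono (T := T) (k1 := k1) (k2 := k2) b1
        generalize up.val [T, k1, k2] = q at *
        simp only [E.val] at hp
        push_cast at hp
        linarith only [this, hp]
      · rw [g2_val] at hp
        have := s2_mono (T := T) (k1 := k1) (k2 := k2) b2
        generalize um.val [T, k1, k2] = q at *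
        simp only [E.val] at hp
        push_cast at hp
        linarith only [this, hp]
  · rcases le_total k1 (10 / 1000) with h | h
    · obtain ⟨b1, b2⟩ := hi16 (T := T) d0 h hk'
      obtain ⟨e, he, hp⟩ := chkT3 r2c (by norm_num) (x := T) (y := k1) (z := k2)
        (by push_cast; linarith only [T0]) (by push_cast; linarith only [T1]) (by push_cast; linarith only [d0])
        (by push_cast; linarith only [h]) (by push_cast; linarith only [hk]) (by push_cast; linarith only [d2])
      simp only [List.mem_cons, List.not_mem_nil, or_false] at he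
      rcases he with rfl | rfl
      · rw [g4_val, u0_val] at hp
        linarith only [b1, hp]
      · rw [g4_val, u0_val] at hp
        linarith only [b2, hp]
    · rcases le_total k1 (79 / 100) with h' | h'
      · obtain ⟨e, he, hp⟩ := chkT3 r2d (by norm_num) (x := T) (y := k1) (z := k2)
          (by push_cast; linarith only [T0]) (by push_cast; linarith only [T1]) (by push_cast; linarith only [h])
          (by push_cast; linarith only [h']) (by push_cast; linarith only [hk]) (by push_cast; linarith only [d2])
        rw [List.mem_singleton.1 he, g4_val, u0_val, uk_val] at hp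
        exact hp
      · obtain ⟨b1, b2⟩ := lo16 h' (by linarith only [d1]) hy
        obtain ⟨e, he, hp⟩ := chkT3 r2e (by norm_num) (x := T) (y := k1) (z := k2)
          (by push_cast; linarith only [T0]) (by push_cast; linarith only [T1]) (by push_cast; linarith only [h'])
          (by push_cast; linarith only [d1]) (by push_cast; linarith only [hk]) (by push_cast; linarith only [d2])
        simp only [List.mem_cons, List.not_mem_nil, or_false] at he
        rcases he with rfl | rfl
        · rw [g4_val, uk_val] at hp
          have := s2_mono (T := T) (k1 := k1) (k2 := k2) b1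
          linarith only [hp, this]
        · rw [g4_val, uk_val] at hp
          have := s2_mono (T := T) (k1 := k1) (k2 := k2) b2
          linarith only [hp, this]

/-- large heights -/
theorem goal2_far (T0 : -(1 / 1000) ≤ T) (T1 : T ≤ 96 / 1000) (hd : dom2 k1 k2)
    (hk : k2 ≤ -(450 / 1000)) : Goal2 T k1 k2 := by
  obtain ⟨d0, d1, d2, d3⟩ := hd
  have hH := gH_pos T0 T1
  have e1 : |T + k2| = -(T + k2) := abs_of_nonpos (by linarith only [T1, hk])
  have e2 : |k2| = -k2 := abs_of_nonpos (by linarith only [hk])
  have h1 := uu_lo (a := 2 / 10 + k1) (t := T + k2) (by linarith only [d1]) (by rw [e1]; linarith only [T1, hk])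
  have h2 := uu_up (a := k1) (t := k2) d0 (by rw [e2]; linarith only [hk])
  rw [e1] at h1
  rw [e2] at h2
  apply Goal2_of
  · right
    unfold s2 cA2
    linarith only [d0, hH, h1]
  · unfold s2
    linarith only [hH, h1, h2]

theorem goal2 (T0 : -(1 / 1000) ≤ T) (T1 : T ≤ 96 / 1000) (hd : dom2 k1 k2) : Goal2 T k1 k2 := by
  rcases le_total (-(450 / 1000)) k2 with h | h
  · exact goal2_near T0 T1 hd h
  · exact goal2_far T0 T1 hd h

end RC

theorem c2 : ∀ T k1 k2 : ℝ, 10 / 1000 ≤ T → T ≤ 96 / 1000 → dom2 k1 k2 → Goal2 T k1 k2 :=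
  fun _ _ _ T0 T1 hd => RC.goal2 (by linarith only [T0]) T1 hd

theorem c32 : ∀ T k1 k2 : ℝ, -(1 / 1000) ≤ T → T ≤ 58 / 1000 → dom2 k1 k2 → -(16 / 100) ≤ k2 →
    Goal2 T k1 k2 :=
  fun _ _ _ T0 T1 hd _ => RC.goal2 T0 (by linarith only [T1]) hd

end ZD

end Pool.Agent.Work.MP_b30479_gt.G2
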