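import Pool.Agent.Work.MP_b30479_gt.G2.ZRcT
import Pool.Agent.Work.MP_b30479_gt.G2.TE3a

/-!
# Modes at rings, rows `C`: the other variable of a region with three crossings
-/

namespace Pool.Agent.Work.MP_b30479_gt.G2

open VOL NumU

namespace ZD

namespace RC

open NumI (V) in
theorem r3a : chkT [g1 u0 112 (.q 95 1000), w1] 40
    8
    [V.of 1000 (-1) 58 0, V.of 1000 200 300 0, V.of 1000 (-160) 0 0] = true := by decide +kernel

open NumI (V) in
theorem r3b : chkT [g1 u0 112 (.add (.q 95 1000) (.mul (.q 85 100) (.var 2))), w2] 40
    898460102371886855910908305770498595513897829819167268469177716866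
    [V.of 1000 (-1) 58 0, V.of 1000 200 300 0, V.of 1000 0 160 0] = true := by decide +kernel

open NumI (V) in
theorem r3c : chkT [g1 u0 112 (.q 245 1000)] 40
    156907706877460644369
    [V.of 1000 (-1) 58 0, V.of 1000 300 700 0, V.of 1000 (-160) 160 0] = true := by decide +kernel

open NumI (V) in
theorem r3d : chkT [g1 u0 112 (.q 145 1000)] 40
    44185873214980796802350699595794465
    [V.of 1000 (-1) 58 0, V.of 1000 700 790 0, V.of 1000 (-160) 0 0] = true := by decide +kernel

open NumI (V) in
theorem r3e : chkT [g1 u0 112 (.add (.q 145 1000) (.mul (.q 19 10) (.var 2)))] 40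
    2401883730223489
    [V.of 1000 (-1) 58 0, V.of 1000 700 790 0, V.of 1000 0 160 0] = true := by decide +kernel

open NumI (V) in
theorem r3f : chkT [g1 sp 112 (.q 145 1000), g1 sm 112 (.q 145 1000)] 40
    9
    [V.of 1000 (-1) 58 0, V.of 1000 790 810 0, V.of 1000 (-160) 0 0] = true := by decide +kernel

open NumI (V) in
theorem r3g : chkT [g1 sp 112 (.add (.q 145 1000) (.mul (.q 19 10) (.var 2))), g1 sm 112 (.add (.q 145 1000) (.mul (.q 19 10) (.var 2)))] 40
    8
    [V.of 1000 (-1) 58 0, V.of 1000 790 810 0, V.of 1000 0 160 0] = true := by decide +kernel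

open NumI (V) in
theorem r3h : chkT [g1 u1p 112 (.q 145 1000), g1 u1m 112 (.q 145 1000), v1] 40
    1587850374609687333215328946200646580546224453661808474844952123002220514147054658178528656377260098195819522706075961675556311325589250321
    [V.of 1000 (-1) 58 0, V.of 1000 810 1000 0, V.of 1000 (-160) 0 0] = true := by decide +kernel

open NumI (V) in
theorem r3i : chkT [g1 u1p 112 (.add (.q 145 1000) (.mul (.q 19 10) (.var 2))), g1 u1m 112 (.add (.q 145 1000) (.mul (.q 19 10) (.var 2))), v2] 40
    2640381504311281424038764817
    [V.of 1000 (-1) 58 0, V.of 1000 810 1000 0, V.of 1000 0 160 0] = true := by decide +kernel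

open NumI (V) in
theorem r3j : chkT [g3 u0 112 uk] 40
    743347038606525448610396125091659914944897
    [V.of 1000 (-1) 58 0, V.of 1000 500 790 0, V.of 1000 (-160) 160 0] = true := by decide +kernel

open NumI (V) in
theorem r3k : chkT [g3 sp 112 uk, g3 sm 112 uk] 40
    2194
    [V.of 1000 (-1) 58 0, V.of 1000 790 810 0, V.of 1000 (-160) 160 0] = true := by decide +kernel

open NumI (V) in
theorem r3l : chkT [g3 u1p 112 uk, g3 u1m 112 uk, v1, v2] 40
    369621863801656197181777185364940701299084449122435176353993131728382032008567506081417788854184352167942130915277691784488165649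
    [V.of 1000 (-1) 58 0, V.of 1000 810 980 0, V.of 1000 (-160) 160 0] = true := by decide +kernel

open NumI (V) in
theorem r3m : chkT [g3 u1p 112 qm, g3 u1m 112 qm, v1] 40
    2448
    [V.of 1000 (-1) 58 0, V.of 1000 980 1000 0, V.of 1000 (-160) 0 0] = true := by decide +kernel

open NumI (V) in
theorem r3n : chkT [g3 u1p 112 qp, g3 u1m 112 qp, v2] 40
    8
    [V.of 1000 (-1) 58 0, V.of 1000 980 1000 0, V.of 1000 0 160 0] = true := by decide +kernel

variable {T k1 k2 u t : ℝ}

/-- the value at the sum from below, near `1` -/
theorem lo62 (h0 : 79 / 100 ≤ k1) (h1 : k1 ≤ 81 / 100) (hy : |T + k2| ≤ 46 / 100) :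
    sp.val [T, k1, k2] ≤ uu (2 / 10 + k1) (T + k2) ∧
      sm.val [T, k1, k2] ≤ uu (2 / 10 + k1) (T + k2) := by
  have hp := Real.pi_pos
  have h : Real.pi / 2 * |T + k2| - 62 / 1000 ≤ uu (2 / 10 + k1) (T + k2) := by
    rcases le_total k1 (80 / 100) with h2 | h2
    · have := uu_left_one (a := 2 / 10 + k1) (t := T + k2) (by linarith only [h2]) hy
      linarith only [h0, this]
    · have a1 := TL.uu_near_zero (x := 2 / 10 + k1 - 1) (Y := T + k2) (by linarith only [h2]) (by linarith only [h1])
      have a2 := uu_add_one (2 / 10 + k1 - 1) (T + k2)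
      rw [sub_add_cancel] at a2
      have a3 := uu002
      rw [a2]
      linarith only [a1, a3]
  have a1 := mul_le_mul_of_nonneg_left (le_abs_self (T + k2)) (by positivity : 0 ≤ Real.pi / 2)
  have a2 := mul_le_mul_of_nonneg_left (neg_le_abs (T + k2)) (by positivity : 0 ≤ Real.pi / 2)
  simp only [sp, sm, E.val, NumI.lkR]
  push_cast
  constructor <;> linarith only [h, a1, a2]

/-- to the right of `1` -/
theorem lo_right : u1p.val [T, k1, k2] ≤ uu (2 / 10 + k1) (T + k2) ∧
    u1m.val [T, k1, k2] ≤ uu (2 / 10 + k1) (T + k2) := by
  have hp := Real.pi_pos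
  have a := uu_add_one (k1 - 8 / 10) (T + k2)
  rw [show k1 - 8 / 10 + 1 = 2 / 10 + k1 by ring] at a
  have a1 := mul_le_mul_of_nonneg_left (le_abs_self (T + k2)) hp.le
  have a2 := mul_le_mul_of_nonneg_left (neg_le_abs (T + k2)) hp.le
  simp only [u1p, u1m, E.val, NumI.lkR]
  push_cast
  rw [a]
  constructor <;> linarith only [a1, a2]

/-- the value at `k` from above, near `1` -/
theorem hi62 (h0 : 98 / 100 ≤ k1) (h1 : k1 ≤ 1) :
    (0 ≤ k2 → uu k1 k2 ≤ qp.val [T, k1, k2]) ∧ (k2 ≤ 0 → uu k1 k2 ≤ qm.val [T, k1, k2]) := by
  have h := TL.uu_near_one (x := k1) (Y := k2) h0 h1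
  have a3 := uu002
  simp only [qp, qm, E.val, NumI.lkR]
  push_cast
  constructor
  · intro h2
    rw [abs_of_nonneg h2] at h
    linarith only [h, a3]
  · intro h2
    rw [abs_of_nonpos h2] at h
    linarith only [h, a3]

/-- both goals as differences -/
theorem Goal3_of {m : ℝ} (hm : mA3 k1 k2 ≤ m)
    (h1 : 0 < s1 T k1 k2 (uu (2 / 10 + k1) (T + k2)) (112 / 1000) - cA1 k1 k2 -
      (45 / 1000 + m))
    (h2 : 1 / 2 ≤ k1 →
      0 < s1 T k1 k2 (uu (2 / 10 + k1) (T + k2)) (112 / 1000) - uu k1 k2 - 1 / 1000) :
    Goal3 T k1 k2 := by
  unfold Goal3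
  rw [gD1_eq]
  constructor
  · linarith only [hm, h1]
  · intro h
    have := h2 h
    unfold oD1
    linarith only [this]

/-- the second goal -/
theorem goal3b (T0 : -(1 / 1000) ≤ T) (T1 : T ≤ 58 / 1000) (hd : dom3 k1 k2) (hk : 1 / 2 ≤ k1) :
    0 < s1 T k1 k2 (uu (2 / 10 + k1) (T + k2)) (112 / 1000) - uu k1 k2 - 1 / 1000 := by
  obtain ⟨d0, d1, d2, d3, d4⟩ := hd
  rw [abs_le] at d2 d3 d4
  obtain ⟨f1, f2⟩ := d2
  obtain ⟨f5, f6⟩ := d4
  have hy : |T + k2| ≤ 46 / 100 := by rw [abs_le]; constructor <;> linarith only [T0, f1, T1, f2]
  rcases le_total k1 (79 / 100) with h | h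
  · obtain ⟨e, he, hp⟩ := chkT3 r3j (by norm_num) (x := T) (y := k1) (z := k2)
      (by push_cast; linarith only [T0]) (by push_cast; linarith only [T1]) (by push_cast; linarith only [hk])
      (by push_cast; linarith only [h]) (by push_cast; linarith only [f1]) (by push_cast; linarith only [f2])
    rw [List.mem_singleton.1 he, g3_val, u0_val, uk_val] at hp
    push_cast at hp
    exact hp
  rcases le_total k1 (81 / 100) with h' | h'
  · obtain ⟨b1, b2⟩ := lo62 (T := T) (k2 := k2) h h' hy
    obtain ⟨e, he, hp⟩ := chkT3 r3k (by norm_num) (x := T) (y := k1) (z := k2)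
      (by push_cast; linarith only [T0]) (by push_cast; linarith only [T1]) (by push_cast; linarith only [h])
      (by push_cast; linarith only [h']) (by push_cast; linarith only [f1]) (by push_cast; linarith only [f2])
    simp only [List.mem_cons, List.not_mem_nil, or_false] at he
    rcases he with rfl | rfl
    · rw [g3_val, uk_val] at hp
      have := s1_mono (T := T) (k1 := k1) (k2 := k2) (θ := 112 / 1000) b1
      push_cast at hp
      linarith only [this, hp]
    · rw [g3_val, uk_val] at hp
      have := s1_mono (T := T) (k1 := k1) (k2 := k2) (θ := 112 / 1000) b2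
      push_cast at hp
      linarith only [this, hp]
  obtain ⟨b1, b2⟩ := lo_right (T := T) (k1 := k1) (k2 := k2)
  have c1 := s1_mono (T := T) (k1 := k1) (k2 := k2) (θ := 112 / 1000) b1
  have c2 := s1_mono (T := T) (k1 := k1) (k2 := k2) (θ := 112 / 1000) b2
  rcases le_total k1 (98 / 100) with h'' | h''
  · obtain ⟨e, he, hp⟩ := chkT3 r3l (by norm_num) (x := T) (y := k1) (z := k2)
      (by push_cast; linarith only [T0]) (by push_cast; linarith only [T1]) (by push_cast; linarith only [h'])
      (by push_cast; linarith only [h'']) (by push_cast; linarith only [f1]) (by push_cast; linarith only [f2])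
    simp only [List.mem_cons, List.not_mem_nil, or_false] at he
    rcases he with rfl | rfl | rfl | rfl
    · rw [g3_val, uk_val] at hp
      push_cast at hp
      linarith only [c1, hp]
    · rw [g3_val, uk_val] at hp
      push_cast at hp
      linarith only [c2, hp]
    · exfalso
      simp only [v1, E.val, NumI.lkR] at hp
      push_cast at hp
      linarith only [f5, hp]
    · exfalso
      simp only [v2, E.val, NumI.lkR] at hp
      push_cast at hp
      linarith only [f6, hp]
  · obtain ⟨q1, q2⟩ := hi62 (T := T) (k2 := k2) h'' d1
    rcases le_total k2 0 with hz | hz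
    · have q := q2 hz
      obtain ⟨e, he, hp⟩ := chkT3 r3m (by norm_num) (x := T) (y := k1) (z := k2)
        (by push_cast; linarith only [T0]) (by push_cast; linarith only [T1]) (by push_cast; linarith only [h''])
        (by push_cast; linarith only [d1]) (by push_cast; linarith only [f5, h'']) (by push_cast; linarith only [hz])
      simp only [List.mem_cons, List.not_mem_nil, or_false] at he
      rcases he with rfl | rfl | rfl
      · rw [g3_val] at hp
        push_cast at hp
        linarith only [c1, q, hp]
      · rw [g3_val] at hp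
        push_cast at hp
        linarith only [c2, q, hp]
      · exfalso
        simp only [v1, E.val, NumI.lkR] at hp
        push_cast at hp
        linarith only [f5, hp]
    · have q := q1 hz
      obtain ⟨e, he, hp⟩ := chkT3 r3n (by norm_num) (x := T) (y := k1) (z := k2)
        (by push_cast; linarith only [T0]) (by push_cast; linarith only [T1]) (by push_cast; linarith only [h''])
        (by push_cast; linarith only [d1]) (by push_cast; linarith only [hz]) (by push_cast; linarith only [f2])
      simp only [List.mem_cons, List.not_mem_nil, or_false] at he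
      rcases he with rfl | rfl | rfl
      · rw [g3_val] at hp
        push_cast at hp
        linarith only [c1, q, hp]
      · rw [g3_val] at hp
        push_cast at hp
        linarith only [c2, q, hp]
      · exfalso
        simp only [v2, E.val, NumI.lkR] at hp
        push_cast at hp
        linarith only [f6, hp]

theorem goal3 (T0 : -(1 / 1000) ≤ T) (T1 : T ≤ 58 / 1000) (hd : dom3 k1 k2) : Goal3 T k1 k2 := by
  have hb := goal3b T0 T1 hd
  obtain ⟨d0, d1, d2, d3, d4⟩ := hd
  rw [abs_le] at d2 d3 d4
  obtain ⟨f1, f2⟩ := d2
  obtain ⟨f3, f4⟩ := d3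
  obtain ⟨f5, f6⟩ := d4
  have hy : |T + k2| ≤ 46 / 100 := by rw [abs_le]; constructor <;> linarith only [T0, f1, T1, f2]
  rcases le_or_gt k1 (3 / 10) with h | h
  · rcases le_total k2 0 with hz | hz
    · have hm : mA3 k1 k2 ≤ 50 / 1000 := by
        unfold mA3
        rw [if_pos h, max_eq_right hz]
        norm_num
      refine Goal3_of hm ?_ hb
      obtain ⟨e, he, hp⟩ := chkT3 r3a (by norm_num) (x := T) (y := k1) (z := k2)
        (by push_cast; linarith only [T0]) (by push_cast; linarith only [T1]) (by push_cast; linarith only [d0])
        (by push_cast; linarith only [h]) (by push_cast; linarith only [f1]) (by push_cast; linarith only [hz])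
      simp only [List.mem_cons, List.not_mem_nil, or_false] at he
      rcases he with rfl | rfl
      · rw [g1_val, u0_val] at hp
        simp only [E.val] at hp
        push_cast at hp
        linarith only [hp]
      · exfalso
        simp only [w1, E.val, NumI.lkR] at hp
        push_cast at hp
        linarith only [f3, hp]
    · have hm : mA3 k1 k2 ≤ 50 / 1000 + 85 / 100 * k2 := by
        unfold mA3
        rw [if_pos h, max_eq_left hz]
        linarith only []
      refine Goal3_of hm ?_ hb
      obtain ⟨e, he, hp⟩ := chkT3 r3b (by norm_num) (x := T) (y := k1) (z := k2)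
        (by push_cast; linarith only [T0]) (by push_cast; linarith only [T1]) (by push_cast; linarith only [d0])
        (by push_cast; linarith only [h]) (by push_cast; linarith only [hz]) (by push_cast; linarith only [f2])
      simp only [List.mem_cons, List.not_mem_nil, or_false] at he
      rcases he with rfl | rfl
      · rw [g1_val, u0_val] at hp
        simp only [E.val, NumI.lkR] at hp
        push_cast at hp
        linarith only [hp]
      · exfalso
        simp only [w2, E.val, NumI.lkR] at hp
        push_cast at hp
        linarith only [f4, hp]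
  rcases le_or_gt k1 (7 / 10) with h' | h'
  · have hm : mA3 k1 k2 ≤ 200 / 1000 := by
      unfold mA3
      rw [if_neg (not_le.2 h), if_pos h']
      norm_num
    refine Goal3_of hm ?_ hb
    obtain ⟨e, he, hp⟩ := chkT3 r3c (by norm_num) (x := T) (y := k1) (z := k2)
      (by push_cast; linarith only [T0]) (by push_cast; linarith only [T1]) (by push_cast; linarith only [h])
      (by push_cast; linarith only [h']) (by push_cast; linarith only [f1]) (by push_cast; linarith only [f2])
    rw [List.mem_singleton.1 he, g1_val, u0_val] at hp
    simp only [E.val] at hp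
    push_cast at hp
    linarith only [hp]
  have hmz : k2 ≤ 0 → mA3 k1 k2 ≤ 100 / 1000 := by
    intro hz
    unfold mA3
    rw [if_neg (not_le.2 h), if_neg (not_le.2 h'), max_eq_right hz]
    norm_num
  have hmp : 0 ≤ k2 → mA3 k1 k2 ≤ 100 / 1000 + 19 / 10 * k2 := by
    intro hz
    unfold mA3
    rw [if_neg (not_le.2 h), if_neg (not_le.2 h'), max_eq_left hz]
    linarith only []
  rcases le_total k1 (79 / 100) with g | g
  · rcases le_total k2 0 with hz | hz
    · refine Goal3_of (hmz hz) ?_ hb
      obtain ⟨e, he, hp⟩ := chkT3 r3d (by norm_num) (x := T) (y := k1) (z := k2)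
        (by push_cast; linarith only [T0]) (by push_cast; linarith only [T1]) (by push_cast; linarith only [h'])
        (by push_cast; linarith only [g]) (by push_cast; linarith only [f1]) (by push_cast; linarith only [hz])
      rw [List.mem_singleton.1 he, g1_val, u0_val] at hp
      simp only [E.val] at hp
      push_cast at hp
      linarith only [hp]
    · refine Goal3_of (hmp hz) ?_ hb
      obtain ⟨e, he, hp⟩ := chkT3 r3e (by norm_num) (x := T) (y := k1) (z := k2)
        (by push_cast; linarith only [T0]) (by push_cast; linarith only [T1]) (by push_cast; linarith only [h'])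
        (by push_cast; linarith only [g]) (by push_cast; linarith only [hz]) (by push_cast; linarith only [f2])
      rw [List.mem_singleton.1 he, g1_val, u0_val] at hp
      simp only [E.val, NumI.lkR] at hp
      push_cast at hp
      linarith only [hp]
  rcases le_total k1 (81 / 100) with g' | g'
  · obtain ⟨b1, b2⟩ := lo62 (T := T) (k2 := k2) g g' hy
    have c1 := s1_mono (T := T) (k1 := k1) (k2 := k2) (θ := 112 / 1000) b1
    have c2 := s1_mono (T := T) (k1 := k1) (k2 := k2) (θ := 112 / 1000) b2
    rcases le_total k2 0 with hz | hz
    · refine Goal3_of (hmz hz) ?_ hb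
      obtain ⟨e, he, hp⟩ := chkT3 r3f (by norm_num) (x := T) (y := k1) (z := k2)
        (by push_cast; linarith only [T0]) (by push_cast; linarith only [T1]) (by push_cast; linarith only [g])
        (by push_cast; linarith only [g']) (by push_cast; linarith only [f1]) (by push_cast; linarith only [hz])
      simp only [List.mem_cons, List.not_mem_nil, or_false] at he
      rcases he with rfl | rfl
      · rw [g1_val] at hp
        generalize sp.val [T, k1, k2] = q at *
        simp only [E.val] at hp
        push_cast at hp
        linarith only [c1, hp]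
      · rw [g1_val] at hp
        generalize sm.val [T, k1, k2] = q at *
        simp only [E.val] at hp
        push_cast at hp
        linarith only [c2, hp]
    · refine Goal3_of (hmp hz) ?_ hb
      obtain ⟨e, he, hp⟩ := chkT3 r3g (by norm_num) (x := T) (y := k1) (z := k2)
        (by push_cast; linarith only [T0]) (by push_cast; linarith only [T1]) (by push_cast; linarith only [g])
        (by push_cast; linarith only [g']) (by push_cast; linarith only [hz]) (by push_cast; linarith only [f2])
      simp only [List.mem_cons, List.not_mem_nil, or_false] at he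
      rcases he with rfl | rfl
      · rw [g1_val] at hp
        generalize sp.val [T, k1, k2] = q at *
        simp only [E.val, NumI.lkR] at hp
        push_cast at hp
        linarith only [c1, hp]
      · rw [g1_val] at hp
        generalize sm.val [T, k1, k2] = q at *
        simp only [E.val, NumI.lkR] at hp
        push_cast at hp
        linarith only [c2, hp]
  obtain ⟨b1, b2⟩ := lo_right (T := T) (k1 := k1) (k2 := k2)
  have c1 := s1_mono (T := T) (k1 := k1) (k2 := k2) (θ := 112 / 1000) b1
  have c2 := s1_mono (T := T) (k1 := k1) (k2 := k2) (θ := 112 / 1000) b2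
  rcases le_total k2 0 with hz | hz
  · refine Goal3_of (hmz hz) ?_ hb
    obtain ⟨e, he, hp⟩ := chkT3 r3h (by norm_num) (x := T) (y := k1) (z := k2)
      (by push_cast; linarith only [T0]) (by push_cast; linarith only [T1]) (by push_cast; linarith only [g'])
      (by push_cast; linarith only [d1]) (by push_cast; linarith only [f1]) (by push_cast; linarith only [hz])
    simp only [List.mem_cons, List.not_mem_nil, or_false] at he
    rcases he with rfl | rfl | rfl
    · rw [g1_val] at hp
      generalize u1p.val [T, k1, k2] = q at *
      simp only [E.val] at hp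
      push_cast at hp
      linarith only [c1, hp]
    · rw [g1_val] at hp
      generalize u1m.val [T, k1, k2] = q at *
      simp only [E.val] at hp
      push_cast at hp
      linarith only [c2, hp]
    · exfalso
      simp only [v1, E.val, NumI.lkR] at hp
      push_cast at hp
      linarith only [f5, hp]
  · refine Goal3_of (hmp hz) ?_ hb
    obtain ⟨e, he, hp⟩ := chkT3 r3i (by norm_num) (x := T) (y := k1) (z := k2)
      (by push_cast; linarith only [T0]) (by push_cast; linarith only [T1]) (by push_cast; linarith only [g'])
      (by push_cast; linarith only [d1]) (by push_cast; linarith only [hz]) (by push_cast; linarith only [f2])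
    simp only [List.mem_cons, List.not_mem_nil, or_false] at he
    rcases he with rfl | rfl | rfl
    · rw [g1_val] at hp
      generalize u1p.val [T, k1, k2] = q at *
      simp only [E.val, NumI.lkR] at hp
      push_cast at hp
      linarith only [c1, hp]
    · rw [g1_val] at hp
      generalize u1m.val [T, k1, k2] = q at *
      simp only [E.val, NumI.lkR] at hp
      push_cast at hp
      linarith only [c2, hp]
    · exfalso
      simp only [v2, E.val, NumI.lkR] at hp
      push_cast at hp
      linarith only [f6, hp]

end RC

theorem c3 : ∀ T k1 k2 : ℝ, -(1 / 1000) ≤ T → T ≤ 58 / 1000 → dom3 k1 k2 → Goal3 T k1 k2 :=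
  fun _ _ _ T0 T1 hd => RC.goal3 T0 T1 hd

end ZD

end Pool.Agent.Work.MP_b30479_gt.G2
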