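import Pool.Agent.Work.MP_b30479_gt.G2.ZRcE
import Pool.Agent.Work.MP_b30479_gt.G2.ZRcF2
import Pool.Agent.Work.MP_b30479_gt.G2.ZRcF3
import Pool.Agent.Work.MP_b30479_gt.G2.ZRc0

/-!
# Modes at rings, rows `C`
-/

namespace Pool.Agent.Work.MP_b30479_gt.G2

namespace ZD

theorem rowsC : RowsC where
  c1m := fun _ _ _ _ h1 h2 h3 h4 _ h6 h7 hR => c1m h1 h2 h3 h4 h6 h7 hR
  c1d := fun _ _ _ h1 h2 h3 h4 hR => c1d h1 h2 h3 h4 hR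
  c1u := fun _ _ _ h1 h2 h3 h4 hR => c1u h1 h2 h3 h4 hR
  c2m := fun _ _ _ _ h1 h2 h3 h4 h5 _ h7 h8 hR => c2m h1 h2 h3 h4 h5 h7 h8 hR
  c2d := fun _ _ _ h1 h2 h3 h4 hR => c2d h1 h2 h3 h4 hR
  c2u := fun _ _ _ h1 h2 h3 h4 hR => c2u h1 h2 h3 h4 hR
  cem := cem
  ced := ced
  ceu := ceu
  cem0 := cem0
  ced0 := ced0
  c2 := c2
  c32 := c32
  c3 := c3
  c0 := c0

end ZD

end Pool.Agent.Work.MP_b30479_gt.G2
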