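import Pool.Agent.Work.MP_b30479_gt.G2.ZRe1C

/-!
# The loss at a hinge next to a ring: right
-/

set_option linter.unusedSimpArgs false
set_option linter.unusedVariables false

namespace Pool.Agent.Work.MP_b30479_gt.G2

open VOL NumU

namespace ZD

theorem e1_m {x y s r : ℝ} (x0 : 0 ≤ x) (x1 : x ≤ 65 / 100) (y0 : -(158 / 1000) ≤ y)
    (y1 : y ≤ 1 / 1000) (hy : y ≤ 0 ∨ x ≤ 60 / 100) (c0 : -y ≤ 545 / 1000 * (65 / 100 - x))
    (b0 : -y ≤ 158 / 100 * x) (s0 : 0 ≤ s) (s1 : s ≤ 1 / 5) (r0 : 0 ≤ r)
    (r1 : r ≤ 1045 / 10000) : uu (x + s) (y - 4 * (r * s)) + uu (1 + x - s) (y + 4 * (r * s)) +
      (-uu (x + 225 / 1000) (y + 9 / 10 * r) + -uu (x + 775 / 1000) (y - 9 / 10 * r)) ≤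
      (958 / 10000 - 85 / 100 * r) := by
  have hrs : 0 ≤ r * s := mul_nonneg r0 s0
  rcases le_or_gt s (200 / 10000) with v | v
  · rcases le_or_gt x (1500 / 10000) with w | w
    · exact zoneAm x0 w y0 y1 b0 s0 v r0 r1
    rcases le_or_gt (y + 4 * (r * s)) 0 with f | f
    · rcases le_or_gt x (1850 / 10000) with g | g
      · have T := e1_mD4X1nA (x := x) (y := y) (s := s) (r := r) (by linarith only [w]) (by linarith only [g]) (by linarith only [y0]) (by linarith only [hrs, f]) (by linarith only [s0]) (by linarith only [v]) (by linarith only [r0]) (by linarith only [r1]) (by linarith only [f])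
        have t2 := d4n (x := x) (s := s) (b := (y + 4 * (r * s))) (by linarith only [f])
        linarith only [T, t2]
      · rcases le_or_gt x (2250 / 10000) with g | g
        · have T := e1_mD4X2nA (x := x) (y := y) (s := s) (r := r) (by linarith) (by linarith only [g]) (by linarith only [y0]) (by linarith only [hrs, f]) (by linarith only [s0]) (by linarith only [v]) (by linarith only [r0]) (by linarith only [r1]) (by linarith only [f])
          have t2 := d4n (x := x) (s := s) (b := (y + 4 * (r * s))) (by linarith only [f])
          have u0 := x2 (x := x) (c := (y - 9 / 10 * r)) (c' := (y - 9 / 10 * r)) (δ := (400 / 10000)) (K := (25 / 1)) (le_abs_self _) (by norm_num) (by norm_num) (by norm_num) (by linarith only [g]) (by linarith)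
          have u1 := x2 (x := x) (c := (y - 9 / 10 * r)) (c' := (-(y - 9 / 10 * r))) (δ := (400 / 10000)) (K := (25 / 1)) (neg_le_abs _) (by norm_num) (by norm_num) (by norm_num) (by linarith only [g]) (by linarith)
          rcases T with T | T <;> linarith only [t2, u0, T, u1]
        · rcases le_or_gt x (2650 / 10000) with g | g
          · have T := e1_mD4X3nA (x := x) (y := y) (s := s) (r := r) (by linarith) (by linarith only [g]) (by linarith only [y0]) (by linarith only [hrs, f]) (by linarith only [s0]) (by linarith only [v]) (by linarith only [r0]) (by linarith only [r1]) (by linarith only [f])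
            have t2 := d4n (x := x) (s := s) (b := (y + 4 * (r * s))) (by linarith only [f])
            have u0 := x3 (x := x) (c := (y - 9 / 10 * r)) (c' := (y - 9 / 10 * r)) (δ := (400 / 10000)) (le_abs_self _) (by norm_num) (by norm_num) (by linarith) (by linarith only [g])
            have u1 := x3 (x := x) (c := (y - 9 / 10 * r)) (c' := (-(y - 9 / 10 * r))) (δ := (400 / 10000)) (neg_le_abs _) (by norm_num) (by norm_num) (by linarith) (by linarith only [g])
            rcases T with T | T <;> linarith only [t2, u0, T, u1]
          · rcases le_or_gt x (6000 / 10000) with g | g
            · have T := e1_mD4X4nA (x := x) (y := y) (s := s) (r := r) (by linarith) (by linarith only [g]) (by linarith only [y0]) (by linarith only [hrs, f]) (by linarith only [s0]) (by linarith only [v]) (by linarith only [r0]) (by linarith only [r1]) (by linarith only [f]) (by linarith only [c0])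
              have t2 := d4n (x := x) (s := s) (b := (y + 4 * (r * s))) (by linarith only [f])
              have u0 := x4 (x := x) (c := (y - 9 / 10 * r)) (c' := (y - 9 / 10 * r)) (le_abs_self _)
              have u1 := x4 (x := x) (c := (y - 9 / 10 * r)) (c' := (-(y - 9 / 10 * r))) (neg_le_abs _)
              rcases T with T | T <;> linarith only [t2, u0, T, u1]
            · have y3 : y ≤ 0 := by
                rcases hy with h | h
                · exact h
                · linarith only [g, h]
              have T := e1_mD4X4nZ (x := x) (y := y) (s := s) (r := r) (by linarith only [g]) (by linarith only [x1]) (by linarith only [x1, c0, g]) (by linarith only [hrs, f]) (by linarith only [s0]) (by linarith only [v]) (by linarith only [r0]) (by linarith only [r1]) (by linarith only [f]) (by linarith only [c0])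
              have t2 := d4n (x := x) (s := s) (b := (y + 4 * (r * s))) (by linarith only [f])
              have u0 := x4 (x := x) (c := (y - 9 / 10 * r)) (c' := (y - 9 / 10 * r)) (le_abs_self _)
              have u1 := x4 (x := x) (c := (y - 9 / 10 * r)) (c' := (-(y - 9 / 10 * r))) (neg_le_abs _)
              rcases T with T | T <;> linarith only [t2, u0, T, u1]
    · rcases le_or_gt x (1850 / 10000) with g | g
      · have T := e1_mD4X1pA (x := x) (y := y) (s := s) (r := r) (by linarith only [w]) (by linarith only [g]) (by linarith only [y0]) (by linarith only [y1]) (by linarith only [s0]) (by linarith only [v]) (by linarith only [r0]) (by linarith only [r1]) (by linarith only [f])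
        have t2 := d4p (x := x) (s := s) (b := (y + 4 * (r * s))) (by linarith only [f])
        linarith only [T, t2]
      · rcases le_or_gt x (2250 / 10000) with g | g
        · have T := e1_mD4X2pA (x := x) (y := y) (s := s) (r := r) (by linarith) (by linarith only [g]) (by linarith only [y0]) (by linarith only [y1]) (by linarith only [s0]) (by linarith only [v]) (by linarith only [r0]) (by linarith only [r1]) (by linarith only [f])
          have t2 := d4p (x := x) (s := s) (b := (y + 4 * (r * s))) (by linarith only [f])
          have u0 := x2 (x := x) (c := (y - 9 / 10 * r)) (c' := (y - 9 / 10 * r)) (δ := (400 / 10000)) (K := (25 / 1)) (le_abs_self _) (by norm_num) (by norm_num) (by norm_num) (by linarith only [g]) (by linarith)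
          have u1 := x2 (x := x) (c := (y - 9 / 10 * r)) (c' := (-(y - 9 / 10 * r))) (δ := (400 / 10000)) (K := (25 / 1)) (neg_le_abs _) (by norm_num) (by norm_num) (by norm_num) (by linarith only [g]) (by linarith)
          rcases T with T | T <;> linarith only [t2, u0, T, u1]
        · rcases le_or_gt x (2650 / 10000) with g | g
          · have T := e1_mD4X3pA (x := x) (y := y) (s := s) (r := r) (by linarith) (by linarith only [g]) (by linarith only [y0]) (by linarith only [y1]) (by linarith only [s0]) (by linarith only [v]) (by linarith only [r0]) (by linarith only [r1]) (by linarith only [f])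
            have t2 := d4p (x := x) (s := s) (b := (y + 4 * (r * s))) (by linarith only [f])
            have u0 := x3 (x := x) (c := (y - 9 / 10 * r)) (c' := (y - 9 / 10 * r)) (δ := (400 / 10000)) (le_abs_self _) (by norm_num) (by norm_num) (by linarith) (by linarith only [g])
            have u1 := x3 (x := x) (c := (y - 9 / 10 * r)) (c' := (-(y - 9 / 10 * r))) (δ := (400 / 10000)) (neg_le_abs _) (by norm_num) (by norm_num) (by linarith) (by linarith only [g])
            rcases T with T | T <;> linarith only [t2, u0, T, u1]
          · rcases le_or_gt x (6000 / 10000) with g | g
            · have T := e1_mD4X4pA (x := x) (y := y) (s := s) (r := r) (by linarith) (by linarith only [g]) (by linarith only [y0]) (by linarith only [y1]) (by linarith only [s0]) (by linarith only [v]) (by linarith only [r0]) (by linarith only [r1]) (by linarith only [f]) (by linarith only [c0])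
              have t2 := d4p (x := x) (s := s) (b := (y + 4 * (r * s))) (by linarith only [f])
              have u0 := x4 (x := x) (c := (y - 9 / 10 * r)) (c' := (y - 9 / 10 * r)) (le_abs_self _)
              have u1 := x4 (x := x) (c := (y - 9 / 10 * r)) (c' := (-(y - 9 / 10 * r))) (neg_le_abs _)
              rcases T with T | T <;> linarith only [t2, u0, T, u1]
            · have y3 : y ≤ 0 := by
                rcases hy with h | h
                · exact h
                · linarith only [g, h]
              have T := e1_mD4X4pW (x := x) (y := y) (s := s) (r := r) (by linarith only [g]) (by linarith only [x1]) (by linarith only [x1, c0, g]) (by linarith only [y3]) (by linarith only [s0]) (by linarith only [s1]) (by linarith only [r0]) (by linarith only [r1]) (by linarith only [f]) (by linarith only [c0])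
              have t2 := d4p (x := x) (s := s) (b := (y + 4 * (r * s))) (by linarith only [f])
              have u0 := x4 (x := x) (c := (y - 9 / 10 * r)) (c' := (y - 9 / 10 * r)) (le_abs_self _)
              have u1 := x4 (x := x) (c := (y - 9 / 10 * r)) (c' := (-(y - 9 / 10 * r))) (neg_le_abs _)
              rcases T with T | T <;> linarith only [t2, u0, T, u1]
  rcases le_or_gt s (500 / 10000) with v' | v'
  · rcases le_or_gt (x - s) (-(200 / 10000)) with d | d
    · have T := e1_mD1X1B (x := x) (y := y) (s := s) (r := r) (by linarith only [x0]) (by linarith only [v', d]) (by linarith only [b0, v', d]) (by linarith only [y1]) (by linarith only [v]) (by linarith only [v']) (by linarith only [r0]) (by linarith only [r1]) (by linarith only [d]) (by linarith only [b0])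
      linarith only [T]
    rcases le_or_gt (x - s) 0 with d' | d'
    · have T := e1_mD2X1B (x := x) (y := y) (s := s) (r := r) (by linarith only [x0]) (by linarith only [v', d']) (by linarith only [b0, v', d']) (by linarith only [y1]) (by linarith only [v]) (by linarith only [v']) (by linarith only [r0]) (by linarith only [r1]) (by linarith only [d]) (by linarith only [d']) (by linarith only [b0])
      have t2 := d2 (x := x) (s := s) (b := (y + 4 * (r * s))) (δ := (200 / 10000)) (by norm_num) (by norm_num) (by linarith only [d]) (by linarith only [d'])
      linarith only [T, t2]
    rcases le_or_gt (x - s) (200 / 10000) with e | e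
    · rcases le_or_gt (y + 4 * (r * s)) 0 with f | f
      · have T := e1_mD3X1nB (x := x) (y := y) (s := s) (r := r) (by linarith only [v, d']) (by linarith only [v', e]) (by linarith only [b0, v', d', e]) (by linarith only [hrs, f]) (by linarith only [v]) (by linarith only [v']) (by linarith only [r0]) (by linarith only [r1]) (by linarith only [d']) (by linarith only [e]) (by linarith only [f]) (by linarith only [b0])
        have t2 := d3n (x := x) (s := s) (b := (y + 4 * (r * s))) (δ := (200 / 10000)) (K := (50 / 1)) (by linarith only [f]) (by norm_num) (by norm_num) (by norm_num) (by linarith only [d']) (by linarith only [e])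
        linarith only [T, t2]
      · have T := e1_mD3X1pB (x := x) (y := y) (s := s) (r := r) (by linarith only [v, d']) (by linarith only [v', e]) (by linarith only [b0, v', d', e]) (by linarith only [y1]) (by linarith only [v]) (by linarith only [v']) (by linarith only [r0]) (by linarith only [r1]) (by linarith only [d']) (by linarith only [e]) (by linarith only [f]) (by linarith only [b0])
        have t2 := d3p (x := x) (s := s) (b := (y + 4 * (r * s))) (δ := (200 / 10000)) (K := (50 / 1)) (by linarith only [f]) (by norm_num) (by norm_num) (by norm_num) (by linarith only [d']) (by linarith only [e])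
        linarith only [T, t2]
    rcases le_or_gt (y + 4 * (r * s)) 0 with f | f
    · rcases le_or_gt x (1850 / 10000) with g | g
      · have T := e1_mD4X1nB (x := x) (y := y) (s := s) (r := r) (by linarith only [v, e]) (by linarith only [g]) (by linarith only [y0]) (by linarith only [hrs, f]) (by linarith only [v]) (by linarith only [v']) (by linarith only [r0]) (by linarith only [r1]) (by linarith only [e]) (by linarith only [f]) (by linarith only [b0])
        have t2 := d4n (x := x) (s := s) (b := (y + 4 * (r * s))) (by linarith only [f])
        linarith only [T, t2]
      · rcases le_or_gt x (2250 / 10000) with g | g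
        · have T := e1_mD4X2nB (x := x) (y := y) (s := s) (r := r) (by linarith) (by linarith only [g]) (by linarith only [y0]) (by linarith only [hrs, f]) (by linarith only [v]) (by linarith only [v']) (by linarith only [r0]) (by linarith only [r1]) (by linarith only [f])
          have t2 := d4n (x := x) (s := s) (b := (y + 4 * (r * s))) (by linarith only [f])
          have u0 := x2 (x := x) (c := (y - 9 / 10 * r)) (c' := (y - 9 / 10 * r)) (δ := (400 / 10000)) (K := (25 / 1)) (le_abs_self _) (by norm_num) (by norm_num) (by norm_num) (by linarith only [g]) (by linarith)
          have u1 := x2 (x := x) (c := (y - 9 / 10 * r)) (c' := (-(y - 9 / 10 * r))) (δ := (400 / 10000)) (K := (25 / 1)) (neg_le_abs _) (by norm_num) (by norm_num) (by norm_num) (by linarith only [g]) (by linarith)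
          rcases T with T | T <;> linarith only [t2, u0, T, u1]
        · rcases le_or_gt x (2650 / 10000) with g | g
          · have T := e1_mD4X3nB (x := x) (y := y) (s := s) (r := r) (by linarith) (by linarith only [g]) (by linarith only [y0]) (by linarith only [hrs, f]) (by linarith only [v]) (by linarith only [v']) (by linarith only [r0]) (by linarith only [r1]) (by linarith only [f])
            have t2 := d4n (x := x) (s := s) (b := (y + 4 * (r * s))) (by linarith only [f])
            have u0 := x3 (x := x) (c := (y - 9 / 10 * r)) (c' := (y - 9 / 10 * r)) (δ := (400 / 10000)) (le_abs_self _) (by norm_num) (by norm_num) (by linarith) (by linarith only [g])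
            have u1 := x3 (x := x) (c := (y - 9 / 10 * r)) (c' := (-(y - 9 / 10 * r))) (δ := (400 / 10000)) (neg_le_abs _) (by norm_num) (by norm_num) (by linarith) (by linarith only [g])
            rcases T with T | T <;> linarith only [t2, u0, T, u1]
          · rcases le_or_gt x (6000 / 10000) with g | g
            · have T := e1_mD4X4nB (x := x) (y := y) (s := s) (r := r) (by linarith) (by linarith only [g]) (by linarith only [y0]) (by linarith only [hrs, f]) (by linarith only [v]) (by linarith only [v']) (by linarith only [r0]) (by linarith only [r1]) (by linarith only [f]) (by linarith only [c0])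
              have t2 := d4n (x := x) (s := s) (b := (y + 4 * (r * s))) (by linarith only [f])
              have u0 := x4 (x := x) (c := (y - 9 / 10 * r)) (c' := (y - 9 / 10 * r)) (le_abs_self _)
              have u1 := x4 (x := x) (c := (y - 9 / 10 * r)) (c' := (-(y - 9 / 10 * r))) (neg_le_abs _)
              rcases T with T | T <;> linarith only [t2, u0, T, u1]
            · have y3 : y ≤ 0 := by
                rcases hy with h | h
                · exact h
                · linarith only [g, h]
              have T := e1_mD4X4nY (x := x) (y := y) (s := s) (r := r) (by linarith only [g]) (by linarith only [x1]) (by linarith only [x1, c0, g]) (by linarith only [hrs, f]) (by linarith only [v]) (by linarith only [v']) (by linarith only [r0]) (by linarith only [r1]) (by linarith only [f]) (by linarith only [c0])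
              have t2 := d4n (x := x) (s := s) (b := (y + 4 * (r * s))) (by linarith only [f])
              have u0 := x4 (x := x) (c := (y - 9 / 10 * r)) (c' := (y - 9 / 10 * r)) (le_abs_self _)
              have u1 := x4 (x := x) (c := (y - 9 / 10 * r)) (c' := (-(y - 9 / 10 * r))) (neg_le_abs _)
              rcases T with T | T <;> linarith only [t2, u0, T, u1]
    · rcases le_or_gt x (1850 / 10000) with g | g
      · have T := e1_mD4X1pB (x := x) (y := y) (s := s) (r := r) (by linarith only [v, e]) (by linarith only [g]) (by linarith only [y0]) (by linarith only [y1]) (by linarith only [v]) (by linarith only [v']) (by linarith only [r0]) (by linarith only [r1]) (by linarith only [e]) (by linarith only [f]) (by linarith only [b0])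
        have t2 := d4p (x := x) (s := s) (b := (y + 4 * (r * s))) (by linarith only [f])
        linarith only [T, t2]
      · rcases le_or_gt x (2250 / 10000) with g | g
        · have T := e1_mD4X2pB (x := x) (y := y) (s := s) (r := r) (by linarith) (by linarith only [g]) (by linarith only [y0]) (by linarith only [y1]) (by linarith only [v]) (by linarith only [v']) (by linarith only [r0]) (by linarith only [r1]) (by linarith only [f])
          have t2 := d4p (x := x) (s := s) (b := (y + 4 * (r * s))) (by linarith only [f])
          have u0 := x2 (x := x) (c := (y - 9 / 10 * r)) (c' := (y - 9 / 10 * r)) (δ := (400 / 10000)) (K := (25 / 1)) (le_abs_self _) (by norm_num) (by norm_num) (by norm_num) (by linarith only [g]) (by linarith)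
          have u1 := x2 (x := x) (c := (y - 9 / 10 * r)) (c' := (-(y - 9 / 10 * r))) (δ := (400 / 10000)) (K := (25 / 1)) (neg_le_abs _) (by norm_num) (by norm_num) (by norm_num) (by linarith only [g]) (by linarith)
          rcases T with T | T <;> linarith only [t2, u0, T, u1]
        · rcases le_or_gt x (2650 / 10000) with g | g
          · have T := e1_mD4X3pB (x := x) (y := y) (s := s) (r := r) (by linarith) (by linarith only [g]) (by linarith only [y0]) (by linarith only [y1]) (by linarith only [v]) (by linarith only [v']) (by linarith only [r0]) (by linarith only [r1]) (by linarith only [f])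
            have t2 := d4p (x := x) (s := s) (b := (y + 4 * (r * s))) (by linarith only [f])
            have u0 := x3 (x := x) (c := (y - 9 / 10 * r)) (c' := (y - 9 / 10 * r)) (δ := (400 / 10000)) (le_abs_self _) (by norm_num) (by norm_num) (by linarith) (by linarith only [g])
            have u1 := x3 (x := x) (c := (y - 9 / 10 * r)) (c' := (-(y - 9 / 10 * r))) (δ := (400 / 10000)) (neg_le_abs _) (by norm_num) (by norm_num) (by linarith) (by linarith only [g])
            rcases T with T | T <;> linarith only [t2, u0, T, u1]
          · rcases le_or_gt x (6000 / 10000) with g | g
            · have T := e1_mD4X4pB (x := x) (y := y) (s := s) (r := r) (by linarith) (by linarith only [g]) (by linarith only [y0]) (by linarith only [y1]) (by linarith only [v]) (by linarith only [v']) (by linarith only [r0]) (by linarith only [r1]) (by linarith only [f]) (by linarith only [c0])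
              have t2 := d4p (x := x) (s := s) (b := (y + 4 * (r * s))) (by linarith only [f])
              have u0 := x4 (x := x) (c := (y - 9 / 10 * r)) (c' := (y - 9 / 10 * r)) (le_abs_self _)
              have u1 := x4 (x := x) (c := (y - 9 / 10 * r)) (c' := (-(y - 9 / 10 * r))) (neg_le_abs _)
              rcases T with T | T <;> linarith only [t2, u0, T, u1]
            · have y3 : y ≤ 0 := by
                rcases hy with h | h
                · exact h
                · linarith only [g, h]
              have T := e1_mD4X4pW (x := x) (y := y) (s := s) (r := r) (by linarith only [g]) (by linarith only [x1]) (by linarith only [x1, c0, g]) (by linarith only [y3]) (by linarith only [s0]) (by linarith only [x1, v', g]) (by linarith only [r0]) (by linarith only [r1]) (by linarith only [f]) (by linarith only [c0])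
              have t2 := d4p (x := x) (s := s) (b := (y + 4 * (r * s))) (by linarith only [f])
              have u0 := x4 (x := x) (c := (y - 9 / 10 * r)) (c' := (y - 9 / 10 * r)) (le_abs_self _)
              have u1 := x4 (x := x) (c := (y - 9 / 10 * r)) (c' := (-(y - 9 / 10 * r))) (neg_le_abs _)
              rcases T with T | T <;> linarith only [t2, u0, T, u1]
  rcases le_or_gt (x - s) (-(400 / 10000)) with d | d
  · have T := e1_mD1X1C (x := x) (y := y) (s := s) (r := r) (by linarith only [x0]) (by linarith only [s1, d]) (by linarith only [y0]) (by linarith only [y1]) (by linarith only [v']) (by linarith only [s1]) (by linarith only [r0]) (by linarith only [r1]) (by linarith only [d]) (by linarith only [b0])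
    linarith only [T]
  rcases le_or_gt (x - s) 0 with d' | d'
  · rcases le_or_gt x (1850 / 10000) with g | g
    · have T := e1_mD2X1C (x := x) (y := y) (s := s) (r := r) (by linarith only [v', d]) (by linarith only [g]) (by linarith only [y0]) (by linarith only [y1]) (by linarith only [v']) (by linarith only [s1]) (by linarith only [r0]) (by linarith only [r1]) (by linarith only [d]) (by linarith only [d']) (by linarith only [b0])
      have t2 := d2 (x := x) (s := s) (b := (y + 4 * (r * s))) (δ := (400 / 10000)) (by norm_num) (by norm_num) (by linarith only [d]) (by linarith only [d'])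
      linarith only [T, t2]
    · have T := e1_mD2X2C (x := x) (y := y) (s := s) (r := r) (by linarith only [g]) (by linarith only [s1, d']) (by linarith only [y0]) (by linarith only [y1]) (by linarith only [d', g]) (by linarith only [s1]) (by linarith only [r0]) (by linarith only [r1]) (by linarith only [s1, g]) (by linarith only [d'])
      have t2 := d2 (x := x) (s := s) (b := (y + 4 * (r * s))) (δ := (400 / 10000)) (by norm_num) (by norm_num) (by linarith only [s1, g]) (by linarith only [d'])
      have u0 := x2 (x := x) (c := (y - 9 / 10 * r)) (c' := (y - 9 / 10 * r)) (δ := (400 / 10000)) (K := (25 / 1)) (le_abs_self _) (by norm_num) (by norm_num) (by norm_num) (by linarith only [s1, d']) (by linarith only [g])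
      have u1 := x2 (x := x) (c := (y - 9 / 10 * r)) (c' := (-(y - 9 / 10 * r))) (δ := (400 / 10000)) (K := (25 / 1)) (neg_le_abs _) (by norm_num) (by norm_num) (by norm_num) (by linarith only [s1, d']) (by linarith only [g])
      rcases T with T | T <;> linarith only [t2, u0, T, u1]
  rcases le_or_gt (x - s) (400 / 10000) with e | e
  · rcases le_or_gt (y + 4 * (r * s)) 0 with f | f
    · rcases le_or_gt x (1850 / 10000) with g | g
      · have T := e1_mD3X1nC (x := x) (y := y) (s := s) (r := r) (by linarith only [v', d']) (by linarith only [g]) (by linarith only [y0]) (by linarith only [hrs, f]) (by linarith only [v']) (by linarith only [d', g]) (by linarith only [r0]) (by linarith only [r1]) (by linarith only [d']) (by linarith only [e]) (by linarith only [f]) (by linarith only [b0])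
        have t2 := d3n (x := x) (s := s) (b := (y + 4 * (r * s))) (δ := (400 / 10000)) (K := (25 / 1)) (by linarith only [f]) (by norm_num) (by norm_num) (by norm_num) (by linarith only [d']) (by linarith only [e])
        linarith only [T, t2]
      · rcases le_or_gt x (2250 / 10000) with g | g
        · have T := e1_mD3X2nC (x := x) (y := y) (s := s) (r := r) (by linarith) (by linarith only [g]) (by linarith only [y0]) (by linarith only [hrs, f]) (by linarith) (by linarith only [s1]) (by linarith only [r0]) (by linarith only [r1]) (by linarith only [d']) (by linarith only [e]) (by linarith only [f])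
          have t2 := d3n (x := x) (s := s) (b := (y + 4 * (r * s))) (δ := (400 / 10000)) (K := (25 / 1)) (by linarith only [f]) (by norm_num) (by norm_num) (by norm_num) (by linarith only [d']) (by linarith only [e])
          have u0 := x2 (x := x) (c := (y - 9 / 10 * r)) (c' := (y - 9 / 10 * r)) (δ := (400 / 10000)) (K := (25 / 1)) (le_abs_self _) (by norm_num) (by norm_num) (by norm_num) (by linarith only [g]) (by linarith)
          have u1 := x2 (x := x) (c := (y - 9 / 10 * r)) (c' := (-(y - 9 / 10 * r))) (δ := (400 / 10000)) (K := (25 / 1)) (neg_le_abs _) (by norm_num) (by norm_num) (by norm_num) (by linarith only [g]) (by linarith)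
          rcases T with T | T <;> linarith only [t2, u0, T, u1]
        · have T := e1_mD3X3nC (x := x) (y := y) (s := s) (r := r) (by linarith only [g]) (by linarith only [s1, e]) (by linarith only [y0]) (by linarith only [hrs, f]) (by linarith only [e, g]) (by linarith only [s1]) (by linarith only [r0]) (by linarith only [r1]) (by linarith only [d']) (by linarith only [e]) (by linarith only [f])
          have t2 := d3n (x := x) (s := s) (b := (y + 4 * (r * s))) (δ := (400 / 10000)) (K := (25 / 1)) (by linarith only [f]) (by norm_num) (by norm_num) (by norm_num) (by linarith only [d']) (by linarith only [e])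
          have u0 := x3 (x := x) (c := (y - 9 / 10 * r)) (c' := (y - 9 / 10 * r)) (δ := (400 / 10000)) (le_abs_self _) (by norm_num) (by norm_num) (by linarith only [g]) (by linarith only [s1, d', e])
          have u1 := x3 (x := x) (c := (y - 9 / 10 * r)) (c' := (-(y - 9 / 10 * r))) (δ := (400 / 10000)) (neg_le_abs _) (by norm_num) (by norm_num) (by linarith only [g]) (by linarith only [s1, d', e])
          rcases T with T | T <;> linarith only [t2, u0, T, u1]
    · rcases le_or_gt x (1850 / 10000) with g | g
      · have T := e1_mD3X1pC (x := x) (y := y) (s := s) (r := r) (by linarith only [v', d']) (by linarith only [g]) (by linarith only [y0]) (by linarith only [y1]) (by linarith only [v']) (by linarith only [d', g]) (by linarith only [r0]) (by linarith only [r1]) (by linarith only [d']) (by linarith only [e]) (by linarith only [f]) (by linarith only [b0])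
        have t2 := d3p (x := x) (s := s) (b := (y + 4 * (r * s))) (δ := (400 / 10000)) (K := (25 / 1)) (by linarith only [f]) (by norm_num) (by norm_num) (by norm_num) (by linarith only [d']) (by linarith only [e])
        linarith only [T, t2]
      · rcases le_or_gt x (2250 / 10000) with g | g
        · have T := e1_mD3X2pC (x := x) (y := y) (s := s) (r := r) (by linarith) (by linarith only [g]) (by linarith only [y0]) (by linarith only [y1]) (by linarith) (by linarith only [s1]) (by linarith only [r0]) (by linarith only [r1]) (by linarith only [d']) (by linarith only [e]) (by linarith only [f])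
          have t2 := d3p (x := x) (s := s) (b := (y + 4 * (r * s))) (δ := (400 / 10000)) (K := (25 / 1)) (by linarith only [f]) (by norm_num) (by norm_num) (by norm_num) (by linarith only [d']) (by linarith only [e])
          have u0 := x2 (x := x) (c := (y - 9 / 10 * r)) (c' := (y - 9 / 10 * r)) (δ := (400 / 10000)) (K := (25 / 1)) (le_abs_self _) (by norm_num) (by norm_num) (by norm_num) (by linarith only [g]) (by linarith)
          have u1 := x2 (x := x) (c := (y - 9 / 10 * r)) (c' := (-(y - 9 / 10 * r))) (δ := (400 / 10000)) (K := (25 / 1)) (neg_le_abs _) (by norm_num) (by norm_num) (by norm_num) (by linarith only [g]) (by linarith)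
          rcases T with T | T <;> linarith only [t2, u0, T, u1]
        · have T := e1_mD3X3pC (x := x) (y := y) (s := s) (r := r) (by linarith only [g]) (by linarith only [s1, e]) (by linarith only [y0]) (by linarith only [y1]) (by linarith only [e, g]) (by linarith only [s1]) (by linarith only [r0]) (by linarith only [r1]) (by linarith only [d']) (by linarith only [e]) (by linarith only [f])
          have t2 := d3p (x := x) (s := s) (b := (y + 4 * (r * s))) (δ := (400 / 10000)) (K := (25 / 1)) (by linarith only [f]) (by norm_num) (by norm_num) (by norm_num) (by linarith only [d']) (by linarith only [e])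
          have u0 := x3 (x := x) (c := (y - 9 / 10 * r)) (c' := (y - 9 / 10 * r)) (δ := (400 / 10000)) (le_abs_self _) (by norm_num) (by norm_num) (by linarith only [g]) (by linarith only [s1, d', e])
          have u1 := x3 (x := x) (c := (y - 9 / 10 * r)) (c' := (-(y - 9 / 10 * r))) (δ := (400 / 10000)) (neg_le_abs _) (by norm_num) (by norm_num) (by linarith only [g]) (by linarith only [s1, d', e])
          rcases T with T | T <;> linarith only [t2, u0, T, u1]
  rcases le_or_gt (y + 4 * (r * s)) 0 with f | f
  · rcases le_or_gt x (1850 / 10000) with g | g
    · have T := e1_mD4X1nC (x := x) (y := y) (s := s) (r := r) (by linarith only [v', e]) (by linarith only [g]) (by linarith only [y0]) (by linarith only [hrs, f]) (by linarith only [v']) (by linarith only [e, g]) (by linarith only [r0]) (by linarith only [r1]) (by linarith only [e]) (by linarith only [f]) (by linarith only [b0])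
      have t2 := d4n (x := x) (s := s) (b := (y + 4 * (r * s))) (by linarith only [f])
      linarith only [T, t2]
    · rcases le_or_gt x (2250 / 10000) with g | g
      · have T := e1_mD4X2nC (x := x) (y := y) (s := s) (r := r) (by linarith) (by linarith only [g]) (by linarith only [y0]) (by linarith only [hrs, f]) (by linarith only [v']) (by linarith only [e, g]) (by linarith only [r0]) (by linarith only [r1]) (by linarith only [e]) (by linarith only [f])
        have t2 := d4n (x := x) (s := s) (b := (y + 4 * (r * s))) (by linarith only [f])
        have u0 := x2 (x := x) (c := (y - 9 / 10 * r)) (c' := (y - 9 / 10 * r)) (δ := (400 / 10000)) (K := (25 / 1)) (le_abs_self _) (by norm_num) (by norm_num) (by norm_num) (by linarith only [g]) (by linarith)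
        have u1 := x2 (x := x) (c := (y - 9 / 10 * r)) (c' := (-(y - 9 / 10 * r))) (δ := (400 / 10000)) (K := (25 / 1)) (neg_le_abs _) (by norm_num) (by norm_num) (by norm_num) (by linarith only [g]) (by linarith)
        rcases T with T | T <;> linarith only [t2, u0, T, u1]
      · rcases le_or_gt x (2650 / 10000) with g | g
        · have T := e1_mD4X3nC (x := x) (y := y) (s := s) (r := r) (by linarith) (by linarith only [g]) (by linarith only [y0]) (by linarith only [hrs, f]) (by linarith only [v']) (by linarith only [s1]) (by linarith only [r0]) (by linarith only [r1]) (by linarith only [e]) (by linarith only [f])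
          have t2 := d4n (x := x) (s := s) (b := (y + 4 * (r * s))) (by linarith only [f])
          have u0 := x3 (x := x) (c := (y - 9 / 10 * r)) (c' := (y - 9 / 10 * r)) (δ := (400 / 10000)) (le_abs_self _) (by norm_num) (by norm_num) (by linarith) (by linarith only [g])
          have u1 := x3 (x := x) (c := (y - 9 / 10 * r)) (c' := (-(y - 9 / 10 * r))) (δ := (400 / 10000)) (neg_le_abs _) (by norm_num) (by norm_num) (by linarith) (by linarith only [g])
          rcases T with T | T <;> linarith only [t2, u0, T, u1]
        · rcases le_or_gt x (6000 / 10000) with g | g
          · have T := e1_mD4X4nC (x := x) (y := y) (s := s) (r := r) (by linarith) (by linarith only [g]) (by linarith only [y0]) (by linarith only [hrs, f]) (by linarith only [v']) (by linarith only [s1]) (by linarith only [r0]) (by linarith only [r1]) (by linarith only [f]) (by linarith only [c0])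
            have t2 := d4n (x := x) (s := s) (b := (y + 4 * (r * s))) (by linarith only [f])
            have u0 := x4 (x := x) (c := (y - 9 / 10 * r)) (c' := (y - 9 / 10 * r)) (le_abs_self _)
            have u1 := x4 (x := x) (c := (y - 9 / 10 * r)) (c' := (-(y - 9 / 10 * r))) (neg_le_abs _)
            rcases T with T | T <;> linarith only [t2, u0, T, u1]
          · have y3 : y ≤ 0 := by
              rcases hy with h | h
              · exact h
              · linarith only [g, h]
            have T := e1_mD4X4nX (x := x) (y := y) (s := s) (r := r) (by linarith only [g]) (by linarith only [x1]) (by linarith only [x1, c0, g]) (by linarith only [hrs, f]) (by linarith only [v']) (by linarith only [s1]) (by linarith only [r0]) (by linarith only [r1]) (by linarith only [f]) (by linarith only [c0])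
            have t2 := d4n (x := x) (s := s) (b := (y + 4 * (r * s))) (by linarith only [f])
            have u0 := x4 (x := x) (c := (y - 9 / 10 * r)) (c' := (y - 9 / 10 * r)) (le_abs_self _)
            have u1 := x4 (x := x) (c := (y - 9 / 10 * r)) (c' := (-(y - 9 / 10 * r))) (neg_le_abs _)
            rcases T with T | T <;> linarith only [t2, u0, T, u1]
  · rcases le_or_gt x (1850 / 10000) with g | g
    · have T := e1_mD4X1pC (x := x) (y := y) (s := s) (r := r) (by linarith only [v', e]) (by linarith only [g]) (by linarith only [y0]) (by linarith only [y1]) (by linarith only [v']) (by linarith only [e, g]) (by linarith only [r0]) (by linarith only [r1]) (by linarith only [e]) (by linarith only [f]) (by linarith only [b0])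
      have t2 := d4p (x := x) (s := s) (b := (y + 4 * (r * s))) (by linarith only [f])
      linarith only [T, t2]
    · rcases le_or_gt x (2250 / 10000) with g | g
      · have T := e1_mD4X2pC (x := x) (y := y) (s := s) (r := r) (by linarith) (by linarith only [g]) (by linarith only [y0]) (by linarith only [y1]) (by linarith only [v']) (by linarith only [e, g]) (by linarith only [r0]) (by linarith only [r1]) (by linarith only [e]) (by linarith only [f])
        have t2 := d4p (x := x) (s := s) (b := (y + 4 * (r * s))) (by linarith only [f])
        have u0 := x2 (x := x) (c := (y - 9 / 10 * r)) (c' := (y - 9 / 10 * r)) (δ := (400 / 10000)) (K := (25 / 1)) (le_abs_self _) (by norm_num) (by norm_num) (by norm_num) (by linarith only [g]) (by linarith)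
        have u1 := x2 (x := x) (c := (y - 9 / 10 * r)) (c' := (-(y - 9 / 10 * r))) (δ := (400 / 10000)) (K := (25 / 1)) (neg_le_abs _) (by norm_num) (by norm_num) (by norm_num) (by linarith only [g]) (by linarith)
        rcases T with T | T <;> linarith only [t2, u0, T, u1]
      · rcases le_or_gt x (2650 / 10000) with g | g
        · have T := e1_mD4X3pC (x := x) (y := y) (s := s) (r := r) (by linarith) (by linarith only [g]) (by linarith only [y0]) (by linarith only [y1]) (by linarith only [v']) (by linarith only [s1]) (by linarith only [r0]) (by linarith only [r1]) (by linarith only [e]) (by linarith only [f])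
          have t2 := d4p (x := x) (s := s) (b := (y + 4 * (r * s))) (by linarith only [f])
          have u0 := x3 (x := x) (c := (y - 9 / 10 * r)) (c' := (y - 9 / 10 * r)) (δ := (400 / 10000)) (le_abs_self _) (by norm_num) (by norm_num) (by linarith) (by linarith only [g])
          have u1 := x3 (x := x) (c := (y - 9 / 10 * r)) (c' := (-(y - 9 / 10 * r))) (δ := (400 / 10000)) (neg_le_abs _) (by norm_num) (by norm_num) (by linarith) (by linarith only [g])
          rcases T with T | T <;> linarith only [t2, u0, T, u1]
        · rcases le_or_gt x (6000 / 10000) with g | g
          · have T := e1_mD4X4pC (x := x) (y := y) (s := s) (r := r) (by linarith) (by linarith only [g]) (by linarith only [y0]) (by linarith only [y1]) (by linarith only [v']) (by linarith only [s1]) (by linarith only [r0]) (by linarith only [r1]) (by linarith only [f]) (by linarith only [c0])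
            have t2 := d4p (x := x) (s := s) (b := (y + 4 * (r * s))) (by linarith only [f])
            have u0 := x4 (x := x) (c := (y - 9 / 10 * r)) (c' := (y - 9 / 10 * r)) (le_abs_self _)
            have u1 := x4 (x := x) (c := (y - 9 / 10 * r)) (c' := (-(y - 9 / 10 * r))) (neg_le_abs _)
            rcases T with T | T <;> linarith only [t2, u0, T, u1]
          · have y3 : y ≤ 0 := by
              rcases hy with h | h
              · exact h
              · linarith only [g, h]
            have T := e1_mD4X4pW (x := x) (y := y) (s := s) (r := r) (by linarith only [g]) (by linarith only [x1]) (by linarith only [x1, c0, g]) (by linarith only [y3]) (by linarith only [s0]) (by linarith only [s1]) (by linarith only [r0]) (by linarith only [r1]) (by linarith only [f]) (by linarith only [c0])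
            have t2 := d4p (x := x) (s := s) (b := (y + 4 * (r * s))) (by linarith only [f])
            have u0 := x4 (x := x) (c := (y - 9 / 10 * r)) (c' := (y - 9 / 10 * r)) (le_abs_self _)
            have u1 := x4 (x := x) (c := (y - 9 / 10 * r)) (c' := (-(y - 9 / 10 * r))) (neg_le_abs _)
            rcases T with T | T <;> linarith only [t2, u0, T, u1]

end ZD

end Pool.Agent.Work.MP_b30479_gt.G2
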