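import Pool.Agent.Work.MP_b30479_gt.G2.ZRe1D
import Pool.Agent.Work.MP_b30479_gt.G2.ZRe1E

/-!
# The loss at a hinge next to a ring: `e1`
-/

set_option linter.unusedSimpArgs false
set_option linter.unusedVariables false

namespace Pool.Agent.Work.MP_b30479_gt.G2

open VOL NumU

namespace ZD

theorem e1 (x y σ ρ : ℝ) (x0 : 0 ≤ x) (x1 : x ≤ 65 / 100) (y0 : -(158 / 1000) ≤ y)
    (y1 : y ≤ 1 / 1000) (hy : y ≤ 0 ∨ x ≤ 60 / 100) (c0 : -y ≤ 545 / 1000 * (65 / 100 - x))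
    (b0 : -y ≤ 158 / 100 * x) (s0 : 3 / 10 ≤ |σ|) (s1 : |σ| ≤ 1 / 2) (r0 : 0 ≤ ρ)
    (r1 : ρ ≤ 1045 / 10000) :
    fR ⟨x, y⟩ ⟨σ, ρ * LT.th σ⟩ - fR ⟨x, y⟩ ⟨-(11 / 40), 9 / 10 * ρ⟩ ≤
      958 / 10000 - 85 / 100 * ρ := by
  rcases le_total σ 0 with h | h
  · obtain ⟨s, rfl⟩ : ∃ s, σ = -(1 / 2) + s := ⟨σ + 1 / 2, by ring⟩
    rw [abs_of_nonpos h] at s0 s1
    have t := e1_p x0 x1 y0 y1 hy c0 b0 (s := s) (by linarith only [s1]) (by linarith only [s0]) r0 r1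
    rw [loss_p (by linarith only [s1]) (by linarith only [s0])]
    linarith only [t]
  · obtain ⟨s, rfl⟩ : ∃ s, σ = 1 / 2 - s := ⟨1 / 2 - σ, by ring⟩
    rw [abs_of_nonneg h] at s0 s1
    have t := e1_m x0 x1 y0 y1 hy c0 b0 (s := s) (by linarith only [s1]) (by linarith only [s0]) r0 r1
    rw [loss_m (by linarith only [s1]) (by linarith only [s0])]
    linarith only [t]

end ZD

end Pool.Agent.Work.MP_b30479_gt.G2
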