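import Pool.Agent.Work.MP_b30479_gt.G2.RMon
import Pool.Agent.Work.NumU.Val

/-!
# Modes at rings: the inequalities

`D`: a region with one, two or three crossings, `Z`: a ring, the hinge between them on its mode path
(`x - iY` in the frame of `D`, `x + iY` in the frame of the ring); `k = k1 + i k2`: the other
variable of `D`.  `dA1`: `D` has one crossing or is a region with three crossings seen from slot `0`,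
or at an end (`k = 1 - v`); `dA2`: two crossings, or three crossings seen from slot `2` (`k = v`);
`dA0`: two crossings at an end.  `cA`: the limit for `Y → ∞`.  `mA`: the allowance at the lower end
of the mode path.
-/

namespace Pool.Agent.Work.MP_b30479_gt.G2

open NumU

namespace ZD

/-- the multiplier -/
noncomputable def PY (Y : ℝ) : ℝ := 49 / 5 * Y + 90 * Y ^ 3

/-! ### the side of `D` -/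

noncomputable def dA1 (x Y k1 k2 : ℝ) : ℝ :=
  Real.pi * (x * k2 - Y * k1) + uu (x + k1) (k2 - Y) - uu x Y
noncomputable def dA2 (x Y k1 k2 : ℝ) : ℝ :=
  Real.pi * (x - k1) * (Y + k2) - Real.pi * Y / 2 + uu (x + k1) (k2 - Y) - 2 * uu x Y
noncomputable def dA0 (x Y : ℝ) : ℝ := Real.pi * (x - 1 / 2) * Y - uu x Y

noncomputable def cA1 (k1 k2 : ℝ) : ℝ := Real.pi * k2 * (1 / 2 - k1)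
noncomputable def cA2 (k1 k2 : ℝ) : ℝ := Real.pi * k2 * (1 / 2 - 2 * k1)

noncomputable def mA1 (k1 k2 : ℝ) : ℝ :=
  if k1 < 1 / 4 then 4 / 1000 + 1 / 5 * k1 + 65 / 100 * max k2 0 else 18 / 100
noncomputable def mA2 (k1 : ℝ) : ℝ := min (2 / 100 + 7 / 10 * k1) (1 / 4)
noncomputable def mA3 (k1 k2 : ℝ) : ℝ :=
  if k1 ≤ 3 / 10 then 5 / 100 + 85 / 100 * max k2 0 else
    if k1 ≤ 7 / 10 then 1 / 5 else 1 / 10 + 19 / 10 * max k2 0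

/-- the terms of `D` at the point `x + it` (frame of `D`) -/
noncomputable def gD1 (x t k1 k2 : ℝ) : ℝ :=
  Real.pi * (x * k2 + t * k1 - t) + uu (x + k1) (t + k2) - uu x t
noncomputable def gD2 (x t k1 k2 : ℝ) : ℝ :=
  -(Real.pi * (x - k1) * (t - k2)) - Real.pi / 2 * t + uu (x + k1) (t + k2) - 2 * uu x t
noncomputable def gD0 (x t : ℝ) : ℝ := -(Real.pi * x * t) - Real.pi / 2 * t - uu x t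

/-- the values at `0` -/
noncomputable def oD1 (k1 k2 : ℝ) : ℝ := uu k1 k2
noncomputable def oD2 (k1 k2 : ℝ) : ℝ := -(Real.pi * k1 * k2) + uu k1 k2

/-! ### the side of the ring -/

/-- the slot of a ring with the hinge `x + iY` (frame of the ring), with penalty -/
noncomputable def fA (x Y σ η : ℝ) : ℝ := fR ⟨x, Y⟩ ⟨σ, η⟩ - Real.pi * Y
noncomputable def bR (σ η : ℝ) : ℝ := 2 * Real.pi * η * max σ 0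
/-- the guaranteed value of the slot of the ring at the target `x + it` (frame of `D`) -/
noncomputable def gR (θ x t : ℝ) : ℝ := fR ⟨x, -t⟩ ⟨-(11 / 40), 0⟩ - θ
/-- the change of the quadratic part of a ring with four crossings when the ring variable moves from
`σ + iρ th σ` to `-11/40 + i 9/10 ρ` -/
noncomputable def q4 (σ ρ : ℝ) : ℝ :=
  2 * Real.pi * (9 / 10 * ρ) * (1 / 10) + 2 * Real.pi * (ρ * LT.th σ) * (4 * σ + 1)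

/-- `t` is the ramp at `x`: exact for `x ≤ a` -/
def Rmp (cl a x t : ℝ) : Prop := 0 ≤ t ∧ t ≤ 1 ∧ (x ≤ a → t = min 1 (x / cl))

/-! ### the rows -/

/-- lower end of the mode path, side of the ring -/
structure RowsA : Prop where
  a65 : ∀ x Y σ η : ℝ, 64996 / 100000 ≤ x → x ≤ 65 / 100 → 0 < Y → Y ≤ 1 / 4 → |σ| ≤ 1 / 2 → 0 ≤ η →
    η ≤ 1045 / 10000 * LT.th σ → fA x Y σ η - fR ⟨x, 0⟩ ⟨σ, η⟩ + Y / 1000 +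
      PY Y * (fA x Y σ η - bR σ η - 5 / 1000) ≤ 0
  a65d : ∀ x Y σ η : ℝ, 64996 / 100000 ≤ x → x ≤ 65 / 100 → 1 / 4 ≤ Y → Y ≤ 1 → |σ| ≤ 1 / 2 → 0 ≤ η →
    η ≤ 1045 / 10000 * LT.th σ → fA x Y σ η ≤ bR σ η + 1 / 1000
  a60 : ∀ x Y σ η : ℝ, 59996 / 100000 ≤ x → x ≤ 60 / 100 → 0 < Y → Y ≤ 13 / 100 → |σ| ≤ 1 / 2 → 0 ≤ η →
    η ≤ 1045 / 10000 * LT.th σ → fA x Y σ η - fR ⟨x, 0⟩ ⟨σ, η⟩ + Y / 1000 +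
      PY Y * (fA x Y σ η - bR σ η - 45 / 1000) ≤ 0
  a60d : ∀ x Y σ η : ℝ, 59996 / 100000 ≤ x → x ≤ 60 / 100 → 13 / 100 ≤ Y → Y ≤ 1 → |σ| ≤ 1 / 2 → 0 ≤ η →
    η ≤ 1045 / 10000 * LT.th σ → fA x Y σ η ≤ bR σ η + 45 / 1000

/-- the domain of `k` for a digit `1` -/
def dom1 (k1 k2 : ℝ) : Prop := 0 ≤ k1 ∧ k1 ≤ 86 / 100 ∧ -(16 / 100) ≤ k2 ∧
  ((k2 ≤ 79 / 100 * k1 ∧ k2 ≤ 118 / 1000) ∨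
    (1 / 4 ≤ k1 ∧ k2 ≤ 16 / 100 ∧ k2 ≤ 8 / 10 * (86 / 100 - k1)))
/-- the domain of `k` for `dA2` -/
def dom2 (k1 k2 : ℝ) : Prop := 0 ≤ k1 ∧ k1 ≤ 80 / 100 ∧ k2 ≤ 16 / 100 ∧ k2 ≤ 32 / 10 * k1
/-- the domain of `k = 1 - v` for regions with three crossings -/
def dom3 (k1 k2 : ℝ) : Prop := 20 / 100 ≤ k1 ∧ k1 ≤ 1 ∧ |k2| ≤ 16 / 100 ∧
  |k2| ≤ 32 / 10 * (k1 - 20 / 100) ∧ |k2| ≤ 32 / 10 * (1 - k1)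

/-- lower end of the mode path, side of `D` -/
structure RowsB : Prop where
  b1 : ∀ x Y k1 k2 : ℝ, 64996 / 100000 ≤ x → x ≤ 65 / 100 → 0 < Y → Y ≤ 1 / 4 → dom1 k1 k2 →
    dA1 x Y k1 k2 - dA1 x 0 k1 k2 + Y / 1000 + PY Y * (dA1 x Y k1 k2 - cA1 k1 k2 - mA1 k1 k2) ≤ 0
  b1d : ∀ x Y k1 k2 : ℝ, 64996 / 100000 ≤ x → x ≤ 65 / 100 → 1 / 4 ≤ Y → Y ≤ 1 → dom1 k1 k2 →
    dA1 x Y k1 k2 ≤ cA1 k1 k2 + mA1 k1 k2 + 4 / 1000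
  b2 : ∀ x Y k1 k2 : ℝ, 59996 / 100000 ≤ x → x ≤ 60 / 100 → 0 < Y → Y ≤ 13 / 100 → dom2 k1 k2 →
    dA2 x Y k1 k2 - dA2 x 0 k1 k2 + Y / 1000 + PY Y * (dA2 x Y k1 k2 - cA2 k1 k2 - mA2 k1) ≤ 0
  b2d : ∀ x Y k1 k2 : ℝ, 59996 / 100000 ≤ x → x ≤ 60 / 100 → 13 / 100 ≤ Y → Y ≤ 1 → dom2 k1 k2 →
    dA2 x Y k1 k2 ≤ cA2 k1 k2 + mA2 k1
  b3 : ∀ x Y k1 k2 : ℝ, 59996 / 100000 ≤ x → x ≤ 60 / 100 → 0 < Y → Y ≤ 13 / 100 → dom3 k1 k2 →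
    dA1 x Y k1 k2 - dA1 x 0 k1 k2 + Y / 1000 + PY Y * (dA1 x Y k1 k2 - cA1 k1 k2 - mA3 k1 k2) ≤ 0
  b3d : ∀ x Y k1 k2 : ℝ, 59996 / 100000 ≤ x → x ≤ 60 / 100 → 13 / 100 ≤ Y → Y ≤ 1 → dom3 k1 k2 →
    dA1 x Y k1 k2 ≤ cA1 k1 k2 + mA3 k1 k2
  b0 : ∀ x Y : ℝ, 59996 / 100000 ≤ x → x ≤ 60 / 100 → 0 < Y → Y ≤ 13 / 100 →
    dA0 x Y - dA0 x 0 + Y / 1000 + PY Y * dA0 x Y ≤ 0
  b0d : ∀ x Y : ℝ, 59996 / 100000 ≤ x → x ≤ 60 / 100 → 13 / 100 ≤ Y → Y ≤ 1 → dA0 x Y ≤ 1 / 100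

/-- the target of a hinge next to a digit `1`, `x' = x + it`; `θ`: the allowance of the ring -/
def Goal1 (θ x t k1 k2 : ℝ) : Prop :=
  cA1 k1 k2 + mA1 k1 k2 + 5 / 1000 < gD1 x t k1 k2 + gR θ x t ∧
  (1 / 2 ≤ k1 → oD1 k1 k2 + 1 / 1000 < gD1 x t k1 k2 + gR θ x t)
def Goal2 (t k1 k2 : ℝ) : Prop :=
  cA2 k1 k2 + mA2 k1 + 45 / 1000 < gD2 (2 / 10) t k1 k2 + gR (112 / 1000) (2 / 10) t ∧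
  oD2 k1 k2 + 1 / 1000 < gD2 (2 / 10) t k1 k2 + gR (112 / 1000) (2 / 10) t
def Goal3 (t k1 k2 : ℝ) : Prop :=
  cA1 k1 k2 + mA3 k1 k2 + 45 / 1000 < gD1 (2 / 10) t k1 k2 + gR (112 / 1000) (2 / 10) t ∧
  (1 / 2 ≤ k1 → oD1 k1 k2 + 1 / 1000 < gD1 (2 / 10) t k1 k2 + gR (112 / 1000) (2 / 10) t)

/-- the targets.  `m`: the hinge `k` on its main path of height `u`; `d`: on the lower path of height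
`16/100`; `u`: on the upper path of height `16/100` -/
structure RowsC : Prop where
  c1m : ∀ T u k1 t : ℝ, 38 / 1000 ≤ T → T ≤ 136 / 1000 → |u| ≤ 118 / 1000 → T + u ≤ 143 / 1000 →
    -(10 / 1000) ≤ T + u → 0 ≤ k1 → k1 ≤ 86 / 100 → Rmp (15 / 100) (60 / 100) k1 t →
    Goal1 (1 / 10) (2 / 10) T k1 (u * t)
  c1d : ∀ T k1 t : ℝ, 38 / 1000 ≤ T → T ≤ 136 / 1000 → 0 ≤ k1 → k1 ≤ 86 / 100 →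
    Rmp (15 / 100) (60 / 100) k1 t → Goal1 (1 / 10) (2 / 10) T k1 (-(16 / 100) * t)
  c1u : ∀ T k1 t : ℝ, 38 / 1000 ≤ T → T ≤ 136 / 1000 → 1 / 4 ≤ k1 → k1 ≤ 86 / 100 →
    Rmp (15 / 100) (60 / 100) k1 t → Goal1 (1 / 10) (2 / 10) T k1 (16 / 100 * t)
  c2m : ∀ T u k1 t : ℝ, 63 / 1000 ≤ T → T ≤ 145 / 1000 → -(18 / 1000) ≤ u → u ≤ 985 / 10000 →
    T + u ≤ 187 / 1000 → 94 / 1000 ≤ T + u → 0 ≤ k1 → k1 ≤ 80 / 100 →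
    Rmp (16 / 100) (50 / 100) k1 t → Goal1 (1 / 10) (2 / 10) T k1 (u * t)
  c2d : ∀ T k1 t : ℝ, 63 / 1000 ≤ T → T ≤ 145 / 1000 → 0 ≤ k1 → k1 ≤ 80 / 100 →
    Rmp (16 / 100) (50 / 100) k1 t → Goal1 (1 / 10) (2 / 10) T k1 (-(16 / 100) * t)
  c2u : ∀ T k1 t : ℝ, 63 / 1000 ≤ T → T ≤ 145 / 1000 → 1 / 4 ≤ k1 → k1 ≤ 80 / 100 →
    Rmp (16 / 100) (50 / 100) k1 t → Goal1 (1 / 10) (2 / 10) T k1 (16 / 100 * t)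
  cem : ∀ T u k1 t : ℝ, 100 / 1000 ≤ T → T ≤ 158 / 1000 → -(66 / 1000) ≤ u → u ≤ 1 / 1000 →
    5 / 100 ≤ k1 → k1 ≤ 70 / 100 → Rmp (14 / 100) (35 / 100) k1 t →
    Goal1 (108 / 1000) (2 / 10) T k1 (u * t)
  ced : ∀ T k1 t : ℝ, 100 / 1000 ≤ T → T ≤ 158 / 1000 → 5 / 100 ≤ k1 → k1 ≤ 70 / 100 →
    Rmp (14 / 100) (35 / 100) k1 t → Goal1 (108 / 1000) (2 / 10) T k1 (-(16 / 100) * t)
  ceu : ∀ T k1 t : ℝ, 100 / 1000 ≤ T → T ≤ 158 / 1000 → 1 / 4 ≤ k1 → k1 ≤ 70 / 100 →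
    Rmp (14 / 100) (35 / 100) k1 t → Goal1 (108 / 1000) (2 / 10) T k1 (16 / 100 * t)
  /-- small `k1`: the target is `12/100 + i 3/4 T` -/
  cem0 : ∀ T u k1 : ℝ, 100 / 1000 ≤ T → T ≤ 158 / 1000 → -(66 / 1000) ≤ u → u ≤ 1 / 1000 →
    0 ≤ k1 → k1 ≤ 5 / 100 → Goal1 (108 / 1000) (12 / 100) (3 / 4 * T) k1 (u * (k1 / (14 / 100)))
  ced0 : ∀ T k1 : ℝ, 100 / 1000 ≤ T → T ≤ 158 / 1000 → 0 ≤ k1 → k1 ≤ 5 / 100 →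
    Goal1 (108 / 1000) (12 / 100) (3 / 4 * T) k1 (-(16 / 100) * (k1 / (14 / 100)))
  c2 : ∀ T k1 k2 : ℝ, 10 / 1000 ≤ T → T ≤ 96 / 1000 → dom2 k1 k2 → Goal2 T k1 k2
  c32 : ∀ T k1 k2 : ℝ, -(1 / 1000) ≤ T → T ≤ 58 / 1000 → dom2 k1 k2 → -(16 / 100) ≤ k2 → Goal2 T k1 k2
  c3 : ∀ T k1 k2 : ℝ, -(1 / 1000) ≤ T → T ≤ 58 / 1000 → dom3 k1 k2 → Goal3 T k1 k2
  c0 : ∀ T : ℝ, 88 / 1000 ≤ T → T ≤ 131 / 1000 →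
    46 / 1000 < gD0 (2 / 10) T + gR (112 / 1000) (2 / 10) T

/-- the targets of a ring: `x` and height `t` (frame of `D`), allowance `θ` -/
structure Tgt (θ x t : ℝ) : Prop where
  or : (x = 2 / 10 ∧ 38 / 1000 ≤ t ∧ t ≤ 158 / 1000 ∧ θ = 1 / 10) ∨
    (x = 2 / 10 ∧ 100 / 1000 ≤ t ∧ t ≤ 158 / 1000 ∧ θ = 108 / 1000) ∨
    (x = 12 / 100 ∧ 75 / 1000 ≤ t ∧ t ≤ 1185 / 10000 ∧ θ = 108 / 1000) ∨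
    (x = 2 / 10 ∧ -(1 / 1000) ≤ t ∧ t ≤ 131 / 1000 ∧ θ = 112 / 1000)

/-- the ring variable -/
structure RowsE : Prop where
  /-- the loss at a hinge on its main path between the ring and a region which is not a ring -/
  e1 : ∀ x y σ ρ : ℝ, 0 ≤ x → x ≤ 65 / 100 → -(158 / 1000) ≤ y → y ≤ 1 / 1000 → (y ≤ 0 ∨ x ≤ 60 / 100) →
    -y ≤ 545 / 1000 * (65 / 100 - x) → -y ≤ 158 / 100 * x → 3 / 10 ≤ |σ| → |σ| ≤ 1 / 2 → 0 ≤ ρ →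
    ρ ≤ 1045 / 10000 → fR ⟨x, y⟩ ⟨σ, ρ * LT.th σ⟩ - fR ⟨x, y⟩ ⟨-(11 / 40), 9 / 10 * ρ⟩ ≤
      958 / 10000 - 85 / 100 * ρ
  /-- the ring variable stays -/
  e2 : ∀ θ x t σ ρ : ℝ, Tgt θ x t → -(3 / 10) ≤ σ → σ ≤ 15 / 100 → 0 ≤ ρ → ρ ≤ 1045 / 10000 →
    gR θ x t + bR σ (ρ * LT.th σ) ≤ fR ⟨x, -t⟩ ⟨σ, ρ * LT.th σ⟩
  /-- the loss at a hinge between two rings; `e4a`: `θ = 108/1000`, `x = 12/100` -/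
  e4a : ∀ x y σ ρ : ℝ, 0 ≤ x → x ≤ 1 / 2 → |y| ≤ 56 / 1000 → |y| ≤ 56 / 100 * x →
    |y| ≤ 28 / 10 * (1 / 2 - x) → 3 / 10 ≤ |σ| → |σ| ≤ 1 / 2 → 0 ≤ ρ → ρ ≤ 1045 / 10000 →
    fR ⟨x, y⟩ ⟨σ, ρ * LT.th σ⟩ - fR ⟨x, y⟩ ⟨-(11 / 40), 9 / 10 * ρ⟩ + bR σ (ρ * LT.th σ) ≤
      107 / 1000 + 64 / 100 * ρ + q4 σ ρ
  e4b : ∀ x y σ ρ : ℝ, 0 ≤ x → x ≤ 1 / 2 → |y| ≤ 56 / 1000 → |y| ≤ 56 / 100 * x →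
    |y| ≤ 28 / 10 * (1 / 2 - x) → 3 / 10 ≤ |σ| → |σ| ≤ 1 / 2 → 0 ≤ ρ → ρ ≤ 1045 / 10000 →
    fR ⟨x, y⟩ ⟨σ, ρ * LT.th σ⟩ - fR ⟨x, y⟩ ⟨-(11 / 40), 9 / 10 * ρ⟩ + bR σ (ρ * LT.th σ) ≤
      92 / 1000 + 94 / 100 * ρ + q4 σ ρ
  /-- the vertical move at the targets -/
  e5a : ∀ t ρ : ℝ, 38 / 1000 ≤ t → t ≤ 158 / 1000 → 0 ≤ ρ → ρ ≤ 1045 / 10000 →
    94 / 100 * ρ - 5 / 10000 ≤ fR ⟨2 / 10, -t⟩ ⟨-(11 / 40), 9 / 10 * ρ⟩ -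
      fR ⟨2 / 10, -t⟩ ⟨-(11 / 40), 0⟩
  e5b : ∀ t ρ : ℝ, 75 / 1000 ≤ t → t ≤ 1185 / 10000 → 0 ≤ ρ → ρ ≤ 1045 / 10000 →
    64 / 100 * ρ - 1 / 1000 ≤ fR ⟨12 / 100, -t⟩ ⟨-(11 / 40), 9 / 10 * ρ⟩ -
      fR ⟨12 / 100, -t⟩ ⟨-(11 / 40), 0⟩
  e5c : ∀ t ρ : ℝ, -(1 / 1000) ≤ t → t ≤ 131 / 1000 → 0 ≤ ρ → ρ ≤ 1045 / 10000 →
    94 / 100 * ρ - 20 / 1000 ≤ fR ⟨2 / 10, -t⟩ ⟨-(11 / 40), 9 / 10 * ρ⟩ -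
      fR ⟨2 / 10, -t⟩ ⟨-(11 / 40), 0⟩
  e5d : ∀ t ρ : ℝ, -(1 / 1000) ≤ t → t ≤ 131 / 1000 → 0 ≤ ρ → ρ ≤ 1045 / 10000 →
    -(1 / 1000) ≤ fR ⟨2 / 10, -t⟩ ⟨-(11 / 40), 9 / 10 * ρ⟩ - fR ⟨2 / 10, -t⟩ ⟨-(11 / 40), 0⟩

/-! ### the other hinge of a digit `1` on its upper path

`k1 + iYk` is moved to `k1 - iτ` (frame of the digit `1`), `x1 - iY` is the hinge at the ring. -/

/-- the gain at the digit `1` -/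
noncomputable def kD (k1 τ Yk x1 Y : ℝ) : ℝ :=
  Real.pi * (τ + Yk) * (1 - x1) + Real.pi * Yk + (uu (x1 + k1) (Y + τ) - uu (x1 + k1) (Y - Yk)) +
    (uu k1 Yk - uu k1 τ)
/-- the gain at the other region of `k`: one crossing, two crossings, two crossings at an end;
`m1 + i m2` is the other hinge of this region, in its frame -/
noncomputable def kP1 (k1 τ Yk m1 m2 : ℝ) : ℝ :=
  Real.pi * (τ + Yk) * (m1 - 1) + Real.pi * Yk + (uu (k1 + m1) (m2 + τ) - uu (k1 + m1) (m2 - Yk)) +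
    (uu k1 Yk - uu k1 τ)
noncomputable def kP2 (k1 τ Yk m1 m2 : ℝ) : ℝ :=
  -(Real.pi * (τ + Yk) * (k1 - m1 + 1 / 2)) + Real.pi * Yk +
    (uu (k1 + m1) (m2 + τ) - uu (k1 + m1) (m2 - Yk)) + 2 * (uu k1 Yk - uu k1 τ)
noncomputable def kPe (k1 τ Yk : ℝ) : ℝ :=
  -(Real.pi * (τ + Yk) * (k1 + 1 / 2)) + Real.pi * Yk + (uu k1 Yk - uu k1 τ)

structure RowsK : Prop where
  k1 : ∀ k τ Yk x1 Y m1 m2 : ℝ, 0 < k → k ≤ 1 / 4 → 0 < Yk → Yk ≤ 16 / 100 → Yk ≤ 115 / 100 * k →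
    0 ≤ τ → τ ≤ 74 / 100 * Yk → 0 ≤ x1 → x1 ≤ 65 / 100 → 0 ≤ Y → 0 ≤ m1 → m1 ≤ 86 / 100 →
    m2 ≤ 125 / 100 * m1 → 0 < kD k τ Yk x1 Y + kP1 k τ Yk m1 m2
  k2 : ∀ k τ Yk x1 Y m1 m2 : ℝ, 0 < k → k ≤ 1 / 4 → 0 < Yk → Yk ≤ 16 / 100 → Yk ≤ 115 / 100 * k →
    0 ≤ τ → τ ≤ 74 / 100 * Yk → 0 ≤ x1 → x1 ≤ 65 / 100 → 0 ≤ Y → 0 ≤ m1 → m1 ≤ 80 / 100 →
    m2 ≤ 25 / 10 * m1 → 0 < kD k τ Yk x1 Y + kP2 k τ Yk m1 m2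
  ke : ∀ k τ Yk x1 Y : ℝ, 0 < k → k ≤ 1 / 4 → 0 < Yk → Yk ≤ 16 / 100 → Yk ≤ 115 / 100 * k →
    0 ≤ τ → τ ≤ 74 / 100 * Yk → 0 ≤ x1 → x1 ≤ 65 / 100 → 0 ≤ Y → 0 < kD k τ Yk x1 Y + kPe k τ Yk

/-- the other parts of the mode path: `z`: the beginning, `w`: high points (analytic) -/
structure RowsZ : Prop where
  zf : ∀ x Y σ η : ℝ, 0 ≤ x → x ≤ 16 / 1000000 → 0 ≤ Y → Y ≤ 1 → |σ| ≤ 1 / 2 → 0 ≤ η →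
    η ≤ 1045 / 10000 → fA x Y σ η ≤ bR σ η + 5 / 10000
  z1 : ∀ x Y k1 k2 : ℝ, 0 ≤ x → x ≤ 16 / 1000000 → 0 ≤ Y → Y ≤ 1 → 0 ≤ k1 → k1 ≤ 1 →
    |k2| ≤ 16 / 100 → dA1 x Y k1 k2 ≤ (if k1 < 1 / 2 then cA1 k1 k2 else max (cA1 k1 k2) (oD1 k1 k2)) +
      5 / 10000
  z2 : ∀ x Y k1 k2 : ℝ, 0 ≤ x → x ≤ 16 / 1000000 → 0 ≤ Y → Y ≤ 1 → 0 ≤ k1 → k1 ≤ 1 →
    k2 ≤ 16 / 100 → dA2 x Y k1 k2 ≤ max (cA2 k1 k2) (oD2 k1 k2) + 5 / 10000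
  z0 : ∀ x Y : ℝ, 0 ≤ x → x ≤ 16 / 1000000 → 0 ≤ Y → Y ≤ 1 → dA0 x Y ≤ 5 / 10000
  wf : ∀ x Y σ η : ℝ, 0 ≤ x → x ≤ 1 → 1 ≤ Y → |σ| ≤ 1 / 2 → 0 ≤ η → η ≤ 1045 / 10000 →
    fA x Y σ η ≤ bR σ η + 2 / 1000
  w1 : ∀ x Y k1 k2 : ℝ, 0 ≤ x → x ≤ 1 → 1 ≤ Y → 0 ≤ k1 → k1 ≤ 1 → k2 ≤ 16 / 100 →
    dA1 x Y k1 k2 ≤ cA1 k1 k2 + 2 / 1000
  w2 : ∀ x Y k1 k2 : ℝ, 0 ≤ x → x ≤ 1 → 1 ≤ Y → 0 ≤ k1 → k1 ≤ 1 → k2 ≤ 16 / 100 →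
    dA2 x Y k1 k2 ≤ cA2 k1 k2 + 3 / 1000
  w0 : ∀ x Y : ℝ, 0 ≤ x → x ≤ 1 → 1 ≤ Y → dA0 x Y ≤ 1 / 1000

/-- all rows -/
structure ZRows : Prop where
  A : RowsA
  B : RowsB
  C : RowsC
  E : RowsE
  K : RowsK
  Z : RowsZ

end ZD

end Pool.Agent.Work.MP_b30479_gt.G2
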