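import Pool.Agent.Work.MP_b30479_gt.G2.TRc
import Pool.Agent.Work.MP_b30479_gt.G2.ZRows

/-!
# Modes at rings: the ring variable which stays
-/

namespace Pool.Agent.Work.MP_b30479_gt.G2

open NumU

namespace ZD

/-! ### the slope near `1` -/

private theorem Lr_slope' {s x x' κ : ℝ} (hs : 0 < s) (hx : x ≤ x')
    (hκ : 2 * Real.cosh (2 * Real.pi * s) + 2 ≤ Real.exp (2 * κ)) :
    DT.Lr s x' - DT.Lr s x ≤ κ * (x' - x) := by
  have hd : ∀ r, HasDerivAt (fun x => κ * x - DT.Lr s x) (κ * 1 - DT.el s r) r := fun r =>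
    ((hasDerivAt_id r).const_mul κ).sub (DT.hasDerivAt_Lr hs)
  have hm : Monotone (fun x => κ * x - DT.Lr s x) := by
    apply monotone_of_deriv_nonneg
    · exact fun r => (hd r).differentiableAt
    · intro r
      rw [(hd r).deriv]
      unfold DT.el
      have a1 := DT.LrDer.cosh_gt_cos (v := r) hs
      have a2 := Real.neg_one_le_cos (2 * Real.pi * r)
      have a3 := Real.log_le_log (by linarith only [a1] : 0 < 2 * Real.cosh (2 * Real.pi * s) -
        2 * Real.cos (2 * Real.pi * r)) (by linarith only [hκ, a2] : 2 * Real.cosh (2 * Real.pi * s) -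
        2 * Real.cos (2 * Real.pi * r) ≤ Real.exp (2 * κ))
      rw [Real.log_exp] at a3
      linarith only [a3]
  have := hm hx
  simp only at this
  linarith only [this]

private theorem uu_slope' {u v t κ T : ℝ} (huv : u ≤ v) (hT : 0 < T) (ht : |t| ≤ T)
    (hκ : 2 * Real.cosh (2 * Real.pi * T) + 2 ≤ Real.exp (2 * κ)) :
    uu v t - uu u t ≤ κ * (v - u) := by
  have a1 := Lr_diff_mono huv (abs_nonneg t) ht
  have a2 := Lr_slope' hT huv hκ
  rw [uu_Lr, uu_Lr]
  linarith only [a1, a2]

private theorem exp101' : 2 * Real.cosh (2 * Real.pi * (2625 / 10000)) + 2 ≤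
    Real.exp (2 * (101 / 100)) := by
  have h : NumI.chk [NumI.E.sub (NumI.E.exp (NumI.E.q 101 50)) (NumI.E.add (NumI.E.q 2 1)
      (NumI.E.mul (NumI.E.q 2 1) (NumI.E.cosh (NumI.E.mul NumI.E.pi (NumI.E.q 5250 10000)))))] 1
      [NumI.V.of 1 0 0] = true := by
    decide +kernel
  have hp := NumI.pos_of_chk (NumI.chk1 h (by norm_num) (x := 0) (by norm_num) (by norm_num))
  simp only [NumI.E.val] at hp
  rw [show 2 * Real.pi * (2625 / 10000) = Real.pi * (((5250 : ℤ) : ℝ) / ((10000 : ℕ) : ℝ)) by
    push_cast; ring, show (2 : ℝ) * (101 / 100) = ((101 : ℤ) : ℝ) / ((50 : ℕ) : ℝ) by norm_num]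
  have e2 : (((2 : ℤ) : ℝ) / ((1 : ℕ) : ℝ)) = 2 := by norm_num
  rw [e2] at hp
  linarith only [hp]

/-- near `1`, from the left -/
private theorem uu_near1 {u t : ℝ} (h0 : 995 / 1000 ≤ u) (h1 : u ≤ 1) (ht : |t| ≤ 2625 / 10000) :
    Real.pi / 2 * t - 51 / 10000 ≤ uu u t := by
  have a1 := uu_slope' h1 (by norm_num) ht exp101'
  have a2 : uu 1 t = Real.pi / 2 * |t| := by
    have e1 := uu_one_sub 0 t
    have e2 := uu_add_one 0 t
    rw [sub_zero] at e1
    rw [zero_add] at e2
    linarith only [e1, e2]
  have a3 := mul_le_mul_of_nonneg_left (le_abs_self t) (show 0 ≤ Real.pi / 2 by positivity)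
  linarith only [h0, a1, a2, a3]

section
open NumI (V)
open NumU.E

/-! ### `e2` -/

/-- variables `t, σ, ρ` -/
private def G2e (x1 x2 x3 : E) (e th b : E) : E :=
  sub (add (sub (add (uu (add x1 (var 1)) (sub e (var 0))) (uu (sub x1 (var 1)) (add e (var 0))))
    (add (uu x2 (var 0)) (uu x3 (var 0)))) th) b
private def eta2 : E := mul (var 2) (add (q 2 1) (mul (q 4 1) (var 1)))
private def b1e : E := mul (mul (q 2 1) pi) (mul (var 2) (var 1))
private def G20 (e th b : E) : E := G2e (q 7 10) (q 17 40) (q 39 40) e th b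
private def G12 (e th b : E) : E := G2e (q 62 100) (q 69 200) (q 179 200) e th b
/-- near `1` -/
private def Gc (e th : E) : E :=
  add (sub (sub (add (uu (add (q 7 10) (var 1)) (sub e (var 0))) (mul (mul (q 1 2) pi)
    (add e (var 0)))) (add (uu (q 17 40) (var 0)) (uu (q 39 40) (var 0)))) (q 51 10000)) th

private theorem k1 : chk [G20 eta2 (q 1 10) (q 0 1)] 30
    [V.of 100000 3800 15800, V.of 100000 (-29500) (-25000), V.of 100000 0 10450] = true := by
  decide +kernel
private theorem k1' : chk [Gc eta2 (q 1 10)] 30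
    [V.of 100000 3800 15800, V.of 100000 (-30000) (-29500), V.of 100000 0 10450] = true := by
  decide +kernel
private theorem k2 : chk [G20 (var 2) (q 1 10) (q 0 1)] 30
    [V.of 100000 3800 15800, V.of 100000 (-25000) 0, V.of 100000 0 10450] = true := by
  decide +kernel
private theorem k3 : chk [G20 (var 2) (q 1 10) b1e] 30
    [V.of 100000 3800 15800, V.of 100000 0 15000, V.of 100000 0 10450] = true := by
  decide +kernel
private theorem k4 : chk [G12 eta2 (q 108 1000) (q 0 1)] 30
    [V.of 100000 7500 11850, V.of 100000 (-30000) (-25000), V.of 100000 0 10450] = true := by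
  decide +kernel
private theorem k5 : chk [G12 (var 2) (q 108 1000) (q 0 1)] 30
    [V.of 100000 7500 11850, V.of 100000 (-25000) 0, V.of 100000 0 10450] = true := by
  decide +kernel
private theorem k6 : chk [G12 (var 2) (q 108 1000) b1e] 30
    [V.of 100000 7500 11850, V.of 100000 0 15000, V.of 100000 0 10450] = true := by
  decide +kernel
private theorem k7 : chk [G20 eta2 (q 112 1000) (q 0 1)] 30
    [V.of 100000 (-100) 3800, V.of 100000 (-29500) (-25000), V.of 100000 0 10450] = true := by
  decide +kernel
private theorem k7' : chk [Gc eta2 (q 112 1000)] 30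
    [V.of 100000 (-100) 3800, V.of 100000 (-30000) (-29500), V.of 100000 0 10450] = true := by
  decide +kernel
private theorem k8 : chk [G20 (var 2) (q 112 1000) (q 0 1)] 30
    [V.of 100000 (-100) 3800, V.of 100000 (-25000) 0, V.of 100000 0 10450] = true := by
  decide +kernel
private theorem k9 : chk [G20 (var 2) (q 112 1000) b1e] 30
    [V.of 100000 (-100) 3800, V.of 100000 0 15000, V.of 100000 0 10450] = true := by
  decide +kernel

end

/-- the row with explicit data -/
private def Row (x a b θ t σ η β : ℝ) : Prop :=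
  0 < uu (x + σ) (η - t) + uu (x - σ) (η + t) - (uu a t + uu b t) + θ - β

private theorem row_to {x a b θ t σ ρ : ℝ} (ha : a = x + 9 / 40) (hb : b = x + 31 / 40)
    (h : Row (x + 1 / 2) a b θ t σ (ρ * LT.th σ) (bR σ (ρ * LT.th σ))) :
    gR θ x t + bR σ (ρ * LT.th σ) ≤ fR ⟨x, -t⟩ ⟨σ, ρ * LT.th σ⟩ := by
  unfold Row at h
  unfold gR
  rw [fR_uu, fR_uu]
  simp only
  rw [show x + 1 / 2 + -(11 / 40) = a by rw [ha]; ring, show -t + 0 = -t by ring,
    show x + 1 / 2 - -(11 / 40) = b by rw [hb]; ring, show -t - 0 = -t by ring,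
    show -t - ρ * LT.th σ = -(ρ * LT.th σ + t) by ring,
    show -t + ρ * LT.th σ = ρ * LT.th σ - t by ring, uu_neg, uu_neg, uu_neg, uu_neg]
  linarith only [h]

/-- `x = 2/10`, both windows of heights -/
private theorem row20 {t σ ρ θ : ℝ} (ht : (38 / 1000 ≤ t ∧ t ≤ 158 / 1000 ∧ θ = 1 / 10) ∨
    (-(1 / 1000) ≤ t ∧ t ≤ 38 / 1000 ∧ θ = 112 / 1000)) (s0 : -(3 / 10) ≤ σ) (s1 : σ ≤ 15 / 100)
    (r0 : 0 ≤ ρ) (r1 : ρ ≤ 1045 / 10000) :
    Row (2 / 10 + 1 / 2) (17 / 40) (39 / 40) θ t σ (ρ * LT.th σ) (bR σ (ρ * LT.th σ)) := by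
  unfold Row
  rcases le_total σ (-(1 / 4)) with c | c
  · have hth : LT.th σ = 2 + 4 * σ := by
      rw [th_of_ge (by rw [abs_of_nonpos (by linarith only [s1, c])]; linarith only [c]), abs_of_nonpos (by linarith only [s1, c])]
      ring
    have hb : bR σ (ρ * LT.th σ) = 0 := by
      unfold bR
      rw [max_eq_right (by linarith only [s1, c])]
      ring
    rw [hb, hth]
    rcases le_total σ (-(295 / 1000)) with d | d
    · have hη0 : 0 ≤ ρ * (2 + 4 * σ) := mul_nonneg r0 (by linarith only [s0])
      have hη1 : ρ * (2 + 4 * σ) ≤ 1045 / 10000 := by nlinarith only [r1, c, s0]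
      have hn := uu_near1 (u := 2 / 10 + 1 / 2 - σ) (t := ρ * (2 + 4 * σ) + t) (by linarith only [d])
        (by linarith only [s0]) (by
          rw [abs_le]
          rcases ht with ⟨_, _, _⟩ | ⟨_, _, _⟩ <;> constructor <;> linarith)
      rcases ht with ⟨t0, t1, rfl⟩ | ⟨t0, t1, rfl⟩
      · have h := pos_of_chk (chk3 k1' (by norm_num) (x := t) (y := σ) (z := ρ)
          (by norm_num; linarith only [t0]) (by norm_num; linarith only [t1]) (by norm_num; linarith only [s0])
          (by norm_num; linarith only [d]) (by norm_num; linarith only [r0]) (by norm_num; linarith only [r1]))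
        simp only [Gc, eta2, E.val, NumI.lkR] at h
        norm_num at h hn ⊢
        linarith only [h, hn]
      · have h := pos_of_chk (chk3 k7' (by norm_num) (x := t) (y := σ) (z := ρ)
          (by norm_num; linarith only [t0]) (by norm_num; linarith only [t1]) (by norm_num; linarith only [s0])
          (by norm_num; linarith only [d]) (by norm_num; linarith only [r0]) (by norm_num; linarith only [r1]))
        simp only [Gc, eta2, E.val, NumI.lkR] at h
        norm_num at h hn ⊢
        linarith only [h, hn]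
    · rcases ht with ⟨t0, t1, rfl⟩ | ⟨t0, t1, rfl⟩
      · have h := pos_of_chk (chk3 k1 (by norm_num) (x := t) (y := σ) (z := ρ)
          (by norm_num; linarith only [t0]) (by norm_num; linarith only [t1]) (by norm_num; linarith only [d])
          (by norm_num; linarith only [c]) (by norm_num; linarith only [r0]) (by norm_num; linarith only [r1]))
        simp only [G20, G2e, eta2, E.val, NumI.lkR] at h
        norm_num at h ⊢
        linarith only [h]
      · have h := pos_of_chk (chk3 k7 (by norm_num) (x := t) (y := σ) (z := ρ)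
          (by norm_num; linarith only [t0]) (by norm_num; linarith only [t1]) (by norm_num; linarith only [d])
          (by norm_num; linarith only [c]) (by norm_num; linarith only [r0]) (by norm_num; linarith only [r1]))
        simp only [G20, G2e, eta2, E.val, NumI.lkR] at h
        norm_num at h ⊢
        linarith only [h]
  · have hth : LT.th σ = 1 := th_of_le (by rw [abs_le]; constructor <;> linarith only [c, s1])
    rw [hth, mul_one]
    rcases le_total σ 0 with d | d
    · have hb : bR σ ρ = 0 := by
        unfold bR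
        rw [max_eq_right d]
        ring
      rw [hb]
      rcases ht with ⟨t0, t1, rfl⟩ | ⟨t0, t1, rfl⟩
      · have h := pos_of_chk (chk3 k2 (by norm_num) (x := t) (y := σ) (z := ρ)
          (by norm_num; linarith only [t0]) (by norm_num; linarith only [t1]) (by norm_num; linarith only [c])
          (by norm_num; linarith only [d]) (by norm_num; linarith only [r0]) (by norm_num; linarith only [r1]))
        simp only [G20, G2e, E.val, NumI.lkR] at h
        norm_num at h ⊢
        linarith only [h]
      · have h := pos_of_chk (chk3 k8 (by norm_num) (x := t) (y := σ) (z := ρ)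
          (by norm_num; linarith only [t0]) (by norm_num; linarith only [t1]) (by norm_num; linarith only [c])
          (by norm_num; linarith only [d]) (by norm_num; linarith only [r0]) (by norm_num; linarith only [r1]))
        simp only [G20, G2e, E.val, NumI.lkR] at h
        norm_num at h ⊢
        linarith only [h]
    · have hb : bR σ ρ = 2 * Real.pi * ρ * σ := by
        unfold bR
        rw [max_eq_left d]
      rw [hb]
      rcases ht with ⟨t0, t1, rfl⟩ | ⟨t0, t1, rfl⟩
      · have h := pos_of_chk (chk3 k3 (by norm_num) (x := t) (y := σ) (z := ρ)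
          (by norm_num; linarith only [t0]) (by norm_num; linarith only [t1]) (by norm_num; linarith only [d])
          (by norm_num; linarith only [s1]) (by norm_num; linarith only [r0]) (by norm_num; linarith only [r1]))
        simp only [G20, G2e, b1e, E.val, NumI.lkR] at h
        norm_num at h ⊢
        linarith only [h]
      · have h := pos_of_chk (chk3 k9 (by norm_num) (x := t) (y := σ) (z := ρ)
          (by norm_num; linarith only [t0]) (by norm_num; linarith only [t1]) (by norm_num; linarith only [d])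
          (by norm_num; linarith only [s1]) (by norm_num; linarith only [r0]) (by norm_num; linarith only [r1]))
        simp only [G20, G2e, b1e, E.val, NumI.lkR] at h
        norm_num at h ⊢
        linarith only [h]

/-- `x = 12/100` -/
private theorem row12 {t σ ρ : ℝ} (t0 : 75 / 1000 ≤ t) (t1 : t ≤ 1185 / 10000)
    (s0 : -(3 / 10) ≤ σ) (s1 : σ ≤ 15 / 100) (r0 : 0 ≤ ρ) (r1 : ρ ≤ 1045 / 10000) :
    Row (12 / 100 + 1 / 2) (69 / 200) (179 / 200) (108 / 1000) t σ (ρ * LT.th σ)
      (bR σ (ρ * LT.th σ)) := by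
  unfold Row
  rcases le_total σ (-(1 / 4)) with c | c
  · have hth : LT.th σ = 2 + 4 * σ := by
      rw [th_of_ge (by rw [abs_of_nonpos (by linarith only [s1, c])]; linarith only [c]), abs_of_nonpos (by linarith only [s1, c])]
      ring
    have hb : bR σ (ρ * LT.th σ) = 0 := by
      unfold bR
      rw [max_eq_right (by linarith only [s1, c])]
      ring
    rw [hb, hth]
    have h := pos_of_chk (chk3 k4 (by norm_num) (x := t) (y := σ) (z := ρ)
      (by norm_num; linarith only [t0]) (by norm_num; linarith only [t1]) (by norm_num; linarith only [s0])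
      (by norm_num; linarith only [c]) (by norm_num; linarith only [r0]) (by norm_num; linarith only [r1]))
    simp only [G12, G2e, eta2, E.val, NumI.lkR] at h
    norm_num at h ⊢
    linarith only [h]
  · have hth : LT.th σ = 1 := th_of_le (by rw [abs_le]; constructor <;> linarith only [c, s1])
    rw [hth, mul_one]
    rcases le_total σ 0 with d | d
    · have hb : bR σ ρ = 0 := by
        unfold bR
        rw [max_eq_right d]
        ring
      rw [hb]
      have h := pos_of_chk (chk3 k5 (by norm_num) (x := t) (y := σ) (z := ρ)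
        (by norm_num; linarith only [t0]) (by norm_num; linarith only [t1]) (by norm_num; linarith only [c])
        (by norm_num; linarith only [d]) (by norm_num; linarith only [r0]) (by norm_num; linarith only [r1]))
      simp only [G12, G2e, E.val, NumI.lkR] at h
      norm_num at h ⊢
      linarith only [h]
    · have hb : bR σ ρ = 2 * Real.pi * ρ * σ := by
        unfold bR
        rw [max_eq_left d]
      rw [hb]
      have h := pos_of_chk (chk3 k6 (by norm_num) (x := t) (y := σ) (z := ρ)
        (by norm_num; linarith only [t0]) (by norm_num; linarith only [t1]) (by norm_num; linarith only [d])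
        (by norm_num; linarith only [s1]) (by norm_num; linarith only [r0]) (by norm_num; linarith only [r1]))
      simp only [G12, G2e, b1e, E.val, NumI.lkR] at h
      norm_num at h ⊢
      linarith only [h]

theorem e2 : ∀ θ x t σ ρ : ℝ, Tgt θ x t → -(3 / 10) ≤ σ → σ ≤ 15 / 100 → 0 ≤ ρ →
    ρ ≤ 1045 / 10000 → gR θ x t + bR σ (ρ * LT.th σ) ≤ fR ⟨x, -t⟩ ⟨σ, ρ * LT.th σ⟩ := by
  intro θ x t σ ρ T s0 s1 r0 r1
  have mono : ∀ θ' : ℝ, θ' ≤ θ → gR θ' x t + bR σ (ρ * LT.th σ) ≤ fR ⟨x, -t⟩ ⟨σ, ρ * LT.th σ⟩ →
      gR θ x t + bR σ (ρ * LT.th σ) ≤ fR ⟨x, -t⟩ ⟨σ, ρ * LT.th σ⟩ := by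
    intro θ' h1 h2
    unfold gR at h2 ⊢
    linarith only [h1, h2]
  rcases T.or with ⟨rfl, t0, t1, rfl⟩ | ⟨rfl, t0, t1, rfl⟩ | ⟨rfl, t0, t1, rfl⟩ | ⟨rfl, t0, t1, rfl⟩
  · exact row_to (by norm_num) (by norm_num) (row20 (Or.inl ⟨t0, t1, rfl⟩) s0 s1 r0 r1)
  · exact mono (1 / 10) (by norm_num) (row_to (by norm_num) (by norm_num)
      (row20 (Or.inl ⟨by linarith only [t0], t1, rfl⟩) s0 s1 r0 r1))
  · exact row_to (by norm_num) (by norm_num) (row12 t0 t1 s0 s1 r0 r1)
  · rcases le_total t (38 / 1000) with c | c
    · exact row_to (by norm_num) (by norm_num) (row20 (Or.inr ⟨t0, c, rfl⟩) s0 s1 r0 r1)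
    · exact mono (1 / 10) (by norm_num) (row_to (by norm_num) (by norm_num)
        (row20 (Or.inl ⟨c, by linarith only [t1], rfl⟩) s0 s1 r0 r1))

end ZD

end Pool.Agent.Work.MP_b30479_gt.G2
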