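import Pool.Agent.Work.MP_b30479_gt.G2.ZReB
import Pool.Agent.Work.NumU.Tree
import Pool.Agent.Work.NumU.TreeS

/-!
# The loss at a hinge between two rings: certificates (e4b, p)
-/

set_option linter.unusedSimpArgs false
set_option linter.unusedVariables false

namespace Pool.Agent.Work.MP_b30479_gt.G2

open VOL NumU

namespace ZD

open NumU.E ZE

theorem e4b_pD1X1_h1_q1 : Pool.Agent.Work.NumU.runT [sub (add (add (q 92 1000) (mul (q 94 100) ZE.r)) (mul (mul (mul (q 2 1) pi) ZE.r) (add (q 9 100) (mul (mul (q 4 1) ZE.s) (sub (mul (q 4 1) ZE.s) (q 1 1)))))) (add (add (E.uu (add ZE.x ZE.s) (add ZE.y ZE.h)) (E.uu (sub (add (q 1 1) ZE.x) ZE.s) (sub ZE.y ZE.h))) (add (neg (E.uu (add ZE.x (q 225 1000)) (add ZE.y (mul (q 9 10) ZE.r)))) (neg (E.uu (add ZE.x (q 775 1000)) (sub ZE.y (mul (q 9 10) ZE.r)))))), sub (sub ZE.x ZE.s) (q (-300) 10000), sub ZE.y (mul (q 56 100) ZE.x), sub (neg ZE.y) (mul (q 56 100) ZE.x)] 57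
    26526193313713060727120316407513456917043332853831901141854850396294857292339897035065720235870708375063074387462016218649174597381488891120811743519641328473025384041982418258862701287499158331321056024165597010503496431238970445797595430716930514659598618212421049119219561592135693172959154676540148445480544595846754063585945297650824108299589269461533383273342418462738670999547453828629850742431499843542612257932490841805122435857421976828409910605950650001569967925470882119603915637810726600818587597602198532817300849941852922796437548262506918025672568833956181524280501721202108074704077816747458336648488257316399784106282249169097892989885584271886073614567918340983686946021874019741022642483049562044089985805651018726625058533821495023436396859092930146973848625425957304211423514699064006314790493461274567083727103335550819270661594008921664712072321335339358544152357160765843215997515368475597901743684210784514032936700393775790019144267667771034886799543416813818579515507424251787993287861477310557321547280589453605896481359065155028797002183936497702876538940930176444670673569454897394451335780901138929543632248663269405442935695654112640192106710368741435644479001755488850025047859616590620908573754182121497015929021508069319897866914870599872293275515083499172887061841651858578156662034241431575800104564785063665826212313895575844090458371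
    (Pool.Agent.Work.NumI.setL 1 (Pool.Agent.Work.NumI.setL 2 (Pool.Agent.Work.NumI.setL 0 ([NumI.V.of 10000 0 1700, NumI.V.of 10000 (-560) 560, NumI.V.of 10000 300 2000, NumI.V.of 10000 0 1045])))) =
    13478410959136286357336780848034406246439044356120830038941185407011197885643926384192011235637581834865238714692128416886225744672825089118097252834504411018438726987260720208875424740758288360063044765823996040595239274276118165781702098316644942922208655185076827881543680831096937411545473610420533160683984650883940042393876901434569302875342487585158249831086794924979838659776197761532560235452898937308198361341544945744161349395835804547668852111330046785819552705353964143911003345592899051827090970834779600270900928547195378373703251342920416718585763169217235197248029074003296206429908136879127372894898664008135930037079406629943352327867170032544334177800220473487289224526209856535037375656179281892913125045601414287645757798039178151636140029412655759824390996970530994492963345636615178867001960899039068434397576480271613750612995406562593057893368214577474365386487955975828652141468884188338377205012354544904952670782762043196575335981865332295340540506221986669056448598521346705391393492210371060099507674009835729224985976342483820004860589765429498583052536969783331911734435665617156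 := by
  decide +kernel

theorem e4b_pD1X1_h1_q2 : Pool.Agent.Work.NumU.runT [sub (add (add (q 92 1000) (mul (q 94 100) ZE.r)) (mul (mul (mul (q 2 1) pi) ZE.r) (add (q 9 100) (mul (mul (q 4 1) ZE.s) (sub (mul (q 4 1) ZE.s) (q 1 1)))))) (add (add (E.uu (add ZE.x ZE.s) (add ZE.y ZE.h)) (E.uu (sub (add (q 1 1) ZE.x) ZE.s) (sub ZE.y ZE.h))) (add (neg (E.uu (add ZE.x (q 225 1000)) (add ZE.y (mul (q 9 10) ZE.r)))) (neg (E.uu (add ZE.x (q 775 1000)) (sub ZE.y (mul (q 9 10) ZE.r)))))), sub (sub ZE.x ZE.s) (q (-300) 10000), sub ZE.y (mul (q 56 100) ZE.x), sub (neg ZE.y) (mul (q 56 100) ZE.x)] 56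
    842400684946017897333548803002150390402440272257551877433824087938199867852745399012000702227348864679077419668258026055389109042051568069881078302156525688652420436703795013054714046297393022503940297863999752537202454642257385361356381144790308932638040949067301742596480051943558588221592100651283322542749040680246252649617306339660581429708905474072390614442924682811239916236012360095785014715806183581762397583846559109010084337239737784229303256958127924113722044084622758994437709099556190739193185677173725016931308034199711148356453208932526044911610198076077199828001817125206012901869258554945460805931166500508495627317462914371459520491698127034020886112513779592955576532888116033439835978511205118307070315350088392977859862377448634477258751838290984989024437310658187155810209102288448679187622556189941777149848530016975859413312212910162066118335513411092147836655497248489290758841805261771148575313272159056559541923922627699785958498866583268458783781638874166816028037407584169086962093263148191256219229625614733076561623521405238750303786860339343661440783560611458244483402229101072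
    (Pool.Agent.Work.NumI.setL 3 (Pool.Agent.Work.NumI.setR 1 (Pool.Agent.Work.NumI.setL 2 (Pool.Agent.Work.NumI.setL 0 ([NumI.V.of 10000 0 1700, NumI.V.of 10000 (-560) 560, NumI.V.of 10000 300 2000, NumI.V.of 10000 0 1045]))))) =
    1005265814483814098818704653646976186398496429641380193627766928250242768860500676267973159898818045784258252892180044253967960492871539763021783085121266589718395600772434136776482719337982942403235003982695787859811509302695778922768991938322786822178364913304561187115410279513320023832117297103316771535382327592742003688454710029881208897091995331357404293014873688637484056702614416665659091585249278385912236859897152309373431203912735204735693223527535060912223819027979661293628460456239252825016342497668823166157282659042539238483823632380539793956835415313121227872131641733714860124186895031311477646230602776998097300141493517272148218896863739450816655243717906741625568461690643016341441010078413640456396503030901241859505492609274608067875202317717502819272401983782788616822914086981313679291073802439139241171732660841178009027202793536623100228116761053812662610698932229579091626042347245303879753357747223068648114844331475706761458193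 := by
  decide +kernel

theorem e4b_pD1X1_h1_q3 : Pool.Agent.Work.NumU.runT [sub (add (add (q 92 1000) (mul (q 94 100) ZE.r)) (mul (mul (mul (q 2 1) pi) ZE.r) (add (q 9 100) (mul (mul (q 4 1) ZE.s) (sub (mul (q 4 1) ZE.s) (q 1 1)))))) (add (add (E.uu (add ZE.x ZE.s) (add ZE.y ZE.h)) (E.uu (sub (add (q 1 1) ZE.x) ZE.s) (sub ZE.y ZE.h))) (add (neg (E.uu (add ZE.x (q 225 1000)) (add ZE.y (mul (q 9 10) ZE.r)))) (neg (E.uu (add ZE.x (q 775 1000)) (sub ZE.y (mul (q 9 10) ZE.r)))))), sub (sub ZE.x ZE.s) (q (-300) 10000), sub ZE.y (mul (q 56 100) ZE.x), sub (neg ZE.y) (mul (q 56 100) ZE.x)] 56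
    1005265814483814098818704653646976186398496429641380193627766928250242768860500676267973159898818045784258252892180044253967960492871539763021783085121266589718395600772434136776482719337982942403235003982695787859811509302695778922768991938322786822178364913304561187115410279513320023832117297103316771535382327592742003688454710029881208897091995331357404293014873688637484056702614416665659091585249278385912236859897152309373431203912735204735693223527535060912223819027979661293628460456239252825016342497668823166157282659042539238483823632380539793956835415313121227872131641733714860124186895031311477646230602776998097300141493517272148218896863739450816655243717906741625568461690643016341441010078413640456396503030901241859505492609274608067875202317717502819272401983782788616822914086981313679291073802439139241171732660841178009027202793536623100228116761053812662610698932229579091626042347245303879753357747223068648114844331475706761458192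
    (Pool.Agent.Work.NumI.setR 3 (Pool.Agent.Work.NumI.setR 1 (Pool.Agent.Work.NumI.setL 2 (Pool.Agent.Work.NumI.setL 0 ([NumI.V.of 10000 0 1700, NumI.V.of 10000 (-560) 560, NumI.V.of 10000 300 2000, NumI.V.of 10000 0 1045]))))) =
    1091046574561592050058410391609046096700354249171655591135847286539936304456560786927622616644216066583280515453018509356696344180645762179832028194557198925302066299867066215439983503224101799685033218748573818077131713205411225231329940302415827173865473011424298400649078823975750862404049000415857267057292518044444083015069477400916147545989067910938101304514594920309889379445142986603767444923301149245837896400251883813780975778569480155822136044997552318909506728674289140214055925031846020939954628663632809779034144355901808871560381524642673083494661952468340208725831171340184247761593659617876110233461690578782989137684926456308182418417282151406660223930513531498408622962381240124161573751191513942150235910628421252021832131194350626977952081876196759344792658610284820705539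 := by
  decide +kernel

theorem e4b_pD1X1_h1_q4 : Pool.Agent.Work.NumU.runT [sub (add (add (q 92 1000) (mul (q 94 100) ZE.r)) (mul (mul (mul (q 2 1) pi) ZE.r) (add (q 9 100) (mul (mul (q 4 1) ZE.s) (sub (mul (q 4 1) ZE.s) (q 1 1)))))) (add (add (E.uu (add ZE.x ZE.s) (add ZE.y ZE.h)) (E.uu (sub (add (q 1 1) ZE.x) ZE.s) (sub ZE.y ZE.h))) (add (neg (E.uu (add ZE.x (q 225 1000)) (add ZE.y (mul (q 9 10) ZE.r)))) (neg (E.uu (add ZE.x (q 775 1000)) (sub ZE.y (mul (q 9 10) ZE.r)))))), sub (sub ZE.x ZE.s) (q (-300) 10000), sub ZE.y (mul (q 56 100) ZE.x), sub (neg ZE.y) (mul (q 56 100) ZE.x)] 58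
    1091046574561592050058410391609046096700354249171655591135847286539936304456560786927622616644216066583280515453018509356696344180645762179832028194557198925302066299867066215439983503224101799685033218748573818077131713205411225231329940302415827173865473011424298400649078823975750862404049000415857267057292518044444083015069477400916147545989067910938101304514594920309889379445142986603767444923301149245837896400251883813780975778569480155822136044997552318909506728674289140214055925031846020939954628663632809779034144355901808871560381524642673083494661952468340208725831171340184247761593659617876110233461690578782989137684926456308182418417282151406660223930513531498408622962381240124161573751191513942150235910628421252021832131194350626977952081876196759344792658610284820705538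
    (Pool.Agent.Work.NumI.setR 2 (Pool.Agent.Work.NumI.setL 0 ([NumI.V.of 10000 0 1700, NumI.V.of 10000 (-560) 560, NumI.V.of 10000 300 2000, NumI.V.of 10000 0 1045]))) =
    711941108778124193536083425371130374368025918000748401682938537533857685570753117068807095552602738871766606841872214214047296273155474110728465459616764364971875828608327709083373890528083530912772634310521956181660202633990480065260143423473194193147711151771648147331827981398251457413041920938950974845045337168711527540822966205408299051405779864381928089826011822369864550993141323373934081492340607562545448011554622959403064792238583124245757133301009261513714630807051564128542926343195812842168134751744998636738997436997594806672341524876585013453765485773848053992266398740141860002639898566514383203313263299532757660595521129871243962076881725609773403084919756524116242465082313057956692746826532222131884954546035930337795 := by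
  decide +kernel

theorem e4b_pD1X1_h1_q5 : Pool.Agent.Work.NumU.runT [sub (add (add (q 92 1000) (mul (q 94 100) ZE.r)) (mul (mul (mul (q 2 1) pi) ZE.r) (add (q 9 100) (mul (mul (q 4 1) ZE.s) (sub (mul (q 4 1) ZE.s) (q 1 1)))))) (add (add (E.uu (add ZE.x ZE.s) (add ZE.y ZE.h)) (E.uu (sub (add (q 1 1) ZE.x) ZE.s) (sub ZE.y ZE.h))) (add (neg (E.uu (add ZE.x (q 225 1000)) (add ZE.y (mul (q 9 10) ZE.r)))) (neg (E.uu (add ZE.x (q 775 1000)) (sub ZE.y (mul (q 9 10) ZE.r)))))), sub (sub ZE.x ZE.s) (q (-300) 10000), sub ZE.y (mul (q 56 100) ZE.x), sub (neg ZE.y) (mul (q 56 100) ZE.x)] 58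
    44496319298632762096005214085695648398001619875046775105183658595866105348172069816800443472037671179485412927617013388377956017072217131920529091226047772810742239288020481817710868158005220682048289644407622261353762664624405004078758963967074637071731946985728009208239248837390716088315120058684435927815333573044470471301435387838018690712861241523870505614125738898116534437071332710870880093271287972659090500722163934962691549514911445265359820831313078844607164425440722758033932896449738302635508421984062414796187339812349675417021345304786563340860342860865503374516649921258866250164993660407148950207078956220797353787220070616952747629805107850610837692807484782757265154067644566122293296676658263883242809659127245646112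
    (Pool.Agent.Work.NumI.setL 2 (Pool.Agent.Work.NumI.setR 0 ([NumI.V.of 10000 0 1700, NumI.V.of 10000 (-560) 560, NumI.V.of 10000 300 2000, NumI.V.of 10000 0 1045]))) =
    2300405790862384682242666434168431075188440376717683831708674712403000419003463757762934882391982126684539678708889403895650174827930478596364487235118905137016041644822729738277260897708067932685559447442962425465981490882817442869472600980674017455828116368769793785763474869429026844779023412555230910958237965094818867209441000836564110517312817142488144504016448805302838732268044937029156918841704269942165498401312316873259407994990589265513975331558761025296634277119150613368953250615174632727457340613346489460987339190987144150444670242589866713165108252924315146714351239545217663418606443644144791002735915582706266236026790813169927824993324218735067799873543794966794655191710953176421516910338098 := by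
  decide +kernel

theorem e4b_pD1X1_h1_q6 : Pool.Agent.Work.NumU.runT [sub (add (add (q 92 1000) (mul (q 94 100) ZE.r)) (mul (mul (mul (q 2 1) pi) ZE.r) (add (q 9 100) (mul (mul (q 4 1) ZE.s) (sub (mul (q 4 1) ZE.s) (q 1 1)))))) (add (add (E.uu (add ZE.x ZE.s) (add ZE.y ZE.h)) (E.uu (sub (add (q 1 1) ZE.x) ZE.s) (sub ZE.y ZE.h))) (add (neg (E.uu (add ZE.x (q 225 1000)) (add ZE.y (mul (q 9 10) ZE.r)))) (neg (E.uu (add ZE.x (q 775 1000)) (sub ZE.y (mul (q 9 10) ZE.r)))))), sub (sub ZE.x ZE.s) (q (-300) 10000), sub ZE.y (mul (q 56 100) ZE.x), sub (neg ZE.y) (mul (q 56 100) ZE.x)] 56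
    8985960120556190165010415758470433887454845221553452467612010595324220386732280303761464384343680182361483119956599233967383495421603432017048778262183223191468912675088788040145550381672140362052966591574071974476490198761005636208877347580757880686828579565507006975638573708707136112418060205293870745930617051151636200036878909517828556708253191962844314468814253145714213797922050535270144214225407304461583978130126237786169562480431989318413966138901410255064977644996682083472473635215525909091630236770884724456981793714793531837674493135116666848301204112985606041852934529473506497728931420484940589854437170244946352484479651613945030566380172729433858593256030449089041621842620910845396550431008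
    (Pool.Agent.Work.NumI.setL 3 (Pool.Agent.Work.NumI.setL 1 (Pool.Agent.Work.NumI.setR 2 (Pool.Agent.Work.NumI.setR 0 ([NumI.V.of 10000 0 1700, NumI.V.of 10000 (-560) 560, NumI.V.of 10000 300 2000, NumI.V.of 10000 0 1045]))))) =
    2496702685061281669622579209256344961740432595934535996361503332696998175615200327318574347074730090513048077788173934147644347873265674358299292543001437197068766731259088875178829888366775742661447508990828749578406610438225959007110725385745295735775925341301587765542858270520004975731123753450101970915734183998537862883193795250319878568636762615734357487615320702885851955558635366762498638576376023652202591415158648390794507260162124486634149060541500397186430559608113000815912505480869000679440513209876975843087185703666323187153514785 := by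
  decide +kernel

theorem e4b_pD1X1_h1_q7 : Pool.Agent.Work.NumU.runT [sub (add (add (q 92 1000) (mul (q 94 100) ZE.r)) (mul (mul (mul (q 2 1) pi) ZE.r) (add (q 9 100) (mul (mul (q 4 1) ZE.s) (sub (mul (q 4 1) ZE.s) (q 1 1)))))) (add (add (E.uu (add ZE.x ZE.s) (add ZE.y ZE.h)) (E.uu (sub (add (q 1 1) ZE.x) ZE.s) (sub ZE.y ZE.h))) (add (neg (E.uu (add ZE.x (q 225 1000)) (add ZE.y (mul (q 9 10) ZE.r)))) (neg (E.uu (add ZE.x (q 775 1000)) (sub ZE.y (mul (q 9 10) ZE.r)))))), sub (sub ZE.x ZE.s) (q (-300) 10000), sub ZE.y (mul (q 56 100) ZE.x), sub (neg ZE.y) (mul (q 56 100) ZE.x)] 56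
    2496702685061281669622579209256344961740432595934535996361503332696998175615200327318574347074730090513048077788173934147644347873265674358299292543001437197068766731259088875178829888366775742661447508990828749578406610438225959007110725385745295735775925341301587765542858270520004975731123753450101970915734183998537862883193795250319878568636762615734357487615320702885851955558635366762498638576376023652202591415158648390794507260162124486634149060541500397186430559608113000815912505480869000679440513209876975843087185703666323187153514784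
    (Pool.Agent.Work.NumI.setR 3 (Pool.Agent.Work.NumI.setL 1 (Pool.Agent.Work.NumI.setR 2 (Pool.Agent.Work.NumI.setR 0 ([NumI.V.of 10000 0 1700, NumI.V.of 10000 (-560) 560, NumI.V.of 10000 300 2000, NumI.V.of 10000 0 1045]))))) =
    14069825748375883559453660444601227402618452309405796643932533212796771407716593756956074567995994138154482651586759216550475107403377340190874295286950520453452217197961549661298136592290298919893818273877279713262748755906897964890563901693397723798596732824662886403806703529810816014117269717941855584160019844047222652305688498281142597587837106265467053994167929521787659285925760748544019190711656355771650564 := by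
  decide +kernel

theorem e4b_pD1X1_h1_q8 : Pool.Agent.Work.NumU.runT [sub (add (add (q 92 1000) (mul (q 94 100) ZE.r)) (mul (mul (mul (q 2 1) pi) ZE.r) (add (q 9 100) (mul (mul (q 4 1) ZE.s) (sub (mul (q 4 1) ZE.s) (q 1 1)))))) (add (add (E.uu (add ZE.x ZE.s) (add ZE.y ZE.h)) (E.uu (sub (add (q 1 1) ZE.x) ZE.s) (sub ZE.y ZE.h))) (add (neg (E.uu (add ZE.x (q 225 1000)) (add ZE.y (mul (q 9 10) ZE.r)))) (neg (E.uu (add ZE.x (q 775 1000)) (sub ZE.y (mul (q 9 10) ZE.r)))))), sub (sub ZE.x ZE.s) (q (-300) 10000), sub ZE.y (mul (q 56 100) ZE.x), sub (neg ZE.y) (mul (q 56 100) ZE.x)] 56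
    879364109273492722465853777787576712663653269337862290245783325799798212982287109809754660499749633634655165724172451034404694212711083761929643455434407528340763574872596853831133537018143682493363642117329982078921797244181122805660243855837357737412295801541430400237918970613176000882329357371365974010001240252951415769105531142571412349239819141591690874635495595111728705370360046784001199419478522235728160
    (Pool.Agent.Work.NumI.setL 3 (Pool.Agent.Work.NumI.setR 1 (Pool.Agent.Work.NumI.setR 2 (Pool.Agent.Work.NumI.setR 0 ([NumI.V.of 10000 0 1700, NumI.V.of 10000 (-560) 560, NumI.V.of 10000 300 2000, NumI.V.of 10000 0 1045]))))) =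
    167175169184249235734086629786455015375925167118359854714188664570734489855517188439468464301578908214450299424340049141109463022688151379593576913831581805999173352471521084756349610067619015761468600609 := by
  decide +kernel

theorem e4b_pD1X1_h1_q9 : Pool.Agent.Work.NumU.runT [sub (add (add (q 92 1000) (mul (q 94 100) ZE.r)) (mul (mul (mul (q 2 1) pi) ZE.r) (add (q 9 100) (mul (mul (q 4 1) ZE.s) (sub (mul (q 4 1) ZE.s) (q 1 1)))))) (add (add (E.uu (add ZE.x ZE.s) (add ZE.y ZE.h)) (E.uu (sub (add (q 1 1) ZE.x) ZE.s) (sub ZE.y ZE.h))) (add (neg (E.uu (add ZE.x (q 225 1000)) (add ZE.y (mul (q 9 10) ZE.r)))) (neg (E.uu (add ZE.x (q 775 1000)) (sub ZE.y (mul (q 9 10) ZE.r)))))), sub (sub ZE.x ZE.s) (q (-300) 10000), sub ZE.y (mul (q 56 100) ZE.x), sub (neg ZE.y) (mul (q 56 100) ZE.x)] 56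
    167175169184249235734086629786455015375925167118359854714188664570734489855517188439468464301578908214450299424340049141109463022688151379593576913831581805999173352471521084756349610067619015761468600608
    (Pool.Agent.Work.NumI.setR 3 (Pool.Agent.Work.NumI.setR 1 (Pool.Agent.Work.NumI.setR 2 (Pool.Agent.Work.NumI.setR 0 ([NumI.V.of 10000 0 1700, NumI.V.of 10000 (-560) 560, NumI.V.of 10000 300 2000, NumI.V.of 10000 0 1045]))))) =
    1 := by
  decide +kernel

theorem e4b_pD1X1 {x y s r : ℝ} (ua1 : 0 / 10000 ≤ x) (ua2 : x ≤ 1700 / 10000) (ua3 : -(560 / 10000) ≤ y) (ua4 : y ≤ 560 / 10000) (ua5 : 300 / 10000 ≤ s) (ua6 : s ≤ 2000 / 10000) (ua7 : 0 / 10000 ≤ r) (ua8 : r ≤ 1045 / 10000) (ua9 : x - s ≤ -(300 / 10000)) (ua10 : y ≤ 56 / 100 * x) (ua11 : -y ≤ 56 / 100 * x) :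
    NumU.uu (x + s) (y + 4 * (r * s)) + NumU.uu (1 + x - s) (y - 4 * (r * s)) + (-NumU.uu (x + 225 / 1000) (y + 9 / 10 * r) + -NumU.uu (x + 775 / 1000) (y - 9 / 10 * r)) < (92 / 1000 + 94 / 100 * r + 2 * Real.pi * r * (9 / 100 + 4 * s * (4 * s - 1))) := by
  have h : chkT [sub (add (add (q 92 1000) (mul (q 94 100) ZE.r)) (mul (mul (mul (q 2 1) pi) ZE.r) (add (q 9 100) (mul (mul (q 4 1) ZE.s) (sub (mul (q 4 1) ZE.s) (q 1 1)))))) (add (add (E.uu (add ZE.x ZE.s) (add ZE.y ZE.h)) (E.uu (sub (add (q 1 1) ZE.x) ZE.s) (sub ZE.y ZE.h))) (add (neg (E.uu (add ZE.x (q 225 1000)) (add ZE.y (mul (q 9 10) ZE.r)))) (neg (E.uu (add ZE.x (q 775 1000)) (sub ZE.y (mul (q 9 10) ZE.r)))))), sub (sub ZE.x ZE.s) (q (-300) 10000), sub ZE.y (mul (q 56 100) ZE.x), sub (neg ZE.y) (mul (q 56 100) ZE.x)] 60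
    108651287812968696738284816005175119532209491369295467077037467223223735469424218255629190086126421504258352691044418431587019150874578498030844901456450881425511973035959985188301624473596552525091045474982285355022321382354822945986950884216547388045715940198076617192323324281387799236440697555108448032688310664588304644448031939177775547595117647714440737887610546023377596414146370882067868640999423359150539808491482488033781497272000417089166993841973862406430588622728733161897638452472736156952934799778605190419664281361829571774208197683228336233154841943884519523452935050043834673987902737397589346912207901967973515699332092596624969686571353177645357525270193524669181730905595984859228743610571006132592581859946572704256239754532843615995481534844641882004883969744721118049990716207366169865381861217380626774946215262416155732629889060543138660648228189550012596848054930496893812725822949276049005542130527373369478908724812905635918414920367190158896330929835269400901695518409735323620507080611064042789057661294401969751987646730874997952520945403894590982303502050002717371078940487259727672671358571065055410717690524751484694264609399245374226869085670364920399785991190482329702596032989555183241518097129969651777245272097051934301662883309977076913256509782012612145405303406012736129687692252903734477228297359620775224165637716278657394517487904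
    [NumI.V.of 10000 0 1700, NumI.V.of 10000 (-560) 560, NumI.V.of 10000 300 2000, NumI.V.of 10000 0 1045] = true :=
      Pool.Agent.Work.NumU.chkT_of (Pool.Agent.Work.NumU.runT_split rfl rfl rfl
        (Pool.Agent.Work.NumU.runT_split rfl rfl rfl
          (Pool.Agent.Work.NumU.runT_split rfl rfl rfl
            e4b_pD1X1_h1_q1
            (Pool.Agent.Work.NumU.runT_split rfl rfl rfl
              e4b_pD1X1_h1_q2
              e4b_pD1X1_h1_q3))
          e4b_pD1X1_h1_q4)
        (Pool.Agent.Work.NumU.runT_split rfl rfl rfl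
          e4b_pD1X1_h1_q5
          (Pool.Agent.Work.NumU.runT_split rfl rfl rfl
            (Pool.Agent.Work.NumU.runT_split rfl rfl rfl
              e4b_pD1X1_h1_q6
              e4b_pD1X1_h1_q7)
            (Pool.Agent.Work.NumU.runT_split rfl rfl rfl
              e4b_pD1X1_h1_q8
              e4b_pD1X1_h1_q9))))
  obtain ⟨f, hf, hp⟩ := chkT4 h (by norm_num) (x := x) (y := y) (z := s) (w := r)
    (by norm_num; linarith only [ua1]) (by norm_num; linarith only [ua2]) (by norm_num; linarith only [ua3]) (by norm_num; linarith only [ua4]) (by norm_num; linarith only [ua5]) (by norm_num; linarith only [ua6]) (by norm_num; linarith only [ua7]) (by norm_num; linarith only [ua8])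
  by_contra hc
  push Not at hc
  simp only [List.mem_cons, List.not_mem_nil, or_false] at hf
  rcases hf with rfl | rfl | rfl | rfl
  · simp only [ZE.x, ZE.y, ZE.s, ZE.r, ZE.h, E.val, NumI.lkR] at hp
    push_cast at hp
    linarith only [hc, hp]
  · simp only [ZE.x, ZE.y, ZE.s, ZE.r, ZE.h, E.val, NumI.lkR] at hp
    push_cast at hp
    linarith only [ua9, hp]
  · simp only [ZE.x, ZE.y, ZE.s, ZE.r, ZE.h, E.val, NumI.lkR] at hp
    push_cast at hp
    linarith only [ua10, hp]
  · simp only [ZE.x, ZE.y, ZE.s, ZE.r, ZE.h, E.val, NumI.lkR] at hp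
    push_cast at hp
    linarith only [ua11, hp]

theorem e4b_pD2X1 {x y s r : ℝ} (ua1 : 0 / 10000 ≤ x) (ua2 : x ≤ 1950 / 10000) (ua3 : -(560 / 10000) ≤ y) (ua4 : y ≤ 560 / 10000) (ua5 : 300 / 10000 ≤ s) (ua6 : s ≤ 2000 / 10000) (ua7 : 0 / 10000 ≤ r) (ua8 : r ≤ 1045 / 10000) (ua9 : -(300 / 10000) ≤ x - s) (ua10 : x - s ≤ 0) (ua11 : y ≤ 56 / 100 * x) (ua12 : -y ≤ 56 / 100 * x) :
    NumU.uu (x + s) (y + 4 * (r * s)) + (((300 / 10000) + (x - s)) * NumI.lnA (300 / 10000) (y - 4 * (r * s)) - NumU.uu (300 / 10000) (y - 4 * (r * s))) + (-NumU.uu (x + 225 / 1000) (y + 9 / 10 * r) + -NumU.uu (x + 775 / 1000) (y - 9 / 10 * r)) < (92 / 1000 + 94 / 100 * r + 2 * Real.pi * r * (9 / 100 + 4 * s * (4 * s - 1))) := by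
  have h : chkT [sub (add (add (q 92 1000) (mul (q 94 100) ZE.r)) (mul (mul (mul (q 2 1) pi) ZE.r) (add (q 9 100) (mul (mul (q 4 1) ZE.s) (sub (mul (q 4 1) ZE.s) (q 1 1)))))) (add (add (E.uu (add ZE.x ZE.s) (add ZE.y ZE.h)) (sub (mul (add (q 300 10000) (sub ZE.x ZE.s)) (E.lnA (q 300 10000) (sub ZE.y ZE.h))) (E.uu (q 300 10000) (sub ZE.y ZE.h)))) (add (neg (E.uu (add ZE.x (q 225 1000)) (add ZE.y (mul (q 9 10) ZE.r)))) (neg (E.uu (add ZE.x (q 775 1000)) (sub ZE.y (mul (q 9 10) ZE.r)))))), sub (q (-300) 10000) (sub ZE.x ZE.s), sub ZE.x ZE.s, sub ZE.y (mul (q 56 100) ZE.x), sub (neg ZE.y) (mul (q 56 100) ZE.x)] 60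
    14533150871714091198334950620100510450260687051919725303665090597404077496734679209811954219675649861715960622916591678873633306843823645451439480926878221112749171018323991873633374978506228881277162355320159238620901221711344460204072512848416
    [NumI.V.of 10000 0 1950, NumI.V.of 10000 (-560) 560, NumI.V.of 10000 300 2000, NumI.V.of 10000 0 1045] = true := by
    decide +kernel
  obtain ⟨f, hf, hp⟩ := chkT4 h (by norm_num) (x := x) (y := y) (z := s) (w := r)
    (by norm_num; linarith only [ua1]) (by norm_num; linarith only [ua2]) (by norm_num; linarith only [ua3]) (by norm_num; linarith only [ua4]) (by norm_num; linarith only [ua5]) (by norm_num; linarith only [ua6]) (by norm_num; linarith only [ua7]) (by norm_num; linarith only [ua8])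
  by_contra hc
  push Not at hc
  simp only [List.mem_cons, List.not_mem_nil, or_false] at hf
  rcases hf with rfl | rfl | rfl | rfl | rfl
  · simp only [ZE.x, ZE.y, ZE.s, ZE.r, ZE.h, E.val, NumI.lkR] at hp
    push_cast at hp
    linarith only [hc, hp]
  · simp only [ZE.x, ZE.y, ZE.s, ZE.r, ZE.h, E.val, NumI.lkR] at hp
    push_cast at hp
    linarith only [ua9, hp]
  · simp only [ZE.x, ZE.y, ZE.s, ZE.r, ZE.h, E.val, NumI.lkR] at hp
    push_cast at hp
    linarith only [ua10, hp]
  · simp only [ZE.x, ZE.y, ZE.s, ZE.r, ZE.h, E.val, NumI.lkR] at hp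
    push_cast at hp
    linarith only [ua11, hp]
  · simp only [ZE.x, ZE.y, ZE.s, ZE.r, ZE.h, E.val, NumI.lkR] at hp
    push_cast at hp
    linarith only [ua12, hp]

theorem e4b_pD2X2 {x y s r : ℝ} (ua1 : 1950 / 10000 ≤ x) (ua2 : x ≤ 2000 / 10000) (ua3 : -(560 / 10000) ≤ y) (ua4 : y ≤ 560 / 10000) (ua5 : 1950 / 10000 ≤ s) (ua6 : s ≤ 2000 / 10000) (ua7 : 0 / 10000 ≤ r) (ua8 : r ≤ 1045 / 10000) (ua9 : -(300 / 10000) ≤ x - s) (ua10 : x - s ≤ 0) :
    NumU.uu (x + s) (y + 4 * (r * s)) + (((300 / 10000) + (x - s)) * NumI.lnA (300 / 10000) (y - 4 * (r * s)) - NumU.uu (300 / 10000) (y - 4 * (r * s))) + (-NumU.uu (x + 225 / 1000) (y + 9 / 10 * r) + ((100 / 3) * (225 / 1000 - x) * NumU.uu (300 / 10000) (y - 9 / 10 * r) - Real.pi * (1 / 2) * (y - 9 / 10 * r) * (1 - (100 / 3) * (225 / 1000 - x)))) < (92 / 1000 + 94 / 100 * r + 2 * Real.pi * r * (9 / 100 + 4 * s * (4 * s - 1))) ∨ NumU.uu (x + s) (y + 4 * (r * s)) + (((300 / 10000) + (x - s)) * NumI.lnA (300 / 10000) (y - 4 * (r * s)) - NumU.uu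 (300 / 10000) (y - 4 * (r * s))) + (-NumU.uu (x + 225 / 1000) (y + 9 / 10 * r) + ((100 / 3) * (225 / 1000 - x) * NumU.uu (300 / 10000) (y - 9 / 10 * r) - Real.pi * (1 / 2) * -(y - 9 / 10 * r) * (1 - (100 / 3) * (225 / 1000 - x)))) < (92 / 1000 + 94 / 100 * r + 2 * Real.pi * r * (9 / 100 + 4 * s * (4 * s - 1))) := by
  have h : chkT [sub (add (add (q 92 1000) (mul (q 94 100) ZE.r)) (mul (mul (mul (q 2 1) pi) ZE.r) (add (q 9 100) (mul (mul (q 4 1) ZE.s) (sub (mul (q 4 1) ZE.s) (q 1 1)))))) (add (add (E.uu (add ZE.x ZE.s) (add ZE.y ZE.h)) (sub (mul (add (q 300 10000) (sub ZE.x ZE.s)) (E.lnA (q 300 10000) (sub ZE.y ZE.h))) (E.uu (q 300 10000) (sub ZE.y ZE.h)))) (add (neg (E.uu (add ZE.x (q 225 1000)) (add ZE.y (mul (q 9 10) ZE.r)))) (sub (mul (mul (q 100 3) (sub (q 225 1000) ZE.x)) (E.uu (q 300 10000) (sub ZE.y (mul (q 9 10) ZE.r)))) (mul (mul (mul pi (q 1 2)) (sub ZE.y (mul (q 9 10) ZE.r))) (sub (q 1 1) (mul (q 100 3) (sub (q 225 1000) ZE.x))))))), sub (add (add (q 92 1000) (mul (q 94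 100) ZE.r)) (mul (mul (mul (q 2 1) pi) ZE.r) (add (q 9 100) (mul (mul (q 4 1) ZE.s) (sub (mul (q 4 1) ZE.s) (q 1 1)))))) (add (add (E.uu (add ZE.x ZE.s) (add ZE.y ZE.h)) (sub (mul (add (q 300 10000) (sub ZE.x ZE.s)) (E.lnA (q 300 10000) (sub ZE.y ZE.h))) (E.uu (q 300 10000) (sub ZE.y ZE.h)))) (add (neg (E.uu (add ZE.x (q 225 1000)) (add ZE.y (mul (q 9 10) ZE.r)))) (sub (mul (mul (q 100 3) (sub (q 225 1000) ZE.x)) (E.uu (q 300 10000) (sub ZE.y (mul (q 9 10) ZE.r)))) (mul (mul (mul pi (q 1 2)) (neg (sub ZE.y (mul (q 9 10) ZE.r)))) (sub (q 1 1) (mul (q 100 3) (sub (q 225 1000) ZE.x))))))), sub (q (-300) 10000) (sub ZE.x ZE.s), sub ZE.x ZE.s] 60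
    10480047915313
    [NumI.V.of 10000 1950 2000, NumI.V.of 10000 (-560) 560, NumI.V.of 10000 1950 2000, NumI.V.of 10000 0 1045] = true := by
    decide +kernel
  obtain ⟨f, hf, hp⟩ := chkT4 h (by norm_num) (x := x) (y := y) (z := s) (w := r)
    (by norm_num; linarith only [ua1]) (by norm_num; linarith only [ua2]) (by norm_num; linarith only [ua3]) (by norm_num; linarith only [ua4]) (by norm_num; linarith only [ua5]) (by norm_num; linarith only [ua6]) (by norm_num; linarith only [ua7]) (by norm_num; linarith only [ua8])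
  by_contra hc
  push Not at hc
  obtain ⟨hc0, hc1⟩ := hc
  simp only [List.mem_cons, List.not_mem_nil, or_false] at hf
  rcases hf with rfl | rfl | rfl | rfl
  · simp only [ZE.x, ZE.y, ZE.s, ZE.r, ZE.h, E.val, NumI.lkR] at hp
    push_cast at hp
    linarith only [hc0, hp]
  · simp only [ZE.x, ZE.y, ZE.s, ZE.r, ZE.h, E.val, NumI.lkR] at hp
    push_cast at hp
    linarith only [hc1, hp]
  · simp only [ZE.x, ZE.y, ZE.s, ZE.r, ZE.h, E.val, NumI.lkR] at hp
    push_cast at hp
    linarith only [ua1, ua6, hp]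
  · simp only [ZE.x, ZE.y, ZE.s, ZE.r, ZE.h, E.val, NumI.lkR] at hp
    push_cast at hp
    linarith only [ua10, hp]

theorem e4b_pD3X1p {x y s r : ℝ} (ua1 : 300 / 10000 ≤ x) (ua2 : x ≤ 1950 / 10000) (ua3 : -(560 / 10000) ≤ y) (ua4 : y ≤ 560 / 10000) (ua5 : 0 / 10000 ≤ s) (ua6 : s ≤ 1950 / 10000) (ua7 : 0 / 10000 ≤ r) (ua8 : r ≤ 1045 / 10000) (ua9 : 0 ≤ x - s) (ua10 : x - s ≤ 300 / 10000) (ua11 : 0 ≤ (y - 4 * (r * s))) (ua12 : y ≤ 56 / 100 * x) (ua13 : -y ≤ 56 / 100 * x) :
    NumU.uu (x + s) (y + 4 * (r * s)) + (Real.pi * (1 / 2) * (y - 4 * (r * s)) * (1 + (100 / 3) * (x - s)) + (100 / 3) * (x - s) * NumU.uu (300 / 10000) (y - 4 * (r * s))) + (-NumU.uu (x + 225 / 1000) (y + 9 / 10 * r) + -NumU.uu (x + 775 / 1000) (y - 9 / 10 * r)) < (92 / 1000 + 94 / 100 * r + 2 * Real.pi * r * (9 / 100 + 4 * s * (4 * s - 1))) := by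
  have h : chkT [sub (add (add (q 92 1000) (mul (q 94 100) ZE.r)) (mul (mul (mul (q 2 1) pi) ZE.r) (add (q 9 100) (mul (mul (q 4 1) ZE.s) (sub (mul (q 4 1) ZE.s) (q 1 1)))))) (add (add (E.uu (add ZE.x ZE.s) (add ZE.y ZE.h)) (add (mul (mul (mul pi (q 1 2)) (sub ZE.y ZE.h)) (add (q 1 1) (mul (q 100 3) (sub ZE.x ZE.s)))) (mul (mul (q 100 3) (sub ZE.x ZE.s)) (E.uu (q 300 10000) (sub ZE.y ZE.h))))) (add (neg (E.uu (add ZE.x (q 225 1000)) (add ZE.y (mul (q 9 10) ZE.r)))) (neg (E.uu (add ZE.x (q 775 1000)) (sub ZE.y (mul (q 9 10) ZE.r)))))), sub ZE.s ZE.x, sub (sub ZE.x ZE.s) (q 300 10000), neg (sub ZE.y ZE.h), sub ZE.y (mul (q 56 100) ZE.x), sub (neg ZE.y) (mul (q 56 100) ZE.x)] 60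
    248971840822969365464329325736278108226984810184924931851317860497352121613200195288966502979727277922434897455318377727388172329022011299352809229724335145326298811444141347470638718114622597966957107868144505673528529286971274035964119879136928924192
    [NumI.V.of 10000 300 1950, NumI.V.of 10000 (-560) 560, NumI.V.of 10000 0 1950, NumI.V.of 10000 0 1045] = true := by
    decide +kernel
  obtain ⟨f, hf, hp⟩ := chkT4 h (by norm_num) (x := x) (y := y) (z := s) (w := r)
    (by norm_num; linarith only [ua1]) (by norm_num; linarith only [ua2]) (by norm_num; linarith only [ua3]) (by norm_num; linarith only [ua4]) (by norm_num; linarith only [ua5]) (by norm_num; linarith only [ua6]) (by norm_num; linarith only [ua7]) (by norm_num; linarith only [ua8])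
  by_contra hc
  push Not at hc
  simp only [List.mem_cons, List.not_mem_nil, or_false] at hf
  rcases hf with rfl | rfl | rfl | rfl | rfl | rfl
  · simp only [ZE.x, ZE.y, ZE.s, ZE.r, ZE.h, E.val, NumI.lkR] at hp
    push_cast at hp
    linarith only [hc, hp]
  · simp only [ZE.x, ZE.y, ZE.s, ZE.r, ZE.h, E.val, NumI.lkR] at hp
    push_cast at hp
    linarith only [ua9, hp]
  · simp only [ZE.x, ZE.y, ZE.s, ZE.r, ZE.h, E.val, NumI.lkR] at hp
    push_cast at hp
    linarith only [ua10, hp]
  · simp only [ZE.x, ZE.y, ZE.s, ZE.r, ZE.h, E.val, NumI.lkR] at hp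
    push_cast at hp
    linarith only [ua11, hp]
  · simp only [ZE.x, ZE.y, ZE.s, ZE.r, ZE.h, E.val, NumI.lkR] at hp
    push_cast at hp
    linarith only [ua12, hp]
  · simp only [ZE.x, ZE.y, ZE.s, ZE.r, ZE.h, E.val, NumI.lkR] at hp
    push_cast at hp
    linarith only [ua13, hp]

theorem e4b_pD3X2p {x y s r : ℝ} (ua1 : 1950 / 10000 ≤ x) (ua2 : x ≤ 2250 / 10000) (ua3 : -(560 / 10000) ≤ y) (ua4 : y ≤ 560 / 10000) (ua5 : 1650 / 10000 ≤ s) (ua6 : s ≤ 2000 / 10000) (ua7 : 0 / 10000 ≤ r) (ua8 : r ≤ 1045 / 10000) (ua9 : 0 ≤ x - s) (ua10 : x - s ≤ 300 / 10000) (ua11 : 0 ≤ (y - 4 * (r * s))) :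
    NumU.uu (x + s) (y + 4 * (r * s)) + (Real.pi * (1 / 2) * (y - 4 * (r * s)) * (1 + (100 / 3) * (x - s)) + (100 / 3) * (x - s) * NumU.uu (300 / 10000) (y - 4 * (r * s))) + (-NumU.uu (x + 225 / 1000) (y + 9 / 10 * r) + ((100 / 3) * (225 / 1000 - x) * NumU.uu (300 / 10000) (y - 9 / 10 * r) - Real.pi * (1 / 2) * (y - 9 / 10 * r) * (1 - (100 / 3) * (225 / 1000 - x)))) < (92 / 1000 + 94 / 100 * r + 2 * Real.pi * r * (9 / 100 + 4 * s * (4 * s - 1))) ∨ NumU.uu (x + s) (y + 4 * (r * s)) + (Real.pi * (1 / 2) * (y - 4 * (r * s)) * (1 + (100 / 3) * (x - s)) + (100 / 3) * (x - s) * NumU.uu (300 / 10000) (y - 4 * (r * s))) + (-NumU.uu (x + 225 / 1000) (y + 9 / 10 * r) + ((100 / 3) * (225 / 1000 - x) * NumU.uu (300 / 10000) (y - 9 / 10 * r) - Real.pi * (1 / 2) * -(y - 9 / 10 * r) * (1 - (100 / 3) * (225 / 1000 - x)))) < (92 / 1000 + 94 / 100 * r + 2 * Real.pi * r * (9 / 100 + 4 * s * (4 * s - 1))) := by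
  have h : chkT [sub (add (add (q 92 1000) (mul (q 94 100) ZE.r)) (mul (mul (mul (q 2 1) pi) ZE.r) (add (q 9 100) (mul (mul (q 4 1) ZE.s) (sub (mul (q 4 1) ZE.s) (q 1 1)))))) (add (add (E.uu (add ZE.x ZE.s) (add ZE.y ZE.h)) (add (mul (mul (mul pi (q 1 2)) (sub ZE.y ZE.h)) (add (q 1 1) (mul (q 100 3) (sub ZE.x ZE.s)))) (mul (mul (q 100 3) (sub ZE.x ZE.s)) (E.uu (q 300 10000) (sub ZE.y ZE.h))))) (add (neg (E.uu (add ZE.x (q 225 1000)) (add ZE.y (mul (q 9 10) ZE.r)))) (sub (mul (mul (q 100 3) (sub (q 225 1000) ZE.x)) (E.uu (q 300 10000) (sub ZE.y (mul (q 9 10) ZE.r)))) (mul (mul (mul pi (q 1 2)) (sub ZE.y (mul (q 9 10) ZE.r))) (sub (q 1 1) (mul (q 100 3) (sub (q 225 1000) ZE.x))))))), sub (add (add (q 92 1000) (mul (q 94 100) ZE.r)) (mul (mul (mul (q 2 1) pi) ZE.r) (add (q 9 100) (mul (mul (q 4 1) ZE.s) (sub (mul (q 4 1) ZE.s) (q 1 1)))))) (add (add (E.uu (add ZE.x ZE.s) (add ZE.y ZE.h)) (add (mul (mul (mul pi (q 1 2)) (sub ZE.y ZE.h)) (add (q 1 1) (mul (q 100 3) (sub ZE.x ZE.s)))) (mul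 (mul (q 100 3) (sub ZE.x ZE.s)) (E.uu (q 300 10000) (sub ZE.y ZE.h))))) (add (neg (E.uu (add ZE.x (q 225 1000)) (add ZE.y (mul (q 9 10) ZE.r)))) (sub (mul (mul (q 100 3) (sub (q 225 1000) ZE.x)) (E.uu (q 300 10000) (sub ZE.y (mul (q 9 10) ZE.r)))) (mul (mul (mul pi (q 1 2)) (neg (sub ZE.y (mul (q 9 10) ZE.r)))) (sub (q 1 1) (mul (q 100 3) (sub (q 225 1000) ZE.x))))))), sub ZE.s ZE.x, sub (sub ZE.x ZE.s) (q 300 10000), neg (sub ZE.y ZE.h)] 60
    2635163295812058782328144177
    [NumI.V.of 10000 1950 2250, NumI.V.of 10000 (-560) 560, NumI.V.of 10000 1650 2000, NumI.V.of 10000 0 1045] = true := by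
    decide +kernel
  obtain ⟨f, hf, hp⟩ := chkT4 h (by norm_num) (x := x) (y := y) (z := s) (w := r)
    (by norm_num; linarith only [ua1]) (by norm_num; linarith only [ua2]) (by norm_num; linarith only [ua3]) (by norm_num; linarith only [ua4]) (by norm_num; linarith only [ua5]) (by norm_num; linarith only [ua6]) (by norm_num; linarith only [ua7]) (by norm_num; linarith only [ua8])
  by_contra hc
  push Not at hc
  obtain ⟨hc0, hc1⟩ := hc
  simp only [List.mem_cons, List.not_mem_nil, or_false] at hf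
  rcases hf with rfl | rfl | rfl | rfl | rfl
  · simp only [ZE.x, ZE.y, ZE.s, ZE.r, ZE.h, E.val, NumI.lkR] at hp
    push_cast at hp
    linarith only [hc0, hp]
  · simp only [ZE.x, ZE.y, ZE.s, ZE.r, ZE.h, E.val, NumI.lkR] at hp
    push_cast at hp
    linarith only [hc1, hp]
  · simp only [ZE.x, ZE.y, ZE.s, ZE.r, ZE.h, E.val, NumI.lkR] at hp
    push_cast at hp
    linarith only [ua9, hp]
  · simp only [ZE.x, ZE.y, ZE.s, ZE.r, ZE.h, E.val, NumI.lkR] at hp
    push_cast at hp
    linarith only [ua10, hp]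
  · simp only [ZE.x, ZE.y, ZE.s, ZE.r, ZE.h, E.val, NumI.lkR] at hp
    push_cast at hp
    linarith only [ua11, hp]

theorem e4b_pD3X3p {x y s r : ℝ} (ua1 : 2250 / 10000 ≤ x) (ua2 : x ≤ 2300 / 10000) (ua3 : -(560 / 10000) ≤ y) (ua4 : y ≤ 560 / 10000) (ua5 : 1950 / 10000 ≤ s) (ua6 : s ≤ 2000 / 10000) (ua7 : 0 / 10000 ≤ r) (ua8 : r ≤ 1045 / 10000) (ua9 : 0 ≤ x - s) (ua10 : x - s ≤ 300 / 10000) (ua11 : 0 ≤ (y - 4 * (r * s))) :
    NumU.uu (x + s) (y + 4 * (r * s)) + (Real.pi * (1 / 2) * (y - 4 * (r * s)) * (1 + (100 / 3) * (x - s)) + (100 / 3) * (x - s) * NumU.uu (300 / 10000) (y - 4 * (r * s))) + (-NumU.uu (x + 225 / 1000) (y + 9 / 10 * r) + (((300 / 10000) - (x - 225 / 1000)) * NumI.lnA (300 / 10000) (y - 9 / 10 * r) - NumU.uu (300 / 10000) (y - 9 / 10 * r) - Real.pi * (y - 9 / 10 * r))) < (92 / 1000 + 94 / 100 * r + 2 * Real.pi * r * (9 / 100 + 4 * s * (4 * s - 1))) ∨ NumU.uu (x + s) (y + 4 * (r * s)) + (Real.pi * (1 / 2) * (y - 4 * (r * s)) * (1 + (100 / 3) * (x - s)) + (100 / 3)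 * (x - s) * NumU.uu (300 / 10000) (y - 4 * (r * s))) + (-NumU.uu (x + 225 / 1000) (y + 9 / 10 * r) + (((300 / 10000) - (x - 225 / 1000)) * NumI.lnA (300 / 10000) (y - 9 / 10 * r) - NumU.uu (300 / 10000) (y - 9 / 10 * r) - Real.pi * -(y - 9 / 10 * r))) < (92 / 1000 + 94 / 100 * r + 2 * Real.pi * r * (9 / 100 + 4 * s * (4 * s - 1))) := by
  have h : chkT [sub (add (add (q 92 1000) (mul (q 94 100) ZE.r)) (mul (mul (mul (q 2 1) pi) ZE.r) (add (q 9 100) (mul (mul (q 4 1) ZE.s) (sub (mul (q 4 1) ZE.s) (q 1 1)))))) (add (add (E.uu (add ZE.x ZE.s) (add ZE.y ZE.h)) (add (mul (mul (mul pi (q 1 2)) (sub ZE.y ZE.h)) (add (q 1 1) (mul (q 100 3) (sub ZE.x ZE.s)))) (mul (mul (q 100 3) (sub ZE.x ZE.s)) (E.uu (q 300 10000) (sub ZE.y ZE.h))))) (add (neg (E.uu (add ZE.x (q 225 1000)) (add ZE.y (mul (q 9 10) ZE.r)))) (sub (sub (mul (sub (q 300 10000) (sub ZE.x (q 225 1000))) (E.lnA (q 300 10000) (sub ZE.y (mul (q 9 10) ZE.r)))) (E.uu (q 300 10000) (sub ZE.y (mul (q 9 10) ZE.r)))) (mul pi (sub ZE.y (mul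 (q 9 10) ZE.r)))))), sub (add (add (q 92 1000) (mul (q 94 100) ZE.r)) (mul (mul (mul (q 2 1) pi) ZE.r) (add (q 9 100) (mul (mul (q 4 1) ZE.s) (sub (mul (q 4 1) ZE.s) (q 1 1)))))) (add (add (E.uu (add ZE.x ZE.s) (add ZE.y ZE.h)) (add (mul (mul (mul pi (q 1 2)) (sub ZE.y ZE.h)) (add (q 1 1) (mul (q 100 3) (sub ZE.x ZE.s)))) (mul (mul (q 100 3) (sub ZE.x ZE.s)) (E.uu (q 300 10000) (sub ZE.y ZE.h))))) (add (neg (E.uu (add ZE.x (q 225 1000)) (add ZE.y (mul (q 9 10) ZE.r)))) (sub (sub (mul (sub (q 300 10000) (sub ZE.x (q 225 1000))) (E.lnA (q 300 10000) (sub ZE.y (mul (q 9 10) ZE.r)))) (E.uu (q 300 10000) (sub ZE.y (mul (q 9 10) ZE.r)))) (mul pi (neg (sub ZE.y (mul (q 9 10) ZE.r))))))), sub ZE.s ZE.x, sub (sub ZE.x ZE.s) (q 300 10000), neg (sub ZE.y ZE.h)] 60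
    2394221257982257
    [NumI.V.of 10000 2250 2300, NumI.V.of 10000 (-560) 560, NumI.V.of 10000 1950 2000, NumI.V.of 10000 0 1045] = true := by
    decide +kernel
  obtain ⟨f, hf, hp⟩ := chkT4 h (by norm_num) (x := x) (y := y) (z := s) (w := r)
    (by norm_num; linarith only [ua1]) (by norm_num; linarith only [ua2]) (by norm_num; linarith only [ua3]) (by norm_num; linarith only [ua4]) (by norm_num; linarith only [ua5]) (by norm_num; linarith only [ua6]) (by norm_num; linarith only [ua7]) (by norm_num; linarith only [ua8])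
  by_contra hc
  push Not at hc
  obtain ⟨hc0, hc1⟩ := hc
  simp only [List.mem_cons, List.not_mem_nil, or_false] at hf
  rcases hf with rfl | rfl | rfl | rfl | rfl
  · simp only [ZE.x, ZE.y, ZE.s, ZE.r, ZE.h, E.val, NumI.lkR] at hp
    push_cast at hp
    linarith only [hc0, hp]
  · simp only [ZE.x, ZE.y, ZE.s, ZE.r, ZE.h, E.val, NumI.lkR] at hp
    push_cast at hp
    linarith only [hc1, hp]
  · simp only [ZE.x, ZE.y, ZE.s, ZE.r, ZE.h, E.val, NumI.lkR] at hp
    push_cast at hp
    linarith only [ua1, ua6, hp]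
  · simp only [ZE.x, ZE.y, ZE.s, ZE.r, ZE.h, E.val, NumI.lkR] at hp
    push_cast at hp
    linarith only [ua10, hp]
  · simp only [ZE.x, ZE.y, ZE.s, ZE.r, ZE.h, E.val, NumI.lkR] at hp
    push_cast at hp
    linarith only [ua11, hp]

theorem e4b_pD4X1p {x y s r : ℝ} (ua1 : 300 / 10000 ≤ x) (ua2 : x ≤ 1950 / 10000) (ua3 : 0 / 10000 ≤ y) (ua4 : y ≤ 560 / 10000) (ua5 : 0 / 10000 ≤ s) (ua6 : s ≤ 1650 / 10000) (ua7 : 0 / 10000 ≤ r) (ua8 : r ≤ 1045 / 10000) (ua9 : 300 / 10000 ≤ x - s) (ua10 : 0 ≤ (y - 4 * (r * s))) (ua11 : y ≤ 56 / 100 * x) (ua12 : -y ≤ 56 / 100 * x) :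
    NumU.uu (x + s) (y + 4 * (r * s)) + (NumU.uu (x - s) (y - 4 * (r * s)) + Real.pi * (y - 4 * (r * s))) + (-NumU.uu (x + 225 / 1000) (y + 9 / 10 * r) + -NumU.uu (x + 775 / 1000) (y - 9 / 10 * r)) < (92 / 1000 + 94 / 100 * r + 2 * Real.pi * r * (9 / 100 + 4 * s * (4 * s - 1))) := by
  have h : chkT [sub (add (add (q 92 1000) (mul (q 94 100) ZE.r)) (mul (mul (mul (q 2 1) pi) ZE.r) (add (q 9 100) (mul (mul (q 4 1) ZE.s) (sub (mul (q 4 1) ZE.s) (q 1 1)))))) (add (add (E.uu (add ZE.x ZE.s) (add ZE.y ZE.h)) (add (E.uu (sub ZE.x ZE.s) (sub ZE.y ZE.h)) (mul pi (sub ZE.y ZE.h)))) (add (neg (E.uu (add ZE.x (q 225 1000)) (add ZE.y (mul (q 9 10) ZE.r)))) (neg (E.uu (add ZE.x (q 775 1000)) (sub ZE.y (mul (q 9 10) ZE.r)))))), sub (q 300 10000) (sub ZE.x ZE.s), neg (sub ZE.y ZE.h), sub ZE.y (mul (q 56 100) ZE.x), sub (neg ZE.y) (mul (q 56 100) ZE.x)] 60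
    146900278822661087593513653072642995684258634371593852229133256958882415427707221352429574015465854372605183832570471285053330037960068524957813426953313375208935467196801828562605687725018227425271664263767474962432075360318842481228436189695394062226941102354508958033474121259543912023756845038839300640149723631162398212437476705553821442542833198746982023968
    [NumI.V.of 10000 300 1950, NumI.V.of 10000 0 560, NumI.V.of 10000 0 1650, NumI.V.of 10000 0 1045] = true := by
    decide +kernel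
  obtain ⟨f, hf, hp⟩ := chkT4 h (by norm_num) (x := x) (y := y) (z := s) (w := r)
    (by norm_num; linarith only [ua1]) (by norm_num; linarith only [ua2]) (by norm_num; linarith only [ua3]) (by norm_num; linarith only [ua4]) (by norm_num; linarith only [ua5]) (by norm_num; linarith only [ua6]) (by norm_num; linarith only [ua7]) (by norm_num; linarith only [ua8])
  by_contra hc
  push Not at hc
  simp only [List.mem_cons, List.not_mem_nil, or_false] at hf
  rcases hf with rfl | rfl | rfl | rfl | rfl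
  · simp only [ZE.x, ZE.y, ZE.s, ZE.r, ZE.h, E.val, NumI.lkR] at hp
    push_cast at hp
    linarith only [hc, hp]
  · simp only [ZE.x, ZE.y, ZE.s, ZE.r, ZE.h, E.val, NumI.lkR] at hp
    push_cast at hp
    linarith only [ua9, hp]
  · simp only [ZE.x, ZE.y, ZE.s, ZE.r, ZE.h, E.val, NumI.lkR] at hp
    push_cast at hp
    linarith only [ua10, hp]
  · simp only [ZE.x, ZE.y, ZE.s, ZE.r, ZE.h, E.val, NumI.lkR] at hp
    push_cast at hp
    linarith only [ua11, hp]
  · simp only [ZE.x, ZE.y, ZE.s, ZE.r, ZE.h, E.val, NumI.lkR] at hp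
    push_cast at hp
    linarith only [ua1, ua3, hp]

theorem e4b_pD4X2p {x y s r : ℝ} (ua1 : 1950 / 10000 ≤ x) (ua2 : x ≤ 2250 / 10000) (ua3 : -(560 / 10000) ≤ y) (ua4 : y ≤ 560 / 10000) (ua5 : 0 / 10000 ≤ s) (ua6 : s ≤ 1950 / 10000) (ua7 : 0 / 10000 ≤ r) (ua8 : r ≤ 1045 / 10000) (ua9 : 300 / 10000 ≤ x - s) (ua10 : 0 ≤ (y - 4 * (r * s))) :
    NumU.uu (x + s) (y + 4 * (r * s)) + (NumU.uu (x - s) (y - 4 * (r * s)) + Real.pi * (y - 4 * (r * s))) + (-NumU.uu (x + 225 / 1000) (y + 9 / 10 * r) + ((100 / 3) * (225 / 1000 - x) * NumU.uu (300 / 10000) (y - 9 / 10 * r) - Real.pi * (1 / 2) * (y - 9 / 10 * r) * (1 - (100 / 3) * (225 / 1000 - x)))) < (92 / 1000 + 94 / 100 * r + 2 * Real.pi * r * (9 / 100 + 4 * s * (4 * s - 1))) ∨ NumU.uu (x + s) (y + 4 * (r * s)) + (NumU.uu (x - s) (y - 4 * (r * s)) + Real.pi * (y - 4 * (r * s))) + (-NumU.uu (x + 225 / 1000) (y + 9 / 10 * r) + ((100 / 3) * (225 / 1000 - x) * NumU.uu (300 / 10000) (y - 9 / 10 * r) - Real.pi * (1 / 2) * -(y - 9 / 10 * r) * (1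 - (100 / 3) * (225 / 1000 - x)))) < (92 / 1000 + 94 / 100 * r + 2 * Real.pi * r * (9 / 100 + 4 * s * (4 * s - 1))) := by
  have h : chkT [sub (add (add (q 92 1000) (mul (q 94 100) ZE.r)) (mul (mul (mul (q 2 1) pi) ZE.r) (add (q 9 100) (mul (mul (q 4 1) ZE.s) (sub (mul (q 4 1) ZE.s) (q 1 1)))))) (add (add (E.uu (add ZE.x ZE.s) (add ZE.y ZE.h)) (add (E.uu (sub ZE.x ZE.s) (sub ZE.y ZE.h)) (mul pi (sub ZE.y ZE.h)))) (add (neg (E.uu (add ZE.x (q 225 1000)) (add ZE.y (mul (q 9 10) ZE.r)))) (sub (mul (mul (q 100 3) (sub (q 225 1000) ZE.x)) (E.uu (q 300 10000) (sub ZE.y (mul (q 9 10) ZE.r)))) (mul (mul (mul pi (q 1 2)) (sub ZE.y (mul (q 9 10) ZE.r))) (sub (q 1 1) (mul (q 100 3) (sub (q 225 1000) ZE.x))))))), sub (add (add (q 92 1000) (mul (q 94 100) ZE.r)) (mul (mul (mul (q 2 1) pi) ZE.r) (add (q 9 100) (mul (mul (q 4 1) ZE.s) (sub (mul (q 4 1) ZE.s) (q 1 1)))))) (add (add (E.uu (add ZE.x ZE.s) (add ZE.y ZE.h)) (add (E.uu (sub ZE.x ZE.s) (sub ZE.y ZE.h)) (mul pi (sub ZE.y ZE.h)))) (add (neg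 (E.uu (add ZE.x (q 225 1000)) (add ZE.y (mul (q 9 10) ZE.r)))) (sub (mul (mul (q 100 3) (sub (q 225 1000) ZE.x)) (E.uu (q 300 10000) (sub ZE.y (mul (q 9 10) ZE.r)))) (mul (mul (mul pi (q 1 2)) (neg (sub ZE.y (mul (q 9 10) ZE.r)))) (sub (q 1 1) (mul (q 100 3) (sub (q 225 1000) ZE.x))))))), sub (q 300 10000) (sub ZE.x ZE.s), neg (sub ZE.y ZE.h)] 60
    277491213528145871111582538737006285554713692629217008514659746089754118674773402833301046034
    [NumI.V.of 10000 1950 2250, NumI.V.of 10000 (-560) 560, NumI.V.of 10000 0 1950, NumI.V.of 10000 0 1045] = true := by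
    decide +kernel
  obtain ⟨f, hf, hp⟩ := chkT4 h (by norm_num) (x := x) (y := y) (z := s) (w := r)
    (by norm_num; linarith only [ua1]) (by norm_num; linarith only [ua2]) (by norm_num; linarith only [ua3]) (by norm_num; linarith only [ua4]) (by norm_num; linarith only [ua5]) (by norm_num; linarith only [ua6]) (by norm_num; linarith only [ua7]) (by norm_num; linarith only [ua8])
  by_contra hc
  push Not at hc
  obtain ⟨hc0, hc1⟩ := hc
  simp only [List.mem_cons, List.not_mem_nil, or_false] at hf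
  rcases hf with rfl | rfl | rfl | rfl
  · simp only [ZE.x, ZE.y, ZE.s, ZE.r, ZE.h, E.val, NumI.lkR] at hp
    push_cast at hp
    linarith only [hc0, hp]
  · simp only [ZE.x, ZE.y, ZE.s, ZE.r, ZE.h, E.val, NumI.lkR] at hp
    push_cast at hp
    linarith only [hc1, hp]
  · simp only [ZE.x, ZE.y, ZE.s, ZE.r, ZE.h, E.val, NumI.lkR] at hp
    push_cast at hp
    linarith only [ua9, hp]
  · simp only [ZE.x, ZE.y, ZE.s, ZE.r, ZE.h, E.val, NumI.lkR] at hp
    push_cast at hp
    linarith only [ua10, hp]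

theorem e4b_pD4X3p {x y s r : ℝ} (ua1 : 2250 / 10000 ≤ x) (ua2 : x ≤ 2550 / 10000) (ua3 : -(560 / 10000) ≤ y) (ua4 : y ≤ 560 / 10000) (ua5 : 0 / 10000 ≤ s) (ua6 : s ≤ 2000 / 10000) (ua7 : 0 / 10000 ≤ r) (ua8 : r ≤ 1045 / 10000) (ua9 : 300 / 10000 ≤ x - s) (ua10 : 0 ≤ (y - 4 * (r * s))) :
    NumU.uu (x + s) (y + 4 * (r * s)) + (NumU.uu (x - s) (y - 4 * (r * s)) + Real.pi * (y - 4 * (r * s))) + (-NumU.uu (x + 225 / 1000) (y + 9 / 10 * r) + (((300 / 10000) - (x - 225 / 1000)) * NumI.lnA (300 / 10000) (y - 9 / 10 * r) - NumU.uu (300 / 10000) (y - 9 / 10 * r) - Real.pi * (y - 9 / 10 * r))) < (92 / 1000 + 94 / 100 * r + 2 * Real.pi * r * (9 / 100 + 4 * s * (4 * s - 1))) ∨ NumU.uu (x + s) (y + 4 * (r * s)) + (NumU.uu (x - s) (y - 4 * (r * s)) + Real.pi * (y - 4 * (r * s))) + (-NumU.uu (x + 225 / 1000) (y + 9 / 10 * r) + (((300 / 10000) - (x - 225 / 1000)) * NumI.lnA (300 / 10000) (y - 9 / 10 * r) - NumU.uu (300 / 10000) (y - 9 / 10 * r) - Real.pi * -(y - 9 / 10 * r))) < (92 / 1000 + 94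 / 100 * r + 2 * Real.pi * r * (9 / 100 + 4 * s * (4 * s - 1))) := by
  have h : chkT [sub (add (add (q 92 1000) (mul (q 94 100) ZE.r)) (mul (mul (mul (q 2 1) pi) ZE.r) (add (q 9 100) (mul (mul (q 4 1) ZE.s) (sub (mul (q 4 1) ZE.s) (q 1 1)))))) (add (add (E.uu (add ZE.x ZE.s) (add ZE.y ZE.h)) (add (E.uu (sub ZE.x ZE.s) (sub ZE.y ZE.h)) (mul pi (sub ZE.y ZE.h)))) (add (neg (E.uu (add ZE.x (q 225 1000)) (add ZE.y (mul (q 9 10) ZE.r)))) (sub (sub (mul (sub (q 300 10000) (sub ZE.x (q 225 1000))) (E.lnA (q 300 10000) (sub ZE.y (mul (q 9 10) ZE.r)))) (E.uu (q 300 10000) (sub ZE.y (mul (q 9 10) ZE.r)))) (mul pi (sub ZE.y (mul (q 9 10) ZE.r)))))), sub (add (add (q 92 1000) (mul (q 94 100) ZE.r)) (mul (mul (mul (q 2 1) pi) ZE.r) (add (q 9 100) (mul (mul (q 4 1) ZE.s) (sub (mul (q 4 1) ZE.s) (q 1 1)))))) (add (add (E.uu (add ZE.x ZE.s) (add ZE.y ZE.h)) (add (E.uu (sub ZE.x ZE.s) (sub ZE.y ZE.h)) (mul pi (sub ZE.y ZE.h)))) (add (neg (E.uu (add ZE.x (q 225 1000)) (add ZE.y (mul (q 9 10) ZE.r))))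 (sub (sub (mul (sub (q 300 10000) (sub ZE.x (q 225 1000))) (E.lnA (q 300 10000) (sub ZE.y (mul (q 9 10) ZE.r)))) (E.uu (q 300 10000) (sub ZE.y (mul (q 9 10) ZE.r)))) (mul pi (neg (sub ZE.y (mul (q 9 10) ZE.r))))))), sub (q 300 10000) (sub ZE.x ZE.s), neg (sub ZE.y ZE.h)] 60
    3502431931516078635808003523628426935322066278796449041568338706
    [NumI.V.of 10000 2250 2550, NumI.V.of 10000 (-560) 560, NumI.V.of 10000 0 2000, NumI.V.of 10000 0 1045] = true := by
    decide +kernel
  obtain ⟨f, hf, hp⟩ := chkT4 h (by norm_num) (x := x) (y := y) (z := s) (w := r)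
    (by norm_num; linarith only [ua1]) (by norm_num; linarith only [ua2]) (by norm_num; linarith only [ua3]) (by norm_num; linarith only [ua4]) (by norm_num; linarith only [ua5]) (by norm_num; linarith only [ua6]) (by norm_num; linarith only [ua7]) (by norm_num; linarith only [ua8])
  by_contra hc
  push Not at hc
  obtain ⟨hc0, hc1⟩ := hc
  simp only [List.mem_cons, List.not_mem_nil, or_false] at hf
  rcases hf with rfl | rfl | rfl | rfl
  · simp only [ZE.x, ZE.y, ZE.s, ZE.r, ZE.h, E.val, NumI.lkR] at hp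
    push_cast at hp
    linarith only [hc0, hp]
  · simp only [ZE.x, ZE.y, ZE.s, ZE.r, ZE.h, E.val, NumI.lkR] at hp
    push_cast at hp
    linarith only [hc1, hp]
  · simp only [ZE.x, ZE.y, ZE.s, ZE.r, ZE.h, E.val, NumI.lkR] at hp
    push_cast at hp
    linarith only [ua9, hp]
  · simp only [ZE.x, ZE.y, ZE.s, ZE.r, ZE.h, E.val, NumI.lkR] at hp
    push_cast at hp
    linarith only [ua10, hp]

theorem e4b_pD4X4p_h1_q1 : Pool.Agent.Work.NumU.runT [sub (add (add (q 92 1000) (mul (q 94 100) ZE.r)) (mul (mul (mul (q 2 1) pi) ZE.r) (add (q 9 100) (mul (mul (q 4 1) ZE.s) (sub (mul (q 4 1) ZE.s) (q 1 1)))))) (add (add (E.uu (add ZE.x ZE.s) (add ZE.y ZE.h)) (add (E.uu (sub ZE.x ZE.s) (sub ZE.y ZE.h)) (mul pi (sub ZE.y ZE.h)))) (add (neg (E.uu (add ZE.x (q 225 1000)) (add ZE.y (mul (q 9 10) ZE.r)))) (neg (add (E.uu (sub ZE.x (q 225 1000)) (sub ZE.y (mul (q 9 10) ZE.r))) (mul pi (sub ZE.y (mul (q 9 10) ZE.r))))))), sub (add (add (q 92 1000) (mul (q 94 100) ZE.r)) (mul (mul (mul (q 2 1) pi)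 ZE.r) (add (q 9 100) (mul (mul (q 4 1) ZE.s) (sub (mul (q 4 1) ZE.s) (q 1 1)))))) (add (add (E.uu (add ZE.x ZE.s) (add ZE.y ZE.h)) (add (E.uu (sub ZE.x ZE.s) (sub ZE.y ZE.h)) (mul pi (sub ZE.y ZE.h)))) (add (neg (E.uu (add ZE.x (q 225 1000)) (add ZE.y (mul (q 9 10) ZE.r)))) (neg (add (E.uu (sub ZE.x (q 225 1000)) (sub ZE.y (mul (q 9 10) ZE.r))) (mul pi (neg (sub ZE.y (mul (q 9 10) ZE.r)))))))), neg (sub ZE.y ZE.h), sub ZE.y (mul (q 28 10) (sub (q 1 2) ZE.x)), sub (neg ZE.y) (mul (q 28 10) (sub (q 1 2) ZE.x))] 59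
    556287875815918104931247383438602710040613667176230687386794392400134047333553721901061613191860393996976929688825917740775355678402829149329596336660601393143443458135201600512294204722790913031929052028818959708852108878849338853143150715529344453714063003662771094351304524333740632017275917165233901160400370804032517255630676330703630594
    (Pool.Agent.Work.NumI.setL 0 ([NumI.V.of 10000 2550 5000, NumI.V.of 10000 (-560) 560, NumI.V.of 10000 0 2000, NumI.V.of 10000 0 1045])) =
    225892203779947344798211251514106395150750276007937865400297540178351250578893558718529282002216796708742362834327936898994881544253497381030600025132230994800852817181540652480408960208007810831632970304141186815078013548953907 := by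
  decide +kernel

theorem e4b_pD4X4p_h1_q2 : Pool.Agent.Work.NumU.runT [sub (add (add (q 92 1000) (mul (q 94 100) ZE.r)) (mul (mul (mul (q 2 1) pi) ZE.r) (add (q 9 100) (mul (mul (q 4 1) ZE.s) (sub (mul (q 4 1) ZE.s) (q 1 1)))))) (add (add (E.uu (add ZE.x ZE.s) (add ZE.y ZE.h)) (add (E.uu (sub ZE.x ZE.s) (sub ZE.y ZE.h)) (mul pi (sub ZE.y ZE.h)))) (add (neg (E.uu (add ZE.x (q 225 1000)) (add ZE.y (mul (q 9 10) ZE.r)))) (neg (add (E.uu (sub ZE.x (q 225 1000)) (sub ZE.y (mul (q 9 10) ZE.r))) (mul pi (sub ZE.y (mul (q 9 10) ZE.r))))))), sub (add (add (q 92 1000) (mul (q 94 100) ZE.r)) (mul (mul (mul (q 2 1) pi) ZE.r) (add (q 9 100) (mul (mul (q 4 1) ZE.s) (sub (mul (q 4 1) ZE.s) (q 1 1)))))) (add (add (E.uu (add ZE.x ZE.s) (add ZE.y ZE.h)) (add (E.uu (sub ZE.x ZE.s) (sub ZE.y ZE.h)) (mul pi (sub ZE.y ZE.h)))) (add (neg (E.uu (add ZE.x (q 225 1000)) (add ZE.y (mul (q 9 10) ZE.r)))) (neg (add (E.uu (sub ZE.x (q 225 1000)) (sub ZE.y (mul (q 9 10) ZE.r))) (mul pi (neg (sub ZE.y (mul (q 9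 10) ZE.r)))))))), neg (sub ZE.y ZE.h), sub ZE.y (mul (q 28 10) (sub (q 1 2) ZE.x)), sub (neg ZE.y) (mul (q 28 10) (sub (q 1 2) ZE.x))] 59
    225892203779947344798211251514106395150750276007937865400297540178351250578893558718529282002216796708742362834327936898994881544253497381030600025132230994800852817181540652480408960208007810831632970304141186815078013548953906
    (Pool.Agent.Work.NumI.setR 0 ([NumI.V.of 10000 2550 5000, NumI.V.of 10000 (-560) 560, NumI.V.of 10000 0 2000, NumI.V.of 10000 0 1045])) =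
    1 := by
  decide +kernel

theorem e4b_pD4X4p {x y s r : ℝ} (ua1 : 2550 / 10000 ≤ x) (ua2 : x ≤ 5000 / 10000) (ua3 : -(560 / 10000) ≤ y) (ua4 : y ≤ 560 / 10000) (ua5 : 0 / 10000 ≤ s) (ua6 : s ≤ 2000 / 10000) (ua7 : 0 / 10000 ≤ r) (ua8 : r ≤ 1045 / 10000) (ua9 : 0 ≤ (y - 4 * (r * s))) (ua10 : y ≤ 28 / 10 * (1 / 2 - x)) (ua11 : -y ≤ 28 / 10 * (1 / 2 - x)) :
    NumU.uu (x + s) (y + 4 * (r * s)) + (NumU.uu (x - s) (y - 4 * (r * s)) + Real.pi * (y - 4 * (r * s))) + (-NumU.uu (x + 225 / 1000) (y + 9 / 10 * r) + -(NumU.uu (x - 225 / 1000) (y - 9 / 10 * r) + Real.pi * (y - 9 / 10 * r))) < (92 / 1000 + 94 / 100 * r + 2 * Real.pi * r * (9 / 100 + 4 * s * (4 * s - 1))) ∨ NumU.uu (x + s) (y + 4 * (r * s)) + (NumU.uu (x - s) (y - 4 * (r * s)) + Real.pi * (y - 4 * (r * s))) + (-NumU.uu (x + 225 / 1000) (y + 9 / 10 * r) + -(NumU.uu (x - 225 / 1000) (y - 9 / 10 * r) + Real.pi * -(y - 9 / 10 * r))) < (92 / 1000 + 94 / 100 * r + 2 * Real.pi * r * (9 / 100 + 4 * s * (4 * s - 1))) := by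
  have h : chkT [sub (add (add (q 92 1000) (mul (q 94 100) ZE.r)) (mul (mul (mul (q 2 1) pi) ZE.r) (add (q 9 100) (mul (mul (q 4 1) ZE.s) (sub (mul (q 4 1) ZE.s) (q 1 1)))))) (add (add (E.uu (add ZE.x ZE.s) (add ZE.y ZE.h)) (add (E.uu (sub ZE.x ZE.s) (sub ZE.y ZE.h)) (mul pi (sub ZE.y ZE.h)))) (add (neg (E.uu (add ZE.x (q 225 1000)) (add ZE.y (mul (q 9 10) ZE.r)))) (neg (add (E.uu (sub ZE.x (q 225 1000)) (sub ZE.y (mul (q 9 10) ZE.r))) (mul pi (sub ZE.y (mul (q 9 10) ZE.r))))))), sub (add (add (q 92 1000) (mul (q 94 100) ZE.r)) (mul (mul (mul (q 2 1) pi) ZE.r) (add (q 9 100) (mul (mul (q 4 1) ZE.s) (sub (mul (q 4 1) ZE.s) (q 1 1)))))) (add (add (E.uu (add ZE.x ZE.s) (add ZE.y ZE.h)) (add (E.uu (sub ZE.x ZE.s) (sub ZE.y ZE.h)) (mul pi (sub ZE.y ZE.h)))) (add (neg (E.uu (add ZE.x (q 225 1000)) (add ZE.y (mul (q 9 10) ZE.r)))) (neg (add (E.uu (sub ZE.x (q 225 1000)) (sub ZE.y (mul (q 9 10) ZE.r))) (mul pi (neg (sub ZE.y (mul (q 9 10) ZE.r)))))))), neg (sub ZE.y ZE.h), sub ZE.y (mul (q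 28 10) (sub (q 1 2) ZE.x)), sub (neg ZE.y) (mul (q 28 10) (sub (q 1 2) ZE.x))] 60
    8900606013054689678899958135017643360649818674819690998188710278402144757336859550416985811069766303951630875021214683852405690854445266389273541386569622290295095330163225608196707275564654608510864832461103355341633742061589421650290411448469511259425008058604337509620872389339850112276414674643742418566405932864520276090090821291258089504
    [NumI.V.of 10000 2550 5000, NumI.V.of 10000 (-560) 560, NumI.V.of 10000 0 2000, NumI.V.of 10000 0 1045] = true :=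
      Pool.Agent.Work.NumU.chkT_of (Pool.Agent.Work.NumU.runT_split rfl rfl rfl
        e4b_pD4X4p_h1_q1
        e4b_pD4X4p_h1_q2)
  obtain ⟨f, hf, hp⟩ := chkT4 h (by norm_num) (x := x) (y := y) (z := s) (w := r)
    (by norm_num; linarith only [ua1]) (by norm_num; linarith only [ua2]) (by norm_num; linarith only [ua3]) (by norm_num; linarith only [ua4]) (by norm_num; linarith only [ua5]) (by norm_num; linarith only [ua6]) (by norm_num; linarith only [ua7]) (by norm_num; linarith only [ua8])
  by_contra hc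
  push Not at hc
  obtain ⟨hc0, hc1⟩ := hc
  simp only [List.mem_cons, List.not_mem_nil, or_false] at hf
  rcases hf with rfl | rfl | rfl | rfl | rfl
  · simp only [ZE.x, ZE.y, ZE.s, ZE.r, ZE.h, E.val, NumI.lkR] at hp
    push_cast at hp
    linarith only [hc0, hp]
  · simp only [ZE.x, ZE.y, ZE.s, ZE.r, ZE.h, E.val, NumI.lkR] at hp
    push_cast at hp
    linarith only [hc1, hp]
  · simp only [ZE.x, ZE.y, ZE.s, ZE.r, ZE.h, E.val, NumI.lkR] at hp
    push_cast at hp
    linarith only [ua9, hp]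
  · simp only [ZE.x, ZE.y, ZE.s, ZE.r, ZE.h, E.val, NumI.lkR] at hp
    push_cast at hp
    linarith only [ua10, hp]
  · simp only [ZE.x, ZE.y, ZE.s, ZE.r, ZE.h, E.val, NumI.lkR] at hp
    push_cast at hp
    linarith only [ua11, hp]

theorem e4b_pD3X1n_h1_q1 : Pool.Agent.Work.NumU.runT [sub (add (add (q 92 1000) (mul (q 94 100) ZE.r)) (mul (mul (mul (q 2 1) pi) ZE.r) (add (q 9 100) (mul (mul (q 4 1) ZE.s) (sub (mul (q 4 1) ZE.s) (q 1 1)))))) (add (add (E.uu (add ZE.x ZE.s) (add ZE.y ZE.h)) (add (mul (mul (mul pi (q 1 2)) (neg (sub ZE.y ZE.h))) (add (q 1 1) (mul (q 100 3) (sub ZE.x ZE.s)))) (mul (mul (q 100 3) (sub ZE.x ZE.s)) (E.uu (q 300 10000) (sub ZE.y ZE.h))))) (add (neg (E.uu (add ZE.x (q 225 1000)) (add ZE.y (mul (q 9 10) ZE.r)))) (neg (E.uu (add ZE.x (q 775 1000)) (sub ZE.y (mul (q 9 10) ZE.r)))))), sub ZE.s ZE.x, sub (sub ZE.x ZE.s) (q 300 10000), add (q 0 1) (sub ZE.y ZE.h), sub ZE.y (mul (q 56 100) ZE.x), sub (neg ZE.y) (mul (q 56 100) ZE.x)] 59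
    373661971232420909287775081860981636448241723749515288629471750578342878060447598708994581467846145968540599262544979357096924253096520003858017101537682543012327282296365803158575442216122293859549903514100293765402479161765054605687254357752533000424532736248494898388833354356273177093698465122156154914
    (Pool.Agent.Work.NumI.setL 0 ([NumI.V.of 10000 300 1950, NumI.V.of 10000 (-560) 560, NumI.V.of 10000 0 1950, NumI.V.of 10000 0 1045])) =
    42709092172033725600502794501602519063754508430521357991439240968615704209287298433902190020986637572608267459273818638243679262599769658275405229422967255845690450684607177794448788920843383091195902337539 := by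
  decide +kernel

theorem e4b_pD3X1n_h1_q2 : Pool.Agent.Work.NumU.runT [sub (add (add (q 92 1000) (mul (q 94 100) ZE.r)) (mul (mul (mul (q 2 1) pi) ZE.r) (add (q 9 100) (mul (mul (q 4 1) ZE.s) (sub (mul (q 4 1) ZE.s) (q 1 1)))))) (add (add (E.uu (add ZE.x ZE.s) (add ZE.y ZE.h)) (add (mul (mul (mul pi (q 1 2)) (neg (sub ZE.y ZE.h))) (add (q 1 1) (mul (q 100 3) (sub ZE.x ZE.s)))) (mul (mul (q 100 3) (sub ZE.x ZE.s)) (E.uu (q 300 10000) (sub ZE.y ZE.h))))) (add (neg (E.uu (add ZE.x (q 225 1000)) (add ZE.y (mul (q 9 10) ZE.r)))) (neg (E.uu (add ZE.x (q 775 1000)) (sub ZE.y (mul (q 9 10) ZE.r)))))), sub ZE.s ZE.x, sub (sub ZE.x ZE.s) (q 300 10000), add (q 0 1) (sub ZE.y ZE.h), sub ZE.y (mul (q 56 100) ZE.x), sub (neg ZE.y) (mul (q 56 100) ZE.x)] 59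
    42709092172033725600502794501602519063754508430521357991439240968615704209287298433902190020986637572608267459273818638243679262599769658275405229422967255845690450684607177794448788920843383091195902337538
    (Pool.Agent.Work.NumI.setR 0 ([NumI.V.of 10000 300 1950, NumI.V.of 10000 (-560) 560, NumI.V.of 10000 0 1950, NumI.V.of 10000 0 1045])) =
    1 := by
  decide +kernel

theorem e4b_pD3X1n {x y s r : ℝ} (ua1 : 300 / 10000 ≤ x) (ua2 : x ≤ 1950 / 10000) (ua3 : -(560 / 10000) ≤ y) (ua4 : y ≤ 560 / 10000) (ua5 : 0 / 10000 ≤ s) (ua6 : s ≤ 1950 / 10000) (ua7 : 0 / 10000 ≤ r) (ua8 : r ≤ 1045 / 10000) (ua9 : 0 ≤ x - s) (ua10 : x - s ≤ 300 / 10000) (ua11 : (y - 4 * (r * s)) ≤ 0) (ua12 : y ≤ 56 / 100 * x) (ua13 : -y ≤ 56 / 100 * x) :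
    NumU.uu (x + s) (y + 4 * (r * s)) + (Real.pi * (1 / 2) * -(y - 4 * (r * s)) * (1 + (100 / 3) * (x - s)) + (100 / 3) * (x - s) * NumU.uu (300 / 10000) (y - 4 * (r * s))) + (-NumU.uu (x + 225 / 1000) (y + 9 / 10 * r) + -NumU.uu (x + 775 / 1000) (y - 9 / 10 * r)) < (92 / 1000 + 94 / 100 * r + 2 * Real.pi * r * (9 / 100 + 4 * s * (4 * s - 1))) := by
  have h : chkT [sub (add (add (q 92 1000) (mul (q 94 100) ZE.r)) (mul (mul (mul (q 2 1) pi) ZE.r) (add (q 9 100) (mul (mul (q 4 1) ZE.s) (sub (mul (q 4 1) ZE.s) (q 1 1)))))) (add (add (E.uu (add ZE.x ZE.s) (add ZE.y ZE.h)) (add (mul (mul (mul pi (q 1 2)) (neg (sub ZE.y ZE.h))) (add (q 1 1) (mul (q 100 3) (sub ZE.x ZE.s)))) (mul (mul (q 100 3) (sub ZE.x ZE.s)) (E.uu (q 300 10000) (sub ZE.y ZE.h))))) (add (neg (E.uu (add ZE.x (q 225 1000)) (add ZE.y (mul (q 9 10) ZE.r)))) (neg (E.uu (add ZE.x (q 775 1000)) (sub ZE.y (mul (q 9 10) ZE.r)))))), sub ZE.s ZE.x, sub (sub ZE.x ZE.s) (q 300 10000), add (q 0 1) (sub ZE.y ZE.h), sub ZE.y (mul (q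 56 100) ZE.x), sub (neg ZE.y) (mul (q 56 100) ZE.x)] 60
    5978591539718734548604401309775706183171867579992244618071548009253486048967161579343913303485538335496649588200719669713550788049544320061728273624602920688197236516741852850537207075457956701752798456225604700246439666588240873690996069724040528006792523779975918374221333669700370833499175441954498478624
    [NumI.V.of 10000 300 1950, NumI.V.of 10000 (-560) 560, NumI.V.of 10000 0 1950, NumI.V.of 10000 0 1045] = true :=
      Pool.Agent.Work.NumU.chkT_of (Pool.Agent.Work.NumU.runT_split rfl rfl rfl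
        e4b_pD3X1n_h1_q1
        e4b_pD3X1n_h1_q2)
  obtain ⟨f, hf, hp⟩ := chkT4 h (by norm_num) (x := x) (y := y) (z := s) (w := r)
    (by norm_num; linarith only [ua1]) (by norm_num; linarith only [ua2]) (by norm_num; linarith only [ua3]) (by norm_num; linarith only [ua4]) (by norm_num; linarith only [ua5]) (by norm_num; linarith only [ua6]) (by norm_num; linarith only [ua7]) (by norm_num; linarith only [ua8])
  by_contra hc
  push Not at hc
  simp only [List.mem_cons, List.not_mem_nil, or_false] at hf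
  rcases hf with rfl | rfl | rfl | rfl | rfl | rfl
  · simp only [ZE.x, ZE.y, ZE.s, ZE.r, ZE.h, E.val, NumI.lkR] at hp
    push_cast at hp
    linarith only [hc, hp]
  · simp only [ZE.x, ZE.y, ZE.s, ZE.r, ZE.h, E.val, NumI.lkR] at hp
    push_cast at hp
    linarith only [ua9, hp]
  · simp only [ZE.x, ZE.y, ZE.s, ZE.r, ZE.h, E.val, NumI.lkR] at hp
    push_cast at hp
    linarith only [ua10, hp]
  · simp only [ZE.x, ZE.y, ZE.s, ZE.r, ZE.h, E.val, NumI.lkR] at hp
    push_cast at hp
    linarith only [ua11, hp]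
  · simp only [ZE.x, ZE.y, ZE.s, ZE.r, ZE.h, E.val, NumI.lkR] at hp
    push_cast at hp
    linarith only [ua12, hp]
  · simp only [ZE.x, ZE.y, ZE.s, ZE.r, ZE.h, E.val, NumI.lkR] at hp
    push_cast at hp
    linarith only [ua13, hp]

theorem e4b_pD3X2n {x y s r : ℝ} (ua1 : 1950 / 10000 ≤ x) (ua2 : x ≤ 2250 / 10000) (ua3 : -(560 / 10000) ≤ y) (ua4 : y ≤ 560 / 10000) (ua5 : 1650 / 10000 ≤ s) (ua6 : s ≤ 2000 / 10000) (ua7 : 0 / 10000 ≤ r) (ua8 : r ≤ 1045 / 10000) (ua9 : 0 ≤ x - s) (ua10 : x - s ≤ 300 / 10000) (ua11 : (y - 4 * (r * s)) ≤ 0) :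
    NumU.uu (x + s) (y + 4 * (r * s)) + (Real.pi * (1 / 2) * -(y - 4 * (r * s)) * (1 + (100 / 3) * (x - s)) + (100 / 3) * (x - s) * NumU.uu (300 / 10000) (y - 4 * (r * s))) + (-NumU.uu (x + 225 / 1000) (y + 9 / 10 * r) + ((100 / 3) * (225 / 1000 - x) * NumU.uu (300 / 10000) (y - 9 / 10 * r) - Real.pi * (1 / 2) * (y - 9 / 10 * r) * (1 - (100 / 3) * (225 / 1000 - x)))) < (92 / 1000 + 94 / 100 * r + 2 * Real.pi * r * (9 / 100 + 4 * s * (4 * s - 1))) ∨ NumU.uu (x + s) (y + 4 * (r * s)) + (Real.pi * (1 / 2) * -(y - 4 * (r * s)) * (1 + (100 / 3) * (x - s)) + (100 / 3) * (x - s) * NumU.uu (300 / 10000) (y - 4 * (r * s))) + (-NumU.uu (x + 225 / 1000) (y + 9 / 10 * r) + ((100 / 3) * (225 / 1000 - x) * NumU.uu (300 / 10000) (y - 9 / 10 * r) - Real.pi * (1 / 2) * -(y - 9 / 10 * r) * (1 - (100 / 3) * (225 / 1000 - x)))) < (92 / 1000 + 94 / 100 * r + 2 * Real.pi * r * (9 / 100 + 4 * s * (4 * s - 1))) := by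
  have h : chkT [sub (add (add (q 92 1000) (mul (q 94 100) ZE.r)) (mul (mul (mul (q 2 1) pi) ZE.r) (add (q 9 100) (mul (mul (q 4 1) ZE.s) (sub (mul (q 4 1) ZE.s) (q 1 1)))))) (add (add (E.uu (add ZE.x ZE.s) (add ZE.y ZE.h)) (add (mul (mul (mul pi (q 1 2)) (neg (sub ZE.y ZE.h))) (add (q 1 1) (mul (q 100 3) (sub ZE.x ZE.s)))) (mul (mul (q 100 3) (sub ZE.x ZE.s)) (E.uu (q 300 10000) (sub ZE.y ZE.h))))) (add (neg (E.uu (add ZE.x (q 225 1000)) (add ZE.y (mul (q 9 10) ZE.r)))) (sub (mul (mul (q 100 3) (sub (q 225 1000) ZE.x)) (E.uu (q 300 10000) (sub ZE.y (mul (q 9 10) ZE.r)))) (mul (mul (mul pi (q 1 2)) (sub ZE.y (mul (q 9 10) ZE.r))) (sub (q 1 1) (mul (q 100 3) (sub (q 225 1000) ZE.x))))))), sub (add (add (q 92 1000) (mul (q 94 100) ZE.r)) (mul (mul (mul (q 2 1) pi) ZE.r) (add (q 9 100) (mul (mul (q 4 1) ZE.s) (sub (mul (q 4 1) ZE.s) (q 1 1)))))) (add (add (E.uu (add ZE.x ZE.s) (add ZE.y ZE.h)) (add (mul (mul (mul pi (q 1 2)) (neg (sub ZE.y ZE.h))) (add (q 1 1) (mul (q 100 3) (sub ZE.x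 ZE.s)))) (mul (mul (q 100 3) (sub ZE.x ZE.s)) (E.uu (q 300 10000) (sub ZE.y ZE.h))))) (add (neg (E.uu (add ZE.x (q 225 1000)) (add ZE.y (mul (q 9 10) ZE.r)))) (sub (mul (mul (q 100 3) (sub (q 225 1000) ZE.x)) (E.uu (q 300 10000) (sub ZE.y (mul (q 9 10) ZE.r)))) (mul (mul (mul pi (q 1 2)) (neg (sub ZE.y (mul (q 9 10) ZE.r)))) (sub (q 1 1) (mul (q 100 3) (sub (q 225 1000) ZE.x))))))), sub ZE.s ZE.x, sub (sub ZE.x ZE.s) (q 300 10000), add (q 0 1) (sub ZE.y ZE.h)] 60
    12729426738538994245841618831731667249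
    [NumI.V.of 10000 1950 2250, NumI.V.of 10000 (-560) 560, NumI.V.of 10000 1650 2000, NumI.V.of 10000 0 1045] = true := by
    decide +kernel
  obtain ⟨f, hf, hp⟩ := chkT4 h (by norm_num) (x := x) (y := y) (z := s) (w := r)
    (by norm_num; linarith only [ua1]) (by norm_num; linarith only [ua2]) (by norm_num; linarith only [ua3]) (by norm_num; linarith only [ua4]) (by norm_num; linarith only [ua5]) (by norm_num; linarith only [ua6]) (by norm_num; linarith only [ua7]) (by norm_num; linarith only [ua8])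
  by_contra hc
  push Not at hc
  obtain ⟨hc0, hc1⟩ := hc
  simp only [List.mem_cons, List.not_mem_nil, or_false] at hf
  rcases hf with rfl | rfl | rfl | rfl | rfl
  · simp only [ZE.x, ZE.y, ZE.s, ZE.r, ZE.h, E.val, NumI.lkR] at hp
    push_cast at hp
    linarith only [hc0, hp]
  · simp only [ZE.x, ZE.y, ZE.s, ZE.r, ZE.h, E.val, NumI.lkR] at hp
    push_cast at hp
    linarith only [hc1, hp]
  · simp only [ZE.x, ZE.y, ZE.s, ZE.r, ZE.h, E.val, NumI.lkR] at hp
    push_cast at hp
    linarith only [ua9, hp]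
  · simp only [ZE.x, ZE.y, ZE.s, ZE.r, ZE.h, E.val, NumI.lkR] at hp
    push_cast at hp
    linarith only [ua10, hp]
  · simp only [ZE.x, ZE.y, ZE.s, ZE.r, ZE.h, E.val, NumI.lkR] at hp
    push_cast at hp
    linarith only [ua11, hp]

theorem e4b_pD3X3n {x y s r : ℝ} (ua1 : 2250 / 10000 ≤ x) (ua2 : x ≤ 2300 / 10000) (ua3 : -(560 / 10000) ≤ y) (ua4 : y ≤ 560 / 10000) (ua5 : 1950 / 10000 ≤ s) (ua6 : s ≤ 2000 / 10000) (ua7 : 0 / 10000 ≤ r) (ua8 : r ≤ 1045 / 10000) (ua9 : 0 ≤ x - s) (ua10 : x - s ≤ 300 / 10000) (ua11 : (y - 4 * (r * s)) ≤ 0) :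
    NumU.uu (x + s) (y + 4 * (r * s)) + (Real.pi * (1 / 2) * -(y - 4 * (r * s)) * (1 + (100 / 3) * (x - s)) + (100 / 3) * (x - s) * NumU.uu (300 / 10000) (y - 4 * (r * s))) + (-NumU.uu (x + 225 / 1000) (y + 9 / 10 * r) + (((300 / 10000) - (x - 225 / 1000)) * NumI.lnA (300 / 10000) (y - 9 / 10 * r) - NumU.uu (300 / 10000) (y - 9 / 10 * r) - Real.pi * (y - 9 / 10 * r))) < (92 / 1000 + 94 / 100 * r + 2 * Real.pi * r * (9 / 100 + 4 * s * (4 * s - 1))) ∨ NumU.uu (x + s) (y + 4 * (r * s)) + (Real.pi * (1 / 2) * -(y - 4 * (r * s)) * (1 + (100 / 3) * (x - s)) + (100 / 3) * (x - s) * NumU.uu (300 / 10000) (y - 4 * (r * s))) + (-NumU.uu (x + 225 / 1000) (y + 9 / 10 * r) + (((300 / 10000) - (x - 225 / 1000)) * NumI.lnA (300 / 10000) (y - 9 / 10 * r) - NumU.uu (300 / 10000) (y - 9 / 10 * r) - Real.pi * -(y - 9 / 10 * r))) < (92 / 1000 + 94 / 100 * r + 2 * Real.pi * r * (9 / 100 + 4 * s * (4 * s - 1))) := by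
  have h : chkT [sub (add (add (q 92 1000) (mul (q 94 100) ZE.r)) (mul (mul (mul (q 2 1) pi) ZE.r) (add (q 9 100) (mul (mul (q 4 1) ZE.s) (sub (mul (q 4 1) ZE.s) (q 1 1)))))) (add (add (E.uu (add ZE.x ZE.s) (add ZE.y ZE.h)) (add (mul (mul (mul pi (q 1 2)) (neg (sub ZE.y ZE.h))) (add (q 1 1) (mul (q 100 3) (sub ZE.x ZE.s)))) (mul (mul (q 100 3) (sub ZE.x ZE.s)) (E.uu (q 300 10000) (sub ZE.y ZE.h))))) (add (neg (E.uu (add ZE.x (q 225 1000)) (add ZE.y (mul (q 9 10) ZE.r)))) (sub (sub (mul (sub (q 300 10000) (sub ZE.x (q 225 1000))) (E.lnA (q 300 10000) (sub ZE.y (mul (q 9 10) ZE.r)))) (E.uu (q 300 10000) (sub ZE.y (mul (q 9 10) ZE.r)))) (mul pi (sub ZE.y (mul (q 9 10) ZE.r)))))), sub (add (add (q 92 1000) (mul (q 94 100) ZE.r)) (mul (mul (mul (q 2 1) pi) ZE.r) (add (q 9 100) (mul (mul (q 4 1) ZE.s) (sub (mul (q 4 1) ZE.s) (q 1 1)))))) (add (add (E.uu (add ZE.x ZE.s) (add ZE.y ZE.h)) (add (mul (mul (mul pi (q 1 2)) (neg (sub ZE.y ZE.h))) (add (q 1 1) (mul (q 100 3) (sub ZE.x ZE.s))))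 (mul (mul (q 100 3) (sub ZE.x ZE.s)) (E.uu (q 300 10000) (sub ZE.y ZE.h))))) (add (neg (E.uu (add ZE.x (q 225 1000)) (add ZE.y (mul (q 9 10) ZE.r)))) (sub (sub (mul (sub (q 300 10000) (sub ZE.x (q 225 1000))) (E.lnA (q 300 10000) (sub ZE.y (mul (q 9 10) ZE.r)))) (E.uu (q 300 10000) (sub ZE.y (mul (q 9 10) ZE.r)))) (mul pi (neg (sub ZE.y (mul (q 9 10) ZE.r))))))), sub ZE.s ZE.x, sub (sub ZE.x ZE.s) (q 300 10000), add (q 0 1) (sub ZE.y ZE.h)] 60
    10553063477553
    [NumI.V.of 10000 2250 2300, NumI.V.of 10000 (-560) 560, NumI.V.of 10000 1950 2000, NumI.V.of 10000 0 1045] = true := by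
    decide +kernel
  obtain ⟨f, hf, hp⟩ := chkT4 h (by norm_num) (x := x) (y := y) (z := s) (w := r)
    (by norm_num; linarith only [ua1]) (by norm_num; linarith only [ua2]) (by norm_num; linarith only [ua3]) (by norm_num; linarith only [ua4]) (by norm_num; linarith only [ua5]) (by norm_num; linarith only [ua6]) (by norm_num; linarith only [ua7]) (by norm_num; linarith only [ua8])
  by_contra hc
  push Not at hc
  obtain ⟨hc0, hc1⟩ := hc
  simp only [List.mem_cons, List.not_mem_nil, or_false] at hf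
  rcases hf with rfl | rfl | rfl | rfl | rfl
  · simp only [ZE.x, ZE.y, ZE.s, ZE.r, ZE.h, E.val, NumI.lkR] at hp
    push_cast at hp
    linarith only [hc0, hp]
  · simp only [ZE.x, ZE.y, ZE.s, ZE.r, ZE.h, E.val, NumI.lkR] at hp
    push_cast at hp
    linarith only [hc1, hp]
  · simp only [ZE.x, ZE.y, ZE.s, ZE.r, ZE.h, E.val, NumI.lkR] at hp
    push_cast at hp
    linarith only [ua1, ua6, hp]
  · simp only [ZE.x, ZE.y, ZE.s, ZE.r, ZE.h, E.val, NumI.lkR] at hp
    push_cast at hp
    linarith only [ua10, hp]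
  · simp only [ZE.x, ZE.y, ZE.s, ZE.r, ZE.h, E.val, NumI.lkR] at hp
    push_cast at hp
    linarith only [ua11, hp]

theorem e4b_pD4X1n_h1_q1 : Pool.Agent.Work.NumU.runT [sub (add (add (q 92 1000) (mul (q 94 100) ZE.r)) (mul (mul (mul (q 2 1) pi) ZE.r) (add (q 9 100) (mul (mul (q 4 1) ZE.s) (sub (mul (q 4 1) ZE.s) (q 1 1)))))) (add (add (E.uu (add ZE.x ZE.s) (add ZE.y ZE.h)) (add (E.uu (sub ZE.x ZE.s) (sub ZE.y ZE.h)) (mul pi (neg (sub ZE.y ZE.h))))) (add (neg (E.uu (add ZE.x (q 225 1000)) (add ZE.y (mul (q 9 10) ZE.r)))) (neg (E.uu (add ZE.x (q 775 1000)) (sub ZE.y (mul (q 9 10) ZE.r)))))), sub (q 300 10000) (sub ZE.x ZE.s), add (q 0 1) (sub ZE.y ZE.h), sub ZE.y (mul (q 56 100) ZE.x), sub (neg ZE.y) (mul (q 56 100) ZE.x)] 59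
    67819322719690368704720120244378103681833688695600309911891702509178260496969833910912050471031278871413285825894297600275248092140793780318292059401791817889805117370892311494577355536894409436219911592326333204438931409237763275753686099915562740317168707422224221326048655303970193415112562764193795694466007668400509942507279374453866003412171215414044335041686224307160604673356369677997792745214728220069865378935621677948928558596149529466894024552978894666372694493251891478173968353957109638971580529872476132654360208473328648858982659301210034647567195986165523544545192177696044875099354354222614315794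
    (Pool.Agent.Work.NumI.setL 0 ([NumI.V.of 10000 300 1950, NumI.V.of 10000 (-560) 560, NumI.V.of 10000 0 1650, NumI.V.of 10000 0 1045])) =
    1868088683296919425116136060608237550751442107695605065706991947609224455931912290196173549304794009315181923502981949049337269353798649605427040047909901496478080327596489451725383591537473992347405853753057263287213969451860421887813194598890667529010631091447811836951596492131363702970429995316979642091659229152867051291334414851 := by
  decide +kernel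

theorem e4b_pD4X1n_h1_q2 : Pool.Agent.Work.NumU.runT [sub (add (add (q 92 1000) (mul (q 94 100) ZE.r)) (mul (mul (mul (q 2 1) pi) ZE.r) (add (q 9 100) (mul (mul (q 4 1) ZE.s) (sub (mul (q 4 1) ZE.s) (q 1 1)))))) (add (add (E.uu (add ZE.x ZE.s) (add ZE.y ZE.h)) (add (E.uu (sub ZE.x ZE.s) (sub ZE.y ZE.h)) (mul pi (neg (sub ZE.y ZE.h))))) (add (neg (E.uu (add ZE.x (q 225 1000)) (add ZE.y (mul (q 9 10) ZE.r)))) (neg (E.uu (add ZE.x (q 775 1000)) (sub ZE.y (mul (q 9 10) ZE.r)))))), sub (q 300 10000) (sub ZE.x ZE.s), add (q 0 1) (sub ZE.y ZE.h), sub ZE.y (mul (q 56 100) ZE.x), sub (neg ZE.y) (mul (q 56 100) ZE.x)] 59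
    1868088683296919425116136060608237550751442107695605065706991947609224455931912290196173549304794009315181923502981949049337269353798649605427040047909901496478080327596489451725383591537473992347405853753057263287213969451860421887813194598890667529010631091447811836951596492131363702970429995316979642091659229152867051291334414850
    (Pool.Agent.Work.NumI.setR 0 ([NumI.V.of 10000 300 1950, NumI.V.of 10000 (-560) 560, NumI.V.of 10000 0 1650, NumI.V.of 10000 0 1045])) =
    1 := by
  decide +kernel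

theorem e4b_pD4X1n {x y s r : ℝ} (ua1 : 300 / 10000 ≤ x) (ua2 : x ≤ 1950 / 10000) (ua3 : -(560 / 10000) ≤ y) (ua4 : y ≤ 560 / 10000) (ua5 : 0 / 10000 ≤ s) (ua6 : s ≤ 1650 / 10000) (ua7 : 0 / 10000 ≤ r) (ua8 : r ≤ 1045 / 10000) (ua9 : 300 / 10000 ≤ x - s) (ua10 : (y - 4 * (r * s)) ≤ 0) (ua11 : y ≤ 56 / 100 * x) (ua12 : -y ≤ 56 / 100 * x) :
    NumU.uu (x + s) (y + 4 * (r * s)) + (NumU.uu (x - s) (y - 4 * (r * s)) + Real.pi * -(y - 4 * (r * s))) + (-NumU.uu (x + 225 / 1000) (y + 9 / 10 * r) + -NumU.uu (x + 775 / 1000) (y - 9 / 10 * r)) < (92 / 1000 + 94 / 100 * r + 2 * Real.pi * r * (9 / 100 + 4 * s * (4 * s - 1))) := by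
  have h : chkT [sub (add (add (q 92 1000) (mul (q 94 100) ZE.r)) (mul (mul (mul (q 2 1) pi) ZE.r) (add (q 9 100) (mul (mul (q 4 1) ZE.s) (sub (mul (q 4 1) ZE.s) (q 1 1)))))) (add (add (E.uu (add ZE.x ZE.s) (add ZE.y ZE.h)) (add (E.uu (sub ZE.x ZE.s) (sub ZE.y ZE.h)) (mul pi (neg (sub ZE.y ZE.h))))) (add (neg (E.uu (add ZE.x (q 225 1000)) (add ZE.y (mul (q 9 10) ZE.r)))) (neg (E.uu (add ZE.x (q 775 1000)) (sub ZE.y (mul (q 9 10) ZE.r)))))), sub (q 300 10000) (sub ZE.x ZE.s), add (q 0 1) (sub ZE.y ZE.h), sub ZE.y (mul (q 56 100) ZE.x), sub (neg ZE.y) (mul (q 56 100) ZE.x)] 60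
    1085109163515045899275521923910049658909339019129604958590267240146852167951517342574592807536500461942612573214308761604403969474252700485092672950428669086236881877934276983913237688590310550979518585477221331271022902547804212412058977598649003845074699318755587541216778484863523094641801004227100731111456122694408159080116469991261856054594739446624709360666979588914569674773701914847964683923435651521117846062969946847182856937538392471470304392847662314661963111892030263650783493663313754223545288477959618122469763335573258381743722548819360554361075135778648376712723074843136718001589669667561829052704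
    [NumI.V.of 10000 300 1950, NumI.V.of 10000 (-560) 560, NumI.V.of 10000 0 1650, NumI.V.of 10000 0 1045] = true :=
      Pool.Agent.Work.NumU.chkT_of (Pool.Agent.Work.NumU.runT_split rfl rfl rfl
        e4b_pD4X1n_h1_q1
        e4b_pD4X1n_h1_q2)
  obtain ⟨f, hf, hp⟩ := chkT4 h (by norm_num) (x := x) (y := y) (z := s) (w := r)
    (by norm_num; linarith only [ua1]) (by norm_num; linarith only [ua2]) (by norm_num; linarith only [ua3]) (by norm_num; linarith only [ua4]) (by norm_num; linarith only [ua5]) (by norm_num; linarith only [ua6]) (by norm_num; linarith only [ua7]) (by norm_num; linarith only [ua8])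
  by_contra hc
  push Not at hc
  simp only [List.mem_cons, List.not_mem_nil, or_false] at hf
  rcases hf with rfl | rfl | rfl | rfl | rfl
  · simp only [ZE.x, ZE.y, ZE.s, ZE.r, ZE.h, E.val, NumI.lkR] at hp
    push_cast at hp
    linarith only [hc, hp]
  · simp only [ZE.x, ZE.y, ZE.s, ZE.r, ZE.h, E.val, NumI.lkR] at hp
    push_cast at hp
    linarith only [ua9, hp]
  · simp only [ZE.x, ZE.y, ZE.s, ZE.r, ZE.h, E.val, NumI.lkR] at hp
    push_cast at hp
    linarith only [ua10, hp]
  · simp only [ZE.x, ZE.y, ZE.s, ZE.r, ZE.h, E.val, NumI.lkR] at hp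
    push_cast at hp
    linarith only [ua11, hp]
  · simp only [ZE.x, ZE.y, ZE.s, ZE.r, ZE.h, E.val, NumI.lkR] at hp
    push_cast at hp
    linarith only [ua12, hp]

theorem e4b_pD4X2n {x y s r : ℝ} (ua1 : 1950 / 10000 ≤ x) (ua2 : x ≤ 2250 / 10000) (ua3 : -(560 / 10000) ≤ y) (ua4 : y ≤ 560 / 10000) (ua5 : 0 / 10000 ≤ s) (ua6 : s ≤ 1950 / 10000) (ua7 : 0 / 10000 ≤ r) (ua8 : r ≤ 1045 / 10000) (ua9 : 300 / 10000 ≤ x - s) (ua10 : (y - 4 * (r * s)) ≤ 0) :
    NumU.uu (x + s) (y + 4 * (r * s)) + (NumU.uu (x - s) (y - 4 * (r * s)) + Real.pi * -(y - 4 * (r * s))) + (-NumU.uu (x + 225 / 1000) (y + 9 / 10 * r) + ((100 / 3) * (225 / 1000 - x) * NumU.uu (300 / 10000) (y - 9 / 10 * r) - Real.pi * (1 / 2) * (y - 9 / 10 * r) * (1 - (100 / 3) * (225 / 1000 - x)))) < (92 / 1000 + 94 / 100 * r + 2 * Real.pi * r * (9 / 100 + 4 * s * (4 * s - 1))) ∨ NumU.uu (x + s) (y + 4 * (r * s)) + (NumU.uu (x - s) (y - 4 * (r * s)) + Real.pi * -(y - 4 * (r * s))) + (-NumU.uu (x + 225 / 1000) (y + 9 / 10 * r) + ((100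 / 3) * (225 / 1000 - x) * NumU.uu (300 / 10000) (y - 9 / 10 * r) - Real.pi * (1 / 2) * -(y - 9 / 10 * r) * (1 - (100 / 3) * (225 / 1000 - x)))) < (92 / 1000 + 94 / 100 * r + 2 * Real.pi * r * (9 / 100 + 4 * s * (4 * s - 1))) := by
  have h : chkT [sub (add (add (q 92 1000) (mul (q 94 100) ZE.r)) (mul (mul (mul (q 2 1) pi) ZE.r) (add (q 9 100) (mul (mul (q 4 1) ZE.s) (sub (mul (q 4 1) ZE.s) (q 1 1)))))) (add (add (E.uu (add ZE.x ZE.s) (add ZE.y ZE.h)) (add (E.uu (sub ZE.x ZE.s) (sub ZE.y ZE.h)) (mul pi (neg (sub ZE.y ZE.h))))) (add (neg (E.uu (add ZE.x (q 225 1000)) (add ZE.y (mul (q 9 10) ZE.r)))) (sub (mul (mul (q 100 3) (sub (q 225 1000) ZE.x)) (E.uu (q 300 10000) (sub ZE.y (mul (q 9 10) ZE.r)))) (mul (mul (mul pi (q 1 2)) (sub ZE.y (mul (q 9 10) ZE.r))) (sub (q 1 1) (mul (q 100 3) (sub (q 225 1000) ZE.x))))))), sub (add (add (q 92 1000) (mul (q 94 100) ZE.r)) (mul (mul (mul (q 2 1) pi) ZE.r) (add (q 9 100) (mul (mul (q 4 1) ZE.s) (sub (mul (q 4 1) ZE.s) (q 1 1)))))) (add (add (E.uu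 (add ZE.x ZE.s) (add ZE.y ZE.h)) (add (E.uu (sub ZE.x ZE.s) (sub ZE.y ZE.h)) (mul pi (neg (sub ZE.y ZE.h))))) (add (neg (E.uu (add ZE.x (q 225 1000)) (add ZE.y (mul (q 9 10) ZE.r)))) (sub (mul (mul (q 100 3) (sub (q 225 1000) ZE.x)) (E.uu (q 300 10000) (sub ZE.y (mul (q 9 10) ZE.r)))) (mul (mul (mul pi (q 1 2)) (neg (sub ZE.y (mul (q 9 10) ZE.r)))) (sub (q 1 1) (mul (q 100 3) (sub (q 225 1000) ZE.x))))))), sub (q 300 10000) (sub ZE.x ZE.s), add (q 0 1) (sub ZE.y ZE.h)] 60
    20438495589832430443818972646742448686409777863380001013310772208506693590460785052862005183615762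
    [NumI.V.of 10000 1950 2250, NumI.V.of 10000 (-560) 560, NumI.V.of 10000 0 1950, NumI.V.of 10000 0 1045] = true := by
    decide +kernel
  obtain ⟨f, hf, hp⟩ := chkT4 h (by norm_num) (x := x) (y := y) (z := s) (w := r)
    (by norm_num; linarith only [ua1]) (by norm_num; linarith only [ua2]) (by norm_num; linarith only [ua3]) (by norm_num; linarith only [ua4]) (by norm_num; linarith only [ua5]) (by norm_num; linarith only [ua6]) (by norm_num; linarith only [ua7]) (by norm_num; linarith only [ua8])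
  by_contra hc
  push Not at hc
  obtain ⟨hc0, hc1⟩ := hc
  simp only [List.mem_cons, List.not_mem_nil, or_false] at hf
  rcases hf with rfl | rfl | rfl | rfl
  · simp only [ZE.x, ZE.y, ZE.s, ZE.r, ZE.h, E.val, NumI.lkR] at hp
    push_cast at hp
    linarith only [hc0, hp]
  · simp only [ZE.x, ZE.y, ZE.s, ZE.r, ZE.h, E.val, NumI.lkR] at hp
    push_cast at hp
    linarith only [hc1, hp]
  · simp only [ZE.x, ZE.y, ZE.s, ZE.r, ZE.h, E.val, NumI.lkR] at hp
    push_cast at hp
    linarith only [ua9, hp]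
  · simp only [ZE.x, ZE.y, ZE.s, ZE.r, ZE.h, E.val, NumI.lkR] at hp
    push_cast at hp
    linarith only [ua10, hp]

theorem e4b_pD4X3n {x y s r : ℝ} (ua1 : 2250 / 10000 ≤ x) (ua2 : x ≤ 2550 / 10000) (ua3 : -(560 / 10000) ≤ y) (ua4 : y ≤ 560 / 10000) (ua5 : 0 / 10000 ≤ s) (ua6 : s ≤ 2000 / 10000) (ua7 : 0 / 10000 ≤ r) (ua8 : r ≤ 1045 / 10000) (ua9 : 300 / 10000 ≤ x - s) (ua10 : (y - 4 * (r * s)) ≤ 0) :
    NumU.uu (x + s) (y + 4 * (r * s)) + (NumU.uu (x - s) (y - 4 * (r * s)) + Real.pi * -(y - 4 * (r * s))) + (-NumU.uu (x + 225 / 1000) (y + 9 / 10 * r) + (((300 / 10000) - (x - 225 / 1000)) * NumI.lnA (300 / 10000) (y - 9 / 10 * r) - NumU.uu (300 / 10000) (y - 9 / 10 * r) - Real.pi * (y - 9 / 10 * r))) < (92 / 1000 + 94 / 100 * r + 2 * Real.pi * r * (9 / 100 + 4 * s * (4 * s - 1))) ∨ NumU.uu (x + s) (y + 4 * (r * s)) + (NumU.uu (x - s) (y - 4 * (r * s)) + Real.pi * -(y - 4 * (r * s))) + (-NumU.uu (x + 225 / 1000) (y + 9 / 10 * r) + (((300 / 10000) - (x - 225 / 1000)) * NumI.lnA (300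 / 10000) (y - 9 / 10 * r) - NumU.uu (300 / 10000) (y - 9 / 10 * r) - Real.pi * -(y - 9 / 10 * r))) < (92 / 1000 + 94 / 100 * r + 2 * Real.pi * r * (9 / 100 + 4 * s * (4 * s - 1))) := by
  have h : chkT [sub (add (add (q 92 1000) (mul (q 94 100) ZE.r)) (mul (mul (mul (q 2 1) pi) ZE.r) (add (q 9 100) (mul (mul (q 4 1) ZE.s) (sub (mul (q 4 1) ZE.s) (q 1 1)))))) (add (add (E.uu (add ZE.x ZE.s) (add ZE.y ZE.h)) (add (E.uu (sub ZE.x ZE.s) (sub ZE.y ZE.h)) (mul pi (neg (sub ZE.y ZE.h))))) (add (neg (E.uu (add ZE.x (q 225 1000)) (add ZE.y (mul (q 9 10) ZE.r)))) (sub (sub (mul (sub (q 300 10000) (sub ZE.x (q 225 1000))) (E.lnA (q 300 10000) (sub ZE.y (mul (q 9 10) ZE.r)))) (E.uu (q 300 10000) (sub ZE.y (mul (q 9 10) ZE.r)))) (mul pi (sub ZE.y (mul (q 9 10) ZE.r)))))), sub (add (add (q 92 1000) (mul (q 94 100) ZE.r)) (mul (mul (mul (q 2 1) pi) ZE.r) (add (q 9 100) (mul (mul (q 4 1) ZE.s) (sub (mul (q 4 1) ZE.s) (q 1 1)))))) (add (add (E.uu (add ZE.x ZE.s) (add ZE.y ZE.h)) (add (E.uu (sub ZE.x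 ZE.s) (sub ZE.y ZE.h)) (mul pi (neg (sub ZE.y ZE.h))))) (add (neg (E.uu (add ZE.x (q 225 1000)) (add ZE.y (mul (q 9 10) ZE.r)))) (sub (sub (mul (sub (q 300 10000) (sub ZE.x (q 225 1000))) (E.lnA (q 300 10000) (sub ZE.y (mul (q 9 10) ZE.r)))) (E.uu (q 300 10000) (sub ZE.y (mul (q 9 10) ZE.r)))) (mul pi (neg (sub ZE.y (mul (q 9 10) ZE.r))))))), sub (q 300 10000) (sub ZE.x ZE.s), add (q 0 1) (sub ZE.y ZE.h)] 60
    3580086560375198321570153038637773473250240687083826
    [NumI.V.of 10000 2250 2550, NumI.V.of 10000 (-560) 560, NumI.V.of 10000 0 2000, NumI.V.of 10000 0 1045] = true := by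
    decide +kernel
  obtain ⟨f, hf, hp⟩ := chkT4 h (by norm_num) (x := x) (y := y) (z := s) (w := r)
    (by norm_num; linarith only [ua1]) (by norm_num; linarith only [ua2]) (by norm_num; linarith only [ua3]) (by norm_num; linarith only [ua4]) (by norm_num; linarith only [ua5]) (by norm_num; linarith only [ua6]) (by norm_num; linarith only [ua7]) (by norm_num; linarith only [ua8])
  by_contra hc
  push Not at hc
  obtain ⟨hc0, hc1⟩ := hc
  simp only [List.mem_cons, List.not_mem_nil, or_false] at hf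
  rcases hf with rfl | rfl | rfl | rfl
  · simp only [ZE.x, ZE.y, ZE.s, ZE.r, ZE.h, E.val, NumI.lkR] at hp
    push_cast at hp
    linarith only [hc0, hp]
  · simp only [ZE.x, ZE.y, ZE.s, ZE.r, ZE.h, E.val, NumI.lkR] at hp
    push_cast at hp
    linarith only [hc1, hp]
  · simp only [ZE.x, ZE.y, ZE.s, ZE.r, ZE.h, E.val, NumI.lkR] at hp
    push_cast at hp
    linarith only [ua9, hp]
  · simp only [ZE.x, ZE.y, ZE.s, ZE.r, ZE.h, E.val, NumI.lkR] at hp
    push_cast at hp
    linarith only [ua10, hp]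

theorem e4b_pD4X4n {x y s r : ℝ} (ua1 : 2550 / 10000 ≤ x) (ua2 : x ≤ 5000 / 10000) (ua3 : -(560 / 10000) ≤ y) (ua4 : y ≤ 560 / 10000) (ua5 : 0 / 10000 ≤ s) (ua6 : s ≤ 2000 / 10000) (ua7 : 0 / 10000 ≤ r) (ua8 : r ≤ 1045 / 10000) (ua9 : (y - 4 * (r * s)) ≤ 0) (ua10 : y ≤ 28 / 10 * (1 / 2 - x)) (ua11 : -y ≤ 28 / 10 * (1 / 2 - x)) :
    NumU.uu (x + s) (y + 4 * (r * s)) + (NumU.uu (x - s) (y - 4 * (r * s)) + Real.pi * -(y - 4 * (r * s))) + (-NumU.uu (x + 225 / 1000) (y + 9 / 10 * r) + -(NumU.uu (x - 225 / 1000) (y - 9 / 10 * r) + Real.pi * (y - 9 / 10 * r))) < (92 / 1000 + 94 / 100 * r + 2 * Real.pi * r * (9 / 100 + 4 * s * (4 * s - 1))) ∨ NumU.uu (x + s) (y + 4 * (r * s)) + (NumU.uu (x - s) (y - 4 * (r * s)) + Real.pi * -(y - 4 * (r * s))) + (-NumU.uu (x + 225 / 1000) (y + 9 / 10 * r) + -(NumU.uu (x - 225 / 1000) (y - 9 / 10 * r) + Real.pi * -(y - 9 / 10 * r))) < (92 / 1000 + 94 / 100 * r + 2 * Real.pi * r * (9 / 100 + 4 * s * (4 * s - 1))) := by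
  have h : chkT [sub (add (add (q 92 1000) (mul (q 94 100) ZE.r)) (mul (mul (mul (q 2 1) pi) ZE.r) (add (q 9 100) (mul (mul (q 4 1) ZE.s) (sub (mul (q 4 1) ZE.s) (q 1 1)))))) (add (add (E.uu (add ZE.x ZE.s) (add ZE.y ZE.h)) (add (E.uu (sub ZE.x ZE.s) (sub ZE.y ZE.h)) (mul pi (neg (sub ZE.y ZE.h))))) (add (neg (E.uu (add ZE.x (q 225 1000)) (add ZE.y (mul (q 9 10) ZE.r)))) (neg (add (E.uu (sub ZE.x (q 225 1000)) (sub ZE.y (mul (q 9 10) ZE.r))) (mul pi (sub ZE.y (mul (q 9 10) ZE.r))))))), sub (add (add (q 92 1000) (mul (q 94 100) ZE.r)) (mul (mul (mul (q 2 1) pi) ZE.r) (add (q 9 100) (mul (mul (q 4 1) ZE.s) (sub (mul (q 4 1) ZE.s) (q 1 1)))))) (add (add (E.uu (add ZE.x ZE.s) (add ZE.y ZE.h)) (add (E.uu (sub ZE.x ZE.s) (sub ZE.y ZE.h)) (mul pi (neg (sub ZE.y ZE.h))))) (add (neg (E.uu (add ZE.x (q 225 1000)) (add ZE.y (mul (q 9 10) ZE.r)))) (neg (add (E.uu (sub ZE.x (q 225 1000)) (sub ZE.y (mul (q 9 10) ZE.r))) (mul pi (neg (sub ZE.y (mul (q 9 10) ZE.r)))))))), add (q 0 1) (sub ZE.y ZE.h),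 sub ZE.y (mul (q 28 10) (sub (q 1 2) ZE.x)), sub (neg ZE.y) (mul (q 28 10) (sub (q 1 2) ZE.x))] 60
    5750635992787485490633100624415847010335361903636648909273719645509959662604558518906666953445219470640348856352
    [NumI.V.of 10000 2550 5000, NumI.V.of 10000 (-560) 560, NumI.V.of 10000 0 2000, NumI.V.of 10000 0 1045] = true := by
    decide +kernel
  obtain ⟨f, hf, hp⟩ := chkT4 h (by norm_num) (x := x) (y := y) (z := s) (w := r)
    (by norm_num; linarith only [ua1]) (by norm_num; linarith only [ua2]) (by norm_num; linarith only [ua3]) (by norm_num; linarith only [ua4]) (by norm_num; linarith only [ua5]) (by norm_num; linarith only [ua6]) (by norm_num; linarith only [ua7]) (by norm_num; linarith only [ua8])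
  by_contra hc
  push Not at hc
  obtain ⟨hc0, hc1⟩ := hc
  simp only [List.mem_cons, List.not_mem_nil, or_false] at hf
  rcases hf with rfl | rfl | rfl | rfl | rfl
  · simp only [ZE.x, ZE.y, ZE.s, ZE.r, ZE.h, E.val, NumI.lkR] at hp
    push_cast at hp
    linarith only [hc0, hp]
  · simp only [ZE.x, ZE.y, ZE.s, ZE.r, ZE.h, E.val, NumI.lkR] at hp
    push_cast at hp
    linarith only [hc1, hp]
  · simp only [ZE.x, ZE.y, ZE.s, ZE.r, ZE.h, E.val, NumI.lkR] at hp
    push_cast at hp
    linarith only [ua9, hp]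
  · simp only [ZE.x, ZE.y, ZE.s, ZE.r, ZE.h, E.val, NumI.lkR] at hp
    push_cast at hp
    linarith only [ua10, hp]
  · simp only [ZE.x, ZE.y, ZE.s, ZE.r, ZE.h, E.val, NumI.lkR] at hp
    push_cast at hp
    linarith only [ua11, hp]

end ZD

end Pool.Agent.Work.MP_b30479_gt.G2
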