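import Pool.Agent.Work.MP_b30479_gt.G2.ZRe4F
import Pool.Agent.Work.MP_b30479_gt.G2.ZRe4G

/-!
# The loss at a hinge between two rings: `e4a`, `e4b`
-/

set_option linter.unusedSimpArgs false
set_option linter.unusedVariables false

namespace Pool.Agent.Work.MP_b30479_gt.G2

open VOL NumU

namespace ZD

theorem e4a (x y σ ρ : ℝ) (x0 : 0 ≤ x) (x1 : x ≤ 1 / 2) (y0 : |y| ≤ 56 / 1000)
    (y1 : |y| ≤ 56 / 100 * x) (y2 : |y| ≤ 28 / 10 * (1 / 2 - x)) (s0 : 3 / 10 ≤ |σ|)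
    (s1 : |σ| ≤ 1 / 2) (r0 : 0 ≤ ρ) (r1 : ρ ≤ 1045 / 10000) :
    fR ⟨x, y⟩ ⟨σ, ρ * LT.th σ⟩ - fR ⟨x, y⟩ ⟨-(11 / 40), 9 / 10 * ρ⟩ + bR σ (ρ * LT.th σ) ≤
      107 / 1000 + 64 / 100 * ρ + q4 σ ρ := by
  rcases le_total σ 0 with h | h
  · obtain ⟨s, rfl⟩ : ∃ s, σ = -(1 / 2) + s := ⟨σ + 1 / 2, by ring⟩
    rw [abs_of_nonpos h] at s0 s1
    have t := e4a_p x0 x1 y0 y1 y2 (s := s) (by linarith only [s1]) (by linarith only [s0]) r0 r1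
    obtain ⟨q1, q2⟩ := q4_p (s := s) (ρ := ρ) (by linarith only [s1]) (by linarith only [s0])
    rw [loss_p (by linarith only [s1]) (by linarith only [s0]), q1, q2]
    linarith only [t]
  · obtain ⟨s, rfl⟩ : ∃ s, σ = 1 / 2 - s := ⟨1 / 2 - σ, by ring⟩
    rw [abs_of_nonneg h] at s0 s1
    have t := e4a_m x0 x1 y0 y1 y2 (s := s) (by linarith only [s1]) (by linarith only [s0]) r0 r1
    have q1 := q4_m (s := s) (ρ := ρ) (by linarith only [s1]) (by linarith only [s0])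
    rw [loss_m (by linarith only [s1]) (by linarith only [s0])]
    linarith only [t, q1]

theorem e4b (x y σ ρ : ℝ) (x0 : 0 ≤ x) (x1 : x ≤ 1 / 2) (y0 : |y| ≤ 56 / 1000)
    (y1 : |y| ≤ 56 / 100 * x) (y2 : |y| ≤ 28 / 10 * (1 / 2 - x)) (s0 : 3 / 10 ≤ |σ|)
    (s1 : |σ| ≤ 1 / 2) (r0 : 0 ≤ ρ) (r1 : ρ ≤ 1045 / 10000) :
    fR ⟨x, y⟩ ⟨σ, ρ * LT.th σ⟩ - fR ⟨x, y⟩ ⟨-(11 / 40), 9 / 10 * ρ⟩ + bR σ (ρ * LT.th σ) ≤
      92 / 1000 + 94 / 100 * ρ + q4 σ ρ := by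
  rcases le_total σ 0 with h | h
  · obtain ⟨s, rfl⟩ : ∃ s, σ = -(1 / 2) + s := ⟨σ + 1 / 2, by ring⟩
    rw [abs_of_nonpos h] at s0 s1
    have t := e4b_p x0 x1 y0 y1 y2 (s := s) (by linarith only [s1]) (by linarith only [s0]) r0 r1
    obtain ⟨q1, q2⟩ := q4_p (s := s) (ρ := ρ) (by linarith only [s1]) (by linarith only [s0])
    rw [loss_p (by linarith only [s1]) (by linarith only [s0]), q1, q2]
    linarith only [t]
  · obtain ⟨s, rfl⟩ : ∃ s, σ = 1 / 2 - s := ⟨1 / 2 - σ, by ring⟩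
    rw [abs_of_nonneg h] at s0 s1
    have t := e4b_m x0 x1 y0 y1 y2 (s := s) (by linarith only [s1]) (by linarith only [s0]) r0 r1
    have q1 := q4_m (s := s) (ρ := ρ) (by linarith only [s1]) (by linarith only [s0])
    rw [loss_m (by linarith only [s1]) (by linarith only [s0])]
    linarith only [t, q1]

end ZD

end Pool.Agent.Work.MP_b30479_gt.G2
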