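import Pool.Agent.Work.MP_b30479_gt.G2.ZRA
import Pool.Agent.Work.MP_b30479_gt.G2.ZRb1
import Pool.Agent.Work.MP_b30479_gt.G2.ZRb2
import Pool.Agent.Work.MP_b30479_gt.G2.ZRb3
import Pool.Agent.Work.MP_b30479_gt.G2.ZRcF
import Pool.Agent.Work.MP_b30479_gt.G2.ZRk
import Pool.Agent.Work.MP_b30479_gt.G2.ZRe1
import Pool.Agent.Work.MP_b30479_gt.G2.ZRe2
import Pool.Agent.Work.MP_b30479_gt.G2.ZRe4
import Pool.Agent.Work.MP_b30479_gt.G2.ZRe5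

/-!
# All rows of the modes at rings
-/

namespace Pool.Agent.Work.MP_b30479_gt.G2

namespace ZD

theorem rowsB : RowsB := ⟨b1, b1d, b2, b2d, b3, b3d, b0, b0d⟩

theorem rowsE : RowsE := ⟨e1, e2, e4a, e4b, e5a, e5b, e5c, e5d⟩

theorem zrows : ZRows := ⟨rowsA, rowsB, rowsC, rowsE, rowsK, rowsZ⟩

end ZD

end Pool.Agent.Work.MP_b30479_gt.G2
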