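import Pool.Agent.Work.MP_b30479_gt.G2.ZDk
import Pool.Agent.Work.MP_b30479_gt.G2.ZRall
import Pool.Agent.Work.MP_b30479_gt.G2.ZRX1
import Pool.Agent.Work.MP_b30479_gt.G2.ZNg
import Pool.Agent.Work.MP_b30479_gt.G2.ZNuc

/-!
# No mirrored paths at rings
-/

namespace Pool.Agent.Work.MP_b30479_gt.G2

open Finset VOL Filter Topology

namespace ZD

theorem rowsN : RowsN := ⟨nD1, nd1, nD2, nd2, nR⟩

end ZD

namespace SR

variable {M : ℕ} {b : Fin (M + 1) → ℤ} {zs : DD (tyW b) ⊕ ZZ (tyW b) → ℂ}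
variable {R : Finset (DD (tyW b))} {nb : Finset (DD (tyW b) ⊕ ZZ (tyW b))}
variable {z : DD (tyW b) ⊕ ZZ (tyW b) → ℂ} {p : DD (tyW b) → ℝ}

theorem zc2r : ZC2r := fun _ _ h1 h2 h3 h4 => ZD.c2r h1 h2 h3 h4

/-- **No modes at rings.** -/
theorem ring_modes' (hb : ClassW b) (L : LocA b zs) (hN : NbT b R nb) (hM : MM b zs R nb z p)
    (h : Fin M) (hr : RH1 b (.inl h)) : p (.inl h) = 0 :=
  ring_modes ZD.zrows zc2r ZD.rowsN hb L hN hM h hr

end SR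

end Pool.Agent.Work.MP_b30479_gt.G2
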