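import Pool.Agent.Work.MP_b30479_gt.G2.WFin
import Pool.Agent.Work.MP_b30479_gt.G2.WMML
import Pool.Agent.Work.MP_b30479_gt.G2.ZDfin

/-!
# Modes and tails: the field `rest` of the domination
-/

namespace Pool.Agent.Work.MP_b30479_gt.G2

open Finset VOL Filter Topology

namespace SR

variable {M : ℕ} {b : Fin (M + 1) → ℤ} {zs : DD (tyW b) ⊕ ZZ (tyW b) → ℂ}

/-- **Modes and tails** from the kinds of hinges, the inner variables and the removal of the tails. -/
theorem restQ_of (hb : ClassW b) (L : LocA b zs) (K : KindsL b zs) (I : InnersL b zs)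
    (tl : (∀ R : Finset (DD (tyW b)), R ≠ ∅ → ∀ (z : DD (tyW b) ⊕ ZZ (tyW b) → ℂ)
      (p : DD (tyW b) → ℝ), MM b zs R (nbT b R) z p →
      ∃ z', Adm (wdat (tyW b) b) (wparM b zs) zs R (nbT b R) z' 0 ∧
        (∀ v ∈ nbT b R, z' v = z v) ∧ Ph b z p ≤ (wdat (tyW b) b).V z' + ∑ h, TL.ee b R z h) →
      TailOkM b zs (wparM b zs) (nbT b)) : RestQ b zs :=
  ⟨mhu b zs, mhd b zs, nbT b, mh_pos, nbT_empty, fun R => (nbT_ok b R).ok.1,
    modes0_of hb L.L K I (fun hM => ring_modes' hb L NbT.empty hM),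
    Or.inr (tl fun R _ z p hM =>
      lossy hb L.L K I (nbT_ok b R) hM (ring_modes' hb L (nbT_ok b R) hM))⟩

end SR

end Pool.Agent.Work.MP_b30479_gt.G2
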