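import Pool.Agent.Work.MP_b30479_gt.G2.TE4a
import Pool.Agent.Work.MP_b30479_gt.G2.TE1T

/-!
# Mirrored paths: the engine for the rows

`gg`: gain of a region with the value `V2` if a hinge on a mirrored path is moved.  `Pm`: a row (side
of a cell), `Pm.Side`: its statement, `side_of`: it follows from five certificates (`x + y` near `0`,
left of `1`, near `1`, right of `1`).
-/

set_option linter.unusedVariables false
set_option linter.unusedSimpArgs false

namespace Pool.Agent.Work.MP_b30479_gt.G2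

open VOL NumU

namespace KR

open NumI (V)

/-! ### the gain -/

/-- the hinge `x + iα` moves to `c - iε`, the other variable of the region is `y + iβ` -/
noncomputable def gg (c ε x α y β : ℝ) : ℝ :=
  uu (c + y) (β - ε) - uu (x + y) (β + α) - 2 * uu c ε + 2 * uu x α +
    Real.pi * ((c - y) * (ε + β) + (x - y) * (α - β) + 1 / 2 * (α + ε))

theorem V2_uu (x a y β : ℝ) : V2 ⟨x, a⟩ ⟨y, β⟩ =
    uu (x + y) (a + β) - 2 * uu x a - 2 * uu y β - Real.pi * ((x - y) * (a - β) + (a + β) / 2) := by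
  unfold V2
  rw [UU_uu, UU_uu, UU_uu]
  simp only [Complex.add_re, Complex.add_im, Complex.sub_re, Complex.sub_im, pow_two,
    Complex.mul_im, Complex.mul_re, Complex.re_ofNat, Complex.im_ofNat]
  ring

theorem gg_eq (c ε x α y β : ℝ) :
    V2 ⟨c, -ε⟩ ⟨y, β⟩ - V2 ⟨x, α⟩ ⟨y, β⟩ = gg c ε x α y β := by
  rw [V2_uu, V2_uu, uu_neg]
  unfold gg
  rw [show -ε + β = β - ε by ring, show α + β = β + α by ring]
  ring

/-- the same at an end of the word -/
noncomputable def g0 (c ε x α : ℝ) : ℝ :=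
  -uu c ε + uu x α + Real.pi * ((c + 1 / 2) * ε + (x + 1 / 2) * α)

theorem g0_eq (c ε x α : ℝ) : V2 ⟨c, -ε⟩ 0 - V2 ⟨x, α⟩ 0 = g0 c ε x α := by
  have e0 : uu 0 0 = 0 := by
    have h3 := UU_uu (0 : ℂ)
    rw [UU_zero] at h3
    simpa using h3.symm
  have h := gg_eq c ε x α 0 0
  unfold gg at h
  rw [show (⟨0, 0⟩ : ℂ) = 0 from rfl, zero_sub, zero_add, add_zero, add_zero, uu_neg] at h
  rw [h]
  unfold g0
  ring

/-! ### `uu` near `0` and near `1` -/

theorem exp3 : 2 * Real.cosh (2 * Real.pi * (46 / 100)) + 2 ≤ Real.exp (2 * (3 / 2)) := by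
  have h : NumI.chk [NumI.E.sub (NumI.E.exp (NumI.E.q 3 1)) (NumI.E.add (NumI.E.q 2 1)
      (NumI.E.mul (NumI.E.q 2 1) (NumI.E.cosh (NumI.E.mul NumI.E.pi (NumI.E.q 92 100)))))] 1
      [NumI.V.of 1 0 0] = true := by
    decide +kernel
  have hp := NumI.pos_of_chk (NumI.chk1 h (by norm_num) (x := 0) (by norm_num) (by norm_num))
  simp only [NumI.E.val] at hp
  rw [show 2 * Real.pi * (46 / 100) = Real.pi * (((92 : ℤ) : ℝ) / ((100 : ℕ) : ℝ)) by
    push_cast; ring, show (2 : ℝ) * (3 / 2) = ((3 : ℤ) : ℝ) / ((1 : ℕ) : ℝ) by norm_num]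
  have e2 : (((2 : ℤ) : ℝ) / ((1 : ℕ) : ℝ)) = 2 := by norm_num
  rw [e2] at hp
  linarith only [hp]

theorem near_one {s Y : ℝ} (h0 : 995 / 1000 ≤ s) (h1 : s ≤ 1005 / 1000) (hY : |Y| ≤ 46 / 100) :
    uu (5 / 1000) Y - 150 / 10000 ≤ -uu s Y := by
  have h2 := TL.uu_slope (u := 995 / 1000) (v := s) h0 (by norm_num : (0 : ℝ) < 46 / 100) hY exp3
  have h3 : uu (995 / 1000) Y = -uu (5 / 1000) Y := by
    rw [← uu_one_sub]
    norm_num
  linarith only [h1, h2, h3]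

theorem near_zero {s Y : ℝ} (h0 : 0 ≤ s) (h1 : s ≤ 5 / 1000) : 0 ≤ -uu s Y := by
  have h2 := TL.E1.W_lo (w := 0) (s := s) (Y := Y) le_rfl h0 (by linarith only [h1])
  have e0 : uu 0 0 = 0 := by
    have h3 := UU_uu (0 : ℂ)
    rw [UU_zero] at h3
    simpa using h3.symm
  linarith only [h2, e0]

theorem right_one (s Y : ℝ) : -uu s Y = -(uu (s - 1) Y + Real.pi * |Y|) := by
  have h := uu_add_one (s - 1) Y
  rw [sub_add_cancel] at h
  rw [h]

/-! ### rows -/

/-- a domain for the other variable `y + iβ`: `β ≤ k1 y`, `β ≤ k2 (8/10 - y)`, `-β ≤ k3 y`,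
`-β ≤ k4 (8/10 - y)`, `b0 ≤ β ≤ b1` -/
structure Dm where
  n1 : ℤ
  d1 : ℕ
  n2 : ℤ
  d2 : ℕ
  n3 : ℤ
  d3 : ℕ
  n4 : ℤ
  d4 : ℕ
  b0 : ℤ
  b1 : ℤ

/-- other hinge of a region with two crossings -/
def D2 : Dm := ⟨16, 10, 16, 29, 25, 10, 30, 47, -3000, 1600⟩
/-- inner variable of an interior region with three crossings -/
def DL : Dm := ⟨32, 10, 32, 10, 32, 10, 32, 10, -1600, 1600⟩

structure Dm.In (d : Dm) (y β : ℝ) : Prop where
  h1 : β ≤ (d.n1 : ℝ) / d.d1 * y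
  h2 : β ≤ (d.n2 : ℝ) / d.d2 * (8 / 10 - y)
  h3 : -β ≤ (d.n3 : ℝ) / d.d3 * y
  h4 : -β ≤ (d.n4 : ℝ) / d.d4 * (8 / 10 - y)
  h5 : (d.b0 : ℝ) / 10000 ≤ β
  h6 : β ≤ (d.b1 : ℝ) / 10000

structure Pm where
  dm : Dm
  x0 : ℤ
  x1 : ℤ
  t0 : ℤ
  t1 : ℤ
  c : ℤ
  en : ℤ
  ed : ℕ
  a0 : ℤ
  a1 : ℤ
  ad : ℕ
  sg : ℤ
  q0 : ℤ
  q1 : ℤ
  q2 : ℤ
  pen : ℤ
  ek : ℤ
  y0 : ℤ
  y1 : ℤ

namespace Pm

variable (p : Pm)

/-- height of the target -/
noncomputable def e (T : ℝ) : ℝ := (p.en : ℝ) / p.ed * T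
/-- height of the mirrored path -/
noncomputable def a (x : ℝ) : ℝ := (p.a0 : ℝ) / p.ad + (p.a1 : ℝ) / p.ad * x

noncomputable def F (x T y β W : ℝ) : ℝ :=
  uu ((p.c : ℝ) / 100 + y) (β - p.sg * p.e T) + W +
    Real.pi * (((p.c : ℝ) / 100 - y) * (p.sg * p.e T + β) + (x - y) * (p.sg * p.a x - β) +
      1 / 2 * (p.sg * p.a x + p.sg * p.e T)) +
    ((p.q0 : ℝ) / 10000 + ((p.q1 : ℝ) / 10000 * x + (p.q2 : ℝ) / 10000 * T)) +
    Real.pi * (p.pen * p.a x - p.ek * (((p.c : ℝ) / 100 + 1 / 2) * p.e T + (x + 1 / 2) * p.a x))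

/-- the statement of a row -/
def Side : Prop := ∀ x T y β : ℝ, (p.x0 : ℝ) / 10000 ≤ x → x ≤ (p.x1 : ℝ) / 10000 →
  (p.t0 : ℝ) / 10000 ≤ T → T ≤ (p.t1 : ℝ) / 10000 → (p.y0 : ℝ) / 100 ≤ y → y ≤ (p.y1 : ℝ) / 100 →
  p.dm.In y β → 0 < p.F x T y β (-uu (x + y) (β + p.sg * p.a x))

/-! ### expressions -/

def eY : E := .sub (.var 2) (.var 0)
def eE : E := .mul (.q p.en p.ed) (.var 1)
def eA : E := .add (.q p.a0 p.ad) (.mul (.q p.a1 p.ad) (.var 0))
def eAl : E := .mul (.q p.sg 1) p.eA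
def eEp : E := .mul (.q p.sg 1) p.eE
def eC : E := .q p.c 100

def main (W : E) : E :=
  .add (.add (.add (.add (.uu (.add p.eC eY) (.sub (.var 3) p.eEp)) W)
    (.mul .pi (.add (.add (.mul (.sub p.eC eY) (.add p.eEp (.var 3)))
      (.mul (.sub (.var 0) eY) (.sub p.eAl (.var 3)))) (.mul (.q 1 2) (.add p.eAl p.eEp)))))
    (.add (.q p.q0 10000) (.add (.mul (.q p.q1 10000) (.var 0)) (.mul (.q p.q2 10000) (.var 1)))))
    (.mul .pi (.sub (.mul (.q p.pen 1) p.eA) (.mul (.q p.ek 1) (.add (.mul (.add p.eC (.q 1 2)) p.eE)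
      (.mul (.add (.var 0) (.q 1 2)) p.eA)))))

def W1 : E := .neg (.uu (.var 2) (.add (.var 3) p.eAl))
def W2 : E := .sub (.uu (.q 5 1000) (.add (.var 3) p.eAl)) (.q 150 10000)
def W3 : E := .neg (.add (.uu (.sub (.var 2) (.q 1 1)) (.add (.var 3) p.eAl))
  (.mul .pi (.add (.var 3) p.eAl)))
def W4 : E := .sub (.mul .pi (.add (.var 3) p.eAl))
  (.uu (.sub (.var 2) (.q 1 1)) (.add (.var 3) p.eAl))

/-- constraints -/
def exl : List E :=
  [.sub (.q p.y0 100) eY, .sub eY (.q p.y1 100),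
    .sub (.var 3) (.mul (.q p.dm.n1 p.dm.d1) eY),
    .sub (.var 3) (.mul (.q p.dm.n2 p.dm.d2) (.sub (.q 8 10) eY)),
    .sub (.neg (.var 3)) (.mul (.q p.dm.n3 p.dm.d3) eY),
    .sub (.neg (.var 3)) (.mul (.q p.dm.n4 p.dm.d4) (.sub (.q 8 10) eY))]

def box (s0 s1 : ℤ) : List V :=
  [V.of 10000 p.x0 p.x1, V.of 10000 p.t0 p.t1, V.of 10000 s0 s1, V.of 10000 p.dm.b0 p.dm.b1]

def smin : ℤ := p.x0 + 100 * p.y0
def smax : ℤ := p.x1 + 100 * p.y1

def okA (c : ℕ) : Bool := decide (50 ≤ p.smin) ||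
  (decide (0 ≤ p.smin) && chkT (p.main (.q 0 1) :: p.exl) 60 c (p.box p.smin 50))
def okB (c : ℕ) : Bool := decide (9951 ≤ p.smin) ||
  chkT (p.main p.W1 :: p.exl) 60 c (p.box (max p.smin 50) (min p.smax 9950))
def okC (c : ℕ) : Bool := decide (p.smax ≤ 9950) || decide (10051 ≤ p.smin) ||
  chkT (p.main p.W2 :: p.exl) 60 c (p.box (max p.smin 9950) (min p.smax 10050))
def okD (c : ℕ) : Bool := decide (p.smax ≤ 10050) ||
  chkT (p.main p.W3 :: (p.exl ++ [.neg (.add (.var 3) p.eAl)])) 60 c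
    (p.box (max p.smin 10050) p.smax)
def okE (c : ℕ) : Bool := decide (p.smax ≤ 10050) ||
  chkT (p.main p.W4 :: (p.exl ++ [.add (.var 3) p.eAl])) 60 c (p.box (max p.smin 10050) p.smax)

variable {p}

theorem main_val {x T y β : ℝ} {W : E} :
    (p.main W).val [x, T, x + y, β] = p.F x T y β (W.val [x, T, x + y, β]) := by
  simp only [main, eY, eE, eA, eAl, eEp, eC, E.val, NumI.lkR, F, Pm.e, Pm.a, add_sub_cancel_left]
  push_cast
  simp only [div_one]

theorem exl_false {x T y β : ℝ} (h0 : (p.y0 : ℝ) / 100 ≤ y) (h1 : y ≤ (p.y1 : ℝ) / 100)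
    (hd : p.dm.In y β) {e : E} (he : e ∈ p.exl) (hp : 0 < e.val [x, T, x + y, β]) : False := by
  obtain ⟨g1, g2, g3, g4, -, -⟩ := hd
  simp only [exl, List.mem_cons, List.not_mem_nil, or_false] at he
  rcases he with rfl | rfl | rfl | rfl | rfl | rfl
  · simp only [eY, E.val, NumI.lkR, add_sub_cancel_left] at hp
    push_cast at hp
    linarith only [h0, hp]
  · simp only [eY, E.val, NumI.lkR, add_sub_cancel_left] at hp
    push_cast at hp
    linarith only [h1, hp]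
  · simp only [eY, E.val, NumI.lkR, add_sub_cancel_left] at hp
    push_cast at hp
    linarith only [g1, hp]
  · simp only [eY, E.val, NumI.lkR, add_sub_cancel_left] at hp
    push_cast at hp
    linarith only [g2, hp]
  · simp only [eY, E.val, NumI.lkR, add_sub_cancel_left] at hp
    push_cast at hp
    linarith only [g3, hp]
  · simp only [eY, E.val, NumI.lkR, add_sub_cancel_left] at hp
    push_cast at hp
    linarith only [g4, hp]

theorem get {x T y β : ℝ} {W : E} {l : List E} {n c : ℕ} {s0 s1 : ℤ}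
    (h : chkT (p.main W :: (p.exl ++ l)) n c (p.box s0 s1) = true)
    (hx0 : (p.x0 : ℝ) / 10000 ≤ x) (hx1 : x ≤ (p.x1 : ℝ) / 10000) (ht0 : (p.t0 : ℝ) / 10000 ≤ T)
    (ht1 : T ≤ (p.t1 : ℝ) / 10000) (hs0 : (s0 : ℝ) / 10000 ≤ x + y)
    (hs1 : x + y ≤ (s1 : ℝ) / 10000) (h0 : (p.y0 : ℝ) / 100 ≤ y) (h1 : y ≤ (p.y1 : ℝ) / 100)
    (hd : p.dm.In y β) (hl : ∀ e ∈ l, 0 < e.val [x, T, x + y, β] → False) :
    0 < p.F x T y β (W.val [x, T, x + y, β]) := by
  have hc : ((10000 : ℕ) : ℝ) = 10000 := by norm_num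
  obtain ⟨e, he, hp⟩ := chkT4 h (by norm_num) (x := x) (y := T) (z := x + y) (w := β)
    (by rw [hc]; exact hx0) (by rw [hc]; exact hx1) (by rw [hc]; exact ht0)
    (by rw [hc]; exact ht1) (by rw [hc]; exact hs0) (by rw [hc]; exact hs1)
    (by rw [hc]; exact hd.h5) (by rw [hc]; exact hd.h6)
  rcases List.mem_cons.1 he with rfl | he
  · rwa [main_val] at hp
  · rcases List.mem_append.1 he with he | he
    · exact absurd (exl_false h0 h1 hd he hp) id
    · exact absurd (hl e he hp) id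

theorem get' {x T y β : ℝ} {W : E} {n c : ℕ} {s0 s1 : ℤ}
    (h : chkT (p.main W :: p.exl) n c (p.box s0 s1) = true)
    (hx0 : (p.x0 : ℝ) / 10000 ≤ x) (hx1 : x ≤ (p.x1 : ℝ) / 10000) (ht0 : (p.t0 : ℝ) / 10000 ≤ T)
    (ht1 : T ≤ (p.t1 : ℝ) / 10000) (hs0 : (s0 : ℝ) / 10000 ≤ x + y)
    (hs1 : x + y ≤ (s1 : ℝ) / 10000) (h0 : (p.y0 : ℝ) / 100 ≤ y) (h1 : y ≤ (p.y1 : ℝ) / 100)
    (hd : p.dm.In y β) : 0 < p.F x T y β (W.val [x, T, x + y, β]) :=
  get (l := []) (by rw [List.append_nil]; exact h) hx0 hx1 ht0 ht1 hs0 hs1 h0 h1 hd (by simp)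

theorem F_mono {x T y β W W' : ℝ} (h : W ≤ W') (h' : 0 < p.F x T y β W) :
    0 < p.F x T y β W' := by
  unfold F at h' ⊢
  linarith only [h, h']

/-- **Soundness.** `hY`: the heights are at most `46/100`. -/
theorem side_of {ca cb cc cd ce : ℕ} (hA : p.okA ca = true) (hB : p.okB cb = true)
    (hC : p.okC cc = true) (hD : p.okD cd = true) (hE : p.okE ce = true)
    (hY : ∀ x β : ℝ, (p.x0 : ℝ) / 10000 ≤ x → x ≤ (p.x1 : ℝ) / 10000 →
      (p.dm.b0 : ℝ) / 10000 ≤ β → β ≤ (p.dm.b1 : ℝ) / 10000 → |β + p.sg * p.a x| ≤ 46 / 100) :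
    p.Side := by
  intro x T y β hx0 hx1 ht0 ht1 h0 h1 hd
  have hs0 : (p.smin : ℝ) / 10000 ≤ x + y := by
    unfold smin
    push_cast
    linarith only [hx0, h0]
  have hs1 : x + y ≤ (p.smax : ℝ) / 10000 := by
    unfold smax
    push_cast
    linarith only [hx1, h1]
  have hl : ∀ {s k : ℤ}, (s : ℝ) / 10000 ≤ x + y → (k : ℝ) / 10000 ≤ x + y →
      ((max s k : ℤ) : ℝ) / 10000 ≤ x + y := by
    intro s k h2 h3
    rw [div_le_iff₀ (by norm_num)] at h2 h3 ⊢
    push_cast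
    exact max_le h2 h3
  have hr : ∀ {s k : ℤ}, x + y ≤ (s : ℝ) / 10000 → x + y ≤ (k : ℝ) / 10000 →
      x + y ≤ ((min s k : ℤ) : ℝ) / 10000 := by
    intro s k h2 h3
    rw [le_div_iff₀ (by norm_num)] at h2 h3 ⊢
    push_cast
    exact le_min h2 h3
  unfold okA at hA
  unfold okB at hB
  unfold okC at hC
  unfold okD at hD
  unfold okE at hE
  simp only [Bool.or_eq_true, Bool.and_eq_true, decide_eq_true_eq] at hA hB hC hD hE
  -- near `0`
  rcases lt_or_ge (x + y) (5 / 1000) with c1 | c1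
  · obtain ⟨h2, h3⟩ := hA.resolve_left (by
      intro h2
      have : (50 : ℝ) ≤ p.smin := by exact_mod_cast h2
      linarith only [hs0, c1, this])
    have h4 : (0 : ℝ) ≤ p.smin := by exact_mod_cast h2
    have h5 := get' h3 hx0 hx1 ht0 ht1 hs0 (by push_cast; linarith only [c1]) h0 h1 hd
    refine F_mono ?_ h5
    simp only [E.val]
    push_cast
    rw [zero_div]
    exact near_zero (by linarith only [hs0, h4, div_nonneg h4 (by norm_num : (0 : ℝ) ≤ 10000)]) c1.le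
  rcases le_or_gt (x + y) (995 / 1000) with c2 | c2
  · have h3 := hB.resolve_left (by
      intro h2
      have : (9951 : ℝ) ≤ p.smin := by exact_mod_cast h2
      linarith only [hs0, c2, this])
    have h5 := get' h3 hx0 hx1 ht0 ht1 (hl hs0 (by push_cast; linarith only [c1]))
      (hr hs1 (by push_cast; linarith only [c2])) h0 h1 hd
    refine F_mono (le_of_eq ?_) h5
    simp only [W1, eAl, eA, E.val, NumI.lkR, Pm.a]
    push_cast
    simp only [div_one]
  rcases le_or_gt (x + y) (1005 / 1000) with c3 | c3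
  · have h3 := hC.resolve_left (by
      rintro (h2 | h2)
      · have : (p.smax : ℝ) ≤ 9950 := by exact_mod_cast h2
        linarith only [hs1, c2, this]
      · have : (10051 : ℝ) ≤ p.smin := by exact_mod_cast h2
        linarith only [hs0, c3, this])
    have h5 := get' h3 hx0 hx1 ht0 ht1 (hl hs0 (by push_cast; linarith only [c2]))
      (hr hs1 (by push_cast; linarith only [c3])) h0 h1 hd
    refine F_mono ?_ h5
    simp only [W2, eAl, eA, E.val, NumI.lkR]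
    push_cast
    simp only [div_one]
    exact near_one c2.le c3 (hY x β hx0 hx1 hd.h5 hd.h6)
  · have hn : ¬ p.smax ≤ 10050 := by
      intro h2
      have : (p.smax : ℝ) ≤ 10050 := by exact_mod_cast h2
      linarith only [hs1, c3, this]
    have h3 := hD.resolve_left hn
    have h3' := hE.resolve_left hn
    have hs : ((max p.smin 10050 : ℤ) : ℝ) / 10000 ≤ x + y := hl hs0 (by push_cast; linarith only [c3])
    rw [right_one]
    rcases le_total 0 (β + p.sg * p.a x) with c4 | c4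
    · have h5 := get h3 hx0 hx1 ht0 ht1 hs hs1 h0 h1 hd (by
        intro e he hp
        simp only [List.mem_cons, List.not_mem_nil, or_false] at he
        subst he
        simp only [eAl, eA, E.val, NumI.lkR] at hp
        push_cast at hp
        simp only [div_one] at hp
        unfold Pm.a at c4
        linarith only [c4, hp])
      refine F_mono (le_of_eq ?_) h5
      rw [abs_of_nonneg c4]
      simp only [W3, eAl, eA, E.val, NumI.lkR, Pm.a]
      push_cast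
      simp only [div_one]
    · have h5 := get h3' hx0 hx1 ht0 ht1 hs hs1 h0 h1 hd (by
        intro e he hp
        simp only [List.mem_cons, List.not_mem_nil, or_false] at he
        subst he
        simp only [eAl, eA, E.val, NumI.lkR] at hp
        push_cast at hp
        simp only [div_one] at hp
        unfold Pm.a at c4
        linarith only [c4, hp])
      refine F_mono (le_of_eq ?_) h5
      rw [abs_of_nonpos c4]
      simp only [W4, eAl, eA, E.val, NumI.lkR, Pm.a]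
      push_cast
      simp only [div_one]
      ring

variable (p) in
/-- bounds of the heights -/
def yOK : Bool := decide (-3000 ≤ p.dm.b0) && (decide (p.dm.b1 ≤ 3000) &&
  ((decide (p.sg = 1) || decide (p.sg = -1)) && (decide (0 < p.ad) &&
  (decide (0 ≤ 10000 * p.a0 + p.a1 * p.x0) && (decide (0 ≤ 10000 * p.a0 + p.a1 * p.x1) &&
  (decide (10000 * p.a0 + p.a1 * p.x0 ≤ 1600 * (p.ad : ℤ)) &&
    decide (10000 * p.a0 + p.a1 * p.x1 ≤ 1600 * (p.ad : ℤ))))))))

theorem a_mem (h : p.yOK = true) {x : ℝ} (h0 : (p.x0 : ℝ) / 10000 ≤ x)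
    (h1 : x ≤ (p.x1 : ℝ) / 10000) : 0 ≤ p.a x ∧ p.a x ≤ 16 / 100 := by
  unfold yOK at h
  simp only [Bool.and_eq_true, decide_eq_true_eq] at h
  obtain ⟨-, -, -, k4, k5, k6, k7, k8⟩ := h
  have j4 : (0 : ℝ) < p.ad := by exact_mod_cast k4
  have j5 : (0 : ℝ) ≤ 10000 * p.a0 + p.a1 * p.x0 := by exact_mod_cast k5
  have j6 : (0 : ℝ) ≤ 10000 * p.a0 + p.a1 * p.x1 := by exact_mod_cast k6
  have j7 : (10000 : ℝ) * p.a0 + p.a1 * p.x0 ≤ 1600 * p.ad := by exact_mod_cast k7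
  have j8 : (10000 : ℝ) * p.a0 + p.a1 * p.x1 ≤ 1600 * p.ad := by exact_mod_cast k8
  have ea : p.a x = (p.a0 + p.a1 * x) / p.ad := by
    unfold Pm.a
    ring
  have key : 0 ≤ (p.a0 : ℝ) + p.a1 * x ∧ (p.a0 : ℝ) + p.a1 * x ≤ 16 / 100 * p.ad := by
    rcases le_total 0 (p.a1 : ℝ) with c | c
    · have m1 := mul_le_mul_of_nonneg_left h0 c
      have m2 := mul_le_mul_of_nonneg_left h1 c
      constructor <;> linarith only [j5, m1, j8, m2]
    · have m1 := mul_le_mul_of_nonpos_left h0 c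
      have m2 := mul_le_mul_of_nonpos_left h1 c
      constructor <;> linarith only [j6, m2, j7, m1]
  rw [ea]
  exact ⟨div_nonneg key.1 j4.le, (div_le_iff₀ j4).2 key.2⟩

theorem Y_le (h : p.yOK = true) (x β : ℝ) (h0 : (p.x0 : ℝ) / 10000 ≤ x)
    (h1 : x ≤ (p.x1 : ℝ) / 10000) (h2 : (p.dm.b0 : ℝ) / 10000 ≤ β)
    (h3 : β ≤ (p.dm.b1 : ℝ) / 10000) : |β + p.sg * p.a x| ≤ 46 / 100 := by
  have g := a_mem h h0 h1
  unfold yOK at h
  simp only [Bool.and_eq_true, Bool.or_eq_true, decide_eq_true_eq] at h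
  obtain ⟨k1, k2, k3, -⟩ := h
  have j1 : (-3000 : ℝ) ≤ p.dm.b0 := by exact_mod_cast k1
  have j2 : (p.dm.b1 : ℝ) ≤ 3000 := by exact_mod_cast k2
  rcases k3 with k3 | k3
  all_goals
    rw [k3, abs_le]
    push_cast
    constructor <;> linarith only [h2, g, j1, h3, j2, g.1, g.2]

variable (p) in
def ok (ca cb cc cd ce : ℕ) : Bool :=
  p.yOK && (p.okA ca && (p.okB cb && (p.okC cc && (p.okD cd && p.okE ce))))

theorem side {ca cb cc cd ce : ℕ} (h : p.ok ca cb cc cd ce = true) : p.Side := by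
  unfold ok at h
  simp only [Bool.and_eq_true] at h
  obtain ⟨k1, k2, k3, k4, k5, k6⟩ := h
  exact side_of k2 k3 k4 k5 k6 (Y_le k1)

end Pm

end KR

end Pool.Agent.Work.MP_b30479_gt.G2
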