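import Pool.Agent.Work.NumU.GenF
import Pool.Agent.Work.MP_b30479_gt.G2.WMR0

/-!
# Mirrored paths: rows with the fast checker of `NumG`

`Pm.okG`: one certificate for the whole row, variables `x`, `T`, `y`, `β`.
-/

set_option linter.unusedVariables false
set_option linter.unusedSimpArgs false

namespace Pool.Agent.Work.MP_b30479_gt.G2

open VOL

namespace KR

namespace Pm

open NumG (E chkF chkF4)
open NumU (uu)

variable (p : Pm)

def gE : E := .mul (.q p.en p.ed) (.var 1)
def gA : E := .add (.q p.a0 p.ad) (.mul (.q p.a1 p.ad) (.var 0))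
def gAl : E := .mul (.q p.sg 1) p.gA
def gEp : E := .mul (.q p.sg 1) p.gE
def gC : E := .q p.c 100

/-- the row and the constraints -/
def esG : List E :=
  [.add (.add (.add (.sub (.uw (.add p.gC (.var 2)) (.sub (.var 3) p.gEp))
      (.uw (.add (.var 0) (.var 2)) (.add (.var 3) p.gAl)))
    (.mul .pi (.add (.add (.mul (.sub p.gC (.var 2)) (.add p.gEp (.var 3)))
      (.mul (.sub (.var 0) (.var 2)) (.sub p.gAl (.var 3)))) (.mul (.q 1 2) (.add p.gAl p.gEp)))))
    (.add (.q p.q0 10000) (.add (.mul (.q p.q1 10000) (.var 0)) (.mul (.q p.q2 10000) (.var 1)))))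
    (.mul .pi (.mul (.q p.pen 1) p.gA)),
    .sub (.var 3) (.mul (.q p.dm.n1 p.dm.d1) (.var 2)),
    .sub (.var 3) (.mul (.q p.dm.n2 p.dm.d2) (.sub (.q 8 10) (.var 2))),
    .sub (.neg (.var 3)) (.mul (.q p.dm.n3 p.dm.d3) (.var 2)),
    .sub (.neg (.var 3)) (.mul (.q p.dm.n4 p.dm.d4) (.sub (.q 8 10) (.var 2)))]

noncomputable def okG (c : ℕ) : Bool :=
  decide (p.ek = 0) && (decide (0 ≤ p.x0) && (decide (0 ≤ p.x1) && (decide (0 ≤ p.t0) &&
    (decide (0 ≤ p.t1) && (decide (0 ≤ p.y0) && (decide (0 ≤ p.y1) && (decide (0 ≤ p.dm.b0 + 3000) &&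
    (decide (0 ≤ p.dm.b1 + 3000) && chkF p.esG 10000 0 0 0 3000 40 p.x0.toNat p.x1.toNat p.t0.toNat
      p.t1.toNat (p.y0 * 100).toNat (p.y1 * 100).toNat (p.dm.b0 + 3000).toNat (p.dm.b1 + 3000).toNat
      c))))))))

variable {p}

theorem nat_cast {z : ℤ} (h : 0 ≤ z) : ((z.toNat : ℕ) : ℝ) = (z : ℝ) := by
  have h1 : ((z.toNat : ℕ) : ℤ) = z := Int.toNat_of_nonneg h
  exact_mod_cast congrArg (fun t : ℤ => (t : ℝ)) h1

theorem sideG {c : ℕ} (h : p.okG c = true) : p.Side := by
  unfold okG at h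
  simp only [Bool.and_eq_true, decide_eq_true_eq] at h
  obtain ⟨k0, k1, k2, k3, k4, k5, k6, k7, k8, h⟩ := h
  intro x T y β hx0 hx1 ht0 ht1 h0 h1 hd
  have hN : ((10000 : ℕ) : ℝ) = 10000 := by norm_num
  obtain ⟨e, he, hp⟩ := chkF4 h (by norm_num) (x := x) (y := T) (z := y) (w := β)
    (by rw [hN, nat_cast k1]; push_cast; linarith only [hx0]) (by rw [hN, nat_cast k2]; push_cast; linarith only [hx1])
    (by rw [hN, nat_cast k3]; push_cast; linarith only [ht0]) (by rw [hN, nat_cast k4]; push_cast; linarith only [ht1])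
    (by rw [hN, nat_cast (by linarith only [k5])]; push_cast; linarith only [h0])
    (by rw [hN, nat_cast (by linarith only [k6])]; push_cast; linarith only [h1])
    (by rw [hN, nat_cast k7]; push_cast; linarith only [hd, hd.h5])
    (by rw [hN, nat_cast k8]; push_cast; linarith only [hd, hd.h6])
  obtain ⟨g1, g2, g3, g4, -, -⟩ := hd
  simp only [esG, List.mem_cons, List.not_mem_nil, or_false] at he
  rcases he with rfl | rfl | rfl | rfl | rfl
  · simp only [gE, gA, gAl, gEp, gC, E.val, NumI.lkR] at hp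
    push_cast at hp
    simp only [div_one] at hp
    unfold Pm.F Pm.e Pm.a
    rw [k0]
    push_cast
    linarith only [hp]
  · exfalso
    simp only [E.val, NumI.lkR] at hp
    push_cast at hp
    linarith only [g1, hp]
  · exfalso
    simp only [E.val, NumI.lkR] at hp
    push_cast at hp
    linarith only [g2, hp]
  · exfalso
    simp only [E.val, NumI.lkR] at hp
    push_cast at hp
    linarith only [g3, hp]
  · exfalso
    simp only [E.val, NumI.lkR] at hp
    push_cast at hp
    linarith only [g4, hp]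

end Pm

/-- other hinge of a region with two crossings; no mode from above except at a digit `1` -/
def D2x : Dm := ⟨1, 1, 16, 29, 25, 10, 30, 47, -3000, 1600⟩
/-- inner variable of an interior region with three crossings which is on no upper mode -/
def DM : Dm := ⟨32, 10, 32, 10, 32, 10, 32, 10, -1600, 150⟩

/-- inner variable: modes from above only for `y ≤ 40/100` and for `k/100 ≤ y` -/
def InL (k : ℤ) (y β : ℝ) : Prop :=
  (y ≤ ((40 : ℤ) : ℝ) / 100 ∧ DL.In y β) ∨
    (((40 : ℤ) : ℝ) / 100 ≤ y ∧ y ≤ (k : ℝ) / 100 ∧ DM.In y β) ∨ ((k : ℝ) / 100 ≤ y ∧ DL.In y β)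

end KR

end Pool.Agent.Work.MP_b30479_gt.G2
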