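import Pool.Agent.Work.MP_b30479_gt.G2.WMMA
import Pool.Agent.Work.MP_b30479_gt.G2.RngO
import Pool.Agent.Work.MP_b30479_gt.G2.WMR0

/-!
# Mirrored paths: domains of the other variables

`NPos.d2`: the other hinge of a region with two crossings is in the domain `D2`, `IPos.dl`: the inner
variable of an interior region with three crossings is in the domain `DL`.
-/

namespace Pool.Agent.Work.MP_b30479_gt.G2

open Finset VOL Filter Topology

namespace SR

variable {M : ℕ} {b : Fin (M + 1) → ℤ} {zs : DD (tyW b) ⊕ ZZ (tyW b) → ℂ}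
variable {R : Finset (DD (tyW b))} {nb : Finset (DD (tyW b) ⊕ ZZ (tyW b))}
variable {z : DD (tyW b) ⊕ ZZ (tyW b) → ℂ} {p : DD (tyW b) → ℝ}
variable {h h' : Fin M} {i j j' : Fin (M + 1)} {s : Fin 3} {x c : ℝ}

theorem tr_ub {XM cl cr y : ℝ} (hcl : 0 < cl) (hcr : 0 < cr) (h0 : 0 ≤ y) (h1 : y ≤ XM) :
    0 ≤ tr 0 XM cl cr y ∧ tr 0 XM cl cr y ≤ 1 ∧ cl * tr 0 XM cl cr y ≤ y ∧
      cr * tr 0 XM cl cr y ≤ XM - y := by
  have h2 : 0 ≤ (y - 0) / cl := div_nonneg (by linarith only [h0]) hcl.le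
  have h3 : 0 ≤ (XM - y) / cr := div_nonneg (by linarith only [h1]) hcr.le
  refine ⟨(tr_mem _ _ _ _ _).1, (tr_mem _ _ _ _ _).2, ?_, ?_⟩
  · have h4 : tr 0 XM cl cr y ≤ (y - 0) / cl := by
      unfold tr
      exact max_le h2 ((min_le_right _ _).trans (min_le_left _ _))
    rw [le_div_iff₀ hcl] at h4
    linarith only [h4]
  · have h4 : tr 0 XM cl cr y ≤ (XM - y) / cr := by
      unfold tr
      exact max_le h3 ((min_le_right _ _).trans (min_le_right _ _))
    rw [le_div_iff₀ hcr] at h4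
    linarith only [h4]

/-- the ramp function of the hinge `h` is below its three lines -/
theorem trh_ub (h : Fin M) {y : ℝ} (h0 : 0 ≤ y) (h1 : y ≤ wXM b h) :
    0 ≤ trh b h y ∧ trh b h y ≤ 1 ∧ wcl b h * trh b h y ≤ y ∧ wcr b h * trh b h y ≤ wXM b h - y :=
  tr_ub (wcl_pos h) (wcr_pos h) h0 h1

theorem mhs_16 (s : Fin 3) (h2 : clsW b h.succ ≠ .three) : mhs b h s = 16 / 100 := by
  unfold mhs
  rw [if_neg (fun h3 => h2 h3.2), if_neg (fun h3 => h2 h3.2.1)]

theorem in_d2 {y β : ℝ} (h1 : β ≤ 16 / 10 * y) (h2 : β ≤ 16 / 29 * (8 / 10 - y))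
    (h3 : -β ≤ 25 / 10 * y) (h4 : -β ≤ 30 / 47 * (8 / 10 - y)) (h5 : -(3 / 10) ≤ β)
    (h6 : β ≤ 16 / 100) : KR.D2.In y β := by
  refine ⟨?_, ?_, ?_, ?_, ?_, ?_⟩ <;> simp only [KR.D2] <;> push_cast <;> linarith only [h1, h2, h3, h4, h5, h6]

theorem in_dl {y β : ℝ} (h1 : |β| ≤ 32 / 10 * y) (h2 : |β| ≤ 32 / 10 * (8 / 10 - y))
    (h3 : |β| ≤ 16 / 100) : KR.DL.In y β := by
  rw [abs_le] at h1 h2 h3
  refine ⟨?_, ?_, ?_, ?_, ?_, ?_⟩ <;> simp only [KR.DL] <;> push_cast <;> linarith only [h1, h2, h3]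

/-- a position is between two multiples of the ramp function -/
theorem NPos.two {X : ℂ} (h0 : NPos b zs nb p h' i s X) {Hu Hd : ℝ} (u0 : 0 ≤ Hu) (d0 : 0 ≤ Hd)
    (u1 : Th b zs h' i ≤ Hu) (d1 : -Hd ≤ Th b zs h' i)
    (h2 : ¬ RH1 b (.inl h') → mhs b h' s.rev ≤ Hu ∧ mhs b h' s ≤ Hd) :
    X.im ≤ Hu * trh b h' X.re ∧ -X.im ≤ Hd * trh b h' X.re := by
  have ht := trh_mem (b := b) h' X.re
  cases h0 with
  | main y y0 y1 hn e hp =>
    rw [e] at ht ⊢
    show Th b zs h' i * trh b h' y ≤ Hu * trh b h' y ∧ -(Th b zs h' i * trh b h' y) ≤ Hd * trh b h' y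
    have a1 := mul_le_mul_of_nonneg_right u1 ht.1
    have a2 := mul_le_mul_of_nonneg_right d1 ht.1
    constructor
    · exact a1
    · simp only at a1 a2
      linarith only [a2]
  | real y y0 y1 hn e hp =>
    rw [e] at ht ⊢
    show (0 : ℝ) ≤ Hu * trh b h' y ∧ -(0 : ℝ) ≤ Hd * trh b h' y
    rw [neg_zero]
    exact ⟨mul_nonneg u0 ht.1, mul_nonneg d0 ht.1⟩
  | up y y0 y1 hn hr hT e hp =>
    rw [e] at ht ⊢
    have h3 := mul_le_mul_of_nonneg_right (h2 hr).1 ht.1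
    have h4 := mul_nonneg (mhs_pos (b := b) h' s.rev).le ht.1
    have h5 := mul_nonneg d0 ht.1
    show mhs b h' s.rev * trh b h' y ≤ Hu * trh b h' y ∧ -(mhs b h' s.rev * trh b h' y) ≤ Hd * trh b h' y
    constructor
    · exact h3
    · simp only at h4 h5
      linarith only [h4, h5]
  | dn y y0 y1 hn hr hT e hp =>
    rw [e] at ht ⊢
    have h3 := mul_le_mul_of_nonneg_right (h2 hr).2 ht.1
    have h4 := mul_nonneg (mhs_pos (b := b) h' s).le ht.1
    have h5 := mul_nonneg u0 ht.1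
    show -(mhs b h' s * trh b h' y) ≤ Hu * trh b h' y ∧ -(-(mhs b h' s * trh b h' y)) ≤ Hd * trh b h' y
    constructor
    · simp only at h4 h5
      linarith only [h4, h5]
    · rw [neg_neg]
      exact h3

/-- **The other hinge of a region with two crossings.** -/
theorem NPos.d2 (hb : ClassW b) (hL : Loc b zs) (A' : Adj h' i s j') (hi : clsW b i = .two) {X : ℂ}
    (h0 : NPos b zs nb p h' i s X) : 0 ≤ X.re ∧ X.re ≤ 8 / 10 ∧ KR.D2.In X.re X.im := by
  have hT := Th_mem hb hL A' (by rw [hi]; decide)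
  have hre := h0.re
  have ht := trh_ub (b := b) h' hre.1 hre.2
  rw [hi] at hT
  have hmh : ¬ (s = 2 ∧ clsW b j' = .three) → mhs b h' s.rev ≤ 16 / 100 ∧ mhs b h' s ≤ 16 / 100 := by
    intro hn
    cases A' with
    | l =>
      have hj : clsW b h'.succ ≠ .three := fun hc => hn ⟨rfl, hc⟩
      rw [mhs_16 _ hj, mhs_16 _ hj]
      exact ⟨le_rfl, le_rfl⟩
    | r =>
      have hj : clsW b h'.succ ≠ .three := by rw [hi]; decide
      rw [mhs_16 _ hj, mhs_16 _ hj]
      exact ⟨le_rfl, le_rfl⟩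
  by_cases hc3 : s = 2 ∧ clsW b j' = .three
  · obtain ⟨rfl, hj⟩ := hc3
    rw [hj] at hT
    simp only [hbox] at hT
    cases A' with
    | l =>
      have e1 : mhs b h' (2 : Fin 3).rev ≤ 16 / 100 := by
        simp [mhs, hi]
      have e2 : mhs b h' 2 ≤ 3 / 10 := by
        simp [mhs, hi, hj]
      have h3 := h0.two (Hu := 16 / 100) (Hd := 3 / 10) (by norm_num) (by norm_num) (by linarith only [hT, hT.2])
        (by linarith only [hT, hT.1]) fun _ => ⟨e1, e2⟩
      unfold wXM wcl wcr at ht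
      unfold wXM at hre
      rw [hi, hj] at ht hre
      simp only [hp] at ht hre
      refine ⟨hre.1, by linarith only [hre, hre.2], in_d2 ?_ ?_ ?_ ?_ ?_ ?_⟩ <;>
        linarith only [hre, ht, h3, ht.1, ht.2.1, ht.2.2.1, ht.2.2.2, h3.1, h3.2, hre.1, hre.2]
  · have hH : |Th b zs h' i| ≤ 16 / 100 := by
      rw [abs_le]
      rcases hj : clsW b j' <;> rw [hj] at hT <;> simp only [hbox] at hT <;>
        constructor <;> linarith only [hT, hT.1, hT.2]
    rw [abs_le] at hH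
    have h3 := h0.two (Hu := 16 / 100) (Hd := 16 / 100) (by norm_num) (by norm_num) hH.2 hH.1
      fun _ => hmh hc3
    unfold wXM wcl wcr at ht
    unfold wXM at hre
    cases A' with
    | l =>
      rw [hi] at ht hre
      have hj3 : clsW b h'.succ ≠ .three := fun hj => hc3 ⟨rfl, hj⟩
      rcases hj : clsW b h'.succ <;> rw [hj] at ht hre hj3
      case three => exact absurd rfl hj3
      all_goals
        simp only [hp, hp1] at ht hre
        refine ⟨hre.1, by linarith only [hre, hre.2], in_d2 ?_ ?_ ?_ ?_ ?_ ?_⟩ <;>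
          linarith only [hre, ht, h3, ht.1, ht.2.1, ht.2.2.1, ht.2.2.2, h3.1, h3.2, hre.1, hre.2]
    | r =>
      rw [hi] at ht hre
      rcases hj : clsW b h'.castSucc <;> rw [hj] at ht hre
      all_goals
        simp only [hp, hp1] at ht hre
        refine ⟨hre.1, by linarith only [hre, hre.2], in_d2 ?_ ?_ ?_ ?_ ?_ ?_⟩ <;>
          linarith only [hre, ht, h3, ht.1, ht.2.1, ht.2.2.1, ht.2.2.2, h3.1, h3.2, hre.1, hre.2]

/-- height of the saddle point at the inner variable of an interior region -/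
theorem Tm_mem (hb : ClassW b) (hL : Loc b zs) (m : {i : Fin (M + 1) // (tyW b i).isMid = true})
    (hc : clsW b m.1 = .three) : -(160 / 1000) ≤ Tm b zs m ∧ Tm b zs m ≤ 15 / 1000 := by
  have he := clsW_inner hb (Or.inr (Or.inr hc))
  have h0 : m.1 ≠ 0 := by
    intro h1
    unfold isEnd at he
    exact of_decide_eq_false he (Or.inl h1)
  obtain ⟨k, hk⟩ := Fin.exists_succ_eq.2 h0
  have h1 := hL.mid m he k hk
  obtain ⟨-, -, h3, h4⟩ := h1
  rw [ofr_im] at h3 h4
  simp only [mbox] at h3 h4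
  exact ⟨h3, h4⟩

/-- **The inner variable of an interior region with three crossings.** -/
theorem IPos.dl (hb : ClassW b) (hL : Loc b zs)
    (m : {i : Fin (M + 1) // (tyW b i).isMid = true}) (hc : clsW b m.1 = .three) {X : ℂ}
    (h0 : IPos b zs p m X) : 0 ≤ X.re ∧ X.re ≤ 8 / 10 ∧ KR.DL.In X.re X.im := by
  have hT := Tm_mem hb hL m hc
  have key : ∀ y β : ℝ, 0 ≤ y → y ≤ (mp (clsW b m.1)).XM → |β| ≤ 16 / 100 * trm b m y →
      0 ≤ y ∧ y ≤ 8 / 10 ∧ KR.DL.In y β := by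
    intro y β y0 y1 hβ
    unfold trm at hβ
    rw [hc] at y1 hβ
    simp only [mp] at y1 hβ
    have ht := tr_ub (XM := 8 / 10) (cl := 5 / 100) (cr := 5 / 100) (by norm_num) (by norm_num) y0 y1
    refine ⟨y0, y1, in_dl ?_ ?_ ?_⟩ <;> linarith only [hβ, ht, ht.1, ht.2.1, ht.2.2.1, ht.2.2.2]
  have htm : ∀ y : ℝ, 0 ≤ trm b m y := fun y => (tr_mem _ _ _ _ _).1
  cases h0 with
  | main y y0 y1 e hp =>
    rw [e]
    refine key y _ y0 y1 ?_
    rw [abs_mul, abs_of_nonneg (htm y)]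
    exact mul_le_mul_of_nonneg_right (abs_le.2 ⟨by linarith only [hT], by linarith only [hT]⟩) (htm y)
  | up y y0 y1 hT e hp =>
    rw [e]
    refine key y _ y0 y1 ?_
    rw [abs_of_nonneg (mul_nonneg (by norm_num) (htm y))]
  | dn y y0 y1 hT e hp =>
    rw [e]
    refine key y _ y0 y1 ?_
    rw [abs_neg, abs_of_nonneg (mul_nonneg (by norm_num) (htm y))]

end SR

end Pool.Agent.Work.MP_b30479_gt.G2
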