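import Pool.Agent.Work.MP_b30479_gt.G2.WMRL
import Pool.Agent.Work.MP_b30479_gt.G2.WMR3
import Pool.Agent.Work.MP_b30479_gt.G2.WMRK
import Pool.Agent.Work.MP_b30479_gt.G2.WMMF
import Pool.Agent.Work.MP_b30479_gt.G2.WRnd

/-!
# Mirrored paths: the inner variable of a `3` next to a mode at its slot `2`; modes from above at
the hinges of a `2`
-/

namespace Pool.Agent.Work.MP_b30479_gt.G2

open Finset VOL Filter Topology

namespace SR

variable {M : ℕ} {b : Fin (M + 1) → ℤ} {zs : DD (tyW b) ⊕ ZZ (tyW b) → ℂ}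
variable {R : Finset (DD (tyW b))} {nb : Finset (DD (tyW b) ⊕ ZZ (tyW b))}
variable {z : DD (tyW b) ⊕ ZZ (tyW b) → ℂ} {p : DD (tyW b) → ℝ}
variable {h h' : Fin M} {i j j' : Fin (M + 1)} {s : Fin 3} {x c : ℝ}

theorem le_tr {XM cl cr q g : ℝ} (hcl : 0 < cl) (hcr : 0 < cr) (h1 : g ≤ 1) (h2 : cl * g ≤ q)
    (h3 : cr * g ≤ XM - q) : g ≤ tr 0 XM cl cr q := by
  unfold tr
  refine le_max_of_le_right (le_min h1 (le_min ?_ ?_))
  · rw [le_div_iff₀ hcl]
    linarith only [h2]
  · rw [le_div_iff₀ hcr]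
    linarith only [h3]

/-- a position is between two multiples of the ramp function; heights of modes only where they
occur -/
theorem NPos.two' {X : ℂ} (h0 : NPos b zs nb p h' i s X) {Hu Hd : ℝ} (u0 : 0 ≤ Hu) (d0 : 0 ≤ Hd)
    (u1 : Th b zs h' i ≤ Hu) (d1 : -Hd ≤ Th b zs h' i)
    (h2 : ¬ RH1 b (.inl h') → Th b zs h' i ≤ 0 → mhs b h' s.rev ≤ Hu)
    (h3 : ¬ RH1 b (.inl h') → 0 ≤ Th b zs h' i → mhs b h' s ≤ Hd) :
    X.im ≤ Hu * trh b h' X.re ∧ -X.im ≤ Hd * trh b h' X.re := by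
  have ht := trh_mem (b := b) h' X.re
  cases h0 with
  | main y y0 y1 hn e hp =>
    rw [e] at ht ⊢
    show Th b zs h' i * trh b h' y ≤ Hu * trh b h' y ∧ -(Th b zs h' i * trh b h' y) ≤ Hd * trh b h' y
    have a1 := mul_le_mul_of_nonneg_right u1 ht.1
    have a2 := mul_le_mul_of_nonneg_right d1 ht.1
    constructor
    · exact a1
    · simp only at a1 a2
      linarith only [a2]
  | real y y0 y1 hn e hp =>
    rw [e] at ht ⊢
    show (0 : ℝ) ≤ Hu * trh b h' y ∧ -(0 : ℝ) ≤ Hd * trh b h' y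
    rw [neg_zero]
    exact ⟨mul_nonneg u0 ht.1, mul_nonneg d0 ht.1⟩
  | up y y0 y1 hn hr hT e hp =>
    rw [e] at ht ⊢
    have h3 := mul_le_mul_of_nonneg_right (h2 hr hT) ht.1
    have h4 := mul_nonneg (mhs_pos (b := b) h' s.rev).le ht.1
    have h5 := mul_nonneg d0 ht.1
    show mhs b h' s.rev * trh b h' y ≤ Hu * trh b h' y ∧ -(mhs b h' s.rev * trh b h' y) ≤ Hd * trh b h' y
    constructor
    · exact h3
    · simp only at h4 h5
      linarith only [h4, h5]
  | dn y y0 y1 hn hr hT e hp =>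
    rw [e] at ht ⊢
    have h3 := mul_le_mul_of_nonneg_right (h3 hr hT) ht.1
    have h4 := mul_nonneg (mhs_pos (b := b) h' s).le ht.1
    have h5 := mul_nonneg u0 ht.1
    show -(mhs b h' s * trh b h' y) ≤ Hu * trh b h' y ∧ -(-(mhs b h' s * trh b h' y)) ≤ Hd * trh b h' y
    constructor
    · simp only at h4 h5
      linarith only [h4, h5]
    · rw [neg_neg]
      exact h3

/-- **The hinge in the slot `0` of an interior region with three crossings.** -/
theorem NPos.u3 (hb : ClassW b) (hL : Loc b zs) (A' : Adj h' i 0 j') (hi : clsW b i = .three) {X : ℂ}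
    (h0 : NPos b zs nb p h' i 0 X) : KR.U3 X.re X.im := by
  have hT := Th_mem hb hL A' (by rw [hi]; decide)
  have hre := h0.re
  have ht := trh_ub (b := b) h' hre.1 hre.2
  rw [hi] at hT
  have hm : ∀ q : Fin 3, mhs b h' q = if clsW b h'.castSucc = .one then 1 / 2 else
      if clsW b h'.castSucc = .two ∧ q = 2 then 3 / 10 else 16 / 100 := by
    intro q
    cases A'
    simp [mhs, hi]
  have key : ∀ {Hu Hd : ℝ}, 0 ≤ Hu → 0 ≤ Hd → Th b zs h' i ≤ Hu → -Hd ≤ Th b zs h' i →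
      (Th b zs h' i ≤ 0 → mhs b h' 2 ≤ Hu) → (0 ≤ Th b zs h' i → mhs b h' 0 ≤ Hd) →
      X.im ≤ Hu * trh b h' X.re ∧ -X.im ≤ Hd * trh b h' X.re := by
    intro Hu Hd u0 d0 u1 d1 h2 h3
    exact h0.two' u0 d0 u1 d1 (fun _ => h2) (fun _ => h3)
  have fin : ∀ {XM cl cr Hu Hd : ℝ}, wXM b h' = XM → wcl b h' = cl → wcr b h' = cr →
      X.im ≤ Hu * trh b h' X.re ∧ -X.im ≤ Hd * trh b h' X.re → XM ≤ 65 / 100 →
      (∀ t : ℝ, 0 ≤ t → t ≤ 1 → cl * t ≤ X.re → cr * t ≤ XM - X.re →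
        (2 * (Hu * t) ≤ 1 ∧ 13 / 100 * (2 * (Hu * t)) ≤ X.re ∧
          15 / 100 * (2 * (Hu * t)) ≤ 65 / 100 - X.re) ∧
        Hd * t ≤ 4 / 3 * X.re ∧ Hd * t ≤ 16 / 100 ∧
          Hd * t ≤ 16 / 100 - 45 / 170 * (X.re - 33 / 100) ∧
          Hd * t ≤ 115 / 150 * (65 / 100 - X.re)) → KR.U3 X.re X.im := by
    intro XM cl cr Hu Hd e1 e2 e3 hX h4 hk
    rw [e1, e2, e3] at ht
    rw [e1] at hre
    obtain ⟨⟨a1, a2, a3⟩, b1, b2, b3, b4⟩ := hk _ ht.1 ht.2.1 ht.2.2.1 ht.2.2.2
    have h5 : 2 * (Hu * trh b h' X.re) ≤ tr 0 (65 / 100) (13 / 100) (15 / 100) X.re :=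
      le_tr (by norm_num) (by norm_num) a1 a2 a3
    refine ⟨hre.1, by linarith only [hre, h4, hre.2], by linarith only [hX, h5, hX.1], by linarith only [hX, b1, hX.2], by linarith only [hX, b2, hX.2],
      by linarith only [hX, b3, hX.2], by linarith only [hX, b4, hX.2]⟩
  have hre' := hre
  cases A' with
  | r =>
    rcases hj : clsW b h'.castSucc <;> rw [hj] at hT hm <;> simp only [hbox] at hT
    case one =>
      refine fin (XM := 65 / 100) (cl := 13 / 100) (cr := 15 / 100) (Hu := 1 / 2) (Hd := 1145 / 10000)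
        ?_ ?_ ?_ (key (by norm_num) (by norm_num) (by linarith only [hT, hT.2]) (by linarith only [hT, hT.1])
          (fun _ => by rw [hm]; simp) (fun h4 => by linarith only [hT, h4, hT.2])) (by norm_num) ?_
      · unfold wXM; rw [hi, hj]; rfl
      · unfold wcl; rw [hi, hj]; rfl
      · unfold wcr; rw [hi, hj]; rfl
      · intro t t0 t1 t2 t3
        refine ⟨⟨?_, ?_, ?_⟩, ?_, ?_, ?_, ?_⟩ <;> linarith only [t1, t2, t3, hre, t0]
    case two =>
      refine fin (XM := 60 / 100) (cl := 12 / 100) (cr := 27 / 100) (Hu := 3 / 10) (Hd := 16 / 100)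
        ?_ ?_ ?_ (key (by norm_num) (by norm_num) (by linarith only [hT, hT.2]) (by linarith only [hT, hT.1])
          (fun _ => by rw [hm]; simp) (fun h4 => by rw [hm]; simp)) (by norm_num) ?_
      · unfold wXM; rw [hi, hj]; rfl
      · unfold wcl; rw [hi, hj]; rfl
      · unfold wcr; rw [hi, hj]; rfl
      · intro t t0 t1 t2 t3
        refine ⟨⟨?_, ?_, ?_⟩, ?_, ?_, ?_, ?_⟩ <;> linarith only [t1, hre, t2, t0, t3]
    case three =>
      refine fin (XM := 60 / 100) (cl := 13 / 100) (cr := 30 / 100) (Hu := 16 / 100) (Hd := 16 / 100)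
        ?_ ?_ ?_ (key (by norm_num) (by norm_num) (by linarith only [hT, hT.2]) (by linarith only [hT, hT.1])
          (fun _ => by rw [hm]; simp) (fun h4 => by rw [hm]; simp)) (by norm_num) ?_
      · unfold wXM; rw [hi, hj]; rfl
      · unfold wcl; rw [hi, hj]; rfl
      · unfold wcr; rw [hi, hj]; rfl
      · intro t t0 t1 t2 t3
        refine ⟨⟨?_, ?_, ?_⟩, ?_, ?_, ?_, ?_⟩ <;> linarith only [t1, hre, t2, t0, t3]
    all_goals
      refine fin (XM := 60 / 100) (cl := 12 / 100) (cr := 30 / 100) (Hu := 16 / 100) (Hd := 16 / 100)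
        ?_ ?_ ?_ (key (by norm_num) (by norm_num) (by linarith only [hT, hT.2]) (by linarith only [hT, hT.1])
          (fun _ => by rw [hm]; simp) (fun h4 => by rw [hm]; simp)) (by norm_num) ?_
      · unfold wXM; rw [hi, hj]; rfl
      · unfold wcl; rw [hi, hj]; rfl
      · unfold wcr; rw [hi, hj]; rfl
      · intro t t0 t1 t2 t3
        refine ⟨⟨?_, ?_, ?_⟩, ?_, ?_, ?_, ?_⟩ <;> linarith only [t1, hre, t2, t0, t3]

/-- the inner variable is on no upper mode for `y` in the excluded range -/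
theorem inner_up (hb : ClassW b) (hL : Loc b zs) (hN : NbT b R nb) (hM : MM b zs R nb z p)
    (hq : ∀ h : Fin M, RH1 b (.inl h) → p (.inl h) = 0)
    (m : {i : Fin (M + 1) // (tyW b i).isMid = true}) (hc : clsW b m.1 = .three)
    (A2 : Adj h m.1 2 j) (hn : Sum.inl (Sum.inl h) ∉ nb)
    (hX : wXM b h = 60 / 100 ∧ wcl b h = 13 / 100 ∧ wcr b h = 30 / 100) (x0 : 0 ≤ x)
    (x1 : x ≤ 60 / 100) (ho : Ow b z m.1 2 = ⟨x, 16 / 100 * trh b h x⟩) {y : ℝ}
    (hT : Tm b zs m ≤ 0) (hl : Ow b z m.1 1 = ⟨y, 16 / 100 * trm b m y⟩)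
    (hp : p (.inr m) = 16 / 100 * trm b m y) :
    ¬ (40 / 100 ≤ y ∧ y ≤ 77 / 100) ∧ (57 / 100 ≤ x → ¬ (77 / 100 ≤ y ∧ y ≤ 79 / 100)) := by
  obtain ⟨h0, j0, A0⟩ := A2.other' b (clsW_inner hb (Or.inr (Or.inr hc)))
  have A0' : Adj h0 m.1 0 j0 := A0
  have hU := (hM.npos hb hN hq A2 hn A0).u3 hb hL A0' hc
  have hnm := hN.inner_nnA m A2 hn
  have hTm := Tm_mem hb hL m hc
  have hb1 : 16 / 100 * trh b h x = KR.bR x := by
    rw [trh_eq hX]
    rfl
  have ha1 : 16 / 100 * trm b m y = KR.aR y := by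
    unfold trm
    rw [hc]
    rfl
  have step : ∀ {mr : ℝ}, 5 / 100 ≤ mr → mr ≤ 75 / 100 →
      0 < KR.PUr (Ow b z m.1 0).re (Ow b z m.1 0).im mr (Tm b zs m) y (KR.aR y) +
        KR.PWr mr (Tm b zs m) x (KR.bR x) y (KR.aR y) → False := by
    intro mr m0 m1 hg
    have h1 := hM.inner3 hb hN.ok.1 m A0' A2 hc hnm (c' := mr) (by linarith only [m0]) (by linarith only [m1])
      (FarG.keep (b := b) (zs := zs) (nb := nb) (z := z) (p := p) h j)
    rw [ofr_z A2] at h1
    have e1 : tgi b zs m mr = ⟨mr, Tm b zs m⟩ := by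
      unfold tgi
      rw [hc]
      simp only [mp]
      rw [tr_b (b := 8 / 10) (c := 5 / 100) (c' := 5 / 100) (by norm_num) (by norm_num) m0
        (by linarith only [m1]), mul_one]
      rfl
    rw [e1, hp, hl, ho, ha1, hb1] at h1
    have h2 := KR.V3_inner (Ow b z m.1 0).re (Ow b z m.1 0).im mr (Tm b zs m) x (KR.bR x) y (KR.aR y)
    have e2 : (⟨(Ow b z m.1 0).re, (Ow b z m.1 0).im⟩ : ℂ) = Ow b z m.1 0 := rfl
    rw [e2] at h2
    linarith only [hg, h1, h2]
  have tt : -(160 / 1000) ≤ Tm b zs m := hTm.1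
  constructor
  · rintro ⟨c1, c2⟩
    rcases le_total y (70 / 100) with c3 | c3
    · exact step (by norm_num) (by norm_num) (KR.lx_a (by push_cast; linarith only [c1]) (by push_cast; linarith only [c3])
        tt hT hU (by push_cast; linarith only [x0]) x1)
    rcases le_total y (75 / 100) with c4 | c4
    · exact step (by norm_num) (by norm_num) (KR.lx_b (by push_cast; linarith only [c3]) (by push_cast; linarith only [c4])
        tt hT hU (by push_cast; linarith only [x0]) x1)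
    · exact step (by norm_num) (by norm_num) (KR.lx_c (by push_cast; linarith only [c4]) (by push_cast; linarith only [c2])
        tt hT hU (by push_cast; linarith only [x0]) x1)
  · rintro c0 ⟨c1, c2⟩
    exact step (by norm_num) (by norm_num) (KR.lx_d (by push_cast; linarith only [c1]) (by push_cast; linarith only [c2])
      tt hT hU (by push_cast; linarith only [c0]) x1)

theorem in_dm {y β : ℝ} (h1 : |β| ≤ 32 / 10 * y) (h2 : |β| ≤ 32 / 10 * (8 / 10 - y))
    (h3 : |β| ≤ 16 / 100) (h4 : β ≤ 15 / 1000) : KR.DM.In y β := by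
  rw [abs_le] at h1 h2 h3
  refine ⟨?_, ?_, ?_, ?_, ?_, ?_⟩ <;> simp only [KR.DM] <;> push_cast <;> linarith only [h1, h2, h3, h4]

/-- **The inner variable of an interior region with three crossings**, next to a mode from above at
its slot `2`. -/
theorem ipos_inL (hb : ClassW b) (hL : Loc b zs) (hN : NbT b R nb) (hM : MM b zs R nb z p)
    (hq : ∀ h : Fin M, RH1 b (.inl h) → p (.inl h) = 0)
    (m : {i : Fin (M + 1) // (tyW b i).isMid = true}) (hc : clsW b m.1 = .three)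
    (A2 : Adj h m.1 2 j) (hn : Sum.inl (Sum.inl h) ∉ nb)
    (hX : wXM b h = 60 / 100 ∧ wcl b h = 13 / 100 ∧ wcr b h = 30 / 100) (x0 : 0 ≤ x)
    (x1 : x ≤ 60 / 100) (ho : Ow b z m.1 2 = ⟨x, 16 / 100 * trh b h x⟩) :
    KR.InL 77 (Ow b z m.1 1).re (Ow b z m.1 1).im ∧
      (57 / 100 ≤ x → KR.InL 79 (Ow b z m.1 1).re (Ow b z m.1 1).im) := by
  have hI := (hM.ipos hN m A2 hn).2
  obtain ⟨y0, y1, hd⟩ := hI.dl hb hL m hc
  have hT := Tm_mem hb hL m hc
  have hin : ∀ (k : ℤ), 40 ≤ k → ((Ow b z m.1 1).im ≤ 15 / 1000 ∨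
      ¬ (40 / 100 ≤ (Ow b z m.1 1).re ∧ (Ow b z m.1 1).re ≤ (k : ℝ) / 100)) →
      KR.InL k (Ow b z m.1 1).re (Ow b z m.1 1).im := by
    intro k hk h1
    have h40 : ((40 : ℤ) : ℝ) / 100 = 40 / 100 := by norm_num
    rcases le_total (Ow b z m.1 1).re (40 / 100) with c1 | c1
    · exact Or.inl ⟨by rw [h40]; exact c1, hd⟩
    rcases le_total (Ow b z m.1 1).re ((k : ℝ) / 100) with c2 | c2
    · rcases h1 with h1 | h1
      · refine Or.inr (Or.inl ⟨by rw [h40]; exact c1, c2, ?_⟩)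
        obtain ⟨g1, g2, g3, g4, g5, g6⟩ := hd
        refine ⟨g1, g2, g3, g4, g5, ?_⟩
        simp only [KR.DM]
        push_cast
        linarith only [h1]
      · exact absurd ⟨c1, c2⟩ h1
    · exact Or.inr (Or.inr ⟨c2, hd⟩)
  have htm : ∀ y : ℝ, 0 ≤ trm b m y ∧ trm b m y ≤ 1 := fun y => tr_mem _ _ _ _ _
  have hcase : (Ow b z m.1 1).im ≤ 15 / 1000 ∨
      (¬ (40 / 100 ≤ (Ow b z m.1 1).re ∧ (Ow b z m.1 1).re ≤ 77 / 100) ∧
        (57 / 100 ≤ x → ¬ (77 / 100 ≤ (Ow b z m.1 1).re ∧ (Ow b z m.1 1).re ≤ 79 / 100))) := by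
    generalize hl : Ow b z m.1 1 = X at hI
    cases hI with
    | main y y0 y1 e hp =>
      left
      rw [e]
      show Tm b zs m * trm b m y ≤ 15 / 1000
      have := mul_le_mul_of_nonneg_right hT.2 (htm y).1
      linarith only [this, htm, (htm y).2]
    | dn y y0 y1 hT0 e hp =>
      left
      rw [e]
      show -(16 / 100 * trm b m y) ≤ 15 / 1000
      linarith only [htm, (htm y).1]
    | up y y0 y1 hT0 e hp =>
      right
      rw [e] at hl ⊢
      exact inner_up hb hL hN hM hq m hc A2 hn hX x0 x1 ho hT0 hl hp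
  refine ⟨hin 77 (by norm_num) ?_, fun hx => hin 79 (by norm_num) ?_⟩
  · rcases hcase with h1 | h1
    · exact Or.inl h1
    · right
      push_cast
      exact h1.1
  · rcases hcase with h1 | h1
    · exact Or.inl h1
    · right
      rintro ⟨a1, a2⟩
      push_cast at a2
      rcases le_total (Ow b z m.1 1).re (77 / 100) with c1 | c1
      · exact h1.1 ⟨a1, c1⟩
      · exact h1.2 hx ⟨c1, a2⟩

/-! ### no modes from above -/

/-- a hinge which is on no mode from above is not above the main path -/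
theorem NPos.noup (hb : ClassW b) (A' : Adj h' i s j') (hi : clsW b i ≠ .ring)
    (hj : clsW b j' ≠ .ring) (h0 : NPos b zs nb p h' i s (Ow b z i s))
    (K : ∀ x, ¬ Md b zs nb z p h' j' s.rev i x) :
    (Ow b z i s).im ≤ max (Th b zs h' i) 0 * trh b h' (Ow b z i s).re := by
  have hm : 0 ≤ max (Th b zs h' i) 0 := le_max_right _ _
  generalize hX : Ow b z i s = X at h0
  have ht := trh_mem (b := b) h' X.re
  cases h0 with
  | main y y0 y1 hn e hp =>
    rw [e] at ht ⊢
    exact mul_le_mul_of_nonneg_right (le_max_left _ _) ht.1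
  | real y y0 y1 hn e hp =>
    rw [e] at ht ⊢
    exact mul_nonneg hm ht.1
  | dn y y0 y1 hn hr hT e hp =>
    rw [e] at ht ⊢
    have h4 := mul_nonneg (mhs_pos (b := b) h' s).le ht.1
    have h5 := mul_nonneg hm ht.1
    show -(mhs b h' s * trh b h' y) ≤ max (Th b zs h' i) 0 * trh b h' y
    simp only at h4 h5
    linarith only [h4, h5]
  | up y y0 y1 hn hr hT e hp =>
    rcases eq_or_lt_of_le ht.1 with c | c
    · rw [e] at c ⊢
      show mhs b h' s.rev * trh b h' y ≤ max (Th b zs h' i) 0 * trh b h' y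
      simp only at c
      rw [← c, mul_zero, mul_zero]
    · exfalso
      rw [e] at c
      simp only at c
      have hs := sign_adj hb A' hi
      have hT' : Th b zs h' j' = -Th b zs h' i := ofs_neg_of_opp hs _
      refine K y ⟨A'.symm, hj, hi, hn, ?_, ?_, by rw [hT']; linarith only [hT], by rw [hT']; ring, ?_, ?_, hp, c⟩
      · by_contra hc
        rw [trh_zero_of (Or.inl (not_lt.1 hc))] at c
        exact absurd c (lt_irrefl 0)
      · by_contra hc
        rw [trh_zero_of (Or.inr (not_lt.1 hc))] at c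
        exact absurd c (lt_irrefl 0)
      · rw [Ow_adj z A'.symm]
        rw [Ow_adj z A'] at hX
        have e1 := congrArg Complex.re (hX.trans e)
        have e2 := congrArg Complex.im (hX.trans e)
        rw [ofr_re] at e1
        rw [ofr_im] at e2
        apply Complex.ext
        · rw [ofr_re]
          exact e1
        · rw [ofr_im, ofs_neg_of_opp hs, e2]
      · rw [Fin.rev_rev, hX, e]

end SR

end Pool.Agent.Work.MP_b30479_gt.G2
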