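import Pool.Agent.Work.MP_b30479_gt.G2.WMGx

/-!
# Mirrored paths: hinge in the slot `0` of an interior `3` on the lower side, definitions

Rows `aE` (gain of the `3`, target `cc`, plus a piecewise linear function `ph`), `bE` (gain of the
other region plus the penalty minus `ph`), `fE`, `gE` (derivatives in the height, for the move onto
the main path at the same real part).
-/

namespace Pool.Agent.Work.MP_b30479_gt.G2

namespace KS

open NumG KE

/-- a target with a function `ph` -/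
structure Qr where
  cc : ℤ
  y0 : ℤ
  l : List (ℤ × ℤ × ℕ)
  k : ℤ

/-- a mirrored path, thousandths -/
structure Pt where
  X : ℕ
  cl : ℕ
  cr : ℕ

def P2 : Pt := ⟨600, 120, 270⟩
def P3 : Pt := ⟨600, 130, 300⟩

def Pt.ok (P : Pt) : Prop := 0 < P.cl ∧ 0 < P.cr ∧ P.cl + P.cr ≤ P.X

theorem P2_ok : P2.ok := ⟨by decide, by decide, by decide⟩
theorem P3_ok : P3.ok := ⟨by decide, by decide, by decide⟩

/-! ### expressions -/

def dS0 (x' t' x t y k : E) : E :=
  .sub (.add (.sub (.uw (.sub y x) (.sub k t)) (.uw (.sub y x') (.sub k t')))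
    (.sub (.uw x t) (.uw x' t')))
    (.mul .pi (.add (.mul (.sub x' x) k) (.mul y (.sub t' t))))
/-- height of the mirrored path -/
def hh (P : Pt) : E := .mul (E.c 1600) (E.tr P.X P.cl P.cr (.var 0))
/-- height of the target -/
def tt (P : Pt) (cc : ℤ) : E := .mul (.var 3) (E.tr P.X P.cl P.cr (E.c cc))
def pn (P : Pt) : E := .mul .pi (.mul (.q 2 1) (hh P))
def ph (q : Qr) : E := .add (E.pl (.var 0) q.y0 q.l) (.mul (E.c q.k) (.var 3))
def aE (P : Pt) (q : Qr) : E :=
  .add (dS0 (E.c q.cc) (tt P q.cc) (.var 0) (.neg (hh P)) (.var 1) ll) (ph q)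
def bE (P : Pt) (Y : E) (q : Qr) : E :=
  .sub (.add (E.dV2 (E.c q.cc) (.neg (tt P q.cc)) (.var 0) (hh P) (.var 1) Y) (pn P)) (ph q)
/-- derivative in the height `var 3`, slot `0` -/
def fE (n : ℤ) : E :=
  .add (.sub (.sub (.yw (.sub (.var 1) (.var 0)) (.sub ll (.var 3))) (.yw (.var 0) (.var 3)))
    (.mul .pi (.var 1))) (E.c n)
def fE' (n : ℤ) : E :=
  .add (.neg (.add (.add (.yw (.sub (.var 0) (.var 1)) (.sub ll (.var 3))) (.yw (.var 0) (.var 3)))
    (.mul .pi (.add (.q 1 1) (.var 1))))) (E.c n)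
/-- minus the derivative in the height, `V2` -/
def gE (Y : E) (n : ℤ) : E :=
  .add (.add (.sub (.mul (.q 2 1) (.yw (.var 0) (.var 3)))
    (.yw (.add (.var 0) (.var 1)) (.add (.var 3) Y)))
    (.mul .pi (.add (.sub (.var 0) (.var 1)) (.q 1 2)))) (E.c n)
def exN (K : ℤ) : E := .sub (E.c (-K)) ll
def exP (K : ℤ) : E := .sub ll (E.c K)

end KS

end Pool.Agent.Work.MP_b30479_gt.G2
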