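import Pool.Agent.Work.MP_b30479_gt.G2.WMGd
import Pool.Agent.Work.MP_b30479_gt.G2.WMSd

/-!
# Mirrored paths: hinge in the slot `0` of an interior `3` on the lower side

Values of the rows; moves at the same real part.
-/

namespace Pool.Agent.Work.MP_b30479_gt.G2

open Finset VOL Filter Topology

namespace KS

open NumG KE

/-- ramp function -/
noncomputable def Pt.tq (P : Pt) (x : ℝ) : ℝ :=
  tr 0 ((P.X : ℝ) / 1000) ((P.cl : ℝ) / 1000) ((P.cr : ℝ) / 1000) x

/-! ### values -/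

variable {P : Pt} {q : Qr} {x y z w n : ℝ}

theorem dS0_val {x' t' x t y k : E} {xs : List ℝ} : (dS0 x' t' x t y k).val xs =
    VA ⟨x'.val xs, t'.val xs⟩ ⟨y.val xs, k.val xs⟩ -
      VA ⟨x.val xs, t.val xs⟩ ⟨y.val xs, k.val xs⟩ := by
  unfold VA
  simp only [dS0, E.val, NumU.UU_uu, Complex.sub_im, Complex.sub_re, Complex.mul_im]
  ring

theorem tr_val' (h : P.ok) (e : E) (xs : List ℝ) :
    (E.tr P.X P.cl P.cr e).val xs = P.tq (e.val xs) := by
  rw [E.tr_val h.1 h.2.1 (by exact_mod_cast h.2.2)]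
  unfold Pt.tq
  rw [Int.cast_natCast]

theorem hh_val (h : P.ok) : (hh P).val [x, y, z, w] = 16 / 100 * P.tq x := by
  unfold hh
  rw [E.val, tr_val' h]
  simp only [E.c, E.val, v0]
  norm_num

theorem tt_val (h : P.ok) {cc : ℤ} : (tt P cc).val [x, y, z, w] = w * P.tq ((cc : ℝ) / 10000) := by
  unfold tt
  rw [E.val, tr_val' h]
  simp only [E.c, E.val, v3]
  norm_num

theorem pn_val (h : P.ok) : (pn P).val [x, y, z, w] = 2 * Real.pi * (16 / 100 * P.tq x) := by
  show Real.pi * ((E.q 2 1).val [x, y, z, w] * (hh P).val [x, y, z, w]) = _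
  rw [hh_val h]
  simp only [E.val]
  push_cast
  ring

/-- value of `ph` -/
noncomputable def Qr.f (q : Qr) (x T : ℝ) : ℝ := plR x q.y0 q.l + (q.k : ℝ) / 10000 * T

theorem ph_val : (ph q).val [x, y, z, w] = q.f x w := by
  unfold ph Qr.f
  simp only [E.val, E.pl_val, E.c, v0, v3]
  norm_num

/-- gain in the slot `0`, lower side -/
noncomputable def gA (P : Pt) (c T x : ℝ) (l : ℂ) : ℝ :=
  VA ⟨c, T * P.tq c⟩ l - VA ⟨x, -(16 / 100 * P.tq x)⟩ l
/-- gain, upper side, plus the penalty -/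
noncomputable def gB (P : Pt) (c T x : ℝ) (k : ℂ) : ℝ :=
  V2 ⟨c, -(T * P.tq c)⟩ k - V2 ⟨x, 16 / 100 * P.tq x⟩ k + 2 * Real.pi * (16 / 100 * P.tq x)

theorem aE_val (h : P.ok) : (aE P q).val [x, y, z, w] =
    gA P ((q.cc : ℝ) / 10000) w x ⟨y, ll.val [x, y, z, w]⟩ + q.f x w := by
  have e1 : (E.neg (hh P)).val [x, y, z, w] = -(16 / 100 * P.tq x) := by
    show -((hh P).val [x, y, z, w]) = _
    rw [hh_val h]
  unfold aE gA
  rw [E.val, dS0_val, ph_val, tt_val h, e1]
  simp only [E.c, E.val, v0, v1]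
  norm_num

theorem bE_val (h : P.ok) {Y : E} : (bE P Y q).val [x, y, z, w] =
    gB P ((q.cc : ℝ) / 10000) w x ⟨y, Y.val [x, y, z, w]⟩ - q.f x w := by
  have e1 : (E.neg (tt P q.cc)).val [x, y, z, w] = -(w * P.tq ((q.cc : ℝ) / 10000)) := by
    show -((tt P q.cc).val [x, y, z, w]) = _
    rw [tt_val h]
  unfold bE gB
  rw [E.val, E.val, E.dV2_val, ph_val, e1, hh_val h, pn_val h]
  simp only [E.c, E.val, v0, v1]
  norm_num

/-- the hinge can be moved -/
def Win (P : Pt) (T x : ℝ) (l k : ℂ) : Prop :=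
  ∃ c, 0 ≤ c ∧ c ≤ (P.X : ℝ) / 1000 ∧ 0 < gA P c T x l + gB P c T x k

theorem Win.of (h0 : 0 ≤ q.cc) (h1 : q.cc ≤ 10 * P.X) {l k : ℂ} {T : ℝ}
    (a : 0 < gA P ((q.cc : ℝ) / 10000) T x l + q.f x T)
    (b : 0 < gB P ((q.cc : ℝ) / 10000) T x k - q.f x T) : Win P T x l k := by
  have h0' : (0 : ℝ) ≤ q.cc := by exact_mod_cast h0
  have h1' : (q.cc : ℝ) ≤ 10 * P.X := by exact_mod_cast h1
  exact ⟨(q.cc : ℝ) / 10000, by positivity, by linarith only [h1'], by linarith only [a, b]⟩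

/-! ### moves at the same real part -/

theorem hasDerivAt_uu_t {a t : ℝ} (h : t ≠ 0) :
    HasDerivAt (fun t => NumU.uu a t) (NumX.yy a t) t := by
  have h1 : HasDerivAt (fun t : ℝ => (⟨a, t⟩ : ℂ)) Complex.I t := by
    have h2 : HasDerivAt (fun s : ℝ => (a : ℂ) + (s : ℂ) * Complex.I) (1 * Complex.I) t :=
      ((Complex.ofRealCLM.hasDerivAt (x := t)).mul_const Complex.I).const_add _
    rw [one_mul] at h2
    refine h2.congr_of_eventuallyEq (Eventually.of_forall fun r => ?_)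
    apply Complex.ext <;> simp
  have h3 := hasDerivAt_UU_im h1 (by exact h)
  rw [Complex.I_re, Complex.I_im, zero_mul, one_mul, zero_add] at h3
  exact h3

theorem cont_uu_t (a : ℝ) : Continuous fun t => NumU.uu a t := by
  have h1 : Continuous fun t : ℝ => (a : ℂ) + (t : ℂ) * Complex.I := by fun_prop
  refine (continuous_UU.comp h1).congr fun t => ?_
  show UU ((a : ℂ) + (t : ℂ) * Complex.I) = UU ⟨a, t⟩
  congr 1
  apply Complex.ext <;> simp

/-- a lower bound of the derivative off finitely many points -/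
theorem slope_ge {f f' : ℝ → ℝ} {C : ℝ} (hf : Continuous f) (s : Finset ℝ) : ∀ {a b : ℝ}, a ≤ b →
    (∀ t, a < t → t < b → t ∉ s → HasDerivAt f (f' t) t ∧ C ≤ f' t) →
    C * (b - a) ≤ f b - f a := by
  induction s using Finset.induction_on with
  | empty =>
    intro a b hab h
    have h1 := Convex.mul_sub_le_image_sub_of_le_deriv (convex_Icc a b) hf.continuousOn
      (C := C) (fun t ht => by
        rw [interior_Icc] at ht
        exact ((h t ht.1 ht.2 (by simp)).1.differentiableAt).differentiableWithinAt)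
      (fun t ht => by
        rw [interior_Icc] at ht
        rw [(h t ht.1 ht.2 (by simp)).1.deriv]
        exact (h t ht.1 ht.2 (by simp)).2)
    exact h1 a (Set.left_mem_Icc.2 hab) b (Set.right_mem_Icc.2 hab) hab
  | insert e s _ ih =>
    intro a b hab h
    by_cases he : a < e ∧ e < b
    · have h1 := ih he.1.le fun t t0 t1 ht => h t t0 (t1.trans he.2) (by
        rw [Finset.mem_insert, not_or]
        exact ⟨t1.ne, ht⟩)
      have h2 := ih he.2.le fun t t0 t1 ht => h t (he.1.trans t0) t1 (by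
        rw [Finset.mem_insert, not_or]
        exact ⟨t0.ne', ht⟩)
      have e1 : C * (b - a) = C * (e - a) + C * (b - e) := by ring
      linarith only [h1, h2]
    · refine ih hab fun t t0 t1 ht => h t t0 t1 ?_
      rw [Finset.mem_insert, not_or]
      refine ⟨?_, ht⟩
      rintro rfl
      exact he ⟨t0, t1⟩

/-- derivative of `VA` in the height -/
noncomputable def dA (x : ℝ) (l : ℂ) (t : ℝ) : ℝ :=
  NumX.yy (l.re - x) (l.im - t) - NumX.yy x t - Real.pi * l.re

theorem VA_uu (x t : ℝ) (l : ℂ) : VA ⟨x, t⟩ l =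
    -(Real.pi * (x * l.im + t * l.re)) - NumU.uu (l.re - x) (l.im - t) - NumU.uu x t := by
  unfold VA
  simp only [NumU.UU_uu, Complex.sub_im, Complex.sub_re, Complex.mul_im]

theorem VA_slope {x C a b : ℝ} {l : ℂ} (hab : a ≤ b)
    (h : ∀ t, a ≤ t → t ≤ b → C ≤ dA x l t) : C * (b - a) ≤ VA ⟨x, b⟩ l - VA ⟨x, a⟩ l := by
  have hc : Continuous fun t : ℝ => VA ⟨x, t⟩ l := by
    simp only [VA_uu]
    have h1 := cont_uu_t x
    have h2 : Continuous fun t : ℝ => NumU.uu (l.re - x) (l.im - t) :=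
      (cont_uu_t (l.re - x)).comp (by fun_prop : Continuous fun t : ℝ => l.im - t)
    fun_prop
  refine slope_ge (f' := dA x l) hc {0, l.im} hab fun t t0 t1 ht => ?_
  rw [Finset.mem_insert, Finset.mem_singleton, not_or] at ht
  refine ⟨?_, h t t0.le t1.le⟩
  have h1 := hasDerivAt_uu_t (a := x) ht.1
  have h2 : HasDerivAt (fun t : ℝ => l.im - t) (-1) t := (hasDerivAt_id t).const_sub _
  have h3 := (hasDerivAt_uu_t (a := l.re - x) (t := l.im - t) (sub_ne_zero.2 (Ne.symm ht.2))).comp t h2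
  have h4 : HasDerivAt (fun t : ℝ => -(Real.pi * (x * l.im + t * l.re))) (-(Real.pi * l.re)) t := by
    have := ((((hasDerivAt_id t).mul_const l.re).const_add (x * l.im)).const_mul Real.pi).neg
    rw [one_mul] at this
    exact this
  have h5 := (h4.sub h3).sub h1
  simp only [VA_uu]
  refine h5.congr_deriv ?_
  unfold dA
  ring

/-- minus the derivative of `V2` in the height -/
noncomputable def dB (x : ℝ) (k : ℂ) (t : ℝ) : ℝ :=
  2 * NumX.yy x t - NumX.yy (x + k.re) (t + k.im) + Real.pi * (x - k.re + 1 / 2)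

theorem V2_uu' (x t : ℝ) (k : ℂ) : V2 ⟨x, t⟩ k = NumU.uu (x + k.re) (t + k.im) -
    2 * NumU.uu x t - 2 * NumU.uu k.re k.im -
      Real.pi * ((x - k.re) * (t - k.im) + (t + k.im) / 2) :=
  KR.V2_uu x t k.re k.im

theorem V2_slope {x C a b : ℝ} {k : ℂ} (hab : a ≤ b)
    (h : ∀ t, a ≤ t → t ≤ b → C ≤ dB x k t) : C * (b - a) ≤ V2 ⟨x, a⟩ k - V2 ⟨x, b⟩ k := by
  have hc : Continuous fun t : ℝ => -V2 ⟨x, t⟩ k := by
    simp only [V2_uu']
    have h1 := cont_uu_t x
    have h2 : Continuous fun t : ℝ => NumU.uu (x + k.re) (t + k.im) :=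
      (cont_uu_t (x + k.re)).comp (by fun_prop : Continuous fun t : ℝ => t + k.im)
    fun_prop
  have key := slope_ge (f' := dB x k) (C := C) hc {0, -k.im} hab fun t t0 t1 ht => by
    rw [Finset.mem_insert, Finset.mem_singleton, not_or] at ht
    refine ⟨?_, h t t0.le t1.le⟩
    have h1 := (hasDerivAt_uu_t (a := x) ht.1).const_mul 2
    have h2 : HasDerivAt (fun t : ℝ => t + k.im) 1 t := (hasDerivAt_id t).add_const _
    have hn : t + k.im ≠ 0 := fun h3 => ht.2 (by linarith only [h3])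
    have h3 := (hasDerivAt_uu_t (a := x + k.re) hn).comp t h2
    have h4 : HasDerivAt (fun t : ℝ => Real.pi * ((x - k.re) * (t - k.im) + (t + k.im) / 2))
        (Real.pi * ((x - k.re) + 1 / 2)) t := by
      have := ((((hasDerivAt_id t).sub_const k.im).const_mul (x - k.re)).add
        (((hasDerivAt_id t).add_const k.im).div_const 2)).const_mul Real.pi
      simpa using this
    have h5 := ((((h3.sub h1).sub_const (2 * NumU.uu k.re k.im)).sub h4)).neg
    simp only [V2_uu']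
    refine h5.congr_deriv ?_
    unfold dB
    ring
  linarith only [key]

theorem fE_val {n : ℤ} : (fE n).val [x, y, z, w] =
    dA x ⟨y, ll.val [x, y, z, w]⟩ w + (n : ℝ) / 10000 := by
  unfold fE dA
  simp only [E.val, E.c, v0, v1, v3]
  norm_num

theorem fE'_le {n : ℤ} : (fE' n).val [x, y, z, w] ≤
    dA x ⟨y, ll.val [x, y, z, w]⟩ w + (n : ℝ) / 10000 := by
  unfold fE' dA
  simp only [E.val, E.c, v0, v1, v3]
  have h1 := NumX.yy_add_one (y - x) (ll.val [x, y, z, w] - w)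
  have h2 := NumX.yy_one_sub (x - y) (ll.val [x, y, z, w] - w)
  rw [show 1 - (x - y) = y - x + 1 by ring] at h2
  have h3 := NumX.sg_abs (ll.val [x, y, z, w] - w)
  have h4 := (abs_le.1 h3).2
  have hp := Real.pi_pos
  have h5 : Real.pi * NumX.sg (ll.val [x, y, z, w] - w) ≤ Real.pi * 1 :=
    mul_le_mul_of_nonneg_left h4 hp.le
  push_cast
  linarith only [h1, h2, h5]

theorem gE_val {Y : E} {n : ℤ} : (gE Y n).val [x, y, z, w] =
    dB x ⟨y, Y.val [x, y, z, w]⟩ w + (n : ℝ) / 10000 := by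
  unfold gE dB
  simp only [E.val, E.c, v0, v1, v3]
  norm_num

/-- the move at the same real part -/
theorem Win.flip {n m : ℤ} {T : ℝ} {l k : ℂ} (hT : 0 ≤ T) (x0 : 0 ≤ x)
    (x1 : x ≤ (P.X : ℝ) / 1000) (hp : 0 < P.tq x)
    (hA : ∀ t, -(16 / 100 * P.tq x) ≤ t → t ≤ T * P.tq x → 0 < dA x l t + (n : ℝ) / 10000)
    (hB : ∀ t, -(T * P.tq x) ≤ t → t ≤ 16 / 100 * P.tq x → 0 < dB x k t + (m : ℝ) / 10000)
    (hs : ((n : ℝ) + m) / 10000 * (16 / 100 + T) < 2 * Real.pi * (16 / 100)) : Win P T x l k := by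
  have hTp : 0 ≤ T * P.tq x := mul_nonneg hT hp.le
  have a := VA_slope (x := x) (l := l) (C := -((n : ℝ) / 10000)) (a := -(16 / 100 * P.tq x))
    (b := T * P.tq x) (by linarith only [hp, hTp]) fun t t0 t1 => by linarith only [hA, t0, t1, hA t t0 t1]
  have b := V2_slope (x := x) (k := k) (C := -((m : ℝ) / 10000)) (a := -(T * P.tq x))
    (b := 16 / 100 * P.tq x) (by linarith only [hp, hTp]) fun t t0 t1 => by linarith only [hB, t0, t1, hB t t0 t1]
  refine ⟨x, x0, x1, ?_⟩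
  unfold gA gB
  have h1 := mul_lt_mul_of_pos_right hs hp
  have e1 : -((n : ℝ) / 10000) * (T * P.tq x - -(16 / 100 * P.tq x)) +
      -((m : ℝ) / 10000) * (16 / 100 * P.tq x - -(T * P.tq x)) =
      -(((n : ℝ) + m) / 10000 * (16 / 100 + T) * P.tq x) := by ring
  have e2 : 2 * Real.pi * (16 / 100) * P.tq x = 2 * Real.pi * (16 / 100 * P.tq x) := by ring
  linarith only [a, b, h1]

end KS

end Pool.Agent.Work.MP_b30479_gt.G2
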