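import Pool.Agent.Work.MP_b30479_gt.G2.WMSa

/-!
# Mirrored paths: hinge in the slot `0` of an interior `3` on the lower side, rows
-/

namespace Pool.Agent.Work.MP_b30479_gt.G2

open VOL

namespace KS

open NumG KE

variable {P : Pt} {q : Qr} {m : List Qr} {x y u T a s : ℝ}

/-- height of the inner variable of a `3` -/
noncomputable def lv (y u : ℝ) : ℝ := u * (16 / 100 * tr 0 (8 / 10) (5 / 100) (5 / 100) y)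
/-- height of the other hinge of a `2` -/
noncomputable def kv (a s : ℝ) : ℝ := s * (16 / 100 * tr 0 (8 / 10) (1 / 10) (29 / 100) a) -
  (1 - s) * (3 / 10 * tr 0 (8 / 10) (12 / 100) (47 / 100) a)

def AA (P : Pt) (T x : ℝ) (l : ℂ) (q : Qr) : Prop := 0 < gA P ((q.cc : ℝ) / 10000) T x l + q.f x T
def BB (P : Pt) (T x : ℝ) (k : ℂ) (q : Qr) : Prop :=
  0 ≤ q.cc ∧ q.cc ≤ 10 * P.X ∧ 0 < gB P ((q.cc : ℝ) / 10000) T x k - q.f x T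

theorem AA.ab {l k : ℂ} (h1 : AA P T x l q) (h2 : BB P T x k q) : Win P T x l k :=
  Win.of h2.1 h2.2.1 h1 h2.2.2

theorem rowA {l0 h0 l1 h1 l2 h2 l3 h3 c : ℕ} (hP : P.ok)
    (h : chkF (m.map (aE P)) 1000 0 0 1000 0 40 l0 h0 l1 h1 l2 h2 l3 h3 c = true)
    (hx : ((l0 : ℝ) - (0 : ℕ)) / (1000 : ℕ) ≤ x ∧ x ≤ ((h0 : ℝ) - (0 : ℕ)) / (1000 : ℕ))
    (hy : ((l1 : ℝ) - (0 : ℕ)) / (1000 : ℕ) ≤ y ∧ y ≤ ((h1 : ℝ) - (0 : ℕ)) / (1000 : ℕ))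
    (hu : ((l2 : ℝ) - (1000 : ℕ)) / (1000 : ℕ) ≤ u ∧ u ≤ ((h2 : ℝ) - (1000 : ℕ)) / (1000 : ℕ))
    (hT : ((l3 : ℝ) - (0 : ℕ)) / (1000 : ℕ) ≤ T ∧ T ≤ ((h3 : ℝ) - (0 : ℕ)) / (1000 : ℕ)) :
    ∃ q ∈ m, AA P T x ⟨y, lv y u⟩ q := by
  obtain ⟨e, he, hv⟩ := chkF4 h (by norm_num) hx.1 hx.2 hy.1 hy.2 hu.1 hu.2 hT.1 hT.2
  obtain ⟨q, hq, rfl⟩ := List.mem_map.1 he
  refine ⟨q, hq, ?_⟩
  rw [aE_val hP, ll_val] at hv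
  exact hv

theorem rowX {l0 h0 l1 h1 l2 h2 l3 h3 c : ℕ} {X : E} (hP : P.ok)
    (h : chkF (m.map (aE P) ++ [X]) 1000 0 0 1000 0 40 l0 h0 l1 h1 l2 h2 l3 h3 c = true)
    (hx : ((l0 : ℝ) - (0 : ℕ)) / (1000 : ℕ) ≤ x ∧ x ≤ ((h0 : ℝ) - (0 : ℕ)) / (1000 : ℕ))
    (hy : ((l1 : ℝ) - (0 : ℕ)) / (1000 : ℕ) ≤ y ∧ y ≤ ((h1 : ℝ) - (0 : ℕ)) / (1000 : ℕ))
    (hu : ((l2 : ℝ) - (1000 : ℕ)) / (1000 : ℕ) ≤ u ∧ u ≤ ((h2 : ℝ) - (1000 : ℕ)) / (1000 : ℕ))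
    (hT : ((l3 : ℝ) - (0 : ℕ)) / (1000 : ℕ) ≤ T ∧ T ≤ ((h3 : ℝ) - (0 : ℕ)) / (1000 : ℕ)) :
    (∃ q ∈ m, AA P T x ⟨y, lv y u⟩ q) ∨ 0 < X.val [x, y, u, T] := by
  obtain ⟨e, he, hv⟩ := chkF4 h (by norm_num) hx.1 hx.2 hy.1 hy.2 hu.1 hu.2 hT.1 hT.2
  rcases List.mem_append.1 he with he | he
  · obtain ⟨q, hq, rfl⟩ := List.mem_map.1 he
    refine Or.inl ⟨q, hq, ?_⟩
    rw [aE_val hP, ll_val] at hv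
    exact hv
  · rw [List.mem_singleton] at he
    rw [he] at hv
    exact Or.inr hv

theorem exN_val {K : ℤ} : (exN K).val [x, y, u, T] = -((K : ℝ) / 10000) - lv y u := by
  unfold exN
  rw [E.val, ll_val]
  unfold lv
  simp only [E.c, E.val]
  push_cast
  ring

/-- rows of a `2` -/
theorem rowK {l0 h0 l1 h1 l2 h2 l3 h3 c : ℕ} (hP : P.ok) (c0 : 0 ≤ q.cc) (c1 : q.cc ≤ 10 * P.X)
    (h : chkF [bE P KE.kk q] 1000 0 0 0 0 40 l0 h0 l1 h1 l2 h2 l3 h3 c = true)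
    (hx : ((l0 : ℝ) - (0 : ℕ)) / (1000 : ℕ) ≤ x ∧ x ≤ ((h0 : ℝ) - (0 : ℕ)) / (1000 : ℕ))
    (ha : ((l1 : ℝ) - (0 : ℕ)) / (1000 : ℕ) ≤ a ∧ a ≤ ((h1 : ℝ) - (0 : ℕ)) / (1000 : ℕ))
    (hs : ((l2 : ℝ) - (0 : ℕ)) / (1000 : ℕ) ≤ s ∧ s ≤ ((h2 : ℝ) - (0 : ℕ)) / (1000 : ℕ))
    (hT : ((l3 : ℝ) - (0 : ℕ)) / (1000 : ℕ) ≤ T ∧ T ≤ ((h3 : ℝ) - (0 : ℕ)) / (1000 : ℕ)) :
    BB P T x ⟨a, kv a s⟩ q := by
  have hv := chk1 h (by norm_num) hx ha hs hT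
  rw [bE_val hP, kk_val] at hv
  exact ⟨c0, c1, hv⟩

/-- rows of a `3` -/
theorem rowL {l0 h0 l1 h1 l2 h2 l3 h3 c : ℕ} (hP : P.ok) (c0 : 0 ≤ q.cc) (c1 : q.cc ≤ 10 * P.X)
    (h : chkF [bE P ll q] 1000 0 0 1000 0 40 l0 h0 l1 h1 l2 h2 l3 h3 c = true)
    (hx : ((l0 : ℝ) - (0 : ℕ)) / (1000 : ℕ) ≤ x ∧ x ≤ ((h0 : ℝ) - (0 : ℕ)) / (1000 : ℕ))
    (ha : ((l1 : ℝ) - (0 : ℕ)) / (1000 : ℕ) ≤ a ∧ a ≤ ((h1 : ℝ) - (0 : ℕ)) / (1000 : ℕ))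
    (hs : ((l2 : ℝ) - (1000 : ℕ)) / (1000 : ℕ) ≤ s ∧ s ≤ ((h2 : ℝ) - (1000 : ℕ)) / (1000 : ℕ))
    (hT : ((l3 : ℝ) - (0 : ℕ)) / (1000 : ℕ) ≤ T ∧ T ≤ ((h3 : ℝ) - (0 : ℕ)) / (1000 : ℕ)) :
    BB P T x ⟨a, lv a s⟩ q := by
  have hv := chk1 h (by norm_num) hx ha hs hT
  rw [bE_val hP, ll_val] at hv
  exact ⟨c0, c1, hv⟩

theorem mem_f {n : ℤ} {X e : E} (he : e ∈ [fE n, fE' n, X]) {z : ℝ}
    (hv : 0 < e.val [x, y, u, z]) :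
    0 < dA x ⟨y, lv y u⟩ z + (n : ℝ) / 10000 ∨ 0 < X.val [x, y, u, z] := by
  simp only [List.mem_cons, List.not_mem_nil, or_false] at he
  rcases he with rfl | rfl | rfl
  · rw [fE_val, ll_val] at hv
    exact Or.inl hv
  · have h1 := hv.trans_le fE'_le
    rw [ll_val] at h1
    exact Or.inl h1
  · exact Or.inr hv

theorem mem_f2 {n : ℤ} {e : E} (he : e ∈ [fE n, fE' n]) {z : ℝ}
    (hv : 0 < e.val [x, y, u, z]) : 0 < dA x ⟨y, lv y u⟩ z + (n : ℝ) / 10000 := by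
  simp only [List.mem_cons, List.not_mem_nil, or_false] at he
  rcases he with rfl | rfl
  · rw [fE_val, ll_val] at hv
    exact hv
  · have h1 := hv.trans_le fE'_le
    rw [ll_val] at h1
    exact h1

/-- near the right end of the path -/
theorem tq_le {X r : ℝ} (hX : (P.X : ℝ) / 1000 = X) (hr : (P.cr : ℝ) / 1000 = r) (r0 : 0 < r)
    (h1 : x ≤ X) : P.tq x ≤ (X - x) / r := by
  unfold Pt.tq
  rw [hX, hr]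
  have h0 : 0 ≤ (X - x) / r := div_nonneg (by linarith) r0.le
  unfold tr
  exact max_le h0 ((min_le_right _ _).trans (min_le_right _ _))

end KS

end Pool.Agent.Work.MP_b30479_gt.G2
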