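import Pool.Agent.Work.MP_b30479_gt.G2.WMSa

/-!
# Mirrored paths: hinge in the slot `0` of an interior `3` on the lower side, the star move
-/

namespace Pool.Agent.Work.MP_b30479_gt.G2

open Finset VOL Filter Topology

namespace SR

variable {M : ℕ} {b : Fin (M + 1) → ℤ} {zs : DD (tyW b) ⊕ ZZ (tyW b) → ℂ}
variable {R : Finset (DD (tyW b))} {nb : Finset (DD (tyW b) ⊕ ZZ (tyW b))}
variable {z : DD (tyW b) ⊕ ZZ (tyW b) → ℂ} {p : DD (tyW b) → ℝ}
variable {h h' : Fin M} {i j j' : Fin (M + 1)} {s : Fin 3} {x c : ℝ}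

theorem trh_tq {P : KS.Pt} (hX : wXM b h = (P.X : ℝ) / 1000 ∧ wcl b h = (P.cl : ℝ) / 1000 ∧
    wcr b h = (P.cr : ℝ) / 1000) (y : ℝ) : trh b h y = P.tq y := trh_eq hX y

/-- **A hinge in the slot `0` of an interior `3` on the lower side.** -/
theorem Md.win0 (hb : ClassW b) (hN : NbT b R nb) (hM : MM b zs R nb z p)
    (D : Md b zs nb z p h i 0 j x) {P : KS.Pt}
    (hX : wXM b h = (P.X : ℝ) / 1000 ∧ wcl b h = (P.cl : ℝ) / 1000 ∧ wcr b h = (P.cr : ℝ) / 1000)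
    (h16 : mhs b h 0 = 16 / 100) (hi : clsW b i = .three) {k : ℂ}
    (k2 : ∀ c : ℝ, SideG b zs nb z p h j (tg b zs h c) (V2 (tgo b zs h j c) k - V2 (Ow b z j 2) k))
    (w : KS.Win P (Th b zs h i) x (Ow b z i 1) k) : False := by
  obtain ⟨c, c0, c1, g⟩ := w
  have h2 := D.star hb hN.ok.1 hM c0 (by rw [hX.1]; exact c1)
    (keep_three0 (zs := zs) (nb := nb) (z := z) (p := p) (c := c) hb D.adj hi) (k2 c)
  have eu : Ow b z j 2 = ⟨x, mhs b h 0 * trh b h x⟩ := D.opp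
  have ev : Ow b z i 0 = ⟨x, -(mhs b h 0 * trh b h x)⟩ := D.own
  have e1 : tgo b zs h j c = ⟨c, -(Th b zs h i * P.tq c)⟩ := by
    unfold tgo
    rw [D.Tj, trh_tq hX, neg_mul]
  have e2 : tgo b zs h i c = ⟨c, Th b zs h i * P.tq c⟩ := by
    unfold tgo
    rw [trh_tq hX]
  rw [KE.V3_VA, e1, e2, eu, ev, h16, trh_tq hX] at h2
  unfold KS.gA KS.gB at g
  linarith

theorem par_32a (A : Adj h i 0 j) (hi : clsW b i = .three) (hj : clsW b j = .two) :
    wXM b h = (KS.P2.X : ℝ) / 1000 ∧ wcl b h = (KS.P2.cl : ℝ) / 1000 ∧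
      wcr b h = (KS.P2.cr : ℝ) / 1000 := by
  unfold wXM wcl wcr
  cases A
  rw [hi, hj]
  simp only [hp, KS.P2]
  norm_num

theorem par_33a (A : Adj h i 0 j) (hi : clsW b i = .three) (hj : clsW b j = .three) :
    wXM b h = (KS.P3.X : ℝ) / 1000 ∧ wcl b h = (KS.P3.cl : ℝ) / 1000 ∧
      wcr b h = (KS.P3.cr : ℝ) / 1000 := by
  unfold wXM wcl wcr
  cases A
  rw [hi, hj]
  simp only [hp, KS.P3]
  norm_num

theorem mhs_32a (A : Adj h i 0 j) (hj : clsW b j ≠ .one) : mhs b h 0 = 16 / 100 := by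
  cases A
  unfold mhs
  rw [if_neg (fun h3 => hj h3.1), if_neg (fun h3 => absurd h3.2.2 (by decide))]

end SR

end Pool.Agent.Work.MP_b30479_gt.G2
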