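import Pool.Agent.Work.MP_b30479_gt.G2.WMSd

/-!
# Mirrored paths: targets of the kind `3 | 2`, slot `0` of the `3`
-/

namespace Pool.Agent.Work.MP_b30479_gt.G2.KS.K2

def q1 : Qr := ⟨1000, 108, [(0, 23, 5), (20, -21, 10), (40, 1, 1), (60, 1, 2), (80, 1, 5),
  (100, 9, 20)], 0⟩
def q2 : Qr := ⟨1500, 569, [(120, 19, 40), (160, 3, 20), (200, 2, 5), (320, -71, 40),
  (340, -5, 4), (360, -1, 20)], 0⟩
def q3 : Qr := ⟨2500, 533, [(380, -1, 1), (400, 1, 20), (460, -4, 5), (480, -2, 5)], 0⟩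
def q4 : Qr := ⟨3500, 294, [(500, -17, 15), (530, -11, 30), (540, -7, 5)], 0⟩
def q5 : Qr := ⟨1500, 134, [(550, -123, 25)], 0⟩
def q6 : Qr := ⟨2000, 193, [(550, -126, 25)], 0⟩
def q7 : Qr := ⟨2500, 231, [(550, -128, 25)], 0⟩
def q8 : Qr := ⟨3000, 254, [(550, -129, 25)], 0⟩
def q9 : Qr := ⟨3500, 267, [(550, -26, 5)], 0⟩
def q10 : Qr := ⟨4000, 245, [(550, -12, 5), (560, -113, 40)], 0⟩
def q11 : Qr := ⟨4500, 196, [(550, -31, 20), (570, -43, 12)], 0⟩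

def M1 : List Qr := [q1]
def M2 : List Qr := [q2]
def M3 : List Qr := [q3]
def M4 : List Qr := [q4]
def M5 : List Qr := [q5, q6, q7, q8, q9, q10, q11]

end Pool.Agent.Work.MP_b30479_gt.G2.KS.K2
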