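import Pool.Agent.Work.MP_b30479_gt.G2.WMSd

/-!
# Mirrored paths: targets of the kind `3 | 3`, slot `0` of the lower one
-/

namespace Pool.Agent.Work.MP_b30479_gt.G2.KS.K3

def B100 : Qr := ⟨1000, 111, [(0, 57, 10), (20, -107, 30), (50, 61, 60), (130, -623, 180),
  (220, 193, 360)], 0⟩
def B150 : Qr := ⟨1500, 126, [(0, 19, 4), (20, -31, 10), (40, 103, 60), (100, 5, 6),
  (130, -591, 140), (270, 41, 84), (300, -133, 60)], 0⟩
def B200 : Qr := ⟨2000, 210, [(60, 19, 5), (110, 1, 1), (130, -233, 60), (250, -209, 300),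
  (300, -1187, 600), (540, -101, 40)], 0⟩
def B250 : Qr := ⟨2500, 462, [(240, 19, 15), (300, -103, 60), (360, -6, 5), (420, -7, 30),
  (480, 83, 420), (550, -39, 35), (560, -17, 10)], 0⟩
def B300 : Qr := ⟨3000, 407, [(400, -4, 5), (420, -73, 75), (570, -743, 300), (590, -11, 20)], 0⟩
def B350 : Qr := ⟨3500, 323, [(440, -21, 20), (460, -157, 220), (570, -81, 110), (580, -1, 1),
  (590, -6, 5)], 0⟩
def B400 : Qr := ⟨4000, 214, [(500, -62, 35), (570, -67, 140), (590, -7, 4)], 0⟩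
def B450 : Qr := ⟨4500, 191, [(500, -23, 20), (520, -111, 140), (590, -67, 70)], 0⟩
def B500 : Qr := ⟨5000, 120, [(540, -121, 60)], 0⟩
def C200 : Qr := ⟨2000, 121, [(560, -22, 5), (590, -1, 5)], 21000⟩
def C250 : Qr := ⟨2500, 119, [(560, -11, 5), (570, -4, 5), (580, -31, 20)], 22000⟩
def C275 : Qr := ⟨2750, 112, [(560, -9, 4), (580, -21, 20), (590, -3, 2)], 23000⟩
def C300 : Qr := ⟨3000, 101, [(560, -67, 30), (590, -5, 3)], 23000⟩
def C325 : Qr := ⟨3250, 99, [(560, -11, 5), (590, -11, 10)], 20000⟩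
def C350 : Qr := ⟨3500, 97, [(560, -67, 30), (590, -11, 30)], 17000⟩
def C375 : Qr := ⟨3750, 99, [(560, -67, 30), (590, -4, 15)], 12000⟩
def C400 : Qr := ⟨4000, 99, [(560, -67, 30), (590, -1, 6)], 8000⟩
def C450 : Qr := ⟨4500, 98, [(560, -9, 4)], 2000⟩
def D200 : Qr := ⟨2000, 34, [(580, -9, 2)], 22000⟩
def D225 : Qr := ⟨2250, 52, [(580, -9, 2)], 23000⟩
def D250 : Qr := ⟨2500, 67, [(580, -67, 15), (595, -1, 3)], 24000⟩
def D275 : Qr := ⟨2750, 66, [(580, -11, 5), (585, -9, 5), (590, -7, 10)], 24000⟩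
def D300 : Qr := ⟨3000, 54, [(580, -34, 15), (595, -38, 15)], 25000⟩
def D325 : Qr := ⟨3250, 47, [(580, -34, 15), (595, -2, 15)], 24000⟩
def D350 : Qr := ⟨3500, 60, [(580, -9, 4)], 14000⟩
def D375 : Qr := ⟨3750, 72, [(580, -23, 10)], 5000⟩
def D400 : Qr := ⟨4000, 81, [(580, -23, 10)], -3000⟩
def D450 : Qr := ⟨4500, 81, [(580, -23, 10)], -10000⟩

def Lm0 : List Qr := [B100, B150]
def Lm1 : List Qr := [B100, B150, B200]
def Lm2 : List Qr := [B100, B150, B200]
def Lm3 : List Qr := [B150, B200, B250]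
def Lm4 : List Qr := [B150, B200, B250]
def Lm5 : List Qr := [B200, B250, B300, B350]
def Lm6 : List Qr := [B200, B250, B300, B350, B400, B450]
def Lm7 : List Qr := [B200, B250, B300, B350, B400, B450, B500]
def LC : List Qr := [C200, C250, C275, C300, C325, C350, C375, C400, C450]
def LD : List Qr := [D200, D225, D250, D275, D300, D325, D350, D375, D400, D450]

end Pool.Agent.Work.MP_b30479_gt.G2.KS.K3
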