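import Pool.Agent.Work.MP_b30479_gt.G2.WMSt1s1
import Pool.Agent.Work.MP_b30479_gt.G2.WMSt1s2

/-!
# Mirrored paths: rows of the kind `3 | 3`, slot `0` of the lower one, part 1
-/

set_option linter.style.longLine false

namespace Pool.Agent.Work.MP_b30479_gt.G2.KS.K3

open KE NumG

theorem r_m1 : chkF (Lm1.map (aE P3))
    1000 0 0 1000 0 40 60 140 0 800 0 2000 0 22
    223196098949322908511868421694810221085644775881325504314975825525889471938281683136205096489795657430083926356780942902783974085776356913667066682814807035008364237964429077093761271481068280494487833732208562049683291718131211219601294424134128733889914574499936367244203103928849187487638470654413101405697427618782338069419575415714456540217340733978766109292147655981560916278686572970116917657885709488460841333286994138545412046405027066287625262552989998440766497992345214235302749095737413341000936175736337017256624866480822301884430687816968265001068650180627362976460590091059994058967678300267020354841245010948203241810711968931714776373160672155010664454841948614551683622157060207090643725964926981558272882096721424530786582963590516821054829928537602257726341407424873359174558563775758388097219665420130818736277957078769450850317709885460018003887934028665461207337220530834922941885478273666579434883656324080100055317587198491650210957394107158544864816318195098393257246419622156643980532959624424235297334311531771120445921421402134648866411268032142270060121165314430764211420776246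0249036257854681058906326832888107580731358938179361048676988194231411975826258781728241553536883465321934817417523246674397868827532619904811066645690222544680059442668137889883597622146745503832661341038144872052342345043200507593109583146474333554007565401679882856285778125692390114065271027126975160695955466197747874770924892799047742041744816531139695532589496807864212989900035895584713161288896182115015855904173244680189123160987108998926184267339855416074527649189703776291563284240143133629440124948814995060283157351343151405242989549031683614185396034954877883805384256162000981170491300143330542822324229060263450313026089775292390563576968687320532492974015193440213061250659378339976045552444553779919928522661900632053813166038013248840408196619997023155028843022631076318188166198738474426571056232721072077785309884977836210785435468817803896792931060173020589895107631408882219449018062048879165687491328051955798271197452144564071827825693876582956840507297756719532002648355863625739562551630109926390669632703754779034877518198970243928758574772544615248251232734797544076336841522414927300260132409404973863958783196517358302573583407954788300199609603057310823833619797783228962723262331775852970687579215850273819885697 = true :=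
  Pool.Agent.Work.NumI.okB_of rfl rfl rfl rfl rfl rfl rfl rfl rfl rfl rfl rfl
    (Pool.Agent.Work.NumI.runE_split1 rfl rfl rfl
      (Pool.Agent.Work.NumI.runE_split1 rfl rfl rfl
        (Pool.Agent.Work.NumI.runE_split2 rfl rfl rfl
          r_m1_p1
          (Pool.Agent.Work.NumI.runE_split2 rfl rfl rfl
            r_m1_p2
            r_m1_p3))
        r_m1_p4)
      r_m1_p5)

end Pool.Agent.Work.MP_b30479_gt.G2.KS.K3
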