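import Pool.Agent.Work.MP_b30479_gt.G2.WMSn
import Pool.Agent.Work.NumI.TreeS
import Pool.Agent.Work.NumU.GenF

/-!
# Pieces of the certificates of `WMSt2`, part 3
-/


set_option linter.style.longLine false
namespace Pool.Agent.Work.MP_b30479_gt.G2.KS.K3
open KE NumG

theorem r_e4_p18 : Pool.Agent.Work.NumI.runE (Pool.Agent.Work.NumG.tst (LD.map (aE P3) ++ [exN 160]))
    0 0 68719476736 0 38 39857296506 40888088659 0 54975581390 103079215105 137438953474 824633720 1511828490
    30398555870216283168010593847944744074354707065215483668873573937920091794344242343912444669555165387384864207483770540184241323602748512928573458415763843616183255318657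
    0 = true := by
  decide +kernel

end Pool.Agent.Work.MP_b30479_gt.G2.KS.K3
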