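import Pool.Agent.Work.MP_b30479_gt.G2.WMSb
import Pool.Agent.Work.MP_b30479_gt.G2.WMSt1
import Pool.Agent.Work.MP_b30479_gt.G2.WMSt2
import Pool.Agent.Work.MP_b30479_gt.G2.WMSt3
import Pool.Agent.Work.MP_b30479_gt.G2.WMSt4
import Pool.Agent.Work.MP_b30479_gt.G2.WMSt5
import Pool.Agent.Work.MP_b30479_gt.G2.WMSt6
import Pool.Agent.Work.MP_b30479_gt.G2.WMSt7
import Pool.Agent.Work.MP_b30479_gt.G2.WMSt8
import Pool.Agent.Work.MP_b30479_gt.G2.WMSt9

/-!
# Mirrored paths: the kind `3 | 3`, slot `0` of the lower `3`
-/

namespace Pool.Agent.Work.MP_b30479_gt.G2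

open VOL

namespace KS

open NumG KE

variable {P : Pt} {x y u T a s : ℝ}

/-- the ranges of the variables -/
structure R3 (x y u T a s : ℝ) : Prop where
  x0 : 0 ≤ x
  x1 : x ≤ 600 / 1000
  T0 : 0 ≤ T
  T1 : T ≤ 22 / 1000
  y0 : 0 ≤ y
  y1 : y ≤ 8 / 10
  u0 : -1 ≤ u
  u1 : u ≤ 1
  a0 : 0 ≤ a
  a1 : a ≤ 8 / 10
  s0 : -1 ≤ s
  s1 : s ≤ 1

namespace K3



variable (r : R3 x y u T a s)

include r

theorem b100 (h0 : 0 / 1000 ≤ x) (h : x ≤ 260 / 1000) : BB P3 T x ⟨a, lv a s⟩ B100 := by
  have ⟨x0, x1, T0, T1, y0, y1, u0, u1, a0, a1, s0, s1⟩ := r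
  exact rowL P3_ok (by decide) (by decide) r_b100
      (by constructor <;> push_cast <;> linarith) (by constructor <;> push_cast <;> linarith)
      (by constructor <;> push_cast <;> linarith) (by constructor <;> push_cast <;> linarith)

theorem b150 (h0 : 0 / 1000 ≤ x) (h : x ≤ 500 / 1000) : BB P3 T x ⟨a, lv a s⟩ B150 := by
  have ⟨x0, x1, T0, T1, y0, y1, u0, u1, a0, a1, s0, s1⟩ := r
  exact rowL P3_ok (by decide) (by decide) r_b150
      (by constructor <;> push_cast <;> linarith) (by constructor <;> push_cast <;> linarith)
      (by constructor <;> push_cast <;> linarith) (by constructor <;> push_cast <;> linarith)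

theorem b200 (h0 : 60 / 1000 ≤ x) (h : x ≤ 600 / 1000) : BB P3 T x ⟨a, lv a s⟩ B200 := by
  have ⟨x0, x1, T0, T1, y0, y1, u0, u1, a0, a1, s0, s1⟩ := r
  exact rowL P3_ok (by decide) (by decide) r_b200
      (by constructor <;> push_cast <;> linarith) (by constructor <;> push_cast <;> linarith)
      (by constructor <;> push_cast <;> linarith) (by constructor <;> push_cast <;> linarith)

theorem b250 (h0 : 240 / 1000 ≤ x) (h : x ≤ 600 / 1000) : BB P3 T x ⟨a, lv a s⟩ B250 := by
  have ⟨x0, x1, T0, T1, y0, y1, u0, u1, a0, a1, s0, s1⟩ := r
  exact rowL P3_ok (by decide) (by decide) r_b250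
      (by constructor <;> push_cast <;> linarith) (by constructor <;> push_cast <;> linarith)
      (by constructor <;> push_cast <;> linarith) (by constructor <;> push_cast <;> linarith)

theorem b300 (h0 : 400 / 1000 ≤ x) (h : x ≤ 600 / 1000) : BB P3 T x ⟨a, lv a s⟩ B300 := by
  have ⟨x0, x1, T0, T1, y0, y1, u0, u1, a0, a1, s0, s1⟩ := r
  exact rowL P3_ok (by decide) (by decide) r_b300
      (by constructor <;> push_cast <;> linarith) (by constructor <;> push_cast <;> linarith)
      (by constructor <;> push_cast <;> linarith) (by constructor <;> push_cast <;> linarith)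

theorem b350 (h0 : 440 / 1000 ≤ x) (h : x ≤ 600 / 1000) : BB P3 T x ⟨a, lv a s⟩ B350 := by
  have ⟨x0, x1, T0, T1, y0, y1, u0, u1, a0, a1, s0, s1⟩ := r
  exact rowL P3_ok (by decide) (by decide) r_b350
      (by constructor <;> push_cast <;> linarith) (by constructor <;> push_cast <;> linarith)
      (by constructor <;> push_cast <;> linarith) (by constructor <;> push_cast <;> linarith)

theorem b400 (h0 : 500 / 1000 ≤ x) (h : x ≤ 600 / 1000) : BB P3 T x ⟨a, lv a s⟩ B400 := by
  have ⟨x0, x1, T0, T1, y0, y1, u0, u1, a0, a1, s0, s1⟩ := r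
  exact rowL P3_ok (by decide) (by decide) r_b400
      (by constructor <;> push_cast <;> linarith) (by constructor <;> push_cast <;> linarith)
      (by constructor <;> push_cast <;> linarith) (by constructor <;> push_cast <;> linarith)

theorem b450 (h0 : 500 / 1000 ≤ x) (h : x ≤ 600 / 1000) : BB P3 T x ⟨a, lv a s⟩ B450 := by
  have ⟨x0, x1, T0, T1, y0, y1, u0, u1, a0, a1, s0, s1⟩ := r
  exact rowL P3_ok (by decide) (by decide) r_b450
      (by constructor <;> push_cast <;> linarith) (by constructor <;> push_cast <;> linarith)
      (by constructor <;> push_cast <;> linarith) (by constructor <;> push_cast <;> linarith)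

theorem b500 (h0 : 540 / 1000 ≤ x) (h : x ≤ 600 / 1000) : BB P3 T x ⟨a, lv a s⟩ B500 := by
  have ⟨x0, x1, T0, T1, y0, y1, u0, u1, a0, a1, s0, s1⟩ := r
  exact rowL P3_ok (by decide) (by decide) r_b500
      (by constructor <;> push_cast <;> linarith) (by constructor <;> push_cast <;> linarith)
      (by constructor <;> push_cast <;> linarith) (by constructor <;> push_cast <;> linarith)

theorem bC (h0 : 560 / 1000 ≤ x) {q : Qr} (hq : q ∈ LC) : BB P3 T x ⟨a, lv a s⟩ q := by
  have ⟨x0, x1, T0, T1, y0, y1, u0, u1, a0, a1, s0, s1⟩ := r
  simp only [LC, List.mem_cons, List.not_mem_nil, or_false] at hq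
  rcases hq with rfl | rfl | rfl | rfl | rfl | rfl | rfl | rfl | rfl
  · exact rowL P3_ok (by decide) (by decide) r_c200
        (by constructor <;> push_cast <;> linarith) (by constructor <;> push_cast <;> linarith)
        (by constructor <;> push_cast <;> linarith) (by constructor <;> push_cast <;> linarith)
  · exact rowL P3_ok (by decide) (by decide) r_c250
        (by constructor <;> push_cast <;> linarith) (by constructor <;> push_cast <;> linarith)
        (by constructor <;> push_cast <;> linarith) (by constructor <;> push_cast <;> linarith)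
  · exact rowL P3_ok (by decide) (by decide) r_c275
        (by constructor <;> push_cast <;> linarith) (by constructor <;> push_cast <;> linarith)
        (by constructor <;> push_cast <;> linarith) (by constructor <;> push_cast <;> linarith)
  · exact rowL P3_ok (by decide) (by decide) r_c300
        (by constructor <;> push_cast <;> linarith) (by constructor <;> push_cast <;> linarith)
        (by constructor <;> push_cast <;> linarith) (by constructor <;> push_cast <;> linarith)
  · exact rowL P3_ok (by decide) (by decide) r_c325
        (by constructor <;> push_cast <;> linarith) (by constructor <;> push_cast <;> linarith)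
        (by constructor <;> push_cast <;> linarith) (by constructor <;> push_cast <;> linarith)
  · exact rowL P3_ok (by decide) (by decide) r_c350
        (by constructor <;> push_cast <;> linarith) (by constructor <;> push_cast <;> linarith)
        (by constructor <;> push_cast <;> linarith) (by constructor <;> push_cast <;> linarith)
  · exact rowL P3_ok (by decide) (by decide) r_c375
        (by constructor <;> push_cast <;> linarith) (by constructor <;> push_cast <;> linarith)
        (by constructor <;> push_cast <;> linarith) (by constructor <;> push_cast <;> linarith)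
  · exact rowL P3_ok (by decide) (by decide) r_c400
        (by constructor <;> push_cast <;> linarith) (by constructor <;> push_cast <;> linarith)
        (by constructor <;> push_cast <;> linarith) (by constructor <;> push_cast <;> linarith)
  · exact rowL P3_ok (by decide) (by decide) r_c450
        (by constructor <;> push_cast <;> linarith) (by constructor <;> push_cast <;> linarith)
        (by constructor <;> push_cast <;> linarith) (by constructor <;> push_cast <;> linarith)

theorem bD (h0 : 580 / 1000 ≤ x) (h1 : 12 / 1000 ≤ T) {q : Qr} (hq : q ∈ LD) :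
    BB P3 T x ⟨a, lv a s⟩ q := by
  have ⟨x0, x1, T0, T1, y0, y1, u0, u1, a0, a1, s0, s1⟩ := r
  simp only [LD, List.mem_cons, List.not_mem_nil, or_false] at hq
  rcases hq with rfl | rfl | rfl | rfl | rfl | rfl | rfl | rfl | rfl | rfl
  · exact rowL P3_ok (by decide) (by decide) r_d200
        (by constructor <;> push_cast <;> linarith) (by constructor <;> push_cast <;> linarith)
        (by constructor <;> push_cast <;> linarith) (by constructor <;> push_cast <;> linarith)
  · exact rowL P3_ok (by decide) (by decide) r_d225
        (by constructor <;> push_cast <;> linarith) (by constructor <;> push_cast <;> linarith)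
        (by constructor <;> push_cast <;> linarith) (by constructor <;> push_cast <;> linarith)
  · exact rowL P3_ok (by decide) (by decide) r_d250
        (by constructor <;> push_cast <;> linarith) (by constructor <;> push_cast <;> linarith)
        (by constructor <;> push_cast <;> linarith) (by constructor <;> push_cast <;> linarith)
  · exact rowL P3_ok (by decide) (by decide) r_d275
        (by constructor <;> push_cast <;> linarith) (by constructor <;> push_cast <;> linarith)
        (by constructor <;> push_cast <;> linarith) (by constructor <;> push_cast <;> linarith)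
  · exact rowL P3_ok (by decide) (by decide) r_d300
        (by constructor <;> push_cast <;> linarith) (by constructor <;> push_cast <;> linarith)
        (by constructor <;> push_cast <;> linarith) (by constructor <;> push_cast <;> linarith)
  · exact rowL P3_ok (by decide) (by decide) r_d325
        (by constructor <;> push_cast <;> linarith) (by constructor <;> push_cast <;> linarith)
        (by constructor <;> push_cast <;> linarith) (by constructor <;> push_cast <;> linarith)
  · exact rowL P3_ok (by decide) (by decide) r_d350
        (by constructor <;> push_cast <;> linarith) (by constructor <;> push_cast <;> linarith)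
        (by constructor <;> push_cast <;> linarith) (by constructor <;> push_cast <;> linarith)
  · exact rowL P3_ok (by decide) (by decide) r_d375
        (by constructor <;> push_cast <;> linarith) (by constructor <;> push_cast <;> linarith)
        (by constructor <;> push_cast <;> linarith) (by constructor <;> push_cast <;> linarith)
  · exact rowL P3_ok (by decide) (by decide) r_d400
        (by constructor <;> push_cast <;> linarith) (by constructor <;> push_cast <;> linarith)
        (by constructor <;> push_cast <;> linarith) (by constructor <;> push_cast <;> linarith)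
  · exact rowL P3_ok (by decide) (by decide) r_d450
        (by constructor <;> push_cast <;> linarith) (by constructor <;> push_cast <;> linarith)
        (by constructor <;> push_cast <;> linarith) (by constructor <;> push_cast <;> linarith)

theorem wm0 (h0 : 0 / 1000 ≤ x) (h : x ≤ 60 / 1000) : Win P3 T x ⟨y, lv y u⟩ ⟨a, lv a s⟩ := by
  have ⟨x0, x1, T0, T1, y0, y1, u0, u1, a0, a1, s0, s1⟩ := r
  obtain ⟨q, hq, hA⟩ := rowA P3_ok r_m0 (x := x) (y := y) (u := u) (T := T)

        (by constructor <;> push_cast <;> linarith) (by constructor <;> push_cast <;> linarith)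
        (by constructor <;> push_cast <;> linarith) (by constructor <;> push_cast <;> linarith)
  simp only [Lm0, List.mem_cons, List.not_mem_nil, or_false] at hq
  rcases hq with rfl | rfl
  · exact hA.ab (b100 r (by linarith) (by linarith))
  · exact hA.ab (b150 r (by linarith) (by linarith))

theorem wm1 (h0 : 60 / 1000 ≤ x) (h : x ≤ 140 / 1000) : Win P3 T x ⟨y, lv y u⟩ ⟨a, lv a s⟩ := by
  have ⟨x0, x1, T0, T1, y0, y1, u0, u1, a0, a1, s0, s1⟩ := r
  obtain ⟨q, hq, hA⟩ := rowA P3_ok r_m1 (x := x) (y := y) (u := u) (T := T)

        (by constructor <;> push_cast <;> linarith) (by constructor <;> push_cast <;> linarith)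
        (by constructor <;> push_cast <;> linarith) (by constructor <;> push_cast <;> linarith)
  simp only [Lm1, List.mem_cons, List.not_mem_nil, or_false] at hq
  rcases hq with rfl | rfl | rfl
  · exact hA.ab (b100 r (by linarith) (by linarith))
  · exact hA.ab (b150 r (by linarith) (by linarith))
  · exact hA.ab (b200 r (by linarith) (by linarith))

theorem wm2 (h0 : 140 / 1000 ≤ x) (h : x ≤ 240 / 1000) : Win P3 T x ⟨y, lv y u⟩ ⟨a, lv a s⟩ := by
  have ⟨x0, x1, T0, T1, y0, y1, u0, u1, a0, a1, s0, s1⟩ := r
  obtain ⟨q, hq, hA⟩ := rowA P3_ok r_m2 (x := x) (y := y) (u := u) (T := T)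

        (by constructor <;> push_cast <;> linarith) (by constructor <;> push_cast <;> linarith)
        (by constructor <;> push_cast <;> linarith) (by constructor <;> push_cast <;> linarith)
  simp only [Lm2, List.mem_cons, List.not_mem_nil, or_false] at hq
  rcases hq with rfl | rfl | rfl
  · exact hA.ab (b100 r (by linarith) (by linarith))
  · exact hA.ab (b150 r (by linarith) (by linarith))
  · exact hA.ab (b200 r (by linarith) (by linarith))

theorem wm3 (h0 : 240 / 1000 ≤ x) (h : x ≤ 340 / 1000) : Win P3 T x ⟨y, lv y u⟩ ⟨a, lv a s⟩ := by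
  have ⟨x0, x1, T0, T1, y0, y1, u0, u1, a0, a1, s0, s1⟩ := r
  obtain ⟨q, hq, hA⟩ := rowA P3_ok r_m3 (x := x) (y := y) (u := u) (T := T)

        (by constructor <;> push_cast <;> linarith) (by constructor <;> push_cast <;> linarith)
        (by constructor <;> push_cast <;> linarith) (by constructor <;> push_cast <;> linarith)
  simp only [Lm3, List.mem_cons, List.not_mem_nil, or_false] at hq
  rcases hq with rfl | rfl | rfl
  · exact hA.ab (b150 r (by linarith) (by linarith))
  · exact hA.ab (b200 r (by linarith) (by linarith))
  · exact hA.ab (b250 r (by linarith) (by linarith))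

theorem wm4 (h0 : 340 / 1000 ≤ x) (h : x ≤ 440 / 1000) : Win P3 T x ⟨y, lv y u⟩ ⟨a, lv a s⟩ := by
  have ⟨x0, x1, T0, T1, y0, y1, u0, u1, a0, a1, s0, s1⟩ := r
  obtain ⟨q, hq, hA⟩ := rowA P3_ok r_m4 (x := x) (y := y) (u := u) (T := T)

        (by constructor <;> push_cast <;> linarith) (by constructor <;> push_cast <;> linarith)
        (by constructor <;> push_cast <;> linarith) (by constructor <;> push_cast <;> linarith)
  simp only [Lm4, List.mem_cons, List.not_mem_nil, or_false] at hq
  rcases hq with rfl | rfl | rfl
  · exact hA.ab (b150 r (by linarith) (by linarith))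
  · exact hA.ab (b200 r (by linarith) (by linarith))
  · exact hA.ab (b250 r (by linarith) (by linarith))

theorem wm5 (h0 : 440 / 1000 ≤ x) (h : x ≤ 500 / 1000) : Win P3 T x ⟨y, lv y u⟩ ⟨a, lv a s⟩ := by
  have ⟨x0, x1, T0, T1, y0, y1, u0, u1, a0, a1, s0, s1⟩ := r
  obtain ⟨q, hq, hA⟩ := rowA P3_ok r_m5 (x := x) (y := y) (u := u) (T := T)

        (by constructor <;> push_cast <;> linarith) (by constructor <;> push_cast <;> linarith)
        (by constructor <;> push_cast <;> linarith) (by constructor <;> push_cast <;> linarith)
  simp only [Lm5, List.mem_cons, List.not_mem_nil, or_false] at hq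
  rcases hq with rfl | rfl | rfl | rfl
  · exact hA.ab (b200 r (by linarith) (by linarith))
  · exact hA.ab (b250 r (by linarith) (by linarith))
  · exact hA.ab (b300 r (by linarith) (by linarith))
  · exact hA.ab (b350 r (by linarith) (by linarith))

theorem wm6 (h0 : 500 / 1000 ≤ x) (h : x ≤ 550 / 1000) : Win P3 T x ⟨y, lv y u⟩ ⟨a, lv a s⟩ := by
  have ⟨x0, x1, T0, T1, y0, y1, u0, u1, a0, a1, s0, s1⟩ := r
  obtain ⟨q, hq, hA⟩ := rowA P3_ok r_m6 (x := x) (y := y) (u := u) (T := T)

        (by constructor <;> push_cast <;> linarith) (by constructor <;> push_cast <;> linarith)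
        (by constructor <;> push_cast <;> linarith) (by constructor <;> push_cast <;> linarith)
  simp only [Lm6, List.mem_cons, List.not_mem_nil, or_false] at hq
  rcases hq with rfl | rfl | rfl | rfl | rfl | rfl
  · exact hA.ab (b200 r (by linarith) (by linarith))
  · exact hA.ab (b250 r (by linarith) (by linarith))
  · exact hA.ab (b300 r (by linarith) (by linarith))
  · exact hA.ab (b350 r (by linarith) (by linarith))
  · exact hA.ab (b400 r (by linarith) (by linarith))
  · exact hA.ab (b450 r (by linarith) (by linarith))

theorem wm7 (h0 : 550 / 1000 ≤ x) (h : x ≤ 560 / 1000) : Win P3 T x ⟨y, lv y u⟩ ⟨a, lv a s⟩ := by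
  have ⟨x0, x1, T0, T1, y0, y1, u0, u1, a0, a1, s0, s1⟩ := r
  obtain ⟨q, hq, hA⟩ := rowA P3_ok r_m7 (x := x) (y := y) (u := u) (T := T)

        (by constructor <;> push_cast <;> linarith) (by constructor <;> push_cast <;> linarith)
        (by constructor <;> push_cast <;> linarith) (by constructor <;> push_cast <;> linarith)
  simp only [Lm7, List.mem_cons, List.not_mem_nil, or_false] at hq
  rcases hq with rfl | rfl | rfl | rfl | rfl | rfl | rfl
  · exact hA.ab (b200 r (by linarith) (by linarith))
  · exact hA.ab (b250 r (by linarith) (by linarith))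
  · exact hA.ab (b300 r (by linarith) (by linarith))
  · exact hA.ab (b350 r (by linarith) (by linarith))
  · exact hA.ab (b400 r (by linarith) (by linarith))
  · exact hA.ab (b450 r (by linarith) (by linarith))
  · exact hA.ab (b500 r (by linarith) (by linarith))

omit r in
theorem tqb {X0 d : ℝ} (h0 : X0 ≤ x) (h1 : x ≤ 600 / 1000) (hd : (600 / 1000 - X0) / (300 / 1000) = d) :
    P3.tq x ≤ d := by
  have ht := tq_le (P := P3) (x := x) (X := 600 / 1000) (r := 300 / 1000)
    (by norm_num [P3]) (by norm_num [P3]) (by norm_num) h1
  refine ht.trans ?_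
  rw [← hd]
  exact div_le_div_of_nonneg_right (by linarith) (by norm_num)

theorem fl1 (h0 : 560 / 1000 ≤ x) (h1 : x ≤ 580 / 1000) (hp : 0 < P3.tq x) (hk : lv y u ≤ -(295 / 10000)) :
    Win P3 T x ⟨y, lv y u⟩ ⟨a, lv a s⟩ := by
  have ⟨x0, x1, T0, T1, y0, y1, u0, u1, a0, a1, s0, s1⟩ := r
  have t2 : P3.tq x ≤ 2 / 15 := tqb h0 x1 (by norm_num)
  have t3 : T * P3.tq x ≤ 22 / 1000 * (2 / 15) := mul_le_mul (by linarith) t2 hp.le (by norm_num)
  refine Win.flip (n := 31900) (m := 23300) T0 x0 (by simp only [P3]; push_cast; linarith) hp ?_ ?_ ?_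
  · intro t t0 t1
    obtain ⟨e, he, hv⟩ := chkF4 r_f1 (by norm_num) (x := x) (y := y) (z := u) (w := t)
      (by push_cast; linarith) (by push_cast; linarith) (by push_cast; linarith)
      (by push_cast; linarith) (by push_cast; linarith) (by push_cast; linarith)
      (by push_cast; linarith) (by push_cast; linarith)
    rcases mem_f he hv with h2 | h2
    · exact h2
    · exfalso
      rw [E.val, ll_val] at h2
      unfold lv at hk
      simp only [E.c, E.val] at h2
      push_cast at h2
      linarith
  · intro t t0 t1
    have hv := chk1 r_g1 (by norm_num) (x := x) (y := a) (z := s) (w := t)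
        (by constructor <;> push_cast <;> linarith) (by constructor <;> push_cast <;> linarith)
        (by constructor <;> push_cast <;> linarith)
      (by constructor <;> push_cast <;> linarith)
    rw [gE_val, ll_val] at hv
    exact hv
  · have hpi := Real.pi_gt_d4
    push_cast
    linarith

theorem fl2 (h0 : 580 / 1000 ≤ x) (h1 : x ≤ 600 / 1000) (hp : 0 < P3.tq x) (hT : T ≤ 6 / 1000) (hy : y ≤ 120 / 1000) :
    Win P3 T x ⟨y, lv y u⟩ ⟨a, lv a s⟩ := by
  have ⟨x0, x1, T0, T1, y0, y1, u0, u1, a0, a1, s0, s1⟩ := r
  have t2 : P3.tq x ≤ 1 / 15 := tqb h0 x1 (by norm_num)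
  have t3 : T * P3.tq x ≤ 6 / 1000 * (1 / 15) := mul_le_mul (by linarith) t2 hp.le (by norm_num)
  refine Win.flip (n := 37500) (m := 23000) T0 x0 (by simp only [P3]; push_cast; linarith) hp ?_ ?_ ?_
  · intro t t0 t1
    obtain ⟨e, he, hv⟩ := chkF4 r_f2 (by norm_num) (x := x) (y := y) (z := u) (w := t)
      (by push_cast; linarith) (by push_cast; linarith) (by push_cast; linarith)
      (by push_cast; linarith) (by push_cast; linarith) (by push_cast; linarith)
      (by push_cast; linarith) (by push_cast; linarith)
    exact mem_f2 he hv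
  · intro t t0 t1
    have hv := chk1 r_g2 (by norm_num) (x := x) (y := a) (z := s) (w := t)
        (by constructor <;> push_cast <;> linarith) (by constructor <;> push_cast <;> linarith)
        (by constructor <;> push_cast <;> linarith)
      (by constructor <;> push_cast <;> linarith)
    rw [gE_val, ll_val] at hv
    exact hv
  · have hpi := Real.pi_gt_d4
    push_cast
    linarith

theorem fl3 (h0 : 580 / 1000 ≤ x) (h1 : x ≤ 600 / 1000) (hp : 0 < P3.tq x) (hk : lv y u ≤ -(155 / 10000)) :
    Win P3 T x ⟨y, lv y u⟩ ⟨a, lv a s⟩ := by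
  have ⟨x0, x1, T0, T1, y0, y1, u0, u1, a0, a1, s0, s1⟩ := r
  have t2 : P3.tq x ≤ 1 / 15 := tqb h0 x1 (by norm_num)
  have t3 : T * P3.tq x ≤ 22 / 1000 * (1 / 15) := mul_le_mul (by linarith) t2 hp.le (by norm_num)
  refine Win.flip (n := 32100) (m := 23000) T0 x0 (by simp only [P3]; push_cast; linarith) hp ?_ ?_ ?_
  · intro t t0 t1
    obtain ⟨e, he, hv⟩ := chkF4 r_f3 (by norm_num) (x := x) (y := y) (z := u) (w := t)
      (by push_cast; linarith) (by push_cast; linarith) (by push_cast; linarith)
      (by push_cast; linarith) (by push_cast; linarith) (by push_cast; linarith)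
      (by push_cast; linarith) (by push_cast; linarith)
    rcases mem_f he hv with h2 | h2
    · exact h2
    · exfalso
      rw [E.val, ll_val] at h2
      unfold lv at hk
      simp only [E.c, E.val] at h2
      push_cast at h2
      linarith
  · intro t t0 t1
    have hv := chk1 r_g2 (by norm_num) (x := x) (y := a) (z := s) (w := t)
        (by constructor <;> push_cast <;> linarith) (by constructor <;> push_cast <;> linarith)
        (by constructor <;> push_cast <;> linarith)
      (by constructor <;> push_cast <;> linarith)
    rw [gE_val, ll_val] at hv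
    exact hv
  · have hpi := Real.pi_gt_d4
    push_cast
    linarith

theorem fl4 (h0 : 580 / 1000 ≤ x) (h1 : x ≤ 600 / 1000) (hp : 0 < P3.tq x) (hT : T ≤ 12 / 1000) (hy : y ≤ 100 / 1000) :
    Win P3 T x ⟨y, lv y u⟩ ⟨a, lv a s⟩ := by
  have ⟨x0, x1, T0, T1, y0, y1, u0, u1, a0, a1, s0, s1⟩ := r
  have t2 : P3.tq x ≤ 1 / 15 := tqb h0 x1 (by norm_num)
  have t3 : T * P3.tq x ≤ 12 / 1000 * (1 / 15) := mul_le_mul (by linarith) t2 hp.le (by norm_num)
  refine Win.flip (n := 35400) (m := 23000) T0 x0 (by simp only [P3]; push_cast; linarith) hp ?_ ?_ ?_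
  · intro t t0 t1
    obtain ⟨e, he, hv⟩ := chkF4 r_f4 (by norm_num) (x := x) (y := y) (z := u) (w := t)
      (by push_cast; linarith) (by push_cast; linarith) (by push_cast; linarith)
      (by push_cast; linarith) (by push_cast; linarith) (by push_cast; linarith)
      (by push_cast; linarith) (by push_cast; linarith)
    exact mem_f2 he hv
  · intro t t0 t1
    have hv := chk1 r_g2 (by norm_num) (x := x) (y := a) (z := s) (w := t)
        (by constructor <;> push_cast <;> linarith) (by constructor <;> push_cast <;> linarith)
        (by constructor <;> push_cast <;> linarith)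
      (by constructor <;> push_cast <;> linarith)
    rw [gE_val, ll_val] at hv
    exact hv
  · have hpi := Real.pi_gt_d4
    push_cast
    linarith

theorem fl5 (h0 : 595 / 1000 ≤ x) (h1 : x ≤ 600 / 1000) (hp : 0 < P3.tq x) (hy : y ≤ 40 / 1000) (hk : lv y u ≤ 305 / 10000) :
    Win P3 T x ⟨y, lv y u⟩ ⟨a, lv a s⟩ := by
  have ⟨x0, x1, T0, T1, y0, y1, u0, u1, a0, a1, s0, s1⟩ := r
  have t2 : P3.tq x ≤ 1 / 60 := tqb h0 x1 (by norm_num)
  have t3 : T * P3.tq x ≤ 22 / 1000 * (1 / 60) := mul_le_mul (by linarith) t2 hp.le (by norm_num)
  refine Win.flip (n := 32930) (m := 22290) T0 x0 (by simp only [P3]; push_cast; linarith) hp ?_ ?_ ?_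
  · intro t t0 t1
    obtain ⟨e, he, hv⟩ := chkF4 r_f5 (by norm_num) (x := x) (y := y) (z := u) (w := t)
      (by push_cast; linarith) (by push_cast; linarith) (by push_cast; linarith)
      (by push_cast; linarith) (by push_cast; linarith) (by push_cast; linarith)
      (by push_cast; linarith) (by push_cast; linarith)
    rcases mem_f he hv with h2 | h2
    · exact h2
    · exfalso
      rw [E.val, ll_val] at h2
      unfold lv at hk
      simp only [E.c, E.val] at h2
      push_cast at h2
      linarith
  · intro t t0 t1
    have hv := chk1 r_g3 (by norm_num) (x := x) (y := a) (z := s) (w := t)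
        (by constructor <;> push_cast <;> linarith) (by constructor <;> push_cast <;> linarith)
        (by constructor <;> push_cast <;> linarith)
      (by constructor <;> push_cast <;> linarith)
    rw [gE_val, ll_val] at hv
    exact hv
  · have hpi := Real.pi_gt_d4
    push_cast
    linarith

/-- **The kind `3 | 3`, slot `0` of the lower `3`.** -/
theorem win (hp : 0 < P3.tq x) : Win P3 T x ⟨y, lv y u⟩ ⟨a, lv a s⟩ := by
  have ⟨x0, x1, T0, T1, y0, y1, u0, u1, a0, a1, s0, s1⟩ := r
  rcases le_total x (60 / 1000) with hm0 | hm0
  · exact wm0 r (by linarith) hm0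
  rcases le_total x (140 / 1000) with hm1 | hm1
  · exact wm1 r (by linarith) hm1
  rcases le_total x (240 / 1000) with hm2 | hm2
  · exact wm2 r (by linarith) hm2
  rcases le_total x (340 / 1000) with hm3 | hm3
  · exact wm3 r (by linarith) hm3
  rcases le_total x (440 / 1000) with hm4 | hm4
  · exact wm4 r (by linarith) hm4
  rcases le_total x (500 / 1000) with hm5 | hm5
  · exact wm5 r (by linarith) hm5
  rcases le_total x (550 / 1000) with hm6 | hm6
  · exact wm6 r (by linarith) hm6
  rcases le_total x (560 / 1000) with hm7 | hm7
  · exact wm7 r (by linarith) hm7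
  rcases le_total x (580 / 1000) with h8 | h8
  · rcases rowX P3_ok r_e1 (x := x) (y := y) (u := u) (T := T)
        (by constructor <;> push_cast <;> linarith) (by constructor <;> push_cast <;> linarith)
        (by constructor <;> push_cast <;> linarith) (by constructor <;> push_cast <;> linarith)
      with ⟨q, hq, hA⟩ | hk
    · exact hA.ab (bC r hm7 hq)
    · rw [exN_val] at hk
      push_cast at hk
      exact fl1 r hm7 h8 hp (by linarith)
  rcases le_total T (6 / 1000) with hT | hT
  · rcases le_total y (120 / 1000) with hy | hy
    · exact fl2 r h8 x1 hp hT hy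
    · rcases rowX P3_ok r_e2 (x := x) (y := y) (u := u) (T := T)
          (by constructor <;> push_cast <;> linarith) (by constructor <;> push_cast <;> linarith)
          (by constructor <;> push_cast <;> linarith) (by constructor <;> push_cast <;> linarith)
        with ⟨q, hq, hA⟩ | hk
      · exact hA.ab (bC r hm7 hq)
      · rw [exN_val] at hk
        push_cast at hk
        exact fl3 r h8 x1 hp (by linarith)
  rcases le_total T (12 / 1000) with hT2 | hT2
  · rcases le_total y (100 / 1000) with hy | hy
    · exact fl4 r h8 x1 hp hT2 hy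
    · rcases rowX P3_ok r_e3 (x := x) (y := y) (u := u) (T := T)
          (by constructor <;> push_cast <;> linarith) (by constructor <;> push_cast <;> linarith)
          (by constructor <;> push_cast <;> linarith) (by constructor <;> push_cast <;> linarith)
        with ⟨q, hq, hA⟩ | hk
      · exact hA.ab (bC r hm7 hq)
      · rw [exN_val] at hk
        push_cast at hk
        exact fl3 r h8 x1 hp (by linarith)
  rcases le_total x (595 / 1000) with h9 | h9
  · rcases rowX P3_ok r_e4 (x := x) (y := y) (u := u) (T := T)
        (by constructor <;> push_cast <;> linarith) (by constructor <;> push_cast <;> linarith)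
        (by constructor <;> push_cast <;> linarith) (by constructor <;> push_cast <;> linarith)
      with ⟨q, hq, hA⟩ | hk
    · exact hA.ab (bD r h8 hT2 hq)
    · rw [exN_val] at hk
      push_cast at hk
      exact fl3 r h8 x1 hp (by linarith)
  rcases le_total (40 / 1000) y with hy | hy
  · rcases rowX P3_ok r_e5 (x := x) (y := y) (u := u) (T := T)
        (by constructor <;> push_cast <;> linarith) (by constructor <;> push_cast <;> linarith)
        (by constructor <;> push_cast <;> linarith) (by constructor <;> push_cast <;> linarith)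
      with ⟨q, hq, hA⟩ | hk
    · exact hA.ab (bD r h8 hT2 hq)
    · rw [exN_val] at hk
      push_cast at hk
      exact fl3 r h8 x1 hp (by linarith)
  rcases le_total 0 u with hu | hu
  · rcases rowX P3_ok r_e6 (x := x) (y := y) (u := u) (T := T)
        (by constructor <;> push_cast <;> linarith) (by constructor <;> push_cast <;> linarith)
        (by constructor <;> push_cast <;> linarith) (by constructor <;> push_cast <;> linarith)
      with ⟨q, hq, hA⟩ | hk
    · exact hA.ab (bD r h8 hT2 hq)
    · rw [exN_val] at hk
      push_cast at hk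
      exact fl5 r h9 x1 hp hy (by linarith)
  · refine fl5 r h9 x1 hp hy ?_
    have h1 : 0 ≤ 16 / 100 * tr 0 (8 / 10) (5 / 100) (5 / 100) y :=
      mul_nonneg (by norm_num) (tr_mem _ _ _ _).1
    have h2 : lv y u ≤ 0 := mul_nonpos_of_nonpos_of_nonneg hu h1
    linarith

end K3

end KS

end Pool.Agent.Work.MP_b30479_gt.G2
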