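import Pool.Agent.Work.MP_b30479_gt.G2.WMSb
import Pool.Agent.Work.MP_b30479_gt.G2.WMSr1
import Pool.Agent.Work.MP_b30479_gt.G2.WMSr2
import Pool.Agent.Work.MP_b30479_gt.G2.WMSr3

/-!
# Mirrored paths: the kind `3 | 2`, slot `0` of the `3`
-/

namespace Pool.Agent.Work.MP_b30479_gt.G2

open VOL

namespace KS

open NumG KE

variable {P : Pt} {x y u T a s : ℝ}

/-- the ranges of the variables -/
structure R2 (x y u T a s : ℝ) : Prop where
  x0 : 0 ≤ x
  x1 : x ≤ 600 / 1000
  T0 : 0 ≤ T
  T1 : T ≤ 5 / 1000
  y0 : 0 ≤ y
  y1 : y ≤ 8 / 10
  u0 : -1 ≤ u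
  u1 : u ≤ 1
  a0 : 0 ≤ a
  a1 : a ≤ 8 / 10
  s0 : 0 ≤ s
  s1 : s ≤ 1

namespace K2



variable (r : R2 x y u T a s)

include r

theorem b1 (h : x ≤ 120 / 1000) : BB P2 T x ⟨a, kv a s⟩ q1 := by
  have ⟨x0, x1, T0, T1, y0, y1, u0, u1, a0, a1, s0, s1⟩ := r
  exact rowK P2_ok (by decide) (by decide) r_b1
      (by constructor <;> push_cast <;> linarith) (by constructor <;> push_cast <;> linarith)
      (by constructor <;> push_cast <;> linarith) (by constructor <;> push_cast <;> linarith)

theorem b2 (h0 : 120 / 1000 ≤ x) (h : x ≤ 380 / 1000) : BB P2 T x ⟨a, kv a s⟩ q2 := by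
  have ⟨x0, x1, T0, T1, y0, y1, u0, u1, a0, a1, s0, s1⟩ := r
  exact rowK P2_ok (by decide) (by decide) r_b2
      (by constructor <;> push_cast <;> linarith) (by constructor <;> push_cast <;> linarith)
      (by constructor <;> push_cast <;> linarith) (by constructor <;> push_cast <;> linarith)

theorem b3 (h0 : 380 / 1000 ≤ x) (h : x ≤ 500 / 1000) : BB P2 T x ⟨a, kv a s⟩ q3 := by
  have ⟨x0, x1, T0, T1, y0, y1, u0, u1, a0, a1, s0, s1⟩ := r
  exact rowK P2_ok (by decide) (by decide) r_b3
      (by constructor <;> push_cast <;> linarith) (by constructor <;> push_cast <;> linarith)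
      (by constructor <;> push_cast <;> linarith) (by constructor <;> push_cast <;> linarith)

theorem b4 (h0 : 500 / 1000 ≤ x) (h : x ≤ 550 / 1000) : BB P2 T x ⟨a, kv a s⟩ q4 := by
  have ⟨x0, x1, T0, T1, y0, y1, u0, u1, a0, a1, s0, s1⟩ := r
  exact rowK P2_ok (by decide) (by decide) r_b4
      (by constructor <;> push_cast <;> linarith) (by constructor <;> push_cast <;> linarith)
      (by constructor <;> push_cast <;> linarith) (by constructor <;> push_cast <;> linarith)

theorem b5 (h0 : 550 / 1000 ≤ x) {q : Qr} (hq : q ∈ M5) : BB P2 T x ⟨a, kv a s⟩ q := by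
  have ⟨x0, x1, T0, T1, y0, y1, u0, u1, a0, a1, s0, s1⟩ := r
  simp only [M5, List.mem_cons, List.not_mem_nil, or_false] at hq
  rcases hq with rfl | rfl | rfl | rfl | rfl | rfl | rfl
  · exact rowK P2_ok (by decide) (by decide) r_b5
        (by constructor <;> push_cast <;> linarith) (by constructor <;> push_cast <;> linarith)
        (by constructor <;> push_cast <;> linarith) (by constructor <;> push_cast <;> linarith)
  · exact rowK P2_ok (by decide) (by decide) r_b6
        (by constructor <;> push_cast <;> linarith) (by constructor <;> push_cast <;> linarith)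
        (by constructor <;> push_cast <;> linarith) (by constructor <;> push_cast <;> linarith)
  · exact rowK P2_ok (by decide) (by decide) r_b7
        (by constructor <;> push_cast <;> linarith) (by constructor <;> push_cast <;> linarith)
        (by constructor <;> push_cast <;> linarith) (by constructor <;> push_cast <;> linarith)
  · exact rowK P2_ok (by decide) (by decide) r_b8
        (by constructor <;> push_cast <;> linarith) (by constructor <;> push_cast <;> linarith)
        (by constructor <;> push_cast <;> linarith) (by constructor <;> push_cast <;> linarith)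
  · exact rowK P2_ok (by decide) (by decide) r_b9
        (by constructor <;> push_cast <;> linarith) (by constructor <;> push_cast <;> linarith)
        (by constructor <;> push_cast <;> linarith) (by constructor <;> push_cast <;> linarith)
  · exact rowK P2_ok (by decide) (by decide) r_b10
        (by constructor <;> push_cast <;> linarith) (by constructor <;> push_cast <;> linarith)
        (by constructor <;> push_cast <;> linarith) (by constructor <;> push_cast <;> linarith)
  · exact rowK P2_ok (by decide) (by decide) r_b11
        (by constructor <;> push_cast <;> linarith) (by constructor <;> push_cast <;> linarith)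
        (by constructor <;> push_cast <;> linarith) (by constructor <;> push_cast <;> linarith)

/-- the move at the same real part -/
theorem flip (h0 : 575 / 1000 ≤ x) (hp : 0 < P2.tq x) (h : y ≤ 100 / 1000 ∨ 100 / 1000 ≤ y ∧ u ≤ -(150 / 1000)) :
    Win P2 T x ⟨y, lv y u⟩ ⟨a, kv a s⟩ := by
  have ⟨x0, x1, T0, T1, y0, y1, u0, u1, a0, a1, s0, s1⟩ := r
  have ht := tq_le (P := P2) (x := x) (X := 600 / 1000) (r := 27 / 100)
    (by norm_num [P2]) (by norm_num [P2]) (by norm_num) x1
  have ht' : (600 / 1000 - x) / (27 / 100) ≤ 25 / 270 := by
    rw [div_le_iff₀ (by norm_num)]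
    linarith
  have t2 : P2.tq x ≤ 25 / 270 := ht.trans ht'
  have t3 : T * P2.tq x ≤ 5 / 1000 * (25 / 270) := mul_le_mul T1 t2 hp.le (by norm_num)
  refine Win.flip (n := 36800) (m := 24100) T0 x0 (by simp only [P2]; push_cast; linarith) hp ?_ ?_ ?_
  · intro t t0 t1
    rcases h with h | h
    · obtain ⟨e, he, hv⟩ := chkF4 r_f1 (by norm_num) (x := x) (y := y) (z := u) (w := t)
        (by push_cast; linarith) (by push_cast; linarith) (by push_cast; linarith)
        (by push_cast; linarith) (by push_cast; linarith) (by push_cast; linarith)
        (by push_cast; linarith) (by push_cast; linarith)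
      exact mem_f2 he hv
    · obtain ⟨e, he, hv⟩ := chkF4 r_f2 (by norm_num) (x := x) (y := y) (z := u) (w := t)
        (by push_cast; linarith) (by push_cast; linarith) (by push_cast; linarith [h.1])
        (by push_cast; linarith) (by push_cast; linarith) (by push_cast; linarith [h.2])
        (by push_cast; linarith) (by push_cast; linarith)
      exact mem_f2 he hv
  · intro t t0 t1
    have hv := chk1 r_g1 (by norm_num) (x := x) (y := a) (z := s) (w := t)
        (by constructor <;> push_cast <;> linarith) (by constructor <;> push_cast <;> linarith)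
        (by constructor <;> push_cast <;> linarith)
      (by constructor <;> push_cast <;> linarith)
    rw [gE_val, kk_val] at hv
    exact hv
  · have hpi := Real.pi_gt_d4
    push_cast
    linarith

/-- **The kind `3 | 2`, slot `0` of the `3`.** -/
theorem win (hp : 0 < P2.tq x) : Win P2 T x ⟨y, lv y u⟩ ⟨a, kv a s⟩ := by
  have ⟨x0, x1, T0, T1, y0, y1, u0, u1, a0, a1, s0, s1⟩ := r
  rcases le_total x (120 / 1000) with h1 | h1
  · obtain ⟨q, hq, hA⟩ := rowA P2_ok r_a1 (x := x) (y := y) (u := u) (T := T)

          (by constructor <;> push_cast <;> linarith) (by constructor <;> push_cast <;> linarith)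
          (by constructor <;> push_cast <;> linarith) (by constructor <;> push_cast <;> linarith)
    rw [M1, List.mem_singleton] at hq
    subst hq
    exact hA.ab (b1 r h1)
  rcases le_total x (380 / 1000) with h2 | h2
  · obtain ⟨q, hq, hA⟩ := rowA P2_ok r_a2 (x := x) (y := y) (u := u) (T := T)

          (by constructor <;> push_cast <;> linarith) (by constructor <;> push_cast <;> linarith)
          (by constructor <;> push_cast <;> linarith) (by constructor <;> push_cast <;> linarith)
    rw [M2, List.mem_singleton] at hq
    subst hq
    exact hA.ab (b2 r h1 h2)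
  rcases le_total x (500 / 1000) with h3 | h3
  · obtain ⟨q, hq, hA⟩ := rowA P2_ok r_a3 (x := x) (y := y) (u := u) (T := T)

          (by constructor <;> push_cast <;> linarith) (by constructor <;> push_cast <;> linarith)
          (by constructor <;> push_cast <;> linarith) (by constructor <;> push_cast <;> linarith)
    rw [M3, List.mem_singleton] at hq
    subst hq
    exact hA.ab (b3 r h2 h3)
  rcases le_total x (550 / 1000) with h4 | h4
  · obtain ⟨q, hq, hA⟩ := rowA P2_ok r_a4 (x := x) (y := y) (u := u) (T := T)

          (by constructor <;> push_cast <;> linarith) (by constructor <;> push_cast <;> linarith)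
          (by constructor <;> push_cast <;> linarith) (by constructor <;> push_cast <;> linarith)
    rw [M4, List.mem_singleton] at hq
    subst hq
    exact hA.ab (b4 r h3 h4)
  rcases le_total x (575 / 1000) with h5 | h5
  · obtain ⟨q, hq, hA⟩ := rowA P2_ok r_a5 (x := x) (y := y) (u := u) (T := T)

          (by constructor <;> push_cast <;> linarith) (by constructor <;> push_cast <;> linarith)
          (by constructor <;> push_cast <;> linarith) (by constructor <;> push_cast <;> linarith)
    exact hA.ab (b5 r h4 hq)
  rcases le_total y (100 / 1000) with h6 | h6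
  · exact flip r h5 hp (Or.inl h6)
  rcases le_total u (-(150 / 1000)) with h7 | h7
  · exact flip r h5 hp (Or.inr ⟨h6, h7⟩)
  · obtain ⟨q, hq, hA⟩ := rowA P2_ok r_a6 (x := x) (y := y) (u := u) (T := T)

          (by constructor <;> push_cast <;> linarith) (by constructor <;> push_cast <;> linarith)
          (by constructor <;> push_cast <;> linarith) (by constructor <;> push_cast <;> linarith)
    exact hA.ab (b5 r h4 hq)

end K2

end KS

end Pool.Agent.Work.MP_b30479_gt.G2
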