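import Pool.Agent.Work.MP_b30479_gt.G2.WM13M
import Pool.Agent.Work.MP_b30479_gt.G2.WLocA
import Pool.Agent.Work.MP_b30479_gt.G2.WLeft
import Pool.Agent.Work.MP_b30479_gt.G2.WMRK

/-!
# Mirrored paths: the kind `1 | 3`, slot `0` of the `3`
-/

namespace Pool.Agent.Work.MP_b30479_gt.G2

open Finset VOL Filter Topology

namespace SR

variable {M : ℕ} {b : Fin (M + 1) → ℤ} {zs : DD (tyW b) ⊕ ZZ (tyW b) → ℂ}
variable {R : Finset (DD (tyW b))} {nb : Finset (DD (tyW b) ⊕ ZZ (tyW b))}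
variable {z : DD (tyW b) ⊕ ZZ (tyW b) → ℂ} {p : DD (tyW b) → ℝ}
variable {h h' : Fin M} {i j j' : Fin (M + 1)} {s : Fin 3} {x c : ℝ}

theorem par_one3a (A : Adj h i 2 j) (hi : clsW b i = .one) (hj : clsW b j = .three) :
    wXM b h = 65 / 100 ∧ wcl b h = 13 / 100 ∧ wcr b h = 15 / 100 := by
  unfold wXM wcl wcr
  cases A
  rw [hi, hj]
  exact ⟨rfl, rfl, rfl⟩

theorem mhs_one3a (A : Adj h i 2 j) (hi : clsW b i = .one) (hj : clsW b j = .three) :
    mhs b h 2 = 1 / 2 := by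
  cases A
  simp [mhs, hi, hj]

/-- the other hinge of the `1` -/
theorem kp_of (hb : ClassW b) (L : LocA b zs) (A : Adj h i 2 j) (A' : Adj h' i 0 j')
    (hi : clsW b i = .one) (hj : clsW b j = .three) {X : ℂ} (P : NPos b zs nb p h' i 0 X) :
    M13.KP (Th b zs h i) X := by
  obtain ⟨w0, w1, -, -⟩ := L.X.win A A' hi
  obtain ⟨v0, v1, -, -⟩ := L.X.win A' A hi
  have w0 : (cw (clsW b j') (clsW b j)).t0 ≤ Th b zs h i := w0
  have w1 : Th b zs h i ≤ (cw (clsW b j') (clsW b j)).t1 := w1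
  have v0 : (cw (clsW b j) (clsW b j')).t0 ≤ Th b zs h' i := v0
  have v1 : Th b zs h' i ≤ (cw (clsW b j) (clsW b j')).t1 := v1
  have hk := okp_of hb A A' hi
  rw [hj] at w0 w1 v0 v1 hk
  have hre := P.re
  have hm : ∀ q, mhs b h' q = 16 / 100 := by
    intro q
    refine mhs_16 q ?_
    cases A' with
    | r => rw [hi]; decide
  have hab : |Th b zs h' i| ≤ 16 / 100 → |X.im| ≤ 16 / 100 * trh b h' X.re := fun hT =>
    P.abs_im hT fun _ => ⟨(hm _).le, (hm _).le⟩
  obtain ⟨q1, q2, q3⟩ : wXM b h' = (hp (outL b h') (clsW b j') .one (outR b h')).XM ∧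
      wcl b h' = (hp (outL b h') (clsW b j') .one (outR b h')).cl ∧
      wcr b h' = (hp (outL b h') (clsW b j') .one (outR b h')).cr := by
    cases A' with
    | r =>
      unfold wXM wcl wcr
      rw [hi]
      exact ⟨rfl, rfl, rfl⟩
  have wd : ∀ {XM XM' cl cl' cr cr' : ℝ}, 0 < cl' → 0 < cr' → 0 ≤ X.re → XM ≤ XM' → cl' ≤ cl →
      cr' ≤ cr → X.re ≤ XM → tr 0 XM cl cr X.re ≤ tr 0 XM' cl' cr' X.re := by
    intro XM XM' cl cl' cr cr' c0 d0 k0 a1 a2 a3 a4
    unfold tr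
    refine max_le_max le_rfl (min_le_min le_rfl (min_le_min ?_ ?_))
    · rw [sub_zero]
      exact div_le_div_of_nonneg_left k0 c0 a2
    · exact div_le_div₀ (by linarith only [a1, a4]) (by linarith only [a1]) d0 a3
  have te : ∀ y, trh b h' y = tr 0 (wXM b h') (wcl b h') (wcr b h') y := fun y => rfl
  rcases hP : clsW b j' <;> rw [hP] at w0 w1 v0 v1 hk q1 q2 q3
  · -- a `1`
    simp only [cw] at w0 w1 v0 v1
    have e1 : wXM b h' ≤ 86 / 100 ∧ wcl b h' = 15 / 100 ∧ wcr b h' = 20 / 100 := by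
      rw [q1, q2, q3]
      simp only [hp]
      split_ifs
      · exact ⟨by norm_num, rfl, rfl⟩
      · exact ⟨le_rfl, rfl, rfl⟩
    refine .one w0 w1 hre.1 (hre.2.trans e1.1) ?_
    refine (hab (by rw [abs_le]; constructor <;> linarith only [v0, v1])).trans ?_
    refine mul_le_mul_of_nonneg_left ?_ (by norm_num)
    rw [te, e1.2.1, e1.2.2]
    exact wd (by norm_num) (by norm_num) hre.1 e1.1 le_rfl le_rfl hre.2
  · -- a `2`
    simp only [cw] at w0 w1 v0 v1
    simp only [hp, hp1] at q1 q2 q3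
    refine .two w0 w1 hre.1 (hre.2.trans (by rw [q1])) ?_
    refine (hab (by rw [abs_le]; constructor <;> linarith only [v0, v1])).trans ?_
    rw [te, q1, q2, q3]
  · -- a `2` at an end
    simp only [cw] at w0 w1 v0 v1
    simp only [hp, hp1] at q1 q2 q3
    have h1 : X.re ≤ 70 / 100 := hre.2.trans (by rw [q1])
    have te' : ∀ y, trh b h' y = tr 0 (70 / 100) (14 / 100) (35 / 100) y := fun y => by
      rw [te, q1, q2, q3]
    cases P with
    | main y y0 y1 hn e hp =>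
      refine .em w0 w1 hre.1 h1 ⟨Th b zs h' i, by linarith only [v0], by linarith only [v1], ?_⟩
      rw [e, ← te']
    | real y y0 y1 hn e hp =>
      refine .em w0 w1 hre.1 h1 ⟨0, by norm_num, le_rfl, ?_⟩
      rw [e, zero_mul]
    | up y y0 y1 hn hr hT e hp =>
      refine .eu w0 w1 hre.1 h1 ?_
      rw [e, hm, ← te']
    | dn y y0 y1 hn hr hT e hp => linarith only [v1, hT]
  · exfalso
    unfold ML.okp at hk
    simp at hk
  · exfalso
    unfold ML.okp at hk
    simp at hk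
  · exfalso
    unfold ML.okp at hk
    simp at hk

/-- the inner variable of the `3` -/
theorem lp_of (m : {i : Fin (M + 1) // (tyW b i).isMid = true}) (hj : clsW b m.1 = .three)
    {X : ℂ} (I : IPos b zs p m X) :
    M13.LP (Tm b zs m) (p (.inr m)) X ∧ 0 ≤ X.re ∧ X.re ≤ 8 / 10 := by
  have y1' : (mp (clsW b m.1)).XM = 8 / 10 := by rw [hj]; rfl
  have etl : ∀ y, trm b m y = M13.τl y := fun y => trm3 m hj y
  cases I with
  | main y y0 y1 e hp =>
    rw [y1'] at y1
    refine ⟨.main ?_ hp, ?_, ?_⟩ <;> rw [e]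
    · rw [etl]
    · exact y0
    · exact y1
  | up y y0 y1 hT e hp =>
    rw [y1'] at y1
    rw [etl] at e hp
    refine ⟨.up hT ?_ ?_, ?_, ?_⟩ <;> rw [e]
    · exact hp
    · exact y0
    · exact y1
  | dn y y0 y1 hT e hp =>
    rw [y1'] at y1
    rw [etl] at e hp
    refine ⟨.dn hT ?_ ?_, ?_, ?_⟩ <;> rw [e]
    · exact hp
    · exact y0
    · exact y1

/-- windows of the inner variable -/
theorem mw_one3a {K : Cl} {m s : ℝ} (h0 : (mw .one K).t0 ≤ m) (h1 : m ≤ (mw .one K).t1)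
    (h2 : (mw .one K).s0 ≤ s) (h3 : s ≤ (mw .one K).s1) :
    -(90 / 1000) ≤ m ∧ m ≤ 5 / 1000 ∧ -(45 / 1000) ≤ s ∧ s ≤ 84 / 1000 := by
  cases K <;> simp only [mw] at h0 h1 h2 h3 <;> refine ⟨?_, ?_, ?_, ?_⟩ <;> linarith only [h0, h1, h2, h3]

/-- **Kind `1 | 3`**, the `3` at its slot `0`, from the two ends of the mirrored path. -/
theorem kind_one_three_of (hb : ClassW b) (L : LocA b zs)
    (eL : ∀ {x T Tl pl : ℝ} {k l w : ℂ}, M13.H x T Tl pl k l w → x ≤ 3 / 100 → False)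
    (eR : ∀ {x T Tl pl : ℝ} {k l w : ℂ}, M13.H x T Tl pl k l w → 63 / 100 ≤ x → False) :
    Kd b zs .one .three 2 := by
  intro R nb z p h i j x hN hM hq D hi hj
  obtain ⟨m, rfl⟩ : ∃ m : {i : Fin (M + 1) // (tyW b i).isMid = true}, m.1 = j :=
    ⟨⟨j, tyW_isMid (Or.inl hj)⟩, rfl⟩
  have Aj : Adj h m.1 0 i := D.adj.symm
  obtain ⟨hnn, I⟩ := hM.ipos hN m D.adj.symm D.nn
  obtain ⟨lp, l0, l1⟩ := lp_of m hj I
  obtain ⟨h1, j1, A1⟩ := D.adj.other' b (clsW_inner hb (Or.inl hi))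
  have kp := kp_of hb L D.adj A1 hi hj (hM.npos hb hN hq D.adj D.nn A1)
  obtain ⟨h2, j2, A2⟩ := D.adj.symm.other' b (clsW_inner hb (Or.inr (Or.inr hj)))
  obtain ⟨w0, w1, w2⟩ := (hM.npos hb hN hq D.adj.symm D.nn A2).w3 hb L.L A2 hj
  obtain ⟨m0, m1, m2, m3⟩ := L.X.mid m.2 Aj A2 hj
  rw [hi] at m0 m1 m2 m3
  obtain ⟨t0, t1, s0, s1⟩ := mw_one3a m0 m1 m2 m3
  have t0 : -(90 / 1000) ≤ Tm b zs m := t0
  have t1 : Tm b zs m ≤ 5 / 1000 := t1
  have s0 : -(45 / 1000) ≤ Tm b zs m - Th b zs h m.1 := s0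
  have s1 : Tm b zs m - Th b zs h m.1 ≤ 84 / 1000 := s1
  rw [D.Tj] at s0 s1
  have hX := par_one3a D.adj hi hj
  have h12 := mhs_one3a D.adj hi hj
  have x0 := D.x0
  have x1 := D.x1
  rw [hX.1] at x1
  have et : ∀ y, trh b h y = M13.τ y := fun y => trh_eq hX y
  have ev : Ow b z i 2 = M13.um x := by rw [D.own, h12, et]; rfl
  have eu : Ow b z m.1 0 = M13.up x := by
    have := D.opp
    rw [h12, et] at this
    exact this
  have e1 : ∀ c, tgo b zs h i c = M13.cm (Th b zs h i) c := fun c => by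
    unfold tgo M13.cm
    rw [et]
  have e2 : ∀ c, tgo b zs h m.1 c = M13.cp (Th b zs h i) c := fun c => by
    unfold tgo M13.cp
    rw [et, D.Tj, neg_mul]
  have etl : ∀ y, tgi b zs m y = M13.li (Tm b zs m) y := fun y => by
    have h3 := trm3 m hj y
    unfold trm at h3
    unfold tgi M13.li M13.τl
    rw [h3]
    rfl
  have K : M13.H x (Th b zs h i) (Tm b zs m) (p (.inr m)) (Ow b z i 0) (Ow b z m.1 1)
      (Ow b z m.1 2) := by
    refine ⟨x0, x1, kp, lp, l0, l1, t0, t1, by linarith only [s0], by linarith only [s1], w0, w1, w2, ?_, ?_, ?_, ?_⟩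
    · intro c c0 c1
      have g1 := keep_one (zs := zs) (nb := nb) (z := z) (p := p) (c := c) hb D.adj hi
      have g2 := keep_three0 (zs := zs) (nb := nb) (z := z) (p := p) (c := c) hb Aj hj
      have h4 := D.star hb hN.ok.1 hM c0 (by rw [hX.1]; exact c1) g1 g2
      rw [e1, e2, ev, eu, h12, et] at h4
      exact h4
    · intro c y c0 c1 y0 y1
      have g1 := keep_one (zs := zs) (nb := nb) (z := z) (p := p) (c := c) hb D.adj hi
      have g2 := inner_three0 (zs := zs) (nb := nb) (z := z) (p := p) (c := c) hb m Aj hj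
        hnn y0 y1
      have h4 := D.star hb hN.ok.1 hM c0 (by rw [hX.1]; exact c1) g1 g2
      rw [e1, e2, ev, eu, h12, et, etl] at h4
      have h5 : Ow b z i (2 : Fin 3).rev = Ow b z i 0 := rfl
      rw [h5] at h4
      linarith only [h4]
    · intro y y0 y1
      have h4 := hM.inner3 hb hN.ok.1 m Aj A2 hj hnn y0 y1 (FarG.keep h2 j2)
      rw [etl, eu, ofr_z A2] at h4
      have h5 : Ow b z m.1 (2 : Fin 3).rev.rev = Ow b z m.1 2 := rfl
      rw [h5] at h4
      linarith only [h4]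
    · intro y y0 y1
      have h4 := D.mstep hb hN.ok.1 hM y0 (by rw [hX.1]; exact y1)
      rw [OV_one hb hi, OV_one hb hi, OV_three hb hj, OV_three hb hj, h12, et, et,
        Function.update_self, Function.update_self,
        Function.update_of_ne (show (0 : Fin 3) ≠ 2 by decide),
        Function.update_of_ne (show (0 : Fin 3) ≠ 2 by decide)] at h4
      have er : (Fin.rev 2 : Fin 3) = 0 := rfl
      rw [er, Function.update_self, Function.update_self,
        Function.update_of_ne (show (1 : Fin 3) ≠ 0 by decide),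
        Function.update_of_ne (show (2 : Fin 3) ≠ 0 by decide),
        Function.update_of_ne (show (1 : Fin 3) ≠ 0 by decide),
        Function.update_of_ne (show (2 : Fin 3) ≠ 0 by decide), V1_comm,
        V1_comm (Ow b z i 0)] at h4
      exact h4
  rcases le_total x (3 / 100) with hx | hx
  · exact eL K hx
  rcases le_total x (63 / 100) with hx' | hx'
  · exact M13.mid K hx hx'
  · exact eR K hx'

end SR

end Pool.Agent.Work.MP_b30479_gt.G2
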