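import Pool.Agent.Work.MP_b30479_gt.G2.WM_1_3bE
import Pool.Agent.Work.NumI.TreeS

/-!
# Mirrored paths, kind `1 | 3`, the `3` at its slot `2`: rows
-/

namespace Pool.Agent.Work.MP_b30479_gt.G2.K3b

open NumG

theorem r_2Bg_q1 : Pool.Agent.Work.NumI.runE (Pool.Agent.Work.NumG.tstD [.of (f2 (PX (.q 7 20) su (.add vT (dB lo2)) (.neg (dB lo2)))), .of (f2 (PW (.q 7 20) su (.add vT (dB lo2)) (.neg (dB lo2))))])
    0 8452495639 0 0 59 51539607552 54975581390 0 2954937501 0 44667659880 0 34359738369
    0x20408001040800201081020308100040604082081020100100840810004080c20406000810400204080c201080410408102030010200021008200042040800204000c20202102030810184080c2030010204000018404040020410203080820404081040810002081020406041040800204080c204060408200102040008204080c201040008408102000810183020420406102030810184080c20300102000604080040820406101040808102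
    0x40810002081000402102040610200080c0810410204020020108102000810184080c001020800408101840210082081020406002040004201040008408100040800184040420406102030810184060020408000030808080040820406101040808102 = true := by
  decide +kernel

theorem r_2Bg_q2 : Pool.Agent.Work.NumI.runE (Pool.Agent.Work.NumG.tstD [.of (f2 (PX (.q 7 20) su (.add vT (dB lo2)) (.neg (dB lo2)))), .of (f2 (PW (.q 7 20) su (.add vT (dB lo2)) (.neg (dB lo2))))])
    0 8452495639 0 0 59 51539607552 54975581390 0 2954937501 0 44667659880 34359738369 68719476738
    0x40810002081000402102040610200080c0810410204020020108102000810184080c001020800408101840210082081020406002040004201040008408100040800184040420406102030810184060020408000030808080040820406101040808102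
    0x0 = true := by
  decide +kernel

theorem r_2Bg : chkD [.of (f2 (PX (.q 7 20) su (.add vT (dB lo2)) (.neg (dB lo2)))), .of (f2 (PW (.q 7 20) su (.add vT (dB lo2)) (.neg (dB lo2))))]
    10000 0 1230 0 0 60 7500 8000 0 430 0 6500 0 10000
    0x1020400082040010084081018408002030204104081008008042040800204061020300040820010204061008402082040810180081000108041000210204001020006101010810184080c20406101800810200000c202020010208101840410202040820408001040810203020820400102040610203020410008102000410204061008200042040810004080c18102102030810184080c204061018008100030204002041020308082040408103 = true :=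
  Pool.Agent.Work.NumI.okB_of rfl rfl rfl rfl rfl rfl rfl rfl rfl rfl rfl rfl
    (Pool.Agent.Work.NumI.runE_split3 rfl rfl rfl
      r_2Bg_q1
      r_2Bg_q2)

end Pool.Agent.Work.MP_b30479_gt.G2.K3b
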