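import Pool.Agent.Work.MP_b30479_gt.G2.WMMD
import Pool.Agent.Work.MP_b30479_gt.G2.WMGd

/-!
# The kind `2 | 3` (the `3` at its slot `0`): expressions

Variables of the rows of the `3`: position `x` and height `T` of the saddle point of the hinge,
position and height of the inner variable; of the rows of the `2`: `x`, `T`, position of the other
hinge and its height as a multiple of the ramp function.
-/

namespace Pool.Agent.Work.MP_b30479_gt.G2

open Finset VOL Filter Topology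

namespace K23

open NumG

/-- linear plus piecewise linear function -/
def pq (x : E) (y0 n : ℤ) (d : ℕ) (l : List (ℤ × ℤ × ℕ)) : E := .add (E.pl x y0 l) (.mul (.q n d) x)
/-- height of the mirrored path, variable `0` -/
def hq : E := .mul (.q 3 10) (E.tr 600 120 270 (.var 0))
/-- the same on the right ramp -/
def hr : E := .mul (.q 10 9) (.sub (.q 3 5) (.var 0))
/-- ramp function of the inner variable -/
def t8 (i : ℕ) : E := E.tr 800 50 50 (.var i)
/-- value of a digit `3` minus that of a digit `2` -/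
def Vf (x t y s : E) : E := .add (E.Va x t y s) (.add (.uw y s) (.mul .pi s))
/-- gain of the response `3/10` in the other slot, inner variable on the main path of height `T` -/
def psM (y T : E) : E := .add (pq y 86 (-5) 2 [(12, 17, 26), (25, 236, 325), (50, -33, 25), (75, 21, 25), (100, 12, 25), (125, 8, 25), (150, 7, 10), (200, 43, 50), (250, 22, 25)]) (.mul (pq y 2600 (-325) 6 [(12, 625, 78), (25, 218, 65), (50, 50, 1), (75, -16, 5), (100, -18, 5), (150, -12, 5), (200, -8, 5), (250, -12, 5)]) (.sub (.q 5 1000) T))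
/-- the same, inner variable on the upper mirrored path (with the penalty) -/
def psU (y T : E) : E := .sub (pq y 100 53 5 [(50, -103, 10), (100, 1, 4), (200, 17, 20), (300, -7, 5), (750, -17, 1)]) (.mul (pq y 2500 (-125) 1 [(6, 125, 3), (12, 250, 3), (300, -5, 9), (750, 5, 9)]) T)
def ph0 : E := .add (pq (.var 0) (-60) (-5) 1 [(50, -12, 5), (100, -11, 10), (120, 69, 8), (200, 11, 40), (250, -3, 5), (300, 1, 5), (330, 25, 8), (370, 1, 24)]) (.var 1)
def ph1 : E := .add (pq (.var 0) (-2710) 18 5 [(450, -2, 5), (500, -1, 10), (550, -1, 25)]) (.mul (.q 3 5) (.var 1))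
def ph3 : E := .add (pq (.var 0) (-2140) 7 2 [(550, 9, 25)]) (.mul (.q 3 5) (.var 1))
def ph4 : E := .add (pq (.var 0) (-1040) 8 5 [(450, 1, 5), (550, -2, 5)]) (.var 1)
def ph5 : E := .add (pq (.var 0) (-1970) 7 2 [(550, -1, 10)]) (.mul (.q 3 2) (.var 1))
/-- gain of the `3`, inner variable kept at height `t`; target `x' + i t'` -/
def kp (h x' t' t ph : E) : E := .sub (.sub (E.Va x' t' (.var 2) t) (E.Va (.var 0) h (.var 2) t)) ph
/-- gain of the `3`, inner variable moved to `3/10` -/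
def rs (h x' t' t ps ph : E) : E :=
  .sub (.add (.sub (Vf x' t' (.q 3 10) (.var 3)) (Vf (.var 0) h (.var 2) t)) ps) ph
/-- heights of the inner variable: main path, upper mirrored path -/
def tm : E := .mul (.var 3) (t8 2)
def tu : E := .mul (.q 4 25) (t8 2)
/-- height of the hinge in the slot `2` -/
def wt : E := .mul (.mul (.q 4 25) (.var 3)) (E.tr 650 130 290 (.var 2))
/-- difference of the values in the slot `2`, inner variable moved to `3/10` -/
def psE (t ps : E) : E := .sub (E.dV2 (.q 3 10) (.var 1) (.var 0) t (.var 2) wt) ps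
def dV2x (x' t' x t y k : E) : E :=
  .sub (.add (.sub (.ux (.add x' y) (.add t' k)) (.ux (.add x y) (.add t k)))
    (.mul (.q 2 1) (.sub (.ux x t) (.ux x' t'))))
    (.mul .pi (.add (.sub (.mul (.sub x' y) (.sub t' k)) (.mul (.sub x y) (.sub t k)))
      (.mul (.q 1 2) (.sub t' t))))
def psX (t ps : E) : E := .sub (dV2x (.q 3 10) (.var 1) (.var 0) t (.var 2) wt) ps
/-- derivative of the value of the `3`, left of the hinge and below it -/
def d3n (x t y s m : E) : D :=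
  .sub (.sub (.add (.xw (.sub y x) (.sub s t))
    (.of (.mul m (.add (.yw (.add (.sub y x) (.q 1 1)) (.sub s t)) .pi)))) (D.dU x t m))
    (.of (.mul .pi (.add s (.mul m y))))
/-- first order terms of the `3` -/
def D3 (t : E) : D := .mul (.of (.q 21 100)) (D.dh3a (.var 0) hr (.var 2) t (.q (-10) 9))
def D3n (t : E) : D := .mul (.of (.q 21 100)) (d3n (.var 0) hr (.var 2) t (.q (-10) 9))
/-- height of the other hinge of the `2` -/
def kt : E := .mul (.mul (.q 4 25) (.var 3)) (E.tr 800 100 290 (.var 2))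
/-- gain of the `2` plus the penalty -/
def g2 (h x' t' ph : E) : E :=
  .add (.add (E.dV2 x' t' (.var 0) (.neg h) (.var 2) kt) (.mul (.mul (.q 2 1) .pi) h)) ph
/-- first order terms of the `2` and of the penalty -/
def D2 : D := .mul (.of (.q 21 100))
  (.add (D.dh2 (.var 0) (.neg hr) (.var 2) kt (.q 10 9)) (.of (.mul .pi (.q 20 9))))

/-- one expression -/
theorem dk1 {e : D} {N o0 o1 o2 o3 fuel l0 h0 l1 h1 l2 h2 l3 h3 c : ℕ}
    (h : chkD [e] N o0 o1 o2 o3 fuel l0 h0 l1 h1 l2 h2 l3 h3 c = true) (hN : 0 < N) {x y z w : ℝ}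
    (hx : ((l0 : ℝ) - o0) / N ≤ x ∧ x ≤ ((h0 : ℝ) - o0) / N)
    (hy : ((l1 : ℝ) - o1) / N ≤ y ∧ y ≤ ((h1 : ℝ) - o1) / N)
    (hz : ((l2 : ℝ) - o2) / N ≤ z ∧ z ≤ ((h2 : ℝ) - o2) / N)
    (hw : ((l3 : ℝ) - o3) / N ≤ w ∧ w ≤ ((h3 : ℝ) - o3) / N) : 0 < e.val [x, y, z, w] := by
  obtain ⟨f, hf, hv⟩ := chkD4 h hN hx.1 hx.2 hy.1 hy.2 hz.1 hz.2 hw.1 hw.2
  rw [List.mem_singleton] at hf
  rwa [hf] at hv

/-- two expressions -/
theorem dk2 {e e' : D} {N o0 o1 o2 o3 fuel l0 h0 l1 h1 l2 h2 l3 h3 c : ℕ}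
    (h : chkD [e, e'] N o0 o1 o2 o3 fuel l0 h0 l1 h1 l2 h2 l3 h3 c = true) (hN : 0 < N)
    {x y z w : ℝ}
    (hx : ((l0 : ℝ) - o0) / N ≤ x ∧ x ≤ ((h0 : ℝ) - o0) / N)
    (hy : ((l1 : ℝ) - o1) / N ≤ y ∧ y ≤ ((h1 : ℝ) - o1) / N)
    (hz : ((l2 : ℝ) - o2) / N ≤ z ∧ z ≤ ((h2 : ℝ) - o2) / N)
    (hw : ((l3 : ℝ) - o3) / N ≤ w ∧ w ≤ ((h3 : ℝ) - o3) / N) :
    0 < e.val [x, y, z, w] ∨ 0 < e'.val [x, y, z, w] := by
  obtain ⟨f, hf, hv⟩ := chkD4 h hN hx.1 hx.2 hy.1 hy.2 hz.1 hz.2 hw.1 hw.2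
  rw [List.mem_cons, List.mem_singleton] at hf
  rcases hf with rfl | rfl
  · exact Or.inl hv
  · exact Or.inr hv

/-! ### values -/

/-- ramp functions: mirrored path, inner variable, hinge in the slot `2`, other hinge of the `2` -/
noncomputable def τh (x : ℝ) : ℝ := tr 0 (6 / 10) (12 / 100) (27 / 100) x
noncomputable def τl (x : ℝ) : ℝ := tr 0 (8 / 10) (5 / 100) (5 / 100) x
noncomputable def τw (x : ℝ) : ℝ := tr 0 (65 / 100) (13 / 100) (29 / 100) x
noncomputable def τk (x : ℝ) : ℝ := tr 0 (8 / 10) (1 / 10) (29 / 100) x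

/-- the bounds of the gains -/
noncomputable def sM (y T : ℝ) : ℝ := (psM (.var 0) (.var 1)).val [y, T, 0, 0]
noncomputable def sU (y T : ℝ) : ℝ := (psU (.var 0) (.var 1)).val [y, T, 0, 0]
noncomputable def f0 (x T : ℝ) : ℝ := ph0.val [x, T, 0, 0]
noncomputable def f1 (x T : ℝ) : ℝ := ph1.val [x, T, 0, 0]
noncomputable def f3 (x T : ℝ) : ℝ := ph3.val [x, T, 0, 0]
noncomputable def f4 (x T : ℝ) : ℝ := ph4.val [x, T, 0, 0]
noncomputable def f5 (x T : ℝ) : ℝ := ph5.val [x, T, 0, 0]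

variable {x T y w : ℝ}

theorem f0_val : ph0.val [x, T, y, w] = f0 x T := rfl
theorem f1_val : ph1.val [x, T, y, w] = f1 x T := rfl
theorem f3_val : ph3.val [x, T, y, w] = f3 x T := rfl
theorem f4_val : ph4.val [x, T, y, w] = f4 x T := rfl
theorem f5_val : ph5.val [x, T, y, w] = f5 x T := rfl
theorem sM_val : (psM (.var 2) (.var 3)).val [x, T, y, w] = sM y w := rfl
theorem sM_val0 : (psM (.var 0) (.var 1)).val [x, T, y, w] = sM x T := rfl
theorem sU_val : (psU (.var 2) (.var 3)).val [x, T, y, w] = sU y w := rfl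
theorem sU_val0 : (psU (.var 0) (.var 1)).val [x, T, y, w] = sU x T := rfl

theorem e0_val : (E.var 0).val [x, T, y, w] = x := rfl
theorem e1_val : (E.var 1).val [x, T, y, w] = T := rfl
theorem e2_val : (E.var 2).val [x, T, y, w] = y := rfl
theorem e3_val : (E.var 3).val [x, T, y, w] = w := rfl

theorem hq_val : hq.val [x, T, y, w] = 3 / 10 * τh x := by
  unfold hq τh
  rw [E.val, E.tr_val (by norm_num) (by norm_num) (by norm_num), e0_val]
  norm_num [E.val]

theorem hr_val : hr.val [x, T, y, w] = 10 / 9 * (3 / 5 - x) := by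
  unfold hr
  simp only [E.val, KE.v0]
  norm_num

theorem t82_val : (t8 2).val [x, T, y, w] = τl y := by
  unfold t8 τl
  rw [E.tr_val (by norm_num) (by norm_num) (by norm_num), e2_val]
  norm_num

theorem t80_val : (t8 0).val [x, T, y, w] = τl x := by
  unfold t8 τl
  rw [E.tr_val (by norm_num) (by norm_num) (by norm_num), e0_val]
  norm_num

theorem tm_val : tm.val [x, T, y, w] = w * τl y := by
  unfold tm
  rw [E.val, t82_val, e3_val]

theorem tu_val : tu.val [x, T, y, w] = 16 / 100 * τl y := by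
  unfold tu
  rw [E.val, t82_val]
  norm_num [E.val]

theorem wt_val : wt.val [x, T, y, w] = w * (16 / 100 * τw y) := by
  unfold wt τw
  rw [E.val, E.val, E.tr_val (by norm_num) (by norm_num) (by norm_num), e2_val, e3_val]
  norm_num [E.val]
  ring

theorem kt_val : kt.val [x, T, y, w] = w * (16 / 100 * τk y) := by
  unfold kt τk
  rw [E.val, E.val, E.tr_val (by norm_num) (by norm_num) (by norm_num), e2_val, e3_val]
  norm_num [E.val]
  ring

theorem Vf_val {a t b s : E} {xs : List ℝ} :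
    (Vf a t b s).val xs = KE.VF ⟨a.val xs, t.val xs⟩ ⟨b.val xs, s.val xs⟩ := by
  unfold Vf
  rw [E.val, KE.eVA_val]
  unfold KE.VF KE.VA
  simp only [E.val, NumU.UU_uu, Complex.sub_im, Complex.sub_re, Complex.mul_im]
  ring

theorem kp_val {h x' t' t ph : E} : (kp h x' t' t ph).val [x, T, y, w] =
    KE.VA ⟨x'.val [x, T, y, w], t'.val [x, T, y, w]⟩ ⟨y, t.val [x, T, y, w]⟩ -
      KE.VA ⟨x, h.val [x, T, y, w]⟩ ⟨y, t.val [x, T, y, w]⟩ - ph.val [x, T, y, w] := by
  unfold kp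
  rw [E.val, E.val, KE.eVA_val, KE.eVA_val, e0_val, e2_val]

theorem rs_val {h x' t' t ps ph : E} : (rs h x' t' t ps ph).val [x, T, y, w] =
    KE.VF ⟨x'.val [x, T, y, w], t'.val [x, T, y, w]⟩ ⟨3 / 10, w⟩ -
      KE.VF ⟨x, h.val [x, T, y, w]⟩ ⟨y, t.val [x, T, y, w]⟩ + ps.val [x, T, y, w] -
      ph.val [x, T, y, w] := by
  unfold rs
  rw [E.val, E.val, E.val, Vf_val, Vf_val, e0_val, e2_val, e3_val]
  norm_num [E.val]

theorem psE_val {t ps : E} : (psE t ps).val [x, T, y, w] =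
    V2 ⟨3 / 10, T⟩ ⟨y, w * (16 / 100 * τw y)⟩ -
      V2 ⟨x, t.val [x, T, y, w]⟩ ⟨y, w * (16 / 100 * τw y)⟩ - ps.val [x, T, y, w] := by
  unfold psE
  rw [E.val, E.dV2_val, e0_val, e1_val, e2_val, wt_val]
  norm_num [E.val]

theorem dV2x_val {x' t' a t b k : E} {xs : List ℝ} :
    (dV2x x' t' a t b k).val xs = (E.dV2 x' t' a t b k).val xs := rfl

theorem psX_val {t ps : E} : (psX t ps).val [x, T, y, w] = (psE t ps).val [x, T, y, w] := rfl

theorem g2_val {h x' t' ph : E} : (g2 h x' t' ph).val [x, T, y, w] =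
    V2 ⟨x'.val [x, T, y, w], t'.val [x, T, y, w]⟩ ⟨y, w * (16 / 100 * τk y)⟩ -
      V2 ⟨x, -h.val [x, T, y, w]⟩ ⟨y, w * (16 / 100 * τk y)⟩ +
      2 * Real.pi * h.val [x, T, y, w] + ph.val [x, T, y, w] := by
  unfold g2
  rw [E.val, E.val, E.dV2_val, e0_val, e2_val, kt_val]
  norm_num [E.val]

/-- derivative of the value of the `3`, the inner variable left of the hinge and below it -/
theorem d3n_val {a t b s m : E} {xs : List ℝ} (hs : s.val xs - t.val xs < 0) :
    (d3n a t b s m).val xs = dh3a ⟨a.val xs, t.val xs⟩ ⟨b.val xs, s.val xs⟩ (m.val xs) := by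
  unfold d3n dh3a dU
  have e1 : (⟨b.val xs, s.val xs⟩ : ℂ) - ⟨a.val xs, t.val xs⟩ =
      ⟨b.val xs - a.val xs, s.val xs - t.val xs⟩ := rfl
  have h1 := NumX.yy_add_one (b.val xs - a.val xs) (s.val xs - t.val xs)
  have h2 : NumX.sg (s.val xs - t.val xs) = -1 := by
    unfold NumX.sg
    rw [if_neg (not_lt.2 hs.le), if_pos hs]
  rw [h2] at h1
  have h3 : NumX.yy (b.val xs - a.val xs) (s.val xs - t.val xs) =
      NumX.yy (b.val xs - a.val xs + 1) (s.val xs - t.val xs) + Real.pi := by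
    rw [h1]; ring
  rw [e1]
  simp only [D.val, E.val, D.dU_val, dU, LL_lnA_all, NumX.YY_yy]
  rw [h3]
  norm_num
  ring

theorem D3_val {t : E} : (D3 t).val [x, T, y, w] = 21 / 100 *
    dh3a ⟨x, 10 / 9 * (3 / 5 - x)⟩ ⟨y, t.val [x, T, y, w]⟩ (-(10 / 9)) := by
  unfold D3
  rw [D.val, D.dh3a_val, e0_val, e2_val, hr_val]
  norm_num [D.val, E.val]

theorem D3n_val {t : E} (ht : t.val [x, T, y, w] - 10 / 9 * (3 / 5 - x) < 0) :
    (D3n t).val [x, T, y, w] = 21 / 100 *
    dh3a ⟨x, 10 / 9 * (3 / 5 - x)⟩ ⟨y, t.val [x, T, y, w]⟩ (-(10 / 9)) := by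
  unfold D3n
  rw [D.val, d3n_val (by rw [hr_val]; exact ht), e0_val, e2_val, hr_val]
  norm_num [D.val, E.val]

theorem D2_val : D2.val [x, T, y, w] = 21 / 100 *
    (dh2 ⟨x, -(10 / 9 * (3 / 5 - x))⟩ ⟨y, w * (16 / 100 * τk y)⟩ (10 / 9) +
      Real.pi * (20 / 9)) := by
  unfold D2
  simp only [D.val]
  rw [D.dh2_val, e0_val, e2_val, kt_val]
  have e : hr.neg.val [x, T, y, w] = -(10 / 9 * (3 / 5 - x)) := by rw [E.val, hr_val]
  rw [e]
  norm_num [E.val]

end K23

end Pool.Agent.Work.MP_b30479_gt.G2
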