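import Pool.Agent.Work.MP_b30479_gt.G2.WMGd
import Pool.Agent.Work.MP_b30479_gt.G2.WMRL
import Pool.Agent.Work.MP_b30479_gt.G2.WMMD
import Pool.Agent.Work.MP_b30479_gt.G2.WM_2_3aE
import Pool.Agent.Work.MP_b30479_gt.G2.WM_1_3bF1
import Pool.Agent.Work.MP_b30479_gt.G2.WM_1_3bF2
import Pool.Agent.Work.MP_b30479_gt.G2.WM_1_3bF3
import Pool.Agent.Work.MP_b30479_gt.G2.WM_1_3bF4
import Pool.Agent.Work.MP_b30479_gt.G2.WM_1_3bF5
import Pool.Agent.Work.MP_b30479_gt.G2.WM_1_3bF6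
import Pool.Agent.Work.MP_b30479_gt.G2.WM_1_3bF7
import Pool.Agent.Work.MP_b30479_gt.G2.WM_1_3bF8
import Pool.Agent.Work.MP_b30479_gt.G2.WM_1_3bF9
import Pool.Agent.Work.MP_b30479_gt.G2.WM_1_3bF10
import Pool.Agent.Work.MP_b30479_gt.G2.WM_1_3bF11
import Pool.Agent.Work.MP_b30479_gt.G2.WM_1_3bF12
import Pool.Agent.Work.MP_b30479_gt.G2.WM_1_3bF13
import Pool.Agent.Work.MP_b30479_gt.G2.WM_1_3bF14
import Pool.Agent.Work.MP_b30479_gt.G2.WM_1_3bF15
import Pool.Agent.Work.MP_b30479_gt.G2.WM_1_3bF16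
import Pool.Agent.Work.MP_b30479_gt.G2.WM_1_3bF17
import Pool.Agent.Work.MP_b30479_gt.G2.WM_1_3bF18
import Pool.Agent.Work.MP_b30479_gt.G2.WM_1_3bF19
import Pool.Agent.Work.MP_b30479_gt.G2.V3MidRA
import Pool.Agent.Work.MP_b30479_gt.G2.WLocA
import Pool.Agent.Work.MP_b30479_gt.G2.WMGc
import Pool.Agent.Work.MP_b30479_gt.G2.WMMF
import Pool.Agent.Work.MP_b30479_gt.G2.WMR2
import Pool.Agent.Work.MP_b30479_gt.G2.WRng
import Pool.Agent.Work.MP_b30479_gt.G2.WTab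

/-!
# Mirrored paths, kind `1 | 3`, the `3` at its slot `2`: losses in the slot `0`

The inner variable of the `3` is moved from `y + i a` to `m + i T`: lower bounds of the difference of
the values without the hinge in the slot `2`, for every position `q + i γ` of the hinge in the
slot `0`.
-/

namespace Pool.Agent.Work.MP_b30479_gt.G2.K3b

open VOL NumG
open NumU (uu UU_uu)

variable {y T q θ γ : ℝ}

/-! ### values -/

theorem v0_val : vy.val [y, T, q, θ] = y := rfl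
theorem v1_val : vT.val [y, T, q, θ] = T := rfl
theorem v2_val : (E.var 2).val [y, T, q, θ] = q := rfl
theorem v3_val : (E.var 3).val [y, T, q, θ] = θ := rfl
theorem lkL2 : NumI.lkR [y, T, q, θ] 2 = q := rfl
theorem lkL3 : NumI.lkR [y, T, q, θ] 3 = θ := rfl

theorem su_val : su.val [y, T, q, θ] = 16 / 100 * K23.τl y := by
  unfold su f8 K23.τl
  rw [E.val, KR.tr_num (a := 8 / 10) (b := 5 / 100) (c := 5 / 100) (by norm_num) (by norm_num)
    (by norm_num) (by norm_num) (by norm_num) (by norm_num), v0_val]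
  simp only [E.val]
  push_cast
  norm_num

theorem hi1_val : hi1.val [y, T, q, θ] = 1 / 2 * tr 0 (65 / 100) (13 / 100) (15 / 100) q := by
  unfold hi1
  rw [E.val, KR.tr_num (a := 65 / 100) (b := 13 / 100) (c := 15 / 100) (by norm_num) (by norm_num)
    (by norm_num) (by norm_num) (by norm_num) (by norm_num), v2_val]
  simp only [E.val]
  push_cast
  norm_num

theorem hi2_val : hi2.val [y, T, q, θ] = 3 / 10 * tr 0 (60 / 100) (12 / 100) (27 / 100) q := by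
  unfold hi2
  rw [E.val, KR.tr_num (a := 60 / 100) (b := 12 / 100) (c := 27 / 100) (by norm_num) (by norm_num)
    (by norm_num) (by norm_num) (by norm_num) (by norm_num), v2_val]
  simp only [E.val]
  push_cast
  norm_num

theorem lo2_val : lo2.val [y, T, q, θ] = 4 / 25 * tr 0 (60 / 100) (12 / 100) (27 / 100) q := by
  unfold lo2
  rw [E.val, KR.tr_num (a := 60 / 100) (b := 12 / 100) (c := 27 / 100) (by norm_num) (by norm_num)
    (by norm_num) (by norm_num) (by norm_num) (by norm_num), v2_val]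
  simp only [E.val]
  push_cast
  norm_num

theorem lo1_val : lo1.val [y, T, q, θ] =
    min (min (4 / 3 * q) (16 / 100)) (min (16 / 100 - 45 / 170 * (q - 33 / 100))
      (115 / 150 * (65 / 100 - q))) := by
  unfold lo1
  simp only [E.mn_val, E.val]
  push_cast
  rfl

/-- the difference of the values -/
theorem VF_sub (q γ m T y a : ℝ) : KE.VF ⟨q, γ⟩ ⟨m, T⟩ - KE.VF ⟨q, γ⟩ ⟨y, a⟩ =
    uu (y - q) (a - γ) - uu (m - q) (T - γ) - Real.pi * (q * (T - a) + γ * (m - y)) +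
      (uu m T - uu y a + Real.pi * (T - a)) := by
  unfold KE.VF
  simp only [UU_uu, Complex.sub_re, Complex.sub_im, Complex.mul_im]
  ring

/-! ### moves to `3/4`, upper mirrored path -/

theorem fU_pos {g t : E} (hg : g.val [y, T, q, θ] = γ) (ht : t.val [y, T, q, θ] = T - γ)
    (h : 0 < (fU (PX (.q 3 4) su g t)).val [y, T, q, θ]) :
    -(Real.pi * (-T) + NumG.plR y 1145 LU) ≤
      KE.VF ⟨q, γ⟩ ⟨3 / 4, T⟩ - KE.VF ⟨q, γ⟩ ⟨y, 16 / 100 * K23.τl y⟩ := by
  rw [VF_sub]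
  simp only [fU, PX, PI, E.val, su_val, hg, ht, E.pl_val, v0_val, v1_val, lkL2] at h
  push_cast at h
  linarith only [h]

theorem rowU {g t : E} {l0 h0 c : ℕ}
    (h : chkD [.of (fU (PX (.q 3 4) su g t)), .of (fU (PW (.q 3 4) su g t))]
      10000 0 1230 0 0 60 l0 h0 0 1080 0 6500 0 10000 c = true)
    (y0 : (l0 : ℝ) / 10000 ≤ y) (y1 : y ≤ (h0 : ℝ) / 10000) (T0 : -(123 / 1000) ≤ T)
    (T1 : T ≤ -(15 / 1000)) (q0 : 0 ≤ q) (q1 : q ≤ 65 / 100) (θ0 : 0 ≤ θ) (θ1 : θ ≤ 1)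
    (hg : g.val [y, T, q, θ] = γ) (ht : t.val [y, T, q, θ] = T - γ) :
    -(Real.pi * (-T) + NumG.plR y 1145 LU) ≤
      KE.VF ⟨q, γ⟩ ⟨3 / 4, T⟩ - KE.VF ⟨q, γ⟩ ⟨y, 16 / 100 * K23.τl y⟩ := by
  have h1 := K23.dk2 h (by norm_num) (x := y) (y := T) (z := q) (w := θ)
    ⟨by push_cast; linarith only [y0], by push_cast; linarith only [y1]⟩
    ⟨by norm_num; linarith only [T0], by norm_num; linarith only [T1]⟩
    ⟨by norm_num; linarith only [q0], by norm_num; linarith only [q1]⟩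
    ⟨by norm_num; linarith only [θ0], by norm_num; linarith only [θ1]⟩
  exact fU_pos hg ht (h1.elim id id)

theorem U3_lo (hU : KR.U3 q γ) : -γ ≤ min (min (4 / 3 * q) (16 / 100))
    (min (16 / 100 - 45 / 170 * (q - 33 / 100)) (115 / 150 * (65 / 100 - q))) :=
  le_min (le_min hU.d1 hU.d2) (le_min hU.d3 hU.d4)

theorem casesU {l0 h0 cU cD : ℕ}
    (rU : chkD [.of (fU (PX (.q 3 4) su (gU hi1) (.sub vT (gU hi1)))),
        .of (fU (PW (.q 3 4) su (gU hi1) (.sub vT (gU hi1))))]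
      10000 0 1230 0 0 60 l0 h0 0 1080 0 6500 0 10000 cU = true)
    (rD : chkD [.of (fU (PX (.q 3 4) su (gD lo1) (.sub vT (gD lo1)))),
        .of (fU (PW (.q 3 4) su (gD lo1) (.sub vT (gD lo1))))]
      10000 0 1230 0 0 60 l0 h0 0 1080 0 6500 0 10000 cD = true)
    (hU : KR.U3 q γ) (T0 : -(123 / 1000) ≤ T) (T1 : T ≤ -(15 / 1000))
    (y0 : (l0 : ℝ) / 10000 ≤ y) (y1 : y ≤ (h0 : ℝ) / 10000) :
    -(Real.pi * (-T) + NumG.plR y 1145 LU) ≤
      KE.VF ⟨q, γ⟩ ⟨3 / 4, T⟩ - KE.VF ⟨q, γ⟩ ⟨y, 16 / 100 * K23.τl y⟩ := by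
  rcases le_total 0 γ with c | c
  · obtain ⟨θ, t0, t1, eg⟩ := KR.theta c hU.up
    have e1 : (gU hi1).val [y, T, q, θ] = γ := by
      unfold gU
      rw [E.val, hi1_val, v3_val, eg]
    exact rowU rU y0 y1 T0 T1 hU.q0 hU.q1 t0 t1 e1 (by rw [E.val, e1, v1_val])
  · obtain ⟨θ, t0, t1, eg⟩ := KR.theta (neg_nonneg.2 c) (U3_lo hU)
    have e1 : (gD lo1).val [y, T, q, θ] = γ := by
      unfold gD
      rw [E.val, E.val, lo1_val, v3_val, ← eg, neg_neg]
    exact rowU rD y0 y1 T0 T1 hU.q0 hU.q1 t0 t1 e1 (by rw [E.val, e1, v1_val])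

/-- **The inner variable moved from its upper mirrored path to `3/4`.** -/
theorem lossU (hU : KR.U3 q γ) (T0 : -(123 / 1000) ≤ T) (T1 : T ≤ -(15 / 1000))
    (y0 : 45 / 100 ≤ y) (y1 : y ≤ 8 / 10) : -(Real.pi * (-T) + NumG.plR y 1145 LU) ≤
      KE.VF ⟨q, γ⟩ ⟨3 / 4, T⟩ - KE.VF ⟨q, γ⟩ ⟨y, 16 / 100 * K23.τl y⟩ := by
  rcases le_total y (75 / 100) with h | h
  · exact casesU r_FUa r_FDa hU T0 T1 (by norm_num; linarith only [y0]) (by norm_num; linarith only [h])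
  · exact casesU r_FUb r_FDb hU T0 T1 (by norm_num; linarith only [h]) (by norm_num; linarith only [y1])

/-! ### moves to `3/10` and `7/20`, upper mirrored path -/

theorem f1_pos {g t : E} (hg : g.val [y, T, q, θ] = γ) (ht : t.val [y, T, q, θ] = T - γ)
    (h : 0 < (f1 (PX (.q 3 10) su g t)).val [y, T, q, θ]) :
    -(NumG.plR y 304 A1 + NumG.plR y 1845 B1 * (-T - 15 / 1000)) ≤
      KE.VF ⟨q, γ⟩ ⟨3 / 10, T⟩ - KE.VF ⟨q, γ⟩ ⟨y, 16 / 100 * K23.τl y⟩ +
        2 * Real.pi * (16 / 100 * K23.τl y) := by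
  rw [VF_sub]
  simp only [f1, PX, PI, E.val, su_val, hg, ht, E.pl_val, v0_val, v1_val, lkL2] at h
  push_cast at h
  norm_num at h ⊢
  linarith only [h]

theorem f2_pos {g t : E} (hg : g.val [y, T, q, θ] = γ) (ht : t.val [y, T, q, θ] = T - γ)
    (h : 0 < (f2 (PX (.q 7 20) su g t)).val [y, T, q, θ]) :
    -(NumG.plR y 227 A2 + NumG.plR y 2180 B2 * (-T - 80 / 1000)) ≤
      KE.VF ⟨q, γ⟩ ⟨7 / 20, T⟩ - KE.VF ⟨q, γ⟩ ⟨y, 16 / 100 * K23.τl y⟩ +
        2 * Real.pi * (16 / 100 * K23.τl y) := by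
  rw [VF_sub]
  simp only [f2, PX, PI, E.val, su_val, hg, ht, E.pl_val, v0_val, v1_val, lkL2] at h
  push_cast at h
  norm_num at h ⊢
  linarith only [h]

theorem row1 {g t : E} {l0 h0 c : ℕ}
    (h : chkD [.of (f1 (PX (.q 3 10) su g t)), .of (f1 (PW (.q 3 10) su g t))]
      10000 0 900 0 0 60 l0 h0 0 750 0 6500 0 10000 c = true)
    (y0 : (l0 : ℝ) / 10000 ≤ y) (y1 : y ≤ (h0 : ℝ) / 10000) (T0 : -(90 / 1000) ≤ T)
    (T1 : T ≤ -(15 / 1000)) (q0 : 0 ≤ q) (q1 : q ≤ 65 / 100) (θ0 : 0 ≤ θ) (θ1 : θ ≤ 1)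
    (hg : g.val [y, T, q, θ] = γ) (ht : t.val [y, T, q, θ] = T - γ) :
    -(NumG.plR y 304 A1 + NumG.plR y 1845 B1 * (-T - 15 / 1000)) ≤
      KE.VF ⟨q, γ⟩ ⟨3 / 10, T⟩ - KE.VF ⟨q, γ⟩ ⟨y, 16 / 100 * K23.τl y⟩ +
        2 * Real.pi * (16 / 100 * K23.τl y) := by
  have h1 := K23.dk2 h (by norm_num) (x := y) (y := T) (z := q) (w := θ)
    ⟨by push_cast; linarith only [y0], by push_cast; linarith only [y1]⟩
    ⟨by norm_num; linarith only [T0], by norm_num; linarith only [T1]⟩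
    ⟨by norm_num; linarith only [q0], by norm_num; linarith only [q1]⟩
    ⟨by norm_num; linarith only [θ0], by norm_num; linarith only [θ1]⟩
  exact f1_pos hg ht (h1.elim id id)

theorem row2 {g t : E} {l0 h0 c : ℕ}
    (h : chkD [.of (f2 (PX (.q 7 20) su g t)), .of (f2 (PW (.q 7 20) su g t))]
      10000 0 1230 0 0 60 l0 h0 0 430 0 6500 0 10000 c = true)
    (y0 : (l0 : ℝ) / 10000 ≤ y) (y1 : y ≤ (h0 : ℝ) / 10000) (T0 : -(123 / 1000) ≤ T)
    (T1 : T ≤ -(80 / 1000)) (q0 : 0 ≤ q) (q1 : q ≤ 65 / 100) (θ0 : 0 ≤ θ) (θ1 : θ ≤ 1)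
    (hg : g.val [y, T, q, θ] = γ) (ht : t.val [y, T, q, θ] = T - γ) :
    -(NumG.plR y 227 A2 + NumG.plR y 2180 B2 * (-T - 80 / 1000)) ≤
      KE.VF ⟨q, γ⟩ ⟨7 / 20, T⟩ - KE.VF ⟨q, γ⟩ ⟨y, 16 / 100 * K23.τl y⟩ +
        2 * Real.pi * (16 / 100 * K23.τl y) := by
  have h1 := K23.dk2 h (by norm_num) (x := y) (y := T) (z := q) (w := θ)
    ⟨by push_cast; linarith only [y0], by push_cast; linarith only [y1]⟩
    ⟨by norm_num; linarith only [T0], by norm_num; linarith only [T1]⟩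
    ⟨by norm_num; linarith only [q0], by norm_num; linarith only [q1]⟩
    ⟨by norm_num; linarith only [θ0], by norm_num; linarith only [θ1]⟩
  exact f2_pos hg ht (h1.elim id id)

/-- the height of the hinge between the height `T` and the real axis -/
theorem dM_val {lo : E} {L : ℝ} (hL : ∀ θ : ℝ, lo.val [y, T, q, θ] = L)
    (h1 : -γ ≤ L) (h2 : T ≤ γ) (h3 : γ ≤ 0) : ∃ θ : ℝ, 0 ≤ θ ∧ θ ≤ 1 ∧
      (dM lo).val [y, T, q, θ] = γ - T := by
  have e1 : T + max (-L - T) 0 = max (-L) T := by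
    rcases le_total (-L) T with h | h
    · rw [max_eq_right h, max_eq_right (by linarith only [h]), add_zero]
    · rw [max_eq_left h, max_eq_left (by linarith only [h])]
      ring
  have e2 : max (-L) T ≤ γ := max_le (by linarith only [h1]) h2
  obtain ⟨θ, t0, t1, eg⟩ := KR.theta (g := γ - max (-L) T) (H := -max (-L) T) (by linarith only [e2])
    (by linarith only [h3])
  refine ⟨θ, t0, t1, ?_⟩
  simp only [dM, G0, E.val, v1_val, lkL3, hL]
  rw [e1]
  have e3 : max (-L - T) 0 = max (-L) T - T := by linarith only [e1]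
  rw [e3]
  linarith only [eg]

/-- the height of the hinge below the height `T` -/
theorem dB_val {lo : E} {L : ℝ} (hL : ∀ θ : ℝ, lo.val [y, T, q, θ] = L)
    (h1 : -γ ≤ L) (h2 : γ ≤ T) : ∃ θ : ℝ, 0 ≤ θ ∧ θ ≤ 1 ∧
      (dB lo).val [y, T, q, θ] = γ - T := by
  obtain ⟨θ, t0, t1, eg⟩ := KR.theta (g := T - γ) (H := L + T) (by linarith only [h2]) (by linarith only [h1])
  refine ⟨θ, t0, t1, ?_⟩
  simp only [dB, G0, E.val, v1_val, lkL3, hL]
  rw [max_eq_right (by linarith only [h1, h2]), max_eq_left (by linarith only [h1, h2])]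
  linarith only [eg]

theorem cases1 {l0 h0 cU cM cB : ℕ}
    (rU : chkD [.of (f1 (PX (.q 3 10) su (gU hi1) (.sub vT (gU hi1)))),
        .of (f1 (PW (.q 3 10) su (gU hi1) (.sub vT (gU hi1))))]
      10000 0 900 0 0 60 l0 h0 0 750 0 6500 0 10000 cU = true)
    (rM : chkD [.of (f1 (PX (.q 3 10) su (.add vT (dM lo1)) (.neg (dM lo1)))),
        .of (f1 (PW (.q 3 10) su (.add vT (dM lo1)) (.neg (dM lo1))))]
      10000 0 900 0 0 60 l0 h0 0 750 0 6500 0 10000 cM = true)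
    (rB : chkD [.of (f1 (PX (.q 3 10) su (.add vT (dB lo1)) (.neg (dB lo1)))),
        .of (f1 (PW (.q 3 10) su (.add vT (dB lo1)) (.neg (dB lo1))))]
      10000 0 900 0 0 60 l0 h0 0 750 0 6500 0 10000 cB = true)
    (hU : KR.U3 q γ) (T0 : -(90 / 1000) ≤ T) (T1 : T ≤ -(15 / 1000))
    (y0 : (l0 : ℝ) / 10000 ≤ y) (y1 : y ≤ (h0 : ℝ) / 10000) :
    -(NumG.plR y 304 A1 + NumG.plR y 1845 B1 * (-T - 15 / 1000)) ≤
      KE.VF ⟨q, γ⟩ ⟨3 / 10, T⟩ - KE.VF ⟨q, γ⟩ ⟨y, 16 / 100 * K23.τl y⟩ +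
        2 * Real.pi * (16 / 100 * K23.τl y) := by
  have L1 := U3_lo hU
  rcases le_total 0 γ with c | c
  · obtain ⟨θ, t0, t1, eg⟩ := KR.theta c hU.up
    have e1 : (gU hi1).val [y, T, q, θ] = γ := by
      unfold gU
      rw [E.val, hi1_val, v3_val, eg]
    exact row1 rU y0 y1 T0 T1 hU.q0 hU.q1 t0 t1 e1 (by rw [E.val, e1, v1_val])
  rcases le_total T γ with c' | c'
  · obtain ⟨θ, t0, t1, e1⟩ := dM_val (y := y) (q := q) (fun θ => lo1_val) L1 c' c
    exact row1 rM y0 y1 T0 T1 hU.q0 hU.q1 t0 t1 (by rw [E.val, e1, v1_val]; ring)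
      (by rw [E.val, e1]; ring)
  · obtain ⟨θ, t0, t1, e1⟩ := dB_val (y := y) (q := q) (fun θ => lo1_val) L1 c'
    exact row1 rB y0 y1 T0 T1 hU.q0 hU.q1 t0 t1 (by rw [E.val, e1, v1_val]; ring)
      (by rw [E.val, e1]; ring)

theorem cases2 {l0 h0 cU cM cB : ℕ}
    (rU : chkD [.of (f2 (PX (.q 7 20) su (gU hi2) (.sub vT (gU hi2)))),
        .of (f2 (PW (.q 7 20) su (gU hi2) (.sub vT (gU hi2))))]
      10000 0 1230 0 0 60 l0 h0 0 430 0 6500 0 10000 cU = true)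
    (rM : chkD [.of (f2 (PX (.q 7 20) su (.add vT (dM lo2)) (.neg (dM lo2)))),
        .of (f2 (PW (.q 7 20) su (.add vT (dM lo2)) (.neg (dM lo2))))]
      10000 0 1230 0 0 60 l0 h0 0 430 0 6500 0 10000 cM = true)
    (rB : chkD [.of (f2 (PX (.q 7 20) su (.add vT (dB lo2)) (.neg (dB lo2)))),
        .of (f2 (PW (.q 7 20) su (.add vT (dB lo2)) (.neg (dB lo2))))]
      10000 0 1230 0 0 60 l0 h0 0 430 0 6500 0 10000 cB = true)
    (hU : -(4 / 25 * tr 0 (60 / 100) (12 / 100) (27 / 100) q) ≤ γ ∧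
      γ ≤ 3 / 10 * tr 0 (60 / 100) (12 / 100) (27 / 100) q) (q0 : 0 ≤ q) (q1 : q ≤ 65 / 100)
    (T0 : -(123 / 1000) ≤ T) (T1 : T ≤ -(80 / 1000))
    (y0 : (l0 : ℝ) / 10000 ≤ y) (y1 : y ≤ (h0 : ℝ) / 10000) :
    -(NumG.plR y 227 A2 + NumG.plR y 2180 B2 * (-T - 80 / 1000)) ≤
      KE.VF ⟨q, γ⟩ ⟨7 / 20, T⟩ - KE.VF ⟨q, γ⟩ ⟨y, 16 / 100 * K23.τl y⟩ +
        2 * Real.pi * (16 / 100 * K23.τl y) := by
  rcases le_total 0 γ with c | c
  · obtain ⟨θ, t0, t1, eg⟩ := KR.theta c hU.2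
    have e1 : (gU hi2).val [y, T, q, θ] = γ := by
      unfold gU
      rw [E.val, hi2_val, v3_val, eg]
    exact row2 rU y0 y1 T0 T1 q0 q1 t0 t1 e1 (by rw [E.val, e1, v1_val])
  rcases le_total T γ with c' | c'
  · obtain ⟨θ, t0, t1, e1⟩ := dM_val (y := y) (q := q) (fun θ => lo2_val)
      (by linarith only [hU, hU.1]) c' c
    exact row2 rM y0 y1 T0 T1 q0 q1 t0 t1 (by rw [E.val, e1, v1_val]; ring)
      (by rw [E.val, e1]; ring)
  · obtain ⟨θ, t0, t1, e1⟩ := dB_val (y := y) (q := q) (fun θ => lo2_val) (by linarith only [hU, hU.1]) c'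
    exact row2 rB y0 y1 T0 T1 q0 q1 t0 t1 (by rw [E.val, e1, v1_val]; ring)
      (by rw [E.val, e1]; ring)

/-- **The inner variable moved from its upper mirrored path to `3/10`.** -/
theorem loss1 (hU : KR.U3 q γ) (T0 : -(90 / 1000) ≤ T) (T1 : T ≤ -(15 / 1000))
    (y0 : 3 / 100 ≤ y) (y1 : y ≤ 8 / 10) :
    -(NumG.plR y 304 A1 + NumG.plR y 1845 B1 * (-T - 15 / 1000)) ≤
      KE.VF ⟨q, γ⟩ ⟨3 / 10, T⟩ - KE.VF ⟨q, γ⟩ ⟨y, 16 / 100 * K23.τl y⟩ +
        2 * Real.pi * (16 / 100 * K23.τl y) := by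
  rcases le_total y (4 / 100) with h | h
  · exact cases1 r_1Ua r_1Ma r_1Ba hU T0 T1 (by norm_num; linarith only [y0]) (by norm_num; linarith only [h])
  rcases le_total y (5 / 100) with h' | h'
  · exact cases1 r_1Ub r_1Mb r_1Bb hU T0 T1 (by norm_num; linarith only [h]) (by norm_num; linarith only [h'])
  rcases le_total y (10 / 100) with h1 | h1
  · exact cases1 r_1Uc r_1Mc r_1Bc hU T0 T1 (by norm_num; linarith only [h']) (by norm_num; linarith only [h1])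
  rcases le_total y (30 / 100) with h2 | h2
  · exact cases1 r_1Ud r_1Md r_1Bd hU T0 T1 (by norm_num; linarith only [h1]) (by norm_num; linarith only [h2])
  rcases le_total y (50 / 100) with h3 | h3
  · exact cases1 r_1Ue r_1Me r_1Be hU T0 T1 (by norm_num; linarith only [h2]) (by norm_num; linarith only [h3])
  rcases le_total y (75 / 100) with h4 | h4
  · exact cases1 r_1Uf r_1Mf r_1Bf hU T0 T1 (by norm_num; linarith only [h3]) (by norm_num; linarith only [h4])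
  · exact cases1 r_1Ug r_1Mg r_1Bg hU T0 T1 (by norm_num; linarith only [h4]) (by norm_num; linarith only [y1])

/-- **The inner variable moved from its upper mirrored path to `7/20`**, no digit `1` in the
slot `0`. -/
theorem loss2 (hU : -(4 / 25 * tr 0 (60 / 100) (12 / 100) (27 / 100) q) ≤ γ ∧
      γ ≤ 3 / 10 * tr 0 (60 / 100) (12 / 100) (27 / 100) q) (q0 : 0 ≤ q) (q1 : q ≤ 65 / 100)
    (T0 : -(123 / 1000) ≤ T) (T1 : T ≤ -(80 / 1000)) (y0 : 3 / 100 ≤ y) (y1 : y ≤ 8 / 10) :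
    -(NumG.plR y 227 A2 + NumG.plR y 2180 B2 * (-T - 80 / 1000)) ≤
      KE.VF ⟨q, γ⟩ ⟨7 / 20, T⟩ - KE.VF ⟨q, γ⟩ ⟨y, 16 / 100 * K23.τl y⟩ +
        2 * Real.pi * (16 / 100 * K23.τl y) := by
  rcases le_total y (4 / 100) with h | h
  · exact cases2 r_2Ua r_2Ma r_2Ba hU q0 q1 T0 T1 (by norm_num; linarith only [y0]) (by norm_num; linarith only [h])
  rcases le_total y (5 / 100) with h' | h'
  · exact cases2 r_2Ub r_2Mb r_2Bb hU q0 q1 T0 T1 (by norm_num; linarith only [h]) (by norm_num; linarith only [h'])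
  rcases le_total y (10 / 100) with h1 | h1
  · exact cases2 r_2Uc r_2Mc r_2Bc hU q0 q1 T0 T1 (by norm_num; linarith only [h']) (by norm_num; linarith only [h1])
  rcases le_total y (30 / 100) with h2 | h2
  · exact cases2 r_2Ud r_2Md r_2Bd hU q0 q1 T0 T1 (by norm_num; linarith only [h1]) (by norm_num; linarith only [h2])
  rcases le_total y (50 / 100) with h3 | h3
  · exact cases2 r_2Ue r_2Me r_2Be hU q0 q1 T0 T1 (by norm_num; linarith only [h2]) (by norm_num; linarith only [h3])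
  rcases le_total y (75 / 100) with h4 | h4
  · exact cases2 r_2Uf r_2Mf r_2Bf hU q0 q1 T0 T1 (by norm_num; linarith only [h3]) (by norm_num; linarith only [h4])
  · exact cases2 r_2Ug r_2Mg r_2Bg hU q0 q1 T0 T1 (by norm_num; linarith only [h4]) (by norm_num; linarith only [y1])

/-! ### move to `3/4`, main path -/

theorem sl_val : sl.val [y, T, q, θ] = 20 * T * (4 / 5 - y) := by
  simp only [sl, E.val, v0_val, v1_val]
  push_cast
  ring

theorem mu_val : mu.val [y, T, q, θ] = -20 * T := by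
  simp only [mu, E.val, v1_val]
  push_cast
  ring

theorem dG_val {g : E} (hg : g.val [y, T, q, θ] = γ) : (dG g).val [y, T, q, θ] =
    1 / 4 + Real.pi * (γ + q * (-20 * T)) +
      (dU ⟨y - q, 20 * T * (4 / 5 - y) - γ⟩ (-20 * T) - dU ⟨y, 20 * T * (4 / 5 - y)⟩ (-20 * T)) := by
  have e1 : ∀ x t m : E, (dUx x t m).val [y, T, q, θ] =
      dU ⟨x.val [y, T, q, θ], t.val [y, T, q, θ]⟩ (m.val [y, T, q, θ]) := fun x t m => D.dU_val
  unfold dG
  simp only [D.val, e1, E.val, hg, sl_val, mu_val, v0_val, lkL2]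
  push_cast
  ring

theorem dG_pos (hU : KR.U3 q γ) (T0 : -(123 / 1000) ≤ T) (T1 : T ≤ -(15 / 1000))
    (y0 : 75 / 100 ≤ y) (y1 : y ≤ 8 / 10) : 0 <
    1 / 4 + Real.pi * (γ + q * (-20 * T)) +
      (dU ⟨y - q, 20 * T * (4 / 5 - y) - γ⟩ (-20 * T) - dU ⟨y, 20 * T * (4 / 5 - y)⟩ (-20 * T)) := by
  rcases le_total 0 γ with c | c
  · obtain ⟨θ, t0, t1, eg⟩ := KR.theta c hU.up
    have e1 : (gU hi1).val [y, T, q, θ] = γ := by
      unfold gU
      rw [E.val, hi1_val, v3_val, eg]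
    rw [← dG_val e1]
    exact K23.dk1 r_GU (by norm_num) ⟨by norm_num; linarith only [y0], by norm_num; linarith only [y1]⟩
      ⟨by norm_num; linarith only [T0], by norm_num; linarith only [T1]⟩
      ⟨by norm_num; linarith only [hU, hU.q0], by norm_num; linarith only [hU, hU.q1]⟩
      ⟨by norm_num; linarith only [t0], by norm_num; linarith only [t1]⟩
  · obtain ⟨θ, t0, t1, eg⟩ := KR.theta (neg_nonneg.2 c) (U3_lo hU)
    have e1 : (gD lo1).val [y, T, q, θ] = γ := by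
      unfold gD
      rw [E.val, E.val, lo1_val, v3_val, ← eg, neg_neg]
    rw [← dG_val e1]
    exact K23.dk1 r_GD (by norm_num) ⟨by norm_num; linarith only [y0], by norm_num; linarith only [y1]⟩
      ⟨by norm_num; linarith only [T0], by norm_num; linarith only [T1]⟩
      ⟨by norm_num; linarith only [hU, hU.q0], by norm_num; linarith only [hU, hU.q1]⟩
      ⟨by norm_num; linarith only [t0], by norm_num; linarith only [t1]⟩

/-- the right ramp -/
noncomputable def gl (T y : ℝ) : ℂ := ⟨y, 20 * T * (4 / 5 - y)⟩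

theorem hasDerivAt_gl (T x : ℝ) : HasDerivAt (gl T) (1 + ((-20 * T : ℝ)) * Complex.I) x := by
  have e : gl T = fun y : ℝ => (y : ℂ) + ((20 * T * (4 / 5 - y) : ℝ) : ℂ) * Complex.I := by
    funext y
    unfold gl
    apply Complex.ext <;> simp
  rw [e]
  have h1 : HasDerivAt (fun y : ℝ => 20 * T * (4 / 5 - y)) (-20 * T) x := by
    have := ((hasDerivAt_id x).const_sub (4 / 5)).const_mul (20 * T)
    refine this.congr_deriv ?_
    ring
  exact ((hasDerivAt_id x).ofReal_comp).add ((h1.ofReal_comp).mul_const Complex.I)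

/-- the difference along the right ramp -/
noncomputable def FM (q γ T y : ℝ) : ℝ :=
  KE.VF ⟨q, γ⟩ ⟨3 / 4, T⟩ - KE.VF ⟨q, γ⟩ (gl T y) +
    (Real.pi * (-T) * (1 - 20 * (4 / 5 - y)) + 1 / 4 * (y - 3 / 4))

theorem hasDerivAt_FM (hU : KR.U3 q γ) (y0 : 75 / 100 ≤ y) (y1 : y ≤ 8 / 10) :
    HasDerivAt (FM q γ T) (1 / 4 + Real.pi * (γ + q * (-20 * T)) +
      (dU ⟨y - q, 20 * T * (4 / 5 - y) - γ⟩ (-20 * T) -
        dU ⟨y, 20 * T * (4 / 5 - y)⟩ (-20 * T))) y := by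
  have q0 := hU.q0
  have q1 := hU.q1
  have s1 : (gl T y).im ≠ 0 ∨ gl T y ∈ strip := by
    right
    constructor
    · show 0 < y
      linarith only [y0]
    · show y < 1
      linarith only [y1]
  have s2 : (gl T y - ⟨q, γ⟩).im ≠ 0 ∨ gl T y - ⟨q, γ⟩ ∈ strip := by
    right
    constructor
    · show 0 < y - q
      linarith only [y0, q1]
    · show y - q < 1
      linarith only [y1, q0]
  have a1 := hasDerivAt_dU (hasDerivAt_gl T y) s1
  have a2 := hasDerivAt_dU ((hasDerivAt_gl T y).sub_const ⟨q, γ⟩) s2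
  have e : FM q γ T = fun y => KE.VF ⟨q, γ⟩ ⟨3 / 4, T⟩ +
      (Real.pi * (q * (20 * T * (4 / 5 - y)) + γ * y - 20 * T * (4 / 5 - y)) + UU ⟨q, γ⟩ +
        (Real.pi * (-T) * (1 - 20 * (4 / 5 - y)) + 1 / 4 * (y - 3 / 4))) +
      (UU (gl T y - ⟨q, γ⟩) - UU (gl T y)) := by
    funext y
    unfold FM
    conv_lhs => rw [show KE.VF ⟨q, γ⟩ (gl T y) = -(Real.pi * (q * (20 * T * (4 / 5 - y)) +
      γ * y - 20 * T * (4 / 5 - y))) - UU (gl T y - ⟨q, γ⟩) + UU (gl T y) - UU ⟨q, γ⟩ from by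
        unfold KE.VF
        simp only [Complex.sub_im, Complex.mul_im]
        rfl]
    ring
  rw [e]
  have a3 : HasDerivAt (fun y : ℝ =>
      Real.pi * (q * (20 * T * (4 / 5 - y)) + γ * y - 20 * T * (4 / 5 - y)) + UU ⟨q, γ⟩ +
        (Real.pi * (-T) * (1 - 20 * (4 / 5 - y)) + 1 / 4 * (y - 3 / 4)))
      (1 / 4 + Real.pi * (γ + q * (-20 * T))) y := by
    have b1 : HasDerivAt (fun y : ℝ => 4 / 5 - y) (-1) y := (hasDerivAt_id y).const_sub (4 / 5)
    have b2 := b1.const_mul (20 * T)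
    have b3 := (((b2.const_mul q).add ((hasDerivAt_id y).const_mul γ)).sub b2).const_mul Real.pi
    have b4 := ((b1.const_mul 20).const_sub 1).const_mul (Real.pi * (-T))
    have b5 := ((hasDerivAt_id y).sub_const (3 / 4)).const_mul (1 / 4)
    refine ((b3.add_const (UU ⟨q, γ⟩)).add (b4.add b5)).congr_deriv ?_
    ring
  exact ((a3.const_add _).add (a2.sub a1))

/-- **The inner variable moved on the right ramp of its main path to `3/4`.** -/
theorem lossM (hU : KR.U3 q γ) (T0 : -(123 / 1000) ≤ T) (T1 : T ≤ -(15 / 1000))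
    (y0 : 75 / 100 ≤ y) (y1 : y ≤ 8 / 10) :
    -(Real.pi * (-T) * (1 - K23.τl y) + 1 / 4 * (y - 3 / 4)) ≤
      KE.VF ⟨q, γ⟩ ⟨3 / 4, T⟩ - KE.VF ⟨q, γ⟩ ⟨y, T * K23.τl y⟩ := by
  have e1 : K23.τl y = 20 * (4 / 5 - y) := by
    unfold K23.τl tr
    rw [min_eq_right (show (8 / 10 - y) / (5 / 100) ≤ (y - 0) / (5 / 100) from
      div_le_div_of_nonneg_right (by linarith only [y0]) (by norm_num)), min_eq_right (by rw [div_le_one (by norm_num)]; linarith only [y0]),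
      max_eq_right (div_nonneg (by linarith only [y1]) (by norm_num))]
    ring
  have hm : MonotoneOn (FM q γ T) (Set.Icc (3 / 4) (8 / 10)) := by
    refine monotoneOn_of_deriv_nonneg (convex_Icc _ _) ?_ ?_ ?_
    · intro z hz
      exact (hasDerivAt_FM hU (by linarith only [hz, hz.1]) hz.2).continuousAt.continuousWithinAt
    · intro z hz
      rw [interior_Icc] at hz
      exact (hasDerivAt_FM hU (by linarith only [hz, hz.1]) hz.2.le).differentiableAt.differentiableWithinAt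
    · intro z hz
      rw [interior_Icc] at hz
      rw [(hasDerivAt_FM hU (by linarith only [hz, hz.1]) hz.2.le).deriv]
      exact (dG_pos hU T0 T1 (by linarith only [hz, hz.1]) hz.2.le).le
  have h1 := hm (show (3 / 4 : ℝ) ∈ Set.Icc (3 / 4) (8 / 10) from ⟨le_rfl, by norm_num⟩)
    (show y ∈ Set.Icc (3 / 4) (8 / 10) from ⟨by linarith only [y0], y1⟩) (by linarith only [y0])
  have h2 : FM q γ T (3 / 4) = 0 := by
    unfold FM gl
    rw [show (20 * T * (4 / 5 - 3 / 4) : ℝ) = T by ring]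
    ring
  have e2 : gl T y = ⟨y, T * K23.τl y⟩ := by
    unfold gl
    rw [e1]
    congr 1
    ring
  rw [h2] at h1
  unfold FM at h1
  rw [e2, ← e1] at h1
  linarith only [h1]

end Pool.Agent.Work.MP_b30479_gt.G2.K3b
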