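import Pool.Agent.Work.MP_b30479_gt.G2.WM_1_3bUa
import Pool.Agent.Work.NumU.GenF
import Pool.Agent.Work.NumI.TreeS

/-!
# Mirrored paths, kind `1 | 3`, the `3` in its slot `2`: rows with all variables, II
-/

namespace Pool.Agent.Work.NumG.KU

open MP_b30479_gt.VOL MP_b30479_gt.G2 NumG
open NumU (uu)

theorem G150 {y K r θ : ℝ} (a0 : 150 / 10000 ≤ y) (b0 : y ≤ 300 / 10000) (a1 : -(910 / 10000) ≤ K) (b1 : K ≤ 0) (a2 : 0 ≤ r) (b2 : r ≤ 8600 / 10000) (a3 : -(10000 / 10000) ≤ θ) (b3 : θ ≤ 10000 / 10000) :
    30 / 1000 < fA K r (θ * (4 / 25 * tQ r)) + fB y (t8 y) r (θ * (4 / 25 * tQ r)) := by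
  have h : chkF [eG] 10000 0 910 0 10000 60 150 300 0 910 0 8600 0 20000
      0x10202080420404082020808202081020408101020408102081018404100840410104041020408102010408102040c2040800201041008404100840410104041020408102010408102041020402082010810002080420402082020808204081020404081020408183 = true := by decide +kernel
  obtain ⟨e, he, hp⟩ := chkF4 h (by norm_num) (x := (y)) (y := (K)) (z := (r)) (w := (θ))
    (by norm_num; linarith) (by norm_num; linarith)
    (by norm_num; linarith) (by norm_num; linarith)
    (by norm_num; linarith) (by norm_num; linarith)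
    (by norm_num; linarith) (by norm_num; linarith)
  simp only [List.mem_singleton] at he
  subst he
  rw [eG_val] at hp
  linarith

theorem G300 {y K r θ : ℝ} (a0 : 300 / 10000 ≤ y) (b0 : y ≤ 600 / 10000) (a1 : -(910 / 10000) ≤ K) (b1 : K ≤ 0) (a2 : 0 ≤ r) (b2 : r ≤ 8600 / 10000) (a3 : -(10000 / 10000) ≤ θ) (b3 : θ ≤ 10000 / 10000) :
    30 / 1000 < fA K r (θ * (4 / 25 * tQ r)) + fB y (t8 y) r (θ * (4 / 25 * tQ r)) := by
  have h : chkF [eG] 10000 0 910 0 10000 60 300 600 0 910 0 8600 0 20000
      0x10200080420400100820808202080820408102020408102081000404100840410104041020408101020408103081020108040040410084041010404102040810002040810408100820804202080420402082040008202081020408081020408183 = true := by decide +kernel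
  obtain ⟨e, he, hp⟩ := chkF4 h (by norm_num) (x := (y)) (y := (K)) (z := (r)) (w := (θ))
    (by norm_num; linarith) (by norm_num; linarith)
    (by norm_num; linarith) (by norm_num; linarith)
    (by norm_num; linarith) (by norm_num; linarith)
    (by norm_num; linarith) (by norm_num; linarith)
  simp only [List.mem_singleton] at he
  subst he
  rw [eG_val] at hp
  linarith

theorem G600 {y K r θ : ℝ} (a0 : 600 / 10000 ≤ y) (b0 : y ≤ 1500 / 10000) (a1 : -(910 / 10000) ≤ K) (b1 : K ≤ 0) (a2 : 0 ≤ r) (b2 : r ≤ 8600 / 10000) (a3 : -(10000 / 10000) ≤ θ) (b3 : θ ≤ 10000 / 10000) :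
    30 / 1000 < fA K r (θ * (4 / 25 * tQ r)) + fB y (t8 y) r (θ * (4 / 25 * tQ r)) := by
  have h : chkF [eG] 10000 0 910 0 10000 60 600 1500 0 910 0 8600 0 20000
      0x4080020404002040008204000820400082040010200081000408100000408102081000408100020010200041020004102000410200081000408002040008102040c2040410200081008200102000410200041020004102000810200081000204081040800204000820400101040200204000820400082040008204081000408001020408183 = true := by decide +kernel
  obtain ⟨e, he, hp⟩ := chkF4 h (by norm_num) (x := (y)) (y := (K)) (z := (r)) (w := (θ))
    (by norm_num; linarith) (by norm_num; linarith)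
    (by norm_num; linarith) (by norm_num; linarith)
    (by norm_num; linarith) (by norm_num; linarith)
    (by norm_num; linarith) (by norm_num; linarith)
  simp only [List.mem_singleton] at he
  subst he
  rw [eG_val] at hp
  linarith

theorem M0_h_q1 : Pool.Agent.Work.NumI.runE (Pool.Agent.Work.NumG.tst [eM1, eM2, eM3])
    0 6253472383 0 0 59 0 2061584303 0 6253472384 0 44667659880 0 2
    0x81010504142040810102040810408082820a102040808102040808408082820a10204080810204082040414105081020404081020404084080820208102000810204041020400082040000002040810208101040410204001020408082040800104080020400000000408102040420404101040810004081020208102000810000040010204081040808202081020408100040810004080000004081020408081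
    0x102020a08284081020204081020810105041420408101020408101081010504142040810102040810408082820a1020408081020408081 = true := by
  decide +kernel

theorem M0_h_q2 : Pool.Agent.Work.NumI.runE (Pool.Agent.Work.NumG.tst [eM1, eM2, eM3])
    0 6253472383 0 0 59 2061584303 4123168606 0 6253472384 0 44667659880 0 2
    0x102020a08284081020204081020810105041420408101020408101081010504142040810102040810408082820a1020408081020408081
    0x0 = true := by
  decide +kernel

theorem M0_h_q0 : chkF [eM1, eM2, eM3] 10000 0 910 0 0 60 0 600 0 910 0 6500 0 0
      0x408082820a1020408081020408204041410508102040408102040420404141050810204040810204102020a08284081020204081020204204041010408100040810202081020004102000000102040810408082020810200081020404102040008204001020000000020408102021020208082040800204081010408100040800002000810204082040410104081020408002040800204000000204081020404080 = true :=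
  Pool.Agent.Work.NumI.okB_of rfl rfl rfl rfl rfl rfl rfl rfl rfl rfl rfl rfl
    (Pool.Agent.Work.NumI.runE_split0 rfl rfl rfl
      M0_h_q1
      M0_h_q2)

theorem M0 {y K r : ℝ} (a0 : 0 ≤ y) (b0 : y ≤ 600 / 10000) (a1 : -(910 / 10000) ≤ K) (b1 : K ≤ 0) (a2 : 0 ≤ r) (b2 : r ≤ 6500 / 10000) :
    30 / 1000 < fA K r (-(1 / 2 * tM r)) + fB y (t8 y) r (-(1 / 2 * tM r)) := by
  have h : chkF [eM1, eM2, eM3] 10000 0 910 0 0 60 0 600 0 910 0 6500 0 0
      0x408082820a1020408081020408204041410508102040408102040420404141050810204040810204102020a08284081020204081020204204041010408100040810202081020004102000000102040810408082020810200081020404102040008204001020000000020408102021020208082040800204081010408100040800002000810204082040410104081020408002040800204000000204081020404080 = true := M0_h_q0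
  obtain ⟨e, he, hp⟩ := chkF4 h (by norm_num) (x := (y)) (y := (K)) (z := (r)) (w := 0)
    (by norm_num; linarith) (by norm_num; linarith)
    (by norm_num; linarith) (by norm_num; linarith)
    (by norm_num; linarith) (by norm_num; linarith)
    (by norm_num) (by norm_num)
  simp only [List.mem_cons, List.not_mem_nil, or_false] at he
  rcases he with rfl | rfl | rfl
  · exact eM1_pos hp
  · exact eM2_pos hp
  · exact eM3_pos hp

theorem M600 {y K r : ℝ} (a0 : 600 / 10000 ≤ y) (b0 : y ≤ 1500 / 10000) (a1 : -(910 / 10000) ≤ K) (b1 : K ≤ 0) (a2 : 0 ≤ r) (b2 : r ≤ 6500 / 10000) :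
    30 / 1000 < fA K r (-(1 / 2 * tM r)) + fB y (t8 y) r (-(1 / 2 * tM r)) := by
  have h : chkF [eM1, eM2, eM3] 10000 0 910 0 0 60 600 1500 0 910 0 6500 0 0
      0x408082820a10202040820404141050810102040420404141050810200040810408082820a102040008102020020404141050810202040810408082820a10204040810202102020a082840810102040820404141050810202040810408082820a1020404081020204000 = true := by decide +kernel
  obtain ⟨e, he, hp⟩ := chkF4 h (by norm_num) (x := (y)) (y := (K)) (z := (r)) (w := 0)
    (by norm_num; linarith) (by norm_num; linarith)
    (by norm_num; linarith) (by norm_num; linarith)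
    (by norm_num; linarith) (by norm_num; linarith)
    (by norm_num) (by norm_num)
  simp only [List.mem_cons, List.not_mem_nil, or_false] at he
  rcases he with rfl | rfl | rfl
  · exact eM1_pos hp
  · exact eM2_pos hp
  · exact eM3_pos hp


end Pool.Agent.Work.NumG.KU
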