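import Pool.Agent.Work.MP_b30479_gt.G2.WM_1_3bUb
import Pool.Agent.Work.MP_b30479_gt.G2.WM_1_3bUc
import Pool.Agent.Work.MP_b30479_gt.G2.WM_1_3bUd
import Pool.Agent.Work.MP_b30479_gt.G2.WM_1_3bUe

/-!
# Mirrored paths, kind `1 | 3`, the `3` in its slot `2`: side of the `1`, upper mode

`K13.upA`: the hinge `1 | 3` at `x` is on its mirrored path (in the frame of the `1`: lower side,
height `4/25`), the other hinge of the `1` at `y` on its upper mirrored path.  Either the hinge goes to
its saddle path at `c` and the other hinge is kept, or the other hinge is also moved, to its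
saddle path at `3/20`; `q`: the other hinge of the other neighbour of the `1` (a digit `1`).
-/

namespace Pool.Agent.Work.MP_b30479_gt.G2

namespace K13

open NumG.KU
open NumU (uu)

/-- positions and targets -/
def XC (x c : ℝ) : Prop :=
  (0 ≤ x ∧ x ≤ 7 / 100 ∧ c = 8 / 100) ∨ (7 / 100 ≤ x ∧ x ≤ 85 / 1000 ∧ c = 9 / 100) ∨
  (85 / 1000 ≤ x ∧ x ≤ 13 / 100 ∧ c = 10 / 100) ∨ (13 / 100 ≤ x ∧ x ≤ 20 / 100 ∧ c = 15 / 100) ∨
  (20 / 100 ≤ x ∧ x ≤ 50 / 100 ∧ c = 20 / 100) ∨ (50 / 100 ≤ x ∧ x ≤ 62 / 100 ∧ c = 25 / 100) ∨
  (62 / 100 ≤ x ∧ x ≤ 65 / 100 ∧ c = 30 / 100)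

theorem XC.exists {x : ℝ} (h0 : 0 ≤ x) (h1 : x ≤ 65 / 100) : ∃ c, XC x c := by
  unfold XC
  rcases le_total x (7 / 100) with a1 | a1
  · exact ⟨8 / 100, by left; exact ⟨h0, a1, rfl⟩⟩
  rcases le_total x (85 / 1000) with a2 | a2
  · exact ⟨9 / 100, by right; left; exact ⟨a1, a2, rfl⟩⟩
  rcases le_total x (13 / 100) with a3 | a3
  · exact ⟨10 / 100, by right; right; left; exact ⟨a2, a3, rfl⟩⟩
  rcases le_total x (20 / 100) with a4 | a4
  · exact ⟨15 / 100, by right; right; right; left; exact ⟨a3, a4, rfl⟩⟩
  rcases le_total x (50 / 100) with a5 | a5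
  · exact ⟨20 / 100, by right; right; right; right; left; exact ⟨a4, a5, rfl⟩⟩
  rcases le_total x (62 / 100) with a6 | a6
  · exact ⟨25 / 100, by right; right; right; right; right; left; exact ⟨a5, a6, rfl⟩⟩
  · exact ⟨30 / 100, by right; right; right; right; right; right; exact ⟨a6, h1, rfl⟩⟩

/-- positions of the other hinge of a digit `1` (`MKA.one_pos`) -/
def Dq (q : ℂ) : Prop :=
  (0 ≤ q.re ∧ q.re ≤ 86 / 100 ∧ ∃ θ : ℝ, -1 ≤ θ ∧ θ ≤ 1 ∧
    q.im = θ * (16 / 100 * tr 0 (86 / 100) (13 / 100) (20 / 100) q.re)) ∨
  (0 ≤ q.re ∧ q.re ≤ 65 / 100 ∧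
    q.im = -(1 / 2 * tr 0 (65 / 100) (13 / 100) (15 / 100) q.re))

theorem tr_fl {XM cl cr x : ℝ} (hc : 0 < cl) (hr : 0 < cr) (h0 : cl ≤ x) (h1 : x ≤ XM - cr) :
    tr 0 XM cl cr x = 1 := by
  unfold tr
  have a1 : 1 ≤ (x - 0) / cl := by rw [le_div_iff₀ hc]; linarith only [h0]
  have a2 : 1 ≤ (XM - x) / cr := by rw [le_div_iff₀ hr]; linarith only [h1]
  rw [min_eq_left (le_min a1 a2)]
  norm_num

theorem tr_le' {XM cl cr x : ℝ} (hc : 0 < cl) (hr : 0 < cr) (h0 : 0 ≤ x) (h1 : x ≤ cl)
    (h2 : x ≤ XM - cr) : tr 0 XM cl cr x = x / cl := by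
  unfold tr
  have a1 : (x - 0) / cl ≤ 1 := by rw [div_le_iff₀ hc]; linarith only [h1]
  have a2 : 1 ≤ (XM - x) / cr := by rw [le_div_iff₀ hr]; linarith only [h2]
  rw [min_eq_left (a1.trans a2), sub_zero, min_eq_right (by rwa [sub_zero] at a1),
    max_eq_right (by positivity)]

theorem t1_eq {XM y : ℝ} (hM : XM = 80 / 100 ∨ XM = 86 / 100) (y0 : 0 ≤ y) (y1 : y ≤ 6 / 10) :
    tr 0 XM (15 / 100) (20 / 100) y = t8 y := by
  unfold t8
  have hX : 6 / 10 ≤ XM - 20 / 100 := by rcases hM with rfl | rfl <;> norm_num
  rcases le_total y (15 / 100) with h | h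
  · rw [tr_le' (by norm_num) (by norm_num) y0 h (y1.trans hX),
      tr_le' (by norm_num) (by norm_num) y0 h (by linarith only [y1])]
  · rw [tr_fl (by norm_num) (by norm_num) h (y1.trans hX),
      tr_fl (by norm_num) (by norm_num) h (by linarith only [y1])]

theorem t8_one {y : ℝ} (y0 : 15 / 100 ≤ y) (y1 : y ≤ 6 / 10) : t8 y = 1 := by
  unfold t8
  exact tr_fl (by norm_num) (by norm_num) y0 (by linarith only [y1])

/-- the part without the far digit -/
theorem near {x c T K y : ℝ} (hx : XC x c) (hT : 21 / 1000 ≤ T) (hT' : T ≤ 92 / 1000)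
    (hK : -(91 / 1000) ≤ K) (hK' : K ≤ 0) (y0 : 0 ≤ y) (y1 : y ≤ 6 / 10) :
    -(30 / 1000) < fH c (tX c) T K + fOld x y := by
  rcases hx with ⟨a, b, rfl⟩ | ⟨a, b, rfl⟩ | ⟨a, b, rfl⟩ | ⟨a, b, rfl⟩ | ⟨a, b, rfl⟩ |
    ⟨a, b, rfl⟩ | ⟨a, b, rfl⟩
  · rw [show tX (8 / 100) = 8 / 15 by
      unfold tX; rw [tr_le' (by norm_num) (by norm_num) (by norm_num) (by norm_num) (by norm_num)]
      norm_num]
    have h1 := H08 (T := T) (K := K) (by linarith only [hT]) (by linarith only [hT']) (by linarith only [hK]) (by linarith only [hK'])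
    have h2 := R08 (x := x) (y := y) (by linarith only [a]) (by linarith only [b]) (by linarith only [y0]) (by linarith only [y1])
    linarith only [h1, h2]
  · rw [show tX (9 / 100) = 3 / 5 by
      unfold tX; rw [tr_le' (by norm_num) (by norm_num) (by norm_num) (by norm_num) (by norm_num)]
      norm_num]
    have h1 := H09 (T := T) (K := K) (by linarith only [hT]) (by linarith only [hT']) (by linarith only [hK]) (by linarith only [hK'])
    have h2 := R09 (x := x) (y := y) (by linarith only [a]) (by linarith only [b]) (by linarith only [y0]) (by linarith only [y1])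
    linarith only [h1, h2]
  · rw [show tX (10 / 100) = 2 / 3 by
      unfold tX; rw [tr_le' (by norm_num) (by norm_num) (by norm_num) (by norm_num) (by norm_num)]
      norm_num]
    have h1 := H10 (T := T) (K := K) (by linarith only [hT]) (by linarith only [hT']) (by linarith only [hK]) (by linarith only [hK'])
    have h2 := R10 (x := x) (y := y) (by linarith only [a]) (by linarith only [b]) (by linarith only [y0]) (by linarith only [y1])
    linarith only [h1, h2]
  · rw [show tX (15 / 100) = 1 from
      tr_fl (by norm_num) (by norm_num) (by norm_num) (by norm_num)]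
    have h1 := H15 (T := T) (K := K) (by linarith only [hT]) (by linarith only [hT']) (by linarith only [hK]) (by linarith only [hK'])
    have h2 := R15 (x := x) (y := y) (by linarith only [a]) (by linarith only [b]) (by linarith only [y0]) (by linarith only [y1])
    linarith only [h1, h2]
  · rw [show tX (20 / 100) = 1 from
      tr_fl (by norm_num) (by norm_num) (by norm_num) (by norm_num)]
    have h1 := H20 (T := T) (K := K) (by linarith only [hT]) (by linarith only [hT']) (by linarith only [hK]) (by linarith only [hK'])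
    have h2 := R20 (x := x) (y := y) (by linarith only [a]) (by linarith only [b]) (by linarith only [y0]) (by linarith only [y1])
    linarith only [h1, h2]
  · rw [show tX (25 / 100) = 1 from
      tr_fl (by norm_num) (by norm_num) (by norm_num) (by norm_num)]
    have h1 := H25 (T := T) (K := K) (by linarith only [hT]) (by linarith only [hT']) (by linarith only [hK]) (by linarith only [hK'])
    have h2 := R25 (x := x) (y := y) (by linarith only [a]) (by linarith only [b]) (by linarith only [y0]) (by linarith only [y1])
    linarith only [h1, h2]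
  · rw [show tX (30 / 100) = 1 from
      tr_fl (by norm_num) (by norm_num) (by norm_num) (by norm_num)]
    have h1 := H30 (T := T) (K := K) (by linarith only [hT]) (by linarith only [hT']) (by linarith only [hK]) (by linarith only [hK'])
    have h2 := R30 (x := x) (y := y) (by linarith only [a]) (by linarith only [b]) (by linarith only [y0]) (by linarith only [y1])
    linarith only [h1, h2]

/-- the far gain -/
theorem far {K y : ℝ} {q : ℂ} (hK : -(91 / 1000) ≤ K) (hK' : K ≤ 0) (y0 : 0 ≤ y)
    (y1 : y ≤ 6 / 10) (hq : Dq q) :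
    30 / 1000 < fA K q.re q.im + fB y (t8 y) q.re q.im := by
  rcases hq with ⟨r0, r1, θ, t0, t1, hi⟩ | ⟨r0, r1, hi⟩
  · have hi' : q.im = θ * (4 / 25 * tQ q.re) := by
      rw [hi]
      unfold tQ
      norm_num
    rw [hi']
    rcases le_total y (15 / 100) with h | h
    · rcases le_total y (150 / 10000) with h1 | h1
      · exact G0 (by linarith only [y0]) (by linarith only [h1]) (by linarith only [hK]) (by linarith only [hK']) (by linarith only [r0])
          (by linarith only [r1]) (by linarith only [t0]) (by linarith only [t1])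
      rcases le_total y (300 / 10000) with h2 | h2
      · exact G150 (by linarith only [h1]) (by linarith only [h2]) (by linarith only [hK]) (by linarith only [hK']) (by linarith only [r0])
          (by linarith only [r1]) (by linarith only [t0]) (by linarith only [t1])
      rcases le_total y (600 / 10000) with h3 | h3
      · exact G300 (by linarith only [h2]) (by linarith only [h3]) (by linarith only [hK]) (by linarith only [hK']) (by linarith only [r0])
          (by linarith only [r1]) (by linarith only [t0]) (by linarith only [t1])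
      · exact G600 (by linarith only [h3]) (by linarith only [h]) (by linarith only [hK]) (by linarith only [hK']) (by linarith only [r0])
          (by linarith only [r1]) (by linarith only [t0]) (by linarith only [t1])
    · rw [t8_one h y1]
      have h1 := rA (K := K) (r := q.re) (θ := θ) (by linarith only [hK]) (by linarith only [hK']) (by linarith only [r0])
        (by linarith only [r1]) (by linarith only [t0]) (by linarith only [t1])
      have h2 := rB (y := y) (r := q.re) (θ := θ) (by linarith only [h]) (by linarith only [y1]) (by linarith only [r0])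
        (by linarith only [r1]) (by linarith only [t0]) (by linarith only [t1])
      linarith only [h1, h2]
  · have hi' : q.im = -(1 / 2 * tM q.re) := hi
    rw [hi']
    rcases le_total y (15 / 100) with h | h
    · rcases le_total y (600 / 10000) with h1 | h1
      · exact M0 (by linarith only [y0]) (by linarith only [h1]) (by linarith only [hK]) (by linarith only [hK']) (by linarith only [r0])
          (by linarith only [r1])
      · exact M600 (by linarith only [h1]) (by linarith only [h]) (by linarith only [hK]) (by linarith only [hK']) (by linarith only [r0])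
          (by linarith only [r1])
    · rw [t8_one h y1]
      have h1 := rC (K := K) (r := q.re) (by linarith only [hK]) (by linarith only [hK']) (by linarith only [r0]) (by linarith only [r1])
      have h2 := rD (y := y) (r := q.re) (by linarith only [h]) (by linarith only [y1]) (by linarith only [r0]) (by linarith only [r1])
      linarith only [h1, h2]

/-- the other hinge is kept -/
theorem kept {x c T y XM δ : ℝ} (hx : XC x c) (hT : 21 / 1000 ≤ T) (hT' : T ≤ 92 / 1000)
    (hM : XM = 80 / 100 ∨ XM = 86 / 100) (y0 : 6 / 10 ≤ y) (y1 : y ≤ XM) (hd : 0 ≤ δ)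
    (hd' : 62 / 100 ≤ x → 1 / 100 ≤ δ) :
    -δ < fP c (tX c) (tr 0 XM (15 / 100) (20 / 100) y) x T y := by
  rcases hx with ⟨a, b, rfl⟩ | ⟨a, b, rfl⟩ | ⟨a, b, rfl⟩ | ⟨a, b, rfl⟩ | ⟨a, b, rfl⟩ |
    ⟨a, b, rfl⟩ | ⟨a, b, rfl⟩
  · rw [show tX (8 / 100) = 8 / 15 by
      unfold tX; rw [tr_le' (by norm_num) (by norm_num) (by norm_num) (by norm_num) (by norm_num)]
      norm_num]
    rcases hM with rfl | rfl
    · have h := P8008 (x := x) (T := T) (y := y) (by linarith only [a]) (by linarith only [b]) (by linarith only [hT])
        (by linarith only [hT']) (by linarith only [y0]) (by linarith only [y1])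
      unfold t8 at h
      linarith only [hd, h]
    · have h := P8608 (x := x) (T := T) (y := y) (by linarith only [a]) (by linarith only [b]) (by linarith only [hT])
        (by linarith only [hT']) (by linarith only [y0]) (by linarith only [y1])
      unfold t86 at h
      linarith only [hd, h]
  · rw [show tX (9 / 100) = 3 / 5 by
      unfold tX; rw [tr_le' (by norm_num) (by norm_num) (by norm_num) (by norm_num) (by norm_num)]
      norm_num]
    rcases hM with rfl | rfl
    · have h := P8009 (x := x) (T := T) (y := y) (by linarith only [a]) (by linarith only [b]) (by linarith only [hT])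
        (by linarith only [hT']) (by linarith only [y0]) (by linarith only [y1])
      unfold t8 at h
      linarith only [hd, h]
    · have h := P8609 (x := x) (T := T) (y := y) (by linarith only [a]) (by linarith only [b]) (by linarith only [hT])
        (by linarith only [hT']) (by linarith only [y0]) (by linarith only [y1])
      unfold t86 at h
      linarith only [hd, h]
  · rw [show tX (10 / 100) = 2 / 3 by
      unfold tX; rw [tr_le' (by norm_num) (by norm_num) (by norm_num) (by norm_num) (by norm_num)]
      norm_num]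
    rcases hM with rfl | rfl
    · have h := P8010 (x := x) (T := T) (y := y) (by linarith only [a]) (by linarith only [b]) (by linarith only [hT])
        (by linarith only [hT']) (by linarith only [y0]) (by linarith only [y1])
      unfold t8 at h
      linarith only [hd, h]
    · have h := P8610 (x := x) (T := T) (y := y) (by linarith only [a]) (by linarith only [b]) (by linarith only [hT])
        (by linarith only [hT']) (by linarith only [y0]) (by linarith only [y1])
      unfold t86 at h
      linarith only [hd, h]
  · rw [show tX (15 / 100) = 1 from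
      tr_fl (by norm_num) (by norm_num) (by norm_num) (by norm_num)]
    rcases hM with rfl | rfl
    · have h := P8015 (x := x) (T := T) (y := y) (by linarith only [a]) (by linarith only [b]) (by linarith only [hT])
        (by linarith only [hT']) (by linarith only [y0]) (by linarith only [y1])
      unfold t8 at h
      linarith only [hd, h]
    · have h := P8615 (x := x) (T := T) (y := y) (by linarith only [a]) (by linarith only [b]) (by linarith only [hT])
        (by linarith only [hT']) (by linarith only [y0]) (by linarith only [y1])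
      unfold t86 at h
      linarith only [hd, h]
  · rw [show tX (20 / 100) = 1 from
      tr_fl (by norm_num) (by norm_num) (by norm_num) (by norm_num)]
    rcases hM with rfl | rfl
    · have h := P8020 (x := x) (T := T) (y := y) (by linarith only [a]) (by linarith only [b]) (by linarith only [hT])
        (by linarith only [hT']) (by linarith only [y0]) (by linarith only [y1])
      unfold t8 at h
      linarith only [hd, h]
    · have h := P8620 (x := x) (T := T) (y := y) (by linarith only [a]) (by linarith only [b]) (by linarith only [hT])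
        (by linarith only [hT']) (by linarith only [y0]) (by linarith only [y1])
      unfold t86 at h
      linarith only [hd, h]
  · rw [show tX (25 / 100) = 1 from
      tr_fl (by norm_num) (by norm_num) (by norm_num) (by norm_num)]
    rcases hM with rfl | rfl
    · have h := P8025 (x := x) (T := T) (y := y) (by linarith only [a]) (by linarith only [b]) (by linarith only [hT])
        (by linarith only [hT']) (by linarith only [y0]) (by linarith only [y1])
      unfold t8 at h
      linarith only [hd, h]
    · have h := P8625 (x := x) (T := T) (y := y) (by linarith only [a]) (by linarith only [b]) (by linarith only [hT])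
        (by linarith only [hT']) (by linarith only [y0]) (by linarith only [y1])
      unfold t86 at h
      linarith only [hd, h]
  · have hδ := hd' a
    rw [show tX (30 / 100) = 1 from
      tr_fl (by norm_num) (by norm_num) (by norm_num) (by norm_num)]
    rcases hM with rfl | rfl
    · have h := P8030 (x := x) (T := T) (y := y) (by linarith only [a]) (by linarith only [b]) (by linarith only [hT])
        (by linarith only [hT']) (by linarith only [y0]) (by linarith only [y1])
      unfold t8 at h
      linarith only [hδ, h]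
    · have h := P8630 (x := x) (T := T) (y := y) (by linarith only [a]) (by linarith only [b]) (by linarith only [hT])
        (by linarith only [hT']) (by linarith only [y0]) (by linarith only [y1])
      unfold t86 at h
      linarith only [hδ, h]

theorem uu_UU (x t : ℝ) : UU ⟨x, t⟩ = uu x t := rfl

/-- **Side of the `1`, the other hinge in its upper mode.** -/
theorem upA {x c T TK y XM δ : ℝ} {q : ℂ} (hx : XC x c) (hT : 21 / 1000 ≤ T)
    (hT' : T ≤ 92 / 1000) (hK : -(91 / 1000) ≤ TK) (hK' : TK ≤ 0)
    (hM : XM = 80 / 100 ∨ XM = 86 / 100) (y0 : 0 ≤ y) (y1 : y ≤ XM) (hd : 0 ≤ δ)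
    (hd' : 62 / 100 ≤ x → 1 / 100 ≤ δ) (hq : Dq q) :
    (-(Real.pi * (T * tr 0 (65 / 100) (15 / 100) (29 / 100) c +
          4 / 25 * tr 0 (65 / 100) (15 / 100) (29 / 100) x) + δ) <
      V1 ⟨c, T * tr 0 (65 / 100) (15 / 100) (29 / 100) c⟩
        ⟨y, 4 / 25 * tr 0 XM (15 / 100) (20 / 100) y⟩ -
      V1 ⟨x, -(4 / 25 * tr 0 (65 / 100) (15 / 100) (29 / 100) x)⟩
        ⟨y, 4 / 25 * tr 0 XM (15 / 100) (20 / 100) y⟩) ∨
    (-(Real.pi * (T * tr 0 (65 / 100) (15 / 100) (29 / 100) c +
          4 / 25 * tr 0 (65 / 100) (15 / 100) (29 / 100) x) + δ) <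
      V1 ⟨c, T * tr 0 (65 / 100) (15 / 100) (29 / 100) c⟩
        ⟨3 / 20, TK * tr 0 XM (15 / 100) (20 / 100) (3 / 20)⟩ -
      V1 ⟨x, -(4 / 25 * tr 0 (65 / 100) (15 / 100) (29 / 100) x)⟩
        ⟨y, 4 / 25 * tr 0 XM (15 / 100) (20 / 100) y⟩ +
      (V1 ⟨3 / 20, -(TK * tr 0 XM (15 / 100) (20 / 100) (3 / 20))⟩ q -
        V1 ⟨y, -(4 / 25 * tr 0 XM (15 / 100) (20 / 100) y)⟩ q) +
      2 * Real.pi * (4 / 25 * tr 0 XM (15 / 100) (20 / 100) y)) := by
  have e1 : ∀ a : ℝ, tr 0 (65 / 100) (15 / 100) (29 / 100) a = tX a := fun _ => rfl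
  simp only [e1]
  rcases le_total y (6 / 10) with hy | hy
  · right
    have hm : tr 0 XM (15 / 100) (20 / 100) (3 / 20) = 1 := by
      rcases hM with rfl | rfl <;>
        exact tr_fl (by norm_num) (by norm_num) (by norm_num) (by norm_num)
    rw [hm, t1_eq hM y0 hy]
    have h1 := near hx hT hT' hK hK' y0 hy
    have h2 := far hK hK' y0 hy hq
    have g1 : uu (3 / 20) (-(TK * 1)) = uu (3 / 20) TK := by
      rw [mul_one, NumU.uu_neg]
    have g2 : uu y (-(4 / 25 * t8 y)) = uu y (4 / 25 * t8 y) := NumU.uu_neg _ _
    have g3 : uu x (-(4 / 25 * tX x)) = uu x (4 / 25 * tX x) := NumU.uu_neg _ _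
    have f1 : ∀ (a b : ℝ) (z : ℂ), UU (⟨a, b⟩ + z) = uu (a + z.re) (b + z.im) := fun a b z => by
      unfold uu
      congr 1
    have k1 : c + 3 / 20 = c + 3 / 20 := rfl
    unfold V1
    simp only [f1, uu_UU, Complex.sub_im, Complex.mul_im]
    rw [g1, g2, g3]
    have j1 : uu (c + 3 / 20) (T * tX c + TK * 1) = uu (c + 3 / 20) (tX c * T + TK) := by
      rw [mul_one, mul_comm]
    have j2 : uu (x + y) (-(4 / 25 * tX x) + 4 / 25 * t8 y) =
        uu (x + y) (4 / 25 * t8 y - 4 / 25 * tX x) := by
      congr 1
      ring
    have j3 : uu (3 / 20 + q.re) (-(TK * 1) + q.im) = uu (3 / 20 + q.re) (q.im - TK) := by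
      congr 1
      ring
    have j4 : uu (y + q.re) (-(4 / 25 * t8 y) + q.im) = uu (y + q.re) (q.im - 4 / 25 * t8 y) := by
      congr 1
      ring
    have j5 : uu c (T * tX c) = uu c (tX c * T) := by rw [mul_comm]
    have j6 : uu (3 / 20) (TK * 1) = uu (3 / 20) TK := by rw [mul_one]
    rw [j1, j2, j3, j4, j5, j6]
    unfold fH fOld at h1
    unfold fA fB at h2
    linarith only [hd, h1, h2]
  · left
    have h := kept (δ := δ) hx hT hT' hM hy y1 hd hd'
    have g3 : uu x (-(4 / 25 * tX x)) = uu x (4 / 25 * tX x) := NumU.uu_neg _ _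
    have f1 : ∀ (a b : ℝ) (z : ℂ), UU (⟨a, b⟩ + z) = uu (a + z.re) (b + z.im) := fun a b z => by
      unfold uu
      congr 1
    unfold V1
    simp only [f1, uu_UU, Complex.sub_im, Complex.mul_im]
    rw [g3]
    generalize tr 0 XM (15 / 100) (20 / 100) y = t at h ⊢
    have j1 : uu (c + y) (T * tX c + 4 / 25 * t) = uu (c + y) (tX c * T + 4 / 25 * t) := by
      rw [mul_comm T]
    have j2 : uu (x + y) (-(4 / 25 * tX x) + 4 / 25 * t) =
        uu (x + y) (4 / 25 * t - 4 / 25 * tX x) := by
      congr 1
      ring
    have j5 : uu c (T * tX c) = uu c (tX c * T) := by rw [mul_comm]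
    rw [j1, j2, j5]
    unfold fP at h
    linarith only [h]

end K13

end Pool.Agent.Work.MP_b30479_gt.G2
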