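import Pool.Agent.Work.MP_b30479_gt.G2.WM_1_3bE

/-!
# Mirrored paths, kind `1 | 3`, the `3` at its slot `2`: rows
-/

namespace Pool.Agent.Work.MP_b30479_gt.G2.K3b

open NumG

theorem r_B4k : chkD [.of (rK (.q 1 4) (.q 1 1) tu dl), .of (r1 Tq (.q 1 4) (.q 1 1) dl)]
    10000 0 0 0 0 60 5800 6200 210 801 300 8000 0 10000
    0x50a082820a14282040828506141050a142850410284040410204081020a14105041428504081050a082820a142850a0c282081408404081020408103 = true := by
  decide +kernel

theorem r_B5k : chkD [.of (rK (.q 1 4) (.q 1 1) tu dl), .of (r2 Tp (.q 1 4) (.q 1 1) dl)]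
    10000 0 0 0 0 60 5800 6200 210 801 300 8000 0 430
    0x142820a082850a081020a141050a142820408102 = true := by
  decide +kernel

theorem r_B1j : chkD [.of (rK (.q 3 10) (.q 1 1) tm dj)]
    10000 0 0 0 0 60 6200 6500 210 801 0 7500 0 1080
    0x408101820810102081010408102030408102 = true := by
  decide +kernel

theorem r_B2j : chkD [.of (rK (.q 3 10) (.q 1 1) tm dj), .of (rM (.q 3 10) (.q 1 1) dj)]
    10000 0 0 0 0 60 6200 6500 210 801 7500 8000 0 1080
    0x142830a14183 = true := by
  decide +kernel

theorem r_B3j : chkD [.of (rK (.q 3 10) (.q 1 1) tu dj)]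
    10000 0 0 0 0 60 6200 6500 210 801 0 300 0 1080
    0x4 = true := by
  decide +kernel

theorem r_B4j : chkD [.of (rK (.q 3 10) (.q 1 1) tu dj), .of (r1 Tq (.q 3 10) (.q 1 1) dj)]
    10000 0 0 0 0 60 6200 6500 210 801 300 8000 0 10000
    0x50a082820a141020a141050a0c2850a142820614285060c2810a041050a0c20208002810a04202080810204081020a14105041428204142830a0828506142830a1428306081850a142850608281060c2850a0c285001408502140830614285060c2850a141830a081850208285040428506142830614085020828506101000a141840414085021010404081020408103 = true := by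
  decide +kernel

theorem r_B5j : chkD [.of (rK (.q 3 10) (.q 1 1) tu dj), .of (r2 Tp (.q 3 10) (.q 1 1) dj)]
    10000 0 0 0 0 60 6200 6500 210 801 300 8000 0 430
    0x50a082820a141020a141050a1428504141020408102 = true := by
  decide +kernel

end Pool.Agent.Work.MP_b30479_gt.G2.K3b
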