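import Pool.Agent.Work.MP_b30479_gt.G2.WM_1_3bV
import Pool.Agent.Work.MP_b30479_gt.G2.WM_1_3bB1
import Pool.Agent.Work.MP_b30479_gt.G2.WM_1_3bB2
import Pool.Agent.Work.MP_b30479_gt.G2.WM_1_3bB3
import Pool.Agent.Work.MP_b30479_gt.G2.WM_1_3bB4
import Pool.Agent.Work.MP_b30479_gt.G2.WM_1_3bB5
import Pool.Agent.Work.MP_b30479_gt.G2.WM_1_3bB6
import Pool.Agent.Work.MP_b30479_gt.G2.WM_1_3bB7
import Pool.Agent.Work.MP_b30479_gt.G2.WM_1_3bB8

/-!
# Mirrored paths, kind `1 | 3`, the `3` at its slot `2`: side of the `3`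

Behind the `1` a `1` (`sideB1m`, `sideB1u`) or a `2` (`sideB2m`, `sideB2u`); the inner variable of the
`3` on its main path (`m`) or on its upper mirrored path (`u`).
-/

namespace Pool.Agent.Work.MP_b30479_gt.G2

open Finset VOL Filter Topology

namespace K3b

open NumG

section values

variable {x T y p : ℝ} {c r s d tl : E} {C R P : ℝ}

theorem rK_val (hc : c.val [x, T, y, p] = C) (hr : r.val [x, T, y, p] = R)
    (hd : d.val [x, T, y, p] = P) :
    (rK c r s d).val [x, T, y, p] = V2 ⟨C, -(R * T)⟩ ⟨y, s.val [x, T, y, p]⟩ -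
      V2 ⟨x, hx x⟩ ⟨y, s.val [x, T, y, p]⟩ + Real.pi * (hx x - R * T) - P := by
  unfold rK
  rw [E.val, bk_val hc hr, hd]

theorem tm_val : tm.val [x, T, y, p] = Tl.val [x, T, y, p] * K23.τl y := by
  unfold tm
  rw [E.val, t8_val]

theorem lm_val : lm.val [x, T, y, p] =
    Real.pi * (-Tl.val [x, T, y, p]) * (1 - K23.τl y) + 1 / 4 * (y - 3 / 4) := by
  have e5 : (E.neg Tl).val [x, T, y, p] = -Tl.val [x, T, y, p] := rfl
  have e6 : (E.mul .pi (.mul (.neg Tl) (.sub (.q 1 1) t8))).val [x, T, y, p] =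
      Real.pi * ((-Tl.val [x, T, y, p]) * (1 - t8.val [x, T, y, p])) := by
    show Real.pi * ((-Tl.val [x, T, y, p]) * (((1 : ℤ) : ℝ) / ((1 : ℕ) : ℝ) - t8.val [x, T, y, p])) = _
    norm_num
  have e7 : (E.mul (.q 1 4) (.sub (.var 2) (.q 3 4))).val [x, T, y, p] = 1 / 4 * (y - 3 / 4) := by
    show ((1 : ℤ) : ℝ) / ((4 : ℕ) : ℝ) * (y - ((3 : ℤ) : ℝ) / ((4 : ℕ) : ℝ)) = _
    norm_num
  unfold lm
  rw [E.val, e6, e7, t8_val]
  ring

theorem lu_val : lu.val [x, T, y, p] =
    Real.pi * (-Tl.val [x, T, y, p]) + plR y 1145 LU - 2 * Real.pi * (16 / 100 * K23.τl y) := by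
  have e6 : (E.mul .pi (.neg Tl)).val [x, T, y, p] = Real.pi * (-Tl.val [x, T, y, p]) := rfl
  have e7 : (E.mul .pi (.mul (.q 8 25) t8)).val [x, T, y, p] =
      Real.pi * (8 / 25 * t8.val [x, T, y, p]) := by
    show Real.pi * (((8 : ℤ) : ℝ) / ((25 : ℕ) : ℝ) * t8.val [x, T, y, p]) = _
    norm_num
  unfold lu
  rw [E.val, E.val, e6, e7, E.pl_val, t8_val, v2]
  ring

theorem l1_val : (l1 tl).val [x, T, y, p] =
    plR y 304 A1 + plR y 1845 B1 * (-tl.val [x, T, y, p] - 15 / 1000) := by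
  have e7 : (E.sub (.neg tl) (.q 15 1000)).val [x, T, y, p] = -tl.val [x, T, y, p] - 15 / 1000 := by
    show -tl.val [x, T, y, p] - ((15 : ℤ) : ℝ) / ((1000 : ℕ) : ℝ) = _
    norm_num
  unfold l1
  rw [E.val, E.val, e7, E.pl_val, E.pl_val, v2]

theorem l2_val : (l2 tl).val [x, T, y, p] =
    plR y 227 A2 + plR y 2180 B2 * (-tl.val [x, T, y, p] - 80 / 1000) := by
  have e7 : (E.sub (.neg tl) (.q 80 1000)).val [x, T, y, p] = -tl.val [x, T, y, p] - 80 / 1000 := by
    show -tl.val [x, T, y, p] - ((80 : ℤ) : ℝ) / ((1000 : ℕ) : ℝ) = _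
    norm_num
  unfold l2
  rw [E.val, E.val, e7, E.pl_val, E.pl_val, v2]

theorem q34 : (E.q 3 4).val [x, T, y, p] = 3 / 4 := by norm_num [E.val]
theorem q310 : (E.q 3 10).val [x, T, y, p] = 3 / 10 := by norm_num [E.val]
theorem q720 : (E.q 7 20).val [x, T, y, p] = 7 / 20 := by norm_num [E.val]

theorem rM_val (hc : c.val [x, T, y, p] = C) (hr : r.val [x, T, y, p] = R)
    (hd : d.val [x, T, y, p] = P) :
    (rM c r d).val [x, T, y, p] = V2 ⟨C, -(R * T)⟩ ⟨3 / 4, Tl.val [x, T, y, p]⟩ -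
      V2 ⟨x, hx x⟩ ⟨y, Tl.val [x, T, y, p] * K23.τl y⟩ + Real.pi * (hx x - R * T) -
      (Real.pi * (-Tl.val [x, T, y, p]) * (1 - K23.τl y) + 1 / 4 * (y - 3 / 4)) - P := by
  unfold rM
  rw [E.val, E.val, bq_val q34 hc hr, lm_val, hd, tm_val]

theorem rU_val (hc : c.val [x, T, y, p] = C) (hr : r.val [x, T, y, p] = R)
    (hd : d.val [x, T, y, p] = P) :
    (rU c r d).val [x, T, y, p] = V2 ⟨C, -(R * T)⟩ ⟨3 / 4, Tl.val [x, T, y, p]⟩ -
      V2 ⟨x, hx x⟩ ⟨y, 16 / 100 * K23.τl y⟩ + Real.pi * (hx x - R * T) -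
      (Real.pi * (-Tl.val [x, T, y, p]) + plR y 1145 LU - 2 * Real.pi * (16 / 100 * K23.τl y)) -
      P := by
  unfold rU
  rw [E.val, E.val, bq_val q34 hc hr, lu_val, hd, tu_val]

theorem r1_val (hc : c.val [x, T, y, p] = C) (hr : r.val [x, T, y, p] = R)
    (hd : d.val [x, T, y, p] = P) :
    (r1 tl c r d).val [x, T, y, p] = V2 ⟨C, -(R * T)⟩ ⟨3 / 10, tl.val [x, T, y, p]⟩ -
      V2 ⟨x, hx x⟩ ⟨y, 16 / 100 * K23.τl y⟩ + Real.pi * (hx x - R * T) -
      (plR y 304 A1 + plR y 1845 B1 * (-tl.val [x, T, y, p] - 15 / 1000)) - P := by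
  unfold r1
  rw [E.val, E.val, bq_val q310 hc hr, l1_val, hd, tu_val]

theorem r2_val (hc : c.val [x, T, y, p] = C) (hr : r.val [x, T, y, p] = R)
    (hd : d.val [x, T, y, p] = P) :
    (r2 tl c r d).val [x, T, y, p] = V2 ⟨C, -(R * T)⟩ ⟨7 / 20, tl.val [x, T, y, p]⟩ -
      V2 ⟨x, hx x⟩ ⟨y, 16 / 100 * K23.τl y⟩ + Real.pi * (hx x - R * T) -
      (plR y 227 A2 + plR y 2180 B2 * (-tl.val [x, T, y, p] - 80 / 1000)) - P := by
  unfold r2
  rw [E.val, E.val, bq_val q720 hc hr, l2_val, hd, tu_val]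

end values

/-- windows of the inner variable -/
structure Wd (T w : ℝ) : Prop where
  w0 : -(123 / 1000) ≤ w
  w1 : w ≤ -(15 / 1000)
  w2 : T + w ≤ 512 / 10000

variable {cn rn : ℤ} {cd rd : ℕ} {d : E} {C R P x T y w : ℝ}
  {l0 h0 l1 h1 f1 c1 f2 c2 f3 c3 a0 a1 b0 b1 : ℕ} {q : Prop}

/-- the fourth variable of the rows -/
theorem Wd.p (h : Wd T w) : ∃ p : ℝ, 0 ≤ p ∧ p ≤ 1080 / 10000 ∧
    -(15 / 1000) - max (T - 662 / 10000) 0 - p = w := by
  obtain ⟨w0, w1, w2⟩ := h
  refine ⟨-(15 / 1000) - max (T - 662 / 10000) 0 - w, ?_, ?_, by ring⟩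
  · rcases le_total (T - 662 / 10000) 0 with h1 | h1
    · rw [max_eq_right h1]; linarith only [w1]
    · rw [max_eq_left h1]; linarith only [w2]
  · have := le_max_right (T - 662 / 10000) 0
    linarith only [w0, this]

theorem Wd.p1 (h : Wd T w) (hT : T ≤ 894 / 10000) (hw : -(90 / 1000) ≤ w) :
    ∃ p : ℝ, 0 ≤ p ∧ p ≤ 1 ∧ -(90 / 1000) + p * (75 / 1000 - max (T - 662 / 10000) 0) = w := by
  obtain ⟨w0, w1, w2⟩ := h
  have hm : max (T - 662 / 10000) 0 ≤ 232 / 10000 := max_le (by linarith only [hT]) (by norm_num)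
  have hw2 : w ≤ -(15 / 1000) - max (T - 662 / 10000) 0 := by
    rcases le_total (T - 662 / 10000) 0 with h1 | h1
    · rw [max_eq_right h1]; linarith only [w1]
    · rw [max_eq_left h1]; linarith only [w2]
  have hp : 0 < 75 / 1000 - max (T - 662 / 10000) 0 := by linarith only [hm]
  refine ⟨(w + 90 / 1000) / (75 / 1000 - max (T - 662 / 10000) 0), div_nonneg (by linarith only [hw]) hp.le,
    (div_le_one hp).2 (by linarith only [hw2]), ?_⟩
  rw [div_mul_cancel₀ _ hp.ne']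
  ring

theorem Wd.p2 (h : Wd T w) (hT : T ≤ 894 / 10000) (hw : -(80 / 1000) ≤ w) :
    ∃ p : ℝ, 0 ≤ p ∧ p ≤ 1 ∧ -(80 / 1000) + p * (65 / 1000 - max (T - 662 / 10000) 0) = w := by
  obtain ⟨w0, w1, w2⟩ := h
  have hm : max (T - 662 / 10000) 0 ≤ 232 / 10000 := max_le (by linarith only [hT]) (by norm_num)
  have hw2 : w ≤ -(15 / 1000) - max (T - 662 / 10000) 0 := by
    rcases le_total (T - 662 / 10000) 0 with h1 | h1
    · rw [max_eq_right h1]; linarith only [w1]
    · rw [max_eq_left h1]; linarith only [w2]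
  have hp : 0 < 65 / 1000 - max (T - 662 / 10000) 0 := by linarith only [hm]
  refine ⟨(w + 80 / 1000) / (65 / 1000 - max (T - 662 / 10000) 0), div_nonneg (by linarith only [hw]) hp.le,
    (div_le_one hp).2 (by linarith only [hw2]), ?_⟩
  rw [div_mul_cancel₀ _ hp.ne']
  ring

theorem qv (n : ℤ) (m : ℕ) (hC : (n : ℝ) / m = C) {p : ℝ} : (E.q n m).val [x, T, y, p] = C := hC

/-- box condition -/
theorem bx {l h : ℕ} {t : ℝ} (h0 : (l : ℝ) / 10000 ≤ t) (h1 : t ≤ (h : ℝ) / 10000) :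
    ((l : ℝ) - (0 : ℕ)) / (10000 : ℕ) ≤ t ∧ t ≤ ((h : ℝ) - (0 : ℕ)) / (10000 : ℕ) := by
  push_cast
  rw [sub_zero, sub_zero]
  exact ⟨h0, h1⟩

/-- **Main path** -/
theorem GM_of (hC : (cn : ℝ) / cd = C) (hR : (rn : ℝ) / rd = R)
    (hd : ∀ y p, d.val [x, T, y, p] = P)
    (k1 : chkD [.of (rK (.q cn cd) (.q rn rd) tm d)] 10000 0 0 0 0 f1 l0 h0 l1 h1 0 7500 0 1080 c1 =
      true)
    (k2 : chkD [.of (rK (.q cn cd) (.q rn rd) tm d), .of (rM (.q cn cd) (.q rn rd) d)] 10000 0 0 0 0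
      f2 l0 h0 l1 h1 7500 8000 0 1080 c2 = true)
    (x0 : (l0 : ℝ) / 10000 ≤ x) (x1 : x ≤ (h0 : ℝ) / 10000) (T0 : (l1 : ℝ) / 10000 ≤ T)
    (T1 : T ≤ (h1 : ℝ) / 10000) (hw : Wd T w) (y0 : 0 ≤ y) (y1 : y ≤ 8 / 10) :
    GM x T C R P y w := by
  obtain ⟨p, p0, p1, hp⟩ := hw.p
  have et : Tl.val [x, T, y, p] = w := by rw [Tl_val, hp]
  have bp : (((0 : ℕ) : ℝ) - (0 : ℕ)) / (10000 : ℕ) ≤ p ∧
      p ≤ (((1080 : ℕ) : ℝ) - (0 : ℕ)) / (10000 : ℕ) := by
    constructor <;> push_cast <;> linarith only [p0, p1]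
  rcases le_total y (3 / 4) with hy | hy
  · left
    have h1 := K23.dk1 k1 (by norm_num) (bx x0 x1) (bx T0 T1) (z := y) (w := p)
      (by constructor <;> push_cast <;> linarith only [y0, hy]) bp
    have h2 : 0 < (rK (.q cn cd) (.q rn rd) tm d).val [x, T, y, p] := h1
    rw [rK_val (qv _ _ hC) (qv _ _ hR) (hd y p), tm_val, et] at h2
    linarith only [h2]
  · rcases K23.dk2 k2 (by norm_num) (bx x0 x1) (bx T0 T1) (z := y) (w := p)
      (by constructor <;> push_cast <;> linarith only [hy, y1]) bp with h1 | h1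
    · left
      have h2 : 0 < (rK (.q cn cd) (.q rn rd) tm d).val [x, T, y, p] := h1
      rw [rK_val (qv _ _ hC) (qv _ _ hR) (hd y p), tm_val, et] at h2
      linarith only [h2]
    · right
      refine ⟨hy, ?_⟩
      have h2 : 0 < (rM (.q cn cd) (.q rn rd) d).val [x, T, y, p] := h1
      rw [rM_val (qv _ _ hC) (qv _ _ hR) (hd y p), et] at h2
      linarith only [h2]

/-- **Upper mirrored path**, kept or to `3/4` -/
theorem GU_of (hC : (cn : ℝ) / cd = C) (hR : (rn : ℝ) / rd = R)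
    (hd : ∀ y p, d.val [x, T, y, p] = P)
    (k1 : chkD [.of (rK (.q cn cd) (.q rn rd) tu d)] 10000 0 0 0 0 f1 l0 h0 l1 h1 0 4500 0 1080 c1 =
      true)
    (k2 : chkD [.of (rK (.q cn cd) (.q rn rd) tu d), .of (rU (.q cn cd) (.q rn rd) d)] 10000 0 0 0 0
      f2 l0 h0 l1 h1 4500 8000 0 1080 c2 = true)
    (x0 : (l0 : ℝ) / 10000 ≤ x) (x1 : x ≤ (h0 : ℝ) / 10000) (T0 : (l1 : ℝ) / 10000 ≤ T)
    (T1 : T ≤ (h1 : ℝ) / 10000) (hw : Wd T w) (y0 : 0 ≤ y) (y1 : y ≤ 8 / 10) :
    GU x T C R P y w q := by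
  obtain ⟨p, p0, p1, hp⟩ := hw.p
  have et : Tl.val [x, T, y, p] = w := by rw [Tl_val, hp]
  have bp : (((0 : ℕ) : ℝ) - (0 : ℕ)) / (10000 : ℕ) ≤ p ∧
      p ≤ (((1080 : ℕ) : ℝ) - (0 : ℕ)) / (10000 : ℕ) := by
    constructor <;> push_cast <;> linarith only [p0, p1]
  rcases le_total y (45 / 100) with hy | hy
  · left
    have h1 := K23.dk1 k1 (by norm_num) (bx x0 x1) (bx T0 T1) (z := y) (w := p)
      (by constructor <;> push_cast <;> linarith only [y0, hy]) bp
    have h2 : 0 < (rK (.q cn cd) (.q rn rd) tu d).val [x, T, y, p] := h1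
    rw [rK_val (qv _ _ hC) (qv _ _ hR) (hd y p), tu_val] at h2
    linarith only [h2]
  · rcases K23.dk2 k2 (by norm_num) (bx x0 x1) (bx T0 T1) (z := y) (w := p)
      (by constructor <;> push_cast <;> linarith only [hy, y1]) bp with h1 | h1
    · left
      have h2 : 0 < (rK (.q cn cd) (.q rn rd) tu d).val [x, T, y, p] := h1
      rw [rK_val (qv _ _ hC) (qv _ _ hR) (hd y p), tu_val] at h2
      linarith only [h2]
    · right; left
      refine ⟨hy, ?_⟩
      have h2 : 0 < (rU (.q cn cd) (.q rn rd) d).val [x, T, y, p] := h1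
      rw [rU_val (qv _ _ hC) (qv _ _ hR) (hd y p), et] at h2
      linarith only [h2]

/-- **Upper mirrored path**, real part at most `3/100` -/
theorem GU_low (hC : (cn : ℝ) / cd = C) (hR : (rn : ℝ) / rd = R)
    (hd : ∀ y p, d.val [x, T, y, p] = P)
    (k1 : chkD [.of (rK (.q cn cd) (.q rn rd) tu d)] 10000 0 0 0 0 f1 l0 h0 l1 h1 0 300 0 1080 c1 =
      true)
    (x0 : (l0 : ℝ) / 10000 ≤ x) (x1 : x ≤ (h0 : ℝ) / 10000) (T0 : (l1 : ℝ) / 10000 ≤ T)
    (T1 : T ≤ (h1 : ℝ) / 10000) (y0 : 0 ≤ y) (y1 : y ≤ 3 / 100) :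
    GU x T C R P y w q := by
  left
  have h1 := K23.dk1 k1 (by norm_num) (bx x0 x1) (bx T0 T1) (z := y) (w := 0)
    (by constructor <;> push_cast <;> linarith only [y0, y1]) (by constructor <;> push_cast <;> norm_num)
  have h2 : 0 < (rK (.q cn cd) (.q rn rd) tu d).val [x, T, y, 0] := h1
  rw [rK_val (qv _ _ hC) (qv _ _ hR) (hd y 0), tu_val] at h2
  linarith only [h2]

/-- **Upper mirrored path**, kept or to `3/10` -/
theorem GU_1 {tl : E} {p : ℝ} (hC : (cn : ℝ) / cd = C) (hR : (rn : ℝ) / rd = R)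
    (hd : ∀ y p, d.val [x, T, y, p] = P)
    (k2 : chkD [.of (rK (.q cn cd) (.q rn rd) tu d), .of (r1 tl (.q cn cd) (.q rn rd) d)] 10000
      0 0 0 0 f2 l0 h0 l1 h1 300 8000 0 10000 c2 = true)
    (x0 : (l0 : ℝ) / 10000 ≤ x) (x1 : x ≤ (h0 : ℝ) / 10000) (T0 : (l1 : ℝ) / 10000 ≤ T)
    (T1 : T ≤ (h1 : ℝ) / 10000) (y0 : 3 / 100 ≤ y) (y1 : y ≤ 8 / 10) (p0 : 0 ≤ p) (p1 : p ≤ 1)
    (et : tl.val [x, T, y, p] = w) (hw : -(90 / 1000) ≤ w) :
    GU x T C R P y w q := by
  rcases K23.dk2 k2 (by norm_num) (bx x0 x1) (bx T0 T1) (z := y) (w := p)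
    (by constructor <;> push_cast <;> linarith only [y0, y1]) (by constructor <;> push_cast <;> linarith only [p0, p1]) with
    h1 | h1
  · left
    have h2 : 0 < (rK (.q cn cd) (.q rn rd) tu d).val [x, T, y, p] := h1
    rw [rK_val (qv _ _ hC) (qv _ _ hR) (hd y p), tu_val] at h2
    linarith only [h2]
  · right; right; left
    refine ⟨y0, hw, ?_⟩
    have h2 : 0 < (r1 tl (.q cn cd) (.q rn rd) d).val [x, T, y, p] := h1
    rw [r1_val (qv _ _ hC) (qv _ _ hR) (hd y p), et] at h2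
    linarith only [h2]

/-- **Upper mirrored path**, kept or to `7/20` -/
theorem GU_2 (hC : (cn : ℝ) / cd = C) (hR : (rn : ℝ) / rd = R)
    (hd : ∀ y p, d.val [x, T, y, p] = P)
    (k2 : chkD [.of (rK (.q cn cd) (.q rn rd) tu d), .of (r2 Tp (.q cn cd) (.q rn rd) d)] 10000
      0 0 0 0 f2 l0 h0 l1 h1 300 8000 0 430 c2 = true)
    (x0 : (l0 : ℝ) / 10000 ≤ x) (x1 : x ≤ (h0 : ℝ) / 10000) (T0 : (l1 : ℝ) / 10000 ≤ T)
    (T1 : T ≤ (h1 : ℝ) / 10000) (y0 : 3 / 100 ≤ y) (y1 : y ≤ 8 / 10)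
    (hq : q) (hw : -(123 / 1000) ≤ w) (hw' : w ≤ -(80 / 1000)) :
    GU x T C R P y w q := by
  have et : Tp.val [x, T, y, -(80 / 1000) - w] = w := by rw [Tp_val]; ring
  rcases K23.dk2 k2 (by norm_num) (bx x0 x1) (bx T0 T1) (z := y) (w := -(80 / 1000) - w)
    (by constructor <;> push_cast <;> linarith only [y0, y1]) (by constructor <;> push_cast <;> linarith only [hw', hw]) with
    h1 | h1
  · left
    have h2 : 0 < (rK (.q cn cd) (.q rn rd) tu d).val [x, T, y, -(80 / 1000) - w] := h1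
    rw [rK_val (qv _ _ hC) (qv _ _ hR) (hd y _), tu_val] at h2
    linarith only [h2]
  · right; right; right
    refine ⟨hq, y0, hw', ?_⟩
    have h2 : 0 < (r2 Tp (.q cn cd) (.q rn rd) d).val [x, T, y, -(80 / 1000) - w] := h1
    rw [r2_val (qv _ _ hC) (qv _ _ hR) (hd y _), et] at h2
    linarith only [h2]

/-- common cells, main path -/
theorem sideBm {c r : ℝ} (h : CL x c r) (T0 : 21 / 1000 ≤ T) (T1 : T ≤ 894 / 10000) (hw : Wd T w)
    (y0 : 0 ≤ y) (y1 : y ≤ 8 / 10) : GM x T c r (pL x T) y w := by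
  rcases h with ⟨x0, x1, rfl, rfl⟩ | ⟨x0, x1, rfl, rfl⟩ | ⟨x0, x1, rfl, rfl⟩ | ⟨x0, x1, rfl, rfl⟩ |
    ⟨x0, x1, rfl, rfl⟩ | ⟨x0, x1, rfl, rfl⟩
  · exact GM_of (by norm_num) (by norm_num) (fun _ _ => rfl) r_B1a r_B2a (by push_cast; linarith only [x0]) (by push_cast; linarith only [x1]) (by push_cast; linarith only [T0]) (by push_cast; linarith only [T1]) hw y0 y1
  · exact GM_of (by norm_num) (by norm_num) (fun _ _ => rfl) r_B1b r_B2b (by push_cast; linarith only [x0]) (by push_cast; linarith only [x1]) (by push_cast; linarith only [T0]) (by push_cast; linarith only [T1]) hw y0 y1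
  · exact GM_of (by norm_num) (by norm_num) (fun _ _ => rfl) r_B1c r_B2c (by push_cast; linarith only [x0]) (by push_cast; linarith only [x1]) (by push_cast; linarith only [T0]) (by push_cast; linarith only [T1]) hw y0 y1
  · exact GM_of (by norm_num) (by norm_num) (fun _ _ => rfl) r_B1e r_B2e (by push_cast; linarith only [x0]) (by push_cast; linarith only [x1]) (by push_cast; linarith only [T0]) (by push_cast; linarith only [T1]) hw y0 y1
  · exact GM_of (by norm_num) (by norm_num) (fun _ _ => rfl) r_B1f r_B2f (by push_cast; linarith only [x0]) (by push_cast; linarith only [x1]) (by push_cast; linarith only [T0]) (by push_cast; linarith only [T1]) hw y0 y1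
  · exact GM_of (by norm_num) (by norm_num) (fun _ _ => rfl) r_B1g r_B2g (by push_cast; linarith only [x0]) (by push_cast; linarith only [x1]) (by push_cast; linarith only [T0]) (by push_cast; linarith only [T1]) hw y0 y1

/-- common cells, upper mirrored path -/
theorem sideBu {c r : ℝ} (h : CL x c r) (T0 : 21 / 1000 ≤ T) (T1 : T ≤ 894 / 10000) (hw : Wd T w)
    (y0 : 0 ≤ y) (y1 : y ≤ 8 / 10) : GU x T c r (pL x T) y w q := by
  rcases h with ⟨x0, x1, rfl, rfl⟩ | ⟨x0, x1, rfl, rfl⟩ | ⟨x0, x1, rfl, rfl⟩ | ⟨x0, x1, rfl, rfl⟩ |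
    ⟨x0, x1, rfl, rfl⟩ | ⟨x0, x1, rfl, rfl⟩
  · exact GU_of (by norm_num) (by norm_num) (fun _ _ => rfl) r_B3a r_B4a (by push_cast; linarith only [x0]) (by push_cast; linarith only [x1]) (by push_cast; linarith only [T0]) (by push_cast; linarith only [T1]) hw y0 y1
  · exact GU_of (by norm_num) (by norm_num) (fun _ _ => rfl) r_B3b r_B4b (by push_cast; linarith only [x0]) (by push_cast; linarith only [x1]) (by push_cast; linarith only [T0]) (by push_cast; linarith only [T1]) hw y0 y1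
  · exact GU_of (by norm_num) (by norm_num) (fun _ _ => rfl) r_B3c r_B4c (by push_cast; linarith only [x0]) (by push_cast; linarith only [x1]) (by push_cast; linarith only [T0]) (by push_cast; linarith only [T1]) hw y0 y1
  · exact GU_of (by norm_num) (by norm_num) (fun _ _ => rfl) r_B3e r_B4e (by push_cast; linarith only [x0]) (by push_cast; linarith only [x1]) (by push_cast; linarith only [T0]) (by push_cast; linarith only [T1]) hw y0 y1
  · exact GU_of (by norm_num) (by norm_num) (fun _ _ => rfl) r_B3f r_B4f (by push_cast; linarith only [x0]) (by push_cast; linarith only [x1]) (by push_cast; linarith only [T0]) (by push_cast; linarith only [T1]) hw y0 y1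
  · exact GU_of (by norm_num) (by norm_num) (fun _ _ => rfl) r_B3g r_B4g (by push_cast; linarith only [x0]) (by push_cast; linarith only [x1]) (by push_cast; linarith only [T0]) (by push_cast; linarith only [T1]) hw y0 y1

/-- **Side of the `3`**, behind the `1` a `1`, inner variable on its main path. -/
theorem sideB1m {c r δ : ℝ} (h : C1 x T c r δ) (T0 : 21 / 1000 ≤ T) (T1 : T ≤ 801 / 10000)
    (w0 : -(123 / 1000) ≤ w) (w1 : w ≤ -(15 / 1000)) (w2 : T + w ≤ 512 / 10000) (y0 : 0 ≤ y)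
    (y1 : y ≤ 8 / 10) : GM x T c r δ y w := by
  have hw : Wd T w := ⟨w0, w1, w2⟩
  rcases h with ⟨h, rfl⟩ | ⟨x0, x1, rfl, rfl, rfl⟩ | ⟨x0, x1, rfl, rfl, rfl⟩ |
    ⟨x0, x1, rfl, rfl, rfl⟩
  · exact sideBm h T0 (by linarith only [T1]) hw y0 y1
  · exact GM_of (by norm_num) (by norm_num) (fun _ _ => rfl) r_B1m r_B2m (by push_cast; linarith only [x0]) (by push_cast; linarith only [x1]) (by push_cast; linarith only [T0]) (by push_cast; linarith only [T1]) hw y0 y1
  · exact GM_of (by norm_num) (by norm_num) (fun _ _ => rfl) r_B1k r_B2k (by push_cast; linarith only [x0]) (by push_cast; linarith only [x1]) (by push_cast; linarith only [T0]) (by push_cast; linarith only [T1]) hw y0 y1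
  · exact GM_of (by norm_num) (by norm_num) (fun _ _ => rfl) r_B1j r_B2j (by push_cast; linarith only [x0]) (by push_cast; linarith only [x1]) (by push_cast; linarith only [T0]) (by push_cast; linarith only [T1]) hw y0 y1

/-- **Side of the `3`**, behind the `1` a `1`, inner variable on its upper mirrored path. -/
theorem sideB1u {c r δ : ℝ} (h : C1 x T c r δ) (T0 : 21 / 1000 ≤ T) (T1 : T ≤ 801 / 10000)
    (w0 : -(123 / 1000) ≤ w) (w1 : w ≤ -(15 / 1000)) (w2 : T + w ≤ 512 / 10000) (y0 : 0 ≤ y)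
    (y1 : y ≤ 8 / 10) (hq : q ∨ -(90 / 1000) ≤ w) : GU x T c r δ y w q := by
  have hw : Wd T w := ⟨w0, w1, w2⟩
  rcases h with ⟨h, rfl⟩ | ⟨x0, x1, rfl, rfl, rfl⟩ | ⟨x0, x1, rfl, rfl, rfl⟩ |
    ⟨x0, x1, rfl, rfl, rfl⟩
  · exact sideBu h T0 (by linarith only [T1]) hw y0 y1
  · exact GU_of (by norm_num) (by norm_num) (fun _ _ => rfl) r_B3m r_B4m (by push_cast; linarith only [x0]) (by push_cast; linarith only [x1]) (by push_cast; linarith only [T0]) (by push_cast; linarith only [T1]) hw y0 y1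
  · rcases le_total y (3 / 100) with hy | hy
    · exact GU_low (by norm_num) (by norm_num) (fun _ _ => rfl) r_B3k (by push_cast; linarith only [x0]) (by push_cast; linarith only [x1]) (by push_cast; linarith only [T0]) (by push_cast; linarith only [T1]) y0 hy
    rcases le_total (-(90 / 1000)) w with hv | hv
    · obtain ⟨p, p0, p1, hp⟩ := hw.p1 (by linarith only [T1]) hv
      exact GU_1 (by norm_num) (by norm_num) (fun _ _ => rfl) r_B4k (by push_cast; linarith only [x0]) (by push_cast; linarith only [x1]) (by push_cast; linarith only [T0]) (by push_cast; linarith only [T1]) hy y1 p0 p1 (by rw [Tq_val, hp]) (by linarith only [hv])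
    rcases hq with hq | hq
    · exact GU_2 (by norm_num) (by norm_num) (fun _ _ => rfl) r_B5k (by push_cast; linarith only [x0]) (by push_cast; linarith only [x1]) (by push_cast; linarith only [T0]) (by push_cast; linarith only [T1]) hy y1 hq hw.w0 (by linarith only [hv])
    · obtain ⟨p, p0, p1, hp⟩ := hw.p1 (by linarith only [T1]) hq
      exact GU_1 (by norm_num) (by norm_num) (fun _ _ => rfl) r_B4k (by push_cast; linarith only [x0]) (by push_cast; linarith only [x1]) (by push_cast; linarith only [T0]) (by push_cast; linarith only [T1]) hy y1 p0 p1 (by rw [Tq_val, hp]) (by linarith only [hq])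
  · rcases le_total y (3 / 100) with hy | hy
    · exact GU_low (by norm_num) (by norm_num) (fun _ _ => rfl) r_B3j (by push_cast; linarith only [x0]) (by push_cast; linarith only [x1]) (by push_cast; linarith only [T0]) (by push_cast; linarith only [T1]) y0 hy
    rcases le_total (-(90 / 1000)) w with hv | hv
    · obtain ⟨p, p0, p1, hp⟩ := hw.p1 (by linarith only [T1]) hv
      exact GU_1 (by norm_num) (by norm_num) (fun _ _ => rfl) r_B4j (by push_cast; linarith only [x0]) (by push_cast; linarith only [x1]) (by push_cast; linarith only [T0]) (by push_cast; linarith only [T1]) hy y1 p0 p1 (by rw [Tq_val, hp]) (by linarith only [hv])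
    rcases hq with hq | hq
    · exact GU_2 (by norm_num) (by norm_num) (fun _ _ => rfl) r_B5j (by push_cast; linarith only [x0]) (by push_cast; linarith only [x1]) (by push_cast; linarith only [T0]) (by push_cast; linarith only [T1]) hy y1 hq hw.w0 (by linarith only [hv])
    · obtain ⟨p, p0, p1, hp⟩ := hw.p1 (by linarith only [T1]) hq
      exact GU_1 (by norm_num) (by norm_num) (fun _ _ => rfl) r_B4j (by push_cast; linarith only [x0]) (by push_cast; linarith only [x1]) (by push_cast; linarith only [T0]) (by push_cast; linarith only [T1]) hy y1 p0 p1 (by rw [Tq_val, hp]) (by linarith only [hq])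

/-- **Side of the `3`**, behind the `1` a `2`, inner variable on its main path. -/
theorem sideB2m {c r δ : ℝ} (h : C2 x T c r δ) (T0 : 46 / 1000 ≤ T) (T1 : T ≤ 894 / 10000)
    (w0 : -(123 / 1000) ≤ w) (w1 : w ≤ -(15 / 1000)) (w2 : T + w ≤ 512 / 10000) (y0 : 0 ≤ y)
    (y1 : y ≤ 8 / 10) : GM x T c r δ y w := by
  have hw : Wd T w := ⟨w0, w1, w2⟩
  rcases h with ⟨h, rfl⟩ | ⟨x0, x1, rfl, rfl, rfl⟩ | ⟨x0, x1, rfl, rfl, rfl⟩
  · exact sideBm h (by linarith only [T0]) T1 hw y0 y1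
  · exact GM_of (by norm_num) (by norm_num) (fun _ _ => rfl) r_B1d r_B2d (by push_cast; linarith only [x0]) (by push_cast; linarith only [x1]) (by push_cast; linarith only [T0]) (by push_cast; linarith only [T1]) hw y0 y1
  · exact GM_of (by norm_num) (by norm_num) (fun _ _ => rfl) r_B1h r_B2h (by push_cast; linarith only [x0]) (by push_cast; linarith only [x1]) (by push_cast; linarith only [T0]) (by push_cast; linarith only [T1]) hw y0 y1

/-- **Side of the `3`**, behind the `1` a `2`, inner variable on its upper mirrored path. -/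
theorem sideB2u {c r δ : ℝ} (h : C2 x T c r δ) (T0 : 46 / 1000 ≤ T) (T1 : T ≤ 894 / 10000)
    (w0 : -(123 / 1000) ≤ w) (w1 : w ≤ -(15 / 1000)) (w2 : T + w ≤ 512 / 10000) (y0 : 0 ≤ y)
    (y1 : y ≤ 8 / 10) (hq : q ∨ -(80 / 1000) ≤ w) : GU x T c r δ y w q := by
  have hw : Wd T w := ⟨w0, w1, w2⟩
  rcases h with ⟨h, rfl⟩ | ⟨x0, x1, rfl, rfl, rfl⟩ | ⟨x0, x1, rfl, rfl, rfl⟩
  · exact sideBu h (by linarith only [T0]) T1 hw y0 y1
  · exact GU_of (by norm_num) (by norm_num) (fun _ _ => rfl) r_B3d r_B4d (by push_cast; linarith only [x0]) (by push_cast; linarith only [x1]) (by push_cast; linarith only [T0]) (by push_cast; linarith only [T1]) hw y0 y1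
  · rcases le_total y (3 / 100) with hy | hy
    · exact GU_low (by norm_num) (by norm_num) (fun _ _ => rfl) r_B3h (by push_cast; linarith only [x0]) (by push_cast; linarith only [x1]) (by push_cast; linarith only [T0]) (by push_cast; linarith only [T1]) y0 hy
    rcases le_total (-(80 / 1000)) w with hv | hv
    · obtain ⟨p, p0, p1, hp⟩ := hw.p2 (by linarith only [T1]) hv
      exact GU_1 (by norm_num) (by norm_num) (fun _ _ => rfl) r_B4h (by push_cast; linarith only [x0]) (by push_cast; linarith only [x1]) (by push_cast; linarith only [T0]) (by push_cast; linarith only [T1]) hy y1 p0 p1 (by rw [Tr_val, hp]) (by linarith only [hv])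
    rcases hq with hq | hq
    · exact GU_2 (by norm_num) (by norm_num) (fun _ _ => rfl) r_B5h (by push_cast; linarith only [x0]) (by push_cast; linarith only [x1]) (by push_cast; linarith only [T0]) (by push_cast; linarith only [T1]) hy y1 hq hw.w0 (by linarith only [hv])
    · obtain ⟨p, p0, p1, hp⟩ := hw.p2 (by linarith only [T1]) hq
      exact GU_1 (by norm_num) (by norm_num) (fun _ _ => rfl) r_B4h (by push_cast; linarith only [x0]) (by push_cast; linarith only [x1]) (by push_cast; linarith only [T0]) (by push_cast; linarith only [T1]) hy y1 p0 p1 (by rw [Tr_val, hp]) (by linarith only [hq])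

end K3b

end Pool.Agent.Work.MP_b30479_gt.G2
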