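import Pool.Agent.Work.MP_b30479_gt.G2.WM_1_3bG

/-!
# Mirrored paths, kind `1 | 3`, the `3` at its slot `2`: rows
-/

namespace Pool.Agent.Work.MP_b30479_gt.G2.K3b

open NumG

theorem r_E4h : chkD [.of (rK (.q 8 25) (.q 1 1) tu dE), .of (r1 Ts (.q 8 25) (.q 1 1) dE)]
    10000 0 0 0 0 60 5800 6500 870 1145 300 8000 0 10000
    0x142820a082850a081020a141050a102040408102040828504141050a1410204142820a1420408081020408103 = true := by
  decide +kernel

theorem r_E5h : chkD [.of (rK (.q 8 25) (.q 1 1) tu dE), .of (r2 Tp (.q 8 25) (.q 1 1) dE)]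
    10000 0 0 0 0 60 5800 6500 870 1145 300 8000 0 430
    0x142820a082850a081020a141050a102820408102 = true := by
  decide +kernel

end Pool.Agent.Work.MP_b30479_gt.G2.K3b
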