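import Pool.Agent.Work.MP_b30479_gt.G2.WM_1_3bV
import Pool.Agent.Work.MP_b30479_gt.G2.WM_1_3bG1
import Pool.Agent.Work.MP_b30479_gt.G2.WM_1_3bG2

/-!
# Mirrored paths, kind `1 | 3`, the `3` at its slot `2`: side of the `3`, a `2` at an end behind
-/

namespace Pool.Agent.Work.MP_b30479_gt.G2

open Finset VOL Filter Topology

namespace K3b

open NumG

namespace VEs

variable {x T y p : ℝ} {c r s d : E} {C R P : ℝ}

theorem te_val : te.val [x, T, y, p] = (-(15 / 1000) - p) * K23.τl y := by
  unfold te
  rw [E.val, Te_val, t8_val]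

theorem rK_val (hc : c.val [x, T, y, p] = C) (hr : r.val [x, T, y, p] = R)
    (hd : d.val [x, T, y, p] = P) :
    (rK c r s d).val [x, T, y, p] = V2 ⟨C, -(R * T)⟩ ⟨y, s.val [x, T, y, p]⟩ -
      V2 ⟨x, hx x⟩ ⟨y, s.val [x, T, y, p]⟩ + Real.pi * (hx x - R * T) - P := by
  unfold rK
  rw [E.val, bk_val hc hr, hd]

theorem lme_val : lme.val [x, T, y, p] =
    Real.pi * (-(-(15 / 1000) - p)) * (1 - K23.τl y) + 1 / 4 * (y - 3 / 4) := by
  show Real.pi * (-Te.val [x, T, y, p] * (((1 : ℤ) : ℝ) / ((1 : ℕ) : ℝ) - t8.val [x, T, y, p])) +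
    ((1 : ℤ) : ℝ) / ((4 : ℕ) : ℝ) * (y - ((3 : ℤ) : ℝ) / ((4 : ℕ) : ℝ)) = _
  rw [Te_val, t8_val]
  push_cast
  ring

theorem lue_val : lue.val [x, T, y, p] =
    Real.pi * (-(-(15 / 1000) - p)) + plR y 1145 LU - 2 * Real.pi * (16 / 100 * K23.τl y) := by
  show Real.pi * (-Te.val [x, T, y, p]) + (E.pl (.var 2) 1145 LU).val [x, T, y, p] -
    Real.pi * (((8 : ℤ) : ℝ) / ((25 : ℕ) : ℝ) * t8.val [x, T, y, p]) = _
  rw [Te_val, t8_val, E.pl_val, v2]
  push_cast
  ring

theorem l1_val (tl : E) : (l1 tl).val [x, T, y, p] =
    plR y 304 A1 + plR y 1845 B1 * (-tl.val [x, T, y, p] - 15 / 1000) := by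
  show (E.pl (.var 2) 304 A1).val [x, T, y, p] + (E.pl (.var 2) 1845 B1).val [x, T, y, p] *
    (-tl.val [x, T, y, p] - ((15 : ℤ) : ℝ) / ((1000 : ℕ) : ℝ)) = _
  rw [E.pl_val, E.pl_val, v2]
  push_cast
  ring

theorem l2_val (tl : E) : (l2 tl).val [x, T, y, p] =
    plR y 227 A2 + plR y 2180 B2 * (-tl.val [x, T, y, p] - 80 / 1000) := by
  show (E.pl (.var 2) 227 A2).val [x, T, y, p] + (E.pl (.var 2) 2180 B2).val [x, T, y, p] *
    (-tl.val [x, T, y, p] - ((80 : ℤ) : ℝ) / ((1000 : ℕ) : ℝ)) = _
  rw [E.pl_val, E.pl_val, v2]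
  push_cast
  ring

theorem q34 : (E.q 3 4).val [x, T, y, p] = 3 / 4 := by norm_num [E.val]
theorem q310 : (E.q 3 10).val [x, T, y, p] = 3 / 10 := by norm_num [E.val]
theorem q720 : (E.q 7 20).val [x, T, y, p] = 7 / 20 := by norm_num [E.val]

/-- the moves of the side, real form -/
theorem mK (hc : c.val [x, T, y, p] = C) (hr : r.val [x, T, y, p] = R)
    (h : 0 < (rK c r te dE).val [x, T, y, p]) :
    GM x T C R (-(70 / 1000)) y (-(15 / 1000) - p) := by
  rw [rK_val hc hr dE_val, te_val] at h
  left
  linarith only [h]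

theorem mM (y0 : 3 / 4 ≤ y) (hc : c.val [x, T, y, p] = C) (hr : r.val [x, T, y, p] = R)
    (h : 0 < (rMe c r dE).val [x, T, y, p]) :
    GM x T C R (-(70 / 1000)) y (-(15 / 1000) - p) := by
  unfold rMe at h
  rw [E.val, E.val, bq_val q34 hc hr, dE_val, lme_val, te_val, Te_val] at h
  right
  exact ⟨y0, by linarith only [h]⟩

theorem uK {q : Prop} {w : ℝ} (hc : c.val [x, T, y, p] = C) (hr : r.val [x, T, y, p] = R)
    (h : 0 < (rK c r tu dE).val [x, T, y, p]) :
    GU x T C R (-(70 / 1000)) y w q := by
  rw [rK_val hc hr dE_val, tu_val] at h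
  left
  linarith only [h]

theorem uU {q : Prop} (y0 : 45 / 100 ≤ y) (hc : c.val [x, T, y, p] = C)
    (hr : r.val [x, T, y, p] = R) (h : 0 < (rUe c r dE).val [x, T, y, p]) :
    GU x T C R (-(70 / 1000)) y (-(15 / 1000) - p) q := by
  unfold rUe at h
  rw [E.val, E.val, bq_val q34 hc hr, dE_val, lue_val, tu_val, Te_val] at h
  right
  left
  exact ⟨y0, by linarith only [h]⟩

theorem u1 {q : Prop} (y0 : 3 / 100 ≤ y) (p0 : 0 ≤ p) (hc : c.val [x, T, y, p] = C)
    (hr : r.val [x, T, y, p] = R) (h : 0 < (r1 Ts c r dE).val [x, T, y, p]) :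
    GU x T C R (-(70 / 1000)) y (-(90 / 1000) + p * (75 / 1000)) q := by
  unfold r1 at h
  rw [E.val, E.val, bq_val q310 hc hr, dE_val, l1_val, tu_val, Ts_val] at h
  right
  right
  left
  exact ⟨y0, by linarith only [p0], by linarith only [h]⟩

theorem u2 {q : Prop} (hq : q) (y0 : 3 / 100 ≤ y) (p0 : 0 ≤ p) (hc : c.val [x, T, y, p] = C)
    (hr : r.val [x, T, y, p] = R) (h : 0 < (r2 Tp c r dE).val [x, T, y, p]) :
    GU x T C R (-(70 / 1000)) y (-(80 / 1000) - p) q := by
  unfold r2 at h
  rw [E.val, E.val, bq_val q720 hc hr, dE_val, l2_val, tu_val, Tp_val] at h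
  right
  right
  right
  exact ⟨hq, y0, by linarith only [p0], by linarith only [h]⟩

theorem cca : (E.q 2 25).val [x, T, y, p] = 8 / 100 := by norm_num [E.val]
theorem cra : (E.q 8 15).val [x, T, y, p] = 8 / 15 := by norm_num [E.val]

theorem ema (x0 : 0 / 10000 ≤ x) (x1 : x ≤ 700 / 10000) (T0 : 87 / 1000 ≤ T)
    (T1 : T ≤ 1145 / 10000) (y0 : 0 ≤ y) (y1 : y ≤ 8 / 10) (p0 : 0 ≤ p)
    (p1 : p ≤ 108 / 1000) : GM x T (8 / 100) (8 / 15) (-(70 / 1000)) y (-(15 / 1000) - p) := by
  rcases le_total y (3 / 4) with hy | hy
  · obtain ⟨e, he, h⟩ := chkD4 r_E1a (by norm_num) (x := x) (y := T) (z := y) (w := p)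
      (by push_cast; linarith only [x0]) (by push_cast; linarith only [x1]) (by push_cast; linarith only [T0])
        (by push_cast; linarith only [T1]) (by push_cast; linarith only [y0]) (by push_cast; linarith only [hy])
        (by push_cast; linarith only [p0]) (by push_cast; linarith only [p1])
    rw [List.mem_singleton] at he
    subst he
    exact mK cca cra h
  · obtain ⟨e, he, h⟩ := chkD4 r_E2a (by norm_num) (x := x) (y := T) (z := y) (w := p)
      (by push_cast; linarith only [x0]) (by push_cast; linarith only [x1]) (by push_cast; linarith only [T0])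
        (by push_cast; linarith only [T1]) (by push_cast; linarith only [hy]) (by push_cast; linarith only [y1])
        (by push_cast; linarith only [p0]) (by push_cast; linarith only [p1])
    rw [List.mem_cons, List.mem_singleton] at he
    rcases he with rfl | rfl
    · exact mK cca cra h
    · exact mM hy cca cra h

theorem eua {q : Prop} (x0 : 0 / 10000 ≤ x) (x1 : x ≤ 700 / 10000) (T0 : 87 / 1000 ≤ T)
    (T1 : T ≤ 1145 / 10000) (y0 : 0 ≤ y) (y1 : y ≤ 8 / 10)
    (p0 : 0 ≤ p) (p1 : p ≤ 108 / 1000) :
    GU x T (8 / 100) (8 / 15) (-(70 / 1000)) y (-(15 / 1000) - p) q := by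
  rcases le_total y (45 / 100) with hy | hy
  · obtain ⟨e, he, h⟩ := chkD4 r_E3a (by norm_num) (x := x) (y := T) (z := y) (w := p)
      (by push_cast; linarith only [x0]) (by push_cast; linarith only [x1]) (by push_cast; linarith only [T0])
        (by push_cast; linarith only [T1]) (by push_cast; linarith only [y0]) (by push_cast; linarith only [hy])
        (by push_cast; linarith only [p0]) (by push_cast; linarith only [p1])
    rw [List.mem_singleton] at he
    subst he
    exact uK cca cra h
  · obtain ⟨e, he, h⟩ := chkD4 r_E4a (by norm_num) (x := x) (y := T) (z := y) (w := p)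
      (by push_cast; linarith only [x0]) (by push_cast; linarith only [x1]) (by push_cast; linarith only [T0])
        (by push_cast; linarith only [T1]) (by push_cast; linarith only [hy]) (by push_cast; linarith only [y1])
        (by push_cast; linarith only [p0]) (by push_cast; linarith only [p1])
    rw [List.mem_cons, List.mem_singleton] at he
    rcases he with rfl | rfl
    · exact uK cca cra h
    · exact uU hy cca cra h

theorem ccb : (E.q 9 100).val [x, T, y, p] = 9 / 100 := by norm_num [E.val]
theorem crb : (E.q 3 5).val [x, T, y, p] = 3 / 5 := by norm_num [E.val]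

theorem emb (x0 : 700 / 10000 ≤ x) (x1 : x ≤ 850 / 10000) (T0 : 87 / 1000 ≤ T)
    (T1 : T ≤ 1145 / 10000) (y0 : 0 ≤ y) (y1 : y ≤ 8 / 10) (p0 : 0 ≤ p)
    (p1 : p ≤ 108 / 1000) : GM x T (9 / 100) (3 / 5) (-(70 / 1000)) y (-(15 / 1000) - p) := by
  rcases le_total y (3 / 4) with hy | hy
  · obtain ⟨e, he, h⟩ := chkD4 r_E1b (by norm_num) (x := x) (y := T) (z := y) (w := p)
      (by push_cast; linarith only [x0]) (by push_cast; linarith only [x1]) (by push_cast; linarith only [T0])
        (by push_cast; linarith only [T1]) (by push_cast; linarith only [y0]) (by push_cast; linarith only [hy])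
        (by push_cast; linarith only [p0]) (by push_cast; linarith only [p1])
    rw [List.mem_singleton] at he
    subst he
    exact mK ccb crb h
  · obtain ⟨e, he, h⟩ := chkD4 r_E2b (by norm_num) (x := x) (y := T) (z := y) (w := p)
      (by push_cast; linarith only [x0]) (by push_cast; linarith only [x1]) (by push_cast; linarith only [T0])
        (by push_cast; linarith only [T1]) (by push_cast; linarith only [hy]) (by push_cast; linarith only [y1])
        (by push_cast; linarith only [p0]) (by push_cast; linarith only [p1])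
    rw [List.mem_cons, List.mem_singleton] at he
    rcases he with rfl | rfl
    · exact mK ccb crb h
    · exact mM hy ccb crb h

theorem eub {q : Prop} (x0 : 700 / 10000 ≤ x) (x1 : x ≤ 850 / 10000) (T0 : 87 / 1000 ≤ T)
    (T1 : T ≤ 1145 / 10000) (y0 : 0 ≤ y) (y1 : y ≤ 8 / 10)
    (p0 : 0 ≤ p) (p1 : p ≤ 108 / 1000) :
    GU x T (9 / 100) (3 / 5) (-(70 / 1000)) y (-(15 / 1000) - p) q := by
  rcases le_total y (45 / 100) with hy | hy
  · obtain ⟨e, he, h⟩ := chkD4 r_E3b (by norm_num) (x := x) (y := T) (z := y) (w := p)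
      (by push_cast; linarith only [x0]) (by push_cast; linarith only [x1]) (by push_cast; linarith only [T0])
        (by push_cast; linarith only [T1]) (by push_cast; linarith only [y0]) (by push_cast; linarith only [hy])
        (by push_cast; linarith only [p0]) (by push_cast; linarith only [p1])
    rw [List.mem_singleton] at he
    subst he
    exact uK ccb crb h
  · obtain ⟨e, he, h⟩ := chkD4 r_E4b (by norm_num) (x := x) (y := T) (z := y) (w := p)
      (by push_cast; linarith only [x0]) (by push_cast; linarith only [x1]) (by push_cast; linarith only [T0])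
        (by push_cast; linarith only [T1]) (by push_cast; linarith only [hy]) (by push_cast; linarith only [y1])
        (by push_cast; linarith only [p0]) (by push_cast; linarith only [p1])
    rw [List.mem_cons, List.mem_singleton] at he
    rcases he with rfl | rfl
    · exact uK ccb crb h
    · exact uU hy ccb crb h

theorem ccc : (E.q 1 10).val [x, T, y, p] = 10 / 100 := by norm_num [E.val]
theorem crc : (E.q 2 3).val [x, T, y, p] = 2 / 3 := by norm_num [E.val]

theorem emc (x0 : 850 / 10000 ≤ x) (x1 : x ≤ 1300 / 10000) (T0 : 87 / 1000 ≤ T)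
    (T1 : T ≤ 1145 / 10000) (y0 : 0 ≤ y) (y1 : y ≤ 8 / 10) (p0 : 0 ≤ p)
    (p1 : p ≤ 108 / 1000) : GM x T (10 / 100) (2 / 3) (-(70 / 1000)) y (-(15 / 1000) - p) := by
  rcases le_total y (3 / 4) with hy | hy
  · obtain ⟨e, he, h⟩ := chkD4 r_E1c (by norm_num) (x := x) (y := T) (z := y) (w := p)
      (by push_cast; linarith only [x0]) (by push_cast; linarith only [x1]) (by push_cast; linarith only [T0])
        (by push_cast; linarith only [T1]) (by push_cast; linarith only [y0]) (by push_cast; linarith only [hy])
        (by push_cast; linarith only [p0]) (by push_cast; linarith only [p1])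
    rw [List.mem_singleton] at he
    subst he
    exact mK ccc crc h
  · obtain ⟨e, he, h⟩ := chkD4 r_E2c (by norm_num) (x := x) (y := T) (z := y) (w := p)
      (by push_cast; linarith only [x0]) (by push_cast; linarith only [x1]) (by push_cast; linarith only [T0])
        (by push_cast; linarith only [T1]) (by push_cast; linarith only [hy]) (by push_cast; linarith only [y1])
        (by push_cast; linarith only [p0]) (by push_cast; linarith only [p1])
    rw [List.mem_cons, List.mem_singleton] at he
    rcases he with rfl | rfl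
    · exact mK ccc crc h
    · exact mM hy ccc crc h

theorem euc {q : Prop} (x0 : 850 / 10000 ≤ x) (x1 : x ≤ 1300 / 10000) (T0 : 87 / 1000 ≤ T)
    (T1 : T ≤ 1145 / 10000) (y0 : 0 ≤ y) (y1 : y ≤ 8 / 10)
    (p0 : 0 ≤ p) (p1 : p ≤ 108 / 1000) :
    GU x T (10 / 100) (2 / 3) (-(70 / 1000)) y (-(15 / 1000) - p) q := by
  rcases le_total y (45 / 100) with hy | hy
  · obtain ⟨e, he, h⟩ := chkD4 r_E3c (by norm_num) (x := x) (y := T) (z := y) (w := p)
      (by push_cast; linarith only [x0]) (by push_cast; linarith only [x1]) (by push_cast; linarith only [T0])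
        (by push_cast; linarith only [T1]) (by push_cast; linarith only [y0]) (by push_cast; linarith only [hy])
        (by push_cast; linarith only [p0]) (by push_cast; linarith only [p1])
    rw [List.mem_singleton] at he
    subst he
    exact uK ccc crc h
  · obtain ⟨e, he, h⟩ := chkD4 r_E4c (by norm_num) (x := x) (y := T) (z := y) (w := p)
      (by push_cast; linarith only [x0]) (by push_cast; linarith only [x1]) (by push_cast; linarith only [T0])
        (by push_cast; linarith only [T1]) (by push_cast; linarith only [hy]) (by push_cast; linarith only [y1])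
        (by push_cast; linarith only [p0]) (by push_cast; linarith only [p1])
    rw [List.mem_cons, List.mem_singleton] at he
    rcases he with rfl | rfl
    · exact uK ccc crc h
    · exact uU hy ccc crc h

theorem ccd : (E.q 1 8).val [x, T, y, p] = 125 / 1000 := by norm_num [E.val]
theorem crd : (E.q 5 6).val [x, T, y, p] = 5 / 6 := by norm_num [E.val]

theorem emd (x0 : 1300 / 10000 ≤ x) (x1 : x ≤ 1500 / 10000) (T0 : 87 / 1000 ≤ T)
    (T1 : T ≤ 1145 / 10000) (y0 : 0 ≤ y) (y1 : y ≤ 8 / 10) (p0 : 0 ≤ p)
    (p1 : p ≤ 108 / 1000) : GM x T (125 / 1000) (5 / 6) (-(70 / 1000)) y (-(15 / 1000) - p) := by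
  rcases le_total y (3 / 4) with hy | hy
  · obtain ⟨e, he, h⟩ := chkD4 r_E1d (by norm_num) (x := x) (y := T) (z := y) (w := p)
      (by push_cast; linarith only [x0]) (by push_cast; linarith only [x1]) (by push_cast; linarith only [T0])
        (by push_cast; linarith only [T1]) (by push_cast; linarith only [y0]) (by push_cast; linarith only [hy])
        (by push_cast; linarith only [p0]) (by push_cast; linarith only [p1])
    rw [List.mem_singleton] at he
    subst he
    exact mK ccd crd h
  · obtain ⟨e, he, h⟩ := chkD4 r_E2d (by norm_num) (x := x) (y := T) (z := y) (w := p)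
      (by push_cast; linarith only [x0]) (by push_cast; linarith only [x1]) (by push_cast; linarith only [T0])
        (by push_cast; linarith only [T1]) (by push_cast; linarith only [hy]) (by push_cast; linarith only [y1])
        (by push_cast; linarith only [p0]) (by push_cast; linarith only [p1])
    rw [List.mem_cons, List.mem_singleton] at he
    rcases he with rfl | rfl
    · exact mK ccd crd h
    · exact mM hy ccd crd h

theorem eud {q : Prop} (x0 : 1300 / 10000 ≤ x) (x1 : x ≤ 1500 / 10000) (T0 : 87 / 1000 ≤ T)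
    (T1 : T ≤ 1145 / 10000) (y0 : 0 ≤ y) (y1 : y ≤ 8 / 10)
    (p0 : 0 ≤ p) (p1 : p ≤ 108 / 1000) :
    GU x T (125 / 1000) (5 / 6) (-(70 / 1000)) y (-(15 / 1000) - p) q := by
  rcases le_total y (45 / 100) with hy | hy
  · obtain ⟨e, he, h⟩ := chkD4 r_E3d (by norm_num) (x := x) (y := T) (z := y) (w := p)
      (by push_cast; linarith only [x0]) (by push_cast; linarith only [x1]) (by push_cast; linarith only [T0])
        (by push_cast; linarith only [T1]) (by push_cast; linarith only [y0]) (by push_cast; linarith only [hy])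
        (by push_cast; linarith only [p0]) (by push_cast; linarith only [p1])
    rw [List.mem_singleton] at he
    subst he
    exact uK ccd crd h
  · obtain ⟨e, he, h⟩ := chkD4 r_E4d (by norm_num) (x := x) (y := T) (z := y) (w := p)
      (by push_cast; linarith only [x0]) (by push_cast; linarith only [x1]) (by push_cast; linarith only [T0])
        (by push_cast; linarith only [T1]) (by push_cast; linarith only [hy]) (by push_cast; linarith only [y1])
        (by push_cast; linarith only [p0]) (by push_cast; linarith only [p1])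
    rw [List.mem_cons, List.mem_singleton] at he
    rcases he with rfl | rfl
    · exact uK ccd crd h
    · exact uU hy ccd crd h

theorem cce : (E.q 3 20).val [x, T, y, p] = 15 / 100 := by norm_num [E.val]
theorem cre : (E.q 1 1).val [x, T, y, p] = 1 := by norm_num [E.val]

theorem eme (x0 : 1500 / 10000 ≤ x) (x1 : x ≤ 2000 / 10000) (T0 : 87 / 1000 ≤ T)
    (T1 : T ≤ 1145 / 10000) (y0 : 0 ≤ y) (y1 : y ≤ 8 / 10) (p0 : 0 ≤ p)
    (p1 : p ≤ 108 / 1000) : GM x T (15 / 100) (1) (-(70 / 1000)) y (-(15 / 1000) - p) := by
  rcases le_total y (3 / 4) with hy | hy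
  · obtain ⟨e, he, h⟩ := chkD4 r_E1e (by norm_num) (x := x) (y := T) (z := y) (w := p)
      (by push_cast; linarith only [x0]) (by push_cast; linarith only [x1]) (by push_cast; linarith only [T0])
        (by push_cast; linarith only [T1]) (by push_cast; linarith only [y0]) (by push_cast; linarith only [hy])
        (by push_cast; linarith only [p0]) (by push_cast; linarith only [p1])
    rw [List.mem_singleton] at he
    subst he
    exact mK cce cre h
  · obtain ⟨e, he, h⟩ := chkD4 r_E2e (by norm_num) (x := x) (y := T) (z := y) (w := p)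
      (by push_cast; linarith only [x0]) (by push_cast; linarith only [x1]) (by push_cast; linarith only [T0])
        (by push_cast; linarith only [T1]) (by push_cast; linarith only [hy]) (by push_cast; linarith only [y1])
        (by push_cast; linarith only [p0]) (by push_cast; linarith only [p1])
    rw [List.mem_cons, List.mem_singleton] at he
    rcases he with rfl | rfl
    · exact mK cce cre h
    · exact mM hy cce cre h

theorem eue {q : Prop} (x0 : 1500 / 10000 ≤ x) (x1 : x ≤ 2000 / 10000) (T0 : 87 / 1000 ≤ T)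
    (T1 : T ≤ 1145 / 10000) (y0 : 0 ≤ y) (y1 : y ≤ 8 / 10)
    (p0 : 0 ≤ p) (p1 : p ≤ 108 / 1000) :
    GU x T (15 / 100) (1) (-(70 / 1000)) y (-(15 / 1000) - p) q := by
  rcases le_total y (45 / 100) with hy | hy
  · obtain ⟨e, he, h⟩ := chkD4 r_E3e (by norm_num) (x := x) (y := T) (z := y) (w := p)
      (by push_cast; linarith only [x0]) (by push_cast; linarith only [x1]) (by push_cast; linarith only [T0])
        (by push_cast; linarith only [T1]) (by push_cast; linarith only [y0]) (by push_cast; linarith only [hy])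
        (by push_cast; linarith only [p0]) (by push_cast; linarith only [p1])
    rw [List.mem_singleton] at he
    subst he
    exact uK cce cre h
  · obtain ⟨e, he, h⟩ := chkD4 r_E4e (by norm_num) (x := x) (y := T) (z := y) (w := p)
      (by push_cast; linarith only [x0]) (by push_cast; linarith only [x1]) (by push_cast; linarith only [T0])
        (by push_cast; linarith only [T1]) (by push_cast; linarith only [hy]) (by push_cast; linarith only [y1])
        (by push_cast; linarith only [p0]) (by push_cast; linarith only [p1])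
    rw [List.mem_cons, List.mem_singleton] at he
    rcases he with rfl | rfl
    · exact uK cce cre h
    · exact uU hy cce cre h

theorem ccf : (E.q 1 5).val [x, T, y, p] = 20 / 100 := by norm_num [E.val]
theorem crf : (E.q 1 1).val [x, T, y, p] = 1 := by norm_num [E.val]

theorem emf (x0 : 2000 / 10000 ≤ x) (x1 : x ≤ 5000 / 10000) (T0 : 87 / 1000 ≤ T)
    (T1 : T ≤ 1145 / 10000) (y0 : 0 ≤ y) (y1 : y ≤ 8 / 10) (p0 : 0 ≤ p)
    (p1 : p ≤ 108 / 1000) : GM x T (20 / 100) (1) (-(70 / 1000)) y (-(15 / 1000) - p) := by
  rcases le_total y (3 / 4) with hy | hy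
  · obtain ⟨e, he, h⟩ := chkD4 r_E1f (by norm_num) (x := x) (y := T) (z := y) (w := p)
      (by push_cast; linarith only [x0]) (by push_cast; linarith only [x1]) (by push_cast; linarith only [T0])
        (by push_cast; linarith only [T1]) (by push_cast; linarith only [y0]) (by push_cast; linarith only [hy])
        (by push_cast; linarith only [p0]) (by push_cast; linarith only [p1])
    rw [List.mem_singleton] at he
    subst he
    exact mK ccf crf h
  · obtain ⟨e, he, h⟩ := chkD4 r_E2f (by norm_num) (x := x) (y := T) (z := y) (w := p)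
      (by push_cast; linarith only [x0]) (by push_cast; linarith only [x1]) (by push_cast; linarith only [T0])
        (by push_cast; linarith only [T1]) (by push_cast; linarith only [hy]) (by push_cast; linarith only [y1])
        (by push_cast; linarith only [p0]) (by push_cast; linarith only [p1])
    rw [List.mem_cons, List.mem_singleton] at he
    rcases he with rfl | rfl
    · exact mK ccf crf h
    · exact mM hy ccf crf h

theorem euf {q : Prop} (x0 : 2000 / 10000 ≤ x) (x1 : x ≤ 5000 / 10000) (T0 : 87 / 1000 ≤ T)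
    (T1 : T ≤ 1145 / 10000) (y0 : 0 ≤ y) (y1 : y ≤ 8 / 10)
    (p0 : 0 ≤ p) (p1 : p ≤ 108 / 1000) :
    GU x T (20 / 100) (1) (-(70 / 1000)) y (-(15 / 1000) - p) q := by
  rcases le_total y (45 / 100) with hy | hy
  · obtain ⟨e, he, h⟩ := chkD4 r_E3f (by norm_num) (x := x) (y := T) (z := y) (w := p)
      (by push_cast; linarith only [x0]) (by push_cast; linarith only [x1]) (by push_cast; linarith only [T0])
        (by push_cast; linarith only [T1]) (by push_cast; linarith only [y0]) (by push_cast; linarith only [hy])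
        (by push_cast; linarith only [p0]) (by push_cast; linarith only [p1])
    rw [List.mem_singleton] at he
    subst he
    exact uK ccf crf h
  · obtain ⟨e, he, h⟩ := chkD4 r_E4f (by norm_num) (x := x) (y := T) (z := y) (w := p)
      (by push_cast; linarith only [x0]) (by push_cast; linarith only [x1]) (by push_cast; linarith only [T0])
        (by push_cast; linarith only [T1]) (by push_cast; linarith only [hy]) (by push_cast; linarith only [y1])
        (by push_cast; linarith only [p0]) (by push_cast; linarith only [p1])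
    rw [List.mem_cons, List.mem_singleton] at he
    rcases he with rfl | rfl
    · exact uK ccf crf h
    · exact uU hy ccf crf h

theorem ccg : (E.q 1 4).val [x, T, y, p] = 25 / 100 := by norm_num [E.val]
theorem crg : (E.q 1 1).val [x, T, y, p] = 1 := by norm_num [E.val]

theorem emg (x0 : 5000 / 10000 ≤ x) (x1 : x ≤ 5800 / 10000) (T0 : 87 / 1000 ≤ T)
    (T1 : T ≤ 1145 / 10000) (y0 : 0 ≤ y) (y1 : y ≤ 8 / 10) (p0 : 0 ≤ p)
    (p1 : p ≤ 108 / 1000) : GM x T (25 / 100) (1) (-(70 / 1000)) y (-(15 / 1000) - p) := by
  rcases le_total y (3 / 4) with hy | hy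
  · obtain ⟨e, he, h⟩ := chkD4 r_E1g (by norm_num) (x := x) (y := T) (z := y) (w := p)
      (by push_cast; linarith only [x0]) (by push_cast; linarith only [x1]) (by push_cast; linarith only [T0])
        (by push_cast; linarith only [T1]) (by push_cast; linarith only [y0]) (by push_cast; linarith only [hy])
        (by push_cast; linarith only [p0]) (by push_cast; linarith only [p1])
    rw [List.mem_singleton] at he
    subst he
    exact mK ccg crg h
  · obtain ⟨e, he, h⟩ := chkD4 r_E2g (by norm_num) (x := x) (y := T) (z := y) (w := p)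
      (by push_cast; linarith only [x0]) (by push_cast; linarith only [x1]) (by push_cast; linarith only [T0])
        (by push_cast; linarith only [T1]) (by push_cast; linarith only [hy]) (by push_cast; linarith only [y1])
        (by push_cast; linarith only [p0]) (by push_cast; linarith only [p1])
    rw [List.mem_cons, List.mem_singleton] at he
    rcases he with rfl | rfl
    · exact mK ccg crg h
    · exact mM hy ccg crg h

theorem eug {q : Prop} (x0 : 5000 / 10000 ≤ x) (x1 : x ≤ 5800 / 10000) (T0 : 87 / 1000 ≤ T)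
    (T1 : T ≤ 1145 / 10000) (y0 : 0 ≤ y) (y1 : y ≤ 8 / 10)
    (p0 : 0 ≤ p) (p1 : p ≤ 108 / 1000) :
    GU x T (25 / 100) (1) (-(70 / 1000)) y (-(15 / 1000) - p) q := by
  rcases le_total y (45 / 100) with hy | hy
  · obtain ⟨e, he, h⟩ := chkD4 r_E3g (by norm_num) (x := x) (y := T) (z := y) (w := p)
      (by push_cast; linarith only [x0]) (by push_cast; linarith only [x1]) (by push_cast; linarith only [T0])
        (by push_cast; linarith only [T1]) (by push_cast; linarith only [y0]) (by push_cast; linarith only [hy])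
        (by push_cast; linarith only [p0]) (by push_cast; linarith only [p1])
    rw [List.mem_singleton] at he
    subst he
    exact uK ccg crg h
  · obtain ⟨e, he, h⟩ := chkD4 r_E4g (by norm_num) (x := x) (y := T) (z := y) (w := p)
      (by push_cast; linarith only [x0]) (by push_cast; linarith only [x1]) (by push_cast; linarith only [T0])
        (by push_cast; linarith only [T1]) (by push_cast; linarith only [hy]) (by push_cast; linarith only [y1])
        (by push_cast; linarith only [p0]) (by push_cast; linarith only [p1])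
    rw [List.mem_cons, List.mem_singleton] at he
    rcases he with rfl | rfl
    · exact uK ccg crg h
    · exact uU hy ccg crg h

theorem cch : (E.q 8 25).val [x, T, y, p] = 32 / 100 := by norm_num [E.val]
theorem crh : (E.q 1 1).val [x, T, y, p] = 1 := by norm_num [E.val]

theorem emh (x0 : 5800 / 10000 ≤ x) (x1 : x ≤ 6500 / 10000) (T0 : 87 / 1000 ≤ T)
    (T1 : T ≤ 1145 / 10000) (y0 : 0 ≤ y) (y1 : y ≤ 8 / 10) (p0 : 0 ≤ p)
    (p1 : p ≤ 108 / 1000) : GM x T (32 / 100) (1) (-(70 / 1000)) y (-(15 / 1000) - p) := by
  rcases le_total y (3 / 4) with hy | hy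
  · obtain ⟨e, he, h⟩ := chkD4 r_E1h (by norm_num) (x := x) (y := T) (z := y) (w := p)
      (by push_cast; linarith only [x0]) (by push_cast; linarith only [x1]) (by push_cast; linarith only [T0])
        (by push_cast; linarith only [T1]) (by push_cast; linarith only [y0]) (by push_cast; linarith only [hy])
        (by push_cast; linarith only [p0]) (by push_cast; linarith only [p1])
    rw [List.mem_singleton] at he
    subst he
    exact mK cch crh h
  · obtain ⟨e, he, h⟩ := chkD4 r_E2h (by norm_num) (x := x) (y := T) (z := y) (w := p)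
      (by push_cast; linarith only [x0]) (by push_cast; linarith only [x1]) (by push_cast; linarith only [T0])
        (by push_cast; linarith only [T1]) (by push_cast; linarith only [hy]) (by push_cast; linarith only [y1])
        (by push_cast; linarith only [p0]) (by push_cast; linarith only [p1])
    rw [List.mem_cons, List.mem_singleton] at he
    rcases he with rfl | rfl
    · exact mK cch crh h
    · exact mM hy cch crh h

theorem euh {q : Prop} {w : ℝ} (x0 : 5800 / 10000 ≤ x) (x1 : x ≤ 6500 / 10000) (T0 : 87 / 1000 ≤ T)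
    (T1 : T ≤ 1145 / 10000) (w0 : -(123 / 1000) ≤ w) (w1 : w ≤ -(15 / 1000))
    (y0 : 0 ≤ y) (y1 : y ≤ 8 / 10) (hq : q ∨ -(90 / 1000) ≤ w) :
    GU x T (32 / 100) (1) (-(70 / 1000)) y w q := by
  rcases le_total y (3 / 100) with hy | hy
  · obtain ⟨e, he, h⟩ := chkD4 r_E3h (by norm_num) (x := x) (y := T) (z := y) (w := 0)
      (by push_cast; linarith only [x0]) (by push_cast; linarith only [x1]) (by push_cast; linarith only [T0])
      (by push_cast; linarith only [T1]) (by push_cast; linarith only [y0]) (by push_cast; linarith only [hy])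
      (by norm_num) (by norm_num)
    rw [List.mem_singleton] at he
    subst he
    exact uK cch crh h
  rcases le_total (-(90 / 1000)) w with hw | hw
  · obtain ⟨p, hp⟩ : ∃ p : ℝ, p = (w + 90 / 1000) * (1000 / 75) := ⟨_, rfl⟩
    have ew : w = -(90 / 1000) + p * (75 / 1000) := by rw [hp]; ring
    have p0 : 0 ≤ p := by rw [hp]; apply mul_nonneg <;> linarith only [hw]
    have p1 : p ≤ 1 := by rw [hp]; linarith only [w1]
    rw [ew]
    obtain ⟨e, he, h⟩ := chkD4 r_E4h (by norm_num) (x := x) (y := T) (z := y) (w := p)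
      (by push_cast; linarith only [x0]) (by push_cast; linarith only [x1]) (by push_cast; linarith only [T0])
        (by push_cast; linarith only [T1]) (by push_cast; linarith only [hy]) (by push_cast; linarith only [y1])
        (by push_cast; linarith only [hw, hp]) (by push_cast; linarith only [w1, hp])
    rw [List.mem_cons, List.mem_singleton] at he
    rcases he with rfl | rfl
    · exact uK cch crh h
    · exact u1 hy p0 cch crh h
  · rcases hq with hq | hq
    · obtain ⟨p, hp⟩ : ∃ p : ℝ, p = -(80 / 1000) - w := ⟨_, rfl⟩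
      have ew : w = -(80 / 1000) - p := by rw [hp]; ring
      have p0 : 0 ≤ p := by rw [hp]; linarith only [hw]
      have p1 : p ≤ 43 / 1000 := by rw [hp]; linarith only [w0]
      rw [ew]
      obtain ⟨e, he, h⟩ := chkD4 r_E5h (by norm_num) (x := x) (y := T) (z := y) (w := p)
        (by push_cast; linarith only [x0]) (by push_cast; linarith only [x1]) (by push_cast; linarith only [T0])
        (by push_cast; linarith only [T1]) (by push_cast; linarith only [hy]) (by push_cast; linarith only [y1])
        (by push_cast; linarith only [w1, hw, hp]) (by push_cast; linarith only [w0, hp])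
      rw [List.mem_cons, List.mem_singleton] at he
      rcases he with rfl | rfl
      · exact uK cch crh h
      · exact u2 hq hy p0 cch crh h
    · obtain rfl : w = -(90 / 1000) := le_antisymm hw hq
      obtain ⟨e, he, h⟩ := chkD4 r_E4h (by norm_num) (x := x) (y := T) (z := y) (w := 0)
        (by push_cast; linarith only [x0]) (by push_cast; linarith only [x1]) (by push_cast; linarith only [T0])
        (by push_cast; linarith only [T1]) (by push_cast; linarith only [hy]) (by push_cast; linarith only [y1])
        (by norm_num) (by norm_num)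
      rw [List.mem_cons, List.mem_singleton] at he
      rcases he with rfl | rfl
      · exact uK cch crh h
      · have := u1 (q := q) hy le_rfl cch crh h
        rwa [zero_mul, add_zero] at this

end VEs

open VEs

variable {x T y : ℝ}

/-- side of the `3`, inner variable on its main path, a `2` at an end behind the hinge -/
theorem sideEm {w : ℝ} {c r : ℝ} (h : CE x c r) (T0 : 87 / 1000 ≤ T) (T1 : T ≤ 1145 / 10000)
    (w0 : -(123 / 1000) ≤ w) (w1 : w ≤ -(15 / 1000)) (y0 : 0 ≤ y) (y1 : y ≤ 8 / 10) :
    GM x T c r (-(70 / 1000)) y w := by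
  obtain ⟨p, hp⟩ : ∃ p : ℝ, p = -(15 / 1000) - w := ⟨_, rfl⟩
  have ew : w = -(15 / 1000) - p := by rw [hp]; ring
  have p0 : 0 ≤ p := by rw [hp]; linarith only [w1]
  have p1 : p ≤ 108 / 1000 := by rw [hp]; linarith only [w0]
  rw [ew]
  rcases h with (⟨a, b, rfl, rfl⟩ | ⟨a, b, rfl, rfl⟩ | ⟨a, b, rfl, rfl⟩ | ⟨a, b, rfl, rfl⟩ |
    ⟨a, b, rfl, rfl⟩ | ⟨a, b, rfl, rfl⟩) | ⟨a, b, rfl, rfl⟩ | ⟨a, b, rfl, rfl⟩
  · exact ema (by linarith only [a]) (by linarith only [b]) T0 T1 y0 y1 p0 p1
  · exact emb (by linarith only [a]) (by linarith only [b]) T0 T1 y0 y1 p0 p1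
  · exact emc (by linarith only [a]) (by linarith only [b]) T0 T1 y0 y1 p0 p1
  · exact eme (by linarith only [a]) (by linarith only [b]) T0 T1 y0 y1 p0 p1
  · exact emf (by linarith only [a]) (by linarith only [b]) T0 T1 y0 y1 p0 p1
  · exact emg (by linarith only [a]) (by linarith only [b]) T0 T1 y0 y1 p0 p1
  · exact emd (by linarith only [a]) (by linarith only [b]) T0 T1 y0 y1 p0 p1
  · exact emh (by linarith only [a]) (by linarith only [b]) T0 T1 y0 y1 p0 p1

/-- side of the `3`, inner variable on its upper mirrored path -/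
theorem sideEu {w : ℝ} {c r : ℝ} {q : Prop} (h : CE x c r) (T0 : 87 / 1000 ≤ T)
    (T1 : T ≤ 1145 / 10000) (w0 : -(123 / 1000) ≤ w) (w1 : w ≤ -(15 / 1000)) (y0 : 0 ≤ y)
    (y1 : y ≤ 8 / 10) (hq : q ∨ -(90 / 1000) ≤ w) : GU x T c r (-(70 / 1000)) y w q := by
  obtain ⟨p, hp⟩ : ∃ p : ℝ, p = -(15 / 1000) - w := ⟨_, rfl⟩
  have ew : w = -(15 / 1000) - p := by rw [hp]; ring
  have p0 : 0 ≤ p := by rw [hp]; linarith only [w1]
  have p1 : p ≤ 108 / 1000 := by rw [hp]; linarith only [w0]
  rcases h with (⟨a, b, rfl, rfl⟩ | ⟨a, b, rfl, rfl⟩ | ⟨a, b, rfl, rfl⟩ | ⟨a, b, rfl, rfl⟩ |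
    ⟨a, b, rfl, rfl⟩ | ⟨a, b, rfl, rfl⟩) | ⟨a, b, rfl, rfl⟩ | ⟨a, b, rfl, rfl⟩
  · rw [ew]; exact eua (by linarith only [a]) (by linarith only [b]) T0 T1 y0 y1 p0 p1
  · rw [ew]; exact eub (by linarith only [a]) (by linarith only [b]) T0 T1 y0 y1 p0 p1
  · rw [ew]; exact euc (by linarith only [a]) (by linarith only [b]) T0 T1 y0 y1 p0 p1
  · rw [ew]; exact eue (by linarith only [a]) (by linarith only [b]) T0 T1 y0 y1 p0 p1
  · rw [ew]; exact euf (by linarith only [a]) (by linarith only [b]) T0 T1 y0 y1 p0 p1
  · rw [ew]; exact eug (by linarith only [a]) (by linarith only [b]) T0 T1 y0 y1 p0 p1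
  · rw [ew]; exact eud (by linarith only [a]) (by linarith only [b]) T0 T1 y0 y1 p0 p1
  · exact euh (by linarith only [a]) (by linarith only [b]) T0 T1 w0 w1 y0 y1 hq

end K3b

end Pool.Agent.Work.MP_b30479_gt.G2
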