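import Pool.Agent.Work.MP_b30479_gt.G2.WMGc
import Pool.Agent.Work.MP_b30479_gt.G2.WMGr1
import Pool.Agent.Work.MP_b30479_gt.G2.WMGr4
import Pool.Agent.Work.MP_b30479_gt.G2.WLocA
import Pool.Agent.Work.MP_b30479_gt.G2.WMGb
import Pool.Agent.Work.MP_b30479_gt.G2.WRnd

/-!
# Mirrored paths: the kinds `2 | 3` and `3 | 2`, the `3` at an end
-/

namespace Pool.Agent.Work.MP_b30479_gt.G2

open Finset VOL Filter Topology

namespace SR

variable {M : ℕ} {b : Fin (M + 1) → ℤ} {zs : DD (tyW b) ⊕ ZZ (tyW b) → ℂ}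

theorem KE_c100 : (((100 : ℕ) : ℝ) / 1000) = 1 / 10 := by norm_num

/-- **Kind `2 | 3`, the `3` at an end.** -/
theorem kind_two_threeE (hb : ClassW b) (L : LocA b zs) (s : Fin 3) : Kd b zs .two .threeE s := by
  intro R nb z p h i j x hN hM hq D hi hj
  obtain ⟨m, hm⟩ : ∃ m : {i : Fin (M + 1) // (tyW b i).isMid = true}, m.1 = j :=
    ⟨⟨j, tyW_isMid (Or.inr hj)⟩, rfl⟩
  obtain ⟨h2, j2, A2⟩ := D.adj.other' b (clsW_inner hb (Or.inr (Or.inl hi)))
  obtain ⟨w0, w1, d2⟩ := (hM.npos hb hN hq D.adj D.nn A2).d2 hb L.L A2 hi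
  have hT := Th_mem hb L.L D.adj D.ri
  rw [hi, hj] at hT
  simp only [hbox] at hT
  have hX := par_E D.adj (Or.inl ⟨hi, hj⟩)
  have hx1 := D.x1
  rw [hX.1] at hx1
  have h16 := mhs_adj D.adj (fun h3 => by rw [hi] at h3; exact absurd h3.2 (by decide))
    (fun h3 => by rw [hj] at h3; exact absurd h3.2 (by decide)) s
  have hO := KE.oldU100
  rw [KE_c100] at hO
  have k2 := D.g3U L.L hX (by norm_num) (by norm_num) h16 hN hM m hm hj hO
    (n := 3180 / 10000 + 8000 / 10000 * Th b zs h i) (by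
      intro T T0 T1
      have h5 := KE.chk1 KE.c2n (by norm_num) (x := Th b zs h i) (y := T) (z := 0) (w := 0)
        (by constructor <;> push_cast <;> linarith only [D, hT, D.T0, hT.2])
        (by constructor <;> push_cast <;> linarith only [T0, T1])
        (by constructor <;> norm_num) (by constructor <;> norm_num)
      rw [KE.nN_val] at h5
      push_cast at h5
      linarith only [h5])
  have k1 := keep_two (zs := zs) (nb := nb) (z := z) (p := p) (c := 15 / 100) hb D.adj (Or.inl hi)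
  have h4 := D.star hb hN.ok.1 hM (c := 15 / 100) (by norm_num) (by rw [hX.1]; norm_num) k1 k2
  obtain ⟨t, t0, t1, e⟩ := KE.d2_par d2
  have h5 := KE.chk1 KE.c2f (by norm_num) (x := x) (y := (Ow b z i s.rev).re) (z := t)
    (w := Th b zs h i)
    (by constructor <;> push_cast <;> linarith only [D, hx1, D.x0]) (by constructor <;> push_cast <;> linarith only [w0, w1])
    (by constructor <;> push_cast <;> linarith only [t0, t1])
    (by constructor <;> push_cast <;> linarith only [D, hT, D.T0, hT.2])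
  rw [KE.fD_val (by norm_num) (by norm_num), KE.kk_val, ← e, KE_c100] at h5
  have e1 : (⟨(Ow b z i s.rev).re, (Ow b z i s.rev).im⟩ : ℂ) = Ow b z i s.rev := rfl
  rw [e1] at h5
  rw [tgo15 hX (by norm_num) (by norm_num), D.own, h16, trh_eq hX] at h4
  push_cast at h5
  linarith only [h4, h5]

/-- **Kind `3 | 2`, the `3` at an end.** -/
theorem kind_threeE_two (hb : ClassW b) (L : LocA b zs) (s : Fin 3) : Kd b zs .threeE .two s := by
  intro R nb z p h i j x hN hM hq D hi hj
  obtain ⟨m, hm⟩ : ∃ m : {i : Fin (M + 1) // (tyW b i).isMid = true}, m.1 = i :=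
    ⟨⟨i, tyW_isMid (Or.inr hi)⟩, rfl⟩
  obtain ⟨h2, j2, A2⟩ := D.adj.symm.other' b (clsW_inner hb (Or.inr (Or.inl hj)))
  obtain ⟨w0, w1, d2⟩ := (hM.npos hb hN hq D.adj.symm D.nn A2).d2 hb L.L A2 hj
  have hT := Th_mem hb L.L D.adj D.ri
  rw [hi, hj] at hT
  simp only [hbox] at hT
  have hX := par_E D.adj (Or.inr (Or.inl ⟨hi, hj⟩))
  have hx1 := D.x1
  rw [hX.1] at hx1
  have h16 := mhs_adj D.adj (fun h3 => by rw [hi] at h3; exact absurd h3.2 (by decide))
    (fun h3 => by rw [hj] at h3; exact absurd h3.2 (by decide)) s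
  have hO := KE.oldD100
  rw [KE_c100] at hO
  have k1 := D.g3D L.L hX (by norm_num) (by norm_num) h16 hN hM m hm hi hO
    (n := 3185 / 10000 + (-8000) / 10000 * Th b zs h i) (by
      intro T T0 T1
      have h5 := KE.chk1 KE.c3n (by norm_num) (x := Th b zs h i) (y := T) (z := 0) (w := 0)
        (by constructor <;> push_cast <;> linarith only [D, hT, D.T0, hT.2])
        (by constructor <;> push_cast <;> linarith only [T0, T1])
        (by constructor <;> norm_num) (by constructor <;> norm_num)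
      rw [KE.nP_val] at h5
      push_cast at h5
      linarith only [h5])
  have k2 := keep_two (zs := zs) (nb := nb) (z := z) (p := p) (c := 15 / 100) hb D.adj.symm
    (Or.inl hj)
  have h4 := D.star hb hN.ok.1 hM (c := 15 / 100) (by norm_num) (by rw [hX.1]; norm_num) k1 k2
  obtain ⟨t, t0, t1, e⟩ := KE.d2_par d2
  have h5 := KE.chk1 KE.c3f (by norm_num) (x := x) (y := (Ow b z j s.rev.rev).re) (z := t)
    (w := Th b zs h i)
    (by constructor <;> push_cast <;> linarith only [D, hx1, D.x0]) (by constructor <;> push_cast <;> linarith only [w0, w1])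
    (by constructor <;> push_cast <;> linarith only [t0, t1])
    (by constructor <;> push_cast <;> linarith only [D, hT, D.T0, hT.2])
  rw [KE.fU_val (by norm_num) (by norm_num), KE.kk_val, ← e, KE_c100] at h5
  have e1 : (⟨(Ow b z j s.rev.rev).re, (Ow b z j s.rev.rev).im⟩ : ℂ) = Ow b z j s.rev.rev := rfl
  rw [e1] at h5
  rw [tgo15 hX (by norm_num) (by norm_num), D.opp, h16, trh_eq hX, D.Tj] at h4
  push_cast at h5
  linarith only [h4, h5]

end SR

end Pool.Agent.Work.MP_b30479_gt.G2
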