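import Pool.Agent.Work.MP_b30479_gt.G2.WMSk
import Pool.Agent.Work.MP_b30479_gt.G2.WMSw
import Pool.Agent.Work.MP_b30479_gt.G2.WLocA
import Pool.Agent.Work.MP_b30479_gt.G2.WRnd

/-!
# Mirrored paths: the kind `3 | 2`, slot `0` of the `3`
-/

namespace Pool.Agent.Work.MP_b30479_gt.G2

open Finset VOL Filter Topology

namespace SR

variable {M : ℕ} {b : Fin (M + 1) → ℤ} {zs : DD (tyW b) ⊕ ZZ (tyW b) → ℂ}

/-- **Kind `3 | 2`**, the `3` at its slot `0`. -/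
theorem kind_three_two (hb : ClassW b) (L : LocA b zs) : Kd b zs .three .two 0 := by
  intro R nb z p h i j x hN hM hq D hi hj
  obtain ⟨m, rfl⟩ : ∃ m : {i : Fin (M + 1) // (tyW b i).isMid = true}, m.1 = i :=
    ⟨⟨i, tyW_isMid (Or.inl hi)⟩, rfl⟩
  obtain ⟨y0, y1, d1⟩ := (hM.ipos hN m D.adj D.nn).2.dl hb L.L m hi
  have A : Adj h j 2 m.1 := D.adj.symm
  obtain ⟨h2, j2, A2⟩ := A.other' b (clsW_inner hb (Or.inr (Or.inl hj)))
  obtain ⟨w0, w1, d2⟩ := (hM.npos hb hN hq A D.nn A2).d2 hb L.L A2 hj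
  have r0 : Fin.rev (2 : Fin 3) = 0 := rfl
  rw [r0] at w0 w1 d2
  have hT := Th_mem hb L.L D.adj D.ri
  rw [hi, hj] at hT
  simp only [hbox] at hT
  have hX := par_32a D.adj hi hj
  have hx1 := D.x1
  rw [hX.1] at hx1
  have h16 := mhs_32a D.adj (by rw [hj]; decide)
  obtain ⟨u, u0, u1, e1⟩ := KE.dl_par d1
  obtain ⟨s, s0, s1, e2⟩ := KE.d2_par d2
  have f1 : Ow b z m.1 1 = ⟨(Ow b z m.1 1).re, KS.lv (Ow b z m.1 1).re u⟩ :=
    Complex.ext rfl e1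
  have k2 : ∀ c : ℝ, SideG b zs nb z p h j (tg b zs h c)
      (V2 (tgo b zs h j c) ⟨(Ow b z j 0).re, KS.kv (Ow b z j 0).re s⟩ -
        V2 (Ow b z j 2) ⟨(Ow b z j 0).re, KS.kv (Ow b z j 0).re s⟩) := by
    intro c
    have e3 : (⟨(Ow b z j 0).re, KS.kv (Ow b z j 0).re s⟩ : ℂ) = Ow b z j 0 :=
      Complex.ext rfl e2.symm
    rw [e3]
    have k := keep_two (zs := zs) (nb := nb) (z := z) (p := p) (c := c) hb A (Or.inl hj)
    rwa [r0] at k
  refine D.win0 hb hN hM hX h16 hi k2 ?_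
  rw [f1]
  have x1 : x ≤ 600 / 1000 := by
    simp only [KS.P2] at hx1
    push_cast at hx1
    linarith
  have tp := D.tp
  rw [trh_tq hX] at tp
  exact KS.K2.win ⟨D.x0.le, x1, D.T0, by linarith [hT.2], y0, by linarith, u0, u1, w0, by linarith,
    s0, s1⟩ tp

end SR

end Pool.Agent.Work.MP_b30479_gt.G2
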