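import Pool.Agent.Work.MP_b30479_gt.G2.WM_1_3bE
import Pool.Agent.Work.NumI.TreeS

/-!
# Mirrored paths, kind `1 | 3`, the `3` at its slot `2`: rows
-/

namespace Pool.Agent.Work.MP_b30479_gt.G2.K3b

open NumG

theorem r_A1b : chkD [.of (rA (.q 9 100) (.q 3 5) s1 dl)]
    10000 0 0 0 0 60 700 850 210 894 0 8600 0 2090
    0x10202081020304082040408204080c1040810182081018408042040410083040c20406102030410202081018402102040210201040c10306102020810104080c2040608204060418308100840810184020c20406041840810203061008308102030610203081018004102020208204061020306041020408102 = true := by
  decide +kernel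

theorem r_A2b : chkD [.of (rA (.q 9 100) (.q 3 5) s2 dl)]
    10000 0 0 0 0 60 700 850 460 894 0 8000 0 670
    0x408082020810104080c204041020406100820608204080c20400082040604184080420402100040210203081018208101800810181040c10408100820810204020818408040040810104020c2040400104080020402080830810184080c202080420406101000610200081000208100010410204060020402080820408102 = true := by
  decide +kernel

theorem r_AEb : chkD [.of (rA (.q 9 100) (.q 3 5) sE dE), .of (rB (.q 9 100) (.q 3 5) sE dE)]
    10000 0 0 0 0 60 700 850 870 1145 0 7000 0 200
    0x10202081020502081040a141020a141010a141050a080820a141050408102 = true := by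
  decide +kernel

theorem r_A1c_q1 : Pool.Agent.Work.NumI.runE (Pool.Agent.Work.NumG.tstD [.of (rA (.q 1 10) (.q 2 3) s1 dl)])
    0 0 0 0 57 5841155522 8933531977 1443109011 6143521222 0 7387343749 0 14362370639
    0x810104080c104080c2040608104080c2020410204080818208102030810182041020008101040810082081020104001820610203081020300082040210202001020308100820810101081020104102020804100060c204061020406080040810203040c2010810203081008206102040600080061020408041830810203061020308101820408204060420406102030810004020c184081018302102010810184080c004020c2040610203041020308101820010203020820406101810400102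
    0x4080820406082040610203040820406101020810204040c1040810184080c1020810004080820408041040810082000c103 = true := by
  decide +kernel

theorem r_A1c_q2 : Pool.Agent.Work.NumI.runE (Pool.Agent.Work.NumG.tstD [.of (rA (.q 1 10) (.q 2 3) s1 dl)])
    0 0 0 0 57 5841155522 8933531977 1443109011 6143521222 7387343749 14774687498 0 14362370639
    0x4080820406082040610203040820406101020810204040c1040810184080c1020810004080820408041040810082000c103
    0x810104080c104080c2040608104080c20204102040808182 = true := by
  decide +kernel

theorem r_A1c_q3 : Pool.Agent.Work.NumI.runE (Pool.Agent.Work.NumG.tstD [.of (rA (.q 1 10) (.q 2 3) s1 dl)])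
    0 0 0 0 58 5841155522 8933531977 1443109011 6143521222 14774687498 29549374997 0 14362370639
    0x810104080c104080c2040608104080c20204102040808182
    0x408082040608204061020304082040610102 = true := by
  decide +kernel

theorem r_A1c_q4 : Pool.Agent.Work.NumI.runE (Pool.Agent.Work.NumG.tstD [.of (rA (.q 1 10) (.q 2 3) s1 dl)])
    0 0 0 0 59 5841155522 8933531977 1443109011 6143521222 29549374997 59098749994 0 14362370639
    0x408082040608204061020304082040610102
    0x0 = true := by
  decide +kernel

theorem r_A1c : chkD [.of (rA (.q 1 10) (.q 2 3) s1 dl)]
    10000 0 0 0 0 60 850 1300 210 894 0 8600 0 2090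
    0x1020208101820810184080c1020810184040820408101030410204061020304082040010202081020104102040208003040c204061020406001040804204040020406102010410202021020402082040410082000c184080c204080c1000810204060818402102040610201040c204080c001000c20408100830610204060c20406102030408104080c084080c2040610200080418308102030604204021020308101800804184080c2040608204061020304002040604104080c20302080020408102 = true :=
  Pool.Agent.Work.NumI.okB_of rfl rfl rfl rfl rfl rfl rfl rfl rfl rfl rfl rfl
    (Pool.Agent.Work.NumI.runE_split2 rfl rfl rfl
      (Pool.Agent.Work.NumI.runE_split2 rfl rfl rfl
        (Pool.Agent.Work.NumI.runE_split2 rfl rfl rfl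
          r_A1c_q1
          r_A1c_q2)
        r_A1c_q3)
      r_A1c_q4)

end Pool.Agent.Work.MP_b30479_gt.G2.K3b
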