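import Pool.Agent.Work.NumU.GenX
import Pool.Agent.Work.NumU.GenD
import Pool.Agent.Work.MP_b30479_gt.G2.MK1
import Pool.Agent.Work.MP_b30479_gt.G2.MLA
import Pool.Agent.Work.MP_b30479_gt.G2.MPHess
import Pool.Agent.Work.MP_b30479_gt.G2.TDefs
import Pool.Agent.Work.MP_b30479_gt.G2.TRc
import Pool.Agent.Work.MP_b30479_gt.G2.TRd
import Pool.Agent.Work.MP_b30479_gt.G2.WLeft
import Pool.Agent.Work.MP_b30479_gt.G2.WLocX
import Pool.Agent.Work.MP_b30479_gt.G2.WMain
import Pool.Agent.Work.MP_b30479_gt.G2.WRight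
import Pool.Agent.Work.MP_b30479_gt.G2.WValH
import Pool.Agent.Work.MP_b30479_gt.LT.CoreG
import Pool.Agent.Work.NumI.Demo

/-!
# Mirrored paths, kind `1 | 3`, the `3` at its slot `2`: expressions of the rows
-/

namespace Pool.Agent.Work.MP_b30479_gt.G2.K3b

open NumG

/-- tables -/
def LA : List (ℤ × ℤ × ℕ) := [(10, -1, 1), (30, 2, 5), (40, 2, 5), (50, 1, 5), (100, 1, 5), (125, -4, 25), (200, -1, 25), (400, 1, 5), (500, -1, 5)]
def LG : List (ℤ × ℤ × ℕ) := [(49, 10, 1), (110, -10, 1), (400, 8, 1), (500, -8, 1)]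
def LU : List (ℤ × ℤ × ℕ) := [(450, -21, 10), (500, 1, 5), (600, -1, 10), (700, 16, 25), (750, -266, 25), (760, 1, 5), (770, 1, 10), (780, 2, 5), (790, 1, 2)]
def A1 : List (ℤ × ℤ × ℕ) := [(30, -247, 10), (40, 9, 10), (50, 116, 5), (60, 21, 40), (100, 29, 120), (130, 1, 3), (150, -1, 5), (200, -1, 10), (250, 1, 5), (300, 1, 5), (400, 1, 5), (450, -1, 5), (550, -1, 5), (650, -1, 5), (700, -1, 10), (750, 62, 5), (760, 1, 2), (780, 3, 2)]
def B1 : List (ℤ × ℤ × ℕ) := [(30, 8, 1), (40, 359, 2), (50, -343, 2), (60, -103, 7), (200, -9, 7), (300, -2, 1), (400, 2, 5), (500, 1, 5), (600, 13, 10), (700, 7, 10), (750, -7, 1)]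
def A2 : List (ℤ × ℤ × ℕ) := [(30, -99, 10), (40, 1, 10), (50, 93, 10), (100, 1, 4), (200, 3, 10), (300, 7, 20), (350, 3, 10), (400, -3, 20), (600, -1, 5), (700, -1, 20), (750, 117, 10), (760, 3, 4), (780, 3, 4)]
def B2 : List (ℤ × ℤ × ℕ) := [(30, 11, 2), (50, -7, 2), (100, 1, 10), (200, -2, 5), (300, -3, 2), (400, -19, 10), (500, -4, 5), (600, 1, 2), (700, 4, 5), (750, -122, 15), (780, -19, 6)]

/-! ### rows of the two sides: variables `x`, `T`, `y`, `p` -/

/-- height of the mirrored path -/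
def hh : E := .mul (.q 4 25) (E.tr 650 150 290 (.var 0))
def T : E := .var 1
/-- heights of the other hinge of the `1` -/
def S1 : E := .sub (.sub (.q 49 1000) (.relu (.sub T (.q 62 1000)))) (.var 3)
def S2 : E := .sub (.sub (.q 77 1000) (.relu (.sub T (.q 71 1000)))) (.var 3)
def SE : E := .sub (.sub (.q (-25) 1000) (.relu (.sub T (.q 102 1000)))) (.var 3)
/-- heights of the inner variable of the `3` -/
def Tl : E := .sub (.sub (.q (-15) 1000) (.relu (.sub T (.q 662 10000)))) (.var 3)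
def Tq : E := .add (.q (-90) 1000) (.mul (.var 3) (.sub (.q 75 1000) (.relu (.sub T (.q 662 10000)))))
def Tr : E := .add (.q (-80) 1000) (.mul (.var 3) (.sub (.q 65 1000) (.relu (.sub T (.q 662 10000)))))
def Tp : E := .sub (.q (-80) 1000) (.var 3)
/-- ramp function of the inner variable -/
def t8 : E := E.tr 800 50 50 (.var 2)
def tm : E := .mul Tl t8
def tu : E := .mul (.q 4 25) t8
/-- prices -/
def dl : E := .add (E.pl (.var 0) 30 LA) (.mul (E.pl (.var 0) 0 LG) (.sub (.q 945 10000) T))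
def dm : E := .sub dl (.q 14 1000)
def dj : E := .add (.q 101 10000) (.mul (.q 1 2) (.relu (.sub (.q 65 1000) T)))
def dh : E := .sub (.sub (.sub (.add (.add (.q 6 1000) (.mul (.q 3 5) (.sub (.q 894 10000) T))) (.mul (.q 2 5) (.relu (.sub (.q 80 1000) T)))) (.mul (.q 1 5) (.relu (.sub (.q 75 1000) T)))) (.mul (.q 3 10) (.relu (.sub (.q 675 10000) T)))) (.relu (.sub (.q 46 1000) T))
def dE : E := .q (-70) 1000
/-- side of the `1`, other hinge kept at `y + i s`; target `c + i r T` -/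
def ak (c r s : E) : E :=
  .add (.add (.sub (.uw (.add c (.var 2)) (.add (.mul r T) s)) (.uw c (.mul r T)))
    (.sub (.uw (.var 0) hh) (.uw (.add (.var 0) (.var 2)) (.sub s hh))))
    (.mul .pi (.add (.mul (.sub c (.var 0)) s) (.mul (.var 2) (.add (.mul r T) hh))))
/-- side of the `1`, other hinge moved to `1/4 + i S`, the region behind is a `2` at an end -/
def aE (c r s : E) : E :=
  .add (.sub (.sub (E.V1 c (.mul r T) (.q 1 4) SE) (E.V1 (.var 0) (.neg hh) (.var 2) s))
    (.sub (E.V2e (.var 2) (.neg s)) (E.V2e (.q 1 4) (.neg SE)))) (.mul .pi (.add (.mul r T) hh))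
def s1 : E := .mul S1 (E.tr 860 150 200 (.var 2))
def s2 : E := .mul S2 (E.tr 800 160 290 (.var 2))
def sE : E := .mul SE (E.tr 700 140 350 (.var 2))
/-- gain of the `3`, inner variable kept at height `s`; target `c - i r T` -/
def bk (c r s : E) : E :=
  .add (.dV2 c (.neg (.mul r T)) (.var 0) hh (.var 2) s) (.mul .pi (.sub hh (.mul r T)))
/-- inner variable moved from height `s` to `m + i tl` -/
def bq (tl c r m s : E) : E :=
  .add (.sub (E.V2 c (.neg (.mul r T)) m tl) (E.V2 (.var 0) hh (.var 2) s)) (.mul .pi (.sub hh (.mul r T)))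
/-- losses in the slot `0` -/
def lm : E := .add (.mul .pi (.mul (.neg Tl) (.sub (.q 1 1) t8))) (.mul (.q 1 4) (.sub (.var 2) (.q 3 4)))
def lu : E := .sub (.add (.mul .pi (.neg Tl)) (E.pl (.var 2) 1145 LU)) (.mul .pi (.mul (.q 8 25) t8))
def l1 (tl : E) : E := .add (E.pl (.var 2) 304 A1) (.mul (E.pl (.var 2) 1845 B1) (.sub (.neg tl) (.q 15 1000)))
def l2 (tl : E) : E := .add (E.pl (.var 2) 227 A2) (.mul (E.pl (.var 2) 2180 B2) (.sub (.neg tl) (.q 80 1000)))
/-- rows: side of the `1` -/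
def rA (c r s d : E) : E := .add (ak c r s) d
def rB (c r s d : E) : E := .add (aE c r s) d
/-- rows: side of the `3` -/
def rK (c r s d : E) : E := .sub (bk c r s) d
def rM (c r d : E) : E := .sub (.sub (bq Tl c r (.q 3 4) tm) lm) d
def rU (c r d : E) : E := .sub (.sub (bq Tl c r (.q 3 4) tu) lu) d
def r1 (tl c r d : E) : E := .sub (.sub (bq tl c r (.q 3 10) tu) (l1 tl)) d
def r2 (tl c r d : E) : E := .sub (.sub (bq tl c r (.q 7 20) tu) (l2 tl)) d

/-! ### rows of the losses: variables `y`, `T`, `q`, `θ` -/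

def vy : E := .var 0
def vT : E := .var 1
def f8 : E := E.tr 800 50 50 vy
def sm : E := .mul vT f8
def su : E := .mul (.q 4 25) f8
def hi1 : E := .mul (.q 1 2) (E.tr 650 130 150 (.var 2))
def lo1 : E := E.mn (E.mn (.mul (.q 4 3) (.var 2)) (.q 16 100))
  (E.mn (.sub (.q 16 100) (.mul (.q 45 170) (.sub (.var 2) (.q 33 100)))) (.mul (.q 115 150) (.sub (.q 65 100) (.var 2))))
def hi2 : E := .mul (.q 3 10) (E.tr 600 120 270 (.var 2))
def lo2 : E := .mul (.q 4 25) (E.tr 600 120 270 (.var 2))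
/-- height of the hinge in the slot `0` -/
def gU (hi : E) : E := .mul (.var 3) hi
def gD (lo : E) : E := .neg (.mul (.var 3) lo)
/-- the same minus `T` -/
def G0 (lo : E) : E := .relu (.sub (.neg lo) vT)
def dM (lo : E) : E := .sub (G0 lo) (.mul (.var 3) (.add vT (G0 lo)))
def dB (lo : E) : E := .sub (G0 lo) (.mul (.var 3) (.relu (.add lo vT)))
/-- difference of the values, inner variable moved from `y + i a` to `m + i T`; hinge `q + i g`, `t = T - g` -/
def PX (m a g t : E) : E :=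
  .sub (.sub (.ux (.sub vy (.var 2)) (.sub a g)) (.ux (.sub m (.var 2)) t))
    (.mul .pi (.add (.mul (.var 2) (.sub vT a)) (.mul g (.sub m vy))))
def PW (m a g t : E) : E :=
  .sub (.sub (.uw (.sub vy (.var 2)) (.sub a g)) (.uw (.sub m (.var 2)) t))
    (.mul .pi (.add (.mul (.var 2) (.sub vT a)) (.mul g (.sub m vy))))
def PI (m a : E) : E := .add (.sub (.uw m vT) (.uw vy a)) (.mul .pi (.sub vT a))
def fU (P : E) : E := .add (.add P (PI (.q 3 4) su)) (.add (.mul .pi (.neg vT)) (E.pl vy 1145 LU))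
def f1 (P : E) : E := .add (.add (.add P (PI (.q 3 10) su)) (.mul (.mul (.q 2 1) .pi) su)) (.add (E.pl vy 304 A1) (.mul (E.pl vy 1845 B1) (.sub (.neg vT) (.q 15 1000))))
def f2 (P : E) : E := .add (.add (.add P (PI (.q 7 20) su)) (.mul (.mul (.q 2 1) .pi) su)) (.add (E.pl vy 227 A2) (.mul (E.pl vy 2180 B2) (.sub (.neg vT) (.q 80 1000))))
/-- slope and height of the inner variable on the right ramp of its main path -/
def mu : E := .mul (.q (-20) 1) vT
def sl : E := .mul (.mul (.q 20 1) vT) (.sub (.q 4 5) vy)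
/-- derivative of `UU` at `x + i t` along `1 + i m` -/
def dUx (x t m : E) : D := .add (.xw x t) (.of (.mul m (.yw x t)))
def dG (g : E) : D :=
  .add (.of (.add (.q 1 4) (.mul .pi (.add g (.mul (.var 2) mu))))) (.sub (dUx (.sub vy (.var 2)) (.sub sl g) mu) (dUx vy sl mu))

end Pool.Agent.Work.MP_b30479_gt.G2.K3b
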