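import Pool.Agent.Work.MP_b30479_gt.G2.WM_1_3bE

/-!
# Mirrored paths, kind `1 | 3`, the `3` at its slot `2`: expressions of the rows
-/

namespace Pool.Agent.Work.MP_b30479_gt.G2.K3b

open NumG

/-- heights of the inner variable of the `3`, independent of `T` -/
def Te : E := .sub (.q (-15) 1000) (.var 3)
def Ts : E := .add (.q (-90) 1000) (.mul (.var 3) (.q 75 1000))
def te : E := .mul Te t8
def lme : E := .add (.mul .pi (.mul (.neg Te) (.sub (.q 1 1) t8))) (.mul (.q 1 4) (.sub (.var 2) (.q 3 4)))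
def lue : E := .sub (.add (.mul .pi (.neg Te)) (E.pl (.var 2) 1145 LU)) (.mul .pi (.mul (.q 8 25) t8))
def rMe (c r d : E) : E := .sub (.sub (bq Te c r (.q 3 4) te) lme) d
def rUe (c r d : E) : E := .sub (.sub (bq Te c r (.q 3 4) tu) lue) d

end Pool.Agent.Work.MP_b30479_gt.G2.K3b
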