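import Pool.Agent.Work.NumU.GenD

/-!
# Mirrored paths, kind `1 | 3`, the `3` in its slot `2`: definitions of the rows with a far gain
-/

namespace Pool.Agent.Work.NumG.KU

open MP_b30479_gt.VOL MP_b30479_gt.G2 NumG
open NumU (uu)

/-- ramp functions -/
noncomputable def tX (x : ℝ) : ℝ := tr 0 (65 / 100) (15 / 100) (29 / 100) x
noncomputable def t8 (y : ℝ) : ℝ := tr 0 (80 / 100) (15 / 100) (20 / 100) y
noncomputable def t86 (y : ℝ) : ℝ := tr 0 (86 / 100) (15 / 100) (20 / 100) y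
noncomputable def tQ (r : ℝ) : ℝ := tr 0 (86 / 100) (13 / 100) (20 / 100) r
noncomputable def tM (r : ℝ) : ℝ := tr 0 (65 / 100) (13 / 100) (15 / 100) r

/-- the part of the hinge `1 | 3` and of the new position of the other hinge -/
noncomputable def fH (c κ T K : ℝ) : ℝ := uu (c + 3 / 20) (κ * T + K) - uu c (κ * T) +
  (Real.pi * ((c - 1) * K + 3 / 20 * κ * T) + 11 / 4 * K)
/-- the part of the old positions -/
noncomputable def fOld (x y : ℝ) : ℝ := uu x (4 / 25 * tX x) -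
  uu (x + y) (4 / 25 * t8 y - 4 / 25 * tX x) +
  Real.pi * (4 / 25 * t8 y * (1 - x) + 4 / 25 * tX x * y)
/-- the other hinge is kept; `t`: its ramp function -/
noncomputable def fP (c κ t x T y : ℝ) : ℝ := uu (c + y) (κ * T + 4 / 25 * t) - uu c (κ * T) +
  uu x (4 / 25 * tX x) - uu (x + y) (4 / 25 * t - 4 / 25 * tX x) +
  Real.pi * ((κ * T + 4 / 25 * tX x) * y + 4 / 25 * t * (c - x))
/-- far gain, new position -/
noncomputable def fA (K r s : ℝ) : ℝ := uu (3 / 20 + r) (s - K) - 2 * uu (3 / 20) K +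
  Real.pi * (3 / 20 * s - K * (r - 1)) - 11 / 4 * K
/-- far gain, old position; `t`: ramp function -/
noncomputable def fB (y t r s : ℝ) : ℝ := 2 * uu y (4 / 25 * t) - uu (y + r) (s - 4 / 25 * t) +
  Real.pi * (4 / 25 * t * (r + 1) - y * s)

/-! ### expressions -/

def h4 (t : E) : E := .mul (.q 4 25) t
/-- variables `T`, `K` -/
def eH (cn cm cq kn : ℤ) (kd : ℕ) (pn : ℤ) (pd : ℕ) (h : ℤ) : E :=
  .sub (.add (.sub (.uw (.q cm 100) (.add (.mul (.q kn kd) (.var 0)) (.var 1)))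
    (.uw (.q cn 100) (.mul (.q kn kd) (.var 0))))
    (.add (.mul .pi (.add (.mul (.q cq 100) (.var 1)) (.mul (.q pn pd) (.var 0))))
      (.mul (.q 11 4) (.var 1)))) (.q h 10000)
/-- variables `x`, `y` -/
def eR (h : ℤ) : E := .lt (E.tr 650 150 290 (.var 0)) (.lt (E.tr 800 150 200 (.var 1))
  (.add (.q h 10000) (.add (.sub (.uw (.var 0) (h4 (.var 4)))
    (.uw (.add (.var 0) (.var 1)) (.sub (h4 (.var 5)) (h4 (.var 4)))))
    (.mul .pi (.add (.mul (h4 (.var 5)) (.sub (.q 1 1) (.var 0)))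
      (.mul (h4 (.var 4)) (.var 1)))))))
/-- variables `x`, `T`, `y` -/
def eP (XM cn kn : ℤ) (kd : ℕ) : E :=
  .lt (E.tr 650 150 290 (.var 0)) (.lt (E.tr XM 150 200 (.var 2))
    (.add (.sub (.add (.sub (.uw (.add (.q cn 100) (.var 2))
      (.add (.mul (.q kn kd) (.var 1)) (h4 (.var 5)))) (.uw (.q cn 100) (.mul (.q kn kd) (.var 1))))
      (.uw (.var 0) (h4 (.var 4)))) (.uw (.add (.var 0) (.var 2)) (.sub (h4 (.var 5)) (h4 (.var 4)))))
      (.mul .pi (.add (.mul (.add (.mul (.q kn kd) (.var 1)) (h4 (.var 4))) (.var 2))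
        (.mul (h4 (.var 5)) (.sub (.q cn 100) (.var 0)))))))
def eP' (XM cn kn : ℤ) (kd : ℕ) : E :=
  .lt (E.tr 650 150 290 (.var 0)) (.lt (E.tr XM 150 200 (.var 2))
    (.add (.add (.sub (.add (.sub (.uw (.add (.q cn 100) (.var 2))
      (.add (.mul (.q kn kd) (.var 1)) (h4 (.var 5)))) (.uw (.q cn 100) (.mul (.q kn kd) (.var 1))))
      (.uw (.var 0) (h4 (.var 4)))) (.uw (.add (.var 0) (.var 2)) (.sub (h4 (.var 5)) (h4 (.var 4)))))
      (.mul .pi (.add (.mul (.add (.mul (.q kn kd) (.var 1)) (h4 (.var 4))) (.var 2))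
        (.mul (h4 (.var 5)) (.sub (.q cn 100) (.var 0)))))) (.q 1 100)))
/-- height of the second hinge: trapezoid (`v`: number of its real part, `v + 1`: parameter) -/
def sQ (r th : E) : E := .mul (.mul (.q 4 25) th) (E.tr 860 130 200 r)
def sM (r : E) : E := .neg (.mul (.q 1 2) (E.tr 650 130 150 r))
def b0 : E := .add (.sub (.mul (.q 2 1) (.sub (.uw (.var 0) (h4 (.var 4))) (.uw (.q 15 100) (.var 1))))
    (.q 30 1000))
  (.sub (.mul .pi (.add (.add (.mul (.sub (.q 15 100) (.var 0)) (.var 5))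
    (.mul (.sub (h4 (.var 4)) (.var 1)) (.sub (.var 2) (.q 1 1)))) (.mul (.q 2 1) (h4 (.var 4)))))
    (.mul (.q 11 4) (.var 1)))
def gA1 : E := .uw (.add (.q 15 100) (.var 2)) (.sub (.var 5) (.var 1))
def gB1 : E := .uw (.add (.var 0) (.var 2)) (.sub (.var 5) (h4 (.var 4)))
def gA2 : E := .sub (.mul .pi (.mul (.sub (.var 1) (.var 5)) (.sub (.var 2) (.q 35 100))))
  (.q 96 10000)
def gB2 : E := .add (.mul .pi (.mul (.sub (h4 (.var 4)) (.var 5))
  (.sub (.add (.var 0) (.var 2)) (.q 1 2)))) (.q 96 10000)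
def gA : E := .sub (.sub (.var 1) (.var 5)) (.q 45 100)
def gB : E := .sub (.sub (h4 (.var 4)) (.var 5)) (.q 45 100)
/-- variables `y`, `K`, `r`, `θ` -/
def eG : E := .lt (E.tr 800 150 200 (.var 0)) (.lt (sQ (.var 2) (.var 3))
  (.add (.sub (.sub (.add (.mul (.q 2 1) (.sub (.uw (.var 0) (h4 (.var 4))) (.uw (.q 15 100) (.var 1)))) gA1) gB1)
    (.q 30 1000))
  (.sub (.mul .pi (.add (.add (.mul (.sub (.q 15 100) (.var 0)) (.var 5))
    (.mul (.sub (h4 (.var 4)) (.var 1)) (.sub (.var 2) (.q 1 1)))) (.mul (.q 2 1) (h4 (.var 4)))))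
    (.mul (.q 11 4) (.var 1)))))
def lM (e : E) : E := .lt (E.tr 800 150 200 (.var 0)) (.lt (sM (.var 2)) e)
def eM1 : E := lM (.sub (.add b0 gA1) gB1)
def eM2 : E := lM (E.mn (.sub (.add b0 gA1) gB2) gB)
def eM3 : E := lM (E.mn (E.mn (.sub (.add b0 gA2) gB2) gA) gB)
def spQ (r s : E) : E := .add (.q (-36) 1000) (.add (.mul (.q 1 5) r) (.mul (.q 3 10) s))
def spM (r s : E) : E := .add (.q (-140) 1000) (.add (.mul (.q 4 5) r) (.mul (.q 7 10) s))
/-- variables `K`, `r` -/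
def a0 (sp : E) : E := .add (.neg (.mul (.q 2 1) (.uw (.q 15 100) (.var 0))))
  (.sub (.sub (.mul .pi (.sub (.mul (.q 15 100) (.var 4)) (.mul (.var 0) (.sub (.var 1) (.q 1 1)))))
    (.mul (.q 11 4) (.var 0))) sp)
def hA1 : E := .uw (.add (.q 15 100) (.var 1)) (.sub (.var 4) (.var 0))
def hA2 : E := .sub (.mul .pi (.mul (.sub (.var 0) (.var 4)) (.sub (.var 1) (.q 35 100))))
  (.q 96 10000)
def hA : E := .sub (.sub (.var 0) (.var 4)) (.q 45 100)
def eA : E := .lt (sQ (.var 1) (.var 2)) (.add (a0 (spQ (.var 1) (.var 4))) hA1)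
def eC1 : E := .lt (sM (.var 1)) (.add (a0 (spM (.var 1) (.var 4))) hA1)
def eC2 : E := .lt (sM (.var 1)) (E.mn (.add (a0 (spM (.var 1) (.var 4))) hA2) hA)
/-- variables `y`, `r` -/
def c0 (sp : E) : E := .add (.mul (.q 2 1) (.uw (.var 0) (.q 4 25)))
  (.add (.sub (.mul .pi (.sub (.mul (.q 4 25) (.add (.var 1) (.q 1 1))) (.mul (.var 0) (.var 4))))
    (.q 30 1000)) sp)
def hB1 : E := .uw (.add (.var 0) (.var 1)) (.sub (.var 4) (.q 4 25))
def hB2 : E := .add (.mul .pi (.mul (.sub (.q 4 25) (.var 4)) (.sub (.add (.var 0) (.var 1)) (.q 1 2))))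
  (.q 96 10000)
def hB : E := .sub (.sub (.q 4 25) (.var 4)) (.q 45 100)
def eB : E := .lt (sQ (.var 1) (.var 2)) (.sub (c0 (spQ (.var 1) (.var 4))) hB1)
def eD1 : E := .lt (sM (.var 1)) (.sub (c0 (spM (.var 1) (.var 4))) hB1)
def eD2 : E := .lt (sM (.var 1)) (E.mn (.sub (c0 (spM (.var 1) (.var 4))) hB2) hB)

/-! ### values -/

theorem u0 (l : List ℝ) (a : ℝ) : NumI.lkR (a :: l) 0 = a := rfl
theorem u1 (l : List ℝ) (a b : ℝ) : NumI.lkR (a :: b :: l) 1 = b := rfl
theorem u2 (l : List ℝ) (a b c : ℝ) : NumI.lkR (a :: b :: c :: l) 2 = c := rfl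
theorem u3 (l : List ℝ) (a b c d : ℝ) : NumI.lkR (a :: b :: c :: d :: l) 3 = d := rfl
theorem u4 (l : List ℝ) (a b c d e : ℝ) : NumI.lkR (a :: b :: c :: d :: e :: l) 4 = e := rfl
theorem u5 (l : List ℝ) (a b c d e f : ℝ) : NumI.lkR (a :: b :: c :: d :: e :: f :: l) 5 = f := rfl

theorem eH_val {cn cm cq kn : ℤ} {kd : ℕ} {pn : ℤ} {pd : ℕ} {h : ℤ} {T K z w : ℝ} :
    (eH cn cm cq kn kd pn pd h).val [T, K, z, w] =
    uu ((cm : ℝ) / 100) ((kn : ℝ) / kd * T + K) - uu ((cn : ℝ) / 100) ((kn : ℝ) / kd * T) +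
      (Real.pi * ((cq : ℝ) / 100 * K + (pn : ℝ) / pd * T) + 11 / 4 * K) - (h : ℝ) / 10000 := by
  simp only [eH, E.val, u0, u1]
  push_cast
  rfl

theorem tX_val {xs : List ℝ} {v : E} : (E.tr 650 150 290 v).val xs = tX (v.val xs) := by
  rw [E.tr_val (by norm_num) (by norm_num) (by norm_num)]
  unfold tX
  norm_num

theorem t8_val {xs : List ℝ} {v : E} : (E.tr 800 150 200 v).val xs = t8 (v.val xs) := by
  rw [E.tr_val (by norm_num) (by norm_num) (by norm_num)]
  unfold t8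
  norm_num

theorem t86_val {xs : List ℝ} {v : E} : (E.tr 860 150 200 v).val xs = t86 (v.val xs) := by
  rw [E.tr_val (by norm_num) (by norm_num) (by norm_num)]
  unfold t86
  norm_num

theorem tQ_val {xs : List ℝ} {v : E} : (E.tr 860 130 200 v).val xs = tQ (v.val xs) := by
  rw [E.tr_val (by norm_num) (by norm_num) (by norm_num)]
  unfold tQ
  norm_num

theorem tM_val {xs : List ℝ} {v : E} : (E.tr 650 130 150 v).val xs = tM (v.val xs) := by
  rw [E.tr_val (by norm_num) (by norm_num) (by norm_num)]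
  unfold tM
  norm_num

theorem eR_val {h : ℤ} {x y z w : ℝ} : (eR h).val [x, y, z, w] = (h : ℝ) / 10000 + fOld x y := by
  simp only [eR, h4, E.val, tX_val, t8_val, List.cons_append, List.nil_append, u0, u1, u4, u5]
  unfold fOld
  push_cast
  ring

theorem eP_val {cn kn : ℤ} {kd : ℕ} {x T y w : ℝ} : (eP 800 cn kn kd).val [x, T, y, w] =
    fP ((cn : ℝ) / 100) ((kn : ℝ) / kd) (t8 y) x T y := by
  simp only [eP, h4, E.val, tX_val, t8_val, List.cons_append, List.nil_append, u0, u1, u2, u4, u5]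
  unfold fP
  push_cast
  ring

theorem eP6_val {cn kn : ℤ} {kd : ℕ} {x T y w : ℝ} : (eP 860 cn kn kd).val [x, T, y, w] =
    fP ((cn : ℝ) / 100) ((kn : ℝ) / kd) (t86 y) x T y := by
  simp only [eP, h4, E.val, tX_val, t86_val, List.cons_append, List.nil_append, u0, u1, u2, u4, u5]
  unfold fP
  push_cast
  ring

theorem eP'_val {cn kn : ℤ} {kd : ℕ} {x T y w : ℝ} : (eP' 800 cn kn kd).val [x, T, y, w] =
    fP ((cn : ℝ) / 100) ((kn : ℝ) / kd) (t8 y) x T y + 1 / 100 := by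
  simp only [eP', h4, E.val, tX_val, t8_val, List.cons_append, List.nil_append, u0, u1, u2, u4, u5]
  unfold fP
  push_cast
  ring

theorem eP6'_val {cn kn : ℤ} {kd : ℕ} {x T y w : ℝ} : (eP' 860 cn kn kd).val [x, T, y, w] =
    fP ((cn : ℝ) / 100) ((kn : ℝ) / kd) (t86 y) x T y + 1 / 100 := by
  simp only [eP', h4, E.val, tX_val, t86_val, List.cons_append, List.nil_append, u0, u1, u2, u4, u5]
  unfold fP
  push_cast
  ring

theorem eG_val {y K r θ : ℝ} : eG.val [y, K, r, θ] =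
    fA K r (θ * (4 / 25 * tQ r)) + fB y (t8 y) r (θ * (4 / 25 * tQ r)) - 30 / 1000 := by
  simp only [eG, gA1, gB1, sQ, h4, E.val, tQ_val, t8_val, List.cons_append, List.nil_append, u0, u1,
    u2, u3, u4, u5]
  unfold fA fB
  push_cast
  rw [show 4 / 25 * θ * tQ r = θ * (4 / 25 * tQ r) by ring]
  norm_num
  ring

theorem mn_pos {a b : ℝ} (h : 0 < a - max (a - b) 0) : 0 < a ∧ 0 < b := by
  have h1 := le_max_left (a - b) 0
  have h2 := le_max_right (a - b) 0
  constructor <;> linarith only [h, h2, h1]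

/-- `UU` far from the real axis -/
theorem uu_far {X t : ℝ} (ht : 45 / 100 ≤ |t|) :
    |uu X t - Real.pi * |t| * (X - 1 / 2)| ≤ 96 / 10000 := by
  have h1 := NumX.far (x := X) (t := t) (by linarith only [ht])
  set e := Real.exp (-(2 * Real.pi * |t|)) with he
  have hp := Real.pi_pos
  have hp3 := Real.pi_gt_d6
  have h0 : 0 < e := Real.exp_pos _
  have h2 : e ≤ 592 / 10000 := by
    rw [he]
    have h3 : -(2 * Real.pi * |t|) ≤ -(2827 / 1000) := by nlinarith only [hp3, ht, hp]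
    refine (Real.exp_le_exp.2 h3).trans ?_
    rw [Real.exp_neg, inv_le_comm₀ (Real.exp_pos _) (by norm_num)]
    have h4 : Real.exp (2827 / 1000 : ℝ) = Real.exp 1 ^ 2 * Real.exp (827 / 1000) := by
      rw [← Real.exp_nat_mul, ← Real.exp_add]
      norm_num
    rw [h4]
    have h5 := Real.exp_one_gt_d9
    have h6 : (22863 / 10000 : ℝ) ≤ Real.exp (827 / 1000) := by
      have := Real.sum_le_exp_of_nonneg (x := 827 / 1000) (by norm_num) 7
      simp only [Finset.sum_range_succ, Finset.sum_range_zero, Nat.factorial] at this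
      norm_num at this ⊢
      linarith only [this]
    have h7 : (7389 : ℝ) / 1000 ≤ Real.exp 1 ^ 2 := by nlinarith only [h5]
    calc ((592 / 10000 : ℝ))⁻¹ ≤ 7389 / 1000 * (22863 / 10000) := by norm_num
      _ ≤ _ := by gcongr
  have h3 := Real.abs_sin_le_one (2 * Real.pi * X)
  have h4 : |e * Real.sin (2 * Real.pi * X) / (2 * Real.pi)| ≤ 9423 / 1000000 := by
    rw [abs_div, abs_mul, abs_of_pos h0, abs_of_pos (by positivity : 0 < 2 * Real.pi),
      div_le_iff₀ (by positivity)]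
    have := mul_le_mul_of_nonneg_left h3 h0.le
    nlinarith only [hp3, h0, h2, this]
  have h5 : e ^ 2 / 20 ≤ 1753 / 10000000 := by nlinarith only [h2, h0]
  have h6 := abs_le.1 h1
  have h7 := abs_le.1 h4
  have h8 : Real.pi * |t| * (X - 1 / 2) = -(Real.pi * |t| / 2) + Real.pi * |t| * X := by ring
  rw [abs_le, h8]
  constructor <;> linarith only [h0, h2, h5, h6, h7, h6.1, h6.2, h7.1, h7.2]

theorem farA {X s b : ℝ} (h : 45 / 100 ≤ b - s) :
    Real.pi * ((b - s) * (X - 1 / 2)) - 96 / 10000 ≤ uu X (s - b) := by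
  have h1 := uu_far (X := X) (t := s - b) (by rw [abs_of_neg (by linarith only [h])]; linarith only [h])
  rw [abs_of_neg (by linarith only [h] : s - b < 0), show Real.pi * -(s - b) * (X - 1 / 2) =
    Real.pi * ((b - s) * (X - 1 / 2)) by ring] at h1
  linarith only [h1, (abs_le.1 h1).1]

theorem farB {X s b : ℝ} (h : 45 / 100 ≤ b - s) :
    uu X (s - b) ≤ Real.pi * ((b - s) * (X - 1 / 2)) + 96 / 10000 := by
  have h1 := uu_far (X := X) (t := s - b) (by rw [abs_of_neg (by linarith only [h])]; linarith only [h])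
  rw [abs_of_neg (by linarith only [h] : s - b < 0), show Real.pi * -(s - b) * (X - 1 / 2) =
    Real.pi * ((b - s) * (X - 1 / 2)) by ring] at h1
  linarith only [h1, (abs_le.1 h1).2]

theorem eM1_pos {y K r w : ℝ} (h : 0 < eM1.val [y, K, r, w]) : 30 / 1000 <
    fA K r (-(1 / 2 * tM r)) + fB y (t8 y) r (-(1 / 2 * tM r)) := by
  simp only [eM1, lM, b0, gA1, gB1, sM, h4, E.val, tM_val, t8_val, List.cons_append,
    List.nil_append, u0, u1, u2, u4, u5] at h
  push_cast at h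
  unfold fA fB
  norm_num at h ⊢
  linarith only [h]

theorem eM2_pos {y K r w : ℝ} (h : 0 < eM2.val [y, K, r, w]) : 30 / 1000 <
    fA K r (-(1 / 2 * tM r)) + fB y (t8 y) r (-(1 / 2 * tM r)) := by
  simp only [eM2, lM, b0, gA1, gB2, gB, sM, h4, E.mn, E.val, tM_val, t8_val,
    List.cons_append, List.nil_append, u0, u1, u2, u4, u5] at h
  push_cast at h
  obtain ⟨h1, h2⟩ := mn_pos h
  have h3 := farB (X := y + r) (s := -(1 / 2 * tM r)) (b := 4 / 25 * t8 y) (by linarith only [h2])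
  unfold fA fB
  norm_num at h1 h3 ⊢
  linarith only [h1, h3]

theorem eM3_pos {y K r w : ℝ} (h : 0 < eM3.val [y, K, r, w]) : 30 / 1000 <
    fA K r (-(1 / 2 * tM r)) + fB y (t8 y) r (-(1 / 2 * tM r)) := by
  simp only [eM3, lM, b0, gA2, gB2, gA, gB, sM, h4, E.mn, E.val, tM_val, t8_val,
    List.cons_append, List.nil_append, u0, u1, u2, u4, u5] at h
  push_cast at h
  obtain ⟨h0, h2⟩ := mn_pos h
  obtain ⟨h1, h4⟩ := mn_pos h0
  have h3 := farB (X := y + r) (s := -(1 / 2 * tM r)) (b := 4 / 25 * t8 y) (by linarith only [h2])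
  have h5 := farA (X := 3 / 20 + r) (s := -(1 / 2 * tM r)) (b := K) (by linarith only [h4])
  unfold fA fB
  norm_num at h1 h3 h5 ⊢
  linarith only [h1, h3, h5]

theorem eA_val {K r θ w : ℝ} : eA.val [K, r, θ, w] = fA K r (θ * (4 / 25 * tQ r)) -
    (-(36 / 1000) + (1 / 5 * r + 3 / 10 * (θ * (4 / 25 * tQ r)))) := by
  simp only [eA, a0, spQ, hA1, sQ, E.val, tQ_val, List.cons_append, List.nil_append, u0, u1, u2, u4]
  unfold fA
  push_cast
  rw [show 4 / 25 * θ * tQ r = θ * (4 / 25 * tQ r) by ring]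
  norm_num
  ring

theorem eB_val {y r θ w : ℝ} : eB.val [y, r, θ, w] = fB y 1 r (θ * (4 / 25 * tQ r)) - 30 / 1000 +
    (-(36 / 1000) + (1 / 5 * r + 3 / 10 * (θ * (4 / 25 * tQ r)))) := by
  simp only [eB, c0, spQ, hB1, sQ, E.val, tQ_val, List.cons_append, List.nil_append, u0, u1, u2, u4]
  unfold fB
  push_cast
  rw [show 4 / 25 * θ * tQ r = θ * (4 / 25 * tQ r) by ring]
  norm_num
  ring

theorem eC1_pos {K r z w : ℝ} (h : 0 < eC1.val [K, r, z, w]) :
    -(140 / 1000) + (4 / 5 * r + 7 / 10 * (-(1 / 2 * tM r))) < fA K r (-(1 / 2 * tM r)) := by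
  simp only [eC1, a0, spM, hA1, sM, E.val, tM_val, List.cons_append, List.nil_append, u0, u1, u4]
    at h
  push_cast at h
  unfold fA
  norm_num at h ⊢
  linarith only [h]

theorem eC2_pos {K r z w : ℝ} (h : 0 < eC2.val [K, r, z, w]) :
    -(140 / 1000) + (4 / 5 * r + 7 / 10 * (-(1 / 2 * tM r))) < fA K r (-(1 / 2 * tM r)) := by
  simp only [eC2, a0, spM, hA2, hA, sM, E.mn, E.val, tM_val, List.cons_append, List.nil_append, u0,
    u1, u4] at h
  push_cast at h
  obtain ⟨h1, h2⟩ := mn_pos h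
  have h3 := farA (X := 3 / 20 + r) (s := -(1 / 2 * tM r)) (b := K) (by linarith only [h2])
  unfold fA
  norm_num at h1 h3 ⊢
  linarith only [h1, h3]

theorem eD1_pos {y r z w : ℝ} (h : 0 < eD1.val [y, r, z, w]) :
    30 / 1000 - (-(140 / 1000) + (4 / 5 * r + 7 / 10 * (-(1 / 2 * tM r)))) <
      fB y 1 r (-(1 / 2 * tM r)) := by
  simp only [eD1, c0, spM, hB1, sM, E.val, tM_val, List.cons_append, List.nil_append, u0, u1, u4]
    at h
  push_cast at h
  unfold fB
  norm_num at h ⊢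
  linarith only [h]

theorem eD2_pos {y r z w : ℝ} (h : 0 < eD2.val [y, r, z, w]) :
    30 / 1000 - (-(140 / 1000) + (4 / 5 * r + 7 / 10 * (-(1 / 2 * tM r)))) <
      fB y 1 r (-(1 / 2 * tM r)) := by
  simp only [eD2, c0, spM, hB2, hB, sM, E.mn, E.val, tM_val, List.cons_append, List.nil_append, u0,
    u1, u4] at h
  push_cast at h
  obtain ⟨h1, h2⟩ := mn_pos h
  have h3 := farB (X := y + r) (s := -(1 / 2 * tM r)) (b := 4 / 25) (by linarith only [h2])
  unfold fB
  norm_num at h1 h3 ⊢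
  linarith only [h1, h3]

end Pool.Agent.Work.NumG.KU
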