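import Pool.Agent.Work.MP_b30479_gt.G2.WM_1_3bUa
import Pool.Agent.Work.NumU.GenF

/-!
# Mirrored paths, kind `1 | 3`, the `3` in its slot `2`: rows in the variables of the near hinge
-/

namespace Pool.Agent.Work.NumG.KU

open MP_b30479_gt.VOL MP_b30479_gt.G2 NumG
open NumU (uu)

theorem H08 {T K : ℝ} (a0 : 210 / 10000 ≤ T) (b0 : T ≤ 920 / 10000) (a1 : -(910 / 10000) ≤ K) (b1 : K ≤ 0) :
    -(120 / 10000) < fH (8 / 100) (8 / 15) T K := by
  have h : chkF [eH 8 23 (-92) 8 15 120 1500 (-120)] 10000 0 910 0 0 60 210 920 0 910 0 0 0 0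
      0x408102000804000 = true := by decide +kernel
  obtain ⟨e, he, hp⟩ := chkF4 h (by norm_num) (x := (T)) (y := (K)) (z := 0) (w := 0)
    (by norm_num; linarith only [a0]) (by norm_num; linarith only [b0])
    (by norm_num; linarith only [a1]) (by norm_num; linarith only [b1])
    (by norm_num) (by norm_num)
    (by norm_num) (by norm_num)
  simp only [List.mem_singleton] at he
  subst he
  rw [eH_val] at hp
  refine lt_of_sub_pos (hp.trans_le (le_of_eq ?_))
  unfold fH
  push_cast
  norm_num

theorem H09 {T K : ℝ} (a0 : 210 / 10000 ≤ T) (b0 : T ≤ 920 / 10000) (a1 : -(910 / 10000) ≤ K) (b1 : K ≤ 0) :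
    -(50 / 10000) < fH (9 / 100) (3 / 5) T K := by
  have h : chkF [eH 9 24 (-91) 3 5 45 500 (-50)] 10000 0 910 0 0 60 210 920 0 910 0 0 0 0
      0x40810000 = true := by decide +kernel
  obtain ⟨e, he, hp⟩ := chkF4 h (by norm_num) (x := (T)) (y := (K)) (z := 0) (w := 0)
    (by norm_num; linarith only [a0]) (by norm_num; linarith only [b0])
    (by norm_num; linarith only [a1]) (by norm_num; linarith only [b1])
    (by norm_num) (by norm_num)
    (by norm_num) (by norm_num)
  simp only [List.mem_singleton] at he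
  subst he
  rw [eH_val] at hp
  refine lt_of_sub_pos (hp.trans_le (le_of_eq ?_))
  unfold fH
  push_cast
  norm_num

theorem H10 {T K : ℝ} (a0 : 210 / 10000 ≤ T) (b0 : T ≤ 920 / 10000) (a1 : -(910 / 10000) ≤ K) (b1 : K ≤ 0) :
    0 < fH (10 / 100) (2 / 3) T K := by
  have h : chkF [eH 10 25 (-90) 2 3 30 300 0] 10000 0 910 0 0 60 210 920 0 910 0 0 0 0
      0x10200 = true := by decide +kernel
  obtain ⟨e, he, hp⟩ := chkF4 h (by norm_num) (x := (T)) (y := (K)) (z := 0) (w := 0)
    (by norm_num; linarith only [a0]) (by norm_num; linarith only [b0])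
    (by norm_num; linarith only [a1]) (by norm_num; linarith only [b1])
    (by norm_num) (by norm_num)
    (by norm_num) (by norm_num)
  simp only [List.mem_singleton] at he
  subst he
  rw [eH_val] at hp
  refine lt_of_sub_pos (hp.trans_le (le_of_eq ?_))
  unfold fH
  push_cast
  norm_num

theorem H15 {T K : ℝ} (a0 : 210 / 10000 ≤ T) (b0 : T ≤ 920 / 10000) (a1 : -(910 / 10000) ≤ K) (b1 : K ≤ 0) :
    200 / 10000 < fH (15 / 100) 1 T K := by
  have h : chkF [eH 15 30 (-85) 1 1 15 100 200] 10000 0 910 0 0 60 210 920 0 910 0 0 0 0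
      0x4 = true := by decide +kernel
  obtain ⟨e, he, hp⟩ := chkF4 h (by norm_num) (x := (T)) (y := (K)) (z := 0) (w := 0)
    (by norm_num; linarith only [a0]) (by norm_num; linarith only [b0])
    (by norm_num; linarith only [a1]) (by norm_num; linarith only [b1])
    (by norm_num) (by norm_num)
    (by norm_num) (by norm_num)
  simp only [List.mem_singleton] at he
  subst he
  rw [eH_val] at hp
  refine lt_of_sub_pos (hp.trans_le (le_of_eq ?_))
  unfold fH
  push_cast
  norm_num

theorem H20 {T K : ℝ} (a0 : 210 / 10000 ≤ T) (b0 : T ≤ 920 / 10000) (a1 : -(910 / 10000) ≤ K) (b1 : K ≤ 0) :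
    300 / 10000 < fH (20 / 100) 1 T K := by
  have h : chkF [eH 20 35 (-80) 1 1 15 100 300] 10000 0 910 0 0 60 210 920 0 910 0 0 0 0
      0x4 = true := by decide +kernel
  obtain ⟨e, he, hp⟩ := chkF4 h (by norm_num) (x := (T)) (y := (K)) (z := 0) (w := 0)
    (by norm_num; linarith only [a0]) (by norm_num; linarith only [b0])
    (by norm_num; linarith only [a1]) (by norm_num; linarith only [b1])
    (by norm_num) (by norm_num)
    (by norm_num) (by norm_num)
  simp only [List.mem_singleton] at he
  subst he
  rw [eH_val] at hp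
  refine lt_of_sub_pos (hp.trans_le (le_of_eq ?_))
  unfold fH
  push_cast
  norm_num

theorem H25 {T K : ℝ} (a0 : 210 / 10000 ≤ T) (b0 : T ≤ 920 / 10000) (a1 : -(910 / 10000) ≤ K) (b1 : K ≤ 0) :
    350 / 10000 < fH (25 / 100) 1 T K := by
  have h : chkF [eH 25 40 (-75) 1 1 15 100 350] 10000 0 910 0 0 60 210 920 0 910 0 0 0 0
      0x4 = true := by decide +kernel
  obtain ⟨e, he, hp⟩ := chkF4 h (by norm_num) (x := (T)) (y := (K)) (z := 0) (w := 0)
    (by norm_num; linarith only [a0]) (by norm_num; linarith only [b0])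
    (by norm_num; linarith only [a1]) (by norm_num; linarith only [b1])
    (by norm_num) (by norm_num)
    (by norm_num) (by norm_num)
  simp only [List.mem_singleton] at he
  subst he
  rw [eH_val] at hp
  refine lt_of_sub_pos (hp.trans_le (le_of_eq ?_))
  unfold fH
  push_cast
  norm_num

theorem H30 {T K : ℝ} (a0 : 210 / 10000 ≤ T) (b0 : T ≤ 920 / 10000) (a1 : -(910 / 10000) ≤ K) (b1 : K ≤ 0) :
    350 / 10000 < fH (30 / 100) 1 T K := by
  have h : chkF [eH 30 45 (-70) 1 1 15 100 350] 10000 0 910 0 0 60 210 920 0 910 0 0 0 0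
      0x4 = true := by decide +kernel
  obtain ⟨e, he, hp⟩ := chkF4 h (by norm_num) (x := (T)) (y := (K)) (z := 0) (w := 0)
    (by norm_num; linarith only [a0]) (by norm_num; linarith only [b0])
    (by norm_num; linarith only [a1]) (by norm_num; linarith only [b1])
    (by norm_num) (by norm_num)
    (by norm_num) (by norm_num)
  simp only [List.mem_singleton] at he
  subst he
  rw [eH_val] at hp
  refine lt_of_sub_pos (hp.trans_le (le_of_eq ?_))
  unfold fH
  push_cast
  norm_num

theorem R08 {x y : ℝ} (a0 : 0 ≤ x) (b0 : x ≤ 700 / 10000) (a1 : 0 ≤ y) (b1 : y ≤ 6000 / 10000) :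
    -(180 / 10000) < fOld x y := by
  have h : chkF [eR 180] 10000 0 0 0 0 60 0 700 0 6000 0 0 0 0
      0x102040800204001020400042040010204000420400102000810084081000408102040004001000400002000800204081 = true := by decide +kernel
  obtain ⟨e, he, hp⟩ := chkF4 h (by norm_num) (x := (x)) (y := (y)) (z := 0) (w := 0)
    (by norm_num; linarith only [a0]) (by norm_num; linarith only [b0])
    (by norm_num; linarith only [a1]) (by norm_num; linarith only [b1])
    (by norm_num) (by norm_num)
    (by norm_num) (by norm_num)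
  simp only [List.mem_singleton] at he
  subst he
  rw [eR_val] at hp
  push_cast at hp
  linarith only [hp]

theorem R09 {x y : ℝ} (a0 : 700 / 10000 ≤ x) (b0 : x ≤ 850 / 10000) (a1 : 0 ≤ y) (b1 : y ≤ 6000 / 10000) :
    -(250 / 10000) < fOld x y := by
  have h : chkF [eR 250] 10000 0 0 0 0 60 700 850 0 6000 0 0 0 0
      0x408102040204081 = true := by decide +kernel
  obtain ⟨e, he, hp⟩ := chkF4 h (by norm_num) (x := (x)) (y := (y)) (z := 0) (w := 0)
    (by norm_num; linarith only [a0]) (by norm_num; linarith only [b0])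
    (by norm_num; linarith only [a1]) (by norm_num; linarith only [b1])
    (by norm_num) (by norm_num)
    (by norm_num) (by norm_num)
  simp only [List.mem_singleton] at he
  subst he
  rw [eR_val] at hp
  push_cast at hp
  linarith only [hp]

theorem R10 {x y : ℝ} (a0 : 850 / 10000 ≤ x) (b0 : x ≤ 1300 / 10000) (a1 : 0 ≤ y) (b1 : y ≤ 6000 / 10000) :
    -(300 / 10000) < fOld x y := by
  have h : chkF [eR 300] 10000 0 0 0 0 60 850 1300 0 6000 0 0 0 0
      0x1020408102000204081 = true := by decide +kernel
  obtain ⟨e, he, hp⟩ := chkF4 h (by norm_num) (x := (x)) (y := (y)) (z := 0) (w := 0)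
    (by norm_num; linarith only [a0]) (by norm_num; linarith only [b0])
    (by norm_num; linarith only [a1]) (by norm_num; linarith only [b1])
    (by norm_num) (by norm_num)
    (by norm_num) (by norm_num)
  simp only [List.mem_singleton] at he
  subst he
  rw [eR_val] at hp
  push_cast at hp
  linarith only [hp]

theorem R15 {x y : ℝ} (a0 : 1300 / 10000 ≤ x) (b0 : x ≤ 2000 / 10000) (a1 : 0 ≤ y) (b1 : y ≤ 6000 / 10000) :
    -(500 / 10000) < fOld x y := by
  have h : chkF [eR 500] 10000 0 0 0 0 60 1300 2000 0 6000 0 0 0 0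
      0x1020008102040004081 = true := by decide +kernel
  obtain ⟨e, he, hp⟩ := chkF4 h (by norm_num) (x := (x)) (y := (y)) (z := 0) (w := 0)
    (by norm_num; linarith only [a0]) (by norm_num; linarith only [b0])
    (by norm_num; linarith only [a1]) (by norm_num; linarith only [b1])
    (by norm_num) (by norm_num)
    (by norm_num) (by norm_num)
  simp only [List.mem_singleton] at he
  subst he
  rw [eR_val] at hp
  push_cast at hp
  linarith only [hp]

theorem R20 {x y : ℝ} (a0 : 2000 / 10000 ≤ x) (b0 : x ≤ 5000 / 10000) (a1 : 0 ≤ y) (b1 : y ≤ 6000 / 10000) :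
    -(600 / 10000) < fOld x y := by
  have h : chkF [eR 600] 10000 0 0 0 0 60 2000 5000 0 6000 0 0 0 0
      0x408102000004204080000402002040010001081000402100800810204000408408102000204001 = true := by decide +kernel
  obtain ⟨e, he, hp⟩ := chkF4 h (by norm_num) (x := (x)) (y := (y)) (z := 0) (w := 0)
    (by norm_num; linarith only [a0]) (by norm_num; linarith only [b0])
    (by norm_num; linarith only [a1]) (by norm_num; linarith only [b1])
    (by norm_num) (by norm_num)
    (by norm_num) (by norm_num)
  simp only [List.mem_singleton] at he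
  subst he
  rw [eR_val] at hp
  push_cast at hp
  linarith only [hp]

theorem R25 {x y : ℝ} (a0 : 5000 / 10000 ≤ x) (b0 : x ≤ 6200 / 10000) (a1 : 0 ≤ y) (b1 : y ≤ 6000 / 10000) :
    -(650 / 10000) < fOld x y := by
  have h : chkF [eR 650] 10000 0 0 0 0 60 5000 6200 0 6000 0 0 0 0
      0x40800204080400400042040010084001020000102000804201080008108100040804081 = true := by decide +kernel
  obtain ⟨e, he, hp⟩ := chkF4 h (by norm_num) (x := (x)) (y := (y)) (z := 0) (w := 0)
    (by norm_num; linarith only [a0]) (by norm_num; linarith only [b0])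
    (by norm_num; linarith only [a1]) (by norm_num; linarith only [b1])
    (by norm_num) (by norm_num)
    (by norm_num) (by norm_num)
  simp only [List.mem_singleton] at he
  subst he
  rw [eR_val] at hp
  push_cast at hp
  linarith only [hp]

theorem R30 {x y : ℝ} (a0 : 6200 / 10000 ≤ x) (b0 : x ≤ 6500 / 10000) (a1 : 0 ≤ y) (b1 : y ≤ 6000 / 10000) :
    -(650 / 10000) < fOld x y := by
  have h : chkF [eR 650] 10000 0 0 0 0 60 6200 6500 0 6000 0 0 0 0
      0x408102010210204020420402102010200004080420402042040210201020020402102010210201081008100000010810081 = true := by decide +kernel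
  obtain ⟨e, he, hp⟩ := chkF4 h (by norm_num) (x := (x)) (y := (y)) (z := 0) (w := 0)
    (by norm_num; linarith only [a0]) (by norm_num; linarith only [b0])
    (by norm_num; linarith only [a1]) (by norm_num; linarith only [b1])
    (by norm_num) (by norm_num)
    (by norm_num) (by norm_num)
  simp only [List.mem_singleton] at he
  subst he
  rw [eR_val] at hp
  push_cast at hp
  linarith only [hp]

theorem P8008 {x T y : ℝ} (a0 : 0 ≤ x) (b0 : x ≤ 700 / 10000) (a1 : 210 / 10000 ≤ T) (b1 : T ≤ 920 / 10000) (a2 : 6000 / 10000 ≤ y) (b2 : y ≤ 8000 / 10000) :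
    0 < fP (8 / 100) (8 / 15) (t8 y) x T y := by
  have h : chkF [eP 800 8 8 15] 10000 0 0 0 0 60 0 700 210 920 6000 8000 0 0
      0x40800202 = true := by decide +kernel
  obtain ⟨e, he, hp⟩ := chkF4 h (by norm_num) (x := (x)) (y := (T)) (z := (y)) (w := 0)
    (by norm_num; linarith only [a0]) (by norm_num; linarith only [b0])
    (by norm_num; linarith only [a1]) (by norm_num; linarith only [b1])
    (by norm_num; linarith only [a2]) (by norm_num; linarith only [b2])
    (by norm_num) (by norm_num)
  simp only [List.mem_singleton] at he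
  subst he
  rw [eP_val] at hp
  push_cast at hp
  linarith only [hp]

theorem P8608 {x T y : ℝ} (a0 : 0 ≤ x) (b0 : x ≤ 700 / 10000) (a1 : 210 / 10000 ≤ T) (b1 : T ≤ 920 / 10000) (a2 : 6000 / 10000 ≤ y) (b2 : y ≤ 8600 / 10000) :
    0 < fP (8 / 100) (8 / 15) (t86 y) x T y := by
  have h : chkF [eP 860 8 8 15] 10000 0 0 0 0 60 0 700 210 920 6000 8600 0 0
      0x4081000008100020810002 = true := by decide +kernel
  obtain ⟨e, he, hp⟩ := chkF4 h (by norm_num) (x := (x)) (y := (T)) (z := (y)) (w := 0)
    (by norm_num; linarith only [a0]) (by norm_num; linarith only [b0])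
    (by norm_num; linarith only [a1]) (by norm_num; linarith only [b1])
    (by norm_num; linarith only [a2]) (by norm_num; linarith only [b2])
    (by norm_num) (by norm_num)
  simp only [List.mem_singleton] at he
  subst he
  rw [eP6_val] at hp
  push_cast at hp
  linarith only [hp]

theorem P8009 {x T y : ℝ} (a0 : 700 / 10000 ≤ x) (b0 : x ≤ 850 / 10000) (a1 : 210 / 10000 ≤ T) (b1 : T ≤ 920 / 10000) (a2 : 6000 / 10000 ≤ y) (b2 : y ≤ 8000 / 10000) :
    0 < fP (9 / 100) (3 / 5) (t8 y) x T y := by
  have h : chkF [eP 800 9 3 5] 10000 0 0 0 0 60 700 850 210 920 6000 8000 0 0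
      0x10202 = true := by decide +kernel
  obtain ⟨e, he, hp⟩ := chkF4 h (by norm_num) (x := (x)) (y := (T)) (z := (y)) (w := 0)
    (by norm_num; linarith only [a0]) (by norm_num; linarith only [b0])
    (by norm_num; linarith only [a1]) (by norm_num; linarith only [b1])
    (by norm_num; linarith only [a2]) (by norm_num; linarith only [b2])
    (by norm_num) (by norm_num)
  simp only [List.mem_singleton] at he
  subst he
  rw [eP_val] at hp
  push_cast at hp
  linarith only [hp]

theorem P8609 {x T y : ℝ} (a0 : 700 / 10000 ≤ x) (b0 : x ≤ 850 / 10000) (a1 : 210 / 10000 ≤ T) (b1 : T ≤ 920 / 10000) (a2 : 6000 / 10000 ≤ y) (b2 : y ≤ 8600 / 10000) :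
    0 < fP (9 / 100) (3 / 5) (t86 y) x T y := by
  have h : chkF [eP 860 9 3 5] 10000 0 0 0 0 60 700 850 210 920 6000 8600 0 0
      0x40808202 = true := by decide +kernel
  obtain ⟨e, he, hp⟩ := chkF4 h (by norm_num) (x := (x)) (y := (T)) (z := (y)) (w := 0)
    (by norm_num; linarith only [a0]) (by norm_num; linarith only [b0])
    (by norm_num; linarith only [a1]) (by norm_num; linarith only [b1])
    (by norm_num; linarith only [a2]) (by norm_num; linarith only [b2])
    (by norm_num) (by norm_num)
  simp only [List.mem_singleton] at he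
  subst he
  rw [eP6_val] at hp
  push_cast at hp
  linarith only [hp]

theorem P8010 {x T y : ℝ} (a0 : 850 / 10000 ≤ x) (b0 : x ≤ 1300 / 10000) (a1 : 210 / 10000 ≤ T) (b1 : T ≤ 920 / 10000) (a2 : 6000 / 10000 ≤ y) (b2 : y ≤ 8000 / 10000) :
    0 < fP (10 / 100) (2 / 3) (t8 y) x T y := by
  have h : chkF [eP 800 10 2 3] 10000 0 0 0 0 60 850 1300 210 920 6000 8000 0 0
      0x10202 = true := by decide +kernel
  obtain ⟨e, he, hp⟩ := chkF4 h (by norm_num) (x := (x)) (y := (T)) (z := (y)) (w := 0)
    (by norm_num; linarith only [a0]) (by norm_num; linarith only [b0])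
    (by norm_num; linarith only [a1]) (by norm_num; linarith only [b1])
    (by norm_num; linarith only [a2]) (by norm_num; linarith only [b2])
    (by norm_num) (by norm_num)
  simp only [List.mem_singleton] at he
  subst he
  rw [eP_val] at hp
  push_cast at hp
  linarith only [hp]

theorem P8610 {x T y : ℝ} (a0 : 850 / 10000 ≤ x) (b0 : x ≤ 1300 / 10000) (a1 : 210 / 10000 ≤ T) (b1 : T ≤ 920 / 10000) (a2 : 6000 / 10000 ≤ y) (b2 : y ≤ 8600 / 10000) :
    0 < fP (10 / 100) (2 / 3) (t86 y) x T y := by
  have h : chkF [eP 860 10 2 3] 10000 0 0 0 0 60 850 1300 210 920 6000 8600 0 0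
      0x102020808202 = true := by decide +kernel
  obtain ⟨e, he, hp⟩ := chkF4 h (by norm_num) (x := (x)) (y := (T)) (z := (y)) (w := 0)
    (by norm_num; linarith only [a0]) (by norm_num; linarith only [b0])
    (by norm_num; linarith only [a1]) (by norm_num; linarith only [b1])
    (by norm_num; linarith only [a2]) (by norm_num; linarith only [b2])
    (by norm_num) (by norm_num)
  simp only [List.mem_singleton] at he
  subst he
  rw [eP6_val] at hp
  push_cast at hp
  linarith only [hp]

theorem P8015 {x T y : ℝ} (a0 : 1300 / 10000 ≤ x) (b0 : x ≤ 2000 / 10000) (a1 : 210 / 10000 ≤ T) (b1 : T ≤ 920 / 10000) (a2 : 6000 / 10000 ≤ y) (b2 : y ≤ 8000 / 10000) :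
    0 < fP (15 / 100) 1 (t8 y) x T y := by
  have h : chkF [eP 800 15 1 1] 10000 0 0 0 0 60 1300 2000 210 920 6000 8000 0 0
      0x102000808202 = true := by decide +kernel
  obtain ⟨e, he, hp⟩ := chkF4 h (by norm_num) (x := (x)) (y := (T)) (z := (y)) (w := 0)
    (by norm_num; linarith only [a0]) (by norm_num; linarith only [b0])
    (by norm_num; linarith only [a1]) (by norm_num; linarith only [b1])
    (by norm_num; linarith only [a2]) (by norm_num; linarith only [b2])
    (by norm_num) (by norm_num)
  simp only [List.mem_singleton] at he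
  subst he
  rw [eP_val] at hp
  push_cast at hp
  rw [div_one] at hp
  linarith only [hp]

theorem P8615 {x T y : ℝ} (a0 : 1300 / 10000 ≤ x) (b0 : x ≤ 2000 / 10000) (a1 : 210 / 10000 ≤ T) (b1 : T ≤ 920 / 10000) (a2 : 6000 / 10000 ≤ y) (b2 : y ≤ 8600 / 10000) :
    0 < fP (15 / 100) 1 (t86 y) x T y := by
  have h : chkF [eP 860 15 1 1] 10000 0 0 0 0 60 1300 2000 210 920 6000 8600 0 0
      0x10204000020208100020810002 = true := by decide +kernel
  obtain ⟨e, he, hp⟩ := chkF4 h (by norm_num) (x := (x)) (y := (T)) (z := (y)) (w := 0)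
    (by norm_num; linarith only [a0]) (by norm_num; linarith only [b0])
    (by norm_num; linarith only [a1]) (by norm_num; linarith only [b1])
    (by norm_num; linarith only [a2]) (by norm_num; linarith only [b2])
    (by norm_num) (by norm_num)
  simp only [List.mem_singleton] at he
  subst he
  rw [eP6_val] at hp
  push_cast at hp
  rw [div_one] at hp
  linarith only [hp]

theorem P8020 {x T y : ℝ} (a0 : 2000 / 10000 ≤ x) (b0 : x ≤ 5000 / 10000) (a1 : 210 / 10000 ≤ T) (b1 : T ≤ 920 / 10000) (a2 : 6000 / 10000 ≤ y) (b2 : y ≤ 8000 / 10000) :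
    0 < fP (20 / 100) 1 (t8 y) x T y := by
  have h : chkF [eP 800 20 1 1] 10000 0 0 0 0 60 2000 5000 210 920 6000 8000 0 0
      0x40810100081020004102000808002081010408100000808202001020400082040400100 = true := by decide +kernel
  obtain ⟨e, he, hp⟩ := chkF4 h (by norm_num) (x := (x)) (y := (T)) (z := (y)) (w := 0)
    (by norm_num; linarith only [a0]) (by norm_num; linarith only [b0])
    (by norm_num; linarith only [a1]) (by norm_num; linarith only [b1])
    (by norm_num; linarith only [a2]) (by norm_num; linarith only [b2])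
    (by norm_num) (by norm_num)
  simp only [List.mem_singleton] at he
  subst he
  rw [eP_val] at hp
  push_cast at hp
  rw [div_one] at hp
  linarith only [hp]

theorem P8620 {x T y : ℝ} (a0 : 2000 / 10000 ≤ x) (b0 : x ≤ 5000 / 10000) (a1 : 210 / 10000 ≤ T) (b1 : T ≤ 920 / 10000) (a2 : 6000 / 10000 ≤ y) (b2 : y ≤ 8600 / 10000) :
    0 < fP (20 / 100) 1 (t86 y) x T y := by
  have h : chkF [eP 860 20 1 1] 10000 0 0 0 0 60 2000 5000 210 920 6000 8600 0 0
      0x102040008204041020008080020810200041020400082020010204080000208100040400100 = true := by decide +kernel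
  obtain ⟨e, he, hp⟩ := chkF4 h (by norm_num) (x := (x)) (y := (T)) (z := (y)) (w := 0)
    (by norm_num; linarith only [a0]) (by norm_num; linarith only [b0])
    (by norm_num; linarith only [a1]) (by norm_num; linarith only [b1])
    (by norm_num; linarith only [a2]) (by norm_num; linarith only [b2])
    (by norm_num) (by norm_num)
  simp only [List.mem_singleton] at he
  subst he
  rw [eP6_val] at hp
  push_cast at hp
  rw [div_one] at hp
  linarith only [hp]

theorem P8025 {x T y : ℝ} (a0 : 5000 / 10000 ≤ x) (b0 : x ≤ 6200 / 10000) (a1 : 210 / 10000 ≤ T) (b1 : T ≤ 920 / 10000) (a2 : 6000 / 10000 ≤ y) (b2 : y ≤ 8000 / 10000) :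
    0 < fP (25 / 100) 1 (t8 y) x T y := by
  have h : chkF [eP 800 25 1 1] 10000 0 0 0 0 60 5000 6200 210 920 6000 8000 0 0
      0x408002040800102 = true := by decide +kernel
  obtain ⟨e, he, hp⟩ := chkF4 h (by norm_num) (x := (x)) (y := (T)) (z := (y)) (w := 0)
    (by norm_num; linarith only [a0]) (by norm_num; linarith only [b0])
    (by norm_num; linarith only [a1]) (by norm_num; linarith only [b1])
    (by norm_num; linarith only [a2]) (by norm_num; linarith only [b2])
    (by norm_num) (by norm_num)
  simp only [List.mem_singleton] at he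
  subst he
  rw [eP_val] at hp
  push_cast at hp
  rw [div_one] at hp
  linarith only [hp]

theorem P8625 {x T y : ℝ} (a0 : 5000 / 10000 ≤ x) (b0 : x ≤ 6200 / 10000) (a1 : 210 / 10000 ≤ T) (b1 : T ≤ 920 / 10000) (a2 : 6000 / 10000 ≤ y) (b2 : y ≤ 8600 / 10000) :
    0 < fP (25 / 100) 1 (t86 y) x T y := by
  have h : chkF [eP 860 25 1 1] 10000 0 0 0 0 60 5000 6200 210 920 6000 8600 0 0
      0x408002020810102 = true := by decide +kernel
  obtain ⟨e, he, hp⟩ := chkF4 h (by norm_num) (x := (x)) (y := (T)) (z := (y)) (w := 0)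
    (by norm_num; linarith only [a0]) (by norm_num; linarith only [b0])
    (by norm_num; linarith only [a1]) (by norm_num; linarith only [b1])
    (by norm_num; linarith only [a2]) (by norm_num; linarith only [b2])
    (by norm_num) (by norm_num)
  simp only [List.mem_singleton] at he
  subst he
  rw [eP6_val] at hp
  push_cast at hp
  rw [div_one] at hp
  linarith only [hp]

theorem P8030 {x T y : ℝ} (a0 : 6200 / 10000 ≤ x) (b0 : x ≤ 6500 / 10000) (a1 : 210 / 10000 ≤ T) (b1 : T ≤ 920 / 10000) (a2 : 6000 / 10000 ≤ y) (b2 : y ≤ 8000 / 10000) :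
    -(1 / 100) < fP (30 / 100) 1 (t8 y) x T y := by
  have h : chkF [eP' 800 30 1 1] 10000 0 0 0 0 60 6200 6500 210 920 6000 8000 0 0
      0x408082040410102 = true := by decide +kernel
  obtain ⟨e, he, hp⟩ := chkF4 h (by norm_num) (x := (x)) (y := (T)) (z := (y)) (w := 0)
    (by norm_num; linarith only [a0]) (by norm_num; linarith only [b0])
    (by norm_num; linarith only [a1]) (by norm_num; linarith only [b1])
    (by norm_num; linarith only [a2]) (by norm_num; linarith only [b2])
    (by norm_num) (by norm_num)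
  simp only [List.mem_singleton] at he
  subst he
  rw [eP'_val] at hp
  push_cast at hp
  rw [div_one] at hp
  linarith only [hp]

theorem P8630 {x T y : ℝ} (a0 : 6200 / 10000 ≤ x) (b0 : x ≤ 6500 / 10000) (a1 : 210 / 10000 ≤ T) (b1 : T ≤ 920 / 10000) (a2 : 6000 / 10000 ≤ y) (b2 : y ≤ 8600 / 10000) :
    -(1 / 100) < fP (30 / 100) 1 (t86 y) x T y := by
  have h : chkF [eP' 860 30 1 1] 10000 0 0 0 0 60 6200 6500 210 920 6000 8600 0 0
      0x40808204080820404080840804102 = true := by decide +kernel
  obtain ⟨e, he, hp⟩ := chkF4 h (by norm_num) (x := (x)) (y := (T)) (z := (y)) (w := 0)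
    (by norm_num; linarith only [a0]) (by norm_num; linarith only [b0])
    (by norm_num; linarith only [a1]) (by norm_num; linarith only [b1])
    (by norm_num; linarith only [a2]) (by norm_num; linarith only [b2])
    (by norm_num) (by norm_num)
  simp only [List.mem_singleton] at he
  subst he
  rw [eP6'_val] at hp
  push_cast at hp
  rw [div_one] at hp
  linarith only [hp]


end Pool.Agent.Work.NumG.KU
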