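import Pool.Agent.Work.MP_b30479_gt.G2.WM_1_3bG
import Pool.Agent.Work.MP_b30479_gt.G2.WM_2_3aE
import Pool.Agent.Work.MP_b30479_gt.G2.V3MidRA
import Pool.Agent.Work.MP_b30479_gt.G2.WLocA
import Pool.Agent.Work.MP_b30479_gt.G2.WMGc
import Pool.Agent.Work.MP_b30479_gt.G2.WMMF
import Pool.Agent.Work.MP_b30479_gt.G2.WMR2
import Pool.Agent.Work.MP_b30479_gt.G2.WRng
import Pool.Agent.Work.MP_b30479_gt.G2.WTab

/-!
# Mirrored paths, kind `1 | 3`, the `3` at its slot `2`: values of the rows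
-/

namespace Pool.Agent.Work.MP_b30479_gt.G2

open Finset VOL Filter Topology

namespace K3b

open NumG

/-- ramp function of the hinge, height of its mirrored path -/
noncomputable def τx (x : ℝ) : ℝ := tr 0 (65 / 100) (15 / 100) (29 / 100) x
noncomputable def hx (x : ℝ) : ℝ := 16 / 100 * τx x
/-- ramp functions of the other hinge of the `1` -/
noncomputable def τ1 (y : ℝ) : ℝ := tr 0 (86 / 100) (15 / 100) (20 / 100) y
noncomputable def τ2 (y : ℝ) : ℝ := tr 0 (80 / 100) (16 / 100) (29 / 100) y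
noncomputable def τe (y : ℝ) : ℝ := tr 0 (70 / 100) (14 / 100) (35 / 100) y

/-- prices -/
noncomputable def pL (x T : ℝ) : ℝ := dl.val [x, T, 0, 0]
noncomputable def pM (x T : ℝ) : ℝ := dm.val [x, T, 0, 0]
noncomputable def pJ (x T : ℝ) : ℝ := dj.val [x, T, 0, 0]
noncomputable def pH (x T : ℝ) : ℝ := dh.val [x, T, 0, 0]

variable {x T y p : ℝ} {c r s d : E} {C R P S w : ℝ}

theorem v0 : (E.var 0).val [x, T, y, p] = x := rfl
theorem v1 : (E.var 1).val [x, T, y, p] = T := rfl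
theorem v2 : (E.var 2).val [x, T, y, p] = y := rfl
theorem v3 : (E.var 3).val [x, T, y, p] = p := rfl
theorem lk0 : NumI.lkR [x, T, y, p] 0 = x := rfl
theorem lk2 : NumI.lkR [x, T, y, p] 2 = y := rfl
theorem vT' : K3b.T.val [x, T, y, p] = T := rfl

theorem dl_val : dl.val [x, T, y, p] = pL x T := rfl
theorem dm_val : dm.val [x, T, y, p] = pM x T := rfl
theorem dj_val : dj.val [x, T, y, p] = pJ x T := rfl
theorem dh_val : dh.val [x, T, y, p] = pH x T := rfl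
theorem dE_val : dE.val [x, T, y, p] = -(70 / 1000) := by norm_num [dE, E.val]

theorem hh_val : hh.val [x, T, y, p] = hx x := by
  unfold hh hx τx
  rw [E.val, E.tr_val (by norm_num) (by norm_num) (by norm_num), v0]
  norm_num [E.val]

theorem t8_val : t8.val [x, T, y, p] = K23.τl y := by
  unfold t8 K23.τl
  rw [E.tr_val (by norm_num) (by norm_num) (by norm_num), v2]
  norm_num

theorem tu_val : tu.val [x, T, y, p] = 16 / 100 * K23.τl y := by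
  unfold tu
  rw [E.val, t8_val]
  norm_num [E.val]

theorem S1_val : S1.val [x, T, y, p] = 49 / 1000 - max (T - 62 / 1000) 0 - p := by
  simp only [S1, E.val, vT']
  norm_num

theorem S2_val : S2.val [x, T, y, p] = 77 / 1000 - max (T - 71 / 1000) 0 - p := by
  simp only [S2, E.val, vT']
  norm_num

theorem SE_val : SE.val [x, T, y, p] = -(25 / 1000) - max (T - 102 / 1000) 0 - p := by
  simp only [SE, E.val, vT']
  norm_num

theorem Tl_val : Tl.val [x, T, y, p] = -(15 / 1000) - max (T - 662 / 10000) 0 - p := by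
  simp only [Tl, E.val, vT']
  norm_num

theorem Tq_val : Tq.val [x, T, y, p] = -(90 / 1000) + p * (75 / 1000 - max (T - 662 / 10000) 0) := by
  simp only [Tq, E.val, vT']
  norm_num

theorem Tr_val : Tr.val [x, T, y, p] = -(80 / 1000) + p * (65 / 1000 - max (T - 662 / 10000) 0) := by
  simp only [Tr, E.val, vT']
  norm_num

theorem Tp_val : Tp.val [x, T, y, p] = -(80 / 1000) - p := by
  simp only [Tp, E.val]
  norm_num

theorem Te_val : Te.val [x, T, y, p] = -(15 / 1000) - p := by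
  simp only [Te, E.val]
  norm_num

theorem Ts_val : Ts.val [x, T, y, p] = -(90 / 1000) + p * (75 / 1000) := by
  simp only [Ts, E.val]
  norm_num

theorem s1_val : s1.val [x, T, y, p] = S1.val [x, T, y, p] * τ1 y := by
  unfold s1 τ1
  rw [E.val, E.tr_val (by norm_num) (by norm_num) (by norm_num), v2]
  norm_num

theorem s2_val : s2.val [x, T, y, p] = S2.val [x, T, y, p] * τ2 y := by
  unfold s2 τ2
  rw [E.val, E.tr_val (by norm_num) (by norm_num) (by norm_num), v2]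
  norm_num

theorem sE_val : sE.val [x, T, y, p] = SE.val [x, T, y, p] * τe y := by
  unfold sE τe
  rw [E.val, E.tr_val (by norm_num) (by norm_num) (by norm_num), v2]
  norm_num

theorem ak_val (hc : c.val [x, T, y, p] = C) (hr : r.val [x, T, y, p] = R) :
    (ak c r s).val [x, T, y, p] = V1 ⟨C, R * T⟩ ⟨y, s.val [x, T, y, p]⟩ -
      V1 ⟨x, -hx x⟩ ⟨y, s.val [x, T, y, p]⟩ + Real.pi * (R * T + hx x) := by
  have e1 : -hx x + s.val [x, T, y, p] = s.val [x, T, y, p] - hx x := by ring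
  unfold V1
  simp only [ak, E.val, NumU.UU_uu, Complex.add_re, Complex.add_im, Complex.sub_im, Complex.mul_im,
    hh_val, vT', lk0, lk2, hc, hr, e1, NumU.uu_neg]
  ring

theorem rA_val (hc : c.val [x, T, y, p] = C) (hr : r.val [x, T, y, p] = R)
    (hd : d.val [x, T, y, p] = P) :
    (rA c r s d).val [x, T, y, p] = V1 ⟨C, R * T⟩ ⟨y, s.val [x, T, y, p]⟩ -
      V1 ⟨x, -hx x⟩ ⟨y, s.val [x, T, y, p]⟩ + Real.pi * (R * T + hx x) + P := by
  unfold rA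
  rw [E.val, ak_val hc hr, hd]

theorem rB_val (hc : c.val [x, T, y, p] = C) (hr : r.val [x, T, y, p] = R)
    (hd : d.val [x, T, y, p] = P) :
    (rB c r s d).val [x, T, y, p] = V1 ⟨C, R * T⟩ ⟨1 / 4, SE.val [x, T, y, p]⟩ -
      V1 ⟨x, -hx x⟩ ⟨y, s.val [x, T, y, p]⟩ +
      (V2 ⟨1 / 4, -SE.val [x, T, y, p]⟩ 0 - V2 ⟨y, -s.val [x, T, y, p]⟩ 0) +
      Real.pi * (R * T + hx x) + P := by
  have e4 : (E.q 1 4).val [x, T, y, p] = 1 / 4 := by norm_num [E.val]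
  have e5 : ∀ e : E, (E.neg e).val [x, T, y, p] = -e.val [x, T, y, p] := fun _ => rfl
  have e6 : ∀ e : E, (E.mul e K3b.T).val [x, T, y, p] = e.val [x, T, y, p] * T := fun _ => rfl
  have e7 : (E.pi.mul ((r.mul K3b.T).add hh)).val [x, T, y, p] = Real.pi * (R * T + hx x) := by
    show Real.pi * (r.val [x, T, y, p] * T + hh.val [x, T, y, p]) = _
    rw [hr, hh_val]
  unfold rB aE
  rw [E.val, E.val, E.val, E.val, E.val, E.V1_val, E.V1_val, E.V2e_val, E.V2e_val, hd, e7, e4, e5,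
    e5, e5, e6, hc, hr, hh_val, v0, v2]
  ring

theorem bk_val (hc : c.val [x, T, y, p] = C) (hr : r.val [x, T, y, p] = R) :
    (bk c r s).val [x, T, y, p] = V2 ⟨C, -(R * T)⟩ ⟨y, s.val [x, T, y, p]⟩ -
      V2 ⟨x, hx x⟩ ⟨y, s.val [x, T, y, p]⟩ + Real.pi * (hx x - R * T) := by
  have e5 : ∀ e : E, (E.neg e).val [x, T, y, p] = -e.val [x, T, y, p] := fun _ => rfl
  have e6 : ∀ e : E, (E.mul e K3b.T).val [x, T, y, p] = e.val [x, T, y, p] * T := fun _ => rfl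
  have e7 : (E.pi.mul (hh.sub (r.mul K3b.T))).val [x, T, y, p] = Real.pi * (hx x - R * T) := by
    show Real.pi * (hh.val [x, T, y, p] - r.val [x, T, y, p] * T) = _
    rw [hr, hh_val]
  unfold bk
  rw [E.val, E.dV2_val, e7, e5, e6, hh_val, hc, hr, v0, v2]

theorem bq_val {tl m : E} {M : ℝ} (hm : m.val [x, T, y, p] = M) (hc : c.val [x, T, y, p] = C)
    (hr : r.val [x, T, y, p] = R) :
    (bq tl c r m s).val [x, T, y, p] = V2 ⟨C, -(R * T)⟩ ⟨M, tl.val [x, T, y, p]⟩ -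
      V2 ⟨x, hx x⟩ ⟨y, s.val [x, T, y, p]⟩ + Real.pi * (hx x - R * T) := by
  have e5 : ∀ e : E, (E.neg e).val [x, T, y, p] = -e.val [x, T, y, p] := fun _ => rfl
  have e6 : ∀ e : E, (E.mul e K3b.T).val [x, T, y, p] = e.val [x, T, y, p] * T := fun _ => rfl
  have e7 : (E.pi.mul (hh.sub (r.mul K3b.T))).val [x, T, y, p] = Real.pi * (hx x - R * T) := by
    show Real.pi * (hh.val [x, T, y, p] - r.val [x, T, y, p] * T) = _
    rw [hr, hh_val]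
  unfold bq
  rw [E.val, E.val, E.V2_val, E.V2_val, e7, e5, e6, hh_val, hc, hr, v0, v2, hm]

/-! ### cells of the position `x`: target `c`, ramp function `r` of the target, price `δ` -/

def CL (x c r : ℝ) : Prop :=
  (0 ≤ x ∧ x ≤ 7 / 100 ∧ c = 8 / 100 ∧ r = 8 / 15) ∨
  (7 / 100 ≤ x ∧ x ≤ 85 / 1000 ∧ c = 9 / 100 ∧ r = 3 / 5) ∨
  (85 / 1000 ≤ x ∧ x ≤ 13 / 100 ∧ c = 10 / 100 ∧ r = 2 / 3) ∨
  (15 / 100 ≤ x ∧ x ≤ 20 / 100 ∧ c = 15 / 100 ∧ r = 1) ∨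
  (20 / 100 ≤ x ∧ x ≤ 50 / 100 ∧ c = 20 / 100 ∧ r = 1) ∨
  (50 / 100 ≤ x ∧ x ≤ 58 / 100 ∧ c = 25 / 100 ∧ r = 1)

/-- other region of the `1`: a `1` -/
def C1 (x T c r δ : ℝ) : Prop :=
  (CL x c r ∧ δ = pL x T) ∨
  (13 / 100 ≤ x ∧ x ≤ 15 / 100 ∧ c = 15 / 100 ∧ r = 1 ∧ δ = pM x T) ∨
  (58 / 100 ≤ x ∧ x ≤ 62 / 100 ∧ c = 25 / 100 ∧ r = 1 ∧ δ = pL x T) ∨
  (62 / 100 ≤ x ∧ x ≤ 65 / 100 ∧ c = 30 / 100 ∧ r = 1 ∧ δ = pJ x T)

/-- other region of the `1`: a `2` -/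
def C2 (x T c r δ : ℝ) : Prop :=
  (CL x c r ∧ δ = pL x T) ∨
  (13 / 100 ≤ x ∧ x ≤ 15 / 100 ∧ c = 125 / 1000 ∧ r = 5 / 6 ∧ δ = pL x T) ∨
  (58 / 100 ≤ x ∧ x ≤ 65 / 100 ∧ c = 32 / 100 ∧ r = 1 ∧ δ = pH x T)

/-- other region of the `1`: a `2` at an end -/
def CE (x c r : ℝ) : Prop :=
  CL x c r ∨
  (13 / 100 ≤ x ∧ x ≤ 15 / 100 ∧ c = 125 / 1000 ∧ r = 5 / 6) ∨
  (58 / 100 ≤ x ∧ x ≤ 65 / 100 ∧ c = 32 / 100 ∧ r = 1)

/-- side of the `1`: the other hinge `K` is kept -/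
def GA (x T c r δ : ℝ) (K : ℂ) : Prop :=
  -(Real.pi * (r * T + hx x) + δ) < V1 ⟨c, r * T⟩ K - V1 ⟨x, -hx x⟩ K

/-- side of the `3`, inner variable on its main path of height `w` -/
def GM (x T c r δ y w : ℝ) : Prop :=
  Real.pi * (r * T - hx x) + δ <
    V2 ⟨c, -(r * T)⟩ ⟨y, w * K23.τl y⟩ - V2 ⟨x, hx x⟩ ⟨y, w * K23.τl y⟩ ∨
  (3 / 4 ≤ y ∧ Real.pi * (r * T - hx x) + δ +
      (Real.pi * (-w) * (1 - K23.τl y) + 1 / 4 * (y - 3 / 4)) <
    V2 ⟨c, -(r * T)⟩ ⟨3 / 4, w⟩ - V2 ⟨x, hx x⟩ ⟨y, w * K23.τl y⟩)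

/-- side of the `3`, inner variable on its upper mirrored path; `q`: the region behind is no `1` -/
def GU (x T c r δ y w : ℝ) (q : Prop) : Prop :=
  Real.pi * (r * T - hx x) + δ <
    V2 ⟨c, -(r * T)⟩ ⟨y, 16 / 100 * K23.τl y⟩ - V2 ⟨x, hx x⟩ ⟨y, 16 / 100 * K23.τl y⟩ ∨
  (45 / 100 ≤ y ∧ Real.pi * (r * T - hx x) + δ +
      (Real.pi * (-w) + plR y 1145 LU - 2 * Real.pi * (16 / 100 * K23.τl y)) <
    V2 ⟨c, -(r * T)⟩ ⟨3 / 4, w⟩ - V2 ⟨x, hx x⟩ ⟨y, 16 / 100 * K23.τl y⟩) ∨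
  (3 / 100 ≤ y ∧ -(90 / 1000) ≤ w ∧ Real.pi * (r * T - hx x) + δ +
      (plR y 304 A1 + plR y 1845 B1 * (-w - 15 / 1000)) <
    V2 ⟨c, -(r * T)⟩ ⟨3 / 10, w⟩ - V2 ⟨x, hx x⟩ ⟨y, 16 / 100 * K23.τl y⟩) ∨
  (q ∧ 3 / 100 ≤ y ∧ w ≤ -(80 / 1000) ∧ Real.pi * (r * T - hx x) + δ +
      (plR y 227 A2 + plR y 2180 B2 * (-w - 80 / 1000)) <
    V2 ⟨c, -(r * T)⟩ ⟨7 / 20, w⟩ - V2 ⟨x, hx x⟩ ⟨y, 16 / 100 * K23.τl y⟩)

end K3b

end Pool.Agent.Work.MP_b30479_gt.G2
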