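import Pool.Agent.Work.MP_b30479_gt.G2.WM_1_3bV
import Pool.Agent.Work.MP_b30479_gt.G2.WM_1_3bA1
import Pool.Agent.Work.MP_b30479_gt.G2.WM_1_3bA2
import Pool.Agent.Work.MP_b30479_gt.G2.WM_1_3bA3
import Pool.Agent.Work.MP_b30479_gt.G2.WM_1_3bA4
import Pool.Agent.Work.MP_b30479_gt.G2.WM_1_3bA5
import Pool.Agent.Work.MP_b30479_gt.G2.WM_1_3bA6
import Pool.Agent.Work.MP_b30479_gt.G2.WM_1_3bA7

/-!
# Mirrored paths, kind `1 | 3`, the `3` at its slot `2`: side of the `1`

`sideA1`, `sideA2r`, `sideA2`, `sideAE`: gain of the digit `1` on the cells of `C1`, `C2`, `CE`.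
-/

namespace Pool.Agent.Work.MP_b30479_gt.G2.K3b

open NumG

variable {x T y S : ℝ}

/-- parameter of the height `S` of the other hinge -/
noncomputable def p1 (T S : ℝ) : ℝ := 49 / 1000 - max (T - 62 / 1000) 0 - S
noncomputable def p2 (T S : ℝ) : ℝ := 77 / 1000 - max (T - 71 / 1000) 0 - S
noncomputable def pe (T S : ℝ) : ℝ := -(25 / 1000) - max (T - 102 / 1000) 0 - S

theorem p1_nn (h1 : S ≤ 49 / 1000) (h2 : T + S ≤ 111 / 1000) : 0 ≤ p1 T S := by
  have := max_le (show T - 62 / 1000 ≤ 49 / 1000 - S by linarith only [h2]) (show 0 ≤ 49 / 1000 - S by linarith only [h1])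
  unfold p1
  linarith only [this]

theorem p1_le (h : -(160 / 1000) ≤ S) : p1 T S ≤ 2090 / 10000 := by
  have := le_max_right (T - 62 / 1000) 0
  unfold p1
  linarith only [h, this]

theorem p2_nn (h1 : S ≤ 77 / 1000) (h2 : T + S ≤ 148 / 1000) : 0 ≤ p2 T S := by
  have := max_le (show T - 71 / 1000 ≤ 77 / 1000 - S by linarith only [h2]) (show 0 ≤ 77 / 1000 - S by linarith only [h1])
  unfold p2
  linarith only [this]

theorem p2_le (h : 10 / 1000 ≤ S) : p2 T S ≤ 670 / 10000 := by
  have := le_max_right (T - 71 / 1000) 0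
  unfold p2
  linarith only [h, this]

theorem pe_nn (h1 : S ≤ -(25 / 1000)) (h2 : T + S ≤ 77 / 1000) : 0 ≤ pe T S := by
  have := max_le (show T - 102 / 1000 ≤ -(25 / 1000) - S by linarith only [h2])
    (show 0 ≤ -(25 / 1000) - S by linarith only [h1])
  unfold pe
  linarith only [this]

theorem pe_le (h : -(45 / 1000) ≤ S) : pe T S ≤ 200 / 10000 := by
  have := le_max_right (T - 102 / 1000) 0
  unfold pe
  linarith only [h, this]

theorem qvA (a : ℤ) (n : ℕ) (xs : List ℝ) : (E.q a n).val xs = (a : ℝ) / n := rfl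

theorem fin1 {c r d : E} {C R P : ℝ} (hc : c.val [x, T, y, p1 T S] = C)
    (hr : r.val [x, T, y, p1 T S] = R) (hd : d.val [x, T, y, p1 T S] = P)
    (h : 0 < (rA c r s1 d).val [x, T, y, p1 T S]) : GA x T C R P ⟨y, S * τ1 y⟩ := by
  have e : S1.val [x, T, y, p1 T S] = S := by
    rw [S1_val, p1]
    ring
  rw [rA_val hc hr hd, s1_val, e] at h
  unfold GA
  linarith only [h]

theorem fin2 {c r d : E} {C R P : ℝ} (hc : c.val [x, T, y, p2 T S] = C)
    (hr : r.val [x, T, y, p2 T S] = R) (hd : d.val [x, T, y, p2 T S] = P)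
    (h : 0 < (rA c r s2 d).val [x, T, y, p2 T S]) : GA x T C R P ⟨y, S * τ2 y⟩ := by
  have e : S2.val [x, T, y, p2 T S] = S := by
    rw [S2_val, p2]
    ring
  rw [rA_val hc hr hd, s2_val, e] at h
  unfold GA
  linarith only [h]

/-- the other hinge moved to `1 / 4`, the region behind it is a `2` at an end -/
def GE (x T c r y S : ℝ) : Prop :=
  -(Real.pi * (r * T + hx x) - 70 / 1000) < V1 ⟨c, r * T⟩ ⟨1 / 4, S⟩ -
    V1 ⟨x, -hx x⟩ ⟨y, S * τe y⟩ + (V2 ⟨1 / 4, -S⟩ 0 - V2 ⟨y, -(S * τe y)⟩ 0)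

theorem finE {c r : E} {C R : ℝ} (hc : c.val [x, T, y, pe T S] = C)
    (hr : r.val [x, T, y, pe T S] = R)
    (h : 0 < (rA c r sE dE).val [x, T, y, pe T S] ∨ 0 < (rB c r sE dE).val [x, T, y, pe T S]) :
    GA x T C R (-(70 / 1000)) ⟨y, S * τe y⟩ ∨ GE x T C R y S := by
  have e : SE.val [x, T, y, pe T S] = S := by
    rw [SE_val, pe]
    ring
  rcases h with h | h
  · left
    rw [rA_val hc hr dE_val, sE_val, e] at h
    unfold GA
    linarith only [h]
  · right
    rw [rB_val hc hr dE_val, sE_val, e] at h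
    unfold GE
    linarith only [h]

theorem a_A1a (x0 : 0 / 10000 ≤ x) (x1 : x ≤ 700 / 10000) (T0 : 210 / 10000 ≤ T)
    (T1 : T ≤ 894 / 10000) (y0 : 0 ≤ y) (y1 : y ≤ 8600 / 10000)
    (S1 : S ≤ 49 / 1000) (S2 : T + S ≤ 111 / 1000) (S0 : -(160 / 1000) ≤ S) :
    GA x T (8 / 100) (8 / 15) (pL x T) ⟨y, S * τ1 y⟩ := by
  have q0 := p1_nn S1 S2
  have q1 := p1_le (T := T) S0
  obtain ⟨e, he, h⟩ := chkD4 r_A1a (by norm_num) (x := x) (y := T) (z := y) (w := p1 T S)
    (by push_cast; linarith only [x0]) (by push_cast; linarith only [x1]) (by push_cast; linarith only [T0])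
    (by push_cast; linarith only [T1]) (by push_cast; linarith only [y0]) (by push_cast; linarith only [y1])
    (by push_cast; linarith only [q0]) (by push_cast; linarith only [q1])
  rw [List.mem_singleton] at he
  subst he
  exact fin1 (by rw [qvA]; norm_num) (by rw [qvA]; norm_num) dl_val h

theorem a_A1b (x0 : 700 / 10000 ≤ x) (x1 : x ≤ 850 / 10000) (T0 : 210 / 10000 ≤ T)
    (T1 : T ≤ 894 / 10000) (y0 : 0 ≤ y) (y1 : y ≤ 8600 / 10000)
    (S1 : S ≤ 49 / 1000) (S2 : T + S ≤ 111 / 1000) (S0 : -(160 / 1000) ≤ S) :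
    GA x T (9 / 100) (3 / 5) (pL x T) ⟨y, S * τ1 y⟩ := by
  have q0 := p1_nn S1 S2
  have q1 := p1_le (T := T) S0
  obtain ⟨e, he, h⟩ := chkD4 r_A1b (by norm_num) (x := x) (y := T) (z := y) (w := p1 T S)
    (by push_cast; linarith only [x0]) (by push_cast; linarith only [x1]) (by push_cast; linarith only [T0])
    (by push_cast; linarith only [T1]) (by push_cast; linarith only [y0]) (by push_cast; linarith only [y1])
    (by push_cast; linarith only [q0]) (by push_cast; linarith only [q1])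
  rw [List.mem_singleton] at he
  subst he
  exact fin1 (by rw [qvA]; norm_num) (by rw [qvA]; norm_num) dl_val h

theorem a_A1c (x0 : 850 / 10000 ≤ x) (x1 : x ≤ 1300 / 10000) (T0 : 210 / 10000 ≤ T)
    (T1 : T ≤ 894 / 10000) (y0 : 0 ≤ y) (y1 : y ≤ 8600 / 10000)
    (S1 : S ≤ 49 / 1000) (S2 : T + S ≤ 111 / 1000) (S0 : -(160 / 1000) ≤ S) :
    GA x T (10 / 100) (2 / 3) (pL x T) ⟨y, S * τ1 y⟩ := by
  have q0 := p1_nn S1 S2
  have q1 := p1_le (T := T) S0
  obtain ⟨e, he, h⟩ := chkD4 r_A1c (by norm_num) (x := x) (y := T) (z := y) (w := p1 T S)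
    (by push_cast; linarith only [x0]) (by push_cast; linarith only [x1]) (by push_cast; linarith only [T0])
    (by push_cast; linarith only [T1]) (by push_cast; linarith only [y0]) (by push_cast; linarith only [y1])
    (by push_cast; linarith only [q0]) (by push_cast; linarith only [q1])
  rw [List.mem_singleton] at he
  subst he
  exact fin1 (by rw [qvA]; norm_num) (by rw [qvA]; norm_num) dl_val h

theorem a_A1d (x0 : 1300 / 10000 ≤ x) (x1 : x ≤ 1500 / 10000) (T0 : 210 / 10000 ≤ T)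
    (T1 : T ≤ 894 / 10000) (y0 : 0 ≤ y) (y1 : y ≤ 8600 / 10000)
    (S1 : S ≤ 49 / 1000) (S2 : T + S ≤ 111 / 1000) (S0 : -(160 / 1000) ≤ S) :
    GA x T (125 / 1000) (5 / 6) (pL x T) ⟨y, S * τ1 y⟩ := by
  have q0 := p1_nn S1 S2
  have q1 := p1_le (T := T) S0
  obtain ⟨e, he, h⟩ := chkD4 r_A1d (by norm_num) (x := x) (y := T) (z := y) (w := p1 T S)
    (by push_cast; linarith only [x0]) (by push_cast; linarith only [x1]) (by push_cast; linarith only [T0])
    (by push_cast; linarith only [T1]) (by push_cast; linarith only [y0]) (by push_cast; linarith only [y1])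
    (by push_cast; linarith only [q0]) (by push_cast; linarith only [q1])
  rw [List.mem_singleton] at he
  subst he
  exact fin1 (by rw [qvA]; norm_num) (by rw [qvA]; norm_num) dl_val h

theorem a_A1e (x0 : 1500 / 10000 ≤ x) (x1 : x ≤ 2000 / 10000) (T0 : 210 / 10000 ≤ T)
    (T1 : T ≤ 894 / 10000) (y0 : 0 ≤ y) (y1 : y ≤ 8600 / 10000)
    (S1 : S ≤ 49 / 1000) (S2 : T + S ≤ 111 / 1000) (S0 : -(160 / 1000) ≤ S) :
    GA x T (15 / 100) (1) (pL x T) ⟨y, S * τ1 y⟩ := by
  have q0 := p1_nn S1 S2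
  have q1 := p1_le (T := T) S0
  obtain ⟨e, he, h⟩ := chkD4 r_A1e (by norm_num) (x := x) (y := T) (z := y) (w := p1 T S)
    (by push_cast; linarith only [x0]) (by push_cast; linarith only [x1]) (by push_cast; linarith only [T0])
    (by push_cast; linarith only [T1]) (by push_cast; linarith only [y0]) (by push_cast; linarith only [y1])
    (by push_cast; linarith only [q0]) (by push_cast; linarith only [q1])
  rw [List.mem_singleton] at he
  subst he
  exact fin1 (by rw [qvA]; norm_num) (by rw [qvA]; norm_num) dl_val h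

theorem a_A1f (x0 : 2000 / 10000 ≤ x) (x1 : x ≤ 5000 / 10000) (T0 : 210 / 10000 ≤ T)
    (T1 : T ≤ 894 / 10000) (y0 : 0 ≤ y) (y1 : y ≤ 8600 / 10000)
    (S1 : S ≤ 49 / 1000) (S2 : T + S ≤ 111 / 1000) (S0 : -(160 / 1000) ≤ S) :
    GA x T (20 / 100) (1) (pL x T) ⟨y, S * τ1 y⟩ := by
  have q0 := p1_nn S1 S2
  have q1 := p1_le (T := T) S0
  obtain ⟨e, he, h⟩ := chkD4 r_A1f (by norm_num) (x := x) (y := T) (z := y) (w := p1 T S)
    (by push_cast; linarith only [x0]) (by push_cast; linarith only [x1]) (by push_cast; linarith only [T0])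
    (by push_cast; linarith only [T1]) (by push_cast; linarith only [y0]) (by push_cast; linarith only [y1])
    (by push_cast; linarith only [q0]) (by push_cast; linarith only [q1])
  rw [List.mem_singleton] at he
  subst he
  exact fin1 (by rw [qvA]; norm_num) (by rw [qvA]; norm_num) dl_val h

theorem a_A1g (x0 : 5000 / 10000 ≤ x) (x1 : x ≤ 5800 / 10000) (T0 : 210 / 10000 ≤ T)
    (T1 : T ≤ 894 / 10000) (y0 : 0 ≤ y) (y1 : y ≤ 8600 / 10000)
    (S1 : S ≤ 49 / 1000) (S2 : T + S ≤ 111 / 1000) (S0 : -(160 / 1000) ≤ S) :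
    GA x T (25 / 100) (1) (pL x T) ⟨y, S * τ1 y⟩ := by
  have q0 := p1_nn S1 S2
  have q1 := p1_le (T := T) S0
  obtain ⟨e, he, h⟩ := chkD4 r_A1g (by norm_num) (x := x) (y := T) (z := y) (w := p1 T S)
    (by push_cast; linarith only [x0]) (by push_cast; linarith only [x1]) (by push_cast; linarith only [T0])
    (by push_cast; linarith only [T1]) (by push_cast; linarith only [y0]) (by push_cast; linarith only [y1])
    (by push_cast; linarith only [q0]) (by push_cast; linarith only [q1])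
  rw [List.mem_singleton] at he
  subst he
  exact fin1 (by rw [qvA]; norm_num) (by rw [qvA]; norm_num) dl_val h

theorem a_A1h (x0 : 5800 / 10000 ≤ x) (x1 : x ≤ 6500 / 10000) (T0 : 210 / 10000 ≤ T)
    (T1 : T ≤ 894 / 10000) (y0 : 0 ≤ y) (y1 : y ≤ 8600 / 10000)
    (S1 : S ≤ 49 / 1000) (S2 : T + S ≤ 111 / 1000) (S0 : -(160 / 1000) ≤ S) :
    GA x T (32 / 100) (1) (pH x T) ⟨y, S * τ1 y⟩ := by
  have q0 := p1_nn S1 S2
  have q1 := p1_le (T := T) S0
  obtain ⟨e, he, h⟩ := chkD4 r_A1h (by norm_num) (x := x) (y := T) (z := y) (w := p1 T S)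
    (by push_cast; linarith only [x0]) (by push_cast; linarith only [x1]) (by push_cast; linarith only [T0])
    (by push_cast; linarith only [T1]) (by push_cast; linarith only [y0]) (by push_cast; linarith only [y1])
    (by push_cast; linarith only [q0]) (by push_cast; linarith only [q1])
  rw [List.mem_singleton] at he
  subst he
  exact fin1 (by rw [qvA]; norm_num) (by rw [qvA]; norm_num) dh_val h

theorem a_A1m (x0 : 1300 / 10000 ≤ x) (x1 : x ≤ 1500 / 10000) (T0 : 210 / 10000 ≤ T)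
    (T1 : T ≤ 801 / 10000) (y0 : 0 ≤ y) (y1 : y ≤ 8600 / 10000)
    (S1 : S ≤ 49 / 1000) (S2 : T + S ≤ 111 / 1000) (S0 : -(160 / 1000) ≤ S) :
    GA x T (15 / 100) (1) (pM x T) ⟨y, S * τ1 y⟩ := by
  have q0 := p1_nn S1 S2
  have q1 := p1_le (T := T) S0
  obtain ⟨e, he, h⟩ := chkD4 r_A1m (by norm_num) (x := x) (y := T) (z := y) (w := p1 T S)
    (by push_cast; linarith only [x0]) (by push_cast; linarith only [x1]) (by push_cast; linarith only [T0])
    (by push_cast; linarith only [T1]) (by push_cast; linarith only [y0]) (by push_cast; linarith only [y1])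
    (by push_cast; linarith only [q0]) (by push_cast; linarith only [q1])
  rw [List.mem_singleton] at he
  subst he
  exact fin1 (by rw [qvA]; norm_num) (by rw [qvA]; norm_num) dm_val h

theorem a_A1k (x0 : 5800 / 10000 ≤ x) (x1 : x ≤ 6200 / 10000) (T0 : 210 / 10000 ≤ T)
    (T1 : T ≤ 801 / 10000) (y0 : 0 ≤ y) (y1 : y ≤ 8600 / 10000)
    (S1 : S ≤ 49 / 1000) (S2 : T + S ≤ 111 / 1000) (S0 : -(160 / 1000) ≤ S) :
    GA x T (25 / 100) (1) (pL x T) ⟨y, S * τ1 y⟩ := by
  have q0 := p1_nn S1 S2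
  have q1 := p1_le (T := T) S0
  obtain ⟨e, he, h⟩ := chkD4 r_A1k (by norm_num) (x := x) (y := T) (z := y) (w := p1 T S)
    (by push_cast; linarith only [x0]) (by push_cast; linarith only [x1]) (by push_cast; linarith only [T0])
    (by push_cast; linarith only [T1]) (by push_cast; linarith only [y0]) (by push_cast; linarith only [y1])
    (by push_cast; linarith only [q0]) (by push_cast; linarith only [q1])
  rw [List.mem_singleton] at he
  subst he
  exact fin1 (by rw [qvA]; norm_num) (by rw [qvA]; norm_num) dl_val h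

theorem a_A1j (x0 : 6200 / 10000 ≤ x) (x1 : x ≤ 6500 / 10000) (T0 : 210 / 10000 ≤ T)
    (T1 : T ≤ 801 / 10000) (y0 : 0 ≤ y) (y1 : y ≤ 8600 / 10000)
    (S1 : S ≤ 49 / 1000) (S2 : T + S ≤ 111 / 1000) (S0 : -(160 / 1000) ≤ S) :
    GA x T (30 / 100) (1) (pJ x T) ⟨y, S * τ1 y⟩ := by
  have q0 := p1_nn S1 S2
  have q1 := p1_le (T := T) S0
  obtain ⟨e, he, h⟩ := chkD4 r_A1j (by norm_num) (x := x) (y := T) (z := y) (w := p1 T S)
    (by push_cast; linarith only [x0]) (by push_cast; linarith only [x1]) (by push_cast; linarith only [T0])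
    (by push_cast; linarith only [T1]) (by push_cast; linarith only [y0]) (by push_cast; linarith only [y1])
    (by push_cast; linarith only [q0]) (by push_cast; linarith only [q1])
  rw [List.mem_singleton] at he
  subst he
  exact fin1 (by rw [qvA]; norm_num) (by rw [qvA]; norm_num) dj_val h

theorem a_A2a (x0 : 0 / 10000 ≤ x) (x1 : x ≤ 700 / 10000) (T0 : 460 / 10000 ≤ T)
    (T1 : T ≤ 894 / 10000) (y0 : 0 ≤ y) (y1 : y ≤ 8000 / 10000)
    (S1 : S ≤ 77 / 1000) (S2 : T + S ≤ 148 / 1000) (S0 : 10 / 1000 ≤ S) :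
    GA x T (8 / 100) (8 / 15) (pL x T) ⟨y, S * τ2 y⟩ := by
  have q0 := p2_nn S1 S2
  have q1 := p2_le (T := T) S0
  obtain ⟨e, he, h⟩ := chkD4 r_A2a (by norm_num) (x := x) (y := T) (z := y) (w := p2 T S)
    (by push_cast; linarith only [x0]) (by push_cast; linarith only [x1]) (by push_cast; linarith only [T0])
    (by push_cast; linarith only [T1]) (by push_cast; linarith only [y0]) (by push_cast; linarith only [y1])
    (by push_cast; linarith only [q0]) (by push_cast; linarith only [q1])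
  rw [List.mem_singleton] at he
  subst he
  exact fin2 (by rw [qvA]; norm_num) (by rw [qvA]; norm_num) dl_val h

theorem a_A2b (x0 : 700 / 10000 ≤ x) (x1 : x ≤ 850 / 10000) (T0 : 460 / 10000 ≤ T)
    (T1 : T ≤ 894 / 10000) (y0 : 0 ≤ y) (y1 : y ≤ 8000 / 10000)
    (S1 : S ≤ 77 / 1000) (S2 : T + S ≤ 148 / 1000) (S0 : 10 / 1000 ≤ S) :
    GA x T (9 / 100) (3 / 5) (pL x T) ⟨y, S * τ2 y⟩ := by
  have q0 := p2_nn S1 S2
  have q1 := p2_le (T := T) S0
  obtain ⟨e, he, h⟩ := chkD4 r_A2b (by norm_num) (x := x) (y := T) (z := y) (w := p2 T S)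
    (by push_cast; linarith only [x0]) (by push_cast; linarith only [x1]) (by push_cast; linarith only [T0])
    (by push_cast; linarith only [T1]) (by push_cast; linarith only [y0]) (by push_cast; linarith only [y1])
    (by push_cast; linarith only [q0]) (by push_cast; linarith only [q1])
  rw [List.mem_singleton] at he
  subst he
  exact fin2 (by rw [qvA]; norm_num) (by rw [qvA]; norm_num) dl_val h

theorem a_A2c (x0 : 850 / 10000 ≤ x) (x1 : x ≤ 1300 / 10000) (T0 : 460 / 10000 ≤ T)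
    (T1 : T ≤ 894 / 10000) (y0 : 0 ≤ y) (y1 : y ≤ 8000 / 10000)
    (S1 : S ≤ 77 / 1000) (S2 : T + S ≤ 148 / 1000) (S0 : 10 / 1000 ≤ S) :
    GA x T (10 / 100) (2 / 3) (pL x T) ⟨y, S * τ2 y⟩ := by
  have q0 := p2_nn S1 S2
  have q1 := p2_le (T := T) S0
  obtain ⟨e, he, h⟩ := chkD4 r_A2c (by norm_num) (x := x) (y := T) (z := y) (w := p2 T S)
    (by push_cast; linarith only [x0]) (by push_cast; linarith only [x1]) (by push_cast; linarith only [T0])
    (by push_cast; linarith only [T1]) (by push_cast; linarith only [y0]) (by push_cast; linarith only [y1])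
    (by push_cast; linarith only [q0]) (by push_cast; linarith only [q1])
  rw [List.mem_singleton] at he
  subst he
  exact fin2 (by rw [qvA]; norm_num) (by rw [qvA]; norm_num) dl_val h

theorem a_A2d (x0 : 1300 / 10000 ≤ x) (x1 : x ≤ 1500 / 10000) (T0 : 460 / 10000 ≤ T)
    (T1 : T ≤ 894 / 10000) (y0 : 0 ≤ y) (y1 : y ≤ 8000 / 10000)
    (S1 : S ≤ 77 / 1000) (S2 : T + S ≤ 148 / 1000) (S0 : 10 / 1000 ≤ S) :
    GA x T (125 / 1000) (5 / 6) (pL x T) ⟨y, S * τ2 y⟩ := by
  have q0 := p2_nn S1 S2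
  have q1 := p2_le (T := T) S0
  obtain ⟨e, he, h⟩ := chkD4 r_A2d (by norm_num) (x := x) (y := T) (z := y) (w := p2 T S)
    (by push_cast; linarith only [x0]) (by push_cast; linarith only [x1]) (by push_cast; linarith only [T0])
    (by push_cast; linarith only [T1]) (by push_cast; linarith only [y0]) (by push_cast; linarith only [y1])
    (by push_cast; linarith only [q0]) (by push_cast; linarith only [q1])
  rw [List.mem_singleton] at he
  subst he
  exact fin2 (by rw [qvA]; norm_num) (by rw [qvA]; norm_num) dl_val h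

theorem a_A2e (x0 : 1500 / 10000 ≤ x) (x1 : x ≤ 2000 / 10000) (T0 : 460 / 10000 ≤ T)
    (T1 : T ≤ 894 / 10000) (y0 : 0 ≤ y) (y1 : y ≤ 8000 / 10000)
    (S1 : S ≤ 77 / 1000) (S2 : T + S ≤ 148 / 1000) (S0 : 10 / 1000 ≤ S) :
    GA x T (15 / 100) (1) (pL x T) ⟨y, S * τ2 y⟩ := by
  have q0 := p2_nn S1 S2
  have q1 := p2_le (T := T) S0
  obtain ⟨e, he, h⟩ := chkD4 r_A2e (by norm_num) (x := x) (y := T) (z := y) (w := p2 T S)
    (by push_cast; linarith only [x0]) (by push_cast; linarith only [x1]) (by push_cast; linarith only [T0])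
    (by push_cast; linarith only [T1]) (by push_cast; linarith only [y0]) (by push_cast; linarith only [y1])
    (by push_cast; linarith only [q0]) (by push_cast; linarith only [q1])
  rw [List.mem_singleton] at he
  subst he
  exact fin2 (by rw [qvA]; norm_num) (by rw [qvA]; norm_num) dl_val h

theorem a_A2f (x0 : 2000 / 10000 ≤ x) (x1 : x ≤ 5000 / 10000) (T0 : 460 / 10000 ≤ T)
    (T1 : T ≤ 894 / 10000) (y0 : 0 ≤ y) (y1 : y ≤ 8000 / 10000)
    (S1 : S ≤ 77 / 1000) (S2 : T + S ≤ 148 / 1000) (S0 : 10 / 1000 ≤ S) :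
    GA x T (20 / 100) (1) (pL x T) ⟨y, S * τ2 y⟩ := by
  have q0 := p2_nn S1 S2
  have q1 := p2_le (T := T) S0
  obtain ⟨e, he, h⟩ := chkD4 r_A2f (by norm_num) (x := x) (y := T) (z := y) (w := p2 T S)
    (by push_cast; linarith only [x0]) (by push_cast; linarith only [x1]) (by push_cast; linarith only [T0])
    (by push_cast; linarith only [T1]) (by push_cast; linarith only [y0]) (by push_cast; linarith only [y1])
    (by push_cast; linarith only [q0]) (by push_cast; linarith only [q1])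
  rw [List.mem_singleton] at he
  subst he
  exact fin2 (by rw [qvA]; norm_num) (by rw [qvA]; norm_num) dl_val h

theorem a_A2g (x0 : 5000 / 10000 ≤ x) (x1 : x ≤ 5800 / 10000) (T0 : 460 / 10000 ≤ T)
    (T1 : T ≤ 894 / 10000) (y0 : 0 ≤ y) (y1 : y ≤ 8000 / 10000)
    (S1 : S ≤ 77 / 1000) (S2 : T + S ≤ 148 / 1000) (S0 : 10 / 1000 ≤ S) :
    GA x T (25 / 100) (1) (pL x T) ⟨y, S * τ2 y⟩ := by
  have q0 := p2_nn S1 S2
  have q1 := p2_le (T := T) S0
  obtain ⟨e, he, h⟩ := chkD4 r_A2g (by norm_num) (x := x) (y := T) (z := y) (w := p2 T S)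
    (by push_cast; linarith only [x0]) (by push_cast; linarith only [x1]) (by push_cast; linarith only [T0])
    (by push_cast; linarith only [T1]) (by push_cast; linarith only [y0]) (by push_cast; linarith only [y1])
    (by push_cast; linarith only [q0]) (by push_cast; linarith only [q1])
  rw [List.mem_singleton] at he
  subst he
  exact fin2 (by rw [qvA]; norm_num) (by rw [qvA]; norm_num) dl_val h

theorem a_A2h (x0 : 5800 / 10000 ≤ x) (x1 : x ≤ 6500 / 10000) (T0 : 460 / 10000 ≤ T)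
    (T1 : T ≤ 894 / 10000) (y0 : 0 ≤ y) (y1 : y ≤ 8000 / 10000)
    (S1 : S ≤ 77 / 1000) (S2 : T + S ≤ 148 / 1000) (S0 : 10 / 1000 ≤ S) :
    GA x T (32 / 100) (1) (pH x T) ⟨y, S * τ2 y⟩ := by
  have q0 := p2_nn S1 S2
  have q1 := p2_le (T := T) S0
  obtain ⟨e, he, h⟩ := chkD4 r_A2h (by norm_num) (x := x) (y := T) (z := y) (w := p2 T S)
    (by push_cast; linarith only [x0]) (by push_cast; linarith only [x1]) (by push_cast; linarith only [T0])
    (by push_cast; linarith only [T1]) (by push_cast; linarith only [y0]) (by push_cast; linarith only [y1])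
    (by push_cast; linarith only [q0]) (by push_cast; linarith only [q1])
  rw [List.mem_singleton] at he
  subst he
  exact fin2 (by rw [qvA]; norm_num) (by rw [qvA]; norm_num) dh_val h

theorem a_AEa (x0 : 0 / 10000 ≤ x) (x1 : x ≤ 700 / 10000) (T0 : 870 / 10000 ≤ T)
    (T1 : T ≤ 1145 / 10000) (y0 : 0 ≤ y) (y1 : y ≤ 7000 / 10000)
    (S1 : S ≤ -(25 / 1000)) (S2 : T + S ≤ 77 / 1000) (S0 : -(45 / 1000) ≤ S) :
    GA x T (8 / 100) (8 / 15) (-(70 / 1000)) ⟨y, S * τe y⟩ ∨ GE x T (8 / 100) (8 / 15) y S := by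
  have q0 := pe_nn S1 S2
  have q1 := pe_le (T := T) S0
  obtain ⟨e, he, h⟩ := chkD4 r_AEa (by norm_num) (x := x) (y := T) (z := y) (w := pe T S)
    (by push_cast; linarith only [x0]) (by push_cast; linarith only [x1]) (by push_cast; linarith only [T0])
    (by push_cast; linarith only [T1]) (by push_cast; linarith only [y0]) (by push_cast; linarith only [y1])
    (by push_cast; linarith only [q0]) (by push_cast; linarith only [q1])
  simp only [List.mem_cons, List.not_mem_nil, or_false] at he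
  rcases he with rfl | rfl
  · exact finE (by rw [qvA]; norm_num) (by rw [qvA]; norm_num) (Or.inl h)
  · exact finE (by rw [qvA]; norm_num) (by rw [qvA]; norm_num) (Or.inr h)

theorem a_AEb (x0 : 700 / 10000 ≤ x) (x1 : x ≤ 850 / 10000) (T0 : 870 / 10000 ≤ T)
    (T1 : T ≤ 1145 / 10000) (y0 : 0 ≤ y) (y1 : y ≤ 7000 / 10000)
    (S1 : S ≤ -(25 / 1000)) (S2 : T + S ≤ 77 / 1000) (S0 : -(45 / 1000) ≤ S) :
    GA x T (9 / 100) (3 / 5) (-(70 / 1000)) ⟨y, S * τe y⟩ ∨ GE x T (9 / 100) (3 / 5) y S := by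
  have q0 := pe_nn S1 S2
  have q1 := pe_le (T := T) S0
  obtain ⟨e, he, h⟩ := chkD4 r_AEb (by norm_num) (x := x) (y := T) (z := y) (w := pe T S)
    (by push_cast; linarith only [x0]) (by push_cast; linarith only [x1]) (by push_cast; linarith only [T0])
    (by push_cast; linarith only [T1]) (by push_cast; linarith only [y0]) (by push_cast; linarith only [y1])
    (by push_cast; linarith only [q0]) (by push_cast; linarith only [q1])
  simp only [List.mem_cons, List.not_mem_nil, or_false] at he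
  rcases he with rfl | rfl
  · exact finE (by rw [qvA]; norm_num) (by rw [qvA]; norm_num) (Or.inl h)
  · exact finE (by rw [qvA]; norm_num) (by rw [qvA]; norm_num) (Or.inr h)

theorem a_AEc (x0 : 850 / 10000 ≤ x) (x1 : x ≤ 1300 / 10000) (T0 : 870 / 10000 ≤ T)
    (T1 : T ≤ 1145 / 10000) (y0 : 0 ≤ y) (y1 : y ≤ 7000 / 10000)
    (S1 : S ≤ -(25 / 1000)) (S2 : T + S ≤ 77 / 1000) (S0 : -(45 / 1000) ≤ S) :
    GA x T (10 / 100) (2 / 3) (-(70 / 1000)) ⟨y, S * τe y⟩ ∨ GE x T (10 / 100) (2 / 3) y S := by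
  have q0 := pe_nn S1 S2
  have q1 := pe_le (T := T) S0
  obtain ⟨e, he, h⟩ := chkD4 r_AEc (by norm_num) (x := x) (y := T) (z := y) (w := pe T S)
    (by push_cast; linarith only [x0]) (by push_cast; linarith only [x1]) (by push_cast; linarith only [T0])
    (by push_cast; linarith only [T1]) (by push_cast; linarith only [y0]) (by push_cast; linarith only [y1])
    (by push_cast; linarith only [q0]) (by push_cast; linarith only [q1])
  simp only [List.mem_cons, List.not_mem_nil, or_false] at he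
  rcases he with rfl | rfl
  · exact finE (by rw [qvA]; norm_num) (by rw [qvA]; norm_num) (Or.inl h)
  · exact finE (by rw [qvA]; norm_num) (by rw [qvA]; norm_num) (Or.inr h)

theorem a_AEd (x0 : 1300 / 10000 ≤ x) (x1 : x ≤ 1500 / 10000) (T0 : 870 / 10000 ≤ T)
    (T1 : T ≤ 1145 / 10000) (y0 : 0 ≤ y) (y1 : y ≤ 7000 / 10000)
    (S1 : S ≤ -(25 / 1000)) (S2 : T + S ≤ 77 / 1000) (S0 : -(45 / 1000) ≤ S) :
    GA x T (125 / 1000) (5 / 6) (-(70 / 1000)) ⟨y, S * τe y⟩ ∨ GE x T (125 / 1000) (5 / 6) y S := by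
  have q0 := pe_nn S1 S2
  have q1 := pe_le (T := T) S0
  obtain ⟨e, he, h⟩ := chkD4 r_AEd (by norm_num) (x := x) (y := T) (z := y) (w := pe T S)
    (by push_cast; linarith only [x0]) (by push_cast; linarith only [x1]) (by push_cast; linarith only [T0])
    (by push_cast; linarith only [T1]) (by push_cast; linarith only [y0]) (by push_cast; linarith only [y1])
    (by push_cast; linarith only [q0]) (by push_cast; linarith only [q1])
  simp only [List.mem_cons, List.not_mem_nil, or_false] at he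
  rcases he with rfl | rfl
  · exact finE (by rw [qvA]; norm_num) (by rw [qvA]; norm_num) (Or.inl h)
  · exact finE (by rw [qvA]; norm_num) (by rw [qvA]; norm_num) (Or.inr h)

theorem a_AEe (x0 : 1500 / 10000 ≤ x) (x1 : x ≤ 2000 / 10000) (T0 : 870 / 10000 ≤ T)
    (T1 : T ≤ 1145 / 10000) (y0 : 0 ≤ y) (y1 : y ≤ 7000 / 10000)
    (S1 : S ≤ -(25 / 1000)) (S2 : T + S ≤ 77 / 1000) (S0 : -(45 / 1000) ≤ S) :
    GA x T (15 / 100) (1) (-(70 / 1000)) ⟨y, S * τe y⟩ ∨ GE x T (15 / 100) (1) y S := by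
  have q0 := pe_nn S1 S2
  have q1 := pe_le (T := T) S0
  obtain ⟨e, he, h⟩ := chkD4 r_AEe (by norm_num) (x := x) (y := T) (z := y) (w := pe T S)
    (by push_cast; linarith only [x0]) (by push_cast; linarith only [x1]) (by push_cast; linarith only [T0])
    (by push_cast; linarith only [T1]) (by push_cast; linarith only [y0]) (by push_cast; linarith only [y1])
    (by push_cast; linarith only [q0]) (by push_cast; linarith only [q1])
  simp only [List.mem_cons, List.not_mem_nil, or_false] at he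
  rcases he with rfl | rfl
  · exact finE (by rw [qvA]; norm_num) (by rw [qvA]; norm_num) (Or.inl h)
  · exact finE (by rw [qvA]; norm_num) (by rw [qvA]; norm_num) (Or.inr h)

theorem a_AEf (x0 : 2000 / 10000 ≤ x) (x1 : x ≤ 5000 / 10000) (T0 : 870 / 10000 ≤ T)
    (T1 : T ≤ 1145 / 10000) (y0 : 0 ≤ y) (y1 : y ≤ 7000 / 10000)
    (S1 : S ≤ -(25 / 1000)) (S2 : T + S ≤ 77 / 1000) (S0 : -(45 / 1000) ≤ S) :
    GA x T (20 / 100) (1) (-(70 / 1000)) ⟨y, S * τe y⟩ ∨ GE x T (20 / 100) (1) y S := by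
  have q0 := pe_nn S1 S2
  have q1 := pe_le (T := T) S0
  obtain ⟨e, he, h⟩ := chkD4 r_AEf (by norm_num) (x := x) (y := T) (z := y) (w := pe T S)
    (by push_cast; linarith only [x0]) (by push_cast; linarith only [x1]) (by push_cast; linarith only [T0])
    (by push_cast; linarith only [T1]) (by push_cast; linarith only [y0]) (by push_cast; linarith only [y1])
    (by push_cast; linarith only [q0]) (by push_cast; linarith only [q1])
  simp only [List.mem_cons, List.not_mem_nil, or_false] at he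
  rcases he with rfl | rfl
  · exact finE (by rw [qvA]; norm_num) (by rw [qvA]; norm_num) (Or.inl h)
  · exact finE (by rw [qvA]; norm_num) (by rw [qvA]; norm_num) (Or.inr h)

theorem a_AEg (x0 : 5000 / 10000 ≤ x) (x1 : x ≤ 5800 / 10000) (T0 : 870 / 10000 ≤ T)
    (T1 : T ≤ 1145 / 10000) (y0 : 0 ≤ y) (y1 : y ≤ 7000 / 10000)
    (S1 : S ≤ -(25 / 1000)) (S2 : T + S ≤ 77 / 1000) (S0 : -(45 / 1000) ≤ S) :
    GA x T (25 / 100) (1) (-(70 / 1000)) ⟨y, S * τe y⟩ ∨ GE x T (25 / 100) (1) y S := by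
  have q0 := pe_nn S1 S2
  have q1 := pe_le (T := T) S0
  obtain ⟨e, he, h⟩ := chkD4 r_AEg (by norm_num) (x := x) (y := T) (z := y) (w := pe T S)
    (by push_cast; linarith only [x0]) (by push_cast; linarith only [x1]) (by push_cast; linarith only [T0])
    (by push_cast; linarith only [T1]) (by push_cast; linarith only [y0]) (by push_cast; linarith only [y1])
    (by push_cast; linarith only [q0]) (by push_cast; linarith only [q1])
  simp only [List.mem_cons, List.not_mem_nil, or_false] at he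
  rcases he with rfl | rfl
  · exact finE (by rw [qvA]; norm_num) (by rw [qvA]; norm_num) (Or.inl h)
  · exact finE (by rw [qvA]; norm_num) (by rw [qvA]; norm_num) (Or.inr h)

theorem a_AEh (x0 : 5800 / 10000 ≤ x) (x1 : x ≤ 6500 / 10000) (T0 : 870 / 10000 ≤ T)
    (T1 : T ≤ 1145 / 10000) (y0 : 0 ≤ y) (y1 : y ≤ 7000 / 10000)
    (S1 : S ≤ -(25 / 1000)) (S2 : T + S ≤ 77 / 1000) (S0 : -(45 / 1000) ≤ S) :
    GA x T (32 / 100) (1) (-(70 / 1000)) ⟨y, S * τe y⟩ ∨ GE x T (32 / 100) (1) y S := by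
  have q0 := pe_nn S1 S2
  have q1 := pe_le (T := T) S0
  obtain ⟨e, he, h⟩ := chkD4 r_AEh (by norm_num) (x := x) (y := T) (z := y) (w := pe T S)
    (by push_cast; linarith only [x0]) (by push_cast; linarith only [x1]) (by push_cast; linarith only [T0])
    (by push_cast; linarith only [T1]) (by push_cast; linarith only [y0]) (by push_cast; linarith only [y1])
    (by push_cast; linarith only [q0]) (by push_cast; linarith only [q1])
  simp only [List.mem_cons, List.not_mem_nil, or_false] at he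
  rcases he with rfl | rfl
  · exact finE (by rw [qvA]; norm_num) (by rw [qvA]; norm_num) (Or.inl h)
  · exact finE (by rw [qvA]; norm_num) (by rw [qvA]; norm_num) (Or.inr h)

variable {c r δ : ℝ}

/-- the region behind the `1` is a `1` -/
theorem sideA1 (h : C1 x T c r δ) (T0 : 21 / 1000 ≤ T) (T1 : T ≤ 801 / 10000) (y0 : 0 ≤ y)
    (y1 : y ≤ 86 / 100) (S0 : -(160 / 1000) ≤ S) (S1 : S ≤ 49 / 1000) (S2 : T + S ≤ 111 / 1000) :
    GA x T c r δ ⟨y, S * τ1 y⟩ := by
  rcases h with ⟨h, rfl⟩ | h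
  · rcases h with ⟨x0, x1, rfl, rfl⟩ | ⟨x0, x1, rfl, rfl⟩ | ⟨x0, x1, rfl, rfl⟩ | ⟨x0, x1, rfl, rfl⟩ | ⟨x0, x1, rfl, rfl⟩ | ⟨x0, x1, rfl, rfl⟩
    · exact a_A1a (by linarith only [x0]) (by linarith only [x1]) (by linarith only [T0]) (by linarith only [T1]) y0 (by linarith only [y1]) S1 S2 S0
    · exact a_A1b (by linarith only [x0]) (by linarith only [x1]) (by linarith only [T0]) (by linarith only [T1]) y0 (by linarith only [y1]) S1 S2 S0
    · exact a_A1c (by linarith only [x0]) (by linarith only [x1]) (by linarith only [T0]) (by linarith only [T1]) y0 (by linarith only [y1]) S1 S2 S0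
    · exact a_A1e (by linarith only [x0]) (by linarith only [x1]) (by linarith only [T0]) (by linarith only [T1]) y0 (by linarith only [y1]) S1 S2 S0
    · exact a_A1f (by linarith only [x0]) (by linarith only [x1]) (by linarith only [T0]) (by linarith only [T1]) y0 (by linarith only [y1]) S1 S2 S0
    · exact a_A1g (by linarith only [x0]) (by linarith only [x1]) (by linarith only [T0]) (by linarith only [T1]) y0 (by linarith only [y1]) S1 S2 S0
  · rcases h with ⟨x0, x1, rfl, rfl, rfl⟩ | ⟨x0, x1, rfl, rfl, rfl⟩ | ⟨x0, x1, rfl, rfl, rfl⟩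
    · exact a_A1m (by linarith only [x0]) (by linarith only [x1]) (by linarith only [T0]) (by linarith only [T1]) y0 (by linarith only [y1]) S1 S2 S0
    · exact a_A1k (by linarith only [x0]) (by linarith only [x1]) (by linarith only [T0]) (by linarith only [T1]) y0 (by linarith only [y1]) S1 S2 S0
    · exact a_A1j (by linarith only [x0]) (by linarith only [x1]) (by linarith only [T0]) (by linarith only [T1]) y0 (by linarith only [y1]) S1 S2 S0

/-- the targets of a `2` at the heights of a `1` -/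
theorem sideA2r (h : C2 x T c r δ) (T0 : 21 / 1000 ≤ T) (T1 : T ≤ 894 / 10000) (y0 : 0 ≤ y)
    (y1 : y ≤ 86 / 100) (S0 : -(160 / 1000) ≤ S) (S1 : S ≤ 49 / 1000) (S2 : T + S ≤ 111 / 1000) :
    GA x T c r δ ⟨y, S * τ1 y⟩ := by
  rcases h with ⟨h, rfl⟩ | h
  · rcases h with ⟨x0, x1, rfl, rfl⟩ | ⟨x0, x1, rfl, rfl⟩ | ⟨x0, x1, rfl, rfl⟩ | ⟨x0, x1, rfl, rfl⟩ | ⟨x0, x1, rfl, rfl⟩ | ⟨x0, x1, rfl, rfl⟩
    · exact a_A1a (by linarith only [x0]) (by linarith only [x1]) (by linarith only [T0]) (by linarith only [T1]) y0 (by linarith only [y1]) S1 S2 S0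
    · exact a_A1b (by linarith only [x0]) (by linarith only [x1]) (by linarith only [T0]) (by linarith only [T1]) y0 (by linarith only [y1]) S1 S2 S0
    · exact a_A1c (by linarith only [x0]) (by linarith only [x1]) (by linarith only [T0]) (by linarith only [T1]) y0 (by linarith only [y1]) S1 S2 S0
    · exact a_A1e (by linarith only [x0]) (by linarith only [x1]) (by linarith only [T0]) (by linarith only [T1]) y0 (by linarith only [y1]) S1 S2 S0
    · exact a_A1f (by linarith only [x0]) (by linarith only [x1]) (by linarith only [T0]) (by linarith only [T1]) y0 (by linarith only [y1]) S1 S2 S0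
    · exact a_A1g (by linarith only [x0]) (by linarith only [x1]) (by linarith only [T0]) (by linarith only [T1]) y0 (by linarith only [y1]) S1 S2 S0
  · rcases h with ⟨x0, x1, rfl, rfl, rfl⟩ | ⟨x0, x1, rfl, rfl, rfl⟩
    · exact a_A1d (by linarith only [x0]) (by linarith only [x1]) (by linarith only [T0]) (by linarith only [T1]) y0 (by linarith only [y1]) S1 S2 S0
    · exact a_A1h (by linarith only [x0]) (by linarith only [x1]) (by linarith only [T0]) (by linarith only [T1]) y0 (by linarith only [y1]) S1 S2 S0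

/-- the region behind the `1` is a `2` -/
theorem sideA2 (h : C2 x T c r δ) (T0 : 46 / 1000 ≤ T) (T1 : T ≤ 894 / 10000) (y0 : 0 ≤ y)
    (y1 : y ≤ 80 / 100) (S0 : 10 / 1000 ≤ S) (S1 : S ≤ 77 / 1000) (S2 : T + S ≤ 148 / 1000) :
    GA x T c r δ ⟨y, S * τ2 y⟩ := by
  rcases h with ⟨h, rfl⟩ | h
  · rcases h with ⟨x0, x1, rfl, rfl⟩ | ⟨x0, x1, rfl, rfl⟩ | ⟨x0, x1, rfl, rfl⟩ | ⟨x0, x1, rfl, rfl⟩ | ⟨x0, x1, rfl, rfl⟩ | ⟨x0, x1, rfl, rfl⟩
    · exact a_A2a (by linarith only [x0]) (by linarith only [x1]) (by linarith only [T0]) (by linarith only [T1]) y0 (by linarith only [y1]) S1 S2 S0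
    · exact a_A2b (by linarith only [x0]) (by linarith only [x1]) (by linarith only [T0]) (by linarith only [T1]) y0 (by linarith only [y1]) S1 S2 S0
    · exact a_A2c (by linarith only [x0]) (by linarith only [x1]) (by linarith only [T0]) (by linarith only [T1]) y0 (by linarith only [y1]) S1 S2 S0
    · exact a_A2e (by linarith only [x0]) (by linarith only [x1]) (by linarith only [T0]) (by linarith only [T1]) y0 (by linarith only [y1]) S1 S2 S0
    · exact a_A2f (by linarith only [x0]) (by linarith only [x1]) (by linarith only [T0]) (by linarith only [T1]) y0 (by linarith only [y1]) S1 S2 S0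
    · exact a_A2g (by linarith only [x0]) (by linarith only [x1]) (by linarith only [T0]) (by linarith only [T1]) y0 (by linarith only [y1]) S1 S2 S0
  · rcases h with ⟨x0, x1, rfl, rfl, rfl⟩ | ⟨x0, x1, rfl, rfl, rfl⟩
    · exact a_A2d (by linarith only [x0]) (by linarith only [x1]) (by linarith only [T0]) (by linarith only [T1]) y0 (by linarith only [y1]) S1 S2 S0
    · exact a_A2h (by linarith only [x0]) (by linarith only [x1]) (by linarith only [T0]) (by linarith only [T1]) y0 (by linarith only [y1]) S1 S2 S0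

/-- the region behind the `1` is a `2` at an end -/
theorem sideAE' (h : CE x c r) (T0 : 87 / 1000 ≤ T) (T1 : T ≤ 1145 / 10000) (y0 : 0 ≤ y)
    (y1 : y ≤ 70 / 100) (S0 : -(45 / 1000) ≤ S) (S1 : S ≤ -(25 / 1000)) (S2 : T + S ≤ 77 / 1000) :
    GA x T c r (-(70 / 1000)) ⟨y, S * τe y⟩ ∨ GE x T c r y S := by
  rcases h with h | h
  · rcases h with ⟨x0, x1, rfl, rfl⟩ | ⟨x0, x1, rfl, rfl⟩ | ⟨x0, x1, rfl, rfl⟩ | ⟨x0, x1, rfl, rfl⟩ | ⟨x0, x1, rfl, rfl⟩ | ⟨x0, x1, rfl, rfl⟩
    · exact a_AEa (by linarith only [x0]) (by linarith only [x1]) (by linarith only [T0]) (by linarith only [T1]) y0 (by linarith only [y1]) S1 S2 S0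
    · exact a_AEb (by linarith only [x0]) (by linarith only [x1]) (by linarith only [T0]) (by linarith only [T1]) y0 (by linarith only [y1]) S1 S2 S0
    · exact a_AEc (by linarith only [x0]) (by linarith only [x1]) (by linarith only [T0]) (by linarith only [T1]) y0 (by linarith only [y1]) S1 S2 S0
    · exact a_AEe (by linarith only [x0]) (by linarith only [x1]) (by linarith only [T0]) (by linarith only [T1]) y0 (by linarith only [y1]) S1 S2 S0
    · exact a_AEf (by linarith only [x0]) (by linarith only [x1]) (by linarith only [T0]) (by linarith only [T1]) y0 (by linarith only [y1]) S1 S2 S0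
    · exact a_AEg (by linarith only [x0]) (by linarith only [x1]) (by linarith only [T0]) (by linarith only [T1]) y0 (by linarith only [y1]) S1 S2 S0
  · rcases h with ⟨x0, x1, rfl, rfl⟩ | ⟨x0, x1, rfl, rfl⟩
    · exact a_AEd (by linarith only [x0]) (by linarith only [x1]) (by linarith only [T0]) (by linarith only [T1]) y0 (by linarith only [y1]) S1 S2 S0
    · exact a_AEh (by linarith only [x0]) (by linarith only [x1]) (by linarith only [T0]) (by linarith only [T1]) y0 (by linarith only [y1]) S1 S2 S0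

/-- the same, the value written out -/
theorem sideAE (h : CE x c r) (T0 : 87 / 1000 ≤ T) (T1 : T ≤ 1145 / 10000) (y0 : 0 ≤ y)
    (y1 : y ≤ 70 / 100) (S0 : -(45 / 1000) ≤ S) (S1 : S ≤ -(25 / 1000)) (S2 : T + S ≤ 77 / 1000) :
    GA x T c r (-(70 / 1000)) ⟨y, S * τe y⟩ ∨
      -(Real.pi * (r * T + hx x) - 70 / 1000) < V1 ⟨c, r * T⟩ ⟨1 / 4, S⟩ -
        V1 ⟨x, -hx x⟩ ⟨y, S * τe y⟩ + (V2 ⟨1 / 4, -S⟩ 0 - V2 ⟨y, -(S * τe y)⟩ 0) :=
  sideAE' h T0 T1 y0 y1 S0 S1 S2

end Pool.Agent.Work.MP_b30479_gt.G2.K3b
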