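import Pool.Agent.Work.MP_b30479_gt.G2.WM_2_3aR1
import Pool.Agent.Work.MP_b30479_gt.G2.WM_2_3aR2
import Pool.Agent.Work.MP_b30479_gt.G2.WM_2_3aR3
import Pool.Agent.Work.MP_b30479_gt.G2.WM_2_3aR4

/-!
# The kind `2 | 3` (the `3` at its slot `0`): the inequalities
-/

namespace Pool.Agent.Work.MP_b30479_gt.G2

open Finset VOL Filter Topology

namespace K23

open NumG

variable {x T y w θ f s : ℝ} {W u l c' : ℂ}

/-! ### the response of the inner variable -/

theorem par_w (w2 : |W.im| ≤ 16 / 100 * τw W.re) : ∃ θ : ℝ, -1 ≤ θ ∧ θ ≤ 1 ∧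
    W = ⟨W.re, θ * (16 / 100 * τw W.re)⟩ := by
  obtain ⟨θ, h1, h2, h3⟩ := KE.par_abs w2
  exact ⟨θ, h1, h2, Complex.ext rfl h3⟩

/-- inner variable on the main path -/
theorem far_m (y0 : 0 ≤ y) (y1 : y ≤ 3 / 10) (T0 : -(89 / 1000) ≤ T) (T1 : T ≤ -(13 / 1000))
    (w0 : 0 ≤ W.re) (w1 : W.re ≤ 65 / 100) (w2 : |W.im| ≤ 16 / 100 * τw W.re) :
    sM y T < V2 ⟨3 / 10, T⟩ W - V2 ⟨y, T * τl y⟩ W := by
  obtain ⟨θ, t0, t1, e⟩ := par_w w2
  have key : 0 < (psE (.mul (.var 1) (t8 0)) (psM (.var 0) (.var 1))).val [y, T, W.re, θ] := by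
    rcases le_total y (12 / 1000) with h | h
    · rcases dk2 r_psMa (by norm_num) (x := y) (y := T) (z := W.re) (w := θ)
        (by constructor <;> push_cast <;> linarith only [y0, h]) (by constructor <;> push_cast <;> linarith only [T0, T1])
        (by constructor <;> push_cast <;> linarith only [w0, w1]) (by constructor <;> push_cast <;> linarith only [t0, t1])
        with h1 | h1
      · exact h1
      · exact h1
    rcases le_total y (25 / 1000) with h | h
    · rcases dk2 r_psMb (by norm_num) (x := y) (y := T) (z := W.re) (w := θ)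
        (by constructor <;> push_cast <;> linarith) (by constructor <;> push_cast <;> linarith only [T0, T1])
        (by constructor <;> push_cast <;> linarith only [w0, w1]) (by constructor <;> push_cast <;> linarith only [t0, t1])
        with h1 | h1
      · exact h1
      · exact h1
    rcases le_total y (50 / 1000) with h | h
    · rcases dk2 r_psMc (by norm_num) (x := y) (y := T) (z := W.re) (w := θ)
        (by constructor <;> push_cast <;> linarith) (by constructor <;> push_cast <;> linarith only [T0, T1])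
        (by constructor <;> push_cast <;> linarith only [w0, w1]) (by constructor <;> push_cast <;> linarith only [t0, t1])
        with h1 | h1
      · exact h1
      · exact h1
    rcases le_total y (100 / 1000) with h | h
    · rcases dk2 r_psMd (by norm_num) (x := y) (y := T) (z := W.re) (w := θ)
        (by constructor <;> push_cast <;> linarith) (by constructor <;> push_cast <;> linarith only [T0, T1])
        (by constructor <;> push_cast <;> linarith only [w0, w1]) (by constructor <;> push_cast <;> linarith only [t0, t1])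
        with h1 | h1
      · exact h1
      · exact h1
    rcases le_total y (150 / 1000) with h | h
    · rcases dk2 r_psMe (by norm_num) (x := y) (y := T) (z := W.re) (w := θ)
        (by constructor <;> push_cast <;> linarith) (by constructor <;> push_cast <;> linarith only [T0, T1])
        (by constructor <;> push_cast <;> linarith only [w0, w1]) (by constructor <;> push_cast <;> linarith only [t0, t1])
        with h1 | h1
      · exact h1
      · exact h1
    rcases dk2 r_psMf (by norm_num) (x := y) (y := T) (z := W.re) (w := θ)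
      (by constructor <;> push_cast <;> linarith only [h, y1]) (by constructor <;> push_cast <;> linarith only [T0, T1])
      (by constructor <;> push_cast <;> linarith only [w0, w1]) (by constructor <;> push_cast <;> linarith only [t0, t1])
      with h1 | h1
    · exact h1
    · exact h1
  rw [psE_val, sM_val0, E.val, e1_val, t80_val, ← e] at key
  linarith only [key]

/-- inner variable on the upper mirrored path -/
theorem far_u (y0 : 0 ≤ y) (y1 : y ≤ 8 / 10) (T0 : -(89 / 1000) ≤ T) (T1 : T ≤ -(13 / 1000))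
    (w0 : 0 ≤ W.re) (w1 : W.re ≤ 65 / 100) (w2 : |W.im| ≤ 16 / 100 * τw W.re) :
    sU y T < V2 ⟨3 / 10, T⟩ W - V2 ⟨y, 16 / 100 * τl y⟩ W +
      2 * Real.pi * (16 / 100 * τl y) := by
  obtain ⟨θ, t0, t1, e⟩ := par_w w2
  have key : 0 < (D.of (.add (psE (.mul (.q 4 25) (t8 0)) (psU (.var 0) (.var 1)))
      (.mul (.mul (.q 2 1) .pi) (.mul (.q 4 25) (t8 0))))).val [y, T, W.re, θ] := by
    rcases le_total y (50 / 1000) with h | h
    · exact dk1 r_psUa (by norm_num) (by constructor <;> push_cast <;> linarith only [y0, h])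
        (by constructor <;> push_cast <;> linarith only [T0, T1]) (by constructor <;> push_cast <;> linarith only [w0, w1])
        (by constructor <;> push_cast <;> linarith only [t0, t1])
    rcases le_total y (300 / 1000) with h | h
    · exact dk1 r_psUb (by norm_num) (by constructor <;> push_cast <;> linarith)
        (by constructor <;> push_cast <;> linarith only [T0, T1]) (by constructor <;> push_cast <;> linarith only [w0, w1])
        (by constructor <;> push_cast <;> linarith only [t0, t1])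
    rcases le_total y (600 / 1000) with h | h
    · exact dk1 r_psUc (by norm_num) (by constructor <;> push_cast <;> linarith)
        (by constructor <;> push_cast <;> linarith only [T0, T1]) (by constructor <;> push_cast <;> linarith only [w0, w1])
        (by constructor <;> push_cast <;> linarith only [t0, t1])
    rcases le_total y (750 / 1000) with h | h
    · exact dk1 r_psUd (by norm_num) (by constructor <;> push_cast <;> linarith)
        (by constructor <;> push_cast <;> linarith only [T0, T1]) (by constructor <;> push_cast <;> linarith only [w0, w1])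
        (by constructor <;> push_cast <;> linarith only [t0, t1])
    exact dk1 r_psUe (by norm_num) (by constructor <;> push_cast <;> linarith only [h, y1])
      (by constructor <;> push_cast <;> linarith only [T0, T1]) (by constructor <;> push_cast <;> linarith only [w0, w1])
      (by constructor <;> push_cast <;> linarith only [t0, t1])
  have e2 : (E.mul (.q 4 25) (t8 0)).val [y, T, W.re, θ] = 16 / 100 * τl y := by
    rw [E.val, t80_val]
    norm_num [E.val]
  have e3 : (E.mul (.mul (.q 2 1) .pi) (.mul (.q 4 25) (t8 0))).val [y, T, W.re, θ] =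
      2 * Real.pi * (16 / 100 * τl y) := by
    rw [E.val, e2]
    norm_num [E.val]
  rw [D.val, E.val, psE_val, sU_val0, e2, e3, ← e] at key
  linarith only [key]

/-! ### gains of the `3` -/

/-- the gain of the `3` is greater than `f`: the inner variable is kept or moved to `3/10` -/
def Gn (c' u l : ℂ) (T s f : ℝ) : Prop :=
  f < KE.VA c' l - KE.VA u l ∨ f < KE.VF c' ⟨3 / 10, T⟩ - KE.VF u l + s

/-- first half of the path, inner variable on the main path -/
theorem p0_m (x0 : 0 ≤ x) (x1 : x ≤ 2 / 5) (T0 : 0 ≤ T) (T1 : T ≤ 53 / 1000) (y0 : 0 ≤ y)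
    (y1 : y ≤ 8 / 10) (w0 : -(89 / 1000) ≤ w) (w1 : w ≤ -(13 / 1000)) :
    f0 x T < KE.VA ⟨1 / 5, -T⟩ ⟨y, w * τl y⟩ - KE.VA ⟨x, 3 / 10 * τh x⟩ ⟨y, w * τl y⟩ ∨
    (y ≤ 3 / 10 ∧ f0 x T < KE.VF ⟨1 / 5, -T⟩ ⟨3 / 10, w⟩ -
      KE.VF ⟨x, 3 / 10 * τh x⟩ ⟨y, w * τl y⟩ + sM y w) := by
  have e1 : (E.q 1 5).val [x, T, y, w] = 1 / 5 := by norm_num [E.val]
  have e2 : (E.neg (.var 1)).val [x, T, y, w] = -T := rfl
  rcases le_total y (3 / 10) with h | h
  · rcases dk2 r_p0m (by norm_num) (x := x) (y := T) (z := y) (w := w)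
      (by constructor <;> push_cast <;> linarith only [x0, x1]) (by constructor <;> push_cast <;> linarith only [T0, T1])
      (by constructor <;> push_cast <;> linarith only [y0, h]) (by constructor <;> push_cast <;> linarith only [w0, w1])
      with h1 | h1
    · left
      rw [D.val, kp_val, e1, e2, tm_val, hq_val, f0_val] at h1
      linarith only [h1]
    · right
      rw [D.val, rs_val, e1, e2, tm_val, hq_val, f0_val, sM_val] at h1
      exact ⟨h, by linarith only [h1]⟩
  · left
    have h1 := dk1 r_p0n (by norm_num) (x := x) (y := T) (z := y) (w := w)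
      (by constructor <;> push_cast <;> linarith only [x0, x1]) (by constructor <;> push_cast <;> linarith only [T0, T1])
      (by constructor <;> push_cast <;> linarith only [h, y1]) (by constructor <;> push_cast <;> linarith only [w0, w1])
    rw [D.val, kp_val, e1, e2, tm_val, hq_val, f0_val] at h1
    linarith only [h1]

/-- first half of the path, inner variable on the upper mirrored path -/
theorem p0_u (x0 : 0 ≤ x) (x1 : x ≤ 2 / 5) (T0 : 0 ≤ T) (T1 : T ≤ 53 / 1000) (y0 : 0 ≤ y)
    (y1 : y ≤ 8 / 10) (w0 : -(89 / 1000) ≤ w) (w1 : w ≤ -(13 / 1000)) :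
    Gn ⟨1 / 5, -T⟩ ⟨x, 3 / 10 * τh x⟩ ⟨y, 16 / 100 * τl y⟩ w (sU y w) (f0 x T) := by
  have e1 : (E.q 1 5).val [x, T, y, w] = 1 / 5 := by norm_num [E.val]
  have e2 : (E.neg (.var 1)).val [x, T, y, w] = -T := rfl
  rcases dk2 r_p0u (by norm_num) (x := x) (y := T) (z := y) (w := w)
    (by constructor <;> push_cast <;> linarith only [x0, x1]) (by constructor <;> push_cast <;> linarith only [T0, T1])
    (by constructor <;> push_cast <;> linarith only [y0, y1]) (by constructor <;> push_cast <;> linarith only [w0, w1])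
    with h1 | h1
  · left
    rw [D.val, kp_val, e1, e2, tu_val, hq_val, f0_val] at h1
    linarith only [h1]
  · right
    rw [D.val, rs_val, e1, e2, tu_val, hq_val, f0_val, sU_val] at h1
    linarith only [h1]

/-- the `2`, first half of the path -/
theorem k0_le (x0 : 0 ≤ x) (x1 : x ≤ 2 / 5) (T0 : 0 ≤ T) (T1 : T ≤ 53 / 1000) (y0 : 0 ≤ y)
    (y1 : y ≤ 8 / 10) (t0 : -1 ≤ θ) (t1 : θ ≤ 1) :
    0 < V2 ⟨1 / 5, T⟩ ⟨y, θ * (16 / 100 * τk y)⟩ -
      V2 ⟨x, -(3 / 10 * τh x)⟩ ⟨y, θ * (16 / 100 * τk y)⟩ + 2 * Real.pi * (3 / 10 * τh x) +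
      f0 x T := by
  have e1 : (E.q 1 5).val [x, T, y, θ] = 1 / 5 := by norm_num [E.val]
  have h1 := dk1 r_k0 (by norm_num) (x := x) (y := T) (z := y) (w := θ)
    (by constructor <;> push_cast <;> linarith only [x0, x1]) (by constructor <;> push_cast <;> linarith only [T0, T1])
    (by constructor <;> push_cast <;> linarith only [y0, y1]) (by constructor <;> push_cast <;> linarith only [t0, t1])
  rw [D.val, g2_val, e1, e1_val, hq_val, f0_val] at h1
  exact h1

/-- second half, with the first order condition, inner variable on the main path -/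
theorem p1_m (x0 : 2 / 5 ≤ x) (x1 : x < 3 / 5) (T0 : 0 ≤ T) (T1 : T ≤ 53 / 1000) (y0 : 0 ≤ y)
    (y1 : y ≤ 8 / 10) (w0 : -(89 / 1000) ≤ w) (w1 : w ≤ -(13 / 1000)) :
    f1 x T - 21 / 100 * dh3a ⟨x, 10 / 9 * (3 / 5 - x)⟩ ⟨y, w * τl y⟩ (-(10 / 9)) <
      KE.VA ⟨1 / 5, -T⟩ ⟨y, w * τl y⟩ - KE.VA ⟨x, 10 / 9 * (3 / 5 - x)⟩ ⟨y, w * τl y⟩ ∨
    (y ≤ 3 / 10 ∧
      f1 x T - 21 / 100 * dh3a ⟨x, 10 / 9 * (3 / 5 - x)⟩ ⟨y, w * τl y⟩ (-(10 / 9)) <
      KE.VF ⟨1 / 5, -T⟩ ⟨3 / 10, w⟩ - KE.VF ⟨x, 10 / 9 * (3 / 5 - x)⟩ ⟨y, w * τl y⟩ + sM y w) := by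
  have e1 : (E.q 1 5).val [x, T, y, w] = 1 / 5 := by norm_num [E.val]
  have e2 : (E.neg (.var 1)).val [x, T, y, w] = -T := rfl
  have hτ : 0 ≤ τl y := (tr_mem _ _ _ _).1
  have hs : tm.val [x, T, y, w] - 10 / 9 * (3 / 5 - x) < 0 := by
    rw [tm_val]
    have h2 : 0 ≤ -w * τl y := mul_nonneg (by linarith only [w1]) hτ
    nlinarith only [x1, h2]
  rcases le_total y (3 / 10) with h | h
  · rcases dk2 r_p1a (by norm_num) (x := x) (y := T) (z := y) (w := w)
      (by constructor <;> push_cast <;> linarith only [x0, x1]) (by constructor <;> push_cast <;> linarith only [T0, T1])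
      (by constructor <;> push_cast <;> linarith only [y0, h]) (by constructor <;> push_cast <;> linarith only [w0, w1])
      with h1 | h1
    · left
      rw [D.val, D3n_val hs, D.val, kp_val, e1, e2, tm_val, hr_val, f1_val] at h1
      linarith only [h1]
    · right
      rw [D.val, D3n_val hs, D.val, rs_val, e1, e2, tm_val, hr_val, f1_val, sM_val] at h1
      exact ⟨h, by linarith only [h1]⟩
  left
  rcases le_total y (38 / 100) with h' | h'
  · have h1 := dk1 r_p1b (by norm_num) (x := x) (y := T) (z := y) (w := w)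
      (by constructor <;> push_cast <;> linarith only [x0, x1]) (by constructor <;> push_cast <;> linarith only [T0, T1])
      (by constructor <;> push_cast <;> linarith only [h, h']) (by constructor <;> push_cast <;> linarith only [w0, w1])
    rw [D.val, D3n_val hs, D.val, kp_val, e1, e2, tm_val, hr_val, f1_val] at h1
    linarith only [h1]
  · have h1 := dk1 r_p1c (by norm_num) (x := x) (y := T) (z := y) (w := w)
      (by constructor <;> push_cast <;> linarith only [x0, x1]) (by constructor <;> push_cast <;> linarith only [T0, T1])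
      (by constructor <;> push_cast <;> linarith only [h', y1]) (by constructor <;> push_cast <;> linarith only [w0, w1])
    rw [D.val, D3_val, D.val, kp_val, e1, e2, tm_val, hr_val, f1_val] at h1
    linarith only [h1]

/-- second half, with the first order condition, inner variable on the upper mirrored path -/
theorem p1_u (x0 : 2 / 5 ≤ x) (x1 : x ≤ 3 / 5) (T0 : 0 ≤ T) (T1 : T ≤ 53 / 1000)
    (y0 : 73 / 100 ≤ y) (y1 : y ≤ 8 / 10) :
    f1 x T - 21 / 100 * dh3a ⟨x, 10 / 9 * (3 / 5 - x)⟩ ⟨y, 16 / 100 * τl y⟩ (-(10 / 9)) <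
      KE.VA ⟨1 / 5, -T⟩ ⟨y, 16 / 100 * τl y⟩ -
      KE.VA ⟨x, 10 / 9 * (3 / 5 - x)⟩ ⟨y, 16 / 100 * τl y⟩ := by
  have e1 : (E.q 1 5).val [x, T, y, -(89 / 1000)] = 1 / 5 := by norm_num [E.val]
  have e2 : (E.neg (.var 1)).val [x, T, y, -(89 / 1000)] = -T := rfl
  have h1 := dk1 r_p1u (by norm_num) (x := x) (y := T) (z := y) (w := -(89 / 1000))
    (by constructor <;> push_cast <;> linarith only [x0, x1]) (by constructor <;> push_cast <;> linarith only [T0, T1])
    (by constructor <;> push_cast <;> linarith only [y0, y1]) (by constructor <;> push_cast <;> linarith only [])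
  rw [D.val, D3_val, D.val, kp_val, e1, e2, tu_val, hr_val, f1_val] at h1
  linarith only [h1]

/-- the `2`, second half, with the first order condition -/
theorem k1_le (x0 : 2 / 5 ≤ x) (x1 : x ≤ 3 / 5) (T0 : 0 ≤ T) (T1 : T ≤ 53 / 1000) (y0 : 0 ≤ y)
    (y1 : y ≤ 36 / 100) (t0 : -1 ≤ θ) (t1 : θ ≤ 1) :
    0 < V2 ⟨1 / 5, T⟩ ⟨y, θ * (16 / 100 * τk y)⟩ -
      V2 ⟨x, -(10 / 9 * (3 / 5 - x))⟩ ⟨y, θ * (16 / 100 * τk y)⟩ +
      2 * Real.pi * (10 / 9 * (3 / 5 - x)) + f1 x T +
      21 / 100 * (dh2 ⟨x, -(10 / 9 * (3 / 5 - x))⟩ ⟨y, θ * (16 / 100 * τk y)⟩ (10 / 9) +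
        Real.pi * (20 / 9)) := by
  have e1 : (E.q 1 5).val [x, T, y, θ] = 1 / 5 := by norm_num [E.val]
  have h1 := dk1 r_k1 (by norm_num) (x := x) (y := T) (z := y) (w := θ)
    (by constructor <;> push_cast <;> linarith only [x0, x1]) (by constructor <;> push_cast <;> linarith only [T0, T1])
    (by constructor <;> push_cast <;> linarith only [y0, y1]) (by constructor <;> push_cast <;> linarith only [t0, t1])
  rw [D.val, D.val, D2_val, g2_val, e1, e1_val, hr_val, f1_val] at h1
  exact h1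

/-- second half, inner variable on the main path, first part -/
theorem p3_m (x0 : 2 / 5 ≤ x) (x1 : x ≤ 3 / 5) (T0 : 0 ≤ T) (T1 : T ≤ 53 / 1000) (y0 : 0 ≤ y)
    (y1 : y ≤ 38 / 100) (w0 : -(89 / 1000) ≤ w) (w1 : w ≤ -(13 / 1000)) :
    f3 x T < KE.VA ⟨1 / 5, -T⟩ ⟨y, w * τl y⟩ -
      KE.VA ⟨x, 10 / 9 * (3 / 5 - x)⟩ ⟨y, w * τl y⟩ ∨
    (y ≤ 3 / 10 ∧ f3 x T < KE.VF ⟨1 / 5, -T⟩ ⟨3 / 10, w⟩ -
      KE.VF ⟨x, 10 / 9 * (3 / 5 - x)⟩ ⟨y, w * τl y⟩ + sM y w) := by
  have e1 : (E.q 1 5).val [x, T, y, w] = 1 / 5 := by norm_num [E.val]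
  have e2 : (E.neg (.var 1)).val [x, T, y, w] = -T := rfl
  rcases le_total y (3 / 10) with h | h
  · rcases dk2 r_p3 (by norm_num) (x := x) (y := T) (z := y) (w := w)
      (by constructor <;> push_cast <;> linarith only [x0, x1]) (by constructor <;> push_cast <;> linarith only [T0, T1])
      (by constructor <;> push_cast <;> linarith only [y0, h]) (by constructor <;> push_cast <;> linarith only [w0, w1])
      with h1 | h1
    · left
      rw [D.val, kp_val, e1, e2, tm_val, hr_val, f3_val] at h1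
      linarith only [h1]
    · right
      rw [D.val, rs_val, e1, e2, tm_val, hr_val, f3_val, sM_val] at h1
      exact ⟨h, by linarith only [h1]⟩
  · left
    have h1 := dk1 r_p3b (by norm_num) (x := x) (y := T) (z := y) (w := w)
      (by constructor <;> push_cast <;> linarith only [x0, x1]) (by constructor <;> push_cast <;> linarith only [T0, T1])
      (by constructor <;> push_cast <;> linarith only [h, y1]) (by constructor <;> push_cast <;> linarith only [w0, w1])
    rw [D.val, kp_val, e1, e2, tm_val, hr_val, f3_val] at h1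
    linarith only [h1]

/-- the `2`, second half, first part of the inner variable -/
theorem k3_le (x0 : 2 / 5 ≤ x) (x1 : x ≤ 3 / 5) (T0 : 0 ≤ T) (T1 : T ≤ 53 / 1000)
    (y0 : 36 / 100 ≤ y) (y1 : y ≤ 8 / 10) (t0 : -1 ≤ θ) (t1 : θ ≤ 1) :
    0 < V2 ⟨1 / 5, T⟩ ⟨y, θ * (16 / 100 * τk y)⟩ -
      V2 ⟨x, -(10 / 9 * (3 / 5 - x))⟩ ⟨y, θ * (16 / 100 * τk y)⟩ +
      2 * Real.pi * (10 / 9 * (3 / 5 - x)) + f3 x T := by
  have e1 : (E.q 1 5).val [x, T, y, θ] = 1 / 5 := by norm_num [E.val]
  have h1 := dk1 r_k3 (by norm_num) (x := x) (y := T) (z := y) (w := θ)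
    (by constructor <;> push_cast <;> linarith only [x0, x1]) (by constructor <;> push_cast <;> linarith only [T0, T1])
    (by constructor <;> push_cast <;> linarith only [y0, y1]) (by constructor <;> push_cast <;> linarith only [t0, t1])
  rw [D.val, g2_val, e1, e1_val, hr_val, f3_val] at h1
  exact h1

/-- second half, inner variable on the main path, second part; target `7/20` -/
theorem p4_m (x0 : 2 / 5 ≤ x) (x1 : x ≤ 3 / 5) (T0 : 0 ≤ T) (T1 : T ≤ 53 / 1000)
    (y0 : 38 / 100 ≤ y) (y1 : y ≤ 8 / 10) (w0 : -(89 / 1000) ≤ w) (w1 : w ≤ -(13 / 1000)) :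
    f4 x T < KE.VA ⟨7 / 20, -(25 / 27 * T)⟩ ⟨y, w * τl y⟩ -
      KE.VA ⟨x, 10 / 9 * (3 / 5 - x)⟩ ⟨y, w * τl y⟩ := by
  have e1 : (E.q 7 20).val [x, T, y, w] = 7 / 20 := by norm_num [E.val]
  have e2 : (E.neg (.mul (.q 25 27) (.var 1))).val [x, T, y, w] = -(25 / 27 * T) := by
    rw [E.val, E.val, e1_val]; norm_num [E.val]
  have h1 := dk1 r_p4 (by norm_num) (x := x) (y := T) (z := y) (w := w)
    (by constructor <;> push_cast <;> linarith only [x0, x1]) (by constructor <;> push_cast <;> linarith only [T0, T1])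
    (by constructor <;> push_cast <;> linarith only [y0, y1]) (by constructor <;> push_cast <;> linarith only [w0, w1])
  rw [D.val, kp_val, e1, e2, tm_val, hr_val, f4_val] at h1
  linarith only [h1]

theorem p4_u (x0 : 2 / 5 ≤ x) (x1 : x ≤ 3 / 5) (T0 : 0 ≤ T) (T1 : T ≤ 53 / 1000)
    (y0 : 73 / 100 ≤ y) (y1 : y ≤ 8 / 10) :
    f4 x T < KE.VA ⟨7 / 20, -(25 / 27 * T)⟩ ⟨y, 16 / 100 * τl y⟩ -
      KE.VA ⟨x, 10 / 9 * (3 / 5 - x)⟩ ⟨y, 16 / 100 * τl y⟩ := by
  have e1 : (E.q 7 20).val [x, T, y, -(89 / 1000)] = 7 / 20 := by norm_num [E.val]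
  have e2 : (E.neg (.mul (.q 25 27) (.var 1))).val [x, T, y, -(89 / 1000)] = -(25 / 27 * T) := by
    rw [E.val, E.val, e1_val]; norm_num [E.val]
  have h1 := dk1 r_p4u (by norm_num) (x := x) (y := T) (z := y) (w := -(89 / 1000))
    (by constructor <;> push_cast <;> linarith only [x0, x1]) (by constructor <;> push_cast <;> linarith only [T0, T1])
    (by constructor <;> push_cast <;> linarith only [y0, y1]) (by constructor <;> push_cast <;> linarith only [])
  rw [D.val, kp_val, e1, e2, tu_val, hr_val, f4_val] at h1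
  linarith only [h1]

/-- the `2`, second half, target `7/20` -/
theorem k4_le (x0 : 2 / 5 ≤ x) (x1 : x ≤ 3 / 5) (T0 : 0 ≤ T) (T1 : T ≤ 53 / 1000)
    (y0 : 36 / 100 ≤ y) (y1 : y ≤ 8 / 10) (t0 : -1 ≤ θ) (t1 : θ ≤ 1) :
    0 < V2 ⟨7 / 20, 25 / 27 * T⟩ ⟨y, θ * (16 / 100 * τk y)⟩ -
      V2 ⟨x, -(10 / 9 * (3 / 5 - x))⟩ ⟨y, θ * (16 / 100 * τk y)⟩ +
      2 * Real.pi * (10 / 9 * (3 / 5 - x)) + f4 x T := by
  have e1 : (E.q 7 20).val [x, T, y, θ] = 7 / 20 := by norm_num [E.val]
  have e2 : (E.mul (.q 25 27) (.var 1)).val [x, T, y, θ] = 25 / 27 * T := by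
    rw [E.val, e1_val]; norm_num [E.val]
  have h1 := dk1 r_k4 (by norm_num) (x := x) (y := T) (z := y) (w := θ)
    (by constructor <;> push_cast <;> linarith only [x0, x1]) (by constructor <;> push_cast <;> linarith only [T0, T1])
    (by constructor <;> push_cast <;> linarith only [y0, y1]) (by constructor <;> push_cast <;> linarith only [t0, t1])
  rw [D.val, g2_val, e1, e2, hr_val, f4_val] at h1
  exact h1

/-- second half, inner variable on the upper mirrored path -/
theorem p5_u (x0 : 2 / 5 ≤ x) (x1 : x ≤ 3 / 5) (T0 : 0 ≤ T) (T1 : T ≤ 53 / 1000) (y0 : 0 ≤ y)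
    (y1 : y ≤ 73 / 100) (w0 : -(89 / 1000) ≤ w) (w1 : w ≤ -(13 / 1000)) :
    Gn ⟨1 / 5, -T⟩ ⟨x, 10 / 9 * (3 / 5 - x)⟩ ⟨y, 16 / 100 * τl y⟩ w (sU y w) (f5 x T) := by
  have e1 : (E.q 1 5).val [x, T, y, w] = 1 / 5 := by norm_num [E.val]
  have e2 : (E.neg (.var 1)).val [x, T, y, w] = -T := rfl
  rcases dk2 r_p5u (by norm_num) (x := x) (y := T) (z := y) (w := w)
    (by constructor <;> push_cast <;> linarith only [x0, x1]) (by constructor <;> push_cast <;> linarith only [T0, T1])
    (by constructor <;> push_cast <;> linarith only [y0, y1]) (by constructor <;> push_cast <;> linarith only [w0, w1])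
    with h1 | h1
  · left
    rw [D.val, kp_val, e1, e2, tu_val, hr_val, f5_val] at h1
    linarith only [h1]
  · right
    rw [D.val, rs_val, e1, e2, tu_val, hr_val, f5_val, sU_val] at h1
    linarith only [h1]

/-- the `2`, second half, all positions of the other hinge -/
theorem k5_le (x0 : 2 / 5 ≤ x) (x1 : x ≤ 3 / 5) (T0 : 0 ≤ T) (T1 : T ≤ 53 / 1000) (y0 : 0 ≤ y)
    (y1 : y ≤ 8 / 10) (t0 : -1 ≤ θ) (t1 : θ ≤ 1) :
    0 < V2 ⟨1 / 5, T⟩ ⟨y, θ * (16 / 100 * τk y)⟩ -
      V2 ⟨x, -(10 / 9 * (3 / 5 - x))⟩ ⟨y, θ * (16 / 100 * τk y)⟩ +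
      2 * Real.pi * (10 / 9 * (3 / 5 - x)) + f5 x T := by
  have e1 : (E.q 1 5).val [x, T, y, θ] = 1 / 5 := by norm_num [E.val]
  have h1 := dk1 r_k5 (by norm_num) (x := x) (y := T) (z := y) (w := θ)
    (by constructor <;> push_cast <;> linarith only [x0, x1]) (by constructor <;> push_cast <;> linarith only [T0, T1])
    (by constructor <;> push_cast <;> linarith only [y0, y1]) (by constructor <;> push_cast <;> linarith only [t0, t1])
  rw [D.val, g2_val, e1, e1_val, hr_val, f5_val] at h1
  exact h1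

end K23

end Pool.Agent.Work.MP_b30479_gt.G2
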