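import Pool.Agent.Work.MP_b30479_gt.G2.WMRK
import Pool.Agent.Work.MP_b30479_gt.G2.WMRE3
import Pool.Agent.Work.MP_b30479_gt.G2.WLocA

/-!
# Mirrored paths: the kind `2` at an end `| 3`, slot `2` of the `3`
-/

namespace Pool.Agent.Work.MP_b30479_gt.G2

open Finset VOL Filter Topology

namespace SR

variable {M : ℕ} {b : Fin (M + 1) → ℤ} {zs : DD (tyW b) ⊕ ZZ (tyW b) → ℂ}

/-- **Kind `2` at an end `| 3`**, the `3` at its slot `2`. -/
theorem kind_twoE_three' (hb : ClassW b) (L : LocA b zs) : Kd b zs .twoE .three 0 := by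
  intro R nb z p h i j x hN hM hq D hi hj
  obtain ⟨m, rfl⟩ : ∃ m : {i : Fin (M + 1) // (tyW b i).isMid = true}, m.1 = j :=
    ⟨⟨j, tyW_isMid (Or.inl hj)⟩, rfl⟩
  obtain ⟨w0, w1, d2⟩ := (hM.ipos hN m D.adj.symm D.nn).2.dl hb L.L m hj
  have hT := Th_mem hb L.L D.adj D.ri
  rw [hi, hj] at hT
  simp only [hbox] at hT
  have A2 : Adj h m.1 2 i := D.adj.symm
  have hX := par_three2 A2 hj (by rw [hi]; decide)
  have hx1 := D.x1
  rw [hX.1] at hx1
  have h16 := mhs_adj D.adj (fun h3 => by rw [hi] at h3; exact absurd h3.2 (by decide))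
    (fun h3 => absurd h3.1 (by decide)) 0
  exact D.one hb hN hM hX h16 hi (fun c => side_three2 hb A2 hj c)
    (KR.RE3.rows D.x0.le hx1.le (by linarith [hT.1]) (by linarith [hT.2]) w0 w1 d2)

end SR

end Pool.Agent.Work.MP_b30479_gt.G2
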