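import Pool.Agent.Work.MP_b30479_gt.G2.WMSk
import Pool.Agent.Work.MP_b30479_gt.G2.WMSv
import Pool.Agent.Work.MP_b30479_gt.G2.WLocA

/-!
# Mirrored paths: the kind `3 | 3`, slot `0` of the `3` on the lower side
-/

namespace Pool.Agent.Work.MP_b30479_gt.G2

open Finset VOL Filter Topology

namespace SR

variable {M : ℕ} {b : Fin (M + 1) → ℤ} {zs : DD (tyW b) ⊕ ZZ (tyW b) → ℂ}

/-- **Kind `3 | 3`**, the lower `3` at its slot `0`. -/
theorem kind_three_three0 (hb : ClassW b) (L : LocA b zs) : Kd b zs .three .three 0 := by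
  intro R nb z p h i j x hN hM hq D hi hj
  obtain ⟨m, rfl⟩ : ∃ m : {i : Fin (M + 1) // (tyW b i).isMid = true}, m.1 = i :=
    ⟨⟨i, tyW_isMid (Or.inl hi)⟩, rfl⟩
  obtain ⟨n, rfl⟩ : ∃ n : {i : Fin (M + 1) // (tyW b i).isMid = true}, n.1 = j :=
    ⟨⟨j, tyW_isMid (Or.inl hj)⟩, rfl⟩
  have A : Adj h n.1 2 m.1 := D.adj.symm
  obtain ⟨y0, y1, d1⟩ := (hM.ipos hN m D.adj D.nn).2.dl hb L.L m hi
  obtain ⟨w0, w1, d2⟩ := (hM.ipos hN n A D.nn).2.dl hb L.L n hj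
  have hT := Th_mem hb L.L D.adj D.ri
  rw [hi, hj] at hT
  simp only [hbox] at hT
  have hX := par_33a D.adj hi hj
  have hx1 := D.x1
  rw [hX.1] at hx1
  have h16 := mhs_32a D.adj (by rw [hj]; decide)
  obtain ⟨u, u0, u1, e1⟩ := KE.dl_par d1
  obtain ⟨s, s0, s1, e2⟩ := KE.dl_par d2
  have f1 : Ow b z m.1 1 = ⟨(Ow b z m.1 1).re, KS.lv (Ow b z m.1 1).re u⟩ :=
    Complex.ext rfl e1
  have k2 : ∀ c : ℝ, SideG b zs nb z p h n.1 (tg b zs h c)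
      (V2 (tgo b zs h n.1 c) ⟨(Ow b z n.1 1).re, KS.lv (Ow b z n.1 1).re s⟩ -
        V2 (Ow b z n.1 2) ⟨(Ow b z n.1 1).re, KS.lv (Ow b z n.1 1).re s⟩) := by
    intro c
    have e3 : (⟨(Ow b z n.1 1).re, KS.lv (Ow b z n.1 1).re s⟩ : ℂ) = Ow b z n.1 1 :=
      Complex.ext rfl e2.symm
    rw [e3]
    exact side_three2 hb A hj c
  refine D.win0 hb hN hM hX h16 hi k2 ?_
  rw [f1]
  have x1 : x ≤ 600 / 1000 := by
    simp only [KS.P3] at hx1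
    push_cast at hx1
    linarith
  have tp := D.tp
  rw [trh_tq hX] at tp
  exact KS.K3.win ⟨D.x0.le, x1, D.T0, by linarith [hT.2], y0, by linarith, u0, u1, w0, by linarith,
    s0, s1⟩ tp

end SR

end Pool.Agent.Work.MP_b30479_gt.G2
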