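import Pool.Agent.Work.NumU.GenD

/-!
# The kind `3 | 3` (slot `2` of the lower one, slot `0` of the upper one): definitions

Variables of the rows: position `x` and height `T` of the saddle point of the hinge, position and
height of the inner variable of the upper `3`.
-/

namespace Pool.Agent.Work.MP_b30479_gt.G2

namespace KJ3

open NumG

/-- tables of the gains in the slot `2` (see `NumG.F3`) -/
def fa : List (ℤ × ℤ × ℕ) :=
  [(0, -19, 4), (2, 41, 60), (5, 68, 75), (10, 29, 50), (15, 11, 50), (20, 41, 100),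
    (30, 43, 100), (40, 19, 100), (50, -129, 100), (60, 109, 200), (80, 61, 100), (100, 81, 200),
    (125, 63, 125), (150, 79, 250), (175, 127, 250), (200, 37, 125), (225, 89, 250),
    (250, 153, 250), (275, 648, 1625), (288, 7, 26), (300, -13, 5), (312, 7, 130),
    (325, 88, 1625), (350, 23, 250), (375, 9, 50), (400, 3, 125), (450, 12, 125), (500, 13, 250),
    (550, 9, 500), (600, -2, 125), (650, -11, 250), (700, -61, 500), (750, -9, 250),
    (775, -33, 250)]
def fb : List (ℤ × ℤ × ℕ) :=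
  [(0, -80, 1), (2, 100, 3), (5, -22, 3), (10, 6, 1), (20, 2, 1), (50, 56, 1), (60, -5, 2),
    (80, -3, 1), (100, -21, 10), (125, -8, 5), (150, -6, 5), (175, -2, 1), (200, -4, 5),
    (225, -4, 5), (250, -293, 250), (275, -341, 125), (288, -11, 10), (300, 169, 20),
    (312, -1, 20), (325, -6, 125), (350, -116, 125), (375, 47, 125), (400, 1, 5), (550, 2, 5),
    (600, 3, 5), (650, 3, 5), (700, 8, 5), (750, 243, 5), (775, -4, 5)]
def fu : List (ℤ × ℤ × ℕ) :=
  [(0, 179, 10), (5, -11, 5), (10, -81, 10), (20, 11, 10), (30, 17, 20), (50, -941, 100),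
    (100, 19, 50), (150, -1, 50), (200, 1, 22), (750, -6, 11), (760, -17, 1), (770, -93, 10),
    (780, -3, 5), (790, -2, 1)]
def fv : List (ℤ × ℤ × ℕ) :=
  [(0, -130, 1), (10, 130, 1), (750, 20, 1)]
def fd : List (ℤ × ℤ × ℕ) :=
  [(0, 27, 4), (2, 19, 12), (5, 2, 3), (10, 11, 20), (20, 29, 60), (50, -781, 75), (100, 4, 25),
    (150, 1, 10), (200, 3, 25), (250, 1, 50), (500, 3, 50), (600, 2, 25), (650, 3, 25),
    (750, -1143, 100), (760, -1, 1), (780, -13, 40)]
/-- value of a digit `3` minus that of a digit `2` -/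
def Vf (x t y s : E) : E := .add (E.Va x t y s) (.add (.uw y s) (.mul .pi s))
/-- height of the mirrored path -/
def hh : E := .mul (.q 4 25) (E.tr 600 130 300 (.var 0))
/-- gain of the lower `3` plus the penalty -/
def g0 (a : E) : E := .add a (.mul (.mul (.q 2 1) .pi) hh)
/-- total gain, inner variable kept at height `s`; target `c - i t` -/
def kp (a c t s : E) : E :=
  .add (g0 a) (.sub (E.Va c (.neg t) (.var 2) s) (E.Va (.var 0) hh (.var 2) s))
/-- total gain, inner variable moved to `m` -/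
def rs (a c t m s p : E) : E :=
  .add (.add (g0 a) (.sub (Vf c (.neg t) m (.var 3)) (Vf (.var 0) hh (.var 2) s))) p
/-- heights of the inner variable -/
def tm : E := .mul (.var 3) (E.tr 800 50 50 (.var 2))
def tu : E := .mul (.q 4 25) (E.tr 800 50 50 (.var 2))
/-- gains in the slot `2`, inner variable moved to `3/10` -/
def pM : E := .sub (E.pl (.var 2) 120 fa) (.mul (.var 3) (E.pl (.var 2) 2600 fb))
def pU : E := .sub (E.pl (.var 2) 120 fu) (.mul (.var 3) (E.pl (.var 2) 2600 fv))
def pD : E := .sub (E.pl (.var 2) 120 fd) (.mul (.q 12 5) (.var 3))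
/-- the same for `45/100` and `6/10` -/
def p45 : E := .neg (E.pl (.var 2) 8 [(600, -17, 100), (700, -1, 100), (750, 14, 25)])
def l60a : List (ℤ × ℤ × ℕ) := [(700, -7, 125), (750, -177, 250)]
def l60b : List (ℤ × ℤ × ℕ) := [(700, 71, 25), (750, 54, 25)]
def p60 : E := .sub (E.pl (.var 2) 8 l60a) (.mul (.var 3) (E.pl (.var 2) 58 l60b))
/-- height of the hinge in the slot `2`, ramp function of the inner variable `y` -/
def uW : E := .mul (E.c 1600) (E.tr 650 130 290 (.var 2))
def tL (y : E) : E := E.tr 800 50 50 y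
def gL (m : ℤ) (t : E) : E :=
  E.dV2 (E.c m) (.var 1) (.var 0) t (.var 2) (.mul (.var 3) uW)
/-- far gain of `6/10` -/
def f60 : E := .sub (gL 6000 (.mul (.var 1) (tL (.var 0))))
  (.sub (E.pl (.var 0) 8 l60a) (.mul (.var 1) (E.pl (.var 0) 58 l60b)))

/-- bounds of the gain of the lower `3` -/
def l20 : List (ℤ × ℤ × ℕ) := [(0, -103, 20), (20, 3, 4), (40, 11, 60), (100, 11, 60), (130, 404, 105), (200, 3, 35), (260, 1, 10), (300, 81, 50), (350, 1, 10), (400, 3, 25), (450, 1, 10), (500, 11, 100)]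
def a20 : E := E.pl (.var 0) (90) l20
def l25 : List (ℤ × ℤ × ℕ) := [(540, 31, 15)]
def a25 : E := E.pl (.var 0) (-65) l25
def l30 : List (ℤ × ℤ × ℕ) := [(540, 41, 20)]
def a30 : E := E.pl (.var 0) (-87) l30
def l35 : List (ℤ × ℤ × ℕ) := [(540, 61, 30)]
def a35 : E := E.pl (.var 0) (-92) l35
def l40 : List (ℤ × ℤ × ℕ) := [(540, 28, 15)]
def a40 : E := E.pl (.var 0) (-112) l40

end KJ3

end Pool.Agent.Work.MP_b30479_gt.G2
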