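import Pool.Agent.Work.MP_b30479_gt.G2.WM_3b3aD
import Pool.Agent.Work.MP_b30479_gt.G2.WM_2_3aE
import Pool.Agent.Work.MP_b30479_gt.G2.WMFar30

/-!
# The kind `3 | 3` (slot `2` of the lower one, slot `0` of the upper one): values of the expressions

Variables of the rows: position `x` and height `T` of the saddle point of the hinge, position and
height of the inner variable of the upper `3`.
-/

namespace Pool.Agent.Work.MP_b30479_gt.G2

open Finset VOL Filter Topology

namespace KJ3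

open NumG

/-! ### values -/

noncomputable def τ (x : ℝ) : ℝ := tr 0 (6 / 10) (13 / 100) (3 / 10) x

variable {x T y w : ℝ}

theorem hh_val : hh.val [x, T, y, w] = 16 / 100 * τ x := by
  unfold hh τ
  rw [E.val, E.tr_val (by norm_num) (by norm_num) (by norm_num), K23.e0_val]
  norm_num [E.val]

theorem tm_val : tm.val [x, T, y, w] = w * K23.τl y := by
  unfold tm K23.τl
  rw [E.val, E.tr_val (by norm_num) (by norm_num) (by norm_num), K23.e2_val, K23.e3_val]
  norm_num

theorem tu_val : tu.val [x, T, y, w] = 16 / 100 * K23.τl y := by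
  unfold tu K23.τl
  rw [E.val, E.tr_val (by norm_num) (by norm_num) (by norm_num), K23.e2_val]
  norm_num [E.val]

theorem g0_val {a : E} : (g0 a).val [x, T, y, w] =
    a.val [x, T, y, w] + 2 * Real.pi * (16 / 100 * τ x) := by
  unfold g0
  have e3 : (((E.q 2 1).mul E.pi).mul hh).val [x, T, y, w] = 2 * Real.pi * (16 / 100 * τ x) := by
    show ((E.q 2 1).val [x, T, y, w] * Real.pi) * hh.val [x, T, y, w] = _
    rw [hh_val]
    norm_num [E.val]
  rw [E.val, e3]

theorem kp_val {a c t s : E} : (kp a c t s).val [x, T, y, w] =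
    a.val [x, T, y, w] + 2 * Real.pi * (16 / 100 * τ x) +
      (KE.VA ⟨c.val [x, T, y, w], -t.val [x, T, y, w]⟩ ⟨y, s.val [x, T, y, w]⟩ -
        KE.VA ⟨x, 16 / 100 * τ x⟩ ⟨y, s.val [x, T, y, w]⟩) := by
  unfold kp
  have e2 : (E.neg t).val [x, T, y, w] = -t.val [x, T, y, w] := rfl
  rw [E.val, E.val, g0_val, KE.eVA_val, KE.eVA_val, hh_val, K23.e0_val, K23.e2_val, e2]

theorem Vf_val {x t y s : E} {xs : List ℝ} :
    (Vf x t y s).val xs = KE.VF ⟨x.val xs, t.val xs⟩ ⟨y.val xs, s.val xs⟩ := K23.Vf_val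

theorem rs_val {a c t m s p : E} : (rs a c t m s p).val [x, T, y, w] =
    a.val [x, T, y, w] + 2 * Real.pi * (16 / 100 * τ x) +
      (KE.VF ⟨c.val [x, T, y, w], -t.val [x, T, y, w]⟩ ⟨m.val [x, T, y, w], w⟩ -
        KE.VF ⟨x, 16 / 100 * τ x⟩ ⟨y, s.val [x, T, y, w]⟩) + p.val [x, T, y, w] := by
  unfold rs
  have e2 : (E.neg t).val [x, T, y, w] = -t.val [x, T, y, w] := rfl
  rw [E.val, E.val, E.val, g0_val, Vf_val, Vf_val, hh_val, K23.e0_val, K23.e2_val,
    K23.e3_val, e2]

theorem pM_val : pM.val [x, T, y, w] = plR y 120 F3.fa - w * plR y 2600 F3.fb := by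
  have e1 : F3.fa = fa := rfl
  have e2 : F3.fb = fb := rfl
  rw [e1, e2]
  unfold pM
  rw [E.val, E.val, E.pl_val, E.pl_val, K23.e2_val, K23.e3_val]

theorem pU_val : pU.val [x, T, y, w] = plR y 120 F3.fu - w * plR y 2600 F3.fv := by
  have e1 : F3.fu = fu := rfl
  have e2 : F3.fv = fv := rfl
  rw [e1, e2]
  unfold pU
  rw [E.val, E.val, E.pl_val, E.pl_val, K23.e2_val, K23.e3_val]

theorem pD_val : pD.val [x, T, y, w] = plR y 120 F3.fd - w * (24 / 10) := by
  have e1 : F3.fd = fd := rfl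
  rw [e1]
  unfold pD
  rw [E.val, E.val, E.pl_val, K23.e2_val, K23.e3_val]
  norm_num [E.val]
  ring

theorem p45_val : p45.val [x, T, y, w] = -KE.ψ45 y := by
  have e : p45 = .neg (KE.e45 (.var 2)) := rfl
  rw [e, E.val, KE.e45_val, K23.e2_val]

theorem p60_val : p60.val [x, T, y, w] = plR y 8 l60a - w * plR y 58 l60b := by
  unfold p60
  rw [E.val, E.val, E.pl_val, E.pl_val, K23.e2_val, K23.e3_val]

theorem f60_val : f60.val [x, T, y, w] =
    V2 ⟨6 / 10, T⟩ ⟨y, w * (16 / 100 * tr 0 (65 / 100) (13 / 100) (29 / 100) y)⟩ -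
      V2 ⟨x, T * tr 0 (8 / 10) (5 / 100) (5 / 100) x⟩
        ⟨y, w * (16 / 100 * tr 0 (65 / 100) (13 / 100) (29 / 100) y)⟩ -
      (plR x 8 l60a - T * plR x 58 l60b) := by
  have e : f60 = .sub (KE.gL 6000 (.mul (.var 1) (KE.tL (.var 0))))
    (.sub (E.pl (.var 0) 8 l60a) (.mul (.var 1) (E.pl (.var 0) 58 l60b))) := rfl
  rw [e, E.val, E.val, E.val, KE.gL_val, E.pl_val, E.pl_val, K23.e0_val, K23.e1_val, E.val, KE.tL_val,
    K23.e0_val, K23.e1_val]
  norm_num

theorem a20_val : a20.val [x, T, y, w] = plR x (90) l20 := by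
  unfold a20
  rw [E.pl_val, K23.e0_val]

theorem a25_val : a25.val [x, T, y, w] = plR x (-65) l25 := by
  unfold a25
  rw [E.pl_val, K23.e0_val]

theorem a30_val : a30.val [x, T, y, w] = plR x (-87) l30 := by
  unfold a30
  rw [E.pl_val, K23.e0_val]

theorem a35_val : a35.val [x, T, y, w] = plR x (-92) l35 := by
  unfold a35
  rw [E.pl_val, K23.e0_val]

theorem a40_val : a40.val [x, T, y, w] = plR x (-112) l40 := by
  unfold a40
  rw [E.pl_val, K23.e0_val]

theorem c20 : (E.c 2000).val [x, T, y, w] = 2 / 10 := by norm_num [E.val, E.c]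
theorem c25 : (E.c 2500).val [x, T, y, w] = 25 / 100 := by norm_num [E.val, E.c]
theorem c30 : (E.c 3000).val [x, T, y, w] = 3 / 10 := by norm_num [E.val, E.c]
theorem c35 : (E.c 3500).val [x, T, y, w] = 35 / 100 := by norm_num [E.val, E.c]
theorem c40 : (E.c 4000).val [x, T, y, w] = 4 / 10 := by norm_num [E.val, E.c]
theorem c45 : (E.c 4500).val [x, T, y, w] = 45 / 100 := by norm_num [E.val, E.c]
theorem c60 : (E.c 6000).val [x, T, y, w] = 6 / 10 := by norm_num [E.val, E.c]

theorem t1 : (E.var 1).val [x, T, y, w] = T := rfl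
theorem t35 : (E.mul (.q 5 6) (.var 1)).val [x, T, y, w] = T * (5 / 6) := by
  rw [E.val, K23.e1_val]
  norm_num [E.val]
  ring
theorem t40 : (E.mul (.q 2 3) (.var 1)).val [x, T, y, w] = T * (2 / 3) := by
  rw [E.val, K23.e1_val]
  norm_num [E.val]
  ring
theorem nu_val : (E.neg tu).val [x, T, y, w] = -(16 / 100 * K23.τl y) := by
  rw [E.val, tu_val]

end KJ3

end Pool.Agent.Work.MP_b30479_gt.G2
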