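import Pool.Agent.Work.MP_b30479_gt.G2.WM_in3D
import Pool.Agent.Work.MP_b30479_gt.G2.RngR
import Pool.Agent.Work.MP_b30479_gt.G2.WLocA
import Pool.Agent.Work.MP_b30479_gt.G2.WMMF

/-!
# Mirrored paths, inner variable of an interior `3`: the moves

The inner variable `l` of the `3` is on its upper mirrored path at `x`.  `In3.W`: what is gained on
the right side (and in the value `V2 (l, w)` with the penalty) if `l` is moved to `c` on the main
path; `In3.keep`, `In3.resp`: the resulting inequalities with the hinge in the slot `0` kept or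
moved to `1/5`; `In3.flip`: the vertical move.
-/

namespace Pool.Agent.Work.MP_b30479_gt.G2

open Finset VOL Filter Topology

namespace IT

open NumG

/-- ramp function of the inner variable -/
noncomputable def tau3 (x : ℝ) : ℝ := tr 0 (8 / 10) (5 / 100) (5 / 100) x

theorem tau3_mem (x : ℝ) : 0 ≤ tau3 x ∧ tau3 x ≤ 1 := SR.tr_mem _ _ _ _ _

theorem tau3_flat {x : ℝ} (h0 : 5 / 100 ≤ x) (h1 : x ≤ 75 / 100) : tau3 x = 1 := by
  unfold tau3 tr
  rw [sub_zero, min_eq_left (le_min ((one_le_div (by norm_num)).2 h0)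
    ((one_le_div (by norm_num)).2 (by linarith only [h1])))]
  norm_num

theorem tl_val (x : ℝ) (xs : List ℝ) : tl.val (x :: xs) = tau3 x := by
  unfold tl vx tau3
  rw [E.tr_val (by norm_num) (by norm_num) (by norm_num)]
  have e0 : (E.var 0).val (x :: xs) = x := rfl
  rw [e0]
  norm_num

theorem cc_val (n : ℤ) (xs : List ℝ) : (cc n).val xs = (n : ℝ) / 1000 := by
  unfold cc E.val
  push_cast
  rfl

theorem th_val (x : ℝ) (xs : List ℝ) : th.val (x :: xs) = 16 / 100 * tau3 x := by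
  unfold th
  simp only [E.val, cc_val, tl_val]
  push_cast
  rw [show (160 : ℝ) / 1000 = 16 / 100 by norm_num]

theorem pen_val (x : ℝ) (xs : List ℝ) : pen.val (x :: xs) = 2 * Real.pi * (16 / 100 * tau3 x) := by
  unfold pen
  simp only [E.val, cc_val, tl_val]
  push_cast
  ring

/-- a wider trapezoid -/
theorem tr_hull {X cl cr X' cl' cr' : ℝ} (hl : 0 < cl') (hr : 0 < cr') (h1 : cl' ≤ cl)
    (h2 : X ≤ X') (h3 : cr' ≤ cr + (X' - X)) (hcr : 0 < cr) (y : ℝ) :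
    tr 0 X cl cr y ≤ tr 0 X' cl' cr' y := by
  have hcl : 0 < cl := hl.trans_le h1
  unfold tr
  rw [sub_zero]
  refine max_le (le_max_left _ _) ?_
  by_cases hy : y < 0
  · refine le_trans ?_ (le_max_left _ _)
    exact (min_le_right _ _).trans ((min_le_left _ _).trans (div_nonpos_of_nonpos_of_nonneg hy.le hcl.le))
  by_cases hy2 : X < y
  · refine le_trans ?_ (le_max_left _ _)
    exact (min_le_right _ _).trans ((min_le_right _ _).trans
      (div_nonpos_of_nonpos_of_nonneg (by linarith only [hy2]) hcr.le))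
  push Not at hy hy2
  refine le_trans ?_ (le_max_right _ _)
  refine le_min (min_le_left _ _) (le_min ?_ ?_)
  · refine (min_le_right _ _).trans ((min_le_left _ _).trans ?_)
    exact div_le_div_of_nonneg_left hy hl h1
  · -- right ramp
    rw [le_div_iff₀ hr]
    rcases le_total ((X - y) / cr) 1 with hc | hc
    · have h4 : min 1 (min (y / cl) ((X - y) / cr)) ≤ (X - y) / cr :=
        (min_le_right _ _).trans (min_le_right _ _)
      have h5 : 0 ≤ (X - y) / cr := div_nonneg (by linarith only [hy2]) hcr.le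
      have h6 : (X - y) / cr * cr = X - y := div_mul_cancel₀ _ hcr.ne'
      have h7 := mul_le_mul_of_nonneg_right h4 hr.le
      have h8 := mul_le_mul_of_nonneg_left h3 h5
      have h9 : (X - y) / cr * (X' - X) ≤ 1 * (X' - X) :=
        mul_le_mul_of_nonneg_right hc (by linarith only [h2])
      linarith only [h6, h7, h8, h9]
    · have h4 : min 1 (min (y / cl) ((X - y) / cr)) ≤ 1 := min_le_left _ _
      have h6 : cr ≤ X - y := by rwa [one_le_div hcr] at hc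
      have h7 := mul_le_mul_of_nonneg_right h4 hr.le
      linarith only [h3, h6, h7]

/-- a height on a smaller trapezoid -/
theorem par_hull {T τ1 τ2 t0 t1 : ℝ} (h0 : 0 ≤ τ1) (h1 : τ1 ≤ τ2) (ht0 : t0 ≤ 0) (ht1 : 0 ≤ t1)
    (hT0 : t0 ≤ T) (hT1 : T ≤ t1) : ∃ θ, t0 ≤ θ ∧ θ ≤ t1 ∧ T * τ1 = θ * τ2 := by
  rcases eq_or_lt_of_le (h0.trans h1) with h2 | h2
  · refine ⟨0, ht0, ht1, ?_⟩
    have h3 : τ1 = 0 := le_antisymm (h1.trans h2.symm.le) h0
    rw [h3, mul_zero, zero_mul]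
  · have h3 : τ1 / τ2 ≤ 1 := (div_le_one h2).2 h1
    have h4 : 0 ≤ τ1 / τ2 := div_nonneg h0 h2.le
    refine ⟨T * (τ1 / τ2), ?_, ?_, ?_⟩
    · rcases le_total 0 T with h5 | h5
      · exact ht0.trans (mul_nonneg h5 h4)
      · have := mul_le_mul_of_nonpos_left h3 h5
        linarith only [hT0, this]
    · rcases le_total 0 T with h5 | h5
      · have := mul_le_mul_of_nonneg_left h3 h5
        linarith only [hT1, this]
      · exact (mul_nonpos_of_nonpos_of_nonneg h5 h4).trans ht1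
    · rw [mul_assoc, div_mul_cancel₀ _ h2.ne']

end IT

namespace SR

open IT NumG

variable {M : ℕ} {b : Fin (M + 1) → ℤ} {zs : DD (tyW b) ⊕ ZZ (tyW b) → ℂ}
variable {R : Finset (DD (tyW b))} {nb : Finset (DD (tyW b) ⊕ ZZ (tyW b))}
variable {z : DD (tyW b) ⊕ ZZ (tyW b) → ℂ} {p : DD (tyW b) → ℝ}
variable {m : {i : Fin (M + 1) // (tyW b i).isMid = true}} {h0 h2 : Fin M} {j0 j2 : Fin (M + 1)}
variable {x : ℝ}

/-- **The inner variable of an interior `3` on its upper mirrored path**, the hinges of the region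
without penalty. -/
structure In3 (b : Fin (M + 1) → ℤ) (zs : DD (tyW b) ⊕ ZZ (tyW b) → ℂ) (R : Finset (DD (tyW b)))
    (nb : Finset (DD (tyW b) ⊕ ZZ (tyW b))) (z : DD (tyW b) ⊕ ZZ (tyW b) → ℂ)
    (p : DD (tyW b) → ℝ) (m : {i : Fin (M + 1) // (tyW b i).isMid = true}) (h0 h2 : Fin M)
    (j0 j2 : Fin (M + 1)) (x : ℝ) : Prop where
  hb : ClassW b
  L : LocA b zs
  N : NbT b R nb
  Mx : MM b zs R nb z p
  c : clsW b m.1 = .three
  nn : Sum.inl (Sum.inr m) ∉ nb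
  hq : ∀ h : Fin M, RH1 b (.inl h) → p (.inl h) = 0
  hA : ∀ (h : Fin M) (s : Fin 3) (j : Fin (M + 1)), Adj h m.1 s j → p (.inl h) = 0
  hB : ∀ (h : Fin M) (i j : Fin (M + 1)), Adj h i 0 j →
    p (.inl h) = 0 ∨ (clsW b i = .one ∧ clsW b j = .three)
  A0 : Adj h0 m.1 0 j0
  A2 : Adj h2 m.1 2 j2
  x0 : 0 < x
  x1 : x < 8 / 10
  T0 : Tm b zs m ≤ 0
  own : Ow b z m.1 1 = ⟨x, 16 / 100 * tau3 x⟩
  pm : p (.inr m) = 16 / 100 * tau3 x

theorem tgi_i3 (m : {i : Fin (M + 1) // (tyW b i).isMid = true}) (hc : clsW b m.1 = .three)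
    (y : ℝ) : tgi b zs m y = ⟨y, Tm b zs m * tau3 y⟩ := by
  unfold tgi Tm tau3
  rw [hc]
  rfl

theorem not_tch_of (hN : NbT b R nb) (A : Adj h0 m.1 0 j0) (hc : clsW b m.1 = .three)
    (hn : Sum.inl (Sum.inr m) ∉ nb) : ¬ Tch b R m.1 := by
  intro ht
  exact hn (hN.mem ht (q := 1) (by simp [cf]))

/-- **Gain of the right side**, the inner variable moved to `c`. -/
def In3.W (_ : In3 b zs R nb z p m h0 h2 j0 j2 x) (c β : ℝ) : Prop :=
  ∃ X2 f2, FarG b zs nb z p h2 j2 X2 f2 ∧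
    β ≤ V2 ⟨c, Tm b zs m⟩ (ofr (b m.1) X2) - V2 (Ow b z m.1 1) (Ow b z m.1 2) + f2 -
      UU (Ow b z m.1 1) + 2 * Real.pi * p (.inr m)

variable (S : In3 b zs R nb z p m h0 h2 j0 j2 x)
include S

theorem In3.keep {c β : ℝ} (hW : S.W c β) (c0 : 5 / 100 ≤ c) (c1 : c ≤ 75 / 100) :
    vA (Ow b z m.1 0) ⟨c, Tm b zs m⟩ - vA (Ow b z m.1 0) (Ow b z m.1 1) +
      UU (Ow b z m.1 1) + β ≤ 0 := by
  obtain ⟨X2, f2, F, hβ⟩ := hW
  have h1 := S.Mx.inner3 S.hb S.N.ok.1 m S.A0 S.A2 S.c S.nn (c' := c) (by linarith only [c0])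
    (by linarith only [c1]) F
  rw [tgi_i3 m S.c, tau3_flat c0 c1, mul_one, V3_vA, V3_vA (Ow b z m.1 0) (Ow b z m.1 1)] at h1
  linarith only [hβ, h1]

theorem In3.flip : V3 (Ow b z m.1 0) ⟨x, Tm b zs m * tau3 x⟩ (Ow b z m.1 2) -
    V3 (Ow b z m.1 0) ⟨x, 16 / 100 * tau3 x⟩ (Ow b z m.1 2) +
      2 * Real.pi * (16 / 100 * tau3 x) ≤ 0 := by
  have h1 := S.Mx.inner3 S.hb S.N.ok.1 m S.A0 S.A2 S.c S.nn (c' := x) S.x0.le
    (by linarith only [S, S.x1]) (FarG.keep h2 j2)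
  rw [tgi_i3 m S.c, ofr_z S.A2, S.own, S.pm] at h1
  linarith only [h1]

/-- ramp of the hinge in the slot `0` -/
theorem In3.par0 : 65 / 100 ≥ wXM b h0 ∧ 6 / 10 ≤ wXM b h0 ∧
    (wcl b h0 = 12 / 100 ∨ wcl b h0 = 13 / 100) ∧ 15 / 100 ≤ wcr b h0 ∧
    wcr b h0 + (65 / 100 - wXM b h0) ≥ 15 / 100 ∧
    (clsW b j0 = .one → wXM b h0 = 65 / 100 ∧ wcl b h0 = 13 / 100 ∧ wcr b h0 = 15 / 100) ∧
    (clsW b j0 = .two → wXM b h0 = 6 / 10 ∧ wcl b h0 = 12 / 100 ∧ wcr b h0 = 27 / 100) ∧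
    (clsW b j0 = .three → wXM b h0 = 6 / 10 ∧ wcl b h0 = 13 / 100 ∧ wcr b h0 = 3 / 10) ∧
    (clsW b j0 = .twoE ∨ clsW b j0 = .threeE ∨ clsW b j0 = .ring →
      wXM b h0 = 6 / 10 ∧ wcl b h0 = 12 / 100 ∧ wcr b h0 = 3 / 10) := by
  have A := S.A0
  have hc := S.c
  unfold wXM wcl wcr
  generalize hi : m.1 = i at A hc
  cases A
  rw [hc]
  rcases h1 : clsW b h0.castSucc <;> simp only [hp, hp1] <;> norm_num <;> decide

/-- ramp of the hinge in the slot `2` -/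
theorem In3.par2 : (clsW b j2 = .one → wXM b h2 = 65 / 100 ∧ wcl b h2 = 15 / 100 ∧
    wcr b h2 = 29 / 100) ∧
    (clsW b j2 ≠ .one → wXM b h2 = 6 / 10 ∧ wcl b h2 = 13 / 100 ∧ wcr b h2 = 3 / 10) := by
  have A := S.A2
  have hc := S.c
  unfold wXM wcl wcr
  generalize hi : m.1 = i at A hc
  cases A
  rw [hc]
  rcases h1 : clsW b h2.succ <;> simp only [hp] <;> norm_num <;> decide

theorem In3.trh15 : trh b h0 (1 / 5) = 1 := by
  obtain ⟨a1, a2, a3, a4, a5, a6, a7, a8, a9⟩ := S.par0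
  have hl : 0 < wcl b h0 := wcl_pos h0
  have hr : 0 < wcr b h0 := wcr_pos h0
  have h1 : wcl b h0 ≤ 1 / 5 := by rcases a3 with h | h <;> rw [h] <;> norm_num
  have h2 : wcr b h0 ≤ wXM b h0 - 1 / 5 := by
    rcases hc : clsW b j0 with _ | _ | _ | _ | _ | _
    · obtain ⟨e1, -, e3⟩ := a6 hc; rw [e1, e3]; norm_num
    · obtain ⟨e1, -, e3⟩ := a7 hc; rw [e1, e3]; norm_num
    · obtain ⟨e1, -, e3⟩ := a9 (Or.inl hc); rw [e1, e3]; norm_num
    · obtain ⟨e1, -, e3⟩ := a8 hc; rw [e1, e3]; norm_num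
    · obtain ⟨e1, -, e3⟩ := a9 (Or.inr (Or.inl hc)); rw [e1, e3]; norm_num
    · obtain ⟨e1, -, e3⟩ := a9 (Or.inr (Or.inr hc)); rw [e1, e3]; norm_num
  unfold trh tr
  rw [sub_zero, min_eq_left (le_min ((one_le_div hl).2 h1) ((one_le_div hr).2 h2))]
  norm_num

theorem In3.resp {c β g : ℝ} (hW : S.W c β) (c0 : 5 / 100 ≤ c) (c1 : c ≤ 75 / 100)
    (hn0 : Sum.inl (Sum.inl h0) ∉ nb) (G : SideG b zs nb z p h0 j0 (tg b zs h0 (1 / 5)) g) :
    vA ⟨1 / 5, Th b zs h0 m.1⟩ ⟨c, Tm b zs m⟩ - vA (Ow b z m.1 0) (Ow b z m.1 1) +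
      UU (Ow b z m.1 1) + β + g ≤ 0 := by
  obtain ⟨X2, f2, F, hβ⟩ := hW
  have a2 := S.par0.2.1
  have h1 := S.Mx.inner3b S.hb S.N.ok.1 m S.A0 S.A2 S.c S.nn (c' := c) (by linarith only [c0])
    (by linarith only [c1]) hn0 (c0 := 1 / 5) (by norm_num) (by linarith only [a2]) G F
  have e : tgo b zs h0 m.1 (1 / 5) = ⟨1 / 5, Th b zs h0 m.1⟩ := by
    unfold tgo
    rw [S.trh15, mul_one]
  rw [tgi_i3 m S.c, tau3_flat c0 c1, mul_one, e, V3_vA, V3_vA (Ow b z m.1 0) (Ow b z m.1 1),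
    S.hA h0 0 j0 S.A0] at h1
  linarith only [hβ, h1]

end SR

end Pool.Agent.Work.MP_b30479_gt.G2
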