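import Pool.Agent.Work.MP_b30479_gt.G2.WM_in3V
import Pool.Agent.Work.MP_b30479_gt.G2.WM_in3A

/-!
# Mirrored paths, inner variable of an interior `3`: the left side
-/

namespace Pool.Agent.Work.MP_b30479_gt.G2

open Finset VOL Filter Topology

namespace IT

open NumG

theorem ke_val {t : E} {q : ℤ × E} {x T a θ : ℝ} (hq : bl 2 q.2 = true) :
    (ke t q).val [x, T, a, θ] =
      vA ⟨a, t.val [x, T, a, θ]⟩ ⟨(q.1 : ℝ) / 1000, T⟩ -
      vA ⟨a, t.val [x, T, a, θ]⟩ ⟨x, 16 / 100 * tau3 x⟩ + UU ⟨x, 16 / 100 * tau3 x⟩ +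
      bv q.2 x T := by
  have e1 : (ke t q).val [x, T, a, θ] = (kp (.var 2) t (cc q.1) vT vx th).val [x, T, a, θ] +
      q.2.val [x, T, a, θ] := rfl
  rw [e1, kp_val, bv_eq hq, cc_val, th_val]
  rfl

theorem re_val {t ph : E} {q : ℤ × E} {x T a θ : ℝ} (hq : bl 2 q.2 = true) :
    (re t ph q).val [x, T, a, θ] =
      vA ⟨1 / 5, θ⟩ ⟨(q.1 : ℝ) / 1000, T⟩ -
      vA ⟨a, t.val [x, T, a, θ]⟩ ⟨x, 16 / 100 * tau3 x⟩ + UU ⟨x, 16 / 100 * tau3 x⟩ +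
      bv q.2 x T + ph.val [x, T, a, θ] := by
  have e1 : (re t ph q).val [x, T, a, θ] = (va (cc 200) (.var 3) (cc q.1) vT).val [x, T, a, θ] -
      (vb (.var 2) t vx th).val [x, T, a, θ] + q.2.val [x, T, a, θ] + ph.val [x, T, a, θ] := rfl
  rw [e1, va_val, vb_val, bv_eq hq, cc_val, cc_val, th_val]
  have e2 : (((200 : ℤ) : ℝ) / 1000) = 1 / 5 := by norm_num
  rw [e2]
  have a0 : (vx).val [x, T, a, θ] = x := rfl
  have a1 : (vT).val [x, T, a, θ] = T := rfl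
  have a2 : (E.var 2).val [x, T, a, θ] = a := rfl
  have a3 : (E.var 3).val [x, T, a, θ] = θ := rfl
  rw [a0, a1, a2, a3]
  ring

theorem win_neg {s0 s1 : ℤ} {x T a θ : ℝ} (h0 : (s0 : ℝ) / 10000 ≤ T - θ)
    (h1 : T - θ ≤ (s1 : ℝ) / 10000) : ∀ e ∈ win s0 s1, e.val [x, T, a, θ] ≤ 0 := by
  intro e he
  unfold win at he
  simp only [List.mem_cons, List.not_mem_nil, or_false] at he
  have a1 : (vT).val [x, T, a, θ] = T := rfl
  have a3 : (E.var 3).val [x, T, a, θ] = θ := rfl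
  rcases he with rfl | rfl
  · show (vT).val [x, T, a, θ] - (E.var 3).val [x, T, a, θ] - (s1 : ℝ) / ((10000 : ℕ) : ℝ) ≤ 0
    rw [a1, a3]
    push_cast
    linarith only [h1]
  · show (s0 : ℝ) / ((10000 : ℕ) : ℝ) - ((vT).val [x, T, a, θ] - (E.var 3).val [x, T, a, θ]) ≤ 0
    rw [a1, a3]
    push_cast
    linarith only [h0]

theorem ta_val {X : ℤ} {cl cr : ℕ} (hl : 0 < cl) (hr : 0 < cr) (hs : (cl : ℤ) + cr ≤ X)
    {x T a θ : ℝ} : (ta X cl cr).val [x, T, a, θ] =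
      θ * tr 0 ((X : ℝ) / 1000) ((cl : ℝ) / 1000) ((cr : ℝ) / 1000) a := by
  have e1 : (ta X cl cr).val [x, T, a, θ] = θ * (E.tr X cl cr (.var 2)).val [x, T, a, θ] := rfl
  rw [e1, E.tr_val hl hr hs]
  rfl

/-- conditions on the menu of targets -/
def Mn (cs : List (ℤ × E)) : Prop := ∀ q ∈ cs, 50 ≤ q.1 ∧ q.1 ≤ 750 ∧ bl 2 q.2 = true

/-- the check of a menu -/
def mnB (cs : List (ℤ × E)) : Bool :=
  cs.all fun q => decide (50 ≤ q.1) && (decide (q.1 ≤ 750) && bl 2 q.2)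

theorem Mn.of {cs : List (ℤ × E)} (h : mnB cs = true) : Mn cs := by
  intro q hq
  unfold mnB at h
  rw [List.all_eq_true] at h
  have h1 := h q hq
  simp only [Bool.and_eq_true, decide_eq_true_eq] at h1
  exact ⟨h1.1, h1.2.1, h1.2.2⟩

theorem mn_ch : Mn ch := Mn.of (by decide +kernel)
theorem mn_ch0 : Mn ch0 := Mn.of (by decide +kernel)
theorem mn_cl : Mn cl := Mn.of (by decide +kernel)
theorem mn_cx : Mn cx := Mn.of (by decide +kernel)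
theorem mn_m : Mn [(200, m20)] := Mn.of (by decide +kernel)
theorem mn_n : Mn [(200, n20)] := Mn.of (by decide +kernel)

end IT

namespace SR

open IT NumG

variable {M : ℕ} {b : Fin (M + 1) → ℤ} {zs : DD (tyW b) ⊕ ZZ (tyW b) → ℂ}
variable {R : Finset (DD (tyW b))} {nb : Finset (DD (tyW b) ⊕ ZZ (tyW b))}
variable {z : DD (tyW b) ⊕ ZZ (tyW b) → ℂ} {p : DD (tyW b) → ℝ}
variable {m : {i : Fin (M + 1) // (tyW b i).isMid = true}} {h0 h2 : Fin M} {j0 j2 : Fin (M + 1)}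
variable {x : ℝ}

variable (S : In3 b zs R nb z p m h0 h2 j0 j2 x)
include S

/-- the gains of the right side for a menu -/
def In3.WW (cs : List (ℤ × E)) : Prop :=
  ∀ q ∈ cs, S.W ((q.1 : ℝ) / 1000) (bv q.2 x (Tm b zs m))

theorem In3.keepq {q : ℤ × E} {cs : List (ℤ × E)} (hc : Mn cs) (hW : S.WW cs) (hq : q ∈ cs)
    {t : E} {a θ : ℝ} (hu : Ow b z m.1 0 = ⟨a, t.val [x, Tm b zs m, a, θ]⟩) :
    (ke t q).val [x, Tm b zs m, a, θ] ≤ 0 := by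
  obtain ⟨c1, c2, c3⟩ := hc q hq
  have c1' : (50 : ℝ) ≤ q.1 := by exact_mod_cast c1
  have c2' : (q.1 : ℝ) ≤ 750 := by exact_mod_cast c2
  have h1 := S.keep (hW q hq) (by linarith only [c1']) (by linarith only [c2'])
  rw [hu, S.own] at h1
  rw [ke_val c3]
  linarith only [h1]

theorem In3.respq {q : ℤ × E} {cs : List (ℤ × E)} (hc : Mn cs) (hW : S.WW cs) (hq : q ∈ cs)
    {t ph : E} {a θ : ℝ} (hu : Ow b z m.1 0 = ⟨a, t.val [x, Tm b zs m, a, θ]⟩)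
    (hn0 : Sum.inl (Sum.inl h0) ∉ nb) (hθ : Th b zs h0 m.1 = θ)
    (G : SideG b zs nb z p h0 j0 (tg b zs h0 (1 / 5)) (ph.val [x, Tm b zs m, a, θ])) :
    (re t ph q).val [x, Tm b zs m, a, θ] ≤ 0 := by
  obtain ⟨c1, c2, c3⟩ := hc q hq
  have c1' : (50 : ℝ) ≤ q.1 := by exact_mod_cast c1
  have c2' : (q.1 : ℝ) ≤ 750 := by exact_mod_cast c2
  have h1 := S.resp (hW q hq) (by linarith only [c1']) (by linarith only [c2']) hn0 G
  rw [hu, S.own, hθ] at h1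
  rw [re_val c3]
  linarith only [h1]

/-- contradiction, the hinge in the slot `0` is kept -/
theorem In3.kill {cs : List (ℤ × E)} (hc : Mn cs) (hW : S.WW cs) {t : E} {ex : List E}
    {s0 s1 : ℤ} {a θ : ℝ} (hu : Ow b z m.1 0 = ⟨a, t.val [x, Tm b zs m, a, θ]⟩)
    (hex : ∀ e ∈ ex, e.val [x, Tm b zs m, a, θ] ≤ 0) (hs0 : (s0 : ℝ) / 10000 ≤ Tm b zs m - θ)
    (hs1 : Tm b zs m - θ ≤ (s1 : ℝ) / 10000)
    (h : ∃ e ∈ eK cs t ex s0 s1, 0 < e.val [x, Tm b zs m, a, θ]) : False := by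
  obtain ⟨e, he, hv⟩ := h
  unfold eK at he
  simp only [List.mem_append, List.mem_map] at he
  rcases he with (⟨q, hq, rfl⟩ | he) | he
  · exact absurd hv (not_lt.2 (S.keepq hc hW hq hu))
  · exact absurd hv (not_lt.2 (hex e he))
  · exact absurd hv (not_lt.2 (win_neg hs0 hs1 e he))

/-- contradiction, the hinge in the slot `0` is kept or moved to `1/5` -/
theorem In3.killR {cs : List (ℤ × E)} (hc : Mn cs) (hW : S.WW cs) {t ph : E} {ex : List E}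
    {s0 s1 : ℤ} {a θ : ℝ} (hu : Ow b z m.1 0 = ⟨a, t.val [x, Tm b zs m, a, θ]⟩)
    (hn0 : Sum.inl (Sum.inl h0) ∉ nb) (hθ : Th b zs h0 m.1 = θ)
    (G : SideG b zs nb z p h0 j0 (tg b zs h0 (1 / 5)) (ph.val [x, Tm b zs m, a, θ]))
    (hex : ∀ e ∈ ex, e.val [x, Tm b zs m, a, θ] ≤ 0) (hs0 : (s0 : ℝ) / 10000 ≤ Tm b zs m - θ)
    (hs1 : Tm b zs m - θ ≤ (s1 : ℝ) / 10000)
    (h : ∃ e ∈ IT.eR cs t ph ex s0 s1, 0 < e.val [x, Tm b zs m, a, θ]) : False := by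
  obtain ⟨e, he, hv⟩ := h
  unfold IT.eR at he
  simp only [List.mem_append, List.mem_map] at he
  rcases he with ((⟨q, hq, rfl⟩ | ⟨q, hq, rfl⟩) | he) | he
  · exact absurd hv (not_lt.2 (S.keepq hc hW hq hu))
  · exact absurd hv (not_lt.2 (S.respq hc hW hq hu hn0 hθ G))
  · exact absurd hv (not_lt.2 (hex e he))
  · exact absurd hv (not_lt.2 (win_neg hs0 hs1 e he))

/-- **A family of rows** -/
theorem In3.fam {X : ℤ} {cl' cr : ℕ} (hl : 0 < cl') (hr : 0 < cr) (hs : (cl' : ℤ) + cr ≤ X)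
    {ph : E} {s0 s1 : ℤ} {l0 l1 u0 u1 : ℝ}
    (ra : Rw (eK ch (ta X cl' cr) [flR] s0 s1) 0 (8000 / 10000) l0 l1 0 (2000 / 10000) u0 u1)
    (rb : Rw (IT.eR ch (ta X cl' cr) ph [flR] s0 s1) 0 (8000 / 10000) l0 l1 (2000 / 10000)
      ((X : ℝ) / 1000) u0 u1)
    (rc : Rw (eK cl (ta X cl' cr) [] s0 s1) 0 (200 / 10000) l0 l1 0 (2000 / 10000) u0 u1)
    (rd : Rw (IT.eR cl (ta X cl' cr) ph [] s0 s1) 0 (200 / 10000) l0 l1 (2000 / 10000)
      ((X : ℝ) / 1000) u0 u1)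
    (wh : 2 / 100 ≤ x ∨ 1 / 10 ≤ (Ow b z m.1 2).re → S.WW ch)
    (wl : x ≤ 2 / 100 → (Ow b z m.1 2).re ≤ 1 / 10 → S.WW cl)
    {a : ℝ} (a0 : 0 ≤ a) (a1 : a ≤ (X : ℝ) / 1000)
    (hu : Ow b z m.1 0 = ⟨a, Th b zs h0 m.1 *
      tr 0 ((X : ℝ) / 1000) ((cl' : ℝ) / 1000) ((cr : ℝ) / 1000) a⟩)
    (hn0 : Sum.inl (Sum.inl h0) ∉ nb) (T0 : l0 ≤ Tm b zs m) (T1 : Tm b zs m ≤ l1)
    (U0 : u0 ≤ Th b zs h0 m.1) (U1 : Th b zs h0 m.1 ≤ u1)
    (hs0 : (s0 : ℝ) / 10000 ≤ Tm b zs m - Th b zs h0 m.1)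
    (hs1 : Tm b zs m - Th b zs h0 m.1 ≤ (s1 : ℝ) / 10000)
    (G : 1 / 5 ≤ a → SideG b zs nb z p h0 j0 (tg b zs h0 (1 / 5))
      (ph.val [x, Tm b zs m, a, Th b zs h0 m.1]))
    (hf : flR.val [x, Tm b zs m, a, Th b zs h0 m.1] ≤ 0) : False := by
  have x0 := S.x0.le
  have x1 := S.x1.le
  have hu' : Ow b z m.1 0 = ⟨a, (ta X cl' cr).val [x, Tm b zs m, a, Th b zs h0 m.1]⟩ := by
    rw [ta_val hl hr hs]
    exact hu
  have hex : ∀ e ∈ [flR], e.val [x, Tm b zs m, a, Th b zs h0 m.1] ≤ 0 := by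
    intro e he
    rw [List.mem_singleton] at he
    rw [he]
    exact hf
  have hex0 : ∀ e ∈ ([] : List E), e.val [x, Tm b zs m, a, Th b zs h0 m.1] ≤ 0 := by
    intro e he
    exact absurd he (List.not_mem_nil)
  by_cases hd : 2 / 100 ≤ x ∨ 1 / 10 ≤ (Ow b z m.1 2).re
  · rcases le_total a (1 / 5) with h5 | h5
    · exact S.kill mn_ch (wh hd) hu' hex hs0 hs1
        (ra x0 (by linarith only [x1]) T0 T1 a0 (by linarith only [h5]) U0 U1)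
    · exact S.killR mn_ch (wh hd) hu' hn0 rfl (G h5) hex hs0 hs1
        (rb x0 (by linarith only [x1]) T0 T1 (by linarith only [h5]) a1 U0 U1)
  · push Not at hd
    have w := wl hd.1.le hd.2.le
    rcases le_total a (1 / 5) with h5 | h5
    · exact S.kill mn_cl w hu' hex0 hs0 hs1
        (rc x0 (by linarith only [hd]) T0 T1 a0 (by linarith only [h5]) U0 U1)
    · exact S.killR mn_cl w hu' hn0 rfl (G h5) hex0 hs0 hs1
        (rd x0 (by linarith only [hd]) T0 T1 (by linarith only [h5]) a1 U0 U1)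

end SR

end Pool.Agent.Work.MP_b30479_gt.G2
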