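import Pool.Agent.Work.MP_b30479_gt.G2.WM_in3Sa
import Pool.Agent.Work.MP_b30479_gt.G2.WM_in3Sb
import Pool.Agent.Work.MP_b30479_gt.G2.WM_in3Sc
import Pool.Agent.Work.MP_b30479_gt.G2.WM_in3Se
import Pool.Agent.Work.MP_b30479_gt.G2.WM_in3Sf

/-!
# The far sides of the neighbours of an interior `3`: inequalities

`a`, `T`: position and height of the saddle point of the hinge with the `3` (frame of the
neighbour), `y`, `κ`: position and height of the other variable.
-/

namespace Pool.Agent.Work.MP_b30479_gt.G2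

open Finset VOL Filter Topology

namespace I3S

open NumG
open NumU (uu UU_uu)

theorem v0 (x y z w : ℝ) : NumI.lkR [x, y, z, w] 0 = x := rfl
theorem v1 (x y z w : ℝ) : NumI.lkR [x, y, z, w] 1 = y := rfl
theorem v2 (x y z w : ℝ) : NumI.lkR [x, y, z, w] 2 = z := rfl
theorem v3 (x y z w : ℝ) : NumI.lkR [x, y, z, w] 3 = w := rfl

theorem dV1_val {x' t' x t y k : E} {xs : List ℝ} : (dV1 x' t' x t y k).val xs =
    V1 ⟨x'.val xs, t'.val xs⟩ ⟨y.val xs, k.val xs⟩ - V1 ⟨x.val xs, t.val xs⟩ ⟨y.val xs, k.val xs⟩ := by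
  unfold MP_b30479_gt.G2.V1
  simp only [dV1, cc, E.val, UU_uu, Complex.add_re, Complex.add_im, Complex.sub_im, Complex.mul_im]
  push_cast
  ring

theorem dV2x_val {x' t' x t y k : E} {xs : List ℝ} : (dV2x x' t' x t y k).val xs =
    V2 ⟨x'.val xs, t'.val xs⟩ ⟨y.val xs, k.val xs⟩ - V2 ⟨x.val xs, t.val xs⟩ ⟨y.val xs, k.val xs⟩ := by
  unfold MP_b30479_gt.G2.V2
  simp only [dV2x, E.val, UU_uu, Complex.add_re, Complex.add_im, Complex.sub_im, Complex.sub_re,
    Complex.mul_im, pow_two]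
  push_cast
  ring

theorem dVaU_val {x' t' x t y s : E} {xs : List ℝ} : (dVaU x' t' x t y s).val xs =
    V3 ⟨x'.val xs, t'.val xs⟩ ⟨y.val xs, s.val xs⟩ 0 -
      V3 ⟨x.val xs, t.val xs⟩ ⟨y.val xs, s.val xs⟩ 0 := by
  unfold MP_b30479_gt.G2.V3
  simp only [dVaU, E.val, UU_uu, Complex.add_im, Complex.sub_im, Complex.sub_re,
    Complex.mul_im, pow_two, add_zero, sub_zero, Complex.mul_re, Complex.re_ofNat,
    Complex.im_ofNat]
  ring

theorem dV2x_three {x' x y u : ℂ} : V3 u y x' - V3 u y x = V2 x' y - V2 x y := by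
  unfold V3 V2
  rw [add_comm x' y, add_comm x y]
  simp only [Complex.sub_im, Complex.add_im, Complex.mul_im, pow_two, Complex.sub_re,
    Complex.mul_re, Complex.re_ofNat, Complex.im_ofNat]
  ring

section num
variable {a T y κ : ℝ}

theorem nQ1 (a0 : 1 / 5 ≤ a) (a1 : a ≤ 65 / 100) (T0 : 241 / 10000 ≤ T) (T1 : T ≤ 802 / 10000)
    (y0 : 0 ≤ y) (y1 : y ≤ 86 / 100) (k0 : -(91 / 1000) ≤ κ) (k1 : κ ≤ 49 / 1000)
    (s0 : -(22 / 1000) ≤ T + κ) (s1 : T + κ ≤ 111 / 1000) :
    plR a (-30) lQ1 ≤ V1 ⟨1 / 5, T⟩ ⟨y, κ * tr 0 (86 / 100) (15 / 100) (20 / 100) y⟩ -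
      V1 ⟨a, T * tr 0 (65 / 100) (13 / 100) (15 / 100) a⟩
        ⟨y, κ * tr 0 (86 / 100) (15 / 100) (20 / 100) y⟩ := by
  obtain ⟨f, hf, hp⟩ := chkF4 rQ1 (by norm_num) (x := a) (y := T) (z := y) (w := κ)
    (by push_cast; linarith only [a0]) (by push_cast; linarith only [a1]) (by push_cast; linarith only [T0])
    (by push_cast; linarith only [T1]) (by push_cast; linarith only [y0]) (by push_cast; linarith only [y1])
    (by push_cast; linarith only [k0]) (by push_cast; linarith only [k1])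
  simp only [List.mem_cons, List.not_mem_nil, or_false] at hf
  rcases hf with rfl | rfl | rfl
  · simp only [eQ1, E.val, E.pl_val, dV1_val, ua, qq, cc, v0, v1, v2, v3,
      E.tr_val (XM := 650) (cl := 130) (cr := 150) (by norm_num) (by norm_num) (by norm_num),
      E.tr_val (XM := 860) (cl := 150) (cr := 200) (by norm_num) (by norm_num) (by norm_num)] at hp
    norm_num at hp ⊢
    linarith only [hp]
  · simp only [sHi, E.val, v1, v3] at hp
    push_cast at hp
    linarith only [s1, hp]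
  · simp only [sLo, E.val, v1, v3] at hp
    push_cast at hp
    linarith only [s0, hp]

theorem nQ2 (a0 : 1 / 5 ≤ a) (a1 : a ≤ 65 / 100) (T0 : 499 / 10000 ≤ T) (T1 : T ≤ 915 / 10000)
    (y0 : 0 ≤ y) (y1 : y ≤ 80 / 100) (k0 : 0 ≤ κ) (k1 : κ ≤ 77 / 1000)
    (s1 : T + κ ≤ 148 / 1000) :
    plR a (-25) lQ2 ≤ V1 ⟨1 / 5, T⟩ ⟨y, κ * tr 0 (80 / 100) (16 / 100) (29 / 100) y⟩ -
      V1 ⟨a, T * tr 0 (65 / 100) (13 / 100) (15 / 100) a⟩
        ⟨y, κ * tr 0 (80 / 100) (16 / 100) (29 / 100) y⟩ := by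
  obtain ⟨f, hf, hp⟩ := chkF4 rQ2 (by norm_num) (x := a) (y := T) (z := y) (w := κ)
    (by push_cast; linarith only [a0]) (by push_cast; linarith only [a1]) (by push_cast; linarith only [T0])
    (by push_cast; linarith only [T1]) (by push_cast; linarith only [y0]) (by push_cast; linarith only [y1])
    (by push_cast; linarith only [k0]) (by push_cast; linarith only [k1])
  simp only [List.mem_cons, List.not_mem_nil, or_false] at hf
  rcases hf with rfl | rfl
  · simp only [eQ2, E.val, E.pl_val, dV1_val, ua, qq, cc, v0, v1, v2, v3,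
      E.tr_val (XM := 650) (cl := 130) (cr := 150) (by norm_num) (by norm_num) (by norm_num),
      E.tr_val (XM := 800) (cl := 160) (cr := 290) (by norm_num) (by norm_num) (by norm_num)] at hp
    norm_num at hp ⊢
    linarith only [hp]
  · simp only [sHi, E.val, v1, v3] at hp
    push_cast at hp
    linarith only [s1, hp]

theorem nQE (a0 : 1 / 5 ≤ a) (a1 : a ≤ 65 / 100) (T0 : 87 / 1000 ≤ T) (T1 : T ≤ 1145 / 10000)
    (y0 : 0 ≤ y) (y1 : y ≤ 70 / 100) (k0 : -(45 / 1000) ≤ κ) (k1 : κ ≤ 0)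
    (s0 : 51 / 1000 ≤ T + κ) :
    plR a (-15) lQE ≤ V1 ⟨1 / 5, T⟩ ⟨y, κ * tr 0 (70 / 100) (14 / 100) (35 / 100) y⟩ -
      V1 ⟨a, T * tr 0 (65 / 100) (13 / 100) (15 / 100) a⟩
        ⟨y, κ * tr 0 (70 / 100) (14 / 100) (35 / 100) y⟩ := by
  obtain ⟨f, hf, hp⟩ := chkF4 rQE (by norm_num) (x := a) (y := T) (z := y) (w := κ)
    (by push_cast; linarith only [a0]) (by push_cast; linarith only [a1]) (by push_cast; linarith only [T0])
    (by push_cast; linarith only [T1]) (by push_cast; linarith only [y0]) (by push_cast; linarith only [y1])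
    (by push_cast; linarith only [k0]) (by push_cast; linarith only [k1])
  simp only [List.mem_cons, List.not_mem_nil, or_false] at hf
  rcases hf with rfl | rfl
  · simp only [eQE, E.val, E.pl_val, dV1_val, ua, qq, cc, v0, v1, v2, v3,
      E.tr_val (XM := 650) (cl := 130) (cr := 150) (by norm_num) (by norm_num) (by norm_num),
      E.tr_val (XM := 700) (cl := 140) (cr := 350) (by norm_num) (by norm_num) (by norm_num)] at hp
    norm_num at hp ⊢
    linarith only [hp]
  · simp only [sLo, E.val, v1, v3] at hp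
    push_cast at hp
    linarith only [s0, hp]

theorem nK (a0 : 6 / 10 ≤ a) (a1 : a ≤ 65 / 100) (T0 : 21 / 1000 ≤ T) (T1 : T ≤ 1145 / 10000)
    (y0 : 0 ≤ y) (y1 : y ≤ 86 / 100) (k0 : -(91 / 1000) ≤ κ) (k1 : κ ≤ 77 / 1000) :
    plR a (-126) lK ≤ V1 ⟨1 / 2, T * tr 0 (65 / 100) (15 / 100) (29 / 100) (1 / 2)⟩
        ⟨y, κ * tr 0 (86 / 100) (15 / 100) (20 / 100) y⟩ -
      V1 ⟨a, T * tr 0 (65 / 100) (15 / 100) (29 / 100) a⟩
        ⟨y, κ * tr 0 (86 / 100) (15 / 100) (20 / 100) y⟩ := by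
  obtain ⟨f, hf, hp⟩ := chkF4 rK (by norm_num) (x := a) (y := T) (z := y) (w := κ)
    (by push_cast; linarith only [a0]) (by push_cast; linarith only [a1]) (by push_cast; linarith only [T0])
    (by push_cast; linarith only [T1]) (by push_cast; linarith only [y0]) (by push_cast; linarith only [y1])
    (by push_cast; linarith only [k0]) (by push_cast; linarith only [k1])
  simp only [List.mem_cons, List.not_mem_nil, or_false] at hf
  subst hf
  simp only [eK, E.val, E.pl_val, dV1_val, ua, qq, cc, v0, v1, v2, v3,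
    E.tr_val (XM := 650) (cl := 150) (cr := 290) (by norm_num) (by norm_num) (by norm_num),
    E.tr_val (XM := 860) (cl := 150) (cr := 200) (by norm_num) (by norm_num) (by norm_num)] at hp
  norm_num at hp ⊢
  linarith only [hp]

theorem n2 (a0 : 1 / 5 ≤ a) (a1 : a ≤ 6 / 10) (T0 : -(22 / 10000) ≤ T) (T1 : T ≤ 53 / 1000)
    (y0 : 0 ≤ y) (y1 : y ≤ 80 / 100) (k0 : -(985 / 10000) ≤ κ) (k1 : κ ≤ 96 / 1000) :
    plR a (-30) l2 ≤ V2 ⟨1 / 5, T⟩ ⟨y, κ * tr 0 (80 / 100) (10 / 100) (28 / 100) y⟩ -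
      V2 ⟨a, T * tr 0 (60 / 100) (12 / 100) (27 / 100) a⟩
        ⟨y, κ * tr 0 (80 / 100) (10 / 100) (28 / 100) y⟩ := by
  obtain ⟨f, hf, hp⟩ := chkF4 r2 (by norm_num) (x := a) (y := T) (z := y) (w := κ)
    (by push_cast; linarith only [a0]) (by push_cast; linarith only [a1]) (by push_cast; linarith only [T0])
    (by push_cast; linarith only [T1]) (by push_cast; linarith only [y0]) (by push_cast; linarith only [y1])
    (by push_cast; linarith only [k0]) (by push_cast; linarith only [k1])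
  simp only [List.mem_cons, List.not_mem_nil, or_false] at hf
  subst hf
  simp only [e2, E.val, E.pl_val, dV2x_val, ua, qq, cc, v0, v1, v2, v3,
    E.tr_val (XM := 600) (cl := 120) (cr := 270) (by norm_num) (by norm_num) (by norm_num),
    E.tr_val (XM := 800) (cl := 100) (cr := 280) (by norm_num) (by norm_num) (by norm_num)] at hp
  norm_num at hp ⊢
  linarith only [hp]

theorem n3 (a0 : 1 / 5 ≤ a) (a1 : a ≤ 6 / 10) (T0 : -(22 / 1000) ≤ T) (T1 : T ≤ 22 / 1000)
    (y0 : 0 ≤ y) (y1 : y ≤ 80 / 100) (k0 : -(16 / 100) ≤ κ) (k1 : κ ≤ 16 / 100) :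
    plR a (-30) l3 ≤ V2 ⟨1 / 5, T⟩ ⟨y, κ * tr 0 (80 / 100) (5 / 100) (5 / 100) y⟩ -
      V2 ⟨a, T * tr 0 (60 / 100) (13 / 100) (30 / 100) a⟩
        ⟨y, κ * tr 0 (80 / 100) (5 / 100) (5 / 100) y⟩ := by
  obtain ⟨f, hf, hp⟩ := chkF4 r3 (by norm_num) (x := a) (y := T) (z := y) (w := κ)
    (by push_cast; linarith only [a0]) (by push_cast; linarith only [a1]) (by push_cast; linarith only [T0])
    (by push_cast; linarith only [T1]) (by push_cast; linarith only [y0]) (by push_cast; linarith only [y1])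
    (by push_cast; linarith only [k0]) (by push_cast; linarith only [k1])
  simp only [List.mem_cons, List.not_mem_nil, or_false] at hf
  subst hf
  simp only [e3, E.val, E.pl_val, dV2x_val, ua, qq, cc, v0, v1, v2, v3,
    E.tr_val (XM := 600) (cl := 130) (cr := 300) (by norm_num) (by norm_num) (by norm_num),
    E.tr_val (XM := 800) (cl := 50) (cr := 50) (by norm_num) (by norm_num) (by norm_num)] at hp
  norm_num at hp ⊢
  linarith only [hp]

theorem n3e (a0 : 1 / 5 ≤ a) (a1 : a ≤ 6 / 10) (T0 : 5 / 1000 ≤ T) (T1 : T ≤ 28 / 1000)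
    (y0 : 0 ≤ y) (y1 : y ≤ 77 / 100) (k0 : -(16 / 100) ≤ κ) (k1 : κ ≤ 16 / 100) :
    plR a (-40) l3e ≤ V3 ⟨1 / 5, T⟩ ⟨y, κ * tr 0 (77 / 100) (10 / 100) (20 / 100) y⟩ 0 -
      V3 ⟨a, T * tr 0 (60 / 100) (12 / 100) (30 / 100) a⟩
        ⟨y, κ * tr 0 (77 / 100) (10 / 100) (20 / 100) y⟩ 0 := by
  obtain ⟨f, hf, hp⟩ := chkF4 r3e (by norm_num) (x := a) (y := T) (z := y) (w := κ)
    (by push_cast; linarith only [a0]) (by push_cast; linarith only [a1]) (by push_cast; linarith only [T0])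
    (by push_cast; linarith only [T1]) (by push_cast; linarith only [y0]) (by push_cast; linarith only [y1])
    (by push_cast; linarith only [k0]) (by push_cast; linarith only [k1])
  simp only [List.mem_cons, List.not_mem_nil, or_false] at hf
  subst hf
  simp only [e3e, E.val, E.pl_val, dVaU_val, ua, qq, cc, v0, v1, v2, v3,
    E.tr_val (XM := 600) (cl := 120) (cr := 300) (by norm_num) (by norm_num) (by norm_num),
    E.tr_val (XM := 770) (cl := 100) (cr := 200) (by norm_num) (by norm_num) (by norm_num)] at hp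
  norm_num at hp ⊢
  linarith only [hp]

end num

end I3S

end Pool.Agent.Work.MP_b30479_gt.G2
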