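import Pool.Agent.Work.MP_b30479_gt.G2.WMMA
import Pool.Agent.Work.MP_b30479_gt.G2.WM_in3Sv
import Pool.Agent.Work.MP_b30479_gt.G2.WLocA
import Pool.Agent.Work.MP_b30479_gt.G2.WLocY
import Pool.Agent.Work.MP_b30479_gt.G2.WMMF
import Pool.Agent.Work.MP_b30479_gt.G2.WRnd

/-!
# The far sides of the neighbours of an interior `3`

A hinge `h` of an interior `3` is moved along its main path, the other variables of the neighbour
`j` of the `3` are kept: gain of the side of `j`.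
-/

namespace Pool.Agent.Work.MP_b30479_gt.G2

open Finset VOL Filter Topology

namespace I3S

theorem tr_ub {XM cl cr y : ℝ} (hcl : 0 < cl) (hcr : 0 < cr) (h0 : 0 ≤ y) (h1 : y ≤ XM) :
    0 ≤ tr 0 XM cl cr y ∧ tr 0 XM cl cr y ≤ 1 ∧ cl * tr 0 XM cl cr y ≤ y ∧
      cr * tr 0 XM cl cr y ≤ XM - y := by
  have h2 : 0 ≤ (y - 0) / cl := div_nonneg (by linarith only [h0]) hcl.le
  have h3 : 0 ≤ (XM - y) / cr := div_nonneg (by linarith only [h1]) hcr.le
  refine ⟨(SR.tr_mem _ _ _ _ _).1, (SR.tr_mem _ _ _ _ _).2, ?_, ?_⟩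
  · have h4 : tr 0 XM cl cr y ≤ (y - 0) / cl := by
      unfold tr
      exact max_le h2 ((min_le_right _ _).trans (min_le_left _ _))
    rw [le_div_iff₀ hcl] at h4
    linarith only [h4]
  · have h4 : tr 0 XM cl cr y ≤ (XM - y) / cr := by
      unfold tr
      exact max_le h3 ((min_le_right _ _).trans (min_le_right _ _))
    rw [le_div_iff₀ hcr] at h4
    linarith only [h4]

theorem le_tr {H XM cl cr y k : ℝ} (hl : 0 < cl) (hr : 0 < cr) (h1 : k ≤ H)
    (h2 : cl * k ≤ H * y) (h3 : cr * k ≤ H * (XM - y)) (h4 : 0 < H) : k ≤ H * tr 0 XM cl cr y := by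
  unfold tr
  refine le_trans ?_ (mul_le_mul_of_nonneg_left (le_max_right _ _) h4.le)
  have e1 : k ≤ H * ((y - 0) / cl) := by
    rw [sub_zero, mul_div_assoc', le_div_iff₀ hl]
    linarith only [h2]
  have e2 : k ≤ H * ((XM - y) / cr) := by
    rw [mul_div_assoc', le_div_iff₀ hr]
    linarith only [h3]
  rw [mul_min_of_nonneg _ _ h4.le, mul_min_of_nonneg _ _ h4.le]
  exact le_min (by linarith only [h1]) (le_min e1 e2)

/-- a height written with another ramp function -/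
theorem repar {H κ t t' k : ℝ} (ht : 0 ≤ t) (ht' : 0 ≤ t') (hH : 0 ≤ H) (h1 : t ≤ H * t')
    (h2 : k = κ * t ∨ k = 0) :
    ∃ κ', k = κ' * t' ∧ ((0 ≤ κ' ∧ κ' ≤ H * κ) ∨ (H * κ ≤ κ' ∧ κ' ≤ 0)) := by
  have h0 : ∃ κ', (0 : ℝ) = κ' * t' ∧ ((0 ≤ κ' ∧ κ' ≤ H * κ) ∨ (H * κ ≤ κ' ∧ κ' ≤ 0)) := by
    refine ⟨0, by ring, ?_⟩
    rcases le_total 0 κ with h3 | h3
    · exact Or.inl ⟨le_rfl, mul_nonneg hH h3⟩
    · exact Or.inr ⟨mul_nonpos_of_nonneg_of_nonpos hH h3, le_rfl⟩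
  rcases h2 with rfl | rfl
  · rcases ht'.eq_or_lt with h4 | h4
    · have h5 : t = 0 := le_antisymm (by rw [← h4] at h1; linarith only [h1]) ht
      rw [h5, mul_zero]
      exact h0
    · refine ⟨κ * t / t', by field_simp, ?_⟩
      rcases le_total 0 κ with h3 | h3
      · left
        refine ⟨div_nonneg (mul_nonneg h3 ht) ht', (div_le_iff₀ h4).2 ?_⟩
        nlinarith only [h1, h3, mul_le_mul_of_nonneg_left h1 h3]
      · right
        refine ⟨(le_div_iff₀ h4).2 ?_, div_nonpos_of_nonpos_of_nonneg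
          (mul_nonpos_of_nonpos_of_nonneg h3 ht) ht'⟩
        nlinarith only [h1, h3, mul_le_mul_of_nonpos_left h1 h3]
  · exact h0

end I3S

namespace SR

open NumG

variable {M : ℕ} {b : Fin (M + 1) → ℤ} {zs : DD (tyW b) ⊕ ZZ (tyW b) → ℂ}
variable {R : Finset (DD (tyW b))} {nb : Finset (DD (tyW b) ⊕ ZZ (tyW b))}
variable {z : DD (tyW b) ⊕ ZZ (tyW b) → ℂ} {p : DD (tyW b) → ℝ}
variable {h h' h2 : Fin M} {i j j' r : Fin (M + 1)} {s : Fin 3} {x c a d : ℝ}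

/-- the position of a hinge which is on no mirrored path -/
theorem MM.pos0 (hM : MM b zs R nb z p) (A' : Adj h' i s j') (hp0 : p (.inl h') = 0)
    (hnR : (Sum.inl h' : DD (tyW b)) ∉ R) : 0 ≤ (Ow b z i s).re ∧ (Ow b z i s).re ≤ wXM b h' ∧
      ((Ow b z i s).im = Th b zs h' i * trh b h' (Ow b z i s).re ∨ (Ow b z i s).im = 0) := by
  rw [Ow_adj z A']
  by_cases hn : Sum.inl (Sum.inl h') ∈ nb
  · obtain ⟨e1, e2, e3, e4⟩ := hM.adm.reD _ hnR hn
    rw [ofr_re, ofr_im, e1, ofs_zero]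
    exact ⟨e2, e3, Or.inr rfl⟩
  · obtain ⟨x, h0, h1, h2⟩ := hM.adm.onD (.inl h') hn
    have hu : 0 < (wparM b zs).hu (.inl h') := (mh_pos (b := b) (zs := zs) (.inl h')).1
    have hd : 0 < (wparM b zs).hd (.inl h') := (mh_pos (b := b) (zs := zs) (.inl h')).2
    have e : ∀ H : ℝ, H * trh b h' x = 0 → H ≠ 0 → trh b h' x = 0 := by
      intro H h3 h4
      rcases mul_eq_zero.1 h3 with h5 | h5
      · exact absurd h5 h4
      · exact h5
    rcases h2 with ⟨e1, e2⟩ | ⟨e1, e2⟩ | ⟨e1, e2⟩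
    · rw [ofr_re, ofr_im, e1, ptm_re, ptm_im, ofs_mulR]
      exact ⟨h0, h1, Or.inl rfl⟩
    · have h3 : trh b h' x = 0 := e _ (by rw [hp0] at e2; exact e2.symm) hu.ne'
      rw [ofr_re, ofr_im, e1, ptm_re, ptm_im, ofs_mulR]
      refine ⟨h0, h1, Or.inr ?_⟩
      show _ * trh b h' x = _
      rw [h3, mul_zero]
    · have h3 : trh b h' x = 0 := e _ (by rw [hp0] at e2; exact e2.symm) hd.ne'
      rw [ofr_re, ofr_im, e1, ptm_re, ptm_im, ofs_mulR]
      refine ⟨h0, h1, Or.inr ?_⟩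
      show _ * trh b h' x = _
      rw [h3, mul_zero]

/-- the hinge of the `3` seen from the neighbour -/
theorem Ow_sym (hb : ClassW b) (A : Adj h i s j) (hi : clsW b i ≠ .ring)
    (e : Ow b z i s = ⟨a, Th b zs h i * trh b h a⟩) :
    Th b zs h j = -Th b zs h i ∧ Ow b z j s.rev = ⟨a, Th b zs h j * trh b h a⟩ := by
  have hs := sign_adj hb A hi
  have hT : Th b zs h j = -Th b zs h i := ofs_neg_of_opp hs _
  refine ⟨hT, ?_⟩
  rw [Ow_adj z A] at e
  have e1 := congrArg Complex.re e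
  have e2 := congrArg Complex.im e
  rw [ofr_re] at e1
  rw [ofr_im] at e2
  rw [Ow_adj z A.symm]
  apply Complex.ext
  · rw [ofr_re]
    exact e1
  · rw [ofr_im, ofs_neg_of_opp hs, e2, hT]
    show -(Th b zs h i * trh b h a) = -Th b zs h i * trh b h a
    ring

/-- the other hinge of a neighbour, height `κ` times the ramp function `X`, `cl`, `cr` -/
theorem MM.par0 (hN : NbT b R nb) (hM : MM b zs R nb z p) (A : Adj h j s i)
    (hn : Sum.inl (Sum.inl h) ∉ nb) (A2 : Adj h2 j s.rev r) (hp0 : p (.inl h2) = 0)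
    {H X cl cr : ℝ} (hl : 0 < cl) (hr : 0 < cr) (hH : 1 ≤ H) (h1 : cl ≤ H * wcl b h2)
    (h2' : cr ≤ H * wcr b h2) (h3 : wXM b h2 ≤ X) :
    ∃ y κ, 0 ≤ y ∧ y ≤ wXM b h2 ∧ Ow b z j s.rev = ⟨y, κ * tr 0 X cl cr y⟩ ∧
      ((0 ≤ κ ∧ κ ≤ H * Th b zs h2 j) ∨ (H * Th b zs h2 j ≤ κ ∧ κ ≤ 0)) := by
  obtain ⟨y0, y1, y2⟩ := hM.pos0 A2 hp0 fun hR => hN.not_tch A hn ⟨_, hR, s.rev, A2.cf_ne⟩
  set y := (Ow b z j s.rev).re with hy
  have ht : 0 ≤ trh b h2 y ∧ trh b h2 y ≤ 1 ∧ wcl b h2 * trh b h2 y ≤ y ∧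
      wcr b h2 * trh b h2 y ≤ wXM b h2 - y := I3S.tr_ub (wcl_pos h2) (wcr_pos h2) y0 y1
  obtain ⟨t0, t1, t2, t3⟩ := ht
  have hH0 : 0 < H := by linarith only [hH]
  have h4 : trh b h2 y ≤ H * tr 0 X cl cr y := by
    refine I3S.le_tr hl hr (by linarith only [hH, t1]) ?_ ?_ hH0
    · have := mul_le_mul_of_nonneg_right h1 t0
      have := mul_le_mul_of_nonneg_left t2 hH0.le
      linarith
    · have := mul_le_mul_of_nonneg_right h2' t0
      have := mul_le_mul_of_nonneg_left t3 hH0.le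
      have := mul_le_mul_of_nonneg_left h3 hH0.le
      linarith
  obtain ⟨κ, k1, k2⟩ := I3S.repar t0 (tr_mem 0 X cl cr y).1 hH0.le h4 y2
  exact ⟨y, κ, y0, y1, Complex.ext hy.symm k1, k2⟩

/-- the inner variable of a neighbour -/
theorem MM.parm (hN : NbT b R nb) (hM : MM b zs R nb z p)
    (m : {i : Fin (M + 1) // (tyW b i).isMid = true}) (A : Adj h m.1 s j)
    (hn : Sum.inl (Sum.inl h) ∉ nb) (hT0 : -(16 / 100) ≤ Tm b zs m) (hT1 : Tm b zs m ≤ 16 / 100) :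
    ∃ y κ, 0 ≤ y ∧ y ≤ (mp (clsW b m.1)).XM ∧ Ow b z m.1 1 = ⟨y, κ * trm b m y⟩ ∧
      -(16 / 100) ≤ κ ∧ κ ≤ 16 / 100 := by
  rcases (hM.ipos hN m A hn).2 with ⟨y, y0, y1, e, hp⟩ | ⟨y, y0, y1, hT, e, hp⟩ |
    ⟨y, y0, y1, hT, e, hp⟩
  · exact ⟨y, _, y0, y1, e, hT0, hT1⟩
  · exact ⟨y, _, y0, y1, e, by norm_num, le_rfl⟩
  · exact ⟨y, -(16 / 100), y0, y1, by rw [e, neg_mul], le_rfl, by norm_num⟩

/-! ### parameters of the hinge -/

theorem in3_par1 (A : Adj h i 0 j) (hi : clsW b i = .three) (hj : clsW b j = .one) :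
    wXM b h = 65 / 100 ∧ wcl b h = 13 / 100 ∧ wcr b h = 15 / 100 := by
  rw [A.XM_eq b, A.cl_eq b, A.cr_eq b, hi, hj]
  unfold hpp
  rw [if_neg (by decide)]
  unfold hp hp1
  norm_num

theorem in3_parK (A : Adj h i 2 j) (hi : clsW b i = .three) (hj : clsW b j = .one) :
    wXM b h = 65 / 100 ∧ wcl b h = 15 / 100 ∧ wcr b h = 29 / 100 := by
  rw [A.XM_eq b, A.cl_eq b, A.cr_eq b, hi, hj]
  unfold hpp hp
  norm_num

theorem in3_par2 (A : Adj h i 0 j) (hi : clsW b i = .three) (hj : clsW b j = .two) :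
    wXM b h = 60 / 100 ∧ wcl b h = 12 / 100 ∧ wcr b h = 27 / 100 := by
  rw [A.XM_eq b, A.cl_eq b, A.cr_eq b, hi, hj]
  unfold hpp
  rw [if_neg (by decide)]
  unfold hp
  norm_num

theorem in3_par3 (A : Adj h i 0 j) (hi : clsW b i = .three) (hj : clsW b j = .three) :
    wXM b h = 60 / 100 ∧ wcl b h = 13 / 100 ∧ wcr b h = 30 / 100 := by
  rw [A.XM_eq b, A.cl_eq b, A.cr_eq b, hi, hj]
  unfold hpp
  rw [if_neg (by decide)]
  unfold hp
  norm_num

theorem in3_par3E (A : Adj h i 0 j) (hi : clsW b i = .three) (hj : clsW b j = .threeE) :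
    wXM b h = 60 / 100 ∧ wcl b h = 12 / 100 ∧ wcr b h = 30 / 100 := by
  rw [A.XM_eq b, A.cl_eq b, A.cr_eq b, hi, hj]
  unfold hpp
  rw [if_neg (by decide)]
  unfold hp
  norm_num

/-- the target `1/5` -/
theorem in3_tg {X cl cr : ℝ} (hX : wXM b h = X) (hl : wcl b h = cl) (hr : wcr b h = cr)
    (h1 : 0 < cl) (h2 : cl ≤ 1 / 5) (h3 : 0 < cr) (h4 : cr ≤ X - 1 / 5) :
    tgo b zs h j (1 / 5) = ⟨1 / 5, Th b zs h j⟩ := by
  have ht : trh b h (1 / 5) = 1 := by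
    unfold trh tr
    rw [hX, hl, hr, sub_zero, min_eq_left (le_min ((one_le_div h1).2 h2) ((one_le_div h3).2 h4))]
    norm_num
  unfold tgo
  rw [ht, mul_one]

/-- behind a `1` next to a `3` -/
theorem in3_behind (hb : ClassW b) (A : Adj h i s j) (A2 : Adj h2 j s.rev.rev r)
    (hi : clsW b i = .three) (hj : clsW b j = .one) :
    clsW b r = .one ∨ clsW b r = .two ∨ clsW b r = .twoE := by
  have h1 := okp_of hb A.symm A2 hj
  rw [hi] at h1
  unfold ML.okp at h1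
  simpa using h1

/-! ### digit `1` -/

section common

variable (hb : ClassW b) (L : LocA b zs) (hN : NbT b R nb) (hM : MM b zs R nb z p)
  (hi : clsW b i = .three) (hn : Sum.inl (Sum.inl h) ∉ nb)
  (hB : ∀ {h' : Fin M} {s' : Fin 3} {j' : Fin (M + 1)}, Adj h' j s' j' → p (.inl h') = 0)
include hb L hN hM hi hn hB

/-- `1` behind the `1` -/
theorem in3_one1 (A : Adj h i 0 j) (hj : clsW b j = .one) (A2 : Adj h2 j 0 r)
    (hr : clsW b r = .one) (e : Ow b z i 0 = ⟨a, Th b zs h i * trh b h a⟩) (a0 : 1 / 5 ≤ a)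
    (a1 : a ≤ wXM b h) (T0 : -(802 / 10000) ≤ Th b zs h i) (T1 : Th b zs h i ≤ -(241 / 10000)) :
    SideG b zs nb z p h j (tg b zs h (1 / 5)) (plR a (-30) [(200, -2, 5), (250, -1, 10),
      (300, 4, 25), (350, 1, 10), (400, 2, 25), (450, 1, 25), (500, -49, 50), (550, -3, 50),
      (600, -11, 50)]) := by
  have As : Adj h j 2 i := A.symm
  have A2' : Adj h2 j (2 : Fin 3).rev r := A2
  obtain ⟨hX, hl, hr'⟩ := in3_par1 A hi hj
  obtain ⟨hT, e'⟩ := Ow_sym hb A (by rw [hi]; decide) e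
  have e2 : Ow b z j 2 = ⟨a, Th b zs h j * trh b h a⟩ := e'
  obtain ⟨-, -, w3, w4⟩ := L.X.win As A2' hj
  obtain ⟨w1, w2, -, -⟩ := L.X.win (h' := h) (j' := i) A2 A.symm hj
  rw [hi, hr] at w1 w2 w3 w4
  simp only [cw] at w1 w2 w3 w4
  have par := A2.XM_eq b
  have pal := A2.cl_eq b
  have par' := A2.cr_eq b
  rw [hj, hr] at par pal par'
  obtain ⟨y, κ, y0, y1, eY, hκ⟩ := hM.par0 hN As hn A2' (hB A2) (H := 1) (X := 86 / 100)
    (cl := 15 / 100) (cr := 20 / 100) (by norm_num) (by norm_num) le_rfl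
    (by rw [pal]; unfold hpp hp; split_ifs <;> norm_num)
    (by rw [par']; unfold hpp hp; split_ifs <;> norm_num)
    (by rw [par]; unfold hpp hp; split_ifs <;> norm_num)
  have yX : wXM b h2 ≤ 86 / 100 := by rw [par]; unfold hpp hp; split_ifs <;> norm_num
  have hw : ofs (b j) (zs (.inl (.inl h))).im = Th b zs h j := rfl
  have hw2 : ofs (b j) (zs (.inl (.inl h2))).im = Th b zs h2 j := rfl
  rw [hw, hw2] at w3 w4
  rw [hw2] at w1 w2
  have k := keep_one (zs := zs) (nb := nb) (z := z) (p := p) (c := 1 / 5) hb As hj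
  rw [in3_tg hX hl hr' (by norm_num) (by norm_num) (by norm_num) (by norm_num), eY, e2] at k
  refine k.mono ?_
  rw [hX] at a1
  have ht : trh b h a = tr 0 (65 / 100) (13 / 100) (15 / 100) a := by
    unfold trh
    rw [hX, hl, hr']
  rw [ht]
  refine I3S.nQ1 a0 a1 (by linarith only [T1, hT]) (by linarith only [T0, hT]) y0 (y1.trans yX) ?_ ?_ ?_ ?_ <;>
    rcases hκ with ⟨k0, k1⟩ | ⟨k0, k1⟩ <;> linarith only [k0, w1, w2, k1, T1, hT, w3, w4, T0]

/-- `2` behind the `1` -/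
theorem in3_one2 (A : Adj h i 0 j) (hj : clsW b j = .one) (A2 : Adj h2 j 0 r)
    (hr : clsW b r = .two) (e : Ow b z i 0 = ⟨a, Th b zs h i * trh b h a⟩) (a0 : 1 / 5 ≤ a)
    (a1 : a ≤ wXM b h) (T0 : -(915 / 10000) ≤ Th b zs h i) (T1 : Th b zs h i ≤ -(499 / 10000)) :
    SideG b zs nb z p h j (tg b zs h (1 / 5)) (plR a (-25) [(200, -1, 2), (250, -3, 25),
      (300, 4, 25), (350, 1, 10), (400, 3, 50), (450, 1, 25), (500, -26, 25), (550, 1, 50),
      (600, -1, 10)]) := by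
  have As : Adj h j 2 i := A.symm
  have A2' : Adj h2 j (2 : Fin 3).rev r := A2
  obtain ⟨hX, hl, hr'⟩ := in3_par1 A hi hj
  obtain ⟨hT, e'⟩ := Ow_sym hb A (by rw [hi]; decide) e
  have e2 : Ow b z j 2 = ⟨a, Th b zs h j * trh b h a⟩ := e'
  obtain ⟨-, -, w3, w4⟩ := L.X.win As A2' hj
  obtain ⟨w1, w2, -, -⟩ := L.X.win (h' := h) (j' := i) A2 A.symm hj
  rw [hi, hr] at w1 w2 w3 w4
  simp only [cw] at w1 w2 w3 w4
  have par := A2.XM_eq b
  have pal := A2.cl_eq b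
  have par' := A2.cr_eq b
  rw [hj, hr] at par pal par'
  obtain ⟨y, κ, y0, y1, eY, hκ⟩ := hM.par0 hN As hn A2' (hB A2) (H := 1) (X := 80 / 100)
    (cl := 16 / 100) (cr := 29 / 100) (by norm_num) (by norm_num) le_rfl
    (by rw [pal]; unfold hpp hp hp1; split_ifs <;> norm_num)
    (by rw [par']; unfold hpp hp hp1; split_ifs <;> norm_num)
    (by rw [par]; unfold hpp hp hp1; split_ifs <;> norm_num)
  have yX : wXM b h2 ≤ 80 / 100 := by rw [par]; unfold hpp hp hp1; split_ifs <;> norm_num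
  have hw : ofs (b j) (zs (.inl (.inl h))).im = Th b zs h j := rfl
  have hw2 : ofs (b j) (zs (.inl (.inl h2))).im = Th b zs h2 j := rfl
  rw [hw, hw2] at w3 w4
  rw [hw2] at w1 w2
  have k := keep_one (zs := zs) (nb := nb) (z := z) (p := p) (c := 1 / 5) hb As hj
  rw [in3_tg hX hl hr' (by norm_num) (by norm_num) (by norm_num) (by norm_num), eY, e2] at k
  refine k.mono ?_
  rw [hX] at a1
  have ht : trh b h a = tr 0 (65 / 100) (13 / 100) (15 / 100) a := by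
    unfold trh
    rw [hX, hl, hr']
  rw [ht]
  refine I3S.nQ2 a0 a1 (by linarith only [T1, hT]) (by linarith only [T0, hT]) y0 (y1.trans yX) ?_ ?_ ?_ <;>
    rcases hκ with ⟨k0, k1⟩ | ⟨k0, k1⟩ <;> linarith only [k0, w1, k1, w2, w4]

/-- `2` at an end behind the `1` -/
theorem in3_oneE (A : Adj h i 0 j) (hj : clsW b j = .one) (A2 : Adj h2 j 0 r)
    (hr : clsW b r = .twoE) (e : Ow b z i 0 = ⟨a, Th b zs h i * trh b h a⟩) (a0 : 1 / 5 ≤ a)
    (a1 : a ≤ wXM b h) (T0 : -(1145 / 10000) ≤ Th b zs h i) (T1 : Th b zs h i ≤ -(87 / 1000)) :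
    SideG b zs nb z p h j (tg b zs h (1 / 5)) (plR a (-15) [(200, -3, 10), (250, 3, 50),
      (300, 1, 10), (350, 1, 10), (400, 3, 50), (450, 1, 25), (500, -99, 50), (550, -17, 50),
      (600, -9, 50)]) := by
  have As : Adj h j 2 i := A.symm
  have A2' : Adj h2 j (2 : Fin 3).rev r := A2
  obtain ⟨hX, hl, hr'⟩ := in3_par1 A hi hj
  obtain ⟨hT, e'⟩ := Ow_sym hb A (by rw [hi]; decide) e
  have e2 : Ow b z j 2 = ⟨a, Th b zs h j * trh b h a⟩ := e'
  obtain ⟨-, -, w3, w4⟩ := L.X.win As A2' hj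
  obtain ⟨w1, w2, -, -⟩ := L.X.win (h' := h) (j' := i) A2 A.symm hj
  rw [hi, hr] at w1 w2 w3 w4
  simp only [cw] at w1 w2 w3 w4
  have par := A2.XM_eq b
  have pal := A2.cl_eq b
  have par' := A2.cr_eq b
  rw [hj, hr] at par pal par'
  obtain ⟨y, κ, y0, y1, eY, hκ⟩ := hM.par0 hN As hn A2' (hB A2) (H := 1) (X := 70 / 100)
    (cl := 14 / 100) (cr := 35 / 100) (by norm_num) (by norm_num) le_rfl
    (by rw [pal]; unfold hpp hp hp1; split_ifs <;> norm_num)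
    (by rw [par']; unfold hpp hp hp1; split_ifs <;> norm_num)
    (by rw [par]; unfold hpp hp hp1; split_ifs <;> norm_num)
  have yX : wXM b h2 ≤ 70 / 100 := by rw [par]; unfold hpp hp hp1; split_ifs <;> norm_num
  have hw : ofs (b j) (zs (.inl (.inl h))).im = Th b zs h j := rfl
  have hw2 : ofs (b j) (zs (.inl (.inl h2))).im = Th b zs h2 j := rfl
  rw [hw, hw2] at w3 w4
  rw [hw2] at w1 w2
  have k := keep_one (zs := zs) (nb := nb) (z := z) (p := p) (c := 1 / 5) hb As hj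
  rw [in3_tg hX hl hr' (by norm_num) (by norm_num) (by norm_num) (by norm_num), eY, e2] at k
  refine k.mono ?_
  rw [hX] at a1
  have ht : trh b h a = tr 0 (65 / 100) (13 / 100) (15 / 100) a := by
    unfold trh
    rw [hX, hl, hr']
  rw [ht]
  refine I3S.nQE a0 a1 (by linarith only [T1, hT]) (by linarith only [T0, hT]) y0 (y1.trans yX) ?_ ?_ ?_ <;>
    rcases hκ with ⟨k0, k1⟩ | ⟨k0, k1⟩ <;> linarith only [T1, hT, w4, k0, k1, w1, w3]

/-! ### digits `2` and `3` -/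

/-- digit `2` -/
theorem in3_two (A : Adj h i 0 j) (hj : clsW b j = .two)
    (e : Ow b z i 0 = ⟨a, Th b zs h i * trh b h a⟩) (a0 : 1 / 5 ≤ a)
    (a1 : a ≤ wXM b h) (T0 : -(53 / 1000) ≤ Th b zs h i) (T1 : Th b zs h i ≤ 22 / 10000) :
    SideG b zs nb z p h j (tg b zs h (1 / 5)) (plR a (-30) [(200, -23, 50), (250, 13, 50),
      (300, 1, 5), (400, -3, 50)]) := by
  have As : Adj h j 2 i := A.symm
  obtain ⟨h2, r, A2'⟩ := As.other' b (clsW_inner hb (Or.inr (Or.inl hj)))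
  have A2 : Adj h2 j 0 r := A2'
  obtain ⟨hX, hl, hr'⟩ := in3_par2 A hi hj
  obtain ⟨hT, e'⟩ := Ow_sym hb A (by rw [hi]; decide) e
  have e2 : Ow b z j 2 = ⟨a, Th b zs h j * trh b h a⟩ := e'
  obtain ⟨w1, w2⟩ := Th_mem hb L.L A2 (by rw [hj]; decide)
  have par := A2.XM_eq b
  have pal := A2.cl_eq b
  have par' := A2.cr_eq b
  rw [hj] at par pal par' w1 w2
  have key : 10 / 100 ≤ 1 * wcl b h2 ∧ 28 / 100 ≤ 1 * wcr b h2 ∧ wXM b h2 ≤ 80 / 100 ∧
      -(985 / 10000) ≤ Th b zs h2 j ∧ Th b zs h2 j ≤ 96 / 1000 := by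
    unfold hpp at par pal par'
    rw [if_neg (by decide)] at par pal par'
    rw [par, pal, par']
    rcases hc : clsW b r with _ | _ | _ | _ | _ | _ <;> rw [hc] at w1 w2 <;>
      simp only [hbox] at w1 w2 <;> unfold hp hp1 <;>
      (refine ⟨?_, ?_, ?_, ?_, ?_⟩ <;> norm_num <;> linarith only [w1, w2])
  obtain ⟨q1, q2, q3, q4, q5⟩ := key
  obtain ⟨y, κ, y0, y1, eY, hκ⟩ := hM.par0 hN As hn A2' (hB A2) (H := 1) (X := 80 / 100)
    (cl := 10 / 100) (cr := 28 / 100) (by norm_num) (by norm_num) le_rfl q1 q2 q3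
  have k := keep_two (zs := zs) (nb := nb) (z := z) (p := p) (c := 1 / 5) hb As (Or.inl hj)
  rw [in3_tg hX hl hr' (by norm_num) (by norm_num) (by norm_num) (by norm_num), eY, e2] at k
  refine k.mono ?_
  rw [hX] at a1
  have ht : trh b h a = tr 0 (60 / 100) (12 / 100) (27 / 100) a := by
    unfold trh
    rw [hX, hl, hr']
  rw [ht]
  refine I3S.n2 a0 (a1.trans_eq (by norm_num)) (by linarith only [T1, hT]) (by linarith only [T0, hT]) y0 (y1.trans q3)
    ?_ ?_ <;> rcases hκ with ⟨k0, k1⟩ | ⟨k0, k1⟩ <;> linarith only [k0, q4, q5, k1]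

omit hB in
/-- digit `3`, the hinge in its slot `2` -/
theorem in3_threeL (A : Adj h i 0 j) (hj : clsW b j = .three)
    (e : Ow b z i 0 = ⟨a, Th b zs h i * trh b h a⟩) (a0 : 1 / 5 ≤ a)
    (a1 : a ≤ wXM b h) (T0 : -(22 / 1000) ≤ Th b zs h i) (T1 : Th b zs h i ≤ 22 / 1000) :
    SideG b zs nb z p h j (tg b zs h (1 / 5)) (plR a (-30) [(200, -19, 25), (250, 13, 50),
      (300, 7, 25), (400, 7, 50)]) := by
  have hm : (tyW b j).isMid = true := tyW_isMid (Or.inl hj)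
  set m : {i : Fin (M + 1) // (tyW b i).isMid = true} := ⟨j, hm⟩ with hmd
  have As : Adj h m.1 2 i := A.symm
  have he : isEnd j = false := clsW_inner hb (Or.inr (Or.inr hj))
  obtain ⟨h2, r, A2'⟩ := As.other' b he
  have A2 : Adj h2 j 0 r := A2'
  have hs : h2.succ = m.1 := by cases A2; rfl
  obtain ⟨hX, hl, hr'⟩ := in3_par3 A hi hj
  obtain ⟨hT, e'⟩ := Ow_sym hb A (by rw [hi]; decide) e
  have e2 : Ow b z j 2 = ⟨a, Th b zs h j * trh b h a⟩ := e'
  have w := L.L.mid m he h2 hs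
  obtain ⟨-, -, w1, w2⟩ := w
  rw [ofr_im] at w1 w2
  simp only [mbox] at w1 w2
  have hw : ofs (b m.1) (zs (.inl (.inr m))).im = Tm b zs m := rfl
  rw [hw] at w1 w2
  obtain ⟨y, κ, y0, y1, eY, k0, k1⟩ := hM.parm hN m As hn (by linarith only [w1]) (by linarith only [w2])
  have k := keep_three2 (zs := zs) (nb := nb) (z := z) (p := p) (c := 1 / 5) hb
    (show Adj h j 2 i from As) hj
  have eY' : Ow b z j 1 = ⟨y, κ * trm b m y⟩ := eY
  have hmp : mp (clsW b m.1) = ⟨8 / 10, 5 / 100, 5 / 100⟩ := by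
    show mp (clsW b j) = _
    rw [hj]
    rfl
  have htm : trm b m y = tr 0 (80 / 100) (5 / 100) (5 / 100) y := by
    unfold trm
    rw [hmp]
    norm_num
  rw [hmp] at y1
  rw [in3_tg hX hl hr' (by norm_num) (by norm_num) (by norm_num) (by norm_num), eY', e2,
    I3S.dV2x_three, htm] at k
  refine k.mono ?_
  rw [hX] at a1
  have ht : trh b h a = tr 0 (60 / 100) (13 / 100) (30 / 100) a := by
    unfold trh
    rw [hX, hl, hr']
  rw [ht]
  exact I3S.n3 a0 (a1.trans_eq (by norm_num)) (by linarith only [T1, hT]) (by linarith only [T0, hT]) y0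
    (y1.trans_eq (by norm_num)) k0 k1

omit hB in
/-- digit `3` at an end -/
theorem in3_threeE (A : Adj h i 0 j) (hj : clsW b j = .threeE)
    (e : Ow b z i 0 = ⟨a, Th b zs h i * trh b h a⟩) (a0 : 1 / 5 ≤ a)
    (a1 : a ≤ wXM b h) (T0 : -(28 / 1000) ≤ Th b zs h i) (T1 : Th b zs h i ≤ -(5 / 1000)) :
    SideG b zs nb z p h j (tg b zs h (1 / 5)) (plR a (-40) [(200, -4, 5), (300, 1, 10),
      (350, 4, 25), (400, 13, 50), (450, 9, 50), (500, -1, 25), (550, -12, 25)]) := by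
  have hm : (tyW b j).isMid = true := tyW_isMid (Or.inr hj)
  set m : {i : Fin (M + 1) // (tyW b i).isMid = true} := ⟨j, hm⟩ with hmd
  have As : Adj h m.1 2 i := A.symm
  have he : isEnd j = true := clsW_end (Or.inr hj)
  obtain ⟨hX, hl, hr'⟩ := in3_par3E A hi hj
  obtain ⟨hT, e'⟩ := Ow_sym hb A (by rw [hi]; decide) e
  have e2 : Ow b z j 2 = ⟨a, Th b zs h j * trh b h a⟩ := e'
  have w := L.L.midE m he
  obtain ⟨-, -, w1, w2⟩ := w
  rw [ofr_im] at w1 w2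
  simp only [mboxE] at w1 w2
  have hw : ofs (b m.1) (zs (.inl (.inr m))).im = Tm b zs m := rfl
  rw [hw] at w1 w2
  obtain ⟨y, κ, y0, y1, eY, k0, k1⟩ := hM.parm hN m As hn (by linarith only [w1]) (by linarith only [w2])
  have k := keep_threeE (zs := zs) (nb := nb) (z := z) (p := p) (c := 1 / 5)
    (show Adj h j 2 i from As) hj
  have eY' : Ow b z j 1 = ⟨y, κ * trm b m y⟩ := eY
  have hmp : mp (clsW b m.1) = ⟨77 / 100, 1 / 10, 2 / 10⟩ := by
    show mp (clsW b j) = _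
    rw [hj]
    rfl
  have htm : trm b m y = tr 0 (77 / 100) (10 / 100) (20 / 100) y := by
    unfold trm
    rw [hmp]
    norm_num
  rw [hmp] at y1
  rw [in3_tg hX hl hr' (by norm_num) (by norm_num) (by norm_num) (by norm_num), eY', e2, htm] at k
  refine k.mono ?_
  rw [hX] at a1
  have ht : trh b h a = tr 0 (60 / 100) (12 / 100) (30 / 100) a := by
    unfold trh
    rw [hX, hl, hr']
  rw [ht]
  exact I3S.n3e a0 (a1.trans_eq (by norm_num)) (by linarith only [T1, hT]) (by linarith only [T0, hT]) y0 y1 k0 k1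

/-! ### the right hinge of the `3` -/

/-- a `1` on the right of the `3`, target `1/2` -/
theorem in3_K (A : Adj h i 2 j) (hj : clsW b j = .one)
    (e : Ow b z i 2 = ⟨d, Th b zs h i * trh b h d⟩) (d0 : 6 / 10 ≤ d) (d1 : d ≤ 65 / 100) :
    FarG b zs nb z p h j (tg b zs h (1 / 2)) (plR d (-126) [(600, -32, 25)]) := by
  have As : Adj h j 0 i := A.symm
  obtain ⟨h2, r, A2'⟩ := As.other_one hb hj
  have A2 : Adj h2 j 2 r := A2'
  obtain ⟨hX, hl, hr'⟩ := in3_parK A hi hj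
  obtain ⟨hT, e'⟩ := Ow_sym hb A (by rw [hi]; decide) e
  have e2 : Ow b z j 0 = ⟨d, Th b zs h j * trh b h d⟩ := e'
  have hr3 := in3_behind hb A A2' hi hj
  obtain ⟨w1, w2, -, -⟩ := L.X.win (h' := h) (j' := i) A2 A.symm hj
  obtain ⟨w3, w4, -, -⟩ := L.X.win As A2' hj
  have hw : ofs (b j) (zs (.inl (.inl h))).im = Th b zs h j := rfl
  have hw2 : ofs (b j) (zs (.inl (.inl h2))).im = Th b zs h2 j := rfl
  rw [hw] at w3 w4
  rw [hw2] at w1 w2
  have par := A2.XM_eq b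
  have pal := A2.cl_eq b
  have par' := A2.cr_eq b
  rw [hi] at w1 w2 w3 w4
  rw [hj] at par pal par'
  unfold hpp at par pal par'
  rw [if_pos rfl] at par pal par'
  have key : ∃ H : ℝ, 1 ≤ H ∧ 15 / 100 ≤ H * wcl b h2 ∧ 20 / 100 ≤ H * wcr b h2 ∧
      wXM b h2 ≤ 86 / 100 ∧ -(91 / 1000) ≤ H * Th b zs h2 j ∧ H * Th b zs h2 j ≤ 77 / 1000 ∧
      21 / 1000 ≤ Th b zs h j ∧ Th b zs h j ≤ 1145 / 10000 := by
    rw [par, pal, par']
    rcases hr3 with hc | hc | hc <;> rw [hc] at w1 w2 w3 w4 <;> rw [hc] <;>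
      simp only [cw] at w1 w2 w3 w4
    · refine ⟨1, le_rfl, ?_, ?_, ?_, by linarith only [w1], by linarith only [w2], by linarith only [w3], by linarith only [w4]⟩ <;>
        unfold hp <;> split_ifs <;> norm_num
    · refine ⟨1, le_rfl, ?_, ?_, ?_, by linarith only [w1], by linarith only [w2], by linarith only [w3], by linarith only [w4]⟩ <;>
        unfold hp hp1 <;> norm_num
    · refine ⟨15 / 14, by norm_num, ?_, ?_, ?_, by linarith only [w1], by linarith only [w2], by linarith only [w3],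
        by linarith only [w4]⟩ <;> unfold hp hp1 <;> norm_num
  obtain ⟨H, q0, q1, q2, q3, q4, q5, q6, q7⟩ := key
  obtain ⟨y, κ, y0, y1, eY, hκ⟩ := hM.par0 hN As hn A2' (hB A2) (H := H) (X := 86 / 100)
    (cl := 15 / 100) (cr := 20 / 100) (by norm_num) (by norm_num) q0 q1 q2 q3
  have hw0 : (0 : ℝ) ≤ 1 / 2 := by norm_num
  have k := FarG.one (zs := zs) (nb := nb) (z := z) (p := p) (c := 1 / 2) hb As hj hn hw0
    (by rw [hX]; norm_num)
  rw [hB As, mul_zero, add_zero, eY, e2] at k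
  refine k.mono ?_
  have ht : ∀ t, trh b h t = tr 0 (65 / 100) (15 / 100) (29 / 100) t := by
    intro t
    unfold trh
    rw [hX, hl, hr']
  unfold tgo
  rw [ht, ht]
  refine I3S.nK d0 d1 q6 q7 y0 (y1.trans q3) ?_ ?_ <;>
    rcases hκ with ⟨k0, k1⟩ | ⟨k0, k1⟩ <;> linarith only [k0, q4, q5, k1]

end common

end SR

end Pool.Agent.Work.MP_b30479_gt.G2
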