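import Pool.Agent.Work.MP_b30479_gt.G2.WM_in3A
import Pool.Agent.Work.MP_b30479_gt.G2.WM_in3Ra
import Pool.Agent.Work.MP_b30479_gt.G2.WM_in3Rb
import Pool.Agent.Work.MP_b30479_gt.G2.WM_in3Rc
import Pool.Agent.Work.MP_b30479_gt.G2.WM_in3Rd
import Pool.Agent.Work.MP_b30479_gt.G2.WM_in3Re
import Pool.Agent.Work.MP_b30479_gt.G2.WM_in3S

/-!
# Mirrored paths, inner variable of an interior `3`: the right side

`In3.W c β`: gain of the right side if the inner variable is moved to `c`; the hinge `w` in the
slot `2` is kept, or moved to `1/2` (a `1` behind it, `w` beyond `6/10`).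
-/

namespace Pool.Agent.Work.MP_b30479_gt.G2

open Finset VOL Filter Topology

namespace IT

open NumG

theorem w0 (x y z w : ℝ) : NumI.lkR [x, y, z, w] 0 = x := rfl
theorem w1 (x y z w : ℝ) : NumI.lkR [x, y, z, w] 1 = y := rfl
theorem w2 (x y z w : ℝ) : NumI.lkR [x, y, z, w] 2 = z := rfl
theorem w3 (x y z w : ℝ) : NumI.lkR [x, y, z, w] 3 = w := rfl

variable {x T d θ : ℝ}

theorem kk_val : kk.val [x, T, d, θ] = θ * tr 0 (65 / 100) (13 / 100) (29 / 100) d := by
  unfold kk
  simp only [E.val, w2, w3, E.tr_val (XM := 650) (cl := 130) (cr := 290) (by norm_num)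
    (by norm_num) (by norm_num)]
  norm_num

theorem wr_val (c : ℤ) {be : E} (h : bl 2 be = true) : (wr c be).val [x, T, d, θ] =
    V2 ⟨(c : ℝ) / 1000, T⟩ ⟨d, θ * tr 0 (65 / 100) (13 / 100) (29 / 100) d⟩ -
      V2 ⟨x, 16 / 100 * tau3 x⟩ ⟨d, θ * tr 0 (65 / 100) (13 / 100) (29 / 100) d⟩ -
      UU ⟨x, 16 / 100 * tau3 x⟩ + 2 * Real.pi * (16 / 100 * tau3 x) - bv be x T := by
  unfold wr
  rw [E.val, E.val, dW_val, bv_eq h, pen_val, cc_val, th_val, kk_val]
  rfl

theorem wk_val (c : ℤ) {be : E} (h : bl 2 be = true) : (wk c be).val [x, T, d, θ] =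
    V2 ⟨(c : ℝ) / 1000, T⟩ ⟨1 / 2, θ * tr 0 (65 / 100) (15 / 100) (29 / 100) (1 / 2)⟩ -
      V2 ⟨x, 16 / 100 * tau3 x⟩ ⟨d, θ * tr 0 (65 / 100) (15 / 100) (29 / 100) d⟩ -
      UU ⟨x, 16 / 100 * tau3 x⟩ + 2 * Real.pi * (16 / 100 * tau3 x) +
      plR d (-126) [(600, -32, 25)] - bv be x T := by
  unfold wk
  rw [E.val, E.val, E.val, dK_val, bv_eq h, pen_val, cc_val, th_val]
  have e1 : (cc 500).val [x, T, d, θ] = 1 / 2 := by rw [cc_val]; norm_num
  have e2 : ((E.var 3).mul (E.tr 650 150 290 (cc 500))).val [x, T, d, θ] =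
      θ * tr 0 (65 / 100) (15 / 100) (29 / 100) (1 / 2) := by
    simp only [E.val, w3, e1, E.tr_val (XM := 650) (cl := 150) (cr := 290) (by norm_num)
      (by norm_num) (by norm_num)]
    norm_num
  have e3 : ((E.var 3).mul (E.tr 650 150 290 (.var 2))).val [x, T, d, θ] =
      θ * tr 0 (65 / 100) (15 / 100) (29 / 100) d := by
    simp only [E.val, w2, w3, E.tr_val (XM := 650) (cl := 150) (cr := 290) (by norm_num)
      (by norm_num) (by norm_num)]
    norm_num
  have e4 : (phK (.var 2)).val [x, T, d, θ] = plR d (-126) [(600, -32, 25)] := by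
    unfold phK
    rw [E.pl_val]
    rfl
  rw [e1, e2, e3, e4]
  rfl

/-- the second test of the rows of the right side -/
theorem wx_pos (h : 0 < wx.val [x, T, d, θ]) : x < 2 / 100 ∧ d < 1 / 10 := by
  unfold wx mn vx at h
  simp only [E.val, cc_val, w0, w2] at h
  push_cast at h
  have h1 := le_max_right ((20 : ℝ) / 1000 - x - (100 / 1000 - d)) 0
  have h2 := le_max_left ((20 : ℝ) / 1000 - x - (100 / 1000 - d)) 0
  constructor <;> linarith only [h, h1, h2]

theorem wr_get {c : ℤ} {be : E} (h : 2 / 100 ≤ x ∨ 1 / 10 ≤ d)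
    (hx : ∃ f ∈ [wr c be, wx], 0 < f.val [x, T, d, θ]) : 0 < (wr c be).val [x, T, d, θ] := by
  obtain ⟨f, hf, hp⟩ := hx
  simp only [List.mem_cons, List.not_mem_nil, or_false] at hf
  rcases hf with rfl | rfl
  · exact hp
  · obtain ⟨h1, h2⟩ := wx_pos hp
    rcases h with h | h <;> linarith only [h1, h, h2]

theorem one_get {e : E} (hx : ∃ f ∈ [e], 0 < f.val [x, T, d, θ]) : 0 < e.val [x, T, d, θ] := by
  obtain ⟨f, hf, hp⟩ := hx
  rw [List.mem_singleton] at hf
  rwa [hf] at hp

end IT

namespace SR

open IT NumG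

variable {M : ℕ} {b : Fin (M + 1) → ℤ} {zs : DD (tyW b) ⊕ ZZ (tyW b) → ℂ}
variable {R : Finset (DD (tyW b))} {nb : Finset (DD (tyW b) ⊕ ZZ (tyW b))}
variable {z : DD (tyW b) ⊕ ZZ (tyW b) → ℂ} {p : DD (tyW b) → ℝ}
variable {m : {i : Fin (M + 1) // (tyW b i).isMid = true}} {h0 h2 : Fin M} {j0 j2 : Fin (M + 1)}
variable {x d θ : ℝ}

/-- a hinge which is not real and without penalty is on its main path -/
theorem MM.pos1 {h' : Fin M} {i j' : Fin (M + 1)} {s : Fin 3} (hM : MM b zs R nb z p)
    (A' : Adj h' i s j') (hp0 : p (.inl h') = 0) (hn : Sum.inl (Sum.inl h') ∉ nb) :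
    (Ow b z i s).im = Th b zs h' i * trh b h' (Ow b z i s).re := by
  rw [Ow_adj z A']
  obtain ⟨x, h0, h1, h2⟩ := hM.adm.onD (.inl h') hn
  have hu : 0 < (wparM b zs).hu (.inl h') := (mh_pos (b := b) (zs := zs) (.inl h')).1
  have hd : 0 < (wparM b zs).hd (.inl h') := (mh_pos (b := b) (zs := zs) (.inl h')).2
  have e : ∀ H : ℝ, H * trh b h' x = 0 → H ≠ 0 → trh b h' x = 0 := by
    intro H h3 h4
    rcases mul_eq_zero.1 h3 with h5 | h5
    · exact absurd h5 h4
    · exact h5
  rcases h2 with ⟨e1, e2⟩ | ⟨e1, e2⟩ | ⟨e1, e2⟩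
  · rw [ofr_re, ofr_im, e1, ptm_re, ptm_im, ofs_mulR]
    rfl
  · have h3 : trh b h' x = 0 := e _ (by rw [hp0] at e2; exact e2.symm) hu.ne'
    rw [ofr_re, ofr_im, e1, ptm_re, ptm_im, ofs_mulR]
    show _ * trh b h' x = _ * trh b h' x
    rw [h3, mul_zero, mul_zero]
  · have h3 : trh b h' x = 0 := e _ (by rw [hp0] at e2; exact e2.symm) hd.ne'
    rw [ofr_re, ofr_im, e1, ptm_re, ptm_im, ofs_mulR]
    show _ * trh b h' x = _ * trh b h' x
    rw [h3, mul_zero, mul_zero]

variable (S : In3 b zs R nb z p m h0 h2 j0 j2 x)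
include S

theorem In3.T_mem : -(123 / 1000) ≤ Tm b zs m := by
  have h1 := S.L.X.mid m.2 S.A0 S.A2 S.c
  obtain ⟨h2, -, -, -⟩ := h1
  have e : ofs (b m.1) (zs (.inl (.inr ⟨m.1, m.2⟩))).im = Tm b zs m := rfl
  rw [e] at h2
  rcases hj : clsW b j0 <;> rcases hk : clsW b j2 <;> rw [hj, hk] at h2 <;>
    simp only [mw] at h2 <;> linarith only [h2]

/-- the hinge `w` is kept -/
theorem In3.W_row {c : ℤ} {be : E} (hbe : bl 2 be = true)
    (e : Ow b z m.1 2 = ⟨d, θ * tr 0 (65 / 100) (13 / 100) (29 / 100) d⟩)
    (h : 0 < (IT.wr c be).val [x, Tm b zs m, d, θ]) :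
    S.W ((c : ℝ) / 1000) (bv be x (Tm b zs m)) := by
  refine ⟨z (.inl (.inl h2)), 0, FarG.keep h2 j2, ?_⟩
  rw [wr_val c hbe] at h
  rw [ofr_z S.A2, S.own, S.pm, e]
  linarith only [h]

/-- the hinge `w` is moved to `1/2` -/
theorem In3.W_rowK {c : ℤ} {be : E} (hbe : bl 2 be = true) (hn : Sum.inl (Sum.inl h2) ∉ nb)
    (hj : clsW b j2 = .one) (e : Ow b z m.1 2 = ⟨d, Th b zs h2 m.1 * trh b h2 d⟩)
    (d0 : 6 / 10 ≤ d) (d1 : d ≤ 65 / 100)
    (h : 0 < (IT.wk c be).val [x, Tm b zs m, d, Th b zs h2 m.1]) :
    S.W ((c : ℝ) / 1000) (bv be x (Tm b zs m)) := by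
  have hB : ∀ {h' : Fin M} {s' : Fin 3} {j' : Fin (M + 1)}, Adj h' j2 s' j' → p (.inl h') = 0 := by
    intro h' s' j' A
    rcases A.slot with hs | hs
    · subst hs
      have e1 : h' = h2 := A.eq_of_slot (k' := m.1) S.A2.symm
      rw [e1]
      exact S.hA h2 2 j2 S.A2
    · subst hs
      have A' : Adj h' j' 0 j2 := A.symm
      rcases S.hB h' j' j2 A' with h3 | ⟨-, h3⟩
      · exact h3
      · rw [hj] at h3
        exact absurd h3 (by decide)
  have F := in3_K S.hb S.L S.N S.Mx S.c hn hB S.A2 hj e d0 d1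
  refine ⟨_, _, F, ?_⟩
  rw [wk_val c hbe] at h
  obtain ⟨hX, hl, hr⟩ := S.par2.1 hj
  have ht : ∀ t, trh b h2 t = tr 0 (65 / 100) (15 / 100) (29 / 100) t := by
    intro t
    unfold trh
    rw [hX, hl, hr]
  rw [ofr_tg, S.own, S.pm, e]
  unfold tgo
  rw [ht, ht]
  linarith only [h]

/-- positions of the hinge `w` -/
theorem In3.wpos : 0 ≤ (Ow b z m.1 2).re ∧
    (((Ow b z m.1 2).re ≤ 6 / 10 ∧ ∃ θ, -(1145 / 10000) ≤ θ ∧ θ ≤ 57 / 1000 ∧
      Ow b z m.1 2 = ⟨(Ow b z m.1 2).re,
        θ * tr 0 (65 / 100) (13 / 100) (29 / 100) (Ow b z m.1 2).re⟩) ∨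
    (clsW b j2 = .one ∧ Sum.inl (Sum.inl h2) ∉ nb ∧ 6 / 10 ≤ (Ow b z m.1 2).re ∧
      (Ow b z m.1 2).re ≤ 65 / 100 ∧ Ow b z m.1 2 = ⟨(Ow b z m.1 2).re,
        Th b zs h2 m.1 * trh b h2 (Ow b z m.1 2).re⟩ ∧
      -(1145 / 10000) ≤ Th b zs h2 m.1 ∧ Th b zs h2 m.1 ≤ -(21 / 1000))) := by
  have hnt := not_tch_of S.N S.A0 S.c S.nn
  obtain ⟨w0, w1, w2⟩ := S.Mx.pos0 S.A2 (S.hA h2 2 j2 S.A2) fun hR => hnt ⟨_, hR, 2, S.A2.cf_ne⟩
  set d := (Ow b z m.1 2).re with hd
  refine ⟨w0, ?_⟩
  obtain ⟨T0, T1⟩ := Th_mem S.hb S.L.L S.A2 (by rw [S.c]; decide)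
  rw [S.c] at T0 T1
  obtain ⟨p1, p2⟩ := S.par2
  have hT : -(1145 / 10000) ≤ Th b zs h2 m.1 ∧ Th b zs h2 m.1 ≤ 57 / 1000 := by
    rcases hc : clsW b j2 <;> rw [hc] at T0 T1 <;> simp only [hbox] at T0 T1 <;>
      constructor <;> linarith only [T0, T1]
  have hX : 0 < wcl b h2 ∧ 0 < wcr b h2 ∧ 13 / 100 ≤ wcl b h2 ∧ wXM b h2 ≤ 65 / 100 ∧
      29 / 100 ≤ wcr b h2 + (65 / 100 - wXM b h2) := by
    by_cases hj : clsW b j2 = .one
    · obtain ⟨e1, e2, e3⟩ := p1 hj
      rw [e1, e2, e3]; norm_num
    · obtain ⟨e1, e2, e3⟩ := p2 hj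
      rw [e1, e2, e3]; norm_num
  obtain ⟨q1, q2, q3, q4, q5⟩ := hX
  have hpar : ∃ θ, -(1145 / 10000) ≤ θ ∧ θ ≤ 57 / 1000 ∧
      Ow b z m.1 2 = ⟨d, θ * tr 0 (65 / 100) (13 / 100) (29 / 100) d⟩ := by
    rcases w2 with w2 | w2
    · obtain ⟨θ, t0, t1, e⟩ := par_hull (T := Th b zs h2 m.1) (τ1 := trh b h2 d)
        (τ2 := tr 0 (65 / 100) (13 / 100) (29 / 100) d) (t0 := -(1145 / 10000)) (t1 := 57 / 1000)
        (tr_mem _ _ _ _ _).1
        (tr_hull (by norm_num) (by norm_num) q3 q4 q5 q2 d) (by norm_num) (by norm_num) hT.1 hT.2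
      exact ⟨θ, t0, t1, Complex.ext rfl (w2.trans e)⟩
    · exact ⟨0, by norm_num, by norm_num, Complex.ext rfl (by rw [w2, zero_mul])⟩
  rcases le_total d (6 / 10) with h6 | h6
  · exact Or.inl ⟨h6, hpar⟩
  by_cases hj : clsW b j2 = .one
  · obtain ⟨e1, e2, e3⟩ := p1 hj
    by_cases hn : Sum.inl (Sum.inl h2) ∈ nb
    · have h7 := S.Mx.real_le S.hb S.N S.A2 hnt hn (Or.inl hj)
      left
      exact ⟨by linarith only [q1, h6, e2, h7], hpar⟩
    · rw [e1] at w1
      rw [hj] at T0 T1
      simp only [hbox] at T0 T1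
      exact Or.inr ⟨hj, hn, h6, w1,
        Complex.ext rfl (S.Mx.pos1 S.A2 (S.hA h2 2 j2 S.A2) hn), T0, T1⟩
  · obtain ⟨e1, e2, e3⟩ := p2 hj
    rw [e1] at w1
    exact Or.inl ⟨w1, hpar⟩

theorem In3.w_hi (h : 2 / 100 ≤ x ∨ 1 / 10 ≤ (Ow b z m.1 2).re) :
    ∀ q ∈ ch, S.W ((q.1 : ℝ) / 1000) (bv q.2 x (Tm b zs m)) := by
  intro q hq
  have T0 := S.T_mem
  have T1 := S.T0
  have x0 := S.x0
  have x1 := S.x1
  obtain ⟨w0, w⟩ := S.wpos
  rcases w with ⟨d1, θ, t0, t1, e⟩ | ⟨hj, hn, d0, d1, e, t0, t1⟩
  · simp only [ch, List.mem_cons, List.not_mem_nil, or_false] at hq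
    rcases hq with rfl | rfl | rfl
    · refine S.W_row (c := 300) (be := h30) rfl e ?_
      refine wr_get h ?_
      rcases le_total x (2 / 10) with hx | hx
      · exact chkF4 r_h30a (by norm_num) (by push_cast; linarith only [x0]) (by push_cast; linarith only [hx])
          (by push_cast; linarith only [T0]) (by push_cast; linarith only [T1]) (by push_cast; linarith only [w0])
          (by push_cast; linarith only [d1]) (by push_cast; linarith only [t0]) (by push_cast; linarith only [t1])
      · exact chkF4 r_h30b (by norm_num) (by push_cast; linarith only [hx]) (by push_cast; linarith only [x1])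
          (by push_cast; linarith only [T0]) (by push_cast; linarith only [T1]) (by push_cast; linarith only [w0])
          (by push_cast; linarith only [d1]) (by push_cast; linarith only [t0]) (by push_cast; linarith only [t1])
    · refine S.W_row (c := 250) (be := h25) rfl e ?_
      refine wr_get h ?_
      rcases le_total x (2 / 10) with hx | hx
      · exact chkF4 r_h25a (by norm_num) (by push_cast; linarith only [x0]) (by push_cast; linarith only [hx])
          (by push_cast; linarith only [T0]) (by push_cast; linarith only [T1]) (by push_cast; linarith only [w0])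
          (by push_cast; linarith only [d1]) (by push_cast; linarith only [t0]) (by push_cast; linarith only [t1])
      · exact chkF4 r_h25b (by norm_num) (by push_cast; linarith only [hx]) (by push_cast; linarith only [x1])
          (by push_cast; linarith only [T0]) (by push_cast; linarith only [T1]) (by push_cast; linarith only [w0])
          (by push_cast; linarith only [d1]) (by push_cast; linarith only [t0]) (by push_cast; linarith only [t1])
    · refine S.W_row (c := 350) (be := h35) rfl e ?_
      refine wr_get h ?_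
      rcases le_total x (2 / 10) with hx | hx
      · exact chkF4 r_h35a (by norm_num) (by push_cast; linarith only [x0]) (by push_cast; linarith only [hx])
          (by push_cast; linarith only [T0]) (by push_cast; linarith only [T1]) (by push_cast; linarith only [w0])
          (by push_cast; linarith only [d1]) (by push_cast; linarith only [t0]) (by push_cast; linarith only [t1])
      · exact chkF4 r_h35b (by norm_num) (by push_cast; linarith only [hx]) (by push_cast; linarith only [x1])
          (by push_cast; linarith only [T0]) (by push_cast; linarith only [T1]) (by push_cast; linarith only [w0])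
          (by push_cast; linarith only [d1]) (by push_cast; linarith only [t0]) (by push_cast; linarith only [t1])
  · simp only [ch, List.mem_cons, List.not_mem_nil, or_false] at hq
    rcases hq with rfl | rfl | rfl
    · refine S.W_rowK (c := 300) (be := h30) rfl hn hj e d0 d1 (one_get ?_)
      exact chkF4 r_k30 (by norm_num) (by push_cast; linarith only [x0]) (by push_cast; linarith only [x1])
          (by push_cast; linarith only [T0]) (by push_cast; linarith only [T1]) (by push_cast; linarith only [d0])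
          (by push_cast; linarith only [d1]) (by push_cast; linarith only [t0]) (by push_cast; linarith only [t1])
    · refine S.W_rowK (c := 250) (be := h25) rfl hn hj e d0 d1 (one_get ?_)
      exact chkF4 r_k25 (by norm_num) (by push_cast; linarith only [x0]) (by push_cast; linarith only [x1])
          (by push_cast; linarith only [T0]) (by push_cast; linarith only [T1]) (by push_cast; linarith only [d0])
          (by push_cast; linarith only [d1]) (by push_cast; linarith only [t0]) (by push_cast; linarith only [t1])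
    · refine S.W_rowK (c := 350) (be := h35) rfl hn hj e d0 d1 (one_get ?_)
      exact chkF4 r_k35 (by norm_num) (by push_cast; linarith only [x0]) (by push_cast; linarith only [x1])
          (by push_cast; linarith only [T0]) (by push_cast; linarith only [T1]) (by push_cast; linarith only [d0])
          (by push_cast; linarith only [d1]) (by push_cast; linarith only [t0]) (by push_cast; linarith only [t1])

theorem In3.w_hi0 (h : x ≤ 2 / 100) (h' : 1 / 10 ≤ (Ow b z m.1 2).re) :
    ∀ q ∈ ch0, S.W ((q.1 : ℝ) / 1000) (bv q.2 x (Tm b zs m)) := by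
  intro q hq
  simp only [ch0, List.mem_cons] at hq
  rcases hq with rfl | hq
  · have T0 := S.T_mem
    have T1 := S.T0
    have x0 := S.x0
    obtain ⟨w0, w⟩ := S.wpos
    rcases w with ⟨d1, θ, t0, t1, e⟩ | ⟨hj, hn, d0, d1, e, t0, t1⟩
    · refine S.W_row (c := 200) (be := h20) rfl e (one_get ?_)
      exact chkF4 r_h20 (by norm_num) (by push_cast; linarith only [x0]) (by push_cast; linarith only [h])
          (by push_cast; linarith only [T0]) (by push_cast; linarith only [T1]) (by push_cast; linarith only [h'])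
          (by push_cast; linarith only [d1]) (by push_cast; linarith only [t0]) (by push_cast; linarith only [t1])
    · refine S.W_rowK (c := 200) (be := h20) rfl hn hj e d0 d1 (one_get ?_)
      exact chkF4 r_k20 (by norm_num) (by push_cast; linarith only [x0]) (by push_cast; linarith only [h])
          (by push_cast; linarith only [T0]) (by push_cast; linarith only [T1]) (by push_cast; linarith only [d0])
          (by push_cast; linarith only [d1]) (by push_cast; linarith only [t0]) (by push_cast; linarith only [t1])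
  · exact S.w_hi (Or.inr h') q hq

/-- `w` at most at `1/10`: it is kept -/
theorem In3.wlow (h' : (Ow b z m.1 2).re ≤ 1 / 10) : ∃ θ, -(1145 / 10000) ≤ θ ∧ θ ≤ 57 / 1000 ∧
    Ow b z m.1 2 = ⟨(Ow b z m.1 2).re,
      θ * tr 0 (65 / 100) (13 / 100) (29 / 100) (Ow b z m.1 2).re⟩ := by
  obtain ⟨w0, w⟩ := S.wpos
  rcases w with ⟨d1, w⟩ | ⟨hj, hn, d0, d1, -⟩
  · exact w
  · linarith only [h', d0]

theorem In3.w_lo (h : x ≤ 2 / 100) (h' : (Ow b z m.1 2).re ≤ 1 / 10) :
    ∀ q ∈ cl, S.W ((q.1 : ℝ) / 1000) (bv q.2 x (Tm b zs m)) := by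
  intro q hq
  have T0 := S.T_mem
  have T1 := S.T0
  have x0 := S.x0
  have w0 := S.wpos.1
  obtain ⟨θ, t0, t1, e⟩ := S.wlow h'
  simp only [cl, List.mem_cons, List.not_mem_nil, or_false] at hq
  rcases hq with rfl | rfl | rfl | rfl | rfl
  · refine S.W_row (c := 300) (be := l30) rfl e (one_get ?_)
    exact chkF4 r_l30 (by norm_num) (by push_cast; linarith only [x0]) (by push_cast; linarith only [h])
          (by push_cast; linarith only [T0]) (by push_cast; linarith only [T1]) (by push_cast; linarith only [w0])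
          (by push_cast; linarith only [h']) (by push_cast; linarith only [t0]) (by push_cast; linarith only [t1])
  · refine S.W_row (c := 350) (be := l35) rfl e (one_get ?_)
    exact chkF4 r_l35 (by norm_num) (by push_cast; linarith only [x0]) (by push_cast; linarith only [h])
          (by push_cast; linarith only [T0]) (by push_cast; linarith only [T1]) (by push_cast; linarith only [w0])
          (by push_cast; linarith only [h']) (by push_cast; linarith only [t0]) (by push_cast; linarith only [t1])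
  · refine S.W_row (c := 400) (be := l40) rfl e (one_get ?_)
    exact chkF4 r_l40 (by norm_num) (by push_cast; linarith only [x0]) (by push_cast; linarith only [h])
          (by push_cast; linarith only [T0]) (by push_cast; linarith only [T1]) (by push_cast; linarith only [w0])
          (by push_cast; linarith only [h']) (by push_cast; linarith only [t0]) (by push_cast; linarith only [t1])
  · refine S.W_row (c := 250) (be := l25) rfl e (one_get ?_)
    exact chkF4 r_l25 (by norm_num) (by push_cast; linarith only [x0]) (by push_cast; linarith only [h])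
          (by push_cast; linarith only [T0]) (by push_cast; linarith only [T1]) (by push_cast; linarith only [w0])
          (by push_cast; linarith only [h']) (by push_cast; linarith only [t0]) (by push_cast; linarith only [t1])
  · refine S.W_row (c := 200) (be := l20) rfl e (one_get ?_)
    exact chkF4 r_l20 (by norm_num) (by push_cast; linarith only [x0]) (by push_cast; linarith only [h])
          (by push_cast; linarith only [T0]) (by push_cast; linarith only [T1]) (by push_cast; linarith only [w0])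
          (by push_cast; linarith only [h']) (by push_cast; linarith only [t0]) (by push_cast; linarith only [t1])

theorem In3.w_lx (h : x ≤ 2 / 100) (h' : (Ow b z m.1 2).re ≤ 1 / 10) :
    ∀ q ∈ cx, S.W ((q.1 : ℝ) / 1000) (bv q.2 x (Tm b zs m)) := by
  intro q hq
  have T0 := S.T_mem
  have T1 := S.T0
  have x0 := S.x0
  have w0 := S.wpos.1
  obtain ⟨θ, t0, t1, e⟩ := S.wlow h'
  simp only [cx, List.mem_cons, List.not_mem_nil, or_false] at hq
  rcases hq with rfl | rfl | rfl | rfl
  · refine S.W_row (c := 450) (be := l45) rfl e (one_get ?_)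
    exact chkF4 r_l45 (by norm_num) (by push_cast; linarith only [x0]) (by push_cast; linarith only [h])
          (by push_cast; linarith only [T0]) (by push_cast; linarith only [T1]) (by push_cast; linarith only [w0])
          (by push_cast; linarith only [h']) (by push_cast; linarith only [t0]) (by push_cast; linarith only [t1])
  · refine S.W_row (c := 200) (be := l20) rfl e (one_get ?_)
    exact chkF4 r_l20 (by norm_num) (by push_cast; linarith only [x0]) (by push_cast; linarith only [h])
          (by push_cast; linarith only [T0]) (by push_cast; linarith only [T1]) (by push_cast; linarith only [w0])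
          (by push_cast; linarith only [h']) (by push_cast; linarith only [t0]) (by push_cast; linarith only [t1])
  · refine S.W_row (c := 300) (be := l30) rfl e (one_get ?_)
    exact chkF4 r_l30 (by norm_num) (by push_cast; linarith only [x0]) (by push_cast; linarith only [h])
          (by push_cast; linarith only [T0]) (by push_cast; linarith only [T1]) (by push_cast; linarith only [w0])
          (by push_cast; linarith only [h']) (by push_cast; linarith only [t0]) (by push_cast; linarith only [t1])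
  · refine S.W_row (c := 400) (be := l40) rfl e (one_get ?_)
    exact chkF4 r_l40 (by norm_num) (by push_cast; linarith only [x0]) (by push_cast; linarith only [h])
          (by push_cast; linarith only [T0]) (by push_cast; linarith only [T1]) (by push_cast; linarith only [w0])
          (by push_cast; linarith only [h']) (by push_cast; linarith only [t0]) (by push_cast; linarith only [t1])

theorem In3.w_m20 (h : x ≤ 2 / 100) (h1 : 4 / 100 ≤ (Ow b z m.1 2).re)
    (h' : (Ow b z m.1 2).re ≤ 1 / 10) (hT : -(25 / 1000) ≤ Tm b zs m) :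
    S.W (200 / 1000) (bv m20 x (Tm b zs m)) := by
  have T1 := S.T0
  have x0 := S.x0
  obtain ⟨θ, t0, t1, e⟩ := S.wlow h'
  have key : S.W (((200 : ℤ) : ℝ) / 1000) (bv m20 x (Tm b zs m)) := by
    refine S.W_row (c := 200) (be := m20) rfl e (one_get ?_)
    exact chkF4 r_m20 (by norm_num) (by push_cast; linarith only [x0]) (by push_cast; linarith only [h])
          (by push_cast; linarith only [hT]) (by push_cast; linarith only [T1]) (by push_cast; linarith only [h1])
          (by push_cast; linarith only [h']) (by push_cast; linarith only [t0]) (by push_cast; linarith only [t1])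
  have e2 : ((200 : ℤ) : ℝ) / 1000 = 200 / 1000 := by norm_num
  rwa [e2] at key

theorem In3.w_n20 (h : x ≤ 2 / 100) (h1 : 2 / 100 ≤ (Ow b z m.1 2).re)
    (h' : (Ow b z m.1 2).re ≤ 1 / 10) (hT : -(38 / 1000) ≤ Tm b zs m) :
    S.W (200 / 1000) (bv n20 x (Tm b zs m)) := by
  have T1 := S.T0
  have x0 := S.x0
  obtain ⟨θ, t0, t1, e⟩ := S.wlow h'
  have key : S.W (((200 : ℤ) : ℝ) / 1000) (bv n20 x (Tm b zs m)) := by
    refine S.W_row (c := 200) (be := n20) rfl e (one_get ?_)
    exact chkF4 r_n20 (by norm_num) (by push_cast; linarith only [x0]) (by push_cast; linarith only [h])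
          (by push_cast; linarith only [hT]) (by push_cast; linarith only [T1]) (by push_cast; linarith only [h1])
          (by push_cast; linarith only [h']) (by push_cast; linarith only [t0]) (by push_cast; linarith only [t1])
  have e2 : ((200 : ℤ) : ℝ) / 1000 = 200 / 1000 := by norm_num
  rwa [e2] at key

end SR

end Pool.Agent.Work.MP_b30479_gt.G2
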