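import Pool.Agent.Work.MP_b30479_gt.G2.WM_in3P
import Pool.Agent.Work.MP_b30479_gt.G2.WM_in3W
import Pool.Agent.Work.MP_b30479_gt.G2.WM_in3U

/-!
# Mirrored paths, inner variable of an interior `3`: the classes of the left neighbour
-/

namespace Pool.Agent.Work.MP_b30479_gt.G2

open Finset VOL Filter Topology

namespace SR

open IT NumG

variable {M : ℕ} {b : Fin (M + 1) → ℤ} {zs : DD (tyW b) ⊕ ZZ (tyW b) → ℂ}
variable {R : Finset (DD (tyW b))} {nb : Finset (DD (tyW b) ⊕ ZZ (tyW b))}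
variable {z : DD (tyW b) ⊕ ZZ (tyW b) → ℂ} {p : DD (tyW b) → ℝ}
variable {m : {i : Fin (M + 1) // (tyW b i).isMid = true}} {h0 h2 : Fin M} {j0 j2 : Fin (M + 1)}
variable {x : ℝ}

/-- the value of a piecewise linear function of the hinge -/
theorem ph_val (y0 : ℤ) (l : List (ℤ × ℤ × ℕ)) (x T a θ : ℝ) :
    (E.pl (.var 2) y0 l).val [x, T, a, θ] = plR a y0 l := by
  rw [E.pl_val]
  rfl

theorem mw3_one (K : Cl) : -(745 / 10000) ≤ (mw3 false K).t0 ∧ (mw3 false K).t1 ≤ -(67 / 10000) ∧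
    -(170 / 10000) ≤ (mw3 false K).s0 ∧ (mw3 false K).s1 ≤ 471 / 10000 ∧
    -(802 / 10000) ≤ (mw3 false K).y0 ∧ (mw3 false K).y1 ≤ -(241 / 10000) := by
  rcases K <;> simp only [mw3] <;> norm_num

theorem mw3_two (K : Cl) : -(582 / 10000) ≤ (mw3 true K).t0 ∧
    172 / 10000 ≤ (mw3 true K).s0 ∧ (mw3 true K).s1 ≤ 631 / 10000 ∧
    -(915 / 10000) ≤ (mw3 true K).y0 ∧ (mw3 true K).y1 ≤ -(499 / 10000) := by
  rcases K <;> simp only [mw3] <;> norm_num

theorem mw2_bd (K : Cl) : -(885 / 10000) ≤ (mw2 K).t0 ∧ (mw2 K).t1 ≤ -(130 / 10000) ∧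
    -(535 / 10000) ≤ (mw2 K).s0 ∧ (mw2 K).s1 ≤ 135 / 10000 ∧
    -(530 / 10000) ≤ (mw2 K).y0 ∧ (mw2 K).y1 ≤ 22 / 10000 := by
  rcases K <;> simp only [mw2] <;> norm_num

theorem mw_one (K : Cl) (hK : K ≠ .one) : -(820 / 10000) ≤ (mw .one K).t0 ∧
    -(400 / 10000) ≤ (mw .one K).s0 ∧ (mw .one K).s1 ≤ 840 / 10000 := by
  rcases K <;> first | exact absurd rfl hK | (simp only [mw]; norm_num)

theorem mw_twoE (K : Cl) : -(1230 / 10000) ≤ (mw .twoE K).t0 ∧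
    (mw .twoE K).t1 ≤ -(640 / 10000) ∧ -(480 / 10000) ≤ (mw .twoE K).s0 ∧
    (mw .twoE K).s1 ≤ 320 / 10000 := by
  rcases K <;> simp only [mw] <;> norm_num

theorem mw_three {A : Cl} (hA : A = .three ∨ A = .threeE ∨ A = .ring) (K : Cl) :
    -(1140 / 10000) ≤ (mw A K).t0 ∧ -(1050 / 10000) ≤ (mw A K).s0 ∧
      (mw A K).s1 ≤ 280 / 10000 := by
  rcases hA with rfl | rfl | rfl <;> rcases K <;> simp only [mw] <;> norm_num

variable (S : In3 b zs R nb z p m h0 h2 j0 j2 x)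
include S

theorem In3.cm : clsW b m.1 = .three := S.c

/-- no penalty at the hinges of the left region -/
theorem In3.hBj (h1 : clsW b j0 ≠ .one ∨ ∀ {h r}, Adj h j0 0 r → clsW b r ≠ .three)
    {h' : Fin M} {s' : Fin 3} {j' : Fin (M + 1)} (A : Adj h' j0 s' j') : p (.inl h') = 0 := by
  rcases A.slot with rfl | rfl
  · rcases S.hB h' j0 j' A with h3 | h3
    · exact h3
    · rcases h1 with h1 | h1
      · exact absurd h3.1 h1
      · exact absurd h3.2 (h1 A)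
  · have A' : Adj h0 j0 2 m.1 := S.A0.symm
    rw [A.eq_of_slot A']
    exact S.hA h0 0 j0 S.A0

/-- windows of the inner variable -/
theorem In3.mid : (mw (clsW b j0) (clsW b j2)).t0 ≤ Tm b zs m ∧
    Tm b zs m ≤ (mw (clsW b j0) (clsW b j2)).t1 ∧
    (mw (clsW b j0) (clsW b j2)).s0 ≤ Tm b zs m - Th b zs h0 m.1 ∧
    Tm b zs m - Th b zs h0 m.1 ≤ (mw (clsW b j0) (clsW b j2)).s1 :=
  S.L.X.mid m.2 S.A0 S.A2 S.c

/-- the hinge in the slot `0` is real -/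
theorem In3.no_real (hr : (Ow b z m.1 0).im = 0) (ha : (Ow b z m.1 0).re ≤ 6 / 10) : False := by
  obtain ⟨a0, -, -⟩ := S.dom0
  have hT := S.T_mem
  have hT0 := S.T0
  have x0 := S.x0
  have x1 := S.x1
  set a := (Ow b z m.1 0).re with haa
  have hu : Ow b z m.1 0 = ⟨a, (IT.cc 0).val [x, Tm b zs m, a, 0]⟩ := by
    rw [cc_val]
    refine Complex.ext rfl ?_
    rw [hr]
    norm_num
  have hex : ∀ e ∈ [flR], e.val [x, Tm b zs m, a, 0] ≤ 0 := by
    intro e he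
    rw [List.mem_singleton] at he
    rw [he]
    exact S.flR_le hT 0
  have hex0 : ∀ e ∈ ([] : List E), e.val [x, Tm b zs m, a, 0] ≤ 0 := by
    intro e he
    exact absurd he List.not_mem_nil
  have hs0 : (((-2000 : ℤ) : ℝ)) / 10000 ≤ Tm b zs m - 0 := by push_cast; linarith only [hT, x0, x1]
  have hs1 : Tm b zs m - 0 ≤ (((2000 : ℤ) : ℝ)) / 10000 := by push_cast; linarith only [hT0, x0, x1]
  by_cases hx : 2 / 100 ≤ x
  · exact S.kill mn_ch (S.w_hi (Or.inl hx)) hu hex hs0 hs1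
      (R_Ra (by linarith only [hx]) (by linarith only [x1]) (by linarith only [hT]) hT0 a0 (by linarith only [ha]) le_rfl le_rfl)
  push Not at hx
  by_cases hd : 1 / 10 ≤ (Ow b z m.1 2).re
  · exact S.kill mn_ch0 (S.w_hi0 hx.le hd) hu hex0 hs0 hs1
      (R_Rb x0.le (by linarith only [hx]) (by linarith only [hT]) hT0 a0 (by linarith only [ha]) le_rfl le_rfl)
  push Not at hd
  by_cases h35 : a ≤ 35 / 100
  · exact S.kill mn_cl (S.w_lo hx.le hd.le) hu hex0 hs0 hs1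
      (R_Rc x0.le (by linarith only [hx]) (by linarith only [hT]) hT0 a0 (by linarith only [h35]) le_rfl le_rfl)
  push Not at h35
  obtain ⟨d0, -, dk⟩ := S.dom2
  obtain ⟨k0, k1⟩ := dk hd.le
  have hx' : x ≤ 1 / 50 := by linarith only [hx]
  have ht : 0 ≤ (Ow b z m.1 0).im := hr.ge
  exact S.noflip' (FI3.fl1 x0 hx' hT hT0 h35.le ha ht d0 hd.le k0 k1)

/-- the hinge in the slot `0` is on its main path -/
theorem In3.u_main : Sum.inl (Sum.inl h0) ∉ nb ∧ 0 ≤ (Ow b z m.1 0).re ∧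
    (Ow b z m.1 0).re ≤ wXM b h0 ∧
    Ow b z m.1 0 = ⟨(Ow b z m.1 0).re, Th b zs h0 m.1 * trh b h0 (Ow b z m.1 0).re⟩ := by
  obtain ⟨q1, q2, ⟨hn, e⟩ | ⟨hn, e⟩⟩ := S.pos0
  · exact ⟨hn, q1, q2, Complex.ext rfl e⟩
  · exfalso
    refine S.no_real e ?_
    obtain ⟨-, -, -, -, -, a6, a7, a8, a9⟩ := S.par0
    rcases hc : clsW b j0 with _ | _ | _ | _ | _ | _
    · have h1 := S.Mx.real_le S.hb S.N S.A0 S.notT hn (Or.inl hc)
      linarith only [h1]
    · rw [(a7 hc).1] at q2; exact q2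
    · rw [(a9 (Or.inl hc)).1] at q2; exact q2
    · rw [(a8 hc).1] at q2; exact q2
    · rw [(a9 (Or.inr (Or.inl hc))).1] at q2; exact q2
    · rw [(a9 (Or.inr (Or.inr hc))).1] at q2; exact q2

/-- **A class of the left neighbour** -/
theorem In3.cls {X : ℤ} {cl' cr : ℕ} (hl : 0 < cl') (hr : 0 < cr) (hs : (cl' : ℤ) + cr ≤ X)
    {ph : E} {s0 s1 : ℤ} {l0 l1 u0 u1 A1 : ℝ}
    (ra : Rw (eK ch (ta X cl' cr) [flR] s0 s1) 0 (8000 / 10000) l0 l1 0 (2000 / 10000) u0 u1)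
    (rb : Rw (IT.eR ch (ta X cl' cr) ph [flR] s0 s1) 0 (8000 / 10000) l0 l1 (2000 / 10000)
      A1 u0 u1)
    (rc : Rw (eK cl (ta X cl' cr) [] s0 s1) 0 (200 / 10000) l0 l1 0 (2000 / 10000) u0 u1)
    (rd : Rw (IT.eR cl (ta X cl' cr) ph [] s0 s1) 0 (200 / 10000) l0 l1 (2000 / 10000)
      A1 u0 u1) (hA1 : (X : ℝ) / 1000 = A1)
    (hX : wXM b h0 = (X : ℝ) / 1000) (hcl : wcl b h0 = (cl' : ℝ) / 1000)
    (hcr : wcr b h0 = (cr : ℝ) / 1000)
    (T0 : l0 ≤ Tm b zs m) (T1 : Tm b zs m ≤ l1)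
    (U0 : u0 ≤ Th b zs h0 m.1) (U1 : Th b zs h0 m.1 ≤ u1)
    (hs0 : (s0 : ℝ) / 10000 ≤ Tm b zs m - Th b zs h0 m.1)
    (hs1 : Tm b zs m - Th b zs h0 m.1 ≤ (s1 : ℝ) / 10000)
    (G : ∀ a, Ow b z m.1 0 = ⟨a, Th b zs h0 m.1 * trh b h0 a⟩ → Sum.inl (Sum.inl h0) ∉ nb →
      1 / 5 ≤ a → a ≤ wXM b h0 → SideG b zs nb z p h0 j0 (tg b zs h0 (1 / 5))
        (ph.val [x, Tm b zs m, a, Th b zs h0 m.1])) : False := by
  subst hA1
  obtain ⟨hn, a0, a1, e⟩ := S.u_main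
  have ht : ∀ t, trh b h0 t = tr 0 ((X : ℝ) / 1000) ((cl' : ℝ) / 1000) ((cr : ℝ) / 1000) t := by
    intro t
    unfold trh
    rw [hX, hcl, hcr]
  refine S.fam hl hr hs ra rb rc rd (fun h => S.w_hi h) (fun h h' => S.w_lo h h') a0
    (a1.trans_eq hX) ?_ hn T0 T1 U0 U1 hs0 hs1 (fun h => G _ e hn h a1) (S.flR_le S.T_mem _)
  rw [← ht]
  exact e

/-! ### the classes -/

/-- the left neighbour is a `1` -/
theorem In3.one (hc : clsW b j0 = .one) : False := by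
  have As : Adj h0 j0 2 m.1 := S.A0.symm
  obtain ⟨h3, r, A3'⟩ := As.other_one S.hb hc
  have A3 : Adj h3 j0 0 r := A3'
  have beh : ∀ {h4 : Fin M} {r4 : Fin (M + 1)}, Adj h4 j0 0 r4 →
      clsW b r4 = .one ∨ clsW b r4 = .two ∨ clsW b r4 = .twoE :=
    fun A4 => in3_behind S.hb S.A0 A4 S.c hc
  have hBB : ∀ {h' : Fin M} {s' : Fin 3} {j' : Fin (M + 1)}, Adj h' j0 s' j' →
      p (.inl h') = 0 := fun A4 => S.hBj (Or.inr fun {h4 r4} A5 => by
    rcases beh A5 with h | h | h <;> rw [h] <;> decide) A4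
  obtain ⟨-, -, -, -, -, a6, -, -, -⟩ := S.par0
  obtain ⟨hX, hcl, hcr⟩ := a6 hc
  have hX' : wXM b h0 = ((650 : ℤ) : ℝ) / 1000 := by rw [hX]; norm_num
  have hcl' : wcl b h0 = ((130 : ℕ) : ℝ) / 1000 := by rw [hcl]; norm_num
  have hcr' : wcr b h0 = ((150 : ℕ) : ℝ) / 1000 := by rw [hcr]; norm_num
  have hT0 := S.T0
  rcases beh A3 with hr | hr | hr
  · have w : (mw3 false (clsW b j2)).In (Tm b zs m) (Th b zs h0 m.1) :=
      S.L.O.one m.2 S.A0 S.A2 A3 S.c hc hr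
    obtain ⟨w1, w2, w3, w4, w5, w6⟩ := w
    obtain ⟨v1, v2, v3, v4, v5, v6⟩ := mw3_one (clsW b j2)
    refine S.cls (X := 650) (cl' := 130) (cr := 150) (by norm_num) (by norm_num) (by norm_num)
      R_Q1a R_Q1b R_Q1c R_Q1d (by norm_num) hX' hcl' hcr' (v1.trans w1) (w2.trans v2)
      (v5.trans w5) (w6.trans v6) ?_ ?_ ?_
    · push_cast; linarith only [w3, v3]
    · push_cast; linarith only [w4, v4]
    · intro a e hn a0 a1
      rw [phQ1, ph_val]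
      exact in3_one1 S.hb S.L S.N S.Mx S.c hn hBB S.A0 hc A3 hr e a0 a1 (v5.trans w5)
        (w6.trans v6)
  · have w : (mw3 true (clsW b j2)).In (Tm b zs m) (Th b zs h0 m.1) :=
      S.L.O.two m.2 S.A0 S.A2 A3 S.c hc hr
    obtain ⟨w1, w2, w3, w4, w5, w6⟩ := w
    obtain ⟨v1, v3, v4, v5, v6⟩ := mw3_two (clsW b j2)
    refine S.cls (X := 650) (cl' := 130) (cr := 150) (by norm_num) (by norm_num) (by norm_num)
      R_Q2a R_Q2b R_Q2c R_Q2d (by norm_num) hX' hcl' hcr' (v1.trans w1) hT0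
      (v5.trans w5) (w6.trans v6) ?_ ?_ ?_
    · push_cast; linarith only [w3, v3]
    · push_cast; linarith only [w4, v4]
    · intro a e hn a0 a1
      rw [phQ2, ph_val]
      exact in3_one2 S.hb S.L S.N S.Mx S.c hn hBB S.A0 hc A3 hr e a0 a1 (v5.trans w5)
        (w6.trans v6)
  · have hT : Th b zs h0 j0 = -Th b zs h0 m.1 :=
      ofs_neg_of_opp (sign_adj S.hb S.A0 (by rw [S.c]; decide)) _
    obtain ⟨w5, w6, -, -⟩ := S.L.X.win As A3' hc
    rw [hr, S.c] at w5 w6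
    simp only [cw] at w5 w6
    have w5' : 87 / 1000 ≤ Th b zs h0 j0 := w5
    have w6' : Th b zs h0 j0 ≤ 1145 / 10000 := w6
    have w : -(820 / 10000) ≤ Tm b zs m ∧ -(400 / 10000) ≤ Tm b zs m - Th b zs h0 m.1 ∧
        Tm b zs m - Th b zs h0 m.1 ≤ 840 / 10000 := by
      by_cases hK : clsW b j2 = .one
      · have w : (⟨-(725 / 10000), -(440 / 10000), 370 / 10000, 560 / 10000, -(1120 / 10000),
            -(965 / 10000)⟩ : MWin).In (Tm b zs m) (Th b zs h0 m.1) :=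
          S.L.U.tail m.2 S.A0 S.A2 A3 S.c hc hr hK
        obtain ⟨w1, w2, w3, w4, -, -⟩ := w
        simp only at w1 w2 w3 w4
        refine ⟨?_, ?_, ?_⟩ <;> linarith only [w1, hT, w5', w6', w2]
      · obtain ⟨w1, w2, w3, w4⟩ := S.mid
        rw [hc] at w1 w2 w3 w4
        obtain ⟨v1, v2, v3⟩ := mw_one _ hK
        exact ⟨v1.trans w1, v2.trans w3, w4.trans v3⟩
    obtain ⟨w1, w3, w4⟩ := w
    refine S.cls (X := 650) (cl' := 130) (cr := 150) (by norm_num) (by norm_num) (by norm_num)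
      R_QEa R_QEb R_QEc R_QEd (by norm_num) hX' hcl' hcr' w1 hT0 (by linarith only [hT, w6']) (by linarith only [hT, w5'])
      ?_ ?_ ?_
    · push_cast; linarith only [hT, w5', w1]
    · push_cast; linarith only [w4]
    · intro a e hn a0 a1
      rw [phQE, ph_val]
      exact in3_oneE S.hb S.L S.N S.Mx S.c hn hBB S.A0 hc A3 hr e a0 a1 (by linarith only [hT, w6'])
        (by linarith only [hT, w5'])

/-- the left neighbour is a `2` -/
theorem In3.two (hc : clsW b j0 = .two) : False := by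
  have hBB : ∀ {h' : Fin M} {s' : Fin 3} {j' : Fin (M + 1)}, Adj h' j0 s' j' →
      p (.inl h') = 0 := fun A4 => S.hBj (Or.inl (by rw [hc]; decide)) A4
  obtain ⟨-, -, -, -, -, -, a6, -, -⟩ := S.par0
  obtain ⟨hX, hcl, hcr⟩ := a6 hc
  have hX' : wXM b h0 = ((600 : ℤ) : ℝ) / 1000 := by rw [hX]; norm_num
  have hcl' : wcl b h0 = ((120 : ℕ) : ℝ) / 1000 := by rw [hcl]; norm_num
  have hcr' : wcr b h0 = ((270 : ℕ) : ℝ) / 1000 := by rw [hcr]; norm_num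
  have w : (mw2 (clsW b j2)).In (Tm b zs m) (Th b zs h0 m.1) :=
    S.L.D.two m.2 S.A0 S.A2 S.c hc
  obtain ⟨w1, w2, w3, w4, w5, w6⟩ := w
  obtain ⟨v1, v2, v3, v4, v5, v6⟩ := mw2_bd (clsW b j2)
  refine S.cls (X := 600) (cl' := 120) (cr := 270) (by norm_num) (by norm_num) (by norm_num)
    R_T2a R_T2b R_T2c R_T2d (by norm_num) hX' hcl' hcr' (v1.trans w1) (w2.trans v2)
    (v5.trans w5) (w6.trans v6) ?_ ?_ ?_
  · push_cast; linarith only [w3, v3]
  · push_cast; linarith only [w4, v4]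
  · intro a e hn a0 a1
    rw [ph2, ph_val]
    exact in3_two S.hb S.L S.N S.Mx S.c hn hBB S.A0 hc e a0 a1 (by linarith only [w5, v5]) (w6.trans v6)

/-- the left neighbour is a `3` -/
theorem In3.three (hc : clsW b j0 = .three) : False := by
  obtain ⟨-, -, -, -, -, -, -, a6, -⟩ := S.par0
  obtain ⟨hX, hcl, hcr⟩ := a6 hc
  have hX' : wXM b h0 = ((600 : ℤ) : ℝ) / 1000 := by rw [hX]; norm_num
  have hcl' : wcl b h0 = ((130 : ℕ) : ℝ) / 1000 := by rw [hcl]; norm_num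
  have hcr' : wcr b h0 = ((300 : ℕ) : ℝ) / 1000 := by rw [hcr]; norm_num
  obtain ⟨w1, w2, w3, w4⟩ := S.mid
  rw [hc] at w1 w2 w3 w4
  obtain ⟨v1, v3, v4⟩ := mw_three (Or.inl rfl : Cl.three = .three ∨ _) (clsW b j2)
  obtain ⟨w5, w6⟩ := win3 S.L.L S.hb S.A0 S.c
  rw [hc] at w5 w6
  simp only [hbox] at w5 w6
  refine S.cls (X := 600) (cl' := 130) (cr := 300) (by norm_num) (by norm_num) (by norm_num)
    R_T3a R_T3b R_T3c R_T3d (by norm_num) hX' hcl' hcr' (v1.trans w1) S.T0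
    (by linarith only [w5]) (by linarith only [w6]) ?_ ?_ ?_
  · push_cast; linarith only [w3, v3]
  · push_cast; linarith only [w4, v4]
  · intro a e hn a0 a1
    rw [ph3, ph_val]
    exact in3_threeL S.hb S.L S.N S.Mx S.c hn S.A0 hc e a0 a1 (by linarith only [w5]) (by linarith only [w6])

/-- the left neighbour is a `3` at an end -/
theorem In3.threeE (hc : clsW b j0 = .threeE) : False := by
  obtain ⟨-, -, -, -, -, -, -, -, a6⟩ := S.par0
  obtain ⟨hX, hcl, hcr⟩ := a6 (Or.inr (Or.inl hc))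
  have hX' : wXM b h0 = ((600 : ℤ) : ℝ) / 1000 := by rw [hX]; norm_num
  have hcl' : wcl b h0 = ((120 : ℕ) : ℝ) / 1000 := by rw [hcl]; norm_num
  have hcr' : wcr b h0 = ((300 : ℕ) : ℝ) / 1000 := by rw [hcr]; norm_num
  obtain ⟨w1, w2, w3, w4⟩ := S.mid
  rw [hc] at w1 w2 w3 w4
  obtain ⟨v1, v3, v4⟩ := mw_three (Or.inr (Or.inl rfl) : Cl.threeE = .three ∨ _) (clsW b j2)
  obtain ⟨w5, w6⟩ := win3 S.L.L S.hb S.A0 S.c
  rw [hc] at w5 w6
  simp only [hbox] at w5 w6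
  refine S.cls (X := 600) (cl' := 120) (cr := 300) (by norm_num) (by norm_num) (by norm_num)
    R_E3a R_E3b R_E3c R_E3d (by norm_num) hX' hcl' hcr' (v1.trans w1) S.T0
    (by linarith only [w5]) (by linarith only [w6]) ?_ ?_ ?_
  · push_cast; linarith only [w3, v3]
  · push_cast; linarith only [w4, v4]
  · intro a e hn a0 a1
    rw [ph3e, ph_val]
    exact in3_threeE S.hb S.L S.N S.Mx S.c hn S.A0 hc e a0 a1 (by linarith only [w5]) (by linarith only [w6])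

end SR

end Pool.Agent.Work.MP_b30479_gt.G2
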