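import Pool.Agent.Work.NumU.GenD
import Pool.Agent.Work.MP_b30479_gt.G2.S0RKA
import Pool.Agent.Work.MP_b30479_gt.G2.S0RW

/-!
# Mirrored paths, inner variable of an interior `3`: expressions
-/

namespace Pool.Agent.Work.MP_b30479_gt.G2

namespace IT

open NumG


/-- numbers in `1/1000` -/
def cc (n : ℤ) : E := .q n 1000
def vx : E := .var 0
def vT : E := .var 1
/-- `min (p, q)` -/
def mn (p q : E) : E := .sub p (.relu (.sub p q))
/-- ramp function of the inner variable and height of its mirrored path -/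
def tl : E := E.tr 800 50 50 vx
def th : E := .mul (cc 160) tl
/-- `V2 (l', w) - V2 (l, w) - UU l` -/
def dW (x' t' x t y k : E) : E :=
  .sub (.add (.sub (.ux (.add x' y) (.add t' k)) (.ux (.add x y) (.add t k)))
    (.sub (.ux x t) (.mul (.q 2 1) (.ux x' t'))))
    (.mul .pi (.add (.sub (.mul (.sub x' y) (.sub t' k)) (.mul (.sub x y) (.sub t k)))
      (.mul (.q 1 2) (.sub t' t))))
/-- `V2 (l', w') - V2 (l, w) - UU l` -/
def dK (x' t' y' k' x t y k : E) : E :=
  .add (.add (.sub (.sub (.uw (.add x' y') (.add t' k')) (.uw (.add x y) (.add t k)))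
    (.mul (.q 2 1) (.sub (.uw y' k') (.uw y k))))
    (.sub (.ux x t) (.mul (.q 2 1) (.ux x' t'))))
    (.mul .pi (.sub (.add (.mul (.sub x y) (.sub t k)) (.mul (.q 1 2) (.add t k)))
      (.add (.mul (.sub x' y') (.sub t' k')) (.mul (.q 1 2) (.add t' k')))))
/-- penalty -/
def pen : E := .mul .pi (.mul (cc 320) tl)
/-- `va (u, l') - va (u, l) + UU l` -/
def kp (a t y' s' y s : E) : E :=
  .add (.mul .pi (.add (.mul (.sub (.q 1 1) a) (.sub s' s)) (.mul t (.sub y y'))))
    (.add (.sub (.uw y' s') (.uw (.sub y' a) (.sub s' t))) (.ux (.sub y a) (.sub s t)))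
/-- `va (u, l)` -/
def va (a t y s : E) : E :=
  .add (.mul .pi (.sub (.mul (.sub (.q 1 1) a) s) (.mul y t)))
    (.sub (.sub (.uw y s) (.uw (.sub y a) (.sub s t))) (.uw a t))
/-- `va (u, l) - UU l` -/
def vb (a t y s : E) : E :=
  .sub (.mul .pi (.sub (.mul (.sub (.q 1 1) a) s) (.mul y t)))
    (.add (.ux (.sub y a) (.sub s t)) (.uw a t))
/-- `V2 (u, 0)` -/
def V2o (x t : E) : E := .neg (.add (.mul .pi (.mul t (.add x (.q 1 2)))) (.uw x t))
def rl (n : ℤ) : E := .relu (.sub (cc n) vx)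
def rr (n : ℤ) : E := .relu (.sub vx (cc n))
/-- `a |T| + b T ^ 2` -/
def qT (a b : E) : E := .add (.mul a (.neg vT)) (.mul b (.mul vT vT))
/-- `(a + b st) |T| + (c + d st) T ^ 2`, `st` is `1` for `x <= x0` and `0` for `x >= x1` -/
def tp (a b c d x0 x1 : ℤ) : E :=
  qT (.add (cc a) (.mul (cc b) (.mul (.q 1000 (x1 - x0).toNat) (.sub (rl x1) (rl x0)))))
    (.add (cc c) (.mul (cc d) (.mul (.q 1000 (x1 - x0).toNat) (.sub (rl x1) (rl x0)))))
/-- right end -/
def tq (a b x0 x1 : ℤ) : E :=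
  .mul (.mul (.q 1000 (x1 - x0).toNat) (.sub (rr x0) (rr x1))) (qT (cc a) (cc b))
/-- left end -/
def tz (a b k : ℤ) : E := qT (.sub (cc a) (.mul (.q k 1) (rr 10))) (cc b)
def h20 : E := .add (E.pl vx 297 [(0, 78, 5), (5, 7, 5), (15, -18, 5)]) (tz 350 5500 0)
def h25 : E := .add (.add (E.pl vx 288 [(0, 77, 5), (5, 2, 1), (10, 1, 1), (15, -6, 1), (20, 1, 1), (30, 1, 10), (40, 1, 5), (50, -341, 25), (100, 4, 25), (150, 13, 50), (200, 8, 25), (250, 4, 25), (300, 1, 25), (350, 1, 10), (400, -1, 100), (500, -41, 100), (600, -3, 100), (700, -9, 100), (750, -2581, 100), (762, -155, 52), (775, -63, 65)])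
  (tp 500 150 5000 (-150) 50 100)) (tq 1550 (-3400) 750 775)
def h30 : E := .add (.add (E.pl vx 266 [(0, 77, 5), (5, 2, 5), (10, -12, 5), (15, 1, 5), (20, 1, 2), (30, 1, 10), (50, -354, 25), (100, 7, 25), (150, 2, 25), (200, 4, 25), (250, 11, 50), (300, 9, 50), (350, 7, 50), (400, 1, 50), (500, -11, 50), (600, -29, 100), (700, -23, 100), (750, -3457, 150), (762, -187, 39), (775, -643, 325)])
  (tp 650 220 5500 (-1100) 50 150)) (tq 1450 (-4000) 760 775)
def h35 : E := .add (.add (E.pl vx 209 [(0, 56, 5), (5, 8, 5), (10, 3, 5), (15, 1, 5), (20, 1, 2), (30, 3, 10), (40, 1, 5), (50, -727, 50), (100, 1, 5), (150, 7, 50), (200, 4, 25), (250, 11, 50), (300, 9, 50), (350, 7, 50), (400, 1, 100), (500, -1, 5), (600, -3, 10), (700, -23, 100), (750, -1119, 50), (775, -196, 25)])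
  (tp 750 400 7300 (-1900) 50 200)) (tq 1450 (-5300) 762 775)
def l20 : E := .add (.add (cc 145) (.mul (.q 249 10) vx)) (tz 2200 1800 31)
def l25 : E := .add (.add (cc 131) (.mul (.q 248 10) vx)) (tz 2380 1300 28)
def l30 : E := .add (.add (cc 110) (.mul (.q 248 10) vx)) (tz 2520 1100 26)
def l35 : E := .add (.add (cc 83) (.mul (.q 248 10) vx)) (tz 2680 800 26)
def l40 : E := .add (.add (cc 53) (.mul (.q 246 10) vx)) (tz 2840 400 26)
def l45 : E := .add (.add (cc 15) (.mul (.q 243 10) vx)) (tz 3000 200 26)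
def m20 : E := .add (E.pl vx 247 [(0, 17, 1), (5, 12, 5), (10, 21, 10)]) (tz 1980 1500 0)
def n20 : E := .add (E.pl vx 213 [(0, 91, 5), (5, 16, 5), (10, 13, 10)]) (tz 2100 1500 0)
def phQ1 (x : E) : E := E.pl x (-30) [(200, -2, 5), (250, -1, 10), (300, 4, 25), (350, 1, 10), (400, 2, 25), (450, 1, 25), (500, -49, 50), (550, -3, 50), (600, -11, 50)]
def phQ2 (x : E) : E := E.pl x (-25) [(200, -1, 2), (250, -3, 25), (300, 4, 25), (350, 1, 10), (400, 3, 50), (450, 1, 25), (500, -26, 25), (550, 1, 50), (600, -1, 10)]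
def phQE (x : E) : E := E.pl x (-15) [(200, -3, 10), (250, 3, 50), (300, 1, 10), (350, 1, 10), (400, 3, 50), (450, 1, 25), (500, -99, 50), (550, -17, 50), (600, -9, 50)]
def ph2 (x : E) : E := E.pl x (-30) [(200, -23, 50), (250, 13, 50), (300, 1, 5), (400, -3, 50)]
def ph3 (x : E) : E := E.pl x (-30) [(200, -19, 25), (250, 13, 50), (300, 7, 25), (400, 7, 50)]
def ph3e (x : E) : E := E.pl x (-40) [(200, -4, 5), (300, 1, 10), (350, 4, 25), (400, 13, 50), (450, 9, 50), (500, -1, 25), (550, -12, 25)]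
def phK (x : E) : E := E.pl x (-126) [(600, -32, 25)]
/-- the hinge in the slot `2` -/
def kk : E := .mul (.var 3) (E.tr 650 130 290 (.var 2))
/-- rows of the right side -/
def wr (c : ℤ) (be : E) : E := .sub (.add (dW (cc c) vT vx th (.var 2) kk) pen) be
def wk (c : ℤ) (be : E) : E :=
  .sub (.add (.add (dK (cc c) vT (cc 500) (.mul (.var 3) (E.tr 650 150 290 (cc 500))) vx th (.var 2)
    (.mul (.var 3) (E.tr 650 150 290 (.var 2)))) pen) (phK (.var 2))) be
def wx : E := mn (.sub (cc 20) vx) (.sub (cc 100) (.var 2))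
/-- the hinge in the slot `0` -/
def ta (X : ℤ) (cl cr : ℕ) : E := .mul (.var 3) (E.tr X cl cr (.var 2))
def ke (t : E) (q : ℤ × E) : E := .add (kp (.var 2) t (cc q.1) vT vx th) q.2
def re (t ph : E) (q : ℤ × E) : E :=
  .add (.add (.sub (va (cc 200) (.var 3) (cc q.1) vT) (vb (.var 2) t vx th)) q.2) ph
def win (s0 s1 : ℤ) : List E :=
  [.sub (.sub vT (.var 3)) (.q s1 10000), .sub (.q s0 10000) (.sub vT (.var 3))]
/-- flips -/
def flR : E := mn (.sub vx (cc 775)) (.add (.add vT (cc 60)) (.mul (cc 150) (.var 2)))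
def flL (t : E) : E := mn (mn (.sub (cc 20) vx) (.sub (.var 2) (cc 300))) (.sub t (.mul (.q 16 5) vx))
def ch : List (ℤ × E) := [(300, h30), (250, h25), (350, h35)]
def ch0 : List (ℤ × E) := (200, h20) :: ch
def cl : List (ℤ × E) := [(300, l30), (350, l35), (400, l40), (250, l25), (200, l20)]
def cx : List (ℤ × E) := [(450, l45), (200, l20), (300, l30), (400, l40)]
/-- rows of the left side -/
def eK (cs : List (ℤ × E)) (t : E) (ex : List E) (s0 s1 : ℤ) : List E :=
  cs.map (ke t) ++ ex ++ win s0 s1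
def eR (cs : List (ℤ × E)) (t ph : E) (ex : List E) (s0 s1 : ℤ) : List E :=
  cs.map (ke t) ++ cs.map (re t ph) ++ ex ++ win s0 s1
def phE : E := .sub (V2o (cc 200) (.neg (.var 3))) (V2o (.var 2) (.neg (ta 600 120 300)))

/-! ### values -/

open NumU (uu UU_uu)
open VOL

/-- the part of the value of a digit `3` which depends on the hinge in the slot `0` -/
noncomputable def vA (u v : ℂ) : ℝ :=
  Real.pi * (v.im - (u * v).im) + UU v - UU (v - u) - UU u

theorem V3_vA (u v w : ℂ) : V3 u v w = vA u v + V2 v w := by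
  unfold V3 V2 vA
  simp only [Complex.add_im, Complex.sub_im, Complex.mul_im, pow_two, Complex.mul_re,
    Complex.sub_re, Complex.re_ofNat, Complex.im_ofNat]
  ring

variable {a t x y s y' s' x' t' k k' : E} {xs : List ℝ}

theorem dW_val : (dW x' t' x t y k).val xs = V2 ⟨x'.val xs, t'.val xs⟩ ⟨y.val xs, k.val xs⟩ -
    V2 ⟨x.val xs, t.val xs⟩ ⟨y.val xs, k.val xs⟩ - UU ⟨x.val xs, t.val xs⟩ := by
  unfold V2
  simp only [dW, E.val, UU_uu, Complex.add_re, Complex.add_im, Complex.sub_im, Complex.sub_re,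
    Complex.mul_im, pow_two]
  push_cast
  ring

theorem dK_val : (dK x' t' y' k' x t y k).val xs =
    V2 ⟨x'.val xs, t'.val xs⟩ ⟨y'.val xs, k'.val xs⟩ -
    V2 ⟨x.val xs, t.val xs⟩ ⟨y.val xs, k.val xs⟩ - UU ⟨x.val xs, t.val xs⟩ := by
  unfold V2
  simp only [dK, E.val, UU_uu, Complex.add_re, Complex.add_im, Complex.sub_im, Complex.sub_re,
    Complex.mul_im, pow_two]
  push_cast
  ring

theorem kp_val : (kp a t y' s' y s).val xs = vA ⟨a.val xs, t.val xs⟩ ⟨y'.val xs, s'.val xs⟩ -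
    vA ⟨a.val xs, t.val xs⟩ ⟨y.val xs, s.val xs⟩ + UU ⟨y.val xs, s.val xs⟩ := by
  unfold vA
  simp only [kp, E.val, UU_uu, Complex.sub_im, Complex.sub_re, Complex.mul_im]
  push_cast
  ring

theorem va_val : (va a t y s).val xs = vA ⟨a.val xs, t.val xs⟩ ⟨y.val xs, s.val xs⟩ := by
  unfold vA
  simp only [va, E.val, UU_uu, Complex.sub_im, Complex.sub_re, Complex.mul_im]
  push_cast
  ring

theorem vb_val : (vb a t y s).val xs = vA ⟨a.val xs, t.val xs⟩ ⟨y.val xs, s.val xs⟩ -
    UU ⟨y.val xs, s.val xs⟩ := by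
  unfold vA
  simp only [vb, E.val, UU_uu, Complex.sub_im, Complex.sub_re, Complex.mul_im]
  push_cast
  ring

theorem V2o_val : (V2o x t).val xs = V2 ⟨x.val xs, t.val xs⟩ 0 := by
  have h := E.V2e_val (x := x) (t := t) (xs := xs)
  rw [← h]
  rfl

/-! ### variables -/

/-- only the variables below `n` occur -/
def bl (n : ℕ) : E → Bool
  | .var i => decide (i < n)
  | .q _ _ => true
  | .pi => true
  | .add a b => bl n a && bl n b
  | .sub a b => bl n a && bl n b
  | .mul a b => bl n a && bl n b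
  | .neg a => bl n a
  | .sq a => bl n a
  | .relu a => bl n a
  | .uw a b => bl n a && bl n b
  | .lt _ _ => false
  | .emb _ => false
  | .ux a b => bl n a && bl n b
  | .yw a b => bl n a && bl n b

theorem bl_val {n : ℕ} {xs ys : List ℝ} (h : ∀ i < n, NumI.lkR xs i = NumI.lkR ys i) :
    ∀ e : E, bl n e = true → e.val xs = e.val ys := by
  intro e
  induction e with
  | var i => intro he; exact h i (by simpa [bl] using he)
  | q n d => intro _; rfl
  | pi => intro _; rfl
  | add a b iha ihb =>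
    intro he
    simp only [bl, Bool.and_eq_true] at he
    show _ + _ = _ + _
    rw [iha he.1, ihb he.2]
  | sub a b iha ihb =>
    intro he
    simp only [bl, Bool.and_eq_true] at he
    show _ - _ = _ - _
    rw [iha he.1, ihb he.2]
  | mul a b iha ihb =>
    intro he
    simp only [bl, Bool.and_eq_true] at he
    show _ * _ = _ * _
    rw [iha he.1, ihb he.2]
  | neg a iha => intro he; show -_ = -_; rw [iha he]
  | sq a iha => intro he; show _ ^ 2 = _ ^ 2; rw [iha he]
  | relu a iha => intro he; show max _ 0 = max _ 0; rw [iha he]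
  | uw a b iha ihb =>
    intro he
    simp only [bl, Bool.and_eq_true] at he
    show uu _ _ = uu _ _
    rw [iha he.1, ihb he.2]
  | lt a b _ _ => intro he; simp [bl] at he
  | emb e => intro he; simp [bl] at he
  | ux a b iha ihb =>
    intro he
    simp only [bl, Bool.and_eq_true] at he
    show uu _ _ = uu _ _
    rw [iha he.1, ihb he.2]
  | yw a b iha ihb =>
    intro he
    simp only [bl, Bool.and_eq_true] at he
    show NumX.yy _ _ = NumX.yy _ _
    rw [iha he.1, ihb he.2]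

/-- the value of an expression in `x`, `T` -/
noncomputable def bv (e : E) (x T : ℝ) : ℝ := e.val [x, T, 0, 0]

theorem bv_eq {e : E} (h : bl 2 e = true) (x T y z : ℝ) : e.val [x, T, y, z] = bv e x T := by
  refine bl_val (n := 2) ?_ e h
  intro i hi
  interval_cases i <;> rfl

end IT

end Pool.Agent.Work.MP_b30479_gt.G2
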