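import Pool.Agent.Work.MP_b30479_gt.G2.WM_in3C

/-!
# Mirrored paths, inner variable of an interior `3`: the end `2` and rings as left neighbours
-/

namespace Pool.Agent.Work.MP_b30479_gt.G2

open Finset VOL Filter Topology

namespace SR

open IT NumG

variable {M : ℕ} {b : Fin (M + 1) → ℤ} {zs : DD (tyW b) ⊕ ZZ (tyW b) → ℂ}
variable {R : Finset (DD (tyW b))} {nb : Finset (DD (tyW b) ⊕ ZZ (tyW b))}
variable {z : DD (tyW b) ⊕ ZZ (tyW b) → ℂ} {p : DD (tyW b) → ℝ}
variable {m : {i : Fin (M + 1) // (tyW b i).isMid = true}} {h0 h2 : Fin M} {j0 j2 : Fin (M + 1)}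
variable {x : ℝ}

variable (S : In3 b zs R nb z p m h0 h2 j0 j2 x)
include S

/-- the hinge in the slot `0`, ramp `600/120/300` -/
theorem In3.hu3 (hc : clsW b j0 = .twoE ∨ clsW b j0 = .threeE ∨ clsW b j0 = .ring) :
    (Ow b z m.1 0).re ≤ 6 / 10 ∧
    Ow b z m.1 0 = ⟨(Ow b z m.1 0).re,
      (ta 600 120 300).val [x, Tm b zs m, (Ow b z m.1 0).re, Th b zs h0 m.1]⟩ := by
  obtain ⟨hn, a0, a1, e⟩ := S.u_main
  obtain ⟨-, -, -, -, -, -, -, -, a6⟩ := S.par0
  obtain ⟨hX, hcl, hcr⟩ := a6 hc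
  rw [hX] at a1
  refine ⟨a1, ?_⟩
  rw [ta_val (by norm_num) (by norm_num) (by norm_num)]
  refine e.trans (Complex.ext rfl ?_)
  show Th b zs h0 m.1 * trh b h0 (Ow b z m.1 0).re = Th b zs h0 m.1 * _
  unfold trh
  rw [hX, hcl, hcr]
  norm_num

/-- the left neighbour is a `2` at an end -/
theorem In3.twoE (hc : clsW b j0 = .twoE) : False := by
  have As : Adj h0 j0 2 m.1 := S.A0.symm
  obtain ⟨hn, a0, a1, e⟩ := S.u_main
  obtain ⟨a1', hu⟩ := S.hu3 (Or.inl hc)
  obtain ⟨-, -, -, -, -, -, -, -, a6⟩ := S.par0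
  obtain ⟨hX, hcl, hcr⟩ := a6 (Or.inl hc)
  obtain ⟨hT, e'⟩ := Ow_sym S.hb S.A0 (by rw [S.c]; decide) e
  have e2 : Ow b z j0 2 = ⟨(Ow b z m.1 0).re, Th b zs h0 j0 * trh b h0 (Ow b z m.1 0).re⟩ := e'
  obtain ⟨w1, w2, w3, w4⟩ := S.mid
  rw [hc] at w1 w2 w3 w4
  obtain ⟨v1, v2, v3, v4⟩ := mw_twoE (clsW b j2)
  obtain ⟨w5, w6⟩ := win3 S.L.L S.hb S.A0 S.c
  rw [hc] at w5 w6
  simp only [hbox] at w5 w6
  have k := keep_twoE (zs := zs) (nb := nb) (z := z) (p := p) (c := 1 / 5) S.hb As hc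
  rw [in3_tg hX hcl hcr (by norm_num) (by norm_num) (by norm_num) (by norm_num), e2, hT] at k
  set a := (Ow b z m.1 0).re with ha
  have G : SideG b zs nb z p h0 j0 (tg b zs h0 (1 / 5))
      (phE.val [x, Tm b zs m, a, Th b zs h0 m.1]) := by
    refine k.mono (le_of_eq ?_)
    have e1 : phE.val [x, Tm b zs m, a, Th b zs h0 m.1] =
        (V2o (IT.cc 200) (.neg (.var 3))).val [x, Tm b zs m, a, Th b zs h0 m.1] -
        (V2o (.var 2) (.neg (ta 600 120 300))).val [x, Tm b zs m, a, Th b zs h0 m.1] := rfl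
    rw [e1, V2o_val, V2o_val, cc_val]
    have e3 : (E.neg (ta 600 120 300)).val [x, Tm b zs m, a, Th b zs h0 m.1] =
        -Th b zs h0 m.1 * trh b h0 a := by
      show -(ta 600 120 300).val [x, Tm b zs m, a, Th b zs h0 m.1] = _
      have := congrArg Complex.im (hu.symm.trans e)
      show _ = _
      rw [neg_mul]
      exact congrArg Neg.neg this
    rw [e3]
    have e4 : (((200 : ℤ) : ℝ) / 1000) = 1 / 5 := by norm_num
    rw [e4]
    rfl
  have hex : ∀ e ∈ [flR], e.val [x, Tm b zs m, a, Th b zs h0 m.1] ≤ 0 := by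
    intro e he
    rw [List.mem_singleton] at he
    rw [he]
    exact S.flR_le S.T_mem _
  have hex0 : ∀ e ∈ ([] : List E), e.val [x, Tm b zs m, a, Th b zs h0 m.1] ≤ 0 := by
    intro e he
    exact absurd he List.not_mem_nil
  have hs0 : (((-480 : ℤ) : ℝ)) / 10000 ≤ Tm b zs m - Th b zs h0 m.1 := by push_cast; linarith only [w1, v1, w6]
  have hs1 : Tm b zs m - Th b zs h0 m.1 ≤ (((320 : ℤ) : ℝ)) / 10000 := by push_cast; linarith only [w4, v4]
  have x0 := S.x0
  have x1 := S.x1
  by_cases hd : 2 / 100 ≤ x ∨ 1 / 10 ≤ (Ow b z m.1 2).re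
  · exact S.killR mn_ch (S.w_hi hd) hu hn rfl G hex hs0 hs1
      (R_Ea x0.le (by linarith only [x1]) (by linarith only [w1, v1]) (by linarith only [w2, v2]) a0 (by linarith only [hX, a1]) (by linarith only [w5])
        (by linarith only [w6]))
  · push Not at hd
    exact S.killR mn_cl (S.w_lo hd.1.le hd.2.le) hu hn rfl G hex0 hs0 hs1
      (R_Ec x0.le (by linarith only [hd]) (by linarith only [w1, v1]) (by linarith only [w2, v2]) a0 (by linarith only [hX, a1]) (by linarith only [w5])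
        (by linarith only [w6]))

/-- the flip at the left end -/
theorem In3.flL_le {t : E} {θ : ℝ} (hu : Ow b z m.1 0 = ⟨(Ow b z m.1 0).re,
      t.val [x, Tm b zs m, (Ow b z m.1 0).re, θ]⟩) (ha : (Ow b z m.1 0).re ≤ 6 / 10) :
    (flL t).val [x, Tm b zs m, (Ow b z m.1 0).re, θ] ≤ 0 := by
  by_contra hc
  push Not at hc
  obtain ⟨d0, d1, -⟩ := S.dom2
  set a := (Ow b z m.1 0).re with haa
  set τ := t.val [x, Tm b zs m, a, θ] with hτ
  have e1 : (flL t).val [x, Tm b zs m, a, θ] =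
      ((20 / 1000 - x) - max ((20 / 1000 - x) - (a - 300 / 1000)) 0) -
        max (((20 / 1000 - x) - max ((20 / 1000 - x) - (a - 300 / 1000)) 0) -
          (τ - 16 / 5 * x)) 0 := by
    have e0 : (flL t).val [x, Tm b zs m, a, θ] =
      (((((20 : ℤ) : ℝ) / ((1000 : ℕ) : ℝ) - x) -
        max ((((20 : ℤ) : ℝ) / ((1000 : ℕ) : ℝ) - x) - (a - ((300 : ℤ) : ℝ) / ((1000 : ℕ) : ℝ))) 0)
        - max (((((20 : ℤ) : ℝ) / ((1000 : ℕ) : ℝ) - x) -
        max ((((20 : ℤ) : ℝ) / ((1000 : ℕ) : ℝ) - x) - (a - ((300 : ℤ) : ℝ) / ((1000 : ℕ) : ℝ))) 0)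
          - (τ - ((16 : ℤ) : ℝ) / ((5 : ℕ) : ℝ) * x)) 0) := rfl
    rw [e0]
    norm_num
  rw [e1] at hc
  have h1 := le_max_left (((20 / 1000 - x) - max ((20 / 1000 - x) - (a - 300 / 1000)) 0) -
          (τ - 16 / 5 * x)) 0
  have h2 := le_max_right (((20 / 1000 - x) - max ((20 / 1000 - x) - (a - 300 / 1000)) 0) -
          (τ - 16 / 5 * x)) 0
  have h3 := le_max_left ((20 / 1000 - x) - (a - 300 / 1000)) 0
  have h4 := le_max_right ((20 / 1000 - x) - (a - 300 / 1000)) 0
  have hx : x ≤ 1 / 50 := by linarith only [hc, h2, h4]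
  have h30 : 3 / 10 ≤ a := by linarith only [hc, h2, h3]
  have ht : 16 / 5 * x ≤ τ := by linarith only [hc, h1]
  have him : (Ow b z m.1 0).im = τ := by rw [hu]
  rw [← him] at ht
  have hT := S.T_mem
  exact S.noflip' (FI3.fl2 S.x0 hx hT S.T0 h30 ha ht d0 d1)

/-- the left neighbour is a ring -/
theorem In3.ring (hc : clsW b j0 = .ring) : False := by
  obtain ⟨hn, a0, a1, e⟩ := S.u_main
  obtain ⟨a1', hu⟩ := S.hu3 (Or.inr (Or.inr hc))
  obtain ⟨w1, w2, w3, w4⟩ := S.mid
  rw [hc] at w1 w2 w3 w4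
  obtain ⟨v1, v3, v4⟩ := mw_three (Or.inr (Or.inr rfl) : Cl.ring = .three ∨ _) (clsW b j2)
  obtain ⟨w5, w6⟩ := win3 S.L.L S.hb S.A0 S.c
  rw [hc] at w5 w6
  simp only [hbox] at w5 w6
  have hfR : flR.val [x, Tm b zs m, (Ow b z m.1 0).re, Th b zs h0 m.1] ≤ 0 :=
    S.flR_le S.T_mem _
  have hfL := S.flL_le hu a1'
  set a := (Ow b z m.1 0).re with ha
  set θ := Th b zs h0 m.1 with hθ
  have x0 := S.x0
  have x1 := S.x1
  have T0 := S.T0
  have hT := S.T_mem
  have hex2 : ∀ e ∈ [flR, flL (ta 600 120 300)], e.val [x, Tm b zs m, a, θ] ≤ 0 := by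
    intro e he
    simp only [List.mem_cons, List.not_mem_nil, or_false] at he
    rcases he with rfl | rfl
    · exact hfR
    · exact hfL
  have hex1 : ∀ e ∈ [flL (ta 600 120 300)], e.val [x, Tm b zs m, a, θ] ≤ 0 := by
    intro e he
    rw [List.mem_singleton] at he
    rw [he]
    exact hfL
  have hex0 : ∀ e ∈ ([] : List E), e.val [x, Tm b zs m, a, θ] ≤ 0 := by
    intro e he
    exact absurd he List.not_mem_nil
  have hs0 : (((-1050 : ℤ) : ℝ)) / 10000 ≤ Tm b zs m - θ := by push_cast; linarith only [v3, w3]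
  have hs1 : Tm b zs m - θ ≤ (((280 : ℤ) : ℝ)) / 10000 := by push_cast; linarith only [v4, w4]
  have hE : 0 ≤ θ ∨ Exc3 b zs h0 m.1 j0 0 := S.L.E.three S.A0 S.c hc
  have hθ0 : -(7 / 10000) ≤ θ := by
    rcases hE with h | h
    · linarith only [x0, x1, h]
    · exact h.lo
  by_cases hx : 2 / 100 ≤ x
  · exact S.kill mn_ch (S.w_hi (Or.inl hx)) hu hex2 hs0 hs1
      (R_Za (by linarith only [hx]) (by linarith only [x1]) (by linarith only [v3, w3, x0, x1, hθ0]) T0 a0 (by linarith only [a1']) (by linarith only [x0, x1, hθ0])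
        (by linarith only [w6]))
  push Not at hx
  by_cases hd : 1 / 10 ≤ (Ow b z m.1 2).re
  · exact S.kill mn_ch0 (S.w_hi0 hx.le hd) hu hex1 hs0 hs1
      (R_Zb x0.le (by linarith only [hx]) (by linarith only [v3, w3, x0, hθ0, hx]) T0 a0 (by linarith only [a1']) (by linarith only [x0, hθ0, hx])
        (by linarith only [w6]))
  push Not at hd
  obtain ⟨d0, d1, dk⟩ := S.dom2
  obtain ⟨k0, k1⟩ := dk hd.le
  have hx' : x ≤ 1 / 50 := by linarith only [hx]
  rcases hE with h | h
  · by_cases h35 : a ≤ 35 / 100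
    · exact S.kill mn_cl (S.w_lo hx.le hd.le) hu hex0 hs0 hs1
        (R_Zc x0.le (by linarith only [hx]) (by linarith only [v3, w3, x0, hx, h]) T0 a0 (by linarith only [h35]) h (by linarith only [w6]))
    push Not at h35
    have ht : 0 ≤ (Ow b z m.1 0).im := by
      rw [e]
      exact mul_nonneg h (trh_mem _ _).1
    exact S.noflip' (FI3.fl1 x0 hx' hT T0 h35.le a1' ht d0 hd.le k0 k1)
  · -- the exception
    rcases le_total 0 θ with h0 | h0
    · by_cases h35 : a ≤ 35 / 100
      · exact S.kill mn_cl (S.w_lo hx.le hd.le) hu hex0 hs0 hs1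
          (R_Zc x0.le (by linarith only [hx]) (by linarith only [v3, w3, x0, hx, h0]) T0 a0 (by linarith only [h35]) h0 (by linarith only [w6]))
      push Not at h35
      have ht : 0 ≤ (Ow b z m.1 0).im := by
        rw [e]
        exact mul_nonneg h0 (trh_mem _ _).1
      exact S.noflip' (FI3.fl1 x0 hx' hT T0 h35.le a1' ht d0 hd.le k0 k1)
    have hK : clsW b j2 = .one := h.one S.A2
    have A2s : Adj h2 j2 0 m.1 := S.A2.symm
    obtain ⟨h4, r4, A4⟩ := A2s.other_one S.hb hK
    have hr4 : clsW b r4 = .two := h.two S.A2 A4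
    rw [hK] at w1 w2 w3 w4
    simp only [mw] at w1 w2 w3 w4
    have hTK : Th b zs h2 j2 = -Th b zs h2 m.1 :=
      ofs_neg_of_opp (sign_adj S.hb S.A2 (by rw [S.c]; decide)) _
    obtain ⟨-, w7, -, -⟩ := S.L.X.win A2s A4 hK
    rw [hr4, S.c] at w7
    simp only [cw] at w7
    have w7' : Th b zs h2 j2 ≤ 94 / 1000 := w7
    have hk : -(724 / 1000) * (Ow b z m.1 2).re ≤ (Ow b z m.1 2).im := by
      obtain ⟨q1, q2, q3⟩ := S.pos2
      obtain ⟨a6, -⟩ := S.par2
      obtain ⟨-, hcl, -⟩ := a6 hK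
      have ht := trh_mem (b := b) h2 (Ow b z m.1 2).re
      have h5 : trh b h2 (Ow b z m.1 2).re * wcl b h2 ≤ (Ow b z m.1 2).re := by
        have hp := wcl_pos (b := b) h2
        have : trh b h2 (Ow b z m.1 2).re ≤ (Ow b z m.1 2).re / wcl b h2 := by
          unfold trh tr
          refine max_le (div_nonneg q1 hp.le) ?_
          refine (min_le_right _ _).trans ((min_le_left _ _).trans ?_)
          rw [sub_zero]
        calc trh b h2 (Ow b z m.1 2).re * wcl b h2
            ≤ (Ow b z m.1 2).re / wcl b h2 * wcl b h2 := mul_le_mul_of_nonneg_right this hp.le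
          _ = (Ow b z m.1 2).re := div_mul_cancel₀ _ hp.ne'
      rw [hcl] at h5
      rcases q3 with ⟨-, e⟩ | ⟨-, e⟩
      · rw [e]
        have k2 := mul_le_mul_of_nonneg_right
          (show -(94 / 1000) ≤ Th b zs h2 m.1 by linarith only [hTK, w7']) ht.1
        linarith only [d0, h5, k2]
      · rw [e]
        linarith only [d0]
    by_cases h46 : a ≤ 46 / 100
    · exact S.kill mn_cx (S.w_lx hx.le hd.le) hu hex0 hs0 hs1
        (R_Xc x0.le (by linarith only [hx]) (by linarith only [w3, x0, hθ0, hx]) (by linarith only [w2]) a0 (by linarith only [h46]) (by linarith only [hθ0])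
          (by linarith only [h0]))
    push Not at h46
    by_cases hT38 : Tm b zs m ≤ -(38 / 1000)
    · exact S.kill mn_cx (S.w_lx hx.le hd.le) hu hex0 hs0 hs1
        (R_Xd x0.le (by linarith only [hx]) (by linarith only [w3, x0, hθ0, hx]) (by linarith only [hT38]) (by linarith only [h46]) (by linarith only [a1'])
          (by linarith only [hθ0]) (by linarith only [h0]))
    push Not at hT38
    by_cases hT25 : -(25 / 1000) ≤ Tm b zs m
    · by_cases hd4 : 4 / 100 ≤ (Ow b z m.1 2).re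
      · have hW : S.WW [(200, m20)] := by
          intro q hq
          rw [List.mem_singleton] at hq
          rw [hq]
          have := S.w_m20 hx.le hd4 hd.le hT25
          have e5 : (((200 : ℤ) : ℝ) / 1000) = 200 / 1000 := by norm_num
          show S.W (((200 : ℤ) : ℝ) / 1000) (bv m20 x (Tm b zs m))
          rw [e5]
          exact this
        exact S.kill mn_m hW hu hex0 hs0 hs1
          (R_Xe x0.le (by linarith only [hx]) (by linarith only [hT25]) (by linarith only [w2]) (by linarith only [h46]) (by linarith only [a1'])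
            (by linarith only [hθ0]) (by linarith only [h0]))
      · push Not at hd4
        exact S.noflip' (FI3.fl3 x0 hx' T0 h46.le a1' d0 hk (Or.inl ⟨hd4.le, hT25⟩))
    · push Not at hT25
      by_cases hd2 : 2 / 100 ≤ (Ow b z m.1 2).re
      · have hW : S.WW [(200, n20)] := by
          intro q hq
          rw [List.mem_singleton] at hq
          rw [hq]
          have := S.w_n20 hx.le hd2 hd.le hT38.le
          have e5 : (((200 : ℤ) : ℝ) / 1000) = 200 / 1000 := by norm_num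
          show S.W (((200 : ℤ) : ℝ) / 1000) (bv n20 x (Tm b zs m))
          rw [e5]
          exact this
        exact S.kill mn_n hW hu hex0 hs0 hs1
          (R_Xf x0.le (by linarith only [hx]) (by linarith only [hT38]) (by linarith only [hT25]) (by linarith only [h46]) (by linarith only [a1'])
            (by linarith only [hθ0]) (by linarith only [h0]))
      · push Not at hd2
        exact S.noflip' (FI3.fl3 x0 hx' T0 h46.le a1' d0 hk (Or.inr ⟨hd2.le, hT38.le⟩))

/-- **No upper mirrored path.** -/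
theorem In3.false : False := by
  rcases hc : clsW b j0 with _ | _ | _ | _ | _ | _
  · exact S.one hc
  · exact S.two hc
  · exact S.twoE hc
  · exact S.three hc
  · exact S.threeE hc
  · exact S.ring hc

end SR

end Pool.Agent.Work.MP_b30479_gt.G2
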