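import Pool.Agent.Work.MP_b30479_gt.G2.WVal
import Pool.Agent.Work.NumX.Math
import Pool.Agent.Work.NumU.Expr

/-!
# The inner variable of an interior digit three: flips

Five lemmas: the value at a point of the mirrored path is smaller than the value at the point of the
main path plus the mode.
-/

set_option linter.unusedVariables false

namespace Pool.Agent.Work.MP_b30479_gt.G2

open Finset VOL Filter Topology
open NumU (uu UU_uu uu_neg uu_add_one uu_one_sub)

namespace FI3

/-! ### slopes of `uu` in the height -/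

theorem hasDerivAt_ht {X : ℝ} (h0 : 0 < X) (h1 : X < 1) (s : ℝ) :
    HasDerivAt (fun s => uu X s) (-NumI.lnB X s) s := by
  have h := NumU.uu_line (x := X) (t := 0) (a := 0) (b := 1) (τ := s) (by simpa using h0)
    (by simpa using h1)
  simpa using h

theorem cot_pos {X : ℝ} (h0 : 0 < X) (h1 : X ≤ 1 / 2) :
    0 < Real.sin (Real.pi * X) ∧ 0 ≤ Real.cos (Real.pi * X) := by
  have hp := Real.pi_pos
  refine ⟨Real.sin_pos_of_pos_of_lt_pi (by positivity) (by nlinarith only [hp, h1]),
    Real.cos_nonneg_of_neg_pi_div_two_le_of_le (by nlinarith only [hp, h0]) (by nlinarith only [h1, hp])⟩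

theorem lnB_nonneg {X s : ℝ} (h0 : 0 < X) (h1 : X ≤ 1 / 2) (hs : 0 ≤ s) : 0 ≤ NumI.lnB X s := by
  have hp := Real.pi_pos
  obtain ⟨h2, h3⟩ := cot_pos h0 h1
  unfold NumI.lnB
  rw [← Real.arctan_zero]
  apply Real.arctan_strictMono.monotone
  have h4 : 0 ≤ Real.sinh (Real.pi * s) := Real.sinh_nonneg_iff.2 (by positivity)
  have h5 := Real.cosh_pos (Real.pi * s)
  positivity

theorem sinh_le_cosh' (y : ℝ) : Real.sinh y ≤ Real.cosh y := (Real.sinh_lt_cosh y).le

theorem lnB_le {X s : ℝ} (h0 : 0 < X) (h1 : X ≤ 1 / 2) (hs : 0 ≤ s) :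
    NumI.lnB X s ≤ Real.pi * (1 / 2 - X) := by
  have hp := Real.pi_pos
  obtain ⟨h2, h3⟩ := cot_pos h0 h1
  have h5 := Real.cosh_pos (Real.pi * s)
  have e : Real.pi * (1 / 2 - X) = Real.arctan (Real.tan (Real.pi * (1 / 2 - X))) := by
    rw [Real.arctan_tan] <;> nlinarith only [hp, h1, h0]
  have e2 : Real.tan (Real.pi * (1 / 2 - X)) = Real.cos (Real.pi * X) / Real.sin (Real.pi * X) := by
    rw [show Real.pi * (1 / 2 - X) = Real.pi / 2 - Real.pi * X by ring, Real.tan_eq_sin_div_cos,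
      Real.sin_pi_div_two_sub, Real.cos_pi_div_two_sub]
  rw [e, e2]
  unfold NumI.lnB
  apply Real.arctan_strictMono.monotone
  rw [div_le_div_iff₀ (by positivity) h2]
  have h6 := mul_le_mul_of_nonneg_left (sinh_le_cosh' (Real.pi * s)) h3
  nlinarith only [h0, h1, h2, h6]

theorem sinh_le_mul_cosh {y : ℝ} (hy : 0 ≤ y) : Real.sinh y ≤ y * Real.cosh y := by
  have hd : ∀ t, HasDerivAt (fun y => y * Real.cosh y - Real.sinh y)
      ((1 * Real.cosh t + t * Real.sinh t) - Real.cosh t) t := fun t =>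
    ((hasDerivAt_id t).mul (Real.hasDerivAt_cosh t)).sub (Real.hasDerivAt_sinh t)
  have hm : MonotoneOn (fun y => y * Real.cosh y - Real.sinh y) (Set.Ici 0) := by
    apply monotoneOn_of_deriv_nonneg (convex_Ici 0)
    · exact fun t _ => (hd t).continuousAt.continuousWithinAt
    · exact fun t _ => (hd t).differentiableAt.differentiableWithinAt
    · intro t ht
      rw [interior_Ici] at ht
      rw [(hd t).deriv]
      have := Real.sinh_nonneg_iff.2 (le_of_lt (Set.mem_Ioi.1 ht))
      have ht' : 0 ≤ t := le_of_lt (Set.mem_Ioi.1 ht)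
      nlinarith only [ht', this, mul_nonneg ht' this]
  have h := hm (Set.mem_Ici.2 le_rfl) (Set.mem_Ici.2 hy) hy
  simp only [zero_mul, Real.sinh_zero, sub_zero] at h
  linarith only [h]

theorem lnB_le_div {X s : ℝ} (h0 : 0 < X) (h1 : X ≤ 1 / 2) (hs : 0 ≤ s) :
    NumI.lnB X s ≤ s / X := by
  have hp := Real.pi_pos
  obtain ⟨h2, h3⟩ := cot_pos h0 h1
  have h5 := Real.cosh_pos (Real.pi * s)
  have h6 : Real.sinh (Real.pi * s) ≤ Real.pi * s * Real.cosh (Real.pi * s) :=
    sinh_le_mul_cosh (by positivity)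
  have h4 : 0 ≤ Real.sinh (Real.pi * s) := Real.sinh_nonneg_iff.2 (by positivity)
  have h7 : Real.pi * X * Real.cos (Real.pi * X) ≤ Real.sin (Real.pi * X) := by
    rcases h1.lt_or_eq with h1 | h1
    · have h8 := Real.le_tan (x := Real.pi * X) (by positivity) (by nlinarith only [hp, h1])
      have h9 : 0 < Real.cos (Real.pi * X) :=
        Real.cos_pos_of_mem_Ioo ⟨by nlinarith only [hp, h0], by nlinarith only [hp, h1]⟩
      rw [Real.tan_eq_sin_div_cos, le_div_iff₀ h9] at h8
      exact h8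
    · rw [h1, show Real.pi * (1 / 2) = Real.pi / 2 by ring, Real.cos_pi_div_two, mul_zero,
        Real.sin_pi_div_two]
      norm_num
  have hz : Real.cos (Real.pi * X) * Real.sinh (Real.pi * s) /
      (Real.sin (Real.pi * X) * Real.cosh (Real.pi * s)) ≤ s / X := by
    rw [div_le_div_iff₀ (by positivity) h0]
    calc Real.cos (Real.pi * X) * Real.sinh (Real.pi * s) * X ≤
        Real.cos (Real.pi * X) * (Real.pi * s * Real.cosh (Real.pi * s)) * X := by gcongr
      _ = s * Real.cosh (Real.pi * s) * (Real.pi * X * Real.cos (Real.pi * X)) := by ring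
      _ ≤ s * Real.cosh (Real.pi * s) * Real.sin (Real.pi * X) := by gcongr
      _ = s * (Real.sin (Real.pi * X) * Real.cosh (Real.pi * s)) := by ring
  have h8 : 0 ≤ Real.cos (Real.pi * X) * Real.sinh (Real.pi * s) /
      (Real.sin (Real.pi * X) * Real.cosh (Real.pi * s)) := by positivity
  unfold NumI.lnB
  have h9 := Real.le_tan (Real.arctan_nonneg.2 h8) (Real.arctan_lt_pi_div_two _)
  rw [Real.tan_arctan] at h9
  exact h9.trans hz

/-- monotonicity of a combination with the height -/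
theorem mono_of {X : ℝ} (h0 : 0 < X) (h1 : X < 1) {g g' : ℝ → ℝ} (hg : ∀ s, HasDerivAt g (g' s) s)
    (hn : ∀ s, 0 ≤ s → 0 ≤ -NumI.lnB X s + g' s) {y y' : ℝ} (hy : 0 ≤ y) (h : y ≤ y') :
    uu X y + g y ≤ uu X y' + g y' := by
  have hd : ∀ s, HasDerivAt (fun s => uu X s + g s) (-NumI.lnB X s + g' s) s := fun s =>
    (hasDerivAt_ht h0 h1 s).add (hg s)
  have hm : MonotoneOn (fun s => uu X s + g s) (Set.Ici 0) := by
    apply monotoneOn_of_deriv_nonneg (convex_Ici 0)
    · exact fun t _ => (hd t).continuousAt.continuousWithinAt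
    · exact fun t _ => (hd t).differentiableAt.differentiableWithinAt
    · intro t ht
      rw [(hd t).deriv]
      rw [interior_Ici] at ht
      exact hn t (le_of_lt ht)
  exact hm (Set.mem_Ici.2 hy) (Set.mem_Ici.2 (hy.trans h)) h

/-- left of `1/2` the value decreases with the height -/
theorem dec {X y y' : ℝ} (h0 : 0 ≤ X) (h1 : X ≤ 1 / 2) (hy : 0 ≤ y) (h : y ≤ y') :
    uu X y' ≤ uu X y := by
  have hp := Real.pi_pos
  rcases h0.eq_or_lt with h2 | h2
  · rw [← h2, NumX.uu_zero_left, NumX.uu_zero_left, abs_of_nonneg hy, abs_of_nonneg (hy.trans h)]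
    nlinarith only [h, hp]
  · have hd : ∀ s, HasDerivAt (fun s => uu X s) (-NumI.lnB X s) s := fun s =>
      hasDerivAt_ht h2 (by linarith only [h1, h2]) s
    have hm : AntitoneOn (fun s => uu X s) (Set.Ici 0) := by
      apply antitoneOn_of_deriv_nonpos (convex_Ici 0)
      · exact fun t _ => (hd t).continuousAt.continuousWithinAt
      · exact fun t _ => (hd t).differentiableAt.differentiableWithinAt
      · intro t ht
        rw [(hd t).deriv]
        rw [interior_Ici] at ht
        linarith only [h2, h1, ht, lnB_nonneg h2 h1 (le_of_lt ht)]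
    exact hm (Set.mem_Ici.2 hy) (Set.mem_Ici.2 (hy.trans h)) h

/-- left of `1/2`, lower bound of the slope -/
theorem dec_ge {X y y' : ℝ} (h0 : 0 ≤ X) (h1 : X ≤ 1 / 2) (hy : 0 ≤ y) (h : y ≤ y') :
    -(Real.pi * (1 / 2 - X) * (y' - y)) ≤ uu X y' - uu X y := by
  have hp := Real.pi_pos
  rcases h0.eq_or_lt with h2 | h2
  · rw [← h2, NumX.uu_zero_left, NumX.uu_zero_left, abs_of_nonneg hy, abs_of_nonneg (hy.trans h)]
    nlinarith only []
  · have := mono_of h2 (by linarith only [h1, h2]) (g := fun s => Real.pi * (1 / 2 - X) * s)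
      (g' := fun _ => Real.pi * (1 / 2 - X)) (fun s => by
        simpa using (hasDerivAt_id s).const_mul (Real.pi * (1 / 2 - X)))
      (fun s hs => by linarith only [h2, h1, hs, lnB_le h2 h1 hs]) hy h
    nlinarith only [this]

/-- left of `1/2`, quadratic lower bound -/
theorem dec_sq {X y y' : ℝ} (h0 : 0 < X) (h1 : X ≤ 1 / 2) (hy : 0 ≤ y) (h : y ≤ y') :
    -((y' ^ 2 - y ^ 2) / (2 * X)) ≤ uu X y' - uu X y := by
  have := mono_of h0 (by linarith only [h0, h1]) (g := fun s => s ^ 2 / (2 * X))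
    (g' := fun s => s / X) (fun s => by
      have := ((hasDerivAt_id s).pow 2).div_const (2 * X)
      refine this.congr_deriv ?_
      simp
      field_simp)
    (fun s hs => by linarith only [h0, h1, hs, lnB_le_div h0 h1 hs]) hy h
  rw [sub_div]
  linarith only [this]

/-- left of `1/2`: the value is concave in the height -/
theorem conc {X a L : ℝ} (h0 : 0 < X) (h1 : X ≤ 1 / 2) (ha : 0 ≤ a) (hL : 0 ≤ L) :
    uu X (a + L) - uu X a ≤ uu X L - uu X 0 := by
  have hp := Real.pi_pos
  obtain ⟨h2, h3⟩ := cot_pos h0 h1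
  have hd : ∀ s, HasDerivAt (fun s => uu X (s + L) - uu X s)
      (-NumI.lnB X (s + L) - -NumI.lnB X s) s := fun s =>
    ((hasDerivAt_ht h0 (by linarith only [h0, h1]) (s + L)).comp_add_const s L).sub
      (hasDerivAt_ht h0 (by linarith only [h0, h1]) s)
  have hm : AntitoneOn (fun s => uu X (s + L) - uu X s) (Set.Ici 0) := by
    apply antitoneOn_of_deriv_nonpos (convex_Ici 0)
    · exact fun t _ => (hd t).continuousAt.continuousWithinAt
    · exact fun t _ => (hd t).differentiableAt.differentiableWithinAt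
    · intro t ht
      rw [(hd t).deriv]
      rw [interior_Ici] at ht
      have ht' : 0 ≤ t := le_of_lt ht
      have : NumI.lnB X t ≤ NumI.lnB X (t + L) := by
        unfold NumI.lnB
        apply Real.arctan_strictMono.monotone
        have c1 := Real.cosh_pos (Real.pi * t)
        have c2 := Real.cosh_pos (Real.pi * (t + L))
        rw [div_le_div_iff₀ (by positivity) (by positivity)]
        have h5 : 0 ≤ Real.sinh (Real.pi * (t + L) - Real.pi * t) :=
          Real.sinh_nonneg_iff.2 (by nlinarith only [h0, h1, hL, hp])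
        rw [Real.sinh_sub] at h5
        have h6 : Real.sinh (Real.pi * t) * Real.cosh (Real.pi * (t + L)) ≤
            Real.sinh (Real.pi * (t + L)) * Real.cosh (Real.pi * t) := by linarith only [h5]
        calc Real.cos (Real.pi * X) * Real.sinh (Real.pi * t) *
            (Real.sin (Real.pi * X) * Real.cosh (Real.pi * (t + L))) =
            Real.cos (Real.pi * X) * Real.sin (Real.pi * X) *
              (Real.sinh (Real.pi * t) * Real.cosh (Real.pi * (t + L))) := by ring
          _ ≤ Real.cos (Real.pi * X) * Real.sin (Real.pi * X) *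
              (Real.sinh (Real.pi * (t + L)) * Real.cosh (Real.pi * t)) := by gcongr
          _ = _ := by ring
      linarith only [this]
  have := hm (Set.mem_Ici.2 le_rfl) (Set.mem_Ici.2 ha) ha
  simp only [zero_add] at this
  exact this

/-! ### increments over intervals of both signs -/

/-- the length of the positive part -/
noncomputable def Pp (y y' : ℝ) : ℝ := max y' 0 - max y 0

/-- the length of the negative part -/
noncomputable def Nn (y y' : ℝ) : ℝ := min y' 0 - min y 0

theorem Pp_nonneg {y y' : ℝ} (h : y ≤ y') : 0 ≤ Pp y y' := by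
  unfold Pp; linarith only [h, max_le_max h (le_refl (0 : ℝ))]

theorem Nn_nonneg {y y' : ℝ} (h : y ≤ y') : 0 ≤ Nn y y' := by
  unfold Nn; linarith only [h, min_le_min h (le_refl (0 : ℝ))]

theorem Pp_add_Nn (y y' : ℝ) : Pp y y' + Nn y y' = y' - y := by
  unfold Pp Nn
  linarith only [max_add_min y' 0, max_add_min y 0]

theorem abs_eq_PN (y y' : ℝ) : |y'| - |y| = Pp y y' - Nn y y' := by
  have e : ∀ y : ℝ, |y| = max y 0 - min y 0 := by
    intro y
    rcases le_total 0 y with h | h
    · rw [abs_of_nonneg h, max_eq_left h, min_eq_right h]; ring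
    · rw [abs_of_nonpos h, max_eq_right h, min_eq_left h]; ring
  rw [e, e]; unfold Pp Nn; ring

theorem uu_split (X y : ℝ) : uu X y = uu X (max y 0) + uu X (-min y 0) - uu X 0 := by
  rcases le_total 0 y with h | h
  · rw [max_eq_left h, min_eq_right h, neg_zero]; ring
  · rw [max_eq_right h, min_eq_left h, uu_neg]; ring

theorem split_diff (X y y' : ℝ) : uu X y' - uu X y =
    (uu X (max y' 0) - uu X (max y 0)) - (uu X (-min y 0) - uu X (-min y' 0)) := by
  rw [uu_split X y', uu_split X y]; ring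

variable {X y y' : ℝ}

theorem mx (y : ℝ) : 0 ≤ max y 0 := le_max_right _ _
theorem mn (y : ℝ) : 0 ≤ -min y 0 := by linarith only [min_le_right y (0 : ℝ)]
theorem mmx (h : y ≤ y') : max y 0 ≤ max y' 0 := max_le_max h le_rfl
theorem mmn (h : y ≤ y') : -min y' 0 ≤ -min y 0 := by linarith only [h, min_le_min h (le_refl (0 : ℝ))]

/-- left of `1/2`, upper bound -/
theorem lup (h0 : 0 ≤ X) (h1 : X ≤ 1 / 2) (h : y ≤ y') :
    uu X y' - uu X y ≤ Real.pi * (1 / 2 - X) * Nn y y' := by
  rw [split_diff]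
  have h2 := dec h0 h1 (mx y) (mmx h)
  have h3 := dec_ge h0 h1 (mn y') (mmn h)
  have e : -min y 0 - -min y' 0 = Nn y y' := by unfold Nn; ring
  rw [e] at h3
  linarith only [h2, h3]

/-- left of `1/2`, lower bound -/
theorem llo (h0 : 0 ≤ X) (h1 : X ≤ 1 / 2) (h : y ≤ y') :
    -(Real.pi * (1 / 2 - X) * Pp y y') ≤ uu X y' - uu X y := by
  rw [split_diff]
  have h2 := dec h0 h1 (mn y') (mmn h)
  have h3 := dec_ge h0 h1 (mx y) (mmx h)
  have e : max y' 0 - max y 0 = Pp y y' := rfl
  rw [e] at h3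
  linarith only [h2, h3]

/-- left of `1/2`, quadratic upper bound -/
theorem lsq (h0 : 0 < X) (h1 : X ≤ 1 / 2) (h : y ≤ y') :
    uu X y' - uu X y ≤ (min y 0 ^ 2 - min y' 0 ^ 2) / (2 * X) := by
  rw [split_diff]
  have h2 := dec h0.le h1 (mx y) (mmx h)
  have h3 := dec_sq h0 h1 (mn y') (mmn h)
  rw [neg_sq, neg_sq] at h3
  linarith only [h2, h3]

/-- left of `1/2`, slope at most `c` if the negative part is at most `c X` -/
theorem lc {c : ℝ} (hc : 0 ≤ c) (h0 : 0 < X) (h1 : X ≤ 1 / 2) (h : y ≤ y') (hy : -(c * X) ≤ y) :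
    uu X y' - uu X y ≤ c * (y' - y) := by
  have h2 := lsq h0 h1 h
  have h3 : (min y 0 ^ 2 - min y' 0 ^ 2) / (2 * X) ≤ c * Nn y y' := by
    rw [div_le_iff₀ (by positivity)]
    have a0 : -(c * X) ≤ min y 0 := le_min hy (by nlinarith only [hc, h0])
    have a1 : min y 0 ≤ min y' 0 := min_le_min h le_rfl
    have a2 : min y' 0 ≤ 0 := min_le_right _ _
    unfold Nn
    nlinarith only [h0, h1, a0, a1]
  have h4 := Pp_add_Nn y y'
  have h5 := Pp_nonneg h
  nlinarith only [h2, h3, hc, h4, h5]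

/-- the same for the other direction -/
theorem lc' {c : ℝ} (hc : 0 ≤ c) (h0 : 0 < X) (h1 : X ≤ 1 / 2) (h : y ≤ y') (hy : y' ≤ c * X) :
    -(c * (y' - y)) ≤ uu X y' - uu X y := by
  have := lc hc h0 h1 (neg_le_neg h) (by linarith only [hy])
  rw [uu_neg, uu_neg] at this
  linarith only [this]

/-- right of `1/2` -/
theorem rup (h0 : 1 / 2 ≤ X) (h1 : X ≤ 1) (h : y ≤ y') :
    uu X y' - uu X y ≤ Real.pi * (X - 1 / 2) * Pp y y' := by
  have := llo (X := 1 - X) (by linarith only [h1]) (by linarith only [h0]) h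
  rw [uu_one_sub, uu_one_sub] at this
  have e : Real.pi * (1 / 2 - (1 - X)) = Real.pi * (X - 1 / 2) := by ring
  rw [e] at this
  linarith only [this]

theorem rlo (h0 : 1 / 2 ≤ X) (h1 : X ≤ 1) (h : y ≤ y') :
    -(Real.pi * (X - 1 / 2) * Nn y y') ≤ uu X y' - uu X y := by
  have := lup (X := 1 - X) (by linarith only [h1]) (by linarith only [h0]) h
  rw [uu_one_sub, uu_one_sub] at this
  have e : Real.pi * (1 / 2 - (1 - X)) = Real.pi * (X - 1 / 2) := by ring
  rw [e] at this
  linarith only [this]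

theorem rsq (h0 : 1 / 2 ≤ X) (h1 : X < 1) (h : y ≤ y') :
    -((min y 0 ^ 2 - min y' 0 ^ 2) / (2 * (1 - X))) ≤ uu X y' - uu X y := by
  have := lsq (X := 1 - X) (by linarith only [h1]) (by linarith only [h0]) h
  rw [uu_one_sub, uu_one_sub] at this
  linarith only [this]

/-- the ramp: quadratic near zero, then linear -/
theorem ramp_C {x : ℝ} (h0 : 0 < x) (h1 : x ≤ 1 / 50) :
    uu x 0 - uu x (16 / 5 * x) ≤ 3793 / 1000 * x := by
  have h2 := dec_sq h0 (by linarith only [h0, h1]) (le_refl (0 : ℝ)) (show (0 : ℝ) ≤ 157 / 100 * x by positivity)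
  have h3 := dec_ge h0.le (by linarith only [h0, h1]) (show (0 : ℝ) ≤ 157 / 100 * x by positivity)
    (show 157 / 100 * x ≤ 16 / 5 * x by linarith only [h0])
  have e : ((157 / 100 * x) ^ 2 - 0 ^ 2) / (2 * x) = 24649 / 20000 * x := by
    field_simp
    ring
  rw [e] at h2
  have hp := Real.pi_pos
  have hp2 := Real.pi_lt_d4
  have e3 : Real.pi * (1 / 2 - x) * (16 / 5 * x - 157 / 100 * x) ≤
      Real.pi * (1 / 2) * (163 / 100 * x) := by
    have : 16 / 5 * x - 157 / 100 * x = 163 / 100 * x := by ring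
    rw [this]
    gcongr
    linarith only [h0]
  nlinarith only [h2, h3, e3, h0, h1, hp2]

/-! ### the difference of the values -/

theorem V3_diff (a t x d k s s' : ℝ) : V3 ⟨a, t⟩ ⟨x, s'⟩ ⟨d, k⟩ - V3 ⟨a, t⟩ ⟨x, s⟩ ⟨d, k⟩ =
    Real.pi * (1 / 2 - a - x + d) * (s' - s) + (uu (x + d) (s' + k) - uu (x + d) (s + k)) -
      (uu (x - a) (s' - t) - uu (x - a) (s - t)) - (uu x s' - uu x s) := by
  unfold V3
  simp only [UU_uu, Complex.add_re, Complex.add_im, Complex.sub_im, Complex.sub_re,
    Complex.mul_im, pow_two, Complex.re_ofNat, Complex.im_ofNat, Complex.mul_re]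
  ring

theorem tr_left {x : ℝ} (h0 : 0 ≤ x) (h1 : x ≤ 1 / 20) :
    G2.tr 0 (8 / 10) (5 / 100) (5 / 100) x = 20 * x := by
  have e : G2.tr 0 (8 / 10) (5 / 100) (5 / 100) x =
      max 0 (min 1 (min ((x - 0) / (5 / 100)) ((8 / 10 - x) / (5 / 100)))) := rfl
  rw [e, min_eq_left (by linarith only [h1] : (x - 0) / (5 / 100) ≤ (8 / 10 - x) / (5 / 100)),
    min_eq_right (by linarith only [h1]), max_eq_right (by linarith only [h0])]
  ring

theorem tr_mid {x : ℝ} (h0 : 1 / 20 ≤ x) (h1 : x ≤ 3 / 4) :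
    G2.tr 0 (8 / 10) (5 / 100) (5 / 100) x = 1 := by
  have e : G2.tr 0 (8 / 10) (5 / 100) (5 / 100) x =
      max 0 (min 1 (min ((x - 0) / (5 / 100)) ((8 / 10 - x) / (5 / 100)))) := rfl
  rw [e, min_eq_left (le_min (by linarith only [h0]) (by linarith only [h1])), max_eq_right (by linarith only [])]

theorem tr_right {x : ℝ} (h0 : 3 / 4 ≤ x) (h1 : x ≤ 8 / 10) :
    G2.tr 0 (8 / 10) (5 / 100) (5 / 100) x = 20 * (8 / 10 - x) := by
  have e : G2.tr 0 (8 / 10) (5 / 100) (5 / 100) x =
      max 0 (min 1 (min ((x - 0) / (5 / 100)) ((8 / 10 - x) / (5 / 100)))) := rfl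
  rw [e, min_eq_right (by linarith only [h0] : (8 / 10 - x) / (5 / 100) ≤ (x - 0) / (5 / 100)),
    min_eq_right (by linarith only [h0]), max_eq_right (by linarith only [h1])]
  ring

/-- bounds of the ramp function -/
theorem tr_bd {XM cl cr x : ℝ} (hc : 0 < cl) (hc' : 0 < cr) (h0 : 0 ≤ x) (h1 : x ≤ XM) :
    0 ≤ G2.tr 0 XM cl cr x ∧ G2.tr 0 XM cl cr x ≤ 1 ∧ G2.tr 0 XM cl cr x * cl ≤ x ∧
      G2.tr 0 XM cl cr x * cr ≤ XM - x := by
  have a0 : 0 ≤ x / cl := div_nonneg h0 hc.le
  have a1 : 0 ≤ (XM - x) / cr := div_nonneg (by linarith only [h1]) hc'.le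
  have e : G2.tr 0 XM cl cr x = max 0 (min 1 (min ((x - 0) / cl) ((XM - x) / cr))) := rfl
  rw [sub_zero] at e
  have e1 : G2.tr 0 XM cl cr x = min 1 (min (x / cl) ((XM - x) / cr)) := by
    rw [e]
    exact max_eq_right (le_min zero_le_one (le_min a0 a1))
  have b1 : G2.tr 0 XM cl cr x ≤ x / cl := by
    rw [e1]
    exact (min_le_right _ _).trans (min_le_left _ _)
  have b2 : G2.tr 0 XM cl cr x ≤ (XM - x) / cr := by
    rw [e1]
    exact (min_le_right _ _).trans (min_le_right _ _)
  refine ⟨?_, ?_, (le_div_iff₀ hc).mp b1, (le_div_iff₀ hc').mp b2⟩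
  · rw [e]
    exact le_max_left _ _
  · rw [e1]
    exact min_le_left _ _

theorem Pp_le {y y' : ℝ} (h : y ≤ y') : Pp y y' ≤ y' - y := by
  linarith only [h, Pp_add_Nn y y', Nn_nonneg h]

theorem Nn_le {y y' : ℝ} (h : y ≤ y') : Nn y y' ≤ y' - y := by
  linarith only [h, Pp_add_Nn y y', Pp_nonneg h]

/-- the kink: the difference of the first two variables is on the left of the imaginary axis -/
theorem kink {r y y' c1 c2 : ℝ} (h0 : -1 ≤ r) (h1 : r ≤ 0) (c10 : 0 ≤ c1) (c11 : -(1 / 2) - r ≤ c1)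
    (c20 : 0 ≤ c2) (c21 : r + 1 / 2 ≤ c2) (h : y ≤ y') :
    -(uu r y' - uu r y) ≤ Real.pi * (1 + c1) * Pp y y' + Real.pi * (c2 - 1) * Nn y y' := by
  have hp := Real.pi_pos
  have a1 := uu_add_one r y
  have a2 := uu_add_one r y'
  have a3 := abs_eq_PN y y'
  have hP := Pp_nonneg h
  have hN := Nn_nonneg h
  have e : -(uu r y' - uu r y) = -(uu (r + 1) y' - uu (r + 1) y) +
      Real.pi * (Pp y y' - Nn y y') := by
    rw [← a3, a1, a2]; ring
  rw [e]
  rcases le_total (r + 1) (1 / 2) with h2 | h2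
  · have h3 := llo (X := r + 1) (by linarith only [h0]) h2 h
    have h4 : Real.pi * (1 / 2 - (r + 1)) * Pp y y' ≤ Real.pi * c1 * Pp y y' := by
      gcongr; linarith only [c11]
    have h5 : 0 ≤ Real.pi * c2 * Nn y y' := by positivity
    linarith only [h3, h4, h5]
  · have h3 := rlo (X := r + 1) h2 (by linarith only [h1]) h
    have h4 : Real.pi * (r + 1 - 1 / 2) * Nn y y' ≤ Real.pi * c2 * Nn y y' := by
      gcongr; linarith only [c21]
    have h5 : 0 ≤ Real.pi * c1 * Pp y y' := by positivity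
    linarith only [h3, h4, h5]

/-- the part of the own hinge below the axis -/
theorem own_neg {x s : ℝ} (h0 : 0 ≤ x) (h1 : x ≤ 1 / 2) (hs : s ≤ 0) : uu x s ≤ uu x 0 := by
  have := dec h0 h1 le_rfl (show (0 : ℝ) ≤ -s by linarith only [hs])
  rwa [uu_neg] at this

theorem fl1 {a t x T d k : ℝ} (hx0 : 0 < x) (hx : x ≤ 1 / 50) (hT0 : -(123 / 1000) ≤ T)
    (hT : T ≤ 0) (ha0 : 35 / 100 ≤ a) (ha : a ≤ 6 / 10) (ht : 0 ≤ t) (hd0 : 0 ≤ d)
    (hd : d ≤ 1 / 10) (hk0 : -(881 / 1000) * d ≤ k) (hk : k ≤ 44 / 100 * d) :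
    V3 ⟨a, t⟩ ⟨x, 16 / 100 * G2.tr 0 (8 / 10) (5 / 100) (5 / 100) x⟩ ⟨d, k⟩ -
      V3 ⟨a, t⟩ ⟨x, T * G2.tr 0 (8 / 10) (5 / 100) (5 / 100) x⟩ ⟨d, k⟩ <
      2 * Real.pi * (16 / 100 * G2.tr 0 (8 / 10) (5 / 100) (5 / 100) x) := by
  have hp := Real.pi_gt_d4
  have hp2 := Real.pi_lt_d4
  rw [tr_left hx0.le (by linarith only [hx0, hx]), V3_diff]
  set s1 : ℝ := 16 / 100 * (20 * x) with hs1
  set s0 : ℝ := T * (20 * x) with hs0
  have e1 : s1 = 16 / 5 * x := by rw [hs1]; ring
  have h10 : 0 ≤ s1 := by rw [e1]; positivity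
  have h00 : s0 ≤ 0 := by rw [hs0]; nlinarith only [hx0, hT]
  have hA1 : uu (x + d) (s1 + k) - uu (x + d) (0 + k) ≤ 881 / 1000 * (s1 + k - (0 + k)) :=
    lc (by norm_num) (by linarith only [hx0, hd0]) (by linarith only [hx0, hx, hd]) (by linarith only [hx0, hs1]) (by linarith only [hx0, hk0])
  have hA2 := lup (X := x + d) (y := s0 + k) (y' := 0 + k) (by linarith only [hx0, hd0]) (by linarith only [hx0, hx, hd]) (by linarith only [h00])
  have hA3 := Nn_le (y := s0 + k) (y' := 0 + k) (by linarith only [h00])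
  have hA4 : Real.pi * (1 / 2 - (x + d)) * Nn (s0 + k) (0 + k) ≤
      Real.pi * (1 / 2 - (x + d)) * (0 + k - (s0 + k)) :=
    mul_le_mul_of_nonneg_left hA3 (mul_nonneg Real.pi_pos.le (by linarith only [hx0, hx, hd]))
  have hC1 := ramp_C hx0 hx
  rw [← e1] at hC1
  have hC2 := own_neg (x := x) hx0.le (by linarith only [hx0, hx]) h00
  have hPB := Pp_le (y := s0 - t) (y' := s1 - t) (by linarith only [hx0, hs1, h00])
  obtain ⟨c1, c2, hc10, hc11, hc20, hc21, hk1, hk2⟩ : ∃ c1 c2 : ℝ, 0 ≤ c1 ∧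
      -(1 / 2) - (x - a) ≤ c1 ∧ 0 ≤ c2 ∧ x - a + 1 / 2 ≤ c2 ∧ 3 / 4 ≤ a + x - d - c1 + 1 / 2 ∧
      c2 ≤ a := by
    rcases le_total (a - x) (1 / 2) with h | h
    · exact ⟨0, x - a + 1 / 2, by linarith only [], by linarith only [h], by linarith only [h], by linarith only [], by linarith only [hx0, ha0, hd],
        by linarith only [hx0, hx, ha0]⟩
    · exact ⟨a - x - 1 / 2, 0, by linarith only [h], by linarith only [], by linarith only [], by linarith only [h], by linarith only [hx0, hx, hd],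
        by linarith only [hx0, hx, h]⟩
  have hB1 := kink (r := x - a) (y := 0 - t) (y' := s1 - t) (by linarith only [hx0, hx, ha]) (by linarith only [hx0, hx, ha0]) hc10 hc11
    hc20 hc21 (by linarith only [hx0, hs1])
  have hB2 := kink (r := x - a) (y := s0 - t) (y' := 0 - t) (by linarith only [hx0, hx, ha]) (by linarith only [hx0, hx, ha0]) hc10 hc11
    hc20 hc21 (by linarith only [h00])
  have b1 : Pp (0 - t) (s1 - t) ≤ s1 := by
    have := Pp_le (y := 0 - t) (y' := s1 - t) (by linarith only [hx0, hs1])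
    linarith only [this]
  have b2 : 0 ≤ Nn (0 - t) (s1 - t) := Nn_nonneg (by linarith only [hx0, hs1])
  have b3 : Pp (s0 - t) (0 - t) = 0 := by
    unfold Pp
    rw [max_eq_right (by linarith only [ht]), max_eq_right (by linarith only [ht, h00]), sub_zero]
  have b4 : Nn (s0 - t) (0 - t) = -s0 := by
    have := Pp_add_Nn (s0 - t) (0 - t)
    rw [b3] at this
    linarith only [this]
  rw [b3, b4] at hB2
  have b5 : Real.pi * (1 + c1) * Pp (0 - t) (s1 - t) ≤ Real.pi * (1 + c1) * s1 := by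
    gcongr
  have b6 : Real.pi * (c2 - 1) * Nn (0 - t) (s1 - t) ≤ 0 :=
    mul_nonpos_of_nonpos_of_nonneg (mul_nonpos_of_nonneg_of_nonpos (by linarith only [hx0, hx, hp]) (by linarith only [hx0, hx, ha, hk2])) b2
  -- the part below the axis
  have hneg : Real.pi * (-a - 2 * x + c2) * (-s0) ≤ 0 :=
    mul_nonpos_of_nonpos_of_nonneg (mul_nonpos_of_nonneg_of_nonpos (by linarith only [hx0, hx, hp]) (by linarith only [hx0, hk2]))
      (by linarith only [h00])
  have hkey : 66122 / 10000 < Real.pi * (16 / 5) * (a + x - d - c1 + 1 / 2) := by nlinarith only [hk1, hx0, hp, hx]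
  have hfin : 66122 / 10000 * x < Real.pi * (16 / 5) * (a + x - d - c1 + 1 / 2) * x :=
    mul_lt_mul_of_pos_right hkey hx0
  have hs1x : 881 / 1000 * s1 + 3793 / 1000 * x = 66122 / 10000 * x := by rw [e1]; ring
  have hpi : Real.pi * (16 / 5) * (a + x - d - c1 + 1 / 2) * x =
      Real.pi * (a + x - d - c1 + 1 / 2) * s1 := by rw [e1]; ring
  rw [hpi] at hfin
  linarith only [hs1, hA1, hA2, hA4, hC1, hC2, hB1, hB2, b5, b6, hneg, hfin]

/-- the part of the opposite hinge, any position in `[0, 1]` -/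
theorem anyA {X y y' : ℝ} (h0 : 0 ≤ X) (h1 : X ≤ 1) (h : y ≤ y') :
    uu X y' - uu X y ≤ Real.pi * |1 / 2 - X| * (y' - y) := by
  have hp := Real.pi_pos
  rcases le_total X (1 / 2) with h2 | h2
  · have h3 := lup h0 h2 h
    rw [abs_of_nonneg (by linarith only [h2])]
    have h4 : Real.pi * (1 / 2 - X) * Nn y y' ≤ Real.pi * (1 / 2 - X) * (y' - y) :=
      mul_le_mul_of_nonneg_left (Nn_le h) (mul_nonneg hp.le (by linarith only [h2]))
    linarith only [h3, h4]
  · have h3 := rup h2 h1 h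
    rw [abs_of_nonpos (by linarith only [h2])]
    have h4 : Real.pi * (X - 1 / 2) * Pp y y' ≤ Real.pi * (X - 1 / 2) * (y' - y) :=
      mul_le_mul_of_nonneg_left (Pp_le h) (mul_nonneg hp.le (by linarith only [h2]))
    linarith only [h3, h4]

theorem fl2 {a t x T d k : ℝ} (hx0 : 0 < x) (hx : x ≤ 1 / 50) (hT0 : -(123 / 1000) ≤ T)
    (hT : T ≤ 0) (ha0 : 3 / 10 ≤ a) (ha : a ≤ 6 / 10) (ht : 16 / 5 * x ≤ t) (hd0 : 0 ≤ d)
    (hd : d ≤ 65 / 100) :
    V3 ⟨a, t⟩ ⟨x, 16 / 100 * G2.tr 0 (8 / 10) (5 / 100) (5 / 100) x⟩ ⟨d, k⟩ -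
      V3 ⟨a, t⟩ ⟨x, T * G2.tr 0 (8 / 10) (5 / 100) (5 / 100) x⟩ ⟨d, k⟩ <
      2 * Real.pi * (16 / 100 * G2.tr 0 (8 / 10) (5 / 100) (5 / 100) x) := by
  have hp := Real.pi_pos
  rw [tr_left hx0.le (by linarith only [hx0, hx]), V3_diff]
  set s1 : ℝ := 16 / 100 * (20 * x) with hs1
  set s0 : ℝ := T * (20 * x) with hs0
  have e1 : s1 = 16 / 5 * x := by rw [hs1]; ring
  have h10 : 0 ≤ s1 := by rw [e1]; positivity
  have h00 : s0 ≤ 0 := by rw [hs0]; nlinarith only [hx0, hT]
  have h01 : -(246 / 100) * x ≤ s0 := by rw [hs0]; nlinarith only [hx0, hT0]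
  have hA := anyA (X := x + d) (y := s0 + k) (y' := s1 + k) (by linarith only [hx0, hd0]) (by linarith only [hx0, hx, hd])
    (by linarith only [hx0, hs1, h00])
  have hC1 := dec_ge (X := x) (y := 0) (y' := s1) hx0.le (by linarith only [hx0, hx]) le_rfl h10
  have hC2 := own_neg (x := x) hx0.le (by linarith only [hx0, hx]) h00
  obtain ⟨c1, c2, hc10, hc11, hc20, hc21, hk1⟩ : ∃ c1 c2 : ℝ, 0 ≤ c1 ∧
      -(1 / 2) - (x - a) ≤ c1 ∧ 0 ≤ c2 ∧ x - a + 1 / 2 ≤ c2 ∧
      1 / 2 - a - x + d + |1 / 2 - (x + d)| + (c2 - 1) ≤ 22 / 100 := by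
    rcases le_total (x + d) (1 / 2) with h | h
    · rw [abs_of_nonneg (by linarith only [h])]
      rcases le_total (a - x) (1 / 2) with h' | h'
      · exact ⟨0, x - a + 1 / 2, by linarith only [], by linarith only [h'], by linarith only [h'], by linarith only [], by linarith only [hx0, hx, ha0]⟩
      · exact ⟨a - x - 1 / 2, 0, by linarith only [h'], by linarith only [], by linarith only [], by linarith only [h'], by linarith only [hx0, hx, h']⟩
    · rw [abs_of_nonpos (by linarith only [h])]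
      rcases le_total (a - x) (1 / 2) with h' | h'
      · exact ⟨0, x - a + 1 / 2, by linarith only [], by linarith only [h'], by linarith only [h'], by linarith only [], by linarith only [hx, ha0, hd]⟩
      · exact ⟨a - x - 1 / 2, 0, by linarith only [h'], by linarith only [], by linarith only [], by linarith only [h'], by linarith only [hx0, hx, hd, h']⟩
  have hB := kink (r := x - a) (y := s0 - t) (y' := s1 - t) (by linarith only [hx0, hx, ha]) (by linarith only [hx0, hx, ha0]) hc10 hc11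
    hc20 hc21 (by linarith only [hx0, hs1, h00])
  have b1 : Pp (s0 - t) (s1 - t) = 0 := by
    unfold Pp
    rw [max_eq_right (by linarith only [ht, hs1]), max_eq_right (by linarith only [hx0, ht, h00]), sub_zero]
  have b2 : Nn (s0 - t) (s1 - t) = s1 - s0 := by
    have := Pp_add_Nn (s0 - t) (s1 - t)
    rw [b1] at this
    linarith only [this]
  rw [b1, b2] at hB
  have hk2 : Real.pi * (1 / 2 - a - x + d + |1 / 2 - (x + d)| + (c2 - 1)) * (s1 - s0) ≤
      Real.pi * (22 / 100) * (s1 - s0) := by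
    gcongr
    linarith only [hx0, hs1, h00]
  have hk3 : Real.pi * (22 / 100) * (s1 - s0) ≤ Real.pi * (22 / 100) * (566 / 100 * x) := by
    gcongr
    linarith only [hs1, h01]
  have hk4 : Real.pi * (1 / 2 - x) * (s1 - 0) ≤ Real.pi * (1 / 2) * (16 / 5 * x) := by
    rw [e1, sub_zero]
    gcongr
    linarith only [hx0]
  have hk5 : 0 < Real.pi * x := by positivity
  have e2 : 2 * Real.pi * s1 = 2 * Real.pi * (16 / 5 * x) := by rw [e1]
  rw [e2]
  linarith only [hA, hC1, hC2, hB, hk2, hk3, hk4, hk5]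

theorem fl3 {a t x T d k : ℝ} (hx0 : 0 < x) (hx : x ≤ 1 / 50) (hT : T ≤ 0)
    (ha0 : 46 / 100 ≤ a) (ha : a ≤ 6 / 10) (hd0 : 0 ≤ d) (hk0 : -(724 / 1000) * d ≤ k)
    (hc : (d ≤ 4 / 100 ∧ -(25 / 1000) ≤ T) ∨ (d ≤ 2 / 100 ∧ -(38 / 1000) ≤ T)) :
    V3 ⟨a, t⟩ ⟨x, 16 / 100 * G2.tr 0 (8 / 10) (5 / 100) (5 / 100) x⟩ ⟨d, k⟩ -
      V3 ⟨a, t⟩ ⟨x, T * G2.tr 0 (8 / 10) (5 / 100) (5 / 100) x⟩ ⟨d, k⟩ <
      2 * Real.pi * (16 / 100 * G2.tr 0 (8 / 10) (5 / 100) (5 / 100) x) := by
  have hp := Real.pi_gt_d4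
  rw [tr_left hx0.le (by linarith only [hx0, hx]), V3_diff]
  set s1 : ℝ := 16 / 100 * (20 * x) with hs1
  set s0 : ℝ := T * (20 * x) with hs0
  have e1 : s1 = 16 / 5 * x := by rw [hs1]; ring
  have h10 : 0 ≤ s1 := by rw [e1]; positivity
  have h00 : s0 ≤ 0 := by rw [hs0]; nlinarith only [hx0, hT]
  have hC1 := ramp_C hx0 hx
  rw [← e1] at hC1
  have hC2 := own_neg (x := x) hx0.le (by linarith only [hx0, hx]) h00
  have hd : d ≤ 4 / 100 := by rcases hc with h | h <;> linarith only [h, hx0, hx, h.1]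
  obtain ⟨c1, c2, hc10, hc11, hc20, hc21, hk1, hk2⟩ : ∃ c1 c2 : ℝ, 0 ≤ c1 ∧
      -(1 / 2) - (x - a) ≤ c1 ∧ 0 ≤ c2 ∧ x - a + 1 / 2 ≤ c2 ∧
      1 / 2 - a - x + d + (1 + c1) ≤ 104 / 100 + d ∧ c2 ≤ 1 := by
    rcases le_total (a - x) (1 / 2) with h | h
    · exact ⟨0, x - a + 1 / 2, by linarith only [], by linarith only [h], by linarith only [h], by linarith only [], by linarith only [hx0, ha0],
        by linarith only [hx0, hx, ha0]⟩
    · exact ⟨a - x - 1 / 2, 0, by linarith only [h], by linarith only [], by linarith only [], by linarith only [h], by linarith only [hx0, hx],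
        by linarith only [hx0, hx]⟩
  have hB := kink (r := x - a) (y := s0 - t) (y' := s1 - t) (by linarith only [hx0, hx, ha]) (by linarith only [hx0, hx, ha0]) hc10 hc11
    hc20 hc21 (by linarith only [hx0, hs1, h00])
  have b1 : Pp (s0 - t) (s1 - t) ≤ s1 - s0 := by
    have := Pp_le (y := s0 - t) (y' := s1 - t) (by linarith only [hx0, hs1, h00])
    linarith only [this]
  have b2 : 0 ≤ Nn (s0 - t) (s1 - t) := Nn_nonneg (by linarith only [hx0, hs1, h00])
  have b5 : Real.pi * (1 + c1) * Pp (s0 - t) (s1 - t) ≤ Real.pi * (1 + c1) * (s1 - s0) := by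
    gcongr
  have b6 : Real.pi * (c2 - 1) * Nn (s0 - t) (s1 - t) ≤ 0 :=
    mul_nonpos_of_nonpos_of_nonneg (mul_nonpos_of_nonneg_of_nonpos (by linarith only [hx0, hx, hp]) (by linarith only [hk2])) b2
  have hk3 : Real.pi * (1 / 2 - a - x + d + (1 + c1)) * (s1 - s0) ≤
      Real.pi * (104 / 100 + d) * (s1 - s0) := by
    gcongr
    linarith only [hx0, hs1, h00]
  have hk5 : 31415 / 10000 * x ≤ Real.pi * x := by
    gcongr
    linarith only [hp]
  have e2 : 2 * Real.pi * s1 = 64 / 10 * (Real.pi * x) := by rw [e1]; ring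
  rw [e2]
  rcases hc with ⟨hd1, hT1⟩ | ⟨hd1, hT1⟩
  · have h01 : -(50 / 100) * x ≤ s0 := by rw [hs0]; nlinarith only [hx0, hT1]
    have hA1 : uu (x + d) (s1 + k) - uu (x + d) (s0 + k) ≤ 724 / 1000 * (s1 + k - (s0 + k)) :=
      lc (by norm_num) (by linarith only [hx0, hd0]) (by linarith only [hx0, hx, hd]) (by linarith only [hx0, hs1, h00]) (by linarith only [hx0, hk0, h01])
    have hk4 : Real.pi * (104 / 100 + d) * (s1 - s0) ≤
        Real.pi * (104 / 100 + 4 / 100) * (370 / 100 * x) := by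
      gcongr
      · linarith only [hx0, hs1, h00]
      · linarith only [hs1, h01]
    linarith only [hx0, hs1, hC1, hC2, hB, b5, b6, hk3, hk5, h01, hA1, hk4]
  · have h01 : -(76 / 100) * x ≤ s0 := by rw [hs0]; nlinarith only [hx0, hT1]
    have hA1 : uu (x + d) (s1 + k) - uu (x + d) (s0 + k) ≤ 76 / 100 * (s1 + k - (s0 + k)) :=
      lc (by norm_num) (by linarith only [hx0, hd0]) (by linarith only [hx0, hx, hd]) (by linarith only [hx0, hs1, h00]) (by linarith only [hd0, hk0, h01])
    have hk4 : Real.pi * (104 / 100 + d) * (s1 - s0) ≤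
        Real.pi * (104 / 100 + 2 / 100) * (396 / 100 * x) := by
      gcongr
      · linarith only [hx0, hs1, h00]
      · linarith only [hs1, h01]
    linarith only [hx0, hs1, hC1, hC2, hB, b5, b6, hk3, hk5, h01, hA1, hk4]

/-- the part of the opposite hinge at the right end -/
theorem hugeA {X y y' : ℝ} (h0 : 1 / 2 ≤ X) (h1 : X ≤ 3 / 2) (h : y ≤ y') :
    uu X y' - uu X y ≤ Real.pi * (y' - y) := by
  have hp := Real.pi_pos
  have hP := Pp_le h
  have hP0 := Pp_nonneg h
  rcases le_total X 1 with h2 | h2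
  · have h3 := rup h0 h2 h
    have h4 : Real.pi * (X - 1 / 2) * Pp y y' ≤ Real.pi * 1 * (y' - y) := by
      gcongr
      linarith only [h1]
    linarith only [h3, h4]
  · have a1 := uu_add_one (X - 1) y
    have a2 := uu_add_one (X - 1) y'
    have a3 := abs_eq_PN y y'
    rw [sub_add_cancel] at a1 a2
    have h3 := lup (X := X - 1) (by linarith only [h2]) (by linarith only [h1]) h
    have h4 : Real.pi * (1 / 2 - (X - 1)) * Nn y y' ≤ Real.pi * (1 / 2) * Nn y y' := by
      have := Nn_nonneg h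
      gcongr
      linarith only [h2]
    have h5 := Nn_nonneg h
    have h6 := Pp_add_Nn y y'
    have e : uu X y' - uu X y = uu (X - 1) y' - uu (X - 1) y + Real.pi * (Pp y y' - Nn y y') := by
      rw [← a3, a1, a2]; ring
    rw [e, ← h6]
    have h7 : 0 ≤ Real.pi * Nn y y' := by positivity
    linarith only [h3, h4, h7]

/-- squares of the negative parts -/
theorem sq_neg {s0 s1 t : ℝ} (h0 : s0 ≤ 0) (h1 : 0 ≤ s1) :
    min (s0 - t) 0 ^ 2 - min (s1 - t) 0 ^ 2 ≤ 2 * (max t 0 * (s1 - s0)) + s0 ^ 2 := by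
  rcases le_total t 0 with ht | ht
  · rw [max_eq_right ht, min_eq_right (by linarith only [h1, ht] : (0 : ℝ) ≤ s1 - t)]
    rcases le_total (s0 - t) 0 with h | h
    · rw [min_eq_left h]; nlinarith only [h0, ht, h]
    · rw [min_eq_right h]; nlinarith only []
  · rw [max_eq_left ht, min_eq_left (by linarith only [h0, ht] : s0 - t ≤ 0)]
    rcases le_total (s1 - t) 0 with h | h
    · rw [min_eq_left h]; nlinarith only [h1]
    · rw [min_eq_right h]; nlinarith only [h1, ht, h]

/-- the part of the own hinge, right of `1/2` -/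
theorem ownR {x s0 s1 : ℝ} (h0 : 1 / 2 ≤ x) (h1 : x < 1) (hs0 : s0 ≤ 0) (hs1 : 0 ≤ s1) :
    -(uu x s1 - uu x s0) ≤ s0 ^ 2 / (2 * (1 - x)) := by
  have h := rsq h0 h1 (hs0.trans hs1)
  rw [min_eq_left hs0, min_eq_right hs1] at h
  rw [show s0 ^ 2 - 0 ^ 2 = s0 ^ 2 by ring] at h
  linarith only [h]

theorem polyI1 {a : ℝ} (h0 : 0 ≤ a) (h1 : a ≤ 12 / 100) :
    475 / 1000 * a * (16 / 100 + (6 / 100 + 15 / 100 * a)) + (6 / 100 + 15 / 100 * a) ^ 2 / 4 ≤
      (314 / 100 * (175 / 10000 + 1375 / 100000 * a + 15 / 100 * a ^ 2) -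
      11112 / 10000 * (6 / 100 + 15 / 100 * a) ^ 2) * (2 / 10 + a) := by
  nlinarith only [h1, h0, mul_nonneg h0 h0, mul_nonneg (mul_nonneg h0 h0) h0]

theorem polyI2 {a : ℝ} (h0 : 12 / 100 ≤ a) :
    57 / 1000 * (16 / 100 + (6 / 100 + 15 / 100 * a)) + (6 / 100 + 15 / 100 * a) ^ 2 / 4 ≤
      (314 / 100 * (175 / 10000 + 1375 / 100000 * a + 15 / 100 * a ^ 2) -
      11112 / 10000 * (6 / 100 + 15 / 100 * a) ^ 2) * (2 / 10 + a) := by
  have h : 0 ≤ a := by linarith only [h0]
  nlinarith only [h0, h, mul_nonneg h h, mul_nonneg (mul_nonneg h h) h]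

theorem flR {a t x T d k : ℝ} (hx0 : 775 / 1000 ≤ x) (hx : x < 8 / 10) (hT0 : -(123 / 1000) ≤ T)
    (hT : T ≤ 0) (hTa : 0 ≤ T + 6 / 100 + 15 / 100 * a) (ha0 : 0 ≤ a) (ha : a ≤ 65 / 100)
    (ht : t ≤ 57 / 1000 * G2.tr 0 (65 / 100) (12 / 100) (15 / 100) a) (hd0 : 0 ≤ d)
    (hd : d ≤ 65 / 100) :
    V3 ⟨a, t⟩ ⟨x, 16 / 100 * G2.tr 0 (8 / 10) (5 / 100) (5 / 100) x⟩ ⟨d, k⟩ -
      V3 ⟨a, t⟩ ⟨x, T * G2.tr 0 (8 / 10) (5 / 100) (5 / 100) x⟩ ⟨d, k⟩ <
      2 * Real.pi * (16 / 100 * G2.tr 0 (8 / 10) (5 / 100) (5 / 100) x) := by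
  have hp := Real.pi_gt_d4
  have hp2 := Real.pi_lt_d4
  have hp0 := Real.pi_pos
  obtain ⟨u0, u1, u2, -⟩ := tr_bd (XM := 65 / 100) (cl := 12 / 100) (cr := 15 / 100) (x := a)
    (by norm_num) (by norm_num) ha0 ha
  set u : ℝ := G2.tr 0 (65 / 100) (12 / 100) (15 / 100) a with hu
  rw [tr_right (by linarith only [hx0, hp, hp2]) hx.le, V3_diff]
  obtain ⟨τ, hτ⟩ : ∃ τ : ℝ, τ = 20 * (8 / 10 - x) := ⟨_, rfl⟩
  have hxt : x = 8 / 10 - τ / 20 := by rw [hτ]; ring
  rw [← hτ]
  have t0 : 0 < τ := by rw [hτ]; linarith only [hx]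
  have t1 : τ ≤ 1 / 2 := by rw [hτ]; linarith only [hx0]
  set s1 : ℝ := 16 / 100 * τ with hs1
  set s0 : ℝ := T * τ with hs0
  have h10 : 0 ≤ s1 := by rw [hs1]; positivity
  have h00 : s0 ≤ 0 := by rw [hs0]; nlinarith only [hτ, hx0, hx, hT, hT0]
  have hL : s1 - s0 = (16 / 100 - T) * τ := by rw [hs1, hs0]; ring
  have hA := hugeA (X := x + d) (y := s0 + k) (y' := s1 + k) (by linarith only [hx0, hd0, hp, hp2]) (by linarith only [hx, hd, hp, hp2])
    (by linarith only [hx, hτ, hs1, h00])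
  rw [show s1 + k - (s0 + k) = s1 - s0 by ring] at hA
  have hC := ownR (x := x) (by linarith only [hx0, hp, hp2]) (by linarith only [hx, hp, hp2]) h00 h10
  have hC2 : s0 ^ 2 / (2 * (1 - x)) ≤ 11112 / 10000 * (T ^ 2 * τ) := by
    rw [div_le_iff₀ (by linarith only [hx, hp, hp2])]
    have e : s0 ^ 2 = T ^ 2 * τ * τ := by rw [hs0]; ring
    have e2 : 11112 / 10000 * (T ^ 2 * τ) * (2 * (1 - x)) =
        T ^ 2 * τ * (11112 / 10000 * (2 * (1 - x))) := by ring
    rw [e, e2]
    apply mul_le_mul_of_nonneg_left _ (by positivity)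
    rw [hxt]
    linarith only [hx0, hp, hp2, hτ]
  rcases le_total a (x - 1 / 2) with hc | hc
  · -- the difference is on the right of `1/2`
    have hB := rsq (X := x - a) (y := s0 - t) (y' := s1 - t) (by linarith only [hc]) (by linarith only [hx, ha0, hp, hp2])
      (by linarith only [hx, hτ, hs1, h00])
    have hq := sq_neg (t := t) h00 h10
    set v : ℝ := 6 / 100 + 15 / 100 * a with hv
    set Q : ℝ := 314 / 100 * (175 / 10000 + 1375 / 100000 * a + 15 / 100 * a ^ 2) -
      11112 / 10000 * v ^ 2 with hQ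
    have hT2 : T ^ 2 ≤ v ^ 2 := by
      apply sq_le_sq'
      · rw [hv]; linarith only [hTa]
      · rw [hv]; linarith only [hT, hTa]
    have hm0 : 0 ≤ max t 0 := le_max_right _ _
    have hm1 : max t 0 ≤ 57 / 1000 := max_le (by linarith only [ht, u1]) (by norm_num)
    have hm2 : max t 0 ≤ 475 / 1000 * a := max_le (by linarith only [ht, u2]) (by linarith only [ha0])
    have hm3 : max t 0 * (16 / 100 - T) ≤ max t 0 * (16 / 100 + v) := by
      apply mul_le_mul_of_nonneg_left _ hm0
      rw [hv]; linarith only [hTa]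
    have hpoly : max t 0 * (16 / 100 + v) + v ^ 2 / 4 ≤ Q * (2 / 10 + a) := by
      rcases le_total a (12 / 100) with h | h
      · have h1 : max t 0 * (16 / 100 + v) ≤ 475 / 1000 * a * (16 / 100 + v) := by
          apply mul_le_mul_of_nonneg_right hm2
          rw [hv]; linarith only [hT, hTa, hp, hp2]
        have h2 := polyI1 ha0 h
        rw [← hv, ← hQ] at h2
        linarith only [h1, h2]
      · have h1 : max t 0 * (16 / 100 + v) ≤ 57 / 1000 * (16 / 100 + v) := by
          apply mul_le_mul_of_nonneg_right hm1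
          rw [hv]; linarith only [hT, hTa, hp, hp2]
        have h2 := polyI2 h
        rw [← hv, ← hQ] at h2
        linarith only [h1, h2]
    have hB2 : (min (s0 - t) 0 ^ 2 - min (s1 - t) 0 ^ 2) / (2 * (1 - (x - a))) ≤ Q * τ := by
      rw [div_le_iff₀ (by linarith only [hx, ha0, hp, hp2])]
      have hQ0 : 0 ≤ Q := by
        have h1 : 0 ≤ Q * (2 / 10 + a) := le_trans (by positivity) hpoly
        by_contra h2
        push Not at h2
        have : Q * (2 / 10 + a) < 0 := mul_neg_of_neg_of_pos h2 (by linarith only [ha0, hp, hp2])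
        linarith only [h1, this]
      have e : 2 * (max t 0 * (s1 - s0)) + s0 ^ 2 =
          (2 * (max t 0 * (16 / 100 - T)) + T ^ 2 * τ) * τ := by
        rw [hL, hs0]; ring
      have e2 : Q * τ * (2 * (1 - (x - a))) = (2 * Q * (2 / 10 + a) + Q * τ / 10) * τ := by
        rw [hxt]; ring
      rw [e2]
      refine hq.trans ?_
      rw [e]
      apply mul_le_mul_of_nonneg_right _ t0.le
      have h3 : T ^ 2 * τ ≤ v ^ 2 * (1 / 2) := by gcongr
      have h4 : 0 ≤ Q * τ := by positivity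
      linarith only [hm3, hpoly, h3, h4]
    have hpp : Real.pi * (1 / 2 - a - x + d + 1) * (s1 - s0) ≤
        Real.pi * (1375 / 1000 - a) * ((16 / 100 + v) * τ) := by
      rw [hL]
      have h1 : (16 / 100 - T) * τ ≤ (16 / 100 + v) * τ := by
        apply mul_le_mul_of_nonneg_right _ t0.le
        rw [hv]; linarith only [hTa]
      have h2 : 0 ≤ (16 / 100 - T) * τ := by
        apply mul_nonneg _ t0.le; linarith only [hT, hp, hp2]
      have h3 : Real.pi * (1 / 2 - a - x + d + 1) ≤ Real.pi * (1375 / 1000 - a) :=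
        mul_le_mul_of_nonneg_left (by linarith only [hx0, hd]) hp0.le
      have h4 : 0 ≤ Real.pi * (1375 / 1000 - a) := mul_nonneg hp0.le (by linarith only [hx, hp, hp2, hc])
      exact mul_le_mul h3 h1 h2 h4
    have hCC : 11112 / 10000 * (T ^ 2 * τ) ≤ 11112 / 10000 * (v ^ 2 * τ) := by gcongr
    have hfin : 314 / 100 * (175 / 10000 + 1375 / 100000 * a + 15 / 100 * a ^ 2) * τ <
        Real.pi * (175 / 10000 + 1375 / 100000 * a + 15 / 100 * a ^ 2) * τ := by
      apply mul_lt_mul_of_pos_right _ t0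
      apply mul_lt_mul_of_pos_right _ (by positivity)
      linarith only [hp, hp2]
    have e3 : Real.pi * (1375 / 1000 - a) * ((16 / 100 + v) * τ) =
        32 / 100 * Real.pi * τ -
          Real.pi * (175 / 10000 + 1375 / 100000 * a + 15 / 100 * a ^ 2) * τ := by
      rw [hv]; ring
    have e4 : Q * τ = 314 / 100 * (175 / 10000 + 1375 / 100000 * a + 15 / 100 * a ^ 2) * τ -
        11112 / 10000 * (v ^ 2 * τ) := by rw [hQ]; ring
    rw [e3] at hpp
    rw [e4] at hB2
    have e5 : 2 * Real.pi * s1 = 32 / 100 * Real.pi * τ := by rw [hs1]; ring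
    rw [e5]
    linarith only [hA, hC, hC2, hB, hB2, hpp, hCC, hfin]
  · -- the difference is on the left of `1/2`
    have hB := llo (X := x - a) (y := s0 - t) (y' := s1 - t) (by linarith only [hx0, ha, hp, hp2]) (by linarith only [hc])
      (by linarith only [hx, hτ, hs1, h00])
    have b1 : Real.pi * (1 / 2 - (x - a)) * Pp (s0 - t) (s1 - t) ≤
        Real.pi * (1 / 2 - (x - a)) * (s1 - s0) := by
      have := Pp_le (y := s0 - t) (y' := s1 - t) (by linarith only [hx, hτ, hs1, h00])
      apply mul_le_mul_of_nonneg_left (by linarith only [this])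
      exact mul_nonneg hp0.le (by linarith only [hc])
    have hpp : Real.pi * (2 - 2 * x + d) * (s1 - s0) ≤
        Real.pi * (11 / 10) * (283 / 1000 * τ) := by
      rw [hL]
      have h1 : (16 / 100 - T) * τ ≤ 283 / 1000 * τ := by
        apply mul_le_mul_of_nonneg_right _ t0.le
        linarith only [hT0]
      have h2 : 0 ≤ (16 / 100 - T) * τ := by
        apply mul_nonneg _ t0.le; linarith only [hT, hp, hp2]
      have h3 : Real.pi * (2 - 2 * x + d) ≤ Real.pi * (11 / 10) :=
        mul_le_mul_of_nonneg_left (by linarith only [hx0, hd]) hp0.le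
      exact mul_le_mul h3 h1 h2 (by positivity)
    have hCC : 11112 / 10000 * (T ^ 2 * τ) ≤ 11112 / 10000 * (1513 / 100000 * τ) := by
      have : T ^ 2 ≤ 1513 / 100000 := by nlinarith only [hT0, hx0, hx, hT]
      gcongr
    have e5 : 2 * Real.pi * s1 = 32 / 100 * (Real.pi * τ) := by rw [hs1]; ring
    have h6 : 31415 / 10000 * τ ≤ Real.pi * τ := by
      gcongr
      linarith only [hp]
    rw [e5]
    linarith only [hx, hτ, hA, hC, hC2, hB, b1, hpp, hCC, h6]

/-! ### the drop between the heights `0` and `16/100` -/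

open NumU.E in
/-- rows -/
def rH1 : NumU.E := add (sub (uu (var 0) (q 0 1)) (uu (var 0) (q 16 100)))
  (mul pi (sub (mul (q 165 1000) (var 0)) (q 4 100)))

open NumU.E in
def rH2 : NumU.E := add (sub (uu (var 0) (q 0 1)) (uu (var 0) (q 16 100)))
  (mul pi (sub (mul (q 33 100) (var 0)) (q 5 100)))

open NumU.E in
def rP1 : NumU.E := sub (sub (uu (q 5 100) (q 0 1)) (uu (q 5 100) (q 16 100))) (mul pi (q 4 100))

open NumU.E in
def rP2 : NumU.E := sub (sub (uu (q 3 100) (q 0 1)) (uu (q 3 100) (q 16 100))) (mul pi (q 5 100))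

theorem chH1 : NumU.chk [rH1] 14 [NumI.V.of 1000 50 250] = true := by decide +kernel
theorem chH2 : NumU.chk [rH2] 14 [NumI.V.of 1000 30 160] = true := by decide +kernel
theorem chP1 : NumU.chk [rP1] 3 [NumI.V.of 1000 50 50] = true := by decide +kernel
theorem chP2 : NumU.chk [rP2] 3 [NumI.V.of 1000 50 50] = true := by decide +kernel

theorem rowH1 {e : ℝ} (h0 : 5 / 100 ≤ e) (h1 : e ≤ 25 / 100) :
    Real.pi * (4 / 100) ≤ Real.pi * (165 / 1000) * e + (uu e 0 - uu e (16 / 100)) := by
  have := NumU.pos_of_chk (NumU.chk1 chH1 (by norm_num) (x := e) (by norm_num; linarith only [h0])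
    (by norm_num; linarith only [h1]))
  unfold rH1 at this
  simp only [NumU.E.val, NumI.lkR] at this
  norm_num at this
  linarith only [this]

theorem rowH2 {e : ℝ} (h0 : 3 / 100 ≤ e) (h1 : e ≤ 16 / 100) :
    Real.pi * (5 / 100) ≤ Real.pi * (33 / 100) * e + (uu e 0 - uu e (16 / 100)) := by
  have := NumU.pos_of_chk (NumU.chk1 chH2 (by norm_num) (x := e) (by norm_num; linarith only [h0])
    (by norm_num; linarith only [h1]))
  unfold rH2 at this
  simp only [NumU.E.val, NumI.lkR] at this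
  norm_num at this
  linarith only [this]

theorem rowP1 : Real.pi * (4 / 100) ≤ uu (5 / 100) 0 - uu (5 / 100) (16 / 100) := by
  have := NumU.pos_of_chk (NumU.chk1 chP1 (by norm_num) (x := 5 / 100) (by norm_num)
    (by norm_num))
  unfold rP1 at this
  simp only [NumU.E.val] at this
  norm_num at this
  norm_num
  linarith only [this]

theorem rowP2 : Real.pi * (5 / 100) ≤ uu (3 / 100) 0 - uu (3 / 100) (16 / 100) := by
  have := NumU.pos_of_chk (NumU.chk1 chP2 (by norm_num) (x := 5 / 100) (by norm_num)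
    (by norm_num))
  unfold rP2 at this
  simp only [NumU.E.val] at this
  norm_num at this
  norm_num
  linarith only [this]

theorem H_anti {e e1 S : ℝ} (h0 : 0 < e) (h : e ≤ e1) (h1 : e1 < 1) :
    uu e1 0 - uu e1 S ≤ uu e 0 - uu e S := by
  have hd : ∀ s : ℝ, 0 < s → s < 1 → HasDerivAt (fun s => uu s 0 - uu s S)
      (NumI.lnA s 0 - NumI.lnA s S) s := fun s a b =>
    (NumX.hasDerivAt_uu a b).sub (NumX.hasDerivAt_uu a b)
  have hm : AntitoneOn (fun s => uu s 0 - uu s S) (Set.Icc e e1) := by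
    apply antitoneOn_of_deriv_nonpos (convex_Icc e e1)
    · exact fun t ht => (hd t (by linarith only [h0, ht, ht.1]) (by linarith only [h1, ht, ht.2])).continuousAt.continuousWithinAt
    · intro t ht
      rw [interior_Icc] at ht
      exact (hd t (by linarith only [h0, ht, ht.1]) (by linarith only [h1, ht, ht.2])).differentiableAt.differentiableWithinAt
    · intro t ht
      rw [interior_Icc] at ht
      rw [(hd t (by linarith only [h0, ht, ht.1]) (by linarith only [h1, ht, ht.2])).deriv]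
      have hs : 0 < Real.sin (Real.pi * t) := by
        apply Real.sin_pos_of_pos_of_lt_pi
        · have : 0 < t := by linarith only [h0, ht, ht.1]
          positivity
        · have : t < 1 := by linarith only [h1, ht, ht.2]
          nlinarith only [this, Real.pi_pos]
      unfold NumI.lnA
      have : Real.log (4 * (Real.sin (Real.pi * t) ^ 2 + Real.sinh (Real.pi * 0) ^ 2)) ≤
          Real.log (4 * (Real.sin (Real.pi * t) ^ 2 + Real.sinh (Real.pi * S) ^ 2)) := by
        apply Real.log_le_log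
        · positivity
        · rw [mul_zero, Real.sinh_zero]
          nlinarith only [sq_nonneg (Real.sinh (Real.pi * S))]
      linarith only [this]
  exact hm ⟨le_rfl, h⟩ ⟨h, le_rfl⟩ h

theorem H_nn {e : ℝ} (h0 : 0 ≤ e) (h1 : e ≤ 1 / 2) : 0 ≤ uu e 0 - uu e (16 / 100) := by
  have := dec h0 h1 (le_refl (0 : ℝ)) (show (0 : ℝ) ≤ 16 / 100 by norm_num)
  linarith only [this]

theorem H_zero : uu 0 0 - uu 0 (16 / 100) = Real.pi * (8 / 100) := by
  rw [NumX.uu_zero_left, NumX.uu_zero_left, abs_zero, abs_of_pos (by norm_num)]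
  ring

theorem Hlo1 {e : ℝ} (h0 : 0 ≤ e) (h1 : e ≤ 1 / 2) :
    Real.pi * (4 / 100) ≤ Real.pi * (165 / 1000) * e + (uu e 0 - uu e (16 / 100)) := by
  have hp := Real.pi_pos
  rcases h0.eq_or_lt with h2 | h2
  · rw [← h2, H_zero]; linarith only [hp]
  rcases le_total e (5 / 100) with h | h
  · have h3 := H_anti (S := 16 / 100) h2 h (by norm_num)
    have h4 := rowP1
    have h5 : 0 ≤ Real.pi * (165 / 1000) * e := by positivity
    linarith only [h3, h4, h5]
  rcases le_total e (25 / 100) with h3 | h3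
  · exact rowH1 h h3
  · have h4 := H_nn h0 h1
    have h5 : Real.pi * (165 / 1000) * (25 / 100) ≤ Real.pi * (165 / 1000) * e := by gcongr
    linarith only [hp, h4, h5]

theorem Hlo2 {e : ℝ} (h0 : 0 ≤ e) (h1 : e ≤ 1 / 2) :
    Real.pi * (5 / 100) ≤ Real.pi * (33 / 100) * e + (uu e 0 - uu e (16 / 100)) := by
  have hp := Real.pi_pos
  rcases h0.eq_or_lt with h2 | h2
  · rw [← h2, H_zero]; linarith only [hp]
  rcases le_total e (3 / 100) with h | h
  · have h3 := H_anti (S := 16 / 100) h2 h (by norm_num)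
    have h4 := rowP2
    have h5 : 0 ≤ Real.pi * (33 / 100) * e := by positivity
    linarith only [h3, h4, h5]
  rcases le_total e (16 / 100) with h3 | h3
  · exact rowH2 h h3
  · have h4 := H_nn h0 h1
    have h5 : Real.pi * (33 / 100) * (16 / 100) ≤ Real.pi * (33 / 100) * e := by gcongr
    linarith only [hp, h4, h5]

theorem conc0 {X a L : ℝ} (h0 : 0 ≤ X) (h1 : X ≤ 1 / 2) (ha : 0 ≤ a) (hL : 0 ≤ L) :
    uu X (a + L) - uu X a ≤ uu X L - uu X 0 := by
  rcases h0.eq_or_lt with h | h
  · rw [← h, NumX.uu_zero_left, NumX.uu_zero_left, NumX.uu_zero_left, NumX.uu_zero_left,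
      abs_of_nonneg (by linarith only [ha, hL]), abs_of_nonneg ha, abs_of_nonneg hL, abs_zero]
    linarith only []
  · exact conc h h1 ha hL

/-- the sharp form of the kink -/
theorem sharp {e y L : ℝ} (h0 : 0 ≤ e) (h1 : e ≤ 1 / 2) (hL : 0 ≤ L) :
    (uu e y + Real.pi * |y|) - (uu e (y + L) + Real.pi * |y + L|) ≤
      Real.pi * L + uu e L - uu e 0 := by
  have hp := Real.pi_pos
  have ab : ∀ z : ℝ, uu e z = uu e |z| := by
    intro z
    rcases abs_choice z with h | h <;> rw [h]
    rw [uu_neg]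
  have mono : ∀ {z z' : ℝ}, 0 ≤ z → z ≤ z' → uu e z + Real.pi * z ≤ uu e z' + Real.pi * z' := by
    intro z z' hz hzz
    have h2 := dec_ge h0 h1 hz hzz
    have h3 : Real.pi * (1 / 2 - e) * (z' - z) ≤ Real.pi * 1 * (z' - z) := by
      gcongr
      linarith only [h0]
    linarith only [h2, h3]
  rw [ab y, ab (y + L)]
  have ht : |y| ≤ |y + L| + L := by
    have := abs_sub (y + L) L
    rw [add_sub_cancel_right, abs_of_nonneg hL] at this
    exact this
  rcases le_total |y| L with h | h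
  · have h2 := mono (abs_nonneg y) h
    have h3 := mono (le_refl (0 : ℝ)) (abs_nonneg (y + L))
    linarith only [h2, h3]
  · have h2 := mono (z := |y| - L) (z' := |y + L|) (by linarith only [h]) (by linarith only [ht])
    have h3 := conc0 (a := |y| - L) h0 h1 (by linarith only [h]) hL
    rw [sub_add_cancel] at h3
    linarith only [h2, h3]

/-- the kink, the other direction -/
theorem kink' {r y y' c : ℝ} (h0 : -1 ≤ r) (h1 : r ≤ 0) (c10 : 0 ≤ c) (c11 : -(1 / 2) - r ≤ c)
    (h : y ≤ y') : uu r y' - uu r y ≤ Real.pi * (1 + c) * (y' - y) := by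
  have hp := Real.pi_pos
  have h2 := kink (r := r) (y := -y') (y' := -y) (c2 := 1) h0 h1 c10 c11 (by norm_num)
    (by linarith only [h1]) (neg_le_neg h)
  rw [uu_neg, uu_neg, sub_self, mul_zero, zero_mul, add_zero] at h2
  have h3 := Pp_le (y := -y') (y' := -y) (neg_le_neg h)
  have h4 : Real.pi * (1 + c) * Pp (-y') (-y) ≤ Real.pi * (1 + c) * (-y - -y') := by gcongr
  linarith only [h2, h4]

/-- the kink, the sharp form -/
theorem kinkS {r y L : ℝ} (h0 : -(1 / 2) ≤ r) (h1 : r ≤ 0) (hL : 16 / 100 ≤ L) :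
    uu r (y + L) - uu r y ≤ Real.pi * L - (uu (-r) 0 - uu (-r) (16 / 100)) := by
  have e : ∀ z, uu r z = -(uu (-r) z + Real.pi * |z|) := by
    intro z
    have := NumX.uu_neg_left r z
    linarith only [this]
  have h2 := sharp (e := -r) (y := y) (L := L) (by linarith only [h1]) (by linarith only [h0]) (by linarith only [hL])
  have h3 := dec (X := -r) (by linarith only [h1]) (by linarith only [h0]) (show (0 : ℝ) ≤ 16 / 100 by norm_num) hL
  rw [e (y + L), e y]
  linarith only [h2, h3]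

/-- beyond `1`, the sharp form -/
theorem beyondS {e y L : ℝ} (h0 : 0 ≤ e) (h1 : e ≤ 1 / 2) (hL : 16 / 100 ≤ L) :
    -(uu (e + 1) (y + L) - uu (e + 1) y) ≤ Real.pi * L - (uu e 0 - uu e (16 / 100)) := by
  have h2 := sharp (e := e) (y := y) (L := L) h0 h1 (by linarith only [hL])
  have h3 := dec h0 h1 (show (0 : ℝ) ≤ 16 / 100 by norm_num) hL
  rw [uu_add_one, uu_add_one]
  linarith only [h2, h3]

theorem beyond {e y L : ℝ} (h0 : 0 ≤ e) (h1 : e ≤ 1 / 2) (hL : 0 ≤ L) :
    -(uu (e + 1) (y + L) - uu (e + 1) y) ≤ Real.pi * L := by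
  have h2 := sharp (e := e) (y := y) (L := L) h0 h1 hL
  have h3 := dec h0 h1 le_rfl hL
  rw [uu_add_one, uu_add_one]
  linarith only [h2, h3]

/-- polynomial inequality at the right end -/
theorem polyR {w τ : ℝ} (hw : 0 ≤ w) (h0 : 0 ≤ τ) (h1 : τ ≤ 1) :
    38 / 100 * w * (165 / 1000) + 128 / 10000 * τ <
      314 / 100 * (2975 / 100000 + 165 / 1000 * w + 165 / 10000 * τ) * (15 / 100 - τ / 20 + w) := by
  have h2 := mul_nonneg hw h0
  have h3 := mul_nonneg hw hw
  have h4 := mul_nonneg h0 h0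
  have h5 := mul_nonneg h0 (sub_nonneg.2 h1)
  nlinarith only [hw, h1, h2, h5]

/-- data of the flip downwards -/
theorem fdn_core {a t x T d k τ : ℝ} (hx0 : 0 < x) (hx : x < 8 / 10) (hT0 : 0 ≤ T)
    (hT : T ≤ 5 / 1000) (ha0 : 0 ≤ a) (ha : a ≤ 65 / 100) (ht : t ≤ 38 / 100 * (65 / 100 - a))
    (hd0 : 0 ≤ d) (hd : d ≤ 6 / 10) (hk : k ≤ 44 / 100 * d) (t0 : 0 < τ) (t1 : τ ≤ 1)
    (t2 : τ ≤ 20 * x) (t3 : 1 / 20 ≤ x → x ≤ 3 / 4 → τ = 1)
    (t4 : 3 / 4 ≤ x → τ = 20 * (8 / 10 - x)) :
    V3 ⟨a, t⟩ ⟨x, -(16 / 100 * τ)⟩ ⟨d, k⟩ - V3 ⟨a, t⟩ ⟨x, T * τ⟩ ⟨d, k⟩ <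
      2 * Real.pi * (16 / 100 * τ) := by
  have hp := Real.pi_gt_d4
  have hp2 := Real.pi_lt_d4
  have hp0 := Real.pi_pos
  have hD := V3_diff a t x d k (-(16 / 100 * τ)) (T * τ)
  set s0 : ℝ := -(16 / 100 * τ) with hs0
  set s1 : ℝ := T * τ with hs1
  set P : ℝ := Real.pi * τ with hP
  have hPp : 0 < P := by positivity
  have h10 : 0 ≤ s1 := by rw [hs1]; positivity
  have h00 : s0 ≤ 0 := by rw [hs0]; linarith only [t0]
  obtain ⟨L, hL⟩ : ∃ L : ℝ, L = s1 - s0 := ⟨_, rfl⟩
  have hL0 : 0 ≤ L := by rw [hL]; linarith only [t0, hs0, h10]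
  have hTt : T * τ ≤ 5 / 1000 * τ := by gcongr
  have hL1 : L ≤ 165 / 1000 * τ := by rw [hL, hs1, hs0]; linarith only [hTt]
  have hL2 : 16 / 100 * τ ≤ L := by rw [hL, hs1, hs0]; linarith only [h10]
  have hPL : Real.pi * L ≤ 165 / 1000 * P := by
    rw [hP]
    have := mul_le_mul_of_nonneg_left hL1 hp0.le
    linarith only [this]
  have hPL0 : 0 ≤ Real.pi * L := by positivity
  -- coefficient times `π L`
  have co : ∀ {c : ℝ} (C : ℝ), c ≤ C → 0 ≤ C → Real.pi * c * L ≤ 165 / 1000 * C * P := by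
    intro c C h1 h2
    calc Real.pi * c * L = c * (Real.pi * L) := by ring
      _ ≤ C * (Real.pi * L) := mul_le_mul_of_nonneg_right h1 hPL0
      _ ≤ C * (165 / 1000 * P) := mul_le_mul_of_nonneg_left hPL h2
      _ = _ := by ring
  have eA : s1 + k = s0 + k + L := by rw [hL]; ring
  have eB : s1 - t = s0 - t + L := by rw [hL]; ring
  rw [eA, eB] at hD
  rw [show s1 - s0 = L by rw [hL]] at hD
  -- the own hinge
  have hC1 : x ≤ 1 / 2 → uu x s1 - uu x s0 ≤ 16 / 100 * (1 / 2 - x) * P := by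
    intro h
    have h2 := lup (X := x) (y := s0) (y' := s1) hx0.le h (h00.trans h10)
    have h3 : Nn s0 s1 = 16 / 100 * τ := by
      unfold Nn
      rw [min_eq_right h10, min_eq_left h00, hs0]; ring
    rw [h3] at h2
    have e : Real.pi * (1 / 2 - x) * (16 / 100 * τ) = 16 / 100 * (1 / 2 - x) * P := by
      rw [hP]; ring
    linarith only [h2]
  have hC2 : 1 / 2 ≤ x → uu x s1 - uu x s0 ≤ 15 / 10000 * P := by
    intro h
    have h2 := rup (X := x) (y := s0) (y' := s1) h (by linarith only [hx, hp, hp2]) (h00.trans h10)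
    have h3 : Pp s0 s1 = T * τ := by
      unfold Pp
      rw [max_eq_left h10, max_eq_right h00, hs1]; ring
    rw [h3] at h2
    have h4 : Real.pi * (x - 1 / 2) * (T * τ) ≤ Real.pi * (3 / 10) * (5 / 1000 * τ) := by
      apply mul_le_mul _ hTt (by positivity) (by positivity)
      gcongr; linarith only [hx]
    have e : Real.pi * (3 / 10) * (5 / 1000 * τ) = 15 / 10000 * P := by rw [hP]; ring
    linarith only [h2, h4]
  -- the difference with the first hinge
  have hB1 : ∀ c : ℝ, x ≤ a → 0 ≤ c → a - x - 1 / 2 ≤ c →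
      uu (x - a) (s0 - t + L) - uu (x - a) (s0 - t) ≤ Real.pi * (1 + c) * L := by
    intro c h1 h2 h3
    have := kink' (r := x - a) (y := s0 - t) (y' := s0 - t + L) (c := c) (by linarith only [hx0, ha, hp, hp2])
      (by linarith only [h1]) h2 (by linarith only [h3]) (by linarith only [t0, hs0, h10, hL])
    rwa [show s0 - t + L - (s0 - t) = L by ring] at this
  have hB2 : a ≤ x → x - a ≤ 1 / 2 →
      uu (x - a) (s0 - t + L) - uu (x - a) (s0 - t) ≤ Real.pi * (1 / 2 - (x - a)) * L := by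
    intro h1 h2
    have h3 := lup (X := x - a) (y := s0 - t) (y' := s0 - t + L) (by linarith only [h1]) h2 (by linarith only [t0, hs0, h10, hL])
    have h4 := Nn_le (y := s0 - t) (y' := s0 - t + L) (by linarith only [t0, hs0, h10, hL])
    have h5 : Real.pi * (1 / 2 - (x - a)) * Nn (s0 - t) (s0 - t + L) ≤
        Real.pi * (1 / 2 - (x - a)) * L :=
      mul_le_mul_of_nonneg_left (by linarith only [h4]) (mul_nonneg hp0.le (by linarith only [h2]))
    linarith only [h3, h5]
  have hB3 : 1 / 2 ≤ x - a →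
      uu (x - a) (s0 - t + L) - uu (x - a) (s0 - t) ≤ Real.pi * (x - a - 1 / 2) * L := by
    intro h2
    have h3 := rup (X := x - a) (y := s0 - t) (y' := s0 - t + L) h2 (by linarith only [hx, ha0, hp, hp2]) (by linarith only [t0, hs0, h10, hL])
    have h4 := Pp_le (y := s0 - t) (y' := s0 - t + L) (by linarith only [t0, hs0, h10, hL])
    have h5 : Real.pi * (x - a - 1 / 2) * Pp (s0 - t) (s0 - t + L) ≤
        Real.pi * (x - a - 1 / 2) * L :=
      mul_le_mul_of_nonneg_left (by linarith only [h4]) (mul_nonneg hp0.le (by linarith only [h2]))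
    linarith only [h3, h5]
  have e5 : 2 * Real.pi * (16 / 100 * τ) = 32 / 100 * P := by rw [hP]; ring
  rw [e5]
  rcases le_total (x + d) (1 / 2) with hX | hX
  · -- the sum is on the left of `1/2`
    have hA : -(44 / 100 * (s0 + k + L - (s0 + k))) ≤ uu (x + d) (s0 + k + L) - uu (x + d) (s0 + k) :=
      lc' (by norm_num) (by linarith only [hx0, hd0]) hX (by linarith only [t0, hs0, h10, hL]) (by rw [← eA, hs1]; linarith only [hx0, hk, t2, hTt])
    have hC := hC1 (by linarith only [hd0, hX])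
    have h6 : 31415 / 10000 * τ ≤ P := by
      rw [hP]
      gcongr
      linarith only [hp]
    rcases le_total x a with hxa | hxa
    · rcases le_total (a - x) (1 / 2) with h | h
      · have hB := hB1 0 hxa le_rfl (by linarith only [h])
        have := co (c := a + x - d - 1 / 2 + (1 + 0)) (a + x + 1 / 2) (by linarith only [hd0]) (by linarith only [hx0, hp, hp2, hxa])
        have h7 : a * P ≤ 65 / 100 * P := by gcongr
        have h8 : x * P ≤ 1 / 2 * P := by
          gcongr; linarith only [hd0, hX]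
        linarith only [t0, hs0, hD, hL, hTt, hA, hC, h6, hB, this, h7, h8]
      · have hB := hB1 (a - x - 1 / 2) hxa (by linarith only [h]) le_rfl
        have := co (c := a + x - d - 1 / 2 + (1 + (a - x - 1 / 2))) (13 / 10) (by linarith only [ha, hd0])
          (by norm_num)
        have h8 : 0 ≤ x * P := by positivity
        linarith only [t0, hs0, hD, hL, hTt, hA, hC, h6, hB, this, h8]
    · have hB := hB2 hxa (by linarith only [ha0, hd0, hX])
      have := co (c := a + x - d - 1 / 2 + (1 / 2 - (x - a))) 1 (by linarith only [hd0, hX, hxa]) (by norm_num)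
      have h8 : 0 ≤ x * P := by positivity
      linarith only [t0, hs0, hD, hL, hTt, hA, hC, h6, hB, this, h8]
  rcases le_total (x + d) 1 with hX1 | hX1
  · -- the sum is between `1/2` and `1`
    have hA : -(Real.pi * (x + d - 1 / 2) * L) ≤ uu (x + d) (s0 + k + L) - uu (x + d) (s0 + k) := by
      have h1 := rlo (X := x + d) (y := s0 + k) (y' := s0 + k + L) hX hX1 (by linarith only [t0, hs0, h10, hL])
      have h2 := Nn_le (y := s0 + k) (y' := s0 + k + L) (by linarith only [t0, hs0, h10, hL])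
      have h5 : Real.pi * (x + d - 1 / 2) * Nn (s0 + k) (s0 + k + L) ≤
          Real.pi * (x + d - 1 / 2) * L :=
        mul_le_mul_of_nonneg_left (by linarith only [h2]) (mul_nonneg hp0.le (by linarith only [hX]))
      linarith only [h1, h5]
    rcases le_total x (1 / 2) with hxh | hxh
    · have hC := hC1 hxh
      have h8 : x * P ≤ 1 / 2 * P := by gcongr
      have h9 : 0 ≤ x * P := by positivity
      have h7 : a * P ≤ 65 / 100 * P := by gcongr
      rcases le_total x a with hxa | hxa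
      · rcases le_total (a - x) (1 / 2) with h | h
        · have hB := hB1 0 hxa le_rfl (by linarith only [h])
          have := co (c := a + x - d - 1 / 2 + (x + d - 1 / 2) + (1 + 0)) (a + 2 * x)
            (by linarith only []) (by linarith only [hx0, hxa])
          linarith only [hPp, hD, hA, hC, h8, h7, hB, this]
        · have hB := hB1 (a - x - 1 / 2) hxa (by linarith only [h]) le_rfl
          have := co (c := a + x - d - 1 / 2 + (x + d - 1 / 2) + (1 + (a - x - 1 / 2))) (95 / 100)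
            (by linarith only [ha, h]) (by norm_num)
          linarith only [hPp, hD, hA, hC, h9, hB, this]
      · have hB := hB2 hxa (by linarith only [ha0, hxh])
        have := co (c := a + x - d - 1 / 2 + (x + d - 1 / 2) + (1 / 2 - (x - a))) 1 (by linarith only [hxh, hxa])
          (by norm_num)
        linarith only [hPp, hD, hA, hC, h9, hB, this]
    · have hC := hC2 hxh
      rcases le_total x a with hxa | hxa
      · have hτ := t3 (by linarith only [hx0, hxh]) (by linarith only [ha, hp, hp2, hxa])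
        have hB := kinkS (r := x - a) (y := s0 - t) (L := L) (by linarith only [ha, hp, hp2, hxh]) (by linarith only [hxa])
          (by rw [hτ] at hL2; linarith only [hL2])
        have hH := Hlo2 (e := -(x - a)) (by linarith only [hxa]) (by linarith only [ha, hp, hp2, hxh])
        have hPe : P = Real.pi := by rw [hP, hτ, mul_one]
        have := co (c := a + x - d - 1 / 2 + (x + d - 1 / 2) + 1) (a + 2 * x)
          (by linarith only []) (by linarith only [hx0, hxa])
        have h7 : Real.pi * a ≤ Real.pi * (65 / 100) := by gcongr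
        rw [hPe] at this hC ⊢
        linarith only [hp, hp2, hD, hA, hC, hB, hH, this, h7]
      · rcases le_total (x - a) (1 / 2) with h | h
        · have hB := hB2 hxa h
          have := co (c := a + x - d - 1 / 2 + (x + d - 1 / 2) + (1 / 2 - (x - a))) (16 / 10)
            (by linarith only [hx, ha]) (by norm_num)
          linarith only [hPp, hD, hA, hC, hB, this]
        · have hB := hB3 h
          have := co (c := a + x - d - 1 / 2 + (x + d - 1 / 2) + (x - a - 1 / 2)) 1
            (by linarith only [hx, hp, hp2]) (by norm_num)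
          linarith only [hPp, hD, hA, hC, hB, this]
  -- the sum is beyond `1`
  obtain ⟨e, he⟩ : ∃ e : ℝ, e = x + d - 1 := ⟨_, rfl⟩
  have he0 : 0 ≤ e := by linarith only [hX1, he]
  have he1 : e ≤ 1 / 2 := by linarith only [hx, hd, hp, hp2, he]
  have exd : x + d = e + 1 := by linarith only [he]
  rw [exd] at hD
  rcases le_total x (3 / 4) with h34 | h34
  · have hτ := t3 (by linarith only [hx0, hd, hX1]) h34
    have hPe : P = Real.pi := by rw [hP, hτ, mul_one]
    have hL3 : 16 / 100 ≤ L := by rw [hτ] at hL2; linarith only [hL2]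
    have hA := beyondS (e := e) (y := s0 + k) (L := L) he0 he1 hL3
    have hH := Hlo1 he0 he1
    have hed : Real.pi * d = Real.pi * e + Real.pi - Real.pi * x := by
      rw [he]; ring
    rcases le_total x (1 / 2) with hxh | hxh
    · have hC := hC1 hxh
      rw [hPe] at hC ⊢
      have h7 : Real.pi * a ≤ Real.pi * (65 / 100) := by gcongr
      have h8 : Real.pi * x ≤ Real.pi * (1 / 2) := by gcongr
      have h9 : Real.pi * (4 / 10) ≤ Real.pi * x := by
        gcongr; linarith only [hd, hX1]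
      rcases le_total x a with hxa | hxa
      · have hB := hB1 0 hxa le_rfl (by linarith only [ha, hd, hp, hp2, hX1])
        have := co (c := a + x - d - 1 / 2 + 1 + (1 + 0)) (a + 2 * x - e + 1 / 2)
          (by linarith only [he]) (by linarith only [hx0, hd, hp, hp2, he, hxa])
        rw [hPe] at this
        linarith only [hp, hp2, hD, hA, hH, hC, h7, h8, hB, this]
      · have hB := hB2 hxa (by linarith only [ha0, hxh])
        have := co (c := a + x - d - 1 / 2 + 1 + (1 / 2 - (x - a))) (2 * a + x - e)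
          (by linarith only [he]) (by linarith only [ha0, hd, hp, hp2, he])
        rw [hPe] at this
        linarith only [hp, hp2, hD, hA, hH, hC, h7, h8, hB, this]
    · have hC := hC2 hxh
      rw [hPe] at hC ⊢
      have h7 : Real.pi * a ≤ Real.pi * (65 / 100) := by gcongr
      rcases le_total x a with hxa | hxa
      · have hB := kinkS (r := x - a) (y := s0 - t) (L := L) (by linarith only [ha, hd, hp, hp2, hX1]) (by linarith only [hxa]) hL3
        have hH2 := Hlo2 (e := -(x - a)) (by linarith only [hxa]) (by linarith only [ha, hd, hp, hp2, hX1])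
        have := co (c := a + x - d - 1 / 2 + 1 + 1) (a + 2 * x - e + 1 / 2)
          (by linarith only [he]) (by linarith only [hd, hp, hp2, hX1, he, hxa])
        rw [hPe] at this
        linarith only [hp, hp2, hD, hA, hH, hC, h7, hB, hH2, this]
      · have h8 : Real.pi * x ≤ Real.pi * (3 / 4) := by gcongr
        rcases le_total (x - a) (1 / 2) with h | h
        · have hB := hB2 hxa h
          have := co (c := a + x - d - 1 / 2 + 1 + (1 / 2 - (x - a))) (2 * a + x - e)
            (by linarith only [he]) (by linarith only [ha0, hd, hp, hp2, he])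
          rw [hPe] at this
          linarith only [hp, hp2, hD, hA, hH, hC, h7, h8, hB, this]
        · have hB := hB3 h
          have := co (c := a + x - d - 1 / 2 + 1 + (x - a - 1 / 2)) (3 * x - 1 - e)
            (by linarith only [he]) (by linarith only [hd, hp, hp2, hX1, he])
          rw [hPe] at this
          linarith only [hp, hp2, hD, hA, hH, hC, h8, hB, this]
  · -- the right ramp
    have hτ := t4 h34
    have hA := beyond (e := e) (y := s0 + k) (L := L) he0 he1 hL0
    have hC := hC2 (by linarith only [t1, hp, hp2, hτ])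
    rcases le_total (x - a) (1 / 2) with h | h
    · have hB := lsq (X := x - a) (y := s0 - t) (y' := s0 - t + L) (by linarith only [ha, t1, hp, hp2, hτ]) h (by linarith only [hx, hs0, h10, hL, hτ])
      rw [← eB] at hB
      have hq := sq_neg (t := t) h00 h10
      have hxa0 : 0 < x - a := by linarith only [ha, t1, hp, hp2, hτ]
      obtain ⟨w, hw⟩ : ∃ w : ℝ, w = 65 / 100 - a := ⟨_, rfl⟩
      have hw0 : 0 ≤ w := by linarith only [ha, hw]
      have hm0 : 0 ≤ max t 0 := le_max_right _ _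
      have hm1 : max t 0 ≤ 38 / 100 * w := max_le (by linarith only [ht, hw]) (by linarith only [ha, hw])
      have hm2 : max t 0 * (s1 - s0) ≤ 38 / 100 * w * (165 / 1000 * τ) := by
        rw [← hL]
        exact mul_le_mul hm1 hL1 hL0 (by positivity)
      have hs2 : s0 ^ 2 = 256 / 10000 * τ * τ := by rw [hs0]; ring
      have hpoly := polyR hw0 t0.le t1
      have hB4 : (min (s0 - t) 0 ^ 2 - min (s1 - t) 0 ^ 2) / (2 * (x - a)) <
          314 / 100 * (2975 / 100000 + 165 / 1000 * w + 165 / 10000 * τ) * τ := by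
        rw [div_lt_iff₀ (by linarith only [ha, t1, hp, hp2, hτ])]
        have e1 : x - a = 15 / 100 - τ / 20 + w := by rw [hτ, hw]; ring
        have e2 : 314 / 100 * (2975 / 100000 + 165 / 1000 * w + 165 / 10000 * τ) * τ *
            (2 * (x - a)) = 2 * (314 / 100 * (2975 / 100000 + 165 / 1000 * w + 165 / 10000 * τ) *
            (15 / 100 - τ / 20 + w)) * τ := by rw [e1]; ring
        rw [e2]
        have h5 : 2 * (38 / 100 * w * (165 / 1000) + 128 / 10000 * τ) * τ <
            2 * (314 / 100 * (2975 / 100000 + 165 / 1000 * w + 165 / 10000 * τ) *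
            (15 / 100 - τ / 20 + w)) * τ := by
          apply mul_lt_mul_of_pos_right _ t0
          linarith only [hpoly]
        rw [hs2] at hq
        have h6 : 2 * (38 / 100 * w * (165 / 1000) + 128 / 10000 * τ) * τ =
          2 * (38 / 100 * w * (165 / 1000 * τ)) + 256 / 10000 * τ * τ := by ring
        linarith only [hq, hm2, h5]
      have h7 : 314 / 100 * (2975 / 100000 + 165 / 1000 * w + 165 / 10000 * τ) * τ ≤
          Real.pi * (2975 / 100000 + 165 / 1000 * w + 165 / 10000 * τ) * τ := by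
        gcongr
        linarith only [hp, hp2]
      have h8 := co (c := a + x - d - 1 / 2 + 1) (a + 2 * x - 1 / 2) (by linarith only [hX1]) (by linarith only [t1, hp, hp2, hτ, h])
      have e6 : Real.pi * (2975 / 100000 + 165 / 1000 * w + 165 / 10000 * τ) * τ =
          (3185 / 10000 - 165 / 1000 * (a + 2 * x - 1 / 2)) * P := by
        rw [hP, hw, hτ]; ring
      rw [e6] at h7
      rw [← eB] at hD
      linarith only [hD, hA, hC, hB, hB4, h7, h8]
    · have hB := hB3 h
      have := co (c := a + x - d - 1 / 2 + 1 + (x - a - 1 / 2)) (14 / 10)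
        (by linarith only [hx, hX1]) (by norm_num)
      linarith only [hPp, hD, hA, hC, hB, this]

theorem fdn {a t x T d k : ℝ} (hx0 : 0 < x) (hx : x < 8 / 10) (hT0 : 0 ≤ T)
    (hT : T ≤ 5 / 1000) (ha0 : 0 ≤ a) (ha : a ≤ 65 / 100)
    (ht : t ≤ 57 / 1000 * G2.tr 0 (65 / 100) (12 / 100) (15 / 100) a) (hd0 : 0 ≤ d)
    (hd : d ≤ 6 / 10) (hk : k ≤ 57 / 1000 * G2.tr 0 (6 / 10) (13 / 100) (30 / 100) d) :
    V3 ⟨a, t⟩ ⟨x, -(16 / 100 * G2.tr 0 (8 / 10) (5 / 100) (5 / 100) x)⟩ ⟨d, k⟩ -
      V3 ⟨a, t⟩ ⟨x, T * G2.tr 0 (8 / 10) (5 / 100) (5 / 100) x⟩ ⟨d, k⟩ <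
      2 * Real.pi * (16 / 100 * G2.tr 0 (8 / 10) (5 / 100) (5 / 100) x) := by
  obtain ⟨u0, u1, u2, u3⟩ := tr_bd (XM := 65 / 100) (cl := 12 / 100) (cr := 15 / 100) (x := a)
    (by norm_num) (by norm_num) ha0 ha
  obtain ⟨w0, w1, w2, w3⟩ := tr_bd (XM := 6 / 10) (cl := 13 / 100) (cr := 30 / 100) (x := d)
    (by norm_num) (by norm_num) hd0 hd
  obtain ⟨v0, v1, v2, v3⟩ := tr_bd (XM := 8 / 10) (cl := 5 / 100) (cr := 5 / 100) (x := x)
    (by norm_num) (by norm_num) hx0.le hx.le
  have hpos : 0 < G2.tr 0 (8 / 10) (5 / 100) (5 / 100) x := by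
    rcases le_total x (1 / 20) with h | h
    · rw [tr_left hx0.le h]; positivity
    rcases le_total x (3 / 4) with h' | h'
    · rw [tr_mid h h']; norm_num
    · rw [tr_right h' hx.le]; linarith only [hx]
  refine fdn_core hx0 hx hT0 hT ha0 ha (by linarith only [ht, u3]) hd0 hd (by linarith only [hd0, hk, w2]) hpos v1 (by linarith only [v2])
    (fun h h' => tr_mid h h') (fun h => tr_right h hx.le)

end FI3

end Pool.Agent.Work.MP_b30479_gt.G2
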