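import Pool.Agent.Work.MP_b30479_gt.G2.WM_in3F
import Pool.Agent.Work.MP_b30479_gt.G2.WMMA
import Pool.Agent.Work.MP_b30479_gt.G2.WM_in3A

/-!
# Mirrored paths, inner variable of an interior `3`: positions of the hinges, flips
-/

namespace Pool.Agent.Work.MP_b30479_gt.G2

open Finset VOL Filter Topology

namespace IT

theorem lk0 (x y z w : ℝ) : NumI.lkR [x, y, z, w] 0 = x := rfl
theorem lk1 (x y z w : ℝ) : NumI.lkR [x, y, z, w] 1 = y := rfl
theorem lk2 (x y z w : ℝ) : NumI.lkR [x, y, z, w] 2 = z := rfl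
theorem lk3 (x y z w : ℝ) : NumI.lkR [x, y, z, w] 3 = w := rfl

end IT

namespace SR

open IT NumG

variable {M : ℕ} {b : Fin (M + 1) → ℤ} {zs : DD (tyW b) ⊕ ZZ (tyW b) → ℂ}
variable {R : Finset (DD (tyW b))} {nb : Finset (DD (tyW b) ⊕ ZZ (tyW b))}
variable {z : DD (tyW b) ⊕ ZZ (tyW b) → ℂ} {p : DD (tyW b) → ℝ}
variable {m : {i : Fin (M + 1) // (tyW b i).isMid = true}} {h0 h2 : Fin M} {j0 j2 : Fin (M + 1)}
variable {x : ℝ}

/-- position of a hinge without penalty -/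
theorem NPos.zero' {h' : Fin M} {i : Fin (M + 1)} {s : Fin 3} {X : ℂ}
    (h0 : NPos b zs nb p h' i s X) (hp : p (.inl h') = 0) : 0 ≤ X.re ∧ X.re ≤ wXM b h' ∧
      ((Sum.inl (Sum.inl h') ∉ nb ∧ X.im = Th b zs h' i * trh b h' X.re) ∨
        (Sum.inl (Sum.inl h') ∈ nb ∧ X.im = 0)) := by
  cases h0 with
  | main y y0 y1 hn e hp => rw [e]; exact ⟨y0, y1, Or.inl ⟨hn, rfl⟩⟩
  | real y y0 y1 hn e hp => rw [e]; exact ⟨y0, y1, Or.inr ⟨hn, rfl⟩⟩
  | up y y0 y1 hn hr hT e hp' =>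
    rw [e]
    have h1 : mhs b h' s.rev * trh b h' y = 0 := by rw [← hp', hp]
    refine ⟨y0, y1, Or.inl ⟨hn, ?_⟩⟩
    show mhs b h' s.rev * trh b h' y = Th b zs h' i * trh b h' y
    rcases mul_eq_zero.1 h1 with h2 | h2
    · exact absurd h2 (mhs_pos _ _).ne'
    · rw [h2, mul_zero, mul_zero]
  | dn y y0 y1 hn hr hT e hp' =>
    rw [e]
    have h1 : mhs b h' s * trh b h' y = 0 := by rw [← hp', hp]
    refine ⟨y0, y1, Or.inl ⟨hn, ?_⟩⟩
    show -(mhs b h' s * trh b h' y) = Th b zs h' i * trh b h' y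
    rcases mul_eq_zero.1 h1 with h2 | h2
    · exact absurd h2 (mhs_pos _ _).ne'
    · rw [h2, mul_zero, mul_zero, neg_zero]

/-- position of a hinge of an untouched region, without penalty -/
theorem MM.pos3 (hb : ClassW b) (hN : NbT b R nb) (hM : MM b zs R nb z p)
    (hq : ∀ h : Fin M, RH1 b (.inl h) → p (.inl h) = 0) {h : Fin M} {i : Fin (M + 1)} {s : Fin 3}
    {j : Fin (M + 1)} (A : Adj h i s j) (ht : ¬ Tch b R i) (hp : p (.inl h) = 0) :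
    0 ≤ (Ow b z i s).re ∧ (Ow b z i s).re ≤ wXM b h ∧
      ((Sum.inl (Sum.inl h) ∉ nb ∧ (Ow b z i s).im = Th b zs h i * trh b h (Ow b z i s).re) ∨
        (Sum.inl (Sum.inl h) ∈ nb ∧ (Ow b z i s).im = 0)) :=
  (hM.npos0 hb hN.ok.1 hq A fun hR => ht ⟨_, hR, s, A.cf_ne⟩).zero' hp

/-- window of a hinge of an interior `3` -/
theorem win3 (hL : Loc b zs) {h : Fin M} {i : Fin (M + 1)} {s : Fin 3} {j : Fin (M + 1)}
    (hb : ClassW b) (A : Adj h i s j) (hi : clsW b i = .three) :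
    (hbox .three (clsW b j) false).t0 ≤ Th b zs h i ∧
      Th b zs h i ≤ (hbox .three (clsW b j) false).t1 := by
  have h1 := Th_mem hb hL A (by rw [hi]; decide)
  rwa [hi] at h1

/-- the window of the right hinge -/
theorem box3 (j : Cl) : -(1145 / 10000) ≤ (hbox .three j false).t0 ∧
    (hbox .three j false).t1 ≤ 57 / 1000 := by
  rcases j <;> simp only [hbox] <;> norm_num

variable (S : In3 b zs R nb z p m h0 h2 j0 j2 x)
include S

theorem In3.notT : ¬ Tch b R m.1 := not_tch_of S.N S.A0 S.c S.nn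

theorem In3.pos0 : 0 ≤ (Ow b z m.1 0).re ∧ (Ow b z m.1 0).re ≤ wXM b h0 ∧
      ((Sum.inl (Sum.inl h0) ∉ nb ∧
        (Ow b z m.1 0).im = Th b zs h0 m.1 * trh b h0 (Ow b z m.1 0).re) ∨
        (Sum.inl (Sum.inl h0) ∈ nb ∧ (Ow b z m.1 0).im = 0)) :=
  S.Mx.pos3 S.hb S.N S.hq S.A0 S.notT (S.hA h0 0 j0 S.A0)

theorem In3.pos2 : 0 ≤ (Ow b z m.1 2).re ∧ (Ow b z m.1 2).re ≤ wXM b h2 ∧
      ((Sum.inl (Sum.inl h2) ∉ nb ∧
        (Ow b z m.1 2).im = Th b zs h2 m.1 * trh b h2 (Ow b z m.1 2).re) ∨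
        (Sum.inl (Sum.inl h2) ∈ nb ∧ (Ow b z m.1 2).im = 0)) :=
  S.Mx.pos3 S.hb S.N S.hq S.A2 S.notT (S.hA h2 2 j2 S.A2)

/-- the left hinge is below the trapezoid of height `57/1000` -/
theorem In3.dom0 : 0 ≤ (Ow b z m.1 0).re ∧ (Ow b z m.1 0).re ≤ 65 / 100 ∧
    (Ow b z m.1 0).im ≤ 57 / 1000 * tr 0 (65 / 100) (12 / 100) (15 / 100) (Ow b z m.1 0).re := by
  obtain ⟨q1, q2, q3⟩ := S.pos0
  obtain ⟨a1, a2, a3, a4, a5, -⟩ := S.par0
  have hW := win3 S.L.L S.hb S.A0 S.c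
  have hB := box3 (clsW b j0)
  have hU := SR.tr_mem 0 (65 / 100) (12 / 100) (15 / 100) (Ow b z m.1 0).re
  refine ⟨q1, q2.trans a1, ?_⟩
  have ht := trh_mem (b := b) h0 (Ow b z m.1 0).re
  have hl : (12 : ℝ) / 100 ≤ wcl b h0 := by rcases a3 with h | h <;> rw [h] <;> norm_num
  have hh : trh b h0 (Ow b z m.1 0).re ≤
      tr 0 (65 / 100) (12 / 100) (15 / 100) (Ow b z m.1 0).re :=
    tr_hull (by norm_num) (by norm_num) hl a1 (by linarith only [a1, a4]) (by linarith only [a4]) _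
  rcases q3 with ⟨-, e⟩ | ⟨-, e⟩
  · rw [e]
    calc Th b zs h0 m.1 * trh b h0 (Ow b z m.1 0).re
        ≤ 57 / 1000 * trh b h0 (Ow b z m.1 0).re :=
          mul_le_mul_of_nonneg_right (by linarith only [hW, hB, hW.2, hB.2]) ht.1
      _ ≤ _ := mul_le_mul_of_nonneg_left hh (by norm_num)
  · rw [e]
    exact mul_nonneg (by norm_num) hU.1

/-- the right hinge -/
theorem In3.dom2 : 0 ≤ (Ow b z m.1 2).re ∧ (Ow b z m.1 2).re ≤ 65 / 100 ∧
    ((Ow b z m.1 2).re ≤ 1 / 10 → -(881 / 1000) * (Ow b z m.1 2).re ≤ (Ow b z m.1 2).im ∧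
      (Ow b z m.1 2).im ≤ 44 / 100 * (Ow b z m.1 2).re) := by
  obtain ⟨q1, q2, q3⟩ := S.pos2
  obtain ⟨a1, a2⟩ := S.par2
  have hX : wXM b h2 ≤ 65 / 100 ∧ 13 / 100 ≤ wcl b h2 := by
    by_cases hc : clsW b j2 = .one
    · obtain ⟨e1, e2, -⟩ := a1 hc; rw [e1, e2]; norm_num
    · obtain ⟨e1, e2, -⟩ := a2 hc; rw [e1, e2]; norm_num
  have hW := win3 S.L.L S.hb S.A2 S.c
  have hB := box3 (clsW b j2)
  refine ⟨q1, q2.trans hX.1, fun _ => ?_⟩
  set d := (Ow b z m.1 2).re with hd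
  have ht := trh_mem (b := b) h2 d
  have hcl := wcl_pos (b := b) h2
  have h5 : trh b h2 d * wcl b h2 ≤ d := by
    have : trh b h2 d ≤ d / wcl b h2 := by
      unfold trh tr
      refine max_le (div_nonneg q1 hcl.le) ?_
      refine (min_le_right _ _).trans ((min_le_left _ _).trans ?_)
      rw [sub_zero]
    calc trh b h2 d * wcl b h2 ≤ d / wcl b h2 * wcl b h2 :=
          mul_le_mul_of_nonneg_right this hcl.le
      _ = d := div_mul_cancel₀ _ hcl.ne'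
  have h6 : trh b h2 d * (13 / 100) ≤ d :=
    (mul_le_mul_of_nonneg_left hX.2 ht.1).trans h5
  rcases q3 with ⟨-, e⟩ | ⟨-, e⟩
  · rw [e]
    have k1 := mul_le_mul_of_nonneg_right (show Th b zs h2 m.1 ≤ 57 / 1000 by linarith only [hW, hB, hW.2, hB.2])
      ht.1
    have k2 := mul_le_mul_of_nonneg_right
      (show -(1145 / 10000) ≤ Th b zs h2 m.1 by linarith only [hW, hB, hW.1, hB.1]) ht.1
    constructor <;> linarith only [q1, h6, k2, k1]
  · rw [e]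
    constructor <;> linarith only [q1]

/-! ### flips -/

theorem In3.noflip {u w : ℂ} (hu : Ow b z m.1 0 = u) (hw : Ow b z m.1 2 = w) :
    ¬ (V3 u ⟨x, 16 / 100 * tau3 x⟩ w - V3 u ⟨x, Tm b zs m * tau3 x⟩ w <
      2 * Real.pi * (16 / 100 * tau3 x)) := by
  intro h
  have h1 := S.flip
  rw [hu, hw] at h1
  linarith only [h, h1]

theorem In3.noflip' (h : V3 ⟨(Ow b z m.1 0).re, (Ow b z m.1 0).im⟩ ⟨x, 16 / 100 * tau3 x⟩
      ⟨(Ow b z m.1 2).re, (Ow b z m.1 2).im⟩ -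
    V3 ⟨(Ow b z m.1 0).re, (Ow b z m.1 0).im⟩ ⟨x, Tm b zs m * tau3 x⟩
      ⟨(Ow b z m.1 2).re, (Ow b z m.1 2).im⟩ < 2 * Real.pi * (16 / 100 * tau3 x)) : False :=
  S.noflip (u := ⟨(Ow b z m.1 0).re, (Ow b z m.1 0).im⟩)
    (w := ⟨(Ow b z m.1 2).re, (Ow b z m.1 2).im⟩) (Complex.ext rfl rfl) (Complex.ext rfl rfl) h

theorem In3.flR_le (hT : -(123 / 1000) ≤ Tm b zs m) (θ : ℝ) :
    flR.val [x, Tm b zs m, (Ow b z m.1 0).re, θ] ≤ 0 := by
  by_contra hc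
  push Not at hc
  obtain ⟨a0, a1, a2⟩ := S.dom0
  obtain ⟨d0, d1, -⟩ := S.dom2
  have e1 : flR.val [x, Tm b zs m, (Ow b z m.1 0).re, θ] =
      (x - 775 / 1000) - max ((x - 775 / 1000) -
        ((Tm b zs m + 60 / 1000) + 150 / 1000 * (Ow b z m.1 0).re)) 0 := by
    simp only [flR, IT.mn, IT.cc, IT.vT, IT.vx, E.val, lk0, lk1, lk2]
    norm_num
  rw [e1] at hc
  have h1 : 0 < x - 775 / 1000 := by
    have := le_max_right ((x - 775 / 1000) -
        ((Tm b zs m + 60 / 1000) + 150 / 1000 * (Ow b z m.1 0).re)) 0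
    linarith only [hc, this]
  have h2 : 0 < (Tm b zs m + 60 / 1000) + 150 / 1000 * (Ow b z m.1 0).re := by
    have := le_max_left ((x - 775 / 1000) -
        ((Tm b zs m + 60 / 1000) + 150 / 1000 * (Ow b z m.1 0).re)) 0
    linarith only [hc, this]
  have h3 : 0 ≤ Tm b zs m + 6 / 100 + 15 / 100 * (Ow b z m.1 0).re := by linarith only [h2]
  have h4 : 775 / 1000 ≤ x := by linarith only [h1]
  exact S.noflip' (FI3.flR h4 S.x1 hT S.T0 h3 a0 a1 a2 d0 d1)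

end SR

end Pool.Agent.Work.MP_b30479_gt.G2
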