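import Pool.Agent.Work.MP_b30479_gt.G2.WM_in3Sd
import Pool.Agent.Work.NumI.TreeS
import Pool.Agent.Work.NumU.GenF

/-!
# Pieces of the certificates of `WM_in3Sc`, part 2
-/


namespace Pool.Agent.Work.MP_b30479_gt.G2
open NumG (chkF)
namespace I3S

theorem r2_p6 : Pool.Agent.Work.NumI.runE (Pool.Agent.Work.NumG.tst [e2])
    0 151182849 0 6768868459 38 27487790695 41231686043 0 3793315117 27487790695 54975581390 0 13365938227
    7933707312794719879562747449097998690059208612531069350911435483817035477869469381762585695212941847970699399552383180004540257229334639947759631140175296320893505479668856849904080372288469090236345358324701926155227487006718043758232094951074490539969576206338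
    0 = true := by
  decide +kernel

end I3S

end Pool.Agent.Work.MP_b30479_gt.G2
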