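import Pool.Agent.Work.NumU.GenD

/-!
# The far sides of the neighbours of an interior `3`: expressions

`u` the hinge with the `3`, variables: `0` its position, `1` the height of its saddle point in the
frame of the neighbour, `2`, `3` position and height of the other hinge or of the inner variable of
the neighbour.
-/

namespace Pool.Agent.Work.MP_b30479_gt.G2

open Finset VOL Filter Topology

namespace I3S

open NumG

/-- numbers in `1/1000` -/
def cc (n : ℤ) : E := .q n 1000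

/-- `V1 (x', y) - V1 (x, y)` -/
def dV1 (x' t' x t y k : E) : E :=
  .add (.sub (.ux (.add x' y) (.add t' k)) (.ux (.add x y) (.add t k)))
    (.add (.sub (.ux x t) (.ux x' t'))
      (.mul .pi (.add (.mul (.sub x' x) k) (.mul (.sub t' t) (.sub y (cc 1000))))))

/-- `V2 (x', y) - V2 (x, y)` -/
def dV2x (x' t' x t y k : E) : E :=
  .sub (.add (.sub (.ux (.add x' y) (.add t' k)) (.ux (.add x y) (.add t k)))
    (.mul (.q 2 1) (.sub (.ux x t) (.ux x' t'))))
    (.mul .pi (.add (.sub (.mul (.sub x' y) (.sub t' k)) (.mul (.sub x y) (.sub t k)))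
      (.mul (.q 1 2) (.sub t' t))))

/-- `V3 (x', y, 0) - V3 (x, y, 0)` -/
def dVaU (x' t' x t y s : E) : E :=
  .add (.mul .pi (.add (.mul (.sub x x') s) (.mul y (.sub t t'))))
    (.sub (.add (.ux (.sub y x) (.sub s t)) (.ux x t))
      (.add (.ux (.sub y x') (.sub s t')) (.ux x' t')))

/-- height of the hinge -/
def ua (X : ℤ) (cl cr : ℕ) : E := .mul (.var 1) (E.tr X cl cr (.var 0))
/-- height of the other variable -/
def qq (X : ℤ) (cl cr : ℕ) : E := .mul (.var 3) (E.tr X cl cr (.var 2))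
def sHi (s : ℤ) : E := .sub (.add (.var 1) (.var 3)) (.q s 10000)
def sLo (s : ℤ) : E := .sub (.q s 10000) (.add (.var 1) (.var 3))

def lQ1 : List (ℤ × ℤ × ℕ) := [(200, -2, 5), (250, -1, 10), (300, 4, 25), (350, 1, 10),
  (400, 2, 25), (450, 1, 25), (500, -49, 50), (550, -3, 50), (600, -11, 50)]
def lQ2 : List (ℤ × ℤ × ℕ) := [(200, -1, 2), (250, -3, 25), (300, 4, 25), (350, 1, 10),
  (400, 3, 50), (450, 1, 25), (500, -26, 25), (550, 1, 50), (600, -1, 10)]
def lQE : List (ℤ × ℤ × ℕ) := [(200, -3, 10), (250, 3, 50), (300, 1, 10), (350, 1, 10),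
  (400, 3, 50), (450, 1, 25), (500, -99, 50), (550, -17, 50), (600, -9, 50)]
def l2 : List (ℤ × ℤ × ℕ) := [(200, -23, 50), (250, 13, 50), (300, 1, 5), (400, -3, 50)]
def l3 : List (ℤ × ℤ × ℕ) := [(200, -19, 25), (250, 13, 50), (300, 7, 25), (400, 7, 50)]
def l3e : List (ℤ × ℤ × ℕ) := [(200, -4, 5), (300, 1, 10), (350, 4, 25), (400, 13, 50),
  (450, 9, 50), (500, -1, 25), (550, -12, 25)]
def lK : List (ℤ × ℤ × ℕ) := [(600, -32, 25)]

/-- rows -/
def eQ1 : E := .sub (dV1 (cc 200) (.var 1) (.var 0) (ua 650 130 150) (.var 2) (qq 860 150 200))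
  (E.pl (.var 0) (-30) lQ1)
def eQ2 : E := .sub (dV1 (cc 200) (.var 1) (.var 0) (ua 650 130 150) (.var 2) (qq 800 160 290))
  (E.pl (.var 0) (-25) lQ2)
def eQE : E := .sub (dV1 (cc 200) (.var 1) (.var 0) (ua 650 130 150) (.var 2) (qq 700 140 350))
  (E.pl (.var 0) (-15) lQE)
def e2 : E := .sub (dV2x (cc 200) (.var 1) (.var 0) (ua 600 120 270) (.var 2) (qq 800 100 280))
  (E.pl (.var 0) (-30) l2)
def e3 : E := .sub (dV2x (cc 200) (.var 1) (.var 0) (ua 600 130 300) (.var 2) (qq 800 50 50))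
  (E.pl (.var 0) (-30) l3)
def e3e : E := .sub (dVaU (cc 200) (.var 1) (.var 0) (ua 600 120 300) (.var 2) (qq 770 100 200))
  (E.pl (.var 0) (-40) l3e)
def eK : E := .sub (dV1 (cc 500) (.mul (.var 1) (E.tr 650 150 290 (cc 500))) (.var 0)
  (ua 650 150 290) (.var 2) (qq 860 150 200)) (E.pl (.var 0) (-126) lK)

end I3S

end Pool.Agent.Work.MP_b30479_gt.G2
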