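import Pool.Agent.Work.MP_b30479_gt.G2.WM_in3Rf
import Pool.Agent.Work.MP_b30479_gt.G2.WM_in3Rg

/-!
# Mirrored paths, inner variable of an interior `3`: the rows of the left side as statements
-/

namespace Pool.Agent.Work.MP_b30479_gt.G2

namespace IT

open NumG

/-- one of the expressions is positive on the box -/
def Rw (es : List E) (x0 x1 l0 l1 a0 a1 u0 u1 : ℝ) : Prop :=
  ∀ {x T a θ : ℝ}, x0 ≤ x → x ≤ x1 → l0 ≤ T → T ≤ l1 → a0 ≤ a → a ≤ a1 → u0 ≤ θ → θ ≤ u1 →
    ∃ e ∈ es, 0 < e.val [x, T, a, θ]

theorem R_Q1a : Rw (eK ch (ta 650 130 150) [flR] (-170) 471)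
    0 (8000 / 10000) (-(745 / 10000)) (-(67 / 10000)) 0 (2000 / 10000) (-(802 / 10000)) (-(241 / 10000)) := by
  intro x T a θ h1 h2 h3 h4 h5 h6 h7 h8
  exact chkF4 r_Q1a (by norm_num) (by push_cast; linarith only [h1]) (by push_cast; linarith only [h2])
    (by push_cast; linarith only [h3]) (by push_cast; linarith only [h4]) (by push_cast; linarith only [h5])
    (by push_cast; linarith only [h6]) (by push_cast; linarith only [h7]) (by push_cast; linarith only [h8])

theorem R_Q1b : Rw (eR ch (ta 650 130 150) (phQ1 (.var 2)) [flR] (-170) 471)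
    0 (8000 / 10000) (-(745 / 10000)) (-(67 / 10000)) (2000 / 10000) (6500 / 10000) (-(802 / 10000)) (-(241 / 10000)) := by
  intro x T a θ h1 h2 h3 h4 h5 h6 h7 h8
  exact chkF4 r_Q1b (by norm_num) (by push_cast; linarith only [h1]) (by push_cast; linarith only [h2])
    (by push_cast; linarith only [h3]) (by push_cast; linarith only [h4]) (by push_cast; linarith only [h5])
    (by push_cast; linarith only [h6]) (by push_cast; linarith only [h7]) (by push_cast; linarith only [h8])

theorem R_Q1c : Rw (eK cl (ta 650 130 150) [] (-170) 471)
    0 (200 / 10000) (-(745 / 10000)) (-(67 / 10000)) 0 (2000 / 10000) (-(802 / 10000)) (-(241 / 10000)) := by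
  intro x T a θ h1 h2 h3 h4 h5 h6 h7 h8
  exact chkF4 r_Q1c (by norm_num) (by push_cast; linarith only [h1]) (by push_cast; linarith only [h2])
    (by push_cast; linarith only [h3]) (by push_cast; linarith only [h4]) (by push_cast; linarith only [h5])
    (by push_cast; linarith only [h6]) (by push_cast; linarith only [h7]) (by push_cast; linarith only [h8])

theorem R_Q1d : Rw (eR cl (ta 650 130 150) (phQ1 (.var 2)) [] (-170) 471)
    0 (200 / 10000) (-(745 / 10000)) (-(67 / 10000)) (2000 / 10000) (6500 / 10000) (-(802 / 10000)) (-(241 / 10000)) := by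
  intro x T a θ h1 h2 h3 h4 h5 h6 h7 h8
  exact chkF4 r_Q1d (by norm_num) (by push_cast; linarith only [h1]) (by push_cast; linarith only [h2])
    (by push_cast; linarith only [h3]) (by push_cast; linarith only [h4]) (by push_cast; linarith only [h5])
    (by push_cast; linarith only [h6]) (by push_cast; linarith only [h7]) (by push_cast; linarith only [h8])

theorem R_Q2a : Rw (eK ch (ta 650 130 150) [flR] 172 631)
    0 (8000 / 10000) (-(582 / 10000)) 0 0 (2000 / 10000) (-(915 / 10000)) (-(499 / 10000)) := by
  intro x T a θ h1 h2 h3 h4 h5 h6 h7 h8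
  exact chkF4 r_Q2a (by norm_num) (by push_cast; linarith only [h1]) (by push_cast; linarith only [h2])
    (by push_cast; linarith only [h3]) (by push_cast; linarith only [h4]) (by push_cast; linarith only [h5])
    (by push_cast; linarith only [h6]) (by push_cast; linarith only [h7]) (by push_cast; linarith only [h8])

theorem R_Q2b : Rw (eR ch (ta 650 130 150) (phQ2 (.var 2)) [flR] 172 631)
    0 (8000 / 10000) (-(582 / 10000)) 0 (2000 / 10000) (6500 / 10000) (-(915 / 10000)) (-(499 / 10000)) := by
  intro x T a θ h1 h2 h3 h4 h5 h6 h7 h8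
  exact chkF4 r_Q2b (by norm_num) (by push_cast; linarith only [h1]) (by push_cast; linarith only [h2])
    (by push_cast; linarith only [h3]) (by push_cast; linarith only [h4]) (by push_cast; linarith only [h5])
    (by push_cast; linarith only [h6]) (by push_cast; linarith only [h7]) (by push_cast; linarith only [h8])

theorem R_Q2c : Rw (eK cl (ta 650 130 150) [] 172 631)
    0 (200 / 10000) (-(582 / 10000)) 0 0 (2000 / 10000) (-(915 / 10000)) (-(499 / 10000)) := by
  intro x T a θ h1 h2 h3 h4 h5 h6 h7 h8
  exact chkF4 r_Q2c (by norm_num) (by push_cast; linarith only [h1]) (by push_cast; linarith only [h2])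
    (by push_cast; linarith only [h3]) (by push_cast; linarith only [h4]) (by push_cast; linarith only [h5])
    (by push_cast; linarith only [h6]) (by push_cast; linarith only [h7]) (by push_cast; linarith only [h8])

theorem R_Q2d : Rw (eR cl (ta 650 130 150) (phQ2 (.var 2)) [] 172 631)
    0 (200 / 10000) (-(582 / 10000)) 0 (2000 / 10000) (6500 / 10000) (-(915 / 10000)) (-(499 / 10000)) := by
  intro x T a θ h1 h2 h3 h4 h5 h6 h7 h8
  exact chkF4 r_Q2d (by norm_num) (by push_cast; linarith only [h1]) (by push_cast; linarith only [h2])
    (by push_cast; linarith only [h3]) (by push_cast; linarith only [h4]) (by push_cast; linarith only [h5])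
    (by push_cast; linarith only [h6]) (by push_cast; linarith only [h7]) (by push_cast; linarith only [h8])

theorem R_QEa : Rw (eK ch (ta 650 130 150) [flR] (-400) 840)
    0 (8000 / 10000) (-(820 / 10000)) 0 0 (2000 / 10000) (-(1145 / 10000)) (-(870 / 10000)) := by
  intro x T a θ h1 h2 h3 h4 h5 h6 h7 h8
  exact chkF4 r_QEa (by norm_num) (by push_cast; linarith only [h1]) (by push_cast; linarith only [h2])
    (by push_cast; linarith only [h3]) (by push_cast; linarith only [h4]) (by push_cast; linarith only [h5])
    (by push_cast; linarith only [h6]) (by push_cast; linarith only [h7]) (by push_cast; linarith only [h8])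

theorem R_QEb : Rw (eR ch (ta 650 130 150) (phQE (.var 2)) [flR] (-400) 840)
    0 (8000 / 10000) (-(820 / 10000)) 0 (2000 / 10000) (6500 / 10000) (-(1145 / 10000)) (-(870 / 10000)) := by
  intro x T a θ h1 h2 h3 h4 h5 h6 h7 h8
  exact chkF4 r_QEb (by norm_num) (by push_cast; linarith only [h1]) (by push_cast; linarith only [h2])
    (by push_cast; linarith only [h3]) (by push_cast; linarith only [h4]) (by push_cast; linarith only [h5])
    (by push_cast; linarith only [h6]) (by push_cast; linarith only [h7]) (by push_cast; linarith only [h8])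

theorem R_QEc : Rw (eK cl (ta 650 130 150) [] (-400) 840)
    0 (200 / 10000) (-(820 / 10000)) 0 0 (2000 / 10000) (-(1145 / 10000)) (-(870 / 10000)) := by
  intro x T a θ h1 h2 h3 h4 h5 h6 h7 h8
  exact chkF4 r_QEc (by norm_num) (by push_cast; linarith only [h1]) (by push_cast; linarith only [h2])
    (by push_cast; linarith only [h3]) (by push_cast; linarith only [h4]) (by push_cast; linarith only [h5])
    (by push_cast; linarith only [h6]) (by push_cast; linarith only [h7]) (by push_cast; linarith only [h8])

theorem R_QEd : Rw (eR cl (ta 650 130 150) (phQE (.var 2)) [] (-400) 840)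
    0 (200 / 10000) (-(820 / 10000)) 0 (2000 / 10000) (6500 / 10000) (-(1145 / 10000)) (-(870 / 10000)) := by
  intro x T a θ h1 h2 h3 h4 h5 h6 h7 h8
  exact chkF4 r_QEd (by norm_num) (by push_cast; linarith only [h1]) (by push_cast; linarith only [h2])
    (by push_cast; linarith only [h3]) (by push_cast; linarith only [h4]) (by push_cast; linarith only [h5])
    (by push_cast; linarith only [h6]) (by push_cast; linarith only [h7]) (by push_cast; linarith only [h8])

theorem R_T2a : Rw (eK ch (ta 600 120 270) [flR] (-535) 135)
    0 (8000 / 10000) (-(885 / 10000)) (-(130 / 10000)) 0 (2000 / 10000) (-(530 / 10000)) (22 / 10000) := by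
  intro x T a θ h1 h2 h3 h4 h5 h6 h7 h8
  exact chkF4 r_T2a (by norm_num) (by push_cast; linarith only [h1]) (by push_cast; linarith only [h2])
    (by push_cast; linarith only [h3]) (by push_cast; linarith only [h4]) (by push_cast; linarith only [h5])
    (by push_cast; linarith only [h6]) (by push_cast; linarith only [h7]) (by push_cast; linarith only [h8])

theorem R_T2b : Rw (eR ch (ta 600 120 270) (ph2 (.var 2)) [flR] (-535) 135)
    0 (8000 / 10000) (-(885 / 10000)) (-(130 / 10000)) (2000 / 10000) (6000 / 10000) (-(530 / 10000)) (22 / 10000) := by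
  intro x T a θ h1 h2 h3 h4 h5 h6 h7 h8
  exact chkF4 r_T2b (by norm_num) (by push_cast; linarith only [h1]) (by push_cast; linarith only [h2])
    (by push_cast; linarith only [h3]) (by push_cast; linarith only [h4]) (by push_cast; linarith only [h5])
    (by push_cast; linarith only [h6]) (by push_cast; linarith only [h7]) (by push_cast; linarith only [h8])

theorem R_T2c : Rw (eK cl (ta 600 120 270) [] (-535) 135)
    0 (200 / 10000) (-(885 / 10000)) (-(130 / 10000)) 0 (2000 / 10000) (-(530 / 10000)) (22 / 10000) := by
  intro x T a θ h1 h2 h3 h4 h5 h6 h7 h8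
  exact chkF4 r_T2c (by norm_num) (by push_cast; linarith only [h1]) (by push_cast; linarith only [h2])
    (by push_cast; linarith only [h3]) (by push_cast; linarith only [h4]) (by push_cast; linarith only [h5])
    (by push_cast; linarith only [h6]) (by push_cast; linarith only [h7]) (by push_cast; linarith only [h8])

theorem R_T2d : Rw (eR cl (ta 600 120 270) (ph2 (.var 2)) [] (-535) 135)
    0 (200 / 10000) (-(885 / 10000)) (-(130 / 10000)) (2000 / 10000) (6000 / 10000) (-(530 / 10000)) (22 / 10000) := by
  intro x T a θ h1 h2 h3 h4 h5 h6 h7 h8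
  exact chkF4 r_T2d (by norm_num) (by push_cast; linarith only [h1]) (by push_cast; linarith only [h2])
    (by push_cast; linarith only [h3]) (by push_cast; linarith only [h4]) (by push_cast; linarith only [h5])
    (by push_cast; linarith only [h6]) (by push_cast; linarith only [h7]) (by push_cast; linarith only [h8])

theorem R_Ea : Rw (eR ch (ta 600 120 300) phE [flR] (-480) 320)
    0 (8000 / 10000) (-(1230 / 10000)) (-(640 / 10000)) 0 (6000 / 10000) (-(980 / 10000)) (-(760 / 10000)) := by
  intro x T a θ h1 h2 h3 h4 h5 h6 h7 h8
  exact chkF4 r_Ea (by norm_num) (by push_cast; linarith only [h1]) (by push_cast; linarith only [h2])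
    (by push_cast; linarith only [h3]) (by push_cast; linarith only [h4]) (by push_cast; linarith only [h5])
    (by push_cast; linarith only [h6]) (by push_cast; linarith only [h7]) (by push_cast; linarith only [h8])

theorem R_Ec : Rw (eR cl (ta 600 120 300) phE [] (-480) 320)
    0 (200 / 10000) (-(1230 / 10000)) (-(640 / 10000)) 0 (6000 / 10000) (-(980 / 10000)) (-(760 / 10000)) := by
  intro x T a θ h1 h2 h3 h4 h5 h6 h7 h8
  exact chkF4 r_Ec (by norm_num) (by push_cast; linarith only [h1]) (by push_cast; linarith only [h2])
    (by push_cast; linarith only [h3]) (by push_cast; linarith only [h4]) (by push_cast; linarith only [h5])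
    (by push_cast; linarith only [h6]) (by push_cast; linarith only [h7]) (by push_cast; linarith only [h8])

theorem R_T3a : Rw (eK ch (ta 600 130 300) [flR] (-1050) 280)
    0 (8000 / 10000) (-(1140 / 10000)) 0 0 (2000 / 10000) (-(220 / 10000)) (220 / 10000) := by
  intro x T a θ h1 h2 h3 h4 h5 h6 h7 h8
  exact chkF4 r_T3a (by norm_num) (by push_cast; linarith only [h1]) (by push_cast; linarith only [h2])
    (by push_cast; linarith only [h3]) (by push_cast; linarith only [h4]) (by push_cast; linarith only [h5])
    (by push_cast; linarith only [h6]) (by push_cast; linarith only [h7]) (by push_cast; linarith only [h8])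

theorem R_T3b : Rw (eR ch (ta 600 130 300) (ph3 (.var 2)) [flR] (-1050) 280)
    0 (8000 / 10000) (-(1140 / 10000)) 0 (2000 / 10000) (6000 / 10000) (-(220 / 10000)) (220 / 10000) := by
  intro x T a θ h1 h2 h3 h4 h5 h6 h7 h8
  exact chkF4 r_T3b (by norm_num) (by push_cast; linarith only [h1]) (by push_cast; linarith only [h2])
    (by push_cast; linarith only [h3]) (by push_cast; linarith only [h4]) (by push_cast; linarith only [h5])
    (by push_cast; linarith only [h6]) (by push_cast; linarith only [h7]) (by push_cast; linarith only [h8])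

theorem R_T3c : Rw (eK cl (ta 600 130 300) [] (-1050) 280)
    0 (200 / 10000) (-(1140 / 10000)) 0 0 (2000 / 10000) (-(220 / 10000)) (220 / 10000) := by
  intro x T a θ h1 h2 h3 h4 h5 h6 h7 h8
  exact chkF4 r_T3c (by norm_num) (by push_cast; linarith only [h1]) (by push_cast; linarith only [h2])
    (by push_cast; linarith only [h3]) (by push_cast; linarith only [h4]) (by push_cast; linarith only [h5])
    (by push_cast; linarith only [h6]) (by push_cast; linarith only [h7]) (by push_cast; linarith only [h8])

theorem R_T3d : Rw (eR cl (ta 600 130 300) (ph3 (.var 2)) [] (-1050) 280)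
    0 (200 / 10000) (-(1140 / 10000)) 0 (2000 / 10000) (6000 / 10000) (-(220 / 10000)) (220 / 10000) := by
  intro x T a θ h1 h2 h3 h4 h5 h6 h7 h8
  exact chkF4 r_T3d (by norm_num) (by push_cast; linarith only [h1]) (by push_cast; linarith only [h2])
    (by push_cast; linarith only [h3]) (by push_cast; linarith only [h4]) (by push_cast; linarith only [h5])
    (by push_cast; linarith only [h6]) (by push_cast; linarith only [h7]) (by push_cast; linarith only [h8])

theorem R_E3a : Rw (eK ch (ta 600 120 300) [flR] (-1050) 280)
    0 (8000 / 10000) (-(1140 / 10000)) 0 0 (2000 / 10000) (-(280 / 10000)) (-(50 / 10000)) := by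
  intro x T a θ h1 h2 h3 h4 h5 h6 h7 h8
  exact chkF4 r_E3a (by norm_num) (by push_cast; linarith only [h1]) (by push_cast; linarith only [h2])
    (by push_cast; linarith only [h3]) (by push_cast; linarith only [h4]) (by push_cast; linarith only [h5])
    (by push_cast; linarith only [h6]) (by push_cast; linarith only [h7]) (by push_cast; linarith only [h8])

theorem R_E3b : Rw (eR ch (ta 600 120 300) (ph3e (.var 2)) [flR] (-1050) 280)
    0 (8000 / 10000) (-(1140 / 10000)) 0 (2000 / 10000) (6000 / 10000) (-(280 / 10000)) (-(50 / 10000)) := by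
  intro x T a θ h1 h2 h3 h4 h5 h6 h7 h8
  exact chkF4 r_E3b (by norm_num) (by push_cast; linarith only [h1]) (by push_cast; linarith only [h2])
    (by push_cast; linarith only [h3]) (by push_cast; linarith only [h4]) (by push_cast; linarith only [h5])
    (by push_cast; linarith only [h6]) (by push_cast; linarith only [h7]) (by push_cast; linarith only [h8])

theorem R_E3c : Rw (eK cl (ta 600 120 300) [] (-1050) 280)
    0 (200 / 10000) (-(1140 / 10000)) 0 0 (2000 / 10000) (-(280 / 10000)) (-(50 / 10000)) := by
  intro x T a θ h1 h2 h3 h4 h5 h6 h7 h8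
  exact chkF4 r_E3c (by norm_num) (by push_cast; linarith only [h1]) (by push_cast; linarith only [h2])
    (by push_cast; linarith only [h3]) (by push_cast; linarith only [h4]) (by push_cast; linarith only [h5])
    (by push_cast; linarith only [h6]) (by push_cast; linarith only [h7]) (by push_cast; linarith only [h8])

theorem R_E3d : Rw (eR cl (ta 600 120 300) (ph3e (.var 2)) [] (-1050) 280)
    0 (200 / 10000) (-(1140 / 10000)) 0 (2000 / 10000) (6000 / 10000) (-(280 / 10000)) (-(50 / 10000)) := by
  intro x T a θ h1 h2 h3 h4 h5 h6 h7 h8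
  exact chkF4 r_E3d (by norm_num) (by push_cast; linarith only [h1]) (by push_cast; linarith only [h2])
    (by push_cast; linarith only [h3]) (by push_cast; linarith only [h4]) (by push_cast; linarith only [h5])
    (by push_cast; linarith only [h6]) (by push_cast; linarith only [h7]) (by push_cast; linarith only [h8])

theorem R_Za : Rw (eK ch (ta 600 120 300) [flR, flL (ta 600 120 300)] (-1050) 280)
    (200 / 10000) (8000 / 10000) (-(1140 / 10000)) 0 0 (6000 / 10000) (-(10 / 10000)) (570 / 10000) := by
  intro x T a θ h1 h2 h3 h4 h5 h6 h7 h8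
  exact chkF4 r_Za (by norm_num) (by push_cast; linarith only [h1]) (by push_cast; linarith only [h2])
    (by push_cast; linarith only [h3]) (by push_cast; linarith only [h4]) (by push_cast; linarith only [h5])
    (by push_cast; linarith only [h6]) (by push_cast; linarith only [h7]) (by push_cast; linarith only [h8])

theorem R_Zb : Rw (eK ch0 (ta 600 120 300) [flL (ta 600 120 300)] (-1050) 280)
    0 (200 / 10000) (-(1140 / 10000)) 0 0 (6000 / 10000) (-(10 / 10000)) (570 / 10000) := by
  intro x T a θ h1 h2 h3 h4 h5 h6 h7 h8
  exact chkF4 r_Zb (by norm_num) (by push_cast; linarith only [h1]) (by push_cast; linarith only [h2])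
    (by push_cast; linarith only [h3]) (by push_cast; linarith only [h4]) (by push_cast; linarith only [h5])
    (by push_cast; linarith only [h6]) (by push_cast; linarith only [h7]) (by push_cast; linarith only [h8])

theorem R_Zc : Rw (eK cl (ta 600 120 300) [] (-1050) 280)
    0 (200 / 10000) (-(1140 / 10000)) 0 0 (3500 / 10000) 0 (570 / 10000) := by
  intro x T a θ h1 h2 h3 h4 h5 h6 h7 h8
  exact chkF4 r_Zc (by norm_num) (by push_cast; linarith only [h1]) (by push_cast; linarith only [h2])
    (by push_cast; linarith only [h3]) (by push_cast; linarith only [h4]) (by push_cast; linarith only [h5])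
    (by push_cast; linarith only [h6]) (by push_cast; linarith only [h7]) (by push_cast; linarith only [h8])

theorem R_Xc : Rw (eK cx (ta 600 120 300) [] (-1050) 280)
    0 (200 / 10000) (-(1060 / 10000)) (-(150 / 10000)) 0 (4600 / 10000) (-(7 / 10000)) 0 := by
  intro x T a θ h1 h2 h3 h4 h5 h6 h7 h8
  exact chkF4 r_Xc (by norm_num) (by push_cast; linarith only [h1]) (by push_cast; linarith only [h2])
    (by push_cast; linarith only [h3]) (by push_cast; linarith only [h4]) (by push_cast; linarith only [h5])
    (by push_cast; linarith only [h6]) (by push_cast; linarith only [h7]) (by push_cast; linarith only [h8])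

theorem R_Xd : Rw (eK cx (ta 600 120 300) [] (-1050) 280)
    0 (200 / 10000) (-(1060 / 10000)) (-(380 / 10000)) (4600 / 10000) (6000 / 10000) (-(7 / 10000)) 0 := by
  intro x T a θ h1 h2 h3 h4 h5 h6 h7 h8
  exact chkF4 r_Xd (by norm_num) (by push_cast; linarith only [h1]) (by push_cast; linarith only [h2])
    (by push_cast; linarith only [h3]) (by push_cast; linarith only [h4]) (by push_cast; linarith only [h5])
    (by push_cast; linarith only [h6]) (by push_cast; linarith only [h7]) (by push_cast; linarith only [h8])

theorem R_Xe : Rw (eK [(200, m20)] (ta 600 120 300) [] (-1050) 280)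
    0 (200 / 10000) (-(250 / 10000)) (-(150 / 10000)) (4600 / 10000) (6000 / 10000) (-(7 / 10000)) 0 := by
  intro x T a θ h1 h2 h3 h4 h5 h6 h7 h8
  exact chkF4 r_Xe (by norm_num) (by push_cast; linarith only [h1]) (by push_cast; linarith only [h2])
    (by push_cast; linarith only [h3]) (by push_cast; linarith only [h4]) (by push_cast; linarith only [h5])
    (by push_cast; linarith only [h6]) (by push_cast; linarith only [h7]) (by push_cast; linarith only [h8])

theorem R_Xf : Rw (eK [(200, n20)] (ta 600 120 300) [] (-1050) 280)
    0 (200 / 10000) (-(380 / 10000)) (-(250 / 10000)) (4600 / 10000) (6000 / 10000) (-(7 / 10000)) 0 := by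
  intro x T a θ h1 h2 h3 h4 h5 h6 h7 h8
  exact chkF4 r_Xf (by norm_num) (by push_cast; linarith only [h1]) (by push_cast; linarith only [h2])
    (by push_cast; linarith only [h3]) (by push_cast; linarith only [h4]) (by push_cast; linarith only [h5])
    (by push_cast; linarith only [h6]) (by push_cast; linarith only [h7]) (by push_cast; linarith only [h8])

theorem R_Ra : Rw (eK ch (cc 0) [flR] (-2000) 2000)
    (200 / 10000) (8000 / 10000) (-(1230 / 10000)) 0 0 (6000 / 10000) 0 0 := by
  intro x T a θ h1 h2 h3 h4 h5 h6 h7 h8
  exact chkF4 r_Ra (by norm_num) (by push_cast; linarith only [h1]) (by push_cast; linarith only [h2])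
    (by push_cast; linarith only [h3]) (by push_cast; linarith only [h4]) (by push_cast; linarith only [h5])
    (by push_cast; linarith only [h6]) (by push_cast; linarith only [h7]) (by push_cast; linarith only [h8])

theorem R_Rb : Rw (eK ch0 (cc 0) [] (-2000) 2000)
    0 (200 / 10000) (-(1230 / 10000)) 0 0 (6000 / 10000) 0 0 := by
  intro x T a θ h1 h2 h3 h4 h5 h6 h7 h8
  exact chkF4 r_Rb (by norm_num) (by push_cast; linarith only [h1]) (by push_cast; linarith only [h2])
    (by push_cast; linarith only [h3]) (by push_cast; linarith only [h4]) (by push_cast; linarith only [h5])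
    (by push_cast; linarith only [h6]) (by push_cast; linarith only [h7]) (by push_cast; linarith only [h8])

theorem R_Rc : Rw (eK cl (cc 0) [] (-2000) 2000)
    0 (200 / 10000) (-(1230 / 10000)) 0 0 (3500 / 10000) 0 0 := by
  intro x T a θ h1 h2 h3 h4 h5 h6 h7 h8
  exact chkF4 r_Rc (by norm_num) (by push_cast; linarith only [h1]) (by push_cast; linarith only [h2])
    (by push_cast; linarith only [h3]) (by push_cast; linarith only [h4]) (by push_cast; linarith only [h5])
    (by push_cast; linarith only [h6]) (by push_cast; linarith only [h7]) (by push_cast; linarith only [h8])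

end IT

end Pool.Agent.Work.MP_b30479_gt.G2
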