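import Pool.Agent.Work.MP_b30479_gt.G2.WTopA
import Pool.Agent.Work.MP_b30479_gt.TB.Mir

/-!
# The complexified volume conjecture for two-bridge links and their mirror images, from the saddle
point data of all words
-/

namespace Pool.Agent.Work.MP_b30479_gt.G2

open Finset VOL Filter Topology
open Pool.Agent.Work.MP_b30479_gt.LT

/-- the theorem for the link and its mirror image, from the saddle point data of all words -/
theorem pub_mir (H : ∀ (K : ℕ) (b : Fin (K + 2) → ℤ), ClassW (M := K + 1) b → HSad b) {M : ℕ}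
    (a : Fin (M + 2) → ℕ) (ha : ∀ i, 1 ≤ a i) (h0 : 2 ≤ a 0) (hl : 2 ≤ a (Fin.last (M + 1))) :
    ∃ (p : Fin (M + 2) → ℂ) (q : Fin (M + 2) → ℕ → ℂ), Markoff a p q ∧ SWPos a p q ∧
      (∃ P Q, SWLog a p q P Q) ∧ 0 < swVolume a p q ∧
      ∃ V : ℂ, V.re = swVolume a p q ∧
      (∀ P Q, SWLog a p q P Q → ∃ k : ℤ, V - swCV a p q P Q = Real.pi ^ 2 * Complex.I * k) ∧
      ComplexGrowth (ltWord (List.ofFn (altf (M := M + 1) a))) V ∧
      ComplexGrowth (mirrorRev (ltWord (List.ofFn (altf (M := M + 1) a)))) ((starRingEnd ℂ) V) := by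
  obtain ⟨p, q, h1, h2, h3, h4, V, h5, h6, h7, h8⟩ := pub_hsad H a ha h0 hl
  have hg : ComplexGrowth (ltWord (List.ofFn (altf (M := M + 1) a))) V := by
    refine ⟨h7, fun δ hδ => ?_⟩
    obtain ⟨g1, g2, g3⟩ := h8 δ hδ
    refine ⟨g1, g2, ?_⟩
    rw [h5]
    exact g3
  exact ⟨p, q, h1, h2, h3, h4, V, h5, h6, hg, TB.complexGrowth_mirror hg⟩

end Pool.Agent.Work.MP_b30479_gt.G2
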