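import Pool.Agent.Work.MP_b30479_gt.G2.WAdj

/-!
# Push-back of the regions of a word, in the own frame
-/

namespace Pool.Agent.Work.MP_b30479_gt.G2

open Finset VOL Filter Topology

namespace SR

variable {M : ℕ} {b : Fin (M + 1) → ℤ} {zs : DD (tyW b) ⊕ ZZ (tyW b) → ℂ}
variable {y : DD (tyW b) ⊕ ZZ (tyW b) → ℝ}
variable {h h' : Fin M} {i j j' : Fin (M + 1)} {p : Fin 3}

/-! ### sides of a region at general local variables -/

section
variable (X : Fin 3 → ℂ) (m : ℝ)

theorem Adj.rs_one (A : Adj h i p j) (hb : ClassW b) (hc : clsW b i = .one) :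
    rside (tyW b) b i p m X = S1 1 (ofs (b i) m) (ofr (b i) (X p)) (ofr (b i) (X p.rev)) := by
  have ht := tyW_of_one hc
  cases A
  · unfold rside
    rw [decide_castSucc, ht]
    exact side_one_two (hb.ne _) _ _ _
  · unfold rside
    rw [decide_succ, ht]
    exact side_one_zero (hb.ne _) _ _ _

theorem Adj.rs_two (A : Adj h i p j) (hb : ClassW b) (hc : clsW b i = .two ∨ clsW b i = .twoE) :
    rside (tyW b) b i p m X = S2 1 (ofs (b i) m) (ofr (b i) (X p)) (ofr (b i) (X p.rev)) := by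
  have ht := tyW_of_two hc
  cases A
  · unfold rside
    rw [decide_castSucc, ht]
    exact side_two_two (hb.ne _) _ _ _
  · unfold rside
    rw [decide_succ, ht]
    exact side_two_zero (hb.ne _) _ _ _

theorem Adj.rs_threeE (A : Adj h i p j) (hb : ClassW b) (hc : clsW b i = .threeE) :
    rside (tyW b) b i p m X = S3 1 (ofs (b i) m) (ofr (b i) (X p)) (ofr (b i) (X 1)) := by
  have h3 := clsW_nat3 (Or.inr hc)
  have he := clsW_end (Or.inr hc)
  cases A
  · have ht : tyW b h.castSucc = .threeR := by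
      have h0 : h.castSucc = 0 := by
        unfold isEnd at he
        rcases of_decide_eq_true he with h1 | h1
        · exact h1
        · exact absurd h1 (Fin.castSucc_lt_last h).ne
      unfold tyW
      rw [if_neg (by omega), if_neg (by omega), if_pos h3, if_pos h0]
    unfold rside
    rw [decide_castSucc, ht]
    exact side_threeR_two (hb.ne _) _ _ _
  · have ht : tyW b h.succ = .threeL := by
      unfold tyW
      rw [if_neg (by omega), if_neg (by omega), if_pos h3, if_neg (Fin.succ_ne_zero h)]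
    unfold rside
    rw [decide_succ, ht]
    exact side_threeL_zero (hb.ne _) _ _ _

theorem Adj.rs_three_two (A : Adj h i 2 j) (hb : ClassW b) (hc : clsW b i = .three) :
    rside (tyW b) b i 2 m X = S2 1 (ofs (b i) m) (ofr (b i) (X 2)) (ofr (b i) (X 1)) := by
  have ht := tyW_of_three hc
  cases A
  unfold rside
  rw [decide_castSucc, ht]
  exact side_threeL_two (hb.ne _) _ _ _

theorem Adj.rs_three_zero (A : Adj h i 0 j) (hb : ClassW b) (hc : clsW b i = .three) :
    rside (tyW b) b i 0 m X = S3 1 (ofs (b i) m) (ofr (b i) (X 0)) (ofr (b i) (X 1)) := by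
  have ht := tyW_of_three hc
  cases A
  unfold rside
  rw [decide_succ, ht]
  exact side_threeL_zero (hb.ne _) _ _ _

theorem Adj.rs_ring (A : Adj h i p j) (hb : ClassW b) (hc : clsW b i = .ring) :
    rside (tyW b) b i p m X = S4 (ofs (b i) m) (ofr (b i) (X p)) (ofz (b i) (X 1)) := by
  have ht := tyW_of_ring hb hc
  cases A
  · unfold rside
    rw [decide_castSucc, ht]
    exact side_ring_two'' _ _ _
  · unfold rside
    rw [decide_succ, ht]
    exact side_ring_zero'' _ _ _

end

/-! ### the saddle point in the own frame -/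

/-- local variables of the saddle point in the own frame of the region `i` -/
noncomputable def Ys (b : Fin (M + 1) → ℤ) (zs : DD (tyW b) ⊕ ZZ (tyW b) → ℂ) (i : Fin (M + 1))
    (p : Fin 3) : ℂ := ofr (b i) (xx (tyW b) i zs p)

/-- the ring variable of the saddle point in its own frame -/
noncomputable def Zs (b : Fin (M + 1) → ℤ) (zs : DD (tyW b) ⊕ ZZ (tyW b) → ℂ)
    (i : Fin (M + 1)) : ℂ := ofz (b i) (xx (tyW b) i zs 1)

theorem Adj.xs_eq (A : Adj h i p j) (x : DD (tyW b) ⊕ ZZ (tyW b) → ℂ) :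
    xx (tyW b) i x p = x (.inl (.inl h)) := by
  cases A
  · exact xx_right _ _ _
  · exact xx_left _ _ _

theorem Adj.Ys_eq (A : Adj h i p j) : Ys b zs i p = ofr (b i) (zs (.inl (.inl h))) := by
  unfold Ys
  rw [A.xs_eq]

theorem Adj.Ys_re (A : Adj h i p j) : (Ys b zs i p).re = (zs (.inl (.inl h))).re := by
  rw [A.Ys_eq, ofr_re]

theorem Adj.Ys_im (A : Adj h i p j) : (Ys b zs i p).im = ofs (b i) (zs (.inl (.inl h))).im := by
  rw [A.Ys_eq, ofr_im]

theorem Adj.Ys_other (A : Adj h i p j) (he : isEnd i = true) : Ys b zs i p.rev = 0 := by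
  cases A
  · have h0 : h.castSucc = 0 := by
      unfold isEnd at he
      rcases of_decide_eq_true he with h1 | h1
      · exact h1
      · exact absurd h1 (Fin.castSucc_lt_last h).ne
    unfold Ys
    rw [h0]
    show ofr _ (xx (tyW b) 0 zs 0) = 0
    rw [xx_left_zero, ofr_zero]
  · have h0 : h.succ = Fin.last M := by
      unfold isEnd at he
      rcases of_decide_eq_true he with h1 | h1
      · exact absurd h1 (Fin.succ_ne_zero h)
      · exact h1
    unfold Ys
    rw [h0]
    show ofr _ (xx (tyW b) (Fin.last M) zs 2) = 0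
    rw [xx_right_last, ofr_zero]

/-! ### push-back -/

/-- push-back of a side `S` at slope `0`; `x`, `k`: own and other hinge, `xs`, `ks` at the saddle
point; `s`, `ss`: values of the side -/
def PushV (x k xs ks : ℂ) (s ss : ℝ) : Prop :=
  (xs.re < x.re → |gh k.re - gh ks.re| ≤ gh x.re - gh xs.re → s < ss) ∧
  (x.re < xs.re → |gh k.re - gh ks.re| ≤ gh xs.re - gh x.re → ss < s)

theorem Adj.push_iff (_ : Adj h i p j) : Push' (tyW b) b i p p.rev (Xw b zs y i) (xx (tyW b) i zs) ↔
    PushV (Yw b zs y i p) (Yw b zs y i p.rev) (Ys b zs i p) (Ys b zs i p.rev)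
      (rside (tyW b) b i p 0 (Xw b zs y i)) (rside (tyW b) b i p 0 (xx (tyW b) i zs)) := by
  unfold Push' PushV Yw Ys
  simp only [ofr_re]

theorem ofs_zero' (c : ℤ) : ofs c 0 = 0 := by unfold ofs; split_ifs <;> simp

theorem Adj.push_one (A : Adj h i p j) (hb : ClassW b) (hc : clsW b i = .one)
    (H : PushV (Yw b zs y i p) (Yw b zs y i p.rev) (Ys b zs i p) (Ys b zs i p.rev)
      (S1 1 0 (Yw b zs y i p) (Yw b zs y i p.rev)) (S1 1 0 (Ys b zs i p) (Ys b zs i p.rev))) :
    Push' (tyW b) b i p p.rev (Xw b zs y i) (xx (tyW b) i zs) := by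
  rw [A.push_iff, A.rs_one _ _ hb hc, A.rs_one _ _ hb hc, ofs_zero']
  exact H

theorem Adj.push_two (A : Adj h i p j) (hb : ClassW b)
    (hc : clsW b i = .two ∨ clsW b i = .twoE)
    (H : PushV (Yw b zs y i p) (Yw b zs y i p.rev) (Ys b zs i p) (Ys b zs i p.rev)
      (S2 1 0 (Yw b zs y i p) (Yw b zs y i p.rev)) (S2 1 0 (Ys b zs i p) (Ys b zs i p.rev))) :
    Push' (tyW b) b i p p.rev (Xw b zs y i) (xx (tyW b) i zs) := by
  rw [A.push_iff, A.rs_two _ _ hb hc, A.rs_two _ _ hb hc, ofs_zero']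
  exact H

theorem Adj.push_threeE (A : Adj h i p j) (hb : ClassW b) (hc : clsW b i = .threeE)
    (H : PushV (Yw b zs y i p) (Yw b zs y i p.rev) (Ys b zs i p) (Ys b zs i p.rev)
      (S3 1 0 (Yw b zs y i p) (Yw b zs y i 1)) (S3 1 0 (Ys b zs i p) (Ys b zs i 1))) :
    Push' (tyW b) b i p p.rev (Xw b zs y i) (xx (tyW b) i zs) := by
  rw [A.push_iff, A.rs_threeE _ _ hb hc, A.rs_threeE _ _ hb hc, ofs_zero']
  exact H

theorem Adj.push_three_two (A : Adj h i 2 j) (hb : ClassW b) (hc : clsW b i = .three)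
    (H : PushV (Yw b zs y i 2) (Yw b zs y i 0) (Ys b zs i 2) (Ys b zs i 0)
      (S2 1 0 (Yw b zs y i 2) (Yw b zs y i 1)) (S2 1 0 (Ys b zs i 2) (Ys b zs i 1))) :
    Push' (tyW b) b i 2 0 (Xw b zs y i) (xx (tyW b) i zs) := by
  have := A.push_iff (b := b) (zs := zs) (y := y)
  rw [show (2 : Fin 3).rev = 0 from rfl] at this
  rw [this, A.rs_three_two _ _ hb hc, A.rs_three_two _ _ hb hc, ofs_zero']
  exact H

theorem Adj.push_three_zero (A : Adj h i 0 j) (hb : ClassW b) (hc : clsW b i = .three)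
    (H : PushV (Yw b zs y i 0) (Yw b zs y i 2) (Ys b zs i 0) (Ys b zs i 2)
      (S3 1 0 (Yw b zs y i 0) (Yw b zs y i 1)) (S3 1 0 (Ys b zs i 0) (Ys b zs i 1))) :
    Push' (tyW b) b i 0 2 (Xw b zs y i) (xx (tyW b) i zs) := by
  have := A.push_iff (b := b) (zs := zs) (y := y)
  rw [show (0 : Fin 3).rev = 2 from rfl] at this
  rw [this, A.rs_three_zero _ _ hb hc, A.rs_three_zero _ _ hb hc, ofs_zero']
  exact H

theorem Adj.push_ring (A : Adj h i p j) (hb : ClassW b) (hc : clsW b i = .ring)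
    (H : PushV (Yw b zs y i p) (Yw b zs y i p.rev) (Ys b zs i p) (Ys b zs i p.rev)
      (S4 0 (Yw b zs y i p) (Zw b zs y i)) (S4 0 (Ys b zs i p) (Zs b zs i))) :
    Push' (tyW b) b i p p.rev (Xw b zs y i) (xx (tyW b) i zs) := by
  rw [A.push_iff, A.rs_ring _ _ hb hc, A.rs_ring _ _ hb hc, ofs_zero']
  exact H

/-- push-back at a hinge from both sides -/
theorem push_hinge (h : Fin M)
    (H : ∀ i p j, Adj h i p j → Push' (tyW b) b i p p.rev (Xw b zs y i) (xx (tyW b) i zs)) :
    Push' (tyW b) b h.castSucc 2 0 (xx (tyW b) h.castSucc ((wpar b zs).pth zs y))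
      (xx (tyW b) h.castSucc zs) ∧
    Push' (tyW b) b h.succ 0 2 (xx (tyW b) h.succ ((wpar b zs).pth zs y))
      (xx (tyW b) h.succ zs) :=
  ⟨H _ _ _ .l, H _ _ _ .r⟩

end SR

end Pool.Agent.Work.MP_b30479_gt.G2
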