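import Pool.Agent.Work.MP_b30479_gt.G2.WMMX
import Pool.Agent.Work.MP_b30479_gt.G2.WLocL6
import Pool.Agent.Work.MP_b30479_gt.G2.WLocL7
import Pool.Agent.Work.MP_b30479_gt.G2.WM_1_3a
import Pool.Agent.Work.MP_b30479_gt.G2.WM_1_3b
import Pool.Agent.Work.MP_b30479_gt.G2.WM_3a2
import Pool.Agent.Work.MP_b30479_gt.G2.WM_3a3

/-!
# Modes and tails: the field `rest` of the domination, for all words
-/

namespace Pool.Agent.Work.MP_b30479_gt.G2

open Finset VOL Filter Topology

namespace SR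

variable {M : ℕ} {b : Fin (M + 1) → ℤ} {zs : DD (tyW b) ⊕ ZZ (tyW b) → ℂ}

/-- **Modes and tails.** -/
theorem restQ_all (hM : 1 ≤ M) (hb : ClassW b) (L : LocA b zs) (L6 : LocM6 b zs) : RestQ b zs :=
  restQ_of' hM hb L (kind_one_three hb L)
    (kd_one_three0 hb L L6 (locM7 hb L.N L.U)) (kind_three_two hb L) (kind_three_three0 hb L)

end SR

end Pool.Agent.Work.MP_b30479_gt.G2
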