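import Pool.Agent.Work.MP_b30479_gt.G2.WHd
import Pool.Agent.Work.MP_b30479_gt.G2.MPWord

/-!
# Rounds: from side inequalities to the caps of a maximiser

A side inequality at the hinge `h` bounds the derivative of one of the two adjacent regions along
the ramp, up to a shift `c μ` which cancels between regions of opposite signs.  `eL A B` is the bound
for the region of class `A` next to a region of class `B` on left ramps, `eR A B` on right ramps.
-/

namespace Pool.Agent.Work.MP_b30479_gt.G2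

open Finset VOL Filter Topology

namespace SR

variable {M : ℕ} {b : Fin (M + 1) → ℤ} {zs : DD (tyW b) ⊕ ZZ (tyW b) → ℂ}
variable {y : DD (tyW b) ⊕ ZZ (tyW b) → ℝ}

/-- local variables of the region `i` at the point `y` of the paths -/
noncomputable def Xw (b : Fin (M + 1) → ℤ) (zs : DD (tyW b) ⊕ ZZ (tyW b) → ℂ)
    (y : DD (tyW b) ⊕ ZZ (tyW b) → ℝ) (i : Fin (M + 1)) : Fin 3 → ℂ :=
  xx (tyW b) i ((wpar b zs).pth zs y)

/-- side of the region `i` in the slot `p` along the slope `m` -/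
noncomputable def Sw (b : Fin (M + 1) → ℤ) (zs : DD (tyW b) ⊕ ZZ (tyW b) → ℂ)
    (y : DD (tyW b) ⊕ ZZ (tyW b) → ℝ) (i : Fin (M + 1)) (p : Fin 3) (m : ℝ) : ℝ :=
  rside (tyW b) b i p m (Xw b zs y i)

/-- a bound for the sides at the hinge `h`, along the slope `m`, with the shift `c`: lower bounds -/
def LSide (b : Fin (M + 1) → ℤ) (zs : DD (tyW b) ⊕ ZZ (tyW b) → ℂ)
    (y : DD (tyW b) ⊕ ZZ (tyW b) → ℝ) (h : Fin M) (m c e1 e2 : ℝ) : Prop :=
  e1 ≤ Sw b zs y h.castSucc 2 m + c * ofs (b h.castSucc) m ∧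
    e2 ≤ Sw b zs y h.succ 0 m + c * ofs (b h.succ) m

/-- upper bounds -/
def RSide (b : Fin (M + 1) → ℤ) (zs : DD (tyW b) ⊕ ZZ (tyW b) → ℂ)
    (y : DD (tyW b) ⊕ ZZ (tyW b) → ℝ) (h : Fin M) (m c e1 e2 : ℝ) : Prop :=
  Sw b zs y h.castSucc 2 m + c * ofs (b h.castSucc) m ≤ e1 ∧
    Sw b zs y h.succ 0 m + c * ofs (b h.succ) m ≤ e2

/-- the hinge parameters of the word -/
noncomputable def wcl (b : Fin (M + 1) → ℤ) (h : Fin M) : ℝ :=
  (hp (outL b h) (clsW b h.castSucc) (clsW b h.succ) (outR b h)).cl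
noncomputable def wcr (b : Fin (M + 1) → ℤ) (h : Fin M) : ℝ :=
  (hp (outL b h) (clsW b h.castSucc) (clsW b h.succ) (outR b h)).cr
noncomputable def wXM (b : Fin (M + 1) → ℤ) (h : Fin M) : ℝ :=
  (hp (outL b h) (clsW b h.castSucc) (clsW b h.succ) (outR b h)).XM

theorem wcl_eq (h : Fin M) : (wpar b zs).cl (.inl h) = wcl b h := rfl
theorem wcr_eq (h : Fin M) : (wpar b zs).cr (.inl h) = wcr b h := rfl
theorem wXM_eq (h : Fin M) : (wpar b zs).XM (.inl h) = wXM b h := rfl

theorem wcl_pos (h : Fin M) : 0 < wcl b h := (hp_good _ _ _ _).1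
theorem wcr_pos (h : Fin M) : 0 < wcr b h := (hp_good _ _ _ _).2.1
theorem w_sum (h : Fin M) : wcl b h + wcr b h < wXM b h := (hp_good _ _ _ _).2.2.1

/-- signs at a hinge -/
theorem sign_cases (hb : ClassW b) (h : Fin M) :
    b h.castSucc * b h.succ < 0 ∨ (0 < b h.castSucc * b h.succ ∧ clsW b h.castSucc = .ring ∧
      clsW b h.succ = .ring) := by
  have h1 := hb.ne h.castSucc
  have h2 := hb.ne h.succ
  rcases lt_trichotomy (b h.castSucc * b h.succ) 0 with h3 | h3 | h3
  · exact Or.inl h3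
  · exact absurd (mul_eq_zero.1 h3) (by tauto)
  · right
    obtain ⟨a1, a2⟩ := hb.same h h3
    refine ⟨h3, ?_, ?_⟩ <;> unfold clsW cls <;>
      rw [if_neg (by omega), if_neg (by omega), if_neg (by omega)]

/-- **Lower bounds for the sides exclude the point.**  For equal signs the shift has to be `0`. -/
theorem lside_false (hb : ClassW b) (hy : IsMx (wdat (tyW b) b) (wpar b zs) zs y) (h : Fin M)
    (h0 : 0 < y (.inl (.inl h))) (h1 : y (.inl (.inl h)) < wXM b h) {c e1 e2 : ℝ}
    (hc : 0 < b h.castSucc * b h.succ → c = 0) (he : 0 < e1 + e2)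
    (hs : LSide b zs y h ((wpar b zs).sR zs (.inl (.inl h)) (y (.inl (.inl h)))) c e1 e2) :
    False := by
  have h3 := hy.foc_right (std_wpar b zs) h h0 h1
  obtain ⟨s1, s2⟩ := hs
  unfold Sw Xw at s1 s2
  rcases sign_cases hb h with h4 | ⟨h4, -, -⟩
  · rw [ofs_opp h4] at s2
    linarith only [he, h3, s1, s2]
  · rw [hc h4] at s1 s2
    linarith only [he, h3, s1, s2]

/-- **Upper bounds for the sides exclude the point.** -/
theorem rside_false (hb : ClassW b) (hy : IsMx (wdat (tyW b) b) (wpar b zs) zs y) (h : Fin M)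
    (h0 : 0 < y (.inl (.inl h))) {c e1 e2 : ℝ}
    (hc : 0 < b h.castSucc * b h.succ → c = 0) (he : e1 + e2 < 0)
    (hs : RSide b zs y h ((wpar b zs).sL zs (.inl (.inl h)) (y (.inl (.inl h)))) c e1 e2) :
    False := by
  have h3 := (hy.foc_left (std_wpar b zs) h h0).2
  obtain ⟨s1, s2⟩ := hs
  unfold Sw Xw at s1 s2
  rcases sign_cases hb h with h4 | ⟨h4, -, -⟩
  · rw [ofs_opp h4] at s2
    linarith only [he, h3, s1, s2]
  · rw [hc h4] at s1 s2
    linarith only [he, h3, s1, s2]

/-- slope on the left ramp -/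
theorem w_sR_left (h : Fin M) {x : ℝ} (hx : x < wcl b h) :
    (wpar b zs).sR zs (.inl (.inl h)) x = (zs (.inl (.inl h))).im / wcl b h :=
  sR_left zs _ hx

/-- slope on the right ramp -/
theorem w_sL_right (h : Fin M) {x : ℝ} (hx : wXM b h - wcr b h < x) :
    (wpar b zs).sL zs (.inl (.inl h)) x = -((zs (.inl (.inl h))).im / wcr b h) :=
  sL_right (wpar_good b zs) zs _ hx

theorem w_sR_flat (h : Fin M) {x : ℝ} (hx : wcl b h ≤ x) (hx' : x < wXM b h - wcr b h) :
    (wpar b zs).sR zs (.inl (.inl h)) x = 0 := sR_flat zs _ hx hx'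

theorem w_sL_flat (h : Fin M) {x : ℝ} (hx : wcl b h < x) (hx' : x ≤ wXM b h - wcr b h) :
    (wpar b zs).sL zs (.inl (.inl h)) x = 0 := sL_flat zs _ hx hx'

/-- **A left round**: all hinges satisfy `θ cl ≤ y`.  The side inequalities are needed only at the
hinge with the least `y / cl`. -/
theorem round_left (hb : ClassW b) (hy : IsMx (wdat (tyW b) b) (wpar b zs) zs y)
    (hpos : ∀ h : Fin M, 0 < y (.inl (.inl h))) {θ : ℝ} (hθ : θ ≤ 1)
    (hside : ∀ h : Fin M, y (.inl (.inl h)) < θ * wcl b h →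
      (∀ j : Fin M, y (.inl (.inl h)) / wcl b h ≤ y (.inl (.inl j)) / wcl b j) →
      ∃ c e1 e2 : ℝ, (0 < b h.castSucc * b h.succ → c = 0) ∧ 0 < e1 + e2 ∧
        LSide b zs y h ((zs (.inl (.inl h))).im / wcl b h) c e1 e2) (h : Fin M) :
    θ * wcl b h ≤ y (.inl (.inl h)) := by
  refine left_phase' (y := fun h => y (.inl (.inl h))) (c := wcl b) (fun h => wcl_pos h) ?_ h
  intro i hi hj
  obtain ⟨c, e1, e2, hc, he, hs⟩ := hside i hi hj
  have hx : y (.inl (.inl i)) < wcl b i := by
    have := wcl_pos (b := b) i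
    nlinarith only [hi, hθ, this]
  have hx' : y (.inl (.inl i)) < wXM b i := by
    have := w_sum (b := b) i
    have := wcr_pos (b := b) i
    linarith
  rw [← w_sR_left (zs := zs) i hx] at hs
  exact lside_false hb hy i (hpos i) hx' hc he hs

/-- **A left round** with arbitrary floors `f ≤ cl`: the side inequalities are needed only at the
hinge with the least `y / f`. -/
theorem round_left' (hb : ClassW b) (hy : IsMx (wdat (tyW b) b) (wpar b zs) zs y)
    (hpos : ∀ h : Fin M, 0 < y (.inl (.inl h))) {f : Fin M → ℝ} (hf : ∀ h, 0 < f h)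
    (hf' : ∀ h, f h ≤ wcl b h)
    (hside : ∀ h : Fin M, y (.inl (.inl h)) < f h →
      (∀ j : Fin M, y (.inl (.inl h)) / f h ≤ y (.inl (.inl j)) / f j) →
      ∃ c e1 e2 : ℝ, (0 < b h.castSucc * b h.succ → c = 0) ∧ 0 < e1 + e2 ∧
        LSide b zs y h ((zs (.inl (.inl h))).im / wcl b h) c e1 e2) (h : Fin M) :
    f h ≤ y (.inl (.inl h)) := by
  have key := left_phase' (y := fun h => y (.inl (.inl h))) (c := f) (θ := 1) hf ?_ h
  · simpa using key
  intro i hi hj
  rw [one_mul] at hi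
  obtain ⟨c, e1, e2, hc, he, hs⟩ := hside i hi hj
  have hx : y (.inl (.inl i)) < wcl b i := hi.trans_le (hf' i)
  have hx' : y (.inl (.inl i)) < wXM b i := by
    have := w_sum (b := b) i
    have := wcr_pos (b := b) i
    linarith
  rw [← w_sR_left (zs := zs) i hx] at hs
  exact lside_false hb hy i (hpos i) hx' hc he hs

/-- **A right round**: all hinges satisfy `y ≤ thr`; `g` is any function used for the order. -/
theorem round_right (hb : ClassW b) (hy : IsMx (wdat (tyW b) b) (wpar b zs) zs y)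
    (hpos : ∀ h : Fin M, 0 < y (.inl (.inl h))) {thr : Fin M → ℝ}
    (hthr : ∀ h, wXM b h - wcr b h ≤ thr h)
    (hside : ∀ h : Fin M, thr h < y (.inl (.inl h)) →
      ∃ c e1 e2 : ℝ, (0 < b h.castSucc * b h.succ → c = 0) ∧ e1 + e2 < 0 ∧
        RSide b zs y h (-((zs (.inl (.inl h))).im / wcr b h)) c e1 e2) (h : Fin M) :
    y (.inl (.inl h)) ≤ thr h := by
  by_contra hcon
  push Not at hcon
  obtain ⟨c, e1, e2, hc, he, hs⟩ := hside h hcon
  rw [← w_sL_right (zs := zs) h ((hthr h).trans_lt hcon)] at hs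
  exact rside_false hb hy h (hpos h) hc he hs

/-- **A right round with an order**: the side inequalities are needed only at the hinge with the
largest value of `y - thr`, weighted by `w`. -/
theorem round_right' (hb : ClassW b) (hy : IsMx (wdat (tyW b) b) (wpar b zs) zs y)
    (hpos : ∀ h : Fin M, 0 < y (.inl (.inl h))) {thr w : Fin M → ℝ} (hw : ∀ h, 0 < w h)
    (hthr : ∀ h, wXM b h - wcr b h ≤ thr h)
    (hside : ∀ h : Fin M, thr h < y (.inl (.inl h)) →
      (∀ j, (y (.inl (.inl j)) - thr j) / w j ≤ (y (.inl (.inl h)) - thr h) / w h) →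
      ∃ c e1 e2 : ℝ, (0 < b h.castSucc * b h.succ → c = 0) ∧ e1 + e2 < 0 ∧
        RSide b zs y h (-((zs (.inl (.inl h))).im / wcr b h)) c e1 e2) (h : Fin M) :
    y (.inl (.inl h)) ≤ thr h := by
  have key := right_phase (f := fun h => (y (.inl (.inl h)) - thr h) / w h) (θ := 0) ?_ h
  · have := (div_le_iff₀ (hw h)).1 key
    linarith only [this]
  · intro i hi hj
    have hi' : thr i < y (.inl (.inl i)) := by
      have := (lt_div_iff₀ (hw i)).1 hi
      linarith only [this]
    obtain ⟨c, e1, e2, hc, he, hs⟩ := hside i hi' hj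
    rw [← w_sL_right (zs := zs) i ((hthr i).trans_lt hi')] at hs
    exact rside_false hb hy i (hpos i) hc he hs

/-- **Exclusion on the flat part**: slope `0`. -/
theorem flat_false_left (hy : IsMx (wdat (tyW b) b) (wpar b zs) zs y) (h : Fin M)
    (h0 : wcl b h ≤ y (.inl (.inl h))) (h1 : y (.inl (.inl h)) < wXM b h - wcr b h)
    (hs : 0 < Sw b zs y h.castSucc 2 0 + Sw b zs y h.succ 0 0) : False := by
  have hp0 : 0 < y (.inl (.inl h)) := (wcl_pos h).trans_le h0
  have h3 := hy.foc_right (std_wpar b zs) h hp0 (by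
    have := wcr_pos (b := b) h
    exact h1.trans (by rw [wXM_eq]; linarith only [this]))
  have h4 := w_sR_flat (zs := zs) h h0 h1
  rw [h4] at h3
  unfold Sw Xw at hs
  linarith only [hs, h3]

theorem flat_false_right (hy : IsMx (wdat (tyW b) b) (wpar b zs) zs y) (h : Fin M)
    (h0 : wcl b h < y (.inl (.inl h))) (h1 : y (.inl (.inl h)) ≤ wXM b h - wcr b h)
    (hs : Sw b zs y h.castSucc 2 0 + Sw b zs y h.succ 0 0 < 0) : False := by
  have hp0 : 0 < y (.inl (.inl h)) := (wcl_pos h).trans h0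
  have h3 := (hy.foc_left (std_wpar b zs) h hp0).2
  have h4 := w_sL_flat (zs := zs) h h0 h1
  rw [h4] at h3
  unfold Sw Xw at hs
  linarith only [hs, h3]

/-! ### the sides in the own frame -/

/-- a local variable in the own frame of the region `i` -/
noncomputable def Yw (b : Fin (M + 1) → ℤ) (zs : DD (tyW b) ⊕ ZZ (tyW b) → ℂ)
    (y : DD (tyW b) ⊕ ZZ (tyW b) → ℝ) (i : Fin (M + 1)) (p : Fin 3) : ℂ :=
  ofr (b i) (Xw b zs y i p)

/-- the variable of a ring in its own frame -/
noncomputable def Zw (b : Fin (M + 1) → ℤ) (zs : DD (tyW b) ⊕ ZZ (tyW b) → ℂ)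
    (y : DD (tyW b) ⊕ ZZ (tyW b) → ℝ) (i : Fin (M + 1)) : ℂ :=
  ofz (b i) (Xw b zs y i 1)

theorem Xw_left (h : Fin M) : Xw b zs y h.succ 0 =
    (wpar b zs).pp zs (.inl (.inl h)) (y (.inl (.inl h))) := loc_left h y

theorem Xw_right (h : Fin M) : Xw b zs y h.castSucc 2 =
    (wpar b zs).pp zs (.inl (.inl h)) (y (.inl (.inl h))) := loc_right h y

theorem Xw_zero : Xw b zs y 0 0 = 0 := xx_left_zero _ _

theorem Xw_last : Xw b zs y (Fin.last M) 2 = 0 := xx_right_last _ _

theorem Yw_zero : Yw b zs y 0 0 = 0 := by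
  unfold Yw
  rw [Xw_zero, ofr_zero]

theorem Yw_last : Yw b zs y (Fin.last M) 2 = 0 := by
  unfold Yw
  rw [Xw_last, ofr_zero]

variable (hb : ClassW b) (h : Fin M) (m : ℝ)
include hb

theorem Sw_left_one (ht : tyW b h.castSucc = .one) : Sw b zs y h.castSucc 2 m =
    S1 1 (ofs (b h.castSucc) m) (Yw b zs y h.castSucc 2) (Yw b zs y h.castSucc 0) := by
  unfold Sw rside Yw
  rw [decide_castSucc, ht]
  exact side_one_two (hb.ne _) _ _ _

theorem Sw_right_one (ht : tyW b h.succ = .one) : Sw b zs y h.succ 0 m =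
    S1 1 (ofs (b h.succ) m) (Yw b zs y h.succ 0) (Yw b zs y h.succ 2) := by
  unfold Sw rside Yw
  rw [decide_succ, ht]
  exact side_one_zero (hb.ne _) _ _ _

theorem Sw_left_two (ht : tyW b h.castSucc = .two) : Sw b zs y h.castSucc 2 m =
    S2 1 (ofs (b h.castSucc) m) (Yw b zs y h.castSucc 2) (Yw b zs y h.castSucc 0) := by
  unfold Sw rside Yw
  rw [decide_castSucc, ht]
  exact side_two_two (hb.ne _) _ _ _

theorem Sw_right_two (ht : tyW b h.succ = .two) : Sw b zs y h.succ 0 m =
    S2 1 (ofs (b h.succ) m) (Yw b zs y h.succ 0) (Yw b zs y h.succ 2) := by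
  unfold Sw rside Yw
  rw [decide_succ, ht]
  exact side_two_zero (hb.ne _) _ _ _

theorem Sw_left_threeL (ht : tyW b h.castSucc = .threeL) : Sw b zs y h.castSucc 2 m =
    S2 1 (ofs (b h.castSucc) m) (Yw b zs y h.castSucc 2) (Yw b zs y h.castSucc 1) := by
  unfold Sw rside Yw
  rw [decide_castSucc, ht]
  exact side_threeL_two (hb.ne _) _ _ _

theorem Sw_right_threeL (ht : tyW b h.succ = .threeL) : Sw b zs y h.succ 0 m =
    S3 1 (ofs (b h.succ) m) (Yw b zs y h.succ 0) (Yw b zs y h.succ 1) := by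
  unfold Sw rside Yw
  rw [decide_succ, ht]
  exact side_threeL_zero (hb.ne _) _ _ _

theorem Sw_left_threeR (ht : tyW b h.castSucc = .threeR) : Sw b zs y h.castSucc 2 m =
    S3 1 (ofs (b h.castSucc) m) (Yw b zs y h.castSucc 2) (Yw b zs y h.castSucc 1) := by
  unfold Sw rside Yw
  rw [decide_castSucc, ht]
  exact side_threeR_two (hb.ne _) _ _ _

omit hb in
theorem Sw_left_ring (ht : tyW b h.castSucc = .ring) : Sw b zs y h.castSucc 2 m =
    S4 (ofs (b h.castSucc) m) (Yw b zs y h.castSucc 2) (Zw b zs y h.castSucc) := by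
  unfold Sw rside Yw Zw
  rw [decide_castSucc, ht]
  exact side_ring_two'' _ _ _

omit hb in
theorem Sw_right_ring (ht : tyW b h.succ = .ring) : Sw b zs y h.succ 0 m =
    S4 (ofs (b h.succ) m) (Yw b zs y h.succ 0) (Zw b zs y h.succ) := by
  unfold Sw rside Yw Zw
  rw [decide_succ, ht]
  exact side_ring_zero'' _ _ _

omit hb in
/-- the type `threeR` occurs only at the left end -/
theorem tyW_threeR {i : Fin (M + 1)} (ht : tyW b i = .threeR) : i = 0 := by
  unfold tyW at ht
  split_ifs at ht with h1 h2 h3 h4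
  exact h4

omit hb in
theorem succ_not_threeR (h : Fin M) : tyW b h.succ ≠ .threeR := fun hc =>
  Fin.succ_ne_zero h (tyW_threeR hc)

/-- regions of type `one` are not at the ends -/
theorem one_inner {i : Fin (M + 1)} (ht : tyW b i = .one) : i ≠ 0 ∧ i ≠ Fin.last M := by
  have h1 : (b i).natAbs = 1 := by
    unfold tyW at ht
    split_ifs at ht with h1
    exact h1
  constructor
  · rintro rfl
    have := hb.first
    omega
  · rintro rfl
    have := hb.last
    omega

end SR

end Pool.Agent.Work.MP_b30479_gt.G2
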