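import Pool.Agent.Work.MP_b30479_gt.G2.WS0R
import Pool.Agent.Work.MP_b30479_gt.G2.WCap22
import Pool.Agent.Work.MP_b30479_gt.G2.S0RKB

/-!
# `ring | 3` at slot `0`, the exceptional case: word level

`A : Adj h i 0 j`, `i` a `3`, `j` a ring, height of the hinge in `[-7/10000, 0]`, the neighbour in the
slot `2` a digit `1` with hinge at most `39/100`. Inputs from the ring: the value of the move to
`28/100` (`hdV`) and the side (`hside`).
-/

namespace Pool.Agent.Work.MP_b30479_gt.G2

open Finset VOL Filter Topology S0R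

namespace SR

variable {M : ℕ} {b : Fin (M + 1) → ℤ} {zs : DD (tyW b) ⊕ ZZ (tyW b) → ℂ}
variable {y : DD (tyW b) ⊕ ZZ (tyW b) → ℝ}
variable {h h' : Fin M} {i j k : Fin (M + 1)}

/-- the windows of the exceptional case -/
theorem exc_KEx (hb : ClassW b) (hL : Loc b zs) (hX : LocX b zs) (hy : Mx b zs y)
    (A : Adj h i 0 j) (A' : Adj h' i 2 k) (hi : clsW b i = .three) (hj : clsW b j = .ring)
    (hk : clsW b k = .one) (hc : y (.inl (.inl h')) ≤ 39 / 100)
    (hT : -(7 / 10000) ≤ ofs (b i) (zs (.inl (.inl h))).im) :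
    S0R.KEx (tW zs (Or.inl hi)) (Yw b zs y i 2) ∧
      ofs (b i) (zs (.inl (.inl h))).im - tW zs (Or.inl hi) ≤ 105 / 1000 := by
  obtain ⟨w1, w2, w3, w4⟩ := mid_window hX A A' hi
  have hre := A'.re (b := b) (zs := zs) (y := y)
  rw [hj, hk] at w1 w2 w3 w4
  simp only [mw] at w1 w2 w3 w4
  have hop := A'.opp hb (Or.inl (by rw [hi]; decide))
  obtain ⟨-, -, h3, h4⟩ := A'.box hb hL
  rw [hi, hk, A'.ss hop] at h3 h4
  simp only [hbox] at h3 h4
  obtain ⟨e1, e2, e3⟩ := (A'.s0r_par2 hi).1 hk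
  have hrh := A'.rh hy
  rw [e1, e2, e3] at hrh
  have hr0 := hrh.re0
  refine ⟨⟨by linarith only [hi, hT, w3], w2, hr0, by rw [hre]; exact hc,
    (MR.RH_im_mem hrh (by norm_num) (by norm_num : (0 : ℝ) ≤ 0) h3 (by linarith only [h4])).1, ?_, ?_⟩,
    by linarith only [hi, w3]⟩
  · rcases le_total (Yw b zs y i 2).re (15 / 100) with h1 | h1
    · rw [MR.RH_left hrh (by norm_num) (by norm_num) (by norm_num) h1]
      have : 0 ≤ (Yw b zs y i 2).re / (15 / 100) := by positivity
      have e : (Yw b zs y i 2).re = (15 / 100) * ((Yw b zs y i 2).re / (15 / 100)) := by ring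
      nlinarith only [hr0, h4]
    · rcases le_total (Yw b zs y i 2).re (65 / 100 - 29 / 100) with h2 | h2
      · rw [MR.RH_flat hrh (by norm_num) (by norm_num) h1 h2]
        linarith only [h4, h2]
      · rw [MR.RH_right hrh (by norm_num) (by norm_num) (by norm_num) h2]
        have : 26 / 29 ≤ (65 / 100 - (Yw b zs y i 2).re) / (29 / 100) := by
          rw [le_div_iff₀ (by norm_num), hre]
          linarith only [hc]
        nlinarith only [hc, hre, h4, h3]
  · have := (hrh.im_low (a := 1145 / 1500) (b := 0) (by norm_num) (by norm_num) le_rfl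
      (by linarith only [h3]) (by linarith only [h4])).1
    linarith only [this]

/-- **Low branch in the exceptional case**: `hdV` is the value of the move of the ring -/
theorem exc_s0_low (hb : ClassW b) (hL : Loc b zs) (hX : LocX b zs) (hy : Mx b zs y)
    (A : Adj h i 0 j) (A' : Adj h' i 2 k) (hi : clsW b i = .three) (hj : clsW b j = .ring)
    (hk : clsW b k = .one) (hc : y (.inl (.inl h')) ≤ 39 / 100)
    (hT : -(7 / 10000) ≤ ofs (b i) (zs (.inl (.inl h))).im)
    (hT' : ofs (b i) (zs (.inl (.inl h))).im ≤ 0)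
    (hdV : -(28 / 10000) ≤ dV b j 2 (OY b zs y j) (pw b zs (b j) h (28 / 100)))
    (hx : 38 / 100 ≤ y (.inl (.inl h))) :
    y (.inl (.inl h)) - 13 / 100 < (OY b zs y i 1).re := by
  by_contra hcon
  push Not at hcon
  obtain ⟨q1, q2, q3⟩ := A.s0r_parZ hi hj
  have hre := A.re (b := b) (zs := zs) (y := y)
  obtain ⟨hK, -⟩ := exc_KEx hb hL hX hy A A' hi hj hk hc hT
  have hv := rh_three hy hi
  obtain ⟨hu, -⟩ := A.s0r_ramp hy q1 q2 q3 (by linarith only [hx] : 30 / 100 < y (.inl (.inl h)))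
  have hx6 : y (.inl (.inl h)) ≤ 60 / 100 := by
    have := (A.rh hy).reM
    rw [hre, q1] at this
    exact this
  obtain ⟨c1, c2⟩ := pw_flat' (zs := zs) (b i) h (c := 28 / 100) (by linarith only [q3])
    (by rw [q1, q2]; norm_num)
  have h1 := x_low (w := Yw b zs y i 2) (by rw [hre]; exact hx) (by rw [hre]; exact hx6) hu hT hT'
    hK hv (by rw [hre]; exact hcon) c1 c2 (vW_re (Or.inl hi) (42 / 100))
    (vW_three hi (by norm_num) (by norm_num))
  have h2 := val_hm hb hy A (c := 28 / 100) (by norm_num) (by rw [q1]; norm_num)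
    (mopt_three hi (c := 42 / 100) (by norm_num) (by norm_num) _) (MOpt.same _ _)
  rw [OV_move hb hi, OV_three hb hi, OY_zero, OY_two] at h2
  unfold dV at hdV
  have h3 : OV b j (Function.update (OY b zs y j) 2 (pw b zs (b j) h (28 / 100))) =
      OV b j (Function.update (OY b zs y j) (Fin.rev 0) (pw b zs (b j) h (28 / 100))) := rfl
  rw [h3] at hdV
  linarith only [hi, hdV, h1, h2]

/-- **The side of the `3` in the exceptional case**, `x` in `(.50, .60]` -/
theorem exc_s0_side (hb : ClassW b) (hL : Loc b zs) (hX : LocX b zs) (hy : Mx b zs y)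
    (hpos : ∀ h : Fin M, 0 < y (.inl (.inl h)))
    (A : Adj h i 0 j) (A' : Adj h' i 2 k) (hi : clsW b i = .three) (hj : clsW b j = .ring)
    (hk : clsW b k = .one) (hc : y (.inl (.inl h')) ≤ 39 / 100)
    (hT : -(7 / 10000) ≤ ofs (b i) (zs (.inl (.inl h))).im)
    (hT' : ofs (b i) (zs (.inl (.inl h))).im ≤ 0)
    (hdV : -(28 / 10000) ≤ dV b j 2 (OY b zs y j) (pw b zs (b j) h (28 / 100)))
    (hx : 1 / 2 ≤ y (.inl (.inl h))) :
    Sw b zs y i 0 (slL b zs y h) < -(9 / 1000) := by
  have hlow := exc_s0_low hb hL hX hy A A' hi hj hk hc hT hT' hdV (by linarith only [hx])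
  obtain ⟨q1, q2, q3⟩ := A.s0r_parZ hi hj
  have hre := A.re (b := b) (zs := zs) (y := y)
  obtain ⟨hK, hs⟩ := exc_KEx hb hL hX hy A A' hi hj hk hc hT
  have hv := rh_three hy hi
  obtain ⟨hu, hsl⟩ := A.s0r_ramp hy q1 q2 q3 (by linarith only [hx] : 30 / 100 < y (.inl (.inl h)))
  have hx6 : y (.inl (.inl h)) ≤ 60 / 100 := by
    have := (A.rh hy).reM
    rw [hre, q1] at this
    exact this
  obtain ⟨m1, m2, r1, r2⟩ := s0r_mid hb hy hpos hi (by linarith only [hx, hlow])
  have hnr : ¬ 75 / 100 < (OY b zs y i 1).re := by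
    intro h1
    refine x_ramp (s := 8 / 10 - (OY b zs y i 1).re) (by rw [hre]; exact hx)
      (by rw [hre]; exact hx6) ?_ ?_ hK (by ring) ?_ (by linarith only [hi, hv, hv.reM]) (by linarith only [h1]) (m2 h1)
      r1
    · rw [hu, hre]
      nlinarith only [hx, hT, hx6]
    · rw [hu, hre]
      nlinarith only [hT', hx6]
    · rw [V2A.mid_right hv h1.le]
      ring
  push Not at hnr
  have hfl := V2A.mid_flat hv (by linarith only [hx, hlow]) hnr
  have hS := m1 (by linarith only [hx, hlow]) hnr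
  rw [A.side_three_zero hb hi, ← OY_mid (Or.inl hi), hsl]
  exact x_side (by rw [hre]; exact hx) (by rw [hre]; exact hx6) hu hT hT' hs hK hfl
    (by rw [hre]; exact hlow.le) hnr hS r1 r2

/-- **The exceptional case**: `y h ≤ 1/2`; `hside` is the side of the ring -/
theorem exc_s0_cap (hb : ClassW b) (hL : Loc b zs) (hX : LocX b zs) (hy : Mx b zs y)
    (hpos : ∀ h : Fin M, 0 < y (.inl (.inl h)))
    (A : Adj h i 0 j) (A' : Adj h' i 2 k) (hi : clsW b i = .three) (hj : clsW b j = .ring)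
    (hk : clsW b k = .one) (hc : y (.inl (.inl h')) ≤ 39 / 100)
    (hT : -(7 / 10000) ≤ ofs (b i) (zs (.inl (.inl h))).im)
    (hT' : ofs (b i) (zs (.inl (.inl h))).im ≤ 0)
    (hdV : 28 / 100 ≤ y (.inl (.inl h)) →
      -(28 / 10000) ≤ dV b j 2 (OY b zs y j) (pw b zs (b j) h (28 / 100)))
    (hside : 1 / 2 < y (.inl (.inl h)) → Sw b zs y j 2 (slL b zs y h) ≤ 9 / 1000) :
    y (.inl (.inl h)) ≤ 1 / 2 := by
  by_contra hcon
  push Not at hcon
  have s1 := exc_s0_side hb hL hX hy hpos A A' hi hj hk hc hT hT' (hdV (by linarith only [hcon])) hcon.le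
  have s2 := hside hcon
  refine rstep_false hb hy (hpos h) (RStep.of_adj A (c := 0) (fun _ => rfl)
    (e1 := Sw b zs y i 0 (slL b zs y h)) (e2 := Sw b zs y j 2 (slL b zs y h))
    (by linarith only [s1, s2]) (by linarith only []) (by
      show Sw b zs y j 2 (slL b zs y h) + 0 * ofs (b j) (slL b zs y h) ≤ _
      linarith only []))

end SR

end Pool.Agent.Work.MP_b30479_gt.G2
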