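import Pool.Agent.Work.MP_b30479_gt.G2.HSadOf
import Pool.Agent.Work.MP_b30479_gt.G2.WMain

/-!
# The saddle point data of a word from the parts of the domination
-/

namespace Pool.Agent.Work.MP_b30479_gt.G2

open Finset VOL Filter Topology

namespace SR

/-- removal of the mirrored paths -/
def ModeOk {M : ℕ} (b : Fin (M + 1) → ℤ) (zs : DD (tyW b) ⊕ ZZ (tyW b) → ℂ) (H : DD (tyW b) → ℝ)
    (nb : Finset (DD (tyW b)) → Finset (DD (tyW b) ⊕ ZZ (tyW b))) : Prop :=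
  ∀ R : Finset (DD (tyW b)), ∀ z p,
    Adm (wdat (tyW b) b) (wparH b H zs) zs R (nb R) z p → p ≠ 0 → ∃ z',
      Adm (wdat (tyW b) b) (wparH b H zs) zs R (nb R) z' 0 ∧
      (wdat (tyW b) b).V z - 2 * Real.pi * ∑ i, p i < (wdat (tyW b) b).V z'

/-- removal of the tails -/
def TailOk {M : ℕ} (b : Fin (M + 1) → ℤ) (zs : DD (tyW b) ⊕ ZZ (tyW b) → ℂ) (H : DD (tyW b) → ℝ)
    (nb : Finset (DD (tyW b)) → Finset (DD (tyW b) ⊕ ZZ (tyW b))) : Prop :=
  ∀ R : Finset (DD (tyW b)), R ≠ ∅ → ∀ z,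
    Adm (wdat (tyW b) b) (wparH b H zs) zs R (nb R) z 0 →
      ∃ (R' : Finset (DD (tyW b))) (z' : DD (tyW b) ⊕ ZZ (tyW b) → ℂ) (p' : DD (tyW b) → ℝ),
        R' ⊂ R ∧ Adm (wdat (tyW b) b) (wparH b H zs) zs R' (nb R') z' p' ∧
        (wdat (tyW b) b).V z < (wdat (tyW b) b).V z' - 2 * Real.pi * ∑ i, p' i

/-- the parts of the domination -/
structure Dom {M : ℕ} (b : Fin (M + 1) → ℤ) (zs : DD (tyW b) ⊕ ZZ (tyW b) → ℂ) : Prop where
  main : MainParts b zs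
  rest : ∃ (H : DD (tyW b) → ℝ) (nb : Finset (DD (tyW b)) → Finset (DD (tyW b) ⊕ ZZ (tyW b))),
    (∀ i, 0 < H i) ∧ nb ∅ = ∅ ∧ (∀ R : Finset (DD (tyW b)), ∀ i ∈ R, .inl i ∈ nb R) ∧
    ModeOk b zs H nb ∧ TailOk b zs H nb

/-- **The saddle point structure of a word** from its location and the parts of the domination. -/
theorem sadl_of_dom {M : ℕ} {b : Fin (M + 1) → ℤ} (hM : 1 ≤ M) (hb : ClassW b) (F : RingFacts)
    {w : ℕ → ℂ} (hw : Sol b w) (L : LocOK b w) (hL : Loc b (zsW b w))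
    (hD : Crit b (zsW b w) → Dom b (zsW b w)) :
    ∃ (P : Par (DD (tyW b))) (nb : Finset (DD (tyW b)) → Finset (DD (tyW b) ⊕ ZZ (tyW b))),
      Sadl (wdat (tyW b) b) P nb (zsW b w) := by
  have hpar : ∀ H : DD (tyW b) → ℝ, (∀ i, 0 < H i) → ∀ i, 0 < (wparH b H (zsW b w)).XM i ∧
      (wparH b H (zsW b w)).XM i ≤ 1 ∧ 0 < (wparH b H (zsW b w)).cl i ∧
      0 < (wparH b H (zsW b w)).cr i ∧
      (wparH b H (zsW b w)).cl i + (wparH b H (zsW b w)).cr i < (wparH b H (zsW b w)).XM i ∧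
      0 < (wparH b H (zsW b w)).hu i ∧ 0 < (wparH b H (zsW b w)).hd i := by
    intro H hH i
    have g := par1_good b i
    refine ⟨?_, (g.2.2.2).le, g.1, g.2.1, g.2.2.1, wparH_pos b hH _ i⟩
    show 0 < (par1 b i).XM
    linarith [g.1, g.2.1, g.2.2.1]
  have hC : Crit b (zsW b w) := by
    by_contra hC
    have hS : Sadl (wdat (tyW b) b) (wparH b 1 (zsW b w)) (fun R => R.image Sum.inl)
        (zsW b w) :=
      sadl_word hb F hw L hM (hpar 1 fun _ => one_pos) (by simp)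
        (fun R i hi => Finset.mem_image_of_mem _ hi) (hL.flatD ·)
        (fun v => ⟨hL.flatZ v, hL.rpos v⟩) (fun h1 h2 _ => absurd ⟨fun k => h1 k, h2⟩ hC)
    exact hC ⟨fun k => hS.inner k, hS.crit⟩
  obtain ⟨h1, H, nb, hH, h2, h3, h4, h5⟩ := hD hC
  refine ⟨wparH b H (zsW b w), nb, sadl_word hb F hw L hM (hpar H hH) h2 h3 (hL.flatD ·)
    (fun v => ⟨hL.flatZ v, hL.rpos v⟩) ?_⟩
  intro _ _ _
  exact h1.allE hH hb hL hC h2 h4 h5

/-- **The saddle point data of a word.** -/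
theorem hsad_of_dom {M : ℕ} {b : Fin (M + 2) → ℤ} (hb : ClassW (M := M + 1) b) (F : RingFacts)
    {w : ℕ → ℂ} (hw : Sol (M := M + 1) b w) (L : LocOK (M := M + 1) b w)
    (hL : Loc (M := M + 1) b (zsW (M := M + 1) b w))
    (hD : Crit (M := M + 1) b (zsW (M := M + 1) b w) →
      Dom (M := M + 1) b (zsW (M := M + 1) b w)) : HSad b := by
  obtain ⟨P, nb, hS⟩ := sadl_of_dom (M := M + 1) (by omega) hb F hw L hL hD
  exact hsad_of hb F hw L hS

end SR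

end Pool.Agent.Work.MP_b30479_gt.G2
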