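import Pool.Agent.Work.MP_b30479_gt.G2.WAdj

/-!
# Rounds: floors and caps of the hinges of a maximiser
-/

namespace Pool.Agent.Work.MP_b30479_gt.G2

open Finset VOL Filter Topology

namespace SR

variable {M : ℕ} {b : Fin (M + 1) → ℤ} {zs : DD (tyW b) ⊕ ZZ (tyW b) → ℂ}
variable {y : DD (tyW b) ⊕ ZZ (tyW b) → ℝ}
variable {h h' : Fin M} {i j j' : Fin (M + 1)} {p : Fin 3}

/-- tables of floors or caps: slot of the hinge in the own region, class of the own region, class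
of the region across the hinge -/
abbrev Tab := Fin 3 → Cl → Cl → ℝ

/-- the hinges of `y` are above the table `T` -/
def Flr (b : Fin (M + 1) → ℤ) (y : DD (tyW b) ⊕ ZZ (tyW b) → ℝ) (T : Tab) : Prop :=
  ∀ {h : Fin M} {i j : Fin (M + 1)} {p : Fin 3}, Adj h i p j →
    T p (clsW b i) (clsW b j) ≤ y (.inl (.inl h))

/-- the hinges of `y` are below the table `T` -/
def Cap (b : Fin (M + 1) → ℤ) (y : DD (tyW b) ⊕ ZZ (tyW b) → ℝ) (T : Tab) : Prop :=
  ∀ {h : Fin M} {i j : Fin (M + 1)} {p : Fin 3}, Adj h i p j →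
    y (.inl (.inl h)) ≤ T p (clsW b i) (clsW b j)

/-- the two hinges of a digit `1` have sum at most `c` -/
def Sum1 (b : Fin (M + 1) → ℤ) (y : DD (tyW b) ⊕ ZZ (tyW b) → ℝ) (c : ℝ) : Prop :=
  ∀ {h h' : Fin M} {i j j' : Fin (M + 1)} {p : Fin 3}, Adj h i p j → Adj h' i p.rev j' →
    clsW b i = .one → y (.inl (.inl h)) + y (.inl (.inl h')) ≤ c

/-- the two hinges of a digit `2` have sum at most `c` -/
def Sum2 (b : Fin (M + 1) → ℤ) (y : DD (tyW b) ⊕ ZZ (tyW b) → ℝ) (c : ℝ) : Prop :=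
  ∀ {h h' : Fin M} {i j j' : Fin (M + 1)} {p : Fin 3}, Adj h i p j → Adj h' i p.rev j' →
    clsW b i = .two → y (.inl (.inl h)) + y (.inl (.inl h')) ≤ c

theorem Flr.mono {T T' : Tab} (H : Flr b y T) (h : ∀ p A B, T' p A B ≤ T p A B) : Flr b y T' :=
  fun A => (h _ _ _).trans (H A)

theorem Cap.mono {T T' : Tab} (H : Cap b y T) (h : ∀ p A B, T p A B ≤ T' p A B) : Cap b y T' :=
  fun A => (H A).trans (h _ _ _)

/-- positive hinges -/
theorem Flr.zero (hpos : ∀ h : Fin M, 0 < y (.inl (.inl h))) : Flr b y fun _ _ _ => 0 :=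
  fun {h} _ _ _ _ => (hpos h).le

end SR

end Pool.Agent.Work.MP_b30479_gt.G2
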