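import Pool.Agent.Work.MP_b30479_gt.G2.WRound
import Pool.Agent.Work.MP_b30479_gt.G2.Rng
import Pool.Agent.Work.MP_b30479_gt.G2.RLev

/-!
# A region of the word in its own frame, at a maximiser
-/

namespace Pool.Agent.Work.MP_b30479_gt.G2

open Finset VOL Filter Topology

/-- the local variables in the own frame -/
noncomputable def own (b : ℤ) (t : Typ) (x : Fin 3 → ℂ) : Fin 3 → ℂ := if 0 < b then x else cj t x

theorem own_zero (b : ℤ) (t : Typ) (x : Fin 3 → ℂ) : own b t x 0 = ofr b (x 0) := by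
  unfold own ofr
  split_ifs
  · rfl
  · exact cj_zero t x

theorem own_two (b : ℤ) (t : Typ) (x : Fin 3 → ℂ) : own b t x 2 = ofr b (x 2) := by
  unfold own ofr
  split_ifs
  · rfl
  · exact cj_two t x

theorem own_one {t : Typ} (ht : t ≠ .ring) (b : ℤ) (x : Fin 3 → ℂ) : own b t x 1 = ofr b (x 1) := by
  unfold own ofr
  split_ifs
  · rfl
  · exact cj_one ht x

theorem own_ring (b : ℤ) (x : Fin 3 → ℂ) : own b .ring x 1 = ofz b (x 1) := by
  unfold own ofz
  split_ifs
  · rfl
  · exact cj_ring x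

/-- the growth rate of a region in its own frame -/
theorem own_V {b : ℤ} (hb : b ≠ 0) {t : Typ} (ht : t.Std) (l r : Bool) (x : Fin 3 → ℂ) :
    (ldat t b l r).V (lx x) = (ldat t (b.natAbs : ℤ) l r).V (lx (own b t x)) := by
  unfold own
  rcases lt_or_gt_of_ne hb with h | h
  · rw [if_neg (by omega)]
    have e : (b.natAbs : ℤ) = -b := by omega
    rw [e, ldat_V_cj hb l r x t ht]
  · rw [if_pos h]
    have e : (b.natAbs : ℤ) = b := by omega
    rw [e]

theorem own_update_one {t : Typ} (ht : t ≠ .ring) (b : ℤ) (x : Fin 3 → ℂ) (c : ℂ) :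
    own b t (Function.update x 1 c) = Function.update (own b t x) 1 (ofr b c) := by
  unfold own ofr
  split_ifs
  · rfl
  · funext p
    fin_cases p <;> simp [cj, ht]

theorem own_update_ring (b : ℤ) (x : Fin 3 → ℂ) (c : ℂ) :
    own b .ring (Function.update x 1 c) = Function.update (own b .ring x) 1 (ofz b c) := by
  unfold own ofz
  split_ifs
  · rfl
  · funext p
    fin_cases p <;> simp [cj]

private theorem th_neg (σ : ℝ) : LT.th (-σ) = LT.th σ := by
  unfold LT.th
  rw [abs_neg]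

theorem th_ofs (b : ℤ) (σ : ℝ) : LT.th (ofs b σ) = LT.th σ := by
  unfold ofs
  split_ifs
  · rfl
  · exact th_neg σ

theorem ofz_zt (b : ℤ) (ρ σ : ℝ) : ofz b (LT.zt ρ σ) = LT.zt ρ (ofs b σ) := by
  rw [ofz_eq]
  have e1 : (LT.zt ρ σ).re = σ := by simp [LT.zt]
  have e2 : (LT.zt ρ σ).im = ρ * LT.th σ := by simp [LT.zt]
  rw [e1, e2]
  unfold LT.zt
  rw [th_ofs]

theorem ofs_ofs (b : ℤ) (c : ℝ) : ofs b (ofs b c) = c := by
  unfold ofs
  split_ifs <;> ring

namespace SR

variable {M : ℕ} {b : Fin (M + 1) → ℤ} {zs : DD (tyW b) ⊕ ZZ (tyW b) → ℂ}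
variable {y : DD (tyW b) ⊕ ZZ (tyW b) → ℝ}

/-- the local variables of the region `i` in its own frame -/
noncomputable def OY (b : Fin (M + 1) → ℤ) (zs : DD (tyW b) ⊕ ZZ (tyW b) → ℂ)
    (y : DD (tyW b) ⊕ ZZ (tyW b) → ℝ) (i : Fin (M + 1)) : Fin 3 → ℂ :=
  own (b i) (tyW b i) (Xw b zs y i)

theorem OY_zero (i : Fin (M + 1)) : OY b zs y i 0 = Yw b zs y i 0 := own_zero _ _ _
theorem OY_two (i : Fin (M + 1)) : OY b zs y i 2 = Yw b zs y i 2 := own_two _ _ _
theorem OY_one {i : Fin (M + 1)} (h : tyW b i ≠ .ring) : OY b zs y i 1 = Yw b zs y i 1 :=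
  own_one h _ _
theorem OY_ring {i : Fin (M + 1)} (h : tyW b i = .ring) : OY b zs y i 1 = Zw b zs y i := by
  unfold OY Zw
  rw [h]
  exact own_ring _ _

/-- the growth rate of the region `i` in its own frame -/
noncomputable def OV (b : Fin (M + 1) → ℤ) (i : Fin (M + 1)) (x : Fin 3 → ℂ) : ℝ :=
  (ldat (tyW b i) ((b i).natAbs : ℤ) (decide (i ≠ 0)) (decide (i ≠ Fin.last M))).V (lx x)

theorem rV_own (hb : ClassW b) (i : Fin (M + 1)) (x : Fin 3 → ℂ) :
    rV (tyW b) b i x = OV b i (own (b i) (tyW b i) x) :=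
  own_V (hb.ne i) (tyW_std b i) _ _ x

/-! ### hinges in the own frame -/

/-- the hinge to the right of the region `h.castSucc` -/
theorem Yw_right (h : Fin M) : Yw b zs y h.castSucc 2 =
    ofr (b h.castSucc) ((wpar b zs).pp zs (.inl (.inl h)) (y (.inl (.inl h)))) := by
  unfold Yw
  rw [Xw_right]

/-- the hinge to the left of the region `h.succ` -/
theorem Yw_left (h : Fin M) : Yw b zs y h.succ 0 =
    ofr (b h.succ) ((wpar b zs).pp zs (.inl (.inl h)) (y (.inl (.inl h)))) := by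
  unfold Yw
  rw [Xw_left]

theorem ofr_pp_re (c : ℤ) (j : DD (tyW b) ⊕ ZZ (tyW b)) (x : ℝ) :
    (ofr c ((wpar b zs).pp zs j x)).re = x := by rw [ofr_re, Par.pp_re]

/-- a hinge on its path in the own frame of an adjacent region with sign `c` -/
theorem hinge_RH (hy : IsMx (wdat (tyW b) b) (wpar b zs) zs y) (h : Fin M) (c : ℤ) :
    RH (ofr c ((wpar b zs).pp zs (.inl (.inl h)) (y (.inl (.inl h)))))
      (ofs c (zs (.inl (.inl h))).im) (wXM b h) (wcl b h) (wcr b h) := by
  refine ⟨?_, ?_, ?_⟩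
  · rw [ofr_pp_re]
    exact hy.nonneg _
  · rw [ofr_pp_re]
    exact hy.1.2 (.inl (.inl h))
  · rw [ofr_pp_re, ofr_im, Par.pp_im]
    exact ofs_mul' c _ _

/-- the box of the hinge seen from the left region -/
theorem Loc.seen_left (hL : Loc b zs) (h : Fin M) :
    (hbox (clsW b h.castSucc) (clsW b h.succ) (ssW b h)).x0 ≤ (zs (.inl (.inl h))).re ∧
    (zs (.inl (.inl h))).re ≤ (hbox (clsW b h.castSucc) (clsW b h.succ) (ssW b h)).x1 ∧
    (hbox (clsW b h.castSucc) (clsW b h.succ) (ssW b h)).t0 ≤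
      ofs (b h.castSucc) (zs (.inl (.inl h))).im ∧
    ofs (b h.castSucc) (zs (.inl (.inl h))).im ≤
      (hbox (clsW b h.castSucc) (clsW b h.succ) (ssW b h)).t1 := by
  have h1 := hL.hinge h
  unfold Box.In at h1
  rw [ofr_re, ofr_im] at h1
  exact h1

/-- the box of the hinge seen from the right region -/
theorem Loc.seen_right (hb : ClassW b) (hL : Loc b zs) (h : Fin M) :
    (hbox (clsW b h.succ) (clsW b h.castSucc) (ssW b h)).x0 ≤ (zs (.inl (.inl h))).re ∧
    (zs (.inl (.inl h))).re ≤ (hbox (clsW b h.succ) (clsW b h.castSucc) (ssW b h)).x1 ∧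
    (hbox (clsW b h.succ) (clsW b h.castSucc) (ssW b h)).t0 ≤
      ofs (b h.succ) (zs (.inl (.inl h))).im ∧
    ofs (b h.succ) (zs (.inl (.inl h))).im ≤
      (hbox (clsW b h.succ) (clsW b h.castSucc) (ssW b h)).t1 := by
  obtain ⟨a1, a2, a3, a4⟩ := hL.seen_left h
  rcases sign_cases hb h with h1 | ⟨h1, c1, c2⟩
  · have hs : ssW b h = false := by
      unfold ssW
      simp only [decide_eq_false_iff_not, not_lt]
      exact h1.le
    rw [hs] at a1 a2 a3 a4 ⊢
    rw [hbox_swap (clsW b h.castSucc) (clsW b h.succ), ofs_opp h1]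
    exact ⟨a1, a2, neg_le_neg a4, neg_le_neg a3⟩
  · rw [c1, c2] at a1 a2 a3 a4
    rw [c1, c2, ofs_same h1]
    exact ⟨a1, a2, a3, a4⟩

/-! ### rings -/

/-- the ring variable in the own frame -/
theorem Zw_eq (v : ZZ (tyW b)) : Zw b zs y v.1 =
    LT.zt (zs (.inr v)).im (ofs (b v.1) (y (.inr v))) := by
  unfold Zw Xw
  rw [loc_ring v.2]
  have e : (wpar b zs).pp zs (.inr v) (y (.inr v)) = LT.zt (zs (.inr v)).im (y (.inr v)) := by
    rw [pp_ring]
    unfold LT.zt
    push_cast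
    ring
  rw [e, ofz_zt]

theorem tyW_ring {i : Fin (M + 1)} (h : (tyW b i).isRing = true) : tyW b i = .ring := by
  cases hc : tyW b i <;> simp [hc, Typ.isRing] at h ⊢

theorem ring_four (hb : ClassW b) {i : Fin (M + 1)} (h : tyW b i = .ring) : 4 ≤ (b i).natAbs := by
  have h0 := hb.ne i
  unfold tyW at h
  split_ifs at h with h1 h2 h3 h4
  omega

/-- **The ring variable of a maximiser maximises the growth rate of its region.** -/
theorem ring_RM (hb : ClassW b) (hL : Loc b zs) (hy : IsMx (wdat (tyW b) b) (wpar b zs) zs y)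
    (v : ZZ (tyW b)) : RM ((b v.1).natAbs : ℝ) (zs (.inr v)).im (Yw b zs y v.1 0)
      (Yw b zs y v.1 2) (ofs (b v.1) (y (.inr v))) := by
  have ht := tyW_ring v.2
  have h4 := ring_four hb ht
  have key := RM_of_ldat (b := ((b v.1).natAbs : ℤ)) (by exact_mod_cast h4)
    (l := decide (v.1 ≠ 0)) (r := decide (v.1 ≠ Fin.last M)) (x := OY b zs y v.1)
    (fun h => by
      have h0 : v.1 = 0 := by simpa using h
      rw [OY_zero, h0, Yw_zero])
    (fun h => by
      have h0 : v.1 = Fin.last M := by simpa using h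
      rw [OY_two, h0, Yw_last])
    (ρ := (zs (.inr v)).im) (σ := ofs (b v.1) (y (.inr v))) (hL.rpos v)
    (by rw [abs_ofs]; exact hy.ring_le v)
    (by rw [OY_ring ht, Zw_eq])
    (fun c hc => by
      have h1 := hy.rng v (c := ofs (b v.1) c) (by
        have := (abs_le.1 (by rw [abs_ofs]; exact hc : |ofs (b v.1) c| ≤ 1 / 2)).1
        linarith) (abs_le.1 (by rw [abs_ofs]; exact hc : |ofs (b v.1) c| ≤ 1 / 2)).2
      rw [rV_own hb, rV_own hb] at h1
      have e2 : (wpar b zs).pp zs (.inr v) (ofs (b v.1) c) =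
          LT.zt (zs (.inr v)).im (ofs (b v.1) c) := by
        rw [pp_ring]
        unfold LT.zt
        push_cast
        ring
      rw [e2] at h1
      have e3 : own (b v.1) (tyW b v.1) (Function.update (xx (tyW b) v.1 ((wpar b zs).pth zs y)) 1
          (LT.zt (zs (.inr v)).im (ofs (b v.1) c))) =
          Function.update (OY b zs y v.1) 1 (LT.zt (zs (.inr v)).im c) := by
        unfold OY Xw
        rw [ht, own_update_ring, ofz_zt, ofs_ofs]
      have e4 : own (b v.1) (tyW b v.1) (xx (tyW b) v.1 ((wpar b zs).pth zs y)) =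
          OY b zs y v.1 := rfl
      rw [e3, e4] at h1
      unfold OV at h1
      rw [ht] at h1
      exact h1)
  rw [OY_zero, OY_two] at key
  have e : (((b v.1).natAbs : ℤ) : ℝ) = ((b v.1).natAbs : ℝ) := Int.cast_natCast _
  rw [e] at key
  exact key

/-! ### inner discrete variables -/

theorem mid_not_ring {i : Fin (M + 1)} (h : (tyW b i).isMid = true) : tyW b i ≠ .ring := by
  intro hc
  rw [hc] at h
  simp [Typ.isMid] at h

/-- **The inner variable of a maximiser maximises the growth rate of its region** -/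
theorem mid_max (hb : ClassW b) (hy : IsMx (wdat (tyW b) b) (wpar b zs) zs y)
    (m : {i : Fin (M + 1) // (tyW b i).isMid = true}) {c : ℝ} (h0 : 0 ≤ c)
    (h1 : c ≤ (wpar b zs).XM (.inr m)) :
    OV b m.1 (Function.update (OY b zs y m.1) 1
      (ofr (b m.1) ((wpar b zs).pp zs (.inl (.inr m)) c))) ≤ OV b m.1 (OY b zs y m.1) := by
  have h2 := hy.mid m h0 h1
  rw [rV_own hb, rV_own hb, own_update_one (mid_not_ring m.2)] at h2
  exact h2

theorem Yw_mid (m : {i : Fin (M + 1) // (tyW b i).isMid = true}) : Yw b zs y m.1 1 =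
    ofr (b m.1) ((wpar b zs).pp zs (.inl (.inr m)) (y (.inl (.inr m)))) := by
  unfold Yw Xw
  rw [loc_mid m.2]

/-- the inner variable on its path in the own frame -/
theorem mid_RH (hy : IsMx (wdat (tyW b) b) (wpar b zs) zs y)
    (m : {i : Fin (M + 1) // (tyW b i).isMid = true}) :
    RH (Yw b zs y m.1 1) (ofs (b m.1) (zs (.inl (.inr m))).im)
      ((wpar b zs).XM (.inr m)) ((wpar b zs).cl (.inr m)) ((wpar b zs).cr (.inr m)) := by
  rw [Yw_mid]
  refine ⟨?_, ?_, ?_⟩
  · rw [ofr_pp_re]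
    exact hy.nonneg _
  · rw [ofr_pp_re]
    exact hy.1.2 (.inl (.inr m))
  · rw [ofr_pp_re, ofr_im, Par.pp_im]
    exact ofs_mul' _ _ _

end SR

end Pool.Agent.Work.MP_b30479_gt.G2
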