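import Pool.Agent.Work.MP_b30479_gt.G2.InvC

/-!
# Every alternating word is equivalent to a word of the class
-/

namespace Pool.Agent.Work.MP_b30479_gt.G2

open Finset
open Pool.Agent.Work.MP_b30479_gt.LT

/-! ### the class -/

/-- The class of words: nonzero digits, the first and the last at least `2` in absolute value,
neighbours of equal sign both at least `4`, digits `±1` with at least one neighbour `≤ 2`. -/
structure ClassW {M : ℕ} (b : Fin (M + 1) → ℤ) : Prop where
  ne : ∀ i, b i ≠ 0
  first : 2 ≤ (b 0).natAbs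
  last : 2 ≤ (b (Fin.last M)).natAbs
  same : ∀ j : Fin M, 0 < b j.castSucc * b j.succ →
    4 ≤ (b j.castSucc).natAbs ∧ 4 ≤ (b j.succ).natAbs
  one : ∀ (i : ℕ) (h : i + 2 < M + 1), (b ⟨i + 1, by omega⟩).natAbs = 1 →
    (b ⟨i, by omega⟩).natAbs ≤ 2 ∨ (b ⟨i + 2, h⟩).natAbs ≤ 2

/-! ### lists -/

/-- alternating signs -/
def AL : List ℤ → Prop
  | [] => True
  | [x] => x ≠ 0
  | x :: y :: l => x * y < 0 ∧ AL (y :: l)

/-- the last digit -/
def lst : List ℤ → ℤ
  | [] => 0
  | [x] => x
  | _ :: y :: l => lst (y :: l)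

/-- the conditions on pairs and triples -/
def LW : List ℤ → Prop
  | [] => True
  | [x] => x ≠ 0
  | [x, y] => x ≠ 0 ∧ (0 < x * y → 4 ≤ x.natAbs ∧ 4 ≤ y.natAbs) ∧ LW [y]
  | x :: y :: z :: l => x ≠ 0 ∧ (0 < x * y → 4 ≤ x.natAbs ∧ 4 ≤ y.natAbs) ∧
      (y.natAbs = 1 → x.natAbs ≤ 2 ∨ z.natAbs ≤ 2) ∧ LW (y :: z :: l)

/-- the merging of the digits `±1` between two digits at least `3` -/
def mg : List ℤ → List ℤ
  | [] => []
  | [x] => [x]
  | [x, y] => [x, y]
  | x :: y :: z :: l =>
    if y.natAbs = 1 ∧ 3 ≤ x.natAbs ∧ 3 ≤ z.natAbs then (x + x.sign) :: mg ((z + z.sign) :: l)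
    else x :: mg (y :: z :: l)
termination_by l => l.length

lemma mg_pos {x y z : ℤ} {l : List ℤ} (h : y.natAbs = 1 ∧ 3 ≤ x.natAbs ∧ 3 ≤ z.natAbs) :
    mg (x :: y :: z :: l) = (x + x.sign) :: mg ((z + z.sign) :: l) := by
  rw [mg, if_pos h]

lemma mg_neg {x y z : ℤ} {l : List ℤ} (h : ¬ (y.natAbs = 1 ∧ 3 ≤ x.natAbs ∧ 3 ≤ z.natAbs)) :
    mg (x :: y :: z :: l) = x :: mg (y :: z :: l) := by
  rw [mg, if_neg h]

lemma AL.head {x : ℤ} {l : List ℤ} (h : AL (x :: l)) : x ≠ 0 := by
  cases l with
  | nil => exact h
  | cons y l =>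
    rintro rfl
    have := h.1
    simp at this

lemma AL.tail {x : ℤ} {l : List ℤ} (h : AL (x :: l)) : AL l := by
  cases l with
  | nil => trivial
  | cons y l => exact h.2

lemma sign_abs {z : ℤ} (hz : z ≠ 0) :
    (z + z.sign).natAbs = z.natAbs + 1 ∧ (z + z.sign).sign = z.sign := by
  rcases lt_trichotomy z 0 with h | h | h
  · rw [Int.sign_eq_neg_one_of_neg h]
    refine ⟨by omega, ?_⟩
    rw [Int.sign_eq_neg_one_of_neg (by omega)]
  · exact absurd h hz
  · rw [Int.sign_eq_one_of_pos h]
    refine ⟨by omega, ?_⟩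
    rw [Int.sign_eq_one_of_pos (by omega)]

lemma mul_neg_iff' {x y : ℤ} : x * y < 0 ↔ (0 < x ∧ y < 0) ∨ (x < 0 ∧ 0 < y) := mul_neg_iff

lemma AL_sign {z : ℤ} {l : List ℤ} (h : AL (z :: l)) : AL ((z + z.sign) :: l) := by
  have hz := h.head
  cases l with
  | nil =>
    show z + z.sign ≠ 0
    intro h0
    have := (sign_abs hz).1
    rw [h0] at this
    simp at this
  | cons y l =>
    refine ⟨?_, h.2⟩
    have h1 := h.1
    rw [mul_neg_iff'] at h1 ⊢
    rcases h1 with ⟨a, b⟩ | ⟨a, b⟩
    · rw [Int.sign_eq_one_of_pos a]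
      left
      omega
    · rw [Int.sign_eq_neg_one_of_neg a]
      right
      omega

/-- the properties of the merged list -/
structure Spec (x : ℤ) (l m : List ℤ) : Prop where
  eqv : Eqv (x :: l) m
  lw : LW m
  head : ∃ r, m = x :: r ∨ (3 ≤ x.natAbs ∧ m = (x + x.sign) :: r)
  last : 2 ≤ (lst (x :: l)).natAbs → 2 ≤ (lst m).natAbs
  len : 2 ≤ (x :: l).length → 2 ≤ m.length

theorem mg_spec : ∀ (n : ℕ) (x : ℤ) (l : List ℤ), l.length ≤ n → AL (x :: l) →
    Spec x l (mg (x :: l)) := by
  intro n
  induction n with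
  | zero =>
    intro x l hl h
    have : l = [] := List.length_eq_zero_iff.mp (by omega)
    subst this
    refine ⟨?_, ?_, ?_, ?_, ?_⟩
    · rw [mg]
      exact Eqv.refl _
    · rw [mg]
      exact h
    · exact ⟨[], Or.inl (by rw [mg])⟩
    · rw [mg]
      exact id
    · intro h
      simp at h
  | succ n ih =>
    intro x l hl h
    match l, hl, h with
    | [], _, h =>
      exact ih x [] (by simp) h
    | [y], _, h =>
      refine ⟨?_, ?_, ?_, ?_, ?_⟩
      · rw [mg]
        exact Eqv.refl _
      · rw [mg]
        exact ⟨h.head, fun h0 => absurd h.1 (by omega), h.2⟩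
      · exact ⟨[y], Or.inl (by rw [mg])⟩
      · rw [mg]
        exact id
      · rw [mg]
        exact id
    | y :: z :: l, hl, h =>
      simp only [List.length_cons] at hl
      by_cases hc : y.natAbs = 1 ∧ 3 ≤ x.natAbs ∧ 3 ≤ z.natAbs
      · have hz : AL (z :: l) := h.tail.tail
        have hx0 := h.head
        have hz0 := hz.head
        have hs := ih (z + z.sign) l (by omega) (AL_sign hz)
        have e1 := mg_pos (l := l) hc
        have ax := sign_abs hx0
        have az := sign_abs hz0
        -- the equivalence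
        have hE : Eqv (x :: y :: z :: l) ((x + x.sign) :: (z + z.sign) :: l) := by
          have h1 := h.1
          have h2 := h.2.1
          rw [mul_neg_iff'] at h1 h2
          rcases h1 with ⟨a, b⟩ | ⟨a, b⟩
          · have hy : y = -1 := by omega
            have hz1 : 0 < z := by omega
            rw [Int.sign_eq_one_of_pos a, Int.sign_eq_one_of_pos hz1, hy]
            exact eqv_neg_one x z l
          · have hy : y = 1 := by omega
            have hz1 : z < 0 := by omega
            rw [Int.sign_eq_neg_one_of_neg a, Int.sign_eq_neg_one_of_neg hz1, hy]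
            exact eqv_one x z l
        have h4 : ∀ w r, mg ((z + z.sign) :: l) = w :: r → 4 ≤ w.natAbs := by
          intro w r hw
          obtain ⟨r', h5 | h5⟩ := hs.head
          · rw [hw] at h5
            injection h5 with h6 h7
            subst h6
            omega
          · obtain ⟨h5a, h5⟩ := h5
            rw [hw] at h5
            injection h5 with h6 h7
            have := (sign_abs (z := z + z.sign) (by omega)).1
            rw [← h6] at this
            omega
        refine ⟨?_, ?_, ?_, ?_, ?_⟩
        · rw [e1]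
          exact hE.trans (hs.eqv.cons _)
        · rw [e1]
          have hlw := hs.lw
          match hm : mg ((z + z.sign) :: l), h4, hlw with
          | [], _, _ =>
            show x + x.sign ≠ 0
            omega
          | [w], h4, hlw =>
            exact ⟨by omega, fun _ => ⟨by omega, h4 w [] rfl⟩, hlw⟩
          | w :: v :: r, h4, hlw =>
            have := h4 w (v :: r) rfl
            exact ⟨by omega, fun _ => ⟨by omega, this⟩, fun h1 => by omega, hlw⟩
        · exact ⟨_, Or.inr ⟨hc.2.1, e1⟩⟩
        · intro h5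
          rw [e1]
          have h6 : 2 ≤ (lst ((z + z.sign) :: l)).natAbs := by
            cases l with
            | nil =>
              show 2 ≤ (z + z.sign).natAbs
              omega
            | cons w l => exact h5
          have h7 := hs.last h6
          match hm : mg ((z + z.sign) :: l), h7 with
          | [], h7 => simp [lst] at h7
          | w :: r, h7 => exact h7
        · intro _
          rw [e1]
          obtain ⟨r, h5 | h5⟩ := hs.head
          · rw [h5]
            simp
          · rw [h5.2]
            simp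
      · have e1 := mg_neg (l := l) hc
        have hyz : AL (y :: z :: l) := h.2
        have hs := ih y (z :: l) (by simpa using (by omega : l.length + 1 ≤ n)) hyz
        refine ⟨?_, ?_, ?_, ?_, ?_⟩
        · rw [e1]
          exact hs.eqv.cons _
        · rw [e1]
          have hlw := hs.lw
          have hx0 := h.head
          have hxy := h.1
          -- the head of the merged tail
          obtain ⟨r, h5⟩ := hs.head
          rcases h5 with h5 | ⟨h5a, h5⟩
          · rw [h5] at hlw ⊢
            cases r with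
            | nil => exact ⟨hx0, fun h0 => absurd hxy (by omega), hlw⟩
            | cons v r =>
              refine ⟨hx0, fun h0 => absurd hxy (by omega), fun hy1 => ?_, hlw⟩
              by_contra hcon
              push Not at hcon
              have hz2 : z.natAbs ≤ 2 := by
                by_contra hz3
                exact hc ⟨hy1, by omega, by omega⟩
              -- the digit after `y` in the merged list is `z`
              have h6 : mg (y :: z :: l) = y :: mg (z :: l) := by
                cases l with
                | nil =>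
                  rw [mg, mg]
                | cons w l =>
                  exact mg_neg (by omega)
              rw [h6] at h5
              injection h5 with h7 h8
              have hz := ih z l (by omega) hyz.tail
              obtain ⟨r', h9 | h9⟩ := hz.head
              · rw [h9] at h8
                injection h8 with h10 h11
                subst h10
                omega
              · omega
          · rw [h5] at hlw ⊢
            have hy0 := hyz.head
            have ay := sign_abs hy0
            have hneg : x * (y + y.sign) < 0 := by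
              rw [mul_neg_iff'] at hxy ⊢
              rcases hxy with ⟨a, b⟩ | ⟨a, b⟩
              · rw [Int.sign_eq_neg_one_of_neg b]
                left
                omega
              · rw [Int.sign_eq_one_of_pos b]
                right
                omega
            cases r with
            | nil => exact ⟨hx0, fun h0 => absurd hneg (by omega), hlw⟩
            | cons v r =>
              exact ⟨hx0, fun h0 => absurd hneg (by omega), fun h1 => by omega, hlw⟩
        · exact ⟨_, Or.inl e1⟩
        · intro h5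
          rw [e1]
          have h7 := hs.last h5
          match hm : mg (y :: z :: l), h7 with
          | [], h7 => simp [lst] at h7
          | w :: r, h7 => exact h7
        · intro _
          rw [e1]
          obtain ⟨r, h5 | h5⟩ := hs.head
          · rw [h5]
            simp
          · rw [h5.2]
            simp

/-! ### functions on `Fin` -/

lemma AL_ofFn : ∀ (M : ℕ) (b : Fin (M + 1) → ℤ), (∀ i, b i ≠ 0) →
    (∀ j : Fin M, b j.castSucc * b j.succ < 0) → AL (List.ofFn b) := by
  intro M
  induction M with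
  | zero =>
    intro b hb _
    simpa [AL] using hb 0
  | succ M ih =>
    intro b hb h
    have e1 : List.ofFn b = b 0 :: List.ofFn (fun i => b i.succ) := List.ofFn_succ
    have e2 : List.ofFn (fun i : Fin (M + 1) => b i.succ) =
      b (Fin.succ 0) :: List.ofFn (fun i : Fin M => b i.succ.succ) := List.ofFn_succ
    have h2 := ih (fun i => b i.succ) (fun i => hb i.succ) (fun j => h j.succ)
    rw [e1, e2]
    rw [e2] at h2
    exact ⟨h 0, h2⟩

lemma lst_ofFn : ∀ (M : ℕ) (b : Fin (M + 1) → ℤ), lst (List.ofFn b) = b (Fin.last M) := by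
  intro M
  induction M with
  | zero =>
    intro b
    simp [lst]
  | succ M ih =>
    intro b
    have e1 : List.ofFn b = b 0 :: List.ofFn (fun i => b i.succ) := List.ofFn_succ
    have e2 : List.ofFn (fun i : Fin (M + 1) => b i.succ) =
      b (Fin.succ 0) :: List.ofFn (fun i : Fin M => b i.succ.succ) := List.ofFn_succ
    have h2 := ih (fun i => b i.succ)
    rw [e1, e2]
    rw [e2] at h2
    exact h2

lemma LW_ofFn : ∀ (M : ℕ) (b : Fin (M + 1) → ℤ), LW (List.ofFn b) →
    (∀ i, b i ≠ 0) ∧ (∀ j : Fin M, 0 < b j.castSucc * b j.succ →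
      4 ≤ (b j.castSucc).natAbs ∧ 4 ≤ (b j.succ).natAbs) ∧
    (∀ (i : ℕ) (h : i + 2 < M + 1), (b ⟨i + 1, by omega⟩).natAbs = 1 →
      (b ⟨i, by omega⟩).natAbs ≤ 2 ∨ (b ⟨i + 2, h⟩).natAbs ≤ 2) := by
  intro M
  induction M with
  | zero =>
    intro b h
    have h' : b 0 ≠ 0 := by simpa [LW] using h
    refine ⟨fun i => ?_, fun j => j.elim0, fun i h => by omega⟩
    rw [show i = 0 by omega]
    exact h'
  | succ M ih =>
    intro b h
    have e1 : List.ofFn b = b 0 :: List.ofFn (fun i => b i.succ) := List.ofFn_succ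
    have e2 : List.ofFn (fun i : Fin (M + 1) => b i.succ) =
      b (Fin.succ 0) :: List.ofFn (fun i : Fin M => b i.succ.succ) := List.ofFn_succ
    have h3 : b 0 ≠ 0 ∧ (0 < b 0 * b (Fin.succ 0) →
        4 ≤ (b 0).natAbs ∧ 4 ≤ (b (Fin.succ 0)).natAbs) ∧
        LW (List.ofFn (fun i : Fin (M + 1) => b i.succ)) ∧
        (∀ (h : 2 < M + 1 + 1), (b ⟨1, by omega⟩).natAbs = 1 →
          (b ⟨0, by omega⟩).natAbs ≤ 2 ∨ (b ⟨2, h⟩).natAbs ≤ 2) := by
      rw [e1, e2] at h
      cases M with
      | zero =>
        rw [e2]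
        simp only [List.ofFn_zero] at h ⊢
        exact ⟨h.1, h.2.1, h.2.2, fun h => by omega⟩
      | succ M =>
        have e3 : List.ofFn (fun i : Fin (M + 1) => b i.succ.succ) =
          b (Fin.succ (Fin.succ 0)) :: List.ofFn (fun i : Fin M => b i.succ.succ.succ) :=
          List.ofFn_succ
        rw [e2]
        rw [e3] at h ⊢
        exact ⟨h.1, h.2.1, h.2.2.2, fun _ => h.2.2.1⟩
    obtain ⟨h4, h5, h6, h7⟩ := h3
    obtain ⟨k1, k2, k3⟩ := ih _ h6
    refine ⟨fun i => ?_, fun j => ?_, fun i hi => ?_⟩
    · refine Fin.cases h4 (fun i => k1 i) i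
    · refine Fin.cases h5 (fun j => ?_) j
      have := k2 j
      exact this
    · cases i with
      | zero => exact h7 hi
      | succ i => exact k3 i (by omega)

/-- the alternating word of a continued fraction -/
def altf {M : ℕ} (a : Fin (M + 1) → ℕ) : Fin (M + 1) → ℤ := fun i => (-1) ^ (i : ℕ) * a i

/-- Every alternating word is equivalent to a word of the class. -/
theorem words {M : ℕ} (hM : 1 ≤ M) (a : Fin (M + 1) → ℕ) (ha : ∀ i, 1 ≤ a i) (h0 : 2 ≤ a 0)
    (hl : 2 ≤ a (Fin.last M)) :
    ∃ (K : ℕ) (b : Fin (K + 1) → ℤ), 1 ≤ K ∧ ClassW b ∧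
      Eqv (List.ofFn (altf a)) (List.ofFn b) := by
  have e1 : List.ofFn (altf a) = altf a 0 :: List.ofFn (fun i => altf a i.succ) := List.ofFn_succ
  have hne : ∀ i, altf a i ≠ 0 := by
    intro i
    have := ha i
    unfold altf
    exact mul_ne_zero (pow_ne_zero _ (by norm_num)) (by omega)
  have hAL : AL (List.ofFn (altf a)) := by
    refine AL_ofFn M _ hne fun j => ?_
    have h1 : (0 : ℤ) < a j.castSucc := by exact_mod_cast ha _
    have h2 : (0 : ℤ) < a j.succ := by exact_mod_cast ha _
    unfold altf
    rw [Fin.val_castSucc, Fin.val_succ, pow_succ]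
    have h3 : ((-1 : ℤ) ^ (j : ℕ)) * (-1) ^ (j : ℕ) = 1 := by rw [← mul_pow]; simp
    have h4 : (-1 : ℤ) ^ (j : ℕ) * a j.castSucc * ((-1) ^ (j : ℕ) * -1 * a j.succ) =
        -(a j.castSucc * a j.succ) := by
      linear_combination -(a j.castSucc * a j.succ : ℤ) * h3
    rw [h4]
    have := mul_pos h1 h2
    omega
  have habs : ∀ i, (altf a i).natAbs = a i := by
    intro i
    unfold altf
    rw [Int.natAbs_mul, Int.natAbs_pow]
    simp
  have hs := mg_spec (List.ofFn (fun i => altf a i.succ)).length (altf a 0)
    (List.ofFn (fun i => altf a i.succ)) le_rfl (by rw [← e1]; exact hAL)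
  rw [← e1] at hs
  set m := mg (List.ofFn (altf a)) with hm
  have hlen : 2 ≤ m.length := hs.len (by rw [← e1, List.length_ofFn]; omega)
  obtain ⟨K, hK⟩ : ∃ K, m.length = K + 1 := ⟨m.length - 1, by omega⟩
  obtain ⟨b, hb⟩ : ∃ b : Fin (K + 1) → ℤ, m = List.ofFn b := by
    refine ⟨fun i => m.get (i.cast hK.symm), ?_⟩
    apply List.ext_getElem
    · rw [List.length_ofFn, hK]
    · intro i h1 h2
      rw [List.getElem_ofFn]
      rfl
  have hlast := hs.last (by rw [← e1, lst_ofFn, habs]; exact hl)
  rw [hb] at hs hlast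
  rw [lst_ofFn] at hlast
  obtain ⟨k1, k2, k3⟩ := LW_ofFn K b hs.lw
  refine ⟨K, b, by omega, ⟨k1, ?_, hlast, k2, k3⟩, ?_⟩
  · have e2 : List.ofFn b = b 0 :: List.ofFn (fun i => b i.succ) := List.ofFn_succ
    have h00 := habs 0
    obtain ⟨r, h5 | ⟨h5a, h5⟩⟩ := hs.head
    · rw [e2] at h5
      injection h5 with h6 h7
      omega
    · rw [e2] at h5
      injection h5 with h6 h7
      have := (sign_abs (hne 0)).1
      omega
  · have := hs.eqv
    rw [← e1] at this
    exact this

/-- the statement for the invariants -/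
theorem words_kashaev {M : ℕ} (hM : 1 ≤ M) (a : Fin (M + 1) → ℕ) (ha : ∀ i, 1 ≤ a i)
    (h0 : 2 ≤ a 0) (hl : 2 ≤ a (Fin.last M)) :
    ∃ (K : ℕ) (b : Fin (K + 1) → ℤ), 1 ≤ K ∧ ClassW b ∧ ∀ δ,
      (IsOrientation (ltWord (List.ofFn (altf a))) δ ↔ IsOrientation (ltWord (List.ofFn b)) δ) ∧
      (IsOrientation (ltWord (List.ofFn (altf a))) δ → ∀ s : ℕ, 1 ≤ s →
        twoBridgeKashaev (ltWord (List.ofFn (altf a))) δ (2 * s + 1) =
          twoBridgeKashaev (ltWord (List.ofFn b)) δ (2 * s + 1)) := by
  obtain ⟨K, b, h1, h2, h3⟩ := words hM a ha h0 hl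
  exact ⟨K, b, h1, h2, fun δ => h3.kashaev (by simp) (by simp) δ⟩

end Pool.Agent.Work.MP_b30479_gt.G2
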