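import Pool.Agent.Work.MP_b30479_gt.LT.Rogers

/-!
# The dilogarithm: derivative, reflection

`li2 z = ∑ z^k/k²` on the unit disc, `li2' z = -Log (1-z) / z` off `[1,∞)`, and Euler's reflection
`li2 z + li2 (1-z) + Log z Log (1-z) = π²/6` for ALL `z ≠ 0, 1` (on `(1,∞)` with the value of the
integral, that is with `Log (1-z) = log (z-1) + πi`).
-/

namespace Pool.Agent.Work.MP_b30479_gt.G2

open Filter Topology MeasureTheory
open Pool.Agent.Work.MP_b30479_gt.LT (li2 li2_ee ee log_one_sub_ee)

namespace XR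

private lemma summable_inv2 : Summable fun k : ℕ => (1 : ℝ) / ((k : ℝ) + 1) ^ 2 := by
  have := (summable_nat_add_iff 1).2 (Real.summable_one_div_nat_pow.2 one_lt_two)
  simpa using this

private lemma norm_kp (k : ℕ) : ‖(k : ℂ) + 1‖ = (k : ℝ) + 1 := by
  have := Complex.norm_natCast (k + 1)
  push_cast at this
  exact this

/-- the dilogarithm series -/
noncomputable def dl (z : ℂ) : ℂ := ∑' k : ℕ, z ^ (k + 1) / ((k : ℂ) + 1) ^ 2

/-- the series of `-log (1-z) / z` -/
noncomputable def S (z : ℂ) : ℂ := ∑' k : ℕ, z ^ k / ((k : ℂ) + 1)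

private lemma norm_dl_le {z : ℂ} (hz : ‖z‖ ≤ 1) (k : ℕ) :
    ‖z ^ (k + 1) / ((k : ℂ) + 1) ^ 2‖ ≤ 1 / ((k : ℝ) + 1) ^ 2 := by
  rw [norm_div, norm_pow, norm_pow, norm_kp]
  gcongr
  exact pow_le_one₀ (norm_nonneg _) hz

private lemma norm_S_le {z : ℂ} {r : ℝ} (hz : ‖z‖ ≤ r) (k : ℕ) :
    ‖z ^ k / ((k : ℂ) + 1)‖ ≤ r ^ k := by
  rw [norm_div, norm_pow, norm_kp]
  have h1 : (1 : ℝ) ≤ (k : ℝ) + 1 := by
    have : (0 : ℝ) ≤ k := Nat.cast_nonneg k
    linarith only []
  exact (div_le_self (by positivity) h1).trans (pow_le_pow_left₀ (norm_nonneg _) hz k)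

lemma continuousOn_dl : ContinuousOn dl {z | ‖z‖ ≤ 1} := by
  unfold dl
  refine continuousOn_tsum (u := fun k : ℕ => (1 : ℝ) / ((k : ℝ) + 1) ^ 2) ?_ summable_inv2 ?_
  · intro k
    apply Continuous.continuousOn
    fun_prop
  · intro k z hz
    exact norm_dl_le hz k

lemma continuousOn_S {r : ℝ} (hr0 : 0 ≤ r) (hr : r < 1) : ContinuousOn S {z | ‖z‖ ≤ r} := by
  unfold S
  refine continuousOn_tsum (u := fun k : ℕ => r ^ k) ?_ (summable_geometric_of_lt_one hr0 hr) ?_
  · intro k
    apply Continuous.continuousOn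
    fun_prop
  · intro k z hz
    exact norm_S_le hz k

lemma mul_S {z : ℂ} (hz : ‖z‖ < 1) : z * S z = -Complex.log (1 - z) := by
  have h := Complex.hasSum_taylorSeries_neg_log hz
  have h2 := (hasSum_nat_add_iff' 1).2 h
  simp only [Finset.sum_range_one, CharP.cast_eq_zero, div_zero, sub_zero, Nat.cast_add,
    Nat.cast_one] at h2
  rw [← h2.tsum_eq]
  unfold S
  rw [← tsum_mul_left]
  congr 1
  ext k
  rw [pow_succ]
  ring

lemma hasDerivAt_dl {z : ℂ} (hz : ‖z‖ < 1) : HasDerivAt dl (S z) z := by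
  obtain ⟨r, hr1, hr2⟩ := exists_between hz
  have hr0 : 0 ≤ r := (norm_nonneg z).trans hr1.le
  set D : Set ℂ := Metric.ball 0 r with hD
  have hs : Summable fun k : ℕ => r ^ k := summable_geometric_of_lt_one hr0 hr2
  have hd : ∀ (k : ℕ), ∀ y ∈ D, HasDerivAt (fun y : ℂ => y ^ (k + 1) / ((k : ℂ) + 1) ^ 2)
      (y ^ k / ((k : ℂ) + 1)) y := by
    intro k y _
    have h1 := ((hasDerivAt_id y).pow (k + 1)).div_const (((k : ℂ) + 1) ^ 2)
    refine h1.congr_deriv ?_
    have hk : ((k : ℂ) + 1) ≠ 0 := by exact_mod_cast Nat.succ_ne_zero k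
    simp only [Nat.add_sub_cancel, Nat.cast_add, Nat.cast_one, id]
    field_simp
  have hb : ∀ (k : ℕ), ∀ y ∈ D, ‖y ^ k / ((k : ℂ) + 1)‖ ≤ r ^ k := by
    intro k y hy
    exact norm_S_le (mem_ball_zero_iff.1 hy).le k
  have hzD : z ∈ D := mem_ball_zero_iff.2 hr1
  exact hasDerivAt_tsum_of_isPreconnected hs Metric.isOpen_ball
    (convex_ball (0 : ℂ) r).isPreconnected hd hb hzD
    (Summable.of_norm_bounded summable_inv2 (norm_dl_le hz.le)) hzD

lemma dl_zero : dl 0 = 0 := by
  unfold dl
  simp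

lemma dl_one : dl 1 = (Real.pi ^ 2 / 6 : ℂ) := by
  have h0 : HasSum (fun k : ℕ => (1 : ℝ) / ((k : ℝ) + 1) ^ 2) (Real.pi ^ 2 / 6) := by
    have h1 := (hasSum_nat_add_iff' 1).2 hasSum_zeta_two
    simpa using h1
  have h9 := (Complex.hasSum_ofReal.mpr h0).tsum_eq
  unfold dl
  push_cast at h9
  simpa using h9

private lemma hasDerivAt_ofReal' (t : ℝ) : HasDerivAt (fun t : ℝ => ((t : ℝ) : ℂ)) 1 t :=
  Complex.ofRealCLM.hasDerivAt

/-- the dilogarithm on the disc -/
lemma li2_eq_dl {z : ℂ} (hz : ‖z‖ < 1) : li2 z = dl z := by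
  have hd : ∀ t ∈ Set.uIcc (0 : ℝ) 1, HasDerivAt (fun t : ℝ => dl (t * z)) (S (t * z) * z) t := by
    intro t ht
    rw [Set.uIcc_of_le zero_le_one] at ht
    have h1 : ‖(t : ℂ) * z‖ < 1 := by
      rw [norm_mul, Complex.norm_real, Real.norm_of_nonneg ht.1]
      calc t * ‖z‖ ≤ 1 * ‖z‖ := mul_le_mul_of_nonneg_right ht.2 (norm_nonneg _)
        _ < 1 := by rwa [one_mul]
    have h2 := (hasDerivAt_dl h1).comp_of_eq t ((hasDerivAt_ofReal' t).mul_const z) rfl
    rw [one_mul] at h2
    exact h2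
  have hc : ContinuousOn (fun t : ℝ => S (t * z) * z) (Set.uIcc (0 : ℝ) 1) := by
    rw [Set.uIcc_of_le zero_le_one]
    apply ContinuousOn.mul _ continuousOn_const
    refine (continuousOn_S (norm_nonneg z) hz).comp (Continuous.continuousOn (by fun_prop)) ?_
    intro t ht
    show ‖(t : ℂ) * z‖ ≤ ‖z‖
    rw [norm_mul, Complex.norm_real, Real.norm_of_nonneg ht.1]
    exact mul_le_of_le_one_left (norm_nonneg _) ht.2
  have h := intervalIntegral.integral_eq_sub_of_hasDerivAt hd hc.intervalIntegrable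
  rw [Complex.ofReal_one, one_mul, Complex.ofReal_zero, zero_mul, dl_zero, sub_zero] at h
  rw [← h]
  unfold li2
  rw [← intervalIntegral.integral_neg]
  refine intervalIntegral.integral_congr_ae ?_
  filter_upwards with t ht
  rw [Set.uIoc_of_le zero_le_one] at ht
  have h1 : ‖(t : ℂ) * z‖ < 1 := by
    rw [norm_mul, Complex.norm_real, Real.norm_of_nonneg ht.1.le]
    calc t * ‖z‖ ≤ 1 * ‖z‖ := mul_le_mul_of_nonneg_right ht.2 (norm_nonneg _)
      _ < 1 := by rwa [one_mul]
  have h2 := mul_S h1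
  have ht0 : (t : ℂ) ≠ 0 := by exact_mod_cast ht.1.ne'
  rw [neg_eq_iff_eq_neg, div_eq_iff ht0]
  linear_combination h2

lemma li2_zero : li2 0 = 0 := by
  rw [li2_eq_dl (by simp), dl_zero]

lemma continuousAt_li2_zero : ContinuousAt li2 0 := by
  have h1 : ContinuousAt dl 0 := (hasDerivAt_dl (by simp : ‖(0 : ℂ)‖ < 1)).continuousAt
  refine h1.congr ?_
  filter_upwards [Metric.ball_mem_nhds (0 : ℂ) one_pos] with x hx
  exact (li2_eq_dl (mem_ball_zero_iff.1 hx)).symm

/-! ### the strip -/

/-- the inverse of `ee` on `ℂ ∖ [0, ∞)` -/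
noncomputable def wl (z : ℂ) : ℂ := 1 / 2 + Complex.log (-z) / (2 * Real.pi * Complex.I)

lemma two_pi_I_ne : (2 * Real.pi * Complex.I : ℂ) ≠ 0 := by
  have := Real.pi_ne_zero
  simp [this]

lemma wl_re (z : ℂ) : (wl z).re = 1 / 2 + (-z).arg / (2 * Real.pi) := by
  unfold wl
  have e : Complex.log (-z) / (2 * Real.pi * Complex.I) =
      ((1 / (2 * Real.pi) : ℝ) : ℂ) * (-(Complex.log (-z) * Complex.I)) := by
    have := Real.pi_ne_zero
    push_cast
    rw [div_eq_mul_inv, mul_inv, mul_inv, Complex.inv_I]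
    field_simp
  rw [Complex.add_re, e, Complex.re_ofReal_mul, Complex.neg_re, Complex.mul_re, Complex.log_im]
  simp
  ring

lemma wl_mem {z : ℂ} (h : -z ∈ Complex.slitPlane) : wl z ∈ VOL.strip := by
  have hpi := Real.pi_pos
  have h1 := Complex.neg_pi_lt_arg (-z)
  have h2 := (Complex.arg_le_pi (-z)).lt_of_ne (Complex.slitPlane_arg_ne_pi h)
  constructor
  · rw [wl_re]
    have : -(1 / 2) < (-z).arg / (2 * Real.pi) := by
      rw [lt_div_iff₀ (by positivity)]
      linarith only [h1]
    linarith only [this]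
  · rw [wl_re]
    have : (-z).arg / (2 * Real.pi) < 1 / 2 := by
      rw [div_lt_iff₀ (by positivity)]
      linarith only [h2]
    linarith only [this]

lemma ee_wl {z : ℂ} (h : -z ∈ Complex.slitPlane) : ee (wl z) = z := by
  have h0 := Complex.slitPlane_ne_zero h
  unfold ee wl
  have e : 2 * Real.pi * Complex.I * (1 / 2 + Complex.log (-z) / (2 * Real.pi * Complex.I)) =
      Real.pi * Complex.I + Complex.log (-z) := by
    have := two_pi_I_ne
    field_simp
  rw [e, Complex.exp_add, Complex.exp_pi_mul_I, Complex.exp_log h0]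
  ring

lemma slit_mem {z : ℂ} (h : -z ∈ Complex.slitPlane) : ∀ᶠ x in 𝓝 z, -x ∈ Complex.slitPlane :=
  (continuous_neg.tendsto z).eventually (Complex.isOpen_slitPlane.mem_nhds h)

lemma slit_mem' {z : ℂ} (h : 1 - z ∈ Complex.slitPlane) :
    ∀ᶠ x in 𝓝 z, 1 - x ∈ Complex.slitPlane :=
  ((continuous_const.sub continuous_id).tendsto z).eventually
    (Complex.isOpen_slitPlane.mem_nhds h)

lemma hasDerivAt_wl {z : ℂ} (h : -z ∈ Complex.slitPlane) :
    HasDerivAt wl (1 / z / (2 * Real.pi * Complex.I)) z := by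
  have h1 : HasDerivAt (fun z : ℂ => Complex.log (-z)) (-1 / -z) z :=
    (hasDerivAt_neg z).clog h
  rw [neg_div_neg_eq] at h1
  exact (h1.div_const _).const_add _

/-- the two cases -/
lemma cases_slit {z : ℂ} (h1 : 1 - z ∈ Complex.slitPlane) (h0 : z ≠ 0) :
    -z ∈ Complex.slitPlane ∨ ‖z‖ < 1 := by
  by_cases hs : -z ∈ Complex.slitPlane
  · exact Or.inl hs
  · right
    have hx : 0 ≤ z.re ∧ z.im = 0 := by
      rw [Complex.mem_slitPlane_iff, not_or, not_lt, not_not] at hs
      simpa using hs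
    have e : z = ((z.re : ℝ) : ℂ) := by
      apply Complex.ext
      · simp
      · simpa using hx.2
    have h2 : z.re < 1 := by
      rw [Complex.mem_slitPlane_iff] at h1
      rcases h1 with h | h
      · simpa using h
      · exact absurd (by simpa using hx.2) h
    rw [e, Complex.norm_real, Real.norm_of_nonneg hx.1]
    exact h2

/-- the derivative of the dilogarithm -/
theorem hasDerivAt_li2 {z : ℂ} (h1 : 1 - z ∈ Complex.slitPlane) (h0 : z ≠ 0) :
    HasDerivAt li2 (-Complex.log (1 - z) / z) z := by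
  rcases cases_slit h1 h0 with hs | hs
  · have hw := hasDerivAt_wl hs
    have hm := wl_mem hs
    have e0 : li2 =ᶠ[𝓝 z] fun z => -(2 * Real.pi * Complex.I) * VOL.Fh (wl z) +
        Real.pi ^ 2 * (wl z - 1 / 2) ^ 2 - Real.pi ^ 2 / 12 := by
      filter_upwards [slit_mem hs] with x hx
      rw [← li2_ee (wl_mem hx), ee_wl hx]
    have d1 : HasDerivAt (fun z => VOL.Fh (wl z)) (VOL.ph (wl z) *
        (1 / z / (2 * Real.pi * Complex.I))) z := (VOL.hasDerivAt_Fh hm).comp z hw
    have d2 := ((d1.const_mul (-(2 * Real.pi * Complex.I) : ℂ)).add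
      (((hw.sub_const (1 / 2 : ℂ)).pow 2).const_mul (Real.pi ^ 2 : ℂ))).sub_const
      ((Real.pi : ℂ) ^ 2 / 12)
    refine (d2.congr_of_eventuallyEq e0).congr_deriv ?_
    have h3 := log_one_sub_ee hm
    rw [ee_wl hs] at h3
    rw [h3]
    have hp : (Real.pi : ℂ) ≠ 0 := by exact_mod_cast Real.pi_ne_zero
    have hI := Complex.I_sq
    have hI0 := Complex.I_ne_zero
    simp only [Nat.add_one_sub_one, pow_one, Nat.cast_ofNat]
    field_simp
    linear_combination ((2 * Real.pi * (wl z - 1 / 2)) : ℂ) * hI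
  · have h2 := hasDerivAt_dl hs
    have e0 : li2 =ᶠ[𝓝 z] dl := by
      filter_upwards [Metric.isOpen_ball.mem_nhds (mem_ball_zero_iff.2 hs)] with x hx
      exact li2_eq_dl (mem_ball_zero_iff.1 hx)
    refine (h2.congr_of_eventuallyEq e0).congr_deriv ?_
    rw [← mul_S hs]
    field_simp

/-! ### reflection -/

/-- `Log z Log (1-z) → 0` as `z → 1` -/
lemma tendsto_loglog : Tendsto (fun z : ℂ => Complex.log z * Complex.log (1 - z)) (𝓝 1) (𝓝 0) := by
  have hpi := Real.pi_pos
  have h1 : Tendsto (fun z : ℂ => 3 / 2 * (|‖1 - z‖ * Real.log ‖1 - z‖| + Real.pi * ‖1 - z‖))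
      (𝓝 1) (𝓝 0) := by
    have hc : Continuous fun z : ℂ => 3 / 2 * (|‖1 - z‖ * Real.log ‖1 - z‖| + Real.pi * ‖1 - z‖) := by
      have h2 : Continuous fun z : ℂ => ‖1 - z‖ := (continuous_const.sub continuous_id).norm
      exact continuous_const.mul (((Real.continuous_mul_log.comp h2).abs).add
        (continuous_const.mul h2))
    have h3 := hc.tendsto 1
    simpa using h3
  refine squeeze_zero_norm' ?_ h1
  filter_upwards [Metric.closedBall_mem_nhds (1 : ℂ) (by norm_num : (0 : ℝ) < 1 / 2)] with z hz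
  have h4 : ‖z - 1‖ ≤ 1 / 2 := by
    rwa [mem_closedBall_iff_norm] at hz
  have h5 : ‖Complex.log z‖ ≤ 3 / 2 * ‖1 - z‖ := by
    have := Complex.norm_log_one_add_half_le_self (z := z - 1) h4
    rwa [add_sub_cancel, ← norm_sub_rev] at this
  have h6 : ‖Complex.log (1 - z)‖ ≤ |Real.log ‖1 - z‖| + Real.pi := by
    refine (Complex.norm_le_abs_re_add_abs_im _).trans ?_
    rw [Complex.log_re, Complex.log_im]
    exact add_le_add le_rfl (Complex.abs_arg_le_pi _)
  rw [norm_mul]
  calc ‖Complex.log z‖ * ‖Complex.log (1 - z)‖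
      ≤ (3 / 2 * ‖1 - z‖) * (|Real.log ‖1 - z‖| + Real.pi) :=
        mul_le_mul h5 h6 (norm_nonneg _) (by positivity)
    _ = _ := by
        rw [abs_mul, abs_norm]
        ring

lemma tendsto_loglog' : Tendsto (fun z : ℂ => Complex.log z * Complex.log (1 - z)) (𝓝 0) (𝓝 0) := by
  have h1 : Tendsto (fun z : ℂ => 1 - z) (𝓝 0) (𝓝 1) := by
    have : Continuous fun z : ℂ => 1 - z := continuous_const.sub continuous_id
    have h2 := this.tendsto 0
    rwa [sub_zero] at h2
  refine (tendsto_loglog.comp h1).congr fun z => ?_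
  simp only [Function.comp]
  rw [sub_sub_cancel, mul_comm]

/-- the reflected sum -/
private noncomputable def R (z : ℂ) : ℂ := li2 z + li2 (1 - z) + Complex.log z * Complex.log (1 - z)

private lemma hasDerivAt_R {z : ℂ} (h0 : z ∈ Complex.slitPlane) (h1 : 1 - z ∈ Complex.slitPlane) :
    HasDerivAt R 0 z := by
  have hz : z ≠ 0 := Complex.slitPlane_ne_zero h0
  have hz1 : 1 - z ≠ 0 := Complex.slitPlane_ne_zero h1
  have d0 : HasDerivAt (fun z : ℂ => 1 - z) (-1) z := (hasDerivAt_id z).const_sub 1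
  have d1 := hasDerivAt_li2 h1 hz
  have d2 : HasDerivAt (fun z : ℂ => li2 (1 - z)) (-Complex.log (1 - (1 - z)) / (1 - z) * (-1)) z :=
    (hasDerivAt_li2 (z := 1 - z) (by rwa [sub_sub_cancel]) hz1).comp z d0
  have d3 := (Complex.hasDerivAt_log h0).mul (d0.clog h1)
  have d4 := (d1.add d2).add d3
  refine d4.congr_deriv ?_
  rw [sub_sub_cancel]
  field_simp
  ring

private lemma R_eq_half {z : ℂ} (h0 : z ∈ Complex.slitPlane) (h1 : 1 - z ∈ Complex.slitPlane) :
    R z = R (1 / 2) := by
  set g : ℝ → ℂ := fun t => 1 / 2 + t * (z - 1 / 2) with hg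
  have hgd : ∀ t, HasDerivAt g (z - 1 / 2) t := by
    intro t
    have h4 := ((hasDerivAt_ofReal' t).mul_const (z - 1 / 2)).const_add (1 / 2 : ℂ)
    rwa [one_mul] at h4
  have hre : ∀ t, (g t).re = (1 - t) * (1 / 2) + t * z.re := by
    intro t
    simp [hg]
    ring
  have him : ∀ t, (g t).im = t * z.im := by
    intro t
    simp [hg]
  have hmem : ∀ t ∈ Set.Icc (0 : ℝ) 1, g t ∈ Complex.slitPlane ∧ 1 - g t ∈ Complex.slitPlane := by
    intro t ht
    rw [Complex.mem_slitPlane_iff, Complex.mem_slitPlane_iff, Complex.sub_re, Complex.sub_im,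
      Complex.one_re, Complex.one_im, hre, him]
    by_cases hz : z.im = 0
    · have h2 : 0 < z.re := by
        rw [Complex.mem_slitPlane_iff] at h0
        rcases h0 with h | h
        · exact h
        · exact absurd hz h
      have h3 : z.re < 1 := by
        rw [Complex.mem_slitPlane_iff] at h1
        rcases h1 with h | h
        · simpa using h
        · exact absurd (by simpa using hz) h
      rcases ht.1.eq_or_lt with h4 | h4
      · constructor
        · left
          rw [← h4]
          norm_num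
        · left
          rw [← h4]
          norm_num
      · have h5 := ht.2
        constructor
        · left
          nlinarith only [h5, h2, h4]
        · left
          nlinarith only [h2, h3, h5, h4]
    · rcases ht.1.eq_or_lt with h4 | h4
      · constructor
        · left
          rw [← h4]
          norm_num
        · left
          rw [← h4]
          norm_num
      · have h5 : t * z.im ≠ 0 := mul_ne_zero h4.ne' hz
        exact ⟨Or.inr h5, Or.inr (by simpa using h5)⟩
  have hder : ∀ t ∈ Set.Icc (0 : ℝ) 1, HasDerivAt (fun t => R (g t)) 0 t := by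
    intro t ht
    have := (hasDerivAt_R (hmem t ht).1 (hmem t ht).2).comp_of_eq t (hgd t) rfl
    rwa [zero_mul] at this
  have hconst := constant_of_derivWithin_zero (f := fun t => R (g t)) (a := 0) (b := 1)
    (fun t ht => (hder t ht).differentiableAt.differentiableWithinAt)
    (fun t ht => (hder t ⟨ht.1, ht.2.le⟩).hasDerivWithinAt.derivWithin
      (uniqueDiffOn_Icc zero_lt_one t ⟨ht.1, ht.2.le⟩)) 1 ⟨zero_le_one, le_rfl⟩
  have g0 : g 0 = 1 / 2 := by simp [hg]
  have g1 : g 1 = z := by simp [hg]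
  simp only [g0, g1] at hconst
  exact hconst

private lemma R_half : R (1 / 2) = Real.pi ^ 2 / 6 := by
  have h1 : Tendsto (fun x : ℝ => R x) (𝓝[>] 0) (𝓝 (Real.pi ^ 2 / 6 : ℂ)) := by
    have hc : Tendsto (fun x : ℝ => (x : ℂ)) (𝓝[>] 0) (𝓝 0) := by
      have := Complex.continuous_ofReal.tendsto 0
      rw [Complex.ofReal_zero] at this
      exact this.mono_left nhdsWithin_le_nhds
    have t1 : Tendsto (fun x : ℝ => li2 x) (𝓝[>] 0) (𝓝 0) := by
      have := continuousAt_li2_zero.tendsto.comp hc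
      rwa [li2_zero] at this
    have t3 := tendsto_loglog'.comp hc
    have hev : ∀ᶠ x : ℝ in 𝓝[>] 0, 0 < x ∧ x < 1 := by
      have := Ioo_mem_nhdsGT (zero_lt_one (α := ℝ))
      filter_upwards [this] with x hx
      exact hx
    have t2 : Tendsto (fun x : ℝ => li2 (1 - x)) (𝓝[>] 0) (𝓝 (Real.pi ^ 2 / 6 : ℂ)) := by
      have h2 : ContinuousWithinAt dl {z | ‖z‖ ≤ 1} 1 := continuousOn_dl 1 (by simp)
      rw [ContinuousWithinAt, dl_one] at h2
      have h3 : Tendsto (fun x : ℝ => (1 : ℂ) - x) (𝓝[>] 0) (𝓝[{z | ‖z‖ ≤ 1}] 1) := by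
        rw [tendsto_nhdsWithin_iff]
        constructor
        · have := (tendsto_const_nhds (x := (1 : ℂ))).sub hc
          rwa [sub_zero] at this
        · filter_upwards [hev] with x hx
          show ‖(1 : ℂ) - x‖ ≤ 1
          rw [← Complex.ofReal_one, ← Complex.ofReal_sub, Complex.norm_real,
            Real.norm_of_nonneg (by linarith only [hx, hx.2])]
          linarith only [hx, hx.1]
      refine (h2.comp h3).congr' ?_
      filter_upwards [hev] with x hx
      refine (li2_eq_dl ?_).symm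
      show ‖(1 : ℂ) - x‖ < 1
      rw [← Complex.ofReal_one, ← Complex.ofReal_sub, Complex.norm_real,
        Real.norm_of_nonneg (by linarith only [hx, hx.2])]
      linarith only [hx, hx.1]
    have := (t1.add t2).add t3
    simpa [R] using this
  have h2 : Tendsto (fun x : ℝ => R x) (𝓝[>] 0) (𝓝 (R (1 / 2))) := by
    apply tendsto_const_nhds.congr'
    have := Ioo_mem_nhdsGT (zero_lt_one (α := ℝ))
    filter_upwards [this] with x hx
    refine (R_eq_half ?_ ?_).symm
    · rw [Complex.mem_slitPlane_iff]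
      left
      simpa using hx.1
    · rw [Complex.mem_slitPlane_iff]
      left
      simpa using hx.2
  exact tendsto_nhds_unique h2 h1

/-! ### the cut -/

/-- the integrand on the real line -/
private noncomputable def hh (u : ℝ) : ℂ := -(Complex.log (1 - u) / u)

private lemma li2_real {x : ℝ} (hx : x ≠ 0) : li2 x = ∫ u in (0 : ℝ)..x, hh u := by
  unfold li2
  have h1 := intervalIntegral.integral_comp_mul_left (a := 0) (b := 1) hh hx
  rw [mul_zero, mul_one] at h1
  have h2 : ∫ u in (0 : ℝ)..x, hh u = x • ∫ t in (0 : ℝ)..1, hh (x * t) := by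
    rw [h1, smul_smul, mul_inv_cancel₀ hx, one_smul]
  rw [h2, ← intervalIntegral.integral_neg, ← intervalIntegral.integral_smul]
  refine intervalIntegral.integral_congr_ae ?_
  filter_upwards with t ht
  rw [Set.uIoc_of_le zero_le_one] at ht
  have ht0 : (t : ℂ) ≠ 0 := by exact_mod_cast ht.1.ne'
  have hx0 : (x : ℂ) ≠ 0 := by exact_mod_cast hx
  unfold hh
  push_cast
  rw [Complex.real_smul, mul_comm (x : ℂ) (t : ℂ)]
  field_simp

private lemma log_one_sub_lt {u : ℝ} (hu : u < 1) :
    Complex.log (1 - u) = ((Real.log (1 - u) : ℝ) : ℂ) := by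
  rw [Complex.ofReal_log (by linarith only [hu])]
  push_cast
  rfl

private lemma log_one_sub_gt {u : ℝ} (hu : 1 < u) :
    Complex.log (1 - u) = ((Real.log (u - 1) : ℝ) : ℂ) + Real.pi * Complex.I := by
  have e : (1 : ℂ) - u = ((1 - u : ℝ) : ℂ) := by push_cast; ring
  rw [e]
  apply Complex.ext
  · rw [Complex.log_re, Complex.norm_real, Real.norm_eq_abs, abs_of_neg (by linarith only [hu])]
    simp
  · rw [Complex.log_im, Complex.arg_ofReal_of_neg (by linarith only [hu])]
    simp

private lemma int01 : IntervalIntegrable hh volume 0 1 ∧ ∫ u in (0 : ℝ)..1, hh u = Real.pi ^ 2 / 6 := by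
  have hd : ∀ u ∈ Set.Ioo (0 : ℝ) 1, HasDerivAt (fun u : ℝ => dl u) (hh u) u := by
    intro u hu
    have h1 : ‖(u : ℂ)‖ < 1 := by
      rw [Complex.norm_real, Real.norm_of_nonneg hu.1.le]
      exact hu.2
    have h2 := (hasDerivAt_dl h1).comp_of_eq u (hasDerivAt_ofReal' u) rfl
    rw [mul_one] at h2
    refine h2.congr_deriv ?_
    have hu0 : (u : ℂ) ≠ 0 := by exact_mod_cast hu.1.ne'
    unfold hh
    have h3 := mul_S h1
    rw [← neg_div, ← h3]
    field_simp
  have hc : ContinuousOn (fun u : ℝ => dl u) (Set.Icc 0 1) := by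
    refine continuousOn_dl.comp Complex.continuous_ofReal.continuousOn ?_
    intro u hu
    show ‖(u : ℂ)‖ ≤ 1
    rw [Complex.norm_real, Real.norm_of_nonneg hu.1]
    exact hu.2
  have hreal : ∀ u ∈ Set.Ioo (0 : ℝ) 1, hh u = ((-(Real.log (1 - u) / u) : ℝ) : ℂ) := by
    intro u hu
    unfold hh
    rw [log_one_sub_lt hu.2]
    push_cast
    rfl
  have hint : IntervalIntegrable (fun u : ℝ => -(Real.log (1 - u) / u)) volume 0 1 := by
    apply intervalIntegral.intervalIntegrable_deriv_of_nonneg (g := fun u : ℝ => (dl u).re)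
    · rw [Set.uIcc_of_le zero_le_one]
      exact Complex.continuous_re.comp_continuousOn hc
    · intro u hu
      rw [min_eq_left zero_le_one, max_eq_right zero_le_one] at hu
      have h1 := Complex.reCLM.hasFDerivAt.comp_hasDerivAt u (hd u hu)
      rw [hreal u hu] at h1
      exact h1
    · intro u hu
      rw [min_eq_left zero_le_one, max_eq_right zero_le_one] at hu
      have h1 : Real.log (1 - u) ≤ 0 := Real.log_nonpos (by linarith only [hu, hu.2]) (by linarith only [hu, hu.1])
      rw [neg_nonneg]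
      exact div_nonpos_of_nonpos_of_nonneg h1 hu.1.le
  have hintc : IntervalIntegrable hh volume 0 1 := by
    have h1 : IntervalIntegrable (fun u : ℝ => ((-(Real.log (1 - u) / u) : ℝ) : ℂ)) volume 0 1 := by
      rw [intervalIntegrable_iff] at hint ⊢
      exact hint.ofReal
    refine h1.congr_ae ?_
    rw [Set.uIoc_of_le zero_le_one]
    have h2 : ∀ᵐ u : ℝ ∂(volume.restrict (Set.Ioc 0 1)), u ≠ 1 := by
      apply ae_restrict_of_ae
      exact Measure.ae_ne volume 1
    filter_upwards [h2, ae_restrict_mem measurableSet_Ioc] with u hu hu'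
    exact (hreal u ⟨hu'.1, lt_of_le_of_ne hu'.2 hu⟩).symm
  refine ⟨hintc, ?_⟩
  have h := intervalIntegral.integral_eq_sub_of_hasDerivAt_of_le zero_le_one hc hd hintc
  rw [h, Complex.ofReal_one, Complex.ofReal_zero, dl_one, dl_zero, sub_zero]

private lemma int1x {x : ℝ} (hx : 1 < x) : IntervalIntegrable hh volume 1 x ∧
    ∫ u in (1 : ℝ)..x, hh u = -li2 (1 - x) - Complex.log x * Complex.log (1 - x) := by
  set P : ℝ → ℂ := fun u => -li2 (1 - u) - Complex.log u * Complex.log (1 - u) with hP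
  have hd : ∀ u : ℝ, 1 < u → HasDerivAt P (hh u) u := by
    intro u hu
    have hu0 : (u : ℂ) ≠ 0 := by
      have : u ≠ 0 := by linarith only [hu]
      exact_mod_cast this
    have hu1 : (1 : ℂ) - u ≠ 0 := by
      have : (1 : ℝ) - u ≠ 0 := by linarith only [hu]
      exact_mod_cast this
    have hus : (u : ℂ) ∈ Complex.slitPlane := by
      rw [Complex.mem_slitPlane_iff]
      left
      rw [Complex.ofReal_re]
      linarith only [hu]
    have d0 : HasDerivAt (fun u : ℝ => (1 : ℂ) - u) (-1) u := (hasDerivAt_ofReal' u).const_sub 1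
    have d1 : HasDerivAt (fun u : ℝ => li2 (1 - u)) (-Complex.log (1 - (1 - u)) / (1 - u) * (-1)) u :=
      (hasDerivAt_li2 (z := 1 - u) (by rwa [sub_sub_cancel]) hu1).comp_of_eq u d0 rfl
    have d2 : HasDerivAt (fun u : ℝ => Complex.log u) (1 / u) u :=
      (hasDerivAt_ofReal' u).clog_real hus
    have d3 : HasDerivAt (fun u : ℝ => Complex.log (1 - u)) (-1 / (1 - u)) u := by
      have e : (fun u : ℝ => Complex.log (1 - u)) =ᶠ[𝓝 u]
          fun u => ((Real.log (u - 1) : ℝ) : ℂ) + Real.pi * Complex.I := by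
        filter_upwards [lt_mem_nhds hu] with v hv
        exact log_one_sub_gt hv
      have d4 : HasDerivAt (fun u : ℝ => Real.log (u - 1)) (1 / (u - 1)) u :=
        ((hasDerivAt_id u).sub_const 1).log (by simp only [id]; linarith only [hu])
      refine ((d4.ofReal_comp.add_const _).congr_of_eventuallyEq e).congr_deriv ?_
      have : (u : ℂ) - 1 ≠ 0 := by
        have : (u : ℝ) - 1 ≠ 0 := by linarith only [hu]
        exact_mod_cast this
      push_cast
      rw [show (1 : ℂ) - u = -(u - 1) by ring, neg_div_neg_eq]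
    have d5 := d1.neg.sub (d2.mul d3)
    refine d5.congr_deriv ?_
    unfold hh
    rw [sub_sub_cancel]
    field_simp
    ring
  have hint : IntervalIntegrable hh volume 1 x := by
    have i1 : IntervalIntegrable (fun u : ℝ => Real.log (u - 1)) volume 1 x := by
      have := (intervalIntegral.intervalIntegrable_log' (a := 0) (b := x - 1)).comp_sub_right 1
      simpa using this
    have i2 : IntervalIntegrable (fun u : ℝ => ((Real.log (u - 1) : ℝ) : ℂ)) volume 1 x := by
      rw [intervalIntegrable_iff] at i1 ⊢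
      exact i1.ofReal
    have i3 : IntervalIntegrable (fun u : ℝ => (((Real.log (u - 1) : ℝ) : ℂ) +
        Real.pi * Complex.I) * (-((u : ℂ)⁻¹))) volume 1 x := by
      refine (i2.add intervalIntegrable_const).mul_continuousOn ?_
      rw [Set.uIcc_of_le hx.le]
      intro u hu
      have hu0 : (u : ℂ) ≠ 0 := by
        have : u ≠ 0 := by linarith only [hu, hu.1]
        exact_mod_cast this
      exact ((Complex.continuous_ofReal.continuousAt.inv₀ hu0).neg).continuousWithinAt
    refine i3.congr_ae ?_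
    rw [Set.uIoc_of_le hx.le]
    filter_upwards [ae_restrict_mem measurableSet_Ioc] with u hu
    unfold hh
    rw [log_one_sub_gt hu.1]
    ring
  refine ⟨hint, ?_⟩
  have ha : Tendsto P (𝓝[>] 1) (𝓝 0) := by
    have hc : Tendsto (fun x : ℝ => (x : ℂ)) (𝓝[>] 1) (𝓝 1) := by
      have := Complex.continuous_ofReal.tendsto 1
      rw [Complex.ofReal_one] at this
      exact this.mono_left nhdsWithin_le_nhds
    have t1 : Tendsto (fun x : ℝ => li2 (1 - x)) (𝓝[>] 1) (𝓝 0) := by
      have h1 : Tendsto (fun x : ℝ => (1 : ℂ) - x) (𝓝[>] 1) (𝓝 0) := by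
        have := (tendsto_const_nhds (x := (1 : ℂ))).sub hc
        rwa [sub_self] at this
      have := continuousAt_li2_zero.tendsto.comp h1
      rwa [li2_zero] at this
    have t2 := tendsto_loglog.comp hc
    have := t1.neg.sub t2
    simpa [hP] using this
  have hb : Tendsto P (𝓝[<] x) (𝓝 (P x)) :=
    (hd x hx).continuousAt.tendsto.mono_left nhdsWithin_le_nhds
  have h := intervalIntegral.integral_eq_sub_of_hasDerivAt_of_tendsto hx
    (fun u hu => hd u hu.1) hint ha hb
  rw [h, sub_zero]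

/-- **Euler's reflection formula**, for all `z ≠ 0, 1` -/
theorem li2_refl {z : ℂ} (h0 : z ≠ 0) (h1 : z ≠ 1) :
    li2 z + li2 (1 - z) + Complex.log z * Complex.log (1 - z) = Real.pi ^ 2 / 6 := by
  have key : ∀ x : ℝ, 1 < x →
      li2 x + li2 (1 - x) + Complex.log x * Complex.log (1 - x) = Real.pi ^ 2 / 6 := by
    intro x hx
    rw [li2_real (by linarith only [hx]), ← intervalIntegral.integral_add_adjacent_intervals int01.1
      (int1x hx).1, int01.2, (int1x hx).2]
    ring
  by_cases hs : z ∈ Complex.slitPlane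
  · by_cases hs1 : 1 - z ∈ Complex.slitPlane
    · exact (R_eq_half hs hs1).trans R_half
    · -- `z > 1`
      have hx : 1 ≤ z.re ∧ z.im = 0 := by
        rw [Complex.mem_slitPlane_iff, not_or, not_lt, not_not] at hs1
        simpa using hs1
      have e : z = ((z.re : ℝ) : ℂ) := by
        apply Complex.ext
        · simp
        · simpa using hx.2
      have h2 : 1 < z.re := by
        rcases hx.1.eq_or_lt with h3 | h3
        · exfalso
          apply h1
          rw [e, ← h3, Complex.ofReal_one]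
        · exact h3
      rw [e]
      exact key _ h2
  · -- `z < 0`
    have hx : z.re ≤ 0 ∧ z.im = 0 := by
      rw [Complex.mem_slitPlane_iff, not_or, not_lt, not_not] at hs
      exact hs
    have e : z = ((z.re : ℝ) : ℂ) := by
      apply Complex.ext
      · simp
      · simpa using hx.2
    have h2 : z.re < 0 := by
      rcases hx.1.eq_or_lt with h3 | h3
      · exfalso
        apply h0
        rw [e, h3, Complex.ofReal_zero]
      · exact h3
    have h3 := key (1 - z.re) (by linarith only [h2])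
    rw [e]
    push_cast at h3
    rw [sub_sub_cancel] at h3
    linear_combination h3

/-- `li2 z → π²/6` as `z → 1` -/
lemma tendsto_li2_one : Tendsto li2 (𝓝[≠] 1) (𝓝 (Real.pi ^ 2 / 6 : ℂ)) := by
  have h1 : Tendsto (fun z : ℂ => 1 - z) (𝓝[≠] 1) (𝓝 0) := by
    have : Continuous fun z : ℂ => 1 - z := continuous_const.sub continuous_id
    have h2 := this.tendsto 1
    rw [sub_self] at h2
    exact h2.mono_left nhdsWithin_le_nhds
  have h2 := continuousAt_li2_zero.tendsto.comp h1
  rw [li2_zero] at h2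
  have h3 := tendsto_loglog.mono_left (nhdsWithin_le_nhds (a := (1 : ℂ)) (s := {1}ᶜ))
  have h4 := (tendsto_const_nhds (x := (Real.pi ^ 2 / 6 : ℂ))).sub (h2.add h3)
  rw [add_zero, sub_zero] at h4
  refine h4.congr' ?_
  have h5 : ∀ᶠ z : ℂ in 𝓝[≠] 1, z ≠ 0 :=
    (isOpen_ne.mem_nhds (one_ne_zero (α := ℂ))) |> fun h => nhdsWithin_le_nhds h
  filter_upwards [h5, self_mem_nhdsWithin] with z hz hz1
  have := li2_refl hz hz1
  simp only [Function.comp]
  linear_combination -this

end XR

end Pool.Agent.Work.MP_b30479_gt.G2
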