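import Pool.Agent.Work.MP_b30479_gt.G2.TRc
import Pool.Agent.Work.MP_b30479_gt.G2.ZRows

/-!
# Modes at rings: the far path

`Y = 10000 t`: height of the lower mirrored path (frame of the digit), `t` the trapezoid.
-/

namespace Pool.Agent.Work.MP_b30479_gt.G2

open NumU

namespace ZD

theorem PY_pos {Y : ℝ} (h : 0 < Y) : 0 < PY Y := by
  unfold PY
  positivity

/-! ### Lipschitz bounds in the height -/

theorem Lr_inc {x s s' : ℝ} (h0 : 0 ≤ x) (h1 : x ≤ 2) (hs : 0 ≤ s) (hss : s ≤ s') :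
    0 ≤ DT.Lr s' x - DT.Lr s x ∧ DT.Lr s' x - DT.Lr s x ≤ 2 * Real.pi * (s' - s) := by
  have a0 := Lr_diff_mono h0 hs hss
  have a1 := Lr_diff_mono h1 hs hss
  rw [DT.Lr_zero_right, DT.Lr_zero_right] at a0
  have e : ∀ r : ℝ, 0 ≤ r → DT.Lr r 2 = 2 * Real.pi * r := by
    intro r hr
    have b1 := DT.Lr_add_one hr 1
    have b2 := DT.Lr_add_one hr 0
    rw [zero_add] at b2
    rw [show (1 : ℝ) + 1 = 2 by norm_num, b2, DT.Lr_zero_right] at b1
    linarith only [b1]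
  rw [e s hs, e s' (hs.trans hss)] at a1
  constructor <;> linarith only [a0, a1]

theorem uu_lip {x y y' : ℝ} (h0 : 0 ≤ x) (h1 : x ≤ 2) :
    |uu x y - uu x y'| ≤ 3 * Real.pi / 2 * |y - y'| := by
  have hpi := Real.pi_pos
  have key : ∀ y y' : ℝ, |y| ≤ |y'| → |uu x y - uu x y'| ≤ 3 * Real.pi / 2 * |y - y'| := by
    intro y y' h
    obtain ⟨a, b⟩ := Lr_inc h0 h1 (abs_nonneg y) h
    have h2 : |y'| - |y| ≤ |y - y'| := by
      have := abs_abs_sub_abs_le y' y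
      rw [abs_sub_comm y' y] at this
      exact (le_abs_self _).trans this
    have h3 := mul_le_mul_of_nonneg_left h2 (show 0 ≤ 3 * Real.pi / 2 by positivity)
    have h4 : 0 ≤ Real.pi * (|y'| - |y|) := mul_nonneg hpi.le (by linarith only [h])
    rw [uu_Lr, uu_Lr, abs_le]
    constructor <;> linarith only [b, h3, a]
  rcases le_total |y| |y'| with h | h
  · exact key y y' h
  · rw [abs_sub_comm, abs_sub_comm y]
    exact key y' y h

theorem fR_lip {x y y' σ η : ℝ} (h0 : 0 ≤ x) (h1 : x ≤ 1) (hσ : |σ| ≤ 1 / 2) :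
    |fR ⟨x, y⟩ ⟨σ, η⟩ - fR ⟨x, y'⟩ ⟨σ, η⟩| ≤ 6 * Real.pi * |y - y'| := by
  obtain ⟨s0, s1⟩ := abs_le.mp hσ
  have a1 := uu_lip (x := x + 1 / 2 + σ) (y := y + η) (y' := y' + η) (by linarith only [h0, s0]) (by linarith only [h1, s1])
  have a2 := uu_lip (x := x + 1 / 2 - σ) (y := y - η) (y' := y' - η) (by linarith only [h0, s1]) (by linarith only [h1, s0])
  have a3 := uu_lip (x := x) (y := y) (y' := y') h0 (by linarith only [h1])
  rw [show y + η - (y' + η) = y - y' by ring] at a1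
  rw [show y - η - (y' - η) = y - y' by ring] at a2
  rw [fR_uu, fR_uu]
  simp only
  obtain ⟨b1, c1⟩ := abs_le.mp a1
  obtain ⟨b2, c2⟩ := abs_le.mp a2
  obtain ⟨b3, c3⟩ := abs_le.mp a3
  rw [abs_le]
  constructor <;> linarith only [b1, b2, c3, c1, c2, b3]

theorem gD1_lip {x t k1 k2 : ℝ} (h0 : 0 ≤ x) (h1 : x ≤ 1) (h2 : 0 ≤ k1) (h3 : k1 ≤ 1) :
    |gD1 x t k1 k2 - gD1 x 0 k1 k2| ≤ 4 * Real.pi * |t| := by
  have hpi := Real.pi_pos
  have a1 := uu_lip (x := x + k1) (y := t + k2) (y' := 0 + k2) (by linarith only [h0, h2]) (by linarith only [h1, h3])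
  have a2 := uu_lip (x := x) (y := t) (y' := 0) h0 (by linarith only [h1])
  rw [show t + k2 - (0 + k2) = t by ring] at a1
  rw [sub_zero] at a2
  obtain ⟨b1, c1⟩ := abs_le.mp a1
  obtain ⟨b2, c2⟩ := abs_le.mp a2
  obtain ⟨b3, c3⟩ := abs_le.mp (le_refl |t|)
  have h4 : |Real.pi * (t * k1 - t)| ≤ Real.pi * |t| := by
    rw [abs_mul, abs_of_pos hpi]
    apply mul_le_mul_of_nonneg_left _ hpi.le
    rw [show t * k1 - t = t * (k1 - 1) by ring, abs_mul]
    have : |k1 - 1| ≤ 1 := by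
      rw [abs_le]
      constructor <;> linarith only [h2, h3]
    nlinarith only [hpi, b1, this, c1, abs_nonneg t]
  obtain ⟨b4, c4⟩ := abs_le.mp h4
  unfold gD1
  rw [abs_le]
  constructor <;> nlinarith only [b1, c2, b4, c1, b2, c4]

theorem gD2_lip {x t k1 k2 : ℝ} (h0 : 0 ≤ x) (h1 : x ≤ 1) (h2 : 0 ≤ k1) (h3 : k1 ≤ 1) :
    |gD2 x t k1 k2 - gD2 x 0 k1 k2| ≤ 6 * Real.pi * |t| := by
  have hpi := Real.pi_pos
  have a1 := uu_lip (x := x + k1) (y := t + k2) (y' := 0 + k2) (by linarith only [h0, h2]) (by linarith only [h1, h3])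
  have a2 := uu_lip (x := x) (y := t) (y' := 0) h0 (by linarith only [h1])
  rw [show t + k2 - (0 + k2) = t by ring] at a1
  rw [sub_zero] at a2
  obtain ⟨b1, c1⟩ := abs_le.mp a1
  obtain ⟨b2, c2⟩ := abs_le.mp a2
  have h4 : |Real.pi * ((x - k1) * t)| ≤ Real.pi * |t| := by
    rw [abs_mul, abs_of_pos hpi, abs_mul]
    apply mul_le_mul_of_nonneg_left _ hpi.le
    have : |x - k1| ≤ 1 := by
      rw [abs_le]
      constructor <;> linarith only [h0, h3, h1, h2]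
    nlinarith only [hpi, b1, this, c1, abs_nonneg t]
  have h5 : |Real.pi / 2 * t| ≤ Real.pi / 2 * |t| := by
    rw [abs_mul, abs_of_pos (by positivity : (0 : ℝ) < Real.pi / 2)]
  obtain ⟨b4, c4⟩ := abs_le.mp h4
  obtain ⟨b5, c5⟩ := abs_le.mp h5
  have e : gD2 x t k1 k2 - gD2 x 0 k1 k2 = -(Real.pi * ((x - k1) * t)) - Real.pi / 2 * t +
      (uu (x + k1) (t + k2) - uu (x + k1) (0 + k2)) - 2 * (uu x t - uu x 0) := by
    unfold gD2
    ring
  rw [e, abs_le]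
  constructor <;> linarith only [b1, c2, c4, c5, c1, b2, b4, b5]

theorem gD0_lip {x t : ℝ} (h0 : 0 ≤ x) (h1 : x ≤ 1) :
    |gD0 x t - gD0 x 0| ≤ 6 * Real.pi * |t| := by
  have hpi := Real.pi_pos
  have a2 := uu_lip (x := x) (y := t) (y' := 0) h0 (by linarith only [h1])
  rw [sub_zero] at a2
  obtain ⟨b2, c2⟩ := abs_le.mp a2
  have h4 : |Real.pi * (x * t)| ≤ Real.pi * |t| := by
    rw [abs_mul, abs_of_pos hpi, abs_mul]
    apply mul_le_mul_of_nonneg_left _ hpi.le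
    have : |x| ≤ 1 := by
      rw [abs_le]
      constructor <;> linarith only [h0, h1]
    nlinarith only [hpi, b2, this, c2, abs_nonneg t]
  have h5 : |Real.pi / 2 * t| ≤ Real.pi / 2 * |t| := by
    rw [abs_mul, abs_of_pos (by positivity : (0 : ℝ) < Real.pi / 2)]
  obtain ⟨b4, c4⟩ := abs_le.mp h4
  obtain ⟨b5, c5⟩ := abs_le.mp h5
  have e : gD0 x t - gD0 x 0 = -(Real.pi * (x * t)) - Real.pi / 2 * t - (uu x t - uu x 0) := by
    unfold gD0
    ring
  have h6 := mul_nonneg hpi.le (abs_nonneg t)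
  rw [e, abs_le]
  constructor <;> linarith only [b2, c2, c4, c5, b4, b5]

/-! ### the far path -/

/-- small trapezoid: near one of the ends -/
theorem tr_small {XM cl cr x t : ℝ} (hcl : 0 < cl) (hcl' : cl ≤ 16 / 100) (hcr : 0 < cr)
    (hcr' : cr ≤ 34 / 100) (ht : t = tr 0 XM cl cr x) (h0 : 0 < t) (h1 : t < 1 / 10000) :
    x ≤ 16 / 1000000 ∨ XM - 4 / 100000 ≤ x := by
  have e : t = min 1 (min ((x - 0) / cl) ((XM - x) / cr)) := by
    rw [ht] at h0 ⊢
    unfold tr at h0 ⊢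
    rcases le_total 0 (min 1 (min ((x - 0) / cl) ((XM - x) / cr))) with h | h
    · exact max_eq_right h
    · rw [max_eq_left h] at h0
      exact absurd h0 (lt_irrefl _)
  rcases min_choice 1 (min ((x - 0) / cl) ((XM - x) / cr)) with e1 | e1
  · rw [e1] at e
    linarith only [h0, h1, e]
  · rw [e1] at e
    rcases min_choice ((x - 0) / cl) ((XM - x) / cr) with e2 | e2
    · left
      rw [e2, sub_zero, eq_div_iff hcl.ne'] at e
      nlinarith only [hcl', e, hcl, h1]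
    · right
      rw [e2, eq_div_iff hcr.ne'] at e
      nlinarith only [hcl', hcr', e, hcl, h0, h1, hcr]

/-- **The far path**, all zones. -/
theorem far_gen {XM Ym cl cr x Y t d0 dY f0 fY b C m c G : ℝ} (hcl : 0 < cl)
    (hcl' : cl ≤ 16 / 100) (hcr : 0 < cr) (hcr' : cr ≤ 34 / 100) (ht : t = tr 0 XM cl cr x)
    (h0 : 0 < t) (hY : Y = 10000 * t) (w : 1 ≤ Y → dY + fY < b + G)
    (z : x ≤ 16 / 1000000 → Y ≤ 1 → dY + fY < b + G)
    (e : XM - 4 / 100000 ≤ x → Ym ≤ Y → Y ≤ 1 → dY + fY < b + G)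
    (rA : XM - 4 / 100000 ≤ x → Y ≤ Ym → fY - f0 + Y / 1000 + PY Y * (fY - b - c) ≤ 0)
    (rB : XM - 4 / 100000 ≤ x → Y ≤ Ym → dY - d0 + Y / 1000 + PY Y * (dY - C - m) ≤ 0)
    (hG : C + m + c < G) (hM : d0 + f0 - Y / 1000 ≤ dY + fY) : dY + fY < b + G := by
  have hYp : 0 < Y := by rw [hY]; linarith only [h0]
  rcases le_or_gt 1 Y with h | h
  · exact w h
  rcases tr_small hcl hcl' hcr hcr' ht h0 (by linarith only [hY, h]) with h2 | h2
  · exact z h2 h.le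
  rcases le_or_gt Ym Y with h3 | h3
  · exact e h2 h3 h.le
  have a1 := rA h2 h3.le
  have a2 := rB h2 h3.le
  have a3 := PY_pos hYp
  by_contra hc
  have a4 : 0 < (fY - b - c) + (dY - C - m) := by linarith only [hG, hc]
  have a5 := mul_pos a3 a4
  nlinarith only [h0, hY, hM, a1, a2, a5]

/-- the loss of the comparison with the same point of the main path -/
theorem pert {x Y t T σ η g g0 L : ℝ} (hx0 : 0 ≤ x) (hx1 : x ≤ 1) (hσ : |σ| ≤ 1 / 2)
    (hY : Y = 10000 * t) (h0 : 0 < t) (hT0 : -(1 / 1000) ≤ T) (hT1 : T ≤ 158 / 1000)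
    (hL : L ≤ 6 * Real.pi) (hg : |g - g0| ≤ L * |T * t|) :
    g0 + fR ⟨x, 0⟩ ⟨σ, η⟩ - Y / 1000 ≤ g + fR ⟨x, -(T * t)⟩ ⟨σ, η⟩ := by
  have hpi := Real.pi_pos
  have hpi4 : Real.pi < 3.15 := Real.pi_lt_d2
  have a1 := fR_lip (x := x) (y := -(T * t)) (y' := 0) (η := η) hx0 hx1 hσ
  rw [sub_zero, abs_neg] at a1
  obtain ⟨b1, c1⟩ := abs_le.mp a1
  obtain ⟨b2, c2⟩ := abs_le.mp hg
  have h1 : |T * t| ≤ 158 / 1000 * t := by
    rw [abs_mul, abs_of_pos h0]
    apply mul_le_mul_of_nonneg_right _ h0.le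
    rw [abs_le]
    constructor <;> linarith only [hT0, hT1]
  have h2 : L * |T * t| ≤ 6 * Real.pi * |T * t| := mul_le_mul_of_nonneg_right hL (abs_nonneg _)
  have h3 : 6 * Real.pi * |T * t| ≤ 6 * 3.15 * (158 / 1000 * t) := by
    apply mul_le_mul (by linarith only [hpi4]) h1 (abs_nonneg _) (by norm_num)
  rw [hY]
  linarith only [h0, b1, b2, h2, h3]

end ZD

end Pool.Agent.Work.MP_b30479_gt.G2
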