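import Pool.Agent.Work.MP_b30479_gt.G2.ZRows
import Pool.Agent.Work.MP_b30479_gt.G2.TE4a
import Pool.Agent.Work.MP_b30479_gt.G2.TRc

/-!
# Modes at rings, rows `C`: tools
-/

namespace Pool.Agent.Work.MP_b30479_gt.G2

open VOL NumU

namespace ZD

namespace RC

/-! ### expressions, variables `T, k1, k2` -/

def U5 : E := .add (.uu (.q 425 1000) (.var 0)) (.uu (.q 975 1000) (.var 0))
def RT (c θ : ℤ) : E := .sub (.sub U5 (.mul (.q c 1) (.uu (.q 2 10) (.var 0)))) (.q θ 1000)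
/-- `gD1 + gR`, `u`: value of `uu` at the sum -/
def S1 (u : E) (θ : ℤ) : E := .add (.sub (RT 3 θ) (.mul .pi (.var 0)))
  (.add (.mul .pi (.add (.mul (.q 2 10) (.var 2)) (.mul (.var 0) (.var 1)))) u)
/-- `gD2 + gR` -/
def S2 (u : E) : E := .add (.sub (RT 4 112) (.mul (.mul .pi (.q 1 2)) (.var 0)))
  (.sub u (.mul .pi (.mul (.sub (.q 2 10) (.var 1)) (.sub (.var 0) (.var 2)))))
def u0 : E := .uu (.add (.q 2 10) (.var 1)) (.add (.var 0) (.var 2))
def uk : E := .uu (.var 1) (.var 2)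
def g1 (u : E) (θ : ℤ) (m : E) : E :=
  .sub (.sub (S1 u θ) (.mul .pi (.mul (.var 2) (.sub (.q 1 2) (.var 1))))) m
def g3 (u : E) (θ : ℤ) (o : E) : E := .sub (S1 u θ) (.add o (.q 1 1000))
def g2 (u m : E) : E :=
  .sub (.sub (S2 u) (.mul .pi (.mul (.var 2) (.sub (.q 1 2) (.mul (.q 2 1) (.var 1)))))) m
def g4 (u o : E) : E :=
  .add (S2 u) (.sub (.mul .pi (.mul (.var 1) (.var 2))) (.add o (.q 1 1000)))
/-- `± π/2 y - 16/1000`, `y` the height of the sum -/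
def up : E := .sub (.mul (.mul .pi (.q 1 2)) (.add (.var 0) (.var 2))) (.q 16 1000)
def um : E := .sub (.neg (.mul (.mul .pi (.q 1 2)) (.add (.var 0) (.var 2)))) (.q 16 1000)
def op : E := .add (.mul (.mul .pi (.q 1 2)) (.var 2)) (.q 16 1000)
def om : E := .add (.neg (.mul (.mul .pi (.q 1 2)) (.var 2))) (.q 16 1000)
/-- `± π/2 y - 62/1000` -/
def sp : E := .sub (.mul (.mul .pi (.q 1 2)) (.add (.var 0) (.var 2))) (.q 62 1000)
def sm : E := .sub (.neg (.mul (.mul .pi (.q 1 2)) (.add (.var 0) (.var 2)))) (.q 62 1000)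
def u1p : E := .add (.uu (.sub (.var 1) (.q 8 10)) (.add (.var 0) (.var 2)))
  (.mul .pi (.add (.var 0) (.var 2)))
def u1m : E := .sub (.uu (.sub (.var 1) (.q 8 10)) (.add (.var 0) (.var 2)))
  (.mul .pi (.add (.var 0) (.var 2)))
def qp : E := .add (.mul (.mul .pi (.q 1 2)) (.var 2)) (.q 62 1000)
def qm : E := .add (.neg (.mul (.mul .pi (.q 1 2)) (.var 2))) (.q 62 1000)
def vi32 : E := .sub (.var 2) (.mul (.q 32 10) (.var 1))
def w1 : E := .sub (.neg (.var 2)) (.mul (.q 32 10) (.sub (.var 1) (.q 2 10)))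
def w2 : E := .sub (.var 2) (.mul (.q 32 10) (.sub (.var 1) (.q 2 10)))
def v1 : E := .sub (.neg (.var 2)) (.mul (.q 32 10) (.sub (.q 1 1) (.var 1)))
def v2 : E := .sub (.var 2) (.mul (.q 32 10) (.sub (.q 1 1) (.var 1)))
def t34 : E := .mul (.q 3 4) (.var 0)
def g12 : E := .sub (.sub (.add (.sub (.sub (.add (.uu (.q 345 1000) t34) (.uu (.q 895 1000) t34))
  (.mul (.q 3 1) (.uu (.q 12 100) t34))) (.add (.mul .pi t34) (.q 108 1000)))
  (.add (.mul .pi (.add (.mul (.q 12 100) (.var 2)) (.mul t34 (.var 1))))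
    (.uu (.add (.q 12 100) (.var 1)) (.add t34 (.var 2)))))
  (.mul .pi (.mul (.var 2) (.sub (.q 1 2) (.var 1)))))
  (.add (.q 965 100000) (.mul (.q 2 10) (.var 1)))
def gc0 : E := .sub (.sub U5 (.mul (.q 3 1) (.uu (.q 2 10) (.var 0))))
  (.add (.mul (.mul .pi (.q 7 10)) (.var 0)) (.q 158 1000))
def gH : E := .sub (.sub U5 (.mul (.q 4 1) (.uu (.q 2 10) (.var 0))))
  (.add (.mul (.mul .pi (.q 4 10)) (.var 0)) (.q 600 1000))

/-! ### values -/

variable {T k1 k2 θ x t a : ℝ}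

theorem gR_eq (θ x t : ℝ) : gR θ x t = uu (x + 9 / 40) t + uu (x + 31 / 40) t - 2 * uu x t - θ := by
  unfold gR
  rw [fR_uu]
  simp only [add_zero, sub_zero, uu_neg]
  rw [show x + 1 / 2 + -(11 / 40) = x + 9 / 40 by ring,
    show x + 1 / 2 - -(11 / 40) = x + 31 / 40 by ring]

/-- `gD1 + gR`, `u` the value at the sum -/
noncomputable def s1 (T k1 k2 u θ : ℝ) : ℝ :=
  uu (425 / 1000) T + uu (975 / 1000) T - 3 * uu (2 / 10) T - θ - Real.pi * T +
    (Real.pi * (2 / 10 * k2 + T * k1) + u)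
/-- `gD2 + gR` -/
noncomputable def s2 (T k1 k2 u : ℝ) : ℝ :=
  uu (425 / 1000) T + uu (975 / 1000) T - 4 * uu (2 / 10) T - 112 / 1000 - Real.pi / 2 * T +
    (u - Real.pi * ((2 / 10 - k1) * (T - k2)))

theorem gD1_eq (θ T k1 k2 : ℝ) : gD1 (2 / 10) T k1 k2 + gR θ (2 / 10) T =
    s1 T k1 k2 (uu (2 / 10 + k1) (T + k2)) θ := by
  rw [gR_eq]
  unfold gD1 s1
  rw [show (2 : ℝ) / 10 + 9 / 40 = 425 / 1000 by norm_num,
    show (2 : ℝ) / 10 + 31 / 40 = 975 / 1000 by norm_num]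
  ring

theorem gD2_eq (T k1 k2 : ℝ) : gD2 (2 / 10) T k1 k2 + gR (112 / 1000) (2 / 10) T =
    s2 T k1 k2 (uu (2 / 10 + k1) (T + k2)) := by
  rw [gR_eq]
  unfold gD2 s2
  rw [show (2 : ℝ) / 10 + 9 / 40 = 425 / 1000 by norm_num,
    show (2 : ℝ) / 10 + 31 / 40 = 975 / 1000 by norm_num]
  ring

theorem S1_val (u : E) (θ : ℤ) : (S1 u θ).val [T, k1, k2] =
    s1 T k1 k2 (u.val [T, k1, k2]) ((θ : ℝ) / 1000) := by
  simp only [S1, RT, U5, E.val, NumI.lkR]
  unfold s1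
  push_cast
  ring_nf

theorem S2_val (u : E) : (S2 u).val [T, k1, k2] = s2 T k1 k2 (u.val [T, k1, k2]) := by
  simp only [S2, RT, U5, E.val, NumI.lkR]
  unfold s2
  push_cast
  ring_nf

theorem g1_val (u m : E) (θ : ℤ) : (g1 u θ m).val [T, k1, k2] =
    s1 T k1 k2 (u.val [T, k1, k2]) ((θ : ℝ) / 1000) - cA1 k1 k2 - m.val [T, k1, k2] := by
  show (S1 u θ).val [T, k1, k2] - _ - _ = _
  rw [S1_val]
  unfold cA1
  simp only [E.val, NumI.lkR]
  push_cast
  ring_nf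

theorem g3_val (u o : E) (θ : ℤ) : (g3 u θ o).val [T, k1, k2] =
    s1 T k1 k2 (u.val [T, k1, k2]) ((θ : ℝ) / 1000) - o.val [T, k1, k2] - 1 / 1000 := by
  show (S1 u θ).val [T, k1, k2] - _ = _
  rw [S1_val]
  simp only [E.val, NumI.lkR]
  push_cast
  ring

theorem g2_val (u m : E) : (g2 u m).val [T, k1, k2] =
    s2 T k1 k2 (u.val [T, k1, k2]) - cA2 k1 k2 - m.val [T, k1, k2] := by
  show (S2 u).val [T, k1, k2] - _ - _ = _
  rw [S2_val]
  unfold cA2
  simp only [E.val, NumI.lkR]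
  push_cast
  ring_nf

theorem g4_val (u o : E) : (g4 u o).val [T, k1, k2] =
    s2 T k1 k2 (u.val [T, k1, k2]) + Real.pi * k1 * k2 - o.val [T, k1, k2] - 1 / 1000 := by
  show (S2 u).val [T, k1, k2] + _ = _
  rw [S2_val]
  simp only [E.val, NumI.lkR]
  push_cast
  ring

theorem u0_val : u0.val [T, k1, k2] = uu (2 / 10 + k1) (T + k2) := by
  simp only [u0, E.val, NumI.lkR]
  push_cast
  rfl

theorem uk_val : uk.val [T, k1, k2] = uu k1 k2 := by
  simp only [uk, E.val, NumI.lkR]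

theorem s1_mono {u u' : ℝ} (h : u ≤ u') : s1 T k1 k2 u θ ≤ s1 T k1 k2 u' θ := by
  unfold s1
  linarith only [h]

theorem s2_mono {u u' : ℝ} (h : u ≤ u') : s2 T k1 k2 u ≤ s2 T k1 k2 u' := by
  unfold s2
  linarith only [h]

/-! ### slopes and asymptotics -/

theorem exp16 : 2 * Real.cosh (2 * Real.pi * (46 / 100)) + 2 ≤ Real.exp (2 * (16 / 10)) := by
  have h : NumI.chk [NumI.E.sub (NumI.E.exp (NumI.E.q 32 10)) (NumI.E.add (NumI.E.q 2 1)
      (NumI.E.mul (NumI.E.q 2 1) (NumI.E.cosh (NumI.E.mul NumI.E.pi (NumI.E.q 92 100)))))] 1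
      [NumI.V.of 1 0 0] = true := by
    decide +kernel
  have hp := NumI.pos_of_chk (NumI.chk1 h (by norm_num) (x := 0) (by norm_num) (by norm_num))
  simp only [NumI.E.val] at hp
  rw [show 2 * Real.pi * (46 / 100) = Real.pi * (((92 : ℤ) : ℝ) / ((100 : ℕ) : ℝ)) by
    push_cast; ring, show (2 : ℝ) * (16 / 10) = ((32 : ℤ) : ℝ) / ((10 : ℕ) : ℝ) by norm_num]
  have e2 : (((2 : ℤ) : ℝ) / ((1 : ℕ) : ℝ)) = 2 := by norm_num
  rw [e2] at hp
  linarith only [hp]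

theorem uu_slope16 {u v : ℝ} (huv : u ≤ v) (ht : |t| ≤ 46 / 100) :
    uu v t - uu u t ≤ 16 / 10 * (v - u) := TL.uu_slope huv (by norm_num) ht exp16

theorem exp11 : 1 + Real.exp (-(Real.pi * (708 / 1000))) ≤ Real.exp (11 / 100) := by
  have h : NumI.chk [NumI.E.sub (NumI.E.exp (NumI.E.q 11 100)) (NumI.E.add (NumI.E.q 1 1)
      (NumI.E.exp (NumI.E.neg (NumI.E.mul NumI.E.pi (NumI.E.q 708 1000)))))] 1
      [NumI.V.of 1 0 0] = true := by
    decide +kernel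
  have hp := NumI.pos_of_chk (NumI.chk1 h (by norm_num) (x := 0) (by norm_num) (by norm_num))
  simp only [NumI.E.val] at hp
  push_cast at hp
  norm_num at hp ⊢
  linarith only [hp]

theorem exp_big {s : ℝ} (hs : 354 / 1000 ≤ s) :
    2 * Real.cosh (2 * Real.pi * s) + 2 ≤ Real.exp (2 * (Real.pi * s + 11 / 100)) := by
  have hp := Real.pi_pos
  have h1 : Real.exp (-(2 * Real.pi * s)) ≤ Real.exp (-(Real.pi * (708 / 1000))) := by
    apply Real.exp_le_exp.2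
    nlinarith only [hs, hp]
  have h2 : 1 + Real.exp (-(2 * Real.pi * s)) ≤ Real.exp (11 / 100) := by linarith only [h1, exp11]
  have h3 : Real.exp (2 * (Real.pi * s + 11 / 100)) =
      Real.exp (2 * Real.pi * s) * (Real.exp (11 / 100)) ^ 2 := by
    rw [pow_two, ← Real.exp_add, ← Real.exp_add]
    ring_nf
  have h4 : Real.exp (2 * Real.pi * s) * Real.exp (-(2 * Real.pi * s)) = 1 := by
    rw [← Real.exp_add]
    simp
  have h5 := Real.exp_pos (2 * Real.pi * s)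
  have h6 := Real.exp_pos (-(2 * Real.pi * s))
  rw [h3, Real.cosh_eq]
  have h7 : (1 + Real.exp (-(2 * Real.pi * s))) ^ 2 ≤ (Real.exp (11 / 100)) ^ 2 :=
    pow_le_pow_left₀ (by positivity) h2 2
  have h8 := mul_le_mul_of_nonneg_left h7 h5.le
  nlinarith only [h4, h8, h6]

theorem uu_up (ha : 0 ≤ a) (ht : 354 / 1000 ≤ |t|) :
    uu a t ≤ Real.pi * (a - 1 / 2) * |t| + 11 / 100 * a := by
  have h := TL.uu_slope (u := 0) (v := a) (t := t) (T := |t|) ha (by linarith only [ht]) le_rfl (exp_big ht)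
  rw [TL.uu_zero] at h
  linarith only [h]

theorem uu_lo (ha : a ≤ 1) (ht : 354 / 1000 ≤ |t|) :
    Real.pi * (a - 1 / 2) * |t| - 11 / 100 * (1 - a) ≤ uu a t := by
  have h := uu_up (a := 1 - a) (t := t) (by linarith only [ha]) ht
  rw [uu_one_sub] at h
  linarith only [h]

theorem uu_oneV (t : ℝ) : uu 1 t = Real.pi / 2 * |t| := by
  have h := uu_one_sub 0 t
  rw [sub_zero, TL.uu_zero, neg_neg] at h
  exact h

/-- to the left of `1` -/
theorem uu_left_one (ha : a ≤ 1) (ht : |t| ≤ 46 / 100) :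
    Real.pi / 2 * |t| - 16 / 10 * (1 - a) ≤ uu a t := by
  have h := uu_slope16 ha ht
  rw [uu_oneV] at h
  linarith only [h]

/-- to the right of `0` -/
theorem uu_right_zero (ha : 0 ≤ a) (ht : |t| ≤ 46 / 100) :
    uu a t ≤ -(Real.pi / 2 * |t|) + 16 / 10 * a := by
  have h := uu_slope16 ha ht
  rw [TL.uu_zero] at h
  linarith only [h]

theorem uu002 : -(62 / 1000) ≤ uu (2 / 100) 0 := by
  have h : chk [.add (.q 62 1000) (.uu (.q 2 100) (.var 0))] 3 [NumI.V.of 1 0 0] = true := by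
    decide +kernel
  have hp := pos_of_chk (chk1 h (by norm_num) (x := 0) (by norm_num) (by norm_num))
  simp only [E.val, NumI.lkR] at hp
  push_cast at hp
  linarith only [hp]

end RC

end ZD

end Pool.Agent.Work.MP_b30479_gt.G2
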