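import Pool.Agent.Work.MP_b30479_gt.G2.ZRows

/-!
# Modes at rings: further inequalities

`RowsX`: the other hinge of the digit `1` is real or on a lower path of any height.
`RowsN`: the upper path of height `16/100` of a hinge between a digit `3` and a ring, in the frame of
the digit `3`.  Same point of the main path (`A`), or the target `2/10 + iT` (`B`).
-/

namespace Pool.Agent.Work.MP_b30479_gt.G2

open NumU

namespace ZD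

structure RowsX : Prop where
  b1x : ∀ x Y k1 k2 : ℝ, 64996 / 100000 ≤ x → x ≤ 65 / 100 → 0 < Y → Y ≤ 1 / 4 → 0 ≤ k1 →
    k1 ≤ 65 / 100 → k2 ≤ -(16 / 100) →
    dA1 x Y k1 k2 - dA1 x 0 k1 k2 + Y / 1000 + PY Y * (dA1 x Y k1 k2 - cA1 k1 k2 - mA1 k1 k2) ≤ 0
  b1xd : ∀ x Y k1 k2 : ℝ, 64996 / 100000 ≤ x → x ≤ 65 / 100 → 1 / 4 ≤ Y → Y ≤ 1 → 0 ≤ k1 →
    k1 ≤ 65 / 100 → k2 ≤ -(16 / 100) → dA1 x Y k1 k2 ≤ cA1 k1 k2 + mA1 k1 k2 + 4 / 1000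
  c1x : ∀ T k1 k2 : ℝ, 38 / 1000 ≤ T → T ≤ 136 / 1000 → 0 ≤ k1 → k1 ≤ 65 / 100 → k2 ≤ 0 →
    Goal1 (1 / 10) (2 / 10) T k1 k2
  c2r : ∀ T k1 : ℝ, 63 / 1000 ≤ T → T ≤ 145 / 1000 → 0 ≤ k1 → k1 ≤ 80 / 100 →
    Goal1 (1 / 10) (2 / 10) T k1 0
  z1x : ∀ x Y k1 k2 : ℝ, 0 ≤ x → x ≤ 16 / 1000000 → 0 ≤ Y → Y ≤ 1 → 0 ≤ k1 → k1 ≤ 65 / 100 →
    k2 ≤ -(16 / 100) → dA1 x Y k1 k2 ≤
      (if k1 < 1 / 2 then cA1 k1 k2 else max (cA1 k1 k2) (oD1 k1 k2)) + 5 / 10000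

/-! ### the upper path between a digit `3` and a ring -/

/-- the trapezoid (`a = 12/100` or `13/100`) -/
noncomputable def tN (a x : ℝ) : ℝ := min 1 (min (x / a) ((60 / 100 - x) / (30 / 100)))
noncomputable def PN (x : ℝ) : ℝ := 22 / 10 / (x + 15 / 100) - 25 / 10
noncomputable def cN (x : ℝ) : ℝ := 45 / 1000 + x / 48
noncomputable def dN (x : ℝ) : ℝ :=
  15 / 1000 + max (15 / 100 - 19 / 10 * x) 0 + 84 / 100 * max (x - 30 / 100) 0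

/-- gain of the digit at the same point of the main path, `y = 16/100 t` -/
noncomputable def nA1 (x t T k1 k2 : ℝ) : ℝ :=
  gD1 x (T * t) k1 k2 - gD1 x (16 / 100 * t) k1 k2 + Real.pi * (16 / 100 * t)
noncomputable def nB1 (x t T k1 k2 : ℝ) : ℝ :=
  gD1 (2 / 10) T k1 k2 - gD1 x (16 / 100 * t) k1 k2 + Real.pi * (16 / 100 * t)
noncomputable def nA2 (x t T k1 k2 : ℝ) : ℝ :=
  gD2 x (T * t) k1 k2 - gD2 x (16 / 100 * t) k1 k2 + Real.pi * (16 / 100 * t)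
noncomputable def nB2 (x t T k1 k2 : ℝ) : ℝ :=
  gD2 (2 / 10) T k1 k2 - gD2 x (16 / 100 * t) k1 k2 + Real.pi * (16 / 100 * t)
noncomputable def nAR (x t T σ η : ℝ) : ℝ :=
  fR ⟨x, -(T * t)⟩ ⟨σ, η⟩ - fR ⟨x, -(16 / 100 * t)⟩ ⟨σ, η⟩ + Real.pi * (16 / 100 * t)
noncomputable def nBR (x t T σ η : ℝ) : ℝ :=
  gR (112 / 1000) (2 / 10) T + bR σ η - fR ⟨x, -(16 / 100 * t)⟩ ⟨σ, η⟩ +
    Real.pi * (16 / 100 * t)

/-- `t` is the trapezoid at `x`, the height `T` of the saddle point is a little negative or zero -/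
structure NT (a x t T : ℝ) : Prop where
  x0 : 0 < x
  x1 : x < 60 / 100
  t : t = tN a x
  T0 : -(7 / 10000) ≤ T
  T1 : T ≤ 0

structure RowsN : Prop where
  /-- slot `0` of the digit `3`: `k = 1 - v` -/
  nD1 : ∀ x t T k1 k2 : ℝ, NT (12 / 100) x t T → dom3 k1 k2 →
    0 ≤ nA1 x t T k1 k2 + 16 / 100 * t * (PN x * nB1 x t T k1 k2 + cN x)
  nd1 : ∀ x t T k1 k2 : ℝ, NT (12 / 100) x t T → dom3 k1 k2 → 0 ≤ nB1 x t T k1 k2 + dN x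
  /-- slot `2` of the digit `3`: `k = v` -/
  nD2 : ∀ x t T k1 k2 : ℝ, NT (13 / 100) x t T → 0 ≤ k1 → |k2| ≤ 16 / 100 → |k2| ≤ 32 / 10 * k1 →
    |k2| ≤ 32 / 10 * (80 / 100 - k1) →
    0 ≤ nA2 x t T k1 k2 + 16 / 100 * t * (PN x * nB2 x t T k1 k2 + cN x)
  nd2 : ∀ x t T k1 k2 : ℝ, NT (13 / 100) x t T → 0 ≤ k1 → |k2| ≤ 16 / 100 → |k2| ≤ 32 / 10 * k1 →
    |k2| ≤ 32 / 10 * (80 / 100 - k1) → 0 ≤ nB2 x t T k1 k2 + dN x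
  /-- the ring (`a = 12/100` or `13/100`) -/
  nR : ∀ a x t T σ η : ℝ, (a = 12 / 100 ∨ a = 13 / 100) → NT a x t T → |σ| ≤ 1 / 2 → 0 ≤ η →
    η ≤ 1045 / 10000 * LT.th σ → dN x < nBR x t T σ η ∨
      0 < nAR x t T σ η + 16 / 100 * t * (PN x * nBR x t T σ η - cN x)

end ZD

end Pool.Agent.Work.MP_b30479_gt.G2
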