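import Pool.Agent.Work.MP_b30479_gt.G2.ZDa
import Pool.Agent.Work.MP_b30479_gt.G2.ZRcT
import Pool.Agent.Work.MP_b30479_gt.G2.ZRows2

/-!
# Modes at rings: the side of the digit

`far1`, `far3`, `far2`, `far0`: the point on the far path is worse than the target; `near1`, `near2`
the same for the near path.
-/

namespace Pool.Agent.Work.MP_b30479_gt.G2

open NumU

namespace ZD

open NumI (V) in
private theorem c0cert : chk [E.sub (E.sub RC.U5 (E.mul (E.q 3 1) (E.uu (E.q 2 10) (E.var 0))))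
    (E.add (E.mul (E.mul E.pi (E.q 7 10)) (E.var 0)) (E.q 172 1000))] 20 [V.of 1000 88 131 0] = true := by
  decide +kernel

/-- stronger form of `RowsC.c0` -/
theorem c0s (T : ℝ) (T0 : 88 / 1000 ≤ T) (T1 : T ≤ 131 / 1000) :
    60 / 1000 < gD0 (2 / 10) T + gR (112 / 1000) (2 / 10) T := by
  have hp := pos_of_chk (chk1 c0cert (by norm_num) (x := T) (by push_cast; linarith only [T0])
    (by push_cast; linarith only [T1]))
  simp only [RC.U5, E.val, NumI.lkR] at hp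
  push_cast at hp
  rw [RC.gR_eq]
  unfold gD0
  rw [show (2 : ℝ) / 10 + 9 / 40 = 425 / 1000 by norm_num,
    show (2 : ℝ) / 10 + 31 / 40 = 975 / 1000 by norm_num]
  linarith only [hp]

theorem uu_even (x y : ℝ) : uu x (-y) = uu x y := by
  rw [uu_Lr, uu_Lr, abs_neg]

theorem dA1_eq (x Y k1 k2 : ℝ) : dA1 x Y k1 k2 = gD1 x (-Y) k1 k2 - Real.pi * Y := by
  unfold dA1 gD1
  rw [uu_even, show -Y + k2 = k2 - Y by ring]
  ring

theorem dA2_eq (x Y k1 k2 : ℝ) : dA2 x Y k1 k2 = gD2 x (-Y) k1 k2 - Real.pi * Y := by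
  unfold dA2 gD2
  rw [uu_even, show -Y + k2 = k2 - Y by ring]
  ring

theorem dA0_eq (x Y : ℝ) : dA0 x Y = gD0 x (-Y) - Real.pi * Y := by
  unfold dA0 gD0
  rw [uu_even]
  ring

theorem dA1_zero (x k1 k2 : ℝ) : dA1 x 0 k1 k2 = gD1 x 0 k1 k2 := by
  rw [dA1_eq, neg_zero, mul_zero, sub_zero]
theorem dA2_zero (x k1 k2 : ℝ) : dA2 x 0 k1 k2 = gD2 x 0 k1 k2 := by
  rw [dA2_eq, neg_zero, mul_zero, sub_zero]
theorem dA0_zero (x : ℝ) : dA0 x 0 = gD0 x 0 := by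
  rw [dA0_eq, neg_zero, mul_zero, sub_zero]

/-- a point of the far path -/
structure FarIn (XM x Y t cl cr T σ η : ℝ) : Prop where
  hcl : 0 < cl
  hcl' : cl ≤ 16 / 100
  hcr : 0 < cr
  hcr' : cr ≤ 34 / 100
  ht : t = tr 0 XM cl cr x
  h0 : 0 < t
  hY : Y = 10000 * t
  x0 : 0 ≤ x
  x1 : x ≤ XM
  XM1 : XM ≤ 1
  hσ : |σ| ≤ 1 / 2
  η0 : 0 ≤ η
  η1 : η ≤ 1045 / 10000 * LT.th σ
  T0 : -(1 / 1000) ≤ T
  T1 : T ≤ 158 / 1000

theorem th_le_one' (σ : ℝ) : LT.th σ ≤ 1 := by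
  unfold LT.th
  exact min_le_left _ _

theorem FarIn.η2 {XM x Y t cl cr T σ η : ℝ} (F : FarIn XM x Y t cl cr T σ η) :
    η ≤ 1045 / 10000 := by
  have := F.η1
  have := th_le_one' σ
  linarith

theorem FarIn.Yp {XM x Y t cl cr T σ η : ℝ} (F : FarIn XM x Y t cl cr T σ η) : 0 < Y := by
  have := F.h0
  rw [F.hY]
  linarith only [this]

/-- the hinge next to a digit `1` -/
theorem far1 (Z : ZRows) {x Y t cl cr T σ η k1 k2 θ c t' : ℝ}
    (F : FarIn (65 / 100) x Y t cl cr T σ η) (hd : dom1 k1 k2) (hG : Goal1 θ c t' k1 k2)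
    (hM : gD1 x (T * t) k1 k2 + fR ⟨x, -(T * t)⟩ ⟨σ, η⟩ ≤ dA1 x Y k1 k2 + fA x Y σ η) :
    dA1 x Y k1 k2 + fA x Y σ η < bR σ η + (gD1 c t' k1 k2 + gR θ c t') := by
  have x0 := F.x0
  have x1 := F.x1
  have Yp := F.Yp
  have η2 := F.η2
  obtain ⟨g1, g2⟩ := hG
  have hm : 0 < mA1 k1 k2 := by
    unfold mA1
    split_ifs
    · have := le_max_right k2 0
      have := hd.1
      positivity
    · norm_num
  have hk2 : k2 ≤ 16 / 100 := by
    rcases hd.2.2.2 with h | h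
    · linarith only [h, h.2]
    · exact h.2.1
  have hk2' : |k2| ≤ 16 / 100 := abs_le.mpr ⟨hd.2.2.1, hk2⟩
  have hk1 := hd.1
  have hk1' := hd.2.1
  refine far_gen (d0 := dA1 x 0 k1 k2) (f0 := fR ⟨x, 0⟩ ⟨σ, η⟩) (Ym := 1 / 4)
    (C := cA1 k1 k2) (m := mA1 k1 k2) (c := 5 / 1000) F.hcl F.hcl' F.hcr F.hcr' F.ht F.h0 F.hY ?_ ?_
    ?_ ?_ ?_ (by linarith only [g1]) ?_
  · intro h
    have a1 := Z.Z.wf x Y σ η x0 (by linarith only [x1]) h F.hσ F.η0 η2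
    have a2 := Z.Z.w1 x Y k1 k2 x0 (by linarith only [x1]) h hk1 (by linarith only [hk1']) hk2
    linarith only [g1, hm, a1, a2]
  · intro h h'
    have a1 := Z.Z.zf x Y σ η x0 h Yp.le h' F.hσ F.η0 η2
    have a2 := Z.Z.z1 x Y k1 k2 x0 h Yp.le h' hk1 (by linarith only [hk1']) hk2'
    split_ifs at a2 with h3
    · linarith only [g1, hm, a1, a2]
    · have a3 := g2 (not_lt.1 h3)
      rcases max_cases (cA1 k1 k2) (oD1 k1 k2) with ⟨e, -⟩ | ⟨e, -⟩
      · rw [e] at a2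
        linarith only [g1, hm, a1, a2]
      · rw [e] at a2
        linarith only [a1, a2, a3]
  · intro h h' h''
    have a1 := Z.A.a65d x Y σ η (by linarith only [h]) x1 h' h'' F.hσ F.η0 F.η1
    have a2 := Z.B.b1d x Y k1 k2 (by linarith only [h]) x1 h' h'' hd
    linarith only [g1, a1, a2]
  · intro h h'
    exact Z.A.a65 x Y σ η (by linarith only [h]) x1 Yp h' F.hσ F.η0 F.η1
  · intro h h'
    exact Z.B.b1 x Y k1 k2 (by linarith only [h]) x1 Yp h' hd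
  · rw [dA1_zero]
    exact (pert x0 (by linarith only [x1]) F.hσ F.hY F.h0 F.T0 F.T1
      (by nlinarith only [Real.pi_pos] : 4 * Real.pi ≤ 6 * Real.pi)
      (gD1_lip x0 (by linarith only [x1]) hk1 (by linarith only [hk1']))).trans hM

/-- the hinge next to a region with three crossings (slot `0` or at an end) -/
theorem far3 (Z : ZRows) {x Y t cl cr T σ η k1 k2 t' : ℝ}
    (F : FarIn (60 / 100) x Y t cl cr T σ η) (hd : dom3 k1 k2) (hG : Goal3 t' k1 k2)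
    (hM : gD1 x (T * t) k1 k2 + fR ⟨x, -(T * t)⟩ ⟨σ, η⟩ ≤ dA1 x Y k1 k2 + fA x Y σ η) :
    dA1 x Y k1 k2 + fA x Y σ η <
      bR σ η + (gD1 (2 / 10) t' k1 k2 + gR (112 / 1000) (2 / 10) t') := by
  have x0 := F.x0
  have x1 := F.x1
  have Yp := F.Yp
  have η2 := F.η2
  obtain ⟨g1, g2⟩ := hG
  obtain ⟨d1, d2, d3, -, -⟩ := id hd
  have hk2 : k2 ≤ 16 / 100 := (abs_le.mp d3).2
  have hm : 0 < mA3 k1 k2 := by
    unfold mA3
    have := le_max_right k2 0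
    split_ifs
    · positivity
    · norm_num
    · positivity
  refine far_gen (d0 := dA1 x 0 k1 k2) (f0 := fR ⟨x, 0⟩ ⟨σ, η⟩) (Ym := 13 / 100)
    (C := cA1 k1 k2) (m := mA3 k1 k2) (c := 45 / 1000) F.hcl F.hcl' F.hcr F.hcr' F.ht F.h0 F.hY ?_ ?_
    ?_ ?_ ?_ (by linarith only [g1]) ?_
  · intro h
    have a1 := Z.Z.wf x Y σ η x0 (by linarith only [x1]) h F.hσ F.η0 η2
    have a2 := Z.Z.w1 x Y k1 k2 x0 (by linarith only [x1]) h (by linarith only [d1]) d2 hk2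
    linarith only [g1, hm, a1, a2]
  · intro h h'
    have a1 := Z.Z.zf x Y σ η x0 h Yp.le h' F.hσ F.η0 η2
    have a2 := Z.Z.z1 x Y k1 k2 x0 h Yp.le h' (by linarith only [d1]) d2 d3
    split_ifs at a2 with h3
    · linarith only [g1, d1, hm, a1, h3, a2]
    · have a3 := g2 (not_lt.1 h3)
      rcases max_cases (cA1 k1 k2) (oD1 k1 k2) with ⟨e, -⟩ | ⟨e, -⟩
      · rw [e] at a2
        linarith only [g1, hm, a1, a2]
      · rw [e] at a2
        linarith only [a1, a2, a3]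
  · intro h h' h''
    have a1 := Z.A.a60d x Y σ η (by linarith only [h]) x1 h' h'' F.hσ F.η0 F.η1
    have a2 := Z.B.b3d x Y k1 k2 (by linarith only [h]) x1 h' h'' hd
    linarith only [g1, a1, a2]
  · intro h h'
    exact Z.A.a60 x Y σ η (by linarith only [h]) x1 Yp h' F.hσ F.η0 F.η1
  · intro h h'
    exact Z.B.b3 x Y k1 k2 (by linarith only [h]) x1 Yp h' hd
  · rw [dA1_zero]
    exact (pert x0 (by linarith only [x1]) F.hσ F.hY F.h0 F.T0 F.T1
      (by nlinarith only [Real.pi_pos] : 4 * Real.pi ≤ 6 * Real.pi)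
      (gD1_lip x0 (by linarith only [x1]) (by linarith only [d1]) d2)).trans hM

/-- the hinge next to a digit `2` or a digit `3` (slot `2`) -/
theorem far2 (Z : ZRows) {x Y t cl cr T σ η k1 k2 t' : ℝ}
    (F : FarIn (60 / 100) x Y t cl cr T σ η) (hd : dom2 k1 k2) (hG : Goal2 t' k1 k2)
    (hM : gD2 x (T * t) k1 k2 + fR ⟨x, -(T * t)⟩ ⟨σ, η⟩ ≤ dA2 x Y k1 k2 + fA x Y σ η) :
    dA2 x Y k1 k2 + fA x Y σ η <
      bR σ η + (gD2 (2 / 10) t' k1 k2 + gR (112 / 1000) (2 / 10) t') := by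
  have x0 := F.x0
  have x1 := F.x1
  have Yp := F.Yp
  have η2 := F.η2
  obtain ⟨g1, g2⟩ := hG
  obtain ⟨d1, d2, d3, -⟩ := id hd
  have hm : 0 < mA2 k1 := by
    unfold mA2
    exact lt_min (by linarith only [d1]) (by norm_num)
  refine far_gen (d0 := dA2 x 0 k1 k2) (f0 := fR ⟨x, 0⟩ ⟨σ, η⟩) (Ym := 13 / 100)
    (C := cA2 k1 k2) (m := mA2 k1) (c := 45 / 1000) F.hcl F.hcl' F.hcr F.hcr' F.ht F.h0 F.hY ?_ ?_
    ?_ ?_ ?_ (by linarith only [g1]) ?_
  · intro h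
    have a1 := Z.Z.wf x Y σ η x0 (by linarith only [x1]) h F.hσ F.η0 η2
    have a2 := Z.Z.w2 x Y k1 k2 x0 (by linarith only [x1]) h (by linarith only [d1]) (by linarith only [d2]) d3
    linarith only [g1, hm, a1, a2]
  · intro h h'
    have a1 := Z.Z.zf x Y σ η x0 h Yp.le h' F.hσ F.η0 η2
    have a2 := Z.Z.z2 x Y k1 k2 x0 h Yp.le h' (by linarith only [d1]) (by linarith only [d2]) d3
    rcases max_cases (cA2 k1 k2) (oD2 k1 k2) with ⟨e, -⟩ | ⟨e, -⟩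
    · rw [e] at a2
      linarith only [g1, hm, a1, a2]
    · rw [e] at a2
      linarith only [g2, a1, a2]
  · intro h h' h''
    have a1 := Z.A.a60d x Y σ η (by linarith only [h]) x1 h' h'' F.hσ F.η0 F.η1
    have a2 := Z.B.b2d x Y k1 k2 (by linarith only [h]) x1 h' h'' hd
    linarith only [g1, a1, a2]
  · intro h h'
    exact Z.A.a60 x Y σ η (by linarith only [h]) x1 Yp h' F.hσ F.η0 F.η1
  · intro h h'
    exact Z.B.b2 x Y k1 k2 (by linarith only [h]) x1 Yp h' hd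
  · rw [dA2_zero]
    exact (pert x0 (by linarith only [x1]) F.hσ F.hY F.h0 F.T0 F.T1 le_rfl
      (gD2_lip x0 (by linarith only [x1]) d1 (by linarith only [d2]))).trans hM

/-- the hinge next to a digit `2` at an end -/
theorem far0 (Z : ZRows) {x Y t cl cr T σ η t' : ℝ}
    (F : FarIn (60 / 100) x Y t cl cr T σ η) (T0 : 88 / 1000 ≤ t') (T1 : t' ≤ 131 / 1000)
    (hM : gD0 x (T * t) + fR ⟨x, -(T * t)⟩ ⟨σ, η⟩ ≤ dA0 x Y + fA x Y σ η) :
    dA0 x Y + fA x Y σ η <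
      bR σ η + (gD0 (2 / 10) t' + gR (112 / 1000) (2 / 10) t') := by
  have x0 := F.x0
  have x1 := F.x1
  have Yp := F.Yp
  have η2 := F.η2
  have g1 := c0s t' T0 T1
  refine far_gen (d0 := dA0 x 0) (f0 := fR ⟨x, 0⟩ ⟨σ, η⟩) (Ym := 13 / 100)
    (C := 0) (m := 0) (c := 45 / 1000) F.hcl F.hcl' F.hcr F.hcr' F.ht F.h0 F.hY ?_ ?_
    ?_ ?_ ?_ (by linarith only [g1]) ?_
  · intro h
    have a1 := Z.Z.wf x Y σ η x0 (by linarith only [x1]) h F.hσ F.η0 η2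
    have a2 := Z.Z.w0 x Y x0 (by linarith only [x1]) h
    linarith only [g1, a1, a2]
  · intro h h'
    have a1 := Z.Z.zf x Y σ η x0 h Yp.le h' F.hσ F.η0 η2
    have a2 := Z.Z.z0 x Y x0 h Yp.le h'
    linarith only [g1, a1, a2]
  · intro h h' h''
    have a1 := Z.A.a60d x Y σ η (by linarith only [h]) x1 h' h'' F.hσ F.η0 F.η1
    have a2 := Z.B.b0d x Y (by linarith only [h]) x1 h' h''
    linarith only [g1, a1, a2]
  · intro h h'
    exact Z.A.a60 x Y σ η (by linarith only [h]) x1 Yp h' F.hσ F.η0 F.η1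
  · intro h h'
    have := Z.B.b0 x Y (by linarith only [h]) x1 Yp h'
    linarith only [this]
  · rw [dA0_zero]
    exact (pert x0 (by linarith only [x1]) F.hσ F.hY F.h0 F.T0 F.T1 le_rfl
      (gD0_lip x0 (by linarith only [x1]))).trans hM

/-! ### the near path -/

theorem PN_pos {x : ℝ} (h0 : 0 < x) (h1 : x < 60 / 100) : 0 < PN x := by
  unfold PN
  have : (25 : ℝ) / 10 < 22 / 10 / (x + 15 / 100) := by
    rw [lt_div_iff₀ (by linarith only [h0, h1])]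
    linarith only [h0, h1]
  linarith only [this]

theorem near_gen {x y A A' B B' P c d : ℝ} (hy : 0 < y) (hP : 0 < P)
    (h1 : 0 ≤ A + y * (P * B + c)) (h2 : 0 ≤ B + d) (h3 : d < B' ∨ 0 < A' + y * (P * B' - c))
    (hM : A + A' ≤ 0) : 0 < B + B' := by
  rcases h3 with h | h
  · linarith only [h2, h]
  · by_contra hc
    have a1 : B + B' ≤ 0 := not_lt.1 hc
    have a2 : y * (P * (B + B')) ≤ 0 :=
      mul_nonpos_of_nonneg_of_nonpos hy.le (mul_nonpos_of_nonneg_of_nonpos hP.le a1)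
    nlinarith only [h1, hM, h, a2]

theorem NT.tp {a x t T : ℝ} (h : NT a x t T) (ha : 0 < a) : 0 < t := by
  rw [h.t]
  unfold tN
  have := h.x0
  have := h.x1
  refine lt_min (by norm_num) (lt_min (by positivity) (div_pos (by linarith only [this]) (by norm_num)))

theorem near1 (N : RowsN) {x t T σ η k1 k2 : ℝ} (h : NT (12 / 100) x t T) (hd : dom3 k1 k2)
    (hσ : |σ| ≤ 1 / 2) (η0 : 0 ≤ η) (η1 : η ≤ 1045 / 10000 * LT.th σ)
    (hM : nA1 x t T k1 k2 + nAR x t T σ η ≤ 0) : 0 < nB1 x t T k1 k2 + nBR x t T σ η :=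
  near_gen (x := x) (y := 16 / 100 * t) (by have := h.tp (by norm_num); positivity)
    (PN_pos h.x0 h.x1) (N.nD1 x t T k1 k2 h hd) (N.nd1 x t T k1 k2 h hd)
    (N.nR _ x t T σ η (Or.inl rfl) h hσ η0 η1) hM

theorem near2 (N : RowsN) {x t T σ η k1 k2 : ℝ} (h : NT (13 / 100) x t T) (d0 : 0 ≤ k1)
    (d1 : |k2| ≤ 16 / 100) (d2 : |k2| ≤ 32 / 10 * k1) (d3 : |k2| ≤ 32 / 10 * (80 / 100 - k1))
    (hσ : |σ| ≤ 1 / 2) (η0 : 0 ≤ η) (η1 : η ≤ 1045 / 10000 * LT.th σ)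
    (hM : nA2 x t T k1 k2 + nAR x t T σ η ≤ 0) : 0 < nB2 x t T k1 k2 + nBR x t T σ η :=
  near_gen (x := x) (y := 16 / 100 * t) (by have := h.tp (by norm_num); positivity)
    (PN_pos h.x0 h.x1) (N.nD2 x t T k1 k2 h d0 d1 d2 d3) (N.nd2 x t T k1 k2 h d0 d1 d2 d3)
    (N.nR _ x t T σ η (Or.inr rfl) h hσ η0 η1) hM

end ZD

end Pool.Agent.Work.MP_b30479_gt.G2
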