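import Pool.Agent.Work.MP_b30479_gt.G2.MDd
import Pool.Agent.Work.MP_b30479_gt.G2.ZRows

/-!
# Modes at rings: the side of the ring

Kinds of the slots of a ring: `md`: kept, a hinge to a region which is no ring (or no hinge); `mr`:
kept, a hinge to a ring; `rr`: a moved hinge to a ring; `dd`: a moved hinge to a region which is no
ring.
-/

namespace Pool.Agent.Work.MP_b30479_gt.G2

open NumU

namespace ZD

inductive ZK where
  | md : ZK
  | mr : ZK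
  | rr : ZK
  | dd : ZK
deriving DecidableEq

/-- the new ring variable (own frame) -/
noncomputable def nz (σ ρ : ℝ) : ℂ :=
  if 3 / 10 < |σ| then zM ρ else
    if 15 / 100 < σ then ⟨-σ, ρ * LT.th σ⟩ else ⟨σ, ρ * LT.th σ⟩

/-- the slot `w` of a ring, moved to `w1`, with the weight `a` -/
structure ZSl (g : ZK) (w w1 : ℂ) (a σ η : ℝ) : Prop where
  md : g = .md → w1 = w ∧ a = 0 ∧ 0 ≤ w.re ∧ w.re ≤ 65 / 100 ∧ -(158 / 1000) ≤ w.im ∧
    w.im ≤ 1 / 1000 ∧ (w.im ≤ 0 ∨ w.re ≤ 60 / 100) ∧ -w.im ≤ 545 / 1000 * (65 / 100 - w.re) ∧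
    -w.im ≤ 158 / 100 * w.re
  mr : g = .mr → w1 = w ∧ a = 0 ∧ 0 ≤ w.re ∧ w.re ≤ 1 / 2 ∧ |w.im| ≤ 56 / 1000 ∧
    |w.im| ≤ 56 / 100 * w.re ∧ |w.im| ≤ 28 / 10 * (1 / 2 - w.re)
  rr : g = .rr → ∃ q, MSlot .mode w w1 q ∧ a = Real.pi * q
  dd : g = .dd → ∃ θ x t, Tgt θ x t ∧ w1 = ⟨x, -t⟩ ∧ a = fR w ⟨σ, η⟩ - gR θ x t - bR σ η

/-- the gain of a slot -/
noncomputable def gs (w w1 : ℂ) (a : ℝ) (ζ ζ' : ℂ) : ℝ := fR w1 ζ' - fR w ζ + a

theorem bR_nonneg {σ η : ℝ} (h : 0 ≤ η) : 0 ≤ bR σ η := by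
  unfold bR
  have := le_max_right σ 0
  have := Real.pi_pos
  positivity

/-! ### the ring variable stays -/

theorem keep_slot (E : RowsE) {g : ZK} {w w1 : ℂ} {a σ ρ : ℝ} (h : ZSl g w w1 a σ (ρ * LT.th σ))
    (hρ : 0 ≤ ρ) (hρ' : ρ ≤ 1045 / 10000) (h0 : -(3 / 10) ≤ σ) (h1 : σ ≤ 15 / 100) :
    0 ≤ gs w w1 a ⟨σ, ρ * LT.th σ⟩ ⟨σ, ρ * LT.th σ⟩ ∧
      (g = .rr → 0 < gs w w1 a ⟨σ, ρ * LT.th σ⟩ ⟨σ, ρ * LT.th σ⟩) := by
  have hσ : |σ| ≤ 3 / 10 := abs_le.mpr ⟨by linarith only [h0], by linarith only [h1]⟩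
  unfold gs
  cases g
  · obtain ⟨e1, e2, -⟩ := h.md rfl
    rw [e1, e2]
    exact ⟨by linarith only [], fun h => absurd h (by decide)⟩
  · obtain ⟨e1, e2, -⟩ := h.mr rfl
    rw [e1, e2]
    exact ⟨by linarith only [], fun h => absurd h (by decide)⟩
  · obtain ⟨q, e1, e2⟩ := h.rr rfl
    have := (e1.near (by decide) hρ hρ' hσ).2 rfl
    rw [e2]
    exact ⟨by linarith only [this], fun _ => by linarith only [this]⟩
  · obtain ⟨θ, x, t, e1, e2, e3⟩ := h.dd rfl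
    have := E.e2 θ x t σ ρ e1 h0 h1 hρ hρ'
    rw [e2, e3]
    exact ⟨by linarith only [this], fun h => absurd h (by decide)⟩

/-! ### the ring variable is reflected -/

theorem flip_slot (E : RowsE) {g : ZK} {w w1 : ℂ} {a σ ρ : ℝ} (h : ZSl g w w1 a σ (ρ * LT.th σ))
    (hρ : 0 ≤ ρ) (hρ' : ρ ≤ 1045 / 10000) (h0 : 15 / 100 < σ) (h1 : σ ≤ 3 / 10) :
    -(2 * Real.pi * (ρ * LT.th σ)) ≤ gs w w1 a ⟨σ, ρ * LT.th σ⟩ ⟨-σ, ρ * LT.th σ⟩ ∧
      (g = .dd → -(2 * Real.pi * (ρ * LT.th σ) * σ) ≤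
        gs w w1 a ⟨σ, ρ * LT.th σ⟩ ⟨-σ, ρ * LT.th σ⟩) ∧
      (g = .rr → 0 < gs w w1 a ⟨σ, ρ * LT.th σ⟩ ⟨-σ, ρ * LT.th σ⟩) := by
  have hpi := Real.pi_pos
  have hσ : |σ| ≤ 3 / 10 := abs_le.mpr ⟨by linarith only [h0], by linarith only [h1]⟩
  have hth : 0 ≤ LT.th σ := th_nonneg (by linarith only [hσ])
  have hη : 0 ≤ ρ * LT.th σ := mul_nonneg hρ hth
  unfold gs
  cases g
  · obtain ⟨e1, e2, -⟩ := h.md rfl
    have := flip_both (u := w.re) (Y := w.im) (s := σ) hη (by linarith only [h0]) (by linarith only [h1])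
    have e : w = ⟨w.re, w.im⟩ := rfl
    rw [← e] at this
    rw [e1, e2]
    exact ⟨by linarith only [this], fun h => absurd h (by decide), fun h => absurd h (by decide)⟩
  · obtain ⟨e1, e2, -⟩ := h.mr rfl
    have := flip_both (u := w.re) (Y := w.im) (s := σ) hη (by linarith only [h0]) (by linarith only [h1])
    have e : w = ⟨w.re, w.im⟩ := rfl
    rw [← e] at this
    rw [e1, e2]
    exact ⟨by linarith only [this], fun h => absurd h (by decide), fun h => absurd h (by decide)⟩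
  · obtain ⟨q, e1, e2⟩ := h.rr rfl
    have b1 := e1.mode_le (show |σ| ≤ 1 / 2 by linarith only [hσ]) hη
    obtain ⟨-, -, -, -, T, hT, e3⟩ := e1.mode rfl
    have b2 := row_K (T := T) (σ := -σ) hT (by rw [abs_neg]; exact hσ) hρ hρ'
    rw [th_neg] at b2
    rw [e2, e3]
    have b3 : 0 ≤ Real.pi * (ρ * LT.th σ) := mul_nonneg hpi.le hη
    exact ⟨by linarith only [b1, b2, b3], fun h => absurd h (by decide), fun _ => by linarith only [b1, b2]⟩
  · obtain ⟨θ, x, t, e1, e2, e3⟩ := h.dd rfl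
    have b1 := E.e2 θ x t (-σ) ρ e1 (by linarith only [h1]) (by linarith only [h0]) hρ hρ'
    rw [th_neg] at b1
    have b2 : bR (-σ) (ρ * LT.th σ) = 0 := by
      unfold bR
      rw [max_eq_right (by linarith only [h0]), mul_zero]
    have b3 : bR σ (ρ * LT.th σ) = 2 * Real.pi * (ρ * LT.th σ) * σ := by
      unfold bR
      rw [max_eq_left (by linarith only [h0])]
    rw [b2] at b1
    rw [e2, e3, b3]
    have b4 : 0 ≤ 2 * Real.pi * (ρ * LT.th σ) := by positivity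
    refine ⟨?_, fun _ => by linarith only [b1], fun h => absurd h (by decide)⟩
    nlinarith only [b1, b4, h1]

/-! ### the ring variable moves to `-11/40` -/

theorem dd_low (E : RowsE) {θ x t ρ : ℝ} (hT : Tgt θ x t) (hρ : 0 ≤ ρ) (hρ' : ρ ≤ 1045 / 10000) :
    (995 / 10000 + 94 / 100 * ρ ≤ fR ⟨x, -t⟩ (zM ρ) - gR θ x t) ∨
    (107 / 1000 + 64 / 100 * ρ ≤ fR ⟨x, -t⟩ (zM ρ) - gR θ x t) ∨
    (111 / 1000 ≤ fR ⟨x, -t⟩ (zM ρ) - gR θ x t ∧
      92 / 1000 + 94 / 100 * ρ ≤ fR ⟨x, -t⟩ (zM ρ) - gR θ x t) := by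
  unfold gR zM
  rcases hT.or with ⟨rfl, h1, h2, rfl⟩ | ⟨rfl, h1, h2, rfl⟩ | ⟨rfl, h1, h2, rfl⟩ | ⟨rfl, h1, h2, rfl⟩
  · left
    have := E.e5a t ρ h1 h2 hρ hρ'
    linarith only [this]
  · left
    have := E.e5a t ρ (by linarith only [h1]) h2 hρ hρ'
    linarith only [this]
  · right; left
    have := E.e5b t ρ h1 h2 hρ hρ'
    linarith only [this]
  · right; right
    have a1 := E.e5c t ρ h1 h2 hρ hρ'
    have a2 := E.e5d t ρ h1 h2 hρ hρ'
    constructor <;> linarith only [a2, a1]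

/-- lower bounds for the quadratic part -/
theorem q4_low {σ ρ : ℝ} (hρ : 0 ≤ ρ) (h0 : 3 / 10 < |σ|) (h1 : |σ| ≤ 1 / 2) :
    -(101 / 100 * ρ) ≤ q4 σ ρ - bR σ (ρ * LT.th σ) ∧
    -(101 / 100 * ρ) ≤ q4 σ ρ - 2 * bR σ (ρ * LT.th σ) ∧
    -(298 / 100 * ρ) ≤ q4 σ ρ - Real.pi * (ρ * LT.th σ) ∧ -(101 / 100 * ρ) ≤ q4 σ ρ := by
  have hpi := Real.pi_pos
  have hpi4 : Real.pi < 3.1416 := Real.pi_lt_d4
  have hpr : 0 ≤ Real.pi * ρ := by positivity
  have hpr2 : Real.pi * ρ ≤ 3.1416 * ρ := mul_le_mul_of_nonneg_right hpi4.le hρ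
  unfold q4 bR
  rw [th_of_ge (by linarith only [h0])]
  rcases le_or_gt 0 σ with h | h
  · rw [abs_of_nonneg h] at h0 h1 ⊢
    rw [max_eq_left h]
    have k1 : 0 ≤ 2 - 4 * σ := by linarith only [h1]
    have k2 : 0 ≤ Real.pi * ρ * ((2 - 4 * σ) * (4 * σ + 1 - 2 * σ)) := by
      have : 0 ≤ 4 * σ + 1 - 2 * σ := by linarith only [h0]
      positivity
    have k3 : 0 ≤ Real.pi * ρ * ((2 - 4 * σ) * σ) := by positivity
    have k4 : 0 ≤ Real.pi * ρ * (2 - 4 * σ) := by positivity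
    refine ⟨?_, ?_, ?_, ?_⟩ <;> nlinarith only [hρ, hpr, k2, k3]
  · have hσ : |σ| = -σ := abs_of_neg h
    rw [hσ] at h0 h1 ⊢
    rw [max_eq_right h.le]
    have k1 : 0 ≤ Real.pi * ρ * ((2 - 4 * -σ) * (4 * σ + 1) + 1 / 4) := by
      have : 0 ≤ (2 - 4 * -σ) * (4 * σ + 1) + 1 / 4 := by nlinarith only [sq_nonneg (σ + 3 / 8)]
      positivity
    have k2 : 0 ≤ Real.pi * ρ * ((2 - 4 * -σ) * (8 * σ + 1) + 9 / 8) := by
      have : 0 ≤ (2 - 4 * -σ) * (8 * σ + 1) + 9 / 8 := by nlinarith only [sq_nonneg (σ + 5 / 16)]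
      positivity
    refine ⟨?_, ?_, ?_, ?_⟩ <;> nlinarith only [hρ, hpr2, k1, k2]

/-- the change of the quadratic part, `n ≥ 4` -/
theorem quad_ge {n σ ρ : ℝ} (hn : 4 ≤ n) (hρ : 0 ≤ ρ) (h0 : 3 / 10 < |σ|) (h1 : |σ| ≤ 1 / 2) :
    q4 σ ρ ≤ (Real.pi * Complex.I * n * zM ρ ^ 2 + 2 * Real.pi * Complex.I * zM ρ).re -
      (Real.pi * Complex.I * n * (⟨σ, ρ * LT.th σ⟩ : ℂ) ^ 2 +
      2 * Real.pi * Complex.I * (⟨σ, ρ * LT.th σ⟩ : ℂ)).re := by
  have hpi := Real.pi_pos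
  rw [quad_diff]
  unfold q4
  have hth : LT.th σ = 2 - 4 * |σ| := th_of_ge (by linarith only [h0])
  have k : 0 ≤ 99 / 400 + LT.th σ * σ := by
    rw [hth]
    rcases le_or_gt 0 σ with h | h
    · rw [abs_of_nonneg h] at h0 h1 ⊢
      nlinarith only [h1, h0]
    · rw [abs_of_neg h] at h0 h1 ⊢
      nlinarith only [h0, h]
  have k2 : 0 ≤ 2 * Real.pi * ρ * ((n - 4) * (99 / 400 + LT.th σ * σ)) := by
    have : 0 ≤ n - 4 := by linarith only [hn]
    positivity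
  nlinarith only [k2]

theorem move_md (E : RowsE) {w w1 : ℂ} {a σ η ρ : ℝ} (h : ZSl .md w w1 a σ η)
    (hη : η = ρ * LT.th σ) (hρ : 0 ≤ ρ) (hρ' : ρ ≤ 1045 / 10000) (h0 : 3 / 10 < |σ|)
    (h1 : |σ| ≤ 1 / 2) : -(958 / 10000 - 85 / 100 * ρ) ≤ gs w w1 a ⟨σ, η⟩ (zM ρ) := by
  subst hη
  obtain ⟨e1, e2, a1, a2, a3, a4, a5, a6, a7⟩ := h.md rfl
  have := E.e1 w.re w.im σ ρ a1 a2 a3 a4 a5 a6 a7 h0.le h1 hρ hρ'
  have e : w = ⟨w.re, w.im⟩ := rfl
  rw [← e] at this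
  unfold gs
  rw [e1, e2]
  unfold zM
  linarith only [this]

/-- **The side of the ring.** -/
theorem ring_ok0 (E : RowsE) {g g' : ZK} {w w1 w' w1' : ℂ} {a a' σ ρ n : ℝ}
    (h : ZSl g w w1 a σ (ρ * LT.th σ)) (h' : ZSl g' w' w1' a' σ (ρ * LT.th σ)) (hn : 4 ≤ n)
    (hρ : 0 ≤ ρ) (hρ' : ρ ≤ 1045 / 10000) (hσ : |σ| ≤ 1 / 2) (hg : g = .rr ∨ g = .dd) :
    0 ≤ VR n w1 w1' (nz σ ρ) - VR n w w' ⟨σ, ρ * LT.th σ⟩ + a + a' ∧
      (g = .rr ∨ g' = .rr → 0 < VR n w1 w1' (nz σ ρ) - VR n w w' ⟨σ, ρ * LT.th σ⟩ + a + a') := by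
  have hpi := Real.pi_pos
  have hpi4 : Real.pi < 3.15 := Real.pi_lt_d2
  have hth : 0 ≤ LT.th σ := th_nonneg hσ
  have hη : 0 ≤ ρ * LT.th σ := mul_nonneg hρ hth
  by_cases c1 : 3 / 10 < |σ|
  · -- move
    have ez : nz σ ρ = zM ρ := by
      unfold nz
      rw [if_pos c1]
    rw [ez]
    have hq := quad_ge hn hρ c1 hσ
    obtain ⟨q1, q2, q3, q0⟩ := q4_low hρ c1 hσ
    have hth2 : LT.th σ ≤ 8 / 10 := by
      rw [th_of_ge (by linarith only [c1])]
      linarith only [c1]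
    have hη2 : Real.pi * (ρ * LT.th σ) ≤ 2634 / 10000 := by
      have b1 : ρ * LT.th σ ≤ 1045 / 10000 * (8 / 10) :=
        mul_le_mul hρ' hth2 hth (by norm_num)
      nlinarith only [hpi4, hpi, b1]
    have rrlow : ∀ {w w1 : ℂ} {a : ℝ}, ZSl .rr w w1 a σ (ρ * LT.th σ) →
        354 / 1000 + 18 / 100 * ρ - Real.pi * (ρ * LT.th σ) <
          gs w w1 a ⟨σ, ρ * LT.th σ⟩ (zM ρ) := by
      intro w w1 a h
      obtain ⟨q, e1, e2⟩ := h.rr rfl
      have b1 := e1.mode_le hσ hη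
      obtain ⟨-, -, -, -, T, hT, e3⟩ := e1.mode rfl
      have b2 := row_g hT hρ hρ'
      unfold gs
      rw [e2, e3]
      linarith only [b1, b2]
    have key : ∀ {Q : ℝ}, VR n w1 w1' (zM ρ) - VR n w w' ⟨σ, ρ * LT.th σ⟩ + a + a' =
        ((Real.pi * Complex.I * n * zM ρ ^ 2 + 2 * Real.pi * Complex.I * zM ρ).re -
      (Real.pi * Complex.I * n * (⟨σ, ρ * LT.th σ⟩ : ℂ) ^ 2 +
      2 * Real.pi * Complex.I * (⟨σ, ρ * LT.th σ⟩ : ℂ)).re) +
        gs w w1 a ⟨σ, ρ * LT.th σ⟩ (zM ρ) + gs w' w1' a' ⟨σ, ρ * LT.th σ⟩ (zM ρ) := by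
      intro Q
      rw [VR_fR, VR_fR]
      unfold gs
      ring
    rw [key (Q := 0)]
    rcases hg with rfl | rfl
    · -- `rr`
      have g1 := rrlow h
      have main : 0 < q4 σ ρ + gs w w1 a ⟨σ, ρ * LT.th σ⟩ (zM ρ) +
          gs w' w1' a' ⟨σ, ρ * LT.th σ⟩ (zM ρ) := by
        cases g'
        · have g2 := move_md E h' rfl hρ hρ' c1 hσ
          linarith only [hρ', q3, g1, g2]
        · -- by `ring_far`
          obtain ⟨q, e1, e2⟩ := h.rr rfl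
          obtain ⟨f1, f2, f3, f4, f5, f6, f7⟩ := h'.mr rfl
          have h'' : MSlot .main w' w1' 0 :=
            ⟨fun _ => ⟨f1, rfl, f3, f4, by linarith only [f5], by linarith only [f3, f6]⟩, fun h => absurd h (by decide),
              fun h => absurd h (by decide)⟩
          have b := ring_far e1 h'' (by decide) (n := 4) le_rfl hρ hρ' c1 hσ
          rw [VR_fR, VR_fR] at b
          have b2 := quad_diff 4 ρ σ
          unfold gs q4
          rw [e2, f2]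
          have e4 : ((4 : ℝ) : ℂ) = (4 : ℂ) := by norm_num
          linarith only [b, b2]
        · have g2 := rrlow h'
          linarith only [hρ', q3, hη2, g1, g2]
        · obtain ⟨θ, x, t, e1, e2, e3⟩ := h'.dd rfl
          have g2 : 92 / 1000 - bR σ (ρ * LT.th σ) ≤ gs w' w1' a' ⟨σ, ρ * LT.th σ⟩ (zM ρ) := by
            unfold gs
            rw [e2, e3]
            rcases dd_low E e1 hρ hρ' with b | b | b
            · linarith only [hρ, b]
            · linarith only [hρ, b]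
            · linarith only [b, b.1]
          linarith only [hρ', q2, q3, hη2, g1, g2]
      exact ⟨by linarith only [hq, main], fun _ => by linarith only [hq, main]⟩
    · -- `dd`
      obtain ⟨θ, x, t, e1, e2, e3⟩ := h.dd rfl
      have G := dd_low E e1 hρ hρ'
      have g1 : gs w w1 a ⟨σ, ρ * LT.th σ⟩ (zM ρ) =
          (fR ⟨x, -t⟩ (zM ρ) - gR θ x t) - bR σ (ρ * LT.th σ) := by
        unfold gs
        rw [e2, e3]
        ring
      cases g'
      · have g2 := move_md E h' rfl hρ hρ' c1 hσ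
        refine ⟨?_, fun h => by rcases h with h | h <;> exact absurd h (by decide)⟩
        rcases G with G | G | G
        · linarith only [hρ, hq, q1, g1, g2, G]
        · linarith only [hρ, hq, q1, g1, g2, G]
        · rcases le_total ρ (5 / 100) with c | c
          · linarith only [hρ', hq, q1, g1, g2, G, G.1]
          · linarith only [hq, q1, g1, g2, G, c, G.2]
      · obtain ⟨f1, f2, f3, f4, f5, f6, f7⟩ := h'.mr rfl
        refine ⟨?_, fun h => by rcases h with h | h <;> exact absurd h (by decide)⟩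
        have e : w' = ⟨w'.re, w'.im⟩ := rfl
        have g2 : gs w' w1' a' ⟨σ, ρ * LT.th σ⟩ (zM ρ) =
            -(fR w' ⟨σ, ρ * LT.th σ⟩ - fR w' ⟨-(11 / 40), 9 / 10 * ρ⟩) := by
          unfold gs zM
          rw [f1, f2]
          ring
        rcases G with G | G | G
        · have b := E.e4b w'.re w'.im σ ρ f3 f4 f5 f6 f7 c1.le hσ hρ hρ'
          rw [← e] at b
          linarith only [hq, g1, g2, G, b]
        · have b := E.e4a w'.re w'.im σ ρ f3 f4 f5 f6 f7 c1.le hσ hρ hρ'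
          rw [← e] at b
          linarith only [hq, g1, g2, G, b]
        · have b := E.e4b w'.re w'.im σ ρ f3 f4 f5 f6 f7 c1.le hσ hρ hρ'
          rw [← e] at b
          linarith only [hq, g1, g2, G, b, G.2]
      · have g2 := rrlow h'
        have : 92 / 1000 ≤ fR ⟨x, -t⟩ (zM ρ) - gR θ x t := by
          rcases G with G | G | G
          · linarith only [hρ, G]
          · linarith only [hρ, G]
          · linarith only [G, G.1]
        exact ⟨by linarith only [hρ', hq, q2, q3, hη2, g1, g2, this], fun _ => by linarith only [hρ', hq, q2, q3, hη2, g1, g2, this]⟩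
      · obtain ⟨θ', x', t', e1', e2', e3'⟩ := h'.dd rfl
        have G' := dd_low E e1' hρ hρ'
        have g2 : gs w' w1' a' ⟨σ, ρ * LT.th σ⟩ (zM ρ) =
            (fR ⟨x', -t'⟩ (zM ρ) - gR θ' x' t') - bR σ (ρ * LT.th σ) := by
          unfold gs
          rw [e2', e3']
          ring
        have c : 92 / 1000 ≤ fR ⟨x, -t⟩ (zM ρ) - gR θ x t := by
          rcases G with G | G | G
          · linarith only [hρ, G]
          · linarith only [hρ, G]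
          · linarith only [G, G.1]
        have c' : 92 / 1000 ≤ fR ⟨x', -t'⟩ (zM ρ) - gR θ' x' t' := by
          rcases G' with G | G | G
          · linarith only [hρ, G]
          · linarith only [hρ, G]
          · linarith only [G, G.1]
        exact ⟨by linarith only [hρ', hq, q2, g1, g2, c, c'], fun h => by rcases h with h | h <;> exact absurd h (by decide)⟩
  have hσ3 : |σ| ≤ 3 / 10 := not_lt.1 c1
  obtain ⟨s0, s1⟩ := abs_le.mp hσ3
  by_cases c2 : 15 / 100 < σ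
  · -- reflected
    have ez : nz σ ρ = ⟨-σ, ρ * LT.th σ⟩ := by
      unfold nz
      rw [if_neg c1, if_pos c2]
    rw [ez]
    obtain ⟨k1, k2, k3⟩ := flip_slot E h hρ hρ' c2 s1
    obtain ⟨l1, l2, l3⟩ := flip_slot E h' hρ hρ' c2 s1
    have hQ : (Real.pi * Complex.I * n * (⟨-σ, ρ * LT.th σ⟩ : ℂ) ^ 2 +
      2 * Real.pi * Complex.I * (⟨-σ, ρ * LT.th σ⟩ : ℂ)).re -
      (Real.pi * Complex.I * n * (⟨σ, ρ * LT.th σ⟩ : ℂ) ^ 2 +
      2 * Real.pi * Complex.I * (⟨σ, ρ * LT.th σ⟩ : ℂ)).re = 4 * Real.pi * n * σ * (ρ * LT.th σ) := by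
      simp [pow_two]
      ring
    have key : VR n w1 w1' ⟨-σ, ρ * LT.th σ⟩ - VR n w w' ⟨σ, ρ * LT.th σ⟩ + a + a' =
        4 * Real.pi * n * σ * (ρ * LT.th σ) + gs w w1 a ⟨σ, ρ * LT.th σ⟩ ⟨-σ, ρ * LT.th σ⟩ +
          gs w' w1' a' ⟨σ, ρ * LT.th σ⟩ ⟨-σ, ρ * LT.th σ⟩ := by
      rw [← hQ, VR_fR, VR_fR]
      unfold gs
      ring
    rw [key]
    have hpη : 0 ≤ Real.pi * (ρ * LT.th σ) := mul_nonneg hpi.le hη
    have hQ2 : 16 * σ * (Real.pi * (ρ * LT.th σ)) ≤ 4 * Real.pi * n * σ * (ρ * LT.th σ) := by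
      have : 0 ≤ (n - 4) * σ * (Real.pi * (ρ * LT.th σ)) := by
        have : 0 ≤ n - 4 := by linarith only [hn]
        have : 0 ≤ σ := by linarith only [c2]
        positivity
      nlinarith only [this]
    have hQ3 : 2 * (Real.pi * (ρ * LT.th σ)) + 2 * σ * (Real.pi * (ρ * LT.th σ)) ≤
        16 * σ * (Real.pi * (ρ * LT.th σ)) := by nlinarith only [s0, hpη, c2]
    have hQ4 : 0 ≤ σ * (Real.pi * (ρ * LT.th σ)) := by
      have : 0 ≤ σ := by linarith only [c2]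
      positivity
    rcases hg with rfl | rfl
    · have := k3 rfl
      exact ⟨by linarith only [l1, hpη, hQ2, hQ3, this], fun _ => by linarith only [l1, hpη, hQ2, hQ3, this]⟩
    · have k := k2 rfl
      refine ⟨by linarith only [l1, hQ2, hQ3, k], fun hr => ?_⟩
      rcases hr with hr | hr
      · exact absurd hr (by decide)
      · have := l3 hr
        linarith only [k1, hpη, hQ2, hQ3, this]
  · -- kept
    have ez : nz σ ρ = ⟨σ, ρ * LT.th σ⟩ := by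
      unfold nz
      rw [if_neg c1, if_neg c2]
    rw [ez]
    obtain ⟨k1, k2⟩ := keep_slot E h hρ hρ' s0 (not_lt.1 c2)
    obtain ⟨l1, l2⟩ := keep_slot E h' hρ hρ' s0 (not_lt.1 c2)
    have key : VR n w1 w1' ⟨σ, ρ * LT.th σ⟩ - VR n w w' ⟨σ, ρ * LT.th σ⟩ + a + a' =
        gs w w1 a ⟨σ, ρ * LT.th σ⟩ ⟨σ, ρ * LT.th σ⟩ +
          gs w' w1' a' ⟨σ, ρ * LT.th σ⟩ ⟨σ, ρ * LT.th σ⟩ := by
      rw [VR_fR, VR_fR]
      unfold gs
      ring
    rw [key]
    refine ⟨by linarith only [k1, l1], fun hr => ?_⟩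
    rcases hr with hr | hr
    · have := k2 hr
      linarith only [l1, this]
    · have := l2 hr
      linarith only [k1, this]

/-- **The side of the ring**, both slots. -/
theorem ring_ok (E : RowsE) {g g' : ZK} {w w1 w' w1' : ℂ} {a a' σ ρ n : ℝ}
    (h : ZSl g w w1 a σ (ρ * LT.th σ)) (h' : ZSl g' w' w1' a' σ (ρ * LT.th σ)) (hn : 4 ≤ n)
    (hρ : 0 ≤ ρ) (hρ' : ρ ≤ 1045 / 10000) (hσ : |σ| ≤ 1 / 2)
    (hg : (g = .rr ∨ g = .dd) ∨ g' = .rr ∨ g' = .dd) :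
    0 ≤ VR n w1 w1' (nz σ ρ) - VR n w w' ⟨σ, ρ * LT.th σ⟩ + a + a' ∧
      (g = .rr ∨ g' = .rr → 0 < VR n w1 w1' (nz σ ρ) - VR n w w' ⟨σ, ρ * LT.th σ⟩ + a + a') := by
  rcases hg with hg | hg
  · exact ring_ok0 E h h' hn hρ hρ' hσ hg
  · have k := ring_ok0 E h' h hn hρ hρ' hσ hg
    rw [VR_comm n w1 w1', VR_comm n w w']
    exact ⟨by linarith only [k, k.1], fun hr => by linarith only [k, hr, k.2 hr.symm]⟩

end ZD

end Pool.Agent.Work.MP_b30479_gt.G2
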