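import Pool.Agent.Work.MP_b30479_gt.G2.M3N
import Pool.Agent.Work.MP_b30479_gt.G2.TRc
import Pool.Agent.Work.MP_b30479_gt.G2.WMMN
import Pool.Agent.Work.MP_b30479_gt.G2.ZRows

/-!
# Modes at rings: positions and changes of the values in a word
-/

namespace Pool.Agent.Work.MP_b30479_gt.G2

open Finset VOL Filter Topology NumU

namespace SR

variable {M : ℕ} {b : Fin (M + 1) → ℤ} {zs : DD (tyW b) ⊕ ZZ (tyW b) → ℂ}
variable {R : Finset (DD (tyW b))} {nb : Finset (DD (tyW b) ⊕ ZZ (tyW b))}
variable {z : DD (tyW b) ⊕ ZZ (tyW b) → ℂ} {p : DD (tyW b) → ℝ}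
variable {h h' : Fin M} {i j j' : Fin (M + 1)} {s : Fin 3} {x c : ℝ}

/-! ### heights of the mirrored paths at rings -/

theorem rh_frame (A : Adj h i s j) (hi : clsW b i ≠ .ring) (hj : clsW b j = .ring) :
    (if 0 < b i then rhu b zs h else rhd b zs h) = rnear (Th b zs h i) ∧
      (if 0 < b i then rhd b zs h else rhu b zs h) = rfar (Th b zs h i) := by
  cases A with
  | l =>
    unfold rhu rhd Th
    rw [if_neg hi, if_neg hi]
    by_cases h0 : 0 < b h.castSucc
    · simp only [if_pos h0]
      constructor <;> trivial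
    · simp only [if_neg h0]
      constructor <;> trivial
  | r =>
    unfold rhu rhd Th
    rw [if_pos hj, if_pos hj, if_neg hi, if_neg hi]
    by_cases h0 : 0 < b h.succ
    · simp only [if_pos h0]
      constructor <;> trivial
    · simp only [if_neg h0]
      constructor <;> trivial

theorem mhu_ring (hr : RH1 b (.inl h)) : mhu b zs (.inl h) = rhu b zs h := by
  simp only [RH1] at hr
  simp only [mhu, if_pos hr]

theorem mhd_ring (hr : RH1 b (.inl h)) : mhd b zs (.inl h) = rhd b zs h := by
  simp only [RH1] at hr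
  simp only [mhd, if_pos hr]

theorem Adj.rh1 (A : Adj h i s j) (hj : clsW b j = .ring) : RH1 b (.inl h) := by
  cases A
  · exact Or.inr hj
  · exact Or.inl hj

/-- heights of the mirrored paths in the frame of the region `i` with the hinge in its slot `s`,
the region behind is `j` -/
noncomputable def Hup (b : Fin (M + 1) → ℤ) (h : Fin M) (s : Fin 3) (j : Fin (M + 1)) : ℝ :=
  if clsW b j = .ring then 16 / 100 else mhs b h s.rev

noncomputable def Hdn (b : Fin (M + 1) → ℤ) (h : Fin M) (s : Fin 3) (j : Fin (M + 1)) : ℝ :=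
  if clsW b j = .ring then 10000 else mhs b h s

/-- **Position of any hinge in the frame of a region which is no ring.** -/
theorem MM.pstA (hb : ClassW b) (hR : ∀ i ∈ R, Sum.inl i ∈ nb) (hM : MM b zs R nb z p)
    (A : Adj h i s j) (hi : clsW b i ≠ .ring) (hnR : (Sum.inl h : DD (tyW b)) ∉ R) :
    Pst (Th b zs h i) (Hup b h s j) (Hdn b h s j) (wXM b h) (wcl b h) (wcr b h) (Ow b z i s)
      (p (.inl h)) := by
  by_cases hn : Sum.inl (Sum.inl h) ∈ nb
  · obtain ⟨e1, e2, e3, e4⟩ := hM.adm.reD _ hnR hn
    rw [Ow_adj z A]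
    refine ⟨(z (.inl (.inl h))).re, e2, e3, ofr_re _ _, Or.inl ⟨?_, e4⟩⟩
    rw [ofr_im, e1, ofs_zero]
  by_cases hj : clsW b j = .ring
  · have hr := A.rh1 hj
    unfold Hup Hdn
    rw [if_pos hj, if_pos hj, Ow_adj z A]
    obtain ⟨f1, f2⟩ := rh_frame (zs := zs) A hi hj
    obtain ⟨x, h0, h1, h2⟩ := hM.adm.onD (.inl h) hn
    have hu : (wparM b zs).hu (.inl h) = rhu b zs h := mhu_ring hr
    have hd : (wparM b zs).hd (.inl h) = rhd b zs h := mhd_ring hr
    rw [hu, hd] at h2
    have ht := trh_mem (b := b) h x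
    refine ⟨x, h0, h1, ?_, ?_⟩
    · rw [ofr_re]
      rcases h2 with h2 | h2 | h2 <;> rw [h2.1, ptm_re]
    rw [ofr_im]
    have him : ∀ H : ℝ, (pt 0 ((wparM b zs).XM (.inl h)) ((wparM b zs).cl (.inl h))
        ((wparM b zs).cr (.inl h)) H x).im = H * trh b h x := fun H => ptm_im _ _ _ _ _ _
    have htr : tr 0 ((wparM b zs).XM (.inl h)) ((wparM b zs).cl (.inl h))
        ((wparM b zs).cr (.inl h)) x = trh b h x := rfl
    rw [htr] at h2
    -- the two mirrored paths in the frame of `i`
    have up : (z (.inl (.inl h)) = pt 0 ((wparM b zs).XM (.inl h)) ((wparM b zs).cl (.inl h))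
        ((wparM b zs).cr (.inl h)) (rhu b zs h) x ∧ p (.inl h) = rhu b zs h * trh b h x) ∨
        (z (.inl (.inl h)) = pt 0 ((wparM b zs).XM (.inl h)) ((wparM b zs).cl (.inl h))
        ((wparM b zs).cr (.inl h)) (-rhd b zs h) x ∧ p (.inl h) = rhd b zs h * trh b h x) →
        (ofs (b i) (z (.inl (.inl h))).im = rnear (Th b zs h i) * trh b h x ∧
          p (.inl h) = rnear (Th b zs h i) * trh b h x) ∨
        (ofs (b i) (z (.inl (.inl h))).im = -(rfar (Th b zs h i) * trh b h x) ∧
          p (.inl h) = rfar (Th b zs h i) * trh b h x) := by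
      intro h3
      by_cases hbi : 0 < b i
      · rw [if_pos hbi] at f1 f2
        rw [f1, f2] at h3
        rcases h3 with ⟨e1, e2⟩ | ⟨e1, e2⟩
        · left
          refine ⟨?_, e2⟩
          rw [e1, him, ofs_pos hbi]
        · right
          refine ⟨?_, e2⟩
          rw [e1, him, ofs_pos hbi]
          ring
      · have ho : ∀ m : ℝ, ofs (b i) m = -m := fun m => by unfold ofs; rw [if_neg hbi]
        rw [if_neg hbi] at f1 f2
        rw [f1, f2] at h3
        rcases h3 with ⟨e1, e2⟩ | ⟨e1, e2⟩
        · right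
          refine ⟨?_, e2⟩
          rw [e1, him, ho]
        · left
          refine ⟨?_, e2⟩
          rw [e1, him, ho]
          ring
    have pz : ofs (b i) (z (.inl (.inl h))).im = Th b zs h i * trh b h x → 0 ≤ p (.inl h) →
        p (.inl h) = 0 := by
      intro e1 e2
      refine le_antisymm (hM.pen_zero hR hn ⟨x, h0, h1, Or.inl ⟨?_, rfl⟩⟩) e2
      have hre : (z (.inl (.inl h))).re = x := by
        rcases h2 with h2 | h2 | h2 <;> rw [h2.1, ptm_re]
      apply Complex.ext
      · rw [hre, ptm_re]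
      · have e3 := him (zs (.inl (.inl h))).im
        rw [e3]
        unfold Th at e1
        rw [← ofs_mulR] at e1
        unfold ofs at e1
        split_ifs at e1 <;> linarith
    rcases h2 with ⟨e1, e2⟩ | h2
    · right; left
      refine ⟨?_, e2⟩
      rw [e1, him, ofs_mulR]
      rfl
    · rcases up h2 with ⟨e1, e2⟩ | ⟨e1, e2⟩
      · unfold rnear at e1 e2
        by_cases hT : 0 < Th b zs h i
        · rw [if_pos hT] at e1 e2
          right; left
          refine ⟨e1, pz e1 ?_⟩
          rw [e2]
          exact mul_nonneg hT.le ht.1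
        · rw [if_neg hT] at e1 e2
          right; right; left
          exact ⟨not_lt.1 hT, e1, e2⟩
      · unfold rfar at e1 e2
        by_cases hT : Th b zs h i < 0
        · rw [if_pos hT] at e1 e2
          right; left
          have e1' : ofs (b i) (z (.inl (.inl h))).im = Th b zs h i * trh b h x := by
            rw [e1]; ring
          refine ⟨e1', pz e1' ?_⟩
          rw [e2]
          exact mul_nonneg (by linarith) ht.1
        · rw [if_neg hT] at e1 e2
          right; right; right
          exact ⟨not_lt.1 hT, e1, e2⟩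
  · unfold Hup Hdn
    rw [if_neg hj, if_neg hj]
    exact hM.slot hb hR A hn hi hj

/-- the coordinate in the frame of the region behind -/
theorem Ow_opp (hb : ClassW b) (A : Adj h i s j) (hi : clsW b i ≠ .ring) :
    Ow b z j s.rev = ⟨(Ow b z i s).re, -(Ow b z i s).im⟩ := by
  have hs := sign_adj hb A hi
  rw [Ow_adj z A, Ow_adj z A.symm]
  apply Complex.ext
  · rw [ofr_re, ofr_re]
  · rw [ofr_im, ofr_im, ofs_neg_of_opp hs]

theorem Th_opp (hb : ClassW b) (A : Adj h i s j) (hi : clsW b i ≠ .ring) :
    Th b zs h j = -Th b zs h i := ofs_neg_of_opp (sign_adj hb A hi) _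

/-! ### changes of the values -/

theorem sl_ne (A : Adj h i s j) : s ≠ 1 ∧ s.rev ≠ 1 ∧ s.rev ≠ s := by
  cases A <;> decide

/-- digit `1` -/
theorem dv_one (hb : ClassW b) (A : Adj h i s j) (hc : clsW b i = .one) (u : ℂ) :
    OV b i (Function.update (Ow b z i) s u) - OV b i (Ow b z i) =
      ZD.gD1 u.re u.im (Ow b z i s.rev).re (Ow b z i s.rev).im -
        ZD.gD1 (Ow b z i s).re (Ow b z i s).im (Ow b z i s.rev).re (Ow b z i s.rev).im := by
  have e : ∀ w : ℂ, OV b i (Function.update (Ow b z i) s w) = V1 w (Ow b z i s.rev) := by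
    intro w
    rw [OV_one hb hc]
    cases A
    · rw [Function.update_self, Function.update_of_ne (by decide), V1_comm]
      rfl
    · rw [Function.update_self, Function.update_of_ne (by decide)]
      rfl
  have e2 := e (Ow b z i s)
  rw [Function.update_eq_self] at e2
  rw [e, e2]
  unfold V1 ZD.gD1
  simp only [UU_uu, Complex.add_re, Complex.add_im, Complex.sub_im, Complex.mul_im]
  ring

/-- digit `2` -/
theorem dv_two (hb : ClassW b) (A : Adj h i s j) (hc : clsW b i = .two ∨ clsW b i = .twoE) (u : ℂ) :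
    OV b i (Function.update (Ow b z i) s u) - OV b i (Ow b z i) =
      ZD.gD2 u.re u.im (Ow b z i s.rev).re (Ow b z i s.rev).im -
        ZD.gD2 (Ow b z i s).re (Ow b z i s).im (Ow b z i s.rev).re (Ow b z i s.rev).im := by
  have e : ∀ w : ℂ, OV b i (Function.update (Ow b z i) s w) = V2 w (Ow b z i s.rev) := by
    intro w
    rw [OV_two hb hc (endOk_upd A (Ow_endOk z i) _)]
    cases A
    · rw [Function.update_self, Function.update_of_ne (by decide), V2_comm]
      rfl
    · rw [Function.update_self, Function.update_of_ne (by decide)]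
      rfl
  have e2 := e (Ow b z i s)
  rw [Function.update_eq_self] at e2
  rw [e, e2]
  unfold V2 ZD.gD2
  simp only [UU_uu, Complex.add_re, Complex.add_im, Complex.sub_im, Complex.sub_re, pow_two,
    Complex.mul_im]
  ring

/-- digit `2` at an end -/
theorem dv_twoE (hb : ClassW b) (A : Adj h i s j) (hc : clsW b i = .twoE) (u : ℂ) :
    OV b i (Function.update (Ow b z i) s u) - OV b i (Ow b z i) =
      ZD.gD0 u.re u.im - ZD.gD0 (Ow b z i s).re (Ow b z i s).im := by
  rw [dv_two hb A (Or.inr hc), Ow_end A (clsW_end (Or.inl hc))]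
  unfold ZD.gD2 ZD.gD0
  simp only [Complex.zero_re, Complex.zero_im, add_zero, sub_zero]
  ring

/-- the function of the slot `0` of a digit `3` -/
theorem V3_sub0 (u u' v w : ℂ) : V3 u v w - V3 u' v w =
    ZD.gD1 u.re u.im (1 - v.re) (-v.im) - ZD.gD1 u'.re u'.im (1 - v.re) (-v.im) := by
  have e : ∀ u : ℂ, UU (v - u) = -uu (u.re + (1 - v.re)) (u.im + -v.im) := by
    intro u
    have := UU_one_sub (1 - (v - u))
    rw [sub_sub_cancel] at this
    rw [this, UU_uu]
    congr 2
    · simp only [Complex.sub_re, Complex.one_re]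
      ring
    · simp only [Complex.sub_im, Complex.one_im]
      ring
  unfold V3 ZD.gD1
  rw [e u, e u']
  simp only [UU_uu, Complex.add_im, Complex.sub_im, Complex.mul_im, Complex.mul_re,
    pow_two, Complex.re_ofNat, Complex.im_ofNat]
  ring

/-- the function of the slot `2` of a digit `3` -/
theorem V3_two (u v w w' : ℂ) : V3 u v w - V3 u v w' =
    ZD.gD2 w.re w.im v.re v.im - ZD.gD2 w'.re w'.im v.re v.im := by
  unfold V3 ZD.gD2
  simp only [UU_uu, Complex.add_re, Complex.add_im, Complex.sub_re, Complex.sub_im, Complex.mul_im,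
    pow_two]
  rw [add_comm v.re w.re, add_comm v.im w.im, add_comm v.re w'.re, add_comm v.im w'.im]
  ring

theorem dv_three0 (hb : ClassW b) (hc : clsW b i = .three) (u : ℂ) :
    OV b i (Function.update (Ow b z i) 0 u) - OV b i (Ow b z i) =
      ZD.gD1 u.re u.im (1 - (Ow b z i 1).re) (-(Ow b z i 1).im) -
        ZD.gD1 (Ow b z i 0).re (Ow b z i 0).im (1 - (Ow b z i 1).re) (-(Ow b z i 1).im) := by
  rw [OV_three hb hc, OV_three hb hc, Function.update_self, Function.update_of_ne (by decide),
    Function.update_of_ne (by decide), V3_sub0]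

theorem dv_three2 (hb : ClassW b) (hc : clsW b i = .three) (u : ℂ) :
    OV b i (Function.update (Ow b z i) 2 u) - OV b i (Ow b z i) =
      ZD.gD2 u.re u.im (Ow b z i 1).re (Ow b z i 1).im -
        ZD.gD2 (Ow b z i 2).re (Ow b z i 2).im (Ow b z i 1).re (Ow b z i 1).im := by
  rw [OV_three hb hc, OV_three hb hc, Function.update_self, Function.update_of_ne (by decide),
    Function.update_of_ne (by decide), V3_two]

theorem dv_threeE (A : Adj h i s j) (hc : clsW b i = .threeE) (u : ℂ) :
    OV b i (Function.update (Ow b z i) s u) - OV b i (Ow b z i) =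
      ZD.gD1 u.re u.im (1 - (Ow b z i 1).re) (-(Ow b z i 1).im) -
        ZD.gD1 (Ow b z i s).re (Ow b z i s).im (1 - (Ow b z i 1).re) (-(Ow b z i 1).im) := by
  rw [A.OV_threeE hc (endOk_upd A (Ow_endOk z i) _), A.OV_threeE hc (Ow_endOk z i),
    Function.update_self, Function.update_of_ne (by cases A <;> decide), V3_sub0]

/-- ring, one slot -/
theorem dv_ring (hb : ClassW b) (A : Adj h i s j) (hc : clsW b i = .ring) (u : ℂ) :
    OV b i (Function.update (Ow b z i) s u) - OV b i (Ow b z i) =
      fR u (Ow b z i 1) - fR (Ow b z i s) (Ow b z i 1) := by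
  have e : ∀ w : ℂ, OV b i (Function.update (Ow b z i) s w) =
      VR ((b i).natAbs : ℝ) w (Ow b z i s.rev) (Ow b z i 1) := by
    intro w
    rw [OV_ring hb hc (endOk_upd A (Ow_endOk z i) _)]
    cases A
    · rw [Function.update_self, Function.update_of_ne (by decide),
        Function.update_of_ne (by decide), VR_comm]
      rfl
    · rw [Function.update_self, Function.update_of_ne (by decide),
        Function.update_of_ne (by decide)]
      rfl
  have e2 := e (Ow b z i s)
  rw [Function.update_eq_self] at e2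
  rw [e, e2, VR_fR, VR_fR]
  ring

/-- **Comparison with the main path at a maximiser**: one hinge is moved. -/
theorem MM.one_move (hb : ClassW b) (hR : ∀ i ∈ R, Sum.inl i ∈ nb) (hM : MM b zs R nb z p)
    (A : Adj h i s j) (hn : Sum.inl (Sum.inl h) ∉ nb) (h0 : 0 ≤ c) (h1 : c ≤ wXM b h) :
    (OV b i (Function.update (Ow b z i) s (tgo b zs h i c)) - OV b i (Ow b z i)) +
      (OV b j (Function.update (Ow b z j) s.rev (tgo b zs h j c)) - OV b j (Ow b z j)) +
      2 * Real.pi * p (.inl h) ≤ 0 := by
  have k1 := SideG.keep (b := b) (zs := zs) (nb := nb) (z := z) (p := p) A (tg b zs h c)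
  have k2 := SideG.keep (b := b) (zs := zs) (nb := nb) (z := z) (p := p) A.symm (tg b zs h c)
  rw [ofr_tg] at k1 k2
  exact hM.star hb hR A hn (onP_tg h0 h1) k1 k2

end SR

end Pool.Agent.Work.MP_b30479_gt.G2
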