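import Pool.Agent.Work.MP_b30479_gt.G2.ZDd
import Pool.Agent.Work.MP_b30479_gt.G2.WMMA
import Pool.Agent.Work.MP_b30479_gt.G2.MDe
import Pool.Agent.Work.MP_b30479_gt.G2.WLocA

/-!
# Modes at rings: windows and neighbours in a word
-/

namespace Pool.Agent.Work.MP_b30479_gt.G2

open Finset VOL Filter Topology NumU

namespace SR

variable {M : ℕ} {b : Fin (M + 1) → ℤ} {zs : DD (tyW b) ⊕ ZZ (tyW b) → ℂ}
variable {R : Finset (DD (tyW b))} {nb : Finset (DD (tyW b) ⊕ ZZ (tyW b))}
variable {z : DD (tyW b) ⊕ ZZ (tyW b) → ℂ} {p : DD (tyW b) → ℝ}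
variable {h h' : Fin M} {i j j' : Fin (M + 1)} {s : Fin 3} {x c : ℝ}

/-! ### trapezoids -/

theorem tr_le_cl {b' c c' x : ℝ} (hc : 0 < c) (hx : 0 ≤ x) : tr 0 b' c c' x ≤ x / c := tr_le_l hc hx

theorem tr_le_cr {b' c c' x : ℝ} (hc : 0 < c') (hx : x ≤ b') : tr 0 b' c c' x ≤ (b' - x) / c' := by
  unfold tr
  apply max_le
  · apply div_nonneg (by linarith only [hx]) hc.le
  · exact (min_le_right _ _).trans (min_le_right _ _)

theorem tr_flat {b' c c' x : ℝ} (hc : 0 < c) (hc' : 0 < c') (h0 : c ≤ x) (h1 : x ≤ b' - c') :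
    tr 0 b' c c' x = 1 := by
  unfold tr
  rw [min_eq_left, max_eq_right zero_le_one]
  apply le_min
  · rw [sub_zero, le_div_iff₀ hc]
    linarith only [h0]
  · rw [le_div_iff₀ hc']
    linarith only [h1]

theorem tr_left {b' c c' x : ℝ} (hc : 0 < c) (hc' : 0 < c') (h0 : 0 ≤ x) (h1 : x ≤ b' - c') :
    tr 0 b' c c' x = min 1 (x / c) := by
  unfold tr
  rw [sub_zero, ← min_assoc]
  have h2 : 1 ≤ (b' - x) / c' := by
    rw [le_div_iff₀ hc']
    linarith only [h1]
  rw [min_eq_left ((min_le_left _ _).trans h2)]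
  apply max_eq_right
  apply le_min zero_le_one
  positivity

/-- parameters at a digit `1` -/
theorem Adj.par_one (A : Adj h i s j) (hc : clsW b i = .one) :
    (clsW b j = .one → (wXM b h = 80 / 100 ∨ wXM b h = 86 / 100) ∧ wcl b h = 15 / 100 ∧
      wcr b h = 20 / 100) ∧
    (clsW b j = .two → wXM b h = 80 / 100 ∧ wcl b h = 16 / 100 ∧ wcr b h = 29 / 100) ∧
    (clsW b j = .twoE → wXM b h = 70 / 100 ∧ wcl b h = 14 / 100 ∧ wcr b h = 35 / 100) ∧
    (clsW b j = .three → wXM b h = 65 / 100 ∧ 13 / 100 ≤ wcl b h) ∧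
    (clsW b j = .threeE → wXM b h = 60 / 100 ∧ wcl b h = 14 / 100) ∧
    (clsW b j = .ring → wXM b h = 65 / 100 ∧ wcl b h = 16 / 100 ∧ wcr b h = 29 / 100) := by
  rw [A.XM_eq b, A.cl_eq b, A.cr_eq b, hc]
  generalize oc b i s.rev = P
  generalize oc b j s = Q
  generalize clsW b j = B
  refine ⟨?_, ?_, ?_, ?_, ?_, ?_⟩
  · rintro rfl
    unfold hpp
    split_ifs <;> (simp only [hp]; split_ifs <;> norm_num)
  · rintro rfl
    unfold hpp
    split_ifs <;> simp [hp, hp1]
  · rintro rfl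
    unfold hpp
    split_ifs <;> simp [hp, hp1]
  · rintro rfl
    unfold hpp
    split_ifs <;> simp only [hp, hp1] <;> norm_num
  · rintro rfl
    unfold hpp
    split_ifs <;> simp [hp, hp1]
  · rintro rfl
    unfold hpp
    split_ifs <;> simp [hp, hp1]

/-- parameters at a digit `2` inside -/
theorem Adj.par_two (A : Adj h i s j) (hc : clsW b i = .two) :
    wXM b h ≤ 80 / 100 ∧ 10 / 100 ≤ wcl b h := by
  rw [A.XM_eq b, A.cl_eq b, hc]
  generalize oc b i s.rev = P
  generalize oc b j s = Q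
  generalize clsW b j = B
  unfold hpp
  split_ifs <;> cases B <;> simp only [hp, hp1] <;> norm_num

/-- parameters of the hinge between a region which is no ring and a ring -/
theorem Adj.par_ring (A : Adj h i s j) (hi : clsW b i ≠ .ring) (hj : clsW b j = .ring) :
    (clsW b i = .one → wXM b h = 65 / 100 ∧ wcl b h = 16 / 100 ∧ wcr b h = 29 / 100) ∧
    (clsW b i ≠ .one → wXM b h = 60 / 100) ∧
    (clsW b i = .three → s = 0 → wcl b h = 12 / 100 ∧ wcr b h = 30 / 100) ∧
    (clsW b i = .three → s = 2 → wcl b h = 13 / 100 ∧ wcr b h = 30 / 100) ∧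
    (10 / 100 ≤ wcl b h ∧ wcl b h ≤ 16 / 100) ∧ (29 / 100 ≤ wcr b h ∧ wcr b h ≤ 34 / 100) ∧
    (clsW b i ≠ .one → 30 / 100 ≤ wcr b h) := by
  have hs := A.slot
  rw [A.XM_eq b, A.cl_eq b, A.cr_eq b, hj]
  generalize oc b i s.rev = P
  generalize oc b j s = Q
  generalize clsW b i = B at hi
  unfold hpp
  rcases hs with rfl | rfl
  · rw [if_neg (by decide)]
    cases B <;> first | exact absurd rfl hi | (simp [hp, hp1]; try norm_num)
  · rw [if_pos rfl]
    cases B <;> first | exact absurd rfl hi | (simp [hp, hp1]; try norm_num)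

/-- heights at rings -/
theorem Th_ring (hb : ClassW b) (L : LocA b zs) (A : Adj h i s j) (hi : clsW b i ≠ .ring)
    (hj : clsW b j = .ring) :
    -(1 / 1000) ≤ Th b zs h i ∧ Th b zs h i ≤ 158 / 1000 ∧
      (clsW b i = .one → 38 / 1000 ≤ Th b zs h i) ∧
      (clsW b i = .two → 10 / 1000 ≤ Th b zs h i ∧ Th b zs h i ≤ 96 / 1000) ∧
      (clsW b i = .twoE → 88 / 1000 ≤ Th b zs h i) ∧
      (clsW b i = .threeE → 18 / 1000 ≤ Th b zs h i) ∧
      (clsW b i ≠ .one → Th b zs h i ≤ 131 / 1000) ∧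
      (clsW b i = .three ∨ clsW b i = .threeE → Th b zs h i ≤ 58 / 1000) := by
  have h1 := Th_mem hb L.L A hi
  have h2 := L.X.three A
  rw [hj] at h1
  generalize clsW b i = B at hi h1 h2
  unfold Th at h1 ⊢
  cases B
  all_goals first
    | exact absurd rfl hi
    | (simp only [hbox] at h1
       obtain ⟨a, c⟩ := h1
       refine ⟨?_, ?_, ?_, ?_, ?_, ?_, ?_, ?_⟩ <;> first
         | (intro h0; cases h0; done)
         | (intro h0; exact absurd rfl h0)
         | (rintro (h0 | h0) <;> cases h0 <;> linarith only [c])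
         | (intro _; constructor <;> linarith only [a, c])
         | (intro _; linarith only [a, c])
         | linarith only [a, c]
         | (linarith only [h2, hj, h2 rfl hj]))

/-! ### other hinges -/

/-- upper bounds in the frame of the region -/
theorem Pst.up_le {T Hu Hd XM cl cr c : ℝ} {X : ℂ} {q : ℝ} (hX : Pst T Hu Hd XM cl cr X q)
    (hcl : 0 < cl) (hHd : 0 ≤ Hd) (hc : 0 ≤ c) (h1 : T ≤ c * cl) (h2 : T ≤ 0 → Hu ≤ c * cl) :
    0 ≤ X.re ∧ X.re ≤ XM ∧ X.im ≤ c * X.re := by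
  obtain ⟨x, h0, h3, h4, h5⟩ := hX
  have ht := tr_mem 0 XM cl cr x
  have hl := tr_le_cl (b' := XM) (c' := cr) hcl h0
  rw [h4]
  refine ⟨h0, h3, ?_⟩
  have key : ∀ H : ℝ, H ≤ c * cl → H * tr 0 XM cl cr x ≤ c * x := by
    intro H hH
    have a1 : H * tr 0 XM cl cr x ≤ c * cl * tr 0 XM cl cr x :=
      mul_le_mul_of_nonneg_right hH ht.1
    have a2 : c * cl * tr 0 XM cl cr x ≤ c * cl * (x / cl) :=
      mul_le_mul_of_nonneg_left hl (by positivity)
    have a3 : c * cl * (x / cl) = c * x := by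
      field_simp
    linarith only [a1, a2, a3]
  rcases h5 with ⟨e, -⟩ | ⟨e, -⟩ | ⟨hT, e, -⟩ | ⟨hT, e, -⟩
  · rw [e]
    positivity
  · rw [e]
    exact key T h1
  · rw [e]
    exact key Hu (h2 hT)
  · rw [e]
    have := mul_nonneg hHd ht.1
    have := mul_nonneg hc h0
    linarith

theorem Pst.im_le {T Hu Hd XM cl cr c : ℝ} {X : ℂ} {q : ℝ} (hX : Pst T Hu Hd XM cl cr X q)
    (hHd : 0 ≤ Hd) (hc : 0 ≤ c) (h1 : T ≤ c) (h2 : T ≤ 0 → Hu ≤ c) : X.im ≤ c := by
  obtain ⟨x, h0, h3, h4, h5⟩ := hX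
  have ht := tr_mem 0 XM cl cr x
  have key : ∀ H : ℝ, H ≤ c → H * tr 0 XM cl cr x ≤ c := by
    intro H hH
    have a1 : H * tr 0 XM cl cr x ≤ c * tr 0 XM cl cr x := mul_le_mul_of_nonneg_right hH ht.1
    have a2 : c * tr 0 XM cl cr x ≤ c * 1 := mul_le_mul_of_nonneg_left ht.2 hc
    linarith only [a1, a2]
  rcases h5 with ⟨e, -⟩ | ⟨e, -⟩ | ⟨hT, e, -⟩ | ⟨hT, e, -⟩
  · rw [e]
    exact hc
  · rw [e]
    exact key T h1
  · rw [e]
    exact key Hu (h2 hT)
  · rw [e]
    have := mul_nonneg hHd ht.1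
    linarith only [hc, this]

theorem Hdn_pos (b : Fin (M + 1) → ℤ) (h : Fin M) (s : Fin 3) (j : Fin (M + 1)) :
    0 < Hdn b h s j := by
  unfold Hdn
  split_ifs
  · norm_num
  · exact mhs_pos _ _

/-- the upper mirrored path is low except next to a `3` seen from a `1` -/
theorem Hup_le (A : Adj h i s j) (hc : clsW b i = .one ∨ clsW b i = .two)
    (h3 : clsW b i = .one → clsW b j ≠ .three) : Hup b h s j = 16 / 100 := by
  unfold Hup
  split_ifs with hj
  · rfl
  · unfold mhs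
    cases A with
    | l =>
      have e : (2 : Fin 3).rev = 0 := by decide
      rw [e]
      rcases hc with hc | hc
      · rw [if_neg (fun h0 => h3 hc h0.2), if_neg (fun h0 => by rw [hc] at h0; exact absurd h0.1 (by decide))]
      · rw [if_neg (fun h0 => by rw [hc] at h0; exact absurd h0.1 (by decide)),
          if_neg (fun h0 => absurd h0.2.2 (by decide))]
    | r =>
      rcases hc with hc | hc
      · rw [if_neg (fun h0 => by rw [hc] at h0; exact absurd h0.2 (by decide)),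
          if_neg (fun h0 => by rw [hc] at h0; exact absurd h0.2.1 (by decide))]
      · rw [if_neg (fun h0 => by rw [hc] at h0; exact absurd h0.2 (by decide)),
          if_neg (fun h0 => by rw [hc] at h0; exact absurd h0.2.1 (by decide))]

/-- **a hinge of a digit `1`** -/
theorem MM.up_one (hb : ClassW b) (L : LocA b zs) (hR : ∀ i ∈ R, Sum.inl i ∈ nb)
    (hM : MM b zs R nb z p) (A : Adj h i s j) (hc : clsW b i = .one)
    (hnR : (Sum.inl h : DD (tyW b)) ∉ R) :
    0 ≤ (Ow b z i s).re ∧ (Ow b z i s).re ≤ 86 / 100 ∧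
      (Ow b z i s).im ≤ 125 / 100 * (Ow b z i s).re := by
  have hi : clsW b i ≠ .ring := by rw [hc]; decide
  have hP := hM.pstA hb hR A hi hnR
  have hT := Th_mem hb L.L A hi
  rw [hc] at hT
  obtain ⟨p1, p2, p3, p4, p5, p6⟩ := A.par_one hc
  have hd := (Hdn_pos b h s j).le
  have fin : wXM b h ≤ 86 / 100 → (0 < wcl b h) → (Th b zs h i ≤ 125 / 100 * wcl b h) →
      (Th b zs h i ≤ 0 → Hup b h s j ≤ 125 / 100 * wcl b h) →
      0 ≤ (Ow b z i s).re ∧ (Ow b z i s).re ≤ 86 / 100 ∧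
      (Ow b z i s).im ≤ 125 / 100 * (Ow b z i s).re := by
    intro a1 a2 a3 a4
    obtain ⟨b1, b2, b3⟩ := hP.up_le a2 hd (by norm_num) a3 a4
    exact ⟨b1, b2.trans a1, b3⟩
  rcases hj : clsW b j
  · rw [hj] at hT
    simp only [hbox] at hT
    obtain ⟨q1, q2, q3⟩ := p1 hj
    have hu := Hup_le (b := b) A (Or.inl hc) (fun _ => by rw [hj]; decide)
    refine fin (by rcases q1 with q1 | q1 <;> linarith only [q1]) (by rw [q2]; norm_num) (by rw [q2]; linarith only [hT]) ?_
    rw [hu, q2]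
    intro _; norm_num
  · rw [hj] at hT
    simp only [hbox] at hT
    obtain ⟨q1, q2, q3⟩ := p2 hj
    have hu := Hup_le (b := b) A (Or.inl hc) (fun _ => by rw [hj]; decide)
    refine fin (by linarith only [q1]) (by rw [q2]; norm_num) (by rw [q2]; linarith only [hT]) ?_
    rw [hu, q2]
    intro _; norm_num
  · rw [hj] at hT
    simp only [hbox] at hT
    obtain ⟨q1, q2, q3⟩ := p3 hj
    have hu := Hup_le (b := b) A (Or.inl hc) (fun _ => by rw [hj]; decide)
    refine fin (by linarith only [q1]) (by rw [q2]; norm_num) (by rw [q2]; linarith only [hT]) ?_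
    rw [hu, q2]
    intro _; norm_num
  · rw [hj] at hT
    simp only [hbox] at hT
    obtain ⟨q1, q2⟩ := p4 hj
    exact fin (by linarith only [q1]) (by linarith only [q2]) (by linarith only [hT, q2]) (fun h0 => by linarith only [hT, h0])
  · rw [hj] at hT
    simp only [hbox] at hT
    obtain ⟨q1, q2⟩ := p5 hj
    exact fin (by linarith only [q1]) (by linarith only [q2]) (by linarith only [hT, q2]) (fun h0 => by linarith only [hT, h0])
  · rw [hj] at hT
    simp only [hbox] at hT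
    obtain ⟨q1, q2, q3⟩ := p6 hj
    exact fin (by linarith only [q1]) (by linarith only [q2]) (by linarith only [hT, q2]) (fun h0 => by linarith only [hT, h0])

/-- **a hinge of a digit `2` inside** -/
theorem MM.up_two (hb : ClassW b) (L : LocA b zs) (hR : ∀ i ∈ R, Sum.inl i ∈ nb)
    (hM : MM b zs R nb z p) (A : Adj h i s j) (hc : clsW b i = .two)
    (hnR : (Sum.inl h : DD (tyW b)) ∉ R) :
    0 ≤ (Ow b z i s).re ∧ (Ow b z i s).re ≤ 80 / 100 ∧
      (Ow b z i s).im ≤ 16 / 10 * (Ow b z i s).re ∧ (Ow b z i s).im ≤ 16 / 100 := by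
  have hi : clsW b i ≠ .ring := by rw [hc]; decide
  have hP := hM.pstA hb hR A hi hnR
  have hT := Th_mem hb L.L A hi
  rw [hc] at hT
  obtain ⟨p1, p2⟩ := A.par_two hc
  have hd := (Hdn_pos b h s j).le
  have hu := Hup_le (b := b) A (Or.inr hc) (fun h0 => by rw [hc] at h0; exact absurd h0 (by decide))
  have hT' : Th b zs h i ≤ 16 / 100 := by
    rcases hj : clsW b j <;> rw [hj] at hT <;> simp only [hbox] at hT <;> linarith only [hT]
  obtain ⟨b1, b2, b3⟩ := hP.up_le (c := 16 / 10) (by linarith only [p2]) hd (by norm_num) (by linarith only [p2, hT'])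
    (fun _ => by rw [hu]; linarith only [p2])
  have b4 := hP.im_le (c := 16 / 100) hd (by norm_num) hT' (fun _ => by rw [hu])
  exact ⟨b1, b2.trans p1, b3, b4⟩

theorem Adj.exists_rev (A : Adj h i s j) (he : isEnd i = false) : ∃ h' j', Adj h' i s.rev j' := by
  have h0 : i ≠ 0 ∧ i ≠ Fin.last M := by
    unfold isEnd at he
    simpa using he
  cases A with
  | l =>
    obtain ⟨k, hk⟩ := Fin.eq_succ_of_ne_zero h0.1
    have e : (2 : Fin 3).rev = 0 := by decide
    rw [e, hk]
    exact ⟨k, _, .r⟩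
  | r =>
    obtain ⟨k, hk⟩ := Fin.eq_castSucc_of_ne_last h0.2
    have e : (0 : Fin 3).rev = 2 := by decide
    rw [e, ← hk]
    exact ⟨k, _, .l⟩

end SR

end Pool.Agent.Work.MP_b30479_gt.G2
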