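import Pool.Agent.Work.MP_b30479_gt.G2.ZDe
import Pool.Agent.Work.MP_b30479_gt.G2.ZDb

/-!
# Modes at rings: the side of the digit in a word
-/

namespace Pool.Agent.Work.MP_b30479_gt.G2

open Finset VOL Filter Topology NumU

namespace ZD

theorem kD_eq (k τ Yk x1 Y : ℝ) : gD1 k (-τ) x1 (-Y) - gD1 k Yk x1 (-Y) =
    kD k τ Yk x1 Y - Real.pi * Yk := by
  unfold gD1 kD
  rw [show -τ + -Y = -(Y + τ) by ring, show Yk + -Y = -(Y - Yk) by ring, uu_even, uu_even, uu_even,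
    add_comm k x1]
  ring

theorem kP1_eq (k τ Yk m1 m2 : ℝ) : gD1 k τ m1 m2 - gD1 k (-Yk) m1 m2 =
    kP1 k τ Yk m1 m2 - Real.pi * Yk := by
  unfold gD1 kP1
  rw [show τ + m2 = m2 + τ by ring, show -Yk + m2 = m2 - Yk by ring, uu_even k Yk]
  ring

theorem kP2_eq (k τ Yk m1 m2 : ℝ) : gD2 k τ m1 m2 - gD2 k (-Yk) m1 m2 =
    kP2 k τ Yk m1 m2 - Real.pi * Yk := by
  unfold gD2 kP2
  rw [show τ + m2 = m2 + τ by ring, show -Yk + m2 = m2 - Yk by ring, uu_even k Yk]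
  ring

theorem kPe_eq (k τ Yk : ℝ) : gD0 k τ - gD0 k (-Yk) = kPe k τ Yk - Real.pi * Yk := by
  unfold gD0 kPe
  rw [uu_even k Yk]
  ring

end ZD

namespace SR

variable {M : ℕ} {b : Fin (M + 1) → ℤ} {zs : DD (tyW b) ⊕ ZZ (tyW b) → ℂ}
variable {R : Finset (DD (tyW b))} {nb : Finset (DD (tyW b) ⊕ ZZ (tyW b))}
variable {z : DD (tyW b) ⊕ ZZ (tyW b) → ℂ} {p : DD (tyW b) → ℝ}
variable {h h' : Fin M} {i j j' : Fin (M + 1)} {s : Fin 3} {x c : ℝ}

theorem pen_nn (hM : MM b zs R nb z p) (h0 : p (.inl h) ≠ 0) : Sum.inl (Sum.inl h) ∉ nb := by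
  intro hn
  by_cases hr : (Sum.inl h : DD (tyW b)) ∈ R
  · exact h0 (hM.adm.tail _ hr).2.2.2
  · exact h0 (hM.adm.reD _ hr hn).2.2.2

/-- slot of an untouched region: any hinge is not in the tail -/
theorem NbT.nR (hN : NbT b R nb) (A : Adj h i s j) (hn : Sum.inl (Sum.inl h) ∉ nb) {s' : Fin 3}
    (A' : Adj h' i s' j') : (Sum.inl h' : DD (tyW b)) ∉ R :=
  fun hR => hN.not_tch A hn ⟨_, hR, s', A'.cf_ne⟩

/-- bounds for the hinge in a slot of a digit `1` (or no hinge) -/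
theorem MM.slot_one (hb : ClassW b) (L : LocA b zs) (hN : NbT b R nb) (hM : MM b zs R nb z p)
    (A : Adj h i s j) (hn : Sum.inl (Sum.inl h) ∉ nb) (hc : clsW b i = .one) :
    0 ≤ (Ow b z i s.rev).re ∧ (Ow b z i s.rev).re ≤ 86 / 100 ∧
      (Ow b z i s.rev).im ≤ 125 / 100 * (Ow b z i s.rev).re := by
  rcases slot_cases b i (p := s.rev) (by cases A <;> decide) with ⟨h0, -⟩ | ⟨h', j', A'⟩
  · rw [h0]
    simp
    norm_num
  · exact hM.up_one hb L hN.ok.1 A' hc (hN.nR A hn A')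

theorem MM.slot_two (hb : ClassW b) (L : LocA b zs) (hN : NbT b R nb) (hM : MM b zs R nb z p)
    (A : Adj h i s j) (hn : Sum.inl (Sum.inl h) ∉ nb) (hc : clsW b i = .two) :
    0 ≤ (Ow b z i s.rev).re ∧ (Ow b z i s.rev).re ≤ 80 / 100 ∧
      (Ow b z i s.rev).im ≤ 16 / 10 * (Ow b z i s.rev).re ∧ (Ow b z i s.rev).im ≤ 16 / 100 := by
  rcases slot_cases b i (p := s.rev) (by cases A <;> decide) with ⟨h0, -⟩ | ⟨h', j', A'⟩
  · rw [h0]
    simp
    norm_num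
  · exact hM.up_two hb L hN.ok.1 A' hc (hN.nR A hn A')

/-- **The other hinge of a digit `1` is on its upper path only for `k ≥ 1/4`.** -/
theorem one_up_ge (K : ZD.RowsK) (hb : ClassW b) (L : LocA b zs) (hN : NbT b R nb)
    (hM : MM b zs R nb z p) (A : Adj h i s j) (hi : clsW b i = .one) (hj : clsW b j = .ring)
    (A' : Adj h' i s.rev j') {x1 Y y : ℝ} (hX : Ow b z i s = ⟨x1, -Y⟩) (hY : 0 ≤ Y) (x10 : 0 ≤ x1)
    (x11 : x1 ≤ 65 / 100) (hT : Th b zs h' i ≤ 0) (y0 : 0 ≤ y) (y1 : y ≤ wXM b h')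
    (ht : 0 < trh b h' y) (hK : Ow b z i s.rev = ⟨y, 16 / 100 * trh b h' y⟩)
    (hp : p (.inl h') = 16 / 100 * trh b h' y) : 1 / 4 ≤ y := by
  by_contra hc
  have hc : y < 1 / 4 := not_le.1 hc
  have hir : clsW b i ≠ .ring := by rw [hi]; decide
  have hn' : Sum.inl (Sum.inl h') ∉ nb := pen_nn hM (by rw [hp]; positivity)
  have ht1 : trh b h' y ≤ 1 := (trh_mem (b := b) h' y).2
  have hy : 0 < y := by
    by_contra h0
    have : trh b h' y = 0 := trh_zero_of (Or.inl (not_lt.1 h0))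
    linarith only [ht, this]
  have hsm := okp_of hb A A' hi
  have hP : clsW b j' = .one ∨ clsW b j' = .two ∨ clsW b j' = .twoE := by
    rcases hsm with h0 | h0
    · rw [hj] at h0
      rcases h0 with h0 | h0 | h0 <;> exact absurd h0 (by decide)
    · exact h0
  have mv := hM.one_move hb hN.ok.1 A' hn' y0 y1
  have hTo := Th_opp (zs := zs) hb A' hir
  have hKo := Ow_opp (z := z) hb A' hir
  rw [hK] at hKo
  rw [dv_one hb A' hi, Fin.rev_rev, hK, hX] at mv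
  obtain ⟨τ, hτ⟩ : ∃ τ, τ = -(Th b zs h' i * trh b h' y) := ⟨_, rfl⟩
  obtain ⟨Yk, hYk⟩ : ∃ Yk, Yk = 16 / 100 * trh b h' y := ⟨_, rfl⟩
  have τ0 : 0 ≤ τ := by
    rw [hτ]
    have := mul_nonneg (neg_nonneg.2 hT) ht.le
    linarith only [this]
  have Yk0 : 0 < Yk := by rw [hYk]; positivity
  have Yk1 : Yk ≤ 16 / 100 := by rw [hYk]; linarith only [ht1]
  have e1 : tgo b zs h' i y = ⟨y, -τ⟩ := by
    unfold tgo
    rw [hτ, neg_neg]
  have e2 : tgo b zs h' j' y = ⟨y, τ⟩ := by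
    unfold tgo
    rw [hTo, hτ, neg_mul]
  rw [← hYk] at hp hKo mv
  rw [e1, e2, hp] at mv
  simp only at mv hKo
  rw [ZD.kD_eq] at mv
  obtain ⟨p1, p2, p3, -, -, -⟩ := A'.par_one hi
  have hTm := Th_mem hb L.L A' hir
  rw [hi] at hTm
  have yk : ∀ cl : ℝ, 0 < cl → wcl b h' = cl → 16 / 100 ≤ 115 / 100 * cl → Yk ≤ 115 / 100 * y := by
    intro cl h0 h1 h2
    have a1 : trh b h' y ≤ y / cl := by
      have := tr_le_cl (b' := wXM b h') (c' := wcr b h') (wcl_pos (b := b) h') y0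
      unfold trh
      rw [h1] at this ⊢
      exact this
    have a2 : 16 / 100 * (y / cl) ≤ 115 / 100 * y := by
      rw [mul_div_assoc', div_le_iff₀ h0]
      nlinarith only [y0, h2]
    rw [hYk]
    linarith only [a1, a2]
  have tk : -(118 / 1000) ≤ Th b zs h' i → τ ≤ 74 / 100 * Yk := by
    intro h0
    rw [hτ, hYk]
    have := mul_le_mul_of_nonneg_right h0 ht.le
    linarith only [hYk, Yk0, this]
  have As : Adj h' j' s i := by
    have := A'.symm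
    rwa [Fin.rev_rev] at this
  rw [Fin.rev_rev] at hKo
  rcases hP with hP | hP | hP
  · rw [hP] at hTm
    simp only [hbox] at hTm
    obtain ⟨m0, m1, m2⟩ := hM.slot_one hb L hN As hn' hP
    rw [dv_one hb As hP, hKo] at mv
    simp only at mv
    have q := K.k1 y τ Yk x1 Y (Ow b z j' s.rev).re
      (Ow b z j' s.rev).im hy hc.le Yk0 Yk1
      (yk _ (by norm_num) (p1 hP).2.1 (by norm_num)) τ0 (tk (by linarith only [hTm])) x10 x11 hY m0 m1 m2
    rw [ZD.kP1_eq] at mv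
    linarith only [mv, q]
  · rw [hP] at hTm
    simp only [hbox] at hTm
    obtain ⟨m0, m1, m2, m3⟩ := hM.slot_two hb L hN As hn' hP
    rw [dv_two hb As (Or.inl hP), hKo] at mv
    simp only at mv
    have q := K.k2 y τ Yk x1 Y (Ow b z j' s.rev).re
      (Ow b z j' s.rev).im hy hc.le Yk0 Yk1
      (yk _ (by norm_num) (p2 hP).2.1 (by norm_num)) τ0 (tk (by linarith only [hTm])) x10 x11 hY m0 m1
      (by linarith only [m0, m2])
    rw [ZD.kP2_eq] at mv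
    linarith only [mv, q]
  · rw [hP] at hTm
    simp only [hbox] at hTm
    rw [dv_twoE hb As hP, hKo] at mv
    simp only at mv
    have q := K.ke y τ Yk x1 Y hy hc.le Yk0 Yk1
      (yk _ (by norm_num) (p3 hP).2.1 (by norm_num)) τ0 (tk (by linarith only [hTm])) x10 x11 hY
    rw [ZD.kPe_eq] at mv
    linarith only [mv, q]

/-! ### the side of the digit -/

/-- the side of the digit: there is a good target -/
def DOk (b : Fin (M + 1) → ℤ) (zs : DD (tyW b) ⊕ ZZ (tyW b) → ℂ)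
    (z : DD (tyW b) ⊕ ZZ (tyW b) → ℂ) (p : DD (tyW b) → ℝ) (h : Fin M) (i : Fin (M + 1))
    (s : Fin 3) (j : Fin (M + 1)) (σ η : ℝ) : Prop :=
  ∃ c θ : ℝ, 0 ≤ c ∧ c ≤ wXM b h ∧ ZD.Tgt θ c (Th b zs h i * trh b h c) ∧
    0 < (OV b i (Function.update (Ow b z i) s (tgo b zs h i c)) - OV b i (Ow b z i)) +
      (ZD.gR θ c (Th b zs h i * trh b h c) + ZD.bR σ η - fR (Ow b z j s.rev) ⟨σ, η⟩) +
      2 * Real.pi * p (.inl h)

/-- far path -/
theorem dok_far (hb : ClassW b) (hN : NbT b R nb) (hM : MM b zs R nb z p) (A : Adj h i s j)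
    (hi : clsW b i ≠ .ring) (hj : clsW b j = .ring) (hn : Sum.inl (Sum.inl h) ∉ nb)
    {σ η θ x : ℝ} (hζ : Ow b z j 1 = ⟨σ, η⟩) (x0 : 0 ≤ x) (x1 : x ≤ wXM b h)
    (hX : Ow b z i s = ⟨x, -(10000 * trh b h x)⟩) (hp : p (.inl h) = 10000 * trh b h x)
    {g : ℝ → ℝ → ℝ} {dA : ℝ}
    (hg : ∀ u, OV b i (Function.update (Ow b z i) s u) - OV b i (Ow b z i) =
      g u.re u.im - g (Ow b z i s).re (Ow b z i s).im)
    (hdA : dA = g x (-(10000 * trh b h x)) - Real.pi * (10000 * trh b h x))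
    (h0 : 0 ≤ c) (h1 : c ≤ wXM b h) (hT : ZD.Tgt θ c (Th b zs h i * trh b h c))
    (hrow : g x (Th b zs h i * trh b h x) + fR ⟨x, -(Th b zs h i * trh b h x)⟩ ⟨σ, η⟩ ≤
      dA + ZD.fA x (10000 * trh b h x) σ η → dA + ZD.fA x (10000 * trh b h x) σ η <
      ZD.bR σ η + (g c (Th b zs h i * trh b h c) + ZD.gR θ c (Th b zs h i * trh b h c))) :
    DOk b zs z p h i s j σ η := by
  have mv := hM.one_move hb hN.ok.1 A hn x0 x1
  have hTo := Th_opp (zs := zs) hb A hi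
  have hXo := Ow_opp (z := z) hb A hi
  rw [hX] at hXo
  simp only [neg_neg] at hXo
  rw [hg, dv_ring hb A.symm hj, hζ, hX, hXo, hp] at mv
  have e1 : tgo b zs h j x = ⟨x, -(Th b zs h i * trh b h x)⟩ := by
    unfold tgo
    rw [hTo, neg_mul]
  have e2 : tgo b zs h i x = ⟨x, Th b zs h i * trh b h x⟩ := rfl
  rw [e1, e2] at mv
  simp only at mv
  have q := hrow (by
    rw [hdA]
    unfold ZD.fA
    linarith only [mv])
  refine ⟨c, θ, h0, h1, hT, ?_⟩
  rw [hg, hX, hXo, hp]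
  have e3 : tgo b zs h i c = ⟨c, Th b zs h i * trh b h c⟩ := rfl
  rw [e3]
  simp only
  rw [hdA] at q
  unfold ZD.fA at q
  linarith only [q]

/-- near path -/
theorem dok_near (hb : ClassW b) (hN : NbT b R nb) (hM : MM b zs R nb z p) (A : Adj h i s j)
    (hi : clsW b i ≠ .ring) (hj : clsW b j = .ring) (hn : Sum.inl (Sum.inl h) ∉ nb)
    {σ η θ x : ℝ} (hζ : Ow b z j 1 = ⟨σ, η⟩) (x0 : 0 ≤ x) (x1 : x ≤ wXM b h)
    (hX : Ow b z i s = ⟨x, 16 / 100 * trh b h x⟩) (hp : p (.inl h) = 16 / 100 * trh b h x)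
    {g : ℝ → ℝ → ℝ}
    (hg : ∀ u, OV b i (Function.update (Ow b z i) s u) - OV b i (Ow b z i) =
      g u.re u.im - g (Ow b z i s).re (Ow b z i s).im)
    (h0 : 0 ≤ c) (h1 : c ≤ wXM b h) (hT : ZD.Tgt θ c (Th b zs h i * trh b h c))
    (hrow : (g x (Th b zs h i * trh b h x) - g x (16 / 100 * trh b h x) +
        Real.pi * (16 / 100 * trh b h x)) +
      (fR ⟨x, -(Th b zs h i * trh b h x)⟩ ⟨σ, η⟩ - fR ⟨x, -(16 / 100 * trh b h x)⟩ ⟨σ, η⟩ +
        Real.pi * (16 / 100 * trh b h x)) ≤ 0 →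
      0 < (g c (Th b zs h i * trh b h c) - g x (16 / 100 * trh b h x) +
        Real.pi * (16 / 100 * trh b h x)) +
      (ZD.gR θ c (Th b zs h i * trh b h c) + ZD.bR σ η - fR ⟨x, -(16 / 100 * trh b h x)⟩ ⟨σ, η⟩ +
        Real.pi * (16 / 100 * trh b h x))) :
    DOk b zs z p h i s j σ η := by
  have mv := hM.one_move hb hN.ok.1 A hn x0 x1
  have hTo := Th_opp (zs := zs) hb A hi
  have hXo := Ow_opp (z := z) hb A hi
  rw [hX] at hXo
  simp only at hXo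
  rw [hg, dv_ring hb A.symm hj, hζ, hX, hXo, hp] at mv
  have e1 : tgo b zs h j x = ⟨x, -(Th b zs h i * trh b h x)⟩ := by
    unfold tgo
    rw [hTo, neg_mul]
  have e2 : tgo b zs h i x = ⟨x, Th b zs h i * trh b h x⟩ := rfl
  rw [e1, e2] at mv
  simp only at mv
  have q := hrow (by linarith only [mv])
  refine ⟨c, θ, h0, h1, hT, ?_⟩
  rw [hg, hX, hXo, hp]
  have e3 : tgo b zs h i c = ⟨c, Th b zs h i * trh b h c⟩ := rfl
  rw [e3]
  simp only
  linarith only [q]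

end SR

end Pool.Agent.Work.MP_b30479_gt.G2
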