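import Pool.Agent.Work.MP_b30479_gt.G2.ZDf

/-!
# Modes at rings: the side of the digit, all classes
-/

namespace Pool.Agent.Work.MP_b30479_gt.G2

open Finset VOL Filter Topology NumU

namespace SR

variable {M : ℕ} {b : Fin (M + 1) → ℤ} {zs : DD (tyW b) ⊕ ZZ (tyW b) → ℂ}
variable {R : Finset (DD (tyW b))} {nb : Finset (DD (tyW b) ⊕ ZZ (tyW b))}
variable {z : DD (tyW b) ⊕ ZZ (tyW b) → ℂ} {p : DD (tyW b) → ℝ}
variable {h h' : Fin M} {i j j' : Fin (M + 1)} {s : Fin 3} {x c : ℝ}

/-- the row `c2r` -/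
def ZC2r : Prop := ∀ T k1 : ℝ, 63 / 1000 ≤ T → T ≤ 145 / 1000 → 0 ≤ k1 → k1 ≤ 80 / 100 →
    ZD.Goal1 (1 / 10) (2 / 10) T k1 0

theorem Hdn_le (A : Adj h i s j) (hc : clsW b i = .one)
    (h3 : clsW b j ≠ .three) (hj : clsW b j ≠ .ring) : Hdn b h s j = 16 / 100 := by
  unfold Hdn
  rw [if_neg hj]
  unfold mhs
  cases A with
  | l =>
    rw [if_neg (fun h0 => h3 h0.2), if_neg (fun h0 => by rw [hc] at h0; exact absurd h0.1 (by decide))]
  | r =>
    rw [if_neg (fun h0 => by rw [hc] at h0; exact absurd h0.2 (by decide)),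
      if_neg (fun h0 => by rw [hc] at h0; exact absurd h0.2.1 (by decide))]

/-- the other hinge of a digit `1` next to a ring: domain and target -/
theorem goal_one (Z : ZD.ZRows) (C2 : ZC2r) (hb : ClassW b) (L : LocA b zs) (hN : NbT b R nb)
    (hM : MM b zs R nb z p) (A : Adj h i s j) (hi : clsW b i = .one) (hj : clsW b j = .ring)
    (hn : Sum.inl (Sum.inl h) ∉ nb) {x1 Y : ℝ} (hX : Ow b z i s = ⟨x1, -Y⟩) (hY : 0 ≤ Y)
    (x10 : 0 ≤ x1) (x11 : x1 ≤ 65 / 100) :
    ZD.dom1 (Ow b z i s.rev).re (Ow b z i s.rev).im ∧ ∃ c θ : ℝ, 0 ≤ c ∧ c ≤ wXM b h ∧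
      ZD.Tgt θ c (Th b zs h i * trh b h c) ∧
      ZD.Goal1 θ c (Th b zs h i * trh b h c) (Ow b z i s.rev).re (Ow b z i s.rev).im := by
  have hir : clsW b i ≠ .ring := by rw [hi]; decide
  obtain ⟨h', j', A'⟩ := A.exists_rev (clsW_inner hb (Or.inl hi))
  have Ar : Adj h i s.rev.rev j := by rwa [Fin.rev_rev]
  have hw := L.X.win A A' hi
  have hw' := L.X.win A' Ar hi
  have hsm := okp_of hb A A' hi
  have hP : clsW b j' = .one ∨ clsW b j' = .two ∨ clsW b j' = .twoE := by
    rcases hsm with h0 | h0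
    · rw [hj] at h0
      rcases h0 with h0 | h0 | h0 <;> exact absurd h0 (by decide)
    · exact h0
  have hP3 : clsW b j' ≠ .three := by rcases hP with h0 | h0 | h0 <;> rw [h0] <;> decide
  have hPr : clsW b j' ≠ .ring := by rcases hP with h0 | h0 | h0 <;> rw [h0] <;> decide
  have hpos := hM.pstA hb hN.ok.1 A' hir (hN.nR A hn A')
  have hu := Hup_le (b := b) A' (Or.inl hi) (fun _ => hP3)
  have hd := Hdn_le (b := b) A' hi hP3 hPr
  rw [hu, hd] at hpos
  obtain ⟨y, y0, y1, e1, e2⟩ := hpos
  obtain ⟨q1, q2, q3⟩ := (A.par_ring hir hj).1 hi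
  have t2 : trh b h (2 / 10) = 1 := by
    unfold trh
    rw [q1, q2, q3]
    exact tr_flat (by norm_num) (by norm_num) (by norm_num) (by norm_num)
  have t12 : trh b h (12 / 100) = 3 / 4 := by
    unfold trh
    rw [q1, q2, q3, tr_left (by norm_num) (by norm_num) (by norm_num) (by norm_num)]
    rw [min_eq_right (by norm_num)]
    norm_num
  obtain ⟨T, hT⟩ : ∃ T, T = Th b zs h i := ⟨_, rfl⟩
  obtain ⟨u, hu'⟩ : ∃ u, u = Th b zs h' i := ⟨_, rfl⟩
  obtain ⟨K, hK⟩ : ∃ K, K = Ow b z i s.rev := ⟨_, rfl⟩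
  obtain ⟨t, ht⟩ : ∃ t, t = tr 0 (wXM b h') (wcl b h') (wcr b h') y := ⟨_, rfl⟩
  have htm := tr_mem 0 (wXM b h') (wcl b h') (wcr b h') y
  have hw2 : (cw (clsW b j') (clsW b j)).t0 ≤ T ∧ T ≤ (cw (clsW b j') (clsW b j)).t1 ∧
      (cw (clsW b j') (clsW b j)).s0 ≤ T + u ∧ T + u ≤ (cw (clsW b j') (clsW b j)).s1 := by
    rw [hT, hu']
    exact hw
  have hw3 : (cw (clsW b j) (clsW b j')).t0 ≤ u ∧ u ≤ (cw (clsW b j) (clsW b j')).t1 := by
    rw [hu']
    exact ⟨hw'.1, hw'.2.1⟩
  rw [← hT, ← hK]
  rw [← hK] at e1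
  have e2 : K.im = 0 ∧ p (.inl h') = 0 ∨ K.im = u * t ∧ p (.inl h') = 0 ∨
      (u ≤ 0 ∧ K.im = 16 / 100 * t ∧ p (.inl h') = 16 / 100 * t) ∨
      (0 ≤ u ∧ K.im = -(16 / 100 * t) ∧ p (.inl h') = 16 / 100 * t) := by
    rw [hK, hu', ht]
    exact e2
  rw [← ht] at htm
  clear hw hw'
  -- the upper path
  have up : u ≤ 0 → K.im = 16 / 100 * t → p (.inl h') = 16 / 100 * t → 0 < t → 1 / 4 ≤ y := by
    intro a1 a2 a3 a4
    refine one_up_ge Z.K hb L hN hM A hi hj A' hX hY x10 x11 (by rw [← hu']; exact a1) y0 y1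
      (by unfold trh; rw [← ht]; exact a4) ?_ (by unfold trh; rw [← ht]; exact a3)
    rw [← hK]
    apply Complex.ext
    · exact e1
    · unfold trh
      rw [← ht]
      exact a2
  have e2' : (K.im = 0) ∨ (K.im = u * t) ∨ (0 ≤ u ∧ K.im = -(16 / 100) * t) ∨
      (u ≤ 0 ∧ K.im = 16 / 100 * t ∧ 1 / 4 ≤ y) := by
    rcases e2 with ⟨a, -⟩ | ⟨a, -⟩ | ⟨a1, a2, a3⟩ | ⟨a1, a2, -⟩
    · exact Or.inl a
    · exact Or.inr (Or.inl a)
    · rcases htm.1.eq_or_lt with h0 | h0
      · left
        rw [a2, ← h0, mul_zero]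
      · exact Or.inr (Or.inr (Or.inr ⟨a1, a2, up a1 a2 a3 h0⟩))
    · right; right; left
      exact ⟨a1, by rw [a2]; ring⟩
  clear e2 up
  rw [e1]
  obtain ⟨p1, p2, p3, -, -, -⟩ := A'.par_one hi
  rw [hj] at hw2 hw3
  rcases hP with hP | hP | hP
  · -- `1`
    rw [hP] at hw2 hw3
    simp only [cw] at hw2 hw3
    obtain ⟨r1, r2, r3⟩ := p1 hP
    have y86 : y ≤ 86 / 100 := by rcases r1 with r1 | r1 <;> linarith only [y1, r1]
    have hcl : t ≤ y / (15 / 100) := by
      rw [ht, r2]
      exact tr_le_cl (by norm_num) y0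
    have hcr : t ≤ (86 / 100 - y) / (20 / 100) := by
      have := tr_le_cr (b' := wXM b h') (c := wcl b h') (c' := wcr b h') (x := y)
        (by rw [r3]; norm_num) y1
      rw [← ht, r3] at this
      rcases r1 with r1 | r1 <;> rw [r1] at this <;> linarith only [this]
    have hR : ZD.Rmp (15 / 100) (60 / 100) y t := by
      refine ⟨htm.1, htm.2, fun hy => ?_⟩
      rw [ht, r2, r3]
      rcases r1 with r1 | r1 <;> rw [r1] <;>
        exact tr_left (by norm_num) (by norm_num) y0 (by linarith only [hy])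
    constructor
    · rcases e2' with a | a | ⟨a1, a⟩ | ⟨a1, a, a2⟩
      · rw [a]
        exact ⟨y0, y86, by norm_num, Or.inl ⟨by linarith only [y0], by norm_num⟩⟩
      · rw [a]
        have b1 : u * t ≤ 51 / 1000 * t := mul_le_mul_of_nonneg_right (by linarith only [hw3]) htm.1
        have b2 : -(117 / 1000) * t ≤ u * t := mul_le_mul_of_nonneg_right (by linarith only [hw3]) htm.1
        exact ⟨y0, y86, by linarith only [htm, b2], Or.inl ⟨by linarith only [y0, hcl, b1], by linarith only [htm, b1]⟩⟩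
      · rw [a]
        exact ⟨y0, y86, by linarith only [htm], Or.inl ⟨by linarith only [y0, htm], by linarith only [htm]⟩⟩
      · rw [a]
        exact ⟨y0, y86, by linarith only [htm], Or.inr ⟨a2, by linarith only [htm], by linarith only [hcr]⟩⟩
    · refine ⟨2 / 10, 1 / 10, by norm_num, by rw [q1]; norm_num, ?_, ?_⟩
      · rw [t2, mul_one]
        exact ⟨Or.inl ⟨rfl, by linarith only [hw2], by linarith only [hw2], rfl⟩⟩
      · rw [t2, mul_one]
        rcases e2' with a | a | ⟨a1, a⟩ | ⟨a1, a, a2⟩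
        · rw [a]
          have := Z.C.c1m T 0 y t (by linarith only [hw2]) (by linarith only [hw2]) (by norm_num) (by linarith only [hw2])
            (by linarith only [hw2]) y0 y86 hR
          rwa [zero_mul] at this
        · rw [a]
          exact Z.C.c1m T u y t (by linarith only [hw2]) (by linarith only [hw2]) (abs_le.mpr ⟨by linarith only [hw3], by linarith only [hw2]⟩)
            (by linarith only [hw2]) (by linarith only [hw2]) y0 y86 hR
        · rw [a]
          exact Z.C.c1d T y t (by linarith only [hw2]) (by linarith only [hw2]) y0 y86 hR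
        · rw [a]
          exact Z.C.c1u T y t (by linarith only [hw2]) (by linarith only [hw2]) a2 y86 hR
  · -- `2`
    rw [hP] at hw2 hw3
    simp only [cw] at hw2 hw3
    obtain ⟨r1, r2, r3⟩ := p2 hP
    rw [r1] at y1
    have hcl : t ≤ y / (16 / 100) := by
      rw [ht, r2]
      exact tr_le_cl (by norm_num) y0
    have hcr : t ≤ (80 / 100 - y) / (29 / 100) := by
      rw [ht, r1, r3]
      exact tr_le_cr (by norm_num) y1
    have hR : ZD.Rmp (16 / 100) (50 / 100) y t := by
      refine ⟨htm.1, htm.2, fun hy => ?_⟩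
      rw [ht, r1, r2, r3]
      exact tr_left (by norm_num) (by norm_num) y0 (by linarith only [hy])
    constructor
    · rcases e2' with a | a | ⟨a1, a⟩ | ⟨a1, a, a2⟩
      · rw [a]
        exact ⟨y0, by linarith only [y1], by norm_num, Or.inl ⟨by linarith only [y0], by norm_num⟩⟩
      · rw [a]
        have b1 : u * t ≤ 80 / 1000 * t := mul_le_mul_of_nonneg_right (by linarith only [hw3]) htm.1
        have b2 : -(18 / 1000) * t ≤ u * t := mul_le_mul_of_nonneg_right (by linarith only [hw3]) htm.1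
        exact ⟨y0, by linarith only [y1], by linarith only [htm, b2], Or.inl ⟨by linarith only [y0, hcl, b1], by linarith only [htm, b1]⟩⟩
      · rw [a]
        exact ⟨y0, by linarith only [y1], by linarith only [htm], Or.inl ⟨by linarith only [y0, htm], by linarith only [htm]⟩⟩
      · rw [a]
        exact ⟨y0, by linarith only [y1], by linarith only [htm], Or.inr ⟨a2, by linarith only [htm], by linarith only [y1, hcr]⟩⟩
    · refine ⟨2 / 10, 1 / 10, by norm_num, by rw [q1]; norm_num, ?_, ?_⟩
      · rw [t2, mul_one]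
        exact ⟨Or.inl ⟨rfl, by linarith only [hw2], by linarith only [hw2], rfl⟩⟩
      · rw [t2, mul_one]
        rcases e2' with a | a | ⟨a1, a⟩ | ⟨a1, a, a2⟩
        · rw [a]
          exact C2 T y (by linarith only [hw2]) (by linarith only [hw2]) y0 y1
        · rw [a]
          exact Z.C.c2m T u y t (by linarith only [hw2]) (by linarith only [hw2]) (by linarith only [hw3]) (by linarith only [hw3])
            (by linarith only [hw2]) (by linarith only [hw2]) y0 y1 hR
        · rw [a]
          exact Z.C.c2d T y t (by linarith only [hw2]) (by linarith only [hw2]) y0 y1 hR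
        · rw [a]
          exact Z.C.c2u T y t (by linarith only [hw2, a1]) (by linarith only [hw2]) a2 y1 hR
  · -- `2` at an end
    rw [hP] at hw2 hw3
    simp only [cw] at hw2 hw3
    obtain ⟨r1, r2, r3⟩ := p3 hP
    rw [r1] at y1
    have hcl : t ≤ y / (14 / 100) := by
      rw [ht, r2]
      exact tr_le_cl (by norm_num) y0
    have hcr : t ≤ (70 / 100 - y) / (35 / 100) := by
      rw [ht, r1, r3]
      exact tr_le_cr (by norm_num) y1
    have hR : ZD.Rmp (14 / 100) (35 / 100) y t := by
      refine ⟨htm.1, htm.2, fun hy => ?_⟩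
      rw [ht, r1, r2, r3]
      exact tr_left (by norm_num) (by norm_num) y0 (by linarith only [hy])
    constructor
    · rcases e2' with a | a | ⟨a1, a⟩ | ⟨a1, a, a2⟩
      · rw [a]
        exact ⟨y0, by linarith only [y1], by norm_num, Or.inl ⟨by linarith only [y0], by norm_num⟩⟩
      · rw [a]
        have b1 : u * t ≤ 0 * t := mul_le_mul_of_nonneg_right (by linarith only [hw2, hw3]) htm.1
        have b2 : -(61 / 1000) * t ≤ u * t := mul_le_mul_of_nonneg_right (by linarith only [hw3]) htm.1
        exact ⟨y0, by linarith only [y1], by linarith only [htm, b2], Or.inl ⟨by linarith only [y0, b1], by linarith only [b1]⟩⟩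
      · rw [a]
        exact ⟨y0, by linarith only [hw3, a1], by linarith only [hw3, a1], Or.inl ⟨by linarith only [hw3, a1], by linarith only [hw3, a1]⟩⟩
      · rw [a]
        exact ⟨y0, by linarith only [y1], by linarith only [htm], Or.inr ⟨a2, by linarith only [htm], by linarith only [y1, hcr]⟩⟩
    · rcases le_total y (5 / 100) with hy | hy
      · have ht' : t = y / (14 / 100) := by
          rw [hR.2.2 (by linarith only [hy])]
          apply min_eq_right
          rw [div_le_one (by norm_num)]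
          linarith only [hy]
        refine ⟨12 / 100, 108 / 1000, by norm_num, by rw [q1]; norm_num, ?_, ?_⟩
        · rw [t12]
          exact ⟨Or.inr (Or.inr (Or.inl ⟨rfl, by linarith only [hw2], by linarith only [hw2], rfl⟩))⟩
        · rw [t12, mul_comm]
          rcases e2' with a | a | ⟨a1, a⟩ | ⟨a1, a, a2⟩
          · rw [a]
            have := Z.C.cem0 T 0 y (by linarith only [hw2]) (by linarith only [hw2]) (by norm_num) (by norm_num) y0 hy
            rwa [zero_mul] at this
          · rw [a, ht']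
            exact Z.C.cem0 T u y (by linarith only [hw2]) (by linarith only [hw2]) (by linarith only [hw3]) (by linarith only [hw3]) y0 hy
          · rw [a, ht']
            exact Z.C.ced0 T y (by linarith only [hw3, a1]) (by linarith only [hw3, a1]) y0 hy
          · linarith only [hy, a2]
      · refine ⟨2 / 10, 108 / 1000, by norm_num, by rw [q1]; norm_num, ?_, ?_⟩
        · rw [t2, mul_one]
          exact ⟨Or.inr (Or.inl ⟨rfl, by linarith only [hw2], by linarith only [hw2], rfl⟩)⟩
        · rw [t2, mul_one]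
          rcases e2' with a | a | ⟨a1, a⟩ | ⟨a1, a, a2⟩
          · rw [a]
            have := Z.C.cem T 0 y t (by linarith only [hw2]) (by linarith only [hw2]) (by norm_num) (by norm_num) hy y1 hR
            rwa [zero_mul] at this
          · rw [a]
            exact Z.C.cem T u y t (by linarith only [hw2]) (by linarith only [hw2]) (by linarith only [hw3]) (by linarith only [hw3]) hy y1 hR
          · rw [a]
            exact Z.C.ced T y t (by linarith only [hw3, a1]) (by linarith only [hw3, a1]) hy y1 hR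
          · rw [a]
            exact Z.C.ceu T y t (by linarith only [hw2]) (by linarith only [hw2]) a2 y1 hR

end SR

end Pool.Agent.Work.MP_b30479_gt.G2
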