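import Pool.Agent.Work.MP_b30479_gt.G2.ZDg

/-!
# Modes at rings: the side of the digit, final form
-/

namespace Pool.Agent.Work.MP_b30479_gt.G2

open Finset VOL Filter Topology NumU

namespace SR

variable {M : ℕ} {b : Fin (M + 1) → ℤ} {zs : DD (tyW b) ⊕ ZZ (tyW b) → ℂ}
variable {R : Finset (DD (tyW b))} {nb : Finset (DD (tyW b) ⊕ ZZ (tyW b))}
variable {z : DD (tyW b) ⊕ ZZ (tyW b) → ℂ} {p : DD (tyW b) → ℝ}
variable {h h' : Fin M} {i j j' : Fin (M + 1)} {s : Fin 3} {x c : ℝ}

theorem farIn_of (hb : ClassW b) (L : LocA b zs) (A : Adj h i s j) (hi : clsW b i ≠ .ring)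
    (hj : clsW b j = .ring) {σ η : ℝ} (hσ : |σ| ≤ 1 / 2) (η0 : 0 ≤ η)
    (η1 : η ≤ 1045 / 10000 * LT.th σ) (x0 : 0 ≤ x) (x1 : x ≤ wXM b h) (ht : 0 < trh b h x) :
    ZD.FarIn (wXM b h) x (10000 * trh b h x) (trh b h x) (wcl b h) (wcr b h) (Th b zs h i) σ η := by
  obtain ⟨p1, p2, -, -, p5, p6, -⟩ := A.par_ring hi hj
  obtain ⟨t1, t2, -⟩ := Th_ring (zs := zs) hb L A hi hj
  have hX : wXM b h ≤ 65 / 100 := by
    by_cases hc : clsW b i = .one
    · rw [(p1 hc).1]
    · rw [p2 hc]
      norm_num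
  exact ⟨by linarith only [p5, p5.1], p5.2, by linarith only [p6, p6.1], p6.2, rfl, ht, rfl, x0, x1, by linarith only [hX], hσ,
    η0, η1, t1, t2⟩

theorem trh_two (A : Adj h i s j) (hi : clsW b i ≠ .ring) (hj : clsW b j = .ring) :
    trh b h (2 / 10) = 1 := by
  obtain ⟨p1, p2, -, -, p5, p6, -⟩ := A.par_ring hi hj
  unfold trh
  apply tr_flat (by linarith only [p5, p5.1]) (by linarith only [p6, p6.1]) (by linarith only [p5, p5.2])
  by_cases hc : clsW b i = .one
  · rw [(p1 hc).1, (p1 hc).2.2]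
    norm_num
  · rw [p2 hc]
    linarith only [p6, p6.2]

theorem wXM_two (A : Adj h i s j) (hi : clsW b i ≠ .ring) (hj : clsW b j = .ring) :
    (2 : ℝ) / 10 ≤ wXM b h := by
  obtain ⟨p1, p2, -⟩ := A.par_ring hi hj
  by_cases hc : clsW b i = .one
  · rw [(p1 hc).1]
    norm_num
  · rw [p2 hc]
    norm_num

/-! ### the inner variable -/

/-- bounds for the inner variable of a region with three crossings -/
theorem MM.inner_bd (hb : ClassW b) (L : LocA b zs) (hN : NbT b R nb) (hM : MM b zs R nb z p)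
    (A : Adj h i s j) (hn : Sum.inl (Sum.inl h) ∉ nb) (hc : clsW b i = .three ∨ clsW b i = .threeE) :
    0 ≤ (Ow b z i 1).re ∧ (Ow b z i 1).re ≤ 80 / 100 ∧ |(Ow b z i 1).im| ≤ 16 / 100 ∧
      |(Ow b z i 1).im| ≤ 32 / 10 * (Ow b z i 1).re ∧
      |(Ow b z i 1).im| ≤ 32 / 10 * (80 / 100 - (Ow b z i 1).re) := by
  have hm := tyW_isMid hc
  have hP := hM.innerv hN.ok ⟨i, hm⟩ A hn
  have hT : |ofs (b i) (zs (.inl (.inr ⟨i, hm⟩))).im| ≤ 16 / 100 := by
    rcases hc with hc | hc
    · have he := clsW_inner hb (Or.inr (Or.inr hc))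
      have h0 : i ≠ 0 := by
        unfold isEnd at he
        have := of_decide_eq_false he
        rw [not_or] at this
        exact this.1
      obtain ⟨k, hk⟩ := Fin.eq_succ_of_ne_zero h0
      have h1 := L.L.mid ⟨i, hm⟩ he k hk.symm
      obtain ⟨-, -, h2, h3⟩ := h1
      rw [ofr_im] at h2 h3
      simp only [mbox] at h2 h3
      exact abs_le.mpr ⟨by linarith only [hm, h2], by linarith only [hm, h3]⟩
    · have he := clsW_end (Or.inr hc)
      have h1 := L.L.midE ⟨i, hm⟩ he
      obtain ⟨-, -, h2, h3⟩ := h1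
      rw [ofr_im] at h2 h3
      simp only [mboxE] at h2 h3
      exact abs_le.mpr ⟨by linarith only [hm, h2], by linarith only [hm, h3]⟩
  obtain ⟨y, y0, y1, e1, e2⟩ := hP
  have ht := tr_mem 0 (mp (clsW b i)).XM (mp (clsW b i)).cl (mp (clsW b i)).cr y
  obtain ⟨t, htt⟩ : ∃ t, t = tr 0 (mp (clsW b i)).XM (mp (clsW b i)).cl (mp (clsW b i)).cr y :=
    ⟨_, rfl⟩
  have hX : (mp (clsW b i)).XM ≤ 80 / 100 ∧ t ≤ 20 * y ∧ t ≤ 20 * (80 / 100 - y) := by
    rcases hc with hc | hc
    · rw [hc] at htt y1 ⊢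
      simp only [mp] at htt y1 ⊢
      refine ⟨by norm_num, ?_, ?_⟩
      · rw [htt]
        have := tr_le_cl (b' := 8 / 10) (c' := 5 / 100) (c := 5 / 100) (by norm_num) y0
        linarith only [this]
      · rw [htt]
        have := tr_le_cr (b' := 8 / 10) (c' := 5 / 100) (c := 5 / 100) (x := y) (by norm_num)
          (by linarith only [y1])
        linarith only [this]
    · rw [hc] at htt y1 ⊢
      simp only [mp] at htt y1 ⊢
      refine ⟨by norm_num, ?_, ?_⟩
      · rw [htt]
        have := tr_le_cl (b' := 77 / 100) (c' := 2 / 10) (c := 1 / 10) (by norm_num) y0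
        linarith only [y0, this]
      · rw [htt]
        have := tr_le_cr (b' := 77 / 100) (c' := 2 / 10) (c := 1 / 10) (x := y) (by norm_num)
          (by linarith only [y1])
        linarith only [y1, this]
  have him : |(Ow b z i 1).im| ≤ 16 / 100 * t := by
    have h16 : |(16 / 100 * t : ℝ)| = 16 / 100 * t := by
      rw [abs_of_nonneg]
      rw [htt]
      have := ht.1
      positivity
    have ht0 : 0 ≤ t := by
      rw [htt]
      exact ht.1
    rcases e2 with ⟨a, -⟩ | ⟨a, -⟩ | ⟨-, a, -⟩ | ⟨-, a, -⟩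
    · rw [a, abs_zero]
      positivity
    · rw [a, ← htt, abs_mul, abs_of_nonneg ht0]
      exact mul_le_mul_of_nonneg_right hT ht0
    · rw [a, ← htt, h16]
    · rw [a, ← htt, abs_neg, h16]
  rw [← htt] at ht
  have e1' : (Ow b z i 1).re = y := e1
  rw [e1']
  refine ⟨y0, y1.trans hX.1, ?_, ?_, ?_⟩
  · linarith only [ht, him]
  · linarith only [hX, him]
  · linarith only [hX, him]

/-! ### the classes -/

/-- **The side of the digit.** -/
theorem dside (Z : ZD.ZRows) (C2 : ZC2r) (N : ZD.RowsN) (hb : ClassW b) (L : LocA b zs)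
    (hN : NbT b R nb) (hM : MM b zs R nb z p) (A : Adj h i s j) (hi : clsW b i ≠ .ring)
    (hj : clsW b j = .ring) (hp : p (.inl h) ≠ 0) {σ η : ℝ} (hζ : Ow b z j 1 = ⟨σ, η⟩)
    (hσ : |σ| ≤ 1 / 2) (η0 : 0 ≤ η) (η1 : η ≤ 1045 / 10000 * LT.th σ) :
    DOk b zs z p h i s j σ η := by
  have hn := pen_nn hM hp
  have hpos := hM.pstA hb hN.ok.1 A hi (hN.nR A hn A)
  obtain ⟨x, x0, x1, e1, e2⟩ := hpos
  have hu : Hup b h s j = 16 / 100 := by
    unfold Hup
    rw [if_pos hj]
  have hd : Hdn b h s j = 10000 := by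
    unfold Hdn
    rw [if_pos hj]
  rw [hu, hd] at e2
  have ht0 : 0 ≤ trh b h x := (trh_mem (b := b) h x).1
  obtain ⟨w1, w2, w3, w4, w5, w6, w7, w8⟩ := Th_ring (zs := zs) hb L A hi hj
  have t2 := trh_two A hi hj
  have X2 := wXM_two A hi hj
  obtain ⟨q1, q2, q3, q4, q5, q6, q7⟩ := A.par_ring hi hj
  have hreg : clsW b i = .one ∨ clsW b i = .two ∨ clsW b i = .twoE ∨ clsW b i = .three ∨
      clsW b i = .threeE := by
    rcases hc : clsW b i
    · simp
    · simp
    · simp
    · simp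
    · simp
    · exact absurd hc hi
  rcases e2 with ⟨-, a⟩ | ⟨-, a⟩ | ⟨aT, a, ap⟩ | ⟨aT, a, ap⟩
  · exact absurd a hp
  · exact absurd a hp
  · -- near path
    have htp : 0 < trh b h x := by
      rcases ht0.eq_or_lt with h0 | h0
      · exfalso
        apply hp
        rw [ap]
        show 16 / 100 * trh b h x = 0
        rw [← h0, mul_zero]
      · exact h0
    have hc : clsW b i = .three := by
      rcases hreg with h0 | h0 | h0 | h0 | h0
      · linarith only [aT, w3, h0, w3 h0]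
      · linarith only [aT, w4, h0, w4 h0]
      · linarith only [aT, w5, h0, w5 h0]
      · exact h0
      · linarith only [aT, w6, h0, w6 h0]
    have hc1 : clsW b i ≠ .one := by rw [hc]; decide
    have T0 : -(7 / 10000) ≤ Th b zs h i := by
      rcases L.E.three A hc hj with h0 | h0
      · unfold Th
        linarith only [h0]
      · exact h0.lo
    have hX : Ow b z i s = ⟨x, 16 / 100 * trh b h x⟩ := Complex.ext e1 a
    obtain ⟨v0, v1, v2, v3, v4⟩ := hM.inner_bd hb L hN A hn (Or.inl hc)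
    have x60 := x1
    rw [q2 hc1] at x60
    have xpos : 0 < x := by
      by_contra h0
      exact htp.ne' (trh_zero_of (Or.inl (not_lt.1 h0)))
    have xlt : x < 60 / 100 := by
      by_contra h0
      exact htp.ne' (trh_zero_of (Or.inr (by rw [q2 hc1]; exact not_lt.1 h0)))
    have hTgt : ZD.Tgt (112 / 1000) (2 / 10) (Th b zs h i * trh b h (2 / 10)) := by
      rw [t2, mul_one]
      exact ⟨Or.inr (Or.inr (Or.inr ⟨rfl, w1, by linarith only [aT], rfl⟩))⟩
    have trN : ∀ a : ℝ, 0 < a → wcl b h = a → wcr b h = 30 / 100 → trh b h x = ZD.tN a x := by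
      intro a ha h1 h2
      unfold trh ZD.tN tr
      rw [q2 hc1, h1, h2, sub_zero]
      apply max_eq_right
      refine le_min zero_le_one (le_min ?_ ?_)
      · positivity
      · apply div_nonneg (by linarith only [x60]) (by norm_num)
    rcases A.slot with hs | hs
    · subst hs
      obtain ⟨r1, r2⟩ := q3 hc rfl
      have hNT : ZD.NT (12 / 100) x (trh b h x) (Th b zs h i) :=
        ⟨xpos, xlt, trN _ (by norm_num) r1 r2, T0, aT⟩
      have hd3 : ZD.dom3 (1 - (Ow b z i 1).re) (-(Ow b z i 1).im) := by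
        refine ⟨by linarith only [v1], by linarith only [v0], ?_, ?_, ?_⟩ <;> rw [abs_neg] <;> linarith only [v2, v4, v3]
      refine dok_near hb hN hM A hi hj hn (g := fun X t => ZD.gD1 X t (1 - (Ow b z i 1).re)
        (-(Ow b z i 1).im)) (c := 2 / 10) hζ x0 x1 hX ap (dv_three0 hb hc) (by norm_num) X2 hTgt ?_
      intro hrow
      have k := ZD.near1 N hNT hd3 hσ η0 η1 (by
        unfold ZD.nA1 ZD.nAR
        exact hrow)
      unfold ZD.nB1 ZD.nBR at k
      simp only [t2, mul_one]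
      exact k
    · subst hs
      obtain ⟨r1, r2⟩ := q4 hc rfl
      have hNT : ZD.NT (13 / 100) x (trh b h x) (Th b zs h i) :=
        ⟨xpos, xlt, trN _ (by norm_num) r1 r2, T0, aT⟩
      refine dok_near hb hN hM A hi hj hn (g := fun X t => ZD.gD2 X t (Ow b z i 1).re
        (Ow b z i 1).im) (c := 2 / 10) hζ x0 x1 hX ap (dv_three2 hb hc) (by norm_num) X2 hTgt ?_
      intro hrow
      have k := ZD.near2 N hNT v0 v2 v3 v4 hσ η0 η1 (by
        unfold ZD.nA2 ZD.nAR
        exact hrow)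
      unfold ZD.nB2 ZD.nBR at k
      simp only [t2, mul_one]
      exact k
  · -- far path
    have htp : 0 < trh b h x := by
      rcases ht0.eq_or_lt with h0 | h0
      · exfalso
        apply hp
        rw [ap]
        show 10000 * trh b h x = 0
        rw [← h0, mul_zero]
      · exact h0
    have hX : Ow b z i s = ⟨x, -(10000 * trh b h x)⟩ := Complex.ext e1 a
    have F := farIn_of (zs := zs) hb L A hi hj hσ η0 η1 x0 x1 htp
    rcases hreg with hc | hc | hc | hc | hc
    · -- `1`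
      rw [(q1 hc).1] at F
      obtain ⟨hd, c, θ, c0, c1, hT, hG⟩ := goal_one Z C2 hb L hN hM A hc hj hn
        (x1 := x) (Y := 10000 * trh b h x) hX (by positivity) x0 F.x1
      refine dok_far hb hN hM A hi hj hn (g := fun X t => ZD.gD1 X t (Ow b z i s.rev).re
        (Ow b z i s.rev).im) hζ x0 x1 hX ap (dv_one hb A hc) rfl c0 c1 hT ?_
      intro hrow
      have e := ZD.dA1_eq x (10000 * trh b h x) (Ow b z i s.rev).re (Ow b z i s.rev).im
      rw [← e] at hrow ⊢
      exact ZD.far1 Z F hd hG hrow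
    · -- `2`
      have hc1 : clsW b i ≠ .one := by rw [hc]; decide
      rw [q2 hc1] at F
      obtain ⟨k0, k1, k2, k3⟩ := hM.slot_two hb L hN A hn hc
      have hd : ZD.dom2 (Ow b z i s.rev).re (Ow b z i s.rev).im :=
        ⟨k0, k1, k3, by linarith only [k0, k2]⟩
      have hG := Z.C.c2 (Th b zs h i) _ _ (w4 hc).1 (w4 hc).2 hd
      refine dok_far hb hN hM A hi hj hn (g := fun X t => ZD.gD2 X t (Ow b z i s.rev).re
        (Ow b z i s.rev).im) (θ := 112 / 1000) (c := 2 / 10) hζ x0 x1 hX ap (dv_two hb A (Or.inl hc)) rfl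
        (by norm_num) X2 ?_ ?_
      · rw [t2, mul_one]
        exact ⟨Or.inr (Or.inr (Or.inr ⟨rfl, w1, w7 hc1, rfl⟩))⟩
      · intro hrow
        have e := ZD.dA2_eq x (10000 * trh b h x) (Ow b z i s.rev).re (Ow b z i s.rev).im
        simp only [t2, mul_one]
        rw [← e] at hrow ⊢
        exact ZD.far2 Z F hd hG hrow
    · -- `2` at an end
      have hc1 : clsW b i ≠ .one := by rw [hc]; decide
      rw [q2 hc1] at F
      refine dok_far hb hN hM A hi hj hn (g := fun X t => ZD.gD0 X t) (θ := 112 / 1000)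
        (c := 2 / 10) hζ x0 x1 hX ap (dv_twoE hb A hc) rfl (by norm_num) X2 ?_ ?_
      · rw [t2, mul_one]
        exact ⟨Or.inr (Or.inr (Or.inr ⟨rfl, w1, w7 hc1, rfl⟩))⟩
      · intro hrow
        have e := ZD.dA0_eq x (10000 * trh b h x)
        simp only [t2, mul_one]
        rw [← e] at hrow ⊢
        exact ZD.far0 Z F (w5 hc) (w7 hc1) hrow
    · -- `3`
      have hc1 : clsW b i ≠ .one := by rw [hc]; decide
      rw [q2 hc1] at F
      obtain ⟨v0, v1, v2, v3, v4⟩ := hM.inner_bd hb L hN A hn (Or.inl hc)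
      rcases A.slot with hs | hs
      · subst hs
        have hd3 : ZD.dom3 (1 - (Ow b z i 1).re) (-(Ow b z i 1).im) := by
          refine ⟨by linarith only [v1], by linarith only [v0], ?_, ?_, ?_⟩ <;> rw [abs_neg] <;> linarith only [v2, v4, v3]
        have hG := Z.C.c3 (Th b zs h i) _ _ w1 (w8 (Or.inl hc)) hd3
        refine dok_far hb hN hM A hi hj hn (g := fun X t => ZD.gD1 X t (1 - (Ow b z i 1).re)
          (-(Ow b z i 1).im)) (θ := 112 / 1000) (c := 2 / 10) hζ x0 x1 hX ap (dv_three0 hb hc) rfl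
          (by norm_num) X2 ?_ ?_
        · rw [t2, mul_one]
          exact ⟨Or.inr (Or.inr (Or.inr ⟨rfl, w1, w7 hc1, rfl⟩))⟩
        · intro hrow
          have e := ZD.dA1_eq x (10000 * trh b h x) (1 - (Ow b z i 1).re) (-(Ow b z i 1).im)
          simp only [t2, mul_one]
          rw [← e] at hrow ⊢
          exact ZD.far3 Z F hd3 hG hrow
      · subst hs
        have hd : ZD.dom2 (Ow b z i 1).re (Ow b z i 1).im := by
          have := abs_le.mp v2
          have := abs_le.mp v3
          exact ⟨v0, v1, by linarith, by linarith only [this]⟩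
        have hG := Z.C.c32 (Th b zs h i) _ _ w1 (w8 (Or.inl hc)) hd (by linarith only [v2, (abs_le.mp v2).1])
        refine dok_far hb hN hM A hi hj hn (g := fun X t => ZD.gD2 X t (Ow b z i 1).re
          (Ow b z i 1).im) (θ := 112 / 1000) (c := 2 / 10) hζ x0 x1 hX ap (dv_three2 hb hc) rfl
          (by norm_num) X2 ?_ ?_
        · rw [t2, mul_one]
          exact ⟨Or.inr (Or.inr (Or.inr ⟨rfl, w1, w7 hc1, rfl⟩))⟩
        · intro hrow
          have e := ZD.dA2_eq x (10000 * trh b h x) (Ow b z i 1).re (Ow b z i 1).im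
          simp only [t2, mul_one]
          rw [← e] at hrow ⊢
          exact ZD.far2 Z F hd hG hrow
    · -- `3` at an end
      have hc1 : clsW b i ≠ .one := by rw [hc]; decide
      rw [q2 hc1] at F
      obtain ⟨v0, v1, v2, v3, v4⟩ := hM.inner_bd hb L hN A hn (Or.inr hc)
      have hd3 : ZD.dom3 (1 - (Ow b z i 1).re) (-(Ow b z i 1).im) := by
        refine ⟨by linarith only [v1], by linarith only [v0], ?_, ?_, ?_⟩ <;> rw [abs_neg] <;> linarith only [v2, v4, v3]
      have hG := Z.C.c3 (Th b zs h i) _ _ w1 (w8 (Or.inr hc)) hd3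
      refine dok_far hb hN hM A hi hj hn (g := fun X t => ZD.gD1 X t (1 - (Ow b z i 1).re)
        (-(Ow b z i 1).im)) (θ := 112 / 1000) (c := 2 / 10) hζ x0 x1 hX ap (dv_threeE A hc) rfl
        (by norm_num) X2 ?_ ?_
      · rw [t2, mul_one]
        exact ⟨Or.inr (Or.inr (Or.inr ⟨rfl, w1, w7 hc1, rfl⟩))⟩
      · intro hrow
        have e := ZD.dA1_eq x (10000 * trh b h x) (1 - (Ow b z i 1).re) (-(Ow b z i 1).im)
        simp only [t2, mul_one]
        rw [← e] at hrow ⊢
        exact ZD.far3 Z F hd3 hG hrow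

end SR

end Pool.Agent.Work.MP_b30479_gt.G2
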