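import Pool.Agent.Work.MP_b30479_gt.G2.ZDc
import Pool.Agent.Work.MP_b30479_gt.G2.MR2
import Pool.Agent.Work.MP_b30479_gt.G2.RngO
import Pool.Agent.Work.MP_b30479_gt.G2.ZDf

/-!
# Modes at the hinges of rings: the slots of a ring
-/

namespace Pool.Agent.Work.MP_b30479_gt.G2

open Finset NumU

namespace SR

variable {M : ℕ} {b : Fin (M + 1) → ℤ} {zs : DD (tyW b) ⊕ ZZ (tyW b) → ℂ}
variable {R : Finset (DD (tyW b))} {nb : Finset (DD (tyW b) ⊕ ZZ (tyW b))}
variable {z : DD (tyW b) ⊕ ZZ (tyW b) → ℂ} {p : DD (tyW b) → ℝ}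
variable {h h' : Fin M} {i j j' : Fin (M + 1)} {s : Fin 3} {x c : ℝ}

theorem Th_rr (hb : ClassW b) (L : LocA b zs) (A : Adj h i s j) (hi : clsW b i = .ring)
    (hj : clsW b j = .ring) : |Th b zs h i| ≤ 56 / 1000 := by
  unfold Th
  obtain ⟨r1, -⟩ := L.R.rr A hi hj
  obtain ⟨-, -, t0, -⟩ := A.box hb L.L
  rw [hi, hj] at t0
  rw [abs_le]
  refine ⟨le_trans ?_ t0, r1⟩
  cases ssW b h <;> norm_num [hbox]

/-- position of a hinge between two rings -/
theorem MM.pst_rr (hR : ∀ i ∈ R, Sum.inl i ∈ nb) (hM : MM b zs R nb z p)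
    (A : Adj h i s j) (hi : clsW b i = .ring) (hj : clsW b j = .ring)
    (hnR : (Sum.inl h : DD (tyW b)) ∉ R) :
    ∃ x : ℝ, 0 ≤ x ∧ x ≤ 1 / 2 ∧ (Ow b z i s).re = x ∧
      ((∃ τ : ℝ, (τ = 0 ∨ τ = Th b zs h i) ∧ (Ow b z i s).im = τ * trh b h x ∧ p (.inl h) = 0) ∨
        (|(Ow b z i s).im| = 100 * trh b h x ∧ p (.inl h) = 100 * trh b h x)) := by
  have hX := (A.par_rr hi hj).1
  have hc : clsW b h.castSucc = .ring ∧ clsW b h.succ = .ring := by
    cases A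
    · exact ⟨hi, hj⟩
    · exact ⟨hj, hi⟩
  rw [Ow_adj z A, ofr_re, ofr_im, abs_ofs]
  by_cases hn : Sum.inl (Sum.inl h) ∈ nb
  · obtain ⟨e1, e2, e3, e4⟩ := hM.adm.reD _ hnR hn
    refine ⟨_, e2, e3.trans_eq hX, rfl, Or.inl ⟨0, Or.inl rfl, ?_, e4⟩⟩
    rw [e1, ofs_zero, zero_mul]
  have hhu : (wparM b zs).hu (.inl h) =
      if 0 < (zs (.inl (.inl h))).im then (zs (.inl (.inl h))).im else 100 := by
    show mhu b zs (.inl h) = _
    rw [mhu_ring (A.rh1 hj)]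
    unfold rhu
    rw [if_pos hc.1, if_pos hc.2]
  have hhd : (wparM b zs).hd (.inl h) =
      if (zs (.inl (.inl h))).im < 0 then -(zs (.inl (.inl h))).im else 100 := by
    show mhd b zs (.inl h) = _
    rw [mhd_ring (A.rh1 hj)]
    unfold rhd
    rw [if_pos hc.1, if_pos hc.2]
  obtain ⟨x, h0, h1, h2⟩ := hM.adm.onD (.inl h) hn
  have ht := trh_mem (b := b) h x
  have main : z (.inl (.inl h)) = pt 0 ((wparM b zs).XM (.inl h)) ((wparM b zs).cl (.inl h))
      ((wparM b zs).cr (.inl h)) (zs (.inl (.inl h))).im x → p (.inl h) = 0 →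
      ofs (b i) (z (.inl (.inl h))).im = Th b zs h i * trh b h x ∧ p (.inl h) = 0 := by
    intro e1 e2
    refine ⟨?_, e2⟩
    rw [e1, ptm_im, ofs_mulR]
    rfl
  refine ⟨x, h0, h1.trans_eq hX, ?_, ?_⟩
  · rcases h2 with h2 | h2 | h2 <;> rw [h2.1, ptm_re]
  rcases h2 with ⟨e1, e2⟩ | ⟨e1, e2⟩ | ⟨e1, e2⟩
  · exact Or.inl ⟨_, Or.inr rfl, main e1 e2⟩
  · rw [hhu] at e1 e2
    by_cases hT : 0 < (zs (.inl (.inl h))).im
    · rw [if_pos hT] at e1 e2
      have h3 : p (.inl h) ≤ 0 := hM.pen_zero hR hn ⟨x, h0, h1, Or.inl ⟨e1, rfl⟩⟩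
      refine Or.inl ⟨_, Or.inr rfl, main e1 (le_antisymm h3 ?_)⟩
      rw [e2]
      exact mul_nonneg hT.le ht.1
    · rw [if_neg hT] at e1 e2
      right
      refine ⟨?_, e2⟩
      rw [e1, ptm_im]
      show |100 * trh b h x| = _
      exact abs_of_nonneg (mul_nonneg (by norm_num) ht.1)
  · rw [hhd] at e1 e2
    by_cases hT : (zs (.inl (.inl h))).im < 0
    · rw [if_pos hT] at e1 e2
      rw [neg_neg] at e1
      have h3 : p (.inl h) ≤ 0 := hM.pen_zero hR hn ⟨x, h0, h1, Or.inl ⟨e1, rfl⟩⟩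
      refine Or.inl ⟨_, Or.inr rfl, main e1 (le_antisymm h3 ?_)⟩
      rw [e2]
      exact mul_nonneg (by linarith only [hT]) ht.1
    · rw [if_neg hT] at e1 e2
      right
      refine ⟨?_, e2⟩
      rw [e1, ptm_im]
      show |-100 * trh b h x| = _
      rw [neg_mul, abs_neg]
      exact abs_of_nonneg (mul_nonneg (by norm_num) ht.1)

/-- kept hinge between two rings -/
theorem mr_slot (hb : ClassW b) (L : LocA b zs) (hR : ∀ i ∈ R, Sum.inl i ∈ nb)
    (hM : MM b zs R nb z p) (A : Adj h i s j) (hi : clsW b i = .ring) (hj : clsW b j = .ring)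
    (hnR : (Sum.inl h : DD (tyW b)) ∉ R) (hp : p (.inl h) = 0) (σ η : ℝ) :
    ZD.ZSl .mr (Ow b z i s) (Ow b z i s) 0 σ η := by
  obtain ⟨e1, e2, e3⟩ := A.par_rr (b := b) hi hj
  have hT := Th_rr hb L A hi hj
  obtain ⟨x, x0, x1, ex, hx⟩ := hM.pst_rr hR A hi hj hnR
  have ht := trh_mem (b := b) h x
  have key : ∃ τ : ℝ, |τ| ≤ 56 / 1000 ∧ (Ow b z i s).im = τ * trh b h x := by
    rcases hx with ⟨τ, hτ, a, -⟩ | ⟨a, a'⟩
    · refine ⟨τ, ?_, a⟩
      rcases hτ with h0 | h0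
      · rw [h0, abs_zero]
        norm_num
      · rw [h0]
        exact hT
    · refine ⟨0, by norm_num, ?_⟩
      rw [hp] at a'
      rw [← a'] at a
      rw [abs_eq_zero.1 a, zero_mul]
  obtain ⟨τ, hτ, e⟩ := key
  have t1 : trh b h x ≤ x / (1 / 10) := by
    unfold trh
    rw [e1, e2, e3]
    exact tr_le_l (by norm_num) x0
  have t2 : trh b h x ≤ (1 / 2 - x) / (2 / 100) := by
    unfold trh
    rw [e1, e2, e3]
    exact tr_le_cr (by norm_num) x1
  refine ⟨fun h0 => absurd h0 (by decide), fun _ => ⟨rfl, rfl, ?_, ?_, ?_, ?_, ?_⟩,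
    fun h0 => absurd h0 (by decide), fun h0 => absurd h0 (by decide)⟩
  · rw [ex]
    exact x0
  · rw [ex]
    exact x1
  · rw [e, abs_mul, abs_of_nonneg ht.1]
    calc |τ| * trh b h x ≤ 56 / 1000 * 1 := mul_le_mul hτ ht.2 ht.1 (by norm_num)
      _ = _ := by norm_num
  · rw [e, abs_mul, abs_of_nonneg ht.1, ex]
    calc |τ| * trh b h x ≤ 56 / 1000 * (x / (1 / 10)) := mul_le_mul hτ t1 ht.1 (by norm_num)
      _ = _ := by ring
  · rw [e, abs_mul, abs_of_nonneg ht.1, ex]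
    calc |τ| * trh b h x ≤ 56 / 1000 * ((1 / 2 - x) / (2 / 100)) :=
          mul_le_mul hτ t2 ht.1 (by norm_num)
      _ = _ := by ring

/-- moved hinge between two rings -/
theorem rr_slot (hb : ClassW b) (L : LocA b zs) (hR : ∀ i ∈ R, Sum.inl i ∈ nb)
    (hM : MM b zs R nb z p) (A : Adj h i s j) (hi : clsW b i = .ring) (hj : clsW b j = .ring)
    (hp : p (.inl h) ≠ 0) (σ η : ℝ) :
    ZD.ZSl .rr (Ow b z i s) (tgo b zs h i (17 / 100)) (Real.pi * p (.inl h)) σ η := by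
  obtain ⟨e1, e2, e3⟩ := A.par_rr (b := b) hi hj
  have hT := Th_rr hb L A hi hj
  have hn := pen_nn hM hp
  obtain ⟨x, x0, x1, ex, hx⟩ := hM.pst_rr hR A hi hj (fun h0 => hn (hR _ h0))
  rcases hx with ⟨τ, -, -, a⟩ | ⟨a, a'⟩
  · exact absurd a hp
  have ht := trh_mem (b := b) h x
  have htp : 0 < trh b h x := by
    rcases ht.1.eq_or_lt with h0 | h0
    · exfalso
      apply hp
      rw [a', ← h0, mul_zero]
    · exact h0
  have t17 : trh b h (17 / 100) = 1 := by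
    unfold trh
    rw [e1, e2, e3]
    unfold tr
    norm_num
  refine ⟨fun h0 => absurd h0 (by decide), fun h0 => absurd h0 (by decide),
    fun _ => ⟨p (.inl h), ⟨fun h0 => absurd h0 (by decide), fun _ => ?_,
      fun h0 => absurd h0 (by decide)⟩, rfl⟩, fun h0 => absurd h0 (by decide)⟩
  refine ⟨by rw [ex]; exact x0, by rw [ex]; exact x1, by rw [a, a'], ?_, Th b zs h i,
    by linarith only [hT], ?_⟩
  · rw [ex, a]
    have hd : trh b h x = tr 0 (1 / 2) (1 / 10) (2 / 100) x := by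
      unfold trh
      rw [e1, e2, e3]
    rw [hd] at htp ⊢
    exact mode_path x0 x1 htp
  · unfold tgo wM
    rw [t17, mul_one]

/-- kept hinge between a ring and a region which is no ring -/
theorem md_slot (hb : ClassW b) (L : LocA b zs) (hR : ∀ i ∈ R, Sum.inl i ∈ nb)
    (hM : MM b zs R nb z p) (A : Adj h i s j) (hi : clsW b i ≠ .ring) (hj : clsW b j = .ring)
    (hnR : (Sum.inl h : DD (tyW b)) ∉ R) (hp : p (.inl h) = 0) (σ η : ℝ) :
    ZD.ZSl .md (Ow b z j s.rev) (Ow b z j s.rev) 0 σ η := by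
  obtain ⟨w1, w2, w3, w4, w5, w6, w7, w8⟩ := Th_ring (zs := zs) hb L A hi hj
  obtain ⟨q1, q2, q3, q4, q5, q6, q7⟩ := A.par_ring hi hj
  obtain ⟨x, x0, x1, e1, e2⟩ := hM.pstA hb hR A hi hnR
  have ht := trh_mem (b := b) h x
  have hu : Hup b h s j = 16 / 100 := by
    unfold Hup
    rw [if_pos hj]
  have hd : Hdn b h s j = 10000 := by
    unfold Hdn
    rw [if_pos hj]
  rw [hu, hd, hp] at e2
  have hX1 : wXM b h ≤ 65 / 100 := by
    by_cases hc : clsW b i = .one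
    · exact (q1 hc).1.le
    · rw [q2 hc]
      norm_num
  have key : ∃ τ : ℝ, (τ = 0 ∨ τ = Th b zs h i) ∧ (Ow b z i s).im = τ * trh b h x := by
    rcases e2 with ⟨a, -⟩ | ⟨a, -⟩ | ⟨-, a, a'⟩ | ⟨-, a, a'⟩
    · exact ⟨0, Or.inl rfl, by rw [a, zero_mul]⟩
    · exact ⟨_, Or.inr rfl, a⟩
    · refine ⟨0, Or.inl rfl, ?_⟩
      rw [a, ← a', zero_mul]
    · refine ⟨0, Or.inl rfl, ?_⟩
      rw [a, ← a', neg_zero, zero_mul]
  obtain ⟨τ, hτ, e⟩ := key
  have τ0 : -(1 / 1000) ≤ τ := by rcases hτ with h0 | h0 <;> rw [h0] <;> first | exact w1 | norm_num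
  have τ1 : τ ≤ 158 / 1000 := by rcases hτ with h0 | h0 <;> rw [h0] <;> first | exact w2 | norm_num
  have l1 : 0 < wcl b h := wcl_pos h
  have r1 : 0 < wcr b h := wcr_pos h
  have t1 : trh b h x ≤ x / wcl b h := tr_le_l l1 x0
  have t2 : trh b h x ≤ (wXM b h - x) / wcr b h := tr_le_cr r1 x1
  rw [le_div_iff₀ l1] at t1
  rw [le_div_iff₀ r1] at t2
  have t3 : trh b h x * (10 / 100) ≤ x :=
    (mul_le_mul_of_nonneg_left q5.1 ht.1).trans t1
  have hop := Ow_opp (z := z) hb A hi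
  rw [e, e1] at hop
  rw [hop]
  have b1 : τ * trh b h x ≤ 158 / 1000 * trh b h x := mul_le_mul_of_nonneg_right τ1 ht.1
  have b0 : -(1 / 1000) * trh b h x ≤ τ * trh b h x := mul_le_mul_of_nonneg_right τ0 ht.1
  refine ⟨fun _ => ⟨rfl, rfl, x0, x1.trans hX1, ?_, ?_, ?_, ?_, ?_⟩, fun h0 => absurd h0 (by decide),
    fun h0 => absurd h0 (by decide), fun h0 => absurd h0 (by decide)⟩
  · show -(158 / 1000) ≤ -(τ * trh b h x)
    linarith only [ht, b1, ht.2]
  · show -(τ * trh b h x) ≤ 1 / 1000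
    linarith only [ht, b0, ht.2]
  · show -(τ * trh b h x) ≤ 0 ∨ x ≤ 60 / 100
    by_cases hc : clsW b i = .one
    · left
      have : 0 ≤ τ := by
        rcases hτ with h0 | h0
        · rw [h0]
        · rw [h0]
          linarith only [w1, w3, hc, w3 hc]
      have := mul_nonneg this ht.1
      linarith only [this]
    · right
      rw [← q2 hc]
      exact x1
  · show - -(τ * trh b h x) ≤ 545 / 1000 * (65 / 100 - x)
    rw [neg_neg]
    by_cases hc : clsW b i = .one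
    · obtain ⟨a1, -, a3⟩ := q1 hc
      rw [a1, a3] at t2
      linarith only [ht, t2, b1]
    · have a1 := q2 hc
      have a2 := mul_le_mul_of_nonneg_left (q7 hc) ht.1
      have a3 := w7 hc
      have a4 : τ ≤ 131 / 1000 := by rcases hτ with h0 | h0 <;> rw [h0] <;> first | exact a3 | norm_num
      have a5 : τ * trh b h x ≤ 131 / 1000 * trh b h x := mul_le_mul_of_nonneg_right a4 ht.1
      rw [a1] at t2 x1
      linarith only [q5, x1, l1, t2, b1, a2]
  · show - -(τ * trh b h x) ≤ 158 / 100 * x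
    rw [neg_neg]
    linarith only [t3, b1]

end SR

end Pool.Agent.Work.MP_b30479_gt.G2
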