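import Pool.Agent.Work.MP_b30479_gt.G2.MDf
import Pool.Agent.Work.MP_b30479_gt.G2.MRX
import Pool.Agent.Work.MP_b30479_gt.G2.RngO
import Pool.Agent.Work.MP_b30479_gt.G2.ZDc
import Pool.Agent.Work.MP_b30479_gt.G2.ZDf

/-!
# No modes at the hinges of rings
-/

namespace Pool.Agent.Work.MP_b30479_gt.G2

open Finset NumU

namespace SR

variable {M : ℕ} {b : Fin (M + 1) → ℤ} {zs : DD (tyW b) ⊕ ZZ (tyW b) → ℂ}
variable {R : Finset (DD (tyW b))} {nb : Finset (DD (tyW b) ⊕ ZZ (tyW b))}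
variable {z : DD (tyW b) ⊕ ZZ (tyW b) → ℂ} {p : DD (tyW b) → ℝ}
variable {h h' : Fin M} {i j j' : Fin (M + 1)} {s s' : Fin 3}

/-! ### runs of hinges -/

theorem Adj.vals (A : Adj h i s j) : (s = 2 ∧ (i : ℕ) = h ∧ (j : ℕ) = h + 1 ∧ i = h.castSucc) ∨
    (s = 0 ∧ (i : ℕ) = h + 1 ∧ (j : ℕ) = h ∧ j = h.castSucc) := by
  cases A
  · left
    simp
  · right
    simp

/-- a run -/
theorem exists_run (F : Finset (Fin M)) (P : Fin (M + 1) → Prop) (hF : F.Nonempty) :
    ∃ S ⊆ F, S.Nonempty ∧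
      (∀ h i s j, h ∈ S → Adj h i s j → P i → ∀ h' s' j', h' ∈ F → Adj h' i s' j' → h' ∈ S) ∧
      (∀ h i s j, h ∈ S → Adj h i s j → ¬ P i → ∀ h' s' j', h' ∈ S → Adj h' i s' j' → s = s') := by
  classical
  set m := F.min' hF with hm
  refine ⟨F.filter (fun h => ∀ k : Fin M, m < k → k ≤ h → (k ∈ F ∧ P k.castSucc)),
    filter_subset _ _, ⟨m, ?_⟩, ?_, ?_⟩
  · rw [mem_filter]
    exact ⟨F.min'_mem hF, fun k h1 h2 => absurd h1 (not_lt.2 h2)⟩
  · intro h i s j hS A hP h' s' j' hF' A'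
    rw [mem_filter] at hS ⊢
    refine ⟨hF', fun k k1 k2 => ?_⟩
    rcases le_or_gt k h with k3 | k3
    · exact hS.2 k k1 k3
    · rw [Fin.lt_def] at k3
      rw [Fin.le_def] at k2
      rcases A'.vals with ⟨-, a2, -, a4⟩ | ⟨-, a2, -, a4⟩ <;>
        rcases A.vals with ⟨-, a1, -, a3⟩ | ⟨-, a1, -, a3⟩
      · omega
      · have e : k = h' := Fin.ext (by omega)
        subst e
        exact ⟨hF', a4 ▸ hP⟩
      · omega
      · omega
  · intro h i s j hS A hP h' s' j' hS' A'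
    rw [mem_filter] at hS hS'
    have m1 := F.min'_le h hS.1
    have m2 := F.min'_le h' hS'.1
    rw [← hm, Fin.le_def] at m1 m2
    rcases A'.vals with ⟨b1, a2, -, a4⟩ | ⟨b1, a2, -, a4⟩ <;>
      rcases A.vals with ⟨b2, a1, -, a3⟩ | ⟨b2, a1, -, a3⟩
    · rw [b1, b2]
    · exfalso
      apply hP
      rw [a4]
      exact (hS'.2 h' (by rw [Fin.lt_def]; omega) le_rfl).2
    · exfalso
      apply hP
      rw [a3]
      exact (hS.2 h (by rw [Fin.lt_def]; omega) le_rfl).2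
    · rw [b1, b2]

/-! ### the new point -/

/-- the region has a hinge in the set `S` -/
def TcS (S : Finset (Fin M)) (i : Fin (M + 1)) : Prop := ∃ h ∈ S, ∃ s j, Adj h i s j

open Classical in
/-- the new point -/
noncomputable def zN (b : Fin (M + 1) → ℤ) (zs z : DD (tyW b) ⊕ ZZ (tyW b) → ℂ)
    (S : Finset (Fin M)) (c : Fin M → ℝ) : DD (tyW b) ⊕ ZZ (tyW b) → ℂ
  | .inl (.inl h) => if h ∈ S then tg b zs h (c h) else z (.inl (.inl h))
  | .inl (.inr m) => z (.inl (.inr m))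
  | .inr v => if TcS S v.1 then
      ofz (b v.1) (ZD.nz (ofs (b v.1) (z (.inr v)).re) (zs (.inr v)).im) else z (.inr v)

open Classical in
/-- the new penalties -/
noncomputable def pN (S : Finset (Fin M)) (p : DD (tyW b) → ℝ) : DD (tyW b) → ℝ
  | .inl h => if h ∈ S then 0 else p (.inl h)
  | .inr m => p (.inr m)

variable {S : Finset (Fin M)} {c : Fin M → ℝ}

theorem zN_in (A : Adj h i s j) (hS : h ∈ S) : Ow b (zN b zs z S c) i s = tgo b zs h i (c h) := by
  rw [Ow_adj _ A, ← ofr_tg]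
  congr 1
  show (if h ∈ S then _ else _) = _
  rw [if_pos hS]

theorem zN_out (A : Adj h i s j) (hS : h ∉ S) : Ow b (zN b zs z S c) i s = Ow b z i s := by
  rw [Ow_adj _ A, Ow_adj _ A]
  congr 1
  show (if h ∈ S then _ else _) = _
  rw [if_neg hS]

theorem not_ring_ty (hb : ClassW b) (hc : clsW b i ≠ .ring) : tyW b i ≠ .ring := by
  intro h0
  apply hc
  have h4 := ring_four hb h0
  unfold clsW cls
  rw [if_neg (by omega), if_neg (by omega), if_neg (by omega)]

theorem ring_cls (hb : ClassW b) (v : ZZ (tyW b)) : clsW b v.1 = .ring := by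
  by_contra hc
  exact not_ring_ty hb hc (tyW_ring v.2)

theorem cf_inr {m : Fin (M + 1)} {q : Fin 3} {v : ZZ (tyW b)} (h0 : cf (tyW b) m q (.inr v) ≠ 0) :
    v.1 = m := by
  simp only [cf] at h0
  split_ifs at h0 with h1
  · exact h1.2
  · exact absurd rfl h0

theorem zN_mid (hb : ClassW b) (hc : clsW b i ≠ .ring) :
    Ow b (zN b zs z S c) i 1 = Ow b z i 1 := by
  have hne := not_ring_ty hb hc
  unfold Ow
  rw [own_one hne, own_one hne]
  congr 1
  unfold xx
  refine sum_congr rfl fun v _ => ?_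
  rcases v with (h | m) | v
  · have : cf (tyW b) i 1 (.inl (.inl h)) = 0 := by simp [cf]
    rw [this]
    simp
  · rfl
  · have : cf (tyW b) i 1 (.inr v) = 0 := by
      simp only [cf]
      rw [if_neg]
      rintro ⟨-, h1⟩
      apply hne
      rw [← h1]
      exact tyW_ring v.2
    rw [this]
    simp

theorem zN_ne (v : DD (tyW b) ⊕ ZZ (tyW b)) (h0 : z v ≠ zN b zs z S c v) :
    (∃ h ∈ S, v = .inl (.inl h)) ∨ ∃ w : ZZ (tyW b), TcS S w.1 ∧ v = .inr w := by
  classical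
  rcases v with (h | m) | w
  · left
    by_contra hc
    apply h0
    show _ = if h ∈ S then _ else _
    rw [if_neg]
    intro h1
    exact hc ⟨h, h1, rfl⟩
  · exact absurd rfl h0
  · right
    by_contra hc
    apply h0
    show _ = if TcS S w.1 then _ else _
    rw [if_neg]
    intro h1
    exact hc ⟨w, h1, rfl⟩

/-- a region which is not touched -/
theorem zN_untouched (hi : ¬ TcS S i) : Ow b (zN b zs z S c) i = Ow b z i := by
  refine (Ow_congr i fun v hv q => ?_).symm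
  rcases zN_ne v hv with ⟨h, hS, rfl⟩ | ⟨w, hw, rfl⟩
  · by_contra h0
    rcases cf_hinge_ne h0 with ⟨rfl, -⟩ | ⟨rfl, -⟩
    · exact hi ⟨h, hS, _, _, .l⟩
    · exact hi ⟨h, hS, _, _, .r⟩
  · by_contra h0
    exact hi (cf_inr h0 ▸ hw)

/-- a touched region which is no ring -/
theorem zN_digit (hb : ClassW b) (hi : clsW b i ≠ .ring) (A : Adj h i s j) (hS : h ∈ S)
    (hu : ∀ h' s' j', h' ∈ S → Adj h' i s' j' → s = s') :
    Ow b (zN b zs z S c) i = Function.update (Ow b z i) s (tgo b zs h i (c h)) := by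
  have key : ∀ q : Fin 3, q = 0 ∨ q = 2 → q ≠ s → Ow b (zN b zs z S c) i q = Ow b z i q := by
    intro q hq hqs
    rcases slot_cases b i hq with ⟨h0, -⟩ | ⟨h', j', A'⟩
    · rw [h0, h0]
    · exact zN_out A' fun hS' => hqs (hu h' q j' hS' A').symm
  funext q
  by_cases hqs : q = s
  · subst hqs
    rw [Function.update_self]
    exact zN_in A hS
  · rw [Function.update_of_ne hqs]
    by_cases h1 : q = 1
    · subst h1
      exact zN_mid hb hi
    · refine key q ?_ hqs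
      fin_cases q <;> simp_all

/-! ### weights -/

open Classical in
/-- the weights of the slots -/
noncomputable def WS (b : Fin (M + 1) → ℤ) (S : Finset (Fin M)) (p : DD (tyW b) → ℝ)
    (a : Fin M → ℝ) (h : Fin M) (s : Fin 3) : ℝ :=
  if h ∈ S then (if clsW b h.castSucc = .ring ∧ clsW b h.succ = .ring then Real.pi * p (.inl h)
    else if clsW b (if s = 0 then h.succ else h.castSucc) = .ring then a h
    else 2 * Real.pi * p (.inl h) - a h) else 0

variable {a : Fin M → ℝ}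

theorem WS_out (hS : h ∉ S) (s : Fin 3) : WS b S p a h s = 0 := by
  unfold WS
  rw [if_neg hS]

theorem Adj.rg (A : Adj h i s j) : (if s = 0 then h.succ else h.castSucc) = i := by
  cases A
  · rw [if_neg (by decide)]
  · rw [if_pos rfl]

theorem Adj.both_ring (A : Adj h i s j) : (clsW b h.castSucc = .ring ∧ clsW b h.succ = .ring) ↔
    (clsW b i = .ring ∧ clsW b j = .ring) := by
  cases A
  · exact Iff.rfl
  · exact and_comm

theorem WS_rr (A : Adj h i s j) (hS : h ∈ S) (hi : clsW b i = .ring) (hj : clsW b j = .ring) :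
    WS b S p a h s = Real.pi * p (.inl h) := by
  unfold WS
  rw [if_pos hS, if_pos (A.both_ring.2 ⟨hi, hj⟩)]

theorem WS_dig (A : Adj h i s j) (hS : h ∈ S) (hi : clsW b i ≠ .ring) :
    WS b S p a h s = 2 * Real.pi * p (.inl h) - a h := by
  unfold WS
  rw [if_pos hS, if_neg (fun h0 => hi (A.both_ring.1 h0).1), A.rg, if_neg hi]

theorem WS_ring (A : Adj h i s j) (hS : h ∈ S) (hi : clsW b i = .ring) (hj : clsW b j ≠ .ring) :
    WS b S p a h s = a h := by
  unfold WS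
  rw [if_pos hS, if_neg (fun h0 => hj (A.both_ring.1 h0).2), A.rg, if_pos hi]

theorem WS_sum (hr : h ∈ S → RH1 b (.inl h)) : WS b S p a h 0 + WS b S p a h 2 =
    2 * Real.pi * (p (.inl h) - pN S p (.inl h)) := by
  classical
  have e : pN S p (.inl h) = if h ∈ S then 0 else p (.inl h) := rfl
  rw [e]
  by_cases hS : h ∈ S
  · rw [if_pos hS]
    have hr' := hr hS
    simp only [RH1] at hr'
    by_cases h1 : clsW b h.castSucc = .ring
    · by_cases h2 : clsW b h.succ = .ring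
      · rw [WS_rr (.l (h := h)) hS h1 h2, WS_rr (.r (h := h)) hS h2 h1]
        ring
      · rw [WS_ring (.l (h := h)) hS h1 h2, WS_dig (.r (h := h)) hS h2]
        ring
    · have h2 := hr'.resolve_left h1
      rw [WS_dig (.l (h := h)) hS h1, WS_ring (.r (h := h)) hS h2 h1]
      ring
  · rw [if_neg hS, WS_out hS, WS_out hS]
    ring

theorem sum_pen2 (W : Fin M → Fin 3 → ℝ) :
    ∑ i, (pen (fun h => W h 0) i 0 + pen (fun h => W h 2) i 2) = ∑ h, (W h 0 + W h 2) := by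
  rw [Finset.sum_add_distrib, Finset.sum_add_distrib]
  congr 1
  · rw [Fin.sum_univ_succ]
    have : pen (fun h => W h 0) 0 0 = 0 := rfl
    rw [this, zero_add]
    exact Finset.sum_congr rfl fun h _ => pen_adj _ .r
  · rw [Fin.sum_univ_castSucc]
    have : pen (fun h => W h 2) (Fin.last M) 2 = 0 := by
      unfold pen
      rw [if_neg (by decide)]
      exact Fin.lastCases_last ..
    rw [this, add_zero]
    exact Finset.sum_congr rfl fun h _ => pen_adj _ .l

/-! ### the selection -/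

/-- a run of hinges with targets -/
structure Sel (b : Fin (M + 1) → ℤ) (zs z : DD (tyW b) ⊕ ZZ (tyW b) → ℂ) (p : DD (tyW b) → ℝ)
    (S : Finset (Fin M)) (c a : Fin M → ℝ) : Prop where
  pn : ∀ h ∈ S, p (.inl h) ≠ 0
  rh : ∀ h ∈ S, RH1 b (.inl h)
  c0 : ∀ h ∈ S, 0 ≤ c h ∧ c h ≤ wXM b h
  rr : ∀ h ∈ S, ∀ i s j, Adj h i s j → clsW b i = .ring → clsW b j = .ring → c h = 17 / 100
  dd : ∀ h ∈ S, ∀ i s j, Adj h i s j → clsW b i ≠ .ring → clsW b j = .ring →
    ∃ θ, ZD.Tgt θ (c h) (Th b zs h i * trh b h (c h)) ∧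
      a h = fR (Ow b z j s.rev) (Ow b z j 1) - ZD.gR θ (c h) (Th b zs h i * trh b h (c h)) -
        ZD.bR (Ow b z j 1).re (Ow b z j 1).im ∧
      0 < (OV b i (Function.update (Ow b z i) s (tgo b zs h i (c h))) - OV b i (Ow b z i)) +
        (2 * Real.pi * p (.inl h) - a h)
  run1 : ∀ h i s j, h ∈ S → Adj h i s j → clsW b i = .ring →
    ∀ h' s' j', p (.inl h') ≠ 0 → Adj h' i s' j' → h' ∈ S
  run2 : ∀ h i s j, h ∈ S → Adj h i s j → clsW b i ≠ .ring →
    ∀ h' s' j', h' ∈ S → Adj h' i s' j' → s = s'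

/-- the ring variable -/
theorem MM.ringvar (hb : ClassW b) (L : LocA b zs) (hN : NbT b R nb) (hM : MM b zs R nb z p)
    (v : ZZ (tyW b)) (hnt : ¬ Tch b R v.1) : Sum.inr v ∉ nb ∧
    ∃ σ : ℝ, |σ| ≤ 1 / 2 ∧ Ow b z v.1 1 = ⟨σ, (zs (.inr v)).im * LT.th σ⟩ ∧
      ofs (b v.1) (z (.inr v)).re = σ := by
  have hv : Sum.inr v ∉ nb := by
    intro hv
    obtain ⟨m, hm, q, hq⟩ := hN.conv_ring hv
    exact hnt (cf_inr hq ▸ hm)
  refine ⟨hv, ?_⟩
  obtain ⟨σ, hσ, eσ⟩ := hM.adm.onZ v hv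
  refine ⟨ofs (b v.1) σ, by rw [abs_ofs]; exact hσ, ?_, ?_⟩
  · rw [Ow_ring, eσ, ofz_zt2]
  · rw [eσ, zt_eq]
    simp

theorem nz_form {σ ρ : ℝ} (hσ : |σ| ≤ 1 / 2) :
    ∃ τ : ℝ, |τ| ≤ 1 / 2 ∧ ZD.nz σ ρ = ⟨τ, ρ * LT.th τ⟩ := by
  unfold ZD.nz
  split_ifs with h1 h2
  · refine ⟨-(11 / 40), by norm_num [abs_le], ?_⟩
    unfold zM
    have : LT.th (-(11 / 40)) = 9 / 10 := by
      rw [th_of_ge (by norm_num)]
      norm_num
    rw [this]
    congr 1
    ring
  · refine ⟨-σ, by rwa [abs_neg], ?_⟩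
    rw [th_neg]
  · exact ⟨σ, hσ, rfl⟩

/-- the new point is admissible -/
theorem Sel.mv (K : Sel b zs z p S c a) (hb : ClassW b) (L : LocA b zs) (hN : NbT b R nb)
    (hM : MM b zs R nb z p) : Mv b zs nb z p (zN b zs z S c) (pN S p) := by
  classical
  refine ⟨fun v hv => ?_⟩
  rcases v with (h | m) | w
  · have e1 : zN b zs z S c (.inl (.inl h)) = if h ∈ S then tg b zs h (c h) else z (.inl (.inl h)) :=
      rfl
    have e2 : pe (pN S p) (.inl (.inl h)) = if h ∈ S then 0 else p (.inl h) := rfl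
    have e3 : pe p (.inl (.inl h)) = p (.inl h) := rfl
    rw [e1, e2, e3] at hv
    rw [e1, e2]
    by_cases hS : h ∈ S
    · rw [if_pos hS, if_pos hS]
      exact ⟨pen_nn hM (K.pn h hS), onP_tg (K.c0 h hS).1 (K.c0 h hS).2⟩
    · rw [if_neg hS, if_neg hS] at hv
      rcases hv with h0 | h0 <;> exact absurd rfl h0
  · rcases hv with h0 | h0 <;> exact absurd rfl h0
  · have e1 : zN b zs z S c (.inr w) = if TcS S w.1 then
      ofz (b w.1) (ZD.nz (ofs (b w.1) (z (.inr w)).re) (zs (.inr w)).im) else z (.inr w) := rfl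
    have e2 : pe (pN S p) (.inr w) = 0 := rfl
    have e3 : pe p (.inr w) = 0 := rfl
    rw [e1, e2, e3] at hv
    rw [e1]
    by_cases hT : TcS S w.1
    · rw [if_pos hT]
      have hnt : ¬ Tch b R w.1 := by
        obtain ⟨h, hS, s, j, A⟩ := hT
        exact hN.not_tch A (pen_nn hM (K.pn h hS))
      obtain ⟨hn, σ, hσ, -, e⟩ := hM.ringvar hb L hN w hnt
      refine ⟨hn, ?_⟩
      rw [e]
      obtain ⟨τ, hτ, eτ⟩ := nz_form (ρ := (zs (.inr w)).im) hσ
      refine ⟨ofs (b w.1) τ, by rw [abs_ofs]; exact hτ, ?_⟩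
      have e5 := ofz_zt2 (b w.1) (zs (.inr w)).im (ofs (b w.1) τ)
      rw [ofs_ofs] at e5
      rw [eτ, ← e5, ofz_ofz]
    · rw [if_neg hT] at hv
      rcases hv with h0 | h0 <;> exact absurd rfl h0

end SR

end Pool.Agent.Work.MP_b30479_gt.G2
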