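import Pool.Agent.Work.MP_b30479_gt.G2.ZDj
import Pool.Agent.Work.MP_b30479_gt.G2.WMMF
import Pool.Agent.Work.MP_b30479_gt.G2.ZDh
import Pool.Agent.Work.MP_b30479_gt.G2.ZDi

/-!
# No modes at the hinges of rings: the sum over the regions
-/

namespace Pool.Agent.Work.MP_b30479_gt.G2

open Finset NumU

namespace SR

variable {M : ℕ} {b : Fin (M + 1) → ℤ} {zs : DD (tyW b) ⊕ ZZ (tyW b) → ℂ}
variable {R : Finset (DD (tyW b))} {nb : Finset (DD (tyW b) ⊕ ZZ (tyW b))}
variable {z : DD (tyW b) ⊕ ZZ (tyW b) → ℂ} {p : DD (tyW b) → ℝ}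
variable {h h' : Fin M} {i j j' : Fin (M + 1)} {s s' q : Fin 3}
variable {S : Finset (Fin M)} {c a : Fin M → ℝ}

/-- one slot of a touched ring -/
theorem Sel.slot (K : Sel b zs z p S c a) (hb : ClassW b) (L : LocA b zs) (hN : NbT b R nb)
    (hM : MM b zs R nb z p) (hi : clsW b i = .ring) (hT : TcS S i) (hq : q = 0 ∨ q = 2) {σ η : ℝ}
    (hζ : Ow b z i 1 = ⟨σ, η⟩) :
    ∃ g, ZD.ZSl g (Ow b z i q) (Ow b (zN b zs z S c) i q) (pen (fun h => WS b S p a h q) i q) σ η ∧
      ((∃ h ∈ S, ∃ j, Adj h i q j) → g = .rr ∨ g = .dd) ∧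
      ((∃ h ∈ S, ∃ j, Adj h i q j ∧ clsW b j = .ring) → g = .rr) := by
  obtain ⟨h0, hS0, s0, j0, A0⟩ := hT
  have hn0 := pen_nn hM (K.pn h0 hS0)
  rcases slot_cases b i hq with ⟨e0, hn⟩ | ⟨h, j, A⟩
  · refine ⟨.md, ?_, ?_, ?_⟩
    · rw [e0, e0, pen_none _ hq hn]
      refine ⟨fun _ => ⟨rfl, rfl, ?_⟩, fun h0 => absurd h0 (by decide),
        fun h0 => absurd h0 (by decide), fun h0 => absurd h0 (by decide)⟩
      norm_num
    · rintro ⟨h, -, j, A⟩
      exact absurd ⟨h, j, A⟩ hn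
    · rintro ⟨h, -, j, A, -⟩
      exact absurd ⟨h, j, A⟩ hn
  rw [pen_adj _ A]
  by_cases hp : p (.inl h) = 0
  · have hS : h ∉ S := fun hS => K.pn h hS hp
    rw [zN_out A hS]
    have e : WS b S p a h q = 0 := WS_out hS q
    rw [e]
    have hnR := hN.nR A0 hn0 A
    have no : ∀ {g : ZD.ZK}, (∃ h ∈ S, ∃ j, Adj h i q j) → g = .rr ∨ g = .dd := by
      rintro g ⟨h', hS', j', A'⟩
      rw [← (A.eq_of A').1] at hS'
      exact absurd hS' hS
    have no' : ∀ {g : ZD.ZK}, (∃ h ∈ S, ∃ j, Adj h i q j ∧ clsW b j = .ring) → g = .rr := by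
      rintro g ⟨h', hS', j', A', -⟩
      rw [← (A.eq_of A').1] at hS'
      exact absurd hS' hS
    by_cases hj : clsW b j = .ring
    · exact ⟨.mr, mr_slot hb L hN.ok.1 hM A hi hj hnR hp σ η, no, no'⟩
    · have := md_slot hb L hN.ok.1 hM A.symm hj hi hnR hp σ η
      rw [Fin.rev_rev] at this
      exact ⟨.md, this, no, no'⟩
  · have hS : h ∈ S := K.run1 h0 i s0 j0 hS0 A0 hi h q j hp A
    rw [zN_in A hS]
    show ∃ g, ZD.ZSl g _ _ (WS b S p a h q) σ η ∧ _
    by_cases hj : clsW b j = .ring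
    · rw [WS_rr A hS hi hj, K.rr h hS i q j A hi hj]
      exact ⟨.rr, rr_slot hb L hN.ok.1 hM A hi hj hp σ η, fun _ => Or.inl rfl, fun _ => rfl⟩
    · rw [WS_ring A hS hi hj]
      obtain ⟨θ, d1, d2, -⟩ := K.dd h hS j q.rev i A.symm hj hi
      rw [Fin.rev_rev, hζ] at d2
      refine ⟨.dd, ⟨fun h0 => absurd h0 (by decide), fun h0 => absurd h0 (by decide),
        fun h0 => absurd h0 (by decide), fun _ => ⟨θ, _, _, d1, ?_, d2⟩⟩, fun _ => Or.inr rfl, ?_⟩
      · unfold tgo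
        rw [Th_opp hb A.symm hj, neg_mul]
      · rintro ⟨h', -, j', A', hj'⟩
        rw [← (A.eq_of A').2] at hj'
        exact absurd hj' hj

/-- a touched ring -/
theorem Sel.ring (K : Sel b zs z p S c a) (E : ZD.RowsE) (hb : ClassW b) (L : LocA b zs)
    (hN : NbT b R nb) (hM : MM b zs R nb z p) (v : ZZ (tyW b)) (hT : TcS S v.1) :
    0 ≤ (OV b v.1 (Ow b (zN b zs z S c) v.1) - OV b v.1 (Ow b z v.1)) +
        (pen (fun h => WS b S p a h 0) v.1 0 + pen (fun h => WS b S p a h 2) v.1 2) ∧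
      ((∃ h ∈ S, ∃ s j, Adj h v.1 s j ∧ clsW b j = .ring) →
        0 < (OV b v.1 (Ow b (zN b zs z S c) v.1) - OV b v.1 (Ow b z v.1)) +
          (pen (fun h => WS b S p a h 0) v.1 0 + pen (fun h => WS b S p a h 2) v.1 2)) := by
  have hi := ring_cls hb v
  have hnt : ¬ Tch b R v.1 := by
    obtain ⟨h, hS, s, j, A⟩ := hT
    exact hN.not_tch A (pen_nn hM (K.pn h hS))
  obtain ⟨-, σ, hσ, hζ, e⟩ := hM.ringvar hb L hN v hnt
  have hn : (4 : ℝ) ≤ ((b v.1).natAbs : ℝ) := by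
    have := ring_four hb (tyW_ring v.2)
    exact_mod_cast this
  have hρ0 := (L.L.rpos v).le
  have hρ1 := L.L.ring_height hb v
  obtain ⟨g0, s0, a0, b0⟩ := K.slot hb L hN hM hi hT (q := 0) (Or.inl rfl) hζ
  obtain ⟨g2, s2, a2, b2⟩ := K.slot hb L hN hM hi hT (q := 2) (Or.inr rfl) hζ
  have hg : (g0 = .rr ∨ g0 = .dd) ∨ g2 = .rr ∨ g2 = .dd := by
    obtain ⟨h, hS, s, j, A⟩ := hT
    rcases A.slot with rfl | rfl
    · exact Or.inl (a0 ⟨h, hS, j, A⟩)
    · exact Or.inr (a2 ⟨h, hS, j, A⟩)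
  have en : Ow b (zN b zs z S c) v.1 1 = ZD.nz σ (zs (.inr v)).im := by
    classical
    have e1 : zN b zs z S c (.inr v) = if TcS S v.1 then
      ofz (b v.1) (ZD.nz (ofs (b v.1) (z (.inr v)).re) (zs (.inr v)).im) else z (.inr v) := rfl
    rw [Ow_ring, e1, if_pos hT, ofz_ofz, e]
  have key := ZD.ring_ok E s0 s2 hn hρ0 hρ1 hσ hg
  rw [OV_ring hb hi (Ow_endOk z _), OV_ring hb hi (Ow_endOk _ _), en, hζ]
  refine ⟨by linarith only [key, key.1], ?_⟩
  rintro ⟨h, hS, s, j, A, hj⟩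
  have : g0 = .rr ∨ g2 = .rr := by
    rcases A.slot with rfl | rfl
    · exact Or.inl (b0 ⟨h, hS, j, A, hj⟩)
    · exact Or.inr (b2 ⟨h, hS, j, A, hj⟩)
  linarith only [key, this, key.2 this]

/-- a touched region which is no ring -/
theorem Sel.digit (K : Sel b zs z p S c a) (hb : ClassW b) (hi : clsW b i ≠ .ring)
    (hT : TcS S i) :
    0 < (OV b i (Ow b (zN b zs z S c) i) - OV b i (Ow b z i)) +
        (pen (fun h => WS b S p a h 0) i 0 + pen (fun h => WS b S p a h 2) i 2) := by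
  obtain ⟨h, hS, s, j, A⟩ := hT
  have hj : clsW b j = .ring := by
    have hr := K.rh h hS
    simp only [RH1] at hr
    cases A
    · exact hr.resolve_left hi
    · exact hr.resolve_right hi
  obtain ⟨θ, -, -, d3⟩ := K.dd h hS i s j A hi hj
  have hu := K.run2 h i s j hS A hi
  have zero : ∀ q : Fin 3, q = 0 ∨ q = 2 → q ≠ s → pen (fun h => WS b S p a h q) i q = 0 := by
    intro q hq hqs
    rcases slot_cases b i hq with ⟨-, hn⟩ | ⟨h', j', A'⟩
    · exact pen_none _ hq hn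
    · rw [pen_adj _ A']
      exact WS_out (fun hS' => hqs (hu h' q j' hS' A').symm) q
  have one : pen (fun h => WS b S p a h s) i s = 2 * Real.pi * p (.inl h) - a h := by
    rw [pen_adj _ A]
    exact WS_dig A hS hi
  rw [zN_digit hb hi A hS hu]
  rcases A.slot with h0 | h0
  · subst h0
    rw [one, zero 2 (Or.inr rfl) (by decide)]
    linarith only [d3]
  · subst h0
    rw [one, zero 0 (Or.inl rfl) (by decide)]
    linarith only [d3]

/-- **No selection exists.** -/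
theorem Sel.false (K : Sel b zs z p S c a) (hne : S.Nonempty) (E : ZD.RowsE) (hb : ClassW b)
    (L : LocA b zs) (hN : NbT b R nb) (hM : MM b zs R nb z p) : False := by
  classical
  have key := hM.step hb hN.ok.1 (K.mv hb L hN hM) univ (fun i hi => absurd (mem_univ i) hi)
  have e1 : 2 * Real.pi * ∑ i, (pN S p i - p i) = -∑ h, (WS b S p a h 0 + WS b S p a h 2) := by
    rw [Fintype.sum_sum_type]
    have e0 : ∑ m : {i : Fin (M + 1) // (tyW b i).isMid = true},
        (pN S p (.inr m) - p (.inr m)) = 0 := by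
      refine Finset.sum_eq_zero fun m _ => ?_
      show p (.inr m) - p (.inr m) = 0
      exact sub_self _
    rw [e0, add_zero, Finset.mul_sum, ← Finset.sum_neg_distrib]
    refine Finset.sum_congr rfl fun h _ => ?_
    rw [WS_sum (K.rh h)]
    ring
  rw [e1, ← sum_pen2] at key
  have hsum : ∑ i, ((OV b i (Ow b (zN b zs z S c) i) - OV b i (Ow b z i)) +
        (pen (fun h => WS b S p a h 0) i 0 + pen (fun h => WS b S p a h 2) i 2)) ≤ 0 := by
    rw [Finset.sum_add_distrib]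
    linarith only [key]
  have hnn : ∀ i ∈ (univ : Finset (Fin (M + 1))), 0 ≤ (OV b i (Ow b (zN b zs z S c) i) -
      OV b i (Ow b z i)) + (pen (fun h => WS b S p a h 0) i 0 +
      pen (fun h => WS b S p a h 2) i 2) := by
    intro i _
    by_cases hT : TcS S i
    · by_cases hi : clsW b i = .ring
      · obtain ⟨v, rfl⟩ : ∃ v : ZZ (tyW b), v.1 = i :=
          ⟨⟨i, by rw [tyW_of_ring hb hi]; rfl⟩, rfl⟩
        exact (K.ring E hb L hN hM v hT).1
      · exact (K.digit hb hi hT).le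
    · have zero : ∀ q : Fin 3, q = 0 ∨ q = 2 → pen (fun h => WS b S p a h q) i q = 0 := by
        intro q hq
        rcases slot_cases b i hq with ⟨-, hn⟩ | ⟨h', j', A'⟩
        · exact pen_none _ hq hn
        · rw [pen_adj _ A']
          exact WS_out (fun hS' => hT ⟨h', hS', q, j', A'⟩) q
      rw [zN_untouched hT, zero 0 (Or.inl rfl), zero 2 (Or.inr rfl)]
      linarith only []
  have hpos : ∃ i ∈ (univ : Finset (Fin (M + 1))), 0 < (OV b i (Ow b (zN b zs z S c) i) -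
      OV b i (Ow b z i)) + (pen (fun h => WS b S p a h 0) i 0 +
      pen (fun h => WS b S p a h 2) i 2) := by
    obtain ⟨h, hS⟩ := hne
    by_cases h1 : clsW b h.castSucc = .ring
    · by_cases h2 : clsW b h.succ = .ring
      · refine ⟨h.castSucc, mem_univ _, ?_⟩
        obtain ⟨v, hv⟩ : ∃ v : ZZ (tyW b), v.1 = h.castSucc :=
          ⟨⟨h.castSucc, by rw [tyW_of_ring hb h1]; rfl⟩, rfl⟩
        have hT : TcS S h.castSucc := ⟨h, hS, _, _, .l⟩
        rw [← hv] at hT ⊢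
        exact (K.ring E hb L hN hM v hT).2 ⟨h, hS, 2, h.succ, hv ▸ Adj.l, h2⟩
      · exact ⟨h.succ, mem_univ _, K.digit hb h2 ⟨h, hS, _, _, .r⟩⟩
    · exact ⟨h.castSucc, mem_univ _, K.digit hb h1 ⟨h, hS, _, _, .l⟩⟩
  exact absurd (Finset.sum_pos' hnn hpos) (not_lt.2 hsum)

/-- **No modes at the hinges of rings.** -/
theorem ring_modes (Z : ZD.ZRows) (C2 : ZC2r) (N : ZD.RowsN) (hb : ClassW b) (L : LocA b zs)
    (hN : NbT b R nb) (hM : MM b zs R nb z p) (h : Fin M) (hr : RH1 b (.inl h)) :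
    p (.inl h) = 0 := by
  classical
  by_contra hp
  obtain ⟨S, hSF, hSn, run1, run2⟩ := exists_run
    (univ.filter fun h : Fin M => RH1 b (.inl h) ∧ p (.inl h) ≠ 0) (fun i => clsW b i = .ring)
    ⟨h, by rw [mem_filter]; exact ⟨mem_univ _, hr, hp⟩⟩
  have hS : ∀ h ∈ S, RH1 b (.inl h) ∧ p (.inl h) ≠ 0 := fun h h0 => by
    have := hSF h0
    rw [mem_filter] at this
    exact this.2
  have one : ∀ h ∈ S, ∀ i s j, Adj h i s j → clsW b i ≠ .ring → clsW b j = .ring →
      DOk b zs z p h i s j (Ow b z j 1).re (Ow b z j 1).im := by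
    intro h h0 i s j A hi hj
    obtain ⟨v, rfl⟩ : ∃ v : ZZ (tyW b), v.1 = j := ⟨⟨j, by rw [tyW_of_ring hb hj]; rfl⟩, rfl⟩
    have hnt : ¬ Tch b R v.1 := hN.not_tch A.symm (pen_nn hM (hS h h0).2)
    obtain ⟨-, σ, hσ, hζ, -⟩ := hM.ringvar hb L hN v hnt
    have hth := th_nonneg hσ
    have hρ0 := (L.L.rpos v).le
    have hρ1 := L.L.ring_height hb v
    have := dside Z C2 N hb L hN hM A hi hj (hS h h0).2 hζ hσ (mul_nonneg hρ0 hth)
      (mul_le_mul_of_nonneg_right hρ1 hth)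
    rw [hζ]
    exact this
  have hch : ∀ h : Fin M, ∃ c a : ℝ, h ∈ S → ((0 ≤ c ∧ c ≤ wXM b h) ∧
      (∀ i s j, Adj h i s j → clsW b i = .ring → clsW b j = .ring → c = 17 / 100) ∧
      ∀ i s j, Adj h i s j → clsW b i ≠ .ring → clsW b j = .ring →
      ∃ θ, ZD.Tgt θ c (Th b zs h i * trh b h c) ∧
        a = fR (Ow b z j s.rev) (Ow b z j 1) - ZD.gR θ c (Th b zs h i * trh b h c) -
          ZD.bR (Ow b z j 1).re (Ow b z j 1).im ∧
        0 < (OV b i (Function.update (Ow b z i) s (tgo b zs h i c)) - OV b i (Ow b z i)) +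
          (2 * Real.pi * p (.inl h) - a)) := by
    intro h
    by_cases h0 : h ∈ S
    swap
    · exact ⟨0, 0, fun h1 => absurd h1 h0⟩
    have hr := (hS h h0).1
    simp only [RH1] at hr
    have mk : ∀ i s j, Adj h i s j → clsW b i ≠ .ring → clsW b j = .ring →
        ∃ c a : ℝ, h ∈ S → ((0 ≤ c ∧ c ≤ wXM b h) ∧
        (∀ i s j, Adj h i s j → clsW b i = .ring → clsW b j = .ring → c = 17 / 100) ∧
        ∀ i s j, Adj h i s j → clsW b i ≠ .ring → clsW b j = .ring →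
        ∃ θ, ZD.Tgt θ c (Th b zs h i * trh b h c) ∧
          a = fR (Ow b z j s.rev) (Ow b z j 1) - ZD.gR θ c (Th b zs h i * trh b h c) -
            ZD.bR (Ow b z j 1).re (Ow b z j 1).im ∧
          0 < (OV b i (Function.update (Ow b z i) s (tgo b zs h i c)) - OV b i (Ow b z i)) +
            (2 * Real.pi * p (.inl h) - a)) := by
      intro i s j A hi hj
      obtain ⟨c, θ, c0, c1, hT, hlt⟩ := one h h0 i s j A hi hj
      refine ⟨c, fR (Ow b z j s.rev) (Ow b z j 1) - ZD.gR θ c (Th b zs h i * trh b h c) -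
            ZD.bR (Ow b z j 1).re (Ow b z j 1).im, fun _ => ⟨⟨c0, c1⟩, ?_, ?_⟩⟩
      · intro i' s' j' A' hi' hj'
        have h1 := A.both_ring.1 (A'.both_ring.2 ⟨hi', hj'⟩)
        exact absurd h1.1 hi
      · intro i' s' j' A' hi' hj'
        have hij : i' = i ∧ s' = s ∧ j' = j := by
          cases A
          · cases A'
            · exact ⟨rfl, rfl, rfl⟩
            · exact absurd hj hi'
          · cases A'
            · exact absurd hj hi'
            · exact ⟨rfl, rfl, rfl⟩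
        obtain ⟨rfl, rfl, rfl⟩ := hij
        refine ⟨θ, hT, rfl, ?_⟩
        have e : (⟨(Ow b z j' 1).re, (Ow b z j' 1).im⟩ : ℂ) = Ow b z j' 1 := rfl
        rw [e] at hlt
        linarith only [hlt]
    by_cases h1 : clsW b h.castSucc = .ring
    · by_cases h2 : clsW b h.succ = .ring
      · refine ⟨17 / 100, 0, fun _ => ⟨⟨by norm_num, ?_⟩, fun _ _ _ _ _ _ => rfl, ?_⟩⟩
        · rw [((Adj.l (h := h)).par_rr h1 h2).1]
          norm_num
        · intro i s j A hi _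
          exact absurd (A.both_ring.1 ⟨h1, h2⟩).1 hi
      · exact mk _ _ _ .r h2 h1
    · exact mk _ _ _ .l h1 (hr.resolve_left h1)
  choose c a hca using hch
  have K : Sel b zs z p S c a := by
    refine ⟨fun h h0 => (hS h h0).2, fun h h0 => (hS h h0).1, fun h h0 => (hca h h0).1,
      fun h h0 => (hca h h0).2.1, fun h h0 => (hca h h0).2.2, ?_, run2⟩
    intro h i s j h0 A hi h' s' j' hp' A'
    refine run1 h i s j h0 A hi h' s' j' ?_ A'
    rw [mem_filter]
    exact ⟨mem_univ _, A'.symm.rh1 hi, hp'⟩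
  exact K.false hSn Z.E hb L hN hM

end SR

end Pool.Agent.Work.MP_b30479_gt.G2
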