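import Pool.Agent.Work.NumU.GenL
import Pool.Agent.Work.MP_b30479_gt.G2.ZRows2

/-!
# `RowsN.nR`: expressions
-/

namespace Pool.Agent.Work.MP_b30479_gt.G2

open NumU (uu UU_uu)
open NumL (E)
open NumL.E (mn mx ab mn_val mx_val ab_val)

namespace ZD

namespace ZN

def x : E := .var 0
def half : E := .q 1 2
/-- fR -/
def fRE (x y s e : E) : E :=
  .sub (.add (.uw (.add (.add x half) s) (.add y e)) (.uw (.sub (.add x half) s) (.sub y e)))
    (.mul (.q 2 1) (.uw x y))
def thE (s : E) : E := mn (.q 1 1) (.sub (.q 2 1) (.mul (.q 4 1) (ab s)))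
def dNE (x : E) : E := .add (.q 15 1000) (.add (.relu (.sub (.q 15 100) (.mul (.q 19 10) x))) (.mul (.q 84 100) (.relu (.sub x (.q 3 10)))))
def cNE (x : E) : E := .add (.q 45 1000) (.mul (.q 1 48) x)
/-- nB with t -/
def nBE (x t s e : E) : E :=
  .add (.add (.q 2254 10000) (.mul (.mul (.mul (.q 2 1) .pi) e) (.relu s)))
    (.sub (.mul .pi (.mul (.q 16 100) t)) (fRE x (.neg (.mul (.q 16 100) t)) s e))
def F1 (x t s e : E) : E := .sub (nBE x t s e) (dNE x)
def F2 (x t s e : E) : E :=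
  .add (.mul (.add x (.q 15 100))
    (.add (.sub (fRE x (.q 0 1) s e) (fRE x (.neg (.mul (.q 16 100) t)) s e))
      (.mul t (.sub (.mul (.q 16 100) (.sub .pi (cNE x))) (.mul (.q 105 100000) .pi)))))
   (.mul (.mul (.mul (.q 16 100) t) (.sub (.q 1825 1000) (.mul (.q 5 2) x))) (nBE x t s e))
def tR (x : E) : E := mn (.q 1 1) (.mul (.q 10 3) (.sub (.q 6 10) x))
def tL (a : Nat) (x : E) : E := mn (.q 1 1) (.mul (.q 100 a) x)
def et : E := .mul (.var 2) (thE (.var 1))


/-- v1 -/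
def v1E (x : E) : E := .mul (.q 8 15) (.sub (.q 6 10) x)
/-- nB at v -/
def nVE (x w s e : E) : E :=
  .add (.add (.q 2254 10000) (.mul (.mul (.mul (.q 2 1) .pi) e) (.relu s)))
    (.sub (.mul .pi w) (fRE x (.neg w) s e))
def HpE (x w s e d : E) : E :=
  .add (.mul (.add x (.q 15 100)) (.sub d (.add (cNE x) (.mul (.q 7 1600) (.mul (.q 13 10) .pi)))))
    (.mul (.sub (.q 1825 1000) (.mul (.q 5 2) x)) (.add (nVE x w s e) (.mul w d)))
/-- F1 with v1 instead of 16/100 t -/
def F1v (x s e : E) : E := .sub (nVE x (v1E x) s e) (.add (.q 15 1000) (.mul (.q 84 100) (.sub x (.q 3 10))))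
def a1E (x s : E) : E := .add (.add x half) s
def a2E (x s : E) : E := .sub (.sub x half) s
def dA (x w s e : E) : E :=
  .sub (.sub (.lnB (a2E x s) (.add e w)) (.lnB (a1E x s) (.sub e w))) (.mul (.q 2 1) (.lnB x w))
def dD (x w s e : E) : E :=
  .sub (.add (.lnB (mx (a2E x s) (.q 5 100)) (.add e w)) (.lnB (mx (.sub (.q 1 1) (a1E x s)) (.q 3 100)) (.sub e w))) (.mul (.q 2 1) (.lnB x w))
def dE (x w s e : E) : E :=
  .sub (.add (.lnB (.sub (a1E x s) (.q 1 1)) (.sub w e)) (.lnB (.sub (.add x half) s) (.add e w))) (.mul (.q 2 1) (.lnB x w))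
def rowA : List E :=
  let w := .mul (v1E x) (.var 1)
  let s := .var 2
  let e := .mul (.var 3) (thE s)
  [HpE x w s e (dA x w s e)]
def rowB1 : List E :=
  let w := .mul (v1E x) (.var 1)
  let s := .sub (.sub (.var 2) x) half
  let e := .mul (v1E x) (.var 3)
  [HpE x w s e (dA x w s e), F1v x s e]
def rowB2 : List E :=
  let w := .mul (v1E x) (.var 1)
  let s := .sub (.sub (.var 2) x) half
  let e := .add (v1E x) (.mul (.sub (.q 1045 10000) (v1E x)) (.var 3))
  [HpE x w s e (dD x w s e), F1v x s e]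
def rowD1 : List E :=
  let s := .sub (.sub (.var 2) x) half
  let e := .mul (v1E x) (.var 3)
  [F1v x s e]
def rowD2 : List E :=
  let s := .var 2
  let e := .mul (v1E x) (.var 3)
  let w := .mul (v1E x) (.add (.var 3) (.mul (.sub (.q 1 1) (.var 3)) (.var 1)))
  [HpE x w s e (dE x w s e), F1v x s e]


def rowI : List E := [F2 x (tR x) (.var 1) et, F1 x (tR x) (.var 1) et]
def rowL (a : ℕ) : List E := [F2 x (tL a x) (.var 1) et, F1 x (tL a x) (.var 1) et]
def rowG : List E := [.sub (.add (.uw (.q 425 1000) (.var 0)) (.uw (.q 975 1000) (.var 0)))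
  (.add (.mul (.q 2 1) (.uw (.q 2 10) (.var 0))) (.q 3374 10000))]

def rowU : List E := [.sub (.q 1618 10000) (.uw (.var 0) (.q 0 1))]

/-! ### values -/

theorem fR_uu (x y σ η : ℝ) : fR ⟨x, y⟩ ⟨σ, η⟩ =
    uu (x + 1 / 2 + σ) (y + η) + uu (x + 1 / 2 - σ) (y - η) - 2 * uu x y := by
  have e1 : (⟨x, y⟩ : ℂ) + 1 / 2 + ⟨σ, η⟩ = ⟨x + 1 / 2 + σ, y + η⟩ := by
    apply Complex.ext <;> simp
  have e2 : (⟨x, y⟩ : ℂ) + 1 / 2 - ⟨σ, η⟩ = ⟨x + 1 / 2 - σ, y - η⟩ := by
    apply Complex.ext <;> simp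
  unfold fR
  rw [e1, e2, UU_uu, UU_uu, UU_uu]

variable (xs : List ℝ)

theorem fRE_val (x y s e : E) :
    (fRE x y s e).val xs = fR ⟨x.val xs, y.val xs⟩ ⟨s.val xs, e.val xs⟩ := by
  rw [fR_uu]
  simp only [fRE, half, E.val]
  push_cast
  ring

theorem thE_val (s : E) : (thE s).val xs = LT.th (s.val xs) := by
  simp only [thE, mn_val, E.val, ab_val, LT.th]
  norm_num

theorem dNE_val (x : E) : (dNE x).val xs = dN (x.val xs) := by
  simp only [dNE, E.val, dN]
  norm_num
  ring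

theorem cNE_val (x : E) : (cNE x).val xs = cN (x.val xs) := by
  simp only [cNE, E.val, cN]
  norm_num
  ring

/-- lower bound of the function `nBR` -/
noncomputable def nB0 (x v σ η : ℝ) : ℝ :=
  2254 / 10000 + bR σ η + (Real.pi * v - fR ⟨x, -v⟩ ⟨σ, η⟩)

/-- lower bound of the second function of `nR`, times `x + 15/100` -/
noncomputable def HH (x v κ σ η : ℝ) : ℝ :=
  (x + 15 / 100) * ((fR ⟨x, 0⟩ ⟨σ, η⟩ - fR ⟨x, -v⟩ ⟨σ, η⟩) + v * (Real.pi - cN x - 7 / 1600 * κ)) +
    (1825 / 1000 - 5 / 2 * x) * v * nB0 x v σ η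

/-- its derivative in `v`; `d`: `π` minus the derivative of `fR` -/
noncomputable def Hp (x v σ η d : ℝ) : ℝ :=
  (x + 15 / 100) * (d - (cN x + 7 / 1600 * (13 / 10 * Real.pi))) +
    (1825 / 1000 - 5 / 2 * x) * (nB0 x v σ η + v * d)

theorem nBE_val (x t s e : E) : (nBE x t s e).val xs =
    nB0 (x.val xs) (16 / 100 * t.val xs) (s.val xs) (e.val xs) := by
  unfold nB0 bR
  simp only [nBE, E.val, fRE_val]
  push_cast
  ring_nf

theorem nVE_val (x w s e : E) : (nVE x w s e).val xs =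
    nB0 (x.val xs) (w.val xs) (s.val xs) (e.val xs) := by
  unfold nB0 bR
  simp only [nVE, E.val, fRE_val]
  push_cast
  ring_nf

theorem F1_val (x t s e : E) : (F1 x t s e).val xs =
    nB0 (x.val xs) (16 / 100 * t.val xs) (s.val xs) (e.val xs) - dN (x.val xs) := by
  simp only [F1, E.val, nBE_val, dNE_val]

theorem F2_val (x t s e : E) : (F2 x t s e).val xs =
    HH (x.val xs) (16 / 100 * t.val xs) (3 / 2 * Real.pi) (s.val xs) (e.val xs) := by
  unfold HH
  simp only [F2, E.val, fRE_val, nBE_val, cNE_val]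
  push_cast
  rw [zero_div]
  ring

theorem HpE_val (x w s e d : E) : (HpE x w s e d).val xs =
    Hp (x.val xs) (w.val xs) (s.val xs) (e.val xs) (d.val xs) := by
  unfold Hp
  simp only [HpE, E.val, nVE_val, cNE_val]
  push_cast
  ring

theorem v1E_val (x : E) : (v1E x).val xs = 8 / 15 * (6 / 10 - x.val xs) := by
  simp only [v1E, E.val]
  norm_num

theorem F1v_val (x s e : E) : (F1v x s e).val xs =
    nB0 (x.val xs) (8 / 15 * (6 / 10 - x.val xs)) (s.val xs) (e.val xs) -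
      (15 / 1000 + 84 / 100 * (x.val xs - 3 / 10)) := by
  simp only [F1v, E.val, nVE_val, v1E_val]
  norm_num

theorem a1E_val (x s : E) : (a1E x s).val xs = x.val xs + 1 / 2 + s.val xs := by
  simp only [a1E, half, E.val]
  norm_num

theorem a2E_val (x s : E) : (a2E x s).val xs = x.val xs - 1 / 2 - s.val xs := by
  simp only [a2E, half, E.val]
  norm_num

theorem dA_val (x w s e : E) : (dA x w s e).val xs =
    NumI.lnB (x.val xs - 1 / 2 - s.val xs) (e.val xs + w.val xs) -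
      NumI.lnB (x.val xs + 1 / 2 + s.val xs) (e.val xs - w.val xs) -
      2 * NumI.lnB (x.val xs) (w.val xs) := by
  simp only [dA, E.val, a1E_val, a2E_val]
  norm_num

theorem dD_val (x w s e : E) : (dD x w s e).val xs =
    NumI.lnB (max (x.val xs - 1 / 2 - s.val xs) (5 / 100)) (e.val xs + w.val xs) +
      NumI.lnB (max (1 - (x.val xs + 1 / 2 + s.val xs)) (3 / 100)) (e.val xs - w.val xs) -
      2 * NumI.lnB (x.val xs) (w.val xs) := by
  simp only [dD, E.val, a1E_val, a2E_val, mx_val]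
  norm_num

theorem dE_val (x w s e : E) : (dE x w s e).val xs =
    NumI.lnB (x.val xs + 1 / 2 + s.val xs - 1) (w.val xs - e.val xs) +
      NumI.lnB (x.val xs + 1 / 2 - s.val xs) (e.val xs + w.val xs) -
      2 * NumI.lnB (x.val xs) (w.val xs) := by
  simp only [dE, E.val, a1E_val, half]
  norm_num

end ZN

end ZD

end Pool.Agent.Work.MP_b30479_gt.G2
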