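import Pool.Agent.Work.MP_b30479_gt.G2.ZNb1
import Pool.Agent.Work.MP_b30479_gt.G2.ZNb2
import Pool.Agent.Work.MP_b30479_gt.G2.ZNb3
import Pool.Agent.Work.MP_b30479_gt.G2.ZNb4
import Pool.Agent.Work.MP_b30479_gt.G2.ZNb5
import Pool.Agent.Work.MP_b30479_gt.G2.ZNb6
import Pool.Agent.Work.MP_b30479_gt.G2.ZNb7

/-!
# `RowsN.nR`: certificates
-/

namespace Pool.Agent.Work.MP_b30479_gt.G2

open NumL (chkF chkF4)

namespace ZD

namespace ZN

theorem cI_ex {X σ ρ : ℝ} (h0 : 13 / 100 ≤ X) (h1 : X ≤ 1 / 2) (s0 : -(1 / 2) ≤ σ)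
    (s1 : σ ≤ 1 / 2) (r0 : 0 ≤ ρ) (r1 : ρ ≤ 1045 / 10000) :
    ∃ e ∈ rowI, 0 < e.val [X, σ, ρ, 0] := by
  have key : ∀ {l0 h0 c : ℕ}, chkF rowI 10000 0 5000 0 0 40 l0 h0 0 10000 0 1045 0 0 c = true →
      0 < 10000 → ((l0 : ℝ) - (0 : ℕ)) / (10000 : ℕ) ≤ X → X ≤ ((h0 : ℝ) - (0 : ℕ)) / (10000 : ℕ) →
      ∃ e ∈ rowI, 0 < e.val [X, σ, ρ, 0] := by
    intro l0 h0 c hc hN a1 a2
    exact chkF4 hc hN a1 a2 (by norm_num; linarith only [s0]) (by norm_num; linarith only [s1])
      (by norm_num; linarith only [r0]) (by norm_num; linarith only [r1]) (by norm_num) (by norm_num)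
  rcases le_total X (2300 / 10000) with c1 | c1
  · exact key cI1 (by norm_num) (by norm_num; linarith only [h0]) (by norm_num; linarith only [c1])
  rcases le_total X (3300 / 10000) with c2 | c2
  · exact key cI2 (by norm_num) (by norm_num; linarith only [c1]) (by norm_num; linarith only [c2])
  rcases le_total X (4000 / 10000) with c3 | c3
  · exact key cI3 (by norm_num) (by norm_num; linarith only [c2]) (by norm_num; linarith only [c3])
  rcases le_total X (4400 / 10000) with c4 | c4
  · exact key cI4 (by norm_num) (by norm_num; linarith only [c3]) (by norm_num; linarith only [c4])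
  rcases le_total X (4650 / 10000) with c5 | c5
  · exact key cI5 (by norm_num) (by norm_num; linarith only [c4]) (by norm_num; linarith only [c5])
  rcases le_total X (4850 / 10000) with c6 | c6
  · exact key cI6 (by norm_num) (by norm_num; linarith only [c5]) (by norm_num; linarith only [c6])
  exact key cI7 (by norm_num) (by norm_num; linarith only [c6]) (by norm_num; linarith only [h1])

end ZN

end ZD

end Pool.Agent.Work.MP_b30479_gt.G2
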