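import Pool.Agent.Work.NumU.GenL
import Pool.Agent.Work.MP_b30479_gt.G2.ZRows2

/-!
# `RowsN`: a digit `3`, slot `0`: expressions
-/

set_option linter.unusedVariables false
set_option linter.unusedSimpArgs false

namespace Pool.Agent.Work.MP_b30479_gt.G2

open NumU (uu)
open NumL (E)
open NumL.E (mn mn_val)

namespace ZD

namespace ZL

def x : E := .var 0
def k1 : E := .var 1
def l : E := .var 2
def T : E := .var 3
def dNE (x : E) : E := .add (.q 15 1000) (.add (.relu (.sub (.q 15 100) (.mul (.q 19 10) x))) (.mul (.q 84 100) (.relu (.sub x (.q 30 100)))))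
def cNE (x : E) : E := .add (.q 45 1000) (.mul (.q 1 48) x)
/-- gD1 -/
def gD1E (x t k1 k2 : E) : E :=
  .add (.sub (.uw (.add x k1) (.add t k2)) (.uw x t))
    (.mul .pi (.sub (.add (.mul x k2) (.mul t k1)) t))
def kE (k1 l : E) : E := .mul l (mn (.q 16 100) (mn (.mul (.q 32 10) (.sub k1 (.q 20 100))) (.mul (.q 32 10) (.sub (.q 1 1) k1))))
def tR (x : E) : E := .mul (.q 10 3) (.sub (.q 60 100) x)
def tL (x : E) : E := .mul (.q 100 12) x
def nB1E (x t T k1 k2 : E) : E :=
  .add (.sub (gD1E (.q 2 10) T k1 k2) (gD1E x (.mul (.q 16 100) t) k1 k2)) (.mul .pi (.mul (.q 16 100) t))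
def nd1E (x t T k1 k2 : E) : E := .add (nB1E x t T k1 k2) (dNE x)
/-- `(x + 15/100) PN` -/
def pE (x : E) : E := .sub (.q 1825 1000) (.mul (.q 5 2) x)
/-- `(x + 15/100) nD1` -/
def nD1E (x t T k1 k2 : E) : E :=
  .sub (.add (.add (.mul (.add x (.q 15 100)) (.add (gD1E x (.mul T t) k1 k2) (.mul .pi (.mul (.q 16 100) t))))
    (.mul (.mul (.mul (.q 16 100) t) (pE x)) (.add (gD1E (.q 2 10) T k1 k2) (.mul .pi (.mul (.q 16 100) t)))))
    (.mul (.mul (.q 16 100) t) (.mul (.add x (.q 15 100)) (cNE x))))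
   (.mul (.add (.add x (.q 15 100)) (.mul (.mul (.q 16 100) t) (pE x))) (gD1E x (.mul (.q 16 100) t) k1 k2))

def d1 : List E := [nd1E x (tL x) T k1 (kE k1 l)]
def d2 : List E := [nd1E x (.q 1 1) T k1 (kE k1 l)]
def d3 : List E := [nd1E x (tR x) T k1 (kE k1 l)]
def e2 : List E := [nD1E x (tL x) T k1 (kE k1 l)]
def e3 : List E := [nD1E x (.q 1 1) T k1 (kE k1 l)]
def e4 : List E := [nD1E x (tR x) T k1 (kE k1 l)]


section

variable (x t T k1 k2 l c d : E) (xs : List ℝ)

theorem gD1E_val : (gD1E x t k1 k2).val xs =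
    gD1 (x.val xs) (t.val xs) (k1.val xs) (k2.val xs) := by
  simp only [gD1E, E.val, gD1]
  ring

theorem kE_val : (kE k1 l).val xs = l.val xs * min (16 / 100) (min (32 / 10 * (k1.val xs -
    20 / 100)) (32 / 10 * (1 - k1.val xs))) := by
  simp only [kE, E.val, mn_val]
  push_cast
  rw [div_one]

theorem tR_val : (tR x).val xs = 10 / 3 * (60 / 100 - x.val xs) := by
  simp only [tR, E.val]
  push_cast
  ring

theorem tL_val : (tL x).val xs = 100 / 12 * x.val xs := by
  simp only [tL, E.val]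
  push_cast
  ring

theorem dNE_val : (dNE x).val xs = dN (x.val xs) := by
  simp only [dNE, E.val, dN]
  push_cast
  ring

theorem cNE_val : (cNE x).val xs = cN (x.val xs) := by
  simp only [cNE, E.val, cN]
  push_cast
  ring

theorem nB1E_val : (nB1E x t T k1 k2).val xs =
    nB1 (x.val xs) (t.val xs) (T.val xs) (k1.val xs) (k2.val xs) := by
  simp only [nB1E, E.val, gD1E_val, nB1]
  push_cast
  ring

theorem nd1E_val : (nd1E x t T k1 k2).val xs =
    nB1 (x.val xs) (t.val xs) (T.val xs) (k1.val xs) (k2.val xs) + dN (x.val xs) := by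
  simp only [nd1E, E.val, nB1E_val, dNE_val]

theorem pE_val (h : 0 < x.val xs + 15 / 100) :
    (pE x).val xs = (x.val xs + 15 / 100) * PN (x.val xs) := by
  have e : (x.val xs + 15 / 100) * (22 / 10 / (x.val xs + 15 / 100)) = 22 / 10 := by
    rw [← mul_div_assoc, mul_comm, mul_div_assoc, div_self h.ne', mul_one]
  simp only [pE, E.val, PN, mul_sub, e]
  push_cast
  ring

theorem nD1E_val (h : 0 < x.val xs + 15 / 100) : (nD1E x t T k1 k2).val xs =
    (x.val xs + 15 / 100) * (nA1 (x.val xs) (t.val xs) (T.val xs) (k1.val xs) (k2.val xs) +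
      16 / 100 * t.val xs * (PN (x.val xs) *
        nB1 (x.val xs) (t.val xs) (T.val xs) (k1.val xs) (k2.val xs) + cN (x.val xs))) := by
  simp only [nD1E, E.val, gD1E_val, nA1, nB1, cNE_val, pE_val x xs h]
  push_cast
  ring

end

/-- the variables of the rows -/
theorem vals (a b c d : ℝ) : x.val [a, b, c, d] = a ∧ k1.val [a, b, c, d] = b ∧
    l.val [a, b, c, d] = c ∧ T.val [a, b, c, d] = d := by
  refine ⟨?_, ?_, ?_, ?_⟩ <;> simp only [x, k1, l, T, E.val, NumI.lkR]

/-- the height of the digit variable -/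
theorem ex_l {k1 k2 : ℝ} (h : dom3 k1 k2) : ∃ l : ℝ, -1 ≤ l ∧ l ≤ 1 ∧
      k2 = l * min (16 / 100) (min (32 / 10 * (k1 - 20 / 100)) (32 / 10 * (1 - k1))) := by
  obtain ⟨_, _, h0, h1, h2⟩ := h
  set K := min (16 / 100) (min (32 / 10 * (k1 - 20 / 100)) (32 / 10 * (1 - k1))) with hK
  have h : |k2| ≤ K := le_min h0 (le_min h1 h2)
  have h3 := abs_le.1 h
  rcases (abs_nonneg k2).trans h |>.eq_or_lt with h4 | h4
  · refine ⟨0, by norm_num, by norm_num, ?_⟩
    rw [← h4] at h
    rw [zero_mul]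
    exact abs_nonpos_iff.1 h
  · refine ⟨k2 / K, ?_, ?_, ?_⟩
    · rw [le_div_iff₀ h4]; linarith
    · rw [div_le_iff₀ h4]; linarith
    · rw [div_mul_cancel₀ _ h4.ne']

end ZL

end ZD

end Pool.Agent.Work.MP_b30479_gt.G2
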