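import Pool.Agent.Work.MP_b30479_gt.G2.ZNx
import Pool.Agent.Work.MP_b30479_gt.G2.ZConv
import Pool.Agent.Work.MP_b30479_gt.G2.ZRAt
import Pool.Agent.Work.MP_b30479_gt.G2.ZRk

/-!
# `RowsN.nD1` for `x ≤ 12/100`, `x + k1 ≤ 1`
-/

namespace Pool.Agent.Work.MP_b30479_gt.G2

open NumU (uu uu_neg uu_one_sub uu_add_one)

namespace ZD

namespace ZL

open ZA

/-- `t ↦ lnB a t` increases for `a ≤ 1/2` -/
theorem lnB_t {a p q : ℝ} (h0 : 0 < a) (h1 : a ≤ 1 / 2) (hpq : p ≤ q) :
    NumI.lnB a p ≤ NumI.lnB a q := by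
  have hp := Real.pi_pos
  unfold NumI.lnB
  rw [Real.arctan_le_arctan_iff]
  have s1 : 0 < Real.sin (Real.pi * a) :=
    Real.sin_pos_of_pos_of_lt_pi (by positivity) (by nlinarith only [hp, h1])
  have c0 : 0 ≤ Real.cos (Real.pi * a) := by
    apply Real.cos_nonneg_of_neg_pi_div_two_le_of_le <;> nlinarith only [hp, h0, h1]
  have c1 := Real.cosh_pos (Real.pi * p)
  have c2 := Real.cosh_pos (Real.pi * q)
  have h : 0 ≤ Real.sinh (Real.pi * q - Real.pi * p) :=
    Real.sinh_nonneg_iff.2 (by nlinarith only [h0, h1, hpq, hp])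
  rw [Real.sinh_sub] at h
  rw [div_le_div_iff₀ (by positivity) (by positivity)]
  have := mul_nonneg (mul_nonneg c0 s1.le) h
  nlinarith only [this]

/-- the slope increases for `1/2 ≤ a` -/
theorem slope_end {a p q : ℝ} (h0 : 1 / 2 ≤ a) (h1 : a < 1) (hpq : p ≤ q) :
    uu a q ≤ uu a p + -NumI.lnB a q * (q - p) := by
  have := mono_of (f := fun τ => uu a (τ + 0) - -NumI.lnB a q * τ)
    (f' := fun τ => -NumI.lnB a (τ + 0) - -NumI.lnB a q * 1) hpq
    ((cont_uu' continuous_const (by fun_prop)).sub (by fun_prop)).continuousOn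
    (fun y _ => (uu_t (by linarith only [h0, h1]) h1).sub ((hasDerivAt_id y).const_mul _))
    (fun y hy => by
      have h2 := lnB_t (a := 1 - a) (by linarith only [h1]) (by linarith only [h0]) (hy.2.le)
      rw [lnB_one_sub, lnB_one_sub] at h2
      simp only [add_zero]
      linarith only [h2])
  simp only [add_zero] at this
  linarith only [this]

theorem nA1_ge {x t T k1 k2 S th : ℝ}
    (h1 : uu (x + k1) (16 / 100 * t + k2) ≤
      uu (x + k1) (T * t + k2) + S * (16 / 100 * t + k2 - (T * t + k2)))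
    (h2 : uu x (T * t) ≤ uu x (16 / 100 * t) + th * (16 / 100 * t)) :
    t * ((16 / 100 - T) * (Real.pi * (1 - k1) - S) + 16 / 100 * (Real.pi - th)) ≤
      nA1 x t T k1 k2 := by
  unfold nA1 gD1
  linarith only [h1, h2]

theorem arctan_43 : Real.arctan (4 / 3) ≤ 93 / 100 := by
  have h := Real.arctan_add (x := 1) (y := 1 / 7) (by norm_num)
  rw [Real.arctan_one, show (1 + 1 / 7 : ℝ) / (1 - 1 * (1 / 7)) = 4 / 3 by norm_num] at h
  have h2 := arctan_le_id (y := 1 / 7) (by norm_num)
  have h3 := Real.pi_lt_d4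
  rw [← h]
  linarith only [h2, h3]

theorem hx_low {x t T : ℝ} (h0 : 0 < x) (h1 : x ≤ 12 / 100) (ht : t = 100 / 12 * x)
    (T0 : -(7 / 10000) ≤ T) (T1 : T ≤ 0) :
    uu x (T * t) ≤ uu x (16 / 100 * t) + 93 / 100 * (16 / 100 * t) := by
  have ht0 : 0 < t := by rw [ht]; positivity
  have h2 : |T * t| ≤ 16 / 100 * t := by
    rw [abs_mul, abs_of_nonpos T1, abs_of_pos ht0]
    exact mul_le_mul_of_nonneg_right (by linarith only [h0, h1, T0]) ht0.le
  have h3 := uu_atan (a := x) (s := |T * t|) (s' := 16 / 100 * t) (r := 4 / 3)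
    (c := 93 / 100) h0 (by linarith only [h0, h1]) (abs_nonneg _) h2 (by rw [ht]; linarith only []) arctan_43
  rw [uu_abs] at h3
  linarith only [h3, abs_nonneg (T * t)]

theorem hpi2 {x t T k1 k2 : ℝ} (h0 : 0 ≤ x + k1) (ha : x + k1 ≤ 1) (ht0 : 0 ≤ t)
    (T1 : T ≤ 0) : uu (x + k1) (16 / 100 * t + k2) ≤ uu (x + k1) (T * t + k2) +
      Real.pi / 2 * (16 / 100 * t + k2 - (T * t + k2)) := by
  have hp := Real.pi_pos
  have hTt : T * t ≤ 16 / 100 * t := mul_le_mul_of_nonneg_right (by linarith only [T1]) ht0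
  have g1 := UC.lip (x := x + k1) (a := 16 / 100 * t + k2) (b := T * t + k2) h0 ha
  have g2 := abs_abs_sub_abs_le (16 / 100 * t + k2) (T * t + k2)
  rw [abs_of_nonneg (show 0 ≤ 16 / 100 * t + k2 - (T * t + k2) by linarith only [hTt])] at g2
  have g3 := mul_le_mul_of_nonneg_left g2 (show 0 ≤ Real.pi / 2 by positivity)
  linarith only [g1, g3]

theorem of_cR {x t T k1 k2 S : ℝ} (h0 : 0 < x) (h1 : x ≤ 12 / 100) (ht : t = 100 / 12 * x)
    (T0 : -(7 / 10000) ≤ T) (T1 : T ≤ 0)
    (hS : uu (x + k1) (16 / 100 * t + k2) ≤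
      uu (x + k1) (T * t + k2) + S * (16 / 100 * t + k2 - (T * t + k2)))
    (hc : 0 < cR (93 / 100) S x t T k1 k2) :
    0 ≤ nA1 x t T k1 k2 + 16 / 100 * t * (PN x * nB1 x t T k1 k2 + cN x) := by
  have ht0 : 0 < t := by rw [ht]; positivity
  have hx := hx_low h0 h1 ht T0 T1
  have g1 := nA1_ge hS hx
  have g2 := mul_pos ht0 hc
  unfold cR at g2
  linarith only [g1, g2]

theorem row_cA {x T k1 k2 l : ℝ} (h : ∃ e ∈ cA, 0 < e.val [x, k1, l, T])
    (h0 : 0 < x) (hl : k2 = l * min (16 / 100) (min (32 / 10 * (k1 - 20 / 100))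
      (32 / 10 * (1 - k1)))) (ha : 985 / 1000 ≤ x + k1) (ha1 : x + k1 ≤ 1) :
    0 < cR (93 / 100) (Real.pi / 2) x (100 / 12 * x) T k1 k2 := by
  obtain ⟨v1, v2, v3, v4⟩ := vals x k1 l T
  have hx15 : 0 < x + 15 / 100 := by linarith only [h0]
  have hx15' : 0 < ZL.x.val [x, k1, l, T] + 15 / 100 := by rw [v1]; exact hx15
  obtain ⟨e, he, hp⟩ := h
  simp only [cA, List.mem_cons, List.not_mem_nil, or_false] at he
  rcases he with rfl | rfl | rfl
  · rw [cE_val _ _ _ _ _ _ _ _ hx15', kE_val, tL_val, v1, v2, v3, v4, ← hl] at hp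
    simp only [NumL.E.val] at hp
    push_cast at hp
    have := pos_of_mul_pos_right hp hx15.le
    rw [show Real.pi / 2 = Real.pi * (1 / 2) by ring]
    exact this
  · simp only [NumL.E.val, v1, v2] at hp
    push_cast at hp
    linarith only [ha, hp]
  · simp only [NumL.E.val, v1, v2] at hp
    push_cast at hp
    linarith only [ha1, hp]

theorem nD1_left {x t T k1 k2 : ℝ} (h0 : 0 < x) (h1 : x ≤ 12 / 100) (ht : t = 100 / 12 * x)
    (T0 : -(7 / 10000) ≤ T) (T1 : T ≤ 0) (hk : dom3 k1 k2) (ha : x + k1 ≤ 1) :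
    0 ≤ nA1 x t T k1 k2 + 16 / 100 * t * (PN x * nB1 x t T k1 k2 + cN x) := by
  have hp := Real.pi_pos
  have ht0 : 0 < t := by rw [ht]; positivity
  have hTt : T * t ≤ 16 / 100 * t := mul_le_mul_of_nonneg_right (by linarith only [h0, h1, T1]) ht0.le
  obtain ⟨l, l0, l1, hl⟩ := ex_l hk
  obtain ⟨k0, k3, _⟩ := hk
  obtain ⟨v1, v2, v3, v4⟩ := vals x k1 l T
  have hx15 : 0 < x + 15 / 100 := by linarith only [h0, h1]
  have hx15' : 0 < ZL.x.val [x, k1, l, T] + 15 / 100 := by rw [v1]; exact hx15
  have h2 := hpi2 (k2 := k2) (by linarith only [h0, h1, k0]) ha ht0.le T1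
  rcases le_total (985 / 1000) (x + k1) with hc2 | hc2
  · refine of_cR h0 h1 ht T0 T1 h2 ?_
    rw [ht]
    rcases le_total x (2 / 100) with hx | hx
    · exact row_cA (NumL.chkF4 r_cA (by norm_num) (x := x) (y := k1) (z := l) (w := T)
        (by norm_num; linarith only [h0]) (by norm_num; linarith only [hx]) (by norm_num; linarith only [hc2, hx])
        (by norm_num; linarith only [h0, ha]) (by norm_num; linarith only [l0]) (by norm_num; linarith only [l1])
        (by norm_num; linarith only [T0]) (by norm_num; linarith only [T1])) h0 hl hc2 ha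
    · exact row_cA (NumL.chkF4 r_cA2 (by norm_num) (x := x) (y := k1) (z := l) (w := T)
        (by norm_num; linarith only [hx]) (by norm_num; linarith only [h1]) (by norm_num; linarith only [h1, hc2])
        (by norm_num; linarith only [h0, ha]) (by norm_num; linarith only [l0]) (by norm_num; linarith only [l1])
        (by norm_num; linarith only [T0]) (by norm_num; linarith only [T1])) h0 hl hc2 ha
  rcases le_total (2 / 100) x with hx | hx
  · obtain ⟨e, he, hp⟩ := NumL.chkF4 r_m2 (by norm_num) (x := x) (y := k1) (z := l) (w := T)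
      (by norm_num; linarith only [hx]) (by norm_num; linarith only [h1]) (by norm_num; linarith only [k0])
      (by norm_num; linarith only [h0, h1, hc2]) (by norm_num; linarith only [l0]) (by norm_num; linarith only [l1])
      (by norm_num; linarith only [T0]) (by norm_num; linarith only [T1])
    simp only [ZL.e5, List.mem_cons, List.not_mem_nil, or_false] at he
    rcases he with rfl | rfl
    · rw [nD1E_val _ _ _ _ _ _ hx15', kE_val, tL_val, v1, v2, v3, v4, ← hl, ← ht] at hp
      exact (pos_of_mul_pos_right hp hx15.le).le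
    · simp only [NumL.E.val, v1, v2] at hp
      push_cast at hp
      linarith only [hc2, hp]
  rcases le_total (x + k1) (1 / 2) with hc | hc
  · obtain ⟨e, he, hp⟩ := NumL.chkF4 r_cC (by norm_num) (x := x) (y := k1) (z := l) (w := T)
      (by norm_num; linarith only [h0]) (by norm_num; linarith only [hx]) (by norm_num; linarith only [k0])
      (by norm_num; linarith only [h0, hc]) (by norm_num; linarith only [l0]) (by norm_num; linarith only [l1])
      (by norm_num; linarith only [T0]) (by norm_num; linarith only [T1])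
    simp only [cC, List.mem_cons, List.not_mem_nil, or_false] at he
    rcases he with rfl | rfl
    · rw [cE_val _ _ _ _ _ _ _ _ hx15', kE_val, tL_val, v1, v2, v3, v4, ← hl, ← ht] at hp
      simp only [NumL.E.val] at hp
      push_cast at hp
      refine of_cR h0 h1 ht T0 T1 h2 ?_
      have := pos_of_mul_pos_right hp hx15.le
      rw [show Real.pi / 2 = Real.pi * (1 / 2) by ring]
      exact this
    · simp only [NumL.E.val, v1, v2] at hp
      push_cast at hp
      linarith only [hc, hp]
  · obtain ⟨e, he, hp⟩ := NumL.chkF4 r_cB (by norm_num) (x := x) (y := k1) (z := l) (w := T)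
      (by norm_num; linarith only [h0]) (by norm_num; linarith only [hx]) (by norm_num; linarith only [hx, hc])
      (by norm_num; linarith only [h0, hc2]) (by norm_num; linarith only [l0]) (by norm_num; linarith only [l1])
      (by norm_num; linarith only [T0]) (by norm_num; linarith only [T1])
    simp only [cB, List.mem_cons, List.not_mem_nil, or_false] at he
    rcases he with rfl | rfl
    · rw [cE_val _ _ _ _ _ _ _ _ hx15', kE_val, tL_val, v1, v2, v3, v4, ← hl, ← ht] at hp
      simp only [NumL.E.val, kE_val, tL_val, v1, v2, v3, ← hl, ← ht] at hp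
      push_cast at hp
      refine of_cR h0 h1 ht T0 T1 ?_ (pos_of_mul_pos_right hp hx15.le)
      exact slope_end hc (by linarith only [h0, hc2, hx]) (by linarith only [hTt])
    · simp only [NumL.E.val, v1, v2] at hp
      push_cast at hp
      linarith only [hc2, hp]

end ZL

end ZD

end Pool.Agent.Work.MP_b30479_gt.G2
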