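import Pool.Agent.Work.MP_b30479_gt.G2.ZNu
import Pool.Agent.Work.NumI.TreeS

/-!
# Pieces of the certificates of `ZNv`, part 4
-/


set_option linter.unusedVariables false
set_option linter.unusedSimpArgs false
namespace Pool.Agent.Work.MP_b30479_gt.G2
open NumU (uu)
open NumL (E)
open NumL.E (mn mn_val)
namespace ZD
namespace ZL

theorem r_k1_p15 : Pool.Agent.Work.NumI.runE (Pool.Agent.Work.NumL.tst d1)
    0 0 68719476736 48103634 38 0 8246337210 13743895347 68719476738 103079215105 137438953474 0 48103635
    21482307482141459495617489740800354794074139423118314762557224693322335908020920858744866606968181447183389589338684493136784534652188576836025330236343846548861675126326733049115592069220315019565050218132422925707442666817325301446326913618866216407122210932948969782806715491815187249745295706769995905351117494607875452779068373160297244814099660240921652499009981189903137303510909057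
    0 = true := by
  decide +kernel


end ZL

end ZD

end Pool.Agent.Work.MP_b30479_gt.G2
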