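import Pool.Agent.Work.MP_b30479_gt.G2.ZNu
import Pool.Agent.Work.NumI.TreeS

/-!
# Pieces of the certificates of `ZNz`, part 5
-/


set_option linter.unusedVariables false
set_option linter.unusedSimpArgs false
namespace Pool.Agent.Work.MP_b30479_gt.G2
open NumU (uu)
open NumL (E)
open NumL.E (mn mn_val)
namespace ZD
namespace ZL

theorem r_l4_p8 : Pool.Agent.Work.NumI.runE (Pool.Agent.Work.NumL.tst e4)
    0 0 68719476736 48103634 36 20615843020 34359738370 41231686042 68719476738 120259084289 137438953474 0 48103635
    87638841391314135400064325982320753145238439611788733564489458841780522174294082739745743478705211915089846699084084499526818337043051509394565410010955700501939673073020570796198745776123007065091734305767547837726714106003816749538931352056025682492056699423262109711464062649882933212693108386942654277853186063598570922425484357990621990290765609380083601891885983906633629647000967442337031689143282014018459029901294297647428875663098352513066379043816890689002510131618835043553084810324297038702793849173326892101305201087164058329586335422441375535052404184231944932811989217510964856747778901639210042630563101089381802890309144908619648345102240196533072390264577346810927170710438925425785030576972685658305941505425461765160825542844156850620477375406357076979562391658032282068384765062296287575653005312000283787243576624460752488388706655333081633497038833153711871663889070613701438647898473497112421106819389546527842434880578947875543225508418957778109237731152703643792428439979906983726338676549977735865952697704675261338495052807381076237306934779644645264987576374842517521101132792370097994591167890629305880157515914295452964215159634980815586041989361894136289318653759319334115246411131346968186318399713776095121136759143674317383967837463864397625747933769871004547554631075711779604573110448733122847654809573531769622599006809889613894822782108581456150388479991887992965585218323634472648360466476242970711067223503549007186206245295812553675159845025510971647743573308197652696916580473361658337639171053005444330794189399161767470892825739744926077837700529763110719956453362205982977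
    0 = true := by
  decide +kernel


end ZL

end ZD

end Pool.Agent.Work.MP_b30479_gt.G2
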