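import Pool.Agent.Work.MP_b30479_gt.G2.ZO1
import Pool.Agent.Work.MP_b30479_gt.G2.TRb
import Pool.Agent.Work.MP_b30479_gt.G2.TE3a

/-!
# The ring side of a hinge is moved to `2/5`: real variables
-/

namespace Pool.Agent.Work.MP_b30479_gt.G2

open NumU (uu UU_uu uu_add_one uu_one_sub)
open NumL (E chkF4)

namespace ZD

namespace ZO

open ZN (fRE thE fR_uu fRE_val thE_val)

/-! ### monotonicity in the height -/

theorem uu_hor {a b t t' : ℝ} (hab : a ≤ b) (h : |t| ≤ |t'|) :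
    uu b t - uu a t ≤ uu b t' - uu a t' := by
  have key := Lr_diff_mono hab (abs_nonneg t) h
  rw [uu_Lr, uu_Lr, uu_Lr, uu_Lr]
  linarith

theorem uu_hf (t : ℝ) : uu (1 / 2) t = 0 := by
  have := uu_one_sub (1 / 2) t
  norm_num at this
  linarith

theorem uu_vert_ge {u t t' : ℝ} (hu : 1 / 2 ≤ u) (h : |t| ≤ |t'|) : uu u t ≤ uu u t' := by
  have := uu_hor hu h
  rw [uu_hf, uu_hf] at this
  linarith

theorem uu_vert_le {u t t' : ℝ} (hu : u ≤ 1 / 2) (h : |t| ≤ |t'|) : uu u t' ≤ uu u t := by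
  have := uu_hor hu h
  rw [uu_hf, uu_hf] at this
  linarith

theorem uu_vert_lip {u t t' : ℝ} (hu : u ≤ 3 / 2) (h : |t| ≤ |t'|) :
    uu u t' - uu u t ≤ Real.pi * (|t'| - |t|) := by
  have h1 := uu_hor hu h
  have e : ∀ s : ℝ, uu (3 / 2) s = Real.pi * |s| := by
    intro s
    have := uu_add_one (1 / 2) s
    rw [uu_hf] at this
    norm_num at this
    exact this
  rw [e, e] at h1
  linarith

/-! ### reflection -/

theorem fR_refl {x y σ η : ℝ} (h0 : 0 ≤ σ) (h1 : σ ≤ 1 / 2) (hη : 0 ≤ η) :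
    fR ⟨x, y⟩ ⟨σ, η⟩ - 2 * Real.pi * η ≤ fR ⟨x, y⟩ ⟨-σ, η⟩ := by
  have hpi := Real.pi_pos
  have hp : 0 ≤ 2 * Real.pi * η := by positivity
  rw [fR_uu, fR_uu, sub_neg_eq_add, ← sub_eq_add_neg]
  rcases le_total |y + η| |y - η| with h | h
  · have := uu_hor (a := x + 1 / 2 - σ) (b := x + 1 / 2 + σ) (by linarith) h
    linarith
  · have h2 := uu_hor (a := x + 1 / 2 + σ) (b := x + 1 / 2 - σ + 1) (by linarith) h
    rw [uu_add_one, uu_add_one] at h2
    have h3 : |y + η| - |y - η| ≤ 2 * η := by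
      have := abs_sub_abs_le_abs_sub (y + η) (y - η)
      rw [show y + η - (y - η) = 2 * η by ring, abs_of_nonneg (by linarith : 0 ≤ 2 * η)] at this
      exact this
    nlinarith [mul_le_mul_of_nonneg_left h3 hpi.le]

/-! ### numbers -/

theorem exp_a : Real.exp (63 / 100) ≤ 19 / 10 := by
  have := Real.exp_bound' (x := 63 / 100) (by norm_num) (by norm_num) (n := 6) (by norm_num)
  refine this.trans ?_
  norm_num [Finset.sum_range_succ, Nat.factorial]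

theorem exp_b : Real.exp (4156 / 10000) ≤ 1516 / 1000 := by
  have := Real.exp_bound' (x := 4156 / 10000) (by norm_num) (by norm_num) (n := 6) (by norm_num)
  refine this.trans ?_
  norm_num [Finset.sum_range_succ, Nat.factorial]

theorem exp_c : 3469 / 1000 ≤ Real.exp (125 / 100) := by
  have := Real.sum_le_exp_of_nonneg (x := 125 / 100) (by norm_num) 7
  refine le_trans ?_ this
  norm_num [Finset.sum_range_succ, Nat.factorial]

theorem cosh_b : Real.cosh (2 * Real.pi * (145 / 1000)) ≤ 1516 / 1000 := by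
  refine (Real.cosh_le_exp_half_sq _).trans (le_trans (Real.exp_le_exp.2 ?_) exp_b)
  have h1 := Real.pi_lt_d4
  have h2 := Real.pi_pos
  nlinarith

theorem sin_ge {x : ℝ} (h0 : 4 / 10 ≤ x) (h1 : x ≤ 6 / 10) : 95 / 100 ≤ Real.sin (Real.pi * x) := by
  have hp := Real.pi_pos
  have hp' := Real.pi_lt_d4
  have e : Real.sin (Real.pi * x) = Real.cos (Real.pi * (x - 1 / 2)) := by
    rw [← Real.cos_pi_div_two_sub, ← Real.cos_neg]
    congr 1
    ring
  rw [e]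
  have h2 := Real.one_sub_sq_div_two_le_cos (x := Real.pi * (x - 1 / 2))
  have h3 : (x - 1 / 2) ^ 2 ≤ 1 / 100 := by nlinarith
  have h4 : Real.pi ^ 2 ≤ 9.87 := by nlinarith
  have h5 : (Real.pi * (x - 1 / 2)) ^ 2 ≤ 9.87 * (1 / 100) := by
    rw [mul_pow]
    exact mul_le_mul h4 h3 (sq_nonneg _) (by norm_num)
  nlinarith

/-! ### the horizontal part -/

theorem cos5 : 8 / 10 ≤ Real.cos (Real.pi / 5) ∧ Real.cos (Real.pi / 5) ≤ 80902 / 100000 := by
  rw [Real.cos_pi_div_five]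
  have h1 : (2.2 : ℝ) ≤ √5 := Real.le_sqrt_of_sq_le (by norm_num)
  have h2 : √5 ≤ 2.23607 := Real.sqrt_le_iff.2 ⟨by norm_num, by norm_num⟩
  constructor <;> linarith

theorem cosp {s : ℝ} (h0 : 4 / 10 ≤ s) (h1 : s ≤ 6 / 10) :
    8 / 10 ≤ -Real.cos (2 * Real.pi * s) := by
  have hp := Real.pi_pos
  have e : -Real.cos (2 * Real.pi * s) = Real.cos |2 * Real.pi * (s - 1 / 2)| := by
    rw [Real.cos_abs, show 2 * Real.pi * (s - 1 / 2) = 2 * Real.pi * s - Real.pi by ring,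
      Real.cos_sub_pi]
  rw [e]
  refine cos5.1.trans (Real.cos_le_cos_of_nonneg_of_le_pi (abs_nonneg _) (by linarith) ?_)
  rw [abs_le]
  constructor <;> nlinarith

theorem cosq {σ : ℝ} (h0 : |σ| ≤ 15 / 100) : 587 / 1000 ≤ Real.cos (2 * Real.pi * σ) := by
  have hp := Real.pi_pos
  rw [← Real.cos_abs, abs_mul, abs_of_pos (by positivity : 0 < 2 * Real.pi)]
  have h1 : Real.cos (3 * Real.pi / 10) ≤ Real.cos (2 * Real.pi * |σ|) :=
    Real.cos_le_cos_of_nonneg_of_le_pi (by positivity) (by linarith) (by nlinarith)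
  refine le_trans ?_ h1
  have e : Real.cos (3 * Real.pi / 10) = Real.sin (Real.pi / 5) := by
    rw [← Real.cos_pi_div_two_sub]
    congr 1
    ring
  rw [e]
  have h2 := Real.sin_sq_add_cos_sq (Real.pi / 5)
  have h3 : 0 ≤ Real.sin (Real.pi / 5) :=
    Real.sin_nonneg_of_nonneg_of_le_pi (by positivity) (by linarith)
  have h4 := cos5
  nlinarith [h4.1, h4.2]

theorem prod_le {C P q : ℝ} (hC : 1 ≤ C) (hC' : C ≤ 1516 / 1000) (hP : 8 / 10 ≤ P) (hP' : P ≤ 1)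
    (hq : 587 / 1000 ≤ q) (hq' : q ≤ 1) :
    C ^ 2 - 1 - 2 * C * P * q + P ^ 2 + q ^ 2 ≤ 8672 / 10000 := by
  have h1 : C ^ 2 - 2 * C * P * q ≤ (1516 / 1000) ^ 2 - 2 * (1516 / 1000) * P * q := by
    nlinarith [mul_nonneg (sub_nonneg.2 hC') (by nlinarith : (0 : ℝ) ≤ C + 1516 / 1000 - 2 * P * q)]
  have h2 : q ^ 2 - 2 * (1516 / 1000) * P * q ≤ (587 / 1000) ^ 2 - 2 * (1516 / 1000) * P * (587 / 1000) := by
    nlinarith [mul_nonneg (sub_nonneg.2 hq) (by nlinarith : (0 : ℝ) ≤ 2 * (1516 / 1000) * P - q - 587 / 1000)]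
  nlinarith [mul_nonneg (sub_nonneg.2 hP) (sub_nonneg.2 hP')]

/-- sum of the two horizontal derivatives -/
theorem LL_sum {s σ : ℝ} (h0 : 4 / 10 ≤ s) (h1 : s ≤ 6 / 10) (hσ : |σ| ≤ 15 / 100) :
    LL ⟨1 / 2 + σ + s, 145 / 1000⟩ + LL ⟨1 / 2 - σ + s, 145 / 1000⟩ ≤ 625 / 1000 := by
  rw [LL_eq', LL_eq']
  simp only
  set C := Real.cosh (2 * Real.pi * (145 / 1000)) with hC
  have c1 : 1 < C := Real.one_lt_cosh.2 (by positivity)
  have c2 : C ≤ 1516 / 1000 := cosh_b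
  have k1 := Real.neg_one_le_cos (2 * Real.pi * (1 / 2 + σ + s))
  have k2 := Real.cos_le_one (2 * Real.pi * (1 / 2 + σ + s))
  have k3 := Real.neg_one_le_cos (2 * Real.pi * (1 / 2 - σ + s))
  have k4 := Real.cos_le_one (2 * Real.pi * (1 / 2 - σ + s))
  have e1 : Real.cos (2 * Real.pi * (1 / 2 + σ + s)) =
      -(Real.cos (2 * Real.pi * s) * Real.cos (2 * Real.pi * σ) -
        Real.sin (2 * Real.pi * s) * Real.sin (2 * Real.pi * σ)) := by
    rw [← Real.cos_add, show 2 * Real.pi * (1 / 2 + σ + s) =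
      2 * Real.pi * s + 2 * Real.pi * σ + Real.pi by ring, Real.cos_add_pi]
  have e2 : Real.cos (2 * Real.pi * (1 / 2 - σ + s)) =
      -(Real.cos (2 * Real.pi * s) * Real.cos (2 * Real.pi * σ) +
        Real.sin (2 * Real.pi * s) * Real.sin (2 * Real.pi * σ)) := by
    rw [← Real.cos_sub, show 2 * Real.pi * (1 / 2 - σ + s) =
      2 * Real.pi * s - 2 * Real.pi * σ + Real.pi by ring, Real.cos_add_pi]
  have p1 := cosp h0 h1
  have p2 := Real.neg_one_le_cos (2 * Real.pi * s)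
  have q1 := cosq hσ
  have q2 := Real.cos_le_one (2 * Real.pi * σ)
  have hs := Real.sin_sq_add_cos_sq (2 * Real.pi * s)
  have hσ2 := Real.sin_sq_add_cos_sq (2 * Real.pi * σ)
  set a := Real.cos (2 * Real.pi * s)
  set d := Real.sin (2 * Real.pi * s)
  set q := Real.cos (2 * Real.pi * σ)
  set r := Real.sin (2 * Real.pi * σ)
  have n1 : 0 < 2 * C - 2 * Real.cos (2 * Real.pi * (1 / 2 + σ + s)) := by linarith
  have n2 : 0 < 2 * C - 2 * Real.cos (2 * Real.pi * (1 / 2 - σ + s)) := by linarith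
  rw [← add_div, ← Real.log_mul n1.ne' n2.ne', div_le_iff₀ (by norm_num)]
  rw [Real.log_le_iff_le_exp (mul_pos n1 n2)]
  refine le_trans ?_ (exp_c.trans (Real.exp_le_exp.2 (by norm_num)))
  have key := prod_le (C := C) (P := -a) (q := q) c1.le c2 p1 (by linarith) q1 q2
  rw [e1, e2]
  have e3 : (2 * C - 2 * -(a * q - d * r)) * (2 * C - 2 * -(a * q + d * r)) =
      4 * (C ^ 2 + 2 * C * (a * q) + (a ^ 2 * q ^ 2 - d ^ 2 * r ^ 2)) := by ring
  have e4 : a ^ 2 * q ^ 2 - d ^ 2 * r ^ 2 = a ^ 2 + q ^ 2 - 1 := by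
    have h3 : d ^ 2 = 1 - a ^ 2 := by linarith
    have h4 : r ^ 2 = 1 - q ^ 2 := by linarith
    rw [h3, h4]
    ring
  rw [e3, e4]
  nlinarith [key]

theorem hor_far {x σ : ℝ} (h0 : 4 / 10 ≤ x) (h1 : x ≤ 6 / 10) (hσ : |σ| ≤ 15 / 100) :
    (uu (x + 1 / 2 + σ) (145 / 1000) - uu (4 / 10 + 1 / 2 + σ) (145 / 1000)) +
      (uu (x + 1 / 2 - σ) (145 / 1000) - uu (4 / 10 + 1 / 2 - σ) (145 / 1000)) ≤
      625 / 1000 * (x - 4 / 10) := by
  have hne : (145 / 1000 : ℝ) ≠ 0 := by norm_num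
  have hd : ∀ c s : ℝ, HasDerivAt (fun s : ℝ => UU ⟨c + 1 * s, 145 / 1000⟩)
      (1 * LL ⟨c + 1 * s, 145 / 1000⟩) s := fun c s => hasDerivAt_UU_hor hne 1 s
  have hg : ∀ s : ℝ, HasDerivAt (fun s : ℝ => UU ⟨1 / 2 + σ + 1 * s, 145 / 1000⟩ +
      UU ⟨1 / 2 - σ + 1 * s, 145 / 1000⟩) (1 * LL ⟨1 / 2 + σ + 1 * s, 145 / 1000⟩ +
        1 * LL ⟨1 / 2 - σ + 1 * s, 145 / 1000⟩) s := fun s => (hd _ s).add (hd _ s)
  have := Convex.image_sub_le_mul_sub_of_deriv_le (convex_Icc (4 / 10 : ℝ) (6 / 10))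
    (fun s _ => (hg s).continuousAt.continuousWithinAt)
    (fun s _ => (hg s).differentiableAt.differentiableWithinAt) (C := 625 / 1000) (by
      intro s hs
      rw [interior_Icc] at hs
      rw [(hg s).deriv, one_mul, one_mul, one_mul]
      exact LL_sum hs.1.le hs.2.le hσ) (4 / 10) ⟨le_rfl, by norm_num⟩ x ⟨h0, h1⟩ h0
  simp only [UU_uu] at this
  have e1 : ∀ s : ℝ, 1 / 2 + σ + 1 * s = s + 1 / 2 + σ := fun s => by ring
  have e2 : ∀ s : ℝ, 1 / 2 - σ + 1 * s = s + 1 / 2 - σ := fun s => by ring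
  rw [e1, e1, e2, e2] at this
  linarith

theorem hor_near {x : ℝ} (h0 : 4 / 10 ≤ x) (h1 : x ≤ 6 / 10) :
    63 / 100 * (x - 4 / 10) ≤ uu x 0 - uu (4 / 10) 0 := by
  have hd : ∀ s ∈ Set.Icc (4 / 10 : ℝ) (6 / 10), HasDerivAt (fun x => uu x 0)
      (Real.log (2 * Real.sin (Real.pi * s))) s := fun s hs =>
    TL.uu_real_deriv (by linarith [hs.1]) (by linarith [hs.2])
  have := Convex.mul_sub_le_image_sub_of_le_deriv (convex_Icc (4 / 10 : ℝ) (6 / 10))
    (f := fun x => uu x 0)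
    (fun s hs => (hd s hs).continuousAt.continuousWithinAt)
    (fun s hs => (hd s (interior_subset hs)).differentiableAt.differentiableWithinAt)
    (C := 63 / 100) (by
      intro s hs
      have hs' := interior_subset hs
      rw [(hd s hs').deriv]
      have h2 := sin_ge hs'.1 hs'.2
      rw [Real.le_log_iff_exp_le (by linarith)]
      linarith [exp_a]) (4 / 10) ⟨le_rfl, by norm_num⟩ x ⟨h0, h1⟩ h0
  exact this

/-! ### the gain -/

/-- near the singular points -/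
theorem gain_mid {x T σ η : ℝ} (h0 : 4 / 10 ≤ x) (h1 : x ≤ 6 / 10) (hT : -(1 / 1000) ≤ T)
    (hT' : T ≤ 58 / 1000) (hσ : |σ| ≤ 15 / 100) (hη : 0 ≤ η) (hη' : η ≤ 1045 / 10000) :
    fR ⟨x, -(T * (10 / 3 * (6 / 10 - x)))⟩ ⟨σ, η⟩ ≤ fR ⟨4 / 10, -(T * (2 / 3))⟩ ⟨σ, η⟩ := by
  have hpi := Real.pi_pos
  have hp4 := Real.pi_lt_d4
  rw [fR_uu, fR_uu]
  obtain ⟨τ, hτ⟩ : ∃ τ, τ = 10 / 3 * (6 / 10 - x) := ⟨_, rfl⟩
  rw [← hτ]
  have t0 : 0 ≤ τ := by rw [hτ]; linarith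
  have t1 : τ ≤ 2 / 3 := by rw [hτ]; linarith
  obtain ⟨s0, s1⟩ := abs_le.1 hσ
  -- the horizontal part
  have a1 : |-(T * τ) + η| ≤ |(145 / 1000 : ℝ)| := by
    rw [abs_of_nonneg (by norm_num : (0 : ℝ) ≤ 145 / 1000), abs_le]
    constructor <;> nlinarith
  have a2 : |-(T * τ) - η| ≤ |(145 / 1000 : ℝ)| := by
    rw [abs_of_nonneg (by norm_num : (0 : ℝ) ≤ 145 / 1000), abs_le]
    constructor <;> nlinarith
  have b1 := uu_hor (a := 4 / 10 + 1 / 2 + σ) (b := x + 1 / 2 + σ) (by linarith) a1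
  have b2 := uu_hor (a := 4 / 10 + 1 / 2 - σ) (b := x + 1 / 2 - σ) (by linarith) a2
  have b3 := hor_far h0 h1 hσ
  have b4 := uu_hor (a := 4 / 10) (b := x) h0 (t := 0) (t' := -(T * τ))
    (by rw [abs_zero]; exact abs_nonneg _)
  have b5 := hor_near h0 h1
  -- the vertical part
  have c0 : uu (4 / 10) (-(T * (2 / 3))) ≤ uu (4 / 10) (-(T * τ)) := by
    refine uu_vert_le (by norm_num) ?_
    rw [abs_neg, abs_neg, abs_mul, abs_mul, abs_of_nonneg t0,
      abs_of_nonneg (by norm_num : (0 : ℝ) ≤ 2 / 3)]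
    exact mul_le_mul_of_nonneg_left t1 (abs_nonneg T)
  have key : ∀ u t t' d : ℝ, 1 / 2 ≤ u → u ≤ 3 / 2 → |t' - t| ≤ d → uu u t' - Real.pi * d ≤ uu u t := by
    intro u t t' d u0 u1 hd
    have d0 := (abs_nonneg _).trans hd
    have d1 := mul_nonneg hpi.le d0
    rcases le_total |t'| |t| with h | h
    · linarith [uu_vert_ge u0 h]
    · have h2 := uu_vert_lip u1 h
      have h3 := (abs_sub_abs_le_abs_sub t' t).trans hd
      nlinarith [mul_le_mul_of_nonneg_left h3 hpi.le]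
  have c1 : uu (4 / 10 + 1 / 2 + σ) (-(T * τ) + η) + uu (4 / 10 + 1 / 2 - σ) (-(T * τ) - η) -
      Real.pi * (58 / 1000 * (2 / 3 - τ)) ≤
      uu (4 / 10 + 1 / 2 + σ) (-(T * (2 / 3)) + η) + uu (4 / 10 + 1 / 2 - σ) (-(T * (2 / 3)) - η) := by
    rcases le_total 0 T with h | h
    · have e1 := key (4 / 10 + 1 / 2 + σ) (-(T * (2 / 3)) + η) (-(T * τ) + η) (58 / 1000 * (2 / 3 - τ))
        (by linarith) (by linarith) (by
          rw [show -(T * τ) + η - (-(T * (2 / 3)) + η) = T * (2 / 3 - τ) by ring,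
            abs_of_nonneg (mul_nonneg h (by linarith))]
          exact mul_le_mul_of_nonneg_right hT' (by linarith))
      have e2 := uu_vert_ge (u := 4 / 10 + 1 / 2 - σ) (t := -(T * τ) - η) (t' := -(T * (2 / 3)) - η)
        (by linarith) (by
          rw [show -(T * τ) - η = -(T * τ + η) by ring, show -(T * (2 / 3)) - η = -(T * (2 / 3) + η) by ring,
            abs_neg, abs_neg, abs_of_nonneg (by positivity), abs_of_nonneg (by positivity)]
          linarith [mul_le_mul_of_nonneg_left t1 h])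
      linarith
    · have e1 := key (4 / 10 + 1 / 2 - σ) (-(T * (2 / 3)) - η) (-(T * τ) - η) (58 / 1000 * (2 / 3 - τ))
        (by linarith) (by linarith) (by
          rw [show -(T * τ) - η - (-(T * (2 / 3)) - η) = -(-T * (2 / 3 - τ)) by ring, abs_neg,
            abs_of_nonneg (mul_nonneg (by linarith) (by linarith))]
          exact mul_le_mul_of_nonneg_right (by linarith) (by linarith))
      have hm : 0 ≤ -T * τ := mul_nonneg (by linarith) t0
      have e2 := uu_vert_ge (u := 4 / 10 + 1 / 2 + σ) (t := -(T * τ) + η) (t' := -(T * (2 / 3)) + η)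
        (by linarith) (by
          rw [abs_of_nonneg (by linarith), abs_of_nonneg (by nlinarith)]
          nlinarith)
      linarith
  have c2 : Real.pi * (58 / 1000 * (2 / 3 - τ)) ≤ 6075 / 10000 * (x - 4 / 10) := by
    have : 2 / 3 - τ = 10 / 3 * (x - 4 / 10) := by rw [hτ]; ring
    rw [this]
    nlinarith
  linarith

theorem tau_val (xs : List ℝ) (x : E) : (tauE x).val xs = 10 / 3 * (6 / 10 - x.val xs) := by
  simp only [tauE, E.val]
  norm_num

theorem gE_val (xs : List ℝ) (x T s e : E) : (gE x T s e).val xs =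
    fR ⟨4 / 10, -(T.val xs * (2 / 3))⟩ ⟨s.val xs, e.val xs⟩ -
      fR ⟨x.val xs, -(T.val xs * (10 / 3 * (6 / 10 - x.val xs)))⟩ ⟨s.val xs, e.val xs⟩ + 1 / 100 := by
  simp only [gE, E.val, fRE_val, tau_val]
  push_cast
  rw [mul_comm (2 / 3 : ℝ)]

theorem gain_left {x T σ ρ : ℝ} (h0 : 4 / 10 ≤ x) (h1 : x ≤ 6 / 10) (hT : -(1 / 1000) ≤ T)
    (hT' : T ≤ 58 / 1000) (hσ : -(1 / 2) ≤ σ) (hσ' : σ ≤ -(15 / 100)) (hρ : 0 ≤ ρ)
    (hρ' : ρ ≤ 1045 / 10000) :
    fR ⟨x, -(T * (10 / 3 * (6 / 10 - x)))⟩ ⟨σ, ρ * LT.th σ⟩ - 1 / 100 ≤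
      fR ⟨4 / 10, -(T * (2 / 3))⟩ ⟨σ, ρ * LT.th σ⟩ := by
  obtain ⟨e, he, hp⟩ := chkF4 cN (by norm_num) (x := x) (y := σ) (z := ρ) (w := T)
    (by norm_num; linarith) (by norm_num; linarith) (by norm_num; linarith) (by norm_num; linarith)
    (by norm_num; linarith) (by norm_num; linarith) (by norm_num; linarith) (by norm_num; linarith)
  simp only [rowN, List.mem_cons, List.not_mem_nil, or_false] at he
  subst he
  rw [gE_val] at hp
  simp only [E.val, thE_val, NumI.lkR] at hp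
  linarith

theorem gain_right {x T σ η : ℝ} (h0 : 4 / 10 ≤ x) (h1 : x ≤ 6 / 10) (hT : -(1 / 1000) ≤ T)
    (hT' : T ≤ 58 / 1000) (hσ : 15 / 100 ≤ σ) (hσ' : σ ≤ 1 / 4) (hη : 0 ≤ η)
    (hη' : η ≤ 1045 / 10000) :
    fR ⟨x, -(T * (10 / 3 * (6 / 10 - x)))⟩ ⟨σ, η⟩ - 1 / 100 ≤
      fR ⟨4 / 10, -(T * (2 / 3))⟩ ⟨σ, η⟩ := by
  obtain ⟨e, he, hp⟩ := chkF4 cP (by norm_num) (x := x) (y := σ) (z := η) (w := T)
    (by norm_num; linarith) (by norm_num; linarith) (by norm_num; linarith) (by norm_num; linarith)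
    (by norm_num; linarith) (by norm_num; linarith) (by norm_num; linarith) (by norm_num; linarith)
  simp only [rowP, List.mem_cons, List.not_mem_nil, or_false] at he
  subst he
  rw [gE_val] at hp
  simp only [E.val, NumI.lkR] at hp
  linarith

theorem fR_real_neg (x y σ : ℝ) : fR ⟨x, y⟩ ⟨-σ, 0⟩ = fR ⟨x, y⟩ ⟨σ, 0⟩ := by
  rw [fR_uu, fR_uu]
  simp only [add_zero, sub_zero, sub_neg_eq_add, ← sub_eq_add_neg]
  ring

/-- **The hinge of a ring is moved from the right end to `2/5`.** -/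
theorem gain {x T σ ρ : ℝ} (h0 : 4 / 10 ≤ x) (h1 : x ≤ 6 / 10) (hT : -(1 / 1000) ≤ T)
    (hT' : T ≤ 58 / 1000) (hσ : |σ| ≤ 1 / 2) (hρ : 0 ≤ ρ) (hρ' : ρ ≤ 1045 / 10000)
    (hc : σ ≤ 1 / 4 ∨ ρ * LT.th σ = 0) :
    fR ⟨x, -(T * (10 / 3 * (6 / 10 - x)))⟩ ⟨σ, ρ * LT.th σ⟩ - 1 / 100 ≤
      fR ⟨4 / 10, -(T * (2 / 3))⟩ ⟨σ, ρ * LT.th σ⟩ := by
  obtain ⟨s0, s1⟩ := abs_le.1 hσ
  have t0 := th_nonneg hσ
  have t1 := th_le_one σ
  have e0 : 0 ≤ ρ * LT.th σ := mul_nonneg hρ t0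
  have e1 : ρ * LT.th σ ≤ 1045 / 10000 := by nlinarith
  rcases le_or_gt σ (-(15 / 100)) with a | a
  · exact gain_left h0 h1 hT hT' s0 a hρ hρ'
  rcases le_or_gt σ (15 / 100) with c | c
  · have := gain_mid h0 h1 hT hT' (σ := σ) (by rw [abs_le]; constructor <;> linarith) e0 e1
    linarith
  rcases le_or_gt σ (1 / 4) with d | d
  · exact gain_right h0 h1 hT hT' c.le d e0 e1
  · rcases hc with hc | hc
    · linarith
    · have := gain_left (σ := -σ) (ρ := 0) h0 h1 hT hT' (by linarith) (by linarith) le_rfl (by norm_num)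
      rw [zero_mul, fR_real_neg, fR_real_neg] at this
      rw [hc]
      exact this

end ZO

end ZD

end Pool.Agent.Work.MP_b30479_gt.G2
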