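import Pool.Agent.Work.MP_b30479_gt.G2.ZRcT

/-!
# Modes at rings, rows `C`: a digit `1` next to an end with two crossings, an end with two crossings
-/

namespace Pool.Agent.Work.MP_b30479_gt.G2

open VOL NumU

namespace ZD

namespace RC

open NumI (V) in
theorem rE1 : chkT [g1 u0 108 (.add (.q 965 100000) (.mul (.q 2 10) (.var 1)))] 40
    2177
    [V.of 1000 100 158 0, V.of 1000 50 250 0, V.of 1000 (-160) 1 0] = true := by decide +kernel

open NumI (V) in
theorem rE2 : chkT [g1 u0 108 (.q 185 1000)] 40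
    9380519510545
    [V.of 1000 100 158 0, V.of 1000 250 700 0, V.of 1000 (-160) 160 0] = true := by decide +kernel

open NumI (V) in
theorem rE3 : chkT [g3 u0 108 uk] 40
    2178
    [V.of 1000 100 158 0, V.of 1000 500 700 0, V.of 1000 (-160) 160 0] = true := by decide +kernel

open NumI (V) in
theorem rE0 : chkT [g12] 40
    2176
    [V.of 1000 100 158 0, V.of 1000 0 50 0, V.of 1000 (-58) 1 0] = true := by decide +kernel

open NumI (V) in
theorem rc0 : chk [gc0] 20 [V.of 1000 88 131 0] = true := by decide +kernel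

variable {T k1 k2 u t : ℝ}

theorem goal1_e (T0 : 100 / 1000 ≤ T) (T1 : T ≤ 158 / 1000) (h0 : 5 / 100 ≤ k1)
    (h1 : k1 ≤ 70 / 100) (h2 : -(16 / 100) ≤ k2) (h3 : k2 ≤ 16 / 100)
    (h4 : k1 < 1 / 4 → k2 ≤ 1 / 1000) : Goal1 (108 / 1000) (2 / 10) T k1 k2 := by
  unfold Goal1
  rw [gD1_eq]
  constructor
  · rcases lt_or_ge k1 (1 / 4) with h | h
    · obtain ⟨e, he, hp⟩ := chkT3 rE1 (by norm_num) (x := T) (y := k1) (z := k2)
        (by push_cast; linarith only [T0]) (by push_cast; linarith only [T1]) (by push_cast; linarith only [h0])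
        (by push_cast; linarith only [h]) (by push_cast; linarith only [h2]) (by push_cast; linarith only [h4, h, h4 h])
      rw [List.mem_singleton.1 he, g1_val, u0_val] at hp
      simp only [E.val, NumI.lkR] at hp
      push_cast at hp
      unfold mA1
      rw [if_pos h]
      have h5 : max k2 0 ≤ 1 / 1000 := max_le (h4 h) (by norm_num)
      linarith only [hp, h5]
    · obtain ⟨e, he, hp⟩ := chkT3 rE2 (by norm_num) (x := T) (y := k1) (z := k2)
        (by push_cast; linarith only [T0]) (by push_cast; linarith only [T1]) (by push_cast; linarith only [h])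
        (by push_cast; linarith only [h1]) (by push_cast; linarith only [h2]) (by push_cast; linarith only [h3])
      rw [List.mem_singleton.1 he, g1_val, u0_val] at hp
      simp only [E.val] at hp
      push_cast at hp
      unfold mA1
      rw [if_neg (not_lt.2 h)]
      linarith only [hp]
  · intro h
    obtain ⟨e, he, hp⟩ := chkT3 rE3 (by norm_num) (x := T) (y := k1) (z := k2)
      (by push_cast; linarith only [T0]) (by push_cast; linarith only [T1]) (by push_cast; linarith only [h])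
      (by push_cast; linarith only [h1]) (by push_cast; linarith only [h2]) (by push_cast; linarith only [h3])
    rw [List.mem_singleton.1 he, g3_val, u0_val, uk_val] at hp
    push_cast at hp
    unfold oD1
    linarith only [hp]

theorem g12_val : g12.val [T, k1, k2] = gD1 (12 / 100) (3 / 4 * T) k1 k2 +
    gR (108 / 1000) (12 / 100) (3 / 4 * T) - cA1 k1 k2 - (965 / 100000 + 2 / 10 * k1) := by
  rw [gR_eq]
  unfold gD1 cA1
  simp only [g12, t34, E.val, NumI.lkR]
  rw [show (12 : ℝ) / 100 + 9 / 40 = 345 / 1000 by norm_num,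
    show (12 : ℝ) / 100 + 31 / 40 = 895 / 1000 by norm_num]
  push_cast
  ring_nf

theorem goal1_e0 (T0 : 100 / 1000 ≤ T) (T1 : T ≤ 158 / 1000) (h0 : 0 ≤ k1)
    (h1 : k1 ≤ 5 / 100) (h2 : -(58 / 1000) ≤ k2) (h3 : k2 ≤ 1 / 1000) :
    Goal1 (108 / 1000) (12 / 100) (3 / 4 * T) k1 k2 := by
  unfold Goal1
  constructor
  · obtain ⟨e, he, hp⟩ := chkT3 rE0 (by norm_num) (x := T) (y := k1) (z := k2)
      (by push_cast; linarith only [T0]) (by push_cast; linarith only [T1]) (by push_cast; linarith only [h0])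
      (by push_cast; linarith only [h1]) (by push_cast; linarith only [h2]) (by push_cast; linarith only [h3])
    rw [List.mem_singleton.1 he, g12_val] at hp
    unfold mA1
    rw [if_pos (by linarith only [h1])]
    have h5 : max k2 0 ≤ 1 / 1000 := max_le h3 (by norm_num)
    linarith only [hp, h5]
  · intro h
    exfalso
    linarith only [h1, h]

end RC

open RC

theorem cem : ∀ T u k1 t : ℝ, 100 / 1000 ≤ T → T ≤ 158 / 1000 → -(66 / 1000) ≤ u → u ≤ 1 / 1000 →
    5 / 100 ≤ k1 → k1 ≤ 70 / 100 → Rmp (14 / 100) (35 / 100) k1 t →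
    Goal1 (108 / 1000) (2 / 10) T k1 (u * t) := by
  intro T u k1 t T0 T1 u0 u1 h0 h1 hr
  obtain ⟨t0, t1, -⟩ := hr
  exact goal1_e T0 T1 h0 h1 (by nlinarith only [t1, u0, t0]) (by nlinarith only [u1, t0, u0, t1]) (fun _ => by nlinarith only [u1, u0, t1, t0])

theorem ced : ∀ T k1 t : ℝ, 100 / 1000 ≤ T → T ≤ 158 / 1000 → 5 / 100 ≤ k1 → k1 ≤ 70 / 100 →
    Rmp (14 / 100) (35 / 100) k1 t → Goal1 (108 / 1000) (2 / 10) T k1 (-(16 / 100) * t) := by
  intro T k1 t T0 T1 h0 h1 hr
  obtain ⟨t0, t1, -⟩ := hr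
  exact goal1_e T0 T1 h0 h1 (by linarith only [t1]) (by linarith only [t0]) (fun _ => by linarith)

theorem ceu : ∀ T k1 t : ℝ, 100 / 1000 ≤ T → T ≤ 158 / 1000 → 1 / 4 ≤ k1 → k1 ≤ 70 / 100 →
    Rmp (14 / 100) (35 / 100) k1 t → Goal1 (108 / 1000) (2 / 10) T k1 (16 / 100 * t) := by
  intro T k1 t T0 T1 h0 h1 hr
  obtain ⟨t0, t1, -⟩ := hr
  exact goal1_e T0 T1 (by linarith only [h0]) h1 (by linarith only [t0]) (by linarith only [t1])
    (fun h => absurd h (not_lt.2 h0))

theorem cem0 : ∀ T u k1 : ℝ, 100 / 1000 ≤ T → T ≤ 158 / 1000 → -(66 / 1000) ≤ u → u ≤ 1 / 1000 →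
    0 ≤ k1 → k1 ≤ 5 / 100 →
    Goal1 (108 / 1000) (12 / 100) (3 / 4 * T) k1 (u * (k1 / (14 / 100))) := by
  intro T u k1 T0 T1 u0 u1 h0 h1
  have h2 : 0 ≤ k1 / (14 / 100) := by positivity
  have h3 : k1 / (14 / 100) ≤ 1 := by rw [div_le_one (by norm_num)]; linarith only [h1]
  have h4 : k1 / (14 / 100) ≤ 5 / 14 := by rw [div_le_div_iff₀ (by norm_num) (by norm_num)]; linarith only [h1]
  exact goal1_e0 T0 T1 h0 h1 (by nlinarith only [h1, u0, h0]) (by nlinarith only [u1, u0, h1, h0])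

theorem ced0 : ∀ T k1 : ℝ, 100 / 1000 ≤ T → T ≤ 158 / 1000 → 0 ≤ k1 → k1 ≤ 5 / 100 →
    Goal1 (108 / 1000) (12 / 100) (3 / 4 * T) k1 (-(16 / 100) * (k1 / (14 / 100))) := by
  intro T k1 T0 T1 h0 h1
  have h2 : 0 ≤ k1 / (14 / 100) := by positivity
  have h4 : k1 / (14 / 100) ≤ 5 / 14 := by rw [div_le_div_iff₀ (by norm_num) (by norm_num)]; linarith only [h1]
  exact goal1_e0 T0 T1 h0 h1 (by nlinarith only [h1]) (by nlinarith only [h0])

theorem c0 : ∀ T : ℝ, 88 / 1000 ≤ T → T ≤ 131 / 1000 →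
    46 / 1000 < gD0 (2 / 10) T + gR (112 / 1000) (2 / 10) T := by
  intro T T0 T1
  have hp := pos_of_chk (chk1 RC.rc0 (by norm_num) (x := T) (by push_cast; linarith only [T0])
    (by push_cast; linarith only [T1]))
  simp only [gc0, U5, E.val, NumI.lkR] at hp
  push_cast at hp
  rw [gR_eq]
  unfold gD0
  rw [show (2 : ℝ) / 10 + 9 / 40 = 425 / 1000 by norm_num,
    show (2 : ℝ) / 10 + 31 / 40 = 975 / 1000 by norm_num]
  linarith only [hp]

end ZD

end Pool.Agent.Work.MP_b30479_gt.G2
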