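import Pool.Agent.Work.MP_b30479_gt.G2.ZO2
import Pool.Agent.Work.MP_b30479_gt.G2.ZDk
import Pool.Agent.Work.MP_b30479_gt.G2.WMMF
import Pool.Agent.Work.MP_b30479_gt.G2.V3MidRA
import Pool.Agent.Work.MP_b30479_gt.G2.WRng
import Pool.Agent.Work.MP_b30479_gt.G2.WTab
import Pool.Agent.Work.MP_b30479_gt.G2.ZRcE

/-!
# Modes: a hinge of a ring may be moved to `2/5`

At a maximiser the ring variable (own frame) has real part at most `1/4` or is real.
-/

namespace Pool.Agent.Work.MP_b30479_gt.G2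

open Finset VOL Filter Topology

namespace SR

variable {M : ℕ} {b : Fin (M + 1) → ℤ} {zs : DD (tyW b) ⊕ ZZ (tyW b) → ℂ}
variable {R : Finset (DD (tyW b))} {nb : Finset (DD (tyW b) ⊕ ZZ (tyW b))}
variable {z : DD (tyW b) ⊕ ZZ (tyW b) → ℂ} {p : DD (tyW b) → ℝ}
variable {h h' : Fin M} {i j j' : Fin (M + 1)} {s : Fin 3}

/-- a variable without penalty is on its main path -/
theorem MM.on_main (hM : MM b zs R nb z p) {k : DD (tyW b)} (hn : Sum.inl k ∉ nb)
    (hp : p k = 0) : ∃ x : ℝ, 0 ≤ x ∧ x ≤ (wpar b zs).XM k ∧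
      z (.inl k) = pt 0 ((wpar b zs).XM k) ((wpar b zs).cl k) ((wpar b zs).cr k)
        (zs (.inl k)).im x := by
  obtain ⟨x, h0, h1, h2⟩ := hM.adm.onD k hn
  refine ⟨x, h0, h1, ?_⟩
  have hm := mh_pos (b := b) (zs := zs) k
  rcases h2 with ⟨e, -⟩ | ⟨e, e'⟩ | ⟨e, e'⟩
  · exact e
  · rw [hp] at e'
    have : tr 0 ((wparM b zs).XM k) ((wparM b zs).cl k) ((wparM b zs).cr k) x = 0 := by
      rcases mul_eq_zero.1 e'.symm with h3 | h3
      · exact absurd h3 hm.1.ne'
      · exact h3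
    rw [e]
    unfold pt
    have e2 : tr 0 ((wpar b zs).XM k) ((wpar b zs).cl k) ((wpar b zs).cr k) x = 0 := this
    rw [this, e2, mul_zero, mul_zero]
  · rw [hp] at e'
    have : tr 0 ((wparM b zs).XM k) ((wparM b zs).cl k) ((wparM b zs).cr k) x = 0 := by
      rcases mul_eq_zero.1 e'.symm with h3 | h3
      · exact absurd h3 hm.2.ne'
      · exact h3
    rw [e]
    unfold pt
    have e2 : tr 0 ((wpar b zs).XM k) ((wpar b zs).cl k) ((wpar b zs).cr k) x = 0 := this
    rw [this, e2, mul_zero, mul_zero]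

theorem VR_refl {n : ℝ} (hn : 4 ≤ n) {w w' : ℂ} {σ η : ℝ} (h0 : 1 / 4 < σ) (h1 : σ ≤ 1 / 2)
    (hη : 0 < η) : VR n w w' ⟨σ, η⟩ < VR n w w' ⟨-σ, η⟩ := by
  have hpi := Real.pi_pos
  have q : ∀ s : ℝ, (Real.pi * Complex.I * n * (⟨s, η⟩ : ℂ) ^ 2 + 2 * Real.pi * Complex.I * (⟨s, η⟩ : ℂ)).re =
      -(2 * Real.pi * n * s * η) - 2 * Real.pi * η := by
    intro s
    simp [pow_two]
    ring
  have a1 := ZD.ZO.fR_refl (x := w.re) (y := w.im) (σ := σ) (by linarith) h1 hη.le
  have a2 := ZD.ZO.fR_refl (x := w'.re) (y := w'.im) (σ := σ) (by linarith) h1 hη.le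
  rw [show (⟨w.re, w.im⟩ : ℂ) = w from rfl] at a1
  rw [show (⟨w'.re, w'.im⟩ : ℂ) = w' from rfl] at a2
  unfold fR at a1 a2
  unfold VR
  rw [q, q]
  have key : 4 * Real.pi * η < 4 * Real.pi * n * σ * η := by
    have : 1 < n * σ := by nlinarith
    have h2 : 0 < 4 * Real.pi * η := by positivity
    nlinarith
  linarith

/-- **At a maximiser the ring variable has real part at most `1/4` or is real.** -/
theorem MM.ring_sigma (hb : ClassW b) (L : LocA b zs) (hN : NbT b R nb) (hM : MM b zs R nb z p)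
    (v : ZZ (tyW b)) (hnt : ¬ Tch b R v.1) :
    ∃ σ : ℝ, |σ| ≤ 1 / 2 ∧ Ow b z v.1 1 = ⟨σ, (zs (.inr v)).im * LT.th σ⟩ ∧
      (σ ≤ 1 / 4 ∨ (zs (.inr v)).im * LT.th σ = 0) := by
  classical
  obtain ⟨hv, σ, hσ, hζ, -⟩ := hM.ringvar hb L hN v hnt
  refine ⟨σ, hσ, hζ, ?_⟩
  by_contra hc
  rw [not_or, not_le] at hc
  obtain ⟨c1, c2⟩ := hc
  have hρ0 := (L.L.rpos v).le
  have hη : 0 < (zs (.inr v)).im * LT.th σ :=
    lt_of_le_of_ne (mul_nonneg hρ0 (th_nonneg hσ)) (Ne.symm c2)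
  have hn : (4 : ℝ) ≤ ((b v.1).natAbs : ℝ) := by
    have := ring_four hb (tyW_ring v.2)
    exact_mod_cast this
  have hi := ring_cls hb v
  set ζ := LT.zt (zs (.inr v)).im (ofs (b v.1) (-σ)) with hζd
  have hmv : Mv b zs nb z p (Function.update z (.inr v) ζ) p := by
    refine ⟨fun k hk => ?_⟩
    by_cases hkv : k = .inr v
    · subst hkv
      refine ⟨hv, ?_⟩
      rw [Function.update_self]
      exact ⟨ofs (b v.1) (-σ), by rw [abs_ofs, abs_neg]; exact hσ, rfl⟩
    · rw [Function.update_of_ne hkv] at hk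
      rcases hk with h0 | h0 <;> exact absurd rfl h0
  have h1 := hM.step hb hN.ok.1 hmv {v.1} (by
    intro m hm k hk q
    by_cases hkv : k = .inr v
    · subst hkv
      by_contra h0
      exact hm (by rw [Finset.mem_singleton]; exact (cf_inr h0).symm)
    · rw [Function.update_of_ne hkv] at hk
      exact absurd rfl hk)
  rw [Finset.sum_singleton, Ow_upd_ring, hζd, ofz_zt2, ofs_ofs, th_neg,
    OV_ring hb hi (Ow_endOk z _), OV_ring hb hi (endOk_upd1 (Ow_endOk z _) _),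
    Function.update_self, Function.update_of_ne (by decide), Function.update_of_ne (by decide),
    hζ] at h1
  have h2 := VR_refl hn (w := Ow b z v.1 0) (w' := Ow b z v.1 2) c1 (abs_le.1 hσ).2 hη
  simp only [sub_self, Finset.sum_const_zero, mul_zero] at h1
  linarith

theorem trh_rr25 (A : Adj h i s j) (hi : clsW b i = .three) (hj : clsW b j = .ring) {x : ℝ}
    (h0 : 4 / 10 ≤ x) (h1 : x ≤ 6 / 10) : trh b h x = 10 / 3 * (6 / 10 - x) := by
  obtain ⟨-, p2, p3, p4, p5, p6, -⟩ := A.par_ring (by rw [hi]; decide) hj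
  have e1 : wXM b h = 60 / 100 := p2 (by rw [hi]; decide)
  have e2 : wcr b h = 30 / 100 := by
    rcases A.slot with hs | hs
    · exact (p3 hi hs).2
    · exact (p4 hi hs).2
  unfold trh
  rw [e1, e2, tr_c (by linarith [p5.1]) (by norm_num) (by linarith [p5.2]) (by norm_num; linarith)
    (by linarith)]
  ring

/-- **The hinge between an untouched `3` and a ring is lowered to `2/5`** (the ring side; all other
variables are kept). -/
theorem FarG.ring_lower (hb : ClassW b) (L : LocA b zs) (hN : NbT b R nb) (hM : MM b zs R nb z p)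
    (A : Adj h' i s j') (hc : clsW b i = .three) (hr : clsW b j' = .ring)
    (hn : Sum.inl (Sum.inl h') ∉ nb) (hp : p (.inl h') = 0) (x0 : 2 / 5 ≤ (z (.inl (.inl h'))).re) :
    FarG b zs nb z p h' j' (tg b zs h' (2 / 5)) (-(1 / 100)) := by
  have hi : clsW b i ≠ .ring := by rw [hc]; decide
  obtain ⟨x, hx0, hx1, ex⟩ := hM.on_main hn hp
  have ex' : z (.inl (.inl h')) = tg b zs h' x := ex
  have hxre : (z (.inl (.inl h'))).re = x := by rw [ex, ptm_re]
  rw [hxre] at x0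
  have eX : wXM b h' = 60 / 100 := (A.par_ring hi hr).2.1 (by rw [hc]; decide)
  have hx1' : x ≤ 6 / 10 := by
    have : x ≤ wXM b h' := hx1
    rw [eX] at this
    linarith
  have A' := A.symm
  -- the ring variable
  have hnt : ¬ Tch b R j' := hN.not_tch A' hn
  obtain ⟨v, hv⟩ : ∃ v : ZZ (tyW b), v.1 = j' := ⟨⟨j', by rw [tyW_of_ring hb hr]; rfl⟩, rfl⟩
  subst hv
  obtain ⟨σ, hσ, hζ, hs⟩ := hM.ring_sigma hb L hN v hnt
  have hρ0 := (L.L.rpos v).le
  have hρ1 := L.L.ring_height hb v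
  obtain ⟨t0, -, -, -, -, -, -, t1⟩ := Th_ring hb L A hi hr
  have key := ZD.ZO.gain (by linarith) hx1' t0 (t1 (Or.inl hc)) hσ hρ0 hρ1 hs
  have e1 : Ow b z v.1 s.rev = ⟨x, -(Th b zs h' i * (10 / 3 * (6 / 10 - x)))⟩ := by
    rw [Ow_adj z A', ex', ofr_tg]
    unfold tgo
    rw [Th_opp hb A hi, trh_rr25 A hc hr (by linarith) hx1', neg_mul]
  have e2 : tgo b zs h' v.1 (2 / 5) = ⟨4 / 10, -(Th b zs h' i * (2 / 3))⟩ := by
    unfold tgo
    rw [Th_opp hb A hi, trh_rr25 A hc hr (by norm_num) (by norm_num), neg_mul]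
    norm_num
  have k := SideG.keep (b := b) (zs := zs) (nb := nb) (z := z) (p := p) A' (tg b zs h' (2 / 5))
  have F := FarG.move hn (onP_tg (by norm_num) (by rw [eX]; norm_num)) k
  refine F.mono ?_
  rw [ofr_tg, hp, e2, mul_zero, add_zero, OV_ring hb hr (endOk_upd A' (Ow_endOk z _) _),
    OV_ring hb hr (Ow_endOk z _)]
  rcases A'.slot with h0 | h0
  · rw [h0] at e1 ⊢
    rw [Function.update_self, Function.update_of_ne (by decide), Function.update_of_ne (by decide),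
      e1, hζ]
    unfold fR at key
    unfold VR
    linarith
  · rw [h0] at e1 ⊢
    rw [Function.update_self, Function.update_of_ne (by decide), Function.update_of_ne (by decide),
      e1, hζ]
    unfold fR at key
    unfold VR
    linarith

end SR

end Pool.Agent.Work.MP_b30479_gt.G2
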