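import Pool.Agent.Work.MP_b30479_gt.G2.ZRA65w
import Pool.Agent.Work.MP_b30479_gt.G2.ZRA60w

/-!
# Rows at rings: `RowsA`, and the rows `b0`, `b0d` of `RowsB`
-/

namespace Pool.Agent.Work.MP_b30479_gt.G2

open VOL NumU

namespace ZD

theorem rowsA : RowsA where
  a65 := fun x Y σ η h0 h1 h2 h3 h4 h5 h6 => by
    have h := ZA.C65.row (x := x) (Y := Y) (σ := σ) (η := η) h0 (by linarith only [h1]) h2 (by linarith only [h3])
      h4 h5 h6
    push_cast at h
    linarith only [h]
  a65d := fun x Y σ η h0 h1 h2 h3 h4 h5 h6 =>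
    ZA.C65.rowd h0 (by linarith only [h1]) (by linarith only [h2]) h3 h4 h5 h6
  a60 := fun x Y σ η h0 h1 h2 h3 h4 h5 h6 => by
    have h := ZA.C60.row (x := x) (Y := Y) (σ := σ) (η := η) h0 (by linarith only [h1]) h2 (by linarith only [h3])
      h4 h5 h6
    push_cast at h
    linarith only [h]
  a60d := fun x Y σ η h0 h1 h2 h3 h4 h5 h6 =>
    ZA.C60.rowd h0 (by linarith only [h1]) (by linarith only [h2]) h3 h4 h5 h6

namespace ZA

theorem dz_val (x Y s e : ℝ) : dz.val [x, Y, s, e] = dA0 x Y := by
  simp only [dz, vx, vY, E.val, lk0, lk1, dA0]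
  push_cast
  ring

theorem dzy_val (x Y s e : ℝ) : dzy.val [x, Y, s, e] =
    Real.pi * (x - 1 / 2) + NumI.lnB x Y := by
  simp only [dzy, vx, vY, E.val, lk0, lk1]
  push_cast
  ring

theorem dzs_val (x Y s e : ℝ) : dzs.val [x, Y, s, e] =
    1 / (2 * Real.pi) * sq2 (qq Y) x + erR (qq Y) := by
  unfold dzs sq2
  simp only [E.val, er_val, qe_val, two, vx, vY, List.cons_append, List.nil_append,
    lk0, lk1, lk4]
  push_cast
  rw [show Real.pi * (2 / 1 * x) = 2 * Real.pi * x by ring,
    show Real.pi * (4 / 1 * x) = 4 * Real.pi * x by ring]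
  ring

end ZA

open ZA

theorem b0 : ∀ x Y : ℝ, 59996 / 100000 ≤ x → x ≤ 60 / 100 → 0 < Y → Y ≤ 13 / 100 →
    dA0 x Y - dA0 x 0 + Y / 1000 + PY Y * dA0 x Y ≤ 0 := by
  intro x Y h0 h1 h2 h3
  have hc : Continuous fun Y => dA0 x Y := by
    unfold dA0
    have c1 := cont_uu' (f := fun _ : ℝ => x) (g := fun Y : ℝ => Y) (by fun_prop) (by fun_prop)
    exact Continuous.sub (by fun_prop) c1
  have hd : ∀ y ∈ Set.Ioo (0 : ℝ) Y, HasDerivAt (fun Y => dA0 x Y)
      (Real.pi * (x - 1 / 2) + NumI.lnB x y) y := by
    intro y _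
    have c1 := uu_t0 (a := x) (τ := y) (by linarith only [h0, h2, h3]) (by linarith only [h1, h2, h3])
    have c2 := ((hasDerivAt_id y).const_mul (Real.pi * (x - 1 / 2))).sub c1
    refine c2.congr_deriv ?_
    ring
  have h := H_mono (K := 0 + ((0 : ℤ) : ℝ) / 1000) h2.le hc hd (fun y hy => by
    have h := ex1 (chkT4 C60.c_za (by norm_num) (x := x) (y := y) (z := 0) (w := 0)
      (by push_cast; linarith only [h0]) (by push_cast; linarith only [h1]) (by push_cast; linarith only [hy, hy.1])
      (by push_cast; linarith only [h3, hy, hy.2]) (by push_cast; linarith only []) (by push_cast; linarith only [])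
      (by push_cast; linarith only []) (by push_cast; linarith only []))
    rw [dD_val, dz_val, dzy_val, z0_val] at h
    exact C60.cmpD (by linarith only [h2, h3, hy, C60.PY_nonneg hy.1.le]) (by positivity) le_rfl le_rfl h)
  push_cast at h
  rw [C60.PY0] at h
  norm_num at h
  linarith only [h]

theorem b0d : ∀ x Y : ℝ, 59996 / 100000 ≤ x → x ≤ 60 / 100 → 13 / 100 ≤ Y → Y ≤ 1 →
    dA0 x Y ≤ 1 / 100 := by
  intro x Y h0 h1 h2 h3
  rcases le_total Y (43 / 100) with c | c
  · have h := ex1 (chkT4 C60.c_zb (by norm_num) (x := x) (y := Y) (z := 0) (w := 0)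
      (by push_cast; linarith only [h0]) (by push_cast; linarith only [h1]) (by push_cast; linarith only [h2])
      (by push_cast; linarith only [c]) (by push_cast; linarith only []) (by push_cast; linarith only [])
      (by push_cast; linarith only []) (by push_cast; linarith only []))
    rw [E.val, dz_val] at h
    simp only [E.val] at h
    push_cast at h
    linarith only [h]
  · have h := ex1 (chkT4 C60.c_zc (by norm_num) (x := x) (y := Y) (z := 0) (w := 0)
      (by push_cast; linarith only [h0]) (by push_cast; linarith only [h1]) (by push_cast; linarith only [c])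
      (by push_cast; linarith only [h3]) (by push_cast; linarith only []) (by push_cast; linarith only [])
      (by push_cast; linarith only []) (by push_cast; linarith only []))
    rw [E.val, dzs_val] at h
    simp only [E.val] at h
    push_cast at h
    have k := (abs_le.1 (uu_ser (a := x) (t := Y) (by linarith only [c]) (by linarith only [h0]) (by linarith only [h1]))).1
    unfold dA0
    unfold erR at h
    linarith only [h, k]

end ZD

end Pool.Agent.Work.MP_b30479_gt.G2
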