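import Pool.Agent.Work.MP_b30479_gt.G2.ZRAw
import Pool.Agent.Work.MP_b30479_gt.G2.ZRA65c
import Pool.Agent.Work.MP_b30479_gt.G2.RLevS

/-!
# Rows at rings, side of the ring, `x = .65`
-/

namespace Pool.Agent.Work.MP_b30479_gt.G2

open VOL NumU

namespace ZD

namespace ZA

namespace C65

theorem kc : UA.Kc (2 / 100) (15 / 100) := UA.kc_2_15

theorem an {s e u : ℝ} (h0 : 0 ≤ s) (hse : s ≤ e) (he : e ≤ 2 / 100) (hu : |u| ≤ 15 / 100) :
    uu e u ≤ uu s u := UA.anti kc (by norm_num) (by linarith only [h0]) hse he hu

theorem cmpD {P fy fy' q f f' B c : ℝ} (hP : 0 ≤ P) (hq : 0 ≤ q) (h1 : fy ≤ fy') (h2 : f ≤ f')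
    (h : 0 < -(P * fy' + (1 / 1000 + q * (f' - B - c)))) :
    P * fy + (1 / 1000 + q * (f - (B + c))) ≤ 0 := by
  have a1 := mul_le_mul_of_nonneg_left h1 hP
  have a2 := mul_le_mul_of_nonneg_left (sub_le_sub_right h2 (B + c)) hq
  have e : q * (f' - B - c) = q * (f' - (B + c)) := by ring
  rw [e] at h
  linarith only [h, a1, a2]

theorem cmpF {P f f' f0 f0' B c y : ℝ} (hP : 0 ≤ P) (h1 : f ≤ f') (h2 : f0' ≤ f0)
    (h : 0 < -(f' - f0' + (y + P * (f' - B - c)))) :
    f - f0 + (y + P * (f - B - c)) ≤ 0 := by
  have a1 : P * (f - B - c) ≤ P * (f' - B - c) :=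
    mul_le_mul_of_nonneg_left (by linarith only [h1]) hP
  linarith only [h1, h2, h, a1]

theorem PY_nonneg {Y : ℝ} (h : 0 ≤ Y) : 0 ≤ PY Y := by
  unfold PY
  positivity

/-! ### right -/

theorem R_der {x Y s e : ℝ} (x0 : 64996 / 100000 ≤ x) (x1 : x ≤ 65000 / 100000) (Y0 : 0 ≤ Y)
    (Y1 : Y ≤ 12 / 100) (s0 : 0 < s) (s1 : s ≤ 1 - x) (e0 : 0 ≤ e) (e1 : e ≤ 1045 / 10000)
    (e2 : e ≤ 418 / 1000 * (1 - x - s)) :
    (1 + PY Y) * FRy x Y s e + (1 / 1000 + (49 / 5 + 270 * Y ^ 2) *
      (FR x Y s e - (2 * Real.pi * e * (x - 1 / 2 + s) + ((5 : ℤ) : ℝ) / 1000))) ≤ 0 := by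
  have hP : 0 ≤ 1 + PY Y := by linarith only [x0, s0, s1, Y0, PY_nonneg Y0]
  have hq : 0 ≤ 49 / 5 + 270 * Y ^ 2 := by positivity
  rcases le_total s (2 / 1000) with c | c
  · rcases le_total e Y with c1 | c1
    · have h := ex1 (exd (l := [_]) (chkT4 c_rc (by norm_num) (x := x) (y := Y) (z := s) (w := e)
        (by push_cast; linarith only [x0]) (by push_cast; linarith only [x1]) (by push_cast; linarith only [Y0])
        (by push_cast; linarith only [Y1]) (by push_cast; linarith only [s0]) (by push_cast; linarith only [c])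
        (by push_cast; linarith only [e0]) (by push_cast; linarith only [e1])) (vYe_no c1))
      rw [dD_val, fR_val, fRy_val, w2_val, hpi_val, br_val] at h
      refine cmpD hP hq ?_ ?_ h
      · have := lnB_le s (Y - e)
        unfold FRy
        linarith only [this]
      · have := an s0.le c (by norm_num) (u := Y - e) (by rw [abs_le]; constructor <;> linarith only [Y0, s0, e1, c, Y1, e0])
        unfold FR
        linarith only [this]
    · have h := ex1 (exd (l := [_]) (chkT4 c_rd (by norm_num) (x := x) (y := Y) (z := s) (w := e)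
        (by push_cast; linarith only [x0]) (by push_cast; linarith only [x1]) (by push_cast; linarith only [Y0])
        (by push_cast; linarith only [Y1]) (by push_cast; linarith only [s0]) (by push_cast; linarith only [c])
        (by push_cast; linarith only [e0]) (by push_cast; linarith only [e1])) (vYg_no c1))
      rw [dD_val, fR_val, fRy_val, w2_val, l2_val, br_val] at h
      refine cmpD hP hq ?_ ?_ h
      · have := lnB_mono s0 c (by norm_num) (t := Y - e) (by linarith only [c1])
        unfold FRy
        linarith only [this]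
      · have := an s0.le c (by norm_num) (u := Y - e) (by rw [abs_le]; constructor <;> linarith only [Y0, s0, e1, c, Y1, e0])
        unfold FR
        linarith only [this]
  · rcases le_total s (1 / 100) with c1 | c1
    · rcases ex2 (exd (l := [_, _]) (chkT4 c_ra (by norm_num) (x := x) (y := Y) (z := s) (w := e)
        (by push_cast; linarith only [x0]) (by push_cast; linarith only [x1]) (by push_cast; linarith only [Y0])
        (by push_cast; linarith only [Y1]) (by push_cast; linarith only [c]) (by push_cast; linarith only [c1])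
        (by push_cast; linarith only [e0]) (by push_cast; linarith only [e1])) (vio_no e2)) with h | h
      · rw [dD_val, fR_val, fRy_val, w1_val, l1_val, br_val] at h
        refine cmpD hP hq ?_ ?_ h
        · unfold FRy
          exact le_rfl
        · unfold FR
          linarith only []
      · have h := ex1 h
        rw [dD_val, fR_val, fRy_val, w1_val, hpi_val, br_val] at h
        refine cmpD hP hq ?_ ?_ h
        · have := lnB_le s (Y - e)
          unfold FRy
          linarith only [this]
        · unfold FR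
          linarith only []
    · have h := ex1 (exd (l := [_]) (chkT4 c_rb (by norm_num) (x := x) (y := Y) (z := s) (w := e)
        (by push_cast; linarith only [x0]) (by push_cast; linarith only [x1]) (by push_cast; linarith only [Y0])
        (by push_cast; linarith only [Y1]) (by push_cast; linarith only [c1]) (by push_cast; linarith only [x0, s1])
        (by push_cast; linarith only [e0]) (by push_cast; linarith only [e1])) (vio_no e2))
      rw [dD_val, fR_val, fRy_val, w1_val, l1_val, br_val] at h
      refine cmpD hP hq ?_ ?_ h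
      · unfold FRy
        exact le_rfl
      · unfold FR
        linarith only []

theorem R_dir {x Y s e : ℝ} (x0 : 64996 / 100000 ≤ x) (x1 : x ≤ 65000 / 100000) (Y0 : 12 / 100 ≤ Y)
    (Y1 : Y ≤ 25000 / 100000) (s0 : 0 ≤ s) (s1 : s ≤ 1 - x) (e0 : 0 ≤ e) (e1 : e ≤ 1045 / 10000)
    (e2 : e ≤ 418 / 1000 * (1 - x - s)) :
    FR x Y s e - OR x s e + (Y / 1000 + PY Y * (FR x Y s e -
      2 * Real.pi * e * (x - 1 / 2 + s) - ((5 : ℤ) : ℝ) / 1000)) ≤ 0 := by
  have hP : 0 ≤ PY Y := PY_nonneg (by linarith only [Y0])
  rcases le_total s (2 / 1000) with c | c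
  · have h := ex1 (chkT4 c_rB (by norm_num) (x := x) (y := Y) (z := s) (w := e)
      (by push_cast; linarith only [x0]) (by push_cast; linarith only [x1]) (by push_cast; linarith only [Y0])
      (by push_cast; linarith only [Y1]) (by push_cast; linarith only [s0]) (by push_cast; linarith only [c])
      (by push_cast; linarith only [e0]) (by push_cast; linarith only [e1]))
    rw [dF_val, fR_val, f0R_val, w3_val, w5_val, g1_val, br_val] at h
    refine cmpF hP ?_ ?_ h
    · have := thin s0 c (by norm_num) (u := Y - e) (by rw [abs_le]; constructor <;> linarith only [Y0, e1, Y1, e0])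
      unfold FR
      linarith only [s0, this]
    · have := UA.le_zero kc (by norm_num) (b := s) (y := e) s0 (by linarith only [c])
        (by rw [abs_le]; constructor <;> linarith only [e0, e1])
      rw [abs_of_nonneg e0] at this
      unfold OR
      linarith only [this]
  · have h := ex1 (exd (l := [_]) (chkT4 c_rA (by norm_num) (x := x) (y := Y) (z := s) (w := e)
      (by push_cast; linarith only [x0]) (by push_cast; linarith only [x1]) (by push_cast; linarith only [Y0])
      (by push_cast; linarith only [Y1]) (by push_cast; linarith only [c]) (by push_cast; linarith only [x0, s1])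
      (by push_cast; linarith only [e0]) (by push_cast; linarith only [e1])) (vio_no e2))
    rw [dF_val, fR_val, f0R_val, w1_val, w4_val, g1_val, br_val] at h
    refine cmpF hP ?_ ?_ h
    · unfold FR
      linarith only []
    · unfold OR
      linarith only []

/-! ### left (`e ≤ 0`) -/

theorem L_der {x Y s e : ℝ} (x0 : 64996 / 100000 ≤ x) (x1 : x ≤ 65000 / 100000) (Y0 : 0 ≤ Y)
    (Y1 : Y ≤ 12 / 100) (s0 : 0 < s) (s1 : s ≤ 1 - x) (e0 : e ≤ 0) (e1 : -(1045 / 10000) ≤ e)
    (e2 : -e ≤ 418 / 1000 * (1 - x - s)) (e3 : 0 ≤ e + Y) :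
    (1 + PY Y) * FRy x Y s e + (1 / 1000 + (49 / 5 + 270 * Y ^ 2) *
      (FR x Y s e - (0 + ((5 : ℤ) : ℝ) / 1000))) ≤ 0 := by
  have hP : 0 ≤ 1 + PY Y := by linarith only [x0, s0, s1, Y0, PY_nonneg Y0]
  have hq : 0 ≤ 49 / 5 + 270 * Y ^ 2 := by positivity
  rcases le_total s (2 / 1000) with c | c
  · have h := ex1 (exd (l := [_]) (chkT4 c_lc (by norm_num) (x := x) (y := Y) (z := s) (w := e)
      (by push_cast; linarith only [x0]) (by push_cast; linarith only [x1]) (by push_cast; linarith only [Y0])
      (by push_cast; linarith only [Y1]) (by push_cast; linarith only [s0]) (by push_cast; linarith only [c])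
      (by push_cast; linarith only [e1]) (by push_cast; linarith only [e0])) (vYn_no e3))
    rw [dD_val, fR_val, fRy_val, w3_val, hpi_val, z0_val] at h
    refine cmpD hP hq ?_ ?_ h
    · have := lnB_le s (Y - e)
      unfold FRy
      linarith only [this]
    · have := thin s0.le c (by norm_num) (u := Y - e) (by rw [abs_le]; constructor <;> linarith only [Y0, s0, e0, c, Y1, e1])
      unfold FR
      linarith only [s0, this]
  · rcases le_total s (1 / 100) with c1 | c1
    · rcases ex2 (exd (l := [_, _]) (exd (l := [_, _, _]) (chkT4 c_la (by norm_num) (x := x)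
        (y := Y) (z := s) (w := e)
        (by push_cast; linarith only [x0]) (by push_cast; linarith only [x1]) (by push_cast; linarith only [Y0])
        (by push_cast; linarith only [Y1]) (by push_cast; linarith only [c]) (by push_cast; linarith only [c1])
        (by push_cast; linarith only [e1]) (by push_cast; linarith only [e0])) (vioN_no e2)) (vYn_no e3)) with h | h
      · rw [dD_val, fR_val, fRy_val, w1_val, l1_val, z0_val] at h
        refine cmpD hP hq ?_ ?_ h
        · unfold FRy
          exact le_rfl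
        · unfold FR
          linarith only []
      · have h := ex1 h
        rw [dD_val, fR_val, fRy_val, w1_val, hpi_val, z0_val] at h
        refine cmpD hP hq ?_ ?_ h
        · have := lnB_le s (Y - e)
          unfold FRy
          linarith only [this]
        · unfold FR
          linarith only []
    · have h := ex1 (exd (l := [_]) (exd (l := [_, _]) (chkT4 c_lb (by norm_num) (x := x)
        (y := Y) (z := s) (w := e)
        (by push_cast; linarith only [x0]) (by push_cast; linarith only [x1]) (by push_cast; linarith only [Y0])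
        (by push_cast; linarith only [Y1]) (by push_cast; linarith only [c1]) (by push_cast; linarith only [x0, s1])
        (by push_cast; linarith only [e1]) (by push_cast; linarith only [e0])) (vioN_no e2)) (vYn_no e3))
      rw [dD_val, fR_val, fRy_val, w1_val, l1_val, z0_val] at h
      refine cmpD hP hq ?_ ?_ h
      · unfold FRy
        exact le_rfl
      · unfold FR
        linarith only []

theorem OR_neg (x s e : ℝ) : OR x s (-e) =
    uu (2 * x - 1 + s) e - uu s e - 2 * uu x 0 - Real.pi * e := by
  unfold OR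
  rw [uu_neg, uu_neg]
  ring

theorem L_dir {x Y s e : ℝ} (x0 : 64996 / 100000 ≤ x) (x1 : x ≤ 65000 / 100000) (Y0 : 12 / 100 ≤ Y)
    (Y1 : Y ≤ 25000 / 100000) (s0 : 0 ≤ s) (s1 : s ≤ 1 - x) (e0 : e ≤ 0) (e1 : -(1045 / 10000) ≤ e)
    (e2 : -e ≤ 418 / 1000 * (1 - x - s)) :
    FR x Y s e - OR x s (-e) + (Y / 1000 + PY Y * (FR x Y s e -
      0 - ((5 : ℤ) : ℝ) / 1000)) ≤ 0 := by
  have hP : 0 ≤ PY Y := PY_nonneg (by linarith only [Y0])
  rw [OR_neg]
  rcases le_total s (2 / 1000) with c | c
  · have h := ex1 (chkT4 c_lB (by norm_num) (x := x) (y := Y) (z := s) (w := e)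
      (by push_cast; linarith only [x0]) (by push_cast; linarith only [x1]) (by push_cast; linarith only [Y0])
      (by push_cast; linarith only [Y1]) (by push_cast; linarith only [s0]) (by push_cast; linarith only [c])
      (by push_cast; linarith only [e1]) (by push_cast; linarith only [e0]))
    rw [dF_val, fR_val, f0R_val, w3_val, w6_val, g2_val, z0_val] at h
    refine cmpF hP ?_ ?_ h
    · have := thin s0 c (by norm_num) (u := Y - e) (by rw [abs_le]; constructor <;> linarith only [Y0, e0, Y1, e1])
      unfold FR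
      linarith only [s0, this]
    · have := UA.le_zero kc (by norm_num) (b := s) (y := e) s0 (by linarith only [c])
        (by rw [abs_le]; constructor <;> linarith only [e1, e0])
      rw [abs_of_nonpos e0] at this
      linarith only [this]
  · have h := ex1 (exd (l := [_]) (chkT4 c_lA (by norm_num) (x := x) (y := Y) (z := s) (w := e)
      (by push_cast; linarith only [x0]) (by push_cast; linarith only [x1]) (by push_cast; linarith only [Y0])
      (by push_cast; linarith only [Y1]) (by push_cast; linarith only [c]) (by push_cast; linarith only [x0, s1])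
      (by push_cast; linarith only [e1]) (by push_cast; linarith only [e0])) (vioN_no e2))
    rw [dF_val, fR_val, f0R_val, w1_val, w4_val, g2_val, z0_val] at h
    refine cmpF hP ?_ ?_ h
    · unfold FR
      linarith only []
    · linarith only []

/-! ### between -/

theorem M_dir {x Y s e : ℝ} (x0 : 64996 / 100000 ≤ x) (x1 : x ≤ 65000 / 100000) (Y0 : 5 / 1000 ≤ Y)
    (Y1 : Y ≤ 25000 / 100000) (s0 : 0 ≤ s) (s1 : s ≤ 2 * x - 1) (e0 : 0 ≤ e) (e1 : e ≤ 1045 / 10000)
    (e2 : e ≤ Y) :
    FM x Y s e - OM x s e + (Y / 1000 + PY Y * (FM x Y s e -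
      0 - ((5 : ℤ) : ℝ) / 1000)) ≤ 0 := by
  have hP : 0 ≤ PY Y := PY_nonneg (by linarith only [Y0])
  rcases le_total s (2 / 10000) with c | c
  · have hf0 : uu (2 * x - 1 - s) e + uu (2 / 10000) e + 2 * (Real.pi * e) - 2 * uu x 0 ≤
        OM x s e := by
      have := an s0 c (by norm_num) (u := e) (by rw [abs_le]; constructor <;> linarith only [e0, e1])
      unfold OM
      linarith only [this]
    rcases le_total Y (2 / 100) with c1 | c1
    · have h := ex1 (exd (l := [_]) (chkT4 c_mb0 (by norm_num) (x := x) (y := Y) (z := s) (w := e)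
        (by push_cast; linarith only [x0]) (by push_cast; linarith only [x1]) (by push_cast; linarith only [Y0])
        (by push_cast; linarith only [c1]) (by push_cast; linarith only [s0]) (by push_cast; linarith only [c])
        (by push_cast; linarith only [e0]) (by push_cast; linarith only [e2, c1])) (vYe_no e2))
      rw [dF_val, fm_val, f0M_val, a1_val, b2_val, a10_val, e20_val, z0_val] at h
      refine cmpF hP ?_ hf0 h
      have := UA.le_zero kc (by norm_num) (b := s) (y := Y - e) s0 (by linarith only [c])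
        (by rw [abs_le]; constructor <;> linarith only [Y0, e1, e0, c1])
      rw [abs_of_nonneg (by linarith only [e2] : 0 ≤ Y - e)] at this
      unfold FM
      linarith only [this]
    · have h := ex1 (exd (l := [_]) (chkT4 c_mb (by norm_num) (x := x) (y := Y) (z := s) (w := e)
        (by push_cast; linarith only [x0]) (by push_cast; linarith only [x1]) (by push_cast; linarith only [c1])
        (by push_cast; linarith only [Y1]) (by push_cast; linarith only [s0]) (by push_cast; linarith only [c])
        (by push_cast; linarith only [e0]) (by push_cast; linarith only [e1])) (vYe_no e2))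
      rw [dF_val, fm_val, f0M_val, a1_val, b3_val, a10_val, e20_val, z0_val] at h
      refine cmpF hP ?_ hf0 h
      have := thin (s := 0) (e := s) le_rfl s0 (by linarith only [x1, s1]) (u := Y - e)
        (by rw [abs_le]; constructor <;> linarith only [e1, c1, Y1, e0])
      rw [UA.uu_zero, abs_of_nonneg (by linarith only [e2] : 0 ≤ Y - e)] at this
      unfold FM
      linarith only [c, this]
  rcases le_total (29970 / 100000) s with c2 | c2
  · have b0 : 0 ≤ 2 * x - 1 - s := by linarith only [s1]
    have b1 : 2 * x - 1 - s ≤ 3 / 10000 := by linarith only [x1, c2]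
    have hf0 : uu (3 / 10000) e + uu s e + 2 * (Real.pi * e) - 2 * uu x 0 ≤ OM x s e := by
      have := an b0 b1 (by norm_num) (u := e) (by rw [abs_le]; constructor <;> linarith only [e0, e1])
      unfold OM
      linarith only [this]
    rcases le_total Y (2 / 100) with c1 | c1
    · have h := ex1 (exd (l := [_]) (chkT4 c_mc0 (by norm_num) (x := x) (y := Y) (z := s) (w := e)
        (by push_cast; linarith only [x0]) (by push_cast; linarith only [x1]) (by push_cast; linarith only [Y0])
        (by push_cast; linarith only [c1]) (by push_cast; linarith only [c2]) (by push_cast; linarith only [x1, s1])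
        (by push_cast; linarith only [e0]) (by push_cast; linarith only [e2, c1])) (vYe_no e2))
      rw [dF_val, fm_val, f0M_val, a2_val, b1_val, e30_val, b10_val, z0_val] at h
      refine cmpF hP ?_ hf0 h
      have := UA.le_zero kc (by norm_num) (b := 2 * x - 1 - s) (y := Y + e) b0 (by linarith only [x1, c2])
        (by rw [abs_le]; constructor <;> linarith only [Y0, e0, e1, c1])
      rw [abs_of_nonneg (by linarith only [Y0, e0] : 0 ≤ Y + e)] at this
      unfold FM
      linarith only [this]
    · have h := ex1 (exd (l := [_]) (chkT4 c_mc (by norm_num) (x := x) (y := Y) (z := s) (w := e)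
        (by push_cast; linarith only [x0]) (by push_cast; linarith only [x1]) (by push_cast; linarith only [c1])
        (by push_cast; linarith only [Y1]) (by push_cast; linarith only [c2]) (by push_cast; linarith only [x1, s1])
        (by push_cast; linarith only [e0]) (by push_cast; linarith only [e1])) (vYe_no e2))
      rw [dF_val, fm_val, f0M_val, a3_val, b1_val, e30_val, b10_val, z0_val] at h
      refine cmpF hP ?_ hf0 h
      have := thin (s := 0) (e := 2 * x - 1 - s) le_rfl b0 (by linarith only [x1, c2]) (u := Y + e)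
        (by rw [abs_le]; constructor <;> linarith only [e0, c1, Y1, e1])
      rw [UA.uu_zero, abs_of_nonneg (by linarith only [e0, c1] : 0 ≤ Y + e)] at this
      unfold FM
      linarith only [x1, c2, this]
  have h := ex1 (exd (l := [_]) (chkT4 c_ma (by norm_num) (x := x) (y := Y) (z := s) (w := e)
    (by push_cast; linarith only [x0]) (by push_cast; linarith only [x1]) (by push_cast; linarith only [Y0])
    (by push_cast; linarith only [Y1]) (by push_cast; linarith only [c]) (by push_cast; linarith only [c2])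
    (by push_cast; linarith only [e0]) (by push_cast; linarith only [e1])) (vYe_no e2))
  rw [dF_val, fm_val, f0M_val, a1_val, b1_val, a10_val, b10_val, z0_val] at h
  refine cmpF hP ?_ ?_ h
  · unfold FM
    linarith only []
  · unfold OM
    linarith only []

theorem M_der0 {x Y s : ℝ} (x0 : 64996 / 100000 ≤ x) (x1 : x ≤ 65000 / 100000) (Y0 : 0 ≤ Y)
    (Y1 : Y ≤ 5 / 1000) (s0 : 0 < s) (s1 : s ≤ 2 * x - 1 - s) :
    (1 + PY Y) * FMy x Y s + (1 / 1000 + (49 / 5 + 270 * Y ^ 2) *
      (FM x Y s 0 - (0 + ((5 : ℤ) : ℝ) / 1000))) ≤ 0 := by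
  have hP : 0 ≤ 1 + PY Y := by linarith only [Y0, PY_nonneg Y0]
  have hq : 0 ≤ 49 / 5 + 270 * Y ^ 2 := by positivity
  have hl := lnB_nonneg s0 (by linarith only [x1, s0, s1]) Y0
  rcases le_total s (2 / 10000) with c | c
  · have hz := UA.le_zero kc (by norm_num) (b := s) (y := Y) s0.le (by linarith only [s0, c])
      (by rw [abs_le]; constructor <;> linarith only [Y0, s0, c, Y1])
    rw [abs_of_nonneg Y0] at hz
    rcases ex2 (chkT4 c_nb (by norm_num) (x := x) (y := Y) (z := s) (w := 0)
        (by push_cast; linarith only [x0]) (by push_cast; linarith only [x1]) (by push_cast; linarith only [Y0])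
        (by push_cast; linarith only [Y1]) (by push_cast; linarith only [s0]) (by push_cast; linarith only [c])
        (by push_cast; linarith only []) (by push_cast; linarith only [])) with h | h
    · rw [dD_val, fM0_val, fMy_val, bb2_val, lb2_val, z0_val] at h
      refine cmpD hP hq ?_ ?_ h
      · have := lnB_anti s0 c (by norm_num) Y0
        unfold FMy
        linarith only [this]
      · unfold FM
        rw [add_zero, sub_zero]
        linarith only [hz]
    · have h := ex1 h
      rw [dD_val, fM0_val, fMy_val, bb2_val, z0_val] at h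
      refine cmpD hP hq ?_ ?_ h
      · unfold FMy
        linarith only [hl]
      · unfold FM
        rw [add_zero, sub_zero]
        linarith only [hz]
  · rcases ex2 (chkT4 c_na (by norm_num) (x := x) (y := Y) (z := s) (w := 0)
        (by push_cast; linarith only [x0]) (by push_cast; linarith only [x1]) (by push_cast; linarith only [Y0])
        (by push_cast; linarith only [Y1]) (by push_cast; linarith only [c]) (by push_cast; linarith only [x1, s1])
        (by push_cast; linarith only []) (by push_cast; linarith only [])) with h | h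
    · rw [dD_val, fM0_val, fMy_val, bb1_val, lb1_val, z0_val] at h
      refine cmpD hP hq ?_ ?_ h
      · unfold FMy
        linarith only []
      · unfold FM
        rw [add_zero, sub_zero]
    · have h := ex1 h
      rw [dD_val, fM0_val, fMy_val, bb1_val, z0_val] at h
      refine cmpD hP hq ?_ ?_ h
      · unfold FMy
        linarith only [hl]
      · unfold FM
        rw [add_zero, sub_zero]

theorem M_der {x Y s : ℝ} (x0 : 64996 / 100000 ≤ x) (x1 : x ≤ 65000 / 100000) (Y0 : 0 ≤ Y)
    (Y1 : Y ≤ 5 / 1000) (s0 : 0 < s) (s1 : s < 2 * x - 1) :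
    (1 + PY Y) * FMy x Y s + (1 / 1000 + (49 / 5 + 270 * Y ^ 2) *
      (FM x Y s 0 - (0 + ((5 : ℤ) : ℝ) / 1000))) ≤ 0 := by
  rcases le_total s (2 * x - 1 - s) with h | h
  · exact M_der0 x0 x1 Y0 Y1 s0 h
  · have := M_der0 (s := 2 * x - 1 - s) x0 x1 Y0 Y1 (by linarith only [s1]) (by linarith only [h])
    have e : 2 * x - 1 - (2 * x - 1 - s) = s := by ring
    unfold FMy FM at this ⊢
    rw [e, add_zero, sub_zero] at this
    rw [add_zero, sub_zero]
    have e1 : uu s Y + uu (2 * x - 1 - s) Y = uu (2 * x - 1 - s) Y + uu s Y := add_comm _ _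
    have e2 : Real.pi - NumI.lnB s Y - NumI.lnB (2 * x - 1 - s) Y =
        Real.pi - NumI.lnB (2 * x - 1 - s) Y - NumI.lnB s Y := by ring
    rw [e1, e2] at this
    exact this

/-! ### the values at `0` -/

theorem K_M {x s e : ℝ} (x0 : 64996 / 100000 ≤ x) (x1 : x ≤ 65000 / 100000)
    (s0 : 0 ≤ s) (s1 : s ≤ 2 * x - 1) (e0 : 0 ≤ e) (e1 : e ≤ 1045 / 10000) :
    OM x s e ≤ 16 / 100 := by
  rcases le_total s (2 / 10000) with c | c
  · have h := ex1 (chkT4 c_kb (by norm_num) (x := x) (y := 0) (z := s) (w := e)
      (by push_cast; linarith only [x0]) (by push_cast; linarith only [x1]) (by push_cast; linarith only [])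
      (by push_cast; linarith only []) (by push_cast; linarith only [s0]) (by push_cast; linarith only [c])
      (by push_cast; linarith only [e0]) (by push_cast; linarith only [e1]))
    rw [E.val, f0M_val, a10_val, w6_val] at h
    have := UA.le_zero kc (by norm_num) (b := s) (y := e) s0 (by linarith only [c])
      (by rw [abs_le]; constructor <;> linarith only [e0, e1])
    rw [abs_of_nonneg e0] at this
    simp only [E.val] at h
    push_cast at h
    unfold OM
    linarith only [this, h]
  rcases le_total (29970 / 100000) s with c2 | c2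
  · have b0 : 0 ≤ 2 * x - 1 - s := by linarith only [s1]
    have b1 : 2 * x - 1 - s ≤ 3 / 10000 := by linarith only [x1, c2]
    have h := ex1 (chkT4 c_kc (by norm_num) (x := x) (y := 0) (z := s) (w := e)
      (by push_cast; linarith only [x0]) (by push_cast; linarith only [x1]) (by push_cast; linarith only [])
      (by push_cast; linarith only []) (by push_cast; linarith only [c2]) (by push_cast; linarith only [x1, s1])
      (by push_cast; linarith only [e0]) (by push_cast; linarith only [e1]))
    rw [E.val, f0M_val, b10_val, w6_val] at h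
    have := UA.le_zero kc (by norm_num) (b := 2 * x - 1 - s) (y := e) b0 (by linarith only [x1, c2])
      (by rw [abs_le]; constructor <;> linarith only [e0, e1])
    rw [abs_of_nonneg e0] at this
    simp only [E.val] at h
    push_cast at h
    unfold OM
    linarith only [this, h]
  have h := ex1 (chkT4 c_ka (by norm_num) (x := x) (y := 0) (z := s) (w := e)
    (by push_cast; linarith only [x0]) (by push_cast; linarith only [x1]) (by push_cast; linarith only [])
    (by push_cast; linarith only []) (by push_cast; linarith only [c]) (by push_cast; linarith only [c2])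
    (by push_cast; linarith only [e0]) (by push_cast; linarith only [e1]))
  rw [E.val, f0M_val, b10_val, a10_val] at h
  simp only [E.val] at h
  push_cast at h
  unfold OM
  linarith only [h]

theorem K_L {x s e : ℝ} (x0 : 64996 / 100000 ≤ x) (x1 : x ≤ 65000 / 100000)
    (s0 : 0 ≤ s) (s1 : s ≤ 1 - x) (e0 : 0 ≤ e) (e1 : e ≤ 1045 / 10000)
    (e2 : e ≤ 418 / 1000 * (1 - x - s)) :
    OR x s e ≤ 30 / 100 := by
  rcases le_total s (2 / 1000) with c | c
  · have h := ex1 (chkT4 c_ke (by norm_num) (x := x) (y := 0) (z := s) (w := e)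
      (by push_cast; linarith only [x0]) (by push_cast; linarith only [x1]) (by push_cast; linarith only [])
      (by push_cast; linarith only []) (by push_cast; linarith only [s0]) (by push_cast; linarith only [c])
      (by push_cast; linarith only [e0]) (by push_cast; linarith only [e1]))
    rw [E.val, f0R_val, g1_val] at h
    have := an s0 c (by norm_num) (u := e) (by rw [abs_le]; constructor <;> linarith only [e0, e1])
    simp only [E.val, ep, ve, lk3] at h
    norm_num at h
    unfold OR
    linarith only [this, h]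
  · have h := ex1 (exd (l := [_]) (chkT4 c_kd (by norm_num) (x := x) (y := 0) (z := s) (w := e)
      (by push_cast; linarith only [x0]) (by push_cast; linarith only [x1]) (by push_cast; linarith only [])
      (by push_cast; linarith only []) (by push_cast; linarith only [c]) (by push_cast; linarith only [x0, s1])
      (by push_cast; linarith only [e0]) (by push_cast; linarith only [e1])) (vio_no e2))
    rw [E.val, f0R_val, g1_val, w4_val] at h
    simp only [E.val] at h
    push_cast at h
    unfold OR
    linarith only [h]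

/-! ### the row near `0` -/

theorem PY0 : PY 0 = 0 := by
  unfold PY
  norm_num

theorem row_R {x Y s e : ℝ} (x0 : 64996 / 100000 ≤ x) (x1 : x ≤ 65000 / 100000) (Y0 : 0 < Y)
    (Y1 : Y ≤ 25000 / 100000) (s0 : 0 < s) (s1 : s ≤ 1 - x) (e0 : 0 ≤ e) (e1 : e ≤ 1045 / 10000)
    (e2 : e ≤ 418 / 1000 * (1 - x - s)) :
    FR x Y s e - OR x s e + (Y / 1000 + PY Y * (FR x Y s e -
      2 * Real.pi * e * (x - 1 / 2 + s) - ((5 : ℤ) : ℝ) / 1000)) ≤ 0 := by
  rcases le_total Y (12 / 100) with c | c
  · have h := H_mono (f := fun Y => FR x Y s e) (f' := fun Y => FRy x Y s e) (a := 0) (b := Y)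
      (K := 2 * Real.pi * e * (x - 1 / 2 + s) + ((5 : ℤ) : ℝ) / 1000) Y0.le (FR_cont x s e)
      (fun y _ => FR_deriv (by linarith only [x0, Y0, c]) (by linarith only [x1, Y0, c]) s0 (by linarith only [x0, Y0, s1, c]) (by linarith only [x1, Y0, s1, c]))
      (fun y hy => R_der x0 x1 hy.1.le (by linarith only [c, hy, hy.2]) s0 s1 e0 e1 e2)
    have e9 : FR x 0 s e = OR x s e := by
      unfold FR OR
      rw [zero_add, zero_sub, uu_neg]
    rw [e9, PY0, zero_mul, zero_div, add_zero, add_zero, ← sub_sub] at h
    linarith only [h]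
  · exact R_dir x0 x1 c Y1 s0.le s1 e0 e1 e2

theorem row_L {x Y s e : ℝ} (x0 : 64996 / 100000 ≤ x) (x1 : x ≤ 65000 / 100000) (Y0 : 0 < Y)
    (Y1 : Y ≤ 25000 / 100000) (s0 : 0 < s) (s1 : s ≤ 1 - x) (e0 : 0 ≤ e) (e1 : e ≤ 1045 / 10000)
    (e2 : e ≤ 418 / 1000 * (1 - x - s)) :
    fA x Y (-(x - 1 / 2) - s) e - OR x s e + (Y / 1000 + PY Y * (fA x Y (-(x - 1 / 2) - s) e -
      0 - ((5 : ℤ) : ℝ) / 1000)) ≤ 0 := by
  have hlow : ∀ y, 0 ≤ y → y ≤ e → fA x y (-(x - 1 / 2) - s) e - OR x s e + (y / 1000 + PY y *
      (fA x y (-(x - 1 / 2) - s) e - 0 - ((5 : ℤ) : ℝ) / 1000)) ≤ 0 := by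
    intro y y0 y1
    refine low_fin (K := 30 / 100) (m := Real.pi) y0 (by linarith only [Y0, Y1, e1, y1]) (low_L (by linarith only [x0, Y0, Y1]) y0 y1 s0.le
      (by linarith only [x0, Y0, Y1, s1]) (by linarith only [x1, Y0, Y1, s1]) (by linarith only [x1, Y0, Y1])) (by linarith only [Y0, Y1, Real.pi_gt_three]) le_rfl
      (K_L x0 x1 s0.le s1 e0 e1 e2) (by push_cast; norm_num) (by
        push_cast
        linarith only [Y0, Y1, Real.pi_gt_three])
  rcases le_total Y e with c | c
  · exact hlow Y Y0.le c
  rcases le_total Y (12 / 100) with c1 | c1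
  · have h := H_mono (f := fun Y => FR x Y s (-e)) (f' := fun Y => FRy x Y s (-e)) (a := e) (b := Y)
      (K := 0 + ((5 : ℤ) : ℝ) / 1000) c (FR_cont x s (-e))
      (fun y _ => FR_deriv (by linarith only [x0, Y0, c1]) (by linarith only [x1, Y0, c1]) s0 (by linarith only [x0, Y0, s1, c1]) (by linarith only [x1, Y0, s1, c1]))
      (fun y hy => L_der x0 x1 (by linarith only [e0, hy, hy.1]) (by linarith only [c1, hy, hy.2]) s0 s1 (by linarith only [e0])
        (by linarith only [e1]) (by linarith only [e2]) (by linarith only [hy, hy.1]))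
    have h1 := hlow e e0 le_rfl
    rw [fA_L le_rfl] at h1
    rw [fA_L c]
    simp only [← sub_sub] at h
    linarith only [h1, h]
  · have h := L_dir (e := -e) x0 x1 c1 Y1 s0.le s1 (by linarith only [e0]) (by linarith only [e1]) (by linarith only [e2])
    rw [neg_neg] at h
    rw [fA_L c]
    exact h

theorem row_M {x Y s e : ℝ} (x0 : 64996 / 100000 ≤ x) (x1 : x ≤ 65000 / 100000) (Y0 : 0 < Y)
    (Y1 : Y ≤ 25000 / 100000) (s0 : 0 < s) (s1 : s < 2 * x - 1) (e0 : 0 ≤ e)
    (e1 : e ≤ 1045 / 10000) :
    fA x Y (x - 1 / 2 - s) e - OM x s e + (Y / 1000 + PY Y * (fA x Y (x - 1 / 2 - s) e -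
      0 - ((5 : ℤ) : ℝ) / 1000)) ≤ 0 := by
  rcases le_total Y e with c | c
  · refine low_fin (K := 16 / 100) (m := Real.pi / 2) Y0.le (by linarith only [Y0, e1, c])
      (low_M (by linarith only [x0, Y0, e1, c]) (by linarith only [x1, Y0, e1, c]) Y0.le c s0.le s1.le) (by linarith only [Real.pi_gt_three])
      le_rfl (K_M x0 x1 s0.le s1.le e0 e1) (by push_cast; norm_num) (by
        push_cast
        linarith only [Y0, e1, c, Real.pi_gt_d2])
  rw [fA_M (by linarith only [Y0, e0]) c]
  rcases le_total (5 / 1000) Y with c1 | c1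
  · exact M_dir x0 x1 c1 Y1 s0.le s1.le e0 e1 c
  have hP : PY Y ≤ 1 := by
    unfold PY
    have : Y ^ 3 ≤ (5 / 1000) ^ 3 := by
      apply pow_le_pow_left₀ Y0.le c1
    nlinarith only [Y0, c1, this]
  have h := H_mono (f := fun Y => FM x Y s 0) (f' := fun Y => FMy x Y s) (a := 0) (b := Y)
    (K := 0 + ((5 : ℤ) : ℝ) / 1000) Y0.le (FM_cont x s)
    (fun y _ => FM_deriv (by linarith only [x1, Y0, c1]) s0 s1)
    (fun y hy => M_der x0 x1 hy.1.le (by linarith only [c1, hy, hy.2]) s0 s1)
  have h1 := red_M (x := x) (Y := Y) (s := s) (e := e) (by linarith only [x1, Y0, c1]) e0 c s0.le s1.le hP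
  have e : FM x 0 s 0 = OM x s 0 := by
    unfold FM OM
    rw [zero_add, sub_zero]
    ring
  rw [e, PY0, zero_mul, zero_div, add_zero, add_zero] at h
  simp only [← sub_sub] at h
  nlinarith only [h1, h]

/-- the row for `σ ≠ ± (x - 1/2)` -/
theorem row_gen {x Y σ η : ℝ} (x0 : 64996 / 100000 ≤ x) (x1 : x ≤ 65000 / 100000) (Y0 : 0 < Y)
    (Y1 : Y ≤ 25000 / 100000) (h1 : |σ| ≤ 1 / 2) (e0 : 0 ≤ η) (e1 : η ≤ 1045 / 10000 * LT.th σ)
    (n1 : σ ≠ x - 1 / 2) (n2 : σ ≠ -(x - 1 / 2)) :
    fA x Y σ η - fR ⟨x, 0⟩ ⟨σ, η⟩ + (Y / 1000 + PY Y * (fA x Y σ η - bR σ η -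
      ((5 : ℤ) : ℝ) / 1000)) ≤ 0 := by
  have hp := Real.pi_pos
  have t1 : LT.th σ ≤ 1 := min_le_left _ _
  have t2 : LT.th σ ≤ 2 - 4 * |σ| := min_le_right _ _
  have e3 : η ≤ 1045 / 10000 := by linarith only [e1, t1]
  obtain ⟨a1, a2⟩ := abs_le.1 h1
  rcases lt_or_gt_of_ne n1 with c | c
  · rcases lt_or_gt_of_ne n2 with c2 | c2
    · obtain ⟨s, hs⟩ : ∃ s, s = -σ - (x - 1 / 2) := ⟨_, rfl⟩
      have hσ : σ = -(x - 1 / 2) - s := by linarith only [hs]
      have hm : bR σ η = 0 := by
        unfold bR
        rw [max_eq_right (by linarith only [c, c2]), mul_zero]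
      rw [hm]
      have t3 : |σ| = -σ := abs_of_nonpos (by linarith only [c, c2])
      rw [t3] at t2
      have h := row_L (s := s) (e := η) x0 x1 Y0 Y1 (by linarith only [c2, hs]) (by linarith only [e0, e1, t2, hs]) e0 e3 (by linarith only [e1, t2, hs])
      rw [← o_L e0, ← hσ] at h
      exact h
    · obtain ⟨s, hs⟩ : ∃ s, s = x - 1 / 2 - σ := ⟨_, rfl⟩
      have hσ : σ = x - 1 / 2 - s := by linarith only [hs]
      have hm : 0 ≤ bR σ η := by
        unfold bR
        have := le_max_right σ 0
        positivity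
      have h := row_M (s := s) (e := η) x0 x1 Y0 Y1 (by linarith only [c, hs]) (by linarith only [c2, hs]) e0 e3
      rw [← o_M e0, ← hσ] at h
      have h2 := mul_nonneg (PY_nonneg Y0.le) hm
      have e5 : PY Y * (fA x Y σ η - bR σ η - ((5 : ℤ) : ℝ) / 1000) =
        PY Y * (fA x Y σ η - 0 - ((5 : ℤ) : ℝ) / 1000) - PY Y * bR σ η := by ring
      rw [e5]
      linarith only [h, h2]
  · obtain ⟨s, hs⟩ : ∃ s, s = σ - (x - 1 / 2) := ⟨_, rfl⟩
    have hσ : σ = x - 1 / 2 + s := by linarith only [hs]
    have hm : bR σ η = 2 * Real.pi * η * σ := by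
      unfold bR
      rw [max_eq_left (by linarith only [x0, Y0, Y1, c])]
    rw [hm]
    have t3 : |σ| = σ := abs_of_nonneg (by linarith only [x0, Y0, Y1, c])
    rw [t3] at t2
    have h := row_R (s := s) (e := η) x0 x1 Y0 Y1 (by linarith only [c, hs]) (by linarith only [e0, e1, t2, hs]) e0 e3 (by linarith only [e1, t2, hs])
    rw [← o_R e0, ← fA_R (by linarith only [Y0, e0]), ← hσ] at h
    exact h

theorem cont_fR (x Y η : ℝ) : Continuous fun σ : ℝ => fR ⟨x, Y⟩ ⟨σ, η⟩ := by
  simp only [fR_uu]
  have h1 := cont_uu' (f := fun σ : ℝ => x + 1 / 2 + σ) (g := fun _ : ℝ => Y + η) (by fun_prop)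
    (by fun_prop)
  have h2 := cont_uu' (f := fun σ : ℝ => x + 1 / 2 - σ) (g := fun _ : ℝ => Y - η) (by fun_prop)
    (by fun_prop)
  exact (h1.add h2).sub continuous_const

/-- **the row near `0`** -/
theorem row {x Y σ η : ℝ} (x0 : 64996 / 100000 ≤ x) (x1 : x ≤ 65000 / 100000) (Y0 : 0 < Y)
    (Y1 : Y ≤ 25000 / 100000) (h1 : |σ| ≤ 1 / 2) (e0 : 0 ≤ η) (e1 : η ≤ 1045 / 10000 * LT.th σ) :
    fA x Y σ η - fR ⟨x, 0⟩ ⟨σ, η⟩ + (Y / 1000 + PY Y * (fA x Y σ η - bR σ η -
      ((5 : ℤ) : ℝ) / 1000)) ≤ 0 := by
  by_cases n : σ ≠ x - 1 / 2 ∧ σ ≠ -(x - 1 / 2)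
  · exact row_gen x0 x1 Y0 Y1 h1 e0 e1 n.1 n.2
  have hσ : |σ| = x - 1 / 2 := by
    rw [not_and_or, not_not, not_not] at n
    rcases n with n | n
    · rw [n, abs_of_nonneg (by linarith only [x0, Y0, Y1])]
    · rw [n, abs_neg, abs_of_nonneg (by linarith only [x0, Y0, Y1])]
  have hη : η ≤ 1045 / 10000 := by
    have t1 : LT.th σ ≤ 1 := min_le_left _ _
    linarith only [e1, t1]
  have hc : Continuous fun σ : ℝ => fA x Y σ η - fR ⟨x, 0⟩ ⟨σ, η⟩ + (Y / 1000 + PY Y *
      (fA x Y σ η - bR σ η - ((5 : ℤ) : ℝ) / 1000)) := by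
    have c1 := cont_fR x Y η
    have c2 := cont_fR x 0 η
    unfold fA bR
    fun_prop
  have hl := (hc.tendsto σ).mono_left (nhdsWithin_le_nhds (s := Set.Ioi σ))
  refine le_of_tendsto hl ?_
  have hm : Set.Ioo σ (σ + 5 / 100) ∈ nhdsWithin σ (Set.Ioi σ) :=
    Ioo_mem_nhdsGT (by linarith only [Y0, Y1])
  refine Filter.mem_of_superset hm ?_
  intro τ hτ
  obtain ⟨b1, b2⟩ := hτ
  obtain ⟨b3, b4⟩ := abs_le.1 hσ.le
  have t3 : |τ| ≤ 1 / 4 := by
    rw [abs_le]
    constructor <;> linarith only [x1, b1, b2, b3, b4]
  have t4 : LT.th τ = 1 := min_eq_left (by linarith only [t3])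
  refine row_gen x0 x1 Y0 Y1 (by linarith only [b1, b2, t3]) e0 (by rw [t4]; linarith only [hη]) ?_ ?_
  · intro h
    rw [not_and_or, not_not, not_not] at n
    rcases n with n | n <;> linarith only [b1, h, n, x0, b2]
  · intro h
    linarith only [b1, b3, h]

/-! ### the row for larger heights -/

theorem dir_R {x Y s e : ℝ} (x0 : 64996 / 100000 ≤ x) (x1 : x ≤ 65000 / 100000)
    (Y0 : 25000 / 100000 ≤ Y)
    (Y1 : Y ≤ 43 / 100) (s0 : 0 ≤ s) (s1 : s ≤ 1 - x) (e0 : 0 ≤ e) (e1 : e ≤ 1045 / 10000)
    (e2 : e ≤ 418 / 1000 * (1 - x - s)) :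
    FR x Y s e ≤ 2 * Real.pi * e * (x - 1 / 2 + s) + 1 / 1000 := by
  rcases le_total s (2 / 1000) with c | c
  · have h := ex1 (chkT4 c_db (by norm_num) (x := x) (y := Y) (z := s) (w := e)
      (by push_cast; linarith only [x0]) (by push_cast; linarith only [x1]) (by push_cast; linarith only [Y0])
      (by push_cast; linarith only [Y1]) (by push_cast; linarith only [s0]) (by push_cast; linarith only [c])
      (by push_cast; linarith only [e0]) (by push_cast; linarith only [e1]))
    have := thin s0 c (by norm_num) (u := Y - e) (by rw [abs_le]; constructor <;> linarith only [Y0, e1, Y1, e0])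
    simp only [E.val, fR_val, w3_val, br_val] at h
    push_cast at h
    unfold FR
    linarith only [s0, this, h]
  · have h := ex1 (exd (l := [_]) (chkT4 c_da (by norm_num) (x := x) (y := Y) (z := s) (w := e)
      (by push_cast; linarith only [x0]) (by push_cast; linarith only [x1]) (by push_cast; linarith only [Y0])
      (by push_cast; linarith only [Y1]) (by push_cast; linarith only [c]) (by push_cast; linarith only [x0, s1])
      (by push_cast; linarith only [e0]) (by push_cast; linarith only [e1])) (vio_no e2))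
    simp only [E.val, fR_val, w1_val, br_val] at h
    push_cast at h
    unfold FR
    linarith only [h]

theorem dir_L {x Y s e : ℝ} (x0 : 64996 / 100000 ≤ x) (x1 : x ≤ 65000 / 100000)
    (Y0 : 25000 / 100000 ≤ Y)
    (Y1 : Y ≤ 43 / 100) (s0 : 0 ≤ s) (s1 : s ≤ 1 - x) (e0 : e ≤ 0) (e1 : -(1045 / 10000) ≤ e)
    (e2 : -e ≤ 418 / 1000 * (1 - x - s)) :
    FR x Y s e ≤ 1 / 1000 := by
  rcases le_total s (2 / 1000) with c | c
  · have h := ex1 (chkT4 c_dd (by norm_num) (x := x) (y := Y) (z := s) (w := e)
      (by push_cast; linarith only [x0]) (by push_cast; linarith only [x1]) (by push_cast; linarith only [Y0])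
      (by push_cast; linarith only [Y1]) (by push_cast; linarith only [s0]) (by push_cast; linarith only [c])
      (by push_cast; linarith only [e1]) (by push_cast; linarith only [e0]))
    have := thin s0 c (by norm_num) (u := Y - e) (by rw [abs_le]; constructor <;> linarith only [Y0, e0, Y1, e1])
    simp only [E.val, fR_val, w3_val] at h
    push_cast at h
    unfold FR
    linarith only [s0, this, h]
  · have h := ex1 (exd (l := [_]) (chkT4 c_dc (by norm_num) (x := x) (y := Y) (z := s) (w := e)
      (by push_cast; linarith only [x0]) (by push_cast; linarith only [x1]) (by push_cast; linarith only [Y0])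
      (by push_cast; linarith only [Y1]) (by push_cast; linarith only [c]) (by push_cast; linarith only [x0, s1])
      (by push_cast; linarith only [e1]) (by push_cast; linarith only [e0])) (vioN_no e2))
    simp only [E.val, fR_val, w1_val] at h
    push_cast at h
    unfold FR
    linarith only [h]

theorem dir_M {x Y s e : ℝ} (x0 : 64996 / 100000 ≤ x) (x1 : x ≤ 65000 / 100000)
    (Y0 : 25000 / 100000 ≤ Y)
    (Y1 : Y ≤ 43 / 100) (s0 : 0 ≤ s) (s1 : s ≤ 2 * x - 1) (e0 : 0 ≤ e) (e1 : e ≤ 1045 / 10000) :
    FM x Y s e ≤ 2 * Real.pi * e * max (x - 1 / 2 - s) 0 + 1 / 1000 := by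
  have hp := Real.pi_pos
  have k1 : 0 ≤ 2 * Real.pi * e * max (x - 1 / 2 - s) 0 := by
    have := le_max_right (x - 1 / 2 - s) 0
    positivity
  have k2 : 2 * Real.pi * e * (x - 1 / 2 - s) ≤ 2 * Real.pi * e * max (x - 1 / 2 - s) 0 :=
    mul_le_mul_of_nonneg_left (le_max_left _ _) (by positivity)
  rcases le_total s (2 / 10000) with c | c
  · have := thin (s := 0) (e := s) le_rfl s0 (by linarith only [x1, s1]) (u := Y - e)
      (by rw [abs_le]; constructor <;> linarith only [Y0, e1, Y1, e0])
    rw [UA.uu_zero, abs_of_nonneg (by linarith only [Y0, e1] : 0 ≤ Y - e)] at this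
    rcases ex2 (chkT4 c_df (by norm_num) (x := x) (y := Y) (z := s) (w := e)
      (by push_cast; linarith only [x0]) (by push_cast; linarith only [x1]) (by push_cast; linarith only [Y0])
      (by push_cast; linarith only [Y1]) (by push_cast; linarith only [s0]) (by push_cast; linarith only [c])
      (by push_cast; linarith only [e0]) (by push_cast; linarith only [e1])) with h | h
    · simp only [E.val, fm_val, a1_val, b3_val, brM_val] at h
      push_cast at h
      unfold FM
      linarith only [k2, c, this, h]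
    · have h := ex1 h
      simp only [E.val, fm_val, a1_val, b3_val] at h
      push_cast at h
      unfold FM
      linarith only [k1, c, this, h]
  rcases le_total (29970 / 100000) s with c2 | c2
  · have b0 : 0 ≤ 2 * x - 1 - s := by linarith only [s1]
    have b1 : 2 * x - 1 - s ≤ 3 / 10000 := by linarith only [x1, c2]
    have := thin (s := 0) (e := 2 * x - 1 - s) le_rfl b0 (by linarith only [x1, c2]) (u := Y + e)
      (by rw [abs_le]; constructor <;> linarith only [Y0, e0, Y1, e1])
    rw [UA.uu_zero, abs_of_nonneg (by linarith only [Y0, e0] : 0 ≤ Y + e)] at this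
    have h := ex1 (chkT4 c_dg (by norm_num) (x := x) (y := Y) (z := s) (w := e)
      (by push_cast; linarith only [x0]) (by push_cast; linarith only [x1]) (by push_cast; linarith only [Y0])
      (by push_cast; linarith only [Y1]) (by push_cast; linarith only [c2]) (by push_cast; linarith only [x1, s1])
      (by push_cast; linarith only [e0]) (by push_cast; linarith only [e1]))
    simp only [E.val, fm_val, a3_val, b1_val] at h
    push_cast at h
    unfold FM
    linarith only [x1, k1, c2, this, h]
  rcases ex2 (chkT4 c_de (by norm_num) (x := x) (y := Y) (z := s) (w := e)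
    (by push_cast; linarith only [x0]) (by push_cast; linarith only [x1]) (by push_cast; linarith only [Y0])
    (by push_cast; linarith only [Y1]) (by push_cast; linarith only [c]) (by push_cast; linarith only [c2])
    (by push_cast; linarith only [e0]) (by push_cast; linarith only [e1])) with h | h
  · simp only [E.val, fm_val, a1_val, b1_val, brM_val] at h
    push_cast at h
    unfold FM
    linarith only [k2, h]
  · have h := ex1 h
    simp only [E.val, fm_val, a1_val, b1_val] at h
    push_cast at h
    unfold FM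
    linarith only [k1, h]

/-- heights up to `43/100` -/
theorem rowd_lo {x Y σ η : ℝ} (x0 : 64996 / 100000 ≤ x) (x1 : x ≤ 65000 / 100000)
    (Y0 : 25000 / 100000 ≤ Y)
    (Y1 : Y ≤ 43 / 100) (h1 : |σ| ≤ 1 / 2) (e0 : 0 ≤ η) (e1 : η ≤ 1045 / 10000 * LT.th σ) :
    fA x Y σ η ≤ bR σ η + 1 / 1000 := by
  have hp := Real.pi_pos
  have t1 : LT.th σ ≤ 1 := min_le_left _ _
  have t2 : LT.th σ ≤ 2 - 4 * |σ| := min_le_right _ _
  have e3 : η ≤ 1045 / 10000 := by linarith only [e1, t1]
  obtain ⟨a1, a2⟩ := abs_le.1 h1
  rcases le_total σ (x - 1 / 2) with c | c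
  · rcases le_total σ (-(x - 1 / 2)) with c2 | c2
    · obtain ⟨s, hs⟩ : ∃ s, s = -σ - (x - 1 / 2) := ⟨_, rfl⟩
      have hσ : σ = -(x - 1 / 2) - s := by linarith only [hs]
      have hm : bR σ η = 0 := by
        unfold bR
        rw [max_eq_right (by linarith only [c, c2]), mul_zero]
      rw [hm]
      have t3 : |σ| = -σ := abs_of_nonpos (by linarith only [c, c2])
      rw [t3] at t2
      have h := dir_L (s := s) (e := -η) x0 x1 Y0 Y1 (by linarith only [c2, hs]) (by linarith only [e0, e1, t2, hs]) (by linarith only [e0])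
        (by linarith only [e1, t1]) (by linarith only [e1, t2, hs])
      rw [← fA_L (by linarith only [Y0, e1, t1]), ← hσ] at h
      linarith only [h]
    · obtain ⟨s, hs⟩ : ∃ s, s = x - 1 / 2 - σ := ⟨_, rfl⟩
      have hσ : σ = x - 1 / 2 - s := by linarith only [hs]
      have h := dir_M (s := s) (e := η) x0 x1 Y0 Y1 (by linarith only [c, hs]) (by linarith only [c2, hs]) e0 e3
      rw [← fA_M (by linarith only [Y0, e0]) (by linarith only [Y0, e1, t1]), ← hσ] at h
      exact h
  · obtain ⟨s, hs⟩ : ∃ s, s = σ - (x - 1 / 2) := ⟨_, rfl⟩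
    have hσ : σ = x - 1 / 2 + s := by linarith only [hs]
    have hm : bR σ η = 2 * Real.pi * η * σ := by
      unfold bR
      rw [max_eq_left (by linarith only [x0, c])]
    rw [hm]
    have t3 : |σ| = σ := abs_of_nonneg (by linarith only [x0, c])
    rw [t3] at t2
    have h := dir_R (s := s) (e := η) x0 x1 Y0 Y1 (by linarith only [c, hs]) (by linarith only [e0, e1, t2, hs]) e0 e3 (by linarith only [e1, t2, hs])
    rw [← fA_R (by linarith only [Y0, e0]), ← hσ] at h
    exact h

/-- heights from `43/100` on -/
theorem rowd_hi {x Y σ η : ℝ} (x0 : 64996 / 100000 ≤ x) (x1 : x ≤ 65000 / 100000)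
    (Y0 : 43 / 100 ≤ Y)
    (Y1 : Y ≤ 1) (h1 : |σ| ≤ 1 / 2) (e0 : 0 ≤ η) (e1 : η ≤ 1045 / 10000 * LT.th σ) :
    fA x Y σ η ≤ bR σ η + 1 / 1000 := by
  have hp := Real.pi_pos
  have t1 : LT.th σ ≤ 1 := min_le_left _ _
  have t2 : LT.th σ ≤ 2 - 4 * |σ| := min_le_right _ _
  have e3 : η ≤ 1045 / 10000 := by linarith only [e1, t1]
  obtain ⟨a1, a2⟩ := abs_le.1 h1
  have h := ex1 (exd (l := [_]) (exd (l := [_, _]) (chkT4 c_dh (by norm_num) (x := x)
    (y := Y) (z := σ) (w := η)
    (by push_cast; linarith only [x0]) (by push_cast; linarith only [x1]) (by push_cast; linarith only [Y0])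
    (by push_cast; linarith only [Y1]) (by push_cast; linarith only [a1]) (by push_cast; linarith only [a2])
    (by push_cast; linarith only [e0]) (by push_cast; linarith only [e1, t1]))
    (vs2_no (by linarith only [e1, t2, neg_le_abs σ]))) (vs1_no (by linarith only [e1, t2, le_abs_self σ])))
  rw [E.val, ser_val] at h
  simp only [E.val] at h
  push_cast at h
  have k := ser_le (x := x) (Y := Y) (σ := σ) (η := η) (by linarith only [x0]) (by linarith only [x1]) (by linarith only [Y0, e1, t1])
    (by linarith only [Y0, e0]) a1 a2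
  have k2 : 2 * Real.pi * η * σ ≤ bR σ η := by
    unfold bR
    exact mul_le_mul_of_nonneg_left (le_max_left _ _) (by positivity)
  linarith only [h, k, k2]

/-- **the row for larger heights** -/
theorem rowd {x Y σ η : ℝ} (x0 : 64996 / 100000 ≤ x) (x1 : x ≤ 65000 / 100000)
    (Y0 : 25000 / 100000 ≤ Y)
    (Y1 : Y ≤ 1) (h1 : |σ| ≤ 1 / 2) (e0 : 0 ≤ η) (e1 : η ≤ 1045 / 10000 * LT.th σ) :
    fA x Y σ η ≤ bR σ η + 1 / 1000 := by
  rcases le_total Y (43 / 100) with c | c
  · exact rowd_lo x0 x1 Y0 c h1 e0 e1
  · exact rowd_hi x0 x1 c Y1 h1 e0 e1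

end C65

end ZA

end ZD

end Pool.Agent.Work.MP_b30479_gt.G2
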