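import Pool.Agent.Work.MP_b30479_gt.G2.ZRows
import Pool.Agent.Work.NumU.Expr

/-!
# Rows at rings, side of the ring: expressions and the word part

The variables are `x`, `Y`, `s`, `η`.  Right: `σ = x - 1/2 + s`; left: `σ = -(x - 1/2) - s`,
`η` stands for `-η`; between: `σ = x - 1/2 - s`.
-/

namespace Pool.Agent.Work.MP_b30479_gt.G2

open VOL NumU

namespace ZD

namespace ZA

section
open NumI (V)
open NumU NumU.E

/-- `x` -/
def vx : E := var 0
def vY : E := var 1
def vs : E := var 2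
def ve : E := var 3
def two (a : E) : E := mul (q 2 1) a
def hpi : E := mul (q 1 2) pi
/-- `2 x - 1 + s` -/
def vb : E := add (sub (two vx) (q 1 1)) vs
/-- `2 x - 1 - s` -/
def vc : E := sub (sub (two vx) (q 1 1)) vs
def py : E := add (mul (q 49 5) vY) (mul (q 90 1) (mul vY (sq vY)))
def pyd : E := add (q 49 5) (mul (q 270 1) (sq vY))
def z0 : E := q 0 1
def br : E := mul (mul (two pi) ve) (add (sub vx (q 1 2)) vs)
def vio : E := sub ve (mul (q 418 1000) (sub (sub (q 1 1) vx) vs))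
def vioN : E := sub (neg ve) (mul (q 418 1000) (sub (sub (q 1 1) vx) vs))
/-- right of the hinge: the value, `w` stands for `-uu s (Y - η)` -/
def fR' (w : E) : E := add (sub (add (E.uu vb (add vY ve)) w) (two (E.uu vx vY))) (mul pi ve)
/-- the derivative, `w` stands for `lnB s (Y - η)` -/
def fRy (w : E) : E := add (sub w (E.lnB vb (add vY ve))) (two (E.lnB vx vY))
/-- minus the derivative of `F` -/
def dD (c : ℤ) (f fy b : E) : E :=
  neg (add (mul (add (q 1 1) py) fy) (add (q 1 1000) (mul pyd (sub (sub f b) (q c 1000)))))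
/-- `-F` -/
def dF (c : ℤ) (f b f0 : E) : E :=
  neg (add (sub f f0) (add (mul (q 1 1000) vY) (mul py (sub (sub f b) (q c 1000)))))
def w1 : E := neg (E.uu vs (sub vY ve))
def ep : E := q 2 1000
def w2 : E := neg (E.uu ep (sub vY ve))
def w3 : E := add w2 (q 52 10000)
def l1 : E := E.lnB vs (sub vY ve)
def l2 : E := E.lnB ep (sub vY ve)
/-- values at `0` (right, left), `w` stands for `-uu s η`, `g` for `π η` (`η` the true one) -/
def f0R (w g : E) : E := add (sub (add (E.uu vb ve) w) (two (E.uu vx z0))) g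
def w4 : E := neg (E.uu vs ve)
def g1 : E := mul pi ve
def g2 : E := neg (mul pi ve)
/-- thin: `-(-uu s η)` is at most `-π η / 2` -/
def w5 : E := mul hpi ve
def w6 : E := neg (mul hpi ve)
def vYn : E := neg (add ve vY)
def vYe : E := sub ve vY
def vYg : E := sub vY ve
/-- between -/
def fm (a b : E) : E := sub (add (add a b) (mul pi vY)) (two (E.uu vx vY))
def f0M (a b : E) : E := sub (add (add a b) (two (mul pi ve))) (two (E.uu vx z0))
def a1 : E := E.uu vc (add vY ve)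
def b1 : E := E.uu vs (sub vY ve)
def a10 : E := E.uu vc ve
def b10 : E := E.uu vs ve
def ee : E := q 2 10000
def b2 : E := neg (mul hpi (sub vY ve))
def b3 : E := add b2 (q 52 100000)
def a2 : E := neg (mul hpi (add vY ve))
def a3 : E := add a2 (q 78 100000)
def e30 : E := E.uu (q 3 10000) ve
def e20 : E := E.uu ee ve
/-- between, `η = 0`, derivative -/
def fM0 (b : E) : E := sub (add (add (E.uu vc vY) b) (mul pi vY)) (two (E.uu vx vY))
def fMy (b : E) : E := add (sub (sub pi (E.lnB vc vY)) b) (two (E.lnB vx vY))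
def bb1 : E := E.uu vs vY
def bb2 : E := neg (mul hpi vY)
def lb1 : E := E.lnB vs vY
def lb2 : E := E.lnB ee vY
/-- series, `a` point, `Q` the exponential -/
def qe (t : E) : E := exp (neg (mul (two pi) t))
def sr (Q a : E) : E := sub (mul Q (sinPi (two a))) (mul (mul (q 1 4) (sq Q)) (sinPi (mul (q 4 1) a)))
def er (Q : E) : E := mul (mul (q 1 12) (mul Q (sq Q))) (inv (sub (q 1 1) Q))
def ser : E := E.lt (qe (add vY ve)) (E.lt (qe (sub vY ve)) (E.lt (qe vY)
  (add (mul (inv (two pi)) (add (add (sr (var 4) (add vx vs)) (sr (var 5) (sub vx vs)))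
    (two (add (mul (var 6) (sinPi (two vx))) (mul (mul (q 1 4) (sq (var 6))) (sinPi (mul (q 4 1) vx)))))))
    (add (er (var 4)) (add (er (var 5)) (two (er (var 6))))))))
def vs1 : E := sub ve (mul (q 418 1000) (sub (q 1 2) vs))
def vs2 : E := sub ve (mul (q 418 1000) (add (q 1 2) vs))
def brM : E := mul (mul (two pi) ve) (sub (sub vx (q 1 2)) vs)
/-- a two at an end -/
def dz : E := sub (mul (mul pi (sub vx (q 1 2))) vY) (E.uu vx vY)
def dzy : E := add (mul pi (sub vx (q 1 2))) (E.lnB vx vY)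
def dzs : E := E.lt (qe vY) (add (mul (inv (two pi)) (add (mul (var 4) (sinPi (two vx)))
  (mul (mul (q 1 4) (sq (var 4))) (sinPi (mul (q 4 1) vx))))) (er (var 4)))

theorem lk0 (a b c d : ℝ) (l : List ℝ) : NumI.lkR (a :: b :: c :: d :: l) 0 = a := rfl
theorem lk1 (a b c d : ℝ) (l : List ℝ) : NumI.lkR (a :: b :: c :: d :: l) 1 = b := rfl
theorem lk2 (a b c d : ℝ) (l : List ℝ) : NumI.lkR (a :: b :: c :: d :: l) 2 = c := rfl
theorem lk3 (a b c d : ℝ) (l : List ℝ) : NumI.lkR (a :: b :: c :: d :: l) 3 = d := rfl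

theorem dD_val (c : ℤ) (f fy b : E) (x Y s e : ℝ) : (dD c f fy b).val [x, Y, s, e] =
    -((1 + PY Y) * fy.val [x, Y, s, e] + (1 / 1000 + (49 / 5 + 270 * Y ^ 2) *
      (f.val [x, Y, s, e] - b.val [x, Y, s, e] - c / 1000))) := by
  simp only [dD, py, pyd, vY, val, lk1, PY]
  push_cast
  ring

theorem dF_val (c : ℤ) (f b f0 : E) (x Y s e : ℝ) : (dF c f b f0).val [x, Y, s, e] =
    -(f.val [x, Y, s, e] - f0.val [x, Y, s, e] + (Y / 1000 + PY Y *
      (f.val [x, Y, s, e] - b.val [x, Y, s, e] - c / 1000))) := by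
  simp only [dF, py, vY, val, lk1, PY]
  push_cast
  ring

theorem fR_val (w : E) (x Y s e : ℝ) : (fR' w).val [x, Y, s, e] =
    uu (2 * x - 1 + s) (Y + e) + w.val [x, Y, s, e] - 2 * uu x Y + Real.pi * e := by
  simp only [fR', vb, vx, vY, vs, ve, two, val, lk0, lk1, lk2, lk3]
  norm_num

theorem fRy_val (w : E) (x Y s e : ℝ) : (fRy w).val [x, Y, s, e] =
    w.val [x, Y, s, e] - NumI.lnB (2 * x - 1 + s) (Y + e) + 2 * NumI.lnB x Y := by
  simp only [fRy, vb, vx, vY, vs, ve, two, val, lk0, lk1, lk2, lk3]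
  norm_num

theorem w1_val (x Y s e : ℝ) : w1.val [x, Y, s, e] = -uu s (Y - e) := by
  simp only [w1, vY, vs, ve, val, lk1, lk2, lk3]

theorem w2_val (x Y s e : ℝ) : w2.val [x, Y, s, e] = -uu (2 / 1000) (Y - e) := by
  simp only [w2, ep, vY, ve, val, lk1, lk3]
  norm_num

theorem w3_val (x Y s e : ℝ) : w3.val [x, Y, s, e] = -uu (2 / 1000) (Y - e) + 52 / 10000 := by
  simp only [w3, val, w2_val]
  norm_num

theorem w4_val (x Y s e : ℝ) : w4.val [x, Y, s, e] = -uu s e := by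
  simp only [w4, vs, ve, val, lk2, lk3]

theorem w5_val (x Y s e : ℝ) : w5.val [x, Y, s, e] = Real.pi / 2 * e := by
  simp only [w5, hpi, ve, val, lk3]
  push_cast
  ring

theorem w6_val (x Y s e : ℝ) : w6.val [x, Y, s, e] = -(Real.pi / 2 * e) := by
  simp only [w6, hpi, ve, val, lk3]
  push_cast
  ring

theorem l1_val (x Y s e : ℝ) : l1.val [x, Y, s, e] = NumI.lnB s (Y - e) := by
  simp only [l1, vY, vs, ve, val, lk1, lk2, lk3]

theorem l2_val (x Y s e : ℝ) : l2.val [x, Y, s, e] = NumI.lnB (2 / 1000) (Y - e) := by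
  simp only [l2, ep, vY, ve, val, lk1, lk3]
  norm_num

theorem hpi_val (x Y s e : ℝ) : hpi.val [x, Y, s, e] = Real.pi / 2 := by
  simp only [hpi, val]
  push_cast
  ring

theorem z0_val (x Y s e : ℝ) : z0.val [x, Y, s, e] = 0 := by
  simp only [z0, val]
  norm_num

theorem br_val (x Y s e : ℝ) : br.val [x, Y, s, e] = 2 * Real.pi * e * (x - 1 / 2 + s) := by
  simp only [br, two, vx, vs, ve, val, lk0, lk2, lk3]
  norm_num

theorem brM_val (x Y s e : ℝ) : brM.val [x, Y, s, e] = 2 * Real.pi * e * (x - 1 / 2 - s) := by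
  simp only [brM, two, vx, vs, ve, val, lk0, lk2, lk3]
  norm_num

theorem f0R_val (w g : E) (x Y s e : ℝ) : (f0R w g).val [x, Y, s, e] =
    uu (2 * x - 1 + s) e + w.val [x, Y, s, e] - 2 * uu x 0 + g.val [x, Y, s, e] := by
  simp only [f0R, vb, vx, vs, ve, two, z0, val, lk0, lk2, lk3]
  norm_num

theorem g1_val (x Y s e : ℝ) : g1.val [x, Y, s, e] = Real.pi * e := by
  simp only [g1, ve, val, lk3]

theorem g2_val (x Y s e : ℝ) : g2.val [x, Y, s, e] = -(Real.pi * e) := by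
  simp only [g2, ve, val, lk3]

theorem fm_val (a b : E) (x Y s e : ℝ) : (fm a b).val [x, Y, s, e] =
    a.val [x, Y, s, e] + b.val [x, Y, s, e] + Real.pi * Y - 2 * uu x Y := by
  simp only [fm, vx, vY, two, val, lk0, lk1]
  norm_num

theorem f0M_val (a b : E) (x Y s e : ℝ) : (f0M a b).val [x, Y, s, e] =
    a.val [x, Y, s, e] + b.val [x, Y, s, e] + 2 * (Real.pi * e) - 2 * uu x 0 := by
  simp only [f0M, vx, ve, two, z0, val, lk0, lk3]
  norm_num

theorem a1_val (x Y s e : ℝ) : a1.val [x, Y, s, e] = uu (2 * x - 1 - s) (Y + e) := by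
  simp only [a1, vc, vx, vY, vs, ve, two, val, lk0, lk1, lk2, lk3]
  norm_num

theorem b1_val (x Y s e : ℝ) : b1.val [x, Y, s, e] = uu s (Y - e) := by
  simp only [b1, vY, vs, ve, val, lk1, lk2, lk3]

theorem a10_val (x Y s e : ℝ) : a10.val [x, Y, s, e] = uu (2 * x - 1 - s) e := by
  simp only [a10, vc, vx, vs, ve, two, val, lk0, lk2, lk3]
  norm_num

theorem b10_val (x Y s e : ℝ) : b10.val [x, Y, s, e] = uu s e := by
  simp only [b10, vs, ve, val, lk2, lk3]

theorem b2_val (x Y s e : ℝ) : b2.val [x, Y, s, e] = -(Real.pi / 2 * (Y - e)) := by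
  simp only [b2, hpi, vY, ve, val, lk1, lk3]
  push_cast
  ring

theorem b3_val (x Y s e : ℝ) : b3.val [x, Y, s, e] = -(Real.pi / 2 * (Y - e)) + 52 / 100000 := by
  simp only [b3, val, b2_val]
  norm_num

theorem a2_val (x Y s e : ℝ) : a2.val [x, Y, s, e] = -(Real.pi / 2 * (Y + e)) := by
  simp only [a2, hpi, vY, ve, val, lk1, lk3]
  push_cast
  ring

theorem a3_val (x Y s e : ℝ) : a3.val [x, Y, s, e] = -(Real.pi / 2 * (Y + e)) + 78 / 100000 := by
  simp only [a3, val, a2_val]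
  norm_num

theorem e20_val (x Y s e : ℝ) : e20.val [x, Y, s, e] = uu (2 / 10000) e := by
  simp only [e20, ee, ve, val, lk3]
  norm_num

theorem e30_val (x Y s e : ℝ) : e30.val [x, Y, s, e] = uu (3 / 10000) e := by
  simp only [e30, ve, val, lk3]
  norm_num

theorem fM0_val (b : E) (x Y s e : ℝ) : (fM0 b).val [x, Y, s, e] =
    uu (2 * x - 1 - s) Y + b.val [x, Y, s, e] + Real.pi * Y - 2 * uu x Y := by
  simp only [fM0, vc, vx, vY, vs, two, val, lk0, lk1, lk2]
  norm_num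

theorem fMy_val (b : E) (x Y s e : ℝ) : (fMy b).val [x, Y, s, e] =
    Real.pi - NumI.lnB (2 * x - 1 - s) Y - b.val [x, Y, s, e] + 2 * NumI.lnB x Y := by
  simp only [fMy, vc, vx, vY, vs, two, val, lk0, lk1, lk2]
  norm_num

theorem bb1_val (x Y s e : ℝ) : bb1.val [x, Y, s, e] = uu s Y := by
  simp only [bb1, vY, vs, val, lk1, lk2]

theorem bb2_val (x Y s e : ℝ) : bb2.val [x, Y, s, e] = -(Real.pi / 2 * Y) := by
  simp only [bb2, hpi, vY, val, lk1]
  push_cast
  ring

theorem lb1_val (x Y s e : ℝ) : lb1.val [x, Y, s, e] = NumI.lnB s Y := by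
  simp only [lb1, vY, vs, val, lk1, lk2]

theorem lb2_val (x Y s e : ℝ) : lb2.val [x, Y, s, e] = NumI.lnB (2 / 10000) Y := by
  simp only [lb2, ee, vY, val, lk1]
  norm_num

theorem vio_no {x Y s e : ℝ} (h : e ≤ 418 / 1000 * (1 - x - s)) : ¬ 0 < vio.val [x, Y, s, e] := by
  intro hp
  simp only [vio, vx, vs, ve, val, lk0, lk2, lk3] at hp
  norm_num at hp
  linarith

theorem vioN_no {x Y s e : ℝ} (h : -e ≤ 418 / 1000 * (1 - x - s)) : ¬ 0 < vioN.val [x, Y, s, e] := by
  intro hp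
  simp only [vioN, vx, vs, ve, val, lk0, lk2, lk3] at hp
  norm_num at hp
  linarith

theorem vYe_no {x Y s e : ℝ} (h : e ≤ Y) : ¬ 0 < vYe.val [x, Y, s, e] := by
  intro hp
  simp only [vYe, vY, ve, val, lk1, lk3] at hp
  linarith

theorem vYg_no {x Y s e : ℝ} (h : Y ≤ e) : ¬ 0 < vYg.val [x, Y, s, e] := by
  intro hp
  simp only [vYg, vY, ve, val, lk1, lk3] at hp
  linarith

theorem vYn_no {x Y s e : ℝ} (h : 0 ≤ e + Y) : ¬ 0 < vYn.val [x, Y, s, e] := by
  intro hp
  simp only [vYn, vY, ve, val, lk1, lk3] at hp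
  linarith

/-- alternatives -/
theorem ex1 {a : E} {xs : List ℝ} (h : ∃ e ∈ [a], 0 < e.val xs) : 0 < a.val xs := by
  obtain ⟨e, he, hp⟩ := h
  rw [List.mem_singleton] at he
  rwa [he] at hp

theorem ex2 {a : E} {l : List E} {xs : List ℝ} (h : ∃ e ∈ a :: l, 0 < e.val xs) :
    0 < a.val xs ∨ ∃ e ∈ l, 0 < e.val xs := by
  obtain ⟨e, he, hp⟩ := h
  rcases List.mem_cons.1 he with rfl | he
  · exact Or.inl hp
  · exact Or.inr ⟨e, he, hp⟩

theorem exd {a : E} {l : List E} {xs : List ℝ} (h : ∃ e ∈ l ++ [a], 0 < e.val xs)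
    (ha : ¬ 0 < a.val xs) : ∃ e ∈ l, 0 < e.val xs := by
  obtain ⟨e, he, hp⟩ := h
  rcases List.mem_append.1 he with he | he
  · exact ⟨e, he, hp⟩
  · rw [List.mem_singleton] at he
    rw [he] at hp
    exact absurd hp ha

end

end ZA

end ZD

end Pool.Agent.Work.MP_b30479_gt.G2
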