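import Pool.Agent.Work.MP_b30479_gt.G2.UAnti
import Pool.Agent.Work.MP_b30479_gt.G2.WCrit

/-!
# Rows at rings: two terms of the series of `uu`
-/

namespace Pool.Agent.Work.MP_b30479_gt.G2

open VOL NumU

namespace ZD

namespace ZA

/-- `exp (-2 π t)` -/
noncomputable def qq (t : ℝ) : ℝ := Real.exp (-(2 * Real.pi * t))

/-- two terms of the series -/
noncomputable def sq2 (q a : ℝ) : ℝ :=
  q * Real.sin (2 * Real.pi * a) + 1 / 4 * q ^ 2 * Real.sin (4 * Real.pi * a)

theorem sin_ne {a t : ℝ} (ht : 0 < t) : Complex.sin (Real.pi * (⟨a, t⟩ : ℂ)) ≠ 0 := by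
  intro hc
  rw [Complex.sin_eq_zero_iff] at hc
  obtain ⟨k, hk⟩ := hc
  have hk1 : (⟨a, t⟩ : ℂ) = k := by
    have : (Real.pi : ℂ) ≠ 0 := by exact_mod_cast Real.pi_pos.ne'
    apply mul_left_cancel₀ this
    rw [hk]
    ring
  have hk2 := congrArg Complex.im hk1
  simp only [Complex.intCast_im] at hk2
  exact ht.ne' hk2

theorem uu_a {a t : ℝ} (ht : 0 < t) : HasDerivAt (fun a => uu a t) (LL ⟨a, t⟩) a := by
  have hpt : ∀ s : ℝ, (t : ℂ) * Complex.I + ((1 * s : ℝ) : ℂ) = ⟨s, t⟩ := by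
    intro s
    apply Complex.ext <;> simp
  have h2 := hasDerivAt_UU_level ((t : ℂ) * Complex.I) 1 a (by rw [hpt]; exact sin_ne ht)
  simp only [hpt] at h2
  rw [one_mul] at h2
  exact h2

theorem LL_ser {a t : ℝ} (ht : 0 < t) : |LL ⟨a, t⟩ - Real.pi * t +
    qq t * Real.cos (2 * Real.pi * a) + 1 / 2 * qq t ^ 2 * Real.cos (4 * Real.pi * a)| ≤
      qq t ^ 3 / (3 * (1 - qq t)) := by
  have hp := Real.pi_pos
  have hq0 : 0 < qq t := Real.exp_pos _
  have hq1 : qq t < 1 := by
    unfold qq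
    rw [Real.exp_lt_one_iff]
    nlinarith only [hp, ht, mul_pos hp ht]
  set z : ℂ := -((qq t : ℂ) * Complex.exp (((2 * Real.pi * a : ℝ) : ℂ) * Complex.I)) with hz
  have hn : ‖z‖ = qq t := by
    rw [hz, norm_neg, norm_mul, Complex.norm_exp_ofReal_mul_I, mul_one, Complex.norm_real,
      Real.norm_of_nonneg hq0.le]
  have h := Complex.norm_log_sub_logTaylor_le 2 (z := z) (by rw [hn]; exact hq1)
  have h1 := (Complex.abs_re_le_norm _).trans h
  rw [hn] at h1
  have hT : Complex.logTaylor (2 + 1) z = z - z ^ 2 / 2 := by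
    unfold Complex.logTaylor
    rw [Finset.sum_range_succ, Finset.sum_range_succ, Finset.sum_range_succ, Finset.sum_range_zero]
    norm_num
    ring
  have hre : z.re = -(qq t * Real.cos (2 * Real.pi * a)) := by
    rw [hz, Complex.neg_re, Complex.re_ofReal_mul, Complex.exp_ofReal_mul_I_re]
  have hre2 : (z ^ 2).re = qq t ^ 2 * Real.cos (4 * Real.pi * a) := by
    have e : z ^ 2 = ((qq t ^ 2 : ℝ) : ℂ) *
        Complex.exp (((4 * Real.pi * a : ℝ) : ℂ) * Complex.I) := by
      rw [hz, neg_sq, mul_pow, ← Complex.exp_nat_mul]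
      push_cast
      ring_nf
    rw [e, Complex.re_ofReal_mul, Complex.exp_ofReal_mul_I_re]
  have hl : (Complex.log (1 + z)).re = LL ⟨a, t⟩ - Real.pi * t := by
    rw [Complex.log_re, LL_eq']
    simp only
    have e1 : ‖1 + z‖ ^ 2 = 1 - 2 * qq t * Real.cos (2 * Real.pi * a) + qq t ^ 2 := by
      rw [← Complex.normSq_eq_norm_sq, Complex.normSq_add, Complex.normSq_one,
        Complex.normSq_eq_norm_sq z, hn]
      simp only [one_mul, Complex.conj_re]
      rw [hre]
      ring
    have hpos : 0 < ‖1 + z‖ := by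
      rw [norm_pos_iff]
      intro h0
      have : ‖z‖ = 1 := by
        have e : z = -1 := by linear_combination h0
        rw [e, norm_neg, norm_one]
      rw [hn] at this
      linarith only [hq1, this]
    have e2 : 2 * Real.cosh (2 * Real.pi * t) - 2 * Real.cos (2 * Real.pi * a) =
        Real.exp (2 * Real.pi * t) * ‖1 + z‖ ^ 2 := by
      have e3 : Real.exp (2 * Real.pi * t) * qq t = 1 := by
        unfold qq
        rw [← Real.exp_add]
        simp
      have e4 : Real.exp (-(2 * Real.pi * t)) = qq t := rfl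
      rw [e1, Real.cosh_eq, e4]
      linear_combination (2 * Real.cos (2 * Real.pi * a) - qq t) * e3
    rw [e2, Real.log_mul (Real.exp_pos _).ne' (by positivity), Real.log_exp, Real.log_pow]
    push_cast
    ring
  rw [Complex.sub_re, hl, hT, Complex.sub_re, hre] at h1
  have e5 : (z ^ 2 / 2).re = (z ^ 2).re / 2 := by
    rw [Complex.div_re]
    simp
    ring
  rw [e5, hre2] at h1
  have e6 : LL ⟨a, t⟩ - Real.pi * t - (-(qq t * Real.cos (2 * Real.pi * a)) -
      qq t ^ 2 * Real.cos (4 * Real.pi * a) / 2) = LL ⟨a, t⟩ - Real.pi * t +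
    qq t * Real.cos (2 * Real.pi * a) + 1 / 2 * qq t ^ 2 * Real.cos (4 * Real.pi * a) := by ring
  rw [e6] at h1
  refine h1.trans (le_of_eq ?_)
  have : 1 - qq t ≠ 0 := by linarith only [hq1]
  field_simp
  norm_num

/-- the difference -/
noncomputable def hd (t a : ℝ) : ℝ :=
  uu a t - Real.pi * t * (a - 1 / 2) + 1 / (2 * Real.pi) * sq2 (qq t) a

theorem hd_deriv {a t : ℝ} (ht : 0 < t) : HasDerivAt (hd t) (LL ⟨a, t⟩ - Real.pi * t +
    qq t * Real.cos (2 * Real.pi * a) + 1 / 2 * qq t ^ 2 * Real.cos (4 * Real.pi * a)) a := by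
  have h1 := uu_a (a := a) ht
  have h2 : HasDerivAt (fun a => Real.pi * t * (a - 1 / 2)) (Real.pi * t * 1) a :=
    ((hasDerivAt_id a).sub_const _).const_mul _
  have h3 : HasDerivAt (fun a => Real.sin (2 * Real.pi * a))
      (Real.cos (2 * Real.pi * a) * (2 * Real.pi * 1)) a :=
    ((hasDerivAt_id a).const_mul (2 * Real.pi)).sin
  have h4 : HasDerivAt (fun a => Real.sin (4 * Real.pi * a))
      (Real.cos (4 * Real.pi * a) * (4 * Real.pi * 1)) a :=
    ((hasDerivAt_id a).const_mul (4 * Real.pi)).sin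
  have h5 := (h1.sub h2).add (((h3.const_mul (qq t)).add
    (h4.const_mul (1 / 4 * qq t ^ 2))).const_mul (1 / (2 * Real.pi)))
  refine h5.congr_deriv ?_
  have := Real.pi_pos
  field_simp
  ring

theorem hd_close {a b t : ℝ} (ht : 0 < t) (hb : hd t b = 0) (hab : |a - b| ≤ 1 / 4) :
    |hd t a| ≤ qq t ^ 3 / (12 * (1 - qq t)) := by
  have hp := Real.pi_pos
  have hq0 : 0 < qq t := Real.exp_pos _
  have hq1 : qq t < 1 := by
    unfold qq
    rw [Real.exp_lt_one_iff]
    nlinarith only [hp, ht, mul_pos hp ht]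
  have h := Convex.norm_image_sub_le_of_norm_hasDerivWithin_le (s := Set.univ) (f := hd t)
    (f' := fun a => LL ⟨a, t⟩ - Real.pi * t +
    qq t * Real.cos (2 * Real.pi * a) + 1 / 2 * qq t ^ 2 * Real.cos (4 * Real.pi * a))
    (C := qq t ^ 3 / (3 * (1 - qq t))) (x := b) (y := a)
    (fun x _ => (hd_deriv ht).hasDerivWithinAt)
    (fun x _ => by rw [Real.norm_eq_abs]; exact LL_ser ht) convex_univ trivial trivial
  rw [hb, sub_zero, Real.norm_eq_abs, Real.norm_eq_abs] at h
  have hk : 0 ≤ qq t ^ 3 / (3 * (1 - qq t)) := by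
    apply div_nonneg
    · positivity
    · linarith only [hq1]
  have e : qq t ^ 3 / (12 * (1 - qq t)) = qq t ^ 3 / (3 * (1 - qq t)) * (1 / 4) := by
    have : 1 - qq t ≠ 0 := by linarith only [hq1]
    field_simp
    norm_num
  rw [e]
  exact h.trans (mul_le_mul_of_nonneg_left hab hk)

theorem hd_add_one {a t : ℝ} (ht : 0 < t) : hd t (a + 1) = hd t a := by
  unfold hd sq2
  rw [uu_add_one, abs_of_pos ht]
  have e1 : Real.sin (2 * Real.pi * (a + 1)) = Real.sin (2 * Real.pi * a) := by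
    rw [mul_add, mul_one, Real.sin_add_two_pi]
  have e2 : Real.sin (4 * Real.pi * (a + 1)) = Real.sin (4 * Real.pi * a) := by
    rw [show 4 * Real.pi * (a + 1) = 4 * Real.pi * a + 2 * Real.pi + 2 * Real.pi by ring,
      Real.sin_add_two_pi, Real.sin_add_two_pi]
  rw [e1, e2]
  ring

theorem hd_zero {t : ℝ} (ht : 0 < t) : hd t 0 = 0 := by
  unfold hd sq2
  rw [UA.uu_zero, abs_of_pos ht]
  simp
  ring

theorem hd_half {t : ℝ} : hd t (1 / 2) = 0 := by
  have h := uu_one_sub (1 / 2) t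
  have h1 : uu (1 / 2) t = 0 := by
    norm_num at h
    linarith only [h]
  unfold hd sq2
  rw [h1, show 2 * Real.pi * (1 / 2) = Real.pi by ring, show 4 * Real.pi * (1 / 2) = 2 * Real.pi by ring,
    Real.sin_pi, Real.sin_two_pi]
  ring

theorem hd01 {a t : ℝ} (ht : 0 < t) (h0 : 0 ≤ a) (h1 : a ≤ 1) :
    |hd t a| ≤ qq t ^ 3 / (12 * (1 - qq t)) := by
  rcases le_total a (1 / 4) with h | h
  · exact hd_close ht (hd_zero ht) (by rw [abs_le]; constructor <;> linarith only [h0, h])
  · rcases le_total a (3 / 4) with h' | h'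
    · exact hd_close ht hd_half (by rw [abs_le]; constructor <;> linarith only [h, h'])
    · refine hd_close ht (b := 1) ?_ (by rw [abs_le]; constructor <;> linarith only [h', h1])
      rw [← zero_add (1 : ℝ), hd_add_one ht, hd_zero ht]

/-- two terms of the series -/
theorem uu_ser {a t : ℝ} (ht : 0 < t) (h0 : 0 ≤ a) (h1 : a ≤ 2) :
    |uu a t - (Real.pi * t * (a - 1 / 2) - 1 / (2 * Real.pi) * sq2 (qq t) a)| ≤
      qq t ^ 3 / (12 * (1 - qq t)) := by
  have h : |hd t a| ≤ qq t ^ 3 / (12 * (1 - qq t)) := by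
    rcases le_total a 1 with h | h
    · exact hd01 ht h0 h
    · rw [← sub_add_cancel a 1, hd_add_one ht]
      exact hd01 ht (by linarith only [h]) (by linarith only [h1])
  have e : uu a t - (Real.pi * t * (a - 1 / 2) - 1 / (2 * Real.pi) * sq2 (qq t) a) = hd t a := by
    unfold hd
    ring
  rw [e]
  exact h

end ZA

end ZD

end Pool.Agent.Work.MP_b30479_gt.G2
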