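import Pool.Agent.Work.MP_b30479_gt.G2.ZRAe
import Pool.Agent.Work.MP_b30479_gt.G2.ZRAs
import Pool.Agent.Work.MP_b30479_gt.G2.ZRAt

/-!
# Rows at rings, side of the ring: the word part without numbers
-/

namespace Pool.Agent.Work.MP_b30479_gt.G2

open VOL NumU

namespace ZD

namespace ZA

theorem fR_uu (x Y σ η : ℝ) : fR ⟨x, Y⟩ ⟨σ, η⟩ =
    uu (x + 1 / 2 + σ) (Y + η) + uu (x + 1 / 2 - σ) (Y - η) - 2 * uu x Y := by
  unfold fR uu
  have e1 : (⟨x, Y⟩ : ℂ) + 1 / 2 + ⟨σ, η⟩ = ⟨x + 1 / 2 + σ, Y + η⟩ := by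
    apply Complex.ext <;> simp
  have e2 : (⟨x, Y⟩ : ℂ) + 1 / 2 - ⟨σ, η⟩ = ⟨x + 1 / 2 - σ, Y - η⟩ := by
    apply Complex.ext <;> simp
  rw [e1, e2]

/-- right -/
noncomputable def FR (x Y s e : ℝ) : ℝ :=
  uu (2 * x - 1 + s) (Y + e) - uu s (Y - e) - 2 * uu x Y + Real.pi * e
/-- between -/
noncomputable def FM (x Y s e : ℝ) : ℝ :=
  uu (2 * x - 1 - s) (Y + e) + uu s (Y - e) + Real.pi * Y - 2 * uu x Y
/-- at height `0` -/
noncomputable def OR (x s e : ℝ) : ℝ := uu (2 * x - 1 + s) e - uu s e - 2 * uu x 0 + Real.pi * e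
noncomputable def OM (x s e : ℝ) : ℝ :=
  uu (2 * x - 1 - s) e + uu s e + 2 * (Real.pi * e) - 2 * uu x 0

theorem uu_two_x (x s t : ℝ) : uu (2 * x + s) t = uu (2 * x - 1 + s) t + Real.pi * |t| := by
  rw [← uu_add_one]
  congr 1
  ring

theorem fA_R {x Y s e : ℝ} (h : 0 ≤ Y + e) : fA x Y (x - 1 / 2 + s) e = FR x Y s e := by
  unfold fA FR
  rw [fR_uu, show x + 1 / 2 + (x - 1 / 2 + s) = 2 * x + s by ring,
    show x + 1 / 2 - (x - 1 / 2 + s) = 1 - s by ring, uu_one_sub, uu_two_x, abs_of_nonneg h]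
  ring

theorem fA_L {x Y s e : ℝ} (h : e ≤ Y) : fA x Y (-(x - 1 / 2) - s) e = FR x Y s (-e) := by
  unfold fA FR
  rw [fR_uu, show x + 1 / 2 + (-(x - 1 / 2) - s) = 1 - s by ring,
    show x + 1 / 2 - (-(x - 1 / 2) - s) = 2 * x + s by ring, uu_one_sub, uu_two_x,
    abs_of_nonneg (sub_nonneg.2 h), sub_neg_eq_add, ← sub_eq_add_neg]
  ring

theorem fA_M {x Y s e : ℝ} (h0 : 0 ≤ Y + e) (h : e ≤ Y) :
    fA x Y (x - 1 / 2 - s) e = FM x Y s e := by
  unfold fA FM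
  rw [fR_uu, show x + 1 / 2 + (x - 1 / 2 - s) = 2 * x - 1 - s + 1 by ring,
    show x + 1 / 2 - (x - 1 / 2 - s) = s + 1 by ring, uu_add_one, uu_add_one,
    abs_of_nonneg h0, abs_of_nonneg (sub_nonneg.2 h)]
  ring

theorem o_R {x s e : ℝ} (h : 0 ≤ e) : fR ⟨x, 0⟩ ⟨x - 1 / 2 + s, e⟩ = OR x s e := by
  rw [fR_uu, show x + 1 / 2 + (x - 1 / 2 + s) = 2 * x + s by ring,
    show x + 1 / 2 - (x - 1 / 2 + s) = 1 - s by ring, uu_one_sub, uu_two_x, zero_add,
    zero_sub, uu_neg, abs_of_nonneg h]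
  unfold OR
  ring

theorem o_L {x s e : ℝ} (h : 0 ≤ e) : fR ⟨x, 0⟩ ⟨-(x - 1 / 2) - s, e⟩ = OR x s e := by
  rw [fR_uu, show x + 1 / 2 + (-(x - 1 / 2) - s) = 1 - s by ring,
    show x + 1 / 2 - (-(x - 1 / 2) - s) = 2 * x + s by ring, uu_one_sub, uu_two_x, zero_add,
    zero_sub, uu_neg, abs_neg, abs_of_nonneg h]
  unfold OR
  ring

theorem o_M {x s e : ℝ} (h : 0 ≤ e) : fR ⟨x, 0⟩ ⟨x - 1 / 2 - s, e⟩ = OM x s e := by
  rw [fR_uu, show x + 1 / 2 + (x - 1 / 2 - s) = 2 * x - 1 - s + 1 by ring,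
    show x + 1 / 2 - (x - 1 / 2 - s) = s + 1 by ring, uu_add_one, uu_add_one, zero_add,
    zero_sub, uu_neg, abs_neg, abs_of_nonneg h]
  unfold OM
  ring

/-! ### slopes for `a ∈ [1/2, 1]` -/

theorem slope_ge1 {a t t' : ℝ} (h0 : 0 ≤ a) (h1 : a ≤ 1) (ht : 0 ≤ t) (htt : t ≤ t') :
    uu a t ≤ uu a t' + Real.pi / 2 * (t' - t) := by
  have hp := Real.pi_pos
  rcases le_total a (1 / 2) with h | h
  · exact slope_ge h0 h ht htt
  · have h2 := slope_le (a := 1 - a) (by linarith only [h1]) (by linarith only [h]) ht htt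
    rw [uu_one_sub, uu_one_sub] at h2
    nlinarith only [h2, htt, hp]

theorem slope_hi {a t t' : ℝ} (h0 : 1 / 2 ≤ a) (h1 : a ≤ 1) (ht : 0 ≤ t) (htt : t ≤ t') :
    uu a t ≤ uu a t' := by
  have h2 := slope_le (a := 1 - a) (by linarith only [h1]) (by linarith only [h0]) ht htt
  rw [uu_one_sub, uu_one_sub] at h2
  linarith only [h2]

/-! ### low heights: `Y ≤ η` -/

theorem low_M {x Y s e : ℝ} (hx : 1 / 2 ≤ x) (hx1 : x ≤ 3 / 4) (h0 : 0 ≤ Y) (h1 : Y ≤ e)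
    (s0 : 0 ≤ s) (s1 : s ≤ 2 * x - 1) :
    fA x Y (x - 1 / 2 - s) e ≤ OM x s e - Real.pi / 2 * Y := by
  have hp := Real.pi_pos
  unfold fA OM
  rw [fR_uu, show x + 1 / 2 + (x - 1 / 2 - s) = 2 * x - 1 - s + 1 by ring,
    show x + 1 / 2 - (x - 1 / 2 - s) = s + 1 by ring, uu_add_one, uu_add_one,
    abs_of_nonneg (by linarith only [h0, h1] : 0 ≤ Y + e), abs_of_nonpos (by linarith only [h1] : Y - e ≤ 0)]
  have a1 := slope_le (a := 2 * x - 1 - s) (t := e) (t' := Y + e) (by linarith only [s1]) (by linarith only [hx1, s0])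
    (by linarith only [h0, h1]) (by linarith only [h0])
  have a2 := slope_ge (a := s) (t := e - Y) (t' := e) s0 (by linarith only [hx1, s1]) (by linarith only [h1]) (by linarith only [h0])
  have a3 := slope_hi (a := x) (t := 0) (t' := Y) hx (by linarith only [hx1]) le_rfl h0
  have a4 : uu s (Y - e) = uu s (e - Y) := by rw [← uu_neg, neg_sub]
  rw [a4]
  linarith only [a1, a2, a3]

theorem low_L {x Y s e : ℝ} (hx : 1 / 2 ≤ x) (h0 : 0 ≤ Y) (h1 : Y ≤ e)
    (s0 : 0 ≤ s) (s1 : s ≤ 1 / 2) (s2 : 2 * x - 1 + s ≤ 1) (hx1 : x ≤ 1) :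
    fA x Y (-(x - 1 / 2) - s) e ≤ OR x s e - Real.pi * Y := by
  have hp := Real.pi_pos
  unfold fA OR
  rw [fR_uu, show x + 1 / 2 + (-(x - 1 / 2) - s) = 1 - s by ring,
    show x + 1 / 2 - (-(x - 1 / 2) - s) = 2 * x + s by ring, uu_one_sub, uu_two_x,
    abs_of_nonpos (by linarith only [h1] : Y - e ≤ 0)]
  have a1 := slope_ge (a := s) (t := e) (t' := Y + e) s0 s1 (by linarith only [h0, h1]) (by linarith only [h0])
  have a2 := slope_ge1 (a := 2 * x - 1 + s) (t := e - Y) (t' := e) (by linarith only [hx, s0]) s2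
    (by linarith only [h1]) (by linarith only [h0])
  have a3 := slope_hi (a := x) (t := 0) (t' := Y) hx hx1 le_rfl h0
  have a4 : uu (2 * x - 1 + s) (Y - e) = uu (2 * x - 1 + s) (e - Y) := by rw [← uu_neg, neg_sub]
  rw [a4]
  linarith only [a1, a2, a3]

/-- the arithmetic of the low heights -/
theorem low_fin {f f0 B c K m Y : ℝ} (h0 : 0 ≤ Y) (hY : Y ≤ 1 / 8) (hf : f ≤ f0 - m * Y)
    (hm : 3 / 2 ≤ m) (hB : 0 ≤ B) (hK : f0 ≤ K) (hc : 0 ≤ K - c)
    (h : 49 / 5 * (K - c) + 1 / 1000 ≤ m) :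
    f - f0 + (Y / 1000 + PY Y * (f - B - c)) ≤ 0 := by
  have hP : 0 ≤ PY Y := by
    unfold PY
    positivity
  have h1 : PY Y * (f - B - c) ≤ PY Y * (K - m * Y - c) :=
    mul_le_mul_of_nonneg_left (by linarith only [hf, hB, hK]) hP
  have h2 : PY Y * (K - m * Y - c) ≤ 49 / 5 * (K - c) * Y := by
    unfold PY
    have e1 : (49 / 5 * Y + 90 * Y ^ 3) * (K - m * Y - c) = 49 / 5 * (K - c) * Y +
      Y ^ 2 * (90 * Y * (K - c) - 49 / 5 * m - 90 * m * Y ^ 2) := by ring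
    rw [e1]
    have e2 : 90 * Y * (K - c) - 49 / 5 * m - 90 * m * Y ^ 2 ≤ 0 := by
      have e3 : Y * (K - c) ≤ 1 / 8 * (K - c) := mul_le_mul_of_nonneg_right hY hc
      have e4 : 0 ≤ m * Y ^ 2 := by positivity
      nlinarith only [hm, h, e3, e4]
    have e5 : Y ^ 2 * (90 * Y * (K - c) - 49 / 5 * m - 90 * m * Y ^ 2) ≤ 0 :=
      mul_nonpos_of_nonneg_of_nonpos (by positivity) e2
    linarith only [e5]
  have h3 : (49 / 5 * (K - c) + 1 / 1000) * Y ≤ m * Y := mul_le_mul_of_nonneg_right h h0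
  linarith only [hf, h1, h2, h3]

/-! ### between: reduction to `η = 0` -/

theorem red_M {x Y s e : ℝ} (hx1 : x ≤ 3 / 4) (h0 : 0 ≤ e) (h1 : e ≤ Y)
    (s0 : 0 ≤ s) (s1 : s ≤ 2 * x - 1) (hP : PY Y ≤ 1) :
    (1 + PY Y) * FM x Y s e - OM x s e ≤ (1 + PY Y) * FM x Y s 0 - OM x s 0 := by
  have hp := Real.pi_pos
  have hY := h0.trans h1
  have hP0 : 0 ≤ PY Y := by
    unfold PY
    positivity
  unfold FM OM
  rw [add_zero, sub_zero]
  have a1 := slope_le (a := 2 * x - 1 - s) (t := Y) (t' := Y + e) (by linarith only [s1]) (by linarith only [hx1, s0])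
    hY (by linarith only [h0])
  have a2 := slope_ge (a := s) (t := Y - e) (t' := Y) s0 (by linarith only [hx1, s1]) (by linarith only [h1]) (by linarith only [h0])
  have a3 := slope_ge (a := 2 * x - 1 - s) (t := 0) (t' := e) (by linarith only [s1]) (by linarith only [hx1, s0])
    le_rfl h0
  have a4 := slope_ge (a := s) (t := 0) (t' := e) s0 (by linarith only [hx1, s1]) le_rfl h0
  have a5 : (1 + PY Y) * (uu (2 * x - 1 - s) (Y + e) + uu s (Y - e) + Real.pi * Y - 2 * uu x Y) ≤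
      (1 + PY Y) * (uu (2 * x - 1 - s) Y + uu s Y + Real.pi * Y - 2 * uu x Y +
        Real.pi / 2 * e) :=
    mul_le_mul_of_nonneg_left (by linarith only [a1, a2]) (by linarith only [hP0])
  have a6 : (1 + PY Y) * (Real.pi / 2 * e) ≤ 2 * (Real.pi / 2 * e) :=
    mul_le_mul_of_nonneg_right (by linarith only [hP]) (by positivity)
  linarith only [a3, a4, a5, a6]

/-! ### the derivative argument -/

theorem H_mono {f f' : ℝ → ℝ} {a b K : ℝ} (hab : a ≤ b) (hc : Continuous f)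
    (hd : ∀ y ∈ Set.Ioo a b, HasDerivAt f (f' y) y)
    (h : ∀ y ∈ Set.Ioo a b, (1 + PY y) * f' y + (1 / 1000 + (49 / 5 + 270 * y ^ 2) *
      (f y - K)) ≤ 0) :
    f b + (b / 1000 + PY b * (f b - K)) ≤ f a + (a / 1000 + PY a * (f a - K)) := by
  have hPc : Continuous PY := by
    unfold PY
    fun_prop
  have hPd : ∀ y, HasDerivAt PY (49 / 5 + 270 * y ^ 2) y := by
    intro y
    have h1 : HasDerivAt (fun Y : ℝ => 49 / 5 * Y + 90 * Y ^ 3)
        (49 / 5 * 1 + 90 * (3 * y ^ 2 * 1)) y :=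
      ((hasDerivAt_id y).const_mul _).add (((hasDerivAt_id y).pow 3).const_mul _)
    exact h1.congr_deriv (by ring)
  refine mono_of (f := fun y => f y + (y / 1000 + PY y * (f y - K)))
    (f' := fun y => f' y + (1 / 1000 + ((49 / 5 + 270 * y ^ 2) * (f y - K) + PY y * f' y))) hab
    (Continuous.continuousOn (by fun_prop)) ?_ ?_
  · intro y hy
    exact (hd y hy).add (((hasDerivAt_id y).div_const _).add
      ((hPd y).mul ((hd y hy).sub_const K)))
  · intro y hy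
    have := h y hy
    linarith only [this]

theorem FR_cont (x s e : ℝ) : Continuous fun Y => FR x Y s e := by
  unfold FR
  have h1 := cont_uu' (f := fun _ : ℝ => 2 * x - 1 + s) (g := fun Y => Y + e) (by fun_prop)
    (by fun_prop)
  have h2 := cont_uu' (f := fun _ : ℝ => s) (g := fun Y => Y - e) (by fun_prop) (by fun_prop)
  have h3 := cont_uu' (f := fun _ : ℝ => x) (g := fun Y : ℝ => Y) (by fun_prop) (by fun_prop)
  exact ((h1.sub h2).sub (h3.const_mul 2)).add continuous_const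

/-- the derivative, `right` -/
noncomputable def FRy (x Y s e : ℝ) : ℝ :=
  NumI.lnB s (Y - e) - NumI.lnB (2 * x - 1 + s) (Y + e) + 2 * NumI.lnB x Y

theorem uu_t' {a c τ : ℝ} (h0 : 0 < a) (h1 : a < 1) :
    HasDerivAt (fun τ => uu a (τ - c)) (-NumI.lnB a (τ - c)) τ := by
  have h := uu_t (a := a) (c := -c) (τ := τ) h0 h1
  simp only [← sub_eq_add_neg] at h
  exact h

theorem uu_t0 {a τ : ℝ} (h0 : 0 < a) (h1 : a < 1) :
    HasDerivAt (fun τ => uu a τ) (-NumI.lnB a τ) τ := by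
  have h := uu_t (a := a) (c := 0) (τ := τ) h0 h1
  simp only [add_zero] at h
  exact h

theorem FR_deriv {x Y s e : ℝ} (hx : 1 / 2 < x) (hx1 : x < 1) (s0 : 0 < s) (s1 : s < 1)
    (s2 : 2 * x - 1 + s < 1) : HasDerivAt (fun Y => FR x Y s e) (FRy x Y s e) Y := by
  have h1 := uu_t (a := 2 * x - 1 + s) (c := e) (τ := Y) (by linarith only [hx, s0]) s2
  have h2 := uu_t' (a := s) (c := e) (τ := Y) s0 s1
  have h3 := uu_t0 (a := x) (τ := Y) (by linarith only [hx, hx1]) hx1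
  have h4 := ((h1.sub h2).sub (h3.const_mul 2)).add_const (Real.pi * e)
  refine h4.congr_deriv ?_
  unfold FRy
  ring

theorem FM_cont (x s : ℝ) : Continuous fun Y => FM x Y s 0 := by
  unfold FM
  have h1 := cont_uu' (f := fun _ : ℝ => 2 * x - 1 - s) (g := fun Y => Y + 0) (by fun_prop)
    (by fun_prop)
  have h2 := cont_uu' (f := fun _ : ℝ => s) (g := fun Y => Y - 0) (by fun_prop) (by fun_prop)
  have h3 := cont_uu' (f := fun _ : ℝ => x) (g := fun Y : ℝ => Y) (by fun_prop) (by fun_prop)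
  exact ((h1.add h2).add (by fun_prop)).sub (h3.const_mul 2)

/-- the derivative, `between` -/
noncomputable def FMy (x Y s : ℝ) : ℝ :=
  Real.pi - NumI.lnB (2 * x - 1 - s) Y - NumI.lnB s Y + 2 * NumI.lnB x Y

theorem FM_deriv {x Y s : ℝ} (hx1 : x < 1) (s0 : 0 < s) (s1 : s < 2 * x - 1) :
    HasDerivAt (fun Y => FM x Y s 0) (FMy x Y s) Y := by
  have h1 := uu_t (a := 2 * x - 1 - s) (c := 0) (τ := Y) (by linarith only [s1]) (by linarith only [hx1, s0])
  have h2 := uu_t' (a := s) (c := 0) (τ := Y) s0 (by linarith only [hx1, s1])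
  have h3 := uu_t0 (a := x) (τ := Y) (by linarith only [hx1, s0, s1]) hx1
  have h4 := ((h1.add h2).add ((hasDerivAt_id Y).const_mul Real.pi)).sub (h3.const_mul 2)
  refine h4.congr_deriv ?_
  unfold FMy
  rw [add_zero, sub_zero]
  ring

/-! ### the series -/

theorem vs1_no {x Y s e : ℝ} (h : e ≤ 418 / 1000 * (1 / 2 - s)) : ¬ 0 < vs1.val [x, Y, s, e] := by
  intro hp
  simp only [vs1, vs, ve, E.val, lk2, lk3] at hp
  norm_num at hp
  linarith only [h, hp]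

theorem vs2_no {x Y s e : ℝ} (h : e ≤ 418 / 1000 * (1 / 2 + s)) : ¬ 0 < vs2.val [x, Y, s, e] := by
  intro hp
  simp only [vs2, vs, ve, E.val, lk2, lk3] at hp
  norm_num at hp
  linarith only [h, hp]

noncomputable def srR (q a : ℝ) : ℝ :=
  q * Real.sin (2 * Real.pi * a) - 1 / 4 * q ^ 2 * Real.sin (4 * Real.pi * a)
noncomputable def erR (q : ℝ) : ℝ := q ^ 3 / (12 * (1 - q))

theorem sr_val (Q a : E) (xs : List ℝ) : (sr Q a).val xs = srR (Q.val xs) (a.val xs) := by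
  simp only [sr, two, E.val, srR]
  push_cast
  rw [show Real.pi * (2 / 1 * a.val xs) = 2 * Real.pi * a.val xs by ring,
    show Real.pi * (4 / 1 * a.val xs) = 4 * Real.pi * a.val xs by ring]

theorem er_val (Q : E) (xs : List ℝ) : (er Q).val xs = erR (Q.val xs) := by
  simp only [er, E.val, erR]
  push_cast
  rw [div_eq_mul_inv (Q.val xs ^ 3), mul_inv]
  ring

theorem qe_val (t : E) (xs : List ℝ) : (qe t).val xs = qq (t.val xs) := by
  simp only [qe, two, E.val, qq]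
  push_cast
  rw [show 2 / 1 * Real.pi * t.val xs = 2 * Real.pi * t.val xs by ring]

noncomputable def SER (x Y σ η : ℝ) : ℝ :=
  1 / (2 * Real.pi) * (srR (qq (Y + η)) (x + σ) + srR (qq (Y - η)) (x - σ) +
    2 * (qq Y * Real.sin (2 * Real.pi * x) + 1 / 4 * qq Y ^ 2 * Real.sin (4 * Real.pi * x))) +
    (erR (qq (Y + η)) + (erR (qq (Y - η)) + 2 * erR (qq Y)))

theorem lk4 (a b c d e : ℝ) (l : List ℝ) : NumI.lkR (a :: b :: c :: d :: e :: l) 4 = e := rfl
theorem lk5 (a b c d e f : ℝ) (l : List ℝ) : NumI.lkR (a :: b :: c :: d :: e :: f :: l) 5 = f := rfl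
theorem lk6 (a b c d e f g : ℝ) (l : List ℝ) :
    NumI.lkR (a :: b :: c :: d :: e :: f :: g :: l) 6 = g := rfl

theorem ser_val (x Y σ η : ℝ) : ser.val [x, Y, σ, η] = SER x Y σ η := by
  unfold ser SER
  simp only [E.val, sr_val, er_val, qe_val, two, vx, vY, vs, ve, List.cons_append, List.nil_append,
    lk0, lk1, lk2, lk3, lk4, lk5, lk6]
  push_cast
  rw [show Real.pi * (2 / 1 * x) = 2 * Real.pi * x by ring,
    show Real.pi * (4 / 1 * x) = 4 * Real.pi * x by ring]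
  ring

theorem sq2_half (q a : ℝ) : sq2 q (a + 1 / 2) = -srR q a := by
  unfold sq2 srR
  rw [show 2 * Real.pi * (a + 1 / 2) = 2 * Real.pi * a + Real.pi by ring, Real.sin_add_pi,
    show 4 * Real.pi * (a + 1 / 2) = 4 * Real.pi * a + 2 * Real.pi by ring, Real.sin_add_two_pi]
  ring

theorem ser_le {x Y σ η : ℝ} (hx : 1 / 2 ≤ x) (hx1 : x ≤ 1) (h1 : 0 < Y - η) (h2 : 0 < Y + η)
    (s0 : -(1 / 2) ≤ σ) (s1 : σ ≤ 1 / 2) : fA x Y σ η ≤ 2 * Real.pi * η * σ + SER x Y σ η := by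
  have k1 := (abs_le.1 (uu_ser (a := x + 1 / 2 + σ) h2 (by linarith only [hx, s0]) (by linarith only [hx1, s1]))).2
  have k2 := (abs_le.1 (uu_ser (a := x + 1 / 2 - σ) h1 (by linarith only [hx, s1]) (by linarith only [hx1, s0]))).2
  have k3 := (abs_le.1 (uu_ser (a := x) (t := Y) (by linarith only [h1, h2]) (by linarith only [hx]) (by linarith only [hx1]))).1
  rw [show x + 1 / 2 + σ = x + σ + 1 / 2 by ring, sq2_half] at k1
  rw [show x + 1 / 2 - σ = x - σ + 1 / 2 by ring, sq2_half] at k2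
  unfold fA SER erR
  rw [fR_uu, show x + 1 / 2 + σ = x + σ + 1 / 2 by ring,
    show x + 1 / 2 - σ = x - σ + 1 / 2 by ring]
  unfold sq2 at k3
  have e : 1 / (2 * Real.pi) * (srR (qq (Y + η)) (x + σ) + srR (qq (Y - η)) (x - σ) +
    2 * (qq Y * Real.sin (2 * Real.pi * x) + 1 / 4 * qq Y ^ 2 * Real.sin (4 * Real.pi * x))) =
    1 / (2 * Real.pi) * srR (qq (Y + η)) (x + σ) + 1 / (2 * Real.pi) * srR (qq (Y - η)) (x - σ) +
    2 * (1 / (2 * Real.pi) * (qq Y * Real.sin (2 * Real.pi * x) +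
      1 / 4 * qq Y ^ 2 * Real.sin (4 * Real.pi * x))) := by ring
  rw [e]
  nlinarith only [k1, k2, k3]

end ZA

end ZD

end Pool.Agent.Work.MP_b30479_gt.G2
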