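import Pool.Agent.Work.MP_b30479_gt.G2.ZRows
import Pool.Agent.Work.MP_b30479_gt.G2.ML3r
import Pool.Agent.Work.MP_b30479_gt.G2.RngG
import Pool.Agent.Work.MP_b30479_gt.G2.TRb
import Pool.Agent.Work.MP_b30479_gt.G2.WCrit

/-!
# Modes at rings, side of `D`: the lower end of the mode path, analytic part

`rh a y = uu a y - π (a - 1/2) y` is the part of `uu` which decreases exponentially with the height.
`FF w a k2 x Y`: the terms of `D` minus their limit, for one crossing (`w = 1`) or two (`w = 2`).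
`step`: monotonicity of the function in the rows; `crudeF`, `crudeH`: heights `Y ≥ k2` and
`a ∈ [1/2, 1]` or `a ∈ [1, 3/2]`.
-/

namespace Pool.Agent.Work.MP_b30479_gt.G2

open VOL NumU

namespace ZD

namespace RB

/-- the exponentially small part of `uu` -/
noncomputable def rh (a y : ℝ) : ℝ := uu a y - Real.pi * (a - 1 / 2) * y

theorem rh_add_one {a y : ℝ} (hy : 0 ≤ y) : rh (a + 1) y = rh a y := by
  unfold rh
  rw [uu_add_one, abs_of_nonneg hy]
  ring

theorem rh_one_sub (a y : ℝ) : rh (1 - a) y = -rh a y := by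
  unfold rh
  rw [uu_one_sub]
  ring

theorem rh_anti {a y y' : ℝ} (h0 : 1 / 2 ≤ a) (h1 : a ≤ 1) (hy : 0 ≤ y) (h : y ≤ y') :
    rh a y' ≤ rh a y := by
  have h2 := anti_one (f := fun y => uu a y - Real.pi * (a - 1 / 2) * y)
    (f' := fun y => YY ⟨a, y⟩ - Real.pi * (a - 1 / 2)) 0 h
    ((continuous_uu_y a).sub (by fun_prop)) (by
      intro t h2 _ _
      have ht : 0 < t := by linarith only [hy, h2]
      refine ⟨(hasDerivAt_uu_y (Or.inl ht.ne')).sub (by
        simpa using (hasDerivAt_id t).const_mul (Real.pi * (a - 1 / 2))), ?_⟩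
      rw [YY_mk_pos ht]
      have := Tr_le_pi_mul h0 h1 ht
      linarith only [this])
  exact h2

theorem Lr_le_pi {s x : ℝ} (hs : 0 < s) (h0 : 0 ≤ x) (h1 : x ≤ 1 / 2) :
    DT.Lr s x ≤ Real.pi * x * s := by
  have hpi := Real.pi_pos
  have hd : deriv (fun x => DT.Lr s x) = fun x => DT.el s x := by
    funext r
    exact (DT.hasDerivAt_Lr hs).deriv
  have hc : ConvexOn ℝ (Set.Icc (0 : ℝ) (1 / 2)) (fun x => DT.Lr s x) := by
    apply MonotoneOn.convexOn_of_deriv (convex_Icc _ _)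
    · exact fun r _ => (DT.hasDerivAt_Lr hs).continuousAt.continuousWithinAt
    · exact fun r _ => (DT.hasDerivAt_Lr hs).differentiableAt.differentiableWithinAt
    · rw [interior_Icc, hd]
      intro p hp q hq hpq
      have a1 := DT.LrDer.cosh_gt_cos (v := p) hs
      have a2 := DT.LrDer.cosh_gt_cos (v := q) hs
      have a3 : Real.cos (2 * Real.pi * q) ≤ Real.cos (2 * Real.pi * p) := by
        apply Real.cos_le_cos_of_nonneg_of_le_pi
        · have := hp.1
          positivity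
        · nlinarith only [hpi, hq, hq.2]
        · nlinarith only [hpi, hpq]
      have a4 := Real.log_le_log (show 0 < 2 * Real.cosh (2 * Real.pi * s) -
        2 * Real.cos (2 * Real.pi * p) by linarith only [a1]) (show 2 * Real.cosh (2 * Real.pi * s) -
        2 * Real.cos (2 * Real.pi * p) ≤ 2 * Real.cosh (2 * Real.pi * s) -
        2 * Real.cos (2 * Real.pi * q) by linarith only [a3])
      simp only [DT.el]
      linarith only [a4]
  have h2 := hc.2 (Set.left_mem_Icc.mpr (by norm_num)) (Set.right_mem_Icc.mpr (by norm_num))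
    (show 0 ≤ 1 - 2 * x by linarith only [h1]) (show 0 ≤ 2 * x by linarith only [h0]) (by ring)
  simp only [smul_eq_mul, mul_zero, zero_add] at h2
  rw [show 2 * x * (1 / 2) = x by ring, DT.Lr_half hs.le, DT.Lr_zero_right] at h2
  linarith only [h2]

theorem rh_nonneg_pos {a y : ℝ} (h0 : 1 / 2 ≤ a) (h1 : a ≤ 1) (hy : 0 < y) : 0 ≤ rh a y := by
  have h2 := Lr_le_pi hy (x := 1 - a) (by linarith only [h1]) (by linarith only [h0])
  have h3 := rh_one_sub a y
  have h4 : rh (1 - a) y = DT.Lr y (1 - a) - Real.pi * (1 - a) * y := by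
    unfold rh
    rw [uu_Lr, abs_of_pos hy]
    ring
  linarith only [h2, h3, h4]

theorem rh_nonneg {a y : ℝ} (h0 : 1 / 2 ≤ a) (h1 : a ≤ 1) (hy : 0 ≤ y) : 0 ≤ rh a y :=
  (rh_nonneg_pos h0 h1 (show 0 < y + 1 by linarith only [hy])).trans (rh_anti h0 h1 hy (by linarith only []))

/-- `a ∈ [1, 3/2]` -/
theorem rh_nonpos {a y : ℝ} (h0 : 1 ≤ a) (h1 : a ≤ 3 / 2) (hy : 0 ≤ y) : rh a y ≤ 0 := by
  have h2 := rh_nonneg (a := 1 - (a - 1)) (by linarith only [h1]) (by linarith only [h0]) hy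
  rw [rh_one_sub] at h2
  have h3 := rh_add_one (a := a - 1) hy
  rw [sub_add_cancel] at h3
  linarith only [h2, h3]

/-! ### bounds for the value at height `0` -/

section
open NumU.E

theorem n6 : uu (5 / 6) 0 ≤ 1617 / 10000 := by
  have h : chk [sub (q 1617 10000) (uu (q 5 6) (q 0 1))] 1 [NumI.V.of 1 0 0] = true := by
    decide +kernel
  have hp := pos_of_chk (chk1 h (by norm_num) (x := 0) (by norm_num) (by norm_num))
  simp only [E.val] at hp
  norm_num at hp ⊢
  linarith only [hp]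

theorem n10 : uu (3 / 5) 0 ≤ 69 / 1000 := by
  have h : chk [sub (q 69 1000) (uu (q 3 5) (q 0 1))] 1 [NumI.V.of 1 0 0] = true := by
    decide +kernel
  have hp := pos_of_chk (chk1 h (by norm_num) (x := 0) (by norm_num) (by norm_num))
  simp only [E.val] at hp
  norm_num at hp ⊢
  linarith only [hp]

theorem n1000 : uu (999 / 1000) 0 ≤ 7 / 1000 := by
  have h : chk [sub (q 7 1000) (uu (q 999 1000) (q 0 1))] 1 [NumI.V.of 1 0 0] = true := by
    decide +kernel
  have hp := pos_of_chk (chk1 h (by norm_num) (x := 0) (by norm_num) (by norm_num))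
  simp only [E.val] at hp
  norm_num at hp ⊢
  linarith only [hp]

theorem n90 : uu (9 / 10) 0 ≤ 1475 / 10000 := by
  have h : chk [sub (q 1475 10000) (uu (q 9 10) (q 0 1))] 1 [NumI.V.of 1 0 0] = true := by
    decide +kernel
  have hp := pos_of_chk (chk1 h (by norm_num) (x := 0) (by norm_num) (by norm_num))
  simp only [E.val] at hp
  norm_num at hp ⊢
  linarith only [hp]

theorem sin25 : 1 ≤ 2 * Real.sin (Real.pi * (2 / 5)) := by
  have h : Real.sin (Real.pi * (1 / 6)) ≤ Real.sin (Real.pi * (2 / 5)) :=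
    Real.sin_le_sin_of_le_of_le_pi_div_two (by linarith only [Real.pi_pos]) (by linarith only [Real.pi_pos])
      (by linarith only [Real.pi_pos])
  rw [show Real.pi * (1 / 6) = Real.pi / 6 by ring, Real.sin_pi_div_six] at h
  linarith only [h]

theorem sin_small {y : ℝ} (h0 : 0 < y) (h1 : y ≤ 1 / 6) :
    0 ≤ -Real.log (2 * Real.sin (Real.pi * y)) := by
  have h2 : Real.sin (Real.pi * y) ≤ Real.sin (Real.pi / 6) :=
    Real.sin_le_sin_of_le_of_le_pi_div_two (by nlinarith only [h0, Real.pi_pos]) (by linarith only [Real.pi_pos])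
      (by nlinarith only [h0, h1, Real.pi_pos])
  rw [Real.sin_pi_div_six] at h2
  have h3 : 0 < Real.sin (Real.pi * y) := by
    apply Real.sin_pos_of_pos_of_lt_pi
    · have := Real.pi_pos
      positivity
    · nlinarith only [h1, Real.pi_pos]
  have := Real.log_nonpos (x := 2 * Real.sin (Real.pi * y)) (by linarith only [h3]) (by linarith only [h2])
  linarith only [this]

end

theorem uu_lam (a : ℝ) : uu a 0 = L3.lam (1 - a) := by
  have h := L3.lam_uu (1 - a)
  rw [uu_one_sub, neg_neg] at h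
  exact h.symm

/-- `a` right of `1 - y` -/
theorem uu_top {a y : ℝ} (y0 : 0 < y) (y1 : y ≤ 1 / 6) (h0 : 1 - y ≤ a) (h1 : a ≤ 1) :
    uu a 0 ≤ uu (1 - y) 0 := by
  rw [uu_lam, uu_lam, sub_sub_cancel]
  have h2 := L3.lam_tangent (x := 1 - a) (y := y) (by linarith only [h1]) (by linarith only [y0, y1, h0]) y0 (by linarith only [y0, y1])
  have h3 := mul_nonneg (sin_small y0 y1) (show 0 ≤ y - (1 - a) by linarith only [h0])
  linarith only [h2, h3]

theorem rh_le {a y : ℝ} (h0 : 1 / 2 ≤ a) (h1 : a ≤ 1) (hy : 0 ≤ y) : rh a y ≤ 1617 / 10000 := by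
  have h2 := rh_anti h0 h1 le_rfl hy
  have h3 : rh a 0 = uu a 0 := by unfold rh; ring
  have h4 := L3.lam_tangent (x := 1 - a) (y := 1 / 6) (by linarith only [h1]) (by linarith only [h0]) (by norm_num)
    (by norm_num)
  rw [show Real.pi * (1 / 6) = Real.pi / 6 by ring, Real.sin_pi_div_six,
    show (2 : ℝ) * (1 / 2) = 1 by norm_num, Real.log_one, ← uu_lam] at h4
  have h5 : L3.lam (1 / 6) = uu (5 / 6) 0 := by
    rw [uu_lam]
    norm_num
  have := n6
  linarith only [h2, h3, h4, h5, this]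

theorem rh_le_mid {a y : ℝ} (h0 : 1 / 2 ≤ a) (h1 : a ≤ 3 / 5) (hy : 0 ≤ y) :
    rh a y ≤ 69 / 1000 := by
  have h2 := rh_anti h0 (by linarith only [h1]) le_rfl hy
  have h3 : rh a 0 = uu a 0 := by unfold rh; ring
  have h4 := L3.lam_tangent (x := 1 - a) (y := 2 / 5) (by linarith only [h1]) (by linarith only [h0]) (by norm_num)
    (by norm_num)
  rw [← uu_lam] at h4
  have h5 : L3.lam (2 / 5) = uu (3 / 5) 0 := by
    rw [uu_lam]
    norm_num
  have h6 := Real.log_nonneg sin25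
  have h7 := mul_nonneg h6 (show 0 ≤ 1 - a - 2 / 5 by linarith only [h1])
  have := n10
  linarith only [h2, h3, h4, h5, h7, this]

theorem rh_le_90 {a y : ℝ} (h0 : 9 / 10 ≤ a) (h1 : a ≤ 1) (hy : 0 ≤ y) :
    rh a y ≤ 1475 / 10000 := by
  have h2 := rh_anti (by linarith only [h0]) h1 le_rfl hy
  have h3 : rh a 0 = uu a 0 := by unfold rh; ring
  have h4 := uu_top (a := a) (y := 1 / 10) (by norm_num) (by norm_num) (by linarith only [h0]) h1
  rw [show (1 : ℝ) - 1 / 10 = 9 / 10 by norm_num] at h4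
  linarith only [h2, h3, h4, n90]

theorem rh_le_999 {a y : ℝ} (h0 : 999 / 1000 ≤ a) (h1 : a ≤ 1) (hy : 0 ≤ y) :
    rh a y ≤ 7 / 1000 := by
  have h2 := rh_anti (by linarith only [h0]) h1 le_rfl hy
  have h3 : rh a 0 = uu a 0 := by unfold rh; ring
  have h4 := uu_top (a := a) (y := 1 / 1000) (by norm_num) (by norm_num) (by linarith only [h0]) h1
  rw [show (1 : ℝ) - 1 / 1000 = 999 / 1000 by norm_num] at h4
  linarith only [h2, h3, h4, n1000]

/-! ### the function of the rows -/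

/-- the terms of `D` minus their limit -/
noncomputable def FF (w a k2 x Y : ℝ) : ℝ :=
  Real.pi * (a - 1 / 2) * (k2 - Y) + uu a (k2 - Y) - w * rh x Y

theorem dA1_FF (x Y k1 k2 : ℝ) : dA1 x Y k1 k2 = FF 1 (x + k1) k2 x Y + cA1 k1 k2 := by
  unfold dA1 FF cA1 rh
  ring

theorem dA2_FF (x Y k1 k2 : ℝ) : dA2 x Y k1 k2 = FF 2 (x + k1) k2 x Y + cA2 k1 k2 := by
  unfold dA2 FF cA2 rh
  ring

theorem FF_ge {w a k2 x Y : ℝ} (h : k2 ≤ Y) : FF w a k2 x Y = rh a (Y - k2) - w * rh x Y := by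
  unfold FF
  rw [← uu_neg, neg_sub]
  unfold rh
  ring

theorem FF_lt {w a k2 x Y : ℝ} : FF w a k2 x Y =
    2 * Real.pi * (a - 1 / 2) * (k2 - Y) + rh a (k2 - Y) - w * rh x Y := by
  unfold FF rh
  ring

theorem cont_rh (x : ℝ) : Continuous fun y => rh x y := by
  unfold rh
  exact (continuous_uu_y x).sub (by fun_prop)

theorem cont_FF (w a k2 x : ℝ) : Continuous fun Y => FF w a k2 x Y := by
  unfold FF
  exact ((by fun_prop : Continuous fun Y : ℝ => Real.pi * (a - 1 / 2) * (k2 - Y)).add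
    ((continuous_uu_y a).comp (by fun_prop : Continuous fun Y : ℝ => k2 - Y))).sub
    (continuous_const.mul (cont_rh x))

/-- the derivative of `FF` -/
noncomputable def FD (w a k2 x Y : ℝ) : ℝ :=
  -(Real.pi * (a - 1 / 2)) - YY ⟨a, k2 - Y⟩ - w * (YY ⟨x, Y⟩ - Real.pi * (x - 1 / 2))

theorem deriv_FF {w a k2 x Y : ℝ} (h : k2 - Y ≠ 0 ∨ (0 < a ∧ a < 1)) (hY : 0 < Y) :
    HasDerivAt (fun Y => FF w a k2 x Y) (FD w a k2 x Y) Y := by
  have e0 : HasDerivAt (fun Y : ℝ => k2 - Y) (-1) Y := by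
    simpa using (hasDerivAt_id Y).const_sub k2
  have e1 : HasDerivAt (fun Y : ℝ => Real.pi * (a - 1 / 2) * (k2 - Y))
      (Real.pi * (a - 1 / 2) * (-1)) Y := e0.const_mul _
  have e2 : HasDerivAt (fun Y : ℝ => uu a (k2 - Y)) (YY ⟨a, k2 - Y⟩ * (-1)) Y :=
    (hasDerivAt_uu_y (x := a) (y := k2 - Y) h).comp Y e0
  have e3 : HasDerivAt (fun Y : ℝ => uu x Y) (YY ⟨x, Y⟩) Y := hasDerivAt_uu_y (Or.inl hY.ne')
  have e4 : HasDerivAt (fun Y : ℝ => Real.pi * (x - 1 / 2) * Y) (Real.pi * (x - 1 / 2)) Y := by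
    simpa using (hasDerivAt_id Y).const_mul (Real.pi * (x - 1 / 2))
  have e5 := (e1.add e2).sub ((e3.sub e4).const_mul w)
  refine e5.congr_deriv ?_
  unfold FD
  ring

/-- the condition on the derivative -/
def Cond (w a k2 x m Y : ℝ) : Prop :=
  (1 + PY Y) * FD w a k2 x Y + 1 / 1000 + (49 / 5 + 270 * Y ^ 2) * (FF w a k2 x Y - m) ≤ 0

theorem step {w a k2 x m p q : ℝ} (hpq : p ≤ q) (hp : 0 ≤ p)
    (hd : ∀ Y, p < Y → Y < q → Y ≠ k2 → Cond w a k2 x m Y) :
    FF w a k2 x q + q / 1000 + PY q * (FF w a k2 x q - m) ≤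
      FF w a k2 x p + p / 1000 + PY p * (FF w a k2 x p - m) := by
  have hPY : ∀ Y, HasDerivAt (fun Y => PY Y) (49 / 5 + 270 * Y ^ 2) Y := by
    intro Y
    have := ((hasDerivAt_id Y).const_mul (49 / 5)).add ((hasDerivAt_pow 3 Y).const_mul 90)
    refine (this.congr_deriv ?_)
    push_cast
    ring
  have hcP : Continuous fun Y => PY Y := by
    unfold PY
    fun_prop
  have hcF := cont_FF w a k2 x
  refine anti_one (f := fun Y => FF w a k2 x Y + Y / 1000 + PY Y * (FF w a k2 x Y - m))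
    (f' := fun Y => (1 + PY Y) * FD w a k2 x Y + 1 / 1000 +
      (49 / 5 + 270 * Y ^ 2) * (FF w a k2 x Y - m)) k2 hpq
    ((hcF.add (by fun_prop)).add (hcP.mul (hcF.sub continuous_const))) ?_
  intro Y h1 h2 h3
  refine ⟨?_, hd Y h1 h2 h3⟩
  have e1 := deriv_FF (w := w) (a := a) (k2 := k2) (x := x) (Y := Y)
    (Or.inl (sub_ne_zero.mpr (Ne.symm h3))) (by linarith only [hp, h1])
  have e2 : HasDerivAt (fun Y : ℝ => Y / 1000) (1 / 1000) Y := (hasDerivAt_id Y).div_const _
  have e3 := (e1.add e2).add ((hPY Y).mul (e1.sub_const m))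
  refine e3.congr_deriv ?_
  ring

/-- the row -/
def Row (w a k2 x m Y : ℝ) : Prop :=
  FF w a k2 x Y - FF w a k2 x 0 + Y / 1000 + PY Y * (FF w a k2 x Y - m) ≤ 0

theorem row_of {w a k2 x m Y : ℝ} (hY : 0 ≤ Y)
    (hd : ∀ Z, 0 < Z → Z < Y → Z ≠ k2 → Cond w a k2 x m Z) : Row w a k2 x m Y := by
  have h := step hY le_rfl hd
  have e : PY 0 = 0 := by unfold PY; norm_num
  rw [e] at h
  unfold Row
  linarith only [h]

theorem row_of2 {w a k2 x m Y : ℝ} (hk : 0 ≤ k2) (hY : k2 ≤ Y) (h0 : Row w a k2 x m k2)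
    (hd : ∀ Z, k2 < Z → Z < Y → Cond w a k2 x m Z) : Row w a k2 x m Y := by
  have h := step hY hk (fun Z h1 h2 _ => hd Z h1 h2)
  unfold Row at h0 ⊢
  linarith only [h0, h]

end RB

end ZD

end Pool.Agent.Work.MP_b30479_gt.G2
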