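import Pool.Agent.Work.MP_b30479_gt.G2.ZRbA
import Pool.Agent.Work.MP_b30479_gt.G2.MDc

/-!
# Modes at rings, side of `D`: the lower end of the mode path, the conditions in numerical form
-/

namespace Pool.Agent.Work.MP_b30479_gt.G2

open VOL NumU

namespace ZD

namespace RB

/-- the condition, numerically -/
noncomputable def nF (w c a t x Y m : ℝ) : ℝ :=
  (1 + PY Y) * (NumI.lnB a t - Real.pi * (a + c) + w * (NumI.lnB x Y + Real.pi * (x - 1 / 2))) +
    1 / 1000 + (49 / 5 + 270 * Y ^ 2) *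
      (Real.pi * (a + c) * t + uu a t - w * (uu x Y - Real.pi * (x - 1 / 2) * Y) - m)

theorem YY_B {a t : ℝ} (h0 : 0 < a) (h1 : a < 1) : YY ⟨a, t⟩ = -NumI.lnB a t :=
  Num.YY_lnB (u := ⟨a, t⟩) ⟨h0, h1⟩

theorem YY_up {a t : ℝ} (ht : 0 < t) : YY ⟨a, t⟩ = YY ⟨a - 1, t⟩ + Real.pi := by
  rw [YY_mk_pos ht, YY_mk_pos ht]
  have := Tr_add_one t (a - 1)
  rw [sub_add_cancel] at this
  linarith only [this]

theorem cond_lt {w a k2 x m Y : ℝ} (h0 : 0 < a) (h1 : a < 1) (hx : 0 < x) (hx' : x < 1)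
    (h : nF w (-1 / 2) a (k2 - Y) x Y m ≤ 0) : Cond w a k2 x m Y := by
  unfold Cond FD FF rh
  rw [YY_B h0 h1, YY_B hx hx']
  unfold nF at h
  have e : (1 + PY Y) * (-(Real.pi * (a - 1 / 2)) - -NumI.lnB a (k2 - Y) -
      w * (-NumI.lnB x Y - Real.pi * (x - 1 / 2))) + 1 / 1000 +
      (49 / 5 + 270 * Y ^ 2) * (Real.pi * (a - 1 / 2) * (k2 - Y) + uu a (k2 - Y) -
        w * (uu x Y - Real.pi * (x - 1 / 2) * Y) - m) =
      (1 + PY Y) * (NumI.lnB a (k2 - Y) - Real.pi * (a + -1 / 2) +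
        w * (NumI.lnB x Y + Real.pi * (x - 1 / 2))) + 1 / 1000 + (49 / 5 + 270 * Y ^ 2) *
      (Real.pi * (a + -1 / 2) * (k2 - Y) + uu a (k2 - Y) -
        w * (uu x Y - Real.pi * (x - 1 / 2) * Y) - m) := by ring
  rw [e]
  exact h

theorem cond_gt {w a k2 x m Y : ℝ} (h0 : 1 < a) (h1 : a < 2) (hx : 0 < x) (hx' : x < 1)
    (hY : Y < k2) (h : nF w (3 / 2) (a - 1) (k2 - Y) x Y m ≤ 0) : Cond w a k2 x m Y := by
  have ht : 0 < k2 - Y := by linarith only [hY]
  unfold Cond FD FF rh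
  rw [YY_up ht, YY_B (a := a - 1) (by linarith only [h0]) (by linarith only [h1]), YY_B hx hx']
  have e0 := uu_add_one (a - 1) (k2 - Y)
  rw [sub_add_cancel, abs_of_pos ht] at e0
  rw [e0]
  unfold nF at h
  have e : (1 + PY Y) * (-(Real.pi * (a - 1 / 2)) - (-NumI.lnB (a - 1) (k2 - Y) + Real.pi) -
      w * (-NumI.lnB x Y - Real.pi * (x - 1 / 2))) + 1 / 1000 +
      (49 / 5 + 270 * Y ^ 2) * (Real.pi * (a - 1 / 2) * (k2 - Y) +
        (uu (a - 1) (k2 - Y) + Real.pi * (k2 - Y)) -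
        w * (uu x Y - Real.pi * (x - 1 / 2) * Y) - m) =
      (1 + PY Y) * (NumI.lnB (a - 1) (k2 - Y) - Real.pi * (a - 1 + 3 / 2) +
        w * (NumI.lnB x Y + Real.pi * (x - 1 / 2))) + 1 / 1000 + (49 / 5 + 270 * Y ^ 2) *
      (Real.pi * (a - 1 + 3 / 2) * (k2 - Y) + uu (a - 1) (k2 - Y) -
        w * (uu x Y - Real.pi * (x - 1 / 2) * Y) - m) := by ring
  rw [e]
  exact h

theorem PY_nonneg {Y : ℝ} (h : 0 ≤ Y) : 0 ≤ PY Y := by
  unfold PY
  positivity

/-- heights `Y > k2`, `a ∈ [1/2, 1] + ℤ` -/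
theorem crudeF {w a a' k2 x m R μ Y : ℝ} (h0 : 1 / 2 ≤ a') (h1 : a' ≤ 1) (ha : a = a' ∨ a = a' + 1)
    (hx : 0 < x) (hx' : x < 1) (hY : 0 < Y) (hk : k2 < Y) (hR : rh a' (Y - k2) ≤ R)
    (hμ : μ ≤ m - R)
    (h : (1 + PY Y) * (w * (NumI.lnB x Y + Real.pi * (x - 1 / 2))) + 1 / 1000 +
      (49 / 5 + 270 * Y ^ 2) * (-(w * (uu x Y - Real.pi * (x - 1 / 2) * Y)) - μ) ≤ 0) :
    Cond w a k2 x m Y := by
  have hs : 0 < Y - k2 := by linarith only [hk]
  have e0 : FF w a k2 x Y = rh a' (Y - k2) - w * rh x Y := by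
    rw [FF_ge hk.le]
    rcases ha with rfl | rfl
    · rfl
    · rw [rh_add_one hs.le]
  have e1 : FD w a k2 x Y = DT.Tr (Y - k2) a' - Real.pi * a' +
      w * (NumI.lnB x Y + Real.pi * (x - 1 / 2)) := by
    have e2 : YY ⟨a, k2 - Y⟩ = -(DT.Tr (Y - k2) a - Real.pi / 2) := by
      have := YY_mk_neg (x := a) (y := k2 - Y) (by linarith only [hk])
      rw [this, neg_sub k2 Y]
      ring
    unfold FD
    rw [e2, YY_B hx hx']
    rcases ha with rfl | rfl
    · ring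
    · rw [Tr_add_one]
      ring
  have e2 := Tr_le_pi_mul h0 h1 hs
  have e4 := PY_nonneg hY.le
  unfold Cond
  rw [e0, e1]
  have e5 : (1 + PY Y) * (DT.Tr (Y - k2) a' - Real.pi * a') ≤ 0 :=
    mul_nonpos_of_nonneg_of_nonpos (by linarith only [hx, hx', e4]) (by linarith only [e2])
  have e6 : (49 / 5 + 270 * Y ^ 2) * (rh a' (Y - k2) - R) ≤ 0 :=
    mul_nonpos_of_nonneg_of_nonpos (by positivity) (by linarith only [hR])
  have e7 : rh x Y = uu x Y - Real.pi * (x - 1 / 2) * Y := rfl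
  have e8 : (49 / 5 + 270 * Y ^ 2) * (μ - (m - R)) ≤ 0 :=
    mul_nonpos_of_nonneg_of_nonpos (by positivity) (by linarith only [hμ])
  rw [e7]
  nlinarith only [h, e5, e6, e8]

/-- heights `Y ≥ k2`, `a ∈ [1, 3/2]` -/
theorem crudeH {w a k2 x m κ μ Y : ℝ} (hw : 0 ≤ w) (h0 : 1 ≤ a) (h1 : a ≤ 3 / 2) (hx : 1 / 2 ≤ x)
    (hY : 0 < Y) (hk : k2 ≤ Y) (hκ : (3 / 2 - a) + w * (x - 1 / 2) ≤ κ)
    (hμ : μ ≤ m) (h : Real.pi * κ + 1 / 1000 ≤ (49 / 5 + 90 * Y ^ 2) *
      (w * (uu x Y - Real.pi * (x - 1 / 2) * Y) + μ)) : Row w a k2 x m Y := by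
  have hpi := Real.pi_pos
  have e0 : FF w a k2 x Y ≤ -(w * rh x Y) := by
    rw [FF_ge hk]
    linarith only [h0, h1, hk, rh_nonpos h0 h1 (show 0 ≤ Y - k2 by linarith only [hk])]
  have e1 : uu a (k2 - Y) - uu a k2 ≤ Real.pi * Y := by
    rw [uu_Lr, uu_Lr]
    rcases le_total |k2| |k2 - Y| with h2 | h2
    · have h3 := inc_le_three (x := a) (by linarith only [h1]) (abs_nonneg k2) h2
      have h4 : |k2 - Y| ≤ |k2| + Y := by
        have := abs_sub k2 Y
        rwa [abs_of_pos hY] at this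
      nlinarith only [h3, hpi, h4]
    · have h3 := inc_ge_lin (c := 1 / 2) (x := a) (by norm_num) le_rfl (by linarith only [h0])
        (abs_nonneg (k2 - Y)) h2
      nlinarith only [h3, hY, hpi]
  have e2 : uu x 0 ≤ uu x Y := by
    have h3 := inc_ge_lin (c := 1 / 2) (x := x) (by norm_num) le_rfl hx le_rfl hY.le
    rw [uu_Lr, uu_Lr, abs_zero, abs_of_pos hY]
    nlinarith only [h3]
  have e3 : FF w a k2 x Y - FF w a k2 x 0 ≤ Real.pi * κ * Y := by
    have h2 : FF w a k2 x Y - FF w a k2 x 0 = -(Real.pi * (a - 1 / 2) * Y) +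
        (uu a (k2 - Y) - uu a k2) - w * (uu x Y - uu x 0) + w * (Real.pi * (x - 1 / 2) * Y) := by
      unfold FF rh
      rw [sub_zero]
      ring
    rw [h2]
    have h3 := mul_nonneg hw (sub_nonneg.mpr e2)
    have h4 := mul_le_mul_of_nonneg_left hκ (mul_pos hpi hY).le
    nlinarith only [e1, h3, h4]
  have e4 : PY Y * (FF w a k2 x Y - m) ≤ -(Y * ((49 / 5 + 90 * Y ^ 2) *
      (w * (uu x Y - Real.pi * (x - 1 / 2) * Y) + μ))) := by
    have h2 : PY Y * (FF w a k2 x Y - m) ≤ PY Y * (-(w * rh x Y) - μ) :=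
      mul_le_mul_of_nonneg_left (by linarith only [hμ, e0]) (PY_nonneg hY.le)
    refine h2.trans (le_of_eq ?_)
    unfold PY rh
    ring
  have e5 := mul_le_mul_of_nonneg_left h hY.le
  unfold Row
  nlinarith only [e3, e4, e5]

/-- `a` near `1`, heights `Y < k2` -/
theorem near {w a k2 x m Y : ℝ} (h0 : 999 / 1000 ≤ a) (h1 : a ≤ 1001 / 1000) (hx : 0 < x)
    (hx' : x < 1) (hY : 0 < Y) (hk : Y < k2)
    (h : (1 + PY Y) * (NumI.lnB (999 / 1000) (k2 - Y) - Real.pi * (499 / 1000) +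
        w * (NumI.lnB x Y + Real.pi * (x - 1 / 2))) + 1 / 1000 +
        (49 / 5 + 270 * Y ^ 2) * (Real.pi * (1002 / 1000) * (k2 - Y) + 7 / 1000 -
          w * (uu x Y - Real.pi * (x - 1 / 2) * Y) - m) ≤ 0 ∨
      (1 + PY Y) * (-(Real.pi * (499 / 1000)) +
        w * (NumI.lnB x Y + Real.pi * (x - 1 / 2))) + 1 / 1000 +
        (49 / 5 + 270 * Y ^ 2) * (Real.pi * (1002 / 1000) * (k2 - Y) + 7 / 1000 -
          w * (uu x Y - Real.pi * (x - 1 / 2) * Y) - m) ≤ 0) : Cond w a k2 x m Y := by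
  have hpi := Real.pi_pos
  have ht : 0 < k2 - Y := by linarith only [hk]
  have hP := PY_nonneg hY.le
  -- the value
  have e0 : FF w a k2 x Y ≤ Real.pi * (1002 / 1000) * (k2 - Y) + 7 / 1000 - w * rh x Y := by
    rw [FF_lt]
    have e1 : rh a (k2 - Y) ≤ 7 / 1000 := by
      rcases le_total a 1 with h2 | h2
      · exact rh_le_999 h0 h2 ht.le
      · linarith only [hx, hx', h2, h1, ht, rh_nonpos h2 (by linarith only [h1, hx, hx']) ht.le]
    have e2 : 2 * Real.pi * (a - 1 / 2) * (k2 - Y) ≤ Real.pi * (1002 / 1000) * (k2 - Y) := by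
      apply mul_le_mul_of_nonneg_right _ ht.le
      nlinarith only [h1, hpi]
    linarith only [e1, e2]
  -- the derivative
  have e1 : FD w a k2 x Y = -(Real.pi * (a - 1 / 2)) - (DT.Tr (k2 - Y) a - Real.pi / 2) +
      w * (NumI.lnB x Y + Real.pi * (x - 1 / 2)) := by
    unfold FD
    rw [YY_mk_pos ht, YY_B hx hx']
    ring
  have e2 := Tr_mono ht h0
  have e3 : DT.Tr (k2 - Y) (999 / 1000) = Real.pi / 2 - NumI.lnB (999 / 1000) (k2 - Y) := by
    have h2 := YY_mk_pos (x := 999 / 1000) ht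
    rw [YY_B (by norm_num) (by norm_num)] at h2
    linarith only [h2]
  have e4 := half_le_Tr ht (show 1 / 2 ≤ a by linarith only [h0, hx, hx'])
  have e5 : Real.pi * (999 / 1000) ≤ Real.pi * a := mul_le_mul_of_nonneg_left h0 hpi.le
  have e6 : (49 / 5 + 270 * Y ^ 2) * (FF w a k2 x Y - m) ≤ (49 / 5 + 270 * Y ^ 2) *
      (Real.pi * (1002 / 1000) * (k2 - Y) + 7 / 1000 -
        w * (uu x Y - Real.pi * (x - 1 / 2) * Y) - m) := by
    apply mul_le_mul_of_nonneg_left _ (by positivity)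
    have : rh x Y = uu x Y - Real.pi * (x - 1 / 2) * Y := rfl
    rw [← this]
    linarith only [e0]
  unfold Cond
  rcases h with h | h
  · have e7 : (1 + PY Y) * FD w a k2 x Y ≤ (1 + PY Y) * (NumI.lnB (999 / 1000) (k2 - Y) -
        Real.pi * (499 / 1000) + w * (NumI.lnB x Y + Real.pi * (x - 1 / 2))) := by
      apply mul_le_mul_of_nonneg_left _ (by linarith only [hx, hx', hP])
      rw [e1]
      linarith only [e2, e3, e5]
    linarith only [e6, h, e7]
  · have e7 : (1 + PY Y) * FD w a k2 x Y ≤ (1 + PY Y) * (-(Real.pi * (499 / 1000)) +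
        w * (NumI.lnB x Y + Real.pi * (x - 1 / 2))) := by
      apply mul_le_mul_of_nonneg_left _ (by linarith only [hx, hx', hP])
      rw [e1]
      linarith only [e4, e5]
    linarith only [e6, h, e7]

/-! ### slopes of `rh` -/

theorem rh_slope {x a Y κ : ℝ} (hx : 0 < x) (hxa : x ≤ a) (ha : a < 1)
    (h : ∀ v, x ≤ v → v ≤ a → NumI.lnA v Y - Real.pi * Y ≤ κ) : rh a Y - rh x Y ≤ κ * (a - x) := by
  have h2 := anti_one (f := fun v => rh v Y - κ * v)
    (f' := fun v => NumI.lnA v Y - Real.pi * Y - κ) 0 hxa (by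
      unfold rh
      exact ((continuous_uu_x Y).sub (by fun_prop)).sub (by fun_prop)) (by
      intro v h1 h2 _
      refine ⟨?_, by linarith only [h, h1, h2, h v h1.le h2.le]⟩
      have e1 := uu_line (x := 0) (t := Y) (a := 1) (b := 0) (τ := v) (by linarith only [hx, h1]) (by linarith only [ha, h2])
      simp only [mul_one, zero_add, mul_zero, add_zero, one_mul, zero_mul, sub_zero] at e1
      have e2 : HasDerivAt (fun v : ℝ => Real.pi * (v - 1 / 2) * Y) (Real.pi * Y) v := by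
        have := (((hasDerivAt_id v).sub_const (1 / 2)).const_mul Real.pi).mul_const Y
        simpa using this
      have e3 : HasDerivAt (fun v : ℝ => κ * v) κ v := by
        simpa using (hasDerivAt_id v).const_mul κ
      exact (e1.sub e2).sub e3)
  linarith only [h2]

theorem rh_vert {a y0 y y' σ : ℝ} (h0 : 1 / 2 ≤ a) (h1 : a < 1) (hy0 : 0 < y0) (hy : y0 ≤ y)
    (h : y ≤ y') (hσ : Real.pi * (a - 1 / 2) + NumI.lnB a y0 ≤ σ) :
    rh a y - rh a y' ≤ σ * (y' - y) := by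
  have h2 := mono_one (f := fun y => rh a y + σ * y)
    (f' := fun y => YY ⟨a, y⟩ - Real.pi * (a - 1 / 2) + σ) 0 h
    ((cont_rh a).add (by fun_prop)) (by
      intro t h2 _ _
      have ht : 0 < t := by linarith only [hy0, hy, h2]
      refine ⟨((hasDerivAt_uu_y (Or.inl ht.ne')).sub (by
        simpa using (hasDerivAt_id t).const_mul (Real.pi * (a - 1 / 2)))).add (by
        simpa using (hasDerivAt_id t).const_mul σ), ?_⟩
      have e1 := Tr_mono_left hy0 (show y0 ≤ t by linarith only [hy, h2]) h0 h1.le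
      have e2 := YY_mk_pos (x := a) hy0
      rw [YY_B (by linarith only [h0, h1]) h1] at e2
      rw [YY_mk_pos ht]
      linarith only [hσ, e1, e2])
  linarith only [h2]

theorem pi15 : Real.pi ≤ 315 / 100 := by
  have := Real.pi_lt_d2
  linarith only [this]

end RB

end ZD

end Pool.Agent.Work.MP_b30479_gt.G2
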