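import Pool.Agent.Work.MP_b30479_gt.G2.ZRbB

/-!
# Modes at rings, side of `D`: the lower end of the mode path, certificates for `b1`
-/

set_option linter.unusedVariables false
set_option linter.unusedSimpArgs false

namespace Pool.Agent.Work.MP_b30479_gt.G2

open VOL NumU

namespace ZD

namespace RB

open NumU.E
open NumI (V)

theorem chkT1 {es : List E} {fuel c N : ℕ} {l1 h1 : ℤ} {k1 : ℕ}
    (h : chkT es fuel c [V.of N l1 h1 k1] = true) (hN : 0 < N) {x : ℝ}
    (a1 : (l1 : ℝ) / N ≤ x) (b1 : x ≤ (h1 : ℝ) / N) : ∃ e ∈ es, 0 < e.val [x] :=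
  chkT_sound h (List.Forall₂.cons (V.of_mem hN a1 b1) List.Forall₂.nil)

/-- the multiplier, its derivative, and the multiplier divided by `Y` -/
def eP : E := add (mul (q 49 5) (var 0)) (mul (q 90 1) (mul (var 0) (sq (var 0))))
def eQ : E := add (q 49 5) (mul (q 270 1) (sq (var 0)))
def eR : E := add (q 49 5) (mul (q 90 1) (sq (var 0)))
/-- the terms with `x` -/
def eGX (w x : E) : E := mul w (sub (uu x (var 0)) (mul pi (mul (sub x (q 1 2)) (var 0))))
def eDX (w x : E) : E := mul w (add (lnB x (var 0)) (mul pi (sub x (q 1 2))))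
/-- the terms with `a` -/
def eGA (c a t : E) : E := add (mul (mul pi (add a c)) t) (uu a t)
def eDA (c a t : E) : E := sub (lnB a t) (mul pi (add a c))
/-- the condition on the derivative -/
def eN (w c a t x m : E) : E :=
  neg (add (add (mul (add (q 1 1) eP) (add (eDA c a t) (eDX w x))) (q 1 1000))
    (mul eQ (sub (sub (eGA c a t) (eGX w x)) m)))
/-- the value -/
def eM (w c a t x m : E) : E := sub m (sub (eGA c a t) (eGX w x))
def eF (w x m : E) : E := neg (add (add (mul (add (q 1 1) eP) (eDX w x)) (q 1 1000))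
  (mul eQ (sub (neg (eGX w x)) m)))
def eH (w x m k : E) : E := sub (mul eR (add (eGX w x) m)) (add (mul pi k) (q 1 1000))
def eN1 (w t x m : E) : E :=
  neg (add (add (mul (add (q 1 1) eP) (add (sub (lnB (q 999 1000) t) (mul pi (q 499 1000)))
    (eDX w x))) (q 1 1000)) (mul eQ (sub (sub (add (mul (mul pi (q 1002 1000)) t) (q 7 1000))
    (eGX w x)) m)))
def eN2 (w t x m : E) : E :=
  neg (add (add (mul (add (q 1 1) eP) (add (neg (mul pi (q 499 1000)))
    (eDX w x))) (q 1 1000)) (mul eQ (sub (sub (add (mul (mul pi (q 1002 1000)) t) (q 7 1000))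
    (eGX w x)) m)))

private theorem k1n : chkT [eN (q 1 1) (q (-1) 2) (add (var 3) (var 1)) (sub (neg (var 2)) (var 0)) (var 3) (add (q 4 1000) (mul (q 1 5) (var 1)))] 40
    0x882882188288218828820882882088288228828822011118828821882882188288208828820882882288188220111108828880218828821882882088288208828828820211118880288802188288218828820888028828880221111008880288802188288218882288288288802121118880288802188288802188822880882888021211108880288802188880128828888012888801202118881288880121888818880102288888012288881880122011000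
    [V.of 100000 0 25000, V.of 100000 0 25000,
    V.of 100000 0 16000, V.of 100000 64996 65000] = true := by
  decide +kernel

theorem c1n {Y K M X : ℝ}
    (y0 : 0 ≤ Y) (y1 : Y ≤ 1 / 4)
    (k0 : 0 ≤ K) (k1 : K ≤ 1 / 4)
    (m0 : 0 ≤ M) (m1 : M ≤ 4 / 25)
    (x0 : 16249 / 25000 ≤ X) (x1 : X ≤ 13 / 20) :
    nF 1 (-1 / 2) (X + K) (-M - Y) X Y (4 / 1000 + 1 / 5 * K) ≤ 0 := by
  obtain ⟨e, he, hp⟩ := chkT4 k1n (by norm_num) (x := Y) (y := K) (z := M) (w := X)
    (by norm_num; linarith only [y0]) (by norm_num; linarith only [y1]) (by norm_num; linarith only [k0]) (by norm_num; linarith only [k1]) (by norm_num; linarith only [m0]) (by norm_num; linarith only [m1]) (by norm_num; linarith only [x0]) (by norm_num; linarith only [x1])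
  simp only [List.mem_cons, List.not_mem_nil, or_false] at he
  subst he
  simp only [eN, eM, eF, eH, eN1, eN2, eDX, eGX, eGA, eDA, eP, eQ, eR, E.val, NumI.lkR] at hp
  norm_num [nF, PY] at hp ⊢
  linarith only [hp]

private theorem k1p : chkT [eN (q 1 1) (q (-1) 2) (add (var 3) (var 1)) (sub (var 2) (var 0)) (var 3)
        (add (add (q 4 1000) (mul (q 1 5) (var 1))) (mul (q 65 100) (var 2))),
      sub (var 2) (mul (q 79 100) (var 1))] 40
    0x88081881881008818810881881888018818818811010000888008808889182000091188188088888012211881880888880122110881880888880122118818810880888880122110088188108808888801221188188108880188888011211088188108880188808880122118818881018818818880100888800298880021110002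
    [V.of 100000 0 25000, V.of 100000 0 25000,
    V.of 100000 0 11800, V.of 100000 64996 65000] = true := by
  decide +kernel

theorem c1p {Y K M X : ℝ}
    (y0 : 0 ≤ Y) (y1 : Y ≤ 1 / 4)
    (k0 : 0 ≤ K) (k1 : K ≤ 1 / 4)
    (m0 : 0 ≤ M) (m1 : M ≤ 59 / 500)
    (x0 : 16249 / 25000 ≤ X) (x1 : X ≤ 13 / 20)
    (h3 : M ≤ 79 / 100 * K) :
    nF 1 (-1 / 2) (X + K) (M - Y) X Y (4 / 1000 + 1 / 5 * K + 65 / 100 * M) ≤ 0 := by
  obtain ⟨e, he, hp⟩ := chkT4 k1p (by norm_num) (x := Y) (y := K) (z := M) (w := X)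
    (by norm_num; linarith only [y0]) (by norm_num; linarith only [y1]) (by norm_num; linarith only [k0]) (by norm_num; linarith only [k1]) (by norm_num; linarith only [m0]) (by norm_num; linarith only [m1]) (by norm_num; linarith only [x0]) (by norm_num; linarith only [x1])
  simp only [List.mem_cons, List.not_mem_nil, or_false] at he
  rcases he with rfl | rfl
  · simp only [eN, eM, eF, eH, eN1, eN2, eDX, eGX, eGA, eDA, eP, eQ, eR, E.val, NumI.lkR] at hp
    norm_num [nF, PY] at hp ⊢
    linarith only [hp]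
  · simp only [eN, eM, eF, eH, eN1, eN2, eDX, eGX, eGA, eDA, eP, eQ, eR, E.val, NumI.lkR] at hp
    norm_num [nF, PY] at hp ⊢
    linarith only [h3, hp]

private theorem k1lo : chkT [eN (q 1 1) (q (-1) 2) (add (var 3) (var 2)) (var 1) (var 3) (q 18 100),
      sub (add (var 0) (var 1)) (q 16 100)] 40
    0x9882828802880288882002088288208802880288028802188282828802880288282828828282882828828888018218282182182118802880211
    [V.of 100000 0 16000, V.of 100000 0 16000,
    V.of 100000 24990 34950, V.of 100000 64996 65000] = true := by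
  decide +kernel

theorem c1lo {Y T K X : ℝ}
    (y0 : 0 ≤ Y) (y1 : Y ≤ 4 / 25)
    (t0 : 0 ≤ T) (t1 : T ≤ 4 / 25)
    (k0 : 2499 / 10000 ≤ K) (k1 : K ≤ 699 / 2000)
    (x0 : 16249 / 25000 ≤ X) (x1 : X ≤ 13 / 20)
    (h3 : Y + T ≤ 16 / 100) :
    nF 1 (-1 / 2) (X + K) T X Y (18 / 100) ≤ 0 := by
  obtain ⟨e, he, hp⟩ := chkT4 k1lo (by norm_num) (x := Y) (y := T) (z := K) (w := X)
    (by norm_num; linarith only [y0]) (by norm_num; linarith only [y1]) (by norm_num; linarith only [t0]) (by norm_num; linarith only [t1]) (by norm_num; linarith only [k0]) (by norm_num; linarith only [k1]) (by norm_num; linarith only [x0]) (by norm_num; linarith only [x1])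
  simp only [List.mem_cons, List.not_mem_nil, or_false] at he
  rcases he with rfl | rfl
  · simp only [eN, eM, eF, eH, eN1, eN2, eDX, eGX, eGA, eDA, eP, eQ, eR, E.val, NumI.lkR] at hp
    norm_num [nF, PY] at hp ⊢
    linarith only [hp]
  · simp only [eN, eM, eF, eH, eN1, eN2, eDX, eGX, eGA, eDA, eP, eQ, eR, E.val, NumI.lkR] at hp
    norm_num [nF, PY] at hp ⊢
    linarith only [h3, hp]

private theorem k1hi : chkT [eN (q 1 1) (q 3 2) (sub (add (var 3) (var 2)) (q 1 1)) (var 1) (var 3) (q 18 100),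
      sub (add (var 0) (var 1)) (q 16 100),
      sub (add (var 0) (var 1)) (mul (q 8 10) (sub (q 86 100) (var 2)))] 40
    0x999a8281820098018188088088882222220880880880880880882882022222188888882222228888888222888828888888211212122122211
    [V.of 100000 0 16000, V.of 100000 0 16000,
    V.of 100000 35100 71250, V.of 100000 64996 65000] = true := by
  decide +kernel

theorem c1hi {Y T K X : ℝ}
    (y0 : 0 ≤ Y) (y1 : Y ≤ 4 / 25)
    (t0 : 0 ≤ T) (t1 : T ≤ 4 / 25)
    (k0 : 351 / 1000 ≤ K) (k1 : K ≤ 57 / 80)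
    (x0 : 16249 / 25000 ≤ X) (x1 : X ≤ 13 / 20)
    (h3 : Y + T ≤ 16 / 100) (h4 : Y + T ≤ 8 / 10 * (86 / 100 - K)) :
    nF 1 (3 / 2) (X + K - 1) T X Y (18 / 100) ≤ 0 := by
  obtain ⟨e, he, hp⟩ := chkT4 k1hi (by norm_num) (x := Y) (y := T) (z := K) (w := X)
    (by norm_num; linarith only [y0]) (by norm_num; linarith only [y1]) (by norm_num; linarith only [t0]) (by norm_num; linarith only [t1]) (by norm_num; linarith only [k0]) (by norm_num; linarith only [k1]) (by norm_num; linarith only [x0]) (by norm_num; linarith only [x1])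
  simp only [List.mem_cons, List.not_mem_nil, or_false] at he
  rcases he with rfl | rfl | rfl
  · simp only [eN, eM, eF, eH, eN1, eN2, eDX, eGX, eGA, eDA, eP, eQ, eR, E.val, NumI.lkR] at hp
    norm_num [nF, PY] at hp ⊢
    linarith only [hp]
  · simp only [eN, eM, eF, eH, eN1, eN2, eDX, eGX, eGA, eDA, eP, eQ, eR, E.val, NumI.lkR] at hp
    norm_num [nF, PY] at hp ⊢
    linarith only [h3, hp]
  · simp only [eN, eM, eF, eH, eN1, eN2, eDX, eGX, eGA, eDA, eP, eQ, eR, E.val, NumI.lkR] at hp
    norm_num [nF, PY] at hp ⊢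
    linarith only [h4, hp]

private theorem k1hj : chkT [eN (q 1 1) (q 3 2) (sub (add (var 3) (var 2)) (q 1 1)) (var 1) (var 3) (q 18 100),
      sub (add (var 0) (var 1)) (q 118 1000)] 40
    0x880
    [V.of 100000 0 11800, V.of 100000 0 11800,
    V.of 100000 71250 86000, V.of 100000 64996 65000] = true := by
  decide +kernel

theorem c1hj {Y T K X : ℝ}
    (y0 : 0 ≤ Y) (y1 : Y ≤ 59 / 500)
    (t0 : 0 ≤ T) (t1 : T ≤ 59 / 500)
    (k0 : 57 / 80 ≤ K) (k1 : K ≤ 43 / 50)
    (x0 : 16249 / 25000 ≤ X) (x1 : X ≤ 13 / 20)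
    (h3 : Y + T ≤ 118 / 1000) :
    nF 1 (3 / 2) (X + K - 1) T X Y (18 / 100) ≤ 0 := by
  obtain ⟨e, he, hp⟩ := chkT4 k1hj (by norm_num) (x := Y) (y := T) (z := K) (w := X)
    (by norm_num; linarith only [y0]) (by norm_num; linarith only [y1]) (by norm_num; linarith only [t0]) (by norm_num; linarith only [t1]) (by norm_num; linarith only [k0]) (by norm_num; linarith only [k1]) (by norm_num; linarith only [x0]) (by norm_num; linarith only [x1])
  simp only [List.mem_cons, List.not_mem_nil, or_false] at he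
  rcases he with rfl | rfl
  · simp only [eN, eM, eF, eH, eN1, eN2, eDX, eGX, eGA, eDA, eP, eQ, eR, E.val, NumI.lkR] at hp
    norm_num [nF, PY] at hp ⊢
    linarith only [hp]
  · simp only [eN, eM, eF, eH, eN1, eN2, eDX, eGX, eGA, eDA, eP, eQ, eR, E.val, NumI.lkR] at hp
    norm_num [nF, PY] at hp ⊢
    linarith only [h3, hp]

private theorem k1nr : chkT [eN1 (q 1 1) (var 1) (var 2) (q 18 100),
      eN2 (q 1 1) (var 1) (var 2) (q 18 100),
      sub (add (var 0) (var 1)) (q 16 100)] 40
    0x891880910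
    [V.of 100000 0 16000, V.of 100000 0 16000,
    V.of 100000 64996 65000] = true := by
  decide +kernel

theorem c1nr {Y T X : ℝ}
    (y0 : 0 ≤ Y) (y1 : Y ≤ 4 / 25)
    (t0 : 0 ≤ T) (t1 : T ≤ 4 / 25)
    (x0 : 16249 / 25000 ≤ X) (x1 : X ≤ 13 / 20)
    (h3 : Y + T ≤ 16 / 100) :
    (1 + PY Y) * (NumI.lnB (999 / 1000) T - Real.pi * (499 / 1000) +
        1 * (NumI.lnB X Y + Real.pi * (X - 1 / 2))) + 1 / 1000 +
        (49 / 5 + 270 * Y ^ 2) * (Real.pi * (1002 / 1000) * T + 7 / 1000 -
          1 * (uu X Y - Real.pi * (X - 1 / 2) * Y) - 18 / 100) ≤ 0 ∨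
      (1 + PY Y) * (-(Real.pi * (499 / 1000)) +
        1 * (NumI.lnB X Y + Real.pi * (X - 1 / 2))) + 1 / 1000 +
        (49 / 5 + 270 * Y ^ 2) * (Real.pi * (1002 / 1000) * T + 7 / 1000 -
          1 * (uu X Y - Real.pi * (X - 1 / 2) * Y) - 18 / 100) ≤ 0 := by
  obtain ⟨e, he, hp⟩ := chkT3 k1nr (by norm_num) (x := Y) (y := T) (z := X)
    (by norm_num; linarith only [y0]) (by norm_num; linarith only [y1]) (by norm_num; linarith only [t0]) (by norm_num; linarith only [t1]) (by norm_num; linarith only [x0]) (by norm_num; linarith only [x1])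
  simp only [List.mem_cons, List.not_mem_nil, or_false] at he
  rcases he with rfl | rfl | rfl
  · left
    simp only [eN, eM, eF, eH, eN1, eN2, eDX, eGX, eGA, eDA, eP, eQ, eR, E.val, NumI.lkR] at hp
    norm_num [nF, PY] at hp ⊢
    linarith only [hp]
  · right
    simp only [eN, eM, eF, eH, eN1, eN2, eDX, eGX, eGA, eDA, eP, eQ, eR, E.val, NumI.lkR] at hp
    norm_num [nF, PY] at hp ⊢
    linarith only [hp]
  · simp only [eN, eM, eF, eH, eN1, eN2, eDX, eGX, eGA, eDA, eP, eQ, eR, E.val, NumI.lkR] at hp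
    norm_num at hp
    linarith only [h3, hp]

private theorem k1F : chkT [eF (q 1 1) (var 1) (q 183 10000)] 40
    0x8808800
    [V.of 100000 0 25000, V.of 100000 64996 65000] = true := by
  decide +kernel

theorem c1F {Y X : ℝ}
    (y0 : 0 ≤ Y) (y1 : Y ≤ 1 / 4)
    (x0 : 16249 / 25000 ≤ X) (x1 : X ≤ 13 / 20) :
    (1 + PY Y) * (1 * (NumI.lnB X Y + Real.pi * (X - 1 / 2))) + 1 / 1000 +
      (49 / 5 + 270 * Y ^ 2) * (-(1 * (uu X Y - Real.pi * (X - 1 / 2) * Y)) - 183 / 10000) ≤ 0 := by
  obtain ⟨e, he, hp⟩ := chkT2 k1F (by norm_num) (x := Y) (y := X)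
    (by norm_num; linarith only [y0]) (by norm_num; linarith only [y1]) (by norm_num; linarith only [x0]) (by norm_num; linarith only [x1])
  simp only [List.mem_cons, List.not_mem_nil, or_false] at he
  subst he
  simp only [eN, eM, eF, eH, eN1, eN2, eDX, eGX, eGA, eDA, eP, eQ, eR, E.val, NumI.lkR] at hp
  norm_num [nF, PY] at hp ⊢
  linarith only [hp]

private theorem k1H : chkT [eH (q 1 1) (var 1) (q 18 100) (q 65 100)] 40
    0x880
    [V.of 100000 0 25000, V.of 100000 64996 65000] = true := by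
  decide +kernel

theorem c1H {Y X : ℝ}
    (y0 : 0 ≤ Y) (y1 : Y ≤ 1 / 4)
    (x0 : 16249 / 25000 ≤ X) (x1 : X ≤ 13 / 20) :
    Real.pi * (65 / 100) + 1 / 1000 ≤ (49 / 5 + 90 * Y ^ 2) *
      (1 * (uu X Y - Real.pi * (X - 1 / 2) * Y) + 18 / 100) := by
  obtain ⟨e, he, hp⟩ := chkT2 k1H (by norm_num) (x := Y) (y := X)
    (by norm_num; linarith only [y0]) (by norm_num; linarith only [y1]) (by norm_num; linarith only [x0]) (by norm_num; linarith only [x1])
  simp only [List.mem_cons, List.not_mem_nil, or_false] at he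
  subst he
  simp only [eN, eM, eF, eH, eN1, eN2, eDX, eGX, eGA, eDA, eP, eQ, eR, E.val, NumI.lkR] at hp
  norm_num [nF, PY] at hp ⊢
  linarith only [hp]

private theorem k1dA : chkT [sub (q 3 20) (sub (lnA (var 1) (var 0)) (mul pi (var 0)))] 40
    0x88888811000
    [V.of 100000 25000 100000, V.of 100000 64990 90010] = true := by
  decide +kernel

theorem c1dA {Y X : ℝ}
    (y0 : 1 / 4 ≤ Y) (y1 : Y ≤ 1)
    (x0 : 6499 / 10000 ≤ X) (x1 : X ≤ 9001 / 10000) :
    NumI.lnA X Y - Real.pi * Y ≤ 3 / 20 := by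
  obtain ⟨e, he, hp⟩ := chkT2 k1dA (by norm_num) (x := Y) (y := X)
    (by norm_num; linarith only [y0]) (by norm_num; linarith only [y1]) (by norm_num; linarith only [x0]) (by norm_num; linarith only [x1])
  simp only [List.mem_cons, List.not_mem_nil, or_false] at he
  subst he
  simp only [eN, eM, eF, eH, eN1, eN2, eDX, eGX, eGA, eDA, eP, eQ, eR, E.val, NumI.lkR] at hp
  norm_num [nF, PY] at hp ⊢
  linarith only [hp]

private theorem k1dB : chkT [sub (q 65 100) (add (mul pi (sub (var 0) (q 1 2))) (lnB (var 0) (q 132 1000)))] 40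
    0x880
    [V.of 100000 64990 90010] = true := by
  decide +kernel

theorem c1dB {X : ℝ}
    (x0 : 6499 / 10000 ≤ X) (x1 : X ≤ 9001 / 10000) :
    Real.pi * (X - 1 / 2) + NumI.lnB X (132 / 1000) ≤ 65 / 100 := by
  obtain ⟨e, he, hp⟩ := chkT1 k1dB (by norm_num) (x := X)
    (by norm_num; linarith only [x0]) (by norm_num; linarith only [x1])
  simp only [List.mem_cons, List.not_mem_nil, or_false] at he
  subst he
  simp only [eN, eM, eF, eH, eN1, eN2, eDX, eGX, eGA, eDA, eP, eQ, eR, E.val, NumI.lkR] at hp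
  norm_num [nF, PY] at hp ⊢
  linarith only [hp]

end RB

end ZD

end Pool.Agent.Work.MP_b30479_gt.G2
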