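import Pool.Agent.Work.MP_b30479_gt.G2.ZRbC

/-!
# Modes at rings, side of `D`: the lower end of the mode path, certificates for `b2`
-/

set_option linter.unusedVariables false
set_option linter.unusedSimpArgs false

namespace Pool.Agent.Work.MP_b30479_gt.G2

open VOL NumU

namespace ZD

namespace RB

open NumU.E
open NumI (V)

private theorem k2n : chkT [eN (q 2 1) (q (-1) 2) (add (var 3) (var 1)) (sub (neg (var 2)) (var 0)) (var 3) (add (q 2 100) (mul (q 7 10) (var 1)))] 40
    0x88880228882218888022888121088088802288822888018828820211888128818822888120101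
    [V.of 100000 0 13000, V.of 100000 0 32860,
    V.of 100000 0 40000, V.of 100000 59996 60000] = true := by
  decide +kernel

theorem c2n {Y K M X : ℝ}
    (y0 : 0 ≤ Y) (y1 : Y ≤ 13 / 100)
    (k0 : 0 ≤ K) (k1 : K ≤ 1643 / 5000)
    (m0 : 0 ≤ M) (m1 : M ≤ 2 / 5)
    (x0 : 14999 / 25000 ≤ X) (x1 : X ≤ 3 / 5) :
    nF 2 (-1 / 2) (X + K) (-M - Y) X Y (2 / 100 + 7 / 10 * K) ≤ 0 := by
  obtain ⟨e, he, hp⟩ := chkT4 k2n (by norm_num) (x := Y) (y := K) (z := M) (w := X)
    (by norm_num; linarith only [y0]) (by norm_num; linarith only [y1]) (by norm_num; linarith only [k0]) (by norm_num; linarith only [k1]) (by norm_num; linarith only [m0]) (by norm_num; linarith only [m1]) (by norm_num; linarith only [x0]) (by norm_num; linarith only [x1])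
  simp only [List.mem_cons, List.not_mem_nil, or_false] at he
  subst he
  simp only [eN, eM, eF, eH, eN1, eN2, eDX, eGX, eGA, eDA, eP, eQ, eR, E.val, NumI.lkR] at hp
  norm_num [nF, PY] at hp ⊢
  linarith only [hp]

private theorem k2p : chkT [eN (q 2 1) (q (-1) 2) (add (var 3) (var 1)) (sub (var 2) (var 0)) (var 3) (add (q 2 100) (mul (q 7 10) (var 1))),
      sub (var 2) (mul (q 16 5) (var 1))] 40
    0x882882088018808218818880108880082888008298802111188800828880082188801888108282018880182888008288800918211881880881108282880881098218802821010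
    [V.of 100000 0 13000, V.of 100000 0 32860,
    V.of 100000 0 16000, V.of 100000 59996 60000] = true := by
  decide +kernel

theorem c2p {Y K M X : ℝ}
    (y0 : 0 ≤ Y) (y1 : Y ≤ 13 / 100)
    (k0 : 0 ≤ K) (k1 : K ≤ 1643 / 5000)
    (m0 : 0 ≤ M) (m1 : M ≤ 4 / 25)
    (x0 : 14999 / 25000 ≤ X) (x1 : X ≤ 3 / 5)
    (h3 : M ≤ 16 / 5 * K) :
    nF 2 (-1 / 2) (X + K) (M - Y) X Y (2 / 100 + 7 / 10 * K) ≤ 0 := by
  obtain ⟨e, he, hp⟩ := chkT4 k2p (by norm_num) (x := Y) (y := K) (z := M) (w := X)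
    (by norm_num; linarith only [y0]) (by norm_num; linarith only [y1]) (by norm_num; linarith only [k0]) (by norm_num; linarith only [k1]) (by norm_num; linarith only [m0]) (by norm_num; linarith only [m1]) (by norm_num; linarith only [x0]) (by norm_num; linarith only [x1])
  simp only [List.mem_cons, List.not_mem_nil, or_false] at he
  rcases he with rfl | rfl
  · simp only [eN, eM, eF, eH, eN1, eN2, eDX, eGX, eGA, eDA, eP, eQ, eR, E.val, NumI.lkR] at hp
    norm_num [nF, PY] at hp ⊢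
    linarith only [hp]
  · simp only [eN, eM, eF, eH, eN1, eN2, eDX, eGX, eGA, eDA, eP, eQ, eR, E.val, NumI.lkR] at hp
    norm_num [nF, PY] at hp ⊢
    linarith only [h3, hp]

private theorem k2lo : chkT [eN (q 2 1) (q (-1) 2) (add (var 3) (var 2)) (var 1) (var 3) (q 1 4),
      sub (add (var 0) (var 1)) (q 16 100)] 40
    0x8828820880288028802880288282828282882828282882828288288888018211821828218218211
    [V.of 100000 0 13000, V.of 100000 0 16000,
    V.of 100000 32850 39950, V.of 100000 59996 60000] = true := by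
  decide +kernel

theorem c2lo {Y T K X : ℝ}
    (y0 : 0 ≤ Y) (y1 : Y ≤ 13 / 100)
    (t0 : 0 ≤ T) (t1 : T ≤ 4 / 25)
    (k0 : 657 / 2000 ≤ K) (k1 : K ≤ 799 / 2000)
    (x0 : 14999 / 25000 ≤ X) (x1 : X ≤ 3 / 5)
    (h3 : Y + T ≤ 16 / 100) :
    nF 2 (-1 / 2) (X + K) T X Y (1 / 4) ≤ 0 := by
  obtain ⟨e, he, hp⟩ := chkT4 k2lo (by norm_num) (x := Y) (y := T) (z := K) (w := X)
    (by norm_num; linarith only [y0]) (by norm_num; linarith only [y1]) (by norm_num; linarith only [t0]) (by norm_num; linarith only [t1]) (by norm_num; linarith only [k0]) (by norm_num; linarith only [k1]) (by norm_num; linarith only [x0]) (by norm_num; linarith only [x1])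
  simp only [List.mem_cons, List.not_mem_nil, or_false] at he
  rcases he with rfl | rfl
  · simp only [eN, eM, eF, eH, eN1, eN2, eDX, eGX, eGA, eDA, eP, eQ, eR, E.val, NumI.lkR] at hp
    norm_num [nF, PY] at hp ⊢
    linarith only [hp]
  · simp only [eN, eM, eF, eH, eN1, eN2, eDX, eGX, eGA, eDA, eP, eQ, eR, E.val, NumI.lkR] at hp
    norm_num [nF, PY] at hp ⊢
    linarith only [h3, hp]

private theorem k2hi : chkT [eN (q 2 1) (q 3 2) (sub (add (var 3) (var 2)) (q 1 1)) (var 1) (var 3) (q 1 4),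
      sub (add (var 0) (var 1)) (q 16 100)] 40
    0x888820088088088088088288202222288888882222888882288828888888212112121221221
    [V.of 100000 0 13000, V.of 100000 0 16000,
    V.of 100000 40100 80000, V.of 100000 59996 60000] = true := by
  decide +kernel

theorem c2hi {Y T K X : ℝ}
    (y0 : 0 ≤ Y) (y1 : Y ≤ 13 / 100)
    (t0 : 0 ≤ T) (t1 : T ≤ 4 / 25)
    (k0 : 401 / 1000 ≤ K) (k1 : K ≤ 4 / 5)
    (x0 : 14999 / 25000 ≤ X) (x1 : X ≤ 3 / 5)
    (h3 : Y + T ≤ 16 / 100) :
    nF 2 (3 / 2) (X + K - 1) T X Y (1 / 4) ≤ 0 := by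
  obtain ⟨e, he, hp⟩ := chkT4 k2hi (by norm_num) (x := Y) (y := T) (z := K) (w := X)
    (by norm_num; linarith only [y0]) (by norm_num; linarith only [y1]) (by norm_num; linarith only [t0]) (by norm_num; linarith only [t1]) (by norm_num; linarith only [k0]) (by norm_num; linarith only [k1]) (by norm_num; linarith only [x0]) (by norm_num; linarith only [x1])
  simp only [List.mem_cons, List.not_mem_nil, or_false] at he
  rcases he with rfl | rfl
  · simp only [eN, eM, eF, eH, eN1, eN2, eDX, eGX, eGA, eDA, eP, eQ, eR, E.val, NumI.lkR] at hp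
    norm_num [nF, PY] at hp ⊢
    linarith only [hp]
  · simp only [eN, eM, eF, eH, eN1, eN2, eDX, eGX, eGA, eDA, eP, eQ, eR, E.val, NumI.lkR] at hp
    norm_num [nF, PY] at hp ⊢
    linarith only [h3, hp]

private theorem k2nr : chkT [eN1 (q 2 1) (var 1) (var 2) (q 1 4),
      eN2 (q 2 1) (var 1) (var 2) (q 1 4),
      sub (add (var 0) (var 1)) (q 16 100)] 40
    0x89191
    [V.of 100000 0 13000, V.of 100000 0 16000,
    V.of 100000 59996 60000] = true := by
  decide +kernel

theorem c2nr {Y T X : ℝ}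
    (y0 : 0 ≤ Y) (y1 : Y ≤ 13 / 100)
    (t0 : 0 ≤ T) (t1 : T ≤ 4 / 25)
    (x0 : 14999 / 25000 ≤ X) (x1 : X ≤ 3 / 5)
    (h3 : Y + T ≤ 16 / 100) :
    (1 + PY Y) * (NumI.lnB (999 / 1000) T - Real.pi * (499 / 1000) +
        2 * (NumI.lnB X Y + Real.pi * (X - 1 / 2))) + 1 / 1000 +
        (49 / 5 + 270 * Y ^ 2) * (Real.pi * (1002 / 1000) * T + 7 / 1000 -
          2 * (uu X Y - Real.pi * (X - 1 / 2) * Y) - 1 / 4) ≤ 0 ∨
      (1 + PY Y) * (-(Real.pi * (499 / 1000)) +
        2 * (NumI.lnB X Y + Real.pi * (X - 1 / 2))) + 1 / 1000 +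
        (49 / 5 + 270 * Y ^ 2) * (Real.pi * (1002 / 1000) * T + 7 / 1000 -
          2 * (uu X Y - Real.pi * (X - 1 / 2) * Y) - 1 / 4) ≤ 0 := by
  obtain ⟨e, he, hp⟩ := chkT3 k2nr (by norm_num) (x := Y) (y := T) (z := X)
    (by norm_num; linarith only [y0]) (by norm_num; linarith only [y1]) (by norm_num; linarith only [t0]) (by norm_num; linarith only [t1]) (by norm_num; linarith only [x0]) (by norm_num; linarith only [x1])
  simp only [List.mem_cons, List.not_mem_nil, or_false] at he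
  rcases he with rfl | rfl | rfl
  · left
    simp only [eN, eM, eF, eH, eN1, eN2, eDX, eGX, eGA, eDA, eP, eQ, eR, E.val, NumI.lkR] at hp
    norm_num [nF, PY] at hp ⊢
    linarith only [hp]
  · right
    simp only [eN, eM, eF, eH, eN1, eN2, eDX, eGX, eGA, eDA, eP, eQ, eR, E.val, NumI.lkR] at hp
    norm_num [nF, PY] at hp ⊢
    linarith only [hp]
  · simp only [eN, eM, eF, eH, eN1, eN2, eDX, eGX, eGA, eDA, eP, eQ, eR, E.val, NumI.lkR] at hp
    norm_num at hp
    linarith only [h3, hp]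

private theorem k2F : chkT [eF (q 2 1) (var 1) (q 65 10000)] 40
    0x880
    [V.of 100000 0 13000, V.of 100000 59996 60000] = true := by
  decide +kernel

theorem c2F {Y X : ℝ}
    (y0 : 0 ≤ Y) (y1 : Y ≤ 13 / 100)
    (x0 : 14999 / 25000 ≤ X) (x1 : X ≤ 3 / 5) :
    (1 + PY Y) * (2 * (NumI.lnB X Y + Real.pi * (X - 1 / 2))) + 1 / 1000 +
      (49 / 5 + 270 * Y ^ 2) * (-(2 * (uu X Y - Real.pi * (X - 1 / 2) * Y)) - 65 / 10000) ≤ 0 := by
  obtain ⟨e, he, hp⟩ := chkT2 k2F (by norm_num) (x := Y) (y := X)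
    (by norm_num; linarith only [y0]) (by norm_num; linarith only [y1]) (by norm_num; linarith only [x0]) (by norm_num; linarith only [x1])
  simp only [List.mem_cons, List.not_mem_nil, or_false] at he
  subst he
  simp only [eN, eM, eF, eH, eN1, eN2, eDX, eGX, eGA, eDA, eP, eQ, eR, E.val, NumI.lkR] at hp
  norm_num [nF, PY] at hp ⊢
  linarith only [hp]

private theorem k2H : chkT [eH (q 2 1) (var 1) (q 1 4) (q 7 10)] 40
    0x8
    [V.of 100000 0 13000, V.of 100000 59996 60000] = true := by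
  decide +kernel

theorem c2H {Y X : ℝ}
    (y0 : 0 ≤ Y) (y1 : Y ≤ 13 / 100)
    (x0 : 14999 / 25000 ≤ X) (x1 : X ≤ 3 / 5) :
    Real.pi * (7 / 10) + 1 / 1000 ≤ (49 / 5 + 90 * Y ^ 2) *
      (2 * (uu X Y - Real.pi * (X - 1 / 2) * Y) + 1 / 4) := by
  obtain ⟨e, he, hp⟩ := chkT2 k2H (by norm_num) (x := Y) (y := X)
    (by norm_num; linarith only [y0]) (by norm_num; linarith only [y1]) (by norm_num; linarith only [x0]) (by norm_num; linarith only [x1])
  simp only [List.mem_cons, List.not_mem_nil, or_false] at he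
  subst he
  simp only [eN, eM, eF, eH, eN1, eN2, eDX, eGX, eGA, eDA, eP, eQ, eR, E.val, NumI.lkR] at hp
  norm_num [nF, PY] at hp ⊢
  linarith only [hp]

private theorem k2dA : chkT [sub (q 7 10) (sub (lnA (var 1) (var 0)) (mul pi (var 0)))] 40
    0x888881000
    [V.of 100000 13000 100000, V.of 100000 59990 92900] = true := by
  decide +kernel

theorem c2dA {Y X : ℝ}
    (y0 : 13 / 100 ≤ Y) (y1 : Y ≤ 1)
    (x0 : 5999 / 10000 ≤ X) (x1 : X ≤ 929 / 1000) :
    NumI.lnA X Y - Real.pi * Y ≤ 7 / 10 := by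
  obtain ⟨e, he, hp⟩ := chkT2 k2dA (by norm_num) (x := Y) (y := X)
    (by norm_num; linarith only [y0]) (by norm_num; linarith only [y1]) (by norm_num; linarith only [x0]) (by norm_num; linarith only [x1])
  simp only [List.mem_cons, List.not_mem_nil, or_false] at he
  subst he
  simp only [eN, eM, eF, eH, eN1, eN2, eDX, eGX, eGA, eDA, eP, eQ, eR, E.val, NumI.lkR] at hp
  norm_num [nF, PY] at hp ⊢
  linarith only [hp]

private theorem k2dp : chkT [eM (q 2 1) (q (-1) 2) (add (var 3) (var 1)) (sub (var 2) (var 0)) (var 3) (add (q 2 100) (mul (q 7 10) (var 1))),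
      sub (var 2) (mul (q 16 5) (var 1))] 40
    0x8818808891118888011218808188188089821111880818881018818881018818810821100
    [V.of 100000 13000 50000, V.of 100000 0 32860,
    V.of 100000 0 16000, V.of 100000 59996 60000] = true := by
  decide +kernel

theorem c2dp {Y K M X : ℝ}
    (y0 : 13 / 100 ≤ Y) (y1 : Y ≤ 1 / 2)
    (k0 : 0 ≤ K) (k1 : K ≤ 1643 / 5000)
    (m0 : 0 ≤ M) (m1 : M ≤ 4 / 25)
    (x0 : 14999 / 25000 ≤ X) (x1 : X ≤ 3 / 5)
    (h3 : M ≤ 16 / 5 * K) :
    Real.pi * (X + K - 1 / 2) * (M - Y) + uu (X + K) (M - Y) - 2 * (uu X Y - Real.pi * (X - 1 / 2) * Y) ≤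
      2 / 100 + 7 / 10 * K := by
  obtain ⟨e, he, hp⟩ := chkT4 k2dp (by norm_num) (x := Y) (y := K) (z := M) (w := X)
    (by norm_num; linarith only [y0]) (by norm_num; linarith only [y1]) (by norm_num; linarith only [k0]) (by norm_num; linarith only [k1]) (by norm_num; linarith only [m0]) (by norm_num; linarith only [m1]) (by norm_num; linarith only [x0]) (by norm_num; linarith only [x1])
  simp only [List.mem_cons, List.not_mem_nil, or_false] at he
  rcases he with rfl | rfl
  · simp only [eN, eM, eF, eH, eN1, eN2, eDX, eGX, eGA, eDA, eP, eQ, eR, E.val, NumI.lkR] at hp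
    norm_num [nF, PY] at hp ⊢
    linarith only [hp]
  · simp only [eN, eM, eF, eH, eN1, eN2, eDX, eGX, eGA, eDA, eP, eQ, eR, E.val, NumI.lkR] at hp
    norm_num [nF, PY] at hp ⊢
    linarith only [h3, hp]

private theorem k2d34 : chkT [sub (q 2 100) (eGA (q (-1) 2) (var 0) (neg (q 34 100)))] 40
    0x88800880800
    [V.of 100000 59990 92900] = true := by
  decide +kernel

theorem c2d34 {X : ℝ}
    (x0 : 5999 / 10000 ≤ X) (x1 : X ≤ 929 / 1000) :
    uu X (-(34 / 100)) - Real.pi * (X - 1 / 2) * (34 / 100) ≤ 2 / 100 := by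
  obtain ⟨e, he, hp⟩ := chkT1 k2d34 (by norm_num) (x := X)
    (by norm_num; linarith only [x0]) (by norm_num; linarith only [x1])
  simp only [List.mem_cons, List.not_mem_nil, or_false] at he
  subst he
  simp only [eN, eM, eF, eH, eN1, eN2, eDX, eGX, eGA, eDA, eP, eQ, eR, E.val, NumI.lkR] at hp
  norm_num [nF, PY] at hp ⊢
  linarith only [hp]

private theorem k2d40 : chkT [sub (q 135 10000) (eGA (q (-1) 2) (var 0) (neg (q 4 10)))] 40
    0x88800880800
    [V.of 100000 59990 92900] = true := by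
  decide +kernel

theorem c2d40 {X : ℝ}
    (x0 : 5999 / 10000 ≤ X) (x1 : X ≤ 929 / 1000) :
    uu X (-(4 / 10)) - Real.pi * (X - 1 / 2) * (4 / 10) ≤ 135 / 10000 := by
  obtain ⟨e, he, hp⟩ := chkT1 k2d40 (by norm_num) (x := X)
    (by norm_num; linarith only [x0]) (by norm_num; linarith only [x1])
  simp only [List.mem_cons, List.not_mem_nil, or_false] at he
  subst he
  simp only [eN, eM, eF, eH, eN1, eN2, eDX, eGX, eGA, eDA, eP, eQ, eR, E.val, NumI.lkR] at hp
  norm_num [nF, PY] at hp ⊢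
  linarith only [hp]

end RB

end ZD

end Pool.Agent.Work.MP_b30479_gt.G2
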