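import Pool.Agent.Work.MP_b30479_gt.G2.ZRbC

/-!
# Modes at rings, side of `D`: the lower end of the mode path, certificates for `b3`
-/

set_option linter.unusedVariables false
set_option linter.unusedSimpArgs false

namespace Pool.Agent.Work.MP_b30479_gt.G2

open VOL NumU

namespace ZD

namespace RB

open NumU.E
open NumI (V)

private theorem k3n : chkT [eN (q 1 1) (q (-1) 2) (add (var 3) (var 1)) (sub (neg (var 2)) (var 0)) (var 3) (q 1 20),
      sub (var 2) (mul (q 16 5) (sub (var 1) (q 1 5)))] 40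
    0x888128880812088802888020888800210
    [V.of 100000 0 13000, V.of 100000 20000 30000,
    V.of 100000 0 16000, V.of 100000 59996 60000] = true := by
  decide +kernel

theorem c3n {Y K M X : ℝ}
    (y0 : 0 ≤ Y) (y1 : Y ≤ 13 / 100)
    (k0 : 1 / 5 ≤ K) (k1 : K ≤ 3 / 10)
    (m0 : 0 ≤ M) (m1 : M ≤ 4 / 25)
    (x0 : 14999 / 25000 ≤ X) (x1 : X ≤ 3 / 5)
    (h3 : M ≤ 16 / 5 * (K - 1 / 5)) :
    nF 1 (-1 / 2) (X + K) (-M - Y) X Y (1 / 20) ≤ 0 := by
  obtain ⟨e, he, hp⟩ := chkT4 k3n (by norm_num) (x := Y) (y := K) (z := M) (w := X)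
    (by norm_num; linarith only [y0]) (by norm_num; linarith only [y1]) (by norm_num; linarith only [k0]) (by norm_num; linarith only [k1]) (by norm_num; linarith only [m0]) (by norm_num; linarith only [m1]) (by norm_num; linarith only [x0]) (by norm_num; linarith only [x1])
  simp only [List.mem_cons, List.not_mem_nil, or_false] at he
  rcases he with rfl | rfl
  · simp only [eN, eM, eF, eH, eN1, eN2, eDX, eGX, eGA, eDA, eP, eQ, eR, E.val, NumI.lkR] at hp
    norm_num [nF, PY] at hp ⊢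
    linarith only [hp]
  · simp only [eN, eM, eF, eH, eN1, eN2, eDX, eGX, eGA, eDA, eP, eQ, eR, E.val, NumI.lkR] at hp
    norm_num [nF, PY] at hp ⊢
    linarith only [h3, hp]

private theorem k3p : chkT [eN (q 1 1) (q (-1) 2) (add (var 3) (var 1)) (sub (var 2) (var 0)) (var 3) (add (q 1 20) (mul (q 17 20) (var 2))),
      sub (var 2) (mul (q 16 5) (sub (var 1) (q 1 5)))] 40
    0x88088802288288201888028880218880288218881810828288028828828201000
    [V.of 100000 0 13000, V.of 100000 20000 30000,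
    V.of 100000 0 16000, V.of 100000 59996 60000] = true := by
  decide +kernel

theorem c3p {Y K M X : ℝ}
    (y0 : 0 ≤ Y) (y1 : Y ≤ 13 / 100)
    (k0 : 1 / 5 ≤ K) (k1 : K ≤ 3 / 10)
    (m0 : 0 ≤ M) (m1 : M ≤ 4 / 25)
    (x0 : 14999 / 25000 ≤ X) (x1 : X ≤ 3 / 5)
    (h3 : M ≤ 16 / 5 * (K - 1 / 5)) :
    nF 1 (-1 / 2) (X + K) (M - Y) X Y (1 / 20 + 17 / 20 * M) ≤ 0 := by
  obtain ⟨e, he, hp⟩ := chkT4 k3p (by norm_num) (x := Y) (y := K) (z := M) (w := X)
    (by norm_num; linarith only [y0]) (by norm_num; linarith only [y1]) (by norm_num; linarith only [k0]) (by norm_num; linarith only [k1]) (by norm_num; linarith only [m0]) (by norm_num; linarith only [m1]) (by norm_num; linarith only [x0]) (by norm_num; linarith only [x1])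
  simp only [List.mem_cons, List.not_mem_nil, or_false] at he
  rcases he with rfl | rfl
  · simp only [eN, eM, eF, eH, eN1, eN2, eDX, eGX, eGA, eDA, eP, eQ, eR, E.val, NumI.lkR] at hp
    norm_num [nF, PY] at hp ⊢
    linarith only [hp]
  · simp only [eN, eM, eF, eH, eN1, eN2, eDX, eGX, eGA, eDA, eP, eQ, eR, E.val, NumI.lkR] at hp
    norm_num [nF, PY] at hp ⊢
    linarith only [h3, hp]

private theorem k3lo : chkT [eN (q 1 1) (q (-1) 2) (add (var 3) (var 2)) (var 1) (var 3) (q 1 5),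
      sub (add (var 0) (var 1)) (q 16 100)] 40
    0x98828282880298081208828282828802188282828288028828282828828288288888211821821821828218211
    [V.of 100000 0 13000, V.of 100000 0 16000,
    V.of 100000 30000 39950, V.of 100000 59996 60000] = true := by
  decide +kernel

theorem c3lo {Y T K X : ℝ}
    (y0 : 0 ≤ Y) (y1 : Y ≤ 13 / 100)
    (t0 : 0 ≤ T) (t1 : T ≤ 4 / 25)
    (k0 : 3 / 10 ≤ K) (k1 : K ≤ 799 / 2000)
    (x0 : 14999 / 25000 ≤ X) (x1 : X ≤ 3 / 5)
    (h3 : Y + T ≤ 16 / 100) :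
    nF 1 (-1 / 2) (X + K) T X Y (1 / 5) ≤ 0 := by
  obtain ⟨e, he, hp⟩ := chkT4 k3lo (by norm_num) (x := Y) (y := T) (z := K) (w := X)
    (by norm_num; linarith only [y0]) (by norm_num; linarith only [y1]) (by norm_num; linarith only [t0]) (by norm_num; linarith only [t1]) (by norm_num; linarith only [k0]) (by norm_num; linarith only [k1]) (by norm_num; linarith only [x0]) (by norm_num; linarith only [x1])
  simp only [List.mem_cons, List.not_mem_nil, or_false] at he
  rcases he with rfl | rfl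
  · simp only [eN, eM, eF, eH, eN1, eN2, eDX, eGX, eGA, eDA, eP, eQ, eR, E.val, NumI.lkR] at hp
    norm_num [nF, PY] at hp ⊢
    linarith only [hp]
  · simp only [eN, eM, eF, eH, eN1, eN2, eDX, eGX, eGA, eDA, eP, eQ, eR, E.val, NumI.lkR] at hp
    norm_num [nF, PY] at hp ⊢
    linarith only [h3, hp]

private theorem k3hi : chkT [eN (q 1 1) (q 3 2) (sub (add (var 3) (var 2)) (q 1 1)) (var 1) (var 3) (q 1 5),
      sub (add (var 0) (var 1)) (q 16 100)] 40
    0x99808188888822222208888888222222188888882222888882288828888888012112121221221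
    [V.of 100000 0 13000, V.of 100000 0 16000,
    V.of 100000 40100 70000, V.of 100000 59996 60000] = true := by
  decide +kernel

theorem c3hi {Y T K X : ℝ}
    (y0 : 0 ≤ Y) (y1 : Y ≤ 13 / 100)
    (t0 : 0 ≤ T) (t1 : T ≤ 4 / 25)
    (k0 : 401 / 1000 ≤ K) (k1 : K ≤ 7 / 10)
    (x0 : 14999 / 25000 ≤ X) (x1 : X ≤ 3 / 5)
    (h3 : Y + T ≤ 16 / 100) :
    nF 1 (3 / 2) (X + K - 1) T X Y (1 / 5) ≤ 0 := by
  obtain ⟨e, he, hp⟩ := chkT4 k3hi (by norm_num) (x := Y) (y := T) (z := K) (w := X)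
    (by norm_num; linarith only [y0]) (by norm_num; linarith only [y1]) (by norm_num; linarith only [t0]) (by norm_num; linarith only [t1]) (by norm_num; linarith only [k0]) (by norm_num; linarith only [k1]) (by norm_num; linarith only [x0]) (by norm_num; linarith only [x1])
  simp only [List.mem_cons, List.not_mem_nil, or_false] at he
  rcases he with rfl | rfl
  · simp only [eN, eM, eF, eH, eN1, eN2, eDX, eGX, eGA, eDA, eP, eQ, eR, E.val, NumI.lkR] at hp
    norm_num [nF, PY] at hp ⊢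
    linarith only [hp]
  · simp only [eN, eM, eF, eH, eN1, eN2, eDX, eGX, eGA, eDA, eP, eQ, eR, E.val, NumI.lkR] at hp
    norm_num [nF, PY] at hp ⊢
    linarith only [h3, hp]

private theorem k3hj : chkT [eN (q 1 1) (q 3 2) (sub (add (var 3) (var 2)) (q 1 1)) (var 1) (var 3)
        (add (q 1 10) (mul (q 19 10) (add (var 0) (var 1)))),
      sub (add (var 0) (var 1)) (q 16 100),
      sub (add (var 0) (var 1)) (mul (q 16 5) (sub (q 1 1) (var 2)))] 40
    0x888a828282082008801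
    [V.of 100000 0 13000, V.of 100000 0 16000,
    V.of 100000 70000 100000, V.of 100000 59996 60000] = true := by
  decide +kernel

theorem c3hj {Y T K X : ℝ}
    (y0 : 0 ≤ Y) (y1 : Y ≤ 13 / 100)
    (t0 : 0 ≤ T) (t1 : T ≤ 4 / 25)
    (k0 : 7 / 10 ≤ K) (k1 : K ≤ 1)
    (x0 : 14999 / 25000 ≤ X) (x1 : X ≤ 3 / 5)
    (h3 : Y + T ≤ 16 / 100) (h4 : Y + T ≤ 16 / 5 * (1 - K)) :
    nF 1 (3 / 2) (X + K - 1) T X Y (1 / 10 + 19 / 10 * (Y + T)) ≤ 0 := by
  obtain ⟨e, he, hp⟩ := chkT4 k3hj (by norm_num) (x := Y) (y := T) (z := K) (w := X)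
    (by norm_num; linarith only [y0]) (by norm_num; linarith only [y1]) (by norm_num; linarith only [t0]) (by norm_num; linarith only [t1]) (by norm_num; linarith only [k0]) (by norm_num; linarith only [k1]) (by norm_num; linarith only [x0]) (by norm_num; linarith only [x1])
  simp only [List.mem_cons, List.not_mem_nil, or_false] at he
  rcases he with rfl | rfl | rfl
  · simp only [eN, eM, eF, eH, eN1, eN2, eDX, eGX, eGA, eDA, eP, eQ, eR, E.val, NumI.lkR] at hp
    norm_num [nF, PY] at hp ⊢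
    linarith only [hp]
  · simp only [eN, eM, eF, eH, eN1, eN2, eDX, eGX, eGA, eDA, eP, eQ, eR, E.val, NumI.lkR] at hp
    norm_num [nF, PY] at hp ⊢
    linarith only [h3, hp]
  · simp only [eN, eM, eF, eH, eN1, eN2, eDX, eGX, eGA, eDA, eP, eQ, eR, E.val, NumI.lkR] at hp
    norm_num [nF, PY] at hp ⊢
    linarith only [h4, hp]

private theorem k3nr : chkT [eN1 (q 1 1) (var 1) (var 2) (q 1 5),
      eN2 (q 1 1) (var 1) (var 2) (q 1 5),
      sub (add (var 0) (var 1)) (q 16 100)] 40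
    0xa808191
    [V.of 100000 0 13000, V.of 100000 0 16000,
    V.of 100000 59996 60000] = true := by
  decide +kernel

theorem c3nr {Y T X : ℝ}
    (y0 : 0 ≤ Y) (y1 : Y ≤ 13 / 100)
    (t0 : 0 ≤ T) (t1 : T ≤ 4 / 25)
    (x0 : 14999 / 25000 ≤ X) (x1 : X ≤ 3 / 5)
    (h3 : Y + T ≤ 16 / 100) :
    (1 + PY Y) * (NumI.lnB (999 / 1000) T - Real.pi * (499 / 1000) +
        1 * (NumI.lnB X Y + Real.pi * (X - 1 / 2))) + 1 / 1000 +
        (49 / 5 + 270 * Y ^ 2) * (Real.pi * (1002 / 1000) * T + 7 / 1000 -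
          1 * (uu X Y - Real.pi * (X - 1 / 2) * Y) - 1 / 5) ≤ 0 ∨
      (1 + PY Y) * (-(Real.pi * (499 / 1000)) +
        1 * (NumI.lnB X Y + Real.pi * (X - 1 / 2))) + 1 / 1000 +
        (49 / 5 + 270 * Y ^ 2) * (Real.pi * (1002 / 1000) * T + 7 / 1000 -
          1 * (uu X Y - Real.pi * (X - 1 / 2) * Y) - 1 / 5) ≤ 0 := by
  obtain ⟨e, he, hp⟩ := chkT3 k3nr (by norm_num) (x := Y) (y := T) (z := X)
    (by norm_num; linarith only [y0]) (by norm_num; linarith only [y1]) (by norm_num; linarith only [t0]) (by norm_num; linarith only [t1]) (by norm_num; linarith only [x0]) (by norm_num; linarith only [x1])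
  simp only [List.mem_cons, List.not_mem_nil, or_false] at he
  rcases he with rfl | rfl | rfl
  · left
    simp only [eN, eM, eF, eH, eN1, eN2, eDX, eGX, eGA, eDA, eP, eQ, eR, E.val, NumI.lkR] at hp
    norm_num [nF, PY] at hp ⊢
    linarith only [hp]
  · right
    simp only [eN, eM, eF, eH, eN1, eN2, eDX, eGX, eGA, eDA, eP, eQ, eR, E.val, NumI.lkR] at hp
    norm_num [nF, PY] at hp ⊢
    linarith only [hp]
  · simp only [eN, eM, eF, eH, eN1, eN2, eDX, eGX, eGA, eDA, eP, eQ, eR, E.val, NumI.lkR] at hp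
    norm_num at hp
    linarith only [h3, hp]

private theorem k3F : chkT [eF (q 1 1) (var 1) (q 31 1000)] 40
    0x8
    [V.of 100000 0 13000, V.of 100000 59996 60000] = true := by
  decide +kernel

theorem c3F {Y X : ℝ}
    (y0 : 0 ≤ Y) (y1 : Y ≤ 13 / 100)
    (x0 : 14999 / 25000 ≤ X) (x1 : X ≤ 3 / 5) :
    (1 + PY Y) * (1 * (NumI.lnB X Y + Real.pi * (X - 1 / 2))) + 1 / 1000 +
      (49 / 5 + 270 * Y ^ 2) * (-(1 * (uu X Y - Real.pi * (X - 1 / 2) * Y)) - 31 / 1000) ≤ 0 := by
  obtain ⟨e, he, hp⟩ := chkT2 k3F (by norm_num) (x := Y) (y := X)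
    (by norm_num; linarith only [y0]) (by norm_num; linarith only [y1]) (by norm_num; linarith only [x0]) (by norm_num; linarith only [x1])
  simp only [List.mem_cons, List.not_mem_nil, or_false] at he
  subst he
  simp only [eN, eM, eF, eH, eN1, eN2, eDX, eGX, eGA, eDA, eP, eQ, eR, E.val, NumI.lkR] at hp
  norm_num [nF, PY] at hp ⊢
  linarith only [hp]

private theorem k3H : chkT [eH (q 1 1) (var 1) (q 1 5) (q 6 10)] 40
    0x8
    [V.of 100000 0 13000, V.of 100000 59996 60000] = true := by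
  decide +kernel

theorem c3H {Y X : ℝ}
    (y0 : 0 ≤ Y) (y1 : Y ≤ 13 / 100)
    (x0 : 14999 / 25000 ≤ X) (x1 : X ≤ 3 / 5) :
    Real.pi * (6 / 10) + 1 / 1000 ≤ (49 / 5 + 90 * Y ^ 2) *
      (1 * (uu X Y - Real.pi * (X - 1 / 2) * Y) + 1 / 5) := by
  obtain ⟨e, he, hp⟩ := chkT2 k3H (by norm_num) (x := Y) (y := X)
    (by norm_num; linarith only [y0]) (by norm_num; linarith only [y1]) (by norm_num; linarith only [x0]) (by norm_num; linarith only [x1])
  simp only [List.mem_cons, List.not_mem_nil, or_false] at he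
  subst he
  simp only [eN, eM, eF, eH, eN1, eN2, eDX, eGX, eGA, eDA, eP, eQ, eR, E.val, NumI.lkR] at hp
  norm_num [nF, PY] at hp ⊢
  linarith only [hp]

private theorem k3H7 : chkT [eH (q 1 1) (var 1) (q 1 10) (q 3 10)] 40
    0x8
    [V.of 100000 0 13000, V.of 100000 59996 60000] = true := by
  decide +kernel

theorem c3H7 {Y X : ℝ}
    (y0 : 0 ≤ Y) (y1 : Y ≤ 13 / 100)
    (x0 : 14999 / 25000 ≤ X) (x1 : X ≤ 3 / 5) :
    Real.pi * (3 / 10) + 1 / 1000 ≤ (49 / 5 + 90 * Y ^ 2) *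
      (1 * (uu X Y - Real.pi * (X - 1 / 2) * Y) + 1 / 10) := by
  obtain ⟨e, he, hp⟩ := chkT2 k3H7 (by norm_num) (x := Y) (y := X)
    (by norm_num; linarith only [y0]) (by norm_num; linarith only [y1]) (by norm_num; linarith only [x0]) (by norm_num; linarith only [x1])
  simp only [List.mem_cons, List.not_mem_nil, or_false] at he
  subst he
  simp only [eN, eM, eF, eH, eN1, eN2, eDX, eGX, eGA, eDA, eP, eQ, eR, E.val, NumI.lkR] at hp
  norm_num [nF, PY] at hp ⊢
  linarith only [hp]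

private theorem k3dn : chkT [eM (q 1 1) (q (-1) 2) (add (var 2) (var 1)) (neg (var 0)) (var 2) (q 1 20)] 40
    0x8888100
    [V.of 100000 13000 45000, V.of 100000 20000 30000,
    V.of 100000 59996 60000] = true := by
  decide +kernel

theorem c3dn {Y K X : ℝ}
    (y0 : 13 / 100 ≤ Y) (y1 : Y ≤ 9 / 20)
    (k0 : 1 / 5 ≤ K) (k1 : K ≤ 3 / 10)
    (x0 : 14999 / 25000 ≤ X) (x1 : X ≤ 3 / 5) :
    Real.pi * (X + K - 1 / 2) * (-Y) + uu (X + K) (-Y) - (uu X Y - Real.pi * (X - 1 / 2) * Y) ≤ 1 / 20 := by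
  obtain ⟨e, he, hp⟩ := chkT3 k3dn (by norm_num) (x := Y) (y := K) (z := X)
    (by norm_num; linarith only [y0]) (by norm_num; linarith only [y1]) (by norm_num; linarith only [k0]) (by norm_num; linarith only [k1]) (by norm_num; linarith only [x0]) (by norm_num; linarith only [x1])
  simp only [List.mem_cons, List.not_mem_nil, or_false] at he
  subst he
  simp only [eN, eM, eF, eH, eN1, eN2, eDX, eGX, eGA, eDA, eP, eQ, eR, E.val, NumI.lkR] at hp
  norm_num [nF, PY] at hp ⊢
  linarith only [hp]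

private theorem k3dp : chkT [eM (q 1 1) (q (-1) 2) (add (var 3) (var 1)) (sub (var 2) (var 0)) (var 3) (add (q 1 20) (mul (q 17 20) (var 2))),
      sub (var 2) (mul (q 16 5) (sub (var 1) (q 1 5)))] 40
    0x88802888128881288802888021000
    [V.of 100000 13000 50000, V.of 100000 20000 30000,
    V.of 100000 0 16000, V.of 100000 59996 60000] = true := by
  decide +kernel

theorem c3dp {Y K M X : ℝ}
    (y0 : 13 / 100 ≤ Y) (y1 : Y ≤ 1 / 2)
    (k0 : 1 / 5 ≤ K) (k1 : K ≤ 3 / 10)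
    (m0 : 0 ≤ M) (m1 : M ≤ 4 / 25)
    (x0 : 14999 / 25000 ≤ X) (x1 : X ≤ 3 / 5)
    (h3 : M ≤ 16 / 5 * (K - 1 / 5)) :
    Real.pi * (X + K - 1 / 2) * (M - Y) + uu (X + K) (M - Y) - (uu X Y - Real.pi * (X - 1 / 2) * Y) ≤
      1 / 20 + 17 / 20 * M := by
  obtain ⟨e, he, hp⟩ := chkT4 k3dp (by norm_num) (x := Y) (y := K) (z := M) (w := X)
    (by norm_num; linarith only [y0]) (by norm_num; linarith only [y1]) (by norm_num; linarith only [k0]) (by norm_num; linarith only [k1]) (by norm_num; linarith only [m0]) (by norm_num; linarith only [m1]) (by norm_num; linarith only [x0]) (by norm_num; linarith only [x1])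
  simp only [List.mem_cons, List.not_mem_nil, or_false] at he
  rcases he with rfl | rfl
  · simp only [eN, eM, eF, eH, eN1, eN2, eDX, eGX, eGA, eDA, eP, eQ, eR, E.val, NumI.lkR] at hp
    norm_num [nF, PY] at hp ⊢
    linarith only [hp]
  · simp only [eN, eM, eF, eH, eN1, eN2, eDX, eGX, eGA, eDA, eP, eQ, eR, E.val, NumI.lkR] at hp
    norm_num [nF, PY] at hp ⊢
    linarith only [h3, hp]

private theorem k3d34 : chkT [sub (q 2 100) (eGA (q (-1) 2) (var 0) (neg (q 34 100)))] 40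
    0x880
    [V.of 100000 79990 90010] = true := by
  decide +kernel

theorem c3d34 {X : ℝ}
    (x0 : 7999 / 10000 ≤ X) (x1 : X ≤ 9001 / 10000) :
    uu X (-(34 / 100)) - Real.pi * (X - 1 / 2) * (34 / 100) ≤ 2 / 100 := by
  obtain ⟨e, he, hp⟩ := chkT1 k3d34 (by norm_num) (x := X)
    (by norm_num; linarith only [x0]) (by norm_num; linarith only [x1])
  simp only [List.mem_cons, List.not_mem_nil, or_false] at he
  subst he
  simp only [eN, eM, eF, eH, eN1, eN2, eDX, eGX, eGA, eDA, eP, eQ, eR, E.val, NumI.lkR] at hp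
  norm_num [nF, PY] at hp ⊢
  linarith only [hp]

private theorem k3dlo : chkT [eM (q 1 1) (q (-1) 2) (add (var 3) (var 2)) (var 1) (var 3) (q 1 5)] 40
    0x88882118282828282
    [V.of 100000 13000 16000, V.of 100000 0 3000,
    V.of 100000 30000 39950, V.of 100000 59996 60000] = true := by
  decide +kernel

theorem c3dlo {Y T K X : ℝ}
    (y0 : 13 / 100 ≤ Y) (y1 : Y ≤ 4 / 25)
    (t0 : 0 ≤ T) (t1 : T ≤ 3 / 100)
    (k0 : 3 / 10 ≤ K) (k1 : K ≤ 799 / 2000)
    (x0 : 14999 / 25000 ≤ X) (x1 : X ≤ 3 / 5) :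
    Real.pi * (X + K - 1 / 2) * T + uu (X + K) T - (uu X Y - Real.pi * (X - 1 / 2) * Y) ≤ 1 / 5 := by
  obtain ⟨e, he, hp⟩ := chkT4 k3dlo (by norm_num) (x := Y) (y := T) (z := K) (w := X)
    (by norm_num; linarith only [y0]) (by norm_num; linarith only [y1]) (by norm_num; linarith only [t0]) (by norm_num; linarith only [t1]) (by norm_num; linarith only [k0]) (by norm_num; linarith only [k1]) (by norm_num; linarith only [x0]) (by norm_num; linarith only [x1])
  simp only [List.mem_cons, List.not_mem_nil, or_false] at he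
  subst he
  simp only [eN, eM, eF, eH, eN1, eN2, eDX, eGX, eGA, eDA, eP, eQ, eR, E.val, NumI.lkR] at hp
  norm_num [nF, PY] at hp ⊢
  linarith only [hp]

end RB

end ZD

end Pool.Agent.Work.MP_b30479_gt.G2
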