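import Pool.Agent.Work.MP_b30479_gt.G2.ZReB
import Pool.Agent.Work.NumU.Tree
import Pool.Agent.Work.NumU.TreeS

/-!
# The loss at a hinge next to a ring: certificates
-/

set_option linter.unusedSimpArgs false
set_option linter.unusedVariables false

namespace Pool.Agent.Work.MP_b30479_gt.G2

open VOL NumU

namespace ZD

open NumU.E ZE

theorem e1_pD4X1pA {x y s r : ℝ} (ua1 : 1500 / 10000 ≤ x) (ua2 : x ≤ 1850 / 10000) (ua3 : 0 / 10000 ≤ y) (ua4 : y ≤ 10 / 10000) (ua5 : 0 / 10000 ≤ s) (ua6 : s ≤ 200 / 10000) (ua7 : 0 / 10000 ≤ r) (ua8 : r ≤ 1045 / 10000) (ua9 : 0 ≤ (y - 4 * (r * s))) :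
    NumU.uu (x + s) (y + 4 * (r * s)) + (NumU.uu (x - s) (y - 4 * (r * s)) + Real.pi * (y - 4 * (r * s))) + (-NumU.uu (x + 225 / 1000) (y + 9 / 10 * r) + -NumU.uu (x + 775 / 1000) (y - 9 / 10 * r)) < (958 / 10000 - 85 / 100 * r) := by
  have h : chkT [sub (sub (q 958 10000) (mul (q 85 100) ZE.r)) (add (add (E.uu (add ZE.x ZE.s) (add ZE.y ZE.h)) (add (E.uu (sub ZE.x ZE.s) (sub ZE.y ZE.h)) (mul pi (sub ZE.y ZE.h)))) (add (neg (E.uu (add ZE.x (q 225 1000)) (add ZE.y (mul (q 9 10) ZE.r)))) (neg (E.uu (add ZE.x (q 775 1000)) (sub ZE.y (mul (q 9 10) ZE.r)))))), neg (sub ZE.y ZE.h)] 60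
    8
    [NumI.V.of 10000 1500 1850, NumI.V.of 10000 0 10, NumI.V.of 10000 0 200, NumI.V.of 10000 0 1045] = true := by
    decide +kernel
  obtain ⟨f, hf, hp⟩ := chkT4 h (by norm_num) (x := x) (y := y) (z := s) (w := r)
    (by norm_num; linarith only [ua1]) (by norm_num; linarith only [ua2]) (by norm_num; linarith only [ua3]) (by norm_num; linarith only [ua4]) (by norm_num; linarith only [ua5]) (by norm_num; linarith only [ua6]) (by norm_num; linarith only [ua7]) (by norm_num; linarith only [ua8])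
  by_contra hc
  push Not at hc
  simp only [List.mem_cons, List.not_mem_nil, or_false] at hf
  rcases hf with rfl | rfl
  · simp only [ZE.x, ZE.y, ZE.s, ZE.r, ZE.h, E.val, NumI.lkR] at hp
    push_cast at hp
    linarith only [hc, hp]
  · simp only [ZE.x, ZE.y, ZE.s, ZE.r, ZE.h, E.val, NumI.lkR] at hp
    push_cast at hp
    linarith only [ua9, hp]

theorem e1_pD4X1nA {x y s r : ℝ} (ua1 : 1500 / 10000 ≤ x) (ua2 : x ≤ 1850 / 10000) (ua3 : -(1580 / 10000) ≤ y) (ua4 : y ≤ 10 / 10000) (ua5 : 0 / 10000 ≤ s) (ua6 : s ≤ 200 / 10000) (ua7 : 0 / 10000 ≤ r) (ua8 : r ≤ 1045 / 10000) (ua9 : (y - 4 * (r * s)) ≤ 0) :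
    NumU.uu (x + s) (y + 4 * (r * s)) + (NumU.uu (x - s) (y - 4 * (r * s)) + Real.pi * -(y - 4 * (r * s))) + (-NumU.uu (x + 225 / 1000) (y + 9 / 10 * r) + -NumU.uu (x + 775 / 1000) (y - 9 / 10 * r)) < (958 / 10000 - 85 / 100 * r) := by
  have h : chkT [sub (sub (q 958 10000) (mul (q 85 100) ZE.r)) (add (add (E.uu (add ZE.x ZE.s) (add ZE.y ZE.h)) (add (E.uu (sub ZE.x ZE.s) (sub ZE.y ZE.h)) (mul pi (neg (sub ZE.y ZE.h))))) (add (neg (E.uu (add ZE.x (q 225 1000)) (add ZE.y (mul (q 9 10) ZE.r)))) (neg (E.uu (add ZE.x (q 775 1000)) (sub ZE.y (mul (q 9 10) ZE.r)))))), add (q 0 1) (sub ZE.y ZE.h)] 60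
    2177
    [NumI.V.of 10000 1500 1850, NumI.V.of 10000 (-1580) 10, NumI.V.of 10000 0 200, NumI.V.of 10000 0 1045] = true := by
    decide +kernel
  obtain ⟨f, hf, hp⟩ := chkT4 h (by norm_num) (x := x) (y := y) (z := s) (w := r)
    (by norm_num; linarith only [ua1]) (by norm_num; linarith only [ua2]) (by norm_num; linarith only [ua3]) (by norm_num; linarith only [ua4]) (by norm_num; linarith only [ua5]) (by norm_num; linarith only [ua6]) (by norm_num; linarith only [ua7]) (by norm_num; linarith only [ua8])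
  by_contra hc
  push Not at hc
  simp only [List.mem_cons, List.not_mem_nil, or_false] at hf
  rcases hf with rfl | rfl
  · simp only [ZE.x, ZE.y, ZE.s, ZE.r, ZE.h, E.val, NumI.lkR] at hp
    push_cast at hp
    linarith only [hc, hp]
  · simp only [ZE.x, ZE.y, ZE.s, ZE.r, ZE.h, E.val, NumI.lkR] at hp
    push_cast at hp
    linarith only [ua9, hp]

theorem e1_pD4X2pA {x y s r : ℝ} (ua1 : 1850 / 10000 ≤ x) (ua2 : x ≤ 2250 / 10000) (ua3 : 0 / 10000 ≤ y) (ua4 : y ≤ 10 / 10000) (ua5 : 0 / 10000 ≤ s) (ua6 : s ≤ 200 / 10000) (ua7 : 0 / 10000 ≤ r) (ua8 : r ≤ 1045 / 10000) (ua9 : 0 ≤ (y - 4 * (r * s))) :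
    NumU.uu (x + s) (y + 4 * (r * s)) + (NumU.uu (x - s) (y - 4 * (r * s)) + Real.pi * (y - 4 * (r * s))) + (-NumU.uu (x + 225 / 1000) (y + 9 / 10 * r) + ((25 / 1) * (225 / 1000 - x) * NumU.uu (400 / 10000) (y - 9 / 10 * r) - Real.pi * (1 / 2) * (y - 9 / 10 * r) * (1 - (25 / 1) * (225 / 1000 - x)))) < (958 / 10000 - 85 / 100 * r) ∨ NumU.uu (x + s) (y + 4 * (r * s)) + (NumU.uu (x - s) (y - 4 * (r * s)) + Real.pi * (y - 4 * (r * s))) + (-NumU.uu (x + 225 / 1000) (y + 9 / 10 * r) + ((25 / 1) * (225 / 1000 - x) * NumU.uu (400 / 10000) (y - 9 / 10 * r) - Real.pi * (1 / 2) * -(y - 9 / 10 * r) * (1 - (25 / 1) * (225 / 1000 - x)))) < (958 / 10000 - 85 / 100 * r) := by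
  have h : chkT [sub (sub (q 958 10000) (mul (q 85 100) ZE.r)) (add (add (E.uu (add ZE.x ZE.s) (add ZE.y ZE.h)) (add (E.uu (sub ZE.x ZE.s) (sub ZE.y ZE.h)) (mul pi (sub ZE.y ZE.h)))) (add (neg (E.uu (add ZE.x (q 225 1000)) (add ZE.y (mul (q 9 10) ZE.r)))) (sub (mul (mul (q 25 1) (sub (q 225 1000) ZE.x)) (E.uu (q 400 10000) (sub ZE.y (mul (q 9 10) ZE.r)))) (mul (mul (mul pi (q 1 2)) (sub ZE.y (mul (q 9 10) ZE.r))) (sub (q 1 1) (mul (q 25 1) (sub (q 225 1000) ZE.x))))))), sub (sub (q 958 10000) (mul (q 85 100) ZE.r)) (add (add (E.uu (add ZE.x ZE.s) (add ZE.y ZE.h)) (add (E.uu (sub ZE.x ZE.s) (sub ZE.y ZE.h)) (mul pi (sub ZE.y ZE.h)))) (add (neg (E.uu (add ZE.x (q 225 1000)) (add ZE.y (mul (q 9 10) ZE.r)))) (sub (mul (mul (q 25 1) (sub (q 225 1000) ZE.x)) (E.uu (q 400 10000) (sub ZE.y (mul (q 9 10) ZE.r)))) (mul (mul (mul pi (q 1 2)) (neg (sub ZE.y (mul (q 9 10) ZE.r)))) (sub (q 1 1) (mul (q 25 1) (sub (q 225 1000) ZE.x))))))),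 neg (sub ZE.y ZE.h)] 60
    8
    [NumI.V.of 10000 1850 2250, NumI.V.of 10000 0 10, NumI.V.of 10000 0 200, NumI.V.of 10000 0 1045] = true := by
    decide +kernel
  obtain ⟨f, hf, hp⟩ := chkT4 h (by norm_num) (x := x) (y := y) (z := s) (w := r)
    (by norm_num; linarith only [ua1]) (by norm_num; linarith only [ua2]) (by norm_num; linarith only [ua3]) (by norm_num; linarith only [ua4]) (by norm_num; linarith only [ua5]) (by norm_num; linarith only [ua6]) (by norm_num; linarith only [ua7]) (by norm_num; linarith only [ua8])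
  by_contra hc
  push Not at hc
  obtain ⟨hc0, hc1⟩ := hc
  simp only [List.mem_cons, List.not_mem_nil, or_false] at hf
  rcases hf with rfl | rfl | rfl
  · simp only [ZE.x, ZE.y, ZE.s, ZE.r, ZE.h, E.val, NumI.lkR] at hp
    push_cast at hp
    linarith only [hc0, hp]
  · simp only [ZE.x, ZE.y, ZE.s, ZE.r, ZE.h, E.val, NumI.lkR] at hp
    push_cast at hp
    linarith only [hc1, hp]
  · simp only [ZE.x, ZE.y, ZE.s, ZE.r, ZE.h, E.val, NumI.lkR] at hp
    push_cast at hp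
    linarith only [ua9, hp]

theorem e1_pD4X2nA {x y s r : ℝ} (ua1 : 1850 / 10000 ≤ x) (ua2 : x ≤ 2250 / 10000) (ua3 : -(1580 / 10000) ≤ y) (ua4 : y ≤ 10 / 10000) (ua5 : 0 / 10000 ≤ s) (ua6 : s ≤ 200 / 10000) (ua7 : 0 / 10000 ≤ r) (ua8 : r ≤ 1045 / 10000) (ua9 : (y - 4 * (r * s)) ≤ 0) :
    NumU.uu (x + s) (y + 4 * (r * s)) + (NumU.uu (x - s) (y - 4 * (r * s)) + Real.pi * -(y - 4 * (r * s))) + (-NumU.uu (x + 225 / 1000) (y + 9 / 10 * r) + ((25 / 1) * (225 / 1000 - x) * NumU.uu (400 / 10000) (y - 9 / 10 * r) - Real.pi * (1 / 2) * (y - 9 / 10 * r) * (1 - (25 / 1) * (225 / 1000 - x)))) < (958 / 10000 - 85 / 100 * r) ∨ NumU.uu (x + s) (y + 4 * (r * s)) + (NumU.uu (x - s) (y - 4 * (r * s)) + Real.pi * -(y - 4 * (r * s))) + (-NumU.uu (x + 225 / 1000) (y + 9 / 10 * r) + ((25 / 1) * (225 / 1000 - x) * NumU.uu (400 / 10000) (y - 9 / 10 * r) - Real.pi * (1 / 2) * -(y - 9 / 10 * r) * (1 - (25 / 1) * (225 / 1000 - x)))) < (958 /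 10000 - 85 / 100 * r) := by
  have h : chkT [sub (sub (q 958 10000) (mul (q 85 100) ZE.r)) (add (add (E.uu (add ZE.x ZE.s) (add ZE.y ZE.h)) (add (E.uu (sub ZE.x ZE.s) (sub ZE.y ZE.h)) (mul pi (neg (sub ZE.y ZE.h))))) (add (neg (E.uu (add ZE.x (q 225 1000)) (add ZE.y (mul (q 9 10) ZE.r)))) (sub (mul (mul (q 25 1) (sub (q 225 1000) ZE.x)) (E.uu (q 400 10000) (sub ZE.y (mul (q 9 10) ZE.r)))) (mul (mul (mul pi (q 1 2)) (sub ZE.y (mul (q 9 10) ZE.r))) (sub (q 1 1) (mul (q 25 1) (sub (q 225 1000) ZE.x))))))), sub (sub (q 958 10000) (mul (q 85 100) ZE.r)) (add (add (E.uu (add ZE.x ZE.s) (add ZE.y ZE.h)) (add (E.uu (sub ZE.x ZE.s) (sub ZE.y ZE.h)) (mul pi (neg (sub ZE.y ZE.h))))) (add (neg (E.uu (add ZE.x (q 225 1000)) (add ZE.y (mul (q 9 10) ZE.r)))) (sub (mul (mul (q 25 1) (sub (q 225 1000) ZE.x)) (E.uu (q 400 10000) (sub ZE.y (mul (q 9 10) ZE.r)))) (mul (mul (mul pi (q 1 2)) (neg (sub ZE.y (mul (q 9 10) ZE.r)))) (sub (q 1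 1) (mul (q 25 1) (sub (q 225 1000) ZE.x))))))), add (q 0 1) (sub ZE.y ZE.h)] 60
    2449
    [NumI.V.of 10000 1850 2250, NumI.V.of 10000 (-1580) 10, NumI.V.of 10000 0 200, NumI.V.of 10000 0 1045] = true := by
    decide +kernel
  obtain ⟨f, hf, hp⟩ := chkT4 h (by norm_num) (x := x) (y := y) (z := s) (w := r)
    (by norm_num; linarith only [ua1]) (by norm_num; linarith only [ua2]) (by norm_num; linarith only [ua3]) (by norm_num; linarith only [ua4]) (by norm_num; linarith only [ua5]) (by norm_num; linarith only [ua6]) (by norm_num; linarith only [ua7]) (by norm_num; linarith only [ua8])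
  by_contra hc
  push Not at hc
  obtain ⟨hc0, hc1⟩ := hc
  simp only [List.mem_cons, List.not_mem_nil, or_false] at hf
  rcases hf with rfl | rfl | rfl
  · simp only [ZE.x, ZE.y, ZE.s, ZE.r, ZE.h, E.val, NumI.lkR] at hp
    push_cast at hp
    linarith only [hc0, hp]
  · simp only [ZE.x, ZE.y, ZE.s, ZE.r, ZE.h, E.val, NumI.lkR] at hp
    push_cast at hp
    linarith only [hc1, hp]
  · simp only [ZE.x, ZE.y, ZE.s, ZE.r, ZE.h, E.val, NumI.lkR] at hp
    push_cast at hp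
    linarith only [ua9, hp]

theorem e1_pD4X3pA {x y s r : ℝ} (ua1 : 2250 / 10000 ≤ x) (ua2 : x ≤ 2650 / 10000) (ua3 : 0 / 10000 ≤ y) (ua4 : y ≤ 10 / 10000) (ua5 : 0 / 10000 ≤ s) (ua6 : s ≤ 200 / 10000) (ua7 : 0 / 10000 ≤ r) (ua8 : r ≤ 1045 / 10000) (ua9 : 0 ≤ (y - 4 * (r * s))) :
    NumU.uu (x + s) (y + 4 * (r * s)) + (NumU.uu (x - s) (y - 4 * (r * s)) + Real.pi * (y - 4 * (r * s))) + (-NumU.uu (x + 225 / 1000) (y + 9 / 10 * r) + (((400 / 10000) - (x - 225 / 1000)) * NumI.lnA (400 / 10000) (y - 9 / 10 * r) - NumU.uu (400 / 10000) (y - 9 / 10 * r) - Real.pi * (y - 9 / 10 * r))) < (958 / 10000 - 85 / 100 * r) ∨ NumU.uu (x + s) (y + 4 * (r * s)) + (NumU.uu (x - s) (y - 4 * (r * s)) + Real.pi * (y - 4 * (r * s))) + (-NumU.uu (x + 225 / 1000) (y + 9 / 10 * r) + (((400 / 10000) - (x - 225 / 1000)) * NumI.lnA (400 / 10000) (y - 9 / 10 * r) - NumU.uu (400 / 10000) (y - 9 / 10 * r) - Real.pi * -(y - 9 / 10 * r))) < (958 / 10000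 - 85 / 100 * r) := by
  have h : chkT [sub (sub (q 958 10000) (mul (q 85 100) ZE.r)) (add (add (E.uu (add ZE.x ZE.s) (add ZE.y ZE.h)) (add (E.uu (sub ZE.x ZE.s) (sub ZE.y ZE.h)) (mul pi (sub ZE.y ZE.h)))) (add (neg (E.uu (add ZE.x (q 225 1000)) (add ZE.y (mul (q 9 10) ZE.r)))) (sub (sub (mul (sub (q 400 10000) (sub ZE.x (q 225 1000))) (E.lnA (q 400 10000) (sub ZE.y (mul (q 9 10) ZE.r)))) (E.uu (q 400 10000) (sub ZE.y (mul (q 9 10) ZE.r)))) (mul pi (sub ZE.y (mul (q 9 10) ZE.r)))))), sub (sub (q 958 10000) (mul (q 85 100) ZE.r)) (add (add (E.uu (add ZE.x ZE.s) (add ZE.y ZE.h)) (add (E.uu (sub ZE.x ZE.s) (sub ZE.y ZE.h)) (mul pi (sub ZE.y ZE.h)))) (add (neg (E.uu (add ZE.x (q 225 1000)) (add ZE.y (mul (q 9 10) ZE.r)))) (sub (sub (mul (sub (q 400 10000) (sub ZE.x (q 225 1000))) (E.lnA (q 400 10000) (sub ZE.y (mul (q 9 10) ZE.r)))) (E.uu (q 400 10000) (sub ZE.y (mul (q 9 10) ZE.r)))) (mul pi (neg (sub ZE.y (mul (q 9 10) ZE.r))))))),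 neg (sub ZE.y ZE.h)] 60
    9
    [NumI.V.of 10000 2250 2650, NumI.V.of 10000 0 10, NumI.V.of 10000 0 200, NumI.V.of 10000 0 1045] = true := by
    decide +kernel
  obtain ⟨f, hf, hp⟩ := chkT4 h (by norm_num) (x := x) (y := y) (z := s) (w := r)
    (by norm_num; linarith only [ua1]) (by norm_num; linarith only [ua2]) (by norm_num; linarith only [ua3]) (by norm_num; linarith only [ua4]) (by norm_num; linarith only [ua5]) (by norm_num; linarith only [ua6]) (by norm_num; linarith only [ua7]) (by norm_num; linarith only [ua8])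
  by_contra hc
  push Not at hc
  obtain ⟨hc0, hc1⟩ := hc
  simp only [List.mem_cons, List.not_mem_nil, or_false] at hf
  rcases hf with rfl | rfl | rfl
  · simp only [ZE.x, ZE.y, ZE.s, ZE.r, ZE.h, E.val, NumI.lkR] at hp
    push_cast at hp
    linarith only [hc0, hp]
  · simp only [ZE.x, ZE.y, ZE.s, ZE.r, ZE.h, E.val, NumI.lkR] at hp
    push_cast at hp
    linarith only [hc1, hp]
  · simp only [ZE.x, ZE.y, ZE.s, ZE.r, ZE.h, E.val, NumI.lkR] at hp
    push_cast at hp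
    linarith only [ua9, hp]

theorem e1_pD4X3nA {x y s r : ℝ} (ua1 : 2250 / 10000 ≤ x) (ua2 : x ≤ 2650 / 10000) (ua3 : -(1580 / 10000) ≤ y) (ua4 : y ≤ 10 / 10000) (ua5 : 0 / 10000 ≤ s) (ua6 : s ≤ 200 / 10000) (ua7 : 0 / 10000 ≤ r) (ua8 : r ≤ 1045 / 10000) (ua9 : (y - 4 * (r * s)) ≤ 0) :
    NumU.uu (x + s) (y + 4 * (r * s)) + (NumU.uu (x - s) (y - 4 * (r * s)) + Real.pi * -(y - 4 * (r * s))) + (-NumU.uu (x + 225 / 1000) (y + 9 / 10 * r) + (((400 / 10000) - (x - 225 / 1000)) * NumI.lnA (400 / 10000) (y - 9 / 10 * r) - NumU.uu (400 / 10000) (y - 9 / 10 * r) - Real.pi * (y - 9 / 10 * r))) < (958 / 10000 - 85 / 100 * r) ∨ NumU.uu (x + s) (y + 4 * (r * s)) + (NumU.uu (x - s) (y - 4 * (r * s)) + Real.pi * -(y - 4 * (r * s))) + (-NumU.uu (x + 225 / 1000) (y + 9 / 10 * r) + (((400 / 10000) - (x - 225 / 1000)) * NumI.lnA (400 / 10000) (y - 9 / 10 * r) - NumU.uu (400 / 10000) (y - 9 / 10 * r) - Real.pi * -(y - 9 / 10 * r))) < (958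 / 10000 - 85 / 100 * r) := by
  have h : chkT [sub (sub (q 958 10000) (mul (q 85 100) ZE.r)) (add (add (E.uu (add ZE.x ZE.s) (add ZE.y ZE.h)) (add (E.uu (sub ZE.x ZE.s) (sub ZE.y ZE.h)) (mul pi (neg (sub ZE.y ZE.h))))) (add (neg (E.uu (add ZE.x (q 225 1000)) (add ZE.y (mul (q 9 10) ZE.r)))) (sub (sub (mul (sub (q 400 10000) (sub ZE.x (q 225 1000))) (E.lnA (q 400 10000) (sub ZE.y (mul (q 9 10) ZE.r)))) (E.uu (q 400 10000) (sub ZE.y (mul (q 9 10) ZE.r)))) (mul pi (sub ZE.y (mul (q 9 10) ZE.r)))))), sub (sub (q 958 10000) (mul (q 85 100) ZE.r)) (add (add (E.uu (add ZE.x ZE.s) (add ZE.y ZE.h)) (add (E.uu (sub ZE.x ZE.s) (sub ZE.y ZE.h)) (mul pi (neg (sub ZE.y ZE.h))))) (add (neg (E.uu (add ZE.x (q 225 1000)) (add ZE.y (mul (q 9 10) ZE.r)))) (sub (sub (mul (sub (q 400 10000) (sub ZE.x (q 225 1000))) (E.lnA (q 400 10000) (sub ZE.y (mul (q 9 10) ZE.r)))) (E.uu (q 400 10000) (sub ZE.y (mul (q 9 10) ZE.r)))) (mul pi (neg (sub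 ZE.y (mul (q 9 10) ZE.r))))))), add (q 0 1) (sub ZE.y ZE.h)] 60
    2449
    [NumI.V.of 10000 2250 2650, NumI.V.of 10000 (-1580) 10, NumI.V.of 10000 0 200, NumI.V.of 10000 0 1045] = true := by
    decide +kernel
  obtain ⟨f, hf, hp⟩ := chkT4 h (by norm_num) (x := x) (y := y) (z := s) (w := r)
    (by norm_num; linarith only [ua1]) (by norm_num; linarith only [ua2]) (by norm_num; linarith only [ua3]) (by norm_num; linarith only [ua4]) (by norm_num; linarith only [ua5]) (by norm_num; linarith only [ua6]) (by norm_num; linarith only [ua7]) (by norm_num; linarith only [ua8])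
  by_contra hc
  push Not at hc
  obtain ⟨hc0, hc1⟩ := hc
  simp only [List.mem_cons, List.not_mem_nil, or_false] at hf
  rcases hf with rfl | rfl | rfl
  · simp only [ZE.x, ZE.y, ZE.s, ZE.r, ZE.h, E.val, NumI.lkR] at hp
    push_cast at hp
    linarith only [hc0, hp]
  · simp only [ZE.x, ZE.y, ZE.s, ZE.r, ZE.h, E.val, NumI.lkR] at hp
    push_cast at hp
    linarith only [hc1, hp]
  · simp only [ZE.x, ZE.y, ZE.s, ZE.r, ZE.h, E.val, NumI.lkR] at hp
    push_cast at hp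
    linarith only [ua9, hp]

theorem e1_pD4X4pA {x y s r : ℝ} (ua1 : 2650 / 10000 ≤ x) (ua2 : x ≤ 6000 / 10000) (ua3 : 0 / 10000 ≤ y) (ua4 : y ≤ 10 / 10000) (ua5 : 0 / 10000 ≤ s) (ua6 : s ≤ 200 / 10000) (ua7 : 0 / 10000 ≤ r) (ua8 : r ≤ 1045 / 10000) (ua9 : 0 ≤ (y - 4 * (r * s))) (ua10 : -y ≤ 545 / 1000 * (65 / 100 - x)) :
    NumU.uu (x + s) (y + 4 * (r * s)) + (NumU.uu (x - s) (y - 4 * (r * s)) + Real.pi * (y - 4 * (r * s))) + (-NumU.uu (x + 225 / 1000) (y + 9 / 10 * r) + -(NumU.uu (x - 225 / 1000) (y - 9 / 10 * r) + Real.pi * (y - 9 / 10 * r))) < (958 / 10000 - 85 / 100 * r) ∨ NumU.uu (x + s) (y + 4 * (r * s)) + (NumU.uu (x - s) (y - 4 * (r * s)) + Real.pi * (y - 4 * (r * s))) + (-NumU.uu (x + 225 / 1000) (y + 9 / 10 * r) + -(NumU.uu (x - 225 / 1000) (y - 9 / 10 * r) + Real.pi * -(y - 9 / 10 * r))) < (958 / 10000 - 85 / 100 * r) := by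
  have h : chkT [sub (sub (q 958 10000) (mul (q 85 100) ZE.r)) (add (add (E.uu (add ZE.x ZE.s) (add ZE.y ZE.h)) (add (E.uu (sub ZE.x ZE.s) (sub ZE.y ZE.h)) (mul pi (sub ZE.y ZE.h)))) (add (neg (E.uu (add ZE.x (q 225 1000)) (add ZE.y (mul (q 9 10) ZE.r)))) (neg (add (E.uu (sub ZE.x (q 225 1000)) (sub ZE.y (mul (q 9 10) ZE.r))) (mul pi (sub ZE.y (mul (q 9 10) ZE.r))))))), sub (sub (q 958 10000) (mul (q 85 100) ZE.r)) (add (add (E.uu (add ZE.x ZE.s) (add ZE.y ZE.h)) (add (E.uu (sub ZE.x ZE.s) (sub ZE.y ZE.h)) (mul pi (sub ZE.y ZE.h)))) (add (neg (E.uu (add ZE.x (q 225 1000)) (add ZE.y (mul (q 9 10) ZE.r)))) (neg (add (E.uu (sub ZE.x (q 225 1000)) (sub ZE.y (mul (q 9 10) ZE.r))) (mul pi (neg (sub ZE.y (mul (q 9 10) ZE.r)))))))), neg (sub ZE.y ZE.h), sub (neg ZE.y) (mul (q 545 1000) (sub (q 65 100) ZE.x))] 60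
    160471296
    [NumI.V.of 10000 2650 6000, NumI.V.of 10000 0 10, NumI.V.of 10000 0 200, NumI.V.of 10000 0 1045] = true := by
    decide +kernel
  obtain ⟨f, hf, hp⟩ := chkT4 h (by norm_num) (x := x) (y := y) (z := s) (w := r)
    (by norm_num; linarith only [ua1]) (by norm_num; linarith only [ua2]) (by norm_num; linarith only [ua3]) (by norm_num; linarith only [ua4]) (by norm_num; linarith only [ua5]) (by norm_num; linarith only [ua6]) (by norm_num; linarith only [ua7]) (by norm_num; linarith only [ua8])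
  by_contra hc
  push Not at hc
  obtain ⟨hc0, hc1⟩ := hc
  simp only [List.mem_cons, List.not_mem_nil, or_false] at hf
  rcases hf with rfl | rfl | rfl | rfl
  · simp only [ZE.x, ZE.y, ZE.s, ZE.r, ZE.h, E.val, NumI.lkR] at hp
    push_cast at hp
    linarith only [hc0, hp]
  · simp only [ZE.x, ZE.y, ZE.s, ZE.r, ZE.h, E.val, NumI.lkR] at hp
    push_cast at hp
    linarith only [hc1, hp]
  · simp only [ZE.x, ZE.y, ZE.s, ZE.r, ZE.h, E.val, NumI.lkR] at hp
    push_cast at hp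
    linarith only [ua9, hp]
  · simp only [ZE.x, ZE.y, ZE.s, ZE.r, ZE.h, E.val, NumI.lkR] at hp
    push_cast at hp
    linarith only [ua2, ua3, hp]

theorem e1_pD4X4nA {x y s r : ℝ} (ua1 : 2650 / 10000 ≤ x) (ua2 : x ≤ 6000 / 10000) (ua3 : -(1580 / 10000) ≤ y) (ua4 : y ≤ 10 / 10000) (ua5 : 0 / 10000 ≤ s) (ua6 : s ≤ 200 / 10000) (ua7 : 0 / 10000 ≤ r) (ua8 : r ≤ 1045 / 10000) (ua9 : (y - 4 * (r * s)) ≤ 0) (ua10 : -y ≤ 545 / 1000 * (65 / 100 - x)) :
    NumU.uu (x + s) (y + 4 * (r * s)) + (NumU.uu (x - s) (y - 4 * (r * s)) + Real.pi * -(y - 4 * (r * s))) + (-NumU.uu (x + 225 / 1000) (y + 9 / 10 * r) + -(NumU.uu (x - 225 / 1000) (y - 9 / 10 * r) + Real.pi * (y - 9 / 10 * r))) < (958 / 10000 - 85 / 100 * r) ∨ NumU.uu (x + s) (y + 4 * (r * s)) + (NumU.uu (x - s) (y - 4 * (r * s)) + Real.pi * -(y - 4 * (r * s))) + (-NumU.uu (x + 225 / 1000) (y + 9 / 10 * r) + -(NumU.uu (x - 225 / 1000) (y - 9 / 10 * r) + Real.pi * -(y - 9 /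 10 * r))) < (958 / 10000 - 85 / 100 * r) := by
  have h : chkT [sub (sub (q 958 10000) (mul (q 85 100) ZE.r)) (add (add (E.uu (add ZE.x ZE.s) (add ZE.y ZE.h)) (add (E.uu (sub ZE.x ZE.s) (sub ZE.y ZE.h)) (mul pi (neg (sub ZE.y ZE.h))))) (add (neg (E.uu (add ZE.x (q 225 1000)) (add ZE.y (mul (q 9 10) ZE.r)))) (neg (add (E.uu (sub ZE.x (q 225 1000)) (sub ZE.y (mul (q 9 10) ZE.r))) (mul pi (sub ZE.y (mul (q 9 10) ZE.r))))))), sub (sub (q 958 10000) (mul (q 85 100) ZE.r)) (add (add (E.uu (add ZE.x ZE.s) (add ZE.y ZE.h)) (add (E.uu (sub ZE.x ZE.s) (sub ZE.y ZE.h)) (mul pi (neg (sub ZE.y ZE.h))))) (add (neg (E.uu (add ZE.x (q 225 1000)) (add ZE.y (mul (q 9 10) ZE.r)))) (neg (add (E.uu (sub ZE.x (q 225 1000)) (sub ZE.y (mul (q 9 10) ZE.r))) (mul pi (neg (sub ZE.y (mul (q 9 10) ZE.r)))))))), add (q 0 1) (sub ZE.y ZE.h), sub (neg ZE.y) (mul (q 545 1000) (sub (q 65 100) ZE.x))] 60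
    45225767002728005931264
    [NumI.V.of 10000 2650 6000, NumI.V.of 10000 (-1580) 10, NumI.V.of 10000 0 200, NumI.V.of 10000 0 1045] = true := by
    decide +kernel
  obtain ⟨f, hf, hp⟩ := chkT4 h (by norm_num) (x := x) (y := y) (z := s) (w := r)
    (by norm_num; linarith only [ua1]) (by norm_num; linarith only [ua2]) (by norm_num; linarith only [ua3]) (by norm_num; linarith only [ua4]) (by norm_num; linarith only [ua5]) (by norm_num; linarith only [ua6]) (by norm_num; linarith only [ua7]) (by norm_num; linarith only [ua8])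
  by_contra hc
  push Not at hc
  obtain ⟨hc0, hc1⟩ := hc
  simp only [List.mem_cons, List.not_mem_nil, or_false] at hf
  rcases hf with rfl | rfl | rfl | rfl
  · simp only [ZE.x, ZE.y, ZE.s, ZE.r, ZE.h, E.val, NumI.lkR] at hp
    push_cast at hp
    linarith only [hc0, hp]
  · simp only [ZE.x, ZE.y, ZE.s, ZE.r, ZE.h, E.val, NumI.lkR] at hp
    push_cast at hp
    linarith only [hc1, hp]
  · simp only [ZE.x, ZE.y, ZE.s, ZE.r, ZE.h, E.val, NumI.lkR] at hp
    push_cast at hp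
    linarith only [ua9, hp]
  · simp only [ZE.x, ZE.y, ZE.s, ZE.r, ZE.h, E.val, NumI.lkR] at hp
    push_cast at hp
    linarith only [ua10, hp]

theorem e1_pD4X4nZ {x y s r : ℝ} (ua1 : 6000 / 10000 ≤ x) (ua2 : x ≤ 6500 / 10000) (ua3 : -(273 / 10000) ≤ y) (ua4 : y ≤ 0 / 10000) (ua5 : 0 / 10000 ≤ s) (ua6 : s ≤ 200 / 10000) (ua7 : 0 / 10000 ≤ r) (ua8 : r ≤ 1045 / 10000) (ua9 : (y - 4 * (r * s)) ≤ 0) (ua10 : -y ≤ 545 / 1000 * (65 / 100 - x)) :
    NumU.uu (x + s) (y + 4 * (r * s)) + (NumU.uu (x - s) (y - 4 * (r * s)) + Real.pi * -(y - 4 * (r * s))) + (-NumU.uu (x + 225 / 1000) (y + 9 / 10 * r) + -(NumU.uu (x - 225 / 1000) (y - 9 / 10 * r) + Real.pi * (y - 9 / 10 * r))) < (958 / 10000 - 85 / 100 * r) ∨ NumU.uu (x + s) (y + 4 * (r * s)) + (NumU.uu (x - s) (y - 4 * (r * s)) + Real.pi * -(y - 4 * (r * s))) + (-NumU.uu (x + 225 / 1000) (y + 9 / 10 * r) + -(NumU.uu (x - 225 / 1000) (y - 9 / 10 * r) + Real.pi * -(y - 9 / 10 * r)))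 < (958 / 10000 - 85 / 100 * r) := by
  have h : chkT [sub (sub (q 958 10000) (mul (q 85 100) ZE.r)) (add (add (E.uu (add ZE.x ZE.s) (add ZE.y ZE.h)) (add (E.uu (sub ZE.x ZE.s) (sub ZE.y ZE.h)) (mul pi (neg (sub ZE.y ZE.h))))) (add (neg (E.uu (add ZE.x (q 225 1000)) (add ZE.y (mul (q 9 10) ZE.r)))) (neg (add (E.uu (sub ZE.x (q 225 1000)) (sub ZE.y (mul (q 9 10) ZE.r))) (mul pi (sub ZE.y (mul (q 9 10) ZE.r))))))), sub (sub (q 958 10000) (mul (q 85 100) ZE.r)) (add (add (E.uu (add ZE.x ZE.s) (add ZE.y ZE.h)) (add (E.uu (sub ZE.x ZE.s) (sub ZE.y ZE.h)) (mul pi (neg (sub ZE.y ZE.h))))) (add (neg (E.uu (add ZE.x (q 225 1000)) (add ZE.y (mul (q 9 10) ZE.r)))) (neg (add (E.uu (sub ZE.x (q 225 1000)) (sub ZE.y (mul (q 9 10) ZE.r))) (mul pi (neg (sub ZE.y (mul (q 9 10) ZE.r)))))))), add (q 0 1) (sub ZE.y ZE.h), sub (neg ZE.y) (mul (q 545 1000) (sub (q 65 100) ZE.x))] 60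
    41231647539
    [NumI.V.of 10000 6000 6500, NumI.V.of 10000 (-273) 0, NumI.V.of 10000 0 200, NumI.V.of 10000 0 1045] = true := by
    decide +kernel
  obtain ⟨f, hf, hp⟩ := chkT4 h (by norm_num) (x := x) (y := y) (z := s) (w := r)
    (by norm_num; linarith only [ua1]) (by norm_num; linarith only [ua2]) (by norm_num; linarith only [ua1, ua10]) (by norm_num; linarith only [ua4]) (by norm_num; linarith only [ua5]) (by norm_num; linarith only [ua6]) (by norm_num; linarith only [ua7]) (by norm_num; linarith only [ua8])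
  by_contra hc
  push Not at hc
  obtain ⟨hc0, hc1⟩ := hc
  simp only [List.mem_cons, List.not_mem_nil, or_false] at hf
  rcases hf with rfl | rfl | rfl | rfl
  · simp only [ZE.x, ZE.y, ZE.s, ZE.r, ZE.h, E.val, NumI.lkR] at hp
    push_cast at hp
    linarith only [hc0, hp]
  · simp only [ZE.x, ZE.y, ZE.s, ZE.r, ZE.h, E.val, NumI.lkR] at hp
    push_cast at hp
    linarith only [hc1, hp]
  · simp only [ZE.x, ZE.y, ZE.s, ZE.r, ZE.h, E.val, NumI.lkR] at hp
    push_cast at hp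
    linarith only [ua9, hp]
  · simp only [ZE.x, ZE.y, ZE.s, ZE.r, ZE.h, E.val, NumI.lkR] at hp
    push_cast at hp
    linarith only [ua10, hp]

theorem e1_pD1X1B {x y s r : ℝ} (ua1 : 0 / 10000 ≤ x) (ua2 : x ≤ 300 / 10000) (ua3 : -(475 / 10000) ≤ y) (ua4 : y ≤ 10 / 10000) (ua5 : 200 / 10000 ≤ s) (ua6 : s ≤ 500 / 10000) (ua7 : 0 / 10000 ≤ r) (ua8 : r ≤ 1045 / 10000) (ua9 : x - s ≤ -(200 / 10000)) (ua10 : -y ≤ 158 / 100 * x) :
    NumU.uu (x + s) (y + 4 * (r * s)) + NumU.uu (1 + x - s) (y - 4 * (r * s)) + (-NumU.uu (x + 225 / 1000) (y + 9 / 10 * r) + -NumU.uu (x + 775 / 1000) (y - 9 / 10 * r)) < (958 / 10000 - 85 / 100 * r) := by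
  have h : chkT [sub (sub (q 958 10000) (mul (q 85 100) ZE.r)) (add (add (E.uu (add ZE.x ZE.s) (add ZE.y ZE.h)) (E.uu (sub (add (q 1 1) ZE.x) ZE.s) (sub ZE.y ZE.h))) (add (neg (E.uu (add ZE.x (q 225 1000)) (add ZE.y (mul (q 9 10) ZE.r)))) (neg (E.uu (add ZE.x (q 775 1000)) (sub ZE.y (mul (q 9 10) ZE.r)))))), sub (sub ZE.x ZE.s) (q (-200) 10000), sub (neg ZE.y) (mul (q 158 100) ZE.x)] 60
    46958587847081316819470628900852632153861770705549287436801249688886064263325565941330295163276557844723113462245492010895836242061631017469218049140956446217865395380763771572219554416592800108723564442591735757013299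
    [NumI.V.of 10000 0 300, NumI.V.of 10000 (-475) 10, NumI.V.of 10000 200 500, NumI.V.of 10000 0 1045] = true := by
    decide +kernel
  obtain ⟨f, hf, hp⟩ := chkT4 h (by norm_num) (x := x) (y := y) (z := s) (w := r)
    (by norm_num; linarith only [ua1]) (by norm_num; linarith only [ua2]) (by norm_num; linarith only [ua2, ua10]) (by norm_num; linarith only [ua4]) (by norm_num; linarith only [ua5]) (by norm_num; linarith only [ua6]) (by norm_num; linarith only [ua7]) (by norm_num; linarith only [ua8])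
  by_contra hc
  push Not at hc
  simp only [List.mem_cons, List.not_mem_nil, or_false] at hf
  rcases hf with rfl | rfl | rfl
  · simp only [ZE.x, ZE.y, ZE.s, ZE.r, ZE.h, E.val, NumI.lkR] at hp
    push_cast at hp
    linarith only [hc, hp]
  · simp only [ZE.x, ZE.y, ZE.s, ZE.r, ZE.h, E.val, NumI.lkR] at hp
    push_cast at hp
    linarith only [ua9, hp]
  · simp only [ZE.x, ZE.y, ZE.s, ZE.r, ZE.h, E.val, NumI.lkR] at hp
    push_cast at hp
    linarith only [ua10, hp]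

theorem e1_pD2X1B {x y s r : ℝ} (ua1 : 0 / 10000 ≤ x) (ua2 : x ≤ 500 / 10000) (ua3 : -(791 / 10000) ≤ y) (ua4 : y ≤ 10 / 10000) (ua5 : 200 / 10000 ≤ s) (ua6 : s ≤ 500 / 10000) (ua7 : 0 / 10000 ≤ r) (ua8 : r ≤ 1045 / 10000) (ua9 : -(200 / 10000) ≤ x - s) (ua10 : x - s ≤ 0) (ua11 : -y ≤ 158 / 100 * x) :
    NumU.uu (x + s) (y + 4 * (r * s)) + (((200 / 10000) + (x - s)) * NumI.lnA (200 / 10000) (y - 4 * (r * s)) - NumU.uu (200 / 10000) (y - 4 * (r * s))) + (-NumU.uu (x + 225 / 1000) (y + 9 / 10 * r) + -NumU.uu (x + 775 / 1000) (y - 9 / 10 * r)) < (958 / 10000 - 85 / 100 * r) := by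
  have h : chkT [sub (sub (q 958 10000) (mul (q 85 100) ZE.r)) (add (add (E.uu (add ZE.x ZE.s) (add ZE.y ZE.h)) (sub (mul (add (q 200 10000) (sub ZE.x ZE.s)) (E.lnA (q 200 10000) (sub ZE.y ZE.h))) (E.uu (q 200 10000) (sub ZE.y ZE.h)))) (add (neg (E.uu (add ZE.x (q 225 1000)) (add ZE.y (mul (q 9 10) ZE.r)))) (neg (E.uu (add ZE.x (q 775 1000)) (sub ZE.y (mul (q 9 10) ZE.r)))))), sub (q (-200) 10000) (sub ZE.x ZE.s), sub ZE.x ZE.s, sub (neg ZE.y) (mul (q 158 100) ZE.x)] 60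
    58733106688847467349459379586580354723019670987907761754701124133302273
    [NumI.V.of 10000 0 500, NumI.V.of 10000 (-791) 10, NumI.V.of 10000 200 500, NumI.V.of 10000 0 1045] = true := by
    decide +kernel
  obtain ⟨f, hf, hp⟩ := chkT4 h (by norm_num) (x := x) (y := y) (z := s) (w := r)
    (by norm_num; linarith only [ua1]) (by norm_num; linarith only [ua2]) (by norm_num; linarith only [ua2, ua11]) (by norm_num; linarith only [ua4]) (by norm_num; linarith only [ua5]) (by norm_num; linarith only [ua6]) (by norm_num; linarith only [ua7]) (by norm_num; linarith only [ua8])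
  by_contra hc
  push Not at hc
  simp only [List.mem_cons, List.not_mem_nil, or_false] at hf
  rcases hf with rfl | rfl | rfl | rfl
  · simp only [ZE.x, ZE.y, ZE.s, ZE.r, ZE.h, E.val, NumI.lkR] at hp
    push_cast at hp
    linarith only [hc, hp]
  · simp only [ZE.x, ZE.y, ZE.s, ZE.r, ZE.h, E.val, NumI.lkR] at hp
    push_cast at hp
    linarith only [ua9, hp]
  · simp only [ZE.x, ZE.y, ZE.s, ZE.r, ZE.h, E.val, NumI.lkR] at hp
    push_cast at hp
    linarith only [ua10, hp]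
  · simp only [ZE.x, ZE.y, ZE.s, ZE.r, ZE.h, E.val, NumI.lkR] at hp
    push_cast at hp
    linarith only [ua11, hp]

theorem e1_pD3X1pB {x y s r : ℝ} (ua1 : 200 / 10000 ≤ x) (ua2 : x ≤ 700 / 10000) (ua3 : 0 / 10000 ≤ y) (ua4 : y ≤ 10 / 10000) (ua5 : 200 / 10000 ≤ s) (ua6 : s ≤ 500 / 10000) (ua7 : 0 / 10000 ≤ r) (ua8 : r ≤ 1045 / 10000) (ua9 : 0 ≤ x - s) (ua10 : x - s ≤ 200 / 10000) (ua11 : 0 ≤ (y - 4 * (r * s))) (ua12 : -y ≤ 158 / 100 * x) :
    NumU.uu (x + s) (y + 4 * (r * s)) + (Real.pi * (1 / 2) * (y - 4 * (r * s)) * (1 + (50 / 1) * (x - s)) + (50 / 1) * (x - s) * NumU.uu (200 / 10000) (y - 4 * (r * s))) + (-NumU.uu (x + 225 / 1000) (y + 9 / 10 * r) + -NumU.uu (x + 775 / 1000) (y - 9 / 10 * r)) < (958 / 10000 - 85 / 100 * r) := by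
  have h : chkT [sub (sub (q 958 10000) (mul (q 85 100) ZE.r)) (add (add (E.uu (add ZE.x ZE.s) (add ZE.y ZE.h)) (add (mul (mul (mul pi (q 1 2)) (sub ZE.y ZE.h)) (add (q 1 1) (mul (q 50 1) (sub ZE.x ZE.s)))) (mul (mul (q 50 1) (sub ZE.x ZE.s)) (E.uu (q 200 10000) (sub ZE.y ZE.h))))) (add (neg (E.uu (add ZE.x (q 225 1000)) (add ZE.y (mul (q 9 10) ZE.r)))) (neg (E.uu (add ZE.x (q 775 1000)) (sub ZE.y (mul (q 9 10) ZE.r)))))), sub ZE.s ZE.x, sub (sub ZE.x ZE.s) (q 200 10000), neg (sub ZE.y ZE.h), sub (neg ZE.y) (mul (q 158 100) ZE.x)] 60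
    2947
    [NumI.V.of 10000 200 700, NumI.V.of 10000 0 10, NumI.V.of 10000 200 500, NumI.V.of 10000 0 1045] = true := by
    decide +kernel
  obtain ⟨f, hf, hp⟩ := chkT4 h (by norm_num) (x := x) (y := y) (z := s) (w := r)
    (by norm_num; linarith only [ua1]) (by norm_num; linarith only [ua2]) (by norm_num; linarith only [ua3]) (by norm_num; linarith only [ua4]) (by norm_num; linarith only [ua5]) (by norm_num; linarith only [ua6]) (by norm_num; linarith only [ua7]) (by norm_num; linarith only [ua8])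
  by_contra hc
  push Not at hc
  simp only [List.mem_cons, List.not_mem_nil, or_false] at hf
  rcases hf with rfl | rfl | rfl | rfl | rfl
  · simp only [ZE.x, ZE.y, ZE.s, ZE.r, ZE.h, E.val, NumI.lkR] at hp
    push_cast at hp
    linarith only [hc, hp]
  · simp only [ZE.x, ZE.y, ZE.s, ZE.r, ZE.h, E.val, NumI.lkR] at hp
    push_cast at hp
    linarith only [ua9, hp]
  · simp only [ZE.x, ZE.y, ZE.s, ZE.r, ZE.h, E.val, NumI.lkR] at hp
    push_cast at hp
    linarith only [ua10, hp]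
  · simp only [ZE.x, ZE.y, ZE.s, ZE.r, ZE.h, E.val, NumI.lkR] at hp
    push_cast at hp
    linarith only [ua11, hp]
  · simp only [ZE.x, ZE.y, ZE.s, ZE.r, ZE.h, E.val, NumI.lkR] at hp
    push_cast at hp
    linarith only [ua1, ua3, hp]

theorem e1_pD4X1pB {x y s r : ℝ} (ua1 : 400 / 10000 ≤ x) (ua2 : x ≤ 1850 / 10000) (ua3 : 0 / 10000 ≤ y) (ua4 : y ≤ 10 / 10000) (ua5 : 200 / 10000 ≤ s) (ua6 : s ≤ 500 / 10000) (ua7 : 0 / 10000 ≤ r) (ua8 : r ≤ 1045 / 10000) (ua9 : 200 / 10000 ≤ x - s) (ua10 : 0 ≤ (y - 4 * (r * s))) (ua11 : -y ≤ 158 / 100 * x) :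
    NumU.uu (x + s) (y + 4 * (r * s)) + (NumU.uu (x - s) (y - 4 * (r * s)) + Real.pi * (y - 4 * (r * s))) + (-NumU.uu (x + 225 / 1000) (y + 9 / 10 * r) + -NumU.uu (x + 775 / 1000) (y - 9 / 10 * r)) < (958 / 10000 - 85 / 100 * r) := by
  have h : chkT [sub (sub (q 958 10000) (mul (q 85 100) ZE.r)) (add (add (E.uu (add ZE.x ZE.s) (add ZE.y ZE.h)) (add (E.uu (sub ZE.x ZE.s) (sub ZE.y ZE.h)) (mul pi (sub ZE.y ZE.h)))) (add (neg (E.uu (add ZE.x (q 225 1000)) (add ZE.y (mul (q 9 10) ZE.r)))) (neg (E.uu (add ZE.x (q 775 1000)) (sub ZE.y (mul (q 9 10) ZE.r)))))), sub (q 200 10000) (sub ZE.x ZE.s), neg (sub ZE.y ZE.h), sub (neg ZE.y) (mul (q 158 100) ZE.x)] 60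
    2679622645085423309080887344
    [NumI.V.of 10000 400 1850, NumI.V.of 10000 0 10, NumI.V.of 10000 200 500, NumI.V.of 10000 0 1045] = true := by
    decide +kernel
  obtain ⟨f, hf, hp⟩ := chkT4 h (by norm_num) (x := x) (y := y) (z := s) (w := r)
    (by norm_num; linarith only [ua1]) (by norm_num; linarith only [ua2]) (by norm_num; linarith only [ua3]) (by norm_num; linarith only [ua4]) (by norm_num; linarith only [ua5]) (by norm_num; linarith only [ua6]) (by norm_num; linarith only [ua7]) (by norm_num; linarith only [ua8])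
  by_contra hc
  push Not at hc
  simp only [List.mem_cons, List.not_mem_nil, or_false] at hf
  rcases hf with rfl | rfl | rfl | rfl
  · simp only [ZE.x, ZE.y, ZE.s, ZE.r, ZE.h, E.val, NumI.lkR] at hp
    push_cast at hp
    linarith only [hc, hp]
  · simp only [ZE.x, ZE.y, ZE.s, ZE.r, ZE.h, E.val, NumI.lkR] at hp
    push_cast at hp
    linarith only [ua9, hp]
  · simp only [ZE.x, ZE.y, ZE.s, ZE.r, ZE.h, E.val, NumI.lkR] at hp
    push_cast at hp
    linarith only [ua10, hp]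
  · simp only [ZE.x, ZE.y, ZE.s, ZE.r, ZE.h, E.val, NumI.lkR] at hp
    push_cast at hp
    linarith only [ua1, ua3, hp]

theorem e1_pD4X2pB {x y s r : ℝ} (ua1 : 1850 / 10000 ≤ x) (ua2 : x ≤ 2250 / 10000) (ua3 : 0 / 10000 ≤ y) (ua4 : y ≤ 10 / 10000) (ua5 : 200 / 10000 ≤ s) (ua6 : s ≤ 500 / 10000) (ua7 : 0 / 10000 ≤ r) (ua8 : r ≤ 1045 / 10000) (ua9 : 0 ≤ (y - 4 * (r * s))) :
    NumU.uu (x + s) (y + 4 * (r * s)) + (NumU.uu (x - s) (y - 4 * (r * s)) + Real.pi * (y - 4 * (r * s))) + (-NumU.uu (x + 225 / 1000) (y + 9 / 10 * r) + ((25 / 1) * (225 / 1000 - x) * NumU.uu (400 / 10000) (y - 9 / 10 * r) - Real.pi * (1 / 2) * (y - 9 / 10 * r) * (1 - (25 / 1) * (225 / 1000 - x)))) < (958 / 10000 - 85 / 100 * r) ∨ NumU.uu (x + s) (y + 4 * (r * s)) + (NumU.uu (x - s) (y - 4 * (r * s)) + Real.pi * (y - 4 * (r * s))) + (-NumU.uu (x + 225 / 1000) (y + 9 / 10 * r) + ((25 / 1) * (225 / 1000 - x) * NumU.uu (400 / 10000) (y - 9 / 10 * r)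 - Real.pi * (1 / 2) * -(y - 9 / 10 * r) * (1 - (25 / 1) * (225 / 1000 - x)))) < (958 / 10000 - 85 / 100 * r) := by
  have h : chkT [sub (sub (q 958 10000) (mul (q 85 100) ZE.r)) (add (add (E.uu (add ZE.x ZE.s) (add ZE.y ZE.h)) (add (E.uu (sub ZE.x ZE.s) (sub ZE.y ZE.h)) (mul pi (sub ZE.y ZE.h)))) (add (neg (E.uu (add ZE.x (q 225 1000)) (add ZE.y (mul (q 9 10) ZE.r)))) (sub (mul (mul (q 25 1) (sub (q 225 1000) ZE.x)) (E.uu (q 400 10000) (sub ZE.y (mul (q 9 10) ZE.r)))) (mul (mul (mul pi (q 1 2)) (sub ZE.y (mul (q 9 10) ZE.r))) (sub (q 1 1) (mul (q 25 1) (sub (q 225 1000) ZE.x))))))), sub (sub (q 958 10000) (mul (q 85 100) ZE.r)) (add (add (E.uu (add ZE.x ZE.s) (add ZE.y ZE.h)) (add (E.uu (sub ZE.x ZE.s) (sub ZE.y ZE.h)) (mul pi (sub ZE.y ZE.h)))) (add (neg (E.uu (add ZE.x (q 225 1000)) (add ZE.y (mul (q 9 10) ZE.r)))) (sub (mul (mul (q 25 1) (sub (q 225 1000) ZE.x)) (E.uu (q 400 10000) (sub ZE.y (mul (q 9 10) ZE.r))))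 (mul (mul (mul pi (q 1 2)) (neg (sub ZE.y (mul (q 9 10) ZE.r)))) (sub (q 1 1) (mul (q 25 1) (sub (q 225 1000) ZE.x))))))), neg (sub ZE.y ZE.h)] 60
    8
    [NumI.V.of 10000 1850 2250, NumI.V.of 10000 0 10, NumI.V.of 10000 200 500, NumI.V.of 10000 0 1045] = true := by
    decide +kernel
  obtain ⟨f, hf, hp⟩ := chkT4 h (by norm_num) (x := x) (y := y) (z := s) (w := r)
    (by norm_num; linarith only [ua1]) (by norm_num; linarith only [ua2]) (by norm_num; linarith only [ua3]) (by norm_num; linarith only [ua4]) (by norm_num; linarith only [ua5]) (by norm_num; linarith only [ua6]) (by norm_num; linarith only [ua7]) (by norm_num; linarith only [ua8])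
  by_contra hc
  push Not at hc
  obtain ⟨hc0, hc1⟩ := hc
  simp only [List.mem_cons, List.not_mem_nil, or_false] at hf
  rcases hf with rfl | rfl | rfl
  · simp only [ZE.x, ZE.y, ZE.s, ZE.r, ZE.h, E.val, NumI.lkR] at hp
    push_cast at hp
    linarith only [hc0, hp]
  · simp only [ZE.x, ZE.y, ZE.s, ZE.r, ZE.h, E.val, NumI.lkR] at hp
    push_cast at hp
    linarith only [hc1, hp]
  · simp only [ZE.x, ZE.y, ZE.s, ZE.r, ZE.h, E.val, NumI.lkR] at hp
    push_cast at hp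
    linarith only [ua9, hp]

theorem e1_pD4X3pB {x y s r : ℝ} (ua1 : 2250 / 10000 ≤ x) (ua2 : x ≤ 2650 / 10000) (ua3 : 0 / 10000 ≤ y) (ua4 : y ≤ 10 / 10000) (ua5 : 200 / 10000 ≤ s) (ua6 : s ≤ 500 / 10000) (ua7 : 0 / 10000 ≤ r) (ua8 : r ≤ 1045 / 10000) (ua9 : 0 ≤ (y - 4 * (r * s))) :
    NumU.uu (x + s) (y + 4 * (r * s)) + (NumU.uu (x - s) (y - 4 * (r * s)) + Real.pi * (y - 4 * (r * s))) + (-NumU.uu (x + 225 / 1000) (y + 9 / 10 * r) + (((400 / 10000) - (x - 225 / 1000)) * NumI.lnA (400 / 10000) (y - 9 / 10 * r) - NumU.uu (400 / 10000) (y - 9 / 10 * r) - Real.pi * (y - 9 / 10 * r))) < (958 / 10000 - 85 / 100 * r) ∨ NumU.uu (x + s) (y + 4 * (r * s)) + (NumU.uu (x - s) (y - 4 * (r * s)) + Real.pi * (y - 4 * (r * s))) + (-NumU.uu (x + 225 / 1000) (y + 9 / 10 * r) + (((400 / 10000) - (x - 225 / 1000)) * NumI.lnA (400 / 10000) (y - 9 / 10 * r) - NumU.uu (400 / 10000) (y - 9 / 10 * r) - Real.pi * -(y - 9 / 10 * r))) < (958 /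 10000 - 85 / 100 * r) := by
  have h : chkT [sub (sub (q 958 10000) (mul (q 85 100) ZE.r)) (add (add (E.uu (add ZE.x ZE.s) (add ZE.y ZE.h)) (add (E.uu (sub ZE.x ZE.s) (sub ZE.y ZE.h)) (mul pi (sub ZE.y ZE.h)))) (add (neg (E.uu (add ZE.x (q 225 1000)) (add ZE.y (mul (q 9 10) ZE.r)))) (sub (sub (mul (sub (q 400 10000) (sub ZE.x (q 225 1000))) (E.lnA (q 400 10000) (sub ZE.y (mul (q 9 10) ZE.r)))) (E.uu (q 400 10000) (sub ZE.y (mul (q 9 10) ZE.r)))) (mul pi (sub ZE.y (mul (q 9 10) ZE.r)))))), sub (sub (q 958 10000) (mul (q 85 100) ZE.r)) (add (add (E.uu (add ZE.x ZE.s) (add ZE.y ZE.h)) (add (E.uu (sub ZE.x ZE.s) (sub ZE.y ZE.h)) (mul pi (sub ZE.y ZE.h)))) (add (neg (E.uu (add ZE.x (q 225 1000)) (add ZE.y (mul (q 9 10) ZE.r)))) (sub (sub (mul (sub (q 400 10000) (sub ZE.x (q 225 1000))) (E.lnA (q 400 10000) (sub ZE.y (mul (q 9 10) ZE.r)))) (E.uu (q 400 10000) (sub ZE.y (mul (q 9 10) ZE.r)))) (mul pi (neg (sub ZE.y (mul (q 9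 10) ZE.r))))))), neg (sub ZE.y ZE.h)] 60
    9
    [NumI.V.of 10000 2250 2650, NumI.V.of 10000 0 10, NumI.V.of 10000 200 500, NumI.V.of 10000 0 1045] = true := by
    decide +kernel
  obtain ⟨f, hf, hp⟩ := chkT4 h (by norm_num) (x := x) (y := y) (z := s) (w := r)
    (by norm_num; linarith only [ua1]) (by norm_num; linarith only [ua2]) (by norm_num; linarith only [ua3]) (by norm_num; linarith only [ua4]) (by norm_num; linarith only [ua5]) (by norm_num; linarith only [ua6]) (by norm_num; linarith only [ua7]) (by norm_num; linarith only [ua8])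
  by_contra hc
  push Not at hc
  obtain ⟨hc0, hc1⟩ := hc
  simp only [List.mem_cons, List.not_mem_nil, or_false] at hf
  rcases hf with rfl | rfl | rfl
  · simp only [ZE.x, ZE.y, ZE.s, ZE.r, ZE.h, E.val, NumI.lkR] at hp
    push_cast at hp
    linarith only [hc0, hp]
  · simp only [ZE.x, ZE.y, ZE.s, ZE.r, ZE.h, E.val, NumI.lkR] at hp
    push_cast at hp
    linarith only [hc1, hp]
  · simp only [ZE.x, ZE.y, ZE.s, ZE.r, ZE.h, E.val, NumI.lkR] at hp
    push_cast at hp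
    linarith only [ua9, hp]

theorem e1_pD4X4pB {x y s r : ℝ} (ua1 : 2650 / 10000 ≤ x) (ua2 : x ≤ 6000 / 10000) (ua3 : 0 / 10000 ≤ y) (ua4 : y ≤ 10 / 10000) (ua5 : 200 / 10000 ≤ s) (ua6 : s ≤ 500 / 10000) (ua7 : 0 / 10000 ≤ r) (ua8 : r ≤ 1045 / 10000) (ua9 : 0 ≤ (y - 4 * (r * s))) (ua10 : -y ≤ 545 / 1000 * (65 / 100 - x)) :
    NumU.uu (x + s) (y + 4 * (r * s)) + (NumU.uu (x - s) (y - 4 * (r * s)) + Real.pi * (y - 4 * (r * s))) + (-NumU.uu (x + 225 / 1000) (y + 9 / 10 * r) + -(NumU.uu (x - 225 / 1000) (y - 9 / 10 * r) + Real.pi * (y - 9 / 10 * r))) < (958 / 10000 - 85 / 100 * r) ∨ NumU.uu (x + s) (y + 4 * (r * s)) + (NumU.uu (x - s) (y - 4 * (r * s)) + Real.pi * (y - 4 * (r * s))) + (-NumU.uu (x + 225 / 1000) (y + 9 / 10 * r) + -(NumU.uu (x - 225 / 1000) (y - 9 / 10 * r) + Real.pi * -(y - 9 / 10 * r))) < (958 / 10000 - 85 / 100 * r) := by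
  have h : chkT [sub (sub (q 958 10000) (mul (q 85 100) ZE.r)) (add (add (E.uu (add ZE.x ZE.s) (add ZE.y ZE.h)) (add (E.uu (sub ZE.x ZE.s) (sub ZE.y ZE.h)) (mul pi (sub ZE.y ZE.h)))) (add (neg (E.uu (add ZE.x (q 225 1000)) (add ZE.y (mul (q 9 10) ZE.r)))) (neg (add (E.uu (sub ZE.x (q 225 1000)) (sub ZE.y (mul (q 9 10) ZE.r))) (mul pi (sub ZE.y (mul (q 9 10) ZE.r))))))), sub (sub (q 958 10000) (mul (q 85 100) ZE.r)) (add (add (E.uu (add ZE.x ZE.s) (add ZE.y ZE.h)) (add (E.uu (sub ZE.x ZE.s) (sub ZE.y ZE.h)) (mul pi (sub ZE.y ZE.h)))) (add (neg (E.uu (add ZE.x (q 225 1000)) (add ZE.y (mul (q 9 10) ZE.r)))) (neg (add (E.uu (sub ZE.x (q 225 1000)) (sub ZE.y (mul (q 9 10) ZE.r))) (mul pi (neg (sub ZE.y (mul (q 9 10) ZE.r)))))))), neg (sub ZE.y ZE.h), sub (neg ZE.y) (mul (q 545 1000) (sub (q 65 100) ZE.x))] 60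
    41130432768
    [NumI.V.of 10000 2650 6000, NumI.V.of 10000 0 10, NumI.V.of 10000 200 500, NumI.V.of 10000 0 1045] = true := by
    decide +kernel
  obtain ⟨f, hf, hp⟩ := chkT4 h (by norm_num) (x := x) (y := y) (z := s) (w := r)
    (by norm_num; linarith only [ua1]) (by norm_num; linarith only [ua2]) (by norm_num; linarith only [ua3]) (by norm_num; linarith only [ua4]) (by norm_num; linarith only [ua5]) (by norm_num; linarith only [ua6]) (by norm_num; linarith only [ua7]) (by norm_num; linarith only [ua8])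
  by_contra hc
  push Not at hc
  obtain ⟨hc0, hc1⟩ := hc
  simp only [List.mem_cons, List.not_mem_nil, or_false] at hf
  rcases hf with rfl | rfl | rfl | rfl
  · simp only [ZE.x, ZE.y, ZE.s, ZE.r, ZE.h, E.val, NumI.lkR] at hp
    push_cast at hp
    linarith only [hc0, hp]
  · simp only [ZE.x, ZE.y, ZE.s, ZE.r, ZE.h, E.val, NumI.lkR] at hp
    push_cast at hp
    linarith only [hc1, hp]
  · simp only [ZE.x, ZE.y, ZE.s, ZE.r, ZE.h, E.val, NumI.lkR] at hp
    push_cast at hp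
    linarith only [ua9, hp]
  · simp only [ZE.x, ZE.y, ZE.s, ZE.r, ZE.h, E.val, NumI.lkR] at hp
    push_cast at hp
    linarith only [ua2, ua3, hp]

theorem e1_pD3X1nB {x y s r : ℝ} (ua1 : 200 / 10000 ≤ x) (ua2 : x ≤ 700 / 10000) (ua3 : -(1107 / 10000) ≤ y) (ua4 : y ≤ 10 / 10000) (ua5 : 200 / 10000 ≤ s) (ua6 : s ≤ 500 / 10000) (ua7 : 0 / 10000 ≤ r) (ua8 : r ≤ 1045 / 10000) (ua9 : 0 ≤ x - s) (ua10 : x - s ≤ 200 / 10000) (ua11 : (y - 4 * (r * s)) ≤ 0) (ua12 : -y ≤ 158 / 100 * x) :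
    NumU.uu (x + s) (y + 4 * (r * s)) + (Real.pi * (1 / 2) * -(y - 4 * (r * s)) * (1 + (50 / 1) * (x - s)) + (50 / 1) * (x - s) * NumU.uu (200 / 10000) (y - 4 * (r * s))) + (-NumU.uu (x + 225 / 1000) (y + 9 / 10 * r) + -NumU.uu (x + 775 / 1000) (y - 9 / 10 * r)) < (958 / 10000 - 85 / 100 * r) := by
  have h : chkT [sub (sub (q 958 10000) (mul (q 85 100) ZE.r)) (add (add (E.uu (add ZE.x ZE.s) (add ZE.y ZE.h)) (add (mul (mul (mul pi (q 1 2)) (neg (sub ZE.y ZE.h))) (add (q 1 1) (mul (q 50 1) (sub ZE.x ZE.s)))) (mul (mul (q 50 1) (sub ZE.x ZE.s)) (E.uu (q 200 10000) (sub ZE.y ZE.h))))) (add (neg (E.uu (add ZE.x (q 225 1000)) (add ZE.y (mul (q 9 10) ZE.r)))) (neg (E.uu (add ZE.x (q 775 1000)) (sub ZE.y (mul (q 9 10) ZE.r)))))), sub ZE.s ZE.x, sub (sub ZE.x ZE.s) (q 200 10000), add (q 0 1) (sub ZE.y ZE.h), sub (neg ZE.y) (mul (q 158 100) ZE.x)] 60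
    229529181141290460627994834270420601720564513801367429486220746604561
    [NumI.V.of 10000 200 700, NumI.V.of 10000 (-1107) 10, NumI.V.of 10000 200 500, NumI.V.of 10000 0 1045] = true := by
    decide +kernel
  obtain ⟨f, hf, hp⟩ := chkT4 h (by norm_num) (x := x) (y := y) (z := s) (w := r)
    (by norm_num; linarith only [ua1]) (by norm_num; linarith only [ua2]) (by norm_num; linarith only [ua2, ua12]) (by norm_num; linarith only [ua4]) (by norm_num; linarith only [ua5]) (by norm_num; linarith only [ua6]) (by norm_num; linarith only [ua7]) (by norm_num; linarith only [ua8])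
  by_contra hc
  push Not at hc
  simp only [List.mem_cons, List.not_mem_nil, or_false] at hf
  rcases hf with rfl | rfl | rfl | rfl | rfl
  · simp only [ZE.x, ZE.y, ZE.s, ZE.r, ZE.h, E.val, NumI.lkR] at hp
    push_cast at hp
    linarith only [hc, hp]
  · simp only [ZE.x, ZE.y, ZE.s, ZE.r, ZE.h, E.val, NumI.lkR] at hp
    push_cast at hp
    linarith only [ua9, hp]
  · simp only [ZE.x, ZE.y, ZE.s, ZE.r, ZE.h, E.val, NumI.lkR] at hp
    push_cast at hp
    linarith only [ua10, hp]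
  · simp only [ZE.x, ZE.y, ZE.s, ZE.r, ZE.h, E.val, NumI.lkR] at hp
    push_cast at hp
    linarith only [ua11, hp]
  · simp only [ZE.x, ZE.y, ZE.s, ZE.r, ZE.h, E.val, NumI.lkR] at hp
    push_cast at hp
    linarith only [ua12, hp]

theorem e1_pD4X1nB {x y s r : ℝ} (ua1 : 400 / 10000 ≤ x) (ua2 : x ≤ 1850 / 10000) (ua3 : -(1580 / 10000) ≤ y) (ua4 : y ≤ 10 / 10000) (ua5 : 200 / 10000 ≤ s) (ua6 : s ≤ 500 / 10000) (ua7 : 0 / 10000 ≤ r) (ua8 : r ≤ 1045 / 10000) (ua9 : 200 / 10000 ≤ x - s) (ua10 : (y - 4 * (r * s)) ≤ 0) (ua11 : -y ≤ 158 / 100 * x) :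
    NumU.uu (x + s) (y + 4 * (r * s)) + (NumU.uu (x - s) (y - 4 * (r * s)) + Real.pi * -(y - 4 * (r * s))) + (-NumU.uu (x + 225 / 1000) (y + 9 / 10 * r) + -NumU.uu (x + 775 / 1000) (y - 9 / 10 * r)) < (958 / 10000 - 85 / 100 * r) := by
  have h : chkT [sub (sub (q 958 10000) (mul (q 85 100) ZE.r)) (add (add (E.uu (add ZE.x ZE.s) (add ZE.y ZE.h)) (add (E.uu (sub ZE.x ZE.s) (sub ZE.y ZE.h)) (mul pi (neg (sub ZE.y ZE.h))))) (add (neg (E.uu (add ZE.x (q 225 1000)) (add ZE.y (mul (q 9 10) ZE.r)))) (neg (E.uu (add ZE.x (q 775 1000)) (sub ZE.y (mul (q 9 10) ZE.r)))))), sub (q 200 10000) (sub ZE.x ZE.s), add (q 0 1) (sub ZE.y ZE.h), sub (neg ZE.y) (mul (q 158 100) ZE.x)] 60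
    15042577058691538190915663866206182579847228457820248489973985353755795456
    [NumI.V.of 10000 400 1850, NumI.V.of 10000 (-1580) 10, NumI.V.of 10000 200 500, NumI.V.of 10000 0 1045] = true := by
    decide +kernel
  obtain ⟨f, hf, hp⟩ := chkT4 h (by norm_num) (x := x) (y := y) (z := s) (w := r)
    (by norm_num; linarith only [ua1]) (by norm_num; linarith only [ua2]) (by norm_num; linarith only [ua3]) (by norm_num; linarith only [ua4]) (by norm_num; linarith only [ua5]) (by norm_num; linarith only [ua6]) (by norm_num; linarith only [ua7]) (by norm_num; linarith only [ua8])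
  by_contra hc
  push Not at hc
  simp only [List.mem_cons, List.not_mem_nil, or_false] at hf
  rcases hf with rfl | rfl | rfl | rfl
  · simp only [ZE.x, ZE.y, ZE.s, ZE.r, ZE.h, E.val, NumI.lkR] at hp
    push_cast at hp
    linarith only [hc, hp]
  · simp only [ZE.x, ZE.y, ZE.s, ZE.r, ZE.h, E.val, NumI.lkR] at hp
    push_cast at hp
    linarith only [ua9, hp]
  · simp only [ZE.x, ZE.y, ZE.s, ZE.r, ZE.h, E.val, NumI.lkR] at hp
    push_cast at hp
    linarith only [ua10, hp]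
  · simp only [ZE.x, ZE.y, ZE.s, ZE.r, ZE.h, E.val, NumI.lkR] at hp
    push_cast at hp
    linarith only [ua11, hp]

theorem e1_pD4X2nB {x y s r : ℝ} (ua1 : 1850 / 10000 ≤ x) (ua2 : x ≤ 2250 / 10000) (ua3 : -(1580 / 10000) ≤ y) (ua4 : y ≤ 10 / 10000) (ua5 : 200 / 10000 ≤ s) (ua6 : s ≤ 500 / 10000) (ua7 : 0 / 10000 ≤ r) (ua8 : r ≤ 1045 / 10000) (ua9 : (y - 4 * (r * s)) ≤ 0) :
    NumU.uu (x + s) (y + 4 * (r * s)) + (NumU.uu (x - s) (y - 4 * (r * s)) + Real.pi * -(y - 4 * (r * s))) + (-NumU.uu (x + 225 / 1000) (y + 9 / 10 * r) + ((25 / 1) * (225 / 1000 - x) * NumU.uu (400 / 10000) (y - 9 / 10 * r) - Real.pi * (1 / 2) * (y - 9 / 10 * r) * (1 - (25 / 1) * (225 / 1000 - x)))) < (958 / 10000 - 85 / 100 * r) ∨ NumU.uu (x + s) (y + 4 * (r * s)) + (NumU.uu (x - s) (y - 4 * (r * s)) + Real.pi * -(y - 4 * (r * s))) + (-NumU.uu (x + 225 / 1000) (y + 9 / 10 * r) + ((25 / 1) * (225 / 1000 - x) * NumU.uu (400 / 10000) (y - 9 / 10 *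 r) - Real.pi * (1 / 2) * -(y - 9 / 10 * r) * (1 - (25 / 1) * (225 / 1000 - x)))) < (958 / 10000 - 85 / 100 * r) := by
  have h : chkT [sub (sub (q 958 10000) (mul (q 85 100) ZE.r)) (add (add (E.uu (add ZE.x ZE.s) (add ZE.y ZE.h)) (add (E.uu (sub ZE.x ZE.s) (sub ZE.y ZE.h)) (mul pi (neg (sub ZE.y ZE.h))))) (add (neg (E.uu (add ZE.x (q 225 1000)) (add ZE.y (mul (q 9 10) ZE.r)))) (sub (mul (mul (q 25 1) (sub (q 225 1000) ZE.x)) (E.uu (q 400 10000) (sub ZE.y (mul (q 9 10) ZE.r)))) (mul (mul (mul pi (q 1 2)) (sub ZE.y (mul (q 9 10) ZE.r))) (sub (q 1 1) (mul (q 25 1) (sub (q 225 1000) ZE.x))))))), sub (sub (q 958 10000) (mul (q 85 100) ZE.r)) (add (add (E.uu (add ZE.x ZE.s) (add ZE.y ZE.h)) (add (E.uu (sub ZE.x ZE.s) (sub ZE.y ZE.h)) (mul pi (neg (sub ZE.y ZE.h))))) (add (neg (E.uu (add ZE.x (q 225 1000)) (add ZE.y (mul (q 9 10) ZE.r)))) (sub (mul (mul (q 25 1) (sub (q 225 1000) ZE.x)) (E.uu (q 400 10000) (sub ZE.y (mul (q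 9 10) ZE.r)))) (mul (mul (mul pi (q 1 2)) (neg (sub ZE.y (mul (q 9 10) ZE.r)))) (sub (q 1 1) (mul (q 25 1) (sub (q 225 1000) ZE.x))))))), add (q 0 1) (sub ZE.y ZE.h)] 60
    629041
    [NumI.V.of 10000 1850 2250, NumI.V.of 10000 (-1580) 10, NumI.V.of 10000 200 500, NumI.V.of 10000 0 1045] = true := by
    decide +kernel
  obtain ⟨f, hf, hp⟩ := chkT4 h (by norm_num) (x := x) (y := y) (z := s) (w := r)
    (by norm_num; linarith only [ua1]) (by norm_num; linarith only [ua2]) (by norm_num; linarith only [ua3]) (by norm_num; linarith only [ua4]) (by norm_num; linarith only [ua5]) (by norm_num; linarith only [ua6]) (by norm_num; linarith only [ua7]) (by norm_num; linarith only [ua8])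
  by_contra hc
  push Not at hc
  obtain ⟨hc0, hc1⟩ := hc
  simp only [List.mem_cons, List.not_mem_nil, or_false] at hf
  rcases hf with rfl | rfl | rfl
  · simp only [ZE.x, ZE.y, ZE.s, ZE.r, ZE.h, E.val, NumI.lkR] at hp
    push_cast at hp
    linarith only [hc0, hp]
  · simp only [ZE.x, ZE.y, ZE.s, ZE.r, ZE.h, E.val, NumI.lkR] at hp
    push_cast at hp
    linarith only [hc1, hp]
  · simp only [ZE.x, ZE.y, ZE.s, ZE.r, ZE.h, E.val, NumI.lkR] at hp
    push_cast at hp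
    linarith only [ua9, hp]

theorem e1_pD4X3nB {x y s r : ℝ} (ua1 : 2250 / 10000 ≤ x) (ua2 : x ≤ 2650 / 10000) (ua3 : -(1580 / 10000) ≤ y) (ua4 : y ≤ 10 / 10000) (ua5 : 200 / 10000 ≤ s) (ua6 : s ≤ 500 / 10000) (ua7 : 0 / 10000 ≤ r) (ua8 : r ≤ 1045 / 10000) (ua9 : (y - 4 * (r * s)) ≤ 0) :
    NumU.uu (x + s) (y + 4 * (r * s)) + (NumU.uu (x - s) (y - 4 * (r * s)) + Real.pi * -(y - 4 * (r * s))) + (-NumU.uu (x + 225 / 1000) (y + 9 / 10 * r) + (((400 / 10000) - (x - 225 / 1000)) * NumI.lnA (400 / 10000) (y - 9 / 10 * r) - NumU.uu (400 / 10000) (y - 9 / 10 * r) - Real.pi * (y - 9 / 10 * r))) < (958 / 10000 - 85 / 100 * r) ∨ NumU.uu (x + s) (y + 4 * (r * s)) + (NumU.uu (x - s) (y - 4 * (r * s)) + Real.pi * -(y - 4 * (r * s))) + (-NumU.uu (x + 225 / 1000) (y + 9 / 10 * r) + (((400 / 10000) - (x - 225 / 1000)) * NumI.lnA (400 / 10000) (y - 9 / 10 * r) - NumU.uu (400 / 10000) (y - 9 / 10 * r) - Real.pi * -(y - 9 / 10 * r))) <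 (958 / 10000 - 85 / 100 * r) := by
  have h : chkT [sub (sub (q 958 10000) (mul (q 85 100) ZE.r)) (add (add (E.uu (add ZE.x ZE.s) (add ZE.y ZE.h)) (add (E.uu (sub ZE.x ZE.s) (sub ZE.y ZE.h)) (mul pi (neg (sub ZE.y ZE.h))))) (add (neg (E.uu (add ZE.x (q 225 1000)) (add ZE.y (mul (q 9 10) ZE.r)))) (sub (sub (mul (sub (q 400 10000) (sub ZE.x (q 225 1000))) (E.lnA (q 400 10000) (sub ZE.y (mul (q 9 10) ZE.r)))) (E.uu (q 400 10000) (sub ZE.y (mul (q 9 10) ZE.r)))) (mul pi (sub ZE.y (mul (q 9 10) ZE.r)))))), sub (sub (q 958 10000) (mul (q 85 100) ZE.r)) (add (add (E.uu (add ZE.x ZE.s) (add ZE.y ZE.h)) (add (E.uu (sub ZE.x ZE.s) (sub ZE.y ZE.h)) (mul pi (neg (sub ZE.y ZE.h))))) (add (neg (E.uu (add ZE.x (q 225 1000)) (add ZE.y (mul (q 9 10) ZE.r)))) (sub (sub (mul (sub (q 400 10000) (sub ZE.x (q 225 1000))) (E.lnA (q 400 10000) (sub ZE.y (mul (q 9 10) ZE.r)))) (E.uu (q 400 10000) (sub ZE.y (mul (q 9 10) ZE.r)))) (mul pi (neg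 (sub ZE.y (mul (q 9 10) ZE.r))))))), add (q 0 1) (sub ZE.y ZE.h)] 60
    627601
    [NumI.V.of 10000 2250 2650, NumI.V.of 10000 (-1580) 10, NumI.V.of 10000 200 500, NumI.V.of 10000 0 1045] = true := by
    decide +kernel
  obtain ⟨f, hf, hp⟩ := chkT4 h (by norm_num) (x := x) (y := y) (z := s) (w := r)
    (by norm_num; linarith only [ua1]) (by norm_num; linarith only [ua2]) (by norm_num; linarith only [ua3]) (by norm_num; linarith only [ua4]) (by norm_num; linarith only [ua5]) (by norm_num; linarith only [ua6]) (by norm_num; linarith only [ua7]) (by norm_num; linarith only [ua8])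
  by_contra hc
  push Not at hc
  obtain ⟨hc0, hc1⟩ := hc
  simp only [List.mem_cons, List.not_mem_nil, or_false] at hf
  rcases hf with rfl | rfl | rfl
  · simp only [ZE.x, ZE.y, ZE.s, ZE.r, ZE.h, E.val, NumI.lkR] at hp
    push_cast at hp
    linarith only [hc0, hp]
  · simp only [ZE.x, ZE.y, ZE.s, ZE.r, ZE.h, E.val, NumI.lkR] at hp
    push_cast at hp
    linarith only [hc1, hp]
  · simp only [ZE.x, ZE.y, ZE.s, ZE.r, ZE.h, E.val, NumI.lkR] at hp
    push_cast at hp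
    linarith only [ua9, hp]

theorem e1_pD4X4nB {x y s r : ℝ} (ua1 : 2650 / 10000 ≤ x) (ua2 : x ≤ 6000 / 10000) (ua3 : -(1580 / 10000) ≤ y) (ua4 : y ≤ 10 / 10000) (ua5 : 200 / 10000 ≤ s) (ua6 : s ≤ 500 / 10000) (ua7 : 0 / 10000 ≤ r) (ua8 : r ≤ 1045 / 10000) (ua9 : (y - 4 * (r * s)) ≤ 0) (ua10 : -y ≤ 545 / 1000 * (65 / 100 - x)) :
    NumU.uu (x + s) (y + 4 * (r * s)) + (NumU.uu (x - s) (y - 4 * (r * s)) + Real.pi * -(y - 4 * (r * s))) + (-NumU.uu (x + 225 / 1000) (y + 9 / 10 * r) + -(NumU.uu (x - 225 / 1000) (y - 9 / 10 * r) + Real.pi * (y - 9 / 10 * r))) < (958 / 10000 - 85 / 100 * r) ∨ NumU.uu (x + s) (y + 4 * (r * s)) + (NumU.uu (x - s) (y - 4 * (r * s)) + Real.pi * -(y - 4 * (r * s))) + (-NumU.uu (x + 225 / 1000) (y + 9 / 10 * r) + -(NumU.uu (x - 225 / 1000) (y - 9 / 10 * r) + Real.pi * -(y - 9 / 10 * r))) < (958 / 10000 - 85 / 100 * r) := by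
  have h : chkT [sub (sub (q 958 10000) (mul (q 85 100) ZE.r)) (add (add (E.uu (add ZE.x ZE.s) (add ZE.y ZE.h)) (add (E.uu (sub ZE.x ZE.s) (sub ZE.y ZE.h)) (mul pi (neg (sub ZE.y ZE.h))))) (add (neg (E.uu (add ZE.x (q 225 1000)) (add ZE.y (mul (q 9 10) ZE.r)))) (neg (add (E.uu (sub ZE.x (q 225 1000)) (sub ZE.y (mul (q 9 10) ZE.r))) (mul pi (sub ZE.y (mul (q 9 10) ZE.r))))))), sub (sub (q 958 10000) (mul (q 85 100) ZE.r)) (add (add (E.uu (add ZE.x ZE.s) (add ZE.y ZE.h)) (add (E.uu (sub ZE.x ZE.s) (sub ZE.y ZE.h)) (mul pi (neg (sub ZE.y ZE.h))))) (add (neg (E.uu (add ZE.x (q 225 1000)) (add ZE.y (mul (q 9 10) ZE.r)))) (neg (add (E.uu (sub ZE.x (q 225 1000)) (sub ZE.y (mul (q 9 10) ZE.r))) (mul pi (neg (sub ZE.y (mul (q 9 10) ZE.r)))))))), add (q 0 1) (sub ZE.y ZE.h), sub (neg ZE.y) (mul (q 545 1000) (sub (q 65 100) ZE.x))] 60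
    11602922585921005313626368
    [NumI.V.of 10000 2650 6000, NumI.V.of 10000 (-1580) 10, NumI.V.of 10000 200 500, NumI.V.of 10000 0 1045] = true := by
    decide +kernel
  obtain ⟨f, hf, hp⟩ := chkT4 h (by norm_num) (x := x) (y := y) (z := s) (w := r)
    (by norm_num; linarith only [ua1]) (by norm_num; linarith only [ua2]) (by norm_num; linarith only [ua3]) (by norm_num; linarith only [ua4]) (by norm_num; linarith only [ua5]) (by norm_num; linarith only [ua6]) (by norm_num; linarith only [ua7]) (by norm_num; linarith only [ua8])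
  by_contra hc
  push Not at hc
  obtain ⟨hc0, hc1⟩ := hc
  simp only [List.mem_cons, List.not_mem_nil, or_false] at hf
  rcases hf with rfl | rfl | rfl | rfl
  · simp only [ZE.x, ZE.y, ZE.s, ZE.r, ZE.h, E.val, NumI.lkR] at hp
    push_cast at hp
    linarith only [hc0, hp]
  · simp only [ZE.x, ZE.y, ZE.s, ZE.r, ZE.h, E.val, NumI.lkR] at hp
    push_cast at hp
    linarith only [hc1, hp]
  · simp only [ZE.x, ZE.y, ZE.s, ZE.r, ZE.h, E.val, NumI.lkR] at hp
    push_cast at hp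
    linarith only [ua9, hp]
  · simp only [ZE.x, ZE.y, ZE.s, ZE.r, ZE.h, E.val, NumI.lkR] at hp
    push_cast at hp
    linarith only [ua10, hp]

theorem e1_pD4X4nY {x y s r : ℝ} (ua1 : 6000 / 10000 ≤ x) (ua2 : x ≤ 6500 / 10000) (ua3 : -(273 / 10000) ≤ y) (ua4 : y ≤ 0 / 10000) (ua5 : 200 / 10000 ≤ s) (ua6 : s ≤ 500 / 10000) (ua7 : 0 / 10000 ≤ r) (ua8 : r ≤ 1045 / 10000) (ua9 : (y - 4 * (r * s)) ≤ 0) (ua10 : -y ≤ 545 / 1000 * (65 / 100 - x)) :
    NumU.uu (x + s) (y + 4 * (r * s)) + (NumU.uu (x - s) (y - 4 * (r * s)) + Real.pi * -(y - 4 * (r * s))) + (-NumU.uu (x + 225 / 1000) (y + 9 / 10 * r) + -(NumU.uu (x - 225 / 1000) (y - 9 / 10 * r) + Real.pi * (y - 9 / 10 * r))) < (958 / 10000 - 85 / 100 * r) ∨ NumU.uu (x + s) (y + 4 * (r * s)) + (NumU.uu (x - s) (y - 4 * (r * s)) + Real.pi * -(y - 4 * (r * s))) + (-NumU.uu (x + 225 / 1000) (y + 9 / 10 * r) + -(NumU.uu (x - 225 / 1000) (y - 9 / 10 * r) + Real.pi * -(y - 9 / 10 *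 r))) < (958 / 10000 - 85 / 100 * r) := by
  have h : chkT [sub (sub (q 958 10000) (mul (q 85 100) ZE.r)) (add (add (E.uu (add ZE.x ZE.s) (add ZE.y ZE.h)) (add (E.uu (sub ZE.x ZE.s) (sub ZE.y ZE.h)) (mul pi (neg (sub ZE.y ZE.h))))) (add (neg (E.uu (add ZE.x (q 225 1000)) (add ZE.y (mul (q 9 10) ZE.r)))) (neg (add (E.uu (sub ZE.x (q 225 1000)) (sub ZE.y (mul (q 9 10) ZE.r))) (mul pi (sub ZE.y (mul (q 9 10) ZE.r))))))), sub (sub (q 958 10000) (mul (q 85 100) ZE.r)) (add (add (E.uu (add ZE.x ZE.s) (add ZE.y ZE.h)) (add (E.uu (sub ZE.x ZE.s) (sub ZE.y ZE.h)) (mul pi (neg (sub ZE.y ZE.h))))) (add (neg (E.uu (add ZE.x (q 225 1000)) (add ZE.y (mul (q 9 10) ZE.r)))) (neg (add (E.uu (sub ZE.x (q 225 1000)) (sub ZE.y (mul (q 9 10) ZE.r))) (mul pi (neg (sub ZE.y (mul (q 9 10) ZE.r)))))))), add (q 0 1) (sub ZE.y ZE.h), sub (neg ZE.y) (mul (q 545 1000) (sub (q 65 100) ZE.x))] 60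
    41231647539
    [NumI.V.of 10000 6000 6500, NumI.V.of 10000 (-273) 0, NumI.V.of 10000 200 500, NumI.V.of 10000 0 1045] = true := by
    decide +kernel
  obtain ⟨f, hf, hp⟩ := chkT4 h (by norm_num) (x := x) (y := y) (z := s) (w := r)
    (by norm_num; linarith only [ua1]) (by norm_num; linarith only [ua2]) (by norm_num; linarith only [ua1, ua10]) (by norm_num; linarith only [ua4]) (by norm_num; linarith only [ua5]) (by norm_num; linarith only [ua6]) (by norm_num; linarith only [ua7]) (by norm_num; linarith only [ua8])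
  by_contra hc
  push Not at hc
  obtain ⟨hc0, hc1⟩ := hc
  simp only [List.mem_cons, List.not_mem_nil, or_false] at hf
  rcases hf with rfl | rfl | rfl | rfl
  · simp only [ZE.x, ZE.y, ZE.s, ZE.r, ZE.h, E.val, NumI.lkR] at hp
    push_cast at hp
    linarith only [hc0, hp]
  · simp only [ZE.x, ZE.y, ZE.s, ZE.r, ZE.h, E.val, NumI.lkR] at hp
    push_cast at hp
    linarith only [hc1, hp]
  · simp only [ZE.x, ZE.y, ZE.s, ZE.r, ZE.h, E.val, NumI.lkR] at hp
    push_cast at hp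
    linarith only [ua9, hp]
  · simp only [ZE.x, ZE.y, ZE.s, ZE.r, ZE.h, E.val, NumI.lkR] at hp
    push_cast at hp
    linarith only [ua10, hp]

theorem e1_pD1X1C_h1_q1 : Pool.Agent.Work.NumU.runT [sub (sub (q 958 10000) (mul (q 85 100) ZE.r)) (add (add (E.uu (add ZE.x ZE.s) (add ZE.y ZE.h)) (E.uu (sub (add (q 1 1) ZE.x) ZE.s) (sub ZE.y ZE.h))) (add (neg (E.uu (add ZE.x (q 225 1000)) (add ZE.y (mul (q 9 10) ZE.r)))) (neg (E.uu (add ZE.x (q 775 1000)) (sub ZE.y (mul (q 9 10) ZE.r)))))), sub (sub ZE.x ZE.s) (q (-400) 10000), sub (neg ZE.y) (mul (q 158 100) ZE.x)] 58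
    99319124132329019194925458287051204329969593003220183206109351812183777200441770938608456868933020448274422881871398779593525234000382009646155377176404973444566156219608673424831652777809652205155724117101959639268382600130155678421302670286810898945398514801787301783400217938312292380405792354478663462055479022663562467917467133412033499043901021046574839679185552761467440378018080809510853934614109464326447084814670037360166199421818756660373604813727187730184439599475044977015874992968060831865900209732971105614119337822988349415933177898553865701976342199796939254084278795338382740240163110333310945173094035995973659080027660922002072218674602079245856932280355464143799158272713002946784576190187473670132129838124336923591635170410217839775701782948441390853342699129686777435722112056509093147980123340440101183985868159489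
    (Pool.Agent.Work.NumI.setL 2 (Pool.Agent.Work.NumI.setL 0 ([NumI.V.of 10000 0 1600, NumI.V.of 10000 (-1580) 10, NumI.V.of 10000 500 2000, NumI.V.of 10000 0 1045]))) =
    2735753239433307145978988474192565858975369426474637774932047435684591038173871654947665555984417013444242261845540661529345956310696626433246965285166622444690633805729075095038903792332989576256955389226773743421279921781464110733630622201182365430225633410791675249873545987352249093421414183712112436384573125926217094516843782512175364654911462098057837222698490922183682599875070160117012541185709721089798223298403900637267605902787930194204592396951422605793604052770277806712004013728581649380933337654076627555623399542350283224884945549836529410067 := by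
  decide +kernel

theorem e1_pD1X1C_h1_q2 : Pool.Agent.Work.NumU.runT [sub (sub (q 958 10000) (mul (q 85 100) ZE.r)) (add (add (E.uu (add ZE.x ZE.s) (add ZE.y ZE.h)) (E.uu (sub (add (q 1 1) ZE.x) ZE.s) (sub ZE.y ZE.h))) (add (neg (E.uu (add ZE.x (q 225 1000)) (add ZE.y (mul (q 9 10) ZE.r)))) (neg (E.uu (add ZE.x (q 775 1000)) (sub ZE.y (mul (q 9 10) ZE.r)))))), sub (sub ZE.x ZE.s) (q (-400) 10000), sub (neg ZE.y) (mul (q 158 100) ZE.x)] 58
    2735753239433307145978988474192565858975369426474637774932047435684591038173871654947665555984417013444242261845540661529345956310696626433246965285166622444690633805729075095038903792332989576256955389226773743421279921781464110733630622201182365430225633410791675249873545987352249093421414183712112436384573125926217094516843782512175364654911462098057837222698490922183682599875070160117012541185709721089798223298403900637267605902787930194204592396951422605793604052770277806712004013728581649380933337654076627555623399542350283224884945549836529410066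
    (Pool.Agent.Work.NumI.setR 2 (Pool.Agent.Work.NumI.setL 0 ([NumI.V.of 10000 0 1600, NumI.V.of 10000 (-1580) 10, NumI.V.of 10000 500 2000, NumI.V.of 10000 0 1045]))) =
    7935970170518986935486005190760161437034027335744906867979848681705057577394560193583965800637828320965656323056046523804351804168691183380874248559134213359393877334468913376857584495288220479115878357518254414125143551089928733044690569233918076743701816527492906507937739330779842704897716264203989398375193616564157189306050781087393194018 := by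
  decide +kernel

theorem e1_pD1X1C_h1_q3 : Pool.Agent.Work.NumU.runT [sub (sub (q 958 10000) (mul (q 85 100) ZE.r)) (add (add (E.uu (add ZE.x ZE.s) (add ZE.y ZE.h)) (E.uu (sub (add (q 1 1) ZE.x) ZE.s) (sub ZE.y ZE.h))) (add (neg (E.uu (add ZE.x (q 225 1000)) (add ZE.y (mul (q 9 10) ZE.r)))) (neg (E.uu (add ZE.x (q 775 1000)) (sub ZE.y (mul (q 9 10) ZE.r)))))), sub (sub ZE.x ZE.s) (q (-400) 10000), sub (neg ZE.y) (mul (q 158 100) ZE.x)] 59
    7935970170518986935486005190760161437034027335744906867979848681705057577394560193583965800637828320965656323056046523804351804168691183380874248559134213359393877334468913376857584495288220479115878357518254414125143551089928733044690569233918076743701816527492906507937739330779842704897716264203989398375193616564157189306050781087393194017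
    (Pool.Agent.Work.NumI.setR 0 ([NumI.V.of 10000 0 1600, NumI.V.of 10000 (-1580) 10, NumI.V.of 10000 500 2000, NumI.V.of 10000 0 1045])) =
    1 := by
  decide +kernel

theorem e1_pD1X1C {x y s r : ℝ} (ua1 : 0 / 10000 ≤ x) (ua2 : x ≤ 1600 / 10000) (ua3 : -(1580 / 10000) ≤ y) (ua4 : y ≤ 10 / 10000) (ua5 : 500 / 10000 ≤ s) (ua6 : s ≤ 2000 / 10000) (ua7 : 0 / 10000 ≤ r) (ua8 : r ≤ 1045 / 10000) (ua9 : x - s ≤ -(400 / 10000)) (ua10 : -y ≤ 158 / 100 * x) :
    NumU.uu (x + s) (y + 4 * (r * s)) + NumU.uu (1 + x - s) (y - 4 * (r * s)) + (-NumU.uu (x + 225 / 1000) (y + 9 / 10 * r) + -NumU.uu (x + 775 / 1000) (y - 9 / 10 * r)) < (958 / 10000 - 85 / 100 * r) := by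
  have h : chkT [sub (sub (q 958 10000) (mul (q 85 100) ZE.r)) (add (add (E.uu (add ZE.x ZE.s) (add ZE.y ZE.h)) (E.uu (sub (add (q 1 1) ZE.x) ZE.s) (sub ZE.y ZE.h))) (add (neg (E.uu (add ZE.x (q 225 1000)) (add ZE.y (mul (q 9 10) ZE.r)))) (neg (E.uu (add ZE.x (q 775 1000)) (sub ZE.y (mul (q 9 10) ZE.r)))))), sub (sub ZE.x ZE.s) (q (-400) 10000), sub (neg ZE.y) (mul (q 158 100) ZE.x)] 60
    25425695777876228913900917321485108308472215808824366900763994063919046963313093360283764958446853234758252257759078087575942459904097794469415776557159673201808935992219820396756903111119270964519865373978101667652705945633319853675853483593423590130022019789257549256550455792207946849383882842746537846286202629801871991786871586153480575755238661387923158957871501506935664736772628687234778607261212022867570453712555529564202547051985601705055642832314160058927216537465611514116063998199823572957670453691640603037214550482685017450478893542029789619705943603148016449045575371606625981501481756245327601964312073214969256724487081196032530487980698132286939374663770998820812584517814528754376851504687993259553825238559830252439458603625015766982579656434800996058455730977199815023544860686466327845882911575152665903100382248829216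
    [NumI.V.of 10000 0 1600, NumI.V.of 10000 (-1580) 10, NumI.V.of 10000 500 2000, NumI.V.of 10000 0 1045] = true :=
      Pool.Agent.Work.NumU.chkT_of (Pool.Agent.Work.NumU.runT_split rfl rfl rfl
        (Pool.Agent.Work.NumU.runT_split rfl rfl rfl
          e1_pD1X1C_h1_q1
          e1_pD1X1C_h1_q2)
        e1_pD1X1C_h1_q3)
  obtain ⟨f, hf, hp⟩ := chkT4 h (by norm_num) (x := x) (y := y) (z := s) (w := r)
    (by norm_num; linarith only [ua1]) (by norm_num; linarith only [ua2]) (by norm_num; linarith only [ua3]) (by norm_num; linarith only [ua4]) (by norm_num; linarith only [ua5]) (by norm_num; linarith only [ua6]) (by norm_num; linarith only [ua7]) (by norm_num; linarith only [ua8])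
  by_contra hc
  push Not at hc
  simp only [List.mem_cons, List.not_mem_nil, or_false] at hf
  rcases hf with rfl | rfl | rfl
  · simp only [ZE.x, ZE.y, ZE.s, ZE.r, ZE.h, E.val, NumI.lkR] at hp
    push_cast at hp
    linarith only [hc, hp]
  · simp only [ZE.x, ZE.y, ZE.s, ZE.r, ZE.h, E.val, NumI.lkR] at hp
    push_cast at hp
    linarith only [ua9, hp]
  · simp only [ZE.x, ZE.y, ZE.s, ZE.r, ZE.h, E.val, NumI.lkR] at hp
    push_cast at hp
    linarith only [ua10, hp]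

theorem e1_pD2X1C {x y s r : ℝ} (ua1 : 100 / 10000 ≤ x) (ua2 : x ≤ 1850 / 10000) (ua3 : -(1580 / 10000) ≤ y) (ua4 : y ≤ 10 / 10000) (ua5 : 500 / 10000 ≤ s) (ua6 : s ≤ 2000 / 10000) (ua7 : 0 / 10000 ≤ r) (ua8 : r ≤ 1045 / 10000) (ua9 : -(400 / 10000) ≤ x - s) (ua10 : x - s ≤ 0) (ua11 : -y ≤ 158 / 100 * x) :
    NumU.uu (x + s) (y + 4 * (r * s)) + (((400 / 10000) + (x - s)) * NumI.lnA (400 / 10000) (y - 4 * (r * s)) - NumU.uu (400 / 10000) (y - 4 * (r * s))) + (-NumU.uu (x + 225 / 1000) (y + 9 / 10 * r) + -NumU.uu (x + 775 / 1000) (y - 9 / 10 * r)) < (958 / 10000 - 85 / 100 * r) := by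
  have h : chkT [sub (sub (q 958 10000) (mul (q 85 100) ZE.r)) (add (add (E.uu (add ZE.x ZE.s) (add ZE.y ZE.h)) (sub (mul (add (q 400 10000) (sub ZE.x ZE.s)) (E.lnA (q 400 10000) (sub ZE.y ZE.h))) (E.uu (q 400 10000) (sub ZE.y ZE.h)))) (add (neg (E.uu (add ZE.x (q 225 1000)) (add ZE.y (mul (q 9 10) ZE.r)))) (neg (E.uu (add ZE.x (q 775 1000)) (sub ZE.y (mul (q 9 10) ZE.r)))))), sub (q (-400) 10000) (sub ZE.x ZE.s), sub ZE.x ZE.s, sub (neg ZE.y) (mul (q 158 100) ZE.x)] 60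
    41205433611457225951767587425558468395141501556534534259434255139446696801971236108339711974868499115382596850499223602150438648582427511768827661861612243322791944004640404341104159260806970109767838030129508306225546672864568573577494106353715396744043393009218727457568057414210726062741064564420065384366554111153342165261979254835589509471939606256556647746607976500240672
    [NumI.V.of 10000 100 1850, NumI.V.of 10000 (-1580) 10, NumI.V.of 10000 500 2000, NumI.V.of 10000 0 1045] = true := by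
    decide +kernel
  obtain ⟨f, hf, hp⟩ := chkT4 h (by norm_num) (x := x) (y := y) (z := s) (w := r)
    (by norm_num; linarith only [ua1]) (by norm_num; linarith only [ua2]) (by norm_num; linarith only [ua3]) (by norm_num; linarith only [ua4]) (by norm_num; linarith only [ua5]) (by norm_num; linarith only [ua6]) (by norm_num; linarith only [ua7]) (by norm_num; linarith only [ua8])
  by_contra hc
  push Not at hc
  simp only [List.mem_cons, List.not_mem_nil, or_false] at hf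
  rcases hf with rfl | rfl | rfl | rfl
  · simp only [ZE.x, ZE.y, ZE.s, ZE.r, ZE.h, E.val, NumI.lkR] at hp
    push_cast at hp
    linarith only [hc, hp]
  · simp only [ZE.x, ZE.y, ZE.s, ZE.r, ZE.h, E.val, NumI.lkR] at hp
    push_cast at hp
    linarith only [ua9, hp]
  · simp only [ZE.x, ZE.y, ZE.s, ZE.r, ZE.h, E.val, NumI.lkR] at hp
    push_cast at hp
    linarith only [ua10, hp]
  · simp only [ZE.x, ZE.y, ZE.s, ZE.r, ZE.h, E.val, NumI.lkR] at hp
    push_cast at hp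
    linarith only [ua11, hp]

theorem e1_pD2X2C {x y s r : ℝ} (ua1 : 1850 / 10000 ≤ x) (ua2 : x ≤ 2000 / 10000) (ua3 : -(1580 / 10000) ≤ y) (ua4 : y ≤ 10 / 10000) (ua5 : 1850 / 10000 ≤ s) (ua6 : s ≤ 2000 / 10000) (ua7 : 0 / 10000 ≤ r) (ua8 : r ≤ 1045 / 10000) (ua9 : -(400 / 10000) ≤ x - s) (ua10 : x - s ≤ 0) :
    NumU.uu (x + s) (y + 4 * (r * s)) + (((400 / 10000) + (x - s)) * NumI.lnA (400 / 10000) (y - 4 * (r * s)) - NumU.uu (400 / 10000) (y - 4 * (r * s))) + (-NumU.uu (x + 225 / 1000) (y + 9 / 10 * r) + ((25 / 1) * (225 / 1000 - x) * NumU.uu (400 / 10000) (y - 9 / 10 * r) - Real.pi * (1 / 2) * (y - 9 / 10 * r) * (1 - (25 / 1) * (225 / 1000 - x)))) < (958 / 10000 - 85 / 100 * r) ∨ NumU.uu (x + s) (y + 4 * (r * s)) + (((400 / 10000) + (x - s)) * NumI.lnA (400 / 10000) (y - 4 * (r * s)) - NumU.uu (400 / 10000) (y - 4 * (r * s))) + (-NumU.uu (x + 225 / 1000) (y + 9 / 10 * r) + ((25 / 1) * (225 / 1000 - x) * NumU.uu (400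 / 10000) (y - 9 / 10 * r) - Real.pi * (1 / 2) * -(y - 9 / 10 * r) * (1 - (25 / 1) * (225 / 1000 - x)))) < (958 / 10000 - 85 / 100 * r) := by
  have h : chkT [sub (sub (q 958 10000) (mul (q 85 100) ZE.r)) (add (add (E.uu (add ZE.x ZE.s) (add ZE.y ZE.h)) (sub (mul (add (q 400 10000) (sub ZE.x ZE.s)) (E.lnA (q 400 10000) (sub ZE.y ZE.h))) (E.uu (q 400 10000) (sub ZE.y ZE.h)))) (add (neg (E.uu (add ZE.x (q 225 1000)) (add ZE.y (mul (q 9 10) ZE.r)))) (sub (mul (mul (q 25 1) (sub (q 225 1000) ZE.x)) (E.uu (q 400 10000) (sub ZE.y (mul (q 9 10) ZE.r)))) (mul (mul (mul pi (q 1 2)) (sub ZE.y (mul (q 9 10) ZE.r))) (sub (q 1 1) (mul (q 25 1) (sub (q 225 1000) ZE.x))))))), sub (sub (q 958 10000) (mul (q 85 100) ZE.r)) (add (add (E.uu (add ZE.x ZE.s) (add ZE.y ZE.h)) (sub (mul (add (q 400 10000) (sub ZE.x ZE.s)) (E.lnA (q 400 10000) (sub ZE.y ZE.h))) (E.uu (q 400 10000) (sub ZE.y ZE.h)))) (add (neg (E.uu (add ZE.x (q 225 1000)) (add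 ZE.y (mul (q 9 10) ZE.r)))) (sub (mul (mul (q 25 1) (sub (q 225 1000) ZE.x)) (E.uu (q 400 10000) (sub ZE.y (mul (q 9 10) ZE.r)))) (mul (mul (mul pi (q 1 2)) (neg (sub ZE.y (mul (q 9 10) ZE.r)))) (sub (q 1 1) (mul (q 25 1) (sub (q 225 1000) ZE.x))))))), sub (q (-400) 10000) (sub ZE.x ZE.s), sub ZE.x ZE.s] 60
    758732958944940104955624788273
    [NumI.V.of 10000 1850 2000, NumI.V.of 10000 (-1580) 10, NumI.V.of 10000 1850 2000, NumI.V.of 10000 0 1045] = true := by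
    decide +kernel
  obtain ⟨f, hf, hp⟩ := chkT4 h (by norm_num) (x := x) (y := y) (z := s) (w := r)
    (by norm_num; linarith only [ua1]) (by norm_num; linarith only [ua2]) (by norm_num; linarith only [ua3]) (by norm_num; linarith only [ua4]) (by norm_num; linarith only [ua5]) (by norm_num; linarith only [ua6]) (by norm_num; linarith only [ua7]) (by norm_num; linarith only [ua8])
  by_contra hc
  push Not at hc
  obtain ⟨hc0, hc1⟩ := hc
  simp only [List.mem_cons, List.not_mem_nil, or_false] at hf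
  rcases hf with rfl | rfl | rfl | rfl
  · simp only [ZE.x, ZE.y, ZE.s, ZE.r, ZE.h, E.val, NumI.lkR] at hp
    push_cast at hp
    linarith only [hc0, hp]
  · simp only [ZE.x, ZE.y, ZE.s, ZE.r, ZE.h, E.val, NumI.lkR] at hp
    push_cast at hp
    linarith only [hc1, hp]
  · simp only [ZE.x, ZE.y, ZE.s, ZE.r, ZE.h, E.val, NumI.lkR] at hp
    push_cast at hp
    linarith only [ua1, ua6, hp]
  · simp only [ZE.x, ZE.y, ZE.s, ZE.r, ZE.h, E.val, NumI.lkR] at hp
    push_cast at hp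
    linarith only [ua10, hp]

theorem e1_pD3X1pC {x y s r : ℝ} (ua1 : 500 / 10000 ≤ x) (ua2 : x ≤ 1850 / 10000) (ua3 : 0 / 10000 ≤ y) (ua4 : y ≤ 10 / 10000) (ua5 : 500 / 10000 ≤ s) (ua6 : s ≤ 1850 / 10000) (ua7 : 0 / 10000 ≤ r) (ua8 : r ≤ 1045 / 10000) (ua9 : 0 ≤ x - s) (ua10 : x - s ≤ 400 / 10000) (ua11 : 0 ≤ (y - 4 * (r * s))) (ua12 : -y ≤ 158 / 100 * x) :
    NumU.uu (x + s) (y + 4 * (r * s)) + (Real.pi * (1 / 2) * (y - 4 * (r * s)) * (1 + (25 / 1) * (x - s)) + (25 / 1) * (x - s) * NumU.uu (400 / 10000) (y - 4 * (r * s))) + (-NumU.uu (x + 225 / 1000) (y + 9 / 10 * r) + -NumU.uu (x + 775 / 1000) (y - 9 / 10 * r)) < (958 / 10000 - 85 / 100 * r) := by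
  have h : chkT [sub (sub (q 958 10000) (mul (q 85 100) ZE.r)) (add (add (E.uu (add ZE.x ZE.s) (add ZE.y ZE.h)) (add (mul (mul (mul pi (q 1 2)) (sub ZE.y ZE.h)) (add (q 1 1) (mul (q 25 1) (sub ZE.x ZE.s)))) (mul (mul (q 25 1) (sub ZE.x ZE.s)) (E.uu (q 400 10000) (sub ZE.y ZE.h))))) (add (neg (E.uu (add ZE.x (q 225 1000)) (add ZE.y (mul (q 9 10) ZE.r)))) (neg (E.uu (add ZE.x (q 775 1000)) (sub ZE.y (mul (q 9 10) ZE.r)))))), sub ZE.s ZE.x, sub (sub ZE.x ZE.s) (q 400 10000), neg (sub ZE.y ZE.h), sub (neg ZE.y) (mul (q 158 100) ZE.x)] 60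
    3627020811946811115793023776
    [NumI.V.of 10000 500 1850, NumI.V.of 10000 0 10, NumI.V.of 10000 500 1850, NumI.V.of 10000 0 1045] = true := by
    decide +kernel
  obtain ⟨f, hf, hp⟩ := chkT4 h (by norm_num) (x := x) (y := y) (z := s) (w := r)
    (by norm_num; linarith only [ua1]) (by norm_num; linarith only [ua2]) (by norm_num; linarith only [ua3]) (by norm_num; linarith only [ua4]) (by norm_num; linarith only [ua5]) (by norm_num; linarith only [ua6]) (by norm_num; linarith only [ua7]) (by norm_num; linarith only [ua8])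
  by_contra hc
  push Not at hc
  simp only [List.mem_cons, List.not_mem_nil, or_false] at hf
  rcases hf with rfl | rfl | rfl | rfl | rfl
  · simp only [ZE.x, ZE.y, ZE.s, ZE.r, ZE.h, E.val, NumI.lkR] at hp
    push_cast at hp
    linarith only [hc, hp]
  · simp only [ZE.x, ZE.y, ZE.s, ZE.r, ZE.h, E.val, NumI.lkR] at hp
    push_cast at hp
    linarith only [ua9, hp]
  · simp only [ZE.x, ZE.y, ZE.s, ZE.r, ZE.h, E.val, NumI.lkR] at hp
    push_cast at hp
    linarith only [ua10, hp]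
  · simp only [ZE.x, ZE.y, ZE.s, ZE.r, ZE.h, E.val, NumI.lkR] at hp
    push_cast at hp
    linarith only [ua11, hp]
  · simp only [ZE.x, ZE.y, ZE.s, ZE.r, ZE.h, E.val, NumI.lkR] at hp
    push_cast at hp
    linarith only [ua1, ua3, hp]

theorem e1_pD3X2pC {x y s r : ℝ} (ua1 : 1850 / 10000 ≤ x) (ua2 : x ≤ 2250 / 10000) (ua3 : 0 / 10000 ≤ y) (ua4 : y ≤ 10 / 10000) (ua5 : 1450 / 10000 ≤ s) (ua6 : s ≤ 2000 / 10000) (ua7 : 0 / 10000 ≤ r) (ua8 : r ≤ 1045 / 10000) (ua9 : 0 ≤ x - s) (ua10 : x - s ≤ 400 / 10000) (ua11 : 0 ≤ (y - 4 * (r * s))) :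
    NumU.uu (x + s) (y + 4 * (r * s)) + (Real.pi * (1 / 2) * (y - 4 * (r * s)) * (1 + (25 / 1) * (x - s)) + (25 / 1) * (x - s) * NumU.uu (400 / 10000) (y - 4 * (r * s))) + (-NumU.uu (x + 225 / 1000) (y + 9 / 10 * r) + ((25 / 1) * (225 / 1000 - x) * NumU.uu (400 / 10000) (y - 9 / 10 * r) - Real.pi * (1 / 2) * (y - 9 / 10 * r) * (1 - (25 / 1) * (225 / 1000 - x)))) < (958 / 10000 - 85 / 100 * r) ∨ NumU.uu (x + s) (y + 4 * (r * s)) + (Real.pi * (1 / 2) * (y - 4 * (r * s)) * (1 + (25 / 1) * (x - s)) + (25 / 1) * (x - s) * NumU.uu (400 / 10000) (y - 4 * (r * s))) + (-NumU.uu (x + 225 / 1000) (y + 9 / 10 * r) + ((25 / 1) * (225 / 1000 - x) * NumU.uu (400 / 10000) (y - 9 / 10 * r) - Real.pi * (1 / 2) * -(y - 9 / 10 * r) * (1 - (25 / 1) * (225 / 1000 - x)))) < (958 / 10000 - 85 / 100 * r) := by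
  have h : chkT [sub (sub (q 958 10000) (mul (q 85 100) ZE.r)) (add (add (E.uu (add ZE.x ZE.s) (add ZE.y ZE.h)) (add (mul (mul (mul pi (q 1 2)) (sub ZE.y ZE.h)) (add (q 1 1) (mul (q 25 1) (sub ZE.x ZE.s)))) (mul (mul (q 25 1) (sub ZE.x ZE.s)) (E.uu (q 400 10000) (sub ZE.y ZE.h))))) (add (neg (E.uu (add ZE.x (q 225 1000)) (add ZE.y (mul (q 9 10) ZE.r)))) (sub (mul (mul (q 25 1) (sub (q 225 1000) ZE.x)) (E.uu (q 400 10000) (sub ZE.y (mul (q 9 10) ZE.r)))) (mul (mul (mul pi (q 1 2)) (sub ZE.y (mul (q 9 10) ZE.r))) (sub (q 1 1) (mul (q 25 1) (sub (q 225 1000) ZE.x))))))), sub (sub (q 958 10000) (mul (q 85 100) ZE.r)) (add (add (E.uu (add ZE.x ZE.s) (add ZE.y ZE.h)) (add (mul (mul (mul pi (q 1 2)) (sub ZE.y ZE.h)) (add (q 1 1) (mul (q 25 1) (sub ZE.x ZE.s)))) (mul (mul (q 25 1) (sub ZE.x ZE.s)) (E.uu (q 400 10000) (sub ZE.y ZE.h))))) (add (neg (E.uu (add ZE.x (q 225 1000)) (add ZE.y (mul (q 9 10) ZE.r)))) (sub (mul (mul (q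 25 1) (sub (q 225 1000) ZE.x)) (E.uu (q 400 10000) (sub ZE.y (mul (q 9 10) ZE.r)))) (mul (mul (mul pi (q 1 2)) (neg (sub ZE.y (mul (q 9 10) ZE.r)))) (sub (q 1 1) (mul (q 25 1) (sub (q 225 1000) ZE.x))))))), sub ZE.s ZE.x, sub (sub ZE.x ZE.s) (q 400 10000), neg (sub ZE.y ZE.h)] 60
    3203
    [NumI.V.of 10000 1850 2250, NumI.V.of 10000 0 10, NumI.V.of 10000 1450 2000, NumI.V.of 10000 0 1045] = true := by
    decide +kernel
  obtain ⟨f, hf, hp⟩ := chkT4 h (by norm_num) (x := x) (y := y) (z := s) (w := r)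
    (by norm_num; linarith only [ua1]) (by norm_num; linarith only [ua2]) (by norm_num; linarith only [ua3]) (by norm_num; linarith only [ua4]) (by norm_num; linarith only [ua5]) (by norm_num; linarith only [ua6]) (by norm_num; linarith only [ua7]) (by norm_num; linarith only [ua8])
  by_contra hc
  push Not at hc
  obtain ⟨hc0, hc1⟩ := hc
  simp only [List.mem_cons, List.not_mem_nil, or_false] at hf
  rcases hf with rfl | rfl | rfl | rfl | rfl
  · simp only [ZE.x, ZE.y, ZE.s, ZE.r, ZE.h, E.val, NumI.lkR] at hp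
    push_cast at hp
    linarith only [hc0, hp]
  · simp only [ZE.x, ZE.y, ZE.s, ZE.r, ZE.h, E.val, NumI.lkR] at hp
    push_cast at hp
    linarith only [hc1, hp]
  · simp only [ZE.x, ZE.y, ZE.s, ZE.r, ZE.h, E.val, NumI.lkR] at hp
    push_cast at hp
    linarith only [ua9, hp]
  · simp only [ZE.x, ZE.y, ZE.s, ZE.r, ZE.h, E.val, NumI.lkR] at hp
    push_cast at hp
    linarith only [ua10, hp]
  · simp only [ZE.x, ZE.y, ZE.s, ZE.r, ZE.h, E.val, NumI.lkR] at hp
    push_cast at hp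
    linarith only [ua11, hp]

theorem e1_pD3X3pC {x y s r : ℝ} (ua1 : 2250 / 10000 ≤ x) (ua2 : x ≤ 2400 / 10000) (ua3 : 0 / 10000 ≤ y) (ua4 : y ≤ 10 / 10000) (ua5 : 1850 / 10000 ≤ s) (ua6 : s ≤ 2000 / 10000) (ua7 : 0 / 10000 ≤ r) (ua8 : r ≤ 1045 / 10000) (ua9 : 0 ≤ x - s) (ua10 : x - s ≤ 400 / 10000) (ua11 : 0 ≤ (y - 4 * (r * s))) :
    NumU.uu (x + s) (y + 4 * (r * s)) + (Real.pi * (1 / 2) * (y - 4 * (r * s)) * (1 + (25 / 1) * (x - s)) + (25 / 1) * (x - s) * NumU.uu (400 / 10000) (y - 4 * (r * s))) + (-NumU.uu (x + 225 / 1000) (y + 9 / 10 * r) + (((400 / 10000) - (x - 225 / 1000)) * NumI.lnA (400 / 10000) (y - 9 / 10 * r) - NumU.uu (400 / 10000) (y - 9 / 10 * r) - Real.pi * (y - 9 / 10 * r))) < (958 / 10000 - 85 / 100 * r) ∨ NumU.uu (x + s) (y + 4 * (r * s)) + (Real.pi * (1 / 2) * (y - 4 * (r * s)) * (1 + (25 / 1) * (x - s)) + (25 / 1) * (x - s) * NumU.uu (400 / 10000) (y - 4 * (r * s))) + (-NumU.uu (x + 225 / 1000)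 (y + 9 / 10 * r) + (((400 / 10000) - (x - 225 / 1000)) * NumI.lnA (400 / 10000) (y - 9 / 10 * r) - NumU.uu (400 / 10000) (y - 9 / 10 * r) - Real.pi * -(y - 9 / 10 * r))) < (958 / 10000 - 85 / 100 * r) := by
  have h : chkT [sub (sub (q 958 10000) (mul (q 85 100) ZE.r)) (add (add (E.uu (add ZE.x ZE.s) (add ZE.y ZE.h)) (add (mul (mul (mul pi (q 1 2)) (sub ZE.y ZE.h)) (add (q 1 1) (mul (q 25 1) (sub ZE.x ZE.s)))) (mul (mul (q 25 1) (sub ZE.x ZE.s)) (E.uu (q 400 10000) (sub ZE.y ZE.h))))) (add (neg (E.uu (add ZE.x (q 225 1000)) (add ZE.y (mul (q 9 10) ZE.r)))) (sub (sub (mul (sub (q 400 10000) (sub ZE.x (q 225 1000))) (E.lnA (q 400 10000) (sub ZE.y (mul (q 9 10) ZE.r)))) (E.uu (q 400 10000) (sub ZE.y (mul (q 9 10) ZE.r)))) (mul pi (sub ZE.y (mul (q 9 10) ZE.r)))))), sub (sub (q 958 10000) (mul (q 85 100) ZE.r)) (add (add (E.uu (add ZE.x ZE.s) (add ZE.y ZE.h)) (add (mul (mul (mul pi (q 1 2)) (sub ZE.y ZE.h)) (add (q 1 1) (mul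 (q 25 1) (sub ZE.x ZE.s)))) (mul (mul (q 25 1) (sub ZE.x ZE.s)) (E.uu (q 400 10000) (sub ZE.y ZE.h))))) (add (neg (E.uu (add ZE.x (q 225 1000)) (add ZE.y (mul (q 9 10) ZE.r)))) (sub (sub (mul (sub (q 400 10000) (sub ZE.x (q 225 1000))) (E.lnA (q 400 10000) (sub ZE.y (mul (q 9 10) ZE.r)))) (E.uu (q 400 10000) (sub ZE.y (mul (q 9 10) ZE.r)))) (mul pi (neg (sub ZE.y (mul (q 9 10) ZE.r))))))), sub ZE.s ZE.x, sub (sub ZE.x ZE.s) (q 400 10000), neg (sub ZE.y ZE.h)] 60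
    2451
    [NumI.V.of 10000 2250 2400, NumI.V.of 10000 0 10, NumI.V.of 10000 1850 2000, NumI.V.of 10000 0 1045] = true := by
    decide +kernel
  obtain ⟨f, hf, hp⟩ := chkT4 h (by norm_num) (x := x) (y := y) (z := s) (w := r)
    (by norm_num; linarith only [ua1]) (by norm_num; linarith only [ua2]) (by norm_num; linarith only [ua3]) (by norm_num; linarith only [ua4]) (by norm_num; linarith only [ua5]) (by norm_num; linarith only [ua6]) (by norm_num; linarith only [ua7]) (by norm_num; linarith only [ua8])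
  by_contra hc
  push Not at hc
  obtain ⟨hc0, hc1⟩ := hc
  simp only [List.mem_cons, List.not_mem_nil, or_false] at hf
  rcases hf with rfl | rfl | rfl | rfl | rfl
  · simp only [ZE.x, ZE.y, ZE.s, ZE.r, ZE.h, E.val, NumI.lkR] at hp
    push_cast at hp
    linarith only [hc0, hp]
  · simp only [ZE.x, ZE.y, ZE.s, ZE.r, ZE.h, E.val, NumI.lkR] at hp
    push_cast at hp
    linarith only [hc1, hp]
  · simp only [ZE.x, ZE.y, ZE.s, ZE.r, ZE.h, E.val, NumI.lkR] at hp
    push_cast at hp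
    linarith only [ua1, ua6, hp]
  · simp only [ZE.x, ZE.y, ZE.s, ZE.r, ZE.h, E.val, NumI.lkR] at hp
    push_cast at hp
    linarith only [ua10, hp]
  · simp only [ZE.x, ZE.y, ZE.s, ZE.r, ZE.h, E.val, NumI.lkR] at hp
    push_cast at hp
    linarith only [ua11, hp]

theorem e1_pD4X1pC {x y s r : ℝ} (ua1 : 900 / 10000 ≤ x) (ua2 : x ≤ 1850 / 10000) (ua3 : 0 / 10000 ≤ y) (ua4 : y ≤ 10 / 10000) (ua5 : 500 / 10000 ≤ s) (ua6 : s ≤ 1450 / 10000) (ua7 : 0 / 10000 ≤ r) (ua8 : r ≤ 1045 / 10000) (ua9 : 400 / 10000 ≤ x - s) (ua10 : 0 ≤ (y - 4 * (r * s))) (ua11 : -y ≤ 158 / 100 * x) :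
    NumU.uu (x + s) (y + 4 * (r * s)) + (NumU.uu (x - s) (y - 4 * (r * s)) + Real.pi * (y - 4 * (r * s))) + (-NumU.uu (x + 225 / 1000) (y + 9 / 10 * r) + -NumU.uu (x + 775 / 1000) (y - 9 / 10 * r)) < (958 / 10000 - 85 / 100 * r) := by
  have h : chkT [sub (sub (q 958 10000) (mul (q 85 100) ZE.r)) (add (add (E.uu (add ZE.x ZE.s) (add ZE.y ZE.h)) (add (E.uu (sub ZE.x ZE.s) (sub ZE.y ZE.h)) (mul pi (sub ZE.y ZE.h)))) (add (neg (E.uu (add ZE.x (q 225 1000)) (add ZE.y (mul (q 9 10) ZE.r)))) (neg (E.uu (add ZE.x (q 775 1000)) (sub ZE.y (mul (q 9 10) ZE.r)))))), sub (q 400 10000) (sub ZE.x ZE.s), neg (sub ZE.y ZE.h), sub (neg ZE.y) (mul (q 158 100) ZE.x)] 60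
    260778907891389375190906516198968039153569132425884217859
    [NumI.V.of 10000 900 1850, NumI.V.of 10000 0 10, NumI.V.of 10000 500 1450, NumI.V.of 10000 0 1045] = true := by
    decide +kernel
  obtain ⟨f, hf, hp⟩ := chkT4 h (by norm_num) (x := x) (y := y) (z := s) (w := r)
    (by norm_num; linarith only [ua1]) (by norm_num; linarith only [ua2]) (by norm_num; linarith only [ua3]) (by norm_num; linarith only [ua4]) (by norm_num; linarith only [ua5]) (by norm_num; linarith only [ua6]) (by norm_num; linarith only [ua7]) (by norm_num; linarith only [ua8])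
  by_contra hc
  push Not at hc
  simp only [List.mem_cons, List.not_mem_nil, or_false] at hf
  rcases hf with rfl | rfl | rfl | rfl
  · simp only [ZE.x, ZE.y, ZE.s, ZE.r, ZE.h, E.val, NumI.lkR] at hp
    push_cast at hp
    linarith only [hc, hp]
  · simp only [ZE.x, ZE.y, ZE.s, ZE.r, ZE.h, E.val, NumI.lkR] at hp
    push_cast at hp
    linarith only [ua9, hp]
  · simp only [ZE.x, ZE.y, ZE.s, ZE.r, ZE.h, E.val, NumI.lkR] at hp
    push_cast at hp
    linarith only [ua10, hp]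
  · simp only [ZE.x, ZE.y, ZE.s, ZE.r, ZE.h, E.val, NumI.lkR] at hp
    push_cast at hp
    linarith only [ua1, ua3, hp]

theorem e1_pD4X2pC {x y s r : ℝ} (ua1 : 1850 / 10000 ≤ x) (ua2 : x ≤ 2250 / 10000) (ua3 : 0 / 10000 ≤ y) (ua4 : y ≤ 10 / 10000) (ua5 : 500 / 10000 ≤ s) (ua6 : s ≤ 1850 / 10000) (ua7 : 0 / 10000 ≤ r) (ua8 : r ≤ 1045 / 10000) (ua9 : 400 / 10000 ≤ x - s) (ua10 : 0 ≤ (y - 4 * (r * s))) :
    NumU.uu (x + s) (y + 4 * (r * s)) + (NumU.uu (x - s) (y - 4 * (r * s)) + Real.pi * (y - 4 * (r * s))) + (-NumU.uu (x + 225 / 1000) (y + 9 / 10 * r) + ((25 / 1) * (225 / 1000 - x) * NumU.uu (400 / 10000) (y - 9 / 10 * r) - Real.pi * (1 / 2) * (y - 9 / 10 * r) * (1 - (25 / 1) * (225 / 1000 - x)))) < (958 / 10000 - 85 / 100 * r) ∨ NumU.uu (x + s) (y + 4 * (r * s)) + (NumU.uu (x - s) (y - 4 * (r * s)) + Real.pi * (y - 4 * (r * s))) + (-NumU.uu (x + 225 / 1000) (y + 9 / 10 * r) + ((25 / 1) * (225 / 1000 - x) * NumU.uu (400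 / 10000) (y - 9 / 10 * r) - Real.pi * (1 / 2) * -(y - 9 / 10 * r) * (1 - (25 / 1) * (225 / 1000 - x)))) < (958 / 10000 - 85 / 100 * r) := by
  have h : chkT [sub (sub (q 958 10000) (mul (q 85 100) ZE.r)) (add (add (E.uu (add ZE.x ZE.s) (add ZE.y ZE.h)) (add (E.uu (sub ZE.x ZE.s) (sub ZE.y ZE.h)) (mul pi (sub ZE.y ZE.h)))) (add (neg (E.uu (add ZE.x (q 225 1000)) (add ZE.y (mul (q 9 10) ZE.r)))) (sub (mul (mul (q 25 1) (sub (q 225 1000) ZE.x)) (E.uu (q 400 10000) (sub ZE.y (mul (q 9 10) ZE.r)))) (mul (mul (mul pi (q 1 2)) (sub ZE.y (mul (q 9 10) ZE.r))) (sub (q 1 1) (mul (q 25 1) (sub (q 225 1000) ZE.x))))))), sub (sub (q 958 10000) (mul (q 85 100) ZE.r)) (add (add (E.uu (add ZE.x ZE.s) (add ZE.y ZE.h)) (add (E.uu (sub ZE.x ZE.s) (sub ZE.y ZE.h)) (mul pi (sub ZE.y ZE.h)))) (add (neg (E.uu (add ZE.x (q 225 1000)) (add ZE.y (mul (q 9 10) ZE.r)))) (sub (mul (mul (q 25 1) (sub (q 225 1000) ZE.x)) (E.uu (q 400 10000) (sub ZE.y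 (mul (q 9 10) ZE.r)))) (mul (mul (mul pi (q 1 2)) (neg (sub ZE.y (mul (q 9 10) ZE.r)))) (sub (q 1 1) (mul (q 25 1) (sub (q 225 1000) ZE.x))))))), sub (q 400 10000) (sub ZE.x ZE.s), neg (sub ZE.y ZE.h)] 60
    3299256978383746
    [NumI.V.of 10000 1850 2250, NumI.V.of 10000 0 10, NumI.V.of 10000 500 1850, NumI.V.of 10000 0 1045] = true := by
    decide +kernel
  obtain ⟨f, hf, hp⟩ := chkT4 h (by norm_num) (x := x) (y := y) (z := s) (w := r)
    (by norm_num; linarith only [ua1]) (by norm_num; linarith only [ua2]) (by norm_num; linarith only [ua3]) (by norm_num; linarith only [ua4]) (by norm_num; linarith only [ua5]) (by norm_num; linarith only [ua6]) (by norm_num; linarith only [ua7]) (by norm_num; linarith only [ua8])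
  by_contra hc
  push Not at hc
  obtain ⟨hc0, hc1⟩ := hc
  simp only [List.mem_cons, List.not_mem_nil, or_false] at hf
  rcases hf with rfl | rfl | rfl | rfl
  · simp only [ZE.x, ZE.y, ZE.s, ZE.r, ZE.h, E.val, NumI.lkR] at hp
    push_cast at hp
    linarith only [hc0, hp]
  · simp only [ZE.x, ZE.y, ZE.s, ZE.r, ZE.h, E.val, NumI.lkR] at hp
    push_cast at hp
    linarith only [hc1, hp]
  · simp only [ZE.x, ZE.y, ZE.s, ZE.r, ZE.h, E.val, NumI.lkR] at hp
    push_cast at hp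
    linarith only [ua9, hp]
  · simp only [ZE.x, ZE.y, ZE.s, ZE.r, ZE.h, E.val, NumI.lkR] at hp
    push_cast at hp
    linarith only [ua10, hp]

theorem e1_pD4X3pC {x y s r : ℝ} (ua1 : 2250 / 10000 ≤ x) (ua2 : x ≤ 2650 / 10000) (ua3 : 0 / 10000 ≤ y) (ua4 : y ≤ 10 / 10000) (ua5 : 500 / 10000 ≤ s) (ua6 : s ≤ 2000 / 10000) (ua7 : 0 / 10000 ≤ r) (ua8 : r ≤ 1045 / 10000) (ua9 : 400 / 10000 ≤ x - s) (ua10 : 0 ≤ (y - 4 * (r * s))) :
    NumU.uu (x + s) (y + 4 * (r * s)) + (NumU.uu (x - s) (y - 4 * (r * s)) + Real.pi * (y - 4 * (r * s))) + (-NumU.uu (x + 225 / 1000) (y + 9 / 10 * r) + (((400 / 10000) - (x - 225 / 1000)) * NumI.lnA (400 / 10000) (y - 9 / 10 * r) - NumU.uu (400 / 10000) (y - 9 / 10 * r) - Real.pi * (y - 9 / 10 * r))) < (958 / 10000 - 85 / 100 * r) ∨ NumU.uu (x + s) (y + 4 * (r * s)) + (NumU.uu (x - s) (y - 4 * (r * s)) + Real.pi * (y - 4 * (r * s))) + (-NumU.uu (x + 225 / 1000) (y + 9 / 10 * r) + (((400 / 10000)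 - (x - 225 / 1000)) * NumI.lnA (400 / 10000) (y - 9 / 10 * r) - NumU.uu (400 / 10000) (y - 9 / 10 * r) - Real.pi * -(y - 9 / 10 * r))) < (958 / 10000 - 85 / 100 * r) := by
  have h : chkT [sub (sub (q 958 10000) (mul (q 85 100) ZE.r)) (add (add (E.uu (add ZE.x ZE.s) (add ZE.y ZE.h)) (add (E.uu (sub ZE.x ZE.s) (sub ZE.y ZE.h)) (mul pi (sub ZE.y ZE.h)))) (add (neg (E.uu (add ZE.x (q 225 1000)) (add ZE.y (mul (q 9 10) ZE.r)))) (sub (sub (mul (sub (q 400 10000) (sub ZE.x (q 225 1000))) (E.lnA (q 400 10000) (sub ZE.y (mul (q 9 10) ZE.r)))) (E.uu (q 400 10000) (sub ZE.y (mul (q 9 10) ZE.r)))) (mul pi (sub ZE.y (mul (q 9 10) ZE.r)))))), sub (sub (q 958 10000) (mul (q 85 100) ZE.r)) (add (add (E.uu (add ZE.x ZE.s) (add ZE.y ZE.h)) (add (E.uu (sub ZE.x ZE.s) (sub ZE.y ZE.h)) (mul pi (sub ZE.y ZE.h)))) (add (neg (E.uu (add ZE.x (q 225 1000)) (add ZE.y (mul (q 9 10) ZE.r)))) (sub (sub (mul (sub (q 400 10000) (sub ZE.x (q 225 1000)))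 (E.lnA (q 400 10000) (sub ZE.y (mul (q 9 10) ZE.r)))) (E.uu (q 400 10000) (sub ZE.y (mul (q 9 10) ZE.r)))) (mul pi (neg (sub ZE.y (mul (q 9 10) ZE.r))))))), sub (q 400 10000) (sub ZE.x ZE.s), neg (sub ZE.y ZE.h)] 60
    41208222354
    [NumI.V.of 10000 2250 2650, NumI.V.of 10000 0 10, NumI.V.of 10000 500 2000, NumI.V.of 10000 0 1045] = true := by
    decide +kernel
  obtain ⟨f, hf, hp⟩ := chkT4 h (by norm_num) (x := x) (y := y) (z := s) (w := r)
    (by norm_num; linarith only [ua1]) (by norm_num; linarith only [ua2]) (by norm_num; linarith only [ua3]) (by norm_num; linarith only [ua4]) (by norm_num; linarith only [ua5]) (by norm_num; linarith only [ua6]) (by norm_num; linarith only [ua7]) (by norm_num; linarith only [ua8])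
  by_contra hc
  push Not at hc
  obtain ⟨hc0, hc1⟩ := hc
  simp only [List.mem_cons, List.not_mem_nil, or_false] at hf
  rcases hf with rfl | rfl | rfl | rfl
  · simp only [ZE.x, ZE.y, ZE.s, ZE.r, ZE.h, E.val, NumI.lkR] at hp
    push_cast at hp
    linarith only [hc0, hp]
  · simp only [ZE.x, ZE.y, ZE.s, ZE.r, ZE.h, E.val, NumI.lkR] at hp
    push_cast at hp
    linarith only [hc1, hp]
  · simp only [ZE.x, ZE.y, ZE.s, ZE.r, ZE.h, E.val, NumI.lkR] at hp
    push_cast at hp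
    linarith only [ua9, hp]
  · simp only [ZE.x, ZE.y, ZE.s, ZE.r, ZE.h, E.val, NumI.lkR] at hp
    push_cast at hp
    linarith only [ua10, hp]

theorem e1_pD4X4pC {x y s r : ℝ} (ua1 : 2650 / 10000 ≤ x) (ua2 : x ≤ 6000 / 10000) (ua3 : 0 / 10000 ≤ y) (ua4 : y ≤ 10 / 10000) (ua5 : 500 / 10000 ≤ s) (ua6 : s ≤ 2000 / 10000) (ua7 : 0 / 10000 ≤ r) (ua8 : r ≤ 1045 / 10000) (ua9 : 0 ≤ (y - 4 * (r * s))) (ua10 : -y ≤ 545 / 1000 * (65 / 100 - x)) :
    NumU.uu (x + s) (y + 4 * (r * s)) + (NumU.uu (x - s) (y - 4 * (r * s)) + Real.pi * (y - 4 * (r * s))) + (-NumU.uu (x + 225 / 1000) (y + 9 / 10 * r) + -(NumU.uu (x - 225 / 1000) (y - 9 / 10 * r) + Real.pi * (y - 9 / 10 * r))) < (958 / 10000 - 85 / 100 * r) ∨ NumU.uu (x + s) (y + 4 * (r * s)) + (NumU.uu (x - s) (y - 4 * (r * s)) + Real.pi * (y - 4 * (r * s))) + (-NumU.uu (x + 225 / 1000) (y + 9 / 10 * r) + -(NumU.uu (x - 225 / 1000) (y - 9 / 10 * r) + Real.pi * -(y - 9 / 10 * r)))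 < (958 / 10000 - 85 / 100 * r) := by
  have h : chkT [sub (sub (q 958 10000) (mul (q 85 100) ZE.r)) (add (add (E.uu (add ZE.x ZE.s) (add ZE.y ZE.h)) (add (E.uu (sub ZE.x ZE.s) (sub ZE.y ZE.h)) (mul pi (sub ZE.y ZE.h)))) (add (neg (E.uu (add ZE.x (q 225 1000)) (add ZE.y (mul (q 9 10) ZE.r)))) (neg (add (E.uu (sub ZE.x (q 225 1000)) (sub ZE.y (mul (q 9 10) ZE.r))) (mul pi (sub ZE.y (mul (q 9 10) ZE.r))))))), sub (sub (q 958 10000) (mul (q 85 100) ZE.r)) (add (add (E.uu (add ZE.x ZE.s) (add ZE.y ZE.h)) (add (E.uu (sub ZE.x ZE.s) (sub ZE.y ZE.h)) (mul pi (sub ZE.y ZE.h)))) (add (neg (E.uu (add ZE.x (q 225 1000)) (add ZE.y (mul (q 9 10) ZE.r)))) (neg (add (E.uu (sub ZE.x (q 225 1000)) (sub ZE.y (mul (q 9 10) ZE.r))) (mul pi (neg (sub ZE.y (mul (q 9 10) ZE.r)))))))), neg (sub ZE.y ZE.h), sub (neg ZE.y) (mul (q 545 1000) (sub (q 65 100) ZE.x))] 60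
    758423469219031818131960009216
    [NumI.V.of 10000 2650 6000, NumI.V.of 10000 0 10, NumI.V.of 10000 500 2000, NumI.V.of 10000 0 1045] = true := by
    decide +kernel
  obtain ⟨f, hf, hp⟩ := chkT4 h (by norm_num) (x := x) (y := y) (z := s) (w := r)
    (by norm_num; linarith only [ua1]) (by norm_num; linarith only [ua2]) (by norm_num; linarith only [ua3]) (by norm_num; linarith only [ua4]) (by norm_num; linarith only [ua5]) (by norm_num; linarith only [ua6]) (by norm_num; linarith only [ua7]) (by norm_num; linarith only [ua8])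
  by_contra hc
  push Not at hc
  obtain ⟨hc0, hc1⟩ := hc
  simp only [List.mem_cons, List.not_mem_nil, or_false] at hf
  rcases hf with rfl | rfl | rfl | rfl
  · simp only [ZE.x, ZE.y, ZE.s, ZE.r, ZE.h, E.val, NumI.lkR] at hp
    push_cast at hp
    linarith only [hc0, hp]
  · simp only [ZE.x, ZE.y, ZE.s, ZE.r, ZE.h, E.val, NumI.lkR] at hp
    push_cast at hp
    linarith only [hc1, hp]
  · simp only [ZE.x, ZE.y, ZE.s, ZE.r, ZE.h, E.val, NumI.lkR] at hp
    push_cast at hp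
    linarith only [ua9, hp]
  · simp only [ZE.x, ZE.y, ZE.s, ZE.r, ZE.h, E.val, NumI.lkR] at hp
    push_cast at hp
    linarith only [ua2, ua3, hp]

theorem e1_pD3X1nC_h1_q1 : Pool.Agent.Work.NumU.runT [sub (sub (q 958 10000) (mul (q 85 100) ZE.r)) (add (add (E.uu (add ZE.x ZE.s) (add ZE.y ZE.h)) (add (mul (mul (mul pi (q 1 2)) (neg (sub ZE.y ZE.h))) (add (q 1 1) (mul (q 25 1) (sub ZE.x ZE.s)))) (mul (mul (q 25 1) (sub ZE.x ZE.s)) (E.uu (q 400 10000) (sub ZE.y ZE.h))))) (add (neg (E.uu (add ZE.x (q 225 1000)) (add ZE.y (mul (q 9 10) ZE.r)))) (neg (E.uu (add ZE.x (q 775 1000)) (sub ZE.y (mul (q 9 10) ZE.r)))))), sub ZE.s ZE.x, sub (sub ZE.x ZE.s) (q 400 10000), add (q 0 1) (sub ZE.y ZE.h), sub (neg ZE.y) (mul (q 158 100) ZE.x)] 58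
    734703348072121917410784661191098422528109995900565267586124439276650172234889403136912491039488470243522985584693805086814136883564014844321001708208895726965455065610316207566422797414482794878731771021329593939510823845089216072869697960772414679689413508811247673299426777518355131750891718134338711045638071697674134965303714659966204537624313426574005792280547679779918046698179329606961850247778879536291733291932030407328726553269400829341102693003494511282559603270189015756357040156934128039560742147967471861384813242083308569059748054751397585772651479568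
    (Pool.Agent.Work.NumI.setL 2 (Pool.Agent.Work.NumI.setL 1 ([NumI.V.of 10000 500 1850, NumI.V.of 10000 (-1580) 10, NumI.V.of 10000 500 1850, NumI.V.of 10000 0 1045]))) =
    271340012126619701843778558606488474403060839561885243237060818759674373460123093137135416890096285457597960314536862999210712902082314005593390939063222949937432086685145554002198588488248783601418935067407549743975943821365558006915528157875270838474280117133368929566252946133204967534104818473212294509101678350349015409114938289268225397259293813688054517026201595670540791841531825409703150567267842041989513436424213871290224872689697 := by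
  decide +kernel

theorem e1_pD3X1nC_h1_q2 : Pool.Agent.Work.NumU.runT [sub (sub (q 958 10000) (mul (q 85 100) ZE.r)) (add (add (E.uu (add ZE.x ZE.s) (add ZE.y ZE.h)) (add (mul (mul (mul pi (q 1 2)) (neg (sub ZE.y ZE.h))) (add (q 1 1) (mul (q 25 1) (sub ZE.x ZE.s)))) (mul (mul (q 25 1) (sub ZE.x ZE.s)) (E.uu (q 400 10000) (sub ZE.y ZE.h))))) (add (neg (E.uu (add ZE.x (q 225 1000)) (add ZE.y (mul (q 9 10) ZE.r)))) (neg (E.uu (add ZE.x (q 775 1000)) (sub ZE.y (mul (q 9 10) ZE.r)))))), sub ZE.s ZE.x, sub (sub ZE.x ZE.s) (q 400 10000), add (q 0 1) (sub ZE.y ZE.h), sub (neg ZE.y) (mul (q 158 100) ZE.x)] 58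
    271340012126619701843778558606488474403060839561885243237060818759674373460123093137135416890096285457597960314536862999210712902082314005593390939063222949937432086685145554002198588488248783601418935067407549743975943821365558006915528157875270838474280117133368929566252946133204967534104818473212294509101678350349015409114938289268225397259293813688054517026201595670540791841531825409703150567267842041989513436424213871290224872689696
    (Pool.Agent.Work.NumI.setR 2 (Pool.Agent.Work.NumI.setL 1 ([NumI.V.of 10000 500 1850, NumI.V.of 10000 (-1580) 10, NumI.V.of 10000 500 1850, NumI.V.of 10000 0 1045]))) =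
    267840587948522820619923766750220231147767509737605234187630622072319067924762633695587814238003187726234866592558587725965395744686163337782214436188038183820316011444167518255427870436590995689584003167689320921432786183534977930675863858559057575198131802349857 := by
  decide +kernel

theorem e1_pD3X1nC_h1_q3 : Pool.Agent.Work.NumU.runT [sub (sub (q 958 10000) (mul (q 85 100) ZE.r)) (add (add (E.uu (add ZE.x ZE.s) (add ZE.y ZE.h)) (add (mul (mul (mul pi (q 1 2)) (neg (sub ZE.y ZE.h))) (add (q 1 1) (mul (q 25 1) (sub ZE.x ZE.s)))) (mul (mul (q 25 1) (sub ZE.x ZE.s)) (E.uu (q 400 10000) (sub ZE.y ZE.h))))) (add (neg (E.uu (add ZE.x (q 225 1000)) (add ZE.y (mul (q 9 10) ZE.r)))) (neg (E.uu (add ZE.x (q 775 1000)) (sub ZE.y (mul (q 9 10) ZE.r)))))), sub ZE.s ZE.x, sub (sub ZE.x ZE.s) (q 400 10000), add (q 0 1) (sub ZE.y ZE.h), sub (neg ZE.y) (mul (q 158 100) ZE.x)] 59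
    267840587948522820619923766750220231147767509737605234187630622072319067924762633695587814238003187726234866592558587725965395744686163337782214436188038183820316011444167518255427870436590995689584003167689320921432786183534977930675863858559057575198131802349856
    (Pool.Agent.Work.NumI.setR 1 ([NumI.V.of 10000 500 1850, NumI.V.of 10000 (-1580) 10, NumI.V.of 10000 500 1850, NumI.V.of 10000 0 1045])) =
    1 := by
  decide +kernel

theorem e1_pD3X1nC {x y s r : ℝ} (ua1 : 500 / 10000 ≤ x) (ua2 : x ≤ 1850 / 10000) (ua3 : -(1580 / 10000) ≤ y) (ua4 : y ≤ 10 / 10000) (ua5 : 500 / 10000 ≤ s) (ua6 : s ≤ 1850 / 10000) (ua7 : 0 / 10000 ≤ r) (ua8 : r ≤ 1045 / 10000) (ua9 : 0 ≤ x - s) (ua10 : x - s ≤ 400 / 10000) (ua11 : (y - 4 * (r * s)) ≤ 0) (ua12 : -y ≤ 158 / 100 * x) :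
    NumU.uu (x + s) (y + 4 * (r * s)) + (Real.pi * (1 / 2) * -(y - 4 * (r * s)) * (1 + (25 / 1) * (x - s)) + (25 / 1) * (x - s) * NumU.uu (400 / 10000) (y - 4 * (r * s))) + (-NumU.uu (x + 225 / 1000) (y + 9 / 10 * r) + -NumU.uu (x + 775 / 1000) (y - 9 / 10 * r)) < (958 / 10000 - 85 / 100 * r) := by
  have h : chkT [sub (sub (q 958 10000) (mul (q 85 100) ZE.r)) (add (add (E.uu (add ZE.x ZE.s) (add ZE.y ZE.h)) (add (mul (mul (mul pi (q 1 2)) (neg (sub ZE.y ZE.h))) (add (q 1 1) (mul (q 25 1) (sub ZE.x ZE.s)))) (mul (mul (q 25 1) (sub ZE.x ZE.s)) (E.uu (q 400 10000) (sub ZE.y ZE.h))))) (add (neg (E.uu (add ZE.x (q 225 1000)) (add ZE.y (mul (q 9 10) ZE.r)))) (neg (E.uu (add ZE.x (q 775 1000)) (sub ZE.y (mul (q 9 10) ZE.r)))))), sub ZE.s ZE.x, sub (sub ZE.x ZE.s) (q 400 10000), add (q 0 1) (sub ZE.y ZE.h), sub (neg ZE.y) (mul (q 158 100) ZE.x)] 60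
    188084057106463210857160873264921196167196158950544708502047856454822444092131687203049597706109048382341884309681614102224419042192387800146176437301477306103156496796240949137004236138107595488955333381460376048514770904342839314654642677957738158000489858255679404364653255044698913728228279842390710027683346354604578551117750952951348361631824237202945482823820206023659019954733908379382233663431393161290683722734599784276153997636966612311322289408894594888335258437168388033627402280175136778127549989879672796514512189973326993679295502016357781957798778769441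
    [NumI.V.of 10000 500 1850, NumI.V.of 10000 (-1580) 10, NumI.V.of 10000 500 1850, NumI.V.of 10000 0 1045] = true :=
      Pool.Agent.Work.NumU.chkT_of (Pool.Agent.Work.NumU.runT_split rfl rfl rfl
        (Pool.Agent.Work.NumU.runT_split rfl rfl rfl
          e1_pD3X1nC_h1_q1
          e1_pD3X1nC_h1_q2)
        e1_pD3X1nC_h1_q3)
  obtain ⟨f, hf, hp⟩ := chkT4 h (by norm_num) (x := x) (y := y) (z := s) (w := r)
    (by norm_num; linarith only [ua1]) (by norm_num; linarith only [ua2]) (by norm_num; linarith only [ua3]) (by norm_num; linarith only [ua4]) (by norm_num; linarith only [ua5]) (by norm_num; linarith only [ua6]) (by norm_num; linarith only [ua7]) (by norm_num; linarith only [ua8])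
  by_contra hc
  push Not at hc
  simp only [List.mem_cons, List.not_mem_nil, or_false] at hf
  rcases hf with rfl | rfl | rfl | rfl | rfl
  · simp only [ZE.x, ZE.y, ZE.s, ZE.r, ZE.h, E.val, NumI.lkR] at hp
    push_cast at hp
    linarith only [hc, hp]
  · simp only [ZE.x, ZE.y, ZE.s, ZE.r, ZE.h, E.val, NumI.lkR] at hp
    push_cast at hp
    linarith only [ua9, hp]
  · simp only [ZE.x, ZE.y, ZE.s, ZE.r, ZE.h, E.val, NumI.lkR] at hp
    push_cast at hp
    linarith only [ua10, hp]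
  · simp only [ZE.x, ZE.y, ZE.s, ZE.r, ZE.h, E.val, NumI.lkR] at hp
    push_cast at hp
    linarith only [ua11, hp]
  · simp only [ZE.x, ZE.y, ZE.s, ZE.r, ZE.h, E.val, NumI.lkR] at hp
    push_cast at hp
    linarith only [ua12, hp]

theorem e1_pD3X2nC_h1_q1 : Pool.Agent.Work.NumU.runT [sub (sub (q 958 10000) (mul (q 85 100) ZE.r)) (add (add (E.uu (add ZE.x ZE.s) (add ZE.y ZE.h)) (add (mul (mul (mul pi (q 1 2)) (neg (sub ZE.y ZE.h))) (add (q 1 1) (mul (q 25 1) (sub ZE.x ZE.s)))) (mul (mul (q 25 1) (sub ZE.x ZE.s)) (E.uu (q 400 10000) (sub ZE.y ZE.h))))) (add (neg (E.uu (add ZE.x (q 225 1000)) (add ZE.y (mul (q 9 10) ZE.r)))) (sub (mul (mul (q 25 1) (sub (q 225 1000) ZE.x)) (E.uu (q 400 10000) (sub ZE.y (mul (q 9 10) ZE.r)))) (mul (mul (mul pi (q 1 2)) (sub ZE.y (mul (q 9 10) ZE.r))) (sub (q 1 1) (mul (q 25 1) (sub (q 225 1000) ZE.x))))))), sub (sub (q 958 10000) (mul (q 85 100) ZE.r)) (add (add (E.uu (add ZE.x ZE.s)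 (add ZE.y ZE.h)) (add (mul (mul (mul pi (q 1 2)) (neg (sub ZE.y ZE.h))) (add (q 1 1) (mul (q 25 1) (sub ZE.x ZE.s)))) (mul (mul (q 25 1) (sub ZE.x ZE.s)) (E.uu (q 400 10000) (sub ZE.y ZE.h))))) (add (neg (E.uu (add ZE.x (q 225 1000)) (add ZE.y (mul (q 9 10) ZE.r)))) (sub (mul (mul (q 25 1) (sub (q 225 1000) ZE.x)) (E.uu (q 400 10000) (sub ZE.y (mul (q 9 10) ZE.r)))) (mul (mul (mul pi (q 1 2)) (neg (sub ZE.y (mul (q 9 10) ZE.r)))) (sub (q 1 1) (mul (q 25 1) (sub (q 225 1000) ZE.x))))))), sub ZE.s ZE.x, sub (sub ZE.x ZE.s) (q 400 10000), add (q 0 1) (sub ZE.y ZE.h)] 59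
    190543426986064665931615251624765451566527335032310782583736367046402930056558355908181217015744308149106767813634212426640117693675283656774885843181470862811178890623282895923594692136274502051108976757290854973994549386540322225816836234230078406095744688180227513698651445010721628051447054386728164474418801958961450960651140112471842503631012878967501609188971216246093779731
    (Pool.Agent.Work.NumI.setL 1 ([NumI.V.of 10000 1850 2250, NumI.V.of 10000 (-1580) 10, NumI.V.of 10000 1450 2000, NumI.V.of 10000 0 1045])) =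
    128693678667056978857759908136954408692509602614678781286913545180659807917764716921128003737006678338930027726590142449890579650606133024055482636118922004 := by
  decide +kernel

theorem e1_pD3X2nC_h1_q2 : Pool.Agent.Work.NumU.runT [sub (sub (q 958 10000) (mul (q 85 100) ZE.r)) (add (add (E.uu (add ZE.x ZE.s) (add ZE.y ZE.h)) (add (mul (mul (mul pi (q 1 2)) (neg (sub ZE.y ZE.h))) (add (q 1 1) (mul (q 25 1) (sub ZE.x ZE.s)))) (mul (mul (q 25 1) (sub ZE.x ZE.s)) (E.uu (q 400 10000) (sub ZE.y ZE.h))))) (add (neg (E.uu (add ZE.x (q 225 1000)) (add ZE.y (mul (q 9 10) ZE.r)))) (sub (mul (mul (q 25 1) (sub (q 225 1000) ZE.x)) (E.uu (q 400 10000) (sub ZE.y (mul (q 9 10) ZE.r)))) (mul (mul (mul pi (q 1 2)) (sub ZE.y (mul (q 9 10) ZE.r))) (sub (q 1 1) (mul (q 25 1) (sub (q 225 1000) ZE.x))))))), sub (sub (q 958 10000) (mul (q 85 100) ZE.r)) (add (add (E.uu (add ZE.x ZE.s) (add ZE.y ZE.h)) (add (mul (mul (mul pi (q 1 2)) (neg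 (sub ZE.y ZE.h))) (add (q 1 1) (mul (q 25 1) (sub ZE.x ZE.s)))) (mul (mul (q 25 1) (sub ZE.x ZE.s)) (E.uu (q 400 10000) (sub ZE.y ZE.h))))) (add (neg (E.uu (add ZE.x (q 225 1000)) (add ZE.y (mul (q 9 10) ZE.r)))) (sub (mul (mul (q 25 1) (sub (q 225 1000) ZE.x)) (E.uu (q 400 10000) (sub ZE.y (mul (q 9 10) ZE.r)))) (mul (mul (mul pi (q 1 2)) (neg (sub ZE.y (mul (q 9 10) ZE.r)))) (sub (q 1 1) (mul (q 25 1) (sub (q 225 1000) ZE.x))))))), sub ZE.s ZE.x, sub (sub ZE.x ZE.s) (q 400 10000), add (q 0 1) (sub ZE.y ZE.h)] 59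
    128693678667056978857759908136954408692509602614678781286913545180659807917764716921128003737006678338930027726590142449890579650606133024055482636118922003
    (Pool.Agent.Work.NumI.setR 1 ([NumI.V.of 10000 1850 2250, NumI.V.of 10000 (-1580) 10, NumI.V.of 10000 1450 2000, NumI.V.of 10000 0 1045])) =
    1 := by
  decide +kernel

theorem e1_pD3X2nC {x y s r : ℝ} (ua1 : 1850 / 10000 ≤ x) (ua2 : x ≤ 2250 / 10000) (ua3 : -(1580 / 10000) ≤ y) (ua4 : y ≤ 10 / 10000) (ua5 : 1450 / 10000 ≤ s) (ua6 : s ≤ 2000 / 10000) (ua7 : 0 / 10000 ≤ r) (ua8 : r ≤ 1045 / 10000) (ua9 : 0 ≤ x - s) (ua10 : x - s ≤ 400 / 10000) (ua11 : (y - 4 * (r * s)) ≤ 0) :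
    NumU.uu (x + s) (y + 4 * (r * s)) + (Real.pi * (1 / 2) * -(y - 4 * (r * s)) * (1 + (25 / 1) * (x - s)) + (25 / 1) * (x - s) * NumU.uu (400 / 10000) (y - 4 * (r * s))) + (-NumU.uu (x + 225 / 1000) (y + 9 / 10 * r) + ((25 / 1) * (225 / 1000 - x) * NumU.uu (400 / 10000) (y - 9 / 10 * r) - Real.pi * (1 / 2) * (y - 9 / 10 * r) * (1 - (25 / 1) * (225 / 1000 - x)))) < (958 / 10000 - 85 / 100 * r) ∨ NumU.uu (x + s) (y + 4 * (r * s)) + (Real.pi * (1 / 2) * -(y - 4 * (r * s)) * (1 + (25 / 1) * (x - s)) + (25 / 1) * (x - s) * NumU.uu (400 / 10000) (y - 4 * (r * s))) + (-NumU.uu (x + 225 / 1000) (y + 9 / 10 * r) + ((25 / 1) * (225 / 1000 - x) * NumU.uu (400 / 10000) (y - 9 / 10 * r) - Real.pi * (1 / 2) * -(y - 9 / 10 * r) * (1 - (25 / 1) * (225 / 1000 - x)))) < (958 / 10000 - 85 / 100 * r) := by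
  have h : chkT [sub (sub (q 958 10000) (mul (q 85 100) ZE.r)) (add (add (E.uu (add ZE.x ZE.s) (add ZE.y ZE.h)) (add (mul (mul (mul pi (q 1 2)) (neg (sub ZE.y ZE.h))) (add (q 1 1) (mul (q 25 1) (sub ZE.x ZE.s)))) (mul (mul (q 25 1) (sub ZE.x ZE.s)) (E.uu (q 400 10000) (sub ZE.y ZE.h))))) (add (neg (E.uu (add ZE.x (q 225 1000)) (add ZE.y (mul (q 9 10) ZE.r)))) (sub (mul (mul (q 25 1) (sub (q 225 1000) ZE.x)) (E.uu (q 400 10000) (sub ZE.y (mul (q 9 10) ZE.r)))) (mul (mul (mul pi (q 1 2)) (sub ZE.y (mul (q 9 10) ZE.r))) (sub (q 1 1) (mul (q 25 1) (sub (q 225 1000) ZE.x))))))), sub (sub (q 958 10000) (mul (q 85 100) ZE.r)) (add (add (E.uu (add ZE.x ZE.s) (add ZE.y ZE.h)) (add (mul (mul (mul pi (q 1 2)) (neg (sub ZE.y ZE.h))) (add (q 1 1) (mul (q 25 1) (sub ZE.x ZE.s)))) (mul (mul (q 25 1) (sub ZE.x ZE.s)) (E.uu (q 400 10000) (sub ZE.y ZE.h))))) (add (neg (E.uu (add ZE.x (q 225 1000)) (add ZE.y (mul (q 9 10) ZE.r)))) (sub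 (mul (mul (q 25 1) (sub (q 225 1000) ZE.x)) (E.uu (q 400 10000) (sub ZE.y (mul (q 9 10) ZE.r)))) (mul (mul (mul pi (q 1 2)) (neg (sub ZE.y (mul (q 9 10) ZE.r)))) (sub (q 1 1) (mul (q 25 1) (sub (q 225 1000) ZE.x))))))), sub ZE.s ZE.x, sub (sub ZE.x ZE.s) (q 400 10000), add (q 0 1) (sub ZE.y ZE.h)] 60
    3048694831777034654905844025996247225064437360516972521339781872742446880904933694530899472251908930385708285018147398826241883098804538508398173490903533804978862249972526334777515074180392032817743628116653679583912790184645155613069379747681254497531915010883640219178423120171546048823152870187650631590700831343383215370418241799549480058096206063480025747023539459937500475697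
    [NumI.V.of 10000 1850 2250, NumI.V.of 10000 (-1580) 10, NumI.V.of 10000 1450 2000, NumI.V.of 10000 0 1045] = true :=
      Pool.Agent.Work.NumU.chkT_of (Pool.Agent.Work.NumU.runT_split rfl rfl rfl
        e1_pD3X2nC_h1_q1
        e1_pD3X2nC_h1_q2)
  obtain ⟨f, hf, hp⟩ := chkT4 h (by norm_num) (x := x) (y := y) (z := s) (w := r)
    (by norm_num; linarith only [ua1]) (by norm_num; linarith only [ua2]) (by norm_num; linarith only [ua3]) (by norm_num; linarith only [ua4]) (by norm_num; linarith only [ua5]) (by norm_num; linarith only [ua6]) (by norm_num; linarith only [ua7]) (by norm_num; linarith only [ua8])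
  by_contra hc
  push Not at hc
  obtain ⟨hc0, hc1⟩ := hc
  simp only [List.mem_cons, List.not_mem_nil, or_false] at hf
  rcases hf with rfl | rfl | rfl | rfl | rfl
  · simp only [ZE.x, ZE.y, ZE.s, ZE.r, ZE.h, E.val, NumI.lkR] at hp
    push_cast at hp
    linarith only [hc0, hp]
  · simp only [ZE.x, ZE.y, ZE.s, ZE.r, ZE.h, E.val, NumI.lkR] at hp
    push_cast at hp
    linarith only [hc1, hp]
  · simp only [ZE.x, ZE.y, ZE.s, ZE.r, ZE.h, E.val, NumI.lkR] at hp
    push_cast at hp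
    linarith only [ua9, hp]
  · simp only [ZE.x, ZE.y, ZE.s, ZE.r, ZE.h, E.val, NumI.lkR] at hp
    push_cast at hp
    linarith only [ua10, hp]
  · simp only [ZE.x, ZE.y, ZE.s, ZE.r, ZE.h, E.val, NumI.lkR] at hp
    push_cast at hp
    linarith only [ua11, hp]

theorem e1_pD3X3nC {x y s r : ℝ} (ua1 : 2250 / 10000 ≤ x) (ua2 : x ≤ 2400 / 10000) (ua3 : -(1580 / 10000) ≤ y) (ua4 : y ≤ 10 / 10000) (ua5 : 1850 / 10000 ≤ s) (ua6 : s ≤ 2000 / 10000) (ua7 : 0 / 10000 ≤ r) (ua8 : r ≤ 1045 / 10000) (ua9 : 0 ≤ x - s) (ua10 : x - s ≤ 400 / 10000) (ua11 : (y - 4 * (r * s)) ≤ 0) :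
    NumU.uu (x + s) (y + 4 * (r * s)) + (Real.pi * (1 / 2) * -(y - 4 * (r * s)) * (1 + (25 / 1) * (x - s)) + (25 / 1) * (x - s) * NumU.uu (400 / 10000) (y - 4 * (r * s))) + (-NumU.uu (x + 225 / 1000) (y + 9 / 10 * r) + (((400 / 10000) - (x - 225 / 1000)) * NumI.lnA (400 / 10000) (y - 9 / 10 * r) - NumU.uu (400 / 10000) (y - 9 / 10 * r) - Real.pi * (y - 9 / 10 * r))) < (958 / 10000 - 85 / 100 * r) ∨ NumU.uu (x + s) (y + 4 * (r * s)) + (Real.pi * (1 / 2) * -(y - 4 * (r * s)) * (1 + (25 / 1) * (x - s)) + (25 / 1) * (x - s) * NumU.uu (400 / 10000) (y - 4 * (r * s))) + (-NumU.uu (x + 225 / 1000) (y + 9 / 10 * r) + (((400 / 10000) - (x - 225 / 1000)) * NumI.lnA (400 / 10000) (y - 9 / 10 * r) - NumU.uu (400 / 10000) (y - 9 / 10 * r) - Real.pi * -(y - 9 / 10 * r))) < (958 / 10000 - 85 / 100 * r) := by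
  have h : chkT [sub (sub (q 958 10000) (mul (q 85 100) ZE.r)) (add (add (E.uu (add ZE.x ZE.s) (add ZE.y ZE.h)) (add (mul (mul (mul pi (q 1 2)) (neg (sub ZE.y ZE.h))) (add (q 1 1) (mul (q 25 1) (sub ZE.x ZE.s)))) (mul (mul (q 25 1) (sub ZE.x ZE.s)) (E.uu (q 400 10000) (sub ZE.y ZE.h))))) (add (neg (E.uu (add ZE.x (q 225 1000)) (add ZE.y (mul (q 9 10) ZE.r)))) (sub (sub (mul (sub (q 400 10000) (sub ZE.x (q 225 1000))) (E.lnA (q 400 10000) (sub ZE.y (mul (q 9 10) ZE.r)))) (E.uu (q 400 10000) (sub ZE.y (mul (q 9 10) ZE.r)))) (mul pi (sub ZE.y (mul (q 9 10) ZE.r)))))), sub (sub (q 958 10000) (mul (q 85 100) ZE.r)) (add (add (E.uu (add ZE.x ZE.s) (add ZE.y ZE.h)) (add (mul (mul (mul pi (q 1 2)) (neg (sub ZE.y ZE.h))) (add (q 1 1) (mul (q 25 1) (sub ZE.x ZE.s)))) (mul (mul (q 25 1) (sub ZE.x ZE.s)) (E.uu (q 400 10000) (sub ZE.y ZE.h))))) (add (neg (E.uu (add ZE.x (q 225 1000)) (add ZE.y (mul (q 9 10) ZE.r)))) (sub (sub (mul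 (sub (q 400 10000) (sub ZE.x (q 225 1000))) (E.lnA (q 400 10000) (sub ZE.y (mul (q 9 10) ZE.r)))) (E.uu (q 400 10000) (sub ZE.y (mul (q 9 10) ZE.r)))) (mul pi (neg (sub ZE.y (mul (q 9 10) ZE.r))))))), sub ZE.s ZE.x, sub (sub ZE.x ZE.s) (q 400 10000), add (q 0 1) (sub ZE.y ZE.h)] 60
    213388213257514976345104109671852387786658097
    [NumI.V.of 10000 2250 2400, NumI.V.of 10000 (-1580) 10, NumI.V.of 10000 1850 2000, NumI.V.of 10000 0 1045] = true := by
    decide +kernel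
  obtain ⟨f, hf, hp⟩ := chkT4 h (by norm_num) (x := x) (y := y) (z := s) (w := r)
    (by norm_num; linarith only [ua1]) (by norm_num; linarith only [ua2]) (by norm_num; linarith only [ua3]) (by norm_num; linarith only [ua4]) (by norm_num; linarith only [ua5]) (by norm_num; linarith only [ua6]) (by norm_num; linarith only [ua7]) (by norm_num; linarith only [ua8])
  by_contra hc
  push Not at hc
  obtain ⟨hc0, hc1⟩ := hc
  simp only [List.mem_cons, List.not_mem_nil, or_false] at hf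
  rcases hf with rfl | rfl | rfl | rfl | rfl
  · simp only [ZE.x, ZE.y, ZE.s, ZE.r, ZE.h, E.val, NumI.lkR] at hp
    push_cast at hp
    linarith only [hc0, hp]
  · simp only [ZE.x, ZE.y, ZE.s, ZE.r, ZE.h, E.val, NumI.lkR] at hp
    push_cast at hp
    linarith only [hc1, hp]
  · simp only [ZE.x, ZE.y, ZE.s, ZE.r, ZE.h, E.val, NumI.lkR] at hp
    push_cast at hp
    linarith only [ua1, ua6, hp]
  · simp only [ZE.x, ZE.y, ZE.s, ZE.r, ZE.h, E.val, NumI.lkR] at hp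
    push_cast at hp
    linarith only [ua10, hp]
  · simp only [ZE.x, ZE.y, ZE.s, ZE.r, ZE.h, E.val, NumI.lkR] at hp
    push_cast at hp
    linarith only [ua11, hp]

theorem e1_pD4X1nC {x y s r : ℝ} (ua1 : 900 / 10000 ≤ x) (ua2 : x ≤ 1850 / 10000) (ua3 : -(1580 / 10000) ≤ y) (ua4 : y ≤ 10 / 10000) (ua5 : 500 / 10000 ≤ s) (ua6 : s ≤ 1450 / 10000) (ua7 : 0 / 10000 ≤ r) (ua8 : r ≤ 1045 / 10000) (ua9 : 400 / 10000 ≤ x - s) (ua10 : (y - 4 * (r * s)) ≤ 0) (ua11 : -y ≤ 158 / 100 * x) :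
    NumU.uu (x + s) (y + 4 * (r * s)) + (NumU.uu (x - s) (y - 4 * (r * s)) + Real.pi * -(y - 4 * (r * s))) + (-NumU.uu (x + 225 / 1000) (y + 9 / 10 * r) + -NumU.uu (x + 775 / 1000) (y - 9 / 10 * r)) < (958 / 10000 - 85 / 100 * r) := by
  have h : chkT [sub (sub (q 958 10000) (mul (q 85 100) ZE.r)) (add (add (E.uu (add ZE.x ZE.s) (add ZE.y ZE.h)) (add (E.uu (sub ZE.x ZE.s) (sub ZE.y ZE.h)) (mul pi (neg (sub ZE.y ZE.h))))) (add (neg (E.uu (add ZE.x (q 225 1000)) (add ZE.y (mul (q 9 10) ZE.r)))) (neg (E.uu (add ZE.x (q 775 1000)) (sub ZE.y (mul (q 9 10) ZE.r)))))), sub (q 400 10000) (sub ZE.x ZE.s), add (q 0 1) (sub ZE.y ZE.h), sub (neg ZE.y) (mul (q 158 100) ZE.x)] 60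
    183431983765570796637213940370444480248898326111341389149705338896063059886307148207776821580854324320472106285152310435998311384480493567934227928348597225348738787896157618460850139469767045859016036719694215913521
    [NumI.V.of 10000 900 1850, NumI.V.of 10000 (-1580) 10, NumI.V.of 10000 500 1450, NumI.V.of 10000 0 1045] = true := by
    decide +kernel
  obtain ⟨f, hf, hp⟩ := chkT4 h (by norm_num) (x := x) (y := y) (z := s) (w := r)
    (by norm_num; linarith only [ua1]) (by norm_num; linarith only [ua2]) (by norm_num; linarith only [ua3]) (by norm_num; linarith only [ua4]) (by norm_num; linarith only [ua5]) (by norm_num; linarith only [ua6]) (by norm_num; linarith only [ua7]) (by norm_num; linarith only [ua8])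
  by_contra hc
  push Not at hc
  simp only [List.mem_cons, List.not_mem_nil, or_false] at hf
  rcases hf with rfl | rfl | rfl | rfl
  · simp only [ZE.x, ZE.y, ZE.s, ZE.r, ZE.h, E.val, NumI.lkR] at hp
    push_cast at hp
    linarith only [hc, hp]
  · simp only [ZE.x, ZE.y, ZE.s, ZE.r, ZE.h, E.val, NumI.lkR] at hp
    push_cast at hp
    linarith only [ua9, hp]
  · simp only [ZE.x, ZE.y, ZE.s, ZE.r, ZE.h, E.val, NumI.lkR] at hp
    push_cast at hp
    linarith only [ua10, hp]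
  · simp only [ZE.x, ZE.y, ZE.s, ZE.r, ZE.h, E.val, NumI.lkR] at hp
    push_cast at hp
    linarith only [ua11, hp]

theorem e1_pD4X2nC {x y s r : ℝ} (ua1 : 1850 / 10000 ≤ x) (ua2 : x ≤ 2250 / 10000) (ua3 : -(1580 / 10000) ≤ y) (ua4 : y ≤ 10 / 10000) (ua5 : 500 / 10000 ≤ s) (ua6 : s ≤ 1850 / 10000) (ua7 : 0 / 10000 ≤ r) (ua8 : r ≤ 1045 / 10000) (ua9 : 400 / 10000 ≤ x - s) (ua10 : (y - 4 * (r * s)) ≤ 0) :
    NumU.uu (x + s) (y + 4 * (r * s)) + (NumU.uu (x - s) (y - 4 * (r * s)) + Real.pi * -(y - 4 * (r * s))) + (-NumU.uu (x + 225 / 1000) (y + 9 / 10 * r) + ((25 / 1) * (225 / 1000 - x) * NumU.uu (400 / 10000) (y - 9 / 10 * r) - Real.pi * (1 / 2) * (y - 9 / 10 * r) * (1 - (25 / 1) * (225 / 1000 - x)))) < (958 / 10000 - 85 / 100 * r) ∨ NumU.uu (x + s) (y + 4 * (r * s)) + (NumU.uu (x - s) (y - 4 * (r * s)) + Real.pi * -(y - 4 * (r * s))) + (-NumU.uu (x + 225 / 1000) (y + 9 / 10 * r) + ((25 / 1) * (225 / 1000 - x) * NumU.uu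 (400 / 10000) (y - 9 / 10 * r) - Real.pi * (1 / 2) * -(y - 9 / 10 * r) * (1 - (25 / 1) * (225 / 1000 - x)))) < (958 / 10000 - 85 / 100 * r) := by
  have h : chkT [sub (sub (q 958 10000) (mul (q 85 100) ZE.r)) (add (add (E.uu (add ZE.x ZE.s) (add ZE.y ZE.h)) (add (E.uu (sub ZE.x ZE.s) (sub ZE.y ZE.h)) (mul pi (neg (sub ZE.y ZE.h))))) (add (neg (E.uu (add ZE.x (q 225 1000)) (add ZE.y (mul (q 9 10) ZE.r)))) (sub (mul (mul (q 25 1) (sub (q 225 1000) ZE.x)) (E.uu (q 400 10000) (sub ZE.y (mul (q 9 10) ZE.r)))) (mul (mul (mul pi (q 1 2)) (sub ZE.y (mul (q 9 10) ZE.r))) (sub (q 1 1) (mul (q 25 1) (sub (q 225 1000) ZE.x))))))), sub (sub (q 958 10000) (mul (q 85 100) ZE.r)) (add (add (E.uu (add ZE.x ZE.s) (add ZE.y ZE.h)) (add (E.uu (sub ZE.x ZE.s) (sub ZE.y ZE.h)) (mul pi (neg (sub ZE.y ZE.h))))) (add (neg (E.uu (add ZE.x (q 225 1000)) (add ZE.y (mul (q 9 10) ZE.r)))) (sub (mul (mul (q 25 1) (sub (q 225 1000) ZE.x)) (E.uu (q 400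 10000) (sub ZE.y (mul (q 9 10) ZE.r)))) (mul (mul (mul pi (q 1 2)) (neg (sub ZE.y (mul (q 9 10) ZE.r)))) (sub (q 1 1) (mul (q 25 1) (sub (q 225 1000) ZE.x))))))), sub (q 400 10000) (sub ZE.x ZE.s), add (q 0 1) (sub ZE.y ZE.h)] 60
    1473966986025493241502196986868004285923636636903758033260984015584314154053561492670593670951943191587604370363154
    [NumI.V.of 10000 1850 2250, NumI.V.of 10000 (-1580) 10, NumI.V.of 10000 500 1850, NumI.V.of 10000 0 1045] = true := by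
    decide +kernel
  obtain ⟨f, hf, hp⟩ := chkT4 h (by norm_num) (x := x) (y := y) (z := s) (w := r)
    (by norm_num; linarith only [ua1]) (by norm_num; linarith only [ua2]) (by norm_num; linarith only [ua3]) (by norm_num; linarith only [ua4]) (by norm_num; linarith only [ua5]) (by norm_num; linarith only [ua6]) (by norm_num; linarith only [ua7]) (by norm_num; linarith only [ua8])
  by_contra hc
  push Not at hc
  obtain ⟨hc0, hc1⟩ := hc
  simp only [List.mem_cons, List.not_mem_nil, or_false] at hf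
  rcases hf with rfl | rfl | rfl | rfl
  · simp only [ZE.x, ZE.y, ZE.s, ZE.r, ZE.h, E.val, NumI.lkR] at hp
    push_cast at hp
    linarith only [hc0, hp]
  · simp only [ZE.x, ZE.y, ZE.s, ZE.r, ZE.h, E.val, NumI.lkR] at hp
    push_cast at hp
    linarith only [hc1, hp]
  · simp only [ZE.x, ZE.y, ZE.s, ZE.r, ZE.h, E.val, NumI.lkR] at hp
    push_cast at hp
    linarith only [ua9, hp]
  · simp only [ZE.x, ZE.y, ZE.s, ZE.r, ZE.h, E.val, NumI.lkR] at hp
    push_cast at hp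
    linarith only [ua10, hp]

theorem e1_pD4X3nC {x y s r : ℝ} (ua1 : 2250 / 10000 ≤ x) (ua2 : x ≤ 2650 / 10000) (ua3 : -(1580 / 10000) ≤ y) (ua4 : y ≤ 10 / 10000) (ua5 : 500 / 10000 ≤ s) (ua6 : s ≤ 2000 / 10000) (ua7 : 0 / 10000 ≤ r) (ua8 : r ≤ 1045 / 10000) (ua9 : 400 / 10000 ≤ x - s) (ua10 : (y - 4 * (r * s)) ≤ 0) :
    NumU.uu (x + s) (y + 4 * (r * s)) + (NumU.uu (x - s) (y - 4 * (r * s)) + Real.pi * -(y - 4 * (r * s))) + (-NumU.uu (x + 225 / 1000) (y + 9 / 10 * r) + (((400 / 10000) - (x - 225 / 1000)) * NumI.lnA (400 / 10000) (y - 9 / 10 * r) - NumU.uu (400 / 10000) (y - 9 / 10 * r) - Real.pi * (y - 9 / 10 * r))) < (958 / 10000 - 85 / 100 * r) ∨ NumU.uu (x + s) (y + 4 * (r * s)) + (NumU.uu (x - s) (y - 4 * (r * s)) + Real.pi * -(y - 4 * (r * s))) + (-NumU.uu (x + 225 / 1000) (y + 9 / 10 * r) + (((400 / 10000) - (x - 225 / 1000)) * NumI.lnA (400 / 10000) (y - 9 / 10 * r) - NumU.uu (400 / 10000) (y - 9 / 10 * r) -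 Real.pi * -(y - 9 / 10 * r))) < (958 / 10000 - 85 / 100 * r) := by
  have h : chkT [sub (sub (q 958 10000) (mul (q 85 100) ZE.r)) (add (add (E.uu (add ZE.x ZE.s) (add ZE.y ZE.h)) (add (E.uu (sub ZE.x ZE.s) (sub ZE.y ZE.h)) (mul pi (neg (sub ZE.y ZE.h))))) (add (neg (E.uu (add ZE.x (q 225 1000)) (add ZE.y (mul (q 9 10) ZE.r)))) (sub (sub (mul (sub (q 400 10000) (sub ZE.x (q 225 1000))) (E.lnA (q 400 10000) (sub ZE.y (mul (q 9 10) ZE.r)))) (E.uu (q 400 10000) (sub ZE.y (mul (q 9 10) ZE.r)))) (mul pi (sub ZE.y (mul (q 9 10) ZE.r)))))), sub (sub (q 958 10000) (mul (q 85 100) ZE.r)) (add (add (E.uu (add ZE.x ZE.s) (add ZE.y ZE.h)) (add (E.uu (sub ZE.x ZE.s) (sub ZE.y ZE.h)) (mul pi (neg (sub ZE.y ZE.h))))) (add (neg (E.uu (add ZE.x (q 225 1000)) (add ZE.y (mul (q 9 10) ZE.r)))) (sub (sub (mul (sub (q 400 10000) (sub ZE.x (q 225 1000))) (E.lnA (q 400 10000) (sub ZE.y (mul (q 9 10) ZE.r)))) (E.uu (q 400 10000) (sub ZE.y (mul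 (q 9 10) ZE.r)))) (mul pi (neg (sub ZE.y (mul (q 9 10) ZE.r))))))), sub (q 400 10000) (sub ZE.x ZE.s), add (q 0 1) (sub ZE.y ZE.h)] 60
    257972774339049627360021804262573749540505585314474039105643018294034
    [NumI.V.of 10000 2250 2650, NumI.V.of 10000 (-1580) 10, NumI.V.of 10000 500 2000, NumI.V.of 10000 0 1045] = true := by
    decide +kernel
  obtain ⟨f, hf, hp⟩ := chkT4 h (by norm_num) (x := x) (y := y) (z := s) (w := r)
    (by norm_num; linarith only [ua1]) (by norm_num; linarith only [ua2]) (by norm_num; linarith only [ua3]) (by norm_num; linarith only [ua4]) (by norm_num; linarith only [ua5]) (by norm_num; linarith only [ua6]) (by norm_num; linarith only [ua7]) (by norm_num; linarith only [ua8])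
  by_contra hc
  push Not at hc
  obtain ⟨hc0, hc1⟩ := hc
  simp only [List.mem_cons, List.not_mem_nil, or_false] at hf
  rcases hf with rfl | rfl | rfl | rfl
  · simp only [ZE.x, ZE.y, ZE.s, ZE.r, ZE.h, E.val, NumI.lkR] at hp
    push_cast at hp
    linarith only [hc0, hp]
  · simp only [ZE.x, ZE.y, ZE.s, ZE.r, ZE.h, E.val, NumI.lkR] at hp
    push_cast at hp
    linarith only [hc1, hp]
  · simp only [ZE.x, ZE.y, ZE.s, ZE.r, ZE.h, E.val, NumI.lkR] at hp
    push_cast at hp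
    linarith only [ua9, hp]
  · simp only [ZE.x, ZE.y, ZE.s, ZE.r, ZE.h, E.val, NumI.lkR] at hp
    push_cast at hp
    linarith only [ua10, hp]

theorem e1_pD4X4nC {x y s r : ℝ} (ua1 : 2650 / 10000 ≤ x) (ua2 : x ≤ 6000 / 10000) (ua3 : -(1580 / 10000) ≤ y) (ua4 : y ≤ 10 / 10000) (ua5 : 500 / 10000 ≤ s) (ua6 : s ≤ 2000 / 10000) (ua7 : 0 / 10000 ≤ r) (ua8 : r ≤ 1045 / 10000) (ua9 : (y - 4 * (r * s)) ≤ 0) (ua10 : -y ≤ 545 / 1000 * (65 / 100 - x)) :
    NumU.uu (x + s) (y + 4 * (r * s)) + (NumU.uu (x - s) (y - 4 * (r * s)) + Real.pi * -(y - 4 * (r * s))) + (-NumU.uu (x + 225 / 1000) (y + 9 / 10 * r) + -(NumU.uu (x - 225 / 1000) (y - 9 / 10 * r) + Real.pi * (y - 9 / 10 * r))) < (958 / 10000 - 85 / 100 * r) ∨ NumU.uu (x + s) (y + 4 * (r * s)) + (NumU.uu (x - s) (y - 4 * (r * s)) + Real.pi * -(y - 4 * (r * s))) + (-NumU.uu (x + 225 / 1000) (y + 9 / 10 * r) + -(NumU.uu (x - 225 / 1000) (y - 9 / 10 * r) + Real.pi * -(y - 9 / 10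 * r))) < (958 / 10000 - 85 / 100 * r) := by
  have h : chkT [sub (sub (q 958 10000) (mul (q 85 100) ZE.r)) (add (add (E.uu (add ZE.x ZE.s) (add ZE.y ZE.h)) (add (E.uu (sub ZE.x ZE.s) (sub ZE.y ZE.h)) (mul pi (neg (sub ZE.y ZE.h))))) (add (neg (E.uu (add ZE.x (q 225 1000)) (add ZE.y (mul (q 9 10) ZE.r)))) (neg (add (E.uu (sub ZE.x (q 225 1000)) (sub ZE.y (mul (q 9 10) ZE.r))) (mul pi (sub ZE.y (mul (q 9 10) ZE.r))))))), sub (sub (q 958 10000) (mul (q 85 100) ZE.r)) (add (add (E.uu (add ZE.x ZE.s) (add ZE.y ZE.h)) (add (E.uu (sub ZE.x ZE.s) (sub ZE.y ZE.h)) (mul pi (neg (sub ZE.y ZE.h))))) (add (neg (E.uu (add ZE.x (q 225 1000)) (add ZE.y (mul (q 9 10) ZE.r)))) (neg (add (E.uu (sub ZE.x (q 225 1000)) (sub ZE.y (mul (q 9 10) ZE.r))) (mul pi (neg (sub ZE.y (mul (q 9 10) ZE.r)))))))), add (q 0 1) (sub ZE.y ZE.h), sub (neg ZE.y) (mul (q 545 1000) (sub (q 65 100) ZE.x))] 60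
    3144521732323507955353929518832774840466384570620391177384821874079717018116162627046255535118749586979362687813526077432945615068114473339003819016025085189065553404435076653335601704428597780143526004418224128
    [NumI.V.of 10000 2650 6000, NumI.V.of 10000 (-1580) 10, NumI.V.of 10000 500 2000, NumI.V.of 10000 0 1045] = true := by
    decide +kernel
  obtain ⟨f, hf, hp⟩ := chkT4 h (by norm_num) (x := x) (y := y) (z := s) (w := r)
    (by norm_num; linarith only [ua1]) (by norm_num; linarith only [ua2]) (by norm_num; linarith only [ua3]) (by norm_num; linarith only [ua4]) (by norm_num; linarith only [ua5]) (by norm_num; linarith only [ua6]) (by norm_num; linarith only [ua7]) (by norm_num; linarith only [ua8])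
  by_contra hc
  push Not at hc
  obtain ⟨hc0, hc1⟩ := hc
  simp only [List.mem_cons, List.not_mem_nil, or_false] at hf
  rcases hf with rfl | rfl | rfl | rfl
  · simp only [ZE.x, ZE.y, ZE.s, ZE.r, ZE.h, E.val, NumI.lkR] at hp
    push_cast at hp
    linarith only [hc0, hp]
  · simp only [ZE.x, ZE.y, ZE.s, ZE.r, ZE.h, E.val, NumI.lkR] at hp
    push_cast at hp
    linarith only [hc1, hp]
  · simp only [ZE.x, ZE.y, ZE.s, ZE.r, ZE.h, E.val, NumI.lkR] at hp
    push_cast at hp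
    linarith only [ua9, hp]
  · simp only [ZE.x, ZE.y, ZE.s, ZE.r, ZE.h, E.val, NumI.lkR] at hp
    push_cast at hp
    linarith only [ua10, hp]

theorem e1_pD4X4nX {x y s r : ℝ} (ua1 : 6000 / 10000 ≤ x) (ua2 : x ≤ 6500 / 10000) (ua3 : -(273 / 10000) ≤ y) (ua4 : y ≤ 0 / 10000) (ua5 : 500 / 10000 ≤ s) (ua6 : s ≤ 2000 / 10000) (ua7 : 0 / 10000 ≤ r) (ua8 : r ≤ 1045 / 10000) (ua9 : (y - 4 * (r * s)) ≤ 0) (ua10 : -y ≤ 545 / 1000 * (65 / 100 - x)) :
    NumU.uu (x + s) (y + 4 * (r * s)) + (NumU.uu (x - s) (y - 4 * (r * s)) + Real.pi * -(y - 4 * (r * s))) + (-NumU.uu (x + 225 / 1000) (y + 9 / 10 * r) + -(NumU.uu (x - 225 / 1000) (y - 9 / 10 * r) + Real.pi * (y - 9 / 10 * r))) < (958 / 10000 - 85 / 100 * r) ∨ NumU.uu (x + s) (y + 4 * (r * s)) + (NumU.uu (x - s) (y - 4 * (r * s)) + Real.pi * -(y - 4 * (r * s))) + (-NumU.uu (x + 225 / 1000) (y + 9 / 10 * r) + -(NumU.uu (x - 225 / 1000) (y - 9 / 10 * r) + Real.pi * -(y - 9 / 10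 * r))) < (958 / 10000 - 85 / 100 * r) := by
  have h : chkT [sub (sub (q 958 10000) (mul (q 85 100) ZE.r)) (add (add (E.uu (add ZE.x ZE.s) (add ZE.y ZE.h)) (add (E.uu (sub ZE.x ZE.s) (sub ZE.y ZE.h)) (mul pi (neg (sub ZE.y ZE.h))))) (add (neg (E.uu (add ZE.x (q 225 1000)) (add ZE.y (mul (q 9 10) ZE.r)))) (neg (add (E.uu (sub ZE.x (q 225 1000)) (sub ZE.y (mul (q 9 10) ZE.r))) (mul pi (sub ZE.y (mul (q 9 10) ZE.r))))))), sub (sub (q 958 10000) (mul (q 85 100) ZE.r)) (add (add (E.uu (add ZE.x ZE.s) (add ZE.y ZE.h)) (add (E.uu (sub ZE.x ZE.s) (sub ZE.y ZE.h)) (mul pi (neg (sub ZE.y ZE.h))))) (add (neg (E.uu (add ZE.x (q 225 1000)) (add ZE.y (mul (q 9 10) ZE.r)))) (neg (add (E.uu (sub ZE.x (q 225 1000)) (sub ZE.y (mul (q 9 10) ZE.r))) (mul pi (neg (sub ZE.y (mul (q 9 10) ZE.r)))))))), add (q 0 1) (sub ZE.y ZE.h), sub (neg ZE.y) (mul (q 545 1000) (sub (q 65 100) ZE.x))] 60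
    176654420619598308146
    [NumI.V.of 10000 6000 6500, NumI.V.of 10000 (-273) 0, NumI.V.of 10000 500 2000, NumI.V.of 10000 0 1045] = true := by
    decide +kernel
  obtain ⟨f, hf, hp⟩ := chkT4 h (by norm_num) (x := x) (y := y) (z := s) (w := r)
    (by norm_num; linarith only [ua1]) (by norm_num; linarith only [ua2]) (by norm_num; linarith only [ua1, ua10]) (by norm_num; linarith only [ua4]) (by norm_num; linarith only [ua5]) (by norm_num; linarith only [ua6]) (by norm_num; linarith only [ua7]) (by norm_num; linarith only [ua8])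
  by_contra hc
  push Not at hc
  obtain ⟨hc0, hc1⟩ := hc
  simp only [List.mem_cons, List.not_mem_nil, or_false] at hf
  rcases hf with rfl | rfl | rfl | rfl
  · simp only [ZE.x, ZE.y, ZE.s, ZE.r, ZE.h, E.val, NumI.lkR] at hp
    push_cast at hp
    linarith only [hc0, hp]
  · simp only [ZE.x, ZE.y, ZE.s, ZE.r, ZE.h, E.val, NumI.lkR] at hp
    push_cast at hp
    linarith only [hc1, hp]
  · simp only [ZE.x, ZE.y, ZE.s, ZE.r, ZE.h, E.val, NumI.lkR] at hp
    push_cast at hp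
    linarith only [ua9, hp]
  · simp only [ZE.x, ZE.y, ZE.s, ZE.r, ZE.h, E.val, NumI.lkR] at hp
    push_cast at hp
    linarith only [ua10, hp]

end ZD

end Pool.Agent.Work.MP_b30479_gt.G2
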