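import Pool.Agent.Work.MP_b30479_gt.G2.ZReC
import Pool.Agent.Work.MP_b30479_gt.G2.ZRe1B

/-!
# The loss at a hinge next to a ring: `s` small
-/

set_option linter.unusedSimpArgs false
set_option linter.unusedVariables false

namespace Pool.Agent.Work.MP_b30479_gt.G2

open VOL NumU

namespace ZD

section
open NumU.E ZE

theorem e1_pC {x y s r : ℝ} (ua1 : 0 / 10000 ≤ x) (ua2 : x ≤ 50 / 10000) (ua3 : -(79 / 10000) ≤ y) (ua4 : y ≤ 10 / 10000) (ua5 : 0 / 10000 ≤ s) (ua6 : s ≤ 70 / 10000) (ua7 : 0 / 10000 ≤ r) (ua8 : r ≤ 1045 / 10000) :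
    32 / 10000 + (-NumU.uu (x + 225 / 1000) (y + 9 / 10 * r) + -NumU.uu (x + 775 / 1000) (y - 9 / 10 * r)) < (958 / 10000 - 85 / 100 * r) := by
  have h : chkT [sub (sub (q 958 10000) (mul (q 85 100) ZE.r)) (add (q 32 10000) (add (neg (E.uu (add ZE.x (q 225 1000)) (add ZE.y (mul (q 9 10) ZE.r)))) (neg (E.uu (add ZE.x (q 775 1000)) (sub ZE.y (mul (q 9 10) ZE.r))))))] 60
    2179
    [NumI.V.of 10000 0 50, NumI.V.of 10000 (-79) 10, NumI.V.of 10000 0 70, NumI.V.of 10000 0 1045] = true := by
    decide +kernel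
  obtain ⟨f, hf, hp⟩ := chkT4 h (by norm_num) (x := x) (y := y) (z := s) (w := r)
    (by norm_num; linarith only [ua1]) (by norm_num; linarith only [ua2]) (by norm_num; linarith only [ua3]) (by norm_num; linarith only [ua4]) (by norm_num; linarith only [ua5]) (by norm_num; linarith only [ua6]) (by norm_num; linarith only [ua7]) (by norm_num; linarith only [ua8])
  by_contra hc
  push Not at hc
  simp only [List.mem_cons, List.not_mem_nil, or_false] at hf
  rcases hf with rfl
  · simp only [ZE.x, ZE.y, ZE.s, ZE.r, ZE.h, E.val, NumI.lkR] at hp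
    push_cast at hp
    linarith only [hc, hp]

/-- `lnA` at the corner -/
private theorem lnA_12_11 : NumI.lnA (12 / 1000) (109 / 10000) ≤ -(228 / 100) := by
  have h : chk [sub (q (-228) 100) (E.lnA (q 12 1000) (q 109 10000))] 1
      [NumI.V.of 1 0 0] = true := by decide +kernel
  have hp := pos_of_chk (chk1 h (by norm_num) (x := 0) (by norm_num) (by norm_num))
  simp only [E.val] at hp
  push_cast at hp
  linarith only [hp]

end

private theorem zoneA' {x y s r a b : ℝ} (x0 : 0 ≤ x) (x1 : x ≤ 1500 / 10000)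
    (y0 : -(158 / 1000) ≤ y) (y1 : y ≤ 1 / 1000) (b0 : -y ≤ 158 / 100 * x) (s0 : 0 ≤ s)
    (s1 : s ≤ 200 / 10000) (r0 : 0 ≤ r) (r1 : r ≤ 1045 / 10000)
    (hab : ∀ m : ℝ, |y| ≤ m ∨ |4 * (r * s)| ≤ m → |(|a| - |b|)| ≤ 2 * m)
    (ha : |a| ≤ |y| + 4 * (r * s)) (hb : |b| ≤ |y| + 4 * (r * s)) :
    uu (x + s) a + uu (1 + x - s) b +
      (-uu (x + 225 / 1000) (y + 9 / 10 * r) + -uu (x + 775 / 1000) (y - 9 / 10 * r)) ≤
      958 / 10000 - 85 / 100 * r := by
  have hp := Real.pi_pos
  have hp4 := Real.pi_lt_d4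
  have hrs : 0 ≤ r * s := mul_nonneg r0 s0
  by_cases hc : x ≤ 50 / 10000 ∧ s ≤ 70 / 10000
  · obtain ⟨hc1, hc2⟩ := hc
    have T := e1_pC (x := x) (y := y) (s := s) (r := r) (by linarith only [x0]) (by linarith only [hc1]) (by linarith only [b0, hc1])
      (by linarith only [y1]) (by linarith only [s0]) (by linarith only [hc2]) (by linarith only [r0]) (by linarith only [r1])
    have h1 : r * s ≤ 1045 / 10000 * (70 / 10000) := mul_le_mul r1 hc2 s0 (by norm_num)
    have hy : |y| ≤ 1 / 1000 ∨ |y| ≤ 158 / 100 * x := by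
      rcases le_total 0 y with h | h
      · left
        rwa [abs_of_nonneg h]
      · right
        rwa [abs_of_nonpos h]
    have hy' : |y| ≤ 79 / 10000 := by rcases hy with h | h <;> linarith only [h, hc1]
    have h := UC.corner (a := a) (b := b) (z0 := 12 / 1000) (h0 := 109 / 10000) x0 s0
      (by linarith only [hc1, hc2]) (by norm_num) (by linarith only [ha, h1, hy']) (by linarith only [hb, h1, hy'])
    have h3 : 2 * x * NumI.lnA (12 / 1000) (109 / 10000) ≤ 2 * x * (-(228 / 100)) :=
      mul_le_mul_of_nonneg_left lnA_12_11 (by linarith only [x0])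
    rcases hy with g | g
    · have h2 : Real.pi / 2 * |(|a| - |b|)| ≤ Real.pi / 2 * (2 * (1 / 1000)) :=
        mul_le_mul_of_nonneg_left (hab _ (Or.inl g)) (by positivity)
      linarith only [x0, hp4, T, h, h3, h2]
    · have h2 : Real.pi / 2 * |(|a| - |b|)| ≤ Real.pi / 2 * (2 * (158 / 100 * x)) :=
        mul_le_mul_of_nonneg_left (hab _ (Or.inl g)) (by positivity)
      nlinarith only [hc1, T, h, h3, h2, x0, hp4]
  have hc' : x ≤ 50 / 10000 → 70 / 10000 ≤ s := by
    intro hx
    by_contra h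
    push Not at h
    exact hc ⟨hx, h.le⟩
  rcases le_total 0 y with hy | hy
  · have h := UC.corner (a := a) (b := b) (z0 := x + s) (h0 := y + 4 * (r * s)) x0 s0 le_rfl
      (by linarith only [x1, s1]) (by rwa [abs_of_nonneg hy] at ha) (by rwa [abs_of_nonneg hy] at hb)
    have h2 : Real.pi / 2 * |(|a| - |b|)| ≤ Real.pi / 2 * (2 * y) :=
      mul_le_mul_of_nonneg_left (hab _ (Or.inl (abs_of_nonneg hy).le)) (by positivity)
    rcases le_or_gt x (50 / 10000) with g | g
    · have := hc' g
      have T := e1_Cpa (x := x) (y := y) (s := s) (r := r) (by linarith only [x0]) (by linarith only [g])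
        (by linarith only [hy]) (by linarith only [y1]) (by linarith only [this]) (by linarith only [s1]) (by linarith only [r0]) (by linarith only [r1])
      linarith only [h, h2, T]
    · have T := e1_Cpb (x := x) (y := y) (s := s) (r := r) (by linarith only [g]) (by linarith only [x1])
        (by linarith only [hy]) (by linarith only [y1]) (by linarith only [s0]) (by linarith only [s1]) (by linarith only [r0]) (by linarith only [r1])
      linarith only [h, h2, T]
  · have h := UC.corner (a := a) (b := b) (z0 := x + s) (h0 := 4 * (r * s) - y) x0 s0 le_rfl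
      (by linarith only [x1, s1]) (by rw [abs_of_nonpos hy] at ha; linarith only [ha])
      (by rw [abs_of_nonpos hy] at hb; linarith only [hb])
    have h2 : Real.pi / 2 * |(|a| - |b|)| ≤ Real.pi / 2 * (2 * -y) :=
      mul_le_mul_of_nonneg_left (hab _ (Or.inl (abs_of_nonpos hy).le)) (by positivity)
    have h2' : Real.pi / 2 * |(|a| - |b|)| ≤ Real.pi / 2 * (2 * (4 * (r * s))) :=
      mul_le_mul_of_nonneg_left (hab _ (Or.inr (abs_of_nonneg (by positivity)).le))
        (by positivity)
    rcases le_or_gt x (50 / 10000) with g | g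
    · have := hc' g
      have T := e1_Cna (x := x) (y := y) (s := s) (r := r) (by linarith only [x0]) (by linarith only [g])
        (by linarith only [b0, g]) (by linarith only [hy]) (by linarith only [this]) (by linarith only [s1]) (by linarith only [r0]) (by linarith only [r1])
        (by linarith only [b0])
      rcases T with T | T <;> linarith only [h, h2, T, h2']
    · have T := e1_Cnb (x := x) (y := y) (s := s) (r := r) (by linarith only [g]) (by linarith only [x1])
        (by linarith only [y0]) (by linarith only [hy]) (by linarith only [s0]) (by linarith only [s1]) (by linarith only [r0]) (by linarith only [r1])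
        (by linarith only [b0])
      rcases T with T | T <;> linarith only [h, h2, T, h2']

theorem zoneA {x y s r : ℝ} (x0 : 0 ≤ x) (x1 : x ≤ 1500 / 10000)
    (y0 : -(158 / 1000) ≤ y) (y1 : y ≤ 1 / 1000) (b0 : -y ≤ 158 / 100 * x) (s0 : 0 ≤ s)
    (s1 : s ≤ 200 / 10000) (r0 : 0 ≤ r) (r1 : r ≤ 1045 / 10000) :
    uu (x + s) (y + 4 * (r * s)) + uu (1 + x - s) (y - 4 * (r * s)) +
      (-uu (x + 225 / 1000) (y + 9 / 10 * r) + -uu (x + 775 / 1000) (y - 9 / 10 * r)) ≤
      958 / 10000 - 85 / 100 * r := by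
  have h0 : 0 ≤ 4 * (r * s) := by positivity
  refine zoneA' x0 x1 y0 y1 b0 s0 s1 r0 r1 (fun m hm => abs_diff_le hm) ?_ ?_
  · have := abs_add_le y (4 * (r * s))
    rwa [abs_of_nonneg h0] at this
  · have := abs_sub y (4 * (r * s))
    rwa [abs_of_nonneg h0] at this

theorem zoneAm {x y s r : ℝ} (x0 : 0 ≤ x) (x1 : x ≤ 1500 / 10000)
    (y0 : -(158 / 1000) ≤ y) (y1 : y ≤ 1 / 1000) (b0 : -y ≤ 158 / 100 * x) (s0 : 0 ≤ s)
    (s1 : s ≤ 200 / 10000) (r0 : 0 ≤ r) (r1 : r ≤ 1045 / 10000) :
    uu (x + s) (y - 4 * (r * s)) + uu (1 + x - s) (y + 4 * (r * s)) +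
      (-uu (x + 225 / 1000) (y + 9 / 10 * r) + -uu (x + 775 / 1000) (y - 9 / 10 * r)) ≤
      958 / 10000 - 85 / 100 * r := by
  have h0 : 0 ≤ 4 * (r * s) := by positivity
  refine zoneA' x0 x1 y0 y1 b0 s0 s1 r0 r1 (fun m hm => ?_) ?_ ?_
  · rw [abs_sub_comm]
    exact abs_diff_le hm
  · have := abs_sub y (4 * (r * s))
    rwa [abs_of_nonneg h0] at this
  · have := abs_add_le y (4 * (r * s))
    rwa [abs_of_nonneg h0] at this

end ZD

end Pool.Agent.Work.MP_b30479_gt.G2
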