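import Pool.Agent.Work.MP_b30479_gt.G2.ZReB
import Pool.Agent.Work.NumU.Tree
import Pool.Agent.Work.NumU.TreeS

/-!
# The loss at a hinge between two rings: certificates (e4a, m)
-/

set_option linter.unusedSimpArgs false
set_option linter.unusedVariables false

namespace Pool.Agent.Work.MP_b30479_gt.G2

open VOL NumU

namespace ZD

open NumU.E ZE

theorem e4a_mD1X1_h1_q1 : Pool.Agent.Work.NumU.runT [sub (add (add (q 107 1000) (mul (q 64 100) ZE.r)) (mul (mul (mul (q 2 1) pi) ZE.r) (add (q 9 100) (mul (mul (q 4 1) ZE.s) (sub (q 5 2) (mul (q 3 1) ZE.s)))))) (add (add (E.uu (add ZE.x ZE.s) (sub ZE.y ZE.h)) (E.uu (sub (add (q 1 1) ZE.x) ZE.s) (add ZE.y ZE.h))) (add (neg (E.uu (add ZE.x (q 225 1000)) (add ZE.y (mul (q 9 10) ZE.r)))) (neg (E.uu (add ZE.x (q 775 1000)) (sub ZE.y (mul (q 9 10) ZE.r)))))), sub (sub ZE.x ZE.s) (q (-300) 10000), sub ZE.y (mul (q 56 100) ZE.x), sub (neg ZE.y) (mul (q 56 100) ZE.x)] 57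
    1993415161661654601696524112106178906842930691648795197787248098087674562973110938850424793310585505844255142396922591800290544950390330498318637588248675369513623879309328925338811274438500373848149485315056495083353292157992985011517048088253884816678456967821404491949972229294146761052030229784043858707570272764373672077117118997831287334117573067432432746376404339854765541941822897779069272661789883167424812593662354187129323181228265617100098662660286820826950002048860285772573734305511295553466644733234780899696236669635325172500799659268657454271854190537959542164880894443987836729599325949331015303230639001413620231001617310923804575085780428238149715672094035751691595522671197690225732005338198388574242792134515142117319587303066861460688546341457427891324081309876083832399922594739719433262293696244327724196820096424432604145100329832324810302506612271920136960473938365056154626438114590408836766303863287150702152454409720588487582246671191175014752464588078783753523036581761365885540350209430082764732972177725554666667236969306136323556940698903786109598286226199848250072808917517152243702656529580774118753734660574540481594798271279641652405640005752650543530750332629957955047140281725187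
    (Pool.Agent.Work.NumI.setL 1 (Pool.Agent.Work.NumI.setL 2 (Pool.Agent.Work.NumI.setL 0 ([NumI.V.of 10000 0 1700, NumI.V.of 10000 (-560) 560, NumI.V.of 10000 300 2000, NumI.V.of 10000 0 1045])))) =
    921216470680396525917521682332053502520815903045764817273927695306576900853128599153362228153371228174879099360012862499286722761101958387775143321261837015225824774243707725536093578917437184290216199104789056136415292252232605015124969984266614270067355561255935000734592042128108203069975077167509682495250414850140579354289740882946836754857693588667166598288258106055842435412925603517805440448817978073004200849827051075379135407362393290502287187325037289485022444951700573424596450677625709243283258408461609912243315425503918148816551553294787944974936523359609811518543093679101550558977647349424320627777387468769009406315916496156168088237999220934806953358328133002605190385885306273511476329452851352127759628894432868357445564634935732963121050414340507686341272348621473848050294441330564901841029663011384290695284704835171347634139620148449276045767119402954348611520559723249056992437777574984542671816440159621783255643267332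 := by
  decide +kernel

theorem e4a_mD1X1_h1_q2 : Pool.Agent.Work.NumU.runT [sub (add (add (q 107 1000) (mul (q 64 100) ZE.r)) (mul (mul (mul (q 2 1) pi) ZE.r) (add (q 9 100) (mul (mul (q 4 1) ZE.s) (sub (q 5 2) (mul (q 3 1) ZE.s)))))) (add (add (E.uu (add ZE.x ZE.s) (sub ZE.y ZE.h)) (E.uu (sub (add (q 1 1) ZE.x) ZE.s) (add ZE.y ZE.h))) (add (neg (E.uu (add ZE.x (q 225 1000)) (add ZE.y (mul (q 9 10) ZE.r)))) (neg (E.uu (add ZE.x (q 775 1000)) (sub ZE.y (mul (q 9 10) ZE.r)))))), sub (sub ZE.x ZE.s) (q (-300) 10000), sub ZE.y (mul (q 56 100) ZE.x), sub (neg ZE.y) (mul (q 56 100) ZE.x)] 57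
    921216470680396525917521682332053502520815903045764817273927695306576900853128599153362228153371228174879099360012862499286722761101958387775143321261837015225824774243707725536093578917437184290216199104789056136415292252232605015124969984266614270067355561255935000734592042128108203069975077167509682495250414850140579354289740882946836754857693588667166598288258106055842435412925603517805440448817978073004200849827051075379135407362393290502287187325037289485022444951700573424596450677625709243283258408461609912243315425503918148816551553294787944974936523359609811518543093679101550558977647349424320627777387468769009406315916496156168088237999220934806953358328133002605190385885306273511476329452851352127759628894432868357445564634935732963121050414340507686341272348621473848050294441330564901841029663011384290695284704835171347634139620148449276045767119402954348611520559723249056992437777574984542671816440159621783255643267331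
    (Pool.Agent.Work.NumI.setR 1 (Pool.Agent.Work.NumI.setL 2 (Pool.Agent.Work.NumI.setL 0 ([NumI.V.of 10000 0 1700, NumI.V.of 10000 (-560) 560, NumI.V.of 10000 300 2000, NumI.V.of 10000 0 1045])))) =
    131754437063938960907364202552867764268303301422810417514914812821169470660183036050909363961228000981092281525212498745139729656382915916147628564990032241071438437060991063532749909026568490243559950623591698529579519478923497265597566699253049683600568393994190343029479018842405672963205850098874847500727579881899513575281768717067299935763988847484366334735498895032082273452542734459855927332996390147092490946619064231073787128462907632575544790167046519649048195531186284176901284063273300302706360682729385217076157035332759011465600807952034890803988098062010649958604109337673794914253610387878757429021797517775417007406661678043653982472062232183063684176557376503787411501808024097539 := by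
  decide +kernel

theorem e4a_mD1X1_h1_q3 : Pool.Agent.Work.NumU.runT [sub (add (add (q 107 1000) (mul (q 64 100) ZE.r)) (mul (mul (mul (q 2 1) pi) ZE.r) (add (q 9 100) (mul (mul (q 4 1) ZE.s) (sub (q 5 2) (mul (q 3 1) ZE.s)))))) (add (add (E.uu (add ZE.x ZE.s) (sub ZE.y ZE.h)) (E.uu (sub (add (q 1 1) ZE.x) ZE.s) (add ZE.y ZE.h))) (add (neg (E.uu (add ZE.x (q 225 1000)) (add ZE.y (mul (q 9 10) ZE.r)))) (neg (E.uu (add ZE.x (q 775 1000)) (sub ZE.y (mul (q 9 10) ZE.r)))))), sub (sub ZE.x ZE.s) (q (-300) 10000), sub ZE.y (mul (q 56 100) ZE.x), sub (neg ZE.y) (mul (q 56 100) ZE.x)] 58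
    131754437063938960907364202552867764268303301422810417514914812821169470660183036050909363961228000981092281525212498745139729656382915916147628564990032241071438437060991063532749909026568490243559950623591698529579519478923497265597566699253049683600568393994190343029479018842405672963205850098874847500727579881899513575281768717067299935763988847484366334735498895032082273452542734459855927332996390147092490946619064231073787128462907632575544790167046519649048195531186284176901284063273300302706360682729385217076157035332759011465600807952034890803988098062010649958604109337673794914253610387878757429021797517775417007406661678043653982472062232183063684176557376503787411501808024097538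
    (Pool.Agent.Work.NumI.setR 2 (Pool.Agent.Work.NumI.setL 0 ([NumI.V.of 10000 0 1700, NumI.V.of 10000 (-560) 560, NumI.V.of 10000 300 2000, NumI.V.of 10000 0 1045]))) =
    6195063858577234600344303935313005279697331443928613214266338514704034223792054268865544063820878397650351694730587732780966338779480666149018656310990076755014390544394391696043730150626226773499958134952512372456439490385602620537723933879453491776984589699903096478420723785520851670150113515573017081889756244798987967232454153365452153800837213898739749369715679155493337044811911053824612007252924949317718992947691791324546669780056558809252832847605018228800923906210386571588786505265928629565579778512811920576134809124560004961996306093252709860456928710533627471373475428803724493191049444702772035623940875926314157505422031949437928688009153253891 := by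
  decide +kernel

theorem e4a_mD1X1_h1_q4 : Pool.Agent.Work.NumU.runT [sub (add (add (q 107 1000) (mul (q 64 100) ZE.r)) (mul (mul (mul (q 2 1) pi) ZE.r) (add (q 9 100) (mul (mul (q 4 1) ZE.s) (sub (q 5 2) (mul (q 3 1) ZE.s)))))) (add (add (E.uu (add ZE.x ZE.s) (sub ZE.y ZE.h)) (E.uu (sub (add (q 1 1) ZE.x) ZE.s) (add ZE.y ZE.h))) (add (neg (E.uu (add ZE.x (q 225 1000)) (add ZE.y (mul (q 9 10) ZE.r)))) (neg (E.uu (add ZE.x (q 775 1000)) (sub ZE.y (mul (q 9 10) ZE.r)))))), sub (sub ZE.x ZE.s) (q (-300) 10000), sub ZE.y (mul (q 56 100) ZE.x), sub (neg ZE.y) (mul (q 56 100) ZE.x)] 58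
    387191491161077162521518995957062829981083215245538325891646157169002138987003391804096503988804899853146980920661733298810396173717541634313666019436879797188399409024649481002733134414139173343747383434532023278527468149100163783607745867465843236061536856243943529901295236595053229384382094723313567618109765299936747952028384585340759612552325868671234335607229947218333565300744440864038250453307809332357437059230736957784166861253534925578302052975313639300057744138149160724299156579120539347848736157050745036008425570285000310124769130828294366278558044408351716960842214300232780824440590293923252226496304745394634844088876996839870543000572078368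
    (Pool.Agent.Work.NumI.setL 2 (Pool.Agent.Work.NumI.setR 0 ([NumI.V.of 10000 0 1700, NumI.V.of 10000 (-560) 560, NumI.V.of 10000 300 2000, NumI.V.of 10000 0 1045]))) =
    20017330927121250497536102478904825988070836815373978447517857743625041916090947511802225411075043170168552533788667277045363812934976557263934267211757980805603778035494239075439582863433379991688286912309565170689485115191830885748512917776977321962474115772561069382694066829376564844538239279302956553716298111072493490502883017267169871829503952012160070932698399530054929438187185505254766105637251362932905941979557676112809683478531170973686787412397872181389540397177844849342825141387634542226210895632094387693142246729574437591942201295325677558049366613039354222133635282539582375346336057054179472355050788124107169931314 := by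
  decide +kernel

theorem e4a_mD1X1_h1_q5 : Pool.Agent.Work.NumU.runT [sub (add (add (q 107 1000) (mul (q 64 100) ZE.r)) (mul (mul (mul (q 2 1) pi) ZE.r) (add (q 9 100) (mul (mul (q 4 1) ZE.s) (sub (q 5 2) (mul (q 3 1) ZE.s)))))) (add (add (E.uu (add ZE.x ZE.s) (sub ZE.y ZE.h)) (E.uu (sub (add (q 1 1) ZE.x) ZE.s) (add ZE.y ZE.h))) (add (neg (E.uu (add ZE.x (q 225 1000)) (add ZE.y (mul (q 9 10) ZE.r)))) (neg (E.uu (add ZE.x (q 775 1000)) (sub ZE.y (mul (q 9 10) ZE.r)))))), sub (sub ZE.x ZE.s) (q (-300) 10000), sub ZE.y (mul (q 56 100) ZE.x), sub (neg ZE.y) (mul (q 56 100) ZE.x)] 57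
    1251083182945078156096006404931551624254427300960873652969866108976565119755684219487639088192190198135534533361791704815335238308436034828995891700734873800350236127218389942214973928964586249480517932019347823168092819699489430359282057361061082622654632235785066836418379176836035302783639954956434784607268631942030843156430188579198116989343997000760004433293649970628433089886699094078422881602328210183306621373722354757050605217408198185855424213274867011336846274823615303083926571336727158889138180977005899230821390420598402349496387580957854847378085413314959638883352205158723898459146003565886217022190674257756698120707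
    (Pool.Agent.Work.NumI.setL 1 (Pool.Agent.Work.NumI.setR 2 (Pool.Agent.Work.NumI.setR 0 ([NumI.V.of 10000 0 1700, NumI.V.of 10000 (-560) 560, NumI.V.of 10000 300 2000, NumI.V.of 10000 0 1045])))) =
    1278236453291899369117728380826144866845695036486834621966279988419460587564931808479730175641196027411932460649396684142245321624496594752890224541038688552033476361881128153553581199398135365180580159931714707335516108344692701332341612633521673353886938161321634977566640011821126148 := by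
  decide +kernel

theorem e4a_mD1X1_h1_q6 : Pool.Agent.Work.NumU.runT [sub (add (add (q 107 1000) (mul (q 64 100) ZE.r)) (mul (mul (mul (q 2 1) pi) ZE.r) (add (q 9 100) (mul (mul (q 4 1) ZE.s) (sub (q 5 2) (mul (q 3 1) ZE.s)))))) (add (add (E.uu (add ZE.x ZE.s) (sub ZE.y ZE.h)) (E.uu (sub (add (q 1 1) ZE.x) ZE.s) (add ZE.y ZE.h))) (add (neg (E.uu (add ZE.x (q 225 1000)) (add ZE.y (mul (q 9 10) ZE.r)))) (neg (E.uu (add ZE.x (q 775 1000)) (sub ZE.y (mul (q 9 10) ZE.r)))))), sub (sub ZE.x ZE.s) (q (-300) 10000), sub ZE.y (mul (q 56 100) ZE.x), sub (neg ZE.y) (mul (q 56 100) ZE.x)] 57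
    1278236453291899369117728380826144866845695036486834621966279988419460587564931808479730175641196027411932460649396684142245321624496594752890224541038688552033476361881128153553581199398135365180580159931714707335516108344692701332341612633521673353886938161321634977566640011821126147
    (Pool.Agent.Work.NumI.setR 1 (Pool.Agent.Work.NumI.setR 2 (Pool.Agent.Work.NumI.setR 0 ([NumI.V.of 10000 0 1700, NumI.V.of 10000 (-560) 560, NumI.V.of 10000 300 2000, NumI.V.of 10000 0 1045])))) =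
    1 := by
  decide +kernel

theorem e4a_mD1X1 {x y s r : ℝ} (ua1 : 0 / 10000 ≤ x) (ua2 : x ≤ 1700 / 10000) (ua3 : -(560 / 10000) ≤ y) (ua4 : y ≤ 560 / 10000) (ua5 : 300 / 10000 ≤ s) (ua6 : s ≤ 2000 / 10000) (ua7 : 0 / 10000 ≤ r) (ua8 : r ≤ 1045 / 10000) (ua9 : x - s ≤ -(300 / 10000)) (ua10 : y ≤ 56 / 100 * x) (ua11 : -y ≤ 56 / 100 * x) :
    NumU.uu (x + s) (y - 4 * (r * s)) + NumU.uu (1 + x - s) (y + 4 * (r * s)) + (-NumU.uu (x + 225 / 1000) (y + 9 / 10 * r) + -NumU.uu (x + 775 / 1000) (y - 9 / 10 * r)) < (107 / 1000 + 64 / 100 * r + 2 * Real.pi * r * (9 / 100 + 4 * s * (5 / 2 - 3 * s))) := by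
  have h : chkT [sub (add (add (q 107 1000) (mul (q 64 100) ZE.r)) (mul (mul (mul (q 2 1) pi) ZE.r) (add (q 9 100) (mul (mul (q 4 1) ZE.s) (sub (q 5 2) (mul (q 3 1) ZE.s)))))) (add (add (E.uu (add ZE.x ZE.s) (sub ZE.y ZE.h)) (E.uu (sub (add (q 1 1) ZE.x) ZE.s) (add ZE.y ZE.h))) (add (neg (E.uu (add ZE.x (q 225 1000)) (add ZE.y (mul (q 9 10) ZE.r)))) (neg (E.uu (add ZE.x (q 775 1000)) (sub ZE.y (mul (q 9 10) ZE.r)))))), sub (sub ZE.x ZE.s) (q (-300) 10000), sub ZE.y (mul (q 56 100) ZE.x), sub (neg ZE.y) (mul (q 56 100) ZE.x)] 60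
    8165028502166137248548962763186908802428644112993465130136568209767115009937862405531339953400158231938069063257794936013990072116798793721113139561466574313527803409651011278187770980100097531282020291850471403861415084679139266607173828969487912209114959740196472799027086251188825133269115821195443645266207837242874560827871719415116952920545579284203244529157752176045119659793706589303067740822691361453772032383641002750481707750310975967642004122256534818107187208392131730524462015715374266586999376827329662565155785398826291906563275404364420932697514764443482284707352143642574179244438839088459838682032697349790188466182624505543903539551356634063461235392897170438928775260861225739164598293865260599600098476582974022112541029593361864542980285814609624642863437045252439377510082948053890798642354979816766358310175114954475946578330950993202422999067083865784880990101251543270009349890517362314595394780624024169276016453262215530445136882365199052860426094952770698254430357838894554667173274457825619004346254039963871914669002626277934381289229102709907904914580382514578432298225326150255590206081145162850790415297169713317812612293719161412208253501463562856626301953362452307783873086593946366240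
    [NumI.V.of 10000 0 1700, NumI.V.of 10000 (-560) 560, NumI.V.of 10000 300 2000, NumI.V.of 10000 0 1045] = true :=
      Pool.Agent.Work.NumU.chkT_of (Pool.Agent.Work.NumU.runT_split rfl rfl rfl
        (Pool.Agent.Work.NumU.runT_split rfl rfl rfl
          (Pool.Agent.Work.NumU.runT_split rfl rfl rfl
            e4a_mD1X1_h1_q1
            e4a_mD1X1_h1_q2)
          e4a_mD1X1_h1_q3)
        (Pool.Agent.Work.NumU.runT_split rfl rfl rfl
          e4a_mD1X1_h1_q4
          (Pool.Agent.Work.NumU.runT_split rfl rfl rfl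
            e4a_mD1X1_h1_q5
            e4a_mD1X1_h1_q6)))
  obtain ⟨f, hf, hp⟩ := chkT4 h (by norm_num) (x := x) (y := y) (z := s) (w := r)
    (by norm_num; linarith only [ua1]) (by norm_num; linarith only [ua2]) (by norm_num; linarith only [ua3]) (by norm_num; linarith only [ua4]) (by norm_num; linarith only [ua5]) (by norm_num; linarith only [ua6]) (by norm_num; linarith only [ua7]) (by norm_num; linarith only [ua8])
  by_contra hc
  push Not at hc
  simp only [List.mem_cons, List.not_mem_nil, or_false] at hf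
  rcases hf with rfl | rfl | rfl | rfl
  · simp only [ZE.x, ZE.y, ZE.s, ZE.r, ZE.h, E.val, NumI.lkR] at hp
    push_cast at hp
    linarith only [hc, hp]
  · simp only [ZE.x, ZE.y, ZE.s, ZE.r, ZE.h, E.val, NumI.lkR] at hp
    push_cast at hp
    linarith only [ua9, hp]
  · simp only [ZE.x, ZE.y, ZE.s, ZE.r, ZE.h, E.val, NumI.lkR] at hp
    push_cast at hp
    linarith only [ua10, hp]
  · simp only [ZE.x, ZE.y, ZE.s, ZE.r, ZE.h, E.val, NumI.lkR] at hp
    push_cast at hp
    linarith only [ua11, hp]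

theorem e4a_mD2X1 {x y s r : ℝ} (ua1 : 0 / 10000 ≤ x) (ua2 : x ≤ 1950 / 10000) (ua3 : -(560 / 10000) ≤ y) (ua4 : y ≤ 560 / 10000) (ua5 : 300 / 10000 ≤ s) (ua6 : s ≤ 2000 / 10000) (ua7 : 0 / 10000 ≤ r) (ua8 : r ≤ 1045 / 10000) (ua9 : -(300 / 10000) ≤ x - s) (ua10 : x - s ≤ 0) (ua11 : y ≤ 56 / 100 * x) (ua12 : -y ≤ 56 / 100 * x) :
    NumU.uu (x + s) (y - 4 * (r * s)) + (((300 / 10000) + (x - s)) * NumI.lnA (300 / 10000) (y + 4 * (r * s)) - NumU.uu (300 / 10000) (y + 4 * (r * s))) + (-NumU.uu (x + 225 / 1000) (y + 9 / 10 * r) + -NumU.uu (x + 775 / 1000) (y - 9 / 10 * r)) < (107 / 1000 + 64 / 100 * r + 2 * Real.pi * r * (9 / 100 + 4 * s * (5 / 2 - 3 * s))) := by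
  have h : chkT [sub (add (add (q 107 1000) (mul (q 64 100) ZE.r)) (mul (mul (mul (q 2 1) pi) ZE.r) (add (q 9 100) (mul (mul (q 4 1) ZE.s) (sub (q 5 2) (mul (q 3 1) ZE.s)))))) (add (add (E.uu (add ZE.x ZE.s) (sub ZE.y ZE.h)) (sub (mul (add (q 300 10000) (sub ZE.x ZE.s)) (E.lnA (q 300 10000) (add ZE.y ZE.h))) (E.uu (q 300 10000) (add ZE.y ZE.h)))) (add (neg (E.uu (add ZE.x (q 225 1000)) (add ZE.y (mul (q 9 10) ZE.r)))) (neg (E.uu (add ZE.x (q 775 1000)) (sub ZE.y (mul (q 9 10) ZE.r)))))), sub (q (-300) 10000) (sub ZE.x ZE.s), sub ZE.x ZE.s, sub ZE.y (mul (q 56 100) ZE.x), sub (neg ZE.y) (mul (q 56 100) ZE.x)] 60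
    489854833390723234103844112848378251875696506631687770509113336480741790159196765846146561319542215606548687490479249632491243678764054649139236653516050246073909792
    [NumI.V.of 10000 0 1950, NumI.V.of 10000 (-560) 560, NumI.V.of 10000 300 2000, NumI.V.of 10000 0 1045] = true := by
    decide +kernel
  obtain ⟨f, hf, hp⟩ := chkT4 h (by norm_num) (x := x) (y := y) (z := s) (w := r)
    (by norm_num; linarith only [ua1]) (by norm_num; linarith only [ua2]) (by norm_num; linarith only [ua3]) (by norm_num; linarith only [ua4]) (by norm_num; linarith only [ua5]) (by norm_num; linarith only [ua6]) (by norm_num; linarith only [ua7]) (by norm_num; linarith only [ua8])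
  by_contra hc
  push Not at hc
  simp only [List.mem_cons, List.not_mem_nil, or_false] at hf
  rcases hf with rfl | rfl | rfl | rfl | rfl
  · simp only [ZE.x, ZE.y, ZE.s, ZE.r, ZE.h, E.val, NumI.lkR] at hp
    push_cast at hp
    linarith only [hc, hp]
  · simp only [ZE.x, ZE.y, ZE.s, ZE.r, ZE.h, E.val, NumI.lkR] at hp
    push_cast at hp
    linarith only [ua9, hp]
  · simp only [ZE.x, ZE.y, ZE.s, ZE.r, ZE.h, E.val, NumI.lkR] at hp
    push_cast at hp
    linarith only [ua10, hp]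
  · simp only [ZE.x, ZE.y, ZE.s, ZE.r, ZE.h, E.val, NumI.lkR] at hp
    push_cast at hp
    linarith only [ua11, hp]
  · simp only [ZE.x, ZE.y, ZE.s, ZE.r, ZE.h, E.val, NumI.lkR] at hp
    push_cast at hp
    linarith only [ua12, hp]

theorem e4a_mD2X2 {x y s r : ℝ} (ua1 : 1950 / 10000 ≤ x) (ua2 : x ≤ 2000 / 10000) (ua3 : -(560 / 10000) ≤ y) (ua4 : y ≤ 560 / 10000) (ua5 : 1950 / 10000 ≤ s) (ua6 : s ≤ 2000 / 10000) (ua7 : 0 / 10000 ≤ r) (ua8 : r ≤ 1045 / 10000) (ua9 : -(300 / 10000) ≤ x - s) (ua10 : x - s ≤ 0) :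
    NumU.uu (x + s) (y - 4 * (r * s)) + (((300 / 10000) + (x - s)) * NumI.lnA (300 / 10000) (y + 4 * (r * s)) - NumU.uu (300 / 10000) (y + 4 * (r * s))) + (-NumU.uu (x + 225 / 1000) (y + 9 / 10 * r) + ((100 / 3) * (225 / 1000 - x) * NumU.uu (300 / 10000) (y - 9 / 10 * r) - Real.pi * (1 / 2) * (y - 9 / 10 * r) * (1 - (100 / 3) * (225 / 1000 - x)))) < (107 / 1000 + 64 / 100 * r + 2 * Real.pi * r * (9 / 100 + 4 * s * (5 / 2 - 3 * s))) ∨ NumU.uu (x + s) (y - 4 * (r * s)) + (((300 / 10000) + (x - s)) * NumI.lnA (300 / 10000) (y + 4 * (r * s)) - NumU.uu (300 / 10000) (y + 4 * (r * s))) + (-NumU.uu (x + 225 / 1000) (y + 9 / 10 * r) + ((100 / 3) * (225 / 1000 - x) * NumU.uu (300 / 10000) (y - 9 / 10 * r) - Real.pi * (1 / 2) * -(y - 9 / 10 * r) * (1 - (100 / 3) * (225 / 1000 - x)))) < (107 / 1000 + 64 / 100 * r + 2 * Real.pi * r * (9 / 100 + 4 * s * (5 / 2 - 3 * s))) := by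
  have h : chkT [sub (add (add (q 107 1000) (mul (q 64 100) ZE.r)) (mul (mul (mul (q 2 1) pi) ZE.r) (add (q 9 100) (mul (mul (q 4 1) ZE.s) (sub (q 5 2) (mul (q 3 1) ZE.s)))))) (add (add (E.uu (add ZE.x ZE.s) (sub ZE.y ZE.h)) (sub (mul (add (q 300 10000) (sub ZE.x ZE.s)) (E.lnA (q 300 10000) (add ZE.y ZE.h))) (E.uu (q 300 10000) (add ZE.y ZE.h)))) (add (neg (E.uu (add ZE.x (q 225 1000)) (add ZE.y (mul (q 9 10) ZE.r)))) (sub (mul (mul (q 100 3) (sub (q 225 1000) ZE.x)) (E.uu (q 300 10000) (sub ZE.y (mul (q 9 10) ZE.r)))) (mul (mul (mul pi (q 1 2)) (sub ZE.y (mul (q 9 10) ZE.r))) (sub (q 1 1) (mul (q 100 3) (sub (q 225 1000) ZE.x))))))), sub (add (add (q 107 1000) (mul (q 64 100) ZE.r)) (mul (mul (mul (q 2 1) pi) ZE.r) (add (q 9 100) (mul (mul (q 4 1) ZE.s) (sub (q 5 2) (mul (q 3 1) ZE.s)))))) (add (add (E.uu (add ZE.x ZE.s) (sub ZE.y ZE.h)) (sub (mul (add (q 300 10000) (sub ZE.x ZE.s)) (E.lnA (q 300 10000) (add ZE.y ZE.h))) (E.uu (q 300 10000) (add ZE.y ZE.h))))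 (add (neg (E.uu (add ZE.x (q 225 1000)) (add ZE.y (mul (q 9 10) ZE.r)))) (sub (mul (mul (q 100 3) (sub (q 225 1000) ZE.x)) (E.uu (q 300 10000) (sub ZE.y (mul (q 9 10) ZE.r)))) (mul (mul (mul pi (q 1 2)) (neg (sub ZE.y (mul (q 9 10) ZE.r)))) (sub (q 1 1) (mul (q 100 3) (sub (q 225 1000) ZE.x))))))), sub (q (-300) 10000) (sub ZE.x ZE.s), sub ZE.x ZE.s] 60
    36643045651
    [NumI.V.of 10000 1950 2000, NumI.V.of 10000 (-560) 560, NumI.V.of 10000 1950 2000, NumI.V.of 10000 0 1045] = true := by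
    decide +kernel
  obtain ⟨f, hf, hp⟩ := chkT4 h (by norm_num) (x := x) (y := y) (z := s) (w := r)
    (by norm_num; linarith only [ua1]) (by norm_num; linarith only [ua2]) (by norm_num; linarith only [ua3]) (by norm_num; linarith only [ua4]) (by norm_num; linarith only [ua5]) (by norm_num; linarith only [ua6]) (by norm_num; linarith only [ua7]) (by norm_num; linarith only [ua8])
  by_contra hc
  push Not at hc
  obtain ⟨hc0, hc1⟩ := hc
  simp only [List.mem_cons, List.not_mem_nil, or_false] at hf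
  rcases hf with rfl | rfl | rfl | rfl
  · simp only [ZE.x, ZE.y, ZE.s, ZE.r, ZE.h, E.val, NumI.lkR] at hp
    push_cast at hp
    linarith only [hc0, hp]
  · simp only [ZE.x, ZE.y, ZE.s, ZE.r, ZE.h, E.val, NumI.lkR] at hp
    push_cast at hp
    linarith only [hc1, hp]
  · simp only [ZE.x, ZE.y, ZE.s, ZE.r, ZE.h, E.val, NumI.lkR] at hp
    push_cast at hp
    linarith only [ua1, ua6, hp]
  · simp only [ZE.x, ZE.y, ZE.s, ZE.r, ZE.h, E.val, NumI.lkR] at hp
    push_cast at hp
    linarith only [ua10, hp]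

theorem e4a_mD3X1p {x y s r : ℝ} (ua1 : 300 / 10000 ≤ x) (ua2 : x ≤ 1950 / 10000) (ua3 : -(560 / 10000) ≤ y) (ua4 : y ≤ 560 / 10000) (ua5 : 0 / 10000 ≤ s) (ua6 : s ≤ 1950 / 10000) (ua7 : 0 / 10000 ≤ r) (ua8 : r ≤ 1045 / 10000) (ua9 : 0 ≤ x - s) (ua10 : x - s ≤ 300 / 10000) (ua11 : 0 ≤ (y + 4 * (r * s))) (ua12 : y ≤ 56 / 100 * x) (ua13 : -y ≤ 56 / 100 * x) :
    NumU.uu (x + s) (y - 4 * (r * s)) + (Real.pi * (1 / 2) * (y + 4 * (r * s)) * (1 + (100 / 3) * (x - s)) + (100 / 3) * (x - s) * NumU.uu (300 / 10000) (y + 4 * (r * s))) + (-NumU.uu (x + 225 / 1000) (y + 9 / 10 * r) + -NumU.uu (x + 775 / 1000) (y - 9 / 10 * r)) < (107 / 1000 + 64 / 100 * r + 2 * Real.pi * r * (9 / 100 + 4 * s * (5 / 2 - 3 * s))) := by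
  have h : chkT [sub (add (add (q 107 1000) (mul (q 64 100) ZE.r)) (mul (mul (mul (q 2 1) pi) ZE.r) (add (q 9 100) (mul (mul (q 4 1) ZE.s) (sub (q 5 2) (mul (q 3 1) ZE.s)))))) (add (add (E.uu (add ZE.x ZE.s) (sub ZE.y ZE.h)) (add (mul (mul (mul pi (q 1 2)) (add ZE.y ZE.h)) (add (q 1 1) (mul (q 100 3) (sub ZE.x ZE.s)))) (mul (mul (q 100 3) (sub ZE.x ZE.s)) (E.uu (q 300 10000) (add ZE.y ZE.h))))) (add (neg (E.uu (add ZE.x (q 225 1000)) (add ZE.y (mul (q 9 10) ZE.r)))) (neg (E.uu (add ZE.x (q 775 1000)) (sub ZE.y (mul (q 9 10) ZE.r)))))), sub ZE.s ZE.x, sub (sub ZE.x ZE.s) (q 300 10000), neg (add ZE.y ZE.h), sub ZE.y (mul (q 56 100) ZE.x), sub (neg ZE.y) (mul (q 56 100) ZE.x)] 60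
    538817142780139377247051775236085134774138677677553609973894158733214453568470114645897783059724309309540250881027927384904063457079189862281125021554088740940302983345499865632
    [NumI.V.of 10000 300 1950, NumI.V.of 10000 (-560) 560, NumI.V.of 10000 0 1950, NumI.V.of 10000 0 1045] = true := by
    decide +kernel
  obtain ⟨f, hf, hp⟩ := chkT4 h (by norm_num) (x := x) (y := y) (z := s) (w := r)
    (by norm_num; linarith only [ua1]) (by norm_num; linarith only [ua2]) (by norm_num; linarith only [ua3]) (by norm_num; linarith only [ua4]) (by norm_num; linarith only [ua5]) (by norm_num; linarith only [ua6]) (by norm_num; linarith only [ua7]) (by norm_num; linarith only [ua8])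
  by_contra hc
  push Not at hc
  simp only [List.mem_cons, List.not_mem_nil, or_false] at hf
  rcases hf with rfl | rfl | rfl | rfl | rfl | rfl
  · simp only [ZE.x, ZE.y, ZE.s, ZE.r, ZE.h, E.val, NumI.lkR] at hp
    push_cast at hp
    linarith only [hc, hp]
  · simp only [ZE.x, ZE.y, ZE.s, ZE.r, ZE.h, E.val, NumI.lkR] at hp
    push_cast at hp
    linarith only [ua9, hp]
  · simp only [ZE.x, ZE.y, ZE.s, ZE.r, ZE.h, E.val, NumI.lkR] at hp
    push_cast at hp
    linarith only [ua10, hp]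
  · simp only [ZE.x, ZE.y, ZE.s, ZE.r, ZE.h, E.val, NumI.lkR] at hp
    push_cast at hp
    linarith only [ua11, hp]
  · simp only [ZE.x, ZE.y, ZE.s, ZE.r, ZE.h, E.val, NumI.lkR] at hp
    push_cast at hp
    linarith only [ua12, hp]
  · simp only [ZE.x, ZE.y, ZE.s, ZE.r, ZE.h, E.val, NumI.lkR] at hp
    push_cast at hp
    linarith only [ua13, hp]

theorem e4a_mD3X2p {x y s r : ℝ} (ua1 : 1950 / 10000 ≤ x) (ua2 : x ≤ 2250 / 10000) (ua3 : -(560 / 10000) ≤ y) (ua4 : y ≤ 560 / 10000) (ua5 : 1650 / 10000 ≤ s) (ua6 : s ≤ 2000 / 10000) (ua7 : 0 / 10000 ≤ r) (ua8 : r ≤ 1045 / 10000) (ua9 : 0 ≤ x - s) (ua10 : x - s ≤ 300 / 10000) (ua11 : 0 ≤ (y + 4 * (r * s))) :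
    NumU.uu (x + s) (y - 4 * (r * s)) + (Real.pi * (1 / 2) * (y + 4 * (r * s)) * (1 + (100 / 3) * (x - s)) + (100 / 3) * (x - s) * NumU.uu (300 / 10000) (y + 4 * (r * s))) + (-NumU.uu (x + 225 / 1000) (y + 9 / 10 * r) + ((100 / 3) * (225 / 1000 - x) * NumU.uu (300 / 10000) (y - 9 / 10 * r) - Real.pi * (1 / 2) * (y - 9 / 10 * r) * (1 - (100 / 3) * (225 / 1000 - x)))) < (107 / 1000 + 64 / 100 * r + 2 * Real.pi * r * (9 / 100 + 4 * s * (5 / 2 - 3 * s))) ∨ NumU.uu (x + s) (y - 4 * (r * s)) + (Real.pi * (1 / 2) * (y + 4 * (r * s)) * (1 + (100 / 3) * (x - s)) + (100 / 3) * (x - s) * NumU.uu (300 / 10000) (y + 4 * (r * s))) + (-NumU.uu (x + 225 / 1000) (y + 9 / 10 * r) + ((100 / 3) * (225 / 1000 - x) * NumU.uu (300 / 10000) (y - 9 / 10 * r) - Real.pi * (1 / 2) * -(y - 9 / 10 * r) * (1 - (100 / 3) * (225 / 1000 - x)))) < (107 / 1000 + 64 / 100 * r + 2 * Real.pi * r * (9 / 100 + 4 * s * (5 / 2 - 3 * s))) := by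
  have h : chkT [sub (add (add (q 107 1000) (mul (q 64 100) ZE.r)) (mul (mul (mul (q 2 1) pi) ZE.r) (add (q 9 100) (mul (mul (q 4 1) ZE.s) (sub (q 5 2) (mul (q 3 1) ZE.s)))))) (add (add (E.uu (add ZE.x ZE.s) (sub ZE.y ZE.h)) (add (mul (mul (mul pi (q 1 2)) (add ZE.y ZE.h)) (add (q 1 1) (mul (q 100 3) (sub ZE.x ZE.s)))) (mul (mul (q 100 3) (sub ZE.x ZE.s)) (E.uu (q 300 10000) (add ZE.y ZE.h))))) (add (neg (E.uu (add ZE.x (q 225 1000)) (add ZE.y (mul (q 9 10) ZE.r)))) (sub (mul (mul (q 100 3) (sub (q 225 1000) ZE.x)) (E.uu (q 300 10000) (sub ZE.y (mul (q 9 10) ZE.r)))) (mul (mul (mul pi (q 1 2)) (sub ZE.y (mul (q 9 10) ZE.r))) (sub (q 1 1) (mul (q 100 3) (sub (q 225 1000) ZE.x))))))), sub (add (add (q 107 1000) (mul (q 64 100) ZE.r)) (mul (mul (mul (q 2 1) pi) ZE.r) (add (q 9 100) (mul (mul (q 4 1) ZE.s) (sub (q 5 2) (mul (q 3 1) ZE.s)))))) (add (add (E.uu (add ZE.x ZE.s) (sub ZE.y ZE.h)) (add (mul (mul (mul pi (q 1 2)) (add ZE.y ZE.h)) (add (q 1 1) (mul (q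 100 3) (sub ZE.x ZE.s)))) (mul (mul (q 100 3) (sub ZE.x ZE.s)) (E.uu (q 300 10000) (add ZE.y ZE.h))))) (add (neg (E.uu (add ZE.x (q 225 1000)) (add ZE.y (mul (q 9 10) ZE.r)))) (sub (mul (mul (q 100 3) (sub (q 225 1000) ZE.x)) (E.uu (q 300 10000) (sub ZE.y (mul (q 9 10) ZE.r)))) (mul (mul (mul pi (q 1 2)) (neg (sub ZE.y (mul (q 9 10) ZE.r)))) (sub (q 1 1) (mul (q 100 3) (sub (q 225 1000) ZE.x))))))), sub ZE.s ZE.x, sub (sub ZE.x ZE.s) (q 300 10000), neg (add ZE.y ZE.h)] 60
    612921112879403283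
    [NumI.V.of 10000 1950 2250, NumI.V.of 10000 (-560) 560, NumI.V.of 10000 1650 2000, NumI.V.of 10000 0 1045] = true := by
    decide +kernel
  obtain ⟨f, hf, hp⟩ := chkT4 h (by norm_num) (x := x) (y := y) (z := s) (w := r)
    (by norm_num; linarith only [ua1]) (by norm_num; linarith only [ua2]) (by norm_num; linarith only [ua3]) (by norm_num; linarith only [ua4]) (by norm_num; linarith only [ua5]) (by norm_num; linarith only [ua6]) (by norm_num; linarith only [ua7]) (by norm_num; linarith only [ua8])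
  by_contra hc
  push Not at hc
  obtain ⟨hc0, hc1⟩ := hc
  simp only [List.mem_cons, List.not_mem_nil, or_false] at hf
  rcases hf with rfl | rfl | rfl | rfl | rfl
  · simp only [ZE.x, ZE.y, ZE.s, ZE.r, ZE.h, E.val, NumI.lkR] at hp
    push_cast at hp
    linarith only [hc0, hp]
  · simp only [ZE.x, ZE.y, ZE.s, ZE.r, ZE.h, E.val, NumI.lkR] at hp
    push_cast at hp
    linarith only [hc1, hp]
  · simp only [ZE.x, ZE.y, ZE.s, ZE.r, ZE.h, E.val, NumI.lkR] at hp
    push_cast at hp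
    linarith only [ua9, hp]
  · simp only [ZE.x, ZE.y, ZE.s, ZE.r, ZE.h, E.val, NumI.lkR] at hp
    push_cast at hp
    linarith only [ua10, hp]
  · simp only [ZE.x, ZE.y, ZE.s, ZE.r, ZE.h, E.val, NumI.lkR] at hp
    push_cast at hp
    linarith only [ua11, hp]

theorem e4a_mD3X3p {x y s r : ℝ} (ua1 : 2250 / 10000 ≤ x) (ua2 : x ≤ 2300 / 10000) (ua3 : -(560 / 10000) ≤ y) (ua4 : y ≤ 560 / 10000) (ua5 : 1950 / 10000 ≤ s) (ua6 : s ≤ 2000 / 10000) (ua7 : 0 / 10000 ≤ r) (ua8 : r ≤ 1045 / 10000) (ua9 : 0 ≤ x - s) (ua10 : x - s ≤ 300 / 10000) (ua11 : 0 ≤ (y + 4 * (r * s))) :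
    NumU.uu (x + s) (y - 4 * (r * s)) + (Real.pi * (1 / 2) * (y + 4 * (r * s)) * (1 + (100 / 3) * (x - s)) + (100 / 3) * (x - s) * NumU.uu (300 / 10000) (y + 4 * (r * s))) + (-NumU.uu (x + 225 / 1000) (y + 9 / 10 * r) + (((300 / 10000) - (x - 225 / 1000)) * NumI.lnA (300 / 10000) (y - 9 / 10 * r) - NumU.uu (300 / 10000) (y - 9 / 10 * r) - Real.pi * (y - 9 / 10 * r))) < (107 / 1000 + 64 / 100 * r + 2 * Real.pi * r * (9 / 100 + 4 * s * (5 / 2 - 3 * s))) ∨ NumU.uu (x + s) (y - 4 * (r * s)) + (Real.pi * (1 / 2) * (y + 4 * (r * s)) * (1 + (100 / 3) * (x - s)) + (100 / 3) * (x - s) * NumU.uu (300 / 10000) (y + 4 * (r * s))) + (-NumU.uu (x + 225 / 1000) (y + 9 / 10 * r) + (((300 / 10000) - (x - 225 / 1000)) * NumI.lnA (300 / 10000) (y - 9 / 10 * r) - NumU.uu (300 / 10000) (y - 9 / 10 * r) - Real.pi * -(y - 9 / 10 * r))) < (107 / 1000 + 64 / 100 * r + 2 * Real.pi * r * (9 / 100 + 4 * s * (5 / 2 - 3 * s))) := by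
  have h : chkT [sub (add (add (q 107 1000) (mul (q 64 100) ZE.r)) (mul (mul (mul (q 2 1) pi) ZE.r) (add (q 9 100) (mul (mul (q 4 1) ZE.s) (sub (q 5 2) (mul (q 3 1) ZE.s)))))) (add (add (E.uu (add ZE.x ZE.s) (sub ZE.y ZE.h)) (add (mul (mul (mul pi (q 1 2)) (add ZE.y ZE.h)) (add (q 1 1) (mul (q 100 3) (sub ZE.x ZE.s)))) (mul (mul (q 100 3) (sub ZE.x ZE.s)) (E.uu (q 300 10000) (add ZE.y ZE.h))))) (add (neg (E.uu (add ZE.x (q 225 1000)) (add ZE.y (mul (q 9 10) ZE.r)))) (sub (sub (mul (sub (q 300 10000) (sub ZE.x (q 225 1000))) (E.lnA (q 300 10000) (sub ZE.y (mul (q 9 10) ZE.r)))) (E.uu (q 300 10000) (sub ZE.y (mul (q 9 10) ZE.r)))) (mul pi (sub ZE.y (mul (q 9 10) ZE.r)))))), sub (add (add (q 107 1000) (mul (q 64 100) ZE.r)) (mul (mul (mul (q 2 1) pi) ZE.r) (add (q 9 100) (mul (mul (q 4 1) ZE.s) (sub (q 5 2) (mul (q 3 1) ZE.s)))))) (add (add (E.uu (add ZE.x ZE.s) (sub ZE.y ZE.h)) (add (mul (mul (mul pi (q 1 2)) (add ZE.y ZE.h)) (add (q 1 1) (mul (q 100 3) (sub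 ZE.x ZE.s)))) (mul (mul (q 100 3) (sub ZE.x ZE.s)) (E.uu (q 300 10000) (add ZE.y ZE.h))))) (add (neg (E.uu (add ZE.x (q 225 1000)) (add ZE.y (mul (q 9 10) ZE.r)))) (sub (sub (mul (sub (q 300 10000) (sub ZE.x (q 225 1000))) (E.lnA (q 300 10000) (sub ZE.y (mul (q 9 10) ZE.r)))) (E.uu (q 300 10000) (sub ZE.y (mul (q 9 10) ZE.r)))) (mul pi (neg (sub ZE.y (mul (q 9 10) ZE.r))))))), sub ZE.s ZE.x, sub (sub ZE.x ZE.s) (q 300 10000), neg (add ZE.y ZE.h)] 60
    159914259
    [NumI.V.of 10000 2250 2300, NumI.V.of 10000 (-560) 560, NumI.V.of 10000 1950 2000, NumI.V.of 10000 0 1045] = true := by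
    decide +kernel
  obtain ⟨f, hf, hp⟩ := chkT4 h (by norm_num) (x := x) (y := y) (z := s) (w := r)
    (by norm_num; linarith only [ua1]) (by norm_num; linarith only [ua2]) (by norm_num; linarith only [ua3]) (by norm_num; linarith only [ua4]) (by norm_num; linarith only [ua5]) (by norm_num; linarith only [ua6]) (by norm_num; linarith only [ua7]) (by norm_num; linarith only [ua8])
  by_contra hc
  push Not at hc
  obtain ⟨hc0, hc1⟩ := hc
  simp only [List.mem_cons, List.not_mem_nil, or_false] at hf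
  rcases hf with rfl | rfl | rfl | rfl | rfl
  · simp only [ZE.x, ZE.y, ZE.s, ZE.r, ZE.h, E.val, NumI.lkR] at hp
    push_cast at hp
    linarith only [hc0, hp]
  · simp only [ZE.x, ZE.y, ZE.s, ZE.r, ZE.h, E.val, NumI.lkR] at hp
    push_cast at hp
    linarith only [hc1, hp]
  · simp only [ZE.x, ZE.y, ZE.s, ZE.r, ZE.h, E.val, NumI.lkR] at hp
    push_cast at hp
    linarith only [ua1, ua6, hp]
  · simp only [ZE.x, ZE.y, ZE.s, ZE.r, ZE.h, E.val, NumI.lkR] at hp
    push_cast at hp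
    linarith only [ua10, hp]
  · simp only [ZE.x, ZE.y, ZE.s, ZE.r, ZE.h, E.val, NumI.lkR] at hp
    push_cast at hp
    linarith only [ua11, hp]

theorem e4a_mD4X1p_h1_q1 : Pool.Agent.Work.NumU.runT [sub (add (add (q 107 1000) (mul (q 64 100) ZE.r)) (mul (mul (mul (q 2 1) pi) ZE.r) (add (q 9 100) (mul (mul (q 4 1) ZE.s) (sub (q 5 2) (mul (q 3 1) ZE.s)))))) (add (add (E.uu (add ZE.x ZE.s) (sub ZE.y ZE.h)) (add (E.uu (sub ZE.x ZE.s) (add ZE.y ZE.h)) (mul pi (add ZE.y ZE.h)))) (add (neg (E.uu (add ZE.x (q 225 1000)) (add ZE.y (mul (q 9 10) ZE.r)))) (neg (E.uu (add ZE.x (q 775 1000)) (sub ZE.y (mul (q 9 10) ZE.r)))))), sub (q 300 10000) (sub ZE.x ZE.s), neg (add ZE.y ZE.h), sub ZE.y (mul (q 56 100) ZE.x), sub (neg ZE.y) (mul (q 56 100) ZE.x)] 59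
    9824863145261294995751082571163575862130596902141852051759947367582471265689600778298247729963850356327703100856983669591748060620814985146210701310970625825623267955957938652871674829026527955457819240509041683548060739783008989638325889762547914187386660068615885567245753455135030128970426077858279578765933258386411955211201887274427892934929173119863156371803934613920496576944811125915490915963097343991764002009463881080082420725233237827079579960127010622581577614974913282518641636733329824859221707105760194661006331405670642919019282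
    (Pool.Agent.Work.NumI.setL 0 ([NumI.V.of 10000 300 1950, NumI.V.of 10000 (-560) 560, NumI.V.of 10000 0 1650, NumI.V.of 10000 0 1045])) =
    297557141063443182011186447738145650784366828364042863122418653791818863170591542239495729673899877786336410921288106107322408161445483742637544711241731065591497934409035911070099206751253595629285627604003222874196060866218901231681393437789781708642223156550056006084203011 := by
  decide +kernel

theorem e4a_mD4X1p_h1_q2 : Pool.Agent.Work.NumU.runT [sub (add (add (q 107 1000) (mul (q 64 100) ZE.r)) (mul (mul (mul (q 2 1) pi) ZE.r) (add (q 9 100) (mul (mul (q 4 1) ZE.s) (sub (q 5 2) (mul (q 3 1) ZE.s)))))) (add (add (E.uu (add ZE.x ZE.s) (sub ZE.y ZE.h)) (add (E.uu (sub ZE.x ZE.s) (add ZE.y ZE.h)) (mul pi (add ZE.y ZE.h)))) (add (neg (E.uu (add ZE.x (q 225 1000)) (add ZE.y (mul (q 9 10) ZE.r)))) (neg (E.uu (add ZE.x (q 775 1000)) (sub ZE.y (mul (q 9 10) ZE.r)))))), sub (q 300 10000) (sub ZE.x ZE.s), neg (add ZE.y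 ZE.h), sub ZE.y (mul (q 56 100) ZE.x), sub (neg ZE.y) (mul (q 56 100) ZE.x)] 59
    297557141063443182011186447738145650784366828364042863122418653791818863170591542239495729673899877786336410921288106107322408161445483742637544711241731065591497934409035911070099206751253595629285627604003222874196060866218901231681393437789781708642223156550056006084203010
    (Pool.Agent.Work.NumI.setR 0 ([NumI.V.of 10000 300 1950, NumI.V.of 10000 (-560) 560, NumI.V.of 10000 0 1650, NumI.V.of 10000 0 1045])) =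
    1 := by
  decide +kernel

theorem e4a_mD4X1p {x y s r : ℝ} (ua1 : 300 / 10000 ≤ x) (ua2 : x ≤ 1950 / 10000) (ua3 : -(560 / 10000) ≤ y) (ua4 : y ≤ 560 / 10000) (ua5 : 0 / 10000 ≤ s) (ua6 : s ≤ 1650 / 10000) (ua7 : 0 / 10000 ≤ r) (ua8 : r ≤ 1045 / 10000) (ua9 : 300 / 10000 ≤ x - s) (ua10 : 0 ≤ (y + 4 * (r * s))) (ua11 : y ≤ 56 / 100 * x) (ua12 : -y ≤ 56 / 100 * x) :
    NumU.uu (x + s) (y - 4 * (r * s)) + (NumU.uu (x - s) (y + 4 * (r * s)) + Real.pi * (y + 4 * (r * s))) + (-NumU.uu (x + 225 / 1000) (y + 9 / 10 * r) + -NumU.uu (x + 775 / 1000) (y - 9 / 10 * r)) < (107 / 1000 + 64 / 100 * r + 2 * Real.pi * r * (9 / 100 + 4 * s * (5 / 2 - 3 * s))) := by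
  have h : chkT [sub (add (add (q 107 1000) (mul (q 64 100) ZE.r)) (mul (mul (mul (q 2 1) pi) ZE.r) (add (q 9 100) (mul (mul (q 4 1) ZE.s) (sub (q 5 2) (mul (q 3 1) ZE.s)))))) (add (add (E.uu (add ZE.x ZE.s) (sub ZE.y ZE.h)) (add (E.uu (sub ZE.x ZE.s) (add ZE.y ZE.h)) (mul pi (add ZE.y ZE.h)))) (add (neg (E.uu (add ZE.x (q 225 1000)) (add ZE.y (mul (q 9 10) ZE.r)))) (neg (E.uu (add ZE.x (q 775 1000)) (sub ZE.y (mul (q 9 10) ZE.r)))))), sub (q 300 10000) (sub ZE.x ZE.s), neg (add ZE.y ZE.h), sub ZE.y (mul (q 56 100) ZE.x), sub (neg ZE.y) (mul (q 56 100) ZE.x)] 60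
    157197810324180719932017321138617213794089550434269632828159157881319540251033612452771963679421605701243249613711738713467968969933039762339371220975530013209972287295327018445946797264424447287325107848144666936768971836528143834213214236200766626998186561097854169075932055282160482063526817245732473260254932134182591283379230196390846286958866769917810501948862953822727945231116978014647854655409557503868224032151422097281318731603731805233273279362032169961305241839598612520298266187733277197747547313692163114576101302490730286704308512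
    [NumI.V.of 10000 300 1950, NumI.V.of 10000 (-560) 560, NumI.V.of 10000 0 1650, NumI.V.of 10000 0 1045] = true :=
      Pool.Agent.Work.NumU.chkT_of (Pool.Agent.Work.NumU.runT_split rfl rfl rfl
        e4a_mD4X1p_h1_q1
        e4a_mD4X1p_h1_q2)
  obtain ⟨f, hf, hp⟩ := chkT4 h (by norm_num) (x := x) (y := y) (z := s) (w := r)
    (by norm_num; linarith only [ua1]) (by norm_num; linarith only [ua2]) (by norm_num; linarith only [ua3]) (by norm_num; linarith only [ua4]) (by norm_num; linarith only [ua5]) (by norm_num; linarith only [ua6]) (by norm_num; linarith only [ua7]) (by norm_num; linarith only [ua8])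
  by_contra hc
  push Not at hc
  simp only [List.mem_cons, List.not_mem_nil, or_false] at hf
  rcases hf with rfl | rfl | rfl | rfl | rfl
  · simp only [ZE.x, ZE.y, ZE.s, ZE.r, ZE.h, E.val, NumI.lkR] at hp
    push_cast at hp
    linarith only [hc, hp]
  · simp only [ZE.x, ZE.y, ZE.s, ZE.r, ZE.h, E.val, NumI.lkR] at hp
    push_cast at hp
    linarith only [ua9, hp]
  · simp only [ZE.x, ZE.y, ZE.s, ZE.r, ZE.h, E.val, NumI.lkR] at hp
    push_cast at hp
    linarith only [ua10, hp]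
  · simp only [ZE.x, ZE.y, ZE.s, ZE.r, ZE.h, E.val, NumI.lkR] at hp
    push_cast at hp
    linarith only [ua11, hp]
  · simp only [ZE.x, ZE.y, ZE.s, ZE.r, ZE.h, E.val, NumI.lkR] at hp
    push_cast at hp
    linarith only [ua12, hp]

theorem e4a_mD4X2p {x y s r : ℝ} (ua1 : 1950 / 10000 ≤ x) (ua2 : x ≤ 2250 / 10000) (ua3 : -(560 / 10000) ≤ y) (ua4 : y ≤ 560 / 10000) (ua5 : 0 / 10000 ≤ s) (ua6 : s ≤ 1950 / 10000) (ua7 : 0 / 10000 ≤ r) (ua8 : r ≤ 1045 / 10000) (ua9 : 300 / 10000 ≤ x - s) (ua10 : 0 ≤ (y + 4 * (r * s))) :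
    NumU.uu (x + s) (y - 4 * (r * s)) + (NumU.uu (x - s) (y + 4 * (r * s)) + Real.pi * (y + 4 * (r * s))) + (-NumU.uu (x + 225 / 1000) (y + 9 / 10 * r) + ((100 / 3) * (225 / 1000 - x) * NumU.uu (300 / 10000) (y - 9 / 10 * r) - Real.pi * (1 / 2) * (y - 9 / 10 * r) * (1 - (100 / 3) * (225 / 1000 - x)))) < (107 / 1000 + 64 / 100 * r + 2 * Real.pi * r * (9 / 100 + 4 * s * (5 / 2 - 3 * s))) ∨ NumU.uu (x + s) (y - 4 * (r * s)) + (NumU.uu (x - s) (y + 4 * (r * s)) + Real.pi * (y + 4 * (r * s))) + (-NumU.uu (x + 225 / 1000) (y + 9 / 10 * r) + ((100 / 3) * (225 / 1000 - x) * NumU.uu (300 / 10000) (y - 9 / 10 * r) - Real.pi * (1 / 2) * -(y - 9 / 10 * r) * (1 - (100 / 3) * (225 / 1000 - x)))) < (107 / 1000 + 64 / 100 * r + 2 * Real.pi * r * (9 / 100 + 4 * s * (5 / 2 - 3 * s))) := by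
  have h : chkT [sub (add (add (q 107 1000) (mul (q 64 100) ZE.r)) (mul (mul (mul (q 2 1) pi) ZE.r) (add (q 9 100) (mul (mul (q 4 1) ZE.s) (sub (q 5 2) (mul (q 3 1) ZE.s)))))) (add (add (E.uu (add ZE.x ZE.s) (sub ZE.y ZE.h)) (add (E.uu (sub ZE.x ZE.s) (add ZE.y ZE.h)) (mul pi (add ZE.y ZE.h)))) (add (neg (E.uu (add ZE.x (q 225 1000)) (add ZE.y (mul (q 9 10) ZE.r)))) (sub (mul (mul (q 100 3) (sub (q 225 1000) ZE.x)) (E.uu (q 300 10000) (sub ZE.y (mul (q 9 10) ZE.r)))) (mul (mul (mul pi (q 1 2)) (sub ZE.y (mul (q 9 10) ZE.r))) (sub (q 1 1) (mul (q 100 3) (sub (q 225 1000) ZE.x))))))), sub (add (add (q 107 1000) (mul (q 64 100) ZE.r)) (mul (mul (mul (q 2 1) pi) ZE.r) (add (q 9 100) (mul (mul (q 4 1) ZE.s) (sub (q 5 2) (mul (q 3 1) ZE.s)))))) (add (add (E.uu (add ZE.x ZE.s) (sub ZE.y ZE.h)) (add (E.uu (sub ZE.x ZE.s) (add ZE.y ZE.h)) (mul pi (add ZE.y ZE.h)))) (add (neg (E.uu (add ZE.x (q 225 1000)) (add ZE.y (mul (q 9 10) ZE.r)))) (sub (mul (mul (q 100 3) (sub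 (q 225 1000) ZE.x)) (E.uu (q 300 10000) (sub ZE.y (mul (q 9 10) ZE.r)))) (mul (mul (mul pi (q 1 2)) (neg (sub ZE.y (mul (q 9 10) ZE.r)))) (sub (q 1 1) (mul (q 100 3) (sub (q 225 1000) ZE.x))))))), sub (q 300 10000) (sub ZE.x ZE.s), neg (add ZE.y ZE.h)] 60
    3859698644862977163422396393221431085362676403316803477494693140866690875698
    [NumI.V.of 10000 1950 2250, NumI.V.of 10000 (-560) 560, NumI.V.of 10000 0 1950, NumI.V.of 10000 0 1045] = true := by
    decide +kernel
  obtain ⟨f, hf, hp⟩ := chkT4 h (by norm_num) (x := x) (y := y) (z := s) (w := r)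
    (by norm_num; linarith only [ua1]) (by norm_num; linarith only [ua2]) (by norm_num; linarith only [ua3]) (by norm_num; linarith only [ua4]) (by norm_num; linarith only [ua5]) (by norm_num; linarith only [ua6]) (by norm_num; linarith only [ua7]) (by norm_num; linarith only [ua8])
  by_contra hc
  push Not at hc
  obtain ⟨hc0, hc1⟩ := hc
  simp only [List.mem_cons, List.not_mem_nil, or_false] at hf
  rcases hf with rfl | rfl | rfl | rfl
  · simp only [ZE.x, ZE.y, ZE.s, ZE.r, ZE.h, E.val, NumI.lkR] at hp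
    push_cast at hp
    linarith only [hc0, hp]
  · simp only [ZE.x, ZE.y, ZE.s, ZE.r, ZE.h, E.val, NumI.lkR] at hp
    push_cast at hp
    linarith only [hc1, hp]
  · simp only [ZE.x, ZE.y, ZE.s, ZE.r, ZE.h, E.val, NumI.lkR] at hp
    push_cast at hp
    linarith only [ua9, hp]
  · simp only [ZE.x, ZE.y, ZE.s, ZE.r, ZE.h, E.val, NumI.lkR] at hp
    push_cast at hp
    linarith only [ua10, hp]

theorem e4a_mD4X3p {x y s r : ℝ} (ua1 : 2250 / 10000 ≤ x) (ua2 : x ≤ 2550 / 10000) (ua3 : -(560 / 10000) ≤ y) (ua4 : y ≤ 560 / 10000) (ua5 : 0 / 10000 ≤ s) (ua6 : s ≤ 2000 / 10000) (ua7 : 0 / 10000 ≤ r) (ua8 : r ≤ 1045 / 10000) (ua9 : 300 / 10000 ≤ x - s) (ua10 : 0 ≤ (y + 4 * (r * s))) :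
    NumU.uu (x + s) (y - 4 * (r * s)) + (NumU.uu (x - s) (y + 4 * (r * s)) + Real.pi * (y + 4 * (r * s))) + (-NumU.uu (x + 225 / 1000) (y + 9 / 10 * r) + (((300 / 10000) - (x - 225 / 1000)) * NumI.lnA (300 / 10000) (y - 9 / 10 * r) - NumU.uu (300 / 10000) (y - 9 / 10 * r) - Real.pi * (y - 9 / 10 * r))) < (107 / 1000 + 64 / 100 * r + 2 * Real.pi * r * (9 / 100 + 4 * s * (5 / 2 - 3 * s))) ∨ NumU.uu (x + s) (y - 4 * (r * s)) + (NumU.uu (x - s) (y + 4 * (r * s)) + Real.pi * (y + 4 * (r * s))) + (-NumU.uu (x + 225 / 1000) (y + 9 / 10 * r) + (((300 / 10000) - (x - 225 / 1000)) * NumI.lnA (300 / 10000) (y - 9 / 10 * r) - NumU.uu (300 / 10000) (y - 9 / 10 * r) - Real.pi * -(y - 9 / 10 * r))) < (107 / 1000 + 64 / 100 * r + 2 * Real.pi * r * (9 / 100 + 4 * s * (5 / 2 - 3 * s))) := by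
  have h : chkT [sub (add (add (q 107 1000) (mul (q 64 100) ZE.r)) (mul (mul (mul (q 2 1) pi) ZE.r) (add (q 9 100) (mul (mul (q 4 1) ZE.s) (sub (q 5 2) (mul (q 3 1) ZE.s)))))) (add (add (E.uu (add ZE.x ZE.s) (sub ZE.y ZE.h)) (add (E.uu (sub ZE.x ZE.s) (add ZE.y ZE.h)) (mul pi (add ZE.y ZE.h)))) (add (neg (E.uu (add ZE.x (q 225 1000)) (add ZE.y (mul (q 9 10) ZE.r)))) (sub (sub (mul (sub (q 300 10000) (sub ZE.x (q 225 1000))) (E.lnA (q 300 10000) (sub ZE.y (mul (q 9 10) ZE.r)))) (E.uu (q 300 10000) (sub ZE.y (mul (q 9 10) ZE.r)))) (mul pi (sub ZE.y (mul (q 9 10) ZE.r)))))), sub (add (add (q 107 1000) (mul (q 64 100) ZE.r)) (mul (mul (mul (q 2 1) pi) ZE.r) (add (q 9 100) (mul (mul (q 4 1) ZE.s) (sub (q 5 2) (mul (q 3 1) ZE.s)))))) (add (add (E.uu (add ZE.x ZE.s) (sub ZE.y ZE.h)) (add (E.uu (sub ZE.x ZE.s) (add ZE.y ZE.h)) (mul pi (add ZE.y ZE.h)))) (add (neg (E.uu (add ZE.x (q 225 1000)) (add ZE.y (mul (q 9 10) ZE.r)))) (sub (sub (mul (sub (q 300 10000) (sub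 ZE.x (q 225 1000))) (E.lnA (q 300 10000) (sub ZE.y (mul (q 9 10) ZE.r)))) (E.uu (q 300 10000) (sub ZE.y (mul (q 9 10) ZE.r)))) (mul pi (neg (sub ZE.y (mul (q 9 10) ZE.r))))))), sub (q 300 10000) (sub ZE.x ZE.s), neg (add ZE.y ZE.h)] 60
    830463229491713557379328251431052680270130
    [NumI.V.of 10000 2250 2550, NumI.V.of 10000 (-560) 560, NumI.V.of 10000 0 2000, NumI.V.of 10000 0 1045] = true := by
    decide +kernel
  obtain ⟨f, hf, hp⟩ := chkT4 h (by norm_num) (x := x) (y := y) (z := s) (w := r)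
    (by norm_num; linarith only [ua1]) (by norm_num; linarith only [ua2]) (by norm_num; linarith only [ua3]) (by norm_num; linarith only [ua4]) (by norm_num; linarith only [ua5]) (by norm_num; linarith only [ua6]) (by norm_num; linarith only [ua7]) (by norm_num; linarith only [ua8])
  by_contra hc
  push Not at hc
  obtain ⟨hc0, hc1⟩ := hc
  simp only [List.mem_cons, List.not_mem_nil, or_false] at hf
  rcases hf with rfl | rfl | rfl | rfl
  · simp only [ZE.x, ZE.y, ZE.s, ZE.r, ZE.h, E.val, NumI.lkR] at hp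
    push_cast at hp
    linarith only [hc0, hp]
  · simp only [ZE.x, ZE.y, ZE.s, ZE.r, ZE.h, E.val, NumI.lkR] at hp
    push_cast at hp
    linarith only [hc1, hp]
  · simp only [ZE.x, ZE.y, ZE.s, ZE.r, ZE.h, E.val, NumI.lkR] at hp
    push_cast at hp
    linarith only [ua9, hp]
  · simp only [ZE.x, ZE.y, ZE.s, ZE.r, ZE.h, E.val, NumI.lkR] at hp
    push_cast at hp
    linarith only [ua10, hp]

theorem e4a_mD4X4p {x y s r : ℝ} (ua1 : 2550 / 10000 ≤ x) (ua2 : x ≤ 5000 / 10000) (ua3 : -(560 / 10000) ≤ y) (ua4 : y ≤ 560 / 10000) (ua5 : 0 / 10000 ≤ s) (ua6 : s ≤ 2000 / 10000) (ua7 : 0 / 10000 ≤ r) (ua8 : r ≤ 1045 / 10000) (ua9 : 0 ≤ (y + 4 * (r * s))) (ua10 : y ≤ 28 / 10 * (1 / 2 - x)) (ua11 : -y ≤ 28 / 10 * (1 / 2 - x)) :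
    NumU.uu (x + s) (y - 4 * (r * s)) + (NumU.uu (x - s) (y + 4 * (r * s)) + Real.pi * (y + 4 * (r * s))) + (-NumU.uu (x + 225 / 1000) (y + 9 / 10 * r) + -(NumU.uu (x - 225 / 1000) (y - 9 / 10 * r) + Real.pi * (y - 9 / 10 * r))) < (107 / 1000 + 64 / 100 * r + 2 * Real.pi * r * (9 / 100 + 4 * s * (5 / 2 - 3 * s))) ∨ NumU.uu (x + s) (y - 4 * (r * s)) + (NumU.uu (x - s) (y + 4 * (r * s)) + Real.pi * (y + 4 * (r * s))) + (-NumU.uu (x + 225 / 1000) (y + 9 / 10 * r) + -(NumU.uu (x - 225 / 1000) (y - 9 / 10 * r) + Real.pi * -(y - 9 / 10 * r))) < (107 / 1000 + 64 / 100 * r + 2 * Real.pi * r * (9 / 100 + 4 * s * (5 / 2 - 3 * s))) := by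
  have h : chkT [sub (add (add (q 107 1000) (mul (q 64 100) ZE.r)) (mul (mul (mul (q 2 1) pi) ZE.r) (add (q 9 100) (mul (mul (q 4 1) ZE.s) (sub (q 5 2) (mul (q 3 1) ZE.s)))))) (add (add (E.uu (add ZE.x ZE.s) (sub ZE.y ZE.h)) (add (E.uu (sub ZE.x ZE.s) (add ZE.y ZE.h)) (mul pi (add ZE.y ZE.h)))) (add (neg (E.uu (add ZE.x (q 225 1000)) (add ZE.y (mul (q 9 10) ZE.r)))) (neg (add (E.uu (sub ZE.x (q 225 1000)) (sub ZE.y (mul (q 9 10) ZE.r))) (mul pi (sub ZE.y (mul (q 9 10) ZE.r))))))), sub (add (add (q 107 1000) (mul (q 64 100) ZE.r)) (mul (mul (mul (q 2 1) pi) ZE.r) (add (q 9 100) (mul (mul (q 4 1) ZE.s) (sub (q 5 2) (mul (q 3 1) ZE.s)))))) (add (add (E.uu (add ZE.x ZE.s) (sub ZE.y ZE.h)) (add (E.uu (sub ZE.x ZE.s) (add ZE.y ZE.h)) (mul pi (add ZE.y ZE.h)))) (add (neg (E.uu (add ZE.x (q 225 1000)) (add ZE.y (mul (q 9 10) ZE.r)))) (neg (add (E.uu (sub ZE.x (q 225 1000)) (sub ZE.y (mul (q 9 10) ZE.r))) (mul pi (neg (sub ZE.y (mul (q 9 10) ZE.r)))))))), neg (add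 ZE.y ZE.h), sub ZE.y (mul (q 28 10) (sub (q 1 2) ZE.x)), sub (neg ZE.y) (mul (q 28 10) (sub (q 1 2) ZE.x))] 60
    1438809059817697659514644322905537344290468091558048602464180538735669702006799079591541868905346848301487879532732071217803296
    [NumI.V.of 10000 2550 5000, NumI.V.of 10000 (-560) 560, NumI.V.of 10000 0 2000, NumI.V.of 10000 0 1045] = true := by
    decide +kernel
  obtain ⟨f, hf, hp⟩ := chkT4 h (by norm_num) (x := x) (y := y) (z := s) (w := r)
    (by norm_num; linarith only [ua1]) (by norm_num; linarith only [ua2]) (by norm_num; linarith only [ua3]) (by norm_num; linarith only [ua4]) (by norm_num; linarith only [ua5]) (by norm_num; linarith only [ua6]) (by norm_num; linarith only [ua7]) (by norm_num; linarith only [ua8])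
  by_contra hc
  push Not at hc
  obtain ⟨hc0, hc1⟩ := hc
  simp only [List.mem_cons, List.not_mem_nil, or_false] at hf
  rcases hf with rfl | rfl | rfl | rfl | rfl
  · simp only [ZE.x, ZE.y, ZE.s, ZE.r, ZE.h, E.val, NumI.lkR] at hp
    push_cast at hp
    linarith only [hc0, hp]
  · simp only [ZE.x, ZE.y, ZE.s, ZE.r, ZE.h, E.val, NumI.lkR] at hp
    push_cast at hp
    linarith only [hc1, hp]
  · simp only [ZE.x, ZE.y, ZE.s, ZE.r, ZE.h, E.val, NumI.lkR] at hp
    push_cast at hp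
    linarith only [ua9, hp]
  · simp only [ZE.x, ZE.y, ZE.s, ZE.r, ZE.h, E.val, NumI.lkR] at hp
    push_cast at hp
    linarith only [ua10, hp]
  · simp only [ZE.x, ZE.y, ZE.s, ZE.r, ZE.h, E.val, NumI.lkR] at hp
    push_cast at hp
    linarith only [ua11, hp]

theorem e4a_mD3X1n {x y s r : ℝ} (ua1 : 300 / 10000 ≤ x) (ua2 : x ≤ 1950 / 10000) (ua3 : -(560 / 10000) ≤ y) (ua4 : y ≤ 560 / 10000) (ua5 : 0 / 10000 ≤ s) (ua6 : s ≤ 1950 / 10000) (ua7 : 0 / 10000 ≤ r) (ua8 : r ≤ 1045 / 10000) (ua9 : 0 ≤ x - s) (ua10 : x - s ≤ 300 / 10000) (ua11 : (y + 4 * (r * s)) ≤ 0) (ua12 : y ≤ 56 / 100 * x) (ua13 : -y ≤ 56 / 100 * x) :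
    NumU.uu (x + s) (y - 4 * (r * s)) + (Real.pi * (1 / 2) * -(y + 4 * (r * s)) * (1 + (100 / 3) * (x - s)) + (100 / 3) * (x - s) * NumU.uu (300 / 10000) (y + 4 * (r * s))) + (-NumU.uu (x + 225 / 1000) (y + 9 / 10 * r) + -NumU.uu (x + 775 / 1000) (y - 9 / 10 * r)) < (107 / 1000 + 64 / 100 * r + 2 * Real.pi * r * (9 / 100 + 4 * s * (5 / 2 - 3 * s))) := by
  have h : chkT [sub (add (add (q 107 1000) (mul (q 64 100) ZE.r)) (mul (mul (mul (q 2 1) pi) ZE.r) (add (q 9 100) (mul (mul (q 4 1) ZE.s) (sub (q 5 2) (mul (q 3 1) ZE.s)))))) (add (add (E.uu (add ZE.x ZE.s) (sub ZE.y ZE.h)) (add (mul (mul (mul pi (q 1 2)) (neg (add ZE.y ZE.h))) (add (q 1 1) (mul (q 100 3) (sub ZE.x ZE.s)))) (mul (mul (q 100 3) (sub ZE.x ZE.s)) (E.uu (q 300 10000) (add ZE.y ZE.h))))) (add (neg (E.uu (add ZE.x (q 225 1000)) (add ZE.y (mul (q 9 10) ZE.r)))) (neg (E.uu (add ZE.x (q 775 1000)) (sub ZE.y (mul (q 9 10) ZE.r)))))), sub ZE.s ZE.x, sub (sub ZE.x ZE.s) (q 300 10000), add (q 0 1) (add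 ZE.y ZE.h), sub ZE.y (mul (q 56 100) ZE.x), sub (neg ZE.y) (mul (q 56 100) ZE.x)] 60
    664083376458649307000130345364650802337242002242527423542033177963966052468836190058346012344312589431778288871382815893697148353171626990393729632686316979721667104
    [NumI.V.of 10000 300 1950, NumI.V.of 10000 (-560) 560, NumI.V.of 10000 0 1950, NumI.V.of 10000 0 1045] = true := by
    decide +kernel
  obtain ⟨f, hf, hp⟩ := chkT4 h (by norm_num) (x := x) (y := y) (z := s) (w := r)
    (by norm_num; linarith only [ua1]) (by norm_num; linarith only [ua2]) (by norm_num; linarith only [ua3]) (by norm_num; linarith only [ua4]) (by norm_num; linarith only [ua5]) (by norm_num; linarith only [ua6]) (by norm_num; linarith only [ua7]) (by norm_num; linarith only [ua8])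
  by_contra hc
  push Not at hc
  simp only [List.mem_cons, List.not_mem_nil, or_false] at hf
  rcases hf with rfl | rfl | rfl | rfl | rfl | rfl
  · simp only [ZE.x, ZE.y, ZE.s, ZE.r, ZE.h, E.val, NumI.lkR] at hp
    push_cast at hp
    linarith only [hc, hp]
  · simp only [ZE.x, ZE.y, ZE.s, ZE.r, ZE.h, E.val, NumI.lkR] at hp
    push_cast at hp
    linarith only [ua9, hp]
  · simp only [ZE.x, ZE.y, ZE.s, ZE.r, ZE.h, E.val, NumI.lkR] at hp
    push_cast at hp
    linarith only [ua10, hp]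
  · simp only [ZE.x, ZE.y, ZE.s, ZE.r, ZE.h, E.val, NumI.lkR] at hp
    push_cast at hp
    linarith only [ua11, hp]
  · simp only [ZE.x, ZE.y, ZE.s, ZE.r, ZE.h, E.val, NumI.lkR] at hp
    push_cast at hp
    linarith only [ua12, hp]
  · simp only [ZE.x, ZE.y, ZE.s, ZE.r, ZE.h, E.val, NumI.lkR] at hp
    push_cast at hp
    linarith only [ua13, hp]

theorem e4a_mD3X2n {x y s r : ℝ} (ua1 : 1950 / 10000 ≤ x) (ua2 : x ≤ 2250 / 10000) (ua3 : -(560 / 10000) ≤ y) (ua4 : y ≤ 560 / 10000) (ua5 : 1650 / 10000 ≤ s) (ua6 : s ≤ 2000 / 10000) (ua7 : 0 / 10000 ≤ r) (ua8 : r ≤ 1045 / 10000) (ua9 : 0 ≤ x - s) (ua10 : x - s ≤ 300 / 10000) (ua11 : (y + 4 * (r * s)) ≤ 0) :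
    NumU.uu (x + s) (y - 4 * (r * s)) + (Real.pi * (1 / 2) * -(y + 4 * (r * s)) * (1 + (100 / 3) * (x - s)) + (100 / 3) * (x - s) * NumU.uu (300 / 10000) (y + 4 * (r * s))) + (-NumU.uu (x + 225 / 1000) (y + 9 / 10 * r) + ((100 / 3) * (225 / 1000 - x) * NumU.uu (300 / 10000) (y - 9 / 10 * r) - Real.pi * (1 / 2) * (y - 9 / 10 * r) * (1 - (100 / 3) * (225 / 1000 - x)))) < (107 / 1000 + 64 / 100 * r + 2 * Real.pi * r * (9 / 100 + 4 * s * (5 / 2 - 3 * s))) ∨ NumU.uu (x + s) (y - 4 * (r * s)) + (Real.pi * (1 / 2) * -(y + 4 * (r * s)) * (1 + (100 / 3) * (x - s)) + (100 / 3) * (x - s) * NumU.uu (300 / 10000) (y + 4 * (r * s))) + (-NumU.uu (x + 225 / 1000) (y + 9 / 10 * r) + ((100 / 3) * (225 / 1000 - x) * NumU.uu (300 / 10000) (y - 9 / 10 * r) - Real.pi * (1 / 2) * -(y - 9 / 10 * r) * (1 - (100 / 3) * (225 / 1000 - x)))) < (107 / 1000 + 64 / 100 * r + 2 * Real.pi * r * (9 / 100 + 4 * s * (5 / 2 - 3 * s))) := by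
  have h : chkT [sub (add (add (q 107 1000) (mul (q 64 100) ZE.r)) (mul (mul (mul (q 2 1) pi) ZE.r) (add (q 9 100) (mul (mul (q 4 1) ZE.s) (sub (q 5 2) (mul (q 3 1) ZE.s)))))) (add (add (E.uu (add ZE.x ZE.s) (sub ZE.y ZE.h)) (add (mul (mul (mul pi (q 1 2)) (neg (add ZE.y ZE.h))) (add (q 1 1) (mul (q 100 3) (sub ZE.x ZE.s)))) (mul (mul (q 100 3) (sub ZE.x ZE.s)) (E.uu (q 300 10000) (add ZE.y ZE.h))))) (add (neg (E.uu (add ZE.x (q 225 1000)) (add ZE.y (mul (q 9 10) ZE.r)))) (sub (mul (mul (q 100 3) (sub (q 225 1000) ZE.x)) (E.uu (q 300 10000) (sub ZE.y (mul (q 9 10) ZE.r)))) (mul (mul (mul pi (q 1 2)) (sub ZE.y (mul (q 9 10) ZE.r))) (sub (q 1 1) (mul (q 100 3) (sub (q 225 1000) ZE.x))))))), sub (add (add (q 107 1000) (mul (q 64 100) ZE.r)) (mul (mul (mul (q 2 1) pi) ZE.r) (add (q 9 100) (mul (mul (q 4 1) ZE.s) (sub (q 5 2) (mul (q 3 1) ZE.s)))))) (add (add (E.uu (add ZE.x ZE.s) (sub ZE.y ZE.h)) (add (mul (mul (mul pi (q 1 2)) (neg (add ZE.y ZE.h))) (add (q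 1 1) (mul (q 100 3) (sub ZE.x ZE.s)))) (mul (mul (q 100 3) (sub ZE.x ZE.s)) (E.uu (q 300 10000) (add ZE.y ZE.h))))) (add (neg (E.uu (add ZE.x (q 225 1000)) (add ZE.y (mul (q 9 10) ZE.r)))) (sub (mul (mul (q 100 3) (sub (q 225 1000) ZE.x)) (E.uu (q 300 10000) (sub ZE.y (mul (q 9 10) ZE.r)))) (mul (mul (mul pi (q 1 2)) (neg (sub ZE.y (mul (q 9 10) ZE.r)))) (sub (q 1 1) (mul (q 100 3) (sub (q 225 1000) ZE.x))))))), sub ZE.s ZE.x, sub (sub ZE.x ZE.s) (q 300 10000), add (q 0 1) (add ZE.y ZE.h)] 60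
    612991489678054163
    [NumI.V.of 10000 1950 2250, NumI.V.of 10000 (-560) 560, NumI.V.of 10000 1650 2000, NumI.V.of 10000 0 1045] = true := by
    decide +kernel
  obtain ⟨f, hf, hp⟩ := chkT4 h (by norm_num) (x := x) (y := y) (z := s) (w := r)
    (by norm_num; linarith only [ua1]) (by norm_num; linarith only [ua2]) (by norm_num; linarith only [ua3]) (by norm_num; linarith only [ua4]) (by norm_num; linarith only [ua5]) (by norm_num; linarith only [ua6]) (by norm_num; linarith only [ua7]) (by norm_num; linarith only [ua8])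
  by_contra hc
  push Not at hc
  obtain ⟨hc0, hc1⟩ := hc
  simp only [List.mem_cons, List.not_mem_nil, or_false] at hf
  rcases hf with rfl | rfl | rfl | rfl | rfl
  · simp only [ZE.x, ZE.y, ZE.s, ZE.r, ZE.h, E.val, NumI.lkR] at hp
    push_cast at hp
    linarith only [hc0, hp]
  · simp only [ZE.x, ZE.y, ZE.s, ZE.r, ZE.h, E.val, NumI.lkR] at hp
    push_cast at hp
    linarith only [hc1, hp]
  · simp only [ZE.x, ZE.y, ZE.s, ZE.r, ZE.h, E.val, NumI.lkR] at hp
    push_cast at hp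
    linarith only [ua9, hp]
  · simp only [ZE.x, ZE.y, ZE.s, ZE.r, ZE.h, E.val, NumI.lkR] at hp
    push_cast at hp
    linarith only [ua10, hp]
  · simp only [ZE.x, ZE.y, ZE.s, ZE.r, ZE.h, E.val, NumI.lkR] at hp
    push_cast at hp
    linarith only [ua11, hp]

theorem e4a_mD3X3n {x y s r : ℝ} (ua1 : 2250 / 10000 ≤ x) (ua2 : x ≤ 2300 / 10000) (ua3 : -(560 / 10000) ≤ y) (ua4 : y ≤ 560 / 10000) (ua5 : 1950 / 10000 ≤ s) (ua6 : s ≤ 2000 / 10000) (ua7 : 0 / 10000 ≤ r) (ua8 : r ≤ 1045 / 10000) (ua9 : 0 ≤ x - s) (ua10 : x - s ≤ 300 / 10000) (ua11 : (y + 4 * (r * s)) ≤ 0) :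
    NumU.uu (x + s) (y - 4 * (r * s)) + (Real.pi * (1 / 2) * -(y + 4 * (r * s)) * (1 + (100 / 3) * (x - s)) + (100 / 3) * (x - s) * NumU.uu (300 / 10000) (y + 4 * (r * s))) + (-NumU.uu (x + 225 / 1000) (y + 9 / 10 * r) + (((300 / 10000) - (x - 225 / 1000)) * NumI.lnA (300 / 10000) (y - 9 / 10 * r) - NumU.uu (300 / 10000) (y - 9 / 10 * r) - Real.pi * (y - 9 / 10 * r))) < (107 / 1000 + 64 / 100 * r + 2 * Real.pi * r * (9 / 100 + 4 * s * (5 / 2 - 3 * s))) ∨ NumU.uu (x + s) (y - 4 * (r * s)) + (Real.pi * (1 / 2) * -(y + 4 * (r * s)) * (1 + (100 / 3) * (x - s)) + (100 / 3) * (x - s) * NumU.uu (300 / 10000) (y + 4 * (r * s))) + (-NumU.uu (x + 225 / 1000) (y + 9 / 10 * r) + (((300 / 10000) - (x - 225 / 1000)) * NumI.lnA (300 / 10000) (y - 9 / 10 * r) - NumU.uu (300 / 10000) (y - 9 / 10 * r) - Real.pi * -(y - 9 / 10 * r))) < (107 / 1000 + 64 / 100 * r + 2 * Real.pi * r * (9 / 100 + 4 * s * (5 / 2 - 3 * s))) := by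
  have h : chkT [sub (add (add (q 107 1000) (mul (q 64 100) ZE.r)) (mul (mul (mul (q 2 1) pi) ZE.r) (add (q 9 100) (mul (mul (q 4 1) ZE.s) (sub (q 5 2) (mul (q 3 1) ZE.s)))))) (add (add (E.uu (add ZE.x ZE.s) (sub ZE.y ZE.h)) (add (mul (mul (mul pi (q 1 2)) (neg (add ZE.y ZE.h))) (add (q 1 1) (mul (q 100 3) (sub ZE.x ZE.s)))) (mul (mul (q 100 3) (sub ZE.x ZE.s)) (E.uu (q 300 10000) (add ZE.y ZE.h))))) (add (neg (E.uu (add ZE.x (q 225 1000)) (add ZE.y (mul (q 9 10) ZE.r)))) (sub (sub (mul (sub (q 300 10000) (sub ZE.x (q 225 1000))) (E.lnA (q 300 10000) (sub ZE.y (mul (q 9 10) ZE.r)))) (E.uu (q 300 10000) (sub ZE.y (mul (q 9 10) ZE.r)))) (mul pi (sub ZE.y (mul (q 9 10) ZE.r)))))), sub (add (add (q 107 1000) (mul (q 64 100) ZE.r)) (mul (mul (mul (q 2 1) pi) ZE.r) (add (q 9 100) (mul (mul (q 4 1) ZE.s) (sub (q 5 2) (mul (q 3 1) ZE.s)))))) (add (add (E.uu (add ZE.x ZE.s) (sub ZE.y ZE.h)) (add (mul (mul (mul pi (q 1 2)) (neg (add ZE.y ZE.h))) (add (q 1 1) (mul (q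 100 3) (sub ZE.x ZE.s)))) (mul (mul (q 100 3) (sub ZE.x ZE.s)) (E.uu (q 300 10000) (add ZE.y ZE.h))))) (add (neg (E.uu (add ZE.x (q 225 1000)) (add ZE.y (mul (q 9 10) ZE.r)))) (sub (sub (mul (sub (q 300 10000) (sub ZE.x (q 225 1000))) (E.lnA (q 300 10000) (sub ZE.y (mul (q 9 10) ZE.r)))) (E.uu (q 300 10000) (sub ZE.y (mul (q 9 10) ZE.r)))) (mul pi (neg (sub ZE.y (mul (q 9 10) ZE.r))))))), sub ZE.s ZE.x, sub (sub ZE.x ZE.s) (q 300 10000), add (q 0 1) (add ZE.y ZE.h)] 60
    40938082579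
    [NumI.V.of 10000 2250 2300, NumI.V.of 10000 (-560) 560, NumI.V.of 10000 1950 2000, NumI.V.of 10000 0 1045] = true := by
    decide +kernel
  obtain ⟨f, hf, hp⟩ := chkT4 h (by norm_num) (x := x) (y := y) (z := s) (w := r)
    (by norm_num; linarith only [ua1]) (by norm_num; linarith only [ua2]) (by norm_num; linarith only [ua3]) (by norm_num; linarith only [ua4]) (by norm_num; linarith only [ua5]) (by norm_num; linarith only [ua6]) (by norm_num; linarith only [ua7]) (by norm_num; linarith only [ua8])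
  by_contra hc
  push Not at hc
  obtain ⟨hc0, hc1⟩ := hc
  simp only [List.mem_cons, List.not_mem_nil, or_false] at hf
  rcases hf with rfl | rfl | rfl | rfl | rfl
  · simp only [ZE.x, ZE.y, ZE.s, ZE.r, ZE.h, E.val, NumI.lkR] at hp
    push_cast at hp
    linarith only [hc0, hp]
  · simp only [ZE.x, ZE.y, ZE.s, ZE.r, ZE.h, E.val, NumI.lkR] at hp
    push_cast at hp
    linarith only [hc1, hp]
  · simp only [ZE.x, ZE.y, ZE.s, ZE.r, ZE.h, E.val, NumI.lkR] at hp
    push_cast at hp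
    linarith only [ua1, ua6, hp]
  · simp only [ZE.x, ZE.y, ZE.s, ZE.r, ZE.h, E.val, NumI.lkR] at hp
    push_cast at hp
    linarith only [ua10, hp]
  · simp only [ZE.x, ZE.y, ZE.s, ZE.r, ZE.h, E.val, NumI.lkR] at hp
    push_cast at hp
    linarith only [ua11, hp]

theorem e4a_mD4X1n {x y s r : ℝ} (ua1 : 300 / 10000 ≤ x) (ua2 : x ≤ 1950 / 10000) (ua3 : -(560 / 10000) ≤ y) (ua4 : y ≤ 0 / 10000) (ua5 : 0 / 10000 ≤ s) (ua6 : s ≤ 1650 / 10000) (ua7 : 0 / 10000 ≤ r) (ua8 : r ≤ 1045 / 10000) (ua9 : 300 / 10000 ≤ x - s) (ua10 : (y + 4 * (r * s)) ≤ 0) (ua11 : y ≤ 56 / 100 * x) (ua12 : -y ≤ 56 / 100 * x) :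
    NumU.uu (x + s) (y - 4 * (r * s)) + (NumU.uu (x - s) (y + 4 * (r * s)) + Real.pi * -(y + 4 * (r * s))) + (-NumU.uu (x + 225 / 1000) (y + 9 / 10 * r) + -NumU.uu (x + 775 / 1000) (y - 9 / 10 * r)) < (107 / 1000 + 64 / 100 * r + 2 * Real.pi * r * (9 / 100 + 4 * s * (5 / 2 - 3 * s))) := by
  have h : chkT [sub (add (add (q 107 1000) (mul (q 64 100) ZE.r)) (mul (mul (mul (q 2 1) pi) ZE.r) (add (q 9 100) (mul (mul (q 4 1) ZE.s) (sub (q 5 2) (mul (q 3 1) ZE.s)))))) (add (add (E.uu (add ZE.x ZE.s) (sub ZE.y ZE.h)) (add (E.uu (sub ZE.x ZE.s) (add ZE.y ZE.h)) (mul pi (neg (add ZE.y ZE.h))))) (add (neg (E.uu (add ZE.x (q 225 1000)) (add ZE.y (mul (q 9 10) ZE.r)))) (neg (E.uu (add ZE.x (q 775 1000)) (sub ZE.y (mul (q 9 10) ZE.r)))))), sub (q 300 10000) (sub ZE.x ZE.s), add (q 0 1) (add ZE.y ZE.h), sub ZE.y (mul (q 56 100) ZE.x), sub (neg ZE.y) (mul (q 56 100) ZE.x)] 60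
    31765197885353972716564456126161224815998484580390923617902239544429152453961691682383626846363079150494902081253893539350320671775919402488916448697582806559387697665444363079209171635559941295352613234256573816890731386785910781695322572845744484974028714043767766637484745771013518075712987356540690800253484532512
    [NumI.V.of 10000 300 1950, NumI.V.of 10000 (-560) 0, NumI.V.of 10000 0 1650, NumI.V.of 10000 0 1045] = true := by
    decide +kernel
  obtain ⟨f, hf, hp⟩ := chkT4 h (by norm_num) (x := x) (y := y) (z := s) (w := r)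
    (by norm_num; linarith only [ua1]) (by norm_num; linarith only [ua2]) (by norm_num; linarith only [ua3]) (by norm_num; linarith only [ua4]) (by norm_num; linarith only [ua5]) (by norm_num; linarith only [ua6]) (by norm_num; linarith only [ua7]) (by norm_num; linarith only [ua8])
  by_contra hc
  push Not at hc
  simp only [List.mem_cons, List.not_mem_nil, or_false] at hf
  rcases hf with rfl | rfl | rfl | rfl | rfl
  · simp only [ZE.x, ZE.y, ZE.s, ZE.r, ZE.h, E.val, NumI.lkR] at hp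
    push_cast at hp
    linarith only [hc, hp]
  · simp only [ZE.x, ZE.y, ZE.s, ZE.r, ZE.h, E.val, NumI.lkR] at hp
    push_cast at hp
    linarith only [ua9, hp]
  · simp only [ZE.x, ZE.y, ZE.s, ZE.r, ZE.h, E.val, NumI.lkR] at hp
    push_cast at hp
    linarith only [ua10, hp]
  · simp only [ZE.x, ZE.y, ZE.s, ZE.r, ZE.h, E.val, NumI.lkR] at hp
    push_cast at hp
    linarith only [ua1, ua4, hp]
  · simp only [ZE.x, ZE.y, ZE.s, ZE.r, ZE.h, E.val, NumI.lkR] at hp
    push_cast at hp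
    linarith only [ua12, hp]

theorem e4a_mD4X2n {x y s r : ℝ} (ua1 : 1950 / 10000 ≤ x) (ua2 : x ≤ 2250 / 10000) (ua3 : -(560 / 10000) ≤ y) (ua4 : y ≤ 560 / 10000) (ua5 : 0 / 10000 ≤ s) (ua6 : s ≤ 1950 / 10000) (ua7 : 0 / 10000 ≤ r) (ua8 : r ≤ 1045 / 10000) (ua9 : 300 / 10000 ≤ x - s) (ua10 : (y + 4 * (r * s)) ≤ 0) :
    NumU.uu (x + s) (y - 4 * (r * s)) + (NumU.uu (x - s) (y + 4 * (r * s)) + Real.pi * -(y + 4 * (r * s))) + (-NumU.uu (x + 225 / 1000) (y + 9 / 10 * r) + ((100 / 3) * (225 / 1000 - x) * NumU.uu (300 / 10000) (y - 9 / 10 * r) - Real.pi * (1 / 2) * (y - 9 / 10 * r) * (1 - (100 / 3) * (225 / 1000 - x)))) < (107 / 1000 + 64 / 100 * r + 2 * Real.pi * r * (9 / 100 + 4 * s * (5 / 2 - 3 * s))) ∨ NumU.uu (x + s) (y - 4 * (r * s)) + (NumU.uu (x - s) (y + 4 * (r * s)) + Real.pi * -(y + 4 * (r * s))) + (-NumU.uu (x + 225 / 1000) (y + 9 / 10 * r) + ((100 / 3) * (225 / 1000 - x) * NumU.uu (300 / 10000) (y - 9 / 10 * r) - Real.pi * (1 / 2) * -(y - 9 / 10 *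 r) * (1 - (100 / 3) * (225 / 1000 - x)))) < (107 / 1000 + 64 / 100 * r + 2 * Real.pi * r * (9 / 100 + 4 * s * (5 / 2 - 3 * s))) := by
  have h : chkT [sub (add (add (q 107 1000) (mul (q 64 100) ZE.r)) (mul (mul (mul (q 2 1) pi) ZE.r) (add (q 9 100) (mul (mul (q 4 1) ZE.s) (sub (q 5 2) (mul (q 3 1) ZE.s)))))) (add (add (E.uu (add ZE.x ZE.s) (sub ZE.y ZE.h)) (add (E.uu (sub ZE.x ZE.s) (add ZE.y ZE.h)) (mul pi (neg (add ZE.y ZE.h))))) (add (neg (E.uu (add ZE.x (q 225 1000)) (add ZE.y (mul (q 9 10) ZE.r)))) (sub (mul (mul (q 100 3) (sub (q 225 1000) ZE.x)) (E.uu (q 300 10000) (sub ZE.y (mul (q 9 10) ZE.r)))) (mul (mul (mul pi (q 1 2)) (sub ZE.y (mul (q 9 10) ZE.r))) (sub (q 1 1) (mul (q 100 3) (sub (q 225 1000) ZE.x))))))), sub (add (add (q 107 1000) (mul (q 64 100) ZE.r)) (mul (mul (mul (q 2 1) pi) ZE.r) (add (q 9 100) (mul (mul (q 4 1) ZE.s) (sub (q 5 2) (mul (q 3 1) ZE.s)))))) (add (add (E.uu (add ZE.x ZE.s) (sub ZE.y ZE.h)) (add (E.uu (sub ZE.x ZE.s) (add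 ZE.y ZE.h)) (mul pi (neg (add ZE.y ZE.h))))) (add (neg (E.uu (add ZE.x (q 225 1000)) (add ZE.y (mul (q 9 10) ZE.r)))) (sub (mul (mul (q 100 3) (sub (q 225 1000) ZE.x)) (E.uu (q 300 10000) (sub ZE.y (mul (q 9 10) ZE.r)))) (mul (mul (mul pi (q 1 2)) (neg (sub ZE.y (mul (q 9 10) ZE.r)))) (sub (q 1 1) (mul (q 100 3) (sub (q 225 1000) ZE.x))))))), sub (q 300 10000) (sub ZE.x ZE.s), add (q 0 1) (add ZE.y ZE.h)] 60
    58894327494234613550845718050754558619834579240917226983563104588734770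
    [NumI.V.of 10000 1950 2250, NumI.V.of 10000 (-560) 560, NumI.V.of 10000 0 1950, NumI.V.of 10000 0 1045] = true := by
    decide +kernel
  obtain ⟨f, hf, hp⟩ := chkT4 h (by norm_num) (x := x) (y := y) (z := s) (w := r)
    (by norm_num; linarith only [ua1]) (by norm_num; linarith only [ua2]) (by norm_num; linarith only [ua3]) (by norm_num; linarith only [ua4]) (by norm_num; linarith only [ua5]) (by norm_num; linarith only [ua6]) (by norm_num; linarith only [ua7]) (by norm_num; linarith only [ua8])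
  by_contra hc
  push Not at hc
  obtain ⟨hc0, hc1⟩ := hc
  simp only [List.mem_cons, List.not_mem_nil, or_false] at hf
  rcases hf with rfl | rfl | rfl | rfl
  · simp only [ZE.x, ZE.y, ZE.s, ZE.r, ZE.h, E.val, NumI.lkR] at hp
    push_cast at hp
    linarith only [hc0, hp]
  · simp only [ZE.x, ZE.y, ZE.s, ZE.r, ZE.h, E.val, NumI.lkR] at hp
    push_cast at hp
    linarith only [hc1, hp]
  · simp only [ZE.x, ZE.y, ZE.s, ZE.r, ZE.h, E.val, NumI.lkR] at hp
    push_cast at hp
    linarith only [ua9, hp]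
  · simp only [ZE.x, ZE.y, ZE.s, ZE.r, ZE.h, E.val, NumI.lkR] at hp
    push_cast at hp
    linarith only [ua10, hp]

theorem e4a_mD4X3n {x y s r : ℝ} (ua1 : 2250 / 10000 ≤ x) (ua2 : x ≤ 2550 / 10000) (ua3 : -(560 / 10000) ≤ y) (ua4 : y ≤ 560 / 10000) (ua5 : 0 / 10000 ≤ s) (ua6 : s ≤ 2000 / 10000) (ua7 : 0 / 10000 ≤ r) (ua8 : r ≤ 1045 / 10000) (ua9 : 300 / 10000 ≤ x - s) (ua10 : (y + 4 * (r * s)) ≤ 0) :
    NumU.uu (x + s) (y - 4 * (r * s)) + (NumU.uu (x - s) (y + 4 * (r * s)) + Real.pi * -(y + 4 * (r * s))) + (-NumU.uu (x + 225 / 1000) (y + 9 / 10 * r) + (((300 / 10000) - (x - 225 / 1000)) * NumI.lnA (300 / 10000) (y - 9 / 10 * r) - NumU.uu (300 / 10000) (y - 9 / 10 * r) - Real.pi * (y - 9 / 10 * r))) < (107 / 1000 + 64 / 100 * r + 2 * Real.pi * r * (9 / 100 + 4 * s * (5 / 2 - 3 * s))) ∨ NumU.uu (x + s) (y - 4 * (r * s)) + (NumU.uu (x - s) (y + 4 * (r * s)) + Real.pi * -(y + 4 * (r * s))) + (-NumU.uu (x + 225 / 1000) (y + 9 / 10 * r) + (((300 / 10000) -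 (x - 225 / 1000)) * NumI.lnA (300 / 10000) (y - 9 / 10 * r) - NumU.uu (300 / 10000) (y - 9 / 10 * r) - Real.pi * -(y - 9 / 10 * r))) < (107 / 1000 + 64 / 100 * r + 2 * Real.pi * r * (9 / 100 + 4 * s * (5 / 2 - 3 * s))) := by
  have h : chkT [sub (add (add (q 107 1000) (mul (q 64 100) ZE.r)) (mul (mul (mul (q 2 1) pi) ZE.r) (add (q 9 100) (mul (mul (q 4 1) ZE.s) (sub (q 5 2) (mul (q 3 1) ZE.s)))))) (add (add (E.uu (add ZE.x ZE.s) (sub ZE.y ZE.h)) (add (E.uu (sub ZE.x ZE.s) (add ZE.y ZE.h)) (mul pi (neg (add ZE.y ZE.h))))) (add (neg (E.uu (add ZE.x (q 225 1000)) (add ZE.y (mul (q 9 10) ZE.r)))) (sub (sub (mul (sub (q 300 10000) (sub ZE.x (q 225 1000))) (E.lnA (q 300 10000) (sub ZE.y (mul (q 9 10) ZE.r)))) (E.uu (q 300 10000) (sub ZE.y (mul (q 9 10) ZE.r)))) (mul pi (sub ZE.y (mul (q 9 10) ZE.r)))))), sub (add (add (q 107 1000) (mul (q 64 100) ZE.r)) (mul (mul (mul (q 2 1) pi) ZE.r) (add (q 9 100) (mul (mul (q 4 1) ZE.s) (sub (q 5 2) (mul (q 3 1) ZE.s))))))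 (add (add (E.uu (add ZE.x ZE.s) (sub ZE.y ZE.h)) (add (E.uu (sub ZE.x ZE.s) (add ZE.y ZE.h)) (mul pi (neg (add ZE.y ZE.h))))) (add (neg (E.uu (add ZE.x (q 225 1000)) (add ZE.y (mul (q 9 10) ZE.r)))) (sub (sub (mul (sub (q 300 10000) (sub ZE.x (q 225 1000))) (E.lnA (q 300 10000) (sub ZE.y (mul (q 9 10) ZE.r)))) (E.uu (q 300 10000) (sub ZE.y (mul (q 9 10) ZE.r)))) (mul pi (neg (sub ZE.y (mul (q 9 10) ZE.r))))))), sub (q 300 10000) (sub ZE.x ZE.s), add (q 0 1) (add ZE.y ZE.h)] 60
    2915705814432313560375084463061864092466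
    [NumI.V.of 10000 2250 2550, NumI.V.of 10000 (-560) 560, NumI.V.of 10000 0 2000, NumI.V.of 10000 0 1045] = true := by
    decide +kernel
  obtain ⟨f, hf, hp⟩ := chkT4 h (by norm_num) (x := x) (y := y) (z := s) (w := r)
    (by norm_num; linarith only [ua1]) (by norm_num; linarith only [ua2]) (by norm_num; linarith only [ua3]) (by norm_num; linarith only [ua4]) (by norm_num; linarith only [ua5]) (by norm_num; linarith only [ua6]) (by norm_num; linarith only [ua7]) (by norm_num; linarith only [ua8])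
  by_contra hc
  push Not at hc
  obtain ⟨hc0, hc1⟩ := hc
  simp only [List.mem_cons, List.not_mem_nil, or_false] at hf
  rcases hf with rfl | rfl | rfl | rfl
  · simp only [ZE.x, ZE.y, ZE.s, ZE.r, ZE.h, E.val, NumI.lkR] at hp
    push_cast at hp
    linarith only [hc0, hp]
  · simp only [ZE.x, ZE.y, ZE.s, ZE.r, ZE.h, E.val, NumI.lkR] at hp
    push_cast at hp
    linarith only [hc1, hp]
  · simp only [ZE.x, ZE.y, ZE.s, ZE.r, ZE.h, E.val, NumI.lkR] at hp
    push_cast at hp
    linarith only [ua9, hp]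
  · simp only [ZE.x, ZE.y, ZE.s, ZE.r, ZE.h, E.val, NumI.lkR] at hp
    push_cast at hp
    linarith only [ua10, hp]

theorem e4a_mD4X4n {x y s r : ℝ} (ua1 : 2550 / 10000 ≤ x) (ua2 : x ≤ 5000 / 10000) (ua3 : -(560 / 10000) ≤ y) (ua4 : y ≤ 560 / 10000) (ua5 : 0 / 10000 ≤ s) (ua6 : s ≤ 2000 / 10000) (ua7 : 0 / 10000 ≤ r) (ua8 : r ≤ 1045 / 10000) (ua9 : (y + 4 * (r * s)) ≤ 0) (ua10 : y ≤ 28 / 10 * (1 / 2 - x)) (ua11 : -y ≤ 28 / 10 * (1 / 2 - x)) :
    NumU.uu (x + s) (y - 4 * (r * s)) + (NumU.uu (x - s) (y + 4 * (r * s)) + Real.pi * -(y + 4 * (r * s))) + (-NumU.uu (x + 225 / 1000) (y + 9 / 10 * r) + -(NumU.uu (x - 225 / 1000) (y - 9 / 10 * r) + Real.pi * (y - 9 / 10 * r))) < (107 / 1000 + 64 / 100 * r + 2 * Real.pi * r * (9 / 100 + 4 * s * (5 / 2 - 3 * s))) ∨ NumU.uu (x + s) (y - 4 * (r * s)) + (NumU.uu (x - s) (y + 4 * (r * s)) + Real.pi * -(y + 4 * (r * s))) + (-NumU.uu (x + 225 / 1000) (y + 9 / 10 * r) + -(NumU.uu (x - 225 / 1000) (y - 9 / 10 * r) + Real.pi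 * -(y - 9 / 10 * r))) < (107 / 1000 + 64 / 100 * r + 2 * Real.pi * r * (9 / 100 + 4 * s * (5 / 2 - 3 * s))) := by
  have h : chkT [sub (add (add (q 107 1000) (mul (q 64 100) ZE.r)) (mul (mul (mul (q 2 1) pi) ZE.r) (add (q 9 100) (mul (mul (q 4 1) ZE.s) (sub (q 5 2) (mul (q 3 1) ZE.s)))))) (add (add (E.uu (add ZE.x ZE.s) (sub ZE.y ZE.h)) (add (E.uu (sub ZE.x ZE.s) (add ZE.y ZE.h)) (mul pi (neg (add ZE.y ZE.h))))) (add (neg (E.uu (add ZE.x (q 225 1000)) (add ZE.y (mul (q 9 10) ZE.r)))) (neg (add (E.uu (sub ZE.x (q 225 1000)) (sub ZE.y (mul (q 9 10) ZE.r))) (mul pi (sub ZE.y (mul (q 9 10) ZE.r))))))), sub (add (add (q 107 1000) (mul (q 64 100) ZE.r)) (mul (mul (mul (q 2 1) pi) ZE.r) (add (q 9 100) (mul (mul (q 4 1) ZE.s) (sub (q 5 2) (mul (q 3 1) ZE.s)))))) (add (add (E.uu (add ZE.x ZE.s) (sub ZE.y ZE.h)) (add (E.uu (sub ZE.x ZE.s) (add ZE.y ZE.h)) (mul pi (neg (add ZE.y ZE.h))))) (add (neg (E.uu (add ZE.x (q 225 1000)) (add ZE.y (mul (q 9 10) ZE.r)))) (neg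 (add (E.uu (sub ZE.x (q 225 1000)) (sub ZE.y (mul (q 9 10) ZE.r))) (mul pi (neg (sub ZE.y (mul (q 9 10) ZE.r)))))))), add (q 0 1) (add ZE.y ZE.h), sub ZE.y (mul (q 28 10) (sub (q 1 2) ZE.x)), sub (neg ZE.y) (mul (q 28 10) (sub (q 1 2) ZE.x))] 60
    4342141031220755049838949809490809127556783576850930679782497630800300945440
    [NumI.V.of 10000 2550 5000, NumI.V.of 10000 (-560) 560, NumI.V.of 10000 0 2000, NumI.V.of 10000 0 1045] = true := by
    decide +kernel
  obtain ⟨f, hf, hp⟩ := chkT4 h (by norm_num) (x := x) (y := y) (z := s) (w := r)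
    (by norm_num; linarith only [ua1]) (by norm_num; linarith only [ua2]) (by norm_num; linarith only [ua3]) (by norm_num; linarith only [ua4]) (by norm_num; linarith only [ua5]) (by norm_num; linarith only [ua6]) (by norm_num; linarith only [ua7]) (by norm_num; linarith only [ua8])
  by_contra hc
  push Not at hc
  obtain ⟨hc0, hc1⟩ := hc
  simp only [List.mem_cons, List.not_mem_nil, or_false] at hf
  rcases hf with rfl | rfl | rfl | rfl | rfl
  · simp only [ZE.x, ZE.y, ZE.s, ZE.r, ZE.h, E.val, NumI.lkR] at hp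
    push_cast at hp
    linarith only [hc0, hp]
  · simp only [ZE.x, ZE.y, ZE.s, ZE.r, ZE.h, E.val, NumI.lkR] at hp
    push_cast at hp
    linarith only [hc1, hp]
  · simp only [ZE.x, ZE.y, ZE.s, ZE.r, ZE.h, E.val, NumI.lkR] at hp
    push_cast at hp
    linarith only [ua9, hp]
  · simp only [ZE.x, ZE.y, ZE.s, ZE.r, ZE.h, E.val, NumI.lkR] at hp
    push_cast at hp
    linarith only [ua10, hp]
  · simp only [ZE.x, ZE.y, ZE.s, ZE.r, ZE.h, E.val, NumI.lkR] at hp
    push_cast at hp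
    linarith only [ua11, hp]

end ZD

end Pool.Agent.Work.MP_b30479_gt.G2
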