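import Pool.Agent.Work.NumU.Expr

/-!
# The loss at a hinge when the ring variable moves: analytic part
-/

namespace Pool.Agent.Work.MP_b30479_gt.G2

open VOL NumU

namespace ZD

namespace ZE
open NumU.E

def x : NumU.E := var 0
def y : NumU.E := var 1
def s : NumU.E := var 2
def r : NumU.E := var 3
def h : NumU.E := mul (q 4 1) (mul (var 3) (var 2))

end ZE

end ZD

end Pool.Agent.Work.MP_b30479_gt.G2
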