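import Pool.Agent.Work.MP_b30479_gt.G2.ZReC
import Pool.Agent.Work.MP_b30479_gt.G2.ZReB
import Pool.Agent.Work.NumU.Tree

/-!
# The loss at a hinge between two rings: the corner
-/

set_option linter.unusedSimpArgs false
set_option linter.unusedVariables false

namespace Pool.Agent.Work.MP_b30479_gt.G2

open VOL NumU

namespace ZD

section
open NumU.E ZE

theorem e4a_pC {x y s r : ℝ} (ua1 : 0 / 10000 ≤ x) (ua2 : x ≤ 300 / 10000) (ua3 : -(168 / 10000) ≤ y) (ua4 : y ≤ 168 / 10000) (ua5 : 0 / 10000 ≤ s) (ua6 : s ≤ 300 / 10000) (ua7 : 0 / 10000 ≤ r) (ua8 : r ≤ 1045 / 10000) :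
    3 / 1000 + (-NumU.uu (x + 225 / 1000) (y + 9 / 10 * r) + -NumU.uu (x + 775 / 1000) (y - 9 / 10 * r)) < (107 / 1000 + 64 / 100 * r + 2 * Real.pi * r * (9 / 100 + 4 * s * (4 * s - 1))) := by
  have h : chkT [sub (add (add (q 107 1000) (mul (q 64 100) ZE.r)) (mul (mul (mul (q 2 1) pi) ZE.r) (add (q 9 100) (mul (mul (q 4 1) ZE.s) (sub (mul (q 4 1) ZE.s) (q 1 1)))))) (add (q 3 1000) (add (neg (E.uu (add ZE.x (q 225 1000)) (add ZE.y (mul (q 9 10) ZE.r)))) (neg (E.uu (add ZE.x (q 775 1000)) (sub ZE.y (mul (q 9 10) ZE.r))))))] 60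
    8
    [NumI.V.of 10000 0 300, NumI.V.of 10000 (-168) 168, NumI.V.of 10000 0 300, NumI.V.of 10000 0 1045] = true := by
    decide +kernel
  obtain ⟨f, hf, hp⟩ := chkT4 h (by norm_num) (x := x) (y := y) (z := s) (w := r)
    (by norm_num; linarith only [ua1]) (by norm_num; linarith only [ua2]) (by norm_num; linarith only [ua3]) (by norm_num; linarith only [ua4]) (by norm_num; linarith only [ua5]) (by norm_num; linarith only [ua6]) (by norm_num; linarith only [ua7]) (by norm_num; linarith only [ua8])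
  by_contra hc
  push Not at hc
  simp only [List.mem_cons, List.not_mem_nil, or_false] at hf
  rcases hf with rfl
  · simp only [ZE.x, ZE.y, ZE.s, ZE.r, ZE.h, E.val, NumI.lkR] at hp
    push_cast at hp
    linarith only [hc, hp]

theorem e4a_mC {x y s r : ℝ} (ua1 : 0 / 10000 ≤ x) (ua2 : x ≤ 300 / 10000) (ua3 : -(168 / 10000) ≤ y) (ua4 : y ≤ 168 / 10000) (ua5 : 0 / 10000 ≤ s) (ua6 : s ≤ 300 / 10000) (ua7 : 0 / 10000 ≤ r) (ua8 : r ≤ 1045 / 10000) :
    3 / 1000 + (-NumU.uu (x + 225 / 1000) (y + 9 / 10 * r) + -NumU.uu (x + 775 / 1000) (y - 9 / 10 * r)) < (107 / 1000 + 64 / 100 * r + 2 * Real.pi * r * (9 / 100 + 4 * s * (5 / 2 - 3 * s))) := by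
  have h : chkT [sub (add (add (q 107 1000) (mul (q 64 100) ZE.r)) (mul (mul (mul (q 2 1) pi) ZE.r) (add (q 9 100) (mul (mul (q 4 1) ZE.s) (sub (q 5 2) (mul (q 3 1) ZE.s)))))) (add (q 3 1000) (add (neg (E.uu (add ZE.x (q 225 1000)) (add ZE.y (mul (q 9 10) ZE.r)))) (neg (E.uu (add ZE.x (q 775 1000)) (sub ZE.y (mul (q 9 10) ZE.r))))))] 60
    2179
    [NumI.V.of 10000 0 300, NumI.V.of 10000 (-168) 168, NumI.V.of 10000 0 300, NumI.V.of 10000 0 1045] = true := by
    decide +kernel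
  obtain ⟨f, hf, hp⟩ := chkT4 h (by norm_num) (x := x) (y := y) (z := s) (w := r)
    (by norm_num; linarith only [ua1]) (by norm_num; linarith only [ua2]) (by norm_num; linarith only [ua3]) (by norm_num; linarith only [ua4]) (by norm_num; linarith only [ua5]) (by norm_num; linarith only [ua6]) (by norm_num; linarith only [ua7]) (by norm_num; linarith only [ua8])
  by_contra hc
  push Not at hc
  simp only [List.mem_cons, List.not_mem_nil, or_false] at hf
  rcases hf with rfl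
  · simp only [ZE.x, ZE.y, ZE.s, ZE.r, ZE.h, E.val, NumI.lkR] at hp
    push_cast at hp
    linarith only [hc, hp]

theorem e4b_pC {x y s r : ℝ} (ua1 : 0 / 10000 ≤ x) (ua2 : x ≤ 300 / 10000) (ua3 : -(168 / 10000) ≤ y) (ua4 : y ≤ 168 / 10000) (ua5 : 0 / 10000 ≤ s) (ua6 : s ≤ 300 / 10000) (ua7 : 0 / 10000 ≤ r) (ua8 : r ≤ 1045 / 10000) :
    3 / 1000 + (-NumU.uu (x + 225 / 1000) (y + 9 / 10 * r) + -NumU.uu (x + 775 / 1000) (y - 9 / 10 * r)) < (92 / 1000 + 94 / 100 * r + 2 * Real.pi * r * (9 / 100 + 4 * s * (4 * s - 1))) := by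
  have h : chkT [sub (add (add (q 92 1000) (mul (q 94 100) ZE.r)) (mul (mul (mul (q 2 1) pi) ZE.r) (add (q 9 100) (mul (mul (q 4 1) ZE.s) (sub (mul (q 4 1) ZE.s) (q 1 1)))))) (add (q 3 1000) (add (neg (E.uu (add ZE.x (q 225 1000)) (add ZE.y (mul (q 9 10) ZE.r)))) (neg (E.uu (add ZE.x (q 775 1000)) (sub ZE.y (mul (q 9 10) ZE.r))))))] 60
    8
    [NumI.V.of 10000 0 300, NumI.V.of 10000 (-168) 168, NumI.V.of 10000 0 300, NumI.V.of 10000 0 1045] = true := by
    decide +kernel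
  obtain ⟨f, hf, hp⟩ := chkT4 h (by norm_num) (x := x) (y := y) (z := s) (w := r)
    (by norm_num; linarith only [ua1]) (by norm_num; linarith only [ua2]) (by norm_num; linarith only [ua3]) (by norm_num; linarith only [ua4]) (by norm_num; linarith only [ua5]) (by norm_num; linarith only [ua6]) (by norm_num; linarith only [ua7]) (by norm_num; linarith only [ua8])
  by_contra hc
  push Not at hc
  simp only [List.mem_cons, List.not_mem_nil, or_false] at hf
  rcases hf with rfl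
  · simp only [ZE.x, ZE.y, ZE.s, ZE.r, ZE.h, E.val, NumI.lkR] at hp
    push_cast at hp
    linarith only [hc, hp]

theorem e4b_mC {x y s r : ℝ} (ua1 : 0 / 10000 ≤ x) (ua2 : x ≤ 300 / 10000) (ua3 : -(168 / 10000) ≤ y) (ua4 : y ≤ 168 / 10000) (ua5 : 0 / 10000 ≤ s) (ua6 : s ≤ 300 / 10000) (ua7 : 0 / 10000 ≤ r) (ua8 : r ≤ 1045 / 10000) :
    3 / 1000 + (-NumU.uu (x + 225 / 1000) (y + 9 / 10 * r) + -NumU.uu (x + 775 / 1000) (y - 9 / 10 * r)) < (92 / 1000 + 94 / 100 * r + 2 * Real.pi * r * (9 / 100 + 4 * s * (5 / 2 - 3 * s))) := by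
  have h : chkT [sub (add (add (q 92 1000) (mul (q 94 100) ZE.r)) (mul (mul (mul (q 2 1) pi) ZE.r) (add (q 9 100) (mul (mul (q 4 1) ZE.s) (sub (q 5 2) (mul (q 3 1) ZE.s)))))) (add (q 3 1000) (add (neg (E.uu (add ZE.x (q 225 1000)) (add ZE.y (mul (q 9 10) ZE.r)))) (neg (E.uu (add ZE.x (q 775 1000)) (sub ZE.y (mul (q 9 10) ZE.r))))))] 60
    2179
    [NumI.V.of 10000 0 300, NumI.V.of 10000 (-168) 168, NumI.V.of 10000 0 300, NumI.V.of 10000 0 1045] = true := by
    decide +kernel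
  obtain ⟨f, hf, hp⟩ := chkT4 h (by norm_num) (x := x) (y := y) (z := s) (w := r)
    (by norm_num; linarith only [ua1]) (by norm_num; linarith only [ua2]) (by norm_num; linarith only [ua3]) (by norm_num; linarith only [ua4]) (by norm_num; linarith only [ua5]) (by norm_num; linarith only [ua6]) (by norm_num; linarith only [ua7]) (by norm_num; linarith only [ua8])
  by_contra hc
  push Not at hc
  simp only [List.mem_cons, List.not_mem_nil, or_false] at hf
  rcases hf with rfl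
  · simp only [ZE.x, ZE.y, ZE.s, ZE.r, ZE.h, E.val, NumI.lkR] at hp
    push_cast at hp
    linarith only [hc, hp]

/-- `lnA` at the corner -/
private theorem lnA_6_3 : NumI.lnA (6 / 100) (3 / 100) ≤ -(86 / 100) := by
  have h : chk [sub (q (-86) 100) (E.lnA (q 6 100) (q 3 100))] 1
      [NumI.V.of 1 0 0] = true := by decide +kernel
  have hp := pos_of_chk (chk1 h (by norm_num) (x := 0) (by norm_num) (by norm_num))
  simp only [E.val] at hp
  push_cast at hp
  linarith only [hp]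

end

private theorem corner4' {x y s r a b : ℝ} (x0 : 0 ≤ x) (x1 : x ≤ 300 / 10000) (s0 : 0 ≤ s)
    (s1 : s ≤ 300 / 10000) (y1 : |y| ≤ 56 / 100 * x) (r0 : 0 ≤ r) (r1 : r ≤ 1045 / 10000)
    (hab : |(|a| - |b|)| ≤ 2 * (56 / 100 * x)) (ha : |a| ≤ |y| + 4 * (r * s))
    (hb : |b| ≤ |y| + 4 * (r * s)) :
    uu (x + s) a + uu (1 + x - s) b ≤ 3 / 1000 := by
  have h1 : r * s ≤ 1045 / 10000 * (300 / 10000) := mul_le_mul r1 s1 s0 (by norm_num)
  have h := UC.corner (a := a) (b := b) (z0 := 6 / 100) (h0 := 3 / 100) x0 s0 (by linarith only [x1, s1])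
    (by norm_num) (by linarith only [x1, y1, ha, h1]) (by linarith only [x1, y1, hb, h1])
  have hp := Real.pi_pos
  have hp4 := Real.pi_lt_d4
  have h2 : Real.pi / 2 * |(|a| - |b|)| ≤ Real.pi / 2 * (2 * (56 / 100 * x)) :=
    mul_le_mul_of_nonneg_left hab (by positivity)
  have h3 : 2 * x * NumI.lnA (6 / 100) (3 / 100) ≤ 2 * x * (-(86 / 100)) :=
    mul_le_mul_of_nonneg_left lnA_6_3 (by linarith only [x0])
  nlinarith only [x1, h, h2, h3, x0, hp4]

theorem corner4 {x y s r : ℝ} (x0 : 0 ≤ x) (x1 : x ≤ 300 / 10000) (s0 : 0 ≤ s)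
    (s1 : s ≤ 300 / 10000) (y1 : |y| ≤ 56 / 100 * x) (r0 : 0 ≤ r) (r1 : r ≤ 1045 / 10000) :
    uu (x + s) (y + 4 * (r * s)) + uu (1 + x - s) (y - 4 * (r * s)) ≤ 3 / 1000 := by
  have h0 : 0 ≤ 4 * (r * s) := by positivity
  refine corner4' x0 x1 s0 s1 y1 r0 r1 (abs_diff_le (Or.inl y1)) ?_ ?_
  · have := abs_add_le y (4 * (r * s))
    rwa [abs_of_nonneg h0] at this
  · have := abs_sub y (4 * (r * s))
    rwa [abs_of_nonneg h0] at this

theorem corner4m {x y s r : ℝ} (x0 : 0 ≤ x) (x1 : x ≤ 300 / 10000) (s0 : 0 ≤ s)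
    (s1 : s ≤ 300 / 10000) (y1 : |y| ≤ 56 / 100 * x) (r0 : 0 ≤ r) (r1 : r ≤ 1045 / 10000) :
    uu (x + s) (y - 4 * (r * s)) + uu (1 + x - s) (y + 4 * (r * s)) ≤ 3 / 1000 := by
  have h0 : 0 ≤ 4 * (r * s) := by positivity
  refine corner4' x0 x1 s0 s1 y1 r0 r1 ?_ ?_ ?_
  · rw [abs_sub_comm]
    exact abs_diff_le (Or.inl y1)
  · have := abs_sub y (4 * (r * s))
    rwa [abs_of_nonneg h0] at this
  · have := abs_add_le y (4 * (r * s))
    rwa [abs_of_nonneg h0] at this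

end ZD

end Pool.Agent.Work.MP_b30479_gt.G2
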