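import Pool.Agent.Work.MP_b30479_gt.G2.ZRe4E
import Pool.Agent.Work.MP_b30479_gt.G2.ZRe4A
import Pool.Agent.Work.MP_b30479_gt.G2.ZRe4B

/-!
# The loss at a hinge between two rings: `e4a`
-/

set_option linter.unusedSimpArgs false
set_option linter.unusedVariables false

namespace Pool.Agent.Work.MP_b30479_gt.G2

open VOL NumU

namespace ZD

theorem e4a_p {x y s r : ℝ} (x0 : 0 ≤ x) (x1 : x ≤ 1 / 2) (y0 : |y| ≤ 56 / 1000)
    (y1 : |y| ≤ 56 / 100 * x) (y2 : |y| ≤ 28 / 10 * (1 / 2 - x)) (s0 : 0 ≤ s) (s1 : s ≤ 1 / 5)
    (r0 : 0 ≤ r) (r1 : r ≤ 1045 / 10000) : uu (x + s) (y + 4 * (r * s)) + uu (1 + x - s) (y - 4 * (r * s)) +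
      (-uu (x + 225 / 1000) (y + 9 / 10 * r) + -uu (x + 775 / 1000) (y - 9 / 10 * r)) ≤
      (107 / 1000 + 64 / 100 * r + 2 * Real.pi * r * (9 / 100 + 4 * s * (4 * s - 1))) := by
  have y1' := y1
  rw [abs_le] at y0 y1 y2
  obtain ⟨a0, a1⟩ := y0
  obtain ⟨b0, b1⟩ := y1
  obtain ⟨c0, c1⟩ := y2
  have hrs : 0 ≤ r * s := mul_nonneg r0 s0
  by_cases hc : x ≤ 300 / 10000 ∧ s ≤ 300 / 10000
  · obtain ⟨hc1, hc2⟩ := hc
    have T := e4a_pC (x := x) (y := y) (s := s) (r := r) (by linarith only [x0]) (by linarith only [hc1]) (by linarith only [b0, hc1]) (by linarith only [b1, hc1]) (by linarith only [s0]) (by linarith only [hc2]) (by linarith only [r0]) (by linarith only [r1])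
    have := corner4 x0 hc1 s0 hc2 y1' r0 r1
    linarith only [T, this]
  have hc' : 300 / 10000 ≤ s ∨ 300 / 10000 ≤ x := by
    by_contra h
    push Not at h
    exact hc ⟨h.2.le, h.1.le⟩
  rcases le_or_gt (x - s) (-(300 / 10000)) with d | d
  · have T := e4a_pD1X1 (x := x) (y := y) (s := s) (r := r) (by linarith only [x0]) (by linarith only [s1, d]) (by linarith only [a0]) (by linarith only [a1]) (by linarith only [x0, d]) (by linarith only [s1]) (by linarith only [r0]) (by linarith only [r1]) (by linarith only [d]) (by linarith only [b1]) (by linarith only [b0])
    linarith only [T]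
  rcases le_or_gt (x - s) 0 with d' | d'
  · have hs : 300 / 10000 ≤ s := by
      rcases hc' with h | h
      · exact h
      · linarith only [d', h]
    rcases le_or_gt x (1950 / 10000) with g | g
    · have T := e4a_pD2X1 (x := x) (y := y) (s := s) (r := r) (by linarith only [x0]) (by linarith only [g]) (by linarith only [a0]) (by linarith only [a1]) (by linarith only [hs]) (by linarith only [s1]) (by linarith only [r0]) (by linarith only [r1]) (by linarith only [d]) (by linarith only [d']) (by linarith only [b1]) (by linarith only [b0])
      have t2 := d2 (x := x) (s := s) (b := (y - 4 * (r * s))) (δ := (300 / 10000)) (by norm_num) (by norm_num) (by linarith only [d]) (by linarith only [d'])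
      linarith only [T, t2]
    · have T := e4a_pD2X2 (x := x) (y := y) (s := s) (r := r) (by linarith only [g]) (by linarith only [s1, d']) (by linarith only [a0]) (by linarith only [a1]) (by linarith only [d', g]) (by linarith only [s1]) (by linarith only [r0]) (by linarith only [r1]) (by linarith only [s1, g]) (by linarith only [d'])
      have t2 := d2 (x := x) (s := s) (b := (y - 4 * (r * s))) (δ := (300 / 10000)) (by norm_num) (by norm_num) (by linarith only [s1, g]) (by linarith only [d'])
      have u0 := x2 (x := x) (c := (y - 9 / 10 * r)) (c' := (y - 9 / 10 * r)) (δ := (300 / 10000)) (K := (100 / 3)) (le_abs_self _) (by norm_num) (by norm_num) (by norm_num) (by linarith only [s1, d']) (by linarith only [g])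
      have u1 := x2 (x := x) (c := (y - 9 / 10 * r)) (c' := (-(y - 9 / 10 * r))) (δ := (300 / 10000)) (K := (100 / 3)) (neg_le_abs _) (by norm_num) (by norm_num) (by norm_num) (by linarith only [s1, d']) (by linarith only [g])
      rcases T with T | T <;> linarith only [t2, u0, T, u1]
  have hx : 300 / 10000 ≤ x := by
    rcases hc' with h | h
    · linarith only [d', h]
    · exact h
  rcases le_or_gt (x - s) (300 / 10000) with e | e
  · rcases le_or_gt 0 (y - 4 * (r * s)) with f | f
    · rcases le_or_gt x (1950 / 10000) with g | g
      · have T := e4a_pD3X1p (x := x) (y := y) (s := s) (r := r) (by linarith only [hx]) (by linarith only [g]) (by linarith only [hrs, d', e, f]) (by linarith only [a1]) (by linarith only [s0]) (by linarith only [d', g]) (by linarith only [r0]) (by linarith only [r1]) (by linarith only [d']) (by linarith only [e]) (by linarith only [f]) (by linarith only [b1]) (by linarith only [s0, hrs, d', f])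
        have t2 := d3p (x := x) (s := s) (b := (y - 4 * (r * s))) (δ := (300 / 10000)) (K := (100 / 3)) (by linarith only [f]) (by norm_num) (by norm_num) (by norm_num) (by linarith only [d']) (by linarith only [e])
        linarith only [T, t2]
      · rcases le_or_gt x (2250 / 10000) with g | g
        · have T := e4a_pD3X2p (x := x) (y := y) (s := s) (r := r) (by linarith) (by linarith only [g]) (by linarith only [hrs, d', e, f]) (by linarith only [a1]) (by linarith) (by linarith only [s1]) (by linarith only [r0]) (by linarith only [r1]) (by linarith only [d']) (by linarith only [e]) (by linarith only [f])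
          have t2 := d3p (x := x) (s := s) (b := (y - 4 * (r * s))) (δ := (300 / 10000)) (K := (100 / 3)) (by linarith only [f]) (by norm_num) (by norm_num) (by norm_num) (by linarith only [d']) (by linarith only [e])
          have u0 := x2 (x := x) (c := (y - 9 / 10 * r)) (c' := (y - 9 / 10 * r)) (δ := (300 / 10000)) (K := (100 / 3)) (le_abs_self _) (by norm_num) (by norm_num) (by norm_num) (by linarith only [g]) (by linarith)
          have u1 := x2 (x := x) (c := (y - 9 / 10 * r)) (c' := (-(y - 9 / 10 * r))) (δ := (300 / 10000)) (K := (100 / 3)) (neg_le_abs _) (by norm_num) (by norm_num) (by norm_num) (by linarith only [g]) (by linarith)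
          rcases T with T | T <;> linarith only [t2, u0, T, u1]
        · have T := e4a_pD3X3p (x := x) (y := y) (s := s) (r := r) (by linarith only [g]) (by linarith only [s1, e]) (by linarith only [hrs, d', e, f]) (by linarith only [a1]) (by linarith only [e, g]) (by linarith only [s1]) (by linarith only [r0]) (by linarith only [r1]) (by linarith only [d']) (by linarith only [e]) (by linarith only [f])
          have t2 := d3p (x := x) (s := s) (b := (y - 4 * (r * s))) (δ := (300 / 10000)) (K := (100 / 3)) (by linarith only [f]) (by norm_num) (by norm_num) (by norm_num) (by linarith only [d']) (by linarith only [e])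
          have u0 := x3 (x := x) (c := (y - 9 / 10 * r)) (c' := (y - 9 / 10 * r)) (δ := (300 / 10000)) (le_abs_self _) (by norm_num) (by norm_num) (by linarith only [g]) (by linarith only [s1, d', e])
          have u1 := x3 (x := x) (c := (y - 9 / 10 * r)) (c' := (-(y - 9 / 10 * r))) (δ := (300 / 10000)) (neg_le_abs _) (by norm_num) (by norm_num) (by linarith only [g]) (by linarith only [s1, d', e])
          rcases T with T | T <;> linarith only [t2, u0, T, u1]
    · rcases le_or_gt x (1950 / 10000) with g | g
      · have T := e4a_pD3X1n (x := x) (y := y) (s := s) (r := r) (by linarith only [hx]) (by linarith only [g]) (by linarith only [a0]) (by linarith only [a1]) (by linarith only [s0]) (by linarith only [d', g]) (by linarith only [r0]) (by linarith only [r1]) (by linarith only [d']) (by linarith only [e]) (by linarith only [f]) (by linarith only [b1]) (by linarith only [b0])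
        have t2 := d3n (x := x) (s := s) (b := (y - 4 * (r * s))) (δ := (300 / 10000)) (K := (100 / 3)) (by linarith only [f]) (by norm_num) (by norm_num) (by norm_num) (by linarith only [d']) (by linarith only [e])
        linarith only [T, t2]
      · rcases le_or_gt x (2250 / 10000) with g | g
        · have T := e4a_pD3X2n (x := x) (y := y) (s := s) (r := r) (by linarith) (by linarith only [g]) (by linarith only [a0]) (by linarith only [a1]) (by linarith) (by linarith only [s1]) (by linarith only [r0]) (by linarith only [r1]) (by linarith only [d']) (by linarith only [e]) (by linarith only [f])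
          have t2 := d3n (x := x) (s := s) (b := (y - 4 * (r * s))) (δ := (300 / 10000)) (K := (100 / 3)) (by linarith only [f]) (by norm_num) (by norm_num) (by norm_num) (by linarith only [d']) (by linarith only [e])
          have u0 := x2 (x := x) (c := (y - 9 / 10 * r)) (c' := (y - 9 / 10 * r)) (δ := (300 / 10000)) (K := (100 / 3)) (le_abs_self _) (by norm_num) (by norm_num) (by norm_num) (by linarith only [g]) (by linarith)
          have u1 := x2 (x := x) (c := (y - 9 / 10 * r)) (c' := (-(y - 9 / 10 * r))) (δ := (300 / 10000)) (K := (100 / 3)) (neg_le_abs _) (by norm_num) (by norm_num) (by norm_num) (by linarith only [g]) (by linarith)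
          rcases T with T | T <;> linarith only [t2, u0, T, u1]
        · have T := e4a_pD3X3n (x := x) (y := y) (s := s) (r := r) (by linarith only [g]) (by linarith only [s1, e]) (by linarith only [a0]) (by linarith only [a1]) (by linarith only [e, g]) (by linarith only [s1]) (by linarith only [r0]) (by linarith only [r1]) (by linarith only [d']) (by linarith only [e]) (by linarith only [f])
          have t2 := d3n (x := x) (s := s) (b := (y - 4 * (r * s))) (δ := (300 / 10000)) (K := (100 / 3)) (by linarith only [f]) (by norm_num) (by norm_num) (by norm_num) (by linarith only [d']) (by linarith only [e])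
          have u0 := x3 (x := x) (c := (y - 9 / 10 * r)) (c' := (y - 9 / 10 * r)) (δ := (300 / 10000)) (le_abs_self _) (by norm_num) (by norm_num) (by linarith only [g]) (by linarith only [s1, d', e])
          have u1 := x3 (x := x) (c := (y - 9 / 10 * r)) (c' := (-(y - 9 / 10 * r))) (δ := (300 / 10000)) (neg_le_abs _) (by norm_num) (by norm_num) (by linarith only [g]) (by linarith only [s1, d', e])
          rcases T with T | T <;> linarith only [t2, u0, T, u1]
  rcases le_or_gt 0 (y - 4 * (r * s)) with f | f
  · rcases le_or_gt x (1950 / 10000) with g | g
    · have T := e4a_pD4X1p (x := x) (y := y) (s := s) (r := r) (by linarith only [hx]) (by linarith only [g]) (by linarith only [hrs, f]) (by linarith only [a1]) (by linarith only [s0]) (by linarith only [e, g]) (by linarith only [r0]) (by linarith only [r1]) (by linarith only [e]) (by linarith only [f]) (by linarith only [b1]) (by linarith only [s0, hrs, d', f])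
      have t2 := d4p (x := x) (s := s) (b := (y - 4 * (r * s))) (by linarith only [f])
      linarith only [T, t2]
    · rcases le_or_gt x (2250 / 10000) with g | g
      · have T := e4a_pD4X2p (x := x) (y := y) (s := s) (r := r) (by linarith) (by linarith only [g]) (by linarith only [s0, hrs, d', f, g]) (by linarith only [a1]) (by linarith only [s0]) (by linarith only [e, g]) (by linarith only [r0]) (by linarith only [r1]) (by linarith only [e]) (by linarith only [f])
        have t2 := d4p (x := x) (s := s) (b := (y - 4 * (r * s))) (by linarith only [f])
        have u0 := x2 (x := x) (c := (y - 9 / 10 * r)) (c' := (y - 9 / 10 * r)) (δ := (300 / 10000)) (K := (100 / 3)) (le_abs_self _) (by norm_num) (by norm_num) (by norm_num) (by linarith only [g]) (by linarith)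
        have u1 := x2 (x := x) (c := (y - 9 / 10 * r)) (c' := (-(y - 9 / 10 * r))) (δ := (300 / 10000)) (K := (100 / 3)) (neg_le_abs _) (by norm_num) (by norm_num) (by norm_num) (by linarith only [g]) (by linarith)
        rcases T with T | T <;> linarith only [t2, u0, T, u1]
      · rcases le_or_gt x (2550 / 10000) with g | g
        · have T := e4a_pD4X3p (x := x) (y := y) (s := s) (r := r) (by linarith) (by linarith only [g]) (by linarith only [s0, hrs, d', f, g]) (by linarith only [a1]) (by linarith only [s0]) (by linarith only [s1]) (by linarith only [r0]) (by linarith only [r1]) (by linarith only [e]) (by linarith only [f])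
          have t2 := d4p (x := x) (s := s) (b := (y - 4 * (r * s))) (by linarith only [f])
          have u0 := x3 (x := x) (c := (y - 9 / 10 * r)) (c' := (y - 9 / 10 * r)) (δ := (300 / 10000)) (le_abs_self _) (by norm_num) (by norm_num) (by linarith) (by linarith only [g])
          have u1 := x3 (x := x) (c := (y - 9 / 10 * r)) (c' := (-(y - 9 / 10 * r))) (δ := (300 / 10000)) (neg_le_abs _) (by norm_num) (by norm_num) (by linarith) (by linarith only [g])
          rcases T with T | T <;> linarith only [t2, u0, T, u1]
        · have T := e4a_pD4X4p (x := x) (y := y) (s := s) (r := r) (by linarith only [g]) (by linarith only [x1]) (by linarith only [x1, s0, hrs, d', f]) (by linarith only [a1]) (by linarith only [s0]) (by linarith only [s1]) (by linarith only [r0]) (by linarith only [r1]) (by linarith only [f]) (by linarith only [c1]) (by linarith only [x1, hrs, f])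
          have t2 := d4p (x := x) (s := s) (b := (y - 4 * (r * s))) (by linarith only [f])
          have u0 := x4 (x := x) (c := (y - 9 / 10 * r)) (c' := (y - 9 / 10 * r)) (le_abs_self _)
          have u1 := x4 (x := x) (c := (y - 9 / 10 * r)) (c' := (-(y - 9 / 10 * r))) (neg_le_abs _)
          rcases T with T | T <;> linarith only [t2, u0, T, u1]
  · rcases le_or_gt x (1950 / 10000) with g | g
    · have T := e4a_pD4X1n (x := x) (y := y) (s := s) (r := r) (by linarith only [hx]) (by linarith only [g]) (by linarith only [a0]) (by linarith only [a1]) (by linarith only [s0]) (by linarith only [e, g]) (by linarith only [r0]) (by linarith only [r1]) (by linarith only [e]) (by linarith only [f]) (by linarith only [b1]) (by linarith only [b0])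
      have t2 := d4n (x := x) (s := s) (b := (y - 4 * (r * s))) (by linarith only [f])
      linarith only [T, t2]
    · rcases le_or_gt x (2250 / 10000) with g | g
      · have T := e4a_pD4X2n (x := x) (y := y) (s := s) (r := r) (by linarith) (by linarith only [g]) (by linarith only [a0]) (by linarith only [a1]) (by linarith only [s0]) (by linarith only [e, g]) (by linarith only [r0]) (by linarith only [r1]) (by linarith only [e]) (by linarith only [f])
        have t2 := d4n (x := x) (s := s) (b := (y - 4 * (r * s))) (by linarith only [f])
        have u0 := x2 (x := x) (c := (y - 9 / 10 * r)) (c' := (y - 9 / 10 * r)) (δ := (300 / 10000)) (K := (100 / 3)) (le_abs_self _) (by norm_num) (by norm_num) (by norm_num) (by linarith only [g]) (by linarith)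
        have u1 := x2 (x := x) (c := (y - 9 / 10 * r)) (c' := (-(y - 9 / 10 * r))) (δ := (300 / 10000)) (K := (100 / 3)) (neg_le_abs _) (by norm_num) (by norm_num) (by norm_num) (by linarith only [g]) (by linarith)
        rcases T with T | T <;> linarith only [t2, u0, T, u1]
      · rcases le_or_gt x (2550 / 10000) with g | g
        · have T := e4a_pD4X3n (x := x) (y := y) (s := s) (r := r) (by linarith) (by linarith only [g]) (by linarith only [a0]) (by linarith only [a1]) (by linarith only [s0]) (by linarith only [s1]) (by linarith only [r0]) (by linarith only [r1]) (by linarith only [e]) (by linarith only [f])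
          have t2 := d4n (x := x) (s := s) (b := (y - 4 * (r * s))) (by linarith only [f])
          have u0 := x3 (x := x) (c := (y - 9 / 10 * r)) (c' := (y - 9 / 10 * r)) (δ := (300 / 10000)) (le_abs_self _) (by norm_num) (by norm_num) (by linarith) (by linarith only [g])
          have u1 := x3 (x := x) (c := (y - 9 / 10 * r)) (c' := (-(y - 9 / 10 * r))) (δ := (300 / 10000)) (neg_le_abs _) (by norm_num) (by norm_num) (by linarith) (by linarith only [g])
          rcases T with T | T <;> linarith only [t2, u0, T, u1]
        · have T := e4a_pD4X4n (x := x) (y := y) (s := s) (r := r) (by linarith only [g]) (by linarith only [x1]) (by linarith only [a0]) (by linarith only [a1]) (by linarith only [s0]) (by linarith only [s1]) (by linarith only [r0]) (by linarith only [r1]) (by linarith only [f]) (by linarith only [c1]) (by linarith only [c0])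
          have t2 := d4n (x := x) (s := s) (b := (y - 4 * (r * s))) (by linarith only [f])
          have u0 := x4 (x := x) (c := (y - 9 / 10 * r)) (c' := (y - 9 / 10 * r)) (le_abs_self _)
          have u1 := x4 (x := x) (c := (y - 9 / 10 * r)) (c' := (-(y - 9 / 10 * r))) (neg_le_abs _)
          rcases T with T | T <;> linarith only [t2, u0, T, u1]

theorem e4a_m {x y s r : ℝ} (x0 : 0 ≤ x) (x1 : x ≤ 1 / 2) (y0 : |y| ≤ 56 / 1000)
    (y1 : |y| ≤ 56 / 100 * x) (y2 : |y| ≤ 28 / 10 * (1 / 2 - x)) (s0 : 0 ≤ s) (s1 : s ≤ 1 / 5)
    (r0 : 0 ≤ r) (r1 : r ≤ 1045 / 10000) : uu (x + s) (y - 4 * (r * s)) + uu (1 + x - s) (y + 4 * (r * s)) +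
      (-uu (x + 225 / 1000) (y + 9 / 10 * r) + -uu (x + 775 / 1000) (y - 9 / 10 * r)) ≤
      (107 / 1000 + 64 / 100 * r + 2 * Real.pi * r * (9 / 100 + 4 * s * (5 / 2 - 3 * s))) := by
  have y1' := y1
  rw [abs_le] at y0 y1 y2
  obtain ⟨a0, a1⟩ := y0
  obtain ⟨b0, b1⟩ := y1
  obtain ⟨c0, c1⟩ := y2
  have hrs : 0 ≤ r * s := mul_nonneg r0 s0
  by_cases hc : x ≤ 300 / 10000 ∧ s ≤ 300 / 10000
  · obtain ⟨hc1, hc2⟩ := hc
    have T := e4a_mC (x := x) (y := y) (s := s) (r := r) (by linarith only [x0]) (by linarith only [hc1]) (by linarith only [b0, hc1]) (by linarith only [b1, hc1]) (by linarith only [s0]) (by linarith only [hc2]) (by linarith only [r0]) (by linarith only [r1])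
    have := corner4m x0 hc1 s0 hc2 y1' r0 r1
    linarith only [T, this]
  have hc' : 300 / 10000 ≤ s ∨ 300 / 10000 ≤ x := by
    by_contra h
    push Not at h
    exact hc ⟨h.2.le, h.1.le⟩
  rcases le_or_gt (x - s) (-(300 / 10000)) with d | d
  · have T := e4a_mD1X1 (x := x) (y := y) (s := s) (r := r) (by linarith only [x0]) (by linarith only [s1, d]) (by linarith only [a0]) (by linarith only [a1]) (by linarith only [x0, d]) (by linarith only [s1]) (by linarith only [r0]) (by linarith only [r1]) (by linarith only [d]) (by linarith only [b1]) (by linarith only [b0])
    linarith only [T]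
  rcases le_or_gt (x - s) 0 with d' | d'
  · have hs : 300 / 10000 ≤ s := by
      rcases hc' with h | h
      · exact h
      · linarith only [d', h]
    rcases le_or_gt x (1950 / 10000) with g | g
    · have T := e4a_mD2X1 (x := x) (y := y) (s := s) (r := r) (by linarith only [x0]) (by linarith only [g]) (by linarith only [a0]) (by linarith only [a1]) (by linarith only [hs]) (by linarith only [s1]) (by linarith only [r0]) (by linarith only [r1]) (by linarith only [d]) (by linarith only [d']) (by linarith only [b1]) (by linarith only [b0])
      have t2 := d2 (x := x) (s := s) (b := (y + 4 * (r * s))) (δ := (300 / 10000)) (by norm_num) (by norm_num) (by linarith only [d]) (by linarith only [d'])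
      linarith only [T, t2]
    · have T := e4a_mD2X2 (x := x) (y := y) (s := s) (r := r) (by linarith only [g]) (by linarith only [s1, d']) (by linarith only [a0]) (by linarith only [a1]) (by linarith only [d', g]) (by linarith only [s1]) (by linarith only [r0]) (by linarith only [r1]) (by linarith only [s1, g]) (by linarith only [d'])
      have t2 := d2 (x := x) (s := s) (b := (y + 4 * (r * s))) (δ := (300 / 10000)) (by norm_num) (by norm_num) (by linarith only [s1, g]) (by linarith only [d'])
      have u0 := x2 (x := x) (c := (y - 9 / 10 * r)) (c' := (y - 9 / 10 * r)) (δ := (300 / 10000)) (K := (100 / 3)) (le_abs_self _) (by norm_num) (by norm_num) (by norm_num) (by linarith only [s1, d']) (by linarith only [g])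
      have u1 := x2 (x := x) (c := (y - 9 / 10 * r)) (c' := (-(y - 9 / 10 * r))) (δ := (300 / 10000)) (K := (100 / 3)) (neg_le_abs _) (by norm_num) (by norm_num) (by norm_num) (by linarith only [s1, d']) (by linarith only [g])
      rcases T with T | T <;> linarith only [t2, u0, T, u1]
  have hx : 300 / 10000 ≤ x := by
    rcases hc' with h | h
    · linarith only [d', h]
    · exact h
  rcases le_or_gt (x - s) (300 / 10000) with e | e
  · rcases le_or_gt 0 (y + 4 * (r * s)) with f | f
    · rcases le_or_gt x (1950 / 10000) with g | g
      · have T := e4a_mD3X1p (x := x) (y := y) (s := s) (r := r) (by linarith only [hx]) (by linarith only [g]) (by linarith only [a0]) (by linarith only [a1]) (by linarith only [s0]) (by linarith only [d', g]) (by linarith only [r0]) (by linarith only [r1]) (by linarith only [d']) (by linarith only [e]) (by linarith only [f]) (by linarith only [b1]) (by linarith only [b0])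
        have t2 := d3p (x := x) (s := s) (b := (y + 4 * (r * s))) (δ := (300 / 10000)) (K := (100 / 3)) (by linarith only [f]) (by norm_num) (by norm_num) (by norm_num) (by linarith only [d']) (by linarith only [e])
        linarith only [T, t2]
      · rcases le_or_gt x (2250 / 10000) with g | g
        · have T := e4a_mD3X2p (x := x) (y := y) (s := s) (r := r) (by linarith) (by linarith only [g]) (by linarith only [a0]) (by linarith only [a1]) (by linarith) (by linarith only [s1]) (by linarith only [r0]) (by linarith only [r1]) (by linarith only [d']) (by linarith only [e]) (by linarith only [f])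
          have t2 := d3p (x := x) (s := s) (b := (y + 4 * (r * s))) (δ := (300 / 10000)) (K := (100 / 3)) (by linarith only [f]) (by norm_num) (by norm_num) (by norm_num) (by linarith only [d']) (by linarith only [e])
          have u0 := x2 (x := x) (c := (y - 9 / 10 * r)) (c' := (y - 9 / 10 * r)) (δ := (300 / 10000)) (K := (100 / 3)) (le_abs_self _) (by norm_num) (by norm_num) (by norm_num) (by linarith only [g]) (by linarith)
          have u1 := x2 (x := x) (c := (y - 9 / 10 * r)) (c' := (-(y - 9 / 10 * r))) (δ := (300 / 10000)) (K := (100 / 3)) (neg_le_abs _) (by norm_num) (by norm_num) (by norm_num) (by linarith only [g]) (by linarith)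
          rcases T with T | T <;> linarith only [t2, u0, T, u1]
        · have T := e4a_mD3X3p (x := x) (y := y) (s := s) (r := r) (by linarith only [g]) (by linarith only [s1, e]) (by linarith only [a0]) (by linarith only [a1]) (by linarith only [e, g]) (by linarith only [s1]) (by linarith only [r0]) (by linarith only [r1]) (by linarith only [d']) (by linarith only [e]) (by linarith only [f])
          have t2 := d3p (x := x) (s := s) (b := (y + 4 * (r * s))) (δ := (300 / 10000)) (K := (100 / 3)) (by linarith only [f]) (by norm_num) (by norm_num) (by norm_num) (by linarith only [d']) (by linarith only [e])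
          have u0 := x3 (x := x) (c := (y - 9 / 10 * r)) (c' := (y - 9 / 10 * r)) (δ := (300 / 10000)) (le_abs_self _) (by norm_num) (by norm_num) (by linarith only [g]) (by linarith only [s1, d', e])
          have u1 := x3 (x := x) (c := (y - 9 / 10 * r)) (c' := (-(y - 9 / 10 * r))) (δ := (300 / 10000)) (neg_le_abs _) (by norm_num) (by norm_num) (by linarith only [g]) (by linarith only [s1, d', e])
          rcases T with T | T <;> linarith only [t2, u0, T, u1]
    · rcases le_or_gt x (1950 / 10000) with g | g
      · have T := e4a_mD3X1n (x := x) (y := y) (s := s) (r := r) (by linarith only [hx]) (by linarith only [g]) (by linarith only [a0]) (by linarith only [a1]) (by linarith only [s0]) (by linarith only [d', g]) (by linarith only [r0]) (by linarith only [r1]) (by linarith only [d']) (by linarith only [e]) (by linarith only [f]) (by linarith only [b1]) (by linarith only [b0])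
        have t2 := d3n (x := x) (s := s) (b := (y + 4 * (r * s))) (δ := (300 / 10000)) (K := (100 / 3)) (by linarith only [f]) (by norm_num) (by norm_num) (by norm_num) (by linarith only [d']) (by linarith only [e])
        linarith only [T, t2]
      · rcases le_or_gt x (2250 / 10000) with g | g
        · have T := e4a_mD3X2n (x := x) (y := y) (s := s) (r := r) (by linarith) (by linarith only [g]) (by linarith only [a0]) (by linarith only [a1]) (by linarith) (by linarith only [s1]) (by linarith only [r0]) (by linarith only [r1]) (by linarith only [d']) (by linarith only [e]) (by linarith only [f])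
          have t2 := d3n (x := x) (s := s) (b := (y + 4 * (r * s))) (δ := (300 / 10000)) (K := (100 / 3)) (by linarith only [f]) (by norm_num) (by norm_num) (by norm_num) (by linarith only [d']) (by linarith only [e])
          have u0 := x2 (x := x) (c := (y - 9 / 10 * r)) (c' := (y - 9 / 10 * r)) (δ := (300 / 10000)) (K := (100 / 3)) (le_abs_self _) (by norm_num) (by norm_num) (by norm_num) (by linarith only [g]) (by linarith)
          have u1 := x2 (x := x) (c := (y - 9 / 10 * r)) (c' := (-(y - 9 / 10 * r))) (δ := (300 / 10000)) (K := (100 / 3)) (neg_le_abs _) (by norm_num) (by norm_num) (by norm_num) (by linarith only [g]) (by linarith)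
          rcases T with T | T <;> linarith only [t2, u0, T, u1]
        · have T := e4a_mD3X3n (x := x) (y := y) (s := s) (r := r) (by linarith only [g]) (by linarith only [s1, e]) (by linarith only [a0]) (by linarith only [a1]) (by linarith only [e, g]) (by linarith only [s1]) (by linarith only [r0]) (by linarith only [r1]) (by linarith only [d']) (by linarith only [e]) (by linarith only [f])
          have t2 := d3n (x := x) (s := s) (b := (y + 4 * (r * s))) (δ := (300 / 10000)) (K := (100 / 3)) (by linarith only [f]) (by norm_num) (by norm_num) (by norm_num) (by linarith only [d']) (by linarith only [e])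
          have u0 := x3 (x := x) (c := (y - 9 / 10 * r)) (c' := (y - 9 / 10 * r)) (δ := (300 / 10000)) (le_abs_self _) (by norm_num) (by norm_num) (by linarith only [g]) (by linarith only [s1, d', e])
          have u1 := x3 (x := x) (c := (y - 9 / 10 * r)) (c' := (-(y - 9 / 10 * r))) (δ := (300 / 10000)) (neg_le_abs _) (by norm_num) (by norm_num) (by linarith only [g]) (by linarith only [s1, d', e])
          rcases T with T | T <;> linarith only [t2, u0, T, u1]
  rcases le_or_gt 0 (y + 4 * (r * s)) with f | f
  · rcases le_or_gt x (1950 / 10000) with g | g
    · have T := e4a_mD4X1p (x := x) (y := y) (s := s) (r := r) (by linarith only [hx]) (by linarith only [g]) (by linarith only [a0]) (by linarith only [a1]) (by linarith only [s0]) (by linarith only [e, g]) (by linarith only [r0]) (by linarith only [r1]) (by linarith only [e]) (by linarith only [f]) (by linarith only [b1]) (by linarith only [b0])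
      have t2 := d4p (x := x) (s := s) (b := (y + 4 * (r * s))) (by linarith only [f])
      linarith only [T, t2]
    · rcases le_or_gt x (2250 / 10000) with g | g
      · have T := e4a_mD4X2p (x := x) (y := y) (s := s) (r := r) (by linarith) (by linarith only [g]) (by linarith only [a0]) (by linarith only [a1]) (by linarith only [s0]) (by linarith only [e, g]) (by linarith only [r0]) (by linarith only [r1]) (by linarith only [e]) (by linarith only [f])
        have t2 := d4p (x := x) (s := s) (b := (y + 4 * (r * s))) (by linarith only [f])
        have u0 := x2 (x := x) (c := (y - 9 / 10 * r)) (c' := (y - 9 / 10 * r)) (δ := (300 / 10000)) (K := (100 / 3)) (le_abs_self _) (by norm_num) (by norm_num) (by norm_num) (by linarith only [g]) (by linarith)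
        have u1 := x2 (x := x) (c := (y - 9 / 10 * r)) (c' := (-(y - 9 / 10 * r))) (δ := (300 / 10000)) (K := (100 / 3)) (neg_le_abs _) (by norm_num) (by norm_num) (by norm_num) (by linarith only [g]) (by linarith)
        rcases T with T | T <;> linarith only [t2, u0, T, u1]
      · rcases le_or_gt x (2550 / 10000) with g | g
        · have T := e4a_mD4X3p (x := x) (y := y) (s := s) (r := r) (by linarith) (by linarith only [g]) (by linarith only [a0]) (by linarith only [a1]) (by linarith only [s0]) (by linarith only [s1]) (by linarith only [r0]) (by linarith only [r1]) (by linarith only [e]) (by linarith only [f])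
          have t2 := d4p (x := x) (s := s) (b := (y + 4 * (r * s))) (by linarith only [f])
          have u0 := x3 (x := x) (c := (y - 9 / 10 * r)) (c' := (y - 9 / 10 * r)) (δ := (300 / 10000)) (le_abs_self _) (by norm_num) (by norm_num) (by linarith) (by linarith only [g])
          have u1 := x3 (x := x) (c := (y - 9 / 10 * r)) (c' := (-(y - 9 / 10 * r))) (δ := (300 / 10000)) (neg_le_abs _) (by norm_num) (by norm_num) (by linarith) (by linarith only [g])
          rcases T with T | T <;> linarith only [t2, u0, T, u1]
        · have T := e4a_mD4X4p (x := x) (y := y) (s := s) (r := r) (by linarith only [g]) (by linarith only [x1]) (by linarith only [a0]) (by linarith only [a1]) (by linarith only [s0]) (by linarith only [s1]) (by linarith only [r0]) (by linarith only [r1]) (by linarith only [f]) (by linarith only [c1]) (by linarith only [c0])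
          have t2 := d4p (x := x) (s := s) (b := (y + 4 * (r * s))) (by linarith only [f])
          have u0 := x4 (x := x) (c := (y - 9 / 10 * r)) (c' := (y - 9 / 10 * r)) (le_abs_self _)
          have u1 := x4 (x := x) (c := (y - 9 / 10 * r)) (c' := (-(y - 9 / 10 * r))) (neg_le_abs _)
          rcases T with T | T <;> linarith only [t2, u0, T, u1]
  · rcases le_or_gt x (1950 / 10000) with g | g
    · have T := e4a_mD4X1n (x := x) (y := y) (s := s) (r := r) (by linarith only [hx]) (by linarith only [g]) (by linarith only [a0]) (by linarith only [hrs, f]) (by linarith only [s0]) (by linarith only [e, g]) (by linarith only [r0]) (by linarith only [r1]) (by linarith only [e]) (by linarith only [f]) (by linarith only [b0, hrs, f]) (by linarith only [b0])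
      have t2 := d4n (x := x) (s := s) (b := (y + 4 * (r * s))) (by linarith only [f])
      linarith only [T, t2]
    · rcases le_or_gt x (2250 / 10000) with g | g
      · have T := e4a_mD4X2n (x := x) (y := y) (s := s) (r := r) (by linarith) (by linarith only [g]) (by linarith only [a0]) (by linarith only [a0, hrs, f]) (by linarith only [s0]) (by linarith only [e, g]) (by linarith only [r0]) (by linarith only [r1]) (by linarith only [e]) (by linarith only [f])
        have t2 := d4n (x := x) (s := s) (b := (y + 4 * (r * s))) (by linarith only [f])
        have u0 := x2 (x := x) (c := (y - 9 / 10 * r)) (c' := (y - 9 / 10 * r)) (δ := (300 / 10000)) (K := (100 / 3)) (le_abs_self _) (by norm_num) (by norm_num) (by norm_num) (by linarith only [g]) (by linarith)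
        have u1 := x2 (x := x) (c := (y - 9 / 10 * r)) (c' := (-(y - 9 / 10 * r))) (δ := (300 / 10000)) (K := (100 / 3)) (neg_le_abs _) (by norm_num) (by norm_num) (by norm_num) (by linarith only [g]) (by linarith)
        rcases T with T | T <;> linarith only [t2, u0, T, u1]
      · rcases le_or_gt x (2550 / 10000) with g | g
        · have T := e4a_mD4X3n (x := x) (y := y) (s := s) (r := r) (by linarith) (by linarith only [g]) (by linarith only [a0]) (by linarith only [a0, hrs, f]) (by linarith only [s0]) (by linarith only [s1]) (by linarith only [r0]) (by linarith only [r1]) (by linarith only [e]) (by linarith only [f])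
          have t2 := d4n (x := x) (s := s) (b := (y + 4 * (r * s))) (by linarith only [f])
          have u0 := x3 (x := x) (c := (y - 9 / 10 * r)) (c' := (y - 9 / 10 * r)) (δ := (300 / 10000)) (le_abs_self _) (by norm_num) (by norm_num) (by linarith) (by linarith only [g])
          have u1 := x3 (x := x) (c := (y - 9 / 10 * r)) (c' := (-(y - 9 / 10 * r))) (δ := (300 / 10000)) (neg_le_abs _) (by norm_num) (by norm_num) (by linarith) (by linarith only [g])
          rcases T with T | T <;> linarith only [t2, u0, T, u1]
        · have T := e4a_mD4X4n (x := x) (y := y) (s := s) (r := r) (by linarith only [g]) (by linarith only [x1]) (by linarith only [a0]) (by linarith only [a0, hrs, f]) (by linarith only [s0]) (by linarith only [s1]) (by linarith only [r0]) (by linarith only [r1]) (by linarith only [f]) (by linarith only [x1, hrs, f]) (by linarith only [c0])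
          have t2 := d4n (x := x) (s := s) (b := (y + 4 * (r * s))) (by linarith only [f])
          have u0 := x4 (x := x) (c := (y - 9 / 10 * r)) (c' := (y - 9 / 10 * r)) (le_abs_self _)
          have u1 := x4 (x := x) (c := (y - 9 / 10 * r)) (c' := (-(y - 9 / 10 * r))) (neg_le_abs _)
          rcases T with T | T <;> linarith only [t2, u0, T, u1]

end ZD

end Pool.Agent.Work.MP_b30479_gt.G2
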