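import Pool.Agent.Work.MP_b30479_gt.G2.TRc

/-!
# Modes at rings: the vertical move at the targets, and the ring variable which stays
-/

namespace Pool.Agent.Work.MP_b30479_gt.G2

open NumU

namespace ZD

section
open NumI (V)
open NumU.E

/-! ### `e5` -/

/-- variables `t, ρ` -/
private def D5 (a b : E) : E := sub (add (uu a (sub (mul (q 9 10) (var 1)) (var 0)))
  (uu b (add (mul (q 9 10) (var 1)) (var 0)))) (add (uu a (var 0)) (uu b (var 0)))

private def E5a : E := sub (D5 (q 17 40) (q 39 40)) (sub (mul (q 94 100) (var 1)) (q 5 10000))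
private def E5b : E := sub (D5 (q 69 200) (q 179 200)) (sub (mul (q 64 100) (var 1)) (q 1 1000))
private def E5c : E := sub (D5 (q 17 40) (q 39 40)) (sub (mul (q 94 100) (var 1)) (q 20 1000))
private def E5d : E := add (D5 (q 17 40) (q 39 40)) (q 1 1000)

private theorem k5a : chk [E5a] 30 [V.of 100000 3800 15800, V.of 100000 0 10450] = true := by
  decide +kernel
private theorem k5b : chk [E5b] 30 [V.of 100000 7500 11850, V.of 100000 0 10450] = true := by
  decide +kernel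
private theorem k5c : chk [E5c] 30 [V.of 100000 (-100) 13100, V.of 100000 0 10450] = true := by
  decide +kernel
private theorem k5d : chk [E5d] 30 [V.of 100000 (-100) 13100, V.of 100000 0 10450] = true := by
  decide +kernel

end

private theorem fR5 (a b x t η : ℝ) (ha : a = x + 9 / 40) (hb : b = x + 31 / 40) :
    fR ⟨x, -t⟩ ⟨-(11 / 40), η⟩ = uu a (η - t) + uu b (η + t) - 2 * uu x t := by
  rw [fR_uu]
  simp only
  rw [show x + 1 / 2 + -(11 / 40) = a by rw [ha]; ring, show -t + η = η - t by ring,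
    show x + 1 / 2 - -(11 / 40) = b by rw [hb]; ring, show -t - η = -(η + t) by ring,
    uu_neg, uu_neg]

private theorem dR5 (a b x t η : ℝ) (ha : a = x + 9 / 40) (hb : b = x + 31 / 40) :
    fR ⟨x, -t⟩ ⟨-(11 / 40), η⟩ - fR ⟨x, -t⟩ ⟨-(11 / 40), 0⟩ =
      uu a (η - t) + uu b (η + t) - (uu a t + uu b t) := by
  rw [fR5 a b x t η ha hb, fR5 a b x t 0 ha hb, zero_sub, zero_add, uu_neg]
  ring

theorem e5a : ∀ t ρ : ℝ, 38 / 1000 ≤ t → t ≤ 158 / 1000 → 0 ≤ ρ → ρ ≤ 1045 / 10000 →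
    94 / 100 * ρ - 5 / 10000 ≤ fR ⟨2 / 10, -t⟩ ⟨-(11 / 40), 9 / 10 * ρ⟩ -
      fR ⟨2 / 10, -t⟩ ⟨-(11 / 40), 0⟩ := by
  intro t ρ t0 t1 r0 r1
  rw [dR5 (17 / 40) (39 / 40) _ _ _ (by norm_num) (by norm_num)]
  have h := pos_of_chk (chk2 k5a (by norm_num) (x := t) (y := ρ) (by norm_num; linarith only [t0])
    (by norm_num; linarith only [t1]) (by norm_num; linarith only [r0]) (by norm_num; linarith only [r1]))
  simp only [E5a, D5, E.val, NumI.lkR] at h
  norm_num at h ⊢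
  linarith only [h]

theorem e5b : ∀ t ρ : ℝ, 75 / 1000 ≤ t → t ≤ 1185 / 10000 → 0 ≤ ρ → ρ ≤ 1045 / 10000 →
    64 / 100 * ρ - 1 / 1000 ≤ fR ⟨12 / 100, -t⟩ ⟨-(11 / 40), 9 / 10 * ρ⟩ -
      fR ⟨12 / 100, -t⟩ ⟨-(11 / 40), 0⟩ := by
  intro t ρ t0 t1 r0 r1
  rw [dR5 (69 / 200) (179 / 200) _ _ _ (by norm_num) (by norm_num)]
  have h := pos_of_chk (chk2 k5b (by norm_num) (x := t) (y := ρ) (by norm_num; linarith only [t0])
    (by norm_num; linarith only [t1]) (by norm_num; linarith only [r0]) (by norm_num; linarith only [r1]))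
  simp only [E5b, D5, E.val, NumI.lkR] at h
  norm_num at h ⊢
  linarith only [h]

theorem e5c : ∀ t ρ : ℝ, -(1 / 1000) ≤ t → t ≤ 131 / 1000 → 0 ≤ ρ → ρ ≤ 1045 / 10000 →
    94 / 100 * ρ - 20 / 1000 ≤ fR ⟨2 / 10, -t⟩ ⟨-(11 / 40), 9 / 10 * ρ⟩ -
      fR ⟨2 / 10, -t⟩ ⟨-(11 / 40), 0⟩ := by
  intro t ρ t0 t1 r0 r1
  rw [dR5 (17 / 40) (39 / 40) _ _ _ (by norm_num) (by norm_num)]
  have h := pos_of_chk (chk2 k5c (by norm_num) (x := t) (y := ρ) (by norm_num; linarith only [t0])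
    (by norm_num; linarith only [t1]) (by norm_num; linarith only [r0]) (by norm_num; linarith only [r1]))
  simp only [E5c, D5, E.val, NumI.lkR] at h
  norm_num at h ⊢
  linarith only [h]

theorem e5d : ∀ t ρ : ℝ, -(1 / 1000) ≤ t → t ≤ 131 / 1000 → 0 ≤ ρ → ρ ≤ 1045 / 10000 →
    -(1 / 1000) ≤ fR ⟨2 / 10, -t⟩ ⟨-(11 / 40), 9 / 10 * ρ⟩ - fR ⟨2 / 10, -t⟩ ⟨-(11 / 40), 0⟩ := by
  intro t ρ t0 t1 r0 r1
  rw [dR5 (17 / 40) (39 / 40) _ _ _ (by norm_num) (by norm_num)]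
  have h := pos_of_chk (chk2 k5d (by norm_num) (x := t) (y := ρ) (by norm_num; linarith only [t0])
    (by norm_num; linarith only [t1]) (by norm_num; linarith only [r0]) (by norm_num; linarith only [r1]))
  simp only [E5d, D5, E.val, NumI.lkR] at h
  norm_num at h ⊢
  linarith only [h]

end ZD

end Pool.Agent.Work.MP_b30479_gt.G2
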