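import Pool.Agent.Work.MP_b30479_gt.G2.ZConv
import Pool.Agent.Work.MP_b30479_gt.G2.ZRows
import Pool.Agent.Work.MP_b30479_gt.G2.WCrit

/-!
# The loss at a hinge when the ring variable moves: bounds of the terms
-/

namespace Pool.Agent.Work.MP_b30479_gt.G2

open VOL NumU

namespace ZD

private theorem th_ge {σ : ℝ} (h : 1 / 4 ≤ |σ|) : LT.th σ = 2 - 4 * |σ| := by
  unfold LT.th
  exact min_eq_right (by linarith only [h])

/-- the difference, `σ = -1/2 + s` -/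
theorem loss_p {x y s ρ : ℝ} (h0 : 0 ≤ s) (h1 : s ≤ 1 / 5) :
    fR ⟨x, y⟩ ⟨-(1 / 2) + s, ρ * LT.th (-(1 / 2) + s)⟩ - fR ⟨x, y⟩ ⟨-(11 / 40), 9 / 10 * ρ⟩ =
      uu (x + s) (y + 4 * (ρ * s)) + uu (1 + x - s) (y - 4 * (ρ * s)) +
        (-uu (x + 225 / 1000) (y + 9 / 10 * ρ) + -uu (x + 775 / 1000) (y - 9 / 10 * ρ)) := by
  have e : |(-(1 / 2) + s)| = 1 / 2 - s := by
    rw [abs_of_nonpos (by linarith only [h1])]
    ring
  rw [th_ge (by rw [e]; linarith only [h1]), e]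
  have e1 : (⟨x, y⟩ : ℂ) + 1 / 2 + ⟨-(1 / 2) + s, ρ * (2 - 4 * (1 / 2 - s))⟩ =
      ⟨x + s, y + 4 * (ρ * s)⟩ := by
    apply Complex.ext <;> simp <;> ring
  have e2 : (⟨x, y⟩ : ℂ) + 1 / 2 - ⟨-(1 / 2) + s, ρ * (2 - 4 * (1 / 2 - s))⟩ =
      ⟨1 + x - s, y - 4 * (ρ * s)⟩ := by
    apply Complex.ext <;> simp <;> ring
  have e3 : (⟨x, y⟩ : ℂ) + 1 / 2 + ⟨-(11 / 40), 9 / 10 * ρ⟩ =
      ⟨x + 225 / 1000, y + 9 / 10 * ρ⟩ := by
    apply Complex.ext <;> simp <;> ring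
  have e4 : (⟨x, y⟩ : ℂ) + 1 / 2 - ⟨-(11 / 40), 9 / 10 * ρ⟩ =
      ⟨x + 775 / 1000, y - 9 / 10 * ρ⟩ := by
    apply Complex.ext <;> simp <;> ring
  unfold fR
  rw [e1, e2, e3, e4]
  unfold uu
  ring

/-- the difference, `σ = 1/2 - s` -/
theorem loss_m {x y s ρ : ℝ} (h0 : 0 ≤ s) (h1 : s ≤ 1 / 5) :
    fR ⟨x, y⟩ ⟨1 / 2 - s, ρ * LT.th (1 / 2 - s)⟩ - fR ⟨x, y⟩ ⟨-(11 / 40), 9 / 10 * ρ⟩ =
      uu (x + s) (y - 4 * (ρ * s)) + uu (1 + x - s) (y + 4 * (ρ * s)) +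
        (-uu (x + 225 / 1000) (y + 9 / 10 * ρ) + -uu (x + 775 / 1000) (y - 9 / 10 * ρ)) := by
  have e : |(1 / 2 - s)| = 1 / 2 - s := abs_of_nonneg (by linarith only [h1])
  rw [th_ge (by rw [e]; linarith only [h1]), e]
  have e1 : (⟨x, y⟩ : ℂ) + 1 / 2 + ⟨1 / 2 - s, ρ * (2 - 4 * (1 / 2 - s))⟩ =
      ⟨1 + x - s, y + 4 * (ρ * s)⟩ := by
    apply Complex.ext <;> simp <;> ring
  have e2 : (⟨x, y⟩ : ℂ) + 1 / 2 - ⟨1 / 2 - s, ρ * (2 - 4 * (1 / 2 - s))⟩ =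
      ⟨x + s, y - 4 * (ρ * s)⟩ := by
    apply Complex.ext <;> simp <;> ring
  have e3 : (⟨x, y⟩ : ℂ) + 1 / 2 + ⟨-(11 / 40), 9 / 10 * ρ⟩ =
      ⟨x + 225 / 1000, y + 9 / 10 * ρ⟩ := by
    apply Complex.ext <;> simp <;> ring
  have e4 : (⟨x, y⟩ : ℂ) + 1 / 2 - ⟨-(11 / 40), 9 / 10 * ρ⟩ =
      ⟨x + 775 / 1000, y - 9 / 10 * ρ⟩ := by
    apply Complex.ext <;> simp <;> ring
  unfold fR
  rw [e1, e2, e3, e4]
  unfold uu
  ring

theorem q4_p {s ρ : ℝ} (h0 : 0 ≤ s) (h1 : s ≤ 1 / 5) :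
    q4 (-(1 / 2) + s) ρ = 2 * Real.pi * ρ * (9 / 100 + 4 * s * (4 * s - 1)) ∧
      bR (-(1 / 2) + s) (ρ * LT.th (-(1 / 2) + s)) = 0 := by
  have e : |(-(1 / 2) + s)| = 1 / 2 - s := by
    rw [abs_of_nonpos (by linarith only [h1])]
    ring
  unfold q4 bR
  rw [th_ge (by rw [e]; linarith only [h1]), e, max_eq_right (by linarith only [h1])]
  constructor <;> ring

theorem q4_m {s ρ : ℝ} (h0 : 0 ≤ s) (h1 : s ≤ 1 / 5) :
    q4 (1 / 2 - s) ρ - bR (1 / 2 - s) (ρ * LT.th (1 / 2 - s)) =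
      2 * Real.pi * ρ * (9 / 100 + 4 * s * (5 / 2 - 3 * s)) := by
  have e : |(1 / 2 - s)| = 1 / 2 - s := abs_of_nonneg (by linarith only [h1])
  unfold q4 bR
  rw [th_ge (by rw [e]; linarith only [h1]), e, max_eq_left (by linarith only [h1])]
  ring

/-! ### the term `uu (1 + x - s) b` -/

theorem d2 {x s b δ : ℝ} (h0 : 0 < δ) (h1 : δ ≤ 1 / 2) (h2 : -δ ≤ x - s) (h3 : x - s ≤ 0) :
    uu (1 + x - s) b ≤ (δ + (x - s)) * NumI.lnA δ b - uu δ b := by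
  have e : uu (1 + x - s) b = -uu (s - x) b := by
    rw [show 1 + x - s = 1 - (s - x) by ring]
    exact uu_one_sub _ b
  have := UC.tangent (d := δ) (p := s - x) (t := b) h0 h1 (by linarith only [h3]) (by linarith only [h1, h2])
  rw [e]
  linarith only [this]

theorem d4 {x s b : ℝ} : uu (1 + x - s) b = uu (x - s) b + Real.pi * |b| := by
  rw [show 1 + x - s = (x - s) + 1 by ring]
  exact uu_add_one _ b

theorem d4p {x s b : ℝ} (hb : 0 ≤ b) : uu (1 + x - s) b = uu (x - s) b + Real.pi * b := by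
  rw [d4, abs_of_nonneg hb]

theorem d4n {x s b : ℝ} (hb : b ≤ 0) : uu (1 + x - s) b = uu (x - s) b + Real.pi * -b := by
  rw [d4, abs_of_nonpos hb]

theorem d3 {x s b δ K : ℝ} (h0 : 0 < δ) (h1 : δ ≤ 1 / 2) (hK : K * δ = 1) (h2 : 0 ≤ x - s)
    (h3 : x - s ≤ δ) : uu (1 + x - s) b ≤
      Real.pi * (1 / 2) * |b| * (1 + K * (x - s)) + K * (x - s) * uu δ b := by
  have e : (x - s) / δ = K * (x - s) := by
    rw [div_eq_iff h0.ne']
    linear_combination -(x - s) * hK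
  have h := UC.chord (t := b) h0 h1 h2 h3
  rw [e] at h
  rw [d4]
  linarith only [h]

theorem d3p {x s b δ K : ℝ} (hb : 0 ≤ b) (h0 : 0 < δ) (h1 : δ ≤ 1 / 2) (hK : K * δ = 1)
    (h2 : 0 ≤ x - s) (h3 : x - s ≤ δ) : uu (1 + x - s) b ≤
      Real.pi * (1 / 2) * b * (1 + K * (x - s)) + K * (x - s) * uu δ b := by
  have := d3 (b := b) h0 h1 hK h2 h3
  rwa [abs_of_nonneg hb] at this

theorem d3n {x s b δ K : ℝ} (hb : b ≤ 0) (h0 : 0 < δ) (h1 : δ ≤ 1 / 2) (hK : K * δ = 1)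
    (h2 : 0 ≤ x - s) (h3 : x - s ≤ δ) : uu (1 + x - s) b ≤
      Real.pi * (1 / 2) * -b * (1 + K * (x - s)) + K * (x - s) * uu δ b := by
  have := d3 (b := b) h0 h1 hK h2 h3
  rwa [abs_of_nonpos hb] at this

/-! ### the term `-uu (x + 775/1000) c` -/

theorem x4 {x c c' : ℝ} (hc : c' ≤ |c|) :
    -uu (x + 775 / 1000) c ≤ -(uu (x - 225 / 1000) c + Real.pi * c') := by
  have hp := Real.pi_pos
  rw [show x + 775 / 1000 = (x - 225 / 1000) + 1 by ring, uu_add_one]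
  have := mul_le_mul_of_nonneg_left hc hp.le
  linarith only [this]

theorem x3 {x c c' δ : ℝ} (hc : c' ≤ |c|) (h0 : 0 < δ) (h1 : δ ≤ 1 / 2)
    (h2 : 0 ≤ x - 225 / 1000) (h3 : x - 225 / 1000 ≤ δ) :
    -uu (x + 775 / 1000) c ≤
      (δ - (x - 225 / 1000)) * NumI.lnA δ c - uu δ c - Real.pi * c' := by
  have h := x4 (x := x) hc
  have := UC.tangent (d := δ) (p := x - 225 / 1000) (t := c) h0 h1 h2 (by linarith only [h1, h3])
  linarith only [h, this]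

theorem x2 {x c c' δ K : ℝ} (hc : c' ≤ |c|) (h0 : 0 < δ) (h1 : δ ≤ 1 / 2) (hK : K * δ = 1)
    (h2 : 0 ≤ 225 / 1000 - x) (h3 : 225 / 1000 - x ≤ δ) :
    -uu (x + 775 / 1000) c ≤ K * (225 / 1000 - x) * uu δ c -
      Real.pi * (1 / 2) * c' * (1 - K * (225 / 1000 - x)) := by
  have hp := Real.pi_pos
  have e0 : uu (x + 775 / 1000) c = -uu (225 / 1000 - x) c := by
    rw [show x + 775 / 1000 = 1 - (225 / 1000 - x) by ring]
    exact uu_one_sub _ c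
  have e : (225 / 1000 - x) / δ = K * (225 / 1000 - x) := by
    rw [div_eq_iff h0.ne']
    linear_combination -(225 / 1000 - x) * hK
  have h := UC.chord (t := c) h0 h1 h2 h3
  rw [e] at h
  have hk : K * (225 / 1000 - x) ≤ 1 := by
    rw [← e]
    exact (div_le_one h0).2 h3
  have h4 : (1 - K * (225 / 1000 - x)) * (Real.pi / 2 * c') ≤
      (1 - K * (225 / 1000 - x)) * (Real.pi / 2 * |c|) := by
    apply mul_le_mul_of_nonneg_left _ (by linarith only [hk])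
    exact mul_le_mul_of_nonneg_left hc (by positivity)
  rw [e0]
  linarith only [h, h4]

/-! ### the corner -/

theorem abs_diff_le {y η m : ℝ} (h : |y| ≤ m ∨ |η| ≤ m) :
    |(|y + η| - |y - η|)| ≤ 2 * m := by
  rcases abs_cases (y + η) with ⟨e1, _⟩ | ⟨e1, _⟩ <;> rcases abs_cases (y - η) with ⟨e2, _⟩ | ⟨e2, _⟩ <;>
    rw [e1, e2, abs_le] <;> rcases h with h | h <;> rw [abs_le] at h <;> constructor <;> linarith

end ZD

end Pool.Agent.Work.MP_b30479_gt.G2
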