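import Pool.Agent.Work.MP_b30479_gt.G2.ZRnT
import Pool.Agent.Work.MP_b30479_gt.G2.ZRows2

/-!
# Modes at rings, `RowsN`: the saddle height is put to zero, the corner
-/

namespace Pool.Agent.Work.MP_b30479_gt.G2

open NumU

namespace ZN

open ZD

/-! ### the functions, `Y = 16/100 t`, `v = 1 - k1`, `k = k2` -/

noncomputable def N0 (x Y v k : ℝ) : ℝ :=
  Real.pi * Y * v + Real.pi * Y + uu (x + 1 - v) k - uu (x + 1 - v) (Y + k) - uu x 0 + uu x Y
noncomputable def M0 (x Y v k : ℝ) : ℝ :=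
  Real.pi / 5 * k + uu (6 / 5 - v) k - uu (1 / 5) 0 - Real.pi * x * k + Real.pi * Y * v +
    Real.pi * Y - uu (x + 1 - v) (Y + k) + uu x Y
noncomputable def G0 (x Y v k : ℝ) : ℝ := N0 x Y v k + Y * (PN x * M0 x Y v k + cN x)
/-- the loss, `c = 1` for `x ≤ 1/2` and `c = 6/5` otherwise -/
noncomputable def ls (c x : ℝ) : ℝ := Real.pi * (7 / 1600) * c + Real.pi * (7 / 10000) * PN x

theorem PN_eq (x : ℝ) : PN x = 22 / 10 * (x + 15 / 100)⁻¹ - 25 / 10 := by
  unfold PN
  rw [div_eq_mul_inv (22 / 10 : ℝ) (x + 15 / 100)]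

theorem PN_nonneg {x : ℝ} (h0 : 0 ≤ x) (h1 : x ≤ 6 / 10) : 0 ≤ PN x := by
  unfold PN
  have : 25 / 10 * (x + 15 / 100) ≤ 22 / 10 := by linarith only [h1]
  rw [sub_nonneg, le_div_iff₀ (by linarith only [h0])]
  exact this

/-! ### the height of the saddle point -/

theorem shift_ge {c p q : ℝ} (h0 : 0 ≤ c) (h1 : c ≤ 3 / 2) :
    -(Real.pi * |p - q|) ≤ uu c p - uu c q := by
  have hpi := Real.pi_pos
  rcases le_total |q| |p| with h | h
  · have a3 := abs_sub_abs_le_abs_sub p q
    rcases le_total (1 / 2) c with hc | hc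
    · have a1 := incr hc h
      have : 0 ≤ Real.pi * |p - q| := by positivity
      linarith only [a1, this]
    · have a1 := decr_zero h0 h
      have a2 : Real.pi / 2 * (|p| - |q|) ≤ Real.pi * |p - q| := by nlinarith only [hpi, h, a3, abs_nonneg (p - q)]
      linarith only [a1, a2]
  · have a3 := abs_sub_abs_le_abs_sub q p
    rw [abs_sub_comm q p] at a3
    have a1 := le_threehalf h1 h
    have a2 : Real.pi * (|q| - |p|) ≤ Real.pi * |p - q| := by nlinarith only [hpi, a3]
    linarith only [a1, a2]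

section
open NumI (V)
open NumU.E

private theorem kB : chk [add (lnB (q 3 5) (var 0)) (q 16 100)] 30 [V.of 1000 0 162] = true := by
  decide +kernel

end

theorem up06 {s s' : ℝ} (h0 : 0 ≤ s) (h : s ≤ s') (h1 : s' ≤ 162 / 1000) :
    uu (3 / 5) s' - uu (3 / 5) s ≤ 16 / 100 * (s' - s) := by
  rcases h.eq_or_lt with rfl | h
  · simp
  have hd : ∀ r ∈ Set.Ioo s s', HasDerivAt (fun y => uu (3 / 5) y) (-NumI.lnB (3 / 5) r) r := by
    intro r _
    have h2 := uu_line (x := 3 / 5) (t := 0) (a := 0) (b := 1) (τ := r) (by norm_num) (by norm_num)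
    have e : (fun τ : ℝ => uu (3 / 5 + τ * 0) (0 + τ * 1)) = fun y => uu (3 / 5) y := by
      funext y
      simp
    rw [e] at h2
    refine h2.congr_deriv ?_
    simp
  have hc : ContinuousOn (fun y => uu (3 / 5) y) (Set.Icc s s') := by
    apply Continuous.continuousOn
    refine continuous_iff_continuousAt.2 fun r => ?_
    have h2 := uu_line (x := 3 / 5) (t := 0) (a := 0) (b := 1) (τ := r) (by norm_num) (by norm_num)
    have e : (fun τ : ℝ => uu (3 / 5 + τ * 0) (0 + τ * 1)) = fun y => uu (3 / 5) y := by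
      funext y
      simp
    rw [e] at h2
    exact h2.continuousAt
  obtain ⟨ξ, hξ, hs⟩ := exists_hasDerivAt_eq_slope (fun y => uu (3 / 5) y) _ h hc hd
  have hk := pos_of_chk (chk1 kB (by norm_num) (x := ξ) (by norm_num; linarith only [h0, hξ, hξ.1])
    (by norm_num; linarith only [h1, hξ, hξ.2]))
  simp only [E.val, NumI.lkR] at hk
  norm_num at hk hs
  rw [eq_div_iff (by linarith only [h])] at hs
  nlinarith

theorem shift_ge' {c p q : ℝ} (h0 : 0 ≤ c) (h1 : c ≤ 8 / 5)
    (hq : |q| ≤ 162 / 1000) : -((Real.pi + 16 / 100) * |p - q|) ≤ uu c p - uu c q := by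
  have hpi := Real.pi_pos
  rcases le_total |q| |p| with h | h
  · have a3 := abs_sub_abs_le_abs_sub p q
    rcases le_total (1 / 2) c with hc | hc
    · have a1 := incr hc h
      have : 0 ≤ (Real.pi + 16 / 100) * |p - q| := by positivity
      linarith only [a1, this]
    · have a1 := decr_zero h0 h
      have a2 : Real.pi / 2 * (|p| - |q|) ≤ (Real.pi + 16 / 100) * |p - q| := by
        nlinarith only [h, a3, hpi, abs_nonneg (p - q)]
      linarith only [a1, a2]
  · have a3 := abs_sub_abs_le_abs_sub q p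
    rw [abs_sub_comm q p] at a3
    have a1 := mix h1 h
    have a4 := uu_add_one (3 / 5) p
    have a5 := uu_add_one (3 / 5) q
    rw [show (3 : ℝ) / 5 + 1 = 8 / 5 by norm_num] at a4 a5
    have a6 := up06 (abs_nonneg p) h hq
    have e1 : ∀ y : ℝ, uu (3 / 5) |y| = uu (3 / 5) y := by
      intro y
      rcases abs_cases y with ⟨e, _⟩ | ⟨e, _⟩
      · rw [e]
      · rw [e, uu_neg]
    rw [e1, e1] at a6
    have a2 : (Real.pi + 16 / 100) * (|q| - |p|) ≤ (Real.pi + 16 / 100) * |p - q| := by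
      nlinarith only [a3, hpi]
    linarith only [a1, a4, a5, a6, a2]

theorem up_x {x s : ℝ} (hx : x ≤ 3 / 5) (hs : |s| ≤ 162 / 1000) :
    uu x s - uu x 0 ≤ 16 / 100 * |s| := by
  have a1 := mix hx (s := 0) (s' := s) (by rw [abs_zero]; exact abs_nonneg s)
  have a6 := up06 le_rfl (abs_nonneg s) hs
  have e1 : uu (3 / 5) |s| = uu (3 / 5) s := by
    rcases abs_cases s with ⟨e, _⟩ | ⟨e, _⟩
    · rw [e]
    · rw [e, uu_neg]
  rw [e1] at a6
  linarith only [a1, a6]

theorem nA_ge {x t T v k : ℝ} (x0 : 0 ≤ x) (x1 : x ≤ 1 / 2) (t0 : 0 ≤ t)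
    (T0 : -(7 / 10000) ≤ T) (T1 : T ≤ 0) (v0 : 0 ≤ v) (v1 : v ≤ 1) :
    N0 x (16 / 100 * t) v k - Real.pi * (7 / 10000) * t ≤ nA1 x t T (1 - v) k := by
  have hpi := Real.pi_pos
  unfold nA1 N0 gD1
  have a1 := shift_ge (c := x + (1 - v)) (p := T * t + k) (q := k) (by linarith only [x0, v1]) (by linarith only [x1, v0])
  have a2 := decr (c := x) (s := 0) (s' := T * t) (by linarith only [x1]) (by rw [abs_zero]; exact abs_nonneg _)
  have a3 : |T * t + k - k| ≤ 7 / 10000 * t := by
    rw [add_sub_cancel_right, abs_mul, abs_of_nonneg t0]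
    have : |T| ≤ 7 / 10000 := by rw [abs_le]; constructor <;> linarith only [T0, T1]
    exact mul_le_mul_of_nonneg_right this t0
  have a4 : Real.pi * |T * t + k - k| ≤ Real.pi * (7 / 10000 * t) :=
    mul_le_mul_of_nonneg_left a3 hpi.le
  have a5 : 0 ≤ Real.pi * (-T * t * v) := by
    have : 0 ≤ -T * t * v := mul_nonneg (mul_nonneg (by linarith only [T1]) t0) v0
    positivity
  rw [show x + 1 - v = x + (1 - v) by ring]
  nlinarith only [a1, a2, a4, a5, a1, a2, a4, a5]

theorem nA_ge' {x t T v k : ℝ} (x0 : 1 / 2 ≤ x) (x1 : x ≤ 6 / 10) (t0 : 0 ≤ t) (t1 : t ≤ 1)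
    (T0 : -(7 / 10000) ≤ T) (T1 : T ≤ 0) (v0 : 0 ≤ v) (v1 : v ≤ 1) (hk : |k| ≤ 16 / 100) :
    N0 x (16 / 100 * t) v k - Real.pi * (7 / 10000) * t * (6 / 5) ≤ nA1 x t T (1 - v) k := by
  have hpi := Real.pi_gt_three
  unfold nA1 N0 gD1
  have a3' : |T * t| ≤ 7 / 10000 * t := by
    rw [abs_mul, abs_of_nonneg t0]
    have : |T| ≤ 7 / 10000 := by rw [abs_le]; constructor <;> linarith only [T0, T1]
    exact mul_le_mul_of_nonneg_right this t0
  have b1 : |T * t + k| ≤ 162 / 1000 := by
    have := abs_add_le (T * t) k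
    nlinarith only [t1, hk, a3', this]
  have a1 := shift_ge' (c := x + (1 - v)) (p := T * t + k) (q := k) (by linarith only [x0, v1]) (by linarith only [x1, v0])
    (by linarith only [hk])
  have a2 := up_x (x := x) (s := T * t) (by linarith only [x1]) (by nlinarith only [t1, a3'])
  have a3 : |T * t + k - k| ≤ 7 / 10000 * t := by
    rw [add_sub_cancel_right]
    exact a3'
  have a4 : (Real.pi + 16 / 100) * |T * t + k - k| ≤ (Real.pi + 16 / 100) * (7 / 10000 * t) :=
    mul_le_mul_of_nonneg_left a3 (by linarith only [hpi])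
  have a5 : 0 ≤ Real.pi * (-T * t * v) := by
    have : 0 ≤ -T * t * v := mul_nonneg (mul_nonneg (by linarith only [T1]) t0) v0
    positivity
  have a6 : (Real.pi + 16 / 100) * (7 / 10000 * t) + 16 / 100 * (7 / 10000 * t) ≤
      Real.pi * (7 / 10000) * t * (6 / 5) := by
    have : (Real.pi + 32 / 100) * (7 / 10000 * t) ≤ (Real.pi * (6 / 5)) * (7 / 10000 * t) :=
      mul_le_mul_of_nonneg_right (by linarith only [hpi]) (by linarith only [t0])
    linarith only [this]
  rw [show x + 1 - v = x + (1 - v) by ring]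
  nlinarith only [a3', a1, a2, a4, a5, a6, a1, a2, a4, a5, a6, a3']

theorem nB_ge {x t T v k : ℝ} (T0 : -(7 / 10000) ≤ T) (T1 : T ≤ 0) (v0 : 0 ≤ v) (v1 : v ≤ 1) :
    M0 x (16 / 100 * t) v k - Real.pi * (7 / 10000) ≤ nB1 x t T (1 - v) k := by
  have hpi := Real.pi_pos
  unfold nB1 M0 gD1
  have a1 := shift_ge (c := 2 / 10 + (1 - v)) (p := T + k) (q := k) (by linarith only [v1]) (by linarith only [v0])
  have a2 := decr (c := 2 / 10) (s := 0) (s' := T) (by norm_num) (by rw [abs_zero]; exact abs_nonneg _)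
  have a3 : |T + k - k| ≤ 7 / 10000 := by
    rw [add_sub_cancel_right, abs_le]
    constructor <;> linarith only [T0, T1]
  have a4 : Real.pi * |T + k - k| ≤ Real.pi * (7 / 10000) :=
    mul_le_mul_of_nonneg_left a3 hpi.le
  have a5 : 0 ≤ Real.pi * (-T * v) := by
    have : 0 ≤ -T * v := mul_nonneg (by linarith only [T1]) v0
    positivity
  rw [show x + 1 - v = x + (1 - v) by ring, show (6 : ℝ) / 5 - v = 2 / 10 + (1 - v) by ring,
    show (1 : ℝ) / 5 = 2 / 10 by norm_num]
  linarith only [a1, a2, a4, a5]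

/-- **`T` is eliminated.** -/
theorem nD1_of {x t T v k : ℝ} (x0 : 0 ≤ x) (x1 : x ≤ 6 / 10) (t0 : 0 ≤ t) (t1 : t ≤ 1)
    (T0 : -(7 / 10000) ≤ T) (T1 : T ≤ 0) (v0 : 0 ≤ v) (v1 : v ≤ 1) (hk : |k| ≤ 16 / 100)
    (h : 16 / 100 * t * ls (if x ≤ 1 / 2 then 1 else 6 / 5) x ≤ G0 x (16 / 100 * t) v k) :
    0 ≤ nA1 x t T (1 - v) k + 16 / 100 * t * (PN x * nB1 x t T (1 - v) k + cN x) := by
  have b1 := nB_ge (x := x) (t := t) (k := k) T0 T1 v0 v1
  have b2 := PN_nonneg x0 x1
  have b3 : PN x * (M0 x (16 / 100 * t) v k - Real.pi * (7 / 10000)) ≤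
      PN x * nB1 x t T (1 - v) k := mul_le_mul_of_nonneg_left b1 b2
  have b4 : 16 / 100 * t * (PN x * (M0 x (16 / 100 * t) v k - Real.pi * (7 / 10000)) + cN x) ≤
      16 / 100 * t * (PN x * nB1 x t T (1 - v) k + cN x) :=
    mul_le_mul_of_nonneg_left (by linarith only [b3]) (by linarith only [t0])
  unfold G0 ls at h
  rcases le_or_gt x (1 / 2) with hx | hx
  · rw [if_pos hx] at h
    have a1 := nA_ge (k := k) x0 hx t0 T0 T1 v0 v1
    nlinarith only [h, b4, a1, a1, b4, h]
  · rw [if_neg (not_le.2 hx)] at h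
    have a1 := nA_ge' hx.le x1 t0 t1 T0 T1 v0 v1 hk
    nlinarith only [h, b4, a1, a1, b4, h]

/-! ### the corner `v ≤ x ≤ 12/100`, `0 ≤ k` -/

section
open NumI (V)
open NumU.E

private theorem kc1 : chk [sub (q 17 100) (log (mul (q 2 1) (sinPi (q 1 5))))] 30
    [V.of 1 0 0] = true := by decide +kernel

private def PNe : E := sub (mul (q 22 10) (inv (add (var 0) (q 15 100)))) (q 25 10)
private def Ye : E := mul (q 4 3) (var 0)
/-- `4πx/3 + log(5/3) + (4x/3) PN(x) (log(8πx/3) - 17/100 + 4πx/3)` -/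
private def He : E := add (add (mul pi Ye) (log (q 5 3))) (mul (mul Ye PNe)
  (add (sub (log (mul (mul (q 2 1) pi) Ye)) (q 17 100)) (mul pi Ye)))
private theorem kc2 : chk [He] 40 [V.of 1000 5 120] = true := by decide +kernel
/-- for `x ≤ 5/1000` -/
private def He' : E := add (log (q 5 3)) (mul PNe (sub (mul Ye (add (sub (log (mul (mul (q 2 1) pi)
  (q 1 150))) (q 17 100)) (q 1 1))) (q 1 150)))
private theorem kc3 : chk [He'] 40 [V.of 1000 0 5] = true := by decide +kernel
private theorem kc4 : chk [sub (add (q 45 1000) (mul (q 1 48) (var 0)))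
  (add (mul pi (q 7 1600)) (mul (mul pi (q 7 10000)) PNe))] 40 [V.of 1000 0 120] = true := by
  decide +kernel

end

theorem cN_ls {x : ℝ} (h0 : 0 ≤ x) (h1 : x ≤ 12 / 100) : ls 1 x ≤ cN x := by
  have h := pos_of_chk (chk1 kc4 (by norm_num) (x := x) (by norm_num; linarith only [h0])
    (by norm_num; linarith only [h1]))
  simp only [PNe, E.val, NumI.lkR] at h
  push_cast at h
  unfold ls cN
  rw [PN_eq]
  linarith only [h]

theorem He_pos {x : ℝ} (h0 : 0 < x) (h1 : x ≤ 12 / 100) :
    0 ≤ Real.pi * (4 / 3 * x) + Real.log (5 / 3) + 4 / 3 * x * (PN x *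
      (Real.log (2 * Real.pi * (4 / 3 * x)) - 17 / 100 + Real.pi * (4 / 3 * x))) := by
  have hpi := Real.pi_pos
  rcases le_total (5 / 1000) x with h | h
  · have h := pos_of_chk (chk1 kc2 (by norm_num) (x := x) (by norm_num; linarith only [h])
      (by norm_num; linarith only [h1]))
    simp only [He, PNe, Ye, E.val, NumI.lkR] at h
    push_cast at h
    simp only [div_one] at h
    rw [PN_eq]
    linarith only [h]
  · have h3 := pos_of_chk (chk1 kc3 (by norm_num) (x := x) (by norm_num; linarith only [h0])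
      (by norm_num; linarith only [h]))
    simp only [He', PNe, Ye, E.val, NumI.lkR] at h3
    push_cast at h3
    simp only [div_one] at h3
    have hP := PN_nonneg h0.le (by linarith only [h0, h] : x ≤ 6 / 10)
    have h4 : Real.log (5 / 1000 / x) ≤ 5 / 1000 / x - 1 :=
      Real.log_le_sub_one_of_pos (by positivity)
    have e5 : Real.log (2 * Real.pi * (4 / 3 * x)) = Real.log (2 * Real.pi * (1 / 150)) -
        Real.log (5 / 1000 / x) := by
      rw [← Real.log_div (by positivity) (by positivity)]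
      congr 1
      field_simp
      norm_num
    have h6 : 4 / 3 * x * (Real.log (2 * Real.pi * (1 / 150)) - 17 / 100 + 1) - 1 / 150 ≤
        4 / 3 * x * (Real.log (2 * Real.pi * (4 / 3 * x)) - 17 / 100) := by
      rw [e5]
      have : 4 / 3 * x * Real.log (5 / 1000 / x) ≤ 4 / 3 * x * (5 / 1000 / x - 1) :=
        mul_le_mul_of_nonneg_left h4 (by positivity)
      have e6 : 4 / 3 * x * (5 / 1000 / x - 1) = 1 / 150 - 4 / 3 * x := by
        field_simp
        ring
      linarith only [this, e6]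
    have h7 := mul_le_mul_of_nonneg_left h6 hP
    have h8 : 0 ≤ Real.pi * (4 / 3 * x) := by positivity
    have h9 : 0 ≤ 4 / 3 * x * (PN x * (Real.pi * (4 / 3 * x))) := by positivity
    rw [PN_eq] at h7 h9 ⊢
    linarith only [h3, h7, h8, h9]

theorem u17 {v : ℝ} (h0 : 0 ≤ v) (h1 : v ≤ 12 / 100) :
    uu (1 / 5) 0 - uu (1 / 5 - v) 0 ≤ 17 / 100 * v := by
  have hpi := Real.pi_pos
  have h := pos_of_chk (chk1 kc1 (by norm_num) (x := 0) (by norm_num) (by norm_num))
  simp only [E.val, NumI.lkR] at h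
  push_cast at h
  have hm : MonotoneOn (fun a => 17 / 100 * a - uu a 0) (Set.Icc (8 / 100) (1 / 5)) := by
    apply monotoneOn_of_deriv_nonneg (convex_Icc _ _)
    · exact ((continuous_const.mul continuous_id).sub TL.cont_uu_real).continuousOn
    all_goals
      intro a ha
      rw [interior_Icc] at ha
      have d2 := TL.uu_real_deriv (by linarith only [ha, ha.1] : 0 < a) (by linarith only [ha, ha.2] : a < 1)
      have d3 := ((hasDerivAt_id a).const_mul (17 / 100 : ℝ)).sub d2
    · exact d3.differentiableAt.differentiableWithinAt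
    · have e3 : deriv (fun a => 17 / 100 * a - uu a 0) a = _ := d3.deriv
      rw [e3]
      have s0 : 0 < Real.sin (Real.pi * a) := Real.sin_pos_of_pos_of_lt_pi
        (by nlinarith only [hpi, ha, ha.1]) (by nlinarith only [hpi, ha, ha.2])
      have s1 : Real.sin (Real.pi * a) ≤ Real.sin (Real.pi * (1 / 5)) :=
        Real.sin_le_sin_of_le_of_le_pi_div_two (by nlinarith only [hpi, ha, ha.1]) (by nlinarith only [hpi])
          (by nlinarith only [hpi, ha, ha.2])
      have s2 := Real.log_le_log (by positivity) (by linarith only [s1] : 2 * Real.sin (Real.pi * a) ≤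
        2 * Real.sin (Real.pi * (1 / 5)))
      linarith only [h, s2]
  have h2 := hm (Set.mem_Icc.2 ⟨by linarith only [h1], by linarith only [h0]⟩)
    (Set.mem_Icc.2 ⟨by norm_num, le_rfl⟩) (by linarith only [h0] : 1 / 5 - v ≤ 1 / 5)
  simp only at h2
  linarith only [h2]

/-- **The corner.** -/
theorem corner {x v k : ℝ} (x0 : 0 < x) (x1 : x ≤ 12 / 100) (v0 : 0 ≤ v) (v1 : v ≤ x)
    (k0 : 0 ≤ k) : 4 / 3 * x * ls 1 x ≤ G0 x (4 / 3 * x) v k := by
  have hpi := Real.pi_pos
  set Y := 4 / 3 * x with hYd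
  have hY : 0 < Y := by positivity
  have e1 : uu (x + 1 - v) k = uu (x - v) k + Real.pi * k := by
    rw [show x + 1 - v = x - v + 1 by ring, uu_add_one, abs_of_nonneg k0]
  have e2 : uu (x + 1 - v) (Y + k) = uu (x - v) (Y + k) + Real.pi * (Y + k) := by
    rw [show x + 1 - v = x - v + 1 by ring, uu_add_one, abs_of_nonneg (by linarith only [x0, k0, hYd])]
  have e3 : uu (6 / 5 - v) k = uu (1 / 5 - v) k + Real.pi * k := by
    rw [show 6 / 5 - v = 1 / 5 - v + 1 by ring, uu_add_one, abs_of_nonneg k0]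
  have hN : Real.pi * Y * v + Real.log (5 / 3) * v ≤ N0 x Y v k := by
    unfold N0
    rw [e1, e2]
    have a1 := conc (b := x - v) (p := k) (h := Y) (by linarith only [v1]) (by linarith only [x0, x1, v0]) k0 hY.le
    have a2 := log53 (b := x - v) (x := x) (Y := Y) (by linarith only [v1]) (by linarith only [v0]) (by linarith only [x0, x1])
      le_rfl x0
    rw [show k + Y = Y + k by ring] at a1
    rw [show x - (x - v) = v by ring] at a2
    linarith only [a1, a2]
  have hM : v * (Real.log (2 * Real.pi * Y) - 17 / 100 + Real.pi * Y) ≤ M0 x Y v k := by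
    unfold M0
    rw [e2, e3]
    have a1 := conc (b := x - v) (p := Y) (h := k) (by linarith only [v1]) (by linarith only [x0, x1, v0]) hY.le k0
    have a2 := mix (b := x - v) (a := 1 / 5 - v) (s := 0) (s' := k) (by linarith only [x0, x1])
      (by rw [abs_zero]; exact abs_nonneg k)
    have a3 := u17 v0 (by linarith only [x1, v1])
    have a4 := Lr_low (s := Y) (x := x - v) (x' := x) hY (by linarith only [v0])
    have a5 : uu x Y - uu (x - v) Y = DT.Lr Y x - DT.Lr Y (x - v) := by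
      rw [uu_Lr, uu_Lr, abs_of_pos hY]
      ring
    have a6 : 0 ≤ Real.pi * (1 / 5 - x) * k := by
      have : 0 ≤ 1 / 5 - x := by linarith only [x0, x1]
      positivity
    rw [show x - (x - v) = v by ring] at a4
    nlinarith only [a1, a2, a3, a4, a5, a6, a1, a2, a3, a4, a5, a6]
  have hP := PN_nonneg x0.le (by linarith only [x0, x1] : x ≤ 6 / 10)
  have h1 := mul_le_mul_of_nonneg_left hM hP
  have h2 := mul_le_mul_of_nonneg_left h1 hY.le
  have h3 := mul_nonneg v0 (He_pos x0 x1)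
  rw [← hYd] at h3
  have h4 := mul_le_mul_of_nonneg_left (cN_ls x0.le x1) hY.le
  unfold G0
  nlinarith only [hN, h2, h3, h4, hN, h2, h3, h4]

end ZN

end Pool.Agent.Work.MP_b30479_gt.G2
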