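import Pool.Agent.Work.MP_b30479_gt.G2.TK2a
import Pool.Agent.Work.MP_b30479_gt.G2.MDb

/-!
# Modes at rings, `RowsN`: tools
-/

namespace Pool.Agent.Work.MP_b30479_gt.G2

open NumU

namespace ZN

/-! ### mixed differences -/

/-- the increments in the height increase with the real part -/
theorem mix {a b s s' : ℝ} (hab : b ≤ a) (h : |s| ≤ |s'|) :
    uu b s' - uu b s ≤ uu a s' - uu a s := by
  have h1 := Lr_diff_mono hab (abs_nonneg s) h
  rw [uu_Lr, uu_Lr, uu_Lr, uu_Lr]
  linarith only [h1]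

theorem uu_zero (t : ℝ) : uu 0 t = -(Real.pi / 2 * |t|) := by
  have a1 := uu_one_sub 0 t
  have a2 := uu_add_one 0 t
  rw [sub_zero] at a1
  rw [zero_add] at a2
  linarith only [a1, a2]

theorem uu_one (t : ℝ) : uu 1 t = Real.pi / 2 * |t| := by
  have a1 := uu_one_sub 0 t
  rw [sub_zero, uu_zero, neg_neg] at a1
  exact a1

theorem uu_half (t : ℝ) : uu (1 / 2) t = 0 := by
  have a1 := uu_one_sub (1 / 2) t
  rw [show (1 : ℝ) - 1 / 2 = 1 / 2 by norm_num] at a1
  linarith only [a1]

theorem uu_two (t : ℝ) : uu 2 t = 3 / 2 * Real.pi * |t| := by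
  have a1 := uu_add_one 1 t
  rw [uu_one, show (1 : ℝ) + 1 = 2 by norm_num] at a1
  linarith only [a1]

theorem uu_threehalf (t : ℝ) : uu (3 / 2) t = Real.pi * |t| := by
  have a1 := uu_add_one (1 / 2) t
  rw [uu_half, show (1 : ℝ) / 2 + 1 = 3 / 2 by norm_num] at a1
  linarith only [a1]

/-- to the right of `1/2` the function increases with the height -/
theorem incr {c s s' : ℝ} (hc : 1 / 2 ≤ c) (h : |s| ≤ |s'|) : uu c s ≤ uu c s' := by
  have h1 := mix hc h
  rw [uu_half, uu_half] at h1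
  linarith only [h1]

theorem decr {c s s' : ℝ} (hc : c ≤ 1 / 2) (h : |s| ≤ |s'|) : uu c s' ≤ uu c s := by
  have h1 := mix hc h
  rw [uu_half, uu_half] at h1
  linarith only [h1]

theorem incr_one {c s s' : ℝ} (hc : 1 ≤ c) (h : |s| ≤ |s'|) :
    Real.pi / 2 * (|s'| - |s|) ≤ uu c s' - uu c s := by
  have h1 := mix hc h
  rw [uu_one, uu_one] at h1
  linarith only [h1]

theorem decr_zero {c s s' : ℝ} (hc : 0 ≤ c) (h : |s| ≤ |s'|) :
    uu c s - uu c s' ≤ Real.pi / 2 * (|s'| - |s|) := by
  have h1 := mix hc h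
  rw [uu_zero, uu_zero] at h1
  linarith only [h1]

theorem le_two {c s s' : ℝ} (hc : c ≤ 2) (h : |s| ≤ |s'|) :
    uu c s' - uu c s ≤ 3 / 2 * Real.pi * (|s'| - |s|) := by
  have h1 := mix hc h
  rw [uu_two, uu_two] at h1
  linarith only [h1]

theorem le_one {c s s' : ℝ} (hc : c ≤ 1) (h : |s| ≤ |s'|) :
    uu c s' - uu c s ≤ Real.pi / 2 * (|s'| - |s|) := by
  have h1 := mix hc h
  rw [uu_one, uu_one] at h1
  linarith only [h1]

theorem le_threehalf {c s s' : ℝ} (hc : c ≤ 3 / 2) (h : |s| ≤ |s'|) :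
    uu c s' - uu c s ≤ Real.pi * (|s'| - |s|) := by
  have h1 := mix hc h
  rw [uu_threehalf, uu_threehalf] at h1
  linarith only [h1]

/-- concavity in the height for real part in `[0, 1/2]` -/
theorem conc {b p h : ℝ} (h0 : 0 ≤ b) (h1 : b ≤ 1 / 2) (hp : 0 ≤ p) (hh : 0 ≤ h) :
    uu b 0 - uu b h ≤ uu b p - uu b (p + h) := by
  have a1 := Lr_conc h0 h1 (s := 0) (s' := p) (d := h) le_rfl hp hh
  rw [zero_add] at a1
  rw [uu_Lr, uu_Lr, uu_Lr, uu_Lr, abs_of_nonneg hp, abs_of_nonneg hh,
    abs_of_nonneg (by linarith only [hp, hh] : 0 ≤ p + h), abs_zero]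
  linarith only [a1]

/-! ### slopes in the direction of the real part -/

theorem Lr_up {s x x' κ : ℝ} (hs : 0 < s) (hx : x ≤ x')
    (hκ : 2 * Real.cosh (2 * Real.pi * s) + 2 ≤ Real.exp (2 * κ)) :
    DT.Lr s x' - DT.Lr s x ≤ κ * (x' - x) := by
  have hd : ∀ r, HasDerivAt (fun x => κ * x - DT.Lr s x) (κ * 1 - DT.el s r) r := fun r =>
    ((hasDerivAt_id r).const_mul κ).sub (DT.hasDerivAt_Lr hs)
  have hm : Monotone (fun x => κ * x - DT.Lr s x) := by
    apply monotone_of_deriv_nonneg
    · exact fun r => (hd r).differentiableAt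
    · intro r
      rw [(hd r).deriv]
      unfold DT.el
      have a1 := DT.LrDer.cosh_gt_cos (v := r) hs
      have a2 := Real.neg_one_le_cos (2 * Real.pi * r)
      have a3 := Real.log_le_log (by linarith only [a1] : 0 < 2 * Real.cosh (2 * Real.pi * s) -
        2 * Real.cos (2 * Real.pi * r)) (by linarith only [hκ, a2] : 2 * Real.cosh (2 * Real.pi * s) -
        2 * Real.cos (2 * Real.pi * r) ≤ Real.exp (2 * κ))
      rw [Real.log_exp] at a3
      linarith only [a3]
  have := hm hx
  simp only at this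
  linarith only [this]

theorem uu_up {u v t κ T : ℝ} (huv : u ≤ v) (hT : 0 < T) (ht : |t| ≤ T)
    (hκ : 2 * Real.cosh (2 * Real.pi * T) + 2 ≤ Real.exp (2 * κ)) :
    uu v t - uu u t ≤ κ * (v - u) := by
  have a1 := Lr_diff_mono huv (abs_nonneg t) ht
  have a2 := Lr_up hT huv hκ
  rw [uu_Lr, uu_Lr]
  linarith only [a1, a2]

theorem exp12 : 2 * Real.cosh (2 * Real.pi * (33 / 100)) + 2 ≤ Real.exp (2 * (12 / 10)) := by
  have h : NumI.chk [NumI.E.sub (NumI.E.exp (NumI.E.q 12 5)) (NumI.E.add (NumI.E.q 2 1)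
      (NumI.E.mul (NumI.E.q 2 1) (NumI.E.cosh (NumI.E.mul NumI.E.pi (NumI.E.q 66 100)))))] 1
      [NumI.V.of 1 0 0] = true := by
    decide +kernel
  have hp := NumI.pos_of_chk (NumI.chk1 h (by norm_num) (x := 0) (by norm_num) (by norm_num))
  simp only [NumI.E.val] at hp
  rw [show 2 * Real.pi * (33 / 100) = Real.pi * (((66 : ℤ) : ℝ) / ((100 : ℕ) : ℝ)) by
    push_cast; ring, show (2 : ℝ) * (12 / 10) = ((12 : ℤ) : ℝ) / ((5 : ℕ) : ℝ) by norm_num]
  have e2 : (((2 : ℤ) : ℝ) / ((1 : ℕ) : ℝ)) = 2 := by norm_num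
  rw [e2] at hp
  linarith only [hp]

theorem uu_up12 {u v t : ℝ} (huv : u ≤ v) (ht : |t| ≤ 33 / 100) :
    uu v t - uu u t ≤ 12 / 10 * (v - u) := uu_up huv (by norm_num) ht exp12

/-- near `0`, upper bound -/
theorem near0_le {b y : ℝ} (hb : 0 ≤ b) (hy : |y| ≤ 33 / 100) :
    uu b y ≤ -(Real.pi / 2 * |y|) + 12 / 10 * b := by
  have h := uu_up12 hb hy
  rw [uu_zero] at h
  linarith only [h]

/-- near `0`, lower bound -/
theorem near0_ge {b y : ℝ} (hb : 0 ≤ b) : uu b 0 - Real.pi / 2 * |y| ≤ uu b y := by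
  have h := mix hb (s := 0) (s' := y) (by rw [abs_zero]; exact abs_nonneg y)
  rw [uu_zero, uu_zero, abs_zero, mul_zero, neg_zero] at h
  linarith only [h]

/-- near `1`, from both sides, upper bound -/
theorem near1_le {c δ y : ℝ} (h0 : 1 - δ ≤ c) (h1 : c ≤ 1 + δ) (hδ0 : 0 ≤ δ) (hδ : δ ≤ 1 / 6)
    (hy : |y| ≤ 33 / 100) : uu c y ≤ Real.pi / 2 * |y| + 12 / 10 * δ - uu δ 0 := by
  have hn : uu δ 0 ≤ 0 := by
    have a1 := TL.uu_real_anti (a := 0) (b := δ) le_rfl hδ0 (by linarith only [hδ])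
    rw [uu_zero, abs_zero, mul_zero, neg_zero] at a1
    exact a1
  rcases le_total c 1 with h | h
  · have e1 : uu c y = -uu (1 - c) y := by
      rw [← uu_one_sub]
      ring_nf
    have a1 := near0_ge (b := 1 - c) (y := y) (by linarith only [h])
    have a2 := TL.uu_real_anti (a := 1 - c) (b := δ) (by linarith only [h]) (by linarith only [h0]) (by linarith only [hδ])
    rw [e1]
    linarith only [h0, h1, a1, a2]
  · have e1 : uu c y = uu (c - 1) y + Real.pi * |y| := by
      rw [← uu_add_one]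
      ring_nf
    have a1 := near0_le (b := c - 1) (y := y) (by linarith only [h]) hy
    rw [e1]
    linarith only [h1, hn, a1]

/-- near `1`, from both sides, lower bound -/
theorem near1_ge {c δ y : ℝ} (h0 : 1 - δ ≤ c) (h1 : c ≤ 1 + δ) (hδ0 : 0 ≤ δ) (hδ : δ ≤ 1 / 6)
    (hy : |y| ≤ 33 / 100) : Real.pi / 2 * |y| - 12 / 10 * δ + uu δ 0 ≤ uu c y := by
  have hn : uu δ 0 ≤ 0 := by
    have a1 := TL.uu_real_anti (a := 0) (b := δ) le_rfl hδ0 (by linarith only [hδ])
    rw [uu_zero, abs_zero, mul_zero, neg_zero] at a1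
    exact a1
  rcases le_total c 1 with h | h
  · have e1 : uu c y = -uu (1 - c) y := by
      rw [← uu_one_sub]
      ring_nf
    have a1 := near0_le (b := 1 - c) (y := y) (by linarith only [h]) hy
    rw [e1]
    linarith only [h0, hn, a1]
  · have e1 : uu c y = uu (c - 1) y + Real.pi * |y| := by
      rw [← uu_add_one]
      ring_nf
    have a1 := near0_ge (b := c - 1) (y := y) (by linarith only [h])
    have a2 := TL.uu_real_anti (a := c - 1) (b := δ) (by linarith only [h]) (by linarith only [h1]) (by linarith only [hδ])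
    rw [e1]
    linarith only [h0, h1, a1, a2]

/-- increments in the real part are at least `log (2 π s)` -/
theorem Lr_low {s x x' : ℝ} (hs : 0 < s) (hx : x ≤ x') :
    Real.log (2 * Real.pi * s) * (x' - x) ≤ DT.Lr s x' - DT.Lr s x := by
  have hd : ∀ r, HasDerivAt (fun x => DT.Lr s x - Real.log (2 * Real.pi * s) * x)
      (DT.el s r - Real.log (2 * Real.pi * s) * 1) r := fun r =>
    (DT.hasDerivAt_Lr hs).sub ((hasDerivAt_id r).const_mul _)
  have hpi := Real.pi_pos
  have hm : Monotone (fun x => DT.Lr s x - Real.log (2 * Real.pi * s) * x) := by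
    apply monotone_of_deriv_nonneg
    · exact fun r => (hd r).differentiableAt
    · intro r
      rw [(hd r).deriv]
      unfold DT.el
      have a2 := Real.cos_le_one (2 * Real.pi * r)
      have a5 : Real.pi * s ≤ Real.sinh (Real.pi * s) :=
        Real.self_le_sinh_iff.2 (by positivity)
      have a6 : Real.cosh (2 * Real.pi * s) = 1 + 2 * Real.sinh (Real.pi * s) ^ 2 := by
        rw [show 2 * Real.pi * s = 2 * (Real.pi * s) by ring, Real.cosh_two_mul, Real.cosh_sq]
        ring
      have a3 : 1 + (2 * Real.pi * s) ^ 2 / 2 ≤ Real.cosh (2 * Real.pi * s) := by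
        rw [a6]
        have a7 := pow_le_pow_left₀ (by positivity) a5 2
        linarith only [a7, a7]
      have a4 := Real.log_le_log (by positivity : 0 < (2 * Real.pi * s) ^ 2)
        (by linarith only [a2, a3] : (2 * Real.pi * s) ^ 2 ≤ 2 * Real.cosh (2 * Real.pi * s) -
        2 * Real.cos (2 * Real.pi * r))
      rw [Real.log_pow] at a4
      push_cast at a4
      linarith only [a4]
  have := hm hx
  simp only at this
  linarith only [this]

/-- increments of `uu a Y - uu a 0` in `a` for `Y ≥ 4/3 x` -/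
theorem log53 {b x Y : ℝ} (hb : 0 ≤ b) (hbx : b ≤ x) (hx : x ≤ 1 / 2) (hY : 4 / 3 * x ≤ Y)
    (hx0 : 0 < x) : Real.log (5 / 3) * (x - b) ≤ (uu x Y - uu x 0) - (uu b Y - uu b 0) := by
  have hpi := Real.pi_pos
  have hY0 : 0 < Y := by linarith only [hY, hx0]
  have hYc : Continuous fun a => DT.Lr Y a :=
    continuous_iff_continuousAt.2 fun a => (DT.hasDerivAt_Lr hY0).continuousAt
  have hm : MonotoneOn (fun a => uu a Y - uu a 0 - Real.log (5 / 3) * a) (Set.Icc b x) := by
    apply monotoneOn_of_deriv_nonneg (convex_Icc _ _)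
    · refine Continuous.continuousOn ?_
      refine Continuous.sub (Continuous.sub ?_ TL.cont_uu_real) (continuous_const.mul continuous_id)
      have e : (fun a => uu a Y) = fun a => DT.Lr Y a - Real.pi * |Y| / 2 := by
        funext a
        rw [uu_Lr, abs_of_pos hY0]
      rw [e]
      exact hYc.sub continuous_const
    all_goals
      intro a ha
      rw [interior_Icc] at ha
      have ha0 : 0 < a := hb.trans_lt ha.1
      have e : (fun a => uu a Y) = fun a => DT.Lr Y a - Real.pi * |Y| / 2 := by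
        funext a
        rw [uu_Lr, abs_of_pos hY0]
      have d1 : HasDerivAt (fun a => uu a Y) (DT.el Y a) a := by
        rw [e]
        exact (DT.hasDerivAt_Lr hY0).sub_const _
      have d2 := TL.uu_real_deriv ha0 (by linarith only [hx, hx0, ha, ha.2] : a < 1)
      have d3 := (d1.sub d2).sub ((hasDerivAt_id a).const_mul (Real.log (5 / 3)))
    · exact d3.differentiableAt.differentiableWithinAt
    · have e3 : deriv (fun a => uu a Y - uu a 0 - Real.log (5 / 3) * a) a = _ := d3.deriv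
      rw [e3]
      have s0 : 0 < Real.sin (Real.pi * a) := Real.sin_pos_of_pos_of_lt_pi (by positivity)
        (by nlinarith only [hx, hpi, hx0, ha, ha.2])
      have s1 : Real.sin (Real.pi * a) ≤ Real.pi * a := Real.sin_le (by positivity)
      have a5 : Real.pi * Y ≤ Real.sinh (Real.pi * Y) := Real.self_le_sinh_iff.2 (by positivity)
      have a6 : Real.cosh (2 * Real.pi * Y) = 1 + 2 * Real.sinh (Real.pi * Y) ^ 2 := by
        rw [show 2 * Real.pi * Y = 2 * (Real.pi * Y) by ring, Real.cosh_two_mul, Real.cosh_sq]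
        ring
      have a7 : Real.cos (2 * Real.pi * a) = 1 - 2 * Real.sin (Real.pi * a) ^ 2 := by
        rw [show 2 * Real.pi * a = 2 * (Real.pi * a) by ring, Real.cos_two_mul]
        have := Real.sin_sq_add_cos_sq (Real.pi * a)
        linarith only [this]
      have a8 : 4 / 3 * Real.sin (Real.pi * a) ≤ Real.sinh (Real.pi * Y) := by
        nlinarith only [s1, a5, hx, hY, hpi, hx0, ha, ha.2]
      have a9 : (5 / 3 * (2 * Real.sin (Real.pi * a))) ^ 2 ≤
          2 * Real.cosh (2 * Real.pi * Y) - 2 * Real.cos (2 * Real.pi * a) := by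
        rw [a6, a7]
        have := pow_le_pow_left₀ (by positivity) a8 2
        nlinarith only [this, this]
      have b1 := Real.log_le_log (by positivity) a9
      rw [Real.log_pow, Real.log_mul (by norm_num) (by positivity)] at b1
      push_cast at b1
      unfold DT.el
      linarith only [b1]
  have h := hm (Set.left_mem_Icc.2 hbx) (Set.right_mem_Icc.2 hbx) hbx
  simp only at h
  linarith only [h]

end ZN

end Pool.Agent.Work.MP_b30479_gt.G2
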