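import Pool.Agent.Work.MP_b30479_gt.G2.ZRows
import Pool.Agent.Work.MP_b30479_gt.G2.MDc

/-!
# Modes at rings: the beginning of the mode path and high points
-/

namespace Pool.Agent.Work.MP_b30479_gt.G2

open NumU

namespace ZD

/-! ### the limit at infinity -/

theorem uu_lim (a : ℝ) {y : ℝ} (hy : y ≠ 0) : |uu a y - Real.pi * (a - 1 / 2) * (|y|)| ≤
    Real.exp (-(2 * Real.pi * |y|)) / (1 - Real.exp (-(2 * Real.pi * |y|))) / (2 * Real.pi) := by
  have hp := Real.pi_pos
  have hy' : 0 < |y| := abs_pos.2 hy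
  rw [uu_Lr, DT.Lr_series (abs_nonneg y) a]
  set E := Real.exp (-(2 * Real.pi * |y|)) with hE
  have hE0 : 0 < E := Real.exp_pos _
  have hE1 : E < 1 := by
    rw [hE, Real.exp_lt_one_iff]
    have : 0 < 2 * Real.pi * |y| := by positivity
    linarith only [this]
  set S := ∑' k : ℕ, Complex.exp (2 * Real.pi * Complex.I * (a + |y| * Complex.I)) ^ (k + 1) /
      ((k : ℂ) + 1) ^ 2 with hS
  have hn : ‖Complex.exp (2 * Real.pi * Complex.I * (a + |y| * Complex.I))‖ = E :=
    DT.LrDer.norm_qq |y| a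
  have h1 : ‖S‖ ≤ E / (1 - E) := by
    have hg : HasSum (fun k : ℕ => E * E ^ k) (E * (1 - E)⁻¹) :=
      (hasSum_geometric_of_lt_one hE0.le hE1).mul_left E
    rw [div_eq_mul_inv]
    refine tsum_of_norm_bounded hg fun k => ?_
    rw [norm_div, norm_pow, hn, norm_pow, pow_succ']
    have h2 : (1 : ℝ) ≤ ‖(k : ℂ) + 1‖ ^ 2 := by
      have : ‖(k : ℂ) + 1‖ = (k : ℝ) + 1 := by
        rw [show (k : ℂ) + 1 = (((k : ℝ) + 1 : ℝ) : ℂ) by push_cast; ring, Complex.norm_real,
          Real.norm_of_nonneg (by positivity)]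
      rw [this]
      have : (0 : ℝ) ≤ k := Nat.cast_nonneg k
      nlinarith
    exact div_le_self (by positivity) h2
  have h2 : |S.im| ≤ E / (1 - E) := (Complex.abs_im_le_norm S).trans h1
  have e : Real.pi * |y| * a - S.im / (2 * Real.pi) - Real.pi * |y| / 2 -
      Real.pi * (a - 1 / 2) * |y| = -(S.im / (2 * Real.pi)) := by ring
  rw [e, abs_neg, abs_div, abs_of_pos (by positivity : 0 < 2 * Real.pi)]
  exact div_le_div_of_nonneg_right h2 (by positivity)

theorem lim_of {c e b : ℝ} (h1 : Real.exp (-c) ≤ e) (he : e < 1) (h2 : e ≤ b * (6283 / 1000) * (1 - e))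
    {a y : ℝ} (hc : c ≤ 6283 / 1000 * |y|) (hy : y ≠ 0) :
    |uu a y - Real.pi * (a - 1 / 2) * (|y|)| ≤ b := by
  have hp := Real.pi_gt_d4
  have h := uu_lim a hy
  have h3 : Real.exp (-(2 * Real.pi * |y|)) ≤ e := by
    refine le_trans (Real.exp_le_exp.2 ?_) h1
    have := mul_le_mul_of_nonneg_right (show (6283 / 1000 : ℝ) ≤ 2 * Real.pi by linarith only [hp])
      (abs_nonneg y)
    linarith only [hc, this]
  have h4 : 0 < Real.exp (-(2 * Real.pi * |y|)) := Real.exp_pos _
  generalize Real.exp (-(2 * Real.pi * |y|)) = E at *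
  refine h.trans ?_
  rw [div_le_iff₀ (by positivity), div_le_iff₀ (by linarith only [he, h3])]
  have hb : 0 ≤ b := by
    by_contra hb
    push Not at hb
    have : b * (6283 / 1000) * (1 - e) ≤ 0 := by
      apply mul_nonpos_of_nonpos_of_nonneg
      · nlinarith only [hb]
      · linarith only [he]
    linarith only [h2, h3, h4, this]
  have h5 : b * (6283 / 1000) ≤ b * (2 * Real.pi) := mul_le_mul_of_nonneg_left (by linarith only [hp]) hb
  have h6 : 0 ≤ b * (6283 / 1000) := by positivity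
  have h7 : b * (6283 / 1000) * (1 - e) ≤ b * (6283 / 1000) * (1 - E) :=
    mul_le_mul_of_nonneg_left (by linarith only [h3]) h6
  have h8 : b * (6283 / 1000) * (1 - E) ≤ b * (2 * Real.pi) * (1 - E) :=
    mul_le_mul_of_nonneg_right h5 (by linarith only [he, h3])
  linarith only [h2, h3, h7, h8]

theorem exp_one_pow (n : ℕ) : (2718 / 1000 : ℝ) ^ n ≤ Real.exp n := by
  have h := Real.exp_one_gt_d9
  rw [← Real.exp_one_pow]
  exact pow_le_pow_left₀ (by norm_num) (by linarith only [h]) n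

theorem lim84 {a y : ℝ} (hy : 84 / 100 ≤ |y|) :
    |uu a y - Real.pi * (a - 1 / 2) * (|y|)| ≤ 85 / 100000 := by
  refine lim_of (c := 52777 / 10000) (e := 52 / 10000) ?_ (by norm_num) (by norm_num)
    (by linarith only [hy]) (by
      rintro rfl
      rw [abs_zero] at hy
      norm_num at hy)
  rw [Real.exp_neg, inv_le_comm₀ (Real.exp_pos _) (by norm_num)]
  have h1 := exp_one_pow 5
  have h2 := Real.quadratic_le_exp_of_nonneg (show (0 : ℝ) ≤ 2777 / 10000 by norm_num)
  have e : (52777 / 10000 : ℝ) = ((5 : ℕ) : ℝ) + 2777 / 10000 := by norm_num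
  rw [e, Real.exp_add]
  refine le_trans ?_ (mul_le_mul h1 h2 (by norm_num) (Real.exp_pos _).le)
  norm_num

theorem lim1 {a y : ℝ} (hy : 1 ≤ |y|) :
    |uu a y - Real.pi * (a - 1 / 2) * (|y|)| ≤ 32 / 100000 := by
  refine lim_of (c := 6283 / 1000) (e := 19 / 10000) ?_ (by norm_num) (by norm_num)
    (by linarith only [hy]) (by
      rintro rfl
      rw [abs_zero] at hy
      norm_num at hy)
  rw [Real.exp_neg, inv_le_comm₀ (Real.exp_pos _) (by norm_num)]
  have h1 := exp_one_pow 6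
  have h2 := Real.quadratic_le_exp_of_nonneg (show (0 : ℝ) ≤ 283 / 1000 by norm_num)
  have e : (6283 / 1000 : ℝ) = ((6 : ℕ) : ℝ) + 283 / 1000 := by norm_num
  rw [e, Real.exp_add]
  refine le_trans ?_ (mul_le_mul h1 h2 (by norm_num) (Real.exp_pos _).le)
  norm_num

/-! ### dependence on the height -/

theorem uu_abs (a y : ℝ) : uu a |y| = uu a y := by
  rcases abs_choice y with h | h
  · rw [h]
  · rw [h, uu_neg]

theorem uu_inc (a : ℝ) {s s' : ℝ} (h0 : 0 ≤ s) (h : s ≤ s') :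
    uu a s' - uu a s = DT.Lr s' a - DT.Lr s a - Real.pi / 2 * (s' - s) := by
  rw [uu_Lr, uu_Lr, abs_of_nonneg h0, abs_of_nonneg (h0.trans h)]
  ring

theorem uu_lo {a s s' : ℝ} (ha : a ≤ 1 / 2) (h0 : 0 ≤ s) (h : s ≤ s') : uu a s' ≤ uu a s := by
  have := uu_inc a h0 h
  have := inc_le_half ha h0 h
  linarith

theorem uu_hi {a s s' : ℝ} (ha : 1 / 2 ≤ a) (h0 : 0 ≤ s) (h : s ≤ s') : uu a s ≤ uu a s' := by
  have := uu_inc a h0 h
  have := inc_ge_half ha h0 h
  linarith

theorem uu_lo' {a s s' : ℝ} (h1 : 0 ≤ a) (ha : a ≤ 1 / 2) (h0 : 0 ≤ s) (h : s ≤ s') :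
    uu a s ≤ uu a s' + Real.pi * (1 / 2 - a) * (s' - s) := by
  have h2 := uu_inc a h0 h
  have h3 := inc_ge_lin h1 ha le_rfl h0 h
  linarith only [h2, h3]

theorem uu_hi' {a s s' : ℝ} (ha : 1 / 2 ≤ a) (h1 : a ≤ 1) (h0 : 0 ≤ s) (h : s ≤ s') :
    uu a s' ≤ uu a s + Real.pi * (a - 1 / 2) * (s' - s) := by
  have h2 := uu_lo' (a := 1 - a) (by linarith only [h1]) (by linarith only [ha]) h0 h
  rw [uu_one_sub, uu_one_sub] at h2
  linarith only [h2]

theorem uu_le_lim {a y : ℝ} (h0 : 0 ≤ a) (h1 : a ≤ 1 / 2) (hy : 0 ≤ y) :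
    uu a y ≤ -(Real.pi * (1 / 2 - a) * y) := by
  have hp := Real.pi_pos
  -- limit
  have key : ∀ b : ℝ, 0 < b → uu a y ≤ -(Real.pi * (1 / 2 - a) * y) + b := by
    intro b hb
    have hT : Filter.Tendsto (fun s : ℝ => Real.exp (-(2 * Real.pi * s)) /
        (1 - Real.exp (-(2 * Real.pi * s))) / (2 * Real.pi)) Filter.atTop (nhds 0) := by
      have h2 : Filter.Tendsto (fun s : ℝ => Real.exp (-(2 * Real.pi * s))) Filter.atTop
          (nhds 0) := by
        have h3 : Filter.Tendsto (fun s : ℝ => 2 * Real.pi * s) Filter.atTop Filter.atTop :=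
          Filter.Tendsto.const_mul_atTop (by positivity) Filter.tendsto_id
        exact Real.tendsto_exp_neg_atTop_nhds_zero.comp h3
      have h4 := (h2.div (h2.const_sub 1) (by norm_num)).div_const (2 * Real.pi)
      simpa using h4
    obtain ⟨s, hs, hs2⟩ := ((hT.eventually (gt_mem_nhds hb)).and
      (Filter.eventually_ge_atTop (max y 1))).exists
    have hs3 : y ≤ s := (le_max_left _ _).trans hs2
    have hs4 : 1 ≤ s := (le_max_right _ _).trans hs2
    have h5 := uu_lo' h0 h1 hy hs3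
    have h6 := uu_lim a (y := s) (by linarith only [hs4])
    rw [abs_of_nonneg (show 0 ≤ s by linarith only [hs4])] at h6
    have h7 := (abs_le.mp h6).2
    linarith only [hs, h5, h7]
  by_contra hc
  push Not at hc
  have := key ((uu a y + Real.pi * (1 / 2 - a) * y) / 2) (by linarith only [hc])
  linarith only [hc, this]

/-! ### small real parts -/

/-- the integral of `-log (2 sin)` -/
noncomputable def lz (x : ℝ) : ℝ := -DT.Lr 0 x

theorem lz_zero : lz 0 = 0 := by
  unfold lz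
  rw [DT.Lr_zero_right, neg_zero]

theorem continuous_lz : Continuous lz := by
  unfold lz DT.Lr
  exact (intervalIntegral.continuous_primitive (fun a b => DT.el_intble 0 a b) 0).neg

theorem hasDerivAt_lz {x : ℝ} (h0 : 0 < x) (h1 : x < 1) :
    HasDerivAt lz (-Real.log (2 * Real.sin (Real.pi * x))) x := by
  have hs := VOL.sin_pi_pos h0 h1
  have h := (DT.hasDerivAt_Lr_zero hs.ne').neg
  refine h.congr_deriv ?_
  rw [DT.el_eq]
  have e : (2 * Complex.sin (Real.pi * ((x : ℂ) + ((0 : ℝ) : ℂ) * Complex.I))) =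
      ((2 * Real.sin (Real.pi * x) : ℝ) : ℂ) := by
    push_cast
    rw [zero_mul, add_zero]
  rw [e, Complex.norm_real, Real.norm_of_nonneg (by positivity)]

theorem Lr_ge_lz {ρ x : ℝ} (hρ : 0 ≤ ρ) (h0 : 0 ≤ x) : -lz x ≤ DT.Lr ρ x := by
  have h1 := Lr_diff_mono (a := x) (b := 0) h0 le_rfl hρ
  rw [DT.Lr_zero_right, DT.Lr_zero_right] at h1
  unfold lz
  linarith only [h1]

theorem hasDerivAt_xlog {x : ℝ} (hx : 0 < x) :
    HasDerivAt (fun x : ℝ => 4 * x * Real.log (4 * x)) ((Real.log (4 * x) + 1) * 4) x := by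
  have h := (Real.hasDerivAt_mul_log (x := 4 * x) (by positivity)).comp x
    ((hasDerivAt_id' x).const_mul 4)
  rw [mul_one] at h
  exact h

theorem lz_le {x : ℝ} (h0 : 0 ≤ x) (h1 : x ≤ 1 / 2) : lz x ≤ x - x * Real.log (4 * x) := by
  have hp := Real.pi_pos
  have hm : MonotoneOn (fun x : ℝ => x - (4 * x * Real.log (4 * x)) / 4 - lz x)
      (Set.Icc 0 (1 / 2)) := by
    apply monotoneOn_of_deriv_nonneg (convex_Icc _ _)
    · apply ContinuousOn.sub
      · apply ContinuousOn.sub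
        · exact continuousOn_id
        · have : Continuous fun x : ℝ => 4 * x * Real.log (4 * x) :=
            Real.continuous_mul_log.comp (continuous_const.mul continuous_id)
          exact (this.div_const 4).continuousOn
      · exact continuous_lz.continuousOn
    · intro x hx
      rw [interior_Icc] at hx
      have h2 := hasDerivAt_lz hx.1 (by linarith only [hx, hx.2])
      have h3 := hasDerivAt_xlog hx.1
      exact (((hasDerivAt_id x).sub (h3.div_const 4)).sub h2).differentiableAt.differentiableWithinAt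
    · intro x hx
      rw [interior_Icc] at hx
      have h2 := hasDerivAt_lz hx.1 (by linarith only [hx, hx.2])
      have h3 := hasDerivAt_xlog hx.1
      have h4 := (((hasDerivAt_id x).sub (h3.div_const 4)).sub h2).deriv
      have h5 : deriv (fun x : ℝ => x - (4 * x * Real.log (4 * x)) / 4 - lz x) x = _ := h4
      rw [h5]
      have h6 := Real.mul_le_sin (x := Real.pi * x) (by have := hx.1; positivity)
        (by have := hx.2; nlinarith only [hp, this])
      have e : 2 / Real.pi * (Real.pi * x) = 2 * x := by field_simp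
      rw [e] at h6
      have h7 := Real.log_le_log (x := 4 * x) (y := 2 * Real.sin (Real.pi * x))
        (by have := hx.1; positivity) (by linarith only [h6])
      linarith only [h7]
  have := hm ⟨le_rfl, by norm_num⟩ ⟨h0, h1⟩ h0
  simp only [mul_zero, zero_mul, zero_div, sub_zero, lz_zero] at this
  linarith only [this]

theorem lz_small {x : ℝ} (h0 : 0 ≤ x) (h1 : x ≤ 16 / 1000000) : lz x ≤ 174 / 1000000 := by
  have h2 := lz_le h0 (by linarith only [h1])
  rcases h0.eq_or_lt with h | h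
  · rw [← h, lz_zero]
    norm_num
  have h3 : Real.log (4 * x) = Real.log (4 * (16 / 1000000)) - Real.log ((16 / 1000000) / x) := by
    rw [← Real.log_div (by norm_num) (by positivity)]
    congr 1
    field_simp
  have h4 := Real.log_le_sub_one_of_pos (show 0 < (16 / 1000000) / x by positivity)
  have h5 := mul_le_mul_of_nonneg_left h4 h.le
  have h6 : x * ((16 / 1000000) / x - 1) = 16 / 1000000 - x := by field_simp
  rw [h6] at h5
  have h7 : Real.log (4 * (16 / 1000000)) = -(6 * Real.log 5) := by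
    rw [show (4 * (16 / 1000000) : ℝ) = (5 ^ 6)⁻¹ by norm_num, Real.log_inv, Real.log_pow]
    norm_num
  have h8 : Real.log 5 ≤ 1 / 4 + 2 * Real.log 2 := by
    have := Real.log_le_sub_one_of_pos (show (0 : ℝ) < 5 / 4 by norm_num)
    have e : Real.log 5 = Real.log (5 / 4) + 2 * Real.log 2 := by
      rw [show (5 : ℝ) = 5 / 4 * 2 ^ 2 by norm_num, Real.log_mul (by norm_num) (by norm_num),
        Real.log_pow]
      norm_num
    rw [e]
    linarith only [this]
  have h9 := Real.log_two_lt_d9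
  rw [h3, h7] at h2
  have h10 : x * (6 * Real.log 5) ≤ 16 / 1000000 * (6 * (1637 / 1000)) := by
    apply mul_le_mul h1 _ _ (by norm_num)
    · linarith only [h1, h, h8, h9]
    · have := Real.log_nonneg (show (1 : ℝ) ≤ 5 by norm_num)
      positivity
  have h11 : x - x * (-(6 * Real.log 5) - Real.log ((16 / 1000000) / x)) =
      x + x * (6 * Real.log 5) + x * Real.log ((16 / 1000000) / x) := by ring
  rw [h11] at h2
  linarith only [h1, h2, h, h5, h10]

theorem uu_start {x : ℝ} (h0 : 0 ≤ x) (h1 : x ≤ 16 / 1000000) (Y : ℝ) :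
    -(Real.pi / 2 * |Y|) - 174 / 1000000 ≤ uu x Y := by
  have h2 := Lr_ge_lz (abs_nonneg Y) h0
  have h3 := lz_small h0 h1
  rw [uu_Lr]
  linarith only [h2, h3]

theorem uu_add_le (a : ℝ) {x : ℝ} (h0 : 0 ≤ x) (y : ℝ) :
    uu (a + x) y ≤ uu a y + x * (Real.pi * |y| + Real.log 2) := by
  have h1 := DT.Lr_sub |y| a (a + x)
  have h2 : ∫ v in a..(a + x), DT.el |y| v ≤ ∫ _ in a..(a + x), (Real.log 2 + Real.pi * |y|) :=
    intervalIntegral.integral_mono_on (by linarith only [h0]) (DT.el_intble _ _ _) (by simp)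
      fun v _ => el_le (abs_nonneg y)
  rw [intervalIntegral.integral_const, smul_eq_mul] at h2
  rw [uu_Lr, uu_Lr]
  have e : a + x - a = x := by ring
  rw [e] at h2
  linarith only [h1, h2]

/-! ### the rows -/

theorem fA_uu (x Y σ η : ℝ) : fA x Y σ η = uu (x + 1 / 2 + σ) (Y + η) +
    uu (x + 1 / 2 - σ) (Y - η) - 2 * uu x Y - Real.pi * Y := by
  unfold fA
  rw [fR_uu]

theorem zf {x Y σ η : ℝ} (h0 : 0 ≤ x) (h1 : x ≤ 16 / 1000000) (hY : 0 ≤ Y) (hY1 : Y ≤ 1)
    (hσ : |σ| ≤ 1 / 2) (hη : 0 ≤ η) (hη1 : η ≤ 1045 / 10000) : fA x Y σ η ≤ bR σ η + 5 / 10000 := by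
  have hp := Real.pi_pos
  have hp2 := Real.pi_lt_d4
  have hl := Real.log_two_lt_d9
  obtain ⟨s1, s2⟩ := abs_le.mp hσ
  rw [fA_uu]
  have a1 := uu_add_le (1 / 2 + σ) h0 (Y + η)
  have a2 := uu_add_le (1 / 2 - σ) h0 (Y - η)
  have a3 := uu_start h0 h1 Y
  rw [abs_of_nonneg hY] at a3
  rw [abs_of_nonneg (show 0 ≤ Y + η by linarith only [hY, hη])] at a1
  rw [show 1 / 2 + σ + x = x + 1 / 2 + σ by ring] at a1
  rw [show 1 / 2 - σ + x = x + 1 / 2 - σ by ring] at a2
  have a4 : uu (1 / 2 - σ) (Y - η) = -uu (1 / 2 + σ) |Y - η| := by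
    rw [uu_abs, ← uu_one_sub]
    congr 1
    ring
  have hd : |Y - η| ≤ Y + η := by
    rw [abs_le]
    constructor <;> linarith only [hY, hη]
  have hd2 : |Y - η| ≤ 1 := by
    rw [abs_le]
    constructor <;> linarith only [hY, hη1, hY1, hη]
  have hd3 : Y - η ≤ |Y - η| := le_abs_self _
  have hd4 : η - Y ≤ |Y - η| := by
    rw [abs_sub_comm]
    exact le_abs_self _
  have m1 : uu (1 / 2 + σ) (Y + η) - uu (1 / 2 + σ) |Y - η| ≤ bR σ η := by
    unfold bR
    rcases le_total σ 0 with h | h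
    · rw [max_eq_right h, mul_zero]
      have := uu_lo (a := 1 / 2 + σ) (by linarith only [h]) (abs_nonneg (Y - η)) hd
      linarith only [this]
    · rw [max_eq_left h]
      have b1 := uu_hi' (a := 1 / 2 + σ) (by linarith only [h]) (by linarith only [s2]) (abs_nonneg (Y - η)) hd
      have b2 : Real.pi * (1 / 2 + σ - 1 / 2) * (Y + η - |Y - η|) ≤ Real.pi * σ * (2 * η) := by
        rw [show 1 / 2 + σ - 1 / 2 = σ by ring]
        exact mul_le_mul_of_nonneg_left (by linarith only [hd3]) (by positivity)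
      linarith only [b1, b2]
  have m2 : x * (Real.pi * (Y + η) + Real.log 2) ≤ 16 / 1000000 * (31416 / 10000 * (11045 / 10000) +
      6932 / 10000) := by
    apply mul_le_mul h1 _ _ (by norm_num)
    · have : Real.pi * (Y + η) ≤ 31416 / 10000 * (11045 / 10000) :=
        mul_le_mul (by linarith only [hp2]) (by linarith only [hY1, hη1]) (by linarith only [hY, hη]) (by norm_num)
      linarith only [hl, this]
    · have : 0 ≤ Real.log 2 := Real.log_nonneg (by norm_num)
      have : 0 ≤ Real.pi * (Y + η) := mul_nonneg hp.le (by linarith only [hY, hη])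
      linarith
  have m3 : x * (Real.pi * |Y - η| + Real.log 2) ≤ 16 / 1000000 * (31416 / 10000 * 1 +
      6932 / 10000) := by
    apply mul_le_mul h1 _ _ (by norm_num)
    · have : Real.pi * |Y - η| ≤ 31416 / 10000 * 1 :=
        mul_le_mul (by linarith only [hp2]) hd2 (abs_nonneg _) (by norm_num)
      linarith only [hl, this]
    · have : 0 ≤ Real.log 2 := Real.log_nonneg (by norm_num)
      have : 0 ≤ Real.pi * |Y - η| := mul_nonneg hp.le (abs_nonneg _)
      linarith
  rw [a4] at a2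
  linarith only [a1, a2, a3, m1, m2, m3]

/-- the values of the digit side at the beginning -/
theorem g_le {Y k1 k2 : ℝ} (hY : 0 ≤ Y) (h0 : 0 ≤ k1) (h1 : k1 ≤ 1) :
    Real.pi * (1 / 2 - k1) * Y + uu k1 (k2 - Y) ≤
      if k1 < 1 / 2 then cA1 k1 k2 else oD1 k1 k2 := by
  have hp := Real.pi_pos
  split_ifs with h
  · have hk : 0 ≤ Real.pi * (1 / 2 - k1) := mul_nonneg hp.le (by linarith only [h])
    have a1 := uu_le_lim h0 h.le (abs_nonneg (k2 - Y))
    rw [uu_abs] at a1
    have a2 := mul_le_mul_of_nonneg_left (le_abs_self (k2 - Y)) hk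
    have a3 := mul_le_mul_of_nonneg_left (show Y - k2 ≤ |k2 - Y| by
      rw [abs_sub_comm]; exact le_abs_self _) hk
    unfold cA1
    rcases le_total Y k2 with h2 | h2
    · have := mul_le_mul_of_nonneg_left h2 hk
      nlinarith only [a1, a3]
    · nlinarith only [a1, a3]
  · push Not at h
    have hk : 0 ≤ Real.pi * (k1 - 1 / 2) := mul_nonneg hp.le (by linarith only [h])
    unfold oD1
    rcases le_total Y k2 with h2 | h2
    · have := uu_hi h (s := k2 - Y) (s' := k2) (by linarith only [h2]) (by linarith only [hY])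
      have := mul_nonneg hk hY
      linarith
    · rcases le_total 0 k2 with h3 | h3
      · have a1 := uu_hi' h h1 (s := 0) (s' := Y - k2) le_rfl (by linarith only [h2])
        have a2 := uu_hi h (s := 0) (s' := k2) le_rfl h3
        have a3 := mul_nonneg hk h3
        rw [← uu_neg k1 (k2 - Y), neg_sub]
        linarith only [a1, a2, a3]
      · have a1 := uu_hi' h h1 (s := -k2) (s' := Y - k2) (by linarith only [h3]) (by linarith only [hY])
        rw [← uu_neg k1 (k2 - Y), neg_sub]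
        rw [uu_neg] at a1
        linarith only [a1]

theorem z1 {x Y k1 k2 : ℝ} (h0 : 0 ≤ x) (h1 : x ≤ 16 / 1000000) (hY : 0 ≤ Y) (hY1 : Y ≤ 1)
    (hk : 0 ≤ k1) (hk1 : k1 ≤ 1) (hk2 : |k2| ≤ 16 / 100) : dA1 x Y k1 k2 ≤
      (if k1 < 1 / 2 then cA1 k1 k2 else max (cA1 k1 k2) (oD1 k1 k2)) + 5 / 10000 := by
  have hp := Real.pi_pos
  have hp2 := Real.pi_lt_d4
  have hl := Real.log_two_lt_d9
  obtain ⟨s1, s2⟩ := abs_le.mp hk2
  have a1 := uu_add_le k1 h0 (k2 - Y)
  rw [show k1 + x = x + k1 by ring] at a1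
  have a3 := uu_start h0 h1 Y
  rw [abs_of_nonneg hY] at a3
  have a4 := g_le (k2 := k2) hY hk hk1
  have a5 : (if k1 < 1 / 2 then cA1 k1 k2 else oD1 k1 k2) ≤
      (if k1 < 1 / 2 then cA1 k1 k2 else max (cA1 k1 k2) (oD1 k1 k2)) := by
    split_ifs
    · exact le_rfl
    · exact le_max_right _ _
  have m1 : x * (Real.pi * |k2 - Y| + Real.log 2) ≤ 16 / 1000000 * (31416 / 10000 * (116 / 100) +
      6932 / 10000) := by
    have hd2 : |k2 - Y| ≤ 116 / 100 := by
      rw [abs_le]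
      constructor <;> linarith only [hY1, s1, hY, s2]
    apply mul_le_mul h1 _ _ (by norm_num)
    · have : Real.pi * |k2 - Y| ≤ 31416 / 10000 * (116 / 100) :=
        mul_le_mul (by linarith only [hp2]) hd2 (abs_nonneg _) (by norm_num)
      linarith only [hl, this]
    · have : 0 ≤ Real.log 2 := Real.log_nonneg (by norm_num)
      have : 0 ≤ Real.pi * |k2 - Y| := mul_nonneg hp.le (abs_nonneg _)
      linarith
  have m2 : Real.pi * (x * k2) ≤ 31416 / 10000 * (16 / 1000000 * (16 / 100)) := by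
    have b1 : x * k2 ≤ x * (16 / 100) := mul_le_mul_of_nonneg_left s2 h0
    have b2 : x * (16 / 100) ≤ 16 / 1000000 * (16 / 100) := by linarith only [h1]
    have b3 := mul_le_mul_of_nonneg_left (b1.trans b2) hp.le
    linarith only [hp2, b3]
  have e : dA1 x Y k1 k2 = Real.pi * (x * k2) - Real.pi * k1 * Y + uu (x + k1) (k2 - Y) - uu x Y := by
    unfold dA1
    ring
  rw [e]
  have e2 : Real.pi * (1 / 2 - k1) * Y = Real.pi / 2 * Y - Real.pi * k1 * Y := by ring
  rw [e2] at a4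
  generalize uu (x + k1) (k2 - Y) = U1 at *
  generalize uu k1 (k2 - Y) = U2 at *
  generalize uu x Y = U3 at *
  generalize (if k1 < 1 / 2 then cA1 k1 k2 else max (cA1 k1 k2) (oD1 k1 k2)) = C1 at *
  generalize (if k1 < 1 / 2 then cA1 k1 k2 else oD1 k1 k2) = C2 at *
  generalize x * (Real.pi * |k2 - Y| + Real.log 2) = U4 at *
  generalize Real.pi * (x * k2) = U5 at *
  generalize Real.pi * k1 * Y = U6 at *
  generalize Real.pi / 2 * Y = U7 at *
  norm_num at m1 m2
  linarith only [a5, a1, a3, a4, m1, m2]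

theorem z2 {x Y k1 k2 : ℝ} (h0 : 0 ≤ x) (h1 : x ≤ 16 / 1000000) (hY : 0 ≤ Y) (hY1 : Y ≤ 1)
    (hk : 0 ≤ k1) (hk1 : k1 ≤ 1) (hk2 : k2 ≤ 16 / 100) : dA2 x Y k1 k2 ≤
      max (cA2 k1 k2) (oD2 k1 k2) + 5 / 10000 := by
  have hp := Real.pi_pos
  have hp2 := Real.pi_lt_d4
  have hl := Real.log_two_lt_d9
  have a1 := uu_add_le k1 h0 (k2 - Y)
  rw [show k1 + x = x + k1 by ring] at a1
  have a3 := uu_start h0 h1 Y
  rw [abs_of_nonneg hY] at a3
  have a4 := g_le (k2 := k2) hY hk hk1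
  have a5 : -(Real.pi * k1 * k2) + (if k1 < 1 / 2 then cA1 k1 k2 else oD1 k1 k2) ≤
      max (cA2 k1 k2) (oD2 k1 k2) := by
    split_ifs
    · refine le_trans (le_of_eq ?_) (le_max_left _ _)
      unfold cA1 cA2
      ring
    · refine le_trans (le_of_eq ?_) (le_max_right _ _)
      unfold oD1 oD2
      ring
  have m1 : Real.pi * x * (Y + k2) + x * (Real.pi * |k2 - Y| + Real.log 2) ≤
      16 / 1000000 * (31416 / 10000 * 2 + 6932 / 10000) := by
    have hd2 : Y + k2 + |k2 - Y| ≤ 2 := by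
      rcases abs_cases (k2 - Y) with ⟨h, _⟩ | ⟨h, _⟩
      · rw [h]; linarith only [hk2]
      · rw [h]; linarith only [hY1]
    have hd3 : 0 ≤ Y + k2 + |k2 - Y| := by
      have := neg_abs_le (k2 - Y)
      linarith only [hY, this]
    have e : Real.pi * x * (Y + k2) + x * (Real.pi * |k2 - Y| + Real.log 2) =
      x * (Real.pi * (Y + k2 + |k2 - Y|) + Real.log 2) := by ring
    rw [e]
    apply mul_le_mul h1 _ _ (by norm_num)
    · have : Real.pi * (Y + k2 + |k2 - Y|) ≤ 31416 / 10000 * 2 :=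
        mul_le_mul (by linarith only [hp2]) hd2 hd3 (by norm_num)
      linarith only [hl, this]
    · have : 0 ≤ Real.log 2 := Real.log_nonneg (by norm_num)
      have : 0 ≤ Real.pi * (Y + k2 + |k2 - Y|) := mul_nonneg hp.le hd3
      linarith
  have e : dA2 x Y k1 k2 = Real.pi * x * (Y + k2) - Real.pi * k1 * Y - Real.pi * k1 * k2 -
      Real.pi / 2 * Y + uu (x + k1) (k2 - Y) - 2 * uu x Y := by
    unfold dA2
    ring
  rw [e]
  have e2 : Real.pi * (1 / 2 - k1) * Y = Real.pi / 2 * Y - Real.pi * k1 * Y := by ring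
  rw [e2] at a4
  generalize uu (x + k1) (k2 - Y) = U1 at *
  generalize uu k1 (k2 - Y) = U2 at *
  generalize uu x Y = U3 at *
  generalize max (cA2 k1 k2) (oD2 k1 k2) = C1 at *
  generalize (if k1 < 1 / 2 then cA1 k1 k2 else oD1 k1 k2) = C2 at *
  generalize x * (Real.pi * |k2 - Y| + Real.log 2) = U4 at *
  generalize Real.pi * x * (Y + k2) = U5 at *
  generalize Real.pi * k1 * Y = U6 at *
  generalize Real.pi * k1 * k2 = U8 at *
  generalize Real.pi / 2 * Y = U7 at *
  norm_num at m1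
  linarith only [a1, a5, a3, a4, m1]

theorem z0 {x Y : ℝ} (h0 : 0 ≤ x) (h1 : x ≤ 16 / 1000000) (hY : 0 ≤ Y) (hY1 : Y ≤ 1) :
    dA0 x Y ≤ 5 / 10000 := by
  have hp := Real.pi_pos
  have hp2 := Real.pi_lt_d4
  have a3 := uu_start h0 h1 Y
  rw [abs_of_nonneg hY] at a3
  have m : Real.pi * (x * Y) ≤ 31416 / 10000 * (16 / 1000000) := by
    have : x * Y ≤ 16 / 1000000 * 1 := mul_le_mul h1 hY1 hY (by norm_num)
    exact mul_le_mul (by linarith only [hp2]) (by linarith only [this]) (by positivity) (by norm_num)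
  have e : dA0 x Y = Real.pi * (x * Y) - Real.pi / 2 * Y - uu x Y := by
    unfold dA0
    ring
  rw [e]
  norm_num at m
  linarith only [a3, m]

theorem wf {x Y σ η : ℝ} (hY : 1 ≤ Y) (hσ : |σ| ≤ 1 / 2) (hη : 0 ≤ η)
    (hη1 : η ≤ 1045 / 10000) : fA x Y σ η ≤ bR σ η + 2 / 1000 := by
  have hp := Real.pi_pos
  obtain ⟨s1, s2⟩ := abs_le.mp hσ
  rw [fA_uu]
  have a1 := (abs_le.mp (lim1 (a := x + 1 / 2 + σ) (y := Y + η) (by
    rw [abs_of_nonneg (by linarith only [hY, hη])]; linarith only [hY, hη]))).2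
  have a2 := (abs_le.mp (lim84 (a := x + 1 / 2 - σ) (y := Y - η) (by
    rw [abs_of_nonneg (by linarith only [hY, hη1])]; linarith only [hY, hη1]))).2
  have a3 := (abs_le.mp (lim1 (a := x) (y := Y) (by
    rw [abs_of_nonneg (by linarith only [hY])]; linarith only [hY]))).1
  rw [abs_of_nonneg (show 0 ≤ Y + η by linarith only [hY, hη])] at a1
  rw [abs_of_nonneg (show 0 ≤ Y - η by linarith only [hY, hη1])] at a2
  rw [abs_of_nonneg (show 0 ≤ Y by linarith only [hY])] at a3
  have m : 2 * Real.pi * η * σ ≤ bR σ η := by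
    unfold bR
    exact mul_le_mul_of_nonneg_left (le_max_left _ _) (by positivity)
  have e : Real.pi * (x + 1 / 2 + σ - 1 / 2) * (Y + η) + Real.pi * (x + 1 / 2 - σ - 1 / 2) * (Y - η) -
      2 * (Real.pi * (x - 1 / 2) * Y) - Real.pi * Y = 2 * Real.pi * η * σ := by ring
  linarith only [a1, a2, a3, m]

theorem w1 {x Y k1 k2 : ℝ} (hY : 1 ≤ Y) (hk2 : k2 ≤ 16 / 100) :
    dA1 x Y k1 k2 ≤ cA1 k1 k2 + 2 / 1000 := by
  have a1 := (abs_le.mp (lim84 (a := x + k1) (y := k2 - Y) (by
    rw [abs_of_nonpos (by linarith only [hY, hk2])]; linarith only [hY, hk2]))).2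
  have a3 := (abs_le.mp (lim1 (a := x) (y := Y) (by
    rw [abs_of_nonneg (by linarith only [hY])]; linarith only [hY]))).1
  rw [abs_of_nonpos (show k2 - Y ≤ 0 by linarith only [hY, hk2])] at a1
  rw [abs_of_nonneg (show 0 ≤ Y by linarith only [hY])] at a3
  unfold dA1 cA1
  have e : Real.pi * (x * k2 - Y * k1) + Real.pi * (x + k1 - 1 / 2) * -(k2 - Y) -
      Real.pi * (x - 1 / 2) * Y = Real.pi * k2 * (1 / 2 - k1) := by ring
  linarith only [a1, a3]

theorem w2 {x Y k1 k2 : ℝ} (hY : 1 ≤ Y) (hk2 : k2 ≤ 16 / 100) :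
    dA2 x Y k1 k2 ≤ cA2 k1 k2 + 3 / 1000 := by
  have a1 := (abs_le.mp (lim84 (a := x + k1) (y := k2 - Y) (by
    rw [abs_of_nonpos (by linarith only [hY, hk2])]; linarith only [hY, hk2]))).2
  have a3 := (abs_le.mp (lim1 (a := x) (y := Y) (by
    rw [abs_of_nonneg (by linarith only [hY])]; linarith only [hY]))).1
  rw [abs_of_nonpos (show k2 - Y ≤ 0 by linarith only [hY, hk2])] at a1
  rw [abs_of_nonneg (show 0 ≤ Y by linarith only [hY])] at a3
  unfold dA2 cA2
  have e : Real.pi * (x - k1) * (Y + k2) - Real.pi * Y / 2 +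
      Real.pi * (x + k1 - 1 / 2) * -(k2 - Y) - 2 * (Real.pi * (x - 1 / 2) * Y) =
      Real.pi * k2 * (1 / 2 - 2 * k1) := by ring
  linarith only [a1, a3]

theorem w0 {x Y : ℝ} (hY : 1 ≤ Y) : dA0 x Y ≤ 1 / 1000 := by
  have a3 := (abs_le.mp (lim1 (a := x) (y := Y) (by
    rw [abs_of_nonneg (by linarith only [hY])]; linarith only [hY]))).1
  rw [abs_of_nonneg (show 0 ≤ Y by linarith only [hY])] at a3
  unfold dA0
  linarith only [a3]

theorem rowsZ : RowsZ where
  zf := fun _ _ _ _ h0 h1 hY hY1 hs h2 h3 => zf h0 h1 hY hY1 hs h2 h3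
  z1 := fun _ _ _ _ h0 h1 hY hY1 h2 h3 h4 => z1 h0 h1 hY hY1 h2 h3 h4
  z2 := fun _ _ _ _ h0 h1 hY hY1 h2 h3 h4 => z2 h0 h1 hY hY1 h2 h3 h4
  z0 := fun _ _ h0 h1 hY hY1 => z0 h0 h1 hY hY1
  wf := fun _ _ _ _ _ _ hY hs h2 h3 => wf hY hs h2 h3
  w1 := fun _ _ _ _ _ _ hY _ _ h => w1 hY h
  w2 := fun _ _ _ _ _ _ hY _ _ h => w2 hY h
  w0 := fun _ _ _ _ hY => w0 hY

end ZD

end Pool.Agent.Work.MP_b30479_gt.G2
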